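import Pool.Agent.GCP.AXDb

set_option autoImplicit false
set_option maxRecDepth 100000

/-! # Blocks AXB1 (generated) -/

namespace Pool.Agent.GCP.AX

open Pool.Agent.GCP

theorem b12 : B 1536 1581 := Blk.of_chk [.t 1 (nat_lit 0) (.ax 8 10 12 14 1), .t 1 (nat_lit 0) (.ax 8 10 12 14 2), .t 1 (nat_lit 0) (.ax 8 10 12 14 4), .t 1 (nat_lit 0) (.ax 8 10 13 14 0), .t 1 (nat_lit 0) (.ax 8 10 13 14 3), .t 1 (nat_lit 0) (.ax 8 10 13 14 5), .t 1 (nat_lit 0) (.ax 8 11 12 13 0), .t 1 (nat_lit 0) (.ax 8 11 12 13 5), .t 1 (nat_lit 0) (.ax 8 11 12 14 0), .t 1 (nat_lit 0) (.ax 8 11 13 14 2), .t 1 (nat_lit 0) (.ax 8 11 13 14 4), .t 1 (nat_lit 0) (.ax 8 12 13 14 0), .t 1 (nat_lit 0) (.ax 8 12 13 14 1), .t 1 (nat_lit 0) (.ax 8 12 13 14 4), .t 1 (nat_lit 0) (.ax 8 12 13 14 5), .t 1 (nat_lit 0) (.ax 9 10 11 12 1),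 .t 1 (nat_lit 0) (.ax 9 10 11 12 2), .t 1 (nat_lit 0) (.ax 9 10 11 12 4), .t 1 (nat_lit 0) (.ax 9 10 11 12 6), .t 1 (nat_lit 0) (.ax 9 10 11 13 0), .t 1 (nat_lit 0) (.ax 9 10 11 13 5), .t 1 (nat_lit 0) (.ax 9 10 12 13 1), .t 1 (nat_lit 0) (.ax 9 10 12 13 2), .t 1 (nat_lit 0) (.ax 9 10 12 13 4), .t 1 (nat_lit 0) (.ax 9 10 12 14 1), .t 1 (nat_lit 0) (.ax 9 10 12 14 2), .t 1 (nat_lit 0) (.ax 9 10 12 14 4), .t 1 (nat_lit 0) (.ax 9 10 13 14 0), .t 1 (nat_lit 0) (.ax 9 10 13 14 3), .t 1 (nat_lit 0) (.ax 9 10 13 14 5), .t 1 (nat_lit 0) (.ax 9 11 13 14 3), .t 1 (nat_lit 0) (.ax 9 12 13 14 0), .t 1 (nat_lit 0) (.ax 9 12 13 14 3), .t 1 (nat_lit 0) (.ax 9 12 13 14 5), .t 1 (nat_lit 0) (.ax 10 11 12 14 0), .t 1 (nat_lit 0) (.ax 10 11 12 14 1), .t 1 (nat_lit 0) (.ax 10 11 12 14 4), .t 1 (nat_lit 0) (.ax 10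 11 12 14 5), .t 1 (nat_lit 0) (.ax 10 12 13 14 0), .t 1 (nat_lit 0) (.ax 10 12 13 14 5), .t 1 (nat_lit 0) (.ax 11 12 13 14 0), .t 1 (nat_lit 0) (.ax 11 12 13 14 1), .t 1 (nat_lit 0) (.ax 11 12 13 14 3), .t 1 (nat_lit 0) (.ax 11 12 13 14 4), .t 1 (nat_lit 0) (.ax 11 12 13 14 5)] (by decide +kernel) (by decide +kernel)

end Pool.Agent.GCP.AX
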