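import Pool.Agent.GCP.AXB0
import Pool.Agent.GCP.AXB1

set_option autoImplicit false

/-! # Assembly AXAll (generated) -/

namespace Pool.Agent.GCP.AX

open Pool.Agent.GCP

theorem a0 : B 0 128 := b0
theorem a1 : B 0 256 := a0.trans b1
theorem a2 : B 0 384 := a1.trans b2
theorem a3 : B 0 512 := a2.trans b3
theorem a4 : B 0 640 := a3.trans b4
theorem a5 : B 0 768 := a4.trans b5
theorem a6 : B 0 896 := a5.trans b6
theorem a7 : B 0 1024 := a6.trans b7
theorem a8 : B 0 1152 := a7.trans b8
theorem a9 : B 0 1280 := a8.trans b9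
theorem a10 : B 0 1408 := a9.trans b10
theorem a11 : B 0 1536 := a10.trans b11
theorem a12 : B 0 1581 := a11.trans b12

theorem all : B 0 1581 := a12

theorem axs : ∀ P, Frame 15 P → ¬ HCPle (P '' {i | i < 15}) 4 →
    ∀ k < 1581, Hold (val P) (db.get k) := fun _ hf hK => all _ (Asg.zero _)
    (thk_sound G7.facts hf hK false (fun h => absurd h (by simp)))
    (fun k hk => absurd hk (Nat.not_lt_zero k))

end Pool.Agent.GCP.AX
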