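import Pool.Agent.GCP.AXDb

set_option autoImplicit false
set_option maxRecDepth 100000

/-! # Blocks AXB0 (generated) -/

namespace Pool.Agent.GCP.AX

open Pool.Agent.GCP

theorem b0 : B 0 128 := Blk.of_chk [.t 1 (nat_lit 0) (.ax 1 2 3 4 0), .t 1 (nat_lit 0) (.ax 1 2 3 4 1), .t 1 (nat_lit 0) (.ax 1 2 3 4 2), .t 1 (nat_lit 0) (.ax 1 2 3 4 3), .t 1 (nat_lit 0) (.ax 1 2 3 4 4), .t 1 (nat_lit 0) (.ax 1 2 3 4 5), .t 1 (nat_lit 0) (.ax 1 2 3 4 7), .t 1 (nat_lit 0) (.ax 1 2 3 5 0), .t 1 (nat_lit 0) (.ax 1 2 3 5 1), .t 1 (nat_lit 0) (.ax 1 2 3 5 2), .t 1 (nat_lit 0) (.ax 1 2 3 5 3), .t 1 (nat_lit 0) (.ax 1 2 3 5 4), .t 1 (nat_lit 0) (.ax 1 2 3 5 5), .t 1 (nat_lit 0) (.ax 1 2 3 5 7), .t 1 (nat_lit 0) (.ax 1 2 3 6 0), .t 1 (nat_lit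 0) (.ax 1 2 3 6 1), .t 1 (nat_lit 0) (.ax 1 2 3 6 3), .t 1 (nat_lit 0) (.ax 1 2 3 6 4), .t 1 (nat_lit 0) (.ax 1 2 3 6 5), .t 1 (nat_lit 0) (.ax 1 2 3 6 6), .t 1 (nat_lit 0) (.ax 1 2 3 6 7), .t 1 (nat_lit 0) (.ax 1 2 3 7 0), .t 1 (nat_lit 0) (.ax 1 2 3 7 1), .t 1 (nat_lit 0) (.ax 1 2 3 7 2), .t 1 (nat_lit 0) (.ax 1 2 3 7 3), .t 1 (nat_lit 0) (.ax 1 2 3 7 4), .t 1 (nat_lit 0) (.ax 1 2 3 7 5), .t 1 (nat_lit 0) (.ax 1 2 3 7 7), .t 1 (nat_lit 0) (.ax 1 2 3 8 1), .t 1 (nat_lit 0) (.ax 1 2 3 8 5), .t 1 (nat_lit 0) (.ax 1 2 3 10 1), .t 1 (nat_lit 0) (.ax 1 2 3 11 3), .t 1 (nat_lit 0) (.ax 1 2 3 11 7), .t 1 (nat_lit 0) (.ax 1 2 3 12 1), .t 1 (nat_lit 0) (.ax 1 2 3 12 4), .t 1 (nat_lit 0) (.ax 1 2 3 13 7), .t 1 (nat_lit 0) (.ax 1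 2 3 14 0), .t 1 (nat_lit 0) (.ax 1 2 3 14 3), .t 1 (nat_lit 0) (.ax 1 2 4 5 0), .t 1 (nat_lit 0) (.ax 1 2 4 5 1), .t 1 (nat_lit 0) (.ax 1 2 4 5 2), .t 1 (nat_lit 0) (.ax 1 2 4 5 3), .t 1 (nat_lit 0) (.ax 1 2 4 5 4), .t 1 (nat_lit 0) (.ax 1 2 4 5 5), .t 1 (nat_lit 0) (.ax 1 2 4 6 0), .t 1 (nat_lit 0) (.ax 1 2 4 6 1), .t 1 (nat_lit 0) (.ax 1 2 4 6 2), .t 1 (nat_lit 0) (.ax 1 2 4 6 3), .t 1 (nat_lit 0) (.ax 1 2 4 6 4), .t 1 (nat_lit 0) (.ax 1 2 4 6 5), .t 1 (nat_lit 0) (.ax 1 2 4 6 6), .t 1 (nat_lit 0) (.ax 1 2 4 6 7), .t 1 (nat_lit 0) (.ax 1 2 4 7 0), .t 1 (nat_lit 0) (.ax 1 2 4 7 2), .t 1 (nat_lit 0) (.ax 1 2 4 7 3), .t 1 (nat_lit 0) (.ax 1 2 4 7 5), .t 1 (nat_lit 0) (.ax 1 2 4 7 6), .t 1 (nat_lit 0) (.ax 1 2 4 7 7), .t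 1 (nat_lit 0) (.ax 1 2 4 8 0), .t 1 (nat_lit 0) (.ax 1 2 4 8 1), .t 1 (nat_lit 0) (.ax 1 2 4 8 3), .t 1 (nat_lit 0) (.ax 1 2 4 8 5), .t 1 (nat_lit 0) (.ax 1 2 4 8 6), .t 1 (nat_lit 0) (.ax 1 2 4 9 3), .t 1 (nat_lit 0) (.ax 1 2 4 10 3), .t 1 (nat_lit 0) (.ax 1 2 4 11 0), .t 1 (nat_lit 0) (.ax 1 2 4 11 3), .t 1 (nat_lit 0) (.ax 1 2 4 11 5), .t 1 (nat_lit 0) (.ax 1 2 4 12 3), .t 1 (nat_lit 0) (.ax 1 2 4 13 3), .t 1 (nat_lit 0) (.ax 1 2 4 14 0), .t 1 (nat_lit 0) (.ax 1 2 4 14 2), .t 1 (nat_lit 0) (.ax 1 2 4 14 3), .t 1 (nat_lit 0) (.ax 1 2 4 14 4), .t 1 (nat_lit 0) (.ax 1 2 5 6 1), .t 1 (nat_lit 0) (.ax 1 2 5 6 2), .t 1 (nat_lit 0) (.ax 1 2 5 6 3), .t 1 (nat_lit 0) (.ax 1 2 5 6 4), .t 1 (nat_lit 0) (.ax 1 2 5 6 5), .t 1 (nat_lit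 0) (.ax 1 2 5 6 6), .t 1 (nat_lit 0) (.ax 1 2 5 7 0), .t 1 (nat_lit 0) (.ax 1 2 5 7 1), .t 1 (nat_lit 0) (.ax 1 2 5 7 3), .t 1 (nat_lit 0) (.ax 1 2 5 7 4), .t 1 (nat_lit 0) (.ax 1 2 5 7 5), .t 1 (nat_lit 0) (.ax 1 2 5 7 7), .t 1 (nat_lit 0) (.ax 1 2 5 8 3), .t 1 (nat_lit 0) (.ax 1 2 5 8 5), .t 1 (nat_lit 0) (.ax 1 2 5 9 3), .t 1 (nat_lit 0) (.ax 1 2 5 9 5), .t 1 (nat_lit 0) (.ax 1 2 5 10 3), .t 1 (nat_lit 0) (.ax 1 2 5 10 5), .t 1 (nat_lit 0) (.ax 1 2 5 11 3), .t 1 (nat_lit 0) (.ax 1 2 5 11 7), .t 1 (nat_lit 0) (.ax 1 2 5 12 3), .t 1 (nat_lit 0) (.ax 1 2 5 13 3), .t 1 (nat_lit 0) (.ax 1 2 5 14 3), .t 1 (nat_lit 0) (.ax 1 2 6 7 0), .t 1 (nat_lit 0) (.ax 1 2 6 7 1), .t 1 (nat_lit 0) (.ax 1 2 6 7 2), .t 1 (nat_lit 0) (.ax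 1 2 6 7 3), .t 1 (nat_lit 0) (.ax 1 2 6 7 4), .t 1 (nat_lit 0) (.ax 1 2 6 7 5), .t 1 (nat_lit 0) (.ax 1 2 6 7 6), .t 1 (nat_lit 0) (.ax 1 2 6 7 7), .t 1 (nat_lit 0) (.ax 1 2 6 8 0), .t 1 (nat_lit 0) (.ax 1 2 6 8 6), .t 1 (nat_lit 0) (.ax 1 2 6 11 1), .t 1 (nat_lit 0) (.ax 1 2 6 13 2), .t 1 (nat_lit 0) (.ax 1 2 6 13 4), .t 1 (nat_lit 0) (.ax 1 2 6 14 0), .t 1 (nat_lit 0) (.ax 1 2 7 8 1), .t 1 (nat_lit 0) (.ax 1 2 7 8 2), .t 1 (nat_lit 0) (.ax 1 2 7 8 3), .t 1 (nat_lit 0) (.ax 1 2 7 8 4), .t 1 (nat_lit 0) (.ax 1 2 7 8 5), .t 1 (nat_lit 0) (.ax 1 2 7 11 0), .t 1 (nat_lit 0) (.ax 1 2 7 11 4), .t 1 (nat_lit 0) (.ax 1 2 7 13 4), .t 1 (nat_lit 0) (.ax 1 2 7 14 4), .t 1 (nat_lit 0) (.ax 1 2 8 11 4), .t 1 (nat_lit 0) (.ax 1 2 8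 13 4), .t 1 (nat_lit 0) (.ax 1 2 9 11 1), .t 1 (nat_lit 0) (.ax 1 2 9 11 3), .t 1 (nat_lit 0) (.ax 1 2 9 13 0), .t 1 (nat_lit 0) (.ax 1 2 10 11 1), .t 1 (nat_lit 0) (.ax 1 2 10 11 3), .t 1 (nat_lit 0) (.ax 1 2 10 12 1)] (by decide +kernel) (by decide +kernel)
theorem b1 : B 128 256 := Blk.of_chk [.t 1 (nat_lit 0) (.ax 1 2 10 12 4), .t 1 (nat_lit 0) (.ax 1 2 12 13 4), .t 1 (nat_lit 0) (.ax 1 3 4 5 0), .t 1 (nat_lit 0) (.ax 1 3 4 5 1), .t 1 (nat_lit 0) (.ax 1 3 4 5 2), .t 1 (nat_lit 0) (.ax 1 3 4 5 3), .t 1 (nat_lit 0) (.ax 1 3 4 5 4), .t 1 (nat_lit 0) (.ax 1 3 4 5 5), .t 1 (nat_lit 0) (.ax 1 3 4 5 6), .t 1 (nat_lit 0) (.ax 1 3 4 5 7), .t 1 (nat_lit 0) (.ax 1 3 4 6 0), .t 1 (nat_lit 0) (.ax 1 3 4 6 1), .t 1 (nat_lit 0) (.ax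 1 3 4 6 2), .t 1 (nat_lit 0) (.ax 1 3 4 6 3), .t 1 (nat_lit 0) (.ax 1 3 4 6 4), .t 1 (nat_lit 0) (.ax 1 3 4 6 5), .t 1 (nat_lit 0) (.ax 1 3 4 6 7), .t 1 (nat_lit 0) (.ax 1 3 4 7 0), .t 1 (nat_lit 0) (.ax 1 3 4 7 1), .t 1 (nat_lit 0) (.ax 1 3 4 7 2), .t 1 (nat_lit 0) (.ax 1 3 4 7 3), .t 1 (nat_lit 0) (.ax 1 3 4 7 4), .t 1 (nat_lit 0) (.ax 1 3 4 7 5), .t 1 (nat_lit 0) (.ax 1 3 4 7 6), .t 1 (nat_lit 0) (.ax 1 3 4 7 7), .t 1 (nat_lit 0) (.ax 1 3 4 8 0), .t 1 (nat_lit 0) (.ax 1 3 4 8 1), .t 1 (nat_lit 0) (.ax 1 3 4 8 2), .t 1 (nat_lit 0) (.ax 1 3 4 8 3), .t 1 (nat_lit 0) (.ax 1 3 4 8 5), .t 1 (nat_lit 0) (.ax 1 3 4 9 0), .t 1 (nat_lit 0) (.ax 1 3 4 9 3), .t 1 (nat_lit 0) (.ax 1 3 4 9 5), .t 1 (nat_lit 0) (.ax 1 3 4 9 7), .t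 1 (nat_lit 0) (.ax 1 3 4 10 3), .t 1 (nat_lit 0) (.ax 1 3 4 10 5), .t 1 (nat_lit 0) (.ax 1 3 4 10 6), .t 1 (nat_lit 0) (.ax 1 3 4 11 0), .t 1 (nat_lit 0) (.ax 1 3 4 11 3), .t 1 (nat_lit 0) (.ax 1 3 4 11 4), .t 1 (nat_lit 0) (.ax 1 3 4 11 5), .t 1 (nat_lit 0) (.ax 1 3 4 11 7), .t 1 (nat_lit 0) (.ax 1 3 4 12 3), .t 1 (nat_lit 0) (.ax 1 3 4 12 5), .t 1 (nat_lit 0) (.ax 1 3 4 13 3), .t 1 (nat_lit 0) (.ax 1 3 4 14 3), .t 1 (nat_lit 0) (.ax 1 3 5 6 0), .t 1 (nat_lit 0) (.ax 1 3 5 6 1), .t 1 (nat_lit 0) (.ax 1 3 5 6 3), .t 1 (nat_lit 0) (.ax 1 3 5 6 4), .t 1 (nat_lit 0) (.ax 1 3 5 6 5), .t 1 (nat_lit 0) (.ax 1 3 5 6 7), .t 1 (nat_lit 0) (.ax 1 3 5 7 0), .t 1 (nat_lit 0) (.ax 1 3 5 7 1), .t 1 (nat_lit 0) (.ax 1 3 5 7 2), .t 1 (nat_lit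 0) (.ax 1 3 5 7 3), .t 1 (nat_lit 0) (.ax 1 3 5 7 4), .t 1 (nat_lit 0) (.ax 1 3 5 7 5), .t 1 (nat_lit 0) (.ax 1 3 5 7 6), .t 1 (nat_lit 0) (.ax 1 3 5 7 7), .t 1 (nat_lit 0) (.ax 1 3 5 8 1), .t 1 (nat_lit 0) (.ax 1 3 5 8 3), .t 1 (nat_lit 0) (.ax 1 3 5 8 5), .t 1 (nat_lit 0) (.ax 1 3 5 9 0), .t 1 (nat_lit 0) (.ax 1 3 5 9 5), .t 1 (nat_lit 0) (.ax 1 3 5 9 6), .t 1 (nat_lit 0) (.ax 1 3 5 10 1), .t 1 (nat_lit 0) (.ax 1 3 5 11 0), .t 1 (nat_lit 0) (.ax 1 3 5 11 2), .t 1 (nat_lit 0) (.ax 1 3 5 11 4), .t 1 (nat_lit 0) (.ax 1 3 5 11 5), .t 1 (nat_lit 0) (.ax 1 3 5 11 6), .t 1 (nat_lit 0) (.ax 1 3 5 11 7), .t 1 (nat_lit 0) (.ax 1 3 5 12 1), .t 1 (nat_lit 0) (.ax 1 3 5 12 4), .t 1 (nat_lit 0) (.ax 1 3 5 12 5), .t 1 (nat_lit 0) (.ax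 1 3 5 14 3), .t 1 (nat_lit 0) (.ax 1 3 5 14 5), .t 1 (nat_lit 0) (.ax 1 3 5 14 6), .t 1 (nat_lit 0) (.ax 1 3 6 7 0), .t 1 (nat_lit 0) (.ax 1 3 6 7 1), .t 1 (nat_lit 0) (.ax 1 3 6 7 2), .t 1 (nat_lit 0) (.ax 1 3 6 7 3), .t 1 (nat_lit 0) (.ax 1 3 6 7 4), .t 1 (nat_lit 0) (.ax 1 3 6 7 5), .t 1 (nat_lit 0) (.ax 1 3 6 7 6), .t 1 (nat_lit 0) (.ax 1 3 6 7 7), .t 1 (nat_lit 0) (.ax 1 3 6 8 1), .t 1 (nat_lit 0) (.ax 1 3 6 8 2), .t 1 (nat_lit 0) (.ax 1 3 6 8 3), .t 1 (nat_lit 0) (.ax 1 3 6 8 4), .t 1 (nat_lit 0) (.ax 1 3 6 8 5), .t 1 (nat_lit 0) (.ax 1 3 6 8 6), .t 1 (nat_lit 0) (.ax 1 3 6 8 7), .t 1 (nat_lit 0) (.ax 1 3 6 9 5), .t 1 (nat_lit 0) (.ax 1 3 6 11 5), .t 1 (nat_lit 0) (.ax 1 3 6 12 5), .t 1 (nat_lit 0) (.ax 1 3 6 14 1),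 .t 1 (nat_lit 0) (.ax 1 3 6 14 3), .t 1 (nat_lit 0) (.ax 1 3 7 8 0), .t 1 (nat_lit 0) (.ax 1 3 7 8 3), .t 1 (nat_lit 0) (.ax 1 3 7 8 4), .t 1 (nat_lit 0) (.ax 1 3 7 8 5), .t 1 (nat_lit 0) (.ax 1 3 7 8 7), .t 1 (nat_lit 0) (.ax 1 3 7 9 0), .t 1 (nat_lit 0) (.ax 1 3 7 9 2), .t 1 (nat_lit 0) (.ax 1 3 7 9 4), .t 1 (nat_lit 0) (.ax 1 3 7 9 5), .t 1 (nat_lit 0) (.ax 1 3 7 10 2), .t 1 (nat_lit 0) (.ax 1 3 7 10 3), .t 1 (nat_lit 0) (.ax 1 3 7 10 5), .t 1 (nat_lit 0) (.ax 1 3 7 11 0), .t 1 (nat_lit 0) (.ax 1 3 7 11 1), .t 1 (nat_lit 0) (.ax 1 3 7 11 3), .t 1 (nat_lit 0) (.ax 1 3 7 11 4), .t 1 (nat_lit 0) (.ax 1 3 7 11 5), .t 1 (nat_lit 0) (.ax 1 3 7 11 6), .t 1 (nat_lit 0) (.ax 1 3 7 11 7), .t 1 (nat_lit 0) (.ax 1 3 7 12 2), .t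 1 (nat_lit 0) (.ax 1 3 7 12 4), .t 1 (nat_lit 0) (.ax 1 3 7 12 6), .t 1 (nat_lit 0) (.ax 1 3 7 14 0), .t 1 (nat_lit 0) (.ax 1 3 7 14 1), .t 1 (nat_lit 0) (.ax 1 3 7 14 4), .t 1 (nat_lit 0) (.ax 1 3 8 9 0), .t 1 (nat_lit 0) (.ax 1 3 8 9 5), .t 1 (nat_lit 0) (.ax 1 3 8 11 0), .t 1 (nat_lit 0) (.ax 1 3 8 11 2)] (by decide +kernel) (by decide +kernel)
theorem b2 : B 256 384 := Blk.of_chk [.t 1 (nat_lit 0) (.ax 1 3 8 11 6), .t 1 (nat_lit 0) (.ax 1 3 8 11 7), .t 1 (nat_lit 0) (.ax 1 3 8 12 2), .t 1 (nat_lit 0) (.ax 1 3 9 10 6), .t 1 (nat_lit 0) (.ax 1 3 9 11 2), .t 1 (nat_lit 0) (.ax 1 3 9 11 4), .t 1 (nat_lit 0) (.ax 1 3 9 11 6), .t 1 (nat_lit 0) (.ax 1 3 9 11 7), .t 1 (nat_lit 0) (.ax 1 3 9 12 5), .t 1 (nat_lit 0) (.ax 1 3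 9 13 2), .t 1 (nat_lit 0) (.ax 1 3 9 13 4), .t 1 (nat_lit 0) (.ax 1 3 10 11 1), .t 1 (nat_lit 0) (.ax 1 3 10 11 3), .t 1 (nat_lit 0) (.ax 1 3 10 11 4), .t 1 (nat_lit 0) (.ax 1 3 10 11 5), .t 1 (nat_lit 0) (.ax 1 3 10 12 1), .t 1 (nat_lit 0) (.ax 1 3 10 12 2), .t 1 (nat_lit 0) (.ax 1 3 10 12 4), .t 1 (nat_lit 0) (.ax 1 3 10 12 5), .t 1 (nat_lit 0) (.ax 1 3 10 14 1), .t 1 (nat_lit 0) (.ax 1 3 11 12 1), .t 1 (nat_lit 0) (.ax 1 3 11 12 4), .t 1 (nat_lit 0) (.ax 1 3 11 12 6), .t 1 (nat_lit 0) (.ax 1 3 11 14 6), .t 1 (nat_lit 0) (.ax 1 3 12 14 4), .t 1 (nat_lit 0) (.ax 1 3 12 14 6), .t 1 (nat_lit 0) (.ax 1 3 13 14 1), .t 1 (nat_lit 0) (.ax 1 4 5 6 0), .t 1 (nat_lit 0) (.ax 1 4 5 6 1), .t 1 (nat_lit 0) (.ax 1 4 5 6 2), .t 1 (nat_lit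 0) (.ax 1 4 5 6 3), .t 1 (nat_lit 0) (.ax 1 4 5 6 4), .t 1 (nat_lit 0) (.ax 1 4 5 6 5), .t 1 (nat_lit 0) (.ax 1 4 5 7 0), .t 1 (nat_lit 0) (.ax 1 4 5 7 1), .t 1 (nat_lit 0) (.ax 1 4 5 7 3), .t 1 (nat_lit 0) (.ax 1 4 5 7 4), .t 1 (nat_lit 0) (.ax 1 4 5 7 5), .t 1 (nat_lit 0) (.ax 1 4 5 8 5), .t 1 (nat_lit 0) (.ax 1 4 5 8 6), .t 1 (nat_lit 0) (.ax 1 4 5 8 7), .t 1 (nat_lit 0) (.ax 1 4 5 9 5), .t 1 (nat_lit 0) (.ax 1 4 5 10 0), .t 1 (nat_lit 0) (.ax 1 4 5 10 5), .t 1 (nat_lit 0) (.ax 1 4 5 11 1), .t 1 (nat_lit 0) (.ax 1 4 5 11 3), .t 1 (nat_lit 0) (.ax 1 4 5 11 4), .t 1 (nat_lit 0) (.ax 1 4 5 11 5), .t 1 (nat_lit 0) (.ax 1 4 5 12 5), .t 1 (nat_lit 0) (.ax 1 4 5 13 5), .t 1 (nat_lit 0) (.ax 1 4 5 14 5), .t 1 (nat_lit 0) (.ax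 1 4 5 14 7), .t 1 (nat_lit 0) (.ax 1 4 6 7 0), .t 1 (nat_lit 0) (.ax 1 4 6 7 1), .t 1 (nat_lit 0) (.ax 1 4 6 7 2), .t 1 (nat_lit 0) (.ax 1 4 6 7 3), .t 1 (nat_lit 0) (.ax 1 4 6 7 4), .t 1 (nat_lit 0) (.ax 1 4 6 7 5), .t 1 (nat_lit 0) (.ax 1 4 6 7 7), .t 1 (nat_lit 0) (.ax 1 4 6 8 0), .t 1 (nat_lit 0) (.ax 1 4 6 8 1), .t 1 (nat_lit 0) (.ax 1 4 6 8 3), .t 1 (nat_lit 0) (.ax 1 4 6 8 4), .t 1 (nat_lit 0) (.ax 1 4 6 9 2), .t 1 (nat_lit 0) (.ax 1 4 6 10 2), .t 1 (nat_lit 0) (.ax 1 4 6 10 4), .t 1 (nat_lit 0) (.ax 1 4 6 11 5), .t 1 (nat_lit 0) (.ax 1 4 6 13 2), .t 1 (nat_lit 0) (.ax 1 4 6 14 4), .t 1 (nat_lit 0) (.ax 1 4 7 8 0), .t 1 (nat_lit 0) (.ax 1 4 7 8 3), .t 1 (nat_lit 0) (.ax 1 4 7 8 4), .t 1 (nat_lit 0) (.ax 1 4 7 8 5),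 .t 1 (nat_lit 0) (.ax 1 4 7 8 7), .t 1 (nat_lit 0) (.ax 1 4 7 9 2), .t 1 (nat_lit 0) (.ax 1 4 7 9 4), .t 1 (nat_lit 0) (.ax 1 4 7 9 6), .t 1 (nat_lit 0) (.ax 1 4 7 10 2), .t 1 (nat_lit 0) (.ax 1 4 7 10 4), .t 1 (nat_lit 0) (.ax 1 4 7 11 2), .t 1 (nat_lit 0) (.ax 1 4 7 11 4), .t 1 (nat_lit 0) (.ax 1 4 7 11 6), .t 1 (nat_lit 0) (.ax 1 4 7 13 0), .t 1 (nat_lit 0) (.ax 1 4 7 13 4), .t 1 (nat_lit 0) (.ax 1 4 7 14 4), .t 1 (nat_lit 0) (.ax 1 4 8 9 2), .t 1 (nat_lit 0) (.ax 1 4 8 9 3), .t 1 (nat_lit 0) (.ax 1 4 8 9 5), .t 1 (nat_lit 0) (.ax 1 4 8 9 7), .t 1 (nat_lit 0) (.ax 1 4 8 10 2), .t 1 (nat_lit 0) (.ax 1 4 8 11 2), .t 1 (nat_lit 0) (.ax 1 4 8 11 4), .t 1 (nat_lit 0) (.ax 1 4 8 11 5), .t 1 (nat_lit 0) (.ax 1 4 8 11 6), .t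 1 (nat_lit 0) (.ax 1 4 8 11 7), .t 1 (nat_lit 0) (.ax 1 4 8 12 0), .t 1 (nat_lit 0) (.ax 1 4 8 14 0), .t 1 (nat_lit 0) (.ax 1 4 8 14 4), .t 1 (nat_lit 0) (.ax 1 4 9 11 1), .t 1 (nat_lit 0) (.ax 1 4 9 11 4), .t 1 (nat_lit 0) (.ax 1 4 9 11 6), .t 1 (nat_lit 0) (.ax 1 4 9 14 6), .t 1 (nat_lit 0) (.ax 1 4 10 11 0), .t 1 (nat_lit 0) (.ax 1 4 10 11 2), .t 1 (nat_lit 0) (.ax 1 4 10 12 4), .t 1 (nat_lit 0) (.ax 1 4 11 12 2), .t 1 (nat_lit 0) (.ax 1 4 11 13 2), .t 1 (nat_lit 0) (.ax 1 4 11 13 6), .t 1 (nat_lit 0) (.ax 1 4 11 14 0), .t 1 (nat_lit 0) (.ax 1 4 11 14 2), .t 1 (nat_lit 0) (.ax 1 4 11 14 6), .t 1 (nat_lit 0) (.ax 1 5 6 7 0), .t 1 (nat_lit 0) (.ax 1 5 6 7 1), .t 1 (nat_lit 0) (.ax 1 5 6 7 3), .t 1 (nat_lit 0) (.ax 1 5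 6 7 4), .t 1 (nat_lit 0) (.ax 1 5 6 7 5), .t 1 (nat_lit 0) (.ax 1 5 6 8 0), .t 1 (nat_lit 0) (.ax 1 5 6 8 5), .t 1 (nat_lit 0) (.ax 1 5 6 8 6), .t 1 (nat_lit 0) (.ax 1 5 6 11 5), .t 1 (nat_lit 0) (.ax 1 5 6 14 5), .t 1 (nat_lit 0) (.ax 1 5 7 8 3), .t 1 (nat_lit 0) (.ax 1 5 7 8 5), .t 1 (nat_lit 0) (.ax 1 5 7 9 2), .t 1 (nat_lit 0) (.ax 1 5 7 9 4), .t 1 (nat_lit 0) (.ax 1 5 7 10 0), .t 1 (nat_lit 0) (.ax 1 5 7 10 2), .t 1 (nat_lit 0) (.ax 1 5 7 10 4)] (by decide +kernel) (by decide +kernel)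
theorem b3 : B 384 512 := Blk.of_chk [.t 1 (nat_lit 0) (.ax 1 5 7 10 5), .t 1 (nat_lit 0) (.ax 1 5 7 11 2), .t 1 (nat_lit 0) (.ax 1 5 7 11 4), .t 1 (nat_lit 0) (.ax 1 5 7 11 6), .t 1 (nat_lit 0) (.ax 1 5 7 12 2), .t 1 (nat_lit 0) (.ax 1 5 7 13 2), .t 1 (nat_lit 0) (.ax 1 5 7 13 4), .t 1 (nat_lit 0) (.ax 1 5 7 14 2), .t 1 (nat_lit 0) (.ax 1 5 7 14 4), .t 1 (nat_lit 0) (.ax 1 5 7 14 6), .t 1 (nat_lit 0) (.ax 1 5 8 9 3), .t 1 (nat_lit 0) (.ax 1 5 8 9 4), .t 1 (nat_lit 0) (.ax 1 5 8 9 5), .t 1 (nat_lit 0) (.ax 1 5 8 10 0), .t 1 (nat_lit 0) (.ax 1 5 8 10 4), .t 1 (nat_lit 0) (.ax 1 5 8 11 2), .t 1 (nat_lit 0) (.ax 1 5 8 11 4), .t 1 (nat_lit 0) (.ax 1 5 8 11 5), .t 1 (nat_lit 0) (.ax 1 5 8 11 6), .t 1 (nat_lit 0) (.ax 1 5 8 12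 2), .t 1 (nat_lit 0) (.ax 1 5 8 12 4), .t 1 (nat_lit 0) (.ax 1 5 8 14 4), .t 1 (nat_lit 0) (.ax 1 5 9 11 6), .t 1 (nat_lit 0) (.ax 1 5 9 13 0), .t 1 (nat_lit 0) (.ax 1 5 9 14 2), .t 1 (nat_lit 0) (.ax 1 5 10 11 2), .t 1 (nat_lit 0) (.ax 1 5 10 11 4), .t 1 (nat_lit 0) (.ax 1 5 10 11 6), .t 1 (nat_lit 0) (.ax 1 5 10 12 2), .t 1 (nat_lit 0) (.ax 1 5 10 12 4), .t 1 (nat_lit 0) (.ax 1 5 10 14 0), .t 1 (nat_lit 0) (.ax 1 5 11 13 4), .t 1 (nat_lit 0) (.ax 1 6 7 8 0), .t 1 (nat_lit 0) (.ax 1 6 7 8 1), .t 1 (nat_lit 0) (.ax 1 6 7 8 2), .t 1 (nat_lit 0) (.ax 1 6 7 8 3), .t 1 (nat_lit 0) (.ax 1 6 7 8 4), .t 1 (nat_lit 0) (.ax 1 6 7 8 5), .t 1 (nat_lit 0) (.ax 1 6 7 9 2), .t 1 (nat_lit 0) (.ax 1 6 7 9 4), .t 1 (nat_lit 0) (.ax 1 6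 7 9 6), .t 1 (nat_lit 0) (.ax 1 6 7 10 4), .t 1 (nat_lit 0) (.ax 1 6 7 11 2), .t 1 (nat_lit 0) (.ax 1 6 7 11 4), .t 1 (nat_lit 0) (.ax 1 6 7 12 4), .t 1 (nat_lit 0) (.ax 1 6 7 13 2), .t 1 (nat_lit 0) (.ax 1 6 7 14 2), .t 1 (nat_lit 0) (.ax 1 6 7 14 4), .t 1 (nat_lit 0) (.ax 1 6 8 9 2), .t 1 (nat_lit 0) (.ax 1 6 8 9 4), .t 1 (nat_lit 0) (.ax 1 6 8 9 7), .t 1 (nat_lit 0) (.ax 1 6 8 10 2), .t 1 (nat_lit 0) (.ax 1 6 8 10 6), .t 1 (nat_lit 0) (.ax 1 6 8 11 2), .t 1 (nat_lit 0) (.ax 1 6 8 12 6), .t 1 (nat_lit 0) (.ax 1 6 9 11 4), .t 1 (nat_lit 0) (.ax 1 6 9 11 7), .t 1 (nat_lit 0) (.ax 1 6 9 13 2), .t 1 (nat_lit 0) (.ax 1 6 9 14 4), .t 1 (nat_lit 0) (.ax 1 6 9 14 6), .t 1 (nat_lit 0) (.ax 1 6 10 11 4), .t 1 (nat_lit 0) (.ax 1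 6 10 13 2), .t 1 (nat_lit 0) (.ax 1 6 10 13 6), .t 1 (nat_lit 0) (.ax 1 6 10 14 5), .t 1 (nat_lit 0) (.ax 1 6 11 13 2), .t 1 (nat_lit 0) (.ax 1 6 13 14 5), .t 1 (nat_lit 0) (.ax 1 7 8 11 0), .t 1 (nat_lit 0) (.ax 1 7 9 11 0), .t 1 (nat_lit 0) (.ax 1 7 9 11 2), .t 1 (nat_lit 0) (.ax 1 7 9 11 4), .t 1 (nat_lit 0) (.ax 1 7 9 13 4), .t 1 (nat_lit 0) (.ax 1 7 9 14 5), .t 1 (nat_lit 0) (.ax 1 7 10 11 0), .t 1 (nat_lit 0) (.ax 1 7 10 11 1), .t 1 (nat_lit 0) (.ax 1 7 10 11 2), .t 1 (nat_lit 0) (.ax 1 7 10 11 4), .t 1 (nat_lit 0) (.ax 1 7 10 12 5), .t 1 (nat_lit 0) (.ax 1 7 11 13 2), .t 1 (nat_lit 0) (.ax 1 7 13 14 5), .t 1 (nat_lit 0) (.ax 1 8 9 10 4), .t 1 (nat_lit 0) (.ax 1 8 9 11 3), .t 1 (nat_lit 0) (.ax 1 8 9 11 5), .t 1 (nat_lit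 0) (.ax 1 8 9 12 4), .t 1 (nat_lit 0) (.ax 1 8 9 14 2), .t 1 (nat_lit 0) (.ax 1 8 10 11 1), .t 1 (nat_lit 0) (.ax 1 8 10 13 2), .t 1 (nat_lit 0) (.ax 1 8 11 12 2), .t 1 (nat_lit 0) (.ax 1 8 11 12 4), .t 1 (nat_lit 0) (.ax 1 8 11 14 2), .t 1 (nat_lit 0) (.ax 1 8 12 14 0), .t 1 (nat_lit 0) (.ax 1 9 10 14 3), .t 1 (nat_lit 0) (.ax 1 9 11 13 0), .t 1 (nat_lit 0) (.ax 1 9 13 14 2), .t 1 (nat_lit 0) (.ax 1 9 13 14 4), .t 1 (nat_lit 0) (.ax 1 10 11 12 2), .t 1 (nat_lit 0) (.ax 1 10 11 12 4), .t 1 (nat_lit 0) (.ax 1 11 12 14 5), .t 1 (nat_lit 0) (.ax 2 3 4 5 0), .t 1 (nat_lit 0) (.ax 2 3 4 5 1), .t 1 (nat_lit 0) (.ax 2 3 4 5 2), .t 1 (nat_lit 0) (.ax 2 3 4 5 3), .t 1 (nat_lit 0) (.ax 2 3 4 5 4), .t 1 (nat_lit 0) (.ax 2 3 4 5 5),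 .t 1 (nat_lit 0) (.ax 2 3 4 5 6), .t 1 (nat_lit 0) (.ax 2 3 4 6 0), .t 1 (nat_lit 0) (.ax 2 3 4 6 1), .t 1 (nat_lit 0) (.ax 2 3 4 6 2), .t 1 (nat_lit 0) (.ax 2 3 4 6 3), .t 1 (nat_lit 0) (.ax 2 3 4 6 4), .t 1 (nat_lit 0) (.ax 2 3 4 6 5), .t 1 (nat_lit 0) (.ax 2 3 4 6 6), .t 1 (nat_lit 0) (.ax 2 3 4 7 0), .t 1 (nat_lit 0) (.ax 2 3 4 7 1), .t 1 (nat_lit 0) (.ax 2 3 4 7 2), .t 1 (nat_lit 0) (.ax 2 3 4 7 3), .t 1 (nat_lit 0) (.ax 2 3 4 7 4), .t 1 (nat_lit 0) (.ax 2 3 4 7 5), .t 1 (nat_lit 0) (.ax 2 3 4 7 6), .t 1 (nat_lit 0) (.ax 2 3 4 7 7), .t 1 (nat_lit 0) (.ax 2 3 4 8 0), .t 1 (nat_lit 0) (.ax 2 3 4 8 1), .t 1 (nat_lit 0) (.ax 2 3 4 8 2), .t 1 (nat_lit 0) (.ax 2 3 4 8 3), .t 1 (nat_lit 0) (.ax 2 3 4 8 4), .t 1 (nat_lit 0)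 (.ax 2 3 4 8 6), .t 1 (nat_lit 0) (.ax 2 3 4 9 0), .t 1 (nat_lit 0) (.ax 2 3 4 9 2), .t 1 (nat_lit 0) (.ax 2 3 4 9 6)] (by decide +kernel) (by decide +kernel)
theorem b4 : B 512 640 := Blk.of_chk [.t 1 (nat_lit 0) (.ax 2 3 4 10 0), .t 1 (nat_lit 0) (.ax 2 3 4 10 2), .t 1 (nat_lit 0) (.ax 2 3 4 10 3), .t 1 (nat_lit 0) (.ax 2 3 4 10 6), .t 1 (nat_lit 0) (.ax 2 3 4 11 0), .t 1 (nat_lit 0) (.ax 2 3 4 11 2), .t 1 (nat_lit 0) (.ax 2 3 4 12 0), .t 1 (nat_lit 0) (.ax 2 3 4 12 2), .t 1 (nat_lit 0) (.ax 2 3 4 13 0), .t 1 (nat_lit 0) (.ax 2 3 4 14 0), .t 1 (nat_lit 0) (.ax 2 3 4 14 2), .t 1 (nat_lit 0) (.ax 2 3 4 14 3), .t 1 (nat_lit 0) (.ax 2 3 5 6 0), .t 1 (nat_lit 0) (.ax 2 3 5 6 1), .t 1 (nat_lit 0) (.ax 2 3 5 6 2), .t 1 (nat_lit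 0) (.ax 2 3 5 6 3), .t 1 (nat_lit 0) (.ax 2 3 5 6 4), .t 1 (nat_lit 0) (.ax 2 3 5 6 5), .t 1 (nat_lit 0) (.ax 2 3 5 7 0), .t 1 (nat_lit 0) (.ax 2 3 5 7 1), .t 1 (nat_lit 0) (.ax 2 3 5 7 2), .t 1 (nat_lit 0) (.ax 2 3 5 7 3), .t 1 (nat_lit 0) (.ax 2 3 5 7 4), .t 1 (nat_lit 0) (.ax 2 3 5 7 5), .t 1 (nat_lit 0) (.ax 2 3 5 8 0), .t 1 (nat_lit 0) (.ax 2 3 5 8 3), .t 1 (nat_lit 0) (.ax 2 3 5 9 0), .t 1 (nat_lit 0) (.ax 2 3 5 10 0), .t 1 (nat_lit 0) (.ax 2 3 5 11 0), .t 1 (nat_lit 0) (.ax 2 3 5 11 2), .t 1 (nat_lit 0) (.ax 2 3 5 11 3), .t 1 (nat_lit 0) (.ax 2 3 5 12 0), .t 1 (nat_lit 0) (.ax 2 3 5 13 0), .t 1 (nat_lit 0) (.ax 2 3 5 14 0), .t 1 (nat_lit 0) (.ax 2 3 6 7 0), .t 1 (nat_lit 0) (.ax 2 3 6 7 1), .t 1 (nat_lit 0) (.ax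 2 3 6 7 2), .t 1 (nat_lit 0) (.ax 2 3 6 7 3), .t 1 (nat_lit 0) (.ax 2 3 6 7 4), .t 1 (nat_lit 0) (.ax 2 3 6 7 5), .t 1 (nat_lit 0) (.ax 2 3 6 8 0), .t 1 (nat_lit 0) (.ax 2 3 6 8 3), .t 1 (nat_lit 0) (.ax 2 3 6 9 0), .t 1 (nat_lit 0) (.ax 2 3 6 10 0), .t 1 (nat_lit 0) (.ax 2 3 6 11 0), .t 1 (nat_lit 0) (.ax 2 3 6 12 0), .t 1 (nat_lit 0) (.ax 2 3 6 13 0), .t 1 (nat_lit 0) (.ax 2 3 6 13 2), .t 1 (nat_lit 0) (.ax 2 3 6 14 0), .t 1 (nat_lit 0) (.ax 2 3 7 8 0), .t 1 (nat_lit 0) (.ax 2 3 7 8 1), .t 1 (nat_lit 0) (.ax 2 3 7 8 2), .t 1 (nat_lit 0) (.ax 2 3 7 8 3), .t 1 (nat_lit 0) (.ax 2 3 7 8 4), .t 1 (nat_lit 0) (.ax 2 3 7 8 5), .t 1 (nat_lit 0) (.ax 2 3 7 8 6), .t 1 (nat_lit 0) (.ax 2 3 7 9 2), .t 1 (nat_lit 0) (.ax 2 3 7 9 4),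 .t 1 (nat_lit 0) (.ax 2 3 7 10 2), .t 1 (nat_lit 0) (.ax 2 3 7 10 4), .t 1 (nat_lit 0) (.ax 2 3 7 11 4), .t 1 (nat_lit 0) (.ax 2 3 7 13 4), .t 1 (nat_lit 0) (.ax 2 3 9 10 0), .t 1 (nat_lit 0) (.ax 2 3 9 11 0), .t 1 (nat_lit 0) (.ax 2 3 9 13 6), .t 1 (nat_lit 0) (.ax 2 3 10 11 0), .t 1 (nat_lit 0) (.ax 2 3 10 13 2), .t 1 (nat_lit 0) (.ax 2 3 10 13 4), .t 1 (nat_lit 0) (.ax 2 3 12 13 0), .t 1 (nat_lit 0) (.ax 2 3 13 14 0), .t 1 (nat_lit 0) (.ax 2 4 5 6 0), .t 1 (nat_lit 0) (.ax 2 4 5 6 1), .t 1 (nat_lit 0) (.ax 2 4 5 6 2), .t 1 (nat_lit 0) (.ax 2 4 5 6 3), .t 1 (nat_lit 0) (.ax 2 4 5 6 4), .t 1 (nat_lit 0) (.ax 2 4 5 6 5), .t 1 (nat_lit 0) (.ax 2 4 5 6 7), .t 1 (nat_lit 0) (.ax 2 4 5 7 0), .t 1 (nat_lit 0) (.ax 2 4 5 7 1),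 .t 1 (nat_lit 0) (.ax 2 4 5 7 2), .t 1 (nat_lit 0) (.ax 2 4 5 7 3), .t 1 (nat_lit 0) (.ax 2 4 5 7 4), .t 1 (nat_lit 0) (.ax 2 4 5 7 5), .t 1 (nat_lit 0) (.ax 2 4 5 7 6), .t 1 (nat_lit 0) (.ax 2 4 5 8 0), .t 1 (nat_lit 0) (.ax 2 4 5 8 5), .t 1 (nat_lit 0) (.ax 2 4 5 10 2), .t 1 (nat_lit 0) (.ax 2 4 5 11 0), .t 1 (nat_lit 0) (.ax 2 4 5 11 6), .t 1 (nat_lit 0) (.ax 2 4 5 14 5), .t 1 (nat_lit 0) (.ax 2 4 6 7 0), .t 1 (nat_lit 0) (.ax 2 4 6 7 2), .t 1 (nat_lit 0) (.ax 2 4 6 7 4), .t 1 (nat_lit 0) (.ax 2 4 6 7 5), .t 1 (nat_lit 0) (.ax 2 4 6 7 6), .t 1 (nat_lit 0) (.ax 2 4 6 8 0), .t 1 (nat_lit 0) (.ax 2 4 6 8 2), .t 1 (nat_lit 0) (.ax 2 4 6 10 0), .t 1 (nat_lit 0) (.ax 2 4 6 10 2), .t 1 (nat_lit 0) (.ax 2 4 6 12 0), .t 1 (nat_lit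 0) (.ax 2 4 6 13 2), .t 1 (nat_lit 0) (.ax 2 4 6 14 0), .t 1 (nat_lit 0) (.ax 2 4 6 14 4), .t 1 (nat_lit 0) (.ax 2 4 7 8 0), .t 1 (nat_lit 0) (.ax 2 4 7 8 1), .t 1 (nat_lit 0) (.ax 2 4 7 8 2), .t 1 (nat_lit 0) (.ax 2 4 7 8 3), .t 1 (nat_lit 0) (.ax 2 4 7 8 4), .t 1 (nat_lit 0) (.ax 2 4 7 8 5), .t 1 (nat_lit 0) (.ax 2 4 7 8 6), .t 1 (nat_lit 0) (.ax 2 4 7 9 4), .t 1 (nat_lit 0) (.ax 2 4 7 10 4), .t 1 (nat_lit 0) (.ax 2 4 7 12 4), .t 1 (nat_lit 0) (.ax 2 4 7 12 6), .t 1 (nat_lit 0) (.ax 2 4 7 13 4), .t 1 (nat_lit 0) (.ax 2 4 7 14 4), .t 1 (nat_lit 0) (.ax 2 4 7 14 7), .t 1 (nat_lit 0) (.ax 2 4 8 14 4), .t 1 (nat_lit 0) (.ax 2 4 9 10 0), .t 1 (nat_lit 0) (.ax 2 4 9 11 0), .t 1 (nat_lit 0) (.ax 2 4 9 13 2), .t 1 (nat_lit 0)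 (.ax 2 4 9 14 4), .t 1 (nat_lit 0) (.ax 2 4 10 11 0), .t 1 (nat_lit 0) (.ax 2 4 10 14 4), .t 1 (nat_lit 0) (.ax 2 4 11 14 4), .t 1 (nat_lit 0) (.ax 2 4 12 14 4), .t 1 (nat_lit 0) (.ax 2 4 13 14 0), .t 1 (nat_lit 0) (.ax 2 4 13 14 5)] (by decide +kernel) (by decide +kernel)
theorem b5 : B 640 768 := Blk.of_chk [.t 1 (nat_lit 0) (.ax 2 5 6 7 0), .t 1 (nat_lit 0) (.ax 2 5 6 7 1), .t 1 (nat_lit 0) (.ax 2 5 6 7 3), .t 1 (nat_lit 0) (.ax 2 5 6 7 4), .t 1 (nat_lit 0) (.ax 2 5 6 7 5), .t 1 (nat_lit 0) (.ax 2 5 6 7 6), .t 1 (nat_lit 0) (.ax 2 5 6 8 0), .t 1 (nat_lit 0) (.ax 2 5 6 8 3), .t 1 (nat_lit 0) (.ax 2 5 6 9 0), .t 1 (nat_lit 0) (.ax 2 5 6 10 0), .t 1 (nat_lit 0) (.ax 2 5 6 11 0), .t 1 (nat_lit 0) (.ax 2 5 6 11 5), .t 1 (nat_lit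 0) (.ax 2 5 7 8 0), .t 1 (nat_lit 0) (.ax 2 5 7 8 3), .t 1 (nat_lit 0) (.ax 2 5 7 8 5), .t 1 (nat_lit 0) (.ax 2 5 7 8 6), .t 1 (nat_lit 0) (.ax 2 5 7 9 2), .t 1 (nat_lit 0) (.ax 2 5 7 10 2), .t 1 (nat_lit 0) (.ax 2 5 7 10 4), .t 1 (nat_lit 0) (.ax 2 5 7 11 2), .t 1 (nat_lit 0) (.ax 2 5 7 12 2), .t 1 (nat_lit 0) (.ax 2 5 7 13 2), .t 1 (nat_lit 0) (.ax 2 5 7 14 2), .t 1 (nat_lit 0) (.ax 2 5 7 14 4), .t 1 (nat_lit 0) (.ax 2 5 9 10 0), .t 1 (nat_lit 0) (.ax 2 5 9 11 0), .t 1 (nat_lit 0) (.ax 2 5 10 11 0), .t 1 (nat_lit 0) (.ax 2 5 10 14 2), .t 1 (nat_lit 0) (.ax 2 5 13 14 0), .t 1 (nat_lit 0) (.ax 2 6 7 8 0), .t 1 (nat_lit 0) (.ax 2 6 7 8 2), .t 1 (nat_lit 0) (.ax 2 6 7 8 4), .t 1 (nat_lit 0) (.ax 2 6 7 8 6), .t 1 (nat_lit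 0) (.ax 2 6 7 9 1), .t 1 (nat_lit 0) (.ax 2 6 7 9 4), .t 1 (nat_lit 0) (.ax 2 6 7 10 1), .t 1 (nat_lit 0) (.ax 2 6 7 10 4), .t 1 (nat_lit 0) (.ax 2 6 9 10 0), .t 1 (nat_lit 0) (.ax 2 6 9 11 0), .t 1 (nat_lit 0) (.ax 2 6 10 11 0), .t 1 (nat_lit 0) (.ax 2 6 10 13 2), .t 1 (nat_lit 0) (.ax 2 6 13 14 0), .t 1 (nat_lit 0) (.ax 2 6 13 14 5), .t 1 (nat_lit 0) (.ax 2 7 8 11 4), .t 1 (nat_lit 0) (.ax 2 7 8 13 0), .t 1 (nat_lit 0) (.ax 2 7 9 10 0), .t 1 (nat_lit 0) (.ax 2 7 9 11 0), .t 1 (nat_lit 0) (.ax 2 7 10 11 0), .t 1 (nat_lit 0) (.ax 2 8 9 10 0), .t 1 (nat_lit 0) (.ax 2 8 9 13 5), .t 1 (nat_lit 0) (.ax 2 8 9 14 5), .t 1 (nat_lit 0) (.ax 2 11 12 13 0), .t 1 (nat_lit 0) (.ax 3 4 5 6 0), .t 1 (nat_lit 0) (.ax 3 4 5 6 1), .t 1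 (nat_lit 0) (.ax 3 4 5 6 2), .t 1 (nat_lit 0) (.ax 3 4 5 6 3), .t 1 (nat_lit 0) (.ax 3 4 5 6 4), .t 1 (nat_lit 0) (.ax 3 4 5 6 5), .t 1 (nat_lit 0) (.ax 3 4 5 6 6), .t 1 (nat_lit 0) (.ax 3 4 5 7 0), .t 1 (nat_lit 0) (.ax 3 4 5 7 1), .t 1 (nat_lit 0) (.ax 3 4 5 7 2), .t 1 (nat_lit 0) (.ax 3 4 5 7 3), .t 1 (nat_lit 0) (.ax 3 4 5 7 4), .t 1 (nat_lit 0) (.ax 3 4 5 7 5), .t 1 (nat_lit 0) (.ax 3 4 5 7 7), .t 1 (nat_lit 0) (.ax 3 4 5 8 0), .t 1 (nat_lit 0) (.ax 3 4 5 8 1), .t 1 (nat_lit 0) (.ax 3 4 5 8 3), .t 1 (nat_lit 0) (.ax 3 4 5 8 4), .t 1 (nat_lit 0) (.ax 3 4 5 8 5), .t 1 (nat_lit 0) (.ax 3 4 5 8 6), .t 1 (nat_lit 0) (.ax 3 4 5 8 7), .t 1 (nat_lit 0) (.ax 3 4 5 9 0), .t 1 (nat_lit 0) (.ax 3 4 5 9 5), .t 1 (nat_lit 0) (.ax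 3 4 5 10 0), .t 1 (nat_lit 0) (.ax 3 4 5 10 5), .t 1 (nat_lit 0) (.ax 3 4 5 10 7), .t 1 (nat_lit 0) (.ax 3 4 5 11 3), .t 1 (nat_lit 0) (.ax 3 4 5 11 5), .t 1 (nat_lit 0) (.ax 3 4 5 11 7), .t 1 (nat_lit 0) (.ax 3 4 5 12 0), .t 1 (nat_lit 0) (.ax 3 4 5 12 5), .t 1 (nat_lit 0) (.ax 3 4 5 13 0), .t 1 (nat_lit 0) (.ax 3 4 5 13 5), .t 1 (nat_lit 0) (.ax 3 4 5 14 0), .t 1 (nat_lit 0) (.ax 3 4 5 14 3), .t 1 (nat_lit 0) (.ax 3 4 5 14 5), .t 1 (nat_lit 0) (.ax 3 4 5 14 6), .t 1 (nat_lit 0) (.ax 3 4 5 14 7), .t 1 (nat_lit 0) (.ax 3 4 6 7 0), .t 1 (nat_lit 0) (.ax 3 4 6 7 1), .t 1 (nat_lit 0) (.ax 3 4 6 7 2), .t 1 (nat_lit 0) (.ax 3 4 6 7 3), .t 1 (nat_lit 0) (.ax 3 4 6 7 4), .t 1 (nat_lit 0) (.ax 3 4 6 7 5), .t 1 (nat_lit 0) (.ax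 3 4 6 7 6), .t 1 (nat_lit 0) (.ax 3 4 6 8 0), .t 1 (nat_lit 0) (.ax 3 4 6 8 1), .t 1 (nat_lit 0) (.ax 3 4 6 8 3), .t 1 (nat_lit 0) (.ax 3 4 6 8 4), .t 1 (nat_lit 0) (.ax 3 4 6 8 5), .t 1 (nat_lit 0) (.ax 3 4 6 9 0), .t 1 (nat_lit 0) (.ax 3 4 6 9 5), .t 1 (nat_lit 0) (.ax 3 4 6 10 5), .t 1 (nat_lit 0) (.ax 3 4 6 11 5), .t 1 (nat_lit 0) (.ax 3 4 6 12 4), .t 1 (nat_lit 0) (.ax 3 4 6 12 5), .t 1 (nat_lit 0) (.ax 3 4 6 13 0), .t 1 (nat_lit 0) (.ax 3 4 6 13 2), .t 1 (nat_lit 0) (.ax 3 4 6 13 3), .t 1 (nat_lit 0) (.ax 3 4 6 13 4), .t 1 (nat_lit 0) (.ax 3 4 6 13 5), .t 1 (nat_lit 0) (.ax 3 4 6 14 0), .t 1 (nat_lit 0) (.ax 3 4 6 14 4), .t 1 (nat_lit 0) (.ax 3 4 6 14 5), .t 1 (nat_lit 0) (.ax 3 4 7 8 0), .t 1 (nat_lit 0) (.ax 3 4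 7 8 1), .t 1 (nat_lit 0) (.ax 3 4 7 8 3), .t 1 (nat_lit 0) (.ax 3 4 7 8 4), .t 1 (nat_lit 0) (.ax 3 4 7 8 5), .t 1 (nat_lit 0) (.ax 3 4 7 8 7), .t 1 (nat_lit 0) (.ax 3 4 7 9 2), .t 1 (nat_lit 0) (.ax 3 4 7 9 4), .t 1 (nat_lit 0) (.ax 3 4 7 9 6), .t 1 (nat_lit 0) (.ax 3 4 7 10 2), .t 1 (nat_lit 0) (.ax 3 4 7 10 4), .t 1 (nat_lit 0) (.ax 3 4 7 10 6)] (by decide +kernel) (by decide +kernel)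
theorem b6 : B 768 896 := Blk.of_chk [.t 1 (nat_lit 0) (.ax 3 4 7 11 0), .t 1 (nat_lit 0) (.ax 3 4 7 11 2), .t 1 (nat_lit 0) (.ax 3 4 7 11 4), .t 1 (nat_lit 0) (.ax 3 4 7 12 0), .t 1 (nat_lit 0) (.ax 3 4 7 12 2), .t 1 (nat_lit 0) (.ax 3 4 7 12 4), .t 1 (nat_lit 0) (.ax 3 4 7 13 0), .t 1 (nat_lit 0) (.ax 3 4 7 13 2), .t 1 (nat_lit 0) (.ax 3 4 7 13 4), .t 1 (nat_lit 0) (.ax 3 4 7 14 2), .t 1 (nat_lit 0) (.ax 3 4 7 14 4), .t 1 (nat_lit 0) (.ax 3 4 7 14 6), .t 1 (nat_lit 0) (.ax 3 4 8 9 2), .t 1 (nat_lit 0) (.ax 3 4 8 9 6), .t 1 (nat_lit 0) (.ax 3 4 8 10 2), .t 1 (nat_lit 0) (.ax 3 4 8 10 4), .t 1 (nat_lit 0) (.ax 3 4 8 10 6), .t 1 (nat_lit 0) (.ax 3 4 8 11 0), .t 1 (nat_lit 0) (.ax 3 4 8 11 2), .t 1 (nat_lit 0) (.ax 3 4 8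 11 4), .t 1 (nat_lit 0) (.ax 3 4 8 11 6), .t 1 (nat_lit 0) (.ax 3 4 8 12 2), .t 1 (nat_lit 0) (.ax 3 4 8 12 4), .t 1 (nat_lit 0) (.ax 3 4 8 12 6), .t 1 (nat_lit 0) (.ax 3 4 8 14 2), .t 1 (nat_lit 0) (.ax 3 4 8 14 4), .t 1 (nat_lit 0) (.ax 3 4 9 10 4), .t 1 (nat_lit 0) (.ax 3 4 9 10 6), .t 1 (nat_lit 0) (.ax 3 4 9 10 7), .t 1 (nat_lit 0) (.ax 3 4 9 13 2), .t 1 (nat_lit 0) (.ax 3 4 9 13 4), .t 1 (nat_lit 0) (.ax 3 4 9 13 6), .t 1 (nat_lit 0) (.ax 3 4 9 14 0), .t 1 (nat_lit 0) (.ax 3 4 9 14 4), .t 1 (nat_lit 0) (.ax 3 4 9 14 6), .t 1 (nat_lit 0) (.ax 3 4 10 11 5), .t 1 (nat_lit 0) (.ax 3 4 10 13 2), .t 1 (nat_lit 0) (.ax 3 4 10 13 4), .t 1 (nat_lit 0) (.ax 3 4 10 13 6), .t 1 (nat_lit 0) (.ax 3 4 10 14 3), .t 1 (nat_lit 0)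 (.ax 3 4 10 14 4), .t 1 (nat_lit 0) (.ax 3 4 10 14 7), .t 1 (nat_lit 0) (.ax 3 4 11 12 2), .t 1 (nat_lit 0) (.ax 3 4 11 13 2), .t 1 (nat_lit 0) (.ax 3 4 11 14 0), .t 1 (nat_lit 0) (.ax 3 4 11 14 2), .t 1 (nat_lit 0) (.ax 3 4 11 14 4), .t 1 (nat_lit 0) (.ax 3 4 12 14 4), .t 1 (nat_lit 0) (.ax 3 4 12 14 6), .t 1 (nat_lit 0) (.ax 3 4 13 14 0), .t 1 (nat_lit 0) (.ax 3 4 13 14 5), .t 1 (nat_lit 0) (.ax 3 5 6 7 0), .t 1 (nat_lit 0) (.ax 3 5 6 7 1), .t 1 (nat_lit 0) (.ax 3 5 6 7 2), .t 1 (nat_lit 0) (.ax 3 5 6 7 3), .t 1 (nat_lit 0) (.ax 3 5 6 7 4), .t 1 (nat_lit 0) (.ax 3 5 6 7 5), .t 1 (nat_lit 0) (.ax 3 5 6 7 6), .t 1 (nat_lit 0) (.ax 3 5 6 8 0), .t 1 (nat_lit 0) (.ax 3 5 6 8 3), .t 1 (nat_lit 0) (.ax 3 5 6 8 4), .t 1 (nat_lit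 0) (.ax 3 5 6 8 5), .t 1 (nat_lit 0) (.ax 3 5 6 8 7), .t 1 (nat_lit 0) (.ax 3 5 6 9 3), .t 1 (nat_lit 0) (.ax 3 5 6 9 5), .t 1 (nat_lit 0) (.ax 3 5 6 10 5), .t 1 (nat_lit 0) (.ax 3 5 6 11 5), .t 1 (nat_lit 0) (.ax 3 5 6 12 5), .t 1 (nat_lit 0) (.ax 3 5 6 13 1), .t 1 (nat_lit 0) (.ax 3 5 6 13 4), .t 1 (nat_lit 0) (.ax 3 5 6 13 5), .t 1 (nat_lit 0) (.ax 3 5 6 14 5), .t 1 (nat_lit 0) (.ax 3 5 7 8 0), .t 1 (nat_lit 0) (.ax 3 5 7 8 3), .t 1 (nat_lit 0) (.ax 3 5 7 8 4), .t 1 (nat_lit 0) (.ax 3 5 7 8 5), .t 1 (nat_lit 0) (.ax 3 5 7 8 7), .t 1 (nat_lit 0) (.ax 3 5 7 9 0), .t 1 (nat_lit 0) (.ax 3 5 7 9 2), .t 1 (nat_lit 0) (.ax 3 5 7 9 3), .t 1 (nat_lit 0) (.ax 3 5 7 9 4), .t 1 (nat_lit 0) (.ax 3 5 7 9 6), .t 1 (nat_lit 0) (.ax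 3 5 7 10 0), .t 1 (nat_lit 0) (.ax 3 5 7 10 2), .t 1 (nat_lit 0) (.ax 3 5 7 10 4), .t 1 (nat_lit 0) (.ax 3 5 7 10 5), .t 1 (nat_lit 0) (.ax 3 5 7 10 7), .t 1 (nat_lit 0) (.ax 3 5 7 11 0), .t 1 (nat_lit 0) (.ax 3 5 7 11 2), .t 1 (nat_lit 0) (.ax 3 5 7 11 4), .t 1 (nat_lit 0) (.ax 3 5 7 12 0), .t 1 (nat_lit 0) (.ax 3 5 7 12 2), .t 1 (nat_lit 0) (.ax 3 5 7 13 1), .t 1 (nat_lit 0) (.ax 3 5 7 13 2), .t 1 (nat_lit 0) (.ax 3 5 7 13 4), .t 1 (nat_lit 0) (.ax 3 5 7 14 0), .t 1 (nat_lit 0) (.ax 3 5 7 14 4), .t 1 (nat_lit 0) (.ax 3 5 7 14 6), .t 1 (nat_lit 0) (.ax 3 5 8 9 0), .t 1 (nat_lit 0) (.ax 3 5 8 9 2), .t 1 (nat_lit 0) (.ax 3 5 8 9 3), .t 1 (nat_lit 0) (.ax 3 5 8 9 4), .t 1 (nat_lit 0) (.ax 3 5 8 10 4), .t 1 (nat_lit 0) (.ax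 3 5 8 10 7), .t 1 (nat_lit 0) (.ax 3 5 8 11 0), .t 1 (nat_lit 0) (.ax 3 5 8 11 2), .t 1 (nat_lit 0) (.ax 3 5 8 11 4), .t 1 (nat_lit 0) (.ax 3 5 8 11 6), .t 1 (nat_lit 0) (.ax 3 5 8 12 2), .t 1 (nat_lit 0) (.ax 3 5 8 12 4), .t 1 (nat_lit 0) (.ax 3 5 8 12 6), .t 1 (nat_lit 0) (.ax 3 5 8 14 0), .t 1 (nat_lit 0) (.ax 3 5 9 10 2), .t 1 (nat_lit 0) (.ax 3 5 9 10 7), .t 1 (nat_lit 0) (.ax 3 5 9 11 0), .t 1 (nat_lit 0) (.ax 3 5 9 11 2), .t 1 (nat_lit 0) (.ax 3 5 9 11 6), .t 1 (nat_lit 0) (.ax 3 5 9 13 1), .t 1 (nat_lit 0) (.ax 3 5 9 13 2), .t 1 (nat_lit 0) (.ax 3 5 9 13 4), .t 1 (nat_lit 0) (.ax 3 5 9 14 0), .t 1 (nat_lit 0) (.ax 3 5 10 11 0), .t 1 (nat_lit 0) (.ax 3 5 10 11 2), .t 1 (nat_lit 0) (.ax 3 5 10 11 4), .t 1 (nat_lit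 0) (.ax 3 5 10 11 6), .t 1 (nat_lit 0) (.ax 3 5 10 12 0), .t 1 (nat_lit 0) (.ax 3 5 10 12 2), .t 1 (nat_lit 0) (.ax 3 5 10 12 4)] (by decide +kernel) (by decide +kernel)
theorem b7 : B 896 1024 := Blk.of_chk [.t 1 (nat_lit 0) (.ax 3 5 10 13 1), .t 1 (nat_lit 0) (.ax 3 5 10 13 4), .t 1 (nat_lit 0) (.ax 3 5 10 14 0), .t 1 (nat_lit 0) (.ax 3 5 10 14 4), .t 1 (nat_lit 0) (.ax 3 5 11 13 2), .t 1 (nat_lit 0) (.ax 3 5 11 14 0), .t 1 (nat_lit 0) (.ax 3 5 11 14 6), .t 1 (nat_lit 0) (.ax 3 5 12 14 0), .t 1 (nat_lit 0) (.ax 3 5 13 14 3), .t 1 (nat_lit 0) (.ax 3 5 13 14 5), .t 1 (nat_lit 0) (.ax 3 6 7 8 0), .t 1 (nat_lit 0) (.ax 3 6 7 8 2), .t 1 (nat_lit 0) (.ax 3 6 7 8 4), .t 1 (nat_lit 0) (.ax 3 6 7 8 5), .t 1 (nat_lit 0) (.ax 3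 6 7 9 2), .t 1 (nat_lit 0) (.ax 3 6 7 9 4), .t 1 (nat_lit 0) (.ax 3 6 7 9 6), .t 1 (nat_lit 0) (.ax 3 6 7 10 2), .t 1 (nat_lit 0) (.ax 3 6 7 10 4), .t 1 (nat_lit 0) (.ax 3 6 7 11 2), .t 1 (nat_lit 0) (.ax 3 6 7 11 4), .t 1 (nat_lit 0) (.ax 3 6 7 12 4), .t 1 (nat_lit 0) (.ax 3 6 7 13 1), .t 1 (nat_lit 0) (.ax 3 6 7 13 2), .t 1 (nat_lit 0) (.ax 3 6 7 13 4), .t 1 (nat_lit 0) (.ax 3 6 7 14 0), .t 1 (nat_lit 0) (.ax 3 6 7 14 1), .t 1 (nat_lit 0) (.ax 3 6 7 14 2), .t 1 (nat_lit 0) (.ax 3 6 7 14 4), .t 1 (nat_lit 0) (.ax 3 6 8 9 2), .t 1 (nat_lit 0) (.ax 3 6 8 9 4), .t 1 (nat_lit 0) (.ax 3 6 8 10 2), .t 1 (nat_lit 0) (.ax 3 6 8 10 6), .t 1 (nat_lit 0) (.ax 3 6 8 11 2), .t 1 (nat_lit 0) (.ax 3 6 8 12 2), .t 1 (nat_lit 0) (.ax 3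 6 8 12 6), .t 1 (nat_lit 0) (.ax 3 6 9 10 3), .t 1 (nat_lit 0) (.ax 3 6 9 11 4), .t 1 (nat_lit 0) (.ax 3 6 9 13 1), .t 1 (nat_lit 0) (.ax 3 6 9 13 2), .t 1 (nat_lit 0) (.ax 3 6 9 13 4), .t 1 (nat_lit 0) (.ax 3 6 9 14 1), .t 1 (nat_lit 0) (.ax 3 6 9 14 4), .t 1 (nat_lit 0) (.ax 3 6 10 12 2), .t 1 (nat_lit 0) (.ax 3 6 10 13 1), .t 1 (nat_lit 0) (.ax 3 6 10 13 4), .t 1 (nat_lit 0) (.ax 3 6 10 13 6), .t 1 (nat_lit 0) (.ax 3 6 10 14 1), .t 1 (nat_lit 0) (.ax 3 6 10 14 5), .t 1 (nat_lit 0) (.ax 3 6 13 14 3), .t 1 (nat_lit 0) (.ax 3 6 13 14 5), .t 1 (nat_lit 0) (.ax 3 7 8 9 7), .t 1 (nat_lit 0) (.ax 3 7 8 11 7), .t 1 (nat_lit 0) (.ax 3 7 8 12 1), .t 1 (nat_lit 0) (.ax 3 7 8 12 4), .t 1 (nat_lit 0) (.ax 3 7 9 11 0), .t 1 (nat_lit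 0) (.ax 3 7 9 11 2), .t 1 (nat_lit 0) (.ax 3 7 9 11 4), .t 1 (nat_lit 0) (.ax 3 7 9 12 1), .t 1 (nat_lit 0) (.ax 3 7 9 12 3), .t 1 (nat_lit 0) (.ax 3 7 9 12 5), .t 1 (nat_lit 0) (.ax 3 7 9 12 6), .t 1 (nat_lit 0) (.ax 3 7 9 13 2), .t 1 (nat_lit 0) (.ax 3 7 9 13 4), .t 1 (nat_lit 0) (.ax 3 7 9 14 3), .t 1 (nat_lit 0) (.ax 3 7 9 14 4), .t 1 (nat_lit 0) (.ax 3 7 9 14 5), .t 1 (nat_lit 0) (.ax 3 7 9 14 6), .t 1 (nat_lit 0) (.ax 3 7 10 11 0), .t 1 (nat_lit 0) (.ax 3 7 10 11 1), .t 1 (nat_lit 0) (.ax 3 7 10 11 2), .t 1 (nat_lit 0) (.ax 3 7 10 11 4), .t 1 (nat_lit 0) (.ax 3 7 10 11 5), .t 1 (nat_lit 0) (.ax 3 7 10 12 1), .t 1 (nat_lit 0) (.ax 3 7 10 12 4), .t 1 (nat_lit 0) (.ax 3 7 10 14 1), .t 1 (nat_lit 0) (.ax 3 7 10 14 5),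 .t 1 (nat_lit 0) (.ax 3 7 11 12 1), .t 1 (nat_lit 0) (.ax 3 7 11 12 4), .t 1 (nat_lit 0) (.ax 3 7 11 13 2), .t 1 (nat_lit 0) (.ax 3 7 11 13 4), .t 1 (nat_lit 0) (.ax 3 7 11 14 4), .t 1 (nat_lit 0) (.ax 3 7 12 13 2), .t 1 (nat_lit 0) (.ax 3 7 12 14 0), .t 1 (nat_lit 0) (.ax 3 7 12 14 4), .t 1 (nat_lit 0) (.ax 3 7 13 14 0), .t 1 (nat_lit 0) (.ax 3 7 13 14 5), .t 1 (nat_lit 0) (.ax 3 8 9 10 2), .t 1 (nat_lit 0) (.ax 3 8 9 10 4), .t 1 (nat_lit 0) (.ax 3 8 9 11 5), .t 1 (nat_lit 0) (.ax 3 8 9 12 2), .t 1 (nat_lit 0) (.ax 3 8 9 12 4), .t 1 (nat_lit 0) (.ax 3 8 9 13 2), .t 1 (nat_lit 0) (.ax 3 8 9 13 5), .t 1 (nat_lit 0) (.ax 3 8 9 14 0), .t 1 (nat_lit 0) (.ax 3 8 9 14 2), .t 1 (nat_lit 0) (.ax 3 8 9 14 3), .t 1 (nat_lit 0) (.ax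 3 8 9 14 5), .t 1 (nat_lit 0) (.ax 3 8 10 11 3), .t 1 (nat_lit 0) (.ax 3 8 10 11 5), .t 1 (nat_lit 0) (.ax 3 8 10 12 0), .t 1 (nat_lit 0) (.ax 3 8 10 12 2), .t 1 (nat_lit 0) (.ax 3 8 10 13 2), .t 1 (nat_lit 0) (.ax 3 8 10 14 2), .t 1 (nat_lit 0) (.ax 3 8 11 12 0), .t 1 (nat_lit 0) (.ax 3 8 11 12 4), .t 1 (nat_lit 0) (.ax 3 8 11 14 2), .t 1 (nat_lit 0) (.ax 3 8 12 13 2), .t 1 (nat_lit 0) (.ax 3 8 12 14 0), .t 1 (nat_lit 0) (.ax 3 9 10 12 1), .t 1 (nat_lit 0) (.ax 3 9 12 13 0), .t 1 (nat_lit 0) (.ax 3 9 13 14 0), .t 1 (nat_lit 0) (.ax 3 9 13 14 5), .t 1 (nat_lit 0) (.ax 3 10 11 12 0), .t 1 (nat_lit 0) (.ax 3 10 11 12 2), .t 1 (nat_lit 0) (.ax 3 10 11 12 4), .t 1 (nat_lit 0) (.ax 3 10 12 14 2), .t 1 (nat_lit 0) (.ax 3 10 12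 14 6), .t 1 (nat_lit 0) (.ax 3 10 13 14 0), .t 1 (nat_lit 0) (.ax 3 10 13 14 5), .t 1 (nat_lit 0) (.ax 3 11 12 13 0), .t 1 (nat_lit 0) (.ax 3 11 12 14 5), .t 1 (nat_lit 0) (.ax 4 5 6 7 0), .t 1 (nat_lit 0) (.ax 4 5 6 7 1), .t 1 (nat_lit 0) (.ax 4 5 6 7 2), .t 1 (nat_lit 0) (.ax 4 5 6 7 3), .t 1 (nat_lit 0) (.ax 4 5 6 7 4), .t 1 (nat_lit 0) (.ax 4 5 6 7 5)] (by decide +kernel) (by decide +kernel)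
theorem b8 : B 1024 1152 := Blk.of_chk [.t 1 (nat_lit 0) (.ax 4 5 6 7 7), .t 1 (nat_lit 0) (.ax 4 5 6 8 0), .t 1 (nat_lit 0) (.ax 4 5 6 8 3), .t 1 (nat_lit 0) (.ax 4 5 6 8 5), .t 1 (nat_lit 0) (.ax 4 5 6 9 0), .t 1 (nat_lit 0) (.ax 4 5 6 9 5), .t 1 (nat_lit 0) (.ax 4 5 6 11 0), .t 1 (nat_lit 0) (.ax 4 5 6 11 2), .t 1 (nat_lit 0) (.ax 4 5 6 11 4), .t 1 (nat_lit 0) (.ax 4 5 6 11 5), .t 1 (nat_lit 0) (.ax 4 5 6 12 5), .t 1 (nat_lit 0) (.ax 4 5 6 13 2), .t 1 (nat_lit 0) (.ax 4 5 6 13 4), .t 1 (nat_lit 0) (.ax 4 5 6 14 5), .t 1 (nat_lit 0) (.ax 4 5 7 8 0), .t 1 (nat_lit 0) (.ax 4 5 7 8 1), .t 1 (nat_lit 0) (.ax 4 5 7 8 3), .t 1 (nat_lit 0) (.ax 4 5 7 8 5), .t 1 (nat_lit 0) (.ax 4 5 7 8 7), .t 1 (nat_lit 0) (.ax 4 5 7 9 0), .t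 1 (nat_lit 0) (.ax 4 5 7 9 2), .t 1 (nat_lit 0) (.ax 4 5 7 9 3), .t 1 (nat_lit 0) (.ax 4 5 7 9 4), .t 1 (nat_lit 0) (.ax 4 5 7 9 5), .t 1 (nat_lit 0) (.ax 4 5 7 9 7), .t 1 (nat_lit 0) (.ax 4 5 7 10 0), .t 1 (nat_lit 0) (.ax 4 5 7 10 2), .t 1 (nat_lit 0) (.ax 4 5 7 10 4), .t 1 (nat_lit 0) (.ax 4 5 7 10 5), .t 1 (nat_lit 0) (.ax 4 5 7 11 0), .t 1 (nat_lit 0) (.ax 4 5 7 11 2), .t 1 (nat_lit 0) (.ax 4 5 7 11 4), .t 1 (nat_lit 0) (.ax 4 5 7 11 5), .t 1 (nat_lit 0) (.ax 4 5 7 12 2), .t 1 (nat_lit 0) (.ax 4 5 7 13 2), .t 1 (nat_lit 0) (.ax 4 5 7 13 4), .t 1 (nat_lit 0) (.ax 4 5 7 14 2), .t 1 (nat_lit 0) (.ax 4 5 7 14 4), .t 1 (nat_lit 0) (.ax 4 5 8 9 0), .t 1 (nat_lit 0) (.ax 4 5 8 9 1), .t 1 (nat_lit 0) (.ax 4 5 8 9 2), .t 1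 (nat_lit 0) (.ax 4 5 8 9 3), .t 1 (nat_lit 0) (.ax 4 5 8 9 4), .t 1 (nat_lit 0) (.ax 4 5 8 9 5), .t 1 (nat_lit 0) (.ax 4 5 8 10 0), .t 1 (nat_lit 0) (.ax 4 5 8 10 2), .t 1 (nat_lit 0) (.ax 4 5 8 10 3), .t 1 (nat_lit 0) (.ax 4 5 8 10 4), .t 1 (nat_lit 0) (.ax 4 5 8 10 5), .t 1 (nat_lit 0) (.ax 4 5 8 11 0), .t 1 (nat_lit 0) (.ax 4 5 8 11 2), .t 1 (nat_lit 0) (.ax 4 5 8 11 3), .t 1 (nat_lit 0) (.ax 4 5 8 11 4), .t 1 (nat_lit 0) (.ax 4 5 8 11 5), .t 1 (nat_lit 0) (.ax 4 5 8 12 6), .t 1 (nat_lit 0) (.ax 4 5 9 11 0), .t 1 (nat_lit 0) (.ax 4 5 9 11 2), .t 1 (nat_lit 0) (.ax 4 5 9 11 4), .t 1 (nat_lit 0) (.ax 4 5 9 11 5), .t 1 (nat_lit 0) (.ax 4 5 9 13 2), .t 1 (nat_lit 0) (.ax 4 5 9 13 4), .t 1 (nat_lit 0) (.ax 4 5 10 11 0), .t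 1 (nat_lit 0) (.ax 4 5 10 11 5), .t 1 (nat_lit 0) (.ax 4 5 10 14 2), .t 1 (nat_lit 0) (.ax 4 6 7 8 0), .t 1 (nat_lit 0) (.ax 4 6 7 8 1), .t 1 (nat_lit 0) (.ax 4 6 7 8 2), .t 1 (nat_lit 0) (.ax 4 6 7 8 3), .t 1 (nat_lit 0) (.ax 4 6 7 8 4), .t 1 (nat_lit 0) (.ax 4 6 7 8 5), .t 1 (nat_lit 0) (.ax 4 6 7 8 6), .t 1 (nat_lit 0) (.ax 4 6 7 8 7), .t 1 (nat_lit 0) (.ax 4 6 7 9 3), .t 1 (nat_lit 0) (.ax 4 6 7 9 4), .t 1 (nat_lit 0) (.ax 4 6 7 9 5), .t 1 (nat_lit 0) (.ax 4 6 7 10 4), .t 1 (nat_lit 0) (.ax 4 6 7 11 3), .t 1 (nat_lit 0) (.ax 4 6 7 11 5), .t 1 (nat_lit 0) (.ax 4 6 7 12 4), .t 1 (nat_lit 0) (.ax 4 6 7 13 0), .t 1 (nat_lit 0) (.ax 4 6 7 13 2), .t 1 (nat_lit 0) (.ax 4 6 7 13 3), .t 1 (nat_lit 0) (.ax 4 6 7 13 4), .t 1 (nat_lit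 0) (.ax 4 6 7 13 5), .t 1 (nat_lit 0) (.ax 4 6 7 14 2), .t 1 (nat_lit 0) (.ax 4 6 7 14 4), .t 1 (nat_lit 0) (.ax 4 6 7 14 5), .t 1 (nat_lit 0) (.ax 4 6 8 9 1), .t 1 (nat_lit 0) (.ax 4 6 8 9 2), .t 1 (nat_lit 0) (.ax 4 6 8 9 3), .t 1 (nat_lit 0) (.ax 4 6 8 9 4), .t 1 (nat_lit 0) (.ax 4 6 8 9 5), .t 1 (nat_lit 0) (.ax 4 6 8 10 1), .t 1 (nat_lit 0) (.ax 4 6 8 10 2), .t 1 (nat_lit 0) (.ax 4 6 8 10 4), .t 1 (nat_lit 0) (.ax 4 6 8 11 0), .t 1 (nat_lit 0) (.ax 4 6 8 11 1), .t 1 (nat_lit 0) (.ax 4 6 8 11 2), .t 1 (nat_lit 0) (.ax 4 6 8 11 4), .t 1 (nat_lit 0) (.ax 4 6 8 11 5), .t 1 (nat_lit 0) (.ax 4 6 9 10 3), .t 1 (nat_lit 0) (.ax 4 6 9 10 4), .t 1 (nat_lit 0) (.ax 4 6 9 10 5), .t 1 (nat_lit 0) (.ax 4 6 9 10 7), .t 1 (nat_lit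 0) (.ax 4 6 9 11 0), .t 1 (nat_lit 0) (.ax 4 6 9 11 1), .t 1 (nat_lit 0) (.ax 4 6 9 11 4), .t 1 (nat_lit 0) (.ax 4 6 9 11 5), .t 1 (nat_lit 0) (.ax 4 6 9 12 0), .t 1 (nat_lit 0) (.ax 4 6 9 13 0), .t 1 (nat_lit 0) (.ax 4 6 9 13 2), .t 1 (nat_lit 0) (.ax 4 6 9 13 4), .t 1 (nat_lit 0) (.ax 4 6 9 14 4), .t 1 (nat_lit 0) (.ax 4 6 10 11 2), .t 1 (nat_lit 0) (.ax 4 6 10 12 0), .t 1 (nat_lit 0) (.ax 4 6 10 13 0), .t 1 (nat_lit 0) (.ax 4 6 10 14 5), .t 1 (nat_lit 0) (.ax 4 6 11 12 2), .t 1 (nat_lit 0) (.ax 4 6 11 13 2), .t 1 (nat_lit 0) (.ax 4 6 11 13 4), .t 1 (nat_lit 0) (.ax 4 6 11 14 2), .t 1 (nat_lit 0) (.ax 4 6 13 14 3), .t 1 (nat_lit 0) (.ax 4 6 13 14 5), .t 1 (nat_lit 0) (.ax 4 6 13 14 7), .t 1 (nat_lit 0) (.ax 4 7 8 9 1),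 .t 1 (nat_lit 0) (.ax 4 7 8 9 2), .t 1 (nat_lit 0) (.ax 4 7 8 9 4), .t 1 (nat_lit 0) (.ax 4 7 8 10 1)] (by decide +kernel) (by decide +kernel)
theorem b9 : B 1152 1280 := Blk.of_chk [.t 1 (nat_lit 0) (.ax 4 7 8 10 2), .t 1 (nat_lit 0) (.ax 4 7 8 10 4), .t 1 (nat_lit 0) (.ax 4 7 8 11 0), .t 1 (nat_lit 0) (.ax 4 7 8 11 1), .t 1 (nat_lit 0) (.ax 4 7 8 11 2), .t 1 (nat_lit 0) (.ax 4 7 8 11 4), .t 1 (nat_lit 0) (.ax 4 7 8 11 5), .t 1 (nat_lit 0) (.ax 4 7 8 12 2), .t 1 (nat_lit 0) (.ax 4 7 8 13 2), .t 1 (nat_lit 0) (.ax 4 7 8 14 2), .t 1 (nat_lit 0) (.ax 4 7 8 14 7), .t 1 (nat_lit 0) (.ax 4 7 9 10 7), .t 1 (nat_lit 0) (.ax 4 7 9 11 0), .t 1 (nat_lit 0) (.ax 4 7 9 11 1), .t 1 (nat_lit 0) (.ax 4 7 9 11 4), .t 1 (nat_lit 0) (.ax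 4 7 9 11 5), .t 1 (nat_lit 0) (.ax 4 7 9 12 5), .t 1 (nat_lit 0) (.ax 4 7 9 13 2), .t 1 (nat_lit 0) (.ax 4 7 9 13 4), .t 1 (nat_lit 0) (.ax 4 7 9 14 5), .t 1 (nat_lit 0) (.ax 4 7 10 11 4), .t 1 (nat_lit 0) (.ax 4 7 12 14 7), .t 1 (nat_lit 0) (.ax 4 8 9 10 0), .t 1 (nat_lit 0) (.ax 4 8 9 10 4), .t 1 (nat_lit 0) (.ax 4 8 9 10 5), .t 1 (nat_lit 0) (.ax 4 8 9 11 3), .t 1 (nat_lit 0) (.ax 4 8 9 11 5), .t 1 (nat_lit 0) (.ax 4 8 9 12 4), .t 1 (nat_lit 0) (.ax 4 8 9 14 4), .t 1 (nat_lit 0) (.ax 4 8 10 11 3), .t 1 (nat_lit 0) (.ax 4 8 10 11 5), .t 1 (nat_lit 0) (.ax 4 8 10 12 2), .t 1 (nat_lit 0) (.ax 4 8 10 12 4), .t 1 (nat_lit 0) (.ax 4 8 10 13 2), .t 1 (nat_lit 0) (.ax 4 8 10 14 0), .t 1 (nat_lit 0) (.ax 4 8 10 14 4), .t 1 (nat_lit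 0) (.ax 4 8 11 14 0), .t 1 (nat_lit 0) (.ax 4 9 10 14 3), .t 1 (nat_lit 0) (.ax 4 9 12 14 2), .t 1 (nat_lit 0) (.ax 4 9 12 14 4), .t 1 (nat_lit 0) (.ax 4 9 13 14 0), .t 1 (nat_lit 0) (.ax 4 9 13 14 5), .t 1 (nat_lit 0) (.ax 4 10 12 14 2), .t 1 (nat_lit 0) (.ax 4 10 12 14 4), .t 1 (nat_lit 0) (.ax 4 10 13 14 0), .t 1 (nat_lit 0) (.ax 4 10 13 14 5), .t 1 (nat_lit 0) (.ax 4 12 13 14 0), .t 1 (nat_lit 0) (.ax 4 12 13 14 5), .t 1 (nat_lit 0) (.ax 5 6 7 8 0), .t 1 (nat_lit 0) (.ax 5 6 7 8 2), .t 1 (nat_lit 0) (.ax 5 6 7 8 3), .t 1 (nat_lit 0) (.ax 5 6 7 8 4), .t 1 (nat_lit 0) (.ax 5 6 7 8 5), .t 1 (nat_lit 0) (.ax 5 6 7 8 7), .t 1 (nat_lit 0) (.ax 5 6 7 9 0), .t 1 (nat_lit 0) (.ax 5 6 7 9 3), .t 1 (nat_lit 0) (.ax 5 6 7 9 5),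 .t 1 (nat_lit 0) (.ax 5 6 7 10 0), .t 1 (nat_lit 0) (.ax 5 6 7 10 3), .t 1 (nat_lit 0) (.ax 5 6 7 10 5), .t 1 (nat_lit 0) (.ax 5 6 7 11 2), .t 1 (nat_lit 0) (.ax 5 6 7 12 7), .t 1 (nat_lit 0) (.ax 5 6 7 13 2), .t 1 (nat_lit 0) (.ax 5 6 7 13 3), .t 1 (nat_lit 0) (.ax 5 6 7 13 4), .t 1 (nat_lit 0) (.ax 5 6 7 14 2), .t 1 (nat_lit 0) (.ax 5 6 7 14 3), .t 1 (nat_lit 0) (.ax 5 6 7 14 7), .t 1 (nat_lit 0) (.ax 5 6 8 9 0), .t 1 (nat_lit 0) (.ax 5 6 8 9 1), .t 1 (nat_lit 0) (.ax 5 6 8 9 2), .t 1 (nat_lit 0) (.ax 5 6 8 9 3), .t 1 (nat_lit 0) (.ax 5 6 8 9 4), .t 1 (nat_lit 0) (.ax 5 6 8 9 5), .t 1 (nat_lit 0) (.ax 5 6 8 10 0), .t 1 (nat_lit 0) (.ax 5 6 8 10 1), .t 1 (nat_lit 0) (.ax 5 6 8 10 2), .t 1 (nat_lit 0) (.ax 5 6 8 10 3),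 .t 1 (nat_lit 0) (.ax 5 6 8 10 4), .t 1 (nat_lit 0) (.ax 5 6 8 10 5), .t 1 (nat_lit 0) (.ax 5 6 8 11 0), .t 1 (nat_lit 0) (.ax 5 6 8 11 5), .t 1 (nat_lit 0) (.ax 5 6 9 11 0), .t 1 (nat_lit 0) (.ax 5 6 9 11 5), .t 1 (nat_lit 0) (.ax 5 6 9 13 2), .t 1 (nat_lit 0) (.ax 5 6 9 13 4), .t 1 (nat_lit 0) (.ax 5 6 9 14 1), .t 1 (nat_lit 0) (.ax 5 6 10 11 0), .t 1 (nat_lit 0) (.ax 5 6 10 11 5), .t 1 (nat_lit 0) (.ax 5 6 13 14 7), .t 1 (nat_lit 0) (.ax 5 7 8 9 1), .t 1 (nat_lit 0) (.ax 5 7 8 9 4), .t 1 (nat_lit 0) (.ax 5 7 8 9 7), .t 1 (nat_lit 0) (.ax 5 7 8 10 0), .t 1 (nat_lit 0) (.ax 5 7 8 10 1), .t 1 (nat_lit 0) (.ax 5 7 8 10 4), .t 1 (nat_lit 0) (.ax 5 7 8 10 7), .t 1 (nat_lit 0) (.ax 5 7 8 11 0), .t 1 (nat_lit 0) (.ax 5 7 8 11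 5), .t 1 (nat_lit 0) (.ax 5 7 8 12 0), .t 1 (nat_lit 0) (.ax 5 7 8 13 2), .t 1 (nat_lit 0) (.ax 5 7 8 13 4), .t 1 (nat_lit 0) (.ax 5 7 8 14 7), .t 1 (nat_lit 0) (.ax 5 7 9 10 0), .t 1 (nat_lit 0) (.ax 5 7 9 10 5), .t 1 (nat_lit 0) (.ax 5 7 9 11 0), .t 1 (nat_lit 0) (.ax 5 7 9 11 2), .t 1 (nat_lit 0) (.ax 5 7 9 11 4), .t 1 (nat_lit 0) (.ax 5 7 9 11 5), .t 1 (nat_lit 0) (.ax 5 7 9 12 0), .t 1 (nat_lit 0) (.ax 5 7 9 12 2), .t 1 (nat_lit 0) (.ax 5 7 9 12 5), .t 1 (nat_lit 0) (.ax 5 7 9 13 2), .t 1 (nat_lit 0) (.ax 5 7 9 13 4), .t 1 (nat_lit 0) (.ax 5 7 9 14 2), .t 1 (nat_lit 0) (.ax 5 7 9 14 5), .t 1 (nat_lit 0) (.ax 5 7 9 14 6), .t 1 (nat_lit 0) (.ax 5 7 9 14 7), .t 1 (nat_lit 0) (.ax 5 7 10 11 0), .t 1 (nat_lit 0) (.ax 5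 7 10 11 2), .t 1 (nat_lit 0) (.ax 5 7 10 11 4), .t 1 (nat_lit 0) (.ax 5 7 10 11 5), .t 1 (nat_lit 0) (.ax 5 7 10 12 3), .t 1 (nat_lit 0) (.ax 5 7 10 12 5), .t 1 (nat_lit 0) (.ax 5 7 10 13 2), .t 1 (nat_lit 0) (.ax 5 7 10 14 0), .t 1 (nat_lit 0) (.ax 5 7 11 12 4), .t 1 (nat_lit 0) (.ax 5 7 11 13 4)] (by decide +kernel) (by decide +kernel)
theorem b10 : B 1280 1408 := Blk.of_chk [.t 1 (nat_lit 0) (.ax 5 7 11 14 7), .t 1 (nat_lit 0) (.ax 5 7 12 13 4), .t 1 (nat_lit 0) (.ax 5 7 12 14 0), .t 1 (nat_lit 0) (.ax 5 7 12 14 4), .t 1 (nat_lit 0) (.ax 5 8 9 10 2), .t 1 (nat_lit 0) (.ax 5 8 9 11 0), .t 1 (nat_lit 0) (.ax 5 8 9 11 1), .t 1 (nat_lit 0) (.ax 5 8 9 11 3), .t 1 (nat_lit 0) (.ax 5 8 9 11 5), .t 1 (nat_lit 0) (.ax 5 8 9 12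 0), .t 1 (nat_lit 0) (.ax 5 8 9 12 2), .t 1 (nat_lit 0) (.ax 5 8 9 12 4), .t 1 (nat_lit 0) (.ax 5 8 9 13 0), .t 1 (nat_lit 0) (.ax 5 8 9 13 2), .t 1 (nat_lit 0) (.ax 5 8 9 14 2), .t 1 (nat_lit 0) (.ax 5 8 10 11 0), .t 1 (nat_lit 0) (.ax 5 8 10 11 1), .t 1 (nat_lit 0) (.ax 5 8 10 11 3), .t 1 (nat_lit 0) (.ax 5 8 10 11 5), .t 1 (nat_lit 0) (.ax 5 8 10 12 0), .t 1 (nat_lit 0) (.ax 5 8 10 12 2), .t 1 (nat_lit 0) (.ax 5 8 10 12 4), .t 1 (nat_lit 0) (.ax 5 8 10 12 6), .t 1 (nat_lit 0) (.ax 5 8 10 13 2), .t 1 (nat_lit 0) (.ax 5 8 10 14 2), .t 1 (nat_lit 0) (.ax 5 8 10 14 4), .t 1 (nat_lit 0) (.ax 5 8 11 12 0), .t 1 (nat_lit 0) (.ax 5 8 11 12 2), .t 1 (nat_lit 0) (.ax 5 8 11 13 2), .t 1 (nat_lit 0) (.ax 5 8 11 14 2), .t 1 (nat_lit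 0) (.ax 5 8 12 13 2), .t 1 (nat_lit 0) (.ax 5 8 12 13 4), .t 1 (nat_lit 0) (.ax 5 8 12 14 2), .t 1 (nat_lit 0) (.ax 5 8 12 14 4), .t 1 (nat_lit 0) (.ax 5 9 10 11 0), .t 1 (nat_lit 0) (.ax 5 9 10 11 1), .t 1 (nat_lit 0) (.ax 5 9 10 11 5), .t 1 (nat_lit 0) (.ax 5 9 10 12 0), .t 1 (nat_lit 0) (.ax 5 9 10 12 1), .t 1 (nat_lit 0) (.ax 5 9 10 12 4), .t 1 (nat_lit 0) (.ax 5 9 11 12 1), .t 1 (nat_lit 0) (.ax 5 9 11 12 2), .t 1 (nat_lit 0) (.ax 5 9 11 12 4), .t 1 (nat_lit 0) (.ax 5 9 12 14 2), .t 1 (nat_lit 0) (.ax 5 9 12 14 4), .t 1 (nat_lit 0) (.ax 5 9 13 14 0), .t 1 (nat_lit 0) (.ax 5 9 13 14 5), .t 1 (nat_lit 0) (.ax 5 10 11 12 1), .t 1 (nat_lit 0) (.ax 5 10 11 12 2), .t 1 (nat_lit 0) (.ax 5 10 11 12 4), .t 1 (nat_lit 0) (.ax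 5 10 11 14 4), .t 1 (nat_lit 0) (.ax 5 10 12 14 2), .t 1 (nat_lit 0) (.ax 5 10 12 14 4), .t 1 (nat_lit 0) (.ax 5 10 12 14 6), .t 1 (nat_lit 0) (.ax 5 10 13 14 0), .t 1 (nat_lit 0) (.ax 5 10 13 14 5), .t 1 (nat_lit 0) (.ax 5 12 13 14 0), .t 1 (nat_lit 0) (.ax 5 12 13 14 5), .t 1 (nat_lit 0) (.ax 6 7 8 9 0), .t 1 (nat_lit 0) (.ax 6 7 8 9 1), .t 1 (nat_lit 0) (.ax 6 7 8 9 2), .t 1 (nat_lit 0) (.ax 6 7 8 9 4), .t 1 (nat_lit 0) (.ax 6 7 8 9 7), .t 1 (nat_lit 0) (.ax 6 7 8 10 0), .t 1 (nat_lit 0) (.ax 6 7 8 10 1), .t 1 (nat_lit 0) (.ax 6 7 8 10 4), .t 1 (nat_lit 0) (.ax 6 7 8 10 7), .t 1 (nat_lit 0) (.ax 6 7 8 11 0), .t 1 (nat_lit 0) (.ax 6 7 8 11 7), .t 1 (nat_lit 0) (.ax 6 7 8 13 7), .t 1 (nat_lit 0) (.ax 6 7 8 14 7), .t 1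 (nat_lit 0) (.ax 6 7 9 10 1), .t 1 (nat_lit 0) (.ax 6 7 9 10 2), .t 1 (nat_lit 0) (.ax 6 7 9 10 3), .t 1 (nat_lit 0) (.ax 6 7 9 10 4), .t 1 (nat_lit 0) (.ax 6 7 9 10 5), .t 1 (nat_lit 0) (.ax 6 7 9 11 0), .t 1 (nat_lit 0) (.ax 6 7 9 11 2), .t 1 (nat_lit 0) (.ax 6 7 9 11 4), .t 1 (nat_lit 0) (.ax 6 7 9 11 6), .t 1 (nat_lit 0) (.ax 6 7 9 11 7), .t 1 (nat_lit 0) (.ax 6 7 9 12 1), .t 1 (nat_lit 0) (.ax 6 7 9 12 2), .t 1 (nat_lit 0) (.ax 6 7 9 13 0), .t 1 (nat_lit 0) (.ax 6 7 9 13 2), .t 1 (nat_lit 0) (.ax 6 7 9 13 4), .t 1 (nat_lit 0) (.ax 6 7 9 14 0), .t 1 (nat_lit 0) (.ax 6 7 9 14 2), .t 1 (nat_lit 0) (.ax 6 7 9 14 4), .t 1 (nat_lit 0) (.ax 6 7 9 14 7), .t 1 (nat_lit 0) (.ax 6 7 10 11 0), .t 1 (nat_lit 0) (.ax 6 7 10 11 4),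 .t 1 (nat_lit 0) (.ax 6 7 10 11 7), .t 1 (nat_lit 0) (.ax 6 7 10 12 1), .t 1 (nat_lit 0) (.ax 6 7 10 12 3), .t 1 (nat_lit 0) (.ax 6 7 10 12 5), .t 1 (nat_lit 0) (.ax 6 7 10 13 0), .t 1 (nat_lit 0) (.ax 6 7 10 13 2), .t 1 (nat_lit 0) (.ax 6 7 10 13 4), .t 1 (nat_lit 0) (.ax 6 7 10 14 0), .t 1 (nat_lit 0) (.ax 6 7 10 14 2), .t 1 (nat_lit 0) (.ax 6 7 10 14 4), .t 1 (nat_lit 0) (.ax 6 7 10 14 7), .t 1 (nat_lit 0) (.ax 6 7 11 12 2), .t 1 (nat_lit 0) (.ax 6 7 11 13 4), .t 1 (nat_lit 0) (.ax 6 7 11 14 0), .t 1 (nat_lit 0) (.ax 6 7 11 14 4), .t 1 (nat_lit 0) (.ax 6 7 12 14 0), .t 1 (nat_lit 0) (.ax 6 7 12 14 4), .t 1 (nat_lit 0) (.ax 6 7 13 14 0), .t 1 (nat_lit 0) (.ax 6 7 13 14 5), .t 1 (nat_lit 0) (.ax 6 8 9 10 0), .t 1 (nat_lit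 0) (.ax 6 8 9 10 2), .t 1 (nat_lit 0) (.ax 6 8 9 10 4), .t 1 (nat_lit 0) (.ax 6 8 9 10 5), .t 1 (nat_lit 0) (.ax 6 8 9 11 0), .t 1 (nat_lit 0) (.ax 6 8 9 11 1), .t 1 (nat_lit 0) (.ax 6 8 9 11 3), .t 1 (nat_lit 0) (.ax 6 8 9 11 5), .t 1 (nat_lit 0) (.ax 6 8 9 12 2), .t 1 (nat_lit 0) (.ax 6 8 9 12 4), .t 1 (nat_lit 0) (.ax 6 8 9 13 2), .t 1 (nat_lit 0) (.ax 6 8 9 14 2), .t 1 (nat_lit 0) (.ax 6 8 9 14 3), .t 1 (nat_lit 0) (.ax 6 8 10 11 0), .t 1 (nat_lit 0) (.ax 6 8 10 11 1), .t 1 (nat_lit 0) (.ax 6 8 10 11 3), .t 1 (nat_lit 0) (.ax 6 8 10 11 5)] (by decide +kernel) (by decide +kernel)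
theorem b11 : B 1408 1536 := Blk.of_chk [.t 1 (nat_lit 0) (.ax 6 8 10 12 2), .t 1 (nat_lit 0) (.ax 6 8 10 12 6), .t 1 (nat_lit 0) (.ax 6 8 10 13 2), .t 1 (nat_lit 0) (.ax 6 8 10 13 4), .t 1 (nat_lit 0) (.ax 6 8 10 14 2), .t 1 (nat_lit 0) (.ax 6 8 10 14 4), .t 1 (nat_lit 0) (.ax 6 8 11 12 7), .t 1 (nat_lit 0) (.ax 6 8 12 13 2), .t 1 (nat_lit 0) (.ax 6 8 12 14 2), .t 1 (nat_lit 0) (.ax 6 9 10 11 0), .t 1 (nat_lit 0) (.ax 6 9 10 11 1), .t 1 (nat_lit 0) (.ax 6 9 10 11 5), .t 1 (nat_lit 0) (.ax 6 9 10 12 0), .t 1 (nat_lit 0) (.ax 6 9 10 12 1), .t 1 (nat_lit 0) (.ax 6 9 10 12 4), .t 1 (nat_lit 0) (.ax 6 9 10 14 7), .t 1 (nat_lit 0) (.ax 6 9 11 12 1), .t 1 (nat_lit 0) (.ax 6 9 11 12 2), .t 1 (nat_lit 0) (.ax 6 9 11 12 4), .t 1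 (nat_lit 0) (.ax 6 9 11 13 2), .t 1 (nat_lit 0) (.ax 6 9 11 14 2), .t 1 (nat_lit 0) (.ax 6 9 11 14 7), .t 1 (nat_lit 0) (.ax 6 9 12 14 0), .t 1 (nat_lit 0) (.ax 6 9 12 14 2), .t 1 (nat_lit 0) (.ax 6 9 12 14 4), .t 1 (nat_lit 0) (.ax 6 9 13 14 0), .t 1 (nat_lit 0) (.ax 6 9 13 14 5), .t 1 (nat_lit 0) (.ax 6 10 11 12 0), .t 1 (nat_lit 0) (.ax 6 10 11 12 1), .t 1 (nat_lit 0) (.ax 6 10 11 12 2), .t 1 (nat_lit 0) (.ax 6 10 11 12 4), .t 1 (nat_lit 0) (.ax 6 10 11 13 0), .t 1 (nat_lit 0) (.ax 6 10 11 14 0), .t 1 (nat_lit 0) (.ax 6 10 12 13 2), .t 1 (nat_lit 0) (.ax 6 10 12 14 2), .t 1 (nat_lit 0) (.ax 6 10 12 14 4), .t 1 (nat_lit 0) (.ax 6 10 13 14 0), .t 1 (nat_lit 0) (.ax 6 10 13 14 5), .t 1 (nat_lit 0) (.ax 6 12 13 14 0), .t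 1 (nat_lit 0) (.ax 6 12 13 14 5), .t 1 (nat_lit 0) (.ax 7 8 9 10 2), .t 1 (nat_lit 0) (.ax 7 8 9 10 4), .t 1 (nat_lit 0) (.ax 7 8 9 11 0), .t 1 (nat_lit 0) (.ax 7 8 9 11 1), .t 1 (nat_lit 0) (.ax 7 8 9 11 2), .t 1 (nat_lit 0) (.ax 7 8 9 11 3), .t 1 (nat_lit 0) (.ax 7 8 9 11 4), .t 1 (nat_lit 0) (.ax 7 8 9 11 5), .t 1 (nat_lit 0) (.ax 7 8 9 12 0), .t 1 (nat_lit 0) (.ax 7 8 10 11 0), .t 1 (nat_lit 0) (.ax 7 8 10 11 1), .t 1 (nat_lit 0) (.ax 7 8 10 11 2), .t 1 (nat_lit 0) (.ax 7 8 10 11 3), .t 1 (nat_lit 0) (.ax 7 8 10 11 4), .t 1 (nat_lit 0) (.ax 7 8 10 11 5), .t 1 (nat_lit 0) (.ax 7 8 10 12 2), .t 1 (nat_lit 0) (.ax 7 8 10 12 4), .t 1 (nat_lit 0) (.ax 7 8 10 14 4), .t 1 (nat_lit 0) (.ax 7 8 12 13 1), .t 1 (nat_lit 0) (.ax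 7 8 12 13 4), .t 1 (nat_lit 0) (.ax 7 8 12 14 1), .t 1 (nat_lit 0) (.ax 7 8 12 14 2), .t 1 (nat_lit 0) (.ax 7 8 12 14 4), .t 1 (nat_lit 0) (.ax 7 8 13 14 0), .t 1 (nat_lit 0) (.ax 7 8 13 14 3), .t 1 (nat_lit 0) (.ax 7 8 13 14 5), .t 1 (nat_lit 0) (.ax 7 9 10 11 0), .t 1 (nat_lit 0) (.ax 7 9 10 11 1), .t 1 (nat_lit 0) (.ax 7 9 10 11 2), .t 1 (nat_lit 0) (.ax 7 9 10 11 5), .t 1 (nat_lit 0) (.ax 7 9 10 11 6), .t 1 (nat_lit 0) (.ax 7 9 10 12 0), .t 1 (nat_lit 0) (.ax 7 9 10 12 1), .t 1 (nat_lit 0) (.ax 7 9 10 12 4), .t 1 (nat_lit 0) (.ax 7 9 11 12 1), .t 1 (nat_lit 0) (.ax 7 9 11 12 2), .t 1 (nat_lit 0) (.ax 7 9 11 12 4), .t 1 (nat_lit 0) (.ax 7 9 12 13 1), .t 1 (nat_lit 0) (.ax 7 9 12 13 4), .t 1 (nat_lit 0) (.ax 7 9 12 14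 1), .t 1 (nat_lit 0) (.ax 7 9 12 14 2), .t 1 (nat_lit 0) (.ax 7 9 12 14 4), .t 1 (nat_lit 0) (.ax 7 9 13 14 0), .t 1 (nat_lit 0) (.ax 7 9 13 14 2), .t 1 (nat_lit 0) (.ax 7 9 13 14 3), .t 1 (nat_lit 0) (.ax 7 9 13 14 5), .t 1 (nat_lit 0) (.ax 7 10 11 12 1), .t 1 (nat_lit 0) (.ax 7 10 11 12 2), .t 1 (nat_lit 0) (.ax 7 10 11 12 4), .t 1 (nat_lit 0) (.ax 7 10 12 13 1), .t 1 (nat_lit 0) (.ax 7 10 12 13 4), .t 1 (nat_lit 0) (.ax 7 10 12 14 1), .t 1 (nat_lit 0) (.ax 7 10 12 14 2), .t 1 (nat_lit 0) (.ax 7 10 12 14 4), .t 1 (nat_lit 0) (.ax 7 10 13 14 0), .t 1 (nat_lit 0) (.ax 7 10 13 14 3), .t 1 (nat_lit 0) (.ax 7 10 13 14 5), .t 1 (nat_lit 0) (.ax 7 12 13 14 0), .t 1 (nat_lit 0) (.ax 7 12 13 14 5), .t 1 (nat_lit 0) (.ax 8 9 10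 11 1), .t 1 (nat_lit 0) (.ax 8 9 10 11 2), .t 1 (nat_lit 0) (.ax 8 9 10 11 4), .t 1 (nat_lit 0) (.ax 8 9 10 12 1), .t 1 (nat_lit 0) (.ax 8 9 10 12 2), .t 1 (nat_lit 0) (.ax 8 9 10 12 4), .t 1 (nat_lit 0) (.ax 8 9 10 13 2), .t 1 (nat_lit 0) (.ax 8 9 10 13 4), .t 1 (nat_lit 0) (.ax 8 9 11 12 1), .t 1 (nat_lit 0) (.ax 8 9 11 12 2), .t 1 (nat_lit 0) (.ax 8 9 11 12 4), .t 1 (nat_lit 0) (.ax 8 9 11 12 6), .t 1 (nat_lit 0) (.ax 8 9 11 13 2), .t 1 (nat_lit 0) (.ax 8 9 11 13 4), .t 1 (nat_lit 0) (.ax 8 9 12 13 1), .t 1 (nat_lit 0) (.ax 8 9 12 13 2), .t 1 (nat_lit 0) (.ax 8 9 12 13 4), .t 1 (nat_lit 0) (.ax 8 9 12 14 1), .t 1 (nat_lit 0) (.ax 8 9 12 14 2), .t 1 (nat_lit 0) (.ax 8 9 12 14 4), .t 1 (nat_lit 0) (.ax 8 9 13 14 0), .t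 1 (nat_lit 0) (.ax 8 9 13 14 2), .t 1 (nat_lit 0) (.ax 8 9 13 14 3), .t 1 (nat_lit 0) (.ax 8 9 13 14 5), .t 1 (nat_lit 0) (.ax 8 10 11 12 2), .t 1 (nat_lit 0) (.ax 8 10 11 12 4), .t 1 (nat_lit 0) (.ax 8 10 11 12 6), .t 1 (nat_lit 0) (.ax 8 10 12 13 1), .t 1 (nat_lit 0) (.ax 8 10 12 13 4)] (by decide +kernel) (by decide +kernel)

end Pool.Agent.GCP.AX
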