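import Pool.Agent.GCP.Small

set_option autoImplicit false
set_option maxRecDepth 100000

/-! # Certificate module G7 (generated) -/

namespace Pool.Agent.GCP.G7

open Pool.Agent.GCP ELs

noncomputable def k1 : ℕ × ℕ := (nat_lit 0xa, nat_lit 4)
theorem c1 : Ent (HH 7 2 E0) k1 := ax_ent 1 2 3 4 1 (by decide +kernel)
noncomputable def k3 : ℕ × ℕ := (nat_lit 9, nat_lit 4)
theorem c3 : Ent (HH 7 2 E0) k3 := ax_ent 1 2 3 4 3 (by decide +kernel)
noncomputable def k4 : ℕ × ℕ := (nat_lit 2, nat_lit 9)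
theorem c4 : Ent (HH 7 2 E0) k4 := ax_ent 1 2 3 4 4 (by decide +kernel)
noncomputable def k5 : ℕ × ℕ := (nat_lit 9, nat_lit 2)
theorem c5 : Ent (HH 7 2 E0) k5 := ax_ent 1 2 3 4 5 (by decide +kernel)
noncomputable def k7 : ℕ × ℕ := (nat_lit 5, nat_lit 2)
theorem c7 : Ent (HH 7 2 E0) k7 := ax_ent 1 2 3 4 7 (by decide +kernel)
noncomputable def k13 : ℕ × ℕ := (nat_lit 0x41, nat_lit 0x10)
theorem c13 : Ent (HH 7 2 E0) k13 := ax_ent 1 2 3 5 5 (by decide +kernel)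
noncomputable def k15 : ℕ × ℕ := (nat_lit 0x21, nat_lit 0x10)
theorem c15 : Ent (HH 7 2 E0) k15 := ax_ent 1 2 3 5 7 (by decide +kernel)
noncomputable def k28 : ℕ × ℕ := (nat_lit 0x10, nat_lit 0x102)
theorem c28 : Ent (HH 7 2 E0) k28 := ax_ent 1 2 4 5 4 (by decide +kernel)
noncomputable def k34 : ℕ × ℕ := (nat_lit 0x2000, nat_lit 0x4002)
theorem c34 : Ent (HH 7 2 E0) k34 := ax_ent 1 2 4 6 2 (by decide +kernel)
noncomputable def k42 : ℕ × ℕ := (nat_lit 0x10000, nat_lit 0x20010)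
theorem c42 : Ent (HH 7 2 E0) k42 := ax_ent 1 2 5 6 2 (by decide +kernel)
noncomputable def k43 : ℕ × ℕ := (nat_lit 0x20010, nat_lit 0x10000)
theorem c43 : Ent (HH 7 2 E0) k43 := ax_ent 1 2 5 6 3 (by decide +kernel)
noncomputable def k61 : ℕ × ℕ := (nat_lit 0x8004, nat_lit 0x800)
theorem c61 : Ent (HH 7 2 E0) k61 := ax_ent 1 3 4 6 5 (by decide +kernel)
noncomputable def k82 : ℕ × ℕ := (nat_lit 0x100, nat_lit 0x208)
theorem c82 : Ent (HH 7 2 E0) k82 := ax_ent 2 3 4 5 2 (by decide +kernel)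
noncomputable def k84 : ℕ × ℕ := (nat_lit 0x40, nat_lit 0x208)
theorem c84 : Ent (HH 7 2 E0) k84 := ax_ent 2 3 4 5 4 (by decide +kernel)
noncomputable def k90 : ℕ × ℕ := (nat_lit 0x4000, nat_lit 0x8008)
theorem c90 : Ent (HH 7 2 E0) k90 := ax_ent 2 3 4 6 2 (by decide +kernel)
noncomputable def k98 : ℕ × ℕ := (nat_lit 0x20000, nat_lit 0x40040)
theorem c98 : Ent (HH 7 2 E0) k98 := ax_ent 2 3 5 6 2 (by decide +kernel)
noncomputable def k105 : ℕ × ℕ := (nat_lit 0x84000, nat_lit 0x20000)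
theorem c105 : Ent (HH 7 2 E0) k105 := ax_ent 2 4 5 6 1 (by decide +kernel)
noncomputable def k112 : ℕ × ℕ := (nat_lit 0x40000, nat_lit 0x88000)
theorem c112 : Ent (HH 7 2 E0) k112 := ax_ent 3 4 5 6 0 (by decide +kernel)
noncomputable def k115 : ℕ × ℕ := (nat_lit 0x80200, nat_lit 0x40000)
theorem c115 : Ent (HH 7 2 E0) k115 := ax_ent 3 4 5 6 3 (by decide +kernel)
noncomputable def k117 : ℕ × ℕ := (nat_lit 0x80200, nat_lit 0x8000)
theorem c117 : Ent (HH 7 2 E0) k117 := ax_ent 3 4 5 6 5 (by decide +kernel)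
noncomputable def k118 : ℕ × ℕ := (nat_lit 0x8000, nat_lit 0x40200)
theorem c118 : Ent (HH 7 2 E0) k118 := ax_ent 3 4 5 6 6 (by decide +kernel)
noncomputable def k120 : ℕ × ℕ := (nat_lit 0, nat_lit 1)
theorem c120 : Ent (HH 7 2 E0) k120 := z_ent facts0 (.edon 0 4 (.leaf [0,1,2,3]) (.leaf [4,5,6])) .nil (by decide +kernel)
noncomputable def k121 : ℕ × ℕ := (nat_lit 0, nat_lit 0x80000)
theorem c121 : Ent (HH 7 2 E0) k121 := z_ent facts0 (.node 0 3 (.leaf [0,4,5,6]) (.leaf [1,2,3])) .nil (by decide +kernel)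
noncomputable def k122 : ℕ × ℕ := (nat_lit 0, nat_lit 0x12086)
theorem c122 : Ent (HH 7 2 E0) k122 := z_ent facts0 (.node 1 4 (.leaf [0,1,5,6]) (.leaf [2,3,4])) .nil (by decide +kernel)
noncomputable def k123 : ℕ × ℕ := (nat_lit 0x40000, nat_lit 0x8000)
theorem c123 : Ent (HH 7 2 E0) k123 := z_ent facts0 (.edon 0 3 (.leaf [0,1,2]) (.leaf [3,4,6,5])) (.cons c112 (.cons c117 .nil)) (by decide +kernel)
noncomputable def k124 : ℕ × ℕ := (nat_lit 0, nat_lit 0x8082)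
theorem c124 : Ent (HH 7 2 E0) k124 := rup base0 (.cons c120 (.cons c121 (.cons c123 (.cons c5 (.cons c90 (.cons c117 (.cons c82 (.cons c84 (.cons c28 (.cons c98 (.cons c7 (.cons c34 (.cons c42 (.cons c122 .nil)))))))))))))) (by decide +kernel)
noncomputable def k125 : ℕ × ℕ := (nat_lit 0x40000, nat_lit 0x270)
theorem c125 : Ent (HH 7 2 E0) k125 := z_ent facts0 (.edon 3 5 (.leaf [3,4,6]) (.leaf [0,1,2,5])) .nil (by decide +kernel)
noncomputable def k126 : ℕ × ℕ := (nat_lit 0x80200, nat_lit 0)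
theorem c126 : Ent (HH 7 2 E0) k126 := z_ent facts0 (.edon 0 3 (.leaf [0,1,2]) (.leaf [3,6,5,4])) (.cons c115 (.cons c117 .nil)) (by decide +kernel)
noncomputable def k127 : ℕ × ℕ := (nat_lit 0, nat_lit 0x82)
theorem c127 : Ent (HH 7 2 E0) k127 := rup base0 (.cons c120 (.cons c121 (.cons c126 (.cons c5 (.cons c82 (.cons c84 (.cons c124 (.cons c28 (.cons c15 (.cons c125 (.cons c118 .nil))))))))))) (by decide +kernel)
noncomputable def k128 : ℕ × ℕ := (nat_lit 0x40000, nat_lit 0x10)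
theorem c128 : Ent (HH 7 2 E0) k128 := rup base0 (.cons c120 (.cons c121 (.cons c126 (.cons c13 (.cons c15 (.cons c125 .nil)))))) (by decide +kernel)
noncomputable def k129 : ℕ × ℕ := (nat_lit 2, nat_lit 4)
theorem c129 : Ent (HH 7 2 E0) k129 := z_ent facts0 (.node 0 4 (.leaf [0,5,6]) (.leaf [1,3,4,2])) (.cons c1 (.cons c4 .nil)) (by decide +kernel)
noncomputable def k130 : ℕ × ℕ := (nat_lit 0x805, nat_lit 0x60)
theorem c130 : Ent (HH 7 2 E0) k130 := z_ent facts0 (.edon 1 3 (.leaf [1,4,6]) (.leaf [0,2,3,5])) .nil (by decide +kernel)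
noncomputable def k131 : ℕ × ℕ := (nat_lit 0x10030, nat_lit 0xc0)
theorem c131 : Ent (HH 7 2 E0) k131 := z_ent facts0 (.edon 1 5 (.leaf [1,4,6]) (.leaf [0,2,3,5])) .nil (by decide +kernel)
noncomputable def k132 : ℕ × ℕ := (nat_lit 0x10810, nat_lit 0xc0)
theorem c132 : Ent (HH 7 2 E0) k132 := rup base0 (.cons c120 (.cons c127 (.cons c129 (.cons c131 (.cons c130 .nil))))) (by decide +kernel)
noncomputable def k133 : ℕ × ℕ := (nat_lit 9, nat_lit 0)
theorem c133 : Ent (HH 7 2 E0) k133 := z_ent facts0 (.node 0 4 (.leaf [0,5,6]) (.leaf [1,4,3,2])) (.cons c3 (.cons c5 .nil)) (by decide +kernel)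
noncomputable def k134 : ℕ × ℕ := (nat_lit 2, nat_lit 0x24108)
theorem c134 : Ent (HH 7 2 E0) k134 := z_ent facts0 (.node 2 4 (.leaf [0,2,5,6]) (.leaf [1,3,4])) .nil (by decide +kernel)
noncomputable def k136 : ℕ × ℕ := (nat_lit 2, nat_lit 0x40000)
theorem c136 : Ent (HH 7 2 E0) k136 := rup base0 (.cons c120 (.cons c121 (.cons c133 (.cons c126 (.cons c82 (.cons c84 (.cons c98 (.cons c105 (.cons c134 .nil))))))))) (by decide +kernel)
noncomputable def k137 : ℕ × ℕ := (nat_lit 2, nat_lit 0x20000)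
theorem c137 : Ent (HH 7 2 E0) k137 := rup base0 (.cons c120 (.cons c121 (.cons c133 (.cons c126 (.cons c82 (.cons c105 (.cons c134 .nil))))))) (by decide +kernel)
noncomputable def k138 : ℕ × ℕ := (nat_lit 0x80080, nat_lit 0x308)
theorem c138 : Ent (HH 7 2 E0) k138 := z_ent facts0 (.node 4 5 (.leaf [0,2,3,4]) (.leaf [1,5,6])) .nil (by decide +kernel)
noncomputable def k139 : ℕ × ℕ := (nat_lit 0, nat_lit 0)
theorem c139 : Ent (HH 7 2 E0) k139 := rup base0 (.cons c120 (.cons c121 (.cons c133 (.cons c126 (.cons c82 (.cons c84 (.cons c138 (.cons c127 (.cons c129 (.cons c136 (.cons c137 (.cons c123 (.cons c128 (.cons c43 (.cons c61 (.cons c132 .nil)))))))))))))))) (by decide +kernel)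

theorem g7 (X : Finset Pt) (hc : X.card = 7) (hX : GeneralPosition X) :
    HCPle (X : Set Pt) 2 :=
  HCPle_of_empty (by omega) c139 hc hX

theorem facts : Facts 7 10 [] := facts1 g7

end Pool.Agent.GCP.G7
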