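import Pool.Agent.GCP.Sat

/-!
# Clause databases and blocks of checked clauses
-/

namespace Pool.Agent.GCP

/-- A clause database: a search tree with the clauses at the leaves. -/
inductive DB : Type
  | L (p n : ℕ) : DB
  | N (m : ℕ) (l r : DB) : DB

namespace DB

/-- The clause with the index `i`. -/
def get : DB → ℕ → ℕ × ℕ
  | L p n, _ => (p, n)
  | N m l r, i => bif Nat.ble m i then r.get i else l.get i

/-- Look up in continuation style. -/
noncomputable def look (db : DB) (i : ℕ) (k : ℕ → ℕ → Bool) : Bool :=
  DB.rec (motive := fun _ => Bool) (fun p n => k p n)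
    (fun m _ _ ihl ihr => Bool.casesOn (motive := fun _ => Bool) (Nat.ble m i) ihl ihr) db

lemma look_eq (db : DB) (i : ℕ) (k : ℕ → ℕ → Bool) :
    db.look i k = k (db.get i).1 (db.get i).2 := by
  induction db with
  | L p n => rfl
  | N m l r ihl ihr =>
    change (Bool.casesOn (motive := fun _ => Bool) (Nat.ble m i) (l.look i k) (r.look i k)) = _
    rw [get]
    cases Nat.ble m i
    · exact ihl
    · exact ihr

end DB

/-- One step of unit propagation in continuation style. -/
def stp (T F p n : ℕ) (k : ℕ → ℕ → Bool) : Bool :=
  Nat.casesOn (motive := fun _ => Bool) (Nat.xor (Nat.lor n T) T)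
    (Nat.casesOn (motive := fun _ => Bool) (Nat.xor (Nat.lor p F) F) true
      (fun a => Nat.casesOn (motive := fun _ => Bool) (Nat.land (Nat.succ a) a)
        (Nat.casesOn (motive := fun _ => Bool) (Nat.lor T (Nat.succ a)) false
          (fun t => k (Nat.succ t) F)) (fun _ => false)))
    (fun a => Nat.casesOn (motive := fun _ => Bool) (Nat.land (Nat.succ a) a)
      (Nat.casesOn (motive := fun _ => Bool) (Nat.xor (Nat.lor p F) F)
        (Nat.casesOn (motive := fun _ => Bool) (Nat.lor F (Nat.succ a)) false
          (fun f => k T (Nat.succ f))) (fun _ => false)) (fun _ => false))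

/-- Unit propagation along the hints; the number `h` contains the hints in base `65536`. -/
noncomputable def run (db : DB) (bd : ℕ) (fin : ℕ → ℕ → Bool) (fuel : ℕ) : ℕ → ℕ → ℕ → Bool :=
  Nat.rec (motive := fun _ => ℕ → ℕ → ℕ → Bool) (fun _ _ _ => false)
    (fun _ ih h T F => Nat.casesOn (motive := fun _ => Bool) h (fin T F)
      (fun h' => Nat.casesOn (motive := fun _ => Bool) (Nat.mod (Nat.succ h') 65536) false
        (fun d => Bool.casesOn (motive := fun _ => Bool) (Nat.ble bd d)
          (db.look d (fun p n => stp T F p n (ih (Nat.div (Nat.succ h') 65536))))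
          false))) fuel

theorem stp_sound {σ : ℕ → Prop} {T F p n : ℕ} {k : ℕ → ℕ → Bool}
    (hk : ∀ T F, Asg σ T F → k T F = true → False) (hc : Hold σ (p, n)) (ha : Asg σ T F)
    (h : stp T F p n k = true) : False := by
  unfold stp at h
  obtain ⟨v, hv⟩ := hc
  simp only at hv
  have hv' : ((Nat.xor (Nat.lor p F) F).testBit v = true ∧ σ v) ∨
      ((Nat.xor (Nat.lor n T) T).testBit v = true ∧ ¬ σ v) := by
    rcases hv with ⟨h1, h2⟩ | ⟨h1, h2⟩
    · left
      refine ⟨(testBit_diff p F v).2 ⟨h1, ?_⟩, h2⟩
      by_contra h3
      exact (ha v).2 (by simpa using h3) h2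
    · right
      refine ⟨(testBit_diff n T v).2 ⟨h1, ?_⟩, h2⟩
      by_contra h3
      exact h2 ((ha v).1 (by simpa using h3))
  generalize Nat.xor (Nat.lor n T) T = N' at h hv'
  generalize Nat.xor (Nat.lor p F) F = P' at h hv'
  cases N' with
  | zero =>
    cases P' with
    | zero =>
      rcases hv' with ⟨h1, _⟩ | ⟨h1, _⟩
      · exact absurd h1 (by simp)
      · exact absurd h1 (by simp)
    | succ a =>
      change (Nat.casesOn (motive := fun _ => Bool) (Nat.land (Nat.succ a) a)
          (Nat.casesOn (motive := fun _ => Bool) (Nat.lor T (Nat.succ a)) false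
            (fun t => k (Nat.succ t) F)) (fun _ => false) : Bool) = true at h
      have hvs : (Nat.succ a).testBit v = true ∧ σ v := by
        rcases hv' with h1 | ⟨h1, _⟩
        · exact h1
        · exact absurd h1 (by simp)
      generalize hL : Nat.land (Nat.succ a) a = L at h
      cases L with
      | succ _ => exact absurd h (by simp)
      | zero =>
        have ha' : Asg σ (Nat.lor T (Nat.succ a)) F := ha.orT (fun w hw => by
          rw [single_of_land hL hw hvs.1]; exact hvs.2)
        generalize Nat.lor T (Nat.succ a) = T' at h ha'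
        cases T' with
        | zero => exact absurd h (by simp)
        | succ t => exact hk _ _ ha' h
  | succ a =>
    change (Nat.casesOn (motive := fun _ => Bool) (Nat.land (Nat.succ a) a)
        (Nat.casesOn (motive := fun _ => Bool) P'
          (Nat.casesOn (motive := fun _ => Bool) (Nat.lor F (Nat.succ a)) false
            (fun f => k T (Nat.succ f))) (fun _ => false)) (fun _ => false) : Bool) = true at h
    generalize hL : Nat.land (Nat.succ a) a = L at h
    cases L with
    | succ _ => exact absurd h (by simp)
    | zero =>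
      cases P' with
      | succ _ => exact absurd h (by simp)
      | zero =>
        have hvs : (Nat.succ a).testBit v = true ∧ ¬ σ v := by
          rcases hv' with ⟨h1, _⟩ | h1
          · exact absurd h1 (by simp)
          · exact h1
        have ha' : Asg σ T (Nat.lor F (Nat.succ a)) := ha.orF (fun w hw => by
          rw [single_of_land hL hw hvs.1]; exact hvs.2)
        generalize Nat.lor F (Nat.succ a) = F' at h ha'
        cases F' with
        | zero => exact absurd h (by simp)
        | succ t => exact hk _ _ ha' h

theorem run_sound {σ : ℕ → Prop} {db : DB} {bd : ℕ} {fin : ℕ → ℕ → Bool}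
    (hdb : ∀ k < bd, Hold σ (db.get k))
    (hfin : ∀ T F, Asg σ T F → fin T F = true → False) : ∀ (fuel h T F : ℕ),
    Asg σ T F → run db bd fin fuel h T F = true → False := by
  intro fuel
  induction fuel with
  | zero => intro h T F _ hr; exact absurd hr (by simp [run])
  | succ fuel ih =>
    intro h T F ha hr
    change (Nat.casesOn (motive := fun _ => Bool) h (fin T F)
      (fun h' => Nat.casesOn (motive := fun _ => Bool) (Nat.mod (Nat.succ h') 65536) false
        (fun d => Bool.casesOn (motive := fun _ => Bool) (Nat.ble bd d)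
          (db.look d (fun p n => stp T F p n (run db bd fin fuel (Nat.div (Nat.succ h') 65536))))
          false)) : Bool) = true at hr
    cases h with
    | zero => exact hfin T F ha hr
    | succ h' =>
      simp only at hr
      generalize Nat.mod (Nat.succ h') 65536 = m at hr
      cases m with
      | zero => exact absurd hr (by simp)
      | succ d =>
        simp only at hr
        cases hb : Nat.ble bd d with
        | true => rw [hb] at hr; exact absurd hr (by simp)
        | false =>
          rw [hb] at hr
          simp only at hr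
          rw [DB.look_eq] at hr
          have hd : d < bd := by
            by_contra h1
            have h2 : Nat.ble bd d = true := by rw [Nat.ble_eq]; exact not_lt.1 h1
            rw [hb] at h2
            exact absurd h2 (by simp)
          exact stp_sound (fun T F hA => ih _ T F hA) (hdb d hd) ha hr

/-- The justification of a clause: hints, perhaps followed by a theory check. -/
inductive J (α : Type) : Type
  | r (f h : ℕ) : J α
  | t (f h : ℕ) (x : α) : J α

section
variable {α : Type}

/-- Force the two masks. -/
def fc (a b : ℕ) (k : ℕ → ℕ → Bool) : Bool :=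
  Nat.casesOn (motive := fun _ => Bool) a
    (Nat.casesOn (motive := fun _ => Bool) b (k 0 0) (fun f => k 0 (Nat.succ f)))
    (fun t => Nat.casesOn (motive := fun _ => Bool) b (k (Nat.succ t) 0)
      (fun f => k (Nat.succ t) (Nat.succ f)))

lemma fc_eq (a b : ℕ) (k : ℕ → ℕ → Bool) : fc a b k = k a b := by
  unfold fc
  cases a <;> cases b <;> rfl

/-- The check of one clause. -/
noncomputable def chkJ (db : DB) (th : α → ℕ → ℕ → Bool) (T0 F0 i : ℕ) (j : J α) : Bool :=
  J.casesOn (motive := fun _ => Bool) j
    (fun f h => db.look i (fun p n => fc (Nat.lor n T0) (Nat.lor p F0) (run db i nof f h)))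
    (fun f h x => db.look i (fun p n => fc (Nat.lor n T0) (Nat.lor p F0)
      (run db i (th x) f h)))

/-- The check of a block of clauses. -/
noncomputable def chkL (db : DB) (th : α → ℕ → ℕ → Bool) (T0 F0 : ℕ) (js : List (J α)) : ℕ → Bool :=
  List.rec (motive := fun _ => ℕ → Bool) (fun _ => true)
    (fun j _ ih i => Bool.casesOn (motive := fun _ => Bool) (chkJ db th T0 F0 i j) false
      (Nat.casesOn (motive := fun _ => Bool) (Nat.add i 1) false (fun i' => ih (Nat.succ i'))))
    js

theorem chkJ_sound {σ : ℕ → Prop} {db : DB} {th : α → ℕ → ℕ → Bool} {T0 F0 i : ℕ} {j : J α}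
    (hb : Asg σ T0 F0) (hth : ∀ x T F, Asg σ T F → th x T F = true → False)
    (hdb : ∀ k < i, Hold σ (db.get k)) (h : chkJ db th T0 F0 i j = true) :
    Hold σ (db.get i) := by
  by_contra hc
  cases j with
  | r f h' =>
    change db.look i (fun p n => fc (Nat.lor n T0) (Nat.lor p F0) (run db i nof f h')) = true at h
    rw [DB.look_eq, fc_eq] at h
    exact run_sound hdb (fun _ _ _ h => absurd h (by simp [nof])) _ _ _ _ (hb.neg hc) h
  | t f h' x =>
    change db.look i (fun p n => fc (Nat.lor n T0) (Nat.lor p F0)
      (run db i (th x) f h')) = true at h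
    rw [DB.look_eq, fc_eq] at h
    exact run_sound hdb (hth x) _ _ _ _ (hb.neg hc) h

theorem chkL_sound {σ : ℕ → Prop} {db : DB} {th : α → ℕ → ℕ → Bool} {T0 F0 : ℕ}
    (hb : Asg σ T0 F0) (hth : ∀ x T F, Asg σ T F → th x T F = true → False) :
    ∀ (js : List (J α)) (i : ℕ), chkL db th T0 F0 js i = true →
      (∀ k < i, Hold σ (db.get k)) → ∀ k < i + js.length, Hold σ (db.get k) := by
  intro js
  induction js with
  | nil => intro i _ h k hk; exact h k (by simpa using hk)
  | cons j js ih =>
    intro i hc h k hk
    change (Bool.casesOn (motive := fun _ => Bool) (chkJ db th T0 F0 i j) false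
      (chkL db th T0 F0 js (i + 1)) : Bool) = true at hc
    cases hj : chkJ db th T0 F0 i j with
    | false => rw [hj] at hc; exact absurd hc (by simp)
    | true =>
      rw [hj] at hc
      have h1 := chkJ_sound hb hth h hj
      refine ih (i + 1) hc ?_ k (by simp only [List.length_cons] at hk; omega)
      intro k' hk'
      rcases Nat.lt_succ_iff_lt_or_eq.1 hk' with h2 | h2
      · exact h k' h2
      · rw [h2]; exact h1

/-- A block of clauses from `a` to `b - 1` is correct. -/
def Blk (db : DB) (th : α → ℕ → ℕ → Bool) (T0 F0 a b : ℕ) : Prop :=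
  ∀ σ : ℕ → Prop, Asg σ T0 F0 → (∀ x T F, Asg σ T F → th x T F = true → False) →
    (∀ k < a, Hold σ (db.get k)) → ∀ k < b, Hold σ (db.get k)

theorem Blk.of_chk {db : DB} {th : α → ℕ → ℕ → Bool} {T0 F0 a b : ℕ} (js : List (J α))
    (h : chkL db th T0 F0 js a = true) (hl : Nat.ble b (Nat.add a js.length) = true) :
    Blk db th T0 F0 a b := fun _ hb hth hk k hkb =>
  chkL_sound hb hth js a h hk k (lt_of_lt_of_le hkb (by rw [Nat.ble_eq] at hl; exact hl))

theorem Blk.trans {db : DB} {th : α → ℕ → ℕ → Bool} {T0 F0 a b c : ℕ}
    (h : Blk db th T0 F0 a b) (h' : Blk db th T0 F0 b c) : Blk db th T0 F0 a c :=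
  fun σ hb hth hk => h' σ hb hth (h σ hb hth hk)

end

end Pool.Agent.GCP
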