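import Pool.Agent.GCP.Hyp
import Pool.Agent.GCP.Db

/-!
# Theory checks for the databases
-/

namespace Pool.Agent.GCP

/-- The check of an axiom clause against masks. -/
def axf (N i j k l t T F : ℕ) : Bool :=
  axOK N i j k l t (axc i j k l t) &&
    (Nat.beq (Nat.lor (axc i j k l t).2 T) T && Nat.beq (Nat.lor (axc i j k l t).1 F) F)

lemma sub_mask {a T v : ℕ} (h : Nat.beq (Nat.lor a T) T = true) (hv : a.testBit v = true) :
    T.testBit v = true := by
  rw [Nat.beq_eq] at h
  have h1 : (a ||| T) = T := h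
  rw [← h1, Nat.testBit_or, hv, Bool.true_or]

lemma not_hold_of_sub {σ : ℕ → Prop} {T F : ℕ} (ha : Asg σ T F) {c : ℕ × ℕ}
    (h2 : Nat.beq (Nat.lor c.2 T) T = true) (h1 : Nat.beq (Nat.lor c.1 F) F = true) :
    ¬ Hold σ c := by
  rintro ⟨v, ⟨h, hs⟩ | ⟨h, hs⟩⟩
  · exact (ha v).2 (sub_mask h1 h) hs
  · exact hs ((ha v).1 (sub_mask h2 h))

lemma axf_sound {n : ℕ} {P : ℕ → Pt} (hf : Frame n P) {T F : ℕ} (ha : Asg (val P) T F)
    {i j k l t : ℕ} (h : axf (n - 1) i j k l t T F = true) : False := by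
  simp only [axf, Bool.and_eq_true] at h
  exact not_hold_of_sub ha h.2.1 h.2.2 (ax_hold hf h.1)

/-- Theory justifications: signotope axioms, partitions, convex 4-cuts. -/
inductive Th : Type
  | ax (i j k l t : ℕ) : Th
  | z (t : Ct) : Th
  | b (m : Bool) (a b : ℕ) (A B : List ℕ) : Th

/-- The theory check. -/
def thk (n K g2 g3 : ℕ) (tg : List (List Q)) (useB : Bool) : Th → ℕ → ℕ → Bool
  | .ax i j k l t, T, F => axf (n - 1) i j k l t T F
  | .z t, T, F => zfin n K g2 g3 tg t T F
  | .b m a b A B, T, F => useB && bfin n m a b A B T F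

theorem thk_sound {n K g2 g3 : ℕ} {tg : List (List Q)} (hF : Facts g2 g3 tg)
    {P : ℕ → Pt} (hf : Frame n P) (hK : ¬ HCPle (P '' {i | i < n}) K) (hB : Bool)
    (hE : hB = true → EB n P) :
    ∀ (x : Th) (T F : ℕ), Asg (val P) T F → thk n K g2 g3 tg hB x T F = true → False := by
  intro x T F ha h
  cases x with
  | ax i j k l t => exact axf_sound hf ha h
  | z t =>
    simp only [thk, zfin, Bool.and_eq_true, Nat.ble_eq] at h
    obtain ⟨h1, h2, h3⟩ := h
    obtain ⟨a1, a2, a3⟩ := full_iff h1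
    apply hK
    have := (ct_sound hF hf ha t a2 a1 h3).mono h2
    have he : {i | i ∈ t.pts} = {i | i < n} := by
      ext i
      exact a3 i
    rw [he] at this
    exact this
  | b m a b A B =>
    simp only [thk, bfin, Bool.and_eq_true, Nat.beq_eq] at h
    obtain ⟨h0, h1, h2, h3, h4⟩ := h
    obtain ⟨a1, a2, a3⟩ := full_iff h1
    have hA : ∀ i ∈ A, i < n := fun i hi => a2 i (List.mem_append.2 (Or.inl hi))
    have hB : ∀ i ∈ B, i < n := fun i hi => a2 i (List.mem_append.2 (Or.inr hi))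
    rw [List.nodup_append] at a1
    exact hE h0 ⟨A, B, h1, h2, (leaf_sound hf.inj hf.gp
      (fun i j k hi hj hk => lit_sound hf ha hi hj hk) hA a1.1 h4).2, cut_sound hf ha hA hB h3⟩

/-- The targets `cs` are the clauses with the indices `is` in the database. -/
def tgtOK (db : DB) (b : ℕ) : List ℕ → List (ℕ × ℕ) → Bool
  | [], [] => true
  | i :: is, c :: cs => lt' i b && (Nat.beq (db.get i).1 c.1 && (Nat.beq (db.get i).2 c.2 &&
      tgtOK db b is cs))
  | _, _ => false

lemma tgt_sound {σ : ℕ → Prop} {db : DB} {b : ℕ} : ∀ {is : List ℕ} {cs : List (ℕ × ℕ)},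
    tgtOK db b is cs = true → (∀ k < b, Hold σ (db.get k)) → ∀ c ∈ cs, Hold σ c
  | [], [], _, _ => fun c hc => absurd hc (by simp)
  | i :: is, c :: cs, h, hd => by
    simp only [tgtOK, Bool.and_eq_true, lt'_iff, Nat.beq_eq] at h
    obtain ⟨h1, h2, h3, h4⟩ := h
    intro d hdm
    rcases List.mem_cons.1 hdm with rfl | hdm
    · have := hd i h1
      have he : db.get i = d := Prod.ext h2 h3
      rw [he] at this
      exact this
    · exact tgt_sound h4 hd d hdm
  | [], _ :: _, h, _ => absurd h (by simp [tgtOK])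
  | _ :: _, [], h, _ => absurd h (by simp [tgtOK])

end Pool.Agent.GCP
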