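import Pool.Agent.GCP.AXD0
import Pool.Agent.GCP.Th
import Pool.Agent.GCP.G7

set_option autoImplicit false

/-! # Database AXDb (generated) -/

namespace Pool.Agent.GCP.AX

open Pool.Agent.GCP DB

def db : DB := (N 768 (N 256 d0 (N 512 d1 d2)) (N 1280 (N 1024 d3 d4) (N 1536 d5 d6)))

noncomputable def th : Th → ℕ → ℕ → Bool := thk 15 4 7 10 [] false


abbrev B (a b : ℕ) : Prop := Blk db th (nat_lit 0) (nat_lit 0) a b

end Pool.Agent.GCP.AX
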