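import Pool.Agent.GCP.Defs

/-!
# The lower bound `⌊n/4⌋ + 1 ≤ G n` for all `n ≥ 1`

The set consists of the points `(j, j²)`, `0 ≤ j < m`, and `(j, j² + 1/2)`, `1 ≤ j ≤ n - m`, where
`m = ⌊n/2⌋ + 1`.  A part of a convex partition contains at most two of the points `(j, j²)`.
-/

set_option autoImplicit false

namespace Pool.Agent.GCP.LowAll

open Pool.Agent.GCP

/-- The points `(j, j² + e)`. -/
noncomputable def pt (e : ℝ) (j : ℕ) : Pt := ((j : ℝ), (j : ℝ) ^ 2 + e)

/-- The set of `n` points. -/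
noncomputable def Xn (n : ℕ) : Finset Pt :=
  (Finset.range (n / 2 + 1)).image (pt 0) ∪ (Finset.Icc 1 (n - (n / 2 + 1))).image (pt (1 / 2))

lemma pt_inj {e e' : ℝ} {i j : ℕ} (h : pt e i = pt e' j) : i = j ∧ e = e' := by
  unfold pt at h
  have h1 := congrArg Prod.fst h
  have h2 := congrArg Prod.snd h
  simp only at h1 h2
  have h3 : i = j := by exact_mod_cast h1
  subst h3
  exact ⟨rfl, by linarith⟩

lemma card_Xn {n : ℕ} (hn : 1 ≤ n) : (Xn n).card = n := by
  unfold Xn
  rw [Finset.card_union_of_disjoint, Finset.card_image_of_injective, Finset.card_image_of_injective]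
  · simp
    omega
  · intro i j h
    exact (pt_inj h).1
  · intro i j h
    exact (pt_inj h).1
  · rw [Finset.disjoint_left]
    intro x hx hx'
    obtain ⟨i, -, rfl⟩ := Finset.mem_image.1 hx
    obtain ⟨j, -, h⟩ := Finset.mem_image.1 hx'
    have := (pt_inj h).2
    norm_num at this

lemma mem_Xn {n : ℕ} {x : Pt} (hx : x ∈ Xn n) : ∃ (e : ℝ) (j : ℕ), (e = 0 ∨ e = 1 / 2) ∧ x = pt e j := by
  unfold Xn at hx
  rcases Finset.mem_union.1 hx with h | h
  · obtain ⟨j, -, rfl⟩ := Finset.mem_image.1 h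
    exact ⟨0, j, Or.inl rfl, rfl⟩
  · obtain ⟨j, -, rfl⟩ := Finset.mem_image.1 h
    exact ⟨1 / 2, j, Or.inr rfl, rfl⟩

lemma orient_of_collinear {p q r : Pt} (h : Collinear ℝ ({p, q, r} : Set Pt)) :
    orient p q r = 0 := by
  rw [collinear_iff_of_mem (p₀ := p) (by simp)] at h
  obtain ⟨v, hv⟩ := h
  obtain ⟨s, hs⟩ := hv q (by simp)
  obtain ⟨t, ht⟩ := hv r (by simp)
  rw [hs, ht]
  simp only [orient, vadd_eq_add, Prod.fst_add, Prod.smul_fst, smul_eq_mul, Prod.snd_add,
    Prod.smul_snd]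
  ring

/-- three points with distinct first coordinates -/
lemma orient_pos {e₁ e₂ e₃ : ℝ} {i j k : ℕ} (h1 : e₁ = 0 ∨ e₁ = 1 / 2) (h2 : e₂ = 0 ∨ e₂ = 1 / 2)
    (h3 : e₃ = 0 ∨ e₃ = 1 / 2) (hij : i < j) (hjk : j < k) :
    0 < orient (pt e₁ i) (pt e₂ j) (pt e₃ k) := by
  have a1 : (1 : ℝ) ≤ (j : ℝ) - i := by
    have : (i : ℝ) + 1 ≤ j := by exact_mod_cast hij
    linarith
  have a2 : (1 : ℝ) ≤ (k : ℝ) - j := by
    have : (j : ℝ) + 1 ≤ k := by exact_mod_cast hjk
    linarith
  have b1 : 0 ≤ e₁ := by rcases h1 with rfl | rfl <;> norm_num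
  have b3 : 0 ≤ e₃ := by rcases h3 with rfl | rfl <;> norm_num
  have b2 : e₂ ≤ 1 / 2 := by rcases h2 with rfl | rfl <;> norm_num
  have key : orient (pt e₁ i) (pt e₂ j) (pt e₃ k) =
      (((j : ℝ) - i) + ((k : ℝ) - j)) * (((j : ℝ) - i) * ((k : ℝ) - j) - e₂) +
        ((j : ℝ) - i) * e₃ + ((k : ℝ) - j) * e₁ := by
    unfold orient pt
    simp only
    ring
  rw [key]
  generalize (j : ℝ) - i = u at a1 ⊢
  generalize (k : ℝ) - j = v at a2 ⊢
  have c1 : 1 ≤ u * v := by nlinarith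
  have c2 : 0 < (u + v) * (u * v - e₂) := mul_pos (by linarith) (by linarith)
  have c3 : 0 ≤ u * e₃ := mul_nonneg (by linarith) b3
  have c4 : 0 ≤ v * e₁ := mul_nonneg (by linarith) b1
  linarith

lemma orient_ne_zero {e₁ e₂ e₃ : ℝ} {i j k : ℕ} (h1 : e₁ = 0 ∨ e₁ = 1 / 2) (h2 : e₂ = 0 ∨ e₂ = 1 / 2)
    (h3 : e₃ = 0 ∨ e₃ = 1 / 2) (hpq : pt e₁ i ≠ pt e₂ j) (hqr : pt e₂ j ≠ pt e₃ k)
    (hpr : pt e₁ i ≠ pt e₃ k) : orient (pt e₁ i) (pt e₂ j) (pt e₃ k) ≠ 0 := by
  -- two of the indices are equal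
  have hv : ∀ {e e' e'' : ℝ} {i k : ℕ}, e ≠ e' → i ≠ k → orient (pt e i) (pt e' i) (pt e'' k) ≠ 0 := by
    intro e e' e'' i k he hik h0
    unfold orient pt at h0
    simp only at h0
    have h4 : (e' - e) * ((k : ℝ) - i) = 0 := by linarith
    rcases mul_eq_zero.1 h4 with h | h
    · exact he (by linarith)
    · exact hik (by
        have h5 : (k : ℝ) = i := by linarith
        exact (by exact_mod_cast h5.symm))
  rcases lt_trichotomy i j with hij | rfl | hij
  · rcases lt_trichotomy j k with hjk | rfl | hjk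
    · exact (orient_pos h1 h2 h3 hij hjk).ne'
    · -- j = k
      rw [← orient_cyc]
      exact hv (fun h => hqr (by rw [h])) hij.ne'
    · rcases lt_trichotomy i k with hik | rfl | hik
      · rw [orient_swap']
        exact (neg_neg_of_pos (orient_pos h1 h3 h2 hik hjk)).ne
      · rw [orient_swap']
        exact neg_ne_zero.2 (hv (fun h => hpr (by rw [h])) hij.ne)
      · rw [← orient_cyc, ← orient_cyc]
        exact (orient_pos h3 h1 h2 hik hij).ne'
  · -- i = j
    have hik : i ≠ k ∨ i = k := (ne_or_eq i k)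
    rcases hik with hik | rfl
    · exact hv (fun h => hpq (by rw [h])) hik
    · exfalso
      rcases h1 with rfl | rfl <;> rcases h2 with rfl | rfl <;> rcases h3 with rfl | rfl <;>
        first | exact hpq rfl | exact hqr rfl | exact hpr rfl
  · rcases lt_trichotomy i k with hik | rfl | hik
    · rw [← neg_ne_zero, ← orient_swap]
      exact (orient_pos h2 h1 h3 hij hik).ne'
    · -- i = k
      rw [orient_swap']
      exact neg_ne_zero.2 (hv (fun h => hpr (by rw [h])) hij.ne')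
    · rcases lt_trichotomy j k with hjk | rfl | hjk
      · rw [← orient_cyc]
        exact (orient_pos h2 h3 h1 hjk hik).ne'
      · rw [← orient_cyc]
        exact hv (fun h => hqr (by rw [h])) hij.ne
      · rw [← neg_ne_zero, ← orient_swap, ← orient_cyc, ← orient_cyc]
        exact (orient_pos h3 h2 h1 hjk hij).ne'

lemma gp_Xn (n : ℕ) : GeneralPosition (Xn n) := by
  intro p hp q hq r hr hpq hqr hpr hc
  obtain ⟨e₁, i, h1, rfl⟩ := mem_Xn hp
  obtain ⟨e₂, j, h2, rfl⟩ := mem_Xn hq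
  obtain ⟨e₃, k, h3, rfl⟩ := mem_Xn hr
  exact orient_ne_zero h1 h2 h3 hpq hqr hpr (orient_of_collinear hc)

/-- The key: the point above `p_j` lies between `p_j` and a point of the segment `p_i p_k`. -/
lemma not_three {Y : Finset Pt} {i j k : ℕ} (hij : i < j) (hjk : j < k) (hi : pt 0 i ∈ Y)
    (hj : pt 0 j ∈ Y) (hk : pt 0 k ∈ Y) : pt (1 / 2) j ∈ convexHull ℝ (Y : Set Pt) ∧
      pt (1 / 2) j ∉ (convexHull ℝ (Y : Set Pt)).extremePoints ℝ := by
  have a1 : (1 : ℝ) ≤ (j : ℝ) - i := by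
    have : (i : ℝ) + 1 ≤ j := by exact_mod_cast hij
    linarith
  have a2 : (1 : ℝ) ≤ (k : ℝ) - j := by
    have : (j : ℝ) + 1 ≤ k := by exact_mod_cast hjk
    linarith
  have hcv := convex_convexHull ℝ (Y : Set Pt)
  have mi := subset_convexHull ℝ (Y : Set Pt) hi
  have mj := subset_convexHull ℝ (Y : Set Pt) hj
  have mk := subset_convexHull ℝ (Y : Set Pt) hk
  obtain ⟨u, hu⟩ : ∃ u : ℝ, u = (j : ℝ) - i := ⟨_, rfl⟩
  obtain ⟨v, hv⟩ : ∃ v : ℝ, v = (k : ℝ) - j := ⟨_, rfl⟩
  rw [← hu] at a1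
  rw [← hv] at a2
  have huv : 1 ≤ u * v := by nlinarith
  have hs : 0 < u + v := by linarith
  have hi' : (i : ℝ) = j - u := by linarith
  have hk' : (k : ℝ) = j + v := by linarith
  -- the point of the segment above `p_j`
  have mr : ((j : ℝ), (j : ℝ) ^ 2 + u * v) ∈ convexHull ℝ (Y : Set Pt) := by
    have h := hcv mi mk (a := v / (u + v)) (b := u / (u + v)) (by positivity) (by positivity)
      (by field_simp; ring)
    have he : (v / (u + v)) • pt 0 i + (u / (u + v)) • pt 0 k = ((j : ℝ), (j : ℝ) ^ 2 + u * v) := by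
      unfold pt
      ext
      · simp only [Prod.fst_add, Prod.smul_fst, smul_eq_mul]
        rw [hi', hk']
        field_simp
        ring
      · simp only [Prod.snd_add, Prod.smul_snd, smul_eq_mul]
        rw [hi', hk']
        field_simp
        ring
    rw [he] at h
    exact h
  -- coefficients
  obtain ⟨t, ht⟩ : ∃ t : ℝ, t = 1 / (2 * (u * v)) := ⟨_, rfl⟩
  have huv0 : 0 < u * v := by linarith
  have ht0 : 0 < t := by rw [ht]; positivity
  have ht1 : t < 1 := by
    rw [ht, div_lt_one (by positivity)]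
    linarith
  have htuv : t * (u * v) = 1 / 2 := by
    rw [ht]
    field_simp
  have hq : (1 - t) • pt 0 j + t • ((j : ℝ), (j : ℝ) ^ 2 + u * v) = pt (1 / 2) j := by
    unfold pt
    ext
    · simp only [Prod.fst_add, Prod.smul_fst, smul_eq_mul]
      ring
    · simp only [Prod.snd_add, Prod.smul_snd, smul_eq_mul]
      linarith
  constructor
  · rw [← hq]
    exact hcv mj mr (by linarith) ht0.le (by ring)
  · intro hext
    rw [mem_extremePoints] at hext
    have h := hext.2 _ mj _ mr ⟨1 - t, t, by linarith, ht0, by ring, hq⟩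
    have h2 := (pt_inj h.1).2
    norm_num at h2

/-- The lower bound for the set. -/
theorem low_set {n k : ℕ} (h : HasConvexPartition (Xn n) k) : n / 4 + 1 ≤ k := by
  classical
  obtain ⟨Y, -, hdis, hun, hcp, hhull⟩ := h
  have hmem : ∀ x ∈ Xn n, ∃ i, x ∈ Y i := by
    intro x hx
    rw [← hun] at hx
    obtain ⟨i, -, hi⟩ := Finset.mem_biUnion.1 hx
    exact ⟨i, hi⟩
  have hP : ∀ j : Fin (n / 2 + 1), ∃ i, pt 0 j ∈ Y i := by
    intro j
    refine hmem _ ?_
    unfold Xn
    exact Finset.mem_union_left _ (Finset.mem_image_of_mem _ (Finset.mem_range.2 j.2))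
  choose f hf using hP
  by_contra hlt
  have hcard : Finset.card (Finset.univ : Finset (Fin k)) * 2 <
      Finset.card (Finset.univ : Finset (Fin (n / 2 + 1))) := by
    rw [Finset.card_fin, Finset.card_fin]
    omega
  obtain ⟨i, -, hi⟩ := Finset.exists_lt_card_fiber_of_mul_lt_card_of_maps_to
    (f := f) (fun a _ => Finset.mem_univ (f a)) hcard
  -- three sorted elements of the fibre
  obtain ⟨a, b, c, ha, hb, hc, hab, hbc⟩ : ∃ a b c : Fin (n / 2 + 1), f a = i ∧ f b = i ∧ f c = i ∧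
      a < b ∧ b < c := by
    obtain ⟨a, ha, b, hb, c, hc, hab, hac, hbc⟩ := Finset.two_lt_card.1 hi
    simp only [Finset.mem_filter, Finset.mem_univ, true_and] at ha hb hc
    rcases lt_or_gt_of_ne hab with h1 | h1 <;> rcases lt_or_gt_of_ne hbc with h2 | h2 <;>
      rcases lt_or_gt_of_ne hac with h3 | h3
    · exact ⟨a, b, c, ha, hb, hc, h1, h2⟩
    · exact absurd (h1.trans h2) (not_lt.2 h3.le)
    · exact ⟨a, c, b, ha, hc, hb, h3, h2⟩
    · exact ⟨c, a, b, hc, ha, hb, h3, h1⟩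
    · exact ⟨b, a, c, hb, ha, hc, h1, h3⟩
    · exact ⟨b, c, a, hb, hc, ha, h2, h3⟩
    · exact absurd (h2.trans h1) (not_lt.2 h3.le)
    · exact ⟨c, b, a, hc, hb, ha, h2, h1⟩
  have ha' : pt 0 a ∈ Y i := ha ▸ hf a
  have hb' : pt 0 b ∈ Y i := hb ▸ hf b
  have hc' : pt 0 c ∈ Y i := hc ▸ hf c
  obtain ⟨h1, h2⟩ := not_three (show (a : ℕ) < b from hab) (show (b : ℕ) < c from hbc) ha' hb' hc'
  have hq : pt (1 / 2) b ∈ Xn n := by
    unfold Xn
    refine Finset.mem_union_right _ (Finset.mem_image_of_mem _ (Finset.mem_Icc.2 ?_))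
    have h3 : (a : ℕ) < b := hab
    have h4 : (b : ℕ) < c := hbc
    have h5 := c.2
    omega
  obtain ⟨i', hi'⟩ := hmem _ hq
  by_cases hii : i' = i
  · subst hii
    exact h2 (hcp i' hi')
  · exact Set.disjoint_left.1 (hhull i' i hii) (subset_convexHull ℝ _ hi') h1

/-- Partition in singletons. -/
lemma singles (X : Finset Pt) : HasConvexPartition X X.card := by
  classical
  refine ⟨fun i => {(X.equivFin.symm i : Pt)}, ?_, ?_, ?_, ?_, ?_⟩
  · intro i
    exact Finset.singleton_nonempty _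
  · intro i j hij
    rw [Finset.disjoint_singleton]
    intro h
    exact hij (X.equivFin.symm.injective (Subtype.ext h))
  · ext x
    simp only [Finset.mem_biUnion, Finset.mem_univ, true_and, Finset.mem_singleton]
    constructor
    · rintro ⟨i, rfl⟩
      exact (X.equivFin.symm i).2
    · intro hx
      exact ⟨X.equivFin ⟨x, hx⟩, by simp⟩
  · intro i
    unfold IsConvexPolygon
    simp
  · intro i j hij
    simp only [Finset.coe_singleton, convexHull_singleton, Set.disjoint_singleton]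
    intro h
    exact hij (X.equivFin.symm.injective (Subtype.ext h))

/-- **The lower bound**: `⌈(n + 1) / 4⌉ = ⌊n / 4⌋ + 1 ≤ G n` for all `n ≥ 1`. -/
theorem low_all {n : ℕ} (hn : 1 ≤ n) : n / 4 + 1 ≤ G n := by
  have hne : {g | ∀ X : Finset Pt, X.card = n → GeneralPosition X → HasConvexPartition X g}.Nonempty := by
    refine ⟨n, fun X hX _ => ?_⟩
    have h := singles X
    rwa [hX] at h
  have h1 := Nat.sInf_mem hne
  exact low_set (h1 (Xn n) (card_Xn hn) (gp_Xn n))

end Pool.Agent.GCP.LowAll
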