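import Pool.Agent.GCP.Split

/-!
# A set of eleven points without a convex partition with three parts

The proof of the lower bound `4 ≤ G 11` from the hand-in `MP_062f91_co.GEleven`.
-/

namespace Pool.Agent.GCP.Low

open Pool.Agent.GCP

/-- Signed area of the triangle. -/
def orient {R : Type*} [CommRing R] (a b c : R × R) : R :=
  (b.1 - a.1) * (c.2 - a.2) - (b.2 - a.2) * (c.1 - a.1)

lemma orient_of_collinear {p q r : Pt} (h : Collinear ℝ ({p, q, r} : Set Pt)) :
    orient p q r = 0 := by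
  rw [collinear_iff_of_mem (p₀ := p) (by simp)] at h
  obtain ⟨v, hv⟩ := h
  obtain ⟨s, hs⟩ := hv q (by simp)
  obtain ⟨t, ht⟩ := hv r (by simp)
  rw [hs, ht]
  simp only [orient, vadd_eq_add, Prod.fst_add, Prod.smul_fst, smul_eq_mul, Prod.snd_add,
    Prod.smul_snd]
  ring

/-! ### The lower bound -/

/-- The eleven points. -/
def pts : Fin 11 → ℤ × ℤ :=
  ![(1, 3), (3, 3), (0, -4), (-4, -1), (4, -1), (-2, 4), (-1, -2), (2, -2), (-2, 1), (3, 1),
    (0, 0)]

/-- The constraints, grouped by the largest index `m` that occurs: triples `(i, j, l)` such that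
the point `l` lies inside the triangle `i, j, m`, and triples `(i, k, l)` such that the segment
`i, m` crosses the segment `k, l`. -/
def steps : List (List (ℕ × ℕ × ℕ) × List (ℕ × ℕ × ℕ)) :=
  [([],
     []),
   ([],
     []),
   ([],
     []),
   ([(0, 2, 6), (1, 2, 6)],
     [(1, 0, 2)]),
   ([(0, 1, 9), (0, 2, 7), (0, 3, 10), (1, 2, 7), (1, 3, 9), (2, 3, 6)],
     [(3, 0, 2), (0, 1, 2), (0, 1, 3), (3, 1, 2)]),
   ([(0, 2, 10), (0, 3, 8), (1, 2, 0), (1, 3, 0), (1, 4, 0), (2, 3, 6), (2, 4, 7), (3, 4, 8)],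
     [(4, 0, 2), (2, 0, 3), (4, 0, 3), (4, 1, 2), (2, 1, 3), (4, 1, 3), (2, 3, 4)]),
   ([(0, 1, 10), (0, 2, 10), (0, 4, 10), (1, 3, 10), (1, 4, 9), (1, 5, 0), (2, 4, 7), (3,
     5, 8), (4, 5, 10)],
     [(1, 0, 2), (4, 0, 2), (5, 0, 3), (1, 0, 4), (0, 1, 3), (0, 2, 5), (0, 3, 4), (0, 4,
       5), (4, 1, 2), (5, 1, 3), (1, 2, 5), (1, 3, 4), (1, 4, 5), (4, 2, 5), (5, 3, 4)]),
   ([(0, 3, 10), (0, 6, 10), (1, 3, 10), (1, 4, 9), (1, 5, 0), (2, 3, 6), (2, 5, 10), (3,
     5, 8), (5, 6, 10)],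
     [(3, 0, 2), (5, 0, 2), (6, 0, 2), (5, 0, 3), (1, 0, 4), (3, 0, 6), (5, 0, 6), (0, 1,
       2), (0, 1, 3), (0, 1, 6), (0, 3, 4), (0, 4, 5), (0, 4, 6), (3, 1, 2), (5, 1, 2),
       (6, 1, 2), (5, 1, 3), (3, 1, 6), (5, 1, 6), (1, 3, 4), (1, 4, 5), (1, 4, 6), (3, 2,
       5), (6, 2, 5), (5, 3, 4), (3, 4, 6), (3, 5, 6), (5, 4, 6)]),
   ([(0, 2, 10), (0, 7, 10), (1, 2, 10), (1, 4, 9), (1, 5, 0), (1, 6, 10), (1, 7, 10), (2,
     3, 6), (2, 4, 7), (3, 4, 10), (4, 6, 10), (4, 7, 10), (5, 7, 10)],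
     [(1, 0, 2), (4, 0, 2), (7, 0, 2), (1, 0, 3), (2, 0, 3), (4, 0, 3), (6, 0, 3), (7, 0,
       3), (1, 0, 4), (1, 0, 6), (2, 0, 6), (4, 0, 6), (7, 0, 6), (1, 0, 7), (4, 0, 7),
       (0, 2, 5), (0, 4, 5), (0, 5, 6), (0, 5, 7), (4, 1, 2), (7, 1, 2), (2, 1, 3), (4, 1,
       3), (6, 1, 3), (7, 1, 3), (2, 1, 6), (4, 1, 6), (7, 1, 6), (4, 1, 7), (1, 2, 5),
       (1, 4, 5), (1, 5, 6), (1, 5, 7), (4, 2, 5), (7, 2, 5), (2, 3, 4), (2, 3, 7), (2, 4,
       6), (2, 5, 6), (2, 6, 7), (6, 3, 4), (7, 3, 4), (6, 3, 7), (7, 4, 6), (4, 5, 6),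
       (4, 5, 7), (7, 5, 6)]),
   ([(0, 6, 10), (1, 5, 0), (2, 3, 6), (2, 4, 7), (2, 5, 10), (2, 8, 10), (3, 4, 10), (3,
     5, 8), (3, 6, 10), (3, 7, 10), (5, 6, 10), (6, 8, 10), (7, 8, 10)],
     [(3, 0, 2), (5, 0, 2), (6, 0, 2), (8, 0, 2), (5, 0, 3), (8, 0, 3), (2, 0, 4), (3, 0,
       4), (5, 0, 4), (6, 0, 4), (7, 0, 4), (8, 0, 4), (3, 0, 6), (5, 0, 6), (8, 0, 6),
       (2, 0, 7), (3, 0, 7), (5, 0, 7), (6, 0, 7), (8, 0, 7), (5, 0, 8), (0, 1, 2), (0, 1,
       3), (0, 1, 6), (0, 1, 7), (0, 1, 8), (3, 1, 2), (5, 1, 2), (6, 1, 2), (8, 1, 2),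
       (5, 1, 3), (8, 1, 3), (3, 1, 6), (5, 1, 6), (8, 1, 6), (2, 1, 7), (3, 1, 7), (5, 1,
       7), (6, 1, 7), (8, 1, 7), (5, 1, 8), (3, 2, 5), (6, 2, 5), (8, 2, 5), (3, 2, 8),
       (6, 2, 8), (2, 3, 4), (2, 3, 7), (2, 4, 5), (2, 4, 6), (2, 4, 8), (2, 5, 7), (2, 6,
       7), (2, 7, 8), (6, 3, 4), (7, 3, 4), (6, 3, 7), (3, 4, 5), (3, 4, 8), (3, 5, 6),
       (3, 5, 7), (3, 6, 8), (3, 7, 8), (6, 4, 5), (7, 4, 5), (8, 4, 5), (7, 4, 6), (6, 4,
       8), (7, 4, 8), (8, 5, 6), (6, 5, 7), (8, 5, 7), (6, 7, 8)]),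
   ([(1, 4, 9), (1, 5, 0), (2, 3, 6), (2, 4, 7), (3, 5, 8)],
     [(1, 0, 2), (4, 0, 2), (7, 0, 2), (9, 0, 2), (5, 0, 3), (8, 0, 3), (1, 0, 4), (9, 0,
       4), (3, 0, 6), (5, 0, 6), (8, 0, 6), (1, 0, 7), (4, 0, 7), (9, 0, 7), (5, 0, 8),
       (1, 0, 9), (0, 1, 3), (0, 1, 8), (0, 3, 9), (0, 4, 5), (0, 4, 8), (0, 5, 7), (0, 5,
       9), (0, 8, 9), (4, 1, 2), (7, 1, 2), (9, 1, 2), (5, 1, 3), (8, 1, 3), (2, 1, 6),
       (4, 1, 6), (7, 1, 6), (9, 1, 6), (4, 1, 7), (9, 1, 7), (5, 1, 8), (1, 3, 9), (1, 4,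
       5), (1, 4, 8), (1, 5, 7), (1, 5, 9), (1, 8, 9), (3, 2, 5), (6, 2, 5), (8, 2, 5),
       (3, 2, 8), (6, 2, 8), (4, 2, 9), (7, 2, 9), (2, 3, 4), (2, 3, 7), (2, 4, 6), (2, 6,
       7), (2, 6, 9), (2, 7, 8), (6, 3, 4), (7, 3, 4), (6, 3, 7), (5, 3, 9), (8, 3, 9),
       (3, 5, 6), (3, 6, 8), (3, 7, 8), (9, 4, 5), (7, 4, 6), (5, 4, 8), (9, 4, 8), (4, 5,
       7), (4, 6, 9), (4, 7, 9), (8, 5, 6), (9, 5, 7), (5, 8, 9), (7, 6, 9), (6, 7, 8)])]

/-- The point with a given index, as an integer point (junk for large indices). -/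
def pt (i : ℕ) : ℤ × ℤ := if h : i < 11 then pts ⟨i, h⟩ else (0, 0)

/-- Is `d` strictly inside the triangle `a b c`? -/
def inTri (a b c d : ℤ × ℤ) : Bool :=
  (decide (0 < orient a b d) && decide (0 < orient b c d) && decide (0 < orient c a d)) ||
  (decide (orient a b d < 0) && decide (orient b c d < 0) && decide (orient c a d < 0))

/-- Do the segments `a b` and `c d` cross? -/
def crosses (a b c d : ℤ × ℤ) : Bool :=
  ((decide (0 < orient a b c) && decide (orient a b d < 0)) ||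
    (decide (orient a b c < 0) && decide (0 < orient a b d))) &&
  ((decide (0 < orient c d a) && decide (orient c d b < 0)) ||
    (decide (orient c d a < 0) && decide (0 < orient c d b)))

/-- Verification of the list of constraints. -/
def checkSteps : List (List (ℕ × ℕ × ℕ) × List (ℕ × ℕ × ℕ)) → ℕ → Bool
  | [], _ => true
  | (T, S) :: rest, m =>
    T.all (fun t => decide (t.1 < m) && decide (t.2.1 < m) && decide (t.2.2 < 11) &&
      inTri (pt t.1) (pt t.2.1) (pt m) (pt t.2.2)) &&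
    S.all (fun t => decide (t.1 < m) && decide (t.2.1 < m) && decide (t.2.2 < m) &&
      crosses (pt t.1) (pt m) (pt t.2.1) (pt t.2.2)) &&
    checkSteps rest (m + 1)

/-- Does giving colour `a` to the next point violate a constraint? -/
def viol (l : List ℕ) (a : ℕ) (T S : List (ℕ × ℕ × ℕ)) : Bool :=
  T.any (fun t => (l[t.1]? == some a) && (l[t.2.1]? == some a)) ||
  S.any (fun t => (l[t.1]? == some a) &&
    [0, 1, 2].any (fun b => (b != a) && (l[t.2.1]? == some b) && (l[t.2.2]? == some b)))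

/-- Backtracking over all colourings with the colours `0, 1, 2`. -/
def chk : List (List (ℕ × ℕ × ℕ) × List (ℕ × ℕ × ℕ)) → List ℕ → Bool
  | [], _ => false
  | (T, S) :: rest, l => [0, 1, 2].all (fun a => viol l a T S || chk rest (l ++ [a]))

lemma checkSteps_true : checkSteps steps 0 = true := by decide +kernel

lemma chk_true : chk steps [] = true := by decide +kernel

/-- Validity of a colouring for the constraints with largest index `m`. -/
def Valid (c : ℕ → ℕ) (m : ℕ) : Prop :=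
  (∀ i j l, i < m → j < m → l < 11 → inTri (pt i) (pt j) (pt m) (pt l) = true →
    ¬ (c i = c m ∧ c j = c m)) ∧
  (∀ i k l, i < m → k < m → l < m → crosses (pt i) (pt m) (pt k) (pt l) = true →
    ¬ (c i = c m ∧ c k = c l ∧ c k ≠ c m))

lemma range_getElem? (c : ℕ → ℕ) (m i x : ℕ) (h : ((List.range m).map c)[i]? = some x) :
    i < m ∧ c i = x := by
  rw [List.getElem?_map] at h
  rcases lt_or_ge i m with hi | hi
  · rw [List.getElem?_range hi] at h
    simp only [Option.map_some, Option.some.injEq] at h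
    exact ⟨hi, h⟩
  · rw [List.getElem?_eq_none (by simpa using hi)] at h
    simp at h

lemma chk_sound (c : ℕ → ℕ) (hc : ∀ i, c i < 3) (st : List (List (ℕ × ℕ × ℕ) × List (ℕ × ℕ × ℕ)))
    (m : ℕ) (hst : checkSteps st m = true) (hv : ∀ m', m ≤ m' → m' < m + st.length → Valid c m')
    (hchk : chk st ((List.range m).map c) = true) : False := by
  induction st generalizing m with
  | nil => simp [chk] at hchk
  | cons TS rest ih =>
    obtain ⟨T, S⟩ := TS
    simp only [checkSteps, Bool.and_eq_true, List.all_eq_true, decide_eq_true_eq] at hst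
    obtain ⟨⟨hT, hS⟩, hrest⟩ := hst
    simp only [chk, List.all_eq_true] at hchk
    have hcm : c m ∈ [0, 1, 2] := by
      have := hc m
      simp only [List.mem_cons, List.not_mem_nil, or_false]
      omega
    have h1 := hchk (c m) hcm
    rw [Bool.or_eq_true] at h1
    obtain ⟨hv1, hv2⟩ := hv m le_rfl (by simp)
    rcases h1 with h1 | h1
    · simp only [viol, Bool.or_eq_true, List.any_eq_true, Bool.and_eq_true, beq_iff_eq,
        bne_iff_ne] at h1
      rcases h1 with ⟨t, ht, ha, hb⟩ | ⟨t, ht, ha, b, hb, ⟨hba, hk⟩, hl⟩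
      · obtain ⟨⟨⟨h1, h2⟩, h3⟩, h4⟩ := hT t ht
        exact hv1 t.1 t.2.1 t.2.2 h1 h2 h3 h4
          ⟨(range_getElem? c m _ _ ha).2, (range_getElem? c m _ _ hb).2⟩
      · obtain ⟨⟨⟨h1, h2⟩, h3⟩, h4⟩ := hS t ht
        have e1 := (range_getElem? c m _ _ ha).2
        have e2 := (range_getElem? c m _ _ hk).2
        have e3 := (range_getElem? c m _ _ hl).2
        exact hv2 t.1 t.2.1 t.2.2 h1 h2 h3 h4 ⟨e1, by rw [e2, e3], by rw [e2]; exact hba⟩
    · apply ih (m + 1) hrest
      · intro m' hm1 hm2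
        apply hv m' (by omega)
        simp only [List.length_cons]
        omega
      · rw [List.range_succ, List.map_append, List.map_singleton]
        exact h1

/-- The real version of an integer point. -/
def toPt (a : ℤ × ℤ) : Pt := ((a.1 : ℝ), (a.2 : ℝ))

lemma orient_cast (a b c : ℤ × ℤ) : orient (toPt a) (toPt b) (toPt c) = (orient a b c : ℤ) := by
  simp only [orient, toPt]
  push_cast
  ring

lemma toPt_injective : Function.Injective toPt := by
  intro a b h
  simp only [toPt, Prod.mk.injEq, Int.cast_inj] at h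
  exact Prod.ext h.1 h.2

/-- A point with positive barycentric coordinates lies in the convex hull. -/
lemma mem_hull_of_pos {a b c d : Pt} {S : Set Pt} (ha : a ∈ S) (hb : b ∈ S) (hc : c ∈ S)
    {u v w : ℝ} (hu : 0 ≤ u) (hv : 0 ≤ v) (hw : 0 ≤ w) (hs : 0 < u + v + w)
    (h1 : (u + v + w) * d.1 = u * a.1 + v * b.1 + w * c.1)
    (h2 : (u + v + w) * d.2 = u * a.2 + v * b.2 + w * c.2) : d ∈ convexHull ℝ S := by
  have hconv := convex_convexHull ℝ S
  have ha' := subset_convexHull ℝ S ha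
  have hb' := subset_convexHull ℝ S hb
  have hc' := subset_convexHull ℝ S hc
  have hd : d = (u / (u + v + w)) • a + (v / (u + v + w)) • b + (w / (u + v + w)) • c := by
    ext
    · simp only [Prod.fst_add, Prod.smul_fst, smul_eq_mul]
      field_simp
      linarith
    · simp only [Prod.snd_add, Prod.smul_snd, smul_eq_mul]
      field_simp
      linarith
  rw [hd]
  have := hconv.sum_mem (t := Finset.univ) (w := ![u / (u + v + w), v / (u + v + w),
    w / (u + v + w)]) (z := ![a, b, c]) ?_ ?_ ?_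
  · simpa [Fin.sum_univ_three] using this
  · intro i _
    fin_cases i
    · simp only [Fin.zero_eta, Matrix.cons_val_zero]; positivity
    · simp only [Fin.mk_one, Matrix.cons_val_one, Matrix.cons_val_zero]; positivity
    · simp only [Fin.reduceFinMk, Matrix.cons_val]; positivity
  · simp only [Fin.sum_univ_three, Matrix.cons_val_zero, Matrix.cons_val_one, Matrix.cons_val]
    field_simp
  · intro i _
    fin_cases i
    · exact ha'
    · exact hb'
    · exact hc'

lemma inTri_sound {a b c d : ℤ × ℤ} (h : inTri a b c d = true) {S : Set Pt}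
    (ha : toPt a ∈ S) (hb : toPt b ∈ S) (hc : toPt c ∈ S) : toPt d ∈ convexHull ℝ S := by
  simp only [inTri, Bool.or_eq_true, Bool.and_eq_true, decide_eq_true_eq] at h
  have e1 := orient_cast a b d
  have e2 := orient_cast b c d
  have e3 := orient_cast c a d
  rcases h with ⟨⟨h1, h2⟩, h3⟩ | ⟨⟨h1, h2⟩, h3⟩
  · have h1' : (0 : ℝ) < orient (toPt a) (toPt b) (toPt d) := by rw [e1]; exact_mod_cast h1
    have h2' : (0 : ℝ) < orient (toPt b) (toPt c) (toPt d) := by rw [e2]; exact_mod_cast h2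
    have h3' : (0 : ℝ) < orient (toPt c) (toPt a) (toPt d) := by rw [e3]; exact_mod_cast h3
    refine mem_hull_of_pos ha hb hc h2'.le h3'.le h1'.le (by linarith) ?_ ?_ <;>
    · unfold orient; ring
  · have h1' : orient (toPt a) (toPt b) (toPt d) < (0 : ℝ) := by rw [e1]; exact_mod_cast h1
    have h2' : orient (toPt b) (toPt c) (toPt d) < (0 : ℝ) := by rw [e2]; exact_mod_cast h2
    have h3' : orient (toPt c) (toPt a) (toPt d) < (0 : ℝ) := by rw [e3]; exact_mod_cast h3
    refine mem_hull_of_pos ha hb hc (u := - orient (toPt b) (toPt c) (toPt d))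
      (v := - orient (toPt c) (toPt a) (toPt d)) (w := - orient (toPt a) (toPt b) (toPt d))
      (by linarith) (by linarith) (by linarith) (by linarith) ?_ ?_ <;>
    · unfold orient; ring

/-- A common convex combination gives a common point of two hulls. -/
lemma common_point {A B C D : Pt} {S T : Set Pt} (ha : A ∈ S) (hb : B ∈ S) (hc : C ∈ T)
    (hd : D ∈ T) {p q r s : ℝ} (hp : 0 ≤ p) (hq : 0 ≤ q) (hr : 0 ≤ r) (hs : 0 ≤ s)
    (hpos : 0 < p + q) (hsum : p + q = r + s) (h1 : p * A.1 + q * B.1 = r * C.1 + s * D.1)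
    (h2 : p * A.2 + q * B.2 = r * C.2 + s * D.2) :
    ∃ x, x ∈ convexHull ℝ S ∧ x ∈ convexHull ℝ T := by
  have hne : p + q ≠ 0 := ne_of_gt hpos
  refine ⟨((p * A.1 + q * B.1) / (p + q), (p * A.2 + q * B.2) / (p + q)), ?_, ?_⟩
  · refine mem_hull_of_pos ha hb hb (u := p) (v := q) (w := 0) hp hq le_rfl (by linarith) ?_ ?_
    · simp only [add_zero, zero_mul]
      rw [mul_div_cancel₀ _ hne]
    · simp only [add_zero, zero_mul]
      rw [mul_div_cancel₀ _ hne]
  · refine mem_hull_of_pos hc hd hd (u := r) (v := s) (w := 0) hr hs le_rfl (by linarith) ?_ ?_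
    · simp only [add_zero, zero_mul]
      rw [← hsum, mul_div_cancel₀ _ hne, h1]
    · simp only [add_zero, zero_mul]
      rw [← hsum, mul_div_cancel₀ _ hne, h2]

/-- The crossing point of two segments lies in both hulls. -/
lemma crosses_sound {a b c d : ℤ × ℤ} (h : crosses a b c d = true) {S T : Set Pt}
    (ha : toPt a ∈ S) (hb : toPt b ∈ S) (hc : toPt c ∈ T) (hd : toPt d ∈ T) :
    ∃ x, x ∈ convexHull ℝ S ∧ x ∈ convexHull ℝ T := by
  simp only [crosses, Bool.or_eq_true, Bool.and_eq_true, decide_eq_true_eq] at h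
  have e1 := orient_cast a b c
  have e2 := orient_cast a b d
  have e3 := orient_cast c d a
  have e4 := orient_cast c d b
  have hR : ((0 < orient (toPt a) (toPt b) (toPt c) ∧ orient (toPt a) (toPt b) (toPt d) < 0) ∨
      (orient (toPt a) (toPt b) (toPt c) < 0 ∧ 0 < orient (toPt a) (toPt b) (toPt d))) ∧
      ((0 < orient (toPt c) (toPt d) (toPt a) ∧ orient (toPt c) (toPt d) (toPt b) < 0) ∨
      (orient (toPt c) (toPt d) (toPt a) < 0 ∧ 0 < orient (toPt c) (toPt d) (toPt b))) := by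
    rw [e1, e2, e3, e4]
    exact_mod_cast h
  generalize toPt a = A at *
  generalize toPt b = B at *
  generalize toPt c = C at *
  generalize toPt d = D at *
  have hs : orient A B C - orient A B D = orient C D B - orient C D A := by
    unfold orient; ring
  obtain ⟨h1, h2⟩ := hR
  rcases h1 with ⟨h1, h1'⟩ | ⟨h1, h1'⟩
  · rcases h2 with ⟨h2, h2'⟩ | ⟨h2, h2'⟩
    · exfalso; linarith
    · refine common_point ha hb hc hd (p := orient C D B) (q := - orient C D A)
        (r := - orient A B D) (s := orient A B C) (by linarith) (by linarith) (by linarith)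
        (by linarith) (by linarith) (by linarith) ?_ ?_ <;>
      · unfold orient; ring
  · rcases h2 with ⟨h2, h2'⟩ | ⟨h2, h2'⟩
    · refine common_point ha hb hc hd (p := - orient C D B) (q := orient C D A)
        (r := orient A B D) (s := - orient A B C) (by linarith) (by linarith) (by linarith)
        (by linarith) (by linarith) (by linarith) ?_ ?_ <;>
      · unfold orient; ring
    · exfalso; linarith

/-- The set of eleven points. -/
noncomputable def X11 : Finset Pt := Finset.univ.image (fun i => toPt (pts i))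

lemma pts_injective : Function.Injective pts := by decide

lemma card_X11 : X11.card = 11 := by
  have h : Function.Injective (fun i => toPt (pts i)) := toPt_injective.comp pts_injective
  rw [X11, Finset.card_image_of_injective _ h]
  simp

lemma orient_pts : ∀ i j k : Fin 11, i ≠ j → j ≠ k → i ≠ k →
    orient (pts i) (pts j) (pts k) ≠ 0 := by decide +kernel

lemma generalPosition_X11 : GeneralPosition X11 := by
  intro p hp q hq r hr hpq hqr hpr hcol
  simp only [X11, Finset.mem_image, Finset.mem_univ, true_and] at hp hq hr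
  obtain ⟨i, rfl⟩ := hp
  obtain ⟨j, rfl⟩ := hq
  obtain ⟨k, rfl⟩ := hr
  have h0 := orient_of_collinear hcol
  rw [orient_cast] at h0
  refine orient_pts i j k ?_ ?_ ?_ (by exact_mod_cast h0)
  · rintro rfl; exact hpq rfl
  · rintro rfl; exact hqr rfl
  · rintro rfl; exact hpr rfl

lemma inTri_ne {a b c d : ℤ × ℤ} (h : inTri a b c d = true) : a ≠ d ∧ b ≠ d ∧ c ≠ d := by
  simp only [inTri, Bool.or_eq_true, Bool.and_eq_true, decide_eq_true_eq] at h
  refine ⟨?_, ?_, ?_⟩
  · rintro rfl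
    have : orient a b a = 0 := by unfold orient; ring
    omega
  · rintro rfl
    have : orient a b b = 0 := by unfold orient; ring
    omega
  · rintro rfl
    have : orient b c c = 0 := by unfold orient; ring
    omega

theorem lower (k : ℕ) (hk : k ≤ 3) (h : HasConvexPartition X11 k) : False := by
  classical
  obtain ⟨Y, hne, hdisj, hU, hconv, hhull⟩ := h
  have hmemX : ∀ i : Fin 11, toPt (pts i) ∈ X11 := by
    intro i
    simp [X11]
  have hex : ∀ i : Fin 11, ∃ j : Fin k, toPt (pts i) ∈ Y j := by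
    intro i
    have := hmemX i
    rw [← hU] at this
    simpa using this
  choose f hf using hex
  let c : ℕ → ℕ := fun i => if h : i < 11 then (f ⟨i, h⟩ : ℕ) else 0
  have hc3 : ∀ i, c i < 3 := by
    intro i
    simp only [c]
    split_ifs with h
    · exact lt_of_lt_of_le (f ⟨i, h⟩).2 hk
    · norm_num
  have hcY : ∀ i j : ℕ, ∀ (hi : i < 11) (hj : j < 11), c i = c j → f ⟨i, hi⟩ = f ⟨j, hj⟩ := by
    intro i j hi hj hij
    simp only [c, hi, hj, dif_pos] at hij
    exact Fin.ext hij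
  have hptY : ∀ i : ℕ, ∀ (hi : i < 11), toPt (pt i) ∈ Y (f ⟨i, hi⟩) := by
    intro i hi
    simp only [pt, hi, dif_pos]
    exact hf _
  have hvalid : ∀ m, m < 11 → Valid c m := by
    intro m hm
    refine ⟨?_, ?_⟩
    · intro i j l hi hj hl htri hcol
      have hi' : i < 11 := by omega
      have hj' : j < 11 := by omega
      obtain ⟨hA, hB, hC⟩ := inTri_ne htri
      have h1 : toPt (pt i) ∈ Y (f ⟨m, hm⟩) := by
        rw [← hcY i m hi' hm hcol.1]; exact hptY i hi'
      have h2 : toPt (pt j) ∈ Y (f ⟨m, hm⟩) := by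
        rw [← hcY j m hj' hm hcol.2]; exact hptY j hj'
      have h3 : toPt (pt m) ∈ Y (f ⟨m, hm⟩) := hptY m hm
      have h4 : toPt (pt l) ∈ Y (f ⟨l, hl⟩) := hptY l hl
      by_cases hlm : f ⟨l, hl⟩ = f ⟨m, hm⟩
      · rw [hlm] at h4
        have hext := hconv _ h4
        rw [(convex_convexHull ℝ _).mem_extremePoints_iff_mem_sdiff_convexHull_sdiff] at hext
        apply hext.2
        apply inTri_sound htri
        · exact ⟨subset_convexHull ℝ _ h1, fun h => hA (toPt_injective h)⟩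
        · exact ⟨subset_convexHull ℝ _ h2, fun h => hB (toPt_injective h)⟩
        · exact ⟨subset_convexHull ℝ _ h3, fun h => hC (toPt_injective h)⟩
      · have := hhull _ _ hlm
        rw [Set.disjoint_left] at this
        exact this (subset_convexHull ℝ _ h4) (inTri_sound htri h1 h2 h3)
    · intro i k' l hi hk' hl hcr hcol
      have hi' : i < 11 := by omega
      have hk'' : k' < 11 := by omega
      have hl' : l < 11 := by omega
      have h1 : toPt (pt i) ∈ Y (f ⟨m, hm⟩) := by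
        rw [← hcY i m hi' hm hcol.1]; exact hptY i hi'
      have h2 : toPt (pt m) ∈ Y (f ⟨m, hm⟩) := hptY m hm
      have h3 : toPt (pt k') ∈ Y (f ⟨k', hk''⟩) := hptY k' hk''
      have h4 : toPt (pt l) ∈ Y (f ⟨k', hk''⟩) := by
        rw [hcY k' l hk'' hl' hcol.2.1]; exact hptY l hl'
      have hne' : f ⟨m, hm⟩ ≠ f ⟨k', hk''⟩ := by
        intro h
        apply hcol.2.2
        simp only [c, hm, hk'', dif_pos]
        rw [h]
      obtain ⟨x, hx1, hx2⟩ := crosses_sound hcr (S := (Y (f ⟨m, hm⟩) : Set Pt))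
        (T := (Y (f ⟨k', hk''⟩) : Set Pt)) h1 h2 h3 h4
      exact Set.disjoint_left.1 (hhull _ _ hne') hx1 hx2
  refine chk_sound c hc3 steps 0 checkSteps_true ?_ chk_true
  intro m' _ hm'
  apply hvalid
  have : steps.length = 11 := by decide
  omega


end Pool.Agent.GCP.Low
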