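import Pool.Agent.GCP.Defs

/-!
# The averaging lemma (MP_062f91_co)

From the ring structure (hull vertices `p i`, the minimum `a i` over the hull edge
`p i, p (i+1)`, the point `c i` beyond the chord `p (i-1), p (i+2)`) one finds a wedge cut convex
pentagon with at least three points in the opposite sector.
-/

namespace Pool.Agent.GCP

/-- The ring structure. -/
structure RingS (X : Finset Pt) (h : ℕ) (p a c : ZMod h → Pt) : Prop where
  gp : GeneralPosition X
  hh : 5 ≤ h
  pinj : Function.Injective p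
  pX : ∀ i, p i ∈ X
  aX : ∀ i, a i ∈ X
  cX : ∀ i, c i ∈ X
  hull : ∀ i, ∀ z ∈ X, z ≠ p i → z ≠ p (i + 1) → 0 < orient (p i) (p (i + 1)) z
  a1 : ∀ i, ∀ z ∈ X, z ≠ p i → z ≠ p (i + 1) → z ≠ a i → 0 < orient (p i) (a i) z
  a2 : ∀ i, ∀ z ∈ X, z ≠ p i → z ≠ p (i + 1) → z ≠ a i → orient (p (i + 1)) (a i) z < 0
  s1 : ∀ i, ∀ z ∈ X, orient (p (i - 1)) (p (i + 1)) z < 0 ↔
    z = a (i - 1) ∨ z = p i ∨ z = a i
  s2 : ∀ i, ∀ z ∈ X, orient (p (i - 1)) (p (i + 2)) z < 0 ↔
    z = p i ∨ z = p (i + 1) ∨ z = a (i - 1) ∨ z = a i ∨ z = a (i + 1) ∨ z = c i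
  s3 : ∀ i, ¬ (c (i - 1) = c i ∧ c i = c (i + 1))
  ca : ∀ i j, c i ≠ a j
  cp : ∀ i j, c i ≠ p j

namespace Avg

/-- Transitivity of the angular order at `o` (all points left of `o → e`). -/
lemma ang_trans {o e x y z : Pt} (hx : 0 ≤ orient o e x) (hy : 0 < orient o e y)
    (hz : 0 < orient o e z) (h1 : 0 < orient o x y) (h2 : 0 < orient o y z) :
    0 < orient o x z := by
  have key : orient o e y * orient o x z =
      orient o e x * orient o y z + orient o x y * orient o e z := by
    unfold orient; ring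
  have h3 : 0 < orient o e y * orient o x z := by
    rw [key]
    have := mul_nonneg hx h2.le
    have := mul_pos h1 hz
    linarith
  exact (pos_iff_pos_of_mul_pos h3).1 hy

/-- Mirror image. -/
lemma ang_trans' {o e x y z : Pt} (hx : orient o e x ≤ 0) (hy : orient o e y < 0)
    (hz : orient o e z < 0) (h1 : orient o x y < 0) (h2 : orient o y z < 0) :
    orient o x z < 0 := by
  have key : orient o e y * orient o x z =
      orient o e x * orient o y z + orient o x y * orient o e z := by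
    unfold orient; ring
  have h3 : 0 < orient o e y * orient o x z := by
    rw [key]
    have := mul_nonneg_of_nonpos_of_nonpos hx h2.le
    have := mul_pos_of_neg_of_neg h1 hz
    linarith
  exact (neg_iff_neg_of_mul_pos h3).1 hy

/-- A point of a triangle is beyond every line beyond which the vertices are. -/
lemma tri_side {x y w z e f : Pt} (h1 : 0 < orient x y z) (h2 : 0 < orient y w z)
    (h3 : 0 < orient w x z) (hx : orient e f x ≤ 0) (hy : orient e f y ≤ 0)
    (hw : orient e f w < 0) : orient e f z < 0 := by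
  have key : (orient x y z + orient y w z + orient w x z) * orient e f z =
      orient y w z * orient e f x + orient w x z * orient e f y + orient x y z * orient e f w := by
    unfold orient; ring
  have h5 : (orient x y z + orient y w z + orient w x z) * orient e f z < 0 := by
    rw [key]
    have := mul_nonpos_of_nonneg_of_nonpos h2.le hx
    have := mul_nonpos_of_nonneg_of_nonpos h3.le hy
    have := mul_neg_of_pos_of_neg h1 hw
    linarith
  have h6 : 0 < orient x y z + orient y w z + orient w x z := by linarith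
  by_contra h7
  push Not at h7
  have := mul_nonneg h6.le h7
  linarith

/-- Everything that is used at one corner `P` with neighbours `L`, `R`. -/
structure Corner (X : Finset Pt) (L2 L P R R2 aLL aL aR aRR cL cR : Pt) : Prop where
  gp : GeneralPosition X
  mL2 : L2 ∈ X
  mL : L ∈ X
  mP : P ∈ X
  mR : R ∈ X
  mR2 : R2 ∈ X
  maL : aL ∈ X
  maR : aR ∈ X
  mcL : cL ∈ X
  mcR : cR ∈ X
  dL2L : L2 ≠ L
  dL2P : L2 ≠ P
  dPR2 : P ≠ R2
  dL2R : L2 ≠ R
  dLP : L ≠ P
  dPR : P ≠ R
  dLR : L ≠ R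
  dLR2 : L ≠ R2
  dRR2 : R ≠ R2
  hL : ∀ z ∈ X, z ≠ L → z ≠ P → 0 < orient L P z
  hR : ∀ z ∈ X, z ≠ P → z ≠ R → 0 < orient P R z
  aL1 : ∀ z ∈ X, z ≠ L → z ≠ P → z ≠ aL → 0 < orient L aL z
  aL2 : ∀ z ∈ X, z ≠ L → z ≠ P → z ≠ aL → orient P aL z < 0
  aR1 : ∀ z ∈ X, z ≠ P → z ≠ R → z ≠ aR → 0 < orient P aR z
  aR2 : ∀ z ∈ X, z ≠ P → z ≠ R → z ≠ aR → orient R aR z < 0
  aLL2 : ∀ z ∈ X, z ≠ L2 → z ≠ L → z ≠ aLL → orient L aLL z < 0
  aRR1 : ∀ z ∈ X, z ≠ R → z ≠ R2 → z ≠ aRR → 0 < orient R aRR z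
  s1 : ∀ z ∈ X, orient L R z < 0 ↔ z = aL ∨ z = P ∨ z = aR
  sL : ∀ z ∈ X, orient L2 R z < 0 ↔ z = L ∨ z = P ∨ z = aLL ∨ z = aL ∨ z = aR ∨ z = cL
  sR : ∀ z ∈ X, orient L R2 z < 0 ↔ z = P ∨ z = R ∨ z = aL ∨ z = aR ∨ z = aRR ∨ z = cR
  cLp : cL ≠ L2 ∧ cL ≠ L ∧ cL ≠ P ∧ cL ≠ R ∧ cL ≠ R2
  cRp : cR ≠ L2 ∧ cR ≠ L ∧ cR ≠ P ∧ cR ≠ R ∧ cR ≠ R2
  cLa : cL ≠ aLL ∧ cL ≠ aL ∧ cL ≠ aR ∧ cL ≠ aRR
  cRa : cR ≠ aLL ∧ cR ≠ aL ∧ cR ≠ aR ∧ cR ≠ aRR

section corner

variable {X : Finset Pt} {L2 L P R R2 aLL aL aR aRR cL cR : Pt}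

lemma Corner.far (K : Corner X L2 L P R R2 aLL aL aR aRR cL cR) {z : Pt} (hz : z ∈ X)
    (h1 : z ≠ L) (h2 : z ≠ P) (h3 : z ≠ R) (h4 : z ≠ aL) (h5 : z ≠ aR) : 0 < orient L R z := by
  have h6 := orient_ne K.gp K.mL K.mR hz K.dLR h3.symm h1.symm
  rcases lt_or_gt_of_ne h6 with h | h
  · rcases (K.s1 z hz).1 h with h | h | h
    · exact absurd h h4
    · exact absurd h h2
    · exact absurd h h5
  · exact h

lemma Corner.naL (K : Corner X L2 L P R R2 aLL aL aR aRR cL cR) :
    aL ≠ L ∧ aL ≠ P ∧ aL ≠ R ∧ aR ≠ L ∧ aR ≠ P ∧ aR ≠ R ∧ aL ≠ aR := by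
  have h1 : orient L R aL < 0 := (K.s1 aL K.maL).2 (Or.inl rfl)
  have h2 : orient L R aR < 0 := (K.s1 aR K.maR).2 (Or.inr (Or.inr rfl))
  have h3 : orient L2 R aL < 0 := (K.sL aL K.maL).2 (by simp)
  have h4 : orient L R2 aR < 0 := (K.sR aR K.maR).2 (by simp)
  obtain ⟨c1, c2, c3, c4, c5⟩ := K.cLp
  obtain ⟨c6, c7, c8, c9⟩ := K.cLa
  have h5 := K.aL2 cL K.mcL c2 c3 c7
  have h6 := K.aR1 cL K.mcL c3 c4 c8
  refine ⟨?_, ?_, ?_, ?_, ?_, ?_, ?_⟩
  · rintro rfl; simp at h1
  · rintro rfl; simp at h5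
  · rintro rfl; simp at h1
  · rintro rfl; simp at h2
  · rintro rfl; simp at h6
  · rintro rfl; simp at h2
  · intro h; rw [h] at h5; linarith

/-- The triangle over an edge contains only the minimum. -/
lemma Corner.edge (K : Corner X L2 L P R R2 aLL aL aR aRR cL cR) {z : Pt} (hz : z ∈ X)
    (h1 : z ≠ P) (h2 : z ≠ R) (h3 : z ≠ cR) (h4 : ¬ 0 < orient P cR z)
    (h5 : ¬ orient R cR z < 0) : z = aR := by
  obtain ⟨d1, d2, d3, d4, d5⟩ := K.cRp
  obtain ⟨e1, e2, e3, e4⟩ := K.cRa
  have h6 : orient P cR z < 0 :=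
    lt_of_le_of_ne (not_lt.1 h4) (orient_ne K.gp K.mP K.mcR hz d3.symm h3.symm h1.symm)
  have h7 : 0 < orient R cR z :=
    lt_of_le_of_ne (not_lt.1 h5) (orient_ne K.gp K.mR K.mcR hz d4.symm h3.symm h2.symm).symm
  have h8 : orient L R2 z < 0 := by
    refine tri_side (x := P) (y := R) (w := cR) (K.hR z hz h1 h2) h7 ?_ ?_ ?_ ?_
    · rw [orient_swap]; linarith
    · exact ((K.sR P K.mP).2 (by simp)).le
    · exact ((K.sR R K.mR).2 (by simp)).le
    · exact (K.sR cR K.mcR).2 (by simp)
  rcases (K.sR z hz).1 h8 with h | h | h | h | h | h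
  · exact absurd h h1
  · exact absurd h h2
  · exfalso
    have := K.aL2 cR K.mcR d2 d3 e2
    rw [orient_swap', ← h] at this
    linarith
  · exact h
  · exfalso
    have := K.aRR1 cR K.mcR d4 d5 e4
    rw [orient_swap', ← h] at this
    linarith
  · exact absurd h h3

/-- The order of the two points at the neighbours of a good corner. -/
lemma Corner.order (K : Corner X L2 L P R R2 aLL aL aR aRR cL cR) (hc : cL ≠ cR) :
    0 < orient L cR cL ∧ orient R cL cR < 0 := by
  obtain ⟨c1, c2, c3, c4, c5⟩ := K.cLp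
  obtain ⟨c6, c7, c8, c9⟩ := K.cLa
  obtain ⟨d1, d2, d3, d4, d5⟩ := K.cRp
  obtain ⟨e1, e2, e3, e4⟩ := K.cRa
  constructor
  · have h1 : orient L R2 cR < 0 := (K.sR cR K.mcR).2 (by simp)
    have h2 : 0 < orient L R2 cL := by
      have h3 := orient_ne K.gp K.mL K.mR2 K.mcL K.dLR2 c5.symm c2.symm
      rcases lt_or_gt_of_ne h3 with h | h
      · exfalso
        rcases (K.sR cL K.mcL).1 h with h | h | h | h | h | h
        · exact c3 h
        · exact c4 h
        · exact c7 h
        · exact c8 h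
        · exact c9 h
        · exact hc h
      · exact h
    refine ang_trans (e := P) (y := R2) (K.hL cR K.mcR d2 d3).le
      (K.hL R2 K.mR2 K.dLR2.symm K.dPR2.symm) (K.hL cL K.mcL c2 c3) ?_ h2
    rw [orient_swap']; linarith
  · have h1 : orient L2 R cL < 0 := (K.sL cL K.mcL).2 (by simp)
    have h2 : 0 < orient L2 R cR := by
      have h3 := orient_ne K.gp K.mL2 K.mR K.mcR K.dL2R d4.symm d1.symm
      rcases lt_or_gt_of_ne h3 with h | h
      · exfalso
        rcases (K.sL cR K.mcR).1 h with h | h | h | h | h | h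
        · exact d2 h
        · exact d3 h
        · exact e1 h
        · exact e2 h
        · exact e3 h
        · exact hc h.symm
      · exact h
    have n1 : ∀ z ∈ X, z ≠ P → z ≠ R → orient R P z < 0 := fun z hz a b => by
      rw [orient_swap]; have := K.hR z hz a b; linarith
    refine ang_trans' (e := P) (y := L2) (n1 cL K.mcL c3 c4).le
      (n1 L2 K.mL2 K.dL2P K.dL2R) (n1 cR K.mcR d3 d4) ?_ ?_
    · rw [orient_cyc]; exact h1
    · rw [orient_swap]; linarith

/-- The points not beyond one of the two lines. -/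
lemma Corner.inside (K : Corner X L2 L P R R2 aLL aL aR aRR cL cR) :
    ∀ z, z = L ∨ z = R ∨ z = P ∨ z = aL ∨ z = aR ∨ z = cL ∨ z = cR →
      orient L cL z ≤ 0 ∧ 0 ≤ orient R cR z := by
  obtain ⟨c1, c2, c3, c4, c5⟩ := K.cLp
  obtain ⟨c6, c7, c8, c9⟩ := K.cLa
  obtain ⟨d1, d2, d3, d4, d5⟩ := K.cRp
  obtain ⟨e1, e2, e3, e4⟩ := K.cRa
  obtain ⟨g1, g2, g3, g4, g5, g6, g7⟩ := K.naL
  have fL : 0 < orient L R cL := K.far K.mcL c2 c3 c4 c7 c8
  have fR : 0 < orient L R cR := K.far K.mcR d2 d3 d4 e2 e3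
  have n1 : ∀ z ∈ X, z ≠ P → z ≠ R → orient R P z < 0 := fun z hz a b => by
    rw [orient_swap]; have := K.hR z hz a b; linarith
  have sa : orient L R aL < 0 := (K.s1 aL K.maL).2 (by simp)
  have sb : orient L R aR < 0 := (K.s1 aR K.maR).2 (by simp)
  rintro z (rfl | rfl | rfl | rfl | rfl | rfl | rfl)
  · refine ⟨by simp, ?_⟩
    rw [orient_cyc]; exact fR.le
  · refine ⟨?_, by simp⟩
    rw [orient_swap']; linarith
  · constructor
    · have := K.hL cL K.mcL c2 c3
      rw [orient_swap']; linarith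
    · rw [orient_cyc]; exact (K.hR cR K.mcR d3 d4).le
  · constructor
    · have := K.aL1 cL K.mcL c2 c3 c7
      rw [orient_swap']; linarith
    · have : orient R z cR < 0 := by
        refine ang_trans' (e := P) (y := L) (n1 z K.maL g2 g3).le (n1 L K.mL K.dLP K.dLR)
          (n1 cR K.mcR d3 d4) ?_ ?_
        · rw [orient_cyc]; exact sa
        · rw [orient_swap]; linarith
      rw [orient_swap']; linarith
  · constructor
    · have : 0 < orient L z cL := by
        refine ang_trans (e := P) (y := R) (K.hL z K.maR g4 g5).le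
          (K.hL R K.mR K.dLR.symm K.dPR.symm) (K.hL cL K.mcL c2 c3) ?_ fL
        rw [orient_swap']; linarith
      rw [orient_swap']; linarith
    · have := K.aR2 cR K.mcR d3 d4 e3
      rw [orient_swap']; linarith
  · refine ⟨by simp, ?_⟩
    by_cases h : z = cR
    · rw [h]; simp
    · have := (K.order h).2
      rw [orient_swap']; linarith
  · refine ⟨?_, by simp⟩
    by_cases h : cL = z
    · rw [h]; simp
    · have := (K.order h).1
      rw [orient_swap']; linarith

/-- `cL` is minimal over the chord `L R`. -/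
lemma Corner.minL (K : Corner X L2 L P R R2 aLL aL aR aRR cL cR) {z : Pt} (hz : z ∈ X)
    (h1 : z ≠ L) (h2 : z ≠ R) (h3 : z ≠ P) (h4 : z ≠ aL) (h5 : z ≠ aR) (h6 : z ≠ cL)
    (h7 : 0 < orient L z cL) (h8 : orient R z cL < 0) : False := by
  obtain ⟨c1, c2, c3, c4, c5⟩ := K.cLp
  obtain ⟨c6, c7, c8, c9⟩ := K.cLa
  have h9 : orient L2 R z < 0 := by
    refine tri_side (x := L) (y := R) (w := cL) (K.far hz h1 h3 h2 h4 h5) ?_ ?_ ?_ ?_ ?_
    · rw [orient_swap']; linarith
    · rw [← orient_cyc]; exact h7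
    · exact ((K.sL L K.mL).2 (by simp)).le
    · simp
    · exact (K.sL cL K.mcL).2 (by simp)
  rcases (K.sL z hz).1 h9 with h | h | h | h | h | h
  · exact h1 h
  · exact h3 h
  · have := K.aLL2 cL K.mcL c1 c2 c6
    rw [h] at h7
    linarith
  · exact h4 h
  · exact h5 h
  · exact h6 h

end corner

/-- The first element in the clockwise order at `o`. -/
lemma exists_first {o e : Pt} {S : Finset Pt} (hne : S.Nonempty)
    (hS : ∀ z ∈ S, orient o e z < 0) : ∃ r ∈ S, ∀ w ∈ S, ¬ orient o w r < 0 := by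
  have heo : 0 < (e.1 - o.1) ^ 2 + (e.2 - o.2) ^ 2 := by
    obtain ⟨z, hz⟩ := hne
    have h := hS z hz
    by_contra h0
    have h1 : e.1 - o.1 = 0 := by nlinarith [sq_nonneg (e.1 - o.1), sq_nonneg (e.2 - o.2)]
    have h2 : e.2 - o.2 = 0 := by nlinarith [sq_nonneg (e.1 - o.1), sq_nonneg (e.2 - o.2)]
    unfold orient at h
    rw [h1, h2] at h
    linarith
  let F : Pt → ℝ := fun z => ((z.1 - o.1) * (e.1 - o.1) + (z.2 - o.2) * (e.2 - o.2)) /
    (-orient o e z)
  obtain ⟨r, hr, hmax⟩ := S.exists_max_image F hne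
  refine ⟨r, hr, ?_⟩
  intro w hw hlt
  have h1 := hmax w hw
  have hw' := hS w hw
  have hr' := hS r hr
  simp only [F] at h1
  rw [div_le_div_iff₀ (by linarith) (by linarith)] at h1
  have key : ((w.1 - o.1) * (e.1 - o.1) + (w.2 - o.2) * (e.2 - o.2)) * (-orient o e r) -
      ((r.1 - o.1) * (e.1 - o.1) + (r.2 - o.2) * (e.2 - o.2)) * (-orient o e w) =
      -(((e.1 - o.1) ^ 2 + (e.2 - o.2) ^ 2) * orient o w r) := by
    unfold orient; ring
  have h2 := mul_neg_of_pos_of_neg heo hlt
  linarith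

lemma card_two (X : Finset Pt) (f g : Pt → Prop) [DecidablePred f] [DecidablePred g] :
    (X.filter f).card + (X.filter g).card + (X.filter (fun z => ¬ f z ∧ ¬ g z)).card =
      X.card + (X.filter (fun z => f z ∧ g z)).card := by
  classical
  have h1 : (X.filter f).card + (X.filter g).card =
      (X.filter f ∪ X.filter g).card + (X.filter f ∩ X.filter g).card :=
    (Finset.card_union_add_card_inter _ _).symm
  have h2 : (X.filter (fun z => f z ∨ g z)).card +
      (X.filter (fun z => ¬ (f z ∨ g z))).card = X.card :=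
    Finset.card_filter_add_card_filter_not _
  have h3 : X.filter f ∪ X.filter g = X.filter (fun z => f z ∨ g z) := by
    ext z; simp only [Finset.mem_union, Finset.mem_filter]; tauto
  have h4 : X.filter f ∩ X.filter g = X.filter (fun z => f z ∧ g z) := by
    ext z; simp only [Finset.mem_inter, Finset.mem_filter]; tauto
  have h5 : X.filter (fun z => ¬ (f z ∨ g z)) = X.filter (fun z => ¬ f z ∧ ¬ g z) := by
    ext z; simp only [Finset.mem_filter]; tauto
  rw [h3, h4] at h1
  rw [h5] at h2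
  omega

section corner

variable {X : Finset Pt} {L2 L P R R2 aLL aL aR aRR cL cR : Pt}

open scoped Classical in
/-- Count at a good corner. -/
lemma Corner.card_good (K : Corner X L2 L P R R2 aLL aL aR aRR cL cR) (hc : cL ≠ cR) :
    (X.filter (fun z => 0 < orient L cL z)).card + (X.filter (fun z => orient R cR z < 0)).card + 7
      ≤ X.card + (X.filter (fun z => 0 < orient L cL z ∧ orient R cR z < 0)).card := by
  have h1 := card_two X (fun z => 0 < orient L cL z) (fun z => orient R cR z < 0)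
  have h2 : ({L, R, P, aL, aR, cL, cR} : Finset Pt) ⊆
      X.filter (fun z => ¬ 0 < orient L cL z ∧ ¬ orient R cR z < 0) := by
    intro z hz
    simp only [Finset.mem_insert, Finset.mem_singleton] at hz
    obtain ⟨h3, h4⟩ := K.inside z hz
    refine Finset.mem_filter.2 ⟨?_, not_lt.2 h3, not_lt.2 h4⟩
    rcases hz with rfl | rfl | rfl | rfl | rfl | rfl | rfl
    · exact K.mL
    · exact K.mR
    · exact K.mP
    · exact K.maL
    · exact K.maR
    · exact K.mcL
    · exact K.mcR
  have h3 := Finset.card_le_card h2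
  obtain ⟨c1, c2, c3, c4, c5⟩ := K.cLp
  obtain ⟨c6, c7, c8, c9⟩ := K.cLa
  obtain ⟨d1, d2, d3, d4, d5⟩ := K.cRp
  obtain ⟨e1, e2, e3, e4⟩ := K.cRa
  obtain ⟨g1, g2, g3, g4, g5, g6, g7⟩ := K.naL
  have h4 : ({L, R, P, aL, aR, cL, cR} : Finset Pt).card = 7 := by
    rw [Finset.card_insert_of_notMem, Finset.card_insert_of_notMem, Finset.card_insert_of_notMem,
      Finset.card_insert_of_notMem, Finset.card_insert_of_notMem, Finset.card_insert_of_notMem,
      Finset.card_singleton]
    · simpa using hc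
    · simp [c8.symm, e3.symm]
    · simp [c7.symm, e2.symm, g7]
    · simp [c3.symm, d3.symm, g2.symm, g5.symm]
    · simp [c4.symm, d4.symm, g3.symm, g6.symm, K.dPR.symm]
    · simp [c2.symm, d2.symm, g1.symm, g4.symm, K.dLP, K.dLR]
  omega

open scoped Classical in
/-- Count at a bad corner. -/
lemma Corner.card_bad (K : Corner X L2 L P R R2 aLL aL aR aRR cL cR) (hc : cL = cR) :
    (X.filter (fun z => 0 < orient L cL z)).card + (X.filter (fun z => orient R cR z < 0)).card + 6
      ≤ X.card + ((X.filter (fun z => 0 < orient L cL z ∧ orient P cL z < 0)).card +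
        (X.filter (fun z => 0 < orient P cR z ∧ orient R cR z < 0)).card) := by
  have h1 := card_two X (fun z => 0 < orient L cL z) (fun z => orient R cR z < 0)
  have h2 : ({L, R, P, aL, aR, cL} : Finset Pt) ⊆
      X.filter (fun z => ¬ 0 < orient L cL z ∧ ¬ orient R cR z < 0) := by
    intro z hz
    simp only [Finset.mem_insert, Finset.mem_singleton] at hz
    obtain ⟨h3, h4⟩ := K.inside z (by tauto)
    refine Finset.mem_filter.2 ⟨?_, not_lt.2 h3, not_lt.2 h4⟩
    rcases hz with rfl | rfl | rfl | rfl | rfl | rfl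
    · exact K.mL
    · exact K.mR
    · exact K.mP
    · exact K.maL
    · exact K.maR
    · exact K.mcL
  have h3 := Finset.card_le_card h2
  obtain ⟨c1, c2, c3, c4, c5⟩ := K.cLp
  obtain ⟨c6, c7, c8, c9⟩ := K.cLa
  obtain ⟨g1, g2, g3, g4, g5, g6, g7⟩ := K.naL
  have h4 : ({L, R, P, aL, aR, cL} : Finset Pt).card = 6 := by
    rw [Finset.card_insert_of_notMem, Finset.card_insert_of_notMem, Finset.card_insert_of_notMem,
      Finset.card_insert_of_notMem, Finset.card_insert_of_notMem,
      Finset.card_singleton]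
    · simp [c8.symm]
    · simp [c7.symm, g7]
    · simp [c3.symm, g2.symm, g5.symm]
    · simp [c4.symm, g3.symm, g6.symm, K.dPR.symm]
    · simp [c2.symm, g1.symm, g4.symm, K.dLP, K.dLR]
  have h5 : X.filter (fun z => 0 < orient L cL z ∧ orient R cR z < 0) ⊆
      X.filter (fun z => 0 < orient L cL z ∧ orient P cL z < 0) ∪
        X.filter (fun z => 0 < orient P cR z ∧ orient R cR z < 0) := by
    intro z hz
    obtain ⟨h6, h7, h8⟩ := Finset.mem_filter.1 hz
    rw [Finset.mem_union, Finset.mem_filter, Finset.mem_filter]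
    have h9 : z ≠ P := by
      rintro rfl
      have := K.hL cL K.mcL c2 c3
      rw [orient_swap'] at h7
      linarith
    have h10 : z ≠ cL := by rintro rfl; simp at h7
    have h11 := orient_ne K.gp K.mP K.mcL h6 c3.symm h10.symm h9.symm
    rcases lt_or_gt_of_ne h11 with h | h
    · exact Or.inl ⟨h6, h7, h⟩
    · refine Or.inr ⟨h6, ?_, h8⟩
      rw [← hc]; exact h
  have h6 := (Finset.card_le_card h5).trans (Finset.card_union_le _ _)
  omega

open scoped Classical in
/-- Count at an edge. -/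
lemma Corner.card_edge (K : Corner X L2 L P R R2 aLL aL aR aRR cL cR) :
    X.card + (X.filter (fun z => 0 < orient P cR z ∧ orient R cR z < 0)).card ≤
      (X.filter (fun z => 0 < orient P cR z)).card + (X.filter (fun z => orient R cR z < 0)).card
        + 4 := by
  have h1 := card_two X (fun z => 0 < orient P cR z) (fun z => orient R cR z < 0)
  have h2 : X.filter (fun z => ¬ 0 < orient P cR z ∧ ¬ orient R cR z < 0) ⊆
      ({P, R, aR, cR} : Finset Pt) := by
    intro z hz
    obtain ⟨h3, h4, h5⟩ := Finset.mem_filter.1 hz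
    simp only [Finset.mem_insert, Finset.mem_singleton]
    by_cases a1 : z = P
    · exact Or.inl a1
    · by_cases a2 : z = R
      · exact Or.inr (Or.inl a2)
      · by_cases a3 : z = cR
        · exact Or.inr (Or.inr (Or.inr a3))
        · exact Or.inr (Or.inr (Or.inl (K.edge h3 a1 a2 a3 h4 h5)))
  have h3 := (Finset.card_le_card h2).trans Finset.card_le_four
  omega

end corner

/-- Five points in convex position. -/
lemma Corner.pentagon {X : Finset Pt} {L2 L P R R2 aLL aL aR aRR cL cR : Pt}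
    (K : Corner X L2 L P R R2 aLL aL aR aRR cL cR) {r : Pt} (hr : r ∈ X) (r1 : r ≠ L) (r2 : r ≠ R)
    (r3 : r ≠ P) (r4 : r ≠ aL) (r5 : r ≠ aR) (r6 : r ≠ cL) (hrL : 0 < orient L r cL)
    (hrR : orient R cL r < 0) :
    IsConvexPolygon ({aL, P, aR, cL, r} : Finset Pt) := by
  obtain ⟨c1, c2, c3, c4, c5⟩ := K.cLp
  obtain ⟨c6, c7, c8, c9⟩ := K.cLa
  obtain ⟨g1, g2, g3, g4, g5, g6, g7⟩ := K.naL
  have fL : 0 < orient L R cL := K.far K.mcL c2 c3 c4 c7 c8
  have fr : 0 < orient L R r := K.far hr r1 r3 r2 r4 r5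
  have sa : orient L R aL < 0 := (K.s1 aL K.maL).2 (by simp)
  have sb : orient L R aR < 0 := (K.s1 aR K.maR).2 (by simp)
  have sP : orient L R P < 0 := (K.s1 P K.mP).2 (by simp)
  have n1 : ∀ z ∈ X, z ≠ P → z ≠ R → orient R P z < 0 := fun z hz a b => by
    rw [orient_swap]; have := K.hR z hz a b; linarith
  -- the line a b
  have hab : ∀ z ∈ X, z ≠ P → z ≠ aL → z ≠ aR → z ≠ L → z ≠ R → 0 < orient aL aR z := by
    intro z hz h1 h2 h3 h4 h5
    have h6 := orient_ne K.gp K.maL K.maR hz g7 h3.symm h2.symm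
    rcases lt_or_gt_of_ne h6 with h | h
    · exfalso
      have h7 : orient L R z < 0 := by
        refine tri_side (x := P) (y := aR) (w := aL) (K.aR1 z hz h1 h5 h3) ?_ ?_ sP.le sb.le sa
        · rw [orient_swap]; linarith
        · have := K.aL2 z hz h4 h1 h2
          rw [orient_swap]; linarith
      exact absurd (K.far hz h4 h1 h5 h2 h3) (not_lt.2 h7.le)
    · exact h
  intro x hx
  simp only [Finset.coe_insert, Finset.coe_singleton, Set.mem_insert_iff,
    Set.mem_singleton_iff] at hx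
  have hmem : x ∈ (({aL, P, aR, cL, r} : Finset Pt) : Set Pt) := by
    simp only [Finset.coe_insert, Finset.coe_singleton, Set.mem_insert_iff,
      Set.mem_singleton_iff]; exact hx
  -- the order of cL and r at P
  have hPr := orient_ne K.gp K.mP K.mcL hr c3.symm r6.symm r3.symm
  have pa1 : orient P aL cL < 0 := K.aL2 cL K.mcL c2 c3 c7
  have pa2 : orient P aL r < 0 := K.aL2 r hr r1 r3 r4
  have pa3 : orient P aL aR < 0 := K.aL2 aR K.maR g4 g5 g7.symm
  have pb1 : 0 < orient P aR cL := K.aR1 cL K.mcL c3 c4 c8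
  have pb2 : 0 < orient P aR r := K.aR1 r hr r3 r2 r5
  -- angles at L
  have la1 : 0 < orient L aR r := by
    refine ang_trans (e := P) (y := R) (K.hL aR K.maR g4 g5).le
      (K.hL R K.mR K.dLR.symm K.dPR.symm) (K.hL r hr r1 r3) ?_ fr
    rw [orient_swap']; linarith
  have la2 : 0 < orient L aL r := K.aL1 r hr r1 r3 r4
  have la3 : 0 < orient L P r := K.hL r hr r1 r3
  -- angles at R
  have ra1 : orient R aL cL < 0 := by
    refine ang_trans' (e := P) (y := L) (n1 aL K.maL g2 g3).le (n1 L K.mL K.dLP K.dLR)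
      (n1 cL K.mcL c3 c4) ?_ ?_
    · rw [orient_cyc]; exact sa
    · rw [orient_swap]; linarith
  have ra2 : orient R aR cL < 0 := K.aR2 cL K.mcL c3 c4 c8
  have ra3 : orient R P cL < 0 := n1 cL K.mcL c3 c4
  rcases hx with rfl | rfl | rfl | rfl | rfl
  · -- aL
    rcases lt_or_gt_of_ne hPr with h | h
    · refine extreme_of_side (p := cL) (q := P) hmem ?_ ?_
      · rw [orient_cyc, orient_cyc]; exact pa1
      · intro y hy hyx
        simp only [Finset.coe_insert, Finset.coe_singleton, Set.mem_insert_iff,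
          Set.mem_singleton_iff] at hy
        rcases hy with rfl | rfl | rfl | rfl | rfl
        · exact absurd rfl hyx
        · simp
        · rw [orient_cyc, orient_cyc]; exact pb1.le
        · simp
        · rw [orient_swap]; linarith
    · refine extreme_of_side (p := r) (q := P) hmem ?_ ?_
      · rw [orient_cyc, orient_cyc]; exact pa2
      · intro y hy hyx
        simp only [Finset.coe_insert, Finset.coe_singleton, Set.mem_insert_iff,
          Set.mem_singleton_iff] at hy
        rcases hy with rfl | rfl | rfl | rfl | rfl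
        · exact absurd rfl hyx
        · simp
        · rw [orient_cyc, orient_cyc]; exact pb2.le
        · rw [orient_cyc, orient_cyc]; exact h.le
        · simp
  · -- P
    refine extreme_of_side (p := aL) (q := aR) hmem ?_ ?_
    · rw [orient_cyc]; exact pa3
    · intro y hy hyx
      simp only [Finset.coe_insert, Finset.coe_singleton, Set.mem_insert_iff,
        Set.mem_singleton_iff] at hy
      rcases hy with rfl | rfl | rfl | rfl | rfl
      · simp
      · exact absurd rfl hyx
      · simp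
      · exact (hab _ K.mcL c3 c7 c8 c2 c4).le
      · exact (hab _ hr r3 r4 r5 r1 r2).le
  · -- aR
    rcases lt_or_gt_of_ne hPr with h | h
    · refine extreme_of_side (p := P) (q := r) hmem ?_ ?_
      · rw [orient_swap']; linarith
      · intro y hy hyx
        simp only [Finset.coe_insert, Finset.coe_singleton, Set.mem_insert_iff,
          Set.mem_singleton_iff] at hy
        rcases hy with rfl | rfl | rfl | rfl | rfl
        · rw [orient_swap']; linarith
        · simp
        · exact absurd rfl hyx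
        · rw [orient_swap']; linarith
        · simp
    · refine extreme_of_side (p := P) (q := cL) hmem ?_ ?_
      · rw [orient_swap']; linarith
      · intro y hy hyx
        simp only [Finset.coe_insert, Finset.coe_singleton, Set.mem_insert_iff,
          Set.mem_singleton_iff] at hy
        rcases hy with rfl | rfl | rfl | rfl | rfl
        · rw [orient_swap']; linarith
        · simp
        · exact absurd rfl hyx
        · simp
        · exact h.le
  · -- cL
    refine extreme_of_side (p := r) (q := L) hmem ?_ ?_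
    · rw [orient_swap]; linarith
    · intro y hy hyx
      simp only [Finset.coe_insert, Finset.coe_singleton, Set.mem_insert_iff,
        Set.mem_singleton_iff] at hy
      rcases hy with rfl | rfl | rfl | rfl | rfl
      · rw [orient_cyc, orient_cyc]; exact la2.le
      · rw [orient_cyc, orient_cyc]; exact la3.le
      · rw [orient_cyc, orient_cyc]; exact la1.le
      · exact absurd rfl hyx
      · simp
  · -- r
    refine extreme_of_side (p := R) (q := cL) hmem hrR ?_
    intro y hy hyx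
    simp only [Finset.coe_insert, Finset.coe_singleton, Set.mem_insert_iff,
      Set.mem_singleton_iff] at hy
    rcases hy with rfl | rfl | rfl | rfl | rfl
    · rw [orient_swap']; linarith
    · rw [orient_swap']; linarith
    · rw [orient_swap']; linarith
    · simp
    · exact absurd rfl hyx

/-- At a good corner there is a second point `r` such that the wedge is a pentagon. -/
lemma Corner.second {X : Finset Pt} {L2 L P R R2 aLL aL aR aRR cL cR : Pt}
    (K : Corner X L2 L P R R2 aLL aL aR aRR cL cR) (hc : cL ≠ cR) :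
    ∃ r ∈ X, r ≠ L ∧ r ≠ R ∧ r ≠ P ∧ r ≠ aL ∧ r ≠ aR ∧ r ≠ cL ∧ 0 < orient L r cL ∧
      orient R cL r < 0 ∧
      (∀ z ∈ X, (orient L cL z ≤ 0 ∧ 0 ≤ orient R r z ∧ z ≠ L ∧ z ≠ R) ↔
        z = aL ∨ z = P ∨ z = aR ∨ z = cL ∨ z = r) ∧
      (∀ z ∈ X, orient R cR z < 0 → orient R r z < 0) := by
  classical
  obtain ⟨c1, c2, c3, c4, c5⟩ := K.cLp
  obtain ⟨c6, c7, c8, c9⟩ := K.cLa
  obtain ⟨d1, d2, d3, d4, d5⟩ := K.cRp
  obtain ⟨e1, e2, e3, e4⟩ := K.cRa
  obtain ⟨g1, g2, g3, g4, g5, g6, g7⟩ := K.naL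
  have fL : 0 < orient L R cL := K.far K.mcL c2 c3 c4 c7 c8
  have fR : 0 < orient L R cR := K.far K.mcR d2 d3 d4 e2 e3
  have sa : orient L R aL < 0 := (K.s1 aL K.maL).2 (by simp)
  have n1 : ∀ z ∈ X, z ≠ P → z ≠ R → orient R P z < 0 := fun z hz a b => by
    rw [orient_swap]; have := K.hR z hz a b; linarith
  set S := X.filter (fun z => z ≠ L ∧ z ≠ R ∧ z ≠ P ∧ z ≠ aL ∧ z ≠ aR ∧ z ≠ cL ∧
    orient L cL z ≤ 0 ∧ 0 ≤ orient R cR z) with hS
  have hcRS : cR ∈ S := by
    obtain ⟨h1, h2⟩ := K.inside cR (by simp)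
    exact Finset.mem_filter.2 ⟨K.mcR, d2, d4, d3, e2, e3, hc.symm, h1, h2⟩
  obtain ⟨r, hrS, hrmin⟩ := exists_first (o := R) (e := P) (S := S) ⟨cR, hcRS⟩ (by
    intro z hz
    obtain ⟨h1, h2, h3, h4, -⟩ := Finset.mem_filter.1 hz
    exact n1 z h1 h4 h3)
  obtain ⟨hr, r1, r2, r3, r4, r5, r6, r7, r8⟩ := Finset.mem_filter.1 hrS
  have fr : 0 < orient L R r := K.far hr r1 r3 r2 r4 r5
  have r9 : 0 < orient L r cL := by
    have := lt_of_le_of_ne r7 (orient_ne K.gp K.mL K.mcL hr c2.symm r6.symm r1.symm)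
    rw [orient_swap']; linarith
  have r10 : orient R cL r < 0 := by
    have h1 := orient_ne K.gp K.mR K.mcL hr c4.symm r6.symm r2.symm
    rcases lt_or_gt_of_ne h1 with h | h
    · exact h
    · exfalso
      refine K.minL hr r1 r2 r3 r4 r5 r6 r9 ?_
      rw [orient_swap']; linarith
  -- the other elements of `S` come later
  have later : ∀ w ∈ S, w ≠ r → orient R r w < 0 := by
    intro w hw hwr
    obtain ⟨hwX, w1, w2, -⟩ := Finset.mem_filter.1 hw
    have h1 := orient_ne K.gp K.mR hwX hr w2.symm hwr r2.symm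
    have h2 := hrmin w hw
    rcases lt_or_gt_of_ne h1 with h | h
    · exact absurd h h2
    · rw [orient_swap']; linarith
  -- everything not after `r` is not after `cR`
  have notafter : ∀ z ∈ X, orient R cR z < 0 → orient R r z < 0 := by
    intro z hz h
    by_cases hrc : r = cR
    · rw [hrc]; exact h
    · have h1 := later cR hcRS (Ne.symm hrc)
      have z2 : z ≠ R := by rintro rfl; simp at h
      have z3 : z ≠ P := by
        rintro rfl
        rw [orient_cyc] at h
        have := K.hR cR K.mcR d3 d4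
        linarith
      exact ang_trans' (e := P) (n1 r hr r3 r2).le (n1 cR K.mcR d3 d4) (n1 z hz z3 z2) h1 h
  refine ⟨r, hr, r1, r2, r3, r4, r5, r6, r9, r10, ?_, notafter⟩
  intro z hz
  constructor
  · rintro ⟨h1, h2, h3, h4⟩
    by_contra hcon
    push Not at hcon
    obtain ⟨k1, k2, k3, k4, k5⟩ := hcon
    have h5 : 0 ≤ orient R cR z := by
      by_contra h6
      push Not at h6
      have := notafter z hz h6
      linarith
    have h6 : z ∈ S := Finset.mem_filter.2 ⟨hz, h3, h4, k2, k1, k3, k4, h1, h5⟩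
    have := later z h6 k5
    linarith
  · rintro (rfl | rfl | rfl | rfl | rfl)
    · refine ⟨(K.inside z (by simp)).1, ?_, g1, g3⟩
      have : orient R z r < 0 := by
        refine ang_trans' (e := P) (y := L) (n1 z K.maL g2 g3).le (n1 L K.mL K.dLP K.dLR)
          (n1 r hr r3 r2) ?_ ?_
        · rw [orient_cyc]; exact sa
        · rw [orient_swap]; linarith
      rw [orient_swap']; linarith
    · refine ⟨(K.inside z (by simp)).1, ?_, K.dLP.symm, K.dPR⟩
      rw [orient_cyc]; exact (K.hR r hr r3 r2).le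
    · refine ⟨(K.inside z (by simp)).1, ?_, g4, g6⟩
      have := K.aR2 r hr r3 r2 r5
      rw [orient_swap']; linarith
    · refine ⟨by simp, ?_, c2, c4⟩
      rw [orient_swap']; linarith
    · exact ⟨r7, by simp, r1, r2⟩

end Avg

open Avg

lemma RingS.ne_shift {h : ℕ} (hh : 5 ≤ h) (i : ZMod h) {k : ℕ} (hk : 0 < k) (hk' : k < 5) :
    i ≠ i + (k : ZMod h) := by
  intro h1
  have h2 : ((k : ℕ) : ZMod h) = 0 := by
    have : i + 0 = i + (k : ZMod h) := by rw [add_zero]; exact h1
    exact (add_left_cancel this).symm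
  rw [ZMod.natCast_eq_zero_iff] at h2
  have := Nat.le_of_dvd hk h2
  omega

lemma RingS.corner {X : Finset Pt} {h : ℕ} {p a c : ZMod h → Pt} (W : RingS X h p a c)
    (i : ZMod h) :
    Corner X (p (i - 2)) (p (i - 1)) (p i) (p (i + 1)) (p (i + 2)) (a (i - 2)) (a (i - 1)) (a i)
      (a (i + 1)) (c (i - 1)) (c i) := by
  have e1 : i - 1 + 1 = i := by ring
  have e2 : i - 2 + 1 = i - 1 := by ring
  have e3 : i - 1 - 1 = i - 2 := by ring
  have e4 : i - 1 + 2 = i + 1 := by ring
  have e5 : i + 1 + 1 = i + 2 := by ring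
  have hne : ∀ (j : ZMod h) (k : ℕ), 0 < k → k < 5 → p j ≠ p (j + (k : ZMod h)) :=
    fun j k h1 h2 h3 => RingS.ne_shift W.hh j h1 h2 (W.pinj h3)
  have s1 := fun z hz => W.s1 i z hz
  have sL := fun z hz => W.s2 (i - 1) z hz
  have sR := fun z hz => W.s2 i z hz
  rw [e1, e3, e4] at sL
  have hL := W.hull (i - 1)
  rw [e1] at hL
  have aL1 := W.a1 (i - 1)
  have aL2 := W.a2 (i - 1)
  rw [e1] at aL1 aL2
  have aLL2 := W.a2 (i - 2)
  rw [e2] at aLL2
  have aRR1 := W.a1 (i + 1)
  rw [e5] at aRR1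
  refine
    { gp := W.gp, mL2 := W.pX _, mL := W.pX _, mP := W.pX _, mR := W.pX _, mR2 := W.pX _,
      maL := W.aX _, maR := W.aX _, mcL := W.cX _, mcR := W.cX _,
      dL2L := ?_, dL2P := ?_, dPR2 := ?_, dL2R := ?_, dLP := ?_, dPR := ?_, dLR := ?_, dLR2 := ?_,
      dRR2 := ?_,
      hL := hL, hR := W.hull i, aL1 := aL1, aL2 := aL2, aR1 := W.a1 i, aR2 := W.a2 i,
      aLL2 := aLL2, aRR1 := aRR1, s1 := s1, sL := sL, sR := sR,
      cLp := ⟨W.cp _ _, W.cp _ _, W.cp _ _, W.cp _ _, W.cp _ _⟩,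
      cRp := ⟨W.cp _ _, W.cp _ _, W.cp _ _, W.cp _ _, W.cp _ _⟩,
      cLa := ⟨W.ca _ _, W.ca _ _, W.ca _ _, W.ca _ _⟩,
      cRa := ⟨W.ca _ _, W.ca _ _, W.ca _ _, W.ca _ _⟩ }
  · have := hne (i - 2) 1 (by omega) (by omega)
    rwa [Nat.cast_one, e2] at this
  · have := hne (i - 2) 2 (by omega) (by omega)
    rwa [show i - 2 + ((2 : ℕ) : ZMod h) = i by push_cast; ring] at this
  · have := hne i 2 (by omega) (by omega)
    rwa [show i + ((2 : ℕ) : ZMod h) = i + 2 by push_cast; ring] at this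
  · have := hne (i - 2) 3 (by omega) (by omega)
    rwa [show i - 2 + ((3 : ℕ) : ZMod h) = i + 1 by push_cast; ring] at this
  · have := hne (i - 1) 1 (by omega) (by omega)
    rwa [Nat.cast_one, e1] at this
  · have := hne i 1 (by omega) (by omega)
    rwa [Nat.cast_one] at this
  · have := hne (i - 1) 2 (by omega) (by omega)
    rwa [show i - 1 + ((2 : ℕ) : ZMod h) = i + 1 by push_cast; ring] at this
  · have := hne (i - 1) 3 (by omega) (by omega)
    rwa [show i - 1 + ((3 : ℕ) : ZMod h) = i + 2 by push_cast; ring] at this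
  · have := hne (i + 1) 1 (by omega) (by omega)
    rwa [Nat.cast_one, e5] at this

open scoped Classical in
/-- The averaging lemma: some good corner has at least three points in the opposite sector. -/
theorem RingS.avg {X : Finset Pt} {h : ℕ} {p a c : ZMod h → Pt} (W : RingS X h p a c) :
    ∃ i : ZMod h, c (i - 1) ≠ c i ∧
      3 ≤ (X.filter (fun z => 0 < orient (p (i - 1)) (c (i - 1)) z ∧
        orient (p (i + 1)) (c i) z < 0)).card := by
  by_contra hcon
  push Not at hcon
  haveI : NeZero h := ⟨by have := W.hh; omega⟩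
  let u : ZMod h → ℕ := fun i => (X.filter (fun z => 0 < orient (p (i - 1)) (c (i - 1)) z)).card
  let v : ZMod h → ℕ := fun i => (X.filter (fun z => orient (p (i + 1)) (c i) z < 0)).card
  let m : ZMod h → ℕ := fun i => (X.filter (fun z => 0 < orient (p i) (c i) z ∧
    orient (p (i + 1)) (c i) z < 0)).card
  let b : ZMod h → ℕ := fun i => if c (i - 1) = c i then 1 else 0
  have hedge : ∀ i, X.card + m i ≤ u (i + 1) + v i + 4 := by
    intro i
    have h1 := (W.corner i).card_edge
    have h2 : i + 1 - 1 = i := by ring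
    simp only [u, v, m, h2]
    exact h1
  have hcor : ∀ i, u i + v i + 5 + b i ≤ X.card + b i * (m (i - 1) + m i) := by
    intro i
    by_cases hb : c (i - 1) = c i
    · have h1 := (W.corner i).card_bad hb
      have h2 : i - 1 + 1 = i := by ring
      simp only [u, v, m, b, h2, if_pos hb, one_mul]
      omega
    · have h1 := (W.corner i).card_good hb
      have h2 := hcon i hb
      simp only [u, v, b, if_neg hb, zero_mul]
      omega
  have hbb : ∀ i, b (i + 1) + b i ≤ 1 := by
    intro i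
    have h1 := W.s3 i
    have h2 : i + 1 - 1 = i := by ring
    simp only [b, h2]
    by_cases k1 : c (i - 1) = c i
    · by_cases k2 : c i = c (i + 1)
      · exact absurd ⟨k1, k2⟩ h1
      · simp [k2]
        split_ifs <;> omega
    · simp only [if_neg k1]
      split_ifs <;> omega
  have hsum : ∀ f : ZMod h → ℕ, ∑ i, f (i + 1) = ∑ i, f i := fun f =>
    Fintype.sum_equiv (Equiv.addRight (1 : ZMod h)) _ _ (fun _ => rfl)
  have S1 : ∑ i, (X.card + m i) ≤ ∑ i, (u (i + 1) + v i + 4) :=
    Finset.sum_le_sum (fun i _ => hedge i)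
  have S2 : ∑ i, (u i + v i + 5 + b i) ≤ ∑ i, (X.card + b i * (m (i - 1) + m i)) :=
    Finset.sum_le_sum (fun i _ => hcor i)
  have S3 : ∑ i, b i * (m (i - 1) + m i) ≤ ∑ i, m i := by
    have h1 : ∑ i, b i * (m (i - 1) + m i) = ∑ i, b (i + 1) * m i + ∑ i, b i * m i := by
      have h2 : ∑ i, b i * m (i - 1) = ∑ i, b (i + 1) * m i := by
        rw [← hsum (fun i => b i * m (i - 1))]
        refine Finset.sum_congr rfl (fun i _ => ?_)
        rw [show i + 1 - 1 = i by ring]
      rw [← h2, ← Finset.sum_add_distrib]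
      exact Finset.sum_congr rfl (fun i _ => by ring)
    rw [h1, ← Finset.sum_add_distrib]
    refine Finset.sum_le_sum (fun i _ => ?_)
    calc b (i + 1) * m i + b i * m i = (b (i + 1) + b i) * m i := by ring
      _ ≤ 1 * m i := Nat.mul_le_mul_right _ (hbb i)
      _ = m i := one_mul _
  have hcard : (Finset.univ : Finset (ZMod h)).card = h := by
    rw [Finset.card_univ, ZMod.card]
  simp only [Finset.sum_add_distrib, Finset.sum_const, hcard, smul_eq_mul] at S1 S2
  rw [hsum u] at S1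
  have := W.hh
  have h0 : 0 ≤ ∑ i, b i := Nat.zero_le _
  omega

open scoped Classical in
/-- The final form: a wedge cut convex pentagon with at least three points in the opposite
sector. The line `p (i-1), l` has `l` in the pentagon and `p (i-1)` outside, the line
`p (i+1), r` has `r` in the pentagon and `p (i+1)` outside. -/
theorem RingS.pentagon {X : Finset Pt} {h : ℕ} {p a c : ZMod h → Pt} (W : RingS X h p a c) :
    ∃ (i : ZMod h) (l r : Pt), l ∈ X ∧ r ∈ X ∧ l ≠ r ∧ l ≠ p (i - 1) ∧ l ≠ p (i + 1) ∧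
      r ≠ p (i - 1) ∧ r ≠ p (i + 1) ∧ p (i - 1) ≠ p (i + 1) ∧
      orient (p (i - 1)) l r < 0 ∧ orient (p (i - 1)) l (p (i + 1)) < 0 ∧
      0 < orient (p (i + 1)) r l ∧ 0 < orient (p (i + 1)) r (p (i - 1)) ∧
      (∀ z ∈ X, (orient (p (i - 1)) l z ≤ 0 ∧ 0 ≤ orient (p (i + 1)) r z ∧ z ≠ p (i - 1) ∧
        z ≠ p (i + 1)) ↔ z = a (i - 1) ∨ z = p i ∨ z = a i ∨ z = l ∨ z = r) ∧
      ({a (i - 1), p i, a i, l, r} : Finset Pt).card = 5 ∧
      IsConvexPolygon ({a (i - 1), p i, a i, l, r} : Finset Pt) ∧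
      3 ≤ (X.filter (fun z => 0 < orient (p (i - 1)) l z ∧
        orient (p (i + 1)) r z < 0)).card := by
  obtain ⟨i, hi, h3⟩ := W.avg
  have K := W.corner i
  obtain ⟨r, hr, r1, r2, r3, r4, r5, r6, r7, r8, r9, r10⟩ := K.second hi
  obtain ⟨c1, c2, c3, c4, c5⟩ := K.cLp
  obtain ⟨c6, c7, c8, c9⟩ := K.cLa
  obtain ⟨g1, g2, g3, g4, g5, g6, g7⟩ := K.naL
  have fL : 0 < orient (p (i - 1)) (p (i + 1)) (c (i - 1)) := K.far K.mcL c2 c3 c4 c7 c8
  have fr : 0 < orient (p (i - 1)) (p (i + 1)) r := K.far hr r1 r3 r2 r4 r5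
  refine ⟨i, c (i - 1), r, W.cX _, hr, r6.symm, c2, c4, r1, r2, K.dLR, ?_, ?_, ?_, ?_, r9, ?_,
    K.pentagon hr r1 r2 r3 r4 r5 r6 r7 r8, h3.trans (Finset.card_le_card ?_)⟩
  · rw [orient_swap']; linarith
  · rw [orient_swap']; linarith
  · rw [orient_swap']; linarith
  · rw [orient_cyc]; exact fr
  · rw [Finset.card_insert_of_notMem, Finset.card_insert_of_notMem, Finset.card_insert_of_notMem,
      Finset.card_insert_of_notMem, Finset.card_singleton]
    · simpa using r6.symm
    · simp [c8.symm, r5.symm]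
    · simp [c3.symm, r3.symm, g5.symm]
    · simp [g2, g7, c7.symm, r4.symm]
  · intro z hz
    obtain ⟨k1, k2, k3⟩ := Finset.mem_filter.1 hz
    exact Finset.mem_filter.2 ⟨k1, k2, r10 z k1 k3⟩

end Pool.Agent.GCP
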