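import Pool.Agent.GCP.Wedge
import Pool.Agent.GCP.Avg

/-!
# The induction step: from the ring structure to a partition

`RingS.cut`: the wedge cut pentagon of `RingS.pentagon` in terms of two affine functionals which
do not vanish on `X`. `RingS.step`: `X` with `4 q + 3` points has a partition with `q + 1` parts
if its proper subsets with `4 s + 3` points have partitions with `s + 1` parts.
-/

namespace Pool.Agent.GCP

lemma Aff.coords {f : Pt → ℝ} (hf : Aff f) :
    ∃ α β γ : ℝ, ∀ z : Pt, f z = α * z.1 + β * z.2 + γ := by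
  refine ⟨f (1, 0) - f 0, f (0, 1) - f 0, f 0, ?_⟩
  have hs : ∀ (s : ℝ) (x : Pt), f (s • x) = s * f x + (1 - s) * f 0 := by
    intro s x
    have := hf x 0 s (1 - s) (by ring)
    rw [smul_zero, add_zero] at this
    exact this
  have ha : ∀ x y : Pt, f (x + y) = f x + f y - f 0 := by
    intro x y
    have h1 := hf ((2 : ℝ) • x) ((2 : ℝ) • y) (1 / 2) (1 / 2) (by norm_num)
    rw [smul_smul, smul_smul] at h1
    norm_num at h1
    have h2 := hs 2 x
    have h3 := hs 2 y
    rw [h1, h2, h3]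
    ring
  intro z
  have hz : z = z.1 • ((1 : ℝ), (0 : ℝ)) + z.2 • ((0 : ℝ), (1 : ℝ)) := by
    ext <;> simp
  have h4 : f z = f (z.1 • ((1 : ℝ), (0 : ℝ)) + z.2 • ((0 : ℝ), (1 : ℝ))) :=
    congrArg f hz
  rw [h4, ha, hs, hs]
  ring

/-- Two functionals with all four sign patterns separate points. -/
lemma Aff.inj_of_signs {f g : Pt → ℝ} (hf : Aff f) (hg : Aff g) {p1 p2 p3 p4 : Pt}
    (f1 : f p1 < 0) (g1 : 0 < g p1) (f2 : 0 < f p2) (g2 : g p2 < 0) (f3 : 0 < f p3)
    (g3 : 0 < g p3) (f4 : f p4 < 0) (g4 : g p4 < 0) {x y : Pt} (h1 : f x = f y)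
    (h2 : g x = g y) : x = y := by
  obtain ⟨a, b, c, hf'⟩ := hf.coords
  obtain ⟨a', b', c', hg'⟩ := hg.coords
  by_contra hne
  -- the gradients are both orthogonal to `y - x`
  set u := y.1 - x.1 with hu
  set v := y.2 - x.2 with hv
  have huv : u ≠ 0 ∨ v ≠ 0 := by
    by_contra hcon
    push Not at hcon
    apply hne
    ext
    · linarith [hcon.1]
    · linarith [hcon.2]
  have e1 : a * u + b * v = 0 := by
    rw [hf', hf'] at h1
    rw [hu, hv]; linarith
  have e2 : a' * u + b' * v = 0 := by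
    rw [hg', hg'] at h2
    rw [hu, hv]; linarith
  -- `f = α s + c`, `g = β s + c'` with `s z = - v z.1 + u z.2`
  have hN : 0 < u ^ 2 + v ^ 2 := by
    rcases huv with h | h
    · have := sq_pos_of_ne_zero h; have := sq_nonneg v; linarith
    · have := sq_pos_of_ne_zero h; have := sq_nonneg u; linarith
  obtain ⟨α, ha1, ha2⟩ : ∃ α : ℝ, a = α * (-v) ∧ b = α * u := by
    refine ⟨(b * u - a * v) / (u ^ 2 + v ^ 2), ?_, ?_⟩
    · field_simp
      linear_combination u * e1
    · field_simp
      linear_combination v * e1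
  obtain ⟨β, hb1, hb2⟩ : ∃ β : ℝ, a' = β * (-v) ∧ b' = β * u := by
    refine ⟨(b' * u - a' * v) / (u ^ 2 + v ^ 2), ?_, ?_⟩
    · field_simp
      linear_combination u * e2
    · field_simp
      linear_combination v * e2
  let s : Pt → ℝ := fun z => -v * z.1 + u * z.2
  have hfs : ∀ z, f z = α * s z + c := by
    intro z; rw [hf', ha1, ha2]; simp only [s]; ring
  have hgs : ∀ z, g z = β * s z + c' := by
    intro z; rw [hg', hb1, hb2]; simp only [s]; ring
  rw [hfs] at f1 f2 f3 f4
  rw [hgs] at g1 g2 g3 g4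
  rcases lt_trichotomy α 0 with hα | hα | hα
  · rcases lt_trichotomy β 0 with hβ | hβ | hβ
    · have := mul_pos_of_neg_of_neg hβ f1
      have := mul_neg_of_neg_of_pos hα g1
      have := mul_neg_of_neg_of_pos hβ f2
      have := mul_pos_of_neg_of_neg hα g2
      linarith
    · rw [hβ] at g1 g2; linarith
    · have := mul_pos hβ f3
      have := mul_neg_of_neg_of_pos hα g3
      have := mul_neg_of_pos_of_neg hβ f4
      have := mul_pos_of_neg_of_neg hα g4
      linarith
  · rw [hα] at f1 f2; linarith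
  · rcases lt_trichotomy β 0 with hβ | hβ | hβ
    · have := mul_neg_of_neg_of_pos hβ f3
      have := mul_pos hα g3
      have := mul_pos_of_neg_of_neg hβ f4
      have := mul_neg_of_pos_of_neg hα g4
      linarith
    · rw [hβ] at g1 g2; linarith
    · have := mul_neg_of_pos_of_neg hβ f1
      have := mul_pos hα g1
      have := mul_pos hβ f2
      have := mul_neg_of_pos_of_neg hα g2
      linarith

/-- The line through `a` and `b`, slightly turned. -/
lemma tilt {X : Finset Pt} (hX : GeneralPosition X) {a b : Pt} (ha : a ∈ X) (hb : b ∈ X)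
    (hab : a ≠ b) {e : ℝ} (he : e ≠ 0) :
    ∃ f : Pt → ℝ, Aff f ∧ f a < 0 ∧ 0 < f b ∧
      ∀ z ∈ X, z ≠ a → z ≠ b → 0 < f z * (e * orient a b z) := by
  classical
  let u : Pt → ℝ := fun z => (b.1 - a.1) * (z.1 - (a.1 + b.1) / 2) +
    (b.2 - a.2) * (z.2 - (a.2 + b.2) / 2)
  have hu : Aff u := by
    intro x y s t h
    have ht : t = 1 - s := by linarith
    subst ht
    simp only [u, Prod.fst_add, Prod.snd_add, Prod.smul_fst, Prod.smul_snd, smul_eq_mul]
    ring
  have hN : 0 < (b.1 - a.1) ^ 2 + (b.2 - a.2) ^ 2 := by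
    by_contra hcon
    apply hab
    have h1 : (b.1 - a.1) ^ 2 = 0 := by nlinarith [sq_nonneg (b.1 - a.1), sq_nonneg (b.2 - a.2)]
    have h2 : (b.2 - a.2) ^ 2 = 0 := by nlinarith [sq_nonneg (b.1 - a.1), sq_nonneg (b.2 - a.2)]
    ext
    · have := pow_eq_zero_iff (two_ne_zero) |>.1 h1; linarith
    · have := pow_eq_zero_iff (two_ne_zero) |>.1 h2; linarith
  have key : ∀ S : Finset Pt, (∀ z ∈ S, e * orient a b z ≠ 0) →
      ∃ ε : ℝ, 0 < ε ∧ ∀ z ∈ S, ε * |u z| < |e * orient a b z| := by
    intro S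
    induction S using Finset.induction_on with
    | empty => intro _; exact ⟨1, one_pos, by simp⟩
    | insert w S _ ih =>
      intro hS
      obtain ⟨ε, h1, h2⟩ := ih (fun x hx => hS x (Finset.mem_insert_of_mem hx))
      have hw : 0 < |e * orient a b w| := abs_pos.2 (hS w (Finset.mem_insert_self w S))
      have hw2 : 0 < |u w| + 1 := by positivity
      refine ⟨min ε (|e * orient a b w| / (|u w| + 1)), lt_min h1 (div_pos hw hw2), ?_⟩
      intro z hz
      rcases Finset.mem_insert.1 hz with rfl | hz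
      · calc min ε (|e * orient a b z| / (|u z| + 1)) * |u z|
            ≤ (|e * orient a b z| / (|u z| + 1)) * |u z| :=
              mul_le_mul_of_nonneg_right (min_le_right _ _) (abs_nonneg _)
          _ < (|e * orient a b z| / (|u z| + 1)) * (|u z| + 1) :=
              mul_lt_mul_of_pos_left (by linarith) (div_pos hw hw2)
          _ = |e * orient a b z| := by field_simp
      · exact lt_of_le_of_lt (mul_le_mul_of_nonneg_right (min_le_left _ _) (abs_nonneg _))
          (h2 z hz)
  obtain ⟨ε, hε, hε'⟩ := key ((X.erase a).erase b) (by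
    intro z hz
    rw [Finset.mem_erase, Finset.mem_erase] at hz
    exact mul_ne_zero he (orient_ne hX ha hb hz.2.2 hab (Ne.symm hz.1) (Ne.symm hz.2.1)))
  refine ⟨fun z => e * orient a b z + ε * u z + 0, (aff_orient a b).comb hu e ε 0, ?_, ?_, ?_⟩
  · have h1 : u a = -((b.1 - a.1) ^ 2 + (b.2 - a.2) ^ 2) / 2 := by simp only [u]; ring
    simp only [orient_left, mul_zero, zero_add, add_zero]
    rw [h1]
    have := mul_pos hε hN
    nlinarith
  · have h1 : u b = ((b.1 - a.1) ^ 2 + (b.2 - a.2) ^ 2) / 2 := by simp only [u]; ring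
    simp only [orient_right, mul_zero, zero_add, add_zero]
    rw [h1]
    have := mul_pos hε hN
    nlinarith
  · intro z hz hza hzb
    have h1 := hε' z (Finset.mem_erase.2 ⟨hzb, Finset.mem_erase.2 ⟨hza, hz⟩⟩)
    simp only [add_zero]
    set w := e * orient a b z with hw
    have h2 : 0 < |w| := lt_of_le_of_lt (mul_nonneg hε.le (abs_nonneg _)) h1
    have h3 : (w + ε * u z) * w = w ^ 2 + (ε * u z) * w := by ring
    rw [h3]
    have h4 : |(ε * u z) * w| < w ^ 2 := by
      rw [abs_mul, abs_mul, abs_of_pos hε, ← sq_abs w, pow_two]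
      exact mul_lt_mul_of_pos_right h1 h2
    have h5 := neg_abs_le ((ε * u z) * w)
    linarith

/-- A wedge given by two lines through points of `X`, as two functionals. -/
lemma cut_of_lines {X C : Finset Pt} (hX : GeneralPosition X) {L R l r : Pt} (hL : L ∈ X)
    (hR : R ∈ X) (hl : l ∈ X) (hr : r ∈ X) (hLl : l ≠ L) (hRr : r ≠ R) (hlR : l ≠ R)
    (hrL : r ≠ L) (hLR : L ≠ R) (h1 : orient L l R < 0) (h2 : 0 < orient R r L)
    (h3 : l = r ∨ 0 < orient R r l) (hCX : C ⊆ X)
    (hC : ∀ z ∈ X, (orient L l z ≤ 0 ∧ 0 ≤ orient R r z ∧ z ≠ L ∧ z ≠ R) ↔ z ∈ C)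
    (hQ : ∃ z ∈ X, 0 < orient L l z ∧ orient R r z < 0) :
    ∃ f g : Pt → ℝ, Aff f ∧ Aff g ∧ (∀ z ∈ X, f z ≠ 0) ∧ (∀ z ∈ X, g z ≠ 0) ∧
      (∀ x ∈ X, ∀ y ∈ X, f x = f y → g x = g y → x = y) ∧
      X.filter (fun z => 0 < f z ∧ 0 < g z) = C ∧
      (∀ z ∈ X, f z < 0 ↔ (z = L ∨ 0 < orient L l z)) ∧
      (∀ z ∈ X, g z < 0 ↔ (z = R ∨ orient R r z < 0)) := by
  classical
  obtain ⟨f, hf, fL, fl, hf'⟩ := tilt hX hL hl hLl.symm (e := -1) (by norm_num)
  obtain ⟨g, hg, gR, gr, hg'⟩ := tilt hX hR hr hRr.symm (e := 1) (by norm_num)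
  have fs : ∀ z ∈ X, f z < 0 ↔ (z = L ∨ 0 < orient L l z) := by
    intro z hz
    by_cases h4 : z = L
    · subst h4; simp [fL]
    · by_cases h5 : z = l
      · subst h5
        simp only [h4, orient_right, lt_irrefl, or_self, iff_false, not_lt]
        exact fl.le
      · have h6 := hf' z hz h4 h5
        simp only [h4, false_or]
        constructor
        · intro h7
          by_contra h8
          push Not at h8
          have := mul_nonneg_of_nonpos_of_nonpos h7.le h8
          linarith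
        · intro h7
          by_contra h8
          push Not at h8
          have := mul_nonneg h8 h7.le
          linarith
  have gs : ∀ z ∈ X, g z < 0 ↔ (z = R ∨ orient R r z < 0) := by
    intro z hz
    by_cases h4 : z = R
    · subst h4; simp [gR]
    · by_cases h5 : z = r
      · subst h5
        simp only [h4, orient_right, lt_irrefl, or_self, iff_false, not_lt]
        exact gr.le
      · have h6 := hg' z hz h4 h5
        simp only [h4, false_or]
        constructor
        · intro h7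
          by_contra h8
          push Not at h8
          have := mul_nonneg (neg_nonneg.2 h7.le) h8
          linarith
        · intro h7
          by_contra h8
          push Not at h8
          have := mul_nonneg h8 (neg_nonneg.2 h7.le)
          linarith
  have f0 : ∀ z ∈ X, f z ≠ 0 := by
    intro z hz h
    by_cases h4 : z = L
    · rw [h4] at h; linarith
    · by_cases h5 : z = l
      · rw [h5] at h; linarith
      · have := hf' z hz h4 h5
        rw [h, zero_mul] at this
        exact lt_irrefl _ this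
  have g0 : ∀ z ∈ X, g z ≠ 0 := by
    intro z hz h
    by_cases h4 : z = R
    · rw [h4] at h; linarith
    · by_cases h5 : z = r
      · rw [h5] at h; linarith
      · have := hg' z hz h4 h5
        rw [h, zero_mul] at this
        exact lt_irrefl _ this
  have pos_of : ∀ {t : ℝ}, t ≠ 0 → ¬ t < 0 → 0 < t := fun h h' =>
    lt_of_le_of_ne (not_lt.1 h') (Ne.symm h)
  -- signs of the four points
  have gL : 0 < g L := pos_of (g0 L hL) (by
    rw [gs L hL]
    rintro (h | h)
    · exact hLR h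
    · linarith)
  have fR : 0 < f R := pos_of (f0 R hR) (by
    rw [fs R hR]
    rintro (h | h)
    · exact hLR h.symm
    · linarith)
  have gl : 0 < g l := pos_of (g0 l hl) (by
    rw [gs l hl]
    rintro (h | h)
    · exact hlR h
    · rcases h3 with h3 | h3
      · rw [h3, orient_right] at h; exact lt_irrefl _ h
      · linarith)
  obtain ⟨w, hw, hw1, hw2⟩ := hQ
  refine ⟨f, g, hf, hg, f0, g0, ?_, ?_, fs, gs⟩
  · intro x _ y _ hx hy
    exact hf.inj_of_signs hg fL gL fR gR fl gl ((fs w hw).2 (Or.inr hw1))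
      ((gs w hw).2 (Or.inr hw2)) hx hy
  · ext z
    rw [Finset.mem_filter]
    constructor
    · rintro ⟨hz, h4, h5⟩
      rw [← hC z hz]
      have h6 : ¬ (z = L ∨ 0 < orient L l z) := fun h => by
        have := (fs z hz).2 h; linarith
      have h7 : ¬ (z = R ∨ orient R r z < 0) := fun h => by
        have := (gs z hz).2 h; linarith
      push Not at h6 h7
      exact ⟨h6.2, h7.2, h6.1, h7.1⟩
    · intro h
      have hz := hCX h
      obtain ⟨h4, h5, h6, h7⟩ := (hC z hz).2 h
      refine ⟨hz, pos_of (f0 z hz) ?_, pos_of (g0 z hz) ?_⟩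
      · rw [fs z hz]
        rintro (h8 | h8)
        · exact h6 h8
        · linarith
      · rw [gs z hz]
        rintro (h8 | h8)
        · exact h7 h8
        · linarith

/-- The wedge cut pentagon. -/
theorem RingS.cut {X : Finset Pt} {h : ℕ} {p a c : ZMod h → Pt} (W : RingS X h p a c) :
    ∃ f g : Pt → ℝ, Aff f ∧ Aff g ∧ (∀ z ∈ X, f z ≠ 0) ∧ (∀ z ∈ X, g z ≠ 0) ∧
      (∀ x ∈ X, ∀ y ∈ X, f x = f y → g x = g y → x = y) ∧
      (X.filter (fun z => 0 < f z ∧ 0 < g z)).card = 5 ∧
      IsConvexPolygon (X.filter (fun z => 0 < f z ∧ 0 < g z)) ∧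
      3 ≤ (X.filter (fun z => f z < 0 ∧ g z < 0)).card := by
  classical
  obtain ⟨i, l, r, hl, hr, k1, k2, k3, k4, k5, k6, k7, k8, k9, k10, k11, k12, k13, k14⟩ :=
    W.pentagon
  have hsub : ({a (i - 1), p i, a i, l, r} : Finset Pt) ⊆ X := by
    intro z hz
    simp only [Finset.mem_insert, Finset.mem_singleton] at hz
    rcases hz with rfl | rfl | rfl | rfl | rfl
    · exact W.aX _
    · exact W.pX _
    · exact W.aX _
    · exact hl
    · exact hr
  have hQ : ∃ z ∈ X, 0 < orient (p (i - 1)) l z ∧ orient (p (i + 1)) r z < 0 := by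
    have h1 : 0 < (X.filter (fun z => 0 < orient (p (i - 1)) l z ∧
        orient (p (i + 1)) r z < 0)).card := by omega
    obtain ⟨z, hz⟩ := Finset.card_pos.1 h1
    obtain ⟨h2, h3⟩ := Finset.mem_filter.1 hz
    exact ⟨z, h2, h3⟩
  obtain ⟨f, g, hf, hg, f0, g0, hinj, hC, fs, gs⟩ := cut_of_lines W.gp (W.pX (i - 1))
    (W.pX (i + 1)) hl hr k2 k5 k3 k4 k6 k8 k10 (Or.inr k9) hsub (by
      intro z hz
      rw [k11 z hz]
      simp only [Finset.mem_insert, Finset.mem_singleton]) hQ
  refine ⟨f, g, hf, hg, f0, g0, hinj, ?_, ?_, ?_⟩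
  · rw [hC]; exact k12
  · rw [hC]; exact k13
  · refine k14.trans (Finset.card_le_card ?_)
    intro z hz
    obtain ⟨h1, h2, h3⟩ := Finset.mem_filter.1 hz
    exact Finset.mem_filter.2 ⟨h1, (fs z h1).2 (Or.inr h2), (gs z h1).2 (Or.inr h3)⟩

/-- A wedge cut convex pentagon with at least three points in the opposite sector. -/
structure WCut (X : Finset Pt) (f g : Pt → ℝ) : Prop where
  hf : Aff f
  hg : Aff g
  f0 : ∀ z ∈ X, f z ≠ 0
  g0 : ∀ z ∈ X, g z ≠ 0
  inj : ∀ x ∈ X, ∀ y ∈ X, f x = f y → g x = g y → x = y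
  card : (X.filter (fun z => 0 < f z ∧ 0 < g z)).card = 5
  conv : IsConvexPolygon (X.filter (fun z => 0 < f z ∧ 0 < g z))

/-- A partition from a wedge cut pentagon, `4 s + 3` and `4 t + 3` being the sizes of the two
parts of the rest. -/
theorem WCut.hcp {X : Finset Pt} {f g : Pt → ℝ} (W : WCut X f g) {s t : ℕ}
    (h1 : (X.filter (fun z => f z < 0 ∧ 0 < g z)).card ≤ 4 * s + 3)
    (h2 : 4 * s + 3 ≤ (X.filter (fun z => f z < 0)).card)
    (hst : 4 * s + 3 + (4 * t + 3) + 5 = X.card)
    (hs : ∀ Y : Finset Pt, Y ⊆ X → Y.card = 4 * s + 3 → HCPle (Y : Set Pt) (s + 1))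
    (ht : ∀ Y : Finset Pt, Y ⊆ X → Y.card = 4 * t + 3 → HCPle (Y : Set Pt) (t + 1)) :
    HCPle (X : Set Pt) (s + t + 3) := by
  have h := wedge_hcp W.hf W.hg W.f0 W.g0 W.inj h1 h2 (i := s + 1) (j := t + 1)
    (Finset.card_pos.1 (by rw [W.card]; norm_num)) W.conv
    (fun Y hY hc => (hs Y hY hc).exact (by omega))
    (fun Y hY hc => (ht Y hY (by rw [W.card] at hc; omega)).exact (by
      rw [W.card] at hc; omega))
  exact ⟨1 + (s + 1) + (t + 1), by omega, h⟩

/-- The induction step. -/
theorem RingS.step {X : Finset Pt} {h : ℕ} {p a c : ZMod h → Pt} (W : RingS X h p a c) {q : ℕ}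
    (hq : X.card = 4 * q + 3)
    (H : ∀ (Y : Finset Pt) (s : ℕ), Y ⊆ X → Y.card = 4 * s + 3 → Y.card < X.card →
      HCPle (Y : Set Pt) (s + 1)) : HCPle (X : Set Pt) (q + 1) := by
  classical
  obtain ⟨f, g, hf, hg, f0, g0, hinj, hc, hconv, h3⟩ := W.cut
  have hW : WCut X f g := ⟨hf, hg, f0, g0, hinj, hc, hconv⟩
  have hA : (X.filter (fun z => f z < 0)).card =
      (X.filter (fun z => f z < 0 ∧ 0 < g z)).card +
        (X.filter (fun z => f z < 0 ∧ g z < 0)).card := by
    rw [← Finset.card_union_of_disjoint]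
    · congr 1
      ext z
      simp only [Finset.mem_filter, Finset.mem_union]
      constructor
      · rintro ⟨a1, a2⟩
        rcases lt_or_gt_of_ne (g0 z a1) with h | h
        · exact Or.inr ⟨a1, a2, h⟩
        · exact Or.inl ⟨a1, a2, h⟩
      · rintro (⟨a1, a2, -⟩ | ⟨a1, a2, -⟩) <;> exact ⟨a1, a2⟩
    · rw [Finset.disjoint_left]
      intro z hz hz'
      rw [Finset.mem_filter] at hz hz'
      linarith [hz.2.2, hz'.2.2]
  have hle : (X.filter (fun z => f z < 0)).card + 5 ≤ X.card := by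
    rw [← hc, ← Finset.card_union_of_disjoint]
    · exact Finset.card_le_card (Finset.union_subset (Finset.filter_subset _ _)
        (Finset.filter_subset _ _))
    · rw [Finset.disjoint_left]
      intro z hz hz'
      linarith [(Finset.mem_filter.1 hz).2, (Finset.mem_filter.1 hz').2.1]
  obtain ⟨s, hs1, hs2⟩ : ∃ s, (X.filter (fun z => f z < 0 ∧ 0 < g z)).card ≤ 4 * s + 3 ∧
      4 * s + 3 ≤ (X.filter (fun z => f z < 0)).card := by
    refine ⟨((X.filter (fun z => f z < 0)).card - 3) / 4, ?_, ?_⟩ <;> omega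
  obtain ⟨t, ht⟩ : ∃ t, 4 * s + 3 + (4 * t + 3) + 5 = X.card := ⟨q - s - 2, by omega⟩
  have h5 := hW.hcp hs1 hs2 ht (fun Y hY hc => H Y s hY hc (by omega))
    (fun Y hY hc => H Y t hY hc (by omega))
  have h6 : s + t + 3 = q + 1 := by omega
  rwa [h6] at h5

end Pool.Agent.GCP
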