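import Pool.Agent.GCP.G7
import Pool.Agent.GCP.Lower
import Pool.Agent.GCP.LowAll
import Pool.Agent.GCP.Step

/-!
# The frame of the induction (MP_062f91_co)

`Bd n` is the bound `G n ≤ ⌊n / 4⌋ + 1`.  It holds for all `n ≠ 11` as soon as it holds for `n = 15`
and the induction step for `n = 4 q + 3`, `4 ≤ q`, is available.
-/

namespace Pool.Agent.GCP

/-- The bound for sets of `n` points. -/
def Bd (n : ℕ) : Prop :=
  ∀ X : Finset Pt, X.card = n → GeneralPosition X → HCPle (X : Set Pt) (n / 4 + 1)

lemma hcp_three {X : Finset Pt} (hc : X.card ≤ 3) (h0 : 0 < X.card) (hX : GeneralPosition X) :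
    HCPle (X : Set Pt) 1 := by
  have hcases : X.card = 1 ∨ X.card = 2 ∨ X.card = 3 := by omega
  rcases hcases with h | h | h
  · exact small_of_tree facts0 (by omega) h hX 1 (.leaf [0]) (by decide +kernel)
  · exact small_of_tree facts0 (by omega) h hX 1 (.leaf [0, 1]) (by decide +kernel)
  · exact small_of_tree facts0 (by omega) h hX 1 (.leaf [0, 1, 2]) (by decide +kernel)

/-- At most four parts for at most fourteen points. -/
lemma hcp_fourteen {X : Finset Pt} (hc : X.card ≤ 14) (hX : GeneralPosition X) :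
    HCPle (X : Set Pt) 4 := by
  by_cases h : X.card ≤ 7
  · exact (G7.facts.f2 X h hX).mono (by omega)
  · obtain ⟨A, B, h1, h2, h3, h4, h5, h6⟩ := cut_off rfl hX (show 0 < 7 by omega)
      (by omega : 7 < X.card)
    rw [h3]
    exact (G7.facts.f2 A (by omega) (hX.subset h1)).append
      (G7.facts.f2 B (by omega) (hX.subset h2)) h6

lemma Bd.three : Bd 3 := fun X hX hG => hcp_three (by omega) (by omega) hG

lemma Bd.seven : Bd 7 := fun X hX hG => G7.facts.f2 X (by omega) hG

/-- The other residues. -/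
lemma Bd.next {q r : ℕ} (hr : r < 3) (h : Bd (4 * q + 3)) : Bd (4 * (q + 1) + r) := by
  intro X hX hG
  obtain ⟨A, B, h1, h2, h3, h4, h5, h6⟩ := cut_off hX hG (show 0 < r + 1 by omega)
    (by omega : r + 1 < 4 * (q + 1) + r)
  rw [h3]
  have h7 := h B (by omega) (hG.subset h2)
  refine ((hcp_three (by omega) (by omega) (hG.subset h1)).append h7 h6).mono ?_
  omega

/-- The induction. -/
theorem bd_all (h15 : Bd 15)
    (H : ∀ q, 4 ≤ q → (∀ s, s < q → s ≠ 2 → Bd (4 * s + 3)) → Bd (4 * q + 3)) :
    ∀ n, 1 ≤ n → n ≠ 11 → Bd n := by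
  have h0 : ∀ q, q ≠ 2 → Bd (4 * q + 3) := by
    intro q
    induction q using Nat.strong_induction_on with
    | _ q ih =>
      intro hq
      by_cases h4 : 4 ≤ q
      · exact H q h4 ih
      · have : q = 0 ∨ q = 1 ∨ q = 3 := by omega
        rcases this with rfl | rfl | rfl
        · exact Bd.three
        · exact Bd.seven
        · exact h15
  intro n hn hn11
  by_cases h3 : n % 4 = 3
  · have h1 : n = 4 * (n / 4) + 3 := by omega
    rw [h1]
    exact h0 (n / 4) (by omega)
  · by_cases h4 : n < 4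
    · intro X hX hG
      have h5 : n / 4 + 1 = 1 := by omega
      rw [h5]
      exact hcp_three (by omega) (by omega) hG
    · by_cases h12 : 12 ≤ n ∧ n ≤ 14
      · intro X hX hG
        exact (hcp_fourteen (by omega) hG).mono (by omega)
      · have h1 : n = 4 * (n / 4 - 1 + 1) + n % 4 := by omega
        rw [h1]
        exact Bd.next (by omega) (h0 (n / 4 - 1) (by omega))

lemma Bd.le {n : ℕ} (hn : 1 ≤ n) (h : Bd n) : G n ≤ n / 4 + 1 := by
  refine Nat.sInf_le ?_
  intro X hX hG
  exact ((h X hX hG).exact (by omega)).toPartition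

/-- The values of `G`. -/
theorem G_values (h15 : Bd 15)
    (H : ∀ q, 4 ≤ q → (∀ s, s < q → s ≠ 2 → Bd (4 * s + 3)) → Bd (4 * q + 3)) :
    (∀ n, 3 ≤ n → n ≠ 11 → G n = n / 4 + 1) ∧ G 11 = 4 := by
  refine ⟨fun n hn hn11 => le_antisymm ((bd_all h15 H n (by omega) hn11).le (by omega))
    (LowAll.low_all (by omega)), le_antisymm ?_ ?_⟩
  · refine Nat.sInf_le ?_
    intro X hX hG
    exact ((hcp_fourteen (by omega) hG).exact (by omega)).toPartition
  · by_contra hcon
    have hne : {g | ∀ X : Finset Pt, X.card = 11 → GeneralPosition X →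
        HasConvexPartition X g}.Nonempty :=
      ⟨4, fun X hX hG => ((hcp_fourteen (by omega) hG).exact (by omega)).toPartition⟩
    have h1 := Nat.sInf_mem hne
    exact Low.lower (G 11) (by omega) (h1 Low.X11 Low.card_X11 Low.generalPosition_X11)

/-- A perfect cut. -/
lemma perfect_cut {X A B : Finset Pt} {q k : ℕ} (hX : X.card = 4 * q + 3)
    (hG : GeneralPosition X) (hAB : (X : Set Pt) = (A : Set Pt) ∪ (B : Set Pt))
    (hA : A.card = 4 * k) (hk : k ≤ q) (hAk : HCPle (A : Set Pt) k)
    (hd : Disjoint (convexHull ℝ (A : Set Pt)) (convexHull ℝ (B : Set Pt)))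
    (hB : Bd (4 * (q - k) + 3)) : HCPle (X : Set Pt) (q + 1) := by
  classical
  have h1 : X = A ∪ B := by
    apply Finset.coe_injective
    rw [hAB, Finset.coe_union]
  have h2 : Disjoint A B := by
    rw [Finset.disjoint_left]
    intro x hx hx'
    exact Set.disjoint_left.1 hd (subset_convexHull ℝ _ hx) (subset_convexHull ℝ _ hx')
  have h3 : X.card = A.card + B.card := by rw [h1, Finset.card_union_of_disjoint h2]
  have h4 : B ⊆ X := by rw [h1]; exact Finset.subset_union_right
  have h5 := hB B (by omega) (hG.subset h4)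
  rw [hAB]
  refine (hAk.append h5 hd).mono ?_
  omega

end Pool.Agent.GCP
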