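import Pool.Agent.GCP.Corner3

/-!
# At most ten points between `p i` and `p (i + 4)` (MP_062f91_co)
-/

namespace Pool.Agent.GCP

namespace Geo

variable {X : Finset Pt} {h : ℕ} {p a c : ZMod h → Pt} {i : ZMod h} {N M : ℕ → Pt}
  {o q1 q2 : Pt} {R L T : Finset Pt}

theorem no_RV (W : RingS0 X h p a c) (hh : 7 ≤ h) {K : ℕ} (hI : Irr X K t414 [])
    (hN : Nam X p a c i N) (hM : NamR X p a c i M) (h11 : 11 ≤ nr X (p i) (p (i + 4)))
    (gen : ∀ x ∈ X, ∀ y ∈ X, x ≠ y → orient x y o ≠ 0)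
    (ho : 0 < orient (p i) o (p (i + 4)))
    (nR : ∀ z ∈ X, orient (p i) o z < 0 ↔ z ≠ p i ∧ nr X (p i) z < 11)
    (nL : ∀ z ∈ X, orient o (p (i + 4)) z < 0 ↔
      z ≠ p (i + 4) ∧ nr X z (p (i + 4)) < 11)
    (hR : ∀ z, z ∈ R ↔ z ∈ X ∧ orient (p i) o z < 0)
    (hL : ∀ z, z ∈ L ↔ z ∈ X ∧ orient o (p (i + 4)) z < 0)
    (TL : TopLine X (p i) (p (i + 4)) o q1 q2 R T 11 9)
    (TV : TopRV X (p i) (p (i + 4)) o q1 q2 R L T)
    (hin : ∀ m, 0 < orient (p m) (p (m + 1)) o ∧ 0 < orient (p m) (p (m + 1)) q1 ∧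
        0 < orient (p m) (p (m + 1)) q2) : False := by
  have hp := upatch_RV W hh hN hM h11 gen ho nR nL hR hL TL TV hin
  rw [← UC0.RV.d_eq] at hp
  exact UC0.RV.fin hp hI

/-- The data of a rich corner. -/
theorem corner_all (W : RingS0 X h p a c) (hh : 7 ≤ h) {K : ℕ} (hI : Irr X K t414 [])
    (i : ZMod h) (h11 : 11 ≤ nr X (p i) (p (i + 4))) :
    ∃ (N M : ℕ → Pt) (o q1 q2 : Pt) (R L T : Finset Pt), Nam X p a c i N ∧ NamR X p a c i M ∧
      (∀ x ∈ X, ∀ y ∈ X, x ≠ y → orient x y o ≠ 0) ∧ 0 < orient (p i) o (p (i + 4)) ∧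
      (∀ z ∈ X, orient (p i) o z < 0 ↔ z ≠ p i ∧ nr X (p i) z < 11) ∧
      (∀ z ∈ X, orient o (p (i + 4)) z < 0 ↔ z ≠ p (i + 4) ∧ nr X z (p (i + 4)) < 11) ∧
      (∀ z, z ∈ R ↔ z ∈ X ∧ orient (p i) o z < 0) ∧
      (∀ z, z ∈ L ↔ z ∈ X ∧ orient o (p (i + 4)) z < 0) ∧
      TopLine X (p i) (p (i + 4)) o q1 q2 R T 11 9 ∧
      (∀ m, 0 < orient (p m) (p (m + 1)) o ∧ 0 < orient (p m) (p (m + 1)) q1 ∧
        0 < orient (p m) (p (m + 1)) q2) ∧
      (TopNR X (p i) (p (i + 4)) o q1 q2 T ∨ TopRV X (p i) (p (i + 4)) o q1 q2 R L T) := by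
  classical
  have i4 : i + ((4 : ℕ) : ZMod h) = i + 4 := by norm_num
  obtain ⟨N, o, hN, gen, ho, nR, nL, cR, cL⟩ := corner_names W hh hI i (by rw [i4]; exact h11)
  rw [i4] at ho nL cL
  obtain ⟨M, hM⟩ := corner_namesR W hh hI i h11
  set R := X.filter (fun z => orient (p i) o z < 0) with hRd
  set L := X.filter (fun z => orient o (p (i + 4)) z < 0) with hLd
  have hR : ∀ z, z ∈ R ↔ z ∈ X ∧ orient (p i) o z < 0 := fun z => Finset.mem_filter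
  have hL : ∀ z, z ∈ L ↔ z ∈ X ∧ orient o (p (i + 4)) z < 0 := fun z => Finset.mem_filter
  have hL' := hN.L
  rw [i4] at hL'
  -- the intersection
  have hsub : R ∩ L ⊆ ({1, 3, 4, 5, 6, 7, 8} : Finset ℕ).image N := by
    intro z hz
    obtain ⟨z1, z2⟩ := Finset.mem_inter.1 hz
    obtain ⟨zX, z1⟩ := (hR z).1 z1
    have z2 := ((hL z).1 z2).2
    obtain ⟨m, m1, m2, m3⟩ := (hN.R z zX).1 ((nR z zX).1 z1)
    have k := ((nL z zX).1 z2).2
    rw [← m3] at k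
    have k2 := (hL' m m1 m2).1 k
    rw [Finset.mem_image]
    refine ⟨m, ?_, m3⟩
    simp only [List.mem_cons, List.not_mem_nil, or_false, not_or] at k2
    simp only [Finset.mem_insert, Finset.mem_singleton]
    omega
  have hcard : (R ∩ L).card ≤ 7 :=
    (Finset.card_le_card hsub).trans (Finset.card_image_le.trans (by simp))
  have hpos : 0 < (R ∩ L).card := by
    rw [Finset.card_pos]
    have m1X := hN.mem 1 (by omega)
    have k1 := (hN.R (N 1) m1X).2 ⟨1, by omega, by omega, rfl⟩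
    refine ⟨N 1, Finset.mem_inter.2 ⟨(hR _).2 ⟨m1X, (nR _ m1X).2 k1⟩,
      (hL _).2 ⟨m1X, (nL _ m1X).2 ⟨?_, (hL' 1 (by omega) (by omega)).2 (by simp)⟩⟩⟩⟩
    rw [hN.N1]
    have := pne_gen W i (j := 1) (k := 4) (by omega) (by omega)
    rwa [Nat.cast_one, i4] at this
  obtain ⟨q1, q2, T, TL, hin, TT⟩ := three_line W (fun e => corner_ne W hh i (congrArg p e)) gen ho
    hR hL (n := 11) (k := 9) cR cL (by norm_num) (by omega) hpos
  exact ⟨N, M, o, q1, q2, R, L, T, hN, hM, gen, ho, nR, nL, hR, hL, TL, hin, TT⟩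

end Geo

end Pool.Agent.GCP
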