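import Pool.Agent.GCP.CornerNR
import Pool.Agent.GCP.NrTen
import Pool.Agent.GCP.UC1
import Pool.Agent.GCP.UC2
import Pool.Agent.GCP.UC3

/-!
# At most ten points beyond `p i, p (i + 4)` (MP_062f91_co)
-/

namespace Pool.Agent.GCP

namespace Geo

variable {X : Finset Pt} {h : ℕ} {p a c : ZMod h → Pt} {i : ZMod h} {N M : ℕ → Pt}
  {o q1 q2 : Pt} {R L T : Finset Pt}

theorem no_NR (W : RingS0 X h p a c) (hh : 7 ≤ h) {K : ℕ} (hI : Irr X K t414 [])
    (hN : Nam X p a c i N) (hM : NamR X p a c i M) (h11 : 11 ≤ nr X (p i) (p (i + 4)))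
    (gen : ∀ x ∈ X, ∀ y ∈ X, x ≠ y → orient x y o ≠ 0)
    (nR : ∀ z ∈ X, orient (p i) o z < 0 ↔ z ≠ p i ∧ nr X (p i) z < 11)
    (nL : ∀ z ∈ X, orient o (p (i + 4)) z < 0 ↔
      z ≠ p (i + 4) ∧ nr X z (p (i + 4)) < 11)
    (hR : ∀ z, z ∈ R ↔ z ∈ X ∧ orient (p i) o z < 0)
    (hL : ∀ z, z ∈ L ↔ z ∈ X ∧ orient o (p (i + 4)) z < 0)
    (TL : TopLine X (p i) (p (i + 4)) o q1 q2 R T 11 9)
    (TN : TopNR X (p i) (p (i + 4)) o q1 q2 T)
    (hin : ∀ m, 0 < orient (p m) (p (m + 1)) o ∧ 0 < orient (p m) (p (m + 1)) q1 ∧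
        0 < orient (p m) (p (m + 1)) q2) : False := by
  have Qinj : ∀ x y, x < 17 → y < 17 → x ≠ y → Qn N M x ≠ Qn N M y := fun x y hx hy hxy e =>
    hxy (Qn_inj hN hM h11 (by omega) (by omega) e)
  have QX : ∀ x, x < 17 → Qn N M x ∈ X := fun x hx => Qn_mem hN hM (by omega)
  have Q0 : Qn N M 0 = p i := by rw [Qn_lt (by omega), hN.N0]
  have Q1 : Qn N M 1 = p (i + 1) := by rw [Qn_lt (by omega), hN.N1]
  have Q7 : Qn N M 7 = p (i + 3) := by rw [Qn_lt (by omega), hN.N7]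
  have Q16 : Qn N M 16 = p (i + 4) := by rw [Qn_16, hM.M0]
  have QR : ∀ z, z ∈ R ↔ ∃ j ∈ UDt.Rl, Qn N M j = z := by
    intro z
    rw [hR z]
    constructor
    · rintro ⟨h1, h2⟩
      exact (Qn_R (M := M) hN h1).1 ((nR z h1).1 h2)
    · rintro ⟨j, hj, rfl⟩
      have hj' : j < 17 := by
        simp only [UDt.Rl, List.mem_cons, List.not_mem_nil, or_false] at hj
        omega
      exact ⟨QX j hj', (nR _ (QX j hj')).2 ((Qn_R (M := M) hN (QX j hj')).2 ⟨j, hj, rfl⟩)⟩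
  have QL : ∀ z, z ∈ L ↔ ∃ j ∈ UDt.Ll, Qn N M j = z := by
    intro z
    rw [hL z]
    constructor
    · rintro ⟨h1, h2⟩
      exact (Qn_L hN hM h1).1 ((nL z h1).1 h2)
    · rintro ⟨j, hj, rfl⟩
      have hj' : j < 17 := by
        simp only [UDt.Ll, List.mem_cons, List.not_mem_nil, or_false] at hj
        omega
      exact ⟨QX j hj', (nL _ (QX j hj')).2 ((Qn_L hN hM (QX j hj')).2 ⟨j, hj, rfl⟩)⟩
  obtain ⟨b, hb, P, hP⟩ := inst_NR W gen hR hL TL TN hin Qinj QX Q0 Q1 Q7 Q16 QR QL (by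
    intro b P PQ Pb Pv Pinj
    refine srows_ok (rl := UDt.rNR b) (n := 19 + b) W hh hN hM ?_
    exact
      { Q16 := fun j hj => PQ j (by omega)
        rl16 := fun j hj => mem_rNR.2 (by omega)
        rln := fun j hj => by
          have := mem_rNR.1 hj
          omega
        real := fun j hj => by
          rcases mem_rNR.1 hj with h1 | h1
          · rw [PQ j h1]; exact QX j h1
          · exact (Pb j h1.1 h1.2).1
        inj := Pinj
        near := fun j hj h0 h16 => by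
          rcases mem_rNR.1 hj with h1 | h1
          · rw [PQ j h1]
            exact Qn_near W hN hM hh h11 (by omega) (by omega)
          · exact (Pb j h1.1 h1.2).2.1
        hullv := fun j hj hjr m => by
          rw [mem_rNR] at hjr
          rcases (show j = 17 ∨ j = 18 by omega) with rfl | rfl
          · exact (Pv m).1
          · exact (Pv m).2 }) (frows_ok hN hM (fun j _ => rfl))
  rcases (show b = 0 ∨ b = 1 ∨ b = 2 ∨ b = 3 by omega) with rfl | rfl | rfl | rfl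
  · rw [← UC0.NR0.d_eq] at hP
    exact UC0.NR0.fin hP hI
  · rw [← UC1.NR1.d_eq] at hP
    exact UC1.NR1.fin hP hI
  · rw [← UC2.NR2.d_eq] at hP
    exact UC2.NR2.fin hP hI
  · rw [← UC3.NR3.d_eq] at hP
    exact UC3.NR3.fin hP hI

/-- There are at most ten points beyond the chord `p i, p (i + 4)`. -/
theorem nr_le_ten (W : RingS0 X h p a c) (hh : 7 ≤ h) {K : ℕ} (hI : Irr X K t414 [])
    (i : ZMod h) : nr X (p i) (p (i + 4)) ≤ 10 := by
  by_contra hcon
  obtain ⟨N, M, o, q1, q2, R, L, T, hN, hM, gen, ho, nR, nL, hR, hL, TL, hin, TT⟩ :=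
    corner_all W hh hI i (by omega)
  rcases TT with TN | TV
  · exact no_NR W hh hI hN hM (by omega) gen nR nL hR hL TL TN hin
  · exact no_RV W hh hI hN hM (by omega) gen ho nR nL hR hL TL TV hin

/-- There are at least seven hull vertices. -/
lemma h_seven (W : RingS0 X h p a c) (hX : 15 ≤ X.card) : 7 ≤ h := by
  by_contra hc
  have h5 := W.hh
  have e := nr_add W 0 (s := 0) (t := 3) (by omega) (by omega)
  rw [Nat.cast_zero, add_zero] at e
  have key : ∀ d : ℕ, h = 3 + d → nr X (p (0 + ((3 : ℕ) : ZMod h))) (p 0) =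
      nr X (p (0 + ((3 : ℕ) : ZMod h))) (p (0 + ((3 : ℕ) : ZMod h) + ((d : ℕ) : ZMod h))) := by
    intro d hd
    rw [← sh_add, ← hd, ZMod.natCast_self, add_zero]
  have e3 := z3 W 0
  have hcase : h = 3 + 2 ∨ h = 3 + 3 := by omega
  rcases hcase with h1 | h1
  · have := key 2 h1
    rw [z2 W] at this
    omega
  · have := key 3 h1
    rw [z3 W] at this
    omega

end Geo

end Pool.Agent.GCP
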