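import Pool.Agent.GCP.FastTh
import Pool.Agent.GCP.G7

/-!
# The end of a patch certificate
-/

namespace Pool.Agent.GCP

/-- The numbers of removed points. -/
def t414 : List ℕ := [4, 5, 6, 7, 8, 9, 10, 11, 12, 13, 14]

/-- The mask of the numbers of removed points. -/
def M414 : ℕ := nat_lit 32752

lemma t414_ok : ∀ i, M414.testBit i = true → i ∈ t414 := by
  intro i h
  by_cases hi : i < 15
  · have : ∀ i < 15, M414.testBit i = true → i ∈ t414 := by decide
    exact this i hi h
  · exfalso
    have e : M414.testBit i = false := by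
      apply Nat.testBit_lt_two_pow
      exact lt_of_lt_of_le (by decide : M414 < 2 ^ 15)
        (Nat.pow_le_pow_right (by norm_num) (by omega))
    rw [e] at h
    exact absurd h (by simp)

theorem fin_of {q : FD} {db : DB} {last n : ℕ} (h1 : q.ok = true)
    (h2 : tgtOK db n [last] [(0, 0)] = true) (h3 : Blk db (thq q M414) 0 0 0 n)
    {P : ℕ → Pt} {X : Finset Pt} {K : ℕ} (hp : Patch q.d P X) (hI : Irr X K t414 []) : False :=
  not_hold_empty _ (tgt_sound h2
    (h3 _ (Asg.zero _) (thq_sound (FD.ok_sound h1) hp G7.facts hI t414_ok)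
      (fun _ hk => absurd hk (Nat.not_lt_zero _))) (0, 0) (by simp))

end Pool.Agent.GCP
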