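import Pool.Agent.GCP.Hyp

/-!
# Existence of frames, small sets, base masks of case A
-/

namespace Pool.Agent.GCP

lemma orient_ne_gp {X : Finset Pt} (hX : GeneralPosition X) {P : ℕ → Pt} {n : ℕ}
    (hP : ∀ i, i < n → P i ∈ X) (hinj : ∀ i j, i < n → j < n → i ≠ j → P i ≠ P j) :
    ∀ i j k, i < n → j < n → k < n → i ≠ j → j ≠ k → i ≠ k →
      orient (P i) (P j) (P k) ≠ 0 := fun i j k hi hj hk h1 h2 h3 =>
  orient_ne hX (hP i hi) (hP j hj) (hP k hk) (hinj i j hi hj h1) (hinj j k hj hk h2)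
    (hinj i k hi hk h3)

lemma exists_frame {X : Finset Pt} {n : ℕ} (hn : 0 < n) (hc : X.card = n)
    (hX : GeneralPosition X) : ∃ P, Frame n P ∧ (X : Set Pt) = P '' {i | i < n} := by
  obtain ⟨N, rfl⟩ : ∃ N, n = N + 1 := ⟨n - 1, by omega⟩
  obtain ⟨P, h1, h2, h3, h4⟩ := exists_sorted hc hX
  refine ⟨P, ⟨h2, orient_ne_gp hX ?_ h2, fun i j a b c => h3 i j a b (by omega), ?_⟩, ?_⟩
  · intro i hi
    rw [h1]
    exact Finset.mem_image_of_mem P (Finset.mem_range.2 hi)
  · simpa using h4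
  · rw [h1]
    ext x
    simp

lemma facts0 : Facts 0 0 [] := by
  refine ⟨?_, ?_, ?_⟩
  · intro Y hY _
    have : Y = ∅ := Finset.card_eq_zero.1 (by omega)
    subst this
    exact ⟨0, by omega, [], rfl, by simp, by simp, by simp⟩
  · intro Y hY _
    have : Y = ∅ := Finset.card_eq_zero.1 (by omega)
    subst this
    exact ⟨0, by omega, [], rfl, by simp, by simp, by simp⟩
  · intro P _ _ c hc
    simp at hc

/-- A tree check without any literal. -/
lemma small_of_tree {g2 g3 : ℕ} {tg : List (List Q)} (hF : Facts g2 g3 tg) {X : Finset Pt}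
    {n : ℕ} (hn : 0 < n) (hc : X.card = n) (hX : GeneralPosition X) (K : ℕ) (t : Ct)
    (h : zfin n K g2 g3 tg t 0 0 = true) : HCPle (X : Set Pt) K := by
  obtain ⟨P, hf, he⟩ := exists_frame hn hc hX
  simp only [zfin, Bool.and_eq_true, Nat.ble_eq] at h
  obtain ⟨h1, h2, h3⟩ := h
  obtain ⟨a1, a2, a3⟩ := full_iff h1
  have := (ct_sound hF hf (Asg.zero _) t a2 a1 h3).mono h2
  have he' : {i | i ∈ t.pts} = {i | i < n} := by
    ext i
    exact a3 i
  rw [he', ← he] at this
  exact this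

lemma facts1 (h7 : ∀ X : Finset Pt, X.card = 7 → GeneralPosition X → HCPle (X : Set Pt) 2) :
    Facts 7 10 [] := by
  have f2 : ∀ Y : Finset Pt, Y.card ≤ 7 → GeneralPosition Y → HCPle (Y : Set Pt) 2 := by
    intro Y hY hG
    have hcases : Y.card = 0 ∨ Y.card = 1 ∨ Y.card = 2 ∨ Y.card = 3 ∨ Y.card = 4 ∨
        Y.card = 5 ∨ Y.card = 6 ∨ Y.card = 7 := by omega
    rcases hcases with h | h | h | h | h | h | h | h
    · exact (facts0.f2 Y (by omega) hG)
    · exact small_of_tree facts0 (by omega) h hG 2 (.leaf [0]) (by decide +kernel)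
    · exact small_of_tree facts0 (by omega) h hG 2 (.leaf [0, 1]) (by decide +kernel)
    · exact small_of_tree facts0 (by omega) h hG 2 (.leaf [0, 1, 2]) (by decide +kernel)
    · exact small_of_tree facts0 (by omega) h hG 2 (.edon 0 3 (.leaf [0, 1, 2]) (.leaf [3]))
        (by decide +kernel)
    · exact small_of_tree facts0 (by omega) h hG 2 (.edon 0 3 (.leaf [0, 1, 2]) (.leaf [3, 4]))
        (by decide +kernel)
    · exact small_of_tree facts0 (by omega) h hG 2
        (.edon 0 3 (.leaf [0, 1, 2]) (.leaf [3, 4, 5])) (by decide +kernel)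
    · exact h7 Y h hG
  have F2 : Facts 7 0 [] := ⟨f2, facts0.f3, facts0.fx⟩
  refine ⟨f2, ?_, facts0.fx⟩
  intro Y hY hG
  have hcases : Y.card ≤ 7 ∨ Y.card = 8 ∨ Y.card = 9 ∨ Y.card = 10 := by omega
  rcases hcases with h | h | h | h
  · exact (f2 Y h hG).mono (by omega)
  · exact small_of_tree F2 (by omega) h hG 3
      (.edon 0 3 (.leaf [0, 1, 2]) (.free 2 [3, 4, 5, 6, 7])) (by decide +kernel)
  · exact small_of_tree F2 (by omega) h hG 3
      (.edon 0 3 (.leaf [0, 1, 2]) (.free 2 [3, 4, 5, 6, 7, 8])) (by decide +kernel)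
  · exact small_of_tree F2 (by omega) h hG 3
      (.edon 0 3 (.leaf [0, 1, 2]) (.free 2 [3, 4, 5, 6, 7, 8, 9])) (by decide +kernel)

/-- From the empty clause. -/
lemma HCPle_of_empty {n K : ℕ} (hn : 0 < n) (h : Ent (HH n K E0) (0, 0)) {X : Finset Pt}
    (hc : X.card = n) (hX : GeneralPosition X) : HCPle (X : Set Pt) K := by
  obtain ⟨P, hf, he⟩ := exists_frame hn hc hX
  by_contra hK
  rw [he] at hK
  exact not_hold_empty _ (h _ ⟨P, hf, hK, trivial, rfl⟩)

/-- The masks of a clause given by literals. -/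
def cm : List Q → ℕ × ℕ
  | [] => (0, 0)
  | q :: c => match q.1 with
    | true => (Nat.lor (cm c).1 (Nat.pow 2 (idx q.2.1 q.2.2.1 q.2.2.2)), (cm c).2)
    | false => ((cm c).1, Nat.lor (cm c).2 (Nat.pow 2 (idx q.2.1 q.2.2.1 q.2.2.2)))

/-- Triples in order. -/
def tgOK (tg : List (List Q)) : Bool :=
  tg.all fun c => c.all fun q => Nat.ble 1 q.2.1 && (lt' q.2.1 q.2.2.1 && lt' q.2.2.1 q.2.2.2)

lemma testBit_lor {a b v : ℕ} (h : (Nat.lor a b).testBit v = true) :
    a.testBit v = true ∨ b.testBit v = true := by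
  have h' : (a ||| b).testBit v = true := h
  rwa [Nat.testBit_or, Bool.or_eq_true] at h'

lemma testBit_pow {w v : ℕ} (h : (Nat.pow 2 w).testBit v = true) : w = v := by
  have h' : (2 ^ w).testBit v = true := h
  rw [Nat.testBit_two_pow, decide_eq_true_eq] at h'
  exact h'

lemma cm_sound {P : ℕ → Pt} : ∀ {c : List Q},
    (∀ q ∈ c, 1 ≤ q.2.1 ∧ q.2.1 < q.2.2.1 ∧ q.2.2.1 < q.2.2.2) → Hold (val P) (cm c) →
      ∃ q ∈ c, QH P q
  | [], _, h => absurd h (not_hold_empty _)
  | q :: c, hc, h => by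
    have ih := fun h' => cm_sound (P := P) (c := c) (fun q hq => hc q (List.mem_cons_of_mem _ hq)) h'
    obtain ⟨h1, h2, h3⟩ := hc q List.mem_cons_self
    obtain ⟨s, i, j, k⟩ := q
    simp only at h1 h2 h3
    obtain ⟨v, hv⟩ := h
    cases s with
    | true =>
      simp only [cm] at hv
      rcases hv with ⟨hv, hs⟩ | ⟨hv, hs⟩
      · rcases testBit_lor hv with hv | hv
        · obtain ⟨q, hq, hq'⟩ := ih ⟨v, Or.inl ⟨hv, hs⟩⟩
          exact ⟨q, List.mem_cons_of_mem _ hq, hq'⟩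
        · have := testBit_pow hv
          subst this
          exact ⟨_, List.mem_cons_self, (val_idx h1 h2 h3).1 hs⟩
      · obtain ⟨q, hq, hq'⟩ := ih ⟨v, Or.inr ⟨hv, hs⟩⟩
        exact ⟨q, List.mem_cons_of_mem _ hq, hq'⟩
    | false =>
      simp only [cm] at hv
      rcases hv with ⟨hv, hs⟩ | ⟨hv, hs⟩
      · obtain ⟨q, hq, hq'⟩ := ih ⟨v, Or.inl ⟨hv, hs⟩⟩
        exact ⟨q, List.mem_cons_of_mem _ hq, hq'⟩
      · rcases testBit_lor hv with hv | hv
        · obtain ⟨q, hq, hq'⟩ := ih ⟨v, Or.inr ⟨hv, hs⟩⟩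
          exact ⟨q, List.mem_cons_of_mem _ hq, hq'⟩
        · have := testBit_pow hv
          subst this
          exact ⟨_, List.mem_cons_self, fun h => hs ((val_idx h1 h2 h3).2 h)⟩

lemma facts2 {g2 g3 : ℕ} (hF : Facts g2 g3 []) {tg : List (List Q)} (h1 : tgOK tg = true)
    (h2 : ELs (HH 11 3 E0) (tg.map cm)) : Facts g2 g3 tg := by
  refine ⟨hF.f2, hF.f3, ?_⟩
  intro P hf hK c hc
  have h3 := h2 (val P) ⟨P, hf, hK, trivial, rfl⟩ (cm c) (List.mem_map_of_mem hc)
  refine cm_sound ?_ h3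
  simp only [tgOK, List.all_eq_true, Bool.and_eq_true, Nat.ble_eq, lt'_iff] at h1
  exact fun q hq => h1 c hc q hq

/-- The masks of mapped unit clauses. -/
def mapU (bl : List ℕ) : List Q → ℕ × ℕ
  | [] => (0, 0)
  | q :: c => match q.1 with
    | true => (Nat.lor (mapU bl c).1
        (Nat.pow 2 (idx (bl.getD q.2.1 0) (bl.getD q.2.2.1 0) (bl.getD q.2.2.2 0))),
          (mapU bl c).2)
    | false => ((mapU bl c).1, Nat.lor (mapU bl c).2
        (Nat.pow 2 (idx (bl.getD q.2.1 0) (bl.getD q.2.2.1 0) (bl.getD q.2.2.2 0))))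

/-- The check of the base masks. -/
def baseOK (n : ℕ) (us : List Q) (l bl : List ℕ) (T0 F0 : ℕ) : Bool :=
  full n (l ++ bl) && (lt' 0 l.length && (Nat.beq bl.length 11 && (Nat.beq (bl.getD 0 1) 0 &&
    (srt bl && (us.all (fun q => Nat.ble 1 q.2.1 && (lt' q.2.1 q.2.2.1 &&
      (lt' q.2.2.1 q.2.2.2 && lt' q.2.2.2 11))) &&
    (Nat.beq (mapU bl us).1 T0 && Nat.beq (mapU bl us).2 F0))))))

theorem base_ent {n g2 g3 : ℕ} {us : List Q} {tg : List (List Q)}
    (hF : Facts g2 g3 (us.map (fun q => [q]) ++ tg)) {l bl : List ℕ} {T0 F0 : ℕ}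
    (h : baseOK n us l bl T0 F0 = true) : ∀ σ, HH n 4 (EA l bl) σ → Asg σ T0 F0 := by
  rintro σ ⟨P, hf, hK, hE, rfl⟩
  simp only [baseOK, Bool.and_eq_true, lt'_iff, Nat.beq_eq, List.all_eq_true, Nat.ble_eq] at h
  obtain ⟨h1, h2, h3, h4, h5, h6, h7, h8⟩ := h
  subst h7 h8
  obtain ⟨a1, a2, a3⟩ := full_iff h1
  have hne : l ≠ [] := by
    rintro rfl
    simp at h2
  have hl : ∀ i ∈ bl, i < n := fun i hi => a2 i (List.mem_append.2 (Or.inr hi))
  have hK3 := hE.not3 h1 hne hK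
  have hs := srt_pair h5
  have hfr := hf.sub h4 hs hl
  rw [h3] at hfr
  rw [← image_sub P bl, h3] at hK3
  have hq : ∀ q ∈ us, QH (fun i => P (bl.getD i 0)) q := by
    intro q hq
    obtain ⟨q', hq', h9⟩ := hF.fx _ hfr hK3 [q] (List.mem_append.2
      (Or.inl (List.mem_map_of_mem hq)))
    simp only [List.mem_singleton] at hq'
    subst hq'
    exact h9
  have h0 : bl.getD 0 0 = 0 := by
    rw [List.getD_eq_getElem _ _ (by omega)] at h4 ⊢
    exact h4
  clear hF
  induction us with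
  | nil => exact Asg.zero _
  | cons q us ih =>
    have ih' := ih (fun q' h' => h6 q' (List.mem_cons_of_mem _ h'))
      (fun q' h' => hq q' (List.mem_cons_of_mem _ h'))
    have hqq := hq q List.mem_cons_self
    obtain ⟨k1, k2, k3, k4⟩ := h6 q List.mem_cons_self
    obtain ⟨s, i, j, k⟩ := q
    simp only at k1 k2 k3 k4
    have m1 := getD_lt hs (show 0 < i by omega) (by omega)
    have m2 := getD_lt hs k2 (by omega)
    have m3 := getD_lt hs k3 (by omega)
    cases s with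
    | true =>
      simp only [mapU]
      refine ih'.orT ?_
      intro v hv
      have := testBit_pow hv
      subst this
      exact (val_idx (by omega) m2 m3).2 hqq
    | false =>
      simp only [mapU]
      refine ih'.orF ?_
      intro v hv
      have := testBit_pow hv
      subst this
      rw [val_idx (by omega) m2 m3]
      exact hqq

end Pool.Agent.GCP
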