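import Pool.Agent.GCP.Th
import Pool.Agent.GCP.Small

/-!
# Theory checks for case A
-/

namespace Pool.Agent.GCP

/-- Theory justifications of case A. -/
inductive ThA : Type
  | z (t : Ct) : ThA
  | m (t : ℕ) : ThA
  | c (a b c d : ℕ) : ThA
  | t (q a b c : ℕ) : ThA

/-- The theory check of case A. -/
def thA (n g2 g3 : ℕ) (tg : List (List Q)) (l bl : List ℕ) : ThA → ℕ → ℕ → Bool
  | .z t, T, F => zfin n 4 g2 g3 tg t T F
  | .m t, T, F => mfin n tg l bl t T F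
  | .c a b c d, T, F => cfin n l bl a b c d T F
  | .t q a b c, T, F => tfin n l bl q a b c T F

lemma fin_of_ent {H : (ℕ → Prop) → Prop} {fin : ℕ → ℕ → Bool}
    (h : ∀ c : ℕ × ℕ, rup0 fin [] 0 0 c = true → Ent H c) {σ : ℕ → Prop} (hσ : H σ) {T F : ℕ}
    (ha : Asg σ T F) (hf : fin T F = true) : False := by
  have h1 : rup0 fin [] 0 0 (F, T) = true := by
    rw [rup0_eq]
    change fin (Nat.lor T 0) (Nat.lor F 0) = true
    have e1 : Nat.lor T 0 = T := Nat.or_zero T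
    have e2 : Nat.lor F 0 = F := Nat.or_zero F
    rw [e1, e2]
    exact hf
  obtain ⟨v, ⟨h2, h3⟩ | ⟨h2, h3⟩⟩ := h _ h1 σ hσ
  · exact (ha v).2 h2 h3
  · exact h3 ((ha v).1 h2)

theorem thA_sound {n g2 g3 : ℕ} {tg : List (List Q)} (hF : Facts g2 g3 tg) {l bl : List ℕ}
    {σ : ℕ → Prop} (hσ : HH n 4 (EA l bl) σ) :
    ∀ (x : ThA) (T F : ℕ), Asg σ T F → thA n g2 g3 tg l bl x T F = true → False := by
  intro x T F ha h
  cases x with
  | z t => exact fin_of_ent (fun c hc => z_ent hF t ELs.nil hc) hσ ha h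
  | m t => exact fin_of_ent (fun c hc => m_ent hF t hc) hσ ha h
  | c a b c d => exact fin_of_ent (fun e he => c_ent a b c d he) hσ ha h
  | t q a b c => exact fin_of_ent (fun e he => t_ent q a b c he) hσ ha h

lemma get_left {m : ℕ} {l r : DB} {k : ℕ} (h : k < m) : (DB.N m l r).get k = l.get k := by
  have h1 : Nat.ble m k = false := by
    by_contra h2
    rw [Bool.not_eq_false, Nat.ble_eq] at h2
    exact absurd h2 (not_le.2 h)
  rw [DB.get, h1]
  rfl

theorem finA {l bl : List ℕ} {ax s : DB} {A B T0 F0 g2 g3 : ℕ} {tg : List (List Q)}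
    (hF : Facts g2 g3 tg)
    (hax : ∀ P, Frame 15 P → ¬ HCPle (P '' {i | i < 15}) 4 → ∀ k < A, Hold (val P) (ax.get k))
    (hb : ∀ σ, HH 15 4 (EA l bl) σ → Asg σ T0 F0)
    (hr : Blk (DB.N A ax s) (thA 15 g2 g3 tg l bl) T0 F0 A B)
    (hl : tgtOK (DB.N A ax s) B [Nat.sub B 1] [(0, 0)] = true) {P : ℕ → Pt} (hf : Frame 15 P)
    (hK : ¬ HCPle (P '' {i | i < 15}) 4) : ¬ EA l bl P := by
  intro hE
  have hσ : HH 15 4 (EA l bl) (val P) := ⟨P, hf, hK, hE, rfl⟩
  have h1 := hr (val P) (hb _ hσ) (thA_sound hF hσ) (fun k hk => by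
    rw [get_left hk]
    exact hax P hf hK k hk)
  exact not_hold_empty _ (tgt_sound hl h1 (0, 0) (by simp))

end Pool.Agent.GCP
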