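import Pool.Agent.GCP.X11All

set_option autoImplicit false
set_option maxRecDepth 100000

/-! # The classification of the eleven point sets without a 3-partition (generated) -/

namespace Pool.Agent.GCP.X11

open Pool.Agent.GCP ELs

/-- The unit clauses of the classification of the eleven point sets without a partition into three
parts. -/
def US : List Q := [(false, 1, 2, 3), (false, 1, 2, 4), (false, 1, 3, 4), (true, 2, 3, 4), (false, 1, 2, 5), (true, 1, 3, 5), (true, 2, 3, 5), (true, 1, 4, 5), (true, 2, 4, 5), (true, 3, 4, 5), (false, 1, 2, 6), (true, 1, 3, 6), (true, 2, 3, 6), (true, 1, 4, 6), (true, 2, 4, 6), (true, 3, 4, 6), (false, 1, 2, 7), (true, 1, 3, 7), (true, 2, 3, 7), (true, 1, 4, 7), (true, 2, 4, 7), (true, 3, 4, 7), (false, 4, 5, 7), (false, 4, 6, 7), (false, 1, 2, 8), (true, 1, 3, 8), (true, 2, 3, 8), (true, 1, 4, 8), (true, 2, 4, 8), (true, 3, 4, 8), (true, 2, 5, 8), (true, 2, 6, 8), (true, 1,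 7, 8), (true, 2, 7, 8), (true, 3, 7, 8), (true, 4, 7, 8), (true, 5, 7, 8), (true, 6, 7, 8), (false, 1, 2, 9), (true, 1, 3, 9), (true, 2, 3, 9), (true, 1, 4, 9), (true, 2, 4, 9), (true, 3, 4, 9), (true, 1, 5, 9), (true, 2, 5, 9), (true, 3, 5, 9), (true, 1, 6, 9), (true, 2, 6, 9), (true, 3, 6, 9), (true, 1, 7, 9), (true, 2, 7, 9), (true, 3, 7, 9), (true, 4, 7, 9), (true, 5, 7, 9), (true, 6, 7, 9), (true, 1, 8, 9), (true, 2, 8, 9), (true, 3, 8, 9), (true, 4, 8, 9), (true, 5, 8, 9), (true, 6, 8, 9), (true, 7, 8, 9), (false, 1, 2, 10), (true, 1, 3, 10), (true, 2, 3, 10), (true, 1, 4, 10), (true, 2, 4, 10), (true, 3, 4, 10), (true, 1, 5, 10), (true, 2, 5, 10), (true, 1, 6, 10), (true, 2, 6, 10), (true, 1, 7, 10), (true, 2, 7, 10), (true, 3, 7, 10), (true, 4, 7, 10), (true, 5, 7, 10), (true, 6, 7, 10), (true, 1, 8, 10), (true, 2, 8, 10), (true, 3, 8, 10), (true, 4, 8, 10), (true, 5, 8, 10), (true, 6, 8, 10), (false, 7,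 8, 10), (false, 1, 9, 10), (false, 2, 9, 10), (false, 3, 9, 10), (false, 4, 9, 10), (false, 5, 9, 10), (false, 6, 9, 10), (false, 7, 9, 10), (false, 8, 9, 10)]

/-- The binary clauses. -/
def BN : List (List Q) := [[(false, 1, 5, 6), (true, 2, 5, 6)], [(true, 1, 5, 6), (false, 2, 5, 6)], [(false, 1, 5, 6), (true, 3, 5, 6)], [(true, 1, 5, 6), (false, 3, 5, 6)], [(false, 1, 5, 6), (true, 4, 5, 6)], [(true, 1, 5, 6), (false, 4, 5, 6)], [(false, 1, 5, 6), (true, 1, 5, 7)], [(true, 1, 5, 6), (false, 1, 5, 7)], [(false, 1, 5, 6), (true, 2, 5, 7)], [(false, 1, 5, 6), (true, 3, 5, 7)], [(true, 1, 5, 6), (false, 3, 5, 7)], [(false, 1, 5, 6), (false, 1, 6, 7)], [(true, 1, 5, 6), (true, 1, 6, 7)], [(true, 1, 5, 6), (true, 2, 6, 7)], [(false, 1, 5, 6), (false, 3, 6, 7)], [(true, 1, 5, 6), (true, 3, 6, 7)], [(false, 1, 5, 6), (false, 5, 6, 7)], [(true, 1, 5, 6), (true, 5, 6, 7)], [(false, 1, 5, 6), (true, 1, 5, 8)], [(false,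 1, 5, 6), (true, 3, 5, 8)], [(true, 1, 5, 6), (false, 3, 5, 8)], [(false, 1, 5, 6), (true, 4, 5, 8)], [(true, 1, 5, 6), (false, 4, 5, 8)], [(true, 1, 5, 6), (true, 1, 6, 8)], [(false, 1, 5, 6), (false, 3, 6, 8)], [(true, 1, 5, 6), (true, 3, 6, 8)], [(false, 1, 5, 6), (false, 4, 6, 8)], [(true, 1, 5, 6), (true, 4, 6, 8)], [(false, 1, 5, 6), (false, 5, 6, 8)], [(true, 1, 5, 6), (true, 5, 6, 8)], [(false, 1, 5, 6), (true, 4, 5, 9)], [(true, 1, 5, 6), (true, 4, 6, 9)], [(false, 1, 5, 6), (false, 5, 6, 9)], [(true, 1, 5, 6), (true, 5, 6, 9)], [(false, 1, 5, 6), (true, 3, 5, 10)], [(false, 1, 5, 6), (true, 4, 5, 10)], [(true, 1, 5, 6), (false, 4, 5, 10)], [(true, 1, 5, 6), (true, 3, 6, 10)], [(false, 1, 5, 6), (false, 4, 6, 10)], [(true, 1, 5, 6), (true, 4, 6, 10)], [(false, 1, 5, 6), (false, 5, 6, 10)], [(true, 1, 5, 6), (true, 5, 6, 10)]]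

/-- All clauses. -/
def TG : List (List Q) := US.map (fun q => [q]) ++ BN

/-- The indices of the clauses in the database. -/
def ixs : List ℕ := [638, 762, 766, 768, 773, 949, 950, 951, 952, 953, 965, 1007, 1008, 1009, 1010, 1011, 1019, 1032, 1033, 1034, 1035, 1036, 1068, 1072, 1077, 1081, 1082, 1083, 1084, 1085, 1090, 1093, 1095, 1096, 1097, 1098, 1099, 1100, 1102, 1103, 1104, 1105, 1106, 1107, 1109, 1110, 1112, 1116, 1117, 1120, 1121, 1122, 1123, 1124, 1125, 1126, 1127, 1128, 1129, 1130, 1131, 1132, 1133, 1135, 1137, 1138, 1139, 1140, 1141, 1148, 1149, 1153, 1154, 1156, 1157, 1159, 1160, 1161, 1162, 1163, 1164, 1167, 1168, 1170, 1172, 1173, 1175, 1177, 1178, 1179, 1180, 1181, 1182, 1183, 1184, 1185, 1186, 1187, 1189, 1190, 1192, 1195, 1196, 1197, 1198, 1200, 1202, 1203, 1204, 1205, 1206, 1207, 1208, 1209, 1211, 1212, 1213, 1214, 1216, 1217, 1218, 1219, 1220, 1221, 1222, 1223, 1224, 1225, 1226, 1227, 1229, 1230,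 1232, 1233, 1234, 1235]

theorem tg_ok : tgtOK db 1236 ixs (TG.map cm) = true := by decide +kernel

theorem tg_all : ELs (HH 11 3 E0) (TG.map cm) := by
  rintro σ ⟨P, hf, hK, _, rfl⟩ c hc
  exact tgt_sound tg_ok (all _ (Asg.zero _)
    (thk_sound G7.facts hf hK false (fun h => absurd h (by simp)))
    (fun k hk => absurd hk (Nat.not_lt_zero k))) c hc

theorem facts : Facts 7 10 TG := facts2 G7.facts (by decide +kernel) tg_all

end Pool.Agent.GCP.X11
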