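import Pool.Agent.GCP.AXAll
import Pool.Agent.GCP.X11
import Pool.Agent.GCP.ThA

set_option autoImplicit false
set_option maxRecDepth 100000

/-! # Case A, CA2B3 (generated) -/

namespace Pool.Agent.GCP.CA

open Pool.Agent.GCP DB

def s216 : DB := (N 1587 (N 1584 (N 1582 (L (nat_lit 0x8000000000000000000000000000000000000000000000) (nat_lit 0x8000000000000)) (N 1583 (L (nat_lit 0x8000000000000) (nat_lit 0x8000000000000000000000000000000000000000000000)) (L (nat_lit 0) (nat_lit 0x200000000000000000000000000000000008000000000000)))) (N 1585 (L (nat_lit 0x200000000000000000000000000000000008000000000000) (nat_lit 0)) (N 1586 (L (nat_lit 0x400000000000000000000000000000000000000000000) (nat_lit 0)) (L (nat_lit 0x10000000000000000000000000000000000000000000000000) (nat_lit 0))))) (N 1590 (N 1588 (L (nat_lit 0x200000000000000000000000000000000000000000000000000000) (nat_lit 0)) (N 1589 (L (nat_lit 0x400000000) (nat_lit 0)) (L (nat_lit 9) (nat_lit 0x400000000)))) (N 1592 (N 1591 (L (nat_lit 0x800000000000000000000000000000000000000000200000000000000000000000000000000000000000000000)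 (nat_lit 0x1100000000000000004000000000000000201010008440000000000000000000000000000000000000000001)) (L (nat_lit 0) (nat_lit 0x8000000000000))) (N 1593 (L (nat_lit 0x400000000000000000000000000000000000000000008000000000000000000000000000000000000000000000) (nat_lit 0x900000000000000004000000000000000201010200440000000000000000000000000000000000000000001)) (L (nat_lit 0) (nat_lit 0))))))
theorem e216 {P : ℕ → Pt} (hf : Frame 15 P) (hK : ¬ HCPle (P '' {i | i < 15}) 4) : ¬ EA [1,6,9,11] [0,2,3,4,5,7,8,10,12,13,14] P :=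
  finA (ax := AX.db) (s := s216) (A := 1581) (B := 1594) (T0 := nat_lit 0x1bc003780030c0ec16f000de001c703b0001bc001040760000000000000000003b00000000001d803b000200) (F0 := nat_lit 0xade4000000000000001000000000000000040000000000000800000000000002080004000000000002000400148) X11.facts AX.axs (base_ent (us := X11.US) (tg := X11.BN) X11.facts (by decide +kernel))
  (Blk.of_chk [.t 1 (nat_lit 0) (.m 113), .t 1 (nat_lit 0) (.m 114), .t 1 (nat_lit 0) (.m 118), .t 1 (nat_lit 0) (.m 119), .t 1 (nat_lit 0) (.t 6 0 4 12), .t 1 (nat_lit 0) (.t 9 0 4 12), .t 1 (nat_lit 0) (.t 11 0 4 12), .t 1 (nat_lit 0) (.t 6 0 5 7), .t 3 (nat_lit 0x60004) (.z (.edon 0 8 (.node 0 4 (.leaf [0,5,6,7]) (.leaf [1,4,3,2])) (.free 2 [8,9,10,11,12,13,14]))), .t 3 (nat_lit 0x60f060c) (.z (.edon 0 4 (.leaf [0,1,2,3]) (.edon 4 12 (.free 2 [4,5,6,7,9,10,11]) (.leaf [8,12,14,13])))), .r 9 (nat_lit 0x6370630062e06360635063406330632), .t 3 (nat_lit 0x5e305e2) (.z (.edon 0 4 (.leaf [0,1,2,3]) (.edon 4 12 (.free 2 [4,5,6,8,9,10,11])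 (.leaf [7,12,14,13])))), .r 10 (nat_lit 0x6390631062f063606380635063406330632)] (by decide +kernel) (by decide +kernel)) (by decide +kernel) hf hK
def s217 : DB := (N 1583 (N 1582 (L (nat_lit 0x800000000000000000000000000000) (nat_lit 0)) (L (nat_lit 0x8000000000000000000000000000000000000000000000000000000000000000000000000000000000000000) (nat_lit 0))) (N 1584 (L (nat_lit 0x4000000000000000000000000000000000000000000000000000000000000000000000000000000000000000000) (nat_lit 0x8000000000000000000000000000000000000000000000000000000000800000000000000000000000000000)) (L (nat_lit 0) (nat_lit 0))))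
theorem e217 {P : ℕ → Pt} (hf : Frame 15 P) (hK : ¬ HCPle (P '' {i | i < 15}) 4) : ¬ EA [1,6,9,12] [0,2,3,4,5,7,8,10,11,13,14] P :=
  finA (ax := AX.db) (s := s217) (A := 1581) (B := 1585) (T0 := nat_lit 0x6f3780030c0ec0005bcde001c703b000000000000000de0008203b00000003b00000000001d803b000200) (F0 := nat_lit 0x6de0010000000000001000000000000000040000000000000000000000004002080004000000000002000400148) X11.facts AX.axs (base_ent (us := X11.US) (tg := X11.BN) X11.facts (by decide +kernel))
  (Blk.of_chk [.t 1 (nat_lit 0) (.t 9 0 8 10), .t 1 (nat_lit 0) (.t 12 0 11 14), .t 3 (nat_lit 0x62d0629) (.z (.node 0 7 (.edon 0 11 (.leaf [0,8,9,10]) (.leaf [11,12,14,13])) (.free 2 [1,2,3,4,5,6,7]))), .r 4 (nat_lit 0x630062f062e)] (by decide +kernel) (by decide +kernel)) (by decide +kernel) hf hK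
def s218 : DB := (N 1583 (N 1582 (L (nat_lit 0x800000000000000000000000000000) (nat_lit 0)) (L (nat_lit 0x4000000000000000000000000000000000000000000000000000000000000000000000000000000000000000000) (nat_lit 0))) (N 1584 (L (nat_lit 0x8000000000000000000000000000000000000000000000000000000000000000000000000000000000000000) (nat_lit 0x4000000000000000000000000000000000000000000000000000000000000800000000000000000000000000000)) (L (nat_lit 0) (nat_lit 0))))
theorem e218 {P : ℕ → Pt} (hf : Frame 15 P) (hK : ¬ HCPle (P '' {i | i < 15}) 4) : ¬ EA [1,6,9,13] [0,2,3,4,5,7,8,10,11,12,14] P :=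
  finA (ax := AX.db) (s := s218) (A := 1581) (B := 1585) (T0 := nat_lit 0x6f3780030c0ec00000000000000000b79bc0038e0760de0008203b00000003b00000000001d803b000200) (F0 := nat_lit 0xdbd0000000000001000000000000000000000000000000800000000004002080004000000000002000400148) X11.facts AX.axs (base_ent (us := X11.US) (tg := X11.BN) X11.facts (by decide +kernel))
  (Blk.of_chk [.t 1 (nat_lit 0) (.t 9 0 8 10), .t 1 (nat_lit 0) (.t 13 0 11 14), .t 3 (nat_lit 0x62c062a) (.z (.node 0 7 (.edon 0 11 (.leaf [0,8,9,10]) (.leaf [11,13,14,12])) (.free 2 [1,2,3,4,5,6,7]))), .r 4 (nat_lit 0x630062f062e)] (by decide +kernel) (by decide +kernel)) (by decide +kernel) hf hK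
def s219 : DB := (N 1587 (N 1584 (N 1582 (L (nat_lit 0x8000000000000) (nat_lit 0x40000000000000000000000000000000000)) (N 1583 (L (nat_lit 0x80000000000000000000000000000000000) (nat_lit 0x8000000000000)) (L (nat_lit 0) (nat_lit 0x1000000000000000000000008000000000000)))) (N 1585 (L (nat_lit 0x2000000000000000000000008000000000000) (nat_lit 0)) (N 1586 (L (nat_lit 0x4000000000000000000000000) (nat_lit 0)) (L (nat_lit 0x100000000000000000000000000000) (nat_lit 0))))) (N 1590 (N 1588 (L (nat_lit 0x800000000000000000000000000000) (nat_lit 0)) (N 1589 (L (nat_lit 0x40000002080000000000000000000000000) (nat_lit 0x8000000000000000000000000000000000000000000000000010002000000100004200000000000100000000000)) (L (nat_lit 0x8000000000000000000200000000000000000000000000000000000000000000000000000000000000000000000) (nat_lit 0x800000000000000000000000000000)))) (N 1591 (L (nat_lit 0x8000000000000) (nat_lit 0)) (N 1592 (L (nat_lit 0x1000000002080000000000000000000000000) (nat_lit 0x8000000000000000000000000000000000000000000000000010000080000100004200000000000000020000000))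 (L (nat_lit 0) (nat_lit 0))))))
theorem e219 {P : ℕ → Pt} (hf : Frame 15 P) (hK : ¬ HCPle (P '' {i | i < 15}) 4) : ¬ EA [1,6,9,14] [0,2,3,4,5,7,8,10,11,12,13] P :=
  finA (ax := AX.db) (s := s219) (A := 1581) (B := 1593) (T0 := nat_lit 0x1bcde000c303b0b79bc0038e0760de0008203b00000003b00000000001d803b000200) (F0 := nat_lit 0x36f400000000000040000000000000800000000004002080004000000000002000400148) X11.facts AX.axs (base_ent (us := X11.US) (tg := X11.BN) X11.facts (by decide +kernel))
  (Blk.of_chk [.t 1 (nat_lit 0) (.m 114), .t 1 (nat_lit 0) (.m 115), .t 1 (nat_lit 0) (.m 118), .t 1 (nat_lit 0) (.m 121), .t 1 (nat_lit 0) (.t 6 0 5 10), .t 1 (nat_lit 0) (.t 9 0 5 10), .t 1 (nat_lit 0) (.t 9 0 8 10), .t 8 (nat_lit 0x41e0412040f0486048404350433) (.z (.node 0 11 (.leaf [0,12,13,14]) (.edon 0 4 (.leaf [1,2,3]) (.node 5 10 (.leaf [4,5,8,11,7]) (.leaf [6,9,10]))))), .t 3 (nat_lit 0x62d062b) (.z (.node 0 7 (.edon 0 11 (.leaf [0,8,9,10]) (.leaf [11,14,13,12])) (.free 2 [1,2,3,4,5,6,7]))), .r 8 (nat_lit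 0x6350631062e0636063406330632), .t 8 (nat_lit 0x4e304870483043604320420041f) (.z (.node 0 11 (.leaf [0,12,13,14]) (.edon 0 4 (.leaf [1,2,3]) (.node 5 10 (.leaf [4,5,7,11,8]) (.leaf [6,9,10]))))), .r 9 (nat_lit 0x6380630062f06360637063406330632)] (by decide +kernel) (by decide +kernel)) (by decide +kernel) hf hK
def s220 : DB := (N 1583 (N 1582 (L (nat_lit 0x40000000000000000000000000000000000000000000000000000000000000000000000000000000000) (nat_lit 0)) (L (nat_lit 0x8000000000000000000000000000000000000000000000000000000000000000000000000000000000000) (nat_lit 0))) (N 1584 (L (nat_lit 0x1002000000000000000000000000000000000000000000000000000000000000000000000000000000000000000) (nat_lit 0x8040200000000080000000000000000000100000000000000000000000000000000000000000000000000)) (L (nat_lit 0) (nat_lit 0))))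
theorem e220 {P : ℕ → Pt} (hf : Frame 15 P) (hK : ¬ HCPle (P '' {i | i < 15}) 4) : ¬ EA [1,6,10,11] [0,2,3,4,5,7,8,9,12,13,14] P :=
  finA (ax := AX.db) (s := s220) (A := 1581) (B := 1585) (T0 := nat_lit 0x1bc000037830c0ec0ef00000de1c703b000001bc10407600000000000000000000000003b0001d803b000200) (F0 := nat_lit 0x9de2000000000000001000000000000000040000000000000800000000000000000000208000400002000400148) X11.facts AX.axs (base_ent (us := X11.US) (tg := X11.BN) X11.facts (by decide +kernel))
  (Blk.of_chk [.t 1 (nat_lit 0) (.t 10 0 9 14), .t 1 (nat_lit 0) (.t 11 0 9 14), .t 3 (nat_lit 0x5f405f3) (.z (.node 0 7 (.node 9 14 (.leaf [0,8,9,12,13]) (.leaf [10,11,14])) (.free 2 [1,2,3,4,5,6,7]))), .r 4 (nat_lit 0x630062f062e)] (by decide +kernel) (by decide +kernel)) (by decide +kernel) hf hK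
def s221 : DB := (N 1583 (N 1582 (L (nat_lit 0x40000000000000000000000000000000000000000000000000000000000000000000000000000000000) (nat_lit 0)) (L (nat_lit 0x2000000000000000000000000000000000000000000000000000000000000000000000000000000000000000) (nat_lit 0))) (N 1584 (L (nat_lit 0x1000008000000000000000000000000000000000000000000000000000000000000000000000000000000000000) (nat_lit 0x2000040200000000000200000000000000000000000000000800000000000000000000000000000000000000)) (L (nat_lit 0) (nat_lit 0))))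
theorem e221 {P : ℕ → Pt} (hf : Frame 15 P) (hK : ¬ HCPle (P '' {i | i < 15}) 4) : ¬ EA [1,6,10,12] [0,2,3,4,5,7,8,9,11,13,14] P :=
  finA (ax := AX.db) (s := s221) (A := 1581) (B := 1585) (T0 := nat_lit 0x6f0037830c0ec0003bc00de1c703b00000000000000000de08203b000000000000003b0001d803b000200) (F0 := nat_lit 0x5de0008000000000001000000000000000040000000000000000000000004000000000208000400002000400148) X11.facts AX.axs (base_ent (us := X11.US) (tg := X11.BN) X11.facts (by decide +kernel))
  (Blk.of_chk [.t 1 (nat_lit 0) (.t 10 0 9 14), .t 1 (nat_lit 0) (.t 12 0 9 14), .t 3 (nat_lit 0x5f105f0) (.z (.node 0 7 (.node 9 14 (.leaf [0,8,9,11,13]) (.leaf [10,12,14])) (.free 2 [1,2,3,4,5,6,7]))), .r 4 (nat_lit 0x630062f062e)] (by decide +kernel) (by decide +kernel)) (by decide +kernel) hf hK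
def s222 : DB := (N 1583 (N 1582 (L (nat_lit 0x40000000000000000000000000000000000000000000000000000000000000000000000000000000000) (nat_lit 0)) (L (nat_lit 0x1000000000000000000000000000000000000000000000000000000000000000000000000000000000000000000) (nat_lit 0))) (N 1584 (L (nat_lit 0x2008000000000000000000000000000000000000000000000000000000000000000000000000000000000000) (nat_lit 0x1000000040200000000000000000000000004000000000000000800000000000000000000000000000000000000)) (L (nat_lit 0) (nat_lit 0))))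
theorem e222 {P : ℕ → Pt} (hf : Frame 15 P) (hK : ¬ HCPle (P '' {i | i < 15}) 4) : ¬ EA [1,6,10,13] [0,2,3,4,5,7,8,9,11,12,14] P :=
  finA (ax := AX.db) (s := s222) (A := 1581) (B := 1585) (T0 := nat_lit 0x6f0037830c0ec0000000000000000077801bc38e076000de08203b000000000000003b0001d803b000200) (F0 := nat_lit 0xbbc8000000000001000000000000000000000000000000800000000004000000000208000400002000400148) X11.facts AX.axs (base_ent (us := X11.US) (tg := X11.BN) X11.facts (by decide +kernel))
  (Blk.of_chk [.t 1 (nat_lit 0) (.t 10 0 9 14), .t 1 (nat_lit 0) (.t 13 0 9 14), .t 3 (nat_lit 0x5ee05ed) (.z (.node 0 7 (.node 9 14 (.leaf [0,8,9,11,12]) (.leaf [10,13,14])) (.free 2 [1,2,3,4,5,6,7]))), .r 4 (nat_lit 0x630062f062e)] (by decide +kernel) (by decide +kernel)) (by decide +kernel) hf hK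
def s223 : DB := (N 1588 (N 1584 (N 1582 (L (nat_lit 0x8000000000000) (nat_lit 0x10000000000000)) (N 1583 (L (nat_lit 0x20000000000000) (nat_lit 0x8000000000000)) (L (nat_lit 0x40000000000000) (nat_lit 0x8000000000000)))) (N 1586 (N 1585 (L (nat_lit 0x2000000000000000000000008000000000000) (nat_lit 0)) (L (nat_lit 0x800000000000000000000000000000000000000000000000000000000000) (nat_lit 0x8000000000000))) (N 1587 (L (nat_lit 0) (nat_lit 0x10000000000000000000000000000000000000000000000000000000000000000000000000000000000000000)) (L (nat_lit 0x400000000) (nat_lit 0))))) (N 1591 (N 1589 (L (nat_lit 0x2000000000000) (nat_lit 0)) (N 1590 (L (nat_lit 0x1000000000000000000000000000000000000000000000000000000000000000000) (nat_lit 0)) (L (nat_lit 0x50020000400000) (nat_lit 0x21c8000000000)))) (N 1593 (N 1592 (L (nat_lit 0x1000000000000000000080200000000000000000000000000000000000000000000000000000000000000000000) (nat_lit 0x1008000000004000000000000000800000000000000000000000000000000000000))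 (L (nat_lit 0x8000000000000) (nat_lit 0))) (N 1594 (L (nat_lit 0x2004000000) (nat_lit 0x8000000000000000000000000000000000000000000000000000000000000000000000000000060000439000000)) (L (nat_lit 0) (nat_lit 0))))))
theorem e223 {P : ℕ → Pt} (hf : Frame 15 P) (hK : ¬ HCPle (P '' {i | i < 15}) 4) : ¬ EA [1,6,10,14] [0,2,3,4,5,7,8,9,11,12,13] P :=
  finA (ax := AX.db) (s := s223) (A := 1581) (B := 1595) (T0 := nat_lit 0x1bc00de0c303b077801bc38e076000de08203b000000000000003b0001d803b000200) (F0 := nat_lit 0x2ef200000000000040000000000000800000000004000000000208000400002000400148) X11.facts AX.axs (base_ent (us := X11.US) (tg := X11.BN) X11.facts (by decide +kernel))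
  (Blk.of_chk [.t 1 (nat_lit 0) (.m 95), .t 1 (nat_lit 0) (.m 96), .t 1 (nat_lit 0) (.m 98), .t 1 (nat_lit 0) (.m 121), .t 1 (nat_lit 0) (.m 129), .t 1 (nat_lit 0) (.c 1 14 0 13), .t 1 (nat_lit 0) (.t 6 0 5 7), .t 1 (nat_lit 0) (.t 6 0 5 8), .t 1 (nat_lit 0) (.t 10 0 9 13), .t 8 (nat_lit 0x1f901f401f1026d026802370235) (.z (.node 8 0 (.edon 5 8 (.leaf [1,5,6]) (.leaf [2,4,8,7,3])) (.free 2 [0,9,10,11,12,13,14]))), .t 3 (nat_lit 0x5ee05ed) (.z (.node 0 7 (.node 9 13 (.leaf [0,8,9,11,12]) (.leaf [10,13,14])) (.free 2 [1,2,3,4,5,6,7]))), .r 13 (nat_lit 0x191063701a00631062e028d0635019801dd063806360633), .t 8 (nat_lit 0x1f10236023301fc01f9026c026a) (.z (.node 0 11 (.leaf [0,12,13,14]) (.edon 0 9 (.edon 5 7 (.leaf [1,5,6]) (.leaf [2,4,7,8,3])) (.leaf [9,10,11])))), .r 14 (nat_lit 0x1980187063a062101dd06320630062f06380639063606340633)] (by decide +kernel) (by decide +kernel)) (by decide +kernel) hf hK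
def s224 : DB := (N 1583 (N 1582 (L (nat_lit 0x8000000000000000000000000000000000000000000000000000000000000000000000000000000000000) (nat_lit 0)) (L (nat_lit 0x2000000000000000000000000000000000000000000000000000000000000000000000000000000000000000) (nat_lit 0))) (N 1584 (L (nat_lit 0x1000000040000000000000000000000000000000000000000000000000000000000000000000000000000000000) (nat_lit 0x2008000200000000000001000000000000000000000000000000000000800000000000000000000000000000)) (L (nat_lit 0) (nat_lit 0))))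
theorem e224 {P : ℕ → Pt} (hf : Frame 15 P) (hK : ¬ HCPle (P '' {i | i < 15}) 4) : ¬ EA [1,6,11,12] [0,2,3,4,5,7,8,9,10,13,14] P :=
  finA (ax := AX.db) (s := s224) (A := 1581) (B := 1585) (T0 := nat_lit 0x37b7830c0ec000001dede1c703b00000000000000000000000000de08203b000003b0001d803b000200) (F0 := nat_lit 0x3de0000040000000001000000000000000040000000000000000000000000000000004208000400002000400148) X11.facts AX.axs (base_ent (us := X11.US) (tg := X11.BN) X11.facts (by decide +kernel))
  (Blk.of_chk [.t 1 (nat_lit 0) (.t 11 0 9 14), .t 1 (nat_lit 0) (.t 12 0 9 14), .t 3 (nat_lit 0x5eb05ea) (.z (.node 0 7 (.node 9 14 (.leaf [0,8,9,10,13]) (.leaf [11,12,14])) (.free 2 [1,2,3,4,5,6,7]))), .r 4 (nat_lit 0x630062f062e)] (by decide +kernel) (by decide +kernel)) (by decide +kernel) hf hK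
def s225 : DB := (N 1583 (N 1582 (L (nat_lit 0x8000000000000000000000000000000000000000000000000000000000000000000000000000000000000) (nat_lit 0)) (L (nat_lit 0x1000000000000000000000000000000000000000000000000000000000000000000000000000000000000000000) (nat_lit 0))) (N 1584 (L (nat_lit 0x2000040000000000000000000000000000000000000000000000000000000000000000000000000000000000) (nat_lit 0x1000008000200000000000000000000000000020000000000000000000000800000000000000000000000000000)) (L (nat_lit 0) (nat_lit 0))))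
theorem e225 {P : ℕ → Pt} (hf : Frame 15 P) (hK : ¬ HCPle (P '' {i | i < 15}) 4) : ¬ EA [1,6,11,13] [0,2,3,4,5,7,8,9,10,12,14] P :=
  finA (ax := AX.db) (s := s225) (A := 1581) (B := 1585) (T0 := nat_lit 0x37b7830c0ec00000000000000000003bdbc38e076000000000000de08203b000003b0001d803b000200) (F0 := nat_lit 0x7bc0040000000001000000000000000000000000000000800000000000000000004208000400002000400148) X11.facts AX.axs (base_ent (us := X11.US) (tg := X11.BN) X11.facts (by decide +kernel))
  (Blk.of_chk [.t 1 (nat_lit 0) (.t 11 0 9 14), .t 1 (nat_lit 0) (.t 13 0 9 14), .t 3 (nat_lit 0x5e905e8) (.z (.node 0 7 (.node 9 14 (.leaf [0,8,9,10,12]) (.leaf [11,13,14])) (.free 2 [1,2,3,4,5,6,7]))), .r 4 (nat_lit 0x630062f062e)] (by decide +kernel) (by decide +kernel)) (by decide +kernel) hf hK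
def s226 : DB := (N 1584 (N 1582 (L (nat_lit 0x4000000000000000000000000000000000000000000000000000000000000000000) (nat_lit 0)) (N 1583 (L (nat_lit 0x2000000000000000000000000000000000000000000000000000000) (nat_lit 0)) (L (nat_lit 0x4000000000000000000000000000000000000000000000000000000) (nat_lit 0)))) (N 1586 (N 1585 (L (nat_lit 0x8000000000000000000000000000000000000000000000000000000) (nat_lit 0)) (L (nat_lit 0) (nat_lit 0x8000000000000000000000000000000000000000000000000000000000000000000000000000000000000000))) (N 1587 (L (nat_lit 0x8000000000000000200000000000000000000000000000000000000000000000000000000000000000000000) (nat_lit 0xe020000000000000000000000800000000000000000000000000000)) (L (nat_lit 0) (nat_lit 0)))))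
theorem e226 {P : ℕ → Pt} (hf : Frame 15 P) (hK : ¬ HCPle (P '' {i | i < 15}) 4) : ¬ EA [1,6,11,14] [0,2,3,4,5,7,8,9,10,12,13] P :=
  finA (ax := AX.db) (s := s226) (A := 1581) (B := 1588) (T0 := nat_lit 0xdede0c303b0003bdbc38e076000000000000de08203b000003b0001d803b000200) (F0 := nat_lit 0x1ef001000000000040000000000000800000000000000000004208000400002000400148) X11.facts AX.axs (base_ent (us := X11.US) (tg := X11.BN) X11.facts (by decide +kernel))
  (Blk.of_chk [.t 1 (nat_lit 0) (.t 11 0 2 13), .t 1 (nat_lit 0) (.t 11 0 8 12), .t 1 (nat_lit 0) (.t 11 0 9 12), .t 1 (nat_lit 0) (.t 11 0 10 12), .t 1 (nat_lit 0) (.c 11 14 0 12), .t 3 (nat_lit 0x5e905e8) (.z (.node 0 7 (.edon 11 12 (.leaf [11,13,14]) (.leaf [0,8,9,10,12])) (.free 2 [1,2,3,4,5,6,7]))), .r 8 (nat_lit 0x2b40633063206310630062f062e)] (by decide +kernel) (by decide +kernel)) (by decide +kernel) hf hK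
def s227 : DB := (N 1582 (L (nat_lit 0) (nat_lit 0x100000000000800000000000000000000000000000)) (L (nat_lit 0) (nat_lit 0)))
theorem e227 {P : ℕ → Pt} (hf : Frame 15 P) (hK : ¬ HCPle (P '' {i | i < 15}) 4) : ¬ EA [1,6,12,13] [0,2,3,4,5,7,8,9,10,11,14] P :=
  finA (ax := AX.db) (s := s227) (A := 1581) (B := 1583) (T0 := nat_lit 0x37b7830c0ec0000000000000000000000000000001dede1c703b0de08203b000003b0001d803b000200) (F0 := nat_lit 0x1ef40000000001000000000000000000000000000000000000000004000000004208000400002000400148) X11.facts AX.axs (base_ent (us := X11.US) (tg := X11.BN) X11.facts (by decide +kernel))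
  (Blk.of_chk [.t 3 (nat_lit 0x5e605e5) (.z (.node 0 7 (.edon 0 12 (.leaf [0,8,9,10,11]) (.leaf [12,13,14])) (.free 2 [1,2,3,4,5,6,7]))), .r 2 (nat_lit 0x62e)] (by decide +kernel) (by decide +kernel)) (by decide +kernel) hf hK
def s228 : DB := (N 1582 (L (nat_lit 0) (nat_lit 0x100000000000800000000000000000000000000000)) (L (nat_lit 0) (nat_lit 0)))
theorem e228 {P : ℕ → Pt} (hf : Frame 15 P) (hK : ¬ HCPle (P '' {i | i < 15}) 4) : ¬ EA [1,6,12,14] [0,2,3,4,5,7,8,9,10,11,13] P :=
  finA (ax := AX.db) (s := s228) (A := 1581) (B := 1583) (T0 := nat_lit 0xdede0c303b000000000000001dede1c703b0de08203b000003b0001d803b000200) (F0 := nat_lit 0x7bd000000000040000000000000000000000004000000004208000400002000400148) X11.facts AX.axs (base_ent (us := X11.US) (tg := X11.BN) X11.facts (by decide +kernel))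
  (Blk.of_chk [.t 3 (nat_lit 0x5e605e5) (.z (.node 0 7 (.edon 0 12 (.leaf [0,8,9,10,11]) (.leaf [12,13,14])) (.free 2 [1,2,3,4,5,6,7]))), .r 2 (nat_lit 0x62e)] (by decide +kernel) (by decide +kernel)) (by decide +kernel) hf hK
def s229 : DB := (N 1582 (L (nat_lit 0) (nat_lit 0x100000000000800000000000000000000000000000)) (L (nat_lit 0) (nat_lit 0)))
theorem e229 {P : ℕ → Pt} (hf : Frame 15 P) (hK : ¬ HCPle (P '' {i | i < 15}) 4) : ¬ EA [1,6,13,14] [0,2,3,4,5,7,8,9,10,11,12] P :=
  finA (ax := AX.db) (s := s229) (A := 1581) (B := 1583) (T0 := nat_lit 0x1bdbc1860761dede1c703b0de08203b000003b0001d803b000200) (F0 := nat_lit 0xf7a0000000000800000000004000000004208000400002000400148) X11.facts AX.axs (base_ent (us := X11.US) (tg := X11.BN) X11.facts (by decide +kernel))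
  (Blk.of_chk [.t 3 (nat_lit 0x5e605e5) (.z (.node 0 7 (.edon 0 12 (.leaf [0,8,9,10,11]) (.leaf [12,13,14])) (.free 2 [1,2,3,4,5,6,7]))), .r 2 (nat_lit 0x62e)] (by decide +kernel) (by decide +kernel)) (by decide +kernel) hf hK
def s230 : DB := (N 1589 (N 1585 (N 1583 (N 1582 (L (nat_lit 0x800000000000000000000000) (nat_lit 0x1000000000000000000000000)) (L (nat_lit 0x4000000000000000000000000) (nat_lit 0x800000000000000000000000))) (N 1584 (L (nat_lit 0x400000000000000000000000000000000000000000000) (nat_lit 0x800000000000000000000000)) (L (nat_lit 0x800000000000000000000000) (nat_lit 0x400000000000000000000000000000000000000000000)))) (N 1587 (N 1586 (L (nat_lit 0) (nat_lit 0x1000000000000000000000000000800000000000000000000000)) (L (nat_lit 0x1000000000000000000000000000800000000000000000000000) (nat_lit 0))) (N 1588 (L (nat_lit 0x8000000000000000000000000000000000000000000000) (nat_lit 0)) (L (nat_lit 0x200000000000000000000000000000000000000000000000) (nat_lit 0))))) (N 1593 (N 1591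 (N 1590 (L (nat_lit 0x10000000000000000000000000000000000000000000000000) (nat_lit 0)) (L (nat_lit 0x100000000000000000000000000) (nat_lit 0))) (N 1592 (L (nat_lit 0x200000000000000000000000000000000000000000000400000000000000000000000000000000000000000000) (nat_lit 0x500000000000000004000000000000000201010208040000000000000000000000000000000000000000001)) (L (nat_lit 0x8000150) (nat_lit 0xa0200)))) (N 1595 (N 1594 (L (nat_lit 0x2000000000000000000000000000000000000001000000000000000000000000000000000000000000000000000) (nat_lit 0x4100000000000000004000000000000000200010208440000000000000000000000000000000000000000001)) (L (nat_lit 9) (nat_lit 0x4000000000000000000000000))) (N 1596 (L (nat_lit 0) (nat_lit 0x800000000000000000000000)) (N 1597 (L (nat_lit 0x100000000) (nat_lit 0x20000200)) (L (nat_lit 0) (nat_lit 0)))))))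
theorem e230 {P : ℕ → Pt} (hf : Frame 15 P) (hK : ¬ HCPle (P '' {i | i < 15}) 4) : ¬ EA [1,7,8,9] [0,2,3,4,5,6,10,11,12,13,14] P :=
  finA (ax := AX.db) (s := s230) (A := 1581) (B := 1598) (T0 := nat_lit 0x47d1f018000006ec31f47c0e000003bb08f808000002760000000003b00000003b00000000000000000ec200) (F0 := nat_lit 0xe3e8000000000000001000000000000000040000000000000810000004004000000004000000000000000001148) X11.facts AX.axs (base_ent (us := X11.US) (tg := X11.BN) X11.facts (by decide +kernel))
  (Blk.of_chk [.t 1 (nat_lit 0) (.m 95), .t 1 (nat_lit 0) (.m 98), .t 1 (nat_lit 0) (.m 113), .t 1 (nat_lit 0) (.m 114), .t 1 (nat_lit 0) (.m 118), .t 1 (nat_lit 0) (.m 119), .t 1 (nat_lit 0) (.t 7 0 4 12), .t 1 (nat_lit 0) (.t 8 0 4 12), .t 1 (nat_lit 0) (.t 9 0 4 12), .t 1 (nat_lit 0) (.t 7 0 6 10), .t 3 (nat_lit 0x5a805a7) (.z (.edon 0 4 (.leaf [0,1,2,3]) (.edon 4 12 (.free 2 [4,5,7,8,9,10,11]) (.leaf [6,12,14,13])))), .t 3 (nat_lit 0x2b902b7) (.z (.edon 0 8 (.edon 2 5 (.leaf [1,2,7]) (.leaf [0,3,4,5,6]))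 (.free 2 [8,9,10,11,12,13,14]))), .t 3 (nat_lit 0x6280627) (.z (.edon 0 4 (.leaf [0,1,2,3]) (.edon 4 12 (.free 2 [4,5,6,7,8,9,11]) (.leaf [10,12,14,13])))), .t 3 (nat_lit 0x60004) (.z (.node 4 0 (.leaf [1,4,3,2]) (.x11 10 [0,5,6,7,8,9,10,11,12,13,14]))), .r 9 (nat_lit 0x63a063b06320630062f063606350634), .t 8 (nat_lit 0x4000339033402e002db02c002be) (.z (.edon 0 8 (.edon 0 3 (.leaf [0,1,2]) (.leaf [3,4,5,7,6])) (.free 2 [8,9,10,11,12,13,14]))), .r 15 (nat_lit 0x6390251000d063d0638039306330631062e063c0637063606350634)] (by decide +kernel) (by decide +kernel)) (by decide +kernel) hf hK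
def s231 : DB := (N 1590 (N 1585 (N 1583 (N 1582 (L (nat_lit 0x80000000000000000) (nat_lit 0x100000000000000000)) (L (nat_lit 0x400000000000000000) (nat_lit 0x80000000000000000))) (N 1584 (L (nat_lit 0x400000000000000000000000000000000000000000000) (nat_lit 0x80000000000000000)) (L (nat_lit 0x80000000000000000) (nat_lit 0x400000000000000000000000000000000000000000000)))) (N 1587 (N 1586 (L (nat_lit 0) (nat_lit 0x10000000000000000000000000000000080000000000000000)) (L (nat_lit 0x10000000000000000000000000000000080000000000000000) (nat_lit 0))) (N 1588 (L (nat_lit 0x8000000000000000000000000000000000000000000000) (nat_lit 0)) (N 1589 (L (nat_lit 0x200000000000000000000000000000000000000000000000) (nat_lit 0)) (L (nat_lit 0x1000000000000000000000000000000000000000000000000000) (nat_lit 0)))))) (N 1595 (N 1592 (N 1591 (L (nat_lit 0x10000000000000000000) (nat_lit 0)) (L (nat_lit 0x8000150) (nat_lit 0xa0200))) (N 1593 (L (nat_lit 0x100000000) (nat_lit 0x20000200)) (N 1594 (L (nat_lit 9) (nat_lit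 0x400000000000000000)) (L (nat_lit 0x21) (nat_lit 0))))) (N 1597 (N 1596 (L (nat_lit 0x1000000000000000000000000000000000000000010000000000000000000000000000000000000000000000000) (nat_lit 0x2100000000000000004000000000000000201000208440000000000000000000000000000000000000000001)) (L (nat_lit 0) (nat_lit 0x80000000000000001))) (N 1598 (L (nat_lit 0x200000000000000000000000000000000000000000000400000000000000000000000000000000000000000000) (nat_lit 0x500000000000000004000000000000000201010208040000000000000000000000000000000000000000001)) (N 1599 (L (nat_lit 0) (nat_lit 1)) (L (nat_lit 0) (nat_lit 0)))))))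
theorem e231 {P : ℕ → Pt} (hf : Frame 15 P) (hK : ¬ HCPle (P '' {i | i < 15}) 4) : ¬ EA [1,7,8,10] [0,2,3,4,5,6,9,11,12,13,14] P :=
  finA (ax := AX.db) (s := s231) (A := 1581) (B := 1600) (T0 := nat_lit 0x27c9f000180006ec29f27c000e0003bb04f800080002760000000003b000000000000003b0000000000ec200) (F0 := nat_lit 0xd3e8000000000000001000000000000000040000000000000800100004004000000000000000400000000001148) X11.facts AX.axs (base_ent (us := X11.US) (tg := X11.BN) X11.facts (by decide +kernel))
  (Blk.of_chk [.t 1 (nat_lit 0) (.m 95), .t 1 (nat_lit 0) (.m 98), .t 1 (nat_lit 0) (.m 113), .t 1 (nat_lit 0) (.m 114), .t 1 (nat_lit 0) (.m 118), .t 1 (nat_lit 0) (.m 119), .t 1 (nat_lit 0) (.t 7 0 4 12), .t 1 (nat_lit 0) (.t 8 0 4 12), .t 1 (nat_lit 0) (.t 10 0 4 12), .t 1 (nat_lit 0) (.t 7 0 6 9), .t 3 (nat_lit 0x2b902b7) (.z (.edon 0 8 (.edon 2 5 (.leaf [1,2,7]) (.leaf [0,3,4,5,6])) (.free 2 [8,9,10,11,12,13,14]))), .t 8 (nat_lit 0x4000339033402e002db02c002be) (.z (.edon 0 8 (.edon 0 3 (.leaf [0,1,2])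 (.leaf [3,4,5,7,6])) (.free 2 [8,9,10,11,12,13,14]))), .t 3 (nat_lit 0x60004) (.z (.node 4 0 (.leaf [1,4,3,2]) (.x11 4 [0,5,6,7,8,9,10,11,12,13,14]))), .r 10 (nat_lit 0x3900639062e0251062f0638063a000e0637), .t 3 (nat_lit 0x6220620) (.z (.edon 0 4 (.leaf [0,1,2,3]) (.edon 4 12 (.free 2 [4,5,6,7,8,10,11]) (.leaf [9,12,14,13])))), .r 7 (nat_lit 0x63c06320630063606350634), .t 3 (nat_lit 0x5a805a7) (.z (.edon 0 4 (.leaf [0,1,2,3]) (.edon 4 12 (.free 2 [4,5,7,8,9,10,11]) (.leaf [6,12,14,13])))), .r 8 (nat_lit 0x63e06330631063d063606350634), .r 4 (nat_lit 0x63b000b063f)] (by decide +kernel) (by decide +kernel)) (by decide +kernel) hf hK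
def s232 : DB := (N 1587 (N 1584 (N 1582 (L (nat_lit 0x400000000000000000000000000000000000000000000) (nat_lit 0x80000000000000000)) (N 1583 (L (nat_lit 0x80000000000000000) (nat_lit 0x400000000000000000000000000000000000000000000)) (L (nat_lit 0) (nat_lit 0x10000000000000000000000000000000080000000000000000)))) (N 1585 (L (nat_lit 0x10000000000000000000000000000000080000000000000000) (nat_lit 0)) (N 1586 (L (nat_lit 0x8000000000000000000000000000000000000000000000) (nat_lit 0)) (L (nat_lit 0x200000000000000000000000000000000000000000000000) (nat_lit 0))))) (N 1590 (N 1588 (L (nat_lit 0x200000000000000000000000000000000000000000000000000000) (nat_lit 0)) (N 1589 (L (nat_lit 0x1000000000000000000000000000000000000000010000000000000000000000000000000000000000000000000) (nat_lit 0x2100000000000000004000000000000000201000208440000000000000000000000000000000000000000001)) (L (nat_lit 0x4000000000000000000000000000000000000000000000000000000000000000000000000000000000000009) (nat_lit 0)))) (N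 1591 (L (nat_lit 0) (nat_lit 0x80000000000000000)) (N 1592 (L (nat_lit 0x200000000000000000000000000000000000000000000400000000000000000000000000000000000000000000) (nat_lit 0x500000000000000004000000000000000201010208040000000000000000000000000000000000000000001)) (L (nat_lit 0) (nat_lit 0))))))
theorem e232 {P : ℕ → Pt} (hf : Frame 15 P) (hK : ¬ HCPle (P '' {i | i < 15}) 4) : ¬ EA [1,7,8,11] [0,2,3,4,5,6,9,10,12,13,14] P :=
  finA (ax := AX.db) (s := s232) (A := 1581) (B := 1593) (T0 := nat_lit 0x27c004f8180006ec19f0013e0e0003bb00027c080002760000000000000000003b000003b0000000000ec200) (F0 := nat_lit 0xb3e4000000000000001000000000000000040000000000000800000000000100004004000000400000000001148) X11.facts AX.axs (base_ent (us := X11.US) (tg := X11.BN) X11.facts (by decide +kernel))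
  (Blk.of_chk [.t 1 (nat_lit 0) (.m 113), .t 1 (nat_lit 0) (.m 114), .t 1 (nat_lit 0) (.m 118), .t 1 (nat_lit 0) (.m 119), .t 1 (nat_lit 0) (.t 7 0 4 12), .t 1 (nat_lit 0) (.t 8 0 4 12), .t 1 (nat_lit 0) (.t 11 0 4 12), .t 3 (nat_lit 0x6220620) (.z (.edon 0 4 (.leaf [0,1,2,3]) (.edon 4 12 (.free 2 [4,5,6,7,8,10,11]) (.leaf [9,12,14,13])))), .t 3 (nat_lit 0x60004) (.z (.node 4 0 (.leaf [1,4,3,2]) (.x11 84 [0,5,6,7,8,9,10,11,12,13,14]))), .r 8 (nat_lit 0x6350630062e0636063406330632), .t 3 (nat_lit 0x5a805a7) (.z (.edon 0 4 (.leaf [0,1,2,3]) (.edon 4 12 (.free 2 [4,5,7,8,9,10,11]) (.leaf [6,12,14,13])))), .r 9 (nat_lit 0x6380631062f06360637063406330632)] (by decide +kernel) (by decide +kernel)) (by decide +kernel) hf hK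
def s233 : DB := (N 1582 (L (nat_lit 0x8000000000000000000000000000000000000000000000000000000000000000000000000000000000000000) (nat_lit 0)) (N 1583 (L (nat_lit 0x4000000000000000000000000000000000000000000000000000000000000000000000000000000000000000008) (nat_lit 0x8000000000000000000000000000000000000000000000000000000000000000000000000000000000000000)) (L (nat_lit 0) (nat_lit 0))))
theorem e233 {P : ℕ → Pt} (hf : Frame 15 P) (hK : ¬ HCPle (P '' {i | i < 15}) 4) : ¬ EA [1,7,8,12] [0,2,3,4,5,6,9,10,11,13,14] P :=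
  finA (ax := AX.db) (s := s233) (A := 1581) (B := 1584) (T0 := nat_lit 0x9f4f8180006ec00067d3e0e0003bb0000000000000013e0400013b00000003b000003b0000000000ec200) (F0 := nat_lit 0x73e0010000000000001000000000000000040000000000000000000000004100004004000000400000000001148) X11.facts AX.axs (base_ent (us := X11.US) (tg := X11.BN) X11.facts (by decide +kernel))
  (Blk.of_chk [.t 1 (nat_lit 0) (.t 12 0 11 14), .t 3 (nat_lit 0x62d0629) (.z (.edon 0 11 (.x11 3 [0,1,2,3,4,5,6,7,8,9,10]) (.leaf [11,12,14,13]))), .r 3 (nat_lit 0x62f062e)] (by decide +kernel) (by decide +kernel)) (by decide +kernel) hf hK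
def s234 : DB := (N 1582 (L (nat_lit 0x4000000000000000000000000000000000000000000000000000000000000000000000000000000000000000000) (nat_lit 0)) (N 1583 (L (nat_lit 0x8000000000000000000000000000000000000000000000000000000000000000000000000000000000000008) (nat_lit 0x4000000000000000000000000000000000000000000000000000000000000000000000000000000000000000000)) (L (nat_lit 0) (nat_lit 0))))
theorem e234 {P : ℕ → Pt} (hf : Frame 15 P) (hK : ¬ HCPle (P '' {i | i < 15}) 4) : ¬ EA [1,7,8,13] [0,2,3,4,5,6,9,10,11,12,14] P :=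
  finA (ax := AX.db) (s := s234) (A := 1581) (B := 1584) (T0 := nat_lit 0x9f4f8180006ec00000000000000000cfa7c1c00077613e0400013b00000003b000003b0000000000ec200) (F0 := nat_lit 0xe7d0000000000001000000000000000000000000000000800000000004100004004000000400000000001148) X11.facts AX.axs (base_ent (us := X11.US) (tg := X11.BN) X11.facts (by decide +kernel))
  (Blk.of_chk [.t 1 (nat_lit 0) (.t 13 0 11 14), .t 3 (nat_lit 0x62c062a) (.z (.edon 0 11 (.x11 3 [0,1,2,3,4,5,6,7,8,9,10]) (.leaf [11,13,14,12]))), .r 3 (nat_lit 0x62f062e)] (by decide +kernel) (by decide +kernel)) (by decide +kernel) hf hK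
def s235 : DB := (N 1586 (N 1583 (N 1582 (L (nat_lit 0x80000000000000000) (nat_lit 0x2000000000000000000000000000000000)) (L (nat_lit 0x4000000000000000000000000000000000) (nat_lit 0x80000000000000000))) (N 1584 (L (nat_lit 0) (nat_lit 0x80000000000000000000080000000000000000)) (N 1585 (L (nat_lit 0x100000000000000000000080000000000000000) (nat_lit 0)) (L (nat_lit 0x80000000000000000000000000) (nat_lit 0))))) (N 1589 (N 1587 (L (nat_lit 0x2000000000000000000000000000) (nat_lit 0)) (N 1588 (L (nat_lit 0x400000000000000000000000000000000000000000000000000000000000000000009) (nat_lit 0)) (L (nat_lit 0x2000100004000000000000000000000000) (nat_lit 0x10100000000002080200000020000000000000001)))) (N 1590 (L (nat_lit 0x80000000000000000) (nat_lit 0)) (N 1591 (L (nat_lit 0x80000000100004000000000000000000000000) (nat_lit 0x10000004000002080200000000000000000080001)) (L (nat_lit 0) (nat_lit 0))))))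
theorem e235 {P : ℕ → Pt} (hf : Frame 15 P) (hK : ¬ HCPle (P '' {i | i < 15}) 4) : ¬ EA [1,7,8,14] [0,2,3,4,5,6,9,10,11,12,13] P :=
  finA (ax := AX.db) (s := s235) (A := 1581) (B := 1592) (T0 := nat_lit 0x27d3e060001bb0cfa7c1c00077613e0400013b00000003b000003b0000000000ec200) (F0 := nat_lit 0x39f400000000000040000000000000800000000004100004004000000400000000001148) X11.facts AX.axs (base_ent (us := X11.US) (tg := X11.BN) X11.facts (by decide +kernel))
  (Blk.of_chk [.t 1 (nat_lit 0) (.m 114), .t 1 (nat_lit 0) (.m 115), .t 1 (nat_lit 0) (.m 118), .t 1 (nat_lit 0) (.m 121), .t 1 (nat_lit 0) (.t 7 0 5 10), .t 1 (nat_lit 0) (.t 8 0 5 10), .t 3 (nat_lit 0x60004) (.z (.node 4 0 (.leaf [1,4,3,2]) (.x11 55 [0,5,6,7,8,9,10,11,12,13,14]))), .t 8 (nat_lit 0x40704060405046b046a043a0439) (.z (.edon 0 4 (.leaf [0,1,2,3]) (.edon 0 12 (.node 5 10 (.leaf [4,5,9,11,6]) (.leaf [7,8,10])) (.leaf [12,13,14])))), .r 7 (nat_lit 0x6350631062e063406330632), .t 8 (nat_lit 0x4d4046c0469043b043804090408) (.z (.edon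 0 4 (.leaf [0,1,2,3]) (.edon 0 12 (.node 5 10 (.leaf [4,5,6,11,9]) (.leaf [7,8,10])) (.leaf [12,13,14])))), .r 8 (nat_lit 0x6370630062f0634063606330632)] (by decide +kernel) (by decide +kernel)) (by decide +kernel) hf hK
def s236 : DB := (N 1587 (N 1584 (N 1582 (L (nat_lit 0x400000000000000000000000000000000000000000000) (nat_lit 0x400000000000)) (N 1583 (L (nat_lit 0x400000000000) (nat_lit 0x400000000000000000000000000000000000000000000)) (L (nat_lit 0) (nat_lit 0x200000000000000000000000000000000000400000000000)))) (N 1585 (L (nat_lit 0x200000000000000000000000000000000000400000000000) (nat_lit 0)) (N 1586 (L (nat_lit 0x8000000000000000000000000000000000000000000000) (nat_lit 0)) (L (nat_lit 0x10000000000000000000000000000000000000000000000000) (nat_lit 0))))) (N 1590 (N 1588 (L (nat_lit 0x1000000000000000000000000000000000000000000000000000) (nat_lit 0)) (N 1589 (L (nat_lit 0x40000000000000) (nat_lit 0)) (L (nat_lit 9) (nat_lit 0x40000000000000)))) (N 1592 (N 1591 (L (nat_lit 0x200000000000000000000000000000000000000000000400000000000000000000000000000000000000000000)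 (nat_lit 0x500000000000000004000000000000000201010208040000000000000000000000000000000000000000001)) (L (nat_lit 0x400000000000) (nat_lit 0))) (N 1593 (L (nat_lit 0x800000000000000000000000000000000000000000200000000000000000000000000000000000000000000000) (nat_lit 0x1100000000000000004000000000000000201010008440000000000000000000000000000000000000000001)) (L (nat_lit 0) (nat_lit 0))))))
theorem e236 {P : ℕ → Pt} (hf : Frame 15 P) (hK : ¬ HCPle (P '' {i | i < 15}) 4) : ¬ EA [1,7,9,10] [0,2,3,4,5,6,8,11,12,13,14] P :=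
  finA (ax := AX.db) (s := s236) (A := 1581) (B := 1594) (T0 := nat_lit 0x17c5f000003006ec25f17c00001c03bb02f800001002760000000003b00000000000000000001d80000ec200) (F0 := nat_lit 0xcbe8000000000000001000000000000000040000000000000800002004004000000000000000000002000001148) X11.facts AX.axs (base_ent (us := X11.US) (tg := X11.BN) X11.facts (by decide +kernel))
  (Blk.of_chk [.t 1 (nat_lit 0) (.m 113), .t 1 (nat_lit 0) (.m 114), .t 1 (nat_lit 0) (.m 118), .t 1 (nat_lit 0) (.m 119), .t 1 (nat_lit 0) (.t 7 0 4 12), .t 1 (nat_lit 0) (.t 9 0 4 12), .t 1 (nat_lit 0) (.t 10 0 4 12), .t 1 (nat_lit 0) (.t 7 0 5 8), .t 3 (nat_lit 0x60004) (.z (.node 4 0 (.leaf [1,4,3,2]) (.x11 2 [0,5,6,7,8,9,10,11,12,13,14]))), .t 3 (nat_lit 0x5a805a7) (.z (.edon 0 4 (.leaf [0,1,2,3]) (.edon 4 12 (.free 2 [4,5,7,8,9,10,11]) (.leaf [6,12,14,13])))), .r 9 (nat_lit 0x6370631062f06360635063406330632), .t 3 (nat_lit 0x60f060c) (.z (.edon 0 4 (.leaf [0,1,2,3]) (.edon 4 12 (.free 2 [4,5,6,7,9,10,11]) (.leaf [8,12,14,13])))),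 .r 10 (nat_lit 0x6390630062e063606380635063406330632)] (by decide +kernel) (by decide +kernel)) (by decide +kernel) hf hK
def s237 : DB := (N 1587 (N 1584 (N 1582 (L (nat_lit 0x400000000000000000000000000000000000000000000) (nat_lit 0x400000000000)) (N 1583 (L (nat_lit 0x400000000000) (nat_lit 0x400000000000000000000000000000000000000000000)) (L (nat_lit 0) (nat_lit 0x200000000000000000000000000000000000400000000000)))) (N 1585 (L (nat_lit 0x200000000000000000000000000000000000400000000000) (nat_lit 0)) (N 1586 (L (nat_lit 0x8000000000000000000000000000000000000000000000) (nat_lit 0)) (L (nat_lit 0x10000000000000000000000000000000000000000000000000) (nat_lit 0))))) (N 1590 (N 1588 (L (nat_lit 0x200000000000000000000000000000000000000000000000000000) (nat_lit 0)) (N 1589 (L (nat_lit 0x40000000000000) (nat_lit 0)) (L (nat_lit 9) (nat_lit 0x40000000000000)))) (N 1592 (N 1591 (L (nat_lit 0x800000000000000000000000000000000000000000200000000000000000000000000000000000000000000000) (nat_lit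 0x1100000000000000004000000000000000201010008440000000000000000000000000000000000000000001)) (L (nat_lit 0) (nat_lit 0x400000000000000000000000000000000000000000000))) (N 1593 (L (nat_lit 0x200000000000000000000000000000000000000000000400000000000000000000000000000000000000000000) (nat_lit 0x500000000000000004000000000000000201010208040000000000000000000000000000000000000000001)) (L (nat_lit 0) (nat_lit 0))))))
theorem e237 {P : ℕ → Pt} (hf : Frame 15 P) (hK : ¬ HCPle (P '' {i | i < 15}) 4) : ¬ EA [1,7,9,11] [0,2,3,4,5,6,8,10,12,13,14] P :=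
  finA (ax := AX.db) (s := s237) (A := 1581) (B := 1594) (T0 := nat_lit 0x17c002f8003006ec15f000be001c03bb00017c001002760000000000000000003b00000000001d80000ec200) (F0 := nat_lit 0xabe4000000000000001000000000000000040000000000000800000000000002004004000000000002000001148) X11.facts AX.axs (base_ent (us := X11.US) (tg := X11.BN) X11.facts (by decide +kernel))
  (Blk.of_chk [.t 1 (nat_lit 0) (.m 113), .t 1 (nat_lit 0) (.m 114), .t 1 (nat_lit 0) (.m 118), .t 1 (nat_lit 0) (.m 119), .t 1 (nat_lit 0) (.t 7 0 4 12), .t 1 (nat_lit 0) (.t 9 0 4 12), .t 1 (nat_lit 0) (.t 11 0 4 12), .t 1 (nat_lit 0) (.t 7 0 5 8), .t 3 (nat_lit 0x60004) (.z (.node 4 0 (.leaf [1,4,3,2]) (.x11 2 [0,5,6,7,8,9,10,11,12,13,14]))), .t 3 (nat_lit 0x60f060c) (.z (.edon 0 4 (.leaf [0,1,2,3]) (.edon 4 12 (.free 2 [4,5,6,7,9,10,11]) (.leaf [8,12,14,13])))), .r 9 (nat_lit 0x6300637062f06360635063406330632), .t 3 (nat_lit 0x5a805a7) (.z (.edon 0 4 (.leaf [0,1,2,3]) (.edon 4 12 (.free 2 [4,5,7,8,9,10,11]) (.leaf [6,12,14,13])))),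 .r 10 (nat_lit 0x6310639062e063606380635063406330632)] (by decide +kernel) (by decide +kernel)) (by decide +kernel) hf hK
def s238 : DB := (N 1583 (N 1582 (L (nat_lit 0x800000000000000000000000000000) (nat_lit 0)) (L (nat_lit 0x8000000000000000000000000000000000000000000000000000000000000000000000000000000000000000) (nat_lit 0))) (N 1584 (L (nat_lit 0x4000000000000000000000000000000000000000000000000000000000000000000000000000000000000000000) (nat_lit 0x8000000000000000000000000000000000000000000000000000000000800000000000000000000000000000)) (L (nat_lit 0) (nat_lit 0))))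
theorem e238 {P : ℕ → Pt} (hf : Frame 15 P) (hK : ¬ HCPle (P '' {i | i < 15}) 4) : ¬ EA [1,7,9,12] [0,2,3,4,5,6,8,10,11,13,14] P :=
  finA (ax := AX.db) (s := s238) (A := 1581) (B := 1585) (T0 := nat_lit 0x5f2f8003006ec00057cbe001c03bb000000000000000be0008013b00000003b00000000001d80000ec200) (F0 := nat_lit 0x6be0010000000000001000000000000000040000000000000000000000004002004004000000000002000001148) X11.facts AX.axs (base_ent (us := X11.US) (tg := X11.BN) X11.facts (by decide +kernel))
  (Blk.of_chk [.t 1 (nat_lit 0) (.t 9 0 8 10), .t 1 (nat_lit 0) (.t 12 0 11 14), .t 3 (nat_lit 0x62d0629) (.z (.node 0 7 (.edon 0 11 (.leaf [0,8,9,10]) (.leaf [11,12,14,13])) (.free 2 [1,2,3,4,5,6,7]))), .r 4 (nat_lit 0x630062f062e)] (by decide +kernel) (by decide +kernel)) (by decide +kernel) hf hK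
def s239 : DB := (N 1583 (N 1582 (L (nat_lit 0x800000000000000000000000000000) (nat_lit 0)) (L (nat_lit 0x4000000000000000000000000000000000000000000000000000000000000000000000000000000000000000000) (nat_lit 0))) (N 1584 (L (nat_lit 0x8000000000000000000000000000000000000000000000000000000000000000000000000000000000000000) (nat_lit 0x4000000000000000000000000000000000000000000000000000000000000800000000000000000000000000000)) (L (nat_lit 0) (nat_lit 0))))
theorem e239 {P : ℕ → Pt} (hf : Frame 15 P) (hK : ¬ HCPle (P '' {i | i < 15}) 4) : ¬ EA [1,7,9,13] [0,2,3,4,5,6,8,10,11,12,14] P :=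
  finA (ax := AX.db) (s := s239) (A := 1581) (B := 1585) (T0 := nat_lit 0x5f2f8003006ec00000000000000000af97c003807760be0008013b00000003b00000000001d80000ec200) (F0 := nat_lit 0xd7d0000000000001000000000000000000000000000000800000000004002004004000000000002000001148) X11.facts AX.axs (base_ent (us := X11.US) (tg := X11.BN) X11.facts (by decide +kernel))
  (Blk.of_chk [.t 1 (nat_lit 0) (.t 9 0 8 10), .t 1 (nat_lit 0) (.t 13 0 11 14), .t 3 (nat_lit 0x62c062a) (.z (.node 0 7 (.edon 0 11 (.leaf [0,8,9,10]) (.leaf [11,13,14,12])) (.free 2 [1,2,3,4,5,6,7]))), .r 4 (nat_lit 0x630062f062e)] (by decide +kernel) (by decide +kernel)) (by decide +kernel) hf hK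
def s240 : DB := (N 1587 (N 1584 (N 1582 (L (nat_lit 0x400000000000) (nat_lit 0x2000000000000000000000000000000000)) (N 1583 (L (nat_lit 0x4000000000000000000000000000000000) (nat_lit 0x400000000000)) (L (nat_lit 0) (nat_lit 0x1000000000000000000000000400000000000)))) (N 1585 (L (nat_lit 0x2000000000000000000000000400000000000) (nat_lit 0)) (N 1586 (L (nat_lit 0x80000000000000000000000000) (nat_lit 0)) (L (nat_lit 0x100000000000000000000000000000) (nat_lit 0))))) (N 1590 (N 1588 (L (nat_lit 0x800000000000000000000000000000) (nat_lit 0)) (N 1589 (L (nat_lit 0x2000002004000000000000000000000000) (nat_lit 0x8000000000000000000000000000000000000000000000000010002000000100080200000000000100000000000)) (L (nat_lit 0x8000000000000000000200000000000000000000000000000000000000000000000000000000000000000000000) (nat_lit 0x800000000000000000000000000000)))) (N 1591 (L (nat_lit 0x400000000000) (nat_lit 0)) (N 1592 (L (nat_lit 0x1000000002004000000000000000000000000) (nat_lit 0x8000000000000000000000000000000000000000000000000010000004000100080200000000000000000080000))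 (L (nat_lit 0) (nat_lit 0))))))
theorem e240 {P : ℕ → Pt} (hf : Frame 15 P) (hK : ¬ HCPle (P '' {i | i < 15}) 4) : ¬ EA [1,7,9,14] [0,2,3,4,5,6,8,10,11,12,13] P :=
  finA (ax := AX.db) (s := s240) (A := 1581) (B := 1593) (T0 := nat_lit 0x17cbe000c01bb0af97c003807760be0008013b00000003b00000000001d80000ec200) (F0 := nat_lit 0x35f400000000000040000000000000800000000004002004004000000000002000001148) X11.facts AX.axs (base_ent (us := X11.US) (tg := X11.BN) X11.facts (by decide +kernel))
  (Blk.of_chk [.t 1 (nat_lit 0) (.m 114), .t 1 (nat_lit 0) (.m 115), .t 1 (nat_lit 0) (.m 118), .t 1 (nat_lit 0) (.m 121), .t 1 (nat_lit 0) (.t 7 0 5 10), .t 1 (nat_lit 0) (.t 9 0 5 10), .t 1 (nat_lit 0) (.t 9 0 8 10), .t 8 (nat_lit 0x407040404020463046104350433) (.z (.node 0 11 (.leaf [0,12,13,14]) (.edon 0 4 (.leaf [1,2,3]) (.node 5 10 (.leaf [4,5,8,11,6]) (.leaf [7,9,10]))))), .t 3 (nat_lit 0x62d062b) (.z (.node 0 7 (.edon 0 11 (.leaf [0,8,9,10]) (.leaf [11,14,13,12])) (.free 2 [1,2,3,4,5,6,7]))), .r 8 (nat_lit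 0x6350631062e0636063406330632), .t 8 (nat_lit 0x4d2046404600436043204090408) (.z (.node 0 11 (.leaf [0,12,13,14]) (.edon 0 4 (.leaf [1,2,3]) (.node 5 10 (.leaf [4,5,6,11,8]) (.leaf [7,9,10]))))), .r 9 (nat_lit 0x6380630062f06360637063406330632)] (by decide +kernel) (by decide +kernel)) (by decide +kernel) hf hK
def s241 : DB := (N 1583 (N 1582 (L (nat_lit 0x40000000000000000000000000000000000000000000000000000000000000000000000000000000000) (nat_lit 0)) (L (nat_lit 0x8000000000000000000000000000000000000000000000000000000000000000000000000000000000000) (nat_lit 0))) (N 1584 (L (nat_lit 0x1002000000000000000000000000000000000000000000000000000000000000000000000000000000000000000) (nat_lit 0x8040200000000080000000000000000000100000000000000000000000000000000000000000000000000)) (L (nat_lit 0) (nat_lit 0))))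
theorem e241 {P : ℕ → Pt} (hf : Frame 15 P) (hK : ¬ HCPle (P '' {i | i < 15}) 4) : ¬ EA [1,7,10,11] [0,2,3,4,5,6,8,9,12,13,14] P :=
  finA (ax := AX.db) (s := s241) (A := 1581) (B := 1585) (T0 := nat_lit 0x17c00002f83006ec0df00000be1c03bb0000017c10027600000000000000000000000003b0001d80000ec200) (F0 := nat_lit 0x9be2000000000000001000000000000000040000000000000800000000000000000000200400400002000001148) X11.facts AX.axs (base_ent (us := X11.US) (tg := X11.BN) X11.facts (by decide +kernel))
  (Blk.of_chk [.t 1 (nat_lit 0) (.t 10 0 9 14), .t 1 (nat_lit 0) (.t 11 0 9 14), .t 3 (nat_lit 0x5f405f3) (.z (.node 0 7 (.node 9 14 (.leaf [0,8,9,12,13]) (.leaf [10,11,14])) (.free 2 [1,2,3,4,5,6,7]))), .r 4 (nat_lit 0x630062f062e)] (by decide +kernel) (by decide +kernel)) (by decide +kernel) hf hK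
def s242 : DB := (N 1583 (N 1582 (L (nat_lit 0x40000000000000000000000000000000000000000000000000000000000000000000000000000000000) (nat_lit 0)) (L (nat_lit 0x2000000000000000000000000000000000000000000000000000000000000000000000000000000000000000) (nat_lit 0))) (N 1584 (L (nat_lit 0x1000008000000000000000000000000000000000000000000000000000000000000000000000000000000000000) (nat_lit 0x2000040200000000000200000000000000000000000000000800000000000000000000000000000000000000)) (L (nat_lit 0) (nat_lit 0))))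
theorem e242 {P : ℕ → Pt} (hf : Frame 15 P) (hK : ¬ HCPle (P '' {i | i < 15}) 4) : ¬ EA [1,7,10,12] [0,2,3,4,5,6,8,9,11,13,14] P :=
  finA (ax := AX.db) (s := s242) (A := 1581) (B := 1585) (T0 := nat_lit 0x5f002f83006ec00037c00be1c03bb00000000000000000be08013b000000000000003b0001d80000ec200) (F0 := nat_lit 0x5be0008000000000001000000000000000040000000000000000000000004000000000200400400002000001148) X11.facts AX.axs (base_ent (us := X11.US) (tg := X11.BN) X11.facts (by decide +kernel))
  (Blk.of_chk [.t 1 (nat_lit 0) (.t 10 0 9 14), .t 1 (nat_lit 0) (.t 12 0 9 14), .t 3 (nat_lit 0x5f105f0) (.z (.node 0 7 (.node 9 14 (.leaf [0,8,9,11,13]) (.leaf [10,12,14])) (.free 2 [1,2,3,4,5,6,7]))), .r 4 (nat_lit 0x630062f062e)] (by decide +kernel) (by decide +kernel)) (by decide +kernel) hf hK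
def s243 : DB := (N 1583 (N 1582 (L (nat_lit 0x40000000000000000000000000000000000000000000000000000000000000000000000000000000000) (nat_lit 0)) (L (nat_lit 0x1000000000000000000000000000000000000000000000000000000000000000000000000000000000000000000) (nat_lit 0))) (N 1584 (L (nat_lit 0x2008000000000000000000000000000000000000000000000000000000000000000000000000000000000000) (nat_lit 0x1000000040200000000000000000000000004000000000000000800000000000000000000000000000000000000)) (L (nat_lit 0) (nat_lit 0))))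
theorem e243 {P : ℕ → Pt} (hf : Frame 15 P) (hK : ¬ HCPle (P '' {i | i < 15}) 4) : ¬ EA [1,7,10,13] [0,2,3,4,5,6,8,9,11,12,14] P :=
  finA (ax := AX.db) (s := s243) (A := 1581) (B := 1585) (T0 := nat_lit 0x5f002f83006ec000000000000000006f8017c380776000be08013b000000000000003b0001d80000ec200) (F0 := nat_lit 0xb7c8000000000001000000000000000000000000000000800000000004000000000200400400002000001148) X11.facts AX.axs (base_ent (us := X11.US) (tg := X11.BN) X11.facts (by decide +kernel))
  (Blk.of_chk [.t 1 (nat_lit 0) (.t 10 0 9 14), .t 1 (nat_lit 0) (.t 13 0 9 14), .t 3 (nat_lit 0x5ee05ed) (.z (.node 0 7 (.node 9 14 (.leaf [0,8,9,11,12]) (.leaf [10,13,14])) (.free 2 [1,2,3,4,5,6,7]))), .r 4 (nat_lit 0x630062f062e)] (by decide +kernel) (by decide +kernel)) (by decide +kernel) hf hK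
def s244 : DB := (N 1585 (N 1583 (N 1582 (L (nat_lit 0x40000000000000) (nat_lit 0)) (L (nat_lit 0) (nat_lit 0x400000000000000000000000000000000000000000000000000000000000000000000000000000000000000000))) (N 1584 (L (nat_lit 0x800000000000000000000000000000000000000000000000000000000000000000) (nat_lit 0)) (L (nat_lit 0x1000000000000000000000000000000000000000000000000000000000000000000) (nat_lit 0)))) (N 1587 (N 1586 (L (nat_lit 9) (nat_lit 0x40000000000000)) (L (nat_lit 0x1000000000000000000080200000000000000000000000000000000000000000000000000000000000000000000) (nat_lit 0x1008000000004000000000000000800000000000000000000000000000000000000))) (N 1588 (L (nat_lit 0x40200000000000000000000000000000000000000000000000000000000000000000000) (nat_lit 0x801000000000000000000101808000000000000000000000000000000000000000000000000000000000000000)) (N 1589 (L (nat_lit 0x1000000000000000080200004000000000000000000000000000000000000000000000000000000000000000) (nat_lit 0x5000000000000000000000101008000000000000000000000000000000000000000000000000000000000000001))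 (L (nat_lit 0) (nat_lit 0))))))
theorem e244 {P : ℕ → Pt} (hf : Frame 15 P) (hK : ¬ HCPle (P '' {i | i < 15}) 4) : ¬ EA [1,7,10,14] [0,2,3,4,5,6,8,9,11,12,13] P :=
  finA (ax := AX.db) (s := s244) (A := 1581) (B := 1590) (T0 := nat_lit 0x17c00be0c01bb06f8017c380776000be08013b000000000000003b0001d80000ec200) (F0 := nat_lit 0x2df200000000000040000000000000800000000004000000000200400400002000001148) X11.facts AX.axs (base_ent (us := X11.US) (tg := X11.BN) X11.facts (by decide +kernel))
  (Blk.of_chk [.t 1 (nat_lit 0) (.t 7 0 5 8), .t 1 (nat_lit 0) (.c 7 14 0 13), .t 1 (nat_lit 0) (.t 10 0 8 13), .t 1 (nat_lit 0) (.t 10 0 9 13), .t 3 (nat_lit 0x60004) (.z (.node 4 0 (.leaf [1,4,3,2]) (.x11 2 [0,5,6,7,8,9,10,11,12,13,14]))), .t 3 (nat_lit 0x5ee05ed) (.z (.node 0 7 (.node 9 13 (.leaf [0,8,9,11,12]) (.leaf [10,13,14])) (.free 2 [1,2,3,4,5,6,7]))), .t 3 (nat_lit 0x6150614) (.z (.node 0 7 (.node 8 13 (.leaf [0,8,12,14]) (.leaf [9,10,13,11])) (.free 2 [1,2,3,4,5,6,7]))), .t 8 (nat_lit 0x60906080607060e060d060b060a)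 (.z (.edon 0 4 (.leaf [0,1,2,3]) (.edon 0 7 (.leaf [4,5,6]) (.edon 9 13 (.leaf [7,9,10]) (.leaf [8,11,13,14,12]))))), .r 12 (nat_lit 0x6340635061f05f905d40633063206310630062f062e)] (by decide +kernel) (by decide +kernel)) (by decide +kernel) hf hK
def s245 : DB := (N 1583 (N 1582 (L (nat_lit 0x8000000000000000000000000000000000000000000000000000000000000000000000000000000000000) (nat_lit 0)) (L (nat_lit 0x2000000000000000000000000000000000000000000000000000000000000000000000000000000000000000) (nat_lit 0))) (N 1584 (L (nat_lit 0x1000000040000000000000000000000000000000000000000000000000000000000000000000000000000000000) (nat_lit 0x2008000200000000000001000000000000000000000000000000000000800000000000000000000000000000)) (L (nat_lit 0) (nat_lit 0))))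
theorem e245 {P : ℕ → Pt} (hf : Frame 15 P) (hK : ¬ HCPle (P '' {i | i < 15}) 4) : ¬ EA [1,7,11,12] [0,2,3,4,5,6,8,9,10,13,14] P :=
  finA (ax := AX.db) (s := s245) (A := 1581) (B := 1585) (T0 := nat_lit 0x2faf83006ec000001bebe1c03bb00000000000000000000000000be08013b000003b0001d80000ec200) (F0 := nat_lit 0x3be0000040000000001000000000000000040000000000000000000000000000000004200400400002000001148) X11.facts AX.axs (base_ent (us := X11.US) (tg := X11.BN) X11.facts (by decide +kernel))
  (Blk.of_chk [.t 1 (nat_lit 0) (.t 11 0 9 14), .t 1 (nat_lit 0) (.t 12 0 9 14), .t 3 (nat_lit 0x5eb05ea) (.z (.node 0 7 (.node 9 14 (.leaf [0,8,9,10,13]) (.leaf [11,12,14])) (.free 2 [1,2,3,4,5,6,7]))), .r 4 (nat_lit 0x630062f062e)] (by decide +kernel) (by decide +kernel)) (by decide +kernel) hf hK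
def s246 : DB := (N 1583 (N 1582 (L (nat_lit 0x8000000000000000000000000000000000000000000000000000000000000000000000000000000000000) (nat_lit 0)) (L (nat_lit 0x1000000000000000000000000000000000000000000000000000000000000000000000000000000000000000000) (nat_lit 0))) (N 1584 (L (nat_lit 0x2000040000000000000000000000000000000000000000000000000000000000000000000000000000000000) (nat_lit 0x1000008000200000000000000000000000000020000000000000000000000800000000000000000000000000000)) (L (nat_lit 0) (nat_lit 0))))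
theorem e246 {P : ℕ → Pt} (hf : Frame 15 P) (hK : ¬ HCPle (P '' {i | i < 15}) 4) : ¬ EA [1,7,11,13] [0,2,3,4,5,6,8,9,10,12,14] P :=
  finA (ax := AX.db) (s := s246) (A := 1581) (B := 1585) (T0 := nat_lit 0x2faf83006ec000000000000000000037d7c380776000000000000be08013b000003b0001d80000ec200) (F0 := nat_lit 0x77c0040000000001000000000000000000000000000000800000000000000000004200400400002000001148) X11.facts AX.axs (base_ent (us := X11.US) (tg := X11.BN) X11.facts (by decide +kernel))
  (Blk.of_chk [.t 1 (nat_lit 0) (.t 11 0 9 14), .t 1 (nat_lit 0) (.t 13 0 9 14), .t 3 (nat_lit 0x5e905e8) (.z (.node 0 7 (.node 9 14 (.leaf [0,8,9,10,12]) (.leaf [11,13,14])) (.free 2 [1,2,3,4,5,6,7]))), .r 4 (nat_lit 0x630062f062e)] (by decide +kernel) (by decide +kernel)) (by decide +kernel) hf hK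
def s247 : DB := (N 1584 (N 1582 (L (nat_lit 0x4000000000000000000000000000000000000000000000000000000000000000000) (nat_lit 0)) (N 1583 (L (nat_lit 0x2000000000000000000000000000000000000000000000000000000) (nat_lit 0)) (L (nat_lit 0x4000000000000000000000000000000000000000000000000000000) (nat_lit 0)))) (N 1586 (N 1585 (L (nat_lit 0x8000000000000000000000000000000000000000000000000000000) (nat_lit 0)) (L (nat_lit 0) (nat_lit 0x8000000000000000000000000000000000000000000000000000000000000000000000000000000000000000))) (N 1587 (L (nat_lit 0x8000000000000000200000000000000000000000000000000000000000000000000000000000000000000000) (nat_lit 0xe020000000000000000000000800000000000000000000000000000)) (L (nat_lit 0) (nat_lit 0)))))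
theorem e247 {P : ℕ → Pt} (hf : Frame 15 P) (hK : ¬ HCPle (P '' {i | i < 15}) 4) : ¬ EA [1,7,11,14] [0,2,3,4,5,6,8,9,10,12,13] P :=
  finA (ax := AX.db) (s := s247) (A := 1581) (B := 1588) (T0 := nat_lit 0xbebe0c01bb00037d7c380776000000000000be08013b000003b0001d80000ec200) (F0 := nat_lit 0x1df001000000000040000000000000800000000000000000004200400400002000001148) X11.facts AX.axs (base_ent (us := X11.US) (tg := X11.BN) X11.facts (by decide +kernel))
  (Blk.of_chk [.t 1 (nat_lit 0) (.t 11 0 2 13), .t 1 (nat_lit 0) (.t 11 0 8 12), .t 1 (nat_lit 0) (.t 11 0 9 12), .t 1 (nat_lit 0) (.t 11 0 10 12), .t 1 (nat_lit 0) (.c 11 14 0 12), .t 3 (nat_lit 0x5e905e8) (.z (.node 0 7 (.edon 11 12 (.leaf [11,13,14]) (.leaf [0,8,9,10,12])) (.free 2 [1,2,3,4,5,6,7]))), .r 8 (nat_lit 0x2b40633063206310630062f062e)] (by decide +kernel) (by decide +kernel)) (by decide +kernel) hf hK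
def s248 : DB := (N 1582 (L (nat_lit 0) (nat_lit 0x100000000000800000000000000000000000000000)) (L (nat_lit 0) (nat_lit 0)))
theorem e248 {P : ℕ → Pt} (hf : Frame 15 P) (hK : ¬ HCPle (P '' {i | i < 15}) 4) : ¬ EA [1,7,12,13] [0,2,3,4,5,6,8,9,10,11,14] P :=
  finA (ax := AX.db) (s := s248) (A := 1581) (B := 1583) (T0 := nat_lit 0x2faf83006ec0000000000000000000000000000001bebe1c03bb0be08013b000003b0001d80000ec200) (F0 := nat_lit 0x1df40000000001000000000000000000000000000000000000000004000000004200400400002000001148) X11.facts AX.axs (base_ent (us := X11.US) (tg := X11.BN) X11.facts (by decide +kernel))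
  (Blk.of_chk [.t 3 (nat_lit 0x5e605e5) (.z (.node 0 7 (.edon 0 12 (.leaf [0,8,9,10,11]) (.leaf [12,13,14])) (.free 2 [1,2,3,4,5,6,7]))), .r 2 (nat_lit 0x62e)] (by decide +kernel) (by decide +kernel)) (by decide +kernel) hf hK
def s249 : DB := (N 1582 (L (nat_lit 0) (nat_lit 0x100000000000800000000000000000000000000000)) (L (nat_lit 0) (nat_lit 0)))
theorem e249 {P : ℕ → Pt} (hf : Frame 15 P) (hK : ¬ HCPle (P '' {i | i < 15}) 4) : ¬ EA [1,7,12,14] [0,2,3,4,5,6,8,9,10,11,13] P :=
  finA (ax := AX.db) (s := s249) (A := 1581) (B := 1583) (T0 := nat_lit 0xbebe0c01bb000000000000001bebe1c03bb0be08013b000003b0001d80000ec200) (F0 := nat_lit 0x77d000000000040000000000000000000000004000000004200400400002000001148) X11.facts AX.axs (base_ent (us := X11.US) (tg := X11.BN) X11.facts (by decide +kernel))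
  (Blk.of_chk [.t 3 (nat_lit 0x5e605e5) (.z (.node 0 7 (.edon 0 12 (.leaf [0,8,9,10,11]) (.leaf [12,13,14])) (.free 2 [1,2,3,4,5,6,7]))), .r 2 (nat_lit 0x62e)] (by decide +kernel) (by decide +kernel)) (by decide +kernel) hf hK
def s250 : DB := (N 1582 (L (nat_lit 0) (nat_lit 0x100000000000800000000000000000000000000000)) (L (nat_lit 0) (nat_lit 0)))
theorem e250 {P : ℕ → Pt} (hf : Frame 15 P) (hK : ¬ HCPle (P '' {i | i < 15}) 4) : ¬ EA [1,7,13,14] [0,2,3,4,5,6,8,9,10,11,12] P :=
  finA (ax := AX.db) (s := s250) (A := 1581) (B := 1583) (T0 := nat_lit 0x17d7c1803761bebe1c03bb0be08013b000003b0001d80000ec200) (F0 := nat_lit 0xefa0000000000800000000004000000004200400400002000001148) X11.facts AX.axs (base_ent (us := X11.US) (tg := X11.BN) X11.facts (by decide +kernel))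
  (Blk.of_chk [.t 3 (nat_lit 0x5e605e5) (.z (.node 0 7 (.edon 0 12 (.leaf [0,8,9,10,11]) (.leaf [12,13,14])) (.free 2 [1,2,3,4,5,6,7]))), .r 2 (nat_lit 0x62e)] (by decide +kernel) (by decide +kernel)) (by decide +kernel) hf hK
def s251 : DB := (N 1583 (N 1582 (L (nat_lit 0x80000000) (nat_lit 0x100000000)) (L (nat_lit 0x400000000) (nat_lit 0x80000000))) (N 1584 (L (nat_lit 0) (nat_lit 0x400080000)) (N 1585 (L (nat_lit 0x100000000) (nat_lit 0x20000200)) (L (nat_lit 0) (nat_lit 0)))))
theorem e251 {P : ℕ → Pt} (hf : Frame 15 P) (hK : ¬ HCPle (P '' {i | i < 15}) 4) : ¬ EA [1,8,9,10] [0,2,3,4,5,6,7,11,12,13,14] P :=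
  finA (ax := AX.db) (s := s251) (A := 1581) (B := 1586) (T0 := nat_lit 0xfc3f0000000c6ec23f0fc00000073bb01f800000042760000000003b000000000000000000000003b0ec200) (F0 := nat_lit 0xc7e8000000000000001000000000000000040000000000000800000084004000000000000000000000000401148) X11.facts AX.axs (base_ent (us := X11.US) (tg := X11.BN) X11.facts (by decide +kernel))
  (Blk.of_chk [.t 1 (nat_lit 0) (.m 95), .t 1 (nat_lit 0) (.m 98), .t 3 (nat_lit 0x3ff03fd) (.z (.edon 0 8 (.node 0 3 (.leaf [0,4,5,6,7]) (.leaf [1,2,3])) (.free 2 [8,9,10,11,12,13,14]))), .t 8 (nat_lit 0x4000339033402e002db02c002be) (.z (.edon 0 8 (.edon 0 3 (.leaf [0,1,2]) (.leaf [3,4,5,7,6])) (.free 2 [8,9,10,11,12,13,14]))), .r 5 (nat_lit 0x62e062f06310630)] (by decide +kernel) (by decide +kernel)) (by decide +kernel) hf hK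
def s252 : DB := (N 1583 (N 1582 (L (nat_lit 0x80000000) (nat_lit 0x100000000)) (L (nat_lit 0x400000000) (nat_lit 0x80000000))) (N 1584 (L (nat_lit 0) (nat_lit 0x400080000)) (N 1585 (L (nat_lit 0x100000000) (nat_lit 0x20000200)) (L (nat_lit 0) (nat_lit 0)))))
theorem e252 {P : ℕ → Pt} (hf : Frame 15 P) (hK : ¬ HCPle (P '' {i | i < 15}) 4) : ¬ EA [1,8,9,11] [0,2,3,4,5,6,7,10,12,13,14] P :=
  finA (ax := AX.db) (s := s252) (A := 1581) (B := 1586) (T0 := nat_lit 0xfc001f80000c6ec13f0007e000073bb0000fc000042760000000000000000003b000000000000003b0ec200) (F0 := nat_lit 0xa7e4000000000000001000000000000000040000000000000800000000000000084004000000000000000401148) X11.facts AX.axs (base_ent (us := X11.US) (tg := X11.BN) X11.facts (by decide +kernel))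
  (Blk.of_chk [.t 1 (nat_lit 0) (.m 95), .t 1 (nat_lit 0) (.m 98), .t 3 (nat_lit 0x3ff03fd) (.z (.edon 0 8 (.node 0 3 (.leaf [0,4,5,6,7]) (.leaf [1,2,3])) (.free 2 [8,9,10,11,12,13,14]))), .t 8 (nat_lit 0x4000339033402e002db02c002be) (.z (.edon 0 8 (.edon 0 3 (.leaf [0,1,2]) (.leaf [3,4,5,7,6])) (.free 2 [8,9,10,11,12,13,14]))), .r 5 (nat_lit 0x62e062f06310630)] (by decide +kernel) (by decide +kernel)) (by decide +kernel) hf hK
def s253 : DB := (N 1582 (L (nat_lit 0x8000000000000000000000000000000000000000000000000000000000000000000000000000000000000000) (nat_lit 0)) (N 1583 (L (nat_lit 0x4000000000000000000000000000000000000000000000000000000000000000000000000000000000000000008) (nat_lit 0x8000000000000000000000000000000000000000000000000000000000000000000000000000000000000000)) (L (nat_lit 0) (nat_lit 0))))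
theorem e253 {P : ℕ → Pt} (hf : Frame 15 P) (hK : ¬ HCPle (P '' {i | i < 15}) 4) : ¬ EA [1,8,9,12] [0,2,3,4,5,6,7,10,11,13,14] P :=
  finA (ax := AX.db) (s := s253) (A := 1581) (B := 1584) (T0 := nat_lit 0x3f1f80000c6ec0004fc7e000073bb0000000000000007e0000213b00000003b000000000000003b0ec200) (F0 := nat_lit 0x67e0010000000000001000000000000000040000000000000000000000004000084004000000000000000401148) X11.facts AX.axs (base_ent (us := X11.US) (tg := X11.BN) X11.facts (by decide +kernel))
  (Blk.of_chk [.t 1 (nat_lit 0) (.t 12 0 11 14), .t 3 (nat_lit 0x62d0629) (.z (.edon 0 11 (.x11 3 [0,1,2,3,4,5,6,7,8,9,10]) (.leaf [11,12,14,13]))), .r 3 (nat_lit 0x62f062e)] (by decide +kernel) (by decide +kernel)) (by decide +kernel) hf hK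
def s254 : DB := (N 1582 (L (nat_lit 0x4000000000000000000000000000000000000000000000000000000000000000000000000000000000000000000) (nat_lit 0)) (N 1583 (L (nat_lit 0x8000000000000000000000000000000000000000000000000000000000000000000000000000000000000008) (nat_lit 0x4000000000000000000000000000000000000000000000000000000000000000000000000000000000000000000)) (L (nat_lit 0) (nat_lit 0))))
theorem e254 {P : ℕ → Pt} (hf : Frame 15 P) (hK : ¬ HCPle (P '' {i | i < 15}) 4) : ¬ EA [1,8,9,13] [0,2,3,4,5,6,7,10,11,12,14] P :=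
  finA (ax := AX.db) (s := s254) (A := 1581) (B := 1584) (T0 := nat_lit 0x3f1f80000c6ec000000000000000009f8fc0000e77607e0000213b00000003b000000000000003b0ec200) (F0 := nat_lit 0xcfd0000000000001000000000000000000000000000000800000000004000084004000000000000000401148) X11.facts AX.axs (base_ent (us := X11.US) (tg := X11.BN) X11.facts (by decide +kernel))
  (Blk.of_chk [.t 1 (nat_lit 0) (.t 13 0 11 14), .t 3 (nat_lit 0x62c062a) (.z (.edon 0 11 (.x11 3 [0,1,2,3,4,5,6,7,8,9,10]) (.leaf [11,13,14,12]))), .r 3 (nat_lit 0x62f062e)] (by decide +kernel) (by decide +kernel)) (by decide +kernel) hf hK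
def s255 : DB := (N 1583 (N 1582 (L (nat_lit 0x80000000) (nat_lit 0x100000000)) (L (nat_lit 0x400000000) (nat_lit 0x80000000))) (N 1584 (L (nat_lit 0) (nat_lit 0x400080000)) (N 1585 (L (nat_lit 0x100000000) (nat_lit 0x20000200)) (L (nat_lit 0) (nat_lit 0)))))
theorem e255 {P : ℕ → Pt} (hf : Frame 15 P) (hK : ¬ HCPle (P '' {i | i < 15}) 4) : ¬ EA [1,8,9,14] [0,2,3,4,5,6,7,10,11,12,13] P :=
  finA (ax := AX.db) (s := s255) (A := 1581) (B := 1586) (T0 := nat_lit 0xfc7e000031bb09f8fc0000e77607e0000213b00000003b000000000000003b0ec200) (F0 := nat_lit 0x33f400000000000040000000000000800000000004000084004000000000000000401148) X11.facts AX.axs (base_ent (us := X11.US) (tg := X11.BN) X11.facts (by decide +kernel))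
  (Blk.of_chk [.t 1 (nat_lit 0) (.m 95), .t 1 (nat_lit 0) (.m 98), .t 3 (nat_lit 0x3ff03fd) (.z (.edon 0 8 (.node 0 3 (.leaf [0,4,5,6,7]) (.leaf [1,2,3])) (.free 2 [8,9,10,11,12,13,14]))), .t 8 (nat_lit 0x4000339033402e002db02c002be) (.z (.edon 0 8 (.edon 0 3 (.leaf [0,1,2]) (.leaf [3,4,5,7,6])) (.free 2 [8,9,10,11,12,13,14]))), .r 5 (nat_lit 0x62e062f06310630)] (by decide +kernel) (by decide +kernel)) (by decide +kernel) hf hK
def s256 : DB := (N 1583 (N 1582 (L (nat_lit 0x80000000) (nat_lit 0x100000000)) (L (nat_lit 0x400000000) (nat_lit 0x80000000))) (N 1584 (L (nat_lit 0) (nat_lit 0x400080000)) (N 1585 (L (nat_lit 0x100000000) (nat_lit 0x20000200)) (L (nat_lit 0) (nat_lit 0)))))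
theorem e256 {P : ℕ → Pt} (hf : Frame 15 P) (hK : ¬ HCPle (P '' {i | i < 15}) 4) : ¬ EA [1,8,10,11] [0,2,3,4,5,6,7,9,12,13,14] P :=
  finA (ax := AX.db) (s := s256) (A := 1581) (B := 1586) (T0 := nat_lit 0xfc00001f800c6ec0bf000007e0073bb000000fc00427600000000000000000000000003b00000003b0ec200) (F0 := nat_lit 0x97e2000000000000001000000000000000040000000000000800000000000000000000008400400000000401148) X11.facts AX.axs (base_ent (us := X11.US) (tg := X11.BN) X11.facts (by decide +kernel))
  (Blk.of_chk [.t 1 (nat_lit 0) (.m 95), .t 1 (nat_lit 0) (.m 98), .t 3 (nat_lit 0x3ff03fd) (.z (.edon 0 8 (.node 0 3 (.leaf [0,4,5,6,7]) (.leaf [1,2,3])) (.free 2 [8,9,10,11,12,13,14]))), .t 8 (nat_lit 0x4000339033402e002db02c002be) (.z (.edon 0 8 (.edon 0 3 (.leaf [0,1,2]) (.leaf [3,4,5,7,6])) (.free 2 [8,9,10,11,12,13,14]))), .r 5 (nat_lit 0x62e062f06310630)] (by decide +kernel) (by decide +kernel)) (by decide +kernel) hf hK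
def s257 : DB := (N 1582 (L (nat_lit 0x8000000000000000000000000000000000000000000000000000000000000000000000000000000000000000) (nat_lit 0)) (N 1583 (L (nat_lit 0x4000000000000000000000000000000000000000000000000000000000000000000000000000000000000000008) (nat_lit 0x8000000000000000000000000000000000000000000000000000000000000000000000000000000000000000)) (L (nat_lit 0) (nat_lit 0))))
theorem e257 {P : ℕ → Pt} (hf : Frame 15 P) (hK : ¬ HCPle (P '' {i | i < 15}) 4) : ¬ EA [1,8,10,12] [0,2,3,4,5,6,7,9,11,13,14] P :=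
  finA (ax := AX.db) (s := s257) (A := 1581) (B := 1584) (T0 := nat_lit 0x3f001f800c6ec0002fc007e0073bb000000000000000007e00213b000000000000003b00000003b0ec200) (F0 := nat_lit 0x57e0008000000000001000000000000000040000000000000000000000004000000000008400400000000401148) X11.facts AX.axs (base_ent (us := X11.US) (tg := X11.BN) X11.facts (by decide +kernel))
  (Blk.of_chk [.t 1 (nat_lit 0) (.t 12 0 11 14), .t 3 (nat_lit 0x62d0629) (.z (.edon 0 11 (.x11 3 [0,1,2,3,4,5,6,7,8,9,10]) (.leaf [11,12,14,13]))), .r 3 (nat_lit 0x62f062e)] (by decide +kernel) (by decide +kernel)) (by decide +kernel) hf hK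
def s258 : DB := (N 1582 (L (nat_lit 0x4000000000000000000000000000000000000000000000000000000000000000000000000000000000000000000) (nat_lit 0)) (N 1583 (L (nat_lit 0x8000000000000000000000000000000000000000000000000000000000000000000000000000000000000008) (nat_lit 0x4000000000000000000000000000000000000000000000000000000000000000000000000000000000000000000)) (L (nat_lit 0) (nat_lit 0))))
theorem e258 {P : ℕ → Pt} (hf : Frame 15 P) (hK : ¬ HCPle (P '' {i | i < 15}) 4) : ¬ EA [1,8,10,13] [0,2,3,4,5,6,7,9,11,12,14] P :=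
  finA (ax := AX.db) (s := s258) (A := 1581) (B := 1584) (T0 := nat_lit 0x3f001f800c6ec000000000000000005f800fc00e7760007e00213b000000000000003b00000003b0ec200) (F0 := nat_lit 0xafc8000000000001000000000000000000000000000000800000000004000000000008400400000000401148) X11.facts AX.axs (base_ent (us := X11.US) (tg := X11.BN) X11.facts (by decide +kernel))
  (Blk.of_chk [.t 1 (nat_lit 0) (.t 13 0 11 14), .t 3 (nat_lit 0x62c062a) (.z (.edon 0 11 (.x11 3 [0,1,2,3,4,5,6,7,8,9,10]) (.leaf [11,13,14,12]))), .r 3 (nat_lit 0x62f062e)] (by decide +kernel) (by decide +kernel)) (by decide +kernel) hf hK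
def s259 : DB := (N 1583 (N 1582 (L (nat_lit 0x80000000) (nat_lit 0x100000000)) (L (nat_lit 0x400000000) (nat_lit 0x80000000))) (N 1584 (L (nat_lit 0) (nat_lit 0x400080000)) (N 1585 (L (nat_lit 0x100000000) (nat_lit 0x20000200)) (L (nat_lit 0) (nat_lit 0)))))
theorem e259 {P : ℕ → Pt} (hf : Frame 15 P) (hK : ¬ HCPle (P '' {i | i < 15}) 4) : ¬ EA [1,8,10,14] [0,2,3,4,5,6,7,9,11,12,13] P :=
  finA (ax := AX.db) (s := s259) (A := 1581) (B := 1586) (T0 := nat_lit 0xfc007e0031bb05f800fc00e7760007e00213b000000000000003b00000003b0ec200) (F0 := nat_lit 0x2bf200000000000040000000000000800000000004000000000008400400000000401148) X11.facts AX.axs (base_ent (us := X11.US) (tg := X11.BN) X11.facts (by decide +kernel))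
  (Blk.of_chk [.t 1 (nat_lit 0) (.m 95), .t 1 (nat_lit 0) (.m 98), .t 3 (nat_lit 0x3ff03fd) (.z (.edon 0 8 (.node 0 3 (.leaf [0,4,5,6,7]) (.leaf [1,2,3])) (.free 2 [8,9,10,11,12,13,14]))), .t 8 (nat_lit 0x4000339033402e002db02c002be) (.z (.edon 0 8 (.edon 0 3 (.leaf [0,1,2]) (.leaf [3,4,5,7,6])) (.free 2 [8,9,10,11,12,13,14]))), .r 5 (nat_lit 0x62e062f06310630)] (by decide +kernel) (by decide +kernel)) (by decide +kernel) hf hK
def s260 : DB := (N 1583 (N 1582 (L (nat_lit 0x80000000) (nat_lit 0x100000000)) (L (nat_lit 0x400000000) (nat_lit 0x80000000))) (N 1584 (L (nat_lit 0) (nat_lit 0x400080000)) (N 1585 (L (nat_lit 0x100000000) (nat_lit 0x20000200)) (L (nat_lit 0) (nat_lit 0)))))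
theorem e260 {P : ℕ → Pt} (hf : Frame 15 P) (hK : ¬ HCPle (P '' {i | i < 15}) 4) : ¬ EA [1,8,11,12] [0,2,3,4,5,6,7,9,10,13,14] P :=
  finA (ax := AX.db) (s := s260) (A := 1581) (B := 1586) (T0 := nat_lit 0x1f9f800c6ec0000017e7e0073bb000000000000000000000000007e00213b000003b00000003b0ec200) (F0 := nat_lit 0x37e0000040000000001000000000000000040000000000000000000000000000000004008400400000000401148) X11.facts AX.axs (base_ent (us := X11.US) (tg := X11.BN) X11.facts (by decide +kernel))
  (Blk.of_chk [.t 1 (nat_lit 0) (.m 95), .t 1 (nat_lit 0) (.m 98), .t 3 (nat_lit 0x3ff03fd) (.z (.edon 0 8 (.node 0 3 (.leaf [0,4,5,6,7]) (.leaf [1,2,3])) (.free 2 [8,9,10,11,12,13,14]))), .t 8 (nat_lit 0x4000339033402e002db02c002be) (.z (.edon 0 8 (.edon 0 3 (.leaf [0,1,2]) (.leaf [3,4,5,7,6])) (.free 2 [8,9,10,11,12,13,14]))), .r 5 (nat_lit 0x62e062f06310630)] (by decide +kernel) (by decide +kernel)) (by decide +kernel) hf hK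
def s261 : DB := (N 1583 (N 1582 (L (nat_lit 0x80000000) (nat_lit 0x100000000)) (L (nat_lit 0x400000000) (nat_lit 0x80000000))) (N 1584 (L (nat_lit 0x100000000) (nat_lit 0x20000200)) (N 1585 (L (nat_lit 0) (nat_lit 0x400080000)) (L (nat_lit 0) (nat_lit 0)))))
theorem e261 {P : ℕ → Pt} (hf : Frame 15 P) (hK : ¬ HCPle (P '' {i | i < 15}) 4) : ¬ EA [1,8,11,13] [0,2,3,4,5,6,7,9,10,12,14] P :=
  finA (ax := AX.db) (s := s261) (A := 1581) (B := 1586) (T0 := nat_lit 0x1f9f800c6ec00000000000000000002fcfc00e7760000000000007e00213b000003b00000003b0ec200) (F0 := nat_lit 0x6fc0040000000001000000000000000000000000000000800000000000000000004008400400000000401148) X11.facts AX.axs (base_ent (us := X11.US) (tg := X11.BN) X11.facts (by decide +kernel))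
  (Blk.of_chk [.t 1 (nat_lit 0) (.m 95), .t 1 (nat_lit 0) (.m 98), .t 8 (nat_lit 0x4000339033402e002db02c002be) (.z (.edon 0 8 (.edon 0 3 (.leaf [0,1,2]) (.leaf [3,4,5,7,6])) (.free 2 [8,9,10,11,12,13,14]))), .t 3 (nat_lit 0x3ff03fd) (.z (.edon 0 8 (.node 0 3 (.leaf [0,4,5,6,7]) (.leaf [1,2,3])) (.free 2 [8,9,10,11,12,13,14]))), .r 5 (nat_lit 0x62e062f06300631)] (by decide +kernel) (by decide +kernel)) (by decide +kernel) hf hK
def s262 : DB := (N 1583 (N 1582 (L (nat_lit 0x80000000) (nat_lit 0x100000000)) (L (nat_lit 0x400000000) (nat_lit 0x80000000))) (N 1584 (L (nat_lit 0) (nat_lit 0x400080000)) (N 1585 (L (nat_lit 0x100000000) (nat_lit 0x20000200)) (L (nat_lit 0) (nat_lit 0)))))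
theorem e262 {P : ℕ → Pt} (hf : Frame 15 P) (hK : ¬ HCPle (P '' {i | i < 15}) 4) : ¬ EA [1,8,11,14] [0,2,3,4,5,6,7,9,10,12,13] P :=
  finA (ax := AX.db) (s := s262) (A := 1581) (B := 1586) (T0 := nat_lit 0x7e7e0031bb0002fcfc00e7760000000000007e00213b000003b00000003b0ec200) (F0 := nat_lit 0x1bf001000000000040000000000000800000000000000000004008400400000000401148) X11.facts AX.axs (base_ent (us := X11.US) (tg := X11.BN) X11.facts (by decide +kernel))
  (Blk.of_chk [.t 1 (nat_lit 0) (.m 95), .t 1 (nat_lit 0) (.m 98), .t 3 (nat_lit 0x3ff03fd) (.z (.edon 0 8 (.node 0 3 (.leaf [0,4,5,6,7]) (.leaf [1,2,3])) (.free 2 [8,9,10,11,12,13,14]))), .t 8 (nat_lit 0x4000339033402e002db02c002be) (.z (.edon 0 8 (.edon 0 3 (.leaf [0,1,2]) (.leaf [3,4,5,7,6])) (.free 2 [8,9,10,11,12,13,14]))), .r 5 (nat_lit 0x62e062f06310630)] (by decide +kernel) (by decide +kernel)) (by decide +kernel) hf hK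
def s263 : DB := (N 1583 (N 1582 (L (nat_lit 0x80000000) (nat_lit 0x100000000)) (L (nat_lit 0x400000000) (nat_lit 0x80000000))) (N 1584 (L (nat_lit 0) (nat_lit 0x400080000)) (N 1585 (L (nat_lit 0x100000000) (nat_lit 0x20000200)) (L (nat_lit 0) (nat_lit 0)))))
theorem e263 {P : ℕ → Pt} (hf : Frame 15 P) (hK : ¬ HCPle (P '' {i | i < 15}) 4) : ¬ EA [1,8,12,13] [0,2,3,4,5,6,7,9,10,11,14] P :=
  finA (ax := AX.db) (s := s263) (A := 1581) (B := 1586) (T0 := nat_lit 0x1f9f800c6ec00000000000000000000000000000017e7e0073bb07e00213b000003b00000003b0ec200) (F0 := nat_lit 0x1bf40000000001000000000000000000000000000000000000000004000000004008400400000000401148) X11.facts AX.axs (base_ent (us := X11.US) (tg := X11.BN) X11.facts (by decide +kernel))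
  (Blk.of_chk [.t 1 (nat_lit 0) (.m 95), .t 1 (nat_lit 0) (.m 98), .t 3 (nat_lit 0x3ff03fd) (.z (.edon 0 8 (.node 0 3 (.leaf [0,4,5,6,7]) (.leaf [1,2,3])) (.free 2 [8,9,10,11,12,13,14]))), .t 8 (nat_lit 0x4000339033402e002db02c002be) (.z (.edon 0 8 (.edon 0 3 (.leaf [0,1,2]) (.leaf [3,4,5,7,6])) (.free 2 [8,9,10,11,12,13,14]))), .r 5 (nat_lit 0x62e062f06310630)] (by decide +kernel) (by decide +kernel)) (by decide +kernel) hf hK
def s264 : DB := (N 1583 (N 1582 (L (nat_lit 0x80000000) (nat_lit 0x100000000)) (L (nat_lit 0x400000000) (nat_lit 0x80000000))) (N 1584 (L (nat_lit 0) (nat_lit 0x400080000)) (N 1585 (L (nat_lit 0x100000000) (nat_lit 0x20000200)) (L (nat_lit 0) (nat_lit 0)))))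
theorem e264 {P : ℕ → Pt} (hf : Frame 15 P) (hK : ¬ HCPle (P '' {i | i < 15}) 4) : ¬ EA [1,8,12,14] [0,2,3,4,5,6,7,9,10,11,13] P :=
  finA (ax := AX.db) (s := s264) (A := 1581) (B := 1586) (T0 := nat_lit 0x7e7e0031bb0000000000000017e7e0073bb07e00213b000003b00000003b0ec200) (F0 := nat_lit 0x6fd000000000040000000000000000000000004000000004008400400000000401148) X11.facts AX.axs (base_ent (us := X11.US) (tg := X11.BN) X11.facts (by decide +kernel))
  (Blk.of_chk [.t 1 (nat_lit 0) (.m 95), .t 1 (nat_lit 0) (.m 98), .t 3 (nat_lit 0x3ff03fd) (.z (.edon 0 8 (.node 0 3 (.leaf [0,4,5,6,7]) (.leaf [1,2,3])) (.free 2 [8,9,10,11,12,13,14]))), .t 8 (nat_lit 0x4000339033402e002db02c002be) (.z (.edon 0 8 (.edon 0 3 (.leaf [0,1,2]) (.leaf [3,4,5,7,6])) (.free 2 [8,9,10,11,12,13,14]))), .r 5 (nat_lit 0x62e062f06310630)] (by decide +kernel) (by decide +kernel)) (by decide +kernel) hf hK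
def s265 : DB := (N 1583 (N 1582 (L (nat_lit 0x80000000) (nat_lit 0x100000000)) (L (nat_lit 0x400000000) (nat_lit 0x80000000))) (N 1584 (L (nat_lit 0x100000000) (nat_lit 0x20000200)) (N 1585 (L (nat_lit 0) (nat_lit 0x400080000)) (L (nat_lit 0) (nat_lit 0)))))
theorem e265 {P : ℕ → Pt} (hf : Frame 15 P) (hK : ¬ HCPle (P '' {i | i < 15}) 4) : ¬ EA [1,8,13,14] [0,2,3,4,5,6,7,9,10,11,12] P :=
  finA (ax := AX.db) (s := s265) (A := 1581) (B := 1586) (T0 := nat_lit 0xfcfc00637617e7e0073bb07e00213b000003b00000003b0ec200) (F0 := nat_lit 0xdfa0000000000800000000004000000004008400400000000401148) X11.facts AX.axs (base_ent (us := X11.US) (tg := X11.BN) X11.facts (by decide +kernel))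
  (Blk.of_chk [.t 1 (nat_lit 0) (.m 95), .t 1 (nat_lit 0) (.m 98), .t 8 (nat_lit 0x4000339033402e002db02c002be) (.z (.edon 0 8 (.edon 0 3 (.leaf [0,1,2]) (.leaf [3,4,5,7,6])) (.free 2 [8,9,10,11,12,13,14]))), .t 3 (nat_lit 0x3ff03fd) (.z (.edon 0 8 (.node 0 3 (.leaf [0,4,5,6,7]) (.leaf [1,2,3])) (.free 2 [8,9,10,11,12,13,14]))), .r 5 (nat_lit 0x62e062f06300631)] (by decide +kernel) (by decide +kernel)) (by decide +kernel) hf hK
def s266 : DB := (N 1583 (N 1582 (L (nat_lit 0x80000000) (nat_lit 0x100000000)) (L (nat_lit 0x400000000) (nat_lit 0x80000000))) (N 1584 (L (nat_lit 0) (nat_lit 0x400080000)) (N 1585 (L (nat_lit 0x100000000) (nat_lit 0x20000200)) (L (nat_lit 0) (nat_lit 0)))))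
theorem e266 {P : ℕ → Pt} (hf : Frame 15 P) (hK : ¬ HCPle (P '' {i | i < 15}) 4) : ¬ EA [1,9,10,11] [0,2,3,4,5,6,7,8,12,13,14] P :=
  finA (ax := AX.db) (s := s266) (A := 1581) (B := 1586) (T0 := nat_lit 0xfc0000003f0c6ec07f0000000fc73bb00000001f842760000000000000000000000000000001d803b0ec200) (F0 := nat_lit 0x8fe1000000000000001000000000000000040000000000000800000000000000000000000000042002000401148) X11.facts AX.axs (base_ent (us := X11.US) (tg := X11.BN) X11.facts (by decide +kernel))
  (Blk.of_chk [.t 1 (nat_lit 0) (.m 95), .t 1 (nat_lit 0) (.m 98), .t 3 (nat_lit 0x3ff03fd) (.z (.edon 0 8 (.node 0 3 (.leaf [0,4,5,6,7]) (.leaf [1,2,3])) (.free 2 [8,9,10,11,12,13,14]))), .t 8 (nat_lit 0x4000339033402e002db02c002be) (.z (.edon 0 8 (.edon 0 3 (.leaf [0,1,2]) (.leaf [3,4,5,7,6])) (.free 2 [8,9,10,11,12,13,14]))), .r 5 (nat_lit 0x62e062f06310630)] (by decide +kernel) (by decide +kernel)) (by decide +kernel) hf hK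
def s267 : DB := (N 1582 (L (nat_lit 0x8000000000000000000000000000000000000000000000000000000000000000000000000000000000000000) (nat_lit 0)) (N 1583 (L (nat_lit 0x4000000000000000000000000000000000000000000000000000000000000000000000000000000000000000008) (nat_lit 0x8000000000000000000000000000000000000000000000000000000000000000000000000000000000000000)) (L (nat_lit 0) (nat_lit 0))))
theorem e267 {P : ℕ → Pt} (hf : Frame 15 P) (hK : ¬ HCPle (P '' {i | i < 15}) 4) : ¬ EA [1,9,10,12] [0,2,3,4,5,6,7,8,11,13,14] P :=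
  finA (ax := AX.db) (s := s267) (A := 1581) (B := 1584) (T0 := nat_lit 0x3f00003f0c6ec0001fc0000fc73bb0000000000000000000fc213b00000000000000000001d803b0ec200) (F0 := nat_lit 0x4fe0004000000000001000000000000000040000000000000000000000004000000000000000042002000401148) X11.facts AX.axs (base_ent (us := X11.US) (tg := X11.BN) X11.facts (by decide +kernel))
  (Blk.of_chk [.t 1 (nat_lit 0) (.t 12 0 11 14), .t 3 (nat_lit 0x62d0629) (.z (.edon 0 11 (.x11 3 [0,1,2,3,4,5,6,7,8,9,10]) (.leaf [11,12,14,13]))), .r 3 (nat_lit 0x62f062e)] (by decide +kernel) (by decide +kernel)) (by decide +kernel) hf hK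
def s268 : DB := (N 1582 (L (nat_lit 0x4000000000000000000000000000000000000000000000000000000000000000000000000000000000000000000) (nat_lit 0)) (N 1583 (L (nat_lit 0x8000000000000000000000000000000000000000000000000000000000000000000000000000000000000008) (nat_lit 0x4000000000000000000000000000000000000000000000000000000000000000000000000000000000000000000)) (L (nat_lit 0) (nat_lit 0))))
theorem e268 {P : ℕ → Pt} (hf : Frame 15 P) (hK : ¬ HCPle (P '' {i | i < 15}) 4) : ¬ EA [1,9,10,13] [0,2,3,4,5,6,7,8,11,12,14] P :=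
  finA (ax := AX.db) (s := s268) (A := 1581) (B := 1584) (T0 := nat_lit 0x3f00003f0c6ec000000000000000003f80001f8e77600000fc213b00000000000000000001d803b0ec200) (F0 := nat_lit 0x9fc4000000000001000000000000000000000000000000800000000004000000000000000042002000401148) X11.facts AX.axs (base_ent (us := X11.US) (tg := X11.BN) X11.facts (by decide +kernel))
  (Blk.of_chk [.t 1 (nat_lit 0) (.t 13 0 11 14), .t 3 (nat_lit 0x62c062a) (.z (.edon 0 11 (.x11 3 [0,1,2,3,4,5,6,7,8,9,10]) (.leaf [11,13,14,12]))), .r 3 (nat_lit 0x62f062e)] (by decide +kernel) (by decide +kernel)) (by decide +kernel) hf hK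
def s269 : DB := (N 1583 (N 1582 (L (nat_lit 0x80000000) (nat_lit 0x100000000)) (L (nat_lit 0x400000000) (nat_lit 0x80000000))) (N 1584 (L (nat_lit 0) (nat_lit 0x400080000)) (N 1585 (L (nat_lit 0x100000000) (nat_lit 0x20000200)) (L (nat_lit 0) (nat_lit 0)))))
theorem e269 {P : ℕ → Pt} (hf : Frame 15 P) (hK : ¬ HCPle (P '' {i | i < 15}) 4) : ¬ EA [1,9,10,14] [0,2,3,4,5,6,7,8,11,12,13] P :=
  finA (ax := AX.db) (s := s269) (A := 1581) (B := 1586) (T0 := nat_lit 0xfc0000fc31bb03f80001f8e77600000fc213b00000000000000000001d803b0ec200) (F0 := nat_lit 0x27f100000000000040000000000000800000000004000000000000000042002000401148) X11.facts AX.axs (base_ent (us := X11.US) (tg := X11.BN) X11.facts (by decide +kernel))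
  (Blk.of_chk [.t 1 (nat_lit 0) (.m 95), .t 1 (nat_lit 0) (.m 98), .t 3 (nat_lit 0x3ff03fd) (.z (.edon 0 8 (.node 0 3 (.leaf [0,4,5,6,7]) (.leaf [1,2,3])) (.free 2 [8,9,10,11,12,13,14]))), .t 8 (nat_lit 0x4000339033402e002db02c002be) (.z (.edon 0 8 (.edon 0 3 (.leaf [0,1,2]) (.leaf [3,4,5,7,6])) (.free 2 [8,9,10,11,12,13,14]))), .r 5 (nat_lit 0x62e062f06310630)] (by decide +kernel) (by decide +kernel)) (by decide +kernel) hf hK
def s270 : DB := (N 1583 (N 1582 (L (nat_lit 0x80000000) (nat_lit 0x100000000)) (L (nat_lit 0x400000000) (nat_lit 0x80000000))) (N 1584 (L (nat_lit 0) (nat_lit 0x400080000)) (N 1585 (L (nat_lit 0x100000000) (nat_lit 0x20000200)) (L (nat_lit 0) (nat_lit 0)))))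
theorem e270 {P : ℕ → Pt} (hf : Frame 15 P) (hK : ¬ HCPle (P '' {i | i < 15}) 4) : ¬ EA [1,9,11,12] [0,2,3,4,5,6,7,8,10,13,14] P :=
  finA (ax := AX.db) (s := s270) (A := 1581) (B := 1586) (T0 := nat_lit 0x1f803f0c6ec000000fe00fc73bb0000000000000000000000000000fc213b00000000001d803b0ec200) (F0 := nat_lit 0x2fe0000020000000001000000000000000040000000000000000000000000000000004000000042002000401148) X11.facts AX.axs (base_ent (us := X11.US) (tg := X11.BN) X11.facts (by decide +kernel))
  (Blk.of_chk [.t 1 (nat_lit 0) (.m 95), .t 1 (nat_lit 0) (.m 98), .t 3 (nat_lit 0x3ff03fd) (.z (.edon 0 8 (.node 0 3 (.leaf [0,4,5,6,7]) (.leaf [1,2,3])) (.free 2 [8,9,10,11,12,13,14]))), .t 8 (nat_lit 0x4000339033402e002db02c002be) (.z (.edon 0 8 (.edon 0 3 (.leaf [0,1,2]) (.leaf [3,4,5,7,6])) (.free 2 [8,9,10,11,12,13,14]))), .r 5 (nat_lit 0x62e062f06310630)] (by decide +kernel) (by decide +kernel)) (by decide +kernel) hf hK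
def s271 : DB := (N 1583 (N 1582 (L (nat_lit 0x80000000) (nat_lit 0x100000000)) (L (nat_lit 0x400000000) (nat_lit 0x80000000))) (N 1584 (L (nat_lit 0x100000000) (nat_lit 0x20000200)) (N 1585 (L (nat_lit 0) (nat_lit 0x400080000)) (L (nat_lit 0) (nat_lit 0)))))
theorem e271 {P : ℕ → Pt} (hf : Frame 15 P) (hK : ¬ HCPle (P '' {i | i < 15}) 4) : ¬ EA [1,9,11,13] [0,2,3,4,5,6,7,8,10,12,14] P :=
  finA (ax := AX.db) (s := s271) (A := 1581) (B := 1586) (T0 := nat_lit 0x1f803f0c6ec00000000000000000001fc01f8e77600000000000000fc213b00000000001d803b0ec200) (F0 := nat_lit 0x5fc0020000000001000000000000000000000000000000800000000000000000004000000042002000401148) X11.facts AX.axs (base_ent (us := X11.US) (tg := X11.BN) X11.facts (by decide +kernel))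
  (Blk.of_chk [.t 1 (nat_lit 0) (.m 95), .t 1 (nat_lit 0) (.m 98), .t 8 (nat_lit 0x4000339033402e002db02c002be) (.z (.edon 0 8 (.edon 0 3 (.leaf [0,1,2]) (.leaf [3,4,5,7,6])) (.free 2 [8,9,10,11,12,13,14]))), .t 3 (nat_lit 0x3ff03fd) (.z (.edon 0 8 (.node 0 3 (.leaf [0,4,5,6,7]) (.leaf [1,2,3])) (.free 2 [8,9,10,11,12,13,14]))), .r 5 (nat_lit 0x62e062f06300631)] (by decide +kernel) (by decide +kernel)) (by decide +kernel) hf hK
def s272 : DB := (N 1583 (N 1582 (L (nat_lit 0x80000000) (nat_lit 0x100000000)) (L (nat_lit 0x400000000) (nat_lit 0x80000000))) (N 1584 (L (nat_lit 0) (nat_lit 0x400080000)) (N 1585 (L (nat_lit 0x100000000) (nat_lit 0x20000200)) (L (nat_lit 0) (nat_lit 0)))))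
theorem e272 {P : ℕ → Pt} (hf : Frame 15 P) (hK : ¬ HCPle (P '' {i | i < 15}) 4) : ¬ EA [1,9,11,14] [0,2,3,4,5,6,7,8,10,12,13] P :=
  finA (ax := AX.db) (s := s272) (A := 1581) (B := 1586) (T0 := nat_lit 0x7e00fc31bb0001fc01f8e77600000000000000fc213b00000000001d803b0ec200) (F0 := nat_lit 0x17f000800000000040000000000000800000000000000000004000000042002000401148) X11.facts AX.axs (base_ent (us := X11.US) (tg := X11.BN) X11.facts (by decide +kernel))
  (Blk.of_chk [.t 1 (nat_lit 0) (.m 95), .t 1 (nat_lit 0) (.m 98), .t 3 (nat_lit 0x3ff03fd) (.z (.edon 0 8 (.node 0 3 (.leaf [0,4,5,6,7]) (.leaf [1,2,3])) (.free 2 [8,9,10,11,12,13,14]))), .t 8 (nat_lit 0x4000339033402e002db02c002be) (.z (.edon 0 8 (.edon 0 3 (.leaf [0,1,2]) (.leaf [3,4,5,7,6])) (.free 2 [8,9,10,11,12,13,14]))), .r 5 (nat_lit 0x62e062f06310630)] (by decide +kernel) (by decide +kernel)) (by decide +kernel) hf hK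
def s273 : DB := (N 1583 (N 1582 (L (nat_lit 0x80000000) (nat_lit 0x100000000)) (L (nat_lit 0x400000000) (nat_lit 0x80000000))) (N 1584 (L (nat_lit 0) (nat_lit 0x400080000)) (N 1585 (L (nat_lit 0x100000000) (nat_lit 0x20000200)) (L (nat_lit 0) (nat_lit 0)))))
theorem e273 {P : ℕ → Pt} (hf : Frame 15 P) (hK : ¬ HCPle (P '' {i | i < 15}) 4) : ¬ EA [1,9,12,13] [0,2,3,4,5,6,7,8,10,11,14] P :=
  finA (ax := AX.db) (s := s273) (A := 1581) (B := 1586) (T0 := nat_lit 0x1f803f0c6ec0000000000000000000000000000000fe00fc73bb000fc213b00000000001d803b0ec200) (F0 := nat_lit 0x17f20000000001000000000000000000000000000000000000000004000000004000000042002000401148) X11.facts AX.axs (base_ent (us := X11.US) (tg := X11.BN) X11.facts (by decide +kernel))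
  (Blk.of_chk [.t 1 (nat_lit 0) (.m 95), .t 1 (nat_lit 0) (.m 98), .t 3 (nat_lit 0x3ff03fd) (.z (.edon 0 8 (.node 0 3 (.leaf [0,4,5,6,7]) (.leaf [1,2,3])) (.free 2 [8,9,10,11,12,13,14]))), .t 8 (nat_lit 0x4000339033402e002db02c002be) (.z (.edon 0 8 (.edon 0 3 (.leaf [0,1,2]) (.leaf [3,4,5,7,6])) (.free 2 [8,9,10,11,12,13,14]))), .r 5 (nat_lit 0x62e062f06310630)] (by decide +kernel) (by decide +kernel)) (by decide +kernel) hf hK
def s274 : DB := (N 1583 (N 1582 (L (nat_lit 0x80000000) (nat_lit 0x100000000)) (L (nat_lit 0x400000000) (nat_lit 0x80000000))) (N 1584 (L (nat_lit 0) (nat_lit 0x400080000)) (N 1585 (L (nat_lit 0x100000000) (nat_lit 0x20000200)) (L (nat_lit 0) (nat_lit 0)))))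
theorem e274 {P : ℕ → Pt} (hf : Frame 15 P) (hK : ¬ HCPle (P '' {i | i < 15}) 4) : ¬ EA [1,9,12,14] [0,2,3,4,5,6,7,8,10,11,13] P :=
  finA (ax := AX.db) (s := s274) (A := 1581) (B := 1586) (T0 := nat_lit 0x7e00fc31bb000000000000000fe00fc73bb000fc213b00000000001d803b0ec200) (F0 := nat_lit 0x5fc800000000040000000000000000000000004000000004000000042002000401148) X11.facts AX.axs (base_ent (us := X11.US) (tg := X11.BN) X11.facts (by decide +kernel))
  (Blk.of_chk [.t 1 (nat_lit 0) (.m 95), .t 1 (nat_lit 0) (.m 98), .t 3 (nat_lit 0x3ff03fd) (.z (.edon 0 8 (.node 0 3 (.leaf [0,4,5,6,7]) (.leaf [1,2,3])) (.free 2 [8,9,10,11,12,13,14]))), .t 8 (nat_lit 0x4000339033402e002db02c002be) (.z (.edon 0 8 (.edon 0 3 (.leaf [0,1,2]) (.leaf [3,4,5,7,6])) (.free 2 [8,9,10,11,12,13,14]))), .r 5 (nat_lit 0x62e062f06310630)] (by decide +kernel) (by decide +kernel)) (by decide +kernel) hf hK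
def s275 : DB := (N 1583 (N 1582 (L (nat_lit 0x80000000) (nat_lit 0x100000000)) (L (nat_lit 0x400000000) (nat_lit 0x80000000))) (N 1584 (L (nat_lit 0) (nat_lit 0x400080000)) (N 1585 (L (nat_lit 0x100000000) (nat_lit 0x20000200)) (L (nat_lit 0) (nat_lit 0)))))
theorem e275 {P : ℕ → Pt} (hf : Frame 15 P) (hK : ¬ HCPle (P '' {i | i < 15}) 4) : ¬ EA [1,9,13,14] [0,2,3,4,5,6,7,8,10,11,12] P :=
  finA (ax := AX.db) (s := s275) (A := 1581) (B := 1586) (T0 := nat_lit 0xfc01f863760fe00fc73bb000fc213b00000000001d803b0ec200) (F0 := nat_lit 0xbf90000000000800000000004000000004000000042002000401148) X11.facts AX.axs (base_ent (us := X11.US) (tg := X11.BN) X11.facts (by decide +kernel))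
  (Blk.of_chk [.t 1 (nat_lit 0) (.m 95), .t 1 (nat_lit 0) (.m 98), .t 3 (nat_lit 0x3ff03fd) (.z (.edon 0 8 (.node 0 3 (.leaf [0,4,5,6,7]) (.leaf [1,2,3])) (.free 2 [8,9,10,11,12,13,14]))), .t 8 (nat_lit 0x4000339033402e002db02c002be) (.z (.edon 0 8 (.edon 0 3 (.leaf [0,1,2]) (.leaf [3,4,5,7,6])) (.free 2 [8,9,10,11,12,13,14]))), .r 5 (nat_lit 0x62e062f06310630)] (by decide +kernel) (by decide +kernel)) (by decide +kernel) hf hK
def s276 : DB := (N 1583 (N 1582 (L (nat_lit 0x80000000) (nat_lit 0x100000000)) (L (nat_lit 0x400000000) (nat_lit 0x80000000))) (N 1584 (L (nat_lit 0) (nat_lit 0x400080000)) (N 1585 (L (nat_lit 0x100000000) (nat_lit 0x20000200)) (L (nat_lit 0) (nat_lit 0)))))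
theorem e276 {P : ℕ → Pt} (hf : Frame 15 P) (hK : ¬ HCPle (P '' {i | i < 15}) 4) : ¬ EA [1,10,11,12] [0,2,3,4,5,6,7,8,9,13,14] P :=
  finA (ax := AX.db) (s := s276) (A := 1581) (B := 1586) (T0 := nat_lit 0x1fbf0c6ec00000000fefc73bb00000000000000000000000000000000000fc213b0001d803b0ec200) (F0 := nat_lit 0x1fe0000000200000001000000000000000040000000000000000000000000000000000000000442002000401148) X11.facts AX.axs (base_ent (us := X11.US) (tg := X11.BN) X11.facts (by decide +kernel))
  (Blk.of_chk [.t 1 (nat_lit 0) (.m 95), .t 1 (nat_lit 0) (.m 98), .t 3 (nat_lit 0x3ff03fd) (.z (.edon 0 8 (.node 0 3 (.leaf [0,4,5,6,7]) (.leaf [1,2,3])) (.free 2 [8,9,10,11,12,13,14]))), .t 8 (nat_lit 0x4000339033402e002db02c002be) (.z (.edon 0 8 (.edon 0 3 (.leaf [0,1,2]) (.leaf [3,4,5,7,6])) (.free 2 [8,9,10,11,12,13,14]))), .r 5 (nat_lit 0x62e062f06310630)] (by decide +kernel) (by decide +kernel)) (by decide +kernel) hf hK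
def s277 : DB := (N 1583 (N 1582 (L (nat_lit 0x80000000) (nat_lit 0x100000000)) (L (nat_lit 0x400000000) (nat_lit 0x80000000))) (N 1584 (L (nat_lit 0x100000000) (nat_lit 0x20000200)) (N 1585 (L (nat_lit 0) (nat_lit 0x400080000)) (L (nat_lit 0) (nat_lit 0)))))
theorem e277 {P : ℕ → Pt} (hf : Frame 15 P) (hK : ¬ HCPle (P '' {i | i < 15}) 4) : ¬ EA [1,10,11,13] [0,2,3,4,5,6,7,8,9,12,14] P :=
  finA (ax := AX.db) (s := s277) (A := 1581) (B := 1586) (T0 := nat_lit 0x1fbf0c6ec0000000000000000000001fdf8e776000000000000000000000fc213b0001d803b0ec200) (F0 := nat_lit 0x3fc0000200000001000000000000000000000000000000800000000000000000000000000442002000401148) X11.facts AX.axs (base_ent (us := X11.US) (tg := X11.BN) X11.facts (by decide +kernel))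
  (Blk.of_chk [.t 1 (nat_lit 0) (.m 95), .t 1 (nat_lit 0) (.m 98), .t 8 (nat_lit 0x4000339033402e002db02c002be) (.z (.edon 0 8 (.edon 0 3 (.leaf [0,1,2]) (.leaf [3,4,5,7,6])) (.free 2 [8,9,10,11,12,13,14]))), .t 3 (nat_lit 0x3ff03fd) (.z (.edon 0 8 (.node 0 3 (.leaf [0,4,5,6,7]) (.leaf [1,2,3])) (.free 2 [8,9,10,11,12,13,14]))), .r 5 (nat_lit 0x62e062f06300631)] (by decide +kernel) (by decide +kernel)) (by decide +kernel) hf hK
def s278 : DB := (N 1583 (N 1582 (L (nat_lit 0x80000000) (nat_lit 0x100000000)) (L (nat_lit 0x400000000) (nat_lit 0x80000000))) (N 1584 (L (nat_lit 0) (nat_lit 0x400080000)) (N 1585 (L (nat_lit 0x100000000) (nat_lit 0x20000200)) (L (nat_lit 0) (nat_lit 0)))))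
theorem e278 {P : ℕ → Pt} (hf : Frame 15 P) (hK : ¬ HCPle (P '' {i | i < 15}) 4) : ¬ EA [1,10,11,14] [0,2,3,4,5,6,7,8,9,12,13] P :=
  finA (ax := AX.db) (s := s278) (A := 1581) (B := 1586) (T0 := nat_lit 0x7efc31bb000001fdf8e776000000000000000000000fc213b0001d803b0ec200) (F0 := nat_lit 0xff000008000000040000000000000800000000000000000000000000442002000401148) X11.facts AX.axs (base_ent (us := X11.US) (tg := X11.BN) X11.facts (by decide +kernel))
  (Blk.of_chk [.t 1 (nat_lit 0) (.m 95), .t 1 (nat_lit 0) (.m 98), .t 3 (nat_lit 0x3ff03fd) (.z (.edon 0 8 (.node 0 3 (.leaf [0,4,5,6,7]) (.leaf [1,2,3])) (.free 2 [8,9,10,11,12,13,14]))), .t 8 (nat_lit 0x4000339033402e002db02c002be) (.z (.edon 0 8 (.edon 0 3 (.leaf [0,1,2]) (.leaf [3,4,5,7,6])) (.free 2 [8,9,10,11,12,13,14]))), .r 5 (nat_lit 0x62e062f06310630)] (by decide +kernel) (by decide +kernel)) (by decide +kernel) hf hK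
def s279 : DB := (N 1583 (N 1582 (L (nat_lit 0x80000000) (nat_lit 0x100000000)) (L (nat_lit 0x400000000) (nat_lit 0x80000000))) (N 1584 (L (nat_lit 0) (nat_lit 0x400080000)) (N 1585 (L (nat_lit 0x100000000) (nat_lit 0x20000200)) (L (nat_lit 0) (nat_lit 0)))))
theorem e279 {P : ℕ → Pt} (hf : Frame 15 P) (hK : ¬ HCPle (P '' {i | i < 15}) 4) : ¬ EA [1,10,12,13] [0,2,3,4,5,6,7,8,9,11,14] P :=
  finA (ax := AX.db) (s := s279) (A := 1581) (B := 1586) (T0 := nat_lit 0x1fbf0c6ec000000000000000000000000000000000fefc73bb0000000000fc213b0001d803b0ec200) (F0 := nat_lit 0xff00200000001000000000000000000000000000000000000000004000000000000000442002000401148) X11.facts AX.axs (base_ent (us := X11.US) (tg := X11.BN) X11.facts (by decide +kernel))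
  (Blk.of_chk [.t 1 (nat_lit 0) (.m 95), .t 1 (nat_lit 0) (.m 98), .t 3 (nat_lit 0x3ff03fd) (.z (.edon 0 8 (.node 0 3 (.leaf [0,4,5,6,7]) (.leaf [1,2,3])) (.free 2 [8,9,10,11,12,13,14]))), .t 8 (nat_lit 0x4000339033402e002db02c002be) (.z (.edon 0 8 (.edon 0 3 (.leaf [0,1,2]) (.leaf [3,4,5,7,6])) (.free 2 [8,9,10,11,12,13,14]))), .r 5 (nat_lit 0x62e062f06310630)] (by decide +kernel) (by decide +kernel)) (by decide +kernel) hf hK
def s280 : DB := (N 1583 (N 1582 (L (nat_lit 0x80000000) (nat_lit 0x100000000)) (L (nat_lit 0x400000000) (nat_lit 0x80000000))) (N 1584 (L (nat_lit 0) (nat_lit 0x400080000)) (N 1585 (L (nat_lit 0x100000000) (nat_lit 0x20000200)) (L (nat_lit 0) (nat_lit 0)))))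
theorem e280 {P : ℕ → Pt} (hf : Frame 15 P) (hK : ¬ HCPle (P '' {i | i < 15}) 4) : ¬ EA [1,10,12,14] [0,2,3,4,5,6,7,8,9,11,13] P :=
  finA (ax := AX.db) (s := s280) (A := 1581) (B := 1586) (T0 := nat_lit 0x7efc31bb00000000000000000fefc73bb0000000000fc213b0001d803b0ec200) (F0 := nat_lit 0x3fc008000000040000000000000000000000004000000000000000442002000401148) X11.facts AX.axs (base_ent (us := X11.US) (tg := X11.BN) X11.facts (by decide +kernel))
  (Blk.of_chk [.t 1 (nat_lit 0) (.m 95), .t 1 (nat_lit 0) (.m 98), .t 3 (nat_lit 0x3ff03fd) (.z (.edon 0 8 (.node 0 3 (.leaf [0,4,5,6,7]) (.leaf [1,2,3])) (.free 2 [8,9,10,11,12,13,14]))), .t 8 (nat_lit 0x4000339033402e002db02c002be) (.z (.edon 0 8 (.edon 0 3 (.leaf [0,1,2]) (.leaf [3,4,5,7,6])) (.free 2 [8,9,10,11,12,13,14]))), .r 5 (nat_lit 0x62e062f06310630)] (by decide +kernel) (by decide +kernel)) (by decide +kernel) hf hK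
def s281 : DB := (N 1583 (N 1582 (L (nat_lit 0x80000000) (nat_lit 0x100000000)) (L (nat_lit 0x400000000) (nat_lit 0x80000000))) (N 1584 (L (nat_lit 0x100000000) (nat_lit 0x20000200)) (N 1585 (L (nat_lit 0) (nat_lit 0x400080000)) (L (nat_lit 0) (nat_lit 0)))))
theorem e281 {P : ℕ → Pt} (hf : Frame 15 P) (hK : ¬ HCPle (P '' {i | i < 15}) 4) : ¬ EA [1,10,13,14] [0,2,3,4,5,6,7,8,9,11,12] P :=
  finA (ax := AX.db) (s := s281) (A := 1581) (B := 1586) (T0 := nat_lit 0xfdf86376000fefc73bb0000000000fc213b0001d803b0ec200) (F0 := nat_lit 0x7f80100000000800000000004000000000000000442002000401148) X11.facts AX.axs (base_ent (us := X11.US) (tg := X11.BN) X11.facts (by decide +kernel))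
  (Blk.of_chk [.t 1 (nat_lit 0) (.m 95), .t 1 (nat_lit 0) (.m 98), .t 8 (nat_lit 0x4000339033402e002db02c002be) (.z (.edon 0 8 (.edon 0 3 (.leaf [0,1,2]) (.leaf [3,4,5,7,6])) (.free 2 [8,9,10,11,12,13,14]))), .t 3 (nat_lit 0x3ff03fd) (.z (.edon 0 8 (.node 0 3 (.leaf [0,4,5,6,7]) (.leaf [1,2,3])) (.free 2 [8,9,10,11,12,13,14]))), .r 5 (nat_lit 0x62e062f06300631)] (by decide +kernel) (by decide +kernel)) (by decide +kernel) hf hK
def s282 : DB := (N 1583 (N 1582 (L (nat_lit 0x80000000) (nat_lit 0x100000000)) (L (nat_lit 0x400000000) (nat_lit 0x80000000))) (N 1584 (L (nat_lit 0x100000000) (nat_lit 0x20000200)) (N 1585 (L (nat_lit 0) (nat_lit 0x400080000)) (L (nat_lit 0) (nat_lit 0)))))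
theorem e282 {P : ℕ → Pt} (hf : Frame 15 P) (hK : ¬ HCPle (P '' {i | i < 15}) 4) : ¬ EA [1,11,12,13] [0,2,3,4,5,6,7,8,9,10,14] P :=
  finA (ax := AX.db) (s := s282) (A := 1581) (B := 1586) (T0 := nat_lit 0x1fbf0c6ec000000000000000000000000000000000000000000fefc73bb0fc213b0001d803b0ec200) (F0 := nat_lit 0x7fa00000001000000000000000000000000000000000000000000000000004000000442002000401148) X11.facts AX.axs (base_ent (us := X11.US) (tg := X11.BN) X11.facts (by decide +kernel))
  (Blk.of_chk [.t 1 (nat_lit 0) (.m 95), .t 1 (nat_lit 0) (.m 98), .t 8 (nat_lit 0x4000339033402e002db02c002be) (.z (.edon 0 8 (.edon 0 3 (.leaf [0,1,2]) (.leaf [3,4,5,7,6])) (.free 2 [8,9,10,11,12,13,14]))), .t 3 (nat_lit 0x3ff03fd) (.z (.edon 0 8 (.node 0 3 (.leaf [0,4,5,6,7]) (.leaf [1,2,3])) (.free 2 [8,9,10,11,12,13,14]))), .r 5 (nat_lit 0x62e062f06300631)] (by decide +kernel) (by decide +kernel)) (by decide +kernel) hf hK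
def s283 : DB := (N 1583 (N 1582 (L (nat_lit 0x80000000) (nat_lit 0x100000000)) (L (nat_lit 0x400000000) (nat_lit 0x80000000))) (N 1584 (L (nat_lit 0) (nat_lit 0x400080000)) (N 1585 (L (nat_lit 0x100000000) (nat_lit 0x20000200)) (L (nat_lit 0) (nat_lit 0)))))
theorem e283 {P : ℕ → Pt} (hf : Frame 15 P) (hK : ¬ HCPle (P '' {i | i < 15}) 4) : ¬ EA [1,11,12,14] [0,2,3,4,5,6,7,8,9,10,13] P :=
  finA (ax := AX.db) (s := s283) (A := 1581) (B := 1586) (T0 := nat_lit 0x7efc31bb00000000000000000000000000fefc73bb0fc213b0001d803b0ec200) (F0 := nat_lit 0x1fe8000000040000000000000000000000000000000004000000442002000401148) X11.facts AX.axs (base_ent (us := X11.US) (tg := X11.BN) X11.facts (by decide +kernel))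
  (Blk.of_chk [.t 1 (nat_lit 0) (.m 95), .t 1 (nat_lit 0) (.m 98), .t 3 (nat_lit 0x3ff03fd) (.z (.edon 0 8 (.node 0 3 (.leaf [0,4,5,6,7]) (.leaf [1,2,3])) (.free 2 [8,9,10,11,12,13,14]))), .t 8 (nat_lit 0x4000339033402e002db02c002be) (.z (.edon 0 8 (.edon 0 3 (.leaf [0,1,2]) (.leaf [3,4,5,7,6])) (.free 2 [8,9,10,11,12,13,14]))), .r 5 (nat_lit 0x62e062f06310630)] (by decide +kernel) (by decide +kernel)) (by decide +kernel) hf hK
def s284 : DB := (N 1583 (N 1582 (L (nat_lit 0x80000000) (nat_lit 0x100000000)) (L (nat_lit 0x400000000) (nat_lit 0x80000000))) (N 1584 (L (nat_lit 0x100000000) (nat_lit 0x20000200)) (N 1585 (L (nat_lit 0) (nat_lit 0x400080000)) (L (nat_lit 0) (nat_lit 0)))))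
theorem e284 {P : ℕ → Pt} (hf : Frame 15 P) (hK : ¬ HCPle (P '' {i | i < 15}) 4) : ¬ EA [1,11,13,14] [0,2,3,4,5,6,7,8,9,10,12] P :=
  finA (ax := AX.db) (s := s284) (A := 1581) (B := 1586) (T0 := nat_lit 0xfdf86376000000000000fefc73bb0fc213b0001d803b0ec200) (F0 := nat_lit 0x3fd00000000800000000000000000004000000442002000401148) X11.facts AX.axs (base_ent (us := X11.US) (tg := X11.BN) X11.facts (by decide +kernel))
  (Blk.of_chk [.t 1 (nat_lit 0) (.m 95), .t 1 (nat_lit 0) (.m 98), .t 8 (nat_lit 0x4000339033402e002db02c002be) (.z (.edon 0 8 (.edon 0 3 (.leaf [0,1,2]) (.leaf [3,4,5,7,6])) (.free 2 [8,9,10,11,12,13,14]))), .t 3 (nat_lit 0x3ff03fd) (.z (.edon 0 8 (.node 0 3 (.leaf [0,4,5,6,7]) (.leaf [1,2,3])) (.free 2 [8,9,10,11,12,13,14]))), .r 5 (nat_lit 0x62e062f06300631)] (by decide +kernel) (by decide +kernel)) (by decide +kernel) hf hK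
def s285 : DB := (N 1583 (N 1582 (L (nat_lit 0x80000000) (nat_lit 0x100000000)) (L (nat_lit 0x400000000) (nat_lit 0x80000000))) (N 1584 (L (nat_lit 0x100000000) (nat_lit 0x20000200)) (N 1585 (L (nat_lit 0) (nat_lit 0x400080000)) (L (nat_lit 0) (nat_lit 0)))))
theorem e285 {P : ℕ → Pt} (hf : Frame 15 P) (hK : ¬ HCPle (P '' {i | i < 15}) 4) : ¬ EA [1,12,13,14] [0,2,3,4,5,6,7,8,9,10,11] P :=
  finA (ax := AX.db) (s := s285) (A := 1581) (B := 1586) (T0 := nat_lit 0x7efc31bb0fefc73bb0fc213b0001d803b0ec200) (F0 := nat_lit 0x1fe800000004000000004000000442002000401148) X11.facts AX.axs (base_ent (us := X11.US) (tg := X11.BN) X11.facts (by decide +kernel))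
  (Blk.of_chk [.t 1 (nat_lit 0) (.m 95), .t 1 (nat_lit 0) (.m 98), .t 8 (nat_lit 0x4000339033402e002db02c002be) (.z (.edon 0 8 (.edon 0 3 (.leaf [0,1,2]) (.leaf [3,4,5,7,6])) (.free 2 [8,9,10,11,12,13,14]))), .t 3 (nat_lit 0x3ff03fd) (.z (.edon 0 8 (.node 0 3 (.leaf [0,4,5,6,7]) (.leaf [1,2,3])) (.free 2 [8,9,10,11,12,13,14]))), .r 5 (nat_lit 0x62e062f06300631)] (by decide +kernel) (by decide +kernel)) (by decide +kernel) hf hK

end Pool.Agent.GCP.CA
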