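import Pool.Agent.GCP.CA2B0
import Pool.Agent.GCP.CA2B1
import Pool.Agent.GCP.CA2B2
import Pool.Agent.GCP.CA2B3

set_option autoImplicit false
set_option maxRecDepth 100000

/-! # Case A, assembly (generated) -/

namespace Pool.Agent.GCP.CA

open Pool.Agent.GCP

/-- All position patterns. -/
def pats : List (List ℕ × List ℕ) := [([1, 2, 3, 4], [0, 5, 6, 7, 8, 9, 10, 11, 12, 13, 14]), ([1, 2, 3, 5], [0, 4, 6, 7, 8, 9, 10, 11, 12, 13, 14]), ([1, 2, 3, 6], [0, 4, 5, 7, 8, 9, 10, 11, 12, 13, 14]), ([1, 2, 3, 7], [0, 4, 5, 6, 8, 9, 10, 11, 12, 13, 14]), ([1, 2, 3, 8], [0, 4, 5, 6, 7, 9, 10, 11, 12, 13, 14]), ([1, 2, 3, 9], [0, 4, 5, 6, 7, 8, 10, 11, 12, 13, 14]), ([1, 2, 3, 10], [0, 4, 5, 6, 7, 8, 9, 11, 12, 13, 14]), ([1, 2, 3, 11], [0,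 4, 5, 6, 7, 8, 9, 10, 12, 13, 14]), ([1, 2, 3, 12], [0, 4, 5, 6, 7, 8, 9, 10, 11, 13, 14]), ([1, 2, 3, 13], [0, 4, 5, 6, 7, 8, 9, 10, 11, 12, 14]), ([1, 2, 3, 14], [0, 4, 5, 6, 7, 8, 9, 10, 11, 12, 13]), ([1, 2, 4, 5], [0, 3, 6, 7, 8, 9, 10, 11, 12, 13, 14]), ([1, 2, 4, 6], [0, 3, 5, 7, 8, 9, 10, 11, 12, 13, 14]), ([1, 2, 4, 7], [0, 3, 5, 6, 8, 9, 10, 11, 12, 13, 14]), ([1, 2, 4, 8], [0, 3, 5, 6, 7, 9, 10, 11, 12, 13, 14]), ([1, 2, 4, 9], [0, 3, 5, 6, 7, 8, 10, 11, 12, 13, 14]), ([1, 2, 4, 10], [0, 3, 5, 6, 7, 8, 9, 11, 12, 13, 14]), ([1, 2, 4, 11], [0, 3, 5, 6, 7, 8, 9, 10, 12, 13, 14]), ([1, 2, 4, 12], [0, 3, 5, 6, 7, 8, 9, 10, 11, 13, 14]), ([1, 2, 4, 13], [0, 3, 5, 6, 7, 8, 9, 10, 11, 12, 14]), ([1, 2, 4, 14], [0, 3, 5, 6, 7, 8,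 9, 10, 11, 12, 13]), ([1, 2, 5, 6], [0, 3, 4, 7, 8, 9, 10, 11, 12, 13, 14]), ([1, 2, 5, 7], [0, 3, 4, 6, 8, 9, 10, 11, 12, 13, 14]), ([1, 2, 5, 8], [0, 3, 4, 6, 7, 9, 10, 11, 12, 13, 14]), ([1, 2, 5, 9], [0, 3, 4, 6, 7, 8, 10, 11, 12, 13, 14]), ([1, 2, 5, 10], [0, 3, 4, 6, 7, 8, 9, 11, 12, 13, 14]), ([1, 2, 5, 11], [0, 3, 4, 6, 7, 8, 9, 10, 12, 13, 14]), ([1, 2, 5, 12], [0, 3, 4, 6, 7, 8, 9, 10, 11, 13, 14]), ([1, 2, 5, 13], [0, 3, 4, 6, 7, 8, 9, 10, 11, 12, 14]), ([1, 2, 5, 14], [0, 3, 4, 6, 7, 8, 9, 10, 11, 12, 13]), ([1, 2, 6, 7], [0, 3, 4, 5, 8, 9, 10, 11, 12, 13, 14]), ([1, 2, 6, 8], [0, 3, 4, 5, 7, 9, 10, 11, 12, 13, 14]), ([1, 2, 6, 9], [0, 3, 4, 5, 7, 8, 10, 11, 12, 13, 14]), ([1, 2, 6, 10], [0, 3, 4, 5, 7, 8, 9, 11, 12, 13,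 14]), ([1, 2, 6, 11], [0, 3, 4, 5, 7, 8, 9, 10, 12, 13, 14]), ([1, 2, 6, 12], [0, 3, 4, 5, 7, 8, 9, 10, 11, 13, 14]), ([1, 2, 6, 13], [0, 3, 4, 5, 7, 8, 9, 10, 11, 12, 14]), ([1, 2, 6, 14], [0, 3, 4, 5, 7, 8, 9, 10, 11, 12, 13]), ([1, 2, 7, 8], [0, 3, 4, 5, 6, 9, 10, 11, 12, 13, 14]), ([1, 2, 7, 9], [0, 3, 4, 5, 6, 8, 10, 11, 12, 13, 14]), ([1, 2, 7, 10], [0, 3, 4, 5, 6, 8, 9, 11, 12, 13, 14]), ([1, 2, 7, 11], [0, 3, 4, 5, 6, 8, 9, 10, 12, 13, 14]), ([1, 2, 7, 12], [0, 3, 4, 5, 6, 8, 9, 10, 11, 13, 14]), ([1, 2, 7, 13], [0, 3, 4, 5, 6, 8, 9, 10, 11, 12, 14]), ([1, 2, 7, 14], [0, 3, 4, 5, 6, 8, 9, 10, 11, 12, 13]), ([1, 2, 8, 9], [0, 3, 4, 5, 6, 7, 10, 11, 12, 13, 14]), ([1, 2, 8, 10], [0, 3, 4, 5, 6, 7, 9, 11, 12, 13, 14]), ([1, 2,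 8, 11], [0, 3, 4, 5, 6, 7, 9, 10, 12, 13, 14]), ([1, 2, 8, 12], [0, 3, 4, 5, 6, 7, 9, 10, 11, 13, 14]), ([1, 2, 8, 13], [0, 3, 4, 5, 6, 7, 9, 10, 11, 12, 14]), ([1, 2, 8, 14], [0, 3, 4, 5, 6, 7, 9, 10, 11, 12, 13]), ([1, 2, 9, 10], [0, 3, 4, 5, 6, 7, 8, 11, 12, 13, 14]), ([1, 2, 9, 11], [0, 3, 4, 5, 6, 7, 8, 10, 12, 13, 14]), ([1, 2, 9, 12], [0, 3, 4, 5, 6, 7, 8, 10, 11, 13, 14]), ([1, 2, 9, 13], [0, 3, 4, 5, 6, 7, 8, 10, 11, 12, 14]), ([1, 2, 9, 14], [0, 3, 4, 5, 6, 7, 8, 10, 11, 12, 13]), ([1, 2, 10, 11], [0, 3, 4, 5, 6, 7, 8, 9, 12, 13, 14]), ([1, 2, 10, 12], [0, 3, 4, 5, 6, 7, 8, 9, 11, 13, 14]), ([1, 2, 10, 13], [0, 3, 4, 5, 6, 7, 8, 9, 11, 12, 14]), ([1, 2, 10, 14], [0, 3, 4, 5, 6, 7, 8, 9, 11, 12, 13]), ([1, 2, 11, 12], [0,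 3, 4, 5, 6, 7, 8, 9, 10, 13, 14]), ([1, 2, 11, 13], [0, 3, 4, 5, 6, 7, 8, 9, 10, 12, 14]), ([1, 2, 11, 14], [0, 3, 4, 5, 6, 7, 8, 9, 10, 12, 13]), ([1, 2, 12, 13], [0, 3, 4, 5, 6, 7, 8, 9, 10, 11, 14]), ([1, 2, 12, 14], [0, 3, 4, 5, 6, 7, 8, 9, 10, 11, 13]), ([1, 2, 13, 14], [0, 3, 4, 5, 6, 7, 8, 9, 10, 11, 12]), ([1, 3, 4, 5], [0, 2, 6, 7, 8, 9, 10, 11, 12, 13, 14]), ([1, 3, 4, 6], [0, 2, 5, 7, 8, 9, 10, 11, 12, 13, 14]), ([1, 3, 4, 7], [0, 2, 5, 6, 8, 9, 10, 11, 12, 13, 14]), ([1, 3, 4, 8], [0, 2, 5, 6, 7, 9, 10, 11, 12, 13, 14]), ([1, 3, 4, 9], [0, 2, 5, 6, 7, 8, 10, 11, 12, 13, 14]), ([1, 3, 4, 10], [0, 2, 5, 6, 7, 8, 9, 11, 12, 13, 14]), ([1, 3, 4, 11], [0, 2, 5, 6, 7, 8, 9, 10, 12, 13, 14]), ([1, 3, 4, 12], [0, 2, 5, 6, 7, 8,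 9, 10, 11, 13, 14]), ([1, 3, 4, 13], [0, 2, 5, 6, 7, 8, 9, 10, 11, 12, 14]), ([1, 3, 4, 14], [0, 2, 5, 6, 7, 8, 9, 10, 11, 12, 13]), ([1, 3, 5, 6], [0, 2, 4, 7, 8, 9, 10, 11, 12, 13, 14]), ([1, 3, 5, 7], [0, 2, 4, 6, 8, 9, 10, 11, 12, 13, 14]), ([1, 3, 5, 8], [0, 2, 4, 6, 7, 9, 10, 11, 12, 13, 14]), ([1, 3, 5, 9], [0, 2, 4, 6, 7, 8, 10, 11, 12, 13, 14]), ([1, 3, 5, 10], [0, 2, 4, 6, 7, 8, 9, 11, 12, 13, 14]), ([1, 3, 5, 11], [0, 2, 4, 6, 7, 8, 9, 10, 12, 13, 14]), ([1, 3, 5, 12], [0, 2, 4, 6, 7, 8, 9, 10, 11, 13, 14]), ([1, 3, 5, 13], [0, 2, 4, 6, 7, 8, 9, 10, 11, 12, 14]), ([1, 3, 5, 14], [0, 2, 4, 6, 7, 8, 9, 10, 11, 12, 13]), ([1, 3, 6, 7], [0, 2, 4, 5, 8, 9, 10, 11, 12, 13, 14]), ([1, 3, 6, 8], [0, 2, 4, 5, 7, 9, 10, 11, 12, 13,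 14]), ([1, 3, 6, 9], [0, 2, 4, 5, 7, 8, 10, 11, 12, 13, 14]), ([1, 3, 6, 10], [0, 2, 4, 5, 7, 8, 9, 11, 12, 13, 14]), ([1, 3, 6, 11], [0, 2, 4, 5, 7, 8, 9, 10, 12, 13, 14]), ([1, 3, 6, 12], [0, 2, 4, 5, 7, 8, 9, 10, 11, 13, 14]), ([1, 3, 6, 13], [0, 2, 4, 5, 7, 8, 9, 10, 11, 12, 14]), ([1, 3, 6, 14], [0, 2, 4, 5, 7, 8, 9, 10, 11, 12, 13]), ([1, 3, 7, 8], [0, 2, 4, 5, 6, 9, 10, 11, 12, 13, 14]), ([1, 3, 7, 9], [0, 2, 4, 5, 6, 8, 10, 11, 12, 13, 14]), ([1, 3, 7, 10], [0, 2, 4, 5, 6, 8, 9, 11, 12, 13, 14]), ([1, 3, 7, 11], [0, 2, 4, 5, 6, 8, 9, 10, 12, 13, 14]), ([1, 3, 7, 12], [0, 2, 4, 5, 6, 8, 9, 10, 11, 13, 14]), ([1, 3, 7, 13], [0, 2, 4, 5, 6, 8, 9, 10, 11, 12, 14]), ([1, 3, 7, 14], [0, 2, 4, 5, 6, 8, 9, 10, 11, 12, 13]), ([1, 3,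 8, 9], [0, 2, 4, 5, 6, 7, 10, 11, 12, 13, 14]), ([1, 3, 8, 10], [0, 2, 4, 5, 6, 7, 9, 11, 12, 13, 14]), ([1, 3, 8, 11], [0, 2, 4, 5, 6, 7, 9, 10, 12, 13, 14]), ([1, 3, 8, 12], [0, 2, 4, 5, 6, 7, 9, 10, 11, 13, 14]), ([1, 3, 8, 13], [0, 2, 4, 5, 6, 7, 9, 10, 11, 12, 14]), ([1, 3, 8, 14], [0, 2, 4, 5, 6, 7, 9, 10, 11, 12, 13]), ([1, 3, 9, 10], [0, 2, 4, 5, 6, 7, 8, 11, 12, 13, 14]), ([1, 3, 9, 11], [0, 2, 4, 5, 6, 7, 8, 10, 12, 13, 14]), ([1, 3, 9, 12], [0, 2, 4, 5, 6, 7, 8, 10, 11, 13, 14]), ([1, 3, 9, 13], [0, 2, 4, 5, 6, 7, 8, 10, 11, 12, 14]), ([1, 3, 9, 14], [0, 2, 4, 5, 6, 7, 8, 10, 11, 12, 13]), ([1, 3, 10, 11], [0, 2, 4, 5, 6, 7, 8, 9, 12, 13, 14]), ([1, 3, 10, 12], [0, 2, 4, 5, 6, 7, 8, 9, 11, 13, 14]), ([1, 3, 10, 13], [0,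 2, 4, 5, 6, 7, 8, 9, 11, 12, 14]), ([1, 3, 10, 14], [0, 2, 4, 5, 6, 7, 8, 9, 11, 12, 13]), ([1, 3, 11, 12], [0, 2, 4, 5, 6, 7, 8, 9, 10, 13, 14]), ([1, 3, 11, 13], [0, 2, 4, 5, 6, 7, 8, 9, 10, 12, 14]), ([1, 3, 11, 14], [0, 2, 4, 5, 6, 7, 8, 9, 10, 12, 13]), ([1, 3, 12, 13], [0, 2, 4, 5, 6, 7, 8, 9, 10, 11, 14]), ([1, 3, 12, 14], [0, 2, 4, 5, 6, 7, 8, 9, 10, 11, 13]), ([1, 3, 13, 14], [0, 2, 4, 5, 6, 7, 8, 9, 10, 11, 12]), ([1, 4, 5, 6], [0, 2, 3, 7, 8, 9, 10, 11, 12, 13, 14]), ([1, 4, 5, 7], [0, 2, 3, 6, 8, 9, 10, 11, 12, 13, 14]), ([1, 4, 5, 8], [0, 2, 3, 6, 7, 9, 10, 11, 12, 13, 14]), ([1, 4, 5, 9], [0, 2, 3, 6, 7, 8, 10, 11, 12, 13, 14]), ([1, 4, 5, 10], [0, 2, 3, 6, 7, 8, 9, 11, 12, 13, 14]), ([1, 4, 5, 11], [0, 2, 3, 6, 7, 8,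 9, 10, 12, 13, 14]), ([1, 4, 5, 12], [0, 2, 3, 6, 7, 8, 9, 10, 11, 13, 14]), ([1, 4, 5, 13], [0, 2, 3, 6, 7, 8, 9, 10, 11, 12, 14]), ([1, 4, 5, 14], [0, 2, 3, 6, 7, 8, 9, 10, 11, 12, 13]), ([1, 4, 6, 7], [0, 2, 3, 5, 8, 9, 10, 11, 12, 13, 14]), ([1, 4, 6, 8], [0, 2, 3, 5, 7, 9, 10, 11, 12, 13, 14]), ([1, 4, 6, 9], [0, 2, 3, 5, 7, 8, 10, 11, 12, 13, 14]), ([1, 4, 6, 10], [0, 2, 3, 5, 7, 8, 9, 11, 12, 13, 14]), ([1, 4, 6, 11], [0, 2, 3, 5, 7, 8, 9, 10, 12, 13, 14]), ([1, 4, 6, 12], [0, 2, 3, 5, 7, 8, 9, 10, 11, 13, 14]), ([1, 4, 6, 13], [0, 2, 3, 5, 7, 8, 9, 10, 11, 12, 14]), ([1, 4, 6, 14], [0, 2, 3, 5, 7, 8, 9, 10, 11, 12, 13]), ([1, 4, 7, 8], [0, 2, 3, 5, 6, 9, 10, 11, 12, 13, 14]), ([1, 4, 7, 9], [0, 2, 3, 5, 6, 8, 10, 11, 12, 13,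 14]), ([1, 4, 7, 10], [0, 2, 3, 5, 6, 8, 9, 11, 12, 13, 14]), ([1, 4, 7, 11], [0, 2, 3, 5, 6, 8, 9, 10, 12, 13, 14]), ([1, 4, 7, 12], [0, 2, 3, 5, 6, 8, 9, 10, 11, 13, 14]), ([1, 4, 7, 13], [0, 2, 3, 5, 6, 8, 9, 10, 11, 12, 14]), ([1, 4, 7, 14], [0, 2, 3, 5, 6, 8, 9, 10, 11, 12, 13]), ([1, 4, 8, 9], [0, 2, 3, 5, 6, 7, 10, 11, 12, 13, 14]), ([1, 4, 8, 10], [0, 2, 3, 5, 6, 7, 9, 11, 12, 13, 14]), ([1, 4, 8, 11], [0, 2, 3, 5, 6, 7, 9, 10, 12, 13, 14]), ([1, 4, 8, 12], [0, 2, 3, 5, 6, 7, 9, 10, 11, 13, 14]), ([1, 4, 8, 13], [0, 2, 3, 5, 6, 7, 9, 10, 11, 12, 14]), ([1, 4, 8, 14], [0, 2, 3, 5, 6, 7, 9, 10, 11, 12, 13]), ([1, 4, 9, 10], [0, 2, 3, 5, 6, 7, 8, 11, 12, 13, 14]), ([1, 4, 9, 11], [0, 2, 3, 5, 6, 7, 8, 10, 12, 13, 14]), ([1, 4,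 9, 12], [0, 2, 3, 5, 6, 7, 8, 10, 11, 13, 14]), ([1, 4, 9, 13], [0, 2, 3, 5, 6, 7, 8, 10, 11, 12, 14]), ([1, 4, 9, 14], [0, 2, 3, 5, 6, 7, 8, 10, 11, 12, 13]), ([1, 4, 10, 11], [0, 2, 3, 5, 6, 7, 8, 9, 12, 13, 14]), ([1, 4, 10, 12], [0, 2, 3, 5, 6, 7, 8, 9, 11, 13, 14]), ([1, 4, 10, 13], [0, 2, 3, 5, 6, 7, 8, 9, 11, 12, 14]), ([1, 4, 10, 14], [0, 2, 3, 5, 6, 7, 8, 9, 11, 12, 13]), ([1, 4, 11, 12], [0, 2, 3, 5, 6, 7, 8, 9, 10, 13, 14]), ([1, 4, 11, 13], [0, 2, 3, 5, 6, 7, 8, 9, 10, 12, 14]), ([1, 4, 11, 14], [0, 2, 3, 5, 6, 7, 8, 9, 10, 12, 13]), ([1, 4, 12, 13], [0, 2, 3, 5, 6, 7, 8, 9, 10, 11, 14]), ([1, 4, 12, 14], [0, 2, 3, 5, 6, 7, 8, 9, 10, 11, 13]), ([1, 4, 13, 14], [0, 2, 3, 5, 6, 7, 8, 9, 10, 11, 12]), ([1, 5, 6, 7], [0, 2,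 3, 4, 8, 9, 10, 11, 12, 13, 14]), ([1, 5, 6, 8], [0, 2, 3, 4, 7, 9, 10, 11, 12, 13, 14]), ([1, 5, 6, 9], [0, 2, 3, 4, 7, 8, 10, 11, 12, 13, 14]), ([1, 5, 6, 10], [0, 2, 3, 4, 7, 8, 9, 11, 12, 13, 14]), ([1, 5, 6, 11], [0, 2, 3, 4, 7, 8, 9, 10, 12, 13, 14]), ([1, 5, 6, 12], [0, 2, 3, 4, 7, 8, 9, 10, 11, 13, 14]), ([1, 5, 6, 13], [0, 2, 3, 4, 7, 8, 9, 10, 11, 12, 14]), ([1, 5, 6, 14], [0, 2, 3, 4, 7, 8, 9, 10, 11, 12, 13]), ([1, 5, 7, 8], [0, 2, 3, 4, 6, 9, 10, 11, 12, 13, 14]), ([1, 5, 7, 9], [0, 2, 3, 4, 6, 8, 10, 11, 12, 13, 14]), ([1, 5, 7, 10], [0, 2, 3, 4, 6, 8, 9, 11, 12, 13, 14]), ([1, 5, 7, 11], [0, 2, 3, 4, 6, 8, 9, 10, 12, 13, 14]), ([1, 5, 7, 12], [0, 2, 3, 4, 6, 8, 9, 10, 11, 13, 14]), ([1, 5, 7, 13], [0, 2, 3, 4, 6, 8,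 9, 10, 11, 12, 14]), ([1, 5, 7, 14], [0, 2, 3, 4, 6, 8, 9, 10, 11, 12, 13]), ([1, 5, 8, 9], [0, 2, 3, 4, 6, 7, 10, 11, 12, 13, 14]), ([1, 5, 8, 10], [0, 2, 3, 4, 6, 7, 9, 11, 12, 13, 14]), ([1, 5, 8, 11], [0, 2, 3, 4, 6, 7, 9, 10, 12, 13, 14]), ([1, 5, 8, 12], [0, 2, 3, 4, 6, 7, 9, 10, 11, 13, 14]), ([1, 5, 8, 13], [0, 2, 3, 4, 6, 7, 9, 10, 11, 12, 14]), ([1, 5, 8, 14], [0, 2, 3, 4, 6, 7, 9, 10, 11, 12, 13]), ([1, 5, 9, 10], [0, 2, 3, 4, 6, 7, 8, 11, 12, 13, 14]), ([1, 5, 9, 11], [0, 2, 3, 4, 6, 7, 8, 10, 12, 13, 14]), ([1, 5, 9, 12], [0, 2, 3, 4, 6, 7, 8, 10, 11, 13, 14]), ([1, 5, 9, 13], [0, 2, 3, 4, 6, 7, 8, 10, 11, 12, 14]), ([1, 5, 9, 14], [0, 2, 3, 4, 6, 7, 8, 10, 11, 12, 13]), ([1, 5, 10, 11], [0, 2, 3, 4, 6, 7, 8, 9, 12, 13,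 14]), ([1, 5, 10, 12], [0, 2, 3, 4, 6, 7, 8, 9, 11, 13, 14]), ([1, 5, 10, 13], [0, 2, 3, 4, 6, 7, 8, 9, 11, 12, 14]), ([1, 5, 10, 14], [0, 2, 3, 4, 6, 7, 8, 9, 11, 12, 13]), ([1, 5, 11, 12], [0, 2, 3, 4, 6, 7, 8, 9, 10, 13, 14]), ([1, 5, 11, 13], [0, 2, 3, 4, 6, 7, 8, 9, 10, 12, 14]), ([1, 5, 11, 14], [0, 2, 3, 4, 6, 7, 8, 9, 10, 12, 13]), ([1, 5, 12, 13], [0, 2, 3, 4, 6, 7, 8, 9, 10, 11, 14]), ([1, 5, 12, 14], [0, 2, 3, 4, 6, 7, 8, 9, 10, 11, 13]), ([1, 5, 13, 14], [0, 2, 3, 4, 6, 7, 8, 9, 10, 11, 12]), ([1, 6, 7, 8], [0, 2, 3, 4, 5, 9, 10, 11, 12, 13, 14]), ([1, 6, 7, 9], [0, 2, 3, 4, 5, 8, 10, 11, 12, 13, 14]), ([1, 6, 7, 10], [0, 2, 3, 4, 5, 8, 9, 11, 12, 13, 14]), ([1, 6, 7, 11], [0, 2, 3, 4, 5, 8, 9, 10, 12, 13, 14]), ([1, 6,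 7, 12], [0, 2, 3, 4, 5, 8, 9, 10, 11, 13, 14]), ([1, 6, 7, 13], [0, 2, 3, 4, 5, 8, 9, 10, 11, 12, 14]), ([1, 6, 7, 14], [0, 2, 3, 4, 5, 8, 9, 10, 11, 12, 13]), ([1, 6, 8, 9], [0, 2, 3, 4, 5, 7, 10, 11, 12, 13, 14]), ([1, 6, 8, 10], [0, 2, 3, 4, 5, 7, 9, 11, 12, 13, 14]), ([1, 6, 8, 11], [0, 2, 3, 4, 5, 7, 9, 10, 12, 13, 14]), ([1, 6, 8, 12], [0, 2, 3, 4, 5, 7, 9, 10, 11, 13, 14]), ([1, 6, 8, 13], [0, 2, 3, 4, 5, 7, 9, 10, 11, 12, 14]), ([1, 6, 8, 14], [0, 2, 3, 4, 5, 7, 9, 10, 11, 12, 13]), ([1, 6, 9, 10], [0, 2, 3, 4, 5, 7, 8, 11, 12, 13, 14]), ([1, 6, 9, 11], [0, 2, 3, 4, 5, 7, 8, 10, 12, 13, 14]), ([1, 6, 9, 12], [0, 2, 3, 4, 5, 7, 8, 10, 11, 13, 14]), ([1, 6, 9, 13], [0, 2, 3, 4, 5, 7, 8, 10, 11, 12, 14]), ([1, 6, 9, 14], [0, 2,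 3, 4, 5, 7, 8, 10, 11, 12, 13]), ([1, 6, 10, 11], [0, 2, 3, 4, 5, 7, 8, 9, 12, 13, 14]), ([1, 6, 10, 12], [0, 2, 3, 4, 5, 7, 8, 9, 11, 13, 14]), ([1, 6, 10, 13], [0, 2, 3, 4, 5, 7, 8, 9, 11, 12, 14]), ([1, 6, 10, 14], [0, 2, 3, 4, 5, 7, 8, 9, 11, 12, 13]), ([1, 6, 11, 12], [0, 2, 3, 4, 5, 7, 8, 9, 10, 13, 14]), ([1, 6, 11, 13], [0, 2, 3, 4, 5, 7, 8, 9, 10, 12, 14]), ([1, 6, 11, 14], [0, 2, 3, 4, 5, 7, 8, 9, 10, 12, 13]), ([1, 6, 12, 13], [0, 2, 3, 4, 5, 7, 8, 9, 10, 11, 14]), ([1, 6, 12, 14], [0, 2, 3, 4, 5, 7, 8, 9, 10, 11, 13]), ([1, 6, 13, 14], [0, 2, 3, 4, 5, 7, 8, 9, 10, 11, 12]), ([1, 7, 8, 9], [0, 2, 3, 4, 5, 6, 10, 11, 12, 13, 14]), ([1, 7, 8, 10], [0, 2, 3, 4, 5, 6, 9, 11, 12, 13, 14]), ([1, 7, 8, 11], [0, 2, 3, 4, 5, 6, 9,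 10, 12, 13, 14]), ([1, 7, 8, 12], [0, 2, 3, 4, 5, 6, 9, 10, 11, 13, 14]), ([1, 7, 8, 13], [0, 2, 3, 4, 5, 6, 9, 10, 11, 12, 14]), ([1, 7, 8, 14], [0, 2, 3, 4, 5, 6, 9, 10, 11, 12, 13]), ([1, 7, 9, 10], [0, 2, 3, 4, 5, 6, 8, 11, 12, 13, 14]), ([1, 7, 9, 11], [0, 2, 3, 4, 5, 6, 8, 10, 12, 13, 14]), ([1, 7, 9, 12], [0, 2, 3, 4, 5, 6, 8, 10, 11, 13, 14]), ([1, 7, 9, 13], [0, 2, 3, 4, 5, 6, 8, 10, 11, 12, 14]), ([1, 7, 9, 14], [0, 2, 3, 4, 5, 6, 8, 10, 11, 12, 13]), ([1, 7, 10, 11], [0, 2, 3, 4, 5, 6, 8, 9, 12, 13, 14]), ([1, 7, 10, 12], [0, 2, 3, 4, 5, 6, 8, 9, 11, 13, 14]), ([1, 7, 10, 13], [0, 2, 3, 4, 5, 6, 8, 9, 11, 12, 14]), ([1, 7, 10, 14], [0, 2, 3, 4, 5, 6, 8, 9, 11, 12, 13]), ([1, 7, 11, 12], [0, 2, 3, 4, 5, 6, 8, 9, 10, 13, 14]),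 ([1, 7, 11, 13], [0, 2, 3, 4, 5, 6, 8, 9, 10, 12, 14]), ([1, 7, 11, 14], [0, 2, 3, 4, 5, 6, 8, 9, 10, 12, 13]), ([1, 7, 12, 13], [0, 2, 3, 4, 5, 6, 8, 9, 10, 11, 14]), ([1, 7, 12, 14], [0, 2, 3, 4, 5, 6, 8, 9, 10, 11, 13]), ([1, 7, 13, 14], [0, 2, 3, 4, 5, 6, 8, 9, 10, 11, 12]), ([1, 8, 9, 10], [0, 2, 3, 4, 5, 6, 7, 11, 12, 13, 14]), ([1, 8, 9, 11], [0, 2, 3, 4, 5, 6, 7, 10, 12, 13, 14]), ([1, 8, 9, 12], [0, 2, 3, 4, 5, 6, 7, 10, 11, 13, 14]), ([1, 8, 9, 13], [0, 2, 3, 4, 5, 6, 7, 10, 11, 12, 14]), ([1, 8, 9, 14], [0, 2, 3, 4, 5, 6, 7, 10, 11, 12, 13]), ([1, 8, 10, 11], [0, 2, 3, 4, 5, 6, 7, 9, 12, 13, 14]), ([1, 8, 10, 12], [0, 2, 3, 4, 5, 6, 7, 9, 11, 13, 14]), ([1, 8, 10, 13], [0, 2, 3, 4, 5, 6, 7, 9, 11, 12, 14]), ([1, 8, 10, 14],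 [0, 2, 3, 4, 5, 6, 7, 9, 11, 12, 13]), ([1, 8, 11, 12], [0, 2, 3, 4, 5, 6, 7, 9, 10, 13, 14]), ([1, 8, 11, 13], [0, 2, 3, 4, 5, 6, 7, 9, 10, 12, 14]), ([1, 8, 11, 14], [0, 2, 3, 4, 5, 6, 7, 9, 10, 12, 13]), ([1, 8, 12, 13], [0, 2, 3, 4, 5, 6, 7, 9, 10, 11, 14]), ([1, 8, 12, 14], [0, 2, 3, 4, 5, 6, 7, 9, 10, 11, 13]), ([1, 8, 13, 14], [0, 2, 3, 4, 5, 6, 7, 9, 10, 11, 12]), ([1, 9, 10, 11], [0, 2, 3, 4, 5, 6, 7, 8, 12, 13, 14]), ([1, 9, 10, 12], [0, 2, 3, 4, 5, 6, 7, 8, 11, 13, 14]), ([1, 9, 10, 13], [0, 2, 3, 4, 5, 6, 7, 8, 11, 12, 14]), ([1, 9, 10, 14], [0, 2, 3, 4, 5, 6, 7, 8, 11, 12, 13]), ([1, 9, 11, 12], [0, 2, 3, 4, 5, 6, 7, 8, 10, 13, 14]), ([1, 9, 11, 13], [0, 2, 3, 4, 5, 6, 7, 8, 10, 12, 14]), ([1, 9, 11, 14], [0, 2, 3, 4,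 5, 6, 7, 8, 10, 12, 13]), ([1, 9, 12, 13], [0, 2, 3, 4, 5, 6, 7, 8, 10, 11, 14]), ([1, 9, 12, 14], [0, 2, 3, 4, 5, 6, 7, 8, 10, 11, 13]), ([1, 9, 13, 14], [0, 2, 3, 4, 5, 6, 7, 8, 10, 11, 12]), ([1, 10, 11, 12], [0, 2, 3, 4, 5, 6, 7, 8, 9, 13, 14]), ([1, 10, 11, 13], [0, 2, 3, 4, 5, 6, 7, 8, 9, 12, 14]), ([1, 10, 11, 14], [0, 2, 3, 4, 5, 6, 7, 8, 9, 12, 13]), ([1, 10, 12, 13], [0, 2, 3, 4, 5, 6, 7, 8, 9, 11, 14]), ([1, 10, 12, 14], [0, 2, 3, 4, 5, 6, 7, 8, 9, 11, 13]), ([1, 10, 13, 14], [0, 2, 3, 4, 5, 6, 7, 8, 9, 11, 12]), ([1, 11, 12, 13], [0, 2, 3, 4, 5, 6, 7, 8, 9, 10, 14]), ([1, 11, 12, 14], [0, 2, 3, 4, 5, 6, 7, 8, 9, 10, 13]), ([1, 11, 13, 14], [0, 2, 3, 4, 5, 6, 7, 8, 9, 10, 12]), ([1, 12, 13, 14], [0, 2, 3, 4, 5, 6, 7, 8,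 9, 10, 11])]

theorem all_pats {P : ℕ → Pt} (hf : Frame 15 P) (hK : ¬ HCPle (P '' {i | i < 15}) 4) :
    ∀ x ∈ pats, ¬ EA x.1 x.2 P :=
  (List.forall_mem_cons.2 ⟨e0 hf hK, (List.forall_mem_cons.2 ⟨e1 hf hK, (List.forall_mem_cons.2 ⟨e2 hf hK, (List.forall_mem_cons.2 ⟨e3 hf hK, (List.forall_mem_cons.2 ⟨e4 hf hK, (List.forall_mem_cons.2 ⟨e5 hf hK, (List.forall_mem_cons.2 ⟨e6 hf hK, (List.forall_mem_cons.2 ⟨e7 hf hK, (List.forall_mem_cons.2 ⟨e8 hf hK, (List.forall_mem_cons.2 ⟨e9 hf hK, (List.forall_mem_cons.2 ⟨e10 hf hK, (List.forall_mem_cons.2 ⟨e11 hf hK, (List.forall_mem_cons.2 ⟨e12 hf hK, (List.forall_mem_cons.2 ⟨e13 hf hK, (List.forall_mem_cons.2 ⟨e14 hf hK, (List.forall_mem_cons.2 ⟨e15 hf hK, (List.forall_mem_cons.2 ⟨e16 hf hK, (List.forall_mem_cons.2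 ⟨e17 hf hK, (List.forall_mem_cons.2 ⟨e18 hf hK, (List.forall_mem_cons.2 ⟨e19 hf hK, (List.forall_mem_cons.2 ⟨e20 hf hK, (List.forall_mem_cons.2 ⟨e21 hf hK, (List.forall_mem_cons.2 ⟨e22 hf hK, (List.forall_mem_cons.2 ⟨e23 hf hK, (List.forall_mem_cons.2 ⟨e24 hf hK, (List.forall_mem_cons.2 ⟨e25 hf hK, (List.forall_mem_cons.2 ⟨e26 hf hK, (List.forall_mem_cons.2 ⟨e27 hf hK, (List.forall_mem_cons.2 ⟨e28 hf hK, (List.forall_mem_cons.2 ⟨e29 hf hK, (List.forall_mem_cons.2 ⟨e30 hf hK, (List.forall_mem_cons.2 ⟨e31 hf hK, (List.forall_mem_cons.2 ⟨e32 hf hK, (List.forall_mem_cons.2 ⟨e33 hf hK, (List.forall_mem_cons.2 ⟨e34 hf hK, (List.forall_mem_cons.2 ⟨e35 hf hK, (List.forall_mem_cons.2 ⟨e36 hf hK, (List.forall_mem_cons.2 ⟨e37 hf hK, (List.forall_mem_cons.2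 ⟨e38 hf hK, (List.forall_mem_cons.2 ⟨e39 hf hK, (List.forall_mem_cons.2 ⟨e40 hf hK, (List.forall_mem_cons.2 ⟨e41 hf hK, (List.forall_mem_cons.2 ⟨e42 hf hK, (List.forall_mem_cons.2 ⟨e43 hf hK, (List.forall_mem_cons.2 ⟨e44 hf hK, (List.forall_mem_cons.2 ⟨e45 hf hK, (List.forall_mem_cons.2 ⟨e46 hf hK, (List.forall_mem_cons.2 ⟨e47 hf hK, (List.forall_mem_cons.2 ⟨e48 hf hK, (List.forall_mem_cons.2 ⟨e49 hf hK, (List.forall_mem_cons.2 ⟨e50 hf hK, (List.forall_mem_cons.2 ⟨e51 hf hK, (List.forall_mem_cons.2 ⟨e52 hf hK, (List.forall_mem_cons.2 ⟨e53 hf hK, (List.forall_mem_cons.2 ⟨e54 hf hK, (List.forall_mem_cons.2 ⟨e55 hf hK, (List.forall_mem_cons.2 ⟨e56 hf hK, (List.forall_mem_cons.2 ⟨e57 hf hK, (List.forall_mem_cons.2 ⟨e58 hf hK, (List.forall_mem_cons.2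 ⟨e59 hf hK, (List.forall_mem_cons.2 ⟨e60 hf hK, (List.forall_mem_cons.2 ⟨e61 hf hK, (List.forall_mem_cons.2 ⟨e62 hf hK, (List.forall_mem_cons.2 ⟨e63 hf hK, (List.forall_mem_cons.2 ⟨e64 hf hK, (List.forall_mem_cons.2 ⟨e65 hf hK, (List.forall_mem_cons.2 ⟨e66 hf hK, (List.forall_mem_cons.2 ⟨e67 hf hK, (List.forall_mem_cons.2 ⟨e68 hf hK, (List.forall_mem_cons.2 ⟨e69 hf hK, (List.forall_mem_cons.2 ⟨e70 hf hK, (List.forall_mem_cons.2 ⟨e71 hf hK, (List.forall_mem_cons.2 ⟨e72 hf hK, (List.forall_mem_cons.2 ⟨e73 hf hK, (List.forall_mem_cons.2 ⟨e74 hf hK, (List.forall_mem_cons.2 ⟨e75 hf hK, (List.forall_mem_cons.2 ⟨e76 hf hK, (List.forall_mem_cons.2 ⟨e77 hf hK, (List.forall_mem_cons.2 ⟨e78 hf hK, (List.forall_mem_cons.2 ⟨e79 hf hK, (List.forall_mem_cons.2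 ⟨e80 hf hK, (List.forall_mem_cons.2 ⟨e81 hf hK, (List.forall_mem_cons.2 ⟨e82 hf hK, (List.forall_mem_cons.2 ⟨e83 hf hK, (List.forall_mem_cons.2 ⟨e84 hf hK, (List.forall_mem_cons.2 ⟨e85 hf hK, (List.forall_mem_cons.2 ⟨e86 hf hK, (List.forall_mem_cons.2 ⟨e87 hf hK, (List.forall_mem_cons.2 ⟨e88 hf hK, (List.forall_mem_cons.2 ⟨e89 hf hK, (List.forall_mem_cons.2 ⟨e90 hf hK, (List.forall_mem_cons.2 ⟨e91 hf hK, (List.forall_mem_cons.2 ⟨e92 hf hK, (List.forall_mem_cons.2 ⟨e93 hf hK, (List.forall_mem_cons.2 ⟨e94 hf hK, (List.forall_mem_cons.2 ⟨e95 hf hK, (List.forall_mem_cons.2 ⟨e96 hf hK, (List.forall_mem_cons.2 ⟨e97 hf hK, (List.forall_mem_cons.2 ⟨e98 hf hK, (List.forall_mem_cons.2 ⟨e99 hf hK, (List.forall_mem_cons.2 ⟨e100 hf hK, (List.forall_mem_cons.2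 ⟨e101 hf hK, (List.forall_mem_cons.2 ⟨e102 hf hK, (List.forall_mem_cons.2 ⟨e103 hf hK, (List.forall_mem_cons.2 ⟨e104 hf hK, (List.forall_mem_cons.2 ⟨e105 hf hK, (List.forall_mem_cons.2 ⟨e106 hf hK, (List.forall_mem_cons.2 ⟨e107 hf hK, (List.forall_mem_cons.2 ⟨e108 hf hK, (List.forall_mem_cons.2 ⟨e109 hf hK, (List.forall_mem_cons.2 ⟨e110 hf hK, (List.forall_mem_cons.2 ⟨e111 hf hK, (List.forall_mem_cons.2 ⟨e112 hf hK, (List.forall_mem_cons.2 ⟨e113 hf hK, (List.forall_mem_cons.2 ⟨e114 hf hK, (List.forall_mem_cons.2 ⟨e115 hf hK, (List.forall_mem_cons.2 ⟨e116 hf hK, (List.forall_mem_cons.2 ⟨e117 hf hK, (List.forall_mem_cons.2 ⟨e118 hf hK, (List.forall_mem_cons.2 ⟨e119 hf hK, (List.forall_mem_cons.2 ⟨e120 hf hK, (List.forall_mem_cons.2 ⟨e121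 hf hK, (List.forall_mem_cons.2 ⟨e122 hf hK, (List.forall_mem_cons.2 ⟨e123 hf hK, (List.forall_mem_cons.2 ⟨e124 hf hK, (List.forall_mem_cons.2 ⟨e125 hf hK, (List.forall_mem_cons.2 ⟨e126 hf hK, (List.forall_mem_cons.2 ⟨e127 hf hK, (List.forall_mem_cons.2 ⟨e128 hf hK, (List.forall_mem_cons.2 ⟨e129 hf hK, (List.forall_mem_cons.2 ⟨e130 hf hK, (List.forall_mem_cons.2 ⟨e131 hf hK, (List.forall_mem_cons.2 ⟨e132 hf hK, (List.forall_mem_cons.2 ⟨e133 hf hK, (List.forall_mem_cons.2 ⟨e134 hf hK, (List.forall_mem_cons.2 ⟨e135 hf hK, (List.forall_mem_cons.2 ⟨e136 hf hK, (List.forall_mem_cons.2 ⟨e137 hf hK, (List.forall_mem_cons.2 ⟨e138 hf hK, (List.forall_mem_cons.2 ⟨e139 hf hK, (List.forall_mem_cons.2 ⟨e140 hf hK, (List.forall_mem_cons.2 ⟨e141 hf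 hK, (List.forall_mem_cons.2 ⟨e142 hf hK, (List.forall_mem_cons.2 ⟨e143 hf hK, (List.forall_mem_cons.2 ⟨e144 hf hK, (List.forall_mem_cons.2 ⟨e145 hf hK, (List.forall_mem_cons.2 ⟨e146 hf hK, (List.forall_mem_cons.2 ⟨e147 hf hK, (List.forall_mem_cons.2 ⟨e148 hf hK, (List.forall_mem_cons.2 ⟨e149 hf hK, (List.forall_mem_cons.2 ⟨e150 hf hK, (List.forall_mem_cons.2 ⟨e151 hf hK, (List.forall_mem_cons.2 ⟨e152 hf hK, (List.forall_mem_cons.2 ⟨e153 hf hK, (List.forall_mem_cons.2 ⟨e154 hf hK, (List.forall_mem_cons.2 ⟨e155 hf hK, (List.forall_mem_cons.2 ⟨e156 hf hK, (List.forall_mem_cons.2 ⟨e157 hf hK, (List.forall_mem_cons.2 ⟨e158 hf hK, (List.forall_mem_cons.2 ⟨e159 hf hK, (List.forall_mem_cons.2 ⟨e160 hf hK, (List.forall_mem_cons.2 ⟨e161 hf hK,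 (List.forall_mem_cons.2 ⟨e162 hf hK, (List.forall_mem_cons.2 ⟨e163 hf hK, (List.forall_mem_cons.2 ⟨e164 hf hK, (List.forall_mem_cons.2 ⟨e165 hf hK, (List.forall_mem_cons.2 ⟨e166 hf hK, (List.forall_mem_cons.2 ⟨e167 hf hK, (List.forall_mem_cons.2 ⟨e168 hf hK, (List.forall_mem_cons.2 ⟨e169 hf hK, (List.forall_mem_cons.2 ⟨e170 hf hK, (List.forall_mem_cons.2 ⟨e171 hf hK, (List.forall_mem_cons.2 ⟨e172 hf hK, (List.forall_mem_cons.2 ⟨e173 hf hK, (List.forall_mem_cons.2 ⟨e174 hf hK, (List.forall_mem_cons.2 ⟨e175 hf hK, (List.forall_mem_cons.2 ⟨e176 hf hK, (List.forall_mem_cons.2 ⟨e177 hf hK, (List.forall_mem_cons.2 ⟨e178 hf hK, (List.forall_mem_cons.2 ⟨e179 hf hK, (List.forall_mem_cons.2 ⟨e180 hf hK, (List.forall_mem_cons.2 ⟨e181 hf hK, (List.forall_mem_cons.2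 ⟨e182 hf hK, (List.forall_mem_cons.2 ⟨e183 hf hK, (List.forall_mem_cons.2 ⟨e184 hf hK, (List.forall_mem_cons.2 ⟨e185 hf hK, (List.forall_mem_cons.2 ⟨e186 hf hK, (List.forall_mem_cons.2 ⟨e187 hf hK, (List.forall_mem_cons.2 ⟨e188 hf hK, (List.forall_mem_cons.2 ⟨e189 hf hK, (List.forall_mem_cons.2 ⟨e190 hf hK, (List.forall_mem_cons.2 ⟨e191 hf hK, (List.forall_mem_cons.2 ⟨e192 hf hK, (List.forall_mem_cons.2 ⟨e193 hf hK, (List.forall_mem_cons.2 ⟨e194 hf hK, (List.forall_mem_cons.2 ⟨e195 hf hK, (List.forall_mem_cons.2 ⟨e196 hf hK, (List.forall_mem_cons.2 ⟨e197 hf hK, (List.forall_mem_cons.2 ⟨e198 hf hK, (List.forall_mem_cons.2 ⟨e199 hf hK, (List.forall_mem_cons.2 ⟨e200 hf hK, (List.forall_mem_cons.2 ⟨e201 hf hK, (List.forall_mem_cons.2 ⟨e202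 hf hK, (List.forall_mem_cons.2 ⟨e203 hf hK, (List.forall_mem_cons.2 ⟨e204 hf hK, (List.forall_mem_cons.2 ⟨e205 hf hK, (List.forall_mem_cons.2 ⟨e206 hf hK, (List.forall_mem_cons.2 ⟨e207 hf hK, (List.forall_mem_cons.2 ⟨e208 hf hK, (List.forall_mem_cons.2 ⟨e209 hf hK, (List.forall_mem_cons.2 ⟨e210 hf hK, (List.forall_mem_cons.2 ⟨e211 hf hK, (List.forall_mem_cons.2 ⟨e212 hf hK, (List.forall_mem_cons.2 ⟨e213 hf hK, (List.forall_mem_cons.2 ⟨e214 hf hK, (List.forall_mem_cons.2 ⟨e215 hf hK, (List.forall_mem_cons.2 ⟨e216 hf hK, (List.forall_mem_cons.2 ⟨e217 hf hK, (List.forall_mem_cons.2 ⟨e218 hf hK, (List.forall_mem_cons.2 ⟨e219 hf hK, (List.forall_mem_cons.2 ⟨e220 hf hK, (List.forall_mem_cons.2 ⟨e221 hf hK, (List.forall_mem_cons.2 ⟨e222 hf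 hK, (List.forall_mem_cons.2 ⟨e223 hf hK, (List.forall_mem_cons.2 ⟨e224 hf hK, (List.forall_mem_cons.2 ⟨e225 hf hK, (List.forall_mem_cons.2 ⟨e226 hf hK, (List.forall_mem_cons.2 ⟨e227 hf hK, (List.forall_mem_cons.2 ⟨e228 hf hK, (List.forall_mem_cons.2 ⟨e229 hf hK, (List.forall_mem_cons.2 ⟨e230 hf hK, (List.forall_mem_cons.2 ⟨e231 hf hK, (List.forall_mem_cons.2 ⟨e232 hf hK, (List.forall_mem_cons.2 ⟨e233 hf hK, (List.forall_mem_cons.2 ⟨e234 hf hK, (List.forall_mem_cons.2 ⟨e235 hf hK, (List.forall_mem_cons.2 ⟨e236 hf hK, (List.forall_mem_cons.2 ⟨e237 hf hK, (List.forall_mem_cons.2 ⟨e238 hf hK, (List.forall_mem_cons.2 ⟨e239 hf hK, (List.forall_mem_cons.2 ⟨e240 hf hK, (List.forall_mem_cons.2 ⟨e241 hf hK, (List.forall_mem_cons.2 ⟨e242 hf hK,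 (List.forall_mem_cons.2 ⟨e243 hf hK, (List.forall_mem_cons.2 ⟨e244 hf hK, (List.forall_mem_cons.2 ⟨e245 hf hK, (List.forall_mem_cons.2 ⟨e246 hf hK, (List.forall_mem_cons.2 ⟨e247 hf hK, (List.forall_mem_cons.2 ⟨e248 hf hK, (List.forall_mem_cons.2 ⟨e249 hf hK, (List.forall_mem_cons.2 ⟨e250 hf hK, (List.forall_mem_cons.2 ⟨e251 hf hK, (List.forall_mem_cons.2 ⟨e252 hf hK, (List.forall_mem_cons.2 ⟨e253 hf hK, (List.forall_mem_cons.2 ⟨e254 hf hK, (List.forall_mem_cons.2 ⟨e255 hf hK, (List.forall_mem_cons.2 ⟨e256 hf hK, (List.forall_mem_cons.2 ⟨e257 hf hK, (List.forall_mem_cons.2 ⟨e258 hf hK, (List.forall_mem_cons.2 ⟨e259 hf hK, (List.forall_mem_cons.2 ⟨e260 hf hK, (List.forall_mem_cons.2 ⟨e261 hf hK, (List.forall_mem_cons.2 ⟨e262 hf hK, (List.forall_mem_cons.2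 ⟨e263 hf hK, (List.forall_mem_cons.2 ⟨e264 hf hK, (List.forall_mem_cons.2 ⟨e265 hf hK, (List.forall_mem_cons.2 ⟨e266 hf hK, (List.forall_mem_cons.2 ⟨e267 hf hK, (List.forall_mem_cons.2 ⟨e268 hf hK, (List.forall_mem_cons.2 ⟨e269 hf hK, (List.forall_mem_cons.2 ⟨e270 hf hK, (List.forall_mem_cons.2 ⟨e271 hf hK, (List.forall_mem_cons.2 ⟨e272 hf hK, (List.forall_mem_cons.2 ⟨e273 hf hK, (List.forall_mem_cons.2 ⟨e274 hf hK, (List.forall_mem_cons.2 ⟨e275 hf hK, (List.forall_mem_cons.2 ⟨e276 hf hK, (List.forall_mem_cons.2 ⟨e277 hf hK, (List.forall_mem_cons.2 ⟨e278 hf hK, (List.forall_mem_cons.2 ⟨e279 hf hK, (List.forall_mem_cons.2 ⟨e280 hf hK, (List.forall_mem_cons.2 ⟨e281 hf hK, (List.forall_mem_cons.2 ⟨e282 hf hK, (List.forall_mem_cons.2 ⟨e283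 hf hK, (List.forall_mem_cons.2 ⟨e284 hf hK, (List.forall_mem_cons.2 ⟨e285 hf hK, (fun _ hx => absurd hx (List.not_mem_nil))⟩)⟩)⟩)⟩)⟩)⟩)⟩)⟩)⟩)⟩)⟩)⟩)⟩)⟩)⟩)⟩)⟩)⟩)⟩)⟩)⟩)⟩)⟩)⟩)⟩)⟩)⟩)⟩)⟩)⟩)⟩)⟩)⟩)⟩)⟩)⟩)⟩)⟩)⟩)⟩)⟩)⟩)⟩)⟩)⟩)⟩)⟩)⟩)⟩)⟩)⟩)⟩)⟩)⟩)⟩)⟩)⟩)⟩)⟩)⟩)⟩)⟩)⟩)⟩)⟩)⟩)⟩)⟩)⟩)⟩)⟩)⟩)⟩)⟩)⟩)⟩)⟩)⟩)⟩)⟩)⟩)⟩)⟩)⟩)⟩)⟩)⟩)⟩)⟩)⟩)⟩)⟩)⟩)⟩)⟩)⟩)⟩)⟩)⟩)⟩)⟩)⟩)⟩)⟩)⟩)⟩)⟩)⟩)⟩)⟩)⟩)⟩)⟩)⟩)⟩)⟩)⟩)⟩)⟩)⟩)⟩)⟩)⟩)⟩)⟩)⟩)⟩)⟩)⟩)⟩)⟩)⟩)⟩)⟩)⟩)⟩)⟩)⟩)⟩)⟩)⟩)⟩)⟩)⟩)⟩)⟩)⟩)⟩)⟩)⟩)⟩)⟩)⟩)⟩)⟩)⟩)⟩)⟩)⟩)⟩)⟩)⟩)⟩)⟩)⟩)⟩)⟩)⟩)⟩)⟩)⟩)⟩)⟩)⟩)⟩)⟩)⟩)⟩)⟩)⟩)⟩)⟩)⟩)⟩)⟩)⟩)⟩)⟩)⟩)⟩)⟩)⟩)⟩)⟩)⟩)⟩)⟩)⟩)⟩)⟩)⟩)⟩)⟩)⟩)⟩)⟩)⟩)⟩)⟩)⟩)⟩)⟩)⟩)⟩)⟩)⟩)⟩)⟩)⟩)⟩)⟩)⟩)⟩)⟩)⟩)⟩)⟩)⟩)⟩)⟩)⟩)⟩)⟩)⟩)⟩)⟩)⟩)⟩)⟩)⟩)⟩)⟩)⟩)⟩)⟩)⟩)⟩)⟩)⟩)⟩)⟩)⟩)⟩)⟩)⟩)⟩)⟩)⟩)⟩)⟩)⟩)⟩)⟩)⟩)⟩)⟩)⟩)⟩)⟩)⟩)⟩)⟩)⟩)⟩)⟩)⟩)⟩)⟩)⟩)⟩)⟩)⟩)⟩)⟩)⟩)⟩)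

end Pool.Agent.GCP.CA
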