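import Pool.Agent.GCP.CB2All
import Pool.Agent.GCP.CA2All
import Pool.Agent.GCP.Lower

/-!
# `G(15) = 4` and `G(n) ≤ 4 ⌈n/15⌉`
-/

namespace Pool.Agent.GCP

/-- The check that all patterns are listed. -/
def patsOK (ps : List (List ℕ × List ℕ)) : Bool :=
  (List.range 15).all fun a => (List.range 15).all fun b => (List.range 15).all fun c =>
    !(lt' 1 a && (lt' a b && lt' b c)) ||
      ps.any fun x => decide (x = ([1, a, b, c], comp 15 [1, a, b, c]))

lemma patsOK_true : patsOK CA.pats = true := by decide +kernel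

theorem pats_complete {a b c : ℕ} (h1 : 1 < a) (h2 : a < b) (h3 : b < c) (h4 : c < 15) :
    ([1, a, b, c], comp 15 [1, a, b, c]) ∈ CA.pats := by
  have h := patsOK_true
  simp only [patsOK, List.all_eq_true, List.mem_range] at h
  have h5 := h a (by omega) b (by omega) c h4
  rw [Bool.or_eq_true] at h5
  rcases h5 with h5 | h5
  · have : (lt' 1 a && (lt' a b && lt' b c)) = true := by
      rw [Bool.and_eq_true, Bool.and_eq_true, lt'_iff, lt'_iff, lt'_iff]
      exact ⟨h1, h2, h3⟩
    rw [this] at h5
    exact absurd h5 (by simp)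
  · rw [List.any_eq_true] at h5
    obtain ⟨x, hx, h6⟩ := h5
    rw [decide_eq_true_eq] at h6
    rw [← h6]
    exact hx

/-- Every set of 15 points in general position has a convex partition with at most 4 parts. -/
theorem hcp15 {X : Finset Pt} (hc : X.card = 15) (hX : GeneralPosition X) :
    HCPle (X : Set Pt) 4 := by
  classical
  by_contra hK
  obtain ⟨P, hf, he⟩ := exists_frame (by omega) hc hX
  have hK' := hK
  rw [he] at hK'
  obtain ⟨A, B, h1, h2, h3, h4⟩ := CB2.caseB hf hK'
  obtain ⟨a1, a2, a3⟩ := full_iff h1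
  have hlen : (A ++ B).length = 15 := by
    simp only [full, Bool.and_eq_true, Nat.beq_eq] at h1
    exact h1.2.2
  rw [List.length_append] at hlen
  have a1' := a1
  rw [List.nodup_append] at a1'
  have hinj : ∀ l : List ℕ, (∀ i ∈ l, i < 15) → l.Nodup → (l.toFinset.image P).card = l.length := by
    intro l hl hnd
    rw [Finset.card_image_of_injOn, List.toFinset_card_of_nodup hnd]
    intro i hi j hj hij
    by_contra hne
    exact hf.inj i j (hl i (List.mem_toFinset.1 hi)) (hl j (List.mem_toFinset.1 hj)) hne hij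
  have hAl : ∀ i ∈ A, i < 15 := fun i hi => a2 i (List.mem_append.2 (Or.inl hi))
  have hBl : ∀ i ∈ B, i < 15 := fun i hi => a2 i (List.mem_append.2 (Or.inr hi))
  have hU : A.toFinset.image P ∪ B.toFinset.image P = X := by
    rw [← Finset.coe_inj, Finset.coe_union, image_list, image_list, he, ← Set.image_union]
    congr 1
    ext i
    rw [Set.mem_ofPred_eq, ← a3 i, List.mem_append]
    rfl
  rw [← image_list, ← image_list] at h4
  obtain ⟨P', hf', he', a, b, c, k1, k2, k3, k4, hE⟩ := frameA
    (by rw [hinj A hAl a1'.1]; exact h2)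
    (by rw [hinj B hBl a1'.2.1]; omega) h3 h4 (by rw [hU]; exact hX)
  rw [hU] at he'
  rw [he'] at hK
  exact CA.all_pats hf' hK _ (pats_complete k1 k2 k3 k4) hE

theorem hcp_le15 {X : Finset Pt} (hc : X.card ≤ 15) (hX : GeneralPosition X) :
    HCPle (X : Set Pt) 4 := by
  have hcases : X.card ≤ 7 ∨ (7 < X.card ∧ X.card ≤ 14) ∨ X.card = 15 := by omega
  rcases hcases with h | ⟨h, h'⟩ | h
  · exact (G7.facts.f2 X h hX).mono (by omega)
  · obtain ⟨A, B, h1, h2, h3, h4, h5, h6⟩ := cut_off rfl hX (show 0 < 7 by omega) h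
    rw [h3]
    exact (G7.facts.f2 A (by omega) (hX.subset h1)).append
      (G7.facts.f2 B (by omega) (hX.subset h2)) h6
  · exact hcp15 h hX

/-- The bound for the remainder. -/
def gr (r : ℕ) : ℕ :=
  if r = 0 then 0 else if r ≤ 3 then 1 else if r ≤ 7 then 2 else if r ≤ 10 then 3 else 4

lemma hcp_empty {X : Finset Pt} (h : X.card = 0) : HCPle (X : Set Pt) 0 := by
  have : X = ∅ := Finset.card_eq_zero.1 h
  subst this
  exact ⟨0, le_refl _, [], rfl, by simp, by simp, by simp⟩

lemma hcp_gr {X : Finset Pt} (hc : X.card < 15) (hX : GeneralPosition X) :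
    HCPle (X : Set Pt) (gr X.card) := by
  have hcases : X.card = 0 ∨ X.card = 1 ∨ X.card = 2 ∨ X.card = 3 ∨
      (3 < X.card ∧ X.card ≤ 7) ∨ (7 < X.card ∧ X.card ≤ 10) ∨ 10 < X.card := by omega
  rcases hcases with h | h | h | h | ⟨h, h'⟩ | ⟨h, h'⟩ | h
  · rw [h]
    exact hcp_empty h
  · rw [h]
    exact small_of_tree facts0 (by omega) h hX 1 (.leaf [0]) (by decide +kernel)
  · rw [h]
    exact small_of_tree facts0 (by omega) h hX 1 (.leaf [0, 1]) (by decide +kernel)
  · rw [h]
    exact small_of_tree facts0 (by omega) h hX 1 (.leaf [0, 1, 2]) (by decide +kernel)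
  · have : gr X.card = 2 := by
      unfold gr
      split_ifs <;> omega
    rw [this]
    exact G7.facts.f2 X h' hX
  · have : gr X.card = 3 := by
      unfold gr
      split_ifs <;> omega
    rw [this]
    exact G7.facts.f3 X h' hX
  · have : gr X.card = 4 := by
      unfold gr
      split_ifs <;> omega
    rw [this]
    exact hcp_le15 (by omega) hX

theorem hcp_all (q r : ℕ) (hr : r < 15) : ∀ X : Finset Pt, X.card = 15 * q + r →
    GeneralPosition X → HCPle (X : Set Pt) (4 * q + gr r) := by
  induction q with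
  | zero =>
    intro X hX hG
    have h1 : X.card = r := by omega
    subst h1
    have := hcp_gr hr hG
    simpa using this
  | succ q ih =>
    intro X hX hG
    by_cases h : X.card = 15
    · exact (hcp15 h hG).mono (by omega)
    · obtain ⟨A, B, h1, h2, h3, h4, h5, h6⟩ := cut_off rfl hG (show 0 < 15 by omega)
        (by omega : 15 < X.card)
      rw [h3]
      exact ((hcp15 h4 (hG.subset h1)).append
        (ih B (by omega) (hG.subset h2)) h6).mono (by omega)

lemma hcp_singles (X : Finset Pt) : HCP (X : Set Pt) X.card := by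
  classical
  refine ⟨X.toList.map (fun x => {x}), by simp, ?_, ?_, ?_⟩
  · intro Y hY
    rw [List.mem_map] at hY
    obtain ⟨y, _, rfl⟩ := hY
    refine ⟨by simp, ?_⟩
    intro x hx
    rw [Finset.coe_singleton, Set.mem_singleton_iff] at hx
    subst hx
    simp
  · rw [List.pairwise_map]
    refine List.Pairwise.imp ?_ X.nodup_toList
    intro a b hab
    simpa using hab
  · intro x
    rw [Finset.mem_coe]
    constructor
    · intro hx
      exact ⟨{x}, List.mem_map.2 ⟨x, Finset.mem_toList.2 hx, rfl⟩, Finset.mem_singleton_self x⟩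
    · rintro ⟨Y, hY, hx⟩
      rw [List.mem_map] at hY
      obtain ⟨y, hy, rfl⟩ := hY
      rw [Finset.mem_singleton] at hx
      subst hx
      exact Finset.mem_toList.1 hy

/-- Upper bound for all `n`. -/
theorem G_le (n : ℕ) : G n ≤ 4 * (n / 15) + gr (n % 15) := by
  have hn : n = 15 * (n / 15) + n % 15 := by omega
  by_cases hK : 4 * (n / 15) + gr (n % 15) ≤ n
  · refine Nat.sInf_le ?_
    intro X hX hG
    exact ((hcp_all (n / 15) (n % 15) (by omega) X (by omega) hG).exact (by omega)).toPartition
  · have : G n ≤ n := by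
      refine Nat.sInf_le ?_
      intro X hX hG
      have := hcp_singles X
      rw [hX] at this
      exact this.toPartition
    omega

/-- A convex partition restricts to a subset. -/
lemma restrict {X Y : Finset Pt} (hYX : Y ⊆ X) {k : ℕ} (h : HasConvexPartition X k) :
    HCPle (Y : Set Pt) k := by
  classical
  obtain ⟨Z, h1, h2, h3, h4, h5⟩ := h
  set L : List (Finset Pt) := ((List.finRange k).map (fun i => Z i ∩ Y)).filter
    (fun W => decide W.Nonempty) with hL
  refine ⟨L.length, ?_, L, rfl, ?_, ?_, ?_⟩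
  · rw [hL]
    refine (List.length_filter_le _ _).trans ?_
    simp
  · intro W hW
    rw [hL, List.mem_filter, List.mem_map] at hW
    obtain ⟨⟨i, _, rfl⟩, hne⟩ := hW
    exact ⟨by simpa using hne, (h4 i).subset Finset.inter_subset_left⟩
  · rw [hL]
    refine List.Pairwise.filter _ ?_
    rw [List.pairwise_map]
    refine List.Pairwise.imp ?_ (List.nodup_finRange k)
    intro i j hij
    exact (h5 i j hij).mono (convexHull_mono (by simp)) (convexHull_mono (by simp))
  · intro x
    constructor
    · intro hx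
      have hx' : x ∈ X := hYX hx
      rw [← h3, Finset.mem_biUnion] at hx'
      obtain ⟨i, _, hi⟩ := hx'
      refine ⟨Z i ∩ Y, ?_, Finset.mem_inter.2 ⟨hi, hx⟩⟩
      rw [hL, List.mem_filter, List.mem_map]
      refine ⟨⟨i, List.mem_finRange i, rfl⟩, ?_⟩
      simp only [decide_eq_true_eq]
      exact ⟨x, Finset.mem_inter.2 ⟨hi, hx⟩⟩
    · rintro ⟨W, hW, hx⟩
      rw [hL, List.mem_filter, List.mem_map] at hW
      obtain ⟨⟨i, _, rfl⟩, _⟩ := hW
      exact (Finset.mem_inter.1 hx).2

end Pool.Agent.GCP
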