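import Pool.Agent.GCP.Glue19
import Pool.Agent.GCP.FastFin
import Pool.Agent.GCP.Main

/-!
# The frame of the final theorem (MP_062f91_co)

The three remaining parts: `W19` (nineteen points, exceptional case), and the theorem for at least
twenty-seven points, in terms of `RingS0` and `Irr`.
-/

namespace Pool.Agent.GCP

/-- No set of at least twenty-seven points with the ring structure is irreducible. -/
def NoBig : Prop :=
  ∀ (X : Finset Pt) (h : ℕ) (p a c : ZMod h → Pt), RingS0 X h p a c → 27 ≤ X.card →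
    ∀ K, Irr X K t414 [] → False

/-- All bounds below `4 q + 3`. -/
lemma bd_lt {q : ℕ} (h15 : Bd 15) (H : ∀ s, s < q → s ≠ 2 → Bd (4 * s + 3)) {m : ℕ} (hm : 12 ≤ m)
    (hq : m < 4 * q + 3) : Bd m := by
  by_cases h3 : m % 4 = 3
  · have h1 : m = 4 * (m / 4) + 3 := by omega
    rw [h1]
    exact H (m / 4) (by omega) (by omega)
  · by_cases h12 : m ≤ 14
    · intro X hX hG
      exact (hcp_fourteen (by omega) hG).mono (by omega)
    · have h1 : m = 4 * (m / 4 - 1 + 1) + m % 4 := by omega
      rw [h1]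
      exact Bd.next (by omega) (H (m / 4 - 1) (by omega) (by omega))

/-- A counterexample is irreducible. -/
lemma irr_of {q : ℕ} (hq : 6 ≤ q) (h15 : Bd 15) (H : ∀ s, s < q → s ≠ 2 → Bd (4 * s + 3))
    {X : Finset Pt} (hc : X.card = 4 * q + 3) (hX : GeneralPosition X)
    (hK : ¬ HCPle (X : Set Pt) (q + 1)) : Irr X (q + 1) t414 [] := by
  refine ⟨hK, ?_, fun Y _ t ht => absurd ht (by simp)⟩
  intro Y hY t ht hcard
  have h1 : 4 ≤ t ∧ t ≤ 14 := by
    simp only [t414, List.mem_cons, List.not_mem_nil, or_false] at ht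
    omega
  have h2 := bd_lt h15 H (m := Y.card) (by omega) (by omega) Y rfl (hX.subset hY)
  exact ⟨_, by omega, h2⟩

lemma hcp_one_of_convex {A : Finset Pt} (h2 : A.card = 4) (h4 : IsConvexPolygon A) :
    HCPle (A : Set Pt) 1 := by
  refine ⟨1, le_refl _, [A], rfl, ?_, by simp, by simp⟩
  intro Y hY
  simp only [List.mem_singleton] at hY
  subst hY
  exact ⟨Finset.card_pos.1 (by omega), h4⟩

/-- The induction step for at least twenty-seven points. -/
theorem step_big (hN : NoBig) (h15 : Bd 15) {q : ℕ} (hq : 6 ≤ q)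
    (H : ∀ s, s < q → s ≠ 2 → Bd (4 * s + 3)) : Bd (4 * q + 3) := by
  classical
  intro X hc hX
  have e : (4 * q + 3) / 4 + 1 = q + 1 := by omega
  rw [e]
  by_contra hK
  have hK1 : K1 X := by
    intro A h1 h2 h3 h4
    apply hK
    refine perfect_cut (q := q) (k := 1) (A := A) (B := X \ A) hc hX ?_ h2 (by omega)
      (hcp_one_of_convex h2 h4) h3 (H (q - 1) (by omega) (by omega))
    rw [← Finset.coe_union, Finset.union_sdiff_of_subset h1]
  have hK2 : K2 X := by
    intro S h1 h2 h3 h4
    apply hK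
    refine perfect_cut (q := q) (k := 2) (A := S) (B := X \ S) hc hX ?_ h2 (by omega)
      h4 h3 (H (q - 2) (by omega) (by omega))
    rw [← Finset.coe_union, Finset.union_sdiff_of_subset h1]
  obtain ⟨h, p, a, c, W⟩ := exists_ringS0 hX (by omega) hK1 (fun S h1 h2 h3 => hK2 S h1 h2 h3)
  exact hN X h p a c W (by omega) (q + 1) (irr_of hq h15 H hc hX hK)

lemma bd_fifteen : Bd 15 := fun _ hc hX => hcp15 hc hX

/-- The values of `G`. -/
theorem G_all (hW : W19) (hN : NoBig) :
    (∀ n, 3 ≤ n → n ≠ 11 → G n = n / 4 + 1) ∧ G 11 = 4 :=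
  G_values bd_fifteen (step_all hW (fun _ hq H => step_big hN bd_fifteen hq H))

end Pool.Agent.GCP
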