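import Pool.Agent.GCP.NoBigN
import Pool.Agent.GCP.Final
import Pool.Agent.GCP.CornerNRF

/-!
# The theorem for at least twenty-seven points (MP_062f91_co)
-/

namespace Pool.Agent.GCP

/-- No set of at least twenty-seven points with the ring structure is irreducible. -/
theorem noBig : NoBig := fun _ _ _ _ _ W hX _ hI =>
  Geo.no_ring W hX hI (fun i => Geo.nr_le_ten W (Geo.h_seven W (by omega)) hI i)

end Pool.Agent.GCP
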