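import Pool.Agent.GCP.C19Db

set_option autoImplicit false
set_option maxRecDepth 100000

/-! # Blocks C19B1 (generated) -/

namespace Pool.Agent.GCP.C19

open Pool.Agent.GCP DB

theorem b199 : B 12736 12800 := Blk.of_chk [.t 3 (nat_lit 0xddf0d97) (.g 0 11 9 15 16 true true), .t 2 (nat_lit 0xde0) (.g 0 11 4 15 17 true true), .t 3 (nat_lit 0xde10d94) (.g 9 0 4 15 17 true false), .t 3 (nat_lit 0xde20d99) (.a 4 9 15 17 true), .t 2 (nat_lit 0xd99) (.g 17 4 0 9 15 true false), .t 2 (nat_lit 0xde3) (.g 0 11 4 15 17 true true), .t 3 (nat_lit 0xde40d99) (.g 0 11 9 15 17 true true), .t 3 (nat_lit 0xde50d9b) (.a 4 9 15 18 true), .t 2 (nat_lit 0xd9b) (.g 18 4 0 9 15 true false), .t 3 (nat_lit 0xde60d9b) (.g 0 11 9 15 18 true true), .t 3 (nat_lit 0xde70d9b) (.g 0 11 9 15 18 true true), .t 2 (nat_lit 0xde8) (.g 0 11 4 16 17 true true), .t 2 (nat_lit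 0xd99) (.g 17 4 0 9 16 true false), .t 2 (nat_lit 0xde9) (.g 0 11 4 16 17 true true), .t 3 (nat_lit 0xdea0d99) (.g 0 11 9 16 17 true true), .t 1 (nat_lit 0) (.g 9 16 0 4 18 false true), .t 2 (nat_lit 0xdeb) (.g 0 11 4 16 18 true true), .t 3 (nat_lit 0xdec0d9b) (.a 4 9 16 18 true), .t 2 (nat_lit 0xd9b) (.g 18 4 0 9 16 true false), .t 2 (nat_lit 0xded) (.g 0 11 4 16 18 true true), .t 3 (nat_lit 0xdee0d9b) (.g 0 11 9 16 18 true true), .t 3 (nat_lit 0xdef0d9b) (.g 0 11 9 16 18 true true), .t 3 (nat_lit 0xdf00d99) (.g 0 11 4 17 18 true true), .t 2 (nat_lit 0xdf1) (.g 0 11 9 17 18 true true), .t 3 (nat_lit 0xdf20d99) (.g 9 0 4 17 18 true false), .t 3 (nat_lit 0xdf30d9b) (.a 4 9 17 18 true), .t 2 (nat_lit 0xd9b) (.g 18 4 0 9 17 true false), .t 2 (nat_lit 0xdf4) (.g 0 11 4 17 18 true true), .t 3 (nat_lit 0xdf50d9b) (.g 0 11 9 17 18 true true),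 .t 3 (nat_lit 0xdf60d9b) (.g 0 11 9 17 18 true true), .t 2 (nat_lit 0xdf7) (.g 11 0 4 10 12 false true), .t 1 (nat_lit 0) (.g 4 11 0 10 12 false false), .t 2 (nat_lit 0xdf8) (.g 10 0 4 11 12 true false), .t 1 (nat_lit 0) (.g 4 13 0 10 11 false false), .t 1 (nat_lit 0) (.g 4 11 0 10 13 false false), .t 2 (nat_lit 0xdf9) (.g 10 0 4 11 13 true true), .t 1 (nat_lit 0) (.g 11 0 4 10 14 false true), .t 1 (nat_lit 0) (.g 11 0 4 10 14 false false), .t 2 (nat_lit 0xdfa) (.g 11 0 4 10 14 false true), .t 2 (nat_lit 0xdfb) (.g 11 0 4 10 14 false false), .t 2 (nat_lit 0xdfc) (.g 10 0 4 11 14 true true), .t 2 (nat_lit 0xdfc) (.g 10 0 4 11 14 true false), .t 1 (nat_lit 0) (.g 11 0 4 10 15 false true), .t 1 (nat_lit 0) (.g 11 0 4 10 15 false false), .t 2 (nat_lit 0xdfd) (.g 11 0 4 10 15 false true), .t 2 (nat_lit 0xdfe) (.g 4 10 0 11 16 true true), .t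 2 (nat_lit 0xdff) (.g 11 0 4 10 16 false true), .t 2 (nat_lit 0xe00) (.g 11 0 4 10 17 false true), .t 2 (nat_lit 0xe01) (.g 11 0 4 10 18 false true), .t 3 (nat_lit 0xe020df9) (.a 4 10 12 13 true), .t 2 (nat_lit 0xdf9) (.g 13 4 0 10 12 true false), .t 2 (nat_lit 0xe03) (.g 0 11 4 12 13 true true), .t 3 (nat_lit 0xe040df9) (.g 0 11 10 12 13 true true), .t 3 (nat_lit 0xe050dfc) (.a 4 10 12 14 true), .t 3 (nat_lit 0xe060dfc) (.a 4 10 12 14 false), .t 3 (nat_lit 0xe070dfc) (.g 0 11 10 12 14 true true), .t 3 (nat_lit 0xe080dfc) (.g 0 11 10 12 14 true true), .t 3 (nat_lit 0xe090df8) (.g 10 0 4 12 15 true false), .t 3 (nat_lit 0xe0b0e0a) (.a 4 10 12 15 true), .t 2 (nat_lit 0xe0a) (.g 15 4 0 10 12 true false), .t 2 (nat_lit 0xe0c) (.g 0 11 4 12 15 true true), .t 3 (nat_lit 0xe0d0dfe) (.a 4 10 12 16 true), .t 3 (nat_lit 0xe0e0df8) (.g 10 0 4 12 17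 true false), .t 2 (nat_lit 0xe0f) (.g 17 4 0 10 12 true false)] (by decide +kernel) (by decide +kernel)
theorem b200 : B 12800 12864 := Blk.of_chk [.t 2 (nat_lit 0xe10) (.g 0 11 4 12 17 true true), .t 3 (nat_lit 0xe110df8) (.g 10 0 4 12 18 true false), .t 2 (nat_lit 0xe12) (.g 18 4 0 10 12 true false), .t 3 (nat_lit 0xe130e12) (.g 0 11 10 12 18 true true), .t 3 (nat_lit 0xe140dfc) (.a 4 10 13 14 true), .t 3 (nat_lit 0xe150dfc) (.a 4 10 13 14 false), .t 2 (nat_lit 0xdfc) (.g 14 4 0 10 13 true false), .t 2 (nat_lit 0xdfc) (.g 14 10 0 4 13 true false), .t 2 (nat_lit 0xe16) (.g 0 11 4 13 14 true true), .t 2 (nat_lit 0xe17) (.g 0 11 4 13 14 true true), .t 3 (nat_lit 0xe180dfc) (.g 0 11 10 13 14 true true), .t 3 (nat_lit 0xe190dfc) (.g 0 11 10 13 14 true true), .t 3 (nat_lit 0xe1a0df9) (.g 10 0 4 13 15 true false), .t 3 (nat_lit 0xe1b0e0a) (.a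 4 10 13 15 true), .t 3 (nat_lit 0xe1c0e0a) (.a 4 10 13 15 false), .t 2 (nat_lit 0xe0a) (.g 15 10 0 4 13 true false), .t 2 (nat_lit 0xe1d) (.g 0 11 4 13 15 true true), .t 2 (nat_lit 0xe1e) (.g 0 11 4 13 15 true true), .t 3 (nat_lit 0xe1f0df9) (.g 10 0 4 13 16 true false), .t 3 (nat_lit 0xe200dfe) (.a 4 10 13 16 false), .t 2 (nat_lit 0xe21) (.g 0 11 4 13 16 true true), .t 2 (nat_lit 0xdf9) (.g 10 0 4 13 17 true false), .t 3 (nat_lit 0xe220e0f) (.a 4 10 13 17 true), .t 3 (nat_lit 0xe230e0f) (.a 4 10 13 17 false), .t 2 (nat_lit 0xe0f) (.g 17 4 0 10 13 true false), .t 3 (nat_lit 0xe240df9) (.g 10 0 4 13 18 true false), .t 3 (nat_lit 0xe250e12) (.a 4 10 13 18 true), .t 2 (nat_lit 0xe12) (.g 18 4 0 10 13 true false), .t 2 (nat_lit 0xe26) (.g 0 11 4 13 18 true true), .t 3 (nat_lit 0xe270e12) (.g 0 11 10 13 18 true true), .t 3 (nat_lit 0xe280dfc)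 (.g 10 0 4 14 15 true false), .t 3 (nat_lit 0xe290e0a) (.a 4 10 14 15 true), .t 3 (nat_lit 0xe2a0e0a) (.g 0 11 10 14 15 true true), .t 3 (nat_lit 0xe2b0dfc) (.g 10 0 4 14 16 true false), .t 3 (nat_lit 0xe2c0e0f) (.a 4 10 14 17 true), .t 2 (nat_lit 0xe0f) (.g 17 4 0 10 14 true false), .t 2 (nat_lit 0xe2d) (.g 0 11 4 14 17 true true), .t 3 (nat_lit 0xe2e0e0f) (.g 0 11 10 14 17 true true), .t 2 (nat_lit 0xe12) (.g 18 4 0 10 14 true false), .t 3 (nat_lit 0xe2f0e0f) (.a 4 10 15 17 true), .t 2 (nat_lit 0xe0f) (.g 17 4 0 10 15 true false), .t 2 (nat_lit 0xe30) (.g 0 11 4 15 17 true true), .t 2 (nat_lit 0xe12) (.g 18 4 0 10 15 true false), .t 3 (nat_lit 0xe310e12) (.g 0 11 10 15 18 true true), .t 2 (nat_lit 0xe32) (.g 0 11 10 16 17 true true), .t 2 (nat_lit 0xe0f) (.g 17 4 0 10 16 true false), .t 2 (nat_lit 0xe33) (.g 0 11 4 16 17 true true), .t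 3 (nat_lit 0xe340e0f) (.g 0 11 10 16 17 true true), .t 2 (nat_lit 0xe35) (.g 0 11 10 16 18 true true), .t 2 (nat_lit 0xe36) (.g 0 11 4 16 18 true true), .t 2 (nat_lit 0xe37) (.g 0 11 4 16 18 true true), .t 3 (nat_lit 0xe380e12) (.g 0 11 10 16 18 true true), .t 2 (nat_lit 0xe39) (.g 0 11 10 17 18 true true), .t 2 (nat_lit 0xe3a) (.g 0 11 4 17 18 true true), .t 3 (nat_lit 0xe3b0e12) (.a 4 10 17 18 true), .t 2 (nat_lit 0xe12) (.g 18 4 0 10 17 true false), .t 2 (nat_lit 0xe3c) (.g 0 11 4 17 18 true true), .t 1 (nat_lit 0) (.g 11 0 4 12 13 false false), .t 2 (nat_lit 0xe3d) (.g 12 4 0 11 13 true true), .t 1 (nat_lit 0) (.g 11 0 4 12 14 false true), .t 1 (nat_lit 0) (.g 11 0 4 12 14 false false), .t 2 (nat_lit 0xe3e) (.g 12 14 0 4 11 true false), .t 2 (nat_lit 0xe3e) (.g 12 4 0 11 14 true true), .t 1 (nat_lit 0) (.g 14 12 0 4 11 false false)]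 (by decide +kernel) (by decide +kernel)
theorem b201 : B 12864 12928 := Blk.of_chk [.t 2 (nat_lit 0xe3f) (.g 12 15 0 4 11 true false), .t 1 (nat_lit 0) (.g 15 11 0 4 12 false false), .t 1 (nat_lit 0) (.g 16 11 0 4 12 false false), .t 1 (nat_lit 0) (.g 17 12 0 4 11 false false), .t 1 (nat_lit 0) (.g 17 11 0 4 12 false false), .t 1 (nat_lit 0) (.st 4 11 17 12), .t 2 (nat_lit 0xe40) (.g 12 4 0 11 18 true true), .t 1 (nat_lit 0) (.g 18 11 0 4 12 false false), .t 1 (nat_lit 0) (.g 11 0 4 13 14 false false), .t 2 (nat_lit 0xe41) (.g 13 14 0 4 11 true false), .t 2 (nat_lit 0xe41) (.g 13 4 0 11 14 true true), .t 1 (nat_lit 0) (.g 14 13 0 4 11 false false), .t 1 (nat_lit 0) (.st 4 11 13 14), .t 1 (nat_lit 0) (.st 4 11 14 13), .t 1 (nat_lit 0) (.g 11 0 4 13 15 false true), .t 1 (nat_lit 0) (.g 11 0 4 13 15 false false), .t 2 (nat_lit 0xe42) (.g 13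 15 0 4 11 true false), .t 2 (nat_lit 0xe42) (.g 13 4 0 11 15 true true), .t 1 (nat_lit 0) (.g 15 11 0 4 13 false false), .t 1 (nat_lit 0) (.g 11 0 4 13 16 false true), .t 1 (nat_lit 0) (.g 11 0 4 13 16 false false), .t 1 (nat_lit 0) (.g 16 13 0 4 11 false false), .t 1 (nat_lit 0) (.g 16 11 0 4 13 false false), .t 1 (nat_lit 0) (.g 11 0 4 13 17 false true), .t 1 (nat_lit 0) (.g 11 0 4 13 17 false false), .t 2 (nat_lit 0xe43) (.g 13 4 0 11 17 true true), .t 1 (nat_lit 0) (.g 17 13 0 4 11 false false), .t 1 (nat_lit 0) (.g 17 11 0 4 13 false false), .t 1 (nat_lit 0) (.st 4 11 17 13), .t 1 (nat_lit 0) (.g 11 0 4 13 18 false false), .t 2 (nat_lit 0xe44) (.g 13 4 0 11 18 true true), .t 1 (nat_lit 0) (.g 18 13 0 4 11 false false), .t 1 (nat_lit 0) (.g 18 11 0 4 13 false false), .t 1 (nat_lit 0) (.g 11 0 4 14 15 false true), .t 1 (nat_lit 0) (.g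 11 0 4 14 15 false false), .t 1 (nat_lit 0) (.g 15 14 0 4 11 false false), .t 1 (nat_lit 0) (.g 11 0 4 14 16 false true), .t 1 (nat_lit 0) (.g 11 0 4 14 16 false false), .t 2 (nat_lit 0xe45) (.g 14 4 0 11 16 true true), .t 1 (nat_lit 0) (.g 16 14 0 4 11 false false), .t 1 (nat_lit 0) (.g 14 17 0 4 11 true false), .t 1 (nat_lit 0) (.g 11 0 4 14 17 false true), .t 1 (nat_lit 0) (.g 11 0 4 14 17 false false), .t 2 (nat_lit 0xe46) (.g 14 17 0 4 11 true false), .t 2 (nat_lit 0xe46) (.g 14 4 0 11 17 true true), .t 1 (nat_lit 0) (.g 17 14 0 4 11 false false), .t 1 (nat_lit 0) (.st 4 11 14 17), .t 1 (nat_lit 0) (.st 4 11 17 14), .t 1 (nat_lit 0) (.g 11 0 4 14 18 false true), .t 1 (nat_lit 0) (.g 14 18 0 4 11 true false), .t 1 (nat_lit 0) (.g 11 0 4 14 18 false true), .t 1 (nat_lit 0) (.g 11 0 4 14 18 false false), .t 2 (nat_lit 0xe47) (.g 14 18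 0 4 11 true false), .t 2 (nat_lit 0xe47) (.g 14 4 0 11 18 true true), .t 1 (nat_lit 0) (.g 18 14 0 4 11 false false), .t 1 (nat_lit 0) (.g 11 0 4 15 16 false false), .t 2 (nat_lit 0xe48) (.g 15 4 0 11 16 true true), .t 1 (nat_lit 0) (.g 16 15 0 4 11 false false), .t 1 (nat_lit 0) (.g 16 11 0 4 15 false false), .t 1 (nat_lit 0) (.g 11 0 4 15 17 false true), .t 1 (nat_lit 0) (.g 11 0 4 15 17 false false), .t 2 (nat_lit 0xe49) (.g 15 17 0 4 11 true false), .t 2 (nat_lit 0xe49) (.g 15 4 0 11 17 true true), .t 1 (nat_lit 0) (.g 17 15 0 4 11 false false)] (by decide +kernel) (by decide +kernel)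
theorem b202 : B 12928 12992 := Blk.of_chk [.t 1 (nat_lit 0) (.g 17 11 0 4 15 false false), .t 1 (nat_lit 0) (.g 11 0 4 15 18 false true), .t 1 (nat_lit 0) (.g 11 0 4 15 18 false false), .t 2 (nat_lit 0xe4a) (.g 15 18 0 4 11 true false), .t 1 (nat_lit 0) (.g 18 15 0 4 11 false false), .t 1 (nat_lit 0) (.st 4 11 15 18), .t 1 (nat_lit 0) (.st 4 11 18 15), .t 1 (nat_lit 0) (.g 11 0 4 16 17 false true), .t 1 (nat_lit 0) (.g 11 0 4 16 17 false false), .t 2 (nat_lit 0xe4b) (.g 16 17 0 4 11 true false), .t 2 (nat_lit 0xe4b) (.g 16 4 0 11 17 true true), .t 1 (nat_lit 0) (.g 17 16 0 4 11 false false), .t 1 (nat_lit 0) (.g 17 11 0 4 16 false false), .t 1 (nat_lit 0) (.st 4 11 16 17), .t 1 (nat_lit 0) (.st 4 11 17 16), .t 1 (nat_lit 0) (.g 11 0 4 16 18 false true), .t 1 (nat_lit 0) (.g 11 0 4 16 18 false false), .t 2 (nat_lit 0xe4c) (.g 16 18 0 4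 11 true false), .t 1 (nat_lit 0) (.g 18 16 0 4 11 false false), .t 1 (nat_lit 0) (.st 4 11 16 18), .t 1 (nat_lit 0) (.st 4 11 18 16), .t 2 (nat_lit 0xe4d) (.g 17 18 0 4 11 true false), .t 2 (nat_lit 0xe4d) (.g 17 4 0 11 18 true true), .t 1 (nat_lit 0) (.st 4 11 18 17), .t 2 (nat_lit 0xe3e) (.g 12 0 4 13 14 false true), .t 2 (nat_lit 0xe41) (.g 13 14 0 4 12 true false), .t 2 (nat_lit 0xe41) (.g 13 4 0 12 14 true true), .t 1 (nat_lit 0) (.st 4 12 14 13), .t 1 (nat_lit 0) (.g 13 15 0 4 12 true false), .t 2 (nat_lit 0xe3f) (.g 12 0 4 13 15 false true), .t 2 (nat_lit 0xe42) (.g 13 15 0 4 12 true false), .t 2 (nat_lit 0xe42) (.g 13 4 0 12 15 true true), .t 1 (nat_lit 0) (.g 15 13 0 4 12 false false), .t 1 (nat_lit 0) (.g 13 16 0 4 12 true false), .t 2 (nat_lit 0xe4e) (.g 12 0 4 13 16 false true), .t 1 (nat_lit 0) (.g 16 13 0 4 12 false false),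 .t 2 (nat_lit 0xe4f) (.g 12 0 4 13 17 false true), .t 2 (nat_lit 0xe43) (.g 13 17 0 4 12 true false), .t 2 (nat_lit 0xe43) (.g 13 4 0 12 17 true true), .t 1 (nat_lit 0) (.g 17 13 0 4 12 false false), .t 1 (nat_lit 0) (.g 13 18 0 4 12 true false), .t 2 (nat_lit 0xe44) (.g 13 18 0 4 12 true false), .t 1 (nat_lit 0) (.g 18 13 0 4 12 false false), .t 2 (nat_lit 0xe3e) (.g 12 0 4 14 15 false true), .t 1 (nat_lit 0) (.g 14 15 0 4 12 true false), .t 2 (nat_lit 0xe3f) (.g 12 0 4 14 15 false true), .t 2 (nat_lit 0xe3f) (.g 12 0 4 14 15 false false), .t 2 (nat_lit 0xe50) (.g 14 15 0 4 12 true false), .t 2 (nat_lit 0xe50) (.g 14 4 0 12 15 true true), .t 1 (nat_lit 0) (.g 15 14 0 4 12 false false), .t 1 (nat_lit 0) (.g 15 12 0 4 14 false false), .t 2 (nat_lit 0xe3e) (.g 12 0 4 14 16 false true), .t 1 (nat_lit 0) (.g 14 16 0 4 12 true false), .t 2 (nat_lit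 0xe4e) (.g 12 0 4 14 16 false true), .t 2 (nat_lit 0xe45) (.g 14 16 0 4 12 true false), .t 2 (nat_lit 0xe45) (.g 14 4 0 12 16 true true), .t 1 (nat_lit 0) (.g 16 14 0 4 12 false false), .t 1 (nat_lit 0) (.g 16 12 0 4 14 false false), .t 1 (nat_lit 0) (.g 14 17 0 4 12 true false), .t 2 (nat_lit 0xe4f) (.g 12 0 4 14 17 false true), .t 2 (nat_lit 0xe46) (.g 14 17 0 4 12 true false), .t 2 (nat_lit 0xe46) (.g 14 4 0 12 17 true true), .t 1 (nat_lit 0) (.g 17 14 0 4 12 false false), .t 1 (nat_lit 0) (.g 17 12 0 4 14 false false)] (by decide +kernel) (by decide +kernel)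
theorem b203 : B 12992 13056 := Blk.of_chk [.t 2 (nat_lit 0xe3e) (.g 12 0 4 14 18 false true), .t 2 (nat_lit 0xe40) (.g 12 0 4 14 18 false true), .t 2 (nat_lit 0xe40) (.g 12 0 4 14 18 false false), .t 2 (nat_lit 0xe47) (.g 14 18 0 4 12 true false), .t 2 (nat_lit 0xe47) (.g 14 4 0 12 18 true true), .t 1 (nat_lit 0) (.g 18 14 0 4 12 false false), .t 1 (nat_lit 0) (.st 4 12 18 14), .t 2 (nat_lit 0xe4e) (.g 12 0 4 15 16 false true), .t 2 (nat_lit 0xe48) (.g 15 16 0 4 12 true false), .t 1 (nat_lit 0) (.g 16 15 0 4 12 false false), .t 1 (nat_lit 0) (.g 16 12 0 4 15 false false), .t 2 (nat_lit 0xe4f) (.g 12 0 4 15 17 false true), .t 2 (nat_lit 0xe49) (.g 15 17 0 4 12 true false), .t 2 (nat_lit 0xe49) (.g 15 4 0 12 17 true true), .t 1 (nat_lit 0) (.g 17 15 0 4 12 false false), .t 2 (nat_lit 0xe40) (.g 12 0 4 15 18 false true), .t 2 (nat_lit 0xe40)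 (.g 12 0 4 15 18 false false), .t 2 (nat_lit 0xe4a) (.g 15 4 0 12 18 true true), .t 2 (nat_lit 0xe4f) (.g 12 0 4 16 17 false true), .t 2 (nat_lit 0xe4b) (.g 16 17 0 4 12 true false), .t 1 (nat_lit 0) (.g 17 16 0 4 12 false false), .t 1 (nat_lit 0) (.g 17 12 0 4 16 false false), .t 2 (nat_lit 0xe40) (.g 12 0 4 16 18 false true), .t 1 (nat_lit 0) (.g 18 16 0 4 12 false false), .t 2 (nat_lit 0xe40) (.g 12 0 4 17 18 false true), .t 2 (nat_lit 0xe4d) (.g 17 18 0 4 12 true false), .t 2 (nat_lit 0xe4d) (.g 17 4 0 12 18 true true), .t 1 (nat_lit 0) (.g 18 17 0 4 12 false false), .t 1 (nat_lit 0) (.st 4 12 18 17), .t 2 (nat_lit 0xe41) (.g 13 0 4 14 15 false true), .t 2 (nat_lit 0xe42) (.g 13 0 4 14 15 false true), .t 2 (nat_lit 0xe42) (.g 13 0 4 14 15 false false), .t 2 (nat_lit 0xe50) (.g 14 15 0 4 13 true false), .t 2 (nat_lit 0xe50) (.g 14 4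 0 13 15 true true), .t 1 (nat_lit 0) (.g 15 14 0 4 13 false false), .t 2 (nat_lit 0xe41) (.g 13 0 4 14 16 false true), .t 2 (nat_lit 0xe51) (.g 13 0 4 14 16 false true), .t 2 (nat_lit 0xe51) (.g 13 0 4 14 16 false false), .t 2 (nat_lit 0xe45) (.g 14 16 0 4 13 true false), .t 2 (nat_lit 0xe45) (.g 14 4 0 13 16 true true), .t 1 (nat_lit 0) (.g 16 14 0 4 13 false false), .t 2 (nat_lit 0xe41) (.g 13 0 4 14 17 false true), .t 1 (nat_lit 0) (.g 14 17 0 4 13 true false), .t 2 (nat_lit 0xe43) (.g 13 0 4 14 17 false true), .t 2 (nat_lit 0xe43) (.g 13 0 4 14 17 false false), .t 2 (nat_lit 0xe46) (.g 14 17 0 4 13 true false), .t 2 (nat_lit 0xe46) (.g 14 4 0 13 17 true true), .t 1 (nat_lit 0) (.g 17 14 0 4 13 false false), .t 1 (nat_lit 0) (.g 17 13 0 4 14 false false), .t 2 (nat_lit 0xe41) (.g 13 0 4 14 18 false true), .t 1 (nat_lit 0) (.g 14 18 0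 4 13 true false), .t 2 (nat_lit 0xe44) (.g 13 0 4 14 18 false true), .t 2 (nat_lit 0xe44) (.g 13 0 4 14 18 false false), .t 2 (nat_lit 0xe47) (.g 14 18 0 4 13 true false), .t 2 (nat_lit 0xe47) (.g 14 4 0 13 18 true true), .t 1 (nat_lit 0) (.g 18 14 0 4 13 false false), .t 1 (nat_lit 0) (.st 4 13 18 14), .t 1 (nat_lit 0) (.g 15 13 0 4 16 false true), .t 2 (nat_lit 0xe51) (.g 13 0 4 15 16 false true), .t 2 (nat_lit 0xe51) (.g 13 0 4 15 16 false false), .t 2 (nat_lit 0xe48) (.g 15 16 0 4 13 true false), .t 1 (nat_lit 0) (.g 16 15 0 4 13 false false), .t 1 (nat_lit 0) (.g 16 13 0 4 15 false false), .t 1 (nat_lit 0) (.g 15 17 0 4 13 true false)] (by decide +kernel) (by decide +kernel)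
theorem b204 : B 13056 13120 := Blk.of_chk [.t 2 (nat_lit 0xe43) (.g 13 0 4 15 17 false true), .t 2 (nat_lit 0xe43) (.g 13 0 4 15 17 false false), .t 2 (nat_lit 0xe49) (.g 15 17 0 4 13 true false), .t 2 (nat_lit 0xe49) (.g 15 4 0 13 17 true true), .t 1 (nat_lit 0) (.g 17 15 0 4 13 false false), .t 1 (nat_lit 0) (.g 17 13 0 4 15 false false), .t 1 (nat_lit 0) (.st 4 13 15 17), .t 2 (nat_lit 0xe44) (.g 13 0 4 15 18 false true), .t 2 (nat_lit 0xe44) (.g 13 0 4 15 18 false false), .t 1 (nat_lit 0) (.g 18 15 0 4 13 false false), .t 1 (nat_lit 0) (.g 18 13 0 4 15 false false), .t 2 (nat_lit 0xe52) (.g 16 13 0 4 17 false true), .t 2 (nat_lit 0xe43) (.g 13 0 4 16 17 false true), .t 2 (nat_lit 0xe43) (.g 13 0 4 16 17 false false), .t 2 (nat_lit 0xe4b) (.g 16 17 0 4 13 true false), .t 2 (nat_lit 0xe4b) (.g 16 4 0 13 17 true true), .t 1 (nat_lit 0)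 (.g 17 16 0 4 13 false false), .t 1 (nat_lit 0) (.g 17 13 0 4 16 false false), .t 1 (nat_lit 0) (.st 4 13 16 17), .t 1 (nat_lit 0) (.st 4 13 17 16), .t 2 (nat_lit 0xe53) (.g 16 13 0 4 18 false true), .t 2 (nat_lit 0xe44) (.g 13 0 4 16 18 false true), .t 2 (nat_lit 0xe44) (.g 13 0 4 16 18 false false), .t 2 (nat_lit 0xe4c) (.g 16 18 0 4 13 true false), .t 1 (nat_lit 0) (.g 18 16 0 4 13 false false), .t 1 (nat_lit 0) (.g 18 13 0 4 16 false false), .t 1 (nat_lit 0) (.st 4 13 18 16), .t 1 (nat_lit 0) (.g 17 18 0 4 13 true false), .t 2 (nat_lit 0xe44) (.g 13 0 4 17 18 false true), .t 2 (nat_lit 0xe44) (.g 13 0 4 17 18 false false), .t 2 (nat_lit 0xe4d) (.g 17 18 0 4 13 true false), .t 2 (nat_lit 0xe4d) (.g 17 4 0 13 18 true true), .t 1 (nat_lit 0) (.g 18 17 0 4 13 false false), .t 1 (nat_lit 0) (.g 18 13 0 4 17 false false), .t 1 (nat_lit 0)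 (.st 4 13 18 17), .t 2 (nat_lit 0xe54) (.g 15 14 0 4 16 false true), .t 1 (nat_lit 0) (.g 15 16 0 4 14 true false), .t 2 (nat_lit 0xe45) (.g 14 0 4 15 16 false true), .t 2 (nat_lit 0xe45) (.g 14 0 4 15 16 false false), .t 2 (nat_lit 0xe48) (.g 15 4 0 14 16 true true), .t 1 (nat_lit 0) (.g 16 15 0 4 14 false false), .t 1 (nat_lit 0) (.g 16 14 0 4 15 false false), .t 1 (nat_lit 0) (.st 4 14 16 15), .t 2 (nat_lit 0xe55) (.g 15 14 0 4 17 false true), .t 2 (nat_lit 0xe50) (.g 14 0 4 15 17 false true), .t 2 (nat_lit 0xe46) (.g 14 0 4 15 17 false true), .t 2 (nat_lit 0xe46) (.g 14 0 4 15 17 false false), .t 2 (nat_lit 0xe49) (.g 15 17 0 4 14 true false), .t 2 (nat_lit 0xe49) (.g 15 4 0 14 17 true true), .t 1 (nat_lit 0) (.g 17 15 0 4 14 false false), .t 1 (nat_lit 0) (.st 4 14 15 17), .t 1 (nat_lit 0) (.st 4 14 17 15), .t 1 (nat_lit 0) (.g 15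 18 0 4 14 true false), .t 2 (nat_lit 0xe47) (.g 14 0 4 15 18 false false), .t 2 (nat_lit 0xe4a) (.g 15 18 0 4 14 true false), .t 2 (nat_lit 0xe4a) (.g 15 4 0 14 18 true true), .t 1 (nat_lit 0) (.g 18 15 0 4 14 false false), .t 2 (nat_lit 0xe46) (.g 14 0 4 16 17 false true), .t 2 (nat_lit 0xe46) (.g 14 0 4 16 17 false false), .t 2 (nat_lit 0xe4b) (.g 16 17 0 4 14 true false), .t 2 (nat_lit 0xe4b) (.g 16 4 0 14 17 true true), .t 1 (nat_lit 0) (.g 17 16 0 4 14 false false), .t 1 (nat_lit 0) (.g 17 14 0 4 16 false false), .t 2 (nat_lit 0xe45) (.g 14 0 4 16 18 false true)] (by decide +kernel) (by decide +kernel)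
theorem b205 : B 13120 13184 := Blk.of_chk [.t 1 (nat_lit 0) (.g 16 18 0 4 14 true false), .t 2 (nat_lit 0xe47) (.g 14 0 4 16 18 false false), .t 2 (nat_lit 0xe4c) (.g 16 4 0 14 18 true true), .t 1 (nat_lit 0) (.g 18 16 0 4 14 false false), .t 1 (nat_lit 0) (.g 18 14 0 4 16 false false), .t 2 (nat_lit 0xe56) (.g 17 14 0 4 18 false true), .t 2 (nat_lit 0xe46) (.g 14 0 4 17 18 false true), .t 2 (nat_lit 0xe47) (.g 14 0 4 17 18 false true), .t 2 (nat_lit 0xe47) (.g 14 0 4 17 18 false false), .t 2 (nat_lit 0xe4d) (.g 17 18 0 4 14 true false), .t 2 (nat_lit 0xe4d) (.g 17 4 0 14 18 true true), .t 1 (nat_lit 0) (.g 18 14 0 4 17 false false), .t 1 (nat_lit 0) (.st 4 14 18 17), .t 2 (nat_lit 0xe57) (.g 16 15 0 4 17 false true), .t 2 (nat_lit 0xe49) (.g 15 0 4 16 17 false false), .t 2 (nat_lit 0xe4b) (.g 16 17 0 4 15 true false), .t 2 (nat_lit 0xe4b)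 (.g 16 4 0 15 17 true true), .t 1 (nat_lit 0) (.g 17 16 0 4 15 false false), .t 2 (nat_lit 0xe4a) (.g 15 0 4 16 18 false false), .t 2 (nat_lit 0xe4c) (.g 16 18 0 4 15 true false), .t 2 (nat_lit 0xe4c) (.g 16 4 0 15 18 true true), .t 1 (nat_lit 0) (.g 18 16 0 4 15 false false), .t 1 (nat_lit 0) (.st 4 15 18 16), .t 1 (nat_lit 0) (.g 17 15 0 4 18 false true), .t 2 (nat_lit 0xe4a) (.g 15 0 4 17 18 false true), .t 2 (nat_lit 0xe4a) (.g 15 0 4 17 18 false false), .t 2 (nat_lit 0xe4d) (.g 17 18 0 4 15 true false), .t 2 (nat_lit 0xe4d) (.g 17 4 0 15 18 true true), .t 1 (nat_lit 0) (.g 18 17 0 4 15 false false), .t 1 (nat_lit 0) (.g 18 15 0 4 17 false false), .t 1 (nat_lit 0) (.st 4 15 18 17), .t 2 (nat_lit 0xe4b) (.g 17 4 0 16 18 false true), .t 4 (nat_lit 0xe580e4c0e4b) (.g 17 4 0 16 18 false true), .t 2 (nat_lit 0xe4b) (.g 16 0 4 17 18 false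 true), .t 2 (nat_lit 0xe4c) (.g 16 0 4 17 18 false false), .t 2 (nat_lit 0xe4d) (.g 17 18 0 4 16 true false), .t 2 (nat_lit 0xe4d) (.g 17 4 0 16 18 true true), .t 1 (nat_lit 0) (.st 4 16 17 18), .t 1 (nat_lit 0) (.st 4 16 18 17), .t 1 (nat_lit 0) (.g 5 6 0 7 11 true false), .t 1 (nat_lit 0) (.g 5 6 0 7 12 true false), .t 2 (nat_lit 0xe59) (.g 0 11 5 7 15 true true), .t 1 (nat_lit 0) (.g 7 0 5 6 17 true true), .t 2 (nat_lit 0xe5a) (.g 6 5 0 7 17 false false), .t 2 (nat_lit 0xe5b) (.g 0 11 6 7 18 true true), .t 1 (nat_lit 0) (.g 5 6 0 7 18 true false), .t 1 (nat_lit 0) (.g 5 8 0 6 11 true false), .t 2 (nat_lit 0xe5c) (.g 0 11 5 8 14 true true), .t 1 (nat_lit 0) (.g 6 15 0 5 8 true true), .t 1 (nat_lit 0) (.g 5 8 0 6 15 true false), .t 2 (nat_lit 0xe5d) (.g 0 11 5 8 17 true true), .t 1 (nat_lit 0) (.g 5 0 6 9 10 false false), .t 1 (nat_lit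 0) (.g 5 9 0 6 11 true false), .t 1 (nat_lit 0) (.g 5 9 0 6 12 true false), .t 1 (nat_lit 0) (.g 5 9 0 6 13 true false), .t 2 (nat_lit 0xe5e) (.g 0 11 5 9 13 true true), .t 2 (nat_lit 0xe5f) (.g 5 0 6 9 15 false false), .t 2 (nat_lit 0xe60) (.g 6 16 0 5 9 false true), .t 1 (nat_lit 0) (.g 5 10 0 6 11 true false), .t 1 (nat_lit 0) (.g 5 10 0 6 13 true false), .t 2 (nat_lit 0xe61) (.g 5 0 6 10 15 false false), .t 1 (nat_lit 0) (.g 5 10 0 6 15 true false), .t 2 (nat_lit 0xe62) (.g 6 16 0 5 10 false true), .t 1 (nat_lit 0) (.g 6 17 0 5 10 false true)] (by decide +kernel) (by decide +kernel)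
theorem b206 : B 13184 13248 := Blk.of_chk [.t 1 (nat_lit 0) (.g 5 11 0 6 12 false false), .t 2 (nat_lit 0xe63) (.g 6 0 5 11 12 true false), .t 2 (nat_lit 0xe64) (.g 6 0 5 11 13 true false), .t 1 (nat_lit 0) (.g 11 0 5 6 15 false false), .t 3 (nat_lit 0xe660e65) (.a 5 6 13 14 false), .t 2 (nat_lit 0xe65) (.g 14 5 0 6 13 true false), .t 2 (nat_lit 0xe67) (.g 17 6 0 5 15 true false), .t 1 (nat_lit 0) (.st 16 0 5 6), .t 1 (nat_lit 0) (.g 7 5 0 8 11 false false), .t 1 (nat_lit 0) (.g 8 0 5 7 11 true true), .t 2 (nat_lit 0xe68) (.g 0 11 5 8 13 true true), .t 2 (nat_lit 0xe69) (.g 0 11 5 8 14 true true), .t 1 (nat_lit 0) (.g 5 7 0 8 17 true false), .t 2 (nat_lit 0xe6a) (.g 0 11 5 8 18 true true), .t 1 (nat_lit 0) (.g 5 7 0 8 18 true false), .t 1 (nat_lit 0) (.g 5 7 0 8 18 true false), .t 2 (nat_lit 0xe6b) (.g 0 11 5 8 18 true true), .t 1 (nat_lit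 0) (.g 9 0 5 7 11 true true), .t 2 (nat_lit 0xe6c) (.g 0 11 5 9 13 true true), .t 2 (nat_lit 0xe6d) (.g 0 11 5 7 14 true true), .t 1 (nat_lit 0) (.g 9 0 5 7 17 true true), .t 2 (nat_lit 0xe6e) (.g 0 11 7 9 18 true true), .t 1 (nat_lit 0) (.g 9 7 0 5 18 false true), .t 1 (nat_lit 0) (.g 9 0 5 7 18 true true), .t 1 (nat_lit 0) (.g 5 7 0 9 18 true false), .t 2 (nat_lit 0xe6f) (.g 0 11 5 7 18 true true), .t 2 (nat_lit 0xe70) (.g 0 11 5 9 18 true true), .t 1 (nat_lit 0) (.g 10 0 5 7 11 true true), .t 2 (nat_lit 0xe71) (.g 0 11 5 10 12 true true), .t 2 (nat_lit 0xe72) (.g 0 11 5 10 15 true true), .t 1 (nat_lit 0) (.g 10 0 5 7 17 true true), .t 1 (nat_lit 0) (.g 10 0 5 7 18 true true), .t 1 (nat_lit 0) (.g 5 7 0 10 18 true false), .t 1 (nat_lit 0) (.g 5 11 0 7 12 false false), .t 2 (nat_lit 0xe73) (.g 7 0 5 11 12 true false), .t 2 (nat_lit 0xe74)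 (.g 7 0 5 11 13 true false), .t 2 (nat_lit 0xe75) (.g 11 0 5 7 14 false false), .t 2 (nat_lit 0xe76) (.g 7 0 5 11 14 true false), .t 1 (nat_lit 0) (.g 11 0 5 7 15 false false), .t 1 (nat_lit 0) (.g 11 0 5 7 17 false false), .t 2 (nat_lit 0xe77) (.g 5 7 0 11 17 true true), .t 2 (nat_lit 0xe78) (.g 5 7 0 11 18 true true), .t 1 (nat_lit 0) (.g 7 5 0 11 18 false true), .t 3 (nat_lit 0xe790e74) (.g 0 11 7 12 13 true true), .t 2 (nat_lit 0xe7a) (.g 0 11 5 12 14 true true), .t 2 (nat_lit 0xe73) (.g 7 5 0 12 15 false true), .t 2 (nat_lit 0xe7b) (.g 15 7 0 5 12 true false), .t 3 (nat_lit 0xe7d0e7c) (.a 5 7 12 16 false), .t 2 (nat_lit 0xe7c) (.g 16 7 0 5 12 true false), .t 2 (nat_lit 0xe77) (.g 5 7 0 12 17 true true), .t 2 (nat_lit 0xe78) (.g 5 7 0 12 18 true true), .t 2 (nat_lit 0xe73) (.g 7 5 0 12 18 false true), .t 2 (nat_lit 0xe76) (.g 14 5 0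 7 13 true false), .t 2 (nat_lit 0xe7e) (.g 0 11 5 13 14 true true), .t 3 (nat_lit 0xe7f0e76) (.g 0 11 7 13 14 true true), .t 2 (nat_lit 0xe74) (.g 7 5 0 13 15 false true), .t 2 (nat_lit 0xe74) (.g 7 5 0 13 18 false true), .t 2 (nat_lit 0xe7b) (.g 5 7 0 14 15 true true), .t 2 (nat_lit 0xe7b) (.g 15 7 0 5 14 true false), .t 2 (nat_lit 0xe76) (.g 7 5 0 14 17 false true), .t 3 (nat_lit 0xe800e77) (.a 5 7 14 17 false), .t 2 (nat_lit 0xe76) (.g 7 5 0 14 18 false true), .t 2 (nat_lit 0xe7b) (.g 7 5 0 15 18 false true), .t 3 (nat_lit 0xe810e77) (.g 7 5 0 16 17 false true)] (by decide +kernel) (by decide +kernel)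
theorem b207 : B 13248 13312 := Blk.of_chk [.t 2 (nat_lit 0xe77) (.g 17 5 0 7 16 true false), .t 3 (nat_lit 0xe820e77) (.g 0 11 7 16 17 true true), .t 2 (nat_lit 0xe7c) (.g 7 5 0 16 18 false true), .t 2 (nat_lit 0xe83) (.g 0 11 5 16 18 true true), .t 2 (nat_lit 0xe77) (.g 7 5 0 17 18 false true), .t 3 (nat_lit 0xe840e78) (.g 0 11 7 17 18 true true), .t 1 (nat_lit 0) (.g 5 8 0 9 11 true false), .t 2 (nat_lit 0xe85) (.g 0 11 5 9 13 true true), .t 1 (nat_lit 0) (.g 5 8 0 9 15 true false), .t 1 (nat_lit 0) (.g 5 8 0 9 16 true false), .t 1 (nat_lit 0) (.g 5 0 8 9 18 false true), .t 1 (nat_lit 0) (.g 5 8 0 9 18 true false), .t 2 (nat_lit 0xe86) (.g 0 11 5 8 18 true true), .t 1 (nat_lit 0) (.g 5 0 8 10 18 false true), .t 1 (nat_lit 0) (.g 5 8 0 10 18 true false), .t 2 (nat_lit 0xe87) (.g 0 11 5 8 18 true true), .t 1 (nat_lit 0) (.g 11 0 5 8 12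 false true), .t 1 (nat_lit 0) (.g 5 11 0 8 12 false false), .t 2 (nat_lit 0xe88) (.g 8 0 5 11 12 true false), .t 2 (nat_lit 0xe89) (.g 8 0 5 11 13 true false), .t 1 (nat_lit 0) (.g 11 0 5 8 14 false true), .t 2 (nat_lit 0xe8a) (.g 11 0 5 8 16 false true), .t 1 (nat_lit 0) (.g 5 17 0 8 11 false false), .t 2 (nat_lit 0xe8b) (.g 8 0 5 11 17 true true), .t 3 (nat_lit 0xe8c0e89) (.g 0 11 8 12 13 true true), .t 2 (nat_lit 0xe88) (.g 8 5 0 12 16 false true), .t 3 (nat_lit 0xe8e0e8d) (.g 0 11 8 12 16 true true), .t 2 (nat_lit 0xe8b) (.g 5 8 0 12 17 true true), .t 3 (nat_lit 0xe8f0e8b) (.g 0 11 8 12 17 true true), .t 2 (nat_lit 0xe90) (.g 5 8 0 12 18 true true), .t 2 (nat_lit 0xe91) (.g 5 8 0 13 14 true true), .t 3 (nat_lit 0xe920e91) (.a 5 8 13 14 true), .t 2 (nat_lit 0xe91) (.g 14 5 0 8 13 true false), .t 2 (nat_lit 0xe89) (.g 8 5 0 13 15 false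 true), .t 2 (nat_lit 0xe8d) (.g 5 8 0 13 16 true true), .t 2 (nat_lit 0xe8d) (.g 16 5 0 8 13 true false), .t 2 (nat_lit 0xe8b) (.g 5 8 0 13 17 true true), .t 2 (nat_lit 0xe89) (.g 8 5 0 13 17 false true), .t 2 (nat_lit 0xe89) (.g 8 5 0 13 18 false true), .t 2 (nat_lit 0xe90) (.g 18 5 0 8 13 true false), .t 3 (nat_lit 0xe940e93) (.g 0 11 8 14 15 true true), .t 2 (nat_lit 0xe95) (.g 0 11 5 14 16 true true), .t 3 (nat_lit 0xe960e8d) (.g 0 11 8 14 16 true true), .t 2 (nat_lit 0xe8b) (.g 17 5 0 8 14 true false), .t 3 (nat_lit 0xe970e8b) (.g 0 11 8 14 17 true true), .t 2 (nat_lit 0xe90) (.g 18 5 0 8 14 true false), .t 2 (nat_lit 0xe98) (.g 0 11 5 15 16 true true), .t 2 (nat_lit 0xe90) (.g 18 5 0 8 15 true false), .t 2 (nat_lit 0xe8b) (.g 17 5 0 8 16 true false), .t 2 (nat_lit 0xe99) (.g 0 11 5 16 17 true true), .t 3 (nat_lit 0xe9a0e8b) (.g 0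 11 8 16 17 true true), .t 2 (nat_lit 0xe9b) (.g 0 11 5 16 18 true true), .t 2 (nat_lit 0xe8b) (.g 8 0 5 17 18 true false), .t 3 (nat_lit 0xe9c0e90) (.a 5 8 17 18 true), .t 2 (nat_lit 0xe90) (.g 18 5 0 8 17 true false), .t 2 (nat_lit 0xe9d) (.g 0 11 5 17 18 true true), .t 1 (nat_lit 0) (.g 5 10 0 9 11 true false), .t 1 (nat_lit 0) (.g 9 11 0 5 10 false true), .t 1 (nat_lit 0) (.g 5 10 0 9 12 true false), .t 2 (nat_lit 0xe9e) (.g 0 11 5 9 12 true true), .t 1 (nat_lit 0) (.g 5 10 0 9 13 true false), .t 2 (nat_lit 0xe9f) (.g 0 11 5 9 13 true true), .t 2 (nat_lit 0xea0) (.g 0 11 5 10 13 true true), .t 1 (nat_lit 0) (.g 5 10 0 9 14 true false)] (by decide +kernel) (by decide +kernel)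
theorem b208 : B 13312 13376 := Blk.of_chk [.t 2 (nat_lit 0xea1) (.g 0 11 5 9 14 true true), .t 2 (nat_lit 0xea2) (.g 0 11 5 10 14 true true), .t 1 (nat_lit 0) (.a 5 9 10 15 false), .t 1 (nat_lit 0) (.g 5 10 0 9 15 true false), .t 2 (nat_lit 0xea3) (.g 0 11 5 9 15 true true), .t 2 (nat_lit 0xea4) (.g 5 0 9 10 16 false false), .t 2 (nat_lit 0xea5) (.g 0 11 5 9 16 true true), .t 2 (nat_lit 0xea6) (.g 5 0 9 10 17 false false), .t 1 (nat_lit 0) (.g 9 17 0 5 10 true true), .t 2 (nat_lit 0xea7) (.g 0 11 5 9 17 true true), .t 2 (nat_lit 0xea8) (.g 0 11 5 10 17 true true), .t 2 (nat_lit 0xea9) (.g 0 11 5 10 18 true true), .t 2 (nat_lit 0xeaa) (.g 0 11 9 10 18 true true), .t 1 (nat_lit 0) (.g 9 18 0 5 10 true true), .t 1 (nat_lit 0) (.g 5 10 0 9 18 true false), .t 1 (nat_lit 0) (.g 5 10 0 9 18 true false), .t 2 (nat_lit 0xeab) (.g 0 11 5 9 18 true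 true), .t 1 (nat_lit 0) (.g 11 0 5 9 12 false true), .t 2 (nat_lit 0xeac) (.g 11 0 5 9 12 false true), .t 1 (nat_lit 0) (.g 5 11 0 9 12 false false), .t 2 (nat_lit 0xead) (.g 9 0 5 11 12 true true), .t 2 (nat_lit 0xead) (.g 9 0 5 11 12 true false), .t 2 (nat_lit 0xeae) (.g 11 0 5 9 13 false true), .t 2 (nat_lit 0xeaf) (.g 9 0 5 11 13 true true), .t 1 (nat_lit 0) (.g 11 0 5 9 14 false true), .t 1 (nat_lit 0) (.g 11 0 5 9 14 false false), .t 2 (nat_lit 0xeb0) (.g 11 0 5 9 14 false true), .t 2 (nat_lit 0xeb1) (.g 9 0 5 11 14 true true), .t 2 (nat_lit 0xeb1) (.g 9 0 5 11 14 true false), .t 1 (nat_lit 0) (.g 11 0 5 9 15 false true), .t 2 (nat_lit 0xeb2) (.g 11 0 5 9 15 false true), .t 2 (nat_lit 0xeb3) (.g 9 0 5 11 15 true true), .t 2 (nat_lit 0xeb4) (.g 11 0 5 9 16 false true), .t 2 (nat_lit 0xeb5) (.g 9 0 5 11 16 true true), .t 2 (nat_lit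 0xeb5) (.g 9 0 5 11 16 true false), .t 1 (nat_lit 0) (.g 9 5 0 11 17 false true), .t 2 (nat_lit 0xeb6) (.g 11 0 5 9 17 false true), .t 2 (nat_lit 0xeb7) (.g 9 0 5 11 17 true true), .t 1 (nat_lit 0) (.g 9 5 0 11 18 false true), .t 2 (nat_lit 0xeb8) (.g 11 0 5 9 18 false true), .t 2 (nat_lit 0xeb9) (.g 9 0 5 11 18 true true), .t 2 (nat_lit 0xeaf) (.g 13 5 0 9 12 true false), .t 3 (nat_lit 0xeba0eaf) (.g 0 11 9 12 13 true true), .t 2 (nat_lit 0xeb1) (.g 14 5 0 9 12 true false), .t 2 (nat_lit 0xebb) (.g 0 11 5 12 14 true true), .t 3 (nat_lit 0xebc0eb1) (.g 0 11 9 12 14 true true), .t 3 (nat_lit 0xebd0eb1) (.g 0 11 9 12 14 true true), .t 3 (nat_lit 0xebe0eb3) (.g 0 11 9 12 15 true true), .t 3 (nat_lit 0xebf0eb5) (.a 5 9 12 16 true), .t 3 (nat_lit 0xec00eb5) (.g 0 11 9 12 16 true true), .t 3 (nat_lit 0xec10eb5) (.g 0 11 9 12 16 true true), .t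 3 (nat_lit 0xec20eb7) (.a 5 9 12 17 true), .t 3 (nat_lit 0xec30eb7) (.g 0 11 9 12 17 true true), .t 2 (nat_lit 0xeb9) (.g 5 9 0 12 18 true true), .t 2 (nat_lit 0xeb9) (.g 18 5 0 9 12 true false), .t 3 (nat_lit 0xec40eb9) (.g 0 11 9 12 18 true true), .t 3 (nat_lit 0xec50eb1) (.a 5 9 13 14 true), .t 3 (nat_lit 0xec60eb1) (.a 5 9 13 14 false), .t 2 (nat_lit 0xeb1) (.g 14 5 0 9 13 true false), .t 2 (nat_lit 0xeb1) (.g 14 9 0 5 13 true false), .t 2 (nat_lit 0xec7) (.g 0 11 5 13 14 true true), .t 2 (nat_lit 0xec8) (.g 0 11 5 13 14 true true), .t 3 (nat_lit 0xec90eb1) (.g 0 11 9 13 14 true true), .t 3 (nat_lit 0xeca0eb1) (.g 0 11 9 13 14 true true)] (by decide +kernel) (by decide +kernel)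
theorem b209 : B 13376 13440 := Blk.of_chk [.t 3 (nat_lit 0xecb0eb3) (.a 5 9 13 15 true), .t 2 (nat_lit 0xeb3) (.g 15 5 0 9 13 true false), .t 3 (nat_lit 0xecc0eb3) (.g 0 11 9 13 15 true true), .t 3 (nat_lit 0xecd0eb3) (.g 0 11 9 13 15 true true), .t 3 (nat_lit 0xece0eb5) (.a 5 9 13 16 true), .t 2 (nat_lit 0xeb5) (.g 16 5 0 9 13 true false), .t 2 (nat_lit 0xecf) (.g 0 11 5 13 16 true true), .t 3 (nat_lit 0xed00eb5) (.g 0 11 9 13 16 true true), .t 3 (nat_lit 0xed10eb5) (.g 0 11 9 13 16 true true), .t 3 (nat_lit 0xed20eaf) (.g 9 0 5 13 17 true false), .t 3 (nat_lit 0xed30eb7) (.a 5 9 13 17 true), .t 2 (nat_lit 0xeb7) (.g 17 5 0 9 13 true false), .t 2 (nat_lit 0xed4) (.g 0 11 5 13 17 true true), .t 3 (nat_lit 0xed50eb7) (.g 0 11 9 13 17 true true), .t 3 (nat_lit 0xed60eaf) (.g 9 0 5 13 18 true false), .t 3 (nat_lit 0xed70eb9) (.a 5 9 13 18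 true), .t 2 (nat_lit 0xeb9) (.g 18 5 0 9 13 true false), .t 3 (nat_lit 0xed80eb9) (.g 0 11 9 13 18 true true), .t 3 (nat_lit 0xed90eb9) (.g 0 11 9 13 18 true true), .t 3 (nat_lit 0xeda0eb3) (.a 5 9 14 15 true), .t 2 (nat_lit 0xedb) (.g 0 11 5 14 15 true true), .t 2 (nat_lit 0xedc) (.g 0 11 5 14 15 true true), .t 3 (nat_lit 0xedd0eb3) (.g 0 11 9 14 15 true true), .t 3 (nat_lit 0xede0eb3) (.g 0 11 9 14 15 true true), .t 3 (nat_lit 0xedf0eb5) (.a 5 9 14 16 true), .t 2 (nat_lit 0xeb5) (.g 16 5 0 9 14 true false), .t 2 (nat_lit 0xee0) (.g 0 11 5 14 16 true true), .t 3 (nat_lit 0xee10eb5) (.g 0 11 9 14 16 true true), .t 3 (nat_lit 0xee20eb5) (.g 0 11 9 14 16 true true), .t 2 (nat_lit 0xeb1) (.g 9 5 0 14 17 false true), .t 2 (nat_lit 0xeb7) (.g 17 5 0 9 14 true false), .t 3 (nat_lit 0xee30eb7) (.g 0 11 9 14 17 true true), .t 2 (nat_lit 0xeb9)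 (.g 5 9 0 14 18 true true), .t 2 (nat_lit 0xeb9) (.g 18 5 0 9 14 true false), .t 2 (nat_lit 0xee4) (.g 0 11 5 14 18 true true), .t 3 (nat_lit 0xee50eb9) (.g 0 11 9 14 18 true true), .t 3 (nat_lit 0xee60eb9) (.g 0 11 9 14 18 true true), .t 2 (nat_lit 0xeb5) (.g 16 5 0 9 15 true false), .t 3 (nat_lit 0xee70eb5) (.g 0 11 9 15 16 true true), .t 3 (nat_lit 0xee80eb5) (.g 0 11 9 15 16 true true), .t 3 (nat_lit 0xee90eb7) (.a 5 9 15 17 true), .t 2 (nat_lit 0xeb7) (.g 17 5 0 9 15 true false), .t 3 (nat_lit 0xeea0eb7) (.g 0 11 9 15 17 true true), .t 2 (nat_lit 0xeb9) (.g 18 5 0 9 15 true false), .t 3 (nat_lit 0xeeb0eb9) (.g 0 11 9 15 18 true true), .t 3 (nat_lit 0xeec0eb9) (.g 0 11 9 15 18 true true), .t 2 (nat_lit 0xeed) (.g 0 11 9 16 17 true true), .t 2 (nat_lit 0xeb7) (.g 17 5 0 9 16 true false), .t 2 (nat_lit 0xeee) (.g 0 11 5 16 17 true true),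 .t 3 (nat_lit 0xeed0eb7) (.g 0 11 9 16 17 true true), .t 2 (nat_lit 0xeb9) (.g 18 5 0 9 16 true false), .t 2 (nat_lit 0xeef) (.g 0 11 5 16 18 true true), .t 3 (nat_lit 0xef00eb9) (.g 0 11 9 16 18 true true), .t 3 (nat_lit 0xef10eb9) (.g 0 11 9 16 18 true true), .t 2 (nat_lit 0xeb9) (.g 18 5 0 9 17 true false), .t 2 (nat_lit 0xef2) (.g 0 11 5 17 18 true true), .t 3 (nat_lit 0xef30eb9) (.g 0 11 9 17 18 true true), .t 3 (nat_lit 0xef40eb9) (.g 0 11 9 17 18 true true), .t 1 (nat_lit 0) (.g 5 11 0 10 12 false false), .t 2 (nat_lit 0xef5) (.g 11 0 5 10 13 false true), .t 2 (nat_lit 0xef6) (.g 10 0 5 11 13 true false), .t 1 (nat_lit 0) (.g 11 0 5 10 14 false false), .t 1 (nat_lit 0) (.g 11 0 5 10 15 false true), .t 2 (nat_lit 0xef7) (.g 10 0 5 11 15 true true)] (by decide +kernel) (by decide +kernel)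
theorem b210 : B 13440 13504 := Blk.of_chk [.t 2 (nat_lit 0xef8) (.g 5 10 0 11 16 true true), .t 2 (nat_lit 0xef9) (.g 11 0 5 10 16 false true), .t 2 (nat_lit 0xefa) (.g 5 10 0 11 18 true true), .t 2 (nat_lit 0xefb) (.g 11 0 5 10 18 false true), .t 2 (nat_lit 0xefc) (.g 0 11 5 12 13 true true), .t 3 (nat_lit 0xefd0ef6) (.g 0 11 10 12 13 true true), .t 3 (nat_lit 0xeff0efe) (.g 0 11 10 12 14 true true), .t 3 (nat_lit 0xf000ef8) (.g 0 11 10 12 16 true true), .t 2 (nat_lit 0xf01) (.g 0 11 5 12 17 true true), .t 3 (nat_lit 0xf030f02) (.g 0 11 10 12 17 true true), .t 2 (nat_lit 0xefa) (.g 18 5 0 10 12 true false), .t 3 (nat_lit 0xf040efe) (.a 5 10 13 14 true), .t 3 (nat_lit 0xf050efe) (.a 5 10 13 14 false), .t 2 (nat_lit 0xf06) (.g 0 11 5 13 14 true true), .t 3 (nat_lit 0xf070efe) (.g 0 11 10 13 14 true true), .t 3 (nat_lit 0xf080ef7) (.a 5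 10 13 15 false), .t 2 (nat_lit 0xef7) (.g 15 10 0 5 13 true false), .t 3 (nat_lit 0xf090ef7) (.g 0 11 10 13 15 true true), .t 3 (nat_lit 0xf0a0ef8) (.a 5 10 13 16 false), .t 3 (nat_lit 0xf0b0f02) (.a 5 10 13 17 false), .t 2 (nat_lit 0xefa) (.g 18 5 0 10 13 true false), .t 3 (nat_lit 0xf0c0f02) (.g 0 11 10 14 17 true true), .t 3 (nat_lit 0xf0d0efa) (.a 5 10 14 18 true), .t 2 (nat_lit 0xefa) (.g 18 5 0 10 14 true false), .t 2 (nat_lit 0xf0e) (.g 0 11 5 15 17 true true), .t 3 (nat_lit 0xf0f0efa) (.g 0 11 10 15 18 true true), .t 2 (nat_lit 0xf02) (.g 17 5 0 10 16 true false), .t 2 (nat_lit 0xf10) (.g 0 11 5 16 17 true true), .t 3 (nat_lit 0xf110f02) (.g 0 11 10 16 17 true true), .t 3 (nat_lit 0xf120efa) (.g 0 11 10 16 18 true true), .t 2 (nat_lit 0xf13) (.g 0 11 10 17 18 true true), .t 2 (nat_lit 0xefa) (.g 18 5 0 10 17 true false), .t 2 (nat_lit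 0xf14) (.g 0 11 5 17 18 true true), .t 1 (nat_lit 0) (.g 11 0 5 12 14 false false), .t 2 (nat_lit 0xf15) (.g 12 14 0 5 11 true false), .t 1 (nat_lit 0) (.g 14 11 0 5 12 false false), .t 2 (nat_lit 0xf16) (.g 12 5 0 11 15 true true), .t 1 (nat_lit 0) (.g 15 11 0 5 12 false false), .t 1 (nat_lit 0) (.g 16 11 0 5 12 false false), .t 1 (nat_lit 0) (.g 11 0 5 12 17 false true), .t 2 (nat_lit 0xf17) (.g 12 5 0 11 18 true true), .t 1 (nat_lit 0) (.g 18 11 0 5 12 false false), .t 1 (nat_lit 0) (.g 11 0 5 13 14 false false), .t 2 (nat_lit 0xf18) (.g 13 14 0 5 11 true false), .t 2 (nat_lit 0xf18) (.g 13 5 0 11 14 true true), .t 1 (nat_lit 0) (.g 14 13 0 5 11 false false), .t 1 (nat_lit 0) (.g 14 11 0 5 13 false false), .t 1 (nat_lit 0) (.st 5 11 13 14), .t 1 (nat_lit 0) (.st 5 11 14 13), .t 1 (nat_lit 0) (.g 11 0 5 13 15 false true), .t 2 (nat_lit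 0xf19) (.g 13 5 0 11 15 true true), .t 1 (nat_lit 0) (.g 15 11 0 5 13 false false), .t 2 (nat_lit 0xf1a) (.g 13 16 0 5 11 true false), .t 1 (nat_lit 0) (.g 16 13 0 5 11 false false), .t 1 (nat_lit 0) (.g 16 11 0 5 13 false false), .t 1 (nat_lit 0) (.g 11 0 5 13 17 false true), .t 1 (nat_lit 0) (.g 11 0 5 13 17 false false), .t 2 (nat_lit 0xf1b) (.g 13 5 0 11 17 true true), .t 1 (nat_lit 0) (.g 17 13 0 5 11 false false), .t 1 (nat_lit 0) (.g 17 11 0 5 13 false false), .t 1 (nat_lit 0) (.st 5 11 13 17), .t 1 (nat_lit 0) (.g 11 0 5 13 18 false false), .t 2 (nat_lit 0xf1c) (.g 13 5 0 11 18 true true), .t 1 (nat_lit 0) (.g 18 13 0 5 11 false false)] (by decide +kernel) (by decide +kernel)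
theorem b211 : B 13504 13568 := Blk.of_chk [.t 1 (nat_lit 0) (.g 18 11 0 5 13 false false), .t 1 (nat_lit 0) (.g 11 0 5 14 15 false true), .t 1 (nat_lit 0) (.g 11 0 5 14 15 false false), .t 1 (nat_lit 0) (.g 11 0 5 14 16 false true), .t 1 (nat_lit 0) (.g 11 0 5 14 16 false false), .t 2 (nat_lit 0xf1d) (.g 14 5 0 11 16 true true), .t 1 (nat_lit 0) (.g 16 14 0 5 11 false false), .t 1 (nat_lit 0) (.g 11 0 5 14 17 false false), .t 2 (nat_lit 0xf1e) (.g 14 17 0 5 11 true false), .t 2 (nat_lit 0xf1e) (.g 14 5 0 11 17 true true), .t 1 (nat_lit 0) (.g 17 14 0 5 11 false false), .t 1 (nat_lit 0) (.g 11 0 5 14 18 false false), .t 1 (nat_lit 0) (.g 18 14 0 5 11 false false), .t 1 (nat_lit 0) (.g 18 11 0 5 14 false false), .t 1 (nat_lit 0) (.g 11 0 5 15 16 false false), .t 2 (nat_lit 0xf1f) (.g 15 5 0 11 16 true true), .t 1 (nat_lit 0) (.g 16 11 0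 5 15 false false), .t 1 (nat_lit 0) (.g 11 0 5 15 17 false true), .t 1 (nat_lit 0) (.g 11 0 5 15 17 false false), .t 2 (nat_lit 0xf20) (.g 15 17 0 5 11 true false), .t 2 (nat_lit 0xf20) (.g 15 5 0 11 17 true true), .t 1 (nat_lit 0) (.g 17 15 0 5 11 false false), .t 1 (nat_lit 0) (.g 17 11 0 5 15 false false), .t 1 (nat_lit 0) (.g 11 0 5 15 18 false true), .t 1 (nat_lit 0) (.g 11 0 5 15 18 false false), .t 1 (nat_lit 0) (.g 18 11 0 5 15 false false), .t 1 (nat_lit 0) (.st 5 11 15 18), .t 1 (nat_lit 0) (.g 11 0 5 16 17 false true), .t 1 (nat_lit 0) (.g 11 0 5 16 17 false false), .t 2 (nat_lit 0xf21) (.g 16 17 0 5 11 true false), .t 2 (nat_lit 0xf21) (.g 16 5 0 11 17 true true), .t 1 (nat_lit 0) (.g 17 16 0 5 11 false false), .t 1 (nat_lit 0) (.g 17 11 0 5 16 false false), .t 1 (nat_lit 0) (.g 11 0 5 16 18 false true), .t 1 (nat_lit 0) (.g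 11 0 5 16 18 false false), .t 2 (nat_lit 0xf22) (.g 16 18 0 5 11 true false), .t 1 (nat_lit 0) (.g 18 16 0 5 11 false false), .t 1 (nat_lit 0) (.g 11 0 5 17 18 false true), .t 2 (nat_lit 0xf23) (.g 17 18 0 5 11 true false), .t 2 (nat_lit 0xf23) (.g 17 5 0 11 18 true true), .t 1 (nat_lit 0) (.g 18 17 0 5 11 false false), .t 1 (nat_lit 0) (.g 18 11 0 5 17 false false), .t 1 (nat_lit 0) (.st 5 11 17 18), .t 2 (nat_lit 0xf18) (.g 13 14 0 5 12 true false), .t 2 (nat_lit 0xf19) (.g 13 5 0 12 15 true true), .t 1 (nat_lit 0) (.g 15 13 0 5 12 false false), .t 1 (nat_lit 0) (.g 15 12 0 5 13 false false), .t 2 (nat_lit 0xf24) (.g 12 0 5 13 16 false true), .t 1 (nat_lit 0) (.g 16 13 0 5 12 false false), .t 2 (nat_lit 0xf25) (.g 12 0 5 13 17 false true), .t 2 (nat_lit 0xf1b) (.g 13 17 0 5 12 true false), .t 1 (nat_lit 0) (.g 17 13 0 5 12 false false),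 .t 2 (nat_lit 0xf1c) (.g 13 18 0 5 12 true false), .t 1 (nat_lit 0) (.st 5 12 13 18), .t 2 (nat_lit 0xf16) (.g 12 0 5 14 15 false true), .t 2 (nat_lit 0xf16) (.g 12 0 5 14 15 false false), .t 2 (nat_lit 0xf26) (.g 14 5 0 12 15 true true), .t 1 (nat_lit 0) (.g 15 14 0 5 12 false false), .t 1 (nat_lit 0) (.g 15 12 0 5 14 false false), .t 2 (nat_lit 0xf24) (.g 12 0 5 14 16 false true), .t 1 (nat_lit 0) (.g 16 12 0 5 14 false false), .t 2 (nat_lit 0xf25) (.g 12 0 5 14 17 false true), .t 2 (nat_lit 0xf1e) (.g 14 17 0 5 12 true false), .t 1 (nat_lit 0) (.g 17 14 0 5 12 false false)] (by decide +kernel) (by decide +kernel)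
theorem b212 : B 13568 13632 := Blk.of_chk [.t 2 (nat_lit 0xf17) (.g 12 0 5 14 18 false true), .t 2 (nat_lit 0xf17) (.g 12 0 5 14 18 false false), .t 2 (nat_lit 0xf27) (.g 14 18 0 5 12 true false), .t 2 (nat_lit 0xf27) (.g 14 5 0 12 18 true true), .t 1 (nat_lit 0) (.g 18 14 0 5 12 false false), .t 1 (nat_lit 0) (.st 5 12 14 18), .t 2 (nat_lit 0xf24) (.g 12 0 5 15 16 false true), .t 1 (nat_lit 0) (.g 16 15 0 5 12 false false), .t 1 (nat_lit 0) (.g 16 12 0 5 15 false false), .t 2 (nat_lit 0xf25) (.g 12 0 5 15 17 false true), .t 2 (nat_lit 0xf20) (.g 15 17 0 5 12 true false), .t 2 (nat_lit 0xf17) (.g 12 0 5 15 18 false true), .t 2 (nat_lit 0xf17) (.g 12 0 5 15 18 false false), .t 2 (nat_lit 0xf25) (.g 12 0 5 16 17 false true), .t 2 (nat_lit 0xf21) (.g 16 17 0 5 12 true false), .t 1 (nat_lit 0) (.g 17 16 0 5 12 false false), .t 2 (nat_lit 0xf17)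 (.g 12 0 5 16 18 false true), .t 2 (nat_lit 0xf17) (.g 12 0 5 16 18 false false), .t 2 (nat_lit 0xf22) (.g 16 18 0 5 12 true false), .t 1 (nat_lit 0) (.g 18 16 0 5 12 false false), .t 1 (nat_lit 0) (.g 18 12 0 5 16 false false), .t 1 (nat_lit 0) (.st 5 12 16 18), .t 2 (nat_lit 0xf17) (.g 12 0 5 17 18 false true), .t 2 (nat_lit 0xf23) (.g 17 18 0 5 12 true false), .t 1 (nat_lit 0) (.g 18 17 0 5 12 false false), .t 2 (nat_lit 0xf19) (.g 13 0 5 14 15 false true), .t 2 (nat_lit 0xf19) (.g 13 0 5 14 15 false false), .t 2 (nat_lit 0xf26) (.g 14 15 0 5 13 true false), .t 2 (nat_lit 0xf26) (.g 14 5 0 13 15 true true), .t 1 (nat_lit 0) (.g 15 13 0 5 14 false false), .t 2 (nat_lit 0xf1a) (.g 13 0 5 14 16 false true), .t 2 (nat_lit 0xf1a) (.g 13 0 5 14 16 false false), .t 2 (nat_lit 0xf1d) (.g 14 16 0 5 13 true false), .t 2 (nat_lit 0xf1d) (.g 14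 5 0 13 16 true true), .t 1 (nat_lit 0) (.g 16 14 0 5 13 false false), .t 2 (nat_lit 0xf1b) (.g 13 0 5 14 17 false true), .t 2 (nat_lit 0xf1b) (.g 13 0 5 14 17 false false), .t 2 (nat_lit 0xf1e) (.g 14 17 0 5 13 true false), .t 2 (nat_lit 0xf1e) (.g 14 5 0 13 17 true true), .t 1 (nat_lit 0) (.g 17 14 0 5 13 false false), .t 2 (nat_lit 0xf1c) (.g 13 0 5 14 18 false true), .t 2 (nat_lit 0xf1c) (.g 13 0 5 14 18 false false), .t 2 (nat_lit 0xf27) (.g 14 18 0 5 13 true false), .t 2 (nat_lit 0xf27) (.g 14 5 0 13 18 true true), .t 1 (nat_lit 0) (.g 18 14 0 5 13 false false), .t 2 (nat_lit 0xf1a) (.g 13 0 5 15 16 false true), .t 1 (nat_lit 0) (.g 16 15 0 5 13 false false), .t 1 (nat_lit 0) (.g 16 13 0 5 15 false false), .t 1 (nat_lit 0) (.st 5 13 16 15), .t 2 (nat_lit 0xf1b) (.g 13 0 5 15 17 false true), .t 2 (nat_lit 0xf1b) (.g 13 0 5 15 17 false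 false), .t 2 (nat_lit 0xf20) (.g 15 17 0 5 13 true false), .t 2 (nat_lit 0xf20) (.g 15 5 0 13 17 true true), .t 1 (nat_lit 0) (.g 17 15 0 5 13 false false), .t 1 (nat_lit 0) (.g 17 13 0 5 15 false false), .t 2 (nat_lit 0xf1c) (.g 13 0 5 15 18 false true), .t 2 (nat_lit 0xf1c) (.g 13 0 5 15 18 false false), .t 1 (nat_lit 0) (.g 18 15 0 5 13 false false), .t 1 (nat_lit 0) (.g 18 13 0 5 15 false false), .t 1 (nat_lit 0) (.st 5 13 15 18), .t 2 (nat_lit 0xf1b) (.g 13 0 5 16 17 false true), .t 2 (nat_lit 0xf1b) (.g 13 0 5 16 17 false false), .t 2 (nat_lit 0xf21) (.g 16 17 0 5 13 true false), .t 2 (nat_lit 0xf21) (.g 16 5 0 13 17 true true)] (by decide +kernel) (by decide +kernel)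
theorem b213 : B 13632 13696 := Blk.of_chk [.t 1 (nat_lit 0) (.g 17 16 0 5 13 false false), .t 1 (nat_lit 0) (.g 17 13 0 5 16 false false), .t 1 (nat_lit 0) (.st 5 13 16 17), .t 2 (nat_lit 0xf1c) (.g 13 0 5 16 18 false true), .t 2 (nat_lit 0xf1c) (.g 13 0 5 16 18 false false), .t 2 (nat_lit 0xf22) (.g 16 18 0 5 13 true false), .t 1 (nat_lit 0) (.g 18 16 0 5 13 false false), .t 1 (nat_lit 0) (.g 18 13 0 5 16 false false), .t 2 (nat_lit 0xf1c) (.g 13 0 5 17 18 false true), .t 2 (nat_lit 0xf1c) (.g 13 0 5 17 18 false false), .t 2 (nat_lit 0xf23) (.g 17 18 0 5 13 true false), .t 2 (nat_lit 0xf23) (.g 17 5 0 13 18 true true), .t 1 (nat_lit 0) (.g 18 17 0 5 13 false false), .t 2 (nat_lit 0xf1f) (.g 15 5 0 14 16 true true), .t 1 (nat_lit 0) (.g 16 15 0 5 14 false false), .t 1 (nat_lit 0) (.g 16 14 0 5 15 false false), .t 2 (nat_lit 0xf1e) (.g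 14 0 5 15 17 false true), .t 2 (nat_lit 0xf20) (.g 15 17 0 5 14 true false), .t 1 (nat_lit 0) (.g 17 15 0 5 14 false false), .t 1 (nat_lit 0) (.g 17 14 0 5 15 false false), .t 1 (nat_lit 0) (.st 5 14 17 15), .t 2 (nat_lit 0xf28) (.g 15 18 0 5 14 true false), .t 1 (nat_lit 0) (.g 18 14 0 5 15 false false), .t 2 (nat_lit 0xf1e) (.g 14 0 5 16 17 false false), .t 2 (nat_lit 0xf21) (.g 16 17 0 5 14 true false), .t 2 (nat_lit 0xf21) (.g 16 5 0 14 17 true true), .t 1 (nat_lit 0) (.g 17 16 0 5 14 false false), .t 1 (nat_lit 0) (.g 17 14 0 5 16 false false), .t 2 (nat_lit 0xf27) (.g 14 0 5 16 18 false false), .t 1 (nat_lit 0) (.g 18 16 0 5 14 false false), .t 1 (nat_lit 0) (.g 18 14 0 5 16 false false), .t 2 (nat_lit 0xf23) (.g 17 18 0 5 14 true false), .t 2 (nat_lit 0xf23) (.g 17 5 0 14 18 true true), .t 1 (nat_lit 0) (.g 18 17 0 5 14 false false),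 .t 1 (nat_lit 0) (.g 18 14 0 5 17 false false), .t 2 (nat_lit 0xf20) (.g 15 0 5 16 17 false false), .t 2 (nat_lit 0xf21) (.g 16 17 0 5 15 true false), .t 2 (nat_lit 0xf21) (.g 16 5 0 15 17 true true), .t 1 (nat_lit 0) (.g 17 16 0 5 15 false false), .t 1 (nat_lit 0) (.g 17 15 0 5 16 false false), .t 2 (nat_lit 0xf28) (.g 15 0 5 16 18 false false), .t 1 (nat_lit 0) (.g 18 16 0 5 15 false false), .t 1 (nat_lit 0) (.g 18 15 0 5 16 false false), .t 2 (nat_lit 0xf28) (.g 15 0 5 17 18 false false), .t 2 (nat_lit 0xf23) (.g 17 18 0 5 15 true false), .t 2 (nat_lit 0xf23) (.g 17 5 0 15 18 true true), .t 1 (nat_lit 0) (.g 18 17 0 5 15 false false), .t 1 (nat_lit 0) (.st 5 15 18 17), .t 2 (nat_lit 0xf22) (.g 16 0 5 17 18 false false), .t 2 (nat_lit 0xf23) (.g 17 18 0 5 16 true false), .t 1 (nat_lit 0) (.g 18 16 0 5 17 false false), .t 1 (nat_lit 0)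 (.st 5 16 17 18), .t 1 (nat_lit 0) (.st 5 16 18 17), .t 2 (nat_lit 0xf29) (.g 0 11 6 8 12 true true), .t 1 (nat_lit 0) (.g 8 0 6 7 15 true true), .t 1 (nat_lit 0) (.g 7 8 0 6 16 true true), .t 1 (nat_lit 0) (.g 6 0 7 8 17 false true), .t 1 (nat_lit 0) (.g 6 7 0 8 17 true false), .t 2 (nat_lit 0xf2a) (.g 0 11 6 8 18 true true), .t 2 (nat_lit 0xf2b) (.g 0 11 7 8 18 true true), .t 1 (nat_lit 0) (.g 6 7 0 8 18 true false), .t 1 (nat_lit 0) (.g 6 7 0 9 11 true false), .t 1 (nat_lit 0) (.g 7 6 0 9 11 false false), .t 1 (nat_lit 0) (.g 9 0 6 7 11 true true)] (by decide +kernel) (by decide +kernel)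
theorem b214 : B 13696 13760 := Blk.of_chk [.t 2 (nat_lit 0xf2c) (.g 0 11 6 9 12 true true), .t 2 (nat_lit 0xf2d) (.g 0 11 6 9 13 true true), .t 1 (nat_lit 0) (.g 6 7 0 9 14 true false), .t 1 (nat_lit 0) (.g 9 7 0 6 15 false true), .t 2 (nat_lit 0xf2e) (.g 6 0 7 9 16 false true), .t 1 (nat_lit 0) (.g 6 0 7 9 16 false true), .t 1 (nat_lit 0) (.g 9 7 0 6 17 false true), .t 1 (nat_lit 0) (.g 6 0 7 9 17 false true), .t 2 (nat_lit 0xf2f) (.g 0 11 6 9 18 true true), .t 1 (nat_lit 0) (.g 9 7 0 6 18 false true), .t 1 (nat_lit 0) (.g 9 0 6 7 18 true true), .t 2 (nat_lit 0xf30) (.g 0 11 6 9 18 true true), .t 1 (nat_lit 0) (.g 10 0 6 7 11 true true), .t 2 (nat_lit 0xf31) (.g 0 11 6 10 12 true true), .t 2 (nat_lit 0xf32) (.g 0 11 7 10 15 true true), .t 1 (nat_lit 0) (.g 10 0 6 7 15 true true), .t 2 (nat_lit 0xf33) (.g 0 11 6 10 16 true true), .t 1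 (nat_lit 0) (.g 6 0 7 10 16 false true), .t 1 (nat_lit 0) (.g 7 10 0 6 17 true true), .t 1 (nat_lit 0) (.g 10 7 0 6 18 false true), .t 2 (nat_lit 0xf34) (.g 6 0 7 10 18 false true), .t 1 (nat_lit 0) (.g 6 11 0 7 12 false false), .t 2 (nat_lit 0xf35) (.g 7 0 6 11 12 true false), .t 1 (nat_lit 0) (.g 6 11 0 7 13 false false), .t 2 (nat_lit 0xf36) (.g 7 0 6 11 13 true false), .t 2 (nat_lit 0xf37) (.g 11 0 6 7 14 false false), .t 1 (nat_lit 0) (.g 11 0 6 7 15 false false), .t 1 (nat_lit 0) (.g 11 0 6 7 16 false false), .t 2 (nat_lit 0xf38) (.g 6 7 0 11 16 true true), .t 1 (nat_lit 0) (.g 7 6 0 11 16 false true), .t 2 (nat_lit 0xf39) (.g 6 7 0 11 17 true true), .t 1 (nat_lit 0) (.g 6 17 0 7 11 false false), .t 2 (nat_lit 0xf3a) (.g 6 7 0 11 18 true true), .t 3 (nat_lit 0xf3c0f3b) (.a 6 7 12 14 false), .t 3 (nat_lit 0xf3d0f3b) (.g 0 11 7 12 14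 true true), .t 2 (nat_lit 0xf3e) (.g 15 7 0 6 12 true false), .t 2 (nat_lit 0xf38) (.g 6 7 0 12 16 true true), .t 2 (nat_lit 0xf35) (.g 7 6 0 12 16 false true), .t 3 (nat_lit 0xf3f0f38) (.a 6 7 12 16 false), .t 2 (nat_lit 0xf39) (.g 6 7 0 12 17 true true), .t 2 (nat_lit 0xf3a) (.g 6 7 0 12 18 true true), .t 2 (nat_lit 0xf35) (.g 7 6 0 12 18 false true), .t 3 (nat_lit 0xf400f3b) (.a 6 7 13 14 false), .t 2 (nat_lit 0xf41) (.g 0 11 6 13 14 true true), .t 2 (nat_lit 0xf36) (.g 7 6 0 13 15 false true), .t 2 (nat_lit 0xf36) (.g 13 0 6 7 16 false false), .t 2 (nat_lit 0xf38) (.g 6 7 0 13 16 true true), .t 2 (nat_lit 0xf36) (.g 7 6 0 13 16 false true), .t 2 (nat_lit 0xf39) (.g 6 7 0 13 17 true true), .t 3 (nat_lit 0xf420f39) (.g 0 11 7 13 17 true true), .t 2 (nat_lit 0xf3a) (.g 6 7 0 13 18 true true), .t 2 (nat_lit 0xf36) (.g 7 6 0 13 18 false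 true), .t 2 (nat_lit 0xf3e) (.g 6 7 0 14 15 true true), .t 3 (nat_lit 0xf430f3b) (.g 14 0 6 7 15 false false), .t 3 (nat_lit 0xf440f3e) (.a 6 7 14 15 false), .t 2 (nat_lit 0xf3e) (.g 15 7 0 6 14 true false), .t 2 (nat_lit 0xf38) (.g 6 7 0 14 16 true true), .t 2 (nat_lit 0xf39) (.g 6 7 0 14 17 true true), .t 2 (nat_lit 0xf3b) (.g 7 6 0 14 18 false true), .t 2 (nat_lit 0xf38) (.g 6 7 0 15 16 true true), .t 2 (nat_lit 0xf3e) (.g 7 6 0 15 16 false true), .t 2 (nat_lit 0xf3e) (.g 7 6 0 15 17 false true), .t 3 (nat_lit 0xf450f39) (.g 0 11 7 15 17 true true), .t 2 (nat_lit 0xf3a) (.g 6 7 0 15 18 true true)] (by decide +kernel) (by decide +kernel)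
theorem b215 : B 13760 13824 := Blk.of_chk [.t 2 (nat_lit 0xf3e) (.g 7 6 0 15 18 false true), .t 2 (nat_lit 0xf46) (.g 0 11 7 16 17 true true), .t 2 (nat_lit 0xf38) (.g 16 6 0 7 17 false true), .t 3 (nat_lit 0xf470f38) (.a 6 7 16 17 true), .t 3 (nat_lit 0xf480f39) (.g 0 11 7 16 17 true true), .t 2 (nat_lit 0xf49) (.g 0 11 7 16 18 true true), .t 2 (nat_lit 0xf3a) (.g 6 7 0 16 18 true true), .t 2 (nat_lit 0xf4a) (.g 0 11 6 16 18 true true), .t 3 (nat_lit 0xf4b0f3a) (.g 0 11 7 16 18 true true), .t 3 (nat_lit 0xf4c0f39) (.g 0 11 6 17 18 true true), .t 2 (nat_lit 0xf4d) (.g 0 11 7 17 18 true true), .t 2 (nat_lit 0xf3a) (.g 6 7 0 17 18 true true), .t 2 (nat_lit 0xf39) (.g 7 6 0 17 18 false true), .t 3 (nat_lit 0xf4e0f3a) (.g 0 11 7 17 18 true true), .t 1 (nat_lit 0) (.g 6 8 0 9 11 true false), .t 1 (nat_lit 0) (.g 6 0 8 9 16 false true), .t 1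 (nat_lit 0) (.g 6 8 0 9 16 true false), .t 2 (nat_lit 0xf4f) (.g 0 11 6 9 17 true true), .t 1 (nat_lit 0) (.g 9 8 0 6 17 false true), .t 1 (nat_lit 0) (.g 9 8 0 6 18 false true), .t 1 (nat_lit 0) (.g 6 0 8 9 18 false true), .t 2 (nat_lit 0xf50) (.g 0 11 6 8 18 true true), .t 2 (nat_lit 0xf51) (.g 0 11 6 9 18 true true), .t 2 (nat_lit 0xf52) (.g 0 11 6 8 13 true true), .t 2 (nat_lit 0xf53) (.g 0 11 6 8 14 true true), .t 2 (nat_lit 0xf54) (.g 0 11 6 10 15 true true), .t 2 (nat_lit 0xf55) (.g 0 11 6 8 16 true true), .t 2 (nat_lit 0xf56) (.g 0 11 6 10 18 true true), .t 1 (nat_lit 0) (.g 11 0 6 8 12 false true), .t 1 (nat_lit 0) (.g 6 11 0 8 12 false false), .t 2 (nat_lit 0xf57) (.g 8 0 6 11 12 true false), .t 1 (nat_lit 0) (.g 11 0 6 8 14 false true), .t 2 (nat_lit 0xf58) (.g 11 0 6 8 16 false true), .t 1 (nat_lit 0) (.g 6 17 0 8 11 false false),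 .t 2 (nat_lit 0xf59) (.g 8 0 6 11 17 true true), .t 2 (nat_lit 0xf5a) (.g 6 8 0 12 15 true true), .t 3 (nat_lit 0xf5c0f5b) (.g 0 11 8 12 16 true true), .t 2 (nat_lit 0xf57) (.g 8 6 0 12 17 false true), .t 3 (nat_lit 0xf5d0f59) (.g 0 11 8 12 17 true true), .t 2 (nat_lit 0xf5e) (.g 14 6 0 8 13 true false), .t 2 (nat_lit 0xf5a) (.g 6 8 0 13 15 true true), .t 3 (nat_lit 0xf5f0f59) (.g 0 11 8 13 17 true true), .t 2 (nat_lit 0xf60) (.g 18 6 0 8 13 true false), .t 3 (nat_lit 0xf610f5b) (.g 0 11 8 14 16 true true), .t 3 (nat_lit 0xf620f5e) (.g 14 0 6 8 17 false false), .t 2 (nat_lit 0xf59) (.g 17 6 0 8 14 true false), .t 3 (nat_lit 0xf630f59) (.g 0 11 8 14 17 true true), .t 2 (nat_lit 0xf60) (.g 18 6 0 8 14 true false), .t 2 (nat_lit 0xf60) (.g 6 8 0 15 18 true true), .t 2 (nat_lit 0xf60) (.g 18 6 0 8 15 true false), .t 2 (nat_lit 0xf64) (.g 0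 11 6 16 17 true true), .t 3 (nat_lit 0xf650f59) (.g 0 11 8 16 17 true true), .t 3 (nat_lit 0xf660f60) (.a 6 8 17 18 true), .t 2 (nat_lit 0xf60) (.g 18 6 0 8 17 true false), .t 1 (nat_lit 0) (.g 6 10 0 9 11 true false), .t 1 (nat_lit 0) (.g 9 11 0 6 10 false true), .t 1 (nat_lit 0) (.g 6 10 0 9 12 true false), .t 2 (nat_lit 0xf67) (.g 0 11 6 9 12 true true), .t 2 (nat_lit 0xf68) (.g 0 11 6 10 12 true true), .t 1 (nat_lit 0) (.g 6 10 0 9 13 true false), .t 2 (nat_lit 0xf69) (.g 0 11 6 9 13 true true), .t 2 (nat_lit 0xf6a) (.g 0 11 6 10 13 true true), .t 2 (nat_lit 0xf6b) (.g 0 11 6 9 14 true true), .t 2 (nat_lit 0xf6c) (.g 0 11 6 10 14 true true)] (by decide +kernel) (by decide +kernel)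
theorem b216 : B 13824 13888 := Blk.of_chk [.t 1 (nat_lit 0) (.g 6 10 0 9 15 true false), .t 2 (nat_lit 0xf6d) (.g 0 11 6 9 15 true true), .t 2 (nat_lit 0xf6e) (.g 6 0 9 10 16 false false), .t 2 (nat_lit 0xf6f) (.g 0 11 6 9 16 true true), .t 2 (nat_lit 0xf70) (.g 6 0 9 10 17 false false), .t 1 (nat_lit 0) (.g 9 17 0 6 10 true true), .t 2 (nat_lit 0xf71) (.g 0 11 6 9 17 true true), .t 2 (nat_lit 0xf72) (.g 0 11 6 10 17 true true), .t 2 (nat_lit 0xf73) (.g 0 11 6 10 18 true true), .t 2 (nat_lit 0xf74) (.g 0 11 9 10 18 true true), .t 1 (nat_lit 0) (.g 10 6 0 9 18 false true), .t 1 (nat_lit 0) (.g 9 18 0 6 10 true true), .t 1 (nat_lit 0) (.g 6 10 0 9 18 true false), .t 1 (nat_lit 0) (.g 6 10 0 9 18 true false), .t 2 (nat_lit 0xf75) (.g 0 11 6 9 18 true true), .t 1 (nat_lit 0) (.g 11 0 6 9 12 false true), .t 1 (nat_lit 0) (.g 6 11 0 9 12 false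 false), .t 2 (nat_lit 0xf76) (.g 9 0 6 11 12 true true), .t 2 (nat_lit 0xf76) (.g 9 0 6 11 12 true false), .t 1 (nat_lit 0) (.g 11 0 6 9 13 false true), .t 2 (nat_lit 0xf77) (.g 11 0 6 9 13 false true), .t 2 (nat_lit 0xf78) (.g 9 0 6 11 13 true true), .t 1 (nat_lit 0) (.g 11 0 6 9 14 false true), .t 1 (nat_lit 0) (.g 11 0 6 9 14 false false), .t 2 (nat_lit 0xf79) (.g 11 0 6 9 14 false true), .t 2 (nat_lit 0xf7a) (.g 9 0 6 11 14 true true), .t 2 (nat_lit 0xf7a) (.g 9 0 6 11 14 true false), .t 1 (nat_lit 0) (.g 9 6 0 11 15 false true), .t 1 (nat_lit 0) (.g 11 0 6 9 15 false true), .t 2 (nat_lit 0xf7b) (.g 11 0 6 9 15 false true), .t 2 (nat_lit 0xf7c) (.g 9 0 6 11 15 true true), .t 1 (nat_lit 0) (.g 11 0 6 9 16 false true), .t 2 (nat_lit 0xf7d) (.g 11 0 6 9 16 false true), .t 2 (nat_lit 0xf7e) (.g 9 0 6 11 16 true true), .t 2 (nat_lit 0xf7e)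 (.g 9 0 6 11 16 true false), .t 1 (nat_lit 0) (.g 9 6 0 11 17 false true), .t 2 (nat_lit 0xf7f) (.g 11 0 6 9 17 false true), .t 2 (nat_lit 0xf80) (.g 9 0 6 11 17 true true), .t 1 (nat_lit 0) (.g 9 6 0 11 18 false true), .t 2 (nat_lit 0xf81) (.g 11 0 6 9 18 false true), .t 2 (nat_lit 0xf82) (.g 9 0 6 11 18 true true), .t 3 (nat_lit 0xf830f78) (.a 6 9 12 13 true), .t 2 (nat_lit 0xf84) (.g 0 11 6 12 13 true true), .t 3 (nat_lit 0xf850f78) (.g 0 11 9 12 13 true true), .t 2 (nat_lit 0xf7a) (.g 14 6 0 9 12 true false), .t 3 (nat_lit 0xf860f7a) (.g 0 11 9 12 14 true true), .t 3 (nat_lit 0xf870f7a) (.g 0 11 9 12 14 true true), .t 3 (nat_lit 0xf880f7c) (.g 0 11 9 12 15 true true), .t 3 (nat_lit 0xf890f7e) (.a 6 9 12 16 true), .t 3 (nat_lit 0xf8a0f7e) (.g 0 11 9 12 16 true true), .t 3 (nat_lit 0xf8b0f7e) (.g 0 11 9 12 16 true true), .t 3 (nat_lit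 0xf8c0f76) (.g 9 0 6 12 17 true false), .t 3 (nat_lit 0xf8d0f80) (.a 6 9 12 17 true), .t 3 (nat_lit 0xf8e0f80) (.g 0 11 9 12 17 true true), .t 2 (nat_lit 0xf82) (.g 6 9 0 12 18 true true), .t 3 (nat_lit 0xf8f0f76) (.g 9 0 6 12 18 true false), .t 2 (nat_lit 0xf82) (.g 18 6 0 9 12 true false), .t 3 (nat_lit 0xf900f82) (.g 0 11 9 12 18 true true), .t 3 (nat_lit 0xf910f7a) (.a 6 9 13 14 true), .t 3 (nat_lit 0xf920f7a) (.a 6 9 13 14 false), .t 2 (nat_lit 0xf7a) (.g 14 6 0 9 13 true false), .t 2 (nat_lit 0xf7a) (.g 14 9 0 6 13 true false), .t 2 (nat_lit 0xf93) (.g 0 11 6 13 14 true true), .t 2 (nat_lit 0xf94) (.g 0 11 6 13 14 true true)] (by decide +kernel) (by decide +kernel)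
theorem b217 : B 13888 13952 := Blk.of_chk [.t 3 (nat_lit 0xf950f7a) (.g 0 11 9 13 14 true true), .t 3 (nat_lit 0xf960f7a) (.g 0 11 9 13 14 true true), .t 3 (nat_lit 0xf970f7c) (.a 6 9 13 15 true), .t 2 (nat_lit 0xf7c) (.g 15 6 0 9 13 true false), .t 2 (nat_lit 0xf98) (.g 0 11 6 13 15 true true), .t 3 (nat_lit 0xf990f7c) (.g 0 11 9 13 15 true true), .t 3 (nat_lit 0xf9a0f7c) (.g 0 11 9 13 15 true true), .t 2 (nat_lit 0xf7e) (.g 6 9 0 13 16 true true), .t 3 (nat_lit 0xf9b0f7e) (.a 6 9 13 16 true), .t 2 (nat_lit 0xf7e) (.g 16 6 0 9 13 true false), .t 2 (nat_lit 0xf9c) (.g 0 11 6 13 16 true true), .t 3 (nat_lit 0xf9d0f7e) (.g 0 11 9 13 16 true true), .t 3 (nat_lit 0xf9e0f7e) (.g 0 11 9 13 16 true true), .t 2 (nat_lit 0xf80) (.g 6 9 0 13 17 true true), .t 2 (nat_lit 0xf78) (.g 9 6 0 13 17 false true), .t 3 (nat_lit 0xf9f0f78) (.g 9 0 6 13 17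 true false), .t 3 (nat_lit 0xfa00f80) (.a 6 9 13 17 true), .t 2 (nat_lit 0xf80) (.g 17 6 0 9 13 true false), .t 2 (nat_lit 0xfa1) (.g 0 11 6 13 17 true true), .t 3 (nat_lit 0xfa20f80) (.g 0 11 9 13 17 true true), .t 2 (nat_lit 0xf82) (.g 6 9 0 13 18 true true), .t 2 (nat_lit 0xf78) (.g 9 6 0 13 18 false true), .t 3 (nat_lit 0xfa30f82) (.a 6 9 13 18 true), .t 2 (nat_lit 0xf82) (.g 18 6 0 9 13 true false), .t 3 (nat_lit 0xfa40f82) (.g 0 11 9 13 18 true true), .t 3 (nat_lit 0xfa50f82) (.g 0 11 9 13 18 true true), .t 2 (nat_lit 0xfa6) (.g 0 11 6 14 15 true true), .t 2 (nat_lit 0xfa7) (.g 0 11 6 14 15 true true), .t 3 (nat_lit 0xfa80f7c) (.g 0 11 9 14 15 true true), .t 3 (nat_lit 0xfa90f7c) (.g 0 11 9 14 15 true true), .t 2 (nat_lit 0xf7a) (.g 9 6 0 14 16 false true), .t 3 (nat_lit 0xfaa0f7e) (.a 6 9 14 16 true), .t 2 (nat_lit 0xf7e) (.g 16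 6 0 9 14 true false), .t 2 (nat_lit 0xfab) (.g 0 11 6 14 16 true true), .t 3 (nat_lit 0xfac0f7e) (.g 0 11 9 14 16 true true), .t 3 (nat_lit 0xfad0f7e) (.g 0 11 9 14 16 true true), .t 2 (nat_lit 0xf7a) (.g 9 6 0 14 17 false true), .t 2 (nat_lit 0xf80) (.g 17 6 0 9 14 true false), .t 3 (nat_lit 0xfae0f80) (.g 0 11 9 14 17 true true), .t 2 (nat_lit 0xf7a) (.g 9 6 0 14 18 false true), .t 2 (nat_lit 0xf82) (.g 18 6 0 9 14 true false), .t 2 (nat_lit 0xfaf) (.g 0 11 6 14 18 true true), .t 3 (nat_lit 0xfb00f82) (.g 0 11 9 14 18 true true), .t 3 (nat_lit 0xfb10f82) (.g 0 11 9 14 18 true true), .t 2 (nat_lit 0xf7e) (.g 6 9 0 15 16 true true), .t 2 (nat_lit 0xf7e) (.g 16 6 0 9 15 true false), .t 3 (nat_lit 0xfb20f7e) (.g 0 11 9 15 16 true true), .t 3 (nat_lit 0xfb30f7e) (.g 0 11 9 15 16 true true), .t 1 (nat_lit 0) (.g 17 15 0 6 9 false true), .t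 3 (nat_lit 0xfb40f80) (.a 6 9 15 17 true), .t 2 (nat_lit 0xf80) (.g 17 6 0 9 15 true false), .t 3 (nat_lit 0xfb50f80) (.g 0 11 9 15 17 true true), .t 3 (nat_lit 0xfb60f82) (.a 6 9 15 18 true), .t 2 (nat_lit 0xf82) (.g 18 6 0 9 15 true false), .t 3 (nat_lit 0xfb70f82) (.g 0 11 9 15 18 true true), .t 3 (nat_lit 0xfb80f82) (.g 0 11 9 15 18 true true), .t 2 (nat_lit 0xf80) (.g 17 6 0 9 16 true false), .t 2 (nat_lit 0xfb9) (.g 0 11 6 16 17 true true), .t 3 (nat_lit 0xfba0f80) (.g 0 11 9 16 17 true true), .t 2 (nat_lit 0xf82) (.g 18 6 0 9 16 true false), .t 2 (nat_lit 0xfbb) (.g 0 11 6 16 18 true true), .t 3 (nat_lit 0xfbc0f82) (.g 0 11 9 16 18 true true), .t 2 (nat_lit 0xf80) (.g 9 0 6 17 18 true false), .t 2 (nat_lit 0xf82) (.g 18 6 0 9 17 true false)] (by decide +kernel) (by decide +kernel)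
theorem b218 : B 13952 14016 := Blk.of_chk [.t 3 (nat_lit 0xfbd0f82) (.g 0 11 9 17 18 true true), .t 3 (nat_lit 0xfbe0f82) (.g 0 11 9 17 18 true true), .t 1 (nat_lit 0) (.g 6 11 0 10 12 false false), .t 1 (nat_lit 0) (.g 11 0 6 10 13 false true), .t 1 (nat_lit 0) (.g 11 0 6 10 14 false false), .t 2 (nat_lit 0xfbf) (.g 10 0 6 11 14 true true), .t 2 (nat_lit 0xfc0) (.g 6 10 0 11 15 true true), .t 1 (nat_lit 0) (.g 11 0 6 10 15 false false), .t 2 (nat_lit 0xfc1) (.g 11 0 6 10 16 false true), .t 2 (nat_lit 0xfc2) (.g 11 0 6 10 18 false true), .t 2 (nat_lit 0xfc3) (.g 0 11 6 12 13 true true), .t 3 (nat_lit 0xfc50fc4) (.g 0 11 10 12 13 true true), .t 3 (nat_lit 0xfc60fbf) (.g 0 11 10 12 14 true true), .t 2 (nat_lit 0xfc7) (.g 0 11 6 12 17 true true), .t 2 (nat_lit 0xfc8) (.g 6 10 0 12 18 true true), .t 2 (nat_lit 0xfc8) (.g 18 6 0 10 12 true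 false), .t 2 (nat_lit 0xfbf) (.g 14 6 0 10 13 true false), .t 3 (nat_lit 0xfc90fbf) (.g 0 11 10 13 14 true true), .t 2 (nat_lit 0xfc0) (.g 6 10 0 13 15 true true), .t 3 (nat_lit 0xfca0fc0) (.a 6 10 13 15 false), .t 3 (nat_lit 0xfcc0fcb) (.a 6 10 13 16 false), .t 2 (nat_lit 0xfcb) (.g 16 10 0 6 13 true false), .t 3 (nat_lit 0xfcd0fcb) (.g 0 11 10 13 16 true true), .t 2 (nat_lit 0xfc8) (.g 18 6 0 10 13 true false), .t 3 (nat_lit 0xfcf0fce) (.g 0 11 10 14 17 true true), .t 3 (nat_lit 0xfd00fc8) (.a 6 10 14 18 true), .t 2 (nat_lit 0xfc8) (.g 18 6 0 10 14 true false), .t 3 (nat_lit 0xfd10fcb) (.g 0 11 10 15 16 true true), .t 3 (nat_lit 0xfd20fc8) (.g 0 11 10 15 18 true true), .t 2 (nat_lit 0xfd3) (.g 0 11 10 16 17 true true), .t 2 (nat_lit 0xfce) (.g 17 6 0 10 16 true false), .t 3 (nat_lit 0xfd30fce) (.g 0 11 10 16 17 true true), .t 3 (nat_lit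 0xfd40fc8) (.g 0 11 10 16 18 true true), .t 2 (nat_lit 0xfd5) (.g 0 11 10 17 18 true true), .t 2 (nat_lit 0xfc8) (.g 18 6 0 10 17 true false), .t 2 (nat_lit 0xfd6) (.g 0 11 6 17 18 true true), .t 1 (nat_lit 0) (.g 11 0 6 12 13 false false), .t 2 (nat_lit 0xfd7) (.g 12 6 0 11 13 true true), .t 2 (nat_lit 0xfd8) (.g 12 14 0 6 11 true false), .t 1 (nat_lit 0) (.g 14 11 0 6 12 false false), .t 1 (nat_lit 0) (.g 15 11 0 6 12 false false), .t 1 (nat_lit 0) (.g 16 11 0 6 12 false false), .t 2 (nat_lit 0xfd9) (.g 12 6 0 11 18 true true), .t 1 (nat_lit 0) (.g 18 11 0 6 12 false false), .t 1 (nat_lit 0) (.g 11 0 6 13 14 false false), .t 2 (nat_lit 0xfda) (.g 13 6 0 11 14 true true), .t 1 (nat_lit 0) (.g 14 13 0 6 11 false false), .t 1 (nat_lit 0) (.g 14 11 0 6 13 false false), .t 1 (nat_lit 0) (.st 6 11 13 14), .t 1 (nat_lit 0) (.g 11 0 6 13 15 false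 true), .t 2 (nat_lit 0xfdb) (.g 13 6 0 11 15 true true), .t 1 (nat_lit 0) (.g 15 11 0 6 13 false false), .t 2 (nat_lit 0xfdc) (.g 13 16 0 6 11 true false), .t 1 (nat_lit 0) (.g 16 13 0 6 11 false false), .t 1 (nat_lit 0) (.g 16 11 0 6 13 false false), .t 1 (nat_lit 0) (.g 11 0 6 13 17 false true), .t 1 (nat_lit 0) (.g 11 0 6 13 17 false false), .t 2 (nat_lit 0xfdd) (.g 13 6 0 11 17 true true), .t 1 (nat_lit 0) (.g 17 13 0 6 11 false false), .t 1 (nat_lit 0) (.g 17 11 0 6 13 false false), .t 1 (nat_lit 0) (.st 6 11 13 17), .t 1 (nat_lit 0) (.g 11 0 6 13 18 false false), .t 2 (nat_lit 0xfde) (.g 13 18 0 6 11 true false), .t 2 (nat_lit 0xfde) (.g 13 6 0 11 18 true true)] (by decide +kernel) (by decide +kernel)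
theorem b219 : B 14016 14080 := Blk.of_chk [.t 1 (nat_lit 0) (.g 18 13 0 6 11 false false), .t 1 (nat_lit 0) (.g 18 11 0 6 13 false false), .t 1 (nat_lit 0) (.g 11 0 6 14 15 false true), .t 1 (nat_lit 0) (.g 11 0 6 14 15 false false), .t 1 (nat_lit 0) (.g 11 0 6 14 16 false true), .t 1 (nat_lit 0) (.g 11 0 6 14 16 false false), .t 2 (nat_lit 0xfdf) (.g 14 6 0 11 16 true true), .t 1 (nat_lit 0) (.g 16 14 0 6 11 false false), .t 1 (nat_lit 0) (.g 11 0 6 14 17 false false), .t 2 (nat_lit 0xfe0) (.g 14 17 0 6 11 true false), .t 2 (nat_lit 0xfe0) (.g 14 6 0 11 17 true true), .t 1 (nat_lit 0) (.g 17 14 0 6 11 false false), .t 1 (nat_lit 0) (.g 11 0 6 14 18 false false), .t 2 (nat_lit 0xfe1) (.g 14 6 0 11 18 true true), .t 1 (nat_lit 0) (.g 18 14 0 6 11 false false), .t 1 (nat_lit 0) (.g 18 11 0 6 14 false false), .t 1 (nat_lit 0) (.g 11 0 6 15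 16 false false), .t 2 (nat_lit 0xfe2) (.g 15 6 0 11 16 true true), .t 1 (nat_lit 0) (.g 16 11 0 6 15 false false), .t 1 (nat_lit 0) (.g 11 0 6 15 17 false true), .t 1 (nat_lit 0) (.g 11 0 6 15 17 false false), .t 2 (nat_lit 0xfe3) (.g 15 17 0 6 11 true false), .t 2 (nat_lit 0xfe3) (.g 15 6 0 11 17 true true), .t 1 (nat_lit 0) (.g 17 15 0 6 11 false false), .t 1 (nat_lit 0) (.g 17 11 0 6 15 false false), .t 1 (nat_lit 0) (.g 11 0 6 15 18 false true), .t 1 (nat_lit 0) (.g 11 0 6 15 18 false false), .t 1 (nat_lit 0) (.g 18 11 0 6 15 false false), .t 1 (nat_lit 0) (.g 11 0 6 16 17 false true), .t 1 (nat_lit 0) (.g 11 0 6 16 17 false false), .t 2 (nat_lit 0xfe4) (.g 16 17 0 6 11 true false), .t 1 (nat_lit 0) (.g 17 16 0 6 11 false false), .t 1 (nat_lit 0) (.g 17 11 0 6 16 false false), .t 1 (nat_lit 0) (.g 11 0 6 16 18 false true), .t 1 (nat_lit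 0) (.g 11 0 6 16 18 false false), .t 2 (nat_lit 0xfe5) (.g 16 18 0 6 11 true false), .t 1 (nat_lit 0) (.g 18 16 0 6 11 false false), .t 1 (nat_lit 0) (.g 11 0 6 17 18 false true), .t 2 (nat_lit 0xfe6) (.g 17 18 0 6 11 true false), .t 2 (nat_lit 0xfe6) (.g 17 6 0 11 18 true true), .t 1 (nat_lit 0) (.g 18 17 0 6 11 false false), .t 1 (nat_lit 0) (.g 18 11 0 6 17 false false), .t 1 (nat_lit 0) (.st 6 11 17 18), .t 2 (nat_lit 0xfd8) (.g 12 0 6 13 14 false true), .t 2 (nat_lit 0xfda) (.g 13 14 0 6 12 true false), .t 2 (nat_lit 0xfdb) (.g 13 6 0 12 15 true true), .t 2 (nat_lit 0xfe7) (.g 12 0 6 13 16 false true), .t 1 (nat_lit 0) (.g 16 13 0 6 12 false false), .t 2 (nat_lit 0xfe8) (.g 12 0 6 13 17 false true), .t 2 (nat_lit 0xfdd) (.g 13 17 0 6 12 true false), .t 1 (nat_lit 0) (.g 17 13 0 6 12 false false), .t 2 (nat_lit 0xfde) (.g 13 18 0 6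 12 true false), .t 2 (nat_lit 0xfe9) (.g 12 0 6 14 15 false true), .t 2 (nat_lit 0xfea) (.g 14 6 0 12 15 true true), .t 1 (nat_lit 0) (.g 15 14 0 6 12 false false), .t 1 (nat_lit 0) (.g 15 12 0 6 14 false false), .t 2 (nat_lit 0xfe7) (.g 12 0 6 14 16 false true), .t 1 (nat_lit 0) (.g 16 12 0 6 14 false false), .t 1 (nat_lit 0) (.g 14 17 0 6 12 true false), .t 2 (nat_lit 0xfe8) (.g 12 0 6 14 17 false true), .t 2 (nat_lit 0xfe0) (.g 14 17 0 6 12 true false), .t 2 (nat_lit 0xfe0) (.g 14 6 0 12 17 true true), .t 1 (nat_lit 0) (.g 17 14 0 6 12 false false), .t 2 (nat_lit 0xfd8) (.g 12 0 6 14 18 false true)] (by decide +kernel) (by decide +kernel)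
theorem b220 : B 14080 14144 := Blk.of_chk [.t 2 (nat_lit 0xfd9) (.g 12 0 6 14 18 false true), .t 2 (nat_lit 0xfd9) (.g 12 0 6 14 18 false false), .t 2 (nat_lit 0xfe1) (.g 14 6 0 12 18 true true), .t 1 (nat_lit 0) (.g 18 14 0 6 12 false false), .t 2 (nat_lit 0xfe7) (.g 12 0 6 15 16 false true), .t 1 (nat_lit 0) (.g 16 15 0 6 12 false false), .t 1 (nat_lit 0) (.g 16 12 0 6 15 false false), .t 2 (nat_lit 0xfe8) (.g 12 0 6 15 17 false true), .t 2 (nat_lit 0xfe3) (.g 15 17 0 6 12 true false), .t 1 (nat_lit 0) (.st 6 12 17 15), .t 2 (nat_lit 0xfd9) (.g 12 0 6 15 18 false true), .t 2 (nat_lit 0xfd9) (.g 12 0 6 15 18 false false), .t 2 (nat_lit 0xfe8) (.g 12 0 6 16 17 false true), .t 2 (nat_lit 0xfe4) (.g 16 17 0 6 12 true false), .t 1 (nat_lit 0) (.g 17 16 0 6 12 false false), .t 1 (nat_lit 0) (.g 17 12 0 6 16 false false), .t 1 (nat_lit 0) (.st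 6 12 16 17), .t 2 (nat_lit 0xfd9) (.g 12 0 6 16 18 false true), .t 2 (nat_lit 0xfd9) (.g 12 0 6 16 18 false false), .t 2 (nat_lit 0xfe5) (.g 16 18 0 6 12 true false), .t 1 (nat_lit 0) (.g 18 16 0 6 12 false false), .t 1 (nat_lit 0) (.g 18 12 0 6 16 false false), .t 1 (nat_lit 0) (.st 6 12 16 18), .t 2 (nat_lit 0xfe6) (.g 17 18 0 6 12 true false), .t 1 (nat_lit 0) (.g 18 17 0 6 12 false false), .t 1 (nat_lit 0) (.st 6 12 17 18), .t 1 (nat_lit 0) (.st 6 12 18 17), .t 2 (nat_lit 0xfda) (.g 13 0 6 14 15 false true), .t 2 (nat_lit 0xfdb) (.g 13 0 6 14 15 false true), .t 2 (nat_lit 0xfdb) (.g 13 0 6 14 15 false false), .t 2 (nat_lit 0xfea) (.g 14 15 0 6 13 true false), .t 2 (nat_lit 0xfea) (.g 14 6 0 13 15 true true), .t 2 (nat_lit 0xfda) (.g 13 0 6 14 16 false true), .t 2 (nat_lit 0xfdc) (.g 13 0 6 14 16 false true), .t 2 (nat_lit 0xfdc) (.g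 13 0 6 14 16 false false), .t 2 (nat_lit 0xfdf) (.g 14 6 0 13 16 true true), .t 1 (nat_lit 0) (.g 16 14 0 6 13 false false), .t 2 (nat_lit 0xfda) (.g 13 0 6 14 17 false true), .t 2 (nat_lit 0xfdd) (.g 13 0 6 14 17 false true), .t 2 (nat_lit 0xfdd) (.g 13 0 6 14 17 false false), .t 2 (nat_lit 0xfe0) (.g 14 17 0 6 13 true false), .t 2 (nat_lit 0xfe0) (.g 14 6 0 13 17 true true), .t 1 (nat_lit 0) (.g 17 14 0 6 13 false false), .t 1 (nat_lit 0) (.st 6 13 14 17), .t 2 (nat_lit 0xfda) (.g 13 0 6 14 18 false true), .t 2 (nat_lit 0xfde) (.g 13 0 6 14 18 false true), .t 2 (nat_lit 0xfde) (.g 13 0 6 14 18 false false), .t 2 (nat_lit 0xfe1) (.g 14 18 0 6 13 true false), .t 2 (nat_lit 0xfe1) (.g 14 6 0 13 18 true true), .t 1 (nat_lit 0) (.g 18 14 0 6 13 false false), .t 2 (nat_lit 0xfdc) (.g 13 0 6 15 16 false true), .t 1 (nat_lit 0) (.g 16 15 0 6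 13 false false), .t 1 (nat_lit 0) (.g 16 13 0 6 15 false false), .t 1 (nat_lit 0) (.st 6 13 16 15), .t 2 (nat_lit 0xfdd) (.g 13 0 6 15 17 false true), .t 2 (nat_lit 0xfdd) (.g 13 0 6 15 17 false false), .t 2 (nat_lit 0xfe3) (.g 15 17 0 6 13 true false), .t 2 (nat_lit 0xfe3) (.g 15 6 0 13 17 true true), .t 1 (nat_lit 0) (.g 17 15 0 6 13 false false), .t 1 (nat_lit 0) (.g 17 13 0 6 15 false false), .t 2 (nat_lit 0xfde) (.g 13 0 6 15 18 false true), .t 2 (nat_lit 0xfde) (.g 13 0 6 15 18 false false), .t 1 (nat_lit 0) (.g 18 15 0 6 13 false false), .t 1 (nat_lit 0) (.g 18 13 0 6 15 false false)] (by decide +kernel) (by decide +kernel)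
theorem b221 : B 14144 14208 := Blk.of_chk [.t 2 (nat_lit 0xfdd) (.g 13 0 6 16 17 false true), .t 2 (nat_lit 0xfdd) (.g 13 0 6 16 17 false false), .t 2 (nat_lit 0xfe4) (.g 16 17 0 6 13 true false), .t 2 (nat_lit 0xfe4) (.g 16 6 0 13 17 true true), .t 1 (nat_lit 0) (.g 17 16 0 6 13 false false), .t 1 (nat_lit 0) (.g 17 13 0 6 16 false false), .t 2 (nat_lit 0xfde) (.g 13 0 6 16 18 false false), .t 2 (nat_lit 0xfe5) (.g 16 18 0 6 13 true false), .t 1 (nat_lit 0) (.g 18 16 0 6 13 false false), .t 1 (nat_lit 0) (.g 18 13 0 6 16 false false), .t 2 (nat_lit 0xfde) (.g 13 0 6 17 18 false true), .t 2 (nat_lit 0xfde) (.g 13 0 6 17 18 false false), .t 2 (nat_lit 0xfe6) (.g 17 18 0 6 13 true false), .t 2 (nat_lit 0xfe6) (.g 17 6 0 13 18 true true), .t 1 (nat_lit 0) (.g 18 17 0 6 13 false false), .t 1 (nat_lit 0) (.st 6 13 17 18), .t 1 (nat_lit 0) (.g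 16 14 0 6 15 false false), .t 2 (nat_lit 0xfe0) (.g 14 0 6 15 17 false true), .t 2 (nat_lit 0xfe3) (.g 15 17 0 6 14 true false), .t 1 (nat_lit 0) (.g 17 15 0 6 14 false false), .t 1 (nat_lit 0) (.g 17 14 0 6 15 false false), .t 1 (nat_lit 0) (.st 6 14 17 15), .t 2 (nat_lit 0xfeb) (.g 15 18 0 6 14 true false), .t 1 (nat_lit 0) (.g 18 14 0 6 15 false false), .t 2 (nat_lit 0xfe4) (.g 16 17 0 6 14 true false), .t 2 (nat_lit 0xfe4) (.g 16 6 0 14 17 true true), .t 1 (nat_lit 0) (.g 17 16 0 6 14 false false), .t 1 (nat_lit 0) (.g 17 14 0 6 16 false false), .t 2 (nat_lit 0xfe1) (.g 14 0 6 16 18 false false), .t 2 (nat_lit 0xfe5) (.g 16 18 0 6 14 true false), .t 1 (nat_lit 0) (.g 18 16 0 6 14 false false), .t 1 (nat_lit 0) (.g 18 14 0 6 16 false false), .t 1 (nat_lit 0) (.st 6 14 16 18), .t 2 (nat_lit 0xfe6) (.g 17 18 0 6 14 true false), .t 1 (nat_lit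 0) (.g 18 17 0 6 14 false false), .t 1 (nat_lit 0) (.g 18 14 0 6 17 false false), .t 1 (nat_lit 0) (.st 6 14 17 18), .t 2 (nat_lit 0xfe4) (.g 16 17 0 6 15 true false), .t 2 (nat_lit 0xfe4) (.g 16 6 0 15 17 true true), .t 1 (nat_lit 0) (.g 17 16 0 6 15 false false), .t 1 (nat_lit 0) (.g 17 15 0 6 16 false false), .t 2 (nat_lit 0xfeb) (.g 15 0 6 16 18 false false), .t 1 (nat_lit 0) (.g 18 16 0 6 15 false false), .t 1 (nat_lit 0) (.g 18 15 0 6 16 false false), .t 2 (nat_lit 0xfeb) (.g 15 0 6 17 18 false false), .t 2 (nat_lit 0xfe6) (.g 17 18 0 6 15 true false), .t 2 (nat_lit 0xfe6) (.g 17 6 0 15 18 true true), .t 1 (nat_lit 0) (.g 18 17 0 6 15 false false), .t 1 (nat_lit 0) (.st 6 15 17 18), .t 1 (nat_lit 0) (.st 6 15 18 17), .t 2 (nat_lit 0xfe5) (.g 16 0 6 17 18 false false), .t 2 (nat_lit 0xfe6) (.g 17 18 0 6 16 true false), .t 1 (nat_lit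 0) (.g 18 16 0 6 17 false false), .t 1 (nat_lit 0) (.st 6 16 17 18), .t 1 (nat_lit 0) (.st 6 16 18 17), .t 1 (nat_lit 0) (.g 7 8 0 9 11 true false), .t 1 (nat_lit 0) (.g 8 7 0 9 11 false false), .t 1 (nat_lit 0) (.g 9 0 7 8 11 true true), .t 1 (nat_lit 0) (.g 7 8 0 9 12 true false), .t 2 (nat_lit 0xfec) (.g 0 11 7 8 12 true true), .t 1 (nat_lit 0) (.g 7 8 0 9 13 true false), .t 1 (nat_lit 0) (.g 7 8 0 9 14 true false), .t 2 (nat_lit 0xfed) (.g 0 11 7 8 14 true true), .t 2 (nat_lit 0xfee) (.g 0 11 7 9 15 true true)] (by decide +kernel) (by decide +kernel)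
theorem b222 : B 14208 14272 := Blk.of_chk [.t 1 (nat_lit 0) (.g 7 8 0 9 15 true false), .t 2 (nat_lit 0xfef) (.g 0 11 7 9 16 true true), .t 1 (nat_lit 0) (.g 7 8 0 9 16 true false), .t 2 (nat_lit 0xff0) (.g 0 11 7 9 17 true true), .t 2 (nat_lit 0xff1) (.g 0 11 7 8 17 true true), .t 2 (nat_lit 0xff2) (.g 0 11 7 9 18 true true), .t 1 (nat_lit 0) (.g 9 8 0 7 18 false true), .t 2 (nat_lit 0xff3) (.g 0 11 7 8 18 true true), .t 1 (nat_lit 0) (.g 7 10 0 8 11 true false), .t 1 (nat_lit 0) (.g 7 10 0 8 12 true false), .t 2 (nat_lit 0xff4) (.g 0 11 7 8 12 true true), .t 1 (nat_lit 0) (.g 7 10 0 8 13 true false), .t 2 (nat_lit 0xff5) (.g 0 11 7 8 13 true true), .t 2 (nat_lit 0xff6) (.g 0 11 7 10 13 true true), .t 2 (nat_lit 0xff7) (.g 7 0 8 10 14 false false), .t 1 (nat_lit 0) (.g 7 0 8 10 14 false false), .t 1 (nat_lit 0) (.g 7 10 0 8 14 true false),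 .t 2 (nat_lit 0xff8) (.g 0 11 7 8 14 true true), .t 2 (nat_lit 0xff9) (.g 0 11 7 10 14 true true), .t 2 (nat_lit 0xffa) (.g 7 0 8 10 15 false false), .t 1 (nat_lit 0) (.g 8 15 0 7 10 true true), .t 1 (nat_lit 0) (.g 8 15 0 7 10 false true), .t 2 (nat_lit 0xffb) (.g 0 11 7 8 15 true true), .t 2 (nat_lit 0xffc) (.g 0 11 7 10 16 true true), .t 2 (nat_lit 0xffd) (.g 7 0 8 10 16 false false), .t 1 (nat_lit 0) (.g 7 0 8 10 16 false false), .t 1 (nat_lit 0) (.g 8 16 0 7 10 false true), .t 1 (nat_lit 0) (.g 7 10 0 8 16 true false), .t 2 (nat_lit 0xffe) (.g 0 11 7 8 16 true true), .t 2 (nat_lit 0xfff) (.g 7 0 8 10 17 false false), .t 1 (nat_lit 0) (.g 8 17 0 7 10 true true), .t 1 (nat_lit 0) (.g 8 17 0 7 10 false true), .t 2 (nat_lit 0x1000) (.g 8 17 0 7 10 false true), .t 1 (nat_lit 0) (.g 7 10 0 8 17 true false), .t 2 (nat_lit 0x1001) (.g 0 11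 7 8 17 true true), .t 2 (nat_lit 0x1002) (.g 0 11 7 10 18 true true), .t 2 (nat_lit 0x1003) (.g 7 0 8 10 18 false false), .t 1 (nat_lit 0) (.g 7 0 8 10 18 false false), .t 1 (nat_lit 0) (.g 8 18 0 7 10 false true), .t 2 (nat_lit 0x1002) (.g 8 18 0 7 10 false true), .t 1 (nat_lit 0) (.a 7 8 10 18 false), .t 1 (nat_lit 0) (.g 7 10 0 8 18 true false), .t 2 (nat_lit 0x1004) (.g 0 11 7 8 18 true true), .t 1 (nat_lit 0) (.g 11 0 7 8 12 false true), .t 1 (nat_lit 0) (.g 7 11 0 8 12 false false), .t 2 (nat_lit 0x1005) (.g 8 0 7 11 12 true false), .t 1 (nat_lit 0) (.g 11 0 7 8 13 false false), .t 2 (nat_lit 0x1006) (.g 11 0 7 8 13 false false), .t 2 (nat_lit 0x1007) (.g 8 0 7 11 13 true false), .t 1 (nat_lit 0) (.g 11 0 7 8 14 false false), .t 2 (nat_lit 0x1008) (.g 11 0 7 8 14 false true), .t 1 (nat_lit 0) (.g 11 0 7 8 15 false true), .t 1 (nat_lit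 0) (.g 8 7 0 11 16 false true), .t 2 (nat_lit 0x1009) (.g 11 0 7 8 16 false true), .t 2 (nat_lit 0x100a) (.g 8 0 7 11 16 true true), .t 1 (nat_lit 0) (.g 8 7 0 11 17 false true), .t 2 (nat_lit 0x100b) (.g 8 0 7 11 17 true true), .t 2 (nat_lit 0x100c) (.g 7 8 0 11 18 true true), .t 1 (nat_lit 0) (.g 8 7 0 11 18 false true), .t 2 (nat_lit 0x100d) (.g 0 11 7 12 13 true true), .t 3 (nat_lit 0x100f100e) (.a 7 8 12 15 true), .t 2 (nat_lit 0x100e) (.g 15 7 0 8 12 true false), .t 2 (nat_lit 0x100a) (.g 7 8 0 12 16 true true), .t 3 (nat_lit 0x1010100a) (.a 7 8 12 16 true)] (by decide +kernel) (by decide +kernel)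
theorem b223 : B 14272 14336 := Blk.of_chk [.t 3 (nat_lit 0x1011100a) (.g 0 11 8 12 16 true true), .t 2 (nat_lit 0x100b) (.g 7 8 0 12 17 true true), .t 2 (nat_lit 0x1005) (.g 8 7 0 12 17 false true), .t 3 (nat_lit 0x1012100b) (.g 0 11 8 12 17 true true), .t 2 (nat_lit 0x100c) (.g 7 8 0 12 18 true true), .t 2 (nat_lit 0x1013) (.g 14 7 0 8 13 true false), .t 2 (nat_lit 0x100e) (.g 7 8 0 13 15 true true), .t 2 (nat_lit 0x1007) (.g 8 7 0 13 15 false true), .t 2 (nat_lit 0x100a) (.g 7 8 0 13 16 true true), .t 2 (nat_lit 0x1007) (.g 8 7 0 13 16 false true), .t 2 (nat_lit 0x100b) (.g 7 8 0 13 17 true true), .t 2 (nat_lit 0x100b) (.g 17 7 0 8 13 true false), .t 2 (nat_lit 0x1007) (.g 8 7 0 13 18 false true), .t 2 (nat_lit 0x100c) (.g 18 7 0 8 13 true false), .t 2 (nat_lit 0x100e) (.g 7 8 0 14 15 true true), .t 3 (nat_lit 0x10141013) (.g 8 0 7 14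 15 true false), .t 2 (nat_lit 0x1013) (.g 8 0 7 14 15 true false), .t 3 (nat_lit 0x1015100e) (.a 7 8 14 15 true), .t 2 (nat_lit 0x1016) (.g 0 11 7 14 15 true true), .t 2 (nat_lit 0x100a) (.g 7 8 0 14 16 true true), .t 3 (nat_lit 0x10171013) (.g 8 0 7 14 16 true false), .t 3 (nat_lit 0x1018100a) (.a 7 8 14 16 true), .t 3 (nat_lit 0x1019100a) (.g 0 11 8 14 16 true true), .t 2 (nat_lit 0x100b) (.g 7 8 0 14 17 true true), .t 3 (nat_lit 0x101a1013) (.g 8 0 7 14 17 true false), .t 1 (nat_lit 0) (.g 7 8 0 14 17 true true), .t 3 (nat_lit 0x101b100b) (.g 0 11 8 14 17 true true), .t 2 (nat_lit 0x1013) (.g 8 7 0 14 18 false true), .t 3 (nat_lit 0x101c1013) (.g 8 0 7 14 18 true false), .t 2 (nat_lit 0x100c) (.g 18 7 0 8 14 true false), .t 2 (nat_lit 0x101d) (.g 0 11 7 14 18 true true), .t 2 (nat_lit 0x100c) (.g 7 8 0 15 18 true true), .t 3 (nat_lit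 0x101e100c) (.g 0 11 8 15 18 true true), .t 2 (nat_lit 0x101f) (.g 0 11 7 16 17 true true), .t 3 (nat_lit 0x1020100c) (.g 0 11 8 16 18 true true), .t 2 (nat_lit 0x100c) (.g 18 7 0 8 17 true false), .t 3 (nat_lit 0x1021100c) (.g 0 11 8 17 18 true true), .t 1 (nat_lit 0) (.g 7 10 0 9 11 true false), .t 1 (nat_lit 0) (.g 9 11 0 7 10 false true), .t 1 (nat_lit 0) (.g 10 0 7 9 11 true false), .t 1 (nat_lit 0) (.g 7 10 0 9 12 true false), .t 2 (nat_lit 0x1022) (.g 0 11 7 9 12 true true), .t 2 (nat_lit 0x1023) (.g 0 11 7 10 12 true true), .t 1 (nat_lit 0) (.g 7 10 0 9 13 true false), .t 2 (nat_lit 0x1024) (.g 0 11 7 9 13 true true), .t 2 (nat_lit 0x1025) (.g 0 11 7 10 13 true true), .t 1 (nat_lit 0) (.g 7 10 0 9 14 true false), .t 2 (nat_lit 0x1026) (.g 0 11 7 9 14 true true), .t 2 (nat_lit 0x1027) (.g 0 11 7 10 14 true true), .t 2 (nat_lit 0x1028)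 (.g 7 0 9 10 15 false false), .t 1 (nat_lit 0) (.a 7 9 10 15 false), .t 1 (nat_lit 0) (.g 7 10 0 9 15 true false), .t 2 (nat_lit 0x1029) (.g 0 11 7 9 15 true true), .t 2 (nat_lit 0x102a) (.g 0 11 7 10 16 true true), .t 2 (nat_lit 0x102b) (.g 7 0 9 10 16 false false), .t 1 (nat_lit 0) (.g 9 16 0 7 10 false true), .t 2 (nat_lit 0x102c) (.g 0 11 7 9 16 true true), .t 2 (nat_lit 0x102d) (.g 7 0 9 10 17 false false), .t 1 (nat_lit 0) (.g 9 17 0 7 10 true true), .t 1 (nat_lit 0) (.g 7 10 0 9 17 true false), .t 2 (nat_lit 0x102e) (.g 0 11 7 9 17 true true), .t 2 (nat_lit 0x102f) (.g 0 11 7 10 17 true true), .t 2 (nat_lit 0x1030) (.g 0 11 7 10 18 true true), .t 2 (nat_lit 0x1031) (.g 0 11 9 10 18 true true)] (by decide +kernel) (by decide +kernel)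
theorem b224 : B 14336 14400 := Blk.of_chk [.t 1 (nat_lit 0) (.g 10 7 0 9 18 false true), .t 2 (nat_lit 0x1032) (.g 7 0 9 10 18 false false), .t 1 (nat_lit 0) (.g 9 18 0 7 10 true true), .t 1 (nat_lit 0) (.g 7 10 0 9 18 true false), .t 1 (nat_lit 0) (.g 7 10 0 9 18 true false), .t 2 (nat_lit 0x1033) (.g 0 11 7 9 18 true true), .t 2 (nat_lit 0x1034) (.g 11 0 7 9 12 false true), .t 1 (nat_lit 0) (.g 7 11 0 9 12 false false), .t 2 (nat_lit 0x1035) (.g 9 0 7 11 12 true true), .t 2 (nat_lit 0x1035) (.g 9 0 7 11 12 true false), .t 1 (nat_lit 0) (.g 11 0 7 9 13 false false), .t 2 (nat_lit 0x1036) (.g 11 0 7 9 13 false true), .t 2 (nat_lit 0x1037) (.g 11 0 7 9 13 false false), .t 2 (nat_lit 0x1038) (.g 9 0 7 11 13 true true), .t 1 (nat_lit 0) (.g 11 0 7 9 14 false true), .t 1 (nat_lit 0) (.g 11 0 7 9 14 false false), .t 2 (nat_lit 0x1039) (.g 11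 0 7 9 14 false true), .t 2 (nat_lit 0x103a) (.g 11 0 7 9 14 false false), .t 2 (nat_lit 0x103b) (.g 9 0 7 11 14 true true), .t 2 (nat_lit 0x103b) (.g 9 0 7 11 14 true false), .t 2 (nat_lit 0x103c) (.g 7 9 0 11 15 true true), .t 1 (nat_lit 0) (.g 11 0 7 9 15 false true), .t 1 (nat_lit 0) (.g 11 0 7 9 15 false false), .t 2 (nat_lit 0x103d) (.g 11 0 7 9 15 false true), .t 2 (nat_lit 0x103c) (.g 9 0 7 11 15 true true), .t 2 (nat_lit 0x103e) (.g 7 9 0 11 16 true true), .t 1 (nat_lit 0) (.g 9 7 0 11 16 false true), .t 1 (nat_lit 0) (.g 11 0 7 9 16 false true), .t 2 (nat_lit 0x103f) (.g 11 0 7 9 16 false true), .t 2 (nat_lit 0x103e) (.g 9 0 7 11 16 true true), .t 2 (nat_lit 0x103e) (.g 9 0 7 11 16 true false), .t 2 (nat_lit 0x1040) (.g 7 9 0 11 17 true true), .t 1 (nat_lit 0) (.g 9 7 0 11 17 false true), .t 2 (nat_lit 0x1041) (.g 11 0 7 9 17 false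 true), .t 2 (nat_lit 0x1040) (.g 9 0 7 11 17 true true), .t 2 (nat_lit 0x1042) (.g 7 9 0 11 18 true true), .t 1 (nat_lit 0) (.g 9 7 0 11 18 false true), .t 2 (nat_lit 0x1043) (.g 11 0 7 9 18 false true), .t 2 (nat_lit 0x1042) (.g 9 0 7 11 18 true true), .t 2 (nat_lit 0x1044) (.g 0 11 7 12 13 true true), .t 3 (nat_lit 0x10451038) (.g 0 11 9 12 13 true true), .t 2 (nat_lit 0x103b) (.g 14 7 0 9 12 true false), .t 3 (nat_lit 0x1046103b) (.g 0 11 9 12 14 true true), .t 3 (nat_lit 0x1047103b) (.g 0 11 9 12 14 true true), .t 2 (nat_lit 0x103c) (.g 7 9 0 12 15 true true), .t 3 (nat_lit 0x1048103c) (.a 7 9 12 15 true), .t 3 (nat_lit 0x1049103c) (.g 0 11 9 12 15 true true), .t 2 (nat_lit 0x103e) (.g 7 9 0 12 16 true true), .t 3 (nat_lit 0x104a103e) (.a 7 9 12 16 true), .t 3 (nat_lit 0x104b103e) (.g 0 11 9 12 16 true true), .t 3 (nat_lit 0x104c103e)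 (.g 0 11 9 12 16 true true), .t 2 (nat_lit 0x1040) (.g 7 9 0 12 17 true true), .t 2 (nat_lit 0x1035) (.g 9 7 0 12 17 false true), .t 2 (nat_lit 0x1040) (.g 17 7 0 9 12 true false), .t 3 (nat_lit 0x104d1040) (.g 0 11 9 12 17 true true), .t 2 (nat_lit 0x1042) (.g 7 9 0 12 18 true true), .t 2 (nat_lit 0x1035) (.g 9 7 0 12 18 false true), .t 2 (nat_lit 0x1042) (.g 18 7 0 9 12 true false), .t 3 (nat_lit 0x104e1042) (.g 0 11 9 12 18 true true), .t 3 (nat_lit 0x104f103b) (.a 7 9 13 14 true), .t 3 (nat_lit 0x1050103b) (.a 7 9 13 14 false), .t 2 (nat_lit 0x103b) (.g 14 7 0 9 13 true false), .t 2 (nat_lit 0x103b) (.g 14 9 0 7 13 true false), .t 2 (nat_lit 0x1051) (.g 0 11 7 13 14 true true)] (by decide +kernel) (by decide +kernel)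
theorem b225 : B 14400 14464 := Blk.of_chk [.t 2 (nat_lit 0x1052) (.g 0 11 7 13 14 true true), .t 3 (nat_lit 0x1053103b) (.g 0 11 9 13 14 true true), .t 3 (nat_lit 0x1054103b) (.g 0 11 9 13 14 true true), .t 2 (nat_lit 0x103c) (.g 7 9 0 13 15 true true), .t 3 (nat_lit 0x1055103c) (.a 7 9 13 15 true), .t 2 (nat_lit 0x103c) (.g 15 7 0 9 13 true false), .t 3 (nat_lit 0x1056103c) (.g 0 11 9 13 15 true true), .t 3 (nat_lit 0x1057103c) (.g 0 11 9 13 15 true true), .t 2 (nat_lit 0x1038) (.g 9 7 0 13 16 false true), .t 3 (nat_lit 0x1058103e) (.a 7 9 13 16 true), .t 2 (nat_lit 0x103e) (.g 16 7 0 9 13 true false), .t 2 (nat_lit 0x1059) (.g 0 11 7 13 16 true true), .t 3 (nat_lit 0x105a103e) (.g 0 11 9 13 16 true true), .t 3 (nat_lit 0x105b103e) (.g 0 11 9 13 16 true true), .t 2 (nat_lit 0x1040) (.g 7 9 0 13 17 true true), .t 2 (nat_lit 0x1038) (.g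 9 7 0 13 17 false true), .t 3 (nat_lit 0x105c1040) (.a 7 9 13 17 true), .t 2 (nat_lit 0x1040) (.g 17 7 0 9 13 true false), .t 3 (nat_lit 0x105d1040) (.g 0 11 9 13 17 true true), .t 2 (nat_lit 0x1042) (.g 7 9 0 13 18 true true), .t 2 (nat_lit 0x1038) (.g 9 7 0 13 18 false true), .t 1 (nat_lit 0) (.g 7 9 0 13 18 true true), .t 3 (nat_lit 0x105e1042) (.a 7 9 13 18 true), .t 2 (nat_lit 0x1042) (.g 18 7 0 9 13 true false), .t 3 (nat_lit 0x105f1042) (.g 0 11 9 13 18 true true), .t 3 (nat_lit 0x10601042) (.g 0 11 9 13 18 true true), .t 2 (nat_lit 0x103c) (.g 7 9 0 14 15 true true), .t 3 (nat_lit 0x1061103c) (.a 7 9 14 15 true), .t 2 (nat_lit 0x1062) (.g 0 11 7 14 15 true true), .t 2 (nat_lit 0x1063) (.g 0 11 7 14 15 true true), .t 3 (nat_lit 0x1064103c) (.g 0 11 9 14 15 true true), .t 3 (nat_lit 0x1065103c) (.g 0 11 9 14 15 true true), .t 2 (nat_lit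 0x103e) (.g 7 9 0 14 16 true true), .t 3 (nat_lit 0x1066103e) (.a 7 9 14 16 true), .t 2 (nat_lit 0x103e) (.g 16 7 0 9 14 true false), .t 3 (nat_lit 0x1067103e) (.g 0 11 9 14 16 true true), .t 3 (nat_lit 0x1068103e) (.g 0 11 9 14 16 true true), .t 2 (nat_lit 0x103b) (.g 9 7 0 14 17 false true), .t 2 (nat_lit 0x1040) (.g 17 7 0 9 14 true false), .t 2 (nat_lit 0x1069) (.g 0 11 7 14 17 true true), .t 3 (nat_lit 0x106a1040) (.g 0 11 9 14 17 true true), .t 2 (nat_lit 0x1042) (.g 7 9 0 14 18 true true), .t 2 (nat_lit 0x103b) (.g 9 7 0 14 18 false true), .t 3 (nat_lit 0x106b1042) (.a 7 9 14 18 true), .t 2 (nat_lit 0x1042) (.g 18 7 0 9 14 true false), .t 2 (nat_lit 0x106c) (.g 0 11 7 14 18 true true), .t 3 (nat_lit 0x106d1042) (.g 0 11 9 14 18 true true), .t 3 (nat_lit 0x106e1042) (.g 0 11 9 14 18 true true), .t 2 (nat_lit 0x103c) (.g 15 0 7 9 16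 false true), .t 2 (nat_lit 0x103e) (.g 16 7 0 9 15 true false), .t 3 (nat_lit 0x106f103e) (.g 0 11 9 15 16 true true), .t 3 (nat_lit 0x1070103e) (.g 0 11 9 15 16 true true), .t 2 (nat_lit 0x1040) (.g 17 7 0 9 15 true false), .t 3 (nat_lit 0x10711040) (.g 0 11 9 15 17 true true), .t 2 (nat_lit 0x1042) (.g 7 9 0 15 18 true true), .t 2 (nat_lit 0x103c) (.g 9 0 7 15 18 true false), .t 3 (nat_lit 0x10721042) (.a 7 9 15 18 true), .t 2 (nat_lit 0x1042) (.g 18 7 0 9 15 true false), .t 3 (nat_lit 0x10731042) (.g 0 11 9 15 18 true true), .t 3 (nat_lit 0x10741042) (.g 0 11 9 15 18 true true), .t 2 (nat_lit 0x1040) (.g 17 7 0 9 16 true false), .t 3 (nat_lit 0x10751040) (.g 0 11 9 16 17 true true), .t 3 (nat_lit 0x1076103e) (.g 16 0 7 9 18 false true), .t 2 (nat_lit 0x1042) (.g 18 7 0 9 16 true false)] (by decide +kernel) (by decide +kernel)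
theorem b226 : B 14464 14528 := Blk.of_chk [.t 2 (nat_lit 0x1077) (.g 0 11 7 16 18 true true), .t 3 (nat_lit 0x10781042) (.g 0 11 9 16 18 true true), .t 3 (nat_lit 0x10791042) (.g 0 11 9 16 18 true true), .t 2 (nat_lit 0x107a) (.g 0 11 7 17 18 true true), .t 3 (nat_lit 0x107b1042) (.a 7 9 17 18 true), .t 3 (nat_lit 0x107c1042) (.a 7 9 17 18 false), .t 2 (nat_lit 0x1042) (.g 18 7 0 9 17 true false), .t 2 (nat_lit 0x107d) (.g 0 11 7 17 18 true true), .t 3 (nat_lit 0x107e1042) (.g 0 11 9 17 18 true true), .t 3 (nat_lit 0x107f1042) (.g 0 11 9 17 18 true true), .t 1 (nat_lit 0) (.g 7 11 0 10 12 false false), .t 1 (nat_lit 0) (.g 11 0 7 10 13 false true), .t 1 (nat_lit 0) (.g 7 11 0 10 13 false false), .t 1 (nat_lit 0) (.g 11 0 7 10 14 false false), .t 1 (nat_lit 0) (.g 7 11 0 10 14 false false), .t 1 (nat_lit 0) (.g 11 0 7 10 15 false true),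 .t 1 (nat_lit 0) (.g 11 0 7 10 15 false false), .t 2 (nat_lit 0x1080) (.g 11 0 7 10 16 false true), .t 2 (nat_lit 0x1081) (.g 7 10 0 11 17 true true), .t 2 (nat_lit 0x1082) (.g 7 10 0 11 18 true true), .t 2 (nat_lit 0x1083) (.g 11 0 7 10 18 false true), .t 2 (nat_lit 0x1084) (.g 0 11 7 12 13 true true), .t 3 (nat_lit 0x10861085) (.g 0 11 10 12 13 true true), .t 2 (nat_lit 0x1087) (.g 14 7 0 10 12 true false), .t 3 (nat_lit 0x10891088) (.a 7 10 12 15 true), .t 2 (nat_lit 0x1081) (.g 7 10 0 12 17 true true), .t 2 (nat_lit 0x108a) (.g 0 11 7 12 17 true true), .t 2 (nat_lit 0x1082) (.g 7 10 0 12 18 true true), .t 2 (nat_lit 0x1082) (.g 18 7 0 10 12 true false), .t 3 (nat_lit 0x108b1082) (.g 0 11 10 12 18 true true), .t 3 (nat_lit 0x108c1087) (.a 7 10 13 14 true), .t 3 (nat_lit 0x108d1087) (.a 7 10 13 14 false), .t 2 (nat_lit 0x1087) (.g 14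 7 0 10 13 true false), .t 2 (nat_lit 0x108e) (.g 0 11 7 13 14 true true), .t 3 (nat_lit 0x108f1087) (.g 0 11 10 13 14 true true), .t 3 (nat_lit 0x10901088) (.a 7 10 13 15 false), .t 3 (nat_lit 0x10921091) (.a 7 10 13 16 false), .t 2 (nat_lit 0x1091) (.g 16 10 0 7 13 true false), .t 3 (nat_lit 0x10931091) (.g 0 11 10 13 16 true true), .t 2 (nat_lit 0x1081) (.g 17 7 0 10 13 true false), .t 2 (nat_lit 0x1082) (.g 18 7 0 10 13 true false), .t 3 (nat_lit 0x10941088) (.a 7 10 14 15 true), .t 2 (nat_lit 0x1091) (.g 7 10 0 14 16 true true), .t 3 (nat_lit 0x10951081) (.g 0 11 10 14 17 true true), .t 2 (nat_lit 0x1082) (.g 7 10 0 14 18 true true), .t 2 (nat_lit 0x1087) (.g 10 7 0 14 18 false true), .t 3 (nat_lit 0x10961082) (.a 7 10 14 18 true), .t 3 (nat_lit 0x10971082) (.g 0 11 10 15 18 true true), .t 2 (nat_lit 0x1091) (.g 10 0 7 16 17 true false),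 .t 2 (nat_lit 0x1098) (.g 0 11 7 16 18 true true), .t 2 (nat_lit 0x1099) (.g 0 11 7 16 18 true true), .t 3 (nat_lit 0x109a1082) (.g 0 11 10 16 18 true true), .t 2 (nat_lit 0x109b) (.g 0 11 10 17 18 true true), .t 2 (nat_lit 0x109c) (.g 0 11 7 17 18 true true), .t 1 (nat_lit 0) (.g 11 0 7 12 13 false false), .t 1 (nat_lit 0) (.g 13 11 0 7 12 false false), .t 1 (nat_lit 0) (.g 11 0 7 12 14 false false), .t 2 (nat_lit 0x109d) (.g 12 7 0 11 14 true true), .t 1 (nat_lit 0) (.g 14 11 0 7 12 false false), .t 1 (nat_lit 0) (.g 15 11 0 7 12 false false), .t 1 (nat_lit 0) (.g 16 11 0 7 12 false false), .t 2 (nat_lit 0x109e) (.g 12 7 0 11 18 true true), .t 1 (nat_lit 0) (.g 18 11 0 7 12 false false), .t 1 (nat_lit 0) (.g 11 0 7 13 14 false false)] (by decide +kernel) (by decide +kernel)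
theorem b227 : B 14528 14592 := Blk.of_chk [.t 2 (nat_lit 0x109f) (.g 13 14 0 7 11 true false), .t 2 (nat_lit 0x109f) (.g 13 7 0 11 14 true true), .t 1 (nat_lit 0) (.g 14 13 0 7 11 false false), .t 1 (nat_lit 0) (.g 14 11 0 7 13 false false), .t 1 (nat_lit 0) (.st 7 11 13 14), .t 1 (nat_lit 0) (.st 7 11 14 13), .t 1 (nat_lit 0) (.g 11 0 7 13 15 false true), .t 2 (nat_lit 0x10a0) (.g 13 7 0 11 15 true true), .t 1 (nat_lit 0) (.g 15 11 0 7 13 false false), .t 1 (nat_lit 0) (.g 11 0 7 13 16 false true), .t 2 (nat_lit 0x10a1) (.g 13 16 0 7 11 true false), .t 1 (nat_lit 0) (.g 16 13 0 7 11 false false), .t 1 (nat_lit 0) (.g 16 11 0 7 13 false false), .t 1 (nat_lit 0) (.g 11 0 7 13 17 false true), .t 1 (nat_lit 0) (.g 11 0 7 13 17 false false), .t 2 (nat_lit 0x10a2) (.g 13 7 0 11 17 true true), .t 1 (nat_lit 0) (.g 17 13 0 7 11 false false),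 .t 1 (nat_lit 0) (.g 17 11 0 7 13 false false), .t 1 (nat_lit 0) (.st 7 11 13 17), .t 1 (nat_lit 0) (.g 11 0 7 13 18 false false), .t 2 (nat_lit 0x10a3) (.g 13 18 0 7 11 true false), .t 2 (nat_lit 0x10a3) (.g 13 7 0 11 18 true true), .t 1 (nat_lit 0) (.g 18 13 0 7 11 false false), .t 1 (nat_lit 0) (.g 18 11 0 7 13 false false), .t 1 (nat_lit 0) (.g 11 0 7 14 15 false true), .t 1 (nat_lit 0) (.g 11 0 7 14 15 false false), .t 2 (nat_lit 0x10a4) (.g 14 7 0 11 15 true true), .t 1 (nat_lit 0) (.g 11 0 7 14 16 false true), .t 1 (nat_lit 0) (.g 11 0 7 14 16 false false), .t 2 (nat_lit 0x10a5) (.g 14 7 0 11 16 true true), .t 1 (nat_lit 0) (.g 16 14 0 7 11 false false), .t 1 (nat_lit 0) (.g 11 0 7 14 17 false false), .t 2 (nat_lit 0x10a6) (.g 14 17 0 7 11 true false), .t 2 (nat_lit 0x10a6) (.g 14 7 0 11 17 true true), .t 1 (nat_lit 0) (.g 17 14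 0 7 11 false false), .t 1 (nat_lit 0) (.g 11 0 7 14 18 false false), .t 2 (nat_lit 0x10a7) (.g 14 7 0 11 18 true true), .t 1 (nat_lit 0) (.g 18 14 0 7 11 false false), .t 1 (nat_lit 0) (.g 18 11 0 7 14 false false), .t 1 (nat_lit 0) (.g 11 0 7 15 16 false false), .t 2 (nat_lit 0x10a8) (.g 15 7 0 11 16 true true), .t 1 (nat_lit 0) (.g 16 11 0 7 15 false false), .t 1 (nat_lit 0) (.g 11 0 7 15 17 false true), .t 1 (nat_lit 0) (.g 11 0 7 15 17 false false), .t 2 (nat_lit 0x10a9) (.g 15 17 0 7 11 true false), .t 2 (nat_lit 0x10a9) (.g 15 7 0 11 17 true true), .t 1 (nat_lit 0) (.g 17 15 0 7 11 false false), .t 1 (nat_lit 0) (.g 17 11 0 7 15 false false), .t 1 (nat_lit 0) (.g 11 0 7 15 18 false true), .t 1 (nat_lit 0) (.g 11 0 7 15 18 false false), .t 1 (nat_lit 0) (.g 11 0 7 16 17 false true), .t 1 (nat_lit 0) (.g 11 0 7 16 17 false false), .t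 2 (nat_lit 0x10aa) (.g 16 17 0 7 11 true false), .t 2 (nat_lit 0x10aa) (.g 16 7 0 11 17 true true), .t 1 (nat_lit 0) (.g 17 11 0 7 16 false false), .t 1 (nat_lit 0) (.g 11 0 7 16 18 false true), .t 1 (nat_lit 0) (.g 11 0 7 16 18 false false), .t 2 (nat_lit 0x10ab) (.g 16 18 0 7 11 true false), .t 1 (nat_lit 0) (.g 11 0 7 17 18 false true), .t 2 (nat_lit 0x10ac) (.g 17 18 0 7 11 true false), .t 2 (nat_lit 0x10ac) (.g 17 7 0 11 18 true true), .t 1 (nat_lit 0) (.g 18 17 0 7 11 false false), .t 1 (nat_lit 0) (.g 18 11 0 7 17 false false), .t 2 (nat_lit 0x109f) (.g 13 14 0 7 12 true false)] (by decide +kernel) (by decide +kernel)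
theorem b228 : B 14592 14656 := Blk.of_chk [.t 2 (nat_lit 0x109f) (.g 13 7 0 12 14 true true), .t 2 (nat_lit 0x10a0) (.g 13 7 0 12 15 true true), .t 1 (nat_lit 0) (.g 15 13 0 7 12 false false), .t 1 (nat_lit 0) (.g 15 12 0 7 13 false false), .t 2 (nat_lit 0x10ad) (.g 12 0 7 13 16 false true), .t 1 (nat_lit 0) (.g 16 13 0 7 12 false false), .t 1 (nat_lit 0) (.st 7 12 13 16), .t 1 (nat_lit 0) (.g 17 13 0 7 12 false false), .t 1 (nat_lit 0) (.st 7 12 13 18), .t 2 (nat_lit 0x10ae) (.g 12 0 7 14 15 false true), .t 2 (nat_lit 0x10ae) (.g 12 0 7 14 15 false false), .t 2 (nat_lit 0x10a4) (.g 14 7 0 12 15 true true), .t 1 (nat_lit 0) (.g 15 14 0 7 12 false false), .t 1 (nat_lit 0) (.g 15 12 0 7 14 false false), .t 2 (nat_lit 0x10ad) (.g 12 0 7 14 16 false true), .t 2 (nat_lit 0x10af) (.g 12 0 7 14 17 false true), .t 2 (nat_lit 0x10a6) (.g 14 17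 0 7 12 true false), .t 2 (nat_lit 0x10a6) (.g 14 7 0 12 17 true true), .t 1 (nat_lit 0) (.g 17 14 0 7 12 false false), .t 2 (nat_lit 0x109e) (.g 12 0 7 14 18 false true), .t 2 (nat_lit 0x109e) (.g 12 0 7 14 18 false false), .t 2 (nat_lit 0x10ad) (.g 12 0 7 15 16 false true), .t 1 (nat_lit 0) (.g 16 15 0 7 12 false false), .t 2 (nat_lit 0x10af) (.g 12 0 7 15 17 false true), .t 2 (nat_lit 0x10a9) (.g 15 17 0 7 12 true false), .t 2 (nat_lit 0x109e) (.g 12 0 7 15 18 false true), .t 2 (nat_lit 0x109e) (.g 12 0 7 15 18 false false), .t 2 (nat_lit 0x10af) (.g 12 0 7 16 17 false true), .t 2 (nat_lit 0x10aa) (.g 16 17 0 7 12 true false), .t 1 (nat_lit 0) (.g 17 16 0 7 12 false false), .t 1 (nat_lit 0) (.st 7 12 16 17), .t 1 (nat_lit 0) (.st 7 12 17 16), .t 2 (nat_lit 0x109e) (.g 12 0 7 16 18 false true), .t 2 (nat_lit 0x109e) (.g 12 0 7 16 18 false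 false), .t 2 (nat_lit 0x10ab) (.g 16 18 0 7 12 true false), .t 2 (nat_lit 0x10ac) (.g 17 18 0 7 12 true false), .t 1 (nat_lit 0) (.g 18 17 0 7 12 false false), .t 1 (nat_lit 0) (.st 7 12 18 17), .t 2 (nat_lit 0x109f) (.g 13 0 7 14 15 false true), .t 2 (nat_lit 0x10a0) (.g 13 0 7 14 15 false true), .t 2 (nat_lit 0x10a0) (.g 13 0 7 14 15 false false), .t 2 (nat_lit 0x10a4) (.g 14 15 0 7 13 true false), .t 2 (nat_lit 0x10a4) (.g 14 7 0 13 15 true true), .t 1 (nat_lit 0) (.g 15 13 0 7 14 false false), .t 2 (nat_lit 0x109f) (.g 13 0 7 14 16 false true), .t 2 (nat_lit 0x10a1) (.g 13 0 7 14 16 false true), .t 2 (nat_lit 0x10a1) (.g 13 0 7 14 16 false false), .t 2 (nat_lit 0x10a5) (.g 14 7 0 13 16 true true), .t 1 (nat_lit 0) (.g 16 14 0 7 13 false false), .t 2 (nat_lit 0x109f) (.g 13 0 7 14 17 false true), .t 1 (nat_lit 0) (.g 14 17 0 7 13 true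 false), .t 2 (nat_lit 0x10a2) (.g 13 0 7 14 17 false true), .t 2 (nat_lit 0x10a2) (.g 13 0 7 14 17 false false), .t 2 (nat_lit 0x10a6) (.g 14 17 0 7 13 true false), .t 2 (nat_lit 0x10a6) (.g 14 7 0 13 17 true true), .t 1 (nat_lit 0) (.g 17 14 0 7 13 false false), .t 2 (nat_lit 0x109f) (.g 13 0 7 14 18 false true), .t 2 (nat_lit 0x10a3) (.g 13 0 7 14 18 false true), .t 2 (nat_lit 0x10a3) (.g 13 0 7 14 18 false false), .t 2 (nat_lit 0x10a7) (.g 14 18 0 7 13 true false), .t 2 (nat_lit 0x10a7) (.g 14 7 0 13 18 true true), .t 1 (nat_lit 0) (.g 18 14 0 7 13 false false), .t 2 (nat_lit 0x10a1) (.g 13 0 7 15 16 false true), .t 1 (nat_lit 0) (.g 16 15 0 7 13 false false)] (by decide +kernel) (by decide +kernel)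
theorem b229 : B 14656 14720 := Blk.of_chk [.t 1 (nat_lit 0) (.g 16 13 0 7 15 false false), .t 2 (nat_lit 0x10a2) (.g 13 0 7 15 17 false true), .t 2 (nat_lit 0x10a2) (.g 13 0 7 15 17 false false), .t 2 (nat_lit 0x10a9) (.g 15 7 0 13 17 true true), .t 1 (nat_lit 0) (.g 17 15 0 7 13 false false), .t 1 (nat_lit 0) (.g 17 13 0 7 15 false false), .t 2 (nat_lit 0x10a3) (.g 13 0 7 15 18 false true), .t 2 (nat_lit 0x10a3) (.g 13 0 7 15 18 false false), .t 1 (nat_lit 0) (.g 18 15 0 7 13 false false), .t 1 (nat_lit 0) (.g 18 13 0 7 15 false false), .t 1 (nat_lit 0) (.st 7 13 15 18), .t 2 (nat_lit 0x10a2) (.g 13 0 7 16 17 false true), .t 2 (nat_lit 0x10a2) (.g 13 0 7 16 17 false false), .t 1 (nat_lit 0) (.g 17 16 0 7 13 false false), .t 1 (nat_lit 0) (.g 17 13 0 7 16 false false), .t 2 (nat_lit 0x10a3) (.g 13 0 7 16 18 false false), .t 2 (nat_lit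 0x10ab) (.g 16 18 0 7 13 true false), .t 1 (nat_lit 0) (.g 18 16 0 7 13 false false), .t 1 (nat_lit 0) (.g 18 13 0 7 16 false false), .t 1 (nat_lit 0) (.g 13 0 7 17 18 false false), .t 2 (nat_lit 0x10b0) (.g 17 13 0 7 18 false true), .t 2 (nat_lit 0x10a3) (.g 13 0 7 17 18 false true), .t 2 (nat_lit 0x10ac) (.g 17 18 0 7 13 true false), .t 2 (nat_lit 0x10ac) (.g 17 7 0 13 18 true true), .t 1 (nat_lit 0) (.g 18 17 0 7 13 false false), .t 1 (nat_lit 0) (.g 16 14 0 7 15 false false), .t 2 (nat_lit 0x10a9) (.g 15 17 0 7 14 true false), .t 1 (nat_lit 0) (.g 17 15 0 7 14 false false), .t 1 (nat_lit 0) (.g 17 14 0 7 15 false false), .t 2 (nat_lit 0x10a4) (.g 14 0 7 15 18 false true), .t 2 (nat_lit 0x10b1) (.g 15 18 0 7 14 true false), .t 1 (nat_lit 0) (.g 18 14 0 7 15 false false), .t 2 (nat_lit 0x10b2) (.g 16 14 0 7 17 false true), .t 2 (nat_lit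 0x10aa) (.g 16 17 0 7 14 true false), .t 2 (nat_lit 0x10aa) (.g 16 7 0 14 17 true true), .t 1 (nat_lit 0) (.g 17 16 0 7 14 false false), .t 1 (nat_lit 0) (.g 17 14 0 7 16 false false), .t 2 (nat_lit 0x10a7) (.g 14 0 7 16 18 false false), .t 2 (nat_lit 0x10ab) (.g 16 18 0 7 14 true false), .t 1 (nat_lit 0) (.g 18 16 0 7 14 false false), .t 1 (nat_lit 0) (.g 18 14 0 7 16 false false), .t 2 (nat_lit 0x10ac) (.g 17 18 0 7 14 true false), .t 1 (nat_lit 0) (.g 18 17 0 7 14 false false), .t 1 (nat_lit 0) (.g 18 14 0 7 17 false false), .t 2 (nat_lit 0x10a9) (.g 15 0 7 16 17 false false), .t 2 (nat_lit 0x10aa) (.g 16 17 0 7 15 true false), .t 2 (nat_lit 0x10aa) (.g 16 7 0 15 17 true true), .t 1 (nat_lit 0) (.g 17 16 0 7 15 false false), .t 1 (nat_lit 0) (.g 17 15 0 7 16 false false), .t 2 (nat_lit 0x10b1) (.g 15 0 7 16 18 false false), .t 1 (nat_lit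 0) (.g 18 16 0 7 15 false false), .t 1 (nat_lit 0) (.g 18 15 0 7 16 false false), .t 1 (nat_lit 0) (.st 7 15 16 18), .t 2 (nat_lit 0x10ac) (.g 17 18 0 7 15 true false), .t 1 (nat_lit 0) (.g 18 17 0 7 15 false false), .t 1 (nat_lit 0) (.g 18 15 0 7 17 false false), .t 1 (nat_lit 0) (.st 7 15 17 18), .t 2 (nat_lit 0x10ac) (.g 17 18 0 7 16 true false), .t 2 (nat_lit 0x10ac) (.g 17 7 0 16 18 true true), .t 1 (nat_lit 0) (.st 7 16 17 18), .t 1 (nat_lit 0) (.st 7 16 18 17), .t 1 (nat_lit 0) (.g 8 10 0 9 11 true false), .t 1 (nat_lit 0) (.g 9 11 0 8 10 false true), .t 1 (nat_lit 0) (.g 8 10 0 9 12 true false)] (by decide +kernel) (by decide +kernel)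
theorem b230 : B 14720 14784 := Blk.of_chk [.t 2 (nat_lit 0x10b3) (.g 0 11 8 9 12 true true), .t 1 (nat_lit 0) (.g 8 10 0 9 13 true false), .t 2 (nat_lit 0x10b4) (.g 0 11 8 9 13 true true), .t 2 (nat_lit 0x10b5) (.g 0 11 8 10 13 true true), .t 1 (nat_lit 0) (.g 8 10 0 9 14 true false), .t 2 (nat_lit 0x10b6) (.g 0 11 8 9 14 true true), .t 2 (nat_lit 0x10b7) (.g 0 11 8 10 14 true true), .t 1 (nat_lit 0) (.g 8 10 0 9 15 true false), .t 2 (nat_lit 0x10b8) (.g 0 11 8 9 15 true true), .t 2 (nat_lit 0x10b9) (.g 0 11 8 10 15 true true), .t 1 (nat_lit 0) (.g 8 10 0 9 16 true false), .t 2 (nat_lit 0x10ba) (.g 0 11 8 9 16 true true), .t 2 (nat_lit 0x10bb) (.g 0 11 8 10 16 true true), .t 2 (nat_lit 0x10bc) (.g 8 0 9 10 17 false false), .t 1 (nat_lit 0) (.g 9 17 0 8 10 true true), .t 2 (nat_lit 0x10bd) (.g 0 11 8 9 17 true true), .t 2 (nat_lit 0x10be)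 (.g 0 11 8 10 17 true true), .t 2 (nat_lit 0x10bf) (.g 0 11 8 10 18 true true), .t 2 (nat_lit 0x10c0) (.g 0 11 9 10 18 true true), .t 1 (nat_lit 0) (.g 9 18 0 8 10 true true), .t 1 (nat_lit 0) (.g 8 10 0 9 18 true false), .t 2 (nat_lit 0x10c1) (.g 0 11 8 9 18 true true), .t 2 (nat_lit 0x10c2) (.g 0 11 8 10 18 true true), .t 2 (nat_lit 0x10c3) (.g 11 0 8 9 12 false true), .t 1 (nat_lit 0) (.g 8 11 0 9 12 false false), .t 2 (nat_lit 0x10c4) (.g 9 0 8 11 12 true true), .t 2 (nat_lit 0x10c4) (.g 9 0 8 11 12 true false), .t 1 (nat_lit 0) (.g 11 0 8 9 13 false true), .t 2 (nat_lit 0x10c5) (.g 11 0 8 9 13 false true), .t 2 (nat_lit 0x10c6) (.g 9 0 8 11 13 true true), .t 1 (nat_lit 0) (.g 11 0 8 9 14 false true), .t 1 (nat_lit 0) (.g 11 0 8 9 14 false false), .t 2 (nat_lit 0x10c7) (.g 11 0 8 9 14 false true), .t 2 (nat_lit 0x10c8) (.g 9 0 8 11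 14 true true), .t 2 (nat_lit 0x10c8) (.g 9 0 8 11 14 true false), .t 1 (nat_lit 0) (.g 11 0 8 9 15 false true), .t 1 (nat_lit 0) (.g 11 0 8 9 15 false false), .t 2 (nat_lit 0x10c9) (.g 11 0 8 9 15 false true), .t 2 (nat_lit 0x10ca) (.g 9 0 8 11 15 true true), .t 1 (nat_lit 0) (.g 11 0 8 9 16 false true), .t 2 (nat_lit 0x10cb) (.g 11 0 8 9 16 false true), .t 2 (nat_lit 0x10cc) (.g 9 0 8 11 16 true true), .t 2 (nat_lit 0x10cc) (.g 9 0 8 11 16 true false), .t 1 (nat_lit 0) (.g 9 8 0 11 17 false true), .t 2 (nat_lit 0x10cd) (.g 11 0 8 9 17 false true), .t 2 (nat_lit 0x10ce) (.g 9 0 8 11 17 true true), .t 1 (nat_lit 0) (.g 9 8 0 11 18 false true), .t 2 (nat_lit 0x10cf) (.g 11 0 8 9 18 false true), .t 2 (nat_lit 0x10d0) (.g 9 0 8 11 18 true true), .t 3 (nat_lit 0x10d110c6) (.g 0 11 9 12 13 true true), .t 3 (nat_lit 0x10d210c8) (.a 8 9 12 14 true),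 .t 2 (nat_lit 0x10c8) (.g 14 8 0 9 12 true false), .t 3 (nat_lit 0x10d310c8) (.g 0 11 9 12 14 true true), .t 3 (nat_lit 0x10d410c8) (.g 0 11 9 12 14 true true), .t 3 (nat_lit 0x10d510ca) (.g 0 11 9 12 15 true true), .t 2 (nat_lit 0x10cc) (.g 8 9 0 12 16 true true), .t 3 (nat_lit 0x10d610cc) (.a 8 9 12 16 true), .t 2 (nat_lit 0x10d7) (.g 0 11 8 12 16 true true), .t 3 (nat_lit 0x10d810cc) (.g 0 11 9 12 16 true true), .t 3 (nat_lit 0x10d910cc) (.g 0 11 9 12 16 true true), .t 2 (nat_lit 0x10ce) (.g 17 8 0 9 12 true false), .t 2 (nat_lit 0x10da) (.g 0 11 8 12 17 true true), .t 3 (nat_lit 0x10db10ce) (.g 0 11 9 12 17 true true), .t 2 (nat_lit 0x10c4) (.g 9 8 0 12 18 false true)] (by decide +kernel) (by decide +kernel)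
theorem b231 : B 14784 14848 := Blk.of_chk [.t 2 (nat_lit 0x10d0) (.g 18 8 0 9 12 true false), .t 3 (nat_lit 0x10dc10d0) (.g 0 11 9 12 18 true true), .t 3 (nat_lit 0x10dd10c8) (.a 8 9 13 14 true), .t 3 (nat_lit 0x10de10c8) (.a 8 9 13 14 false), .t 2 (nat_lit 0x10c8) (.g 14 8 0 9 13 true false), .t 2 (nat_lit 0x10c8) (.g 14 9 0 8 13 true false), .t 2 (nat_lit 0x10df) (.g 0 11 8 13 14 true true), .t 3 (nat_lit 0x10e010c8) (.g 0 11 9 13 14 true true), .t 3 (nat_lit 0x10e110c8) (.g 0 11 9 13 14 true true), .t 2 (nat_lit 0x10ca) (.g 8 9 0 13 15 true true), .t 3 (nat_lit 0x10e210ca) (.a 8 9 13 15 true), .t 2 (nat_lit 0x10ca) (.g 15 8 0 9 13 true false), .t 3 (nat_lit 0x10e310ca) (.g 0 11 9 13 15 true true), .t 3 (nat_lit 0x10e410ca) (.g 0 11 9 13 15 true true), .t 2 (nat_lit 0x10cc) (.g 8 9 0 13 16 true true), .t 3 (nat_lit 0x10e510cc) (.a 8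 9 13 16 true), .t 2 (nat_lit 0x10cc) (.g 16 8 0 9 13 true false), .t 2 (nat_lit 0x10e6) (.g 0 11 8 13 16 true true), .t 3 (nat_lit 0x10e710cc) (.g 0 11 9 13 16 true true), .t 3 (nat_lit 0x10e810cc) (.g 0 11 9 13 16 true true), .t 2 (nat_lit 0x10ce) (.g 8 9 0 13 17 true true), .t 3 (nat_lit 0x10e910ce) (.a 8 9 13 17 true), .t 2 (nat_lit 0x10ce) (.g 17 8 0 9 13 true false), .t 3 (nat_lit 0x10ea10ce) (.g 0 11 9 13 17 true true), .t 2 (nat_lit 0x10d0) (.g 8 9 0 13 18 true true), .t 2 (nat_lit 0x10c6) (.g 9 8 0 13 18 false true), .t 3 (nat_lit 0x10eb10d0) (.a 8 9 13 18 true), .t 2 (nat_lit 0x10d0) (.g 18 8 0 9 13 true false), .t 3 (nat_lit 0x10ec10d0) (.g 0 11 9 13 18 true true), .t 3 (nat_lit 0x10ed10d0) (.g 0 11 9 13 18 true true), .t 2 (nat_lit 0x10ee) (.g 0 11 8 14 15 true true), .t 2 (nat_lit 0x10ef) (.g 0 11 8 14 15 true true), .t 3 (nat_lit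 0x10f010ca) (.g 0 11 9 14 15 true true), .t 3 (nat_lit 0x10f110ca) (.g 0 11 9 14 15 true true), .t 3 (nat_lit 0x10f210cc) (.a 8 9 14 16 true), .t 2 (nat_lit 0x10cc) (.g 16 8 0 9 14 true false), .t 2 (nat_lit 0x10f3) (.g 0 11 8 14 16 true true), .t 3 (nat_lit 0x10f410cc) (.g 0 11 9 14 16 true true), .t 3 (nat_lit 0x10f510cc) (.g 0 11 9 14 16 true true), .t 2 (nat_lit 0x10c8) (.g 9 8 0 14 17 false true), .t 2 (nat_lit 0x10ce) (.g 17 8 0 9 14 true false), .t 2 (nat_lit 0x10f6) (.g 0 11 8 14 17 true true), .t 3 (nat_lit 0x10f710ce) (.g 0 11 9 14 17 true true), .t 2 (nat_lit 0x10c8) (.g 9 8 0 14 18 false true), .t 3 (nat_lit 0x10f810d0) (.a 8 9 14 18 true), .t 2 (nat_lit 0x10d0) (.g 18 8 0 9 14 true false), .t 2 (nat_lit 0x10f9) (.g 0 11 8 14 18 true true), .t 3 (nat_lit 0x10fa10d0) (.g 0 11 9 14 18 true true), .t 3 (nat_lit 0x10fb10d0) (.g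 0 11 9 14 18 true true), .t 2 (nat_lit 0x10cc) (.g 16 8 0 9 15 true false), .t 3 (nat_lit 0x10fc10cc) (.g 0 11 9 15 16 true true), .t 3 (nat_lit 0x10fd10cc) (.g 0 11 9 15 16 true true), .t 2 (nat_lit 0x10ce) (.g 17 8 0 9 15 true false), .t 3 (nat_lit 0x10fe10ce) (.g 0 11 9 15 17 true true), .t 3 (nat_lit 0x10ff10d0) (.a 8 9 15 18 true), .t 2 (nat_lit 0x10d0) (.g 18 8 0 9 15 true false), .t 3 (nat_lit 0x110010d0) (.g 0 11 9 15 18 true true), .t 3 (nat_lit 0x110110d0) (.g 0 11 9 15 18 true true), .t 2 (nat_lit 0x10ce) (.g 17 8 0 9 16 true false), .t 2 (nat_lit 0x1102) (.g 0 11 8 16 17 true true), .t 3 (nat_lit 0x110310ce) (.g 0 11 9 16 17 true true), .t 3 (nat_lit 0x110410d0) (.a 8 9 16 18 true), .t 2 (nat_lit 0x10d0) (.g 18 8 0 9 16 true false), .t 2 (nat_lit 0x1105) (.g 0 11 8 16 18 true true)] (by decide +kernel) (by decide +kernel)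
theorem b232 : B 14848 14912 := Blk.of_chk [.t 3 (nat_lit 0x110610d0) (.g 0 11 9 16 18 true true), .t 3 (nat_lit 0x110710d0) (.g 0 11 9 16 18 true true), .t 3 (nat_lit 0x110810d0) (.a 8 9 17 18 true), .t 3 (nat_lit 0x110910d0) (.a 8 9 17 18 false), .t 2 (nat_lit 0x10d0) (.g 18 8 0 9 17 true false), .t 2 (nat_lit 0x110a) (.g 0 11 8 17 18 true true), .t 3 (nat_lit 0x110b10d0) (.g 0 11 9 17 18 true true), .t 3 (nat_lit 0x110c10d0) (.g 0 11 9 17 18 true true), .t 1 (nat_lit 0) (.g 8 11 0 10 12 false false), .t 2 (nat_lit 0x110d) (.g 11 0 8 10 13 false true), .t 1 (nat_lit 0) (.g 11 0 8 10 14 false false), .t 2 (nat_lit 0x110e) (.g 11 0 8 10 14 false true), .t 2 (nat_lit 0x110f) (.g 10 0 8 11 14 true true), .t 1 (nat_lit 0) (.g 11 0 8 10 15 false false), .t 2 (nat_lit 0x1110) (.g 11 0 8 10 16 false true), .t 1 (nat_lit 0) (.g 8 17 0 10 11 false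 false), .t 2 (nat_lit 0x1111) (.g 10 0 8 11 17 true true), .t 2 (nat_lit 0x1112) (.g 11 0 8 10 18 false true), .t 3 (nat_lit 0x11141113) (.g 0 11 10 12 13 true true), .t 3 (nat_lit 0x11161115) (.a 8 10 12 15 true), .t 2 (nat_lit 0x1115) (.g 15 10 0 8 12 true false), .t 2 (nat_lit 0x1117) (.g 16 8 0 10 12 true false), .t 2 (nat_lit 0x1117) (.g 16 10 0 8 12 true false), .t 2 (nat_lit 0x1118) (.g 0 11 8 12 16 true true), .t 2 (nat_lit 0x1119) (.g 0 11 8 12 17 true true), .t 2 (nat_lit 0x111a) (.g 18 8 0 10 12 true false), .t 3 (nat_lit 0x111b110f) (.a 8 10 13 14 true), .t 3 (nat_lit 0x111c110f) (.a 8 10 13 14 false), .t 2 (nat_lit 0x110f) (.g 14 8 0 10 13 true false), .t 3 (nat_lit 0x111d110f) (.g 0 11 10 13 14 true true), .t 3 (nat_lit 0x111e1115) (.a 8 10 13 15 false), .t 3 (nat_lit 0x111f1117) (.a 8 10 13 16 false), .t 2 (nat_lit 0x1111)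 (.g 17 8 0 10 13 true false), .t 2 (nat_lit 0x1111) (.g 17 10 0 8 13 true false), .t 1 (nat_lit 0) (.g 8 10 0 13 18 true true), .t 2 (nat_lit 0x111a) (.g 18 8 0 10 13 true false), .t 3 (nat_lit 0x11201115) (.a 8 10 14 15 false), .t 2 (nat_lit 0x1121) (.g 0 11 8 14 16 true true), .t 2 (nat_lit 0x1122) (.g 0 11 8 14 17 true true), .t 3 (nat_lit 0x11231111) (.g 0 11 10 14 17 true true), .t 3 (nat_lit 0x1124111a) (.a 8 10 14 18 true), .t 2 (nat_lit 0x111a) (.g 18 8 0 10 14 true false), .t 3 (nat_lit 0x1125111a) (.g 0 11 10 14 18 true true), .t 3 (nat_lit 0x11261117) (.a 8 10 15 16 true), .t 3 (nat_lit 0x1127111a) (.g 0 11 10 15 18 true true), .t 3 (nat_lit 0x11281111) (.a 8 10 16 17 false), .t 2 (nat_lit 0x1111) (.g 17 10 0 8 16 true false), .t 2 (nat_lit 0x1129) (.g 0 11 8 16 17 true true), .t 3 (nat_lit 0x112a1111) (.g 0 11 10 16 17 true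 true), .t 3 (nat_lit 0x112b111a) (.g 0 11 10 16 18 true true), .t 2 (nat_lit 0x112c) (.g 0 11 10 17 18 true true), .t 2 (nat_lit 0x112d) (.g 0 11 8 17 18 true true), .t 3 (nat_lit 0x112e111a) (.a 8 10 17 18 false), .t 2 (nat_lit 0x111a) (.g 18 10 0 8 17 true false), .t 2 (nat_lit 0x112f) (.g 0 11 8 17 18 true true), .t 1 (nat_lit 0) (.g 13 11 0 8 12 false false), .t 1 (nat_lit 0) (.g 11 0 8 12 14 false true), .t 1 (nat_lit 0) (.g 11 0 8 12 14 false false), .t 1 (nat_lit 0) (.g 14 11 0 8 12 false false), .t 1 (nat_lit 0) (.st 8 11 14 12), .t 1 (nat_lit 0) (.g 11 0 8 12 15 false true), .t 1 (nat_lit 0) (.g 15 11 0 8 12 false false), .t 1 (nat_lit 0) (.g 11 0 8 12 16 false true), .t 1 (nat_lit 0) (.g 16 11 0 8 12 false false)] (by decide +kernel) (by decide +kernel)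
theorem b233 : B 14912 14976 := Blk.of_chk [.t 1 (nat_lit 0) (.st 8 11 12 16), .t 1 (nat_lit 0) (.g 11 0 8 12 17 false true), .t 1 (nat_lit 0) (.g 17 11 0 8 12 false false), .t 1 (nat_lit 0) (.st 8 11 12 17), .t 1 (nat_lit 0) (.st 8 11 17 12), .t 1 (nat_lit 0) (.g 11 0 8 12 18 false true), .t 2 (nat_lit 0x1130) (.g 12 8 0 11 18 true true), .t 1 (nat_lit 0) (.g 18 11 0 8 12 false false), .t 1 (nat_lit 0) (.st 8 11 18 12), .t 1 (nat_lit 0) (.g 11 0 8 13 14 false false), .t 2 (nat_lit 0x1131) (.g 13 8 0 11 14 true true), .t 1 (nat_lit 0) (.g 14 13 0 8 11 false false), .t 1 (nat_lit 0) (.g 14 11 0 8 13 false false), .t 1 (nat_lit 0) (.st 8 11 13 14), .t 1 (nat_lit 0) (.g 11 0 8 13 15 false true), .t 2 (nat_lit 0x1132) (.g 13 8 0 11 15 true true), .t 1 (nat_lit 0) (.g 15 11 0 8 13 false false), .t 1 (nat_lit 0) (.g 11 0 8 13 16 false true),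 .t 2 (nat_lit 0x1133) (.g 13 16 0 8 11 true false), .t 1 (nat_lit 0) (.g 16 13 0 8 11 false false), .t 1 (nat_lit 0) (.g 16 11 0 8 13 false false), .t 1 (nat_lit 0) (.st 8 11 16 13), .t 1 (nat_lit 0) (.g 11 0 8 13 17 false true), .t 1 (nat_lit 0) (.g 11 0 8 13 17 false false), .t 2 (nat_lit 0x1134) (.g 13 8 0 11 17 true true), .t 1 (nat_lit 0) (.g 17 13 0 8 11 false false), .t 1 (nat_lit 0) (.g 17 11 0 8 13 false false), .t 1 (nat_lit 0) (.st 8 11 13 17), .t 1 (nat_lit 0) (.g 11 0 8 13 18 false false), .t 2 (nat_lit 0x1135) (.g 13 18 0 8 11 true false), .t 2 (nat_lit 0x1135) (.g 13 8 0 11 18 true true), .t 1 (nat_lit 0) (.g 18 13 0 8 11 false false), .t 1 (nat_lit 0) (.g 18 11 0 8 13 false false), .t 1 (nat_lit 0) (.g 11 0 8 14 15 false true), .t 1 (nat_lit 0) (.g 11 0 8 14 15 false false), .t 2 (nat_lit 0x1136) (.g 14 15 0 8 11 true false),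 .t 1 (nat_lit 0) (.g 11 0 8 14 16 false true), .t 1 (nat_lit 0) (.g 11 0 8 14 16 false false), .t 2 (nat_lit 0x1137) (.g 14 8 0 11 16 true true), .t 1 (nat_lit 0) (.g 16 14 0 8 11 false false), .t 1 (nat_lit 0) (.g 11 0 8 14 17 false true), .t 1 (nat_lit 0) (.g 11 0 8 14 17 false false), .t 2 (nat_lit 0x1138) (.g 14 17 0 8 11 true false), .t 2 (nat_lit 0x1138) (.g 14 8 0 11 17 true true), .t 1 (nat_lit 0) (.g 17 14 0 8 11 false false), .t 1 (nat_lit 0) (.g 17 11 0 8 14 false false), .t 1 (nat_lit 0) (.st 8 11 17 14), .t 1 (nat_lit 0) (.g 11 0 8 14 18 false true), .t 1 (nat_lit 0) (.g 11 0 8 14 18 false false), .t 2 (nat_lit 0x1139) (.g 14 8 0 11 18 true true), .t 1 (nat_lit 0) (.g 18 14 0 8 11 false false), .t 1 (nat_lit 0) (.g 18 11 0 8 14 false false), .t 1 (nat_lit 0) (.g 11 0 8 15 16 false false), .t 2 (nat_lit 0x113a) (.g 15 8 0 11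 16 true true), .t 1 (nat_lit 0) (.g 16 11 0 8 15 false false), .t 1 (nat_lit 0) (.g 11 0 8 15 17 false true), .t 1 (nat_lit 0) (.g 11 0 8 15 17 false false), .t 2 (nat_lit 0x113b) (.g 15 17 0 8 11 true false), .t 2 (nat_lit 0x113b) (.g 15 8 0 11 17 true true), .t 1 (nat_lit 0) (.g 17 15 0 8 11 false false), .t 1 (nat_lit 0) (.g 17 11 0 8 15 false false), .t 1 (nat_lit 0) (.st 8 11 17 15), .t 1 (nat_lit 0) (.g 11 0 8 15 18 false true), .t 1 (nat_lit 0) (.g 11 0 8 15 18 false false)] (by decide +kernel) (by decide +kernel)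
theorem b234 : B 14976 15040 := Blk.of_chk [.t 1 (nat_lit 0) (.g 11 0 8 16 17 false true), .t 1 (nat_lit 0) (.g 11 0 8 16 17 false false), .t 2 (nat_lit 0x113c) (.g 16 17 0 8 11 true false), .t 2 (nat_lit 0x113c) (.g 16 8 0 11 17 true true), .t 1 (nat_lit 0) (.g 17 11 0 8 16 false false), .t 1 (nat_lit 0) (.st 8 11 17 16), .t 1 (nat_lit 0) (.g 11 0 8 16 18 false true), .t 1 (nat_lit 0) (.g 11 0 8 16 18 false false), .t 2 (nat_lit 0x113d) (.g 16 18 0 8 11 true false), .t 1 (nat_lit 0) (.g 11 0 8 17 18 false true), .t 2 (nat_lit 0x113e) (.g 17 18 0 8 11 true false), .t 2 (nat_lit 0x113e) (.g 17 8 0 11 18 true true), .t 1 (nat_lit 0) (.g 18 17 0 8 11 false false), .t 1 (nat_lit 0) (.g 18 11 0 8 17 false false), .t 1 (nat_lit 0) (.st 8 11 17 18), .t 1 (nat_lit 0) (.st 8 11 18 17), .t 2 (nat_lit 0x1131) (.g 13 14 0 8 12 true false), .t 2 (nat_lit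 0x1132) (.g 13 8 0 12 15 true true), .t 1 (nat_lit 0) (.g 15 12 0 8 13 false false), .t 2 (nat_lit 0x113f) (.g 12 0 8 13 16 false true), .t 1 (nat_lit 0) (.g 16 13 0 8 12 false false), .t 1 (nat_lit 0) (.st 8 12 16 13), .t 1 (nat_lit 0) (.g 17 13 0 8 12 false false), .t 1 (nat_lit 0) (.st 8 12 17 13), .t 2 (nat_lit 0x1140) (.g 12 0 8 14 15 false true), .t 2 (nat_lit 0x1140) (.g 12 0 8 14 15 false false), .t 2 (nat_lit 0x1136) (.g 14 8 0 12 15 true true), .t 1 (nat_lit 0) (.g 15 14 0 8 12 false false), .t 1 (nat_lit 0) (.g 15 12 0 8 14 false false), .t 2 (nat_lit 0x113f) (.g 12 0 8 14 16 false true), .t 2 (nat_lit 0x1141) (.g 12 0 8 14 17 false true), .t 2 (nat_lit 0x1138) (.g 14 17 0 8 12 true false), .t 2 (nat_lit 0x1138) (.g 14 8 0 12 17 true true), .t 1 (nat_lit 0) (.g 17 14 0 8 12 false false), .t 1 (nat_lit 0) (.st 8 12 17 14), .t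 2 (nat_lit 0x1130) (.g 12 0 8 14 18 false true), .t 2 (nat_lit 0x1130) (.g 12 0 8 14 18 false false), .t 2 (nat_lit 0x113f) (.g 12 0 8 15 16 false true), .t 1 (nat_lit 0) (.g 16 15 0 8 12 false false), .t 1 (nat_lit 0) (.st 8 12 16 15), .t 2 (nat_lit 0x1141) (.g 12 0 8 15 17 false true), .t 2 (nat_lit 0x113b) (.g 15 17 0 8 12 true false), .t 2 (nat_lit 0x1130) (.g 12 0 8 15 18 false true), .t 2 (nat_lit 0x1130) (.g 12 0 8 15 18 false false), .t 2 (nat_lit 0x1141) (.g 12 0 8 16 17 false true), .t 2 (nat_lit 0x113c) (.g 16 17 0 8 12 true false), .t 1 (nat_lit 0) (.g 17 16 0 8 12 false false), .t 1 (nat_lit 0) (.st 8 12 16 17), .t 1 (nat_lit 0) (.st 8 12 17 16), .t 2 (nat_lit 0x1130) (.g 12 0 8 16 18 false true), .t 2 (nat_lit 0x1130) (.g 12 0 8 16 18 false false), .t 2 (nat_lit 0x113d) (.g 16 18 0 8 12 true false), .t 2 (nat_lit 0x113e) (.g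 17 18 0 8 12 true false), .t 1 (nat_lit 0) (.g 18 17 0 8 12 false false), .t 2 (nat_lit 0x1132) (.g 13 0 8 14 15 false true), .t 2 (nat_lit 0x1132) (.g 13 0 8 14 15 false false), .t 2 (nat_lit 0x1136) (.g 14 15 0 8 13 true false), .t 2 (nat_lit 0x1136) (.g 14 8 0 13 15 true true), .t 2 (nat_lit 0x1133) (.g 13 0 8 14 16 false true), .t 2 (nat_lit 0x1133) (.g 13 0 8 14 16 false false), .t 2 (nat_lit 0x1137) (.g 14 16 0 8 13 true false), .t 1 (nat_lit 0) (.g 16 14 0 8 13 false false), .t 1 (nat_lit 0) (.st 8 13 16 14), .t 2 (nat_lit 0x1134) (.g 13 0 8 14 17 false true)] (by decide +kernel) (by decide +kernel)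
theorem b235 : B 15040 15104 := Blk.of_chk [.t 2 (nat_lit 0x1134) (.g 13 0 8 14 17 false false), .t 2 (nat_lit 0x1138) (.g 14 17 0 8 13 true false), .t 2 (nat_lit 0x1138) (.g 14 8 0 13 17 true true), .t 1 (nat_lit 0) (.g 17 14 0 8 13 false false), .t 2 (nat_lit 0x1135) (.g 13 0 8 14 18 false true), .t 2 (nat_lit 0x1135) (.g 13 0 8 14 18 false false), .t 2 (nat_lit 0x1139) (.g 14 18 0 8 13 true false), .t 2 (nat_lit 0x1139) (.g 14 8 0 13 18 true true), .t 1 (nat_lit 0) (.g 18 14 0 8 13 false false), .t 1 (nat_lit 0) (.g 18 13 0 8 14 false false), .t 2 (nat_lit 0x1133) (.g 13 0 8 15 16 false true), .t 1 (nat_lit 0) (.g 16 15 0 8 13 false false), .t 1 (nat_lit 0) (.g 16 13 0 8 15 false false), .t 1 (nat_lit 0) (.st 8 13 16 15), .t 2 (nat_lit 0x1134) (.g 13 0 8 15 17 false true), .t 2 (nat_lit 0x1134) (.g 13 0 8 15 17 false false), .t 2 (nat_lit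 0x113b) (.g 15 8 0 13 17 true true), .t 1 (nat_lit 0) (.g 17 15 0 8 13 false false), .t 1 (nat_lit 0) (.g 17 13 0 8 15 false false), .t 2 (nat_lit 0x1135) (.g 13 0 8 15 18 false true), .t 2 (nat_lit 0x1135) (.g 13 0 8 15 18 false false), .t 1 (nat_lit 0) (.g 18 15 0 8 13 false false), .t 1 (nat_lit 0) (.g 18 13 0 8 15 false false), .t 2 (nat_lit 0x1134) (.g 13 0 8 16 17 false true), .t 2 (nat_lit 0x1134) (.g 13 0 8 16 17 false false), .t 2 (nat_lit 0x113c) (.g 16 8 0 13 17 true true), .t 1 (nat_lit 0) (.g 17 16 0 8 13 false false), .t 1 (nat_lit 0) (.g 17 13 0 8 16 false false), .t 2 (nat_lit 0x1135) (.g 13 0 8 16 18 false true), .t 2 (nat_lit 0x1135) (.g 13 0 8 16 18 false false), .t 2 (nat_lit 0x113d) (.g 16 18 0 8 13 true false), .t 1 (nat_lit 0) (.g 18 16 0 8 13 false false), .t 1 (nat_lit 0) (.g 18 13 0 8 16 false false), .t 2 (nat_lit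 0x1135) (.g 13 0 8 17 18 false true), .t 2 (nat_lit 0x113e) (.g 17 18 0 8 13 true false), .t 2 (nat_lit 0x113e) (.g 17 8 0 13 18 true true), .t 1 (nat_lit 0) (.g 18 17 0 8 13 false false), .t 1 (nat_lit 0) (.g 18 13 0 8 17 false false), .t 2 (nat_lit 0x1137) (.g 14 0 8 15 16 false true), .t 2 (nat_lit 0x1137) (.g 14 0 8 15 16 false false), .t 1 (nat_lit 0) (.g 16 14 0 8 15 false false), .t 2 (nat_lit 0x113b) (.g 15 17 0 8 14 true false), .t 1 (nat_lit 0) (.g 17 15 0 8 14 false false), .t 1 (nat_lit 0) (.g 17 14 0 8 15 false false), .t 1 (nat_lit 0) (.st 8 14 17 15), .t 2 (nat_lit 0x1142) (.g 15 18 0 8 14 true false), .t 1 (nat_lit 0) (.g 18 15 0 8 14 false false), .t 1 (nat_lit 0) (.g 18 14 0 8 15 false false), .t 2 (nat_lit 0x1138) (.g 14 0 8 16 17 false true), .t 2 (nat_lit 0x1138) (.g 14 0 8 16 17 false false), .t 2 (nat_lit 0x113c)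 (.g 16 17 0 8 14 true false), .t 1 (nat_lit 0) (.g 17 16 0 8 14 false false), .t 1 (nat_lit 0) (.g 17 14 0 8 16 false false), .t 1 (nat_lit 0) (.st 8 14 16 17), .t 1 (nat_lit 0) (.st 8 14 17 16), .t 2 (nat_lit 0x1139) (.g 14 0 8 16 18 false false), .t 2 (nat_lit 0x113d) (.g 16 18 0 8 14 true false), .t 1 (nat_lit 0) (.g 18 16 0 8 14 false false), .t 1 (nat_lit 0) (.g 18 14 0 8 16 false false), .t 2 (nat_lit 0x1139) (.g 14 0 8 17 18 false false), .t 2 (nat_lit 0x113e) (.g 17 18 0 8 14 true false), .t 2 (nat_lit 0x113e) (.g 17 8 0 14 18 true true), .t 1 (nat_lit 0) (.g 18 17 0 8 14 false false), .t 1 (nat_lit 0) (.g 18 14 0 8 17 false false)] (by decide +kernel) (by decide +kernel)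
theorem b236 : B 15104 15168 := Blk.of_chk [.t 2 (nat_lit 0x113b) (.g 15 0 8 16 17 false false), .t 2 (nat_lit 0x113c) (.g 16 17 0 8 15 true false), .t 2 (nat_lit 0x113c) (.g 16 8 0 15 17 true true), .t 1 (nat_lit 0) (.g 17 16 0 8 15 false false), .t 1 (nat_lit 0) (.g 17 15 0 8 16 false false), .t 2 (nat_lit 0x1142) (.g 15 0 8 16 18 false false), .t 1 (nat_lit 0) (.g 18 16 0 8 15 false false), .t 1 (nat_lit 0) (.g 18 15 0 8 16 false false), .t 2 (nat_lit 0x113e) (.g 17 18 0 8 15 true false), .t 2 (nat_lit 0x113e) (.g 17 8 0 15 18 true true), .t 1 (nat_lit 0) (.g 18 17 0 8 15 false false), .t 1 (nat_lit 0) (.g 18 15 0 8 17 false false), .t 1 (nat_lit 0) (.st 8 15 18 17), .t 2 (nat_lit 0x113d) (.g 16 0 8 17 18 false true), .t 2 (nat_lit 0x113e) (.g 17 18 0 8 16 true false), .t 1 (nat_lit 0) (.g 18 17 0 8 16 false false), .t 1 (nat_lit 0)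 (.g 18 16 0 8 17 false false), .t 1 (nat_lit 0) (.g 11 0 9 10 12 false true), .t 1 (nat_lit 0) (.g 11 0 9 10 12 false false), .t 2 (nat_lit 0x1143) (.g 11 0 9 10 12 false true), .t 2 (nat_lit 0x1144) (.g 11 0 9 10 12 false false), .t 2 (nat_lit 0x1145) (.g 10 0 9 11 12 true false), .t 1 (nat_lit 0) (.g 11 0 9 10 13 false true), .t 2 (nat_lit 0x1146) (.g 11 0 9 10 13 false true), .t 2 (nat_lit 0x1147) (.g 11 0 9 10 13 false false), .t 2 (nat_lit 0x1148) (.g 10 0 9 11 13 true true), .t 2 (nat_lit 0x1148) (.g 10 0 9 11 13 true false), .t 1 (nat_lit 0) (.g 11 0 9 10 14 false false), .t 2 (nat_lit 0x1149) (.g 11 0 9 10 14 false true), .t 2 (nat_lit 0x114a) (.g 11 0 9 10 14 false false), .t 2 (nat_lit 0x114b) (.g 10 0 9 11 14 true true), .t 2 (nat_lit 0x114b) (.g 10 0 9 11 14 true false), .t 1 (nat_lit 0) (.g 11 0 9 10 15 false false), .t 2 (nat_lit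 0x114c) (.g 11 0 9 10 15 false false), .t 1 (nat_lit 0) (.g 9 15 0 10 11 false false), .t 2 (nat_lit 0x114d) (.g 10 0 9 11 15 true true), .t 1 (nat_lit 0) (.g 11 0 9 10 16 false false), .t 1 (nat_lit 0) (.g 11 0 9 10 16 false false), .t 2 (nat_lit 0x114e) (.g 11 0 9 10 16 false false), .t 1 (nat_lit 0) (.g 9 16 0 10 11 false false), .t 2 (nat_lit 0x114f) (.g 10 0 9 11 16 true true), .t 2 (nat_lit 0x1150) (.g 9 10 0 11 17 true true), .t 2 (nat_lit 0x1151) (.g 11 0 9 10 17 false true), .t 2 (nat_lit 0x1152) (.g 11 0 9 10 17 false false), .t 2 (nat_lit 0x1150) (.g 10 0 9 11 17 true true), .t 2 (nat_lit 0x1150) (.g 10 0 9 11 17 true false), .t 1 (nat_lit 0) (.g 10 9 0 11 18 false true), .t 1 (nat_lit 0) (.g 11 0 9 10 18 false true), .t 1 (nat_lit 0) (.g 11 0 9 10 18 false false), .t 2 (nat_lit 0x1153) (.g 11 0 9 10 18 false false), .t 1 (nat_lit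 0) (.g 9 18 0 10 11 false false), .t 2 (nat_lit 0x1148) (.g 13 9 0 10 12 true false), .t 2 (nat_lit 0x1148) (.g 13 10 0 9 12 true false), .t 2 (nat_lit 0x1154) (.g 0 11 9 12 13 true true), .t 2 (nat_lit 0x1155) (.g 0 11 9 12 13 true true), .t 3 (nat_lit 0x11561148) (.g 0 11 10 12 13 true true), .t 2 (nat_lit 0x114b) (.g 14 9 0 10 12 true false), .t 2 (nat_lit 0x114b) (.g 14 10 0 9 12 true false), .t 2 (nat_lit 0x1157) (.g 0 11 9 12 14 true true), .t 2 (nat_lit 0x1158) (.g 0 11 9 12 14 true true), .t 3 (nat_lit 0x1159114b) (.g 0 11 10 12 14 true true), .t 3 (nat_lit 0x115a114d) (.a 9 10 12 15 true), .t 2 (nat_lit 0x115b) (.g 0 11 9 12 15 true true), .t 2 (nat_lit 0x115c) (.g 0 11 9 12 15 true true)] (by decide +kernel) (by decide +kernel)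
theorem b237 : B 15168 15232 := Blk.of_chk [.t 3 (nat_lit 0x115d114d) (.g 0 11 10 12 15 true true), .t 2 (nat_lit 0x115e) (.g 0 11 9 12 16 true true), .t 2 (nat_lit 0x115f) (.g 0 11 9 12 16 true true), .t 3 (nat_lit 0x1160114f) (.g 0 11 10 12 16 true true), .t 2 (nat_lit 0x1150) (.g 9 10 0 12 17 true true), .t 2 (nat_lit 0x1150) (.g 17 10 0 9 12 true false), .t 2 (nat_lit 0x1161) (.g 0 11 9 12 17 true true), .t 2 (nat_lit 0x1145) (.g 10 9 0 12 18 false true), .t 3 (nat_lit 0x11631162) (.a 9 10 12 18 false), .t 2 (nat_lit 0x1162) (.g 18 9 0 10 12 true false), .t 2 (nat_lit 0x1162) (.g 18 10 0 9 12 true false), .t 2 (nat_lit 0x1164) (.g 0 11 9 12 18 true true), .t 3 (nat_lit 0x1165114b) (.a 9 10 13 14 true), .t 3 (nat_lit 0x1166114b) (.a 9 10 13 14 false), .t 2 (nat_lit 0x114b) (.g 14 10 0 9 13 true false), .t 2 (nat_lit 0x1167) (.g 0 11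 9 13 14 true true), .t 2 (nat_lit 0x1168) (.g 0 11 9 13 14 true true), .t 3 (nat_lit 0x1169114b) (.g 0 11 10 13 14 true true), .t 3 (nat_lit 0x116a1148) (.g 10 0 9 13 15 true false), .t 3 (nat_lit 0x116b114d) (.a 9 10 13 15 true), .t 3 (nat_lit 0x116c114d) (.a 9 10 13 15 false), .t 2 (nat_lit 0x116d) (.g 0 11 9 13 15 true true), .t 2 (nat_lit 0x116e) (.g 0 11 9 13 15 true true), .t 3 (nat_lit 0x116f114d) (.g 0 11 10 13 15 true true), .t 2 (nat_lit 0x1148) (.g 13 0 9 10 16 false false), .t 3 (nat_lit 0x1170114f) (.a 9 10 13 16 true), .t 3 (nat_lit 0x1171114f) (.a 9 10 13 16 false), .t 2 (nat_lit 0x1172) (.g 0 11 9 13 16 true true), .t 2 (nat_lit 0x1173) (.g 0 11 9 13 16 true true), .t 3 (nat_lit 0x1174114f) (.g 0 11 10 13 16 true true), .t 3 (nat_lit 0x1175114f) (.g 0 11 10 13 16 true true), .t 2 (nat_lit 0x1150) (.g 9 10 0 13 17 true true),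 .t 3 (nat_lit 0x11761148) (.g 10 0 9 13 17 true false), .t 3 (nat_lit 0x11771150) (.a 9 10 13 17 true), .t 3 (nat_lit 0x11781150) (.a 9 10 13 17 false), .t 2 (nat_lit 0x1150) (.g 17 10 0 9 13 true false), .t 2 (nat_lit 0x1179) (.g 0 11 9 13 17 true true), .t 2 (nat_lit 0x117a) (.g 0 11 9 13 17 true true), .t 3 (nat_lit 0x117b1150) (.g 0 11 10 13 17 true true), .t 2 (nat_lit 0x1148) (.g 13 0 9 10 18 false false), .t 3 (nat_lit 0x117c1162) (.a 9 10 13 18 true), .t 3 (nat_lit 0x117d1162) (.a 9 10 13 18 false), .t 2 (nat_lit 0x1162) (.g 18 10 0 9 13 true false), .t 2 (nat_lit 0x117e) (.g 0 11 9 13 18 true true), .t 2 (nat_lit 0x117f) (.g 0 11 9 13 18 true true), .t 3 (nat_lit 0x11801162) (.g 0 11 10 13 18 true true), .t 3 (nat_lit 0x11811162) (.g 0 11 10 13 18 true true), .t 2 (nat_lit 0x1182) (.g 0 11 9 14 15 true true), .t 2 (nat_lit 0x1183)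 (.g 0 11 9 14 15 true true), .t 3 (nat_lit 0x1184114d) (.g 0 11 10 14 15 true true), .t 3 (nat_lit 0x1185114f) (.a 9 10 14 16 false), .t 2 (nat_lit 0x114f) (.g 16 9 0 10 14 true false), .t 2 (nat_lit 0x1186) (.g 0 11 9 14 16 true true), .t 2 (nat_lit 0x1187) (.g 0 11 9 14 16 true true), .t 3 (nat_lit 0x1188114f) (.g 0 11 10 14 16 true true), .t 2 (nat_lit 0x114b) (.g 14 0 9 10 17 false false), .t 2 (nat_lit 0x1150) (.g 9 10 0 14 17 true true), .t 2 (nat_lit 0x1150) (.g 17 9 0 10 14 true false), .t 2 (nat_lit 0x1150) (.g 17 10 0 9 14 true false), .t 2 (nat_lit 0x1189) (.g 0 11 9 14 17 true true), .t 2 (nat_lit 0x118a) (.g 0 11 9 14 17 true true), .t 3 (nat_lit 0x118b1162) (.a 9 10 14 18 true), .t 3 (nat_lit 0x118c1162) (.a 9 10 14 18 false), .t 2 (nat_lit 0x1162) (.g 18 9 0 10 14 true false)] (by decide +kernel) (by decide +kernel)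
theorem b238 : B 15232 15296 := Blk.of_chk [.t 2 (nat_lit 0x1162) (.g 18 10 0 9 14 true false), .t 2 (nat_lit 0x118d) (.g 0 11 9 14 18 true true), .t 2 (nat_lit 0x118e) (.g 0 11 9 14 18 true true), .t 3 (nat_lit 0x118f1162) (.g 0 11 10 14 18 true true), .t 3 (nat_lit 0x11901162) (.g 0 11 10 14 18 true true), .t 3 (nat_lit 0x1191114f) (.a 9 10 15 16 true), .t 3 (nat_lit 0x1192114f) (.a 9 10 15 16 false), .t 2 (nat_lit 0x114f) (.g 16 10 0 9 15 true false), .t 2 (nat_lit 0x1193) (.g 0 11 9 15 16 true true), .t 2 (nat_lit 0x1194) (.g 0 11 9 15 16 true true), .t 3 (nat_lit 0x1195114f) (.g 0 11 10 15 16 true true), .t 2 (nat_lit 0x1150) (.g 9 10 0 15 17 true true), .t 2 (nat_lit 0x114d) (.g 10 9 0 15 17 false true), .t 2 (nat_lit 0x1150) (.g 17 9 0 10 15 true false), .t 2 (nat_lit 0x1150) (.g 17 10 0 9 15 true false), .t 2 (nat_lit 0x1196) (.g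 0 11 9 15 17 true true), .t 2 (nat_lit 0x1197) (.g 0 11 9 15 17 true true), .t 2 (nat_lit 0x114d) (.g 15 0 9 10 18 false false), .t 3 (nat_lit 0x11981162) (.a 9 10 15 18 false), .t 2 (nat_lit 0x1162) (.g 18 9 0 10 15 true false), .t 2 (nat_lit 0x1162) (.g 18 10 0 9 15 true false), .t 2 (nat_lit 0x1199) (.g 0 11 9 15 18 true true), .t 2 (nat_lit 0x119a) (.g 0 11 9 15 18 true true), .t 3 (nat_lit 0x119b1162) (.g 0 11 10 15 18 true true), .t 2 (nat_lit 0x1150) (.g 9 10 0 16 17 true true), .t 3 (nat_lit 0x119c1150) (.a 9 10 16 17 false), .t 2 (nat_lit 0x1150) (.g 17 10 0 9 16 true false), .t 2 (nat_lit 0x119d) (.g 0 11 9 16 17 true true), .t 2 (nat_lit 0x119e) (.g 0 11 9 16 17 true true), .t 3 (nat_lit 0x119f1162) (.a 9 10 16 18 false), .t 2 (nat_lit 0x1162) (.g 18 9 0 10 16 true false), .t 2 (nat_lit 0x1162) (.g 18 10 0 9 16 true false), .t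 2 (nat_lit 0x11a0) (.g 0 11 9 16 18 true true), .t 2 (nat_lit 0x11a1) (.g 0 11 9 16 18 true true), .t 3 (nat_lit 0x11a21150) (.a 9 10 17 18 true), .t 2 (nat_lit 0x1162) (.g 9 0 10 17 18 false false), .t 2 (nat_lit 0x11a3) (.g 0 11 10 17 18 true true), .t 3 (nat_lit 0x11a41162) (.a 9 10 17 18 true), .t 3 (nat_lit 0x11a51162) (.a 9 10 17 18 false), .t 2 (nat_lit 0x1162) (.g 18 10 0 9 17 true false), .t 2 (nat_lit 0x11a6) (.g 0 11 9 17 18 true true), .t 2 (nat_lit 0x11a7) (.g 0 11 9 17 18 true true), .t 3 (nat_lit 0x11a81162) (.g 0 11 10 17 18 true true), .t 1 (nat_lit 0) (.g 11 0 9 12 13 false false), .t 2 (nat_lit 0x11a9) (.g 12 9 0 11 13 true true), .t 1 (nat_lit 0) (.g 13 11 0 9 12 false false), .t 1 (nat_lit 0) (.st 9 11 12 13), .t 1 (nat_lit 0) (.g 11 0 9 12 14 false true), .t 1 (nat_lit 0) (.g 11 0 9 12 14 false false), .t 2 (nat_lit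 0x11aa) (.g 12 14 0 9 11 true false), .t 2 (nat_lit 0x11aa) (.g 12 9 0 11 14 true true), .t 1 (nat_lit 0) (.g 14 12 0 9 11 false false), .t 1 (nat_lit 0) (.g 14 11 0 9 12 false false), .t 1 (nat_lit 0) (.st 9 11 12 14), .t 1 (nat_lit 0) (.st 9 11 14 12), .t 1 (nat_lit 0) (.g 11 0 9 12 15 false true), .t 1 (nat_lit 0) (.g 11 0 9 12 15 false false), .t 2 (nat_lit 0x11ab) (.g 12 15 0 9 11 true false), .t 2 (nat_lit 0x11ab) (.g 12 9 0 11 15 true true), .t 1 (nat_lit 0) (.g 15 12 0 9 11 false false), .t 1 (nat_lit 0) (.g 15 11 0 9 12 false false), .t 1 (nat_lit 0) (.st 9 11 12 15), .t 1 (nat_lit 0) (.st 9 11 15 12), .t 1 (nat_lit 0) (.g 11 0 9 12 16 false true)] (by decide +kernel) (by decide +kernel)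
theorem b239 : B 15296 15360 := Blk.of_chk [.t 1 (nat_lit 0) (.g 11 0 9 12 16 false false), .t 2 (nat_lit 0x11ac) (.g 12 16 0 9 11 true false), .t 2 (nat_lit 0x11ac) (.g 12 9 0 11 16 true true), .t 1 (nat_lit 0) (.g 16 11 0 9 12 false false), .t 1 (nat_lit 0) (.st 9 11 12 16), .t 1 (nat_lit 0) (.st 9 11 16 12), .t 1 (nat_lit 0) (.g 11 0 9 12 17 false true), .t 1 (nat_lit 0) (.g 11 0 9 12 17 false false), .t 2 (nat_lit 0x11ad) (.g 12 17 0 9 11 true false), .t 2 (nat_lit 0x11ad) (.g 12 9 0 11 17 true true), .t 1 (nat_lit 0) (.g 17 12 0 9 11 false false), .t 1 (nat_lit 0) (.g 17 11 0 9 12 false false), .t 1 (nat_lit 0) (.st 9 11 12 17), .t 1 (nat_lit 0) (.st 9 11 17 12), .t 1 (nat_lit 0) (.g 11 0 9 12 18 false true), .t 1 (nat_lit 0) (.g 11 0 9 12 18 false false), .t 2 (nat_lit 0x11ae) (.g 12 18 0 9 11 true false), .t 2 (nat_lit 0x11ae) (.g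 12 9 0 11 18 true true), .t 1 (nat_lit 0) (.g 18 12 0 9 11 false false), .t 1 (nat_lit 0) (.g 18 11 0 9 12 false false), .t 1 (nat_lit 0) (.st 9 11 12 18), .t 1 (nat_lit 0) (.st 9 11 18 12), .t 1 (nat_lit 0) (.g 11 0 9 13 14 false true), .t 1 (nat_lit 0) (.g 11 0 9 13 14 false false), .t 2 (nat_lit 0x11af) (.g 13 14 0 9 11 true false), .t 2 (nat_lit 0x11af) (.g 13 9 0 11 14 true true), .t 1 (nat_lit 0) (.g 14 13 0 9 11 false false), .t 1 (nat_lit 0) (.g 14 11 0 9 13 false false), .t 1 (nat_lit 0) (.st 9 11 13 14), .t 1 (nat_lit 0) (.g 13 15 0 9 11 true false), .t 1 (nat_lit 0) (.g 11 0 9 13 15 false true), .t 1 (nat_lit 0) (.g 11 0 9 13 15 false false), .t 2 (nat_lit 0x11b0) (.g 13 15 0 9 11 true false), .t 2 (nat_lit 0x11b0) (.g 13 9 0 11 15 true true), .t 1 (nat_lit 0) (.g 15 13 0 9 11 false false), .t 1 (nat_lit 0) (.g 15 11 0 9 13 false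 false), .t 1 (nat_lit 0) (.st 9 11 15 13), .t 1 (nat_lit 0) (.g 11 0 9 13 16 false true), .t 1 (nat_lit 0) (.g 11 0 9 13 16 false false), .t 2 (nat_lit 0x11b1) (.g 13 16 0 9 11 true false), .t 2 (nat_lit 0x11b1) (.g 13 9 0 11 16 true true), .t 1 (nat_lit 0) (.g 16 13 0 9 11 false false), .t 1 (nat_lit 0) (.g 16 11 0 9 13 false false), .t 1 (nat_lit 0) (.st 9 11 13 16), .t 1 (nat_lit 0) (.st 9 11 16 13), .t 1 (nat_lit 0) (.g 11 0 9 13 17 false true), .t 1 (nat_lit 0) (.g 11 0 9 13 17 false false), .t 2 (nat_lit 0x11b2) (.g 13 17 0 9 11 true false), .t 2 (nat_lit 0x11b2) (.g 13 9 0 11 17 true true), .t 1 (nat_lit 0) (.g 17 13 0 9 11 false false), .t 1 (nat_lit 0) (.g 17 11 0 9 13 false false), .t 1 (nat_lit 0) (.st 9 11 13 17), .t 1 (nat_lit 0) (.st 9 11 17 13), .t 1 (nat_lit 0) (.g 11 0 9 13 18 false true), .t 2 (nat_lit 0x11b3) (.g 13 18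 0 9 11 true false), .t 2 (nat_lit 0x11b3) (.g 13 9 0 11 18 true true), .t 1 (nat_lit 0) (.g 18 13 0 9 11 false false), .t 1 (nat_lit 0) (.g 18 11 0 9 13 false false), .t 1 (nat_lit 0) (.st 9 11 13 18), .t 1 (nat_lit 0) (.st 9 11 18 13), .t 1 (nat_lit 0) (.g 14 15 0 9 11 true false), .t 1 (nat_lit 0) (.g 11 0 9 14 15 false true), .t 1 (nat_lit 0) (.g 11 0 9 14 15 false false), .t 2 (nat_lit 0x11b4) (.g 14 15 0 9 11 true false)] (by decide +kernel) (by decide +kernel)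
theorem b240 : B 15360 15424 := Blk.of_chk [.t 2 (nat_lit 0x11b4) (.g 14 9 0 11 15 true true), .t 1 (nat_lit 0) (.g 15 14 0 9 11 false false), .t 1 (nat_lit 0) (.g 15 11 0 9 14 false false), .t 1 (nat_lit 0) (.st 9 11 14 15), .t 1 (nat_lit 0) (.st 9 11 15 14), .t 1 (nat_lit 0) (.g 11 0 9 14 16 false true), .t 1 (nat_lit 0) (.g 11 0 9 14 16 false false), .t 2 (nat_lit 0x11b5) (.g 14 16 0 9 11 true false), .t 2 (nat_lit 0x11b5) (.g 14 9 0 11 16 true true), .t 1 (nat_lit 0) (.g 16 14 0 9 11 false false), .t 1 (nat_lit 0) (.g 16 11 0 9 14 false false), .t 1 (nat_lit 0) (.st 9 11 14 16), .t 1 (nat_lit 0) (.st 9 11 16 14), .t 1 (nat_lit 0) (.g 11 0 9 14 17 false true), .t 1 (nat_lit 0) (.g 11 0 9 14 17 false false), .t 2 (nat_lit 0x11b6) (.g 14 17 0 9 11 true false), .t 2 (nat_lit 0x11b6) (.g 14 9 0 11 17 true true), .t 1 (nat_lit 0) (.g 17 14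 0 9 11 false false), .t 1 (nat_lit 0) (.g 17 11 0 9 14 false false), .t 1 (nat_lit 0) (.st 9 11 14 17), .t 1 (nat_lit 0) (.st 9 11 17 14), .t 1 (nat_lit 0) (.g 11 0 9 14 18 false true), .t 1 (nat_lit 0) (.g 11 0 9 14 18 false true), .t 1 (nat_lit 0) (.g 11 0 9 14 18 false false), .t 2 (nat_lit 0x11b7) (.g 14 18 0 9 11 true false), .t 2 (nat_lit 0x11b7) (.g 14 9 0 11 18 true true), .t 1 (nat_lit 0) (.g 18 14 0 9 11 false false), .t 1 (nat_lit 0) (.g 18 11 0 9 14 false false), .t 1 (nat_lit 0) (.st 9 11 14 18), .t 1 (nat_lit 0) (.st 9 11 18 14), .t 1 (nat_lit 0) (.g 11 0 9 15 16 false true), .t 1 (nat_lit 0) (.g 11 0 9 15 16 false false), .t 2 (nat_lit 0x11b8) (.g 15 16 0 9 11 true false), .t 2 (nat_lit 0x11b8) (.g 15 9 0 11 16 true true), .t 1 (nat_lit 0) (.g 16 15 0 9 11 false false), .t 1 (nat_lit 0) (.g 16 11 0 9 15 false false), .t 1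 (nat_lit 0) (.st 9 11 15 16), .t 1 (nat_lit 0) (.st 9 11 16 15), .t 1 (nat_lit 0) (.g 11 0 9 15 17 false true), .t 1 (nat_lit 0) (.g 11 0 9 15 17 false false), .t 2 (nat_lit 0x11b9) (.g 15 17 0 9 11 true false), .t 2 (nat_lit 0x11b9) (.g 15 9 0 11 17 true true), .t 1 (nat_lit 0) (.g 17 15 0 9 11 false false), .t 1 (nat_lit 0) (.g 17 11 0 9 15 false false), .t 1 (nat_lit 0) (.st 9 11 15 17), .t 1 (nat_lit 0) (.st 9 11 17 15), .t 1 (nat_lit 0) (.g 15 18 0 9 11 true false), .t 1 (nat_lit 0) (.g 11 0 9 15 18 false true), .t 1 (nat_lit 0) (.g 11 0 9 15 18 false false), .t 2 (nat_lit 0x11ba) (.g 15 18 0 9 11 true false), .t 2 (nat_lit 0x11ba) (.g 15 9 0 11 18 true true), .t 1 (nat_lit 0) (.g 18 15 0 9 11 false false), .t 1 (nat_lit 0) (.g 18 11 0 9 15 false false), .t 1 (nat_lit 0) (.st 9 11 15 18), .t 1 (nat_lit 0) (.st 9 11 18 15), .t 1 (nat_lit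 0) (.g 11 0 9 16 17 false true), .t 1 (nat_lit 0) (.g 11 0 9 16 17 false false), .t 2 (nat_lit 0x11bb) (.g 16 17 0 9 11 true false), .t 2 (nat_lit 0x11bb) (.g 16 9 0 11 17 true true), .t 1 (nat_lit 0) (.g 17 16 0 9 11 false false), .t 1 (nat_lit 0) (.g 17 11 0 9 16 false false), .t 1 (nat_lit 0) (.st 9 11 16 17), .t 1 (nat_lit 0) (.st 9 11 17 16), .t 1 (nat_lit 0) (.g 11 0 9 16 18 false true)] (by decide +kernel) (by decide +kernel)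
theorem b241 : B 15424 15488 := Blk.of_chk [.t 2 (nat_lit 0x11bc) (.g 16 18 0 9 11 true false), .t 2 (nat_lit 0x11bc) (.g 16 9 0 11 18 true true), .t 1 (nat_lit 0) (.g 18 16 0 9 11 false false), .t 1 (nat_lit 0) (.g 18 11 0 9 16 false false), .t 1 (nat_lit 0) (.st 9 11 16 18), .t 1 (nat_lit 0) (.st 9 11 18 16), .t 1 (nat_lit 0) (.g 11 0 9 17 18 false true), .t 2 (nat_lit 0x11bd) (.g 17 18 0 9 11 true false), .t 2 (nat_lit 0x11bd) (.g 17 9 0 11 18 true true), .t 1 (nat_lit 0) (.g 18 17 0 9 11 false false), .t 1 (nat_lit 0) (.g 18 11 0 9 17 false false), .t 1 (nat_lit 0) (.st 9 11 17 18), .t 1 (nat_lit 0) (.st 9 11 18 17), .t 2 (nat_lit 0x11aa) (.g 12 0 9 13 14 false true), .t 2 (nat_lit 0x11af) (.g 13 14 0 9 12 true false), .t 1 (nat_lit 0) (.g 14 13 0 9 12 false false), .t 2 (nat_lit 0x11ab) (.g 12 0 9 13 15 false true), .t 2 (nat_lit 0x11b0)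 (.g 13 15 0 9 12 true false), .t 2 (nat_lit 0x11b0) (.g 13 9 0 12 15 true true), .t 1 (nat_lit 0) (.g 15 13 0 9 12 false false), .t 1 (nat_lit 0) (.g 15 12 0 9 13 false false), .t 1 (nat_lit 0) (.st 9 12 13 15), .t 2 (nat_lit 0x11ac) (.g 12 0 9 13 16 false true), .t 2 (nat_lit 0x11b1) (.g 13 16 0 9 12 true false), .t 2 (nat_lit 0x11b1) (.g 13 9 0 12 16 true true), .t 2 (nat_lit 0x11ad) (.g 12 0 9 13 17 false true), .t 2 (nat_lit 0x11ad) (.g 12 0 9 13 17 false false), .t 2 (nat_lit 0x11b2) (.g 13 17 0 9 12 true false), .t 2 (nat_lit 0x11b2) (.g 13 9 0 12 17 true true), .t 1 (nat_lit 0) (.g 17 13 0 9 12 false false), .t 1 (nat_lit 0) (.st 9 12 17 13), .t 2 (nat_lit 0x11ae) (.g 12 0 9 13 18 false true), .t 2 (nat_lit 0x11ae) (.g 12 0 9 13 18 false false), .t 2 (nat_lit 0x11b3) (.g 13 18 0 9 12 true false), .t 2 (nat_lit 0x11b3) (.g 13 9 0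 12 18 true true), .t 1 (nat_lit 0) (.g 18 13 0 9 12 false false), .t 1 (nat_lit 0) (.g 18 12 0 9 13 false false), .t 1 (nat_lit 0) (.st 9 12 18 13), .t 2 (nat_lit 0x11ab) (.g 12 0 9 14 15 false true), .t 2 (nat_lit 0x11b4) (.g 14 15 0 9 12 true false), .t 2 (nat_lit 0x11b4) (.g 14 9 0 12 15 true true), .t 1 (nat_lit 0) (.g 15 14 0 9 12 false false), .t 1 (nat_lit 0) (.st 9 12 14 15), .t 1 (nat_lit 0) (.st 9 12 15 14), .t 2 (nat_lit 0x11ac) (.g 12 0 9 14 16 false true), .t 2 (nat_lit 0x11b5) (.g 14 16 0 9 12 true false), .t 2 (nat_lit 0x11b5) (.g 14 9 0 12 16 true true), .t 1 (nat_lit 0) (.g 16 14 0 9 12 false false), .t 1 (nat_lit 0) (.g 16 12 0 9 14 false false), .t 1 (nat_lit 0) (.st 9 12 14 16), .t 1 (nat_lit 0) (.st 9 12 16 14), .t 2 (nat_lit 0x11ad) (.g 12 0 9 14 17 false true), .t 2 (nat_lit 0x11b6) (.g 14 17 0 9 12 true false), .t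 1 (nat_lit 0) (.g 17 14 0 9 12 false false), .t 1 (nat_lit 0) (.g 17 12 0 9 14 false false), .t 1 (nat_lit 0) (.st 9 12 14 17), .t 1 (nat_lit 0) (.st 9 12 17 14), .t 2 (nat_lit 0x11ae) (.g 12 0 9 14 18 false true), .t 2 (nat_lit 0x11ae) (.g 12 0 9 14 18 false false), .t 2 (nat_lit 0x11b7) (.g 14 18 0 9 12 true false), .t 2 (nat_lit 0x11b7) (.g 14 9 0 12 18 true true), .t 1 (nat_lit 0) (.g 18 14 0 9 12 false false), .t 1 (nat_lit 0) (.g 18 12 0 9 14 false false), .t 1 (nat_lit 0) (.st 9 12 14 18)] (by decide +kernel) (by decide +kernel)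
theorem b242 : B 15488 15552 := Blk.of_chk [.t 1 (nat_lit 0) (.st 9 12 18 14), .t 2 (nat_lit 0x11ac) (.g 12 0 9 15 16 false true), .t 2 (nat_lit 0x11ac) (.g 12 0 9 15 16 false false), .t 2 (nat_lit 0x11b8) (.g 15 16 0 9 12 true false), .t 2 (nat_lit 0x11b8) (.g 15 9 0 12 16 true true), .t 1 (nat_lit 0) (.g 16 15 0 9 12 false false), .t 1 (nat_lit 0) (.g 16 12 0 9 15 false false), .t 1 (nat_lit 0) (.st 9 12 15 16), .t 1 (nat_lit 0) (.st 9 12 16 15), .t 2 (nat_lit 0x11ad) (.g 12 0 9 15 17 false true), .t 2 (nat_lit 0x11b9) (.g 15 17 0 9 12 true false), .t 2 (nat_lit 0x11b9) (.g 15 9 0 12 17 true true), .t 1 (nat_lit 0) (.g 17 15 0 9 12 false false), .t 1 (nat_lit 0) (.g 17 12 0 9 15 false false), .t 1 (nat_lit 0) (.st 9 12 15 17), .t 1 (nat_lit 0) (.st 9 12 17 15), .t 2 (nat_lit 0x11ae) (.g 12 0 9 15 18 false true), .t 2 (nat_lit 0x11ba)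 (.g 15 18 0 9 12 true false), .t 2 (nat_lit 0x11ba) (.g 15 9 0 12 18 true true), .t 1 (nat_lit 0) (.g 18 15 0 9 12 false false), .t 1 (nat_lit 0) (.g 18 12 0 9 15 false false), .t 1 (nat_lit 0) (.st 9 12 18 15), .t 2 (nat_lit 0x11ad) (.g 12 0 9 16 17 false true), .t 2 (nat_lit 0x11ad) (.g 12 0 9 16 17 false false), .t 2 (nat_lit 0x11bb) (.g 16 17 0 9 12 true false), .t 2 (nat_lit 0x11bb) (.g 16 9 0 12 17 true true), .t 1 (nat_lit 0) (.g 17 16 0 9 12 false false), .t 1 (nat_lit 0) (.g 17 12 0 9 16 false false), .t 1 (nat_lit 0) (.st 9 12 16 17), .t 1 (nat_lit 0) (.st 9 12 17 16), .t 2 (nat_lit 0x11ae) (.g 12 0 9 16 18 false true), .t 2 (nat_lit 0x11bc) (.g 16 18 0 9 12 true false), .t 2 (nat_lit 0x11bc) (.g 16 9 0 12 18 true true), .t 1 (nat_lit 0) (.g 18 16 0 9 12 false false), .t 1 (nat_lit 0) (.g 18 12 0 9 16 false false), .t 1 (nat_lit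 0) (.st 9 12 16 18), .t 1 (nat_lit 0) (.st 9 12 18 16), .t 2 (nat_lit 0x11ae) (.g 12 0 9 17 18 false true), .t 2 (nat_lit 0x11bd) (.g 17 18 0 9 12 true false), .t 2 (nat_lit 0x11bd) (.g 17 9 0 12 18 true true), .t 1 (nat_lit 0) (.g 18 12 0 9 17 false false), .t 1 (nat_lit 0) (.st 9 12 18 17), .t 2 (nat_lit 0x11af) (.g 13 0 9 14 15 false true), .t 2 (nat_lit 0x11b0) (.g 13 0 9 14 15 false true), .t 2 (nat_lit 0x11b0) (.g 13 0 9 14 15 false false), .t 2 (nat_lit 0x11b4) (.g 14 15 0 9 13 true false), .t 2 (nat_lit 0x11b4) (.g 14 9 0 13 15 true true), .t 1 (nat_lit 0) (.g 15 13 0 9 14 false false), .t 1 (nat_lit 0) (.st 9 13 14 15), .t 2 (nat_lit 0x11af) (.g 13 0 9 14 16 false false), .t 2 (nat_lit 0x11af) (.g 13 0 9 14 16 false true), .t 2 (nat_lit 0x11b1) (.g 13 0 9 14 16 false true), .t 2 (nat_lit 0x11b1) (.g 13 0 9 14 16 false false), .t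 2 (nat_lit 0x11b5) (.g 14 16 0 9 13 true false), .t 2 (nat_lit 0x11b5) (.g 14 9 0 13 16 true true), .t 1 (nat_lit 0) (.g 16 13 0 9 14 false false), .t 1 (nat_lit 0) (.st 9 13 14 16), .t 2 (nat_lit 0x11af) (.g 13 0 9 14 17 false true), .t 2 (nat_lit 0x11b2) (.g 13 0 9 14 17 false true), .t 2 (nat_lit 0x11b2) (.g 13 0 9 14 17 false false), .t 2 (nat_lit 0x11b6) (.g 14 17 0 9 13 true false), .t 2 (nat_lit 0x11b6) (.g 14 9 0 13 17 true true), .t 1 (nat_lit 0) (.g 17 14 0 9 13 false false), .t 1 (nat_lit 0) (.g 17 13 0 9 14 false false)] (by decide +kernel) (by decide +kernel)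
theorem b243 : B 15552 15616 := Blk.of_chk [.t 2 (nat_lit 0x11af) (.g 13 0 9 14 18 false true), .t 2 (nat_lit 0x11b3) (.g 13 0 9 14 18 false true), .t 2 (nat_lit 0x11b3) (.g 13 0 9 14 18 false false), .t 2 (nat_lit 0x11b7) (.g 14 18 0 9 13 true false), .t 2 (nat_lit 0x11b7) (.g 14 9 0 13 18 true true), .t 1 (nat_lit 0) (.g 18 14 0 9 13 false false), .t 1 (nat_lit 0) (.g 18 13 0 9 14 false false), .t 1 (nat_lit 0) (.st 9 13 14 18), .t 1 (nat_lit 0) (.st 9 13 18 14), .t 2 (nat_lit 0x11b1) (.g 13 0 9 15 16 false true), .t 2 (nat_lit 0x11b1) (.g 13 0 9 15 16 false false), .t 2 (nat_lit 0x11b8) (.g 15 16 0 9 13 true false), .t 2 (nat_lit 0x11b8) (.g 15 9 0 13 16 true true), .t 1 (nat_lit 0) (.g 16 15 0 9 13 false false), .t 1 (nat_lit 0) (.g 16 13 0 9 15 false false), .t 1 (nat_lit 0) (.st 9 13 15 16), .t 1 (nat_lit 0) (.sx 9 0 13 15), .t 2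 (nat_lit 0x11b2) (.g 13 0 9 15 17 false true), .t 2 (nat_lit 0x11b2) (.g 13 0 9 15 17 false false), .t 2 (nat_lit 0x11b9) (.g 15 17 0 9 13 true false), .t 2 (nat_lit 0x11b9) (.g 15 9 0 13 17 true true), .t 1 (nat_lit 0) (.g 17 13 0 9 15 false false), .t 1 (nat_lit 0) (.st 9 13 15 17), .t 1 (nat_lit 0) (.g 15 18 0 9 13 true false), .t 2 (nat_lit 0x11b3) (.g 13 0 9 15 18 false true), .t 2 (nat_lit 0x11b3) (.g 13 0 9 15 18 false false), .t 2 (nat_lit 0x11ba) (.g 15 18 0 9 13 true false), .t 2 (nat_lit 0x11ba) (.g 15 9 0 13 18 true true), .t 1 (nat_lit 0) (.g 18 15 0 9 13 false false), .t 1 (nat_lit 0) (.g 18 13 0 9 15 false false), .t 1 (nat_lit 0) (.st 9 13 15 18), .t 1 (nat_lit 0) (.st 9 13 18 15), .t 1 (nat_lit 0) (.g 13 0 9 16 17 false false), .t 2 (nat_lit 0x11b2) (.g 13 0 9 16 17 false true), .t 2 (nat_lit 0x11b2) (.g 13 0 9 16 17 false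 false), .t 2 (nat_lit 0x11bb) (.g 16 17 0 9 13 true false), .t 2 (nat_lit 0x11bb) (.g 16 9 0 13 17 true true), .t 1 (nat_lit 0) (.g 17 16 0 9 13 false false), .t 1 (nat_lit 0) (.g 17 13 0 9 16 false false), .t 1 (nat_lit 0) (.g 13 0 9 16 18 false false), .t 2 (nat_lit 0x11b3) (.g 13 0 9 16 18 false true), .t 2 (nat_lit 0x11b3) (.g 13 0 9 16 18 false false), .t 2 (nat_lit 0x11bc) (.g 16 18 0 9 13 true false), .t 2 (nat_lit 0x11bc) (.g 16 9 0 13 18 true true), .t 1 (nat_lit 0) (.g 18 16 0 9 13 false false), .t 1 (nat_lit 0) (.g 18 13 0 9 16 false false), .t 1 (nat_lit 0) (.st 9 13 18 16), .t 1 (nat_lit 0) (.g 13 0 9 17 18 false false), .t 2 (nat_lit 0x11bd) (.g 9 18 0 13 17 true true), .t 2 (nat_lit 0x11b3) (.g 13 0 9 17 18 false true), .t 2 (nat_lit 0x11b3) (.g 13 0 9 17 18 false false), .t 2 (nat_lit 0x11bd) (.g 17 18 0 9 13 true false),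 .t 2 (nat_lit 0x11bd) (.g 17 9 0 13 18 true true), .t 1 (nat_lit 0) (.g 18 17 0 9 13 false false), .t 1 (nat_lit 0) (.g 18 13 0 9 17 false false), .t 1 (nat_lit 0) (.st 9 13 17 18), .t 1 (nat_lit 0) (.g 15 14 0 9 16 false true), .t 2 (nat_lit 0x11b5) (.g 14 0 9 15 16 false true), .t 2 (nat_lit 0x11b5) (.g 14 0 9 15 16 false false), .t 2 (nat_lit 0x11b8) (.g 15 16 0 9 14 true false), .t 2 (nat_lit 0x11b8) (.g 15 9 0 14 16 true true), .t 1 (nat_lit 0) (.g 16 15 0 9 14 false false), .t 1 (nat_lit 0) (.g 16 14 0 9 15 false false), .t 1 (nat_lit 0) (.st 9 14 15 16)] (by decide +kernel) (by decide +kernel)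
theorem b244 : B 15616 15680 := Blk.of_chk [.t 1 (nat_lit 0) (.st 9 14 16 15), .t 1 (nat_lit 0) (.g 15 14 0 9 17 false true), .t 2 (nat_lit 0x11b6) (.g 14 0 9 15 17 false true), .t 2 (nat_lit 0x11b6) (.g 14 0 9 15 17 false false), .t 2 (nat_lit 0x11b9) (.g 15 17 0 9 14 true false), .t 2 (nat_lit 0x11b9) (.g 15 9 0 14 17 true true), .t 1 (nat_lit 0) (.g 17 15 0 9 14 false false), .t 1 (nat_lit 0) (.g 17 14 0 9 15 false false), .t 1 (nat_lit 0) (.st 9 14 15 17), .t 1 (nat_lit 0) (.st 9 14 17 15), .t 1 (nat_lit 0) (.g 15 14 0 9 18 false true), .t 2 (nat_lit 0x11b7) (.g 14 0 9 15 18 false true), .t 2 (nat_lit 0x11b7) (.g 14 0 9 15 18 false false), .t 2 (nat_lit 0x11ba) (.g 15 18 0 9 14 true false), .t 2 (nat_lit 0x11ba) (.g 15 9 0 14 18 true true), .t 1 (nat_lit 0) (.g 18 15 0 9 14 false false), .t 1 (nat_lit 0) (.g 18 14 0 9 15 false false),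 .t 1 (nat_lit 0) (.st 9 14 15 18), .t 1 (nat_lit 0) (.st 9 14 18 15), .t 2 (nat_lit 0x11b6) (.g 14 0 9 16 17 false true), .t 2 (nat_lit 0x11b6) (.g 14 0 9 16 17 false false), .t 2 (nat_lit 0x11bb) (.g 16 17 0 9 14 true false), .t 2 (nat_lit 0x11bb) (.g 16 9 0 14 17 true true), .t 1 (nat_lit 0) (.g 17 16 0 9 14 false false), .t 1 (nat_lit 0) (.g 17 14 0 9 16 false false), .t 1 (nat_lit 0) (.st 9 14 17 16), .t 2 (nat_lit 0x11b7) (.g 14 0 9 16 18 false true), .t 2 (nat_lit 0x11b7) (.g 14 0 9 16 18 false false), .t 2 (nat_lit 0x11bc) (.g 16 18 0 9 14 true false), .t 2 (nat_lit 0x11bc) (.g 16 9 0 14 18 true true), .t 1 (nat_lit 0) (.g 18 16 0 9 14 false false), .t 1 (nat_lit 0) (.g 18 14 0 9 16 false false), .t 1 (nat_lit 0) (.st 9 14 18 16), .t 2 (nat_lit 0x11b7) (.g 14 0 9 17 18 false true), .t 2 (nat_lit 0x11b7) (.g 14 0 9 17 18 false false),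 .t 2 (nat_lit 0x11bd) (.g 17 18 0 9 14 true false), .t 2 (nat_lit 0x11bd) (.g 17 9 0 14 18 true true), .t 1 (nat_lit 0) (.g 18 17 0 9 14 false false), .t 1 (nat_lit 0) (.g 18 14 0 9 17 false false), .t 1 (nat_lit 0) (.st 9 14 18 17), .t 2 (nat_lit 0x11b9) (.g 15 0 9 16 17 false true), .t 2 (nat_lit 0x11b9) (.g 15 0 9 16 17 false false), .t 2 (nat_lit 0x11bb) (.g 16 17 0 9 15 true false), .t 2 (nat_lit 0x11bb) (.g 16 9 0 15 17 true true), .t 1 (nat_lit 0) (.g 17 16 0 9 15 false false), .t 1 (nat_lit 0) (.g 17 15 0 9 16 false false), .t 1 (nat_lit 0) (.st 9 15 16 17), .t 2 (nat_lit 0x11ba) (.g 15 0 9 16 18 false true), .t 2 (nat_lit 0x11ba) (.g 15 0 9 16 18 false false), .t 2 (nat_lit 0x11bc) (.g 16 18 0 9 15 true false), .t 2 (nat_lit 0x11bc) (.g 16 9 0 15 18 true true), .t 1 (nat_lit 0) (.g 18 16 0 9 15 false false), .t 1 (nat_lit 0) (.g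 18 15 0 9 16 false false), .t 1 (nat_lit 0) (.st 9 15 16 18), .t 1 (nat_lit 0) (.st 9 15 18 16), .t 2 (nat_lit 0x11ba) (.g 15 0 9 17 18 false true), .t 2 (nat_lit 0x11bd) (.g 17 18 0 9 15 true false), .t 2 (nat_lit 0x11bd) (.g 17 9 0 15 18 true true), .t 1 (nat_lit 0) (.g 18 17 0 9 15 false false), .t 1 (nat_lit 0) (.g 18 15 0 9 17 false false), .t 1 (nat_lit 0) (.st 9 15 17 18), .t 1 (nat_lit 0) (.st 9 15 18 17), .t 2 (nat_lit 0x11bb) (.g 17 9 0 16 18 false true), .t 2 (nat_lit 0x11bc) (.g 16 0 9 17 18 false false)] (by decide +kernel) (by decide +kernel)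
theorem b245 : B 15680 15744 := Blk.of_chk [.t 2 (nat_lit 0x11bd) (.g 17 18 0 9 16 true false), .t 2 (nat_lit 0x11bd) (.g 17 9 0 16 18 true true), .t 1 (nat_lit 0) (.g 18 16 0 9 17 false false), .t 1 (nat_lit 0) (.st 9 16 17 18), .t 1 (nat_lit 0) (.st 9 16 18 17), .t 1 (nat_lit 0) (.g 11 0 10 12 13 false false), .t 2 (nat_lit 0x11be) (.g 12 10 0 11 13 true true), .t 1 (nat_lit 0) (.g 13 11 0 10 12 false false), .t 1 (nat_lit 0) (.g 11 0 10 12 14 false true), .t 1 (nat_lit 0) (.g 11 0 10 12 14 false false), .t 2 (nat_lit 0x11bf) (.g 12 14 0 10 11 true false), .t 1 (nat_lit 0) (.g 14 11 0 10 12 false false), .t 1 (nat_lit 0) (.st 10 11 14 12), .t 1 (nat_lit 0) (.g 11 0 10 12 15 false true), .t 2 (nat_lit 0x11c0) (.g 12 15 0 10 11 true false), .t 1 (nat_lit 0) (.g 15 11 0 10 12 false false), .t 1 (nat_lit 0) (.g 11 0 10 12 16 false true),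 .t 2 (nat_lit 0x11c1) (.g 12 16 0 10 11 true false), .t 1 (nat_lit 0) (.g 16 11 0 10 12 false false), .t 1 (nat_lit 0) (.g 17 11 0 10 12 false false), .t 2 (nat_lit 0x11c2) (.g 12 18 0 10 11 true false), .t 1 (nat_lit 0) (.g 18 11 0 10 12 false false), .t 1 (nat_lit 0) (.g 11 0 10 13 14 false true), .t 1 (nat_lit 0) (.g 11 0 10 13 14 false false), .t 2 (nat_lit 0x11c3) (.g 13 14 0 10 11 true false), .t 2 (nat_lit 0x11c3) (.g 13 10 0 11 14 true true), .t 1 (nat_lit 0) (.g 14 13 0 10 11 false false), .t 1 (nat_lit 0) (.g 14 11 0 10 13 false false), .t 1 (nat_lit 0) (.st 10 11 13 14), .t 1 (nat_lit 0) (.g 11 0 10 13 15 false true), .t 1 (nat_lit 0) (.g 11 0 10 13 15 false false), .t 2 (nat_lit 0x11c4) (.g 13 15 0 10 11 true false), .t 2 (nat_lit 0x11c4) (.g 13 10 0 11 15 true true), .t 1 (nat_lit 0) (.g 15 11 0 10 13 false false), .t 1 (nat_lit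 0) (.st 10 11 13 15), .t 1 (nat_lit 0) (.g 11 0 10 13 16 false true), .t 2 (nat_lit 0x11c5) (.g 13 16 0 10 11 true false), .t 2 (nat_lit 0x11c5) (.g 13 10 0 11 16 true true), .t 1 (nat_lit 0) (.g 16 13 0 10 11 false false), .t 1 (nat_lit 0) (.g 16 11 0 10 13 false false), .t 1 (nat_lit 0) (.g 11 0 10 13 17 false true), .t 1 (nat_lit 0) (.g 11 0 10 13 17 false false), .t 2 (nat_lit 0x11c6) (.g 13 17 0 10 11 true false), .t 2 (nat_lit 0x11c6) (.g 13 10 0 11 17 true true), .t 1 (nat_lit 0) (.g 17 13 0 10 11 false false), .t 1 (nat_lit 0) (.g 17 11 0 10 13 false false), .t 1 (nat_lit 0) (.g 11 0 10 13 18 false false), .t 2 (nat_lit 0x11c7) (.g 13 10 0 11 18 true true), .t 1 (nat_lit 0) (.g 18 13 0 10 11 false false), .t 1 (nat_lit 0) (.g 18 11 0 10 13 false false), .t 1 (nat_lit 0) (.st 10 11 18 13), .t 1 (nat_lit 0) (.g 11 0 10 14 15 false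 true), .t 1 (nat_lit 0) (.g 11 0 10 14 15 false false), .t 2 (nat_lit 0x11c8) (.g 14 15 0 10 11 true false), .t 2 (nat_lit 0x11c8) (.g 14 10 0 11 15 true true), .t 1 (nat_lit 0) (.g 15 11 0 10 14 false false), .t 1 (nat_lit 0) (.st 10 11 14 15), .t 1 (nat_lit 0) (.g 11 0 10 14 16 false true), .t 1 (nat_lit 0) (.g 11 0 10 14 16 false false), .t 2 (nat_lit 0x11c9) (.g 14 16 0 10 11 true false), .t 2 (nat_lit 0x11c9) (.g 14 10 0 11 16 true true), .t 1 (nat_lit 0) (.st 10 11 14 16), .t 1 (nat_lit 0) (.g 11 0 10 14 17 false true), .t 1 (nat_lit 0) (.g 11 0 10 14 17 false false)] (by decide +kernel) (by decide +kernel)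
theorem b246 : B 15744 15808 := Blk.of_chk [.t 2 (nat_lit 0x11ca) (.g 14 17 0 10 11 true false), .t 2 (nat_lit 0x11ca) (.g 14 10 0 11 17 true true), .t 1 (nat_lit 0) (.g 17 14 0 10 11 false false), .t 1 (nat_lit 0) (.g 17 11 0 10 14 false false), .t 1 (nat_lit 0) (.st 10 11 14 17), .t 1 (nat_lit 0) (.g 11 0 10 14 18 false false), .t 2 (nat_lit 0x11cb) (.g 14 18 0 10 11 true false), .t 2 (nat_lit 0x11cb) (.g 14 10 0 11 18 true true), .t 1 (nat_lit 0) (.g 18 14 0 10 11 false false), .t 1 (nat_lit 0) (.st 10 11 14 18), .t 1 (nat_lit 0) (.g 11 0 10 15 16 false false), .t 2 (nat_lit 0x11cc) (.g 15 10 0 11 16 true true), .t 1 (nat_lit 0) (.g 16 11 0 10 15 false false), .t 1 (nat_lit 0) (.st 10 11 15 16), .t 1 (nat_lit 0) (.g 11 0 10 15 17 false true), .t 1 (nat_lit 0) (.g 11 0 10 15 17 false false), .t 2 (nat_lit 0x11cd) (.g 15 17 0 10 11 true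 false), .t 2 (nat_lit 0x11cd) (.g 15 10 0 11 17 true true), .t 1 (nat_lit 0) (.g 17 15 0 10 11 false false), .t 1 (nat_lit 0) (.g 17 11 0 10 15 false false), .t 1 (nat_lit 0) (.st 10 11 15 17), .t 1 (nat_lit 0) (.st 10 11 17 15), .t 1 (nat_lit 0) (.g 11 0 10 15 18 false true), .t 1 (nat_lit 0) (.g 11 0 10 15 18 false false), .t 2 (nat_lit 0x11ce) (.g 15 18 0 10 11 true false), .t 1 (nat_lit 0) (.g 18 15 0 10 11 false false), .t 1 (nat_lit 0) (.g 18 11 0 10 15 false false), .t 1 (nat_lit 0) (.g 11 0 10 16 17 false true), .t 1 (nat_lit 0) (.g 11 0 10 16 17 false false), .t 2 (nat_lit 0x11cf) (.g 16 17 0 10 11 true false), .t 2 (nat_lit 0x11cf) (.g 16 10 0 11 17 true true), .t 1 (nat_lit 0) (.g 17 16 0 10 11 false false), .t 1 (nat_lit 0) (.g 17 11 0 10 16 false false), .t 1 (nat_lit 0) (.st 10 11 17 16), .t 1 (nat_lit 0) (.g 11 0 10 16 18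 false false), .t 2 (nat_lit 0x11d0) (.g 16 18 0 10 11 true false), .t 1 (nat_lit 0) (.g 11 0 10 17 18 false true), .t 2 (nat_lit 0x11d1) (.g 17 18 0 10 11 true false), .t 1 (nat_lit 0) (.g 18 17 0 10 11 false false), .t 1 (nat_lit 0) (.g 18 11 0 10 17 false false), .t 2 (nat_lit 0x11bf) (.g 12 0 10 13 14 false true), .t 2 (nat_lit 0x11c3) (.g 13 14 0 10 12 true false), .t 2 (nat_lit 0x11c0) (.g 12 0 10 13 15 false true), .t 2 (nat_lit 0x11c4) (.g 13 15 0 10 12 true false), .t 1 (nat_lit 0) (.g 15 13 0 10 12 false false), .t 2 (nat_lit 0x11c5) (.g 13 16 0 10 12 true false), .t 1 (nat_lit 0) (.g 16 13 0 10 12 false false), .t 2 (nat_lit 0x11c6) (.g 13 17 0 10 12 true false), .t 2 (nat_lit 0x11c6) (.g 13 10 0 12 17 true true), .t 1 (nat_lit 0) (.g 17 13 0 10 12 false false), .t 2 (nat_lit 0x11c7) (.g 13 18 0 10 12 true false), .t 1 (nat_lit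 0) (.g 18 13 0 10 12 false false), .t 2 (nat_lit 0x11c0) (.g 12 0 10 14 15 false true), .t 2 (nat_lit 0x11c8) (.g 14 15 0 10 12 true false), .t 2 (nat_lit 0x11c8) (.g 14 10 0 12 15 true true), .t 1 (nat_lit 0) (.g 15 14 0 10 12 false false), .t 1 (nat_lit 0) (.g 15 12 0 10 14 false false), .t 2 (nat_lit 0x11c1) (.g 12 0 10 14 16 false true), .t 1 (nat_lit 0) (.g 16 12 0 10 14 false false), .t 2 (nat_lit 0x11d2) (.g 12 0 10 14 17 false true), .t 2 (nat_lit 0x11ca) (.g 14 17 0 10 12 true false), .t 2 (nat_lit 0x11ca) (.g 14 10 0 12 17 true true), .t 1 (nat_lit 0) (.g 17 14 0 10 12 false false), .t 1 (nat_lit 0) (.st 10 12 14 17)] (by decide +kernel) (by decide +kernel)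
theorem b247 : B 15808 15872 := Blk.of_chk [.t 2 (nat_lit 0x11c2) (.g 12 0 10 14 18 false true), .t 1 (nat_lit 0) (.g 18 14 0 10 12 false false), .t 1 (nat_lit 0) (.st 10 12 14 18), .t 2 (nat_lit 0x11c1) (.g 12 0 10 15 16 false true), .t 1 (nat_lit 0) (.st 10 12 15 16), .t 2 (nat_lit 0x11d2) (.g 12 0 10 15 17 false true), .t 2 (nat_lit 0x11cd) (.g 15 17 0 10 12 true false), .t 2 (nat_lit 0x11cd) (.g 15 10 0 12 17 true true), .t 2 (nat_lit 0x11c2) (.g 12 0 10 15 18 false true), .t 2 (nat_lit 0x11ce) (.g 15 18 0 10 12 true false), .t 1 (nat_lit 0) (.g 18 15 0 10 12 false false), .t 1 (nat_lit 0) (.g 18 12 0 10 15 false false), .t 1 (nat_lit 0) (.st 10 12 15 18), .t 2 (nat_lit 0x11d2) (.g 12 0 10 16 17 false true), .t 2 (nat_lit 0x11d2) (.g 12 0 10 16 17 false false), .t 2 (nat_lit 0x11cf) (.g 16 17 0 10 12 true false), .t 1 (nat_lit 0) (.g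 17 16 0 10 12 false false), .t 1 (nat_lit 0) (.g 17 12 0 10 16 false false), .t 1 (nat_lit 0) (.st 10 12 16 17), .t 1 (nat_lit 0) (.st 10 12 17 16), .t 2 (nat_lit 0x11c2) (.g 12 0 10 16 18 false true), .t 2 (nat_lit 0x11c2) (.g 12 0 10 16 18 false false), .t 2 (nat_lit 0x11d0) (.g 16 18 0 10 12 true false), .t 1 (nat_lit 0) (.st 10 12 16 18), .t 2 (nat_lit 0x11d1) (.g 17 18 0 10 12 true false), .t 1 (nat_lit 0) (.g 18 17 0 10 12 false false), .t 2 (nat_lit 0x11c4) (.g 13 0 10 14 15 false true), .t 2 (nat_lit 0x11c4) (.g 13 0 10 14 15 false false), .t 2 (nat_lit 0x11c8) (.g 14 10 0 13 15 true true), .t 1 (nat_lit 0) (.g 15 14 0 10 13 false false), .t 2 (nat_lit 0x11c5) (.g 13 0 10 14 16 false true), .t 2 (nat_lit 0x11c5) (.g 13 0 10 14 16 false false), .t 2 (nat_lit 0x11c9) (.g 14 16 0 10 13 true false), .t 1 (nat_lit 0) (.g 16 14 0 10 13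 false false), .t 1 (nat_lit 0) (.g 16 13 0 10 14 false false), .t 2 (nat_lit 0x11c6) (.g 13 0 10 14 17 false true), .t 2 (nat_lit 0x11c6) (.g 13 0 10 14 17 false false), .t 2 (nat_lit 0x11ca) (.g 14 17 0 10 13 true false), .t 2 (nat_lit 0x11ca) (.g 14 10 0 13 17 true true), .t 1 (nat_lit 0) (.g 17 14 0 10 13 false false), .t 2 (nat_lit 0x11c7) (.g 13 0 10 14 18 false true), .t 2 (nat_lit 0x11c7) (.g 13 0 10 14 18 false false), .t 2 (nat_lit 0x11cb) (.g 14 18 0 10 13 true false), .t 2 (nat_lit 0x11cb) (.g 14 10 0 13 18 true true), .t 1 (nat_lit 0) (.g 18 14 0 10 13 false false), .t 1 (nat_lit 0) (.g 18 13 0 10 14 false false), .t 1 (nat_lit 0) (.st 10 13 14 18), .t 2 (nat_lit 0x11c5) (.g 13 0 10 15 16 false true), .t 2 (nat_lit 0x11c5) (.g 13 0 10 15 16 false false), .t 2 (nat_lit 0x11cc) (.g 15 16 0 10 13 true false), .t 2 (nat_lit 0x11cc)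 (.g 15 10 0 13 16 true true), .t 1 (nat_lit 0) (.g 16 15 0 10 13 false false), .t 1 (nat_lit 0) (.g 16 13 0 10 15 false false), .t 2 (nat_lit 0x11c6) (.g 13 0 10 15 17 false true), .t 2 (nat_lit 0x11c6) (.g 13 0 10 15 17 false false), .t 2 (nat_lit 0x11cd) (.g 15 10 0 13 17 true true), .t 1 (nat_lit 0) (.g 17 15 0 10 13 false false), .t 1 (nat_lit 0) (.g 17 13 0 10 15 false false), .t 1 (nat_lit 0) (.st 10 13 15 17), .t 2 (nat_lit 0x11c7) (.g 13 0 10 15 18 false true), .t 2 (nat_lit 0x11c7) (.g 13 0 10 15 18 false false), .t 1 (nat_lit 0) (.g 18 15 0 10 13 false false), .t 1 (nat_lit 0) (.g 18 13 0 10 15 false false), .t 1 (nat_lit 0) (.st 10 13 15 18)] (by decide +kernel) (by decide +kernel)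
theorem b248 : B 15872 15936 := Blk.of_chk [.t 2 (nat_lit 0x11c6) (.g 13 0 10 16 17 false true), .t 2 (nat_lit 0x11c6) (.g 13 0 10 16 17 false false), .t 2 (nat_lit 0x11cf) (.g 16 17 0 10 13 true false), .t 1 (nat_lit 0) (.g 17 16 0 10 13 false false), .t 1 (nat_lit 0) (.g 17 13 0 10 16 false false), .t 1 (nat_lit 0) (.st 10 13 17 16), .t 2 (nat_lit 0x11c7) (.g 13 0 10 16 18 false true), .t 2 (nat_lit 0x11c7) (.g 13 0 10 16 18 false false), .t 2 (nat_lit 0x11d0) (.g 16 18 0 10 13 true false), .t 1 (nat_lit 0) (.g 18 16 0 10 13 false false), .t 1 (nat_lit 0) (.g 18 13 0 10 16 false false), .t 2 (nat_lit 0x11c7) (.g 13 0 10 17 18 false true), .t 2 (nat_lit 0x11c7) (.g 13 0 10 17 18 false false), .t 2 (nat_lit 0x11d1) (.g 17 18 0 10 13 true false), .t 2 (nat_lit 0x11d1) (.g 17 10 0 13 18 true true), .t 1 (nat_lit 0) (.g 18 17 0 10 13 false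 false), .t 1 (nat_lit 0) (.g 18 13 0 10 17 false false), .t 1 (nat_lit 0) (.st 10 13 18 17), .t 2 (nat_lit 0x11c9) (.g 14 0 10 15 16 false true), .t 1 (nat_lit 0) (.g 16 14 0 10 15 false false), .t 1 (nat_lit 0) (.g 17 15 0 10 14 false false), .t 1 (nat_lit 0) (.g 17 14 0 10 15 false false), .t 2 (nat_lit 0x11c8) (.g 14 0 10 15 18 false true), .t 2 (nat_lit 0x11cb) (.g 14 0 10 15 18 false true), .t 2 (nat_lit 0x11cb) (.g 14 0 10 15 18 false false), .t 2 (nat_lit 0x11ce) (.g 15 18 0 10 14 true false), .t 1 (nat_lit 0) (.g 18 15 0 10 14 false false), .t 1 (nat_lit 0) (.g 18 14 0 10 15 false false), .t 1 (nat_lit 0) (.st 10 14 18 15), .t 2 (nat_lit 0x11cf) (.g 16 17 0 10 14 true false), .t 1 (nat_lit 0) (.g 17 16 0 10 14 false false), .t 1 (nat_lit 0) (.g 17 14 0 10 16 false false), .t 1 (nat_lit 0) (.st 10 14 17 16), .t 2 (nat_lit 0x11cb)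 (.g 14 0 10 16 18 false true), .t 2 (nat_lit 0x11cb) (.g 14 0 10 16 18 false false), .t 2 (nat_lit 0x11d0) (.g 16 18 0 10 14 true false), .t 1 (nat_lit 0) (.g 18 16 0 10 14 false false), .t 1 (nat_lit 0) (.g 18 14 0 10 16 false false), .t 2 (nat_lit 0x11cb) (.g 14 0 10 17 18 false true), .t 2 (nat_lit 0x11d1) (.g 17 18 0 10 14 true false), .t 2 (nat_lit 0x11d1) (.g 17 10 0 14 18 true true), .t 1 (nat_lit 0) (.g 18 14 0 10 17 false false), .t 1 (nat_lit 0) (.st 10 14 18 17), .t 2 (nat_lit 0x11cd) (.g 15 0 10 16 17 false false), .t 2 (nat_lit 0x11cf) (.g 16 17 0 10 15 true false), .t 2 (nat_lit 0x11cf) (.g 16 10 0 15 17 true true), .t 1 (nat_lit 0) (.g 17 16 0 10 15 false false), .t 1 (nat_lit 0) (.g 17 15 0 10 16 false false), .t 2 (nat_lit 0x11ce) (.g 15 0 10 16 18 false false), .t 1 (nat_lit 0) (.g 18 16 0 10 15 false false), .t 1 (nat_lit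 0) (.g 18 15 0 10 16 false false), .t 2 (nat_lit 0x11d1) (.g 17 18 0 10 15 true false), .t 2 (nat_lit 0x11d1) (.g 17 10 0 15 18 true true), .t 1 (nat_lit 0) (.g 18 15 0 10 17 false false), .t 2 (nat_lit 0x11d1) (.g 17 18 0 10 16 true false), .t 2 (nat_lit 0x11d1) (.g 17 10 0 16 18 true true), .t 1 (nat_lit 0) (.st 10 16 17 18), .t 1 (nat_lit 0) (.st 10 16 18 17), .t 1 (nat_lit 0) (.g 14 0 11 12 13 true true), .t 1 (nat_lit 0) (.g 15 0 11 12 13 true false), .t 1 (nat_lit 0) (.g 11 0 12 13 18 false false), .t 1 (nat_lit 0) (.g 11 0 12 14 15 false false), .t 1 (nat_lit 0) (.g 12 14 0 11 15 true true), .t 1 (nat_lit 0) (.g 14 12 0 11 15 false true)] (by decide +kernel) (by decide +kernel)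
theorem b249 : B 15936 16000 := Blk.of_chk [.t 1 (nat_lit 0) (.g 15 0 11 12 14 true false), .t 1 (nat_lit 0) (.g 11 0 12 14 16 false true), .t 1 (nat_lit 0) (.g 11 0 12 14 16 false false), .t 1 (nat_lit 0) (.g 12 14 0 11 16 true true), .t 1 (nat_lit 0) (.g 12 16 0 11 14 true true), .t 1 (nat_lit 0) (.g 14 12 0 11 16 false true), .t 1 (nat_lit 0) (.g 16 0 11 12 14 true true), .t 1 (nat_lit 0) (.g 16 0 11 12 14 true false), .t 1 (nat_lit 0) (.g 11 0 12 14 17 false true), .t 1 (nat_lit 0) (.g 11 0 12 14 17 false false), .t 1 (nat_lit 0) (.g 12 14 0 11 17 true true), .t 1 (nat_lit 0) (.g 14 12 0 11 17 false true), .t 1 (nat_lit 0) (.g 17 0 11 12 14 true true), .t 1 (nat_lit 0) (.g 17 0 11 12 14 true false), .t 1 (nat_lit 0) (.g 11 0 12 14 18 false true), .t 1 (nat_lit 0) (.g 11 0 12 14 18 false false), .t 1 (nat_lit 0) (.g 12 14 0 11 18 true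 true), .t 1 (nat_lit 0) (.g 12 18 0 11 14 true true), .t 1 (nat_lit 0) (.g 14 11 0 12 18 false true), .t 1 (nat_lit 0) (.g 18 0 11 12 14 true false), .t 1 (nat_lit 0) (.g 11 0 12 15 16 false false), .t 1 (nat_lit 0) (.g 12 15 0 11 16 true true), .t 1 (nat_lit 0) (.g 16 0 11 12 15 true true), .t 1 (nat_lit 0) (.g 11 0 12 15 17 false false), .t 1 (nat_lit 0) (.g 12 15 0 11 17 true true), .t 1 (nat_lit 0) (.g 12 17 0 11 15 true true), .t 1 (nat_lit 0) (.g 17 0 11 12 15 true false), .t 1 (nat_lit 0) (.g 11 0 12 15 18 false false), .t 1 (nat_lit 0) (.g 12 15 0 11 18 true true), .t 1 (nat_lit 0) (.g 18 0 11 12 15 true false), .t 1 (nat_lit 0) (.g 11 0 12 16 17 false false), .t 1 (nat_lit 0) (.g 12 16 0 11 17 true true), .t 1 (nat_lit 0) (.g 12 17 0 11 16 true true), .t 1 (nat_lit 0) (.g 16 12 0 11 17 false true), .t 1 (nat_lit 0) (.g 17 0 11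 12 16 true false), .t 1 (nat_lit 0) (.g 11 0 12 16 18 false false), .t 1 (nat_lit 0) (.g 12 16 0 11 18 true true), .t 1 (nat_lit 0) (.g 12 18 0 11 16 true true), .t 1 (nat_lit 0) (.g 18 0 11 12 16 true false), .t 1 (nat_lit 0) (.g 11 0 12 17 18 false false), .t 1 (nat_lit 0) (.g 12 17 0 11 18 true true), .t 1 (nat_lit 0) (.g 17 12 0 11 18 false true), .t 1 (nat_lit 0) (.g 18 0 11 12 17 true false), .t 1 (nat_lit 0) (.g 13 14 0 11 15 true true), .t 1 (nat_lit 0) (.g 14 13 0 11 15 false true), .t 1 (nat_lit 0) (.g 15 0 11 13 14 true true), .t 1 (nat_lit 0) (.g 15 0 11 13 14 true false), .t 1 (nat_lit 0) (.g 13 14 0 11 16 true true), .t 1 (nat_lit 0) (.g 14 13 0 11 16 false true), .t 1 (nat_lit 0) (.g 16 0 11 13 14 true true), .t 1 (nat_lit 0) (.g 16 0 11 13 14 true false), .t 1 (nat_lit 0) (.g 11 0 13 14 17 false false), .t 1 (nat_lit 0)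 (.g 13 14 0 11 17 true true), .t 1 (nat_lit 0) (.g 14 13 0 11 17 false true), .t 1 (nat_lit 0) (.g 17 0 11 13 14 true true), .t 1 (nat_lit 0) (.g 17 0 11 13 14 true false), .t 1 (nat_lit 0) (.g 11 0 13 14 18 false true), .t 1 (nat_lit 0) (.g 13 14 0 11 18 true true), .t 1 (nat_lit 0) (.g 14 13 0 11 18 false true), .t 1 (nat_lit 0) (.g 18 0 11 13 14 true true), .t 1 (nat_lit 0) (.g 18 0 11 13 14 true false), .t 1 (nat_lit 0) (.g 16 0 11 13 15 true true), .t 1 (nat_lit 0) (.g 16 0 11 13 15 true false), .t 1 (nat_lit 0) (.g 11 0 13 15 17 false true)] (by decide +kernel) (by decide +kernel)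
theorem b250 : B 16000 16064 := Blk.of_chk [.t 1 (nat_lit 0) (.g 13 17 0 11 15 true true), .t 1 (nat_lit 0) (.g 15 11 0 13 17 false true), .t 1 (nat_lit 0) (.g 17 0 11 13 15 true true), .t 1 (nat_lit 0) (.g 17 0 11 13 15 true false), .t 1 (nat_lit 0) (.g 11 0 13 15 18 false false), .t 1 (nat_lit 0) (.g 18 0 11 13 15 true true), .t 1 (nat_lit 0) (.g 18 0 11 13 15 true false), .t 1 (nat_lit 0) (.g 11 0 13 16 17 false true), .t 1 (nat_lit 0) (.g 13 17 0 11 16 true true), .t 1 (nat_lit 0) (.g 16 11 0 13 17 false true), .t 1 (nat_lit 0) (.g 17 0 11 13 16 true true), .t 1 (nat_lit 0) (.g 17 0 11 13 16 true false), .t 1 (nat_lit 0) (.g 11 0 13 16 18 false false), .t 1 (nat_lit 0) (.g 13 18 0 11 16 true true), .t 1 (nat_lit 0) (.g 16 11 0 13 18 false true), .t 1 (nat_lit 0) (.g 18 0 11 13 16 true true), .t 1 (nat_lit 0) (.g 18 0 11 13 16 true false),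 .t 1 (nat_lit 0) (.g 11 0 13 17 18 false false), .t 1 (nat_lit 0) (.g 13 17 0 11 18 true true), .t 1 (nat_lit 0) (.g 17 13 0 11 18 false true), .t 1 (nat_lit 0) (.g 18 0 11 13 17 true true), .t 1 (nat_lit 0) (.g 18 0 11 13 17 true false), .t 1 (nat_lit 0) (.g 14 15 0 11 16 true true), .t 1 (nat_lit 0) (.g 16 0 11 14 15 true true), .t 1 (nat_lit 0) (.g 16 0 11 14 15 true false), .t 1 (nat_lit 0) (.g 11 0 14 15 17 false true), .t 1 (nat_lit 0) (.g 11 0 14 15 17 false false), .t 1 (nat_lit 0) (.g 14 15 0 11 17 true true), .t 1 (nat_lit 0) (.g 17 0 11 14 15 true true), .t 1 (nat_lit 0) (.g 17 0 11 14 15 true false), .t 1 (nat_lit 0) (.g 11 0 14 15 18 false true), .t 1 (nat_lit 0) (.g 14 15 0 11 18 true true), .t 1 (nat_lit 0) (.g 18 0 11 14 15 true true), .t 1 (nat_lit 0) (.g 18 0 11 14 15 true false), .t 1 (nat_lit 0) (.g 14 16 0 11 17 true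 true), .t 1 (nat_lit 0) (.g 17 0 11 14 16 true true), .t 1 (nat_lit 0) (.g 17 0 11 14 16 true false), .t 1 (nat_lit 0) (.g 11 0 14 16 18 false true), .t 1 (nat_lit 0) (.g 14 16 0 11 18 true true), .t 1 (nat_lit 0) (.g 18 0 11 14 16 true true), .t 1 (nat_lit 0) (.g 11 0 14 17 18 false true), .t 1 (nat_lit 0) (.g 11 0 14 17 18 false false), .t 1 (nat_lit 0) (.g 14 17 0 11 18 true true), .t 1 (nat_lit 0) (.g 18 0 11 14 17 true true), .t 1 (nat_lit 0) (.g 18 0 11 14 17 true false), .t 1 (nat_lit 0) (.g 17 0 11 15 16 true true), .t 1 (nat_lit 0) (.g 17 0 11 15 16 true false), .t 1 (nat_lit 0) (.g 11 0 15 16 18 false true), .t 1 (nat_lit 0) (.g 15 18 0 11 16 true true), .t 1 (nat_lit 0) (.g 16 11 0 15 18 false true), .t 1 (nat_lit 0) (.g 18 0 11 15 16 true true), .t 1 (nat_lit 0) (.g 18 0 11 15 16 true false), .t 1 (nat_lit 0) (.g 11 0 15 17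 18 false true), .t 1 (nat_lit 0) (.g 11 0 15 17 18 false false), .t 1 (nat_lit 0) (.g 15 17 0 11 18 true true), .t 1 (nat_lit 0) (.g 15 18 0 11 17 true true), .t 1 (nat_lit 0) (.g 17 15 0 11 18 false true), .t 1 (nat_lit 0) (.g 17 11 0 15 18 false true), .t 1 (nat_lit 0) (.g 18 0 11 15 17 true true), .t 1 (nat_lit 0) (.g 18 0 11 15 17 true false), .t 1 (nat_lit 0) (.g 11 0 16 17 18 false true), .t 1 (nat_lit 0) (.g 11 0 16 17 18 false false), .t 1 (nat_lit 0) (.g 18 0 11 16 17 true true), .t 1 (nat_lit 0) (.g 18 0 11 16 17 true false)] (by decide +kernel) (by decide +kernel)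
theorem b251 : B 16064 16128 := Blk.of_chk [.t 1 (nat_lit 0) (.g 13 15 0 12 14 true true), .t 1 (nat_lit 0) (.g 14 12 0 13 15 false true), .t 1 (nat_lit 0) (.g 13 16 0 12 14 true true), .t 1 (nat_lit 0) (.g 14 12 0 13 16 false true), .t 1 (nat_lit 0) (.g 16 0 12 13 14 true false), .t 1 (nat_lit 0) (.g 12 0 13 14 17 false true), .t 1 (nat_lit 0) (.g 13 14 0 12 17 true true), .t 1 (nat_lit 0) (.g 13 17 0 12 14 true true), .t 1 (nat_lit 0) (.g 14 13 0 12 17 false true), .t 1 (nat_lit 0) (.g 12 0 13 14 18 false true), .t 1 (nat_lit 0) (.g 13 14 0 12 18 true true), .t 1 (nat_lit 0) (.g 13 18 0 12 14 true true), .t 1 (nat_lit 0) (.g 14 13 0 12 18 false true), .t 1 (nat_lit 0) (.g 14 12 0 13 18 false true), .t 1 (nat_lit 0) (.g 13 15 0 12 16 true true), .t 1 (nat_lit 0) (.g 13 16 0 12 15 true true), .t 1 (nat_lit 0) (.g 15 13 0 12 16 false true),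 .t 1 (nat_lit 0) (.g 15 12 0 13 16 false true), .t 1 (nat_lit 0) (.g 16 0 12 13 15 true true), .t 1 (nat_lit 0) (.g 16 0 12 13 15 true false), .t 1 (nat_lit 0) (.g 13 15 0 12 17 true true), .t 1 (nat_lit 0) (.g 13 17 0 12 15 true true), .t 1 (nat_lit 0) (.g 15 13 0 12 17 false true), .t 1 (nat_lit 0) (.g 15 12 0 13 17 false true), .t 1 (nat_lit 0) (.g 17 0 12 13 15 true true), .t 1 (nat_lit 0) (.g 17 0 12 13 15 true false), .t 1 (nat_lit 0) (.g 12 0 13 15 18 false true), .t 1 (nat_lit 0) (.g 12 0 13 15 18 false false), .t 1 (nat_lit 0) (.g 13 15 0 12 18 true true), .t 1 (nat_lit 0) (.g 13 18 0 12 15 true true), .t 1 (nat_lit 0) (.g 18 0 12 13 15 true true), .t 1 (nat_lit 0) (.g 18 0 12 13 15 true false), .t 1 (nat_lit 0) (.g 12 0 13 16 17 false true), .t 1 (nat_lit 0) (.g 12 0 13 16 17 false false), .t 1 (nat_lit 0) (.g 13 16 0 12 17 true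 true), .t 1 (nat_lit 0) (.g 13 17 0 12 16 true true), .t 1 (nat_lit 0) (.g 16 13 0 12 17 false true), .t 1 (nat_lit 0) (.g 17 0 12 13 16 true true), .t 1 (nat_lit 0) (.g 12 0 13 16 18 false true), .t 1 (nat_lit 0) (.g 12 0 13 16 18 false false), .t 1 (nat_lit 0) (.g 13 16 0 12 18 true true), .t 1 (nat_lit 0) (.g 13 18 0 12 16 true true), .t 1 (nat_lit 0) (.g 16 13 0 12 18 false true), .t 1 (nat_lit 0) (.g 18 0 12 13 16 true true), .t 1 (nat_lit 0) (.g 12 0 13 17 18 false true), .t 1 (nat_lit 0) (.g 12 0 13 17 18 false false), .t 1 (nat_lit 0) (.g 13 17 0 12 18 true true), .t 1 (nat_lit 0) (.g 13 18 0 12 17 true true), .t 1 (nat_lit 0) (.g 17 13 0 12 18 false true), .t 1 (nat_lit 0) (.g 18 0 12 13 17 true true), .t 1 (nat_lit 0) (.g 18 0 12 13 17 true false), .t 1 (nat_lit 0) (.g 12 0 14 15 16 false true), .t 1 (nat_lit 0) (.g 14 16 0 12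 15 true true), .t 1 (nat_lit 0) (.g 15 12 0 14 16 false true), .t 1 (nat_lit 0) (.g 16 0 12 14 15 true true), .t 1 (nat_lit 0) (.g 16 0 12 14 15 true false), .t 1 (nat_lit 0) (.g 12 0 14 15 17 false true), .t 1 (nat_lit 0) (.g 12 0 14 15 17 false false), .t 1 (nat_lit 0) (.g 14 15 0 12 17 true true), .t 1 (nat_lit 0) (.g 14 17 0 12 15 true true), .t 1 (nat_lit 0) (.g 15 12 0 14 17 false true), .t 1 (nat_lit 0) (.g 17 0 12 14 15 true true), .t 1 (nat_lit 0) (.g 14 15 0 12 18 true true), .t 1 (nat_lit 0) (.g 14 18 0 12 15 true true)] (by decide +kernel) (by decide +kernel)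
theorem b252 : B 16128 16192 := Blk.of_chk [.t 1 (nat_lit 0) (.g 15 14 0 12 18 false true), .t 1 (nat_lit 0) (.g 18 0 12 14 15 true true), .t 1 (nat_lit 0) (.g 12 0 14 16 17 false true), .t 1 (nat_lit 0) (.g 12 0 14 16 17 false false), .t 1 (nat_lit 0) (.g 14 16 0 12 17 true true), .t 1 (nat_lit 0) (.g 14 17 0 12 16 true true), .t 1 (nat_lit 0) (.g 16 12 0 14 17 false true), .t 1 (nat_lit 0) (.g 17 0 12 14 16 true true), .t 1 (nat_lit 0) (.g 17 0 12 14 16 true false), .t 1 (nat_lit 0) (.g 12 0 14 16 18 false true), .t 1 (nat_lit 0) (.g 12 0 14 16 18 false false), .t 1 (nat_lit 0) (.g 14 16 0 12 18 true true), .t 1 (nat_lit 0) (.g 14 18 0 12 16 true true), .t 1 (nat_lit 0) (.g 16 14 0 12 18 false true), .t 1 (nat_lit 0) (.g 18 0 12 14 16 true true), .t 1 (nat_lit 0) (.g 18 0 12 14 16 true false), .t 1 (nat_lit 0) (.g 12 0 14 17 18 false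 true), .t 1 (nat_lit 0) (.g 12 0 14 17 18 false false), .t 1 (nat_lit 0) (.g 14 17 0 12 18 true true), .t 1 (nat_lit 0) (.g 14 18 0 12 17 true true), .t 1 (nat_lit 0) (.g 17 14 0 12 18 false true), .t 1 (nat_lit 0) (.g 17 12 0 14 18 false true), .t 1 (nat_lit 0) (.g 18 0 12 14 17 true true), .t 1 (nat_lit 0) (.g 18 0 12 14 17 true false), .t 1 (nat_lit 0) (.g 12 0 15 16 17 false false), .t 1 (nat_lit 0) (.g 15 16 0 12 17 true true), .t 1 (nat_lit 0) (.g 15 17 0 12 16 true true), .t 1 (nat_lit 0) (.g 17 0 12 15 16 true true), .t 1 (nat_lit 0) (.g 17 0 12 15 16 true false), .t 1 (nat_lit 0) (.g 12 0 15 16 18 false true), .t 1 (nat_lit 0) (.g 12 0 15 16 18 false false), .t 1 (nat_lit 0) (.g 15 18 0 12 16 true true), .t 1 (nat_lit 0) (.g 16 15 0 12 18 false true), .t 1 (nat_lit 0) (.g 16 12 0 15 18 false true), .t 1 (nat_lit 0) (.g 18 0 12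 15 16 true true), .t 1 (nat_lit 0) (.g 12 0 15 17 18 false true), .t 1 (nat_lit 0) (.g 15 17 0 12 18 true true), .t 1 (nat_lit 0) (.g 17 15 0 12 18 false true), .t 1 (nat_lit 0) (.g 17 12 0 15 18 false true), .t 1 (nat_lit 0) (.g 18 0 12 15 17 true true), .t 1 (nat_lit 0) (.g 18 0 12 15 17 true false), .t 1 (nat_lit 0) (.g 12 0 16 17 18 false true), .t 1 (nat_lit 0) (.g 12 0 16 17 18 false false), .t 1 (nat_lit 0) (.g 16 17 0 12 18 true true), .t 1 (nat_lit 0) (.g 16 18 0 12 17 true true), .t 1 (nat_lit 0) (.g 17 16 0 12 18 false true), .t 1 (nat_lit 0) (.g 17 12 0 16 18 false true), .t 1 (nat_lit 0) (.g 18 0 12 16 17 true true), .t 1 (nat_lit 0) (.g 18 0 12 16 17 true false), .t 1 (nat_lit 0) (.g 16 0 13 14 15 true true), .t 1 (nat_lit 0) (.g 16 0 13 14 15 true false), .t 1 (nat_lit 0) (.g 13 0 14 15 17 false true), .t 1 (nat_lit 0) (.g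 14 17 0 13 15 true true), .t 1 (nat_lit 0) (.g 15 13 0 14 17 false true), .t 1 (nat_lit 0) (.g 17 0 13 14 15 true true), .t 1 (nat_lit 0) (.g 17 0 13 14 15 true false), .t 1 (nat_lit 0) (.g 13 0 14 15 18 false true), .t 1 (nat_lit 0) (.g 14 18 0 13 15 true true), .t 1 (nat_lit 0) (.g 15 13 0 14 18 false true), .t 1 (nat_lit 0) (.g 18 0 13 14 15 true true), .t 1 (nat_lit 0) (.g 18 0 13 14 15 true false), .t 1 (nat_lit 0) (.g 13 0 14 16 17 false true), .t 1 (nat_lit 0) (.g 14 16 0 13 17 true true), .t 1 (nat_lit 0) (.g 14 17 0 13 16 true true)] (by decide +kernel) (by decide +kernel)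
theorem b253 : B 16192 16256 := Blk.of_chk [.t 1 (nat_lit 0) (.g 16 13 0 14 17 false true), .t 1 (nat_lit 0) (.g 17 0 13 14 16 true true), .t 1 (nat_lit 0) (.g 17 0 13 14 16 true false), .t 1 (nat_lit 0) (.g 13 0 14 16 18 false true), .t 1 (nat_lit 0) (.g 14 16 0 13 18 true true), .t 1 (nat_lit 0) (.g 14 18 0 13 16 true true), .t 1 (nat_lit 0) (.g 16 13 0 14 18 false true), .t 1 (nat_lit 0) (.g 18 0 13 14 16 true true), .t 1 (nat_lit 0) (.g 18 0 13 14 16 true false), .t 1 (nat_lit 0) (.g 13 0 14 17 18 false true), .t 1 (nat_lit 0) (.g 13 0 14 17 18 false false), .t 1 (nat_lit 0) (.g 14 18 0 13 17 true true), .t 1 (nat_lit 0) (.g 17 13 0 14 18 false true), .t 1 (nat_lit 0) (.g 18 0 13 14 17 true true), .t 1 (nat_lit 0) (.g 18 0 13 14 17 true false), .t 1 (nat_lit 0) (.g 15 16 0 13 17 true true), .t 1 (nat_lit 0) (.g 17 0 13 15 16 true true),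 .t 1 (nat_lit 0) (.g 17 0 13 15 16 true false), .t 1 (nat_lit 0) (.g 15 16 0 13 18 true true), .t 1 (nat_lit 0) (.g 18 0 13 15 16 true true), .t 1 (nat_lit 0) (.g 18 0 13 15 16 true false), .t 1 (nat_lit 0) (.g 13 0 15 17 18 false false), .t 1 (nat_lit 0) (.g 15 17 0 13 18 true true), .t 1 (nat_lit 0) (.g 15 18 0 13 17 true true), .t 1 (nat_lit 0) (.g 17 15 0 13 18 false true), .t 1 (nat_lit 0) (.g 17 13 0 15 18 false true), .t 1 (nat_lit 0) (.g 18 0 13 15 17 true true), .t 1 (nat_lit 0) (.g 18 0 13 15 17 true false), .t 1 (nat_lit 0) (.g 13 0 16 17 18 false false), .t 1 (nat_lit 0) (.g 16 17 0 13 18 true true), .t 1 (nat_lit 0) (.g 17 16 0 13 18 false true), .t 1 (nat_lit 0) (.g 18 0 13 16 17 true true), .t 1 (nat_lit 0) (.g 18 0 13 16 17 true false), .t 1 (nat_lit 0) (.g 15 16 0 14 17 true true), .t 1 (nat_lit 0) (.g 16 15 0 14 17 false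 true), .t 1 (nat_lit 0) (.g 17 0 14 15 16 true true), .t 1 (nat_lit 0) (.g 17 0 14 15 16 true false), .t 1 (nat_lit 0) (.g 14 0 15 16 18 false true), .t 1 (nat_lit 0) (.g 15 18 0 14 16 true true), .t 1 (nat_lit 0) (.g 16 14 0 15 18 false true), .t 1 (nat_lit 0) (.g 18 0 14 15 16 true true), .t 1 (nat_lit 0) (.g 18 0 14 15 16 true false), .t 1 (nat_lit 0) (.g 15 17 0 14 18 true true), .t 1 (nat_lit 0) (.g 18 0 14 15 17 true true), .t 1 (nat_lit 0) (.g 18 0 14 15 17 true false), .t 1 (nat_lit 0) (.g 18 0 14 16 17 true true), .t 1 (nat_lit 0) (.g 18 0 14 16 17 true false), .t 1 (nat_lit 0) (.g 18 0 15 16 17 true true), .t 1 (nat_lit 0) (.g 18 0 15 16 17 true false), .t 1 (nat_lit 0) (.st 12 0 1 2), .t 1 (nat_lit 0) (.st 12 0 1 4), .t 1 (nat_lit 0) (.st 12 0 1 5), .t 1 (nat_lit 0) (.st 12 0 1 6), .t 1 (nat_lit 0) (.st 12 0 1 7), .t 1 (nat_lit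 0) (.st 12 0 1 8), .t 1 (nat_lit 0) (.st 12 0 1 9), .t 1 (nat_lit 0) (.st 12 0 1 10), .t 1 (nat_lit 0) (.st 12 0 2 9), .t 1 (nat_lit 0) (.st 12 0 2 10), .t 1 (nat_lit 0) (.st 12 5 7 6), .t 1 (nat_lit 0) (.st 13 0 1 2), .t 1 (nat_lit 0) (.st 13 0 1 3), .t 1 (nat_lit 0) (.st 13 0 1 4), .t 1 (nat_lit 0) (.st 13 0 1 5)] (by decide +kernel) (by decide +kernel)
theorem b254 : B 16256 16320 := Blk.of_chk [.t 1 (nat_lit 0) (.st 13 0 1 6), .t 1 (nat_lit 0) (.st 13 0 1 7), .t 1 (nat_lit 0) (.st 13 0 1 8), .t 1 (nat_lit 0) (.st 13 0 1 9), .t 1 (nat_lit 0) (.st 13 0 1 10), .t 1 (nat_lit 0) (.st 13 0 2 9), .t 1 (nat_lit 0) (.st 13 0 2 10), .t 1 (nat_lit 0) (.st 13 0 9 10), .t 1 (nat_lit 0) (.st 13 4 8 5), .t 1 (nat_lit 0) (.st 14 0 1 2), .t 1 (nat_lit 0) (.st 14 0 1 3), .t 1 (nat_lit 0) (.st 14 0 1 4), .t 1 (nat_lit 0) (.st 14 0 1 5), .t 1 (nat_lit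 0) (.st 14 0 1 6), .t 1 (nat_lit 0) (.st 14 0 1 7), .t 1 (nat_lit 0) (.st 14 0 1 8), .t 1 (nat_lit 0) (.st 14 0 1 9), .t 1 (nat_lit 0) (.st 14 0 1 10), .t 1 (nat_lit 0) (.st 14 0 2 3), .t 1 (nat_lit 0) (.st 14 0 2 4), .t 1 (nat_lit 0) (.st 14 0 2 5), .t 1 (nat_lit 0) (.st 14 0 2 6), .t 1 (nat_lit 0) (.st 14 0 2 7), .t 1 (nat_lit 0) (.st 14 0 2 9), .t 1 (nat_lit 0) (.st 14 0 2 10), .t 1 (nat_lit 0) (.st 14 0 3 4), .t 1 (nat_lit 0) (.st 14 0 3 5), .t 1 (nat_lit 0) (.st 14 0 3 6), .t 1 (nat_lit 0) (.st 14 0 3 7), .t 1 (nat_lit 0) (.st 14 0 3 8), .t 1 (nat_lit 0) (.st 14 0 3 10), .t 1 (nat_lit 0) (.st 14 0 4 5), .t 1 (nat_lit 0) (.st 14 0 4 6), .t 1 (nat_lit 0) (.st 14 0 4 7), .t 1 (nat_lit 0) (.st 14 0 4 8), .t 1 (nat_lit 0) (.st 14 0 4 10), .t 1 (nat_lit 0) (.st 14 0 5 8), .t 1 (nat_lit 0) (.st 14 0 6 7), .t 1 (nat_lit 0) (.st 14 0 6 8),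 .t 1 (nat_lit 0) (.st 14 0 7 8), .t 1 (nat_lit 0) (.st 14 0 7 10), .t 1 (nat_lit 0) (.st 14 0 8 9), .t 1 (nat_lit 0) (.a 1 2 6 14 false), .t 1 (nat_lit 0) (.st 14 2 3 6), .t 1 (nat_lit 0) (.a 2 4 5 14 true), .t 1 (nat_lit 0) (.a 2 4 6 14 true), .t 1 (nat_lit 0) (.a 2 4 7 14 true), .t 1 (nat_lit 0) (.st 14 2 5 6), .t 1 (nat_lit 0) (.st 14 2 5 8), .t 1 (nat_lit 0) (.st 14 2 7 6), .t 1 (nat_lit 0) (.a 2 7 9 14 true), .t 1 (nat_lit 0) (.st 14 2 8 10), .t 1 (nat_lit 0) (.a 3 4 5 14 true), .t 1 (nat_lit 0) (.a 3 4 6 14 true), .t 1 (nat_lit 0) (.a 3 4 7 14 true), .t 1 (nat_lit 0) (.a 3 4 8 14 true), .t 1 (nat_lit 0) (.a 3 4 10 14 true), .t 1 (nat_lit 0) (.st 15 0 1 2), .t 1 (nat_lit 0) (.st 15 0 1 3), .t 1 (nat_lit 0) (.st 15 0 1 4), .t 1 (nat_lit 0) (.st 15 0 1 5), .t 1 (nat_lit 0) (.st 15 0 1 6), .t 1 (nat_lit 0) (.st 15 0 1 7), .t 1 (nat_lit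 0) (.st 15 0 1 8)] (by decide +kernel) (by decide +kernel)
theorem b255 : B 16320 16384 := Blk.of_chk [.t 1 (nat_lit 0) (.st 15 0 1 9), .t 1 (nat_lit 0) (.st 15 0 1 10), .t 1 (nat_lit 0) (.st 15 0 2 3), .t 1 (nat_lit 0) (.st 15 0 2 4), .t 1 (nat_lit 0) (.st 15 0 2 5), .t 1 (nat_lit 0) (.st 15 0 2 6), .t 1 (nat_lit 0) (.st 15 0 2 7), .t 1 (nat_lit 0) (.st 15 0 2 8), .t 1 (nat_lit 0) (.st 15 0 2 9), .t 1 (nat_lit 0) (.st 15 0 2 10), .t 1 (nat_lit 0) (.st 15 0 3 4), .t 1 (nat_lit 0) (.st 15 0 3 5), .t 1 (nat_lit 0) (.st 15 0 3 6), .t 1 (nat_lit 0) (.st 15 0 3 7), .t 1 (nat_lit 0) (.st 15 0 3 8), .t 1 (nat_lit 0) (.st 15 0 3 9), .t 1 (nat_lit 0) (.st 15 0 3 10), .t 1 (nat_lit 0) (.st 15 0 4 5), .t 1 (nat_lit 0) (.st 15 0 4 6), .t 1 (nat_lit 0) (.st 15 0 4 7), .t 1 (nat_lit 0) (.st 15 0 4 8), .t 1 (nat_lit 0) (.st 15 0 4 9), .t 1 (nat_lit 0)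 (.st 15 0 4 10), .t 1 (nat_lit 0) (.st 15 0 5 7), .t 1 (nat_lit 0) (.st 15 0 5 8), .t 1 (nat_lit 0) (.st 15 0 5 9), .t 1 (nat_lit 0) (.st 15 0 5 10), .t 1 (nat_lit 0) (.st 15 0 6 8), .t 1 (nat_lit 0) (.st 15 0 6 10), .t 1 (nat_lit 0) (.st 15 0 7 8), .t 1 (nat_lit 0) (.st 15 0 7 9), .t 1 (nat_lit 0) (.st 15 0 7 10), .t 1 (nat_lit 0) (.st 15 0 8 9), .t 1 (nat_lit 0) (.st 15 0 8 10), .t 1 (nat_lit 0) (.st 15 1 4 3), .t 1 (nat_lit 0) (.st 15 1 3 5), .t 1 (nat_lit 0) (.a 1 4 5 15 true), .t 1 (nat_lit 0) (.a 1 4 6 15 true), .t 1 (nat_lit 0) (.a 1 4 7 15 true), .t 1 (nat_lit 0) (.a 1 6 10 15 true), .t 1 (nat_lit 0) (.a 1 9 10 15 false), .t 1 (nat_lit 0) (.a 2 9 10 15 false), .t 1 (nat_lit 0) (.a 3 4 5 15 true), .t 1 (nat_lit 0) (.a 3 4 7 15 true), .t 1 (nat_lit 0) (.st 15 3 5 10), .t 1 (nat_lit 0) (.a 3 7 9 15 true), .t 1 (nat_lit 0) (.st 15 4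 5 8), .t 1 (nat_lit 0) (.st 15 4 5 10), .t 1 (nat_lit 0) (.st 15 4 7 8), .t 1 (nat_lit 0) (.st 15 4 7 9), .t 1 (nat_lit 0) (.a 4 7 9 15 true), .t 1 (nat_lit 0) (.st 15 4 7 10), .t 1 (nat_lit 0) (.st 15 5 10 6), .t 1 (nat_lit 0) (.st 15 5 10 9), .t 1 (nat_lit 0) (.st 15 6 10 9), .t 1 (nat_lit 0) (.st 16 0 1 3), .t 1 (nat_lit 0) (.st 16 0 1 4), .t 1 (nat_lit 0) (.st 16 0 1 5), .t 1 (nat_lit 0) (.st 16 0 1 6), .t 1 (nat_lit 0) (.st 16 0 1 7), .t 1 (nat_lit 0) (.st 16 0 1 8), .t 1 (nat_lit 0) (.st 16 0 1 9), .t 1 (nat_lit 0) (.st 16 0 1 10), .t 1 (nat_lit 0) (.st 16 0 2 3)] (by decide +kernel) (by decide +kernel)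
theorem b256 : B 16384 16448 := Blk.of_chk [.t 1 (nat_lit 0) (.st 16 0 2 4), .t 1 (nat_lit 0) (.st 16 0 2 5), .t 1 (nat_lit 0) (.st 16 0 2 6), .t 1 (nat_lit 0) (.st 16 0 2 7), .t 1 (nat_lit 0) (.st 16 0 2 8), .t 1 (nat_lit 0) (.st 16 0 2 9), .t 1 (nat_lit 0) (.st 16 0 2 10), .t 1 (nat_lit 0) (.st 16 0 3 4), .t 1 (nat_lit 0) (.st 16 0 3 5), .t 1 (nat_lit 0) (.st 16 0 3 6), .t 1 (nat_lit 0) (.st 16 0 3 7), .t 1 (nat_lit 0) (.st 16 0 3 8), .t 1 (nat_lit 0) (.st 16 0 3 9), .t 1 (nat_lit 0) (.st 16 0 3 10), .t 1 (nat_lit 0) (.st 16 0 4 5), .t 1 (nat_lit 0) (.st 16 0 4 6), .t 1 (nat_lit 0) (.st 16 0 4 7), .t 1 (nat_lit 0) (.st 16 0 4 8), .t 1 (nat_lit 0) (.st 16 0 4 9), .t 1 (nat_lit 0) (.st 16 0 4 10), .t 1 (nat_lit 0) (.st 16 0 5 6), .t 1 (nat_lit 0) (.st 16 0 5 7), .t 1 (nat_lit 0) (.st 16 0 5 8), .t 1 (nat_lit 0) (.st 16 0 5 9), .t 1 (nat_lit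 0) (.st 16 0 5 10), .t 1 (nat_lit 0) (.st 16 0 6 7), .t 1 (nat_lit 0) (.st 16 0 6 8), .t 1 (nat_lit 0) (.st 16 0 6 9), .t 1 (nat_lit 0) (.st 16 0 6 10), .t 1 (nat_lit 0) (.st 16 0 7 8), .t 1 (nat_lit 0) (.st 16 0 7 9), .t 1 (nat_lit 0) (.st 16 0 7 10), .t 1 (nat_lit 0) (.st 16 0 8 9), .t 1 (nat_lit 0) (.st 16 0 8 10), .t 1 (nat_lit 0) (.st 16 0 9 10), .t 1 (nat_lit 0) (.st 16 1 4 3), .t 1 (nat_lit 0) (.a 1 3 5 16 true), .t 1 (nat_lit 0) (.a 1 3 6 16 true), .t 1 (nat_lit 0) (.a 1 3 8 16 true), .t 1 (nat_lit 0) (.st 16 1 4 5), .t 1 (nat_lit 0) (.st 16 1 4 6), .t 1 (nat_lit 0) (.st 16 1 4 7), .t 1 (nat_lit 0) (.st 16 1 4 8), .t 1 (nat_lit 0) (.a 1 4 10 16 true), .t 1 (nat_lit 0) (.a 1 5 10 16 true), .t 1 (nat_lit 0) (.a 1 7 9 16 true), .t 1 (nat_lit 0) (.a 1 8 9 16 true), .t 1 (nat_lit 0) (.st 16 2 3 4), .t 1 (nat_lit 0) (.st 16 2 3 5), .t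 1 (nat_lit 0) (.st 16 2 3 8), .t 1 (nat_lit 0) (.st 16 2 6 5), .t 1 (nat_lit 0) (.st 16 2 7 5), .t 1 (nat_lit 0) (.st 16 2 5 9), .t 1 (nat_lit 0) (.st 16 2 7 6), .t 1 (nat_lit 0) (.a 2 8 9 16 true), .t 1 (nat_lit 0) (.a 2 8 10 16 true), .t 1 (nat_lit 0) (.st 16 3 5 6), .t 1 (nat_lit 0) (.st 16 3 7 6), .t 1 (nat_lit 0) (.st 16 3 10 6), .t 1 (nat_lit 0) (.a 3 7 9 16 true), .t 1 (nat_lit 0) (.st 16 4 5 8), .t 1 (nat_lit 0) (.st 16 4 5 9), .t 1 (nat_lit 0) (.st 16 4 7 6), .t 1 (nat_lit 0) (.st 16 4 10 6)] (by decide +kernel) (by decide +kernel)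
theorem b257 : B 16448 16512 := Blk.of_chk [.t 1 (nat_lit 0) (.a 4 7 8 16 true), .t 1 (nat_lit 0) (.a 4 7 9 16 true), .t 1 (nat_lit 0) (.a 6 7 8 16 true), .t 1 (nat_lit 0) (.a 6 7 9 16 true), .t 1 (nat_lit 0) (.st 17 0 1 3), .t 1 (nat_lit 0) (.st 17 0 1 4), .t 1 (nat_lit 0) (.st 17 0 1 5), .t 1 (nat_lit 0) (.st 17 0 1 6), .t 1 (nat_lit 0) (.st 17 0 1 7), .t 1 (nat_lit 0) (.st 17 0 1 8), .t 1 (nat_lit 0) (.st 17 0 1 9), .t 1 (nat_lit 0) (.st 17 0 1 10), .t 1 (nat_lit 0) (.st 17 0 2 3), .t 1 (nat_lit 0) (.st 17 0 2 6), .t 1 (nat_lit 0) (.st 17 0 2 7), .t 1 (nat_lit 0) (.st 17 0 2 9), .t 1 (nat_lit 0) (.st 17 0 2 10), .t 1 (nat_lit 0) (.st 17 0 3 4), .t 1 (nat_lit 0) (.st 17 0 3 5), .t 1 (nat_lit 0) (.st 17 0 3 6), .t 1 (nat_lit 0) (.st 17 0 3 7), .t 1 (nat_lit 0) (.st 17 0 3 8), .t 1 (nat_lit 0) (.st 17 0 3 9), .t 1 (nat_lit 0) (.st 17 0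 3 10), .t 1 (nat_lit 0) (.st 17 0 4 5), .t 1 (nat_lit 0) (.a 0 4 5 17 true), .t 1 (nat_lit 0) (.st 17 0 4 6), .t 1 (nat_lit 0) (.a 0 4 6 17 true), .t 1 (nat_lit 0) (.st 17 0 4 7), .t 1 (nat_lit 0) (.st 17 0 4 8), .t 1 (nat_lit 0) (.st 17 0 4 9), .t 1 (nat_lit 0) (.st 17 0 4 10), .t 1 (nat_lit 0) (.st 17 0 5 6), .t 1 (nat_lit 0) (.st 17 0 5 7), .t 1 (nat_lit 0) (.st 17 0 5 8), .t 1 (nat_lit 0) (.st 17 0 5 9), .t 1 (nat_lit 0) (.st 17 0 5 10), .t 1 (nat_lit 0) (.st 17 0 6 7), .t 1 (nat_lit 0) (.st 17 0 6 8), .t 1 (nat_lit 0) (.st 17 0 6 9), .t 1 (nat_lit 0) (.st 17 0 6 10), .t 1 (nat_lit 0) (.st 17 0 7 8), .t 1 (nat_lit 0) (.st 17 0 7 9), .t 1 (nat_lit 0) (.st 17 0 7 10), .t 1 (nat_lit 0) (.st 17 0 8 9), .t 1 (nat_lit 0) (.st 17 0 8 10), .t 1 (nat_lit 0) (.st 17 0 9 10), .t 1 (nat_lit 0) (.st 17 1 4 3), .t 1 (nat_lit 0) (.a 1 3 7 17 true),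 .t 1 (nat_lit 0) (.a 1 3 8 17 true), .t 1 (nat_lit 0) (.a 1 3 9 17 true), .t 1 (nat_lit 0) (.a 1 4 5 17 true), .t 1 (nat_lit 0) (.a 1 4 6 17 true), .t 1 (nat_lit 0) (.st 17 1 4 7), .t 1 (nat_lit 0) (.a 1 4 9 17 true), .t 1 (nat_lit 0) (.a 1 4 10 17 true), .t 1 (nat_lit 0) (.a 2 3 4 17 true), .t 1 (nat_lit 0) (.st 17 2 3 5), .t 1 (nat_lit 0) (.st 17 2 3 6), .t 1 (nat_lit 0) (.a 2 4 6 17 true), .t 1 (nat_lit 0) (.a 2 4 9 17 true), .t 1 (nat_lit 0) (.st 17 2 7 9), .t 1 (nat_lit 0) (.st 17 2 7 10), .t 1 (nat_lit 0) (.a 3 4 7 17 true)] (by decide +kernel) (by decide +kernel)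
theorem b258 : B 16512 16576 := Blk.of_chk [.t 1 (nat_lit 0) (.a 3 4 8 17 true), .t 1 (nat_lit 0) (.a 3 4 10 17 true), .t 1 (nat_lit 0) (.st 17 4 7 6), .t 1 (nat_lit 0) (.st 17 4 7 9), .t 1 (nat_lit 0) (.st 17 4 7 10), .t 1 (nat_lit 0) (.st 17 5 7 10), .t 1 (nat_lit 0) (.st 18 0 1 3), .t 1 (nat_lit 0) (.st 18 0 1 4), .t 1 (nat_lit 0) (.st 18 0 1 5), .t 1 (nat_lit 0) (.st 18 0 1 6), .t 1 (nat_lit 0) (.st 18 0 1 7), .t 1 (nat_lit 0) (.st 18 0 1 8), .t 1 (nat_lit 0) (.st 18 0 1 9), .t 1 (nat_lit 0) (.st 18 0 1 10), .t 1 (nat_lit 0) (.st 18 0 2 4), .t 1 (nat_lit 0) (.st 18 0 2 6), .t 1 (nat_lit 0) (.st 18 0 2 7), .t 1 (nat_lit 0) (.st 18 0 2 8), .t 1 (nat_lit 0) (.st 18 0 2 9), .t 1 (nat_lit 0) (.st 18 0 2 10), .t 1 (nat_lit 0) (.st 18 0 3 4), .t 1 (nat_lit 0) (.st 18 0 3 5), .t 1 (nat_lit 0) (.st 18 0 3 6), .t 1 (nat_lit 0) (.st 18 0 3 7),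 .t 1 (nat_lit 0) (.st 18 0 3 8), .t 1 (nat_lit 0) (.st 18 0 3 9), .t 1 (nat_lit 0) (.st 18 0 3 10), .t 1 (nat_lit 0) (.st 18 0 4 5), .t 1 (nat_lit 0) (.st 18 0 4 6), .t 1 (nat_lit 0) (.st 18 0 4 7), .t 1 (nat_lit 0) (.st 18 0 4 8), .t 1 (nat_lit 0) (.st 18 0 4 9), .t 1 (nat_lit 0) (.st 18 0 4 10), .t 1 (nat_lit 0) (.st 18 0 5 7), .t 1 (nat_lit 0) (.st 18 0 5 8), .t 1 (nat_lit 0) (.st 18 0 5 9), .t 1 (nat_lit 0) (.st 18 0 5 10), .t 1 (nat_lit 0) (.st 18 0 6 7), .t 1 (nat_lit 0) (.st 18 0 6 8), .t 1 (nat_lit 0) (.st 18 0 6 9), .t 1 (nat_lit 0) (.st 18 0 6 10), .t 1 (nat_lit 0) (.st 18 0 7 8), .t 1 (nat_lit 0) (.st 18 0 7 9), .t 1 (nat_lit 0) (.st 18 0 7 10), .t 1 (nat_lit 0) (.st 18 0 8 9), .t 1 (nat_lit 0) (.st 18 0 8 10), .t 1 (nat_lit 0) (.st 18 0 9 10), .t 1 (nat_lit 0) (.a 1 2 7 18 false), .t 1 (nat_lit 0) (.st 18 1 7 2), .t 1 (nat_lit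 0) (.st 18 1 8 2), .t 1 (nat_lit 0) (.a 1 3 6 18 true), .t 1 (nat_lit 0) (.a 1 3 7 18 true), .t 1 (nat_lit 0) (.a 1 3 8 18 true), .t 1 (nat_lit 0) (.a 1 4 5 18 true), .t 1 (nat_lit 0) (.a 1 4 6 18 true), .t 1 (nat_lit 0) (.st 18 1 4 7), .t 1 (nat_lit 0) (.a 1 4 7 18 true), .t 1 (nat_lit 0) (.st 18 1 4 8), .t 1 (nat_lit 0) (.a 1 4 8 18 true), .t 1 (nat_lit 0) (.st 18 1 4 9), .t 1 (nat_lit 0) (.st 18 1 4 10), .t 1 (nat_lit 0) (.a 1 4 10 18 true), .t 1 (nat_lit 0) (.a 1 5 10 18 true), .t 1 (nat_lit 0) (.st 18 1 8 10)] (by decide +kernel) (by decide +kernel)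
theorem b259 : B 16576 16640 := Blk.of_chk [.t 1 (nat_lit 0) (.st 18 1 10 9), .t 1 (nat_lit 0) (.st 18 2 3 5), .t 1 (nat_lit 0) (.st 18 2 3 8), .t 1 (nat_lit 0) (.st 18 2 3 10), .t 1 (nat_lit 0) (.a 2 4 6 18 true), .t 1 (nat_lit 0) (.st 18 2 4 10), .t 1 (nat_lit 0) (.st 18 2 7 5), .t 1 (nat_lit 0) (.st 18 2 5 8), .t 1 (nat_lit 0) (.st 18 2 5 9), .t 1 (nat_lit 0) (.st 18 2 5 10), .t 1 (nat_lit 0) (.st 18 2 6 7), .t 1 (nat_lit 0) (.st 18 2 6 10), .t 1 (nat_lit 0) (.st 18 2 7 9), .t 1 (nat_lit 0) (.st 18 2 7 10), .t 1 (nat_lit 0) (.st 18 2 8 10), .t 1 (nat_lit 0) (.a 3 4 6 18 true), .t 1 (nat_lit 0) (.st 18 3 4 7), .t 1 (nat_lit 0) (.a 3 4 8 18 true), .t 1 (nat_lit 0) (.a 3 4 10 18 true), .t 1 (nat_lit 0) (.st 18 3 10 6), .t 1 (nat_lit 0) (.a 3 7 9 18 true), .t 1 (nat_lit 0) (.st 18 3 8 9), .t 1 (nat_lit 0) (.st 18 3 8 10), .t 1 (nat_lit 0)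 (.a 4 5 7 18 false), .t 1 (nat_lit 0) (.st 18 4 7 5), .t 1 (nat_lit 0) (.a 4 6 7 18 false), .t 1 (nat_lit 0) (.st 18 4 7 6), .t 1 (nat_lit 0) (.st 18 4 7 8), .t 1 (nat_lit 0) (.a 4 7 8 18 true), .t 1 (nat_lit 0) (.a 4 7 9 18 true), .t 1 (nat_lit 0) (.st 18 4 7 10), .t 1 (nat_lit 0) (.st 18 5 7 8), .t 1 (nat_lit 0) (.a 5 7 9 18 true), .t 1 (nat_lit 0) (.st 18 6 7 9), .t 1 (nat_lit 0) (.a 6 7 9 18 true), .t 1 (nat_lit 0) (.st 18 6 7 10), .t 1 (nat_lit 0) (.st 18 8 10 9), .t 1 (nat_lit 0) (.st 1 11 12 14), .t 1 (nat_lit 0) (.st 1 11 14 12), .t 1 (nat_lit 0) (.st 1 11 16 12), .t 1 (nat_lit 0) (.st 1 11 17 12), .t 1 (nat_lit 0) (.st 1 11 14 13), .t 1 (nat_lit 0) (.st 1 11 15 13), .t 1 (nat_lit 0) (.st 1 11 13 16), .t 1 (nat_lit 0) (.st 1 11 16 13), .t 1 (nat_lit 0) (.st 1 11 13 17), .t 1 (nat_lit 0) (.st 1 11 13 18), .t 1 (nat_lit 0) (.st 1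 11 15 14), .t 1 (nat_lit 0) (.st 1 11 14 16), .t 1 (nat_lit 0) (.st 1 11 16 14), .t 1 (nat_lit 0) (.st 1 11 16 15), .t 1 (nat_lit 0) (.st 1 11 17 15), .t 1 (nat_lit 0) (.st 1 11 16 17), .t 1 (nat_lit 0) (.st 1 12 13 15), .t 1 (nat_lit 0) (.st 1 12 16 13), .t 1 (nat_lit 0) (.st 1 12 13 17), .t 1 (nat_lit 0) (.st 1 12 14 15), .t 1 (nat_lit 0) (.st 1 12 14 16), .t 1 (nat_lit 0) (.st 1 12 16 14), .t 1 (nat_lit 0) (.st 1 12 14 17), .t 1 (nat_lit 0) (.st 1 12 14 18), .t 1 (nat_lit 0) (.st 1 12 15 16), .t 1 (nat_lit 0) (.st 1 12 15 17), .t 1 (nat_lit 0) (.st 1 12 17 15)] (by decide +kernel) (by decide +kernel)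
theorem b260 : B 16640 16704 := Blk.of_chk [.t 1 (nat_lit 0) (.st 1 12 15 18), .t 1 (nat_lit 0) (.st 1 12 16 17), .t 1 (nat_lit 0) (.st 1 12 17 16), .t 1 (nat_lit 0) (.st 1 13 14 15), .t 1 (nat_lit 0) (.st 1 13 16 14), .t 1 (nat_lit 0) (.st 1 13 14 17), .t 1 (nat_lit 0) (.st 1 13 14 18), .t 1 (nat_lit 0) (.st 1 13 18 14), .t 1 (nat_lit 0) (.st 1 13 15 16), .t 1 (nat_lit 0) (.st 1 13 16 15), .t 1 (nat_lit 0) (.st 1 13 15 17), .t 1 (nat_lit 0) (.st 1 13 17 15), .t 1 (nat_lit 0) (.st 1 13 15 18), .t 1 (nat_lit 0) (.st 1 13 18 15), .t 1 (nat_lit 0) (.st 1 13 16 17), .t 1 (nat_lit 0) (.st 1 13 17 16), .t 1 (nat_lit 0) (.st 1 13 16 18), .t 1 (nat_lit 0) (.st 1 13 17 18), .t 1 (nat_lit 0) (.st 1 13 18 17), .t 1 (nat_lit 0) (.st 1 14 16 15), .t 1 (nat_lit 0) (.st 1 14 15 17), .t 1 (nat_lit 0) (.st 1 14 17 15), .t 1 (nat_lit 0) (.st 1 14 15 18),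 .t 1 (nat_lit 0) (.st 1 14 18 15), .t 1 (nat_lit 0) (.st 1 14 16 17), .t 1 (nat_lit 0) (.st 1 14 17 16), .t 1 (nat_lit 0) (.st 1 14 16 18), .t 1 (nat_lit 0) (.st 1 14 17 18), .t 1 (nat_lit 0) (.st 1 15 16 17), .t 1 (nat_lit 0) (.st 1 15 16 18), .t 1 (nat_lit 0) (.st 1 16 17 18), .t 1 (nat_lit 0) (.st 2 11 12 14), .t 1 (nat_lit 0) (.st 2 11 14 12), .t 1 (nat_lit 0) (.st 2 11 18 12), .t 1 (nat_lit 0) (.st 2 11 13 14), .t 1 (nat_lit 0) (.st 2 11 13 15), .t 1 (nat_lit 0) (.st 2 11 13 16), .t 1 (nat_lit 0) (.st 2 11 16 13), .t 1 (nat_lit 0) (.st 2 11 13 17), .t 1 (nat_lit 0) (.st 2 11 17 13), .t 1 (nat_lit 0) (.st 2 11 13 18), .t 1 (nat_lit 0) (.st 2 11 14 15), .t 1 (nat_lit 0) (.st 2 11 14 16), .t 1 (nat_lit 0) (.st 2 11 16 14), .t 1 (nat_lit 0) (.st 2 11 14 17), .t 1 (nat_lit 0) (.st 2 11 14 18), .t 1 (nat_lit 0) (.st 2 11 16 15), .t 1 (nat_lit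 0) (.st 2 11 18 16), .t 1 (nat_lit 0) (.st 2 11 17 18), .t 1 (nat_lit 0) (.st 2 12 13 14), .t 1 (nat_lit 0) (.st 2 12 13 15), .t 1 (nat_lit 0) (.st 2 12 13 16), .t 1 (nat_lit 0) (.st 2 12 13 17), .t 1 (nat_lit 0) (.st 2 12 14 15), .t 1 (nat_lit 0) (.st 2 12 14 16), .t 1 (nat_lit 0) (.st 2 12 16 14), .t 1 (nat_lit 0) (.st 2 12 14 17), .t 1 (nat_lit 0) (.st 2 12 14 18), .t 1 (nat_lit 0) (.st 2 12 16 15), .t 1 (nat_lit 0) (.st 2 12 16 17), .t 1 (nat_lit 0) (.st 2 12 16 18), .t 1 (nat_lit 0) (.st 2 12 18 16), .t 1 (nat_lit 0) (.st 2 12 17 18), .t 1 (nat_lit 0) (.st 2 13 14 15)] (by decide +kernel) (by decide +kernel)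
theorem b261 : B 16704 16768 := Blk.of_chk [.t 1 (nat_lit 0) (.st 2 13 14 16), .t 1 (nat_lit 0) (.st 2 13 16 14), .t 1 (nat_lit 0) (.st 2 13 14 17), .t 1 (nat_lit 0) (.st 2 13 17 14), .t 1 (nat_lit 0) (.st 2 13 14 18), .t 1 (nat_lit 0) (.st 2 13 18 14), .t 1 (nat_lit 0) (.st 2 13 16 15), .t 1 (nat_lit 0) (.st 2 13 15 18), .t 1 (nat_lit 0) (.st 2 13 18 15), .t 1 (nat_lit 0) (.st 2 13 18 16), .t 1 (nat_lit 0) (.st 2 13 18 17), .t 1 (nat_lit 0) (.st 2 14 16 15), .t 1 (nat_lit 0) (.st 2 14 15 17), .t 1 (nat_lit 0) (.st 2 14 16 17), .t 1 (nat_lit 0) (.st 2 14 16 18), .t 1 (nat_lit 0) (.st 2 14 18 16), .t 1 (nat_lit 0) (.st 2 15 16 17), .t 1 (nat_lit 0) (.st 2 16 17 18), .t 1 (nat_lit 0) (.st 2 16 18 17), .t 1 (nat_lit 0) (.st 3 11 14 12), .t 1 (nat_lit 0) (.st 3 11 15 13), .t 1 (nat_lit 0) (.st 3 11 16 13), .t 1 (nat_lit 0) (.st 3 11 14 18),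 .t 1 (nat_lit 0) (.st 3 11 17 15), .t 1 (nat_lit 0) (.st 3 12 13 14), .t 1 (nat_lit 0) (.st 3 12 16 14), .t 1 (nat_lit 0) (.st 3 12 14 17), .t 1 (nat_lit 0) (.st 3 12 17 15), .t 1 (nat_lit 0) (.st 3 12 16 18), .t 1 (nat_lit 0) (.st 3 12 17 18), .t 1 (nat_lit 0) (.st 3 13 15 14), .t 1 (nat_lit 0) (.st 3 13 14 16), .t 1 (nat_lit 0) (.st 3 13 16 14), .t 1 (nat_lit 0) (.st 3 13 18 14), .t 1 (nat_lit 0) (.st 3 13 15 18), .t 1 (nat_lit 0) (.st 3 13 17 18), .t 1 (nat_lit 0) (.st 3 13 18 17), .t 1 (nat_lit 0) (.st 3 14 16 15), .t 1 (nat_lit 0) (.st 3 14 17 15), .t 1 (nat_lit 0) (.st 3 14 15 18), .t 1 (nat_lit 0) (.st 3 14 16 17), .t 1 (nat_lit 0) (.st 3 14 17 16), .t 1 (nat_lit 0) (.st 3 14 16 18), .t 1 (nat_lit 0) (.st 3 14 17 18), .t 1 (nat_lit 0) (.st 3 15 16 17), .t 1 (nat_lit 0) (.st 3 15 16 18), .t 1 (nat_lit 0) (.st 3 15 18 16), .t 1 (nat_lit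 0) (.st 3 16 17 18), .t 1 (nat_lit 0) (.st 4 11 14 12), .t 1 (nat_lit 0) (.st 4 11 15 12), .t 1 (nat_lit 0) (.st 4 11 17 12), .t 1 (nat_lit 0) (.st 4 11 14 13), .t 1 (nat_lit 0) (.st 4 11 15 13), .t 1 (nat_lit 0) (.st 4 11 16 13), .t 1 (nat_lit 0) (.st 4 11 17 15), .t 1 (nat_lit 0) (.st 4 12 13 14), .t 1 (nat_lit 0) (.st 4 12 13 15), .t 1 (nat_lit 0) (.st 4 12 13 17), .t 1 (nat_lit 0) (.st 4 12 13 18), .t 1 (nat_lit 0) (.st 4 12 14 15), .t 1 (nat_lit 0) (.st 4 12 16 14), .t 1 (nat_lit 0) (.st 4 12 14 17), .t 1 (nat_lit 0) (.st 4 12 17 14), .t 1 (nat_lit 0) (.st 4 12 17 15)] (by decide +kernel) (by decide +kernel)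
theorem b262 : B 16768 16832 := Blk.of_chk [.t 1 (nat_lit 0) (.st 4 12 15 18), .t 1 (nat_lit 0) (.st 4 12 17 16), .t 1 (nat_lit 0) (.st 4 12 16 18), .t 1 (nat_lit 0) (.st 4 12 17 18), .t 1 (nat_lit 0) (.st 4 13 14 16), .t 1 (nat_lit 0) (.st 4 13 17 14), .t 1 (nat_lit 0) (.st 4 13 16 15), .t 1 (nat_lit 0) (.st 4 13 15 18), .t 1 (nat_lit 0) (.st 4 13 18 15), .t 1 (nat_lit 0) (.st 4 13 16 18), .t 1 (nat_lit 0) (.st 4 13 17 18), .t 1 (nat_lit 0) (.st 4 14 16 15), .t 1 (nat_lit 0) (.st 4 14 16 17), .t 1 (nat_lit 0) (.st 4 14 17 16), .t 1 (nat_lit 0) (.st 4 14 16 18), .t 1 (nat_lit 0) (.st 4 14 17 18), .t 1 (nat_lit 0) (.st 4 15 16 18), .t 1 (nat_lit 0) (.st 4 16 17 18), .t 1 (nat_lit 0) (.st 5 11 14 12), .t 1 (nat_lit 0) (.st 5 11 15 12), .t 1 (nat_lit 0) (.st 5 11 14 13), .t 1 (nat_lit 0) (.st 5 11 15 13), .t 1 (nat_lit 0) (.st 5 11 16 13),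 .t 1 (nat_lit 0) (.st 5 12 13 16), .t 1 (nat_lit 0) (.st 5 12 16 14), .t 1 (nat_lit 0) (.st 5 12 14 17), .t 1 (nat_lit 0) (.st 5 12 18 14), .t 1 (nat_lit 0) (.st 5 12 17 15), .t 1 (nat_lit 0) (.st 5 12 15 18), .t 1 (nat_lit 0) (.st 5 12 16 17), .t 1 (nat_lit 0) (.st 5 12 17 18), .t 1 (nat_lit 0) (.st 5 13 18 14), .t 1 (nat_lit 0) (.st 5 13 15 18), .t 1 (nat_lit 0) (.st 5 13 17 18), .t 1 (nat_lit 0) (.st 5 14 15 17), .t 1 (nat_lit 0) (.st 5 14 15 18), .t 1 (nat_lit 0) (.st 5 14 16 18), .t 1 (nat_lit 0) (.st 5 14 17 18), .t 1 (nat_lit 0) (.st 5 15 16 18), .t 1 (nat_lit 0) (.st 5 15 17 18), .t 1 (nat_lit 0) (.st 6 11 14 12), .t 1 (nat_lit 0) (.st 6 11 15 12), .t 1 (nat_lit 0) (.st 6 11 14 13), .t 1 (nat_lit 0) (.st 6 11 15 13), .t 1 (nat_lit 0) (.st 6 11 16 13), .t 1 (nat_lit 0) (.st 6 12 16 14), .t 1 (nat_lit 0) (.st 6 12 14 17), .t 1 (nat_lit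 0) (.st 6 12 14 18), .t 1 (nat_lit 0) (.st 6 12 18 14), .t 1 (nat_lit 0) (.st 6 12 15 18), .t 1 (nat_lit 0) (.st 6 13 14 18), .t 1 (nat_lit 0) (.st 6 13 18 14), .t 1 (nat_lit 0) (.st 6 13 15 18), .t 1 (nat_lit 0) (.st 6 13 16 17), .t 1 (nat_lit 0) (.st 6 14 15 17), .t 1 (nat_lit 0) (.st 6 15 16 18), .t 1 (nat_lit 0) (.st 7 11 14 12), .t 1 (nat_lit 0) (.st 7 11 15 12), .t 1 (nat_lit 0) (.st 7 11 14 13), .t 1 (nat_lit 0) (.st 7 11 15 13), .t 1 (nat_lit 0) (.st 7 11 16 13), .t 1 (nat_lit 0) (.st 7 12 13 15), .t 1 (nat_lit 0) (.st 7 12 13 17), .t 1 (nat_lit 0) (.st 7 12 16 14)] (by decide +kernel) (by decide +kernel)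
theorem b263 : B 16832 16896 := Blk.of_chk [.t 1 (nat_lit 0) (.st 7 12 14 17), .t 1 (nat_lit 0) (.st 7 12 15 18), .t 1 (nat_lit 0) (.st 7 12 16 18), .t 1 (nat_lit 0) (.st 7 12 17 18), .t 1 (nat_lit 0) (.st 7 13 14 15), .t 1 (nat_lit 0) (.st 7 13 14 17), .t 1 (nat_lit 0) (.st 7 13 18 14), .t 1 (nat_lit 0) (.st 7 13 16 15), .t 1 (nat_lit 0) (.st 7 13 18 15), .t 1 (nat_lit 0) (.st 7 13 16 17), .t 1 (nat_lit 0) (.st 7 14 15 17), .t 1 (nat_lit 0) (.st 7 14 17 15), .t 1 (nat_lit 0) (.st 7 14 17 18), .t 1 (nat_lit 0) (.st 7 15 18 17), .t 1 (nat_lit 0) (.st 8 11 14 12), .t 1 (nat_lit 0) (.st 8 11 15 12), .t 1 (nat_lit 0) (.st 8 11 16 12), .t 1 (nat_lit 0) (.st 8 11 14 13), .t 1 (nat_lit 0) (.st 8 11 15 13), .t 1 (nat_lit 0) (.st 8 11 16 13), .t 1 (nat_lit 0) (.st 8 12 16 14), .t 1 (nat_lit 0) (.st 8 12 14 17), .t 1 (nat_lit 0) (.st 8 12 17 15),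 .t 1 (nat_lit 0) (.st 8 12 15 18), .t 1 (nat_lit 0) (.st 8 12 16 18), .t 1 (nat_lit 0) (.st 8 12 17 18), .t 1 (nat_lit 0) (.st 8 12 18 17), .t 1 (nat_lit 0) (.st 8 13 14 17), .t 1 (nat_lit 0) (.st 8 13 15 18), .t 1 (nat_lit 0) (.st 8 13 16 17), .t 1 (nat_lit 0) (.st 8 14 15 16), .t 1 (nat_lit 0) (.st 8 14 15 17), .t 1 (nat_lit 0) (.st 8 14 18 16), .t 1 (nat_lit 0) (.st 8 14 17 18), .t 1 (nat_lit 0) (.st 8 14 18 17), .t 1 (nat_lit 0) (.st 8 15 16 18), .t 1 (nat_lit 0) (.st 8 15 17 18), .t 1 (nat_lit 0) (.st 8 16 17 18), .t 1 (nat_lit 0) (.st 8 16 18 17), .t 1 (nat_lit 0) (.st 9 11 14 12), .t 1 (nat_lit 0) (.st 9 11 12 15), .t 1 (nat_lit 0) (.st 9 11 15 12), .t 1 (nat_lit 0) (.st 9 11 16 12), .t 1 (nat_lit 0) (.st 9 11 17 12), .t 1 (nat_lit 0) (.st 9 11 12 18), .t 1 (nat_lit 0) (.st 9 11 18 12), .t 1 (nat_lit 0) (.st 9 11 14 13), .t 1 (nat_lit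 0) (.st 9 11 13 15), .t 1 (nat_lit 0) (.st 9 11 15 13), .t 1 (nat_lit 0) (.st 9 11 13 16), .t 1 (nat_lit 0) (.st 9 11 16 13), .t 1 (nat_lit 0) (.st 9 11 13 17), .t 1 (nat_lit 0) (.st 9 11 13 18), .t 1 (nat_lit 0) (.st 9 11 18 13), .t 1 (nat_lit 0) (.st 9 11 14 15), .t 1 (nat_lit 0) (.st 9 11 15 14), .t 1 (nat_lit 0) (.st 9 11 14 16), .t 1 (nat_lit 0) (.st 9 11 16 14), .t 1 (nat_lit 0) (.st 9 11 14 17), .t 1 (nat_lit 0) (.st 9 11 17 14), .t 1 (nat_lit 0) (.st 9 11 14 18), .t 1 (nat_lit 0) (.st 9 11 18 14), .t 1 (nat_lit 0) (.st 9 11 17 16), .t 1 (nat_lit 0) (.st 9 12 13 14)] (by decide +kernel) (by decide +kernel)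
theorem b264 : B 16896 16960 := Blk.of_chk [.t 1 (nat_lit 0) (.st 9 12 13 15), .t 1 (nat_lit 0) (.st 9 12 15 13), .t 1 (nat_lit 0) (.st 9 12 13 16), .t 1 (nat_lit 0) (.st 9 12 13 17), .t 1 (nat_lit 0) (.st 9 12 17 13), .t 1 (nat_lit 0) (.st 9 12 13 18), .t 1 (nat_lit 0) (.st 9 12 18 13), .t 1 (nat_lit 0) (.st 9 12 14 15), .t 1 (nat_lit 0) (.st 9 12 15 14), .t 1 (nat_lit 0) (.st 9 12 14 16), .t 1 (nat_lit 0) (.st 9 12 16 14), .t 1 (nat_lit 0) (.st 9 12 14 17), .t 1 (nat_lit 0) (.st 9 12 17 14), .t 1 (nat_lit 0) (.st 9 12 14 18), .t 1 (nat_lit 0) (.st 9 12 18 14), .t 1 (nat_lit 0) (.st 9 12 15 16), .t 1 (nat_lit 0) (.st 9 12 16 15), .t 1 (nat_lit 0) (.st 9 12 15 17), .t 1 (nat_lit 0) (.st 9 12 17 15), .t 1 (nat_lit 0) (.st 9 12 15 18), .t 1 (nat_lit 0) (.st 9 12 18 15), .t 1 (nat_lit 0) (.st 9 12 16 17), .t 1 (nat_lit 0) (.st 9 12 17 16),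 .t 1 (nat_lit 0) (.st 9 12 16 18), .t 1 (nat_lit 0) (.st 9 12 17 18), .t 1 (nat_lit 0) (.st 9 12 18 17), .t 1 (nat_lit 0) (.st 9 13 14 15), .t 1 (nat_lit 0) (.st 9 13 15 14), .t 1 (nat_lit 0) (.st 9 13 14 16), .t 1 (nat_lit 0) (.st 9 13 16 14), .t 1 (nat_lit 0) (.st 9 13 14 17), .t 1 (nat_lit 0) (.st 9 13 17 14), .t 1 (nat_lit 0) (.st 9 13 14 18), .t 1 (nat_lit 0) (.st 9 13 18 14), .t 1 (nat_lit 0) (.st 9 13 16 15), .t 1 (nat_lit 0) (.st 9 13 15 17), .t 1 (nat_lit 0) (.st 9 13 17 15), .t 1 (nat_lit 0) (.st 9 13 15 18), .t 1 (nat_lit 0) (.st 9 13 18 15), .t 1 (nat_lit 0) (.st 9 13 16 17), .t 1 (nat_lit 0) (.st 9 13 17 16), .t 1 (nat_lit 0) (.st 9 13 16 18), .t 1 (nat_lit 0) (.st 9 13 17 18), .t 1 (nat_lit 0) (.st 9 13 18 17), .t 1 (nat_lit 0) (.st 9 14 16 15), .t 1 (nat_lit 0) (.st 9 14 15 17), .t 1 (nat_lit 0) (.st 9 14 15 18), .t 1 (nat_lit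 0) (.st 9 14 18 15), .t 1 (nat_lit 0) (.st 9 14 16 17), .t 1 (nat_lit 0) (.st 9 14 17 16), .t 1 (nat_lit 0) (.st 9 14 16 18), .t 1 (nat_lit 0) (.st 9 14 17 18), .t 1 (nat_lit 0) (.st 9 14 18 17), .t 1 (nat_lit 0) (.st 9 15 16 17), .t 1 (nat_lit 0) (.st 9 15 17 16), .t 1 (nat_lit 0) (.st 9 15 16 18), .t 1 (nat_lit 0) (.st 9 15 17 18), .t 1 (nat_lit 0) (.st 9 15 18 17), .t 1 (nat_lit 0) (.st 9 16 17 18), .t 1 (nat_lit 0) (.st 9 16 18 17), .t 1 (nat_lit 0) (.st 10 11 14 12), .t 1 (nat_lit 0) (.st 10 11 14 13), .t 1 (nat_lit 0) (.st 10 11 13 16), .t 1 (nat_lit 0) (.st 10 11 16 13)] (by decide +kernel) (by decide +kernel)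
theorem b265 : B 16960 17024 := Blk.of_chk [.t 1 (nat_lit 0) (.st 10 11 13 18), .t 1 (nat_lit 0) (.st 10 11 16 15), .t 1 (nat_lit 0) (.st 10 12 13 15), .t 1 (nat_lit 0) (.st 10 12 13 16), .t 1 (nat_lit 0) (.st 10 12 17 14), .t 1 (nat_lit 0) (.st 10 12 18 14), .t 1 (nat_lit 0) (.st 10 12 17 18), .t 1 (nat_lit 0) (.st 10 13 14 15), .t 1 (nat_lit 0) (.st 10 13 14 16), .t 1 (nat_lit 0) (.st 10 13 14 17), .t 1 (nat_lit 0) (.st 10 13 14 18), .t 1 (nat_lit 0) (.st 10 13 15 16), .t 1 (nat_lit 0) (.st 10 13 18 15), .t 1 (nat_lit 0) (.st 10 13 17 18), .t 1 (nat_lit 0) (.st 10 14 16 15), .t 1 (nat_lit 0) (.st 10 14 15 17), .t 1 (nat_lit 0) (.st 10 14 17 15), .t 1 (nat_lit 0) (.st 10 14 15 18), .t 1 (nat_lit 0) (.st 10 14 17 18), .t 1 (nat_lit 0) (.st 10 15 16 18), .t 1 (nat_lit 0) (.st 10 15 17 18), .t 1 (nat_lit 0) (.st 10 15 18 17), .t 1 (nat_lit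 0) (.st 10 16 17 18), .t 1 (nat_lit 0) (.st 10 16 18 17), .t 1 (nat_lit 0) (.sx 1 0 11 12), .t 1 (nat_lit 0) (.sx 1 0 11 13), .t 1 (nat_lit 0) (.sx 1 0 11 14), .t 1 (nat_lit 0) (.sx 1 0 11 15), .t 1 (nat_lit 0) (.sx 1 0 11 16), .t 1 (nat_lit 0) (.sx 1 0 11 17), .t 1 (nat_lit 0) (.sx 1 0 11 18), .t 1 (nat_lit 0) (.sx 1 0 12 13), .t 1 (nat_lit 0) (.sx 1 0 12 14), .t 1 (nat_lit 0) (.sx 1 0 12 15), .t 1 (nat_lit 0) (.sx 1 0 12 16), .t 1 (nat_lit 0) (.sx 1 0 12 17), .t 1 (nat_lit 0) (.sx 1 0 12 18), .t 1 (nat_lit 0) (.sx 1 0 13 14), .t 1 (nat_lit 0) (.sx 1 0 13 15), .t 1 (nat_lit 0) (.sx 1 0 13 16), .t 1 (nat_lit 0) (.sx 1 0 13 17), .t 1 (nat_lit 0) (.sx 1 0 13 18), .t 1 (nat_lit 0) (.sx 1 0 14 15), .t 1 (nat_lit 0) (.sx 1 0 14 16), .t 1 (nat_lit 0) (.sx 1 0 14 17), .t 1 (nat_lit 0) (.sx 1 0 14 18), .t 1 (nat_lit 0) (.sx 1 0 15 16), .t 1 (nat_lit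 0) (.sx 1 0 15 18), .t 1 (nat_lit 0) (.sx 1 0 16 18), .t 1 (nat_lit 0) (.sx 1 0 17 18), .t 1 (nat_lit 0) (.sx 2 0 11 13), .t 1 (nat_lit 0) (.sx 2 0 11 14), .t 1 (nat_lit 0) (.sx 2 0 11 15), .t 1 (nat_lit 0) (.sx 2 0 11 16), .t 1 (nat_lit 0) (.sx 2 0 11 17), .t 1 (nat_lit 0) (.sx 2 0 11 18), .t 1 (nat_lit 0) (.sx 2 0 12 13), .t 1 (nat_lit 0) (.sx 2 0 12 14), .t 1 (nat_lit 0) (.sx 2 0 12 15), .t 1 (nat_lit 0) (.sx 2 0 12 16), .t 1 (nat_lit 0) (.sx 2 0 12 17), .t 1 (nat_lit 0) (.sx 2 0 12 18), .t 1 (nat_lit 0) (.sx 2 0 13 14), .t 1 (nat_lit 0) (.sx 2 0 13 15)] (by decide +kernel) (by decide +kernel)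
theorem b266 : B 17024 17088 := Blk.of_chk [.t 1 (nat_lit 0) (.sx 2 0 13 16), .t 1 (nat_lit 0) (.sx 2 0 13 17), .t 1 (nat_lit 0) (.sx 2 0 13 18), .t 1 (nat_lit 0) (.sx 2 0 14 15), .t 1 (nat_lit 0) (.sx 2 0 14 16), .t 1 (nat_lit 0) (.sx 2 0 14 17), .t 1 (nat_lit 0) (.sx 2 0 14 18), .t 1 (nat_lit 0) (.sx 2 0 15 16), .t 1 (nat_lit 0) (.sx 2 0 15 17), .t 1 (nat_lit 0) (.sx 2 0 15 18), .t 1 (nat_lit 0) (.sx 2 0 16 18), .t 1 (nat_lit 0) (.sx 2 0 17 18), .t 1 (nat_lit 0) (.sx 3 0 11 14), .t 1 (nat_lit 0) (.sx 3 0 11 15), .t 1 (nat_lit 0) (.sx 3 0 11 16), .t 1 (nat_lit 0) (.sx 3 0 11 17), .t 1 (nat_lit 0) (.sx 3 0 11 18), .t 1 (nat_lit 0) (.sx 3 0 12 14), .t 1 (nat_lit 0) (.sx 3 0 12 15), .t 1 (nat_lit 0) (.sx 3 0 12 16), .t 1 (nat_lit 0) (.sx 3 0 12 17), .t 1 (nat_lit 0) (.sx 3 0 12 18), .t 1 (nat_lit 0) (.sx 3 0 13 14), .t 1 (nat_lit 0) (.sx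 3 0 13 15), .t 1 (nat_lit 0) (.sx 3 0 13 16), .t 1 (nat_lit 0) (.sx 3 0 13 17), .t 1 (nat_lit 0) (.sx 3 0 13 18), .t 1 (nat_lit 0) (.sx 3 0 14 15), .t 1 (nat_lit 0) (.sx 3 0 14 16), .t 1 (nat_lit 0) (.sx 3 0 14 17), .t 1 (nat_lit 0) (.sx 3 0 14 18), .t 1 (nat_lit 0) (.sx 3 0 15 16), .t 1 (nat_lit 0) (.sx 3 0 15 18), .t 1 (nat_lit 0) (.sx 3 0 16 17), .t 1 (nat_lit 0) (.sx 3 0 16 18), .t 1 (nat_lit 0) (.sx 3 0 17 18), .t 1 (nat_lit 0) (.sx 4 0 11 14), .t 1 (nat_lit 0) (.sx 4 0 11 15), .t 1 (nat_lit 0) (.sx 4 0 11 16), .t 1 (nat_lit 0) (.sx 4 0 11 17), .t 1 (nat_lit 0) (.sx 4 0 11 18), .t 1 (nat_lit 0) (.sx 4 0 12 14), .t 1 (nat_lit 0) (.sx 4 0 12 15), .t 1 (nat_lit 0) (.sx 4 0 12 16), .t 1 (nat_lit 0) (.sx 4 0 12 17), .t 1 (nat_lit 0) (.sx 4 0 12 18), .t 1 (nat_lit 0) (.sx 4 0 13 14), .t 1 (nat_lit 0) (.sx 4 0 13 15), .t 1 (nat_lit 0) (.sx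 4 0 13 16), .t 1 (nat_lit 0) (.sx 4 0 13 17), .t 1 (nat_lit 0) (.sx 4 0 13 18), .t 1 (nat_lit 0) (.sx 4 0 14 15), .t 1 (nat_lit 0) (.sx 4 0 14 16), .t 1 (nat_lit 0) (.sx 4 0 14 17), .t 1 (nat_lit 0) (.sx 4 0 14 18), .t 1 (nat_lit 0) (.sx 4 0 15 16), .t 1 (nat_lit 0) (.sx 4 0 15 17), .t 1 (nat_lit 0) (.sx 4 0 15 18), .t 1 (nat_lit 0) (.sx 4 0 16 17), .t 1 (nat_lit 0) (.sx 4 0 16 18), .t 1 (nat_lit 0) (.sx 4 0 17 18), .t 1 (nat_lit 0) (.sx 5 0 11 14), .t 1 (nat_lit 0) (.sx 5 0 11 15), .t 1 (nat_lit 0) (.sx 5 0 11 16)] (by decide +kernel) (by decide +kernel)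
theorem b267 : B 17088 17152 := Blk.of_chk [.t 1 (nat_lit 0) (.sx 5 0 11 17), .t 1 (nat_lit 0) (.sx 5 0 11 18), .t 1 (nat_lit 0) (.sx 5 0 12 15), .t 1 (nat_lit 0) (.sx 5 0 12 16), .t 1 (nat_lit 0) (.sx 5 0 12 17), .t 1 (nat_lit 0) (.sx 5 0 12 18), .t 1 (nat_lit 0) (.sx 5 0 13 14), .t 1 (nat_lit 0) (.sx 5 0 13 15), .t 1 (nat_lit 0) (.sx 5 0 13 16), .t 1 (nat_lit 0) (.sx 5 0 13 17), .t 1 (nat_lit 0) (.sx 5 0 13 18), .t 1 (nat_lit 0) (.sx 5 0 14 15), .t 1 (nat_lit 0) (.sx 5 0 14 16), .t 1 (nat_lit 0) (.sx 5 0 14 17), .t 1 (nat_lit 0) (.sx 5 0 14 18), .t 1 (nat_lit 0) (.sx 5 0 15 18), .t 1 (nat_lit 0) (.sx 6 0 11 14), .t 1 (nat_lit 0) (.sx 6 0 11 15), .t 1 (nat_lit 0) (.sx 6 0 11 16), .t 1 (nat_lit 0) (.sx 6 0 11 17), .t 1 (nat_lit 0) (.sx 6 0 11 18), .t 1 (nat_lit 0) (.sx 6 0 12 15), .t 1 (nat_lit 0) (.sx 6 0 12 16), .t 1 (nat_lit 0) (.sx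 6 0 12 17), .t 1 (nat_lit 0) (.sx 6 0 12 18), .t 1 (nat_lit 0) (.sx 6 0 13 15), .t 1 (nat_lit 0) (.sx 6 0 13 16), .t 1 (nat_lit 0) (.sx 6 0 13 17), .t 1 (nat_lit 0) (.sx 6 0 13 18), .t 1 (nat_lit 0) (.sx 6 0 14 15), .t 1 (nat_lit 0) (.sx 6 0 14 16), .t 1 (nat_lit 0) (.sx 6 0 14 17), .t 1 (nat_lit 0) (.sx 6 0 14 18), .t 1 (nat_lit 0) (.sx 6 0 15 16), .t 1 (nat_lit 0) (.sx 6 0 15 17), .t 1 (nat_lit 0) (.sx 6 0 15 18), .t 1 (nat_lit 0) (.sx 6 0 16 18), .t 1 (nat_lit 0) (.sx 6 0 17 18), .t 1 (nat_lit 0) (.sx 7 0 11 15), .t 1 (nat_lit 0) (.sx 7 0 11 16), .t 1 (nat_lit 0) (.sx 7 0 11 17), .t 1 (nat_lit 0) (.sx 7 0 11 18), .t 1 (nat_lit 0) (.sx 7 0 12 15), .t 1 (nat_lit 0) (.sx 7 0 12 16), .t 1 (nat_lit 0) (.sx 7 0 12 17), .t 1 (nat_lit 0) (.sx 7 0 12 18), .t 1 (nat_lit 0) (.sx 7 0 13 15), .t 1 (nat_lit 0) (.sx 7 0 13 16), .t 1 (nat_lit 0) (.sx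 7 0 13 17), .t 1 (nat_lit 0) (.sx 7 0 13 18), .t 1 (nat_lit 0) (.sx 7 0 14 15), .t 1 (nat_lit 0) (.sx 7 0 14 16), .t 1 (nat_lit 0) (.sx 7 0 14 17), .t 1 (nat_lit 0) (.sx 7 0 14 18), .t 1 (nat_lit 0) (.sx 7 0 15 16), .t 1 (nat_lit 0) (.sx 7 0 15 17), .t 1 (nat_lit 0) (.sx 7 0 15 18), .t 1 (nat_lit 0) (.sx 7 0 16 17), .t 1 (nat_lit 0) (.sx 7 0 16 18), .t 1 (nat_lit 0) (.sx 7 0 17 18), .t 1 (nat_lit 0) (.sx 8 0 11 16), .t 1 (nat_lit 0) (.sx 8 0 11 17), .t 1 (nat_lit 0) (.sx 8 0 11 18), .t 1 (nat_lit 0) (.sx 8 0 12 16)] (by decide +kernel) (by decide +kernel)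
theorem b268 : B 17152 17216 := Blk.of_chk [.t 1 (nat_lit 0) (.sx 8 0 12 17), .t 1 (nat_lit 0) (.sx 8 0 12 18), .t 1 (nat_lit 0) (.sx 8 0 13 15), .t 1 (nat_lit 0) (.sx 8 0 13 16), .t 1 (nat_lit 0) (.sx 8 0 13 17), .t 1 (nat_lit 0) (.sx 8 0 13 18), .t 1 (nat_lit 0) (.sx 8 0 14 15), .t 1 (nat_lit 0) (.sx 8 0 14 16), .t 1 (nat_lit 0) (.sx 8 0 14 17), .t 1 (nat_lit 0) (.sx 8 0 14 18), .t 1 (nat_lit 0) (.sx 8 0 15 18), .t 1 (nat_lit 0) (.sx 9 0 11 13), .t 1 (nat_lit 0) (.sx 9 0 11 14), .t 1 (nat_lit 0) (.sx 9 0 11 15), .t 1 (nat_lit 0) (.sx 9 0 11 16), .t 1 (nat_lit 0) (.sx 9 0 11 17), .t 1 (nat_lit 0) (.sx 9 0 11 18), .t 1 (nat_lit 0) (.sx 9 0 12 13), .t 1 (nat_lit 0) (.sx 9 0 12 14), .t 1 (nat_lit 0) (.sx 9 0 12 15), .t 1 (nat_lit 0) (.sx 9 0 12 16), .t 1 (nat_lit 0) (.sx 9 0 12 17), .t 1 (nat_lit 0) (.sx 9 0 12 18), .t 1 (nat_lit 0) (.sx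 9 0 13 14), .t 1 (nat_lit 0) (.sx 9 0 13 15), .t 1 (nat_lit 0) (.sx 9 0 13 16), .t 1 (nat_lit 0) (.sx 9 0 13 17), .t 1 (nat_lit 0) (.sx 9 0 13 18), .t 1 (nat_lit 0) (.sx 9 0 14 15), .t 1 (nat_lit 0) (.sx 9 0 14 16), .t 1 (nat_lit 0) (.sx 9 0 14 17), .t 1 (nat_lit 0) (.sx 9 0 14 18), .t 1 (nat_lit 0) (.sx 9 0 15 16), .t 1 (nat_lit 0) (.sx 9 0 15 17), .t 1 (nat_lit 0) (.sx 9 0 15 18), .t 1 (nat_lit 0) (.sx 9 0 16 17), .t 1 (nat_lit 0) (.sx 9 0 16 18), .t 1 (nat_lit 0) (.sx 10 0 11 16), .t 1 (nat_lit 0) (.sx 10 0 11 17), .t 1 (nat_lit 0) (.sx 10 0 11 18), .t 1 (nat_lit 0) (.sx 10 0 12 15), .t 1 (nat_lit 0) (.sx 10 0 12 18), .t 1 (nat_lit 0) (.sx 10 0 13 15), .t 1 (nat_lit 0) (.sx 10 0 13 16), .t 1 (nat_lit 0) (.sx 10 0 13 17), .t 1 (nat_lit 0) (.sx 10 0 13 18), .t 1 (nat_lit 0) (.sx 10 0 14 15), .t 1 (nat_lit 0) (.sx 10 0 14 17), .t 1 (nat_lit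 0) (.sx 10 0 14 18), .t 1 (nat_lit 0) (.sx 10 0 15 17), .t 1 (nat_lit 0) (.sx 10 0 15 18), .t 1 (nat_lit 0) (.sx 10 0 16 17), .t 1 (nat_lit 0) (.sx 10 0 16 18), .t 1 (nat_lit 0) (.sx 1 2 11 12), .t 1 (nat_lit 0) (.a 1 2 11 14 true), .t 1 (nat_lit 0) (.a 1 2 11 14 false), .t 1 (nat_lit 0) (.a 1 2 11 18 true), .t 1 (nat_lit 0) (.a 1 2 13 14 true), .t 1 (nat_lit 0) (.sx 1 2 13 15), .t 1 (nat_lit 0) (.sx 1 2 13 17), .t 1 (nat_lit 0) (.a 1 2 15 16 true), .t 1 (nat_lit 0) (.a 1 3 11 14 false), .t 1 (nat_lit 0) (.a 1 3 11 15 true), .t 1 (nat_lit 0) (.a 1 3 11 16 true)] (by decide +kernel) (by decide +kernel)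
theorem b269 : B 17216 17280 := Blk.of_chk [.t 1 (nat_lit 0) (.sx 3 1 11 16), .t 1 (nat_lit 0) (.a 1 3 11 17 true), .t 1 (nat_lit 0) (.a 1 3 11 18 true), .t 1 (nat_lit 0) (.a 1 3 12 16 false), .t 1 (nat_lit 0) (.a 1 3 12 17 true), .t 1 (nat_lit 0) (.a 1 3 13 15 true), .t 1 (nat_lit 0) (.a 1 3 13 16 true), .t 1 (nat_lit 0) (.a 1 3 13 17 true), .t 1 (nat_lit 0) (.a 1 3 13 18 true), .t 1 (nat_lit 0) (.a 1 3 14 15 true), .t 1 (nat_lit 0) (.a 1 3 14 16 true), .t 1 (nat_lit 0) (.a 1 3 14 18 true), .t 1 (nat_lit 0) (.a 1 3 15 18 true), .t 1 (nat_lit 0) (.a 1 3 16 18 true), .t 1 (nat_lit 0) (.a 1 3 17 18 true), .t 1 (nat_lit 0) (.sx 4 1 11 16), .t 1 (nat_lit 0) (.a 1 4 12 16 true), .t 1 (nat_lit 0) (.sx 4 1 12 16), .t 1 (nat_lit 0) (.a 1 4 12 16 false), .t 1 (nat_lit 0) (.sx 4 1 12 17), .t 1 (nat_lit 0) (.sx 1 4 13 14), .t 1 (nat_lit 0) (.a 1 4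 13 15 false), .t 1 (nat_lit 0) (.sx 4 1 13 16), .t 1 (nat_lit 0) (.sx 4 1 13 17), .t 1 (nat_lit 0) (.sx 4 1 13 18), .t 1 (nat_lit 0) (.sx 1 4 13 18), .t 1 (nat_lit 0) (.sx 4 1 14 16), .t 1 (nat_lit 0) (.sx 4 1 14 17), .t 1 (nat_lit 0) (.sx 4 1 14 18), .t 1 (nat_lit 0) (.sx 4 1 15 16), .t 1 (nat_lit 0) (.a 1 4 15 16 false), .t 1 (nat_lit 0) (.sx 4 1 15 17), .t 1 (nat_lit 0) (.sx 1 4 15 17), .t 1 (nat_lit 0) (.a 1 4 15 18 true), .t 1 (nat_lit 0) (.sx 4 1 15 18), .t 1 (nat_lit 0) (.sx 1 4 16 17), .t 1 (nat_lit 0) (.sx 4 1 16 18), .t 1 (nat_lit 0) (.sx 1 4 17 18), .t 1 (nat_lit 0) (.a 1 5 12 13 false), .t 1 (nat_lit 0) (.a 1 5 12 16 false), .t 1 (nat_lit 0) (.a 1 5 12 18 true), .t 1 (nat_lit 0) (.a 1 5 12 18 false), .t 1 (nat_lit 0) (.a 1 5 13 15 false), .t 1 (nat_lit 0) (.a 1 5 13 16 true), .t 1 (nat_lit 0) (.a 1 5 14 16 true), .t 1 (nat_lit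 0) (.a 1 6 11 14 false), .t 1 (nat_lit 0) (.a 1 6 12 16 false), .t 1 (nat_lit 0) (.a 1 6 12 18 false), .t 1 (nat_lit 0) (.a 1 6 13 18 true), .t 1 (nat_lit 0) (.a 1 6 14 17 true), .t 1 (nat_lit 0) (.a 1 6 14 18 true), .t 1 (nat_lit 0) (.a 1 7 12 16 false), .t 1 (nat_lit 0) (.a 1 7 12 18 false), .t 1 (nat_lit 0) (.a 1 7 14 16 true), .t 1 (nat_lit 0) (.sx 1 8 12 14), .t 1 (nat_lit 0) (.a 1 8 12 16 false), .t 1 (nat_lit 0) (.a 1 8 12 18 false), .t 1 (nat_lit 0) (.a 1 9 11 14 true), .t 1 (nat_lit 0) (.a 1 9 11 18 true), .t 1 (nat_lit 0) (.sx 1 9 11 18), .t 1 (nat_lit 0) (.a 1 9 11 18 false), .t 1 (nat_lit 0) (.a 1 9 12 13 true), .t 1 (nat_lit 0) (.sx 1 9 12 16), .t 1 (nat_lit 0) (.a 1 9 13 14 false)] (by decide +kernel) (by decide +kernel)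
theorem b270 : B 17280 17344 := Blk.of_chk [.t 1 (nat_lit 0) (.sx 1 9 13 15), .t 1 (nat_lit 0) (.a 1 9 13 17 true), .t 1 (nat_lit 0) (.a 1 9 13 18 true), .t 1 (nat_lit 0) (.sx 9 1 13 18), .t 1 (nat_lit 0) (.a 1 9 14 17 true), .t 1 (nat_lit 0) (.a 1 9 14 18 true), .t 1 (nat_lit 0) (.a 1 9 14 18 false), .t 1 (nat_lit 0) (.sx 9 1 15 16), .t 1 (nat_lit 0) (.sx 1 9 15 18), .t 1 (nat_lit 0) (.a 1 9 16 18 false), .t 1 (nat_lit 0) (.a 1 10 11 14 false), .t 1 (nat_lit 0) (.a 1 10 11 15 false), .t 1 (nat_lit 0) (.a 1 10 11 16 true), .t 1 (nat_lit 0) (.a 1 10 11 16 false), .t 1 (nat_lit 0) (.a 1 10 11 18 true), .t 1 (nat_lit 0) (.a 1 10 13 15 true), .t 1 (nat_lit 0) (.a 1 10 13 16 true), .t 1 (nat_lit 0) (.a 1 10 13 16 false), .t 1 (nat_lit 0) (.a 1 10 13 17 true), .t 1 (nat_lit 0) (.a 1 10 13 18 true), .t 1 (nat_lit 0) (.a 1 10 13 18 false), .t 1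 (nat_lit 0) (.a 1 10 14 16 true), .t 1 (nat_lit 0) (.a 1 10 14 17 true), .t 1 (nat_lit 0) (.a 1 10 14 17 false), .t 1 (nat_lit 0) (.a 1 10 14 18 true), .t 1 (nat_lit 0) (.a 1 10 17 18 false), .t 1 (nat_lit 0) (.sx 3 2 11 16), .t 1 (nat_lit 0) (.a 2 3 12 15 true), .t 1 (nat_lit 0) (.sx 3 2 12 16), .t 1 (nat_lit 0) (.sx 3 2 13 14), .t 1 (nat_lit 0) (.sx 3 2 13 16), .t 1 (nat_lit 0) (.sx 3 2 14 16), .t 1 (nat_lit 0) (.sx 3 2 15 16), .t 1 (nat_lit 0) (.sx 4 2 11 14), .t 1 (nat_lit 0) (.a 2 4 13 16 false), .t 1 (nat_lit 0) (.a 2 4 14 15 false), .t 1 (nat_lit 0) (.a 2 4 14 16 false), .t 1 (nat_lit 0) (.a 2 4 14 18 true), .t 1 (nat_lit 0) (.sx 2 4 15 16), .t 1 (nat_lit 0) (.a 2 4 15 16 false), .t 1 (nat_lit 0) (.sx 2 5 15 16), .t 1 (nat_lit 0) (.a 2 6 14 17 true), .t 1 (nat_lit 0) (.a 2 6 14 18 true), .t 1 (nat_lit 0) (.a 2 7 13 14 true), .t 1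 (nat_lit 0) (.a 2 7 14 15 false), .t 1 (nat_lit 0) (.a 2 8 11 14 true), .t 1 (nat_lit 0) (.a 2 8 17 18 true), .t 1 (nat_lit 0) (.sx 2 8 17 18), .t 1 (nat_lit 0) (.a 2 9 11 14 false), .t 1 (nat_lit 0) (.sx 9 2 12 17), .t 1 (nat_lit 0) (.a 2 9 12 18 true), .t 1 (nat_lit 0) (.a 2 9 13 14 true), .t 1 (nat_lit 0) (.a 2 9 13 17 true), .t 1 (nat_lit 0) (.sx 9 2 13 18), .t 1 (nat_lit 0) (.a 2 9 14 17 true), .t 1 (nat_lit 0) (.sx 2 9 17 18), .t 1 (nat_lit 0) (.sx 2 10 11 18), .t 1 (nat_lit 0) (.sx 10 2 13 14), .t 1 (nat_lit 0) (.a 2 10 13 15 true), .t 1 (nat_lit 0) (.a 2 10 13 18 true), .t 1 (nat_lit 0) (.sx 10 2 14 15), .t 1 (nat_lit 0) (.sx 2 10 17 18), .t 1 (nat_lit 0) (.sx 3 4 12 18), .t 1 (nat_lit 0) (.a 3 4 14 15 false)] (by decide +kernel) (by decide +kernel)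
theorem b271 : B 17344 17408 := Blk.of_chk [.t 1 (nat_lit 0) (.a 3 4 14 16 false), .t 1 (nat_lit 0) (.sx 3 4 15 18), .t 1 (nat_lit 0) (.sx 5 3 13 15), .t 1 (nat_lit 0) (.sx 5 3 14 15), .t 1 (nat_lit 0) (.sx 3 6 11 14), .t 1 (nat_lit 0) (.sx 3 7 13 14), .t 1 (nat_lit 0) (.a 3 7 14 17 true), .t 1 (nat_lit 0) (.a 3 7 14 18 true), .t 1 (nat_lit 0) (.sx 3 8 11 14), .t 1 (nat_lit 0) (.a 3 8 14 16 true), .t 1 (nat_lit 0) (.a 3 8 14 17 true), .t 1 (nat_lit 0) (.a 3 8 14 18 true), .t 1 (nat_lit 0) (.sx 3 9 11 16), .t 1 (nat_lit 0) (.sx 3 9 11 17), .t 1 (nat_lit 0) (.sx 3 9 11 18), .t 1 (nat_lit 0) (.sx 3 9 12 16), .t 1 (nat_lit 0) (.sx 3 9 12 18), .t 1 (nat_lit 0) (.sx 3 9 13 15), .t 1 (nat_lit 0) (.a 3 9 13 17 true), .t 1 (nat_lit 0) (.a 3 9 13 18 true), .t 1 (nat_lit 0) (.sx 9 3 13 18), .t 1 (nat_lit 0) (.sx 3 9 13 18), .t 1 (nat_lit 0) (.a 3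 9 14 17 true), .t 1 (nat_lit 0) (.sx 3 9 14 17), .t 1 (nat_lit 0) (.a 3 9 14 18 false), .t 1 (nat_lit 0) (.a 3 9 15 16 false), .t 1 (nat_lit 0) (.sx 5 4 11 14), .t 1 (nat_lit 0) (.a 4 5 12 15 true), .t 1 (nat_lit 0) (.a 4 5 12 17 true), .t 1 (nat_lit 0) (.a 4 5 13 15 true), .t 1 (nat_lit 0) (.a 4 5 14 15 true), .t 1 (nat_lit 0) (.a 4 5 14 17 true), .t 1 (nat_lit 0) (.a 4 5 14 18 true), .t 1 (nat_lit 0) (.a 4 6 13 15 true), .t 1 (nat_lit 0) (.a 4 6 13 16 true), .t 1 (nat_lit 0) (.a 4 6 13 17 true), .t 1 (nat_lit 0) (.a 4 6 13 18 true), .t 1 (nat_lit 0) (.a 4 6 14 15 true), .t 1 (nat_lit 0) (.a 4 6 14 16 true), .t 1 (nat_lit 0) (.a 4 6 14 17 true), .t 1 (nat_lit 0) (.a 4 6 14 18 true), .t 1 (nat_lit 0) (.sx 7 4 11 15), .t 1 (nat_lit 0) (.sx 7 4 11 17), .t 1 (nat_lit 0) (.sx 4 7 12 13), .t 1 (nat_lit 0) (.a 4 7 12 14 true), .t 1 (nat_lit 0)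 (.sx 4 7 12 15), .t 1 (nat_lit 0) (.sx 7 4 12 17), .t 1 (nat_lit 0) (.a 4 7 12 18 true), .t 1 (nat_lit 0) (.a 4 7 13 14 false), .t 1 (nat_lit 0) (.sx 7 4 13 15), .t 1 (nat_lit 0) (.a 4 7 13 17 true), .t 1 (nat_lit 0) (.sx 7 4 13 17), .t 1 (nat_lit 0) (.a 4 7 13 18 true), .t 1 (nat_lit 0) (.sx 7 4 13 18), .t 1 (nat_lit 0) (.a 4 7 14 15 true), .t 1 (nat_lit 0) (.sx 7 4 14 15), .t 1 (nat_lit 0) (.a 4 7 14 16 true), .t 1 (nat_lit 0) (.a 4 7 14 17 true), .t 1 (nat_lit 0) (.a 4 7 14 18 true), .t 1 (nat_lit 0) (.a 4 7 15 18 true), .t 1 (nat_lit 0) (.a 4 8 12 14 false), .t 1 (nat_lit 0) (.a 4 8 12 16 true), .t 1 (nat_lit 0) (.sx 8 4 12 17), .t 1 (nat_lit 0) (.a 4 8 13 14 false)] (by decide +kernel) (by decide +kernel)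
theorem b272 : B 17408 17472 := Blk.of_chk [.t 1 (nat_lit 0) (.a 4 8 13 15 true), .t 1 (nat_lit 0) (.a 4 8 13 16 true), .t 1 (nat_lit 0) (.a 4 8 13 17 true), .t 1 (nat_lit 0) (.a 4 8 13 18 true), .t 1 (nat_lit 0) (.a 4 8 14 16 true), .t 1 (nat_lit 0) (.a 4 8 14 17 true), .t 1 (nat_lit 0) (.a 4 8 14 18 true), .t 1 (nat_lit 0) (.a 4 8 15 18 true), .t 1 (nat_lit 0) (.a 4 9 11 15 true), .t 1 (nat_lit 0) (.a 4 9 11 17 true), .t 1 (nat_lit 0) (.a 4 9 12 15 true), .t 1 (nat_lit 0) (.a 4 9 13 15 true), .t 1 (nat_lit 0) (.sx 9 4 13 15), .t 1 (nat_lit 0) (.a 4 9 13 17 true), .t 1 (nat_lit 0) (.a 4 9 13 18 true), .t 1 (nat_lit 0) (.sx 9 4 13 18), .t 1 (nat_lit 0) (.a 4 9 14 15 true), .t 1 (nat_lit 0) (.a 4 9 14 17 true), .t 1 (nat_lit 0) (.a 4 9 14 17 false), .t 1 (nat_lit 0) (.a 4 9 15 16 true), .t 1 (nat_lit 0) (.a 4 9 15 17 true), .t 1 (nat_lit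 0) (.a 4 9 15 18 true), .t 1 (nat_lit 0) (.a 4 10 12 16 true), .t 1 (nat_lit 0) (.a 4 10 13 15 false), .t 1 (nat_lit 0) (.a 4 10 13 17 true), .t 1 (nat_lit 0) (.a 4 10 13 18 true), .t 1 (nat_lit 0) (.a 4 10 14 16 true), .t 1 (nat_lit 0) (.a 4 10 14 17 true), .t 1 (nat_lit 0) (.a 4 10 14 18 true), .t 1 (nat_lit 0) (.a 4 10 15 17 true), .t 1 (nat_lit 0) (.sx 5 7 12 18), .t 1 (nat_lit 0) (.a 5 9 14 18 false), .t 1 (nat_lit 0) (.sx 10 5 11 15), .t 1 (nat_lit 0) (.a 6 7 11 14 false), .t 1 (nat_lit 0) (.a 6 7 11 15 false), .t 1 (nat_lit 0) (.sx 7 6 13 17), .t 1 (nat_lit 0) (.sx 6 7 14 15), .t 1 (nat_lit 0) (.sx 6 7 14 17), .t 1 (nat_lit 0) (.sx 6 7 14 18), .t 1 (nat_lit 0) (.a 6 8 12 17 false), .t 1 (nat_lit 0) (.a 6 9 11 18 true), .t 1 (nat_lit 0) (.a 6 9 14 18 false), .t 1 (nat_lit 0) (.a 6 10 13 17 false), .t 1 (nat_lit 0) (.a 7 8 13 14 false),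 .t 1 (nat_lit 0) (.a 7 9 12 18 true), .t 1 (nat_lit 0) (.a 7 9 13 15 true), .t 1 (nat_lit 0) (.sx 9 7 13 15), .t 1 (nat_lit 0) (.a 7 9 13 16 true), .t 1 (nat_lit 0) (.a 7 9 13 18 true), .t 1 (nat_lit 0) (.a 7 9 14 15 true), .t 1 (nat_lit 0) (.a 7 9 14 16 true), .t 1 (nat_lit 0) (.a 7 9 14 18 true), .t 1 (nat_lit 0) (.a 7 9 15 18 true), .t 1 (nat_lit 0) (.sx 10 7 12 18), .t 1 (nat_lit 0) (.a 7 10 13 14 false), .t 1 (nat_lit 0) (.sx 7 10 13 15), .t 1 (nat_lit 0) (.a 7 10 13 15 false), .t 1 (nat_lit 0) (.a 7 10 13 17 false), .t 1 (nat_lit 0) (.sx 8 9 17 18), .t 1 (nat_lit 0) (.a 8 10 12 16 false), .t 1 (nat_lit 0) (.a 8 10 13 17 false), .t 1 (nat_lit 0) (.sx 10 9 11 14), .t 1 (nat_lit 0) (.a 9 10 11 16 false), .t 1 (nat_lit 0) (.a 9 10 13 14 true)] (by decide +kernel) (by decide +kernel)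
theorem b273 : B 17472 17536 := Blk.of_chk [.t 1 (nat_lit 0) (.sx 9 10 13 14), .t 1 (nat_lit 0) (.sx 10 9 14 15), .t 3 (nat_lit 0x11d411d3) (.z (.nd false 0 18 (.nd true 1 3 (.nd false 6 10 (.pg 1 5 10 [9,2]) (.t3 [6,7,8])) (.t3 [3,4,18])) (.nd true 12 15 (.pg 0 12 16 [17]) (.pg 11 14 15 [13])))), .t 5 (nat_lit 0x11d811d711d611d5) (.z (.nd false 0 18 (.nd true 1 3 (.nd false 5 10 (.pg 1 6 10 [9,2]) (.t3 [5,7,8])) (.t3 [3,4,18])) (.nd false 0 13 (.pg 16 17 15 [13,14]) (.t3 [0,11,12])))), .t 1 (nat_lit 0) (.z (.nd false 0 1 (.nd true 1 3 (.nd false 5 10 (.pg 1 6 10 [9,2]) (.t3 [5,7,8])) (.t3 [3,4,18])) (.nd false 11 14 (.pg 0 12 13 [14,16]) (.t3 [11,15,17])))), .t 10 (nat_lit 0x11e011df11de11dd11dc11db11da11d90654) (.z (.nd true 0 4 (.fr 2 [0,5,6,7,8,9,10]) (.nd false 0 2 (.t3 [2,3,4]) (.nd false 0 14 (.pg 16 14 15 [18,1,17]) (.t3 [11,12,13]))))),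 .t 3 (nat_lit 0x9250099) (.z (.nd false 0 6 (.fr 2 [6,7,8,9,10,17,18]) (.nd false 1 11 (.fr 2 [3,4,5,11,14,15,16]) (.pg 13 1 2 [0,12])))), .t 4 (nat_lit 0x11e20e4111e1) (.z (.nd false 1 14 (.pg 4 14 13 [11]) (.fr 4 [0,1,2,3,5,6,7,8,9,10,12,15,16,17,18]))), .t 9 (nat_lit 0x11ea11e911e811e711e611e511e411e3) (.z (.nd false 4 7 (.nd true 0 8 (.t3 [0,9,10]) (.nd false 0 3 (.pg 5 3 14 [6,7,8]) (.pg 1 11 12 [2]))) (.fr 2 [4,13,15,16,17,18]))), .t 6 (nat_lit 0x11d411ed11ec11d311eb) (.z (.nd true 1 9 (.t3 [0,1,2]) (.nd false 0 16 (.nd true 6 7 (.pg 6 8 10 [9]) (.fr 2 [3,4,5,7,16,17,18])) (.pg 11 14 15 [13,12])))), .t 3 (nat_lit 0x11ef11ee) (.z (.nd false 0 17 (.nd true 8 17 (.nd true 3 4 (.pg 7 8 6 [3,5]) (.t3 [1,4,18])) (.pg 2 10 9 [17])) (.fr 2 [0,11,12,13,14,15,16]))), .t 1 (nat_lit 0) (.z (.nd true 8 11 (.fr 4 [1,2,3,4,5,6,7,8,12,13,14,15,16,17,18])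 (.pg 0 11 9 [10]))), .t 3 (nat_lit 0xe4811f0) (.z (.nd false 0 5 (.nd true 5 7 (.pg 5 8 10 [9,6]) (.t3 [7,17,18])) (.nd true 0 14 (.pg 0 4 15 [16]) (.fr 2 [1,2,3,11,12,13,14])))), .t 3 (nat_lit 0x11f211f1) (.z (.nd false 0 4 (.fr 2 [4,5,6,7,8,9,10]) (.nd false 0 18 (.pg 1 3 2 [18]) (.nd false 11 15 (.pg 0 12 15 [17]) (.pg 11 16 14 [13]))))), .t 1 (nat_lit 0) (.z (.nd false 0 17 (.fr 2 [6,7,8,9,10,17,18]) (.nd true 2 15 (.pg 0 2 3 [4,5]) (.fr 2 [1,11,12,13,14,15,16])))), .t 1 (nat_lit 0) (.z (.nd true 0 15 (.nd true 5 9 (.pg 0 3 4 [5,6]) (.fr 2 [7,8,9,10,16,17,18])) (.fr 2 [1,2,11,12,13,14,15]))), .t 1 (nat_lit 0) (.z (.nd false 17 18 (.nd false 11 14 (.pg 0 12 13 [14,18]) (.t3 [11,15,16])) (.nd true 1 3 (.nd false 5 10 (.pg 1 6 10 [9,2]) (.t3 [5,7,8])) (.t3 [3,4,17])))), .t 4 (nat_lit 0x11f411f30004) (.z (.nd false 9 15 (.nd true 1 4 (.nd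 false 0 7 (.t3 [7,8,10]) (.pg 1 3 5 [6,2,17])) (.t3 [4,15,18])) (.fr 2 [0,9,11,12,13,14,16]))), .t 5 (nat_lit 0x11f811f711f611f5) (.z (.nd false 0 1 (.fr 3 [1,2,3,4,5,6,7,8,9,10]) (.nd false 13 16 (.pg 0 12 15 [16]) (.pg 11 18 17 [14,13])))), .t 2 (nat_lit 0x63f) (.z (.nd false 0 4 (.nd false 4 8 (.pg 5 8 10 [9]) (.fr 2 [4,6,7,15,16,17,18])) (.nd false 11 13 (.pg 0 1 12 [13,2]) (.t3 [3,11,14])))), .t 8 (nat_lit 0x11fc11e811e511fb11fa0e4c11f9) (.z (.nd false 0 3 (.nd false 0 8 (.t3 [8,9,10]) (.nd true 4 17 (.pg 4 18 16 [15]) (.pg 6 7 5 [3,17]))) (.fr 2 [0,1,2,11,12,13,14]))), .t 5 (nat_lit 0x11ff11fe065411fd) (.z (.nd false 9 16 (.nd false 0 2 (.nd true 0 6 (.t3 [7,8,10]) (.pg 2 3 4 [6,5])) (.pg 1 17 16 [18])) (.fr 2 [0,9,11,12,13,14,15]))), .t 3 (nat_lit 0x63f11fd) (.z (.nd false 0 15 (.fr 2 [8,9,10,15,16,17,18]) (.nd false 6 11 (.t3 [7,11,14])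 (.nd false 0 2 (.pg 2 3 4 [6,5]) (.pg 0 12 13 [1]))))), .t 9 (nat_lit 0x120412030e4c12021201120011e511e4) (.z (.nd true 0 2 (.nd false 4 7 (.nd true 0 8 (.t3 [0,9,10]) (.pg 7 8 5 [3,6])) (.pg 15 18 17 [16,4])) (.fr 2 [1,2,11,12,13,14]))), .t 1 (nat_lit 0) (.z (.nd false 0 1 (.nd true 1 8 (.pg 1 5 10 [9,2]) (.fr 2 [3,4,6,7,8,17,18])) (.fr 2 [0,11,12,13,14,15,16]))), .t 5 (nat_lit 0x1208120712061205) (.z (.nd true 0 15 (.fr 2 [0,8,9,10,16,17,18]) (.nd false 3 13 (.fr 2 [4,5,6,7,13,14,15]) (.pg 3 2 1 [11,12])))), .t 4 (nat_lit 0x942000611a9) (.z (.nd false 3 9 (.nd false 11 13 (.pg 0 12 13 [9]) (.fr 2 [1,2,11,14,15,16,17])) (.nd false 0 7 (.t3 [7,8,10]) (.pg 4 6 5 [3,18])))), .t 7 (nat_lit 0x120d120c11e0120b120a1209) (.z (.nd true 0 1 (.fr 3 [0,2,3,4,5,6,7,8,9,10]) (.nd true 11 17 (.pg 11 13 16 [12]) (.pg 14 1 18 [17,15])))), .t 5 (nat_lit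 0x11d811d711d611d5) (.z (.nd false 0 13 (.nd false 0 1 (.nd true 1 3 (.nd false 5 10 (.pg 1 6 10 [9,2]) (.t3 [5,7,8])) (.t3 [3,4,18])) (.pg 16 17 15 [13,14])) (.t3 [0,11,12]))), .t 3 (nat_lit 0x11f1120e) (.z (.nd false 0 18 (.nd true 1 3 (.nd false 5 10 (.pg 1 6 10 [9,2]) (.t3 [5,7,8])) (.t3 [3,4,18])) (.nd true 12 16 (.pg 0 12 15 [17]) (.pg 11 14 16 [13])))), .t 7 (nat_lit 0x121312121211121011eb120f) (.z (.nd true 0 1 (.fr 3 [0,2,3,4,5,6,7,8,9,10]) (.nd true 11 18 (.pg 11 13 15 [12]) (.pg 14 17 1 [18,16])))), .t 2 (nat_lit 0x925) (.z (.nd false 1 2 (.pg 0 12 13 [2]) (.fr 4 [1,3,4,5,6,7,8,9,10,11,14,15,16,17,18]))), .t 3 (nat_lit 0xb7411f0) (.z (.nd true 0 2 (.nd false 0 4 (.nd true 5 7 (.pg 5 8 10 [9,6]) (.t3 [4,7,18])) (.pg 0 16 17 [3])) (.fr 2 [1,2,11,12,13,14,15]))), .t 1 (nat_lit 0) (.z (.nd false 0 16 (.t3 [16,17,18]) (.nd true 0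 4 (.nd true 7 10 (.pg 0 5 6 [7,8,9]) (.t3 [10,14,15])) (.fr 2 [1,2,3,4,11,12,13])))), .t 2 (nat_lit 0x878) (.z (.nd true 10 16 (.fr 4 [1,3,4,5,6,7,8,10,11,12,13,14,15,17,18]) (.pg 0 16 2 [9]))), .t 2 (nat_lit 0x11f0) (.z (.nd false 0 18 (.nd true 5 7 (.pg 5 8 10 [9,6]) (.t3 [4,7,18])) (.nd true 3 12 (.fr 2 [3,11,13,14,15,16,17]) (.pg 0 1 12 [2])))), .t 4 (nat_lit 0x121506451214) (.z (.nd true 1 17 (.pg 1 14 13 [11]) (.fr 4 [0,2,3,4,5,6,7,8,9,10,12,15,16,17,18]))), .t 4 (nat_lit 0x92500990006) (.z (.nd false 0 3 (.nd false 0 7 (.fr 2 [7,8,9,10,16,17,18]) (.pg 3 4 6 [5])) (.nd false 1 11 (.t3 [11,14,15]) (.pg 13 1 2 [0,12])))), .t 1 (nat_lit 0) (.z (.nd false 0 16 (.nd true 2 7 (.pg 2 5 8 [10,9]) (.fr 2 [3,4,6,7,16,17,18])) (.fr 2 [0,1,11,12,13,14,15]))), .t 1 (nat_lit 0) (.z (.nd true 1 3 (.nd false 0 1 (.nd false 5 10 (.pg 1 6 10 [9,2])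 (.t3 [5,7,8])) (.pg 0 12 13 [14])) (.fr 2 [3,4,11,15,16,17,18]))), .t 7 (nat_lit 0x121a12190c58121812171216) (.z (.nd true 0 3 (.nd false 0 18 (.nd true 4 7 (.pg 4 5 8 [10,9,6,18]) (.t3 [7])) (.pg 0 15 16 [17])) (.fr 2 [1,2,3,11,12,13,14]))), .t 13 (nat_lit 0x1220121f0bc30c40121e121d0d77121c0d460d44121b0c77) (.z (.nd false 1 9 (.t3 [0,2,9]) (.nd false 0 16 (.nd true 8 10 (.pg 8 6 17 [18,4,5]) (.t3 [7,10,16])) (.fr 2 [1,3,11,12,13,14,15])))), .t 3 (nat_lit 0x11ec11eb) (.z (.nd false 0 16 (.nd true 5 7 (.pg 5 8 10 [9]) (.fr 2 [3,4,6,7,16,17,18])) (.nd false 11 14 (.pg 0 1 14 [2]) (.pg 11 15 13 [12])))), .t 1 (nat_lit 0) (.z (.nd false 9 18 (.fr 4 [1,2,3,4,5,6,7,8,12,13,14,15,16,17,18]) (.pg 0 11 9 [10]))), .t 5 (nat_lit 0x1224122312221221) (.z (.nd true 0 4 (.fr 2 [0,5,6,7,8,9,10]) (.nd false 11 14 (.pg 14 17 15 [12,13]) (.fr 2 [1,2,3,4,11,16,18])))),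 .t 7 (nat_lit 0x1225120c11e0120b120a1209) (.z (.nd true 0 1 (.fr 3 [0,2,3,4,5,6,7,8,9,10]) (.nd true 11 17 (.pg 11 13 16 [12]) (.pg 1 17 15 [14,18])))), .t 4 (nat_lit 0x122812271226) (.z (.nd false 14 18 (.fr 2 [0,11,12,13,15,16,18]) (.nd true 1 3 (.nd false 6 10 (.pg 2 14 1 [5,10,9]) (.t3 [6,7,8])) (.t3 [3,4,17])))), .t 1 (nat_lit 0) (.z (.nd false 0 17 (.fr 2 [6,7,8,9,10,17,18]) (.nd true 3 16 (.pg 0 2 3 [4,5]) (.fr 2 [1,11,12,13,14,15,16])))), .t 3 (nat_lit 0x9250099) (.z (.nd false 1 11 (.fr 2 [4,11,14,15,16,17,18]) (.nd false 0 3 (.fr 2 [3,5,6,7,8,9,10]) (.pg 13 1 2 [0,12])))), .t 1 (nat_lit 0) (.z (.nd false 0 18 (.nd false 1 10 (.pg 2 10 9 [18]) (.fr 2 [1,3,4,5,6,7,8])) (.nd false 11 13 (.pg 0 12 13 [15,17]) (.t3 [11,14,16])))), .t 2 (nat_lit 0x1229) (.z (.nd false 16 18 (.fr 2 [0,11,12,13,14,15,18]) (.nd true 1 4 (.nd false 1 10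 (.t3 [2,9,10]) (.pg 1 3 6 [7,8,5])) (.t3 [4,16,17])))), .t 1 (nat_lit 0) (.z (.nd false 17 18 (.nd false 11 15 (.pg 0 12 15 [16,18]) (.t3 [11,13,14])) (.nd true 1 3 (.nd false 5 10 (.pg 1 6 10 [9,2]) (.t3 [5,7,8])) (.t3 [3,4,17])))), .t 6 (nat_lit 0x122c122b122a1169085a) (.z (.nd false 1 10 (.nd false 0 13 (.pg 10 9 2 [13,14]) (.t3 [0,11,12])) (.nd false 1 5 (.pg 5 7 8 [6]) (.fr 2 [1,3,4,15,16,17,18])))), .t 4 (nat_lit 0x122812271226) (.z (.nd false 0 13 (.nd true 1 3 (.nd false 6 10 (.pg 2 14 1 [5,10,9]) (.t3 [6,7,8])) (.fr 2 [3,4,13,15,16,17,18])) (.t3 [0,11,12]))), .t 1 (nat_lit 0) (.z (.nd true 0 13 (.nd false 0 1 (.nd true 1 3 (.nd false 6 10 (.pg 1 5 10 [9,2]) (.t3 [6,7,8])) (.t3 [3,4,18])) (.pg 0 14 15 [16,17])) (.t3 [11,12,13]))), .t 1 (nat_lit 0) (.z (.nd false 0 4 (.fr 2 [4,5,6,7,8,9,10]) (.nd false 0 18 (.pg 1 3 2 [18]) (.nd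 false 11 16 (.pg 0 12 13 [15,16]) (.t3 [11,14,17]))))), .t 5 (nat_lit 0x122f122e122d0c1d) (.z (.nd false 0 8 (.fr 2 [8,9,10,15,16,17,18]) (.nd false 0 13 (.nd true 3 7 (.pg 1 3 5 [2]) (.pg 7 6 4 [13,14])) (.t3 [0,11,12])))), .t 1 (nat_lit 0) (.z (.nd false 0 6 (.fr 2 [6,7,8,9,10,17,18]) (.nd true 0 1 (.pg 0 2 3 [4,5]) (.fr 2 [1,11,12,13,14,15,16])))), .t 1 (nat_lit 0) (.z (.nd false 0 18 (.nd false 1 10 (.pg 2 10 9 [18]) (.fr 2 [1,3,4,5,6,7,8])) (.nd false 11 17 (.pg 0 12 13 [14,17]) (.t3 [11,15,16])))), .t 4 (nat_lit 0x122812301226) (.z (.nd false 14 18 (.fr 2 [0,11,12,13,15,16,18]) (.nd true 1 3 (.nd false 5 10 (.pg 2 14 1 [6,10,9]) (.t3 [5,7,8])) (.t3 [3,4,17])))), .t 1 (nat_lit 0) (.z (.nd false 1 11 (.fr 2 [4,11,15,16,17,18]) (.nd false 0 1 (.nd true 1 7 (.pg 1 6 8 [10,9,2]) (.t3 [3,5,7])) (.pg 0 12 13 [14])))), .t 9 (nat_lit 0x89a12341233123211b408b208751231)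 (.z (.nd false 1 10 (.nd false 0 13 (.nd false 2 16 (.t3 [16,17,18]) (.pg 9 13 14 [15,2,10])) (.t3 [0,11,12])) (.fr 2 [1,3,4,5,6,7,8]))), .t 7 (nat_lit 0x12380b801237123612350c1a) (.z (.nd false 1 7 (.fr 2 [0,2,6,7,8,9,10]) (.nd false 0 13 (.nd false 0 17 (.pg 4 5 17 [18]) (.pg 16 3 14 [13,15])) (.t3 [1,11,12])))), .t 3 (nat_lit 0xe4b11f0) (.z (.nd true 0 3 (.nd true 4 7 (.nd false 0 5 (.pg 5 8 10 [9,6]) (.pg 0 16 17 [4])) (.t3 [7,15,18])) (.fr 2 [1,2,3,11,12,13,14])))] (by decide +kernel) (by decide +kernel)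
theorem b274 : B 17536 17600 := Blk.of_chk [.t 1 (nat_lit 0) (.z (.nd false 0 1 (.fr 3 [1,2,3,4,5,6,7,8,9,10]) (.nd false 11 14 (.pg 0 12 13 [14,15,16]) (.t3 [11,17,18])))), .t 10 (nat_lit 0x123f123e0934123d123c123b123a09391239) (.z (.nd true 0 4 (.fr 2 [0,5,6,7,8,9,10]) (.nd false 1 2 (.nd false 0 14 (.pg 2 16 15 [14,17,18]) (.t3 [11,12,13])) (.t3 [1,3,4])))), .t 1 (nat_lit 0) (.z (.nd false 0 4 (.fr 2 [4,5,6,7,8,9,10]) (.nd false 0 18 (.pg 1 3 2 [18]) (.nd false 11 15 (.pg 0 12 13 [14,15]) (.t3 [11,16,17]))))), .t 1 (nat_lit 0) (.z (.nd true 10 12 (.fr 4 [1,2,3,4,5,6,7,8,10,13,14,15,16,17,18]) (.pg 0 11 12 [9]))), .t 1 (nat_lit 0) (.z (.nd true 7 13 (.fr 2 [7,11,14,15,16,17,18]) (.nd true 0 1 (.nd false 0 6 (.pg 6 8 10 [9]) (.pg 0 2 3 [4,5])) (.t3 [1,12,13])))), .t 5 (nat_lit 0x11ea11e911ef11ee) (.z (.nd true 4 11 (.fr 2 [4,13,14,15,16,17,18])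 (.nd true 0 2 (.nd true 0 8 (.t3 [0,9,10]) (.pg 7 8 6 [3,5])) (.pg 1 11 12 [2])))), .t 1 (nat_lit 0) (.z (.nd false 0 4 (.fr 2 [4,5,6,7,8,9,10]) (.nd false 11 16 (.pg 0 12 13 [15,16]) (.fr 2 [1,2,3,11,14,17,18])))), .t 1 (nat_lit 0) (.z (.nd false 0 15 (.fr 2 [8,9,10,15,16,17,18]) (.nd true 0 12 (.nd false 5 13 (.t3 [7,13,14]) (.pg 0 2 3 [4,5,6])) (.t3 [1,11,12])))), .t 4 (nat_lit 0x124106521240) (.z (.nd false 14 18 (.fr 4 [0,2,3,4,5,6,7,8,9,10,11,12,13,16,18]) (.pg 1 17 15 [14]))), .t 8 (nat_lit 0x1245124412431242009c063f0b77) (.z (.nd true 0 16 (.nd false 0 4 (.fr 2 [4,5,6,7,8,9,10]) (.pg 0 3 17 [18])) (.nd false 11 13 (.pg 1 12 13 [14,2]) (.t3 [11,15,16])))), .t 3 (nat_lit 0x124611f5) (.z (.nd false 0 18 (.nd true 1 3 (.nd false 6 10 (.pg 1 5 10 [9,2]) (.t3 [6,7,8])) (.t3 [3,4,18])) (.nd false 11 15 (.pg 0 12 15 [16]) (.pg 11 17 14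 [13])))), .t 4 (nat_lit 0x1248124711d1) (.z (.nd false 0 16 (.pg 10 16 18 [17]) (.fr 4 [0,1,2,3,4,5,6,7,8,9,11,12,13,14,15]))), .t 4 (nat_lit 0x124a1249007f) (.z (.nd false 14 17 (.fr 2 [0,11,12,13,15,16,17]) (.nd true 1 3 (.nd false 5 10 (.pg 2 18 1 [6,10,9]) (.t3 [5,7,8])) (.t3 [3,4,14])))), .t 1 (nat_lit 0) (.z (.nd false 11 17 (.pg 0 12 13 [17]) (.fr 4 [1,2,3,4,5,6,7,8,9,10,11,14,15,16,18]))), .t 4 (nat_lit 0x926124c124b) (.z (.nd false 0 5 (.fr 3 [5,6,7,8,9,10,15,16,17,18]) (.nd false 2 11 (.pg 1 11 4 [3]) (.pg 0 12 13 [14,2])))), .t 2 (nat_lit 0x925) (.z (.nd false 2 11 (.fr 4 [1,3,4,5,6,7,8,9,10,11,14,15,16,17,18]) (.pg 0 12 13 [2]))), .t 3 (nat_lit 0x124d01b9) (.z (.nd false 0 13 (.nd true 3 7 (.nd true 2 3 (.pg 2 5 8 [10,9]) (.pg 1 3 14 [13])) (.fr 2 [4,6,7,15,16,17,18])) (.t3 [0,11,12]))), .t 4 (nat_lit 0x124f064f124e) (.z (.nd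 false 14 18 (.fr 4 [0,2,3,4,5,6,7,8,9,10,12,13,15,16,18]) (.pg 1 17 14 [11]))), .t 6 (nat_lit 0x12541253125212511250) (.z (.nd false 17 18 (.nd false 0 13 (.pg 13 14 18 [16,15]) (.t3 [0,11,12])) (.nd true 1 3 (.nd false 5 10 (.pg 1 6 10 [9,2]) (.t3 [5,7,8])) (.t3 [3,4,17])))), .t 2 (nat_lit 0x1145) (.z (.nd false 10 11 (.fr 4 [1,2,3,4,5,6,7,8,11,13,14,15,16,17,18]) (.pg 0 12 9 [10]))), .t 1 (nat_lit 0) (.z (.nd false 0 12 (.fr 4 [3,4,5,6,7,8,9,10,12,13,14,15,16,17,18]) (.pg 0 11 1 [2]))), .t 3 (nat_lit 0x64011fd) (.z (.nd false 0 8 (.fr 2 [8,9,10,16,17,18]) (.nd false 5 11 (.t3 [7,11,15]) (.nd false 0 2 (.pg 2 3 4 [5,6]) (.pg 0 12 13 [14,1]))))), .t 2 (nat_lit 0x114d) (.z (.nd false 9 12 (.fr 4 [1,2,3,4,5,6,7,8,11,12,13,14,16,17,18]) (.pg 0 15 9 [10]))), .t 5 (nat_lit 0x1256125510ac11f0) (.z (.nd false 0 5 (.nd true 5 7 (.pg 5 8 10 [9,6])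 (.pg 7 16 17 [18])) (.fr 3 [0,1,2,3,4,11,12,13,14,15]))), .t 2 (nat_lit 0x114f) (.z (.nd false 9 12 (.fr 4 [1,2,3,4,5,6,7,8,11,12,13,14,15,17,18]) (.pg 0 16 9 [10]))), .t 4 (nat_lit 0x411f3000b) (.z (.nd false 9 15 (.nd true 1 4 (.nd false 0 7 (.t3 [7,8,10]) (.pg 1 3 6 [5,2,17])) (.t3 [4,15,18])) (.fr 2 [0,9,11,12,13,14,16]))), .t 1 (nat_lit 0) (.z (.nd false 14 17 (.fr 2 [0,11,12,13,15,16,17]) (.nd true 1 4 (.nd true 1 7 (.pg 1 5 8 [10,9,2]) (.t3 [3,6,7])) (.t3 [4,14,18])))), .t 3 (nat_lit 0x11e511e4) (.z (.nd false 1 10 (.fr 2 [0,2,9,10,11,12,13]) (.nd false 1 3 (.pg 7 8 5 [3,6]) (.fr 2 [1,4,14,15,16,17,18])))), .t 3 (nat_lit 0x121011d) (.z (.nd false 1 6 (.fr 4 [0,2,5,6,7,8,9,10,11,12,13,14,15,16,17]) (.pg 1 18 4 [3]))), .t 2 (nat_lit 0x11ad) (.z (.nd true 2 17 (.fr 4 [1,2,3,4,5,6,7,8,10,11,13,14,15,16,18]) (.pg 0 12 17 [9]))), .t 5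 (nat_lit 0x125811f211f11257) (.z (.nd true 1 7 (.fr 2 [0,1,2,6,8,9,10]) (.nd true 3 14 (.fr 2 [3,4,5,7,15,17,18]) (.pg 11 16 14 [13,12])))), .t 3 (nat_lit 0x11ef11ee) (.z (.nd false 0 17 (.nd false 1 3 (.nd false 3 10 (.pg 2 10 9 [17]) (.pg 7 8 6 [3,5])) (.t3 [1,4,18])) (.fr 2 [0,11,12,13,14,15,16]))), .t 3 (nat_lit 0x125a1259) (.z (.nd false 7 11 (.fr 2 [8,10,11,15,16,17,18]) (.nd true 0 1 (.nd true 0 5 (.pg 0 6 7 [9]) (.pg 2 3 4 [5])) (.pg 1 12 13 [14])))), .t 3 (nat_lit 0x125c125b) (.z (.nd true 11 15 (.fr 4 [0,1,2,3,4,5,6,7,8,9,10,11,12,16,18]) (.pg 13 14 17 [15]))), .t 4 (nat_lit 0x110072125d) (.z (.nd false 0 1 (.nd true 4 7 (.nd false 3 9 (.pg 1 14 9 [2]) (.pg 3 4 6 [8,10,5])) (.fr 2 [7,12,13,15,16,17,18])) (.t3 [0,11]))), .t 6 (nat_lit 0x1260120f125f125e0939) (.z (.nd false 0 4 (.fr 2 [4,5,6,7,8,9,10]) (.nd false 14 16 (.nd true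 0 16 (.pg 0 17 18 [2]) (.pg 11 13 16 [15,12])) (.t3 [1,3,14])))), .t 1 (nat_lit 0) (.z (.nd false 11 13 (.pg 0 12 13 [17]) (.fr 4 [1,2,3,4,5,6,7,8,9,10,11,14,15,16,18]))), .t 5 (nat_lit 0x1263120f12621261) (.z (.nd true 0 4 (.fr 2 [0,5,6,7,8,9,10]) (.nd false 2 14 (.fr 2 [1,3,4,14,16,17,18]) (.pg 11 13 2 [15,12])))), .t 5 (nat_lit 0x1e7126401940935) (.z (.nd false 0 4 (.fr 2 [4,5,6,7,8,9,10]) (.nd true 0 13 (.nd false 14 17 (.pg 0 15 16 [17,2]) (.pg 1 14 18 [3])) (.t3 [11,12,13])))), .t 4 (nat_lit 0x93406a011f0) (.z (.nd false 0 5 (.nd true 6 7 (.pg 6 8 10 [9,5]) (.t3 [7,17,18])) (.nd true 0 12 (.nd true 3 4 (.pg 0 2 3 [15,16]) (.t3 [4,13,14])) (.t3 [1,11,12])))), .t 3 (nat_lit 0x12661265) (.z (.nd false 0 3 (.nd false 5 16 (.fr 2 [4,6,7,8,16,17,18]) (.pg 5 10 9 [3,15])) (.fr 2 [0,1,2,11,12,13,14]))), .t 5 (nat_lit 0x12670c750c9f0e4b) (.z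 (.nd false 1 16 (.nd false 7 9 (.nd true 3 6 (.pg 0 2 3 [5,9]) (.pg 4 6 16 [17])) (.t3 [7,8,10])) (.fr 2 [1,11,12,13,14,15,18]))), .t 1 (nat_lit 0) (.z (.nd true 0 14 (.nd false 0 17 (.t3 [10,17,18]) (.nd false 4 7 (.pg 0 5 6 [7,8,9]) (.t3 [4,15,16]))) (.fr 2 [1,2,3,11,12,13,14]))), .t 3 (nat_lit 0x11f211f1) (.z (.nd false 0 18 (.nd true 1 3 (.nd false 5 10 (.pg 1 6 10 [9,2]) (.t3 [5,7,8])) (.t3 [3,4,18])) (.nd true 12 14 (.pg 0 12 15 [17]) (.pg 11 16 14 [13])))), .t 3 (nat_lit 0x11f211f1) (.z (.nd true 12 14 (.fr 4 [0,1,2,3,4,5,6,7,8,9,10,12,15,17,18]) (.pg 11 16 14 [13]))), .t 3 (nat_lit 0x12691268) (.z (.nd false 0 4 (.fr 2 [4,5,6,7,8,9,10]) (.nd false 0 18 (.pg 1 3 2 [18]) (.nd false 11 14 (.pg 0 12 13 [14]) (.pg 11 16 17 [15]))))), .t 3 (nat_lit 0x11fd11b8) (.z (.nd true 1 15 (.fr 2 [1,11,12,13,14,17,18]) (.nd false 2 9 (.pg 0 15 16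 [9]) (.nd true 0 6 (.t3 [7,8,10]) (.pg 2 3 4 [6,5]))))), .t 2 (nat_lit 0x114d) (.z (.nd false 10 12 (.fr 4 [1,2,3,4,5,6,7,8,11,12,13,14,16,17,18]) (.pg 0 15 9 [10]))), .t 3 (nat_lit 0x6a011f0) (.z (.nd false 0 17 (.nd true 5 7 (.pg 5 8 10 [9,6]) (.t3 [7,17,18])) (.nd true 3 4 (.pg 0 2 3 [15]) (.fr 2 [1,4,11,12,13,14,16])))), .t 7 (nat_lit 0x126d126c126b0e410e3e126a) (.z (.nd true 4 8 (.nd true 0 9 (.t3 [0,10]) (.nd true 1 4 (.pg 1 3 5 [9,2]) (.pg 4 14 13 [12,11]))) (.fr 2 [6,7,8,15,16,17,18]))), .t 1 (nat_lit 0) (.z (.nd false 0 18 (.nd true 1 3 (.nd false 6 10 (.pg 1 5 10 [9,2]) (.t3 [6,7,8])) (.t3 [3,4,18])) (.nd false 11 17 (.pg 0 12 13 [16,17]) (.t3 [11,14,15])))), .t 3 (nat_lit 0x126e11d4) (.z (.nd true 12 15 (.fr 4 [0,1,2,3,4,5,6,7,8,9,10,12,16,17,18]) (.pg 11 15 14 [13]))), .t 2 (nat_lit 0x126f) (.z (.nd false 14 18 (.fr 2 [0,11,12,13,15,16,18])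 (.nd true 1 4 (.nd false 1 10 (.t3 [2,9,10]) (.pg 1 3 5 [7,8,6])) (.t3 [4,14,17])))), .t 4 (nat_lit 0x127108e01270) (.z (.nd false 0 17 (.nd false 1 10 (.pg 9 18 17 [2,10]) (.fr 2 [1,3,4,5,6,7,8])) (.fr 2 [0,11,12,13,14,15,16]))), .t 2 (nat_lit 0x63f) (.z (.nd false 1 11 (.fr 3 [3,4,5,7,11,14,15,16,17,18]) (.nd false 0 2 (.pg 2 6 8 [10,9]) (.pg 0 12 13 [1])))), .t 4 (nat_lit 0x1273063f1272) (.z (.nd true 4 7 (.nd false 1 4 (.nd false 0 6 (.pg 6 8 10 [9]) (.pg 0 2 3 [4,5])) (.pg 1 12 13 [14])) (.fr 2 [7,11,15,16,17,18]))), .t 7 (nat_lit 0x12380b801237123612740ca7) (.z (.nd false 1 7 (.fr 2 [0,2,5,7,8,9,10]) (.nd false 0 13 (.nd false 0 17 (.pg 4 6 17 [18]) (.pg 16 3 14 [13,15])) (.t3 [1,11,12])))), .t 2 (nat_lit 0xb76) (.z (.nd false 0 4 (.fr 2 [4,5,6,7,8,9,10]) (.nd true 0 15 (.pg 16 17 18 [0,3]) (.fr 2 [1,2,11,12,13,14,15])))), .t 1 (nat_lit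 0) (.z (.nd false 0 4 (.fr 2 [4,5,6,7,8,9,10]) (.nd false 0 18 (.pg 1 3 2 [18]) (.nd false 11 17 (.pg 0 12 13 [16,17]) (.t3 [11,14,15]))))), .t 2 (nat_lit 0x11b7) (.z (.nd true 0 13 (.nd false 2 9 (.pg 0 14 16 [17,18,9]) (.fr 3 [1,2,3,4,5,6,7,8,10,15])) (.t3 [11,12,13]))), .t 2 (nat_lit 0x11b9) (.z (.nd true 0 3 (.nd false 9 18 (.fr 2 [4,5,6,7,8,10,18]) (.pg 0 15 16 [17,9])) (.fr 2 [1,2,3,11,12,13,14]))), .t 7 (nat_lit 0x127912781277094a12761275) (.z (.nd false 1 9 (.t3 [0,2,9]) (.nd false 0 3 (.nd false 7 8 (.pg 3 17 4 [5,8,6]) (.t3 [7,10,18])) (.fr 2 [1,11,12,13,14,15,16])))), .t 4 (nat_lit 0x93500a10652) (.z (.nd false 0 4 (.fr 2 [4,5,6,7,8,9,10]) (.nd true 0 13 (.nd true 1 3 (.pg 0 15 16 [17,1,2]) (.t3 [3,14,18])) (.t3 [11,12,13])))), .t 5 (nat_lit 0x127b127a0ca70006) (.z (.nd false 1 9 (.t3 [0,2,9]) (.nd false 0 17 (.nd false 0 7 (.t3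 [7,8,10]) (.pg 4 6 5 [3,17,18])) (.fr 2 [1,11,12,13,14,15,16]))))] (by decide +kernel) (by decide +kernel)
theorem b275 : B 17600 17664 := Blk.of_chk [.t 3 (nat_lit 0x127c1212) (.z (.nd false 1 16 (.pg 14 17 18 [16]) (.fr 4 [0,1,2,3,4,5,6,7,8,9,10,11,12,13,15]))), .t 9 (nat_lit 0x128209bd12811280127f0011127e127d) (.z (.nd true 0 8 (.t3 [0,9,10]) (.nd false 0 16 (.nd true 4 7 (.pg 3 16 17 [4,6,8,5]) (.t3 [7,18])) (.fr 2 [1,2,11,12,13,14,15])))), .t 9 (nat_lit 0x127909bd1285128412781277127e1283) (.z (.nd true 0 8 (.t3 [0,9,10]) (.nd false 0 16 (.nd true 4 7 (.pg 3 16 17 [4,5,8,6]) (.t3 [7,18])) (.fr 2 [1,2,11,12,13,14,15])))), .t 5 (nat_lit 0x1289128812871286) (.z (.nd true 0 15 (.fr 2 [0,8,9,10,16,17,18]) (.nd false 2 14 (.fr 2 [3,4,5,6,7,14,15]) (.pg 11 13 2 [1,12])))), .t 1 (nat_lit 0) (.z (.nd false 0 1 (.nd true 1 3 (.nd false 6 10 (.pg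 1 5 10 [9,2]) (.t3 [6,7,8])) (.t3 [3,4,18])) (.nd false 11 13 (.pg 0 12 13 [16,17]) (.t3 [11,14,15])))), .t 2 (nat_lit 0x11fd) (.z (.nd false 0 2 (.nd false 0 7 (.fr 2 [7,8,9,10,16,17,18]) (.pg 2 3 4 [6,5])) (.fr 2 [0,1,11,12,13,14,15]))), .t 2 (nat_lit 0x11a9) (.z (.nd false 11 13 (.pg 0 12 13 [9]) (.fr 4 [1,2,3,4,5,6,7,8,10,11,14,15,16,17,18]))), .t 7 (nat_lit 0x128d128c1224128b128a1221) (.z (.nd true 0 1 (.fr 3 [0,2,3,4,5,6,7,8,9,10]) (.nd false 11 14 (.pg 14 16 15 [12,13]) (.pg 1 17 11 [18])))), .t 3 (nat_lit 0x128f128e) (.z (.nd true 12 14 (.fr 4 [0,1,2,3,4,5,6,7,8,9,10,12,15,16,17]) (.pg 11 18 14 [13]))), .t 1 (nat_lit 0) (.z (.nd false 0 18 (.nd true 1 3 (.nd false 6 10 (.pg 1 5 10 [9,2]) (.t3 [6,7,8])) (.t3 [3,4,18])) (.nd false 11 15 (.pg 0 12 13 [15,16]) (.t3 [11,14,17])))), .t 3 (nat_lit 0xc341290) (.z (.nd false 0 12 (.nd true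 2 7 (.pg 2 5 8 [10,9]) (.nd false 0 18 (.pg 4 18 7 [6]) (.fr 2 [3,12,13,14,15,16,17]))) (.t3 [0,1,11]))), .t 6 (nat_lit 0x11eb120f129312921291) (.z (.nd false 14 18 (.nd true 0 4 (.fr 2 [0,5,6,7,8,9,10]) (.nd false 0 16 (.pg 2 16 18 [3,4]) (.pg 11 13 15 [12]))) (.t3 [1,14,17]))), .t 2 (nat_lit 0x1150) (.z (.nd true 9 18 (.pg 0 9 10 [17]) (.fr 4 [1,2,3,4,5,6,7,8,11,12,13,14,15,16,18]))), .t 3 (nat_lit 0x11bb087b) (.z (.nd false 3 9 (.nd true 17 18 (.pg 17 2 9 [0,16]) (.fr 2 [1,11,12,13,14,15,18])) (.fr 2 [3,4,5,6,7,8,10]))), .t 8 (nat_lit 0x11ea11e912380b80123712360b68) (.z (.nd true 0 16 (.fr 3 [0,4,5,6,7,8,9,10,17,18]) (.nd false 2 13 (.pg 16 3 14 [13,15]) (.pg 1 11 12 [2])))), .t 5 (nat_lit 0x12950657129411fd) (.z (.nd false 9 17 (.nd false 0 2 (.nd true 0 6 (.t3 [7,8,10]) (.pg 2 3 4 [5,6])) (.pg 1 18 17 [16])) (.fr 2 [0,9,11,12,13,14,15]))),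 .t 2 (nat_lit 0x11f0) (.z (.nd false 0 17 (.nd true 3 9 (.pg 1 3 2 [17]) (.nd true 5 7 (.pg 5 8 10 [9,6]) (.t3 [4,7,18]))) (.fr 2 [0,11,12,13,14,15,16]))), .t 3 (nat_lit 0x11ef11ee) (.z (.nd false 0 17 (.nd false 1 10 (.pg 2 10 9 [17]) (.nd false 1 3 (.pg 7 8 6 [3,5]) (.t3 [1,4,18]))) (.fr 2 [0,11,12,13,14,15,16]))), .t 4 (nat_lit 0x129812971296) (.z (.nd false 16 18 (.fr 2 [0,11,12,13,14,15,18]) (.nd true 1 3 (.nd false 5 10 (.pg 2 16 1 [6,10,9]) (.t3 [5,7,8])) (.t3 [3,4,17])))), .t 2 (nat_lit 0x11be) (.z (.nd false 11 13 (.pg 0 12 13 [10]) (.fr 4 [1,2,3,4,5,6,7,8,9,11,14,15,16,17,18]))), .t 3 (nat_lit 0xe4811f0) (.z (.nd false 0 5 (.nd true 5 7 (.pg 5 8 10 [9,6]) (.t3 [7,17,18])) (.nd true 0 3 (.pg 0 15 16 [4]) (.fr 2 [1,2,3,11,12,13,14])))), .t 1 (nat_lit 0) (.z (.nd false 0 1 (.nd true 1 3 (.nd false 5 10 (.pg 1 6 10 [9,2]) (.t3 [5,7,8]))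 (.t3 [3,4,18])) (.nd false 11 16 (.pg 0 12 13 [16,17]) (.t3 [11,14,15])))), .t 1 (nat_lit 0) (.z (.nd false 0 18 (.nd true 1 3 (.nd false 5 10 (.pg 1 6 10 [9,2]) (.t3 [5,7,8])) (.t3 [3,4,18])) (.nd false 11 13 (.pg 0 12 13 [15,17]) (.t3 [11,14,16])))), .t 2 (nat_lit 0x926) (.z (.nd false 0 3 (.nd false 3 8 (.pg 5 8 10 [9]) (.fr 2 [3,4,6,7,16,17,18])) (.nd false 11 14 (.pg 0 12 13 [14,2]) (.t3 [1,11,15])))), .t 2 (nat_lit 0x114d) (.z (.nd false 9 16 (.fr 4 [1,2,3,4,5,6,7,8,11,12,13,14,16,17,18]) (.pg 0 15 9 [10]))), .t 5 (nat_lit 0x129b129a12991229) (.z (.nd true 0 7 (.fr 2 [0,8,9,10,17,18]) (.nd false 4 7 (.pg 1 3 6 [7,5,2]) (.fr 2 [4,11,12,13,14,15,16])))), .t 7 (nat_lit 0x11d8129d0b7f129c12350c1a) (.z (.nd false 1 7 (.fr 2 [0,2,6,7,8,9,10]) (.nd false 0 13 (.nd false 0 17 (.pg 4 5 17 [18]) (.pg 15 3 14 [13,16])) (.t3 [1,11,12])))), .t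 2 (nat_lit 0x926) (.z (.nd false 0 17 (.fr 2 [6,7,8,9,10,17,18]) (.nd false 11 14 (.pg 0 12 13 [14,2]) (.fr 2 [1,3,4,5,11,15,16])))), .t 4 (nat_lit 0x11f411f30004) (.z (.nd false 0 8 (.t3 [8,9,10]) (.nd false 0 17 (.nd true 5 7 (.pg 1 3 5 [6,2,17]) (.t3 [4,7,18])) (.fr 2 [0,11,12,13,14,15,16])))), .t 5 (nat_lit 0x11ff11fe065411fd) (.z (.nd false 9 16 (.nd false 0 2 (.nd true 0 6 (.t3 [7,8,10]) (.pg 2 3 4 [5,6])) (.pg 1 17 16 [18])) (.fr 2 [0,9,11,12,13,14,15]))), .t 1 (nat_lit 0) (.z (.nd false 0 4 (.fr 2 [4,5,6,7,8,9,10]) (.nd false 0 18 (.pg 1 3 2 [18]) (.nd false 11 13 (.pg 0 12 13 [16,17]) (.t3 [11,14,15]))))), .t 3 (nat_lit 0x11fd11ac) (.z (.nd true 1 12 (.fr 2 [1,11,13,14,15,17,18]) (.nd false 2 9 (.pg 0 12 16 [9]) (.nd true 0 6 (.t3 [7,8,10]) (.pg 2 3 4 [5,6]))))), .t 7 (nat_lit 0x12a212a1065212a0129f129e) (.z (.nd false 1 4 (.nd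 true 0 5 (.fr 2 [0,6,7,8,9,10,18]) (.pg 2 3 4 [5])) (.nd false 0 14 (.pg 14 17 16 [15,1]) (.t3 [11,12,13])))), .t 3 (nat_lit 0x124611f5) (.z (.nd false 0 18 (.nd true 1 3 (.nd false 5 10 (.pg 1 6 10 [9,2]) (.t3 [5,7,8])) (.t3 [3,4,18])) (.nd false 11 15 (.pg 0 12 15 [16]) (.pg 11 17 14 [13])))), .t 4 (nat_lit 0x11ba087e0936) (.z (.nd false 3 9 (.nd true 0 13 (.nd true 1 18 (.t3 [1,14,17]) (.pg 0 15 16 [18,2,9])) (.t3 [11,12,13])) (.fr 2 [3,4,5,6,7,8,10]))), .t 1 (nat_lit 0) (.z (.nd false 0 1 (.nd true 1 8 (.pg 1 6 10 [9,2]) (.fr 2 [3,4,5,7,8,17,18])) (.fr 2 [0,11,12,13,14,15,16]))), .t 3 (nat_lit 0x126e11d4) (.z (.nd false 0 1 (.fr 3 [1,2,3,4,5,6,7,8,9,10]) (.nd true 12 14 (.pg 0 12 16 [17,18]) (.pg 11 15 14 [13])))), .t 3 (nat_lit 0x12a412a3) (.z (.nd false 0 17 (.fr 2 [6,7,8,9,10,17,18]) (.nd true 0 12 (.nd false 4 14 (.pg 13 16 15 [14])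 (.pg 0 2 3 [4,5])) (.t3 [1,11,12])))), .t 1 (nat_lit 0) (.z (.nd false 0 6 (.fr 2 [6,7,8,9,10,17,18]) (.nd false 1 4 (.pg 0 2 3 [4,5]) (.fr 2 [1,11,12,13,14,15,16])))), .t 4 (nat_lit 0x12a612a509a9) (.z (.nd false 0 3 (.nd false 0 17 (.fr 2 [6,7,8,9,10,17,18]) (.pg 15 16 5 [3,4])) (.fr 2 [0,1,2,11,12,13,14]))), .t 2 (nat_lit 0x86c) (.z (.nd false 2 18 (.fr 4 [1,3,4,5,6,7,8,10,11,13,14,15,16,17,18]) (.pg 0 12 2 [9]))), .t 6 (nat_lit 0x12ab12aa12a912a812a7) (.z (.nd false 0 1 (.nd true 1 3 (.nd false 5 10 (.pg 1 6 10 [9,2]) (.t3 [5,7,8])) (.t3 [3,4,18])) (.nd false 0 13 (.pg 13 14 15 [17,16]) (.t3 [0,11,12])))), .t 1 (nat_lit 0) (.z (.nd false 0 13 (.nd true 1 3 (.nd false 6 10 (.pg 1 5 10 [9,2,13]) (.t3 [6,7,8])) (.fr 2 [3,4,14,15,16,17,18])) (.t3 [0,11,12]))), .t 2 (nat_lit 0x11f0) (.z (.nd true 4 7 (.nd false 0 5 (.pg 5 8 10 [9,6]) (.fr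 2 [0,1,2,3,4,12,13])) (.fr 2 [7,11,14,15,16,17,18]))), .t 3 (nat_lit 0x1111aa) (.z (.nd false 3 9 (.nd false 11 14 (.pg 0 12 13 [14,9]) (.t3 [1,2,11])) (.nd true 4 7 (.pg 3 4 6 [8,10,5]) (.fr 2 [7,15,16,17,18])))), .t 6 (nat_lit 0x12541253125212511250) (.z (.nd false 17 18 (.nd false 0 13 (.pg 13 14 18 [16,15]) (.t3 [0,11,12])) (.nd true 1 3 (.nd false 6 10 (.pg 1 5 10 [9,2]) (.t3 [6,7,8])) (.t3 [3,4,17])))), .t 9 (nat_lit 0x12b00e4912af12ae097812ad12ac0b6f) (.z (.nd true 0 13 (.nd true 1 3 (.nd false 0 1 (.nd false 6 10 (.pg 1 5 10 [9,2]) (.t3 [6,7,8])) (.t3 [0,16,18])) (.pg 14 4 3 [17,15])) (.t3 [11,12,13]))), .t 1 (nat_lit 0) (.z (.nd false 0 18 (.nd false 1 10 (.pg 2 10 9 [18]) (.fr 2 [1,3,4,5,6,7,8])) (.nd false 11 15 (.pg 0 12 13 [15,16]) (.t3 [11,14,17])))), .t 3 (nat_lit 0x124611f5) (.z (.nd true 12 17 (.fr 4 [0,1,2,3,4,5,6,7,8,9,10,12,15,16,18])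 (.pg 11 17 14 [13]))), .t 4 (nat_lit 0x12b312b212b1) (.z (.nd true 6 10 (.nd false 1 5 (.pg 0 2 5 [9]) (.nd false 0 13 (.pg 3 14 13 [4,6]) (.t3 [1,11,12]))) (.fr 2 [7,8,10,15,16,17,18]))), .t 9 (nat_lit 0x12b80bc112b712b60d6c12b512b40c15) (.z (.nd false 1 9 (.t3 [0,2,9]) (.nd false 0 16 (.nd true 8 10 (.pg 16 17 4 [5,8,6]) (.t3 [7,10,18])) (.fr 2 [1,3,11,12,13,14,15])))), .t 1 (nat_lit 0) (.z (.nd true 0 3 (.nd false 0 7 (.fr 2 [7,8,9,10,16,17,18]) (.pg 0 4 15 [5,6])) (.fr 2 [1,2,3,11,12,13,14]))), .t 1 (nat_lit 0) (.z (.nd false 0 1 (.fr 3 [1,2,3,4,5,6,7,8,9,10]) (.nd true 13 15 (.pg 0 12 13 [16,17,18]) (.t3 [11,14,15])))), .t 6 (nat_lit 0x12bc12bb12ba125112b9) (.z (.nd false 17 18 (.nd false 0 13 (.pg 13 14 15 [18,16]) (.t3 [0,11,12])) (.nd true 1 3 (.nd false 6 10 (.pg 1 5 10 [9,2]) (.t3 [6,7,8])) (.t3 [3,4,17])))), .t 2 (nat_lit 0x11ba)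 (.z (.nd true 0 13 (.nd false 2 9 (.pg 0 15 16 [17,18,9]) (.fr 3 [1,2,3,4,5,6,7,8,10,14])) (.t3 [11,12,13]))), .t 2 (nat_lit 0x114d) (.z (.nd false 9 11 (.fr 4 [1,2,3,4,5,6,7,8,11,12,13,14,16,17,18]) (.pg 0 15 9 [10]))), .t 10 (nat_lit 0x12c312c212c1120f12c012bf12be126012bd) (.z (.nd true 0 1 (.fr 3 [0,2,3,4,5,6,7,8,9,10]) (.nd false 14 18 (.pg 11 13 15 [16,18,12]) (.t3 [1,14,17])))), .t 5 (nat_lit 0x12c712c612c512c4) (.z (.nd false 0 16 (.nd true 6 7 (.pg 6 8 10 [9]) (.fr 2 [3,4,5,7,16,17,18])) (.nd false 0 12 (.pg 12 13 14 [15,2]) (.t3 [0,1,11])))), .t 5 (nat_lit 0x12c8126e11d41257) (.z (.nd true 1 7 (.fr 2 [0,1,2,6,8,9,10]) (.nd true 3 14 (.fr 2 [3,4,5,7,16,17,18]) (.pg 11 15 14 [13,12])))), .t 5 (nat_lit 0x12cb120f12ca12c9) (.z (.nd true 0 4 (.fr 2 [0,5,6,7,8,9,10]) (.nd true 13 18 (.pg 11 13 17 [15,12]) (.fr 2 [1,2,3,4,14,16,18])))),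 .t 5 (nat_lit 0x12c612cc093700a1) (.z (.nd false 0 4 (.fr 2 [4,5,6,7,8,9,10]) (.nd true 1 3 (.nd true 0 15 (.pg 17 1 2 [0,16]) (.pg 12 13 15 [14])) (.t3 [3,11,18])))), .t 6 (nat_lit 0x1712d012cf12ce12cd) (.z (.nd true 4 14 (.fr 2 [4,11,13,15,16,17,18]) (.nd true 0 3 (.fr 2 [0,5,6,7,8,9,10]) (.pg 1 12 14 [3,2])))), .t 5 (nat_lit 0x11ea11e912d10b7f) (.z (.nd true 0 15 (.nd false 0 4 (.fr 2 [4,5,6,7,8,9,10]) (.pg 0 16 17 [18])) (.nd false 2 13 (.pg 3 13 14 [15]) (.pg 1 11 12 [2])))), .t 2 (nat_lit 0xb) (.z (.nd true 0 6 (.nd false 8 17 (.t3 [10,17,18]) (.pg 8 9 0 [7,16])) (.nd true 1 3 (.pg 1 6 5 [2]) (.fr 2 [3,4,11,12,13,14,15]))))] (by decide +kernel) (by decide +kernel)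
theorem b276 : B 17664 17728 := Blk.of_chk [.t 4 (nat_lit 0x12d310ac12d2) (.z (.nd true 0 15 (.nd true 4 7 (.nd false 0 6 (.pg 6 8 10 [9]) (.pg 0 3 4 [5])) (.pg 7 18 17 [16])) (.fr 2 [1,2,11,12,13,14,15]))), .t 5 (nat_lit 0x15712d412290462) (.z (.nd false 0 13 (.nd false 4 7 (.nd false 1 8 (.pg 2 5 8 [10,9]) (.pg 1 3 6 [7,18])) (.fr 2 [4,13,14,15,16,17])) (.t3 [0,11,12]))), .t 9 (nat_lit 0x12db12da12d912d8128812d712d612d5) (.z (.nd true 13 17 (.nd true 0 1 (.fr 3 [0,2,3,4,5,6,7,8,9,10]) (.pg 11 13 16 [18,1,12])) (.t3 [14,15,17]))), .t 3 (nat_lit 0x12dc0f37) (.z (.nd true 7 9 (.nd false 4 11 (.pg 6 14 11 [7]) (.nd true 0 1 (.pg 0 2 3 [4,5]) (.t3 [1,12,13]))) (.fr 2 [8,9,10,15,16,17,18]))), .t 8 (nat_lit 0x12e0093612df093812de12dd0939) (.z (.nd false 10 15 (.nd false 1 2 (.pg 16 17 18 [2,15]) (.fr 2 [1,3,4,5,6,7,8])) (.fr 2 [0,9,10,11,12,13,14]))),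 .t 4 (nat_lit 0xc8712e10c6f) (.z (.nd true 0 12 (.nd false 7 9 (.nd true 3 6 (.pg 0 2 3 [5,9]) (.pg 4 13 14 [6])) (.fr 2 [7,8,10,15,16,17,18])) (.t3 [1,11,12]))), .t 3 (nat_lit 0x12e312e2) (.z (.nd false 0 18 (.nd false 1 10 (.pg 2 10 9 [18]) (.fr 2 [1,3,4,5,6,7,8])) (.nd false 11 14 (.pg 0 12 13 [14]) (.pg 11 15 17 [16])))), .t 9 (nat_lit 0x12ea12e912e812e712e612e5003912e4) (.z (.nd true 0 8 (.t3 [0,9,10]) (.nd true 0 13 (.nd true 1 4 (.nd true 0 5 (.t3 [6,7,8]) (.pg 2 17 16 [15,1,3,5])) (.t3 [4,14,18])) (.t3 [11,12,13])))), .t 3 (nat_lit 0x12ec12eb) (.z (.nd false 13 17 (.fr 4 [0,1,2,3,4,5,6,7,8,9,10,12,14,17,18]) (.pg 11 15 16 [13]))), .t 3 (nat_lit 0x868124a) (.z (.nd false 0 18 (.nd false 1 10 (.pg 2 18 10 [9]) (.fr 2 [1,3,4,5,6,7,8])) (.nd false 11 14 (.pg 0 12 13 [14,17]) (.t3 [11,15,16])))), .t 5 (nat_lit 0x11d811d711d611d5) (.z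 (.nd false 0 4 (.fr 2 [4,5,6,7,8,9,10]) (.nd false 0 18 (.pg 1 3 2 [18]) (.nd false 0 13 (.pg 16 17 15 [13,14]) (.t3 [0,11,12]))))), .t 1 (nat_lit 0) (.z (.nd false 0 4 (.fr 2 [4,5,6,7,8,9,10]) (.nd false 0 18 (.pg 1 3 2 [18]) (.nd false 11 15 (.pg 0 12 13 [15,16]) (.t3 [11,14,17]))))), .t 6 (nat_lit 0x125e12ed1260120912bd) (.z (.nd true 0 4 (.fr 2 [0,5,6,7,8,9,10]) (.nd false 14 15 (.pg 11 13 15 [16,12]) (.fr 2 [1,2,3,4,14,17,18])))), .t 5 (nat_lit 0x12ef12ee0004000b) (.z (.nd false 0 7 (.fr 2 [7,8,9,10,16,17,18]) (.nd false 0 13 (.nd true 1 4 (.pg 1 3 6 [5,2]) (.pg 4 14 13 [15])) (.t3 [0,11,12])))), .t 6 (nat_lit 0x12f200a612f112f00099) (.z (.nd true 0 15 (.fr 2 [0,8,9,10,16,17,18]) (.nd false 1 11 (.fr 2 [3,4,5,7,11,14,15]) (.pg 2 12 13 [1,6])))), .t 5 (nat_lit 0x12f612f512f412f3) (.z (.nd false 0 15 (.nd true 6 7 (.pg 6 8 10 [9]) (.fr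 2 [4,5,7,15,16,17,18])) (.nd true 1 3 (.t3 [0,1,2]) (.pg 11 13 3 [14,12])))), .t 3 (nat_lit 0x12c612cc) (.z (.nd false 0 12 (.nd true 2 7 (.pg 2 6 8 [10,9]) (.nd false 0 16 (.fr 2 [3,4,5,7,16,17,18]) (.pg 12 13 15 [14]))) (.t3 [0,1,11]))), .t 3 (nat_lit 0x124d01b9) (.z (.nd false 0 13 (.nd true 3 7 (.nd true 2 3 (.pg 2 6 8 [10,9]) (.pg 1 3 14 [13])) (.fr 2 [4,5,7,15,16,17,18])) (.t3 [0,11,12]))), .t 5 (nat_lit 0x12f8127312f71272) (.z (.nd false 0 1 (.nd false 1 8 (.pg 2 6 8 [10,9]) (.nd false 0 15 (.fr 2 [4,5,7,15,16,17,18]) (.pg 1 12 13 [14,3]))) (.t3 [0,11]))), .t 1 (nat_lit 0) (.z (.nd true 0 2 (.nd true 5 9 (.pg 0 3 4 [5,6]) (.fr 2 [7,8,9,10,16,17,18])) (.fr 2 [1,2,11,12,13,14,15]))), .t 3 (nat_lit 0x12fa12f9) (.z (.nd true 14 17 (.fr 4 [0,1,2,3,4,5,6,7,8,9,10,14,15,16,18]) (.pg 11 17 13 [12]))), .t 4 (nat_lit 0x129812fb1296) (.z (.nd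 false 16 17 (.fr 2 [0,11,12,13,14,15,17]) (.nd true 1 3 (.nd false 6 10 (.pg 2 16 1 [5,10,9]) (.t3 [6,7,8])) (.t3 [3,4,18])))), .t 5 (nat_lit 0x15712fc126f0462) (.z (.nd false 0 12 (.nd true 1 4 (.nd false 1 8 (.pg 2 6 8 [10,9]) (.pg 1 3 5 [7,18])) (.fr 2 [4,12,13,14,15,16,17])) (.t3 [0,11]))), .t 6 (nat_lit 0x130012ff11dd12fe12fd) (.z (.nd false 0 4 (.fr 2 [4,5,6,7,8,9,10]) (.nd false 0 14 (.pg 14 15 16 [18,17]) (.fr 2 [0,1,2,3,11,12,13])))), .t 4 (nat_lit 0x120019c1301) (.z (.nd true 3 16 (.pg 1 18 4 [3]) (.fr 4 [0,2,5,6,7,8,9,10,11,12,13,14,15,16,17]))), .t 4 (nat_lit 0x120019c1301) (.z (.nd false 5 18 (.pg 1 18 4 [3]) (.fr 4 [0,2,5,6,7,8,9,10,11,12,13,14,15,16,17]))), .t 6 (nat_lit 0x12ab12aa12a912a812a7) (.z (.nd false 0 4 (.fr 2 [4,5,6,7,8,9,10]) (.nd false 0 18 (.pg 1 3 2 [18]) (.nd false 0 13 (.pg 13 14 15 [17,16]) (.t3 [0,11,12]))))),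 .t 5 (nat_lit 0x130413031302009f) (.z (.nd false 16 17 (.fr 2 [0,11,12,13,14,15,17]) (.nd false 2 4 (.fr 2 [4,5,6,7,8,9,10]) (.pg 2 18 16 [1,3])))), .t 5 (nat_lit 0x11dc1305127c129f) (.z (.nd false 0 14 (.nd false 0 4 (.fr 2 [4,5,6,7,8,9,10]) (.pg 14 18 17 [16,15])) (.fr 2 [0,1,2,3,11,12,13]))), .t 3 (nat_lit 0x126e11d4) (.z (.nd true 12 14 (.fr 4 [0,1,2,3,4,5,6,7,8,9,10,12,16,17,18]) (.pg 11 15 14 [13]))), .t 1 (nat_lit 0) (.z (.nd false 0 18 (.nd true 1 3 (.nd false 5 10 (.pg 1 6 10 [9,2]) (.t3 [5,7,8])) (.t3 [3,4,18])) (.nd false 11 14 (.pg 0 12 13 [14,17]) (.t3 [11,15,16])))), .t 9 (nat_lit 0x130806ce1307130600ef0934009f1302) (.z (.nd true 0 4 (.fr 2 [0,5,6,7,8,9,10]) (.nd false 0 14 (.nd true 1 4 (.pg 16 1 3 [2,17,15]) (.t3 [4,14,18])) (.t3 [11,12,13])))), .t 4 (nat_lit 0x122812301226) (.z (.nd false 0 13 (.nd true 1 3 (.nd false 5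 10 (.pg 2 14 1 [6,10,9]) (.t3 [5,7,8])) (.fr 2 [3,4,13,15,16,17,18])) (.t3 [0,11,12]))), .t 1 (nat_lit 0) (.z (.nd false 16 18 (.nd true 0 13 (.pg 0 14 15 [17,18]) (.t3 [11,12,13])) (.nd true 1 3 (.nd false 5 10 (.pg 1 6 10 [9,2]) (.t3 [5,7,8])) (.t3 [3,4,16])))), .t 3 (nat_lit 0x13091257) (.z (.nd true 1 14 (.fr 4 [0,1,2,3,4,5,6,7,8,9,10,15,16,17,18]) (.pg 11 14 13 [12]))), .t 1 (nat_lit 0) (.z (.nd false 2 11 (.fr 4 [3,4,5,6,7,8,9,10,11,12,13,15,16,17,18]) (.pg 0 1 14 [2]))), .t 2 (nat_lit 0x11f0) (.z (.nd false 0 17 (.nd true 6 7 (.pg 6 8 10 [9,5]) (.t3 [7,17,18])) (.nd false 1 4 (.pg 0 2 3 [4]) (.fr 2 [1,11,12,13,14,15,16])))), .t 3 (nat_lit 0x12e10c86) (.z (.nd false 7 9 (.nd false 0 13 (.nd true 3 6 (.pg 1 3 5 [9,2]) (.pg 4 14 13 [6])) (.t3 [0,11,12])) (.fr 2 [7,8,10,15,16,17,18]))), .t 3 (nat_lit 0x9250099) (.z (.nd false 3 11 (.fr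 2 [4,11,14,15,16,17,18]) (.nd false 0 3 (.fr 2 [3,5,6,7,8,9,10]) (.pg 13 1 2 [0,12])))), .t 2 (nat_lit 0x11ae) (.z (.nd false 3 9 (.nd false 11 13 (.pg 0 12 13 [18,9]) (.fr 2 [1,2,11,14,15,16,17])) (.fr 2 [3,4,5,6,7,8,10]))), .t 3 (nat_lit 0x11fd11bb) (.z (.nd true 1 17 (.fr 2 [1,11,12,13,14,15,18]) (.nd false 2 9 (.pg 0 16 17 [9]) (.nd true 0 6 (.t3 [7,8,10]) (.pg 2 3 4 [5,6]))))), .t 4 (nat_lit 0x130a0d1b11f0) (.z (.nd false 0 4 (.nd false 4 5 (.pg 5 8 10 [9,6]) (.pg 4 17 18 [7])) (.fr 3 [0,1,2,3,11,12,13,14,15,16]))), .t 6 (nat_lit 0x11fd11dc11db130c130b) (.z (.nd true 1 17 (.nd false 0 14 (.pg 14 18 1 [16,15]) (.t3 [11,12,13])) (.nd false 2 9 (.t3 [0,9,17]) (.nd true 0 6 (.t3 [7,8,10]) (.pg 2 3 4 [6,5]))))), .t 10 (nat_lit 0x1311011101d013100110130f02ce130e130d) (.z (.nd true 0 4 (.fr 2 [0,5,6,7,8,9,10]) (.nd true 1 17 (.pg 1 15 14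 [4,3]) (.fr 2 [2,11,12,13,16,17,18])))), .t 4 (nat_lit 0x124a1312007f) (.z (.nd false 0 17 (.nd true 1 3 (.nd false 6 10 (.pg 2 18 1 [5,10,9]) (.t3 [6,7,8])) (.t3 [3,4,17])) (.fr 2 [0,11,12,13,14,15,16]))), .t 9 (nat_lit 0x131511de11d9129f1314131312951294) (.z (.nd true 0 4 (.fr 2 [0,5,6,7,8,9,10]) (.nd true 0 13 (.nd true 0 1 (.t3 [2,3,4]) (.pg 1 18 17 [16,15,14])) (.t3 [11,12,13])))), .t 1 (nat_lit 0) (.z (.nd false 0 7 (.fr 2 [7,8,9,10,16,17,18]) (.nd false 1 3 (.pg 0 2 3 [5,6]) (.fr 2 [1,4,11,12,13,14,15])))), .t 6 (nat_lit 0x131713160e4c11e511e4) (.z (.nd true 0 15 (.nd false 4 7 (.nd true 0 8 (.t3 [0,9,10]) (.pg 7 8 5 [3,6])) (.pg 4 16 18 [17])) (.fr 2 [1,2,11,12,13,14,15]))), .t 6 (nat_lit 0x11db130c064e11fd11b9) (.z (.nd true 0 13 (.nd false 1 4 (.nd false 2 9 (.pg 0 15 17 [9]) (.nd true 0 6 (.t3 [7,8,10]) (.pg 2 3 4 [5,6]))) (.pg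 1 16 14 [18])) (.t3 [11,12,13]))), .t 7 (nat_lit 0x131b131a1319093413180939) (.z (.nd false 10 16 (.nd false 1 2 (.pg 15 17 18 [2,16]) (.fr 2 [1,3,4,5,6,7,8])) (.fr 2 [0,9,10,11,12,13,14]))), .t 1 (nat_lit 0) (.z (.nd false 15 18 (.fr 2 [0,11,12,13,14,16,18]) (.nd true 1 4 (.nd true 1 7 (.pg 1 6 8 [10,9,2]) (.t3 [3,5,7])) (.t3 [4,15,17])))), .t 3 (nat_lit 0x12a412a3) (.z (.nd false 0 6 (.fr 2 [6,7,8,9,10,17,18]) (.nd true 0 12 (.nd false 4 14 (.pg 13 16 15 [14]) (.pg 0 2 3 [4,5])) (.t3 [1,11,12])))), .t 1 (nat_lit 0) (.z (.nd false 7 11 (.fr 2 [10,11,15,16,17,18]) (.nd false 1 7 (.pg 0 2 6 [7,8,9]) (.fr 2 [1,3,4,5,12,13,14])))), .t 2 (nat_lit 0x11f0) (.z (.nd true 0 14 (.nd false 0 4 (.nd true 5 7 (.pg 5 8 10 [9,6]) (.t3 [4,7,18])) (.pg 0 15 16 [17])) (.fr 2 [1,2,3,11,12,13,14]))), .t 1 (nat_lit 0) (.z (.nd false 6 9 (.nd false 1 3 (.pg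 0 2 3 [5,9]) (.fr 2 [1,4,11,12,13,14,15])) (.fr 2 [6,7,8,10,16,17,18]))), .t 2 (nat_lit 0x11ab) (.z (.nd false 3 9 (.nd false 11 13 (.pg 0 12 13 [15,9]) (.fr 2 [1,2,11,14,16,17,18])) (.fr 2 [3,4,5,6,7,8,10]))), .t 9 (nat_lit 0x13211320131f131e131d131c0641063f) (.z (.nd false 1 4 (.fr 3 [0,2,3,4,5,6,7,8,9,10]) (.nd false 11 13 (.pg 1 12 13 [15]) (.pg 11 18 17 [16,14])))), .t 3 (nat_lit 0x12691268) (.z (.nd false 0 1 (.nd true 1 3 (.nd false 5 10 (.pg 1 6 10 [9,2]) (.t3 [5,7,8])) (.t3 [3,4,18])) (.nd false 11 14 (.pg 0 12 13 [14]) (.pg 11 16 17 [15])))), .t 4 (nat_lit 0x1323132211cf) (.z (.nd true 0 5 (.nd true 7 10 (.pg 0 6 7 [8,9]) (.pg 10 17 16 [18])) (.fr 3 [1,2,3,4,5,11,12,13,14,15]))), .t 10 (nat_lit 0x12cc132713261325130700fc11f3132400a1) (.z (.nd false 0 4 (.fr 2 [4,5,6,7,8,9,10]) (.nd false 0 12 (.nd false 12 17 (.pg 2 16 17 [1,3])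 (.pg 15 18 14 [12,13])) (.t3 [0,11])))), .t 5 (nat_lit 0x132a13291328126f) (.z (.nd false 0 15 (.fr 2 [8,9,10,15,16,17,18]) (.nd false 0 13 (.nd false 4 7 (.pg 1 3 5 [7,6,2]) (.t3 [4,13,14])) (.t3 [0,11,12])))), .t 2 (nat_lit 6) (.z (.nd true 0 15 (.nd true 0 6 (.nd false 8 17 (.t3 [10,17,18]) (.pg 8 9 0 [7,16])) (.pg 3 4 6 [5])) (.fr 2 [1,2,11,12,13,14,15]))), .t 3 (nat_lit 0x132c132b) (.z (.nd false 0 18 (.nd true 1 3 (.nd false 5 10 (.pg 1 6 10 [9,2]) (.t3 [5,7,8])) (.t3 [3,4,18])) (.nd false 11 13 (.pg 0 12 13 [15]) (.pg 11 14 17 [16])))), .t 3 (nat_lit 0x11fd11b9) (.z (.nd false 14 17 (.nd true 0 13 (.pg 0 15 16 [17,9]) (.t3 [11,12,13])) (.nd false 1 4 (.nd true 0 6 (.t3 [7,8,10]) (.pg 2 3 4 [6,5])) (.t3 [1,14,18]))))] (by decide +kernel) (by decide +kernel)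
theorem b277 : B 17728 17792 := Blk.of_chk [.t 3 (nat_lit 0x71211f0) (.z (.nd false 0 17 (.nd true 6 7 (.pg 6 8 10 [9,5]) (.t3 [7,17,18])) (.nd false 1 4 (.pg 0 2 3 [4,16]) (.fr 2 [1,11,12,13,14,15])))), .t 4 (nat_lit 0x121506451214) (.z (.nd true 1 16 (.pg 1 14 13 [11]) (.fr 4 [0,2,3,4,5,6,7,8,9,10,12,15,16,17,18]))), .t 7 (nat_lit 0x13311330132f132e132d0ca2) (.z (.nd true 2 10 (.t3 [0,2,9]) (.nd false 0 16 (.nd false 0 7 (.t3 [7,8,10]) (.pg 16 18 4 [6,5,17])) (.fr 2 [1,3,11,12,13,14,15])))), .t 3 (nat_lit 0x11f1120e) (.z (.nd false 0 1 (.nd true 1 3 (.nd false 5 10 (.pg 1 6 10 [9,2]) (.t3 [5,7,8])) (.t3 [3,4,18])) (.nd true 12 16 (.pg 0 12 15 [17]) (.pg 11 14 16 [13])))), .t 1 (nat_lit 0) (.z (.nd false 1 18 (.nd true 4 7 (.nd false 0 6 (.pg 6 8 10 [9]) (.pg 0 2 3 [4,5])) (.t3 [7,16,18])) (.fr 2 [1,11,12,13,14,15,17]))), .t 1 (nat_lit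 0) (.z (.nd false 10 13 (.fr 4 [1,2,3,4,5,6,7,8,9,13,14,15,16,17,18]) (.pg 0 11 12 [10]))), .t 7 (nat_lit 0x13340ca3133313320e580ca1) (.z (.nd false 1 7 (.fr 2 [0,2,5,7,8,9,10]) (.nd false 0 4 (.pg 4 17 18 [16,6]) (.fr 2 [1,3,11,12,13,14,15])))), .t 3 (nat_lit 0x99012b3) (.z (.nd false 0 13 (.nd true 4 8 (.nd true 1 3 (.pg 1 5 10 [9,2]) (.pg 3 13 14 [4])) (.fr 2 [6,7,8,15,16,17,18])) (.t3 [0,11,12]))), .t 5 (nat_lit 0x1336133510aa11f0) (.z (.nd false 0 5 (.nd false 7 10 (.pg 6 8 10 [9,5]) (.pg 7 18 17 [16])) (.fr 3 [0,1,2,3,4,11,12,13,14,15]))), .t 5 (nat_lit 0x11d8125013371254) (.z (.nd false 17 18 (.nd false 0 13 (.pg 16 18 15 [13,14]) (.t3 [0,11,12])) (.nd true 1 3 (.nd false 5 10 (.pg 1 6 10 [9,2]) (.t3 [5,7,8])) (.t3 [3,4,17])))), .t 1 (nat_lit 0) (.z (.nd false 9 17 (.fr 4 [1,2,3,4,5,6,7,8,12,13,14,15,16,17,18]) (.pg 0 11 9 [10]))),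 .t 4 (nat_lit 0x411f3000b) (.z (.nd false 0 8 (.t3 [8,9,10]) (.nd false 0 17 (.nd true 6 7 (.pg 1 3 6 [5,2,17]) (.t3 [4,7,18])) (.fr 2 [0,11,12,13,14,15,16])))), .t 8 (nat_lit 0x133c11d8133b133a133913380939) (.z (.nd true 0 8 (.t3 [0,9,10]) (.nd false 1 2 (.nd true 11 15 (.pg 11 17 18 [2,12]) (.pg 13 14 16 [15])) (.fr 2 [1,3,4,5,6,7,8])))), .t 2 (nat_lit 0x926) (.z (.nd false 0 4 (.nd false 4 8 (.pg 6 8 10 [9]) (.fr 2 [4,5,7,15,16,17,18])) (.nd false 11 14 (.pg 0 12 13 [14,2]) (.t3 [1,3,11])))), .t 1 (nat_lit 0) (.z (.nd false 0 1 (.nd true 4 7 (.nd true 3 8 (.pg 3 6 10 [9,2,1,14]) (.t3 [4,5,8])) (.fr 2 [7,12,13,15,16,17,18])) (.t3 [0,11]))), .t 5 (nat_lit 0x133e133d0ce511f0) (.z (.nd false 0 17 (.nd true 5 7 (.pg 5 8 10 [9,6]) (.pg 4 17 18 [7])) (.fr 3 [0,1,2,3,11,12,13,14,15,16]))), .t 4 (nat_lit 0x11ba087e0936) (.z (.nd false 3 9 (.nd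 true 0 13 (.nd true 16 17 (.pg 0 15 16 [18,2,9]) (.t3 [1,14,17])) (.t3 [11,12,13])) (.fr 2 [3,4,5,6,7,8,10]))), .t 1 (nat_lit 0) (.z (.nd false 1 4 (.nd false 0 6 (.fr 2 [6,7,8,9,10,16,18]) (.pg 0 2 3 [4,5])) (.fr 2 [1,11,12,13,14,15,17]))), .t 3 (nat_lit 0x126e11d4) (.z (.nd false 0 4 (.fr 2 [4,5,6,7,8,9,10]) (.nd false 0 18 (.pg 1 3 2 [18]) (.nd false 11 16 (.pg 0 12 16 [17]) (.pg 11 15 14 [13]))))), .t 2 (nat_lit 0xadf) (.z (.nd true 0 15 (.nd false 5 17 (.fr 2 [4,6,7,8,10,17,18]) (.pg 3 5 9 [0,16])) (.fr 2 [1,2,11,12,13,14,15]))), .t 5 (nat_lit 0x13411340127e133f) (.z (.nd true 0 15 (.nd true 0 4 (.fr 2 [0,5,6,7,8,9,10]) (.pg 16 17 18 [4,3])) (.fr 2 [1,2,11,12,13,14,15]))), .t 3 (nat_lit 0x13431342) (.z (.nd true 1 13 (.fr 4 [0,1,2,3,4,5,6,7,8,9,10,14,15,16,17]) (.pg 11 18 13 [12]))), .t 8 (nat_lit 0x12ea12e9093712e612e5009e12e4) (.z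 (.nd false 0 4 (.fr 2 [4,5,6,7,8,9,10]) (.nd false 0 13 (.nd false 1 14 (.t3 [13,14,18]) (.pg 2 17 16 [15,1,3])) (.t3 [0,11,12])))), .t 3 (nat_lit 0x121011d) (.z (.nd false 1 5 (.fr 4 [0,2,5,6,7,8,9,10,11,12,13,14,15,16,17]) (.pg 1 18 4 [3]))), .t 6 (nat_lit 0xfbc13461345134411bd) (.z (.nd false 0 16 (.nd false 7 9 (.pg 16 17 18 [9,6]) (.t3 [7,8,10])) (.nd false 1 3 (.pg 0 2 3 [5]) (.fr 2 [1,4,11,12,13,14,15])))), .t 1 (nat_lit 0) (.z (.nd false 14 18 (.fr 2 [0,11,12,13,16,17,18]) (.nd true 1 4 (.nd true 1 7 (.pg 1 6 8 [10,9,2]) (.t3 [3,5,7])) (.t3 [4,14,15])))), .t 1 (nat_lit 0) (.z (.nd true 12 16 (.pg 0 11 12 [10]) (.fr 4 [1,2,3,4,5,6,7,8,9,13,14,15,16,17,18]))), .t 3 (nat_lit 0x4000b) (.z (.nd true 0 15 (.fr 2 [0,8,9,10,16,17,18]) (.nd true 6 7 (.pg 1 3 6 [5,2]) (.fr 2 [4,7,11,12,13,14,15])))), .t 3 (nat_lit 0x12a9125b) (.z (.nd true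 11 17 (.fr 4 [0,1,2,3,4,5,6,7,8,9,10,11,12,16,18]) (.pg 13 14 17 [15]))), .t 6 (nat_lit 0x13481347064d11bb087b) (.z (.nd false 3 9 (.nd true 0 13 (.nd true 17 18 (.pg 17 2 9 [0,16]) (.pg 1 18 14 [15])) (.t3 [11,12,13])) (.fr 2 [3,4,5,6,7,8,10]))), .t 8 (nat_lit 0x13141313129506570656129411fd) (.z (.nd false 9 11 (.nd false 0 2 (.nd true 0 6 (.t3 [7,8,10]) (.pg 2 3 4 [5,6])) (.nd false 0 15 (.pg 1 18 17 [16,15]) (.t3 [11,13,14]))) (.t3 [0,9,12]))), .t 3 (nat_lit 0x12691268) (.z (.nd false 0 1 (.fr 3 [1,2,3,4,5,6,7,8,9,10]) (.nd false 11 14 (.pg 0 12 13 [14,18]) (.pg 11 16 17 [15])))), .t 3 (nat_lit 0x1349120a) (.z (.nd true 14 16 (.fr 4 [0,1,2,3,4,5,6,7,8,9,10,14,15,17,18]) (.pg 11 16 13 [12]))), .t 1 (nat_lit 0) (.z (.nd false 0 7 (.fr 2 [7,8,9,10,16,17,18]) (.nd true 0 13 (.nd false 1 4 (.pg 0 2 3 [4,5,6]) (.t3 [1,14,15])) (.t3 [11,12,13])))),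 .t 1 (nat_lit 0) (.z (.nd false 0 16 (.nd true 5 7 (.pg 2 5 8 [10,9]) (.fr 2 [3,4,6,7,16,17,18])) (.fr 2 [0,1,11,12,13,14,15]))), .t 4 (nat_lit 0x134b11d1134a) (.z (.nd true 0 4 (.nd true 7 10 (.pg 0 5 6 [7,8,9]) (.pg 10 18 17 [16])) (.fr 3 [1,2,3,4,11,12,13,14,15]))), .t 2 (nat_lit 0x11be) (.z (.nd false 10 11 (.fr 4 [1,2,3,4,5,6,7,8,9,11,14,15,16,17,18]) (.pg 0 12 13 [10]))), .t 7 (nat_lit 0x11de11d91295129411eb120f) (.z (.nd true 0 1 (.fr 3 [0,2,3,4,5,6,7,8,9,10]) (.nd false 14 15 (.pg 11 13 15 [12]) (.pg 1 18 17 [16,14])))), .t 3 (nat_lit 0x9250099) (.z (.nd false 0 4 (.nd false 4 8 (.pg 5 8 10 [9]) (.fr 2 [4,6,7,15,16,17,18])) (.nd false 1 11 (.t3 [3,11,14]) (.pg 13 1 2 [0,12])))), .t 7 (nat_lit 0x11ea11e912a3123811e511e4) (.z (.nd true 0 16 (.nd true 3 4 (.nd true 0 8 (.t3 [0,9,10]) (.pg 7 8 5 [3,6])) (.t3 [4,17,18])) (.nd false 2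 13 (.pg 13 15 16 [14]) (.pg 1 11 12 [2])))), .t 4 (nat_lit 0x120019c1301) (.z (.nd false 1 6 (.fr 4 [0,2,5,6,7,8,9,10,11,12,13,14,15,16,17]) (.pg 1 18 4 [3]))), .t 7 (nat_lit 0x11ea11e912a412a311e511e4) (.z (.nd true 0 16 (.nd true 3 4 (.nd true 0 8 (.t3 [0,9,10]) (.pg 7 8 5 [3,6])) (.t3 [4,17,18])) (.nd false 2 14 (.pg 13 16 15 [14]) (.pg 1 11 12 [2])))), .t 3 (nat_lit 0x11b80878) (.z (.nd false 3 9 (.nd true 1 16 (.fr 2 [1,11,12,13,14,17,18]) (.pg 16 2 9 [0,15])) (.fr 2 [3,4,5,6,7,8,10]))), .t 1 (nat_lit 0) (.z (.nd false 14 18 (.fr 2 [0,11,12,13,15,16,18]) (.nd true 1 4 (.nd true 1 7 (.pg 1 5 8 [10,9,2]) (.t3 [3,6,7])) (.t3 [4,14,17])))), .t 8 (nat_lit 0x13511350134f06be134e134d134c) (.z (.nd false 3 17 (.t3 [1,17,18]) (.nd true 0 4 (.fr 2 [0,5,6,7,8,9,10]) (.nd false 0 14 (.pg 14 16 3 [4,2,15]) (.t3 [11,12,13]))))), .t 1 (nat_lit 0)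 (.z (.nd true 0 16 (.nd false 0 5 (.fr 2 [5,6,7,8,9,10,18]) (.pg 4 0 2 [3,17])) (.fr 2 [1,11,12,13,14,15,16]))), .t 1 (nat_lit 0) (.z (.nd true 0 12 (.nd false 0 17 (.fr 2 [6,7,8,9,10,17,18]) (.nd false 13 15 (.pg 5 0 2 [3,4,15]) (.t3 [13,14,16]))) (.t3 [1,11,12]))), .t 5 (nat_lit 0x13531352064e11fd) (.z (.nd false 9 16 (.nd false 0 2 (.nd true 0 6 (.t3 [7,8,10]) (.pg 2 3 4 [6,5])) (.pg 1 16 14 [17])) (.fr 2 [0,9,11,12,13,15,18]))), .t 1 (nat_lit 0) (.z (.nd false 0 1 (.nd true 1 3 (.nd false 5 10 (.pg 1 6 10 [9,2]) (.t3 [5,7,8])) (.t3 [3,4,18])) (.nd false 11 17 (.pg 0 12 13 [14,17]) (.t3 [11,15,16])))), .t 4 (nat_lit 0x11b01991354) (.z (.nd true 4 16 (.pg 1 17 4 [3]) (.fr 4 [0,2,5,6,7,8,9,10,11,12,13,14,15,16,18]))), .t 2 (nat_lit 0x114f) (.z (.nd false 9 11 (.fr 4 [1,2,3,4,5,6,7,8,11,12,13,14,15,17,18]) (.pg 0 16 9 [10]))), .t 4 (nat_lit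 0x11d9065411df) (.z (.nd false 14 18 (.fr 4 [0,2,3,4,5,6,7,8,9,10,11,12,13,15,18]) (.pg 1 17 16 [14]))), .t 5 (nat_lit 0x1357135613551214) (.z (.nd false 0 3 (.nd false 3 8 (.pg 5 8 10 [9]) (.fr 2 [3,4,6,7,16,17,18])) (.nd true 12 14 (.t3 [0,2,12]) (.pg 11 15 1 [14,13])))), .t 4 (nat_lit 0x11fd13580006) (.z (.nd true 0 13 (.nd false 14 18 (.nd false 2 7 (.fr 2 [0,7,8,9,10,15,16]) (.pg 3 4 5 [6,2,18])) (.t3 [1,14,17])) (.t3 [11,12,13]))), .t 2 (nat_lit 0x126f) (.z (.nd true 4 17 (.fr 2 [4,11,12,13,14,15]) (.nd false 0 1 (.nd false 1 10 (.t3 [2,9,10]) (.pg 1 3 5 [7,8,6])) (.pg 0 16 17 [18])))), .t 2 (nat_lit 0x640) (.z (.nd false 0 16 (.nd true 5 7 (.pg 5 8 10 [9]) (.fr 2 [3,4,6,7,16,17,18])) (.nd false 11 14 (.pg 0 1 12 [14,2]) (.t3 [11,13,15])))), .t 3 (nat_lit 0x13590006) (.z (.nd false 0 3 (.nd false 0 7 (.fr 2 [7,8,9,10,16,17,18]) (.pg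 4 6 5 [3,15])) (.fr 2 [0,1,2,11,12,13,14]))), .t 3 (nat_lit 0x11e511e4) (.z (.nd false 0 17 (.nd false 1 3 (.nd false 3 10 (.pg 2 10 9 [17]) (.pg 7 8 5 [3,6])) (.t3 [1,4,18])) (.fr 2 [0,11,12,13,14,15,16]))), .t 5 (nat_lit 0x135c11d3135b135a) (.z (.nd false 3 9 (.nd true 12 15 (.fr 2 [0,1,2,9,12,16,17]) (.pg 11 14 18 [15,13])) (.fr 2 [3,4,5,6,7,8,10]))), .t 4 (nat_lit 0x135e135d11f0) (.z (.nd false 0 17 (.nd true 6 7 (.pg 6 8 10 [9,5]) (.pg 4 17 18 [7])) (.fr 3 [0,1,2,3,11,12,13,14,15,16]))), .t 5 (nat_lit 0x136213611360135f) (.z (.nd true 0 4 (.fr 2 [0,5,6,7,8,9,10]) (.nd false 2 13 (.fr 2 [1,13,14,15,16,17,18]) (.pg 11 2 3 [4,12])))), .t 4 (nat_lit 0x123113630074) (.z (.nd false 15 17 (.fr 2 [0,11,12,13,14,16,17]) (.nd true 1 3 (.nd false 6 10 (.pg 2 15 1 [5,10,9]) (.t3 [6,7,8])) (.t3 [3,4,18])))), .t 6 (nat_lit 0x12ab12aa12a912a812a7)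 (.z (.nd false 0 18 (.nd true 1 3 (.nd false 5 10 (.pg 1 6 10 [9,2]) (.t3 [5,7,8])) (.t3 [3,4,18])) (.nd false 0 13 (.pg 13 14 15 [17,16]) (.t3 [0,11,12])))), .t 7 (nat_lit 0x13650b7713640f230c190bec) (.z (.nd false 1 7 (.fr 2 [0,2,6,7,8,9,10]) (.nd true 3 16 (.pg 5 3 17 [18,4]) (.fr 2 [1,11,12,13,14,15,16]))))] (by decide +kernel) (by decide +kernel)
theorem b278 : B 17792 17856 := Blk.of_chk [.t 1 (nat_lit 0) (.z (.nd false 11 14 (.pg 0 12 13 [14]) (.fr 4 [1,2,3,4,5,6,7,8,9,10,11,15,16,17,18]))), .t 3 (nat_lit 0xc350c31) (.z (.nd false 0 13 (.nd false 3 4 (.nd false 4 8 (.pg 2 5 8 [10,9]) (.pg 4 18 7 [6])) (.fr 2 [1,3,13,14,15,16,17])) (.t3 [0,11,12]))), .t 4 (nat_lit 0x13670e3e1366) (.z (.nd true 0 5 (.fr 3 [0,6,7,8,9,10,15,16,17,18]) (.nd true 4 13 (.pg 4 14 12 [11]) (.pg 3 5 2 [1,13])))), .t 2 (nat_lit 0x11be) (.z (.nd true 13 14 (.pg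 0 12 13 [10]) (.fr 4 [1,2,3,4,5,6,7,8,9,11,14,15,16,17,18]))), .t 3 (nat_lit 0x1368020d) (.z (.nd false 0 17 (.nd true 2 3 (.nd false 4 8 (.pg 2 6 8 [10,9]) (.t3 [4,5,7])) (.pg 1 3 18 [17])) (.fr 2 [0,11,12,13,14,15,16]))), .t 9 (nat_lit 0x136c136b0982136a097f13690e410106) (.z (.nd false 0 12 (.nd false 0 16 (.t3 [16,17,18]) (.nd true 2 4 (.nd false 6 8 (.pg 2 5 8 [10,9]) (.t3 [6,7,15])) (.pg 4 3 1 [12,13,14]))) (.t3 [0,11]))), .t 2 (nat_lit 0x11f4) (.z (.nd true 0 7 (.fr 2 [0,8,9,10,16,17,18]) (.nd true 5 7 (.pg 2 1 3 [5,6]) (.fr 2 [4,7,11,12,13,14,15])))), .t 1 (nat_lit 0) (.z (.nd true 4 17 (.fr 2 [4,11,12,13,14,16]) (.nd false 0 1 (.nd true 1 7 (.pg 1 5 8 [10,9,2]) (.t3 [3,6,7])) (.pg 0 15 17 [18])))), .t 5 (nat_lit 0x12290868087e124a) (.z (.nd false 0 17 (.nd true 1 4 (.nd false 1 10 (.pg 2 18 10 [9]) (.pg 1 3 6 [7,8,5])) (.t3 [4,17]))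 (.fr 2 [0,11,12,13,14,15,16]))), .t 3 (nat_lit 0x11eb120f) (.z (.nd false 14 17 (.nd true 0 15 (.pg 0 16 17 [18]) (.pg 11 13 15 [12])) (.nd true 1 3 (.nd false 5 10 (.pg 1 6 10 [9,2]) (.t3 [5,7,8])) (.t3 [3,4,14])))), .t 2 (nat_lit 0x11bc) (.z (.nd true 2 18 (.fr 4 [1,2,3,4,5,6,7,8,10,11,12,13,14,15,17]) (.pg 0 16 18 [9]))), .t 3 (nat_lit 0x136d125e) (.z (.nd true 13 15 (.fr 4 [0,1,2,3,4,5,6,7,8,9,10,13,14,17,18]) (.pg 11 16 15 [12]))), .t 3 (nat_lit 0x4000b) (.z (.nd true 0 6 (.fr 2 [0,7,8,9,10,17,18]) (.nd false 4 6 (.pg 1 3 6 [5,2]) (.fr 2 [4,11,12,13,14,15,16])))), .t 1 (nat_lit 0) (.z (.nd false 9 15 (.fr 4 [1,2,3,4,5,6,7,8,12,13,14,15,16,17,18]) (.pg 0 11 9 [10]))), .t 5 (nat_lit 0x1256125510ac11f0) (.z (.nd false 0 5 (.nd true 6 7 (.pg 6 8 10 [9,5]) (.pg 7 16 17 [18])) (.fr 3 [0,1,2,3,4,11,12,13,14,15]))), .t 1 (nat_lit 0) (.z (.nd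 false 0 1 (.nd true 1 3 (.nd false 6 10 (.pg 1 5 10 [9,2]) (.t3 [6,7,8])) (.t3 [3,4,18])) (.nd false 11 17 (.pg 0 12 13 [16,17]) (.t3 [11,14,15])))), .t 1 (nat_lit 0) (.z (.nd false 0 15 (.fr 2 [8,9,10,15,16,17,18]) (.nd true 0 12 (.nd true 4 7 (.pg 0 2 3 [4,5,6]) (.t3 [7,13,14])) (.t3 [1,11,12])))), .t 1 (nat_lit 0) (.z (.nd false 11 16 (.pg 0 12 13 [16]) (.fr 4 [1,2,3,4,5,6,7,8,9,10,11,14,15,17,18]))), .t 3 (nat_lit 0x11bb087b) (.z (.nd false 3 9 (.nd false 15 17 (.pg 17 2 9 [0,16]) (.fr 2 [1,11,12,13,14,15,18])) (.fr 2 [3,4,5,6,7,8,10]))), .t 3 (nat_lit 0x11d411d3) (.z (.nd false 0 18 (.nd true 1 3 (.nd false 5 10 (.pg 1 6 10 [9,2]) (.t3 [5,7,8])) (.t3 [3,4,18])) (.nd false 11 16 (.pg 0 12 16 [17]) (.pg 11 14 15 [13])))), .t 1 (nat_lit 0) (.z (.nd false 0 17 (.nd true 1 3 (.nd false 6 10 (.pg 1 5 10 [9,2,17]) (.t3 [6,7,8])) (.t3 [3,4,18]))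 (.fr 2 [0,11,12,13,14,15,16]))), .t 4 (nat_lit 0x136f00bc136e) (.z (.nd false 0 4 (.nd false 4 8 (.pg 5 8 10 [9]) (.fr 2 [4,6,7,15,16,17,18])) (.nd false 0 13 (.pg 2 13 14 [1,3]) (.t3 [0,11,12])))), .t 4 (nat_lit 0x41370000b) (.z (.nd false 9 14 (.nd true 1 4 (.nd false 0 7 (.t3 [7,8,10]) (.pg 1 3 6 [5,2,18])) (.t3 [4,14,17])) (.fr 2 [0,9,11,12,13,15,16]))), .t 1 (nat_lit 0) (.z (.nd false 0 18 (.nd true 1 3 (.nd false 6 10 (.pg 1 5 10 [9,2]) (.t3 [6,7,8])) (.t3 [3,4,18])) (.nd false 11 16 (.pg 0 12 13 [16,17]) (.t3 [11,14,15])))), .t 4 (nat_lit 0x925009911f0) (.z (.nd false 4 6 (.nd false 0 5 (.pg 6 8 10 [9,5]) (.nd false 1 11 (.t3 [3,11,14]) (.pg 13 1 2 [0,12]))) (.fr 2 [4,7,15,16,17,18]))), .t 1 (nat_lit 0) (.z (.nd true 4 7 (.nd false 1 4 (.nd false 0 6 (.pg 6 8 10 [9]) (.pg 0 2 3 [4,5])) (.t3 [1,12,13])) (.fr 2 [7,11,14,15,16,17,18]))),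 .t 2 (nat_lit 0x126f) (.z (.nd true 0 13 (.nd true 1 4 (.nd false 1 10 (.fr 2 [0,2,9,10,15,16,17]) (.pg 1 3 5 [7,8,6])) (.t3 [4,14,18])) (.t3 [11,12,13]))), .t 2 (nat_lit 0xadf) (.z (.nd true 0 2 (.nd true 3 10 (.pg 3 5 9 [0,16]) (.fr 2 [4,6,7,8,10,17,18])) (.fr 2 [1,2,11,12,13,14,15]))), .t 5 (nat_lit 0x1373137211f41371) (.z (.nd true 0 13 (.nd true 0 6 (.fr 2 [0,7,8,9,10,17,18]) (.nd false 1 4 (.pg 3 4 16 [6,5,2]) (.t3 [1,14,15]))) (.t3 [11,12,13]))), .t 1 (nat_lit 0) (.z (.nd false 0 7 (.fr 2 [7,8,9,10,17,18]) (.nd false 1 4 (.pg 0 2 3 [4,5,6]) (.fr 2 [1,11,12,13,14,15,16])))), .t 6 (nat_lit 0x136f00bc1374047a1328) (.z (.nd true 1 5 (.nd false 0 8 (.t3 [8,9,10]) (.nd false 0 13 (.pg 1 7 6 [2,13,14]) (.t3 [0,11,12]))) (.fr 2 [3,4,5,15,16,17,18]))), .t 6 (nat_lit 0x13731378137713761375) (.z (.nd true 0 6 (.fr 2 [0,7,8,9,10,17,18]) (.nd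 true 2 4 (.pg 2 15 16 [6,5]) (.fr 2 [1,3,4,11,12,13,14])))), .t 6 (nat_lit 0x1260120f125f125e087b) (.z (.nd false 1 9 (.nd true 0 16 (.pg 0 17 2 [9]) (.pg 11 13 16 [15,12])) (.fr 3 [1,3,4,5,6,7,8,10,14,18]))), .t 5 (nat_lit 0x132a13291328126f) (.z (.nd false 0 8 (.fr 2 [8,9,10,15,16,17,18]) (.nd false 0 13 (.nd false 4 7 (.pg 1 3 5 [7,6,2]) (.t3 [4,13,14])) (.t3 [0,11,12])))), .t 8 (nat_lit 0x709137c137b069a137a13790972) (.z (.nd true 1 13 (.fr 2 [1,14,15,16,17,18]) (.nd true 0 4 (.fr 2 [0,5,6,7,8,9,10]) (.pg 11 13 3 [4,2,12])))), .t 4 (nat_lit 0x411f3000b) (.z (.nd false 9 16 (.nd true 1 4 (.nd false 0 7 (.t3 [7,8,10]) (.pg 1 3 6 [5,2,17])) (.t3 [4,16,18])) (.fr 2 [0,9,11,12,13,14,15]))), .t 3 (nat_lit 0x137e137d) (.z (.nd true 4 7 (.nd false 1 4 (.nd false 0 6 (.pg 6 8 10 [9]) (.pg 0 2 3 [4,5])) (.pg 1 11 12 [14])) (.fr 2 [7,13,15,16,17,18]))),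 .t 1 (nat_lit 0) (.z (.nd false 0 18 (.nd false 1 10 (.pg 2 10 9 [18]) (.fr 2 [1,3,4,5,6,7,8])) (.nd false 11 13 (.pg 0 12 13 [15,16]) (.t3 [11,14,17])))), .t 3 (nat_lit 0x1380137f) (.z (.nd true 11 18 (.fr 4 [0,1,2,3,4,5,6,7,8,9,10,11,12,15,16]) (.pg 13 14 17 [18]))), .t 4 (nat_lit 0x13820b201381) (.z (.nd false 0 15 (.nd true 3 5 (.pg 9 15 16 [3,10]) (.fr 2 [4,5,6,7,8,17,18])) (.fr 2 [0,1,2,11,12,13,14]))), .t 6 (nat_lit 0x13840e4d138311e511e4) (.z (.nd true 0 15 (.nd true 3 4 (.nd true 0 8 (.t3 [0,9,10]) (.pg 7 8 5 [3,6])) (.pg 4 18 17 [16])) (.fr 2 [1,2,11,12,13,14,15]))), .t 6 (nat_lit 0x1277094a138512761275) (.z (.nd false 1 9 (.t3 [0,2,9]) (.nd false 0 3 (.nd true 4 7 (.pg 3 17 4 [5,8,10,6]) (.t3 [7,18])) (.fr 2 [1,11,12,13,14,15,16])))), .t 5 (nat_lit 0x1388088013871386) (.z (.nd true 3 13 (.fr 2 [1,3,14,15,16,17,18]) (.nd false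 0 12 (.nd false 4 8 (.pg 2 6 8 [10,9,12,13]) (.t3 [4,5,7])) (.t3 [0,11])))), .t 2 (nat_lit 0x114d) (.z (.nd false 9 18 (.fr 4 [1,2,3,4,5,6,7,8,11,12,13,14,16,17,18]) (.pg 0 15 9 [10]))), .t 4 (nat_lit 0x820076f0866) (.z (.nd false 0 17 (.nd true 2 3 (.nd false 4 8 (.pg 9 18 2 [5,8,10]) (.t3 [4,6,7])) (.t3 [1,3,17])) (.fr 2 [0,11,12,13,14,15,16]))), .t 2 (nat_lit 6) (.z (.nd false 0 13 (.nd true 4 7 (.nd true 1 5 (.pg 1 8 10 [9,2]) (.pg 3 4 6 [5])) (.fr 2 [7,13,14,15,16,17,18])) (.t3 [0,11,12]))), .t 2 (nat_lit 0x11f4) (.z (.nd true 0 6 (.fr 2 [0,7,8,9,10,17,18]) (.nd false 4 5 (.pg 2 1 3 [5,6]) (.fr 2 [4,11,12,13,14,15,16])))), .t 2 (nat_lit 0x926) (.z (.nd false 11 14 (.nd false 0 4 (.fr 2 [4,5,6,7,8,9,10]) (.pg 0 12 13 [14,2])) (.fr 2 [1,3,11,15,16,17,18]))), .t 5 (nat_lit 0x1389124611f51257) (.z (.nd true 1 7 (.fr 2 [0,1,2,6,8,9,10])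 (.nd false 14 18 (.fr 2 [3,4,5,7,15,16,18]) (.pg 11 17 14 [13,12])))), .t 1 (nat_lit 0) (.z (.nd false 0 12 (.nd true 4 7 (.nd true 2 5 (.pg 2 6 8 [10,9]) (.pg 3 13 4 [5])) (.fr 2 [7,12,14,15,16,17,18])) (.t3 [0,1,11]))), .t 3 (nat_lit 0x11fd11a9) (.z (.nd true 1 13 (.fr 2 [1,11,14,15,16,17,18]) (.nd false 2 9 (.pg 0 12 13 [9]) (.nd true 0 6 (.t3 [7,8,10]) (.pg 2 3 4 [5,6]))))), .t 2 (nat_lit 0x925) (.z (.nd true 9 13 (.fr 4 [1,3,4,5,6,7,8,9,10,11,14,15,16,17,18]) (.pg 0 12 13 [2]))), .t 2 (nat_lit 0x1145) (.z (.nd false 9 13 (.fr 4 [1,2,3,4,5,6,7,8,11,13,14,15,16,17,18]) (.pg 0 12 9 [10]))), .t 4 (nat_lit 0x138b138a0645) (.z (.nd true 1 11 (.pg 1 17 13 [14]) (.fr 4 [0,2,3,4,5,6,7,8,9,10,11,12,15,16,18]))), .t 1 (nat_lit 0) (.z (.nd false 17 18 (.nd false 11 15 (.pg 0 12 13 [15,18]) (.t3 [11,14,16])) (.nd true 1 3 (.nd false 6 10 (.pg 1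 5 10 [9,2]) (.t3 [6,7,8])) (.t3 [3,4,17])))), .t 1 (nat_lit 0) (.z (.nd true 2 13 (.fr 4 [1,2,3,4,5,6,7,8,9,10,11,15,16,17,18]) (.pg 0 12 13 [14]))), .t 2 (nat_lit 0x11cd) (.z (.nd true 9 17 (.fr 4 [1,2,3,4,5,6,7,8,9,11,12,13,14,16,18]) (.pg 0 15 17 [10]))), .t 2 (nat_lit 0x1229) (.z (.nd false 1 11 (.fr 2 [4,11,15,16,17,18]) (.nd false 1 10 (.fr 2 [0,2,9,10,12,13,14]) (.pg 1 3 6 [7,8,5])))), .t 3 (nat_lit 0x125712f5) (.z (.nd true 0 14 (.fr 4 [0,1,2,3,4,5,6,7,8,9,10,15,16,17,18]) (.pg 11 13 14 [12]))), .t 3 (nat_lit 0x4000b) (.z (.nd false 4 16 (.nd true 0 6 (.fr 2 [0,7,8,9,10,16,17]) (.pg 1 3 6 [5,2])) (.fr 2 [4,11,12,13,14,15,18]))), .t 7 (nat_lit 0x11db11d911e011df11eb120f) (.z (.nd true 0 1 (.fr 3 [0,2,3,4,5,6,7,8,9,10]) (.nd true 13 17 (.pg 11 13 15 [12]) (.pg 1 17 16 [14,18])))), .t 2 (nat_lit 0x126f) (.z (.nd false 17 18 (.fr 2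 [0,11,12,13,14,15,18]) (.nd true 1 4 (.nd false 1 10 (.t3 [2,9,10]) (.pg 1 3 5 [7,8,6])) (.t3 [4,16,17])))), .t 3 (nat_lit 0x1b8138c) (.z (.nd false 0 13 (.nd false 4 8 (.nd true 2 3 (.pg 2 6 8 [10,9]) (.pg 1 13 14 [3])) (.fr 2 [4,5,7,15,16,17,18])) (.t3 [0,11,12]))), .t 3 (nat_lit 0x124611f5) (.z (.nd false 11 16 (.fr 4 [0,1,2,3,4,5,6,7,8,9,10,12,15,16,18]) (.pg 11 17 14 [13])))] (by decide +kernel) (by decide +kernel)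
theorem b279 : B 17856 17920 := Blk.of_chk [.t 3 (nat_lit 0x11ac0878) (.z (.nd false 3 9 (.nd false 2 11 (.fr 2 [1,11,13,14,15,17,18]) (.pg 16 2 9 [0,12])) (.fr 2 [3,4,5,6,7,8,10]))), .t 9 (nat_lit 0x12b00e4912af12ae097812ad12ac0b6f) (.z (.nd true 0 13 (.nd true 1 3 (.nd false 0 1 (.nd false 5 10 (.pg 1 6 10 [9,2]) (.t3 [5,7,8])) (.t3 [0,16,18])) (.pg 14 4 3 [17,15])) (.t3 [11,12,13]))), .t 3 (nat_lit 0x11fd11ac) (.z (.nd true 1 16 (.fr 2 [1,11,13,14,15,17,18]) (.nd false 2 9 (.pg 0 12 16 [9]) (.nd true 0 6 (.t3 [7,8,10]) (.pg 2 3 4 [5,6]))))), .t 9 (nat_lit 0x139101091390138f0190138e0278138d) (.z (.nd true 0 4 (.fr 2 [0,5,6,7,8,9,10]) (.nd true 1 14 (.pg 1 13 11 [4,3]) (.fr 2 [2,12,14,15,16,17,18])))), .t 5 (nat_lit 0x139313920e4811f0) (.z (.nd false 0 17 (.nd true 5 7 (.pg 5 8 10 [9,6]) (.t3 [7,17,18])) (.nd false 0 14 (.pg 4 14 16 [15])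 (.fr 2 [0,1,2,3,11,12,13])))), .t 3 (nat_lit 0x13941323) (.z (.nd false 0 16 (.pg 10 16 17 [18]) (.fr 4 [0,1,2,3,4,5,6,7,8,9,11,12,13,14,15]))), .t 3 (nat_lit 0x126e11d4) (.z (.nd false 0 1 (.nd true 1 3 (.nd false 6 10 (.pg 1 5 10 [9,2]) (.t3 [6,7,8])) (.t3 [3,4,18])) (.nd true 12 14 (.pg 0 12 16 [17]) (.pg 11 15 14 [13])))), .t 7 (nat_lit 0x11e8139511fc11e511e411fb) (.z (.nd true 0 15 (.nd true 0 8 (.t3 [0,9,10]) (.nd true 4 17 (.t3 [4,16,18]) (.pg 5 3 17 [6,7,8]))) (.fr 2 [1,2,11,12,13,14,15]))), .t 3 (nat_lit 0x1396135a) (.z (.nd false 13 14 (.fr 4 [0,1,2,3,4,5,6,7,8,9,10,12,14,16,17]) (.pg 11 18 15 [13]))), .t 4 (nat_lit 0x124c124b0926) (.z (.nd false 0 15 (.fr 3 [5,6,7,8,9,10,15,16,17,18]) (.nd false 11 14 (.pg 0 12 13 [14,2]) (.pg 1 11 4 [3])))), .t 6 (nat_lit 0x86c139a139913981397) (.z (.nd false 3 9 (.nd false 2 11 (.nd false 0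 15 (.pg 15 17 1 [18,16]) (.t3 [11,13,14])) (.pg 0 12 2 [9])) (.fr 2 [3,4,5,6,7,8,10]))), .t 2 (nat_lit 0x1229) (.z (.nd false 14 18 (.fr 2 [0,11,12,13,15,16,18]) (.nd true 1 4 (.nd false 1 10 (.t3 [2,9,10]) (.pg 1 3 6 [7,8,5])) (.t3 [4,14,17])))), .t 4 (nat_lit 0x112010e0872) (.z (.nd true 0 13 (.nd true 4 10 (.nd false 1 5 (.pg 2 5 9 [0,14]) (.pg 1 15 4 [3])) (.fr 2 [6,7,8,10,16,17,18])) (.t3 [11,12,13]))), .t 6 (nat_lit 0x125e12ed1260120912bd) (.z (.nd true 0 4 (.fr 2 [0,5,6,7,8,9,10]) (.nd true 1 13 (.t3 [1,14,17]) (.nd false 0 18 (.pg 2 18 3 [4]) (.pg 11 13 15 [16,12]))))), .t 7 (nat_lit 0x139f139e139d139c139b1397) (.z (.nd true 0 1 (.fr 3 [0,2,3,4,5,6,7,8,9,10]) (.nd true 0 13 (.pg 1 18 16 [15,14,17]) (.t3 [11,12,13])))), .t 3 (nat_lit 0x64011fd) (.z (.nd false 6 11 (.fr 3 [7,8,9,10,11,15,16,17,18]) (.nd false 0 2 (.pg 2 3 4 [6,5])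 (.pg 0 12 13 [14,1])))), .t 2 (nat_lit 0x63f) (.z (.nd true 2 13 (.fr 4 [2,3,4,5,6,7,8,9,10,11,14,15,16,17,18]) (.pg 0 12 13 [1]))), .t 5 (nat_lit 0x1208120712061205) (.z (.nd true 0 4 (.fr 2 [0,5,6,7,8,9,10]) (.nd false 3 13 (.fr 2 [4,13,14,15,16,17,18]) (.pg 3 2 1 [11,12])))), .t 2 (nat_lit 0x926) (.z (.nd false 0 5 (.fr 2 [5,6,7,8,9,10,18]) (.nd false 11 14 (.pg 0 12 13 [14,2]) (.fr 2 [1,3,4,11,15,16,17])))), .t 3 (nat_lit 0x124611f5) (.z (.nd false 0 4 (.fr 2 [4,5,6,7,8,9,10]) (.nd false 0 18 (.pg 1 3 2 [18]) (.nd true 12 14 (.pg 0 12 15 [16]) (.pg 11 17 14 [13]))))), .t 2 (nat_lit 0xc72) (.z (.nd true 0 14 (.nd true 5 9 (.pg 4 5 6 [0,15]) (.fr 2 [7,8,9,10,16,17,18])) (.fr 2 [1,2,3,11,12,13,14]))), .t 7 (nat_lit 0x11db11e0135213a011eb120f) (.z (.nd true 0 1 (.fr 3 [0,2,3,4,5,6,7,8,9,10]) (.nd true 11 16 (.pg 11 13 15 [12]) (.pg 1 17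 16 [14,18])))), .t 8 (nat_lit 0x121011d13a313a2135013a10937) (.z (.nd true 0 4 (.fr 2 [0,5,6,7,8,9,10]) (.nd false 1 2 (.nd false 0 14 (.pg 14 16 17 [2,15]) (.t3 [11,12,13])) (.pg 1 18 4 [3])))), .t 1 (nat_lit 0) (.z (.nd false 16 17 (.fr 2 [0,11,12,13,14,15,17]) (.nd true 1 4 (.nd true 1 7 (.pg 1 6 8 [10,9,2]) (.t3 [3,5,7])) (.t3 [4,16,18])))), .t 6 (nat_lit 0x12c312c212d813a412d5) (.z (.nd true 0 4 (.fr 2 [0,5,6,7,8,9,10]) (.nd true 2 18 (.fr 2 [1,2,3,4,14,15,17]) (.pg 11 13 16 [18,12])))), .t 2 (nat_lit 0x126f) (.z (.nd false 16 17 (.fr 2 [0,11,12,13,14,15,17]) (.nd true 1 4 (.nd false 1 10 (.t3 [2,9,10]) (.pg 1 3 5 [7,8,6])) (.t3 [4,16,18])))), .t 2 (nat_lit 0x11ab) (.z (.nd false 3 9 (.nd false 11 15 (.pg 0 12 13 [15,9]) (.fr 2 [1,2,11,14,16,17,18])) (.fr 2 [3,4,5,6,7,8,10]))), .t 5 (nat_lit 0x13a613a5065411fd) (.z (.nd false 9 16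 (.nd false 0 2 (.nd true 0 6 (.t3 [7,8,10]) (.pg 2 3 4 [5,6])) (.pg 1 18 16 [17])) (.fr 2 [0,9,11,12,13,14,15]))), .t 1 (nat_lit 0) (.z (.nd true 0 13 (.nd true 1 4 (.nd false 0 1 (.nd true 1 7 (.pg 1 6 8 [10,9,2]) (.t3 [3,5,7])) (.pg 0 15 16 [17])) (.t3 [4,14,18])) (.t3 [11,12,13]))), .t 4 (nat_lit 0x136f00bc136e) (.z (.nd false 0 4 (.nd false 4 8 (.pg 6 8 10 [9]) (.fr 2 [4,5,7,15,16,17,18])) (.nd false 0 13 (.pg 2 13 14 [1,3]) (.t3 [0,11,12])))), .t 1 (nat_lit 0) (.z (.nd true 0 15 (.nd true 4 7 (.nd false 0 6 (.pg 6 8 10 [9]) (.pg 4 5 0 [3,16])) (.t3 [7,17,18])) (.fr 2 [1,2,11,12,13,14,15]))), .t 4 (nat_lit 0x11fd10c210bf) (.z (.nd false 0 12 (.nd true 4 7 (.nd false 0 8 (.pg 8 18 10 [9]) (.pg 2 3 4 [6,5])) (.fr 2 [7,12,13,14,15,16,17])) (.t3 [0,1,11]))), .t 8 (nat_lit 0x13ab13aa12c913a912cb13a813a7) (.z (.nd true 0 1 (.fr 3 [0,2,3,4,5,6,7,8,9,10])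 (.nd false 14 15 (.pg 11 13 15 [17,12]) (.pg 1 18 16 [14])))), .t 6 (nat_lit 0x86c133c11d313ac12ec) (.z (.nd false 3 9 (.nd false 2 11 (.nd false 0 17 (.t3 [1,17,18]) (.pg 11 14 16 [15,13])) (.pg 0 12 2 [9])) (.fr 2 [3,4,5,6,7,8,10]))), .t 2 (nat_lit 0x712) (.z (.nd false 0 18 (.fr 2 [5,6,7,8,9,10,18]) (.nd false 1 4 (.pg 0 2 3 [4,16]) (.fr 2 [1,11,12,13,14,15,17])))), .t 4 (nat_lit 0x122d13ad0f36) (.z (.nd false 0 8 (.fr 2 [8,9,10,15,16,17,18]) (.nd true 0 12 (.nd true 4 6 (.pg 0 2 3 [4,5]) (.pg 6 13 14 [7])) (.t3 [1,11,12])))), .t 3 (nat_lit 0x11f513ae) (.z (.nd true 12 17 (.fr 4 [0,1,2,3,4,5,6,7,8,9,10,12,15,16,18]) (.pg 11 14 17 [13]))), .t 4 (nat_lit 0xc310ce513af) (.z (.nd false 0 13 (.nd false 3 4 (.nd false 4 8 (.pg 2 5 8 [10,9]) (.pg 4 18 7 [6])) (.fr 2 [1,3,13,14,15,16,17])) (.t3 [0,11,12]))), .t 3 (nat_lit 0x9250099) (.z (.nd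 true 1 4 (.nd false 0 3 (.fr 2 [3,5,6,7,8,9,10]) (.pg 13 1 2 [0,12])) (.fr 2 [4,11,14,15,16,17,18]))), .t 7 (nat_lit 0x125813b012ec11eb11e511e4) (.z (.nd true 0 16 (.nd true 3 4 (.nd true 0 8 (.t3 [0,9,10]) (.pg 7 8 5 [3,6])) (.t3 [4,17,18])) (.nd true 1 15 (.t3 [1,2,14]) (.pg 11 16 15 [13,12])))), .t 1 (nat_lit 0) (.z (.nd true 0 16 (.nd true 7 10 (.pg 0 5 6 [7,8,9]) (.t3 [10,17,18])) (.fr 3 [1,2,3,4,11,12,13,14,15,16]))), .t 3 (nat_lit 0x11bb087b) (.z (.nd false 3 9 (.nd false 12 17 (.pg 17 2 9 [0,16]) (.fr 2 [1,11,12,13,14,15,18])) (.fr 2 [3,4,5,6,7,8,10]))), .t 1 (nat_lit 0) (.z (.nd false 1 11 (.fr 2 [4,11,15,16,17,18]) (.nd false 0 1 (.nd true 1 7 (.pg 1 5 8 [10,9,2]) (.t3 [3,6,7])) (.pg 0 12 13 [14])))), .t 6 (nat_lit 0x11fd13b413b313b213b1) (.z (.nd true 1 12 (.nd false 0 15 (.pg 15 18 1 [17,16]) (.t3 [11,13,14])) (.nd false 2 9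 (.t3 [0,9,12]) (.nd true 0 6 (.t3 [7,8,10]) (.pg 2 3 4 [5,6]))))), .t 2 (nat_lit 0x11f0) (.z (.nd false 0 4 (.nd false 4 5 (.pg 5 8 10 [9,6]) (.fr 2 [4,7,14,15,16,17,18])) (.fr 2 [0,1,2,3,11,12,13]))), .t 4 (nat_lit 0x127a000611a9) (.z (.nd false 3 9 (.nd false 11 13 (.pg 0 12 13 [9]) (.fr 2 [1,2,11,14,15,16,18])) (.nd false 0 7 (.t3 [7,8,10]) (.pg 4 6 5 [3,17])))), .t 1 (nat_lit 0) (.z (.nd false 9 16 (.fr 4 [1,2,3,4,5,6,7,8,12,13,14,15,16,17,18]) (.pg 0 11 9 [10]))), .t 5 (nat_lit 0x11ea11e9099012b3) (.z (.nd true 0 4 (.nd true 6 10 (.pg 0 5 6 [9]) (.fr 2 [7,8,10,15,16,17,18])) (.nd false 2 13 (.pg 3 13 14 [4]) (.pg 1 11 12 [2])))), .t 1 (nat_lit 0) (.z (.nd false 17 18 (.nd false 11 15 (.pg 0 12 13 [15,18]) (.t3 [11,14,16])) (.nd true 1 3 (.nd false 5 10 (.pg 1 6 10 [9,2]) (.t3 [5,7,8])) (.t3 [3,4,17])))), .t 1 (nat_lit 0) (.z (.nd false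 16 17 (.fr 2 [0,11,12,13,14,15,17]) (.nd true 1 4 (.nd true 1 7 (.pg 1 5 8 [10,9,2]) (.t3 [3,6,7])) (.t3 [4,16,18])))), .t 1 (nat_lit 0) (.z (.nd false 0 6 (.fr 2 [6,7,8,9,10,17,18]) (.nd false 1 4 (.pg 0 2 3 [4,5]) (.fr 2 [1,11,12,13,14,15,16])))), .t 7 (nat_lit 0x139e13b6121113b5120a1209) (.z (.nd true 0 1 (.fr 3 [0,2,3,4,5,6,7,8,9,10]) (.nd true 13 18 (.pg 11 13 16 [12]) (.pg 14 17 1 [18,15])))), .t 5 (nat_lit 0x1212ce126e11d4) (.z (.nd false 0 4 (.fr 2 [4,5,6,7,8,9,10]) (.nd true 0 15 (.pg 0 16 17 [18]) (.nd false 3 11 (.pg 11 15 14 [13]) (.pg 1 12 3 [2]))))), .t 3 (nat_lit 0x126e11d4) (.z (.nd false 0 18 (.nd true 1 3 (.nd false 5 10 (.pg 1 6 10 [9,2]) (.t3 [5,7,8])) (.t3 [3,4,18])) (.nd true 12 14 (.pg 0 12 16 [17]) (.pg 11 15 14 [13])))), .t 1 (nat_lit 0) (.z (.nd false 0 1 (.nd true 1 3 (.nd false 6 10 (.pg 1 5 10 [9,2]) (.t3 [6,7,8]))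 (.t3 [3,4,18])) (.nd false 11 15 (.pg 0 12 13 [15,16]) (.t3 [11,14,17])))), .t 3 (nat_lit 0x12e312e2) (.z (.nd false 0 18 (.nd true 1 3 (.nd false 5 10 (.pg 1 6 10 [9,2]) (.t3 [5,7,8])) (.t3 [3,4,18])) (.nd false 11 14 (.pg 0 12 13 [14]) (.pg 11 15 17 [16])))), .t 2 (nat_lit 0x11a9) (.z (.nd false 9 11 (.fr 4 [1,2,3,4,5,6,7,8,10,11,14,15,16,17,18]) (.pg 0 12 13 [9]))), .t 6 (nat_lit 0x13b711dc130512fe127c) (.z (.nd false 0 12 (.nd false 3 4 (.nd false 4 8 (.pg 2 5 8 [10,9]) (.t3 [4,6,7])) (.nd false 0 14 (.pg 14 15 18 [17,16]) (.t3 [3,12,13]))) (.t3 [0,1,11]))), .t 3 (nat_lit 0x11eb120f) (.z (.nd false 14 18 (.nd true 0 15 (.pg 0 16 17 [18]) (.pg 11 13 15 [12])) (.nd true 1 3 (.nd false 6 10 (.pg 1 5 10 [9,2]) (.t3 [6,7,8])) (.t3 [3,4,14])))), .t 7 (nat_lit 0x13b913b812131210125e12ed) (.z (.nd true 0 1 (.fr 3 [0,2,3,4,5,6,7,8,9,10]) (.nd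 true 11 18 (.pg 11 15 16 [12]) (.pg 1 18 13 [14,17])))), .t 5 (nat_lit 0x13bc120913bb13ba) (.z (.nd true 0 4 (.fr 2 [0,5,6,7,8,9,10]) (.nd true 13 18 (.pg 11 13 17 [16,12]) (.fr 2 [1,2,3,4,14,15,18])))), .t 3 (nat_lit 0x11fd11ae) (.z (.nd true 1 17 (.fr 2 [1,11,13,14,15,16]) (.nd false 2 9 (.pg 0 12 17 [18,9]) (.nd true 0 6 (.t3 [7,8,10]) (.pg 2 3 4 [6,5]))))), .t 3 (nat_lit 0xe4811f0) (.z (.nd true 0 14 (.nd false 0 17 (.nd true 5 7 (.pg 5 8 10 [9,6]) (.t3 [7,17,18])) (.pg 0 4 15 [16])) (.fr 2 [1,2,3,11,12,13,14]))), .t 3 (nat_lit 0xc341290) (.z (.nd false 0 12 (.nd true 5 7 (.pg 2 5 8 [10,9]) (.nd false 0 18 (.pg 4 18 7 [6]) (.fr 2 [3,12,13,14,15,16,17]))) (.t3 [0,1,11])))] (by decide +kernel) (by decide +kernel)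
theorem b280 : B 17920 17984 := Blk.of_chk [.t 7 (nat_lit 0x128a13c013bf13be13bd00a1) (.z (.nd false 0 4 (.fr 2 [4,5,6,7,8,9,10]) (.nd false 1 11 (.t3 [3,11,18]) (.nd true 0 16 (.pg 0 17 1 [2]) (.pg 12 13 14 [16,15]))))), .t 3 (nat_lit 0x11fd11ae) (.z (.nd true 1 18 (.fr 2 [1,11,13,14,15,16,17]) (.nd false 2 9 (.pg 0 12 18 [9]) (.nd true 0 6 (.t3 [7,8,10]) (.pg 2 3 4 [6,5]))))), .t 3 (nat_lit 0x13c213c1) (.z (.nd false 0 3 (.nd false 0 16 (.fr 2 [7,8,9,10,16,17,18]) (.pg 3 4 15 [6,5])) (.fr 2 [0,1,2,11,12,13,14]))), .t 2 (nat_lit 0x126f) (.z (.nd false 14 17 (.fr 2 [0,11,12,13,15,16,17]) (.nd true 1 4 (.nd false 1 10 (.t3 [2,9,10]) (.pg 1 3 5 [7,8,6])) (.t3 [4,14,18])))), .t 4 (nat_lit 0x13c413c307f2) (.z (.nd true 2 6 (.nd false 0 8 (.t3 [8,9,10]) (.pg 2 5 7 [0,12])) (.nd false 3 13 (.fr 2 [1,13,14,15,16,17,18]) (.pg 3 4 6 [11])))), .t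 6 (nat_lit 0x125e12ed1260120912bd) (.z (.nd true 0 4 (.fr 2 [0,5,6,7,8,9,10]) (.nd true 13 18 (.pg 11 13 15 [16,12]) (.fr 2 [1,2,3,4,14,17,18])))), .t 5 (nat_lit 0x1373137211f41371) (.z (.nd true 0 6 (.fr 2 [0,7,8,9,10,18]) (.nd false 1 4 (.pg 3 4 16 [6,5,2]) (.fr 2 [1,11,12,13,14,15,17])))), .t 3 (nat_lit 0x124611f5) (.z (.nd false 0 4 (.fr 2 [4,5,6,7,8,9,10]) (.nd false 0 18 (.pg 1 3 2 [18]) (.nd false 11 16 (.pg 0 12 15 [16]) (.pg 11 17 14 [13]))))), .t 3 (nat_lit 0x93411f0) (.z (.nd false 0 5 (.nd true 5 7 (.pg 5 8 10 [9,6]) (.t3 [7,17,18])) (.nd true 2 4 (.pg 0 2 15 [16]) (.fr 2 [1,3,4,11,12,13,14])))), .t 5 (nat_lit 0x13c613c513841383) (.z (.nd true 0 4 (.fr 2 [0,5,6,7,8,9,10]) (.nd false 0 15 (.pg 4 18 17 [16,15]) (.fr 2 [1,2,3,11,12,13,14])))), .t 2 (nat_lit 0x1162) (.z (.nd true 2 18 (.fr 4 [1,2,3,4,5,6,7,8,11,12,13,14,15,16,17])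 (.pg 0 18 9 [10]))), .t 1 (nat_lit 0) (.z (.nd true 0 3 (.nd false 4 18 (.nd true 7 10 (.pg 0 5 6 [7,8,9]) (.t3 [10,16,18])) (.t3 [4,15,17])) (.fr 2 [1,2,3,11,12,13,14]))), .t 3 (nat_lit 0x12021201) (.z (.nd true 14 17 (.fr 4 [0,1,2,3,4,5,6,7,8,9,10,11,12,13,14]) (.pg 15 18 17 [16]))), .t 1 (nat_lit 0) (.z (.nd false 1 16 (.nd false 0 6 (.fr 2 [6,7,8,9,10,16,18]) (.pg 0 2 3 [4,5])) (.fr 2 [1,11,12,13,14,15,17]))), .t 3 (nat_lit 0x11e511e4) (.z (.nd false 1 3 (.nd false 3 10 (.fr 2 [0,2,9,10,11,12,13]) (.pg 7 8 5 [3,6])) (.fr 2 [1,4,14,15,16,17,18]))), .t 9 (nat_lit 0x13ca1302129313c906cf13c80b7713c7) (.z (.nd false 0 4 (.fr 2 [4,5,6,7,8,9,10]) (.nd false 0 16 (.pg 3 2 1 [16,17,18]) (.fr 2 [0,11,12,13,14,15])))), .t 7 (nat_lit 0x13ce13cd13cc13cb11eb120f) (.z (.nd true 0 1 (.fr 3 [0,2,3,4,5,6,7,8,9,10]) (.nd true 13 17 (.pg 11 13 15 [12])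 (.pg 1 18 17 [14,16])))), .t 6 (nat_lit 0x12541253125212511250) (.z (.nd false 0 4 (.fr 2 [4,5,6,7,8,9,10]) (.nd false 0 13 (.nd false 1 16 (.pg 13 14 18 [16,15]) (.pg 1 3 2 [17])) (.t3 [0,11,12])))), .t 7 (nat_lit 0x125e12ed1260120912bd00a1) (.z (.nd false 0 4 (.fr 2 [4,5,6,7,8,9,10]) (.nd true 1 3 (.nd true 0 16 (.pg 0 17 1 [2]) (.pg 11 13 15 [16,12])) (.t3 [3,14,18])))), .t 4 (nat_lit 0x129b129a1229) (.z (.nd true 2 7 (.fr 2 [0,2,8,9,10,17,18]) (.nd false 4 7 (.pg 1 3 6 [7,5]) (.fr 2 [4,11,12,13,14,15,16])))), .t 5 (nat_lit 0x11ea11e911e511e4) (.z (.nd true 4 11 (.fr 2 [4,13,14,15,16,17,18]) (.nd true 0 2 (.nd true 0 8 (.t3 [0,9,10]) (.pg 7 8 5 [3,6])) (.pg 1 11 12 [2])))), .t 6 (nat_lit 0x9af066e13d013cf134e) (.z (.nd true 0 4 (.fr 2 [0,5,6,7,8,9,10]) (.nd true 1 15 (.fr 2 [1,11,12,13,14,17,18]) (.pg 15 2 3 [4,16])))), .t 2 (nat_lit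 0x1229) (.z (.nd true 0 13 (.nd true 1 4 (.nd false 1 10 (.fr 2 [0,2,9,10,15,16,17]) (.pg 1 3 6 [7,8,5])) (.t3 [4,14,18])) (.t3 [11,12,13]))), .t 2 (nat_lit 0x126f) (.z (.nd false 16 18 (.fr 2 [0,11,12,13,14,15,18]) (.nd true 1 4 (.nd false 1 10 (.t3 [2,9,10]) (.pg 1 3 5 [7,8,6])) (.t3 [4,16,17])))), .t 3 (nat_lit 0x13d113b6) (.z (.nd true 13 18 (.fr 4 [0,1,2,3,4,5,6,7,8,9,10,11,12,13,16]) (.pg 14 17 18 [15]))), .t 2 (nat_lit 0xe76) (.z (.nd false 0 8 (.fr 2 [8,9,10,15,16,17,18]) (.nd true 0 4 (.pg 0 5 6 [7,14]) (.fr 2 [1,2,3,4,11,12,13])))), .t 5 (nat_lit 0x11eb120f11bc087e) (.z (.nd false 3 9 (.nd true 1 13 (.t3 [1,14,17]) (.nd true 0 15 (.pg 18 2 9 [0,16]) (.pg 11 13 15 [12]))) (.fr 2 [3,4,5,6,7,8,10]))), .t 11 (nat_lit 0x13db13da13d913d813d713d613d513d413d313d2) (.z (.nd true 0 3 (.nd true 0 8 (.t3 [0,9,10]) (.nd true 4 18 (.t3 [4,15,16])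 (.pg 5 7 8 [6,17,18]))) (.fr 2 [1,2,3,11,12,13,14]))), .t 4 (nat_lit 0x11f413700004) (.z (.nd false 9 14 (.nd true 1 4 (.nd false 0 7 (.t3 [7,8,10]) (.pg 1 3 5 [6,2,18])) (.t3 [4,14,17])) (.fr 2 [0,9,11,12,13,15,16]))), .t 4 (nat_lit 0x11fd13dc11f4) (.z (.nd false 14 18 (.nd false 2 9 (.fr 2 [0,9,11,12,13,15,16]) (.nd false 0 7 (.t3 [7,8,10]) (.pg 3 4 6 [5,2,18]))) (.t3 [1,14,17]))), .t 1 (nat_lit 0) (.z (.nd false 6 9 (.nd true 3 4 (.pg 0 2 3 [5,9]) (.fr 2 [1,4,11,12,13,14,15])) (.fr 2 [6,7,8,10,16,17,18]))), .t 1 (nat_lit 0) (.z (.nd false 0 4 (.fr 2 [4,5,6,7,8,9,10]) (.nd false 0 18 (.pg 1 3 2 [18]) (.nd false 11 16 (.pg 0 12 13 [14,16]) (.t3 [11,15,17]))))), .t 1 (nat_lit 0) (.z (.nd false 17 18 (.nd true 0 13 (.pg 0 14 15 [16,18]) (.t3 [11,12,13])) (.nd true 1 3 (.nd false 6 10 (.pg 1 5 10 [9,2]) (.t3 [6,7,8])) (.t3 [3,4,17])))), .t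 8 (nat_lit 0x13e0099e13df129113de13dd1310) (.z (.nd true 0 13 (.nd true 0 4 (.fr 2 [0,5,6,7,8,9,10]) (.nd true 1 15 (.t3 [1,17,18]) (.pg 3 4 2 [16,14,15]))) (.t3 [11,12,13]))), .t 2 (nat_lit 0x114f) (.z (.nd false 9 15 (.fr 4 [1,2,3,4,5,6,7,8,11,12,13,14,15,17,18]) (.pg 0 16 9 [10]))), .t 5 (nat_lit 0x126e11d40868124a) (.z (.nd false 0 18 (.nd false 1 10 (.pg 2 18 10 [9]) (.fr 2 [1,3,4,5,6,7,8])) (.nd true 12 15 (.pg 0 12 16 [17]) (.pg 11 15 14 [13])))), .t 3 (nat_lit 0x126e11d4) (.z (.nd false 13 17 (.fr 4 [0,1,2,3,4,5,6,7,8,9,10,12,16,17,18]) (.pg 11 15 14 [13]))), .t 3 (nat_lit 0x13e213e1) (.z (.nd false 0 12 (.nd true 5 7 (.pg 2 5 8 [10,9]) (.nd false 0 15 (.fr 2 [4,6,7,15,16,17,18]) (.pg 3 12 13 [14]))) (.t3 [0,1,11]))), .t 6 (nat_lit 0x13e3138d099001091390) (.z (.nd true 0 4 (.nd false 0 8 (.fr 2 [8,9,10,15,16,17,18]) (.pg 0 5 6 [7]))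 (.nd false 2 13 (.pg 4 3 1 [13,14]) (.t3 [2,11,12])))), .t 4 (nat_lit 0x134b11d1134a) (.z (.nd true 0 5 (.nd true 7 10 (.pg 0 6 7 [8,9]) (.pg 10 18 17 [16])) (.fr 3 [1,2,3,4,5,11,12,13,14,15]))), .t 1 (nat_lit 0) (.z (.nd false 0 4 (.fr 2 [4,5,6,7,8,9,10]) (.nd false 0 18 (.pg 1 3 2 [18]) (.nd true 12 14 (.pg 0 12 15 [16,17]) (.t3 [11,13,14]))))), .t 10 (nat_lit 0x13e913e813e7120912c213e613e513bc13e4) (.z (.nd true 0 1 (.fr 3 [0,2,3,4,5,6,7,8,9,10]) (.nd true 1 16 (.t3 [1,14,15]) (.pg 11 13 16 [17,18,12])))), .t 4 (nat_lit 0x122d13ad0f36) (.z (.nd false 0 15 (.fr 2 [8,9,10,15,16,17,18]) (.nd true 0 12 (.nd true 4 6 (.pg 0 2 3 [4,5]) (.pg 6 13 14 [7])) (.t3 [1,11,12])))), .t 3 (nat_lit 0xe4813ea) (.z (.nd true 0 3 (.nd false 0 5 (.nd true 7 10 (.pg 5 7 8 [9,6]) (.t3 [10,17,18])) (.pg 0 4 15 [16])) (.fr 2 [1,2,3,11,12,13,14]))), .t 9 (nat_lit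 0xf813ed13ec13eb093800ff00a31370) (.z (.nd false 11 14 (.nd false 0 4 (.fr 2 [4,5,6,7,8,9,10]) (.nd false 0 15 (.pg 2 15 16 [18,1,3]) (.pg 0 12 13 [14]))) (.t3 [11,17]))), .t 8 (nat_lit 0x13ab13aa12c913a912cb13a813a7) (.z (.nd true 0 1 (.fr 3 [0,2,3,4,5,6,7,8,9,10]) (.nd false 14 17 (.pg 11 13 15 [17,12]) (.pg 1 18 16 [14])))), .t 1 (nat_lit 0) (.z (.nd true 0 3 (.nd false 4 16 (.nd false 0 10 (.t3 [10,16,17]) (.pg 0 5 6 [7,8,9])) (.t3 [4,15,18])) (.fr 2 [1,2,3,11,12,13,14]))), .t 4 (nat_lit 0x13ef13ee0bed) (.z (.nd true 0 12 (.nd true 5 10 (.nd true 3 5 (.pg 0 2 3 [6,9]) (.pg 4 5 14 [13])) (.fr 2 [7,8,10,15,16,17,18])) (.t3 [1,11,12]))), .t 1 (nat_lit 0) (.z (.nd false 17 18 (.nd true 13 16 (.pg 0 12 13 [15,18]) (.t3 [11,14,16])) (.nd true 1 3 (.nd false 5 10 (.pg 1 6 10 [9,2]) (.t3 [5,7,8])) (.t3 [3,4,17])))), .t 1 (nat_lit 0) (.z (.nd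 false 0 4 (.fr 2 [4,5,6,7,8,9,10]) (.nd false 11 15 (.pg 0 12 13 [14,15]) (.fr 2 [1,2,3,11,16,17,18])))), .t 11 (nat_lit 0x11e511e413f413f313f213f1115613f011c30858) (.z (.nd false 1 10 (.nd false 0 12 (.pg 10 9 2 [12,13,14]) (.t3 [0,11])) (.nd false 1 3 (.pg 7 8 5 [3,6]) (.fr 2 [1,4,15,16,17,18])))), .t 4 (nat_lit 0x13f6110a13f5) (.z (.nd false 0 17 (.nd false 2 8 (.pg 9 17 18 [8,10]) (.fr 2 [1,2,3,4,5,6,7])) (.fr 2 [0,11,12,13,14,15,16]))), .t 1 (nat_lit 0) (.z (.nd false 0 4 (.fr 2 [4,5,6,7,8,9,10]) (.nd false 11 15 (.pg 0 12 13 [15,16]) (.fr 2 [1,2,3,11,14,17,18])))), .t 4 (nat_lit 0x13cd065713cb) (.z (.nd false 3 17 (.pg 1 18 17 [14]) (.fr 4 [0,2,3,4,5,6,7,8,9,10,11,12,13,15,16]))), .t 7 (nat_lit 0x125811f211f1125711ef11ee) (.z (.nd true 0 16 (.nd true 3 4 (.nd true 0 8 (.t3 [0,9,10]) (.pg 7 8 6 [3,5])) (.t3 [4,17,18])) (.nd true 1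 13 (.t3 [1,2,15]) (.pg 11 16 14 [13,12])))), .t 1 (nat_lit 0) (.z (.nd false 0 18 (.nd false 1 10 (.pg 2 10 9 [18]) (.fr 2 [1,3,4,5,6,7,8])) (.nd false 11 17 (.pg 0 12 13 [15,17]) (.t3 [11,14,16])))), .t 3 (nat_lit 0xb7411f0) (.z (.nd false 0 4 (.nd true 5 7 (.pg 5 8 10 [9,6]) (.t3 [4,7,18])) (.nd true 0 15 (.pg 0 16 17 [3]) (.fr 2 [1,2,11,12,13,14,15])))), .t 2 (nat_lit 0x96) (.z (.nd false 1 11 (.fr 4 [3,4,5,6,7,8,9,10,11,13,14,15,16,17,18]) (.pg 0 12 1 [2]))), .t 7 (nat_lit 0x13fa13f913f8109f109d13f7) (.z (.nd false 0 15 (.fr 2 [8,9,10,15,16,17,18]) (.nd true 4 7 (.fr 2 [0,1,2,3,4,5,6]) (.pg 7 14 13 [12,11])))), .t 9 (nat_lit 0x8a113fd13fc13fb11b508b708781298) (.z (.nd false 0 13 (.nd false 1 10 (.nd false 2 15 (.t3 [15,17,18]) (.pg 9 13 14 [16,2,10])) (.fr 2 [1,3,4,5,6,7,8])) (.t3 [0,11,12]))), .t 2 (nat_lit 0x11f0) (.z (.nd false 0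 14 (.nd false 4 6 (.pg 6 8 10 [9,5]) (.fr 2 [4,7,14,15,16,17,18])) (.fr 2 [0,1,2,3,11,12,13]))), .t 1 (nat_lit 0) (.z (.nd false 0 4 (.fr 2 [4,5,6,7,8,9,10]) (.nd false 1 11 (.t3 [3,11,18]) (.nd false 0 17 (.t3 [1,2,17]) (.pg 0 12 13 [14,15,16]))))), .t 3 (nat_lit 0x1111aa) (.z (.nd true 1 10 (.nd false 11 14 (.pg 0 12 13 [14,9]) (.t3 [1,2,11])) (.nd true 4 7 (.pg 3 4 6 [8,10,5]) (.fr 2 [7,15,16,17,18])))), .t 2 (nat_lit 0x11f4) (.z (.nd true 0 6 (.fr 2 [0,7,8,9,10,17,18]) (.nd true 3 16 (.pg 2 1 3 [5,6]) (.fr 2 [4,11,12,13,14,15,16]))))] (by decide +kernel) (by decide +kernel)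
theorem b281 : B 17984 18048 := Blk.of_chk [.t 2 (nat_lit 0x63f) (.z (.nd false 0 15 (.nd true 6 7 (.pg 6 8 10 [9]) (.fr 2 [4,5,7,15,16,17,18])) (.nd false 11 13 (.pg 0 1 12 [13,2]) (.t3 [3,11,14])))), .t 3 (nat_lit 0x11f411aa) (.z (.nd false 1 13 (.fr 2 [4,11,13,15,16,17,18]) (.nd false 2 9 (.pg 0 12 14 [9]) (.nd true 0 6 (.t3 [7,8,10]) (.pg 2 1 3 [5,6]))))), .t 1 (nat_lit 0) (.z (.nd false 0 1 (.nd true 1 3 (.nd false 6 10 (.pg 1 5 10 [9,2]) (.t3 [6,7,8])) (.t3 [3,4,18])) (.nd false 11 14 (.pg 0 12 13 [14,17]) (.t3 [11,15,16])))), .t 7 (nat_lit 0x11ea11e912a412a311ef11ee) (.z (.nd true 0 16 (.nd true 3 4 (.nd true 0 8 (.t3 [0,9,10]) (.pg 7 8 6 [3,5])) (.t3 [4,17,18])) (.nd false 2 14 (.pg 13 16 15 [14]) (.pg 1 11 12 [2])))), .t 1 (nat_lit 0) (.z (.nd false 13 15 (.pg 0 11 12 [15]) (.fr 4 [1,2,3,4,5,6,7,8,9,10,13,14,16,17,18]))), .t 5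 (nat_lit 0x13ff065713fe11fd) (.z (.nd false 9 17 (.nd false 0 2 (.nd true 0 6 (.t3 [7,8,10]) (.pg 2 3 4 [5,6])) (.pg 1 18 17 [15])) (.fr 2 [0,9,11,12,13,14,16]))), .t 3 (nat_lit 0x9250099) (.z (.nd true 4 13 (.fr 2 [4,11,14,15,16,17,18]) (.nd false 0 3 (.fr 2 [3,5,6,7,8,9,10]) (.pg 13 1 2 [0,12])))), .t 4 (nat_lit 0x1401064b1400) (.z (.nd true 12 17 (.fr 4 [0,2,3,4,5,6,7,8,9,10,12,14,15,16,18]) (.pg 1 17 13 [11]))), .t 3 (nat_lit 0x14031402) (.z (.nd true 0 15 (.nd true 4 7 (.nd false 0 6 (.pg 6 8 10 [9]) (.pg 0 3 4 [5])) (.pg 7 16 17 [18])) (.fr 2 [1,2,11,12,13,14,15]))), .t 8 (nat_lit 0x140513b513ba140413bc13a813e4) (.z (.nd true 0 1 (.fr 3 [0,2,3,4,5,6,7,8,9,10]) (.nd false 14 17 (.pg 11 13 16 [17,12]) (.pg 1 18 15 [14])))), .t 1 (nat_lit 0) (.z (.nd true 0 13 (.nd true 1 4 (.nd false 0 1 (.nd true 1 7 (.pg 1 5 8 [10,9,2]) (.t3 [3,6,7]))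 (.pg 0 15 16 [17])) (.t3 [4,14,18])) (.t3 [11,12,13]))), .t 8 (nat_lit 0x140b140a140914080e5914071406) (.z (.nd false 2 10 (.t3 [0,9,10]) (.nd false 0 15 (.nd true 4 17 (.t3 [4,16,18]) (.pg 5 7 8 [6,15,17])) (.fr 2 [1,2,3,11,12,13,14])))), .t 3 (nat_lit 0x12a9125b) (.z (.nd true 16 17 (.fr 4 [0,1,2,3,4,5,6,7,8,9,10,11,12,16,18]) (.pg 13 14 17 [15]))), .t 5 (nat_lit 0x11eb120f093700a1) (.z (.nd false 0 4 (.fr 2 [4,5,6,7,8,9,10]) (.nd true 1 3 (.nd true 0 15 (.pg 17 1 2 [0,16]) (.pg 11 13 15 [12])) (.t3 [3,14,18])))), .t 3 (nat_lit 0x4000b) (.z (.nd false 4 17 (.nd true 0 6 (.fr 2 [0,7,8,9,10,17,18]) (.pg 1 3 6 [5,2])) (.fr 2 [4,11,12,13,14,15,16]))), .t 10 (nat_lit 0x13340e58140d0e4b140c12040e4c11ef11ee) (.z (.nd true 0 2 (.nd false 4 7 (.nd true 0 8 (.t3 [0,9,10]) (.pg 7 8 6 [3,5])) (.pg 4 15 17 [18,16])) (.fr 2 [1,2,11,12,13,14]))), .t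 2 (nat_lit 0x926) (.z (.nd false 13 14 (.pg 0 12 14 [2]) (.fr 4 [1,3,4,5,6,7,8,9,10,11,13,15,16,17,18]))), .t 3 (nat_lit 0x11e511e4) (.z (.nd true 1 13 (.fr 2 [1,4,11,15,16,17,18]) (.nd false 0 2 (.nd true 2 8 (.t3 [2,9,10]) (.pg 7 8 5 [3,6])) (.pg 0 12 13 [14])))), .t 1 (nat_lit 0) (.z (.nd false 15 18 (.fr 2 [0,11,12,13,14,16,18]) (.nd true 1 4 (.nd true 1 7 (.pg 1 5 8 [10,9,2]) (.t3 [3,6,7])) (.t3 [4,15,17])))), .t 2 (nat_lit 0x11f0) (.z (.nd false 0 17 (.nd true 3 9 (.pg 1 3 2 [17]) (.nd true 6 7 (.pg 6 8 10 [9,5]) (.t3 [4,7,18]))) (.fr 2 [0,11,12,13,14,15,16]))), .t 5 (nat_lit 0x13bc120913bb13ba) (.z (.nd true 0 4 (.fr 2 [0,5,6,7,8,9,10]) (.nd true 2 13 (.fr 2 [1,2,3,4,14,15,18]) (.pg 11 13 17 [16,12])))), .t 6 (nat_lit 0x136f00bc1374047a1299) (.z (.nd true 1 6 (.nd false 0 8 (.t3 [8,9,10]) (.nd false 0 13 (.pg 1 7 5 [2,13,14]) (.t3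 [0,11,12]))) (.fr 2 [3,4,6,15,16,17,18]))), .t 1 (nat_lit 0) (.z (.nd true 9 18 (.fr 4 [1,2,3,4,5,6,7,8,9,10,11,14,15,16,17]) (.pg 0 12 13 [18]))), .t 1 (nat_lit 0) (.z (.nd false 0 1 (.nd true 1 3 (.nd false 5 10 (.pg 1 6 10 [9,2]) (.t3 [5,7,8])) (.t3 [3,4,18])) (.nd false 11 15 (.pg 0 12 13 [14,15]) (.t3 [11,16,17])))), .t 1 (nat_lit 0) (.z (.nd false 0 6 (.fr 2 [6,7,8,9,10,17,18]) (.nd true 2 16 (.pg 0 2 3 [4,5]) (.fr 2 [1,11,12,13,14,15,16])))), .t 5 (nat_lit 0x129b129a12991229) (.z (.nd false 0 15 (.fr 2 [8,9,10,15,16,17,18]) (.nd false 0 13 (.nd true 1 4 (.pg 1 3 6 [7,5,2]) (.t3 [4,13,14])) (.t3 [0,11,12])))), .t 3 (nat_lit 0x11d411d3) (.z (.nd false 13 17 (.fr 4 [0,1,2,3,4,5,6,7,8,9,10,12,16,17,18]) (.pg 11 14 15 [13]))), .t 13 (nat_lit 0x14161415141414131412141109af09b61410140f0675140e) (.z (.nd true 0 13 (.nd true 0 4 (.fr 2 [0,5,6,7,8,9,10])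 (.nd true 1 18 (.t3 [1,14,17]) (.pg 3 4 16 [15,18,2]))) (.t3 [11,12,13]))), .t 7 (nat_lit 0x11db13ce11e0120b11eb120f) (.z (.nd true 0 1 (.fr 3 [0,2,3,4,5,6,7,8,9,10]) (.nd true 11 17 (.pg 11 13 15 [12]) (.pg 1 17 16 [14,18])))), .t 6 (nat_lit 0x11d5125b141712a811d7) (.z (.nd false 0 18 (.nd true 1 3 (.nd false 5 10 (.pg 1 6 10 [9,2]) (.t3 [5,7,8])) (.t3 [3,4,18])) (.nd false 0 13 (.pg 13 14 17 [16,15]) (.t3 [0,11,12])))), .t 1 (nat_lit 0) (.z (.nd false 0 2 (.nd false 3 8 (.pg 2 6 8 [10,9]) (.fr 2 [3,4,5,7,16,17,18])) (.fr 2 [0,1,11,12,13,14,15]))), .t 6 (nat_lit 0x12f200a6141812f00099) (.z (.nd true 0 15 (.fr 2 [0,8,9,10,16,17,18]) (.nd false 1 11 (.fr 2 [3,4,6,7,11,14,15]) (.pg 2 12 13 [1,5])))), .t 3 (nat_lit 0x141a1419) (.z (.nd false 0 12 (.nd true 2 7 (.pg 2 6 8 [10,9]) (.nd false 0 18 (.pg 4 18 7 [5]) (.fr 2 [3,12,13,14,15,16,17])))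 (.t3 [0,1,11]))), .t 1 (nat_lit 0) (.z (.nd false 0 1 (.nd true 3 8 (.pg 3 5 10 [9,2,1,16]) (.fr 2 [4,6,7,8,17,18])) (.fr 2 [0,11,12,13,14,15]))), .t 2 (nat_lit 0x11d0) (.z (.nd true 9 18 (.fr 4 [1,2,3,4,5,6,7,8,9,11,12,13,14,15,17]) (.pg 0 16 18 [10]))), .t 3 (nat_lit 0xb7411f0) (.z (.nd false 0 4 (.nd true 6 7 (.pg 6 8 10 [9,5]) (.t3 [4,7,18])) (.nd true 0 15 (.pg 0 3 16 [17]) (.fr 2 [1,2,11,12,13,14,15])))), .t 8 (nat_lit 0x141c0656141b1224122312221221) (.z (.nd true 0 8 (.t3 [0,9,10]) (.nd false 0 2 (.fr 2 [2,3,4,5,6,7,8]) (.nd false 11 14 (.pg 14 17 15 [12,13]) (.pg 1 18 16 [11]))))), .t 4 (nat_lit 0x4136e000b) (.z (.nd true 0 13 (.nd true 0 6 (.fr 2 [0,7,8,9,10,17,18]) (.nd true 1 4 (.pg 1 3 6 [5,2,14]) (.t3 [4,15,16]))) (.t3 [11,12,13]))), .t 1 (nat_lit 0) (.z (.nd true 0 15 (.nd true 4 7 (.nd false 0 6 (.pg 6 8 10 [9]) (.pg 4 5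 0 [3,17])) (.t3 [7,16,18])) (.fr 2 [1,2,11,12,13,14,15]))), .t 9 (nat_lit 0x11de11d91295065706560650129411fd) (.z (.nd false 9 16 (.nd false 0 2 (.nd true 0 6 (.t3 [7,8,10]) (.pg 2 3 4 [5,6])) (.pg 1 18 17 [16,14])) (.fr 2 [0,9,11,12,13,15]))), .t 3 (nat_lit 0x11fd11b9) (.z (.nd true 17 18 (.nd false 2 9 (.pg 0 15 17 [9]) (.nd true 0 6 (.t3 [7,8,10]) (.pg 2 3 4 [5,6]))) (.fr 2 [1,11,12,13,14,16,18]))), .t 1 (nat_lit 0) (.z (.nd true 0 16 (.nd true 7 10 (.pg 0 6 7 [8,9]) (.t3 [10,17,18])) (.nd true 3 16 (.pg 1 3 5 [2]) (.fr 2 [4,11,12,13,14,15,16])))), .t 3 (nat_lit 0x124611f5) (.z (.nd false 0 18 (.nd false 1 10 (.pg 2 10 9 [18]) (.fr 2 [1,3,4,5,6,7,8])) (.nd false 11 15 (.pg 0 12 15 [16]) (.pg 11 17 14 [13])))), .t 2 (nat_lit 0x11f4) (.z (.nd true 0 16 (.fr 2 [0,7,8,9,10,17,18]) (.nd true 1 4 (.pg 2 1 3 [5,6]) (.fr 2 [4,11,12,13,14,15,16])))),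 .t 3 (nat_lit 0xb7411f0) (.z (.nd true 0 15 (.nd false 0 4 (.nd true 5 7 (.pg 5 8 10 [9,6]) (.t3 [4,7,18])) (.pg 0 3 16 [17])) (.fr 2 [1,2,11,12,13,14,15]))), .t 1 (nat_lit 0) (.z (.nd false 2 14 (.fr 4 [3,4,5,6,7,8,9,10,12,13,14,15,16,17,18]) (.pg 0 11 1 [2]))), .t 1 (nat_lit 0) (.z (.nd false 11 17 (.pg 0 12 15 [17]) (.fr 4 [1,2,3,4,5,6,7,8,9,10,11,13,14,16,18]))), .t 6 (nat_lit 0x1412ce141e141d063f) (.z (.nd true 0 4 (.fr 2 [0,5,6,7,8,9,10]) (.nd false 11 13 (.pg 1 12 13 [3,2]) (.fr 2 [4,11,14,15,16,17,18])))), .t 3 (nat_lit 0x11fd11bc) (.z (.nd true 1 16 (.fr 2 [1,11,12,13,14,15,17]) (.nd false 2 9 (.pg 0 16 18 [9]) (.nd true 0 6 (.t3 [7,8,10]) (.pg 2 3 4 [6,5]))))), .t 4 (nat_lit 0x14211420141f) (.z (.nd false 0 15 (.nd true 6 7 (.pg 6 8 10 [9]) (.fr 2 [4,5,7,15,16,17,18])) (.nd false 11 14 (.pg 0 1 14 [2]) (.pg 3 13 12 [11])))), .t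 3 (nat_lit 0x11b511fd) (.z (.nd false 9 17 (.nd false 0 2 (.nd true 0 6 (.t3 [7,8,10]) (.pg 2 3 4 [5,6])) (.t3 [1,17,18])) (.nd true 0 13 (.pg 0 14 15 [16,9]) (.t3 [11,12,13])))), .t 3 (nat_lit 0x9250099) (.z (.nd false 0 5 (.fr 2 [5,6,7,8,9,10,18]) (.nd false 1 11 (.fr 2 [3,4,11,14,15,16,17]) (.pg 13 1 2 [0,12])))), .t 1 (nat_lit 0) (.z (.nd false 15 17 (.fr 2 [0,11,12,13,14,16,17]) (.nd true 1 4 (.nd true 1 7 (.pg 1 5 8 [10,9,2]) (.t3 [3,6,7])) (.t3 [4,15,18])))), .t 5 (nat_lit 0x12c612c4093700a1) (.z (.nd false 0 4 (.fr 2 [4,5,6,7,8,9,10]) (.nd true 1 3 (.nd true 0 15 (.pg 17 1 2 [0,16]) (.pg 12 13 14 [15])) (.t3 [3,11,18])))), .t 7 (nat_lit 0x139d124113ff13fe120a1209) (.z (.nd true 0 1 (.fr 3 [0,2,3,4,5,6,7,8,9,10]) (.nd true 13 18 (.pg 11 13 16 [12]) (.pg 1 18 17 [15,14])))), .t 1 (nat_lit 0) (.z (.nd false 9 15 (.fr 4 [1,2,3,4,5,6,7,8,10,13,14,15,16,17,18])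 (.pg 0 11 12 [9]))), .t 3 (nat_lit 0x11ab0875) (.z (.nd false 3 9 (.nd false 11 15 (.pg 15 2 9 [0,12]) (.fr 2 [1,11,13,14,16,17,18])) (.fr 2 [3,4,5,6,7,8,10]))), .t 4 (nat_lit 0x9d514220a6f) (.z (.nd false 0 12 (.nd true 1 4 (.nd false 3 8 (.pg 1 6 8 [10,9,2]) (.pg 3 5 7 [18])) (.fr 2 [4,12,13,14,15,16,17])) (.t3 [0,11]))), .t 7 (nat_lit 0x17001612c8142514241423) (.z (.nd true 4 14 (.nd true 0 15 (.t3 [16,17,18]) (.pg 11 15 4 [13,12])) (.nd true 0 3 (.fr 2 [0,5,6,7,8,9,10]) (.pg 1 14 3 [2])))), .t 1 (nat_lit 0) (.z (.nd false 15 16 (.pg 0 11 12 [16]) (.fr 4 [1,2,3,4,5,6,7,8,9,10,13,14,15,17,18]))), .t 1 (nat_lit 0) (.z (.nd true 0 13 (.nd false 0 17 (.t3 [10,17,18]) (.nd false 1 7 (.pg 0 2 5 [7,8,9]) (.fr 2 [1,3,4,6,14,15,16]))) (.t3 [11,12,13]))), .t 4 (nat_lit 0x14271426112f) (.z (.nd true 1 9 (.t3 [0,1,2]) (.nd false 0 17 (.nd false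 4 8 (.pg 8 10 9 [5,17,18]) (.t3 [4,6,7])) (.fr 2 [3,11,12,13,14,15,16])))), .t 4 (nat_lit 0x124c124b0926) (.z (.nd false 0 5 (.fr 3 [5,6,7,8,9,10,15,16,17,18]) (.nd false 11 14 (.pg 0 12 13 [14,2]) (.pg 1 11 4 [3])))), .t 3 (nat_lit 0x11fd11ab) (.z (.nd true 1 12 (.fr 2 [1,11,13,14,16,17,18]) (.nd false 2 9 (.pg 0 12 15 [9]) (.nd true 0 6 (.t3 [7,8,10]) (.pg 2 3 4 [5,6])))))] (by decide +kernel) (by decide +kernel)
theorem b282 : B 18048 18112 := Blk.of_chk [.t 6 (nat_lit 0x142a142911f011051428) (.z (.nd false 0 5 (.nd false 8 17 (.t3 [7,10,17]) (.pg 8 9 6 [5,16,18])) (.fr 3 [0,1,2,3,4,11,12,13,14,15]))), .t 11 (nat_lit 0x14311430142f142e142d142c0b6801a5142b0096) (.z (.nd true 0 5 (.fr 3 [0,6,7,8,9,10,15,16,17,18]) (.nd false 3 11 (.t3 [4,5,11]) (.pg 3 2 1 [12,13,14])))), .t 6 (nat_lit 0x12ab12aa12a912a812a7) (.z (.nd false 0 13 (.nd false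 0 1 (.nd true 1 3 (.nd false 6 10 (.pg 1 5 10 [9,2]) (.t3 [6,7,8])) (.t3 [3,4,18])) (.pg 13 14 15 [17,16])) (.t3 [0,11,12]))), .t 2 (nat_lit 0x11f4) (.z (.nd true 0 16 (.fr 2 [0,7,8,9,10,17,18]) (.nd false 4 5 (.pg 2 1 3 [5,6]) (.fr 2 [4,11,12,13,14,15,16])))), .t 7 (nat_lit 0x64a14351434121514331432) (.z (.nd true 0 1 (.fr 3 [0,2,3,4,5,6,7,8,9,10]) (.nd false 13 16 (.t3 [12,15,16]) (.pg 1 18 14 [13,11,17])))), .t 4 (nat_lit 0x129812971296) (.z (.nd false 16 17 (.fr 2 [0,11,12,13,14,15,17]) (.nd true 1 3 (.nd false 5 10 (.pg 2 16 1 [6,10,9]) (.t3 [5,7,8])) (.t3 [3,4,18])))), .t 1 (nat_lit 0) (.z (.nd true 0 13 (.nd false 0 1 (.nd true 1 3 (.nd false 5 10 (.pg 1 6 10 [9,2]) (.t3 [5,7,8])) (.t3 [3,4,18])) (.pg 0 14 15 [16,17])) (.t3 [11,12,13]))), .t 7 (nat_lit 0x143814370b76120212011436) (.z (.nd false 0 15 (.nd false 3 4 (.fr 2 [4,5,6,7,8,9,10])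 (.pg 15 18 17 [16,3])) (.fr 2 [0,1,2,11,12,13,14]))), .t 4 (nat_lit 0x121506451214) (.z (.nd false 11 17 (.fr 4 [0,2,3,4,5,6,7,8,9,10,12,15,16,17,18]) (.pg 1 14 13 [11]))), .t 4 (nat_lit 0x143a06491439) (.z (.nd true 12 16 (.fr 4 [0,2,3,4,5,6,7,8,9,10,12,14,15,17,18]) (.pg 1 16 13 [11]))), .t 2 (nat_lit 0x11f0) (.z (.nd false 4 6 (.nd false 0 5 (.pg 6 8 10 [9,5]) (.fr 2 [0,1,2,3,11,12,13])) (.fr 2 [4,7,14,15,16,17,18]))), .t 3 (nat_lit 0x11fd11bb) (.z (.nd true 1 16 (.fr 2 [1,11,12,13,14,15,18]) (.nd false 2 9 (.pg 0 16 17 [9]) (.nd true 0 6 (.t3 [7,8,10]) (.pg 2 3 4 [6,5]))))), .t 3 (nat_lit 0x12b312b2) (.z (.nd false 0 13 (.nd true 4 8 (.nd true 1 3 (.pg 1 5 10 [9,2]) (.pg 3 14 13 [4])) (.fr 2 [6,7,8,15,16,17,18])) (.t3 [0,11,12]))), .t 5 (nat_lit 0x13b4143d143c143b) (.z (.nd false 0 4 (.fr 2 [4,5,6,7,8,9,10]) (.nd false 0 15 (.pg 17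 3 16 [15,18]) (.fr 2 [0,1,2,11,12,13,14])))), .t 6 (nat_lit 0x1440143f137c143e092e) (.z (.nd true 0 4 (.fr 2 [0,5,6,7,8,9,10]) (.nd true 13 16 (.pg 11 13 17 [2,12]) (.fr 2 [1,3,4,14,15,16,18])))), .t 1 (nat_lit 0) (.z (.nd false 0 1 (.nd true 1 3 (.nd false 6 10 (.pg 1 5 10 [9,2]) (.t3 [6,7,8])) (.t3 [3,4,18])) (.nd false 11 17 (.pg 0 12 13 [14,17]) (.t3 [11,15,16])))), .t 1 (nat_lit 0) (.z (.nd false 0 1 (.nd true 3 8 (.pg 3 6 10 [9,2,1,16]) (.fr 2 [4,5,7,8,17,18])) (.fr 2 [0,11,12,13,14,15]))), .t 3 (nat_lit 0x14421441) (.z (.nd false 0 9 (.pg 9 17 18 [10]) (.fr 4 [0,1,2,3,4,5,6,7,8,11,12,13,14,15,16]))), .t 3 (nat_lit 0x12fa12f9) (.z (.nd true 1 17 (.fr 4 [0,1,2,3,4,5,6,7,8,9,10,14,15,16,18]) (.pg 11 17 13 [12]))), .t 3 (nat_lit 0x124611f5) (.z (.nd true 12 14 (.fr 4 [0,1,2,3,4,5,6,7,8,9,10,12,15,16,18]) (.pg 11 17 14 [13]))), .t 2 (nat_lit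 0x926) (.z (.nd false 1 3 (.nd false 0 3 (.fr 2 [3,5,6,7,8,9,10]) (.pg 0 12 13 [14,2])) (.fr 2 [1,4,11,15,16,17,18]))), .t 5 (nat_lit 0x12f612f512f412f3) (.z (.nd true 1 7 (.fr 2 [0,1,2,5,8,9,10]) (.nd false 0 15 (.fr 2 [4,6,7,15,16,17,18]) (.pg 11 13 3 [14,12])))), .t 4 (nat_lit 0x1444063f1443) (.z (.nd true 1 14 (.pg 1 13 12 [11]) (.fr 4 [0,2,3,4,5,6,7,8,9,10,14,15,16,17,18]))), .t 4 (nat_lit 0x13820b201381) (.z (.nd false 0 15 (.nd true 3 6 (.pg 9 15 16 [3,10]) (.fr 2 [4,5,6,7,8,17,18])) (.fr 2 [0,1,2,11,12,13,14]))), .t 2 (nat_lit 0x11f4) (.z (.nd true 0 15 (.fr 2 [0,8,9,10,16,17,18]) (.nd true 5 7 (.pg 2 1 3 [5,6]) (.fr 2 [4,7,11,12,13,14,15])))), .t 7 (nat_lit 0x13e3138d099001091390122c) (.z (.nd true 0 4 (.nd true 0 8 (.fr 2 [0,9,10,15,16,17,18]) (.pg 5 7 8 [6])) (.nd true 1 11 (.pg 4 3 1 [13,14]) (.t3 [2,11,12])))), .t 3 (nat_lit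 0x122c1445) (.z (.nd true 0 8 (.fr 2 [0,9,10,15,16,17,18]) (.nd false 0 5 (.pg 8 6 5 [7,14]) (.fr 2 [1,2,3,4,11,12,13])))), .t 9 (nat_lit 0x14401449144813bc137c1447144613e4) (.z (.nd true 0 2 (.fr 3 [0,3,4,5,6,7,8,9,10,18]) (.nd true 1 16 (.t3 [1,14,15]) (.pg 11 13 16 [17,2,12])))), .t 8 (nat_lit 0x144c1319144b00f5144a11e511e4) (.z (.nd true 0 13 (.nd true 1 4 (.nd true 0 2 (.nd true 0 8 (.t3 [0,9,10]) (.pg 7 8 5 [3,6])) (.pg 15 17 1 [2,16])) (.t3 [4,14,18])) (.t3 [11,12,13]))), .t 1 (nat_lit 0) (.z (.nd false 0 1 (.nd true 1 3 (.nd false 6 10 (.pg 1 5 10 [9,2]) (.t3 [6,7,8])) (.t3 [3,4,18])) (.nd false 11 16 (.pg 0 12 13 [16,17]) (.t3 [11,14,15])))), .t 2 (nat_lit 0x11bd) (.z (.nd true 9 10 (.pg 0 9 17 [18]) (.fr 4 [1,2,3,4,5,6,7,8,10,11,12,13,14,15,16]))), .t 5 (nat_lit 0x129b144d129a1299) (.z (.nd false 0 8 (.t3 [8,9,10]) (.nd false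 0 17 (.nd true 1 3 (.pg 1 6 7 [5,2,17]) (.t3 [3,4,18])) (.fr 2 [0,11,12,13,14,15,16])))), .t 7 (nat_lit 0x1307144f093913031302144e) (.z (.nd false 0 4 (.fr 2 [4,5,6,7,8,9,10]) (.nd false 0 16 (.pg 2 18 17 [16,1,3]) (.fr 2 [0,11,12,13,14,15])))), .t 5 (nat_lit 0x1260120f125f125e) (.z (.nd true 0 4 (.fr 2 [0,5,6,7,8,9,10]) (.nd false 14 16 (.pg 11 13 16 [15,12]) (.fr 2 [1,2,3,4,14,17,18])))), .t 9 (nat_lit 0x14571456145514541453145214511450) (.z (.nd true 0 8 (.t3 [0,9,10]) (.nd false 0 15 (.nd true 4 17 (.t3 [4,15,18]) (.pg 5 16 17 [6,7,8])) (.fr 2 [1,2,3,11,12,13,14])))), .t 7 (nat_lit 0x11ea11e912d10b7f13841383) (.z (.nd true 0 15 (.nd true 0 4 (.fr 2 [0,5,6,7,8,9,10]) (.pg 4 18 17 [16])) (.nd false 2 13 (.pg 3 13 14 [15]) (.pg 1 11 12 [2])))), .t 1 (nat_lit 0) (.z (.nd false 4 7 (.nd true 7 10 (.nd true 0 5 (.pg 0 6 7 [8,9]) (.pg 1 3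 5 [2])) (.t3 [10,17,18])) (.fr 2 [4,11,12,13,14,15,16]))), .t 4 (nat_lit 0x11f413700004) (.z (.nd false 9 16 (.nd true 1 4 (.nd false 0 7 (.t3 [7,8,10]) (.pg 1 3 5 [6,2,18])) (.t3 [4,16,17])) (.fr 2 [0,9,11,12,13,14,15]))), .t 1 (nat_lit 0) (.z (.nd false 0 17 (.nd true 1 4 (.nd true 1 7 (.pg 1 5 8 [10,9,2]) (.t3 [3,6,7])) (.t3 [4,17,18])) (.fr 2 [0,11,12,13,14,15,16]))), .t 3 (nat_lit 0x11ef11ee) (.z (.nd false 1 10 (.fr 2 [0,2,9,10,11,12,13]) (.nd false 1 3 (.pg 7 8 6 [3,5]) (.fr 2 [1,4,14,15,16,17,18])))), .t 4 (nat_lit 0x145914581162) (.z (.nd false 0 17 (.pg 9 17 18 [10]) (.fr 4 [0,1,2,3,4,5,6,7,8,11,12,13,14,15,16]))), .t 3 (nat_lit 0x611aa) (.z (.nd false 3 9 (.nd false 11 14 (.pg 0 12 13 [14,9]) (.t3 [1,2,11])) (.nd false 0 7 (.fr 2 [7,8,10,15,16,17,18]) (.pg 3 4 5 [6])))), .t 3 (nat_lit 0x9250099) (.z (.nd false 0 4 (.nd false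 4 8 (.pg 6 8 10 [9]) (.fr 2 [4,5,7,15,16,17,18])) (.nd false 1 11 (.t3 [3,11,14]) (.pg 13 1 2 [0,12])))), .t 2 (nat_lit 0x1150) (.z (.nd true 2 17 (.fr 4 [1,2,3,4,5,6,7,8,11,12,13,14,15,16,18]) (.pg 0 17 9 [10]))), .t 3 (nat_lit 0x13590006) (.z (.nd false 0 7 (.fr 2 [7,8,9,10,16,17,18]) (.nd false 0 3 (.pg 4 6 5 [3,15]) (.fr 2 [0,1,2,11,12,13,14])))), .t 10 (nat_lit 0x12c312c212c1120f12c012bf12be126012bd) (.z (.nd false 0 4 (.fr 2 [4,5,6,7,8,9,10]) (.nd false 14 16 (.nd true 0 18 (.t3 [0,1,2]) (.pg 11 13 15 [16,18,12])) (.t3 [3,14,17])))), .t 1 (nat_lit 0) (.z (.nd false 0 18 (.nd true 2 3 (.nd false 4 8 (.pg 2 5 8 [10,9]) (.t3 [4,6,7])) (.t3 [1,3,18])) (.nd false 11 16 (.pg 0 12 13 [15,16]) (.t3 [11,14,17])))), .t 4 (nat_lit 0x11ba087e0936) (.z (.nd false 3 9 (.nd true 0 13 (.nd true 1 16 (.t3 [1,14,17]) (.pg 0 15 16 [18,2,9])) (.t3 [11,12,13]))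 (.fr 2 [3,4,5,6,7,8,10]))), .t 5 (nat_lit 0x133c11d313ac12ec) (.z (.nd false 0 4 (.fr 2 [4,5,6,7,8,9,10]) (.nd false 0 18 (.pg 1 3 2 [18]) (.nd true 12 15 (.t3 [0,12,17]) (.pg 11 14 16 [15,13]))))), .t 3 (nat_lit 0x11e511e4) (.z (.nd false 2 11 (.nd false 1 3 (.pg 7 8 5 [3,6]) (.fr 2 [1,4,11,15,16,17,18])) (.fr 2 [0,2,9,10,12,13,14]))), .t 3 (nat_lit 0x124611f5) (.z (.nd false 14 18 (.fr 4 [0,1,2,3,4,5,6,7,8,9,10,12,15,16,18]) (.pg 11 17 14 [13]))), .t 3 (nat_lit 0x11ad087b) (.z (.nd false 3 9 (.nd false 11 17 (.pg 17 2 9 [0,12]) (.fr 2 [1,11,13,14,15,16,18])) (.fr 2 [3,4,5,6,7,8,10]))), .t 9 (nat_lit 0x12ea145d145c13dc145b12e50039145a) (.z (.nd true 0 8 (.t3 [0,9,10]) (.nd true 0 13 (.nd true 1 4 (.nd true 0 5 (.t3 [6,7,8]) (.pg 2 18 16 [15,1,3,5])) (.t3 [4,14,17])) (.t3 [11,12,13])))), .t 4 (nat_lit 0x138b0645120b) (.z (.nd true 11 17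 (.fr 4 [0,2,3,4,5,6,7,8,9,10,11,12,15,16,18]) (.pg 1 17 13 [14]))), .t 3 (nat_lit 0x11d512a8) (.z (.nd true 11 17 (.fr 4 [0,1,2,3,4,5,6,7,8,9,10,11,12,15,18]) (.pg 13 14 17 [16]))), .t 5 (nat_lit 0x13bc120913bb13ba) (.z (.nd true 0 4 (.fr 2 [0,5,6,7,8,9,10]) (.nd true 2 11 (.fr 2 [1,2,3,4,14,15,18]) (.pg 11 13 17 [16,12])))), .t 1 (nat_lit 0) (.z (.nd true 0 17 (.pg 0 9 18 [10]) (.fr 4 [1,2,3,4,5,6,7,8,11,12,13,14,15,16,17]))), .t 4 (nat_lit 0x926009c0640) (.z (.nd false 0 5 (.fr 3 [5,6,7,8,9,10,15,16,17,18]) (.nd false 1 11 (.t3 [3,4,11]) (.pg 0 12 13 [14,1,2])))), .t 5 (nat_lit 0x1460145f145e141f) (.z (.nd false 0 4 (.nd false 4 8 (.pg 5 8 10 [9]) (.fr 2 [4,6,7,15,16,17,18])) (.nd true 1 3 (.t3 [0,1,2]) (.pg 11 14 3 [13,12])))), .t 4 (nat_lit 0x13cd065713cb) (.z (.nd false 3 14 (.pg 1 18 17 [14]) (.fr 4 [0,2,3,4,5,6,7,8,9,10,11,12,13,15,16]))),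 .t 3 (nat_lit 0x124611f5) (.z (.nd true 15 17 (.fr 4 [0,1,2,3,4,5,6,7,8,9,10,12,15,16,18]) (.pg 11 17 14 [13]))), .t 4 (nat_lit 0x926009c0640) (.z (.nd false 0 15 (.fr 3 [5,6,7,8,9,10,15,16,17,18]) (.nd false 1 11 (.t3 [3,4,11]) (.pg 0 12 13 [14,1,2])))), .t 3 (nat_lit 0x12c612cc) (.z (.nd false 0 12 (.nd true 5 7 (.pg 2 5 8 [10,9]) (.nd false 0 16 (.fr 2 [3,4,6,7,16,17,18]) (.pg 12 13 15 [14]))) (.t3 [0,1,11]))), .t 4 (nat_lit 0x10c01941461) (.z (.nd false 0 13 (.nd true 4 5 (.nd true 2 4 (.pg 2 6 8 [10,9]) (.pg 1 14 4 [3])) (.fr 2 [5,7,13,15,16,17,18])) (.t3 [0,11,12])))] (by decide +kernel) (by decide +kernel)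
theorem b283 : B 18112 18176 := Blk.of_chk [.t 3 (nat_lit 0x1380137f) (.z (.nd false 1 13 (.pg 13 14 17 [18]) (.fr 4 [0,1,2,3,4,5,6,7,8,9,10,11,12,15,16]))), .t 1 (nat_lit 0) (.z (.nd false 0 3 (.fr 4 [3,4,5,6,7,8,9,10,12,13,14,15,16,17,18]) (.pg 0 11 1 [2]))), .t 5 (nat_lit 0x1463146211f413c1) (.z (.nd true 0 6 (.fr 2 [0,7,8,9,10,17,18]) (.nd false 1 4 (.pg 3 4 15 [6,5,2]) (.fr 2 [1,11,12,13,14,16])))), .t 1 (nat_lit 0) (.z (.nd false 0 14 (.fr 2 [9,10,14,15,16,17,18]) (.nd true 0 12 (.nd true 5 8 (.pg 0 2 3 [4,5,6]) (.t3 [7,8,13])) (.t3 [1,11,12])))), .t 13 (nat_lit 0x9b214660b7313c50e4b011b146514640199030013540283) (.z (.nd false 16 18 (.fr 2 [0,11,12,13,14,18]) (.nd true 2 4 (.fr 2 [2,5,6,7,8,9,10]) (.pg 17 16 15 [4,3,1])))), .t 1 (nat_lit 0) (.z (.nd false 0 18 (.nd false 1 10 (.pg 2 10 9 [18]) (.fr 2 [1,3,4,5,6,7,8])) (.nd false 11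 13 (.pg 0 12 13 [16,17]) (.t3 [11,14,15])))), .t 4 (nat_lit 0x146814670a6e) (.z (.nd false 0 12 (.nd false 4 7 (.nd false 3 8 (.pg 2 6 8 [10,9]) (.pg 3 5 7 [17])) (.fr 2 [4,12,13,14,15,16,18])) (.t3 [0,1,11]))), .t 7 (nat_lit 0x11ea11e9146911d811e511e4) (.z (.nd true 0 16 (.nd true 3 4 (.nd true 0 8 (.t3 [0,9,10]) (.pg 7 8 5 [3,6])) (.t3 [4,17,18])) (.nd false 2 13 (.pg 13 14 16 [15]) (.pg 1 11 12 [2])))), .t 2 (nat_lit 0x1229) (.z (.nd false 0 17 (.nd true 1 4 (.nd false 1 10 (.t3 [2,9,10]) (.pg 1 3 6 [7,8,5])) (.t3 [4,17,18])) (.fr 2 [0,11,12,13,14,15,16]))), .t 3 (nat_lit 0x128f128e) (.z (.nd true 12 18 (.fr 4 [0,1,2,3,4,5,6,7,8,9,10,12,15,16,17]) (.pg 11 18 14 [13]))), .t 2 (nat_lit 0x126f) (.z (.nd false 1 11 (.fr 2 [4,11,15,16,17,18]) (.nd false 1 10 (.fr 2 [0,2,9,10,12,13,14]) (.pg 1 3 5 [7,8,6])))), .t 5 (nat_lit 0x11bb0ae10a110b74)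 (.z (.nd true 0 15 (.nd false 7 9 (.nd true 3 6 (.pg 3 5 9 [0,16,17]) (.t3 [4,6,18])) (.t3 [7,8,10])) (.fr 2 [1,2,11,12,13,14,15]))), .t 6 (nat_lit 0x12c312c212d813a412d5) (.z (.nd true 0 4 (.fr 2 [0,5,6,7,8,9,10]) (.nd true 13 15 (.pg 11 13 16 [18,12]) (.fr 2 [1,2,3,4,14,15,17])))), .t 5 (nat_lit 0x9250099146b146a) (.z (.nd false 0 4 (.fr 3 [4,5,6,7,8,9,10,16,17,18]) (.nd false 1 11 (.pg 3 11 14 [15]) (.pg 13 1 2 [0,12])))), .t 4 (nat_lit 0x10c01941461) (.z (.nd false 0 13 (.nd true 4 6 (.nd true 2 4 (.pg 2 5 8 [10,9]) (.pg 1 14 4 [3])) (.fr 2 [6,7,13,15,16,17,18])) (.t3 [0,11,12]))), .t 3 (nat_lit 0x10c210bf) (.z (.nd false 0 8 (.pg 8 18 10 [9]) (.fr 4 [0,1,2,3,4,5,6,7,11,12,13,14,15,16,17]))), .t 4 (nat_lit 0x925009913ea) (.z (.nd false 0 5 (.nd true 7 8 (.pg 5 7 9 [6]) (.fr 2 [8,10,14,15,16,17,18])) (.nd false 1 11 (.t3 [3,4,11]) (.pg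 13 1 2 [0,12])))), .t 7 (nat_lit 0x13731378146d06c71377146c) (.z (.nd true 0 6 (.fr 2 [0,7,8,9,10,17,18]) (.nd true 0 12 (.nd true 3 4 (.pg 2 3 15 [16,6,5]) (.t3 [4,13,14])) (.t3 [1,11,12])))), .t 5 (nat_lit 0x12cb120f12ca12c9) (.z (.nd true 0 4 (.fr 2 [0,5,6,7,8,9,10]) (.nd true 2 13 (.fr 2 [1,2,3,4,14,16,18]) (.pg 11 13 17 [15,12])))), .t 4 (nat_lit 0x411f3000b) (.z (.nd true 15 17 (.fr 2 [0,9,11,12,13,15,16]) (.nd true 1 4 (.nd false 0 7 (.t3 [7,8,10]) (.pg 1 3 6 [5,2,17])) (.t3 [4,14,18])))), .t 5 (nat_lit 0x153146e12290460) (.z (.nd false 0 13 (.nd false 4 7 (.nd false 1 8 (.pg 2 5 8 [10,9]) (.pg 1 3 6 [7,17])) (.fr 2 [4,13,14,15,16,18])) (.t3 [0,11,12]))), .t 3 (nat_lit 0x13091257) (.z (.nd true 1 13 (.fr 4 [0,1,2,3,4,5,6,7,8,9,10,15,16,17,18]) (.pg 11 14 13 [12]))), .t 5 (nat_lit 0xca60c770ca70e4d) (.z (.nd true 2 16 (.nd false 7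 9 (.nd true 3 6 (.pg 0 2 3 [5,9]) (.pg 4 6 17 [18])) (.t3 [7,8,10])) (.fr 2 [1,11,12,13,14,15,16]))), .t 3 (nat_lit 0x1307146f) (.z (.nd false 0 4 (.fr 2 [4,5,6,7,8,9,10]) (.nd false 1 11 (.t3 [3,11,18]) (.nd false 0 16 (.pg 1 2 17 [16]) (.pg 0 12 13 [14,15]))))), .t 9 (nat_lit 0x126d126c126b0e410e3e126a0004000b) (.z (.nd true 0 6 (.fr 3 [0,7,8,9,10,15,16,17,18]) (.nd true 1 4 (.pg 1 3 6 [5,2]) (.pg 4 14 13 [12,11])))), .t 1 (nat_lit 0) (.z (.nd false 11 15 (.pg 0 12 13 [15]) (.fr 4 [1,2,3,4,5,6,7,8,9,10,11,14,16,17,18]))), .t 1 (nat_lit 0) (.z (.nd false 11 17 (.pg 0 12 16 [17]) (.fr 4 [1,2,3,4,5,6,7,8,9,10,11,13,14,15,18]))), .t 1 (nat_lit 0) (.z (.nd false 17 18 (.nd true 0 13 (.pg 0 14 15 [16,18]) (.t3 [11,12,13])) (.nd true 1 3 (.nd false 5 10 (.pg 1 6 10 [9,2]) (.t3 [5,7,8])) (.t3 [3,4,17])))), .t 5 (nat_lit 0x1471147010ac11f0) (.z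 (.nd false 0 5 (.nd false 7 10 (.pg 6 8 10 [9,5]) (.pg 7 16 18 [17])) (.fr 3 [0,1,2,3,4,11,12,13,14,15]))), .t 5 (nat_lit 0x1208120712061205) (.z (.nd true 4 12 (.fr 2 [4,13,14,15,16,17,18]) (.nd true 0 3 (.fr 2 [0,5,6,7,8,9,10]) (.pg 3 2 1 [11,12])))), .t 4 (nat_lit 0x9c8127b1472) (.z (.nd false 1 7 (.fr 2 [0,2,5,7,8,9,10]) (.nd false 0 17 (.pg 3 17 18 [4,6]) (.fr 2 [1,11,12,13,14,15,16])))), .t 3 (nat_lit 0x11fd11bc) (.z (.nd true 1 18 (.fr 2 [1,11,12,13,14,15,17]) (.nd false 2 9 (.pg 0 16 18 [9]) (.nd true 0 6 (.t3 [7,8,10]) (.pg 2 3 4 [5,6]))))), .t 1 (nat_lit 0) (.z (.nd false 14 17 (.fr 2 [0,11,12,13,15,16,17]) (.nd true 1 4 (.nd true 1 7 (.pg 1 6 8 [10,9,2]) (.t3 [3,5,7])) (.t3 [4,14,18])))), .t 1 (nat_lit 0) (.z (.nd true 0 3 (.nd true 5 9 (.pg 0 4 15 [5,6]) (.fr 2 [7,8,9,10,16,17,18])) (.fr 2 [1,2,3,11,12,13,14]))), .t 5 (nat_lit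 0x14751474142d1473) (.z (.nd false 0 15 (.nd true 6 7 (.pg 6 8 10 [9]) (.fr 2 [4,5,7,15,16,17,18])) (.nd false 0 12 (.pg 3 2 14 [12,13]) (.t3 [0,1,11])))), .t 3 (nat_lit 0x11fd11b8) (.z (.nd true 1 16 (.fr 2 [1,11,12,13,14,17,18]) (.nd false 2 9 (.pg 0 15 16 [9]) (.nd true 0 6 (.t3 [7,8,10]) (.pg 2 3 4 [6,5]))))), .t 6 (nat_lit 0x12c913a912cb13a813a7) (.z (.nd true 0 4 (.fr 2 [0,5,6,7,8,9,10]) (.nd true 13 16 (.pg 11 13 15 [17,12]) (.fr 2 [1,2,3,4,14,16,18])))), .t 13 (nat_lit 0x147a0fe6147914780c1914770ca60c770b9b0bec13401476) (.z (.nd false 1 9 (.t3 [0,2,9]) (.nd false 0 16 (.nd false 0 7 (.t3 [7,8,10]) (.pg 18 4 5 [6,16,17])) (.fr 2 [1,3,11,12,13,14,15])))), .t 8 (nat_lit 0x11ea11e90b7f129c0b6813841383) (.z (.nd true 0 15 (.nd true 0 4 (.fr 2 [0,5,6,7,8,9,10]) (.pg 4 18 17 [16])) (.nd false 2 13 (.pg 3 14 13 [15]) (.pg 1 11 12 [2])))),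 .t 7 (nat_lit 0x11fd1225139c065111de130b) (.z (.nd true 1 17 (.nd false 0 14 (.pg 1 16 15 [14,18]) (.t3 [11,12,13])) (.nd false 2 9 (.t3 [0,9,17]) (.nd true 0 6 (.t3 [7,8,10]) (.pg 2 3 4 [5,6]))))), .t 2 (nat_lit 0x926) (.z (.nd true 3 9 (.nd false 11 14 (.pg 0 12 13 [14,2]) (.t3 [1,3,11])) (.nd true 5 7 (.pg 5 8 10 [9]) (.fr 2 [4,6,7,15,16,17,18])))), .t 1 (nat_lit 0) (.z (.nd false 0 1 (.nd true 1 3 (.nd false 6 10 (.pg 1 5 10 [9,2]) (.t3 [6,7,8])) (.t3 [3,4,18])) (.nd false 11 14 (.pg 0 12 13 [14,16]) (.t3 [11,15,17])))), .t 5 (nat_lit 0x126c0e3d142311f4) (.z (.nd true 0 6 (.fr 3 [0,7,8,9,10,14,15,16,17,18]) (.nd true 1 4 (.pg 2 1 3 [5,6]) (.pg 4 13 12 [11])))), .t 5 (nat_lit 0x12c8147c147b141f) (.z (.nd false 0 16 (.fr 3 [4,5,6,7,8,9,10,16,17,18]) (.nd false 11 14 (.pg 0 1 14 [2]) (.pg 11 15 3 [13,12])))), .t 2 (nat_lit 0x63f) (.z (.nd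 false 11 13 (.pg 0 1 12 [13]) (.fr 4 [2,3,4,5,6,7,8,9,10,11,14,15,16,17,18]))), .t 9 (nat_lit 0x14841483148214811480147f147e147d) (.z (.nd true 0 5 (.fr 3 [0,6,7,8,9,10,15,16,17,18]) (.nd true 3 14 (.t3 [3,4,11]) (.pg 5 2 1 [12,13,14])))), .t 2 (nat_lit 0x1229) (.z (.nd true 5 7 (.nd true 8 10 (.pg 0 2 5 [8,9]) (.t3 [10,17,18])) (.nd false 4 7 (.pg 1 3 6 [7]) (.fr 2 [4,11,12,13,14,15,16])))), .t 2 (nat_lit 0x1485) (.z (.nd true 3 13 (.fr 2 [1,3,14,15,16,17,18]) (.nd false 0 13 (.nd false 4 8 (.pg 2 5 8 [10,9,13]) (.t3 [4,6,7])) (.t3 [0,11,12])))), .t 4 (nat_lit 0x148714860a6f) (.z (.nd false 0 12 (.nd true 1 4 (.nd false 3 8 (.pg 1 5 8 [10,9,2]) (.pg 3 6 7 [18])) (.fr 2 [4,12,13,14,15,16,17])) (.t3 [0,11]))), .t 5 (nat_lit 0x148a1489097f1488) (.z (.nd true 4 5 (.nd false 0 12 (.nd true 2 4 (.pg 2 6 8 [10,9]) (.pg 4 3 14 [12,13])) (.t3 [0,1,11]))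 (.fr 2 [5,7,15,16,17,18]))), .t 5 (nat_lit 0x148c12e709cb148b) (.z (.nd true 0 5 (.fr 2 [0,6,7,8,9,10]) (.nd true 1 17 (.fr 2 [1,11,12,13,14,15,16]) (.pg 3 4 5 [2,17,18])))), .t 4 (nat_lit 0x148f148e148d) (.z (.nd true 1 11 (.fr 2 [1,13,14,15,16,17,18]) (.nd true 2 5 (.fr 2 [0,2,7,8,9,10,12]) (.pg 5 11 3 [4,6])))), .t 3 (nat_lit 0x11fd11ab) (.z (.nd true 1 15 (.fr 2 [1,11,13,14,16,17,18]) (.nd false 2 9 (.pg 0 12 15 [9]) (.nd true 0 6 (.t3 [7,8,10]) (.pg 2 3 4 [5,6]))))), .t 1 (nat_lit 0) (.z (.nd false 0 16 (.nd true 2 7 (.pg 2 6 8 [10,9]) (.fr 2 [3,4,5,7,16,17,18])) (.fr 2 [0,1,11,12,13,14,15]))), .t 1 (nat_lit 0) (.z (.nd false 2 14 (.fr 4 [3,4,5,6,7,8,9,10,11,13,14,15,16,17,18]) (.pg 0 1 12 [2]))), .t 1 (nat_lit 0) (.z (.nd false 0 18 (.nd false 1 10 (.pg 2 10 9 [18]) (.fr 2 [1,3,4,5,6,7,8])) (.nd true 12 14 (.pg 0 12 15 [16,17]) (.t3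 [11,13,14])))), .t 1 (nat_lit 0) (.z (.nd false 1 13 (.fr 4 [2,3,4,5,6,7,8,9,10,13,14,15,16,17,18]) (.pg 0 11 12 [1]))), .t 8 (nat_lit 0x1241124012c312c212d813a412d5) (.z (.nd true 0 1 (.fr 3 [0,2,3,4,5,6,7,8,9,10]) (.nd true 13 17 (.pg 11 13 16 [18,12]) (.pg 1 17 15 [14])))), .t 5 (nat_lit 0x2db028302dd064f) (.z (.nd false 17 18 (.fr 4 [0,2,3,5,6,7,8,9,10,11,12,13,15,16,18]) (.pg 1 17 14 [4]))), .t 3 (nat_lit 0x11e511e4) (.z (.nd false 0 17 (.nd false 1 10 (.pg 2 10 9 [17]) (.nd false 1 3 (.pg 7 8 5 [3,6]) (.t3 [1,4,18]))) (.fr 2 [0,11,12,13,14,15,16]))), .t 2 (nat_lit 0x926) (.z (.nd false 0 4 (.fr 2 [4,5,6,7,8,9,10]) (.nd false 2 11 (.fr 2 [1,3,11,15,16,17,18]) (.pg 0 12 13 [14,2])))), .t 4 (nat_lit 0x148714860a6f) (.z (.nd false 0 12 (.nd false 4 7 (.nd false 3 8 (.pg 1 5 8 [10,9,2]) (.pg 3 6 7 [18])) (.fr 2 [4,12,13,14,15,16,17]))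 (.t3 [0,11]))), .t 3 (nat_lit 0x12c612cc) (.z (.nd false 0 12 (.nd true 2 7 (.pg 2 5 8 [10,9]) (.nd false 0 16 (.fr 2 [3,4,6,7,16,17,18]) (.pg 12 13 15 [14]))) (.t3 [0,1,11]))), .t 2 (nat_lit 0x933) (.z (.nd true 0 13 (.nd false 1 2 (.pg 0 14 16 [17,18,2]) (.fr 3 [1,3,4,5,6,7,8,9,10,15])) (.t3 [11,12,13])))] (by decide +kernel) (by decide +kernel)
theorem b284 : B 18176 18240 := Blk.of_chk [.t 2 (nat_lit 0x1229) (.z (.nd false 16 17 (.fr 2 [0,11,12,13,14,15,17]) (.nd true 1 4 (.nd false 1 10 (.t3 [2,9,10]) (.pg 1 3 6 [7,8,5])) (.t3 [4,16,18])))), .t 6 (nat_lit 0x142f142e1490142c0b68) (.z (.nd false 0 4 (.nd false 4 8 (.pg 6 8 10 [9]) (.fr 2 [4,5,7,15,16,17,18])) (.nd false 0 12 (.pg 12 13 14 [3,2]) (.t3 [0,1,11])))), .t 3 (nat_lit 0x11fd11ba) (.z (.nd true 1 17 (.fr 2 [1,11,12,13,14,16]) (.nd false 2 9 (.pg 0 15 17 [18,9]) (.nd true 0 6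 (.t3 [7,8,10]) (.pg 2 3 4 [6,5]))))), .t 7 (nat_lit 0x142d1490139313920e4811f0) (.z (.nd false 0 12 (.nd false 0 14 (.nd false 0 5 (.nd true 5 7 (.pg 5 8 10 [9,6]) (.t3 [7,17,18])) (.pg 4 14 16 [15])) (.pg 2 12 13 [3])) (.t3 [0,1,11]))), .t 5 (nat_lit 0x13f8109f13f711fd) (.z (.nd false 0 8 (.fr 2 [8,9,10,15,16,17,18]) (.nd false 0 12 (.nd true 4 7 (.pg 2 3 4 [6,5]) (.pg 7 14 13 [12])) (.t3 [0,1,11])))), .t 1 (nat_lit 0) (.z (.nd false 0 13 (.nd false 6 10 (.nd true 1 4 (.pg 1 3 5 [10,9,2]) (.t3 [4,13,14])) (.fr 2 [6,7,8,15,16,17,18])) (.t3 [0,11,12]))), .t 4 (nat_lit 0x13cd065713cb) (.z (.nd true 1 15 (.pg 1 18 17 [14]) (.fr 4 [0,2,3,4,5,6,7,8,9,10,11,12,13,15,16]))), .t 5 (nat_lit 0x13ff065713fe11fd) (.z (.nd false 9 17 (.nd false 0 2 (.nd true 0 6 (.t3 [7,8,10]) (.pg 2 3 4 [6,5])) (.pg 1 18 17 [15])) (.fr 2 [0,9,11,12,13,14,16]))), .t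 3 (nat_lit 0x11bc087e) (.z (.nd false 3 9 (.nd true 1 16 (.fr 2 [1,11,12,13,14,15,17]) (.pg 18 2 9 [0,16])) (.fr 2 [3,4,5,6,7,8,10]))), .t 7 (nat_lit 0x11ea11e912d10b7f14921491) (.z (.nd true 0 15 (.nd true 0 4 (.fr 2 [0,5,6,7,8,9,10]) (.pg 4 17 16 [18])) (.nd false 2 13 (.pg 3 13 14 [15]) (.pg 1 11 12 [2])))), .t 3 (nat_lit 0x149311a7) (.z (.nd false 0 17 (.pg 9 18 17 [10]) (.fr 4 [0,1,2,3,4,5,6,7,8,11,12,13,14,15,16]))), .t 1 (nat_lit 0) (.z (.nd false 1 7 (.nd true 7 10 (.pg 0 2 6 [7,8,9]) (.t3 [10,17,18])) (.fr 3 [1,3,4,5,11,12,13,14,15,16]))), .t 5 (nat_lit 0x1224128b128a1221) (.z (.nd true 0 4 (.fr 2 [0,5,6,7,8,9,10]) (.nd false 11 14 (.pg 14 16 15 [12,13]) (.fr 2 [1,2,3,4,11,17,18])))), .t 1 (nat_lit 0) (.z (.nd true 4 16 (.fr 2 [4,11,12,13,14,15,17]) (.nd false 0 1 (.nd true 1 7 (.pg 1 6 8 [10,9,2]) (.t3 [3,5,7])) (.t3 [0,16,18])))),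 .t 3 (nat_lit 0x11e511e4) (.z (.nd false 0 13 (.nd false 1 3 (.nd true 2 8 (.pg 2 10 9 [14]) (.pg 7 8 5 [3,6])) (.fr 2 [1,4,13,15,16,17,18])) (.t3 [0,11,12]))), .t 2 (nat_lit 0x114d) (.z (.nd false 9 14 (.fr 4 [1,2,3,4,5,6,7,8,11,12,13,14,16,17,18]) (.pg 0 15 9 [10]))), .t 3 (nat_lit 0x611aa) (.z (.nd false 3 9 (.nd false 11 14 (.pg 0 12 13 [14,9]) (.t3 [1,2,11])) (.nd true 5 10 (.pg 3 4 5 [6]) (.fr 2 [7,8,10,15,16,17,18])))), .t 2 (nat_lit 0x126f) (.z (.nd true 4 16 (.fr 2 [4,11,12,13,14,15,17]) (.nd false 0 1 (.nd false 1 10 (.t3 [2,9,10]) (.pg 1 3 5 [7,8,6])) (.t3 [0,16,18])))), .t 7 (nat_lit 0x125813b012ec11eb11e511e4) (.z (.nd true 0 16 (.nd true 3 4 (.nd true 0 8 (.t3 [0,9,10]) (.pg 7 8 5 [3,6])) (.t3 [4,17,18])) (.nd true 1 13 (.t3 [1,2,14]) (.pg 11 16 15 [13,12])))), .t 1 (nat_lit 0) (.z (.nd false 0 17 (.fr 2 [6,7,8,9,10,17,18])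 (.nd false 1 4 (.pg 5 0 2 [3,4,16]) (.fr 2 [1,11,12,13,14,15])))), .t 3 (nat_lit 0x11ae087e) (.z (.nd false 3 9 (.nd false 2 11 (.fr 2 [1,11,13,14,15,16,17]) (.pg 18 2 9 [0,12])) (.fr 2 [3,4,5,6,7,8,10]))), .t 9 (nat_lit 0x1496131e14951494131d131c009e063f) (.z (.nd true 0 8 (.t3 [0,9,10]) (.nd true 0 17 (.fr 2 [3,4,5,6,7,8,18]) (.nd false 11 13 (.pg 1 12 13 [15,2]) (.pg 11 17 16 [14]))))), .t 9 (nat_lit 0x149d149c149b149a1499149813d41497) (.z (.nd true 0 14 (.nd true 0 8 (.t3 [0,9,10]) (.nd true 4 18 (.t3 [4,15,16]) (.pg 5 17 18 [6,7,8]))) (.fr 2 [1,2,3,11,12,13,14]))), .t 13 (nat_lit 0x14a213dc145b14a1039314a0149f12e000ef1302149e003a) (.z (.nd true 0 9 (.t3 [0,10]) (.nd true 0 13 (.nd true 1 4 (.nd true 0 5 (.pg 6 7 8 [9]) (.pg 2 18 15 [16,1,3,5])) (.t3 [4,14,17])) (.t3 [11,12,13])))), .t 5 (nat_lit 0x12c712c612c512c4) (.z (.nd false 0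 16 (.nd true 5 7 (.pg 5 8 10 [9]) (.fr 2 [3,4,6,7,16,17,18])) (.nd false 0 12 (.pg 12 13 14 [15,2]) (.t3 [0,1,11])))), .t 2 (nat_lit 0x11ab) (.z (.nd false 9 16 (.fr 4 [1,2,3,4,5,6,7,8,10,11,13,14,16,17,18]) (.pg 0 12 15 [9]))), .t 2 (nat_lit 0x11bb) (.z (.nd true 2 17 (.fr 4 [1,2,3,4,5,6,7,8,10,11,12,13,14,15,18]) (.pg 0 16 17 [9]))), .t 1 (nat_lit 0) (.z (.nd false 0 16 (.fr 2 [7,8,9,10,16,17,18]) (.nd true 3 4 (.pg 0 2 3 [5,6]) (.fr 2 [1,4,11,12,13,14,15])))), .t 1 (nat_lit 0) (.z (.nd false 0 1 (.nd true 4 7 (.nd true 3 8 (.pg 3 5 10 [9,2,1,14]) (.t3 [4,6,8])) (.fr 2 [7,12,13,15,16,17,18])) (.t3 [0,11]))), .t 2 (nat_lit 0x925) (.z (.nd true 1 13 (.fr 4 [1,3,4,5,6,7,8,9,10,11,14,15,16,17,18]) (.pg 0 12 13 [2]))), .t 1 (nat_lit 0) (.z (.nd false 0 1 (.nd true 1 3 (.nd false 5 10 (.pg 1 6 10 [9,2]) (.t3 [5,7,8])) (.t3 [3,4,18])) (.nd false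 11 15 (.pg 0 12 13 [15,17]) (.t3 [11,14,16])))), .t 5 (nat_lit 0x137c14a311e511e4) (.z (.nd true 1 13 (.fr 2 [1,4,14,15,16,17,18]) (.nd true 0 2 (.nd true 0 8 (.t3 [0,9,10]) (.pg 7 8 5 [3,6])) (.pg 2 12 11 [13])))), .t 9 (nat_lit 0x130a131714a60c3214a50d1613af14a4) (.z (.nd false 0 4 (.nd false 4 8 (.pg 5 8 10 [9]) (.pg 4 16 17 [18,7,6])) (.fr 3 [0,1,2,3,11,12,13,14,15]))), .t 1 (nat_lit 0) (.z (.nd false 0 12 (.nd true 4 7 (.nd true 2 6 (.pg 2 5 8 [10,9]) (.pg 3 14 4 [6])) (.fr 2 [7,12,13,15,16,17,18])) (.t3 [0,1,11]))), .t 2 (nat_lit 0x11f0) (.z (.nd false 4 5 (.nd false 0 5 (.pg 5 8 10 [9,6]) (.fr 2 [0,1,2,3,11,12,13])) (.fr 2 [4,7,14,15,16,17,18]))), .t 1 (nat_lit 0) (.z (.nd false 0 18 (.nd true 1 3 (.nd false 5 10 (.pg 1 6 10 [9,2]) (.t3 [5,7,8])) (.t3 [3,4,18])) (.nd false 11 16 (.pg 0 12 13 [16,17]) (.t3 [11,14,15])))), .t 3 (nat_lit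 0x14a814a7) (.z (.nd true 0 13 (.fr 4 [0,2,3,4,5,6,7,8,9,10,14,15,16,17,18]) (.pg 1 11 13 [12]))), .t 4 (nat_lit 0xc310ce513af) (.z (.nd false 0 16 (.nd true 2 3 (.nd false 4 8 (.pg 2 5 8 [10,9]) (.pg 4 18 7 [6])) (.t3 [3,16,17])) (.fr 2 [0,1,11,12,13,14,15]))), .t 1 (nat_lit 0) (.z (.nd false 0 14 (.fr 4 [1,2,3,4,5,6,7,8,9,10,14,15,16,17,18]) (.pg 0 11 12 [13]))), .t 1 (nat_lit 0) (.z (.nd false 0 17 (.fr 2 [7,8,9,10,17,18]) (.nd false 1 4 (.pg 0 2 3 [4,5,6]) (.fr 2 [1,11,12,13,14,15,16])))), .t 2 (nat_lit 0x11f0) (.z (.nd false 0 4 (.nd true 5 7 (.pg 5 8 10 [9,6]) (.fr 2 [4,7,14,15,16,17,18])) (.fr 2 [0,1,2,3,11,12,13]))), .t 2 (nat_lit 0x63f) (.z (.nd false 0 16 (.nd true 5 7 (.pg 5 8 10 [9]) (.fr 2 [3,4,6,7,16,17,18])) (.nd false 11 13 (.pg 0 1 12 [13,2]) (.t3 [11,14,15])))), .t 9 (nat_lit 0x14ad14ac14ab11f114aa14a913ab13aa) (.z (.nd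 true 0 1 (.fr 3 [0,2,3,4,5,6,7,8,9,10]) (.nd false 11 17 (.t3 [12,15,17]) (.pg 1 18 16 [14,13,11])))), .t 1 (nat_lit 0) (.z (.nd true 0 3 (.nd false 4 17 (.nd true 7 10 (.pg 0 5 6 [7,8,9]) (.t3 [10,17,18])) (.t3 [4,15,16])) (.fr 2 [1,2,3,11,12,13,14]))), .t 5 (nat_lit 0x136213611360135f) (.z (.nd true 0 4 (.fr 2 [0,5,6,7,8,9,10]) (.nd true 1 11 (.fr 2 [1,13,14,15,16,17,18]) (.pg 11 2 3 [4,12])))), .t 5 (nat_lit 0x14af133014ae0c17) (.z (.nd false 1 7 (.fr 2 [0,2,6,7,8,9,10]) (.nd false 0 16 (.pg 16 18 4 [5,17]) (.fr 2 [1,3,11,12,13,14,15])))), .t 2 (nat_lit 0x87b) (.z (.nd true 10 17 (.fr 4 [1,3,4,5,6,7,8,10,11,12,13,14,15,16,18]) (.pg 0 17 2 [9]))), .t 1 (nat_lit 0) (.z (.nd true 0 3 (.nd false 4 16 (.nd true 7 10 (.pg 0 5 6 [7,8,9]) (.t3 [10,16,18])) (.t3 [4,15,17])) (.fr 2 [1,2,3,11,12,13,14]))), .t 1 (nat_lit 0) (.z (.nd true 9 12 (.fr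 4 [1,2,3,4,5,6,7,8,9,13,14,15,16,17,18]) (.pg 0 11 12 [10]))), .t 3 (nat_lit 0x132c12a8) (.z (.nd true 11 16 (.fr 4 [0,1,2,3,4,5,6,7,8,9,10,11,12,15,18]) (.pg 13 14 17 [16]))), .t 5 (nat_lit 0xf400f3b14b00fda) (.z (.nd false 0 8 (.fr 2 [8,9,10,15,16,17,18]) (.nd true 0 12 (.nd true 4 6 (.pg 0 2 3 [4,5]) (.pg 6 14 13 [7])) (.t3 [1,11,12])))), .t 1 (nat_lit 0) (.z (.nd false 1 4 (.nd false 0 6 (.fr 2 [6,7,8,9,10,16,17]) (.pg 0 2 3 [4,5])) (.fr 2 [1,11,12,13,14,15,18]))), .t 12 (nat_lit 0x14b2064f139c1313065414b112a013b313b213b10652) (.z (.nd false 0 4 (.fr 2 [4,5,6,7,8,9,10]) (.nd true 0 13 (.nd true 2 18 (.t3 [0,2,3]) (.pg 15 14 18 [1,17,16])) (.t3 [11,12,13])))), .t 5 (nat_lit 0x14b5148c14b414b3) (.z (.nd true 1 17 (.fr 2 [1,11,12,13,14,15,16]) (.nd true 0 4 (.fr 2 [0,5,6,7,8,9,10]) (.pg 2 17 18 [3,4])))), .t 9 (nat_lit 0x14b90c3c14b812b60d6c14b714b60c9f)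 (.z (.nd false 1 9 (.t3 [0,2,9]) (.nd false 0 16 (.nd true 8 10 (.pg 16 17 4 [6,8,5]) (.t3 [7,10,18])) (.fr 2 [1,3,11,12,13,14,15])))), .t 4 (nat_lit 0x11b6087b0932) (.z (.nd false 3 9 (.nd true 0 13 (.nd false 15 17 (.pg 0 14 16 [17,2,9]) (.t3 [1,15,18])) (.t3 [11,12,13])) (.fr 2 [3,4,5,6,7,8,10]))), .t 1 (nat_lit 0) (.z (.nd true 0 10 (.pg 0 16 17 [18]) (.fr 4 [1,2,3,4,5,6,7,8,9,10,11,12,13,14,15]))), .t 1 (nat_lit 0) (.z (.nd false 0 18 (.nd true 1 3 (.nd false 5 10 (.pg 1 6 10 [9,2]) (.t3 [5,7,8])) (.t3 [3,4,18])) (.nd false 11 15 (.pg 0 12 13 [15,17]) (.t3 [11,14,16])))), .t 5 (nat_lit 0x14bc069a14bb14ba) (.z (.nd true 0 9 (.t3 [0,10]) (.nd true 1 11 (.fr 2 [1,13,14,15,16,17,18]) (.nd false 0 6 (.pg 6 7 8 [9]) (.pg 2 12 11 [3,4,5]))))), .t 4 (nat_lit 0x411f3000b) (.z (.nd false 15 16 (.fr 2 [0,9,11,12,13,14,16]) (.nd true 1 4 (.nd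 false 0 7 (.t3 [7,8,10]) (.pg 1 3 6 [5,2,17])) (.t3 [4,15,18])))), .t 7 (nat_lit 0x14be14bd1224128b128a1221) (.z (.nd true 0 1 (.fr 3 [0,2,3,4,5,6,7,8,9,10]) (.nd false 11 14 (.pg 14 16 15 [12,13]) (.pg 1 18 17 [11])))), .t 5 (nat_lit 0x11f814c014bf11d4) (.z (.nd false 0 4 (.fr 2 [4,5,6,7,8,9,10]) (.nd true 12 15 (.fr 2 [0,1,2,3,12,16,17]) (.pg 11 18 15 [14,13])))), .t 6 (nat_lit 0x13340e580e4c11e511e4) (.z (.nd true 0 15 (.nd false 4 7 (.nd true 0 8 (.t3 [0,9,10]) (.pg 7 8 5 [3,6])) (.pg 4 17 18 [16])) (.fr 2 [1,2,11,12,13,14,15]))), .t 2 (nat_lit 0x1229) (.z (.nd false 17 18 (.fr 2 [0,11,12,13,14,15,18]) (.nd true 1 4 (.nd false 1 10 (.t3 [2,9,10]) (.pg 1 3 6 [7,8,5])) (.t3 [4,16,17]))))] (by decide +kernel) (by decide +kernel)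
theorem b285 : B 18240 18304 := Blk.of_chk [.t 6 (nat_lit 0x120313340e4b11e511e4) (.z (.nd true 0 15 (.nd false 4 7 (.nd true 0 8 (.t3 [0,9,10]) (.pg 7 8 5 [3,6])) (.pg 4 18 17 [16])) (.fr 2 [1,2,11,12,13,14,15]))), .t 4 (nat_lit 0x11b01991354) (.z (.nd true 3 16 (.pg 1 17 4 [3]) (.fr 4 [0,2,5,6,7,8,9,10,11,12,13,14,15,16,18]))), .t 4 (nat_lit 0x14c214c111fd) (.z (.nd true 0 8 (.fr 2 [0,9,10,15,16,17,18]) (.nd false 0 13 (.nd true 6 8 (.pg 2 3 4 [6,5]) (.pg 7 14 13 [8])) (.t3 [1,11,12])))), .t 3 (nat_lit 0x9250099) (.z (.nd false 0 15 (.nd true 5 7 (.pg 5 8 10 [9]) (.fr 2 [4,6,7,15,16,17,18])) (.nd false 1 11 (.t3 [3,11,14]) (.pg 13 1 2 [0,12])))), .t 3 (nat_lit 0x9250099) (.z (.nd false 0 17 (.fr 2 [6,7,8,9,10,17,18]) (.nd false 1 11 (.fr 2 [3,4,5,11,14,15,16]) (.pg 13 1 2 [0,12])))), .t 7 (nat_lit 0x14c614c514c4090014c311d1) (.z (.nd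 false 9 16 (.nd false 1 10 (.pg 16 17 18 [10,2]) (.fr 2 [1,3,4,5,6,7,8])) (.fr 2 [0,9,11,12,13,14,15]))), .t 3 (nat_lit 0x11fd11ab) (.z (.nd true 1 12 (.fr 2 [1,11,13,14,16,17,18]) (.nd false 2 9 (.pg 0 12 15 [9]) (.nd true 0 6 (.t3 [7,8,10]) (.pg 2 3 4 [6,5]))))), .t 7 (nat_lit 0x14ca14c9136114c814c7135f) (.z (.nd true 0 5 (.fr 2 [0,6,7,8,9,10]) (.nd true 1 11 (.fr 2 [1,13,14,15,16,17,18]) (.pg 11 2 3 [4,5,12])))), .t 1 (nat_lit 0) (.z (.nd false 0 1 (.nd true 1 3 (.nd false 6 10 (.pg 1 5 10 [9,2]) (.t3 [6,7,8])) (.t3 [3,4,18])) (.nd false 11 15 (.pg 0 12 13 [14,15]) (.t3 [11,16,17])))), .t 2 (nat_lit 0x63f) (.z (.nd true 4 7 (.nd false 0 2 (.nd true 2 6 (.pg 2 5 8 [10,9]) (.pg 3 14 4 [6])) (.pg 0 1 12 [13])) (.fr 2 [7,11,15,16,17,18]))), .t 7 (nat_lit 0x1353139e11de13a011eb120f) (.z (.nd true 0 1 (.fr 3 [0,2,3,4,5,6,7,8,9,10]) (.nd true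 11 16 (.pg 11 13 15 [12]) (.pg 1 18 16 [14,17])))), .t 3 (nat_lit 0x9250099) (.z (.nd false 0 16 (.fr 2 [7,8,9,10,16,17,18]) (.nd false 1 11 (.fr 2 [3,4,5,6,11,14,15]) (.pg 13 1 2 [0,12])))), .t 2 (nat_lit 0x11c0) (.z (.nd false 11 15 (.pg 0 12 15 [10]) (.fr 4 [1,2,3,4,5,6,7,8,9,11,13,14,16,17,18]))), .t 6 (nat_lit 0xf4614cb0f4710c210bf) (.z (.nd false 0 6 (.nd false 7 18 (.pg 8 18 10 [9]) (.pg 6 17 16 [7])) (.nd true 0 15 (.pg 0 3 4 [5]) (.fr 2 [1,2,11,12,13,14,15])))), .t 7 (nat_lit 0x14690b7f11d8129d12350c1a) (.z (.nd false 1 7 (.fr 2 [0,2,6,7,8,9,10]) (.nd false 0 13 (.nd false 0 17 (.pg 4 5 17 [18]) (.pg 13 14 16 [15,3])) (.t3 [1,11,12])))), .t 3 (nat_lit 0x12b312b2) (.z (.nd false 0 13 (.nd true 4 8 (.nd true 1 3 (.pg 1 6 10 [9,2]) (.pg 3 14 13 [4])) (.fr 2 [5,7,8,15,16,17,18])) (.t3 [0,11,12]))), .t 1 (nat_lit 0) (.z (.nd false 0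 1 (.nd true 1 3 (.nd false 6 10 (.pg 1 5 10 [9,2]) (.t3 [6,7,8])) (.t3 [3,4,18])) (.nd false 11 15 (.pg 0 12 13 [15,17]) (.t3 [11,14,16])))), .t 4 (nat_lit 0x6147211a9) (.z (.nd false 3 9 (.nd false 11 13 (.pg 0 12 13 [9]) (.fr 2 [1,2,11,14,15,16,18])) (.nd false 0 7 (.t3 [7,8,10]) (.pg 4 5 6 [3,17])))), .t 5 (nat_lit 0x14cc139c131313b1) (.z (.nd true 0 1 (.nd false 0 5 (.fr 2 [5,6,7,8,9,10]) (.pg 4 0 2 [3,18])) (.nd true 0 13 (.pg 1 17 16 [15,14]) (.t3 [11,12,13])))), .t 6 (nat_lit 0x11d411ed11ec11d311eb) (.z (.nd true 1 7 (.fr 2 [0,1,2,5,8,9,10]) (.nd true 3 15 (.fr 2 [3,4,6,7,16,17,18]) (.pg 11 14 15 [13,12])))), .t 8 (nat_lit 0x139f139c11de14ce135214cd130b) (.z (.nd true 0 1 (.fr 3 [0,2,3,4,5,6,7,8,9,10]) (.nd true 0 13 (.pg 1 16 15 [14,17,18]) (.t3 [11,12,13])))), .t 7 (nat_lit 0x14d414d314d214d114d014cf) (.z (.nd true 0 8 (.t3 [0,9,10])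 (.nd false 0 15 (.nd true 4 17 (.t3 [4,16,18]) (.pg 5 15 17 [6,7,8])) (.fr 2 [1,2,3,11,12,13,14])))), .t 3 (nat_lit 0x11ef11ee) (.z (.nd false 0 17 (.nd false 1 3 (.nd false 6 10 (.pg 2 10 9 [18]) (.pg 7 8 6 [3,5])) (.t3 [1,4,17])) (.fr 2 [0,11,12,13,14,15,16]))), .t 5 (nat_lit 0x14d51320131f1269) (.z (.nd false 0 4 (.fr 2 [4,5,6,7,8,9,10]) (.nd false 11 14 (.fr 2 [0,1,2,3,12,13,14]) (.pg 11 18 17 [16,15])))), .t 2 (nat_lit 0x11f0) (.z (.nd false 5 13 (.fr 2 [4,7,13,15,16,17,18]) (.nd false 0 5 (.pg 5 8 10 [9,6]) (.fr 2 [0,1,2,3,11,12,14])))), .t 2 (nat_lit 0x1145) (.z (.nd false 9 11 (.fr 4 [1,2,3,4,5,6,7,8,11,13,14,15,16,17,18]) (.pg 0 12 9 [10]))), .t 3 (nat_lit 0x124611f5) (.z (.nd false 13 16 (.fr 4 [0,1,2,3,4,5,6,7,8,9,10,12,15,16,18]) (.pg 11 17 14 [13]))), .t 2 (nat_lit 0x926) (.z (.nd false 11 14 (.nd false 0 3 (.fr 2 [3,5,6,7,8,9,10])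 (.pg 0 12 13 [14,2])) (.fr 2 [1,4,11,15,16,17,18]))), .t 3 (nat_lit 0x12fa12f9) (.z (.nd true 1 13 (.fr 4 [0,1,2,3,4,5,6,7,8,9,10,14,15,16,18]) (.pg 11 17 13 [12]))), .t 7 (nat_lit 0x125811f211f1125711e511e4) (.z (.nd true 0 16 (.nd true 3 4 (.nd true 0 8 (.t3 [0,9,10]) (.pg 7 8 5 [3,6])) (.t3 [4,17,18])) (.nd false 12 15 (.t3 [1,2,15]) (.pg 11 16 14 [13,12])))), .t 1 (nat_lit 0) (.z (.nd false 11 13 (.pg 0 12 13 [14]) (.fr 4 [1,2,3,4,5,6,7,8,9,10,11,15,16,17,18]))), .t 3 (nat_lit 0x11fd11ae) (.z (.nd true 1 17 (.fr 2 [1,11,13,14,15,16]) (.nd false 2 9 (.pg 0 12 17 [18,9]) (.nd true 0 6 (.t3 [7,8,10]) (.pg 2 3 4 [5,6]))))), .t 3 (nat_lit 0x13b012ec) (.z (.nd false 13 17 (.fr 4 [0,1,2,3,4,5,6,7,8,9,10,12,14,17,18]) (.pg 11 16 15 [13]))), .t 10 (nat_lit 0x13e913e813e7120912c213e613e513bc13e4) (.z (.nd true 0 1 (.fr 3 [0,2,3,4,5,6,7,8,9,10])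 (.nd true 1 13 (.t3 [1,14,15]) (.pg 11 13 16 [17,18,12])))), .t 8 (nat_lit 0x1208120714d814d7120614d61205) (.z (.nd false 3 13 (.fr 2 [4,13,15,16,17,18]) (.nd true 0 3 (.fr 2 [0,5,6,7,8,9,10]) (.pg 3 2 1 [11,12,14])))), .t 12 (nat_lit 0x97a14db14da0e46011b14d901dc019902db13540283) (.z (.nd false 0 5 (.fr 2 [5,6,7,8,9,10]) (.nd true 13 14 (.fr 2 [0,2,12,13,15,16,18]) (.pg 17 14 11 [4,3,1])))), .t 7 (nat_lit 0x143514df13a414de14dd14dc) (.z (.nd true 0 1 (.fr 3 [0,2,3,4,5,6,7,8,9,10]) (.nd true 13 16 (.pg 11 13 17 [1,18,12]) (.t3 [14,15,16])))), .t 7 (nat_lit 0x1225124111e01240120a1209) (.z (.nd true 0 1 (.fr 3 [0,2,3,4,5,6,7,8,9,10]) (.nd true 13 17 (.pg 11 13 16 [12]) (.pg 1 17 15 [14,18])))), .t 2 (nat_lit 0x14e0) (.z (.nd false 0 4 (.nd false 5 8 (.pg 4 8 10 [9,6]) (.fr 2 [5,7,14,15,16,17,18])) (.fr 2 [0,1,2,3,11,12,13]))), .t 1 (nat_lit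 0) (.z (.nd false 11 12 (.pg 0 1 12 [2]) (.fr 4 [3,4,5,6,7,8,9,10,11,13,14,15,16,17,18]))), .t 1 (nat_lit 0) (.z (.nd false 9 18 (.fr 4 [1,2,3,4,5,6,7,8,10,13,14,15,16,17,18]) (.pg 0 11 12 [9]))), .t 9 (nat_lit 0x14e314e214e1132d0ca2147614ae0c17) (.z (.nd true 2 10 (.t3 [0,2,9]) (.nd false 0 16 (.nd false 0 7 (.t3 [7,8,10]) (.pg 16 18 4 [5,6,17])) (.fr 2 [1,3,11,12,13,14,15])))), .t 1 (nat_lit 0) (.z (.nd true 9 14 (.fr 4 [1,2,3,4,5,6,7,8,9,10,11,15,16,17,18]) (.pg 0 12 13 [14]))), .t 2 (nat_lit 0x1229) (.z (.nd true 4 17 (.fr 2 [4,11,12,13,14,16]) (.nd false 0 1 (.nd false 1 10 (.t3 [2,9,10]) (.pg 1 3 6 [7,8,5])) (.pg 0 15 17 [18])))), .t 1 (nat_lit 0) (.z (.nd false 0 6 (.fr 2 [6,7,8,9,10,18]) (.nd false 1 4 (.pg 5 0 2 [3,4,16]) (.fr 2 [1,11,12,13,14,15,17])))), .t 1 (nat_lit 0) (.z (.nd true 0 14 (.nd false 4 16 (.nd true 7 10 (.pg 0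 5 6 [7,8,9]) (.t3 [10,16,18])) (.t3 [4,15,17])) (.fr 2 [1,2,3,11,12,13,14]))), .t 3 (nat_lit 0x1396135a) (.z (.nd true 12 18 (.fr 4 [0,1,2,3,4,5,6,7,8,9,10,12,14,16,17]) (.pg 11 18 15 [13]))), .t 6 (nat_lit 0x126914e614e5126814e4) (.z (.nd false 0 4 (.fr 2 [4,5,6,7,8,9,10]) (.nd false 0 18 (.pg 1 3 2 [18]) (.nd false 11 13 (.t3 [0,12,13]) (.pg 11 16 17 [15,14]))))), .t 2 (nat_lit 0x1229) (.z (.nd false 0 13 (.nd true 1 4 (.nd false 1 10 (.t3 [2,9,10]) (.pg 1 3 6 [7,8,5])) (.fr 2 [4,13,14,15,16,17,18])) (.t3 [0,11,12]))), .t 1 (nat_lit 0) (.z (.nd true 4 8 (.nd false 0 1 (.nd true 1 3 (.pg 1 5 10 [9,2]) (.t3 [3,4,15])) (.pg 0 12 13 [14])) (.fr 2 [6,7,8,11,16,17,18]))), .t 3 (nat_lit 0x11fd11aa) (.z (.nd false 1 4 (.nd false 2 9 (.pg 0 12 14 [9]) (.nd true 0 6 (.t3 [7,8,10]) (.pg 2 3 4 [6,5]))) (.fr 2 [1,11,13,15,16,17,18]))), .t 2 (nat_lit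 0xd94) (.z (.nd true 0 14 (.nd true 4 10 (.pg 4 5 9 [0,15]) (.fr 2 [6,7,8,10,16,17,18])) (.fr 2 [1,2,3,11,12,13,14]))), .t 2 (nat_lit 0x1145) (.z (.nd true 8 12 (.fr 4 [1,2,3,4,5,6,7,8,11,13,14,15,16,17,18]) (.pg 0 12 9 [10]))), .t 11 (nat_lit 0x1701a4142e127312ce14e914e8142c14e71272) (.z (.nd false 0 15 (.nd true 5 7 (.pg 5 8 10 [9]) (.fr 2 [4,6,7,15,16,17,18])) (.nd false 0 1 (.pg 1 12 13 [14,3,2]) (.t3 [0,11])))), .t 7 (nat_lit 0x11ea11e9146911d811ef11ee) (.z (.nd true 0 16 (.nd true 3 4 (.nd true 0 8 (.t3 [0,9,10]) (.pg 7 8 6 [3,5])) (.t3 [4,17,18])) (.nd false 2 13 (.pg 13 14 16 [15]) (.pg 1 11 12 [2])))), .t 5 (nat_lit 0x14ea127011a80863) (.z (.nd false 0 17 (.nd false 1 10 (.pg 10 9 2 [17,18]) (.fr 2 [1,3,4,5,6,7,8])) (.fr 2 [0,11,12,13,14,15,16]))), .t 2 (nat_lit 0x713) (.z (.nd false 0 5 (.fr 2 [5,6,7,8,9,10,18]) (.nd false 1 4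 (.pg 0 2 3 [4,17]) (.fr 2 [1,11,12,13,14,15,16])))), .t 6 (nat_lit 0x11d5125b141712a811d7) (.z (.nd false 0 1 (.nd true 1 3 (.nd false 6 10 (.pg 1 5 10 [9,2]) (.t3 [6,7,8])) (.t3 [3,4,18])) (.nd false 0 13 (.pg 13 14 17 [16,15]) (.t3 [0,11,12])))), .t 5 (nat_lit 0x143614eb0b7411f0) (.z (.nd false 0 18 (.nd true 5 7 (.pg 5 8 10 [9,6]) (.t3 [4,7,18])) (.nd false 0 15 (.pg 3 15 17 [16]) (.fr 2 [0,1,2,11,12,13,14])))), .t 5 (nat_lit 0x136f00bc14ec03f8) (.z (.nd true 1 3 (.nd false 0 13 (.nd false 5 10 (.pg 1 6 10 [9,2,13,14]) (.t3 [5,7,8])) (.t3 [0,11,12])) (.fr 2 [3,4,15,16,17,18]))), .t 1 (nat_lit 0) (.z (.nd false 0 13 (.fr 4 [2,3,4,5,6,7,8,9,10,13,14,15,16,17,18]) (.pg 0 11 12 [1]))), .t 1 (nat_lit 0) (.z (.nd false 0 13 (.nd true 4 7 (.nd true 1 5 (.pg 1 6 8 [10,9,2]) (.t3 [3,4,5])) (.fr 2 [7,13,14,15,16,17,18])) (.t3 [0,11,12]))), .t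 1 (nat_lit 0) (.z (.nd false 0 13 (.nd true 1 3 (.nd false 6 10 (.pg 1 5 10 [9,2]) (.pg 6 7 18 [8])) (.fr 2 [3,4,13,14,15,16,17])) (.t3 [0,11,12]))), .t 3 (nat_lit 0x11fd11ab) (.z (.nd true 1 15 (.fr 2 [1,11,13,14,16,17,18]) (.nd false 2 9 (.pg 0 12 15 [9]) (.nd true 0 6 (.t3 [7,8,10]) (.pg 2 3 4 [6,5])))))] (by decide +kernel) (by decide +kernel)

end Pool.Agent.GCP.C19
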