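import Pool.Agent.GCP.C19Db

set_option autoImplicit false
set_option maxRecDepth 100000

/-! # Blocks C19B2 (generated) -/

namespace Pool.Agent.GCP.C19

open Pool.Agent.GCP DB

theorem b286 : B 18304 18368 := Blk.of_chk [.t 3 (nat_lit 0x126e11d4) (.z (.nd false 0 18 (.nd true 2 3 (.nd false 4 8 (.pg 2 6 8 [10,9]) (.t3 [4,5,7])) (.t3 [1,3,18])) (.nd true 12 15 (.pg 0 12 16 [17]) (.pg 11 15 14 [13])))), .t 3 (nat_lit 0x4000b) (.z (.nd true 0 7 (.fr 2 [0,8,9,10,16,17,18]) (.nd false 4 6 (.pg 1 3 6 [5,2]) (.fr 2 [4,7,11,12,13,14,15])))), .t 4 (nat_lit 0x9d514220a6f) (.z (.nd false 0 12 (.nd false 4 7 (.nd false 3 8 (.pg 2 6 8 [10,9]) (.pg 3 5 7 [18])) (.fr 2 [4,12,13,14,15,16,17])) (.t3 [0,1,11]))), .t 4 (nat_lit 0x14ed0006086c) (.z (.nd false 3 9 (.nd false 2 11 (.fr 2 [1,11,13,14,15,16,17])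 (.pg 0 12 2 [9])) (.nd false 0 7 (.t3 [7,8,10]) (.pg 4 5 6 [3,18])))), .t 4 (nat_lit 0x126f08690865) (.z (.nd false 0 12 (.nd false 4 7 (.nd true 2 8 (.pg 2 18 10 [9]) (.pg 1 3 5 [7,8,6])) (.fr 2 [4,12,13,14,15,16,17])) (.t3 [0,11]))), .t 10 (nat_lit 0x131514f514f414f314f214f114f014ef14ee) (.z (.nd true 0 13 (.nd true 1 3 (.nd true 0 2 (.fr 2 [0,5,6,7,8,9,10]) (.pg 2 17 16 [14,15,1])) (.t3 [3,4,18])) (.t3 [11,12,13]))), .t 4 (nat_lit 0x14f60006086c) (.z (.nd false 3 9 (.nd false 2 11 (.fr 2 [1,11,13,14,15,16,17]) (.pg 0 12 2 [9])) (.nd false 0 7 (.t3 [7,8,10]) (.pg 4 6 5 [3,18])))), .t 6 (nat_lit 0x13b711dc130512fe127c) (.z (.nd false 0 12 (.nd false 3 4 (.nd false 4 8 (.pg 2 6 8 [10,9]) (.t3 [4,5,7])) (.nd false 0 14 (.pg 14 15 18 [17,16]) (.t3 [3,12,13]))) (.t3 [0,1,11]))), .t 4 (nat_lit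 0x11b511ef11ee) (.z (.nd false 9 17 (.nd false 1 10 (.t3 [2,10,17]) (.nd false 1 3 (.pg 7 8 6 [3,5]) (.t3 [1,4,18]))) (.nd true 0 13 (.pg 0 14 15 [16,9]) (.t3 [11,12,13])))), .t 2 (nat_lit 0x86c) (.z (.nd false 2 11 (.fr 4 [1,3,4,5,6,7,8,10,11,13,14,15,16,17,18]) (.pg 0 12 2 [9]))), .t 5 (nat_lit 0x12c8126e11d41257) (.z (.nd true 1 7 (.fr 2 [0,1,2,5,8,9,10]) (.nd true 3 14 (.fr 2 [3,4,6,7,16,17,18]) (.pg 11 15 14 [13,12])))), .t 3 (nat_lit 0x11fd11ba) (.z (.nd true 1 16 (.fr 2 [1,11,12,13,14,17]) (.nd false 2 9 (.pg 0 15 16 [18,9]) (.nd true 0 6 (.t3 [7,8,10]) (.pg 2 3 4 [5,6]))))), .t 3 (nat_lit 0x11b511fd) (.z (.nd false 9 17 (.nd false 0 2 (.nd true 0 6 (.t3 [7,8,10]) (.pg 2 3 4 [6,5])) (.t3 [1,17,18])) (.nd true 0 13 (.pg 0 14 15 [16,9]) (.t3 [11,12,13])))), .t 4 (nat_lit 0x148714860a6f)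 (.z (.nd false 0 12 (.nd false 4 7 (.nd false 3 8 (.pg 2 5 8 [10,9]) (.pg 3 6 7 [18])) (.fr 2 [4,12,13,14,15,16,17])) (.t3 [0,1,11]))), .t 6 (nat_lit 0x1405065313b511bb087b) (.z (.nd true 0 13 (.nd true 1 10 (.nd true 17 18 (.pg 17 2 9 [0,16]) (.pg 1 18 15 [14])) (.fr 2 [3,4,5,6,7,8,10])) (.t3 [11,12,13]))), .t 3 (nat_lit 0x14031402) (.z (.nd false 0 6 (.nd true 6 7 (.pg 6 8 10 [9]) (.pg 7 16 17 [18])) (.nd false 1 3 (.pg 0 2 3 [5]) (.fr 2 [1,4,11,12,13,14,15])))), .t 1 (nat_lit 0) (.z (.nd true 0 3 (.nd false 0 17 (.t3 [10,17,18]) (.nd false 4 7 (.pg 0 5 6 [7,8,9]) (.t3 [4,15,16]))) (.fr 2 [1,2,3,11,12,13,14]))), .t 3 (nat_lit 0x11ac0878) (.z (.nd false 3 9 (.nd false 11 16 (.pg 16 2 9 [0,12]) (.fr 2 [1,11,13,14,15,17,18])) (.fr 2 [3,4,5,6,7,8,10]))), .t 1 (nat_lit 0) (.z (.nd true 0 16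 (.nd true 7 10 (.pg 0 6 7 [8,9]) (.t3 [10,17,18])) (.nd true 1 16 (.pg 1 3 5 [2]) (.fr 2 [4,11,12,13,14,15,16])))), .t 9 (nat_lit 0x12ea12e912e812e712e612e5003912e4) (.z (.nd true 0 5 (.fr 2 [0,6,7,8,9,10]) (.nd false 0 14 (.nd true 1 4 (.pg 2 17 16 [15,1,3,5]) (.t3 [4,14,18])) (.t3 [11,12,13])))), .t 3 (nat_lit 0x147514f7) (.z (.nd false 0 12 (.nd false 4 8 (.nd true 2 3 (.pg 2 5 8 [10,9]) (.pg 3 14 12 [13])) (.fr 2 [4,6,7,15,16,17,18])) (.t3 [0,1,11]))), .t 2 (nat_lit 0x11d1) (.z (.nd true 0 16 (.pg 0 17 18 [10]) (.fr 4 [1,2,3,4,5,6,7,8,9,11,12,13,14,15,16]))), .t 5 (nat_lit 0x133c11d313ac12ec) (.z (.nd false 0 1 (.fr 3 [1,2,3,4,5,6,7,8,9,10]) (.nd true 12 15 (.pg 0 12 17 [18]) (.pg 11 14 16 [15,13])))), .t 10 (nat_lit 0x12ad011b01dc14fa011a14f902dd14f81354) (.z (.nd true 0 4 (.fr 2 [0,5,6,7,8,9,10])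 (.nd false 2 14 (.pg 1 17 14 [4,3]) (.fr 2 [2,11,12,13,15,16,18])))), .t 5 (nat_lit 0x1463146211f413c1) (.z (.nd false 0 7 (.fr 2 [7,8,9,10,16,17,18]) (.nd false 0 2 (.pg 3 4 15 [6,5,2]) (.fr 2 [0,1,11,12,13,14])))), .t 7 (nat_lit 0x14fd133914fc00a2146914fb) (.z (.nd true 0 2 (.fr 3 [0,3,4,5,6,7,8,9,10,18]) (.nd false 1 16 (.pg 13 14 15 [16]) (.pg 11 17 1 [2,12])))), .t 1 (nat_lit 0) (.z (.nd false 2 13 (.fr 4 [3,4,5,6,7,8,9,10,11,12,13,15,16,17,18]) (.pg 0 1 14 [2]))), .t 4 (nat_lit 0x93600a30653) (.z (.nd false 0 4 (.fr 2 [4,5,6,7,8,9,10]) (.nd true 0 13 (.nd true 1 3 (.pg 0 15 16 [18,1,2]) (.t3 [3,14,17])) (.t3 [11,12,13])))), .t 1 (nat_lit 0) (.z (.nd false 0 1 (.nd true 1 3 (.nd false 5 10 (.pg 1 6 10 [9,2]) (.t3 [5,7,8])) (.t3 [3,4,18])) (.nd false 11 16 (.pg 0 12 13 [14,16]) (.t3 [11,15,17])))),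 .t 3 (nat_lit 0x71011f0) (.z (.nd false 0 17 (.nd true 6 7 (.pg 6 8 10 [9,5]) (.t3 [7,17,18])) (.nd true 0 12 (.nd false 14 15 (.pg 0 2 3 [4,15]) (.t3 [13,14,16])) (.t3 [1,11,12])))), .t 5 (nat_lit 0x11fd1211139e064f) (.z (.nd false 9 14 (.nd true 1 2 (.pg 1 18 14 [17]) (.nd true 0 6 (.t3 [7,8,10]) (.pg 2 3 4 [6,5]))) (.fr 2 [0,9,11,12,13,15,16]))), .t 3 (nat_lit 0x14ff14fe) (.z (.nd false 0 3 (.nd true 8 16 (.fr 2 [4,5,7,8,15,17,18]) (.pg 6 10 9 [3,16])) (.fr 2 [0,1,2,11,12,13,14]))), .t 2 (nat_lit 0x11d1) (.z (.nd true 0 9 (.pg 0 10 17 [18]) (.fr 4 [1,2,3,4,5,6,7,8,9,11,12,13,14,15,16]))), .t 3 (nat_lit 0x4000b) (.z (.nd true 0 16 (.fr 2 [0,7,8,9,10,17,18]) (.nd false 4 6 (.pg 1 3 6 [5,2]) (.fr 2 [4,11,12,13,14,15,16])))), .t 1 (nat_lit 0) (.z (.nd true 0 12 (.nd true 7 8 (.nd true 4 5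 (.pg 0 2 3 [4,6,9]) (.t3 [5,7,13])) (.fr 2 [8,10,14,15,16,17,18])) (.t3 [1,11,12]))), .t 3 (nat_lit 0x15011500) (.z (.nd false 0 9 (.pg 9 10 18 [17]) (.fr 4 [0,1,2,3,4,5,6,7,8,11,12,13,14,15,16]))), .t 4 (nat_lit 0x14c514c311d1) (.z (.nd true 0 5 (.nd true 7 10 (.pg 0 6 7 [8,9]) (.pg 10 16 17 [18])) (.fr 3 [1,2,3,4,5,11,12,13,14,15]))), .t 4 (nat_lit 0x1401064b1400) (.z (.nd true 14 17 (.fr 4 [0,2,3,4,5,6,7,8,9,10,12,14,15,16,18]) (.pg 1 17 13 [11]))), .t 2 (nat_lit 0x11a9) (.z (.nd true 2 13 (.fr 4 [1,2,3,4,5,6,7,8,10,11,14,15,16,17,18]) (.pg 0 12 13 [9]))), .t 7 (nat_lit 0x15031469150214fb11e511e4) (.z (.nd true 0 16 (.nd true 3 4 (.nd true 0 8 (.t3 [0,9,10]) (.pg 7 8 5 [3,6])) (.t3 [4,17,18])) (.nd false 0 13 (.pg 13 14 15 [16,2]) (.t3 [1,11,12])))), .t 2 (nat_lit 0x11f0) (.z (.nd false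 0 4 (.nd true 5 7 (.pg 5 8 10 [9,6]) (.t3 [4,7,18])) (.nd true 3 12 (.fr 2 [3,11,13,14,15,16,17]) (.pg 0 1 12 [2])))), .t 1 (nat_lit 0) (.z (.nd false 0 17 (.nd true 1 3 (.nd false 5 10 (.pg 1 6 10 [9,2,17]) (.t3 [5,7,8])) (.t3 [3,4,18])) (.fr 2 [0,11,12,13,14,15,16]))), .t 3 (nat_lit 0x1b8138c) (.z (.nd false 0 13 (.nd false 4 8 (.nd true 2 3 (.pg 2 5 8 [10,9]) (.pg 1 13 14 [3])) (.fr 2 [4,6,7,15,16,17,18])) (.t3 [0,11,12]))), .t 5 (nat_lit 0x136213611360135f) (.z (.nd true 1 11 (.fr 2 [1,13,14,15,16,17,18]) (.nd true 0 4 (.fr 2 [0,5,6,7,8,9,10]) (.pg 11 2 3 [4,12])))), .t 1 (nat_lit 0) (.z (.nd false 0 18 (.nd true 1 3 (.nd false 6 10 (.pg 1 5 10 [9,2]) (.t3 [6,7,8])) (.t3 [3,4,18])) (.nd true 12 14 (.pg 0 12 15 [16,17]) (.t3 [11,13,14])))), .t 1 (nat_lit 0) (.z (.nd false 16 18 (.fr 2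 [0,11,12,13,14,15,18]) (.nd true 1 4 (.nd true 1 7 (.pg 1 5 8 [10,9,2]) (.t3 [3,6,7])) (.t3 [4,16,17])))), .t 1 (nat_lit 0) (.z (.nd true 9 13 (.fr 4 [1,2,3,4,5,6,7,8,9,10,11,14,16,17,18]) (.pg 0 12 13 [15]))), .t 5 (nat_lit 0x15060c2915051504) (.z (.nd true 0 16 (.t3 [0,17,18]) (.nd false 0 4 (.nd false 4 8 (.pg 5 8 10 [9]) (.pg 16 7 6 [4,15])) (.fr 2 [1,2,3,11,12,13,14])))), .t 4 (nat_lit 0x121506451214) (.z (.nd false 14 17 (.fr 4 [0,2,3,4,5,6,7,8,9,10,12,15,16,17,18]) (.pg 1 14 13 [11]))), .t 6 (nat_lit 0x12ab12aa12a912a812a7) (.z (.nd false 0 18 (.nd true 1 3 (.nd false 6 10 (.pg 1 5 10 [9,2]) (.t3 [6,7,8])) (.t3 [3,4,18])) (.nd false 0 13 (.pg 13 14 15 [17,16]) (.t3 [0,11,12])))), .t 5 (nat_lit 0x11eb120f11bc087e) (.z (.nd false 3 9 (.nd false 14 18 (.nd true 0 15 (.pg 18 2 9 [0,16])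 (.pg 11 13 15 [12])) (.t3 [1,14,17])) (.fr 2 [3,4,5,6,7,8,10]))), .t 3 (nat_lit 0x11fd11a9) (.z (.nd true 13 14 (.nd false 2 9 (.pg 0 12 13 [9]) (.nd true 0 6 (.t3 [7,8,10]) (.pg 2 3 4 [6,5]))) (.fr 2 [1,11,14,15,16,17,18]))), .t 3 (nat_lit 0x12ba1253) (.z (.nd true 11 13 (.fr 4 [0,1,2,3,4,5,6,7,8,9,10,11,12,16,17]) (.pg 13 14 18 [15]))), .t 7 (nat_lit 0x11de11d91295129411eb120f) (.z (.nd true 0 1 (.fr 3 [0,2,3,4,5,6,7,8,9,10]) (.nd true 13 17 (.pg 11 13 15 [12]) (.pg 1 18 17 [16,14])))), .t 2 (nat_lit 0x11ab) (.z (.nd false 9 11 (.fr 4 [1,2,3,4,5,6,7,8,10,11,13,14,16,17,18]) (.pg 0 12 15 [9]))), .t 1 (nat_lit 0) (.z (.nd false 0 4 (.fr 2 [4,5,6,7,8,9,10]) (.nd false 0 18 (.pg 1 3 2 [18]) (.nd false 11 13 (.pg 0 12 13 [15,17]) (.t3 [11,14,16]))))), .t 11 (nat_lit 0x150b150a150915081507009f131d131c0641063f)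 (.z (.nd true 0 8 (.t3 [0,9,10]) (.nd true 0 17 (.fr 2 [3,4,5,6,7,8,18]) (.nd false 11 13 (.pg 1 12 13 [15,16,2]) (.t3 [11,14,17]))))), .t 6 (nat_lit 0x125e12ed1260120912bd) (.z (.nd true 0 4 (.fr 2 [0,5,6,7,8,9,10]) (.nd false 14 16 (.pg 11 13 15 [16,12]) (.fr 2 [1,2,3,4,14,17,18])))), .t 1 (nat_lit 0) (.z (.nd false 0 2 (.nd true 5 7 (.pg 2 5 8 [10,9]) (.fr 2 [3,4,6,7,16,17,18])) (.fr 2 [0,1,11,12,13,14,15]))), .t 4 (nat_lit 0x134b11d1134a) (.z (.nd false 0 6 (.nd true 7 10 (.pg 6 7 8 [9]) (.pg 10 18 17 [16])) (.nd false 1 3 (.pg 0 2 3 [5]) (.fr 2 [1,4,11,12,13,14,15])))), .t 4 (nat_lit 0x61472086c) (.z (.nd false 3 9 (.nd false 2 11 (.fr 2 [1,11,13,14,15,16,18]) (.pg 0 12 2 [9])) (.nd false 0 7 (.t3 [7,8,10]) (.pg 4 5 6 [3,17])))), .t 8 (nat_lit 0x146914fb133b133a133913380939) (.z (.nd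 true 0 8 (.t3 [0,9,10]) (.nd false 1 2 (.nd true 11 16 (.pg 11 17 18 [2,12]) (.pg 13 14 15 [16])) (.fr 2 [1,3,4,5,6,7,8])))), .t 3 (nat_lit 0x14441443) (.z (.nd true 0 1 (.fr 4 [0,2,3,4,5,6,7,8,9,10,14,15,16,17,18]) (.pg 1 13 12 [11]))), .t 1 (nat_lit 0) (.z (.nd false 0 18 (.nd true 1 3 (.nd false 6 10 (.pg 1 5 10 [9,2]) (.t3 [6,7,8])) (.t3 [3,4,18])) (.nd false 11 13 (.pg 0 12 13 [15,17]) (.t3 [11,14,16]))))] (by decide +kernel) (by decide +kernel)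
theorem b287 : B 18368 18432 := Blk.of_chk [.t 3 (nat_lit 0xc350c31) (.z (.nd false 0 12 (.nd true 5 7 (.pg 2 5 8 [10,9]) (.nd false 0 4 (.pg 4 18 7 [6]) (.fr 2 [3,12,13,14,15,16,17]))) (.t3 [0,1,11]))), .t 5 (nat_lit 0x11fd13ff065713fe) (.z (.nd false 9 15 (.nd true 1 2 (.pg 1 18 17 [15]) (.nd true 0 6 (.t3 [7,8,10]) (.pg 2 3 4 [6,5]))) (.fr 2 [0,9,11,12,13,14,16]))), .t 1 (nat_lit 0) (.z (.nd true 0 16 (.t3 [0,17,18]) (.nd true 1 4 (.nd true 1 7 (.pg 1 5 8 [10,9,2]) (.t3 [3,6,7])) (.fr 2 [4,11,12,13,14,15,16])))), .t 7 (nat_lit 0x150f150e150d08e5150c11d1) (.z (.nd false 9 14 (.nd false 1 10 (.pg 14 17 18 [10,2]) (.fr 2 [1,3,4,5,6,7,8])) (.fr 2 [0,9,11,12,13,15,16]))), .t 7 (nat_lit 0x125e12ed1260120912bd0939) (.z (.nd false 0 4 (.fr 2 [4,5,6,7,8,9,10]) (.nd false 14 18 (.nd true 0 16 (.pg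 0 17 18 [2]) (.pg 11 13 15 [16,12])) (.t3 [1,3,14])))), .t 8 (nat_lit 0x13cd13cb125e12ed1260120912bd) (.z (.nd true 0 1 (.fr 3 [0,2,3,4,5,6,7,8,9,10]) (.nd true 13 17 (.pg 11 13 15 [16,12]) (.pg 1 18 17 [14])))), .t 3 (nat_lit 0x4000b) (.z (.nd false 4 18 (.nd true 0 6 (.fr 2 [0,7,8,9,10,17,18]) (.pg 1 3 6 [5,2])) (.fr 2 [4,11,12,13,14,15,16]))), .t 4 (nat_lit 0x11b9087b0935) (.z (.nd false 3 9 (.nd true 0 13 (.nd true 1 16 (.t3 [1,14,18]) (.pg 0 15 16 [17,2,9])) (.t3 [11,12,13])) (.fr 2 [3,4,5,6,7,8,10]))), .t 2 (nat_lit 0x126f) (.z (.nd true 4 17 (.fr 2 [4,11,12,13,14,16]) (.nd false 0 1 (.nd false 1 10 (.t3 [2,9,10]) (.pg 1 3 5 [7,8,6])) (.pg 0 15 17 [18])))), .t 6 (nat_lit 0x1512066715111510137a) (.z (.nd true 0 4 (.fr 2 [0,5,6,7,8,9,10]) (.nd true 1 12 (.fr 2 [1,11,13,14,16,17,18]) (.pg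 12 2 3 [4,15])))), .t 5 (nat_lit 0x125811f211f11257) (.z (.nd true 1 7 (.fr 2 [0,1,2,5,8,9,10]) (.nd true 3 14 (.fr 2 [3,4,6,7,15,17,18]) (.pg 11 16 14 [13,12])))), .t 2 (nat_lit 0x712) (.z (.nd false 0 5 (.fr 2 [5,6,7,8,9,10,18]) (.nd false 1 4 (.pg 0 2 3 [4,16]) (.fr 2 [1,11,12,13,14,15,17])))), .t 9 (nat_lit 0x12b712b615130d380d440d370d6c12b5) (.z (.nd false 1 9 (.t3 [0,2,9]) (.nd false 0 16 (.nd true 4 7 (.pg 8 10 6 [16,17,4,5]) (.t3 [7,18])) (.fr 2 [1,3,11,12,13,14,15])))), .t 6 (nat_lit 0x1517151611ee15151514) (.z (.nd false 2 10 (.t3 [0,9,10]) (.nd false 0 3 (.nd true 4 17 (.t3 [4,16,18]) (.pg 7 8 6 [3,17,5])) (.fr 2 [1,2,11,12,13,14,15])))), .t 1 (nat_lit 0) (.z (.nd false 0 4 (.fr 2 [4,5,6,7,8,9,10]) (.nd false 0 18 (.pg 1 3 2 [18]) (.nd true 0 13 (.pg 0 14 15 [16,17]) (.t3 [11,12,13]))))),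 .t 2 (nat_lit 0x1145) (.z (.nd false 9 15 (.fr 4 [1,2,3,4,5,6,7,8,11,13,14,15,16,17,18]) (.pg 0 12 9 [10]))), .t 4 (nat_lit 0x11bc087e0938) (.z (.nd false 3 9 (.nd true 0 13 (.nd false 15 17 (.pg 0 16 17 [18,2,9]) (.t3 [1,14,15])) (.t3 [11,12,13])) (.fr 2 [3,4,5,6,7,8,10]))), .t 6 (nat_lit 0x982136a151813690e41) (.z (.nd false 0 12 (.nd false 0 16 (.t3 [16,17,18]) (.nd true 2 4 (.nd false 6 8 (.pg 2 5 8 [10,9]) (.t3 [6,7,15])) (.pg 12 13 14 [4,3]))) (.t3 [0,1,11]))), .t 3 (nat_lit 0x868124a) (.z (.nd false 0 18 (.nd false 1 10 (.pg 2 18 10 [9]) (.fr 2 [1,3,4,5,6,7,8])) (.nd false 11 15 (.pg 0 12 13 [15,17]) (.t3 [11,14,16])))), .t 7 (nat_lit 0x125811f211f1125711ef11ee) (.z (.nd true 0 16 (.nd true 3 4 (.nd true 0 8 (.t3 [0,9,10]) (.pg 7 8 6 [3,5])) (.t3 [4,17,18])) (.nd true 1 14 (.t3 [1,2,15])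 (.pg 11 16 14 [13,12])))), .t 5 (nat_lit 0x14751474142d1473) (.z (.nd false 0 15 (.nd true 5 7 (.pg 5 8 10 [9]) (.fr 2 [4,6,7,15,16,17,18])) (.nd false 0 12 (.pg 3 2 14 [12,13]) (.t3 [0,1,11])))), .t 5 (nat_lit 0x15190bea0c150e4b) (.z (.nd false 1 16 (.nd false 7 9 (.nd true 3 5 (.pg 0 2 3 [6,9]) (.pg 4 5 16 [17])) (.t3 [7,8,10])) (.fr 2 [1,11,12,13,14,15,18]))), .t 6 (nat_lit 0x125e12ed1260120912bd) (.z (.nd true 0 1 (.nd false 0 4 (.fr 2 [4,5,6,7,8,9,10]) (.pg 0 2 18 [3])) (.nd true 13 17 (.pg 11 13 15 [16,12]) (.t3 [1,14,17])))), .t 3 (nat_lit 0xc230c21) (.z (.nd true 0 12 (.nd true 7 8 (.nd true 3 7 (.pg 0 2 3 [5,9]) (.pg 4 14 7 [6])) (.fr 2 [8,10,13,15,16,17,18])) (.t3 [1,11,12]))), .t 3 (nat_lit 0x11e511e4) (.z (.nd false 0 13 (.nd false 1 3 (.nd false 3 10 (.pg 2 10 9 [14]) (.pg 7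 8 5 [3,6])) (.fr 2 [1,4,13,15,16,17,18])) (.t3 [0,11,12]))), .t 2 (nat_lit 0x11ac) (.z (.nd false 3 9 (.nd false 11 16 (.pg 0 12 15 [16,9]) (.fr 2 [1,2,11,13,14,17,18])) (.fr 2 [3,4,5,6,7,8,10]))), .t 1 (nat_lit 0) (.z (.nd false 0 13 (.nd true 1 4 (.nd true 1 7 (.pg 1 6 8 [10,9,2]) (.t3 [3,5,7])) (.fr 2 [4,13,14,15,16,17,18])) (.t3 [0,11,12]))), .t 5 (nat_lit 0x125811f211f11257) (.z (.nd true 1 7 (.fr 2 [0,1,2,6,8,9,10]) (.nd true 3 16 (.fr 2 [3,4,5,7,15,17,18]) (.pg 11 16 14 [13,12])))), .t 8 (nat_lit 0x151b12c812eb11f2151a11f11257) (.z (.nd true 0 8 (.t3 [0,9,10]) (.nd true 1 4 (.fr 2 [1,2,3,5,6,7,8]) (.nd false 0 17 (.t3 [4,17,18]) (.pg 11 15 16 [14,13,12]))))), .t 7 (nat_lit 0x14690b7f11d8129d12740ca7) (.z (.nd false 1 7 (.fr 2 [0,2,5,7,8,9,10]) (.nd false 0 13 (.nd false 0 17 (.pg 4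 6 17 [18]) (.pg 13 14 16 [15,3])) (.t3 [1,11,12])))), .t 7 (nat_lit 0x125e12ed1260120912bd087e) (.z (.nd false 3 9 (.nd true 13 17 (.nd true 0 16 (.pg 0 18 2 [9]) (.pg 11 13 15 [16,12])) (.t3 [1,14,17])) (.fr 2 [3,4,5,6,7,8,10]))), .t 3 (nat_lit 0x11ef11ee) (.z (.nd false 0 17 (.nd false 1 3 (.nd false 6 10 (.pg 2 10 9 [17]) (.pg 7 8 6 [3,5])) (.t3 [1,4,18])) (.fr 2 [0,11,12,13,14,15,16]))), .t 4 (nat_lit 0x126e11d411ad) (.z (.nd false 2 9 (.nd true 12 15 (.pg 0 12 16 [17,9]) (.pg 11 15 14 [13])) (.fr 3 [1,2,3,4,5,6,7,8,10,18]))), .t 3 (nat_lit 0x151c1269) (.z (.nd false 0 18 (.nd false 1 10 (.pg 2 10 9 [18]) (.fr 2 [1,3,4,5,6,7,8])) (.nd false 11 14 (.pg 0 12 13 [14]) (.pg 11 17 16 [15])))), .t 4 (nat_lit 0x11b01991354) (.z (.nd false 1 6 (.fr 4 [0,2,5,6,7,8,9,10,11,12,13,14,15,16,18]) (.pg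 1 17 4 [3]))), .t 6 (nat_lit 0x133e133d151d13af0ce5) (.z (.nd false 0 3 (.nd false 3 8 (.pg 5 8 10 [9]) (.nd false 0 17 (.pg 4 17 18 [7,6]) (.t3 [3,15,16]))) (.fr 2 [0,1,2,11,12,13,14]))), .t 3 (nat_lit 0xb7606a7) (.z (.nd true 1 18 (.fr 2 [1,11,12,13,14,15,17]) (.nd false 0 4 (.fr 2 [4,5,6,7,8,9,10]) (.pg 18 2 3 [0,16])))), .t 3 (nat_lit 0x12c612cc) (.z (.nd false 0 12 (.nd true 6 7 (.pg 2 6 8 [10,9]) (.nd false 0 16 (.fr 2 [3,4,5,7,16,17,18]) (.pg 12 13 15 [14]))) (.t3 [0,1,11]))), .t 5 (nat_lit 0x14ed000611bb087b) (.z (.nd false 3 9 (.nd true 0 13 (.nd false 15 17 (.pg 17 2 9 [0,16]) (.t3 [1,14,15])) (.t3 [11,12,13])) (.nd false 0 7 (.t3 [7,8,10]) (.pg 4 5 6 [3,18])))), .t 5 (nat_lit 0x12cc1520151f151e) (.z (.nd false 0 16 (.nd true 5 7 (.pg 5 8 10 [9]) (.fr 2 [3,4,6,7,16,17,18])) (.nd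 false 0 12 (.pg 15 2 14 [12,13]) (.t3 [0,1,11])))), .t 6 (nat_lit 0x141522152112ce14e9) (.z (.nd true 13 14 (.nd true 0 3 (.fr 2 [0,5,6,7,8,9,10]) (.pg 1 12 13 [3,2])) (.fr 2 [4,11,14,15,16,17,18]))), .t 3 (nat_lit 0x11e511e4) (.z (.nd false 3 11 (.fr 2 [1,4,11,15,16,17,18]) (.nd false 0 2 (.nd true 2 8 (.t3 [2,9,10]) (.pg 7 8 5 [3,6])) (.pg 0 12 13 [14])))), .t 1 (nat_lit 0) (.z (.nd false 2 13 (.fr 4 [3,4,5,6,7,8,9,10,11,13,14,15,16,17,18]) (.pg 0 1 12 [2]))), .t 2 (nat_lit 0x11ab) (.z (.nd false 9 17 (.fr 4 [1,2,3,4,5,6,7,8,10,11,13,14,16,17,18]) (.pg 0 12 15 [9]))), .t 1 (nat_lit 0) (.z (.nd false 13 18 (.pg 0 11 12 [18]) (.fr 4 [1,2,3,4,5,6,7,8,9,10,13,14,15,16,17]))), .t 7 (nat_lit 0x152413ff0657152313fe11fd) (.z (.nd false 9 11 (.nd false 0 2 (.nd true 0 6 (.t3 [7,8,10]) (.pg 2 3 4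 [5,6])) (.nd false 0 15 (.pg 1 18 17 [15,16]) (.t3 [11,13,14]))) (.t3 [0,9,12]))), .t 4 (nat_lit 0x120019c1301) (.z (.nd true 4 16 (.pg 1 18 4 [3]) (.fr 4 [0,2,5,6,7,8,9,10,11,12,13,14,15,16,17]))), .t 3 (nat_lit 0x11fd11a9) (.z (.nd true 1 13 (.fr 2 [1,11,14,15,16,17,18]) (.nd false 2 9 (.pg 0 12 13 [9]) (.nd true 0 6 (.t3 [7,8,10]) (.pg 2 3 4 [6,5]))))), .t 7 (nat_lit 0x1212ce13571526152511e1) (.z (.nd true 0 15 (.fr 3 [0,5,6,7,8,9,10,16,17,18]) (.nd false 3 11 (.pg 11 15 4 [14,13]) (.pg 1 12 3 [2])))), .t 11 (nat_lit 0x136209720669152d152c152b152a152915281527) (.z (.nd true 1 13 (.fr 2 [1,14,15,16,17,18]) (.nd true 0 4 (.fr 2 [0,5,6,7,8,9,10]) (.pg 11 13 2 [3,4,12])))), .t 3 (nat_lit 0x13e213e1) (.z (.nd false 0 12 (.nd true 2 7 (.pg 2 5 8 [10,9]) (.nd false 0 15 (.fr 2 [4,6,7,15,16,17,18])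 (.pg 3 12 13 [14]))) (.t3 [0,1,11]))), .t 4 (nat_lit 0x124a1312007f) (.z (.nd false 14 17 (.fr 2 [0,11,12,13,15,16,17]) (.nd true 1 3 (.nd false 6 10 (.pg 2 18 1 [5,10,9]) (.t3 [6,7,8])) (.t3 [3,4,14])))), .t 2 (nat_lit 0x11a9) (.z (.nd true 10 13 (.fr 4 [1,2,3,4,5,6,7,8,10,11,14,15,16,17,18]) (.pg 0 12 13 [9]))), .t 7 (nat_lit 0x120512861208018e1430122c) (.z (.nd true 0 8 (.fr 2 [0,9,10,15,16,17,18]) (.nd false 0 5 (.pg 5 6 7 [8]) (.nd false 3 13 (.t3 [4,13,14]) (.pg 1 12 11 [3,2]))))), .t 4 (nat_lit 0x133019c152e) (.z (.nd false 0 17 (.nd true 5 7 (.nd true 2 5 (.pg 2 6 8 [10,9]) (.pg 1 3 5 [18])) (.t3 [4,7,17])) (.fr 2 [0,11,12,13,14,15,16]))), .t 3 (nat_lit 0x132c132b) (.z (.nd false 0 18 (.nd true 1 3 (.nd false 6 10 (.pg 1 5 10 [9,2]) (.t3 [6,7,8])) (.t3 [3,4,18])) (.nd false 11 13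 (.pg 0 12 13 [15]) (.pg 11 14 17 [16])))), .t 4 (nat_lit 0x1403140211f0) (.z (.nd false 0 5 (.nd true 6 7 (.pg 6 8 10 [9,5]) (.pg 7 16 17 [18])) (.fr 3 [0,1,2,3,4,11,12,13,14,15]))), .t 1 (nat_lit 0) (.z (.nd true 4 7 (.nd true 0 1 (.nd false 0 6 (.pg 6 8 10 [9]) (.pg 0 2 3 [4,5])) (.t3 [1,12,13])) (.fr 2 [7,11,14,15,16,17,18]))), .t 3 (nat_lit 0x11e511e4) (.z (.nd false 1 10 (.fr 2 [0,2,9,10,12,13,14]) (.nd false 1 3 (.pg 7 8 5 [3,6]) (.fr 2 [1,4,11,15,16,17,18])))), .t 8 (nat_lit 0x1531153006401509152f11e511e4) (.z (.nd true 0 16 (.nd true 3 4 (.nd true 0 8 (.t3 [0,9,10]) (.pg 7 8 5 [3,6])) (.t3 [4,17,18])) (.nd true 12 13 (.pg 1 12 14 [16,2]) (.t3 [11,13,15])))), .t 3 (nat_lit 0x132c132b) (.z (.nd false 0 4 (.fr 2 [4,5,6,7,8,9,10]) (.nd false 0 18 (.pg 1 3 2 [18]) (.nd false 11 15 (.pg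 0 12 13 [15]) (.pg 11 14 17 [16]))))), .t 2 (nat_lit 0x11f0) (.z (.nd false 0 17 (.nd true 5 7 (.pg 5 8 10 [9,6]) (.t3 [7,17,18])) (.nd false 1 4 (.pg 0 2 3 [4]) (.fr 2 [1,11,12,13,14,15,16])))), .t 1 (nat_lit 0) (.z (.nd false 0 18 (.nd false 1 10 (.pg 2 10 9 [18]) (.fr 2 [1,3,4,5,6,7,8])) (.nd false 11 16 (.pg 0 12 13 [16,17]) (.t3 [11,14,15])))), .t 1 (nat_lit 0) (.z (.nd true 0 4 (.nd false 8 14 (.fr 2 [7,10,14,15,16,17,18]) (.pg 0 5 6 [8,9])) (.fr 2 [1,2,3,4,11,12,13])))] (by decide +kernel) (by decide +kernel)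
theorem b288 : B 18432 18496 := Blk.of_chk [.t 3 (nat_lit 0x11fd11ac) (.z (.nd true 1 16 (.fr 2 [1,11,13,14,15,17,18]) (.nd false 2 9 (.pg 0 12 16 [9]) (.nd true 0 6 (.t3 [7,8,10]) (.pg 2 3 4 [6,5]))))), .t 5 (nat_lit 0x125813b012ec11eb) (.z (.nd false 0 17 (.fr 2 [6,7,8,9,10,17,18]) (.nd true 14 15 (.fr 2 [0,1,2,3,4,5,14]) (.pg 11 16 15 [13,12])))), .t 3 (nat_lit 0xbb30bb0) (.z (.nd false 0 1 (.nd true 1 7 (.pg 1 6 8 [10,9,2]) (.nd false 0 4 (.pg 4 18 7 [5]) (.fr 2 [3,12,13,14,15,16,17]))) (.t3 [0,11]))), .t 4 (nat_lit 0x82007b30866) (.z (.nd false 0 17 (.nd true 2 3 (.nd false 4 8 (.pg 9 18 2 [6,8,10]) (.t3 [4,5,7])) (.t3 [1,3,17])) (.fr 2 [0,11,12,13,14,15,16]))), .t 4 (nat_lit 0x129b129a1229) (.z (.nd true 2 16 (.fr 2 [0,2,8,9,10,17,18]) (.nd true 1 4 (.pg 1 3 6 [7,5]) (.fr 2 [4,11,12,13,14,15,16])))),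 .t 5 (nat_lit 0x942000611bb087b) (.z (.nd false 3 9 (.nd true 0 13 (.nd false 15 17 (.pg 17 2 9 [0,16]) (.t3 [1,14,15])) (.t3 [11,12,13])) (.nd false 0 7 (.t3 [7,8,10]) (.pg 4 6 5 [3,18])))), .t 1 (nat_lit 0) (.z (.nd false 0 18 (.nd true 1 3 (.nd false 5 10 (.pg 1 6 10 [9,2]) (.t3 [5,7,8])) (.t3 [3,4,18])) (.nd false 11 14 (.pg 0 12 13 [14,16]) (.t3 [11,15,17])))), .t 2 (nat_lit 0x1229) (.z (.nd false 0 13 (.nd false 4 7 (.nd false 1 10 (.t3 [2,9,10]) (.pg 1 3 6 [7,8,5])) (.fr 2 [4,13,14,15,16,17,18])) (.t3 [0,11,12]))), .t 2 (nat_lit 0x11aa) (.z (.nd false 3 9 (.nd false 11 14 (.pg 0 12 13 [14,9]) (.fr 2 [1,2,11,15,16,17,18])) (.fr 2 [3,4,5,6,7,8,10]))), .t 1 (nat_lit 0) (.z (.nd true 2 16 (.nd true 4 7 (.nd false 0 6 (.pg 6 8 10 [9]) (.pg 0 2 3 [4,5])) (.t3 [7,17,18])) (.fr 2 [1,11,12,13,14,15,16]))),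 .t 1 (nat_lit 0) (.z (.nd false 0 7 (.fr 2 [7,8,9,10,16,17,18]) (.nd true 0 12 (.nd true 4 15 (.pg 0 2 3 [4,5,6]) (.t3 [13,14,15])) (.t3 [1,11,12])))), .t 14 (nat_lit 0x12b0153602f4153513541311153414fa09b215331532011b011a) (.z (.nd false 0 9 (.t3 [9,10]) (.nd true 0 13 (.nd true 0 4 (.pg 0 5 6 [7,8]) (.nd true 1 16 (.pg 4 3 1 [17,15,14]) (.t3 [2,16,18]))) (.t3 [11,12,13])))), .t 7 (nat_lit 0x15391538065314b113d11537) (.z (.nd false 1 4 (.nd true 4 7 (.nd false 0 6 (.pg 6 8 10 [9]) (.pg 0 2 3 [4,5])) (.t3 [7,16])) (.nd false 0 14 (.pg 14 18 17 [15,1]) (.t3 [11,12,13])))), .t 8 (nat_lit 0x12c8126e11d4125713840e4d1383) (.z (.nd true 1 4 (.fr 3 [0,1,2,3,5,6,7,8,9,10]) (.nd false 0 16 (.pg 4 18 17 [16]) (.pg 11 15 14 [13,12])))), .t 3 (nat_lit 0x11fd11b8) (.z (.nd true 1 16 (.fr 2 [1,11,12,13,14,17,18])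 (.nd false 2 9 (.pg 0 15 16 [9]) (.nd true 0 6 (.t3 [7,8,10]) (.pg 2 3 4 [5,6]))))), .t 2 (nat_lit 0x11c1) (.z (.nd true 9 16 (.fr 4 [1,2,3,4,5,6,7,8,9,11,13,14,15,17,18]) (.pg 0 12 16 [10]))), .t 1 (nat_lit 0) (.z (.nd false 0 17 (.nd true 2 7 (.pg 2 5 8 [10,9]) (.fr 2 [1,3,4,6,7,17,18])) (.fr 2 [0,11,12,13,14,15,16]))), .t 3 (nat_lit 0x9250099) (.z (.nd false 0 4 (.nd false 4 8 (.pg 5 8 10 [9]) (.fr 2 [4,6,7,15,16,17,18])) (.nd true 1 3 (.pg 13 1 2 [0,12]) (.t3 [3,11,14])))), .t 2 (nat_lit 0x77f) (.z (.nd false 0 6 (.fr 2 [6,7,8,9,10,17,18]) (.nd false 1 3 (.pg 0 2 3 [5,16]) (.fr 2 [1,4,11,12,13,14,15])))), .t 5 (nat_lit 0x153b137c153a0709) (.z (.nd false 4 14 (.fr 2 [1,3,14,15,16,17,18]) (.nd true 0 4 (.fr 2 [0,5,6,7,8,9,10]) (.pg 11 13 4 [2,12])))), .t 1 (nat_lit 0) (.z (.nd false 17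 18 (.fr 2 [0,11,12,13,14,16,18]) (.nd true 1 4 (.nd true 1 7 (.pg 1 6 8 [10,9,2]) (.t3 [3,5,7])) (.t3 [4,15,17])))), .t 3 (nat_lit 0xe4811f0) (.z (.nd true 0 3 (.nd false 0 17 (.nd true 5 7 (.pg 5 8 10 [9,6]) (.t3 [7,17,18])) (.pg 0 4 15 [16])) (.fr 2 [1,2,3,11,12,13,14]))), .t 5 (nat_lit 0x1399153e153d153c) (.z (.nd false 0 4 (.fr 2 [4,5,6,7,8,9,10]) (.nd false 0 15 (.pg 18 3 16 [15,17]) (.fr 2 [0,1,2,11,12,13,14])))), .t 7 (nat_lit 0x91c1541154008e6153f11d1) (.z (.nd false 9 15 (.nd false 1 10 (.pg 15 17 18 [10,2]) (.fr 2 [1,3,4,5,6,7,8])) (.fr 2 [0,9,11,12,13,14,16]))), .t 2 (nat_lit 0x11f0) (.z (.nd false 0 4 (.nd true 6 7 (.pg 6 8 10 [9,5]) (.fr 2 [4,7,14,15,16,17,18])) (.fr 2 [0,1,2,3,11,12,13]))), .t 3 (nat_lit 0x9250099) (.z (.nd false 0 7 (.fr 2 [7,8,9,10,16,17,18]) (.nd false 1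 11 (.fr 2 [3,4,5,6,11,14,15]) (.pg 13 1 2 [0,12])))), .t 3 (nat_lit 0x1305127c) (.z (.nd false 1 17 (.pg 14 18 17 [16]) (.fr 4 [0,1,2,3,4,5,6,7,8,9,10,11,12,13,15]))), .t 1 (nat_lit 0) (.z (.nd false 2 12 (.fr 4 [3,4,5,6,7,8,9,10,11,12,13,15,16,17,18]) (.pg 0 1 14 [2]))), .t 1 (nat_lit 0) (.z (.nd false 17 18 (.nd false 11 14 (.pg 0 12 13 [14,18]) (.t3 [11,15,16])) (.nd true 1 3 (.nd false 6 10 (.pg 1 5 10 [9,2]) (.t3 [6,7,8])) (.t3 [3,4,17])))), .t 2 (nat_lit 0x11f0) (.z (.nd false 6 13 (.fr 2 [4,7,13,15,16,17,18]) (.nd false 0 5 (.pg 6 8 10 [9,5]) (.fr 2 [0,1,2,3,11,12,14])))), .t 6 (nat_lit 0x1260120f125f125e00a3) (.z (.nd false 0 4 (.fr 2 [4,5,6,7,8,9,10]) (.nd true 1 3 (.nd true 0 16 (.pg 0 18 1 [2]) (.pg 11 13 16 [15,12])) (.t3 [3,14,17])))), .t 3 (nat_lit 0x11f1120e) (.z (.nd true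 12 16 (.fr 4 [0,1,2,3,4,5,6,7,8,9,10,12,15,17,18]) (.pg 11 14 16 [13]))), .t 6 (nat_lit 0x13ab065613aa11b9087b) (.z (.nd true 0 13 (.nd true 1 10 (.nd true 17 18 (.pg 17 2 9 [0,15]) (.pg 1 18 16 [14])) (.fr 2 [3,4,5,6,7,8,10])) (.t3 [11,12,13]))), .t 2 (nat_lit 0x1229) (.z (.nd false 15 17 (.fr 2 [0,11,12,13,14,16,17]) (.nd true 1 4 (.nd false 1 10 (.t3 [2,9,10]) (.pg 1 3 6 [7,8,5])) (.t3 [4,15,18])))), .t 5 (nat_lit 0x12c8126e11d41257) (.z (.nd true 1 7 (.fr 2 [0,1,2,5,8,9,10]) (.nd true 3 15 (.fr 2 [3,4,6,7,16,17,18]) (.pg 11 15 14 [13,12])))), .t 1 (nat_lit 0) (.z (.nd false 0 18 (.nd true 1 3 (.nd false 6 10 (.pg 1 5 10 [9,2]) (.t3 [6,7,8])) (.t3 [3,4,18])) (.nd true 0 13 (.pg 0 14 15 [16,17]) (.t3 [11,12,13])))), .t 7 (nat_lit 0x125e12ed1260120912bd0939) (.z (.nd true 3 9 (.nd false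 14 18 (.nd true 0 16 (.pg 0 17 18 [2]) (.pg 11 13 15 [16,12])) (.t3 [1,3,14])) (.fr 2 [4,5,6,7,8,9,10]))), .t 2 (nat_lit 0x11f0) (.z (.nd false 4 5 (.nd false 0 5 (.pg 5 8 10 [9,6]) (.fr 2 [0,1,2,3,12,13,14])) (.fr 2 [4,7,11,15,16,17,18]))), .t 1 (nat_lit 0) (.z (.nd true 3 13 (.fr 2 [1,3,11,15,16,17,18]) (.nd false 0 2 (.nd false 4 8 (.pg 2 6 8 [10,9]) (.t3 [4,5,7])) (.pg 0 12 13 [14])))), .t 6 (nat_lit 0x12f200a612f112f00099) (.z (.nd true 0 8 (.fr 2 [0,9,10,15,16,17,18]) (.nd false 1 11 (.fr 2 [3,4,5,7,8,11,14]) (.pg 2 12 13 [1,6])))), .t 7 (nat_lit 0x11ea11e912a412a311e511e4) (.z (.nd true 0 16 (.nd true 3 4 (.nd true 0 8 (.t3 [0,9,10]) (.pg 7 8 5 [3,6])) (.t3 [4,17,18])) (.nd false 2 13 (.pg 13 16 15 [14]) (.pg 1 11 12 [2])))), .t 3 (nat_lit 0x4000b) (.z (.nd true 0 6 (.fr 2 [0,7,8,9,10,17,18])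 (.nd true 1 15 (.pg 1 3 6 [5,2]) (.fr 2 [4,11,12,13,14,15,16])))), .t 5 (nat_lit 0x1460145f145e141f) (.z (.nd false 0 4 (.nd false 4 8 (.pg 6 8 10 [9]) (.fr 2 [4,5,7,15,16,17,18])) (.nd true 1 3 (.t3 [0,1,2]) (.pg 11 14 3 [13,12])))), .t 3 (nat_lit 0x4000b) (.z (.nd true 0 16 (.fr 2 [0,7,8,9,10,17,18]) (.nd true 1 16 (.pg 1 3 6 [5,2]) (.fr 2 [4,11,12,13,14,15,16])))), .t 1 (nat_lit 0) (.z (.nd false 0 2 (.fr 4 [2,3,4,5,6,7,8,9,10,13,14,15,16,17,18]) (.pg 0 11 12 [1]))), .t 3 (nat_lit 0xb9e1542) (.z (.nd false 0 13 (.nd false 8 9 (.nd true 3 7 (.pg 1 3 6 [9,2]) (.pg 4 13 7 [5])) (.fr 2 [8,10,14,15,16,17,18])) (.t3 [0,11,12]))), .t 2 (nat_lit 0x126f) (.z (.nd false 0 13 (.nd false 4 7 (.nd false 1 10 (.t3 [2,9,10]) (.pg 1 3 5 [7,8,6])) (.fr 2 [4,13,14,15,16,17,18])) (.t3 [0,11,12]))), .t 1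 (nat_lit 0) (.z (.nd true 3 4 (.nd false 5 9 (.pg 0 2 3 [6,9]) (.fr 2 [5,7,8,10,16,17,18])) (.fr 2 [1,4,11,12,13,14,15]))), .t 3 (nat_lit 0x109138d) (.z (.nd false 0 13 (.nd false 5 8 (.nd true 2 4 (.pg 2 6 8 [10,9]) (.pg 1 13 4 [3])) (.fr 2 [5,7,14,15,16,17,18])) (.t3 [0,11,12]))), .t 1 (nat_lit 0) (.z (.nd false 0 4 (.fr 2 [4,5,6,7,8,9,10]) (.nd false 0 18 (.pg 1 3 2 [18]) (.nd false 11 14 (.pg 0 12 13 [14,16]) (.t3 [11,15,17]))))), .t 7 (nat_lit 0x1315134711de11d912951294) (.z (.nd true 0 13 (.nd true 0 1 (.fr 3 [0,2,3,4,5,6,7,8,9,10]) (.pg 1 18 17 [16,14,15])) (.t3 [11,12,13]))), .t 3 (nat_lit 0x132c132b) (.z (.nd false 0 18 (.nd false 1 10 (.pg 2 10 9 [18]) (.fr 2 [1,3,4,5,6,7,8])) (.nd false 11 15 (.pg 0 12 13 [15]) (.pg 11 14 17 [16])))), .t 5 (nat_lit 0x1211139e064f11fd) (.z (.nd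 false 9 18 (.nd false 0 2 (.nd true 0 6 (.t3 [7,8,10]) (.pg 2 3 4 [5,6])) (.pg 1 18 14 [17])) (.fr 2 [0,9,11,12,13,15,16]))), .t 3 (nat_lit 0x128f128e) (.z (.nd false 1 14 (.pg 11 18 14 [13]) (.fr 4 [0,1,2,3,4,5,6,7,8,9,10,12,15,16,17]))), .t 1 (nat_lit 0) (.z (.nd false 15 17 (.fr 2 [0,11,12,13,14,16,17]) (.nd true 1 4 (.nd true 1 7 (.pg 1 6 8 [10,9,2]) (.t3 [3,5,7])) (.t3 [4,15,18])))), .t 2 (nat_lit 0x934) (.z (.nd false 0 6 (.fr 2 [6,7,8,9,10,17,18]) (.nd true 2 4 (.pg 0 2 15 [16,5]) (.fr 2 [1,3,4,11,12,13,14])))), .t 3 (nat_lit 0x71011f0) (.z (.nd false 0 17 (.nd true 6 7 (.pg 6 8 10 [9,5]) (.t3 [7,17,18])) (.nd true 0 12 (.nd false 13 15 (.pg 0 2 3 [4,15]) (.t3 [13,14,16])) (.t3 [1,11,12])))), .t 6 (nat_lit 0x11d5125b141712a811d7) (.z (.nd false 0 18 (.nd false 1 10 (.pg 2 10 9 [18])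 (.fr 2 [1,3,4,5,6,7,8])) (.nd false 0 13 (.pg 13 14 17 [16,15]) (.t3 [0,11,12])))), .t 8 (nat_lit 0x1531153006401509152f11ef11ee) (.z (.nd true 0 16 (.nd true 3 4 (.nd true 0 8 (.t3 [0,9,10]) (.pg 7 8 6 [3,5])) (.t3 [4,17,18])) (.nd true 12 13 (.pg 1 12 14 [16,2]) (.t3 [11,13,15])))), .t 3 (nat_lit 0x154314fd) (.z (.nd true 0 2 (.fr 4 [0,3,4,5,6,7,8,9,10,13,14,15,16,17,18]) (.pg 1 2 12 [11]))), .t 4 (nat_lit 0x10c15441461) (.z (.nd true 0 4 (.nd true 7 8 (.pg 0 5 6 [7,9]) (.fr 2 [8,10,15,16,17,18])) (.nd true 1 13 (.pg 1 14 4 [3]) (.pg 2 12 11 [13])))), .t 4 (nat_lit 0x121506451214) (.z (.nd true 1 12 (.pg 1 14 13 [11]) (.fr 4 [0,2,3,4,5,6,7,8,9,10,12,15,16,17,18]))), .t 2 (nat_lit 0x11f0) (.z (.nd false 0 4 (.nd false 4 6 (.pg 6 8 10 [9,5]) (.fr 2 [4,7,14,15,16,17,18])) (.fr 2 [0,1,2,3,11,12,13]))),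 .t 1 (nat_lit 0) (.z (.nd true 0 3 (.nd false 9 17 (.t3 [10,17,18]) (.nd false 4 7 (.pg 0 5 6 [7,8,9]) (.t3 [4,15,16]))) (.fr 2 [1,2,3,11,12,13,14])))] (by decide +kernel) (by decide +kernel)
theorem b289 : B 18496 18560 := Blk.of_chk [.t 1 (nat_lit 0) (.z (.nd false 0 7 (.fr 2 [7,8,9,10,16,17,18]) (.nd false 1 4 (.pg 0 2 3 [4,5,6]) (.fr 2 [1,11,12,13,14,15])))), .t 8 (nat_lit 0xe4c071a06d10938124106521240) (.z (.nd false 0 5 (.fr 2 [5,6,7,8,9,10]) (.nd true 0 13 (.nd true 1 18 (.pg 1 17 15 [14]) (.pg 2 3 4 [0,16,18])) (.t3 [11,12,13])))), .t 1 (nat_lit 0) (.z (.nd true 0 5 (.nd true 7 10 (.pg 7 8 9 [0,6,16]) (.t3 [10,17,18])) (.fr 3 [1,2,3,4,5,11,12,13,14,15]))), .t 1 (nat_lit 0) (.z (.nd true 9 18 (.pg 0 9 17 [10]) (.fr 4 [1,2,3,4,5,6,7,8,11,12,13,14,15,16,18]))), .t 1 (nat_lit 0) (.z (.nd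 false 0 1 (.fr 3 [1,2,3,4,5,6,7,8,9,10]) (.nd false 11 14 (.pg 0 12 13 [14,16,17]) (.t3 [11,15,18])))), .t 2 (nat_lit 0x11fd) (.z (.nd true 0 16 (.fr 2 [0,7,8,9,10,17,18]) (.nd false 1 4 (.pg 2 3 4 [6,5]) (.fr 2 [1,11,12,13,14,15,16])))), .t 3 (nat_lit 0xbb30bb0) (.z (.nd false 0 13 (.nd false 3 4 (.nd false 4 8 (.pg 2 6 8 [10,9]) (.pg 4 18 7 [5])) (.fr 2 [1,3,13,14,15,16,17])) (.t3 [0,11,12]))), .t 6 (nat_lit 0x11e511e4154508931228) (.z (.nd false 1 10 (.nd false 0 13 (.pg 9 13 14 [2,10]) (.t3 [0,11,12])) (.nd false 1 3 (.pg 7 8 5 [3,6]) (.fr 2 [1,4,15,16,17,18])))), .t 3 (nat_lit 0x11d411d3) (.z (.nd false 0 1 (.nd true 1 3 (.nd false 5 10 (.pg 1 6 10 [9,2]) (.t3 [5,7,8])) (.t3 [3,4,18])) (.nd true 12 15 (.pg 0 12 16 [17]) (.pg 11 14 15 [13])))), .t 4 (nat_lit 0x154815471546) (.z (.nd false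 0 16 (.nd true 7 10 (.pg 7 8 9 [6,16,18]) (.t3 [10,17])) (.nd false 1 3 (.pg 0 2 3 [5]) (.fr 2 [1,4,11,12,13,14,15])))), .t 7 (nat_lit 0x151b12eb11f2151a11f111ae) (.z (.nd false 3 9 (.nd false 11 18 (.pg 0 12 18 [9]) (.nd false 0 17 (.t3 [1,2,17]) (.pg 11 15 16 [14,13]))) (.fr 2 [3,4,5,6,7,8,10]))), .t 6 (nat_lit 0x154913cc064e11b9087b) (.z (.nd false 3 9 (.nd true 0 13 (.nd true 17 18 (.pg 17 2 9 [0,15]) (.pg 1 18 14 [16])) (.t3 [11,12,13])) (.fr 2 [3,4,5,6,7,8,10]))), .t 5 (nat_lit 0x12c612c411bc087e) (.z (.nd false 3 9 (.nd false 11 18 (.nd true 0 15 (.pg 18 2 9 [0,16]) (.pg 12 13 14 [15])) (.t3 [1,11,17])) (.fr 2 [3,4,5,6,7,8,10]))), .t 3 (nat_lit 0x4000b) (.z (.nd true 0 6 (.fr 2 [0,7,8,9,10,17,18]) (.nd true 1 16 (.pg 1 3 6 [5,2]) (.fr 2 [4,11,12,13,14,15,16])))), .t 3 (nat_lit 0x121011d)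 (.z (.nd true 3 17 (.pg 1 18 4 [3]) (.fr 4 [0,2,5,6,7,8,9,10,11,12,13,14,15,16,17]))), .t 3 (nat_lit 0x11fd11ad) (.z (.nd true 1 17 (.fr 2 [1,11,13,14,15,16,18]) (.nd false 2 9 (.pg 0 12 17 [9]) (.nd true 0 6 (.t3 [7,8,10]) (.pg 2 3 4 [5,6]))))), .t 1 (nat_lit 0) (.z (.nd false 1 12 (.fr 4 [3,4,5,6,7,8,9,10,12,13,14,15,16,17,18]) (.pg 0 11 1 [2]))), .t 4 (nat_lit 0x11b9087b0935) (.z (.nd false 3 9 (.nd true 0 13 (.nd true 17 18 (.pg 0 15 16 [17,2,9]) (.t3 [1,14,18])) (.t3 [11,12,13])) (.fr 2 [3,4,5,6,7,8,10]))), .t 8 (nat_lit 0x151b151a001412ce141e141d063f) (.z (.nd true 0 16 (.fr 3 [0,4,5,6,7,8,9,10,17,18]) (.nd false 11 13 (.pg 1 12 13 [3,2]) (.pg 11 15 16 [14])))), .t 7 (nat_lit 0x152413ff0657152313fe11fd) (.z (.nd false 9 11 (.nd false 0 2 (.nd true 0 6 (.t3 [7,8,10]) (.pg 2 3 4 [6,5]))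 (.nd false 0 15 (.pg 1 18 17 [15,16]) (.t3 [11,13,14]))) (.t3 [0,9,12]))), .t 5 (nat_lit 0x138c154a06b00013) (.z (.nd false 0 4 (.nd false 4 8 (.pg 5 8 10 [9]) (.fr 2 [4,6,7,15,16,17,18])) (.nd false 0 13 (.pg 3 2 1 [13,14]) (.t3 [0,11,12])))), .t 1 (nat_lit 0) (.z (.nd true 3 4 (.nd true 3 10 (.pg 0 2 3 [6,9]) (.fr 2 [5,7,8,10,16,17,18])) (.fr 2 [1,4,11,12,13,14,15]))), .t 4 (nat_lit 0x6154b086c) (.z (.nd false 3 9 (.nd false 2 11 (.fr 2 [1,11,13,14,15,16,17]) (.pg 0 12 2 [9])) (.nd false 0 7 (.t3 [7,8,10]) (.pg 4 5 6 [3,18])))), .t 5 (nat_lit 0x137c14a311e511e4) (.z (.nd true 4 13 (.fr 2 [1,4,14,15,16,17,18]) (.nd true 0 2 (.nd true 0 8 (.t3 [0,9,10]) (.pg 7 8 5 [3,6])) (.pg 2 12 11 [13])))), .t 7 (nat_lit 0x139d124113ff13fe120a1209) (.z (.nd true 0 1 (.fr 3 [0,2,3,4,5,6,7,8,9,10]) (.nd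 true 13 17 (.pg 11 13 16 [12]) (.pg 1 18 17 [15,14])))), .t 1 (nat_lit 0) (.z (.nd false 0 1 (.nd true 1 3 (.nd false 6 10 (.pg 1 5 10 [9,2]) (.t3 [6,7,8])) (.t3 [3,4,18])) (.nd false 11 13 (.pg 0 12 13 [15,16]) (.t3 [11,14,17])))), .t 1 (nat_lit 0) (.z (.nd true 9 13 (.fr 4 [1,2,3,4,5,6,7,8,9,10,11,14,15,17,18]) (.pg 0 12 13 [16]))), .t 5 (nat_lit 0x154e154d11e4154c) (.z (.nd true 0 8 (.t3 [0,9,10]) (.nd false 0 16 (.nd true 4 16 (.t3 [4,17,18]) (.pg 7 8 5 [3,16,6])) (.fr 2 [1,2,11,12,13,14,15])))), .t 2 (nat_lit 0x114f) (.z (.nd false 9 18 (.fr 4 [1,2,3,4,5,6,7,8,11,12,13,14,15,17,18]) (.pg 0 16 9 [10]))), .t 3 (nat_lit 0x11fd11bd) (.z (.nd true 1 17 (.fr 2 [1,11,12,13,14,15,16]) (.nd false 2 9 (.pg 0 17 18 [9]) (.nd true 0 6 (.t3 [7,8,10]) (.pg 2 3 4 [6,5]))))), .t 5 (nat_lit 0x1471154f10ab11f0)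 (.z (.nd false 0 5 (.nd false 7 10 (.pg 6 8 10 [9,5]) (.pg 7 16 18 [17])) (.fr 3 [0,1,2,3,4,11,12,13,14,15]))), .t 1 (nat_lit 0) (.z (.nd false 16 17 (.pg 0 11 12 [17]) (.fr 4 [1,2,3,4,5,6,7,8,9,10,13,14,15,16,18]))), .t 4 (nat_lit 0x155009aa11f0) (.z (.nd false 0 3 (.nd false 0 5 (.nd true 5 7 (.pg 5 8 10 [9,6]) (.t3 [7,17,18])) (.pg 3 4 16 [15])) (.fr 2 [0,1,2,11,12,13,14]))), .t 2 (nat_lit 0x11ac) (.z (.nd false 3 9 (.nd false 11 16 (.pg 0 12 13 [16,9]) (.fr 2 [1,2,11,14,15,17,18])) (.fr 2 [3,4,5,6,7,8,10]))), .t 5 (nat_lit 0x15712d412290462) (.z (.nd false 0 12 (.nd false 4 7 (.nd false 1 8 (.pg 2 5 8 [10,9]) (.pg 1 3 6 [7,18])) (.fr 2 [4,12,13,14,15,16,17])) (.t3 [0,11]))), .t 2 (nat_lit 0x11b9) (.z (.nd true 0 14 (.nd false 9 18 (.fr 2 [4,5,6,7,8,10,18]) (.pg 0 15 16 [17,9])) (.fr 2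 [1,2,3,11,12,13,14]))), .t 3 (nat_lit 0x11ae087e) (.z (.nd false 3 9 (.nd true 1 12 (.fr 2 [1,11,13,14,15,16,17]) (.pg 18 2 9 [0,12])) (.fr 2 [3,4,5,6,7,8,10]))), .t 1 (nat_lit 0) (.z (.nd false 17 18 (.fr 2 [0,11,12,13,14,15,18]) (.nd true 1 4 (.nd true 1 7 (.pg 1 5 8 [10,9,2]) (.t3 [3,6,7])) (.t3 [4,16,17])))), .t 1 (nat_lit 0) (.z (.nd false 0 18 (.nd true 1 3 (.nd false 5 10 (.pg 1 6 10 [9,2]) (.t3 [5,7,8])) (.t3 [3,4,18])) (.nd false 11 13 (.pg 0 12 13 [16,17]) (.t3 [11,14,15])))), .t 6 (nat_lit 0xb9e0bfd122f0cf61551) (.z (.nd false 0 13 (.nd false 0 8 (.fr 2 [8,9,10,15,16,17,18]) (.nd true 3 7 (.pg 1 3 6 [2]) (.pg 4 14 13 [7,5]))) (.t3 [0,11,12]))), .t 4 (nat_lit 0xc310ce513af) (.z (.nd false 0 12 (.nd false 3 4 (.nd false 4 8 (.pg 2 5 8 [10,9]) (.pg 4 18 7 [6])) (.fr 2 [3,12,13,14,15,16,17]))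 (.t3 [0,1,11]))), .t 1 (nat_lit 0) (.z (.nd false 0 17 (.fr 2 [6,7,8,9,10,17,18]) (.nd false 1 4 (.pg 0 2 3 [4,5]) (.fr 2 [1,11,12,13,14,15,16])))), .t 3 (nat_lit 0xb7411f0) (.z (.nd false 0 4 (.nd true 6 7 (.pg 6 8 10 [9,5]) (.t3 [4,7,18])) (.nd true 0 2 (.pg 0 16 17 [3]) (.fr 2 [1,2,11,12,13,14,15])))), .t 4 (nat_lit 0x13531352064e) (.z (.nd true 1 18 (.pg 1 16 14 [17]) (.fr 4 [0,2,3,4,5,6,7,8,9,10,11,12,13,15,18]))), .t 4 (nat_lit 0x14c514c311d1) (.z (.nd true 0 5 (.nd true 7 10 (.pg 0 6 7 [8,9]) (.pg 10 16 17 [18])) (.fr 3 [1,2,3,4,5,11,12,13,14,15]))), .t 3 (nat_lit 0x10c113f5) (.z (.nd false 0 18 (.pg 8 18 10 [9]) (.fr 4 [0,1,2,3,4,5,6,7,11,12,13,14,15,16,17]))), .t 5 (nat_lit 0xf400f3b14b00fda) (.z (.nd false 0 15 (.fr 2 [8,9,10,15,16,17,18]) (.nd true 0 12 (.nd true 4 6 (.pg 0 2 3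 [4,5]) (.pg 6 14 13 [7])) (.t3 [1,11,12])))), .t 4 (nat_lit 0x155315520644) (.z (.nd true 13 18 (.fr 4 [0,2,3,4,5,6,7,8,9,10,13,14,15,16,17]) (.pg 1 11 18 [12]))), .t 8 (nat_lit 0x155915581557155615550a721554) (.z (.nd false 0 12 (.nd true 3 5 (.nd true 2 8 (.t3 [2,9,10]) (.pg 3 7 8 [6,12,14])) (.fr 2 [4,5,13,15,16,17,18])) (.t3 [0,1,11]))), .t 3 (nat_lit 0x151c1269) (.z (.nd false 0 4 (.fr 2 [4,5,6,7,8,9,10]) (.nd false 0 18 (.pg 1 3 2 [18]) (.nd false 11 14 (.pg 0 12 13 [14]) (.pg 11 17 16 [15]))))), .t 3 (nat_lit 0x63f11fd) (.z (.nd false 0 8 (.fr 2 [8,9,10,15,16,17,18]) (.nd false 6 11 (.t3 [7,11,14]) (.nd false 0 2 (.pg 2 3 4 [6,5]) (.pg 0 12 13 [1]))))), .t 6 (nat_lit 0x139a13991398139711fd) (.z (.nd false 9 11 (.nd false 0 2 (.nd true 0 6 (.t3 [7,8,10]) (.pg 2 3 4 [5,6])) (.nd false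 0 15 (.pg 15 17 1 [18,16]) (.t3 [11,13,14]))) (.t3 [0,9,12]))), .t 4 (nat_lit 0x124106521240) (.z (.nd false 15 18 (.fr 4 [0,2,3,4,5,6,7,8,9,10,11,12,13,16,18]) (.pg 1 17 15 [14]))), .t 7 (nat_lit 0x155b1233155a123211b411fd) (.z (.nd false 9 17 (.nd true 1 2 (.t3 [1,17,18]) (.nd true 0 6 (.t3 [7,8,10]) (.pg 2 3 4 [5,6]))) (.nd false 0 13 (.pg 13 14 15 [9,16]) (.t3 [0,11,12])))), .t 6 (nat_lit 0x13b4140c155c14650e49) (.z (.nd false 0 3 (.nd true 3 4 (.fr 2 [3,5,6,7,8,9,10]) (.pg 15 18 4 [17,16])) (.fr 2 [0,1,2,11,12,13,14]))), .t 3 (nat_lit 0x13431342) (.z (.nd true 14 18 (.fr 4 [0,1,2,3,4,5,6,7,8,9,10,14,15,16,17]) (.pg 11 18 13 [12]))), .t 8 (nat_lit 0x13340d1b155f155e0e58155d11f0) (.z (.nd false 0 4 (.nd false 4 6 (.pg 6 8 10 [9,5]) (.pg 4 17 18 [16,7])) (.fr 3 [0,1,2,3,11,12,13,14,15]))),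 .t 7 (nat_lit 0x15610b7715600fe60ca60c77) (.z (.nd false 1 7 (.fr 2 [0,2,5,7,8,9,10]) (.nd true 3 16 (.pg 6 3 17 [18,4]) (.fr 2 [1,11,12,13,14,15,16])))), .t 2 (nat_lit 0x96) (.z (.nd false 2 11 (.fr 4 [3,4,5,6,7,8,9,10,11,13,14,15,16,17,18]) (.pg 0 12 1 [2]))), .t 3 (nat_lit 0x125a1259) (.z (.nd false 5 11 (.fr 3 [6,7,8,9,10,11,15,16,17,18]) (.nd true 0 1 (.pg 0 2 3 [4,5]) (.pg 1 12 13 [14])))), .t 2 (nat_lit 0x13ea) (.z (.nd true 0 4 (.nd true 0 9 (.fr 2 [0,10,14,15,16,17,18]) (.pg 5 7 8 [9,6])) (.fr 2 [1,2,3,4,11,12,13]))), .t 5 (nat_lit 0x1564126615631562) (.z (.nd false 0 3 (.nd false 5 17 (.fr 2 [4,6,7,8,10,17,18]) (.pg 3 15 16 [5,9])) (.fr 2 [0,1,2,11,12,13,14]))), .t 7 (nat_lit 0x150b15660641150915650b77) (.z (.nd true 0 16 (.nd false 0 4 (.fr 2 [4,5,6,7,8,9,10]) (.pg 0 17 18 [3]))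 (.nd true 12 13 (.pg 1 12 15 [16,2]) (.t3 [11,13,14])))), .t 10 (nat_lit 0x12ad011b01dc14fa011a14f902dd14f81354) (.z (.nd true 0 4 (.fr 2 [0,5,6,7,8,9,10]) (.nd false 2 17 (.pg 1 17 14 [4,3]) (.fr 2 [2,11,12,13,15,16,18]))))] (by decide +kernel) (by decide +kernel)
theorem b290 : B 18560 18624 := Blk.of_chk [.t 4 (nat_lit 0x6154b0878) (.z (.nd false 3 9 (.nd true 16 17 (.pg 0 16 2 [9]) (.fr 2 [1,11,12,13,14,15,17])) (.nd false 0 7 (.t3 [7,8,10]) (.pg 4 5 6 [3,18])))), .t 1 (nat_lit 0) (.z (.nd false 0 13 (.nd true 1 3 (.nd false 5 10 (.pg 1 6 10 [9,2,13]) (.t3 [5,7,8])) (.fr 2 [3,4,14,15,16,17,18])) (.t3 [0,11,12]))), .t 1 (nat_lit 0) (.z (.nd false 0 2 (.nd true 6 7 (.pg 2 6 8 [10,9]) (.fr 2 [3,4,5,7,16,17,18])) (.fr 2 [0,1,11,12,13,14,15]))), .t 1 (nat_lit 0) (.z (.nd true 4 17 (.fr 2 [4,11,12,13,14,15])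 (.nd false 0 1 (.nd true 1 7 (.pg 1 5 8 [10,9,2]) (.t3 [3,6,7])) (.pg 0 16 17 [18])))), .t 4 (nat_lit 0x134b11d1134a) (.z (.nd true 0 5 (.nd true 7 10 (.pg 0 6 7 [8,9]) (.pg 10 18 17 [16])) (.fr 3 [1,2,3,4,5,11,12,13,14,15]))), .t 1 (nat_lit 0) (.z (.nd false 0 4 (.fr 2 [4,5,6,7,8,9,10]) (.nd false 0 18 (.pg 1 3 2 [18]) (.nd false 11 17 (.pg 0 12 13 [15,17]) (.t3 [11,14,16]))))), .t 6 (nat_lit 0x140c15670e4911ef11ee) (.z (.nd true 15 16 (.nd true 3 4 (.nd true 0 8 (.t3 [0,9,10]) (.pg 7 8 6 [3,5])) (.pg 4 17 15 [18])) (.fr 2 [1,2,11,12,13,14,16]))), .t 7 (nat_lit 0x126d126c126b0e410e3e126a) (.z (.nd true 0 5 (.fr 3 [0,6,7,8,9,10,15,16,17,18]) (.nd true 1 4 (.pg 1 3 5 [2]) (.pg 4 14 13 [12,11])))), .t 3 (nat_lit 0x146914fb) (.z (.nd false 13 17 (.fr 4 [0,1,2,3,4,5,6,7,8,9,10,11,12,17,18]) (.pg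 13 14 15 [16]))), .t 4 (nat_lit 0x146814670a6e) (.z (.nd false 0 12 (.nd false 4 7 (.nd false 3 8 (.pg 1 6 8 [10,9,2]) (.pg 3 5 7 [17])) (.fr 2 [4,12,13,14,15,16,18])) (.t3 [0,11]))), .t 5 (nat_lit 0x137c14a311e511e4) (.z (.nd false 3 14 (.fr 2 [1,4,14,15,16,17,18]) (.nd true 0 2 (.nd true 0 8 (.t3 [0,9,10]) (.pg 7 8 5 [3,6])) (.pg 2 12 11 [13])))), .t 4 (nat_lit 0x614720875) (.z (.nd false 3 9 (.nd true 1 15 (.fr 2 [1,11,12,13,14,16,18]) (.pg 0 15 2 [9])) (.nd false 0 7 (.t3 [7,8,10]) (.pg 4 5 6 [3,17])))), .t 8 (nat_lit 0x156d156c156b156a156913b81568) (.z (.nd true 0 1 (.fr 3 [0,2,3,4,5,6,7,8,9,10]) (.nd false 13 16 (.t3 [11,12,16]) (.pg 1 18 15 [13,14,17])))), .t 2 (nat_lit 0x926) (.z (.nd false 0 4 (.fr 2 [4,5,6,7,8,9,10]) (.nd false 11 14 (.pg 0 12 13 [14,2]) (.fr 2 [1,3,11,15,16,17,18])))),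 .t 7 (nat_lit 0x13340c181570156f0e58156e) (.z (.nd false 1 7 (.fr 2 [0,2,6,7,8,9,10]) (.nd false 0 4 (.pg 4 17 18 [16,5]) (.fr 2 [1,3,11,12,13,14,15])))), .t 7 (nat_lit 0x139e1212121113aa11eb120f) (.z (.nd true 0 1 (.fr 3 [0,2,3,4,5,6,7,8,9,10]) (.nd true 13 18 (.pg 11 13 15 [12]) (.pg 14 17 1 [18,16])))), .t 1 (nat_lit 0) (.z (.nd false 0 9 (.fr 2 [9,10,14,15,16,17,18]) (.nd true 0 4 (.pg 0 5 6 [7,8]) (.fr 2 [1,2,3,4,11,12,13])))), .t 7 (nat_lit 0x14fd137c1571009711e511e4) (.z (.nd true 1 4 (.nd true 0 2 (.nd true 0 8 (.t3 [0,9,10]) (.pg 7 8 5 [3,6])) (.pg 11 13 1 [2,12])) (.fr 2 [4,14,15,16,17,18]))), .t 1 (nat_lit 0) (.z (.nd false 9 14 (.fr 4 [1,2,3,4,5,6,7,8,12,13,14,15,16,17,18]) (.pg 0 11 9 [10]))), .t 3 (nat_lit 0x126e11d4) (.z (.nd false 0 18 (.nd true 1 3 (.nd false 6 10 (.pg 1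 5 10 [9,2]) (.t3 [6,7,8])) (.t3 [3,4,18])) (.nd true 12 15 (.pg 0 12 16 [17]) (.pg 11 15 14 [13])))), .t 3 (nat_lit 0x868124a) (.z (.nd false 0 18 (.nd false 1 10 (.pg 2 18 10 [9]) (.fr 2 [1,3,4,5,6,7,8])) (.nd true 12 14 (.pg 0 12 15 [16,17]) (.t3 [11,13,14])))), .t 7 (nat_lit 0x11ea11e912a412a311ef11ee) (.z (.nd true 0 16 (.nd true 3 4 (.nd true 0 8 (.t3 [0,9,10]) (.pg 7 8 6 [3,5])) (.t3 [4,17,18])) (.nd false 2 13 (.pg 13 16 15 [14]) (.pg 1 11 12 [2])))), .t 5 (nat_lit 0x11fd13ff065713fe) (.z (.nd false 9 15 (.nd true 1 2 (.pg 1 18 17 [15]) (.nd true 0 6 (.t3 [7,8,10]) (.pg 2 3 4 [5,6]))) (.fr 2 [0,9,11,12,13,14,16]))), .t 1 (nat_lit 0) (.z (.nd false 0 1 (.nd true 1 5 (.pg 1 8 10 [9,2]) (.fr 2 [3,4,5,6,7,17,18])) (.fr 2 [0,11,12,13,14,15,16]))), .t 3 (nat_lit 0x15721217) (.z (.nd true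 1 9 (.t3 [0,1,2]) (.nd false 3 4 (.nd true 4 7 (.pg 8 10 9 [5,4,6]) (.t3 [7,16,17])) (.fr 2 [3,11,12,13,14,15,18])))), .t 1 (nat_lit 0) (.z (.nd true 9 17 (.pg 0 9 18 [10]) (.fr 4 [1,2,3,4,5,6,7,8,11,12,13,14,15,16,17]))), .t 1 (nat_lit 0) (.z (.nd false 0 1 (.nd true 1 3 (.nd false 5 10 (.pg 1 6 10 [9,2]) (.t3 [5,7,8])) (.t3 [3,4,18])) (.nd false 11 14 (.pg 0 12 13 [14,15]) (.t3 [11,16,17])))), .t 1 (nat_lit 0) (.z (.nd false 17 18 (.fr 2 [0,11,12,13,14,15,18]) (.nd true 1 4 (.nd true 1 7 (.pg 1 6 8 [10,9,2]) (.t3 [3,5,7])) (.t3 [4,16,17])))), .t 7 (nat_lit 0x120512861208018e1430122c) (.z (.nd true 0 4 (.nd true 0 8 (.fr 2 [0,9,10,15,16,17,18]) (.pg 5 7 8 [6])) (.nd false 3 13 (.t3 [4,13,14]) (.pg 1 12 11 [3,2])))), .t 3 (nat_lit 0x124611f5) (.z (.nd false 0 4 (.fr 2 [4,5,6,7,8,9,10]) (.nd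 false 0 18 (.pg 1 3 2 [18]) (.nd false 11 15 (.pg 0 12 15 [16]) (.pg 11 17 14 [13]))))), .t 5 (nat_lit 0x137c14a311ef11ee) (.z (.nd true 4 13 (.fr 2 [1,4,14,15,16,17,18]) (.nd true 0 2 (.nd true 0 8 (.t3 [0,9,10]) (.pg 7 8 6 [3,5])) (.pg 2 12 11 [13])))), .t 1 (nat_lit 0) (.z (.nd false 0 12 (.nd true 4 7 (.nd true 2 5 (.pg 2 6 8 [10,9]) (.pg 3 14 4 [5])) (.fr 2 [7,12,13,15,16,17,18])) (.t3 [0,1,11]))), .t 3 (nat_lit 0x126e11d4) (.z (.nd false 0 18 (.nd true 1 3 (.nd false 6 10 (.pg 1 5 10 [9,2]) (.t3 [6,7,8])) (.t3 [3,4,18])) (.nd true 12 14 (.pg 0 12 16 [17]) (.pg 11 15 14 [13])))), .t 5 (nat_lit 0x1574020115730197) (.z (.nd false 16 18 (.fr 2 [0,11,12,13,14,15,18]) (.nd true 2 4 (.fr 2 [2,5,6,7,8,9,10]) (.pg 3 17 16 [1,4])))), .t 2 (nat_lit 0x640) (.z (.nd false 0 16 (.nd true 6 7 (.pg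 6 8 10 [9]) (.fr 2 [3,4,5,7,16,17,18])) (.nd true 12 13 (.pg 0 1 12 [14,2]) (.t3 [11,13,15])))), .t 4 (nat_lit 0xbb00ce51575) (.z (.nd false 0 2 (.nd false 3 4 (.nd false 4 8 (.pg 2 6 8 [10,9]) (.pg 4 18 7 [5])) (.t3 [3,16,17])) (.fr 2 [0,1,11,12,13,14,15]))), .t 3 (nat_lit 0x1420069d) (.z (.nd true 1 13 (.fr 2 [1,11,14,15,16,17,18]) (.nd false 0 4 (.fr 2 [4,5,6,7,8,9,10]) (.pg 13 2 3 [0,12])))), .t 3 (nat_lit 0x11eb120f) (.z (.nd false 14 17 (.nd true 0 15 (.pg 0 16 17 [18]) (.pg 11 13 15 [12])) (.nd true 1 3 (.nd false 6 10 (.pg 1 5 10 [9,2]) (.t3 [6,7,8])) (.t3 [3,4,14])))), .t 6 (nat_lit 0x12ab12aa12a912a812a7) (.z (.nd false 0 18 (.nd false 1 10 (.pg 2 10 9 [18]) (.fr 2 [1,3,4,5,6,7,8])) (.nd false 0 13 (.pg 13 14 15 [17,16]) (.t3 [0,11,12])))), .t 1 (nat_lit 0) (.z (.nd false 0 14 (.fr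 2 [9,10,14,15,16,17,18]) (.nd true 0 4 (.pg 0 5 6 [7,8]) (.fr 2 [1,2,3,4,11,12,13])))), .t 2 (nat_lit 0x86c) (.z (.nd false 2 17 (.fr 4 [1,3,4,5,6,7,8,10,11,13,14,15,16,17,18]) (.pg 0 12 2 [9]))), .t 5 (nat_lit 0x122f154215760b9e) (.z (.nd false 0 15 (.fr 2 [8,9,10,15,16,17,18]) (.nd false 0 13 (.nd true 3 7 (.pg 1 3 6 [2]) (.pg 7 5 4 [13,14])) (.t3 [0,11,12])))), .t 11 (nat_lit 0x1701a4142e127312ce14e914e8142c14e71272) (.z (.nd false 0 15 (.nd true 6 7 (.pg 6 8 10 [9]) (.fr 2 [4,5,7,15,16,17,18])) (.nd false 0 1 (.pg 1 12 13 [14,3,2]) (.t3 [0,11])))), .t 5 (nat_lit 0xc190bec0c1a0e4d) (.z (.nd true 3 16 (.nd false 7 9 (.nd true 3 5 (.pg 0 2 3 [6,9]) (.pg 4 5 17 [18])) (.t3 [7,8,10])) (.fr 2 [1,11,12,13,14,15,16]))), .t 3 (nat_lit 0x132c132b) (.z (.nd false 0 1 (.nd true 1 3 (.nd false 5 10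 (.pg 1 6 10 [9,2]) (.t3 [5,7,8])) (.t3 [3,4,18])) (.nd false 11 13 (.pg 0 12 13 [15]) (.pg 11 14 17 [16])))), .t 1 (nat_lit 0) (.z (.nd true 3 4 (.nd true 5 10 (.pg 0 2 3 [5,9]) (.fr 2 [6,7,8,10,16,17,18])) (.fr 2 [1,4,11,12,13,14,15]))), .t 5 (nat_lit 0x15781577151b11d4) (.z (.nd false 0 1 (.fr 3 [1,2,3,4,5,6,7,8,9,10]) (.nd true 12 14 (.pg 0 12 17 [18]) (.pg 11 16 15 [14,13])))), .t 1 (nat_lit 0) (.z (.nd false 3 7 (.fr 4 [0,1,2,5,7,8,9,10,11,12,13,14,15,16,17]) (.pg 3 18 4 [6]))), .t 1 (nat_lit 0) (.z (.nd false 0 6 (.fr 2 [6,7,8,9,10,17,18]) (.nd false 1 4 (.pg 0 2 3 [4,5]) (.fr 2 [1,11,12,13,14,15,16])))), .t 3 (nat_lit 0x4000b) (.z (.nd true 0 6 (.fr 2 [0,7,8,9,10,17,18]) (.nd true 3 15 (.pg 1 3 6 [5,2]) (.fr 2 [4,11,12,13,14,15,16])))), .t 5 (nat_lit 0x125811f211f11257) (.z (.nd true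 1 7 (.fr 2 [0,1,2,5,8,9,10]) (.nd true 3 16 (.fr 2 [3,4,6,7,15,17,18]) (.pg 11 16 14 [13,12])))), .t 3 (nat_lit 0x11f411b9) (.z (.nd false 14 17 (.nd true 0 13 (.pg 0 15 16 [17,9]) (.t3 [11,12,13])) (.nd true 1 4 (.nd true 0 6 (.t3 [7,8,10]) (.pg 2 1 3 [5,6])) (.t3 [4,14,18])))), .t 2 (nat_lit 0x1229) (.z (.nd false 1 9 (.fr 2 [0,2,9,11,12,13,14]) (.nd false 0 17 (.t3 [10,17,18]) (.nd true 1 4 (.pg 1 3 6 [7,8,5]) (.t3 [4,15,16]))))), .t 1 (nat_lit 0) (.z (.nd false 0 17 (.fr 2 [6,7,8,9,10,17,18]) (.nd false 1 4 (.pg 5 0 2 [3,4,15]) (.fr 2 [1,11,12,13,14,16])))), .t 1 (nat_lit 0) (.z (.nd false 16 18 (.nd true 0 13 (.pg 0 14 15 [17,18]) (.t3 [11,12,13])) (.nd true 1 3 (.nd false 6 10 (.pg 1 5 10 [9,2]) (.t3 [6,7,8])) (.t3 [3,4,16])))), .t 2 (nat_lit 0x126f) (.z (.nd true 4 17 (.fr 2 [4,11,12,13,14,15,16])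 (.nd false 0 1 (.nd false 1 10 (.t3 [2,9,10]) (.pg 1 3 5 [7,8,6])) (.t3 [0,17,18])))), .t 1 (nat_lit 0) (.z (.nd true 0 12 (.nd true 4 7 (.nd false 0 6 (.pg 6 8 10 [9]) (.pg 4 5 0 [2,3,14])) (.fr 2 [7,13,15,16,17,18])) (.t3 [1,11,12]))), .t 2 (nat_lit 0x11ba) (.z (.nd false 3 9 (.nd true 0 13 (.nd false 14 17 (.pg 0 15 16 [17,18,9]) (.t3 [1,2,14])) (.t3 [11,12,13])) (.fr 2 [3,4,5,6,7,8,10]))), .t 5 (nat_lit 0x129b129a12290926) (.z (.nd false 0 8 (.t3 [8,9,10]) (.nd true 1 4 (.nd false 1 2 (.pg 0 12 14 [2]) (.pg 1 3 6 [7,5])) (.fr 2 [4,11,13,15,16,17,18])))), .t 3 (nat_lit 0x126e11d4) (.z (.nd false 0 1 (.fr 3 [1,2,3,4,5,6,7,8,9,10]) (.nd true 12 15 (.pg 0 12 16 [17,18]) (.pg 11 15 14 [13])))), .t 7 (nat_lit 0x11fd1225139c065111de130b) (.z (.nd true 1 17 (.nd false 0 14 (.pg 1 16 15 [14,18])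 (.t3 [11,12,13])) (.nd false 2 9 (.t3 [0,9,17]) (.nd true 0 6 (.t3 [7,8,10]) (.pg 2 3 4 [6,5]))))), .t 1 (nat_lit 0) (.z (.nd false 4 11 (.fr 2 [1,3,11,15,16,17,18]) (.nd false 0 2 (.nd false 4 8 (.pg 2 5 8 [10,9]) (.t3 [4,6,7])) (.pg 0 12 13 [14])))), .t 1 (nat_lit 0) (.z (.nd false 0 1 (.nd true 1 3 (.nd false 5 10 (.pg 1 6 10 [9,2]) (.t3 [5,7,8])) (.t3 [3,4,18])) (.nd false 11 13 (.pg 0 12 13 [16,17]) (.t3 [11,14,15])))), .t 5 (nat_lit 0x143614eb0b7411f0) (.z (.nd false 0 18 (.nd true 6 7 (.pg 6 8 10 [9,5]) (.t3 [4,7,18])) (.nd false 0 15 (.pg 3 15 17 [16]) (.fr 2 [0,1,2,11,12,13,14]))))] (by decide +kernel) (by decide +kernel)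
theorem b291 : B 18624 18688 := Blk.of_chk [.t 5 (nat_lit 0x1460145f145e141f) (.z (.nd true 1 7 (.fr 2 [0,1,2,6,8,9,10]) (.nd false 0 15 (.fr 2 [4,5,7,15,16,17,18]) (.pg 11 14 3 [13,12])))), .t 7 (nat_lit 0x157b0f3b157a1490157909f3) (.z (.nd false 4 7 (.nd false 0 12 (.nd true 3 8 (.pg 3 5 10 [9,2,12,13]) (.pg 6 7 8 [14])) (.t3 [0,1,11])) (.fr 2 [4,15,16,17,18]))), .t 3 (nat_lit 0x157d157c) (.z (.nd false 1 17 (.pg 11 18 17 [13]) (.fr 4 [0,1,2,3,4,5,6,7,8,9,10,12,14,15,16]))), .t 3 (nat_lit 0xb7411f0) (.z (.nd false 0 18 (.nd true 6 7 (.pg 6 8 10 [9,5]) (.t3 [4,7,18])) (.nd true 0 15 (.pg 0 16 17 [3]) (.fr 2 [1,2,11,12,13,14,15])))), .t 5 (nat_lit 0x1398139a065211fd) (.z (.nd false 9 15 (.nd false 0 2 (.nd true 0 6 (.t3 [7,8,10]) (.pg 2 3 4 [6,5])) (.pg 1 18 15 [17])) (.fr 2 [0,9,11,12,13,14,16]))),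 .t 3 (nat_lit 0x1288157e) (.z (.nd true 0 1 (.fr 4 [0,2,3,4,5,6,7,8,9,10,14,15,16,17,18]) (.pg 1 12 11 [13]))), .t 1 (nat_lit 0) (.z (.nd false 13 16 (.pg 0 11 12 [16]) (.fr 4 [1,2,3,4,5,6,7,8,9,10,13,14,15,17,18]))), .t 6 (nat_lit 0x1712d012cf12ce12cd) (.z (.nd false 3 13 (.fr 2 [4,11,13,15,16,17,18]) (.nd true 0 3 (.fr 2 [0,5,6,7,8,9,10]) (.pg 1 12 14 [3,2])))), .t 5 (nat_lit 0x158112091580157f) (.z (.nd true 0 4 (.fr 2 [0,5,6,7,8,9,10]) (.nd false 2 14 (.fr 2 [1,3,4,14,15,17,18]) (.pg 11 13 2 [16,12])))), .t 3 (nat_lit 0x11d411d3) (.z (.nd false 0 4 (.fr 2 [4,5,6,7,8,9,10]) (.nd false 0 18 (.pg 1 3 2 [18]) (.nd false 11 16 (.pg 0 12 16 [17]) (.pg 11 14 15 [13]))))), .t 1 (nat_lit 0) (.z (.nd false 14 18 (.nd true 0 13 (.pg 0 15 16 [17,18]) (.t3 [11,12,13])) (.nd true 1 3 (.nd false 6 10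 (.pg 1 5 10 [9,2]) (.t3 [6,7,8])) (.t3 [3,4,14])))), .t 3 (nat_lit 0x1368020d) (.z (.nd false 0 17 (.nd true 2 3 (.nd false 4 8 (.pg 2 5 8 [10,9]) (.t3 [4,6,7])) (.pg 1 3 18 [17])) (.fr 2 [0,11,12,13,14,15,16]))), .t 4 (nat_lit 0xa2115820a6e) (.z (.nd false 0 12 (.nd false 4 7 (.nd false 3 8 (.pg 2 5 8 [10,9]) (.pg 3 6 7 [17])) (.fr 2 [4,12,13,14,15,16,18])) (.t3 [0,1,11]))), .t 4 (nat_lit 0x13c413c3086c) (.z (.nd true 2 6 (.nd true 5 10 (.pg 2 5 9 [0,12]) (.t3 [7,8,10])) (.nd true 1 11 (.fr 2 [1,13,14,15,16,17,18]) (.pg 3 4 6 [11])))), .t 1 (nat_lit 0) (.z (.nd false 3 8 (.nd false 0 1 (.pg 1 5 8 [10,9,2]) (.t3 [0,12,14])) (.fr 3 [3,4,6,7,11,13,15,16,17,18]))), .t 2 (nat_lit 0x63f) (.z (.nd false 0 15 (.nd true 5 7 (.pg 5 8 10 [9]) (.fr 2 [4,6,7,15,16,17,18])) (.nd false 11 13 (.pg 0 1 12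 [13,2]) (.t3 [3,11,14])))), .t 3 (nat_lit 0xb7411f0) (.z (.nd true 0 15 (.nd false 0 18 (.nd true 5 7 (.pg 5 8 10 [9,6]) (.t3 [4,7,18])) (.pg 0 3 16 [17])) (.fr 2 [1,2,11,12,13,14,15]))), .t 5 (nat_lit 0x15712d412290462) (.z (.nd false 0 12 (.nd true 1 4 (.nd false 1 8 (.pg 2 5 8 [10,9]) (.pg 1 3 6 [7,18])) (.fr 2 [4,12,13,14,15,16,17])) (.t3 [0,11]))), .t 5 (nat_lit 0x124611f50868124a) (.z (.nd false 0 18 (.nd false 1 10 (.pg 2 18 10 [9]) (.fr 2 [1,3,4,5,6,7,8])) (.nd false 13 16 (.pg 0 12 15 [16]) (.pg 11 17 14 [13])))), .t 5 (nat_lit 0x1492149111e511e4) (.z (.nd true 0 8 (.t3 [0,9,10]) (.nd false 0 16 (.nd true 3 4 (.pg 7 8 5 [3,6]) (.pg 4 17 16 [18])) (.fr 2 [1,2,11,12,13,14,15])))), .t 4 (nat_lit 0x1323132211cf) (.z (.nd true 0 4 (.nd true 7 10 (.pg 0 5 6 [7,8,9]) (.pg 10 17 16 [18]))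 (.fr 3 [1,2,3,4,11,12,13,14,15]))), .t 1 (nat_lit 0) (.z (.nd false 0 8 (.fr 2 [8,9,10,15,16,17,18]) (.nd false 5 11 (.t3 [7,11,14]) (.nd true 0 1 (.pg 0 2 3 [4,5,6]) (.t3 [1,12,13]))))), .t 7 (nat_lit 0x125811f211f1125711e511e4) (.z (.nd true 0 16 (.nd true 3 4 (.nd true 0 8 (.t3 [0,9,10]) (.pg 7 8 5 [3,6])) (.t3 [4,17,18])) (.nd true 1 13 (.t3 [1,2,15]) (.pg 11 16 14 [13,12])))), .t 8 (nat_lit 0x13531352158512c0158413a41583) (.z (.nd true 0 1 (.fr 3 [0,2,3,4,5,6,7,8,9,10]) (.nd true 13 16 (.pg 11 13 15 [18,12]) (.pg 1 16 14 [17])))), .t 1 (nat_lit 0) (.z (.nd false 0 1 (.nd true 1 3 (.nd false 5 10 (.pg 1 6 10 [9,2]) (.t3 [5,7,8])) (.t3 [3,4,18])) (.nd false 11 14 (.pg 0 12 13 [14,17]) (.t3 [11,15,16])))), .t 3 (nat_lit 0x9250099) (.z (.nd false 0 8 (.fr 2 [8,9,10,15,16,17,18]) (.nd false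 1 11 (.fr 2 [3,4,5,6,7,11,14]) (.pg 13 1 2 [0,12])))), .t 1 (nat_lit 0) (.z (.nd false 0 18 (.nd true 1 3 (.nd false 6 10 (.pg 1 5 10 [9,2]) (.t3 [6,7,8])) (.t3 [3,4,18])) (.nd false 11 13 (.pg 0 12 13 [15,16]) (.t3 [11,14,17])))), .t 2 (nat_lit 0x11f0) (.z (.nd false 0 18 (.nd true 6 7 (.pg 6 8 10 [9,5]) (.t3 [4,7,18])) (.nd true 3 12 (.fr 2 [3,11,13,14,15,16,17]) (.pg 0 1 12 [2])))), .t 10 (nat_lit 0x9bc011b14641588011a1587030215861354) (.z (.nd true 0 4 (.fr 2 [0,5,6,7,8,9,10]) (.nd false 2 16 (.pg 1 17 16 [4,3]) (.fr 2 [2,11,12,13,14,15,18])))), .t 5 (nat_lit 0x1260120f125f125e) (.z (.nd true 0 4 (.fr 2 [0,5,6,7,8,9,10]) (.nd true 13 18 (.pg 11 13 16 [15,12]) (.fr 2 [1,2,3,4,14,17,18])))), .t 4 (nat_lit 0x11f211f10929) (.z (.nd false 1 2 (.nd true 12 14 (.pg 0 12 15 [17,2]) (.pg 11 16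 14 [13])) (.fr 3 [1,3,4,5,6,7,8,9,10,18]))), .t 7 (nat_lit 0x120412030e4c120212011200) (.z (.nd true 0 3 (.nd false 4 7 (.fr 2 [0,5,6,7,8,9,10]) (.pg 15 18 17 [16,4])) (.fr 2 [1,2,3,11,12,13,14]))), .t 9 (nat_lit 0x13a6130413031589130700fc11f300a1) (.z (.nd false 0 16 (.nd true 3 9 (.pg 2 18 16 [17,1,3]) (.fr 2 [4,5,6,7,8,9,10])) (.fr 2 [0,11,12,13,14,15]))), .t 1 (nat_lit 0) (.z (.nd false 0 15 (.fr 2 [8,9,10,15,16,17,18]) (.nd false 5 11 (.t3 [7,11,14]) (.nd true 0 1 (.pg 0 2 3 [4,5,6]) (.t3 [1,12,13]))))), .t 1 (nat_lit 0) (.z (.nd false 2 12 (.fr 4 [3,4,5,6,7,8,9,10,12,13,14,15,16,17,18]) (.pg 0 11 1 [2]))), .t 3 (nat_lit 0x13e213e1) (.z (.nd false 0 1 (.nd true 1 7 (.pg 1 6 8 [10,9,2]) (.nd false 0 15 (.fr 2 [4,5,7,15,16,17,18]) (.pg 3 12 13 [14]))) (.t3 [0,11]))), .t 5 (nat_lit 0x13bc120913bb13ba)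 (.z (.nd true 0 4 (.fr 2 [0,5,6,7,8,9,10]) (.nd true 11 18 (.pg 11 13 17 [16,12]) (.fr 2 [1,2,3,4,14,15,18])))), .t 3 (nat_lit 0x11fd11bc) (.z (.nd true 1 16 (.fr 2 [1,11,12,13,14,15,17]) (.nd false 2 9 (.pg 0 16 18 [9]) (.nd true 0 6 (.t3 [7,8,10]) (.pg 2 3 4 [5,6]))))), .t 6 (nat_lit 0x158b0194158a019c0935) (.z (.nd false 0 4 (.fr 2 [4,5,6,7,8,9,10]) (.nd true 0 13 (.nd false 14 17 (.pg 0 15 16 [17,2]) (.pg 1 14 18 [3])) (.t3 [11,12,13])))), .t 1 (nat_lit 0) (.z (.nd true 0 12 (.nd true 4 7 (.nd false 0 6 (.pg 6 8 10 [9]) (.pg 0 2 3 [4,5])) (.fr 2 [7,13,14,15,16,17,18])) (.t3 [1,11,12]))), .t 4 (nat_lit 0x124a1312007f) (.z (.nd false 16 17 (.fr 2 [0,11,12,13,14,15,17]) (.nd true 1 3 (.nd false 6 10 (.pg 2 18 1 [5,10,9]) (.t3 [6,7,8])) (.t3 [3,4,16])))), .t 10 (nat_lit 0x125811f211f11257158d0195158c12350c1a)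 (.z (.nd true 0 5 (.fr 2 [0,6,7,8,9,10]) (.nd false 0 17 (.pg 4 5 17 [18]) (.nd true 1 13 (.pg 1 15 3 [2]) (.pg 11 16 14 [13,12]))))), .t 2 (nat_lit 0x63f) (.z (.nd true 4 12 (.fr 2 [4,11,14,15,16,17,18]) (.nd false 0 3 (.fr 2 [3,5,6,7,8,9,10]) (.pg 0 1 12 [13,2])))), .t 1 (nat_lit 0) (.z (.nd true 4 17 (.fr 2 [4,11,12,13,14,15]) (.nd false 0 1 (.nd true 1 7 (.pg 1 6 8 [10,9,2]) (.t3 [3,5,7])) (.pg 0 16 17 [18])))), .t 3 (nat_lit 0x1396135a) (.z (.nd true 12 15 (.fr 4 [0,1,2,3,4,5,6,7,8,9,10,12,14,16,17]) (.pg 11 18 15 [13]))), .t 5 (nat_lit 0x129b129a12991229) (.z (.nd true 0 13 (.nd true 0 7 (.fr 2 [0,8,9,10,16,17,18]) (.nd true 1 4 (.pg 1 3 6 [7,5,2]) (.t3 [4,14,15]))) (.t3 [11,12,13]))), .t 2 (nat_lit 0x640) (.z (.nd false 13 14 (.pg 0 12 14 [1]) (.fr 4 [2,3,4,5,6,7,8,9,10,11,13,15,16,17,18]))),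 .t 1 (nat_lit 0) (.z (.nd false 0 18 (.nd true 1 3 (.nd false 6 10 (.pg 1 5 10 [9,2]) (.t3 [6,7,8])) (.t3 [3,4,18])) (.nd false 11 14 (.pg 0 12 13 [14,15]) (.t3 [11,16,17])))), .t 5 (nat_lit 0x12cb120f12ca12c9) (.z (.nd true 0 4 (.fr 2 [0,5,6,7,8,9,10]) (.nd true 2 11 (.fr 2 [1,2,3,4,14,16,18]) (.pg 11 13 17 [15,12])))), .t 4 (nat_lit 0x124a1249007f) (.z (.nd false 15 17 (.fr 2 [0,11,12,13,14,16,17]) (.nd true 1 3 (.nd false 5 10 (.pg 2 18 1 [6,10,9]) (.t3 [5,7,8])) (.t3 [3,4,15])))), .t 6 (nat_lit 0x158f158e0e4b11e511e4) (.z (.nd true 0 15 (.nd true 3 4 (.nd true 0 8 (.t3 [0,9,10]) (.pg 7 8 5 [3,6])) (.pg 4 18 16 [17])) (.fr 2 [1,2,11,12,13,14,15]))), .t 2 (nat_lit 0x11c2) (.z (.nd true 9 18 (.fr 4 [1,2,3,4,5,6,7,8,9,11,13,14,15,16,17]) (.pg 0 12 18 [10]))), .t 3 (nat_lit 0xbb30bb0) (.z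 (.nd false 0 12 (.nd false 3 4 (.nd false 4 8 (.pg 2 6 8 [10,9]) (.pg 4 18 7 [5])) (.fr 2 [3,12,13,14,15,16,17])) (.t3 [0,1,11]))), .t 1 (nat_lit 0) (.z (.nd true 0 3 (.nd false 8 17 (.t3 [10,17,18]) (.nd false 4 7 (.pg 0 5 6 [7,8,9]) (.t3 [4,15,16]))) (.fr 2 [1,2,3,11,12,13,14]))), .t 5 (nat_lit 0x11fd129506571294) (.z (.nd false 9 16 (.nd true 1 2 (.pg 1 18 17 [16]) (.nd true 0 6 (.t3 [7,8,10]) (.pg 2 3 4 [5,6]))) (.fr 2 [0,9,11,12,13,14,15]))), .t 6 (nat_lit 0x11fd12fe159115901240) (.z (.nd true 1 16 (.nd false 0 14 (.pg 14 18 1 [17,15]) (.t3 [11,12,13])) (.nd false 2 9 (.t3 [0,9,16]) (.nd true 0 6 (.t3 [7,8,10]) (.pg 2 3 4 [5,6]))))), .t 2 (nat_lit 0x925) (.z (.nd true 13 14 (.pg 0 12 13 [2]) (.fr 4 [1,3,4,5,6,7,8,9,10,11,14,15,16,17,18]))), .t 8 (nat_lit 0xbd11595159415930c5714e01592)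 (.z (.nd false 0 18 (.nd true 4 7 (.pg 4 6 8 [10,9,5,18]) (.t3 [7])) (.nd false 11 12 (.pg 0 1 12 [2]) (.fr 2 [3,11,13,14,15,16,17])))), .t 1 (nat_lit 0) (.z (.nd false 11 15 (.pg 0 12 15 [16]) (.fr 4 [1,2,3,4,5,6,7,8,9,10,11,13,14,17,18]))), .t 2 (nat_lit 0x126f) (.z (.nd false 14 18 (.fr 2 [0,11,12,13,16,17,18]) (.nd true 1 4 (.nd false 1 10 (.t3 [2,9,10]) (.pg 1 3 5 [7,8,6])) (.t3 [4,14,15])))), .t 1 (nat_lit 0) (.z (.nd false 0 16 (.nd true 6 7 (.pg 2 6 8 [10,9]) (.fr 2 [3,4,5,7,16,17,18])) (.fr 2 [0,1,11,12,13,14,15]))), .t 7 (nat_lit 0x11ea11e9123714690b8014fb) (.z (.nd true 0 16 (.fr 3 [0,4,5,6,7,8,9,10,17,18]) (.nd false 2 13 (.pg 13 14 15 [16,3]) (.pg 1 11 12 [2])))), .t 5 (nat_lit 0x1373137211f41371) (.z (.nd true 0 6 (.fr 2 [0,7,8,9,10,17,18]) (.nd false 1 4 (.pg 3 4 16 [6,5,2])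 (.fr 2 [1,11,12,13,14,15])))), .t 4 (nat_lit 0x120019c1301) (.z (.nd true 4 17 (.pg 1 18 4 [3]) (.fr 4 [0,2,5,6,7,8,9,10,11,12,13,14,15,16,17])))] (by decide +kernel) (by decide +kernel)
theorem b292 : B 18688 18752 := Blk.of_chk [.t 5 (nat_lit 0x159712c91596125e) (.z (.nd true 0 4 (.fr 2 [0,5,6,7,8,9,10]) (.nd false 11 15 (.pg 15 17 16 [12,13]) (.fr 2 [1,2,3,4,11,14,18])))), .t 5 (nat_lit 0x13b31598065211fd) (.z (.nd false 9 15 (.nd false 0 2 (.nd true 0 6 (.t3 [7,8,10]) (.pg 2 3 4 [6,5])) (.pg 1 17 15 [18])) (.fr 2 [0,9,11,12,13,14,16]))), .t 2 (nat_lit 0x11fd) (.z (.nd true 7 16 (.fr 2 [0,7,8,9,10,17,18]) (.nd false 1 4 (.pg 2 3 4 [6,5]) (.fr 2 [1,11,12,13,14,15,16])))), .t 3 (nat_lit 0x11ef11ee) (.z (.nd true 1 13 (.fr 2 [1,4,11,15,16,17,18]) (.nd false 0 2 (.nd true 2 8 (.t3 [2,9,10])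 (.pg 7 8 6 [3,5])) (.pg 0 12 13 [14])))), .t 1 (nat_lit 0) (.z (.nd false 0 18 (.nd true 1 3 (.nd false 5 10 (.pg 1 6 10 [9,2]) (.t3 [5,7,8])) (.t3 [3,4,18])) (.nd false 11 17 (.pg 0 12 13 [16,17]) (.t3 [11,14,15])))), .t 5 (nat_lit 0x1492159911e511e4) (.z (.nd true 0 8 (.t3 [0,9,10]) (.nd false 0 16 (.nd true 3 4 (.pg 7 8 5 [3,6]) (.pg 4 17 16 [18])) (.fr 2 [1,2,11,12,13,14,15])))), .t 5 (nat_lit 0x159a031211ef11ee) (.z (.nd false 0 17 (.nd true 3 4 (.nd true 2 8 (.t3 [2,9,10]) (.pg 7 8 6 [3,5])) (.pg 1 4 18 [17])) (.fr 2 [0,11,12,13,14,15,16]))), .t 10 (nat_lit 0x13e913e813e7120912c213e613e513bc13e4) (.z (.nd true 0 1 (.fr 3 [0,2,3,4,5,6,7,8,9,10]) (.nd true 13 15 (.pg 11 13 16 [17,18,12]) (.t3 [1,14,15])))), .t 5 (nat_lit 0x11dc1305127c129f) (.z (.nd false 0 12 (.nd false 3 4 (.nd false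 4 8 (.pg 2 6 8 [10,9]) (.t3 [4,5,7])) (.nd false 3 14 (.pg 14 18 17 [16,15]) (.t3 [3,12,13]))) (.t3 [0,1,11]))), .t 2 (nat_lit 0x11fd) (.z (.nd false 0 16 (.fr 2 [7,8,9,10,16,17,18]) (.nd false 0 2 (.pg 2 3 4 [6,5]) (.fr 2 [0,1,11,12,13,14,15])))), .t 3 (nat_lit 0x11fd11bb) (.z (.nd true 1 16 (.fr 2 [1,11,12,13,14,15,18]) (.nd false 2 9 (.pg 0 16 17 [9]) (.nd true 0 6 (.t3 [7,8,10]) (.pg 2 3 4 [5,6]))))), .t 7 (nat_lit 0x12380b8012371236159b1592) (.z (.nd false 1 9 (.t3 [0,2,9]) (.nd false 0 13 (.nd false 0 17 (.nd true 4 7 (.pg 8 10 6 [4,5]) (.t3 [7,17,18])) (.pg 16 3 14 [13,15])) (.t3 [1,11,12])))), .t 3 (nat_lit 0x4000b) (.z (.nd false 4 16 (.nd true 0 6 (.fr 2 [0,7,8,9,10,16,18]) (.pg 1 3 6 [5,2])) (.fr 2 [4,11,12,13,14,15,17]))), .t 5 (nat_lit 0x132a13291328126f) (.z (.nd false 0 15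 (.fr 2 [8,9,10,15,16,17,18]) (.nd false 0 13 (.nd true 1 4 (.pg 1 3 5 [7,6,2]) (.t3 [4,13,14])) (.t3 [0,11,12])))), .t 1 (nat_lit 0) (.z (.nd false 0 1 (.nd true 1 3 (.nd false 5 10 (.pg 1 6 10 [9,2]) (.t3 [5,7,8])) (.t3 [3,4,18])) (.nd true 12 14 (.pg 0 12 15 [16,17]) (.t3 [11,13,14])))), .t 1 (nat_lit 0) (.z (.nd false 0 4 (.fr 2 [4,5,6,7,8,9,10]) (.nd false 0 18 (.pg 1 3 2 [18]) (.nd false 11 16 (.pg 0 12 13 [16,17]) (.t3 [11,14,15]))))), .t 3 (nat_lit 0x159d159c) (.z (.nd false 1 15 (.pg 15 16 17 [18]) (.fr 4 [0,1,2,3,4,5,6,7,8,9,10,11,12,13,14]))), .t 7 (nat_lit 0x15a1128c15a01215159f159e) (.z (.nd true 0 1 (.fr 3 [0,2,3,4,5,6,7,8,9,10]) (.nd false 11 16 (.t3 [12,15,16]) (.pg 1 17 14 [13,11,18])))), .t 1 (nat_lit 0) (.z (.nd false 0 18 (.nd false 1 10 (.pg 2 10 9 [18]) (.fr 2 [1,3,4,5,6,7,8]))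 (.nd false 11 16 (.pg 0 12 13 [14,16]) (.t3 [11,15,17])))), .t 4 (nat_lit 0x130401001370) (.z (.nd true 12 17 (.nd false 0 4 (.fr 2 [4,5,6,7,8,9,10]) (.nd false 0 16 (.pg 2 16 18 [1,3]) (.pg 0 12 14 [15]))) (.t3 [11,13,17]))), .t 8 (nat_lit 0x125811f211f11257140c15670e49) (.z (.nd true 1 4 (.fr 3 [0,1,2,3,5,6,7,8,9,10]) (.nd false 14 18 (.pg 4 17 15 [18]) (.pg 11 16 14 [13,12])))), .t 6 (nat_lit 0x11d815a315a213fc11fd) (.z (.nd false 9 17 (.nd false 0 2 (.nd true 0 6 (.t3 [7,8,10]) (.pg 2 3 4 [6,5])) (.t3 [1,17,18])) (.nd false 0 13 (.pg 16 9 15 [13,14]) (.t3 [0,11,12])))), .t 8 (nat_lit 0x150b129e064d15a515a411ef11ee) (.z (.nd true 0 16 (.nd true 3 4 (.nd true 0 8 (.t3 [0,9,10]) (.pg 7 8 6 [3,5])) (.t3 [4,17,18])) (.nd true 1 13 (.pg 1 14 15 [16,2]) (.t3 [11,12,13])))), .t 3 (nat_lit 0x11fd11ad)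 (.z (.nd true 1 12 (.fr 2 [1,11,13,14,15,16,18]) (.nd false 2 9 (.pg 0 12 17 [9]) (.nd true 0 6 (.t3 [7,8,10]) (.pg 2 3 4 [6,5]))))), .t 1 (nat_lit 0) (.z (.nd false 0 18 (.nd true 1 3 (.nd false 5 10 (.pg 1 6 10 [9,2]) (.t3 [5,7,8])) (.t3 [3,4,18])) (.nd true 0 13 (.pg 0 14 15 [16,17]) (.t3 [11,12,13])))), .t 4 (nat_lit 0x120019c1301) (.z (.nd true 3 17 (.pg 1 18 4 [3]) (.fr 4 [0,2,5,6,7,8,9,10,11,12,13,14,15,16,17]))), .t 7 (nat_lit 0x125811f211f1125711e511e4) (.z (.nd true 0 16 (.nd true 3 4 (.nd true 0 8 (.t3 [0,9,10]) (.pg 7 8 5 [3,6])) (.t3 [4,17,18])) (.nd true 1 14 (.t3 [1,2,15]) (.pg 11 16 14 [13,12])))), .t 2 (nat_lit 0x1229) (.z (.nd false 14 17 (.fr 2 [0,11,12,13,15,16,17]) (.nd true 1 4 (.nd false 1 10 (.t3 [2,9,10]) (.pg 1 3 6 [7,8,5])) (.t3 [4,14,18])))), .t 4 (nat_lit 0x15a7064315a6)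 (.z (.nd true 13 17 (.fr 4 [0,2,3,4,5,6,7,8,9,10,13,14,15,16,18]) (.pg 1 17 12 [11]))), .t 1 (nat_lit 0) (.z (.nd false 0 18 (.nd false 1 10 (.pg 2 10 9 [18]) (.fr 2 [1,3,4,5,6,7,8])) (.nd false 11 15 (.pg 0 12 13 [14,15]) (.t3 [11,16,17])))), .t 4 (nat_lit 0x1403140211f0) (.z (.nd false 0 5 (.nd false 7 10 (.pg 6 8 10 [9,5]) (.pg 7 16 17 [18])) (.fr 3 [0,1,2,3,4,11,12,13,14,15]))), .t 6 (nat_lit 0x158f158e0e4b11ef11ee) (.z (.nd true 0 15 (.nd true 3 4 (.nd true 0 8 (.t3 [0,9,10]) (.pg 7 8 6 [3,5])) (.pg 4 18 16 [17])) (.fr 2 [1,2,11,12,13,14,15]))), .t 9 (nat_lit 0x15aa010c154415a9019315a8027c1461) (.z (.nd true 0 4 (.fr 2 [0,5,6,7,8,9,10]) (.nd true 1 13 (.pg 1 14 11 [4,3]) (.fr 2 [2,12,13,15,16,17,18])))), .t 5 (nat_lit 0x12bb15ac15ab11d7) (.z (.nd false 0 4 (.fr 2 [4,5,6,7,8,9,10]) (.nd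 false 3 13 (.pg 13 18 17 [16,15]) (.fr 2 [0,1,2,3,11,12,14])))), .t 1 (nat_lit 0) (.z (.nd true 7 13 (.fr 2 [7,11,12,15,16,17,18]) (.nd false 1 4 (.nd false 0 6 (.pg 6 8 10 [9]) (.pg 0 2 3 [4,5])) (.t3 [1,13,14])))), .t 6 (nat_lit 0x15781577151b11d411fd) (.z (.nd false 9 11 (.nd false 0 2 (.nd true 0 6 (.t3 [7,8,10]) (.pg 2 3 4 [5,6])) (.nd false 0 17 (.t3 [1,17,18]) (.pg 11 16 15 [14,13]))) (.t3 [0,9,12]))), .t 6 (nat_lit 0x13e3138d099001091390) (.z (.nd true 0 4 (.nd true 7 9 (.pg 0 5 6 [7]) (.fr 2 [8,9,10,15,16,17,18])) (.nd false 1 2 (.t3 [2,11,12]) (.pg 4 3 1 [13,14])))), .t 5 (nat_lit 0x15ae0e4a15ad11f4) (.z (.nd false 15 17 (.fr 2 [0,9,11,12,13,16,17]) (.nd true 1 4 (.nd true 0 6 (.t3 [7,8,10]) (.pg 2 1 3 [5,6])) (.pg 4 18 15 [14])))), .t 1 (nat_lit 0) (.z (.nd false 14 18 (.fr 2 [0,11,12,13,15,16,18])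 (.nd true 1 4 (.nd true 1 7 (.pg 1 6 8 [10,9,2]) (.t3 [3,5,7])) (.t3 [4,14,17])))), .t 5 (nat_lit 0x11fd1398139a0652) (.z (.nd false 9 15 (.nd true 1 2 (.pg 1 18 15 [17]) (.nd true 0 6 (.t3 [7,8,10]) (.pg 2 3 4 [5,6]))) (.fr 2 [0,9,11,12,13,14,16]))), .t 3 (nat_lit 0x11ef11ee) (.z (.nd false 0 17 (.nd false 1 3 (.nd false 3 10 (.pg 2 10 9 [18]) (.pg 7 8 6 [3,5])) (.t3 [1,4,17])) (.fr 2 [0,11,12,13,14,15,16]))), .t 4 (nat_lit 0x123115af0074) (.z (.nd false 15 17 (.fr 2 [0,11,12,13,14,16,17]) (.nd true 1 3 (.nd false 5 10 (.pg 2 15 1 [6,10,9]) (.t3 [5,7,8])) (.t3 [3,4,18])))), .t 6 (nat_lit 0x15b315b215b10b8c15b0) (.z (.nd false 0 3 (.nd false 0 4 (.fr 2 [4,5,6,7,8,9,10]) (.pg 3 15 16 [18,17])) (.fr 2 [0,1,2,11,12,13,14]))), .t 6 (nat_lit 0x11d5125b141712a811d7) (.z (.nd false 0 18 (.nd true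 1 3 (.nd false 6 10 (.pg 1 5 10 [9,2]) (.t3 [6,7,8])) (.t3 [3,4,18])) (.nd false 0 13 (.pg 13 14 17 [16,15]) (.t3 [0,11,12])))), .t 1 (nat_lit 0) (.z (.nd false 9 12 (.fr 4 [1,2,3,4,5,6,7,8,12,13,14,15,16,17,18]) (.pg 0 11 9 [10]))), .t 4 (nat_lit 0x14f6000611a9) (.z (.nd false 3 9 (.nd false 11 13 (.pg 0 12 13 [9]) (.fr 2 [1,2,11,14,15,16,17])) (.nd false 0 7 (.t3 [7,8,10]) (.pg 4 6 5 [3,18])))), .t 2 (nat_lit 0x63f) (.z (.nd false 1 11 (.fr 4 [2,3,4,5,6,7,8,9,10,11,14,15,16,17,18]) (.pg 0 12 13 [1]))), .t 2 (nat_lit 0x11f0) (.z (.nd false 0 4 (.nd false 4 6 (.pg 6 8 10 [9,5]) (.t3 [4,7,18])) (.nd true 0 3 (.pg 0 15 16 [17]) (.fr 2 [1,2,3,11,12,13,14])))), .t 1 (nat_lit 0) (.z (.nd true 0 16 (.nd true 4 7 (.nd false 0 6 (.pg 6 8 10 [9]) (.pg 0 2 3 [4,5])) (.t3 [7,17,18])) (.fr 2 [1,11,12,13,14,15,16]))),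 .t 9 (nat_lit 0x11e20e4111e1098e097515aa15b4122c) (.z (.nd true 0 8 (.fr 2 [0,9,10,15,16,17,18]) (.nd false 0 5 (.pg 5 6 7 [8]) (.nd false 2 11 (.pg 11 4 3 [14,13]) (.t3 [1,2,12]))))), .t 10 (nat_lit 0x1b15b915b8156615b712ce15b615b51565) (.z (.nd true 0 3 (.fr 3 [0,4,5,6,7,8,9,10,17,18]) (.nd true 12 13 (.pg 1 12 15 [16,3,2]) (.t3 [11,13,14])))), .t 4 (nat_lit 0x411f3000b) (.z (.nd false 0 8 (.t3 [8,9,10]) (.nd false 0 17 (.nd false 4 6 (.pg 1 3 6 [5,2,17]) (.t3 [4,7,18])) (.fr 2 [0,11,12,13,14,15,16])))), .t 6 (nat_lit 0x11d5125b141712a811d7) (.z (.nd false 0 13 (.nd false 0 1 (.nd true 1 3 (.nd false 5 10 (.pg 1 6 10 [9,2]) (.t3 [5,7,8])) (.t3 [3,4,18])) (.pg 13 14 17 [16,15])) (.t3 [0,11,12]))), .t 9 (nat_lit 0x15ba13ce124013cc139d124113ff13fe) (.z (.nd false 0 10 (.t3 [10]) (.nd true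 0 13 (.nd true 0 1 (.nd true 0 5 (.pg 0 6 7 [8,9]) (.pg 2 3 4 [5])) (.pg 1 18 17 [15,14,16])) (.t3 [11,12,13])))), .t 2 (nat_lit 0x126f) (.z (.nd false 15 17 (.fr 2 [0,11,12,13,14,16,17]) (.nd true 1 4 (.nd false 1 10 (.t3 [2,9,10]) (.pg 1 3 5 [7,8,6])) (.t3 [4,15,18])))), .t 8 (nat_lit 0x125811f211f11257158d0195158c) (.z (.nd true 0 4 (.fr 2 [0,5,6,7,8,9,10]) (.nd true 0 16 (.t3 [4,17,18]) (.nd true 1 14 (.pg 1 15 3 [2]) (.pg 11 16 14 [13,12]))))), .t 2 (nat_lit 0x114f) (.z (.nd true 8 16 (.fr 4 [1,2,3,4,5,6,7,8,11,12,13,14,15,17,18]) (.pg 0 16 9 [10]))), .t 9 (nat_lit 0x15911590064f125e12ed1260120912bd) (.z (.nd false 0 6 (.fr 2 [6,7,8,9,10]) (.nd true 0 18 (.pg 0 2 3 [4,5]) (.nd true 13 17 (.pg 11 13 15 [16,12]) (.pg 1 17 14 [18]))))), .t 3 (nat_lit 0x11f211f1) (.z (.nd false 0 18 (.nd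 true 1 3 (.nd false 6 10 (.pg 1 5 10 [9,2]) (.t3 [6,7,8])) (.t3 [3,4,18])) (.nd true 12 14 (.pg 0 12 15 [17]) (.pg 11 16 14 [13])))), .t 8 (nat_lit 0x144c1319144b00f5144a11ef11ee) (.z (.nd true 0 13 (.nd true 1 4 (.nd true 0 2 (.nd true 0 8 (.t3 [0,9,10]) (.pg 7 8 6 [3,5])) (.pg 15 17 1 [2,16])) (.t3 [4,14,18])) (.t3 [11,12,13]))), .t 2 (nat_lit 0x114d) (.z (.nd false 9 17 (.fr 4 [1,2,3,4,5,6,7,8,11,12,13,14,16,17,18]) (.pg 0 15 9 [10]))), .t 1 (nat_lit 0) (.z (.nd false 0 4 (.fr 2 [4,5,6,7,8,9,10]) (.nd false 0 18 (.pg 1 3 2 [18]) (.nd false 11 14 (.pg 0 12 13 [14,15]) (.t3 [11,16,17]))))), .t 11 (nat_lit 0x15c015bf14d115be14d415bd145315bc15bb1450) (.z (.nd true 0 3 (.nd true 0 8 (.t3 [0,9,10]) (.nd true 4 15 (.t3 [4,17,18]) (.pg 5 16 15 [6,7,8]))) (.fr 2 [1,2,3,11,12,13,14]))), .t 1 (nat_lit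 0) (.z (.nd true 3 4 (.nd true 6 10 (.pg 0 2 3 [6,9]) (.fr 2 [5,7,8,10,16,17,18])) (.fr 2 [1,4,11,12,13,14,15])))] (by decide +kernel) (by decide +kernel)
theorem b293 : B 18752 18816 := Blk.of_chk [.t 3 (nat_lit 0x12dc0f37) (.z (.nd false 0 8 (.fr 2 [8,9,10,15,16,17,18]) (.nd false 4 11 (.pg 6 14 11 [7]) (.nd true 0 1 (.pg 0 2 3 [4,5]) (.t3 [1,12,13]))))), .t 3 (nat_lit 0x11ef11ee) (.z (.nd false 1 3 (.nd false 3 10 (.fr 2 [0,2,9,10,11,12,13]) (.pg 7 8 6 [3,5])) (.fr 2 [1,4,14,15,16,17,18]))), .t 3 (nat_lit 0x11fd11bc) (.z (.nd true 1 18 (.fr 2 [1,11,12,13,14,15,17]) (.nd false 2 9 (.pg 0 16 18 [9]) (.nd true 0 6 (.t3 [7,8,10]) (.pg 2 3 4 [6,5]))))), .t 9 (nat_lit 0x139d124113ff06570653065013fe0878) (.z (.nd false 3 9 (.nd true 0 13 (.nd true 16 18 (.pg 0 16 2 [9]) (.pg 1 18 17 [15,14]))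 (.t3 [11,12,13])) (.fr 2 [3,4,5,6,7,8,10]))), .t 4 (nat_lit 0x1474157909f6) (.z (.nd true 6 10 (.nd false 0 12 (.nd true 3 6 (.pg 3 5 9 [2,12,14]) (.t3 [4,6,13])) (.t3 [0,1,11])) (.fr 2 [7,8,10,15,16,17,18]))), .t 4 (nat_lit 0x9d514220a6f) (.z (.nd false 0 12 (.nd false 4 7 (.nd false 3 8 (.pg 1 6 8 [10,9,2]) (.pg 3 5 7 [18])) (.fr 2 [4,12,13,14,15,16,17])) (.t3 [0,11]))), .t 11 (nat_lit 0x150f150e15c2150d15c111c909000931150c11d1) (.z (.nd false 9 16 (.nd false 1 10 (.pg 14 17 18 [10,2,16]) (.fr 2 [1,3,4,5,6,7,8])) (.fr 2 [0,9,11,12,13,15]))), .t 2 (nat_lit 0x11fd) (.z (.nd true 1 11 (.fr 2 [1,13,14,15,16,17,18]) (.nd false 2 7 (.fr 2 [0,7,8,9,10,11,12]) (.pg 2 3 4 [5,6])))), .t 1 (nat_lit 0) (.z (.nd false 0 18 (.nd true 1 3 (.nd false 5 10 (.pg 1 6 10 [9,2]) (.t3 [5,7,8])) (.t3 [3,4,18]))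 (.nd true 12 14 (.pg 0 12 15 [16,17]) (.t3 [11,13,14])))), .t 3 (nat_lit 0x125a1259) (.z (.nd true 7 13 (.fr 2 [7,11,15,16,17,18]) (.nd true 0 1 (.nd false 0 6 (.pg 6 8 10 [9]) (.pg 0 2 3 [4,5])) (.pg 1 12 13 [14])))), .t 7 (nat_lit 0x11d8129d0b7f129c12740ca7) (.z (.nd true 2 6 (.fr 2 [0,2,5,7,8,9,10]) (.nd false 0 17 (.pg 4 6 17 [18]) (.nd false 0 13 (.pg 15 3 14 [13,16]) (.t3 [1,11,12]))))), .t 5 (nat_lit 0xc190bec0c1a0e4d) (.z (.nd true 2 15 (.nd false 7 9 (.nd true 3 5 (.pg 0 2 3 [6,9]) (.pg 4 5 17 [18])) (.t3 [7,8,10])) (.fr 2 [1,11,12,13,14,15,16]))), .t 1 (nat_lit 0) (.z (.nd false 0 13 (.nd true 1 3 (.nd false 5 10 (.pg 1 6 10 [9,2]) (.pg 5 7 18 [8])) (.fr 2 [3,4,13,14,15,16,17])) (.t3 [0,11,12]))), .t 7 (nat_lit 0x1225120c11e0120b120a1209) (.z (.nd true 0 1 (.fr 3 [0,2,3,4,5,6,7,8,9,10])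 (.nd true 11 17 (.pg 11 13 16 [12]) (.pg 1 17 15 [14,18])))), .t 1 (nat_lit 0) (.z (.nd false 0 1 (.fr 4 [1,2,3,4,5,6,7,8,9,10,14,15,16,17,18]) (.pg 0 11 12 [13]))), .t 3 (nat_lit 0x11e511e4) (.z (.nd false 0 17 (.nd true 8 17 (.nd true 3 4 (.pg 7 8 5 [3,6]) (.t3 [1,4,18])) (.pg 2 10 9 [17])) (.fr 2 [0,11,12,13,14,15,16]))), .t 10 (nat_lit 0x12c312c212c1120f12c012bf12be126012bd) (.z (.nd true 0 1 (.fr 3 [0,2,3,4,5,6,7,8,9,10]) (.nd false 14 16 (.pg 11 13 15 [16,18,12]) (.t3 [1,14,17])))), .t 1 (nat_lit 0) (.z (.nd true 0 6 (.fr 2 [0,7,8,9,10,17,18]) (.nd true 3 5 (.pg 6 2 1 [3,16]) (.fr 2 [4,5,11,12,13,14,15])))), .t 1 (nat_lit 0) (.z (.nd false 0 18 (.nd true 1 3 (.nd false 6 10 (.pg 1 5 10 [9,2]) (.t3 [6,7,8])) (.t3 [3,4,18])) (.nd false 11 14 (.pg 0 12 13 [14,16]) (.t3 [11,15,17])))),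 .t 8 (nat_lit 0x126d126c126b0e410e3e126a11f4) (.z (.nd true 0 6 (.fr 3 [0,7,8,9,10,15,16,17,18]) (.nd true 1 4 (.pg 2 1 3 [5,6]) (.pg 4 14 13 [12,11])))), .t 3 (nat_lit 0x11f1120e) (.z (.nd false 0 1 (.nd true 1 3 (.nd false 6 10 (.pg 1 5 10 [9,2]) (.t3 [6,7,8])) (.t3 [3,4,18])) (.nd true 12 16 (.pg 0 12 15 [17]) (.pg 11 14 16 [13])))), .t 2 (nat_lit 0xb) (.z (.nd true 0 6 (.nd false 8 18 (.t3 [10,17,18]) (.pg 8 9 0 [7,16])) (.nd true 1 3 (.pg 1 6 5 [2]) (.fr 2 [3,4,11,12,13,14,15])))), .t 3 (nat_lit 0x13dc15c3) (.z (.nd false 0 17 (.nd false 2 8 (.pg 8 10 9 [17]) (.nd false 4 5 (.pg 2 18 1 [3,5]) (.t3 [4,6,7]))) (.fr 2 [0,11,12,13,14,15,16]))), .t 3 (nat_lit 0x611aa) (.z (.nd false 3 9 (.nd false 11 14 (.pg 0 12 13 [14,9]) (.t3 [1,2,11])) (.nd false 0 7 (.fr 2 [7,8,10,15,16,17,18]) (.pg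 3 4 6 [5])))), .t 5 (nat_lit 0x13bc120913bb13ba) (.z (.nd true 0 4 (.fr 2 [0,5,6,7,8,9,10]) (.nd false 15 17 (.pg 11 13 17 [16,12]) (.fr 2 [1,2,3,4,14,15,18])))), .t 4 (nat_lit 0x11f411f30004) (.z (.nd false 9 16 (.nd true 1 4 (.nd false 0 7 (.t3 [7,8,10]) (.pg 1 3 5 [6,2,17])) (.t3 [4,16,18])) (.fr 2 [0,9,11,12,13,14,15]))), .t 5 (nat_lit 0x125b141711d712a3) (.z (.nd false 0 4 (.fr 2 [4,5,6,7,8,9,10]) (.nd false 0 18 (.pg 1 3 2 [18]) (.nd false 0 13 (.pg 13 17 16 [15,14]) (.t3 [0,11,12]))))), .t 1 (nat_lit 0) (.z (.nd false 0 17 (.nd true 5 7 (.pg 2 5 8 [10,9]) (.fr 2 [1,3,4,6,7,17,18])) (.fr 2 [0,11,12,13,14,15,16]))), .t 6 (nat_lit 0x149215990e4b11ef11ee) (.z (.nd true 0 15 (.nd true 3 4 (.nd true 0 8 (.t3 [0,9,10]) (.pg 7 8 6 [3,5])) (.pg 4 17 16 [18])) (.fr 2 [1,2,11,12,13,14,15]))),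 .t 1 (nat_lit 0) (.z (.nd false 5 8 (.nd false 0 1 (.nd true 2 4 (.pg 2 6 8 [10,9]) (.t3 [1,3,4])) (.pg 0 12 13 [14])) (.fr 2 [5,7,11,15,16,17,18]))), .t 6 (nat_lit 0x11ea11e90b7f129c0b68) (.z (.nd false 0 4 (.fr 2 [4,5,6,7,8,9,10]) (.nd true 0 15 (.pg 0 16 17 [18]) (.nd false 2 14 (.pg 3 14 13 [15]) (.pg 1 11 12 [2]))))), .t 3 (nat_lit 0x12e312e2) (.z (.nd false 0 1 (.nd true 1 3 (.nd false 6 10 (.pg 1 5 10 [9,2]) (.t3 [6,7,8])) (.t3 [3,4,18])) (.nd false 11 14 (.pg 0 12 13 [14]) (.pg 11 15 17 [16])))), .t 7 (nat_lit 0x155b1233155a123211b411fd) (.z (.nd false 9 17 (.nd true 1 2 (.t3 [1,17,18]) (.nd true 0 6 (.t3 [7,8,10]) (.pg 2 3 4 [6,5]))) (.nd false 0 13 (.pg 13 14 15 [9,16]) (.t3 [0,11,12])))), .t 1 (nat_lit 0) (.z (.nd false 0 17 (.nd true 1 4 (.nd true 1 7 (.pg 1 6 8 [10,9,2]) (.t3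 [3,5,7])) (.t3 [4,17,18])) (.fr 2 [0,11,12,13,14,15,16]))), .t 7 (nat_lit 0x11ea11e9099012b315c515c4) (.z (.nd true 0 5 (.fr 3 [0,6,7,8,9,10,15,16,17,18]) (.nd false 2 13 (.pg 3 13 14 [4,5]) (.pg 1 11 12 [2])))), .t 4 (nat_lit 0x124a1249007f) (.z (.nd false 16 17 (.fr 2 [0,11,12,13,14,15,17]) (.nd true 1 3 (.nd false 5 10 (.pg 2 18 1 [6,10,9]) (.t3 [5,7,8])) (.t3 [3,4,16])))), .t 6 (nat_lit 0x130a0c2d0d1b13af0ce5) (.z (.nd false 0 2 (.nd false 3 4 (.nd false 4 8 (.pg 2 5 8 [10,9]) (.pg 4 17 18 [7,6])) (.t3 [3,15,16])) (.fr 2 [0,1,11,12,13,14]))), .t 2 (nat_lit 0x126f) (.z (.nd false 0 17 (.nd true 1 4 (.nd false 1 10 (.t3 [2,9,10]) (.pg 1 3 5 [7,8,6])) (.t3 [4,17,18])) (.fr 2 [0,11,12,13,14,15,16]))), .t 2 (nat_lit 0x126f) (.z (.nd false 0 13 (.nd true 1 4 (.nd false 1 10 (.t3 [2,9,10]) (.pg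 1 3 5 [7,8,6])) (.fr 2 [4,13,14,15,16,17,18])) (.t3 [0,11,12]))), .t 2 (nat_lit 0x1229) (.z (.nd false 15 18 (.fr 2 [0,11,12,13,14,16,18]) (.nd true 1 4 (.nd false 1 10 (.t3 [2,9,10]) (.pg 1 3 6 [7,8,5])) (.t3 [4,15,17])))), .t 6 (nat_lit 0x120812071206120513ea) (.z (.nd true 0 9 (.t3 [0,10]) (.nd false 0 5 (.pg 5 7 8 [9,6]) (.nd false 3 13 (.fr 2 [4,13,14,15,16,17,18]) (.pg 3 2 1 [11,12]))))), .t 6 (nat_lit 0x11fd12fe159115901240) (.z (.nd true 1 16 (.nd false 0 14 (.pg 14 18 1 [17,15]) (.t3 [11,12,13])) (.nd false 2 9 (.t3 [0,9,16]) (.nd true 0 6 (.t3 [7,8,10]) (.pg 2 3 4 [6,5]))))), .t 1 (nat_lit 0) (.z (.nd true 4 17 (.fr 2 [4,11,12,13,14,15,16]) (.nd false 0 1 (.nd true 1 7 (.pg 1 6 8 [10,9,2]) (.t3 [3,5,7])) (.t3 [0,17,18])))), .t 6 (nat_lit 0x11d5125b141712a811d7) (.z (.nd false 0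 4 (.fr 2 [4,5,6,7,8,9,10]) (.nd false 0 18 (.pg 1 3 2 [18]) (.nd false 0 13 (.pg 13 14 17 [16,15]) (.t3 [0,11,12]))))), .t 3 (nat_lit 0x11d411d3) (.z (.nd true 12 15 (.fr 4 [0,1,2,3,4,5,6,7,8,9,10,12,16,17,18]) (.pg 11 14 15 [13]))), .t 1 (nat_lit 0) (.z (.nd true 3 11 (.fr 3 [3,4,6,7,13,14,15,16,17,18]) (.nd false 0 1 (.pg 1 5 8 [10,9,2]) (.t3 [0,11,12])))), .t 3 (nat_lit 0x12a0129f) (.z (.nd true 13 16 (.fr 4 [0,1,2,3,4,5,6,7,8,9,10,11,12,13,18]) (.pg 14 17 16 [15]))), .t 3 (nat_lit 0x1307146f) (.z (.nd false 0 4 (.fr 2 [4,5,6,7,8,9,10]) (.nd true 1 3 (.nd false 0 16 (.pg 1 2 17 [16]) (.pg 0 12 13 [14,15])) (.t3 [3,11,18])))), .t 5 (nat_lit 0x15c8075315c715c6) (.z (.nd true 0 13 (.nd true 0 6 (.fr 2 [0,7,8,9,10,17,18]) (.nd true 1 4 (.pg 5 16 6 [2,1,3]) (.t3 [4,14,15]))) (.t3 [11,12,13]))),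 .t 3 (nat_lit 0x11a9086f) (.z (.nd false 3 9 (.nd false 2 11 (.fr 2 [1,11,14,15,16,17,18]) (.pg 13 2 9 [0,12])) (.fr 2 [3,4,5,6,7,8,10]))), .t 3 (nat_lit 0x15c91002) (.z (.nd true 0 12 (.nd false 5 7 (.nd false 7 9 (.pg 0 2 3 [6,9]) (.pg 7 18 10 [8])) (.fr 2 [4,5,13,14,15,16,17])) (.t3 [1,11,12]))), .t 3 (nat_lit 0x15ca13e9) (.z (.nd true 1 17 (.fr 4 [0,1,2,3,4,5,6,7,8,9,10,13,14,15,16]) (.pg 11 18 17 [12]))), .t 3 (nat_lit 0x10c210bf) (.z (.nd true 0 12 (.nd true 4 7 (.nd false 0 8 (.pg 8 18 10 [9]) (.pg 0 2 3 [4,5,6])) (.fr 2 [7,13,14,15,16,17])) (.t3 [1,11,12]))), .t 4 (nat_lit 0x135e135d11f0) (.z (.nd false 0 17 (.nd true 5 7 (.pg 5 8 10 [9,6]) (.pg 4 17 18 [7])) (.fr 3 [0,1,2,3,11,12,13,14,15,16]))), .t 7 (nat_lit 0x11fd151b12eb11f2151a11f1) (.z (.nd true 1 12 (.nd false 0 17 (.t3 [1,17,18])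 (.pg 11 15 16 [14,13])) (.nd false 2 9 (.t3 [0,9,12]) (.nd true 0 6 (.t3 [7,8,10]) (.pg 2 3 4 [6,5]))))), .t 4 (nat_lit 0x15cc03d815cb) (.z (.nd false 0 13 (.nd true 1 3 (.nd true 5 7 (.pg 2 5 8 [10,9]) (.pg 1 6 7 [14])) (.fr 2 [3,4,13,15,16,17,18])) (.t3 [0,11,12]))), .t 7 (nat_lit 0x1415cd1431143001a5122c) (.z (.nd true 0 4 (.nd true 0 8 (.fr 2 [0,9,10,15,16,17,18]) (.pg 5 7 8 [6])) (.nd false 3 11 (.t3 [4,11,14]) (.pg 1 12 13 [3,2])))), .t 2 (nat_lit 0x11d1) (.z (.nd true 0 16 (.pg 0 10 17 [18]) (.fr 4 [1,2,3,4,5,6,7,8,9,11,12,13,14,15,16]))), .t 3 (nat_lit 0x11ab0875) (.z (.nd false 3 9 (.nd false 2 11 (.fr 2 [1,11,13,14,16,17,18]) (.pg 15 2 9 [0,12])) (.fr 2 [3,4,5,6,7,8,10]))), .t 5 (nat_lit 0x1460145f145e141f) (.z (.nd true 1 7 (.fr 2 [0,1,2,5,8,9,10]) (.nd false 0 15 (.fr 2 [4,6,7,15,16,17,18])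 (.pg 11 14 3 [13,12])))), .t 1 (nat_lit 0) (.z (.nd false 14 18 (.nd true 0 13 (.pg 0 15 16 [17,18]) (.t3 [11,12,13])) (.nd true 1 3 (.nd false 5 10 (.pg 1 6 10 [9,2]) (.t3 [5,7,8])) (.t3 [3,4,14])))), .t 4 (nat_lit 0x15cf15ce11fd) (.z (.nd true 0 15 (.fr 2 [0,8,9,10,16,17,18]) (.nd false 0 13 (.nd true 4 7 (.pg 2 3 4 [6,5]) (.pg 7 14 13 [15])) (.t3 [1,11,12])))), .t 10 (nat_lit 0x1577151b001412ce141e141d063f0f230bec) (.z (.nd false 0 6 (.fr 2 [6,7,8,9,10]) (.nd true 0 16 (.pg 18 4 5 [0,17]) (.nd false 11 13 (.pg 1 12 13 [3,2]) (.pg 11 16 15 [14]))))), .t 5 (nat_lit 0x147110aa15d011f0) (.z (.nd false 0 5 (.nd false 7 10 (.pg 6 8 10 [9,5]) (.pg 7 16 17 [18])) (.fr 3 [0,1,2,3,4,11,12,13,14,15])))] (by decide +kernel) (by decide +kernel)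
theorem b294 : B 18816 18880 := Blk.of_chk [.t 4 (nat_lit 0x15d215d11370) (.z (.nd false 0 4 (.fr 2 [4,5,6,7,8,9,10]) (.nd false 0 17 (.pg 2 17 18 [1,3]) (.fr 2 [0,11,12,13,14,15,16])))), .t 4 (nat_lit 0x124106521240) (.z (.nd true 13 17 (.fr 4 [0,2,3,4,5,6,7,8,9,10,11,12,13,16,18]) (.pg 1 17 15 [14]))), .t 3 (nat_lit 0x11fd11aa) (.z (.nd true 1 13 (.fr 2 [1,11,15,16,17,18]) (.nd false 2 9 (.pg 0 12 13 [14,9]) (.nd true 0 6 (.t3 [7,8,10]) (.pg 2 3 4 [6,5]))))), .t 2 (nat_lit 0x926) (.z (.nd true 3 7 (.nd false 0 5 (.pg 5 8 10 [9]) (.nd false 11 14 (.pg 0 12 13 [14,2]) (.t3 [1,3,11]))) (.fr 2 [4,6,7,15,16,17,18]))), .t 3 (nat_lit 0x12e312e2) (.z (.nd false 0 4 (.fr 2 [4,5,6,7,8,9,10]) (.nd false 0 18 (.pg 1 3 2 [18]) (.nd false 11 14 (.pg 0 12 13 [14]) (.pg 11 15 17 [16]))))), .t 5 (nat_lit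 0x12cb120f12ca12c9) (.z (.nd true 0 4 (.fr 2 [0,5,6,7,8,9,10]) (.nd true 11 18 (.pg 11 13 17 [15,12]) (.fr 2 [1,2,3,4,14,16,18])))), .t 3 (nat_lit 0x12e312e2) (.z (.nd false 0 18 (.nd true 1 3 (.nd false 6 10 (.pg 1 5 10 [9,2]) (.t3 [6,7,8])) (.t3 [3,4,18])) (.nd false 11 14 (.pg 0 12 13 [14]) (.pg 11 15 17 [16])))), .t 6 (nat_lit 0x15a8124b15d3124c122c) (.z (.nd true 0 8 (.fr 2 [0,9,10,15,16,17,18]) (.nd false 0 5 (.pg 5 6 7 [8]) (.nd true 1 13 (.pg 4 3 1 [11,14]) (.t3 [2,12,13]))))), .t 4 (nat_lit 0x12770072125d) (.z (.nd false 0 1 (.nd true 4 7 (.nd false 3 9 (.pg 1 14 9 [2]) (.pg 3 4 5 [8,10,6])) (.fr 2 [7,12,13,15,16,17,18])) (.t3 [0,11]))), .t 1 (nat_lit 0) (.z (.nd false 6 18 (.pg 1 4 3 [18]) (.fr 4 [0,2,5,6,7,8,9,10,11,12,13,14,15,16,17]))), .t 6 (nat_lit 0x141522152112ce14e9) (.z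 (.nd true 4 13 (.fr 2 [4,11,14,15,16,17,18]) (.nd true 0 3 (.fr 2 [0,5,6,7,8,9,10]) (.pg 1 12 13 [3,2])))), .t 7 (nat_lit 0x11ef11ee122b122a1169085a) (.z (.nd false 1 10 (.nd false 0 13 (.pg 10 9 2 [13,14]) (.t3 [0,11,12])) (.nd false 1 3 (.pg 7 8 6 [3,5]) (.fr 2 [1,4,15,16,17,18])))), .t 5 (nat_lit 0x11d811d711d611d5) (.z (.nd false 0 18 (.nd true 1 3 (.nd false 6 10 (.pg 1 5 10 [9,2]) (.t3 [6,7,8])) (.t3 [3,4,18])) (.nd false 0 13 (.pg 16 17 15 [13,14]) (.t3 [0,11,12])))), .t 2 (nat_lit 0x87e) (.z (.nd true 10 18 (.fr 4 [1,3,4,5,6,7,8,10,11,12,13,14,15,16,17]) (.pg 0 18 2 [9]))), .t 2 (nat_lit 0x114f) (.z (.nd false 9 17 (.fr 4 [1,2,3,4,5,6,7,8,11,12,13,14,15,17,18]) (.pg 0 16 9 [10]))), .t 2 (nat_lit 0x1162) (.z (.nd true 0 17 (.pg 0 9 10 [18]) (.fr 4 [1,2,3,4,5,6,7,8,11,12,13,14,15,16,17]))),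 .t 2 (nat_lit 0x1145) (.z (.nd false 9 14 (.fr 4 [1,2,3,4,5,6,7,8,11,13,14,15,16,17,18]) (.pg 0 12 9 [10]))), .t 10 (nat_lit 0x12ad011b01dc14fa011a14f902dd14f81354) (.z (.nd true 0 4 (.fr 2 [0,5,6,7,8,9,10]) (.nd true 13 17 (.fr 2 [2,11,12,13,15,16,18]) (.pg 1 17 14 [4,3])))), .t 1 (nat_lit 0) (.z (.nd false 2 18 (.fr 4 [1,3,4,5,6,7,8,10,12,13,14,15,16,17,18]) (.pg 0 11 2 [9]))), .t 3 (nat_lit 0x11fd11ae) (.z (.nd true 1 18 (.fr 2 [1,11,13,14,15,16,17]) (.nd false 2 9 (.pg 0 12 18 [9]) (.nd true 0 6 (.t3 [7,8,10]) (.pg 2 3 4 [5,6]))))), .t 7 (nat_lit 0x86c15d413130654159813b1) (.z (.nd false 3 9 (.nd false 2 11 (.nd false 0 15 (.pg 1 17 16 [15,18]) (.t3 [11,13,14])) (.pg 0 12 2 [9])) (.fr 2 [3,4,5,6,7,8,10]))), .t 3 (nat_lit 0x11fd11b8) (.z (.nd true 1 15 (.fr 2 [1,11,12,13,14,17,18]) (.nd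 false 2 9 (.pg 0 15 16 [9]) (.nd true 0 6 (.t3 [7,8,10]) (.pg 2 3 4 [5,6]))))), .t 2 (nat_lit 0x114b) (.z (.nd false 9 12 (.fr 4 [1,2,3,4,5,6,7,8,11,12,13,15,16,17,18]) (.pg 0 14 9 [10]))), .t 3 (nat_lit 0x11fd11ae) (.z (.nd true 1 12 (.fr 2 [1,11,13,14,15,16,17]) (.nd false 2 9 (.pg 0 12 18 [9]) (.nd true 0 6 (.t3 [7,8,10]) (.pg 2 3 4 [6,5]))))), .t 4 (nat_lit 0x127108de124a) (.z (.nd false 0 17 (.nd false 1 10 (.pg 9 17 18 [2,10]) (.fr 2 [1,3,4,5,6,7,8])) (.fr 2 [0,11,12,13,14,15,16]))), .t 9 (nat_lit 0x11ea11e915d60b8a129d0b6d0b8315d5) (.z (.nd true 0 16 (.fr 3 [0,4,5,6,7,8,9,10,17,18]) (.nd false 2 13 (.pg 3 13 15 [16,14]) (.pg 1 11 12 [2])))), .t 1 (nat_lit 0) (.z (.nd true 1 14 (.fr 4 [1,2,3,4,5,6,7,8,9,10,11,15,16,17,18]) (.pg 0 12 13 [14]))), .t 1 (nat_lit 0) (.z (.nd true 13 17 (.pg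 0 12 13 [16]) (.fr 4 [1,2,3,4,5,6,7,8,9,10,11,14,15,17,18]))), .t 8 (nat_lit 0x12ff1591159011df064f11eb120f) (.z (.nd false 0 6 (.fr 2 [6,7,8,9,10]) (.nd true 0 18 (.pg 0 2 3 [4,5]) (.nd true 13 17 (.pg 11 13 15 [12]) (.pg 14 18 1 [17,16]))))), .t 4 (nat_lit 0x10c015d815d7) (.z (.nd false 0 8 (.pg 8 18 10 [9]) (.fr 4 [0,1,2,3,4,5,6,7,11,12,13,14,15,16,17]))), .t 3 (nat_lit 0x141a1419) (.z (.nd false 0 12 (.nd true 6 7 (.pg 2 6 8 [10,9]) (.nd false 0 18 (.pg 4 18 7 [5]) (.fr 2 [3,12,13,14,15,16,17]))) (.t3 [0,1,11]))), .t 4 (nat_lit 0x120019c1301) (.z (.nd false 6 18 (.pg 1 18 4 [3]) (.fr 4 [0,2,5,6,7,8,9,10,11,12,13,14,15,16,17]))), .t 3 (nat_lit 0x11e91286) (.z (.nd true 0 2 (.fr 4 [0,3,4,5,6,7,8,9,10,13,14,15,16,17,18]) (.pg 1 12 11 [2]))), .t 1 (nat_lit 0) (.z (.nd false 0 1 (.nd true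 1 3 (.nd false 5 10 (.pg 1 6 10 [9,2]) (.t3 [5,7,8])) (.t3 [3,4,18])) (.nd false 11 15 (.pg 0 12 13 [15,16]) (.t3 [11,14,17])))), .t 5 (nat_lit 0x11ea11e911ef11ee) (.z (.nd false 3 13 (.fr 2 [4,13,14,15,16,17,18]) (.nd true 0 2 (.nd true 0 8 (.t3 [0,9,10]) (.pg 7 8 6 [3,5])) (.pg 1 11 12 [2])))), .t 9 (nat_lit 0x151c12691245124412431242009c063f) (.z (.nd true 0 4 (.fr 2 [0,5,6,7,8,9,10]) (.nd true 0 17 (.t3 [3,4,18]) (.nd false 11 13 (.pg 1 12 13 [14,2]) (.pg 11 17 16 [15]))))), .t 8 (nat_lit 0x11ea11e911d8129d0b7f129c0b68) (.z (.nd true 0 16 (.fr 3 [0,4,5,6,7,8,9,10,17,18]) (.nd false 2 14 (.pg 15 3 14 [13,16]) (.pg 1 11 12 [2])))), .t 2 (nat_lit 0x925) (.z (.nd false 2 14 (.fr 4 [1,3,4,5,6,7,8,9,10,11,14,15,16,17,18]) (.pg 0 12 13 [2]))), .t 5 (nat_lit 0x13b31598065211fd) (.z (.nd false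 9 15 (.nd false 0 2 (.nd true 0 6 (.t3 [7,8,10]) (.pg 2 3 4 [5,6])) (.pg 1 17 15 [18])) (.fr 2 [0,9,11,12,13,14,16]))), .t 1 (nat_lit 0) (.z (.nd false 0 18 (.nd false 1 10 (.pg 2 10 9 [18]) (.fr 2 [1,3,4,5,6,7,8])) (.nd false 11 14 (.pg 0 12 13 [14,15]) (.t3 [11,16,17])))), .t 2 (nat_lit 0x126f) (.z (.nd false 9 11 (.nd true 1 4 (.nd false 1 10 (.t3 [2,10,17]) (.pg 1 3 5 [7,8,6])) (.fr 2 [4,11,13,14,15,16,18])) (.t3 [0,9,12]))), .t 6 (nat_lit 0x1415cd1431143001a5) (.z (.nd true 0 4 (.nd false 0 8 (.fr 2 [8,9,10,15,16,17,18]) (.pg 0 5 6 [7])) (.nd false 3 11 (.t3 [4,11,14]) (.pg 1 12 13 [3,2])))), .t 1 (nat_lit 0) (.z (.nd false 0 2 (.nd true 2 7 (.pg 2 5 8 [10,9]) (.fr 2 [3,4,6,7,16,17,18])) (.fr 2 [0,1,11,12,13,14,15]))), .t 1 (nat_lit 0) (.z (.nd false 9 17 (.fr 4 [1,2,3,4,5,6,7,8,10,13,14,15,16,17,18])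 (.pg 0 11 12 [9]))), .t 5 (nat_lit 0x12bb15ac15ab11d7) (.z (.nd false 0 12 (.nd false 3 4 (.nd false 4 8 (.pg 2 5 8 [10,9]) (.t3 [4,6,7])) (.nd false 3 13 (.pg 13 18 17 [16,15]) (.t3 [3,12,14]))) (.t3 [0,1,11]))), .t 3 (nat_lit 0x93906a2) (.z (.nd true 3 16 (.nd false 0 4 (.fr 2 [4,5,6,7,8,9,10]) (.pg 0 2 3 [17,18])) (.fr 2 [1,11,12,13,14,15,16]))), .t 3 (nat_lit 0x157d157c) (.z (.nd true 14 17 (.fr 4 [0,1,2,3,4,5,6,7,8,9,10,12,14,15,16]) (.pg 11 18 17 [13]))), .t 6 (nat_lit 0x13ba140413bc13a813e4) (.z (.nd true 0 4 (.fr 2 [0,5,6,7,8,9,10]) (.nd true 2 17 (.fr 2 [1,2,3,4,14,15,18]) (.pg 11 13 16 [17,12])))), .t 10 (nat_lit 0x135015de093515dd15dc15db15da093715d9) (.z (.nd true 0 8 (.t3 [0,9,10]) (.nd false 1 2 (.nd false 0 14 (.pg 2 17 15 [14,16,18]) (.t3 [11,12,13])) (.fr 2 [1,3,4,5,6,7,8])))),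 .t 2 (nat_lit 0x11ad) (.z (.nd true 10 17 (.fr 4 [1,2,3,4,5,6,7,8,10,11,13,14,15,16,18]) (.pg 0 12 17 [9]))), .t 2 (nat_lit 0x126f) (.z (.nd false 15 18 (.fr 2 [0,11,12,13,14,16,18]) (.nd true 1 4 (.nd false 1 10 (.t3 [2,9,10]) (.pg 1 3 5 [7,8,6])) (.t3 [4,15,17])))), .t 1 (nat_lit 0) (.z (.nd false 0 18 (.nd true 1 3 (.nd false 5 10 (.pg 1 6 10 [9,2]) (.t3 [5,7,8])) (.t3 [3,4,18])) (.nd false 11 14 (.pg 0 12 13 [14,15]) (.t3 [11,16,17])))), .t 1 (nat_lit 0) (.z (.nd true 4 16 (.fr 2 [4,11,12,13,14,15,18]) (.nd false 0 1 (.nd true 1 7 (.pg 1 6 8 [10,9,2]) (.t3 [3,5,7])) (.t3 [0,16,17])))), .t 5 (nat_lit 0x12c612c4093700a1) (.z (.nd false 0 4 (.fr 2 [4,5,6,7,8,9,10]) (.nd false 1 11 (.t3 [3,11,18]) (.nd true 0 15 (.pg 17 1 2 [0,16]) (.pg 12 13 14 [15]))))), .t 8 (nat_lit 0x120812071206120512ef15df0e41)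 (.z (.nd true 0 15 (.fr 3 [0,5,6,7,8,9,10,16,17,18]) (.nd false 3 13 (.pg 4 14 13 [15]) (.pg 3 2 1 [11,12])))), .t 3 (nat_lit 0x12a0129f) (.z (.nd true 13 17 (.fr 4 [0,1,2,3,4,5,6,7,8,9,10,11,12,13,18]) (.pg 14 17 16 [15]))), .t 1 (nat_lit 0) (.z (.nd false 2 11 (.fr 4 [3,4,5,6,7,8,9,10,11,13,14,15,16,17,18]) (.pg 0 1 12 [2]))), .t 4 (nat_lit 0x11b01991354) (.z (.nd true 3 18 (.pg 1 17 4 [3]) (.fr 4 [0,2,5,6,7,8,9,10,11,12,13,14,15,16,18]))), .t 2 (nat_lit 0x1145) (.z (.nd false 9 16 (.fr 4 [1,2,3,4,5,6,7,8,11,13,14,15,16,17,18]) (.pg 0 12 9 [10]))), .t 5 (nat_lit 0x1260120f125f125e) (.z (.nd true 0 4 (.fr 2 [0,5,6,7,8,9,10]) (.nd true 13 17 (.pg 11 13 16 [15,12]) (.fr 2 [1,2,3,4,14,17,18])))), .t 2 (nat_lit 0x63f) (.z (.nd false 0 4 (.nd false 4 8 (.pg 6 8 10 [9]) (.fr 2 [4,5,7,15,16,17,18]))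 (.nd false 11 13 (.pg 0 1 12 [13,2]) (.t3 [3,11,14])))), .t 12 (nat_lit 0x13be15e408c915e315e215e115e0089f0878129811b0) (.z (.nd false 0 12 (.nd false 1 10 (.nd false 2 14 (.t3 [14,17,18]) (.pg 9 15 12 [13,16,2,10])) (.fr 2 [1,3,4,5,6,7,8])) (.t3 [0,11]))), .t 2 (nat_lit 0x126f) (.z (.nd false 17 18 (.fr 2 [0,11,12,13,14,16,18]) (.nd true 1 4 (.nd false 1 10 (.t3 [2,9,10]) (.pg 1 3 5 [7,8,6])) (.t3 [4,15,17])))), .t 1 (nat_lit 0) (.z (.nd false 0 17 (.fr 2 [6,7,8,9,10,17,18]) (.nd true 2 16 (.pg 0 2 3 [4,5]) (.fr 2 [1,11,12,13,14,15,16]))))] (by decide +kernel) (by decide +kernel)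
theorem b295 : B 18880 18944 := Blk.of_chk [.t 4 (nat_lit 0x6154b11a9) (.z (.nd false 3 9 (.nd false 11 13 (.pg 0 12 13 [9]) (.fr 2 [1,2,11,14,15,16,17])) (.nd false 0 7 (.t3 [7,8,10]) (.pg 4 5 6 [3,18])))), .t 4 (nat_lit 0x13cd065713cb) (.z (.nd true 15 18 (.fr 4 [0,2,3,4,5,6,7,8,9,10,11,12,13,15,16]) (.pg 1 18 17 [14]))), .t 5 (nat_lit 0x12bb15ac15ab11d7) (.z (.nd false 0 4 (.fr 2 [4,5,6,7,8,9,10]) (.nd true 0 12 (.nd false 3 13 (.pg 13 18 17 [16,15]) (.pg 0 2 14 [3])) (.t3 [1,11,12])))), .t 5 (nat_lit 0x11f815e615e511f1) (.z (.nd false 0 1 (.fr 3 [1,2,3,4,5,6,7,8,9,10]) (.nd true 12 16 (.pg 0 12 15 [17]) (.pg 11 18 16 [14,13])))), .t 2 (nat_lit 0x11f4) (.z (.nd true 0 6 (.fr 2 [0,7,8,9,10,17,18]) (.nd true 1 16 (.pg 2 1 3 [5,6]) (.fr 2 [4,11,12,13,14,15,16])))), .t 3 (nat_lit 0x11fd11ad)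 (.z (.nd true 1 17 (.fr 2 [1,11,13,14,15,16,18]) (.nd false 2 9 (.pg 0 12 17 [9]) (.nd true 0 6 (.t3 [7,8,10]) (.pg 2 3 4 [6,5]))))), .t 3 (nat_lit 0x11fd11ba) (.z (.nd true 1 15 (.fr 2 [1,11,12,13,14,16,17]) (.nd false 2 9 (.pg 0 15 18 [9]) (.nd true 0 6 (.t3 [7,8,10]) (.pg 2 3 4 [6,5]))))), .t 3 (nat_lit 0x11a9086f) (.z (.nd false 3 9 (.nd false 11 13 (.pg 13 2 9 [0,12]) (.fr 2 [1,11,14,15,16,17,18])) (.fr 2 [3,4,5,6,7,8,10]))), .t 6 (nat_lit 0x12081207120612050e4b) (.z (.nd true 0 15 (.nd false 0 5 (.fr 2 [5,6,7,8,9,10,18]) (.pg 0 16 17 [4])) (.nd false 3 13 (.t3 [13,14,15]) (.pg 3 2 1 [11,12])))), .t 1 (nat_lit 0) (.z (.nd true 4 7 (.nd false 1 4 (.nd false 0 6 (.pg 6 8 10 [9]) (.pg 0 2 3 [4,5])) (.t3 [1,12,14])) (.fr 2 [7,11,13,15,16,17,18]))), .t 2 (nat_lit 0xc72) (.z (.nd true 0 3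 (.nd true 5 9 (.pg 4 5 6 [0,15]) (.fr 2 [7,8,9,10,16,17,18])) (.fr 2 [1,2,3,11,12,13,14]))), .t 3 (nat_lit 0x13091257) (.z (.nd true 0 14 (.fr 4 [0,1,2,3,4,5,6,7,8,9,10,15,16,17,18]) (.pg 11 14 13 [12]))), .t 3 (nat_lit 0x11ac0878) (.z (.nd false 3 9 (.nd true 16 17 (.pg 16 2 9 [0,12]) (.fr 2 [1,11,13,14,15,17,18])) (.fr 2 [3,4,5,6,7,8,10]))), .t 2 (nat_lit 0x1229) (.z (.nd false 17 18 (.fr 2 [0,11,12,13,14,16,18]) (.nd true 1 4 (.nd false 1 10 (.t3 [2,9,10]) (.pg 1 3 6 [7,8,5])) (.t3 [4,15,17])))), .t 6 (nat_lit 0x11ea11e90b7f129c0b68) (.z (.nd true 0 15 (.nd false 0 4 (.fr 2 [4,5,6,7,8,9,10]) (.pg 0 16 17 [18])) (.nd false 2 13 (.pg 3 14 13 [15]) (.pg 1 11 12 [2])))), .t 3 (nat_lit 0x4000b) (.z (.nd true 0 7 (.fr 2 [0,8,9,10,16,17,18]) (.nd true 6 7 (.pg 1 3 6 [5,2]) (.fr 2 [4,7,11,12,13,14,15])))),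 .t 2 (nat_lit 0x11b9) (.z (.nd true 2 17 (.fr 4 [1,2,3,4,5,6,7,8,10,11,12,13,14,16,18]) (.pg 0 15 17 [9]))), .t 3 (nat_lit 0x127c1212) (.z (.nd false 1 14 (.pg 14 17 18 [16]) (.fr 4 [0,1,2,3,4,5,6,7,8,9,10,11,12,13,15]))), .t 4 (nat_lit 0x143c143b11f0) (.z (.nd false 0 15 (.nd false 0 4 (.nd true 5 7 (.pg 5 8 10 [9,6]) (.t3 [4,7,18])) (.pg 3 16 15 [17])) (.fr 2 [0,1,2,11,12,13,14]))), .t 8 (nat_lit 0x13e3138d09900109139015e815e7) (.z (.nd true 0 4 (.nd true 0 15 (.fr 2 [0,8,9,10,16,17,18]) (.pg 5 7 15 [6])) (.nd true 1 11 (.pg 4 3 1 [13,14]) (.t3 [2,11,12])))), .t 10 (nat_lit 0x139d124113ff06570653065013fe120a1209) (.z (.nd true 0 9 (.t3 [0,10]) (.nd false 0 2 (.nd true 0 5 (.pg 6 7 8 [9]) (.pg 2 3 4 [5])) (.nd true 13 17 (.pg 11 13 16 [12]) (.pg 1 18 17 [15,14]))))), .t 3 (nat_lit 0x11ab11fd)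 (.z (.nd false 9 17 (.nd true 1 2 (.t3 [1,17,18]) (.nd true 0 6 (.t3 [7,8,10]) (.pg 2 3 4 [5,6]))) (.nd false 11 13 (.pg 0 12 13 [15,9]) (.t3 [11,14,16])))), .t 1 (nat_lit 0) (.z (.nd false 1 17 (.nd true 4 7 (.nd false 0 6 (.pg 6 8 10 [9]) (.pg 0 2 3 [4,5])) (.t3 [7,16,17])) (.fr 2 [1,11,12,13,14,15,18]))), .t 3 (nat_lit 0x11f211f1) (.z (.nd true 15 16 (.fr 4 [0,1,2,3,4,5,6,7,8,9,10,12,15,17,18]) (.pg 11 16 14 [13]))), .t 2 (nat_lit 0x11f0) (.z (.nd false 4 6 (.nd false 0 5 (.pg 6 8 10 [9,5]) (.fr 2 [0,1,2,3,12,13,14])) (.fr 2 [4,7,11,15,16,17,18]))), .t 1 (nat_lit 0) (.z (.nd true 1 3 (.nd false 0 1 (.nd false 6 10 (.pg 1 5 10 [9,2]) (.t3 [6,7,8])) (.pg 0 12 13 [14])) (.fr 2 [3,4,11,15,16,17,18]))), .t 1 (nat_lit 0) (.z (.nd false 0 1 (.nd true 1 6 (.pg 1 8 10 [9,2]) (.fr 2 [3,4,5,6,7,17,18]))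 (.fr 2 [0,11,12,13,14,15,16]))), .t 3 (nat_lit 0x15ea15e9) (.z (.nd false 0 17 (.t3 [10,17,18]) (.nd true 0 13 (.nd true 1 4 (.nd true 0 5 (.pg 0 6 7 [8,9]) (.pg 2 14 1 [3,5])) (.t3 [4,15,16])) (.t3 [11,12,13])))), .t 5 (nat_lit 0x12ce14e909f315eb) (.z (.nd false 0 1 (.nd true 3 10 (.pg 3 5 9 [2,1,12,13]) (.fr 3 [4,6,7,8,10,14,15,16,17,18])) (.t3 [0,11]))), .t 11 (nat_lit 0x1701a4142e127312ce14e914e8142c14e71272) (.z (.nd false 0 4 (.nd false 4 8 (.pg 5 8 10 [9]) (.fr 2 [4,6,7,15,16,17,18])) (.nd false 0 1 (.pg 1 12 13 [14,3,2]) (.t3 [0,11])))), .t 2 (nat_lit 0x11ab) (.z (.nd false 11 15 (.pg 0 12 15 [9]) (.fr 4 [1,2,3,4,5,6,7,8,10,11,13,14,16,17,18]))), .t 3 (nat_lit 0x11b9087b) (.z (.nd false 3 9 (.nd false 12 17 (.pg 17 2 9 [0,15]) (.fr 2 [1,11,12,13,14,16,18])) (.fr 2 [3,4,5,6,7,8,10]))),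 .t 10 (nat_lit 0x15ed15ec13c50e4b0e490e46146513dc15c3) (.z (.nd false 0 10 (.t3 [10]) (.nd true 0 13 (.nd true 1 4 (.nd true 0 5 (.pg 0 6 7 [8,9]) (.pg 2 18 1 [3,5])) (.pg 4 17 16 [15,14])) (.t3 [11,12,13])))), .t 5 (nat_lit 0x159a031211e511e4) (.z (.nd false 0 17 (.nd true 3 4 (.nd true 2 8 (.t3 [2,9,10]) (.pg 7 8 5 [3,6])) (.pg 1 4 18 [17])) (.fr 2 [0,11,12,13,14,15,16]))), .t 3 (nat_lit 0x11fd11ac) (.z (.nd true 1 12 (.fr 2 [1,11,13,14,15,17,18]) (.nd false 2 9 (.pg 0 12 16 [9]) (.nd true 0 6 (.t3 [7,8,10]) (.pg 2 3 4 [6,5]))))), .t 6 (nat_lit 0x12c913a912cb13a813a7) (.z (.nd true 0 4 (.fr 2 [0,5,6,7,8,9,10]) (.nd false 14 17 (.pg 11 13 15 [17,12]) (.fr 2 [1,2,3,4,14,16,18])))), .t 4 (nat_lit 0x13cd065713cb) (.z (.nd false 14 15 (.fr 4 [0,2,3,4,5,6,7,8,9,10,11,12,13,15,16]) (.pg 1 18 17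 [14]))), .t 1 (nat_lit 0) (.z (.nd false 0 4 (.fr 2 [4,5,6,7,8,9,10]) (.nd false 0 18 (.pg 1 3 2 [18]) (.nd false 11 15 (.pg 0 12 13 [15,17]) (.t3 [11,14,16]))))), .t 7 (nat_lit 0x1469093a11d815ee11e511e4) (.z (.nd true 3 16 (.nd true 3 4 (.nd true 0 8 (.t3 [0,9,10]) (.pg 7 8 5 [3,6])) (.t3 [4,17,18])) (.nd false 0 13 (.pg 13 14 16 [15,2]) (.t3 [1,11,12])))), .t 8 (nat_lit 0x13be13bd11d515f115f015ef13bf) (.z (.nd false 0 4 (.fr 2 [4,5,6,7,8,9,10]) (.nd false 0 12 (.nd false 0 18 (.pg 1 3 2 [18]) (.pg 16 17 15 [12,13,14])) (.t3 [0,11])))), .t 9 (nat_lit 0x15f40f5e157a15f3109f15f2157b0f3b) (.z (.nd true 4 14 (.fr 2 [4,11,12,15,16,17,18]) (.nd true 3 8 (.fr 2 [0,1,2,3,5,9,10]) (.pg 7 8 13 [14,6])))), .t 3 (nat_lit 0x11f211f1) (.z (.nd false 0 4 (.fr 2 [4,5,6,7,8,9,10]) (.nd false 0 18 (.pg 1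 3 2 [18]) (.nd true 12 14 (.pg 0 12 15 [17]) (.pg 11 16 14 [13]))))), .t 6 (nat_lit 0x11127513851276094a) (.z (.nd false 1 9 (.t3 [0,2,9]) (.nd false 0 3 (.nd true 4 7 (.pg 3 17 4 [6,8,10,5]) (.t3 [7,18])) (.fr 2 [1,11,12,13,14,15,16])))), .t 3 (nat_lit 0x128815f5) (.z (.nd true 0 13 (.fr 4 [0,2,3,4,5,6,7,8,9,10,14,15,16,17,18]) (.pg 1 12 11 [13]))), .t 2 (nat_lit 0x11f0) (.z (.nd false 4 6 (.nd false 0 5 (.pg 6 8 10 [9,5]) (.fr 2 [0,1,2,3,11,12,14])) (.fr 2 [4,7,13,15,16,17,18]))), .t 2 (nat_lit 0x14c7) (.z (.nd true 5 12 (.nd false 3 13 (.fr 2 [1,13,14,15,16,17,18]) (.pg 3 4 5 [2,11])) (.fr 2 [0,6,7,8,9,10,12]))), .t 11 (nat_lit 0x14b2139c1313065414b112a013b313b213b10652) (.z (.nd true 0 4 (.fr 2 [0,5,6,7,8,9,10]) (.nd false 0 2 (.t3 [2,3,4]) (.nd false 0 14 (.pg 15 14 18 [1,17,16]) (.t3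 [11,12,13]))))), .t 5 (nat_lit 0x14fd15f715f600a4) (.z (.nd true 1 3 (.nd true 0 2 (.fr 2 [0,5,6,7,8,9,10]) (.pg 11 18 1 [2,12])) (.fr 2 [3,4,13,14,15,16,17]))), .t 2 (nat_lit 0x640) (.z (.nd true 7 13 (.fr 2 [7,11,15,16,17,18]) (.nd false 0 2 (.nd true 0 5 (.pg 6 8 10 [9]) (.pg 2 3 4 [5])) (.pg 0 12 13 [14,1])))), .t 1 (nat_lit 0) (.z (.nd true 13 15 (.pg 0 12 13 [16]) (.fr 4 [1,2,3,4,5,6,7,8,9,10,11,14,15,17,18]))), .t 1 (nat_lit 0) (.z (.nd false 0 1 (.nd true 1 3 (.nd false 6 10 (.pg 1 5 10 [9,2]) (.t3 [6,7,8])) (.t3 [3,4,18])) (.nd true 12 14 (.pg 0 12 15 [16,17]) (.t3 [11,13,14])))), .t 1 (nat_lit 0) (.z (.nd true 4 10 (.nd true 3 4 (.pg 0 2 3 [5,9]) (.fr 2 [1,4,11,12,13,14,15])) (.fr 2 [6,7,8,10,16,17,18]))), .t 8 (nat_lit 0x11ea11e912b312b215fa15f915f8) (.z (.nd true 0 5 (.fr 3 [0,6,7,8,9,10,15,16,17,18])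 (.nd false 2 13 (.pg 3 14 13 [4,5]) (.pg 1 11 12 [2])))), .t 3 (nat_lit 0x11e511e4) (.z (.nd false 0 17 (.nd false 1 3 (.nd false 5 10 (.pg 2 10 9 [17]) (.pg 7 8 5 [3,6])) (.t3 [1,4,18])) (.fr 2 [0,11,12,13,14,15,16]))), .t 4 (nat_lit 0x93406a011f0) (.z (.nd false 0 17 (.nd true 5 7 (.pg 5 8 10 [9,6]) (.t3 [7,17,18])) (.nd true 0 12 (.nd true 3 4 (.pg 0 2 3 [15,16]) (.t3 [4,13,14])) (.t3 [1,11,12])))), .t 2 (nat_lit 0x63f) (.z (.nd true 3 13 (.fr 3 [3,4,6,7,11,14,15,16,17,18]) (.nd false 0 2 (.pg 2 5 8 [10,9]) (.pg 0 12 13 [1])))), .t 5 (nat_lit 0x137c14a311ef11ee) (.z (.nd false 3 14 (.fr 2 [1,4,14,15,16,17,18]) (.nd true 0 2 (.nd true 0 8 (.t3 [0,9,10]) (.pg 7 8 6 [3,5])) (.pg 2 12 11 [13])))), .t 5 (nat_lit 0x14031402159b1592) (.z (.nd true 2 10 (.t3 [0,2,9]) (.nd false 0 4 (.nd true 4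 7 (.pg 8 10 6 [4,5]) (.pg 7 16 17 [18])) (.fr 2 [1,3,11,12,13,14,15])))), .t 1 (nat_lit 0) (.z (.nd false 0 18 (.nd false 1 10 (.pg 2 10 9 [18]) (.fr 2 [1,3,4,5,6,7,8])) (.nd false 11 17 (.pg 0 12 13 [16,17]) (.t3 [11,14,15])))), .t 3 (nat_lit 0x15fb1288) (.z (.nd true 0 13 (.fr 4 [0,2,3,4,5,6,7,8,9,10,14,15,16,17,18]) (.pg 1 11 12 [13]))), .t 8 (nat_lit 0x13cd13cb125e12ed1260120912bd) (.z (.nd true 0 1 (.fr 3 [0,2,3,4,5,6,7,8,9,10]) (.nd false 14 16 (.pg 11 13 15 [16,12]) (.pg 1 18 17 [14])))), .t 5 (nat_lit 0x925009915fc15aa) (.z (.nd false 0 5 (.fr 3 [5,6,7,8,9,10,15,16,17,18]) (.nd false 1 11 (.pg 3 14 11 [4]) (.pg 13 1 2 [0,12])))), .t 5 (nat_lit 0x132a13291328126f) (.z (.nd true 0 7 (.fr 2 [0,8,9,10,17,18]) (.nd false 4 7 (.pg 1 3 5 [7,6,2]) (.fr 2 [4,11,12,13,14,15,16])))), .t 1 (nat_lit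 0) (.z (.nd false 11 13 (.pg 0 12 13 [15]) (.fr 4 [1,2,3,4,5,6,7,8,9,10,11,14,16,17,18])))] (by decide +kernel) (by decide +kernel)
theorem b296 : B 18944 19008 := Blk.of_chk [.t 3 (nat_lit 0x11ec11eb) (.z (.nd false 0 16 (.nd true 6 7 (.pg 6 8 10 [9]) (.fr 2 [3,4,5,7,16,17,18])) (.nd false 11 14 (.pg 0 1 14 [2]) (.pg 11 15 13 [12])))), .t 4 (nat_lit 0x6154b086c) (.z (.nd false 3 9 (.nd true 12 17 (.pg 0 12 2 [9]) (.fr 2 [1,11,13,14,15,16,17])) (.nd false 0 7 (.t3 [7,8,10]) (.pg 4 5 6 [3,18])))), .t 1 (nat_lit 0) (.z (.nd true 0 16 (.nd false 0 6 (.fr 2 [6,7,8,9,10,17,18]) (.pg 0 2 3 [4,5])) (.fr 2 [1,11,12,13,14,15,16]))), .t 6 (nat_lit 0x129b129a136e12991229) (.z (.nd false 0 8 (.t3 [8,9,10]) (.nd false 0 12 (.nd true 1 4 (.pg 1 3 6 [7,5,2,14]) (.fr 2 [4,12,13,15,16,17,18])) (.t3 [0,11])))),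 .t 9 (nat_lit 0x12f81273124415ff15fe12f715fd1272) (.z (.nd false 0 4 (.nd false 4 8 (.pg 6 8 10 [9]) (.fr 2 [4,5,7,15,16,17,18])) (.nd false 0 1 (.pg 1 12 13 [14,3,2]) (.t3 [0,11])))), .t 3 (nat_lit 0x146914fb) (.z (.nd true 11 16 (.fr 4 [0,1,2,3,4,5,6,7,8,9,10,11,12,17,18]) (.pg 13 14 15 [16]))), .t 4 (nat_lit 0x136f00bc136e) (.z (.nd true 3 7 (.nd false 0 5 (.pg 5 8 10 [9]) (.nd false 0 13 (.pg 2 13 14 [1,3]) (.t3 [0,11,12]))) (.fr 2 [4,6,7,15,16,17,18]))), .t 2 (nat_lit 0x114b) (.z (.nd false 9 11 (.fr 4 [1,2,3,4,5,6,7,8,11,12,13,15,16,17,18]) (.pg 0 14 9 [10]))), .t 7 (nat_lit 0x11ea11e912a3123811ef11ee) (.z (.nd true 0 16 (.nd true 3 4 (.nd true 0 8 (.t3 [0,9,10]) (.pg 7 8 6 [3,5])) (.t3 [4,17,18])) (.nd false 2 13 (.pg 13 15 16 [14]) (.pg 1 11 12 [2])))), .t 1 (nat_lit 0) (.z (.nd false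 0 17 (.nd true 6 7 (.pg 2 6 8 [10,9]) (.fr 2 [1,3,4,5,7,17,18])) (.fr 2 [0,11,12,13,14,15,16]))), .t 6 (nat_lit 0x129b129a1229081b1600) (.z (.nd false 0 12 (.nd true 1 4 (.nd false 1 8 (.pg 9 14 2 [8,10]) (.pg 1 3 6 [7,5])) (.fr 2 [4,12,13,15,16,17,18])) (.t3 [0,11]))), .t 1 (nat_lit 0) (.z (.nd true 3 4 (.nd true 3 10 (.pg 0 2 3 [5,9]) (.fr 2 [6,7,8,10,16,17,18])) (.fr 2 [1,4,11,12,13,14,15]))), .t 1 (nat_lit 0) (.z (.nd false 5 18 (.pg 1 4 3 [18]) (.fr 4 [0,2,5,6,7,8,9,10,11,12,13,14,15,16,17]))), .t 1 (nat_lit 0) (.z (.nd false 1 4 (.nd true 4 7 (.nd false 0 6 (.pg 6 8 10 [9]) (.pg 0 2 3 [4,5])) (.t3 [7,16,18])) (.fr 2 [1,11,12,13,14,15,17]))), .t 3 (nat_lit 0x11f211f1) (.z (.nd true 12 16 (.fr 4 [0,1,2,3,4,5,6,7,8,9,10,12,15,17,18]) (.pg 11 16 14 [13]))), .t 6 (nat_lit 0x133c11d313ac12ec11fd)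 (.z (.nd false 9 11 (.nd false 0 2 (.nd true 0 6 (.t3 [7,8,10]) (.pg 2 3 4 [6,5])) (.nd false 0 17 (.t3 [1,17,18]) (.pg 11 14 16 [15,13]))) (.t3 [0,9,12]))), .t 7 (nat_lit 0x120412030e4c120212011200) (.z (.nd true 0 14 (.nd false 4 7 (.fr 2 [0,5,6,7,8,9,10]) (.pg 15 18 17 [16,4])) (.fr 2 [1,2,3,11,12,13,14]))), .t 7 (nat_lit 0x170016125813b012ec11eb) (.z (.nd true 0 16 (.fr 3 [0,4,5,6,7,8,9,10,17,18]) (.nd false 3 13 (.pg 11 16 15 [13,12]) (.pg 1 14 3 [2])))), .t 1 (nat_lit 0) (.z (.nd true 4 17 (.fr 2 [4,11,12,13,14,16]) (.nd false 0 1 (.nd true 1 7 (.pg 1 6 8 [10,9,2]) (.t3 [3,5,7])) (.pg 0 15 17 [18])))), .t 2 (nat_lit 0x63f) (.z (.nd true 4 7 (.nd false 0 2 (.nd true 0 5 (.pg 6 8 10 [9]) (.pg 2 3 4 [5])) (.pg 0 1 12 [13])) (.fr 2 [7,11,14,15,16,17,18]))), .t 1 (nat_lit 0) (.z (.nd true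 3 4 (.nd false 6 9 (.pg 0 2 3 [5,9]) (.fr 2 [6,7,8,10,16,17,18])) (.fr 2 [1,4,11,12,13,14,15]))), .t 1 (nat_lit 0) (.z (.nd false 6 16 (.nd true 7 10 (.pg 0 2 5 [7,8,9]) (.t3 [10,16,18])) (.fr 3 [1,3,4,6,11,12,13,14,15,17]))), .t 2 (nat_lit 0x1162) (.z (.nd true 0 8 (.pg 0 9 10 [18]) (.fr 4 [1,2,3,4,5,6,7,8,11,12,13,14,15,16,17]))), .t 4 (nat_lit 0x138b138a0645) (.z (.nd true 15 17 (.fr 4 [0,2,3,4,5,6,7,8,9,10,11,12,15,16,18]) (.pg 1 17 13 [14]))), .t 5 (nat_lit 0x1603143716021601) (.z (.nd false 0 3 (.nd false 3 4 (.fr 2 [4,5,6,7,8,9,10]) (.pg 3 18 17 [16,15])) (.fr 2 [0,1,2,11,12,13,14]))), .t 8 (nat_lit 0xf2807881604093611d9065411df) (.z (.nd false 0 6 (.fr 2 [6,7,8,9,10]) (.nd true 0 13 (.nd true 1 18 (.pg 1 17 16 [14]) (.pg 2 3 4 [5,0,15,18])) (.t3 [11,12,13])))), .t 4 (nat_lit 0x12350c1a1419)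 (.z (.nd true 1 7 (.fr 2 [0,1,2,6,8,9,10]) (.nd false 0 17 (.pg 5 17 18 [4,7]) (.fr 2 [3,11,12,13,14,15,16])))), .t 3 (nat_lit 0x11a81493) (.z (.nd false 0 17 (.pg 9 17 18 [10]) (.fr 4 [0,1,2,3,4,5,6,7,8,11,12,13,14,15,16]))), .t 5 (nat_lit 0x12c112ba125112b9) (.z (.nd false 0 4 (.fr 2 [4,5,6,7,8,9,10]) (.nd true 11 16 (.fr 2 [0,1,2,3,11,12,17]) (.pg 13 14 15 [18,16])))), .t 1 (nat_lit 0) (.z (.nd true 6 17 (.nd true 7 10 (.pg 0 6 7 [8,9]) (.t3 [10,16,18])) (.nd true 1 4 (.pg 1 3 5 [2]) (.fr 2 [4,11,12,13,14,15,17])))), .t 1 (nat_lit 0) (.z (.nd false 0 17 (.t3 [10,17,18]) (.nd true 1 4 (.nd true 0 5 (.pg 0 6 7 [8,9]) (.pg 1 3 5 [2])) (.fr 2 [4,11,12,13,14,15,16])))), .t 6 (nat_lit 0x1e16061605020b1370) (.z (.nd false 0 4 (.fr 2 [4,5,6,7,8,9,10]) (.nd false 0 17 (.pg 1 18 17 [3,2]) (.fr 2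 [0,11,12,13,14,15,16])))), .t 2 (nat_lit 0x1607) (.z (.nd false 0 12 (.nd true 7 12 (.fr 3 [3,4,5,7,13,14,15,16,17,18]) (.pg 6 8 10 [9,2,12])) (.t3 [0,1,11]))), .t 3 (nat_lit 0x14b113d1) (.z (.nd true 13 17 (.fr 4 [0,1,2,3,4,5,6,7,8,9,10,11,12,13,16]) (.pg 14 18 17 [15]))), .t 3 (nat_lit 0x16081585) (.z (.nd true 1 15 (.fr 4 [0,1,2,3,4,5,6,7,8,9,10,13,14,16,17]) (.pg 11 18 15 [12]))), .t 4 (nat_lit 0x155009aa11f0) (.z (.nd false 0 17 (.nd true 5 7 (.pg 5 8 10 [9,6]) (.t3 [7,17,18])) (.nd false 0 3 (.pg 3 4 16 [15]) (.fr 2 [0,1,2,11,12,13,14])))), .t 2 (nat_lit 0x11aa) (.z (.nd false 13 14 (.pg 0 12 14 [9]) (.fr 4 [1,2,3,4,5,6,7,8,10,11,13,15,16,17,18]))), .t 2 (nat_lit 0x11aa) (.z (.nd false 7 9 (.nd false 11 14 (.pg 0 12 13 [14,9]) (.fr 2 [1,2,3,4,5,6,11])) (.fr 2 [7,8,10,15,16,17,18]))),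 .t 2 (nat_lit 0x1229) (.z (.nd true 4 17 (.fr 2 [4,11,12,13,14,15,16]) (.nd false 0 1 (.nd false 1 10 (.t3 [2,9,10]) (.pg 1 3 6 [7,8,5])) (.t3 [0,17,18])))), .t 2 (nat_lit 0x11f0) (.z (.nd true 0 3 (.nd false 0 18 (.nd true 5 7 (.pg 5 8 10 [9,6]) (.t3 [4,7,18])) (.pg 0 15 16 [17])) (.fr 2 [1,2,3,11,12,13,14]))), .t 5 (nat_lit 0x12f8127312f71272) (.z (.nd false 4 8 (.nd false 0 1 (.nd false 1 8 (.pg 2 5 8 [10,9]) (.pg 1 12 13 [14,3])) (.t3 [0,11])) (.fr 2 [4,6,7,15,16,17,18]))), .t 11 (nat_lit 0x160b160a12de1300135013a1093812dd09391609) (.z (.nd true 0 4 (.fr 2 [0,5,6,7,8,9,10]) (.nd false 1 2 (.nd false 0 14 (.pg 14 16 17 [18,2,15]) (.t3 [11,12,13])) (.t3 [1,3,4])))), .t 3 (nat_lit 0x12051207) (.z (.nd true 0 3 (.fr 4 [0,4,5,6,7,8,9,10,12,13,14,15,16,17,18]) (.pg 1 11 3 [2]))), .t 6 (nat_lit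 0x124c019e160d160c1301) (.z (.nd false 0 5 (.fr 2 [5,6,7,8,9,10]) (.nd false 11 16 (.nd false 0 16 (.t3 [2,16,17]) (.pg 0 12 13 [14,15])) (.pg 1 18 11 [4,3])))), .t 3 (nat_lit 0x11ea11e9) (.z (.nd true 0 2 (.fr 4 [0,3,4,5,6,7,8,9,10,13,14,15,16,17,18]) (.pg 1 11 12 [2]))), .t 7 (nat_lit 0x14f514f414f314ee11eb120f) (.z (.nd true 0 2 (.fr 3 [0,3,4,5,6,7,8,9,10,18]) (.nd true 13 17 (.pg 11 13 15 [12]) (.pg 2 17 16 [14,1])))), .t 3 (nat_lit 0x11ec11eb) (.z (.nd true 14 15 (.fr 4 [0,1,2,3,4,5,6,7,8,9,10,14,16,17,18]) (.pg 11 15 13 [12]))), .t 2 (nat_lit 0x11ae) (.z (.nd false 11 18 (.pg 0 12 18 [9]) (.fr 4 [1,2,3,4,5,6,7,8,10,11,13,14,15,16,17]))), .t 6 (nat_lit 0x160f14211420160e141f) (.z (.nd true 1 7 (.fr 2 [0,1,2,6,8,9,10]) (.nd false 0 15 (.fr 2 [4,5,7,15,16,17,18]) (.pg 3 13 12 [11,14])))),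 .t 7 (nat_lit 0x16131612009e161116100b77) (.z (.nd true 0 16 (.nd false 0 4 (.fr 2 [4,5,6,7,8,9,10]) (.pg 0 3 17 [18])) (.nd true 11 13 (.pg 15 2 1 [11,12]) (.t3 [13,14,16])))), .t 3 (nat_lit 0x14b113d1) (.z (.nd false 1 17 (.pg 14 18 17 [15]) (.fr 4 [0,1,2,3,4,5,6,7,8,9,10,11,12,13,16]))), .t 1 (nat_lit 0) (.z (.nd false 1 4 (.nd true 4 7 (.nd false 0 6 (.pg 6 8 10 [9]) (.pg 0 2 3 [4,5])) (.t3 [7,16,17])) (.fr 2 [1,11,12,13,14,15,18]))), .t 2 (nat_lit 0x1162) (.z (.nd true 9 17 (.pg 0 9 10 [18]) (.fr 4 [1,2,3,4,5,6,7,8,11,12,13,14,15,16,17]))), .t 2 (nat_lit 0x11fd) (.z (.nd true 1 11 (.fr 2 [1,13,14,15,16,17,18]) (.nd false 2 7 (.fr 2 [0,7,8,9,10,11,12]) (.pg 2 3 4 [6,5])))), .t 1 (nat_lit 0) (.z (.nd true 0 14 (.nd false 4 17 (.nd true 7 10 (.pg 0 5 6 [7,8,9]) (.t3 [10,17,18])) (.t3 [4,15,16]))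 (.fr 2 [1,2,3,11,12,13,14]))), .t 4 (nat_lit 0x9420006086c) (.z (.nd false 3 9 (.nd false 2 11 (.fr 2 [1,11,13,14,15,16,17]) (.pg 0 12 2 [9])) (.nd false 0 7 (.t3 [7,8,10]) (.pg 4 6 5 [3,18])))), .t 4 (nat_lit 0x41370000b) (.z (.nd false 0 8 (.t3 [8,9,10]) (.nd false 0 17 (.nd false 4 6 (.pg 1 3 6 [5,2,18]) (.t3 [4,7,17])) (.fr 2 [0,11,12,13,14,15,16])))), .t 3 (nat_lit 0x12691268) (.z (.nd false 0 1 (.nd true 1 3 (.nd false 6 10 (.pg 1 5 10 [9,2]) (.t3 [6,7,8])) (.t3 [3,4,18])) (.nd false 11 14 (.pg 0 12 13 [14]) (.pg 11 16 17 [15])))), .t 2 (nat_lit 0x926) (.z (.nd false 0 4 (.nd false 4 8 (.pg 5 8 10 [9]) (.fr 2 [4,6,7,15,16,17,18])) (.nd false 11 14 (.pg 0 12 13 [14,2]) (.t3 [1,3,11])))), .t 1 (nat_lit 0) (.z (.nd true 0 3 (.nd false 4 18 (.nd true 7 10 (.pg 0 5 6 [7,8,9]) (.t3 [10,17,18]))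 (.t3 [4,15,16])) (.fr 2 [1,2,3,11,12,13,14]))), .t 1 (nat_lit 0) (.z (.nd false 0 6 (.fr 2 [6,7,8,9,10,17,18]) (.nd false 1 4 (.pg 5 0 2 [3,4,16]) (.fr 2 [1,11,12,13,14,15])))), .t 3 (nat_lit 0x15c91002) (.z (.nd false 0 13 (.nd true 3 6 (.nd false 7 9 (.pg 1 3 5 [9,2]) (.pg 7 18 10 [8])) (.fr 2 [4,6,13,14,15,16,17])) (.t3 [0,11,12]))), .t 6 (nat_lit 0x13840e4d138311ef11ee) (.z (.nd true 0 15 (.nd true 3 4 (.nd true 0 8 (.t3 [0,9,10]) (.pg 7 8 6 [3,5])) (.pg 4 18 17 [16])) (.fr 2 [1,2,11,12,13,14,15]))), .t 11 (nat_lit 0x161815c2123d1617131a123b1616161516141318) (.z (.nd true 0 13 (.nd false 1 10 (.nd true 0 2 (.t3 [0,9,10]) (.pg 2 16 14 [15,17,18])) (.fr 2 [1,3,4,5,6,7,8])) (.t3 [11,12,13])))] (by decide +kernel) (by decide +kernel)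
theorem b297 : B 19008 19072 := Blk.of_chk [.t 1 (nat_lit 0) (.z (.nd false 0 18 (.nd true 1 3 (.nd false 5 10 (.pg 1 6 10 [9,2]) (.t3 [5,7,8])) (.t3 [3,4,18])) (.nd false 11 16 (.pg 0 12 13 [15,16]) (.t3 [11,14,17])))), .t 3 (nat_lit 0x16191321) (.z (.nd false 17 18 (.nd false 11 13 (.pg 0 12 13 [15]) (.pg 11 14 18 [16])) (.nd true 1 3 (.nd false 6 10 (.pg 1 5 10 [9,2]) (.t3 [6,7,8])) (.t3 [3,4,17])))), .t 1 (nat_lit 0) (.z (.nd false 0 18 (.nd true 1 3 (.nd false 5 10 (.pg 1 6 10 [9,2]) (.t3 [5,7,8])) (.t3 [3,4,18])) (.nd false 11 13 (.pg 0 12 13 [15,16]) (.t3 [11,14,17])))), .t 2 (nat_lit 0x11f4) (.z (.nd true 0 7 (.fr 2 [0,8,9,10,16,17,18]) (.nd false 4 5 (.pg 2 1 3 [5,6]) (.fr 2 [4,7,11,12,13,14,15])))), .t 8 (nat_lit 0x150b156606411509156511ef11ee) (.z (.nd true 0 16 (.nd true 3 4 (.nd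 true 0 8 (.t3 [0,9,10]) (.pg 7 8 6 [3,5])) (.t3 [4,17,18])) (.nd true 12 13 (.pg 1 12 15 [16,2]) (.t3 [11,13,14])))), .t 3 (nat_lit 0x13c213c1) (.z (.nd false 0 7 (.fr 2 [7,8,9,10,16,17,18]) (.nd false 0 3 (.pg 3 4 15 [6,5]) (.fr 2 [0,1,2,11,12,13,14])))), .t 1 (nat_lit 0) (.z (.nd true 4 7 (.nd false 1 4 (.nd false 0 6 (.pg 6 8 10 [9]) (.pg 0 2 3 [4,5])) (.t3 [1,13,14])) (.fr 2 [7,11,12,15,16,17,18]))), .t 1 (nat_lit 0) (.z (.nd true 9 16 (.pg 0 9 18 [10]) (.fr 4 [1,2,3,4,5,6,7,8,11,12,13,14,15,16,17]))), .t 3 (nat_lit 0x9250099) (.z (.nd false 11 14 (.nd true 1 9 (.pg 13 1 2 [0,12]) (.fr 2 [5,6,7,8,9,10,14])) (.fr 2 [3,4,11,15,16,17,18]))), .t 3 (nat_lit 0x11fd11b9) (.z (.nd true 17 18 (.nd false 2 9 (.pg 0 15 17 [9]) (.nd true 0 6 (.t3 [7,8,10]) (.pg 2 3 4 [6,5]))) (.fr 2 [1,11,12,13,14,16,18]))),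 .t 8 (nat_lit 0x159111e0125e12ed1260120912bd) (.z (.nd true 0 1 (.fr 3 [0,2,3,4,5,6,7,8,9,10]) (.nd true 13 17 (.pg 11 13 15 [16,12]) (.pg 1 17 14 [18])))), .t 5 (nat_lit 0xc190bec0c1a0e4d) (.z (.nd true 2 16 (.nd false 7 9 (.nd true 3 5 (.pg 0 2 3 [6,9]) (.pg 4 5 17 [18])) (.t3 [7,8,10])) (.fr 2 [1,11,12,13,14,15,16]))), .t 4 (nat_lit 0x120019c1301) (.z (.nd false 1 5 (.fr 4 [0,2,5,6,7,8,9,10,11,12,13,14,15,16,17]) (.pg 1 18 4 [3]))), .t 1 (nat_lit 0) (.z (.nd false 0 4 (.fr 2 [4,5,6,7,8,9,10]) (.nd false 0 18 (.pg 1 3 2 [18]) (.nd false 11 13 (.pg 0 12 13 [15,16]) (.t3 [11,14,17]))))), .t 3 (nat_lit 0x9250099) (.z (.nd false 0 15 (.fr 2 [8,9,10,15,16,17,18]) (.nd false 1 11 (.fr 2 [3,4,5,6,7,11,14]) (.pg 13 1 2 [0,12])))), .t 1 (nat_lit 0) (.z (.nd false 0 18 (.nd true 1 3 (.nd false 6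 10 (.pg 1 5 10 [9,2]) (.t3 [6,7,8])) (.t3 [3,4,18])) (.nd false 11 14 (.pg 0 12 13 [14,17]) (.t3 [11,15,16])))), .t 4 (nat_lit 0x12a612a509a9) (.z (.nd false 0 6 (.fr 2 [6,7,8,9,10,17,18]) (.nd false 0 3 (.pg 15 16 5 [3,4]) (.fr 2 [0,1,2,11,12,13,14])))), .t 1 (nat_lit 0) (.z (.nd true 0 4 (.nd true 7 10 (.pg 0 5 6 [7,8,9]) (.fr 2 [10,14,15,16,17,18])) (.fr 2 [1,2,3,4,11,12,13]))), .t 3 (nat_lit 0x211370) (.z (.nd false 0 4 (.fr 2 [4,5,6,7,8,9,10]) (.nd false 0 18 (.pg 1 18 3 [2]) (.nd false 11 14 (.pg 0 12 13 [14,17]) (.t3 [11,15,16]))))), .t 4 (nat_lit 0x161b161a11a2) (.z (.nd false 0 9 (.pg 9 18 17 [10]) (.fr 4 [0,1,2,3,4,5,6,7,8,11,12,13,14,15,16]))), .t 6 (nat_lit 0x12c913a912cb13a813a7) (.z (.nd true 0 4 (.fr 2 [0,5,6,7,8,9,10]) (.nd false 14 15 (.pg 11 13 15 [17,12]) (.fr 2 [1,2,3,4,14,16,18])))),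 .t 5 (nat_lit 0x129b129a12991229) (.z (.nd true 0 7 (.fr 2 [0,8,9,10,16,17,18]) (.nd true 1 4 (.pg 1 3 6 [7,5,2]) (.fr 2 [4,11,12,13,14,15])))), .t 1 (nat_lit 0) (.z (.nd true 4 17 (.fr 2 [4,11,12,13,14,15,16]) (.nd false 0 1 (.nd true 1 7 (.pg 1 5 8 [10,9,2]) (.t3 [3,6,7])) (.t3 [0,17,18])))), .t 8 (nat_lit 0x161e161d140914080e59161c1406) (.z (.nd false 2 10 (.t3 [0,9,10]) (.nd false 0 15 (.nd true 4 16 (.t3 [4,17,18]) (.pg 5 7 8 [6,15,16])) (.fr 2 [1,2,3,11,12,13,14])))), .t 6 (nat_lit 0x12f200a6141812f00099) (.z (.nd true 0 7 (.fr 2 [0,8,9,10,16,17,18]) (.nd false 1 11 (.fr 2 [3,4,6,7,11,14,15]) (.pg 2 12 13 [1,5])))), .t 4 (nat_lit 0x11f411f30004) (.z (.nd false 0 8 (.t3 [8,9,10]) (.nd false 0 17 (.nd false 4 5 (.pg 1 3 5 [6,2,17]) (.t3 [4,7,18])) (.fr 2 [0,11,12,13,14,15,16])))), .t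 1 (nat_lit 0) (.z (.nd true 0 12 (.nd false 7 9 (.nd true 4 6 (.pg 0 2 3 [4,5,9]) (.t3 [6,13,14])) (.fr 2 [7,8,10,15,16,17,18])) (.t3 [1,11,12]))), .t 2 (nat_lit 0x11f0) (.z (.nd false 0 17 (.nd true 6 18 (.pg 6 8 10 [9,5]) (.t3 [7,17,18])) (.nd false 1 4 (.pg 0 2 3 [4]) (.fr 2 [1,11,12,13,14,15,16])))), .t 7 (nat_lit 0x86c139a16211620161f0654) (.z (.nd false 3 9 (.nd false 2 11 (.nd false 0 15 (.pg 15 16 17 [1,18]) (.t3 [11,13,14])) (.pg 0 12 2 [9])) (.fr 2 [3,4,5,6,7,8,10]))), .t 5 (nat_lit 0x16231399162211f9) (.z (.nd true 0 3 (.nd true 0 4 (.fr 2 [0,5,6,7,8,9,10]) (.pg 15 17 4 [18,16])) (.fr 2 [1,2,3,11,12,13,14]))), .t 4 (nat_lit 0x14ed000611a9) (.z (.nd false 3 9 (.nd false 11 13 (.pg 0 12 13 [9]) (.fr 2 [1,2,11,14,15,16,17])) (.nd false 0 7 (.t3 [7,8,10]) (.pg 4 5 6 [3,18])))), .t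 3 (nat_lit 0x126e11d4) (.z (.nd false 0 1 (.nd true 1 3 (.nd false 5 10 (.pg 1 6 10 [9,2]) (.t3 [5,7,8])) (.t3 [3,4,18])) (.nd true 12 14 (.pg 0 12 16 [17]) (.pg 11 15 14 [13])))), .t 1 (nat_lit 0) (.z (.nd false 0 18 (.nd false 1 10 (.pg 2 10 9 [18]) (.fr 2 [1,3,4,5,6,7,8])) (.nd false 11 14 (.pg 0 12 13 [14,17]) (.t3 [11,15,16])))), .t 1 (nat_lit 0) (.z (.nd false 0 18 (.nd true 1 3 (.nd false 5 10 (.pg 1 6 10 [9,2]) (.t3 [5,7,8])) (.t3 [3,4,18])) (.nd false 11 17 (.pg 0 12 13 [15,17]) (.t3 [11,14,16])))), .t 7 (nat_lit 0x120c13cd134713cb120a1209) (.z (.nd true 0 1 (.fr 3 [0,2,3,4,5,6,7,8,9,10]) (.nd true 13 17 (.pg 11 13 16 [12]) (.pg 1 18 17 [14,15])))), .t 6 (nat_lit 0x11d815a315a213fc11fd) (.z (.nd false 9 17 (.nd false 0 2 (.nd true 0 6 (.t3 [7,8,10]) (.pg 2 3 4 [5,6])) (.t3 [1,17,18]))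 (.nd false 0 13 (.pg 16 9 15 [13,14]) (.t3 [0,11,12])))), .t 6 (nat_lit 0x139f14cc064d11bc087e) (.z (.nd false 3 9 (.nd true 0 13 (.nd false 15 18 (.pg 18 2 9 [0,16]) (.pg 1 15 14 [17])) (.t3 [11,12,13])) (.fr 2 [3,4,5,6,7,8,10]))), .t 5 (nat_lit 0x1492159911ef11ee) (.z (.nd true 0 8 (.t3 [0,9,10]) (.nd false 0 16 (.nd true 3 4 (.pg 7 8 6 [3,5]) (.pg 4 17 16 [18])) (.fr 2 [1,2,11,12,13,14,15])))), .t 11 (nat_lit 0x1629142116280b68162713091626162516240b66) (.z (.nd false 0 16 (.fr 3 [4,5,6,7,8,9,10,16,17,18]) (.nd true 1 3 (.t3 [0,1,2]) (.pg 12 11 15 [3,14,13])))), .t 3 (nat_lit 0x11ea11e9) (.z (.nd true 0 4 (.nd true 7 8 (.pg 0 5 6 [7,9]) (.t3 [8,10,18])) (.nd false 2 13 (.fr 2 [3,4,13,14,15,16,17]) (.pg 1 11 12 [2])))), .t 2 (nat_lit 0x1150) (.z (.nd true 8 17 (.fr 4 [1,2,3,4,5,6,7,8,11,12,13,14,15,16,18])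 (.pg 0 17 9 [10]))), .t 3 (nat_lit 0xb7411f0) (.z (.nd false 0 18 (.nd true 6 7 (.pg 6 8 10 [9,5]) (.t3 [4,7,18])) (.nd true 0 15 (.pg 0 3 16 [17]) (.fr 2 [1,2,11,12,13,14,15])))), .t 8 (nat_lit 0x12ab12aa12a912a812a70868124a) (.z (.nd false 0 18 (.nd false 1 10 (.pg 2 18 10 [9]) (.fr 2 [1,3,4,5,6,7,8])) (.nd false 0 13 (.pg 13 14 15 [17,16]) (.t3 [0,11,12])))), .t 2 (nat_lit 0x11ac) (.z (.nd false 9 18 (.fr 4 [1,2,3,4,5,6,7,8,10,11,13,14,15,17,18]) (.pg 0 12 16 [9]))), .t 3 (nat_lit 0x11fd11a9) (.z (.nd true 13 14 (.nd false 2 9 (.pg 0 12 13 [9]) (.nd true 0 6 (.t3 [7,8,10]) (.pg 2 3 4 [5,6]))) (.fr 2 [1,11,14,15,16,17,18]))), .t 3 (nat_lit 0x11d411d3) (.z (.nd false 0 18 (.nd true 1 3 (.nd false 5 10 (.pg 1 6 10 [9,2]) (.t3 [5,7,8])) (.t3 [3,4,18])) (.nd false 11 17 (.pg 0 12 16 [17]) (.pg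 11 14 15 [13])))), .t 6 (nat_lit 0x162d162c11ee162b162a) (.z (.nd false 2 10 (.t3 [0,9,10]) (.nd false 0 3 (.nd true 4 16 (.t3 [4,17,18]) (.pg 7 8 6 [3,16,5])) (.fr 2 [1,2,11,12,13,14,15])))), .t 3 (nat_lit 0x133c11d8) (.z (.nd true 11 15 (.fr 4 [0,1,2,3,4,5,6,7,8,9,10,11,12,17,18]) (.pg 13 14 16 [15]))), .t 3 (nat_lit 0x11fd11ba) (.z (.nd true 1 16 (.fr 2 [1,11,12,13,14,17]) (.nd false 2 9 (.pg 0 15 16 [18,9]) (.nd true 0 6 (.t3 [7,8,10]) (.pg 2 3 4 [6,5]))))), .t 4 (nat_lit 0x41370000b) (.z (.nd false 0 8 (.t3 [8,9,10]) (.nd false 0 17 (.nd true 6 7 (.pg 1 3 6 [5,2,18]) (.t3 [4,7,17])) (.fr 2 [0,11,12,13,14,15,16])))), .t 5 (nat_lit 0x982136a15181369) (.z (.nd true 0 4 (.nd false 0 8 (.fr 2 [8,9,10,15,16,17,18]) (.pg 0 5 6 [7])) (.nd false 2 12 (.pg 12 13 14 [4,3]) (.t3 [1,2,11])))), .t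 4 (nat_lit 0x15d2162e11f3) (.z (.nd false 0 4 (.fr 2 [4,5,6,7,8,9,10]) (.nd false 0 17 (.pg 2 18 17 [1,3]) (.fr 2 [0,11,12,13,14,15,16])))), .t 3 (nat_lit 0x11fd11ae) (.z (.nd true 1 12 (.fr 2 [1,11,13,14,15,16,17]) (.nd false 2 9 (.pg 0 12 18 [9]) (.nd true 0 6 (.t3 [7,8,10]) (.pg 2 3 4 [5,6]))))), .t 1 (nat_lit 0) (.z (.nd false 11 16 (.pg 0 12 15 [16]) (.fr 4 [1,2,3,4,5,6,7,8,9,10,11,13,14,17,18]))), .t 6 (nat_lit 0x122514b2064d11bb087b) (.z (.nd false 3 9 (.nd true 0 13 (.nd false 15 17 (.pg 17 2 9 [0,16]) (.pg 1 15 14 [18])) (.t3 [11,12,13])) (.fr 2 [3,4,5,6,7,8,10]))), .t 3 (nat_lit 0x11fd11bb) (.z (.nd true 1 17 (.fr 2 [1,11,12,13,14,15,18]) (.nd false 2 9 (.pg 0 16 17 [9]) (.nd true 0 6 (.t3 [7,8,10]) (.pg 2 3 4 [6,5]))))), .t 1 (nat_lit 0) (.z (.nd true 0 4 (.nd true 7 10 (.pg 0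 5 6 [7,8,9]) (.t3 [10,17,18])) (.fr 3 [1,2,3,4,11,12,13,14,15,16]))), .t 1 (nat_lit 0) (.z (.nd false 13 17 (.pg 0 11 12 [17]) (.fr 4 [1,2,3,4,5,6,7,8,9,10,13,14,15,16,18]))), .t 4 (nat_lit 0x152c162f11f4) (.z (.nd true 0 6 (.fr 3 [0,7,8,9,10,14,15,16,17,18]) (.nd true 1 4 (.pg 2 1 3 [5,6]) (.pg 4 12 11 [13])))), .t 3 (nat_lit 0x12fe120d) (.z (.nd true 11 17 (.fr 4 [0,1,2,3,4,5,6,7,8,9,10,11,12,13,16]) (.pg 14 18 17 [15]))), .t 3 (nat_lit 0x16311630) (.z (.nd true 0 12 (.fr 4 [0,3,4,5,6,7,8,9,10,13,14,15,16,17,18]) (.pg 1 11 12 [2]))), .t 5 (nat_lit 0x11d8125013371254) (.z (.nd false 17 18 (.nd false 0 13 (.pg 16 18 15 [13,14]) (.t3 [0,11,12])) (.nd true 1 3 (.nd false 6 10 (.pg 1 5 10 [9,2]) (.t3 [6,7,8])) (.t3 [3,4,17])))), .t 2 (nat_lit 0x11c0) (.z (.nd true 9 15 (.fr 4 [1,2,3,4,5,6,7,8,9,11,13,14,16,17,18])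 (.pg 0 12 15 [10]))), .t 1 (nat_lit 0) (.z (.nd false 0 1 (.nd true 1 3 (.nd false 5 10 (.pg 1 6 10 [9,2]) (.t3 [5,7,8])) (.t3 [3,4,18])) (.nd false 11 16 (.pg 0 12 13 [15,16]) (.t3 [11,14,17]))))] (by decide +kernel) (by decide +kernel)
theorem b298 : B 19072 19136 := Blk.of_chk [.t 6 (nat_lit 0x11f412aa163416331632) (.z (.nd false 14 17 (.nd false 0 13 (.pg 17 9 16 [13,15]) (.t3 [0,11,12])) (.nd true 1 4 (.nd true 0 6 (.t3 [7,8,10]) (.pg 2 1 3 [5,6])) (.t3 [4,14,18])))), .t 2 (nat_lit 0x11f0) (.z (.nd false 0 14 (.nd true 6 7 (.pg 6 8 10 [9,5]) (.fr 2 [4,7,14,15,16,17,18])) (.fr 2 [0,1,2,3,11,12,13]))), .t 3 (nat_lit 0x157c1635) (.z (.nd true 12 18 (.fr 4 [0,1,2,3,4,5,6,7,8,9,10,12,14,15,16]) (.pg 11 17 18 [13]))), .t 3 (nat_lit 0x11eb120f) (.z (.nd false 14 18 (.nd true 0 15 (.pg 0 16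 17 [18]) (.pg 11 13 15 [12])) (.nd true 1 3 (.nd false 5 10 (.pg 1 6 10 [9,2]) (.t3 [5,7,8])) (.t3 [3,4,14])))), .t 4 (nat_lit 0x121506451214) (.z (.nd true 12 14 (.fr 4 [0,2,3,4,5,6,7,8,9,10,12,15,16,17,18]) (.pg 1 14 13 [11]))), .t 8 (nat_lit 0x13141313129506570656129411fd) (.z (.nd false 9 11 (.nd false 0 2 (.nd true 0 6 (.t3 [7,8,10]) (.pg 2 3 4 [6,5])) (.nd false 0 15 (.pg 1 18 17 [16,15]) (.t3 [11,13,14]))) (.t3 [0,9,12]))), .t 8 (nat_lit 0x13091257001b16381637158d1636) (.z (.nd true 0 3 (.fr 3 [0,4,5,6,7,8,9,10,17,18]) (.nd true 1 14 (.pg 1 15 16 [3,2]) (.pg 11 14 13 [12])))), .t 7 (nat_lit 0x12c8126e11d4125714921491) (.z (.nd true 1 4 (.fr 3 [0,1,2,3,5,6,7,8,9,10]) (.nd false 0 16 (.pg 4 17 16 [18]) (.pg 11 15 14 [13,12])))), .t 6 (nat_lit 0x163a12c6163912c411fd) (.z (.nd false 0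 7 (.fr 2 [7,8,9,10,16,17,18]) (.nd false 0 12 (.nd true 2 15 (.pg 2 3 4 [6,5]) (.pg 12 13 14 [15,1])) (.t3 [0,11])))), .t 5 (nat_lit 0x146911d812350c1a) (.z (.nd true 0 12 (.nd true 3 5 (.nd false 7 9 (.pg 0 2 3 [6,9]) (.t3 [7,8,10])) (.nd false 0 17 (.pg 4 5 17 [18]) (.pg 13 14 16 [15]))) (.t3 [1,11,12]))), .t 2 (nat_lit 0x11f0) (.z (.nd true 0 3 (.nd false 0 18 (.nd true 6 7 (.pg 6 8 10 [9,5]) (.t3 [4,7,18])) (.pg 0 15 16 [17])) (.fr 2 [1,2,3,11,12,13,14]))), .t 10 (nat_lit 0x15ab125b163c125212a8163b12501380137f) (.z (.nd false 0 8 (.t3 [8,9,10]) (.nd false 0 13 (.nd false 0 1 (.fr 2 [1,2,3,4,5,6,7]) (.pg 13 14 17 [18,16,15])) (.t3 [0,11,12])))), .t 3 (nat_lit 0x71211f0) (.z (.nd false 0 17 (.nd true 5 7 (.pg 5 8 10 [9,6]) (.t3 [7,17,18])) (.nd true 0 13 (.nd false 1 4 (.pg 0 2 3 [4,16])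 (.t3 [1,14,15])) (.t3 [11,12,13])))), .t 5 (nat_lit 0x163d14e1132d0ca2) (.z (.nd false 1 7 (.fr 2 [0,2,5,7,8,9,10]) (.nd false 0 16 (.pg 16 18 4 [6,17]) (.fr 2 [1,3,11,12,13,14,15])))), .t 5 (nat_lit 0x163e122315ef128b) (.z (.nd true 0 4 (.fr 2 [0,5,6,7,8,9,10]) (.nd false 11 14 (.pg 14 17 16 [12,13]) (.fr 2 [1,2,3,4,11,15,18])))), .t 1 (nat_lit 0) (.z (.nd false 9 13 (.fr 4 [1,2,3,4,5,6,7,8,10,13,14,15,16,17,18]) (.pg 0 11 12 [9]))), .t 1 (nat_lit 0) (.z (.nd false 0 4 (.fr 2 [4,5,6,7,8,9,10]) (.nd false 11 14 (.pg 0 12 13 [14,15]) (.fr 2 [1,2,3,11,16,17,18])))), .t 7 (nat_lit 0x128a13c013bf13be13bd00a1) (.z (.nd false 0 4 (.fr 2 [4,5,6,7,8,9,10]) (.nd true 1 3 (.nd true 0 16 (.pg 0 17 1 [2]) (.pg 12 13 14 [16,15])) (.t3 [3,11,18])))), .t 3 (nat_lit 0x11ef11ee) (.z (.nd true 4 13 (.fr 2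 [1,4,11,15,16,17,18]) (.nd false 0 2 (.nd true 2 8 (.t3 [2,9,10]) (.pg 7 8 6 [3,5])) (.pg 0 12 13 [14])))), .t 1 (nat_lit 0) (.z (.nd true 1 9 (.pg 0 11 1 [2]) (.fr 4 [3,4,5,6,7,8,9,10,12,13,14,15,16,17,18]))), .t 3 (nat_lit 0x11ef11ee) (.z (.nd false 0 13 (.nd false 1 3 (.nd false 3 10 (.pg 2 10 9 [14]) (.pg 7 8 6 [3,5])) (.fr 2 [1,4,13,15,16,17,18])) (.t3 [0,11,12]))), .t 2 (nat_lit 0x1229) (.z (.nd false 9 11 (.nd true 1 4 (.nd false 1 10 (.t3 [2,10,14]) (.pg 1 3 6 [7,8,5])) (.fr 2 [4,11,13,15,16,17,18])) (.t3 [0,9,12]))), .t 5 (nat_lit 0xca60c770ca70e4d) (.z (.nd true 3 16 (.nd false 7 9 (.nd true 3 6 (.pg 0 2 3 [5,9]) (.pg 4 6 17 [18])) (.t3 [7,8,10])) (.fr 2 [1,11,12,13,14,15,16]))), .t 1 (nat_lit 0) (.z (.nd true 3 17 (.pg 1 4 3 [18]) (.fr 4 [0,2,5,6,7,8,9,10,11,12,13,14,15,16,17]))),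 .t 1 (nat_lit 0) (.z (.nd false 0 6 (.fr 2 [6,7,8,9,10,17,18]) (.nd false 1 4 (.pg 5 0 2 [3,4,15]) (.fr 2 [1,11,12,13,14,16])))), .t 1 (nat_lit 0) (.z (.nd false 0 18 (.nd false 1 10 (.pg 2 10 9 [18]) (.fr 2 [1,3,4,5,6,7,8])) (.nd false 11 16 (.pg 0 12 13 [15,16]) (.t3 [11,14,17])))), .t 3 (nat_lit 0x11ec11eb) (.z (.nd true 1 15 (.fr 4 [0,1,2,3,4,5,6,7,8,9,10,14,16,17,18]) (.pg 11 15 13 [12]))), .t 6 (nat_lit 0x158512c0158413a41583) (.z (.nd true 0 4 (.fr 2 [0,5,6,7,8,9,10]) (.nd true 2 18 (.fr 2 [1,2,3,4,14,16,17]) (.pg 11 13 15 [18,12])))), .t 6 (nat_lit 0x127516400ca7163f0006) (.z (.nd false 1 9 (.t3 [0,2,9]) (.nd false 0 3 (.nd false 0 7 (.t3 [7,8,10]) (.pg 4 6 5 [3,17,18])) (.fr 2 [1,11,12,13,14,15,16])))), .t 2 (nat_lit 0x926) (.z (.nd false 0 18 (.fr 2 [5,6,7,8,9,10,18]) (.nd false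 11 14 (.pg 0 12 13 [14,2]) (.fr 2 [1,3,4,11,15,16,17])))), .t 11 (nat_lit 0x11ef11ee13f413f313f213f1115613f011c30858) (.z (.nd false 1 10 (.nd false 0 12 (.pg 10 9 2 [12,13,14]) (.t3 [0,11])) (.nd false 1 3 (.pg 7 8 6 [3,5]) (.fr 2 [1,4,15,16,17,18])))), .t 1 (nat_lit 0) (.z (.nd true 13 17 (.pg 0 12 13 [15]) (.fr 4 [1,2,3,4,5,6,7,8,9,10,11,14,16,17,18]))), .t 1 (nat_lit 0) (.z (.nd false 0 18 (.nd true 1 3 (.nd false 6 10 (.pg 1 5 10 [9,2]) (.t3 [6,7,8])) (.t3 [3,4,18])) (.nd false 11 13 (.pg 0 12 13 [16,17]) (.t3 [11,14,15])))), .t 1 (nat_lit 0) (.z (.nd false 0 1 (.nd true 1 3 (.nd false 5 10 (.pg 1 6 10 [9,2]) (.t3 [5,7,8])) (.t3 [3,4,18])) (.nd false 11 17 (.pg 0 12 13 [16,17]) (.t3 [11,14,15])))), .t 5 (nat_lit 0x13a613a5065411fd) (.z (.nd false 9 16 (.nd false 0 2 (.nd true 0 6 (.t3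 [7,8,10]) (.pg 2 3 4 [6,5])) (.pg 1 18 16 [17])) (.fr 2 [0,9,11,12,13,14,15]))), .t 6 (nat_lit 0x11e50e6b1641148611e4) (.z (.nd true 0 8 (.t3 [0,9,10]) (.nd false 0 16 (.nd true 3 4 (.pg 7 18 8 [5,3,6]) (.t3 [4,16,17])) (.fr 2 [1,2,11,12,13,14,15])))), .t 3 (nat_lit 0x11fd11ad) (.z (.nd true 1 12 (.fr 2 [1,11,13,14,15,16,18]) (.nd false 2 9 (.pg 0 12 17 [9]) (.nd true 0 6 (.t3 [7,8,10]) (.pg 2 3 4 [5,6]))))), .t 13 (nat_lit 0x12a8164816471646123c1645164416431642123a09390931) (.z (.nd false 1 10 (.nd false 0 13 (.nd true 2 15 (.pg 2 16 13 [14,17,18]) (.t3 [9,10,15])) (.t3 [0,11,12])) (.fr 2 [1,3,4,5,6,7,8]))), .t 4 (nat_lit 0x11ba087e0936) (.z (.nd false 3 9 (.nd true 0 13 (.nd true 1 17 (.t3 [1,14,16]) (.pg 0 15 17 [18,2,9])) (.t3 [11,12,13])) (.fr 2 [3,4,5,6,7,8,10]))), .t 3 (nat_lit 0x12a9125b)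 (.z (.nd false 13 16 (.fr 4 [0,1,2,3,4,5,6,7,8,9,10,11,12,16,18]) (.pg 13 14 17 [15]))), .t 1 (nat_lit 0) (.z (.nd true 5 9 (.nd true 3 4 (.pg 0 2 3 [5,6]) (.fr 2 [1,4,11,12,13,14,15])) (.fr 2 [7,8,9,10,16,17,18]))), .t 1 (nat_lit 0) (.z (.nd false 9 16 (.fr 4 [1,2,3,4,5,6,7,8,10,13,14,15,16,17,18]) (.pg 0 11 12 [9]))), .t 3 (nat_lit 0x11d411d3) (.z (.nd false 0 1 (.nd true 1 3 (.nd false 6 10 (.pg 1 5 10 [9,2]) (.t3 [6,7,8])) (.t3 [3,4,18])) (.nd true 12 15 (.pg 0 12 16 [17]) (.pg 11 14 15 [13])))), .t 1 (nat_lit 0) (.z (.nd false 0 13 (.nd true 1 4 (.nd true 1 7 (.pg 1 5 8 [10,9,2]) (.t3 [3,6,7])) (.fr 2 [4,13,14,15,16,17,18])) (.t3 [0,11,12]))), .t 1 (nat_lit 0) (.z (.nd false 0 16 (.fr 2 [7,8,9,10,16,17,18]) (.nd false 1 4 (.pg 0 2 3 [4,5,6]) (.fr 2 [1,11,12,13,14,15])))), .t 2 (nat_lit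 0x11fd) (.z (.nd false 3 13 (.fr 2 [1,13,14,15,16,17,18]) (.nd false 2 7 (.fr 2 [0,7,8,9,10,11,12]) (.pg 2 3 4 [6,5])))), .t 3 (nat_lit 0x1380137f) (.z (.nd false 1 18 (.pg 13 14 17 [18]) (.fr 4 [0,1,2,3,4,5,6,7,8,9,10,11,12,15,16]))), .t 3 (nat_lit 0x15721217) (.z (.nd true 1 9 (.t3 [0,1,2]) (.nd false 3 4 (.nd true 4 7 (.pg 8 10 9 [5,4,6]) (.t3 [7,16,18])) (.fr 2 [3,11,12,13,14,15,17])))), .t 1 (nat_lit 0) (.z (.nd false 0 16 (.fr 2 [7,8,9,10,16,17,18]) (.nd true 0 12 (.nd false 4 13 (.t3 [13,14,15]) (.pg 0 2 3 [4,5,6])) (.t3 [1,11,12])))), .t 4 (nat_lit 0x11f413700004) (.z (.nd false 0 8 (.t3 [8,9,10]) (.nd false 0 17 (.nd false 4 5 (.pg 1 3 5 [6,2,18]) (.t3 [4,7,17])) (.fr 2 [0,11,12,13,14,15,16])))), .t 1 (nat_lit 0) (.z (.nd false 17 18 (.fr 2 [0,11,12,13,14,16,18]) (.nd true 1 4 (.nd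 true 1 7 (.pg 1 5 8 [10,9,2]) (.t3 [3,6,7])) (.t3 [4,15,17])))), .t 4 (nat_lit 0x124a1249007f) (.z (.nd false 0 17 (.nd true 1 3 (.nd false 5 10 (.pg 2 18 1 [6,10,9]) (.t3 [5,7,8])) (.t3 [3,4,17])) (.fr 2 [0,11,12,13,14,15,16]))), .t 7 (nat_lit 0x93a164b164a164913841383) (.z (.nd true 0 15 (.nd true 0 4 (.fr 2 [0,5,6,7,8,9,10]) (.pg 4 18 17 [16])) (.nd false 0 13 (.pg 13 15 3 [2,14]) (.t3 [1,11,12])))), .t 1 (nat_lit 0) (.z (.nd true 0 2 (.nd false 0 7 (.fr 2 [7,8,9,10,16,17,18]) (.pg 0 3 4 [5,6])) (.fr 2 [1,2,11,12,13,14,15]))), .t 7 (nat_lit 0x1212ce15781577151b11d4) (.z (.nd true 0 4 (.fr 2 [0,5,6,7,8,9,10]) (.nd false 3 11 (.nd true 0 16 (.t3 [4,17,18]) (.pg 11 16 15 [14,13])) (.pg 1 12 3 [2])))), .t 6 (nat_lit 0x142f142e1490142c0b68) (.z (.nd false 0 4 (.nd false 4 8 (.pg 5 8 10 [9])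 (.fr 2 [4,6,7,15,16,17,18])) (.nd false 0 12 (.pg 12 13 14 [3,2]) (.t3 [0,1,11])))), .t 2 (nat_lit 0x11f0) (.z (.nd false 0 14 (.nd false 5 14 (.fr 2 [4,7,14,15,16,17,18]) (.pg 5 8 10 [9,6])) (.fr 2 [0,1,2,3,11,12,13]))), .t 1 (nat_lit 0) (.z (.nd false 0 13 (.nd false 3 8 (.pg 1 5 8 [10,9,2]) (.fr 3 [3,4,6,7,13,14,15,16,17,18])) (.t3 [0,11,12]))), .t 3 (nat_lit 0x4000b) (.z (.nd true 0 15 (.fr 2 [0,8,9,10,16,17,18]) (.nd false 4 6 (.pg 1 3 6 [5,2]) (.fr 2 [4,7,11,12,13,14,15])))), .t 6 (nat_lit 0x164d126c0e3d164c1423) (.z (.nd true 0 5 (.fr 3 [0,6,7,8,9,10,15,16,17,18]) (.nd true 1 4 (.pg 1 3 5 [2]) (.pg 4 13 12 [11,14])))), .t 1 (nat_lit 0) (.z (.nd false 0 4 (.fr 2 [4,5,6,7,8,9,10]) (.nd false 11 14 (.pg 0 12 13 [14,16]) (.fr 2 [1,2,3,11,15,17,18])))), .t 7 (nat_lit 0x13b4140c155c146511ef11ee)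 (.z (.nd false 0 12 (.nd true 3 4 (.nd true 2 8 (.t3 [2,9,10]) (.pg 7 8 6 [3,5])) (.nd false 0 15 (.pg 15 18 4 [17,16]) (.t3 [12,13,14]))) (.t3 [0,1,11]))), .t 5 (nat_lit 0x1650164f10bf164e) (.z (.nd false 0 1 (.nd true 1 7 (.pg 8 18 10 [9,2,1,6]) (.fr 2 [3,4,5,7,15,16,17])) (.fr 2 [0,11,12,13,14]))), .t 3 (nat_lit 0xb7411f0) (.z (.nd false 0 4 (.nd false 4 5 (.pg 5 8 10 [9,6]) (.t3 [4,7,18])) (.nd true 0 15 (.pg 0 16 17 [3]) (.fr 2 [1,2,11,12,13,14,15]))))] (by decide +kernel) (by decide +kernel)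
theorem b299 : B 19136 19200 := Blk.of_chk [.t 3 (nat_lit 0x11fd11bd) (.z (.nd true 1 17 (.fr 2 [1,11,12,13,14,15,16]) (.nd false 2 9 (.pg 0 17 18 [9]) (.nd true 0 6 (.t3 [7,8,10]) (.pg 2 3 4 [5,6]))))), .t 7 (nat_lit 0x11fd151b12eb11f2151a11f1) (.z (.nd true 1 12 (.nd false 0 17 (.t3 [1,17,18]) (.pg 11 15 16 [14,13])) (.nd false 2 9 (.t3 [0,9,12]) (.nd true 0 6 (.t3 [7,8,10]) (.pg 2 3 4 [5,6]))))), .t 1 (nat_lit 0) (.z (.nd true 0 12 (.nd false 4 14 (.fr 2 [7,13,14,15,16,17,18]) (.nd false 0 6 (.pg 6 8 10 [9]) (.pg 0 2 3 [4,5]))) (.t3 [1,11,12]))), .t 4 (nat_lit 0xbb00ce51575) (.z (.nd false 0 16 (.nd true 2 3 (.nd false 4 8 (.pg 2 6 8 [10,9]) (.pg 4 18 7 [5])) (.t3 [3,16,17])) (.fr 2 [0,1,11,12,13,14,15]))), .t 3 (nat_lit 0x11ef11ee) (.z (.nd false 1 3 (.nd false 6 10 (.fr 2 [0,2,9,10,11,12,13])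 (.pg 7 8 6 [3,5])) (.fr 2 [1,4,14,15,16,17,18]))), .t 1 (nat_lit 0) (.z (.nd false 0 18 (.nd true 1 3 (.nd false 6 10 (.pg 1 5 10 [9,2]) (.t3 [6,7,8])) (.t3 [3,4,18])) (.nd false 11 17 (.pg 0 12 13 [15,17]) (.t3 [11,14,16])))), .t 3 (nat_lit 0x142a11f0) (.z (.nd false 0 5 (.nd true 7 16 (.t3 [7,17,18]) (.pg 8 10 9 [6,5,16])) (.fr 3 [0,1,2,3,4,11,12,13,14,15]))), .t 6 (nat_lit 0x124c019e160d160c1301) (.z (.nd false 0 5 (.fr 2 [5,6,7,8,9,10]) (.nd false 11 14 (.nd false 0 16 (.t3 [2,16,17]) (.pg 0 12 13 [14,15])) (.pg 1 18 11 [4,3])))), .t 1 (nat_lit 0) (.z (.nd false 0 6 (.fr 2 [6,7,8,9,10,17,18]) (.nd true 3 16 (.pg 0 2 3 [4,5]) (.fr 2 [1,11,12,13,14,15,16])))), .t 11 (nat_lit 0x1701a4142e127312ce14e914e8142c14e71272) (.z (.nd false 0 1 (.nd false 0 4 (.nd false 4 8 (.pg 6 8 10 [9]) (.fr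 2 [4,5,7,15,16,17,18])) (.pg 1 12 13 [14,3,2])) (.t3 [0,11]))), .t 3 (nat_lit 0x15721217) (.z (.nd false 0 4 (.nd false 8 14 (.fr 2 [7,14,15,16,17,18]) (.pg 8 10 9 [5,4,6])) (.fr 2 [0,1,2,3,11,12,13]))), .t 1 (nat_lit 0) (.z (.nd false 4 17 (.nd true 7 10 (.nd true 0 5 (.pg 0 6 7 [8,9]) (.pg 1 3 5 [2])) (.t3 [10,17,18])) (.fr 2 [4,11,12,13,14,15,16]))), .t 1 (nat_lit 0) (.z (.nd true 0 1 (.nd true 4 7 (.nd false 0 6 (.pg 6 8 10 [9]) (.pg 0 2 3 [4,5])) (.t3 [7,17,18])) (.fr 2 [1,11,12,13,14,15,16]))), .t 5 (nat_lit 0x1211139e064f11fd) (.z (.nd false 9 14 (.nd false 0 2 (.nd true 0 6 (.t3 [7,8,10]) (.pg 2 3 4 [5,6])) (.pg 1 18 14 [17])) (.fr 2 [0,9,11,12,13,15,16]))), .t 3 (nat_lit 0x15721217) (.z (.nd false 0 14 (.nd true 4 18 (.nd true 4 7 (.pg 8 10 9 [5,4,6]) (.t3 [7,16,17])) (.t3 [14,15,18]))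 (.fr 2 [0,1,2,3,11,12,13]))), .t 1 (nat_lit 0) (.z (.nd false 0 4 (.fr 2 [4,5,6,7,8,9,10]) (.nd false 11 16 (.pg 0 12 13 [14,16]) (.fr 2 [1,2,3,11,15,17,18])))), .t 7 (nat_lit 0x11d811d711d611d50868124a) (.z (.nd false 0 18 (.nd false 1 10 (.pg 2 18 10 [9]) (.fr 2 [1,3,4,5,6,7,8])) (.nd false 0 13 (.pg 16 17 15 [13,14]) (.t3 [0,11,12])))), .t 1 (nat_lit 0) (.z (.nd false 11 13 (.pg 0 12 13 [16]) (.fr 4 [1,2,3,4,5,6,7,8,9,10,11,14,15,17,18]))), .t 7 (nat_lit 0x165312151652064d06471651) (.z (.nd false 3 9 (.nd true 12 14 (.fr 2 [0,2,9,12,16,17,18]) (.pg 1 15 14 [13,11])) (.fr 2 [3,4,5,6,7,8,10]))), .t 9 (nat_lit 0x14d51320131f1269124312420640063f) (.z (.nd false 1 4 (.fr 3 [0,2,3,4,5,6,7,8,9,10]) (.nd false 11 13 (.pg 1 12 13 [14]) (.pg 11 18 17 [16,15])))), .t 6 (nat_lit 0x1657165616550ce01654)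 (.z (.nd false 0 8 (.fr 2 [8,9,10,15,16,17,18]) (.nd false 3 11 (.pg 4 14 11 [7,6]) (.fr 2 [0,1,2,3,5,12,13])))), .t 2 (nat_lit 0x1162) (.z (.nd false 2 10 (.pg 0 9 10 [18]) (.fr 4 [1,2,3,4,5,6,7,8,11,12,13,14,15,16,17]))), .t 2 (nat_lit 0x1658) (.z (.nd false 0 12 (.nd true 4 7 (.nd true 2 6 (.pg 2 5 8 [10,9]) (.pg 3 13 4 [6])) (.fr 2 [7,12,14,15,16,17,18])) (.t3 [0,1,11]))), .t 4 (nat_lit 0x121506451214) (.z (.nd true 1 15 (.pg 1 14 13 [11]) (.fr 4 [0,2,3,4,5,6,7,8,9,10,12,15,16,17,18]))), .t 2 (nat_lit 0x1145) (.z (.nd false 9 17 (.fr 4 [1,2,3,4,5,6,7,8,11,13,14,15,16,17,18]) (.pg 0 12 9 [10]))), .t 5 (nat_lit 0xe4a071a16040936) (.z (.nd false 7 9 (.nd true 1 18 (.fr 2 [1,11,12,13,14,16,17]) (.nd false 0 5 (.t3 [5,6,9]) (.pg 2 3 4 [0,15,18]))) (.t3 [7,8,10]))), .t 7 (nat_lit 0x14ca14c9136114c814c7135f)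 (.z (.nd false 7 9 (.nd true 1 11 (.fr 2 [1,13,14,15,16,17,18]) (.nd true 0 5 (.t3 [0,6,9]) (.pg 11 2 3 [4,5,12]))) (.t3 [7,8,10]))), .t 7 (nat_lit 0x11e8165b165a11e511e41659) (.z (.nd true 0 15 (.nd true 0 8 (.t3 [0,9,10]) (.nd true 4 16 (.t3 [4,17,18]) (.pg 5 3 16 [6,7,8]))) (.fr 2 [1,2,11,12,13,14,15]))), .t 3 (nat_lit 0x868124a) (.z (.nd false 0 18 (.nd false 1 10 (.pg 2 18 10 [9]) (.fr 2 [1,3,4,5,6,7,8])) (.nd true 0 13 (.pg 0 14 15 [16,17]) (.t3 [11,12,13])))), .t 3 (nat_lit 0x132c132b) (.z (.nd false 0 4 (.fr 2 [4,5,6,7,8,9,10]) (.nd false 0 18 (.pg 1 3 2 [18]) (.nd false 11 13 (.pg 0 12 13 [15]) (.pg 11 14 17 [16]))))), .t 5 (nat_lit 0x11d811d711d611d5) (.z (.nd false 0 13 (.nd false 0 1 (.nd true 1 3 (.nd false 6 10 (.pg 1 5 10 [9,2]) (.t3 [6,7,8])) (.t3 [3,4,18])) (.pg 16 17 15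 [13,14])) (.t3 [0,11,12]))), .t 3 (nat_lit 0x93411f0) (.z (.nd false 0 17 (.nd true 6 7 (.pg 6 8 10 [9,5]) (.t3 [7,17,18])) (.nd true 2 4 (.pg 0 2 15 [16]) (.fr 2 [1,3,4,11,12,13,14])))), .t 2 (nat_lit 0x927) (.z (.nd false 0 4 (.fr 2 [4,5,6,7,8,9,10]) (.nd false 11 15 (.pg 0 12 13 [15,2]) (.fr 2 [1,3,11,14,16,17,18])))), .t 1 (nat_lit 0) (.z (.nd false 0 17 (.nd true 2 7 (.pg 2 6 8 [10,9]) (.fr 2 [1,3,4,5,7,17,18])) (.fr 2 [0,11,12,13,14,15,16]))), .t 1 (nat_lit 0) (.z (.nd false 0 1 (.nd true 1 3 (.nd false 5 10 (.pg 1 6 10 [9,2]) (.t3 [5,7,8])) (.t3 [3,4,18])) (.nd false 11 13 (.pg 0 12 13 [15,16]) (.t3 [11,14,17])))), .t 3 (nat_lit 0x9250099) (.z (.nd false 0 3 (.nd false 3 8 (.pg 5 8 10 [9]) (.fr 2 [3,4,6,7,16,17,18])) (.nd false 1 11 (.t3 [11,14,15]) (.pg 13 1 2 [0,12])))), .t 5 (nat_lit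 0x12c8126e11d41257) (.z (.nd true 1 7 (.fr 2 [0,1,2,6,8,9,10]) (.nd true 3 15 (.fr 2 [3,4,5,7,16,17,18]) (.pg 11 15 14 [13,12])))), .t 1 (nat_lit 0) (.z (.nd false 0 17 (.t3 [10,17,18]) (.nd false 4 7 (.nd true 0 5 (.pg 0 6 7 [8,9]) (.pg 1 3 5 [2])) (.fr 2 [4,11,12,13,14,15,16])))), .t 2 (nat_lit 0x11f0) (.z (.nd true 4 7 (.nd false 0 5 (.pg 5 8 10 [9,6]) (.fr 2 [0,1,2,3,4,12,14])) (.fr 2 [7,11,13,15,16,17,18]))), .t 2 (nat_lit 0x11f0) (.z (.nd false 0 4 (.nd true 5 7 (.pg 5 8 10 [9,6]) (.t3 [4,7,18])) (.nd true 0 3 (.pg 0 15 16 [17]) (.fr 2 [1,2,3,11,12,13,14])))), .t 3 (nat_lit 0x11e511e4) (.z (.nd false 1 3 (.nd false 5 10 (.fr 2 [0,2,9,10,11,12,13]) (.pg 7 8 5 [3,6])) (.fr 2 [1,4,14,15,16,17,18]))), .t 1 (nat_lit 0) (.z (.nd true 9 18 (.pg 0 9 16 [10]) (.fr 4 [1,2,3,4,5,6,7,8,11,12,13,14,15,17,18]))),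 .t 3 (nat_lit 0x126e11d4) (.z (.nd false 0 4 (.fr 2 [4,5,6,7,8,9,10]) (.nd false 0 18 (.pg 1 3 2 [18]) (.nd true 12 14 (.pg 0 12 16 [17]) (.pg 11 15 14 [13]))))), .t 5 (nat_lit 0x14f6000611bb087b) (.z (.nd false 3 9 (.nd true 0 13 (.nd false 15 17 (.pg 17 2 9 [0,16]) (.t3 [1,14,15])) (.t3 [11,12,13])) (.nd false 0 7 (.t3 [7,8,10]) (.pg 4 6 5 [3,18])))), .t 3 (nat_lit 0x11ae087e) (.z (.nd false 3 9 (.nd false 11 18 (.pg 18 2 9 [0,12]) (.fr 2 [1,11,13,14,15,16,17])) (.fr 2 [3,4,5,6,7,8,10]))), .t 1 (nat_lit 0) (.z (.nd false 1 2 (.pg 0 11 12 [2]) (.fr 4 [1,3,4,5,6,7,8,9,10,13,14,15,16,17,18]))), .t 3 (nat_lit 0x4000b) (.z (.nd true 0 6 (.fr 2 [0,7,8,9,10,17,18]) (.nd true 3 16 (.pg 1 3 6 [5,2]) (.fr 2 [4,11,12,13,14,15,16])))), .t 5 (nat_lit 0x136f00bc165c036e) (.z (.nd true 1 3 (.nd false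 0 13 (.nd false 6 10 (.pg 1 5 10 [9,2,13,14]) (.t3 [6,7,8])) (.t3 [0,11,12])) (.fr 2 [3,4,15,16,17,18]))), .t 11 (nat_lit 0x122c13f300a9125a165f165e092b00ba009c165d) (.z (.nd true 1 3 (.nd false 0 12 (.nd false 5 10 (.pg 2 12 13 [14,1,10,9]) (.pg 5 6 7 [8])) (.t3 [0,11])) (.fr 2 [3,4,15,16,17,18]))), .t 2 (nat_lit 0x11ae) (.z (.nd true 2 18 (.fr 4 [1,2,3,4,5,6,7,8,10,11,13,14,15,16,17]) (.pg 0 12 18 [9]))), .t 1 (nat_lit 0) (.z (.nd true 0 17 (.fr 2 [0,6,7,8,9,10,18]) (.nd false 1 4 (.pg 5 2 3 [4,16]) (.fr 2 [1,11,12,13,14,15,17])))), .t 4 (nat_lit 0x11b01991354) (.z (.nd true 4 18 (.pg 1 17 4 [3]) (.fr 4 [0,2,5,6,7,8,9,10,11,12,13,14,15,16,18]))), .t 5 (nat_lit 0xbfa0bf20bfc0e41) (.z (.nd true 0 12 (.nd true 5 10 (.nd true 3 5 (.pg 0 2 3 [6,9]) (.pg 4 5 13 [14])) (.fr 2 [7,8,10,15,16,17,18]))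 (.t3 [1,11,12]))), .t 4 (nat_lit 0xbb00ce51575) (.z (.nd false 0 13 (.nd false 3 4 (.nd false 4 8 (.pg 2 6 8 [10,9]) (.pg 4 18 7 [5])) (.fr 2 [1,3,13,14,15,16,17])) (.t3 [0,11,12]))), .t 1 (nat_lit 0) (.z (.nd true 6 17 (.nd true 7 10 (.pg 0 5 6 [7,8,9]) (.t3 [10,16,18])) (.fr 3 [1,2,3,4,11,12,13,14,15,17]))), .t 2 (nat_lit 0x11f0) (.z (.nd true 4 7 (.nd false 0 5 (.pg 6 8 10 [9,5]) (.fr 2 [0,1,2,3,4,12,14])) (.fr 2 [7,11,13,15,16,17,18]))), .t 5 (nat_lit 0x138c154a06b00013) (.z (.nd false 0 4 (.nd false 4 8 (.pg 6 8 10 [9]) (.fr 2 [4,5,7,15,16,17,18])) (.nd false 0 13 (.pg 3 2 1 [13,14]) (.t3 [0,11,12])))), .t 3 (nat_lit 0x11fd11aa) (.z (.nd true 1 13 (.fr 2 [1,11,15,16,17,18]) (.nd false 2 9 (.pg 0 12 13 [14,9]) (.nd true 0 6 (.t3 [7,8,10]) (.pg 2 3 4 [5,6]))))), .t 1 (nat_lit 0) (.z (.nd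 false 0 8 (.fr 2 [8,9,10,15,16,17,18]) (.nd true 0 12 (.nd true 4 7 (.pg 0 2 3 [4,5,6]) (.t3 [7,13,14])) (.t3 [1,11,12])))), .t 3 (nat_lit 0x16611660) (.z (.nd false 0 3 (.nd true 8 15 (.fr 2 [4,5,7,8,16,17,18]) (.pg 6 10 9 [3,15])) (.fr 2 [0,1,2,11,12,13,14]))), .t 5 (nat_lit 0x12950657129411fd) (.z (.nd false 9 17 (.nd false 0 2 (.nd true 0 6 (.t3 [7,8,10]) (.pg 2 3 4 [6,5])) (.pg 1 18 17 [16])) (.fr 2 [0,9,11,12,13,14,15]))), .t 3 (nat_lit 0xc2c0c28) (.z (.nd false 0 12 (.nd false 3 4 (.nd false 4 8 (.pg 2 5 8 [10,9]) (.pg 4 16 7 [6])) (.fr 2 [3,12,13,14,15,17,18])) (.t3 [0,1,11]))), .t 2 (nat_lit 0x11a9) (.z (.nd true 13 14 (.pg 0 12 13 [9]) (.fr 4 [1,2,3,4,5,6,7,8,10,11,14,15,16,17,18]))), .t 3 (nat_lit 0x13590006) (.z (.nd false 0 16 (.fr 2 [7,8,9,10,16,17,18]) (.nd false 0 3 (.pg 4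 6 5 [3,15]) (.fr 2 [0,1,2,11,12,13,14]))))] (by decide +kernel) (by decide +kernel)
theorem b300 : B 19200 19264 := Blk.of_chk [.t 1 (nat_lit 0) (.z (.nd false 0 18 (.nd true 1 3 (.nd false 5 10 (.pg 1 6 10 [9,2]) (.t3 [5,7,8])) (.t3 [3,4,18])) (.nd false 11 15 (.pg 0 12 13 [15,16]) (.t3 [11,14,17])))), .t 1 (nat_lit 0) (.z (.nd false 0 16 (.fr 2 [7,8,9,10,16,17,18]) (.nd true 0 12 (.nd false 4 14 (.t3 [13,14,15]) (.pg 0 2 3 [4,5,6])) (.t3 [1,11,12])))), .t 3 (nat_lit 0x4000b) (.z (.nd false 4 18 (.nd true 0 6 (.fr 2 [0,7,8,9,10,16,18]) (.pg 1 3 6 [5,2])) (.fr 2 [4,11,12,13,14,15,17]))), .t 6 (nat_lit 0x1412ce141e141d063f) (.z (.nd true 0 15 (.nd false 0 4 (.fr 2 [4,5,6,7,8,9,10]) (.pg 0 16 17 [18])) (.nd false 11 13 (.pg 1 12 13 [3,2]) (.t3 [11,14,15])))), .t 1 (nat_lit 0) (.z (.nd false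 0 1 (.nd true 3 10 (.pg 3 6 9 [2,1,16]) (.fr 2 [4,5,7,8,10,17,18])) (.fr 2 [0,11,12,13,14,15]))), .t 3 (nat_lit 0x4000b) (.z (.nd true 0 16 (.fr 2 [0,7,8,9,10,17,18]) (.nd true 3 16 (.pg 1 3 6 [5,2]) (.fr 2 [4,11,12,13,14,15,16])))), .t 5 (nat_lit 0x15712fc126f0462) (.z (.nd false 0 12 (.nd false 4 7 (.nd false 1 8 (.pg 2 6 8 [10,9]) (.pg 1 3 5 [7,18])) (.fr 2 [4,12,13,14,15,16,17])) (.t3 [0,11]))), .t 6 (nat_lit 0x1712d012cf12ce12cd) (.z (.nd true 4 12 (.fr 2 [4,11,13,15,16,17,18]) (.nd true 0 3 (.fr 2 [0,5,6,7,8,9,10]) (.pg 1 12 14 [3,2])))), .t 5 (nat_lit 0x11ea11e911ef11ee) (.z (.nd false 5 13 (.fr 2 [4,13,14,15,16,17,18]) (.nd true 0 2 (.nd true 0 8 (.t3 [0,9,10]) (.pg 7 8 6 [3,5])) (.pg 1 11 12 [2])))), .t 2 (nat_lit 0x878) (.z (.nd true 2 10 (.pg 0 16 2 [9]) (.fr 4 [1,3,4,5,6,7,8,10,11,12,13,14,15,17,18]))),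 .t 5 (nat_lit 0x11f814c014bf11d4) (.z (.nd false 0 4 (.fr 2 [4,5,6,7,8,9,10]) (.nd true 12 14 (.fr 2 [0,1,2,3,12,16,17]) (.pg 11 18 15 [14,13])))), .t 2 (nat_lit 0x1162) (.z (.nd true 8 18 (.fr 4 [1,2,3,4,5,6,7,8,11,12,13,14,15,16,17]) (.pg 0 18 9 [10]))), .t 5 (nat_lit 0x1531662126f0460) (.z (.nd false 0 13 (.nd false 4 7 (.nd false 1 8 (.pg 2 6 8 [10,9]) (.pg 1 3 5 [7,17])) (.fr 2 [4,13,14,15,16,18])) (.t3 [0,11,12]))), .t 9 (nat_lit 0x1245124412431242009c063f11ef11ee) (.z (.nd true 0 16 (.nd true 3 4 (.nd true 0 8 (.t3 [0,9,10]) (.pg 7 8 6 [3,5])) (.t3 [4,17,18])) (.nd false 11 13 (.pg 1 12 13 [14,2]) (.t3 [11,15,16])))), .t 3 (nat_lit 0x13e213e1) (.z (.nd false 0 1 (.nd false 4 8 (.nd true 1 3 (.pg 1 5 8 [10,9,2]) (.pg 3 12 13 [14])) (.fr 2 [4,6,7,15,16,17,18])) (.t3 [0,11]))), .t 1 (nat_lit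 0) (.z (.nd false 16 18 (.fr 2 [0,11,12,13,14,15,18]) (.nd true 1 4 (.nd true 1 7 (.pg 1 6 8 [10,9,2]) (.t3 [3,5,7])) (.t3 [4,16,17])))), .t 8 (nat_lit 0x150b129e064d15a515a411e511e4) (.z (.nd true 0 16 (.nd true 3 4 (.nd true 0 8 (.t3 [0,9,10]) (.pg 7 8 5 [3,6])) (.t3 [4,17,18])) (.nd true 1 13 (.pg 1 14 15 [16,2]) (.t3 [11,12,13])))), .t 1 (nat_lit 0) (.z (.nd false 0 1 (.fr 3 [1,2,3,4,5,6,7,8,9,10]) (.nd true 13 15 (.pg 0 12 13 [16,17,18]) (.t3 [11,14,15])))), .t 6 (nat_lit 0x12bc12bb12ba125112b9) (.z (.nd false 17 18 (.nd false 0 13 (.pg 13 14 15 [18,16]) (.t3 [0,11,12])) (.nd true 1 3 (.nd false 5 10 (.pg 1 6 10 [9,2]) (.t3 [5,7,8])) (.t3 [3,4,17])))), .t 1 (nat_lit 0) (.z (.nd true 0 15 (.nd true 4 10 (.pg 0 3 4 [5,9]) (.fr 2 [6,7,8,10,16,17,18])) (.fr 2 [1,2,11,12,13,14,15]))), .t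 1 (nat_lit 0) (.z (.nd false 0 18 (.nd false 1 10 (.pg 2 10 9 [18]) (.fr 2 [1,3,4,5,6,7,8])) (.nd false 11 15 (.pg 0 12 13 [15,17]) (.t3 [11,14,16])))), .t 5 (nat_lit 0x1388088014851663) (.z (.nd true 3 13 (.fr 2 [1,3,14,15,16,17,18]) (.nd false 0 12 (.nd false 4 8 (.pg 2 5 8 [10,9,12,13]) (.t3 [4,6,7])) (.t3 [0,11])))), .t 2 (nat_lit 0x1229) (.z (.nd true 0 16 (.t3 [0,17,18]) (.nd true 1 4 (.nd false 1 10 (.t3 [2,9,10]) (.pg 1 3 6 [7,8,5])) (.fr 2 [4,11,12,13,14,15,16])))), .t 8 (nat_lit 0x125813b012ec11eb166516640e4d) (.z (.nd true 1 4 (.fr 3 [0,1,2,3,5,6,7,8,9,10]) (.nd true 14 16 (.pg 4 14 17 [18]) (.pg 11 16 15 [13,12])))), .t 12 (nat_lit 0x15aa15b411e20e41010c11e101b5019402a71461027a) (.z (.nd false 0 5 (.fr 2 [5,6,7,8,9,10]) (.nd true 12 14 (.fr 2 [0,2,12,15,16,17,18]) (.pg 14 13 11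 [4,3,1])))), .t 8 (nat_lit 0x12fe159115901240064f120a1209) (.z (.nd true 0 9 (.t3 [0,10]) (.nd false 0 2 (.nd true 0 5 (.pg 6 7 8 [9]) (.pg 2 3 4 [5])) (.nd true 13 17 (.pg 11 13 16 [12]) (.pg 14 18 1 [17,15]))))), .t 4 (nat_lit 0x141711d711f0) (.z (.nd false 0 4 (.nd true 5 7 (.pg 5 8 10 [9,6]) (.t3 [4,7,18])) (.nd false 3 13 (.pg 13 17 16 [15]) (.fr 2 [0,1,2,3,11,12,14])))), .t 5 (nat_lit 0x16670f3616660f3b) (.z (.nd false 0 8 (.fr 2 [8,9,10,15,16,17,18]) (.nd true 0 12 (.nd true 4 6 (.pg 0 2 3 [4,5]) (.pg 6 13 14 [7])) (.t3 [1,11,12])))), .t 2 (nat_lit 0x11f0) (.z (.nd false 0 14 (.nd false 6 14 (.fr 2 [4,7,14,15,16,17,18]) (.pg 6 8 10 [9,5])) (.fr 2 [0,1,2,3,11,12,13]))), .t 5 (nat_lit 0x11d811d711d611d5) (.z (.nd false 0 18 (.nd false 1 10 (.pg 2 10 9 [18]) (.fr 2 [1,3,4,5,6,7,8])) (.nd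 false 0 13 (.pg 16 17 15 [13,14]) (.t3 [0,11,12])))), .t 1 (nat_lit 0) (.z (.nd false 0 2 (.nd true 2 7 (.pg 2 6 8 [10,9]) (.fr 2 [3,4,5,7,16,17,18])) (.fr 2 [0,1,11,12,13,14,15]))), .t 3 (nat_lit 0x11f1120e) (.z (.nd false 17 18 (.nd true 12 16 (.pg 0 12 15 [18]) (.pg 11 14 16 [13])) (.nd true 1 3 (.nd false 6 10 (.pg 1 5 10 [9,2]) (.t3 [6,7,8])) (.t3 [3,4,17])))), .t 4 (nat_lit 0xc280ce21504) (.z (.nd false 0 12 (.nd false 3 4 (.nd false 4 8 (.pg 2 5 8 [10,9]) (.pg 4 16 7 [6])) (.fr 2 [3,12,13,14,15,17,18])) (.t3 [0,1,11]))), .t 1 (nat_lit 0) (.z (.nd false 0 1 (.fr 3 [1,2,3,4,5,6,7,8,9,10]) (.nd false 11 15 (.pg 0 12 13 [14,15,16]) (.t3 [11,17,18])))), .t 8 (nat_lit 0x12ea12e9093712e612e5009e12e4) (.z (.nd false 0 4 (.fr 2 [4,5,6,7,8,9,10]) (.nd false 0 13 (.nd false 1 13 (.t3 [13,14,18])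 (.pg 2 17 16 [15,1,3])) (.t3 [0,11,12])))), .t 1 (nat_lit 0) (.z (.nd false 0 8 (.t3 [8,9,10]) (.nd false 1 4 (.nd true 4 7 (.pg 0 2 3 [4,5,6]) (.t3 [7,16,18])) (.fr 2 [1,11,12,13,14,15,17])))), .t 1 (nat_lit 0) (.z (.nd false 0 2 (.nd false 3 8 (.pg 2 5 8 [10,9]) (.fr 2 [3,4,6,7,16,17,18])) (.fr 2 [0,1,11,12,13,14,15]))), .t 7 (nat_lit 0x122511e014cc139c131313b1) (.z (.nd false 0 10 (.t3 [10]) (.nd true 0 13 (.nd true 0 1 (.nd true 0 5 (.pg 0 6 7 [8,9]) (.pg 2 3 4 [5])) (.pg 1 17 16 [15,14,18])) (.t3 [11,12,13])))), .t 4 (nat_lit 0x127a0006086c) (.z (.nd false 3 9 (.nd false 2 11 (.fr 2 [1,11,13,14,15,16,18]) (.pg 0 12 2 [9])) (.nd false 0 7 (.t3 [7,8,10]) (.pg 4 6 5 [3,17])))), .t 7 (nat_lit 0x139e1212121113aa11eb120f) (.z (.nd true 0 1 (.fr 3 [0,2,3,4,5,6,7,8,9,10]) (.nd true 13 16 (.pg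 11 13 15 [12]) (.pg 14 17 1 [18,16])))), .t 4 (nat_lit 0x120c064f120b) (.z (.nd true 11 17 (.fr 4 [0,2,3,4,5,6,7,8,9,10,11,12,13,16,18]) (.pg 1 17 15 [14]))), .t 3 (nat_lit 0x11fd11ba) (.z (.nd true 1 15 (.fr 2 [1,11,12,13,14,16,17]) (.nd false 2 9 (.pg 0 15 18 [9]) (.nd true 0 6 (.t3 [7,8,10]) (.pg 2 3 4 [5,6]))))), .t 4 (nat_lit 0x11b9087b0935) (.z (.nd false 3 9 (.nd true 0 13 (.nd false 14 17 (.pg 0 15 16 [17,2,9]) (.t3 [1,14,18])) (.t3 [11,12,13])) (.fr 2 [3,4,5,6,7,8,10]))), .t 4 (nat_lit 0x124a1312007f) (.z (.nd false 15 17 (.fr 2 [0,11,12,13,14,16,17]) (.nd true 1 3 (.nd false 6 10 (.pg 2 18 1 [5,10,9]) (.t3 [6,7,8])) (.t3 [3,4,15])))), .t 1 (nat_lit 0) (.z (.nd false 13 14 (.pg 0 11 12 [14]) (.fr 4 [1,2,3,4,5,6,7,8,9,10,13,15,16,17,18]))), .t 1 (nat_lit 0) (.z (.nd false 0 1 (.nd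 true 1 3 (.nd false 6 10 (.pg 1 5 10 [9,2]) (.t3 [6,7,8])) (.t3 [3,4,18])) (.nd false 11 14 (.pg 0 12 13 [14,15]) (.t3 [11,16,17])))), .t 3 (nat_lit 0x11fd11ba) (.z (.nd true 1 17 (.fr 2 [1,11,12,13,14,16]) (.nd false 2 9 (.pg 0 15 17 [18,9]) (.nd true 0 6 (.t3 [7,8,10]) (.pg 2 3 4 [5,6]))))), .t 4 (nat_lit 0x12740ca71290) (.z (.nd true 1 7 (.fr 2 [0,1,2,5,8,9,10]) (.nd false 0 17 (.pg 6 17 18 [4,7]) (.fr 2 [3,11,12,13,14,15,16])))), .t 5 (nat_lit 0x13e3138d09900109) (.z (.nd false 5 8 (.nd false 0 13 (.nd true 2 4 (.pg 2 6 8 [10,9]) (.pg 4 3 1 [13,14])) (.t3 [0,11,12])) (.fr 2 [5,7,15,16,17,18]))), .t 5 (nat_lit 0x11fd129506571294) (.z (.nd false 9 16 (.nd true 1 2 (.pg 1 18 17 [16]) (.nd true 0 6 (.t3 [7,8,10]) (.pg 2 3 4 [6,5]))) (.fr 2 [0,9,11,12,13,14,15]))), .t 3 (nat_lit 0x11f1120e)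 (.z (.nd false 13 17 (.fr 4 [0,1,2,3,4,5,6,7,8,9,10,12,15,17,18]) (.pg 11 14 16 [13]))), .t 2 (nat_lit 0x63f) (.z (.nd false 0 16 (.nd true 6 7 (.pg 6 8 10 [9]) (.fr 2 [3,4,5,7,16,17,18])) (.nd false 11 13 (.pg 0 1 12 [13,2]) (.t3 [11,14,15])))), .t 1 (nat_lit 0) (.z (.nd false 0 4 (.fr 2 [4,5,6,7,8,9,10]) (.nd false 11 14 (.pg 0 12 13 [14,17]) (.fr 2 [1,2,3,11,15,16,18])))), .t 3 (nat_lit 0x11f1120e) (.z (.nd false 0 4 (.fr 2 [4,5,6,7,8,9,10]) (.nd false 0 18 (.pg 1 3 2 [18]) (.nd true 12 16 (.pg 0 12 15 [17]) (.pg 11 14 16 [13]))))), .t 9 (nat_lit 0x166e06b0166d166c166b166a16691668) (.z (.nd false 1 3 (.nd false 0 8 (.t3 [8,9,10]) (.nd false 0 13 (.pg 2 13 14 [3,5,7,6]) (.t3 [0,11,12]))) (.fr 2 [1,4,15,16,17,18]))), .t 3 (nat_lit 0x4000b) (.z (.nd false 4 7 (.nd true 0 6 (.fr 2 [0,7,8,9,10,15,17])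 (.pg 1 3 6 [5,2])) (.fr 2 [4,11,12,13,14,16,18]))), .t 5 (nat_lit 0x166f020715730197) (.z (.nd false 16 17 (.fr 2 [0,11,12,13,14,15,17]) (.nd true 2 4 (.fr 2 [2,5,6,7,8,9,10]) (.pg 3 18 16 [1,4])))), .t 1 (nat_lit 0) (.z (.nd false 0 4 (.fr 2 [4,5,6,7,8,9,10]) (.nd false 0 18 (.pg 1 3 2 [18]) (.nd false 11 14 (.pg 0 12 13 [14,17]) (.t3 [11,15,16]))))), .t 2 (nat_lit 0x11f0) (.z (.nd false 0 14 (.nd false 4 5 (.pg 5 8 10 [9,6]) (.fr 2 [4,7,14,15,16,17,18])) (.fr 2 [0,1,2,3,11,12,13]))), .t 2 (nat_lit 0x11f0) (.z (.nd false 0 5 (.nd true 5 7 (.pg 5 8 10 [9,6]) (.t3 [7,17,18])) (.nd true 0 15 (.pg 0 3 16 [4]) (.fr 2 [1,2,11,12,13,14,15])))), .t 7 (nat_lit 0x6a1139e13b6121113b5064f) (.z (.nd false 0 4 (.fr 2 [4,5,6,7,8,9,10]) (.nd true 0 13 (.nd true 1 16 (.pg 14 17 1 [18,15]) (.pg 0 16 2 [3]))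 (.t3 [11,12,13])))), .t 1 (nat_lit 0) (.z (.nd false 0 18 (.nd false 1 10 (.pg 2 10 9 [18]) (.fr 2 [1,3,4,5,6,7,8])) (.nd true 0 13 (.pg 0 14 15 [16,17]) (.t3 [11,12,13])))), .t 3 (nat_lit 0x9bd127e) (.z (.nd true 0 4 (.nd true 7 10 (.pg 0 5 6 [7,8,9]) (.t3 [10,18])) (.nd false 0 16 (.pg 3 16 17 [4]) (.fr 2 [1,2,11,12,13,14,15])))), .t 2 (nat_lit 0x1229) (.z (.nd true 4 17 (.fr 2 [4,11,12,13,14,15]) (.nd false 0 1 (.nd false 1 10 (.t3 [2,9,10]) (.pg 1 3 6 [7,8,5])) (.pg 0 16 17 [18]))))] (by decide +kernel) (by decide +kernel)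
theorem b301 : B 19264 19328 := Blk.of_chk [.t 5 (nat_lit 0x1673167216711670) (.z (.nd false 6 13 (.nd false 0 2 (.pg 2 3 4 [5]) (.fr 2 [1,13,14,15,16,17,18])) (.nd true 0 8 (.t3 [0,9,10]) (.pg 11 6 7 [8,12])))), .t 5 (nat_lit 0x1674149211ef11ee) (.z (.nd true 0 15 (.nd true 3 4 (.nd true 0 8 (.t3 [0,9,10]) (.pg 7 8 6 [3,5])) (.pg 4 16 17 [18])) (.fr 2 [1,2,11,12,13,14,15]))), .t 3 (nat_lit 0x11f1120e) (.z (.nd false 0 1 (.fr 3 [1,2,3,4,5,6,7,8,9,10]) (.nd true 12 16 (.pg 0 12 15 [17,18]) (.pg 11 14 16 [13])))), .t 5 (nat_lit 0x12a815ab163b1380) (.z (.nd false 0 4 (.fr 2 [4,5,6,7,8,9,10]) (.nd false 0 13 (.nd false 1 16 (.pg 17 18 16 [13,14]) (.pg 1 3 2 [15])) (.t3 [0,11,12])))), .t 3 (nat_lit 0x124611f5) (.z (.nd true 16 17 (.fr 4 [0,1,2,3,4,5,6,7,8,9,10,12,15,16,18]) (.pg 11 17 14 [13]))),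 .t 3 (nat_lit 0x11e511e4) (.z (.nd false 0 17 (.nd false 1 3 (.nd false 3 10 (.pg 2 10 9 [18]) (.pg 7 8 5 [3,6])) (.t3 [1,4,17])) (.fr 2 [0,11,12,13,14,15,16]))), .t 6 (nat_lit 0x15781577151b11d411ae) (.z (.nd false 3 9 (.nd false 11 18 (.pg 0 12 18 [9]) (.nd false 0 17 (.t3 [1,2,17]) (.pg 11 16 15 [14,13]))) (.fr 2 [3,4,5,6,7,8,10]))), .t 1 (nat_lit 0) (.z (.nd false 0 18 (.nd false 1 10 (.pg 2 10 9 [18]) (.fr 2 [1,3,4,5,6,7,8])) (.nd false 11 14 (.pg 0 12 13 [14,16]) (.t3 [11,15,17])))), .t 3 (nat_lit 0x11ef11ee) (.z (.nd false 0 13 (.nd false 1 3 (.nd false 6 10 (.pg 2 10 9 [14]) (.pg 7 8 6 [3,5])) (.fr 2 [1,4,13,15,16,17,18])) (.t3 [0,11,12]))), .t 5 (nat_lit 0x143614eb0b7411f0) (.z (.nd false 0 15 (.nd false 0 4 (.nd true 5 7 (.pg 5 8 10 [9,6]) (.t3 [4,7,18])) (.pg 3 15 17 [16])) (.fr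 2 [0,1,2,11,12,13,14]))), .t 5 (nat_lit 0x1676167501950926) (.z (.nd false 0 4 (.fr 3 [4,5,6,7,8,9,10,16,17,18]) (.nd false 11 14 (.pg 0 12 13 [14,2]) (.pg 1 11 15 [3])))), .t 1 (nat_lit 0) (.z (.nd true 13 16 (.pg 0 12 13 [15]) (.fr 4 [1,2,3,4,5,6,7,8,9,10,11,14,16,17,18]))), .t 2 (nat_lit 0x11f0) (.z (.nd false 4 5 (.nd false 0 5 (.pg 5 8 10 [9,6]) (.fr 2 [0,1,2,3,11,12,14])) (.fr 2 [4,7,13,15,16,17,18]))), .t 1 (nat_lit 0) (.z (.nd true 0 14 (.nd false 4 18 (.nd false 0 10 (.t3 [10,17,18]) (.pg 0 5 6 [7,8,9])) (.t3 [4,15,16])) (.fr 2 [1,2,3,11,12,13,14]))), .t 7 (nat_lit 0x167714351224128b128a1221) (.z (.nd true 0 1 (.fr 3 [0,2,3,4,5,6,7,8,9,10]) (.nd false 11 14 (.pg 14 16 15 [12,13]) (.pg 1 18 11 [17])))), .t 4 (nat_lit 0x151c126911f0) (.z (.nd false 0 4 (.nd true 5 7 (.pg 5 8 10 [9,6])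 (.t3 [4,7,18])) (.nd false 3 11 (.pg 11 17 16 [15]) (.fr 2 [0,1,2,3,12,13,14])))), .t 4 (nat_lit 0x129812fb1296) (.z (.nd false 16 18 (.fr 2 [0,11,12,13,14,15,18]) (.nd true 1 3 (.nd false 6 10 (.pg 2 16 1 [5,10,9]) (.t3 [6,7,8])) (.t3 [3,4,17])))), .t 9 (nat_lit 0x9611e20e4111e1098e097515aa15b4) (.z (.nd false 0 5 (.fr 3 [5,6,7,8,9,10,15,16,17,18]) (.nd false 1 11 (.pg 11 4 3 [14,13]) (.pg 0 12 1 [2])))), .t 7 (nat_lit 0x1679121514a9064e06491678) (.z (.nd false 3 9 (.nd true 12 16 (.fr 2 [0,2,9,12,15,17,18]) (.pg 1 16 14 [13,11])) (.fr 2 [3,4,5,6,7,8,10]))), .t 3 (nat_lit 0x11e511e4) (.z (.nd false 0 17 (.nd false 1 3 (.nd false 5 10 (.pg 2 10 9 [18]) (.pg 7 8 5 [3,6])) (.t3 [1,4,17])) (.fr 2 [0,11,12,13,14,15,16]))), .t 3 (nat_lit 0x1358167a) (.z (.nd false 0 17 (.nd false 2 8 (.pg 8 10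 9 [17]) (.nd false 4 6 (.pg 2 18 1 [3,6]) (.t3 [4,5,7]))) (.fr 2 [0,11,12,13,14,15,16]))), .t 3 (nat_lit 0x13431342) (.z (.nd true 1 18 (.fr 4 [0,1,2,3,4,5,6,7,8,9,10,14,15,16,17]) (.pg 11 18 13 [12]))), .t 5 (nat_lit 0x124a167b1312007f) (.z (.nd false 0 17 (.nd true 1 4 (.nd true 1 7 (.pg 2 18 1 [5,8,10,9]) (.t3 [3,6,7])) (.t3 [4,17])) (.fr 2 [0,11,12,13,14,15,16]))), .t 4 (nat_lit 0x167c10bf0e87) (.z (.nd false 0 2 (.nd true 5 7 (.pg 8 18 10 [9,2,5]) (.fr 2 [3,4,6,7,15,16,17])) (.fr 2 [0,1,11,12,13,14]))), .t 4 (nat_lit 0xbb00ce51575) (.z (.nd false 0 12 (.nd false 3 4 (.nd false 4 8 (.pg 2 6 8 [10,9]) (.pg 4 18 7 [5])) (.fr 2 [3,12,13,14,15,16,17])) (.t3 [0,1,11]))), .t 3 (nat_lit 0x124611f5) (.z (.nd false 0 18 (.nd false 1 10 (.pg 2 10 9 [18]) (.fr 2 [1,3,4,5,6,7,8])) (.nd true 12 14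 (.pg 0 12 15 [16]) (.pg 11 17 14 [13])))), .t 2 (nat_lit 0x11ae) (.z (.nd false 3 9 (.nd false 11 18 (.pg 0 12 13 [18,9]) (.fr 2 [1,2,11,14,15,16,17])) (.fr 2 [3,4,5,6,7,8,10]))), .t 3 (nat_lit 0x11fd11ae) (.z (.nd false 16 18 (.nd false 11 15 (.pg 0 12 15 [18,9]) (.t3 [11,13,14])) (.nd false 1 4 (.nd true 0 6 (.t3 [7,8,10]) (.pg 2 3 4 [6,5])) (.t3 [1,16,17])))), .t 7 (nat_lit 0x13cd13cb1260120f125f125e) (.z (.nd true 0 1 (.fr 3 [0,2,3,4,5,6,7,8,9,10]) (.nd false 14 16 (.pg 11 13 16 [15,12]) (.pg 1 18 17 [14])))), .t 4 (nat_lit 0x155009aa11f0) (.z (.nd false 0 3 (.nd false 0 5 (.nd true 6 7 (.pg 6 8 10 [9,5]) (.t3 [7,17,18])) (.pg 3 4 16 [15])) (.fr 2 [0,1,2,11,12,13,14]))), .t 1 (nat_lit 0) (.z (.nd false 2 13 (.fr 4 [1,3,4,5,6,7,8,9,10,13,14,15,16,17,18]) (.pg 0 11 12 [2]))), .t 7 (nat_lit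 0x11e511e4122b122a1169085a) (.z (.nd false 1 10 (.nd false 0 13 (.pg 10 9 2 [13,14]) (.t3 [0,11,12])) (.nd false 1 3 (.pg 7 8 5 [3,6]) (.fr 2 [1,4,15,16,17,18])))), .t 1 (nat_lit 0) (.z (.nd false 0 4 (.fr 2 [4,5,6,7,8,9,10]) (.nd false 0 18 (.pg 1 3 2 [18]) (.nd false 11 17 (.pg 0 12 13 [14,17]) (.t3 [11,15,16]))))), .t 3 (nat_lit 0x15c91002) (.z (.nd true 0 12 (.nd false 6 7 (.nd false 7 9 (.pg 0 2 3 [5,9]) (.pg 7 18 10 [8])) (.fr 2 [4,6,13,14,15,16,17])) (.t3 [1,11,12]))), .t 4 (nat_lit 0x155009aa13ea) (.z (.nd false 0 3 (.nd false 0 5 (.nd true 7 10 (.pg 5 7 8 [9,6]) (.t3 [10,17,18])) (.pg 3 4 16 [15])) (.fr 2 [0,1,2,11,12,13,14]))), .t 3 (nat_lit 0xc350c31) (.z (.nd false 0 12 (.nd true 2 7 (.pg 2 5 8 [10,9]) (.nd false 0 4 (.pg 4 18 7 [6]) (.fr 2 [3,12,13,14,15,16,17]))) (.t3 [0,1,11]))),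 .t 2 (nat_lit 0x926) (.z (.nd false 0 3 (.nd false 3 8 (.pg 6 8 10 [9]) (.fr 2 [3,4,5,7,16,17,18])) (.nd false 11 14 (.pg 0 12 13 [14,2]) (.t3 [1,11,15])))), .t 1 (nat_lit 0) (.z (.nd true 0 14 (.nd true 5 9 (.pg 0 4 15 [5,6]) (.fr 2 [7,8,9,10,16,17,18])) (.fr 2 [1,2,3,11,12,13,14]))), .t 1 (nat_lit 0) (.z (.nd false 0 6 (.fr 2 [6,7,8,9,10,17,18]) (.nd true 2 15 (.pg 0 2 3 [4,5]) (.fr 2 [1,11,12,13,14,15,16])))), .t 1 (nat_lit 0) (.z (.nd false 0 18 (.nd true 1 3 (.nd false 6 10 (.pg 1 5 10 [9,2]) (.t3 [6,7,8])) (.t3 [3,4,18])) (.nd false 11 15 (.pg 0 12 13 [15,17]) (.t3 [11,14,16])))), .r 2 (nat_lit 0x96), .r 2 (nat_lit 0x99), .r 2 (nat_lit 0x9c), .r 2 (nat_lit 0x9e), .r 2 (nat_lit 0x9f), .r 2 (nat_lit 0xa1), .r 2 (nat_lit 0xa3), .r 2 (nat_lit 0x191), .r 2 (nat_lit 0x194), .r 2 (nat_lit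 0x195), .r 2 (nat_lit 0x197), .r 2 (nat_lit 0x199), .r 2 (nat_lit 0x19c), .r 2 (nat_lit 0x279), .r 2 (nat_lit 0x27a), .r 2 (nat_lit 0x27d), .r 2 (nat_lit 0x280), .r 2 (nat_lit 0x283), .r 2 (nat_lit 0x286), .r 2 (nat_lit 0x34c), .r 2 (nat_lit 0x34f), .r 2 (nat_lit 0x35f), .r 2 (nat_lit 0x353), .r 2 (nat_lit 0x355)] (by decide +kernel) (by decide +kernel)
theorem b302 : B 19328 19392 := Blk.of_chk [.r 2 (nat_lit 0x3d5), .r 2 (nat_lit 0x3d8), .r 2 (nat_lit 0x3db), .r 2 (nat_lit 0x3de), .r 2 (nat_lit 0x3df), .r 2 (nat_lit 0x458), .r 2 (nat_lit 0x45b), .r 2 (nat_lit 0x45e), .r 2 (nat_lit 0x460), .r 2 (nat_lit 0x462), .r 2 (nat_lit 0x4d1), .r 2 (nat_lit 0x4d4), .r 2 (nat_lit 0x4d7), .r 2 (nat_lit 0x4d9), .r 2 (nat_lit 0x4db), .r 2 (nat_lit 0x547), .r 2 (nat_lit 0x54a), .r 2 (nat_lit 0x54c), .r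 2 (nat_lit 0x54d), .r 2 (nat_lit 0x553), .r 2 (nat_lit 0x5d1), .r 2 (nat_lit 0x5e6), .r 2 (nat_lit 0x5d8), .r 2 (nat_lit 0x5da), .r 2 (nat_lit 0x63f), .r 2 (nat_lit 0x640), .r 2 (nat_lit 0x641), .r 2 (nat_lit 0x642), .r 2 (nat_lit 0x645), .r 2 (nat_lit 0x647), .r 2 (nat_lit 0x649), .r 2 (nat_lit 0x64b), .r 2 (nat_lit 0x64c), .r 2 (nat_lit 0x64d), .r 2 (nat_lit 0x64e), .r 2 (nat_lit 0x64f), .r 2 (nat_lit 0x650), .r 2 (nat_lit 0x651), .r 2 (nat_lit 0x652), .r 2 (nat_lit 0x653), .r 2 (nat_lit 0x654), .r 2 (nat_lit 0x656), .r 2 (nat_lit 0x657), .r 2 (nat_lit 0x69d), .r 2 (nat_lit 0x69f), .r 2 (nat_lit 0x6a0), .r 2 (nat_lit 0x6a1), .r 2 (nat_lit 0x6a2), .r 2 (nat_lit 0x6a7), .r 2 (nat_lit 0x70c), .r 2 (nat_lit 0x70f), .r 2 (nat_lit 0x710), .r 2 (nat_lit 0x712), .r 2 (nat_lit 0x713), .r 2 (nat_lit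 0x71a), .r 2 (nat_lit 0x77a), .r 2 (nat_lit 0x77c), .r 2 (nat_lit 0x77d), .r 2 (nat_lit 0x77f), .r 2 (nat_lit 0x780), .r 2 (nat_lit 0x788), .r 2 (nat_lit 0x7ba), .r 2 (nat_lit 0x7c8), .r 2 (nat_lit 0x7c2)] (by decide +kernel) (by decide +kernel)
theorem b303 : B 19392 19456 := Blk.of_chk [.r 2 (nat_lit 0x7bc), .r 2 (nat_lit 0x7c6), .r 2 (nat_lit 0x7f4), .r 2 (nat_lit 0x7f6), .r 2 (nat_lit 0x7f7), .r 2 (nat_lit 0x7f8), .r 2 (nat_lit 0x804), .r 2 (nat_lit 0x83f), .r 2 (nat_lit 0x83a), .r 2 (nat_lit 0x831), .r 2 (nat_lit 0x833), .r 2 (nat_lit 0x82e), .r 2 (nat_lit 0x838), .r 2 (nat_lit 0x86f), .r 2 (nat_lit 0x875), .r 2 (nat_lit 0x878), .r 2 (nat_lit 0x87e), .r 2 (nat_lit 0x8e2), .r 2 (nat_lit 0x8e6), .r 2 (nat_lit 0x900), .r 2 (nat_lit 0x8f1), .r 2 (nat_lit 0x8ea), .r 2 (nat_lit 0x925), .r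 2 (nat_lit 0x927), .r 2 (nat_lit 0x928), .r 2 (nat_lit 0x92a), .r 2 (nat_lit 0x92b), .r 2 (nat_lit 0x92c), .r 2 (nat_lit 0x92d), .r 2 (nat_lit 0x92e), .r 2 (nat_lit 0x92f), .r 2 (nat_lit 0x930), .r 2 (nat_lit 0x931), .r 2 (nat_lit 0x932), .r 2 (nat_lit 0x933), .r 2 (nat_lit 0x934), .r 2 (nat_lit 0x935), .r 2 (nat_lit 0x936), .r 2 (nat_lit 0x937), .r 2 (nat_lit 0x938), .r 2 (nat_lit 0x939), .r 2 (nat_lit 0x986), .r 2 (nat_lit 0x973), .r 2 (nat_lit 0x975), .r 2 (nat_lit 0x976), .r 2 (nat_lit 0x977), .r 2 (nat_lit 0x978), .r 2 (nat_lit 0x97b), .r 2 (nat_lit 0x9ea), .r 2 (nat_lit 0x9eb), .r 2 (nat_lit 0x9f5), .r 2 (nat_lit 0x9ee), .r 2 (nat_lit 0x9ef), .r 2 (nat_lit 0x9f1), .r 2 (nat_lit 0xa32), .r 2 (nat_lit 0xa33), .r 2 (nat_lit 0xa39), .r 2 (nat_lit 0xa35), .r 2 (nat_lit 0xa3e), .r 2 (nat_lit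 0xa68), .r 2 (nat_lit 0xa71), .r 2 (nat_lit 0xa6c), .r 2 (nat_lit 0xa6d), .r 2 (nat_lit 0xa6f)] (by decide +kernel) (by decide +kernel)
theorem b304 : B 19456 19520 := Blk.of_chk [.r 2 (nat_lit 0xa9c), .r 2 (nat_lit 0xa9f), .r 2 (nat_lit 0xaab), .r 2 (nat_lit 0xaa1), .r 2 (nat_lit 0xad6), .r 2 (nat_lit 0xad8), .r 2 (nat_lit 0xadb), .r 2 (nat_lit 0xadd), .r 2 (nat_lit 0xadf), .r 2 (nat_lit 0xae3), .r 2 (nat_lit 0x1690), .r 2 (nat_lit 0xb37), .r 2 (nat_lit 0xb3b), .r 2 (nat_lit 0x1420), .r 2 (nat_lit 0xb66), .r 2 (nat_lit 0x1691), .r 2 (nat_lit 0xb67), .r 2 (nat_lit 0xb7b), .r 2 (nat_lit 0xb68), .r 2 (nat_lit 0xb69), .r 2 (nat_lit 0xb6a), .r 2 (nat_lit 0xb6b), .r 2 (nat_lit 0xb6c), .r 2 (nat_lit 0xb6d), .r 2 (nat_lit 0xb6e), .r 2 (nat_lit 0xb6f), .r 2 (nat_lit 0xb71), .r 2 (nat_lit 0xb72),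 .r 2 (nat_lit 0xb73), .r 2 (nat_lit 0xb85), .r 2 (nat_lit 0xb74), .r 2 (nat_lit 0xb76), .r 2 (nat_lit 0xb77), .r 2 (nat_lit 0xbed), .r 2 (nat_lit 0xbf2), .r 2 (nat_lit 0xbe7), .r 2 (nat_lit 0xbe8), .r 2 (nat_lit 0xbea), .r 2 (nat_lit 0xbec), .r 2 (nat_lit 0xc6f), .r 2 (nat_lit 0xc70), .r 2 (nat_lit 0xc72), .r 2 (nat_lit 0xc73), .r 2 (nat_lit 0xc75), .r 2 (nat_lit 0xc77), .r 2 (nat_lit 0xcde), .r 2 (nat_lit 0xcea), .r 2 (nat_lit 0xce1), .r 2 (nat_lit 0xce2), .r 2 (nat_lit 0xce3), .r 2 (nat_lit 0xce5), .r 2 (nat_lit 0xd3e), .r 2 (nat_lit 0xd49), .r 2 (nat_lit 0xd41), .r 2 (nat_lit 0xd42), .r 2 (nat_lit 0xd44), .r 2 (nat_lit 0xd46), .r 2 (nat_lit 0xd91), .r 2 (nat_lit 0xd93), .r 2 (nat_lit 0xd94), .r 2 (nat_lit 0xd97), .r 2 (nat_lit 0xd99), .r 2 (nat_lit 0xdf9), .r 2 (nat_lit 0xdfc)] (by decide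 +kernel) (by decide +kernel)
theorem b305 : B 19520 19584 := Blk.of_chk [.r 2 (nat_lit 0xe0a), .r 2 (nat_lit 0xdfe), .r 2 (nat_lit 0xe0f), .r 2 (nat_lit 0xe3d), .r 2 (nat_lit 0xe3e), .r 2 (nat_lit 0xe3f), .r 2 (nat_lit 0xe4e), .r 2 (nat_lit 0xe40), .r 2 (nat_lit 0xe41), .r 2 (nat_lit 0xe42), .r 2 (nat_lit 0xe51), .r 2 (nat_lit 0xe44), .r 2 (nat_lit 0xe50), .r 2 (nat_lit 0xe45), .r 2 (nat_lit 0xe46), .r 2 (nat_lit 0xe47), .r 2 (nat_lit 0xe48), .r 2 (nat_lit 0xe49), .r 2 (nat_lit 0xe4a), .r 2 (nat_lit 0xe4b), .r 2 (nat_lit 0xe4c), .r 2 (nat_lit 0xe4d), .r 2 (nat_lit 0xe65), .r 2 (nat_lit 0x1692), .r 2 (nat_lit 0x1693), .r 2 (nat_lit 0xe67), .r 2 (nat_lit 0x1694), .r 2 (nat_lit 0xe7b), .r 2 (nat_lit 0xe7c), .r 2 (nat_lit 0xe77), .r 2 (nat_lit 0xe78), .r 2 (nat_lit 0xe93), .r 2 (nat_lit 0xe8d),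 .r 2 (nat_lit 0xe8b), .r 2 (nat_lit 0xe90), .r 2 (nat_lit 0xeb3), .r 2 (nat_lit 0xeb5), .r 2 (nat_lit 0xeb7), .r 2 (nat_lit 0xef7), .r 2 (nat_lit 0xef8), .r 2 (nat_lit 0xf02), .r 2 (nat_lit 0xefa), .r 2 (nat_lit 0x1695), .r 2 (nat_lit 0xf15), .r 2 (nat_lit 0xf16), .r 2 (nat_lit 0xf24), .r 2 (nat_lit 0xf17), .r 2 (nat_lit 0xf18), .r 2 (nat_lit 0xf19), .r 2 (nat_lit 0xf1a), .r 2 (nat_lit 0xf1c), .r 2 (nat_lit 0xf26), .r 2 (nat_lit 0xf1d), .r 2 (nat_lit 0xf1e), .r 2 (nat_lit 0xf27), .r 2 (nat_lit 0xf1f), .r 2 (nat_lit 0xf20), .r 2 (nat_lit 0xf28), .r 2 (nat_lit 0xf21), .r 2 (nat_lit 0xf22), .r 2 (nat_lit 0xf23), .r 2 (nat_lit 0xf3b), .r 2 (nat_lit 0xf3e), .r 2 (nat_lit 0xf38)] (by decide +kernel) (by decide +kernel)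
theorem b306 : B 19584 19648 := Blk.of_chk [.r 2 (nat_lit 0xf39), .r 2 (nat_lit 0xf3a), .r 2 (nat_lit 0xf5e), .r 2 (nat_lit 0xf5a), .r 2 (nat_lit 0xf5b), .r 2 (nat_lit 0xf59), .r 2 (nat_lit 0xf60), .r 2 (nat_lit 0xf7a), .r 2 (nat_lit 0xf7c), .r 2 (nat_lit 0xf7e), .r 2 (nat_lit 0xf80), .r 2 (nat_lit 0xf82), .r 2 (nat_lit 0xfbf), .r 2 (nat_lit 0xfcb), .r 2 (nat_lit 0xfce), .r 2 (nat_lit 0xfd7), .r 2 (nat_lit 0xfd8), .r 2 (nat_lit 0xfe9), .r 2 (nat_lit 0xfe7), .r 2 (nat_lit 0xfd9), .r 2 (nat_lit 0xfda), .r 2 (nat_lit 0xfdb), .r 2 (nat_lit 0xfdc), .r 2 (nat_lit 0xfde), .r 2 (nat_lit 0xfea), .r 2 (nat_lit 0xfdf), .r 2 (nat_lit 0xfe0), .r 2 (nat_lit 0xfe1), .r 2 (nat_lit 0xfe2), .r 2 (nat_lit 0xfe3), .r 2 (nat_lit 0xfeb), .r 2 (nat_lit 0xfe4), .r 2 (nat_lit 0xfe5), .r 2 (nat_lit 0xfe6), .r 2 (nat_lit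 0x1013), .r 2 (nat_lit 0x100e), .r 2 (nat_lit 0x100a), .r 2 (nat_lit 0x100b), .r 2 (nat_lit 0x100c), .r 2 (nat_lit 0x103b), .r 2 (nat_lit 0x103c), .r 2 (nat_lit 0x103e), .r 2 (nat_lit 0x1040), .r 2 (nat_lit 0x1042), .r 2 (nat_lit 0x1088), .r 2 (nat_lit 0x1091), .r 2 (nat_lit 0x1081), .r 2 (nat_lit 0x1082), .r 2 (nat_lit 0x1696), .r 2 (nat_lit 0x109d), .r 2 (nat_lit 0x10ae), .r 2 (nat_lit 0x10ad), .r 2 (nat_lit 0x109e), .r 2 (nat_lit 0x109f), .r 2 (nat_lit 0x10a0), .r 2 (nat_lit 0x10a1), .r 2 (nat_lit 0x10a3), .r 2 (nat_lit 0x10a4), .r 2 (nat_lit 0x10a5), .r 2 (nat_lit 0x10a6), .r 2 (nat_lit 0x10a7), .r 2 (nat_lit 0x10a8), .r 2 (nat_lit 0x10a9), .r 2 (nat_lit 0x10b1)] (by decide +kernel) (by decide +kernel)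
theorem b307 : B 19648 19712 := Blk.of_chk [.r 2 (nat_lit 0x10aa), .r 2 (nat_lit 0x10ab), .r 2 (nat_lit 0x10ac), .r 2 (nat_lit 0x10ca), .r 2 (nat_lit 0x10cc), .r 2 (nat_lit 0x10ce), .r 2 (nat_lit 0x10d0), .r 2 (nat_lit 0x1115), .r 2 (nat_lit 0x1117), .r 2 (nat_lit 0x1111), .r 2 (nat_lit 0x111a), .r 2 (nat_lit 0x1697), .r 2 (nat_lit 0x1698), .r 2 (nat_lit 0x1140), .r 2 (nat_lit 0x113f), .r 2 (nat_lit 0x1141), .r 2 (nat_lit 0x1130), .r 2 (nat_lit 0x1131), .r 2 (nat_lit 0x1132), .r 2 (nat_lit 0x1133), .r 2 (nat_lit 0x1134), .r 2 (nat_lit 0x1135), .r 2 (nat_lit 0x1136), .r 2 (nat_lit 0x1137), .r 2 (nat_lit 0x1138), .r 2 (nat_lit 0x1139), .r 2 (nat_lit 0x113a), .r 2 (nat_lit 0x113b), .r 2 (nat_lit 0x1142), .r 2 (nat_lit 0x113c), .r 2 (nat_lit 0x113d), .r 2 (nat_lit 0x113e), .r 2 (nat_lit 0x1148),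 .r 2 (nat_lit 0x114b), .r 2 (nat_lit 0x114d), .r 2 (nat_lit 0x114f), .r 2 (nat_lit 0x1150), .r 2 (nat_lit 0x1162), .r 2 (nat_lit 0x11a9), .r 2 (nat_lit 0x11aa), .r 2 (nat_lit 0x11ab), .r 2 (nat_lit 0x11ac), .r 2 (nat_lit 0x11ae), .r 2 (nat_lit 0x11af), .r 2 (nat_lit 0x11b0), .r 2 (nat_lit 0x11b1), .r 2 (nat_lit 0x11b2), .r 2 (nat_lit 0x11b3), .r 2 (nat_lit 0x11b4), .r 2 (nat_lit 0x11b5), .r 2 (nat_lit 0x11b6), .r 2 (nat_lit 0x11b7), .r 2 (nat_lit 0x11b8), .r 2 (nat_lit 0x11b9), .r 2 (nat_lit 0x11ba), .r 2 (nat_lit 0x11bb), .r 2 (nat_lit 0x11bc), .r 2 (nat_lit 0x11bd), .r 2 (nat_lit 0x11be), .r 2 (nat_lit 0x11bf), .r 2 (nat_lit 0x11c0), .r 2 (nat_lit 0x11c1), .r 2 (nat_lit 0x11c2), .r 2 (nat_lit 0x11c3)] (by decide +kernel) (by decide +kernel)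
theorem b308 : B 19712 19776 := Blk.of_chk [.r 2 (nat_lit 0x11c4), .r 2 (nat_lit 0x11c5), .r 2 (nat_lit 0x11c6), .r 2 (nat_lit 0x11c7), .r 2 (nat_lit 0x11c8), .r 2 (nat_lit 0x11c9), .r 2 (nat_lit 0x11ca), .r 2 (nat_lit 0x11cb), .r 2 (nat_lit 0x11cc), .r 2 (nat_lit 0x11cd), .r 2 (nat_lit 0x11ce), .r 2 (nat_lit 0x11cf), .r 2 (nat_lit 0x11d0), .r 2 (nat_lit 0x11d1), .r 2 (nat_lit 0x69f), .r 2 (nat_lit 0x83a), .r 2 (nat_lit 0x1692), .r 2 (nat_lit 0xf3e), .r 2 (nat_lit 0x10ca), .r 2 (nat_lit 0x9f), .r 2 (nat_lit 0x197), .r 2 (nat_lit 0x280), .r 2 (nat_lit 0x35f), .r 2 (nat_lit 0x6a1), .r 2 (nat_lit 0x712), .r 2 (nat_lit 0x77f), .r 2 (nat_lit 0x977), .r 2 (nat_lit 0xbe8), .r 2 (nat_lit 0x1693), .r 2 (nat_lit 0xf1f), .r 2 (nat_lit 0x100a), .r 2 (nat_lit 0x10cc), .r 2 (nat_lit 0x113a), .r 2 (nat_lit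 0xa1), .r 2 (nat_lit 0x199), .r 2 (nat_lit 0x283), .r 2 (nat_lit 0x353), .r 2 (nat_lit 0x3de), .r 2 (nat_lit 0x460), .r 2 (nat_lit 0x4d9), .r 2 (nat_lit 0x654), .r 2 (nat_lit 0x937), .r 2 (nat_lit 0x978), .r 2 (nat_lit 0x9f1), .r 2 (nat_lit 0xb74), .r 2 (nat_lit 0xbea), .r 2 (nat_lit 0xce3), .r 2 (nat_lit 0xe4b), .r 2 (nat_lit 0xe77), .r 2 (nat_lit 0xf21), .r 2 (nat_lit 0xf39), .r 2 (nat_lit 0xf59), .r 2 (nat_lit 0xfe3), .r 2 (nat_lit 0x100b), .r 2 (nat_lit 0x10aa), .r 2 (nat_lit 0x113b), .r 2 (nat_lit 0x113c), .r 2 (nat_lit 0x1150), .r 2 (nat_lit 0x11b9), .r 2 (nat_lit 0xa3), .r 2 (nat_lit 0x19c), .r 2 (nat_lit 0x286), .r 2 (nat_lit 0x355), .r 2 (nat_lit 0x3df)] (by decide +kernel) (by decide +kernel)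
theorem b309 : B 19776 19840 := Blk.of_chk [.r 2 (nat_lit 0x657), .r 2 (nat_lit 0x6a7), .r 2 (nat_lit 0x71a), .r 2 (nat_lit 0x788), .r 2 (nat_lit 0x7c6), .r 2 (nat_lit 0x804), .r 2 (nat_lit 0x938), .r 2 (nat_lit 0x97b), .r 2 (nat_lit 0xa38), .r 2 (nat_lit 0xa6f), .r 2 (nat_lit 0xbec), .r 2 (nat_lit 0xc77), .r 2 (nat_lit 0xce5), .r 2 (nat_lit 0xe4c), .r 2 (nat_lit 0xe4d), .r 2 (nat_lit 0x1694), .r 2 (nat_lit 0xe78), .r 2 (nat_lit 0xf22), .r 2 (nat_lit 0xf23), .r 2 (nat_lit 0xf3a), .r 2 (nat_lit 0xfe6), .r 2 (nat_lit 0x10ab), .r 2 (nat_lit 0x10ac), .r 2 (nat_lit 0x10d0), .r 2 (nat_lit 0x113d), .r 2 (nat_lit 0x11bd), .r 2 (nat_lit 0x11d0), .r 2 (nat_lit 0x1207), .r 2 (nat_lit 0x1205), .r 2 (nat_lit 0x1699), .r 2 (nat_lit 0x169a), .r 2 (nat_lit 0x169b), .r 2 (nat_lit 0x169c), .r 2 (nat_lit 0x154a),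 .r 2 (nat_lit 0x169d), .r 2 (nat_lit 0x169e), .r 2 (nat_lit 0x169f), .r 2 (nat_lit 0x16a0), .r 2 (nat_lit 0x16a1), .r 2 (nat_lit 0x136e), .r 2 (nat_lit 0x16a2), .r 2 (nat_lit 0x16a3), .r 2 (nat_lit 0x16a4), .r 2 (nat_lit 0x16a5), .r 2 (nat_lit 0x16a6), .r 2 (nat_lit 0x16a7), .r 2 (nat_lit 0x16a8), .r 2 (nat_lit 0x1302), .r 2 (nat_lit 0x16a9), .r 2 (nat_lit 0x16aa), .r 2 (nat_lit 0x16ab), .r 2 (nat_lit 0x16ac), .r 2 (nat_lit 0x11f3), .r 2 (nat_lit 0x16ad), .r 2 (nat_lit 0x16ae), .r 2 (nat_lit 0x16af), .r 2 (nat_lit 0x1370), .r 2 (nat_lit 0x16b0), .r 2 (nat_lit 0x16b1), .r 2 (nat_lit 0x16b2), .r 2 (nat_lit 0x16b3), .r 2 (nat_lit 0x16b4), .r 2 (nat_lit 0x16b5), .r 2 (nat_lit 0x16b6)] (by decide +kernel) (by decide +kernel)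
theorem b310 : B 19840 19904 := Blk.of_chk [.r 2 (nat_lit 0x16b7), .r 2 (nat_lit 0x16b8), .r 2 (nat_lit 0x16b9), .r 2 (nat_lit 0x16ba), .r 2 (nat_lit 0x16bb), .r 2 (nat_lit 0x16bc), .r 2 (nat_lit 0x16bd), .r 2 (nat_lit 0x16be), .r 2 (nat_lit 0x16bf), .r 2 (nat_lit 0x16c0), .r 2 (nat_lit 0x16c1), .r 2 (nat_lit 0x16c2), .r 2 (nat_lit 0x16c3), .r 2 (nat_lit 0x16c4), .r 2 (nat_lit 0x16c5), .r 2 (nat_lit 0x16c6), .r 2 (nat_lit 0x16c7), .r 2 (nat_lit 0x16c8), .r 2 (nat_lit 0x16c9), .r 2 (nat_lit 0x16ca), .r 2 (nat_lit 0x16cb), .r 2 (nat_lit 0x16cc), .r 2 (nat_lit 0x16cd), .r 2 (nat_lit 0x16ce), .r 2 (nat_lit 0x16cf), .r 2 (nat_lit 0x16d0), .r 2 (nat_lit 0xb), .r 2 (nat_lit 0xb), .r 2 (nat_lit 0x1299), .r 2 (nat_lit 0x16d1), .r 2 (nat_lit 0x16d2), .r 2 (nat_lit 0x16d3), .r 2 (nat_lit 0x16d4), .r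 2 (nat_lit 0x16d5), .r 2 (nat_lit 0x16d6), .r 2 (nat_lit 0x16d7), .r 2 (nat_lit 0x1418), .r 2 (nat_lit 0x16d8), .r 2 (nat_lit 0x16d9), .r 2 (nat_lit 0x16da), .r 2 (nat_lit 0x165c), .r 2 (nat_lit 0x16db), .r 2 (nat_lit 0x16dc), .r 2 (nat_lit 0x16dd), .r 2 (nat_lit 0x16de), .r 2 (nat_lit 0x16df), .r 2 (nat_lit 0x16e0), .r 2 (nat_lit 0x16e1), .r 2 (nat_lit 0x1328), .r 2 (nat_lit 0x16e2), .r 2 (nat_lit 0x16e3), .r 2 (nat_lit 0x16e4), .r 2 (nat_lit 0x16e5), .r 2 (nat_lit 0x16e6), .r 2 (nat_lit 0x16e7), .r 2 (nat_lit 0x16e8), .r 2 (nat_lit 0x16e9), .r 2 (nat_lit 0x12f1), .r 2 (nat_lit 0x16ea), .r 2 (nat_lit 0x16eb), .r 2 (nat_lit 0x16ec), .r 2 (nat_lit 0x16ed), .r 2 (nat_lit 0x16ee), .r 2 (nat_lit 0x14ec)] (by decide +kernel) (by decide +kernel)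
theorem b311 : B 19904 19968 := Blk.of_chk [.r 2 (nat_lit 0x16ef), .r 2 (nat_lit 0x16f0), .r 2 (nat_lit 0x16f1), .r 2 (nat_lit 0x16f2), .r 2 (nat_lit 0x144d), .r 2 (nat_lit 0x16f3), .r 2 (nat_lit 0x16f4), .r 2 (nat_lit 0x16f5), .r 2 (nat_lit 0x16f6), .r 2 (nat_lit 0x16f7), .r 2 (nat_lit 0x16f8), .r 2 (nat_lit 0x16f9), .r 2 (nat_lit 0x16fa), .r 2 (nat_lit 0x16fb), .r 2 (nat_lit 0x16fc), .r 2 (nat_lit 0x16fd), .r 2 (nat_lit 0x16fe), .r 2 (nat_lit 0x16ff), .r 2 (nat_lit 0x1700), .r 2 (nat_lit 0x1374), .r 2 (nat_lit 0x1701), .r 2 (nat_lit 0x1702), .r 2 (nat_lit 0x1703), .r 2 (nat_lit 0x1704), .r 2 (nat_lit 0x1705), .r 2 (nat_lit 0x1706), .r 2 (nat_lit 0x1707), .r 2 (nat_lit 0x1708), .r 2 (nat_lit 0x1709), .r 2 (nat_lit 0x170a), .r 2 (nat_lit 0x170b), .r 2 (nat_lit 0x170c), .r 2 (nat_lit 0x170d),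 .r 2 (nat_lit 0x170e), .r 2 (nat_lit 0x170f), .r 2 (nat_lit 0x1710), .r 2 (nat_lit 0x1711), .r 2 (nat_lit 0x1712), .r 2 (nat_lit 0x1713), .r 2 (nat_lit 0x1714), .r 2 (nat_lit 0x1715), .r 2 (nat_lit 0x1716), .r 2 (nat_lit 0x1717), .r 2 (nat_lit 0x1718), .r 2 (nat_lit 0x1719), .r 2 (nat_lit 0x171a), .r 2 (nat_lit 0x171b), .r 2 (nat_lit 0x171c), .r 2 (nat_lit 0x171d), .r 2 (nat_lit 0x171e), .r 2 (nat_lit 0x171f), .r 2 (nat_lit 0x1720), .r 2 (nat_lit 0x1721), .r 2 (nat_lit 0x1722), .r 2 (nat_lit 0x1723), .r 2 (nat_lit 0x1724), .r 2 (nat_lit 0x1725), .r 2 (nat_lit 0x1726), .r 2 (nat_lit 0x1727), .r 2 (nat_lit 0x1728), .r 2 (nat_lit 0x1729), .r 2 (nat_lit 0x172a), .r 2 (nat_lit 0x172b), .r 2 (nat_lit 0x172c)] (by decide +kernel) (by decide +kernel)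
theorem b312 : B 19968 20032 := Blk.of_chk [.r 2 (nat_lit 0x172d), .r 2 (nat_lit 0x172e), .r 2 (nat_lit 0x172f), .r 2 (nat_lit 0x1730), .r 2 (nat_lit 0x1731), .r 2 (nat_lit 0x1732), .r 2 (nat_lit 0x1733), .r 2 (nat_lit 0x1734), .r 2 (nat_lit 0x1735), .r 2 (nat_lit 0x1736), .r 2 (nat_lit 0x1737), .r 2 (nat_lit 0x1738), .r 2 (nat_lit 0x1739), .r 2 (nat_lit 0x173a), .r 2 (nat_lit 0x173b), .r 2 (nat_lit 0x173c), .r 2 (nat_lit 0x173d), .r 2 (nat_lit 0x173e), .r 2 (nat_lit 0x173f), .r 2 (nat_lit 0x1740), .r 2 (nat_lit 0x1741), .r 2 (nat_lit 0x1742), .r 2 (nat_lit 0x1743), .r 2 (nat_lit 0x1744), .r 2 (nat_lit 0x1745), .r 2 (nat_lit 0x1746), .r 2 (nat_lit 0x1747), .r 2 (nat_lit 0x1748), .r 2 (nat_lit 0x1749), .r 2 (nat_lit 0x174a), .r 2 (nat_lit 0x174b), .r 2 (nat_lit 0x174c), .r 2 (nat_lit 0x174d),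 .r 2 (nat_lit 0x174e), .r 2 (nat_lit 0x174f), .r 2 (nat_lit 0x1750), .r 2 (nat_lit 0x1751), .r 2 (nat_lit 0x1752), .r 2 (nat_lit 0x1753), .r 2 (nat_lit 0x1754), .r 2 (nat_lit 0x1755), .r 2 (nat_lit 0x1756), .r 2 (nat_lit 0x1757), .r 2 (nat_lit 0x1758), .r 2 (nat_lit 0x1759), .r 2 (nat_lit 0x175a), .r 2 (nat_lit 0x175b), .r 2 (nat_lit 0x175c), .r 2 (nat_lit 0x175d), .r 2 (nat_lit 0x175e), .r 2 (nat_lit 0x175f), .r 2 (nat_lit 0x1760), .r 2 (nat_lit 0x165d), .r 2 (nat_lit 0x1761), .r 2 (nat_lit 0x1762), .r 2 (nat_lit 0x1763), .r 2 (nat_lit 0x1764), .r 2 (nat_lit 0x1765), .r 2 (nat_lit 0x1766), .r 2 (nat_lit 0x1767), .r 2 (nat_lit 0x1768), .r 2 (nat_lit 0x1769), .r 2 (nat_lit 0x176a), .r 2 (nat_lit 0x176b)] (by decide +kernel) (by decide +kernel)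
theorem b313 : B 20032 20096 := Blk.of_chk [.r 2 (nat_lit 0x176c), .r 2 (nat_lit 0x176d), .r 2 (nat_lit 0x176f), .r 2 (nat_lit 0x1770), .r 2 (nat_lit 0x1771), .r 2 (nat_lit 0x1772), .r 2 (nat_lit 0x1773), .r 2 (nat_lit 0x1779), .r 2 (nat_lit 0x1780), .r 2 (nat_lit 0x1787), .r 2 (nat_lit 0x178d), .r 2 (nat_lit 0x178e), .r 2 (nat_lit 0x178f), .r 2 (nat_lit 0x1796), .r 2 (nat_lit 0x1797), .r 2 (nat_lit 0x179d), .r 2 (nat_lit 0x179e), .r 2 (nat_lit 0x124b), .r 2 (nat_lit 0x124c), .r 2 (nat_lit 0x1830), .r 2 (nat_lit 0x1831), .r 2 (nat_lit 0x1832), .r 2 (nat_lit 0x136b), .r 2 (nat_lit 0x1833), .r 2 (nat_lit 0x1834), .r 2 (nat_lit 0x1835), .r 2 (nat_lit 0x138d), .r 2 (nat_lit 0x1836), .r 2 (nat_lit 0x1837), .r 2 (nat_lit 0x1838), .r 2 (nat_lit 0x1839), .r 2 (nat_lit 0x1461), .r 2 (nat_lit 0x183a),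 .r 2 (nat_lit 0x183b), .r 2 (nat_lit 0x183c), .r 2 (nat_lit 0x183d), .r 2 (nat_lit 0x183e), .r 2 (nat_lit 0x183f), .r 2 (nat_lit 0x1841), .r 2 (nat_lit 0x1842), .r 2 (nat_lit 0x130d), .r 2 (nat_lit 0x1843), .r 2 (nat_lit 0x1844), .r 2 (nat_lit 0x1845), .r 2 (nat_lit 0x1846), .r 2 (nat_lit 0x1847), .r 2 (nat_lit 0x1848), .r 2 (nat_lit 0x1849), .r 2 (nat_lit 0x184a), .r 2 (nat_lit 0x1573), .r 2 (nat_lit 0x184b), .r 2 (nat_lit 0x184c), .r 2 (nat_lit 0x184d), .r 2 (nat_lit 0x184e), .r 2 (nat_lit 0x184f), .r 2 (nat_lit 0x1850), .r 2 (nat_lit 0x1851), .r 2 (nat_lit 0x1852), .r 2 (nat_lit 0x1354), .r 2 (nat_lit 0x1853), .r 2 (nat_lit 0x1854), .r 2 (nat_lit 0x1855), .r 2 (nat_lit 0x1856), .r 2 (nat_lit 0x1857)] (by decide +kernel) (by decide +kernel)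
theorem b314 : B 20096 20160 := Blk.of_chk [.r 2 (nat_lit 0x1858), .r 2 (nat_lit 0x1859), .r 2 (nat_lit 0x185a), .r 2 (nat_lit 0x1301), .r 2 (nat_lit 0x185b), .r 2 (nat_lit 0x185c), .r 2 (nat_lit 4), .r 2 (nat_lit 0x126f), .r 2 (nat_lit 0x126f), .r 2 (nat_lit 0x185d), .r 2 (nat_lit 0x185e), .r 2 (nat_lit 0x185f), .r 2 (nat_lit 0x1860), .r 2 (nat_lit 0x1861), .r 2 (nat_lit 0x1862), .r 2 (nat_lit 0x1863), .r 2 (nat_lit 0x1864), .r 2 (nat_lit 0x1865), .r 2 (nat_lit 0x1866), .r 2 (nat_lit 0x1867), .r 2 (nat_lit 0x1868), .r 2 (nat_lit 0x1869), .r 2 (nat_lit 0x186a), .r 2 (nat_lit 0x186b), .r 2 (nat_lit 0x186c), .r 2 (nat_lit 0x186d), .r 2 (nat_lit 0x149f), .r 2 (nat_lit 0x186e), .r 2 (nat_lit 0x186f), .r 2 (nat_lit 0x1870), .r 2 (nat_lit 0x1871), .r 2 (nat_lit 0x1872), .r 2 (nat_lit 0x1873), .r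 2 (nat_lit 0x1874), .r 2 (nat_lit 0x1875), .r 2 (nat_lit 0x1876), .r 2 (nat_lit 0x1877), .r 2 (nat_lit 0x152e), .r 2 (nat_lit 0x1878), .r 2 (nat_lit 0x1879), .r 2 (nat_lit 0x1229), .r 2 (nat_lit 0x187a), .r 2 (nat_lit 0x187b), .r 2 (nat_lit 0x187c), .r 2 (nat_lit 0x187d), .r 2 (nat_lit 0x187e), .r 2 (nat_lit 0x187f), .r 2 (nat_lit 0x1880), .r 2 (nat_lit 0x1881), .r 2 (nat_lit 0x1882), .r 2 (nat_lit 0x1883), .r 2 (nat_lit 0x1884), .r 2 (nat_lit 0x1885), .r 2 (nat_lit 0x1886), .r 2 (nat_lit 0x1887), .r 2 (nat_lit 0x1888), .r 2 (nat_lit 0x1889), .r 2 (nat_lit 0x188a), .r 2 (nat_lit 0x188b), .r 2 (nat_lit 0x188c), .r 2 (nat_lit 0x188d), .r 2 (nat_lit 0x188e), .r 2 (nat_lit 0x188f), .r 2 (nat_lit 0x1890)] (by decide +kernel) (by decide +kernel)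
theorem b315 : B 20160 20224 := Blk.of_chk [.r 2 (nat_lit 0x1891), .r 2 (nat_lit 0x1892), .r 2 (nat_lit 0x1893), .r 2 (nat_lit 0x1894), .r 2 (nat_lit 0x1895), .r 2 (nat_lit 0x1896), .r 2 (nat_lit 0x1897), .r 2 (nat_lit 0x1898), .r 2 (nat_lit 0x1899), .r 2 (nat_lit 0x189a), .r 2 (nat_lit 0x189b), .r 2 (nat_lit 0x189c), .r 2 (nat_lit 0x189d), .r 2 (nat_lit 0x189e), .r 2 (nat_lit 0x189f), .r 2 (nat_lit 0x18a0), .r 2 (nat_lit 0x18a1), .r 2 (nat_lit 0x18a2), .r 2 (nat_lit 0x18a3), .r 2 (nat_lit 0x18a4), .r 2 (nat_lit 0x18a5), .r 2 (nat_lit 0x18a6), .r 2 (nat_lit 0x18a7), .r 2 (nat_lit 0x18a8), .r 2 (nat_lit 0x18a9), .r 2 (nat_lit 0x18aa), .r 2 (nat_lit 0x18ab), .r 2 (nat_lit 0x18ac), .r 2 (nat_lit 0x18ad), .r 2 (nat_lit 0x18ae), .r 2 (nat_lit 0x18af), .r 2 (nat_lit 0x18b0), .r 2 (nat_lit 0x18b1),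 .r 2 (nat_lit 0x18b2), .r 2 (nat_lit 0x18b3), .r 2 (nat_lit 0x18b4), .r 2 (nat_lit 0x18b5), .r 2 (nat_lit 0x18b6), .r 2 (nat_lit 0x18b7), .r 2 (nat_lit 0x18b8), .r 2 (nat_lit 0x18b9), .r 2 (nat_lit 0x18ba), .r 2 (nat_lit 0x18bb), .r 2 (nat_lit 0x18bc), .r 2 (nat_lit 0x18bd), .r 2 (nat_lit 0x18be), .r 2 (nat_lit 0x18bf), .r 2 (nat_lit 0x18c0), .r 2 (nat_lit 0x18c1), .r 2 (nat_lit 0x18c2), .r 2 (nat_lit 0x18c3), .r 2 (nat_lit 0x18c4), .r 2 (nat_lit 0x18c5), .r 2 (nat_lit 0x18c6), .r 2 (nat_lit 0x18c7), .r 2 (nat_lit 0x18c8), .r 2 (nat_lit 0x18c9), .r 2 (nat_lit 0x18ca), .r 2 (nat_lit 0x18cb), .r 2 (nat_lit 0x18cc), .r 2 (nat_lit 0x18cd), .r 2 (nat_lit 0x18ce), .r 2 (nat_lit 0x18cf), .r 2 (nat_lit 0x18d0)] (by decide +kernel) (by decide +kernel)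
theorem b316 : B 20224 20288 := Blk.of_chk [.r 2 (nat_lit 0x18d1), .r 2 (nat_lit 0x18d2), .r 2 (nat_lit 0x18d3), .r 2 (nat_lit 0x18d4), .r 2 (nat_lit 0x18d5), .r 2 (nat_lit 0x18d6), .r 2 (nat_lit 0x18d7), .r 2 (nat_lit 0x18d8), .r 2 (nat_lit 0x18d9), .r 2 (nat_lit 0x18da), .r 2 (nat_lit 0x18db), .r 2 (nat_lit 0x18dc), .r 2 (nat_lit 0x18dd), .r 2 (nat_lit 0x18de), .r 2 (nat_lit 0x18df), .r 2 (nat_lit 0x18e0), .r 2 (nat_lit 0x18e1), .r 2 (nat_lit 0x18e2), .r 2 (nat_lit 0x18e3), .r 2 (nat_lit 0x18e4), .r 2 (nat_lit 0x18e5), .r 2 (nat_lit 0x18e6), .r 2 (nat_lit 0x18e7), .r 2 (nat_lit 0x18e8), .r 2 (nat_lit 0x18e9), .r 2 (nat_lit 0x18ea), .r 2 (nat_lit 0x18eb), .r 2 (nat_lit 0x18ec), .r 2 (nat_lit 0x18ed), .r 2 (nat_lit 0x18ee), .r 2 (nat_lit 0x18ef), .r 2 (nat_lit 0x18f0), .r 2 (nat_lit 0x18f1),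 .r 2 (nat_lit 0x18f2), .r 2 (nat_lit 0x18f3), .r 2 (nat_lit 0x18f4), .r 2 (nat_lit 0x18f5), .r 2 (nat_lit 0x18f6), .r 2 (nat_lit 0x18f7), .r 2 (nat_lit 0x18f8), .r 2 (nat_lit 0x18f9), .r 2 (nat_lit 0x18fa), .r 2 (nat_lit 0x18fb), .r 2 (nat_lit 0x18fc), .r 2 (nat_lit 0x18fd), .r 2 (nat_lit 0x18fe), .r 2 (nat_lit 0x18ff), .r 2 (nat_lit 0x1900), .r 2 (nat_lit 0x1901), .r 2 (nat_lit 0x1902), .r 2 (nat_lit 0x1903), .r 2 (nat_lit 0x1904), .r 2 (nat_lit 0x1905), .r 2 (nat_lit 0x1906), .r 2 (nat_lit 0x1915), .r 2 (nat_lit 0x191a), .r 2 (nat_lit 0x191f), .r 2 (nat_lit 0x1925), .r 2 (nat_lit 0x19db), .r 2 (nat_lit 0x19dc), .r 2 (nat_lit 0x19dd), .r 2 (nat_lit 0x19de), .r 2 (nat_lit 0x19df), .r 2 (nat_lit 0x19e0)] (by decide +kernel) (by decide +kernel)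
theorem b317 : B 20288 20352 := Blk.of_chk [.r 2 (nat_lit 0x19e1), .r 2 (nat_lit 0x19e2), .r 2 (nat_lit 0x19e3), .r 2 (nat_lit 0x19e4), .r 2 (nat_lit 0x19e5), .r 2 (nat_lit 0x19e6), .r 2 (nat_lit 0x19e7), .r 2 (nat_lit 0x19e8), .r 2 (nat_lit 0x19e9), .r 2 (nat_lit 0x19eb), .r 2 (nat_lit 0x19ec), .r 2 (nat_lit 0x19ed), .r 2 (nat_lit 0x19ee), .r 2 (nat_lit 0x19ef), .r 2 (nat_lit 0x19f0), .r 2 (nat_lit 0x19f2), .r 2 (nat_lit 0x19f3), .r 2 (nat_lit 0x19f4), .r 2 (nat_lit 0x19f5), .r 2 (nat_lit 0x19f6), .r 2 (nat_lit 0x19f7), .r 2 (nat_lit 0x19f9), .r 2 (nat_lit 0x19fa), .r 2 (nat_lit 0x19fb), .r 2 (nat_lit 0x19fc), .r 2 (nat_lit 0x19fd), .r 2 (nat_lit 0x19fe), .r 2 (nat_lit 0x1a00), .r 2 (nat_lit 0x1a01), .r 2 (nat_lit 0x1a02), .r 2 (nat_lit 0x1a03), .r 2 (nat_lit 0x1a04), .r 2 (nat_lit 0x1a05),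 .r 2 (nat_lit 0x1a06), .r 2 (nat_lit 0x1a07), .r 2 (nat_lit 0x1a08), .r 2 (nat_lit 0x1a09), .r 2 (nat_lit 0x1a0a), .r 2 (nat_lit 0x1a0b), .r 2 (nat_lit 0x1a0c), .r 2 (nat_lit 0x1a0d), .r 2 (nat_lit 0x1a0e), .r 2 (nat_lit 0x1a0f), .r 2 (nat_lit 0x1a10), .r 2 (nat_lit 0x1a11), .r 2 (nat_lit 0x1a12), .r 2 (nat_lit 0x1a13), .r 2 (nat_lit 0x1a14), .r 2 (nat_lit 0x1a15), .r 2 (nat_lit 0x1a17), .r 2 (nat_lit 0x1a18), .r 2 (nat_lit 0x1a19), .r 2 (nat_lit 0x1a1a), .r 2 (nat_lit 0x1a1b), .r 2 (nat_lit 0x1a1d), .r 2 (nat_lit 0x1a1e), .r 2 (nat_lit 0x1a1f), .r 2 (nat_lit 0x1a20), .r 2 (nat_lit 0x1a21), .r 2 (nat_lit 0x1a23), .r 2 (nat_lit 0x1a24), .r 2 (nat_lit 0x1a25), .r 2 (nat_lit 0x1a26), .r 2 (nat_lit 0x1a27)] (by decide +kernel) (by decide +kernel)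
theorem b318 : B 20352 20416 := Blk.of_chk [.r 2 (nat_lit 0x1a28), .r 2 (nat_lit 0x1a29), .r 2 (nat_lit 0x1a2a), .r 2 (nat_lit 0x1a2b), .r 2 (nat_lit 0x1a2c), .r 2 (nat_lit 0x1a2d), .r 2 (nat_lit 0x1a2e), .r 2 (nat_lit 0x1a2f), .r 2 (nat_lit 0x1a30), .r 2 (nat_lit 0x1a31), .r 2 (nat_lit 0x1a32), .r 2 (nat_lit 0x1a33), .r 2 (nat_lit 0x1a34), .r 2 (nat_lit 0x1a35), .r 2 (nat_lit 0x1a36), .r 2 (nat_lit 0x1a37), .r 2 (nat_lit 0x1a38), .r 2 (nat_lit 0x1a39), .r 2 (nat_lit 0x1a3a), .r 2 (nat_lit 0x1a3c), .r 2 (nat_lit 0x1a3d), .r 2 (nat_lit 0x1a3e), .r 2 (nat_lit 0x1a3f), .r 2 (nat_lit 0x1a40), .r 2 (nat_lit 0x1a41), .r 2 (nat_lit 0x1a42), .r 2 (nat_lit 0x1a43), .r 2 (nat_lit 0x1a44), .r 2 (nat_lit 0x1a45), .r 2 (nat_lit 0x1a46), .r 2 (nat_lit 0x1a47), .r 2 (nat_lit 0x1a48), .r 2 (nat_lit 0x1a49),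 .r 2 (nat_lit 0x1a4a), .r 2 (nat_lit 0x1a4b), .r 2 (nat_lit 0x1a4c), .r 2 (nat_lit 0x1a4d), .r 2 (nat_lit 0x1a4e), .r 2 (nat_lit 0x1a4f), .r 2 (nat_lit 0x1a50), .r 2 (nat_lit 0x1a51), .r 2 (nat_lit 0x1a52), .r 2 (nat_lit 0x1a53), .r 2 (nat_lit 0x1a54), .r 2 (nat_lit 0x1a55), .r 2 (nat_lit 0x1a56), .r 2 (nat_lit 0x1a57), .r 2 (nat_lit 0x1a58), .r 2 (nat_lit 0x1a59), .r 2 (nat_lit 0x1a5a), .r 2 (nat_lit 0x1a5b), .r 2 (nat_lit 0x1a5c), .r 2 (nat_lit 0x1a5d), .r 2 (nat_lit 0x1a5f), .r 2 (nat_lit 0x1a60), .r 2 (nat_lit 0x1a61), .r 2 (nat_lit 0x1a62), .r 2 (nat_lit 0x1a63), .r 2 (nat_lit 0x1a64), .r 2 (nat_lit 0x1a65), .r 2 (nat_lit 0x1a66), .r 2 (nat_lit 0x1a67), .r 2 (nat_lit 0x1a68), .r 2 (nat_lit 0x1a6b)] (by decide +kernel) (by decide +kernel)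
theorem b319 : B 20416 20480 := Blk.of_chk [.r 2 (nat_lit 0x1a6c), .r 2 (nat_lit 0x1a6d), .r 2 (nat_lit 0x1a6e), .r 2 (nat_lit 0x1a6f), .r 2 (nat_lit 0x1a70), .r 2 (nat_lit 0x1a71), .r 2 (nat_lit 0x1a72), .r 2 (nat_lit 0x1a73), .r 2 (nat_lit 0x1a74), .r 2 (nat_lit 0x1a75), .r 2 (nat_lit 0x1a76), .r 2 (nat_lit 0x1a77), .r 2 (nat_lit 0x1a78), .r 2 (nat_lit 0x1a79), .r 2 (nat_lit 0x1a7a), .r 2 (nat_lit 0x1a7b), .r 2 (nat_lit 0x1a7c), .r 2 (nat_lit 0x1a7d), .r 2 (nat_lit 0x1a7e), .r 2 (nat_lit 0x1a80), .r 2 (nat_lit 0x1a81), .r 2 (nat_lit 0x1a82), .r 2 (nat_lit 0x1a83), .r 2 (nat_lit 0x1a84), .r 2 (nat_lit 0x1a85), .r 2 (nat_lit 0x1a86), .r 2 (nat_lit 0x1a87), .r 2 (nat_lit 0x1a88), .r 2 (nat_lit 0x1a89), .r 2 (nat_lit 0x1a8a), .r 2 (nat_lit 0x1a8b), .r 2 (nat_lit 0x1a8c), .r 2 (nat_lit 0x1a8d),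 .r 2 (nat_lit 0x1a8e), .r 2 (nat_lit 0x1a8f), .r 2 (nat_lit 0x1a90), .r 2 (nat_lit 0x1a91), .r 2 (nat_lit 0x1a92), .r 2 (nat_lit 0x1a93), .r 2 (nat_lit 0x1a94), .r 2 (nat_lit 0x1a95), .r 2 (nat_lit 0x1a96), .r 2 (nat_lit 0x1a97), .r 2 (nat_lit 0x1a98), .r 2 (nat_lit 0x1a9a), .r 2 (nat_lit 0x1a9b), .r 2 (nat_lit 0x1a9c), .r 2 (nat_lit 0x1a9d), .r 2 (nat_lit 0x1a9e), .r 2 (nat_lit 0x1a9f), .r 2 (nat_lit 0x1aa0), .r 2 (nat_lit 0x1aa1), .r 2 (nat_lit 0x1aa3), .r 2 (nat_lit 0x1aa4), .r 2 (nat_lit 0x1aa5), .r 2 (nat_lit 0x1aaf), .r 2 (nat_lit 0x1ab6), .r 2 (nat_lit 0x1ab7), .r 2 (nat_lit 0x1ab8), .r 2 (nat_lit 0x1abe), .r 2 (nat_lit 0x1abf), .r 2 (nat_lit 0x1ac0), .r 2 (nat_lit 0x1ac1), .r 2 (nat_lit 0x1ac8)] (by decide +kernel) (by decide +kernel)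
theorem b320 : B 20480 20544 := Blk.of_chk [.r 2 (nat_lit 0x1ac9), .r 2 (nat_lit 0x1aca), .r 2 (nat_lit 0x1ad1), .r 2 (nat_lit 0x1ad2), .r 2 (nat_lit 0x1ad3), .r 2 (nat_lit 0x1bbd), .r 2 (nat_lit 0x1bbe), .r 2 (nat_lit 0x1bbf), .r 2 (nat_lit 0x1bc0), .r 2 (nat_lit 0x1bc1), .r 2 (nat_lit 0x1bc2), .r 2 (nat_lit 0x1bc3), .r 2 (nat_lit 0x1bc8), .r 2 (nat_lit 0x1bc8), .r 2 (nat_lit 0x1bc9), .r 2 (nat_lit 0x1bca), .r 2 (nat_lit 0x1be4), .r 2 (nat_lit 0x1beb), .r 2 (nat_lit 0x1bec), .r 2 (nat_lit 0x1bed), .r 2 (nat_lit 0x1bee), .r 2 (nat_lit 0x1bef), .r 2 (nat_lit 0x1bf0), .r 2 (nat_lit 0x1bf1), .r 2 (nat_lit 0x1bf2), .r 2 (nat_lit 0x1bf3), .r 2 (nat_lit 0x1bf4), .r 2 (nat_lit 0x1bf5), .r 2 (nat_lit 0x1bf6), .r 2 (nat_lit 0x1bf7), .r 2 (nat_lit 0x1bf8), .r 2 (nat_lit 0x1bf9), .r 2 (nat_lit 0x1bfa),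 .r 2 (nat_lit 0x1bfb), .r 2 (nat_lit 0x1bfc), .r 2 (nat_lit 0x1bfd), .r 2 (nat_lit 0x1bfe), .r 2 (nat_lit 0x1bff), .r 2 (nat_lit 0x1c00), .r 2 (nat_lit 0x1c01), .r 2 (nat_lit 0x1c02), .r 2 (nat_lit 0x1c03), .r 2 (nat_lit 0x1c04), .r 2 (nat_lit 0x1c05), .r 2 (nat_lit 0x1c06), .r 2 (nat_lit 0x1c07), .r 2 (nat_lit 0x1c08), .r 2 (nat_lit 0x1c09), .r 2 (nat_lit 0x1c0a), .r 2 (nat_lit 0x1c0b), .r 2 (nat_lit 0x1c0c), .r 2 (nat_lit 0x1c0d), .r 2 (nat_lit 0x1c0e), .r 2 (nat_lit 0x1c0f), .r 2 (nat_lit 0x1c10), .r 2 (nat_lit 0x1c11), .r 2 (nat_lit 0x1c12), .r 2 (nat_lit 0x1c13), .r 2 (nat_lit 0x1c14), .r 2 (nat_lit 0x1c15), .r 2 (nat_lit 0x1c16), .r 2 (nat_lit 0x1c17), .r 2 (nat_lit 0x1c18), .r 2 (nat_lit 0x1c19)] (by decide +kernel) (by decide +kernel)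
theorem b321 : B 20544 20608 := Blk.of_chk [.r 2 (nat_lit 0x1c1a), .r 2 (nat_lit 0x1c1b), .r 2 (nat_lit 0x1c1c), .r 2 (nat_lit 0x1c26), .r 2 (nat_lit 0x1c2c), .r 2 (nat_lit 0x1c36), .r 2 (nat_lit 0x1c3b), .r 2 (nat_lit 0x1cae), .r 2 (nat_lit 0x1caf), .r 2 (nat_lit 0x1cc7), .r 2 (nat_lit 0x1ccc), .r 2 (nat_lit 0x1ccd), .r 2 (nat_lit 0x1cce), .r 2 (nat_lit 0x1ccf), .r 2 (nat_lit 0x1cd0), .r 2 (nat_lit 0x1cd1), .r 2 (nat_lit 0x1cd2), .r 2 (nat_lit 0x1cd3), .r 2 (nat_lit 0x1cd4), .r 2 (nat_lit 0x1cd5), .r 2 (nat_lit 0x1cd6), .r 2 (nat_lit 0x1cd7), .r 2 (nat_lit 0x1cd8), .r 2 (nat_lit 0x1cd9), .r 2 (nat_lit 0x1cda), .r 2 (nat_lit 0x1cdb), .r 2 (nat_lit 0x1cdc), .r 2 (nat_lit 0x1cdd), .r 2 (nat_lit 0x1cde), .r 2 (nat_lit 0x1cdf), .r 2 (nat_lit 0x1ce0), .r 2 (nat_lit 0x1ce1), .r 2 (nat_lit 0x1ce2),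 .r 2 (nat_lit 0x1ce3), .r 2 (nat_lit 0x1ce4), .r 2 (nat_lit 0x1ce5), .r 2 (nat_lit 0x1ce6), .r 2 (nat_lit 0x1ce7), .r 2 (nat_lit 0x1ce8), .r 2 (nat_lit 0x1ce9), .r 2 (nat_lit 0x1cea), .r 2 (nat_lit 0x1ceb), .r 2 (nat_lit 0x1cec), .r 2 (nat_lit 0x1ced), .r 2 (nat_lit 0x1cee), .r 2 (nat_lit 0x1cef), .r 2 (nat_lit 0x1cf0), .r 2 (nat_lit 0x1cf1), .r 2 (nat_lit 0x1cf2), .r 2 (nat_lit 0x1cf3), .r 2 (nat_lit 0x1cf4), .r 2 (nat_lit 0x1cf5), .r 2 (nat_lit 0x1cf6), .r 2 (nat_lit 0x1cf7), .r 2 (nat_lit 0x1cf8), .r 2 (nat_lit 0x1cf9), .r 2 (nat_lit 0x1cfa), .r 2 (nat_lit 0x1cfb), .r 2 (nat_lit 0x1d04), .r 2 (nat_lit 0x1d0f), .r 2 (nat_lit 0x1d18), .r 2 (nat_lit 0x1d88), .r 2 (nat_lit 0x1d89), .r 2 (nat_lit 0x1d8a)] (by decide +kernel) (by decide +kernel)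
theorem b322 : B 20608 20672 := Blk.of_chk [.r 2 (nat_lit 0x1d8b), .r 2 (nat_lit 0x1d8c), .r 2 (nat_lit 0x1d8d), .r 2 (nat_lit 0x1d8e), .r 2 (nat_lit 0x1d8f), .r 2 (nat_lit 0x1d90), .r 2 (nat_lit 0x1d91), .r 2 (nat_lit 0x1d92), .r 2 (nat_lit 0x1d93), .r 2 (nat_lit 0x1d94), .r 2 (nat_lit 0x1d95), .r 2 (nat_lit 0x1d96), .r 2 (nat_lit 0x1d97), .r 2 (nat_lit 0x1d98), .r 2 (nat_lit 0x1d99), .r 2 (nat_lit 0x1d9a), .r 2 (nat_lit 0x1d9b), .r 2 (nat_lit 0x1d9c), .r 2 (nat_lit 0x1d9d), .r 2 (nat_lit 0x1d9e), .r 2 (nat_lit 0x1d9f), .r 2 (nat_lit 0x1da0), .r 2 (nat_lit 0x1da1), .r 2 (nat_lit 0x1da2), .r 2 (nat_lit 0x1da3), .r 2 (nat_lit 0x1da4), .r 2 (nat_lit 0x1da5), .r 2 (nat_lit 0x1da6), .r 2 (nat_lit 0x1da7), .r 2 (nat_lit 0x1da8), .r 2 (nat_lit 0x1da9), .r 2 (nat_lit 0x1daa), .r 2 (nat_lit 0x1dab),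 .r 2 (nat_lit 0x1dac), .r 2 (nat_lit 0x1dad), .r 2 (nat_lit 0x1dae), .r 2 (nat_lit 0x1daf), .r 2 (nat_lit 0x1db0), .r 2 (nat_lit 0x1db1), .r 2 (nat_lit 0x1db2), .r 2 (nat_lit 0x1db3), .r 2 (nat_lit 0x1db4), .r 2 (nat_lit 0x1db5), .r 2 (nat_lit 0x1db6), .r 2 (nat_lit 0x1db7), .r 2 (nat_lit 0x1db8), .r 2 (nat_lit 0x1db9), .r 2 (nat_lit 0x1dba), .r 2 (nat_lit 0x1dbb), .r 2 (nat_lit 0x1dbc), .r 2 (nat_lit 0x1dbd), .r 2 (nat_lit 0x1dbe), .r 2 (nat_lit 0x1dbf), .r 2 (nat_lit 0x1dc0), .r 2 (nat_lit 0x1dc1), .r 2 (nat_lit 0x1dc2), .r 2 (nat_lit 0x1dc3), .r 2 (nat_lit 0x1dc4), .r 2 (nat_lit 0x1dc5), .r 2 (nat_lit 0x1dc6), .r 2 (nat_lit 0x1dc7), .r 2 (nat_lit 0x1dc8), .r 2 (nat_lit 0x1dc9), .r 2 (nat_lit 0x1dd0)] (by decide +kernel) (by decide +kernel)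
theorem b323 : B 20672 20736 := Blk.of_chk [.r 2 (nat_lit 0x1dd7), .r 2 (nat_lit 0x1ddc), .r 2 (nat_lit 0x1de0), .r 2 (nat_lit 0x1de5), .r 2 (nat_lit 0x1e56), .r 2 (nat_lit 0x1e57), .r 2 (nat_lit 0x1e58), .r 2 (nat_lit 0x1e59), .r 2 (nat_lit 0x1e5a), .r 2 (nat_lit 0x1e5b), .r 2 (nat_lit 0x1e5c), .r 2 (nat_lit 0x1e5d), .r 2 (nat_lit 0x1e5e), .r 2 (nat_lit 0x1e5f), .r 2 (nat_lit 0x1e60), .r 2 (nat_lit 0x1e61), .r 2 (nat_lit 0x1e62), .r 2 (nat_lit 0x1e63), .r 2 (nat_lit 0x1e64), .r 2 (nat_lit 0x1e65), .r 2 (nat_lit 0x1e66), .r 2 (nat_lit 0x1e67), .r 2 (nat_lit 0x1e68), .r 2 (nat_lit 0x1e69), .r 2 (nat_lit 0x1e6a), .r 2 (nat_lit 0x1e6b), .r 2 (nat_lit 0x1e6c), .r 2 (nat_lit 0x1e6d), .r 2 (nat_lit 0x1e6e), .r 2 (nat_lit 0x1e6f), .r 2 (nat_lit 0x1e70), .r 2 (nat_lit 0x1e71), .r 2 (nat_lit 0x1e72),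 .r 2 (nat_lit 0x1e73), .r 2 (nat_lit 0x1e74), .r 2 (nat_lit 0x1e75), .r 2 (nat_lit 0x1e76), .r 2 (nat_lit 0x1e77), .r 2 (nat_lit 0x1e78), .r 2 (nat_lit 0x1e79), .r 2 (nat_lit 0x1e7a), .r 2 (nat_lit 0x1e7b), .r 2 (nat_lit 0x1e7c), .r 2 (nat_lit 0x1e7d), .r 2 (nat_lit 0x1e7e), .r 2 (nat_lit 0x1e7f), .r 2 (nat_lit 0x1e80), .r 2 (nat_lit 0x1e81), .r 2 (nat_lit 0x1e82), .r 2 (nat_lit 0x1e83), .r 2 (nat_lit 0x1e8c), .r 2 (nat_lit 0x1e97), .r 2 (nat_lit 0x1e9b), .r 2 (nat_lit 0x1ea0), .r 2 (nat_lit 0x1f0f), .r 2 (nat_lit 0x1f10), .r 2 (nat_lit 0x1f11), .r 2 (nat_lit 0x1f12), .r 2 (nat_lit 0x1f13), .r 2 (nat_lit 0x1f14), .r 2 (nat_lit 0x1f15), .r 2 (nat_lit 0x1f16), .r 2 (nat_lit 0x1f17), .r 2 (nat_lit 0x1f1a)] (by decide +kernel) (by decide +kernel)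
theorem b324 : B 20736 20800 := Blk.of_chk [.r 2 (nat_lit 0x1f1b), .r 2 (nat_lit 0x1f1c), .r 2 (nat_lit 0x1f1d), .r 2 (nat_lit 0x1f1e), .r 2 (nat_lit 0x1f1f), .r 2 (nat_lit 0x1f20), .r 2 (nat_lit 0x1f21), .r 2 (nat_lit 0x1f22), .r 2 (nat_lit 0x1f23), .r 2 (nat_lit 0x1f24), .r 2 (nat_lit 0x1f25), .r 2 (nat_lit 0x1f26), .r 2 (nat_lit 0x1f27), .r 2 (nat_lit 0x1f28), .r 2 (nat_lit 0x1f29), .r 2 (nat_lit 0x1f2a), .r 2 (nat_lit 0x1f2b), .r 2 (nat_lit 0x1f2c), .r 2 (nat_lit 0x1f2d), .r 2 (nat_lit 0x1f2e), .r 2 (nat_lit 0x1f30), .r 2 (nat_lit 0x1f31), .r 2 (nat_lit 0x1f32), .r 2 (nat_lit 0x1f33), .r 2 (nat_lit 0x1f34), .r 2 (nat_lit 0x1f35), .r 2 (nat_lit 0x1f36), .r 2 (nat_lit 0x1f39), .r 2 (nat_lit 0x1f3a), .r 2 (nat_lit 0x1f40), .r 2 (nat_lit 0x1f46), .r 2 (nat_lit 0x1f4d), .r 2 (nat_lit 0x1f4e),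 .r 2 (nat_lit 0x1f55), .r 2 (nat_lit 0x1f56), .r 2 (nat_lit 0x1f5d), .r 2 (nat_lit 0x1f5e), .r 2 (nat_lit 0x1f64), .r 2 (nat_lit 0x1f65), .r 2 (nat_lit 0x1f66), .r 2 (nat_lit 0x201b), .r 2 (nat_lit 0x2021), .r 2 (nat_lit 0x2028), .r 2 (nat_lit 0x2029), .r 2 (nat_lit 0x202f), .r 2 (nat_lit 0x2034), .r 2 (nat_lit 0x1242), .r 2 (nat_lit 0x20e9), .r 2 (nat_lit 0x20f2), .r 2 (nat_lit 0x20f9), .r 2 (nat_lit 0x210b), .r 2 (nat_lit 0x2115), .r 2 (nat_lit 0x214b), .r 2 (nat_lit 0x135f), .r 2 (nat_lit 0x1361), .r 2 (nat_lit 0x2298), .r 2 (nat_lit 0x137a), .r 2 (nat_lit 0x2299), .r 2 (nat_lit 0x229a), .r 2 (nat_lit 0x1529), .r 2 (nat_lit 0x229b), .r 2 (nat_lit 0x229c), .r 2 (nat_lit 0x229e), .r 2 (nat_lit 0x229f)] (by decide +kernel) (by decide +kernel)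
theorem b325 : B 20800 20864 := Blk.of_chk [.r 2 (nat_lit 0x22a0), .r 2 (nat_lit 0x22a1), .r 2 (nat_lit 0x22a2), .r 2 (nat_lit 0x22a3), .r 2 (nat_lit 0x22a4), .r 2 (nat_lit 0x1291), .r 2 (nat_lit 0x22a5), .r 2 (nat_lit 0x22a6), .r 2 (nat_lit 0x22a7), .r 2 (nat_lit 0x22a8), .r 2 (nat_lit 0x14b4), .r 2 (nat_lit 0x22aa), .r 2 (nat_lit 0x1413), .r 2 (nat_lit 0x22ac), .r 2 (nat_lit 0x22ad), .r 2 (nat_lit 0x11f4), .r 2 (nat_lit 0x166a), .r 2 (nat_lit 0x166a), .r 2 (nat_lit 0x14ba), .r 2 (nat_lit 0x22ae), .r 2 (nat_lit 0x22af), .r 2 (nat_lit 0x22b0), .r 2 (nat_lit 0x15ea), .r 2 (nat_lit 0x22b2), .r 2 (nat_lit 0x12e7), .r 2 (nat_lit 0x22b3), .r 2 (nat_lit 0x13dc), .r 2 (nat_lit 0x22b5), .r 2 (nat_lit 0x22b6), .r 2 (nat_lit 0x22b7), .r 2 (nat_lit 0x22b8), .r 2 (nat_lit 0x22b9), .r 2 (nat_lit 0x22ba),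 .r 2 (nat_lit 0x22bb), .r 2 (nat_lit 0x22bc), .r 2 (nat_lit 0x22bd), .r 2 (nat_lit 0x22be), .r 2 (nat_lit 0x1358), .r 2 (nat_lit 0x22c0), .r 2 (nat_lit 0x22c1), .r 2 (nat_lit 0x22c2), .r 2 (nat_lit 0x22c3), .r 2 (nat_lit 0x22c4), .r 2 (nat_lit 0x22c5), .r 2 (nat_lit 0x22c6), .r 2 (nat_lit 0x22c7), .r 2 (nat_lit 0x22c8), .r 2 (nat_lit 0x22c9), .r 2 (nat_lit 0x22ca), .r 2 (nat_lit 0x22cb), .r 2 (nat_lit 0x22cc), .r 2 (nat_lit 0x22cd), .r 2 (nat_lit 0x22ce), .r 2 (nat_lit 0x22cf), .r 2 (nat_lit 0x22d0), .r 2 (nat_lit 0x22d1), .r 2 (nat_lit 0x22d3), .r 2 (nat_lit 0x22d4), .r 2 (nat_lit 0x22d5), .r 2 (nat_lit 0x22d6), .r 2 (nat_lit 0x22d7), .r 2 (nat_lit 0x1579), .r 2 (nat_lit 0x22d8), .r 2 (nat_lit 0x22d9)] (by decide +kernel) (by decide +kernel)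
theorem b326 : B 20864 20928 := Blk.of_chk [.r 2 (nat_lit 0x22da), .r 2 (nat_lit 0x22db), .r 2 (nat_lit 0x22dc), .r 2 (nat_lit 0x22dd), .r 2 (nat_lit 0x22de), .r 2 (nat_lit 0x22df), .r 2 (nat_lit 0x22e0), .r 2 (nat_lit 0x22e1), .r 2 (nat_lit 0x22e2), .r 2 (nat_lit 0x22e3), .r 2 (nat_lit 0x22e4), .r 2 (nat_lit 0x22e6), .r 2 (nat_lit 0x22e7), .r 2 (nat_lit 0x22e8), .r 2 (nat_lit 0x22e9), .r 2 (nat_lit 0x22ea), .r 2 (nat_lit 0x22eb), .r 2 (nat_lit 0x22ec), .r 2 (nat_lit 0x22ed), .r 2 (nat_lit 0x22ee), .r 2 (nat_lit 0x22f0), .r 2 (nat_lit 0x22f1), .r 2 (nat_lit 0x22f2), .r 2 (nat_lit 0x22f3), .r 2 (nat_lit 0x22f4), .r 2 (nat_lit 0x22f5), .r 2 (nat_lit 0x2300), .r 2 (nat_lit 0x2304), .r 2 (nat_lit 0x2305), .r 2 (nat_lit 0x2308), .r 2 (nat_lit 0x2309), .r 2 (nat_lit 0x230e), .r 2 (nat_lit 0x11fd),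 .r 2 (nat_lit 0x14c9), .r 2 (nat_lit 0x236b), .r 2 (nat_lit 0x14bb), .r 2 (nat_lit 0x236c), .r 2 (nat_lit 0x236d), .r 2 (nat_lit 0x236e), .r 2 (nat_lit 0x236f), .r 2 (nat_lit 0x2371), .r 2 (nat_lit 0x2372), .r 2 (nat_lit 0x2373), .r 2 (nat_lit 0x2374), .r 2 (nat_lit 0x2376), .r 2 (nat_lit 0x2377), .r 2 (nat_lit 0x2378), .r 2 (nat_lit 0x2379), .r 2 (nat_lit 0x237a), .r 2 (nat_lit 0x237b), .r 2 (nat_lit 0x237c), .r 2 (nat_lit 0x237d), .r 2 (nat_lit 0x237e), .r 2 (nat_lit 0x237f), .r 2 (nat_lit 0x2380), .r 2 (nat_lit 0x2381), .r 2 (nat_lit 0x2382), .r 2 (nat_lit 0x2383), .r 2 (nat_lit 0x2384), .r 2 (nat_lit 0x2385), .r 2 (nat_lit 0x2386), .r 2 (nat_lit 0x2387), .r 2 (nat_lit 0x2388), .r 2 (nat_lit 0x2389)] (by decide +kernel) (by decide +kernel)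
theorem b327 : B 20928 20992 := Blk.of_chk [.r 2 (nat_lit 0x238a), .r 2 (nat_lit 0x238b), .r 2 (nat_lit 0x238c), .r 2 (nat_lit 0x238d), .r 2 (nat_lit 0x238e), .r 2 (nat_lit 0x238f), .r 2 (nat_lit 0x2390), .r 2 (nat_lit 0x2391), .r 2 (nat_lit 0x2392), .r 2 (nat_lit 0x2393), .r 2 (nat_lit 0x2394), .r 2 (nat_lit 0x2396), .r 2 (nat_lit 0x2397), .r 2 (nat_lit 0x2398), .r 2 (nat_lit 0x2399), .r 2 (nat_lit 0x239a), .r 2 (nat_lit 0x239b), .r 2 (nat_lit 0x239c), .r 2 (nat_lit 0x239d), .r 2 (nat_lit 0x239e), .r 2 (nat_lit 0x239f), .r 2 (nat_lit 0x23a0), .r 2 (nat_lit 0x23a1), .r 2 (nat_lit 0x23a2), .r 2 (nat_lit 0x23a3), .r 2 (nat_lit 0x23a4), .r 2 (nat_lit 0x23a5), .r 2 (nat_lit 0x23a6), .r 2 (nat_lit 0x23a7), .r 2 (nat_lit 0x23a8), .r 2 (nat_lit 0x23a9), .r 2 (nat_lit 0x23aa), .r 2 (nat_lit 0x23ab),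 .r 2 (nat_lit 0x23ad), .r 2 (nat_lit 0x23af), .r 2 (nat_lit 0x23b0), .r 2 (nat_lit 0x23b1), .r 2 (nat_lit 0x23b2), .r 2 (nat_lit 0x23b3), .r 2 (nat_lit 0x23b4), .r 2 (nat_lit 0x23b5), .r 2 (nat_lit 0x23b6), .r 2 (nat_lit 0x23b7), .r 2 (nat_lit 0x23b8), .r 2 (nat_lit 0x23b9), .r 2 (nat_lit 0x23ba), .r 2 (nat_lit 0x23bb), .r 2 (nat_lit 0x23bc), .r 2 (nat_lit 0x23bd), .r 2 (nat_lit 0x23be), .r 2 (nat_lit 0x23bf), .r 2 (nat_lit 0x23c0), .r 2 (nat_lit 0x23c1), .r 2 (nat_lit 0x23c2), .r 2 (nat_lit 0x23c3), .r 2 (nat_lit 0x23c4), .r 2 (nat_lit 0x23c5), .r 2 (nat_lit 0x23c6), .r 2 (nat_lit 0x23c7), .r 2 (nat_lit 0x23c8), .r 2 (nat_lit 0x23c9), .r 2 (nat_lit 0x23ca), .r 2 (nat_lit 0x23cb), .r 2 (nat_lit 0x23cc)] (by decide +kernel) (by decide +kernel)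
theorem b328 : B 20992 21056 := Blk.of_chk [.r 2 (nat_lit 0x23cd), .r 2 (nat_lit 0x23ce), .r 2 (nat_lit 0x23cf), .r 2 (nat_lit 0x23d1), .r 2 (nat_lit 0x23d3), .r 2 (nat_lit 0x23d4), .r 2 (nat_lit 0x23e1), .r 2 (nat_lit 0x23e4), .r 2 (nat_lit 0x23e7), .r 2 (nat_lit 0x23e8), .r 2 (nat_lit 0x23ee), .r 2 (nat_lit 0x2450), .r 2 (nat_lit 0x2451), .r 2 (nat_lit 0x2451), .r 2 (nat_lit 0x2452), .r 2 (nat_lit 0x2453), .r 2 (nat_lit 0x2454), .r 2 (nat_lit 0x2465), .r 2 (nat_lit 0x2474), .r 2 (nat_lit 0x2475), .r 2 (nat_lit 0x2476), .r 2 (nat_lit 0x2477), .r 2 (nat_lit 0x2478), .r 2 (nat_lit 0x2479), .r 2 (nat_lit 0x247a), .r 2 (nat_lit 0x247b), .r 2 (nat_lit 0x247c), .r 2 (nat_lit 0x247d), .r 2 (nat_lit 0x247f), .r 2 (nat_lit 0x2480), .r 2 (nat_lit 0x2481), .r 2 (nat_lit 0x2482), .r 2 (nat_lit 0x2483),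 .r 2 (nat_lit 0x2484), .r 2 (nat_lit 0x2485), .r 2 (nat_lit 0x1485), .r 2 (nat_lit 0x2486), .r 2 (nat_lit 0x2487), .r 2 (nat_lit 0x1227), .r 2 (nat_lit 0x2488), .r 2 (nat_lit 0x2489), .r 2 (nat_lit 0x248a), .r 2 (nat_lit 0x12fb), .r 2 (nat_lit 0x248b), .r 2 (nat_lit 0x248c), .r 2 (nat_lit 0x1312), .r 2 (nat_lit 0x248d), .r 2 (nat_lit 0x248e), .r 2 (nat_lit 0x248f), .r 2 (nat_lit 0x2490), .r 2 (nat_lit 0x2491), .r 2 (nat_lit 0x2492), .r 2 (nat_lit 0x2494), .r 2 (nat_lit 0x2495), .r 2 (nat_lit 0x2496), .r 2 (nat_lit 0x2497), .r 2 (nat_lit 0x2499), .r 2 (nat_lit 0x249a), .r 2 (nat_lit 0x249b), .r 2 (nat_lit 0x249d), .r 2 (nat_lit 0x249e), .r 2 (nat_lit 0x24a8), .r 2 (nat_lit 0x24ac), .r 2 (nat_lit 0x24ae)] (by decide +kernel) (by decide +kernel)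
theorem b329 : B 21056 21120 := Blk.of_chk [.r 2 (nat_lit 0x24e1), .r 2 (nat_lit 0x24f0), .r 2 (nat_lit 0x24f1), .r 2 (nat_lit 0x24f2), .r 2 (nat_lit 0x24f3), .r 2 (nat_lit 0x24f4), .r 2 (nat_lit 0x24f5), .r 2 (nat_lit 0x24f6), .r 2 (nat_lit 0x24f7), .r 2 (nat_lit 0x24f8), .r 2 (nat_lit 0x24f9), .r 2 (nat_lit 0x24fa), .r 2 (nat_lit 0x24fb), .r 2 (nat_lit 0x24fc), .r 2 (nat_lit 0x24fd), .r 2 (nat_lit 0x24fe), .r 2 (nat_lit 0x24ff), .r 2 (nat_lit 0x2500), .r 2 (nat_lit 0x1387), .r 2 (nat_lit 0x2501), .r 2 (nat_lit 0x2502), .r 2 (nat_lit 0x1230), .r 2 (nat_lit 0x2503), .r 2 (nat_lit 0x2504), .r 2 (nat_lit 0x2505), .r 2 (nat_lit 0x1297), .r 2 (nat_lit 0x2506), .r 2 (nat_lit 0x2507), .r 2 (nat_lit 0x2508), .r 2 (nat_lit 0x1249), .r 2 (nat_lit 0x2509), .r 2 (nat_lit 0x250a), .r 2 (nat_lit 0x250b),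 .r 2 (nat_lit 0x250c), .r 2 (nat_lit 0x250d), .r 2 (nat_lit 0x250f), .r 2 (nat_lit 0x2510), .r 2 (nat_lit 0x2511), .r 2 (nat_lit 0x2512), .r 2 (nat_lit 0x2514), .r 2 (nat_lit 0x2515), .r 2 (nat_lit 0x2525), .r 2 (nat_lit 0x2528), .r 2 (nat_lit 0x2561), .r 2 (nat_lit 0x2562), .r 2 (nat_lit 0x2563), .r 2 (nat_lit 0x2564), .r 2 (nat_lit 0x2565), .r 2 (nat_lit 0x2567), .r 2 (nat_lit 0x2569), .r 2 (nat_lit 0x256a), .r 2 (nat_lit 0x256b), .r 2 (nat_lit 0x256c), .r 2 (nat_lit 0x256d), .r 2 (nat_lit 0x256e), .r 2 (nat_lit 0x256f), .r 2 (nat_lit 0x2570), .r 2 (nat_lit 0x2571), .r 2 (nat_lit 0x2572), .r 2 (nat_lit 0x2573), .r 2 (nat_lit 0x2574), .r 2 (nat_lit 0x2575), .r 2 (nat_lit 0x2576), .r 2 (nat_lit 0x2577)] (by decide +kernel) (by decide +kernel)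
theorem b330 : B 21120 21184 := Blk.of_chk [.r 2 (nat_lit 0x2578), .r 2 (nat_lit 0x2579), .r 2 (nat_lit 0x257a), .r 2 (nat_lit 0x257b), .r 2 (nat_lit 0x257c), .r 2 (nat_lit 0x257d), .r 2 (nat_lit 0x257e), .r 2 (nat_lit 0x257f), .r 2 (nat_lit 0x2581), .r 2 (nat_lit 0x2582), .r 2 (nat_lit 0x2583), .r 2 (nat_lit 0x2584), .r 2 (nat_lit 0x2585), .r 2 (nat_lit 0x2586), .r 2 (nat_lit 0x2587), .r 2 (nat_lit 0x2588), .r 2 (nat_lit 0x258a), .r 2 (nat_lit 0x258b), .r 2 (nat_lit 0x2595), .r 2 (nat_lit 0x2599), .r 2 (nat_lit 0x259c), .r 2 (nat_lit 0x25d2), .r 2 (nat_lit 0x25d3), .r 2 (nat_lit 0x25d4), .r 2 (nat_lit 0x25d5), .r 2 (nat_lit 0x25d6), .r 2 (nat_lit 0x25d7), .r 2 (nat_lit 0x25d8), .r 2 (nat_lit 0x25d9), .r 2 (nat_lit 0x25da), .r 2 (nat_lit 0x25db), .r 2 (nat_lit 0x25dc), .r 2 (nat_lit 0x25dd),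 .r 2 (nat_lit 0x25de), .r 2 (nat_lit 0x25df), .r 2 (nat_lit 0x25e0), .r 2 (nat_lit 0x25e1), .r 2 (nat_lit 0x167b), .r 2 (nat_lit 0x25e2), .r 2 (nat_lit 0x25e3), .r 2 (nat_lit 0x25e4), .r 2 (nat_lit 0x25e5), .r 2 (nat_lit 0x25e6), .r 2 (nat_lit 0x25e8), .r 2 (nat_lit 0x25e9), .r 2 (nat_lit 0x25ea), .r 2 (nat_lit 0x25eb), .r 2 (nat_lit 0x25ec), .r 2 (nat_lit 0x25ed), .r 2 (nat_lit 0x25ee), .r 2 (nat_lit 0x25f0), .r 2 (nat_lit 0x25f1), .r 2 (nat_lit 0x25f2), .r 2 (nat_lit 0x2636), .r 2 (nat_lit 0x2637), .r 2 (nat_lit 0x2638), .r 2 (nat_lit 0x2639), .r 2 (nat_lit 0x13f3), .r 2 (nat_lit 0x263a), .r 2 (nat_lit 0x263b), .r 2 (nat_lit 0x263c), .r 2 (nat_lit 0x263d), .r 2 (nat_lit 0x122a), .r 2 (nat_lit 0x263e)] (by decide +kernel) (by decide +kernel)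
theorem b331 : B 21184 21248 := Blk.of_chk [.r 2 (nat_lit 0x263f), .r 2 (nat_lit 0x1228), .r 2 (nat_lit 0x2640), .r 2 (nat_lit 0x2641), .r 2 (nat_lit 0x2642), .r 2 (nat_lit 0x1231), .r 2 (nat_lit 0x2643), .r 2 (nat_lit 0x2644), .r 2 (nat_lit 0x2645), .r 2 (nat_lit 0x2646), .r 2 (nat_lit 0x1298), .r 2 (nat_lit 0x2647), .r 2 (nat_lit 0x2648), .r 2 (nat_lit 0x2649), .r 2 (nat_lit 0x264a), .r 2 (nat_lit 0x264b), .r 2 (nat_lit 0x264c), .r 2 (nat_lit 0x264d), .r 2 (nat_lit 0x264e), .r 2 (nat_lit 0x264f), .r 2 (nat_lit 0x2650), .r 2 (nat_lit 0x2651), .r 2 (nat_lit 0x2652), .r 2 (nat_lit 0x124a), .r 2 (nat_lit 0x2653), .r 2 (nat_lit 0x2654), .r 2 (nat_lit 0x265a), .r 2 (nat_lit 0x2660), .r 2 (nat_lit 0x2661), .r 2 (nat_lit 0x2668), .r 2 (nat_lit 0x2679), .r 2 (nat_lit 0x270e), .r 2 (nat_lit 0x271b),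 .r 2 (nat_lit 0x2726), .r 2 (nat_lit 6), .r 2 (nat_lit 0x1277), .r 2 (nat_lit 0x1277), .r 2 (nat_lit 0x28cb), .r 2 (nat_lit 0x148e), .r 2 (nat_lit 0x28cc), .r 2 (nat_lit 0x28cd), .r 2 (nat_lit 0x28ce), .r 2 (nat_lit 0x28cf), .r 2 (nat_lit 0x28d0), .r 2 (nat_lit 0x15f8), .r 2 (nat_lit 0x28d1), .r 2 (nat_lit 0x28d2), .r 2 (nat_lit 0x127d), .r 2 (nat_lit 0x28d3), .r 2 (nat_lit 0x28d4), .r 2 (nat_lit 0x28d5), .r 2 (nat_lit 0x11), .r 2 (nat_lit 0x11), .r 2 (nat_lit 0x28d6), .r 2 (nat_lit 0x28d7), .r 2 (nat_lit 0x28d8), .r 2 (nat_lit 0x28d9), .r 2 (nat_lit 0x28da), .r 2 (nat_lit 0x28db), .r 2 (nat_lit 0x28dc), .r 2 (nat_lit 0x28dd), .r 2 (nat_lit 0x28de), .r 2 (nat_lit 0x1283), .r 2 (nat_lit 0x28df)] (by decide +kernel) (by decide +kernel)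
theorem b332 : B 21248 21312 := Blk.of_chk [.r 2 (nat_lit 0x28e0), .r 2 (nat_lit 0x28e1), .r 2 (nat_lit 0x28e2), .r 2 (nat_lit 0x28e3), .r 2 (nat_lit 0x28e4), .r 2 (nat_lit 0x28e5), .r 2 (nat_lit 0x28e6), .r 2 (nat_lit 0x28e7), .r 2 (nat_lit 0x28e8), .r 2 (nat_lit 0x28e9), .r 2 (nat_lit 0x28ea), .r 2 (nat_lit 0x28eb), .r 2 (nat_lit 0x28ec), .r 2 (nat_lit 0x28ed), .r 2 (nat_lit 0x28ee), .r 2 (nat_lit 0x28f0), .r 2 (nat_lit 0x28f1), .r 2 (nat_lit 0x28f2), .r 2 (nat_lit 0x28f3), .r 2 (nat_lit 0x28f4), .r 2 (nat_lit 0x28f5), .r 2 (nat_lit 0x28f6), .r 2 (nat_lit 0x28f7), .r 2 (nat_lit 0x28f8), .r 2 (nat_lit 0x28f9), .r 2 (nat_lit 0x28fa), .r 2 (nat_lit 0x28fb), .r 2 (nat_lit 0x28fc), .r 2 (nat_lit 0x28fd), .r 2 (nat_lit 0x28fe), .r 2 (nat_lit 0x2900), .r 2 (nat_lit 0x2901), .r 2 (nat_lit 0x2902),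 .r 2 (nat_lit 0x2903), .r 2 (nat_lit 0x2905), .r 2 (nat_lit 0x2906), .r 2 (nat_lit 0x2908), .r 2 (nat_lit 0x290a), .r 2 (nat_lit 0x290b), .r 2 (nat_lit 0x290c), .r 2 (nat_lit 0x290d), .r 2 (nat_lit 0x290e), .r 2 (nat_lit 0x290f), .r 2 (nat_lit 0x2910), .r 2 (nat_lit 0x2911), .r 2 (nat_lit 0x2912), .r 2 (nat_lit 0x2913), .r 2 (nat_lit 0x2914), .r 2 (nat_lit 0x2916), .r 2 (nat_lit 0x2917), .r 2 (nat_lit 0x2918), .r 2 (nat_lit 0x2919), .r 2 (nat_lit 0x291a), .r 2 (nat_lit 0x291b), .r 2 (nat_lit 0x291c), .r 2 (nat_lit 0x291d), .r 2 (nat_lit 0x291e), .r 2 (nat_lit 0x291f), .r 2 (nat_lit 0x2920), .r 2 (nat_lit 0x2921), .r 2 (nat_lit 0x2922), .r 2 (nat_lit 0x2923), .r 2 (nat_lit 0x2924), .r 2 (nat_lit 0x2925)] (by decide +kernel) (by decide +kernel)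
theorem b333 : B 21312 21376 := Blk.of_chk [.r 2 (nat_lit 0x2926), .r 2 (nat_lit 0x2930), .r 2 (nat_lit 0x2933), .r 2 (nat_lit 0x2934), .r 2 (nat_lit 0x2937), .r 2 (nat_lit 0x293a), .r 2 (nat_lit 0x293b), .r 2 (nat_lit 0x293c), .r 2 (nat_lit 0x29cf), .r 2 (nat_lit 0x29cf), .r 2 (nat_lit 0x29d0), .r 2 (nat_lit 0x11e4), .r 2 (nat_lit 0x29d6), .r 2 (nat_lit 0x29d7), .r 2 (nat_lit 0x29d8), .r 2 (nat_lit 0x29e8), .r 2 (nat_lit 0x29e9), .r 2 (nat_lit 0x29ea), .r 2 (nat_lit 0x29fa), .r 2 (nat_lit 0x29fb), .r 2 (nat_lit 0x29fc), .r 2 (nat_lit 0x29fd), .r 2 (nat_lit 0x29fe), .r 2 (nat_lit 0x2a00), .r 2 (nat_lit 0x2a01), .r 2 (nat_lit 0x2a02), .r 2 (nat_lit 0x2a03), .r 2 (nat_lit 0x2a04), .r 2 (nat_lit 0x2a05), .r 2 (nat_lit 0x2a06), .r 2 (nat_lit 0x2a07), .r 2 (nat_lit 0x2a08), .r 2 (nat_lit 0x2a09),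 .r 2 (nat_lit 0x2a0a), .r 2 (nat_lit 0x2a0b), .r 2 (nat_lit 0x2a0c), .r 2 (nat_lit 0x2a18), .r 2 (nat_lit 0x2a1c), .r 2 (nat_lit 0x2a1f), .r 2 (nat_lit 0x11ee), .r 2 (nat_lit 0x2a57), .r 2 (nat_lit 0x2a58), .r 2 (nat_lit 0x2a59), .r 2 (nat_lit 0x2a67), .r 2 (nat_lit 0x2a68), .r 2 (nat_lit 0x2a74), .r 2 (nat_lit 0x2a75), .r 2 (nat_lit 0x2a76), .r 2 (nat_lit 0x2a78), .r 2 (nat_lit 0x2a79), .r 2 (nat_lit 0x2a7a), .r 2 (nat_lit 0x2a7c), .r 2 (nat_lit 0x2a7d), .r 2 (nat_lit 0x2a7e), .r 2 (nat_lit 0x2a7f), .r 2 (nat_lit 0x2a80), .r 2 (nat_lit 0x2a81), .r 2 (nat_lit 0x2a82), .r 2 (nat_lit 0x2a83), .r 2 (nat_lit 0x2a84), .r 2 (nat_lit 0x2a85), .r 2 (nat_lit 0x2a86), .r 2 (nat_lit 0x2a87), .r 2 (nat_lit 0x2a88)] (by decide +kernel) (by decide +kernel)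
theorem b334 : B 21376 21440 := Blk.of_chk [.r 2 (nat_lit 0x2ac8), .r 2 (nat_lit 0x2ac9), .r 2 (nat_lit 0x2aca), .r 2 (nat_lit 0x2acb), .r 2 (nat_lit 0x2acc), .r 2 (nat_lit 0x2acd), .r 2 (nat_lit 0x2ace), .r 2 (nat_lit 0x2acf), .r 2 (nat_lit 0x2ad1), .r 2 (nat_lit 0x2ad2), .r 2 (nat_lit 0x2ad3), .r 2 (nat_lit 0x2ad4), .r 2 (nat_lit 0x2ad5), .r 2 (nat_lit 0x2ad6), .r 2 (nat_lit 0x2ad7), .r 2 (nat_lit 0x2ad8), .r 2 (nat_lit 0x2ad9), .r 2 (nat_lit 0x2ada), .r 2 (nat_lit 0x2adb), .r 2 (nat_lit 0x2add), .r 2 (nat_lit 0x2ade), .r 2 (nat_lit 0x2adf), .r 2 (nat_lit 0x2ae0), .r 2 (nat_lit 0x2ae1), .r 2 (nat_lit 0x2ae2), .r 2 (nat_lit 0x2ae3), .r 2 (nat_lit 0x2ae4), .r 2 (nat_lit 0x2ae6), .r 2 (nat_lit 0x2ae7), .r 2 (nat_lit 0x2ae8), .r 2 (nat_lit 0x2ae9), .r 2 (nat_lit 0x2af0), .r 2 (nat_lit 0x2af3),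 .r 2 (nat_lit 0x2af5), .r 2 (nat_lit 0x2b25), .r 2 (nat_lit 0x2b26), .r 2 (nat_lit 0x2b27), .r 2 (nat_lit 0x2b28), .r 2 (nat_lit 0x2b29), .r 2 (nat_lit 0x2b2a), .r 2 (nat_lit 0x2b2b), .r 2 (nat_lit 0x2b2c), .r 2 (nat_lit 0x2b2d), .r 2 (nat_lit 0x2b2e), .r 2 (nat_lit 0x2b30), .r 2 (nat_lit 0x2b31), .r 2 (nat_lit 0x2b32), .r 2 (nat_lit 0x2b33), .r 2 (nat_lit 0x2b34), .r 2 (nat_lit 0x2b35), .r 2 (nat_lit 0x2b36), .r 2 (nat_lit 0x2b37), .r 2 (nat_lit 0x2b39), .r 2 (nat_lit 0x2b3a), .r 2 (nat_lit 0x2b3b), .r 2 (nat_lit 0x2b3c), .r 2 (nat_lit 0x2b4b), .r 2 (nat_lit 0x2b4c), .r 2 (nat_lit 0x2b7d), .r 2 (nat_lit 0x2b7e), .r 2 (nat_lit 0x2b7f), .r 2 (nat_lit 0x2b80), .r 2 (nat_lit 0x2b81), .r 2 (nat_lit 0x2b82)] (by decide +kernel) (by decide +kernel)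
theorem b335 : B 21440 21504 := Blk.of_chk [.r 2 (nat_lit 0x2b83), .r 2 (nat_lit 0x2b84), .r 2 (nat_lit 0x2b85), .r 2 (nat_lit 0x2b87), .r 2 (nat_lit 0x2b88), .r 2 (nat_lit 0x2b89), .r 2 (nat_lit 0x1381), .r 2 (nat_lit 0x2b8b), .r 2 (nat_lit 0x2b8c), .r 2 (nat_lit 0x2b8d), .r 2 (nat_lit 0x2b8e), .r 2 (nat_lit 0x2b8f), .r 2 (nat_lit 0x2b90), .r 2 (nat_lit 0x2b91), .r 2 (nat_lit 0x2b92), .r 2 (nat_lit 0x2b93), .r 2 (nat_lit 0x2b95), .r 2 (nat_lit 0x2b96), .r 2 (nat_lit 0x2bb1), .r 2 (nat_lit 0x2bb5), .r 2 (nat_lit 0x2cb9), .r 2 (nat_lit 0x2ccd), .r 2 (nat_lit 0x2cda), .r 2 (nat_lit 0x2dbc), .r 2 (nat_lit 0x2dd7), .r 2 (nat_lit 0x2dd8), .r 2 (nat_lit 0x2dd9), .r 2 (nat_lit 0x2dda), .r 2 (nat_lit 0x2ddb), .r 2 (nat_lit 0x2ddc), .r 2 (nat_lit 0x1542), .r 2 (nat_lit 0x2ddd), .r 2 (nat_lit 0x2dde),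 .r 2 (nat_lit 0x2ddf), .r 2 (nat_lit 0x2de0), .r 2 (nat_lit 0x2de1), .r 2 (nat_lit 0x2de2), .r 2 (nat_lit 0x1551), .r 2 (nat_lit 0x2de3), .r 2 (nat_lit 0x2de4), .r 2 (nat_lit 0x2de5), .r 2 (nat_lit 0x2de6), .r 2 (nat_lit 0x2de7), .r 2 (nat_lit 0x2de8), .r 2 (nat_lit 0x2de9), .r 2 (nat_lit 0x2dea), .r 2 (nat_lit 0x2deb), .r 2 (nat_lit 0x2dec), .r 2 (nat_lit 0x2ded), .r 2 (nat_lit 0x2dee), .r 2 (nat_lit 0x2def), .r 2 (nat_lit 0x2df0), .r 2 (nat_lit 0x2df2), .r 2 (nat_lit 0x2df3), .r 2 (nat_lit 0x2df4), .r 2 (nat_lit 0x2df5), .r 2 (nat_lit 0x2df6), .r 2 (nat_lit 0x2df7), .r 2 (nat_lit 0x2df8), .r 2 (nat_lit 0x2df9), .r 2 (nat_lit 0x2dfa), .r 2 (nat_lit 0x2dfb), .r 2 (nat_lit 0x2dfc), .r 2 (nat_lit 0x2dfd)] (by decide +kernel) (by decide +kernel)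
theorem b336 : B 21504 21568 := Blk.of_chk [.r 2 (nat_lit 0x1575), .r 2 (nat_lit 0x2dfe), .r 2 (nat_lit 0x2dff), .r 2 (nat_lit 0x2e00), .r 2 (nat_lit 0x2e01), .r 2 (nat_lit 0x1419), .r 2 (nat_lit 0x2e02), .r 2 (nat_lit 0x1217), .r 2 (nat_lit 0x1216), .r 2 (nat_lit 0x2e03), .r 2 (nat_lit 0x2e04), .r 2 (nat_lit 0x2e05), .r 2 (nat_lit 0x2e06), .r 2 (nat_lit 0x2e26), .r 2 (nat_lit 0x2e26), .r 2 (nat_lit 0x2e27), .r 2 (nat_lit 0x2e28), .r 2 (nat_lit 0x2e37), .r 2 (nat_lit 0x2e38), .r 2 (nat_lit 0x2e39), .r 2 (nat_lit 0x2e3a), .r 2 (nat_lit 0x2e3b), .r 2 (nat_lit 0x2e60), .r 2 (nat_lit 0x2e61), .r 2 (nat_lit 0x2e63), .r 2 (nat_lit 0x2e65), .r 2 (nat_lit 0x2e66), .r 2 (nat_lit 0x2e68), .r 2 (nat_lit 0x2eb6), .r 2 (nat_lit 0x1657), .r 2 (nat_lit 0x2eb7), .r 2 (nat_lit 0x2eb8), .r 2 (nat_lit 0x2eb9),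 .r 2 (nat_lit 0x2eba), .r 2 (nat_lit 0x122e), .r 2 (nat_lit 0x2ebb), .r 2 (nat_lit 0x2ebc), .r 2 (nat_lit 0x2ebd), .r 2 (nat_lit 0x2ebe), .r 2 (nat_lit 0x2ebf), .r 2 (nat_lit 0x1654), .r 2 (nat_lit 0x2ec0), .r 2 (nat_lit 0x2ec1), .r 2 (nat_lit 0x2ec2), .r 2 (nat_lit 0x2ec3), .r 2 (nat_lit 0x2ec4), .r 2 (nat_lit 0x2ec5), .r 2 (nat_lit 0x2ec6), .r 2 (nat_lit 0x2ec7), .r 2 (nat_lit 0x2ec8), .r 2 (nat_lit 0x2ec9), .r 2 (nat_lit 0x2eca), .r 2 (nat_lit 0x2ecb), .r 2 (nat_lit 0x2ecc), .r 2 (nat_lit 0x1504), .r 2 (nat_lit 0x2ecd), .r 2 (nat_lit 0x2ece), .r 2 (nat_lit 0x2ecf), .r 2 (nat_lit 0x2ed0), .r 2 (nat_lit 0x2ed1), .r 2 (nat_lit 0x2ed2), .r 2 (nat_lit 0x2ed3), .r 2 (nat_lit 0x2ed4), .r 2 (nat_lit 0x2ed6)] (by decide +kernel) (by decide +kernel)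
theorem b337 : B 21568 21632 := Blk.of_chk [.r 2 (nat_lit 0x2ed7), .r 2 (nat_lit 0x2ed8), .r 2 (nat_lit 0x151d), .r 2 (nat_lit 0x2ed9), .r 2 (nat_lit 0x2eda), .r 2 (nat_lit 0x2edb), .r 2 (nat_lit 0x13af), .r 2 (nat_lit 0x2edc), .r 2 (nat_lit 0x2edf), .r 2 (nat_lit 0x2ee0), .r 2 (nat_lit 0x1290), .r 2 (nat_lit 0x2ee1), .r 2 (nat_lit 0x2ee2), .r 2 (nat_lit 0x14e0), .r 2 (nat_lit 0x1592), .r 2 (nat_lit 0x2ee3), .r 2 (nat_lit 0x2f03), .r 2 (nat_lit 0x2f04), .r 2 (nat_lit 0x2f05), .r 2 (nat_lit 0x2f06), .r 2 (nat_lit 0x2f26), .r 2 (nat_lit 0x2f27), .r 2 (nat_lit 0x2f28), .r 2 (nat_lit 0x2f29), .r 2 (nat_lit 0x2f53), .r 2 (nat_lit 0x2f56), .r 2 (nat_lit 0x2f58), .r 2 (nat_lit 0x2f5a), .r 2 (nat_lit 0x2f5c), .r 2 (nat_lit 0x2faf), .r 2 (nat_lit 0x2fb0), .r 2 (nat_lit 0x2fb1), .r 2 (nat_lit 0x2fb2),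 .r 2 (nat_lit 0x2fb3), .r 2 (nat_lit 0x2fb4), .r 2 (nat_lit 0x2fb5), .r 2 (nat_lit 0x2fb6), .r 2 (nat_lit 0x2fb7), .r 2 (nat_lit 0x2fb8), .r 2 (nat_lit 0x2fb9), .r 2 (nat_lit 0x2fba), .r 2 (nat_lit 0x2fbb), .r 2 (nat_lit 0x2fbc), .r 2 (nat_lit 0x2fbd), .r 2 (nat_lit 0x2fbe), .r 2 (nat_lit 0x2fbf), .r 2 (nat_lit 0x2fc0), .r 2 (nat_lit 0x2fc1), .r 2 (nat_lit 0x2fc2), .r 2 (nat_lit 0x2fc3), .r 2 (nat_lit 0x2fc4), .r 2 (nat_lit 0x2fc5), .r 2 (nat_lit 0x2fc6), .r 2 (nat_lit 0x2fc7), .r 2 (nat_lit 0x2fc8), .r 2 (nat_lit 0x2fc9), .r 2 (nat_lit 0x2fca), .r 2 (nat_lit 0x2fcb), .r 2 (nat_lit 0x2fcc), .r 2 (nat_lit 0x2fcd), .r 2 (nat_lit 0x2fce), .r 2 (nat_lit 0x2fcf), .r 2 (nat_lit 0x2fd0), .r 2 (nat_lit 0x2fd1)] (by decide +kernel) (by decide +kernel)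
theorem b338 : B 21632 21696 := Blk.of_chk [.r 2 (nat_lit 0x2fd3), .r 2 (nat_lit 0x2fd4), .r 2 (nat_lit 0x2fd5), .r 2 (nat_lit 0x2fd6), .r 2 (nat_lit 0x2fd7), .r 2 (nat_lit 0x2fd8), .r 2 (nat_lit 0x2fd9), .r 2 (nat_lit 0x2fda), .r 2 (nat_lit 0x2fdb), .r 2 (nat_lit 0x2fdc), .r 2 (nat_lit 0x2fdd), .r 2 (nat_lit 0x2fde), .r 2 (nat_lit 0x2fdf), .r 2 (nat_lit 0x2fe0), .r 2 (nat_lit 0x2fe1), .r 2 (nat_lit 0x2fe2), .r 2 (nat_lit 0x2fe3), .r 2 (nat_lit 0x2fe4), .r 2 (nat_lit 0x2fe5), .r 2 (nat_lit 0x2fe6), .r 2 (nat_lit 0x2fe7), .r 2 (nat_lit 0x2fe8), .r 2 (nat_lit 0x2fe9), .r 2 (nat_lit 0x2fea), .r 2 (nat_lit 0x2feb), .r 2 (nat_lit 0x2fec), .r 2 (nat_lit 0x2fed), .r 2 (nat_lit 0x2fee), .r 2 (nat_lit 0x2fef), .r 2 (nat_lit 0x2ff0), .r 2 (nat_lit 0x2ff1), .r 2 (nat_lit 0x2ff2), .r 2 (nat_lit 0x2ff3),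 .r 2 (nat_lit 0x2ff4), .r 2 (nat_lit 0x2ff5), .r 2 (nat_lit 0x2ff6), .r 2 (nat_lit 0x2ff7), .r 2 (nat_lit 0x2ff8), .r 2 (nat_lit 0x2ff9), .r 2 (nat_lit 0x2ffa), .r 2 (nat_lit 0x2ffb), .r 2 (nat_lit 0x2ffc), .r 2 (nat_lit 0x2ffd), .r 2 (nat_lit 0x2ffe), .r 2 (nat_lit 0x2fff), .r 2 (nat_lit 0x3000), .r 2 (nat_lit 0x3001), .r 2 (nat_lit 0x3002), .r 2 (nat_lit 0x3003), .r 2 (nat_lit 0x3004), .r 2 (nat_lit 0x3005), .r 2 (nat_lit 0x3006), .r 2 (nat_lit 0x3007), .r 2 (nat_lit 0x3008), .r 2 (nat_lit 0x3009), .r 2 (nat_lit 0x300a), .r 2 (nat_lit 0x300c), .r 2 (nat_lit 0x300d), .r 2 (nat_lit 0x3019), .r 2 (nat_lit 0x301c), .r 2 (nat_lit 0x301f), .r 2 (nat_lit 0x3020), .r 2 (nat_lit 0x3022), .r 2 (nat_lit 0x3023)] (by decide +kernel) (by decide +kernel)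
theorem b339 : B 21696 21760 := Blk.of_chk [.r 2 (nat_lit 0x308e), .r 2 (nat_lit 0x308f), .r 2 (nat_lit 0x3090), .r 2 (nat_lit 0x3091), .r 2 (nat_lit 0x3092), .r 2 (nat_lit 0x3093), .r 2 (nat_lit 0x3094), .r 2 (nat_lit 0x3095), .r 2 (nat_lit 0x3096), .r 2 (nat_lit 0x3097), .r 2 (nat_lit 0x3098), .r 2 (nat_lit 0x3099), .r 2 (nat_lit 0x309a), .r 2 (nat_lit 0x309b), .r 2 (nat_lit 0x309c), .r 2 (nat_lit 0x309d), .r 2 (nat_lit 0x309e), .r 2 (nat_lit 0x309f), .r 2 (nat_lit 0x30a0), .r 2 (nat_lit 0x30a1), .r 2 (nat_lit 0x30a2), .r 2 (nat_lit 0x30a3), .r 2 (nat_lit 0x30a4), .r 2 (nat_lit 0x30a5), .r 2 (nat_lit 0x30a6), .r 2 (nat_lit 0x30a7), .r 2 (nat_lit 0x30a8), .r 2 (nat_lit 0x30a9), .r 2 (nat_lit 0x30aa), .r 2 (nat_lit 0x30ab), .r 2 (nat_lit 0x30ac), .r 2 (nat_lit 0x30ad), .r 2 (nat_lit 0x30ae),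 .r 2 (nat_lit 0x30af), .r 2 (nat_lit 0x30b0), .r 2 (nat_lit 0x30b1), .r 2 (nat_lit 0x30b2), .r 2 (nat_lit 0x30b3), .r 2 (nat_lit 0x30b4), .r 2 (nat_lit 0x30b5), .r 2 (nat_lit 0x30b6), .r 2 (nat_lit 0x30b7), .r 2 (nat_lit 0x30b8), .r 2 (nat_lit 0x30b9), .r 2 (nat_lit 0x30ba), .r 2 (nat_lit 0x30c5), .r 2 (nat_lit 0x30c7), .r 2 (nat_lit 0x30c9), .r 2 (nat_lit 0x30cc), .r 2 (nat_lit 0x311d), .r 2 (nat_lit 0x311e), .r 2 (nat_lit 0x311f), .r 2 (nat_lit 0x3120), .r 2 (nat_lit 0x3121), .r 2 (nat_lit 0x3122), .r 2 (nat_lit 0x3123), .r 2 (nat_lit 0x3124), .r 2 (nat_lit 0x3125), .r 2 (nat_lit 0x3126), .r 2 (nat_lit 0x3127), .r 2 (nat_lit 0x3128), .r 2 (nat_lit 0x3129), .r 2 (nat_lit 0x312a), .r 2 (nat_lit 0x312c)] (by decide +kernel) (by decide +kernel)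
theorem b340 : B 21760 21824 := Blk.of_chk [.r 2 (nat_lit 0x312d), .r 2 (nat_lit 0x312e), .r 2 (nat_lit 0x312f), .r 2 (nat_lit 0x3130), .r 2 (nat_lit 0x3131), .r 2 (nat_lit 0x3132), .r 2 (nat_lit 0x3133), .r 2 (nat_lit 0x3134), .r 2 (nat_lit 0x3135), .r 2 (nat_lit 0x3136), .r 2 (nat_lit 0x3137), .r 2 (nat_lit 0x3138), .r 2 (nat_lit 0x3139), .r 2 (nat_lit 0x313a), .r 2 (nat_lit 0x313b), .r 2 (nat_lit 0x313e), .r 2 (nat_lit 0x313f), .r 2 (nat_lit 0x3150), .r 2 (nat_lit 0x3155), .r 2 (nat_lit 0x315b), .r 2 (nat_lit 0x315f), .r 2 (nat_lit 0x3160), .r 2 (nat_lit 0x31ee), .r 2 (nat_lit 0x122c), .r 2 (nat_lit 0x13ea), .r 2 (nat_lit 0x3368), .r 2 (nat_lit 0x11f0), .r 2 (nat_lit 0x11f0), .r 2 (nat_lit 9), .r 2 (nat_lit 0x336f), .r 2 (nat_lit 0x3374), .r 2 (nat_lit 0x3374), .r 2 (nat_lit 0x3375), .r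 2 (nat_lit 0x337b), .r 2 (nat_lit 0x3384), .r 2 (nat_lit 0x3389), .r 2 (nat_lit 0x338a), .r 2 (nat_lit 0x338b), .r 2 (nat_lit 0x338c), .r 2 (nat_lit 0x338e), .r 2 (nat_lit 0x3390), .r 2 (nat_lit 0x3391), .r 2 (nat_lit 0x3392), .r 2 (nat_lit 0x3393), .r 2 (nat_lit 0x3394), .r 2 (nat_lit 0x3395), .r 2 (nat_lit 0x3396), .r 2 (nat_lit 0x3397), .r 2 (nat_lit 0x3398), .r 2 (nat_lit 0x3399), .r 2 (nat_lit 0x339a), .r 2 (nat_lit 0x339b), .r 2 (nat_lit 0x339c), .r 2 (nat_lit 0x339d), .r 2 (nat_lit 0x339e), .r 2 (nat_lit 0x339f), .r 2 (nat_lit 0x33a0), .r 2 (nat_lit 0x33a1), .r 2 (nat_lit 0x33a7), .r 2 (nat_lit 0x33a8), .r 2 (nat_lit 0x33a9), .r 2 (nat_lit 0x33aa), .r 2 (nat_lit 0x33ab), .r 2 (nat_lit 0x33c7)] (by decide +kernel) (by decide +kernel)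
theorem b341 : B 21824 21888 := Blk.of_chk [.r 2 (nat_lit 0x33c8), .r 2 (nat_lit 0x33c9), .r 2 (nat_lit 0x33ca), .r 2 (nat_lit 0x33cb), .r 2 (nat_lit 0x33cc), .r 2 (nat_lit 0x33cd), .r 2 (nat_lit 0x33ce), .r 2 (nat_lit 0x33cf), .r 2 (nat_lit 0x33d0), .r 2 (nat_lit 0x33f9), .r 2 (nat_lit 0x33fa), .r 2 (nat_lit 0x33fb), .r 2 (nat_lit 0x33fc), .r 2 (nat_lit 0x33fd), .r 2 (nat_lit 0x33fe), .r 2 (nat_lit 0x33ff), .r 2 (nat_lit 0x3400), .r 2 (nat_lit 0x3401), .r 2 (nat_lit 0x3402), .r 2 (nat_lit 0x3404), .r 2 (nat_lit 0x3405), .r 2 (nat_lit 0x3406), .r 2 (nat_lit 0x3407), .r 2 (nat_lit 0x3408), .r 2 (nat_lit 0x3409), .r 2 (nat_lit 0x340a), .r 2 (nat_lit 0x340b), .r 2 (nat_lit 0x340c), .r 2 (nat_lit 0x340d), .r 2 (nat_lit 0x340e), .r 2 (nat_lit 0x3410), .r 2 (nat_lit 0x3411), .r 2 (nat_lit 0x3424),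 .r 2 (nat_lit 0x3427), .r 2 (nat_lit 0x3481), .r 2 (nat_lit 0x3483), .r 2 (nat_lit 0x1672), .r 2 (nat_lit 0x3576), .r 2 (nat_lit 0x3577), .r 2 (nat_lit 0x3579), .r 2 (nat_lit 0x13d5), .r 2 (nat_lit 0x357b), .r 2 (nat_lit 0x357c), .r 2 (nat_lit 0x357d), .r 2 (nat_lit 0x357e), .r 2 (nat_lit 0x357f), .r 2 (nat_lit 0x3580), .r 2 (nat_lit 0x3581), .r 2 (nat_lit 0x3582), .r 2 (nat_lit 0x3583), .r 2 (nat_lit 0x3584), .r 2 (nat_lit 0x3585), .r 2 (nat_lit 0x3586), .r 2 (nat_lit 0x3587), .r 2 (nat_lit 0x3588), .r 2 (nat_lit 0x3589), .r 2 (nat_lit 0x358a), .r 2 (nat_lit 0x358b), .r 2 (nat_lit 0x358c), .r 2 (nat_lit 0x358d), .r 2 (nat_lit 0x358e), .r 2 (nat_lit 0x358f), .r 2 (nat_lit 0x3590), .r 2 (nat_lit 0x3591)] (by decide +kernel) (by decide +kernel)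
theorem b342 : B 21888 21952 := Blk.of_chk [.r 2 (nat_lit 0x3592), .r 2 (nat_lit 0x3594), .r 2 (nat_lit 0x3595), .r 2 (nat_lit 0x359c), .r 2 (nat_lit 0x359d), .r 2 (nat_lit 0x359e), .r 2 (nat_lit 0x359f), .r 2 (nat_lit 0x35a1), .r 2 (nat_lit 0x35cf), .r 2 (nat_lit 0x35d0), .r 2 (nat_lit 0x35d1), .r 2 (nat_lit 0x35d2), .r 2 (nat_lit 0x35d3), .r 2 (nat_lit 0x35d4), .r 2 (nat_lit 0x35d5), .r 2 (nat_lit 0x35d6), .r 2 (nat_lit 0x35d7), .r 2 (nat_lit 0x35d8), .r 2 (nat_lit 0x35d9), .r 2 (nat_lit 0x35da), .r 2 (nat_lit 0x35db), .r 2 (nat_lit 0x35dc), .r 2 (nat_lit 0x35f7), .r 2 (nat_lit 0x35f8), .r 2 (nat_lit 0x35f9), .r 2 (nat_lit 0x35fa), .r 2 (nat_lit 0x35fb), .r 2 (nat_lit 0x35fc), .r 2 (nat_lit 0x35fd), .r 2 (nat_lit 0x35fe), .r 2 (nat_lit 0x35ff), .r 2 (nat_lit 0x3600), .r 2 (nat_lit 0x3601),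 .r 2 (nat_lit 0x3602), .r 2 (nat_lit 0x3603), .r 2 (nat_lit 0x3604), .r 2 (nat_lit 0x3605), .r 2 (nat_lit 0x3606), .r 2 (nat_lit 0x3607), .r 2 (nat_lit 0x3608), .r 2 (nat_lit 0x3609), .r 2 (nat_lit 0x360a), .r 2 (nat_lit 0x360b), .r 2 (nat_lit 0x360c), .r 2 (nat_lit 0x360e), .r 2 (nat_lit 0x360f), .r 2 (nat_lit 0x361c), .r 2 (nat_lit 0x3624), .r 2 (nat_lit 0x3627), .r 2 (nat_lit 0x3687), .r 2 (nat_lit 0x3778), .r 2 (nat_lit 0x3779), .r 2 (nat_lit 0x377a), .r 2 (nat_lit 0x377b), .r 2 (nat_lit 0x377c), .r 2 (nat_lit 0x377d), .r 2 (nat_lit 0x377e), .r 2 (nat_lit 0x377f), .r 2 (nat_lit 0x3780), .r 2 (nat_lit 0x3781), .r 2 (nat_lit 0x3782), .r 2 (nat_lit 0x3783), .r 2 (nat_lit 0x3784), .r 2 (nat_lit 0x3785)] (by decide +kernel) (by decide +kernel)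
theorem b343 : B 21952 22016 := Blk.of_chk [.r 2 (nat_lit 0x3786), .r 2 (nat_lit 0x3787), .r 2 (nat_lit 0x3788), .r 2 (nat_lit 0x3789), .r 2 (nat_lit 0x378a), .r 2 (nat_lit 0x378b), .r 2 (nat_lit 0x378c), .r 2 (nat_lit 0x378d), .r 2 (nat_lit 0x378e), .r 2 (nat_lit 0x378f), .r 2 (nat_lit 0x3790), .r 2 (nat_lit 0x3791), .r 2 (nat_lit 0x3792), .r 2 (nat_lit 0x3793), .r 2 (nat_lit 0x3794), .r 2 (nat_lit 0x3795), .r 2 (nat_lit 0x3796), .r 2 (nat_lit 0x3797), .r 2 (nat_lit 0x3798), .r 2 (nat_lit 0x3799), .r 2 (nat_lit 0x379a), .r 2 (nat_lit 0x379b), .r 2 (nat_lit 0x379c), .r 2 (nat_lit 0x379d), .r 2 (nat_lit 0x379e), .r 2 (nat_lit 0x379f), .r 2 (nat_lit 0x37a0), .r 2 (nat_lit 0x37a1), .r 2 (nat_lit 0x37a2), .r 2 (nat_lit 0x37a3), .r 2 (nat_lit 0x37a4), .r 2 (nat_lit 0x37a5), .r 2 (nat_lit 0x37a6),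 .r 2 (nat_lit 0x37a7), .r 2 (nat_lit 0x37a8), .r 2 (nat_lit 0x37aa), .r 2 (nat_lit 0x37ab), .r 2 (nat_lit 0x37b5), .r 2 (nat_lit 0x37b8), .r 2 (nat_lit 0x37ba), .r 2 (nat_lit 0x37bb), .r 2 (nat_lit 0x37e6), .r 2 (nat_lit 0x37e7), .r 2 (nat_lit 0x37e8), .r 2 (nat_lit 0x37e9), .r 2 (nat_lit 0x37ea), .r 2 (nat_lit 0x37eb), .r 2 (nat_lit 0x37ec), .r 2 (nat_lit 0x37ed), .r 2 (nat_lit 0x37ee), .r 2 (nat_lit 0x37ef), .r 2 (nat_lit 0x37f0), .r 2 (nat_lit 0x37f1), .r 2 (nat_lit 0x37f2), .r 2 (nat_lit 0x37f4), .r 2 (nat_lit 0x37f5), .r 2 (nat_lit 0x37f6), .r 2 (nat_lit 0x37f7), .r 2 (nat_lit 0x37f8), .r 2 (nat_lit 0x37f9), .r 2 (nat_lit 0x37fa), .r 2 (nat_lit 0x37fb), .r 2 (nat_lit 0x37fd), .r 2 (nat_lit 0x37fe)] (by decide +kernel) (by decide +kernel)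
theorem b344 : B 22016 22080 := Blk.of_chk [.r 2 (nat_lit 0x37ff), .r 2 (nat_lit 0x3800), .r 2 (nat_lit 0x3801), .r 2 (nat_lit 0x3802), .r 2 (nat_lit 0x3803), .r 2 (nat_lit 0x3805), .r 2 (nat_lit 0x3806), .r 2 (nat_lit 0x3815), .r 2 (nat_lit 0x381a), .r 2 (nat_lit 0x381b), .r 2 (nat_lit 0x3820), .r 2 (nat_lit 0x3821), .r 2 (nat_lit 0x3824), .r 2 (nat_lit 0x3825), .r 2 (nat_lit 0x3890), .r 2 (nat_lit 0x3893), .r 2 (nat_lit 0x3894), .r 2 (nat_lit 0x397e), .r 2 (nat_lit 0x397f), .r 2 (nat_lit 0x3980), .r 2 (nat_lit 0x3981), .r 2 (nat_lit 0x3982), .r 2 (nat_lit 0x3983), .r 2 (nat_lit 0x3984), .r 2 (nat_lit 0x3985), .r 2 (nat_lit 0x3986), .r 2 (nat_lit 0x3987), .r 2 (nat_lit 0x3988), .r 2 (nat_lit 0x3989), .r 2 (nat_lit 0x398a), .r 2 (nat_lit 0x398b), .r 2 (nat_lit 0x398c), .r 2 (nat_lit 0x398d),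 .r 2 (nat_lit 0x398e), .r 2 (nat_lit 0x398f), .r 2 (nat_lit 0x3990), .r 2 (nat_lit 0x3991), .r 2 (nat_lit 0x3992), .r 2 (nat_lit 0x3993), .r 2 (nat_lit 0x3994), .r 2 (nat_lit 0x13f5), .r 2 (nat_lit 0x3996), .r 2 (nat_lit 0x3997), .r 2 (nat_lit 0x39ac), .r 2 (nat_lit 0x39af), .r 2 (nat_lit 0x3b25), .r 2 (nat_lit 0x3b2a), .r 2 (nat_lit 0x3b2f), .r 2 (nat_lit 0x3b30), .r 2 (nat_lit 0x4259), .r 2 (nat_lit 0x425a), .r 2 (nat_lit 0x425b), .r 2 (nat_lit 0x425c), .r 2 (nat_lit 0x425d), .r 2 (nat_lit 0x425e), .r 2 (nat_lit 0x425f), .r 2 (nat_lit 0x4260), .r 2 (nat_lit 0x4261), .r 2 (nat_lit 0x4262), .r 2 (nat_lit 0x4263), .r 2 (nat_lit 0x4264), .r 2 (nat_lit 0x4265), .r 2 (nat_lit 0x4266), .r 2 (nat_lit 0x4267)] (by decide +kernel) (by decide +kernel)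
theorem b345 : B 22080 22144 := Blk.of_chk [.r 2 (nat_lit 0x4268), .r 2 (nat_lit 0x4269), .r 2 (nat_lit 0x426a), .r 2 (nat_lit 0x426b), .r 2 (nat_lit 0x426c), .r 2 (nat_lit 0x426d), .r 2 (nat_lit 0x426e), .r 2 (nat_lit 0x426f), .r 2 (nat_lit 0x4270), .r 2 (nat_lit 0x4271), .r 2 (nat_lit 0x4272), .r 2 (nat_lit 0x4273), .r 2 (nat_lit 0x4274), .r 2 (nat_lit 0x4275), .r 2 (nat_lit 0x4276), .r 2 (nat_lit 0x4277), .r 2 (nat_lit 0x4278), .r 2 (nat_lit 0x4279), .r 2 (nat_lit 0x427a), .r 2 (nat_lit 0x427b), .r 2 (nat_lit 0x427c), .r 2 (nat_lit 0x427d), .r 2 (nat_lit 0x427e), .r 2 (nat_lit 0x427f), .r 2 (nat_lit 0x4280), .r 2 (nat_lit 0x4281), .r 2 (nat_lit 0x4282), .r 2 (nat_lit 0x4283), .r 2 (nat_lit 0x4284), .r 2 (nat_lit 0x4285), .r 2 (nat_lit 0x4286), .r 2 (nat_lit 0x4287), .r 2 (nat_lit 0x4288),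 .r 2 (nat_lit 0x4289), .r 2 (nat_lit 0x428a), .r 2 (nat_lit 0x428b), .r 2 (nat_lit 0x428c), .r 2 (nat_lit 0x428d), .r 2 (nat_lit 0x428e), .r 2 (nat_lit 0x428f), .r 2 (nat_lit 0x4290), .r 2 (nat_lit 0x4291), .r 2 (nat_lit 0x4292), .r 2 (nat_lit 0x4293), .r 2 (nat_lit 0x4294), .r 2 (nat_lit 0x4295), .r 2 (nat_lit 0x4296), .r 2 (nat_lit 0x4297), .r 2 (nat_lit 0x4298), .r 2 (nat_lit 0x4299), .r 2 (nat_lit 0x429a), .r 2 (nat_lit 0x429b), .r 2 (nat_lit 0x429c), .r 2 (nat_lit 0x429d), .r 2 (nat_lit 0x429e), .r 2 (nat_lit 0x429f), .r 2 (nat_lit 0x42a0), .r 2 (nat_lit 0x42a1), .r 2 (nat_lit 0x42a2), .r 2 (nat_lit 0x42a3), .r 2 (nat_lit 0x42a4), .r 2 (nat_lit 0x42a5), .r 2 (nat_lit 0x42a6), .r 2 (nat_lit 0x42a7)] (by decide +kernel) (by decide +kernel)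
theorem b346 : B 22144 22208 := Blk.of_chk [.r 2 (nat_lit 0x42a8), .r 2 (nat_lit 0x42a9), .r 2 (nat_lit 0x42aa), .r 2 (nat_lit 0x42ab), .r 2 (nat_lit 0x42ac), .r 2 (nat_lit 0x42ad), .r 2 (nat_lit 0x42ae), .r 2 (nat_lit 0x42af), .r 2 (nat_lit 0x42b0), .r 2 (nat_lit 0x42b1), .r 2 (nat_lit 0x42b2), .r 2 (nat_lit 0x42b3), .r 2 (nat_lit 0x42b4), .r 2 (nat_lit 0x42b5), .r 2 (nat_lit 0x42b6), .r 2 (nat_lit 0x42b7), .r 2 (nat_lit 0x42b8), .r 2 (nat_lit 0x42b9), .r 2 (nat_lit 0x42ba), .r 2 (nat_lit 0x42bb), .r 2 (nat_lit 0x42bc), .r 2 (nat_lit 0x42bd), .r 2 (nat_lit 0x42be), .r 2 (nat_lit 0x42bf), .r 2 (nat_lit 0x42c0), .r 2 (nat_lit 0x42c1), .r 2 (nat_lit 0x42c2), .r 2 (nat_lit 0x42c3), .r 2 (nat_lit 0x42c4), .r 2 (nat_lit 0x42c5), .r 2 (nat_lit 0x42c6), .r 2 (nat_lit 0x42c7), .r 2 (nat_lit 0x42c8),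 .r 2 (nat_lit 0x42c9), .r 2 (nat_lit 0x42ca), .r 2 (nat_lit 0x42cb), .r 2 (nat_lit 0x42cc), .r 2 (nat_lit 0x42cd), .r 2 (nat_lit 0x42ce), .r 2 (nat_lit 0x42cf), .r 2 (nat_lit 0x42d0), .r 2 (nat_lit 0x42d1), .r 2 (nat_lit 0x42d2), .r 2 (nat_lit 0x42d3), .r 2 (nat_lit 0x42d4), .r 2 (nat_lit 0x42d5), .r 2 (nat_lit 0x42d6), .r 2 (nat_lit 0x42d7), .r 2 (nat_lit 0x42d8), .r 2 (nat_lit 0x42d9), .r 2 (nat_lit 0x42da), .r 2 (nat_lit 0x42db), .r 2 (nat_lit 0x42dc), .r 2 (nat_lit 0x42dd), .r 2 (nat_lit 0x42de), .r 2 (nat_lit 0x42df), .r 2 (nat_lit 0x42e0), .r 2 (nat_lit 0x42e1), .r 2 (nat_lit 0x42e2), .r 2 (nat_lit 0x42e3), .r 2 (nat_lit 0x42e4), .r 2 (nat_lit 0x42e5), .r 2 (nat_lit 0x42e6), .r 2 (nat_lit 0x42e7)] (by decide +kernel) (by decide +kernel)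
theorem b347 : B 22208 22272 := Blk.of_chk [.r 2 (nat_lit 0x42e8), .r 2 (nat_lit 0x42e9), .r 2 (nat_lit 0x42ea), .r 2 (nat_lit 0x42eb), .r 2 (nat_lit 0x42ec), .r 2 (nat_lit 0x42ed), .r 2 (nat_lit 0x42ee), .r 2 (nat_lit 0x42ef), .r 2 (nat_lit 0x42f0), .r 2 (nat_lit 0x42f1), .r 2 (nat_lit 0x42f2), .r 2 (nat_lit 0x42f3), .r 2 (nat_lit 0x42f4), .r 2 (nat_lit 0x42f5), .r 2 (nat_lit 0x42f6), .r 2 (nat_lit 0x42f7), .r 2 (nat_lit 0x42f8), .r 2 (nat_lit 0x42f9), .r 2 (nat_lit 0x42fa), .r 2 (nat_lit 0x42fb), .r 2 (nat_lit 0x42fc), .r 2 (nat_lit 0x42fd), .r 2 (nat_lit 0x42fe), .r 2 (nat_lit 0x42ff), .r 2 (nat_lit 0x4300), .r 2 (nat_lit 0x4301), .r 2 (nat_lit 0x4302), .r 2 (nat_lit 0x4303), .r 2 (nat_lit 0x4304), .r 2 (nat_lit 0x4305), .r 2 (nat_lit 0x4306), .r 2 (nat_lit 0x4307), .r 2 (nat_lit 0x4308),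 .r 2 (nat_lit 0x4309), .r 2 (nat_lit 0x430a), .r 2 (nat_lit 0x430b), .r 2 (nat_lit 0x430c), .r 2 (nat_lit 0x430d), .r 2 (nat_lit 0x430e), .r 2 (nat_lit 0x430f), .r 2 (nat_lit 0x4310), .r 2 (nat_lit 0x4311), .r 2 (nat_lit 0x4312), .r 2 (nat_lit 0x4313), .r 2 (nat_lit 0x4314), .r 2 (nat_lit 0x4315), .r 2 (nat_lit 0x4316), .r 2 (nat_lit 0x4317), .r 2 (nat_lit 0x4318), .r 2 (nat_lit 0x4319), .r 2 (nat_lit 0x431a), .r 2 (nat_lit 0x431b), .r 2 (nat_lit 0x431c), .r 2 (nat_lit 0x431d), .r 2 (nat_lit 0x431e), .r 2 (nat_lit 0x431f), .r 2 (nat_lit 0x4320), .r 2 (nat_lit 0x4321), .r 2 (nat_lit 0x4322), .r 2 (nat_lit 0x4323), .r 2 (nat_lit 0x4324), .r 2 (nat_lit 0x4325), .r 2 (nat_lit 0x4326), .r 2 (nat_lit 0x4327)] (by decide +kernel) (by decide +kernel)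
theorem b348 : B 22272 22336 := Blk.of_chk [.r 2 (nat_lit 0x4328), .r 2 (nat_lit 0x4329), .r 2 (nat_lit 0x432a), .r 2 (nat_lit 0x432b), .r 2 (nat_lit 0x432c), .r 2 (nat_lit 0x432d), .r 2 (nat_lit 0x432e), .r 2 (nat_lit 0x432f), .r 2 (nat_lit 0x4330), .r 2 (nat_lit 0x4331), .r 2 (nat_lit 0x4332), .r 2 (nat_lit 0x4333), .r 2 (nat_lit 0x4334), .r 2 (nat_lit 0x4335), .r 2 (nat_lit 0x4443), .r 2 (nat_lit 0x4444), .r 2 (nat_lit 0x4445), .r 2 (nat_lit 0x4446), .r 2 (nat_lit 0x4447), .r 2 (nat_lit 0x4448), .r 2 (nat_lit 0x4449), .r 2 (nat_lit 0x444a), .r 2 (nat_lit 0x444b), .r 2 (nat_lit 0x444c), .r 2 (nat_lit 0x444d), .r 2 (nat_lit 0x444e), .r 2 (nat_lit 0x444f), .r 2 (nat_lit 0x4450), .r 2 (nat_lit 0x4451), .r 2 (nat_lit 0x4452), .r 2 (nat_lit 0x4453), .r 2 (nat_lit 0x4454), .r 2 (nat_lit 0x4455),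 .r 2 (nat_lit 0x4456), .r 2 (nat_lit 0x4457), .r 2 (nat_lit 0x4458), .r 2 (nat_lit 0x4459), .r 2 (nat_lit 0x445a), .r 2 (nat_lit 0x445b), .r 2 (nat_lit 0x445c), .r 2 (nat_lit 0x445d), .r 2 (nat_lit 0x445e), .r 2 (nat_lit 0x445f), .r 2 (nat_lit 0x4460), .r 2 (nat_lit 0x4461), .r 2 (nat_lit 0x4462), .r 2 (nat_lit 0x4463), .r 2 (nat_lit 0x4464), .r 2 (nat_lit 0x4465), .r 2 (nat_lit 0x4466), .r 2 (nat_lit 0x4467), .r 2 (nat_lit 0x4468), .r 2 (nat_lit 0x4469), .r 2 (nat_lit 0x446a), .r 2 (nat_lit 0x446b), .r 2 (nat_lit 0x446c), .r 2 (nat_lit 0x446d), .r 2 (nat_lit 0x446e), .r 2 (nat_lit 0x446f), .r 2 (nat_lit 0x4470), .r 2 (nat_lit 0x4471), .r 2 (nat_lit 0x4472), .r 2 (nat_lit 0x4473), .r 2 (nat_lit 0x4474)] (by decide +kernel) (by decide +kernel)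
theorem b349 : B 22336 22400 := Blk.of_chk [.r 2 (nat_lit 0x4475), .r 2 (nat_lit 0x4476), .r 2 (nat_lit 0x4477), .r 2 (nat_lit 0x4478), .r 2 (nat_lit 0x4479), .r 2 (nat_lit 0x447a), .r 2 (nat_lit 0x447b), .r 2 (nat_lit 0x447c), .r 2 (nat_lit 0x447d), .r 2 (nat_lit 0x447e), .r 2 (nat_lit 0x447f), .r 2 (nat_lit 0x4480), .r 2 (nat_lit 0x4481), .r 2 (nat_lit 0x4482), .r 2 (nat_lit 0x4483), .r 2 (nat_lit 0x4484), .r 2 (nat_lit 0x4485), .r 2 (nat_lit 0x4486), .r 2 (nat_lit 0x4487), .r 2 (nat_lit 0x4488), .r 2 (nat_lit 0x4489), .r 2 (nat_lit 0x448a), .r 2 (nat_lit 0x448b), .r 2 (nat_lit 0x448c), .r 2 (nat_lit 0x448d), .r 2 (nat_lit 0x448e), .r 2 (nat_lit 0x448f), .r 2 (nat_lit 0x4490), .r 2 (nat_lit 0x4491), .r 2 (nat_lit 0x4492), .r 2 (nat_lit 0x4493), .r 2 (nat_lit 0x4494), .r 2 (nat_lit 0x4495),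 .r 2 (nat_lit 0x4496), .r 2 (nat_lit 0x4497), .r 2 (nat_lit 0x4498), .r 2 (nat_lit 0x4499), .r 2 (nat_lit 0x449a), .r 2 (nat_lit 0x449b), .r 2 (nat_lit 0x449c), .r 2 (nat_lit 0x449d), .r 2 (nat_lit 0x449e), .r 2 (nat_lit 0x449f), .r 2 (nat_lit 0x44a0), .r 2 (nat_lit 0x44a1), .r 2 (nat_lit 0x44a2), .r 2 (nat_lit 0x44a3), .r 2 (nat_lit 0x44a4), .r 2 (nat_lit 0x44a5), .r 2 (nat_lit 0x44a6), .r 2 (nat_lit 0x44a7), .r 2 (nat_lit 0x44a8), .r 2 (nat_lit 0x44a9), .r 2 (nat_lit 0x44aa), .r 2 (nat_lit 0x44ab), .r 2 (nat_lit 0x44ac), .r 2 (nat_lit 0x44ad), .r 2 (nat_lit 0x44ae), .r 2 (nat_lit 0x44af), .r 2 (nat_lit 0x44b0), .r 2 (nat_lit 0x44b1), .r 2 (nat_lit 0x44b2), .r 2 (nat_lit 0x44b3), .r 2 (nat_lit 0x44b4)] (by decide +kernel) (by decide +kernel)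
theorem b350 : B 22400 22464 := Blk.of_chk [.r 2 (nat_lit 0x44b5), .r 2 (nat_lit 0x44b6), .r 2 (nat_lit 0x44b7), .r 2 (nat_lit 0x44b8), .r 2 (nat_lit 0x44b9), .r 2 (nat_lit 0x44ba), .r 2 (nat_lit 0x44bb), .r 2 (nat_lit 0x44bc), .r 2 (nat_lit 0x44bd), .r 2 (nat_lit 0x44be), .r 2 (nat_lit 0x44bf), .r 2 (nat_lit 0x44c0), .r 2 (nat_lit 0x44c1), .r 2 (nat_lit 0x44c2), .r 2 (nat_lit 0x44c3), .r 2 (nat_lit 0x44c4), .r 2 (nat_lit 0x44c5), .r 2 (nat_lit 0x44c6), .r 2 (nat_lit 0x44c7), .r 2 (nat_lit 0x44c8), .r 2 (nat_lit 0x44c9), .r 2 (nat_lit 0x44ca), .r 2 (nat_lit 0x44cb), .r 2 (nat_lit 0x44cc), .r 2 (nat_lit 0x44cd), .r 2 (nat_lit 0x44ce), .r 2 (nat_lit 0x44cf), .r 2 (nat_lit 0x44d0), .r 2 (nat_lit 0x44d1), .r 2 (nat_lit 0x44d2), .r 2 (nat_lit 0x44d3), .r 2 (nat_lit 0x44d4), .r 2 (nat_lit 0x44d5),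 .r 2 (nat_lit 0x44d6), .r 2 (nat_lit 0x44d7), .r 2 (nat_lit 0x44d8), .r 2 (nat_lit 0x44d9), .r 2 (nat_lit 0x44da), .r 2 (nat_lit 0x44db), .r 2 (nat_lit 0x44dc), .r 2 (nat_lit 0x44dd), .r 2 (nat_lit 0x44de), .r 2 (nat_lit 0x44df), .r 2 (nat_lit 0x44e0), .r 2 (nat_lit 0x44e1), .r 2 (nat_lit 0x44e2), .r 2 (nat_lit 0x44e3), .r 2 (nat_lit 0x44e4), .r 2 (nat_lit 0x44e5), .r 2 (nat_lit 0x44e6), .r 2 (nat_lit 0x44e7), .r 2 (nat_lit 0x44e8), .r 2 (nat_lit 0x44e9), .r 2 (nat_lit 0x44ea), .r 2 (nat_lit 0x44eb), .r 2 (nat_lit 0x44ec), .r 2 (nat_lit 0x44ed), .r 2 (nat_lit 0x44ee), .r 2 (nat_lit 0x44ef), .r 2 (nat_lit 0x44f0), .r 2 (nat_lit 0x44f1), .r 2 (nat_lit 0x44f2), .r 2 (nat_lit 0x44f3), .r 2 (nat_lit 0x44f4)] (by decide +kernel) (by decide +kernel)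
theorem b351 : B 22464 22528 := Blk.of_chk [.r 2 (nat_lit 0x44f5), .r 2 (nat_lit 0x44f6), .r 2 (nat_lit 0x44f7), .r 2 (nat_lit 0x44f8), .r 2 (nat_lit 0x44f9), .r 2 (nat_lit 0x44fa), .r 2 (nat_lit 0x44fb), .r 2 (nat_lit 0x44fc), .r 2 (nat_lit 0x44fd), .r 2 (nat_lit 0x44fe), .r 2 (nat_lit 0x44ff), .r 2 (nat_lit 0x4500), .r 2 (nat_lit 0x4501), .r 2 (nat_lit 0x4502), .r 2 (nat_lit 0x4503), .r 2 (nat_lit 0x4504), .r 2 (nat_lit 0x4505), .r 2 (nat_lit 0x4506), .r 2 (nat_lit 0x4507), .r 2 (nat_lit 0x4508), .r 2 (nat_lit 0x4509), .r 2 (nat_lit 0x450a), .r 2 (nat_lit 0x450b), .r 2 (nat_lit 0x450c), .r 2 (nat_lit 0x450d), .r 2 (nat_lit 0x450e), .r 2 (nat_lit 0x450f), .r 2 (nat_lit 0x4510), .r 2 (nat_lit 0x4511), .r 2 (nat_lit 0x4512), .r 2 (nat_lit 0x4513), .r 2 (nat_lit 0x4514), .r 2 (nat_lit 0x4515),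 .r 2 (nat_lit 0x4516), .r 2 (nat_lit 0x4517), .r 2 (nat_lit 0x4518), .r 2 (nat_lit 0x4519), .r 2 (nat_lit 0x451a), .r 2 (nat_lit 0x451b), .r 2 (nat_lit 0x451c), .r 2 (nat_lit 0x451d), .r 2 (nat_lit 0x451e), .r 2 (nat_lit 0x451f), .r 2 (nat_lit 0x4520), .r 2 (nat_lit 0x4521), .r 2 (nat_lit 0x4522), .r 2 (nat_lit 0x4523), .r 2 (nat_lit 0x4524), .r 2 (nat_lit 0x4525), .r 2 (nat_lit 0x4526), .r 2 (nat_lit 0x4527), .r 2 (nat_lit 0x4528), .r 2 (nat_lit 0x4529), .r 2 (nat_lit 0x452a), .r 2 (nat_lit 0x452b), .r 2 (nat_lit 0x452c), .r 2 (nat_lit 0x452d), .r 2 (nat_lit 0x452e), .r 2 (nat_lit 0x452f), .r 2 (nat_lit 0x4530), .r 2 (nat_lit 0x4531), .r 2 (nat_lit 0x4532), .r 2 (nat_lit 0x4533), .r 2 (nat_lit 0x4534)] (by decide +kernel) (by decide +kernel)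
theorem b352 : B 22528 22592 := Blk.of_chk [.r 2 (nat_lit 0x4535), .r 2 (nat_lit 0x4536), .r 2 (nat_lit 0x4537), .r 2 (nat_lit 0x4538), .r 2 (nat_lit 0x4539), .r 2 (nat_lit 0x453a), .r 2 (nat_lit 0x453b), .r 2 (nat_lit 0x453c), .r 2 (nat_lit 0x453d), .r 2 (nat_lit 0x453e), .r 2 (nat_lit 0x453f), .r 2 (nat_lit 0x4540), .r 2 (nat_lit 0x4541), .r 2 (nat_lit 0x4542), .r 2 (nat_lit 0x4543), .r 2 (nat_lit 0x4544), .r 2 (nat_lit 0x4545), .r 2 (nat_lit 0x4546), .r 2 (nat_lit 0x4547), .r 2 (nat_lit 0x4548), .r 2 (nat_lit 0x4549), .r 2 (nat_lit 0x454a), .r 2 (nat_lit 0x454b), .r 2 (nat_lit 0x454c), .r 2 (nat_lit 0x454d), .r 2 (nat_lit 0x454e), .r 2 (nat_lit 0x454f), .r 2 (nat_lit 0x4550), .r 2 (nat_lit 0x4551), .r 2 (nat_lit 0x4552), .r 2 (nat_lit 0x4553), .r 2 (nat_lit 0x4554), .r 2 (nat_lit 0x4555),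 .r 2 (nat_lit 0x4556), .r 2 (nat_lit 0x4557), .r 2 (nat_lit 0x4558), .r 2 (nat_lit 0x4559), .r 2 (nat_lit 0x455a), .r 2 (nat_lit 0x455b), .r 2 (nat_lit 0x455c), .r 2 (nat_lit 0x455d), .r 2 (nat_lit 0x455e), .r 2 (nat_lit 0x455f), .r 2 (nat_lit 0x4560), .r 2 (nat_lit 0x4561), .r 2 (nat_lit 0x4562), .r 2 (nat_lit 0x4563), .r 2 (nat_lit 0x4564), .r 2 (nat_lit 0x4565), .r 2 (nat_lit 0x4566), .r 2 (nat_lit 0x4567), .r 2 (nat_lit 0x4568), .r 2 (nat_lit 0x4569), .r 2 (nat_lit 0x456a), .r 2 (nat_lit 0x456b), .r 2 (nat_lit 0x456c), .r 2 (nat_lit 0x456d), .r 2 (nat_lit 0x456e), .r 2 (nat_lit 0x456f), .r 2 (nat_lit 0x4570), .r 2 (nat_lit 0x4571), .r 2 (nat_lit 0x4572), .r 2 (nat_lit 0x4573), .r 2 (nat_lit 0x4574)] (by decide +kernel) (by decide +kernel)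
theorem b353 : B 22592 22656 := Blk.of_chk [.r 2 (nat_lit 0x4575), .r 2 (nat_lit 0x4576), .r 2 (nat_lit 0x4577), .r 2 (nat_lit 0x4578), .r 2 (nat_lit 0x4579), .r 2 (nat_lit 0x457a), .r 2 (nat_lit 0x457b), .r 2 (nat_lit 0x457c), .r 2 (nat_lit 0x457d), .r 2 (nat_lit 0x457e), .r 2 (nat_lit 0x457f), .r 2 (nat_lit 0x4580), .r 2 (nat_lit 0x4581), .r 2 (nat_lit 0x4582), .r 2 (nat_lit 0x4583), .r 2 (nat_lit 0x4584), .r 2 (nat_lit 0x4585), .r 2 (nat_lit 0x4586), .r 2 (nat_lit 0x4587), .r 2 (nat_lit 0x4588), .r 2 (nat_lit 0x4589), .r 2 (nat_lit 0x458a), .r 2 (nat_lit 0x458b), .r 2 (nat_lit 0x458c), .r 2 (nat_lit 0x458d), .r 2 (nat_lit 0x458e), .r 2 (nat_lit 0x458f), .r 2 (nat_lit 0x4590), .r 2 (nat_lit 0x4591), .r 2 (nat_lit 0x4592), .r 2 (nat_lit 0x4593), .r 2 (nat_lit 0x4594), .r 2 (nat_lit 0x4595),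 .r 2 (nat_lit 0x4596), .r 2 (nat_lit 0x4597), .r 2 (nat_lit 0x4598), .r 2 (nat_lit 0x4599), .r 2 (nat_lit 0x459a), .r 2 (nat_lit 0x459b), .r 2 (nat_lit 0x459c), .r 2 (nat_lit 0x459d), .r 2 (nat_lit 0x459e), .r 2 (nat_lit 0x459f), .r 2 (nat_lit 0x45a0), .r 2 (nat_lit 0x45a1), .r 2 (nat_lit 0x45a2), .r 2 (nat_lit 0x45a3), .r 2 (nat_lit 0x45a4), .r 2 (nat_lit 0x45a5), .r 2 (nat_lit 0x45a6), .r 2 (nat_lit 0x45a7), .r 2 (nat_lit 0x45a8), .r 2 (nat_lit 0x45a9), .r 2 (nat_lit 0x45aa), .r 2 (nat_lit 0x45ab), .r 2 (nat_lit 0x45ac), .r 2 (nat_lit 0x45ad), .r 2 (nat_lit 0x45ae), .r 2 (nat_lit 0x45af), .r 2 (nat_lit 0x45b0), .r 2 (nat_lit 0x45b1), .r 2 (nat_lit 0x45b2), .r 2 (nat_lit 0x45b3), .r 2 (nat_lit 0x45b4)] (by decide +kernel) (by decide +kernel)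
theorem b354 : B 22656 22720 := Blk.of_chk [.r 2 (nat_lit 0x45b5), .r 2 (nat_lit 0x45b6), .r 2 (nat_lit 0x45b7), .r 2 (nat_lit 0x45b8), .r 2 (nat_lit 0x45b9), .r 2 (nat_lit 0x45ba), .r 2 (nat_lit 0x45bb), .r 2 (nat_lit 0x45bc), .r 2 (nat_lit 0x45bd), .r 2 (nat_lit 0x45be), .r 2 (nat_lit 0x45bf), .r 2 (nat_lit 0x45c0), .r 2 (nat_lit 0x45c1), .r 2 (nat_lit 0x45c2), .r 2 (nat_lit 0x45c3), .r 2 (nat_lit 0x45c4), .r 2 (nat_lit 0x45c5), .r 2 (nat_lit 0x45c6), .r 2 (nat_lit 0x45c7), .r 2 (nat_lit 0x45c8), .r 2 (nat_lit 0x45c9), .r 2 (nat_lit 0x45ca), .r 2 (nat_lit 0x45cb), .r 2 (nat_lit 0x45cc), .r 2 (nat_lit 0x45cd), .r 2 (nat_lit 0x45ce), .r 2 (nat_lit 0x45cf), .r 2 (nat_lit 0x45d0), .r 2 (nat_lit 0x45d1), .r 2 (nat_lit 0x45d2), .r 2 (nat_lit 0x45d3), .r 2 (nat_lit 0x45d4), .r 2 (nat_lit 0x45d5),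 .r 2 (nat_lit 0x45d6), .r 2 (nat_lit 0x45d7), .r 2 (nat_lit 0x45d8), .r 2 (nat_lit 0x45d9), .r 2 (nat_lit 0x45da), .r 2 (nat_lit 0x45db), .r 2 (nat_lit 0x45dc), .r 2 (nat_lit 0x45dd), .r 2 (nat_lit 0x45de), .r 2 (nat_lit 0x45df), .r 2 (nat_lit 0x45e0), .r 2 (nat_lit 0x45e1), .r 2 (nat_lit 0x45e2), .r 2 (nat_lit 0x45e3), .r 2 (nat_lit 0x45e4), .r 2 (nat_lit 0x45e5), .r 2 (nat_lit 0x45e6), .r 2 (nat_lit 0x45e7), .r 2 (nat_lit 0x45e8), .r 2 (nat_lit 0x45e9), .r 2 (nat_lit 0x45ea), .r 2 (nat_lit 0x45eb), .r 2 (nat_lit 0x45ec), .r 2 (nat_lit 0x45ed), .r 2 (nat_lit 0x45ee), .r 2 (nat_lit 0x45ef), .r 2 (nat_lit 0x45f0), .r 2 (nat_lit 0x45f1), .r 2 (nat_lit 0x45f2), .r 2 (nat_lit 0x45f3), .r 2 (nat_lit 0x45f4)] (by decide +kernel) (by decide +kernel)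
theorem b355 : B 22720 22784 := Blk.of_chk [.r 2 (nat_lit 0x45f5), .r 2 (nat_lit 0x45f6), .r 2 (nat_lit 0x45f7), .r 2 (nat_lit 0x45f8), .r 2 (nat_lit 0x45f9), .r 2 (nat_lit 0x45fa), .r 2 (nat_lit 0x45fb), .r 2 (nat_lit 0x45fc), .r 2 (nat_lit 0x45fd), .r 2 (nat_lit 0x45fe), .r 2 (nat_lit 0x45ff), .r 2 (nat_lit 0x4600), .r 2 (nat_lit 0x4601), .r 2 (nat_lit 0x4602), .r 2 (nat_lit 0x4603), .r 2 (nat_lit 0x4604), .r 2 (nat_lit 0x4605), .r 2 (nat_lit 0x4606), .r 2 (nat_lit 0x4607), .r 2 (nat_lit 0x4608), .r 2 (nat_lit 0x4609), .r 2 (nat_lit 0x460a), .r 2 (nat_lit 0x460b), .r 2 (nat_lit 0x460c), .r 2 (nat_lit 0x460d), .r 2 (nat_lit 0x460e), .r 2 (nat_lit 0x460f), .r 2 (nat_lit 0x4610), .r 2 (nat_lit 0x4611), .r 2 (nat_lit 0x4612), .r 2 (nat_lit 0x4613), .r 2 (nat_lit 0x4614), .r 2 (nat_lit 0x4615),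 .r 2 (nat_lit 0x4616), .r 2 (nat_lit 0x4617), .r 2 (nat_lit 0x4618), .r 2 (nat_lit 0x4619), .r 2 (nat_lit 0x461a), .r 2 (nat_lit 0x461b), .r 2 (nat_lit 0x461c), .r 2 (nat_lit 0x461d), .r 2 (nat_lit 0x461e), .r 2 (nat_lit 0x461f), .r 2 (nat_lit 0x4620), .r 2 (nat_lit 0x4621), .r 2 (nat_lit 0x4622), .r 2 (nat_lit 0x4623), .r 2 (nat_lit 0x4624), .r 2 (nat_lit 0x4625), .r 2 (nat_lit 0x4626), .r 2 (nat_lit 0x4627), .r 2 (nat_lit 0x4628), .r 2 (nat_lit 0x4629), .r 2 (nat_lit 0x462a), .r 2 (nat_lit 0x462b), .r 2 (nat_lit 0x462c), .r 2 (nat_lit 0x462d), .r 2 (nat_lit 0x462e), .r 2 (nat_lit 0x462f), .r 2 (nat_lit 0x4630), .r 2 (nat_lit 0x4631), .r 2 (nat_lit 0x4632), .r 2 (nat_lit 0x4633), .r 2 (nat_lit 0x4634)] (by decide +kernel) (by decide +kernel)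
theorem b356 : B 22784 22848 := Blk.of_chk [.r 2 (nat_lit 0x4635), .r 2 (nat_lit 0x4636), .r 2 (nat_lit 0x4637), .r 2 (nat_lit 0x4638), .r 2 (nat_lit 0x4639), .r 2 (nat_lit 0x463a), .r 2 (nat_lit 0x463b), .r 2 (nat_lit 0x463c), .r 2 (nat_lit 0x463d), .r 2 (nat_lit 0x463e), .r 2 (nat_lit 0x463f), .r 2 (nat_lit 0x4640), .r 2 (nat_lit 0x4641), .r 2 (nat_lit 0x4642), .r 2 (nat_lit 0x4643), .r 2 (nat_lit 0x4644), .r 2 (nat_lit 0x4645), .r 2 (nat_lit 0x4646), .r 2 (nat_lit 0x4647), .r 2 (nat_lit 0x4648), .r 2 (nat_lit 0x4649), .r 2 (nat_lit 0x464a), .r 2 (nat_lit 0x464b), .r 2 (nat_lit 0x464c), .r 2 (nat_lit 0x464d), .r 2 (nat_lit 0x464e), .r 2 (nat_lit 0x464f), .r 2 (nat_lit 0x4650), .r 2 (nat_lit 0x4651), .r 2 (nat_lit 0x4652), .r 2 (nat_lit 0x4653), .r 2 (nat_lit 0x4654), .r 2 (nat_lit 0x4655),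 .r 2 (nat_lit 0x4656), .r 2 (nat_lit 0x4657), .r 2 (nat_lit 0x4658), .r 2 (nat_lit 0x4659), .r 2 (nat_lit 0x465a), .r 2 (nat_lit 0x465b), .r 2 (nat_lit 0x465c), .r 2 (nat_lit 0x465d), .r 2 (nat_lit 0x465e), .r 2 (nat_lit 0x465f), .r 2 (nat_lit 0x4660), .r 2 (nat_lit 0x4661), .r 2 (nat_lit 0x4662), .r 2 (nat_lit 0x4663), .r 2 (nat_lit 0x4664), .r 2 (nat_lit 0x4665), .r 2 (nat_lit 0x4666), .r 2 (nat_lit 0x4667), .r 2 (nat_lit 0x4668), .r 2 (nat_lit 0x4669), .r 2 (nat_lit 0x466a), .r 2 (nat_lit 0x466b), .r 2 (nat_lit 0x466c), .r 2 (nat_lit 0x466d), .r 2 (nat_lit 0x466e), .r 2 (nat_lit 0x466f), .r 2 (nat_lit 0x4670), .r 2 (nat_lit 0x4671), .r 2 (nat_lit 0x4672), .r 2 (nat_lit 0x4673), .r 2 (nat_lit 0x4674)] (by decide +kernel) (by decide +kernel)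
theorem b357 : B 22848 22912 := Blk.of_chk [.r 2 (nat_lit 0x4675), .r 2 (nat_lit 0x4676), .r 2 (nat_lit 0x4677), .r 2 (nat_lit 0x4678), .r 2 (nat_lit 0x4679), .r 2 (nat_lit 0x467a), .r 2 (nat_lit 0x467b), .r 2 (nat_lit 0x467c), .r 2 (nat_lit 0x467d), .r 2 (nat_lit 0x467e), .r 2 (nat_lit 0x467f), .r 2 (nat_lit 0x4680), .r 2 (nat_lit 0x4681), .r 2 (nat_lit 0x4682), .r 2 (nat_lit 0x4683), .r 2 (nat_lit 0x4684), .r 2 (nat_lit 0x4685), .r 2 (nat_lit 0x4686), .r 2 (nat_lit 0x4687), .r 2 (nat_lit 0x4688), .r 2 (nat_lit 0x4689), .r 2 (nat_lit 0x468a), .r 2 (nat_lit 0x468b), .r 2 (nat_lit 0x468c), .r 2 (nat_lit 0x468d), .r 2 (nat_lit 0x468e), .r 2 (nat_lit 0x468f), .r 2 (nat_lit 0x4690), .r 2 (nat_lit 0x4691), .r 2 (nat_lit 0x4692), .r 2 (nat_lit 0x4693), .r 2 (nat_lit 0x4694), .r 2 (nat_lit 0x4695),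 .r 2 (nat_lit 0x4696), .r 2 (nat_lit 0x4697), .r 2 (nat_lit 0x4698), .r 2 (nat_lit 0x4699), .r 2 (nat_lit 0x469a), .r 2 (nat_lit 0x469b), .r 2 (nat_lit 0x469c), .r 2 (nat_lit 0x469d), .r 2 (nat_lit 0x469e), .r 2 (nat_lit 0x469f), .r 2 (nat_lit 0x46a0), .r 2 (nat_lit 0x46a1), .r 2 (nat_lit 0x46a2), .r 2 (nat_lit 0x46a3), .r 2 (nat_lit 0x46a4), .r 2 (nat_lit 0x46a5), .r 2 (nat_lit 0x46a6), .r 2 (nat_lit 0x46a7), .r 2 (nat_lit 0x46a8), .r 2 (nat_lit 0x46a9), .r 2 (nat_lit 0x46aa), .r 2 (nat_lit 0x46ab), .r 2 (nat_lit 0x46ac), .r 2 (nat_lit 0x46ad), .r 2 (nat_lit 0x46ae), .r 2 (nat_lit 0x46af), .r 2 (nat_lit 0x46b0), .r 2 (nat_lit 0x46b1), .r 2 (nat_lit 0x46b2), .r 2 (nat_lit 0x46b3), .r 2 (nat_lit 0x46b4)] (by decide +kernel) (by decide +kernel)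
theorem b358 : B 22912 22976 := Blk.of_chk [.r 2 (nat_lit 0x46b5), .r 2 (nat_lit 0x46b6), .r 2 (nat_lit 0x46b7), .r 2 (nat_lit 0x46b8), .r 2 (nat_lit 0x46b9), .r 2 (nat_lit 0x46ba), .r 2 (nat_lit 0x46bb), .r 2 (nat_lit 0x46bc), .r 2 (nat_lit 0x46bd), .r 2 (nat_lit 0x46be), .r 2 (nat_lit 0x46bf), .r 2 (nat_lit 0x46c0), .r 2 (nat_lit 0x46c1), .r 2 (nat_lit 0x46c2), .r 2 (nat_lit 0x46c3), .r 2 (nat_lit 0x46c4), .r 2 (nat_lit 0x46c5), .r 2 (nat_lit 0x46c6), .r 2 (nat_lit 0x46c7), .r 2 (nat_lit 0x46c8), .r 2 (nat_lit 0x46c9), .r 2 (nat_lit 0x46ca), .r 2 (nat_lit 0x46cb), .r 2 (nat_lit 0x46cc), .r 2 (nat_lit 0x46cd), .r 2 (nat_lit 0x46ce), .r 2 (nat_lit 0x46cf), .r 2 (nat_lit 0x46d0), .r 2 (nat_lit 0x46d1), .r 2 (nat_lit 0x46d2), .r 2 (nat_lit 0x46d3), .r 2 (nat_lit 0x46d4), .r 2 (nat_lit 0x46d5),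 .r 2 (nat_lit 0x46d6), .r 2 (nat_lit 0x46d7), .r 2 (nat_lit 0x46d8), .r 2 (nat_lit 0x46d9), .r 2 (nat_lit 0x46da), .r 2 (nat_lit 0x46db), .r 2 (nat_lit 0x46dc), .r 2 (nat_lit 0x46dd), .r 2 (nat_lit 0x46de), .r 2 (nat_lit 0x46df), .r 2 (nat_lit 0x46e0), .r 2 (nat_lit 0x46e1), .r 2 (nat_lit 0x46e2), .r 2 (nat_lit 0x46e3), .r 2 (nat_lit 0x46e4), .r 2 (nat_lit 0x46e5), .r 2 (nat_lit 0x46e6), .r 2 (nat_lit 0x46e7), .r 2 (nat_lit 0x46e8), .r 2 (nat_lit 0x46e9), .r 2 (nat_lit 0x46ea), .r 2 (nat_lit 0x46eb), .r 2 (nat_lit 0x46ec), .r 2 (nat_lit 0x46ed), .r 2 (nat_lit 0x46ee), .r 2 (nat_lit 0x46ef), .r 2 (nat_lit 0x46f0), .r 2 (nat_lit 0x46f1), .r 2 (nat_lit 0x46f2), .r 2 (nat_lit 0x46f3), .r 2 (nat_lit 0x46f4)] (by decide +kernel) (by decide +kernel)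
theorem b359 : B 22976 23040 := Blk.of_chk [.r 2 (nat_lit 0x46f5), .r 2 (nat_lit 0x46f6), .r 2 (nat_lit 0x46f8), .r 2 (nat_lit 0x46f9), .r 2 (nat_lit 0x46fa), .r 2 (nat_lit 0x46fb), .r 2 (nat_lit 0x46fc), .r 2 (nat_lit 0x46fd), .r 2 (nat_lit 0x46fe), .r 2 (nat_lit 0x46ff), .r 2 (nat_lit 0x4700), .r 2 (nat_lit 0x4701), .r 2 (nat_lit 0x4702), .r 2 (nat_lit 0x4703), .r 2 (nat_lit 0x4704), .r 2 (nat_lit 0x4705), .r 2 (nat_lit 0x4706), .r 2 (nat_lit 0x4707), .r 2 (nat_lit 0x4708), .r 2 (nat_lit 0x4709), .r 2 (nat_lit 0x470a), .r 2 (nat_lit 0x470b), .r 2 (nat_lit 0x470c), .r 2 (nat_lit 0x470d), .r 2 (nat_lit 0x470e), .r 2 (nat_lit 0x470f), .r 2 (nat_lit 0x4710), .r 2 (nat_lit 0x4711), .r 2 (nat_lit 0x4712), .r 2 (nat_lit 0x4713), .r 2 (nat_lit 0x4714), .r 2 (nat_lit 0x4715), .r 2 (nat_lit 0x4716),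 .r 2 (nat_lit 0x4717), .r 2 (nat_lit 0x4718), .r 2 (nat_lit 0x4719), .r 2 (nat_lit 0x471a), .r 2 (nat_lit 0x471b), .r 2 (nat_lit 0x471c), .r 2 (nat_lit 0x471d), .r 2 (nat_lit 0x471e), .r 2 (nat_lit 0x471f), .r 2 (nat_lit 0x4720), .r 2 (nat_lit 0x4721), .r 2 (nat_lit 0x4722), .r 2 (nat_lit 0x4723), .r 2 (nat_lit 0x4724), .r 2 (nat_lit 0x4725), .r 2 (nat_lit 0x4726), .r 2 (nat_lit 0x4727), .r 2 (nat_lit 0x4728), .r 2 (nat_lit 0x4729), .r 2 (nat_lit 0x472a), .r 2 (nat_lit 0x472b), .r 2 (nat_lit 0x472c), .r 2 (nat_lit 0x472d), .r 2 (nat_lit 0x472e), .r 2 (nat_lit 0x472f), .r 2 (nat_lit 0x4730), .r 2 (nat_lit 0x4731), .r 2 (nat_lit 0x4732), .r 2 (nat_lit 0x4733), .r 2 (nat_lit 0x4734), .r 2 (nat_lit 0x4735)] (by decide +kernel) (by decide +kernel)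
theorem b360 : B 23040 23104 := Blk.of_chk [.r 2 (nat_lit 0x4736), .r 2 (nat_lit 0x4737), .r 2 (nat_lit 0x4738), .r 2 (nat_lit 0x4739), .r 2 (nat_lit 0x473a), .r 2 (nat_lit 0x473b), .r 2 (nat_lit 0x473c), .r 2 (nat_lit 0x473d), .r 2 (nat_lit 0x473e), .r 2 (nat_lit 0x473f), .r 2 (nat_lit 0x4740), .r 2 (nat_lit 0x4741), .r 2 (nat_lit 0x4742), .r 2 (nat_lit 0x4743), .r 2 (nat_lit 0x4744), .r 2 (nat_lit 0x4745), .r 2 (nat_lit 0x4746), .r 2 (nat_lit 0x4747), .r 2 (nat_lit 0x4748), .r 2 (nat_lit 0x4749), .r 2 (nat_lit 0x474a), .r 2 (nat_lit 0x474b), .r 2 (nat_lit 0x474c), .r 2 (nat_lit 0x474d), .r 2 (nat_lit 0x474e), .r 2 (nat_lit 0x474f), .r 2 (nat_lit 0x4750), .r 2 (nat_lit 0x4751), .r 2 (nat_lit 0x4752), .r 2 (nat_lit 0x4753), .r 2 (nat_lit 0x4754), .r 2 (nat_lit 0x4755), .r 2 (nat_lit 0x4756),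 .r 2 (nat_lit 0x4757), .r 2 (nat_lit 0x4758), .r 2 (nat_lit 0x4759), .r 2 (nat_lit 0x475a), .r 2 (nat_lit 0x475b), .r 2 (nat_lit 0x475c), .r 2 (nat_lit 0x475d), .r 2 (nat_lit 0x475e), .r 2 (nat_lit 0x475f), .r 2 (nat_lit 0x4760), .r 2 (nat_lit 0x4761), .r 2 (nat_lit 0x4762), .r 2 (nat_lit 0x4763), .r 2 (nat_lit 0x4764), .r 2 (nat_lit 0x4765), .r 2 (nat_lit 0x4766), .r 2 (nat_lit 0x4767), .r 2 (nat_lit 0x4768), .r 2 (nat_lit 0x4769), .r 2 (nat_lit 0x476a), .r 2 (nat_lit 0x476b), .r 2 (nat_lit 0x476c), .r 2 (nat_lit 0x476d), .r 2 (nat_lit 0x476e), .r 2 (nat_lit 0x476f), .r 2 (nat_lit 0x4770), .r 2 (nat_lit 0x4771), .r 2 (nat_lit 0x4772), .r 2 (nat_lit 0x4773), .r 2 (nat_lit 0x4774), .r 2 (nat_lit 0x4775)] (by decide +kernel) (by decide +kernel)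
theorem b361 : B 23104 23168 := Blk.of_chk [.r 2 (nat_lit 0x4776), .r 2 (nat_lit 0x4777), .r 2 (nat_lit 0x4778), .r 2 (nat_lit 0x4779), .r 2 (nat_lit 0x477a), .r 2 (nat_lit 0x477b), .r 2 (nat_lit 0x477c), .r 2 (nat_lit 0x477d), .r 2 (nat_lit 0x477e), .r 2 (nat_lit 0x477f), .r 2 (nat_lit 0x4780), .r 2 (nat_lit 0x4781), .r 2 (nat_lit 0x4782), .r 2 (nat_lit 0x4783), .r 2 (nat_lit 0x4784), .r 2 (nat_lit 0x4785), .r 2 (nat_lit 0x4786), .r 2 (nat_lit 0x4787), .r 2 (nat_lit 0x4788), .r 2 (nat_lit 0x4789), .r 2 (nat_lit 0x478a), .r 2 (nat_lit 0x478b), .r 2 (nat_lit 0x478c), .r 2 (nat_lit 0x478d), .r 2 (nat_lit 0x478e), .r 2 (nat_lit 0x478f), .r 2 (nat_lit 0x4790), .r 2 (nat_lit 0x4791), .r 2 (nat_lit 0x4792), .r 2 (nat_lit 0x4793), .r 2 (nat_lit 0x4794), .r 2 (nat_lit 0x4795), .r 2 (nat_lit 0x4796),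 .r 2 (nat_lit 0x4797), .r 2 (nat_lit 0x4798), .r 2 (nat_lit 0x4799), .r 2 (nat_lit 0x479a), .r 2 (nat_lit 0x479c), .r 2 (nat_lit 0x479d), .r 2 (nat_lit 0x479e), .r 2 (nat_lit 0x479f), .r 2 (nat_lit 0x47a0), .r 2 (nat_lit 0x47a1), .r 2 (nat_lit 0x47a2), .r 2 (nat_lit 0x47a3), .r 2 (nat_lit 0x47a4), .r 2 (nat_lit 0x47a5), .r 2 (nat_lit 0x47a6), .r 2 (nat_lit 0x47a7), .r 2 (nat_lit 0x47a8), .r 2 (nat_lit 0x47a9), .r 2 (nat_lit 0x47aa), .r 2 (nat_lit 0x47ab), .r 2 (nat_lit 0x47ac), .r 2 (nat_lit 0x47ad), .r 2 (nat_lit 0x47ae), .r 2 (nat_lit 0x47af), .r 2 (nat_lit 0x47b0), .r 2 (nat_lit 0x47b1), .r 2 (nat_lit 0x47b2), .r 2 (nat_lit 0x47b3), .r 2 (nat_lit 0x47b4), .r 2 (nat_lit 0x47b5), .r 2 (nat_lit 0x47b6)] (by decide +kernel) (by decide +kernel)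
theorem b362 : B 23168 23232 := Blk.of_chk [.r 2 (nat_lit 0x47b7), .r 2 (nat_lit 0x47b8), .r 2 (nat_lit 0x47b9), .r 2 (nat_lit 0x47ba), .r 2 (nat_lit 0x47bb), .r 2 (nat_lit 0x47bc), .r 2 (nat_lit 0x47bd), .r 2 (nat_lit 0x47be), .r 2 (nat_lit 0x47bf), .r 2 (nat_lit 0x47c0), .r 2 (nat_lit 0x47c1), .r 2 (nat_lit 0x47c2), .r 2 (nat_lit 0x47c3), .r 2 (nat_lit 0x47c4), .r 2 (nat_lit 0x47c5), .r 2 (nat_lit 0x47c6), .r 2 (nat_lit 0x47c7), .r 2 (nat_lit 0x47c8), .r 2 (nat_lit 0x47c9), .r 2 (nat_lit 0x47ca), .r 2 (nat_lit 0x47cb), .r 2 (nat_lit 0x47cc), .r 2 (nat_lit 0x47cd), .r 2 (nat_lit 0x47ce), .r 2 (nat_lit 0x47cf), .r 2 (nat_lit 0x47d0), .r 2 (nat_lit 0x47d1), .r 2 (nat_lit 0x47d2), .r 2 (nat_lit 0x47d3), .r 2 (nat_lit 0x47d4), .r 2 (nat_lit 0x47d5), .r 2 (nat_lit 0x47d6), .r 2 (nat_lit 0x47d7),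 .r 2 (nat_lit 0x47d8), .r 2 (nat_lit 0x47d9), .r 2 (nat_lit 0x47da), .r 2 (nat_lit 0x47db), .r 2 (nat_lit 0x47dc), .r 2 (nat_lit 0x47dd), .r 2 (nat_lit 0x47de), .r 2 (nat_lit 0x47df), .r 2 (nat_lit 0x47e0), .r 2 (nat_lit 0x47e1), .r 2 (nat_lit 0x47e2), .r 2 (nat_lit 0x47e3), .r 2 (nat_lit 0x47e4), .r 2 (nat_lit 0x47e5), .r 2 (nat_lit 0x47e6), .r 2 (nat_lit 0x47e7), .r 2 (nat_lit 0x47e8), .r 2 (nat_lit 0x47e9), .r 2 (nat_lit 0x47ea), .r 2 (nat_lit 0x47ec), .r 2 (nat_lit 0x47ed), .r 2 (nat_lit 0x47ee), .r 2 (nat_lit 0x47ef), .r 2 (nat_lit 0x47f0), .r 2 (nat_lit 0x47f1), .r 2 (nat_lit 0x47f2), .r 2 (nat_lit 0x47f3), .r 2 (nat_lit 0x47f4), .r 2 (nat_lit 0x47f5), .r 2 (nat_lit 0x47f6), .r 2 (nat_lit 0x47f7)] (by decide +kernel) (by decide +kernel)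

end Pool.Agent.GCP.C19
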