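import Pool.Agent.GCP.C19B0
import Pool.Agent.GCP.C19B1
import Pool.Agent.GCP.C19B2
import Pool.Agent.GCP.C19B3
import Pool.Agent.GCP.C19B4
import Pool.Agent.GCP.C19B5
import Pool.Agent.GCP.C19B6
import Pool.Agent.GCP.C19B7
import Pool.Agent.GCP.C19B8
import Pool.Agent.GCP.C19B9
import Pool.Agent.GCP.C19B10
import Pool.Agent.GCP.C19B11

set_option autoImplicit false
set_option maxRecDepth 100000

/-! # Case C19 (generated) -/

namespace Pool.Agent.GCP.C19

open Pool.Agent.GCP DB

open W

theorem a0 : B 0 64 := b0
theorem a1 : B 0 128 := a0.trans b1
theorem a2 : B 0 192 := a1.trans b2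
theorem a3 : B 0 256 := a2.trans b3
theorem a4 : B 0 320 := a3.trans b4
theorem a5 : B 0 384 := a4.trans b5
theorem a6 : B 0 448 := a5.trans b6
theorem a7 : B 0 512 := a6.trans b7
theorem a8 : B 0 576 := a7.trans b8
theorem a9 : B 0 640 := a8.trans b9
theorem a10 : B 0 704 := a9.trans b10
theorem a11 : B 0 768 := a10.trans b11
theorem a12 : B 0 832 := a11.trans b12
theorem a13 : B 0 896 := a12.trans b13
theorem a14 : B 0 960 := a13.trans b14
theorem a15 : B 0 1024 := a14.trans b15
theorem a16 : B 0 1088 := a15.trans b16
theorem a17 : B 0 1152 := a16.trans b17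
theorem a18 : B 0 1216 := a17.trans b18
theorem a19 : B 0 1280 := a18.trans b19
theorem a20 : B 0 1344 := a19.trans b20
theorem a21 : B 0 1408 := a20.trans b21
theorem a22 : B 0 1472 := a21.trans b22
theorem a23 : B 0 1536 := a22.trans b23
theorem a24 : B 0 1600 := a23.trans b24
theorem a25 : B 0 1664 := a24.trans b25
theorem a26 : B 0 1728 := a25.trans b26
theorem a27 : B 0 1792 := a26.trans b27
theorem a28 : B 0 1856 := a27.trans b28
theorem a29 : B 0 1920 := a28.trans b29
theorem a30 : B 0 1984 := a29.trans b30
theorem a31 : B 0 2048 := a30.trans b31
theorem a32 : B 0 2112 := a31.trans b32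
theorem a33 : B 0 2176 := a32.trans b33
theorem a34 : B 0 2240 := a33.trans b34
theorem a35 : B 0 2304 := a34.trans b35
theorem a36 : B 0 2368 := a35.trans b36
theorem a37 : B 0 2432 := a36.trans b37
theorem a38 : B 0 2496 := a37.trans b38
theorem a39 : B 0 2560 := a38.trans b39
theorem a40 : B 0 2624 := a39.trans b40
theorem a41 : B 0 2688 := a40.trans b41
theorem a42 : B 0 2752 := a41.trans b42
theorem a43 : B 0 2816 := a42.trans b43
theorem a44 : B 0 2880 := a43.trans b44
theorem a45 : B 0 2944 := a44.trans b45
theorem a46 : B 0 3008 := a45.trans b46
theorem a47 : B 0 3072 := a46.trans b47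
theorem a48 : B 0 3136 := a47.trans b48
theorem a49 : B 0 3200 := a48.trans b49
theorem a50 : B 0 3264 := a49.trans b50
theorem a51 : B 0 3328 := a50.trans b51
theorem a52 : B 0 3392 := a51.trans b52
theorem a53 : B 0 3456 := a52.trans b53
theorem a54 : B 0 3520 := a53.trans b54
theorem a55 : B 0 3584 := a54.trans b55
theorem a56 : B 0 3648 := a55.trans b56
theorem a57 : B 0 3712 := a56.trans b57
theorem a58 : B 0 3776 := a57.trans b58
theorem a59 : B 0 3840 := a58.trans b59
theorem a60 : B 0 3904 := a59.trans b60
theorem a61 : B 0 3968 := a60.trans b61
theorem a62 : B 0 4032 := a61.trans b62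
theorem a63 : B 0 4096 := a62.trans b63
theorem a64 : B 0 4160 := a63.trans b64
theorem a65 : B 0 4224 := a64.trans b65
theorem a66 : B 0 4288 := a65.trans b66
theorem a67 : B 0 4352 := a66.trans b67
theorem a68 : B 0 4416 := a67.trans b68
theorem a69 : B 0 4480 := a68.trans b69
theorem a70 : B 0 4544 := a69.trans b70
theorem a71 : B 0 4608 := a70.trans b71
theorem a72 : B 0 4672 := a71.trans b72
theorem a73 : B 0 4736 := a72.trans b73
theorem a74 : B 0 4800 := a73.trans b74
theorem a75 : B 0 4864 := a74.trans b75
theorem a76 : B 0 4928 := a75.trans b76
theorem a77 : B 0 4992 := a76.trans b77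
theorem a78 : B 0 5056 := a77.trans b78
theorem a79 : B 0 5120 := a78.trans b79
theorem a80 : B 0 5184 := a79.trans b80
theorem a81 : B 0 5248 := a80.trans b81
theorem a82 : B 0 5312 := a81.trans b82
theorem a83 : B 0 5376 := a82.trans b83
theorem a84 : B 0 5440 := a83.trans b84
theorem a85 : B 0 5504 := a84.trans b85
theorem a86 : B 0 5568 := a85.trans b86
theorem a87 : B 0 5632 := a86.trans b87
theorem a88 : B 0 5696 := a87.trans b88
theorem a89 : B 0 5760 := a88.trans b89
theorem a90 : B 0 5824 := a89.trans b90
theorem a91 : B 0 5888 := a90.trans b91
theorem a92 : B 0 5952 := a91.trans b92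
theorem a93 : B 0 6016 := a92.trans b93
theorem a94 : B 0 6080 := a93.trans b94
theorem a95 : B 0 6144 := a94.trans b95
theorem a96 : B 0 6208 := a95.trans b96
theorem a97 : B 0 6272 := a96.trans b97
theorem a98 : B 0 6336 := a97.trans b98
theorem a99 : B 0 6400 := a98.trans b99
theorem a100 : B 0 6464 := a99.trans b100
theorem a101 : B 0 6528 := a100.trans b101
theorem a102 : B 0 6592 := a101.trans b102
theorem a103 : B 0 6656 := a102.trans b103
theorem a104 : B 0 6720 := a103.trans b104
theorem a105 : B 0 6784 := a104.trans b105
theorem a106 : B 0 6848 := a105.trans b106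
theorem a107 : B 0 6912 := a106.trans b107
theorem a108 : B 0 6976 := a107.trans b108
theorem a109 : B 0 7040 := a108.trans b109
theorem a110 : B 0 7104 := a109.trans b110
theorem a111 : B 0 7168 := a110.trans b111
theorem a112 : B 0 7232 := a111.trans b112
theorem a113 : B 0 7296 := a112.trans b113
theorem a114 : B 0 7360 := a113.trans b114
theorem a115 : B 0 7424 := a114.trans b115
theorem a116 : B 0 7488 := a115.trans b116
theorem a117 : B 0 7552 := a116.trans b117
theorem a118 : B 0 7616 := a117.trans b118
theorem a119 : B 0 7680 := a118.trans b119
theorem a120 : B 0 7744 := a119.trans b120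
theorem a121 : B 0 7808 := a120.trans b121
theorem a122 : B 0 7872 := a121.trans b122
theorem a123 : B 0 7936 := a122.trans b123
theorem a124 : B 0 8000 := a123.trans b124
theorem a125 : B 0 8064 := a124.trans b125
theorem a126 : B 0 8128 := a125.trans b126
theorem a127 : B 0 8192 := a126.trans b127
theorem a128 : B 0 8256 := a127.trans b128
theorem a129 : B 0 8320 := a128.trans b129
theorem a130 : B 0 8384 := a129.trans b130
theorem a131 : B 0 8448 := a130.trans b131
theorem a132 : B 0 8512 := a131.trans b132
theorem a133 : B 0 8576 := a132.trans b133
theorem a134 : B 0 8640 := a133.trans b134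
theorem a135 : B 0 8704 := a134.trans b135
theorem a136 : B 0 8768 := a135.trans b136
theorem a137 : B 0 8832 := a136.trans b137
theorem a138 : B 0 8896 := a137.trans b138
theorem a139 : B 0 8960 := a138.trans b139
theorem a140 : B 0 9024 := a139.trans b140
theorem a141 : B 0 9088 := a140.trans b141
theorem a142 : B 0 9152 := a141.trans b142
theorem a143 : B 0 9216 := a142.trans b143
theorem a144 : B 0 9280 := a143.trans b144
theorem a145 : B 0 9344 := a144.trans b145
theorem a146 : B 0 9408 := a145.trans b146
theorem a147 : B 0 9472 := a146.trans b147
theorem a148 : B 0 9536 := a147.trans b148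
theorem a149 : B 0 9600 := a148.trans b149
theorem a150 : B 0 9664 := a149.trans b150
theorem a151 : B 0 9728 := a150.trans b151
theorem a152 : B 0 9792 := a151.trans b152
theorem a153 : B 0 9856 := a152.trans b153
theorem a154 : B 0 9920 := a153.trans b154
theorem a155 : B 0 9984 := a154.trans b155
theorem a156 : B 0 10048 := a155.trans b156
theorem a157 : B 0 10112 := a156.trans b157
theorem a158 : B 0 10176 := a157.trans b158
theorem a159 : B 0 10240 := a158.trans b159
theorem a160 : B 0 10304 := a159.trans b160
theorem a161 : B 0 10368 := a160.trans b161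
theorem a162 : B 0 10432 := a161.trans b162
theorem a163 : B 0 10496 := a162.trans b163
theorem a164 : B 0 10560 := a163.trans b164
theorem a165 : B 0 10624 := a164.trans b165
theorem a166 : B 0 10688 := a165.trans b166
theorem a167 : B 0 10752 := a166.trans b167
theorem a168 : B 0 10816 := a167.trans b168
theorem a169 : B 0 10880 := a168.trans b169
theorem a170 : B 0 10944 := a169.trans b170
theorem a171 : B 0 11008 := a170.trans b171
theorem a172 : B 0 11072 := a171.trans b172
theorem a173 : B 0 11136 := a172.trans b173
theorem a174 : B 0 11200 := a173.trans b174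
theorem a175 : B 0 11264 := a174.trans b175
theorem a176 : B 0 11328 := a175.trans b176
theorem a177 : B 0 11392 := a176.trans b177
theorem a178 : B 0 11456 := a177.trans b178
theorem a179 : B 0 11520 := a178.trans b179
theorem a180 : B 0 11584 := a179.trans b180
theorem a181 : B 0 11648 := a180.trans b181
theorem a182 : B 0 11712 := a181.trans b182
theorem a183 : B 0 11776 := a182.trans b183
theorem a184 : B 0 11840 := a183.trans b184
theorem a185 : B 0 11904 := a184.trans b185
theorem a186 : B 0 11968 := a185.trans b186
theorem a187 : B 0 12032 := a186.trans b187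
theorem a188 : B 0 12096 := a187.trans b188
theorem a189 : B 0 12160 := a188.trans b189
theorem a190 : B 0 12224 := a189.trans b190
theorem a191 : B 0 12288 := a190.trans b191
theorem a192 : B 0 12352 := a191.trans b192
theorem a193 : B 0 12416 := a192.trans b193
theorem a194 : B 0 12480 := a193.trans b194
theorem a195 : B 0 12544 := a194.trans b195
theorem a196 : B 0 12608 := a195.trans b196
theorem a197 : B 0 12672 := a196.trans b197
theorem a198 : B 0 12736 := a197.trans b198
theorem a199 : B 0 12800 := a198.trans b199
theorem a200 : B 0 12864 := a199.trans b200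
theorem a201 : B 0 12928 := a200.trans b201
theorem a202 : B 0 12992 := a201.trans b202
theorem a203 : B 0 13056 := a202.trans b203
theorem a204 : B 0 13120 := a203.trans b204
theorem a205 : B 0 13184 := a204.trans b205
theorem a206 : B 0 13248 := a205.trans b206
theorem a207 : B 0 13312 := a206.trans b207
theorem a208 : B 0 13376 := a207.trans b208
theorem a209 : B 0 13440 := a208.trans b209
theorem a210 : B 0 13504 := a209.trans b210
theorem a211 : B 0 13568 := a210.trans b211
theorem a212 : B 0 13632 := a211.trans b212
theorem a213 : B 0 13696 := a212.trans b213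
theorem a214 : B 0 13760 := a213.trans b214
theorem a215 : B 0 13824 := a214.trans b215
theorem a216 : B 0 13888 := a215.trans b216
theorem a217 : B 0 13952 := a216.trans b217
theorem a218 : B 0 14016 := a217.trans b218
theorem a219 : B 0 14080 := a218.trans b219
theorem a220 : B 0 14144 := a219.trans b220
theorem a221 : B 0 14208 := a220.trans b221
theorem a222 : B 0 14272 := a221.trans b222
theorem a223 : B 0 14336 := a222.trans b223
theorem a224 : B 0 14400 := a223.trans b224
theorem a225 : B 0 14464 := a224.trans b225
theorem a226 : B 0 14528 := a225.trans b226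
theorem a227 : B 0 14592 := a226.trans b227
theorem a228 : B 0 14656 := a227.trans b228
theorem a229 : B 0 14720 := a228.trans b229
theorem a230 : B 0 14784 := a229.trans b230
theorem a231 : B 0 14848 := a230.trans b231
theorem a232 : B 0 14912 := a231.trans b232
theorem a233 : B 0 14976 := a232.trans b233
theorem a234 : B 0 15040 := a233.trans b234
theorem a235 : B 0 15104 := a234.trans b235
theorem a236 : B 0 15168 := a235.trans b236
theorem a237 : B 0 15232 := a236.trans b237
theorem a238 : B 0 15296 := a237.trans b238
theorem a239 : B 0 15360 := a238.trans b239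
theorem a240 : B 0 15424 := a239.trans b240
theorem a241 : B 0 15488 := a240.trans b241
theorem a242 : B 0 15552 := a241.trans b242
theorem a243 : B 0 15616 := a242.trans b243
theorem a244 : B 0 15680 := a243.trans b244
theorem a245 : B 0 15744 := a244.trans b245
theorem a246 : B 0 15808 := a245.trans b246
theorem a247 : B 0 15872 := a246.trans b247
theorem a248 : B 0 15936 := a247.trans b248
theorem a249 : B 0 16000 := a248.trans b249
theorem a250 : B 0 16064 := a249.trans b250
theorem a251 : B 0 16128 := a250.trans b251
theorem a252 : B 0 16192 := a251.trans b252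
theorem a253 : B 0 16256 := a252.trans b253
theorem a254 : B 0 16320 := a253.trans b254
theorem a255 : B 0 16384 := a254.trans b255
theorem a256 : B 0 16448 := a255.trans b256
theorem a257 : B 0 16512 := a256.trans b257
theorem a258 : B 0 16576 := a257.trans b258
theorem a259 : B 0 16640 := a258.trans b259
theorem a260 : B 0 16704 := a259.trans b260
theorem a261 : B 0 16768 := a260.trans b261
theorem a262 : B 0 16832 := a261.trans b262
theorem a263 : B 0 16896 := a262.trans b263
theorem a264 : B 0 16960 := a263.trans b264
theorem a265 : B 0 17024 := a264.trans b265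
theorem a266 : B 0 17088 := a265.trans b266
theorem a267 : B 0 17152 := a266.trans b267
theorem a268 : B 0 17216 := a267.trans b268
theorem a269 : B 0 17280 := a268.trans b269
theorem a270 : B 0 17344 := a269.trans b270
theorem a271 : B 0 17408 := a270.trans b271
theorem a272 : B 0 17472 := a271.trans b272
theorem a273 : B 0 17536 := a272.trans b273
theorem a274 : B 0 17600 := a273.trans b274
theorem a275 : B 0 17664 := a274.trans b275
theorem a276 : B 0 17728 := a275.trans b276
theorem a277 : B 0 17792 := a276.trans b277
theorem a278 : B 0 17856 := a277.trans b278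
theorem a279 : B 0 17920 := a278.trans b279
theorem a280 : B 0 17984 := a279.trans b280
theorem a281 : B 0 18048 := a280.trans b281
theorem a282 : B 0 18112 := a281.trans b282
theorem a283 : B 0 18176 := a282.trans b283
theorem a284 : B 0 18240 := a283.trans b284
theorem a285 : B 0 18304 := a284.trans b285
theorem a286 : B 0 18368 := a285.trans b286
theorem a287 : B 0 18432 := a286.trans b287
theorem a288 : B 0 18496 := a287.trans b288
theorem a289 : B 0 18560 := a288.trans b289
theorem a290 : B 0 18624 := a289.trans b290
theorem a291 : B 0 18688 := a290.trans b291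
theorem a292 : B 0 18752 := a291.trans b292
theorem a293 : B 0 18816 := a292.trans b293
theorem a294 : B 0 18880 := a293.trans b294
theorem a295 : B 0 18944 := a294.trans b295
theorem a296 : B 0 19008 := a295.trans b296
theorem a297 : B 0 19072 := a296.trans b297
theorem a298 : B 0 19136 := a297.trans b298
theorem a299 : B 0 19200 := a298.trans b299
theorem a300 : B 0 19264 := a299.trans b300
theorem a301 : B 0 19328 := a300.trans b301
theorem a302 : B 0 19392 := a301.trans b302
theorem a303 : B 0 19456 := a302.trans b303
theorem a304 : B 0 19520 := a303.trans b304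
theorem a305 : B 0 19584 := a304.trans b305
theorem a306 : B 0 19648 := a305.trans b306
theorem a307 : B 0 19712 := a306.trans b307
theorem a308 : B 0 19776 := a307.trans b308
theorem a309 : B 0 19840 := a308.trans b309
theorem a310 : B 0 19904 := a309.trans b310
theorem a311 : B 0 19968 := a310.trans b311
theorem a312 : B 0 20032 := a311.trans b312
theorem a313 : B 0 20096 := a312.trans b313
theorem a314 : B 0 20160 := a313.trans b314
theorem a315 : B 0 20224 := a314.trans b315
theorem a316 : B 0 20288 := a315.trans b316
theorem a317 : B 0 20352 := a316.trans b317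
theorem a318 : B 0 20416 := a317.trans b318
theorem a319 : B 0 20480 := a318.trans b319
theorem a320 : B 0 20544 := a319.trans b320
theorem a321 : B 0 20608 := a320.trans b321
theorem a322 : B 0 20672 := a321.trans b322
theorem a323 : B 0 20736 := a322.trans b323
theorem a324 : B 0 20800 := a323.trans b324
theorem a325 : B 0 20864 := a324.trans b325
theorem a326 : B 0 20928 := a325.trans b326
theorem a327 : B 0 20992 := a326.trans b327
theorem a328 : B 0 21056 := a327.trans b328
theorem a329 : B 0 21120 := a328.trans b329
theorem a330 : B 0 21184 := a329.trans b330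
theorem a331 : B 0 21248 := a330.trans b331
theorem a332 : B 0 21312 := a331.trans b332
theorem a333 : B 0 21376 := a332.trans b333
theorem a334 : B 0 21440 := a333.trans b334
theorem a335 : B 0 21504 := a334.trans b335
theorem a336 : B 0 21568 := a335.trans b336
theorem a337 : B 0 21632 := a336.trans b337
theorem a338 : B 0 21696 := a337.trans b338
theorem a339 : B 0 21760 := a338.trans b339
theorem a340 : B 0 21824 := a339.trans b340
theorem a341 : B 0 21888 := a340.trans b341
theorem a342 : B 0 21952 := a341.trans b342
theorem a343 : B 0 22016 := a342.trans b343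
theorem a344 : B 0 22080 := a343.trans b344
theorem a345 : B 0 22144 := a344.trans b345
theorem a346 : B 0 22208 := a345.trans b346
theorem a347 : B 0 22272 := a346.trans b347
theorem a348 : B 0 22336 := a347.trans b348
theorem a349 : B 0 22400 := a348.trans b349
theorem a350 : B 0 22464 := a349.trans b350
theorem a351 : B 0 22528 := a350.trans b351
theorem a352 : B 0 22592 := a351.trans b352
theorem a353 : B 0 22656 := a352.trans b353
theorem a354 : B 0 22720 := a353.trans b354
theorem a355 : B 0 22784 := a354.trans b355
theorem a356 : B 0 22848 := a355.trans b356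
theorem a357 : B 0 22912 := a356.trans b357
theorem a358 : B 0 22976 := a357.trans b358
theorem a359 : B 0 23040 := a358.trans b359
theorem a360 : B 0 23104 := a359.trans b360
theorem a361 : B 0 23168 := a360.trans b361
theorem a362 : B 0 23232 := a361.trans b362
theorem a363 : B 0 23296 := a362.trans b363
theorem a364 : B 0 23360 := a363.trans b364
theorem a365 : B 0 23424 := a364.trans b365
theorem a366 : B 0 23488 := a365.trans b366
theorem a367 : B 0 23552 := a366.trans b367
theorem a368 : B 0 23616 := a367.trans b368
theorem a369 : B 0 23680 := a368.trans b369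
theorem a370 : B 0 23744 := a369.trans b370
theorem a371 : B 0 23808 := a370.trans b371
theorem a372 : B 0 23872 := a371.trans b372
theorem a373 : B 0 23936 := a372.trans b373
theorem a374 : B 0 24000 := a373.trans b374
theorem a375 : B 0 24064 := a374.trans b375
theorem a376 : B 0 24128 := a375.trans b376
theorem a377 : B 0 24192 := a376.trans b377
theorem a378 : B 0 24256 := a377.trans b378
theorem a379 : B 0 24320 := a378.trans b379
theorem a380 : B 0 24384 := a379.trans b380
theorem a381 : B 0 24448 := a380.trans b381
theorem a382 : B 0 24512 := a381.trans b382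
theorem a383 : B 0 24576 := a382.trans b383
theorem a384 : B 0 24640 := a383.trans b384
theorem a385 : B 0 24704 := a384.trans b385
theorem a386 : B 0 24768 := a385.trans b386
theorem a387 : B 0 24832 := a386.trans b387
theorem a388 : B 0 24896 := a387.trans b388
theorem a389 : B 0 24960 := a388.trans b389
theorem a390 : B 0 25024 := a389.trans b390
theorem a391 : B 0 25088 := a390.trans b391
theorem a392 : B 0 25152 := a391.trans b392
theorem a393 : B 0 25216 := a392.trans b393
theorem a394 : B 0 25280 := a393.trans b394
theorem a395 : B 0 25344 := a394.trans b395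
theorem a396 : B 0 25408 := a395.trans b396
theorem a397 : B 0 25472 := a396.trans b397
theorem a398 : B 0 25536 := a397.trans b398
theorem a399 : B 0 25600 := a398.trans b399
theorem a400 : B 0 25664 := a399.trans b400
theorem a401 : B 0 25728 := a400.trans b401
theorem a402 : B 0 25792 := a401.trans b402
theorem a403 : B 0 25856 := a402.trans b403
theorem a404 : B 0 25920 := a403.trans b404
theorem a405 : B 0 25984 := a404.trans b405
theorem a406 : B 0 26048 := a405.trans b406
theorem a407 : B 0 26112 := a406.trans b407
theorem a408 : B 0 26176 := a407.trans b408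
theorem a409 : B 0 26240 := a408.trans b409
theorem a410 : B 0 26304 := a409.trans b410
theorem a411 : B 0 26368 := a410.trans b411
theorem a412 : B 0 26432 := a411.trans b412
theorem a413 : B 0 26496 := a412.trans b413
theorem a414 : B 0 26560 := a413.trans b414
theorem a415 : B 0 26624 := a414.trans b415
theorem a416 : B 0 26688 := a415.trans b416
theorem a417 : B 0 26752 := a416.trans b417
theorem a418 : B 0 26816 := a417.trans b418
theorem a419 : B 0 26880 := a418.trans b419
theorem a420 : B 0 26944 := a419.trans b420
theorem a421 : B 0 27008 := a420.trans b421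
theorem a422 : B 0 27072 := a421.trans b422
theorem a423 : B 0 27136 := a422.trans b423
theorem a424 : B 0 27200 := a423.trans b424
theorem a425 : B 0 27264 := a424.trans b425
theorem a426 : B 0 27328 := a425.trans b426
theorem a427 : B 0 27392 := a426.trans b427
theorem a428 : B 0 27456 := a427.trans b428
theorem a429 : B 0 27520 := a428.trans b429
theorem a430 : B 0 27584 := a429.trans b430
theorem a431 : B 0 27648 := a430.trans b431
theorem a432 : B 0 27712 := a431.trans b432
theorem a433 : B 0 27776 := a432.trans b433
theorem a434 : B 0 27840 := a433.trans b434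
theorem a435 : B 0 27904 := a434.trans b435
theorem a436 : B 0 27968 := a435.trans b436
theorem a437 : B 0 28032 := a436.trans b437
theorem a438 : B 0 28096 := a437.trans b438
theorem a439 : B 0 28160 := a438.trans b439
theorem a440 : B 0 28224 := a439.trans b440
theorem a441 : B 0 28288 := a440.trans b441
theorem a442 : B 0 28352 := a441.trans b442
theorem a443 : B 0 28416 := a442.trans b443
theorem a444 : B 0 28480 := a443.trans b444
theorem a445 : B 0 28544 := a444.trans b445
theorem a446 : B 0 28608 := a445.trans b446
theorem a447 : B 0 28672 := a446.trans b447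
theorem a448 : B 0 28736 := a447.trans b448
theorem a449 : B 0 28800 := a448.trans b449
theorem a450 : B 0 28864 := a449.trans b450
theorem a451 : B 0 28928 := a450.trans b451
theorem a452 : B 0 28992 := a451.trans b452
theorem a453 : B 0 29056 := a452.trans b453
theorem a454 : B 0 29120 := a453.trans b454
theorem a455 : B 0 29184 := a454.trans b455
theorem a456 : B 0 29248 := a455.trans b456
theorem a457 : B 0 29312 := a456.trans b457
theorem a458 : B 0 29376 := a457.trans b458
theorem a459 : B 0 29440 := a458.trans b459
theorem a460 : B 0 29504 := a459.trans b460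
theorem a461 : B 0 29568 := a460.trans b461
theorem a462 : B 0 29632 := a461.trans b462
theorem a463 : B 0 29696 := a462.trans b463
theorem a464 : B 0 29760 := a463.trans b464
theorem a465 : B 0 29824 := a464.trans b465
theorem a466 : B 0 29888 := a465.trans b466
theorem a467 : B 0 29952 := a466.trans b467
theorem a468 : B 0 30016 := a467.trans b468
theorem a469 : B 0 30080 := a468.trans b469
theorem a470 : B 0 30144 := a469.trans b470
theorem a471 : B 0 30208 := a470.trans b471
theorem a472 : B 0 30272 := a471.trans b472
theorem a473 : B 0 30336 := a472.trans b473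
theorem a474 : B 0 30400 := a473.trans b474
theorem a475 : B 0 30464 := a474.trans b475
theorem a476 : B 0 30528 := a475.trans b476
theorem a477 : B 0 30592 := a476.trans b477
theorem a478 : B 0 30656 := a477.trans b478
theorem a479 : B 0 30720 := a478.trans b479
theorem a480 : B 0 30784 := a479.trans b480
theorem a481 : B 0 30848 := a480.trans b481
theorem a482 : B 0 30912 := a481.trans b482
theorem a483 : B 0 30976 := a482.trans b483
theorem a484 : B 0 31040 := a483.trans b484
theorem a485 : B 0 31104 := a484.trans b485
theorem a486 : B 0 31168 := a485.trans b486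
theorem a487 : B 0 31232 := a486.trans b487
theorem a488 : B 0 31296 := a487.trans b488
theorem a489 : B 0 31360 := a488.trans b489
theorem a490 : B 0 31424 := a489.trans b490
theorem a491 : B 0 31488 := a490.trans b491
theorem a492 : B 0 31552 := a491.trans b492
theorem a493 : B 0 31616 := a492.trans b493
theorem a494 : B 0 31680 := a493.trans b494
theorem a495 : B 0 31744 := a494.trans b495
theorem a496 : B 0 31808 := a495.trans b496
theorem a497 : B 0 31872 := a496.trans b497
theorem a498 : B 0 31936 := a497.trans b498
theorem a499 : B 0 32000 := a498.trans b499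
theorem a500 : B 0 32064 := a499.trans b500
theorem a501 : B 0 32128 := a500.trans b501
theorem a502 : B 0 32192 := a501.trans b502
theorem a503 : B 0 32256 := a502.trans b503
theorem a504 : B 0 32320 := a503.trans b504
theorem a505 : B 0 32384 := a504.trans b505
theorem a506 : B 0 32448 := a505.trans b506
theorem a507 : B 0 32512 := a506.trans b507
theorem a508 : B 0 32576 := a507.trans b508
theorem a509 : B 0 32640 := a508.trans b509
theorem a510 : B 0 32704 := a509.trans b510
theorem a511 : B 0 32768 := a510.trans b511
theorem a512 : B 0 32832 := a511.trans b512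
theorem a513 : B 0 32896 := a512.trans b513
theorem a514 : B 0 32960 := a513.trans b514
theorem a515 : B 0 33024 := a514.trans b515
theorem a516 : B 0 33088 := a515.trans b516
theorem a517 : B 0 33152 := a516.trans b517
theorem a518 : B 0 33216 := a517.trans b518
theorem a519 : B 0 33280 := a518.trans b519
theorem a520 : B 0 33344 := a519.trans b520
theorem a521 : B 0 33408 := a520.trans b521
theorem a522 : B 0 33472 := a521.trans b522
theorem a523 : B 0 33536 := a522.trans b523
theorem a524 : B 0 33600 := a523.trans b524
theorem a525 : B 0 33664 := a524.trans b525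
theorem a526 : B 0 33728 := a525.trans b526
theorem a527 : B 0 33792 := a526.trans b527
theorem a528 : B 0 33856 := a527.trans b528
theorem a529 : B 0 33920 := a528.trans b529
theorem a530 : B 0 33984 := a529.trans b530
theorem a531 : B 0 34048 := a530.trans b531
theorem a532 : B 0 34112 := a531.trans b532
theorem a533 : B 0 34176 := a532.trans b533
theorem a534 : B 0 34240 := a533.trans b534
theorem a535 : B 0 34304 := a534.trans b535
theorem a536 : B 0 34368 := a535.trans b536
theorem a537 : B 0 34432 := a536.trans b537
theorem a538 : B 0 34496 := a537.trans b538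
theorem a539 : B 0 34560 := a538.trans b539
theorem a540 : B 0 34624 := a539.trans b540
theorem a541 : B 0 34688 := a540.trans b541
theorem a542 : B 0 34752 := a541.trans b542
theorem a543 : B 0 34816 := a542.trans b543
theorem a544 : B 0 34880 := a543.trans b544
theorem a545 : B 0 34944 := a544.trans b545
theorem a546 : B 0 35008 := a545.trans b546
theorem a547 : B 0 35072 := a546.trans b547
theorem a548 : B 0 35136 := a547.trans b548
theorem a549 : B 0 35200 := a548.trans b549
theorem a550 : B 0 35264 := a549.trans b550
theorem a551 : B 0 35328 := a550.trans b551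
theorem a552 : B 0 35392 := a551.trans b552
theorem a553 : B 0 35456 := a552.trans b553
theorem a554 : B 0 35520 := a553.trans b554
theorem a555 : B 0 35584 := a554.trans b555
theorem a556 : B 0 35648 := a555.trans b556
theorem a557 : B 0 35712 := a556.trans b557
theorem a558 : B 0 35776 := a557.trans b558
theorem a559 : B 0 35840 := a558.trans b559
theorem a560 : B 0 35904 := a559.trans b560
theorem a561 : B 0 35968 := a560.trans b561
theorem a562 : B 0 36032 := a561.trans b562
theorem a563 : B 0 36096 := a562.trans b563
theorem a564 : B 0 36160 := a563.trans b564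
theorem a565 : B 0 36224 := a564.trans b565
theorem a566 : B 0 36288 := a565.trans b566
theorem a567 : B 0 36352 := a566.trans b567
theorem a568 : B 0 36416 := a567.trans b568
theorem a569 : B 0 36480 := a568.trans b569
theorem a570 : B 0 36544 := a569.trans b570
theorem a571 : B 0 36608 := a570.trans b571
theorem a572 : B 0 36672 := a571.trans b572
theorem a573 : B 0 36736 := a572.trans b573
theorem a574 : B 0 36800 := a573.trans b574
theorem a575 : B 0 36864 := a574.trans b575
theorem a576 : B 0 36928 := a575.trans b576
theorem a577 : B 0 36992 := a576.trans b577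
theorem a578 : B 0 37056 := a577.trans b578
theorem a579 : B 0 37120 := a578.trans b579
theorem a580 : B 0 37184 := a579.trans b580
theorem a581 : B 0 37248 := a580.trans b581
theorem a582 : B 0 37312 := a581.trans b582
theorem a583 : B 0 37376 := a582.trans b583
theorem a584 : B 0 37440 := a583.trans b584
theorem a585 : B 0 37504 := a584.trans b585
theorem a586 : B 0 37568 := a585.trans b586
theorem a587 : B 0 37632 := a586.trans b587
theorem a588 : B 0 37696 := a587.trans b588
theorem a589 : B 0 37760 := a588.trans b589
theorem a590 : B 0 37824 := a589.trans b590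
theorem a591 : B 0 37888 := a590.trans b591
theorem a592 : B 0 37952 := a591.trans b592
theorem a593 : B 0 38016 := a592.trans b593
theorem a594 : B 0 38080 := a593.trans b594
theorem a595 : B 0 38144 := a594.trans b595
theorem a596 : B 0 38208 := a595.trans b596
theorem a597 : B 0 38272 := a596.trans b597
theorem a598 : B 0 38336 := a597.trans b598
theorem a599 : B 0 38400 := a598.trans b599
theorem a600 : B 0 38464 := a599.trans b600
theorem a601 : B 0 38528 := a600.trans b601
theorem a602 : B 0 38592 := a601.trans b602
theorem a603 : B 0 38656 := a602.trans b603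
theorem a604 : B 0 38720 := a603.trans b604
theorem a605 : B 0 38784 := a604.trans b605
theorem a606 : B 0 38848 := a605.trans b606
theorem a607 : B 0 38912 := a606.trans b607
theorem a608 : B 0 38976 := a607.trans b608
theorem a609 : B 0 39040 := a608.trans b609
theorem a610 : B 0 39104 := a609.trans b610
theorem a611 : B 0 39168 := a610.trans b611
theorem a612 : B 0 39232 := a611.trans b612
theorem a613 : B 0 39296 := a612.trans b613
theorem a614 : B 0 39360 := a613.trans b614
theorem a615 : B 0 39424 := a614.trans b615
theorem a616 : B 0 39488 := a615.trans b616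
theorem a617 : B 0 39552 := a616.trans b617
theorem a618 : B 0 39616 := a617.trans b618
theorem a619 : B 0 39680 := a618.trans b619
theorem a620 : B 0 39744 := a619.trans b620
theorem a621 : B 0 39808 := a620.trans b621
theorem a622 : B 0 39872 := a621.trans b622
theorem a623 : B 0 39936 := a622.trans b623
theorem a624 : B 0 40000 := a623.trans b624
theorem a625 : B 0 40064 := a624.trans b625
theorem a626 : B 0 40128 := a625.trans b626
theorem a627 : B 0 40192 := a626.trans b627
theorem a628 : B 0 40256 := a627.trans b628
theorem a629 : B 0 40320 := a628.trans b629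
theorem a630 : B 0 40384 := a629.trans b630
theorem a631 : B 0 40448 := a630.trans b631
theorem a632 : B 0 40512 := a631.trans b632
theorem a633 : B 0 40576 := a632.trans b633
theorem a634 : B 0 40640 := a633.trans b634
theorem a635 : B 0 40704 := a634.trans b635
theorem a636 : B 0 40768 := a635.trans b636
theorem a637 : B 0 40832 := a636.trans b637
theorem a638 : B 0 40896 := a637.trans b638
theorem a639 : B 0 40960 := a638.trans b639
theorem a640 : B 0 41024 := a639.trans b640
theorem a641 : B 0 41088 := a640.trans b641
theorem a642 : B 0 41152 := a641.trans b642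
theorem a643 : B 0 41216 := a642.trans b643
theorem a644 : B 0 41280 := a643.trans b644
theorem a645 : B 0 41344 := a644.trans b645
theorem a646 : B 0 41408 := a645.trans b646
theorem a647 : B 0 41472 := a646.trans b647
theorem a648 : B 0 41503 := a647.trans b648

theorem main {P : ℕ → Pt} {Bl : ℕ → Prop} (H : Hy 19 5 P Bl) : False := by
  have hth : ∀ x T F, Asg (vw 19 P (fun v => Bl (v + 12))) T F → th x T F = true → False :=
    thw_sound H (by decide)
  have h1 := a648 _ (base hth) hth (fun k hk => absurd hk (Nat.not_lt_zero k))
  have hl : tgtOK db 41503 [41502] [(0, 0)] = true := by decide +kernel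
  exact not_hold_empty _ (tgt_sound hl h1 (0, 0) (by simp))

end Pool.Agent.GCP.C19
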