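import Pool.Agent.GCP.C19Db

set_option autoImplicit false
set_option maxRecDepth 100000

/-! # Blocks C19B0 (generated) -/

namespace Pool.Agent.GCP.C19

open Pool.Agent.GCP DB

theorem b0 : B 0 64 := Blk.of_chk [.t 1 (nat_lit 0) (.g 6 4 0 5 8 false true), .t 1 (nat_lit 0) (.bn 98), .t 1 (nat_lit 0) (.bn 111), .t 1 (nat_lit 0) (.g 5 3 0 1 6 false true), .t 1 (nat_lit 0) (.bn 95), .t 1 (nat_lit 0) (.g 5 4 0 3 6 false true), .t 1 (nat_lit 0) (.bn 105), .t 1 (nat_lit 0) (.bn 107), .t 1 (nat_lit 0) (.g 5 0 6 8 10 false true), .t 1 (nat_lit 0) (.bn 118), .t 1 (nat_lit 0) (.bn 94), .t 1 (nat_lit 0) (.bn 103), .t 1 (nat_lit 0) (.bn 101), .t 1 (nat_lit 0) (.bn 113), .t 1 (nat_lit 0) (.bn 106), .t 1 (nat_lit 0) (.bn 114), .t 1 (nat_lit 0) (.g 6 4 0 3 8 false true), .t 1 (nat_lit 0) (.g 3 0 1 2 12 true false), .t 1 (nat_lit 0) (.g 2 13 0 1 3 false true), .t 1 (nat_lit 0) (.g 3 0 1 2 13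 true false), .t 1 (nat_lit 0) (.g 0 3 1 2 14 false true), .t 1 (nat_lit 0) (.g 1 0 2 3 14 false false), .t 1 (nat_lit 0) (.g 3 0 1 2 14 true false), .t 1 (nat_lit 0) (.g 3 0 1 2 15 true false), .t 1 (nat_lit 0) (.g 1 0 2 3 16 false false), .t 1 (nat_lit 0) (.g 0 3 1 2 16 false true), .t 1 (nat_lit 0) (.g 3 0 1 2 16 true false), .t 1 (nat_lit 0) (.g 1 0 2 3 17 false false), .t 1 (nat_lit 0) (.g 0 3 1 2 17 false true), .t 1 (nat_lit 0) (.g 2 17 0 1 3 false true), .t 1 (nat_lit 0) (.g 3 0 1 2 17 true false), .t 1 (nat_lit 0) (.g 1 0 2 3 18 false false), .t 1 (nat_lit 0) (.g 2 18 0 1 3 false true), .t 1 (nat_lit 0) (.g 3 0 1 2 18 true false), .t 1 (nat_lit 0) (.g 1 0 2 4 12 false false), .t 1 (nat_lit 0) (.g 4 0 1 2 12 true false), .t 1 (nat_lit 0) (.g 1 0 2 4 13 false false), .t 1 (nat_lit 0) (.g 2 13 0 1 4 false true), .t 1 (nat_lit 0) (.g 4 0 1 2 13 true false), .t 1 (nat_lit 0)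 (.g 1 0 2 4 14 false false), .t 1 (nat_lit 0) (.g 4 0 1 2 14 true false), .t 1 (nat_lit 0) (.g 0 4 1 2 15 false true), .t 1 (nat_lit 0) (.g 4 0 1 2 15 true false), .t 1 (nat_lit 0) (.g 1 0 2 4 16 false false), .t 1 (nat_lit 0) (.g 0 4 1 2 16 false true), .t 1 (nat_lit 0) (.g 4 0 1 2 16 true false), .t 1 (nat_lit 0) (.g 1 0 2 4 17 false false), .t 1 (nat_lit 0) (.g 4 0 1 2 17 true false), .t 1 (nat_lit 0) (.g 1 0 2 4 18 false false), .t 1 (nat_lit 0) (.g 4 0 1 2 18 true false), .t 1 (nat_lit 0) (.g 1 0 2 5 12 false false), .t 1 (nat_lit 0) (.g 5 0 1 2 12 true false), .t 1 (nat_lit 0) (.g 1 0 2 5 13 false false), .t 1 (nat_lit 0) (.g 2 13 0 1 5 false true), .t 1 (nat_lit 0) (.g 5 0 1 2 13 true false), .t 1 (nat_lit 0) (.g 1 0 2 5 14 false false), .t 1 (nat_lit 0) (.g 0 5 1 2 15 false true), .t 1 (nat_lit 0) (.g 0 5 1 2 16 false true), .t 1 (nat_lit 0) (.g 0 5 1 2 17 false true),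 .t 1 (nat_lit 0) (.g 5 0 1 2 18 true false), .t 1 (nat_lit 0) (.g 1 0 2 6 12 false false), .t 1 (nat_lit 0) (.g 2 12 0 1 6 false true), .t 1 (nat_lit 0) (.g 6 0 1 2 12 true false), .t 1 (nat_lit 0) (.g 1 0 2 6 13 false false)] (by decide +kernel) (by decide +kernel)
theorem b1 : B 64 128 := Blk.of_chk [.t 1 (nat_lit 0) (.g 2 13 0 1 6 false true), .t 1 (nat_lit 0) (.g 6 0 1 2 13 true false), .t 1 (nat_lit 0) (.g 0 6 1 2 14 false true), .t 1 (nat_lit 0) (.g 1 0 2 6 14 false false), .t 1 (nat_lit 0) (.g 2 14 0 1 6 false true), .t 1 (nat_lit 0) (.g 0 6 1 2 15 false true), .t 1 (nat_lit 0) (.g 0 6 1 2 16 false true), .t 1 (nat_lit 0) (.g 0 6 1 2 17 false true), .t 1 (nat_lit 0) (.g 1 0 2 6 18 false false), .t 1 (nat_lit 0) (.g 6 0 1 2 18 true false), .t 1 (nat_lit 0) (.g 1 0 2 7 12 false false), .t 1 (nat_lit 0) (.g 2 12 0 1 7 false true), .t 1 (nat_lit 0) (.g 1 0 2 7 13 false false),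 .t 1 (nat_lit 0) (.g 2 13 0 1 7 false true), .t 1 (nat_lit 0) (.g 7 0 1 2 13 true false), .t 1 (nat_lit 0) (.g 0 7 1 2 14 false true), .t 1 (nat_lit 0) (.g 1 0 2 7 14 false false), .t 1 (nat_lit 0) (.g 7 0 1 2 14 true false), .t 1 (nat_lit 0) (.g 0 7 1 2 15 false true), .t 1 (nat_lit 0) (.g 1 0 2 7 15 false false), .t 1 (nat_lit 0) (.g 0 7 1 2 16 false true), .t 1 (nat_lit 0) (.g 1 0 2 7 16 false false), .t 1 (nat_lit 0) (.g 0 7 1 2 17 false true), .t 1 (nat_lit 0) (.g 1 0 2 7 17 false false), .t 1 (nat_lit 0) (.g 0 7 1 2 18 false true), .t 1 (nat_lit 0) (.g 1 0 2 8 12 false false), .t 1 (nat_lit 0) (.g 2 12 0 1 8 false true), .t 1 (nat_lit 0) (.g 8 0 1 2 12 true false), .t 1 (nat_lit 0) (.g 1 0 2 8 13 false false), .t 1 (nat_lit 0) (.g 2 13 0 1 8 false true), .t 1 (nat_lit 0) (.g 8 0 1 2 13 true false), .t 1 (nat_lit 0) (.g 0 8 1 2 14 false true), .t 1 (nat_lit 0) (.g 1 0 2 8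 14 false false), .t 1 (nat_lit 0) (.g 8 0 1 2 14 true false), .t 1 (nat_lit 0) (.g 0 8 1 2 15 false true), .t 1 (nat_lit 0) (.g 0 8 1 2 16 false true), .t 1 (nat_lit 0) (.g 1 0 2 8 17 false false), .t 1 (nat_lit 0) (.g 8 0 1 2 17 true false), .t 1 (nat_lit 0) (.g 0 8 1 2 18 false true), .t 1 (nat_lit 0) (.g 8 0 1 2 18 true false), .t 1 (nat_lit 0) (.g 1 0 2 9 12 false false), .t 1 (nat_lit 0) (.g 2 12 0 1 9 false true), .t 1 (nat_lit 0) (.g 9 0 1 2 12 true false), .t 1 (nat_lit 0) (.g 1 0 2 9 13 false false), .t 1 (nat_lit 0) (.g 2 13 0 1 9 true true), .t 1 (nat_lit 0) (.g 2 13 0 1 9 false true), .t 1 (nat_lit 0) (.g 9 0 1 2 13 true false), .t 1 (nat_lit 0) (.g 0 9 1 2 14 false true), .t 1 (nat_lit 0) (.g 2 14 0 1 9 false true), .t 1 (nat_lit 0) (.g 9 0 1 2 14 true false), .t 1 (nat_lit 0) (.g 1 0 2 9 15 false false), .t 1 (nat_lit 0) (.g 2 15 0 1 9 true true), .t 1 (nat_lit 0)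 (.g 0 9 1 2 15 false true), .t 1 (nat_lit 0) (.g 2 15 0 1 9 false true), .t 1 (nat_lit 0) (.g 9 0 1 2 15 true false), .t 1 (nat_lit 0) (.g 0 9 1 2 16 false true), .t 1 (nat_lit 0) (.g 2 16 0 1 9 false true), .t 1 (nat_lit 0) (.g 9 0 1 2 16 true false), .t 1 (nat_lit 0) (.g 0 9 1 2 17 false true), .t 1 (nat_lit 0) (.g 2 17 0 1 9 false true), .t 1 (nat_lit 0) (.g 9 0 1 2 17 true false), .t 1 (nat_lit 0) (.g 1 0 2 9 18 false false), .t 1 (nat_lit 0) (.g 2 18 0 1 9 true true), .t 1 (nat_lit 0) (.g 0 9 1 2 18 false true)] (by decide +kernel) (by decide +kernel)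
theorem b2 : B 128 192 := Blk.of_chk [.t 1 (nat_lit 0) (.g 2 18 0 1 9 false true), .t 1 (nat_lit 0) (.g 9 0 1 2 18 true false), .t 1 (nat_lit 0) (.g 1 0 2 10 12 false false), .t 1 (nat_lit 0) (.g 2 12 0 1 10 false true), .t 1 (nat_lit 0) (.g 10 0 1 2 12 true false), .t 1 (nat_lit 0) (.g 1 0 2 10 13 false false), .t 1 (nat_lit 0) (.g 2 13 0 1 10 false true), .t 1 (nat_lit 0) (.g 10 0 1 2 13 true false), .t 1 (nat_lit 0) (.g 0 10 1 2 14 false true), .t 1 (nat_lit 0) (.g 2 14 0 1 10 false true), .t 1 (nat_lit 0) (.g 10 0 1 2 14 true false), .t 1 (nat_lit 0) (.g 1 0 2 10 15 false false), .t 1 (nat_lit 0) (.g 2 15 0 1 10 true true), .t 1 (nat_lit 0) (.g 10 0 1 2 15 true false), .t 1 (nat_lit 0) (.g 0 10 1 2 16 false true), .t 1 (nat_lit 0) (.g 0 10 1 2 17 false true), .t 1 (nat_lit 0) (.g 10 0 1 2 17 true false), .t 1 (nat_lit 0) (.g 0 10 1 2 18 false true), .t 1 (nat_lit 0) (.g 2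 18 0 1 10 false true), .t 1 (nat_lit 0) (.g 10 0 1 2 18 true false), .t 1 (nat_lit 0) (.g 1 12 0 2 11 false false), .t 1 (nat_lit 0) (.g 0 11 1 2 12 true true), .t 1 (nat_lit 0) (.g 1 13 0 2 11 false false), .t 1 (nat_lit 0) (.g 1 11 0 2 13 false false), .t 1 (nat_lit 0) (.g 0 11 1 2 13 true true), .t 1 (nat_lit 0) (.g 1 14 0 2 11 false false), .t 1 (nat_lit 0) (.g 1 11 0 2 14 false false), .t 1 (nat_lit 0) (.g 0 11 1 2 14 true true), .t 1 (nat_lit 0) (.g 1 11 0 2 15 false false), .t 1 (nat_lit 0) (.g 0 11 1 2 15 true true), .t 1 (nat_lit 0) (.g 0 11 1 2 16 true true), .t 1 (nat_lit 0) (.g 1 16 0 2 11 false false), .t 1 (nat_lit 0) (.g 0 11 1 2 17 true true), .t 1 (nat_lit 0) (.g 1 17 0 2 11 false false), .t 1 (nat_lit 0) (.g 0 11 1 2 18 true true), .t 1 (nat_lit 0) (.g 1 18 0 2 11 false false), .t 1 (nat_lit 0) (.g 13 1 0 2 12 true false), .t 1 (nat_lit 0) (.g 1 13 0 2 12 false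 false), .t 1 (nat_lit 0) (.g 2 0 1 12 13 true true), .t 1 (nat_lit 0) (.g 14 1 0 2 12 true false), .t 1 (nat_lit 0) (.g 1 14 0 2 12 false false), .t 1 (nat_lit 0) (.g 1 12 0 2 14 false false), .t 1 (nat_lit 0) (.g 15 1 0 2 12 true false), .t 1 (nat_lit 0) (.g 16 1 0 2 12 true false), .t 1 (nat_lit 0) (.g 1 16 0 2 12 false false), .t 1 (nat_lit 0) (.g 1 12 0 2 16 false false), .t 1 (nat_lit 0) (.g 2 0 1 12 16 true true), .t 1 (nat_lit 0) (.g 17 1 0 2 12 true false), .t 1 (nat_lit 0) (.g 1 17 0 2 12 false false), .t 1 (nat_lit 0) (.g 2 0 1 12 17 true true), .t 1 (nat_lit 0) (.g 1 2 0 12 18 true true), .t 1 (nat_lit 0) (.g 18 1 0 2 12 true false), .t 1 (nat_lit 0) (.g 18 2 0 1 12 true false), .t 1 (nat_lit 0) (.g 1 18 0 2 12 false false), .t 1 (nat_lit 0) (.g 1 12 0 2 18 false false), .t 1 (nat_lit 0) (.g 13 2 0 1 14 true true), .t 1 (nat_lit 0) (.g 1 2 0 13 14 true true), .t 1 (nat_lit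 0) (.g 14 1 0 2 13 true false), .t 1 (nat_lit 0) (.g 14 2 0 1 13 true false), .t 1 (nat_lit 0) (.g 1 14 0 2 13 false false), .t 1 (nat_lit 0) (.g 1 13 0 2 14 false false), .t 1 (nat_lit 0) (.g 2 0 1 13 14 true true), .t 1 (nat_lit 0) (.g 2 0 1 13 14 true false), .t 1 (nat_lit 0) (.g 1 2 0 13 15 true true)] (by decide +kernel) (by decide +kernel)
theorem b3 : B 192 256 := Blk.of_chk [.t 1 (nat_lit 0) (.g 15 1 0 2 13 true false), .t 1 (nat_lit 0) (.g 15 2 0 1 13 true false), .t 1 (nat_lit 0) (.g 1 15 0 2 13 false false), .t 1 (nat_lit 0) (.g 1 13 0 2 15 false false), .t 1 (nat_lit 0) (.g 2 0 1 13 15 true true), .t 1 (nat_lit 0) (.g 1 2 0 13 16 true true), .t 1 (nat_lit 0) (.g 16 1 0 2 13 true false), .t 1 (nat_lit 0) (.g 16 2 0 1 13 true false), .t 1 (nat_lit 0) (.g 1 16 0 2 13 false false), .t 1 (nat_lit 0) (.g 1 13 0 2 16 false false), .t 1 (nat_lit 0) (.g 2 0 1 13 16 true true),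 .t 1 (nat_lit 0) (.g 2 0 1 13 16 true false), .t 1 (nat_lit 0) (.g 1 2 0 13 17 true true), .t 1 (nat_lit 0) (.g 17 1 0 2 13 true false), .t 1 (nat_lit 0) (.g 17 2 0 1 13 true false), .t 1 (nat_lit 0) (.g 1 17 0 2 13 false false), .t 1 (nat_lit 0) (.g 2 0 1 13 17 true true), .t 1 (nat_lit 0) (.g 2 0 1 13 17 true false), .t 1 (nat_lit 0) (.g 1 2 0 13 18 true true), .t 1 (nat_lit 0) (.g 18 1 0 2 13 true false), .t 1 (nat_lit 0) (.g 18 2 0 1 13 true false), .t 1 (nat_lit 0) (.g 1 18 0 2 13 false false), .t 1 (nat_lit 0) (.g 1 13 0 2 18 false false), .t 1 (nat_lit 0) (.g 2 0 1 13 18 true true), .t 1 (nat_lit 0) (.g 1 2 0 14 15 true true), .t 1 (nat_lit 0) (.g 15 1 0 2 14 true false), .t 1 (nat_lit 0) (.g 15 2 0 1 14 true false), .t 1 (nat_lit 0) (.g 1 14 0 2 15 false false), .t 1 (nat_lit 0) (.g 2 0 1 14 15 true true), .t 1 (nat_lit 0) (.g 1 2 0 14 16 true true), .t 1 (nat_lit 0) (.g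 16 1 0 2 14 true false), .t 1 (nat_lit 0) (.g 16 2 0 1 14 true false), .t 1 (nat_lit 0) (.g 1 16 0 2 14 false false), .t 1 (nat_lit 0) (.g 1 14 0 2 16 false false), .t 1 (nat_lit 0) (.g 2 0 1 14 16 true true), .t 1 (nat_lit 0) (.g 2 0 1 14 16 true false), .t 1 (nat_lit 0) (.g 1 2 0 14 17 true true), .t 1 (nat_lit 0) (.g 17 1 0 2 14 true false), .t 1 (nat_lit 0) (.g 17 2 0 1 14 true false), .t 1 (nat_lit 0) (.g 1 17 0 2 14 false false), .t 1 (nat_lit 0) (.g 2 0 1 14 17 true true), .t 1 (nat_lit 0) (.g 1 2 0 14 18 true true), .t 1 (nat_lit 0) (.g 18 1 0 2 14 true false), .t 1 (nat_lit 0) (.g 2 0 1 14 18 true true), .t 1 (nat_lit 0) (.g 15 1 0 2 16 false true), .t 1 (nat_lit 0) (.g 2 15 0 1 16 false true), .t 1 (nat_lit 0) (.g 16 1 0 2 15 true false), .t 1 (nat_lit 0) (.g 16 2 0 1 15 true false), .t 1 (nat_lit 0) (.g 1 16 0 2 15 false false), .t 1 (nat_lit 0) (.g 1 15 0 2 16 false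 false), .t 1 (nat_lit 0) (.g 2 0 1 15 16 true true), .t 1 (nat_lit 0) (.g 17 1 0 2 15 true false), .t 1 (nat_lit 0) (.g 1 17 0 2 15 false false), .t 1 (nat_lit 0) (.g 1 15 0 2 17 false false), .t 1 (nat_lit 0) (.g 2 0 1 15 17 true true), .t 1 (nat_lit 0) (.g 1 18 0 2 15 false false), .t 1 (nat_lit 0) (.g 2 0 1 15 18 true true), .t 1 (nat_lit 0) (.g 16 1 0 2 17 false true), .t 1 (nat_lit 0) (.g 17 1 0 2 16 true false), .t 1 (nat_lit 0) (.g 1 17 0 2 16 false false), .t 1 (nat_lit 0) (.g 1 16 0 2 17 false false), .t 1 (nat_lit 0) (.g 2 0 1 16 17 true true), .t 1 (nat_lit 0) (.g 18 1 0 2 16 true false), .t 1 (nat_lit 0) (.g 1 18 0 2 16 false false)] (by decide +kernel) (by decide +kernel)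
theorem b4 : B 256 320 := Blk.of_chk [.t 1 (nat_lit 0) (.g 1 16 0 2 18 false false), .t 1 (nat_lit 0) (.g 2 0 1 16 18 true true), .t 1 (nat_lit 0) (.g 18 1 0 2 17 true false), .t 1 (nat_lit 0) (.g 2 0 1 17 18 true true), .t 1 (nat_lit 0) (.g 1 0 3 4 12 false false), .t 1 (nat_lit 0) (.g 3 12 0 1 4 false true), .t 1 (nat_lit 0) (.g 4 0 1 3 12 true false), .t 1 (nat_lit 0) (.g 1 0 3 4 13 false false), .t 1 (nat_lit 0) (.g 3 13 0 1 4 false true), .t 1 (nat_lit 0) (.g 4 0 1 3 13 true false), .t 1 (nat_lit 0) (.g 1 0 3 4 14 false false), .t 1 (nat_lit 0) (.g 3 14 0 1 4 false true), .t 1 (nat_lit 0) (.g 4 0 1 3 14 true false), .t 1 (nat_lit 0) (.g 1 0 3 4 15 false false), .t 1 (nat_lit 0) (.g 3 15 0 1 4 true true), .t 1 (nat_lit 0) (.g 0 4 1 3 15 false true), .t 1 (nat_lit 0) (.g 3 15 0 1 4 false true), .t 1 (nat_lit 0) (.g 4 0 1 3 15 true false), .t 1 (nat_lit 0) (.g 1 0 3 4 16 false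 false), .t 1 (nat_lit 0) (.g 3 16 0 1 4 true true), .t 1 (nat_lit 0) (.g 0 4 1 3 16 false true), .t 1 (nat_lit 0) (.g 3 16 0 1 4 false true), .t 1 (nat_lit 0) (.g 4 0 1 3 16 true false), .t 1 (nat_lit 0) (.g 1 0 3 4 17 false false), .t 1 (nat_lit 0) (.g 3 17 0 1 4 true true), .t 1 (nat_lit 0) (.g 0 4 1 3 17 false true), .t 1 (nat_lit 0) (.g 3 17 0 1 4 false true), .t 1 (nat_lit 0) (.g 4 0 1 3 17 true false), .t 1 (nat_lit 0) (.g 1 0 3 4 18 false false), .t 1 (nat_lit 0) (.g 3 18 0 1 4 true true), .t 1 (nat_lit 0) (.g 0 4 1 3 18 false true), .t 1 (nat_lit 0) (.g 3 18 0 1 4 false true), .t 1 (nat_lit 0) (.g 4 0 1 3 18 true false), .t 1 (nat_lit 0) (.g 3 1 0 5 12 false false), .t 1 (nat_lit 0) (.g 3 1 0 5 13 false false), .t 1 (nat_lit 0) (.g 5 0 1 3 13 true true), .t 1 (nat_lit 0) (.g 3 1 0 5 14 false false), .t 1 (nat_lit 0) (.g 5 0 1 3 14 true true), .t 1 (nat_lit 0) (.g 3 5 0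 1 15 true true), .t 1 (nat_lit 0) (.g 3 1 0 5 15 false false), .t 1 (nat_lit 0) (.g 1 0 3 5 16 false true), .t 1 (nat_lit 0) (.g 3 5 0 1 16 true true), .t 1 (nat_lit 0) (.g 3 1 0 5 16 false false), .t 1 (nat_lit 0) (.g 5 0 1 3 16 true true), .t 1 (nat_lit 0) (.g 1 0 3 5 17 false true), .t 1 (nat_lit 0) (.g 3 5 0 1 17 true true), .t 1 (nat_lit 0) (.g 3 1 0 5 17 false false), .t 1 (nat_lit 0) (.g 5 0 1 3 17 true true), .t 1 (nat_lit 0) (.g 1 0 3 5 18 false true), .t 1 (nat_lit 0) (.g 3 5 0 1 18 true true), .t 1 (nat_lit 0) (.g 3 1 0 5 18 false false), .t 1 (nat_lit 0) (.g 5 0 1 3 18 true true), .t 1 (nat_lit 0) (.g 3 1 0 6 12 false false), .t 1 (nat_lit 0) (.g 3 1 0 6 13 false false), .t 1 (nat_lit 0) (.g 6 0 1 3 13 true true), .t 1 (nat_lit 0) (.g 3 1 0 6 14 false false), .t 1 (nat_lit 0) (.g 6 0 1 3 14 true true), .t 1 (nat_lit 0) (.g 1 0 3 6 15 false true), .t 1 (nat_lit 0) (.g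 3 1 0 6 15 false false), .t 1 (nat_lit 0) (.g 1 0 3 6 16 false true), .t 1 (nat_lit 0) (.g 3 6 0 1 16 true true), .t 1 (nat_lit 0) (.g 3 1 0 6 16 false false), .t 1 (nat_lit 0) (.g 6 0 1 3 16 true true), .t 1 (nat_lit 0) (.g 1 0 3 6 17 false true)] (by decide +kernel) (by decide +kernel)
theorem b5 : B 320 384 := Blk.of_chk [.t 1 (nat_lit 0) (.g 3 1 0 6 17 false false), .t 1 (nat_lit 0) (.g 6 0 1 3 17 true true), .t 1 (nat_lit 0) (.g 1 0 3 6 18 false true), .t 1 (nat_lit 0) (.g 3 6 0 1 18 true true), .t 1 (nat_lit 0) (.g 3 1 0 6 18 false false), .t 1 (nat_lit 0) (.g 6 0 1 3 18 true true), .t 1 (nat_lit 0) (.g 3 1 0 7 12 false false), .t 1 (nat_lit 0) (.g 3 1 0 7 13 false false), .t 1 (nat_lit 0) (.g 7 0 1 3 13 true true), .t 1 (nat_lit 0) (.g 3 1 0 7 14 false false), .t 1 (nat_lit 0) (.g 7 0 1 3 14 true true), .t 1 (nat_lit 0) (.g 1 0 3 7 15 false true), .t 1 (nat_lit 0) (.g 3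 7 0 1 15 true true), .t 1 (nat_lit 0) (.g 3 1 0 7 15 false false), .t 1 (nat_lit 0) (.g 1 0 3 7 16 false true), .t 1 (nat_lit 0) (.g 3 7 0 1 16 true true), .t 1 (nat_lit 0) (.g 3 1 0 7 16 false false), .t 1 (nat_lit 0) (.g 7 0 1 3 16 true true), .t 1 (nat_lit 0) (.g 1 0 3 7 17 false true), .t 1 (nat_lit 0) (.g 3 7 0 1 17 true true), .t 1 (nat_lit 0) (.g 3 1 0 7 17 false false), .t 1 (nat_lit 0) (.g 7 0 1 3 17 true true), .t 1 (nat_lit 0) (.g 1 0 3 7 18 false true), .t 1 (nat_lit 0) (.g 3 7 0 1 18 true true), .t 1 (nat_lit 0) (.g 3 1 0 7 18 false false), .t 1 (nat_lit 0) (.g 7 0 1 3 18 true true), .t 1 (nat_lit 0) (.g 3 1 0 8 12 false false), .t 1 (nat_lit 0) (.g 3 1 0 8 13 false false), .t 1 (nat_lit 0) (.g 8 0 1 3 13 true true), .t 1 (nat_lit 0) (.g 3 1 0 8 14 false false), .t 1 (nat_lit 0) (.g 8 0 1 3 14 true true), .t 1 (nat_lit 0) (.g 1 0 3 8 15 false true), .t 1 (nat_lit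 0) (.g 3 1 0 8 15 false false), .t 1 (nat_lit 0) (.g 1 0 3 8 16 false true), .t 1 (nat_lit 0) (.g 3 8 0 1 16 true true), .t 1 (nat_lit 0) (.g 3 1 0 8 16 false false), .t 1 (nat_lit 0) (.g 8 0 1 3 16 true true), .t 1 (nat_lit 0) (.g 1 0 3 8 17 false true), .t 1 (nat_lit 0) (.g 3 8 0 1 17 true true), .t 1 (nat_lit 0) (.g 3 1 0 8 17 false false), .t 1 (nat_lit 0) (.g 8 0 1 3 17 true true), .t 1 (nat_lit 0) (.g 1 0 3 8 18 false true), .t 1 (nat_lit 0) (.g 3 8 0 1 18 true true), .t 1 (nat_lit 0) (.g 3 1 0 8 18 false false), .t 1 (nat_lit 0) (.g 8 0 1 3 18 true true), .t 1 (nat_lit 0) (.g 9 0 1 3 12 true true), .t 1 (nat_lit 0) (.g 3 1 0 9 13 false false), .t 1 (nat_lit 0) (.g 9 0 1 3 13 true true), .t 1 (nat_lit 0) (.g 3 1 0 9 14 false false), .t 1 (nat_lit 0) (.g 9 0 1 3 14 true true), .t 1 (nat_lit 0) (.g 3 1 0 9 15 false false), .t 1 (nat_lit 0) (.g 9 0 1 3 15 true true), .t 1 (nat_lit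 0) (.g 3 9 0 1 16 true true), .t 1 (nat_lit 0) (.g 3 1 0 9 16 false false), .t 1 (nat_lit 0) (.g 9 0 1 3 16 true true), .t 1 (nat_lit 0) (.g 3 9 0 1 17 true true), .t 1 (nat_lit 0) (.g 3 1 0 9 17 false false), .t 1 (nat_lit 0) (.g 9 0 1 3 17 true true), .t 1 (nat_lit 0) (.g 1 0 3 9 18 false true), .t 1 (nat_lit 0) (.g 3 1 0 9 18 false false), .t 1 (nat_lit 0) (.g 9 0 1 3 18 true true), .t 1 (nat_lit 0) (.g 10 0 1 3 12 true true), .t 1 (nat_lit 0) (.g 3 1 0 10 13 false false), .t 1 (nat_lit 0) (.g 10 0 1 3 13 true true)] (by decide +kernel) (by decide +kernel)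
theorem b6 : B 384 448 := Blk.of_chk [.t 1 (nat_lit 0) (.g 3 1 0 10 14 false false), .t 1 (nat_lit 0) (.g 10 0 1 3 14 true true), .t 1 (nat_lit 0) (.g 1 0 3 10 15 false true), .t 1 (nat_lit 0) (.g 10 0 1 3 15 true true), .t 1 (nat_lit 0) (.g 1 0 3 10 16 false true), .t 1 (nat_lit 0) (.g 3 1 0 10 16 false false), .t 1 (nat_lit 0) (.g 10 0 1 3 16 true true), .t 1 (nat_lit 0) (.g 1 0 3 10 17 false true), .t 1 (nat_lit 0) (.g 3 1 0 10 17 false false), .t 1 (nat_lit 0) (.g 10 0 1 3 17 true true), .t 1 (nat_lit 0) (.g 1 0 3 10 18 false true), .t 1 (nat_lit 0) (.g 3 1 0 10 18 false false), .t 1 (nat_lit 0) (.g 10 0 1 3 18 true true), .t 1 (nat_lit 0) (.g 1 11 0 3 12 false false), .t 1 (nat_lit 0) (.g 1 13 0 3 11 false false), .t 1 (nat_lit 0) (.g 1 11 0 3 13 false false), .t 1 (nat_lit 0) (.g 0 11 1 3 13 true true), .t 1 (nat_lit 0) (.g 1 14 0 3 11 false false), .t 1 (nat_lit 0) (.g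 1 11 0 3 14 false false), .t 1 (nat_lit 0) (.g 0 11 1 3 14 true true), .t 1 (nat_lit 0) (.g 0 11 1 3 15 true true), .t 1 (nat_lit 0) (.g 1 15 0 3 11 false false), .t 1 (nat_lit 0) (.g 0 11 1 3 16 true true), .t 1 (nat_lit 0) (.g 1 16 0 3 11 false false), .t 1 (nat_lit 0) (.g 0 11 1 3 17 true true), .t 1 (nat_lit 0) (.g 1 17 0 3 11 false false), .t 1 (nat_lit 0) (.g 1 11 0 3 17 false false), .t 1 (nat_lit 0) (.g 0 11 1 3 18 true true), .t 1 (nat_lit 0) (.g 1 18 0 3 11 false false), .t 1 (nat_lit 0) (.g 1 11 0 3 18 false false), .t 1 (nat_lit 0) (.g 13 3 0 1 12 true false), .t 1 (nat_lit 0) (.g 1 13 0 3 12 false false), .t 1 (nat_lit 0) (.g 14 1 0 3 12 true false), .t 1 (nat_lit 0) (.g 1 14 0 3 12 false false), .t 1 (nat_lit 0) (.g 1 12 0 3 14 false false), .t 1 (nat_lit 0) (.g 3 0 1 12 14 true true), .t 1 (nat_lit 0) (.g 0 11 1 3 12 true true), .t 1 (nat_lit 0) (.g 15 1 0 3 12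 true false), .t 1 (nat_lit 0) (.g 1 15 0 3 12 false false), .t 1 (nat_lit 0) (.g 16 1 0 3 12 true false), .t 1 (nat_lit 0) (.g 1 16 0 3 12 false false), .t 1 (nat_lit 0) (.g 1 12 0 3 16 false false), .t 1 (nat_lit 0) (.g 17 1 0 3 12 true false), .t 1 (nat_lit 0) (.g 1 17 0 3 12 false false), .t 1 (nat_lit 0) (.g 1 12 0 3 17 false false), .t 1 (nat_lit 0) (.g 3 0 1 12 17 true true), .t 1 (nat_lit 0) (.g 18 1 0 3 12 true false), .t 1 (nat_lit 0) (.g 1 18 0 3 12 false false), .t 1 (nat_lit 0) (.g 1 12 0 3 18 false false), .t 1 (nat_lit 0) (.g 3 0 1 12 18 true true), .t 1 (nat_lit 0) (.g 14 1 0 3 13 false false), .t 1 (nat_lit 0) (.g 14 1 0 3 13 true false), .t 1 (nat_lit 0) (.g 14 3 0 1 13 true false), .t 1 (nat_lit 0) (.g 1 14 0 3 13 false false), .t 1 (nat_lit 0) (.g 1 13 0 3 14 false false), .t 1 (nat_lit 0) (.g 3 0 1 13 14 true true), .t 1 (nat_lit 0) (.g 3 0 1 13 14 true false),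 .t 1 (nat_lit 0) (.g 15 1 0 3 13 true false), .t 1 (nat_lit 0) (.g 15 3 0 1 13 true false), .t 1 (nat_lit 0) (.g 1 15 0 3 13 false false), .t 1 (nat_lit 0) (.g 1 13 0 3 15 false false), .t 1 (nat_lit 0) (.g 3 0 1 13 15 true true), .t 1 (nat_lit 0) (.g 16 1 0 3 13 true false), .t 1 (nat_lit 0) (.g 16 3 0 1 13 true false)] (by decide +kernel) (by decide +kernel)
theorem b7 : B 448 512 := Blk.of_chk [.t 1 (nat_lit 0) (.g 1 16 0 3 13 false false), .t 1 (nat_lit 0) (.g 1 13 0 3 16 false false), .t 1 (nat_lit 0) (.g 3 0 1 13 16 true true), .t 1 (nat_lit 0) (.g 17 1 0 3 13 true false), .t 1 (nat_lit 0) (.g 17 3 0 1 13 true false), .t 1 (nat_lit 0) (.g 1 17 0 3 13 false false), .t 1 (nat_lit 0) (.g 1 13 0 3 17 false false), .t 1 (nat_lit 0) (.g 3 0 1 13 17 true true), .t 1 (nat_lit 0) (.g 18 1 0 3 13 true false), .t 1 (nat_lit 0) (.g 18 3 0 1 13 true false), .t 1 (nat_lit 0) (.g 1 18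 0 3 13 false false), .t 1 (nat_lit 0) (.g 1 13 0 3 18 false false), .t 1 (nat_lit 0) (.g 3 0 1 13 18 true true), .t 1 (nat_lit 0) (.g 3 0 1 13 18 true false), .t 1 (nat_lit 0) (.g 15 1 0 3 14 true false), .t 1 (nat_lit 0) (.g 15 3 0 1 14 true false), .t 1 (nat_lit 0) (.g 1 15 0 3 14 false false), .t 1 (nat_lit 0) (.g 1 14 0 3 15 false false), .t 1 (nat_lit 0) (.g 3 0 1 14 15 true true), .t 1 (nat_lit 0) (.g 16 1 0 3 14 true false), .t 1 (nat_lit 0) (.g 16 3 0 1 14 true false), .t 1 (nat_lit 0) (.g 1 16 0 3 14 false false), .t 1 (nat_lit 0) (.g 1 14 0 3 16 false false), .t 1 (nat_lit 0) (.g 3 0 1 14 16 true true), .t 1 (nat_lit 0) (.g 3 0 1 14 16 true false), .t 1 (nat_lit 0) (.g 1 3 0 14 17 true true), .t 1 (nat_lit 0) (.g 17 1 0 3 14 true false), .t 1 (nat_lit 0) (.g 17 3 0 1 14 true false), .t 1 (nat_lit 0) (.g 1 17 0 3 14 false false), .t 1 (nat_lit 0) (.g 1 14 0 3 17 false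 false), .t 1 (nat_lit 0) (.g 3 0 1 14 17 true true), .t 1 (nat_lit 0) (.g 3 0 1 14 17 true false), .t 1 (nat_lit 0) (.g 14 3 0 1 18 true true), .t 1 (nat_lit 0) (.g 1 3 0 14 18 true true), .t 1 (nat_lit 0) (.g 18 1 0 3 14 true false), .t 1 (nat_lit 0) (.g 18 3 0 1 14 true false), .t 1 (nat_lit 0) (.g 1 18 0 3 14 false false), .t 1 (nat_lit 0) (.g 1 14 0 3 18 false false), .t 1 (nat_lit 0) (.g 3 0 1 14 18 true true), .t 1 (nat_lit 0) (.g 3 0 1 14 18 true false), .t 1 (nat_lit 0) (.g 3 15 0 1 16 false true), .t 1 (nat_lit 0) (.g 1 3 0 15 16 true true), .t 1 (nat_lit 0) (.g 16 1 0 3 15 true false), .t 1 (nat_lit 0) (.g 16 3 0 1 15 true false), .t 1 (nat_lit 0) (.g 1 16 0 3 15 false false), .t 1 (nat_lit 0) (.g 1 15 0 3 16 false false), .t 1 (nat_lit 0) (.g 3 0 1 15 16 true true), .t 1 (nat_lit 0) (.g 3 0 1 15 16 true false), .t 1 (nat_lit 0) (.g 3 15 0 1 17 false true), .t 1 (nat_lit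 0) (.g 17 1 0 3 15 true false), .t 1 (nat_lit 0) (.g 1 17 0 3 15 false false), .t 1 (nat_lit 0) (.g 1 15 0 3 17 false false), .t 1 (nat_lit 0) (.g 3 0 1 15 17 true true), .t 1 (nat_lit 0) (.g 3 0 1 15 17 true false), .t 1 (nat_lit 0) (.g 15 1 0 3 18 false true), .t 1 (nat_lit 0) (.g 1 18 0 3 15 false false), .t 1 (nat_lit 0) (.g 3 0 1 15 18 true true), .t 1 (nat_lit 0) (.g 3 0 1 15 18 true false), .t 1 (nat_lit 0) (.g 1 0 3 16 17 false true), .t 1 (nat_lit 0) (.g 17 1 0 3 16 false false), .t 1 (nat_lit 0) (.g 17 1 0 3 16 true false), .t 1 (nat_lit 0) (.g 1 17 0 3 16 false false), .t 1 (nat_lit 0) (.g 1 16 0 3 17 false false), .t 1 (nat_lit 0) (.g 3 0 1 16 17 true true)] (by decide +kernel) (by decide +kernel)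
theorem b8 : B 512 576 := Blk.of_chk [.t 1 (nat_lit 0) (.g 3 0 1 16 17 true false), .t 1 (nat_lit 0) (.g 1 0 3 16 18 false true), .t 1 (nat_lit 0) (.g 16 1 0 3 18 false true), .t 1 (nat_lit 0) (.g 1 18 0 3 16 false false), .t 1 (nat_lit 0) (.g 1 16 0 3 18 false false), .t 1 (nat_lit 0) (.g 3 0 1 16 18 true true), .t 1 (nat_lit 0) (.g 3 0 1 16 18 true false), .t 1 (nat_lit 0) (.g 1 0 3 17 18 false true), .t 1 (nat_lit 0) (.g 18 1 0 3 17 false false), .t 1 (nat_lit 0) (.g 18 1 0 3 17 true false), .t 1 (nat_lit 0) (.g 1 17 0 3 18 false false), .t 1 (nat_lit 0) (.g 3 0 1 17 18 true true), .t 1 (nat_lit 0) (.g 3 0 1 17 18 true false), .t 1 (nat_lit 0) (.g 4 1 0 5 12 false false), .t 1 (nat_lit 0) (.g 5 0 1 4 12 true true), .t 1 (nat_lit 0) (.g 4 1 0 5 13 false false), .t 1 (nat_lit 0) (.g 5 0 1 4 13 true true), .t 1 (nat_lit 0) (.g 4 1 0 5 14 false false), .t 1 (nat_lit 0) (.g 5 0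 1 4 14 true true), .t 1 (nat_lit 0) (.g 4 5 0 1 15 true true), .t 1 (nat_lit 0) (.g 4 1 0 5 15 false false), .t 1 (nat_lit 0) (.g 1 0 4 5 16 false true), .t 1 (nat_lit 0) (.g 4 5 0 1 16 true true), .t 1 (nat_lit 0) (.g 4 1 0 5 16 false false), .t 1 (nat_lit 0) (.g 1 0 4 5 17 false true), .t 1 (nat_lit 0) (.g 4 5 0 1 17 true true), .t 1 (nat_lit 0) (.g 4 1 0 5 17 false false), .t 1 (nat_lit 0) (.g 5 0 1 4 17 true true), .t 1 (nat_lit 0) (.g 1 0 4 5 18 false true), .t 1 (nat_lit 0) (.g 4 5 0 1 18 true true), .t 1 (nat_lit 0) (.g 4 1 0 5 18 false false), .t 1 (nat_lit 0) (.g 5 0 1 4 18 true true), .t 1 (nat_lit 0) (.g 4 1 0 6 12 false false), .t 1 (nat_lit 0) (.g 6 0 1 4 12 true true), .t 1 (nat_lit 0) (.g 4 1 0 6 13 false false), .t 1 (nat_lit 0) (.g 6 0 1 4 13 true true), .t 1 (nat_lit 0) (.g 4 1 0 6 14 false false), .t 1 (nat_lit 0) (.g 6 0 1 4 14 true true), .t 1 (nat_lit 0)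 (.g 4 1 0 6 15 false false), .t 1 (nat_lit 0) (.g 1 0 4 6 16 false true), .t 1 (nat_lit 0) (.g 4 6 0 1 16 true true), .t 1 (nat_lit 0) (.g 4 1 0 6 16 false false), .t 1 (nat_lit 0) (.g 1 0 4 6 17 false true), .t 1 (nat_lit 0) (.g 4 6 0 1 17 true true), .t 1 (nat_lit 0) (.g 4 1 0 6 17 false false), .t 1 (nat_lit 0) (.g 6 0 1 4 17 true true), .t 1 (nat_lit 0) (.g 1 0 4 6 18 false true), .t 1 (nat_lit 0) (.g 4 6 0 1 18 true true), .t 1 (nat_lit 0) (.g 4 1 0 6 18 false false), .t 1 (nat_lit 0) (.g 6 0 1 4 18 true true), .t 1 (nat_lit 0) (.g 7 0 1 4 12 true true), .t 1 (nat_lit 0) (.g 4 1 0 7 13 false false), .t 1 (nat_lit 0) (.g 7 0 1 4 13 true true), .t 1 (nat_lit 0) (.g 4 7 0 1 14 true true), .t 1 (nat_lit 0) (.g 4 1 0 7 14 false false), .t 1 (nat_lit 0) (.g 7 0 1 4 14 true true), .t 1 (nat_lit 0) (.g 1 0 4 7 15 false true), .t 1 (nat_lit 0) (.g 4 7 0 1 15 true true), .t 1 (nat_lit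 0) (.g 4 1 0 7 15 false false), .t 1 (nat_lit 0) (.g 1 0 4 7 16 false true), .t 1 (nat_lit 0) (.g 4 7 0 1 16 true true), .t 1 (nat_lit 0) (.g 4 1 0 7 16 false false), .t 1 (nat_lit 0) (.g 7 0 1 4 16 true true), .t 1 (nat_lit 0) (.g 1 0 4 7 17 false true)] (by decide +kernel) (by decide +kernel)
theorem b9 : B 576 640 := Blk.of_chk [.t 1 (nat_lit 0) (.g 4 7 0 1 17 true true), .t 1 (nat_lit 0) (.g 4 1 0 7 17 false false), .t 1 (nat_lit 0) (.g 7 0 1 4 17 true true), .t 1 (nat_lit 0) (.g 1 0 4 7 18 false true), .t 1 (nat_lit 0) (.g 4 7 0 1 18 true true), .t 1 (nat_lit 0) (.g 4 1 0 7 18 false false), .t 1 (nat_lit 0) (.g 7 0 1 4 18 true true), .t 1 (nat_lit 0) (.g 4 1 0 8 12 false false), .t 1 (nat_lit 0) (.g 8 0 1 4 12 true true), .t 1 (nat_lit 0) (.g 4 1 0 8 13 false false), .t 1 (nat_lit 0) (.g 8 0 1 4 13 true true), .t 1 (nat_lit 0) (.g 4 1 0 8 14 false false), .t 1 (nat_lit 0)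 (.g 8 0 1 4 14 true true), .t 1 (nat_lit 0) (.g 4 1 0 8 15 false false), .t 1 (nat_lit 0) (.g 4 8 0 1 16 true true), .t 1 (nat_lit 0) (.g 4 1 0 8 16 false false), .t 1 (nat_lit 0) (.g 4 8 0 1 17 true true), .t 1 (nat_lit 0) (.g 4 1 0 8 17 false false), .t 1 (nat_lit 0) (.g 8 0 1 4 17 true true), .t 1 (nat_lit 0) (.g 1 0 4 8 18 false true), .t 1 (nat_lit 0) (.g 4 8 0 1 18 true true), .t 1 (nat_lit 0) (.g 4 1 0 8 18 false false), .t 1 (nat_lit 0) (.g 8 0 1 4 18 true true), .t 1 (nat_lit 0) (.g 4 1 0 9 12 false false), .t 1 (nat_lit 0) (.g 9 0 1 4 12 true true), .t 1 (nat_lit 0) (.g 4 1 0 9 13 false false), .t 1 (nat_lit 0) (.g 9 0 1 4 13 true true), .t 1 (nat_lit 0) (.g 4 1 0 9 14 false false), .t 1 (nat_lit 0) (.g 9 0 1 4 14 true true), .t 1 (nat_lit 0) (.g 4 1 0 9 15 false false), .t 1 (nat_lit 0) (.g 9 0 1 4 15 true true), .t 1 (nat_lit 0) (.g 4 1 0 9 16 false false), .t 1 (nat_lit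 0) (.g 9 0 1 4 16 true true), .t 1 (nat_lit 0) (.g 4 1 0 9 17 false false), .t 1 (nat_lit 0) (.g 9 0 1 4 17 true true), .t 1 (nat_lit 0) (.g 4 1 0 9 18 false false), .t 1 (nat_lit 0) (.g 9 0 1 4 18 true true), .t 1 (nat_lit 0) (.g 4 1 0 10 12 false false), .t 1 (nat_lit 0) (.g 10 0 1 4 12 true true), .t 1 (nat_lit 0) (.g 4 1 0 10 13 false false), .t 1 (nat_lit 0) (.g 10 0 1 4 13 true true), .t 1 (nat_lit 0) (.g 4 1 0 10 14 false false), .t 1 (nat_lit 0) (.g 10 0 1 4 14 true true), .t 1 (nat_lit 0) (.g 4 1 0 10 15 false false), .t 1 (nat_lit 0) (.g 10 0 1 4 15 true true), .t 1 (nat_lit 0) (.g 4 1 0 10 16 false false), .t 1 (nat_lit 0) (.g 10 0 1 4 16 true true), .t 1 (nat_lit 0) (.g 4 1 0 10 17 false false), .t 1 (nat_lit 0) (.g 10 0 1 4 17 true true), .t 1 (nat_lit 0) (.g 4 10 0 1 18 true true), .t 1 (nat_lit 0) (.g 4 1 0 10 18 false false), .t 1 (nat_lit 0) (.g 10 0 1 4 18 true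 true), .t 1 (nat_lit 0) (.g 1 11 0 4 12 false false), .t 1 (nat_lit 0) (.g 0 11 1 4 12 true true), .t 1 (nat_lit 0) (.g 1 13 0 4 11 false false), .t 1 (nat_lit 0) (.g 1 11 0 4 13 false false), .t 1 (nat_lit 0) (.g 0 11 1 4 13 true true), .t 1 (nat_lit 0) (.g 0 11 1 4 14 true true), .t 1 (nat_lit 0) (.g 1 14 0 4 11 false false), .t 1 (nat_lit 0) (.g 1 11 0 4 14 false false), .t 1 (nat_lit 0) (.g 0 11 1 4 15 true true), .t 1 (nat_lit 0) (.g 1 15 0 4 11 false false), .t 1 (nat_lit 0) (.g 1 11 0 4 15 false false), .t 1 (nat_lit 0) (.g 0 11 1 4 16 true true)] (by decide +kernel) (by decide +kernel)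
theorem b10 : B 640 704 := Blk.of_chk [.t 1 (nat_lit 0) (.g 1 16 0 4 11 false false), .t 1 (nat_lit 0) (.g 1 11 0 4 16 false false), .t 1 (nat_lit 0) (.g 0 11 1 4 17 true true), .t 1 (nat_lit 0) (.g 1 17 0 4 11 false false), .t 1 (nat_lit 0) (.g 1 11 0 4 17 false false), .t 1 (nat_lit 0) (.g 0 11 1 4 18 true true), .t 1 (nat_lit 0) (.g 1 18 0 4 11 false false), .t 1 (nat_lit 0) (.g 13 1 0 4 12 true false), .t 1 (nat_lit 0) (.g 13 4 0 1 12 true false), .t 1 (nat_lit 0) (.g 1 13 0 4 12 false false), .t 1 (nat_lit 0) (.g 1 12 0 4 13 false false), .t 1 (nat_lit 0) (.g 4 0 1 12 13 true true), .t 1 (nat_lit 0) (.g 14 1 0 4 12 true false), .t 1 (nat_lit 0) (.g 1 14 0 4 12 false false), .t 1 (nat_lit 0) (.g 1 12 0 4 14 false false), .t 1 (nat_lit 0) (.g 4 0 1 12 14 true true), .t 1 (nat_lit 0) (.g 1 0 4 12 15 false false), .t 1 (nat_lit 0) (.g 15 1 0 4 12 true false), .t 1 (nat_lit 0)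 (.g 15 4 0 1 12 true false), .t 1 (nat_lit 0) (.g 1 15 0 4 12 false false), .t 1 (nat_lit 0) (.g 4 0 1 12 15 true true), .t 1 (nat_lit 0) (.g 1 0 4 12 16 false false), .t 1 (nat_lit 0) (.g 4 1 0 12 16 false true), .t 1 (nat_lit 0) (.g 16 1 0 4 12 true false), .t 1 (nat_lit 0) (.g 1 16 0 4 12 false false), .t 1 (nat_lit 0) (.g 4 0 1 12 16 true true), .t 1 (nat_lit 0) (.g 17 1 0 4 12 true false), .t 1 (nat_lit 0) (.g 17 4 0 1 12 true false), .t 1 (nat_lit 0) (.g 1 17 0 4 12 false false), .t 1 (nat_lit 0) (.g 1 12 0 4 17 false false), .t 1 (nat_lit 0) (.g 4 0 1 12 17 true true), .t 1 (nat_lit 0) (.g 4 0 1 12 17 true false), .t 1 (nat_lit 0) (.g 18 1 0 4 12 true false), .t 1 (nat_lit 0) (.g 1 18 0 4 12 false false), .t 1 (nat_lit 0) (.g 1 12 0 4 18 false false), .t 1 (nat_lit 0) (.g 4 0 1 12 18 true true), .t 1 (nat_lit 0) (.g 13 4 0 1 14 true true), .t 1 (nat_lit 0) (.g 14 1 0 4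 13 true false), .t 1 (nat_lit 0) (.g 14 4 0 1 13 true false), .t 1 (nat_lit 0) (.g 1 14 0 4 13 false false), .t 1 (nat_lit 0) (.g 1 13 0 4 14 false false), .t 1 (nat_lit 0) (.g 4 0 1 13 14 true true), .t 1 (nat_lit 0) (.g 4 0 1 13 14 true false), .t 1 (nat_lit 0) (.g 1 0 4 13 15 false false), .t 1 (nat_lit 0) (.g 15 1 0 4 13 true false), .t 1 (nat_lit 0) (.g 15 4 0 1 13 true false), .t 1 (nat_lit 0) (.g 1 15 0 4 13 false false), .t 1 (nat_lit 0) (.g 1 13 0 4 15 false false), .t 1 (nat_lit 0) (.g 1 0 4 13 16 false false), .t 1 (nat_lit 0) (.g 13 4 0 1 16 true true), .t 1 (nat_lit 0) (.g 4 1 0 13 16 false true), .t 1 (nat_lit 0) (.g 1 4 0 13 16 true true), .t 1 (nat_lit 0) (.g 16 1 0 4 13 true false), .t 1 (nat_lit 0) (.g 16 4 0 1 13 true false), .t 1 (nat_lit 0) (.g 1 16 0 4 13 false false), .t 1 (nat_lit 0) (.g 1 13 0 4 16 false false), .t 1 (nat_lit 0) (.g 4 0 1 13 16 true false),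 .t 1 (nat_lit 0) (.g 1 4 0 13 17 true true), .t 1 (nat_lit 0) (.g 17 1 0 4 13 true false), .t 1 (nat_lit 0) (.g 17 4 0 1 13 true false), .t 1 (nat_lit 0) (.g 1 17 0 4 13 false false), .t 1 (nat_lit 0) (.g 1 13 0 4 17 false false), .t 1 (nat_lit 0) (.g 4 0 1 13 17 true true), .t 1 (nat_lit 0) (.g 4 0 1 13 17 true false)] (by decide +kernel) (by decide +kernel)
theorem b11 : B 704 768 := Blk.of_chk [.t 1 (nat_lit 0) (.g 13 4 0 1 18 true true), .t 1 (nat_lit 0) (.g 1 4 0 13 18 true true), .t 1 (nat_lit 0) (.g 18 1 0 4 13 true false), .t 1 (nat_lit 0) (.g 18 4 0 1 13 true false), .t 1 (nat_lit 0) (.g 1 18 0 4 13 false false), .t 1 (nat_lit 0) (.g 1 13 0 4 18 false false), .t 1 (nat_lit 0) (.g 4 0 1 13 18 true true), .t 1 (nat_lit 0) (.g 4 0 1 13 18 true false), .t 1 (nat_lit 0) (.g 1 0 4 14 15 false false), .t 1 (nat_lit 0) (.g 1 4 0 14 15 true true), .t 1 (nat_lit 0) (.g 15 1 0 4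 14 true false), .t 1 (nat_lit 0) (.g 15 4 0 1 14 true false), .t 1 (nat_lit 0) (.g 1 15 0 4 14 false false), .t 1 (nat_lit 0) (.g 1 14 0 4 15 false false), .t 1 (nat_lit 0) (.g 4 0 1 14 15 true true), .t 1 (nat_lit 0) (.g 4 0 1 14 15 true false), .t 1 (nat_lit 0) (.g 1 0 4 14 16 false false), .t 1 (nat_lit 0) (.g 4 1 0 14 16 false true), .t 1 (nat_lit 0) (.g 1 4 0 14 16 true true), .t 1 (nat_lit 0) (.g 16 1 0 4 14 true false), .t 1 (nat_lit 0) (.g 16 4 0 1 14 true false), .t 1 (nat_lit 0) (.g 1 16 0 4 14 false false), .t 1 (nat_lit 0) (.g 1 14 0 4 16 false false), .t 1 (nat_lit 0) (.g 4 0 1 14 16 true true), .t 1 (nat_lit 0) (.g 1 4 0 14 17 true true), .t 1 (nat_lit 0) (.g 17 1 0 4 14 true false), .t 1 (nat_lit 0) (.g 17 4 0 1 14 true false), .t 1 (nat_lit 0) (.g 1 17 0 4 14 false false), .t 1 (nat_lit 0) (.g 1 14 0 4 17 false false), .t 1 (nat_lit 0) (.g 4 0 1 14 17 true true),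 .t 1 (nat_lit 0) (.g 4 0 1 14 17 true false), .t 1 (nat_lit 0) (.g 14 4 0 1 18 true true), .t 1 (nat_lit 0) (.g 1 4 0 14 18 true true), .t 1 (nat_lit 0) (.g 18 1 0 4 14 true false), .t 1 (nat_lit 0) (.g 18 4 0 1 14 true false), .t 1 (nat_lit 0) (.g 1 18 0 4 14 false false), .t 1 (nat_lit 0) (.g 1 14 0 4 18 false false), .t 1 (nat_lit 0) (.g 4 0 1 14 18 true true), .t 1 (nat_lit 0) (.g 4 0 1 14 18 true false), .t 1 (nat_lit 0) (.g 1 0 4 15 16 false false), .t 1 (nat_lit 0) (.g 4 15 0 1 16 true true), .t 1 (nat_lit 0) (.g 4 16 0 1 15 true true), .t 1 (nat_lit 0) (.g 4 1 0 15 16 false true), .t 1 (nat_lit 0) (.g 16 1 0 4 15 true false), .t 1 (nat_lit 0) (.g 16 4 0 1 15 true false), .t 1 (nat_lit 0) (.g 1 16 0 4 15 false false), .t 1 (nat_lit 0) (.g 1 15 0 4 16 false false), .t 1 (nat_lit 0) (.g 4 0 1 15 16 true true), .t 1 (nat_lit 0) (.g 4 0 1 15 16 true false), .t 1 (nat_lit 0)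 (.g 17 4 0 1 15 true false), .t 1 (nat_lit 0) (.g 1 17 0 4 15 false false), .t 1 (nat_lit 0) (.g 1 15 0 4 17 false false), .t 1 (nat_lit 0) (.g 4 0 1 15 17 true true), .t 1 (nat_lit 0) (.g 4 0 1 15 17 true false), .t 1 (nat_lit 0) (.g 1 18 0 4 15 false false), .t 1 (nat_lit 0) (.g 1 15 0 4 18 false false), .t 1 (nat_lit 0) (.g 4 0 1 15 18 true true), .t 1 (nat_lit 0) (.g 4 0 1 15 18 true false), .t 1 (nat_lit 0) (.g 1 0 4 16 17 false true), .t 1 (nat_lit 0) (.g 1 0 4 16 17 false false), .t 1 (nat_lit 0) (.g 4 16 0 1 17 true true), .t 1 (nat_lit 0) (.g 4 17 0 1 16 true true), .t 1 (nat_lit 0) (.g 17 1 0 4 16 true false), .t 1 (nat_lit 0) (.g 17 4 0 1 16 true false)] (by decide +kernel) (by decide +kernel)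
theorem b12 : B 768 832 := Blk.of_chk [.t 1 (nat_lit 0) (.g 1 17 0 4 16 false false), .t 1 (nat_lit 0) (.g 1 16 0 4 17 false false), .t 1 (nat_lit 0) (.g 4 0 1 16 17 true true), .t 1 (nat_lit 0) (.g 4 0 1 16 17 true false), .t 1 (nat_lit 0) (.g 1 0 4 16 18 false true), .t 1 (nat_lit 0) (.g 1 0 4 16 18 false false), .t 1 (nat_lit 0) (.g 4 16 0 1 18 true true), .t 1 (nat_lit 0) (.g 4 18 0 1 16 true true), .t 1 (nat_lit 0) (.g 18 1 0 4 16 false false), .t 1 (nat_lit 0) (.g 4 0 1 16 18 true false), .t 1 (nat_lit 0) (.g 1 18 0 4 16 false false), .t 1 (nat_lit 0) (.g 1 16 0 4 18 false false), .t 1 (nat_lit 0) (.g 4 0 1 16 18 true true), .t 1 (nat_lit 0) (.g 4 17 0 1 18 true true), .t 1 (nat_lit 0) (.g 4 18 0 1 17 true true), .t 1 (nat_lit 0) (.g 17 4 0 1 18 true true), .t 1 (nat_lit 0) (.g 18 1 0 4 17 false false), .t 1 (nat_lit 0) (.g 4 0 1 17 18 true false), .t 1 (nat_lit 0) (.g 1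 18 0 4 17 false false), .t 1 (nat_lit 0) (.g 1 17 0 4 18 false false), .t 1 (nat_lit 0) (.g 4 0 1 17 18 true true), .t 1 (nat_lit 0) (.g 1 0 5 6 17 false false), .t 1 (nat_lit 0) (.g 0 6 1 5 18 false true), .t 1 (nat_lit 0) (.g 5 1 0 7 14 false false), .t 1 (nat_lit 0) (.g 1 0 5 7 15 false true), .t 1 (nat_lit 0) (.g 0 7 1 5 15 false true), .t 1 (nat_lit 0) (.g 1 0 5 7 15 false false), .t 1 (nat_lit 0) (.g 5 1 0 7 15 false false), .t 1 (nat_lit 0) (.g 0 7 1 5 16 false true), .t 1 (nat_lit 0) (.g 1 0 5 7 16 false false), .t 1 (nat_lit 0) (.g 1 0 5 7 17 false true), .t 1 (nat_lit 0) (.g 0 7 1 5 17 false true), .t 1 (nat_lit 0) (.g 1 0 5 7 17 false false), .t 1 (nat_lit 0) (.g 5 1 0 7 17 false false), .t 1 (nat_lit 0) (.g 5 7 0 1 18 true true), .t 1 (nat_lit 0) (.g 0 7 1 5 18 false true), .t 1 (nat_lit 0) (.g 1 0 5 7 18 false false), .t 1 (nat_lit 0) (.g 5 1 0 7 18 false false),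 .t 1 (nat_lit 0) (.g 1 0 5 8 16 false true), .t 1 (nat_lit 0) (.g 5 1 0 8 17 false false), .t 1 (nat_lit 0) (.g 8 0 1 5 18 true true), .t 1 (nat_lit 0) (.g 9 0 1 5 12 true true), .t 1 (nat_lit 0) (.g 5 1 0 9 13 false false), .t 1 (nat_lit 0) (.g 9 0 1 5 13 true true), .t 1 (nat_lit 0) (.g 5 1 0 9 14 false false), .t 1 (nat_lit 0) (.g 9 0 1 5 14 true true), .t 1 (nat_lit 0) (.g 1 0 5 9 15 false true), .t 1 (nat_lit 0) (.g 5 1 0 9 15 false false), .t 1 (nat_lit 0) (.g 9 0 1 5 15 true true), .t 1 (nat_lit 0) (.g 5 1 0 9 16 false false), .t 1 (nat_lit 0) (.g 9 0 1 5 16 true true), .t 1 (nat_lit 0) (.g 5 1 0 9 17 false false), .t 1 (nat_lit 0) (.g 9 0 1 5 17 true true), .t 1 (nat_lit 0) (.g 1 0 5 9 18 false true), .t 1 (nat_lit 0) (.g 5 1 0 9 18 false false), .t 1 (nat_lit 0) (.g 9 0 1 5 18 true true), .t 1 (nat_lit 0) (.g 5 1 0 10 12 false false), .t 1 (nat_lit 0) (.g 10 0 1 5 12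 true true), .t 1 (nat_lit 0) (.g 5 1 0 10 13 false false), .t 1 (nat_lit 0) (.g 10 0 1 5 13 true true), .t 1 (nat_lit 0) (.g 5 1 0 10 14 false false), .t 1 (nat_lit 0) (.g 10 0 1 5 14 true true), .t 1 (nat_lit 0) (.g 1 0 5 10 15 false true), .t 1 (nat_lit 0) (.g 5 1 0 10 15 false false)] (by decide +kernel) (by decide +kernel)
theorem b13 : B 832 896 := Blk.of_chk [.t 1 (nat_lit 0) (.g 10 0 1 5 15 true true), .t 1 (nat_lit 0) (.g 5 1 0 10 16 false false), .t 1 (nat_lit 0) (.g 10 0 1 5 16 true true), .t 1 (nat_lit 0) (.g 5 1 0 10 17 false false), .t 1 (nat_lit 0) (.g 10 0 1 5 17 true true), .t 1 (nat_lit 0) (.g 5 1 0 10 18 false false), .t 1 (nat_lit 0) (.g 10 0 1 5 18 true true), .t 1 (nat_lit 0) (.g 1 12 0 5 11 false false), .t 1 (nat_lit 0) (.g 1 11 0 5 12 false false), .t 1 (nat_lit 0) (.g 0 11 1 5 12 true true), .t 1 (nat_lit 0) (.g 1 11 0 5 13 false false), .t 1 (nat_lit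 0) (.g 0 11 1 5 13 true true), .t 1 (nat_lit 0) (.g 1 14 0 5 11 false false), .t 1 (nat_lit 0) (.g 1 11 0 5 14 false false), .t 1 (nat_lit 0) (.g 0 11 1 5 14 true true), .t 1 (nat_lit 0) (.g 0 11 1 5 15 true true), .t 1 (nat_lit 0) (.g 1 15 0 5 11 false false), .t 1 (nat_lit 0) (.g 1 16 0 5 11 false false), .t 1 (nat_lit 0) (.g 0 11 1 5 17 true true), .t 1 (nat_lit 0) (.g 1 17 0 5 11 false false), .t 1 (nat_lit 0) (.g 0 11 1 5 18 true true), .t 1 (nat_lit 0) (.g 1 18 0 5 11 false false), .t 1 (nat_lit 0) (.g 13 1 0 5 12 true false), .t 1 (nat_lit 0) (.g 1 13 0 5 12 false false), .t 1 (nat_lit 0) (.g 5 0 1 12 13 true true), .t 1 (nat_lit 0) (.g 14 1 0 5 12 true false), .t 1 (nat_lit 0) (.g 1 14 0 5 12 false false), .t 1 (nat_lit 0) (.g 1 12 0 5 14 false false), .t 1 (nat_lit 0) (.g 15 1 0 5 12 true false), .t 1 (nat_lit 0) (.g 1 15 0 5 12 false false), .t 1 (nat_lit 0) (.g 0 11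 1 5 16 true true), .t 1 (nat_lit 0) (.g 16 1 0 5 12 true false), .t 1 (nat_lit 0) (.g 1 16 0 5 12 false false), .t 1 (nat_lit 0) (.g 1 12 0 5 16 false false), .t 1 (nat_lit 0) (.g 5 0 1 12 16 true true), .t 1 (nat_lit 0) (.g 17 1 0 5 12 true false), .t 1 (nat_lit 0) (.g 1 17 0 5 12 false false), .t 1 (nat_lit 0) (.g 1 12 0 5 17 false false), .t 1 (nat_lit 0) (.g 5 0 1 12 17 true true), .t 1 (nat_lit 0) (.g 18 1 0 5 12 true false), .t 1 (nat_lit 0) (.g 1 18 0 5 12 false false), .t 1 (nat_lit 0) (.g 5 0 1 12 18 true true), .t 1 (nat_lit 0) (.g 14 1 0 5 13 false false), .t 1 (nat_lit 0) (.g 14 1 0 5 13 true false), .t 1 (nat_lit 0) (.g 14 5 0 1 13 true false), .t 1 (nat_lit 0) (.g 1 14 0 5 13 false false), .t 1 (nat_lit 0) (.g 1 13 0 5 14 false false), .t 1 (nat_lit 0) (.g 5 0 1 13 14 true true), .t 1 (nat_lit 0) (.g 15 1 0 5 13 true false), .t 1 (nat_lit 0) (.g 1 15 0 5 13 false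 false), .t 1 (nat_lit 0) (.g 1 13 0 5 15 false false), .t 1 (nat_lit 0) (.g 16 1 0 5 13 true false), .t 1 (nat_lit 0) (.g 1 16 0 5 13 false false), .t 1 (nat_lit 0) (.g 1 13 0 5 16 false false), .t 1 (nat_lit 0) (.g 5 0 1 13 16 true false), .t 1 (nat_lit 0) (.g 17 1 0 5 13 true false), .t 1 (nat_lit 0) (.g 17 5 0 1 13 true false), .t 1 (nat_lit 0) (.g 1 17 0 5 13 false false), .t 1 (nat_lit 0) (.g 1 13 0 5 17 false false), .t 1 (nat_lit 0) (.g 13 5 0 1 18 true true), .t 1 (nat_lit 0) (.g 18 1 0 5 13 true false), .t 1 (nat_lit 0) (.g 18 5 0 1 13 true false), .t 1 (nat_lit 0) (.g 1 18 0 5 13 false false), .t 1 (nat_lit 0) (.g 5 0 1 13 18 true true)] (by decide +kernel) (by decide +kernel)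
theorem b14 : B 896 960 := Blk.of_chk [.t 1 (nat_lit 0) (.g 1 5 0 14 15 true true), .t 1 (nat_lit 0) (.g 15 1 0 5 14 true false), .t 1 (nat_lit 0) (.g 1 15 0 5 14 false false), .t 1 (nat_lit 0) (.g 1 14 0 5 15 false false), .t 1 (nat_lit 0) (.g 16 5 0 1 14 true false), .t 1 (nat_lit 0) (.g 1 16 0 5 14 false false), .t 1 (nat_lit 0) (.g 1 14 0 5 16 false false), .t 1 (nat_lit 0) (.g 1 5 0 14 17 true true), .t 1 (nat_lit 0) (.g 17 1 0 5 14 true false), .t 1 (nat_lit 0) (.g 17 5 0 1 14 true false), .t 1 (nat_lit 0) (.g 1 17 0 5 14 false false), .t 1 (nat_lit 0) (.g 5 0 1 14 17 true true), .t 1 (nat_lit 0) (.g 14 5 0 1 18 true true), .t 1 (nat_lit 0) (.g 1 5 0 14 18 true true), .t 1 (nat_lit 0) (.g 18 1 0 5 14 true false), .t 1 (nat_lit 0) (.g 1 18 0 5 14 false false), .t 1 (nat_lit 0) (.g 1 14 0 5 18 false false), .t 1 (nat_lit 0) (.g 15 5 0 1 16 false true), .t 1 (nat_lit 0) (.g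 1 16 0 5 15 false false), .t 1 (nat_lit 0) (.g 1 15 0 5 16 false false), .t 1 (nat_lit 0) (.g 5 0 1 15 16 true true), .t 1 (nat_lit 0) (.g 17 1 0 5 15 true false), .t 1 (nat_lit 0) (.g 17 5 0 1 15 true false), .t 1 (nat_lit 0) (.g 1 17 0 5 15 false false), .t 1 (nat_lit 0) (.g 1 15 0 5 17 false false), .t 1 (nat_lit 0) (.g 5 0 1 15 17 true true), .t 1 (nat_lit 0) (.g 18 1 0 5 15 true false), .t 1 (nat_lit 0) (.g 1 18 0 5 15 false false), .t 1 (nat_lit 0) (.g 5 0 1 15 18 true true), .t 1 (nat_lit 0) (.g 17 1 0 5 16 true false), .t 1 (nat_lit 0) (.g 1 17 0 5 16 false false), .t 1 (nat_lit 0) (.g 1 16 0 5 17 false false), .t 1 (nat_lit 0) (.g 5 0 1 16 17 true true), .t 1 (nat_lit 0) (.g 5 16 0 1 18 true true), .t 1 (nat_lit 0) (.g 18 1 0 5 16 true false), .t 1 (nat_lit 0) (.g 1 18 0 5 16 false false), .t 1 (nat_lit 0) (.g 5 0 1 16 18 true true), .t 1 (nat_lit 0) (.g 5 17 0 1 18 true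 true), .t 1 (nat_lit 0) (.g 18 1 0 5 17 true false), .t 1 (nat_lit 0) (.g 1 0 6 7 12 false false), .t 1 (nat_lit 0) (.g 6 1 0 7 12 false false), .t 1 (nat_lit 0) (.g 1 0 6 7 13 false false), .t 1 (nat_lit 0) (.g 6 1 0 7 13 false false), .t 1 (nat_lit 0) (.g 1 0 6 7 15 false true), .t 1 (nat_lit 0) (.g 1 0 6 7 16 false true), .t 1 (nat_lit 0) (.g 1 0 6 7 16 false false), .t 1 (nat_lit 0) (.g 1 0 6 7 17 false false), .t 1 (nat_lit 0) (.g 6 1 0 7 17 false false), .t 1 (nat_lit 0) (.g 6 7 0 1 18 true true), .t 1 (nat_lit 0) (.g 0 7 1 6 18 false true), .t 1 (nat_lit 0) (.g 1 0 6 7 18 false false), .t 1 (nat_lit 0) (.g 6 1 0 7 18 false false), .t 1 (nat_lit 0) (.g 7 0 1 6 18 true true), .t 1 (nat_lit 0) (.g 6 1 0 8 17 false false), .t 1 (nat_lit 0) (.g 9 0 1 6 12 true true), .t 1 (nat_lit 0) (.g 6 1 0 9 13 false false), .t 1 (nat_lit 0) (.g 9 0 1 6 13 true true), .t 1 (nat_lit 0) (.g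 6 1 0 9 14 false false), .t 1 (nat_lit 0) (.g 9 0 1 6 14 true true), .t 1 (nat_lit 0) (.g 6 1 0 9 15 false false), .t 1 (nat_lit 0) (.g 9 0 1 6 15 true true), .t 1 (nat_lit 0) (.g 6 1 0 9 16 false false), .t 1 (nat_lit 0) (.g 9 0 1 6 16 true true), .t 1 (nat_lit 0) (.g 6 9 0 1 17 true true)] (by decide +kernel) (by decide +kernel)
theorem b15 : B 960 1024 := Blk.of_chk [.t 1 (nat_lit 0) (.g 6 1 0 9 17 false false), .t 1 (nat_lit 0) (.g 9 0 1 6 17 true true), .t 1 (nat_lit 0) (.g 6 1 0 9 18 false false), .t 1 (nat_lit 0) (.g 9 0 1 6 18 true true), .t 1 (nat_lit 0) (.g 6 1 0 10 12 false false), .t 1 (nat_lit 0) (.g 6 1 0 10 13 false false), .t 1 (nat_lit 0) (.g 10 0 1 6 13 true true), .t 1 (nat_lit 0) (.g 6 1 0 10 14 false false), .t 1 (nat_lit 0) (.g 10 0 1 6 14 true true), .t 1 (nat_lit 0) (.g 6 1 0 10 15 false false), .t 1 (nat_lit 0) (.g 10 0 1 6 15 true true), .t 1 (nat_lit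 0) (.g 6 1 0 10 16 false false), .t 1 (nat_lit 0) (.g 10 0 1 6 16 true true), .t 1 (nat_lit 0) (.g 6 1 0 10 17 false false), .t 1 (nat_lit 0) (.g 10 0 1 6 17 true true), .t 1 (nat_lit 0) (.g 6 1 0 10 18 false false), .t 1 (nat_lit 0) (.g 10 0 1 6 18 true true), .t 1 (nat_lit 0) (.g 1 11 0 6 12 false false), .t 1 (nat_lit 0) (.g 1 13 0 6 11 false false), .t 1 (nat_lit 0) (.g 1 11 0 6 13 false false), .t 1 (nat_lit 0) (.g 0 11 1 6 13 true true), .t 1 (nat_lit 0) (.g 1 14 0 6 11 false false), .t 1 (nat_lit 0) (.g 1 11 0 6 14 false false), .t 1 (nat_lit 0) (.g 0 11 1 6 14 true true), .t 1 (nat_lit 0) (.g 1 15 0 6 11 false false), .t 1 (nat_lit 0) (.g 0 11 1 6 15 true true), .t 1 (nat_lit 0) (.g 0 11 1 6 16 true true), .t 1 (nat_lit 0) (.g 1 16 0 6 11 false false), .t 1 (nat_lit 0) (.g 1 17 0 6 11 false false), .t 1 (nat_lit 0) (.g 0 11 1 6 17 true true), .t 1 (nat_lit 0) (.g 0 11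 1 6 18 true true), .t 1 (nat_lit 0) (.g 1 18 0 6 11 false false), .t 1 (nat_lit 0) (.g 1 13 0 6 12 false false), .t 1 (nat_lit 0) (.g 6 0 1 12 13 true true), .t 1 (nat_lit 0) (.g 14 1 0 6 12 true false), .t 1 (nat_lit 0) (.g 1 14 0 6 12 false false), .t 1 (nat_lit 0) (.g 1 12 0 6 14 false false), .t 1 (nat_lit 0) (.g 0 11 1 6 12 true true), .t 1 (nat_lit 0) (.g 15 1 0 6 12 true false), .t 1 (nat_lit 0) (.g 1 15 0 6 12 false false), .t 1 (nat_lit 0) (.g 6 0 1 12 15 true true), .t 1 (nat_lit 0) (.g 16 1 0 6 12 true false), .t 1 (nat_lit 0) (.g 1 16 0 6 12 false false), .t 1 (nat_lit 0) (.g 1 12 0 6 16 false false), .t 1 (nat_lit 0) (.g 6 0 1 12 16 true true), .t 1 (nat_lit 0) (.g 17 1 0 6 12 true false), .t 1 (nat_lit 0) (.g 1 17 0 6 12 false false), .t 1 (nat_lit 0) (.g 1 12 0 6 17 false false), .t 1 (nat_lit 0) (.g 6 0 1 12 17 true true), .t 1 (nat_lit 0) (.g 18 1 0 6 12 true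 false), .t 1 (nat_lit 0) (.g 1 18 0 6 12 false false), .t 1 (nat_lit 0) (.g 6 0 1 12 18 true true), .t 1 (nat_lit 0) (.g 13 6 0 1 14 true true), .t 1 (nat_lit 0) (.g 14 1 0 6 13 true false), .t 1 (nat_lit 0) (.g 14 6 0 1 13 true false), .t 1 (nat_lit 0) (.g 1 14 0 6 13 false false), .t 1 (nat_lit 0) (.g 1 13 0 6 14 false false), .t 1 (nat_lit 0) (.g 6 0 1 13 14 true true), .t 1 (nat_lit 0) (.g 6 0 1 13 14 true false), .t 1 (nat_lit 0) (.g 15 1 0 6 13 true false), .t 1 (nat_lit 0) (.g 15 6 0 1 13 true false), .t 1 (nat_lit 0) (.g 1 15 0 6 13 false false), .t 1 (nat_lit 0) (.g 1 13 0 6 15 false false), .t 1 (nat_lit 0) (.g 16 1 0 6 13 true false)] (by decide +kernel) (by decide +kernel)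
theorem b16 : B 1024 1088 := Blk.of_chk [.t 1 (nat_lit 0) (.g 1 16 0 6 13 false false), .t 1 (nat_lit 0) (.g 1 13 0 6 16 false false), .t 1 (nat_lit 0) (.g 17 1 0 6 13 true false), .t 1 (nat_lit 0) (.g 17 6 0 1 13 true false), .t 1 (nat_lit 0) (.g 1 17 0 6 13 false false), .t 1 (nat_lit 0) (.g 1 13 0 6 17 false false), .t 1 (nat_lit 0) (.g 13 6 0 1 18 true true), .t 1 (nat_lit 0) (.g 18 1 0 6 13 true false), .t 1 (nat_lit 0) (.g 18 6 0 1 13 true false), .t 1 (nat_lit 0) (.g 1 18 0 6 13 false false), .t 1 (nat_lit 0) (.g 6 0 1 13 18 true true), .t 1 (nat_lit 0) (.g 1 6 0 14 15 true true), .t 1 (nat_lit 0) (.g 15 1 0 6 14 true false), .t 1 (nat_lit 0) (.g 1 15 0 6 14 false false), .t 1 (nat_lit 0) (.g 1 14 0 6 15 false false), .t 1 (nat_lit 0) (.g 1 6 0 14 16 true true), .t 1 (nat_lit 0) (.g 16 6 0 1 14 true false), .t 1 (nat_lit 0) (.g 1 16 0 6 14 false false), .t 1 (nat_lit 0)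 (.g 1 14 0 6 16 false false), .t 1 (nat_lit 0) (.g 1 6 0 14 17 true true), .t 1 (nat_lit 0) (.g 17 1 0 6 14 true false), .t 1 (nat_lit 0) (.g 17 6 0 1 14 true false), .t 1 (nat_lit 0) (.g 1 17 0 6 14 false false), .t 1 (nat_lit 0) (.g 6 0 1 14 17 true true), .t 1 (nat_lit 0) (.g 1 6 0 14 18 true true), .t 1 (nat_lit 0) (.g 18 1 0 6 14 true false), .t 1 (nat_lit 0) (.g 1 18 0 6 14 false false), .t 1 (nat_lit 0) (.g 1 14 0 6 18 false false), .t 1 (nat_lit 0) (.g 15 6 0 1 16 true true), .t 1 (nat_lit 0) (.g 16 6 0 1 15 true false), .t 1 (nat_lit 0) (.g 1 16 0 6 15 false false), .t 1 (nat_lit 0) (.g 1 15 0 6 16 false false), .t 1 (nat_lit 0) (.g 6 0 1 15 16 true true), .t 1 (nat_lit 0) (.g 17 1 0 6 15 true false), .t 1 (nat_lit 0) (.g 1 17 0 6 15 false false), .t 1 (nat_lit 0) (.g 1 15 0 6 17 false false), .t 1 (nat_lit 0) (.g 6 0 1 15 17 true true), .t 1 (nat_lit 0) (.g 18 1 0 6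 15 true false), .t 1 (nat_lit 0) (.g 1 18 0 6 15 false false), .t 1 (nat_lit 0) (.g 6 0 1 15 18 true true), .t 1 (nat_lit 0) (.g 6 17 0 1 16 true true), .t 1 (nat_lit 0) (.g 17 1 0 6 16 true false), .t 1 (nat_lit 0) (.g 1 17 0 6 16 false false), .t 1 (nat_lit 0) (.g 1 16 0 6 17 false false), .t 1 (nat_lit 0) (.g 6 0 1 16 17 true true), .t 1 (nat_lit 0) (.g 6 16 0 1 18 true true), .t 1 (nat_lit 0) (.g 18 1 0 6 16 true false), .t 1 (nat_lit 0) (.g 1 18 0 6 16 false false), .t 1 (nat_lit 0) (.g 6 0 1 16 18 true true), .t 1 (nat_lit 0) (.g 18 1 0 6 17 true false), .t 1 (nat_lit 0) (.g 7 1 0 8 12 false false), .t 1 (nat_lit 0) (.g 7 1 0 8 14 false false), .t 1 (nat_lit 0) (.g 1 0 7 8 16 false true), .t 1 (nat_lit 0) (.g 7 1 0 8 16 false false), .t 1 (nat_lit 0) (.g 1 0 7 8 17 false true), .t 1 (nat_lit 0) (.g 7 1 0 8 17 false false), .t 1 (nat_lit 0) (.g 8 0 1 7 17 true true), .t 1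 (nat_lit 0) (.g 1 0 7 8 18 false true), .t 1 (nat_lit 0) (.g 7 1 0 8 18 false false), .t 1 (nat_lit 0) (.g 7 1 0 9 12 false false), .t 1 (nat_lit 0) (.g 9 0 1 7 12 true true), .t 1 (nat_lit 0) (.g 7 1 0 9 13 false false), .t 1 (nat_lit 0) (.g 9 0 1 7 13 true true), .t 1 (nat_lit 0) (.g 7 1 0 9 14 false false)] (by decide +kernel) (by decide +kernel)
theorem b17 : B 1088 1152 := Blk.of_chk [.t 1 (nat_lit 0) (.g 9 0 1 7 14 true true), .t 1 (nat_lit 0) (.g 7 1 0 9 15 false false), .t 1 (nat_lit 0) (.g 9 0 1 7 15 true true), .t 1 (nat_lit 0) (.g 7 1 0 9 16 false false), .t 1 (nat_lit 0) (.g 9 0 1 7 16 true true), .t 1 (nat_lit 0) (.g 7 1 0 9 17 false false), .t 1 (nat_lit 0) (.g 9 0 1 7 17 true true), .t 1 (nat_lit 0) (.g 7 9 0 1 18 true true), .t 1 (nat_lit 0) (.g 7 1 0 9 18 false false), .t 1 (nat_lit 0) (.g 9 0 1 7 18 true true), .t 1 (nat_lit 0) (.g 7 1 0 10 12 false false), .t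 1 (nat_lit 0) (.g 7 1 0 10 13 false false), .t 1 (nat_lit 0) (.g 10 0 1 7 13 true true), .t 1 (nat_lit 0) (.g 7 1 0 10 14 false false), .t 1 (nat_lit 0) (.g 7 10 0 1 15 true true), .t 1 (nat_lit 0) (.g 10 0 1 7 15 true true), .t 1 (nat_lit 0) (.g 7 1 0 10 16 false false), .t 1 (nat_lit 0) (.g 10 0 1 7 16 true true), .t 1 (nat_lit 0) (.g 7 1 0 10 17 false false), .t 1 (nat_lit 0) (.g 7 1 0 10 18 false false), .t 1 (nat_lit 0) (.g 10 0 1 7 18 true true), .t 1 (nat_lit 0) (.g 1 11 0 7 12 false false), .t 1 (nat_lit 0) (.g 1 11 0 7 13 false false), .t 1 (nat_lit 0) (.g 0 11 1 7 13 true true), .t 1 (nat_lit 0) (.g 1 14 0 7 11 false false), .t 1 (nat_lit 0) (.g 1 11 0 7 14 false false), .t 1 (nat_lit 0) (.g 0 11 1 7 14 true true), .t 1 (nat_lit 0) (.g 0 11 1 7 15 true true), .t 1 (nat_lit 0) (.g 1 15 0 7 11 false false), .t 1 (nat_lit 0) (.g 0 11 1 7 16 true true), .t 1 (nat_lit 0)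 (.g 1 16 0 7 11 false false), .t 1 (nat_lit 0) (.g 0 11 1 7 17 true true), .t 1 (nat_lit 0) (.g 1 17 0 7 11 false false), .t 1 (nat_lit 0) (.g 0 11 1 7 18 true true), .t 1 (nat_lit 0) (.g 1 18 0 7 11 false false), .t 1 (nat_lit 0) (.g 13 7 0 1 12 true false), .t 1 (nat_lit 0) (.g 1 13 0 7 12 false false), .t 1 (nat_lit 0) (.g 7 0 1 12 13 true true), .t 1 (nat_lit 0) (.g 14 1 0 7 12 true false), .t 1 (nat_lit 0) (.g 1 14 0 7 12 false false), .t 1 (nat_lit 0) (.g 1 12 0 7 14 false false), .t 1 (nat_lit 0) (.g 15 1 0 7 12 true false), .t 1 (nat_lit 0) (.g 1 15 0 7 12 false false), .t 1 (nat_lit 0) (.g 16 1 0 7 12 true false), .t 1 (nat_lit 0) (.g 1 16 0 7 12 false false), .t 1 (nat_lit 0) (.g 1 12 0 7 16 false false), .t 1 (nat_lit 0) (.g 7 0 1 12 16 true true), .t 1 (nat_lit 0) (.g 0 11 1 7 12 true true), .t 1 (nat_lit 0) (.g 17 1 0 7 12 true false), .t 1 (nat_lit 0) (.g 1 17 0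 7 12 false false), .t 1 (nat_lit 0) (.g 1 12 0 7 17 false false), .t 1 (nat_lit 0) (.g 7 0 1 12 17 true true), .t 1 (nat_lit 0) (.g 18 1 0 7 12 true false), .t 1 (nat_lit 0) (.g 1 18 0 7 12 false false), .t 1 (nat_lit 0) (.g 7 0 1 12 18 true true), .t 1 (nat_lit 0) (.g 13 7 0 1 14 true true), .t 1 (nat_lit 0) (.g 14 7 0 1 13 true false), .t 1 (nat_lit 0) (.g 1 14 0 7 13 false false), .t 1 (nat_lit 0) (.g 1 13 0 7 14 false false), .t 1 (nat_lit 0) (.g 7 0 1 13 14 true true), .t 1 (nat_lit 0) (.g 15 1 0 7 13 true false), .t 1 (nat_lit 0) (.g 15 7 0 1 13 true false), .t 1 (nat_lit 0) (.g 1 15 0 7 13 false false), .t 1 (nat_lit 0) (.g 1 13 0 7 15 false false)] (by decide +kernel) (by decide +kernel)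
theorem b18 : B 1152 1216 := Blk.of_chk [.t 1 (nat_lit 0) (.g 16 1 0 7 13 true false), .t 1 (nat_lit 0) (.g 16 7 0 1 13 true false), .t 1 (nat_lit 0) (.g 1 16 0 7 13 false false), .t 1 (nat_lit 0) (.g 1 13 0 7 16 false false), .t 1 (nat_lit 0) (.g 17 1 0 7 13 true false), .t 1 (nat_lit 0) (.g 17 7 0 1 13 true false), .t 1 (nat_lit 0) (.g 1 17 0 7 13 false false), .t 1 (nat_lit 0) (.g 1 13 0 7 17 false false), .t 1 (nat_lit 0) (.g 13 7 0 1 18 true true), .t 1 (nat_lit 0) (.g 18 7 0 1 13 true false), .t 1 (nat_lit 0) (.g 1 18 0 7 13 false false), .t 1 (nat_lit 0) (.g 7 0 1 13 18 true true), .t 1 (nat_lit 0) (.g 1 7 0 14 15 true true), .t 1 (nat_lit 0) (.g 15 1 0 7 14 true false), .t 1 (nat_lit 0) (.g 1 15 0 7 14 false false), .t 1 (nat_lit 0) (.g 1 14 0 7 15 false false), .t 1 (nat_lit 0) (.g 16 7 0 1 14 true false), .t 1 (nat_lit 0) (.g 1 16 0 7 14 false false), .t 1 (nat_lit 0)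 (.g 17 1 0 7 14 true false), .t 1 (nat_lit 0) (.g 17 7 0 1 14 true false), .t 1 (nat_lit 0) (.g 1 17 0 7 14 false false), .t 1 (nat_lit 0) (.g 7 0 1 14 17 true true), .t 1 (nat_lit 0) (.g 14 7 0 1 18 true true), .t 1 (nat_lit 0) (.g 1 7 0 14 18 true true), .t 1 (nat_lit 0) (.g 18 1 0 7 14 true false), .t 1 (nat_lit 0) (.g 1 18 0 7 14 false false), .t 1 (nat_lit 0) (.g 1 14 0 7 18 false false), .t 1 (nat_lit 0) (.g 7 0 1 14 18 true true), .t 1 (nat_lit 0) (.g 15 7 0 1 16 false true), .t 1 (nat_lit 0) (.g 1 16 0 7 15 false false), .t 1 (nat_lit 0) (.g 1 15 0 7 16 false false), .t 1 (nat_lit 0) (.g 7 0 1 15 16 true true), .t 1 (nat_lit 0) (.g 17 1 0 7 15 true false), .t 1 (nat_lit 0) (.g 1 17 0 7 15 false false), .t 1 (nat_lit 0) (.g 1 15 0 7 17 false false), .t 1 (nat_lit 0) (.g 7 0 1 15 17 true true), .t 1 (nat_lit 0) (.g 18 7 0 1 15 true false), .t 1 (nat_lit 0) (.g 1 18 0 7 15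 false false), .t 1 (nat_lit 0) (.g 7 0 1 15 18 true true), .t 1 (nat_lit 0) (.g 7 17 0 1 16 true true), .t 1 (nat_lit 0) (.g 17 1 0 7 16 false false), .t 1 (nat_lit 0) (.g 17 1 0 7 16 true false), .t 1 (nat_lit 0) (.g 1 17 0 7 16 false false), .t 1 (nat_lit 0) (.g 1 16 0 7 17 false false), .t 1 (nat_lit 0) (.g 18 1 0 7 16 true false), .t 1 (nat_lit 0) (.g 1 18 0 7 16 false false), .t 1 (nat_lit 0) (.g 7 0 1 16 18 true true), .t 1 (nat_lit 0) (.g 7 17 0 1 18 true true), .t 1 (nat_lit 0) (.g 18 1 0 7 17 true false), .t 1 (nat_lit 0) (.g 9 0 1 8 12 true true), .t 1 (nat_lit 0) (.g 8 1 0 9 13 false false), .t 1 (nat_lit 0) (.g 9 0 1 8 13 true true), .t 1 (nat_lit 0) (.g 8 1 0 9 14 false false), .t 1 (nat_lit 0) (.g 9 0 1 8 14 true true), .t 1 (nat_lit 0) (.g 1 0 8 9 15 false true), .t 1 (nat_lit 0) (.g 9 0 1 8 15 true true), .t 1 (nat_lit 0) (.g 8 1 0 9 16 false false), .t 1 (nat_lit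 0) (.g 9 0 1 8 16 true true), .t 1 (nat_lit 0) (.g 8 1 0 9 17 false false), .t 1 (nat_lit 0) (.g 9 0 1 8 17 true true), .t 1 (nat_lit 0) (.g 1 0 8 9 18 false true), .t 1 (nat_lit 0) (.g 8 1 0 9 18 false false), .t 1 (nat_lit 0) (.g 9 0 1 8 18 true true), .t 1 (nat_lit 0) (.g 10 0 1 8 12 true true)] (by decide +kernel) (by decide +kernel)
theorem b19 : B 1216 1280 := Blk.of_chk [.t 1 (nat_lit 0) (.g 8 1 0 10 13 false false), .t 1 (nat_lit 0) (.g 10 0 1 8 13 true true), .t 1 (nat_lit 0) (.g 8 1 0 10 14 false false), .t 1 (nat_lit 0) (.g 10 0 1 8 14 true true), .t 1 (nat_lit 0) (.g 1 0 8 10 15 false true), .t 1 (nat_lit 0) (.g 10 0 1 8 15 true true), .t 1 (nat_lit 0) (.g 8 1 0 10 16 false false), .t 1 (nat_lit 0) (.g 10 0 1 8 16 true true), .t 1 (nat_lit 0) (.g 8 1 0 10 17 false false), .t 1 (nat_lit 0) (.g 10 0 1 8 17 true true), .t 1 (nat_lit 0) (.g 8 1 0 10 18 false false), .t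 1 (nat_lit 0) (.g 10 0 1 8 18 true true), .t 1 (nat_lit 0) (.g 1 12 0 8 11 false false), .t 1 (nat_lit 0) (.g 1 11 0 8 12 false false), .t 1 (nat_lit 0) (.g 0 11 1 8 12 true true), .t 1 (nat_lit 0) (.g 1 11 0 8 13 false false), .t 1 (nat_lit 0) (.g 0 11 1 8 13 true true), .t 1 (nat_lit 0) (.g 1 14 0 8 11 false false), .t 1 (nat_lit 0) (.g 1 11 0 8 14 false false), .t 1 (nat_lit 0) (.g 0 11 1 8 14 true true), .t 1 (nat_lit 0) (.g 1 15 0 8 11 false false), .t 1 (nat_lit 0) (.g 0 11 1 8 15 true true), .t 1 (nat_lit 0) (.g 0 11 1 8 16 true true), .t 1 (nat_lit 0) (.g 1 16 0 8 11 false false), .t 1 (nat_lit 0) (.g 0 11 1 8 17 true true), .t 1 (nat_lit 0) (.g 1 17 0 8 11 false false), .t 1 (nat_lit 0) (.g 0 11 1 8 18 true true), .t 1 (nat_lit 0) (.g 1 18 0 8 11 false false), .t 1 (nat_lit 0) (.g 1 13 0 8 12 false false), .t 1 (nat_lit 0) (.g 8 0 1 12 13 true true), .t 1 (nat_lit 0)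 (.g 14 1 0 8 12 true false), .t 1 (nat_lit 0) (.g 1 14 0 8 12 false false), .t 1 (nat_lit 0) (.g 15 1 0 8 12 true false), .t 1 (nat_lit 0) (.g 1 15 0 8 12 false false), .t 1 (nat_lit 0) (.g 16 1 0 8 12 true false), .t 1 (nat_lit 0) (.g 1 16 0 8 12 false false), .t 1 (nat_lit 0) (.g 1 12 0 8 16 false false), .t 1 (nat_lit 0) (.g 8 0 1 12 16 true true), .t 1 (nat_lit 0) (.g 17 1 0 8 12 true false), .t 1 (nat_lit 0) (.g 1 17 0 8 12 false false), .t 1 (nat_lit 0) (.g 1 12 0 8 17 false false), .t 1 (nat_lit 0) (.g 8 0 1 12 17 true true), .t 1 (nat_lit 0) (.g 18 1 0 8 12 true false), .t 1 (nat_lit 0) (.g 1 18 0 8 12 false false), .t 1 (nat_lit 0) (.g 8 0 1 12 18 true true), .t 1 (nat_lit 0) (.g 14 1 0 8 13 false false), .t 1 (nat_lit 0) (.g 14 8 0 1 13 true false), .t 1 (nat_lit 0) (.g 1 14 0 8 13 false false), .t 1 (nat_lit 0) (.g 1 13 0 8 14 false false), .t 1 (nat_lit 0) (.g 8 0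 1 13 14 true true), .t 1 (nat_lit 0) (.g 15 1 0 8 13 true false), .t 1 (nat_lit 0) (.g 15 8 0 1 13 true false), .t 1 (nat_lit 0) (.g 1 15 0 8 13 false false), .t 1 (nat_lit 0) (.g 1 13 0 8 15 false false), .t 1 (nat_lit 0) (.g 16 1 0 8 13 true false), .t 1 (nat_lit 0) (.g 16 8 0 1 13 true false), .t 1 (nat_lit 0) (.g 1 16 0 8 13 false false), .t 1 (nat_lit 0) (.g 1 13 0 8 16 false false), .t 1 (nat_lit 0) (.g 17 1 0 8 13 true false), .t 1 (nat_lit 0) (.g 17 8 0 1 13 true false), .t 1 (nat_lit 0) (.g 1 17 0 8 13 false false), .t 1 (nat_lit 0) (.g 1 13 0 8 17 false false), .t 1 (nat_lit 0) (.g 8 0 1 13 17 true true), .t 1 (nat_lit 0) (.g 13 8 0 1 18 true true)] (by decide +kernel) (by decide +kernel)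
theorem b20 : B 1280 1344 := Blk.of_chk [.t 1 (nat_lit 0) (.g 18 8 0 1 13 true false), .t 1 (nat_lit 0) (.g 1 18 0 8 13 false false), .t 1 (nat_lit 0) (.g 8 0 1 13 18 true true), .t 1 (nat_lit 0) (.g 1 8 0 14 15 true true), .t 1 (nat_lit 0) (.g 15 1 0 8 14 true false), .t 1 (nat_lit 0) (.g 1 15 0 8 14 false false), .t 1 (nat_lit 0) (.g 1 14 0 8 15 false false), .t 1 (nat_lit 0) (.g 16 8 0 1 14 true false), .t 1 (nat_lit 0) (.g 1 16 0 8 14 false false), .t 1 (nat_lit 0) (.g 1 14 0 8 16 false false), .t 1 (nat_lit 0) (.g 8 0 1 14 16 true false), .t 1 (nat_lit 0) (.g 1 8 0 14 17 true true), .t 1 (nat_lit 0) (.g 17 1 0 8 14 true false), .t 1 (nat_lit 0) (.g 17 8 0 1 14 true false), .t 1 (nat_lit 0) (.g 1 17 0 8 14 false false), .t 1 (nat_lit 0) (.g 8 0 1 14 17 true true), .t 1 (nat_lit 0) (.g 1 8 0 14 18 true true), .t 1 (nat_lit 0) (.g 18 1 0 8 14 true false), .t 1 (nat_lit 0) (.g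 1 18 0 8 14 false false), .t 1 (nat_lit 0) (.g 1 14 0 8 18 false false), .t 1 (nat_lit 0) (.g 8 0 1 14 18 true true), .t 1 (nat_lit 0) (.g 1 16 0 8 15 false false), .t 1 (nat_lit 0) (.g 1 15 0 8 16 false false), .t 1 (nat_lit 0) (.g 8 0 1 15 16 true true), .t 1 (nat_lit 0) (.g 17 1 0 8 15 true false), .t 1 (nat_lit 0) (.g 1 17 0 8 15 false false), .t 1 (nat_lit 0) (.g 1 15 0 8 17 false false), .t 1 (nat_lit 0) (.g 8 0 1 15 17 true true), .t 1 (nat_lit 0) (.g 18 8 0 1 15 true false), .t 1 (nat_lit 0) (.g 1 18 0 8 15 false false), .t 1 (nat_lit 0) (.g 8 0 1 15 18 true true), .t 1 (nat_lit 0) (.g 17 1 0 8 16 false false), .t 1 (nat_lit 0) (.g 17 1 0 8 16 true false), .t 1 (nat_lit 0) (.g 17 8 0 1 16 true false), .t 1 (nat_lit 0) (.g 1 17 0 8 16 false false), .t 1 (nat_lit 0) (.g 1 16 0 8 17 false false), .t 1 (nat_lit 0) (.g 8 0 1 16 17 true true), .t 1 (nat_lit 0) (.g 18 1 0 8 16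 true false), .t 1 (nat_lit 0) (.g 1 18 0 8 16 false false), .t 1 (nat_lit 0) (.g 8 0 1 16 18 true true), .t 1 (nat_lit 0) (.g 8 17 0 1 18 true true), .t 1 (nat_lit 0) (.g 1 8 0 17 18 true true), .t 1 (nat_lit 0) (.g 18 1 0 8 17 true false), .t 1 (nat_lit 0) (.g 8 0 1 17 18 true false), .t 1 (nat_lit 0) (.g 1 0 9 10 12 false false), .t 1 (nat_lit 0) (.g 9 12 0 1 10 false true), .t 1 (nat_lit 0) (.g 1 0 9 10 13 false false), .t 1 (nat_lit 0) (.g 9 13 0 1 10 false true), .t 1 (nat_lit 0) (.g 10 0 1 9 13 true false), .t 1 (nat_lit 0) (.g 9 14 0 1 10 false true), .t 1 (nat_lit 0) (.g 10 0 1 9 14 true false), .t 1 (nat_lit 0) (.g 1 0 9 10 15 false false), .t 1 (nat_lit 0) (.g 9 15 0 1 10 false true), .t 1 (nat_lit 0) (.g 0 10 1 9 16 false true), .t 1 (nat_lit 0) (.g 1 0 9 10 16 false false), .t 1 (nat_lit 0) (.g 9 16 0 1 10 false true), .t 1 (nat_lit 0) (.g 10 0 1 9 16 true false),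 .t 1 (nat_lit 0) (.g 0 10 1 9 17 false true), .t 1 (nat_lit 0) (.g 1 0 9 10 17 false false), .t 1 (nat_lit 0) (.g 9 17 0 1 10 false true), .t 1 (nat_lit 0) (.g 10 0 1 9 17 true false), .t 1 (nat_lit 0) (.g 1 0 9 10 18 false false), .t 1 (nat_lit 0) (.g 9 18 0 1 10 true true), .t 1 (nat_lit 0) (.g 0 10 1 9 18 false true)] (by decide +kernel) (by decide +kernel)
theorem b21 : B 1344 1408 := Blk.of_chk [.t 1 (nat_lit 0) (.g 9 18 0 1 10 false true), .t 1 (nat_lit 0) (.g 1 12 0 9 11 false false), .t 1 (nat_lit 0) (.g 1 11 0 9 12 false false), .t 1 (nat_lit 0) (.g 0 11 1 9 12 true true), .t 1 (nat_lit 0) (.g 1 13 0 9 11 false false), .t 1 (nat_lit 0) (.g 1 11 0 9 13 false false), .t 1 (nat_lit 0) (.g 0 11 1 9 13 true true), .t 1 (nat_lit 0) (.g 1 14 0 9 11 false false), .t 1 (nat_lit 0) (.g 1 11 0 9 14 false false), .t 1 (nat_lit 0) (.g 0 11 1 9 14 true true), .t 1 (nat_lit 0) (.g 1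 15 0 9 11 false false), .t 1 (nat_lit 0) (.g 0 11 1 9 15 true true), .t 1 (nat_lit 0) (.g 0 11 1 9 16 true true), .t 1 (nat_lit 0) (.g 1 16 0 9 11 false false), .t 1 (nat_lit 0) (.g 1 11 0 9 16 false false), .t 1 (nat_lit 0) (.g 1 17 0 9 11 false false), .t 1 (nat_lit 0) (.g 1 11 0 9 17 false false), .t 1 (nat_lit 0) (.g 0 11 1 9 17 true true), .t 1 (nat_lit 0) (.g 0 11 1 9 18 true true), .t 1 (nat_lit 0) (.g 1 18 0 9 11 false false), .t 1 (nat_lit 0) (.g 13 1 0 9 12 true false), .t 1 (nat_lit 0) (.g 1 13 0 9 12 false false), .t 1 (nat_lit 0) (.g 9 0 1 12 13 true true), .t 1 (nat_lit 0) (.g 1 9 0 12 14 true true), .t 1 (nat_lit 0) (.g 14 1 0 9 12 true false), .t 1 (nat_lit 0) (.g 14 9 0 1 12 true false), .t 1 (nat_lit 0) (.g 1 14 0 9 12 false false), .t 1 (nat_lit 0) (.g 1 12 0 9 14 false false), .t 1 (nat_lit 0) (.g 9 0 1 12 14 true true), .t 1 (nat_lit 0) (.g 9 0 1 12 14 true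 false), .t 1 (nat_lit 0) (.g 15 1 0 9 12 true false), .t 1 (nat_lit 0) (.g 1 12 0 9 15 false false), .t 1 (nat_lit 0) (.g 9 0 1 12 15 true true), .t 1 (nat_lit 0) (.g 16 1 0 9 12 true false), .t 1 (nat_lit 0) (.g 16 9 0 1 12 true false), .t 1 (nat_lit 0) (.g 1 16 0 9 12 false false), .t 1 (nat_lit 0) (.g 9 0 1 12 16 true true), .t 1 (nat_lit 0) (.g 9 0 1 12 16 true false), .t 1 (nat_lit 0) (.g 17 1 0 9 12 true false), .t 1 (nat_lit 0) (.g 1 17 0 9 12 false false), .t 1 (nat_lit 0) (.g 9 0 1 12 17 true true), .t 1 (nat_lit 0) (.g 1 9 0 12 18 true true), .t 1 (nat_lit 0) (.g 18 1 0 9 12 true false), .t 1 (nat_lit 0) (.g 1 18 0 9 12 false false), .t 1 (nat_lit 0) (.g 9 0 1 12 18 true true), .t 1 (nat_lit 0) (.g 14 1 0 9 13 false false), .t 1 (nat_lit 0) (.g 1 9 0 13 14 true true), .t 1 (nat_lit 0) (.g 14 1 0 9 13 true false), .t 1 (nat_lit 0) (.g 14 9 0 1 13 true false), .t 1 (nat_lit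 0) (.g 1 14 0 9 13 false false), .t 1 (nat_lit 0) (.g 1 13 0 9 14 false false), .t 1 (nat_lit 0) (.g 9 0 1 13 14 true true), .t 1 (nat_lit 0) (.g 9 0 1 13 14 true false), .t 1 (nat_lit 0) (.g 9 15 0 1 13 true true), .t 1 (nat_lit 0) (.g 1 9 0 13 15 true true), .t 1 (nat_lit 0) (.g 15 1 0 9 13 true false), .t 1 (nat_lit 0) (.g 15 9 0 1 13 true false), .t 1 (nat_lit 0) (.g 1 15 0 9 13 false false), .t 1 (nat_lit 0) (.g 1 13 0 9 15 false false), .t 1 (nat_lit 0) (.g 9 0 1 13 15 true true), .t 1 (nat_lit 0) (.g 9 0 1 13 15 true false), .t 1 (nat_lit 0) (.g 1 9 0 13 16 true true), .t 1 (nat_lit 0) (.g 16 1 0 9 13 true false), .t 1 (nat_lit 0) (.g 16 9 0 1 13 true false)] (by decide +kernel) (by decide +kernel)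
theorem b22 : B 1408 1472 := Blk.of_chk [.t 1 (nat_lit 0) (.g 1 16 0 9 13 false false), .t 1 (nat_lit 0) (.g 1 13 0 9 16 false false), .t 1 (nat_lit 0) (.g 9 0 1 13 16 true true), .t 1 (nat_lit 0) (.g 9 0 1 13 16 true false), .t 1 (nat_lit 0) (.g 1 9 0 13 17 true true), .t 1 (nat_lit 0) (.g 17 1 0 9 13 true false), .t 1 (nat_lit 0) (.g 17 9 0 1 13 true false), .t 1 (nat_lit 0) (.g 1 17 0 9 13 false false), .t 1 (nat_lit 0) (.g 1 13 0 9 17 false false), .t 1 (nat_lit 0) (.g 9 0 1 13 17 true true), .t 1 (nat_lit 0) (.g 9 18 0 1 13 true true), .t 1 (nat_lit 0) (.g 13 9 0 1 18 true true), .t 1 (nat_lit 0) (.g 1 9 0 13 18 true true), .t 1 (nat_lit 0) (.g 18 1 0 9 13 true false), .t 1 (nat_lit 0) (.g 18 9 0 1 13 true false), .t 1 (nat_lit 0) (.g 1 18 0 9 13 false false), .t 1 (nat_lit 0) (.g 9 0 1 13 18 true true), .t 1 (nat_lit 0) (.g 9 0 1 13 18 true false), .t 1 (nat_lit 0) (.g 1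 9 0 14 15 true true), .t 1 (nat_lit 0) (.g 15 1 0 9 14 true false), .t 1 (nat_lit 0) (.g 15 9 0 1 14 true false), .t 1 (nat_lit 0) (.g 1 15 0 9 14 false false), .t 1 (nat_lit 0) (.g 1 14 0 9 15 false false), .t 1 (nat_lit 0) (.g 9 0 1 14 15 true true), .t 1 (nat_lit 0) (.g 9 0 1 14 15 true false), .t 1 (nat_lit 0) (.g 1 9 0 14 16 true true), .t 1 (nat_lit 0) (.g 16 1 0 9 14 true false), .t 1 (nat_lit 0) (.g 16 9 0 1 14 true false), .t 1 (nat_lit 0) (.g 1 16 0 9 14 false false), .t 1 (nat_lit 0) (.g 1 14 0 9 16 false false), .t 1 (nat_lit 0) (.g 9 0 1 14 16 true true), .t 1 (nat_lit 0) (.g 9 0 1 14 16 true false), .t 1 (nat_lit 0) (.g 1 9 0 14 17 true true), .t 1 (nat_lit 0) (.g 17 1 0 9 14 true false), .t 1 (nat_lit 0) (.g 17 9 0 1 14 true false), .t 1 (nat_lit 0) (.g 1 17 0 9 14 false false), .t 1 (nat_lit 0) (.g 1 14 0 9 17 false false), .t 1 (nat_lit 0) (.g 9 0 1 14 17 true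 true), .t 1 (nat_lit 0) (.g 1 9 0 14 18 true true), .t 1 (nat_lit 0) (.g 18 1 0 9 14 true false), .t 1 (nat_lit 0) (.g 1 18 0 9 14 false false), .t 1 (nat_lit 0) (.g 1 14 0 9 18 false false), .t 1 (nat_lit 0) (.g 9 0 1 14 18 true true), .t 1 (nat_lit 0) (.g 9 0 1 14 18 true false), .t 1 (nat_lit 0) (.g 1 0 9 15 16 false true), .t 1 (nat_lit 0) (.g 16 1 0 9 15 true false), .t 1 (nat_lit 0) (.g 16 9 0 1 15 true false), .t 1 (nat_lit 0) (.g 1 15 0 9 16 false false), .t 1 (nat_lit 0) (.g 9 0 1 15 16 true true), .t 1 (nat_lit 0) (.g 9 0 1 15 16 true false), .t 1 (nat_lit 0) (.g 1 17 0 9 15 false false), .t 1 (nat_lit 0) (.g 1 15 0 9 17 false false), .t 1 (nat_lit 0) (.g 9 0 1 15 17 true true), .t 1 (nat_lit 0) (.g 1 9 0 15 18 true true), .t 1 (nat_lit 0) (.g 18 1 0 9 15 true false), .t 1 (nat_lit 0) (.g 9 0 1 15 18 true true), .t 1 (nat_lit 0) (.g 9 0 1 15 18 true false), .t 1 (nat_lit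 0) (.g 16 9 0 1 17 true true), .t 1 (nat_lit 0) (.g 17 1 0 9 16 true false), .t 1 (nat_lit 0) (.g 17 9 0 1 16 true false), .t 1 (nat_lit 0) (.g 1 17 0 9 16 false false), .t 1 (nat_lit 0) (.g 1 16 0 9 17 false false), .t 1 (nat_lit 0) (.g 9 0 1 16 17 true true), .t 1 (nat_lit 0) (.g 18 1 0 9 16 true false)] (by decide +kernel) (by decide +kernel)
theorem b23 : B 1472 1536 := Blk.of_chk [.t 1 (nat_lit 0) (.g 1 18 0 9 16 false false), .t 1 (nat_lit 0) (.g 1 16 0 9 18 false false), .t 1 (nat_lit 0) (.g 9 0 1 16 18 true true), .t 1 (nat_lit 0) (.g 9 0 1 16 18 true false), .t 1 (nat_lit 0) (.g 18 1 0 9 17 true false), .t 1 (nat_lit 0) (.g 18 9 0 1 17 true false), .t 1 (nat_lit 0) (.g 9 0 1 17 18 true true), .t 1 (nat_lit 0) (.g 9 0 1 17 18 true false), .t 1 (nat_lit 0) (.g 1 12 0 10 11 false false), .t 1 (nat_lit 0) (.g 1 11 0 10 12 false false), .t 1 (nat_lit 0) (.g 0 11 1 10 12 true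 true), .t 1 (nat_lit 0) (.g 0 11 1 10 13 true true), .t 1 (nat_lit 0) (.g 1 13 0 10 11 false false), .t 1 (nat_lit 0) (.g 1 11 0 10 13 false false), .t 1 (nat_lit 0) (.g 1 14 0 10 11 false false), .t 1 (nat_lit 0) (.g 1 11 0 10 14 false false), .t 1 (nat_lit 0) (.g 0 11 1 10 14 true true), .t 1 (nat_lit 0) (.g 0 11 1 10 15 true true), .t 1 (nat_lit 0) (.g 1 15 0 10 11 false false), .t 1 (nat_lit 0) (.g 1 11 0 10 15 false false), .t 1 (nat_lit 0) (.g 1 16 0 10 11 false false), .t 1 (nat_lit 0) (.g 1 11 0 10 16 false false), .t 1 (nat_lit 0) (.g 1 17 0 10 11 false false), .t 1 (nat_lit 0) (.g 0 11 1 10 17 true true), .t 1 (nat_lit 0) (.g 1 18 0 10 11 false false), .t 1 (nat_lit 0) (.g 0 11 1 10 18 true true), .t 1 (nat_lit 0) (.g 13 1 0 10 12 true false), .t 1 (nat_lit 0) (.g 1 13 0 10 12 false false), .t 1 (nat_lit 0) (.g 10 0 1 12 13 true true), .t 1 (nat_lit 0) (.g 10 0 1 12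 13 true false), .t 1 (nat_lit 0) (.g 14 1 0 10 12 true false), .t 1 (nat_lit 0) (.g 14 10 0 1 12 true false), .t 1 (nat_lit 0) (.g 1 14 0 10 12 false false), .t 1 (nat_lit 0) (.g 1 12 0 10 14 false false), .t 1 (nat_lit 0) (.g 10 0 1 12 14 true false), .t 1 (nat_lit 0) (.g 15 1 0 10 12 true false), .t 1 (nat_lit 0) (.g 1 15 0 10 12 false false), .t 1 (nat_lit 0) (.g 0 11 1 10 16 true true), .t 1 (nat_lit 0) (.g 16 1 0 10 12 true false), .t 1 (nat_lit 0) (.g 16 10 0 1 12 true false), .t 1 (nat_lit 0) (.g 1 16 0 10 12 false false), .t 1 (nat_lit 0) (.g 1 12 0 10 16 false false), .t 1 (nat_lit 0) (.g 10 0 1 12 16 true true), .t 1 (nat_lit 0) (.g 17 1 0 10 12 true false), .t 1 (nat_lit 0) (.g 1 17 0 10 12 false false), .t 1 (nat_lit 0) (.g 1 12 0 10 17 false false), .t 1 (nat_lit 0) (.g 10 0 1 12 17 true true), .t 1 (nat_lit 0) (.g 18 1 0 10 12 true false), .t 1 (nat_lit 0) (.g 18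 10 0 1 12 true false), .t 1 (nat_lit 0) (.g 1 18 0 10 12 false false), .t 1 (nat_lit 0) (.g 1 12 0 10 18 false false), .t 1 (nat_lit 0) (.g 10 0 1 12 18 true true), .t 1 (nat_lit 0) (.g 14 1 0 10 13 false false), .t 1 (nat_lit 0) (.g 1 10 0 13 14 true true), .t 1 (nat_lit 0) (.g 14 1 0 10 13 true false), .t 1 (nat_lit 0) (.g 14 10 0 1 13 true false), .t 1 (nat_lit 0) (.g 1 14 0 10 13 false false), .t 1 (nat_lit 0) (.g 1 13 0 10 14 false false), .t 1 (nat_lit 0) (.g 10 0 1 13 14 true true), .t 1 (nat_lit 0) (.g 10 0 1 13 14 true false), .t 1 (nat_lit 0) (.g 1 10 0 13 15 true true), .t 1 (nat_lit 0) (.g 15 1 0 10 13 true false), .t 1 (nat_lit 0) (.g 15 10 0 1 13 true false), .t 1 (nat_lit 0) (.g 1 15 0 10 13 false false)] (by decide +kernel) (by decide +kernel)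
theorem b24 : B 1536 1600 := Blk.of_chk [.t 1 (nat_lit 0) (.g 1 13 0 10 15 false false), .t 1 (nat_lit 0) (.g 10 0 1 13 15 true true), .t 1 (nat_lit 0) (.g 10 0 1 13 15 true false), .t 1 (nat_lit 0) (.g 1 10 0 13 16 true true), .t 1 (nat_lit 0) (.g 16 1 0 10 13 true false), .t 1 (nat_lit 0) (.g 16 10 0 1 13 true false), .t 1 (nat_lit 0) (.g 1 16 0 10 13 false false), .t 1 (nat_lit 0) (.g 1 13 0 10 16 false false), .t 1 (nat_lit 0) (.g 17 1 0 10 13 true false), .t 1 (nat_lit 0) (.g 17 10 0 1 13 true false), .t 1 (nat_lit 0) (.g 1 17 0 10 13 false false), .t 1 (nat_lit 0) (.g 1 13 0 10 17 false false), .t 1 (nat_lit 0) (.g 10 0 1 13 17 true true), .t 1 (nat_lit 0) (.g 13 10 0 1 18 true true), .t 1 (nat_lit 0) (.g 1 10 0 13 18 true true), .t 1 (nat_lit 0) (.g 18 10 0 1 13 true false), .t 1 (nat_lit 0) (.g 1 18 0 10 13 false false), .t 1 (nat_lit 0) (.g 10 0 1 13 18 true true), .t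 1 (nat_lit 0) (.g 1 10 0 14 15 true true), .t 1 (nat_lit 0) (.g 15 1 0 10 14 true false), .t 1 (nat_lit 0) (.g 1 15 0 10 14 false false), .t 1 (nat_lit 0) (.g 1 14 0 10 15 false false), .t 1 (nat_lit 0) (.g 16 10 0 1 14 true false), .t 1 (nat_lit 0) (.g 1 16 0 10 14 false false), .t 1 (nat_lit 0) (.g 1 14 0 10 16 false false), .t 1 (nat_lit 0) (.g 10 0 1 14 16 true true), .t 1 (nat_lit 0) (.g 1 10 0 14 17 true true), .t 1 (nat_lit 0) (.g 17 1 0 10 14 true false), .t 1 (nat_lit 0) (.g 1 17 0 10 14 false false), .t 1 (nat_lit 0) (.g 10 0 1 14 17 true true), .t 1 (nat_lit 0) (.g 1 10 0 14 18 true true), .t 1 (nat_lit 0) (.g 18 1 0 10 14 true false), .t 1 (nat_lit 0) (.g 1 18 0 10 14 false false), .t 1 (nat_lit 0) (.g 1 14 0 10 18 false false), .t 1 (nat_lit 0) (.g 10 0 1 14 18 true true), .t 1 (nat_lit 0) (.g 1 16 0 10 15 false false), .t 1 (nat_lit 0) (.g 1 15 0 10 16 false false),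 .t 1 (nat_lit 0) (.g 10 0 1 15 16 true true), .t 1 (nat_lit 0) (.g 10 0 1 15 16 true false), .t 1 (nat_lit 0) (.g 17 1 0 10 15 true false), .t 1 (nat_lit 0) (.g 1 17 0 10 15 false false), .t 1 (nat_lit 0) (.g 1 15 0 10 17 false false), .t 1 (nat_lit 0) (.g 10 0 1 15 17 true true), .t 1 (nat_lit 0) (.g 18 10 0 1 15 true false), .t 1 (nat_lit 0) (.g 1 18 0 10 15 false false), .t 1 (nat_lit 0) (.g 10 0 1 15 18 true true), .t 1 (nat_lit 0) (.g 16 10 0 1 17 true true), .t 1 (nat_lit 0) (.g 17 1 0 10 16 true false), .t 1 (nat_lit 0) (.g 17 10 0 1 16 true false), .t 1 (nat_lit 0) (.g 1 17 0 10 16 false false), .t 1 (nat_lit 0) (.g 1 16 0 10 17 false false), .t 1 (nat_lit 0) (.g 10 0 1 16 17 true true), .t 1 (nat_lit 0) (.g 1 10 0 16 18 true true), .t 1 (nat_lit 0) (.g 18 1 0 10 16 true false), .t 1 (nat_lit 0) (.g 18 10 0 1 16 true false), .t 1 (nat_lit 0) (.g 1 18 0 10 16 false false),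 .t 1 (nat_lit 0) (.g 1 16 0 10 18 false false), .t 1 (nat_lit 0) (.g 10 0 1 16 18 true true), .t 1 (nat_lit 0) (.g 18 1 0 10 17 false false), .t 1 (nat_lit 0) (.g 18 1 0 10 17 true false), .t 1 (nat_lit 0) (.g 1 17 0 10 18 false false), .t 1 (nat_lit 0) (.g 10 0 1 17 18 true false), .t 1 (nat_lit 0) (.g 0 11 1 12 13 true true), .t 1 (nat_lit 0) (.g 0 11 1 12 14 true true)] (by decide +kernel) (by decide +kernel)
theorem b25 : B 1600 1664 := Blk.of_chk [.t 1 (nat_lit 0) (.g 0 11 1 12 15 true true), .t 1 (nat_lit 0) (.g 0 11 1 12 16 true true), .t 1 (nat_lit 0) (.g 0 11 1 12 17 true true), .t 1 (nat_lit 0) (.g 0 11 1 12 18 true true), .t 1 (nat_lit 0) (.g 0 11 1 13 14 true true), .t 1 (nat_lit 0) (.g 11 0 1 13 15 false true), .t 1 (nat_lit 0) (.g 0 11 1 13 15 true true), .t 1 (nat_lit 0) (.g 11 0 1 13 16 false true), .t 1 (nat_lit 0) (.g 0 11 1 13 16 true true), .t 1 (nat_lit 0)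 (.g 11 0 1 13 17 false true), .t 1 (nat_lit 0) (.g 0 11 1 13 17 true true), .t 1 (nat_lit 0) (.g 0 11 1 13 18 true true), .t 1 (nat_lit 0) (.g 0 11 1 14 15 true true), .t 1 (nat_lit 0) (.g 0 11 1 14 16 true true), .t 1 (nat_lit 0) (.g 0 11 1 14 17 true true), .t 1 (nat_lit 0) (.g 0 11 1 14 18 true true), .t 1 (nat_lit 0) (.g 0 11 1 15 16 true true), .t 1 (nat_lit 0) (.g 0 11 1 15 17 true true), .t 1 (nat_lit 0) (.g 0 11 1 15 18 true true), .t 1 (nat_lit 0) (.g 0 11 1 16 17 true true), .t 1 (nat_lit 0) (.g 11 0 1 16 18 false true), .t 1 (nat_lit 0) (.g 0 11 1 16 18 true true), .t 1 (nat_lit 0) (.g 0 11 1 17 18 true true), .t 1 (nat_lit 0) (.g 1 0 13 14 15 false false), .t 1 (nat_lit 0) (.g 1 0 13 14 15 false true), .t 1 (nat_lit 0) (.g 1 0 13 14 16 false false), .t 1 (nat_lit 0) (.g 1 0 13 14 16 false true), .t 1 (nat_lit 0) (.g 1 0 13 14 17 false true), .t 1 (nat_lit 0) (.g 1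 0 13 14 18 false true), .t 1 (nat_lit 0) (.g 1 0 13 15 16 false false), .t 1 (nat_lit 0) (.g 1 0 13 15 16 false true), .t 1 (nat_lit 0) (.g 1 0 14 15 16 false false), .t 1 (nat_lit 0) (.g 1 0 14 15 18 false true), .t 1 (nat_lit 0) (.g 1 0 14 17 18 false false), .t 1 (nat_lit 0) (.g 1 0 14 17 18 false true), .t 1 (nat_lit 0) (.g 1 0 15 16 17 false true), .t 1 (nat_lit 0) (.g 1 0 15 16 18 false true), .t 1 (nat_lit 0) (.g 1 0 15 17 18 false true), .t 1 (nat_lit 0) (.g 3 2 0 4 12 false false), .t 1 (nat_lit 0) (.g 4 0 2 3 12 true true), .t 1 (nat_lit 0) (.g 3 2 0 4 13 false false), .t 1 (nat_lit 0) (.g 4 0 2 3 13 true true), .t 1 (nat_lit 0) (.g 3 2 0 4 14 false false), .t 1 (nat_lit 0) (.g 4 0 2 3 14 true true), .t 1 (nat_lit 0) (.g 2 0 3 4 15 false true), .t 1 (nat_lit 0) (.g 3 2 0 4 15 false false), .t 1 (nat_lit 0) (.g 2 0 3 4 16 false true), .t 1 (nat_lit 0) (.g 3 2 0 4 16 false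 false), .t 1 (nat_lit 0) (.g 4 0 2 3 16 true true), .t 1 (nat_lit 0) (.g 2 0 3 4 17 false true), .t 1 (nat_lit 0) (.g 3 4 0 2 17 true true), .t 1 (nat_lit 0) (.g 3 2 0 4 17 false false), .t 1 (nat_lit 0) (.g 3 2 0 4 18 false false), .t 1 (nat_lit 0) (.g 4 0 2 3 18 true true), .t 1 (nat_lit 0) (.g 3 2 0 5 12 false false), .t 1 (nat_lit 0) (.g 5 0 2 3 12 true true), .t 1 (nat_lit 0) (.g 5 0 2 3 13 true true), .t 1 (nat_lit 0) (.g 2 0 3 5 15 false true), .t 1 (nat_lit 0) (.g 2 0 3 5 18 false true), .t 1 (nat_lit 0) (.g 3 2 0 5 18 false false), .t 1 (nat_lit 0) (.g 3 2 0 6 14 false false), .t 1 (nat_lit 0) (.g 2 0 3 6 18 false true), .t 1 (nat_lit 0) (.g 3 2 0 6 18 false false), .t 1 (nat_lit 0) (.g 7 0 2 3 13 true true)] (by decide +kernel) (by decide +kernel)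
theorem b26 : B 1664 1728 := Blk.of_chk [.t 1 (nat_lit 0) (.g 2 0 3 7 15 false true), .t 1 (nat_lit 0) (.g 2 0 3 7 17 false true), .t 1 (nat_lit 0) (.g 2 0 3 7 18 false true), .t 1 (nat_lit 0) (.g 7 0 2 3 18 true true), .t 1 (nat_lit 0) (.g 8 0 2 3 16 true true), .t 1 (nat_lit 0) (.g 3 2 0 8 17 false false), .t 1 (nat_lit 0) (.g 8 0 2 3 17 true true), .t 1 (nat_lit 0) (.g 3 2 0 8 18 false false), .t 1 (nat_lit 0) (.g 8 0 2 3 18 true true), .t 1 (nat_lit 0) (.g 9 0 2 3 12 true true), .t 1 (nat_lit 0) (.g 3 2 0 9 13 false false), .t 1 (nat_lit 0) (.g 9 0 2 3 13 true true), .t 1 (nat_lit 0) (.g 3 2 0 9 14 false false), .t 1 (nat_lit 0) (.g 9 0 2 3 14 true true), .t 1 (nat_lit 0) (.g 9 0 2 3 15 true true), .t 1 (nat_lit 0) (.g 9 0 2 3 16 true true), .t 1 (nat_lit 0) (.g 3 2 0 9 17 false false), .t 1 (nat_lit 0) (.g 9 0 2 3 17 true true), .t 1 (nat_lit 0) (.g 3 2 0 9 18 false false),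 .t 1 (nat_lit 0) (.g 9 0 2 3 18 true true), .t 1 (nat_lit 0) (.g 10 0 2 3 12 true true), .t 1 (nat_lit 0) (.g 10 0 2 3 13 true true), .t 1 (nat_lit 0) (.g 10 0 2 3 17 true true), .t 1 (nat_lit 0) (.g 3 2 0 10 18 false false), .t 1 (nat_lit 0) (.g 10 0 2 3 18 true true), .t 1 (nat_lit 0) (.g 2 11 0 3 12 false false), .t 1 (nat_lit 0) (.g 0 11 2 3 12 true true), .t 1 (nat_lit 0) (.g 2 11 0 3 13 false false), .t 1 (nat_lit 0) (.g 0 11 2 3 13 true true), .t 1 (nat_lit 0) (.g 2 11 0 3 14 false false), .t 1 (nat_lit 0) (.g 0 11 2 3 14 true true), .t 1 (nat_lit 0) (.g 0 11 2 3 15 true true), .t 1 (nat_lit 0) (.g 0 11 2 3 16 true true), .t 1 (nat_lit 0) (.g 0 11 2 3 17 true true), .t 1 (nat_lit 0) (.g 2 17 0 3 11 false false), .t 1 (nat_lit 0) (.g 2 11 0 3 17 false false), .t 1 (nat_lit 0) (.g 2 18 0 3 11 false false), .t 1 (nat_lit 0) (.g 2 11 0 3 18 false false), .t 1 (nat_lit 0) (.g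 0 11 2 3 18 true true), .t 1 (nat_lit 0) (.g 2 13 0 3 12 false false), .t 1 (nat_lit 0) (.g 2 12 0 3 13 false false), .t 1 (nat_lit 0) (.g 2 14 0 3 12 false false), .t 1 (nat_lit 0) (.g 2 12 0 3 15 false false), .t 1 (nat_lit 0) (.g 2 17 0 3 12 false false), .t 1 (nat_lit 0) (.g 14 2 0 3 13 true false), .t 1 (nat_lit 0) (.g 14 3 0 2 13 true false), .t 1 (nat_lit 0) (.g 2 14 0 3 13 false false), .t 1 (nat_lit 0) (.g 3 0 2 13 14 true true), .t 1 (nat_lit 0) (.g 3 0 2 13 14 true false), .t 1 (nat_lit 0) (.g 15 2 0 3 13 true false), .t 1 (nat_lit 0) (.g 15 3 0 2 13 true false), .t 1 (nat_lit 0) (.g 16 3 0 2 13 true false), .t 1 (nat_lit 0) (.g 17 3 0 2 13 true false), .t 1 (nat_lit 0) (.g 2 17 0 3 13 false false), .t 1 (nat_lit 0) (.g 2 13 0 3 17 false false), .t 1 (nat_lit 0) (.g 3 0 2 13 17 true true), .t 1 (nat_lit 0) (.g 18 3 0 2 13 true false), .t 1 (nat_lit 0) (.g 2 18 0 3 13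 false false), .t 1 (nat_lit 0) (.g 3 0 2 13 18 true true), .t 1 (nat_lit 0) (.g 3 0 2 13 18 true false), .t 1 (nat_lit 0) (.g 15 3 0 2 14 true false), .t 1 (nat_lit 0) (.g 2 14 0 3 15 false false), .t 1 (nat_lit 0) (.g 3 0 2 14 15 true false), .t 1 (nat_lit 0) (.g 2 17 0 3 14 false false)] (by decide +kernel) (by decide +kernel)
theorem b27 : B 1728 1792 := Blk.of_chk [.t 1 (nat_lit 0) (.g 2 14 0 3 17 false false), .t 1 (nat_lit 0) (.g 3 0 2 14 17 true false), .t 1 (nat_lit 0) (.g 18 3 0 2 14 true false), .t 1 (nat_lit 0) (.g 2 18 0 3 14 false false), .t 1 (nat_lit 0) (.g 3 0 2 14 18 true false), .t 1 (nat_lit 0) (.g 3 15 0 2 16 true true), .t 1 (nat_lit 0) (.g 15 3 0 2 16 false true), .t 1 (nat_lit 0) (.g 16 3 0 2 15 true false), .t 1 (nat_lit 0) (.g 3 15 0 2 17 true true), .t 1 (nat_lit 0) (.g 2 17 0 3 15 false false), .t 1 (nat_lit 0) (.g 2 15 0 3 17 false false), .t 1 (nat_lit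 0) (.g 3 0 2 15 17 true true), .t 1 (nat_lit 0) (.g 2 15 0 3 18 false false), .t 1 (nat_lit 0) (.g 2 16 0 3 17 false false), .t 1 (nat_lit 0) (.g 3 0 2 16 17 true true), .t 1 (nat_lit 0) (.g 18 3 0 2 16 true false), .t 1 (nat_lit 0) (.g 2 18 0 3 16 false false), .t 1 (nat_lit 0) (.g 2 16 0 3 18 false false), .t 1 (nat_lit 0) (.g 3 0 2 16 18 true false), .t 1 (nat_lit 0) (.g 2 18 0 3 17 false false), .t 1 (nat_lit 0) (.g 2 17 0 3 18 false false), .t 1 (nat_lit 0) (.g 3 0 2 17 18 true false), .t 1 (nat_lit 0) (.g 4 2 0 5 12 false false), .t 1 (nat_lit 0) (.g 5 0 2 4 12 true true), .t 1 (nat_lit 0) (.g 5 0 2 4 13 true true), .t 1 (nat_lit 0) (.g 2 0 4 5 16 false true), .t 1 (nat_lit 0) (.g 4 2 0 5 17 false false), .t 1 (nat_lit 0) (.g 4 2 0 6 12 false false), .t 1 (nat_lit 0) (.g 6 0 2 4 12 true true), .t 1 (nat_lit 0) (.g 4 2 0 6 13 false false), .t 1 (nat_lit 0) (.g 6 0 2 4 13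 true true), .t 1 (nat_lit 0) (.g 4 2 0 6 14 false false), .t 1 (nat_lit 0) (.g 6 0 2 4 14 true true), .t 1 (nat_lit 0) (.g 4 6 0 2 16 true true), .t 1 (nat_lit 0) (.g 4 2 0 7 12 false false), .t 1 (nat_lit 0) (.g 7 0 2 4 12 true true), .t 1 (nat_lit 0) (.g 7 0 2 4 13 true true), .t 1 (nat_lit 0) (.g 4 2 0 7 14 false false), .t 1 (nat_lit 0) (.g 7 0 2 4 14 true true), .t 1 (nat_lit 0) (.g 2 0 4 7 15 false true), .t 1 (nat_lit 0) (.g 4 7 0 2 15 true true), .t 1 (nat_lit 0) (.g 2 0 4 7 16 false true), .t 1 (nat_lit 0) (.g 4 7 0 2 16 true true), .t 1 (nat_lit 0) (.g 4 7 0 2 17 true true), .t 1 (nat_lit 0) (.g 4 2 0 7 17 false false), .t 1 (nat_lit 0) (.g 2 0 4 7 18 false true), .t 1 (nat_lit 0) (.g 7 0 2 4 18 true true), .t 1 (nat_lit 0) (.g 8 0 2 4 12 true true), .t 1 (nat_lit 0) (.g 4 2 0 8 13 false false), .t 1 (nat_lit 0) (.g 8 0 2 4 13 true true), .t 1 (nat_lit 0) (.g 4 2 0 8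 14 false false), .t 1 (nat_lit 0) (.g 8 0 2 4 14 true true), .t 1 (nat_lit 0) (.g 4 8 0 2 16 true true), .t 1 (nat_lit 0) (.g 4 8 0 2 17 true true), .t 1 (nat_lit 0) (.g 4 2 0 8 17 false false), .t 1 (nat_lit 0) (.g 8 0 2 4 17 true true), .t 1 (nat_lit 0) (.g 4 2 0 8 18 false false), .t 1 (nat_lit 0) (.g 8 0 2 4 18 true true), .t 1 (nat_lit 0) (.g 9 0 2 4 12 true true), .t 1 (nat_lit 0) (.g 4 2 0 9 13 false false), .t 1 (nat_lit 0) (.g 9 0 2 4 13 true true), .t 1 (nat_lit 0) (.g 4 2 0 9 14 false false), .t 1 (nat_lit 0) (.g 9 0 2 4 14 true true), .t 1 (nat_lit 0) (.g 9 0 2 4 15 true true)] (by decide +kernel) (by decide +kernel)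
theorem b28 : B 1792 1856 := Blk.of_chk [.t 1 (nat_lit 0) (.g 9 0 2 4 16 true true), .t 1 (nat_lit 0) (.g 9 0 2 4 17 true true), .t 1 (nat_lit 0) (.g 9 0 2 4 18 true true), .t 1 (nat_lit 0) (.g 10 0 2 4 12 true true), .t 1 (nat_lit 0) (.g 4 2 0 10 13 false false), .t 1 (nat_lit 0) (.g 10 0 2 4 13 true true), .t 1 (nat_lit 0) (.g 4 2 0 10 15 false false), .t 1 (nat_lit 0) (.g 10 0 2 4 18 true true), .t 1 (nat_lit 0) (.g 2 11 0 4 12 false false), .t 1 (nat_lit 0) (.g 0 11 2 4 12 true true), .t 1 (nat_lit 0) (.g 2 11 0 4 13 false false), .t 1 (nat_lit 0) (.g 0 11 2 4 13 true true), .t 1 (nat_lit 0) (.g 2 14 0 4 11 false false), .t 1 (nat_lit 0) (.g 2 11 0 4 14 false false), .t 1 (nat_lit 0) (.g 0 11 2 4 14 true true), .t 1 (nat_lit 0) (.g 0 11 2 4 15 true true), .t 1 (nat_lit 0) (.g 2 11 0 4 15 false false), .t 1 (nat_lit 0) (.g 0 11 2 4 16 true true), .t 1 (nat_lit 0) (.g 0 11 2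 4 17 true true), .t 1 (nat_lit 0) (.g 2 17 0 4 11 false false), .t 1 (nat_lit 0) (.g 2 11 0 4 17 false false), .t 1 (nat_lit 0) (.g 2 11 0 4 18 false false), .t 1 (nat_lit 0) (.g 13 4 0 2 12 true false), .t 1 (nat_lit 0) (.g 2 13 0 4 12 false false), .t 1 (nat_lit 0) (.g 14 4 0 2 12 true false), .t 1 (nat_lit 0) (.g 0 11 2 4 18 true true), .t 1 (nat_lit 0) (.g 4 0 2 12 18 true false), .t 1 (nat_lit 0) (.g 14 2 0 4 13 true false), .t 1 (nat_lit 0) (.g 14 4 0 2 13 true false), .t 1 (nat_lit 0) (.g 2 14 0 4 13 false false), .t 1 (nat_lit 0) (.g 2 13 0 4 14 false false), .t 1 (nat_lit 0) (.g 4 0 2 13 14 true true), .t 1 (nat_lit 0) (.g 4 0 2 13 14 true false), .t 1 (nat_lit 0) (.g 15 2 0 4 13 true false), .t 1 (nat_lit 0) (.g 15 4 0 2 13 true false), .t 1 (nat_lit 0) (.g 16 4 0 2 13 true false), .t 1 (nat_lit 0) (.g 17 4 0 2 13 true false), .t 1 (nat_lit 0) (.g 2 13 0 4 17 false false),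 .t 1 (nat_lit 0) (.g 4 0 2 13 17 true true), .t 1 (nat_lit 0) (.g 4 0 2 13 17 true false), .t 1 (nat_lit 0) (.g 18 2 0 4 13 true false), .t 1 (nat_lit 0) (.g 18 4 0 2 13 true false), .t 1 (nat_lit 0) (.g 2 18 0 4 13 false false), .t 1 (nat_lit 0) (.g 2 13 0 4 18 false false), .t 1 (nat_lit 0) (.g 4 0 2 13 18 true false), .t 1 (nat_lit 0) (.g 15 2 0 4 14 true false), .t 1 (nat_lit 0) (.g 15 4 0 2 14 true false), .t 1 (nat_lit 0) (.g 2 15 0 4 14 false false), .t 1 (nat_lit 0) (.g 4 2 0 14 16 false true), .t 1 (nat_lit 0) (.g 16 4 0 2 14 true false), .t 1 (nat_lit 0) (.g 2 16 0 4 14 false false), .t 1 (nat_lit 0) (.g 2 14 0 4 16 false false), .t 1 (nat_lit 0) (.g 17 4 0 2 14 true false), .t 1 (nat_lit 0) (.g 2 17 0 4 14 false false), .t 1 (nat_lit 0) (.g 2 14 0 4 17 false false), .t 1 (nat_lit 0) (.g 4 0 2 14 17 true false), .t 1 (nat_lit 0) (.g 4 0 2 14 18 true false), .t 1 (nat_lit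 0) (.g 4 15 0 2 16 true true), .t 1 (nat_lit 0) (.g 15 4 0 2 16 true true), .t 1 (nat_lit 0) (.g 16 2 0 4 15 false false), .t 1 (nat_lit 0) (.g 2 15 0 4 16 false false), .t 1 (nat_lit 0) (.g 17 4 0 2 15 true false), .t 1 (nat_lit 0) (.g 4 0 2 15 17 true false), .t 1 (nat_lit 0) (.g 15 4 0 2 18 true true)] (by decide +kernel) (by decide +kernel)
theorem b29 : B 1856 1920 := Blk.of_chk [.t 1 (nat_lit 0) (.g 2 15 0 4 18 false false), .t 1 (nat_lit 0) (.g 4 0 2 15 18 true false), .t 1 (nat_lit 0) (.g 4 16 0 2 17 true true), .t 1 (nat_lit 0) (.g 16 4 0 2 17 true true), .t 1 (nat_lit 0) (.g 2 17 0 4 16 false false), .t 1 (nat_lit 0) (.g 4 0 2 16 17 true false), .t 1 (nat_lit 0) (.g 4 16 0 2 18 true true), .t 1 (nat_lit 0) (.g 18 2 0 4 16 false false), .t 1 (nat_lit 0) (.g 18 4 0 2 16 true false), .t 1 (nat_lit 0) (.g 2 16 0 4 18 false false), .t 1 (nat_lit 0) (.g 4 0 2 16 18 true false),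 .t 1 (nat_lit 0) (.g 18 4 0 2 17 true false), .t 1 (nat_lit 0) (.g 2 17 0 4 18 false false), .t 1 (nat_lit 0) (.g 4 0 2 17 18 true false), .t 1 (nat_lit 0) (.g 5 13 0 2 6 false true), .t 1 (nat_lit 0) (.g 6 0 2 5 13 true false), .t 1 (nat_lit 0) (.g 2 0 5 6 14 false false), .t 1 (nat_lit 0) (.g 2 0 5 6 16 false false), .t 1 (nat_lit 0) (.g 5 16 0 2 6 true true), .t 1 (nat_lit 0) (.g 0 6 2 5 16 false true), .t 1 (nat_lit 0) (.g 2 0 5 6 17 false false), .t 1 (nat_lit 0) (.g 5 17 0 2 6 false true), .t 1 (nat_lit 0) (.g 5 18 0 2 6 true true), .t 1 (nat_lit 0) (.g 5 18 0 2 6 false true), .t 1 (nat_lit 0) (.g 5 2 0 7 12 false false), .t 1 (nat_lit 0) (.g 5 2 0 7 13 false false), .t 1 (nat_lit 0) (.g 5 2 0 7 14 false false), .t 1 (nat_lit 0) (.g 5 7 0 2 16 true true), .t 1 (nat_lit 0) (.g 5 7 0 2 17 true true), .t 1 (nat_lit 0) (.g 5 7 0 2 18 true true), .t 1 (nat_lit 0) (.g 5 2 0 8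 13 false false), .t 1 (nat_lit 0) (.g 2 0 5 8 16 false true), .t 1 (nat_lit 0) (.g 5 2 0 8 16 false false), .t 1 (nat_lit 0) (.g 2 0 5 8 17 false true), .t 1 (nat_lit 0) (.g 5 2 0 8 17 false false), .t 1 (nat_lit 0) (.g 8 0 2 5 17 true true), .t 1 (nat_lit 0) (.g 5 2 0 8 18 false false), .t 1 (nat_lit 0) (.g 8 0 2 5 18 true true), .t 1 (nat_lit 0) (.g 9 0 2 5 12 true true), .t 1 (nat_lit 0) (.g 5 2 0 9 13 false false), .t 1 (nat_lit 0) (.g 9 0 2 5 13 true true), .t 1 (nat_lit 0) (.g 5 2 0 9 14 false false), .t 1 (nat_lit 0) (.g 9 0 2 5 14 true true), .t 1 (nat_lit 0) (.g 9 0 2 5 15 true true), .t 1 (nat_lit 0) (.g 9 0 2 5 16 true true), .t 1 (nat_lit 0) (.g 9 0 2 5 17 true true), .t 1 (nat_lit 0) (.g 9 0 2 5 18 true true), .t 1 (nat_lit 0) (.g 5 2 0 10 13 false false), .t 1 (nat_lit 0) (.g 10 0 2 5 13 true true), .t 1 (nat_lit 0) (.g 10 0 2 5 14 true true), .t 1 (nat_lit 0) (.g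 2 0 5 10 15 false true), .t 1 (nat_lit 0) (.g 5 2 0 10 15 false false), .t 1 (nat_lit 0) (.g 10 0 2 5 17 true true), .t 1 (nat_lit 0) (.g 10 0 2 5 18 true true), .t 1 (nat_lit 0) (.g 2 11 0 5 12 false false), .t 1 (nat_lit 0) (.g 0 11 2 5 12 true true), .t 1 (nat_lit 0) (.g 2 11 0 5 13 false false), .t 1 (nat_lit 0) (.g 0 11 2 5 13 true true), .t 1 (nat_lit 0) (.g 2 11 0 5 14 false false), .t 1 (nat_lit 0) (.g 0 11 2 5 14 true true), .t 1 (nat_lit 0) (.g 0 11 2 5 15 true true), .t 1 (nat_lit 0) (.g 2 11 0 5 15 false false), .t 1 (nat_lit 0) (.g 0 11 2 5 16 true true), .t 1 (nat_lit 0) (.g 0 11 2 5 17 true true)] (by decide +kernel) (by decide +kernel)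
theorem b30 : B 1920 1984 := Blk.of_chk [.t 1 (nat_lit 0) (.g 2 17 0 5 11 false false), .t 1 (nat_lit 0) (.g 2 11 0 5 17 false false), .t 1 (nat_lit 0) (.g 2 11 0 5 18 false false), .t 1 (nat_lit 0) (.g 13 5 0 2 12 true false), .t 1 (nat_lit 0) (.g 15 2 0 5 12 true false), .t 1 (nat_lit 0) (.g 16 5 0 2 12 true false), .t 1 (nat_lit 0) (.g 2 17 0 5 12 false false), .t 1 (nat_lit 0) (.g 0 11 2 5 18 true true), .t 1 (nat_lit 0) (.g 2 12 0 5 18 false false), .t 1 (nat_lit 0) (.g 14 2 0 5 13 true false), .t 1 (nat_lit 0) (.g 14 5 0 2 13 true false), .t 1 (nat_lit 0) (.g 2 14 0 5 13 false false), .t 1 (nat_lit 0) (.g 2 13 0 5 14 false false), .t 1 (nat_lit 0) (.g 5 0 2 13 14 true true), .t 1 (nat_lit 0) (.g 5 0 2 13 14 true false), .t 1 (nat_lit 0) (.g 15 5 0 2 13 true false), .t 1 (nat_lit 0) (.g 5 0 2 13 16 true true), .t 1 (nat_lit 0) (.g 17 5 0 2 13 true false), .t 1 (nat_lit 0)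 (.g 2 17 0 5 13 false false), .t 1 (nat_lit 0) (.g 18 5 0 2 13 true false), .t 1 (nat_lit 0) (.g 2 18 0 5 13 false false), .t 1 (nat_lit 0) (.g 5 0 2 13 18 true false), .t 1 (nat_lit 0) (.g 15 2 0 5 14 true false), .t 1 (nat_lit 0) (.g 16 2 0 5 15 false false), .t 1 (nat_lit 0) (.g 5 0 2 15 16 true true), .t 1 (nat_lit 0) (.g 15 5 0 2 18 true true), .t 1 (nat_lit 0) (.g 18 5 0 2 16 true false), .t 1 (nat_lit 0) (.g 2 18 0 5 17 false false), .t 1 (nat_lit 0) (.g 2 17 0 5 18 false false), .t 1 (nat_lit 0) (.g 6 2 0 7 12 false false), .t 1 (nat_lit 0) (.g 6 2 0 7 13 false false), .t 1 (nat_lit 0) (.g 2 0 6 7 15 false true), .t 1 (nat_lit 0) (.g 6 7 0 2 17 true true), .t 1 (nat_lit 0) (.g 6 7 0 2 18 true true), .t 1 (nat_lit 0) (.g 6 2 0 8 14 false false), .t 1 (nat_lit 0) (.g 2 0 6 8 16 false true), .t 1 (nat_lit 0) (.g 2 0 6 8 17 false true), .t 1 (nat_lit 0) (.g 6 2 0 8 17 false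 false), .t 1 (nat_lit 0) (.g 8 0 2 6 17 true true), .t 1 (nat_lit 0) (.g 2 0 6 8 18 false true), .t 1 (nat_lit 0) (.g 6 2 0 8 18 false false), .t 1 (nat_lit 0) (.g 8 0 2 6 18 true true), .t 1 (nat_lit 0) (.g 9 0 2 6 12 true true), .t 1 (nat_lit 0) (.g 6 2 0 9 13 false false), .t 1 (nat_lit 0) (.g 9 0 2 6 13 true true), .t 1 (nat_lit 0) (.g 6 2 0 9 14 false false), .t 1 (nat_lit 0) (.g 9 0 2 6 14 true true), .t 1 (nat_lit 0) (.g 9 0 2 6 15 true true), .t 1 (nat_lit 0) (.g 9 0 2 6 16 true true), .t 1 (nat_lit 0) (.g 9 0 2 6 17 true true), .t 1 (nat_lit 0) (.g 9 0 2 6 18 true true), .t 1 (nat_lit 0) (.g 6 2 0 10 13 false false), .t 1 (nat_lit 0) (.g 10 0 2 6 13 true true), .t 1 (nat_lit 0) (.g 10 0 2 6 17 true true), .t 1 (nat_lit 0) (.g 10 0 2 6 18 true true), .t 1 (nat_lit 0) (.g 0 11 2 6 12 true true), .t 1 (nat_lit 0) (.g 2 11 0 6 13 false false), .t 1 (nat_lit 0) (.g 0 11 2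 6 13 true true), .t 1 (nat_lit 0) (.g 2 11 0 6 14 false false), .t 1 (nat_lit 0) (.g 0 11 2 6 16 true true), .t 1 (nat_lit 0) (.g 0 11 2 6 17 true true), .t 1 (nat_lit 0) (.g 2 17 0 6 11 false false), .t 1 (nat_lit 0) (.g 2 11 0 6 17 false false), .t 1 (nat_lit 0) (.g 2 11 0 6 18 false false)] (by decide +kernel) (by decide +kernel)
theorem b31 : B 1984 2048 := Blk.of_chk [.t 1 (nat_lit 0) (.g 13 6 0 2 12 true false), .t 1 (nat_lit 0) (.g 0 11 2 6 15 true true), .t 1 (nat_lit 0) (.g 15 2 0 6 12 true false), .t 1 (nat_lit 0) (.g 16 6 0 2 12 true false), .t 1 (nat_lit 0) (.g 2 17 0 6 12 false false), .t 1 (nat_lit 0) (.g 0 11 2 6 18 true true), .t 1 (nat_lit 0) (.g 2 12 0 6 18 false false), .t 1 (nat_lit 0) (.g 0 11 2 6 14 true true), .t 1 (nat_lit 0) (.g 14 2 0 6 13 true false), .t 1 (nat_lit 0) (.g 14 6 0 2 13 true false), .t 1 (nat_lit 0) (.g 2 14 0 6 13 false false), .t 1 (nat_lit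 0) (.g 2 13 0 6 14 false false), .t 1 (nat_lit 0) (.g 6 0 2 13 14 true true), .t 1 (nat_lit 0) (.g 6 0 2 13 14 true false), .t 1 (nat_lit 0) (.g 15 6 0 2 13 true false), .t 1 (nat_lit 0) (.g 2 15 0 6 13 false false), .t 1 (nat_lit 0) (.g 16 6 0 2 13 true false), .t 1 (nat_lit 0) (.g 2 16 0 6 13 false false), .t 1 (nat_lit 0) (.g 17 6 0 2 13 true false), .t 1 (nat_lit 0) (.g 2 17 0 6 13 false false), .t 1 (nat_lit 0) (.g 18 6 0 2 13 true false), .t 1 (nat_lit 0) (.g 2 18 0 6 13 false false), .t 1 (nat_lit 0) (.g 6 0 2 13 18 true false), .t 1 (nat_lit 0) (.g 15 2 0 6 14 true false), .t 1 (nat_lit 0) (.g 2 0 6 14 17 false false), .t 1 (nat_lit 0) (.g 6 0 2 15 16 true true), .t 1 (nat_lit 0) (.g 6 17 0 2 16 true true), .t 1 (nat_lit 0) (.g 6 16 0 2 18 true true), .t 1 (nat_lit 0) (.g 18 6 0 2 16 true false), .t 1 (nat_lit 0) (.g 2 18 0 6 17 false false), .t 1 (nat_lit 0) (.g 8 0 2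 7 13 true true), .t 1 (nat_lit 0) (.g 2 0 7 8 16 false true), .t 1 (nat_lit 0) (.g 2 0 7 8 17 false true), .t 1 (nat_lit 0) (.g 7 2 0 8 18 false false), .t 1 (nat_lit 0) (.g 9 0 2 7 12 true true), .t 1 (nat_lit 0) (.g 9 0 2 7 13 true true), .t 1 (nat_lit 0) (.g 7 2 0 9 14 false false), .t 1 (nat_lit 0) (.g 9 0 2 7 14 true true), .t 1 (nat_lit 0) (.g 9 0 2 7 15 true true), .t 1 (nat_lit 0) (.g 9 0 2 7 16 true true), .t 1 (nat_lit 0) (.g 9 0 2 7 17 true true), .t 1 (nat_lit 0) (.g 2 0 7 9 18 false true), .t 1 (nat_lit 0) (.g 7 2 0 9 18 false false), .t 1 (nat_lit 0) (.g 9 0 2 7 18 true true), .t 1 (nat_lit 0) (.g 7 2 0 10 13 false false), .t 1 (nat_lit 0) (.g 10 0 2 7 13 true true), .t 1 (nat_lit 0) (.g 7 10 0 2 15 true true), .t 1 (nat_lit 0) (.g 10 0 2 7 18 true true), .t 1 (nat_lit 0) (.g 2 11 0 7 12 false false), .t 1 (nat_lit 0) (.g 0 11 2 7 12 true true), .t 1 (nat_lit 0)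 (.g 2 11 0 7 13 false false), .t 1 (nat_lit 0) (.g 0 11 2 7 13 true true), .t 1 (nat_lit 0) (.g 2 11 0 7 14 false false), .t 1 (nat_lit 0) (.g 0 11 2 7 14 true true), .t 1 (nat_lit 0) (.g 0 11 2 7 15 true true), .t 1 (nat_lit 0) (.g 0 11 2 7 16 true true), .t 1 (nat_lit 0) (.g 0 11 2 7 17 true true), .t 1 (nat_lit 0) (.g 2 17 0 7 11 false false), .t 1 (nat_lit 0) (.g 2 11 0 7 17 false false), .t 1 (nat_lit 0) (.g 2 11 0 7 18 false false), .t 1 (nat_lit 0) (.g 13 2 0 7 12 true false), .t 1 (nat_lit 0) (.g 13 7 0 2 12 true false), .t 1 (nat_lit 0) (.g 2 13 0 7 12 false false), .t 1 (nat_lit 0) (.g 15 2 0 7 12 true false)] (by decide +kernel) (by decide +kernel)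
theorem b32 : B 2048 2112 := Blk.of_chk [.t 1 (nat_lit 0) (.g 2 15 0 7 12 false false), .t 1 (nat_lit 0) (.g 16 7 0 2 12 true false), .t 1 (nat_lit 0) (.g 2 16 0 7 12 false false), .t 1 (nat_lit 0) (.g 0 11 2 7 18 true true), .t 1 (nat_lit 0) (.g 2 12 0 7 18 false false), .t 1 (nat_lit 0) (.g 14 2 0 7 13 true false), .t 1 (nat_lit 0) (.g 14 7 0 2 13 true false), .t 1 (nat_lit 0) (.g 2 14 0 7 13 false false), .t 1 (nat_lit 0) (.g 2 13 0 7 14 false false), .t 1 (nat_lit 0) (.g 7 0 2 13 14 true false), .t 1 (nat_lit 0) (.g 15 7 0 2 13 true false), .t 1 (nat_lit 0) (.g 16 7 0 2 13 true false), .t 1 (nat_lit 0) (.g 17 7 0 2 13 true false), .t 1 (nat_lit 0) (.g 18 7 0 2 13 true false), .t 1 (nat_lit 0) (.g 7 0 2 13 18 true false), .t 1 (nat_lit 0) (.g 15 2 0 7 14 true false), .t 1 (nat_lit 0) (.g 2 16 0 7 15 false false), .t 1 (nat_lit 0) (.g 7 0 2 15 16 true true), .t 1 (nat_lit 0)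 (.g 18 7 0 2 16 true false), .t 1 (nat_lit 0) (.g 17 2 0 7 18 false true), .t 1 (nat_lit 0) (.g 2 18 0 7 17 false false), .t 1 (nat_lit 0) (.g 7 0 2 17 18 true true), .t 1 (nat_lit 0) (.g 9 0 2 8 12 true true), .t 1 (nat_lit 0) (.g 8 2 0 9 13 false false), .t 1 (nat_lit 0) (.g 9 0 2 8 13 true true), .t 1 (nat_lit 0) (.g 8 2 0 9 14 false false), .t 1 (nat_lit 0) (.g 9 0 2 8 14 true true), .t 1 (nat_lit 0) (.g 9 0 2 8 15 true true), .t 1 (nat_lit 0) (.g 9 0 2 8 16 true true), .t 1 (nat_lit 0) (.g 8 2 0 9 17 false false), .t 1 (nat_lit 0) (.g 9 0 2 8 17 true true), .t 1 (nat_lit 0) (.g 9 0 2 8 18 true true), .t 1 (nat_lit 0) (.g 8 2 0 10 13 false false), .t 1 (nat_lit 0) (.g 10 0 2 8 13 true true), .t 1 (nat_lit 0) (.g 10 0 2 8 14 true true), .t 1 (nat_lit 0) (.g 2 0 8 10 15 false true), .t 1 (nat_lit 0) (.g 8 2 0 10 17 false false), .t 1 (nat_lit 0) (.g 8 2 0 10 18 false false),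 .t 1 (nat_lit 0) (.g 10 0 2 8 18 true true), .t 1 (nat_lit 0) (.g 0 11 2 8 12 true true), .t 1 (nat_lit 0) (.g 2 11 0 8 13 false false), .t 1 (nat_lit 0) (.g 2 14 0 8 11 false false), .t 1 (nat_lit 0) (.g 2 11 0 8 14 false false), .t 1 (nat_lit 0) (.g 2 17 0 8 11 false false), .t 1 (nat_lit 0) (.g 2 11 0 8 17 false false), .t 1 (nat_lit 0) (.g 0 11 2 8 17 true true), .t 1 (nat_lit 0) (.g 2 11 0 8 18 false false), .t 1 (nat_lit 0) (.g 2 13 0 8 12 false false), .t 1 (nat_lit 0) (.g 0 11 2 8 15 true true), .t 1 (nat_lit 0) (.g 15 2 0 8 12 true false), .t 1 (nat_lit 0) (.g 0 11 2 8 16 true true), .t 1 (nat_lit 0) (.g 16 8 0 2 12 true false), .t 1 (nat_lit 0) (.g 8 0 2 12 16 true true), .t 1 (nat_lit 0) (.g 2 17 0 8 12 false false), .t 1 (nat_lit 0) (.g 8 0 2 12 17 true true), .t 1 (nat_lit 0) (.g 0 11 2 8 18 true true), .t 1 (nat_lit 0) (.g 2 12 0 8 18 false false), .t 1 (nat_lit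 0) (.g 0 11 2 8 14 true true), .t 1 (nat_lit 0) (.g 14 2 0 8 13 true false), .t 1 (nat_lit 0) (.g 14 8 0 2 13 true false), .t 1 (nat_lit 0) (.g 2 13 0 8 14 false false), .t 1 (nat_lit 0) (.g 8 0 2 13 14 true false), .t 1 (nat_lit 0) (.g 0 11 2 8 13 true true), .t 1 (nat_lit 0) (.g 15 2 0 8 13 true false)] (by decide +kernel) (by decide +kernel)
theorem b33 : B 2112 2176 := Blk.of_chk [.t 1 (nat_lit 0) (.g 15 8 0 2 13 true false), .t 1 (nat_lit 0) (.g 2 8 0 13 17 true true), .t 1 (nat_lit 0) (.g 17 8 0 2 13 true false), .t 1 (nat_lit 0) (.g 2 13 0 8 17 false false), .t 1 (nat_lit 0) (.g 8 0 2 13 17 true false), .t 1 (nat_lit 0) (.g 18 8 0 2 13 true false), .t 1 (nat_lit 0) (.g 8 0 2 13 18 true false), .t 1 (nat_lit 0) (.g 15 2 0 8 14 true false), .t 1 (nat_lit 0) (.g 2 14 0 8 16 false false), .t 1 (nat_lit 0) (.g 8 0 2 14 16 true false), .t 1 (nat_lit 0) (.g 8 0 2 14 17 true true),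 .t 1 (nat_lit 0) (.g 8 0 2 14 17 true false), .t 1 (nat_lit 0) (.g 18 8 0 2 14 true false), .t 1 (nat_lit 0) (.g 8 0 2 15 17 true false), .t 1 (nat_lit 0) (.g 18 8 0 2 15 true false), .t 1 (nat_lit 0) (.g 17 8 0 2 16 true false), .t 1 (nat_lit 0) (.g 2 17 0 8 16 false false), .t 1 (nat_lit 0) (.g 8 0 2 16 17 true true), .t 1 (nat_lit 0) (.g 18 8 0 2 16 true false), .t 1 (nat_lit 0) (.g 18 2 0 8 17 true false), .t 1 (nat_lit 0) (.g 18 8 0 2 17 true false), .t 1 (nat_lit 0) (.g 8 0 2 17 18 true true), .t 1 (nat_lit 0) (.g 8 0 2 17 18 true false), .t 1 (nat_lit 0) (.g 9 12 0 2 10 false true), .t 1 (nat_lit 0) (.g 2 0 9 10 13 false false), .t 1 (nat_lit 0) (.g 9 13 0 2 10 false true), .t 1 (nat_lit 0) (.g 10 0 2 9 13 true false), .t 1 (nat_lit 0) (.g 9 14 0 2 10 false true), .t 1 (nat_lit 0) (.g 10 0 2 9 14 true false), .t 1 (nat_lit 0) (.g 9 15 0 2 10 false true), .t 1 (nat_lit 0)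 (.g 0 10 2 9 16 false true), .t 1 (nat_lit 0) (.g 9 16 0 2 10 false true), .t 1 (nat_lit 0) (.g 10 0 2 9 16 true false), .t 1 (nat_lit 0) (.g 0 10 2 9 17 false true), .t 1 (nat_lit 0) (.g 9 17 0 2 10 false true), .t 1 (nat_lit 0) (.g 10 0 2 9 17 true false), .t 1 (nat_lit 0) (.g 2 0 9 10 18 false false), .t 1 (nat_lit 0) (.g 9 18 0 2 10 true true), .t 1 (nat_lit 0) (.g 0 10 2 9 18 false true), .t 1 (nat_lit 0) (.g 9 18 0 2 10 false true), .t 1 (nat_lit 0) (.g 10 0 2 9 18 true false), .t 1 (nat_lit 0) (.g 2 12 0 9 11 false false), .t 1 (nat_lit 0) (.g 2 11 0 9 12 false false), .t 1 (nat_lit 0) (.g 0 11 2 9 12 true true), .t 1 (nat_lit 0) (.g 2 13 0 9 11 false false), .t 1 (nat_lit 0) (.g 2 11 0 9 13 false false), .t 1 (nat_lit 0) (.g 0 11 2 9 13 true true), .t 1 (nat_lit 0) (.g 2 14 0 9 11 false false), .t 1 (nat_lit 0) (.g 2 11 0 9 14 false false), .t 1 (nat_lit 0) (.g 0 11 2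 9 14 true true), .t 1 (nat_lit 0) (.g 2 15 0 9 11 false false), .t 1 (nat_lit 0) (.g 2 11 0 9 15 false false), .t 1 (nat_lit 0) (.g 0 11 2 9 15 true true), .t 1 (nat_lit 0) (.g 2 16 0 9 11 false false), .t 1 (nat_lit 0) (.g 2 11 0 9 16 false false), .t 1 (nat_lit 0) (.g 0 11 2 9 16 true true), .t 1 (nat_lit 0) (.g 2 17 0 9 11 false false), .t 1 (nat_lit 0) (.g 2 11 0 9 17 false false), .t 1 (nat_lit 0) (.g 0 11 2 9 17 true true), .t 1 (nat_lit 0) (.g 2 18 0 9 11 false false), .t 1 (nat_lit 0) (.g 2 11 0 9 18 false false), .t 1 (nat_lit 0) (.g 0 11 2 9 18 true true), .t 1 (nat_lit 0) (.g 13 2 0 9 12 true false), .t 1 (nat_lit 0) (.g 2 13 0 9 12 false false)] (by decide +kernel) (by decide +kernel)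
theorem b34 : B 2176 2240 := Blk.of_chk [.t 1 (nat_lit 0) (.g 9 0 2 12 13 true true), .t 1 (nat_lit 0) (.g 14 2 0 9 12 true false), .t 1 (nat_lit 0) (.g 2 14 0 9 12 false false), .t 1 (nat_lit 0) (.g 9 0 2 12 14 true true), .t 1 (nat_lit 0) (.g 9 0 2 12 14 true false), .t 1 (nat_lit 0) (.g 15 2 0 9 12 true false), .t 1 (nat_lit 0) (.g 9 0 2 12 15 true true), .t 1 (nat_lit 0) (.g 16 2 0 9 12 true false), .t 1 (nat_lit 0) (.g 2 16 0 9 12 false false), .t 1 (nat_lit 0) (.g 9 0 2 12 16 true true), .t 1 (nat_lit 0) (.g 9 0 2 12 16 true false), .t 1 (nat_lit 0) (.g 2 17 0 9 12 false false), .t 1 (nat_lit 0) (.g 9 0 2 12 17 true true), .t 1 (nat_lit 0) (.g 2 18 0 9 12 false false), .t 1 (nat_lit 0) (.g 9 0 2 12 18 true true), .t 1 (nat_lit 0) (.g 2 9 0 13 14 true true), .t 1 (nat_lit 0) (.g 14 2 0 9 13 true false), .t 1 (nat_lit 0) (.g 14 9 0 2 13 true false), .t 1 (nat_lit 0) (.g 2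 14 0 9 13 false false), .t 1 (nat_lit 0) (.g 2 13 0 9 14 false false), .t 1 (nat_lit 0) (.g 9 0 2 13 14 true true), .t 1 (nat_lit 0) (.g 9 0 2 13 14 true false), .t 1 (nat_lit 0) (.g 2 9 0 13 15 true true), .t 1 (nat_lit 0) (.g 15 2 0 9 13 true false), .t 1 (nat_lit 0) (.g 15 9 0 2 13 true false), .t 1 (nat_lit 0) (.g 2 15 0 9 13 false false), .t 1 (nat_lit 0) (.g 2 13 0 9 15 false false), .t 1 (nat_lit 0) (.g 9 0 2 13 15 true true), .t 1 (nat_lit 0) (.g 9 0 2 13 15 true false), .t 1 (nat_lit 0) (.g 2 9 0 13 16 true true), .t 1 (nat_lit 0) (.g 16 2 0 9 13 true false), .t 1 (nat_lit 0) (.g 16 9 0 2 13 true false), .t 1 (nat_lit 0) (.g 2 16 0 9 13 false false), .t 1 (nat_lit 0) (.g 9 0 2 13 16 true true), .t 1 (nat_lit 0) (.g 9 0 2 13 16 true false), .t 1 (nat_lit 0) (.g 2 9 0 13 17 true true), .t 1 (nat_lit 0) (.g 17 2 0 9 13 true false), .t 1 (nat_lit 0) (.g 17 9 0 2 13 true false),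 .t 1 (nat_lit 0) (.g 2 17 0 9 13 false false), .t 1 (nat_lit 0) (.g 2 13 0 9 17 false false), .t 1 (nat_lit 0) (.g 9 0 2 13 17 true true), .t 1 (nat_lit 0) (.g 9 0 2 13 17 true false), .t 1 (nat_lit 0) (.g 2 9 0 13 18 true true), .t 1 (nat_lit 0) (.g 18 2 0 9 13 true false), .t 1 (nat_lit 0) (.g 18 9 0 2 13 true false), .t 1 (nat_lit 0) (.g 2 18 0 9 13 false false), .t 1 (nat_lit 0) (.g 2 13 0 9 18 false false), .t 1 (nat_lit 0) (.g 9 0 2 13 18 true true), .t 1 (nat_lit 0) (.g 9 0 2 13 18 true false), .t 1 (nat_lit 0) (.g 15 2 0 9 14 true false), .t 1 (nat_lit 0) (.g 2 15 0 9 14 false false), .t 1 (nat_lit 0) (.g 2 14 0 9 15 false false), .t 1 (nat_lit 0) (.g 9 0 2 14 15 true true), .t 1 (nat_lit 0) (.g 9 0 2 14 15 true false), .t 1 (nat_lit 0) (.g 16 2 0 9 14 true false), .t 1 (nat_lit 0) (.g 2 16 0 9 14 false false), .t 1 (nat_lit 0) (.g 2 14 0 9 16 false false), .t 1 (nat_lit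 0) (.g 9 0 2 14 16 true true), .t 1 (nat_lit 0) (.g 9 0 2 14 16 true false), .t 1 (nat_lit 0) (.g 17 2 0 9 14 true false), .t 1 (nat_lit 0) (.g 17 9 0 2 14 true false), .t 1 (nat_lit 0) (.g 2 17 0 9 14 false false), .t 1 (nat_lit 0) (.g 9 0 2 14 17 true true), .t 1 (nat_lit 0) (.g 9 0 2 14 17 true false)] (by decide +kernel) (by decide +kernel)
theorem b35 : B 2240 2304 := Blk.of_chk [.t 1 (nat_lit 0) (.g 18 2 0 9 14 true false), .t 1 (nat_lit 0) (.g 2 18 0 9 14 false false), .t 1 (nat_lit 0) (.g 2 14 0 9 18 false false), .t 1 (nat_lit 0) (.g 9 0 2 14 18 true true), .t 1 (nat_lit 0) (.g 9 0 2 14 18 true false), .t 1 (nat_lit 0) (.g 16 2 0 9 15 true false), .t 1 (nat_lit 0) (.g 2 16 0 9 15 false false), .t 1 (nat_lit 0) (.g 2 15 0 9 16 false false), .t 1 (nat_lit 0) (.g 9 0 2 15 16 true true), .t 1 (nat_lit 0) (.g 9 0 2 15 16 true false), .t 1 (nat_lit 0) (.g 17 2 0 9 15 true false),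 .t 1 (nat_lit 0) (.g 2 17 0 9 15 false false), .t 1 (nat_lit 0) (.g 9 0 2 15 17 true true), .t 1 (nat_lit 0) (.g 18 2 0 9 15 true false), .t 1 (nat_lit 0) (.g 2 18 0 9 15 false false), .t 1 (nat_lit 0) (.g 9 0 2 15 18 true true), .t 1 (nat_lit 0) (.g 9 0 2 15 18 true false), .t 1 (nat_lit 0) (.g 17 2 0 9 16 true false), .t 1 (nat_lit 0) (.g 17 9 0 2 16 true false), .t 1 (nat_lit 0) (.g 2 17 0 9 16 false false), .t 1 (nat_lit 0) (.g 2 16 0 9 17 false false), .t 1 (nat_lit 0) (.g 9 0 2 16 17 true true), .t 1 (nat_lit 0) (.g 18 2 0 9 16 true false), .t 1 (nat_lit 0) (.g 18 9 0 2 16 true false), .t 1 (nat_lit 0) (.g 2 18 0 9 16 false false), .t 1 (nat_lit 0) (.g 9 0 2 16 18 true true), .t 1 (nat_lit 0) (.g 9 0 2 16 18 true false), .t 1 (nat_lit 0) (.g 18 2 0 9 17 true false), .t 1 (nat_lit 0) (.g 18 9 0 2 17 true false), .t 1 (nat_lit 0) (.g 2 18 0 9 17 false false), .t 1 (nat_lit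 0) (.g 9 0 2 17 18 true true), .t 1 (nat_lit 0) (.g 9 0 2 17 18 true false), .t 1 (nat_lit 0) (.g 0 11 2 10 12 true true), .t 1 (nat_lit 0) (.g 0 11 2 10 13 true true), .t 1 (nat_lit 0) (.g 2 11 0 10 13 false false), .t 1 (nat_lit 0) (.g 2 11 0 10 14 false false), .t 1 (nat_lit 0) (.g 0 11 2 10 14 true true), .t 1 (nat_lit 0) (.g 0 11 2 10 15 true true), .t 1 (nat_lit 0) (.g 2 11 0 10 15 false false), .t 1 (nat_lit 0) (.g 2 17 0 10 11 false false), .t 1 (nat_lit 0) (.g 2 11 0 10 17 false false), .t 1 (nat_lit 0) (.g 0 11 2 10 18 true true), .t 1 (nat_lit 0) (.g 2 11 0 10 18 false false), .t 1 (nat_lit 0) (.g 2 13 0 10 12 false false), .t 1 (nat_lit 0) (.g 10 0 2 12 13 true true), .t 1 (nat_lit 0) (.g 2 14 0 10 12 false false), .t 1 (nat_lit 0) (.g 15 2 0 10 12 true false), .t 1 (nat_lit 0) (.g 2 16 0 10 12 false false), .t 1 (nat_lit 0) (.g 0 11 2 10 17 true true), .t 1 (nat_lit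 0) (.g 2 17 0 10 12 false false), .t 1 (nat_lit 0) (.g 10 0 2 12 17 true false), .t 1 (nat_lit 0) (.g 10 0 2 12 18 true true), .t 1 (nat_lit 0) (.g 10 0 2 12 18 true false), .t 1 (nat_lit 0) (.g 14 2 0 10 13 true false), .t 1 (nat_lit 0) (.g 14 10 0 2 13 true false), .t 1 (nat_lit 0) (.g 2 14 0 10 13 false false), .t 1 (nat_lit 0) (.g 2 13 0 10 14 false false), .t 1 (nat_lit 0) (.g 10 0 2 13 14 true true), .t 1 (nat_lit 0) (.g 10 0 2 13 14 true false), .t 1 (nat_lit 0) (.g 15 2 0 10 13 true false), .t 1 (nat_lit 0) (.g 15 10 0 2 13 true false), .t 1 (nat_lit 0) (.g 10 0 2 13 15 true true), .t 1 (nat_lit 0) (.g 2 10 0 13 16 true true), .t 1 (nat_lit 0) (.g 0 11 2 10 16 true true)] (by decide +kernel) (by decide +kernel)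
theorem b36 : B 2304 2368 := Blk.of_chk [.t 1 (nat_lit 0) (.g 16 2 0 10 13 true false), .t 1 (nat_lit 0) (.g 16 10 0 2 13 true false), .t 1 (nat_lit 0) (.g 2 10 0 13 17 true true), .t 1 (nat_lit 0) (.g 17 2 0 10 13 true false), .t 1 (nat_lit 0) (.g 17 10 0 2 13 true false), .t 1 (nat_lit 0) (.g 2 13 0 10 17 false false), .t 1 (nat_lit 0) (.g 18 10 0 2 13 true false), .t 1 (nat_lit 0) (.g 2 18 0 10 13 false false), .t 1 (nat_lit 0) (.g 2 13 0 10 18 false false), .t 1 (nat_lit 0) (.g 10 0 2 13 18 true false), .t 1 (nat_lit 0) (.g 2 10 0 14 15 true true), .t 1 (nat_lit 0) (.g 15 2 0 10 14 true false), .t 1 (nat_lit 0) (.g 2 14 0 10 15 false false), .t 1 (nat_lit 0) (.g 17 10 0 2 14 true false), .t 1 (nat_lit 0) (.g 10 0 2 14 17 true true), .t 1 (nat_lit 0) (.g 10 0 2 14 17 true false), .t 1 (nat_lit 0) (.g 18 2 0 10 14 true false), .t 1 (nat_lit 0) (.g 2 14 0 10 18 false false),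 .t 1 (nat_lit 0) (.g 10 0 2 14 18 true false), .t 1 (nat_lit 0) (.g 2 16 0 10 15 false false), .t 1 (nat_lit 0) (.g 10 0 2 15 16 true true), .t 1 (nat_lit 0) (.g 10 0 2 15 16 true false), .t 1 (nat_lit 0) (.g 17 10 0 2 15 true false), .t 1 (nat_lit 0) (.g 2 17 0 10 15 false false), .t 1 (nat_lit 0) (.g 10 0 2 15 17 true false), .t 1 (nat_lit 0) (.g 18 10 0 2 15 true false), .t 1 (nat_lit 0) (.g 2 15 0 10 18 false false), .t 1 (nat_lit 0) (.g 10 0 2 15 18 true true), .t 1 (nat_lit 0) (.g 10 0 2 15 18 true false), .t 1 (nat_lit 0) (.g 16 10 0 2 17 true true), .t 1 (nat_lit 0) (.g 10 0 2 16 17 true true), .t 1 (nat_lit 0) (.g 16 10 0 2 18 true true), .t 1 (nat_lit 0) (.g 18 10 0 2 16 true false), .t 1 (nat_lit 0) (.g 18 2 0 10 17 true false), .t 1 (nat_lit 0) (.g 2 18 0 10 17 false false), .t 1 (nat_lit 0) (.g 2 17 0 10 18 false false), .t 1 (nat_lit 0) (.g 0 11 2 12 13 true true),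 .t 1 (nat_lit 0) (.g 0 11 2 12 14 true true), .t 1 (nat_lit 0) (.g 0 11 2 12 15 true true), .t 1 (nat_lit 0) (.g 0 11 2 12 16 true true), .t 1 (nat_lit 0) (.g 0 11 2 12 17 true true), .t 1 (nat_lit 0) (.g 0 11 2 12 18 true true), .t 1 (nat_lit 0) (.g 0 11 2 13 14 true true), .t 1 (nat_lit 0) (.g 0 11 2 13 15 true true), .t 1 (nat_lit 0) (.g 0 11 2 13 16 true true), .t 1 (nat_lit 0) (.g 0 11 2 13 17 true true), .t 1 (nat_lit 0) (.g 0 11 2 13 18 true true), .t 1 (nat_lit 0) (.g 0 11 2 14 15 true true), .t 1 (nat_lit 0) (.g 0 11 2 14 16 true true), .t 1 (nat_lit 0) (.g 0 11 2 14 17 true true), .t 1 (nat_lit 0) (.g 0 11 2 14 18 true true), .t 1 (nat_lit 0) (.g 0 11 2 15 16 true true), .t 1 (nat_lit 0) (.g 0 11 2 15 17 true true), .t 1 (nat_lit 0) (.g 0 11 2 15 18 true true), .t 1 (nat_lit 0) (.g 0 11 2 16 17 true true), .t 1 (nat_lit 0) (.g 0 11 2 16 18 true true), .t 1 (nat_lit 0)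 (.g 0 11 2 17 18 true true), .t 1 (nat_lit 0) (.g 13 0 2 14 15 false true), .t 1 (nat_lit 0) (.g 13 0 2 15 16 false true), .t 1 (nat_lit 0) (.g 2 0 14 15 16 false false), .t 1 (nat_lit 0) (.g 2 0 14 15 16 false true), .t 1 (nat_lit 0) (.g 4 3 0 5 12 false false), .t 1 (nat_lit 0) (.g 5 0 3 4 12 true true), .t 1 (nat_lit 0) (.g 5 0 3 4 13 true true)] (by decide +kernel) (by decide +kernel)
theorem b37 : B 2368 2432 := Blk.of_chk [.t 1 (nat_lit 0) (.g 4 3 0 5 14 false false), .t 1 (nat_lit 0) (.g 3 0 4 5 18 false true), .t 1 (nat_lit 0) (.g 5 0 3 4 18 true true), .t 1 (nat_lit 0) (.g 6 0 3 4 12 true true), .t 1 (nat_lit 0) (.g 4 3 0 6 13 false false), .t 1 (nat_lit 0) (.g 6 0 3 4 13 true true), .t 1 (nat_lit 0) (.g 4 3 0 6 14 false false), .t 1 (nat_lit 0) (.g 6 0 3 4 14 true true), .t 1 (nat_lit 0) (.g 3 0 4 6 16 false true), .t 1 (nat_lit 0) (.g 3 0 4 6 17 false true), .t 1 (nat_lit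 0) (.g 7 0 3 4 12 true true), .t 1 (nat_lit 0) (.g 7 0 3 4 13 true true), .t 1 (nat_lit 0) (.g 4 3 0 7 14 false false), .t 1 (nat_lit 0) (.g 7 0 3 4 14 true true), .t 1 (nat_lit 0) (.g 4 7 0 3 15 true true), .t 1 (nat_lit 0) (.g 3 0 4 7 16 false true), .t 1 (nat_lit 0) (.g 7 0 3 4 16 true true), .t 1 (nat_lit 0) (.g 4 7 0 3 17 true true), .t 1 (nat_lit 0) (.g 4 3 0 7 17 false false), .t 1 (nat_lit 0) (.g 7 0 3 4 17 true true), .t 1 (nat_lit 0) (.g 3 0 4 7 18 false true), .t 1 (nat_lit 0) (.g 4 7 0 3 18 true true), .t 1 (nat_lit 0) (.g 4 3 0 7 18 false false), .t 1 (nat_lit 0) (.g 8 0 3 4 12 true true), .t 1 (nat_lit 0) (.g 8 0 3 4 13 true true), .t 1 (nat_lit 0) (.g 4 3 0 8 14 false false), .t 1 (nat_lit 0) (.g 8 0 3 4 14 true true), .t 1 (nat_lit 0) (.g 4 8 0 3 16 true true), .t 1 (nat_lit 0) (.g 4 3 0 8 16 false false), .t 1 (nat_lit 0) (.g 8 0 3 4 16 true true), .t 1 (nat_lit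 0) (.g 4 8 0 3 17 true true), .t 1 (nat_lit 0) (.g 8 0 3 4 18 true true), .t 1 (nat_lit 0) (.g 9 0 3 4 12 true true), .t 1 (nat_lit 0) (.g 9 0 3 4 13 true true), .t 1 (nat_lit 0) (.g 4 3 0 9 14 false false), .t 1 (nat_lit 0) (.g 9 0 3 4 14 true true), .t 1 (nat_lit 0) (.g 9 0 3 4 15 true true), .t 1 (nat_lit 0) (.g 4 3 0 9 16 false false), .t 1 (nat_lit 0) (.g 9 0 3 4 16 true true), .t 1 (nat_lit 0) (.g 9 0 3 4 17 true true), .t 1 (nat_lit 0) (.g 4 3 0 9 18 false false), .t 1 (nat_lit 0) (.g 9 0 3 4 18 true true), .t 1 (nat_lit 0) (.g 4 3 0 10 13 false false), .t 1 (nat_lit 0) (.g 4 3 0 10 14 false false), .t 1 (nat_lit 0) (.g 4 3 0 10 15 false false), .t 1 (nat_lit 0) (.g 10 0 3 4 16 true true), .t 1 (nat_lit 0) (.g 4 3 0 10 18 false false), .t 1 (nat_lit 0) (.g 10 0 3 4 18 true true), .t 1 (nat_lit 0) (.g 3 11 0 4 12 false false), .t 1 (nat_lit 0) (.g 3 13 0 4 11 false false),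 .t 1 (nat_lit 0) (.g 0 11 3 4 13 true true), .t 1 (nat_lit 0) (.g 3 14 0 4 11 false false), .t 1 (nat_lit 0) (.g 0 11 3 4 14 true true), .t 1 (nat_lit 0) (.g 0 11 3 4 15 true true), .t 1 (nat_lit 0) (.g 0 11 3 4 16 true true), .t 1 (nat_lit 0) (.g 0 11 3 4 17 true true), .t 1 (nat_lit 0) (.g 3 17 0 4 11 false false), .t 1 (nat_lit 0) (.g 3 11 0 4 17 false false), .t 1 (nat_lit 0) (.g 0 11 3 4 18 true true), .t 1 (nat_lit 0) (.g 3 18 0 4 11 false false), .t 1 (nat_lit 0) (.g 3 11 0 4 18 false false), .t 1 (nat_lit 0) (.g 13 4 0 3 12 true false), .t 1 (nat_lit 0) (.g 4 0 3 12 13 true true), .t 1 (nat_lit 0) (.g 4 0 3 12 13 true false)] (by decide +kernel) (by decide +kernel)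
theorem b38 : B 2432 2496 := Blk.of_chk [.t 1 (nat_lit 0) (.g 14 3 0 4 12 true false), .t 1 (nat_lit 0) (.g 4 0 3 12 14 true true), .t 1 (nat_lit 0) (.g 15 4 0 3 12 true false), .t 1 (nat_lit 0) (.g 3 15 0 4 12 false false), .t 1 (nat_lit 0) (.g 4 0 3 12 15 true true), .t 1 (nat_lit 0) (.g 0 11 3 4 12 true true), .t 1 (nat_lit 0) (.g 16 4 0 3 12 true false), .t 1 (nat_lit 0) (.g 3 17 0 4 12 false false), .t 1 (nat_lit 0) (.g 3 12 0 4 17 false false), .t 1 (nat_lit 0) (.g 18 3 0 4 12 true false), .t 1 (nat_lit 0) (.g 3 18 0 4 12 false false), .t 1 (nat_lit 0) (.g 3 12 0 4 18 false false), .t 1 (nat_lit 0) (.g 14 3 0 4 13 true false), .t 1 (nat_lit 0) (.g 14 4 0 3 13 true false), .t 1 (nat_lit 0) (.g 3 14 0 4 13 false false), .t 1 (nat_lit 0) (.g 4 0 3 13 14 true true), .t 1 (nat_lit 0) (.g 4 0 3 13 14 true false), .t 1 (nat_lit 0) (.g 15 3 0 4 13 true false), .t 1 (nat_lit 0) (.g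 4 0 3 13 15 true false), .t 1 (nat_lit 0) (.g 4 0 3 13 16 true false), .t 1 (nat_lit 0) (.g 17 3 0 4 13 true false), .t 1 (nat_lit 0) (.g 3 17 0 4 13 false false), .t 1 (nat_lit 0) (.g 4 0 3 13 17 true false), .t 1 (nat_lit 0) (.g 4 3 0 13 18 false true), .t 1 (nat_lit 0) (.g 3 13 0 4 18 false false), .t 1 (nat_lit 0) (.g 15 4 0 3 14 true false), .t 1 (nat_lit 0) (.g 4 0 3 14 15 true true), .t 1 (nat_lit 0) (.g 14 4 0 3 16 true true), .t 1 (nat_lit 0) (.g 16 4 0 3 14 true false), .t 1 (nat_lit 0) (.g 3 14 0 4 16 false false), .t 1 (nat_lit 0) (.g 17 3 0 4 14 true false), .t 1 (nat_lit 0) (.g 17 4 0 3 14 true false), .t 1 (nat_lit 0) (.g 3 17 0 4 14 false false), .t 1 (nat_lit 0) (.g 4 0 3 14 17 true true), .t 1 (nat_lit 0) (.g 4 0 3 14 17 true false), .t 1 (nat_lit 0) (.g 14 4 0 3 18 true true), .t 1 (nat_lit 0) (.g 4 3 0 14 18 false true), .t 1 (nat_lit 0) (.g 18 3 0 4 14 true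 false), .t 1 (nat_lit 0) (.g 18 4 0 3 14 true false), .t 1 (nat_lit 0) (.g 3 14 0 4 18 false false), .t 1 (nat_lit 0) (.g 15 4 0 3 16 false true), .t 1 (nat_lit 0) (.g 3 0 4 15 16 false false), .t 1 (nat_lit 0) (.g 15 4 0 3 16 true true), .t 1 (nat_lit 0) (.g 16 3 0 4 15 false false), .t 1 (nat_lit 0) (.g 4 3 0 15 16 false true), .t 1 (nat_lit 0) (.g 3 15 0 4 16 false false), .t 1 (nat_lit 0) (.g 4 0 3 15 16 true false), .t 1 (nat_lit 0) (.g 17 3 0 4 15 false false), .t 1 (nat_lit 0) (.g 3 17 0 4 15 false false), .t 1 (nat_lit 0) (.g 3 15 0 4 17 false false), .t 1 (nat_lit 0) (.g 4 0 3 15 17 true false), .t 1 (nat_lit 0) (.g 18 3 0 4 15 false false), .t 1 (nat_lit 0) (.g 18 3 0 4 15 true false), .t 1 (nat_lit 0) (.g 3 18 0 4 15 false false), .t 1 (nat_lit 0) (.g 4 16 0 3 17 true true), .t 1 (nat_lit 0) (.g 16 4 0 3 17 true true), .t 1 (nat_lit 0) (.g 17 3 0 4 16 false false),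 .t 1 (nat_lit 0) (.g 17 4 0 3 16 true false), .t 1 (nat_lit 0) (.g 3 17 0 4 16 false false), .t 1 (nat_lit 0) (.g 3 16 0 4 17 false false), .t 1 (nat_lit 0) (.g 4 0 3 16 17 true true), .t 1 (nat_lit 0) (.g 4 0 3 16 17 true false), .t 1 (nat_lit 0) (.g 4 16 0 3 18 true true), .t 1 (nat_lit 0) (.g 18 3 0 4 16 false false)] (by decide +kernel) (by decide +kernel)
theorem b39 : B 2496 2560 := Blk.of_chk [.t 1 (nat_lit 0) (.g 18 3 0 4 16 true false), .t 1 (nat_lit 0) (.g 18 4 0 3 16 true false), .t 1 (nat_lit 0) (.g 3 18 0 4 16 false false), .t 1 (nat_lit 0) (.g 3 16 0 4 18 false false), .t 1 (nat_lit 0) (.g 4 17 0 3 18 true true), .t 1 (nat_lit 0) (.g 4 18 0 3 17 true true), .t 1 (nat_lit 0) (.g 17 4 0 3 18 true true), .t 1 (nat_lit 0) (.g 4 0 3 17 18 true true), .t 1 (nat_lit 0) (.g 18 3 0 4 17 true false), .t 1 (nat_lit 0) (.g 18 4 0 3 17 true false), .t 1 (nat_lit 0) (.g 3 18 0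 4 17 false false), .t 1 (nat_lit 0) (.g 6 0 3 5 13 true true), .t 1 (nat_lit 0) (.g 5 3 0 7 12 false false), .t 1 (nat_lit 0) (.g 7 0 3 5 12 true true), .t 1 (nat_lit 0) (.g 5 3 0 7 13 false false), .t 1 (nat_lit 0) (.g 5 3 0 7 14 false false), .t 1 (nat_lit 0) (.g 3 0 5 7 16 false true), .t 1 (nat_lit 0) (.g 0 7 3 5 16 false true), .t 1 (nat_lit 0) (.g 3 0 5 7 16 false false), .t 1 (nat_lit 0) (.g 3 0 5 7 17 false false), .t 1 (nat_lit 0) (.g 3 0 5 7 18 false true), .t 1 (nat_lit 0) (.g 5 7 0 3 18 true true), .t 1 (nat_lit 0) (.g 5 3 0 7 18 false false), .t 1 (nat_lit 0) (.g 5 3 0 8 12 false false), .t 1 (nat_lit 0) (.g 3 0 5 8 15 false false), .t 1 (nat_lit 0) (.g 3 0 5 8 16 false true), .t 1 (nat_lit 0) (.g 0 8 3 5 16 false true), .t 1 (nat_lit 0) (.g 5 3 0 8 16 false false), .t 1 (nat_lit 0) (.g 3 0 5 8 17 false false), .t 1 (nat_lit 0) (.g 5 3 0 8 17 false false), .t 1 (nat_lit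 0) (.g 3 0 5 8 18 false true), .t 1 (nat_lit 0) (.g 8 0 3 5 18 true true), .t 1 (nat_lit 0) (.g 9 0 3 5 12 true true), .t 1 (nat_lit 0) (.g 9 0 3 5 13 true true), .t 1 (nat_lit 0) (.g 5 3 0 9 14 false false), .t 1 (nat_lit 0) (.g 9 0 3 5 14 true true), .t 1 (nat_lit 0) (.g 9 0 3 5 15 true true), .t 1 (nat_lit 0) (.g 9 0 3 5 16 true true), .t 1 (nat_lit 0) (.g 9 0 3 5 17 true true), .t 1 (nat_lit 0) (.g 9 0 3 5 18 true true), .t 1 (nat_lit 0) (.g 3 0 5 10 17 false false), .t 1 (nat_lit 0) (.g 0 11 3 5 12 true true), .t 1 (nat_lit 0) (.g 0 11 3 5 13 true true), .t 1 (nat_lit 0) (.g 3 14 0 5 11 false false), .t 1 (nat_lit 0) (.g 3 11 0 5 14 false false), .t 1 (nat_lit 0) (.g 0 11 3 5 15 true true), .t 1 (nat_lit 0) (.g 0 11 3 5 16 true true), .t 1 (nat_lit 0) (.g 3 16 0 5 11 false false), .t 1 (nat_lit 0) (.g 0 11 3 5 17 true true), .t 1 (nat_lit 0) (.g 0 11 3 5 18 true true), .t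 1 (nat_lit 0) (.g 3 13 0 5 12 false false), .t 1 (nat_lit 0) (.g 5 0 3 12 13 true true), .t 1 (nat_lit 0) (.g 0 11 3 5 14 true true), .t 1 (nat_lit 0) (.g 3 14 0 5 12 false false), .t 1 (nat_lit 0) (.g 5 0 3 12 14 true true), .t 1 (nat_lit 0) (.g 3 16 0 5 12 false false), .t 1 (nat_lit 0) (.g 5 0 3 12 16 true true), .t 1 (nat_lit 0) (.g 3 17 0 5 12 false false), .t 1 (nat_lit 0) (.g 5 0 3 12 17 true true), .t 1 (nat_lit 0) (.g 14 3 0 5 13 true false), .t 1 (nat_lit 0) (.g 14 5 0 3 13 true false), .t 1 (nat_lit 0) (.g 3 14 0 5 13 false false), .t 1 (nat_lit 0) (.g 3 18 0 5 13 false false), .t 1 (nat_lit 0) (.g 15 5 0 3 14 true false)] (by decide +kernel) (by decide +kernel)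
theorem b40 : B 2560 2624 := Blk.of_chk [.t 1 (nat_lit 0) (.g 16 3 0 5 14 true false), .t 1 (nat_lit 0) (.g 17 3 0 5 14 true false), .t 1 (nat_lit 0) (.g 17 5 0 3 14 true false), .t 1 (nat_lit 0) (.g 3 17 0 5 14 false false), .t 1 (nat_lit 0) (.g 3 5 0 14 18 true true), .t 1 (nat_lit 0) (.g 18 3 0 5 14 true false), .t 1 (nat_lit 0) (.g 18 5 0 3 14 true false), .t 1 (nat_lit 0) (.g 3 18 0 5 14 false false), .t 1 (nat_lit 0) (.g 3 16 0 5 15 false false), .t 1 (nat_lit 0) (.g 17 3 0 5 15 false false), .t 1 (nat_lit 0) (.g 17 5 0 3 15 true false), .t 1 (nat_lit 0) (.g 3 17 0 5 15 false false), .t 1 (nat_lit 0) (.g 5 0 3 15 17 true true), .t 1 (nat_lit 0) (.g 18 5 0 3 15 true false), .t 1 (nat_lit 0) (.g 5 0 3 15 18 true true), .t 1 (nat_lit 0) (.g 17 5 0 3 16 true false), .t 1 (nat_lit 0) (.g 3 17 0 5 16 false false), .t 1 (nat_lit 0) (.g 5 0 3 16 17 true true), .t 1 (nat_lit 0) (.g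 5 0 3 16 17 true false), .t 1 (nat_lit 0) (.g 5 16 0 3 18 true true), .t 1 (nat_lit 0) (.g 18 5 0 3 16 true false), .t 1 (nat_lit 0) (.g 5 0 3 16 18 true true), .t 1 (nat_lit 0) (.g 3 18 0 5 17 false false), .t 1 (nat_lit 0) (.g 5 0 3 17 18 true false), .t 1 (nat_lit 0) (.g 6 3 0 7 12 false false), .t 1 (nat_lit 0) (.g 6 3 0 7 13 false false), .t 1 (nat_lit 0) (.g 7 0 3 6 13 true true), .t 1 (nat_lit 0) (.g 6 3 0 7 14 false false), .t 1 (nat_lit 0) (.g 3 0 6 7 15 false true), .t 1 (nat_lit 0) (.g 6 7 0 3 16 true true), .t 1 (nat_lit 0) (.g 3 0 6 7 16 false true), .t 1 (nat_lit 0) (.g 6 7 0 3 17 true true), .t 1 (nat_lit 0) (.g 3 0 6 7 17 false true), .t 1 (nat_lit 0) (.g 6 14 0 3 8 false true), .t 1 (nat_lit 0) (.g 8 0 3 6 14 true true), .t 1 (nat_lit 0) (.g 3 0 6 8 15 false false), .t 1 (nat_lit 0) (.g 6 3 0 8 16 false false), .t 1 (nat_lit 0) (.g 6 3 0 8 17 false false), .t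 1 (nat_lit 0) (.g 8 0 3 6 17 true false), .t 1 (nat_lit 0) (.g 9 0 3 6 12 true true), .t 1 (nat_lit 0) (.g 6 3 0 9 13 false false), .t 1 (nat_lit 0) (.g 9 0 3 6 13 true true), .t 1 (nat_lit 0) (.g 6 3 0 9 14 false false), .t 1 (nat_lit 0) (.g 9 0 3 6 14 true true), .t 1 (nat_lit 0) (.g 9 0 3 6 15 true true), .t 1 (nat_lit 0) (.g 6 3 0 9 16 false false), .t 1 (nat_lit 0) (.g 9 0 3 6 16 true true), .t 1 (nat_lit 0) (.g 9 0 3 6 17 true true), .t 1 (nat_lit 0) (.g 9 0 3 6 18 true true), .t 1 (nat_lit 0) (.g 0 11 3 6 12 true true), .t 1 (nat_lit 0) (.g 0 11 3 6 13 true true), .t 1 (nat_lit 0) (.g 3 14 0 6 11 false false), .t 1 (nat_lit 0) (.g 0 11 3 6 15 true true), .t 1 (nat_lit 0) (.g 3 17 0 6 11 false false), .t 1 (nat_lit 0) (.g 0 11 3 6 17 true true), .t 1 (nat_lit 0) (.g 0 11 3 6 18 true true), .t 1 (nat_lit 0) (.g 0 11 3 6 14 true true), .t 1 (nat_lit 0) (.g 3 14 0 6 12 false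 false), .t 1 (nat_lit 0) (.g 14 6 0 3 13 true false), .t 1 (nat_lit 0) (.g 3 14 0 6 13 false false), .t 1 (nat_lit 0) (.g 6 0 3 13 14 true true), .t 1 (nat_lit 0) (.g 0 11 3 6 16 true true), .t 1 (nat_lit 0) (.g 18 3 0 6 13 true false), .t 1 (nat_lit 0) (.g 3 18 0 6 13 false false)] (by decide +kernel) (by decide +kernel)
theorem b41 : B 2624 2688 := Blk.of_chk [.t 1 (nat_lit 0) (.g 15 6 0 3 14 true false), .t 1 (nat_lit 0) (.g 16 3 0 6 14 true false), .t 1 (nat_lit 0) (.g 17 6 0 3 14 true false), .t 1 (nat_lit 0) (.g 3 17 0 6 14 false false), .t 1 (nat_lit 0) (.g 3 6 0 14 18 true true), .t 1 (nat_lit 0) (.g 18 3 0 6 14 true false), .t 1 (nat_lit 0) (.g 18 6 0 3 14 true false), .t 1 (nat_lit 0) (.g 3 18 0 6 14 false false), .t 1 (nat_lit 0) (.g 16 3 0 6 15 false false), .t 1 (nat_lit 0) (.g 3 16 0 6 15 false false), .t 1 (nat_lit 0) (.g 17 3 0 6 15 false false), .t 1 (nat_lit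 0) (.g 17 6 0 3 15 true false), .t 1 (nat_lit 0) (.g 3 17 0 6 15 false false), .t 1 (nat_lit 0) (.g 6 0 3 15 17 true true), .t 1 (nat_lit 0) (.g 18 6 0 3 15 true false), .t 1 (nat_lit 0) (.g 6 0 3 15 18 true true), .t 1 (nat_lit 0) (.g 6 17 0 3 16 true true), .t 1 (nat_lit 0) (.g 17 6 0 3 16 true false), .t 1 (nat_lit 0) (.g 3 17 0 6 16 false false), .t 1 (nat_lit 0) (.g 3 16 0 6 17 false false), .t 1 (nat_lit 0) (.g 6 0 3 16 17 true true), .t 1 (nat_lit 0) (.g 6 16 0 3 18 true true), .t 1 (nat_lit 0) (.g 18 6 0 3 16 true false), .t 1 (nat_lit 0) (.g 6 0 3 16 18 true true), .t 1 (nat_lit 0) (.g 3 18 0 6 17 false false), .t 1 (nat_lit 0) (.g 6 0 3 17 18 true false), .t 1 (nat_lit 0) (.g 7 3 0 8 14 false false), .t 1 (nat_lit 0) (.g 7 3 0 8 16 false false), .t 1 (nat_lit 0) (.g 3 0 7 8 17 false true), .t 1 (nat_lit 0) (.g 3 0 7 8 18 false true), .t 1 (nat_lit 0) (.g 7 8 0 3 18 true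 true), .t 1 (nat_lit 0) (.g 9 0 3 7 12 true true), .t 1 (nat_lit 0) (.g 9 0 3 7 13 true true), .t 1 (nat_lit 0) (.g 7 3 0 9 14 false false), .t 1 (nat_lit 0) (.g 9 0 3 7 14 true true), .t 1 (nat_lit 0) (.g 9 0 3 7 15 true true), .t 1 (nat_lit 0) (.g 7 3 0 9 16 false false), .t 1 (nat_lit 0) (.g 9 0 3 7 16 true true), .t 1 (nat_lit 0) (.g 9 0 3 7 17 true true), .t 1 (nat_lit 0) (.g 0 11 3 7 12 true true), .t 1 (nat_lit 0) (.g 3 13 0 7 11 false false), .t 1 (nat_lit 0) (.g 0 11 3 7 13 true true), .t 1 (nat_lit 0) (.g 3 14 0 7 11 false false), .t 1 (nat_lit 0) (.g 0 11 3 7 15 true true), .t 1 (nat_lit 0) (.g 0 11 3 7 16 true true), .t 1 (nat_lit 0) (.g 0 11 3 7 17 true true), .t 1 (nat_lit 0) (.g 0 11 3 7 18 true true), .t 1 (nat_lit 0) (.g 3 13 0 7 12 false false), .t 1 (nat_lit 0) (.g 0 11 3 7 14 true true), .t 1 (nat_lit 0) (.g 3 14 0 7 12 false false), .t 1 (nat_lit 0) (.g 7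 0 3 12 14 true true), .t 1 (nat_lit 0) (.g 3 16 0 7 12 false false), .t 1 (nat_lit 0) (.g 7 0 3 12 16 true true), .t 1 (nat_lit 0) (.g 3 17 0 7 12 false false), .t 1 (nat_lit 0) (.g 7 0 3 12 17 true true), .t 1 (nat_lit 0) (.g 3 14 0 7 13 false false), .t 1 (nat_lit 0) (.g 3 13 0 7 14 false false), .t 1 (nat_lit 0) (.g 7 0 3 13 14 true true), .t 1 (nat_lit 0) (.g 3 18 0 7 13 false false), .t 1 (nat_lit 0) (.g 15 7 0 3 14 true false), .t 1 (nat_lit 0) (.g 16 3 0 7 14 true false), .t 1 (nat_lit 0) (.g 3 7 0 14 17 true true), .t 1 (nat_lit 0) (.g 17 3 0 7 14 true false), .t 1 (nat_lit 0) (.g 17 7 0 3 14 true false)] (by decide +kernel) (by decide +kernel)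
theorem b42 : B 2688 2752 := Blk.of_chk [.t 1 (nat_lit 0) (.g 3 17 0 7 14 false false), .t 1 (nat_lit 0) (.g 18 3 0 7 14 true false), .t 1 (nat_lit 0) (.g 18 7 0 3 14 true false), .t 1 (nat_lit 0) (.g 3 18 0 7 14 false false), .t 1 (nat_lit 0) (.g 16 3 0 7 15 true false), .t 1 (nat_lit 0) (.g 17 7 0 3 15 true false), .t 1 (nat_lit 0) (.g 3 17 0 7 15 false false), .t 1 (nat_lit 0) (.g 7 0 3 15 17 true true), .t 1 (nat_lit 0) (.g 18 7 0 3 15 true false), .t 1 (nat_lit 0) (.g 7 0 3 15 18 true true), .t 1 (nat_lit 0) (.g 16 7 0 3 17 true true), .t 1 (nat_lit 0) (.g 17 7 0 3 16 true false), .t 1 (nat_lit 0) (.g 7 0 3 16 17 true true), .t 1 (nat_lit 0) (.g 7 0 3 16 17 true false), .t 1 (nat_lit 0) (.g 16 7 0 3 18 true true), .t 1 (nat_lit 0) (.g 18 7 0 3 16 true false), .t 1 (nat_lit 0) (.g 7 0 3 16 18 true true), .t 1 (nat_lit 0) (.g 18 3 0 7 17 false false), .t 1 (nat_lit 0) (.g 3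 18 0 7 17 false false), .t 1 (nat_lit 0) (.g 9 0 3 8 12 true true), .t 1 (nat_lit 0) (.g 9 0 3 8 13 true true), .t 1 (nat_lit 0) (.g 8 3 0 9 14 false false), .t 1 (nat_lit 0) (.g 9 0 3 8 14 true true), .t 1 (nat_lit 0) (.g 9 0 3 8 15 true true), .t 1 (nat_lit 0) (.g 9 0 3 8 16 true true), .t 1 (nat_lit 0) (.g 9 0 3 8 17 true true), .t 1 (nat_lit 0) (.g 8 3 0 10 16 false false), .t 1 (nat_lit 0) (.g 0 11 3 8 12 true true), .t 1 (nat_lit 0) (.g 0 11 3 8 13 true true), .t 1 (nat_lit 0) (.g 3 14 0 8 11 false false), .t 1 (nat_lit 0) (.g 0 11 3 8 14 true true), .t 1 (nat_lit 0) (.g 3 17 0 8 11 false false), .t 1 (nat_lit 0) (.g 0 11 3 8 17 true true), .t 1 (nat_lit 0) (.g 0 11 3 8 18 true true), .t 1 (nat_lit 0) (.g 3 13 0 8 12 false false), .t 1 (nat_lit 0) (.g 3 14 0 8 12 false false), .t 1 (nat_lit 0) (.g 0 11 3 8 16 true true), .t 1 (nat_lit 0) (.g 8 0 3 12 16 true true), .t 1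 (nat_lit 0) (.g 8 0 3 12 17 true true), .t 1 (nat_lit 0) (.g 14 3 0 8 13 true false), .t 1 (nat_lit 0) (.g 8 0 3 13 14 true true), .t 1 (nat_lit 0) (.g 3 18 0 8 13 false false), .t 1 (nat_lit 0) (.g 0 11 3 8 15 true true), .t 1 (nat_lit 0) (.g 15 3 0 8 14 true false), .t 1 (nat_lit 0) (.g 15 8 0 3 14 true false), .t 1 (nat_lit 0) (.g 16 3 0 8 14 true false), .t 1 (nat_lit 0) (.g 3 14 0 8 16 false false), .t 1 (nat_lit 0) (.g 8 0 3 14 16 true false), .t 1 (nat_lit 0) (.g 17 3 0 8 14 true false), .t 1 (nat_lit 0) (.g 17 8 0 3 14 true false), .t 1 (nat_lit 0) (.g 8 0 3 14 17 true true), .t 1 (nat_lit 0) (.g 18 3 0 8 14 true false), .t 1 (nat_lit 0) (.g 18 8 0 3 14 true false), .t 1 (nat_lit 0) (.g 3 18 0 8 14 false false), .t 1 (nat_lit 0) (.g 17 8 0 3 15 true false), .t 1 (nat_lit 0) (.g 8 0 3 15 17 true true), .t 1 (nat_lit 0) (.g 8 0 3 15 18 true true), .t 1 (nat_lit 0) (.g 17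 8 0 3 16 true false), .t 1 (nat_lit 0) (.g 3 17 0 8 16 false false), .t 1 (nat_lit 0) (.g 3 16 0 8 17 false false), .t 1 (nat_lit 0) (.g 8 0 3 16 17 true true), .t 1 (nat_lit 0) (.g 8 0 3 16 17 true false), .t 1 (nat_lit 0) (.g 18 8 0 3 16 true false), .t 1 (nat_lit 0) (.g 8 0 3 16 18 true true)] (by decide +kernel) (by decide +kernel)
theorem b43 : B 2752 2816 := Blk.of_chk [.t 1 (nat_lit 0) (.g 8 17 0 3 18 true true), .t 1 (nat_lit 0) (.g 3 0 8 17 18 false false), .t 1 (nat_lit 0) (.g 3 18 0 8 17 false false), .t 1 (nat_lit 0) (.g 8 0 3 17 18 true false), .t 1 (nat_lit 0) (.g 9 12 0 3 10 false true), .t 1 (nat_lit 0) (.g 9 13 0 3 10 false true), .t 1 (nat_lit 0) (.g 10 0 3 9 13 true false), .t 1 (nat_lit 0) (.g 9 14 0 3 10 false true), .t 1 (nat_lit 0) (.g 10 0 3 9 14 true false), .t 1 (nat_lit 0) (.g 9 15 0 3 10 false true), .t 1 (nat_lit 0) (.g 0 10 3 9 16 false true), .t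 1 (nat_lit 0) (.g 9 16 0 3 10 false true), .t 1 (nat_lit 0) (.g 0 10 3 9 17 false true), .t 1 (nat_lit 0) (.g 9 17 0 3 10 false true), .t 1 (nat_lit 0) (.g 10 0 3 9 17 true false), .t 1 (nat_lit 0) (.g 3 0 9 10 18 false false), .t 1 (nat_lit 0) (.g 9 18 0 3 10 true true), .t 1 (nat_lit 0) (.g 0 10 3 9 18 false true), .t 1 (nat_lit 0) (.g 9 18 0 3 10 false true), .t 1 (nat_lit 0) (.g 3 12 0 9 11 false false), .t 1 (nat_lit 0) (.g 3 11 0 9 12 false false), .t 1 (nat_lit 0) (.g 0 11 3 9 12 true true), .t 1 (nat_lit 0) (.g 3 13 0 9 11 false false), .t 1 (nat_lit 0) (.g 0 11 3 9 13 true true), .t 1 (nat_lit 0) (.g 3 14 0 9 11 false false), .t 1 (nat_lit 0) (.g 3 11 0 9 14 false false), .t 1 (nat_lit 0) (.g 0 11 3 9 14 true true), .t 1 (nat_lit 0) (.g 3 15 0 9 11 false false), .t 1 (nat_lit 0) (.g 0 11 3 9 15 true true), .t 1 (nat_lit 0) (.g 3 16 0 9 11 false false), .t 1 (nat_lit 0)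 (.g 0 11 3 9 16 true true), .t 1 (nat_lit 0) (.g 3 17 0 9 11 false false), .t 1 (nat_lit 0) (.g 0 11 3 9 17 true true), .t 1 (nat_lit 0) (.g 3 18 0 9 11 false false), .t 1 (nat_lit 0) (.g 0 11 3 9 18 true true), .t 1 (nat_lit 0) (.g 13 9 0 3 12 true false), .t 1 (nat_lit 0) (.g 3 13 0 9 12 false false), .t 1 (nat_lit 0) (.g 9 0 3 12 13 true true), .t 1 (nat_lit 0) (.g 9 0 3 12 14 true true), .t 1 (nat_lit 0) (.g 9 0 3 12 14 true false), .t 1 (nat_lit 0) (.g 15 3 0 9 12 true false), .t 1 (nat_lit 0) (.g 9 0 3 12 15 true true), .t 1 (nat_lit 0) (.g 16 3 0 9 12 true false), .t 1 (nat_lit 0) (.g 3 16 0 9 12 false false), .t 1 (nat_lit 0) (.g 9 0 3 12 16 true true), .t 1 (nat_lit 0) (.g 9 0 3 12 16 true false), .t 1 (nat_lit 0) (.g 17 3 0 9 12 true false), .t 1 (nat_lit 0) (.g 9 0 3 12 17 true true), .t 1 (nat_lit 0) (.g 9 0 3 12 18 true true), .t 1 (nat_lit 0) (.g 14 3 0 9 13 true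 false), .t 1 (nat_lit 0) (.g 14 9 0 3 13 true false), .t 1 (nat_lit 0) (.g 3 14 0 9 13 false false), .t 1 (nat_lit 0) (.g 3 13 0 9 14 false false), .t 1 (nat_lit 0) (.g 9 0 3 13 14 true true), .t 1 (nat_lit 0) (.g 9 0 3 13 14 true false), .t 1 (nat_lit 0) (.g 3 9 0 13 15 true true), .t 1 (nat_lit 0) (.g 15 3 0 9 13 true false), .t 1 (nat_lit 0) (.g 15 9 0 3 13 true false), .t 1 (nat_lit 0) (.g 9 0 3 13 15 true true), .t 1 (nat_lit 0) (.g 9 0 3 13 15 true false), .t 1 (nat_lit 0) (.g 3 9 0 13 16 true true), .t 1 (nat_lit 0) (.g 16 3 0 9 13 true false), .t 1 (nat_lit 0) (.g 3 13 0 9 16 false false), .t 1 (nat_lit 0) (.g 9 0 3 13 16 true true)] (by decide +kernel) (by decide +kernel)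
theorem b44 : B 2816 2880 := Blk.of_chk [.t 1 (nat_lit 0) (.g 9 0 3 13 16 true false), .t 1 (nat_lit 0) (.g 17 3 0 9 13 true false), .t 1 (nat_lit 0) (.g 17 9 0 3 13 true false), .t 1 (nat_lit 0) (.g 9 0 3 13 17 true true), .t 1 (nat_lit 0) (.g 9 0 3 13 17 true false), .t 1 (nat_lit 0) (.g 18 3 0 9 13 true false), .t 1 (nat_lit 0) (.g 3 13 0 9 18 false false), .t 1 (nat_lit 0) (.g 9 0 3 13 18 true true), .t 1 (nat_lit 0) (.g 9 0 3 13 18 true false), .t 1 (nat_lit 0) (.g 15 3 0 9 14 true false), .t 1 (nat_lit 0) (.g 15 9 0 3 14 true false), .t 1 (nat_lit 0) (.g 3 15 0 9 14 false false), .t 1 (nat_lit 0) (.g 3 14 0 9 15 false false), .t 1 (nat_lit 0) (.g 9 0 3 14 15 true true), .t 1 (nat_lit 0) (.g 9 0 3 14 15 true false), .t 1 (nat_lit 0) (.g 16 3 0 9 14 true false), .t 1 (nat_lit 0) (.g 16 9 0 3 14 true false), .t 1 (nat_lit 0) (.g 3 16 0 9 14 false false), .t 1 (nat_lit 0) (.g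 3 14 0 9 16 false false), .t 1 (nat_lit 0) (.g 9 0 3 14 16 true true), .t 1 (nat_lit 0) (.g 9 0 3 14 16 true false), .t 1 (nat_lit 0) (.g 17 9 0 3 14 true false), .t 1 (nat_lit 0) (.g 3 17 0 9 14 false false), .t 1 (nat_lit 0) (.g 3 14 0 9 17 false false), .t 1 (nat_lit 0) (.g 9 0 3 14 17 true true), .t 1 (nat_lit 0) (.g 3 9 0 14 18 true true), .t 1 (nat_lit 0) (.g 3 18 0 9 14 false false), .t 1 (nat_lit 0) (.g 3 14 0 9 18 false false), .t 1 (nat_lit 0) (.g 9 0 3 14 18 true true), .t 1 (nat_lit 0) (.g 9 0 3 14 18 true false), .t 1 (nat_lit 0) (.g 16 3 0 9 15 true false), .t 1 (nat_lit 0) (.g 3 16 0 9 15 false false), .t 1 (nat_lit 0) (.g 3 15 0 9 16 false false), .t 1 (nat_lit 0) (.g 9 0 3 15 16 true true), .t 1 (nat_lit 0) (.g 9 0 3 15 16 true false), .t 1 (nat_lit 0) (.g 17 9 0 3 15 true false), .t 1 (nat_lit 0) (.g 3 17 0 9 15 false false), .t 1 (nat_lit 0) (.g 9 0 3 15 17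 true true), .t 1 (nat_lit 0) (.g 18 3 0 9 15 false false), .t 1 (nat_lit 0) (.g 3 18 0 9 15 false false), .t 1 (nat_lit 0) (.g 3 15 0 9 18 false false), .t 1 (nat_lit 0) (.g 9 0 3 15 18 true true), .t 1 (nat_lit 0) (.g 9 0 3 15 18 true false), .t 1 (nat_lit 0) (.g 17 9 0 3 16 true false), .t 1 (nat_lit 0) (.g 3 17 0 9 16 false false), .t 1 (nat_lit 0) (.g 9 0 3 16 17 true true), .t 1 (nat_lit 0) (.g 9 0 3 16 17 true false), .t 1 (nat_lit 0) (.g 18 3 0 9 16 false false), .t 1 (nat_lit 0) (.g 18 3 0 9 16 true false), .t 1 (nat_lit 0) (.g 3 18 0 9 16 false false), .t 1 (nat_lit 0) (.g 9 0 3 16 18 true true), .t 1 (nat_lit 0) (.g 9 0 3 16 18 true false), .t 1 (nat_lit 0) (.g 9 0 3 17 18 true true), .t 1 (nat_lit 0) (.g 3 14 0 10 11 false false), .t 1 (nat_lit 0) (.g 0 11 3 10 14 true true), .t 1 (nat_lit 0) (.g 0 11 3 10 15 true true), .t 1 (nat_lit 0) (.g 3 16 0 10 11 false false),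 .t 1 (nat_lit 0) (.g 0 11 3 10 16 true true), .t 1 (nat_lit 0) (.g 0 11 3 10 17 true true), .t 1 (nat_lit 0) (.g 3 18 0 10 11 false false), .t 1 (nat_lit 0) (.g 0 11 3 10 13 true true), .t 1 (nat_lit 0) (.g 3 13 0 10 12 false false), .t 1 (nat_lit 0) (.g 10 0 3 12 13 true true), .t 1 (nat_lit 0) (.g 3 14 0 10 12 false false)] (by decide +kernel) (by decide +kernel)
theorem b45 : B 2880 2944 := Blk.of_chk [.t 1 (nat_lit 0) (.g 10 0 3 12 14 true true), .t 1 (nat_lit 0) (.g 0 11 3 10 18 true true), .t 1 (nat_lit 0) (.g 10 0 3 12 18 true true), .t 1 (nat_lit 0) (.g 14 3 0 10 13 true false), .t 1 (nat_lit 0) (.g 14 10 0 3 13 true false), .t 1 (nat_lit 0) (.g 10 0 3 13 14 true true), .t 1 (nat_lit 0) (.g 10 0 3 13 14 true false), .t 1 (nat_lit 0) (.g 15 3 0 10 13 true false), .t 1 (nat_lit 0) (.g 15 10 0 3 13 true false), .t 1 (nat_lit 0) (.g 10 0 3 13 15 true true), .t 1 (nat_lit 0)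 (.g 16 10 0 3 13 true false), .t 1 (nat_lit 0) (.g 10 0 3 13 16 true true), .t 1 (nat_lit 0) (.g 17 3 0 10 13 true false), .t 1 (nat_lit 0) (.g 17 10 0 3 13 true false), .t 1 (nat_lit 0) (.g 3 10 0 13 18 true true), .t 1 (nat_lit 0) (.g 3 10 0 14 15 true true), .t 1 (nat_lit 0) (.g 15 10 0 3 14 true false), .t 1 (nat_lit 0) (.g 16 3 0 10 14 true false), .t 1 (nat_lit 0) (.g 17 3 0 10 14 true false), .t 1 (nat_lit 0) (.g 17 10 0 3 14 true false), .t 1 (nat_lit 0) (.g 3 17 0 10 14 false false), .t 1 (nat_lit 0) (.g 10 0 3 14 17 true true), .t 1 (nat_lit 0) (.g 18 3 0 10 14 true false), .t 1 (nat_lit 0) (.g 18 10 0 3 14 true false), .t 1 (nat_lit 0) (.g 3 18 0 10 14 false false), .t 1 (nat_lit 0) (.g 3 16 0 10 15 false false), .t 1 (nat_lit 0) (.g 17 10 0 3 15 true false), .t 1 (nat_lit 0) (.g 3 17 0 10 15 false false), .t 1 (nat_lit 0) (.g 10 0 3 15 17 true true), .t 1 (nat_lit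 0) (.g 18 10 0 3 15 true false), .t 1 (nat_lit 0) (.g 10 0 3 15 18 true true), .t 1 (nat_lit 0) (.g 17 10 0 3 16 true false), .t 1 (nat_lit 0) (.g 3 17 0 10 16 false false), .t 1 (nat_lit 0) (.g 10 0 3 16 17 true true), .t 1 (nat_lit 0) (.g 10 0 3 16 18 true true), .t 1 (nat_lit 0) (.g 18 3 0 10 17 true false), .t 1 (nat_lit 0) (.g 3 18 0 10 17 false false), .t 1 (nat_lit 0) (.g 0 11 3 12 14 true true), .t 1 (nat_lit 0) (.g 0 11 3 12 16 true true), .t 1 (nat_lit 0) (.g 0 11 3 13 14 true true), .t 1 (nat_lit 0) (.g 0 11 3 13 15 true true), .t 1 (nat_lit 0) (.g 0 11 3 13 16 true true), .t 1 (nat_lit 0) (.g 0 11 3 13 17 true true), .t 1 (nat_lit 0) (.g 0 11 3 13 18 true true), .t 1 (nat_lit 0) (.g 0 11 3 14 15 true true), .t 1 (nat_lit 0) (.g 0 11 3 14 16 true true), .t 1 (nat_lit 0) (.g 0 11 3 14 17 true true), .t 1 (nat_lit 0) (.g 11 0 3 14 18 false true), .t 1 (nat_lit 0) (.g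 0 11 3 14 18 true true), .t 1 (nat_lit 0) (.g 0 11 3 15 16 true true), .t 1 (nat_lit 0) (.g 0 11 3 15 17 true true), .t 1 (nat_lit 0) (.g 0 11 3 16 17 true true), .t 1 (nat_lit 0) (.g 11 0 3 16 18 false true), .t 1 (nat_lit 0) (.g 0 11 3 16 18 true true), .t 1 (nat_lit 0) (.g 0 11 3 17 18 true true), .t 1 (nat_lit 0) (.g 12 0 3 14 17 false true), .t 1 (nat_lit 0) (.g 0 11 3 12 17 true true), .t 1 (nat_lit 0) (.g 12 0 3 14 18 false true), .t 1 (nat_lit 0) (.g 0 11 3 12 18 true true), .t 1 (nat_lit 0) (.g 12 0 3 15 18 false true), .t 1 (nat_lit 0) (.g 12 0 3 16 17 false true), .t 1 (nat_lit 0) (.g 12 0 3 17 18 false true), .t 1 (nat_lit 0) (.g 13 0 3 14 15 false true), .t 1 (nat_lit 0) (.g 13 0 3 14 16 false true)] (by decide +kernel) (by decide +kernel)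
theorem b46 : B 2944 3008 := Blk.of_chk [.t 1 (nat_lit 0) (.g 13 0 3 14 17 false true), .t 1 (nat_lit 0) (.g 13 0 3 14 18 false true), .t 1 (nat_lit 0) (.g 13 0 3 15 16 false true), .t 1 (nat_lit 0) (.g 13 0 3 15 18 false true), .t 1 (nat_lit 0) (.g 0 11 3 15 18 true true), .t 1 (nat_lit 0) (.g 13 0 3 16 17 false true), .t 1 (nat_lit 0) (.g 13 0 3 16 18 false true), .t 1 (nat_lit 0) (.g 13 0 3 17 18 false true), .t 1 (nat_lit 0) (.g 3 0 14 15 16 false false), .t 1 (nat_lit 0) (.g 3 0 14 15 16 false true), .t 1 (nat_lit 0) (.g 14 0 3 15 18 false true), .t 1 (nat_lit 0) (.g 3 0 15 17 18 false false), .t 1 (nat_lit 0) (.g 3 0 15 17 18 false true), .t 1 (nat_lit 0) (.g 3 0 16 17 18 false true), .t 1 (nat_lit 0) (.g 5 4 0 6 12 false false), .t 1 (nat_lit 0) (.g 5 12 0 4 6 false true), .t 1 (nat_lit 0) (.g 6 0 4 5 12 true false), .t 1 (nat_lit 0) (.g 5 4 0 6 13 false false), .t 1 (nat_lit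 0) (.g 6 0 4 5 13 true true), .t 1 (nat_lit 0) (.g 6 0 4 5 13 true false), .t 1 (nat_lit 0) (.g 5 4 0 6 14 false false), .t 1 (nat_lit 0) (.g 6 0 4 5 14 true true), .t 1 (nat_lit 0) (.g 5 6 0 4 15 true true), .t 1 (nat_lit 0) (.g 4 0 5 6 16 false false), .t 1 (nat_lit 0) (.g 4 0 5 6 17 false false), .t 1 (nat_lit 0) (.g 4 0 5 6 18 false false), .t 1 (nat_lit 0) (.g 5 4 0 6 18 false false), .t 1 (nat_lit 0) (.g 5 12 0 4 7 false true), .t 1 (nat_lit 0) (.g 7 0 4 5 12 true false), .t 1 (nat_lit 0) (.g 5 13 0 4 7 false true), .t 1 (nat_lit 0) (.g 7 0 4 5 13 true false), .t 1 (nat_lit 0) (.g 0 7 4 5 14 false true), .t 1 (nat_lit 0) (.g 4 0 5 7 14 false false), .t 1 (nat_lit 0) (.g 5 14 0 4 7 false true), .t 1 (nat_lit 0) (.g 7 0 4 5 14 true false), .t 1 (nat_lit 0) (.g 4 0 5 7 15 false false), .t 1 (nat_lit 0) (.g 5 15 0 4 7 true true), .t 1 (nat_lit 0) (.g 0 7 4 5 15 false true),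 .t 1 (nat_lit 0) (.g 5 15 0 4 7 false true), .t 1 (nat_lit 0) (.g 7 0 4 5 15 true false), .t 1 (nat_lit 0) (.g 4 0 5 7 16 false false), .t 1 (nat_lit 0) (.g 0 7 4 5 16 false true), .t 1 (nat_lit 0) (.g 5 16 0 4 7 false true), .t 1 (nat_lit 0) (.g 4 0 5 7 17 false false), .t 1 (nat_lit 0) (.g 5 17 0 4 7 true true), .t 1 (nat_lit 0) (.g 0 7 4 5 17 false true), .t 1 (nat_lit 0) (.g 7 0 4 5 17 true false), .t 1 (nat_lit 0) (.g 4 0 5 7 18 false false), .t 1 (nat_lit 0) (.g 5 18 0 4 7 true true), .t 1 (nat_lit 0) (.g 0 7 4 5 18 false true), .t 1 (nat_lit 0) (.g 7 0 4 5 18 true false), .t 1 (nat_lit 0) (.g 5 12 0 4 8 false true), .t 1 (nat_lit 0) (.g 8 0 4 5 12 true true), .t 1 (nat_lit 0) (.g 5 4 0 8 13 false false), .t 1 (nat_lit 0) (.g 5 13 0 4 8 false true), .t 1 (nat_lit 0) (.g 8 0 4 5 13 true true), .t 1 (nat_lit 0) (.g 8 0 4 5 13 true false), .t 1 (nat_lit 0) (.g 8 0 4 5 14 true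 true), .t 1 (nat_lit 0) (.g 4 0 5 8 15 false true), .t 1 (nat_lit 0) (.g 5 8 0 4 15 true true), .t 1 (nat_lit 0) (.g 8 0 4 5 15 true true), .t 1 (nat_lit 0) (.g 4 0 5 8 16 false true), .t 1 (nat_lit 0) (.g 5 8 0 4 16 true true), .t 1 (nat_lit 0) (.g 0 8 4 5 16 false true)] (by decide +kernel) (by decide +kernel)
theorem b47 : B 3008 3072 := Blk.of_chk [.t 1 (nat_lit 0) (.g 5 4 0 8 16 false false), .t 1 (nat_lit 0) (.g 4 0 5 8 17 false true), .t 1 (nat_lit 0) (.g 8 0 4 5 17 true true), .t 1 (nat_lit 0) (.g 4 0 5 8 18 false true), .t 1 (nat_lit 0) (.g 4 0 5 8 18 false false), .t 1 (nat_lit 0) (.g 5 8 0 4 18 true true), .t 1 (nat_lit 0) (.g 5 4 0 8 18 false false), .t 1 (nat_lit 0) (.g 9 0 4 5 12 true true), .t 1 (nat_lit 0) (.g 5 4 0 9 13 false false), .t 1 (nat_lit 0) (.g 9 0 4 5 13 true true), .t 1 (nat_lit 0) (.g 5 4 0 9 14 false false), .t 1 (nat_lit 0) (.g 9 0 4 5 14 true true),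 .t 1 (nat_lit 0) (.g 5 4 0 9 15 false false), .t 1 (nat_lit 0) (.g 9 0 4 5 15 true true), .t 1 (nat_lit 0) (.g 9 0 4 5 16 true true), .t 1 (nat_lit 0) (.g 5 4 0 9 17 false false), .t 1 (nat_lit 0) (.g 5 4 0 9 18 false false), .t 1 (nat_lit 0) (.g 5 12 0 4 10 false true), .t 1 (nat_lit 0) (.g 5 4 0 10 13 false false), .t 1 (nat_lit 0) (.g 5 13 0 4 10 false true), .t 1 (nat_lit 0) (.g 10 0 4 5 13 true true), .t 1 (nat_lit 0) (.g 5 4 0 10 14 false false), .t 1 (nat_lit 0) (.g 5 14 0 4 10 false true), .t 1 (nat_lit 0) (.g 10 0 4 5 14 true true), .t 1 (nat_lit 0) (.g 5 10 0 4 15 true true), .t 1 (nat_lit 0) (.g 5 4 0 10 15 false false), .t 1 (nat_lit 0) (.g 5 10 0 4 16 true true), .t 1 (nat_lit 0) (.g 4 0 5 10 16 false false), .t 1 (nat_lit 0) (.g 5 10 0 4 17 true true), .t 1 (nat_lit 0) (.g 0 10 4 5 17 false true), .t 1 (nat_lit 0) (.g 4 0 5 10 17 false false), .t 1 (nat_lit 0) (.g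 5 4 0 10 17 false false), .t 1 (nat_lit 0) (.g 0 10 4 5 18 false true), .t 1 (nat_lit 0) (.g 4 0 5 10 18 false false), .t 1 (nat_lit 0) (.g 5 4 0 10 18 false false), .t 1 (nat_lit 0) (.g 10 0 4 5 18 true true), .t 1 (nat_lit 0) (.g 4 14 0 5 11 false false), .t 1 (nat_lit 0) (.g 4 11 0 5 14 false false), .t 1 (nat_lit 0) (.g 0 11 4 5 15 true true), .t 1 (nat_lit 0) (.g 0 11 4 5 16 true true), .t 1 (nat_lit 0) (.g 4 16 0 5 11 false false), .t 1 (nat_lit 0) (.g 0 11 4 5 17 true true), .t 1 (nat_lit 0) (.g 4 17 0 5 11 false false), .t 1 (nat_lit 0) (.g 0 11 4 5 18 true true), .t 1 (nat_lit 0) (.g 0 11 4 5 13 true true), .t 1 (nat_lit 0) (.g 13 4 0 5 12 true false), .t 1 (nat_lit 0) (.g 4 13 0 5 12 false false), .t 1 (nat_lit 0) (.g 4 12 0 5 13 false false), .t 1 (nat_lit 0) (.g 5 0 4 12 13 true false), .t 1 (nat_lit 0) (.g 0 11 4 5 14 true true), .t 1 (nat_lit 0) (.g 14 4 0 5 12 true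 false), .t 1 (nat_lit 0) (.g 4 14 0 5 12 false false), .t 1 (nat_lit 0) (.g 5 0 4 12 14 true true), .t 1 (nat_lit 0) (.g 15 4 0 5 12 true false), .t 1 (nat_lit 0) (.g 16 4 0 5 12 true false), .t 1 (nat_lit 0) (.g 17 4 0 5 12 true false), .t 1 (nat_lit 0) (.g 4 17 0 5 12 false false), .t 1 (nat_lit 0) (.g 14 4 0 5 13 true false), .t 1 (nat_lit 0) (.g 14 5 0 4 13 true false), .t 1 (nat_lit 0) (.g 4 14 0 5 13 false false), .t 1 (nat_lit 0) (.g 4 13 0 5 14 false false), .t 1 (nat_lit 0) (.g 5 0 4 13 14 true true), .t 1 (nat_lit 0) (.g 4 5 0 13 15 true true), .t 1 (nat_lit 0) (.g 4 15 0 5 13 false false)] (by decide +kernel) (by decide +kernel)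
theorem b48 : B 3072 3136 := Blk.of_chk [.t 1 (nat_lit 0) (.g 4 5 0 13 16 true true), .t 1 (nat_lit 0) (.g 4 16 0 5 13 false false), .t 1 (nat_lit 0) (.g 4 17 0 5 13 false false), .t 1 (nat_lit 0) (.g 5 0 4 13 17 true true), .t 1 (nat_lit 0) (.g 4 18 0 5 13 false false), .t 1 (nat_lit 0) (.g 4 5 0 14 15 true true), .t 1 (nat_lit 0) (.g 15 4 0 5 14 true false), .t 1 (nat_lit 0) (.g 4 5 0 14 16 true true), .t 1 (nat_lit 0) (.g 4 5 0 14 17 true true), .t 1 (nat_lit 0) (.g 17 4 0 5 14 true false), .t 1 (nat_lit 0) (.g 4 17 0 5 14 false false), .t 1 (nat_lit 0) (.g 4 0 5 15 16 false false), .t 1 (nat_lit 0) (.g 5 16 0 4 15 true true), .t 1 (nat_lit 0) (.g 15 5 0 4 16 true true), .t 1 (nat_lit 0) (.g 4 16 0 5 15 false false), .t 1 (nat_lit 0) (.g 17 4 0 5 15 true false), .t 1 (nat_lit 0) (.g 4 17 0 5 15 false false), .t 1 (nat_lit 0) (.g 18 4 0 5 15 true false), .t 1 (nat_lit 0) (.g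 4 18 0 5 15 false false), .t 1 (nat_lit 0) (.g 5 0 4 15 18 true true), .t 1 (nat_lit 0) (.g 4 17 0 5 16 false false), .t 1 (nat_lit 0) (.g 5 0 4 16 17 true true), .t 1 (nat_lit 0) (.g 4 18 0 5 16 false false), .t 1 (nat_lit 0) (.g 4 0 5 17 18 false true), .t 1 (nat_lit 0) (.g 18 4 0 5 17 true false), .t 1 (nat_lit 0) (.g 4 18 0 5 17 false false), .t 1 (nat_lit 0) (.g 6 12 0 4 7 false true), .t 1 (nat_lit 0) (.g 7 0 4 6 12 true false), .t 1 (nat_lit 0) (.g 6 13 0 4 7 false true), .t 1 (nat_lit 0) (.g 7 0 4 6 13 true false), .t 1 (nat_lit 0) (.g 6 14 0 4 7 true true), .t 1 (nat_lit 0) (.g 0 7 4 6 14 false true), .t 1 (nat_lit 0) (.g 4 0 6 7 14 false false), .t 1 (nat_lit 0) (.g 6 14 0 4 7 false true), .t 1 (nat_lit 0) (.g 7 0 4 6 14 true false), .t 1 (nat_lit 0) (.g 4 0 6 7 15 false false), .t 1 (nat_lit 0) (.g 0 7 4 6 15 false true), .t 1 (nat_lit 0) (.g 6 15 0 4 7 false true),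 .t 1 (nat_lit 0) (.g 7 0 4 6 15 true false), .t 1 (nat_lit 0) (.g 4 0 6 7 16 false false), .t 1 (nat_lit 0) (.g 6 16 0 4 7 true true), .t 1 (nat_lit 0) (.g 0 7 4 6 16 false true), .t 1 (nat_lit 0) (.g 6 16 0 4 7 false true), .t 1 (nat_lit 0) (.g 7 0 4 6 16 true false), .t 1 (nat_lit 0) (.g 4 0 6 7 17 false false), .t 1 (nat_lit 0) (.g 6 17 0 4 7 true true), .t 1 (nat_lit 0) (.g 0 7 4 6 17 false true), .t 1 (nat_lit 0) (.g 7 0 4 6 17 true false), .t 1 (nat_lit 0) (.g 4 0 6 7 18 false false), .t 1 (nat_lit 0) (.g 6 18 0 4 7 true true), .t 1 (nat_lit 0) (.g 0 7 4 6 18 false true), .t 1 (nat_lit 0) (.g 6 18 0 4 7 false true), .t 1 (nat_lit 0) (.g 7 0 4 6 18 true false), .t 1 (nat_lit 0) (.g 6 4 0 8 13 false false), .t 1 (nat_lit 0) (.g 6 4 0 8 14 false false), .t 1 (nat_lit 0) (.g 8 0 4 6 14 true true), .t 1 (nat_lit 0) (.g 4 0 6 8 15 false true), .t 1 (nat_lit 0) (.g 8 0 4 6 15 true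 true), .t 1 (nat_lit 0) (.g 4 0 6 8 16 false true), .t 1 (nat_lit 0) (.g 6 4 0 8 16 false false), .t 1 (nat_lit 0) (.g 4 0 6 8 17 false true), .t 1 (nat_lit 0) (.g 6 8 0 4 17 true true), .t 1 (nat_lit 0) (.g 6 4 0 8 17 false false), .t 1 (nat_lit 0) (.g 8 0 4 6 17 true true)] (by decide +kernel) (by decide +kernel)
theorem b49 : B 3136 3200 := Blk.of_chk [.t 1 (nat_lit 0) (.g 8 0 4 6 17 true false), .t 1 (nat_lit 0) (.g 4 0 6 8 18 false true), .t 1 (nat_lit 0) (.g 6 8 0 4 18 true true), .t 1 (nat_lit 0) (.g 6 4 0 8 18 false false), .t 1 (nat_lit 0) (.g 8 0 4 6 18 true true), .t 1 (nat_lit 0) (.g 6 4 0 9 12 false false), .t 1 (nat_lit 0) (.g 9 0 4 6 12 true true), .t 1 (nat_lit 0) (.g 6 4 0 9 13 false false), .t 1 (nat_lit 0) (.g 9 0 4 6 13 true true), .t 1 (nat_lit 0) (.g 6 4 0 9 14 false false), .t 1 (nat_lit 0) (.g 9 0 4 6 14 true true), .t 1 (nat_lit 0) (.g 4 0 6 9 15 false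 true), .t 1 (nat_lit 0) (.g 6 4 0 9 15 false false), .t 1 (nat_lit 0) (.g 9 0 4 6 15 true true), .t 1 (nat_lit 0) (.g 4 0 6 9 16 false true), .t 1 (nat_lit 0) (.g 6 9 0 4 16 true true), .t 1 (nat_lit 0) (.g 9 0 4 6 16 true true), .t 1 (nat_lit 0) (.g 4 0 6 9 17 false true), .t 1 (nat_lit 0) (.g 6 9 0 4 17 true true), .t 1 (nat_lit 0) (.g 6 4 0 9 17 false false), .t 1 (nat_lit 0) (.g 4 0 6 9 18 false true), .t 1 (nat_lit 0) (.g 6 9 0 4 18 true true), .t 1 (nat_lit 0) (.g 6 4 0 9 18 false false), .t 1 (nat_lit 0) (.g 9 0 4 6 18 true true), .t 1 (nat_lit 0) (.g 6 4 0 10 12 false false), .t 1 (nat_lit 0) (.g 6 4 0 10 13 false false), .t 1 (nat_lit 0) (.g 6 13 0 4 10 false true), .t 1 (nat_lit 0) (.g 6 4 0 10 14 false false), .t 1 (nat_lit 0) (.g 10 0 4 6 14 true true), .t 1 (nat_lit 0) (.g 4 0 6 10 15 false true), .t 1 (nat_lit 0) (.g 0 10 4 6 15 false true), .t 1 (nat_lit 0) (.g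 6 4 0 10 15 false false), .t 1 (nat_lit 0) (.g 6 10 0 4 16 true true), .t 1 (nat_lit 0) (.g 4 0 6 10 16 false false), .t 1 (nat_lit 0) (.g 6 16 0 4 10 false true), .t 1 (nat_lit 0) (.g 6 10 0 4 17 true true), .t 1 (nat_lit 0) (.g 4 0 6 10 17 false false), .t 1 (nat_lit 0) (.g 6 4 0 10 17 false false), .t 1 (nat_lit 0) (.g 10 0 4 6 17 true true), .t 1 (nat_lit 0) (.g 6 10 0 4 18 true true), .t 1 (nat_lit 0) (.g 0 10 4 6 18 false true), .t 1 (nat_lit 0) (.g 4 0 6 10 18 false false), .t 1 (nat_lit 0) (.g 6 4 0 10 18 false false), .t 1 (nat_lit 0) (.g 10 0 4 6 18 true true), .t 1 (nat_lit 0) (.g 0 11 4 6 12 true true), .t 1 (nat_lit 0) (.g 4 13 0 6 11 false false), .t 1 (nat_lit 0) (.g 0 11 4 6 13 true true), .t 1 (nat_lit 0) (.g 0 11 4 6 14 true true), .t 1 (nat_lit 0) (.g 4 14 0 6 11 false false), .t 1 (nat_lit 0) (.g 0 11 4 6 15 true true), .t 1 (nat_lit 0) (.g 0 11 4 6 16 true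 true), .t 1 (nat_lit 0) (.g 4 16 0 6 11 false false), .t 1 (nat_lit 0) (.g 0 11 4 6 17 true true), .t 1 (nat_lit 0) (.g 4 17 0 6 11 false false), .t 1 (nat_lit 0) (.g 0 11 4 6 18 true true), .t 1 (nat_lit 0) (.g 13 4 0 6 12 true false), .t 1 (nat_lit 0) (.g 4 13 0 6 12 false false), .t 1 (nat_lit 0) (.g 4 12 0 6 13 false false), .t 1 (nat_lit 0) (.g 6 0 4 12 13 true false), .t 1 (nat_lit 0) (.g 14 4 0 6 12 true false), .t 1 (nat_lit 0) (.g 4 14 0 6 12 false false), .t 1 (nat_lit 0) (.g 4 12 0 6 14 false false), .t 1 (nat_lit 0) (.g 6 0 4 12 14 true true), .t 1 (nat_lit 0) (.g 15 4 0 6 12 true false)] (by decide +kernel) (by decide +kernel)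
theorem b50 : B 3200 3264 := Blk.of_chk [.t 1 (nat_lit 0) (.g 16 4 0 6 12 true false), .t 1 (nat_lit 0) (.g 4 17 0 6 12 false false), .t 1 (nat_lit 0) (.g 14 4 0 6 13 true false), .t 1 (nat_lit 0) (.g 14 6 0 4 13 true false), .t 1 (nat_lit 0) (.g 4 14 0 6 13 false false), .t 1 (nat_lit 0) (.g 4 13 0 6 14 false false), .t 1 (nat_lit 0) (.g 6 0 4 13 14 true true), .t 1 (nat_lit 0) (.g 4 15 0 6 13 false false), .t 1 (nat_lit 0) (.g 4 13 0 6 15 false false), .t 1 (nat_lit 0) (.g 4 16 0 6 13 false false), .t 1 (nat_lit 0) (.g 4 17 0 6 13 false false), .t 1 (nat_lit 0) (.g 6 0 4 13 17 true true), .t 1 (nat_lit 0) (.g 4 18 0 6 13 false false), .t 1 (nat_lit 0) (.g 15 4 0 6 14 true false), .t 1 (nat_lit 0) (.g 4 14 0 6 15 false false), .t 1 (nat_lit 0) (.g 4 6 0 14 16 true true), .t 1 (nat_lit 0) (.g 16 4 0 6 14 true false), .t 1 (nat_lit 0) (.g 4 6 0 14 17 true true), .t 1 (nat_lit 0)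 (.g 17 4 0 6 14 true false), .t 1 (nat_lit 0) (.g 4 17 0 6 14 false false), .t 1 (nat_lit 0) (.g 4 6 0 14 18 true true), .t 1 (nat_lit 0) (.g 18 4 0 6 14 true false), .t 1 (nat_lit 0) (.g 6 0 4 14 18 true true), .t 1 (nat_lit 0) (.g 6 15 0 4 16 false true), .t 1 (nat_lit 0) (.g 4 16 0 6 15 false false), .t 1 (nat_lit 0) (.g 17 4 0 6 15 true false), .t 1 (nat_lit 0) (.g 4 17 0 6 15 false false), .t 1 (nat_lit 0) (.g 18 4 0 6 15 true false), .t 1 (nat_lit 0) (.g 4 18 0 6 15 false false), .t 1 (nat_lit 0) (.g 4 0 6 16 17 false false), .t 1 (nat_lit 0) (.g 4 17 0 6 16 false false), .t 1 (nat_lit 0) (.g 4 0 6 16 18 false false), .t 1 (nat_lit 0) (.g 16 4 0 6 18 false true), .t 1 (nat_lit 0) (.g 4 18 0 6 16 false false), .t 1 (nat_lit 0) (.g 4 0 6 17 18 false true), .t 1 (nat_lit 0) (.g 4 0 6 17 18 false false), .t 1 (nat_lit 0) (.g 17 4 0 6 18 false true), .t 1 (nat_lit 0) (.g 18 4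 0 6 17 true false), .t 1 (nat_lit 0) (.g 4 18 0 6 17 false false), .t 1 (nat_lit 0) (.g 7 4 0 8 12 false false), .t 1 (nat_lit 0) (.g 8 0 4 7 12 true true), .t 1 (nat_lit 0) (.g 7 4 0 8 13 false false), .t 1 (nat_lit 0) (.g 8 0 4 7 13 true true), .t 1 (nat_lit 0) (.g 7 4 0 8 14 false false), .t 1 (nat_lit 0) (.g 8 0 4 7 14 true true), .t 1 (nat_lit 0) (.g 4 0 7 8 15 false true), .t 1 (nat_lit 0) (.g 7 8 0 4 15 true true), .t 1 (nat_lit 0) (.g 7 4 0 8 15 false false), .t 1 (nat_lit 0) (.g 8 0 4 7 15 true true), .t 1 (nat_lit 0) (.g 4 0 7 8 16 false true), .t 1 (nat_lit 0) (.g 7 8 0 4 16 true true), .t 1 (nat_lit 0) (.g 7 4 0 8 16 false false), .t 1 (nat_lit 0) (.g 4 0 7 8 17 false true), .t 1 (nat_lit 0) (.g 7 8 0 4 17 true true), .t 1 (nat_lit 0) (.g 7 4 0 8 17 false false), .t 1 (nat_lit 0) (.g 8 0 4 7 17 true true), .t 1 (nat_lit 0) (.g 4 0 7 8 18 false true), .t 1 (nat_lit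 0) (.g 7 8 0 4 18 true true), .t 1 (nat_lit 0) (.g 7 4 0 8 18 false false), .t 1 (nat_lit 0) (.g 8 0 4 7 18 true true), .t 1 (nat_lit 0) (.g 7 4 0 9 12 false false), .t 1 (nat_lit 0) (.g 7 4 0 9 13 false false), .t 1 (nat_lit 0) (.g 9 0 4 7 13 true true), .t 1 (nat_lit 0) (.g 7 4 0 9 14 false false)] (by decide +kernel) (by decide +kernel)
theorem b51 : B 3264 3328 := Blk.of_chk [.t 1 (nat_lit 0) (.g 9 0 4 7 14 true true), .t 1 (nat_lit 0) (.g 7 4 0 9 15 false false), .t 1 (nat_lit 0) (.g 9 0 4 7 15 true true), .t 1 (nat_lit 0) (.g 4 0 7 9 16 false true), .t 1 (nat_lit 0) (.g 9 0 4 7 16 true true), .t 1 (nat_lit 0) (.g 7 4 0 9 17 false false), .t 1 (nat_lit 0) (.g 9 0 4 7 17 true true), .t 1 (nat_lit 0) (.g 4 0 7 9 18 false true), .t 1 (nat_lit 0) (.g 7 9 0 4 18 true true), .t 1 (nat_lit 0) (.g 7 4 0 9 18 false false), .t 1 (nat_lit 0) (.g 9 0 4 7 18 true true), .t 1 (nat_lit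 0) (.g 7 4 0 10 12 false false), .t 1 (nat_lit 0) (.g 10 0 4 7 12 true true), .t 1 (nat_lit 0) (.g 7 4 0 10 13 false false), .t 1 (nat_lit 0) (.g 10 0 4 7 13 true true), .t 1 (nat_lit 0) (.g 7 4 0 10 14 false false), .t 1 (nat_lit 0) (.g 10 0 4 7 14 true true), .t 1 (nat_lit 0) (.g 4 0 7 10 16 false true), .t 1 (nat_lit 0) (.g 7 10 0 4 16 true true), .t 1 (nat_lit 0) (.g 4 0 7 10 17 false true), .t 1 (nat_lit 0) (.g 7 10 0 4 17 true true), .t 1 (nat_lit 0) (.g 7 4 0 10 17 false false), .t 1 (nat_lit 0) (.g 10 0 4 7 17 true true), .t 1 (nat_lit 0) (.g 4 0 7 10 18 false true), .t 1 (nat_lit 0) (.g 7 4 0 10 18 false false), .t 1 (nat_lit 0) (.g 10 0 4 7 18 true true), .t 1 (nat_lit 0) (.g 4 11 0 7 12 false false), .t 1 (nat_lit 0) (.g 0 11 4 7 12 true true), .t 1 (nat_lit 0) (.g 4 11 0 7 13 false false), .t 1 (nat_lit 0) (.g 0 11 4 7 13 true true), .t 1 (nat_lit 0) (.g 4 14 0 7 11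 false false), .t 1 (nat_lit 0) (.g 4 11 0 7 14 false false), .t 1 (nat_lit 0) (.g 0 11 4 7 15 true true), .t 1 (nat_lit 0) (.g 0 11 4 7 16 true true), .t 1 (nat_lit 0) (.g 0 11 4 7 17 true true), .t 1 (nat_lit 0) (.g 4 17 0 7 11 false false), .t 1 (nat_lit 0) (.g 0 11 4 7 18 true true), .t 1 (nat_lit 0) (.g 4 13 0 7 12 false false), .t 1 (nat_lit 0) (.g 4 12 0 7 13 false false), .t 1 (nat_lit 0) (.g 7 0 4 12 13 true true), .t 1 (nat_lit 0) (.g 7 0 4 12 13 true false), .t 1 (nat_lit 0) (.g 0 11 4 7 14 true true), .t 1 (nat_lit 0) (.g 14 4 0 7 12 true false), .t 1 (nat_lit 0) (.g 4 14 0 7 12 false false), .t 1 (nat_lit 0) (.g 4 12 0 7 14 false false), .t 1 (nat_lit 0) (.g 7 0 4 12 14 true false), .t 1 (nat_lit 0) (.g 15 4 0 7 12 true false), .t 1 (nat_lit 0) (.g 7 0 4 12 15 true false), .t 1 (nat_lit 0) (.g 16 4 0 7 12 true false), .t 1 (nat_lit 0) (.g 4 17 0 7 12 false false),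 .t 1 (nat_lit 0) (.g 14 4 0 7 13 true false), .t 1 (nat_lit 0) (.g 14 7 0 4 13 true false), .t 1 (nat_lit 0) (.g 4 14 0 7 13 false false), .t 1 (nat_lit 0) (.g 4 13 0 7 14 false false), .t 1 (nat_lit 0) (.g 7 0 4 13 14 true true), .t 1 (nat_lit 0) (.g 7 0 4 13 14 true false), .t 1 (nat_lit 0) (.g 4 7 0 13 15 true true), .t 1 (nat_lit 0) (.g 4 15 0 7 13 false false), .t 1 (nat_lit 0) (.g 4 13 0 7 15 false false), .t 1 (nat_lit 0) (.g 4 7 0 13 16 true true), .t 1 (nat_lit 0) (.g 4 16 0 7 13 false false), .t 1 (nat_lit 0) (.g 17 4 0 7 13 true false), .t 1 (nat_lit 0) (.g 4 17 0 7 13 false false), .t 1 (nat_lit 0) (.g 7 0 4 13 17 true true)] (by decide +kernel) (by decide +kernel)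
theorem b52 : B 3328 3392 := Blk.of_chk [.t 1 (nat_lit 0) (.g 4 18 0 7 13 false false), .t 1 (nat_lit 0) (.g 7 0 4 13 18 true true), .t 1 (nat_lit 0) (.g 7 0 4 13 18 true false), .t 1 (nat_lit 0) (.g 15 4 0 7 14 true false), .t 1 (nat_lit 0) (.g 4 14 0 7 15 false false), .t 1 (nat_lit 0) (.g 7 0 4 14 15 true false), .t 1 (nat_lit 0) (.g 4 7 0 14 17 true true), .t 1 (nat_lit 0) (.g 17 4 0 7 14 true false), .t 1 (nat_lit 0) (.g 4 17 0 7 14 false false), .t 1 (nat_lit 0) (.g 7 0 4 14 18 true true), .t 1 (nat_lit 0) (.g 7 0 4 14 18 true false), .t 1 (nat_lit 0) (.g 4 0 7 15 16 false false), .t 1 (nat_lit 0) (.g 7 16 0 4 15 true true), .t 1 (nat_lit 0) (.g 4 0 7 15 17 false true), .t 1 (nat_lit 0) (.g 4 17 0 7 15 false false), .t 1 (nat_lit 0) (.g 7 0 4 15 18 true false), .t 1 (nat_lit 0) (.g 4 0 7 16 17 false true), .t 1 (nat_lit 0) (.g 16 4 0 7 17 false true), .t 1 (nat_lit 0) (.g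 16 7 0 4 17 true true), .t 1 (nat_lit 0) (.g 4 17 0 7 16 false false), .t 1 (nat_lit 0) (.g 7 0 4 16 17 true false), .t 1 (nat_lit 0) (.g 4 0 7 16 18 false true), .t 1 (nat_lit 0) (.g 18 4 0 7 16 false false), .t 1 (nat_lit 0) (.g 4 18 0 7 16 false false), .t 1 (nat_lit 0) (.g 4 16 0 7 18 false false), .t 1 (nat_lit 0) (.g 7 0 4 16 18 true false), .t 1 (nat_lit 0) (.g 4 0 7 17 18 false true), .t 1 (nat_lit 0) (.g 4 0 7 17 18 false false), .t 1 (nat_lit 0) (.g 7 17 0 4 18 true true), .t 1 (nat_lit 0) (.g 17 7 0 4 18 true true), .t 1 (nat_lit 0) (.g 18 4 0 7 17 false false), .t 1 (nat_lit 0) (.g 18 4 0 7 17 true false), .t 1 (nat_lit 0) (.g 4 18 0 7 17 false false), .t 1 (nat_lit 0) (.g 4 17 0 7 18 false false), .t 1 (nat_lit 0) (.g 7 0 4 17 18 true false), .t 1 (nat_lit 0) (.g 8 4 0 9 12 false false), .t 1 (nat_lit 0) (.g 8 4 0 9 13 false false), .t 1 (nat_lit 0) (.g 9 0 4 8 13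 true true), .t 1 (nat_lit 0) (.g 8 4 0 9 14 false false), .t 1 (nat_lit 0) (.g 9 0 4 8 14 true true), .t 1 (nat_lit 0) (.g 8 4 0 9 15 false false), .t 1 (nat_lit 0) (.g 9 0 4 8 15 true true), .t 1 (nat_lit 0) (.g 9 0 4 8 16 true true), .t 1 (nat_lit 0) (.g 4 0 8 9 17 false true), .t 1 (nat_lit 0) (.g 8 4 0 9 17 false false), .t 1 (nat_lit 0) (.g 9 0 4 8 17 true true), .t 1 (nat_lit 0) (.g 4 0 8 9 18 false true), .t 1 (nat_lit 0) (.g 8 9 0 4 18 true true), .t 1 (nat_lit 0) (.g 8 4 0 9 18 false false), .t 1 (nat_lit 0) (.g 9 0 4 8 18 true true), .t 1 (nat_lit 0) (.g 8 4 0 10 12 false false), .t 1 (nat_lit 0) (.g 8 4 0 10 13 false false), .t 1 (nat_lit 0) (.g 8 4 0 10 14 false false), .t 1 (nat_lit 0) (.g 8 4 0 10 15 false false), .t 1 (nat_lit 0) (.g 8 4 0 10 16 false false), .t 1 (nat_lit 0) (.g 8 4 0 10 17 false false), .t 1 (nat_lit 0) (.g 10 0 4 8 17 true true), .t 1 (nat_lit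 0) (.g 8 4 0 10 18 false false), .t 1 (nat_lit 0) (.g 10 0 4 8 18 true true), .t 1 (nat_lit 0) (.g 0 11 4 8 12 true true), .t 1 (nat_lit 0) (.g 4 11 0 8 13 false false), .t 1 (nat_lit 0) (.g 0 11 4 8 13 true true), .t 1 (nat_lit 0) (.g 4 14 0 8 11 false false), .t 1 (nat_lit 0) (.g 4 11 0 8 14 false false)] (by decide +kernel) (by decide +kernel)
theorem b53 : B 3392 3456 := Blk.of_chk [.t 1 (nat_lit 0) (.g 0 11 4 8 15 true true), .t 1 (nat_lit 0) (.g 0 11 4 8 16 true true), .t 1 (nat_lit 0) (.g 4 16 0 8 11 false false), .t 1 (nat_lit 0) (.g 0 11 4 8 17 true true), .t 1 (nat_lit 0) (.g 4 17 0 8 11 false false), .t 1 (nat_lit 0) (.g 0 11 4 8 18 true true), .t 1 (nat_lit 0) (.g 4 13 0 8 12 false false), .t 1 (nat_lit 0) (.g 8 0 4 12 13 true true), .t 1 (nat_lit 0) (.g 0 11 4 8 14 true true), .t 1 (nat_lit 0) (.g 14 4 0 8 12 true false), .t 1 (nat_lit 0) (.g 14 8 0 4 12 true false),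 .t 1 (nat_lit 0) (.g 4 14 0 8 12 false false), .t 1 (nat_lit 0) (.g 15 4 0 8 12 true false), .t 1 (nat_lit 0) (.g 16 4 0 8 12 true false), .t 1 (nat_lit 0) (.g 8 0 4 12 16 true true), .t 1 (nat_lit 0) (.g 4 17 0 8 12 false false), .t 1 (nat_lit 0) (.g 8 0 4 12 17 true true), .t 1 (nat_lit 0) (.g 14 4 0 8 13 true false), .t 1 (nat_lit 0) (.g 14 8 0 4 13 true false), .t 1 (nat_lit 0) (.g 4 14 0 8 13 false false), .t 1 (nat_lit 0) (.g 4 13 0 8 14 false false), .t 1 (nat_lit 0) (.g 8 0 4 13 14 true false), .t 1 (nat_lit 0) (.g 4 15 0 8 13 false false), .t 1 (nat_lit 0) (.g 4 13 0 8 15 false false), .t 1 (nat_lit 0) (.g 4 16 0 8 13 false false), .t 1 (nat_lit 0) (.g 17 4 0 8 13 true false), .t 1 (nat_lit 0) (.g 4 17 0 8 13 false false), .t 1 (nat_lit 0) (.g 4 18 0 8 13 false false), .t 1 (nat_lit 0) (.g 8 0 4 13 18 true true), .t 1 (nat_lit 0) (.g 15 4 0 8 14 true false), .t 1 (nat_lit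 0) (.g 4 8 0 14 16 true true), .t 1 (nat_lit 0) (.g 4 14 0 8 16 false false), .t 1 (nat_lit 0) (.g 8 0 4 14 16 true false), .t 1 (nat_lit 0) (.g 17 8 0 4 14 true false), .t 1 (nat_lit 0) (.g 4 17 0 8 14 false false), .t 1 (nat_lit 0) (.g 8 0 4 14 17 true true), .t 1 (nat_lit 0) (.g 8 0 4 14 18 true true), .t 1 (nat_lit 0) (.g 4 8 0 15 17 true true), .t 1 (nat_lit 0) (.g 17 4 0 8 15 true false), .t 1 (nat_lit 0) (.g 4 17 0 8 15 false false), .t 1 (nat_lit 0) (.g 4 0 8 16 17 false true), .t 1 (nat_lit 0) (.g 17 4 0 8 16 false false), .t 1 (nat_lit 0) (.g 17 8 0 4 16 true false), .t 1 (nat_lit 0) (.g 4 17 0 8 16 false false), .t 1 (nat_lit 0) (.g 4 16 0 8 17 false false), .t 1 (nat_lit 0) (.g 8 0 4 16 17 true true), .t 1 (nat_lit 0) (.g 4 0 8 16 18 false true), .t 1 (nat_lit 0) (.g 16 8 0 4 18 true true), .t 1 (nat_lit 0) (.g 18 4 0 8 16 false false), .t 1 (nat_lit 0) (.g 4 18 0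 8 16 false false), .t 1 (nat_lit 0) (.g 4 0 8 17 18 false true), .t 1 (nat_lit 0) (.g 17 8 0 4 18 true true), .t 1 (nat_lit 0) (.g 18 4 0 8 17 false false), .t 1 (nat_lit 0) (.g 18 4 0 8 17 true false), .t 1 (nat_lit 0) (.g 4 18 0 8 17 false false), .t 1 (nat_lit 0) (.g 8 0 4 17 18 true false), .t 1 (nat_lit 0) (.g 9 12 0 4 10 false true), .t 1 (nat_lit 0) (.g 10 0 4 9 12 true false), .t 1 (nat_lit 0) (.g 9 13 0 4 10 false true), .t 1 (nat_lit 0) (.g 10 0 4 9 13 true false), .t 1 (nat_lit 0) (.g 4 0 9 10 14 false false), .t 1 (nat_lit 0) (.g 9 14 0 4 10 false true), .t 1 (nat_lit 0) (.g 10 0 4 9 14 true false), .t 1 (nat_lit 0) (.g 4 0 9 10 15 false false)] (by decide +kernel) (by decide +kernel)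
theorem b54 : B 3456 3520 := Blk.of_chk [.t 1 (nat_lit 0) (.g 9 15 0 4 10 false true), .t 1 (nat_lit 0) (.g 0 10 4 9 16 false true), .t 1 (nat_lit 0) (.g 4 0 9 10 16 false false), .t 1 (nat_lit 0) (.g 9 16 0 4 10 false true), .t 1 (nat_lit 0) (.g 4 0 9 10 17 false false), .t 1 (nat_lit 0) (.g 0 10 4 9 17 false true), .t 1 (nat_lit 0) (.g 9 17 0 4 10 false true), .t 1 (nat_lit 0) (.g 10 0 4 9 17 true false), .t 1 (nat_lit 0) (.g 4 0 9 10 18 false false), .t 1 (nat_lit 0) (.g 9 18 0 4 10 true true), .t 1 (nat_lit 0) (.g 0 10 4 9 18 false true), .t 1 (nat_lit 0) (.g 9 18 0 4 10 false true), .t 1 (nat_lit 0) (.g 4 12 0 9 11 false false), .t 1 (nat_lit 0) (.g 0 11 4 9 12 true true), .t 1 (nat_lit 0) (.g 4 13 0 9 11 false false), .t 1 (nat_lit 0) (.g 4 11 0 9 13 false false), .t 1 (nat_lit 0) (.g 0 11 4 9 13 true true), .t 1 (nat_lit 0) (.g 4 14 0 9 11 false false), .t 1 (nat_lit 0)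 (.g 0 11 4 9 14 true true), .t 1 (nat_lit 0) (.g 0 11 4 9 15 true true), .t 1 (nat_lit 0) (.g 4 15 0 9 11 false false), .t 1 (nat_lit 0) (.g 4 16 0 9 11 false false), .t 1 (nat_lit 0) (.g 0 11 4 9 16 true true), .t 1 (nat_lit 0) (.g 4 17 0 9 11 false false), .t 1 (nat_lit 0) (.g 0 11 4 9 17 true true), .t 1 (nat_lit 0) (.g 4 18 0 9 11 false false), .t 1 (nat_lit 0) (.g 0 11 4 9 18 true true), .t 1 (nat_lit 0) (.g 13 9 0 4 12 true false), .t 1 (nat_lit 0) (.g 4 13 0 9 12 false false), .t 1 (nat_lit 0) (.g 9 0 4 12 13 true true), .t 1 (nat_lit 0) (.g 14 4 0 9 12 true false), .t 1 (nat_lit 0) (.g 4 14 0 9 12 false false), .t 1 (nat_lit 0) (.g 9 0 4 12 14 true true), .t 1 (nat_lit 0) (.g 9 0 4 12 14 true false), .t 1 (nat_lit 0) (.g 15 4 0 9 12 true false), .t 1 (nat_lit 0) (.g 9 0 4 12 15 true true), .t 1 (nat_lit 0) (.g 4 9 0 12 16 true true), .t 1 (nat_lit 0) (.g 16 4 0 9 12 true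 false), .t 1 (nat_lit 0) (.g 9 0 4 12 16 true true), .t 1 (nat_lit 0) (.g 9 0 4 12 16 true false), .t 1 (nat_lit 0) (.g 4 17 0 9 12 false false), .t 1 (nat_lit 0) (.g 9 0 4 12 17 true true), .t 1 (nat_lit 0) (.g 18 4 0 9 12 true false), .t 1 (nat_lit 0) (.g 9 0 4 12 18 true true), .t 1 (nat_lit 0) (.g 14 4 0 9 13 true false), .t 1 (nat_lit 0) (.g 14 9 0 4 13 true false), .t 1 (nat_lit 0) (.g 4 14 0 9 13 false false), .t 1 (nat_lit 0) (.g 4 13 0 9 14 false false), .t 1 (nat_lit 0) (.g 9 0 4 13 14 true true), .t 1 (nat_lit 0) (.g 9 0 4 13 14 true false), .t 1 (nat_lit 0) (.g 4 9 0 13 15 true true), .t 1 (nat_lit 0) (.g 15 4 0 9 13 true false), .t 1 (nat_lit 0) (.g 15 9 0 4 13 true false), .t 1 (nat_lit 0) (.g 4 15 0 9 13 false false), .t 1 (nat_lit 0) (.g 4 13 0 9 15 false false), .t 1 (nat_lit 0) (.g 9 0 4 13 15 true true), .t 1 (nat_lit 0) (.g 9 0 4 13 15 true false), .t 1 (nat_lit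 0) (.g 4 9 0 13 16 true true), .t 1 (nat_lit 0) (.g 16 4 0 9 13 true false), .t 1 (nat_lit 0) (.g 4 16 0 9 13 false false), .t 1 (nat_lit 0) (.g 4 13 0 9 16 false false), .t 1 (nat_lit 0) (.g 9 0 4 13 16 true true), .t 1 (nat_lit 0) (.g 9 0 4 13 16 true false), .t 1 (nat_lit 0) (.g 4 9 0 13 17 true true)] (by decide +kernel) (by decide +kernel)
theorem b55 : B 3520 3584 := Blk.of_chk [.t 1 (nat_lit 0) (.g 17 4 0 9 13 true false), .t 1 (nat_lit 0) (.g 4 17 0 9 13 false false), .t 1 (nat_lit 0) (.g 9 0 4 13 17 true true), .t 1 (nat_lit 0) (.g 4 9 0 13 18 true true), .t 1 (nat_lit 0) (.g 18 4 0 9 13 true false), .t 1 (nat_lit 0) (.g 9 0 4 13 18 true true), .t 1 (nat_lit 0) (.g 9 0 4 13 18 true false), .t 1 (nat_lit 0) (.g 4 9 0 14 15 true true), .t 1 (nat_lit 0) (.g 15 4 0 9 14 true false), .t 1 (nat_lit 0) (.g 4 14 0 9 15 false false), .t 1 (nat_lit 0) (.g 9 0 4 14 15 true true),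 .t 1 (nat_lit 0) (.g 9 0 4 14 15 true false), .t 1 (nat_lit 0) (.g 4 9 0 14 16 true true), .t 1 (nat_lit 0) (.g 16 4 0 9 14 true false), .t 1 (nat_lit 0) (.g 4 14 0 9 16 false false), .t 1 (nat_lit 0) (.g 9 0 4 14 16 true true), .t 1 (nat_lit 0) (.g 9 0 4 14 16 true false), .t 1 (nat_lit 0) (.g 4 9 0 14 17 true true), .t 1 (nat_lit 0) (.g 17 4 0 9 14 true false), .t 1 (nat_lit 0) (.g 4 17 0 9 14 false false), .t 1 (nat_lit 0) (.g 9 0 4 14 17 true true), .t 1 (nat_lit 0) (.g 4 9 0 14 18 true true), .t 1 (nat_lit 0) (.g 4 14 0 9 18 false false), .t 1 (nat_lit 0) (.g 9 0 4 14 18 true true), .t 1 (nat_lit 0) (.g 9 0 4 14 18 true false), .t 1 (nat_lit 0) (.g 4 0 9 15 16 false true), .t 1 (nat_lit 0) (.g 16 4 0 9 15 true false), .t 1 (nat_lit 0) (.g 4 16 0 9 15 false false), .t 1 (nat_lit 0) (.g 4 15 0 9 16 false false), .t 1 (nat_lit 0) (.g 9 0 4 15 16 true true), .t 1 (nat_lit 0)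 (.g 9 0 4 15 16 true false), .t 1 (nat_lit 0) (.g 4 0 9 15 17 false true), .t 1 (nat_lit 0) (.g 4 9 0 15 17 true true), .t 1 (nat_lit 0) (.g 17 4 0 9 15 true false), .t 1 (nat_lit 0) (.g 4 17 0 9 15 false false), .t 1 (nat_lit 0) (.g 9 0 4 15 17 true true), .t 1 (nat_lit 0) (.g 18 4 0 9 15 true false), .t 1 (nat_lit 0) (.g 9 0 4 15 18 true true), .t 1 (nat_lit 0) (.g 9 0 4 15 18 true false), .t 1 (nat_lit 0) (.g 17 4 0 9 16 false false), .t 1 (nat_lit 0) (.g 4 17 0 9 16 false false), .t 1 (nat_lit 0) (.g 9 0 4 16 17 true true), .t 1 (nat_lit 0) (.g 18 4 0 9 16 false false), .t 1 (nat_lit 0) (.g 18 4 0 9 16 true false), .t 1 (nat_lit 0) (.g 4 18 0 9 16 false false), .t 1 (nat_lit 0) (.g 9 0 4 16 18 true true), .t 1 (nat_lit 0) (.g 9 0 4 16 18 true false), .t 1 (nat_lit 0) (.g 4 0 9 17 18 false false), .t 1 (nat_lit 0) (.g 17 9 0 4 18 true true), .t 1 (nat_lit 0) (.g 4 9 0 17 18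 true true), .t 1 (nat_lit 0) (.g 18 4 0 9 17 true false), .t 1 (nat_lit 0) (.g 4 18 0 9 17 false false), .t 1 (nat_lit 0) (.g 9 0 4 17 18 true true), .t 1 (nat_lit 0) (.g 9 0 4 17 18 true false), .t 1 (nat_lit 0) (.g 4 12 0 10 11 false false), .t 1 (nat_lit 0) (.g 0 11 4 10 12 true true), .t 1 (nat_lit 0) (.g 0 11 4 10 13 true true), .t 1 (nat_lit 0) (.g 4 14 0 10 11 false false), .t 1 (nat_lit 0) (.g 4 11 0 10 14 false false), .t 1 (nat_lit 0) (.g 0 11 4 10 14 true true), .t 1 (nat_lit 0) (.g 4 15 0 10 11 false false), .t 1 (nat_lit 0) (.g 0 11 4 10 16 true true), .t 1 (nat_lit 0) (.g 4 16 0 10 11 false false), .t 1 (nat_lit 0) (.g 4 17 0 10 11 false false)] (by decide +kernel) (by decide +kernel)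
theorem b56 : B 3584 3648 := Blk.of_chk [.t 1 (nat_lit 0) (.g 4 18 0 10 11 false false), .t 1 (nat_lit 0) (.g 13 4 0 10 12 true false), .t 1 (nat_lit 0) (.g 4 13 0 10 12 false false), .t 1 (nat_lit 0) (.g 10 0 4 12 13 true true), .t 1 (nat_lit 0) (.g 14 4 0 10 12 true false), .t 1 (nat_lit 0) (.g 14 10 0 4 12 true false), .t 1 (nat_lit 0) (.g 10 0 4 12 14 true true), .t 1 (nat_lit 0) (.g 10 0 4 12 14 true false), .t 1 (nat_lit 0) (.g 4 10 0 12 15 true true), .t 1 (nat_lit 0) (.g 0 11 4 10 15 true true), .t 1 (nat_lit 0) (.g 15 4 0 10 12 true false), .t 1 (nat_lit 0) (.g 4 15 0 10 12 false false), .t 1 (nat_lit 0) (.g 16 4 0 10 12 true false), .t 1 (nat_lit 0) (.g 4 10 0 12 17 true true), .t 1 (nat_lit 0) (.g 0 11 4 10 17 true true), .t 1 (nat_lit 0) (.g 4 17 0 10 12 false false), .t 1 (nat_lit 0) (.g 4 10 0 12 18 true true), .t 1 (nat_lit 0) (.g 0 11 4 10 18 true true), .t 1 (nat_lit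 0) (.g 10 0 4 12 18 true true), .t 1 (nat_lit 0) (.g 14 4 0 10 13 true false), .t 1 (nat_lit 0) (.g 14 10 0 4 13 true false), .t 1 (nat_lit 0) (.g 4 14 0 10 13 false false), .t 1 (nat_lit 0) (.g 4 13 0 10 14 false false), .t 1 (nat_lit 0) (.g 10 0 4 13 14 true true), .t 1 (nat_lit 0) (.g 10 0 4 13 14 true false), .t 1 (nat_lit 0) (.g 4 10 0 13 15 true true), .t 1 (nat_lit 0) (.g 15 4 0 10 13 true false), .t 1 (nat_lit 0) (.g 15 10 0 4 13 true false), .t 1 (nat_lit 0) (.g 4 15 0 10 13 false false), .t 1 (nat_lit 0) (.g 4 13 0 10 15 false false), .t 1 (nat_lit 0) (.g 4 10 0 13 16 true true), .t 1 (nat_lit 0) (.g 16 10 0 4 13 true false), .t 1 (nat_lit 0) (.g 4 16 0 10 13 false false), .t 1 (nat_lit 0) (.g 17 4 0 10 13 true false), .t 1 (nat_lit 0) (.g 17 10 0 4 13 true false), .t 1 (nat_lit 0) (.g 4 10 0 13 18 true true), .t 1 (nat_lit 0) (.g 18 4 0 10 13 true false), .t 1 (nat_lit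 0) (.g 4 18 0 10 13 false false), .t 1 (nat_lit 0) (.g 10 0 4 13 18 true true), .t 1 (nat_lit 0) (.g 4 10 0 14 15 true true), .t 1 (nat_lit 0) (.g 15 4 0 10 14 true false), .t 1 (nat_lit 0) (.g 10 0 4 14 15 true true), .t 1 (nat_lit 0) (.g 4 10 0 14 16 true true), .t 1 (nat_lit 0) (.g 17 4 0 10 14 true false), .t 1 (nat_lit 0) (.g 4 17 0 10 14 false false), .t 1 (nat_lit 0) (.g 10 0 4 14 17 true true), .t 1 (nat_lit 0) (.g 17 4 0 10 15 true false), .t 1 (nat_lit 0) (.g 4 17 0 10 15 false false), .t 1 (nat_lit 0) (.g 10 0 4 15 18 true true), .t 1 (nat_lit 0) (.g 16 10 0 4 17 true true), .t 1 (nat_lit 0) (.g 4 17 0 10 16 false false), .t 1 (nat_lit 0) (.g 10 0 4 16 17 true true), .t 1 (nat_lit 0) (.g 16 10 0 4 18 true true), .t 1 (nat_lit 0) (.g 18 4 0 10 16 false false), .t 1 (nat_lit 0) (.g 4 18 0 10 16 false false), .t 1 (nat_lit 0) (.g 10 0 4 16 18 true true), .t 1 (nat_lit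 0) (.g 17 10 0 4 18 true true), .t 1 (nat_lit 0) (.g 18 4 0 10 17 false false), .t 1 (nat_lit 0) (.g 18 4 0 10 17 true false), .t 1 (nat_lit 0) (.g 4 18 0 10 17 false false), .t 1 (nat_lit 0) (.g 0 11 4 12 13 true true), .t 1 (nat_lit 0) (.g 0 11 4 12 14 true true), .t 1 (nat_lit 0) (.g 0 11 4 12 15 true true), .t 1 (nat_lit 0) (.g 0 11 4 12 18 true true)] (by decide +kernel) (by decide +kernel)
theorem b57 : B 3648 3712 := Blk.of_chk [.t 1 (nat_lit 0) (.g 0 11 4 13 14 true true), .t 1 (nat_lit 0) (.g 0 11 4 13 15 true true), .t 1 (nat_lit 0) (.g 0 11 4 13 17 true true), .t 1 (nat_lit 0) (.g 0 11 4 13 18 true true), .t 1 (nat_lit 0) (.g 0 11 4 14 16 true true), .t 1 (nat_lit 0) (.g 0 11 4 14 17 true true), .t 1 (nat_lit 0) (.g 0 11 4 14 18 true true), .t 1 (nat_lit 0) (.g 0 11 4 15 16 true true), .t 1 (nat_lit 0) (.g 0 11 4 15 17 true true), .t 1 (nat_lit 0) (.g 0 11 4 15 18 true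 true), .t 1 (nat_lit 0) (.g 0 11 4 16 17 true true), .t 1 (nat_lit 0) (.g 0 11 4 16 18 true true), .t 1 (nat_lit 0) (.g 0 11 4 17 18 true true), .t 1 (nat_lit 0) (.g 0 11 4 12 16 true true), .t 1 (nat_lit 0) (.g 0 11 4 12 17 true true), .t 1 (nat_lit 0) (.g 0 11 4 14 15 true true), .t 1 (nat_lit 0) (.g 0 11 4 13 16 true true), .t 1 (nat_lit 0) (.g 13 0 4 16 17 false true), .t 1 (nat_lit 0) (.g 13 0 4 16 18 false true), .t 1 (nat_lit 0) (.g 14 0 4 15 16 false true), .t 1 (nat_lit 0) (.g 14 0 4 15 17 false true), .t 1 (nat_lit 0) (.g 14 0 4 17 18 false true), .t 1 (nat_lit 0) (.g 15 0 4 16 17 false true), .t 1 (nat_lit 0) (.g 4 0 16 17 18 false true), .t 1 (nat_lit 0) (.g 7 0 5 6 15 true true), .t 1 (nat_lit 0) (.g 5 0 6 7 17 false true), .t 1 (nat_lit 0) (.g 6 7 0 5 18 true true), .t 1 (nat_lit 0) (.g 8 0 5 6 14 true true), .t 1 (nat_lit 0) (.g 5 0 6 8 17 false false), .t 1 (nat_lit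 0) (.g 9 0 5 6 13 true true), .t 1 (nat_lit 0) (.g 0 9 5 6 15 false true), .t 1 (nat_lit 0) (.g 5 0 6 9 16 false false), .t 1 (nat_lit 0) (.g 0 10 5 6 15 false true), .t 1 (nat_lit 0) (.g 5 0 6 10 16 false false), .t 1 (nat_lit 0) (.g 0 11 5 6 12 true true), .t 1 (nat_lit 0) (.g 0 11 5 6 13 true true), .t 1 (nat_lit 0) (.g 0 11 5 6 14 true true), .t 1 (nat_lit 0) (.g 14 6 0 5 13 true false), .t 1 (nat_lit 0) (.g 0 11 5 6 17 true true), .t 1 (nat_lit 0) (.g 8 0 5 7 13 true true), .t 1 (nat_lit 0) (.g 8 0 5 7 14 true true), .t 1 (nat_lit 0) (.g 5 0 7 8 18 false true), .t 1 (nat_lit 0) (.g 8 0 5 7 18 true true), .t 1 (nat_lit 0) (.g 9 0 5 7 13 true true), .t 1 (nat_lit 0) (.g 7 5 0 9 14 false false), .t 1 (nat_lit 0) (.g 7 9 0 5 18 true true), .t 1 (nat_lit 0) (.g 7 5 0 9 18 false false), .t 1 (nat_lit 0) (.g 9 0 5 7 18 true true), .t 1 (nat_lit 0) (.g 10 0 5 7 12 true true), .t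 1 (nat_lit 0) (.g 5 0 7 10 15 false true), .t 1 (nat_lit 0) (.g 0 11 5 7 12 true true), .t 1 (nat_lit 0) (.g 0 11 5 7 13 true true), .t 1 (nat_lit 0) (.g 5 11 0 7 14 false false), .t 1 (nat_lit 0) (.g 0 11 5 7 14 true true), .t 1 (nat_lit 0) (.g 0 11 5 7 17 true true), .t 1 (nat_lit 0) (.g 0 11 5 7 18 true true), .t 1 (nat_lit 0) (.g 7 0 5 12 13 true false), .t 1 (nat_lit 0) (.g 5 14 0 7 12 false false), .t 1 (nat_lit 0) (.g 0 11 5 7 15 true true), .t 1 (nat_lit 0) (.g 0 11 5 7 16 true true), .t 1 (nat_lit 0) (.g 16 7 0 5 12 true false), .t 1 (nat_lit 0) (.g 5 14 0 7 13 false false), .t 1 (nat_lit 0) (.g 7 0 5 13 14 true false), .t 1 (nat_lit 0) (.g 17 7 0 5 14 true false)] (by decide +kernel) (by decide +kernel)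
theorem b58 : B 3712 3776 := Blk.of_chk [.t 1 (nat_lit 0) (.g 5 0 7 16 17 false false), .t 1 (nat_lit 0) (.g 7 0 5 16 17 true true), .t 1 (nat_lit 0) (.g 5 18 0 7 16 false false), .t 1 (nat_lit 0) (.g 7 0 5 17 18 true true), .t 1 (nat_lit 0) (.g 9 0 5 8 13 true true), .t 1 (nat_lit 0) (.g 8 5 0 9 18 false false), .t 1 (nat_lit 0) (.g 8 5 0 10 18 false false), .t 1 (nat_lit 0) (.g 0 11 5 8 12 true true), .t 1 (nat_lit 0) (.g 0 11 5 8 13 true true), .t 1 (nat_lit 0) (.g 5 16 0 8 11 false false), .t 1 (nat_lit 0) (.g 0 11 5 8 17 true true), .t 1 (nat_lit 0) (.g 8 0 5 12 13 true true), .t 1 (nat_lit 0) (.g 0 11 5 8 16 true true), .t 1 (nat_lit 0) (.g 8 0 5 12 16 true true), .t 1 (nat_lit 0) (.g 8 0 5 12 17 true true), .t 1 (nat_lit 0) (.g 0 11 5 8 18 true true), .t 1 (nat_lit 0) (.g 0 11 5 8 14 true true), .t 1 (nat_lit 0) (.g 14 5 0 8 13 true false), .t 1 (nat_lit 0) (.g 0 11 5 8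 15 true true), .t 1 (nat_lit 0) (.g 8 0 5 14 15 true true), .t 1 (nat_lit 0) (.g 5 14 0 8 16 false false), .t 1 (nat_lit 0) (.g 8 0 5 14 16 true false), .t 1 (nat_lit 0) (.g 8 0 5 14 17 true true), .t 1 (nat_lit 0) (.g 5 16 0 8 15 false false), .t 1 (nat_lit 0) (.g 5 17 0 8 16 false false), .t 1 (nat_lit 0) (.g 8 0 5 16 17 true true), .t 1 (nat_lit 0) (.g 5 18 0 8 16 false false), .t 1 (nat_lit 0) (.g 18 5 0 8 17 true false), .t 1 (nat_lit 0) (.g 5 18 0 8 17 false false), .t 1 (nat_lit 0) (.g 9 12 0 5 10 false true), .t 1 (nat_lit 0) (.g 9 13 0 5 10 false true), .t 1 (nat_lit 0) (.g 10 0 5 9 13 true false), .t 1 (nat_lit 0) (.g 9 14 0 5 10 false true), .t 1 (nat_lit 0) (.g 10 0 5 9 14 true false), .t 1 (nat_lit 0) (.g 9 15 0 5 10 false true), .t 1 (nat_lit 0) (.g 0 10 5 9 16 false true), .t 1 (nat_lit 0) (.g 9 16 0 5 10 false true), .t 1 (nat_lit 0) (.g 0 10 5 9 17 false true),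 .t 1 (nat_lit 0) (.g 9 17 0 5 10 false true), .t 1 (nat_lit 0) (.g 10 0 5 9 17 true false), .t 1 (nat_lit 0) (.g 5 0 9 10 18 false false), .t 1 (nat_lit 0) (.g 9 18 0 5 10 true true), .t 1 (nat_lit 0) (.g 9 18 0 5 10 false true), .t 1 (nat_lit 0) (.g 5 12 0 9 11 false false), .t 1 (nat_lit 0) (.g 0 11 5 9 12 true true), .t 1 (nat_lit 0) (.g 5 13 0 9 11 false false), .t 1 (nat_lit 0) (.g 0 11 5 9 13 true true), .t 1 (nat_lit 0) (.g 5 14 0 9 11 false false), .t 1 (nat_lit 0) (.g 0 11 5 9 14 true true), .t 1 (nat_lit 0) (.g 5 15 0 9 11 false false), .t 1 (nat_lit 0) (.g 0 11 5 9 15 true true), .t 1 (nat_lit 0) (.g 5 16 0 9 11 false false), .t 1 (nat_lit 0) (.g 0 11 5 9 16 true true), .t 1 (nat_lit 0) (.g 5 17 0 9 11 false false), .t 1 (nat_lit 0) (.g 0 11 5 9 17 true true), .t 1 (nat_lit 0) (.g 5 18 0 9 11 false false), .t 1 (nat_lit 0) (.g 0 11 5 9 18 true true), .t 1 (nat_lit 0)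 (.g 9 0 5 12 13 true true), .t 1 (nat_lit 0) (.g 5 14 0 9 12 false false), .t 1 (nat_lit 0) (.g 9 0 5 12 14 true true), .t 1 (nat_lit 0) (.g 9 0 5 12 14 true false), .t 1 (nat_lit 0) (.g 9 0 5 12 15 true true), .t 1 (nat_lit 0) (.g 16 5 0 9 12 true false), .t 1 (nat_lit 0) (.g 9 0 5 12 16 true true)] (by decide +kernel) (by decide +kernel)
theorem b59 : B 3776 3840 := Blk.of_chk [.t 1 (nat_lit 0) (.g 9 0 5 12 16 true false), .t 1 (nat_lit 0) (.g 17 5 0 9 12 true false), .t 1 (nat_lit 0) (.g 9 0 5 12 17 true true), .t 1 (nat_lit 0) (.g 9 0 5 12 18 true true), .t 1 (nat_lit 0) (.g 14 5 0 9 13 true false), .t 1 (nat_lit 0) (.g 14 9 0 5 13 true false), .t 1 (nat_lit 0) (.g 5 14 0 9 13 false false), .t 1 (nat_lit 0) (.g 5 13 0 9 14 false false), .t 1 (nat_lit 0) (.g 9 0 5 13 14 true true), .t 1 (nat_lit 0) (.g 9 0 5 13 14 true false), .t 1 (nat_lit 0) (.g 15 5 0 9 13 true false), .t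 1 (nat_lit 0) (.g 9 0 5 13 15 true true), .t 1 (nat_lit 0) (.g 9 0 5 13 15 true false), .t 1 (nat_lit 0) (.g 16 5 0 9 13 true false), .t 1 (nat_lit 0) (.g 5 13 0 9 16 false false), .t 1 (nat_lit 0) (.g 9 0 5 13 16 true true), .t 1 (nat_lit 0) (.g 9 0 5 13 16 true false), .t 1 (nat_lit 0) (.g 5 9 0 13 17 true true), .t 1 (nat_lit 0) (.g 17 5 0 9 13 true false), .t 1 (nat_lit 0) (.g 5 17 0 9 13 false false), .t 1 (nat_lit 0) (.g 9 0 5 13 17 true true), .t 1 (nat_lit 0) (.g 5 9 0 13 18 true true), .t 1 (nat_lit 0) (.g 18 5 0 9 13 true false), .t 1 (nat_lit 0) (.g 9 0 5 13 18 true true), .t 1 (nat_lit 0) (.g 9 0 5 13 18 true false), .t 1 (nat_lit 0) (.g 15 5 0 9 14 true false), .t 1 (nat_lit 0) (.g 5 15 0 9 14 false false), .t 1 (nat_lit 0) (.g 5 14 0 9 15 false false), .t 1 (nat_lit 0) (.g 9 0 5 14 15 true true), .t 1 (nat_lit 0) (.g 9 0 5 14 15 true false), .t 1 (nat_lit 0) (.g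 16 5 0 9 14 true false), .t 1 (nat_lit 0) (.g 5 14 0 9 16 false false), .t 1 (nat_lit 0) (.g 9 0 5 14 16 true true), .t 1 (nat_lit 0) (.g 9 0 5 14 16 true false), .t 1 (nat_lit 0) (.g 9 0 5 14 17 true true), .t 1 (nat_lit 0) (.g 5 14 0 9 18 false false), .t 1 (nat_lit 0) (.g 9 0 5 14 18 true true), .t 1 (nat_lit 0) (.g 9 0 5 14 18 true false), .t 1 (nat_lit 0) (.g 9 0 5 15 16 true true), .t 1 (nat_lit 0) (.g 9 0 5 15 16 true false), .t 1 (nat_lit 0) (.g 17 5 0 9 15 true false), .t 1 (nat_lit 0) (.g 9 0 5 15 17 true true), .t 1 (nat_lit 0) (.g 9 0 5 15 18 true true), .t 1 (nat_lit 0) (.g 9 0 5 15 18 true false), .t 1 (nat_lit 0) (.g 9 0 5 16 17 true true), .t 1 (nat_lit 0) (.g 5 17 0 9 16 false false), .t 1 (nat_lit 0) (.g 5 18 0 9 16 false false), .t 1 (nat_lit 0) (.g 9 0 5 16 18 true true), .t 1 (nat_lit 0) (.g 9 0 5 16 18 true false), .t 1 (nat_lit 0) (.g 5 18 0 9 17 false false),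 .t 1 (nat_lit 0) (.g 9 0 5 17 18 true true), .t 1 (nat_lit 0) (.g 9 0 5 17 18 true false), .t 1 (nat_lit 0) (.g 5 13 0 10 11 false false), .t 1 (nat_lit 0) (.g 0 11 5 10 13 true true), .t 1 (nat_lit 0) (.g 0 11 5 10 15 true true), .t 1 (nat_lit 0) (.g 0 11 5 10 16 true true), .t 1 (nat_lit 0) (.g 5 16 0 10 11 false false), .t 1 (nat_lit 0) (.g 0 11 5 10 18 true true), .t 1 (nat_lit 0) (.g 5 18 0 10 11 false false), .t 1 (nat_lit 0) (.g 5 13 0 10 12 false false), .t 1 (nat_lit 0) (.g 10 0 5 12 13 true true), .t 1 (nat_lit 0) (.g 0 11 5 10 14 true true), .t 1 (nat_lit 0) (.g 10 0 5 12 14 true true), .t 1 (nat_lit 0) (.g 10 0 5 12 16 true true)] (by decide +kernel) (by decide +kernel)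
theorem b60 : B 3840 3904 := Blk.of_chk [.t 1 (nat_lit 0) (.g 5 17 0 10 12 false false), .t 1 (nat_lit 0) (.g 0 11 5 10 17 true true), .t 1 (nat_lit 0) (.g 10 0 5 12 17 true true), .t 1 (nat_lit 0) (.g 14 5 0 10 13 true false), .t 1 (nat_lit 0) (.g 14 10 0 5 13 true false), .t 1 (nat_lit 0) (.g 5 14 0 10 13 false false), .t 1 (nat_lit 0) (.g 10 0 5 13 14 true true), .t 1 (nat_lit 0) (.g 15 10 0 5 13 true false), .t 1 (nat_lit 0) (.g 10 0 5 13 15 true true), .t 1 (nat_lit 0) (.g 16 10 0 5 13 true false), .t 1 (nat_lit 0) (.g 17 10 0 5 13 true false), .t 1 (nat_lit 0) (.g 10 0 5 14 17 true true), .t 1 (nat_lit 0) (.g 18 5 0 10 14 true false), .t 1 (nat_lit 0) (.g 5 17 0 10 15 false false), .t 1 (nat_lit 0) (.g 10 0 5 15 18 true true), .t 1 (nat_lit 0) (.g 5 17 0 10 16 false false), .t 1 (nat_lit 0) (.g 10 0 5 16 17 true true), .t 1 (nat_lit 0) (.g 10 0 5 16 18 true true), .t 1 (nat_lit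 0) (.g 17 10 0 5 18 true true), .t 1 (nat_lit 0) (.g 5 18 0 10 17 false false), .t 1 (nat_lit 0) (.g 0 11 5 12 14 true true), .t 1 (nat_lit 0) (.g 0 11 5 12 15 true true), .t 1 (nat_lit 0) (.g 0 11 5 12 18 true true), .t 1 (nat_lit 0) (.g 0 11 5 13 14 true true), .t 1 (nat_lit 0) (.g 0 11 5 13 15 true true), .t 1 (nat_lit 0) (.g 0 11 5 13 16 true true), .t 1 (nat_lit 0) (.g 0 11 5 13 17 true true), .t 1 (nat_lit 0) (.g 0 11 5 13 18 true true), .t 1 (nat_lit 0) (.g 0 11 5 14 16 true true), .t 1 (nat_lit 0) (.g 0 11 5 14 17 true true), .t 1 (nat_lit 0) (.g 0 11 5 15 16 true true), .t 1 (nat_lit 0) (.g 0 11 5 15 17 true true), .t 1 (nat_lit 0) (.g 0 11 5 16 17 true true), .t 1 (nat_lit 0) (.g 0 11 5 16 18 true true), .t 1 (nat_lit 0) (.g 0 11 5 17 18 true true), .t 1 (nat_lit 0) (.g 0 11 5 12 16 true true), .t 1 (nat_lit 0) (.g 0 11 5 12 17 true true), .t 1 (nat_lit 0) (.g 0 11 5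 14 15 true true), .t 1 (nat_lit 0) (.g 0 11 5 14 18 true true), .t 1 (nat_lit 0) (.g 0 11 5 15 18 true true), .t 1 (nat_lit 0) (.g 8 0 6 7 12 true true), .t 1 (nat_lit 0) (.g 6 0 7 8 18 false true), .t 1 (nat_lit 0) (.g 7 8 0 6 18 true true), .t 1 (nat_lit 0) (.g 9 0 6 7 12 true true), .t 1 (nat_lit 0) (.g 9 0 6 7 13 true true), .t 1 (nat_lit 0) (.g 0 9 6 7 16 false true), .t 1 (nat_lit 0) (.g 6 0 7 9 18 false true), .t 1 (nat_lit 0) (.g 9 0 6 7 18 true true), .t 1 (nat_lit 0) (.g 10 0 6 7 12 true true), .t 1 (nat_lit 0) (.g 7 10 0 6 15 true true), .t 1 (nat_lit 0) (.g 6 0 7 10 16 false true), .t 1 (nat_lit 0) (.g 0 10 6 7 18 false true), .t 1 (nat_lit 0) (.g 0 11 6 7 12 true true), .t 1 (nat_lit 0) (.g 0 11 6 7 13 true true), .t 1 (nat_lit 0) (.g 6 11 0 7 14 false false), .t 1 (nat_lit 0) (.g 0 11 6 7 16 true true), .t 1 (nat_lit 0) (.g 0 11 6 7 17 true true), .t 1 (nat_lit 0)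 (.g 0 11 6 7 18 true true), .t 1 (nat_lit 0) (.g 0 11 6 7 14 true true), .t 1 (nat_lit 0) (.g 14 7 0 6 12 true false), .t 1 (nat_lit 0) (.g 7 0 6 12 14 true false), .t 1 (nat_lit 0) (.g 0 11 6 7 15 true true), .t 1 (nat_lit 0) (.g 16 7 0 6 12 true false), .t 1 (nat_lit 0) (.g 14 7 0 6 13 true false)] (by decide +kernel) (by decide +kernel)
theorem b61 : B 3904 3968 := Blk.of_chk [.t 1 (nat_lit 0) (.g 6 14 0 7 13 false false), .t 1 (nat_lit 0) (.g 7 0 6 13 17 true true), .t 1 (nat_lit 0) (.g 7 6 0 14 15 false true), .t 1 (nat_lit 0) (.g 15 7 0 6 14 true false), .t 1 (nat_lit 0) (.g 7 0 6 15 17 true true), .t 1 (nat_lit 0) (.g 7 17 0 6 16 true true), .t 1 (nat_lit 0) (.g 16 6 0 7 17 false true), .t 1 (nat_lit 0) (.g 7 0 6 16 17 true true), .t 1 (nat_lit 0) (.g 7 16 0 6 18 true true), .t 1 (nat_lit 0) (.g 6 18 0 7 16 false false), .t 1 (nat_lit 0) (.g 7 0 6 16 18 true true), .t 1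 (nat_lit 0) (.g 6 0 7 17 18 false true), .t 1 (nat_lit 0) (.g 7 17 0 6 18 true true), .t 1 (nat_lit 0) (.g 7 0 6 17 18 true true), .t 1 (nat_lit 0) (.g 6 0 8 9 17 false true), .t 1 (nat_lit 0) (.g 8 6 0 9 18 false false), .t 1 (nat_lit 0) (.g 9 0 6 8 18 true true), .t 1 (nat_lit 0) (.g 8 6 0 10 13 false false), .t 1 (nat_lit 0) (.g 8 6 0 10 14 false false), .t 1 (nat_lit 0) (.g 6 0 8 10 15 false true), .t 1 (nat_lit 0) (.g 8 6 0 10 16 false false), .t 1 (nat_lit 0) (.g 6 0 8 10 18 false true), .t 1 (nat_lit 0) (.g 0 11 6 8 12 true true), .t 1 (nat_lit 0) (.g 6 16 0 8 11 false false), .t 1 (nat_lit 0) (.g 0 11 6 8 17 true true), .t 1 (nat_lit 0) (.g 0 11 6 8 15 true true), .t 1 (nat_lit 0) (.g 0 11 6 8 16 true true), .t 1 (nat_lit 0) (.g 8 0 6 12 16 true true), .t 1 (nat_lit 0) (.g 8 0 6 12 17 true true), .t 1 (nat_lit 0) (.g 0 11 6 8 14 true true), .t 1 (nat_lit 0) (.g 8 0 6 13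 17 true true), .t 1 (nat_lit 0) (.g 0 11 6 8 18 true true), .t 1 (nat_lit 0) (.g 8 0 6 14 16 true false), .t 1 (nat_lit 0) (.g 8 6 0 14 17 false true), .t 1 (nat_lit 0) (.g 8 0 6 14 17 true true), .t 1 (nat_lit 0) (.g 6 17 0 8 16 false false), .t 1 (nat_lit 0) (.g 8 0 6 16 17 true true), .t 1 (nat_lit 0) (.g 18 6 0 8 17 true false), .t 1 (nat_lit 0) (.g 9 12 0 6 10 false true), .t 1 (nat_lit 0) (.g 10 0 6 9 12 true false), .t 1 (nat_lit 0) (.g 9 13 0 6 10 false true), .t 1 (nat_lit 0) (.g 10 0 6 9 13 true false), .t 1 (nat_lit 0) (.g 9 14 0 6 10 false true), .t 1 (nat_lit 0) (.g 10 0 6 9 14 true false), .t 1 (nat_lit 0) (.g 9 15 0 6 10 false true), .t 1 (nat_lit 0) (.g 0 10 6 9 16 false true), .t 1 (nat_lit 0) (.g 9 16 0 6 10 false true), .t 1 (nat_lit 0) (.g 0 10 6 9 17 false true), .t 1 (nat_lit 0) (.g 9 17 0 6 10 false true), .t 1 (nat_lit 0) (.g 10 0 6 9 17 true false), .t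 1 (nat_lit 0) (.g 6 0 9 10 18 false false), .t 1 (nat_lit 0) (.g 9 18 0 6 10 true true), .t 1 (nat_lit 0) (.g 9 18 0 6 10 false true), .t 1 (nat_lit 0) (.g 0 11 6 9 12 true true), .t 1 (nat_lit 0) (.g 6 13 0 9 11 false false), .t 1 (nat_lit 0) (.g 0 11 6 9 13 true true), .t 1 (nat_lit 0) (.g 6 14 0 9 11 false false), .t 1 (nat_lit 0) (.g 0 11 6 9 14 true true), .t 1 (nat_lit 0) (.g 6 15 0 9 11 false false), .t 1 (nat_lit 0) (.g 0 11 6 9 15 true true), .t 1 (nat_lit 0) (.g 6 16 0 9 11 false false), .t 1 (nat_lit 0) (.g 0 11 6 9 16 true true), .t 1 (nat_lit 0) (.g 6 17 0 9 11 false false), .t 1 (nat_lit 0) (.g 0 11 6 9 17 true true)] (by decide +kernel) (by decide +kernel)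
theorem b62 : B 3968 4032 := Blk.of_chk [.t 1 (nat_lit 0) (.g 6 18 0 9 11 false false), .t 1 (nat_lit 0) (.g 0 11 6 9 18 true true), .t 1 (nat_lit 0) (.g 13 6 0 9 12 true false), .t 1 (nat_lit 0) (.g 6 13 0 9 12 false false), .t 1 (nat_lit 0) (.g 9 0 6 12 13 true true), .t 1 (nat_lit 0) (.g 9 0 6 12 14 true true), .t 1 (nat_lit 0) (.g 9 0 6 12 14 true false), .t 1 (nat_lit 0) (.g 9 0 6 12 15 true true), .t 1 (nat_lit 0) (.g 16 6 0 9 12 true false), .t 1 (nat_lit 0) (.g 9 0 6 12 16 true true), .t 1 (nat_lit 0) (.g 9 0 6 12 16 true false), .t 1 (nat_lit 0) (.g 6 9 0 12 17 true true), .t 1 (nat_lit 0) (.g 17 6 0 9 12 true false), .t 1 (nat_lit 0) (.g 9 0 6 12 17 true true), .t 1 (nat_lit 0) (.g 6 9 0 12 18 true true), .t 1 (nat_lit 0) (.g 9 0 6 12 18 true true), .t 1 (nat_lit 0) (.g 14 6 0 9 13 true false), .t 1 (nat_lit 0) (.g 14 9 0 6 13 true false), .t 1 (nat_lit 0) (.g 6 14 0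 9 13 false false), .t 1 (nat_lit 0) (.g 6 13 0 9 14 false false), .t 1 (nat_lit 0) (.g 9 0 6 13 14 true true), .t 1 (nat_lit 0) (.g 9 0 6 13 14 true false), .t 1 (nat_lit 0) (.g 15 6 0 9 13 true false), .t 1 (nat_lit 0) (.g 6 13 0 9 15 false false), .t 1 (nat_lit 0) (.g 9 0 6 13 15 true true), .t 1 (nat_lit 0) (.g 9 0 6 13 15 true false), .t 1 (nat_lit 0) (.g 16 6 0 9 13 true false), .t 1 (nat_lit 0) (.g 6 13 0 9 16 false false), .t 1 (nat_lit 0) (.g 9 0 6 13 16 true true), .t 1 (nat_lit 0) (.g 9 0 6 13 16 true false), .t 1 (nat_lit 0) (.g 6 9 0 13 17 true true), .t 1 (nat_lit 0) (.g 17 6 0 9 13 true false), .t 1 (nat_lit 0) (.g 6 17 0 9 13 false false), .t 1 (nat_lit 0) (.g 9 0 6 13 17 true true), .t 1 (nat_lit 0) (.g 18 6 0 9 13 true false), .t 1 (nat_lit 0) (.g 9 0 6 13 18 true true), .t 1 (nat_lit 0) (.g 9 0 6 13 18 true false), .t 1 (nat_lit 0) (.g 6 15 0 9 14 false false),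 .t 1 (nat_lit 0) (.g 6 14 0 9 15 false false), .t 1 (nat_lit 0) (.g 9 0 6 14 15 true true), .t 1 (nat_lit 0) (.g 9 0 6 14 15 true false), .t 1 (nat_lit 0) (.g 16 6 0 9 14 true false), .t 1 (nat_lit 0) (.g 6 14 0 9 16 false false), .t 1 (nat_lit 0) (.g 9 0 6 14 16 true true), .t 1 (nat_lit 0) (.g 9 0 6 14 16 true false), .t 1 (nat_lit 0) (.g 9 0 6 14 17 true true), .t 1 (nat_lit 0) (.g 6 14 0 9 18 false false), .t 1 (nat_lit 0) (.g 9 0 6 14 18 true true), .t 1 (nat_lit 0) (.g 9 0 6 14 18 true false), .t 1 (nat_lit 0) (.g 9 0 6 15 16 true true), .t 1 (nat_lit 0) (.g 9 0 6 15 16 true false), .t 1 (nat_lit 0) (.g 17 6 0 9 15 true false), .t 1 (nat_lit 0) (.g 9 0 6 15 17 true true), .t 1 (nat_lit 0) (.g 18 6 0 9 15 true false), .t 1 (nat_lit 0) (.g 9 0 6 15 18 true true), .t 1 (nat_lit 0) (.g 9 0 6 15 18 true false), .t 1 (nat_lit 0) (.g 6 17 0 9 16 false false), .t 1 (nat_lit 0) (.g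 9 0 6 16 17 true true), .t 1 (nat_lit 0) (.g 6 16 0 9 18 false false), .t 1 (nat_lit 0) (.g 9 0 6 16 18 true true), .t 1 (nat_lit 0) (.g 9 0 6 17 18 true true), .t 1 (nat_lit 0) (.g 9 0 6 17 18 true false), .t 1 (nat_lit 0) (.g 0 11 6 10 14 true true), .t 1 (nat_lit 0) (.g 0 11 6 10 15 true true)] (by decide +kernel) (by decide +kernel)
theorem b63 : B 4032 4096 := Blk.of_chk [.t 1 (nat_lit 0) (.g 6 16 0 10 11 false false), .t 1 (nat_lit 0) (.g 6 18 0 10 11 false false), .t 1 (nat_lit 0) (.g 6 13 0 10 12 false false), .t 1 (nat_lit 0) (.g 0 11 6 10 13 true true), .t 1 (nat_lit 0) (.g 10 0 6 12 13 true true), .t 1 (nat_lit 0) (.g 10 0 6 12 14 true true), .t 1 (nat_lit 0) (.g 6 17 0 10 12 false false), .t 1 (nat_lit 0) (.g 0 11 6 10 18 true true), .t 1 (nat_lit 0) (.g 10 0 6 13 14 true true), .t 1 (nat_lit 0) (.g 15 10 0 6 13 true false), .t 1 (nat_lit 0) (.g 0 11 6 10 16 true true),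 .t 1 (nat_lit 0) (.g 16 10 0 6 13 true false), .t 1 (nat_lit 0) (.g 10 0 6 13 16 true true), .t 1 (nat_lit 0) (.g 0 11 6 10 17 true true), .t 1 (nat_lit 0) (.g 10 0 6 14 17 true true), .t 1 (nat_lit 0) (.g 18 6 0 10 14 true false), .t 1 (nat_lit 0) (.g 10 0 6 15 16 true true), .t 1 (nat_lit 0) (.g 10 0 6 15 18 true true), .t 1 (nat_lit 0) (.g 10 0 6 16 17 true true), .t 1 (nat_lit 0) (.g 10 0 6 16 18 true true), .t 1 (nat_lit 0) (.g 17 10 0 6 18 true true), .t 1 (nat_lit 0) (.g 6 18 0 10 17 false false), .t 1 (nat_lit 0) (.g 0 11 6 12 13 true true), .t 1 (nat_lit 0) (.g 0 11 6 12 14 true true), .t 1 (nat_lit 0) (.g 0 11 6 12 18 true true), .t 1 (nat_lit 0) (.g 0 11 6 13 14 true true), .t 1 (nat_lit 0) (.g 0 11 6 13 15 true true), .t 1 (nat_lit 0) (.g 0 11 6 13 16 true true), .t 1 (nat_lit 0) (.g 0 11 6 13 17 true true), .t 1 (nat_lit 0) (.g 0 11 6 13 18 true true), .t 1 (nat_lit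 0) (.g 0 11 6 14 16 true true), .t 1 (nat_lit 0) (.g 0 11 6 14 17 true true), .t 1 (nat_lit 0) (.g 0 11 6 14 18 true true), .t 1 (nat_lit 0) (.g 0 11 6 15 16 true true), .t 1 (nat_lit 0) (.g 0 11 6 15 17 true true), .t 1 (nat_lit 0) (.g 0 11 6 16 17 true true), .t 1 (nat_lit 0) (.g 0 11 6 16 18 true true), .t 1 (nat_lit 0) (.g 0 11 6 17 18 true true), .t 1 (nat_lit 0) (.g 0 11 6 12 16 true true), .t 1 (nat_lit 0) (.g 0 11 6 12 17 true true), .t 1 (nat_lit 0) (.g 0 11 6 12 15 true true), .t 1 (nat_lit 0) (.g 0 11 6 14 15 true true), .t 1 (nat_lit 0) (.g 0 11 6 15 18 true true), .t 1 (nat_lit 0) (.g 8 7 0 9 12 false false), .t 1 (nat_lit 0) (.g 8 7 0 9 14 false false), .t 1 (nat_lit 0) (.g 7 0 8 9 15 false true), .t 1 (nat_lit 0) (.g 7 0 8 9 16 false true), .t 1 (nat_lit 0) (.g 7 0 8 9 17 false true), .t 1 (nat_lit 0) (.g 8 7 0 9 17 false false), .t 1 (nat_lit 0) (.g 7 0 8 9 18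 false true), .t 1 (nat_lit 0) (.g 8 7 0 9 18 false false), .t 1 (nat_lit 0) (.g 8 12 0 7 10 false true), .t 1 (nat_lit 0) (.g 8 13 0 7 10 false true), .t 1 (nat_lit 0) (.g 10 0 7 8 13 true false), .t 1 (nat_lit 0) (.g 0 10 7 8 14 false true), .t 1 (nat_lit 0) (.g 8 14 0 7 10 false true), .t 1 (nat_lit 0) (.g 10 0 7 8 14 true false), .t 1 (nat_lit 0) (.g 0 10 7 8 15 false true), .t 1 (nat_lit 0) (.g 8 15 0 7 10 false true), .t 1 (nat_lit 0) (.g 7 0 8 10 16 false false), .t 1 (nat_lit 0) (.g 0 10 7 8 16 false true), .t 1 (nat_lit 0) (.g 8 16 0 7 10 false true), .t 1 (nat_lit 0) (.g 0 10 7 8 17 false true), .t 1 (nat_lit 0) (.g 7 0 8 10 17 false false)] (by decide +kernel) (by decide +kernel)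
theorem b64 : B 4096 4160 := Blk.of_chk [.t 1 (nat_lit 0) (.g 8 17 0 7 10 false true), .t 1 (nat_lit 0) (.g 7 0 8 10 18 false false), .t 1 (nat_lit 0) (.g 0 10 7 8 18 false true), .t 1 (nat_lit 0) (.g 8 18 0 7 10 false true), .t 1 (nat_lit 0) (.g 0 11 7 8 12 true true), .t 1 (nat_lit 0) (.g 7 11 0 8 13 false false), .t 1 (nat_lit 0) (.g 0 11 7 8 13 true true), .t 1 (nat_lit 0) (.g 7 14 0 8 11 false false), .t 1 (nat_lit 0) (.g 7 16 0 8 11 false false), .t 1 (nat_lit 0) (.g 0 11 7 8 16 true true), .t 1 (nat_lit 0) (.g 0 11 7 8 17 true true), .t 1 (nat_lit 0) (.g 0 11 7 8 18 true true), .t 1 (nat_lit 0) (.g 7 13 0 8 12 false false), .t 1 (nat_lit 0) (.g 0 11 7 8 15 true true), .t 1 (nat_lit 0) (.g 15 7 0 8 12 true false), .t 1 (nat_lit 0) (.g 16 7 0 8 12 true false), .t 1 (nat_lit 0) (.g 8 0 7 12 16 true true), .t 1 (nat_lit 0) (.g 8 0 7 12 17 true true), .t 1 (nat_lit 0) (.g 0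 11 7 8 14 true true), .t 1 (nat_lit 0) (.g 7 8 0 14 15 true true), .t 1 (nat_lit 0) (.g 15 7 0 8 14 true false), .t 1 (nat_lit 0) (.g 7 14 0 8 15 false false), .t 1 (nat_lit 0) (.g 7 8 0 14 16 true true), .t 1 (nat_lit 0) (.g 16 7 0 8 14 true false), .t 1 (nat_lit 0) (.g 8 0 7 14 16 true false), .t 1 (nat_lit 0) (.g 7 8 0 14 17 true true), .t 1 (nat_lit 0) (.g 8 0 7 14 17 true true), .t 1 (nat_lit 0) (.g 7 8 0 14 18 true true), .t 1 (nat_lit 0) (.g 7 14 0 8 18 false false), .t 1 (nat_lit 0) (.g 8 0 7 15 18 true false), .t 1 (nat_lit 0) (.g 7 17 0 8 16 false false), .t 1 (nat_lit 0) (.g 8 0 7 16 18 true true), .t 1 (nat_lit 0) (.g 8 0 7 17 18 true false), .t 1 (nat_lit 0) (.g 9 12 0 7 10 false true), .t 1 (nat_lit 0) (.g 10 0 7 9 12 true false), .t 1 (nat_lit 0) (.g 9 13 0 7 10 false true), .t 1 (nat_lit 0) (.g 10 0 7 9 13 true false), .t 1 (nat_lit 0) (.g 9 14 0 7 10 false true),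 .t 1 (nat_lit 0) (.g 10 0 7 9 14 true false), .t 1 (nat_lit 0) (.g 0 10 7 9 15 false true), .t 1 (nat_lit 0) (.g 9 15 0 7 10 false true), .t 1 (nat_lit 0) (.g 7 0 9 10 16 false false), .t 1 (nat_lit 0) (.g 0 10 7 9 16 false true), .t 1 (nat_lit 0) (.g 9 16 0 7 10 false true), .t 1 (nat_lit 0) (.g 0 10 7 9 17 false true), .t 1 (nat_lit 0) (.g 9 17 0 7 10 false true), .t 1 (nat_lit 0) (.g 10 0 7 9 17 true false), .t 1 (nat_lit 0) (.g 7 0 9 10 18 false false), .t 1 (nat_lit 0) (.g 9 18 0 7 10 true true), .t 1 (nat_lit 0) (.g 0 10 7 9 18 false true), .t 1 (nat_lit 0) (.g 9 18 0 7 10 false true), .t 1 (nat_lit 0) (.g 7 12 0 9 11 false false), .t 1 (nat_lit 0) (.g 0 11 7 9 12 true true), .t 1 (nat_lit 0) (.g 7 13 0 9 11 false false), .t 1 (nat_lit 0) (.g 7 11 0 9 13 false false), .t 1 (nat_lit 0) (.g 0 11 7 9 13 true true), .t 1 (nat_lit 0) (.g 7 14 0 9 11 false false), .t 1 (nat_lit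 0) (.g 7 11 0 9 14 false false), .t 1 (nat_lit 0) (.g 0 11 7 9 14 true true), .t 1 (nat_lit 0) (.g 0 11 7 9 15 true true), .t 1 (nat_lit 0) (.g 7 15 0 9 11 false false), .t 1 (nat_lit 0) (.g 0 11 7 9 16 true true), .t 1 (nat_lit 0) (.g 7 16 0 9 11 false false), .t 1 (nat_lit 0) (.g 0 11 7 9 17 true true)] (by decide +kernel) (by decide +kernel)
theorem b65 : B 4160 4224 := Blk.of_chk [.t 1 (nat_lit 0) (.g 7 17 0 9 11 false false), .t 1 (nat_lit 0) (.g 0 11 7 9 18 true true), .t 1 (nat_lit 0) (.g 7 18 0 9 11 false false), .t 1 (nat_lit 0) (.g 7 13 0 9 12 false false), .t 1 (nat_lit 0) (.g 9 0 7 12 13 true true), .t 1 (nat_lit 0) (.g 9 0 7 12 14 true true), .t 1 (nat_lit 0) (.g 9 0 7 12 14 true false), .t 1 (nat_lit 0) (.g 15 7 0 9 12 true false), .t 1 (nat_lit 0) (.g 9 0 7 12 15 true true), .t 1 (nat_lit 0) (.g 16 7 0 9 12 true false), .t 1 (nat_lit 0) (.g 9 0 7 12 16 true true),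 .t 1 (nat_lit 0) (.g 9 0 7 12 16 true false), .t 1 (nat_lit 0) (.g 9 0 7 12 17 true true), .t 1 (nat_lit 0) (.g 9 0 7 12 18 true true), .t 1 (nat_lit 0) (.g 14 7 0 9 13 true false), .t 1 (nat_lit 0) (.g 14 9 0 7 13 true false), .t 1 (nat_lit 0) (.g 7 14 0 9 13 false false), .t 1 (nat_lit 0) (.g 7 13 0 9 14 false false), .t 1 (nat_lit 0) (.g 9 0 7 13 14 true true), .t 1 (nat_lit 0) (.g 9 0 7 13 14 true false), .t 1 (nat_lit 0) (.g 15 7 0 9 13 true false), .t 1 (nat_lit 0) (.g 9 0 7 13 15 true true), .t 1 (nat_lit 0) (.g 9 0 7 13 15 true false), .t 1 (nat_lit 0) (.g 16 7 0 9 13 true false), .t 1 (nat_lit 0) (.g 7 13 0 9 16 false false), .t 1 (nat_lit 0) (.g 9 0 7 13 16 true true), .t 1 (nat_lit 0) (.g 9 0 7 13 16 true false), .t 1 (nat_lit 0) (.g 17 7 0 9 13 true false), .t 1 (nat_lit 0) (.g 9 0 7 13 17 true true), .t 1 (nat_lit 0) (.g 18 7 0 9 13 true false), .t 1 (nat_lit 0) (.g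 9 0 7 13 18 true true), .t 1 (nat_lit 0) (.g 9 0 7 13 18 true false), .t 1 (nat_lit 0) (.g 15 7 0 9 14 true false), .t 1 (nat_lit 0) (.g 7 15 0 9 14 false false), .t 1 (nat_lit 0) (.g 7 14 0 9 15 false false), .t 1 (nat_lit 0) (.g 9 0 7 14 15 true true), .t 1 (nat_lit 0) (.g 9 0 7 14 15 true false), .t 1 (nat_lit 0) (.g 16 7 0 9 14 true false), .t 1 (nat_lit 0) (.g 9 0 7 14 16 true true), .t 1 (nat_lit 0) (.g 9 0 7 14 16 true false), .t 1 (nat_lit 0) (.g 7 17 0 9 14 false false), .t 1 (nat_lit 0) (.g 9 0 7 14 17 true true), .t 1 (nat_lit 0) (.g 18 7 0 9 14 true false), .t 1 (nat_lit 0) (.g 7 14 0 9 18 false false), .t 1 (nat_lit 0) (.g 9 0 7 14 18 true true), .t 1 (nat_lit 0) (.g 9 0 7 14 18 true false), .t 1 (nat_lit 0) (.g 9 0 7 15 16 true true), .t 1 (nat_lit 0) (.g 9 0 7 15 16 true false), .t 1 (nat_lit 0) (.g 9 0 7 15 17 true true), .t 1 (nat_lit 0) (.g 18 7 0 9 15 true false),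 .t 1 (nat_lit 0) (.g 9 0 7 15 18 true true), .t 1 (nat_lit 0) (.g 9 0 7 15 18 true false), .t 1 (nat_lit 0) (.g 9 0 7 16 17 true true), .t 1 (nat_lit 0) (.g 9 16 0 7 18 false true), .t 1 (nat_lit 0) (.g 7 18 0 9 16 false false), .t 1 (nat_lit 0) (.g 9 0 7 16 18 true true), .t 1 (nat_lit 0) (.g 9 0 7 16 18 true false), .t 1 (nat_lit 0) (.g 7 0 9 17 18 false false), .t 1 (nat_lit 0) (.g 18 7 0 9 17 true false), .t 1 (nat_lit 0) (.g 18 9 0 7 17 true false), .t 1 (nat_lit 0) (.g 7 18 0 9 17 false false), .t 1 (nat_lit 0) (.g 9 0 7 17 18 true true), .t 1 (nat_lit 0) (.g 9 0 7 17 18 true false), .t 1 (nat_lit 0) (.g 7 16 0 10 11 false false)] (by decide +kernel) (by decide +kernel)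
theorem b66 : B 4224 4288 := Blk.of_chk [.t 1 (nat_lit 0) (.g 0 11 7 10 17 true true), .t 1 (nat_lit 0) (.g 0 11 7 10 18 true true), .t 1 (nat_lit 0) (.g 7 18 0 10 11 false false), .t 1 (nat_lit 0) (.g 7 13 0 10 12 false false), .t 1 (nat_lit 0) (.g 0 11 7 10 13 true true), .t 1 (nat_lit 0) (.g 10 0 7 12 13 true true), .t 1 (nat_lit 0) (.g 0 11 7 10 14 true true), .t 1 (nat_lit 0) (.g 0 11 7 10 15 true true), .t 1 (nat_lit 0) (.g 15 7 0 10 12 true false), .t 1 (nat_lit 0) (.g 7 17 0 10 12 false false), .t 1 (nat_lit 0) (.g 10 0 7 12 18 true true), .t 1 (nat_lit 0) (.g 14 7 0 10 13 true false), .t 1 (nat_lit 0) (.g 14 10 0 7 13 true false), .t 1 (nat_lit 0) (.g 7 13 0 10 14 false false), .t 1 (nat_lit 0) (.g 10 0 7 13 14 true true), .t 1 (nat_lit 0) (.g 15 10 0 7 13 true false), .t 1 (nat_lit 0) (.g 0 11 7 10 16 true true), .t 1 (nat_lit 0) (.g 16 10 0 7 13 true false), .t 1 (nat_lit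 0) (.g 10 0 7 13 16 true true), .t 1 (nat_lit 0) (.g 15 7 0 10 14 true false), .t 1 (nat_lit 0) (.g 10 0 7 14 17 true true), .t 1 (nat_lit 0) (.g 18 7 0 10 14 true false), .t 1 (nat_lit 0) (.g 10 0 7 15 18 true true), .t 1 (nat_lit 0) (.g 7 0 10 16 18 false true), .t 1 (nat_lit 0) (.g 18 7 0 10 16 false false), .t 1 (nat_lit 0) (.g 10 0 7 16 18 true true), .t 1 (nat_lit 0) (.g 17 10 0 7 18 true true), .t 1 (nat_lit 0) (.g 7 17 0 10 18 false false), .t 1 (nat_lit 0) (.g 0 11 7 12 14 true true), .t 1 (nat_lit 0) (.g 0 11 7 12 18 true true), .t 1 (nat_lit 0) (.g 0 11 7 13 14 true true), .t 1 (nat_lit 0) (.g 0 11 7 13 15 true true), .t 1 (nat_lit 0) (.g 0 11 7 13 16 true true), .t 1 (nat_lit 0) (.g 0 11 7 13 17 true true), .t 1 (nat_lit 0) (.g 0 11 7 13 18 true true), .t 1 (nat_lit 0) (.g 0 11 7 14 15 true true), .t 1 (nat_lit 0) (.g 0 11 7 14 16 true true), .t 1 (nat_lit 0) (.g 0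 11 7 14 17 true true), .t 1 (nat_lit 0) (.g 0 11 7 14 18 true true), .t 1 (nat_lit 0) (.g 0 11 7 15 16 true true), .t 1 (nat_lit 0) (.g 0 11 7 15 17 true true), .t 1 (nat_lit 0) (.g 0 11 7 16 17 true true), .t 1 (nat_lit 0) (.g 0 11 7 16 18 true true), .t 1 (nat_lit 0) (.g 0 11 7 17 18 true true), .t 1 (nat_lit 0) (.g 0 11 7 12 16 true true), .t 1 (nat_lit 0) (.g 0 11 7 12 15 true true), .t 1 (nat_lit 0) (.g 0 11 7 12 17 true true), .t 1 (nat_lit 0) (.g 13 0 7 17 18 false true), .t 1 (nat_lit 0) (.g 0 11 7 15 18 true true), .t 1 (nat_lit 0) (.g 14 0 7 16 17 false true), .t 1 (nat_lit 0) (.g 9 12 0 8 10 false true), .t 1 (nat_lit 0) (.g 9 13 0 8 10 false true), .t 1 (nat_lit 0) (.g 10 0 8 9 13 true false), .t 1 (nat_lit 0) (.g 9 14 0 8 10 false true), .t 1 (nat_lit 0) (.g 10 0 8 9 14 true false), .t 1 (nat_lit 0) (.g 9 15 0 8 10 false true), .t 1 (nat_lit 0) (.g 10 0 8 9 15 true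 false), .t 1 (nat_lit 0) (.g 9 16 0 8 10 false true), .t 1 (nat_lit 0) (.g 10 0 8 9 16 true false), .t 1 (nat_lit 0) (.g 0 10 8 9 17 false true), .t 1 (nat_lit 0) (.g 9 17 0 8 10 false true), .t 1 (nat_lit 0) (.g 10 0 8 9 17 true false), .t 1 (nat_lit 0) (.g 8 0 9 10 18 false false), .t 1 (nat_lit 0) (.g 9 18 0 8 10 true true)] (by decide +kernel) (by decide +kernel)
theorem b67 : B 4288 4352 := Blk.of_chk [.t 1 (nat_lit 0) (.g 9 18 0 8 10 false true), .t 1 (nat_lit 0) (.g 10 0 8 9 18 true false), .t 1 (nat_lit 0) (.g 8 12 0 9 11 false false), .t 1 (nat_lit 0) (.g 0 11 8 9 12 true true), .t 1 (nat_lit 0) (.g 8 13 0 9 11 false false), .t 1 (nat_lit 0) (.g 0 11 8 9 13 true true), .t 1 (nat_lit 0) (.g 8 14 0 9 11 false false), .t 1 (nat_lit 0) (.g 0 11 8 9 14 true true), .t 1 (nat_lit 0) (.g 8 15 0 9 11 false false), .t 1 (nat_lit 0) (.g 0 11 8 9 15 true true), .t 1 (nat_lit 0) (.g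 8 16 0 9 11 false false), .t 1 (nat_lit 0) (.g 0 11 8 9 16 true true), .t 1 (nat_lit 0) (.g 8 17 0 9 11 false false), .t 1 (nat_lit 0) (.g 0 11 8 9 17 true true), .t 1 (nat_lit 0) (.g 8 18 0 9 11 false false), .t 1 (nat_lit 0) (.g 0 11 8 9 18 true true), .t 1 (nat_lit 0) (.g 9 0 8 12 13 true true), .t 1 (nat_lit 0) (.g 14 8 0 9 12 true false), .t 1 (nat_lit 0) (.g 9 0 8 12 14 true true), .t 1 (nat_lit 0) (.g 9 0 8 12 14 true false), .t 1 (nat_lit 0) (.g 9 0 8 12 15 true true), .t 1 (nat_lit 0) (.g 16 8 0 9 12 true false), .t 1 (nat_lit 0) (.g 8 16 0 9 12 false false), .t 1 (nat_lit 0) (.g 9 0 8 12 16 true true), .t 1 (nat_lit 0) (.g 9 0 8 12 16 true false), .t 1 (nat_lit 0) (.g 8 17 0 9 12 false false), .t 1 (nat_lit 0) (.g 9 0 8 12 17 true true), .t 1 (nat_lit 0) (.g 9 0 8 12 18 true true), .t 1 (nat_lit 0) (.g 14 8 0 9 13 true false), .t 1 (nat_lit 0) (.g 14 9 0 8 13 true false),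 .t 1 (nat_lit 0) (.g 8 13 0 9 14 false false), .t 1 (nat_lit 0) (.g 9 0 8 13 14 true true), .t 1 (nat_lit 0) (.g 9 0 8 13 14 true false), .t 1 (nat_lit 0) (.g 15 8 0 9 13 true false), .t 1 (nat_lit 0) (.g 9 0 8 13 15 true true), .t 1 (nat_lit 0) (.g 9 0 8 13 15 true false), .t 1 (nat_lit 0) (.g 16 8 0 9 13 true false), .t 1 (nat_lit 0) (.g 8 13 0 9 16 false false), .t 1 (nat_lit 0) (.g 9 0 8 13 16 true true), .t 1 (nat_lit 0) (.g 9 0 8 13 16 true false), .t 1 (nat_lit 0) (.g 17 8 0 9 13 true false), .t 1 (nat_lit 0) (.g 9 0 8 13 17 true true), .t 1 (nat_lit 0) (.g 18 8 0 9 13 true false), .t 1 (nat_lit 0) (.g 9 0 8 13 18 true true), .t 1 (nat_lit 0) (.g 9 0 8 13 18 true false), .t 1 (nat_lit 0) (.g 8 15 0 9 14 false false), .t 1 (nat_lit 0) (.g 8 14 0 9 15 false false), .t 1 (nat_lit 0) (.g 9 0 8 14 15 true true), .t 1 (nat_lit 0) (.g 9 0 8 14 15 true false), .t 1 (nat_lit 0)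 (.g 16 8 0 9 14 true false), .t 1 (nat_lit 0) (.g 8 14 0 9 16 false false), .t 1 (nat_lit 0) (.g 9 0 8 14 16 true true), .t 1 (nat_lit 0) (.g 9 0 8 14 16 true false), .t 1 (nat_lit 0) (.g 8 17 0 9 14 false false), .t 1 (nat_lit 0) (.g 9 0 8 14 17 true true), .t 1 (nat_lit 0) (.g 18 8 0 9 14 true false), .t 1 (nat_lit 0) (.g 8 14 0 9 18 false false), .t 1 (nat_lit 0) (.g 9 0 8 14 18 true true), .t 1 (nat_lit 0) (.g 9 0 8 14 18 true false), .t 1 (nat_lit 0) (.g 9 0 8 15 16 true true), .t 1 (nat_lit 0) (.g 9 0 8 15 16 true false), .t 1 (nat_lit 0) (.g 9 0 8 15 17 true true), .t 1 (nat_lit 0) (.g 18 8 0 9 15 true false), .t 1 (nat_lit 0) (.g 9 0 8 15 18 true true)] (by decide +kernel) (by decide +kernel)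
theorem b68 : B 4352 4416 := Blk.of_chk [.t 1 (nat_lit 0) (.g 9 0 8 15 18 true false), .t 1 (nat_lit 0) (.g 8 17 0 9 16 false false), .t 1 (nat_lit 0) (.g 9 0 8 16 17 true true), .t 1 (nat_lit 0) (.g 18 8 0 9 16 true false), .t 1 (nat_lit 0) (.g 8 18 0 9 16 false false), .t 1 (nat_lit 0) (.g 9 0 8 16 18 true true), .t 1 (nat_lit 0) (.g 9 0 8 16 18 true false), .t 1 (nat_lit 0) (.g 18 8 0 9 17 true false), .t 1 (nat_lit 0) (.g 18 9 0 8 17 true false), .t 1 (nat_lit 0) (.g 8 18 0 9 17 false false), .t 1 (nat_lit 0) (.g 9 0 8 17 18 true true), .t 1 (nat_lit 0) (.g 9 0 8 17 18 true false), .t 1 (nat_lit 0) (.g 8 13 0 10 11 false false), .t 1 (nat_lit 0) (.g 8 14 0 10 11 false false), .t 1 (nat_lit 0) (.g 0 11 8 10 14 true true), .t 1 (nat_lit 0) (.g 8 16 0 10 11 false false), .t 1 (nat_lit 0) (.g 0 11 8 10 17 true true), .t 1 (nat_lit 0) (.g 8 18 0 10 11 false false), .t 1 (nat_lit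 0) (.g 0 11 8 10 13 true true), .t 1 (nat_lit 0) (.g 10 0 8 12 13 true true), .t 1 (nat_lit 0) (.g 0 11 8 10 15 true true), .t 1 (nat_lit 0) (.g 15 8 0 10 12 true false), .t 1 (nat_lit 0) (.g 0 11 8 10 16 true true), .t 1 (nat_lit 0) (.g 8 16 0 10 12 false false), .t 1 (nat_lit 0) (.g 8 17 0 10 12 false false), .t 1 (nat_lit 0) (.g 0 11 8 10 18 true true), .t 1 (nat_lit 0) (.g 14 8 0 10 13 true false), .t 1 (nat_lit 0) (.g 14 10 0 8 13 true false), .t 1 (nat_lit 0) (.g 10 0 8 13 14 true true), .t 1 (nat_lit 0) (.g 15 10 0 8 13 true false), .t 1 (nat_lit 0) (.g 16 10 0 8 13 true false), .t 1 (nat_lit 0) (.g 15 10 0 8 14 true false), .t 1 (nat_lit 0) (.g 8 14 0 10 16 false false), .t 1 (nat_lit 0) (.g 8 17 0 10 14 false false), .t 1 (nat_lit 0) (.g 10 0 8 14 17 true true), .t 1 (nat_lit 0) (.g 18 8 0 10 14 true false), .t 1 (nat_lit 0) (.g 10 0 8 14 18 true false), .t 1 (nat_lit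 0) (.g 16 8 0 10 15 true false), .t 1 (nat_lit 0) (.g 10 0 8 15 18 true true), .t 1 (nat_lit 0) (.g 17 10 0 8 16 true false), .t 1 (nat_lit 0) (.g 8 17 0 10 16 false false), .t 1 (nat_lit 0) (.g 10 0 8 16 17 true true), .t 1 (nat_lit 0) (.g 10 0 8 16 18 true true), .t 1 (nat_lit 0) (.g 17 10 0 8 18 true true), .t 1 (nat_lit 0) (.g 18 8 0 10 17 false false), .t 1 (nat_lit 0) (.g 18 10 0 8 17 true false), .t 1 (nat_lit 0) (.g 8 18 0 10 17 false false), .t 1 (nat_lit 0) (.g 0 11 8 12 18 true true), .t 1 (nat_lit 0) (.g 0 11 8 13 14 true true), .t 1 (nat_lit 0) (.g 0 11 8 13 15 true true), .t 1 (nat_lit 0) (.g 0 11 8 13 16 true true), .t 1 (nat_lit 0) (.g 0 11 8 13 17 true true), .t 1 (nat_lit 0) (.g 0 11 8 13 18 true true), .t 1 (nat_lit 0) (.g 0 11 8 14 15 true true), .t 1 (nat_lit 0) (.g 0 11 8 14 16 true true), .t 1 (nat_lit 0) (.g 0 11 8 14 17 true true), .t 1 (nat_lit 0) (.g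 0 11 8 14 18 true true), .t 1 (nat_lit 0) (.g 0 11 8 15 16 true true), .t 1 (nat_lit 0) (.g 0 11 8 15 17 true true), .t 1 (nat_lit 0) (.g 0 11 8 16 17 true true), .t 1 (nat_lit 0) (.g 0 11 8 16 18 true true), .t 1 (nat_lit 0) (.g 0 11 8 17 18 true true), .t 1 (nat_lit 0) (.g 0 11 8 12 16 true true), .t 1 (nat_lit 0) (.g 0 11 8 12 15 true true)] (by decide +kernel) (by decide +kernel)
theorem b69 : B 4416 4480 := Blk.of_chk [.t 1 (nat_lit 0) (.g 0 11 8 12 17 true true), .t 1 (nat_lit 0) (.g 0 11 8 15 18 true true), .t 1 (nat_lit 0) (.g 9 12 0 10 11 false false), .t 1 (nat_lit 0) (.g 9 11 0 10 12 false false), .t 1 (nat_lit 0) (.g 0 11 9 10 12 true true), .t 1 (nat_lit 0) (.g 9 13 0 10 11 false false), .t 1 (nat_lit 0) (.g 9 11 0 10 13 false false), .t 1 (nat_lit 0) (.g 0 11 9 10 13 true true), .t 1 (nat_lit 0) (.g 9 14 0 10 11 false false), .t 1 (nat_lit 0) (.g 9 11 0 10 14 false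 false), .t 1 (nat_lit 0) (.g 0 11 9 10 14 true true), .t 1 (nat_lit 0) (.g 9 11 0 10 15 false false), .t 1 (nat_lit 0) (.g 0 11 9 10 15 true true), .t 1 (nat_lit 0) (.g 9 11 0 10 16 false false), .t 1 (nat_lit 0) (.g 0 11 9 10 16 true true), .t 1 (nat_lit 0) (.g 0 11 9 10 17 true true), .t 1 (nat_lit 0) (.g 9 17 0 10 11 false false), .t 1 (nat_lit 0) (.g 9 11 0 10 17 false false), .t 1 (nat_lit 0) (.g 9 11 0 10 18 false false), .t 1 (nat_lit 0) (.g 9 13 0 10 12 false false), .t 1 (nat_lit 0) (.g 9 12 0 10 13 false false), .t 1 (nat_lit 0) (.g 10 0 9 12 13 true true), .t 1 (nat_lit 0) (.g 9 14 0 10 12 false false), .t 1 (nat_lit 0) (.g 9 12 0 10 14 false false), .t 1 (nat_lit 0) (.g 10 0 9 12 14 true false), .t 1 (nat_lit 0) (.g 15 9 0 10 12 true false), .t 1 (nat_lit 0) (.g 9 15 0 10 12 false false), .t 1 (nat_lit 0) (.g 9 12 0 10 15 false false), .t 1 (nat_lit 0) (.g 10 0 9 12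 15 true true), .t 1 (nat_lit 0) (.g 9 16 0 10 12 false false), .t 1 (nat_lit 0) (.g 9 12 0 10 16 false false), .t 1 (nat_lit 0) (.g 10 0 9 12 16 true true), .t 1 (nat_lit 0) (.g 9 17 0 10 12 false false), .t 1 (nat_lit 0) (.g 0 11 9 10 18 true true), .t 1 (nat_lit 0) (.g 18 10 0 9 12 true false), .t 1 (nat_lit 0) (.g 9 18 0 10 12 false false), .t 1 (nat_lit 0) (.g 14 9 0 10 13 true false), .t 1 (nat_lit 0) (.g 14 10 0 9 13 true false), .t 1 (nat_lit 0) (.g 9 14 0 10 13 false false), .t 1 (nat_lit 0) (.g 9 13 0 10 14 false false), .t 1 (nat_lit 0) (.g 10 0 9 13 14 true true), .t 1 (nat_lit 0) (.g 9 10 0 13 15 true true), .t 1 (nat_lit 0) (.g 15 9 0 10 13 true false), .t 1 (nat_lit 0) (.g 15 10 0 9 13 true false), .t 1 (nat_lit 0) (.g 9 15 0 10 13 false false), .t 1 (nat_lit 0) (.g 9 13 0 10 15 false false), .t 1 (nat_lit 0) (.g 10 0 9 13 15 true true), .t 1 (nat_lit 0) (.g 16 9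 0 10 13 true false), .t 1 (nat_lit 0) (.g 16 10 0 9 13 true false), .t 1 (nat_lit 0) (.g 9 16 0 10 13 false false), .t 1 (nat_lit 0) (.g 9 13 0 10 16 false false), .t 1 (nat_lit 0) (.g 10 0 9 13 16 true true), .t 1 (nat_lit 0) (.g 10 0 9 13 16 true false), .t 1 (nat_lit 0) (.g 9 10 0 13 17 true true), .t 1 (nat_lit 0) (.g 17 9 0 10 13 true false), .t 1 (nat_lit 0) (.g 17 10 0 9 13 true false), .t 1 (nat_lit 0) (.g 9 17 0 10 13 false false), .t 1 (nat_lit 0) (.g 9 13 0 10 17 false false), .t 1 (nat_lit 0) (.g 10 0 9 13 17 true true), .t 1 (nat_lit 0) (.g 18 9 0 10 13 true false), .t 1 (nat_lit 0) (.g 18 10 0 9 13 true false), .t 1 (nat_lit 0) (.g 9 18 0 10 13 false false), .t 1 (nat_lit 0) (.g 9 13 0 10 18 false false), .t 1 (nat_lit 0) (.g 10 0 9 13 18 true true)] (by decide +kernel) (by decide +kernel)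
theorem b70 : B 4480 4544 := Blk.of_chk [.t 1 (nat_lit 0) (.g 10 0 9 13 18 true false), .t 1 (nat_lit 0) (.g 9 15 0 10 14 false false), .t 1 (nat_lit 0) (.g 9 14 0 10 15 false false), .t 1 (nat_lit 0) (.g 10 0 9 14 15 true true), .t 1 (nat_lit 0) (.g 16 10 0 9 14 true false), .t 1 (nat_lit 0) (.g 9 16 0 10 14 false false), .t 1 (nat_lit 0) (.g 9 14 0 10 16 false false), .t 1 (nat_lit 0) (.g 10 0 9 14 16 true true), .t 1 (nat_lit 0) (.g 9 17 0 10 14 false false), .t 1 (nat_lit 0) (.g 9 14 0 10 17 false false), .t 1 (nat_lit 0) (.g 18 9 0 10 14 true false), .t 1 (nat_lit 0) (.g 18 10 0 9 14 true false), .t 1 (nat_lit 0) (.g 9 18 0 10 14 false false), .t 1 (nat_lit 0) (.g 9 14 0 10 18 false false), .t 1 (nat_lit 0) (.g 10 0 9 14 18 true true), .t 1 (nat_lit 0) (.g 10 0 9 14 18 true false), .t 1 (nat_lit 0) (.g 16 9 0 10 15 true false), .t 1 (nat_lit 0) (.g 16 10 0 9 15 true false),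 .t 1 (nat_lit 0) (.g 9 16 0 10 15 false false), .t 1 (nat_lit 0) (.g 9 15 0 10 16 false false), .t 1 (nat_lit 0) (.g 10 0 9 15 16 true true), .t 1 (nat_lit 0) (.g 9 17 0 10 15 false false), .t 1 (nat_lit 0) (.g 9 15 0 10 17 false false), .t 1 (nat_lit 0) (.g 18 10 0 9 15 true false), .t 1 (nat_lit 0) (.g 9 18 0 10 15 false false), .t 1 (nat_lit 0) (.g 9 15 0 10 18 false false), .t 1 (nat_lit 0) (.g 10 0 9 15 18 true true), .t 1 (nat_lit 0) (.g 17 10 0 9 16 true false), .t 1 (nat_lit 0) (.g 9 17 0 10 16 false false), .t 1 (nat_lit 0) (.g 9 16 0 10 17 false false), .t 1 (nat_lit 0) (.g 18 10 0 9 16 true false), .t 1 (nat_lit 0) (.g 9 18 0 10 16 false false), .t 1 (nat_lit 0) (.g 9 16 0 10 18 false false), .t 1 (nat_lit 0) (.g 17 9 0 10 18 false true), .t 1 (nat_lit 0) (.g 17 10 0 9 18 true true), .t 1 (nat_lit 0) (.g 18 9 0 10 17 true false), .t 1 (nat_lit 0) (.g 18 10 0 9 17 true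 false), .t 1 (nat_lit 0) (.g 9 18 0 10 17 false false), .t 1 (nat_lit 0) (.g 9 17 0 10 18 false false), .t 1 (nat_lit 0) (.g 10 0 9 17 18 true true), .t 1 (nat_lit 0) (.g 0 11 9 12 13 true true), .t 1 (nat_lit 0) (.g 0 11 9 12 14 true true), .t 1 (nat_lit 0) (.g 0 11 9 12 15 true true), .t 1 (nat_lit 0) (.g 0 11 9 12 16 true true), .t 1 (nat_lit 0) (.g 0 11 9 12 17 true true), .t 1 (nat_lit 0) (.g 0 11 9 12 18 true true), .t 1 (nat_lit 0) (.g 0 11 9 13 14 true true), .t 1 (nat_lit 0) (.g 0 11 9 13 15 true true), .t 1 (nat_lit 0) (.g 0 11 9 13 16 true true), .t 1 (nat_lit 0) (.g 0 11 9 13 17 true true), .t 1 (nat_lit 0) (.g 0 11 9 13 18 true true), .t 1 (nat_lit 0) (.g 0 11 9 14 15 true true), .t 1 (nat_lit 0) (.g 0 11 9 14 16 true true), .t 1 (nat_lit 0) (.g 0 11 9 14 17 true true), .t 1 (nat_lit 0) (.g 0 11 9 14 18 true true), .t 1 (nat_lit 0) (.g 0 11 9 15 16 true true), .t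 1 (nat_lit 0) (.g 0 11 9 15 17 true true), .t 1 (nat_lit 0) (.g 0 11 9 15 18 true true), .t 1 (nat_lit 0) (.g 0 11 9 16 17 true true), .t 1 (nat_lit 0) (.g 0 11 9 16 18 true true), .t 1 (nat_lit 0) (.g 0 11 9 17 18 true true), .t 1 (nat_lit 0) (.g 0 11 10 12 13 true true), .t 1 (nat_lit 0) (.g 0 11 10 12 14 true true), .t 1 (nat_lit 0) (.g 0 11 10 12 15 true true)] (by decide +kernel) (by decide +kernel)
theorem b71 : B 4544 4608 := Blk.of_chk [.t 1 (nat_lit 0) (.g 0 11 10 12 16 true true), .t 1 (nat_lit 0) (.g 0 11 10 12 18 true true), .t 1 (nat_lit 0) (.g 0 11 10 13 14 true true), .t 1 (nat_lit 0) (.g 0 11 10 13 15 true true), .t 1 (nat_lit 0) (.g 0 11 10 13 16 true true), .t 1 (nat_lit 0) (.g 0 11 10 13 17 true true), .t 1 (nat_lit 0) (.g 0 11 10 13 18 true true), .t 1 (nat_lit 0) (.g 0 11 10 14 15 true true), .t 1 (nat_lit 0) (.g 0 11 10 14 16 true true), .t 1 (nat_lit 0)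 (.g 0 11 10 14 17 true true), .t 1 (nat_lit 0) (.g 0 11 10 14 18 true true), .t 1 (nat_lit 0) (.g 0 11 10 15 16 true true), .t 1 (nat_lit 0) (.g 0 11 10 15 17 true true), .t 1 (nat_lit 0) (.g 0 11 10 15 18 true true), .t 1 (nat_lit 0) (.g 0 11 10 16 17 true true), .t 1 (nat_lit 0) (.g 0 11 10 16 18 true true), .t 1 (nat_lit 0) (.g 0 11 10 17 18 true true), .t 1 (nat_lit 0) (.g 0 11 10 12 17 true true), .t 1 (nat_lit 0) (.g 11 0 13 14 15 false true), .t 1 (nat_lit 0) (.g 14 11 0 13 15 false true), .t 1 (nat_lit 0) (.g 16 14 0 13 17 false true), .t 1 (nat_lit 0) (.g 13 0 15 16 17 false true), .t 1 (nat_lit 0) (.g 16 13 0 15 17 false true), .t 1 (nat_lit 0) (.g 13 0 14 15 16 false false), .t 1 (nat_lit 0) (.g 16 1 0 14 17 true true), .t 1 (nat_lit 0) (.g 18 15 0 1 14 false false), .t 1 (nat_lit 0) (.g 14 0 1 16 18 false true), .t 1 (nat_lit 0) (.g 14 0 15 16 18 false false), .t 1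 (nat_lit 0) (.g 16 15 0 14 18 false true), .t 1 (nat_lit 0) (.g 1 0 14 16 18 true false), .t 1 (nat_lit 0) (.g 17 14 0 1 16 false false), .t 1 (nat_lit 0) (.g 1 0 14 17 18 true false), .t 1 (nat_lit 0) (.g 14 11 0 4 13 false false), .t 1 (nat_lit 0) (.g 13 4 0 11 14 true true), .t 1 (nat_lit 0) (.g 6 14 0 3 7 false true), .t 1 (nat_lit 0) (.g 3 0 5 7 8 false true), .t 1 (nat_lit 0) (.g 3 0 5 6 7 false true), .t 1 (nat_lit 0) (.g 3 0 5 6 14 false false), .t 1 (nat_lit 0) (.g 6 0 3 5 14 true false), .t 1 (nat_lit 0) (.g 6 3 0 5 7 false true), .t 1 (nat_lit 0) (.g 11 0 1 2 12 false false), .t 1 (nat_lit 0) (.g 2 0 1 11 12 true true), .t 1 (nat_lit 0) (.g 13 11 0 12 15 false true), .t 1 (nat_lit 0) (.g 12 15 0 11 13 true true), .t 1 (nat_lit 0) (.g 11 0 12 14 15 false true), .t 1 (nat_lit 0) (.g 3 0 6 7 8 false true), .t 1 (nat_lit 0) (.g 3 0 5 6 7 false false), .t 1 (nat_lit 0) (.g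 5 0 6 8 9 false true), .t 1 (nat_lit 0) (.g 14 11 0 13 16 false true), .t 1 (nat_lit 0) (.g 13 16 0 11 14 true true), .t 1 (nat_lit 0) (.g 1 3 0 2 17 true false), .t 1 (nat_lit 0) (.g 5 3 0 2 6 false true), .t 1 (nat_lit 0) (.g 14 11 0 13 17 false true), .t 1 (nat_lit 0) (.g 17 11 0 14 18 false true), .t 1 (nat_lit 0) (.g 14 18 0 11 17 true true), .t 1 (nat_lit 0) (.g 11 0 13 14 18 false false), .t 1 (nat_lit 0) (.g 18 15 0 4 16 false false), .t 1 (nat_lit 0) (.g 16 4 0 15 18 true true), .t 1 (nat_lit 0) (.g 6 17 0 3 7 false true), .t 1 (nat_lit 0) (.g 3 0 5 6 17 false false), .t 1 (nat_lit 0) (.g 5 4 0 2 6 false true), .t 1 (nat_lit 0) (.g 1 0 16 17 18 true false), .t 1 (nat_lit 0) (.g 16 0 1 17 18 false true), .t 1 (nat_lit 0) (.g 16 15 0 4 17 false true)] (by decide +kernel) (by decide +kernel)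
theorem b72 : B 4608 4672 := Blk.of_chk [.t 1 (nat_lit 0) (.g 17 15 0 16 18 false true), .t 1 (nat_lit 0) (.g 16 18 0 15 17 true true), .t 1 (nat_lit 0) (.g 16 18 0 4 17 true true), .t 1 (nat_lit 0) (.g 4 18 0 15 16 true true), .t 1 (nat_lit 0) (.g 2 11 0 1 3 false true), .t 1 (nat_lit 0) (.g 3 0 2 11 12 true true), .t 1 (nat_lit 0) (.g 1 3 0 2 11 true false), .t 1 (nat_lit 0) (.g 11 0 1 3 12 false false), .t 1 (nat_lit 0) (.g 11 0 12 13 16 false true), .t 1 (nat_lit 0) (.g 13 11 0 12 16 false true), .t 1 (nat_lit 0) (.g 17 14 0 1 11 false false), .t 1 (nat_lit 0) (.g 14 0 1 15 17 false false), .t 1 (nat_lit 0) (.g 17 14 0 11 18 false true), .t 1 (nat_lit 0) (.g 11 0 13 14 16 false true), .t 1 (nat_lit 0) (.g 11 0 12 13 15 false true), .t 1 (nat_lit 0) (.g 18 14 0 1 11 false false), .t 1 (nat_lit 0) (.g 14 0 1 17 18 false false), .t 1 (nat_lit 0) (.g 14 0 16 17 18 false true),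 .t 1 (nat_lit 0) (.g 18 17 0 1 11 false false), .t 1 (nat_lit 0) (.g 14 11 0 1 13 false false), .t 1 (nat_lit 0) (.g 13 1 0 11 14 true true), .t 1 (nat_lit 0) (.g 4 0 5 8 10 false true), .t 1 (nat_lit 0) (.g 4 0 5 8 9 false true), .t 1 (nat_lit 0) (.g 4 5 0 9 18 true false), .t 1 (nat_lit 0) (.g 4 0 5 6 9 false false), .t 1 (nat_lit 0) (.g 18 0 4 6 9 false false), .t 1 (nat_lit 0) (.g 0 6 4 17 18 false true), .t 1 (nat_lit 0) (.g 4 5 0 8 18 true false), .t 1 (nat_lit 0) (.g 17 0 4 8 18 false true), .t 1 (nat_lit 0) (.g 8 0 6 17 18 true true), .t 1 (nat_lit 0) (.g 8 0 5 6 17 true true), .t 1 (nat_lit 0) (.g 17 0 6 8 18 false false), .t 1 (nat_lit 0) (.g 14 11 0 12 15 false true), .t 1 (nat_lit 0) (.g 15 14 0 12 17 false true), .t 1 (nat_lit 0) (.g 14 11 0 12 17 false true), .t 1 (nat_lit 0) (.g 12 0 13 14 15 false true), .t 1 (nat_lit 0) (.g 14 0 1 15 18 false true), .t 1 (nat_lit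 0) (.g 2 14 0 1 9 true true), .t 1 (nat_lit 0) (.g 2 5 0 9 14 true false), .t 1 (nat_lit 0) (.g 2 10 0 9 14 true false), .t 1 (nat_lit 0) (.g 6 3 0 1 7 false true), .t 1 (nat_lit 0) (.g 2 10 0 9 13 true false), .t 1 (nat_lit 0) (.g 13 0 2 10 14 false false), .t 1 (nat_lit 0) (.g 5 0 6 7 8 false true), .t 1 (nat_lit 0) (.g 7 0 6 13 14 true true), .t 1 (nat_lit 0) (.g 4 7 0 6 13 true false), .t 1 (nat_lit 0) (.g 13 0 4 7 14 false false), .t 1 (nat_lit 0) (.g 2 6 0 9 14 true false), .t 1 (nat_lit 0) (.g 2 10 0 9 15 true false), .t 1 (nat_lit 0) (.g 14 15 0 9 13 true false), .t 1 (nat_lit 0) (.g 15 14 0 9 13 false false), .t 1 (nat_lit 0) (.g 15 14 0 2 13 false false), .t 1 (nat_lit 0) (.g 17 0 4 5 18 false true), .t 1 (nat_lit 0) (.g 3 13 0 14 16 false true), .t 1 (nat_lit 0) (.g 16 0 3 13 15 true true), .t 1 (nat_lit 0) (.g 13 0 14 15 16 false true), .t 1 (nat_lit 0) (.g 16 14 0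 2 15 false false), .t 1 (nat_lit 0) (.g 17 18 0 2 14 true false), .t 1 (nat_lit 0) (.g 2 0 14 16 17 true false), .t 1 (nat_lit 0) (.g 18 17 0 2 14 false false), .t 1 (nat_lit 0) (.g 2 0 14 16 18 true false), .t 1 (nat_lit 0) (.g 15 2 0 14 16 true true), .t 1 (nat_lit 0) (.g 14 0 2 15 17 false true), .t 1 (nat_lit 0) (.g 17 14 0 1 15 false false)] (by decide +kernel) (by decide +kernel)
theorem b73 : B 4672 4736 := Blk.of_chk [.t 1 (nat_lit 0) (.g 15 1 0 14 17 true true), .t 1 (nat_lit 0) (.g 13 11 0 1 14 false true), .t 1 (nat_lit 0) (.g 1 0 12 13 14 false true), .t 1 (nat_lit 0) (.g 1 0 2 12 14 false true), .t 1 (nat_lit 0) (.g 14 0 1 2 13 true false), .t 1 (nat_lit 0) (.g 13 17 0 11 14 true true), .t 1 (nat_lit 0) (.g 10 18 0 16 17 true true), .t 1 (nat_lit 0) (.g 17 16 0 10 18 false true), .t 1 (nat_lit 0) (.g 2 6 0 9 18 true false), .t 1 (nat_lit 0) (.g 2 10 0 9 18 true false),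 .t 1 (nat_lit 0) (.g 1 4 0 3 11 true false), .t 1 (nat_lit 0) (.g 3 11 0 1 4 false true), .t 1 (nat_lit 0) (.g 13 0 1 3 14 false true), .t 1 (nat_lit 0) (.g 17 11 0 1 14 false false), .t 1 (nat_lit 0) (.g 14 1 0 11 17 true true), .t 1 (nat_lit 0) (.g 16 13 0 15 18 false true), .t 1 (nat_lit 0) (.g 13 0 14 16 18 false false), .t 1 (nat_lit 0) (.g 15 18 0 13 16 true true), .t 1 (nat_lit 0) (.g 13 0 14 15 18 false false), .t 1 (nat_lit 0) (.g 16 14 0 13 18 false true), .t 1 (nat_lit 0) (.g 17 18 0 7 16 true false), .t 1 (nat_lit 0) (.g 18 17 0 7 16 false false), .t 1 (nat_lit 0) (.g 13 11 0 12 14 false true), .t 1 (nat_lit 0) (.g 11 0 12 13 16 false false), .t 1 (nat_lit 0) (.g 13 14 0 1 12 true false), .t 1 (nat_lit 0) (.g 14 13 0 1 12 false false), .t 1 (nat_lit 0) (.g 13 0 14 15 17 false false), .t 1 (nat_lit 0) (.g 15 14 0 11 17 false true), .t 1 (nat_lit 0) (.g 1 0 2 9 14 false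 false), .t 1 (nat_lit 0) (.g 15 11 0 12 16 false true), .t 1 (nat_lit 0) (.g 11 0 13 15 16 false false), .t 1 (nat_lit 0) (.g 15 13 0 11 16 false true), .t 1 (nat_lit 0) (.g 15 11 0 2 12 false false), .t 1 (nat_lit 0) (.g 11 0 2 13 15 false false), .t 1 (nat_lit 0) (.g 2 0 11 13 15 true true), .t 1 (nat_lit 0) (.g 14 0 1 3 18 false false), .t 1 (nat_lit 0) (.g 5 15 0 3 10 false true), .t 1 (nat_lit 0) (.g 3 0 5 9 15 false true), .t 1 (nat_lit 0) (.g 17 4 0 6 16 true false), .t 1 (nat_lit 0) (.g 11 0 15 16 17 false true), .t 1 (nat_lit 0) (.g 16 11 0 15 17 false true), .t 1 (nat_lit 0) (.g 14 12 0 4 13 false false), .t 1 (nat_lit 0) (.g 13 4 0 12 14 true true), .t 1 (nat_lit 0) (.g 12 4 0 11 13 true true), .t 1 (nat_lit 0) (.g 4 0 11 12 14 true false), .t 1 (nat_lit 0) (.g 13 15 0 11 14 true true), .t 1 (nat_lit 0) (.g 5 3 0 1 7 false true), .t 1 (nat_lit 0) (.g 2 10 0 9 17 true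 false), .t 1 (nat_lit 0) (.g 17 0 2 9 18 false true), .t 1 (nat_lit 0) (.g 12 13 0 1 14 true true), .t 1 (nat_lit 0) (.g 13 12 0 1 14 false true), .t 1 (nat_lit 0) (.g 17 0 4 6 18 false true), .t 1 (nat_lit 0) (.g 3 0 4 5 17 false true), .t 1 (nat_lit 0) (.g 3 0 4 8 17 false true), .t 1 (nat_lit 0) (.g 5 4 0 3 8 false true), .t 1 (nat_lit 0) (.g 3 0 5 6 8 false false), .t 1 (nat_lit 0) (.g 6 5 0 3 8 false true), .t 1 (nat_lit 0) (.g 3 4 0 5 17 true false), .t 1 (nat_lit 0) (.g 17 0 3 4 18 false false), .t 1 (nat_lit 0) (.g 17 14 0 16 18 false true), .t 1 (nat_lit 0) (.g 3 4 0 5 16 true false), .t 1 (nat_lit 0) (.g 16 0 3 4 17 false false), .t 1 (nat_lit 0) (.g 3 0 5 6 8 false true), .t 1 (nat_lit 0) (.g 3 6 0 5 16 true false)] (by decide +kernel) (by decide +kernel)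
theorem b74 : B 4736 4800 := Blk.of_chk [.t 1 (nat_lit 0) (.g 3 8 0 5 16 true false), .t 1 (nat_lit 0) (.g 6 3 0 5 8 false true), .t 1 (nat_lit 0) (.g 3 4 0 6 16 true false), .t 1 (nat_lit 0) (.g 3 5 0 6 16 true false), .t 1 (nat_lit 0) (.g 3 8 0 6 16 true false), .t 1 (nat_lit 0) (.g 1 11 0 2 12 false false), .t 1 (nat_lit 0) (.g 11 0 1 2 13 false false), .t 1 (nat_lit 0) (.g 11 0 1 12 13 false true), .t 1 (nat_lit 0) (.g 2 0 1 11 13 true true), .t 1 (nat_lit 0) (.g 15 14 0 12 16 false true), .t 1 (nat_lit 0) (.g 14 11 0 12 16 false true), .t 1 (nat_lit 0) (.g 1 0 11 17 18 true false), .t 1 (nat_lit 0) (.g 11 0 1 17 18 false true), .t 1 (nat_lit 0) (.g 14 11 0 13 18 false true), .t 1 (nat_lit 0) (.g 13 18 0 11 14 true true), .t 1 (nat_lit 0) (.g 4 7 0 6 18 true false), .t 1 (nat_lit 0) (.g 2 3 0 4 16 true false), .t 1 (nat_lit 0) (.g 16 0 2 3 18 false false), .t 1 (nat_lit 0)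 (.g 3 0 2 16 18 true true), .t 1 (nat_lit 0) (.g 18 16 0 1 17 false false), .t 1 (nat_lit 0) (.g 17 1 0 16 18 true true), .t 1 (nat_lit 0) (.g 2 16 0 1 9 true true), .t 1 (nat_lit 0) (.g 2 6 0 9 16 true false), .t 1 (nat_lit 0) (.g 2 10 0 9 16 true false), .t 1 (nat_lit 0) (.g 5 1 0 2 7 false true), .t 1 (nat_lit 0) (.g 1 0 5 6 7 false true), .t 1 (nat_lit 0) (.g 6 1 0 5 7 false true), .t 1 (nat_lit 0) (.g 3 13 0 14 15 false true), .t 1 (nat_lit 0) (.g 15 13 0 3 16 false true), .t 1 (nat_lit 0) (.g 15 14 0 1 16 false true), .t 1 (nat_lit 0) (.g 16 14 0 15 17 false true), .t 1 (nat_lit 0) (.g 15 17 0 14 16 true true), .t 1 (nat_lit 0) (.g 15 17 0 1 16 true true), .t 1 (nat_lit 0) (.g 1 17 0 14 15 true true), .t 1 (nat_lit 0) (.g 15 13 0 14 16 false true), .t 1 (nat_lit 0) (.g 14 16 0 13 15 true true), .t 1 (nat_lit 0) (.g 16 0 3 5 15 true false), .t 1 (nat_lit 0) (.g 3 0 5 15 16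 false true), .t 1 (nat_lit 0) (.g 14 15 0 13 17 true true), .t 1 (nat_lit 0) (.g 13 0 14 16 17 false false), .t 1 (nat_lit 0) (.g 15 14 0 13 17 false true), .t 1 (nat_lit 0) (.g 13 0 15 16 17 false false), .t 1 (nat_lit 0) (.g 16 15 0 13 17 false true), .t 1 (nat_lit 0) (.g 17 14 0 3 15 false false), .t 1 (nat_lit 0) (.g 3 14 0 4 17 false false), .t 1 (nat_lit 0) (.g 17 4 0 3 15 true false), .t 1 (nat_lit 0) (.g 17 14 0 4 15 false false), .t 1 (nat_lit 0) (.g 15 4 0 14 17 true true), .t 1 (nat_lit 0) (.g 3 4 0 6 14 true false), .t 1 (nat_lit 0) (.g 3 13 0 4 14 false false), .t 1 (nat_lit 0) (.g 13 0 3 4 14 false false), .t 1 (nat_lit 0) (.g 16 0 4 5 17 false true), .t 1 (nat_lit 0) (.g 4 5 0 8 17 true false), .t 1 (nat_lit 0) (.g 16 0 4 8 17 false true), .t 1 (nat_lit 0) (.g 16 0 6 8 17 false false), .t 1 (nat_lit 0) (.g 8 0 5 6 16 true true), .t 1 (nat_lit 0) (.g 14 15 0 13 18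 true true), .t 1 (nat_lit 0) (.g 15 14 0 13 18 false true), .t 1 (nat_lit 0) (.g 13 0 15 16 18 false false), .t 1 (nat_lit 0) (.g 16 15 0 13 18 false true), .t 1 (nat_lit 0) (.g 13 15 0 11 16 true true), .t 1 (nat_lit 0) (.g 15 16 0 11 18 true true), .t 1 (nat_lit 0) (.g 11 0 13 15 18 false true), .t 1 (nat_lit 0) (.g 11 0 12 15 18 false true)] (by decide +kernel) (by decide +kernel)
theorem b75 : B 4800 4864 := Blk.of_chk [.t 1 (nat_lit 0) (.g 16 15 0 11 18 false true), .t 1 (nat_lit 0) (.g 11 0 12 16 18 false true), .t 1 (nat_lit 0) (.g 16 11 0 12 18 false true), .t 1 (nat_lit 0) (.g 13 14 0 12 15 true true), .t 1 (nat_lit 0) (.g 12 0 2 13 15 false true), .t 1 (nat_lit 0) (.g 14 13 0 12 15 false true), .t 1 (nat_lit 0) (.g 15 0 2 12 14 true true), .t 1 (nat_lit 0) (.g 11 0 12 13 15 false false), .t 1 (nat_lit 0) (.g 15 11 0 12 17 false true), .t 1 (nat_lit 0) (.g 11 0 13 15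 17 false false), .t 1 (nat_lit 0) (.g 15 13 0 11 17 false true), .t 1 (nat_lit 0) (.g 12 0 13 14 15 false false), .t 1 (nat_lit 0) (.g 12 14 0 1 3 true true), .t 1 (nat_lit 0) (.g 1 0 2 3 12 false false), .t 1 (nat_lit 0) (.g 0 3 1 12 14 false true), .t 1 (nat_lit 0) (.g 14 12 0 1 3 false true), .t 1 (nat_lit 0) (.g 15 0 3 13 14 true true), .t 1 (nat_lit 0) (.g 18 16 0 7 17 false false), .t 1 (nat_lit 0) (.g 17 7 0 16 18 true true), .t 1 (nat_lit 0) (.g 7 6 0 1 18 false true), .t 1 (nat_lit 0) (.g 13 16 0 11 18 true true), .t 1 (nat_lit 0) (.g 16 18 0 1 13 true false), .t 1 (nat_lit 0) (.g 13 16 0 1 11 true false), .t 1 (nat_lit 0) (.g 16 13 0 11 18 false true), .t 1 (nat_lit 0) (.g 18 16 0 1 13 false false), .t 1 (nat_lit 0) (.g 1 0 11 13 18 true true), .t 1 (nat_lit 0) (.g 1 0 11 12 18 true false), .t 1 (nat_lit 0) (.g 11 0 6 7 14 false false), .t 1 (nat_lit 0) (.g 17 18 0 2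 16 true false), .t 1 (nat_lit 0) (.g 18 17 0 2 16 false false), .t 1 (nat_lit 0) (.g 16 17 0 2 15 true false), .t 1 (nat_lit 0) (.g 2 0 15 16 18 true true), .t 1 (nat_lit 0) (.g 13 0 4 6 14 false false), .t 1 (nat_lit 0) (.g 11 0 15 16 17 false false), .t 1 (nat_lit 0) (.g 16 15 0 11 17 false true), .t 1 (nat_lit 0) (.g 17 15 0 2 16 false false), .t 1 (nat_lit 0) (.g 1 3 0 2 15 true false), .t 1 (nat_lit 0) (.g 2 0 1 15 17 true false), .t 1 (nat_lit 0) (.g 2 3 0 5 17 true false), .t 1 (nat_lit 0) (.g 0 5 2 16 17 false true), .t 1 (nat_lit 0) (.g 16 2 0 15 17 true true), .t 1 (nat_lit 0) (.g 15 0 1 2 16 false true), .t 1 (nat_lit 0) (.g 11 0 13 15 16 false true), .t 1 (nat_lit 0) (.g 15 11 0 13 16 false true), .t 1 (nat_lit 0) (.g 11 0 12 15 16 false true), .t 1 (nat_lit 0) (.g 4 0 13 14 15 true false), .t 1 (nat_lit 0) (.g 13 0 4 14 15 false true), .t 1 (nat_lit 0) (.g 0 2 1 12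 13 false true), .t 1 (nat_lit 0) (.g 1 6 0 2 13 true false), .t 1 (nat_lit 0) (.g 12 0 1 2 13 false true), .t 1 (nat_lit 0) (.g 14 11 0 3 12 false false), .t 1 (nat_lit 0) (.g 11 0 3 13 14 false false), .t 1 (nat_lit 0) (.g 11 0 12 13 14 false true), .t 1 (nat_lit 0) (.g 3 0 11 13 14 true true), .t 1 (nat_lit 0) (.g 1 0 3 12 14 false true), .t 1 (nat_lit 0) (.g 14 0 1 3 13 true false), .t 1 (nat_lit 0) (.g 13 11 0 12 17 false true), .t 1 (nat_lit 0) (.g 12 17 0 11 13 true true), .t 1 (nat_lit 0) (.g 2 5 0 9 16 true false), .t 1 (nat_lit 0) (.g 7 5 0 1 18 false true), .t 1 (nat_lit 0) (.g 15 16 0 14 18 true true), .t 1 (nat_lit 0) (.g 14 0 15 17 18 false false), .t 1 (nat_lit 0) (.g 14 0 16 17 18 false false), .t 1 (nat_lit 0) (.g 17 16 0 14 18 false true)] (by decide +kernel) (by decide +kernel)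
theorem b76 : B 4864 4928 := Blk.of_chk [.t 1 (nat_lit 0) (.g 1 4 0 3 18 true false), .t 1 (nat_lit 0) (.g 1 3 0 2 16 true false), .t 1 (nat_lit 0) (.g 2 0 1 16 18 true false), .t 1 (nat_lit 0) (.g 16 0 1 2 18 false true), .t 1 (nat_lit 0) (.g 16 18 0 14 17 true true), .t 1 (nat_lit 0) (.g 2 0 15 16 17 true true), .t 1 (nat_lit 0) (.g 16 0 1 2 17 false true), .t 1 (nat_lit 0) (.g 15 0 2 16 17 false false), .t 1 (nat_lit 0) (.g 12 14 0 11 13 true true), .t 1 (nat_lit 0) (.g 18 0 4 7 17 true false), .t 1 (nat_lit 0) (.g 16 14 0 1 15 false false), .t 1 (nat_lit 0) (.g 1 14 0 16 18 false true), .t 1 (nat_lit 0) (.g 1 4 0 3 15 true false), .t 1 (nat_lit 0) (.g 0 4 1 14 15 false true), .t 1 (nat_lit 0) (.g 14 0 1 4 15 false false), .t 1 (nat_lit 0) (.g 0 4 3 14 15 false true), .t 1 (nat_lit 0) (.g 3 14 0 4 15 false false), .t 1 (nat_lit 0) (.g 2 5 0 9 18 true false), .t 1 (nat_lit 0)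 (.g 16 1 0 15 17 true true), .t 1 (nat_lit 0) (.g 1 0 15 16 18 true false), .t 1 (nat_lit 0) (.g 14 0 1 15 16 false false), .t 1 (nat_lit 0) (.g 4 0 16 17 18 false false), .t 1 (nat_lit 0) (.g 17 16 0 4 18 false true), .t 1 (nat_lit 0) (.g 17 18 0 2 15 true false), .t 1 (nat_lit 0) (.g 15 0 2 16 17 false true), .t 1 (nat_lit 0) (.g 18 17 0 2 15 false false), .t 1 (nat_lit 0) (.g 2 0 15 16 18 true false), .t 1 (nat_lit 0) (.g 13 11 0 1 15 false true), .t 1 (nat_lit 0) (.g 1 0 12 13 15 false true), .t 1 (nat_lit 0) (.g 16 11 0 14 17 false true), .t 1 (nat_lit 0) (.g 17 11 0 16 18 false true), .t 1 (nat_lit 0) (.g 16 18 0 11 17 true true), .t 1 (nat_lit 0) (.g 11 0 14 16 18 false false), .t 1 (nat_lit 0) (.g 10 0 16 17 18 true false), .t 1 (nat_lit 0) (.g 16 0 10 17 18 false true), .t 1 (nat_lit 0) (.g 0 2 1 16 17 false true), .t 1 (nat_lit 0) (.g 15 13 0 12 18 false true), .t 1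 (nat_lit 0) (.g 12 0 14 15 18 false true), .t 1 (nat_lit 0) (.g 15 12 0 14 18 false true), .t 1 (nat_lit 0) (.g 6 1 0 2 7 false true), .t 1 (nat_lit 0) (.g 1 0 5 6 7 false false), .t 1 (nat_lit 0) (.g 6 5 0 1 7 false true), .t 1 (nat_lit 0) (.g 11 0 14 16 17 false false), .t 1 (nat_lit 0) (.g 16 14 0 11 17 false true), .t 1 (nat_lit 0) (.g 16 0 4 6 18 false true), .t 1 (nat_lit 0) (.g 5 16 0 6 17 false false), .t 1 (nat_lit 0) (.g 16 0 5 6 18 false false), .t 1 (nat_lit 0) (.g 16 0 5 17 18 false true), .t 1 (nat_lit 0) (.g 6 0 4 5 16 true true), .t 1 (nat_lit 0) (.g 0 4 6 16 18 true true), .t 1 (nat_lit 0) (.g 6 18 0 4 16 true true), .t 1 (nat_lit 0) (.g 17 4 0 16 18 false true), .t 1 (nat_lit 0) (.g 17 7 0 16 18 false true), .t 1 (nat_lit 0) (.g 16 18 0 7 17 true true), .t 1 (nat_lit 0) (.g 13 0 15 16 18 false true), .t 1 (nat_lit 0) (.g 17 18 0 2 11 true false), .t 1 (nat_lit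 0) (.g 11 0 2 12 17 false true), .t 1 (nat_lit 0) (.g 18 17 0 2 11 false false), .t 1 (nat_lit 0) (.g 2 0 11 12 18 true false), .t 1 (nat_lit 0) (.g 15 14 0 11 16 false true), .t 1 (nat_lit 0) (.g 4 18 0 7 17 true false), .t 1 (nat_lit 0) (.g 7 17 0 4 18 false true), .t 1 (nat_lit 0) (.g 17 18 0 4 16 true false), .t 1 (nat_lit 0) (.g 18 17 0 4 16 false false)] (by decide +kernel) (by decide +kernel)
theorem b77 : B 4928 4992 := Blk.of_chk [.t 1 (nat_lit 0) (.g 4 0 3 16 18 true true), .t 1 (nat_lit 0) (.g 13 11 0 12 18 false true), .t 1 (nat_lit 0) (.g 12 18 0 11 13 true true), .t 1 (nat_lit 0) (.g 17 18 0 9 16 true false), .t 1 (nat_lit 0) (.g 16 0 6 9 17 false false), .t 1 (nat_lit 0) (.g 18 17 0 9 16 false false), .t 1 (nat_lit 0) (.g 1 0 14 15 18 true true), .t 1 (nat_lit 0) (.g 14 0 1 15 18 false false), .t 1 (nat_lit 0) (.g 12 16 0 11 13 true true), .t 1 (nat_lit 0) (.g 18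 16 0 10 17 false false), .t 1 (nat_lit 0) (.g 17 10 0 16 18 true true), .t 1 (nat_lit 0) (.g 3 16 0 4 14 false false), .t 1 (nat_lit 0) (.g 14 0 3 4 16 false true), .t 1 (nat_lit 0) (.g 2 3 0 4 15 true false), .t 1 (nat_lit 0) (.g 14 0 2 3 16 false false), .t 1 (nat_lit 0) (.g 14 0 2 15 16 false true), .t 1 (nat_lit 0) (.g 2 14 0 4 15 false false), .t 1 (nat_lit 0) (.g 1 0 14 16 17 true false), .t 1 (nat_lit 0) (.g 14 0 1 16 17 false true), .t 1 (nat_lit 0) (.g 1 4 0 3 17 true false), .t 1 (nat_lit 0) (.g 1 11 0 14 15 false true), .t 1 (nat_lit 0) (.g 11 0 1 14 15 false true), .t 1 (nat_lit 0) (.g 11 0 13 14 15 false false), .t 1 (nat_lit 0) (.g 2 3 0 6 18 true false), .t 1 (nat_lit 0) (.g 3 0 4 5 15 false true), .t 1 (nat_lit 0) (.g 15 11 0 13 18 false true), .t 1 (nat_lit 0) (.g 11 0 14 15 18 false false), .t 1 (nat_lit 0) (.g 15 14 0 11 18 false true), .t 1 (nat_lit 0) (.g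 17 0 4 7 18 false false), .t 1 (nat_lit 0) (.g 7 0 4 17 18 true true), .t 1 (nat_lit 0) (.g 2 3 0 4 11 true false), .t 1 (nat_lit 0) (.g 11 0 2 4 12 false true), .t 1 (nat_lit 0) (.g 3 2 0 4 11 false false), .t 1 (nat_lit 0) (.g 4 0 3 11 12 true false), .t 1 (nat_lit 0) (.g 2 5 0 9 15 true false), .t 1 (nat_lit 0) (.g 17 18 0 3 5 true true), .t 1 (nat_lit 0) (.g 18 17 0 3 5 false true), .t 1 (nat_lit 0) (.g 14 11 0 4 12 false false), .t 1 (nat_lit 0) (.g 12 4 0 11 14 true true), .t 1 (nat_lit 0) (.g 17 0 1 3 18 false true), .t 1 (nat_lit 0) (.g 13 14 0 4 12 true false), .t 1 (nat_lit 0) (.g 14 13 0 4 12 false false), .t 1 (nat_lit 0) (.g 1 4 0 3 12 true false), .t 1 (nat_lit 0) (.g 12 0 1 4 13 false false), .t 1 (nat_lit 0) (.g 12 16 0 11 15 true true), .t 1 (nat_lit 0) (.g 1 3 0 2 14 true false), .t 1 (nat_lit 0) (.g 13 0 1 2 14 false true), .t 1 (nat_lit 0) (.g 1 3 0 2 18 true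 false), .t 1 (nat_lit 0) (.g 6 0 3 4 16 true true), .t 1 (nat_lit 0) (.g 6 0 2 4 16 true true), .t 1 (nat_lit 0) (.g 6 0 2 5 16 true false), .t 1 (nat_lit 0) (.g 1 7 0 2 14 true false), .t 1 (nat_lit 0) (.g 15 16 0 2 6 true true), .t 1 (nat_lit 0) (.g 2 0 5 6 15 false false), .t 1 (nat_lit 0) (.g 0 6 2 15 16 false true), .t 1 (nat_lit 0) (.g 16 15 0 2 6 false true), .t 1 (nat_lit 0) (.g 11 0 3 4 13 false true), .t 1 (nat_lit 0) (.g 2 3 0 4 12 true false), .t 1 (nat_lit 0) (.g 11 0 2 3 13 false false), .t 1 (nat_lit 0) (.g 11 0 2 12 13 false true), .t 1 (nat_lit 0) (.g 11 0 1 12 14 false true), .t 1 (nat_lit 0) (.g 14 0 1 11 12 true true), .t 1 (nat_lit 0) (.g 14 17 0 13 18 true true), .t 1 (nat_lit 0) (.g 17 14 0 13 18 false true)] (by decide +kernel) (by decide +kernel)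
theorem b78 : B 4992 5056 := Blk.of_chk [.t 1 (nat_lit 0) (.g 3 10 0 9 16 true false), .t 1 (nat_lit 0) (.g 15 0 3 9 16 false true), .t 1 (nat_lit 0) (.g 18 16 0 4 17 false false), .t 1 (nat_lit 0) (.g 17 4 0 16 18 true true), .t 1 (nat_lit 0) (.g 3 0 4 10 17 false true), .t 1 (nat_lit 0) (.g 2 13 0 6 12 false false), .t 1 (nat_lit 0) (.g 2 6 0 9 13 true false), .t 1 (nat_lit 0) (.g 12 0 2 9 13 false true), .t 1 (nat_lit 0) (.g 11 0 12 13 17 false false), .t 1 (nat_lit 0) (.g 1 0 13 14 17 true true), .t 1 (nat_lit 0) (.g 13 0 1 14 17 false false), .t 1 (nat_lit 0) (.g 13 0 1 3 14 false false), .t 1 (nat_lit 0) (.g 1 4 0 3 13 true false), .t 1 (nat_lit 0) (.g 11 0 1 4 13 false false), .t 1 (nat_lit 0) (.g 11 0 1 3 13 false false), .t 1 (nat_lit 0) (.g 0 4 1 3 13 false true), .t 1 (nat_lit 0) (.g 3 11 0 4 13 false false), .t 1 (nat_lit 0) (.g 4 16 0 14 15 true true), .t 1 (nat_lit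 0) (.g 15 14 0 4 16 false true), .t 1 (nat_lit 0) (.g 18 0 10 16 17 true true), .t 1 (nat_lit 0) (.g 6 0 3 5 17 true false), .t 1 (nat_lit 0) (.g 13 18 0 11 15 true true), .t 1 (nat_lit 0) (.g 18 15 0 1 16 false false), .t 1 (nat_lit 0) (.g 15 0 1 17 18 false false), .t 1 (nat_lit 0) (.g 15 0 16 17 18 false true), .t 1 (nat_lit 0) (.g 1 0 15 17 18 true true), .t 1 (nat_lit 0) (.g 16 1 0 15 18 true true), .t 1 (nat_lit 0) (.g 15 1 0 14 16 true true), .t 1 (nat_lit 0) (.g 1 0 14 15 18 true false), .t 1 (nat_lit 0) (.g 1 0 14 17 18 true true), .t 1 (nat_lit 0) (.g 14 0 1 15 17 false true), .t 1 (nat_lit 0) (.g 16 14 0 1 11 false false), .t 1 (nat_lit 0) (.g 16 17 0 2 14 true false), .t 1 (nat_lit 0) (.g 17 16 0 2 14 false false), .t 1 (nat_lit 0) (.g 2 0 14 15 17 true false), .t 1 (nat_lit 0) (.g 11 0 12 13 18 false true), .t 1 (nat_lit 0) (.g 1 0 16 17 18 true true), .t 1 (nat_lit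 0) (.g 16 0 1 17 18 false false), .t 1 (nat_lit 0) (.g 13 15 0 11 17 true true), .t 1 (nat_lit 0) (.g 11 0 12 13 17 false true), .t 1 (nat_lit 0) (.g 11 0 12 15 17 false true), .t 1 (nat_lit 0) (.g 18 14 0 1 16 false false), .t 1 (nat_lit 0) (.g 16 1 0 14 18 true true), .t 1 (nat_lit 0) (.g 11 0 14 15 16 false false), .t 1 (nat_lit 0) (.g 13 0 6 7 14 false false), .t 1 (nat_lit 0) (.g 11 0 13 14 17 false true), .t 1 (nat_lit 0) (.g 7 4 0 6 18 false true), .t 1 (nat_lit 0) (.g 13 16 0 11 15 true true), .t 1 (nat_lit 0) (.g 17 15 0 1 16 false false), .t 1 (nat_lit 0) (.g 1 15 0 17 18 false true), .t 1 (nat_lit 0) (.g 15 0 1 17 18 false true), .t 1 (nat_lit 0) (.g 15 0 16 17 18 false false), .t 1 (nat_lit 0) (.g 18 14 0 1 15 false false), .t 1 (nat_lit 0) (.g 14 0 15 17 18 false true), .t 1 (nat_lit 0) (.g 17 15 0 14 18 false true), .t 1 (nat_lit 0) (.g 14 17 0 1 13 true false),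 .t 1 (nat_lit 0) (.g 13 0 1 14 18 false false), .t 1 (nat_lit 0) (.g 16 11 0 12 17 false true), .t 1 (nat_lit 0) (.g 11 0 13 16 17 false false), .t 1 (nat_lit 0) (.g 16 13 0 11 17 false true), .t 1 (nat_lit 0) (.g 13 14 0 12 16 true true), .t 1 (nat_lit 0) (.g 12 0 13 15 16 false false), .t 1 (nat_lit 0) (.g 14 13 0 12 16 false true), .t 1 (nat_lit 0) (.g 12 0 14 15 16 false false)] (by decide +kernel) (by decide +kernel)
theorem b79 : B 5056 5120 := Blk.of_chk [.t 1 (nat_lit 0) (.g 6 0 3 4 15 true true), .t 1 (nat_lit 0) (.g 6 0 3 5 15 true false), .t 1 (nat_lit 0) (.g 3 4 0 6 11 true false), .t 1 (nat_lit 0) (.g 4 3 0 6 11 false false), .t 1 (nat_lit 0) (.g 16 4 0 15 17 true true), .t 1 (nat_lit 0) (.g 4 0 15 16 18 true false), .t 1 (nat_lit 0) (.g 2 16 0 1 3 false true), .t 1 (nat_lit 0) (.g 17 18 0 3 16 true false), .t 1 (nat_lit 0) (.g 18 17 0 3 16 false false), .t 1 (nat_lit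 0) (.g 16 0 1 3 17 false false), .t 1 (nat_lit 0) (.g 18 14 0 1 17 false false), .t 1 (nat_lit 0) (.g 1 0 14 16 18 true true), .t 1 (nat_lit 0) (.g 17 1 0 14 18 true true), .t 1 (nat_lit 0) (.g 14 0 1 16 17 false false), .t 1 (nat_lit 0) (.g 15 0 2 4 16 false true), .t 1 (nat_lit 0) (.g 0 4 2 3 15 false true), .t 1 (nat_lit 0) (.g 17 14 0 15 18 false true), .t 1 (nat_lit 0) (.g 0 8 5 6 18 false true), .t 1 (nat_lit 0) (.g 0 6 5 17 18 false true), .t 1 (nat_lit 0) (.g 0 8 5 7 17 false true), .t 1 (nat_lit 0) (.g 6 7 0 8 17 true false), .t 1 (nat_lit 0) (.g 5 18 0 7 17 false false), .t 1 (nat_lit 0) (.g 7 0 5 6 17 true true), .t 1 (nat_lit 0) (.g 17 0 5 6 7 false false), .t 1 (nat_lit 0) (.g 6 5 0 8 17 false false), .t 1 (nat_lit 0) (.g 17 0 5 7 18 false true), .t 1 (nat_lit 0) (.g 17 0 6 7 18 false false), .t 1 (nat_lit 0) (.g 2 3 0 5 18 true false), .t 1 (nat_lit 0) (.g 3 15 0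 4 14 false false), .t 1 (nat_lit 0) (.g 0 4 2 3 16 false true), .t 1 (nat_lit 0) (.g 16 3 0 2 14 true false), .t 1 (nat_lit 0) (.g 14 0 3 15 16 false false), .t 1 (nat_lit 0) (.g 12 0 3 13 14 false true), .t 1 (nat_lit 0) (.g 14 0 3 12 13 true true), .t 1 (nat_lit 0) (.g 13 0 1 4 14 false false), .t 1 (nat_lit 0) (.g 13 16 0 11 17 true true), .t 1 (nat_lit 0) (.g 16 17 0 11 18 true true), .t 1 (nat_lit 0) (.g 11 0 13 16 18 false true), .t 1 (nat_lit 0) (.g 17 16 0 11 18 false true), .t 1 (nat_lit 0) (.g 11 0 12 17 18 false true), .t 1 (nat_lit 0) (.g 17 11 0 12 18 false true), .t 1 (nat_lit 0) (.g 5 0 6 7 9 false true), .t 1 (nat_lit 0) (.g 16 18 0 2 15 true false), .t 1 (nat_lit 0) (.g 18 16 0 2 15 false false), .t 1 (nat_lit 0) (.g 18 16 0 1 15 false false), .t 1 (nat_lit 0) (.g 5 0 4 13 14 true false), .t 1 (nat_lit 0) (.g 13 0 4 5 14 false true), .t 1 (nat_lit 0) (.g 13 14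 0 10 12 true false), .t 1 (nat_lit 0) (.g 14 13 0 10 12 false false), .t 1 (nat_lit 0) (.g 10 0 9 12 14 true true), .t 1 (nat_lit 0) (.g 2 10 0 9 12 true false), .t 1 (nat_lit 0) (.g 12 0 2 10 13 false false), .t 1 (nat_lit 0) (.g 8 10 0 9 18 true false), .t 1 (nat_lit 0) (.g 17 0 8 9 18 false true), .t 1 (nat_lit 0) (.g 14 12 0 7 13 false false), .t 1 (nat_lit 0) (.g 13 7 0 12 14 true true), .t 1 (nat_lit 0) (.g 12 7 0 11 13 true true), .t 1 (nat_lit 0) (.g 7 0 11 12 14 true false), .t 1 (nat_lit 0) (.g 14 16 0 9 13 true false), .t 1 (nat_lit 0) (.g 16 14 0 9 13 false false), .t 1 (nat_lit 0) (.g 16 14 0 2 13 false false), .t 1 (nat_lit 0) (.g 18 15 0 1 17 false false), .t 1 (nat_lit 0) (.g 17 1 0 15 18 true true), .t 1 (nat_lit 0) (.g 17 11 0 1 13 false false)] (by decide +kernel) (by decide +kernel)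
theorem b80 : B 5120 5184 := Blk.of_chk [.t 1 (nat_lit 0) (.g 13 1 0 11 17 true true), .t 1 (nat_lit 0) (.g 16 0 7 17 18 false true), .t 1 (nat_lit 0) (.g 18 0 7 16 17 true true), .t 1 (nat_lit 0) (.g 11 0 12 16 17 false true), .t 1 (nat_lit 0) (.g 15 1 0 14 18 true true), .t 1 (nat_lit 0) (.g 6 7 0 8 15 true false), .t 1 (nat_lit 0) (.g 5 17 0 7 15 false false), .t 1 (nat_lit 0) (.g 15 0 5 6 7 false false), .t 1 (nat_lit 0) (.g 6 5 0 8 15 false false), .t 1 (nat_lit 0) (.g 15 0 5 7 17 false true), .t 1 (nat_lit 0) (.g 15 0 6 7 17 false false), .t 1 (nat_lit 0) (.g 15 0 4 17 18 false true), .t 1 (nat_lit 0) (.g 17 15 0 4 18 false true), .t 1 (nat_lit 0) (.g 0 4 2 3 18 false true), .t 1 (nat_lit 0) (.g 18 2 0 3 15 true false), .t 1 (nat_lit 0) (.g 0 4 3 15 18 false true), .t 1 (nat_lit 0) (.g 15 0 3 4 16 false true), .t 1 (nat_lit 0) (.g 0 4 2 15 18 false true), .t 1 (nat_lit 0)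 (.g 2 3 0 4 18 true false), .t 1 (nat_lit 0) (.g 2 18 0 4 15 false false), .t 1 (nat_lit 0) (.g 15 0 2 4 18 false true), .t 1 (nat_lit 0) (.g 15 0 4 16 18 false true), .t 1 (nat_lit 0) (.g 15 17 0 13 16 true true), .t 1 (nat_lit 0) (.g 1 5 0 2 13 true false), .t 1 (nat_lit 0) (.g 4 7 0 5 18 true false), .t 1 (nat_lit 0) (.g 5 18 0 4 7 false true), .t 1 (nat_lit 0) (.g 18 11 0 1 16 false false), .t 1 (nat_lit 0) (.g 16 1 0 11 18 true true), .t 1 (nat_lit 0) (.g 13 11 0 1 3 false true), .t 1 (nat_lit 0) (.g 1 0 3 12 13 false true), .t 1 (nat_lit 0) (.g 13 11 0 3 12 false false), .t 1 (nat_lit 0) (.g 0 11 3 12 13 true true), .t 1 (nat_lit 0) (.g 12 3 0 11 13 true true), .t 1 (nat_lit 0) (.g 7 5 0 3 18 false true), .t 1 (nat_lit 0) (.g 13 11 0 4 12 false false), .t 1 (nat_lit 0) (.g 4 11 0 13 15 false true), .t 1 (nat_lit 0) (.g 11 0 4 13 15 false true), .t 1 (nat_lit 0) (.g 5 8 0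 9 17 true false), .t 1 (nat_lit 0) (.g 17 0 5 8 18 false false), .t 1 (nat_lit 0) (.g 0 5 8 16 18 true true), .t 1 (nat_lit 0) (.g 16 18 0 5 8 true true), .t 1 (nat_lit 0) (.g 5 0 6 8 16 false false), .t 1 (nat_lit 0) (.g 2 12 0 1 3 false true), .t 1 (nat_lit 0) (.g 13 14 0 3 12 true false), .t 1 (nat_lit 0) (.g 3 0 2 12 13 true true), .t 1 (nat_lit 0) (.g 14 13 0 3 12 false false), .t 1 (nat_lit 0) (.g 3 0 2 12 14 true true), .t 1 (nat_lit 0) (.g 1 3 0 2 12 true false), .t 1 (nat_lit 0) (.g 12 0 1 3 13 false false), .t 1 (nat_lit 0) (.g 18 13 0 1 14 false false), .t 1 (nat_lit 0) (.g 14 1 0 13 18 true true), .t 1 (nat_lit 0) (.g 1 0 11 13 18 true false), .t 1 (nat_lit 0) (.g 1 0 11 17 18 true true), .t 1 (nat_lit 0) (.g 16 15 0 3 17 false true), .t 1 (nat_lit 0) (.g 16 18 0 3 17 true true), .t 1 (nat_lit 0) (.g 3 18 0 15 16 true true), .t 1 (nat_lit 0) (.g 16 11 0 1 13 false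 false), .t 1 (nat_lit 0) (.g 13 1 0 11 16 true true), .t 1 (nat_lit 0) (.g 3 15 0 16 17 false true), .t 1 (nat_lit 0) (.g 15 0 3 16 17 false true), .t 1 (nat_lit 0) (.g 17 15 0 3 18 false true), .t 1 (nat_lit 0) (.g 13 17 0 2 11 true false), .t 1 (nat_lit 0) (.g 17 13 0 2 11 false false), .t 1 (nat_lit 0) (.g 2 0 11 12 17 true false)] (by decide +kernel) (by decide +kernel)
theorem b81 : B 5184 5248 := Blk.of_chk [.t 1 (nat_lit 0) (.g 9 0 10 17 18 false true), .t 1 (nat_lit 0) (.g 18 0 9 10 17 true false), .t 1 (nat_lit 0) (.g 13 11 0 1 12 false false), .t 1 (nat_lit 0) (.g 12 1 0 11 13 true true), .t 1 (nat_lit 0) (.g 8 0 6 7 14 true true), .t 1 (nat_lit 0) (.g 16 17 0 2 13 true false), .t 1 (nat_lit 0) (.g 13 16 0 2 11 true false), .t 1 (nat_lit 0) (.g 17 16 0 2 13 false false), .t 1 (nat_lit 0) (.g 2 0 11 13 17 true true), .t 1 (nat_lit 0) (.g 0 2 1 15 17 false true), .t 1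 (nat_lit 0) (.g 15 0 1 2 17 false true), .t 1 (nat_lit 0) (.g 2 0 1 15 16 true false), .t 1 (nat_lit 0) (.g 1 6 0 2 17 true false), .t 1 (nat_lit 0) (.g 18 16 0 2 17 false false), .t 1 (nat_lit 0) (.g 17 2 0 16 18 true true), .t 1 (nat_lit 0) (.g 0 8 5 6 16 false true), .t 1 (nat_lit 0) (.g 0 8 5 7 16 false true), .t 1 (nat_lit 0) (.g 6 17 0 7 16 false false), .t 1 (nat_lit 0) (.g 5 7 0 8 16 true false), .t 1 (nat_lit 0) (.g 16 0 5 6 7 false true), .t 1 (nat_lit 0) (.g 16 0 5 6 17 false false), .t 1 (nat_lit 0) (.g 6 0 5 16 17 true true), .t 1 (nat_lit 0) (.g 7 0 5 6 16 true false), .t 1 (nat_lit 0) (.g 9 18 0 10 17 true false), .t 1 (nat_lit 0) (.g 10 17 0 9 18 false true), .t 1 (nat_lit 0) (.g 18 15 0 2 16 false false), .t 1 (nat_lit 0) (.g 2 0 1 15 18 true false), .t 1 (nat_lit 0) (.g 0 5 2 16 18 false true), .t 1 (nat_lit 0) (.g 16 2 0 15 18 true true), .t 1 (nat_lit 0) (.g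 3 11 0 13 14 false true), .t 1 (nat_lit 0) (.g 11 0 3 13 14 false true), .t 1 (nat_lit 0) (.g 11 0 12 13 14 false false), .t 1 (nat_lit 0) (.g 1 4 0 3 14 true false), .t 1 (nat_lit 0) (.g 6 0 2 4 15 true true), .t 1 (nat_lit 0) (.g 6 0 2 5 15 true false), .t 1 (nat_lit 0) (.g 17 3 0 1 16 true false), .t 1 (nat_lit 0) (.g 17 15 0 4 16 false false), .t 1 (nat_lit 0) (.g 17 15 0 3 16 false false), .t 1 (nat_lit 0) (.g 7 5 0 3 17 false true), .t 1 (nat_lit 0) (.g 3 0 5 7 17 false true), .t 1 (nat_lit 0) (.g 15 14 0 13 16 false true), .t 1 (nat_lit 0) (.g 11 0 3 14 15 false true), .t 1 (nat_lit 0) (.g 15 0 3 11 14 true true), .t 1 (nat_lit 0) (.g 0 6 2 3 15 false true), .t 1 (nat_lit 0) (.g 2 0 3 15 16 false true), .t 1 (nat_lit 0) (.g 7 6 0 1 17 false true), .t 1 (nat_lit 0) (.g 2 0 1 16 17 true false), .t 1 (nat_lit 0) (.g 7 18 0 16 17 true true), .t 1 (nat_lit 0) (.g 17 16 0 7 18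 false true), .t 1 (nat_lit 0) (.g 3 4 0 6 17 true false), .t 1 (nat_lit 0) (.g 2 12 0 3 14 false false), .t 1 (nat_lit 0) (.g 12 0 2 3 14 false false), .t 1 (nat_lit 0) (.g 12 0 3 13 14 false false), .t 1 (nat_lit 0) (.g 4 5 0 6 18 true false), .t 1 (nat_lit 0) (.g 18 17 0 6 16 false false), .t 1 (nat_lit 0) (.g 18 17 0 5 16 false false), .t 1 (nat_lit 0) (.g 5 18 0 6 16 false false), .t 1 (nat_lit 0) (.g 17 18 0 6 16 true false), .t 1 (nat_lit 0) (.g 3 11 0 13 15 false true), .t 1 (nat_lit 0) (.g 11 0 3 13 15 false true), .t 1 (nat_lit 0) (.g 0 5 1 2 12 false true), .t 1 (nat_lit 0) (.g 2 12 0 1 5 false true), .t 1 (nat_lit 0) (.g 13 14 0 5 12 true false), .t 1 (nat_lit 0) (.g 5 0 2 12 13 true true)] (by decide +kernel) (by decide +kernel)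
theorem b82 : B 5248 5312 := Blk.of_chk [.t 1 (nat_lit 0) (.g 14 13 0 5 12 false false), .t 1 (nat_lit 0) (.g 5 0 2 12 14 true true), .t 1 (nat_lit 0) (.g 1 5 0 2 12 true false), .t 1 (nat_lit 0) (.g 12 0 1 5 13 false false), .t 1 (nat_lit 0) (.g 2 5 0 9 13 true false), .t 1 (nat_lit 0) (.g 7 6 0 3 18 false true), .t 1 (nat_lit 0) (.g 3 0 6 7 18 false true), .t 1 (nat_lit 0) (.g 3 12 0 4 14 false false), .t 1 (nat_lit 0) (.g 12 0 3 4 14 false false), .t 1 (nat_lit 0) (.g 12 0 4 13 14 false false), .t 1 (nat_lit 0) (.g 0 5 2 3 17 false true), .t 1 (nat_lit 0) (.g 17 0 2 3 18 false false), .t 1 (nat_lit 0) (.g 3 4 0 5 11 true false), .t 1 (nat_lit 0) (.g 4 3 0 5 11 false false), .t 1 (nat_lit 0) (.g 5 4 0 6 11 false false), .t 1 (nat_lit 0) (.g 12 0 2 3 13 false false), .t 1 (nat_lit 0) (.g 4 0 16 17 18 true false), .t 1 (nat_lit 0) (.g 16 0 4 17 18 false true), .t 1 (nat_lit 0)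 (.g 17 0 9 10 18 false false), .t 1 (nat_lit 0) (.g 1 0 2 12 15 false true), .t 1 (nat_lit 0) (.g 15 0 1 2 13 true false), .t 1 (nat_lit 0) (.g 14 17 0 11 16 true true), .t 1 (nat_lit 0) (.g 0 8 5 6 17 false true), .t 1 (nat_lit 0) (.g 6 18 0 7 17 false false), .t 1 (nat_lit 0) (.g 5 7 0 8 17 true false), .t 1 (nat_lit 0) (.g 17 0 5 6 7 false true), .t 1 (nat_lit 0) (.g 17 0 5 6 18 false false), .t 1 (nat_lit 0) (.g 6 0 5 17 18 true true), .t 1 (nat_lit 0) (.g 7 0 5 6 17 true false), .t 1 (nat_lit 0) (.g 0 5 2 15 16 false true), .t 1 (nat_lit 0) (.g 1 3 0 5 16 true false), .t 1 (nat_lit 0) (.g 0 5 1 15 16 false true), .t 1 (nat_lit 0) (.g 1 5 0 2 15 true false), .t 1 (nat_lit 0) (.g 15 0 2 16 18 false false), .t 1 (nat_lit 0) (.g 2 0 11 12 13 true false), .t 1 (nat_lit 0) (.g 16 17 0 4 18 true true), .t 1 (nat_lit 0) (.g 0 4 6 7 18 true true), .t 1 (nat_lit 0) (.g 4 0 6 16 18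 false true), .t 1 (nat_lit 0) (.g 1 13 0 11 12 true true), .t 1 (nat_lit 0) (.g 12 11 0 1 13 false true), .t 1 (nat_lit 0) (.g 14 1 0 13 16 true true), .t 1 (nat_lit 0) (.g 1 0 13 14 18 true false), .t 1 (nat_lit 0) (.g 14 1 0 11 16 true true), .t 1 (nat_lit 0) (.g 1 0 11 14 18 true false), .t 1 (nat_lit 0) (.g 11 0 1 13 14 false false), .t 1 (nat_lit 0) (.g 16 0 4 5 18 false true), .t 1 (nat_lit 0) (.g 5 0 4 16 17 true false), .t 1 (nat_lit 0) (.g 6 13 0 7 14 false false), .t 1 (nat_lit 0) (.g 15 18 0 14 17 true true), .t 1 (nat_lit 0) (.g 1 14 0 15 18 false true), .t 1 (nat_lit 0) (.g 0 4 2 3 17 false true), .t 1 (nat_lit 0) (.g 2 3 0 4 17 true false), .t 1 (nat_lit 0) (.g 3 0 2 17 18 true true), .t 1 (nat_lit 0) (.g 16 0 4 6 17 false true), .t 1 (nat_lit 0) (.g 4 6 0 8 17 true false), .t 1 (nat_lit 0) (.g 16 0 5 8 17 false false), .t 1 (nat_lit 0) (.g 8 0 5 6 16 true false),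 .t 1 (nat_lit 0) (.g 2 3 0 5 12 true false), .t 1 (nat_lit 0) (.g 2 4 0 5 12 true false), .t 1 (nat_lit 0) (.g 11 0 2 3 12 false false), .t 1 (nat_lit 0) (.g 18 11 0 1 17 false false), .t 1 (nat_lit 0) (.g 17 1 0 11 18 true true), .t 1 (nat_lit 0) (.g 15 11 0 14 18 false true), .t 1 (nat_lit 0) (.g 14 18 0 11 15 true true)] (by decide +kernel) (by decide +kernel)
theorem b83 : B 5312 5376 := Blk.of_chk [.t 1 (nat_lit 0) (.g 7 13 0 8 14 false false), .t 1 (nat_lit 0) (.g 13 0 7 8 14 false false), .t 1 (nat_lit 0) (.g 17 18 0 10 16 true false), .t 1 (nat_lit 0) (.g 16 0 2 10 17 false false), .t 1 (nat_lit 0) (.g 18 17 0 10 16 false false), .t 1 (nat_lit 0) (.g 10 0 2 16 18 true true), .t 1 (nat_lit 0) (.g 2 3 0 5 11 true false), .t 1 (nat_lit 0) (.g 11 0 2 5 12 false true), .t 1 (nat_lit 0) (.g 4 2 0 5 11 false false), .t 1 (nat_lit 0) (.g 5 0 4 11 12 true false), .t 1 (nat_lit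 0) (.g 0 6 7 16 17 true true), .t 1 (nat_lit 0) (.g 1 0 14 15 17 true false), .t 1 (nat_lit 0) (.g 17 18 0 1 14 true false), .t 1 (nat_lit 0) (.g 18 17 0 1 14 false false), .t 1 (nat_lit 0) (.g 6 17 0 7 15 false false), .t 1 (nat_lit 0) (.g 5 7 0 8 15 true false), .t 1 (nat_lit 0) (.g 15 0 5 6 7 false true), .t 1 (nat_lit 0) (.g 15 0 5 6 17 false false), .t 1 (nat_lit 0) (.g 6 0 5 15 17 true true), .t 1 (nat_lit 0) (.g 7 0 5 6 15 true false), .t 1 (nat_lit 0) (.g 11 0 15 16 18 false false), .t 1 (nat_lit 0) (.g 12 14 0 3 11 true false), .t 1 (nat_lit 0) (.g 14 12 0 3 11 false false), .t 1 (nat_lit 0) (.g 3 0 2 11 14 true true), .t 1 (nat_lit 0) (.g 17 11 0 4 14 false false), .t 1 (nat_lit 0) (.g 14 4 0 11 17 true true), .t 1 (nat_lit 0) (.g 17 11 0 3 14 false false), .t 1 (nat_lit 0) (.g 13 17 0 1 11 true false), .t 1 (nat_lit 0) (.g 18 11 0 1 12 false false), .t 1 (nat_lit 0)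 (.g 11 0 1 13 18 false false), .t 1 (nat_lit 0) (.g 17 13 0 1 11 false false), .t 1 (nat_lit 0) (.g 4 0 6 8 9 false true), .t 1 (nat_lit 0) (.g 16 0 6 17 18 false true), .t 1 (nat_lit 0) (.g 5 4 0 6 16 false false), .t 1 (nat_lit 0) (.g 6 0 5 16 17 true false), .t 1 (nat_lit 0) (.g 15 11 0 14 17 false true), .t 1 (nat_lit 0) (.g 14 17 0 11 15 true true), .t 1 (nat_lit 0) (.g 11 0 14 16 17 false true), .t 1 (nat_lit 0) (.g 0 1 3 13 14 true true), .t 1 (nat_lit 0) (.g 0 1 3 12 14 true true), .t 1 (nat_lit 0) (.g 12 13 0 1 3 true true), .t 1 (nat_lit 0) (.g 17 0 2 10 18 false false), .t 1 (nat_lit 0) (.g 3 17 0 15 16 true true), .t 1 (nat_lit 0) (.g 1 6 0 2 14 true false), .t 1 (nat_lit 0) (.g 3 0 4 6 18 false true), .t 1 (nat_lit 0) (.g 17 14 0 2 16 false false), .t 1 (nat_lit 0) (.g 0 2 1 14 15 false true), .t 1 (nat_lit 0) (.g 1 15 0 2 14 false false), .t 1 (nat_lit 0) (.g 14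 0 1 2 15 false true), .t 1 (nat_lit 0) (.g 2 0 14 15 17 true true), .t 1 (nat_lit 0) (.g 2 0 1 14 17 true false), .t 1 (nat_lit 0) (.g 16 2 0 14 17 true true), .t 1 (nat_lit 0) (.g 14 0 1 2 16 false true), .t 1 (nat_lit 0) (.g 3 4 0 5 18 true false), .t 1 (nat_lit 0) (.g 3 0 12 13 14 true true), .t 1 (nat_lit 0) (.g 0 4 1 14 17 false true), .t 1 (nat_lit 0) (.g 14 0 1 4 17 false false), .t 1 (nat_lit 0) (.g 0 4 3 14 17 false true), .t 1 (nat_lit 0) (.g 14 15 0 13 16 true true), .t 1 (nat_lit 0) (.g 11 0 1 2 17 false true), .t 1 (nat_lit 0) (.g 2 0 1 11 12 true false), .t 1 (nat_lit 0) (.g 6 16 0 3 10 false true), .t 1 (nat_lit 0) (.g 3 0 6 9 16 false true), .t 1 (nat_lit 0) (.g 9 0 10 17 18 false false)] (by decide +kernel) (by decide +kernel)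
theorem b84 : B 5376 5440 := Blk.of_chk [.t 1 (nat_lit 0) (.g 18 0 9 10 17 true true), .t 1 (nat_lit 0) (.g 13 0 2 14 16 false true), .t 1 (nat_lit 0) (.g 16 0 2 13 15 true true), .t 1 (nat_lit 0) (.g 7 4 0 6 16 false true), .t 1 (nat_lit 0) (.g 16 0 4 7 15 true false), .t 1 (nat_lit 0) (.g 4 0 6 15 16 false true), .t 1 (nat_lit 0) (.g 13 11 0 1 16 false true), .t 1 (nat_lit 0) (.g 1 0 12 13 16 false true), .t 1 (nat_lit 0) (.g 1 0 2 12 16 false true), .t 1 (nat_lit 0) (.g 15 13 0 1 16 false true), .t 1 (nat_lit 0) (.g 16 0 1 2 15 true false), .t 1 (nat_lit 0) (.g 17 18 0 10 14 true false), .t 1 (nat_lit 0) (.g 14 0 2 10 17 false false), .t 1 (nat_lit 0) (.g 18 17 0 10 14 false false), .t 1 (nat_lit 0) (.g 10 0 2 14 18 true true), .t 1 (nat_lit 0) (.g 12 0 2 4 15 false true), .t 1 (nat_lit 0) (.g 0 4 2 3 12 false true), .t 1 (nat_lit 0) (.g 4 0 3 12 15 true false), .t 1 (nat_lit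 0) (.g 6 8 0 10 16 true false), .t 1 (nat_lit 0) (.g 0 3 5 7 17 true true), .t 1 (nat_lit 0) (.g 7 5 0 8 17 false false), .t 1 (nat_lit 0) (.g 17 5 0 3 7 true true), .t 1 (nat_lit 0) (.g 3 0 6 7 17 false false), .t 1 (nat_lit 0) (.g 12 0 3 4 13 false false), .t 1 (nat_lit 0) (.g 17 4 0 5 16 true false), .t 1 (nat_lit 0) (.g 11 0 14 15 16 false true), .t 1 (nat_lit 0) (.g 15 11 0 14 16 false true), .t 1 (nat_lit 0) (.g 15 17 0 11 16 true true), .t 1 (nat_lit 0) (.g 4 7 0 6 17 true false), .t 1 (nat_lit 0) (.g 2 12 0 14 15 false true), .t 1 (nat_lit 0) (.g 15 0 2 12 13 true true), .t 1 (nat_lit 0) (.g 12 0 2 14 15 false true), .t 1 (nat_lit 0) (.g 0 3 1 12 13 false true), .t 1 (nat_lit 0) (.g 13 12 0 1 3 false true), .t 1 (nat_lit 0) (.g 1 0 15 16 18 true true), .t 1 (nat_lit 0) (.g 15 0 1 16 17 false false), .t 1 (nat_lit 0) (.g 4 11 0 14 15 false true), .t 1 (nat_lit 0) (.g 11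 0 4 14 15 false true), .t 1 (nat_lit 0) (.g 2 13 0 3 11 false false), .t 1 (nat_lit 0) (.g 11 0 2 3 13 false true), .t 1 (nat_lit 0) (.g 2 3 0 4 13 true false), .t 1 (nat_lit 0) (.g 2 13 0 4 11 false false), .t 1 (nat_lit 0) (.g 11 0 2 4 13 false true), .t 1 (nat_lit 0) (.g 11 0 4 12 13 false true), .t 1 (nat_lit 0) (.g 0 4 2 3 13 false true), .t 1 (nat_lit 0) (.g 1 3 0 5 18 true false), .t 1 (nat_lit 0) (.g 12 14 0 1 16 true true), .t 1 (nat_lit 0) (.g 14 12 0 1 16 false true), .t 1 (nat_lit 0) (.g 16 0 1 2 14 true false), .t 1 (nat_lit 0) (.g 0 4 3 15 17 false true), .t 1 (nat_lit 0) (.g 17 3 0 1 15 true false), .t 1 (nat_lit 0) (.g 15 3 0 14 17 true true), .t 1 (nat_lit 0) (.g 0 4 1 15 17 false true), .t 1 (nat_lit 0) (.g 15 0 1 4 17 false false), .t 1 (nat_lit 0) (.g 15 14 0 1 17 false true), .t 1 (nat_lit 0) (.g 15 18 0 1 17 true true), .t 1 (nat_lit 0) (.g 1 18 0 14 15 true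 true), .t 1 (nat_lit 0) (.g 11 0 2 4 13 false false), .t 1 (nat_lit 0) (.g 4 0 2 11 13 true true), .t 1 (nat_lit 0) (.g 3 15 0 16 18 false true), .t 1 (nat_lit 0) (.g 18 0 3 15 17 true true), .t 1 (nat_lit 0) (.g 15 0 3 16 18 false true), .t 1 (nat_lit 0) (.g 17 18 0 10 15 true false), .t 1 (nat_lit 0) (.g 15 0 2 10 17 false false)] (by decide +kernel) (by decide +kernel)
theorem b85 : B 5440 5504 := Blk.of_chk [.t 1 (nat_lit 0) (.g 18 17 0 10 15 false false), .t 1 (nat_lit 0) (.g 4 7 0 5 13 true false), .t 1 (nat_lit 0) (.g 11 0 1 2 12 false true), .t 1 (nat_lit 0) (.g 0 4 1 3 14 false true), .t 1 (nat_lit 0) (.g 13 0 2 9 14 false true), .t 1 (nat_lit 0) (.g 7 18 0 8 16 false false), .t 1 (nat_lit 0) (.g 6 7 0 9 16 true false), .t 1 (nat_lit 0) (.g 16 0 6 7 18 false false), .t 1 (nat_lit 0) (.g 14 0 1 16 18 false false), .t 1 (nat_lit 0) (.g 1 3 0 2 13 true false), .t 1 (nat_lit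 0) (.g 3 4 0 6 18 true false), .t 1 (nat_lit 0) (.g 7 6 0 8 16 false false), .t 1 (nat_lit 0) (.g 3 7 0 5 16 true false), .t 1 (nat_lit 0) (.g 16 0 3 6 7 false true), .t 1 (nat_lit 0) (.g 7 0 16 17 18 false false), .t 1 (nat_lit 0) (.g 16 0 3 4 15 true true), .t 1 (nat_lit 0) (.g 4 7 0 5 14 true false), .t 1 (nat_lit 0) (.g 1 18 0 11 12 true true), .t 1 (nat_lit 0) (.g 12 11 0 1 18 false true), .t 1 (nat_lit 0) (.g 6 7 0 8 12 true false), .t 1 (nat_lit 0) (.g 7 0 3 6 12 true true), .t 1 (nat_lit 0) (.g 12 0 3 6 7 false false), .t 1 (nat_lit 0) (.g 6 3 0 8 12 false false), .t 1 (nat_lit 0) (.g 12 0 3 7 14 false true), .t 1 (nat_lit 0) (.g 12 0 6 7 14 false false), .t 1 (nat_lit 0) (.g 13 0 9 14 16 false false), .t 1 (nat_lit 0) (.g 9 0 13 15 16 true true), .t 1 (nat_lit 0) (.g 4 15 0 17 18 false true), .t 1 (nat_lit 0) (.g 16 4 0 7 18 false true), .t 1 (nat_lit 0) (.g 0 4 7 16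 18 true true), .t 1 (nat_lit 0) (.g 7 18 0 4 16 true true), .t 1 (nat_lit 0) (.g 17 18 0 3 6 true true), .t 1 (nat_lit 0) (.g 18 17 0 3 6 false true), .t 1 (nat_lit 0) (.g 0 3 5 15 16 true true), .t 1 (nat_lit 0) (.g 15 16 0 3 5 true true), .t 1 (nat_lit 0) (.g 16 15 0 3 5 false true), .t 1 (nat_lit 0) (.g 12 15 0 1 16 true true), .t 1 (nat_lit 0) (.g 15 12 0 1 16 false true), .t 1 (nat_lit 0) (.g 4 0 15 17 18 true false), .t 1 (nat_lit 0) (.g 18 13 0 1 15 false false), .t 1 (nat_lit 0) (.g 1 0 13 14 18 true true), .t 1 (nat_lit 0) (.g 17 14 0 1 13 false false), .t 1 (nat_lit 0) (.g 1 0 13 17 18 true true), .t 1 (nat_lit 0) (.g 15 1 0 13 18 true true), .t 1 (nat_lit 0) (.g 13 0 1 14 15 false false), .t 1 (nat_lit 0) (.g 16 4 0 5 18 false true), .t 1 (nat_lit 0) (.g 0 4 5 16 18 true true), .t 1 (nat_lit 0) (.g 5 18 0 4 16 true true), .t 1 (nat_lit 0) (.g 11 0 1 2 13 false true),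 .t 1 (nat_lit 0) (.g 4 0 5 6 8 false true), .t 1 (nat_lit 0) (.g 1 4 0 3 16 true false), .t 1 (nat_lit 0) (.g 16 0 1 3 17 false true), .t 1 (nat_lit 0) (.g 7 4 0 5 18 false true), .t 1 (nat_lit 0) (.g 7 0 5 13 14 true true), .t 1 (nat_lit 0) (.g 14 16 0 11 15 true true), .t 1 (nat_lit 0) (.g 11 0 13 14 16 false false), .t 1 (nat_lit 0) (.g 2 3 0 9 12 true false), .t 1 (nat_lit 0) (.g 6 7 0 8 14 true false), .t 1 (nat_lit 0) (.g 7 6 0 8 14 false false), .t 1 (nat_lit 0) (.g 17 11 0 13 18 false true), .t 1 (nat_lit 0) (.g 13 18 0 11 17 true true), .t 1 (nat_lit 0) (.g 1 0 11 12 13 true false), .t 1 (nat_lit 0) (.g 16 11 0 2 12 false false), .t 1 (nat_lit 0) (.g 11 0 2 13 16 false false)] (by decide +kernel) (by decide +kernel)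
theorem b86 : B 5504 5568 := Blk.of_chk [.t 1 (nat_lit 0) (.g 2 0 11 13 16 true true), .t 1 (nat_lit 0) (.g 7 6 0 3 17 false true), .t 1 (nat_lit 0) (.g 13 15 0 11 18 true true), .t 1 (nat_lit 0) (.g 15 13 0 11 18 false true), .t 1 (nat_lit 0) (.g 15 11 0 12 18 false true), .t 1 (nat_lit 0) (.g 0 4 1 16 17 false true), .t 1 (nat_lit 0) (.g 16 0 1 4 17 false false), .t 1 (nat_lit 0) (.g 0 4 3 16 17 false true), .t 1 (nat_lit 0) (.g 2 0 16 17 18 true true), .t 1 (nat_lit 0) (.g 1 18 0 3 14 true false), .t 1 (nat_lit 0) (.g 3 14 0 1 18 false true), .t 1 (nat_lit 0) (.g 3 1 0 2 15 false true), .t 1 (nat_lit 0) (.g 1 0 2 3 15 false false), .t 1 (nat_lit 0) (.g 4 0 16 17 18 true true), .t 1 (nat_lit 0) (.g 16 0 4 17 18 false false), .t 1 (nat_lit 0) (.g 1 14 0 17 18 false true), .t 1 (nat_lit 0) (.g 14 0 1 17 18 false true), .t 1 (nat_lit 0) (.g 4 0 6 8 10 false true), .t 1 (nat_lit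 0) (.g 18 0 5 6 9 false true), .t 1 (nat_lit 0) (.g 6 0 4 5 18 true true), .t 1 (nat_lit 0) (.g 18 0 4 5 6 false false), .t 1 (nat_lit 0) (.g 16 15 0 12 17 false true), .t 1 (nat_lit 0) (.g 12 0 13 15 16 false true), .t 1 (nat_lit 0) (.g 1 0 15 17 18 true false), .t 1 (nat_lit 0) (.g 4 16 0 17 18 false true), .t 1 (nat_lit 0) (.g 17 0 1 4 18 false true), .t 1 (nat_lit 0) (.g 4 0 5 6 8 false false), .t 1 (nat_lit 0) (.g 16 17 0 15 18 true true), .t 1 (nat_lit 0) (.g 17 16 0 15 18 false true), .t 1 (nat_lit 0) (.g 17 13 0 1 14 false false), .t 1 (nat_lit 0) (.g 14 1 0 13 17 true true), .t 1 (nat_lit 0) (.g 1 0 11 13 17 true false), .t 1 (nat_lit 0) (.g 11 0 1 13 18 false true), .t 1 (nat_lit 0) (.g 9 0 13 15 16 true false), .t 1 (nat_lit 0) (.g 13 0 9 15 16 false true), .t 1 (nat_lit 0) (.g 14 15 0 1 16 true true), .t 1 (nat_lit 0) (.g 1 0 2 14 16 false true), .t 1 (nat_lit 0) (.g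 17 11 0 1 12 false false), .t 1 (nat_lit 0) (.g 12 1 0 11 17 true true), .t 1 (nat_lit 0) (.g 11 0 1 4 14 false false), .t 1 (nat_lit 0) (.g 11 0 1 3 14 false false), .t 1 (nat_lit 0) (.g 3 11 0 4 14 false false), .t 1 (nat_lit 0) (.g 17 13 0 16 18 false true), .t 1 (nat_lit 0) (.g 16 18 0 13 17 true true), .t 1 (nat_lit 0) (.g 18 14 0 4 15 false false), .t 1 (nat_lit 0) (.g 15 4 0 14 18 true true), .t 1 (nat_lit 0) (.g 2 6 0 9 15 true false), .t 1 (nat_lit 0) (.g 15 16 0 3 18 true true), .t 1 (nat_lit 0) (.g 16 15 0 3 18 false true), .t 1 (nat_lit 0) (.g 3 0 16 17 18 false false), .t 1 (nat_lit 0) (.g 17 16 0 3 18 false true), .t 1 (nat_lit 0) (.g 14 11 0 3 13 false false), .t 1 (nat_lit 0) (.g 15 16 0 3 12 true false), .t 1 (nat_lit 0) (.g 12 15 0 1 3 true true), .t 1 (nat_lit 0) (.g 0 3 1 12 15 false true), .t 1 (nat_lit 0) (.g 16 15 0 3 12 false false), .t 1 (nat_lit 0) (.g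 3 0 1 12 16 true true), .t 1 (nat_lit 0) (.g 14 0 15 16 17 false true), .t 1 (nat_lit 0) (.g 0 6 5 15 16 false true), .t 1 (nat_lit 0) (.g 0 8 5 7 15 false true), .t 1 (nat_lit 0) (.g 5 15 0 7 16 false false), .t 1 (nat_lit 0) (.g 5 6 0 7 16 true false), .t 1 (nat_lit 0) (.g 15 0 5 7 16 false false), .t 1 (nat_lit 0) (.g 15 0 6 7 16 false true)] (by decide +kernel) (by decide +kernel)
theorem b87 : B 5568 5632 := Blk.of_chk [.t 1 (nat_lit 0) (.g 2 14 0 10 16 false false), .t 1 (nat_lit 0) (.g 14 0 2 16 17 false true), .t 1 (nat_lit 0) (.g 2 18 0 1 5 true true), .t 1 (nat_lit 0) (.g 0 5 3 4 13 false true), .t 1 (nat_lit 0) (.g 3 4 0 5 13 true false), .t 1 (nat_lit 0) (.g 5 3 0 2 16 false true), .t 1 (nat_lit 0) (.g 5 3 0 1 16 false true), .t 1 (nat_lit 0) (.g 6 0 2 5 16 true true), .t 1 (nat_lit 0) (.g 10 0 7 8 18 true false), .t 1 (nat_lit 0) (.g 12 18 0 11 17 true true), .t 1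 (nat_lit 0) (.g 1 6 0 7 14 true false), .t 1 (nat_lit 0) (.g 6 1 0 7 14 false false), .t 1 (nat_lit 0) (.g 3 0 1 12 13 true true), .t 1 (nat_lit 0) (.g 7 13 0 14 15 false true), .t 1 (nat_lit 0) (.g 13 0 7 14 15 false true), .t 1 (nat_lit 0) (.g 16 17 0 7 18 true true), .t 1 (nat_lit 0) (.g 1 18 0 2 17 false false), .t 1 (nat_lit 0) (.g 17 0 1 2 18 false true), .t 1 (nat_lit 0) (.g 4 0 3 11 14 true true), .t 1 (nat_lit 0) (.g 15 0 1 16 18 false true), .t 1 (nat_lit 0) (.g 3 16 0 13 14 true true), .t 1 (nat_lit 0) (.g 15 3 0 14 16 false true), .t 1 (nat_lit 0) (.g 10 8 0 9 18 false true), .t 1 (nat_lit 0) (.g 0 8 9 10 18 true true), .t 1 (nat_lit 0) (.g 17 14 0 2 15 false false), .t 1 (nat_lit 0) (.g 16 18 0 2 14 true false), .t 1 (nat_lit 0) (.g 2 0 14 16 17 true true), .t 1 (nat_lit 0) (.g 18 16 0 2 14 false false), .t 1 (nat_lit 0) (.g 2 0 14 17 18 true false), .t 1 (nat_lit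 0) (.g 15 2 0 14 17 true true), .t 1 (nat_lit 0) (.g 4 13 0 14 15 false true), .t 1 (nat_lit 0) (.g 13 16 0 9 12 true false), .t 1 (nat_lit 0) (.g 9 0 12 13 15 true true), .t 1 (nat_lit 0) (.g 16 13 0 9 12 false false), .t 1 (nat_lit 0) (.g 9 0 12 15 16 true false), .t 1 (nat_lit 0) (.g 12 0 9 15 16 false true), .t 1 (nat_lit 0) (.g 16 11 0 14 18 false true), .t 1 (nat_lit 0) (.g 14 18 0 11 16 true true), .t 1 (nat_lit 0) (.g 5 0 6 7 15 false true), .t 1 (nat_lit 0) (.g 7 5 0 6 15 false true), .t 1 (nat_lit 0) (.g 2 14 0 1 5 true true), .t 1 (nat_lit 0) (.g 2 3 0 5 14 true false), .t 1 (nat_lit 0) (.g 0 1 3 12 13 true true), .t 1 (nat_lit 0) (.g 15 4 0 14 16 true true), .t 1 (nat_lit 0) (.g 4 0 14 15 17 true false), .t 1 (nat_lit 0) (.g 15 13 0 2 16 false true), .t 1 (nat_lit 0) (.g 16 14 0 12 17 false true), .t 1 (nat_lit 0) (.g 12 0 15 16 17 false true), .t 1 (nat_lit 0) (.g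 16 12 0 15 17 false true), .t 1 (nat_lit 0) (.g 14 6 0 7 13 true false), .t 1 (nat_lit 0) (.g 7 14 0 8 13 false false), .t 1 (nat_lit 0) (.g 14 6 0 8 13 true false), .t 1 (nat_lit 0) (.g 1 11 0 12 13 false true), .t 1 (nat_lit 0) (.g 11 0 1 2 18 false true), .t 1 (nat_lit 0) (.g 11 0 2 12 18 false true), .t 1 (nat_lit 0) (.g 3 4 0 5 14 true false), .t 1 (nat_lit 0) (.g 0 5 3 4 14 false true), .t 1 (nat_lit 0) (.g 0 4 3 13 14 false true), .t 1 (nat_lit 0) (.g 13 0 1 11 12 true true), .t 1 (nat_lit 0) (.g 11 0 3 4 14 false false), .t 1 (nat_lit 0) (.g 3 1 0 2 14 false true), .t 1 (nat_lit 0) (.g 0 1 2 3 14 true true), .t 1 (nat_lit 0) (.g 2 14 0 1 3 true true), .t 1 (nat_lit 0) (.g 9 14 0 2 10 true true)] (by decide +kernel) (by decide +kernel)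
theorem b88 : B 5632 5696 := Blk.of_chk [.t 1 (nat_lit 0) (.g 16 3 0 15 17 false true), .t 1 (nat_lit 0) (.g 17 3 0 16 18 false true), .t 1 (nat_lit 0) (.g 3 0 15 16 18 false false), .t 1 (nat_lit 0) (.g 2 18 0 3 15 false false), .t 1 (nat_lit 0) (.g 17 0 1 3 18 false false), .t 1 (nat_lit 0) (.g 1 17 0 2 18 false false), .t 1 (nat_lit 0) (.g 2 6 0 9 12 true false), .t 1 (nat_lit 0) (.g 12 18 0 11 15 true true), .t 1 (nat_lit 0) (.g 16 17 0 14 18 true true), .t 1 (nat_lit 0) (.g 2 0 14 16 18 true true), .t 1 (nat_lit 0) (.g 2 0 14 15 18 true false), .t 1 (nat_lit 0) (.g 1 11 0 4 18 false false), .t 1 (nat_lit 0) (.g 11 0 1 4 18 false false), .t 1 (nat_lit 0) (.g 3 0 11 13 14 true false), .t 1 (nat_lit 0) (.g 11 0 3 12 14 false true), .t 1 (nat_lit 0) (.g 2 11 0 1 15 false true), .t 1 (nat_lit 0) (.g 15 0 2 11 12 true true), .t 1 (nat_lit 0) (.g 1 15 0 2 11 true false), .t 1 (nat_lit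 0) (.g 11 0 1 12 15 false true), .t 1 (nat_lit 0) (.g 15 17 0 2 14 true false), .t 1 (nat_lit 0) (.g 2 0 14 15 16 true true), .t 1 (nat_lit 0) (.g 17 15 0 2 14 false false), .t 1 (nat_lit 0) (.g 2 0 14 15 18 true true), .t 1 (nat_lit 0) (.g 14 0 15 16 17 false false), .t 1 (nat_lit 0) (.g 16 14 0 11 18 false true), .t 1 (nat_lit 0) (.g 0 9 10 17 18 true true), .t 1 (nat_lit 0) (.g 10 18 0 9 17 true true), .t 1 (nat_lit 0) (.g 5 16 0 7 15 false false), .t 1 (nat_lit 0) (.g 15 0 5 7 16 false true), .t 1 (nat_lit 0) (.g 15 0 6 7 16 false false), .t 1 (nat_lit 0) (.g 16 17 0 1 15 true false), .t 1 (nat_lit 0) (.g 15 0 1 16 18 false false), .t 1 (nat_lit 0) (.g 17 16 0 1 15 false false), .t 1 (nat_lit 0) (.g 15 0 4 17 18 false false), .t 1 (nat_lit 0) (.g 4 0 15 17 18 true true), .t 1 (nat_lit 0) (.g 14 12 0 3 13 false false), .t 1 (nat_lit 0) (.g 3 12 0 14 15 false true), .t 1 (nat_lit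 0) (.g 12 0 3 14 15 false true), .t 1 (nat_lit 0) (.g 12 15 0 11 14 true true), .t 1 (nat_lit 0) (.g 13 3 0 12 14 true true), .t 1 (nat_lit 0) (.g 3 11 0 12 15 false true), .t 1 (nat_lit 0) (.g 0 3 5 7 16 true true), .t 1 (nat_lit 0) (.g 7 5 0 8 16 false false), .t 1 (nat_lit 0) (.g 16 5 0 3 7 true true), .t 1 (nat_lit 0) (.g 3 0 6 7 16 false false), .t 1 (nat_lit 0) (.g 2 0 1 17 18 true false), .t 1 (nat_lit 0) (.g 4 0 11 12 13 true false), .t 1 (nat_lit 0) (.g 1 12 0 2 11 true false), .t 1 (nat_lit 0) (.g 2 11 0 1 12 false true), .t 1 (nat_lit 0) (.g 17 15 0 9 13 false false), .t 1 (nat_lit 0) (.g 9 0 13 16 17 true false), .t 1 (nat_lit 0) (.g 13 0 9 16 17 false true), .t 1 (nat_lit 0) (.g 11 0 13 17 18 false true), .t 1 (nat_lit 0) (.g 15 16 0 1 3 true true), .t 1 (nat_lit 0) (.g 0 3 1 15 16 false true), .t 1 (nat_lit 0) (.g 16 15 0 1 3 false true), .t 1 (nat_lit 0) (.g 12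 0 1 13 15 false true), .t 1 (nat_lit 0) (.g 15 0 1 12 14 true true), .t 1 (nat_lit 0) (.g 13 0 16 17 18 false true), .t 1 (nat_lit 0) (.g 13 0 15 17 18 false true), .t 1 (nat_lit 0) (.g 6 0 4 16 17 true false), .t 1 (nat_lit 0) (.g 12 0 13 14 16 false true), .t 1 (nat_lit 0) (.g 0 3 4 17 18 true true), .t 1 (nat_lit 0) (.g 17 18 0 3 4 true true)] (by decide +kernel) (by decide +kernel)
theorem b89 : B 5696 5760 := Blk.of_chk [.t 1 (nat_lit 0) (.g 7 3 0 5 18 false true), .t 1 (nat_lit 0) (.g 14 17 0 2 13 true false), .t 1 (nat_lit 0) (.g 2 0 13 14 16 true true), .t 1 (nat_lit 0) (.g 17 14 0 2 13 false false), .t 1 (nat_lit 0) (.g 2 0 13 16 17 true false), .t 1 (nat_lit 0) (.g 2 0 13 14 18 true true), .t 1 (nat_lit 0) (.g 2 0 13 16 18 true false), .t 1 (nat_lit 0) (.g 13 0 2 16 17 false true), .t 1 (nat_lit 0) (.g 2 13 0 3 14 false false), .t 1 (nat_lit 0) (.g 3 13 0 2 15 false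 true), .t 1 (nat_lit 0) (.g 2 15 0 3 13 true false), .t 1 (nat_lit 0) (.g 4 0 11 13 14 true false), .t 1 (nat_lit 0) (.g 11 0 4 12 14 false true), .t 1 (nat_lit 0) (.g 8 6 0 10 18 false false), .t 1 (nat_lit 0) (.g 8 6 0 2 18 false true), .t 1 (nat_lit 0) (.g 8 6 0 1 18 false true), .t 1 (nat_lit 0) (.g 15 13 0 1 14 false false), .t 1 (nat_lit 0) (.g 14 1 0 13 15 true true), .t 1 (nat_lit 0) (.g 1 0 11 13 15 true false), .t 1 (nat_lit 0) (.g 4 7 0 6 14 true false), .t 1 (nat_lit 0) (.g 11 0 4 7 14 false false), .t 1 (nat_lit 0) (.g 4 11 0 6 14 false false), .t 1 (nat_lit 0) (.g 6 11 0 4 7 false true), .t 1 (nat_lit 0) (.g 3 4 0 6 13 true false), .t 1 (nat_lit 0) (.g 6 16 0 3 7 false true), .t 1 (nat_lit 0) (.g 3 0 5 6 16 false false), .t 1 (nat_lit 0) (.g 6 0 3 5 16 true false), .t 1 (nat_lit 0) (.g 1 5 0 2 14 true false), .t 1 (nat_lit 0) (.g 1 10 0 2 14 true false), .t 1 (nat_lit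 0) (.g 13 14 0 2 12 true false), .t 1 (nat_lit 0) (.g 14 13 0 2 12 false false), .t 1 (nat_lit 0) (.g 6 15 0 3 10 false true), .t 1 (nat_lit 0) (.g 3 0 6 9 15 false true), .t 1 (nat_lit 0) (.g 7 5 0 1 17 false true), .t 1 (nat_lit 0) (.g 2 13 0 5 12 false false), .t 1 (nat_lit 0) (.g 17 18 0 4 14 true false), .t 1 (nat_lit 0) (.g 18 17 0 4 14 false false), .t 1 (nat_lit 0) (.g 6 14 0 7 13 true false), .t 1 (nat_lit 0) (.g 7 13 0 6 14 false true), .t 1 (nat_lit 0) (.g 2 3 0 6 13 true false), .t 1 (nat_lit 0) (.g 13 0 2 3 14 false false), .t 1 (nat_lit 0) (.g 5 3 0 2 7 false true), .t 1 (nat_lit 0) (.g 2 0 5 6 7 false false), .t 1 (nat_lit 0) (.g 2 5 0 6 13 true false), .t 1 (nat_lit 0) (.g 2 7 0 6 13 true false), .t 1 (nat_lit 0) (.g 6 5 0 2 7 false true), .t 1 (nat_lit 0) (.g 16 0 1 3 18 false true), .t 1 (nat_lit 0) (.g 6 7 0 8 11 true false), .t 1 (nat_lit 0) (.g 11 0 6 8 12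 false true), .t 1 (nat_lit 0) (.g 7 6 0 8 11 false false), .t 1 (nat_lit 0) (.g 8 0 7 11 12 true false), .t 1 (nat_lit 0) (.g 18 0 4 16 17 true true), .t 1 (nat_lit 0) (.g 1 15 0 3 11 true false), .t 1 (nat_lit 0) (.g 3 11 0 1 15 false true), .t 1 (nat_lit 0) (.g 11 0 1 17 18 false false), .t 1 (nat_lit 0) (.g 16 13 0 1 14 false false), .t 1 (nat_lit 0) (.g 1 0 11 13 16 true false), .t 1 (nat_lit 0) (.g 2 18 0 1 6 true true), .t 1 (nat_lit 0) (.g 2 8 0 9 18 true false), .t 1 (nat_lit 0) (.g 8 5 0 2 18 false true), .t 3 (nat_lit 0x20001) (.bn 121), .t 2 (nat_lit 3) (.bn 129), .t 2 (nat_lit 4) (.bn 112), .t 2 (nat_lit 5) (.bn 113)] (by decide +kernel) (by decide +kernel)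
theorem b90 : B 5760 5824 := Blk.of_chk [.t 3 (nat_lit 0x40006) (.bn 103), .t 2 (nat_lit 4) (.bn 115), .t 2 (nat_lit 4) (.bn 126), .t 2 (nat_lit 7) (.bn 114), .t 2 (nat_lit 8) (.bn 118), .t 3 (nat_lit 0xa0009) (.bn 123), .t 1 (nat_lit 0) (.bn 132), .t 2 (nat_lit 0xb) (.bn 109), .t 2 (nat_lit 0xc) (.bn 133), .t 2 (nat_lit 0xd) (.bn 132), .t 2 (nat_lit 0xe) (.bn 121), .t 2 (nat_lit 7) (.bn 130), .t 2 (nat_lit 0xf) (.bn 124), .t 3 (nat_lit 0x110010) (.bn 118), .t 2 (nat_lit 0xf) (.bn 126), .t 1 (nat_lit 0) (.g 0 11 3 10 12 true true), .t 1 (nat_lit 0) (.g 0 11 3 12 15 true true), .t 1 (nat_lit 0) (.g 0 11 5 6 15 true true), .t 1 (nat_lit 0) (.g 0 11 5 6 16 true true), .t 1 (nat_lit 0) (.g 0 11 5 6 18 true true), .t 1 (nat_lit 0) (.g 0 11 5 12 13 true true), .t 1 (nat_lit 0) (.g 0 11 7 12 13 true true), .t 1 (nat_lit 0) (.g 0 11 8 12 13 true true), .t 1 (nat_lit 0) (.g 0 11 8 12 14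 true true), .t 1 (nat_lit 0) (.g 3 0 1 2 11 true false), .t 1 (nat_lit 0) (.g 2 12 0 1 3 false true), .t 2 (nat_lit 0x12) (.g 0 11 1 3 12 true true), .t 1 (nat_lit 0) (.g 2 13 0 1 3 false true), .t 2 (nat_lit 0x13) (.g 0 11 1 2 13 true true), .t 2 (nat_lit 0x14) (.g 0 11 1 3 13 true true), .t 2 (nat_lit 0x15) (.g 1 0 2 3 14 false false), .t 1 (nat_lit 0) (.g 2 14 0 1 3 false true), .t 2 (nat_lit 0x16) (.g 2 14 0 1 3 false true), .t 2 (nat_lit 0x17) (.g 0 11 1 3 14 true true), .t 1 (nat_lit 0) (.g 3 0 1 2 15 true false), .t 2 (nat_lit 0x18) (.g 0 11 1 3 15 true true), .t 2 (nat_lit 0x19) (.g 0 11 1 3 16 true true), .t 1 (nat_lit 0) (.g 3 1 0 2 16 false true), .t 2 (nat_lit 0x1a) (.g 1 0 2 3 16 false false), .t 2 (nat_lit 0x19) (.g 2 16 0 1 3 false true), .t 2 (nat_lit 0x1b) (.g 0 11 1 3 16 true true), .t 2 (nat_lit 0x1c) (.g 0 11 1 3 17 true true), .t 1 (nat_lit 0) (.g 3 1 0 2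 17 false true), .t 2 (nat_lit 0x1d) (.g 1 0 2 3 17 false false), .t 2 (nat_lit 0x1e) (.g 0 11 1 2 17 true true), .t 2 (nat_lit 0x1f) (.g 0 11 1 3 17 true true), .t 2 (nat_lit 0x20) (.g 0 11 1 3 18 true true), .t 2 (nat_lit 0x21) (.g 0 11 1 2 18 true true), .t 2 (nat_lit 0x22) (.g 0 11 1 3 18 true true), .t 1 (nat_lit 0) (.g 1 4 0 2 11 true false), .t 1 (nat_lit 0) (.g 2 11 0 1 4 false true), .t 1 (nat_lit 0) (.g 4 0 1 2 11 true false), .t 1 (nat_lit 0) (.g 2 12 0 1 4 false true), .t 2 (nat_lit 0x23) (.g 2 12 0 1 4 false true), .t 2 (nat_lit 0x24) (.g 0 11 1 4 12 true true), .t 2 (nat_lit 0x25) (.g 2 13 0 1 4 false true), .t 1 (nat_lit 0) (.g 1 4 0 2 13 true false), .t 2 (nat_lit 0x26) (.g 0 11 1 2 13 true true), .t 2 (nat_lit 0x27) (.g 0 11 1 4 13 true true), .t 2 (nat_lit 0x28) (.g 2 14 0 1 4 false true), .t 1 (nat_lit 0) (.g 1 4 0 2 14 true false), .t 2 (nat_lit 0x29) (.g 0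 11 1 4 14 true true), .t 1 (nat_lit 0) (.g 4 1 0 2 15 false true), .t 2 (nat_lit 0x2a) (.g 1 0 2 4 15 false false)] (by decide +kernel) (by decide +kernel)
theorem b91 : B 5824 5888 := Blk.of_chk [.t 1 (nat_lit 0) (.g 1 4 0 2 15 true false), .t 2 (nat_lit 0x2b) (.g 0 11 1 4 15 true true), .t 2 (nat_lit 0x2c) (.g 0 11 1 4 16 true true), .t 1 (nat_lit 0) (.g 4 1 0 2 16 false true), .t 2 (nat_lit 0x2d) (.g 1 0 2 4 16 false false), .t 1 (nat_lit 0) (.g 4 0 1 2 16 true false), .t 1 (nat_lit 0) (.g 1 4 0 2 16 true false), .t 2 (nat_lit 0x2e) (.g 0 11 1 4 16 true true), .t 2 (nat_lit 0x2f) (.g 0 11 1 4 17 true true), .t 1 (nat_lit 0) (.g 1 4 0 2 17 true false), .t 2 (nat_lit 0x30) (.g 0 11 1 4 17 true true), .t 2 (nat_lit 0x31) (.g 0 11 1 4 18 true true), .t 1 (nat_lit 0) (.g 4 1 0 2 18 false true), .t 2 (nat_lit 0x31) (.g 2 18 0 1 4 false true), .t 1 (nat_lit 0) (.g 1 4 0 2 18 true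 false), .t 2 (nat_lit 0x32) (.g 0 11 1 4 18 true true), .t 1 (nat_lit 0) (.g 1 5 0 2 11 true false), .t 1 (nat_lit 0) (.g 2 11 0 1 5 false true), .t 1 (nat_lit 0) (.g 5 0 1 2 11 true false), .t 1 (nat_lit 0) (.g 2 12 0 1 5 false true), .t 2 (nat_lit 0x33) (.g 2 12 0 1 5 false true), .t 2 (nat_lit 0x34) (.g 0 11 1 5 12 true true), .t 2 (nat_lit 0x35) (.g 2 13 0 1 5 false true), .t 2 (nat_lit 0x36) (.g 0 11 1 2 13 true true), .t 2 (nat_lit 0x37) (.g 0 11 1 5 13 true true), .t 2 (nat_lit 0x38) (.g 2 14 0 1 5 false true), .t 2 (nat_lit 0x39) (.g 1 0 2 5 15 false false), .t 2 (nat_lit 0x3a) (.g 1 0 2 5 16 false false), .t 1 (nat_lit 0) (.g 1 5 0 2 16 true false), .t 2 (nat_lit 0x3b) (.g 1 0 2 5 17 false false), .t 1 (nat_lit 0) (.g 1 5 0 2 17 true false), .t 1 (nat_lit 0) (.g 5 1 0 2 18 false true), .t 2 (nat_lit 0x3c) (.g 0 11 1 5 18 true true), .t 1 (nat_lit 0) (.g 1 6 0 2 11 true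 false), .t 1 (nat_lit 0) (.g 2 11 0 1 6 false true), .t 1 (nat_lit 0) (.g 6 0 1 2 11 true false), .t 1 (nat_lit 0) (.g 2 12 0 1 6 false true), .t 2 (nat_lit 0x3d) (.g 2 12 0 1 6 false true), .t 2 (nat_lit 0x3e) (.g 0 11 1 2 12 true true), .t 2 (nat_lit 0x3f) (.g 0 11 1 6 12 true true), .t 2 (nat_lit 0x40) (.g 2 13 0 1 6 false true), .t 2 (nat_lit 0x41) (.g 0 11 1 2 13 true true), .t 2 (nat_lit 0x42) (.g 0 11 1 6 13 true true), .t 2 (nat_lit 0x43) (.g 1 0 2 6 14 false false), .t 1 (nat_lit 0) (.g 2 14 0 1 6 false true), .t 2 (nat_lit 0x44) (.g 2 14 0 1 6 false true), .t 2 (nat_lit 0x45) (.g 0 11 1 2 14 true true), .t 2 (nat_lit 0x46) (.g 1 0 2 6 15 false false), .t 2 (nat_lit 0x47) (.g 1 0 2 6 16 false false), .t 2 (nat_lit 0x48) (.g 1 0 2 6 17 false false), .t 2 (nat_lit 0x49) (.g 2 18 0 1 6 false true), .t 2 (nat_lit 0x4a) (.g 0 11 1 6 18 true true), .t 1 (nat_lit 0) (.g 1 7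 0 2 11 true false), .t 1 (nat_lit 0) (.g 2 11 0 1 7 false true), .t 1 (nat_lit 0) (.g 2 12 0 1 7 false true), .t 2 (nat_lit 0x4b) (.g 2 12 0 1 7 false true), .t 1 (nat_lit 0) (.g 1 7 0 2 12 true false), .t 2 (nat_lit 0x4c) (.g 0 11 1 2 12 true true), .t 2 (nat_lit 0x4d) (.g 2 13 0 1 7 false true), .t 1 (nat_lit 0) (.g 1 7 0 2 13 true false), .t 2 (nat_lit 0x4e) (.g 0 11 1 2 13 true true), .t 2 (nat_lit 0x4f) (.g 0 11 1 7 13 true true), .t 2 (nat_lit 0x50) (.g 1 0 2 7 14 false false), .t 2 (nat_lit 0x51) (.g 2 14 0 1 7 false true)] (by decide +kernel) (by decide +kernel)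
theorem b92 : B 5888 5952 := Blk.of_chk [.t 2 (nat_lit 0x52) (.g 0 11 1 7 14 true true), .t 2 (nat_lit 0x53) (.g 1 0 2 7 15 false false), .t 2 (nat_lit 0x54) (.g 2 15 0 1 7 false true), .t 1 (nat_lit 0) (.g 1 7 0 2 15 true false), .t 2 (nat_lit 0x55) (.g 1 0 2 7 16 false false), .t 2 (nat_lit 0x56) (.g 2 16 0 1 7 false true), .t 1 (nat_lit 0) (.g 7 1 0 2 17 false true), .t 2 (nat_lit 0x57) (.g 1 0 2 7 17 false false), .t 2 (nat_lit 0x58) (.g 2 17 0 1 7 false true), .t 2 (nat_lit 0x59) (.g 1 0 2 7 18 false false), .t 1 (nat_lit 0) (.g 2 18 0 1 7 false true), .t 1 (nat_lit 0) (.g 1 8 0 2 11 true false), .t 1 (nat_lit 0) (.g 2 11 0 1 8 false true), .t 1 (nat_lit 0) (.g 8 0 1 2 11 true false), .t 1 (nat_lit 0) (.g 2 12 0 1 8 false true), .t 2 (nat_lit 0x5a) (.g 2 12 0 1 8 false true), .t 2 (nat_lit 0x5b) (.g 0 11 1 2 12 true true), .t 2 (nat_lit 0x5c) (.g 0 11 1 8 12 true true), .t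 2 (nat_lit 0x5d) (.g 2 13 0 1 8 false true), .t 1 (nat_lit 0) (.g 1 8 0 2 13 true false), .t 2 (nat_lit 0x5e) (.g 0 11 1 2 13 true true), .t 2 (nat_lit 0x5f) (.g 0 11 1 8 13 true true), .t 2 (nat_lit 0x60) (.g 1 0 2 8 14 false false), .t 2 (nat_lit 0x61) (.g 2 14 0 1 8 false true), .t 1 (nat_lit 0) (.g 1 8 0 2 14 true false), .t 2 (nat_lit 0x62) (.g 0 11 1 8 14 true true), .t 2 (nat_lit 0x63) (.g 1 0 2 8 15 false false), .t 1 (nat_lit 0) (.g 2 15 0 1 8 true true), .t 1 (nat_lit 0) (.g 1 8 0 2 15 true false), .t 2 (nat_lit 0x64) (.g 1 0 2 8 16 false false), .t 2 (nat_lit 0x65) (.g 0 11 1 8 17 true true), .t 2 (nat_lit 0x66) (.g 0 11 1 8 17 true true), .t 2 (nat_lit 0x67) (.g 1 0 2 8 18 false false), .t 1 (nat_lit 0) (.g 2 18 0 1 8 true true), .t 2 (nat_lit 0x68) (.g 0 11 1 8 18 true true), .t 1 (nat_lit 0) (.g 1 9 0 2 11 true false), .t 1 (nat_lit 0) (.g 2 11 0 1 9 false true),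 .t 1 (nat_lit 0) (.g 9 0 1 2 11 true false), .t 1 (nat_lit 0) (.g 2 12 0 1 9 true true), .t 1 (nat_lit 0) (.g 2 12 0 1 9 false true), .t 2 (nat_lit 0x69) (.g 2 12 0 1 9 false true), .t 1 (nat_lit 0) (.g 1 9 0 2 12 true false), .t 2 (nat_lit 0x6a) (.g 0 11 1 2 12 true true), .t 2 (nat_lit 0x6b) (.g 0 11 1 9 12 true true), .t 2 (nat_lit 0x6c) (.g 0 11 1 9 13 true true), .t 2 (nat_lit 0x6d) (.g 0 11 2 9 13 true true), .t 1 (nat_lit 0) (.g 9 1 0 2 13 false true), .t 1 (nat_lit 0) (.g 2 13 0 1 9 true true), .t 2 (nat_lit 0x6c) (.g 2 13 0 1 9 false true), .t 1 (nat_lit 0) (.g 1 9 0 2 13 true false), .t 2 (nat_lit 0x6e) (.g 0 11 1 2 13 true true), .t 2 (nat_lit 0x6f) (.g 0 11 1 9 13 true true), .t 2 (nat_lit 0x70) (.g 1 0 2 9 14 false false), .t 1 (nat_lit 0) (.g 2 14 0 1 9 false true), .t 1 (nat_lit 0) (.g 1 9 0 2 14 true false), .t 2 (nat_lit 0x71) (.g 0 11 1 2 14 true true), .t 2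 (nat_lit 0x72) (.g 0 11 1 9 14 true true), .t 2 (nat_lit 0x73) (.g 0 11 1 9 15 true true), .t 2 (nat_lit 0x74) (.g 0 11 2 9 15 true true), .t 2 (nat_lit 0x75) (.g 1 0 2 9 15 false false), .t 2 (nat_lit 0x73) (.g 2 15 0 1 9 false true), .t 1 (nat_lit 0) (.g 1 9 0 2 15 true false), .t 2 (nat_lit 0x76) (.g 0 11 1 2 15 true true), .t 2 (nat_lit 0x77) (.g 0 11 1 9 15 true true)] (by decide +kernel) (by decide +kernel)
theorem b93 : B 5952 6016 := Blk.of_chk [.t 2 (nat_lit 0x78) (.g 1 0 2 9 16 false false), .t 1 (nat_lit 0) (.g 1 9 0 2 16 true false), .t 2 (nat_lit 0x79) (.g 0 11 1 2 16 true true), .t 2 (nat_lit 0x7a) (.g 0 11 1 9 16 true true), .t 2 (nat_lit 0x7b) (.g 1 0 2 9 17 false false), .t 1 (nat_lit 0) (.g 1 9 0 2 17 true false), .t 2 (nat_lit 0x7c) (.g 0 11 1 2 17 true true), .t 2 (nat_lit 0x7d) (.g 0 11 1 9 17 true true), .t 2 (nat_lit 0x7e) (.g 0 11 1 9 18 true true), .t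 2 (nat_lit 0x7f) (.g 0 11 2 9 18 true true), .t 2 (nat_lit 0x80) (.g 1 0 2 9 18 false false), .t 1 (nat_lit 0) (.g 2 18 0 1 9 true true), .t 1 (nat_lit 0) (.g 1 0 2 9 18 false false), .t 2 (nat_lit 0x7e) (.g 2 18 0 1 9 false true), .t 1 (nat_lit 0) (.g 1 9 0 2 18 true false), .t 2 (nat_lit 0x81) (.g 0 11 1 2 18 true true), .t 2 (nat_lit 0x82) (.g 0 11 1 9 18 true true), .t 1 (nat_lit 0) (.g 1 10 0 2 11 true false), .t 1 (nat_lit 0) (.g 2 11 0 1 10 false true), .t 1 (nat_lit 0) (.g 10 0 1 2 11 true false), .t 1 (nat_lit 0) (.g 2 12 0 1 10 false true), .t 2 (nat_lit 0x83) (.g 2 12 0 1 10 false true), .t 2 (nat_lit 0x84) (.g 0 11 1 2 12 true true), .t 2 (nat_lit 0x85) (.g 0 11 1 10 12 true true), .t 1 (nat_lit 0) (.g 2 13 0 1 10 true true), .t 2 (nat_lit 0x86) (.g 2 13 0 1 10 false true), .t 1 (nat_lit 0) (.g 1 10 0 2 13 true false), .t 2 (nat_lit 0x87) (.g 0 11 1 2 13 true true),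 .t 2 (nat_lit 0x88) (.g 0 11 1 10 13 true true), .t 2 (nat_lit 0x89) (.g 1 0 2 10 14 false false), .t 1 (nat_lit 0) (.g 2 14 0 1 10 true true), .t 1 (nat_lit 0) (.g 2 14 0 1 10 false true), .t 2 (nat_lit 0x8a) (.g 0 11 1 2 14 true true), .t 2 (nat_lit 0x8b) (.g 0 11 1 10 14 true true), .t 2 (nat_lit 0x8c) (.g 0 11 1 10 15 true true), .t 2 (nat_lit 0x8d) (.g 0 11 2 10 15 true true), .t 1 (nat_lit 0) (.g 2 15 0 1 10 true true), .t 1 (nat_lit 0) (.g 1 10 0 2 15 true false), .t 2 (nat_lit 0x8e) (.g 0 11 1 10 15 true true), .t 2 (nat_lit 0x8f) (.g 1 0 2 10 16 false false), .t 2 (nat_lit 0x90) (.g 1 0 2 10 17 false false), .t 2 (nat_lit 0x91) (.g 0 11 1 10 17 true true), .t 1 (nat_lit 0) (.g 10 1 0 2 18 false true), .t 2 (nat_lit 0x92) (.g 1 0 2 10 18 false false), .t 1 (nat_lit 0) (.g 2 18 0 1 10 true true), .t 1 (nat_lit 0) (.g 1 10 0 2 18 true false), .t 1 (nat_lit 0) (.g 1 10 0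 2 18 true false), .t 2 (nat_lit 0x93) (.g 0 11 1 2 18 true true), .t 2 (nat_lit 0x94) (.g 0 11 1 10 18 true true), .t 1 (nat_lit 0) (.g 11 0 1 2 12 false true), .t 1 (nat_lit 0) (.g 2 0 1 11 12 true false), .t 1 (nat_lit 0) (.g 11 0 1 2 12 false true), .t 1 (nat_lit 0) (.g 11 0 1 2 12 false false), .t 2 (nat_lit 0x95) (.g 11 0 1 2 12 false true), .t 2 (nat_lit 0x96) (.g 2 0 1 11 12 true true), .t 2 (nat_lit 0x96) (.g 2 0 1 11 12 true false), .t 1 (nat_lit 0) (.g 2 0 1 11 13 true false), .t 1 (nat_lit 0) (.g 11 0 1 2 13 false true), .t 1 (nat_lit 0) (.g 11 0 1 2 13 false false), .t 2 (nat_lit 0x97) (.g 11 0 1 2 13 false true), .t 2 (nat_lit 0x98) (.g 11 0 1 2 13 false false), .t 2 (nat_lit 0x99) (.g 2 0 1 11 13 true true), .t 2 (nat_lit 0x99) (.g 2 0 1 11 13 true false), .t 1 (nat_lit 0) (.g 11 0 1 2 14 false true)] (by decide +kernel) (by decide +kernel)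
theorem b94 : B 6016 6080 := Blk.of_chk [.t 1 (nat_lit 0) (.g 11 0 1 2 14 false true), .t 1 (nat_lit 0) (.g 11 0 1 2 14 false false), .t 2 (nat_lit 0x9a) (.g 11 0 1 2 14 false true), .t 2 (nat_lit 0x9b) (.g 11 0 1 2 14 false false), .t 2 (nat_lit 0x9c) (.g 2 0 1 11 14 true true), .t 2 (nat_lit 0x9c) (.g 2 0 1 11 14 true false), .t 1 (nat_lit 0) (.g 2 1 0 11 15 false true), .t 1 (nat_lit 0) (.g 11 0 1 2 15 false true), .t 1 (nat_lit 0) (.g 11 0 1 2 15 false false), .t 2 (nat_lit 0x9d) (.g 11 0 1 2 15 false false), .t 1 (nat_lit 0) (.g 1 15 0 2 11 false false), .t 2 (nat_lit 0x9e) (.g 2 0 1 11 15 true true), .t 2 (nat_lit 0x9f) (.g 1 2 0 11 16 true true), .t 1 (nat_lit 0) (.g 2 1 0 11 16 false true), .t 1 (nat_lit 0) (.g 11 0 1 2 16 false true), .t 1 (nat_lit 0) (.g 11 0 1 2 16 false true), .t 1 (nat_lit 0) (.g 11 0 1 2 16 false false), .t 2 (nat_lit 0xa0) (.g 11 0 1 2 16 false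 true), .t 1 (nat_lit 0) (.g 1 11 0 2 16 false false), .t 2 (nat_lit 0x9f) (.g 2 0 1 11 16 true true), .t 2 (nat_lit 0x9f) (.g 2 0 1 11 16 true false), .t 2 (nat_lit 0xa1) (.g 1 2 0 11 17 true true), .t 1 (nat_lit 0) (.g 11 0 1 2 17 false true), .t 1 (nat_lit 0) (.g 11 0 1 2 17 false true), .t 1 (nat_lit 0) (.g 11 0 1 2 17 false false), .t 2 (nat_lit 0xa2) (.g 11 0 1 2 17 false true), .t 1 (nat_lit 0) (.g 1 11 0 2 17 false false), .t 2 (nat_lit 0xa1) (.g 2 0 1 11 17 true true), .t 2 (nat_lit 0xa3) (.g 1 2 0 11 18 true true), .t 1 (nat_lit 0) (.g 11 0 1 2 18 false true), .t 1 (nat_lit 0) (.g 11 0 1 2 18 false true), .t 2 (nat_lit 0xa4) (.g 11 0 1 2 18 false true), .t 2 (nat_lit 0xa3) (.g 2 0 1 11 18 true true), .t 2 (nat_lit 0x99) (.g 1 2 0 12 13 true true), .t 3 (nat_lit 0xa50099) (.a 1 2 12 13 true), .t 2 (nat_lit 0x99) (.g 13 1 0 2 12 true false), .t 2 (nat_lit 0x99) (.g 13 2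 0 1 12 true false), .t 2 (nat_lit 0xa6) (.g 0 11 1 12 13 true true), .t 3 (nat_lit 0xa70099) (.g 0 11 2 12 13 true true), .t 2 (nat_lit 0x9c) (.g 1 2 0 12 14 true true), .t 3 (nat_lit 0xa8009c) (.a 1 2 12 14 true), .t 2 (nat_lit 0x9c) (.g 14 1 0 2 12 true false), .t 2 (nat_lit 0x9c) (.g 14 2 0 1 12 true false), .t 2 (nat_lit 0xa9) (.g 0 11 1 12 14 true true), .t 2 (nat_lit 0xaa) (.g 0 11 1 12 14 true true), .t 2 (nat_lit 0x9e) (.g 1 2 0 12 15 true true), .t 2 (nat_lit 0x96) (.g 2 1 0 12 15 false true), .t 3 (nat_lit 0xab009e) (.a 1 2 12 15 true), .t 2 (nat_lit 0x9e) (.g 15 1 0 2 12 true false), .t 2 (nat_lit 0x9f) (.g 1 2 0 12 16 true true), .t 3 (nat_lit 0xac009f) (.a 1 2 12 16 true), .t 2 (nat_lit 0x9f) (.g 16 1 0 2 12 true false), .t 2 (nat_lit 0xad) (.g 0 11 1 12 16 true true), .t 2 (nat_lit 0xae) (.g 0 11 1 12 16 true true), .t 3 (nat_lit 0xaf009f) (.g 0 11 2 12 16 true true),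 .t 2 (nat_lit 0xa1) (.g 1 2 0 12 17 true true), .t 2 (nat_lit 0x96) (.g 2 1 0 12 17 false true), .t 3 (nat_lit 0xb000a1) (.a 1 2 12 17 true), .t 2 (nat_lit 0xa1) (.g 17 1 0 2 12 true false), .t 2 (nat_lit 0xb1) (.g 0 11 1 12 17 true true), .t 3 (nat_lit 0xb200a1) (.g 0 11 2 12 17 true true), .t 2 (nat_lit 0xa3) (.g 1 2 0 12 18 true true), .t 2 (nat_lit 0x96) (.g 2 1 0 12 18 false true), .t 3 (nat_lit 0xb30096) (.g 2 0 1 12 18 true false)] (by decide +kernel) (by decide +kernel)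
theorem b95 : B 6080 6144 := Blk.of_chk [.t 3 (nat_lit 0xb400a3) (.a 1 2 12 18 true), .t 3 (nat_lit 0xb500a3) (.a 1 2 12 18 false), .t 2 (nat_lit 0xb6) (.g 0 11 1 12 18 true true), .t 2 (nat_lit 0xb7) (.g 0 11 1 12 18 true true), .t 2 (nat_lit 0xb8) (.g 0 11 2 13 14 true true), .t 3 (nat_lit 0xb90099) (.g 2 0 1 13 14 true false), .t 3 (nat_lit 0xba009c) (.a 1 2 13 14 true), .t 3 (nat_lit 0xbb009c) (.a 1 2 13 14 false), .t 2 (nat_lit 0x9c) (.g 14 1 0 2 13 true false), .t 2 (nat_lit 0x9c) (.g 14 2 0 1 13 true false), .t 2 (nat_lit 0xbc) (.g 0 11 1 13 14 true true), .t 2 (nat_lit 0xbd) (.g 0 11 1 13 14 true true), .t 3 (nat_lit 0xbe009c) (.g 0 11 2 13 14 true true), .t 3 (nat_lit 0xbf009c) (.g 0 11 2 13 14 true true), .t 2 (nat_lit 0x99) (.g 2 1 0 13 15 false true), .t 3 (nat_lit 0xc00099) (.g 2 0 1 13 15 true false), .t 2 (nat_lit 0x99) (.g 2 0 1 13 15 true false), .t 3 (nat_lit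 0xc1009e) (.a 1 2 13 15 true), .t 3 (nat_lit 0xc2009e) (.a 1 2 13 15 false), .t 2 (nat_lit 0x9e) (.g 15 1 0 2 13 true false), .t 2 (nat_lit 0xc3) (.g 0 11 1 13 15 true true), .t 2 (nat_lit 0xc4) (.g 0 11 1 13 15 true true), .t 3 (nat_lit 0xc5009e) (.g 0 11 2 13 15 true true), .t 2 (nat_lit 0x9f) (.g 1 2 0 13 16 true true), .t 3 (nat_lit 0xc60099) (.g 2 0 1 13 16 true false), .t 3 (nat_lit 0xc7009f) (.a 1 2 13 16 true), .t 3 (nat_lit 0xc8009f) (.a 1 2 13 16 false), .t 2 (nat_lit 0x9f) (.g 16 1 0 2 13 true false), .t 2 (nat_lit 0x9f) (.g 16 2 0 1 13 true false), .t 2 (nat_lit 0xc9) (.g 0 11 1 13 16 true true), .t 2 (nat_lit 0xca) (.g 0 11 1 13 16 true true), .t 3 (nat_lit 0xcb009f) (.g 0 11 2 13 16 true true), .t 3 (nat_lit 0xcc009f) (.g 0 11 2 13 16 true true), .t 2 (nat_lit 0x99) (.g 2 1 0 13 17 false true), .t 3 (nat_lit 0xcd0099) (.g 2 0 1 13 17 true false), .t 3 (nat_lit 0xce00a1)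 (.a 1 2 13 17 true), .t 3 (nat_lit 0xcf00a1) (.a 1 2 13 17 false), .t 2 (nat_lit 0xa1) (.g 17 1 0 2 13 true false), .t 2 (nat_lit 0xd0) (.g 0 11 1 13 17 true true), .t 3 (nat_lit 0xd100a1) (.g 0 11 2 13 17 true true), .t 3 (nat_lit 0xd200a1) (.g 0 11 2 13 17 true true), .t 2 (nat_lit 0xa3) (.g 1 2 0 13 18 true true), .t 2 (nat_lit 0x99) (.g 2 1 0 13 18 false true), .t 3 (nat_lit 0xd30099) (.g 2 0 1 13 18 true false), .t 3 (nat_lit 0xd400a3) (.a 1 2 13 18 true), .t 3 (nat_lit 0xd500a3) (.a 1 2 13 18 false), .t 2 (nat_lit 0xa3) (.g 18 1 0 2 13 true false), .t 2 (nat_lit 0xd6) (.g 0 11 1 13 18 true true), .t 2 (nat_lit 0xd7) (.g 0 11 1 13 18 true true), .t 3 (nat_lit 0xd800a3) (.g 0 11 2 13 18 true true), .t 2 (nat_lit 0x9c) (.g 2 1 0 14 15 false true), .t 3 (nat_lit 0xd9009c) (.g 2 0 1 14 15 true false), .t 3 (nat_lit 0xda009e) (.a 1 2 14 15 true), .t 3 (nat_lit 0xdb009e) (.a 1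 2 14 15 false), .t 2 (nat_lit 0x9e) (.g 15 1 0 2 14 true false), .t 2 (nat_lit 0xdc) (.g 0 11 1 14 15 true true), .t 3 (nat_lit 0xdd009e) (.g 0 11 2 14 15 true true), .t 2 (nat_lit 0x9f) (.g 1 2 0 14 16 true true), .t 3 (nat_lit 0xde009c) (.g 2 0 1 14 16 true false), .t 3 (nat_lit 0xdf009f) (.a 1 2 14 16 true), .t 3 (nat_lit 0xe0009f) (.a 1 2 14 16 false), .t 2 (nat_lit 0x9f) (.g 16 1 0 2 14 true false), .t 2 (nat_lit 0xe1) (.g 0 11 1 14 16 true true), .t 2 (nat_lit 0xe2) (.g 0 11 1 14 16 true true)] (by decide +kernel) (by decide +kernel)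
theorem b96 : B 6144 6208 := Blk.of_chk [.t 3 (nat_lit 0xe3009f) (.g 0 11 2 14 16 true true), .t 3 (nat_lit 0xe4009f) (.g 0 11 2 14 16 true true), .t 2 (nat_lit 0xa1) (.g 1 2 0 14 17 true true), .t 3 (nat_lit 0xe5009c) (.g 2 0 1 14 17 true false), .t 3 (nat_lit 0xe600a1) (.a 1 2 14 17 true), .t 3 (nat_lit 0xe700a1) (.a 1 2 14 17 false), .t 2 (nat_lit 0xa1) (.g 17 1 0 2 14 true false), .t 2 (nat_lit 0xe8) (.g 0 11 1 14 17 true true), .t 3 (nat_lit 0xe900a1) (.g 0 11 2 14 17 true true), .t 2 (nat_lit 0xa3) (.g 1 2 0 14 18 true true), .t 3 (nat_lit 0xea009c) (.g 2 0 1 14 18 true false), .t 1 (nat_lit 0) (.g 18 14 0 1 2 false true), .t 3 (nat_lit 0xeb00a3) (.a 1 2 14 18 true), .t 2 (nat_lit 0xa3) (.g 18 1 0 2 14 true false), .t 3 (nat_lit 0xec00a3) (.g 0 11 2 14 18 true true), .t 3 (nat_lit 0xed009e) (.a 1 2 15 16 true), .t 3 (nat_lit 0xee009e) (.g 15 0 1 2 16 false true), .t 3 (nat_lit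 0xef009f) (.a 1 2 15 16 true), .t 3 (nat_lit 0xf0009f) (.a 1 2 15 16 false), .t 2 (nat_lit 0x9f) (.g 16 1 0 2 15 true false), .t 2 (nat_lit 0x9f) (.g 16 2 0 1 15 true false), .t 2 (nat_lit 0xf1) (.g 0 11 1 15 16 true true), .t 2 (nat_lit 0xf2) (.g 0 11 1 15 16 true true), .t 3 (nat_lit 0xf3009f) (.g 0 11 2 15 16 true true), .t 3 (nat_lit 0xf400a1) (.a 1 2 15 17 true), .t 2 (nat_lit 0xa1) (.g 17 1 0 2 15 true false), .t 2 (nat_lit 0xf5) (.g 0 11 1 15 17 true true), .t 2 (nat_lit 0xf6) (.g 0 11 1 15 17 true true), .t 3 (nat_lit 0xf700a1) (.g 0 11 2 15 17 true true), .t 2 (nat_lit 0xa3) (.g 18 1 0 2 15 true false), .t 2 (nat_lit 0xf8) (.g 0 11 1 15 18 true true), .t 3 (nat_lit 0xf900a3) (.g 0 11 2 15 18 true true), .t 3 (nat_lit 0xfa009f) (.a 1 2 16 17 true), .t 3 (nat_lit 0xfb00a1) (.a 1 2 16 17 true), .t 2 (nat_lit 0xa1) (.g 17 1 0 2 16 true false), .t 2 (nat_lit 0xfc) (.g 0 11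 1 16 17 true true), .t 2 (nat_lit 0xfd) (.g 0 11 1 16 17 true true), .t 3 (nat_lit 0xfe00a1) (.g 0 11 2 16 17 true true), .t 2 (nat_lit 0x9f) (.g 16 1 0 2 18 false true), .t 3 (nat_lit 0xff00a3) (.a 1 2 16 18 true), .t 2 (nat_lit 0xa3) (.g 18 1 0 2 16 true false), .t 2 (nat_lit 0x100) (.g 0 11 1 16 18 true true), .t 2 (nat_lit 0x101) (.g 0 11 1 16 18 true true), .t 3 (nat_lit 0x10200a3) (.g 0 11 2 16 18 true true), .t 3 (nat_lit 0x10300a3) (.a 1 2 17 18 true), .t 2 (nat_lit 0xa3) (.g 18 1 0 2 17 true false), .t 3 (nat_lit 0x10400a3) (.g 0 11 2 17 18 true true), .t 1 (nat_lit 0) (.g 4 0 1 3 11 true false), .t 1 (nat_lit 0) (.g 1 0 3 4 12 false false), .t 2 (nat_lit 0x105) (.g 3 12 0 1 4 false true), .t 2 (nat_lit 0x106) (.g 0 11 1 3 12 true true), .t 2 (nat_lit 0x107) (.g 0 11 1 4 12 true true), .t 2 (nat_lit 0x108) (.g 3 13 0 1 4 false true), .t 2 (nat_lit 0x109) (.g 0 11 1 3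 13 true true), .t 2 (nat_lit 0x10a) (.g 0 11 1 4 13 true true), .t 1 (nat_lit 0) (.g 3 14 0 1 4 true true), .t 2 (nat_lit 0x10b) (.g 3 14 0 1 4 false true), .t 2 (nat_lit 0x10c) (.g 0 11 1 3 14 true true), .t 2 (nat_lit 0x10d) (.g 0 11 1 4 14 true true), .t 2 (nat_lit 0x10e) (.g 0 11 1 4 15 true true), .t 2 (nat_lit 0x10f) (.g 0 11 3 4 15 true true), .t 1 (nat_lit 0) (.g 4 1 0 3 15 false true), .t 2 (nat_lit 0x110) (.g 1 0 3 4 15 false false), .t 1 (nat_lit 0) (.g 4 0 1 3 15 true false)] (by decide +kernel) (by decide +kernel)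
theorem b97 : B 6208 6272 := Blk.of_chk [.t 1 (nat_lit 0) (.g 3 15 0 1 4 false true), .t 2 (nat_lit 0x10e) (.g 3 15 0 1 4 false true), .t 2 (nat_lit 0x111) (.g 0 11 1 3 15 true true), .t 2 (nat_lit 0x112) (.g 0 11 1 4 15 true true), .t 2 (nat_lit 0x113) (.g 0 11 1 4 16 true true), .t 2 (nat_lit 0x114) (.g 0 11 3 4 16 true true), .t 1 (nat_lit 0) (.g 4 1 0 3 16 false true), .t 2 (nat_lit 0x115) (.g 1 0 3 4 16 false false), .t 1 (nat_lit 0) (.g 3 16 0 1 4 false true), .t 2 (nat_lit 0x113) (.g 3 16 0 1 4 false true), .t 2 (nat_lit 0x116) (.g 0 11 1 3 16 true true), .t 2 (nat_lit 0x117) (.g 0 11 1 4 16 true true), .t 2 (nat_lit 0x118) (.g 0 11 1 4 17 true true), .t 2 (nat_lit 0x119) (.g 0 11 3 4 17 true true), .t 1 (nat_lit 0) (.g 4 1 0 3 17 false true), .t 2 (nat_lit 0x11a) (.g 1 0 3 4 17 false false), .t 1 (nat_lit 0) (.g 3 17 0 1 4 false true), .t 2 (nat_lit 0x118) (.g 3 17 0 1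 4 false true), .t 2 (nat_lit 0x11b) (.g 0 11 1 3 17 true true), .t 2 (nat_lit 0x11c) (.g 0 11 1 4 17 true true), .t 2 (nat_lit 0x11d) (.g 0 11 1 4 18 true true), .t 2 (nat_lit 0x11e) (.g 0 11 3 4 18 true true), .t 1 (nat_lit 0) (.g 4 1 0 3 18 false true), .t 2 (nat_lit 0x11f) (.g 1 0 3 4 18 false false), .t 1 (nat_lit 0) (.g 3 18 0 1 4 false true), .t 2 (nat_lit 0x11d) (.g 3 18 0 1 4 false true), .t 2 (nat_lit 0x120) (.g 0 11 1 3 18 true true), .t 2 (nat_lit 0x121) (.g 0 11 1 4 18 true true), .t 1 (nat_lit 0) (.g 5 3 0 1 8 false true), .t 1 (nat_lit 0) (.g 1 3 0 5 11 true false), .t 1 (nat_lit 0) (.g 3 1 0 5 11 false false), .t 1 (nat_lit 0) (.g 5 0 1 3 11 true true), .t 1 (nat_lit 0) (.g 1 3 0 5 12 true false), .t 2 (nat_lit 0x122) (.g 0 11 1 3 12 true true), .t 1 (nat_lit 0) (.g 1 3 0 5 13 true false), .t 2 (nat_lit 0x123) (.g 0 11 1 3 13 true true), .t 2 (nat_lit 0x124) (.g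 0 11 1 5 13 true true), .t 1 (nat_lit 0) (.g 1 3 0 5 14 true false), .t 2 (nat_lit 0x125) (.g 0 11 1 3 14 true true), .t 2 (nat_lit 0x126) (.g 0 11 1 5 14 true true), .t 2 (nat_lit 0x127) (.g 0 11 3 5 15 true true), .t 1 (nat_lit 0) (.g 1 3 0 5 15 true false), .t 2 (nat_lit 0x128) (.g 0 11 1 3 15 true true), .t 2 (nat_lit 0x129) (.g 0 11 1 5 16 true true), .t 2 (nat_lit 0x12a) (.g 0 11 3 5 16 true true), .t 2 (nat_lit 0x12b) (.g 0 11 1 3 16 true true), .t 2 (nat_lit 0x12c) (.g 0 11 1 5 16 true true), .t 2 (nat_lit 0x12d) (.g 0 11 1 5 17 true true), .t 2 (nat_lit 0x12e) (.g 0 11 3 5 17 true true), .t 1 (nat_lit 0) (.g 1 3 0 5 17 true false), .t 2 (nat_lit 0x12f) (.g 0 11 1 3 17 true true), .t 2 (nat_lit 0x130) (.g 0 11 1 5 17 true true), .t 2 (nat_lit 0x131) (.g 0 11 1 5 18 true true), .t 2 (nat_lit 0x132) (.g 0 11 3 5 18 true true), .t 1 (nat_lit 0) (.g 5 3 0 1 18 false true),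 .t 2 (nat_lit 0x133) (.g 0 11 1 3 18 true true), .t 2 (nat_lit 0x134) (.g 0 11 1 5 18 true true), .t 1 (nat_lit 0) (.g 6 3 0 1 8 false true), .t 1 (nat_lit 0) (.g 1 3 0 6 11 true false), .t 1 (nat_lit 0) (.g 3 1 0 6 11 false false), .t 1 (nat_lit 0) (.g 1 3 0 6 12 true false), .t 2 (nat_lit 0x135) (.g 0 11 1 3 12 true true), .t 1 (nat_lit 0) (.g 1 3 0 6 13 true false), .t 2 (nat_lit 0x136) (.g 0 11 1 3 13 true true)] (by decide +kernel) (by decide +kernel)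
theorem b98 : B 6272 6336 := Blk.of_chk [.t 2 (nat_lit 0x137) (.g 0 11 1 6 13 true true), .t 1 (nat_lit 0) (.g 1 3 0 6 14 true false), .t 2 (nat_lit 0x138) (.g 0 11 1 3 14 true true), .t 2 (nat_lit 0x139) (.g 0 11 1 6 14 true true), .t 2 (nat_lit 0x13a) (.g 0 11 1 6 15 true true), .t 1 (nat_lit 0) (.g 1 3 0 6 15 true false), .t 2 (nat_lit 0x13b) (.g 0 11 1 3 15 true true), .t 2 (nat_lit 0x13c) (.g 0 11 1 6 16 true true), .t 2 (nat_lit 0x13d) (.g 0 11 3 6 16 true true), .t 1 (nat_lit 0) (.g 6 3 0 1 16 false true), .t 1 (nat_lit 0) (.g 1 3 0 6 16 true false), .t 2 (nat_lit 0x13e) (.g 0 11 1 3 16 true true), .t 2 (nat_lit 0x13f) (.g 0 11 1 6 16 true true), .t 2 (nat_lit 0x140) (.g 0 11 1 6 17 true true), .t 1 (nat_lit 0) (.g 1 3 0 6 17 true false), .t 2 (nat_lit 0x141) (.g 0 11 1 3 17 true true), .t 2 (nat_lit 0x142) (.g 0 11 1 6 17 true true), .t 2 (nat_lit 0x143) (.g 0 11 1 6 18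 true true), .t 2 (nat_lit 0x144) (.g 0 11 3 6 18 true true), .t 1 (nat_lit 0) (.g 6 3 0 1 18 false true), .t 1 (nat_lit 0) (.g 1 3 0 6 18 true false), .t 2 (nat_lit 0x145) (.g 0 11 1 3 18 true true), .t 2 (nat_lit 0x146) (.g 0 11 1 6 18 true true), .t 1 (nat_lit 0) (.g 1 3 0 7 11 true false), .t 1 (nat_lit 0) (.g 3 1 0 7 11 false false), .t 1 (nat_lit 0) (.g 1 3 0 7 12 true false), .t 2 (nat_lit 0x147) (.g 0 11 1 3 12 true true), .t 1 (nat_lit 0) (.g 1 3 0 7 13 true false), .t 2 (nat_lit 0x148) (.g 0 11 1 3 13 true true), .t 2 (nat_lit 0x149) (.g 0 11 1 7 13 true true), .t 1 (nat_lit 0) (.g 1 3 0 7 14 true false), .t 2 (nat_lit 0x14a) (.g 0 11 1 3 14 true true), .t 2 (nat_lit 0x14b) (.g 0 11 1 7 14 true true), .t 2 (nat_lit 0x14c) (.g 0 11 1 7 15 true true), .t 2 (nat_lit 0x14d) (.g 0 11 3 7 15 true true), .t 2 (nat_lit 0x14e) (.g 0 11 1 3 15 true true), .t 2 (nat_lit 0x14f) (.g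 0 11 1 7 16 true true), .t 2 (nat_lit 0x150) (.g 0 11 3 7 16 true true), .t 1 (nat_lit 0) (.g 7 3 0 1 16 false true), .t 1 (nat_lit 0) (.g 1 3 0 7 16 true false), .t 2 (nat_lit 0x151) (.g 0 11 1 3 16 true true), .t 2 (nat_lit 0x152) (.g 0 11 1 7 16 true true), .t 2 (nat_lit 0x153) (.g 0 11 1 7 17 true true), .t 2 (nat_lit 0x154) (.g 0 11 3 7 17 true true), .t 1 (nat_lit 0) (.g 1 3 0 7 17 true false), .t 2 (nat_lit 0x155) (.g 0 11 1 3 17 true true), .t 2 (nat_lit 0x156) (.g 0 11 1 7 17 true true), .t 2 (nat_lit 0x157) (.g 0 11 1 7 18 true true), .t 2 (nat_lit 0x158) (.g 0 11 3 7 18 true true), .t 1 (nat_lit 0) (.g 1 3 0 7 18 true false), .t 2 (nat_lit 0x159) (.g 0 11 1 3 18 true true), .t 2 (nat_lit 0x15a) (.g 0 11 1 7 18 true true), .t 1 (nat_lit 0) (.g 1 3 0 8 11 true false), .t 1 (nat_lit 0) (.g 3 1 0 8 11 false false), .t 1 (nat_lit 0) (.g 1 3 0 8 12 true false), .t 2 (nat_lit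 0x15b) (.g 0 11 1 3 12 true true), .t 1 (nat_lit 0) (.g 1 3 0 8 13 true false), .t 2 (nat_lit 0x15c) (.g 0 11 1 3 13 true true), .t 2 (nat_lit 0x15d) (.g 0 11 1 8 13 true true), .t 1 (nat_lit 0) (.g 1 3 0 8 14 true false), .t 2 (nat_lit 0x15e) (.g 0 11 1 3 14 true true), .t 2 (nat_lit 0x15f) (.g 0 11 1 8 14 true true), .t 2 (nat_lit 0x160) (.g 0 11 1 8 15 true true), .t 2 (nat_lit 0x161) (.g 0 11 1 3 15 true true)] (by decide +kernel) (by decide +kernel)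
theorem b99 : B 6336 6400 := Blk.of_chk [.t 2 (nat_lit 0x162) (.g 0 11 1 8 16 true true), .t 2 (nat_lit 0x163) (.g 0 11 3 8 16 true true), .t 1 (nat_lit 0) (.g 1 3 0 8 16 true false), .t 2 (nat_lit 0x164) (.g 0 11 1 3 16 true true), .t 2 (nat_lit 0x165) (.g 0 11 1 8 16 true true), .t 2 (nat_lit 0x166) (.g 0 11 1 8 17 true true), .t 2 (nat_lit 0x167) (.g 0 11 3 8 17 true true), .t 1 (nat_lit 0) (.g 8 3 0 1 17 false true), .t 1 (nat_lit 0) (.g 1 3 0 8 17 true false), .t 2 (nat_lit 0x168) (.g 0 11 1 3 17 true true), .t 2 (nat_lit 0x169) (.g 0 11 1 8 17 true true), .t 2 (nat_lit 0x16a) (.g 0 11 1 8 18 true true), .t 2 (nat_lit 0x16b) (.g 0 11 3 8 18 true true), .t 1 (nat_lit 0) (.g 8 3 0 1 18 false true), .t 1 (nat_lit 0) (.g 1 3 0 8 18 true false), .t 2 (nat_lit 0x16c) (.g 0 11 1 3 18 true true), .t 2 (nat_lit 0x16d) (.g 0 11 1 8 18 true true), .t 1 (nat_lit 0) (.g 1 3 0 9 11 true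 false), .t 1 (nat_lit 0) (.g 3 1 0 9 11 false false), .t 1 (nat_lit 0) (.g 9 0 1 3 11 true true), .t 1 (nat_lit 0) (.g 1 3 0 9 12 true false), .t 2 (nat_lit 0x16e) (.g 0 11 1 9 12 true true), .t 1 (nat_lit 0) (.g 1 3 0 9 13 true false), .t 2 (nat_lit 0x16f) (.g 0 11 1 3 13 true true), .t 2 (nat_lit 0x170) (.g 0 11 1 9 13 true true), .t 1 (nat_lit 0) (.g 1 3 0 9 14 true false), .t 2 (nat_lit 0x171) (.g 0 11 1 3 14 true true), .t 2 (nat_lit 0x172) (.g 0 11 1 9 14 true true), .t 2 (nat_lit 0x173) (.g 0 11 1 3 15 true true), .t 2 (nat_lit 0x174) (.g 0 11 1 9 15 true true), .t 2 (nat_lit 0x175) (.g 0 11 3 9 16 true true), .t 1 (nat_lit 0) (.g 9 3 0 1 16 false true), .t 1 (nat_lit 0) (.g 1 3 0 9 16 true false), .t 2 (nat_lit 0x176) (.g 0 11 1 3 16 true true), .t 2 (nat_lit 0x177) (.g 0 11 1 9 16 true true), .t 2 (nat_lit 0x178) (.g 0 11 3 9 17 true true), .t 1 (nat_lit 0) (.g 9 3 0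 1 17 false true), .t 1 (nat_lit 0) (.g 1 3 0 9 17 true false), .t 2 (nat_lit 0x179) (.g 0 11 1 3 17 true true), .t 2 (nat_lit 0x17a) (.g 0 11 1 9 17 true true), .t 2 (nat_lit 0x17b) (.g 0 11 1 9 18 true true), .t 1 (nat_lit 0) (.g 1 3 0 9 18 true false), .t 2 (nat_lit 0x17c) (.g 0 11 1 3 18 true true), .t 2 (nat_lit 0x17d) (.g 0 11 1 9 18 true true), .t 1 (nat_lit 0) (.g 1 3 0 10 11 true false), .t 1 (nat_lit 0) (.g 3 1 0 10 11 false false), .t 1 (nat_lit 0) (.g 10 0 1 3 11 true true), .t 1 (nat_lit 0) (.g 1 3 0 10 12 true false), .t 2 (nat_lit 0x17e) (.g 0 11 1 10 12 true true), .t 1 (nat_lit 0) (.g 1 3 0 10 13 true false), .t 2 (nat_lit 0x17f) (.g 0 11 1 3 13 true true), .t 2 (nat_lit 0x180) (.g 0 11 1 10 13 true true), .t 1 (nat_lit 0) (.g 1 3 0 10 14 true false), .t 2 (nat_lit 0x181) (.g 0 11 1 3 14 true true), .t 2 (nat_lit 0x182) (.g 0 11 1 10 14 true true), .t 2 (nat_lit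 0x183) (.g 0 11 1 10 15 true true), .t 1 (nat_lit 0) (.g 1 3 0 10 15 true false), .t 2 (nat_lit 0x184) (.g 0 11 1 10 15 true true), .t 2 (nat_lit 0x185) (.g 0 11 1 10 16 true true), .t 1 (nat_lit 0) (.g 1 3 0 10 16 true false), .t 2 (nat_lit 0x186) (.g 0 11 1 3 16 true true), .t 2 (nat_lit 0x187) (.g 0 11 1 10 16 true true), .t 2 (nat_lit 0x188) (.g 0 11 1 10 17 true true), .t 1 (nat_lit 0) (.g 1 3 0 10 17 true false)] (by decide +kernel) (by decide +kernel)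
theorem b100 : B 6400 6464 := Blk.of_chk [.t 2 (nat_lit 0x189) (.g 0 11 1 3 17 true true), .t 2 (nat_lit 0x18a) (.g 0 11 1 10 17 true true), .t 2 (nat_lit 0x18b) (.g 0 11 1 10 18 true true), .t 1 (nat_lit 0) (.g 1 3 0 10 18 true false), .t 2 (nat_lit 0x18c) (.g 0 11 1 3 18 true true), .t 2 (nat_lit 0x18d) (.g 0 11 1 10 18 true true), .t 1 (nat_lit 0) (.g 11 0 1 3 12 false false), .t 2 (nat_lit 0x18e) (.g 11 0 1 3 12 false false), .t 1 (nat_lit 0) (.g 1 12 0 3 11 false false), .t 1 (nat_lit 0) (.g 11 0 1 3 13 false true), .t 1 (nat_lit 0) (.g 11 0 1 3 13 false false), .t 2 (nat_lit 0x18f) (.g 11 0 1 3 13 false true), .t 2 (nat_lit 0x190) (.g 11 0 1 3 13 false false), .t 2 (nat_lit 0x191) (.g 3 0 1 11 13 true true), .t 2 (nat_lit 0x191) (.g 3 0 1 11 13 true false), .t 1 (nat_lit 0) (.g 11 0 1 3 14 false true), .t 1 (nat_lit 0) (.g 11 0 1 3 14 false false), .t 2 (nat_lit 0x192) (.g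 11 0 1 3 14 false true), .t 2 (nat_lit 0x193) (.g 11 0 1 3 14 false false), .t 2 (nat_lit 0x194) (.g 3 0 1 11 14 true true), .t 2 (nat_lit 0x195) (.g 1 3 0 11 15 true true), .t 1 (nat_lit 0) (.g 11 0 1 3 15 false true), .t 1 (nat_lit 0) (.g 11 0 1 3 15 false false), .t 2 (nat_lit 0x196) (.g 11 0 1 3 15 false true), .t 2 (nat_lit 0x195) (.g 3 0 1 11 15 true true), .t 2 (nat_lit 0x197) (.g 1 3 0 11 16 true true), .t 1 (nat_lit 0) (.g 11 0 1 3 16 false true), .t 1 (nat_lit 0) (.g 11 0 1 3 16 false false), .t 2 (nat_lit 0x198) (.g 11 0 1 3 16 false true), .t 2 (nat_lit 0x197) (.g 3 0 1 11 16 true false), .t 2 (nat_lit 0x199) (.g 1 3 0 11 17 true true), .t 1 (nat_lit 0) (.g 11 0 1 3 17 false true), .t 1 (nat_lit 0) (.g 11 0 1 3 17 false false), .t 2 (nat_lit 0x19a) (.g 11 0 1 3 17 false true), .t 2 (nat_lit 0x19b) (.g 11 0 1 3 17 false false), .t 2 (nat_lit 0x199) (.g 3 0 1 11 17 true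 true), .t 2 (nat_lit 0x19c) (.g 1 3 0 11 18 true true), .t 2 (nat_lit 0x19d) (.g 11 0 1 3 18 false true), .t 2 (nat_lit 0x19e) (.g 11 0 1 3 18 false false), .t 2 (nat_lit 0x19c) (.g 3 0 1 11 18 true true), .t 2 (nat_lit 0x19c) (.g 3 0 1 11 18 true false), .t 3 (nat_lit 0x19f0191) (.a 1 3 12 13 false), .t 2 (nat_lit 0x191) (.g 13 1 0 3 12 true false), .t 2 (nat_lit 0x1a0) (.g 0 11 1 12 13 true true), .t 3 (nat_lit 0x1a10194) (.a 1 3 12 14 true), .t 2 (nat_lit 0x194) (.g 14 1 0 3 12 true false), .t 2 (nat_lit 0x194) (.g 14 3 0 1 12 true false), .t 2 (nat_lit 0x1a2) (.g 0 11 1 12 14 true true), .t 2 (nat_lit 0x1a3) (.g 0 11 1 12 14 true true), .t 3 (nat_lit 0x1a40194) (.g 0 11 3 12 14 true true), .t 2 (nat_lit 0x1a5) (.g 3 1 0 12 15 false true), .t 3 (nat_lit 0x1a60195) (.a 1 3 12 15 true), .t 2 (nat_lit 0x195) (.g 15 1 0 3 12 true false), .t 2 (nat_lit 0x1a7) (.g 0 11 1 12 15 true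 true), .t 2 (nat_lit 0x197) (.g 1 3 0 12 16 true true), .t 2 (nat_lit 0x1a5) (.g 3 1 0 12 16 false true), .t 3 (nat_lit 0x1a80197) (.a 1 3 12 16 true), .t 2 (nat_lit 0x197) (.g 16 1 0 3 12 true false), .t 2 (nat_lit 0x197) (.g 16 3 0 1 12 true false), .t 2 (nat_lit 0x1a9) (.g 0 11 1 12 16 true true), .t 2 (nat_lit 0x1aa) (.g 0 11 1 12 16 true true), .t 2 (nat_lit 0x199) (.g 1 3 0 12 17 true true), .t 2 (nat_lit 0x1a5) (.g 3 1 0 12 17 false true), .t 3 (nat_lit 0x1ab0199) (.a 1 3 12 17 true)] (by decide +kernel) (by decide +kernel)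
theorem b101 : B 6464 6528 := Blk.of_chk [.t 2 (nat_lit 0x199) (.g 17 1 0 3 12 true false), .t 2 (nat_lit 0x1ac) (.g 0 11 1 12 17 true true), .t 2 (nat_lit 0x1ad) (.g 0 11 1 12 17 true true), .t 3 (nat_lit 0x1ae0199) (.g 0 11 3 12 17 true true), .t 2 (nat_lit 0x19c) (.g 1 3 0 12 18 true true), .t 2 (nat_lit 0x1a5) (.g 3 1 0 12 18 false true), .t 3 (nat_lit 0x1af019c) (.a 1 3 12 18 true), .t 2 (nat_lit 0x19c) (.g 18 1 0 3 12 true false), .t 2 (nat_lit 0x19c) (.g 18 3 0 1 12 true false), .t 2 (nat_lit 0x1b0) (.g 0 11 1 12 18 true true), .t 2 (nat_lit 0x1b1) (.g 0 11 1 12 18 true true), .t 3 (nat_lit 0x1b2019c) (.g 0 11 3 12 18 true true), .t 1 (nat_lit 0) (.g 3 13 0 1 14 false true), .t 2 (nat_lit 0x1b3) (.g 0 11 1 13 14 true true), .t 3 (nat_lit 0x1b40194) (.a 1 3 13 14 true), .t 3 (nat_lit 0x1b50194) (.a 1 3 13 14 false), .t 2 (nat_lit 0x194) (.g 14 1 0 3 13 true false), .t 2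 (nat_lit 0x194) (.g 14 3 0 1 13 true false), .t 2 (nat_lit 0x1b6) (.g 0 11 1 13 14 true true), .t 2 (nat_lit 0x1b7) (.g 0 11 1 13 14 true true), .t 3 (nat_lit 0x1b80194) (.g 0 11 3 13 14 true true), .t 3 (nat_lit 0x1b90194) (.g 0 11 3 13 14 true true), .t 2 (nat_lit 0x195) (.g 1 3 0 13 15 true true), .t 3 (nat_lit 0x1ba0195) (.a 1 3 13 15 true), .t 3 (nat_lit 0x1bb0195) (.a 1 3 13 15 false), .t 2 (nat_lit 0x195) (.g 15 1 0 3 13 true false), .t 2 (nat_lit 0x1bc) (.g 0 11 1 13 15 true true), .t 2 (nat_lit 0x1bd) (.g 0 11 1 13 15 true true), .t 3 (nat_lit 0x1be0195) (.g 0 11 3 13 15 true true), .t 2 (nat_lit 0x197) (.g 1 3 0 13 16 true true), .t 2 (nat_lit 0x191) (.g 3 1 0 13 16 false true), .t 3 (nat_lit 0x1bf0197) (.a 1 3 13 16 true), .t 3 (nat_lit 0x1c00197) (.a 1 3 13 16 false), .t 2 (nat_lit 0x197) (.g 16 1 0 3 13 true false), .t 2 (nat_lit 0x1c1) (.g 0 11 1 13 16 true true),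 .t 2 (nat_lit 0x1c2) (.g 0 11 1 13 16 true true), .t 3 (nat_lit 0x1c30197) (.g 0 11 3 13 16 true true), .t 2 (nat_lit 0x199) (.g 1 3 0 13 17 true true), .t 1 (nat_lit 0) (.g 1 3 0 13 17 true true), .t 3 (nat_lit 0x1c40199) (.a 1 3 13 17 true), .t 3 (nat_lit 0x1c50199) (.a 1 3 13 17 false), .t 2 (nat_lit 0x199) (.g 17 1 0 3 13 true false), .t 2 (nat_lit 0x199) (.g 17 3 0 1 13 true false), .t 2 (nat_lit 0x1c6) (.g 0 11 1 13 17 true true), .t 2 (nat_lit 0x1c7) (.g 0 11 1 13 17 true true), .t 3 (nat_lit 0x1c80199) (.g 0 11 3 13 17 true true), .t 2 (nat_lit 0x19c) (.g 1 3 0 13 18 true true), .t 2 (nat_lit 0x191) (.g 3 1 0 13 18 false true), .t 3 (nat_lit 0x1c9019c) (.a 1 3 13 18 true), .t 3 (nat_lit 0x1ca019c) (.a 1 3 13 18 false), .t 2 (nat_lit 0x19c) (.g 18 1 0 3 13 true false), .t 2 (nat_lit 0x19c) (.g 18 3 0 1 13 true false), .t 2 (nat_lit 0x1cb) (.g 0 11 1 13 18 true true), .t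 2 (nat_lit 0x1cc) (.g 0 11 1 13 18 true true), .t 3 (nat_lit 0x1cd019c) (.g 0 11 3 13 18 true true), .t 3 (nat_lit 0x1ce019c) (.g 0 11 3 13 18 true true), .t 2 (nat_lit 0x194) (.g 14 1 0 3 15 false true), .t 2 (nat_lit 0x195) (.g 1 3 0 14 15 true true), .t 2 (nat_lit 0x194) (.g 3 1 0 14 15 false true), .t 3 (nat_lit 0x1cf0195) (.a 1 3 14 15 true), .t 3 (nat_lit 0x1d00195) (.a 1 3 14 15 false), .t 2 (nat_lit 0x195) (.g 15 1 0 3 14 true false), .t 2 (nat_lit 0x195) (.g 15 3 0 1 14 true false), .t 2 (nat_lit 0x1d1) (.g 0 11 1 14 15 true true)] (by decide +kernel) (by decide +kernel)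
theorem b102 : B 6528 6592 := Blk.of_chk [.t 2 (nat_lit 0x1d2) (.g 0 11 1 14 15 true true), .t 3 (nat_lit 0x1d30195) (.g 0 11 3 14 15 true true), .t 2 (nat_lit 0x197) (.g 1 3 0 14 16 true true), .t 2 (nat_lit 0x194) (.g 3 1 0 14 16 false true), .t 3 (nat_lit 0x1d40197) (.a 1 3 14 16 true), .t 3 (nat_lit 0x1d50197) (.a 1 3 14 16 false), .t 2 (nat_lit 0x197) (.g 16 1 0 3 14 true false), .t 2 (nat_lit 0x197) (.g 16 3 0 1 14 true false), .t 2 (nat_lit 0x1d6) (.g 0 11 1 14 16 true true), .t 2 (nat_lit 0x1d7) (.g 0 11 1 14 16 true true), .t 3 (nat_lit 0x1d80197) (.g 0 11 3 14 16 true true), .t 3 (nat_lit 0x1d90197) (.g 0 11 3 14 16 true true), .t 2 (nat_lit 0x194) (.g 14 1 0 3 17 false true), .t 2 (nat_lit 0x199) (.g 1 3 0 14 17 true true), .t 3 (nat_lit 0x1da0194) (.g 3 0 1 14 17 true false), .t 3 (nat_lit 0x1db0199) (.a 1 3 14 17 true), .t 3 (nat_lit 0x1dc0199) (.a 1 3 14 17 false),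 .t 2 (nat_lit 0x199) (.g 17 1 0 3 14 true false), .t 2 (nat_lit 0x199) (.g 17 3 0 1 14 true false), .t 2 (nat_lit 0x1dd) (.g 0 11 1 14 17 true true), .t 2 (nat_lit 0x1de) (.g 0 11 1 14 17 true true), .t 3 (nat_lit 0x1df0199) (.g 0 11 3 14 17 true true), .t 3 (nat_lit 0x1e00199) (.g 0 11 3 14 17 true true), .t 2 (nat_lit 0x194) (.g 14 1 0 3 18 false true), .t 2 (nat_lit 0x1e1) (.g 0 11 3 14 18 true true), .t 2 (nat_lit 0x19c) (.g 1 3 0 14 18 true true), .t 2 (nat_lit 0x194) (.g 3 1 0 14 18 false true), .t 3 (nat_lit 0x1e20194) (.g 3 0 1 14 18 true false), .t 2 (nat_lit 0x194) (.g 3 0 1 14 18 true false), .t 3 (nat_lit 0x1e3019c) (.a 1 3 14 18 true), .t 3 (nat_lit 0x1e4019c) (.a 1 3 14 18 false), .t 2 (nat_lit 0x19c) (.g 18 1 0 3 14 true false), .t 2 (nat_lit 0x19c) (.g 18 3 0 1 14 true false), .t 2 (nat_lit 0x1e5) (.g 0 11 1 14 18 true true), .t 2 (nat_lit 0x1e6) (.g 0 11 1 14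 18 true true), .t 3 (nat_lit 0x1e7019c) (.g 0 11 3 14 18 true true), .t 3 (nat_lit 0x1e8019c) (.g 0 11 3 14 18 true true), .t 2 (nat_lit 0x195) (.g 15 0 1 3 16 false true), .t 3 (nat_lit 0x1e90195) (.g 15 0 1 3 16 false true), .t 3 (nat_lit 0x1ea0195) (.g 3 0 1 15 16 true false), .t 3 (nat_lit 0x1eb0197) (.a 1 3 15 16 true), .t 3 (nat_lit 0x1ec0197) (.a 1 3 15 16 false), .t 2 (nat_lit 0x197) (.g 16 1 0 3 15 true false), .t 2 (nat_lit 0x1ed) (.g 0 11 1 15 16 true true), .t 2 (nat_lit 0x1ee) (.g 0 11 1 15 16 true true), .t 3 (nat_lit 0x1ef0197) (.g 0 11 3 15 16 true true), .t 3 (nat_lit 0x1f00197) (.g 0 11 3 15 16 true true), .t 3 (nat_lit 0x1f10195) (.g 15 0 1 3 17 false true), .t 3 (nat_lit 0x1f20199) (.a 1 3 15 17 true), .t 2 (nat_lit 0x199) (.g 17 1 0 3 15 true false), .t 2 (nat_lit 0x199) (.g 17 3 0 1 15 true false), .t 2 (nat_lit 0x1f3) (.g 0 11 1 15 17 true true), .t 2 (nat_lit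 0x1f4) (.g 0 11 1 15 17 true true), .t 3 (nat_lit 0x1f50199) (.g 0 11 3 15 17 true true), .t 3 (nat_lit 0x1f60199) (.g 0 11 3 15 17 true true), .t 2 (nat_lit 0x195) (.g 15 1 0 3 18 false true), .t 3 (nat_lit 0x1f70195) (.a 1 3 15 18 true), .t 2 (nat_lit 0x19c) (.g 1 3 0 15 18 true true), .t 2 (nat_lit 0x19c) (.g 18 1 0 3 15 true false), .t 2 (nat_lit 0x19c) (.g 18 3 0 1 15 true false), .t 2 (nat_lit 0x1f8) (.g 0 11 1 15 18 true true), .t 3 (nat_lit 0x1f9019c) (.g 0 11 3 15 18 true true), .t 3 (nat_lit 0x1fa019c) (.g 0 11 3 15 18 true true), .t 3 (nat_lit 0x1fb0197) (.g 0 11 1 16 17 true true)] (by decide +kernel) (by decide +kernel)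
theorem b103 : B 6592 6656 := Blk.of_chk [.t 2 (nat_lit 0x197) (.g 16 1 0 3 17 false true), .t 2 (nat_lit 0x1fc) (.g 0 11 1 16 17 true true), .t 3 (nat_lit 0x1fd0199) (.a 1 3 16 17 true), .t 2 (nat_lit 0x199) (.g 17 1 0 3 16 true false), .t 2 (nat_lit 0x199) (.g 17 3 0 1 16 true false), .t 2 (nat_lit 0x1fe) (.g 0 11 1 16 17 true true), .t 2 (nat_lit 0x1ff) (.g 0 11 1 16 17 true true), .t 3 (nat_lit 0x2000199) (.g 0 11 3 16 17 true true), .t 3 (nat_lit 0x2010199) (.g 0 11 3 16 17 true true), .t 3 (nat_lit 0x2020197) (.g 0 11 1 16 18 true true), .t 3 (nat_lit 0x2030197) (.a 1 3 16 18 true), .t 2 (nat_lit 0x19c) (.g 1 3 0 16 18 true true), .t 2 (nat_lit 0x19c) (.g 18 1 0 3 16 true false), .t 2 (nat_lit 0x19c) (.g 18 3 0 1 16 true false), .t 2 (nat_lit 0x204) (.g 0 11 1 16 18 true true), .t 2 (nat_lit 0x205) (.g 0 11 1 16 18 true true), .t 3 (nat_lit 0x206019c) (.g 0 11 3 16 18 true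 true), .t 3 (nat_lit 0x207019c) (.g 0 11 3 16 18 true true), .t 3 (nat_lit 0x2080199) (.g 0 11 1 17 18 true true), .t 2 (nat_lit 0x199) (.g 17 1 0 3 18 false true), .t 2 (nat_lit 0x209) (.g 0 11 1 17 18 true true), .t 2 (nat_lit 0x19c) (.g 1 3 0 17 18 true true), .t 3 (nat_lit 0x20a019c) (.a 1 3 17 18 true), .t 2 (nat_lit 0x20b) (.g 0 11 1 17 18 true true), .t 3 (nat_lit 0x20c019c) (.g 0 11 3 17 18 true true), .t 3 (nat_lit 0x20d019c) (.g 0 11 3 17 18 true true), .t 1 (nat_lit 0) (.bn 99), .t 1 (nat_lit 0) (.g 5 4 0 1 8 false true), .t 1 (nat_lit 0) (.g 1 4 0 5 11 true false), .t 1 (nat_lit 0) (.g 4 1 0 5 11 false false), .t 1 (nat_lit 0) (.g 5 0 1 4 11 true true), .t 1 (nat_lit 0) (.g 1 4 0 5 12 true false), .t 2 (nat_lit 0x20e) (.g 0 11 1 4 12 true true), .t 2 (nat_lit 0x20f) (.g 0 11 1 5 12 true true), .t 1 (nat_lit 0) (.g 1 4 0 5 13 true false), .t 2 (nat_lit 0x210) (.g 0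 11 1 4 13 true true), .t 2 (nat_lit 0x211) (.g 0 11 1 5 13 true true), .t 1 (nat_lit 0) (.g 1 4 0 5 14 true false), .t 2 (nat_lit 0x212) (.g 0 11 1 4 14 true true), .t 2 (nat_lit 0x213) (.g 0 11 1 5 14 true true), .t 2 (nat_lit 0x214) (.g 0 11 4 5 15 true true), .t 1 (nat_lit 0) (.g 1 4 0 5 15 true false), .t 1 (nat_lit 0) (.g 1 4 0 5 15 true false), .t 2 (nat_lit 0x215) (.g 0 11 1 4 15 true true), .t 2 (nat_lit 0x216) (.g 0 11 1 5 16 true true), .t 2 (nat_lit 0x217) (.g 0 11 4 5 16 true true), .t 1 (nat_lit 0) (.g 5 4 0 1 16 false true), .t 1 (nat_lit 0) (.g 1 0 4 5 16 false true), .t 1 (nat_lit 0) (.g 1 4 0 5 16 true false), .t 1 (nat_lit 0) (.g 1 4 0 5 16 true false), .t 2 (nat_lit 0x218) (.g 0 11 1 4 16 true true), .t 2 (nat_lit 0x219) (.g 0 11 1 5 17 true true), .t 2 (nat_lit 0x21a) (.g 0 11 4 5 17 true true), .t 1 (nat_lit 0) (.g 5 4 0 1 17 false true), .t 1 (nat_lit 0)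 (.g 1 0 4 5 17 false true), .t 1 (nat_lit 0) (.g 1 0 4 5 17 false true), .t 1 (nat_lit 0) (.g 1 4 0 5 17 true false), .t 2 (nat_lit 0x21b) (.g 0 11 1 4 17 true true), .t 2 (nat_lit 0x21c) (.g 0 11 1 5 17 true true), .t 2 (nat_lit 0x21d) (.g 0 11 1 5 18 true true), .t 2 (nat_lit 0x21e) (.g 0 11 4 5 18 true true), .t 1 (nat_lit 0) (.g 5 4 0 1 18 false true), .t 1 (nat_lit 0) (.g 1 4 0 5 18 true false), .t 1 (nat_lit 0) (.g 1 4 0 5 18 true false)] (by decide +kernel) (by decide +kernel)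
theorem b104 : B 6656 6720 := Blk.of_chk [.t 2 (nat_lit 0x21f) (.g 0 11 1 4 18 true true), .t 2 (nat_lit 0x220) (.g 0 11 1 5 18 true true), .t 1 (nat_lit 0) (.g 1 4 0 6 11 true false), .t 1 (nat_lit 0) (.g 4 1 0 6 11 false false), .t 1 (nat_lit 0) (.g 6 0 1 4 11 true true), .t 1 (nat_lit 0) (.g 1 4 0 6 12 true false), .t 2 (nat_lit 0x221) (.g 0 11 1 4 12 true true), .t 2 (nat_lit 0x222) (.g 0 11 1 6 12 true true), .t 1 (nat_lit 0) (.g 1 4 0 6 13 true false), .t 2 (nat_lit 0x223) (.g 0 11 1 4 13 true true), .t 2 (nat_lit 0x224) (.g 0 11 1 6 13 true true), .t 1 (nat_lit 0) (.g 1 4 0 6 14 true false), .t 2 (nat_lit 0x225) (.g 0 11 1 4 14 true true), .t 2 (nat_lit 0x226) (.g 0 11 1 6 14 true true), .t 1 (nat_lit 0) (.g 6 4 0 1 15 false true), .t 1 (nat_lit 0) (.g 1 4 0 6 15 true false), .t 2 (nat_lit 0x227) (.g 0 11 1 4 15 true true), .t 2 (nat_lit 0x228) (.g 0 11 1 6 16 true true),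 .t 2 (nat_lit 0x229) (.g 0 11 4 6 16 true true), .t 1 (nat_lit 0) (.g 6 4 0 1 16 false true), .t 1 (nat_lit 0) (.g 1 0 4 6 16 false true), .t 1 (nat_lit 0) (.g 1 4 0 6 16 true false), .t 1 (nat_lit 0) (.g 1 4 0 6 16 true false), .t 2 (nat_lit 0x22a) (.g 0 11 1 4 16 true true), .t 2 (nat_lit 0x22b) (.g 0 11 1 6 17 true true), .t 2 (nat_lit 0x22c) (.g 0 11 4 6 17 true true), .t 1 (nat_lit 0) (.g 1 0 4 6 17 false true), .t 1 (nat_lit 0) (.g 1 0 4 6 17 false true), .t 1 (nat_lit 0) (.g 1 4 0 6 17 true false), .t 2 (nat_lit 0x22d) (.g 0 11 1 4 17 true true), .t 2 (nat_lit 0x22e) (.g 0 11 1 6 17 true true), .t 2 (nat_lit 0x22f) (.g 0 11 1 6 18 true true), .t 2 (nat_lit 0x230) (.g 0 11 4 6 18 true true), .t 1 (nat_lit 0) (.g 1 4 0 6 18 true false), .t 1 (nat_lit 0) (.g 1 4 0 6 18 true false), .t 2 (nat_lit 0x231) (.g 0 11 1 4 18 true true), .t 2 (nat_lit 0x232) (.g 0 11 1 6 18 true true),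 .t 1 (nat_lit 0) (.g 1 4 0 7 11 true false), .t 1 (nat_lit 0) (.g 4 1 0 7 11 false false), .t 1 (nat_lit 0) (.g 7 0 1 4 11 true true), .t 1 (nat_lit 0) (.g 1 4 0 7 12 true false), .t 2 (nat_lit 0x233) (.g 0 11 1 7 12 true true), .t 1 (nat_lit 0) (.g 1 4 0 7 13 true false), .t 2 (nat_lit 0x234) (.g 0 11 1 4 13 true true), .t 2 (nat_lit 0x235) (.g 0 11 1 7 13 true true), .t 2 (nat_lit 0x236) (.g 0 11 4 7 14 true true), .t 1 (nat_lit 0) (.g 1 4 0 7 14 true false), .t 2 (nat_lit 0x237) (.g 0 11 1 4 14 true true), .t 2 (nat_lit 0x238) (.g 0 11 1 7 14 true true), .t 2 (nat_lit 0x239) (.g 0 11 1 7 15 true true), .t 2 (nat_lit 0x23a) (.g 0 11 4 7 15 true true), .t 1 (nat_lit 0) (.g 7 4 0 1 15 false true), .t 1 (nat_lit 0) (.g 1 4 0 7 15 true false), .t 2 (nat_lit 0x23b) (.g 0 11 1 4 15 true true), .t 2 (nat_lit 0x23c) (.g 0 11 1 7 16 true true), .t 2 (nat_lit 0x23d) (.g 0 11 4 7 16 true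 true), .t 1 (nat_lit 0) (.g 7 4 0 1 16 false true), .t 1 (nat_lit 0) (.g 1 0 4 7 16 false true), .t 1 (nat_lit 0) (.g 1 4 0 7 16 true false), .t 1 (nat_lit 0) (.g 1 4 0 7 16 true false), .t 2 (nat_lit 0x23e) (.g 0 11 1 4 16 true true), .t 2 (nat_lit 0x23f) (.g 0 11 1 7 16 true true), .t 2 (nat_lit 0x240) (.g 0 11 1 7 17 true true), .t 2 (nat_lit 0x241) (.g 0 11 4 7 17 true true)] (by decide +kernel) (by decide +kernel)
theorem b105 : B 6720 6784 := Blk.of_chk [.t 1 (nat_lit 0) (.g 7 4 0 1 17 false true), .t 1 (nat_lit 0) (.g 1 4 0 7 17 true false), .t 2 (nat_lit 0x242) (.g 0 11 1 4 17 true true), .t 2 (nat_lit 0x243) (.g 0 11 1 7 17 true true), .t 2 (nat_lit 0x244) (.g 0 11 1 7 18 true true), .t 2 (nat_lit 0x245) (.g 0 11 4 7 18 true true), .t 1 (nat_lit 0) (.g 7 4 0 1 18 false true), .t 1 (nat_lit 0) (.g 4 7 0 1 18 true true), .t 2 (nat_lit 0x244) (.g 4 1 0 7 18 false false),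 .t 1 (nat_lit 0) (.g 1 4 0 7 18 true false), .t 2 (nat_lit 0x246) (.g 0 11 1 4 18 true true), .t 2 (nat_lit 0x247) (.g 0 11 1 7 18 true true), .t 1 (nat_lit 0) (.g 1 4 0 8 11 true false), .t 1 (nat_lit 0) (.g 4 1 0 8 11 false false), .t 1 (nat_lit 0) (.g 8 0 1 4 11 true true), .t 1 (nat_lit 0) (.g 1 4 0 8 12 true false), .t 2 (nat_lit 0x248) (.g 0 11 1 4 12 true true), .t 2 (nat_lit 0x249) (.g 0 11 1 8 12 true true), .t 1 (nat_lit 0) (.g 1 4 0 8 13 true false), .t 2 (nat_lit 0x24a) (.g 0 11 1 4 13 true true), .t 2 (nat_lit 0x24b) (.g 0 11 1 8 13 true true), .t 1 (nat_lit 0) (.g 1 4 0 8 14 true false), .t 2 (nat_lit 0x24c) (.g 0 11 1 4 14 true true), .t 2 (nat_lit 0x24d) (.g 0 11 1 8 14 true true), .t 1 (nat_lit 0) (.g 8 4 0 1 15 false true), .t 1 (nat_lit 0) (.g 1 4 0 8 15 true false), .t 2 (nat_lit 0x24e) (.g 0 11 1 4 15 true true), .t 2 (nat_lit 0x24f) (.g 0 11 4 8 16 true true),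 .t 1 (nat_lit 0) (.g 8 4 0 1 16 false true), .t 1 (nat_lit 0) (.g 1 4 0 8 16 true false), .t 1 (nat_lit 0) (.g 1 4 0 8 16 true false), .t 2 (nat_lit 0x250) (.g 0 11 1 4 16 true true), .t 2 (nat_lit 0x251) (.g 0 11 4 8 17 true true), .t 1 (nat_lit 0) (.g 8 4 0 1 17 false true), .t 1 (nat_lit 0) (.g 1 4 0 8 17 true false), .t 2 (nat_lit 0x252) (.g 0 11 1 4 17 true true), .t 2 (nat_lit 0x253) (.g 0 11 1 8 17 true true), .t 2 (nat_lit 0x254) (.g 0 11 1 8 18 true true), .t 2 (nat_lit 0x255) (.g 0 11 4 8 18 true true), .t 1 (nat_lit 0) (.g 8 4 0 1 18 false true), .t 1 (nat_lit 0) (.g 8 0 1 4 18 true true), .t 1 (nat_lit 0) (.g 1 4 0 8 18 true false), .t 1 (nat_lit 0) (.g 1 4 0 8 18 true false), .t 2 (nat_lit 0x256) (.g 0 11 1 4 18 true true), .t 2 (nat_lit 0x257) (.g 0 11 1 8 18 true true), .t 1 (nat_lit 0) (.g 1 4 0 9 11 true false), .t 1 (nat_lit 0) (.g 4 1 0 9 11 false false), .t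 1 (nat_lit 0) (.g 9 0 1 4 11 true true), .t 1 (nat_lit 0) (.g 1 4 0 9 12 true false), .t 2 (nat_lit 0x258) (.g 0 11 1 4 12 true true), .t 2 (nat_lit 0x259) (.g 0 11 1 9 12 true true), .t 1 (nat_lit 0) (.g 1 4 0 9 13 true false), .t 2 (nat_lit 0x25a) (.g 0 11 1 4 13 true true), .t 2 (nat_lit 0x25b) (.g 0 11 1 9 13 true true), .t 1 (nat_lit 0) (.g 1 4 0 9 14 true false), .t 2 (nat_lit 0x25c) (.g 0 11 1 4 14 true true), .t 2 (nat_lit 0x25d) (.g 0 11 1 9 14 true true), .t 1 (nat_lit 0) (.g 9 4 0 1 15 false true), .t 1 (nat_lit 0) (.g 1 4 0 9 15 true false), .t 2 (nat_lit 0x25e) (.g 0 11 1 4 15 true true), .t 2 (nat_lit 0x25f) (.g 0 11 1 9 15 true true), .t 1 (nat_lit 0) (.g 9 4 0 1 16 false true), .t 1 (nat_lit 0) (.g 1 4 0 9 16 true false), .t 1 (nat_lit 0) (.g 1 4 0 9 16 true false)] (by decide +kernel) (by decide +kernel)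
theorem b106 : B 6784 6848 := Blk.of_chk [.t 2 (nat_lit 0x260) (.g 0 11 1 4 16 true true), .t 2 (nat_lit 0x261) (.g 0 11 1 9 16 true true), .t 1 (nat_lit 0) (.g 1 4 0 9 17 true false), .t 2 (nat_lit 0x262) (.g 0 11 1 4 17 true true), .t 2 (nat_lit 0x263) (.g 0 11 1 9 17 true true), .t 1 (nat_lit 0) (.g 1 4 0 9 18 true false), .t 2 (nat_lit 0x264) (.g 0 11 1 4 18 true true), .t 2 (nat_lit 0x265) (.g 0 11 1 9 18 true true), .t 1 (nat_lit 0) (.g 1 4 0 10 11 true false), .t 1 (nat_lit 0) (.g 4 1 0 10 11 false false), .t 1 (nat_lit 0) (.g 10 0 1 4 11 true true), .t 1 (nat_lit 0) (.g 1 4 0 10 12 true false), .t 2 (nat_lit 0x266) (.g 0 11 1 4 12 true true), .t 2 (nat_lit 0x267) (.g 0 11 1 10 12 true true), .t 1 (nat_lit 0) (.g 1 4 0 10 13 true false), .t 2 (nat_lit 0x268) (.g 0 11 1 4 13 true true), .t 2 (nat_lit 0x269) (.g 0 11 1 10 13 true true), .t 1 (nat_lit 0) (.g 1 4 0 10 14 true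 false), .t 2 (nat_lit 0x26a) (.g 0 11 1 4 14 true true), .t 2 (nat_lit 0x26b) (.g 0 11 1 10 14 true true), .t 1 (nat_lit 0) (.g 10 0 1 4 15 true true), .t 1 (nat_lit 0) (.g 1 4 0 10 15 true false), .t 2 (nat_lit 0x26c) (.g 0 11 1 4 15 true true), .t 2 (nat_lit 0x26d) (.g 0 11 1 10 15 true true), .t 1 (nat_lit 0) (.g 1 4 0 10 16 true false), .t 1 (nat_lit 0) (.g 1 4 0 10 16 true false), .t 2 (nat_lit 0x26e) (.g 0 11 1 4 16 true true), .t 2 (nat_lit 0x26f) (.g 0 11 1 10 16 true true), .t 1 (nat_lit 0) (.g 1 4 0 10 17 true false), .t 2 (nat_lit 0x270) (.g 0 11 1 4 17 true true), .t 2 (nat_lit 0x271) (.g 0 11 1 10 17 true true), .t 2 (nat_lit 0x272) (.g 0 11 4 10 18 true true), .t 1 (nat_lit 0) (.g 10 0 1 4 18 true true), .t 1 (nat_lit 0) (.g 1 4 0 10 18 true false), .t 1 (nat_lit 0) (.g 1 4 0 10 18 true false), .t 2 (nat_lit 0x273) (.g 0 11 1 4 18 true true), .t 2 (nat_lit 0x274)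 (.g 0 11 1 10 18 true true), .t 1 (nat_lit 0) (.g 11 0 1 4 12 false false), .t 2 (nat_lit 0x275) (.g 11 0 1 4 12 false false), .t 1 (nat_lit 0) (.g 1 12 0 4 11 false false), .t 2 (nat_lit 0x276) (.g 4 0 1 11 12 true false), .t 1 (nat_lit 0) (.g 11 0 1 4 13 false true), .t 1 (nat_lit 0) (.g 11 0 1 4 13 false false), .t 2 (nat_lit 0x277) (.g 11 0 1 4 13 false true), .t 2 (nat_lit 0x278) (.g 11 0 1 4 13 false false), .t 2 (nat_lit 0x279) (.g 4 0 1 11 13 true false), .t 2 (nat_lit 0x27a) (.g 1 4 0 11 14 true true), .t 1 (nat_lit 0) (.g 11 0 1 4 14 false true), .t 1 (nat_lit 0) (.g 11 0 1 4 14 false false), .t 2 (nat_lit 0x27b) (.g 11 0 1 4 14 false true), .t 2 (nat_lit 0x27c) (.g 11 0 1 4 14 false false), .t 2 (nat_lit 0x27a) (.g 4 0 1 11 14 true true), .t 2 (nat_lit 0x27a) (.g 4 0 1 11 14 true false), .t 1 (nat_lit 0) (.g 11 0 1 4 15 false false), .t 2 (nat_lit 0x27d) (.g 1 4 0 11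 15 true true), .t 1 (nat_lit 0) (.g 4 0 1 11 15 true false), .t 1 (nat_lit 0) (.g 11 0 1 4 15 false true), .t 1 (nat_lit 0) (.g 11 0 1 4 15 false false), .t 2 (nat_lit 0x27e) (.g 11 0 1 4 15 false true), .t 2 (nat_lit 0x27f) (.g 11 0 1 4 15 false false), .t 2 (nat_lit 0x27d) (.g 4 0 1 11 15 true true), .t 1 (nat_lit 0) (.g 11 0 1 4 16 false false), .t 2 (nat_lit 0x280) (.g 1 4 0 11 16 true true), .t 1 (nat_lit 0) (.g 4 1 0 11 16 false true)] (by decide +kernel) (by decide +kernel)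
theorem b107 : B 6848 6912 := Blk.of_chk [.t 1 (nat_lit 0) (.g 11 0 1 4 16 false true), .t 1 (nat_lit 0) (.g 11 0 1 4 16 false true), .t 1 (nat_lit 0) (.g 11 0 1 4 16 false false), .t 2 (nat_lit 0x281) (.g 11 0 1 4 16 false true), .t 2 (nat_lit 0x282) (.g 11 0 1 4 16 false false), .t 2 (nat_lit 0x280) (.g 4 0 1 11 16 true true), .t 2 (nat_lit 0x280) (.g 4 0 1 11 16 true false), .t 1 (nat_lit 0) (.g 11 0 1 4 17 false false), .t 2 (nat_lit 0x283) (.g 1 4 0 11 17 true true), .t 1 (nat_lit 0) (.g 4 1 0 11 17 false true), .t 1 (nat_lit 0) (.g 11 0 1 4 17 false true), .t 1 (nat_lit 0) (.g 11 0 1 4 17 false false), .t 2 (nat_lit 0x284) (.g 11 0 1 4 17 false true), .t 2 (nat_lit 0x285) (.g 11 0 1 4 17 false false), .t 2 (nat_lit 0x283) (.g 4 0 1 11 17 true true), .t 2 (nat_lit 0x283) (.g 4 0 1 11 17 true false), .t 1 (nat_lit 0) (.g 11 0 1 4 18 false false), .t 2 (nat_lit 0x286) (.g 1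 4 0 11 18 true true), .t 1 (nat_lit 0) (.g 4 1 0 11 18 false true), .t 2 (nat_lit 0x287) (.g 11 0 1 4 18 false true), .t 2 (nat_lit 0x286) (.g 4 0 1 11 18 true true), .t 3 (nat_lit 0x2880279) (.a 1 4 12 13 true), .t 3 (nat_lit 0x2890279) (.a 1 4 12 13 false), .t 2 (nat_lit 0x279) (.g 13 1 0 4 12 true false), .t 2 (nat_lit 0x279) (.g 13 4 0 1 12 true false), .t 2 (nat_lit 0x28a) (.g 0 11 1 12 13 true true), .t 2 (nat_lit 0x28b) (.g 0 11 1 12 13 true true), .t 3 (nat_lit 0x28c0279) (.g 0 11 4 12 13 true true), .t 3 (nat_lit 0x28d027a) (.a 1 4 12 14 true), .t 2 (nat_lit 0x27a) (.g 14 1 0 4 12 true false), .t 2 (nat_lit 0x27a) (.g 14 4 0 1 12 true false), .t 2 (nat_lit 0x28e) (.g 0 11 1 12 14 true true), .t 2 (nat_lit 0x28f) (.g 0 11 1 12 14 true true), .t 3 (nat_lit 0x290027a) (.g 0 11 4 12 14 true true), .t 3 (nat_lit 0x291027d) (.g 4 1 0 12 15 false true), .t 2 (nat_lit 0x27d)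 (.g 1 4 0 12 15 true true), .t 2 (nat_lit 0x276) (.g 4 1 0 12 15 false true), .t 3 (nat_lit 0x292027d) (.a 1 4 12 15 true), .t 3 (nat_lit 0x293027d) (.a 1 4 12 15 false), .t 2 (nat_lit 0x27d) (.g 15 1 0 4 12 true false), .t 2 (nat_lit 0x27d) (.g 15 4 0 1 12 true false), .t 2 (nat_lit 0x294) (.g 0 11 1 12 15 true true), .t 3 (nat_lit 0x295027d) (.g 0 11 4 12 15 true true), .t 3 (nat_lit 0x2960280) (.g 4 1 0 12 16 false true), .t 2 (nat_lit 0x280) (.g 1 4 0 12 16 true true), .t 2 (nat_lit 0x276) (.g 4 1 0 12 16 false true), .t 3 (nat_lit 0x2970276) (.g 12 0 1 4 16 false false), .t 2 (nat_lit 0x276) (.g 4 0 1 12 16 true false), .t 3 (nat_lit 0x2980280) (.a 1 4 12 16 true), .t 2 (nat_lit 0x280) (.g 16 1 0 4 12 true false), .t 2 (nat_lit 0x280) (.g 16 4 0 1 12 true false), .t 2 (nat_lit 0x299) (.g 0 11 1 12 16 true true), .t 3 (nat_lit 0x29a0280) (.g 0 11 4 12 16 true true), .t 2 (nat_lit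 0x283) (.g 1 4 0 12 17 true true), .t 2 (nat_lit 0x276) (.g 4 1 0 12 17 false true), .t 3 (nat_lit 0x29b0283) (.a 1 4 12 17 true), .t 3 (nat_lit 0x29c0283) (.a 1 4 12 17 false), .t 2 (nat_lit 0x283) (.g 17 1 0 4 12 true false), .t 2 (nat_lit 0x283) (.g 17 4 0 1 12 true false), .t 2 (nat_lit 0x29d) (.g 0 11 1 12 17 true true), .t 2 (nat_lit 0x29e) (.g 0 11 1 12 17 true true), .t 3 (nat_lit 0x29f0283) (.g 0 11 4 12 17 true true), .t 3 (nat_lit 0x2a00283) (.g 0 11 4 12 17 true true), .t 2 (nat_lit 0x286) (.g 1 4 0 12 18 true true)] (by decide +kernel) (by decide +kernel)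
theorem b108 : B 6912 6976 := Blk.of_chk [.t 2 (nat_lit 0x276) (.g 4 1 0 12 18 false true), .t 3 (nat_lit 0x2a10286) (.a 1 4 12 18 true), .t 2 (nat_lit 0x286) (.g 18 1 0 4 12 true false), .t 2 (nat_lit 0x2a2) (.g 0 11 1 12 18 true true), .t 2 (nat_lit 0x2a3) (.g 0 11 1 12 18 true true), .t 3 (nat_lit 0x2a40286) (.g 0 11 4 12 18 true true), .t 2 (nat_lit 0x2a5) (.g 0 11 4 13 14 true true), .t 3 (nat_lit 0x2a6027a) (.a 1 4 13 14 true), .t 3 (nat_lit 0x2a7027a) (.a 1 4 13 14 false), .t 2 (nat_lit 0x27a) (.g 14 1 0 4 13 true false), .t 2 (nat_lit 0x27a) (.g 14 4 0 1 13 true false), .t 2 (nat_lit 0x2a8) (.g 0 11 1 13 14 true true), .t 2 (nat_lit 0x2a9) (.g 0 11 1 13 14 true true), .t 3 (nat_lit 0x2aa027a) (.g 0 11 4 13 14 true true), .t 3 (nat_lit 0x2ab027a) (.g 0 11 4 13 14 true true), .t 3 (nat_lit 0x2ac027d) (.g 4 1 0 13 15 false true), .t 2 (nat_lit 0x279) (.g 13 0 1 4 15 false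 false), .t 2 (nat_lit 0x27d) (.g 1 4 0 13 15 true true), .t 2 (nat_lit 0x279) (.g 4 1 0 13 15 false true), .t 2 (nat_lit 0x279) (.g 4 0 1 13 15 true false), .t 3 (nat_lit 0x2ad027d) (.a 1 4 13 15 true), .t 3 (nat_lit 0x2ae027d) (.a 1 4 13 15 false), .t 2 (nat_lit 0x27d) (.g 15 1 0 4 13 true false), .t 2 (nat_lit 0x27d) (.g 15 4 0 1 13 true false), .t 2 (nat_lit 0x2af) (.g 0 11 1 13 15 true true), .t 2 (nat_lit 0x2b0) (.g 0 11 1 13 15 true true), .t 3 (nat_lit 0x2b10280) (.g 4 1 0 13 16 false true), .t 2 (nat_lit 0x2b2) (.g 0 11 4 13 16 true true), .t 2 (nat_lit 0x279) (.g 13 0 1 4 16 false false), .t 2 (nat_lit 0x280) (.g 1 4 0 13 16 true true), .t 2 (nat_lit 0x279) (.g 4 1 0 13 16 false true), .t 3 (nat_lit 0x2b30279) (.g 13 0 1 4 16 false false), .t 3 (nat_lit 0x2b40279) (.g 4 0 1 13 16 true false), .t 3 (nat_lit 0x2b50280) (.a 1 4 13 16 true), .t 3 (nat_lit 0x2b60280) (.a 1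 4 13 16 false), .t 2 (nat_lit 0x280) (.g 16 1 0 4 13 true false), .t 2 (nat_lit 0x280) (.g 16 4 0 1 13 true false), .t 2 (nat_lit 0x2b7) (.g 0 11 1 13 16 true true), .t 2 (nat_lit 0x2b8) (.g 0 11 1 13 16 true true), .t 3 (nat_lit 0x2b90280) (.g 0 11 4 13 16 true true), .t 2 (nat_lit 0x283) (.g 1 4 0 13 17 true true), .t 2 (nat_lit 0x279) (.g 4 1 0 13 17 false true), .t 3 (nat_lit 0x2ba0279) (.g 4 0 1 13 17 true false), .t 3 (nat_lit 0x2bb0283) (.a 1 4 13 17 true), .t 3 (nat_lit 0x2bc0283) (.a 1 4 13 17 false), .t 2 (nat_lit 0x283) (.g 17 1 0 4 13 true false), .t 2 (nat_lit 0x283) (.g 17 4 0 1 13 true false), .t 2 (nat_lit 0x2bd) (.g 0 11 1 13 17 true true), .t 2 (nat_lit 0x2be) (.g 0 11 1 13 17 true true), .t 3 (nat_lit 0x2bf0283) (.g 0 11 4 13 17 true true), .t 3 (nat_lit 0x2c00283) (.g 0 11 4 13 17 true true), .t 2 (nat_lit 0x2c1) (.g 0 11 4 13 18 true true), .t 2 (nat_lit 0x286)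 (.g 1 4 0 13 18 true true), .t 2 (nat_lit 0x279) (.g 4 1 0 13 18 false true), .t 3 (nat_lit 0x2c20279) (.g 4 0 1 13 18 true false), .t 3 (nat_lit 0x2c30286) (.a 1 4 13 18 true), .t 3 (nat_lit 0x2c40286) (.a 1 4 13 18 false), .t 2 (nat_lit 0x286) (.g 18 1 0 4 13 true false), .t 2 (nat_lit 0x2c5) (.g 0 11 1 13 18 true true), .t 2 (nat_lit 0x2c6) (.g 0 11 1 13 18 true true), .t 3 (nat_lit 0x2c70286) (.g 0 11 4 13 18 true true), .t 3 (nat_lit 0x2c80286) (.g 0 11 4 13 18 true true), .t 3 (nat_lit 0x2c9027d) (.g 4 1 0 14 15 false true), .t 2 (nat_lit 0x27d) (.g 1 4 0 14 15 true true)] (by decide +kernel) (by decide +kernel)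
theorem b109 : B 6976 7040 := Blk.of_chk [.t 3 (nat_lit 0x2ca027a) (.g 4 0 1 14 15 true false), .t 2 (nat_lit 0x27a) (.g 4 0 1 14 15 true false), .t 3 (nat_lit 0x2cb027d) (.a 1 4 14 15 true), .t 3 (nat_lit 0x2cc027d) (.a 1 4 14 15 false), .t 2 (nat_lit 0x27d) (.g 15 1 0 4 14 true false), .t 2 (nat_lit 0x27d) (.g 15 4 0 1 14 true false), .t 2 (nat_lit 0x2cd) (.g 0 11 1 14 15 true true), .t 2 (nat_lit 0x2ce) (.g 0 11 1 14 15 true true), .t 3 (nat_lit 0x2cf027d) (.g 0 11 4 14 15 true true), .t 3 (nat_lit 0x2d0027d) (.g 0 11 4 14 15 true true), .t 3 (nat_lit 0x2d10280) (.g 4 1 0 14 16 false true), .t 2 (nat_lit 0x27a) (.g 14 0 1 4 16 false false), .t 2 (nat_lit 0x280) (.g 1 4 0 14 16 true true), .t 3 (nat_lit 0x2d2027a) (.g 14 0 1 4 16 false false), .t 3 (nat_lit 0x2d3027a) (.g 4 0 1 14 16 true false), .t 3 (nat_lit 0x2d40280) (.a 1 4 14 16 true), .t 3 (nat_lit 0x2d50280) (.a 1 4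 14 16 false), .t 2 (nat_lit 0x280) (.g 16 1 0 4 14 true false), .t 2 (nat_lit 0x280) (.g 16 4 0 1 14 true false), .t 2 (nat_lit 0x2d6) (.g 0 11 1 14 16 true true), .t 2 (nat_lit 0x2d7) (.g 0 11 1 14 16 true true), .t 3 (nat_lit 0x2d80280) (.g 0 11 4 14 16 true true), .t 2 (nat_lit 0x27a) (.g 14 0 1 4 17 false false), .t 2 (nat_lit 0x283) (.g 1 4 0 14 17 true true), .t 2 (nat_lit 0x27a) (.g 4 1 0 14 17 false true), .t 3 (nat_lit 0x2d9027a) (.g 4 0 1 14 17 true false), .t 3 (nat_lit 0x2da0283) (.a 1 4 14 17 true), .t 3 (nat_lit 0x2db0283) (.a 1 4 14 17 false), .t 2 (nat_lit 0x283) (.g 17 1 0 4 14 true false), .t 2 (nat_lit 0x283) (.g 17 4 0 1 14 true false), .t 2 (nat_lit 0x2dc) (.g 0 11 1 14 17 true true), .t 2 (nat_lit 0x2dd) (.g 0 11 1 14 17 true true), .t 3 (nat_lit 0x2de0283) (.g 0 11 4 14 17 true true), .t 3 (nat_lit 0x2df0283) (.g 0 11 4 14 17 true true), .t 2 (nat_lit 0x2e0)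 (.g 0 11 4 14 18 true true), .t 2 (nat_lit 0x286) (.g 1 4 0 14 18 true true), .t 2 (nat_lit 0x27a) (.g 4 1 0 14 18 false true), .t 3 (nat_lit 0x2e1027a) (.g 4 0 1 14 18 true false), .t 2 (nat_lit 0x27a) (.g 4 0 1 14 18 true false), .t 3 (nat_lit 0x2e20286) (.a 1 4 14 18 true), .t 3 (nat_lit 0x2e30286) (.a 1 4 14 18 false), .t 2 (nat_lit 0x286) (.g 18 1 0 4 14 true false), .t 2 (nat_lit 0x286) (.g 18 4 0 1 14 true false), .t 2 (nat_lit 0x2e4) (.g 0 11 1 14 18 true true), .t 2 (nat_lit 0x2e5) (.g 0 11 1 14 18 true true), .t 3 (nat_lit 0x2e60286) (.g 0 11 4 14 18 true true), .t 3 (nat_lit 0x2e70286) (.g 0 11 4 14 18 true true), .t 3 (nat_lit 0x2e8027d) (.g 0 11 1 15 16 true true), .t 2 (nat_lit 0x2e9) (.g 0 11 4 15 16 true true), .t 2 (nat_lit 0x2ea) (.g 0 11 4 15 16 true true), .t 2 (nat_lit 0x280) (.g 1 0 4 15 16 false false), .t 3 (nat_lit 0x2e80280) (.g 4 1 0 15 16 false true),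 .t 2 (nat_lit 0x27d) (.g 4 1 0 15 16 false true), .t 3 (nat_lit 0x2eb027d) (.g 15 0 1 4 16 false false), .t 3 (nat_lit 0x2ec0280) (.a 1 4 15 16 true), .t 3 (nat_lit 0x2ed0280) (.a 1 4 15 16 false), .t 2 (nat_lit 0x280) (.g 16 1 0 4 15 true false), .t 2 (nat_lit 0x280) (.g 16 4 0 1 15 true false), .t 2 (nat_lit 0x2ee) (.g 0 11 1 15 16 true true), .t 2 (nat_lit 0x2ef) (.g 0 11 1 15 16 true true), .t 3 (nat_lit 0x2f00280) (.g 0 11 4 15 16 true true), .t 3 (nat_lit 0x2f10280) (.g 0 11 4 15 16 true true), .t 2 (nat_lit 0x283) (.g 1 0 4 15 17 false false), .t 2 (nat_lit 0x27d) (.g 4 1 0 15 17 false true)] (by decide +kernel) (by decide +kernel)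
theorem b110 : B 7040 7104 := Blk.of_chk [.t 3 (nat_lit 0x2f20283) (.a 1 4 15 17 false), .t 2 (nat_lit 0x283) (.g 17 1 0 4 15 true false), .t 2 (nat_lit 0x283) (.g 17 4 0 1 15 true false), .t 2 (nat_lit 0x2f3) (.g 0 11 1 15 17 true true), .t 2 (nat_lit 0x2f4) (.g 0 11 1 15 17 true true), .t 3 (nat_lit 0x2f50283) (.g 0 11 4 15 17 true true), .t 3 (nat_lit 0x2f60283) (.g 0 11 4 15 17 true true), .t 2 (nat_lit 0x286) (.g 1 0 4 15 18 false false), .t 2 (nat_lit 0x286) (.g 1 4 0 15 18 true true), .t 2 (nat_lit 0x27d) (.g 4 1 0 15 18 false true), .t 2 (nat_lit 0x286) (.g 18 1 0 4 15 true false), .t 2 (nat_lit 0x286) (.g 18 4 0 1 15 true false), .t 2 (nat_lit 0x2f7) (.g 0 11 1 15 18 true true), .t 2 (nat_lit 0x2f8) (.g 0 11 1 15 18 true true), .t 3 (nat_lit 0x2f90286) (.g 0 11 4 15 18 true true), .t 3 (nat_lit 0x2fa0286) (.g 0 11 4 15 18 true true), .t 3 (nat_lit 0x2fb0280) (.g 0 11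 1 16 17 true true), .t 3 (nat_lit 0x2fc0280) (.g 0 11 1 16 17 true true), .t 2 (nat_lit 0x2fd) (.g 0 11 4 16 17 true true), .t 2 (nat_lit 0x2fe) (.g 0 11 4 16 17 true true), .t 2 (nat_lit 0x280) (.g 16 4 0 1 17 false true), .t 2 (nat_lit 0x280) (.g 16 1 0 4 17 false true), .t 2 (nat_lit 0x280) (.g 4 1 0 16 17 false true), .t 3 (nat_lit 0x2ff0283) (.a 1 4 16 17 true), .t 3 (nat_lit 0x3000283) (.a 1 4 16 17 false), .t 2 (nat_lit 0x283) (.g 17 1 0 4 16 true false), .t 2 (nat_lit 0x283) (.g 17 4 0 1 16 true false), .t 2 (nat_lit 0x301) (.g 0 11 1 16 17 true true), .t 2 (nat_lit 0x302) (.g 0 11 1 16 17 true true), .t 3 (nat_lit 0x3030283) (.g 0 11 4 16 17 true true), .t 3 (nat_lit 0x3040283) (.g 0 11 4 16 17 true true), .t 3 (nat_lit 0x3050280) (.g 0 11 1 16 18 true true), .t 3 (nat_lit 0x3060280) (.g 0 11 1 16 18 true true), .t 2 (nat_lit 0x307) (.g 0 11 4 16 18 true true), .t 2 (nat_lit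 0x308) (.g 0 11 4 16 18 true true), .t 1 (nat_lit 0) (.g 4 1 0 16 18 false true), .t 2 (nat_lit 0x309) (.g 0 11 1 16 18 true true), .t 2 (nat_lit 0x30a) (.g 0 11 4 16 18 true true), .t 2 (nat_lit 0x286) (.g 1 4 0 16 18 true true), .t 2 (nat_lit 0x280) (.g 4 1 0 16 18 false true), .t 2 (nat_lit 0x280) (.g 4 0 1 16 18 true false), .t 2 (nat_lit 0x286) (.g 18 1 0 4 16 true false), .t 2 (nat_lit 0x30b) (.g 0 11 1 16 18 true true), .t 2 (nat_lit 0x30c) (.g 0 11 1 16 18 true true), .t 3 (nat_lit 0x30d0286) (.g 0 11 4 16 18 true true), .t 3 (nat_lit 0x30a0286) (.g 0 11 4 16 18 true true), .t 2 (nat_lit 0x30e) (.g 0 11 4 17 18 true true), .t 2 (nat_lit 0x30f) (.g 0 11 4 17 18 true true), .t 2 (nat_lit 0x283) (.g 17 1 0 4 18 false true), .t 2 (nat_lit 0x310) (.g 0 11 4 17 18 true true), .t 2 (nat_lit 0x311) (.g 0 11 1 17 18 true true), .t 2 (nat_lit 0x312) (.g 0 11 4 17 18 true true),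 .t 2 (nat_lit 0x286) (.g 1 4 0 17 18 true true), .t 2 (nat_lit 0x283) (.g 4 0 1 17 18 true false), .t 2 (nat_lit 0x286) (.g 18 1 0 4 17 true false), .t 2 (nat_lit 0x313) (.g 0 11 1 17 18 true true), .t 2 (nat_lit 0x314) (.g 0 11 1 17 18 true true), .t 3 (nat_lit 0x3150286) (.g 0 11 4 17 18 true true), .t 3 (nat_lit 0x3120286) (.g 0 11 4 17 18 true true), .t 1 (nat_lit 0) (.g 7 0 1 5 6 true true), .t 1 (nat_lit 0) (.bn 127), .t 1 (nat_lit 0) (.bn 135), .t 1 (nat_lit 0) (.st 11 1 5 6), .t 1 (nat_lit 0) (.st 11 1 6 5)] (by decide +kernel) (by decide +kernel)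
theorem b111 : B 7104 7168 := Blk.of_chk [.t 1 (nat_lit 0) (.g 1 5 0 6 11 true false), .t 1 (nat_lit 0) (.g 1 6 0 5 11 true false), .t 1 (nat_lit 0) (.g 5 11 0 1 6 false true), .t 1 (nat_lit 0) (.g 5 14 0 1 6 false true), .t 2 (nat_lit 0x316) (.g 0 11 1 6 17 true true), .t 1 (nat_lit 0) (.g 1 6 0 5 17 true false), .t 2 (nat_lit 0x317) (.g 1 0 5 6 18 false false), .t 1 (nat_lit 0) (.g 1 0 5 7 8 false true), .t 1 (nat_lit 0) (.g 1 5 0 7 11 true false), .t 1 (nat_lit 0) (.g 1 7 0 5 11 true false), .t 1 (nat_lit 0) (.g 5 12 0 1 7 false true), .t 1 (nat_lit 0) (.g 5 13 0 1 7 false true), .t 1 (nat_lit 0) (.g 1 5 0 7 13 true false), .t 1 (nat_lit 0) (.g 5 14 0 1 7 false true), .t 1 (nat_lit 0) (.g 1 5 0 7 14 true false), .t 1 (nat_lit 0) (.g 1 7 0 5 14 true false), .t 2 (nat_lit 0x318) (.g 0 11 1 5 14 true true), .t 2 (nat_lit 0x319) (.g 0 11 1 7 15 true true), .t 2 (nat_lit 0x31a)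 (.g 1 0 5 7 15 false false), .t 1 (nat_lit 0) (.g 5 15 0 1 7 false true), .t 2 (nat_lit 0x31b) (.g 5 15 0 1 7 false true), .t 2 (nat_lit 0x31c) (.g 0 11 1 5 15 true true), .t 2 (nat_lit 0x31d) (.g 1 0 5 7 16 false false), .t 1 (nat_lit 0) (.g 5 16 0 1 7 false true), .t 2 (nat_lit 0x31e) (.g 5 16 0 1 7 false true), .t 2 (nat_lit 0x31f) (.g 0 11 1 7 17 true true), .t 2 (nat_lit 0x320) (.g 1 0 5 7 17 false false), .t 1 (nat_lit 0) (.g 5 17 0 1 7 false true), .t 2 (nat_lit 0x321) (.g 5 17 0 1 7 false true), .t 2 (nat_lit 0x322) (.g 0 11 1 5 17 true true), .t 2 (nat_lit 0x323) (.g 0 11 5 7 18 true true), .t 2 (nat_lit 0x324) (.g 1 0 5 7 18 false false), .t 1 (nat_lit 0) (.g 5 18 0 1 7 false true), .t 2 (nat_lit 0x325) (.g 5 18 0 1 7 false true), .t 2 (nat_lit 0x326) (.g 0 11 1 5 18 true true), .t 1 (nat_lit 0) (.g 1 5 0 8 11 true false), .t 1 (nat_lit 0) (.g 1 5 0 8 13 true false),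 .t 1 (nat_lit 0) (.g 1 5 0 8 14 true false), .t 2 (nat_lit 0x327) (.g 0 11 1 8 16 true true), .t 2 (nat_lit 0x328) (.g 0 11 1 5 17 true true), .t 1 (nat_lit 0) (.g 8 1 0 5 18 false true), .t 2 (nat_lit 0x329) (.g 0 11 1 8 18 true true), .t 1 (nat_lit 0) (.g 1 5 0 9 11 true false), .t 1 (nat_lit 0) (.g 5 1 0 9 11 false false), .t 1 (nat_lit 0) (.g 9 0 1 5 11 true true), .t 2 (nat_lit 0x32a) (.g 0 11 1 9 12 true true), .t 1 (nat_lit 0) (.g 1 5 0 9 13 true false), .t 2 (nat_lit 0x32b) (.g 0 11 1 5 13 true true), .t 2 (nat_lit 0x32c) (.g 0 11 1 9 13 true true), .t 2 (nat_lit 0x32d) (.g 0 11 1 5 14 true true), .t 2 (nat_lit 0x32e) (.g 0 11 1 9 14 true true), .t 2 (nat_lit 0x32f) (.g 0 11 1 9 15 true true), .t 1 (nat_lit 0) (.g 1 5 0 9 15 true false), .t 2 (nat_lit 0x330) (.g 0 11 1 5 15 true true), .t 2 (nat_lit 0x331) (.g 0 11 1 9 15 true true), .t 1 (nat_lit 0) (.g 9 5 0 1 16 false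 true), .t 1 (nat_lit 0) (.g 1 0 5 9 16 false true), .t 1 (nat_lit 0) (.g 1 5 0 9 16 true false), .t 2 (nat_lit 0x332) (.g 0 11 1 5 16 true true), .t 2 (nat_lit 0x333) (.g 0 11 1 9 16 true true), .t 1 (nat_lit 0) (.g 1 5 0 9 17 true false), .t 2 (nat_lit 0x334) (.g 0 11 1 5 17 true true), .t 2 (nat_lit 0x335) (.g 0 11 1 9 17 true true), .t 2 (nat_lit 0x336) (.g 0 11 1 9 18 true true)] (by decide +kernel) (by decide +kernel)
theorem b112 : B 7168 7232 := Blk.of_chk [.t 1 (nat_lit 0) (.g 1 5 0 9 18 true false), .t 2 (nat_lit 0x337) (.g 0 11 1 5 18 true true), .t 2 (nat_lit 0x338) (.g 0 11 1 9 18 true true), .t 1 (nat_lit 0) (.g 1 5 0 10 11 true false), .t 1 (nat_lit 0) (.g 5 1 0 10 11 false false), .t 1 (nat_lit 0) (.g 10 0 1 5 11 true true), .t 1 (nat_lit 0) (.g 1 5 0 10 12 true false), .t 2 (nat_lit 0x339) (.g 0 11 1 5 12 true true), .t 2 (nat_lit 0x33a) (.g 0 11 1 10 12 true true),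 .t 1 (nat_lit 0) (.g 1 5 0 10 13 true false), .t 2 (nat_lit 0x33b) (.g 0 11 1 5 13 true true), .t 2 (nat_lit 0x33c) (.g 0 11 1 10 13 true true), .t 1 (nat_lit 0) (.g 1 5 0 10 14 true false), .t 2 (nat_lit 0x33d) (.g 0 11 1 5 14 true true), .t 2 (nat_lit 0x33e) (.g 0 11 1 10 14 true true), .t 2 (nat_lit 0x33f) (.g 0 11 1 10 15 true true), .t 1 (nat_lit 0) (.g 1 0 5 10 15 false true), .t 2 (nat_lit 0x340) (.g 0 11 1 5 15 true true), .t 2 (nat_lit 0x341) (.g 0 11 1 10 15 true true), .t 1 (nat_lit 0) (.g 1 0 5 10 16 false true), .t 2 (nat_lit 0x342) (.g 0 11 1 5 16 true true), .t 2 (nat_lit 0x343) (.g 0 11 1 10 16 true true), .t 1 (nat_lit 0) (.g 1 5 0 10 17 true false), .t 2 (nat_lit 0x344) (.g 0 11 1 5 17 true true), .t 2 (nat_lit 0x345) (.g 0 11 1 10 17 true true), .t 1 (nat_lit 0) (.g 1 5 0 10 18 true false), .t 2 (nat_lit 0x346) (.g 0 11 1 5 18 true true), .t 2 (nat_lit 0x347)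 (.g 0 11 1 10 18 true true), .t 1 (nat_lit 0) (.g 11 0 1 5 12 false false), .t 2 (nat_lit 0x348) (.g 11 0 1 5 12 false true), .t 2 (nat_lit 0x349) (.g 11 0 1 5 12 false false), .t 2 (nat_lit 0x34a) (.g 5 0 1 11 12 true false), .t 1 (nat_lit 0) (.g 11 0 1 5 13 false true), .t 1 (nat_lit 0) (.g 11 0 1 5 13 false false), .t 2 (nat_lit 0x34b) (.g 11 0 1 5 13 false false), .t 1 (nat_lit 0) (.g 1 13 0 5 11 false false), .t 2 (nat_lit 0x34c) (.g 5 0 1 11 13 true false), .t 1 (nat_lit 0) (.g 11 0 1 5 14 false true), .t 1 (nat_lit 0) (.g 11 0 1 5 14 false true), .t 1 (nat_lit 0) (.g 11 0 1 5 14 false false), .t 2 (nat_lit 0x34d) (.g 11 0 1 5 14 false true), .t 2 (nat_lit 0x34e) (.g 11 0 1 5 14 false false), .t 2 (nat_lit 0x34f) (.g 5 0 1 11 14 true true), .t 2 (nat_lit 0x350) (.g 1 5 0 11 15 true true), .t 1 (nat_lit 0) (.g 11 0 1 5 15 false true), .t 1 (nat_lit 0) (.g 11 0 1 5 15 false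 false), .t 2 (nat_lit 0x351) (.g 11 0 1 5 15 false true), .t 1 (nat_lit 0) (.g 1 11 0 5 15 false false), .t 2 (nat_lit 0x350) (.g 5 0 1 11 15 true true), .t 1 (nat_lit 0) (.g 11 0 1 5 16 false true), .t 1 (nat_lit 0) (.g 11 0 1 5 16 false false), .t 2 (nat_lit 0x352) (.g 11 0 1 5 16 false true), .t 1 (nat_lit 0) (.g 1 11 0 5 16 false false), .t 2 (nat_lit 0x353) (.g 1 5 0 11 17 true true), .t 1 (nat_lit 0) (.g 11 0 1 5 17 false true), .t 1 (nat_lit 0) (.g 11 0 1 5 17 false false), .t 2 (nat_lit 0x354) (.g 11 0 1 5 17 false true), .t 2 (nat_lit 0x353) (.g 5 0 1 11 17 true true), .t 2 (nat_lit 0x355) (.g 1 5 0 11 18 true true), .t 1 (nat_lit 0) (.g 11 0 1 5 18 false true), .t 2 (nat_lit 0x356) (.g 11 0 1 5 18 false true), .t 2 (nat_lit 0x355) (.g 5 0 1 11 18 true true), .t 3 (nat_lit 0x357034c) (.a 1 5 12 13 true), .t 2 (nat_lit 0x34c) (.g 13 1 0 5 12 true false)] (by decide +kernel)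 (by decide +kernel)
theorem b113 : B 7232 7296 := Blk.of_chk [.t 2 (nat_lit 0x358) (.g 0 11 1 12 13 true true), .t 3 (nat_lit 0x359034c) (.g 0 11 5 12 13 true true), .t 3 (nat_lit 0x35a034f) (.a 1 5 12 14 true), .t 2 (nat_lit 0x34f) (.g 14 1 0 5 12 true false), .t 2 (nat_lit 0x35b) (.g 0 11 1 12 14 true true), .t 2 (nat_lit 0x35c) (.g 0 11 1 12 14 true true), .t 2 (nat_lit 0x34a) (.g 5 1 0 12 15 false true), .t 3 (nat_lit 0x35d0350) (.a 1 5 12 15 true), .t 2 (nat_lit 0x350) (.g 15 1 0 5 12 true false), .t 2 (nat_lit 0x35e) (.g 0 11 1 12 15 true true), .t 3 (nat_lit 0x360035f) (.a 1 5 12 16 true), .t 2 (nat_lit 0x35f) (.g 16 1 0 5 12 true false), .t 2 (nat_lit 0x35f) (.g 16 5 0 1 12 true false), .t 2 (nat_lit 0x361) (.g 0 11 1 12 16 true true), .t 2 (nat_lit 0x362) (.g 0 11 1 12 16 true true), .t 3 (nat_lit 0x363035f) (.g 0 11 5 12 16 true true), .t 3 (nat_lit 0x3640353) (.a 1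 5 12 17 true), .t 2 (nat_lit 0x353) (.g 17 1 0 5 12 true false), .t 2 (nat_lit 0x365) (.g 0 11 1 12 17 true true), .t 2 (nat_lit 0x366) (.g 0 11 1 12 17 true true), .t 3 (nat_lit 0x3670353) (.g 0 11 5 12 17 true true), .t 2 (nat_lit 0x34a) (.g 5 1 0 12 18 false true), .t 3 (nat_lit 0x3680355) (.a 1 5 12 18 true), .t 2 (nat_lit 0x355) (.g 18 1 0 5 12 true false), .t 2 (nat_lit 0x369) (.g 0 11 1 12 18 true true), .t 3 (nat_lit 0x36a0355) (.g 0 11 5 12 18 true true), .t 2 (nat_lit 0x36b) (.g 0 11 1 13 14 true true), .t 3 (nat_lit 0x36c034f) (.a 1 5 13 14 true), .t 3 (nat_lit 0x36d034f) (.a 1 5 13 14 false), .t 2 (nat_lit 0x34f) (.g 14 1 0 5 13 true false), .t 2 (nat_lit 0x34f) (.g 14 5 0 1 13 true false), .t 2 (nat_lit 0x36e) (.g 0 11 1 13 14 true true), .t 2 (nat_lit 0x36f) (.g 0 11 1 13 14 true true), .t 3 (nat_lit 0x370034f) (.g 0 11 5 13 14 true true), .t 2 (nat_lit 0x34c) (.g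 5 1 0 13 15 false true), .t 3 (nat_lit 0x3710350) (.a 1 5 13 15 true), .t 2 (nat_lit 0x350) (.g 15 1 0 5 13 true false), .t 2 (nat_lit 0x372) (.g 0 11 1 13 15 true true), .t 2 (nat_lit 0x373) (.g 0 11 1 13 15 true true), .t 3 (nat_lit 0x374035f) (.a 1 5 13 16 true), .t 2 (nat_lit 0x35f) (.g 16 1 0 5 13 true false), .t 2 (nat_lit 0x375) (.g 0 11 1 13 16 true true), .t 2 (nat_lit 0x376) (.g 0 11 1 13 16 true true), .t 3 (nat_lit 0x377035f) (.g 0 11 5 13 16 true true), .t 2 (nat_lit 0x353) (.g 1 5 0 13 17 true true), .t 3 (nat_lit 0x3780353) (.a 1 5 13 17 true), .t 3 (nat_lit 0x3790353) (.a 1 5 13 17 false), .t 2 (nat_lit 0x353) (.g 17 1 0 5 13 true false), .t 2 (nat_lit 0x37a) (.g 0 11 1 13 17 true true), .t 2 (nat_lit 0x37b) (.g 0 11 1 13 17 true true), .t 2 (nat_lit 0x37c) (.g 0 11 5 13 18 true true), .t 3 (nat_lit 0x37d0355) (.a 1 5 13 18 true), .t 3 (nat_lit 0x37e0355) (.a 1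 5 13 18 false), .t 2 (nat_lit 0x355) (.g 18 1 0 5 13 true false), .t 2 (nat_lit 0x37f) (.g 0 11 1 13 18 true true), .t 3 (nat_lit 0x3800355) (.g 0 11 5 13 18 true true), .t 3 (nat_lit 0x381034f) (.g 5 0 1 14 15 true false), .t 3 (nat_lit 0x3820350) (.a 1 5 14 15 true), .t 2 (nat_lit 0x350) (.g 15 1 0 5 14 true false), .t 2 (nat_lit 0x383) (.g 0 11 1 14 15 true true), .t 2 (nat_lit 0x384) (.g 0 11 1 14 15 true true), .t 3 (nat_lit 0x385035f) (.a 1 5 14 16 false), .t 2 (nat_lit 0x35f) (.g 16 1 0 5 14 true false), .t 2 (nat_lit 0x386) (.g 0 11 1 14 16 true true)] (by decide +kernel) (by decide +kernel)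
theorem b114 : B 7296 7360 := Blk.of_chk [.t 2 (nat_lit 0x387) (.g 0 11 1 14 16 true true), .t 3 (nat_lit 0x388034f) (.g 5 0 1 14 17 true false), .t 3 (nat_lit 0x3890353) (.a 1 5 14 17 true), .t 3 (nat_lit 0x38a0353) (.a 1 5 14 17 false), .t 2 (nat_lit 0x353) (.g 17 1 0 5 14 true false), .t 2 (nat_lit 0x38b) (.g 0 11 1 14 17 true true), .t 3 (nat_lit 0x38c0353) (.g 0 11 5 14 17 true true), .t 2 (nat_lit 0x38d) (.g 0 11 5 14 18 true true), .t 2 (nat_lit 0x355) (.g 1 5 0 14 18 true true), .t 3 (nat_lit 0x38e034f) (.g 5 0 1 14 18 true false), .t 3 (nat_lit 0x38f0355) (.a 1 5 14 18 true), .t 2 (nat_lit 0x355) (.g 18 1 0 5 14 true false), .t 2 (nat_lit 0x390) (.g 0 11 1 14 18 true true), .t 2 (nat_lit 0x391) (.g 0 11 1 14 18 true true), .t 3 (nat_lit 0x3920350) (.a 1 5 15 16 false), .t 2 (nat_lit 0x35f) (.g 16 1 0 5 15 true false), .t 2 (nat_lit 0x393) (.g 0 11 1 15 16 true true),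 .t 2 (nat_lit 0x394) (.g 0 11 1 15 16 true true), .t 3 (nat_lit 0x395035f) (.g 0 11 5 15 16 true true), .t 3 (nat_lit 0x3960353) (.a 1 5 15 17 true), .t 3 (nat_lit 0x3970353) (.a 1 5 15 17 false), .t 2 (nat_lit 0x353) (.g 17 1 0 5 15 true false), .t 2 (nat_lit 0x353) (.g 17 5 0 1 15 true false), .t 2 (nat_lit 0x398) (.g 0 11 1 15 17 true true), .t 2 (nat_lit 0x399) (.g 0 11 1 15 17 true true), .t 3 (nat_lit 0x39a0353) (.g 0 11 5 15 17 true true), .t 2 (nat_lit 0x355) (.g 1 5 0 15 18 true true), .t 2 (nat_lit 0x350) (.g 5 1 0 15 18 false true), .t 3 (nat_lit 0x39b0355) (.a 1 5 15 18 true), .t 2 (nat_lit 0x355) (.g 18 1 0 5 15 true false), .t 2 (nat_lit 0x39c) (.g 0 11 1 15 18 true true), .t 3 (nat_lit 0x39d0355) (.g 0 11 5 15 18 true true), .t 3 (nat_lit 0x39e0353) (.a 1 5 16 17 true), .t 2 (nat_lit 0x353) (.g 17 1 0 5 16 true false), .t 2 (nat_lit 0x39f) (.g 0 11 1 16 17 true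 true), .t 2 (nat_lit 0x3a0) (.g 0 11 1 16 17 true true), .t 3 (nat_lit 0x3a10353) (.g 0 11 5 16 17 true true), .t 2 (nat_lit 0x3a2) (.g 0 11 5 16 18 true true), .t 2 (nat_lit 0x355) (.g 1 5 0 16 18 true true), .t 3 (nat_lit 0x3a30355) (.a 1 5 16 18 true), .t 2 (nat_lit 0x355) (.g 18 1 0 5 16 true false), .t 2 (nat_lit 0x3a4) (.g 0 11 1 16 18 true true), .t 3 (nat_lit 0x3a50355) (.g 0 11 5 16 18 true true), .t 2 (nat_lit 0x3a6) (.g 0 11 5 17 18 true true), .t 3 (nat_lit 0x3a70355) (.a 1 5 17 18 true), .t 1 (nat_lit 0) (.g 1 0 6 7 8 false true), .t 1 (nat_lit 0) (.g 1 6 0 7 11 true false), .t 2 (nat_lit 0x3a8) (.g 6 12 0 1 7 false true), .t 2 (nat_lit 0x3a9) (.g 0 11 1 6 12 true true), .t 2 (nat_lit 0x3aa) (.g 6 13 0 1 7 false true), .t 2 (nat_lit 0x3ab) (.g 0 11 1 6 13 true true), .t 1 (nat_lit 0) (.g 6 14 0 1 7 false true), .t 1 (nat_lit 0) (.g 1 7 0 6 14 true false), .t 2 (nat_lit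 0x3ac) (.g 0 11 1 7 15 true true), .t 1 (nat_lit 0) (.g 1 0 6 7 15 false true), .t 1 (nat_lit 0) (.g 6 15 0 1 7 false true), .t 2 (nat_lit 0x3ad) (.g 0 11 1 7 16 true true), .t 1 (nat_lit 0) (.g 7 6 0 1 16 false true), .t 1 (nat_lit 0) (.g 6 16 0 1 7 false true), .t 2 (nat_lit 0x3ae) (.g 6 16 0 1 7 false true), .t 1 (nat_lit 0) (.g 6 17 0 1 7 false true), .t 2 (nat_lit 0x3af) (.g 6 17 0 1 7 false true), .t 1 (nat_lit 0) (.g 1 6 0 7 17 true false), .t 2 (nat_lit 0x3b0) (.g 0 11 1 6 17 true true)] (by decide +kernel) (by decide +kernel)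
theorem b115 : B 7360 7424 := Blk.of_chk [.t 2 (nat_lit 0x3b1) (.g 0 11 6 7 18 true true), .t 2 (nat_lit 0x3b2) (.g 1 0 6 7 18 false false), .t 1 (nat_lit 0) (.g 6 18 0 1 7 false true), .t 2 (nat_lit 0x3b3) (.g 6 18 0 1 7 false true), .t 2 (nat_lit 0x3b4) (.g 0 11 1 6 18 true true), .t 2 (nat_lit 0x3b5) (.g 0 11 1 7 18 true true), .t 1 (nat_lit 0) (.g 1 6 0 8 11 true false), .t 1 (nat_lit 0) (.g 6 15 0 1 8 false true), .t 1 (nat_lit 0) (.g 6 16 0 1 8 false true), .t 1 (nat_lit 0) (.g 1 6 0 8 17 true false), .t 2 (nat_lit 0x3b6) (.g 0 11 1 6 17 true true), .t 1 (nat_lit 0) (.g 1 6 0 9 11 true false), .t 1 (nat_lit 0) (.g 6 1 0 9 11 false false), .t 1 (nat_lit 0) (.g 9 0 1 6 11 true true), .t 1 (nat_lit 0) (.g 1 6 0 9 12 true false), .t 2 (nat_lit 0x3b7) (.g 0 11 1 9 12 true true), .t 1 (nat_lit 0) (.g 1 6 0 9 13 true false), .t 2 (nat_lit 0x3b8) (.g 0 11 1 6 13 true true), .t 2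 (nat_lit 0x3b9) (.g 0 11 1 9 13 true true), .t 2 (nat_lit 0x3ba) (.g 0 11 1 6 14 true true), .t 2 (nat_lit 0x3bb) (.g 0 11 1 9 14 true true), .t 1 (nat_lit 0) (.g 1 0 6 9 15 false true), .t 2 (nat_lit 0x3bc) (.g 0 11 1 6 15 true true), .t 2 (nat_lit 0x3bd) (.g 0 11 1 9 15 true true), .t 1 (nat_lit 0) (.g 9 6 0 1 16 false true), .t 2 (nat_lit 0x3be) (.g 0 11 1 6 16 true true), .t 2 (nat_lit 0x3bf) (.g 0 11 1 9 16 true true), .t 2 (nat_lit 0x3c0) (.g 0 11 6 9 17 true true), .t 1 (nat_lit 0) (.g 1 6 0 9 17 true false), .t 2 (nat_lit 0x3c1) (.g 0 11 1 6 17 true true), .t 2 (nat_lit 0x3c2) (.g 0 11 1 9 17 true true), .t 1 (nat_lit 0) (.g 9 6 0 1 18 false true), .t 2 (nat_lit 0x3c3) (.g 0 11 1 6 18 true true), .t 2 (nat_lit 0x3c4) (.g 0 11 1 9 18 true true), .t 1 (nat_lit 0) (.g 1 6 0 10 11 true false), .t 1 (nat_lit 0) (.g 6 1 0 10 11 false false), .t 1 (nat_lit 0) (.g 10 0 1 6 11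 true true), .t 1 (nat_lit 0) (.g 1 6 0 10 12 true false), .t 2 (nat_lit 0x3c5) (.g 0 11 1 6 12 true true), .t 1 (nat_lit 0) (.g 1 6 0 10 13 true false), .t 2 (nat_lit 0x3c6) (.g 0 11 1 6 13 true true), .t 2 (nat_lit 0x3c7) (.g 0 11 1 10 13 true true), .t 1 (nat_lit 0) (.g 1 6 0 10 14 true false), .t 2 (nat_lit 0x3c8) (.g 0 11 1 6 14 true true), .t 2 (nat_lit 0x3c9) (.g 0 11 1 10 14 true true), .t 1 (nat_lit 0) (.g 1 0 6 10 15 false true), .t 2 (nat_lit 0x3ca) (.g 0 11 1 6 15 true true), .t 2 (nat_lit 0x3cb) (.g 0 11 1 10 15 true true), .t 1 (nat_lit 0) (.g 1 6 0 10 16 true false), .t 2 (nat_lit 0x3cc) (.g 0 11 1 6 16 true true), .t 2 (nat_lit 0x3cd) (.g 0 11 1 10 16 true true), .t 1 (nat_lit 0) (.g 1 6 0 10 17 true false), .t 2 (nat_lit 0x3ce) (.g 0 11 1 6 17 true true), .t 2 (nat_lit 0x3cf) (.g 0 11 1 10 17 true true), .t 1 (nat_lit 0) (.g 10 0 1 6 18 true true), .t 1 (nat_lit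 0) (.g 1 0 6 10 18 false true), .t 1 (nat_lit 0) (.g 1 6 0 10 18 true false), .t 2 (nat_lit 0x3d0) (.g 0 11 1 6 18 true true), .t 2 (nat_lit 0x3d1) (.g 0 11 1 10 18 true true), .t 1 (nat_lit 0) (.g 11 0 1 6 12 false false), .t 2 (nat_lit 0x3d2) (.g 11 0 1 6 12 false false), .t 1 (nat_lit 0) (.g 1 12 0 6 11 false false), .t 1 (nat_lit 0) (.g 11 0 1 6 13 false true), .t 1 (nat_lit 0) (.g 11 0 1 6 13 false false)] (by decide +kernel) (by decide +kernel)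
theorem b116 : B 7424 7488 := Blk.of_chk [.t 2 (nat_lit 0x3d3) (.g 11 0 1 6 13 false true), .t 2 (nat_lit 0x3d4) (.g 11 0 1 6 13 false false), .t 2 (nat_lit 0x3d5) (.g 6 0 1 11 13 true false), .t 1 (nat_lit 0) (.g 6 0 1 11 14 true false), .t 1 (nat_lit 0) (.g 11 0 1 6 14 false true), .t 1 (nat_lit 0) (.g 11 0 1 6 14 false false), .t 2 (nat_lit 0x3d6) (.g 11 0 1 6 14 false true), .t 2 (nat_lit 0x3d7) (.g 11 0 1 6 14 false false), .t 2 (nat_lit 0x3d8) (.g 6 0 1 11 14 true true), .t 1 (nat_lit 0) (.g 11 0 1 6 15 false true), .t 1 (nat_lit 0) (.g 11 0 1 6 15 false false), .t 2 (nat_lit 0x3d9) (.g 11 0 1 6 15 false true), .t 1 (nat_lit 0) (.g 1 11 0 6 15 false false), .t 2 (nat_lit 0x3da) (.g 6 0 1 11 15 true true), .t 2 (nat_lit 0x3db) (.g 1 6 0 11 16 true true), .t 1 (nat_lit 0) (.g 11 0 1 6 16 false true), .t 1 (nat_lit 0) (.g 11 0 1 6 16 false false), .t 2 (nat_lit 0x3dc) (.g 11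 0 1 6 16 false true), .t 1 (nat_lit 0) (.g 1 11 0 6 16 false false), .t 1 (nat_lit 0) (.g 11 0 1 6 17 false true), .t 1 (nat_lit 0) (.g 11 0 1 6 17 false false), .t 2 (nat_lit 0x3dd) (.g 11 0 1 6 17 false true), .t 2 (nat_lit 0x3de) (.g 6 0 1 11 17 true true), .t 2 (nat_lit 0x3df) (.g 1 6 0 11 18 true true), .t 1 (nat_lit 0) (.g 11 0 1 6 18 false true), .t 2 (nat_lit 0x3e0) (.g 11 0 1 6 18 false true), .t 2 (nat_lit 0x3df) (.g 6 0 1 11 18 true true), .t 2 (nat_lit 0x3d5) (.g 13 1 0 6 12 true false), .t 2 (nat_lit 0x3e1) (.g 0 11 1 12 13 true true), .t 3 (nat_lit 0x3e203d5) (.g 0 11 6 12 13 true true), .t 3 (nat_lit 0x3e303d8) (.a 1 6 12 14 true), .t 2 (nat_lit 0x3d8) (.g 14 1 0 6 12 true false), .t 2 (nat_lit 0x3e4) (.g 0 11 1 12 14 true true), .t 2 (nat_lit 0x3e5) (.g 0 11 1 12 14 true true), .t 2 (nat_lit 0x3e6) (.g 6 1 0 12 15 false true), .t 3 (nat_lit 0x3e703da) (.a 1 6 12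 15 true), .t 2 (nat_lit 0x3da) (.g 15 1 0 6 12 true false), .t 2 (nat_lit 0x3e8) (.g 0 11 1 12 15 true true), .t 3 (nat_lit 0x3e903da) (.g 0 11 6 12 15 true true), .t 3 (nat_lit 0x3ea03db) (.a 1 6 12 16 true), .t 2 (nat_lit 0x3db) (.g 16 1 0 6 12 true false), .t 2 (nat_lit 0x3db) (.g 16 6 0 1 12 true false), .t 2 (nat_lit 0x3eb) (.g 0 11 1 12 16 true true), .t 2 (nat_lit 0x3ec) (.g 0 11 1 12 16 true true), .t 3 (nat_lit 0x3ed03db) (.g 0 11 6 12 16 true true), .t 3 (nat_lit 0x3ee03de) (.a 1 6 12 17 true), .t 2 (nat_lit 0x3de) (.g 17 1 0 6 12 true false), .t 2 (nat_lit 0x3ef) (.g 0 11 1 12 17 true true), .t 2 (nat_lit 0x3f0) (.g 0 11 1 12 17 true true), .t 3 (nat_lit 0x3f103de) (.g 0 11 6 12 17 true true), .t 3 (nat_lit 0x3f203df) (.a 1 6 12 18 true), .t 2 (nat_lit 0x3df) (.g 18 1 0 6 12 true false), .t 2 (nat_lit 0x3f3) (.g 0 11 1 12 18 true true), .t 3 (nat_lit 0x3f403df) (.g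 0 11 6 12 18 true true), .t 2 (nat_lit 0x3f5) (.g 0 11 6 13 14 true true), .t 3 (nat_lit 0x3f603d8) (.a 1 6 13 14 true), .t 3 (nat_lit 0x3f703d8) (.a 1 6 13 14 false), .t 2 (nat_lit 0x3d8) (.g 14 1 0 6 13 true false), .t 2 (nat_lit 0x3d8) (.g 14 6 0 1 13 true false), .t 2 (nat_lit 0x3f8) (.g 0 11 1 13 14 true true), .t 2 (nat_lit 0x3f9) (.g 0 11 1 13 14 true true), .t 3 (nat_lit 0x3fa03d8) (.g 0 11 6 13 14 true true), .t 3 (nat_lit 0x3fb03d8) (.g 0 11 6 13 14 true true), .t 3 (nat_lit 0x3fc03da) (.a 1 6 13 15 true)] (by decide +kernel) (by decide +kernel)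
theorem b117 : B 7488 7552 := Blk.of_chk [.t 3 (nat_lit 0x3fd03da) (.a 1 6 13 15 false), .t 2 (nat_lit 0x3fe) (.g 0 11 1 13 15 true true), .t 2 (nat_lit 0x3ff) (.g 0 11 1 13 15 true true), .t 2 (nat_lit 0x3db) (.g 1 6 0 13 16 true true), .t 3 (nat_lit 0x40003db) (.a 1 6 13 16 true), .t 2 (nat_lit 0x3db) (.g 16 1 0 6 13 true false), .t 2 (nat_lit 0x401) (.g 0 11 1 13 16 true true), .t 2 (nat_lit 0x402) (.g 0 11 1 13 16 true true), .t 3 (nat_lit 0x40303de) (.a 1 6 13 17 true), .t 3 (nat_lit 0x40403de) (.a 1 6 13 17 false), .t 2 (nat_lit 0x3de) (.g 17 1 0 6 13 true false), .t 2 (nat_lit 0x405) (.g 0 11 1 13 17 true true), .t 2 (nat_lit 0x406) (.g 0 11 1 13 17 true true), .t 2 (nat_lit 0x407) (.g 0 11 6 13 18 true true), .t 3 (nat_lit 0x40803df) (.a 1 6 13 18 true), .t 3 (nat_lit 0x40903df) (.a 1 6 13 18 false), .t 2 (nat_lit 0x3df) (.g 18 1 0 6 13 true false), .t 2 (nat_lit 0x40a)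 (.g 0 11 1 13 18 true true), .t 3 (nat_lit 0x40b03df) (.g 0 11 6 13 18 true true), .t 2 (nat_lit 0x3da) (.g 1 6 0 14 15 true true), .t 3 (nat_lit 0x40c03d8) (.g 6 0 1 14 15 true false), .t 3 (nat_lit 0x40d03da) (.a 1 6 14 15 true), .t 2 (nat_lit 0x3da) (.g 15 1 0 6 14 true false), .t 2 (nat_lit 0x40e) (.g 0 11 1 14 15 true true), .t 2 (nat_lit 0x40f) (.g 0 11 1 14 15 true true), .t 3 (nat_lit 0x41003d8) (.g 6 0 1 14 16 true false), .t 3 (nat_lit 0x41103db) (.a 1 6 14 16 false), .t 2 (nat_lit 0x3db) (.g 16 1 0 6 14 true false), .t 2 (nat_lit 0x412) (.g 0 11 1 14 16 true true), .t 2 (nat_lit 0x413) (.g 0 11 1 14 16 true true), .t 3 (nat_lit 0x41403d8) (.g 6 0 1 14 17 true false), .t 3 (nat_lit 0x41503de) (.a 1 6 14 17 true), .t 3 (nat_lit 0x41603de) (.a 1 6 14 17 false), .t 2 (nat_lit 0x3de) (.g 17 1 0 6 14 true false), .t 2 (nat_lit 0x417) (.g 0 11 1 14 17 true true), .t 3 (nat_lit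 0x41803de) (.g 0 11 6 14 17 true true), .t 2 (nat_lit 0x3df) (.g 1 6 0 14 18 true true), .t 3 (nat_lit 0x41903d8) (.g 6 0 1 14 18 true false), .t 3 (nat_lit 0x41a03df) (.a 1 6 14 18 true), .t 2 (nat_lit 0x3df) (.g 18 1 0 6 14 true false), .t 2 (nat_lit 0x41b) (.g 0 11 1 14 18 true true), .t 2 (nat_lit 0x41c) (.g 0 11 1 14 18 true true), .t 2 (nat_lit 0x41d) (.g 0 11 6 15 16 true true), .t 3 (nat_lit 0x41e03db) (.a 1 6 15 16 false), .t 2 (nat_lit 0x3db) (.g 16 1 0 6 15 true false), .t 2 (nat_lit 0x41f) (.g 0 11 1 15 16 true true), .t 2 (nat_lit 0x420) (.g 0 11 1 15 16 true true), .t 3 (nat_lit 0x42103db) (.g 0 11 6 15 16 true true), .t 3 (nat_lit 0x42203de) (.a 1 6 15 17 true), .t 2 (nat_lit 0x3de) (.g 17 1 0 6 15 true false), .t 2 (nat_lit 0x423) (.g 0 11 1 15 17 true true), .t 2 (nat_lit 0x424) (.g 0 11 1 15 17 true true), .t 3 (nat_lit 0x42503de) (.g 0 11 6 15 17 true true),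 .t 3 (nat_lit 0x42603df) (.a 1 6 15 18 true), .t 2 (nat_lit 0x3df) (.g 18 1 0 6 15 true false), .t 2 (nat_lit 0x427) (.g 0 11 1 15 18 true true), .t 3 (nat_lit 0x42803df) (.g 0 11 6 15 18 true true), .t 2 (nat_lit 0x429) (.g 0 11 6 16 17 true true), .t 3 (nat_lit 0x42a03de) (.a 1 6 16 17 true), .t 2 (nat_lit 0x3de) (.g 17 1 0 6 16 true false), .t 2 (nat_lit 0x42b) (.g 0 11 1 16 17 true true), .t 2 (nat_lit 0x42c) (.g 0 11 1 16 17 true true), .t 3 (nat_lit 0x42d03de) (.g 0 11 6 16 17 true true), .t 2 (nat_lit 0x42e) (.g 0 11 6 16 18 true true)] (by decide +kernel) (by decide +kernel)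
theorem b118 : B 7552 7616 := Blk.of_chk [.t 2 (nat_lit 0x3db) (.g 16 6 0 1 18 false true), .t 2 (nat_lit 0x3db) (.g 6 0 1 16 18 true false), .t 3 (nat_lit 0x42f03df) (.a 1 6 16 18 true), .t 2 (nat_lit 0x3df) (.g 18 1 0 6 16 true false), .t 2 (nat_lit 0x430) (.g 0 11 1 16 18 true true), .t 3 (nat_lit 0x43103df) (.g 0 11 6 16 18 true true), .t 3 (nat_lit 0x43203df) (.a 1 6 17 18 true), .t 1 (nat_lit 0) (.g 7 1 0 8 11 false false), .t 1 (nat_lit 0) (.g 8 0 1 7 11 true true), .t 1 (nat_lit 0) (.g 1 7 0 8 12 true false), .t 2 (nat_lit 0x433) (.g 0 11 1 7 12 true true), .t 1 (nat_lit 0) (.g 1 7 0 8 14 true false), .t 2 (nat_lit 0x434) (.g 0 11 1 7 14 true true), .t 2 (nat_lit 0x435) (.g 0 11 1 8 16 true true), .t 1 (nat_lit 0) (.g 8 7 0 1 16 false true), .t 1 (nat_lit 0) (.g 1 0 7 8 16 false true), .t 2 (nat_lit 0x436) (.g 0 11 1 7 16 true true), .t 2 (nat_lit 0x437) (.g 0 11 1 8 17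 true true), .t 1 (nat_lit 0) (.g 1 0 7 8 17 false true), .t 2 (nat_lit 0x438) (.g 0 11 1 7 17 true true), .t 2 (nat_lit 0x439) (.g 0 11 1 8 17 true true), .t 2 (nat_lit 0x43a) (.g 0 11 1 8 18 true true), .t 2 (nat_lit 0x43b) (.g 0 11 1 7 18 true true), .t 1 (nat_lit 0) (.g 1 7 0 9 11 true false), .t 1 (nat_lit 0) (.g 7 1 0 9 11 false false), .t 1 (nat_lit 0) (.g 9 0 1 7 11 true true), .t 1 (nat_lit 0) (.g 1 7 0 9 12 true false), .t 2 (nat_lit 0x43c) (.g 0 11 1 7 12 true true), .t 2 (nat_lit 0x43d) (.g 0 11 1 9 12 true true), .t 1 (nat_lit 0) (.g 1 7 0 9 13 true false), .t 2 (nat_lit 0x43e) (.g 0 11 1 7 13 true true), .t 2 (nat_lit 0x43f) (.g 0 11 1 9 13 true true), .t 1 (nat_lit 0) (.g 1 7 0 9 14 true false), .t 2 (nat_lit 0x440) (.g 0 11 1 7 14 true true), .t 2 (nat_lit 0x441) (.g 0 11 1 9 14 true true), .t 1 (nat_lit 0) (.g 9 7 0 1 15 false true), .t 1 (nat_lit 0) (.g 1 0 7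 9 15 false true), .t 2 (nat_lit 0x442) (.g 0 11 1 7 15 true true), .t 2 (nat_lit 0x443) (.g 0 11 1 9 15 true true), .t 1 (nat_lit 0) (.g 9 7 0 1 16 false true), .t 1 (nat_lit 0) (.g 1 0 7 9 16 false true), .t 2 (nat_lit 0x444) (.g 0 11 1 7 16 true true), .t 2 (nat_lit 0x445) (.g 0 11 1 9 16 true true), .t 1 (nat_lit 0) (.g 1 0 7 9 17 false true), .t 1 (nat_lit 0) (.g 1 7 0 9 17 true false), .t 2 (nat_lit 0x446) (.g 0 11 1 7 17 true true), .t 2 (nat_lit 0x447) (.g 0 11 1 9 17 true true), .t 2 (nat_lit 0x448) (.g 0 11 7 9 18 true true), .t 1 (nat_lit 0) (.g 9 7 0 1 18 false true), .t 2 (nat_lit 0x449) (.g 0 11 1 7 18 true true), .t 2 (nat_lit 0x44a) (.g 0 11 1 9 18 true true), .t 1 (nat_lit 0) (.g 1 7 0 10 11 true false), .t 1 (nat_lit 0) (.g 10 0 1 7 11 true true), .t 1 (nat_lit 0) (.g 1 7 0 10 12 true false), .t 2 (nat_lit 0x44b) (.g 0 11 1 7 12 true true), .t 1 (nat_lit 0) (.g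 1 7 0 10 13 true false), .t 2 (nat_lit 0x44c) (.g 0 11 1 7 13 true true), .t 2 (nat_lit 0x44d) (.g 0 11 1 10 13 true true), .t 1 (nat_lit 0) (.g 1 7 0 10 14 true false), .t 2 (nat_lit 0x44e) (.g 0 11 1 7 14 true true), .t 2 (nat_lit 0x44f) (.g 0 11 7 10 15 true true), .t 1 (nat_lit 0) (.g 10 7 0 1 15 false true), .t 1 (nat_lit 0) (.g 1 0 7 10 15 false true), .t 2 (nat_lit 0x450) (.g 0 11 1 10 15 true true)] (by decide +kernel) (by decide +kernel)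
theorem b119 : B 7616 7680 := Blk.of_chk [.t 1 (nat_lit 0) (.g 1 0 7 10 16 false true), .t 2 (nat_lit 0x451) (.g 0 11 1 7 16 true true), .t 2 (nat_lit 0x452) (.g 0 11 1 10 16 true true), .t 1 (nat_lit 0) (.g 1 0 7 10 17 false true), .t 1 (nat_lit 0) (.g 1 7 0 10 17 true false), .t 2 (nat_lit 0x453) (.g 0 11 1 7 17 true true), .t 1 (nat_lit 0) (.g 1 7 0 10 18 true false), .t 2 (nat_lit 0x454) (.g 0 11 1 7 18 true true), .t 2 (nat_lit 0x455) (.g 0 11 1 10 18 true true), .t 1 (nat_lit 0) (.g 11 0 1 7 12 false false), .t 2 (nat_lit 0x456) (.g 11 0 1 7 12 false false), .t 1 (nat_lit 0) (.g 11 0 1 7 13 false false), .t 2 (nat_lit 0x457) (.g 11 0 1 7 13 false false), .t 1 (nat_lit 0) (.g 1 13 0 7 11 false false), .t 2 (nat_lit 0x458) (.g 7 0 1 11 13 true false), .t 1 (nat_lit 0) (.g 7 0 1 11 14 true false), .t 1 (nat_lit 0) (.g 11 0 1 7 14 false true), .t 1 (nat_lit 0) (.g 11 0 1 7 14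 false false), .t 2 (nat_lit 0x459) (.g 11 0 1 7 14 false true), .t 2 (nat_lit 0x45a) (.g 11 0 1 7 14 false false), .t 2 (nat_lit 0x45b) (.g 7 0 1 11 14 true true), .t 2 (nat_lit 0x45b) (.g 7 0 1 11 14 true false), .t 2 (nat_lit 0x45c) (.g 1 7 0 11 15 true true), .t 1 (nat_lit 0) (.g 11 0 1 7 15 false true), .t 1 (nat_lit 0) (.g 11 0 1 7 15 false false), .t 2 (nat_lit 0x45d) (.g 11 0 1 7 15 false true), .t 2 (nat_lit 0x45c) (.g 7 0 1 11 15 true true), .t 2 (nat_lit 0x45e) (.g 1 7 0 11 16 true true), .t 1 (nat_lit 0) (.g 11 0 1 7 16 false true), .t 1 (nat_lit 0) (.g 11 0 1 7 16 false false), .t 2 (nat_lit 0x45f) (.g 11 0 1 7 16 false true), .t 2 (nat_lit 0x460) (.g 1 7 0 11 17 true true), .t 1 (nat_lit 0) (.g 11 0 1 7 17 false true), .t 1 (nat_lit 0) (.g 11 0 1 7 17 false false), .t 2 (nat_lit 0x461) (.g 11 0 1 7 17 false true), .t 2 (nat_lit 0x460) (.g 7 0 1 11 17 true true), .t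 2 (nat_lit 0x462) (.g 1 7 0 11 18 true true), .t 2 (nat_lit 0x463) (.g 11 0 1 7 18 false true), .t 2 (nat_lit 0x462) (.g 7 0 1 11 18 true true), .t 3 (nat_lit 0x4640458) (.a 1 7 12 13 false), .t 2 (nat_lit 0x458) (.g 13 1 0 7 12 true false), .t 2 (nat_lit 0x465) (.g 0 11 1 12 13 true true), .t 3 (nat_lit 0x4660458) (.g 0 11 7 12 13 true true), .t 3 (nat_lit 0x467045b) (.a 1 7 12 14 true), .t 2 (nat_lit 0x45b) (.g 14 1 0 7 12 true false), .t 2 (nat_lit 0x468) (.g 0 11 1 12 14 true true), .t 2 (nat_lit 0x469) (.g 0 11 1 12 14 true true), .t 2 (nat_lit 0x45c) (.g 1 7 0 12 15 true true), .t 3 (nat_lit 0x46a045c) (.a 1 7 12 15 true), .t 2 (nat_lit 0x45c) (.g 15 1 0 7 12 true false), .t 2 (nat_lit 0x46b) (.g 0 11 1 12 15 true true), .t 2 (nat_lit 0x45e) (.g 1 7 0 12 16 true true), .t 3 (nat_lit 0x46c045e) (.a 1 7 12 16 true), .t 2 (nat_lit 0x45e) (.g 16 1 0 7 12 true false), .t 2 (nat_lit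 0x45e) (.g 16 7 0 1 12 true false), .t 2 (nat_lit 0x46d) (.g 0 11 1 12 16 true true), .t 2 (nat_lit 0x46e) (.g 0 11 1 12 16 true true), .t 3 (nat_lit 0x46f045e) (.g 0 11 7 12 16 true true), .t 2 (nat_lit 0x470) (.g 7 1 0 12 17 false true), .t 3 (nat_lit 0x4710460) (.a 1 7 12 17 true), .t 2 (nat_lit 0x460) (.g 17 1 0 7 12 true false), .t 2 (nat_lit 0x472) (.g 0 11 1 12 17 true true), .t 2 (nat_lit 0x473) (.g 0 11 1 12 17 true true), .t 3 (nat_lit 0x4740460) (.g 0 11 7 12 17 true true)] (by decide +kernel) (by decide +kernel)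
theorem b120 : B 7680 7744 := Blk.of_chk [.t 2 (nat_lit 0x462) (.g 1 7 0 12 18 true true), .t 3 (nat_lit 0x4750462) (.a 1 7 12 18 true), .t 2 (nat_lit 0x462) (.g 18 1 0 7 12 true false), .t 2 (nat_lit 0x476) (.g 0 11 1 12 18 true true), .t 3 (nat_lit 0x4770462) (.g 0 11 7 12 18 true true), .t 2 (nat_lit 0x478) (.g 0 11 7 13 14 true true), .t 3 (nat_lit 0x479045b) (.a 1 7 13 14 false), .t 2 (nat_lit 0x45b) (.g 14 1 0 7 13 true false), .t 2 (nat_lit 0x45b) (.g 14 7 0 1 13 true false), .t 2 (nat_lit 0x47a) (.g 0 11 1 13 14 true true), .t 2 (nat_lit 0x47b) (.g 0 11 1 13 14 true true), .t 3 (nat_lit 0x47c045b) (.g 0 11 7 13 14 true true), .t 2 (nat_lit 0x45c) (.g 1 7 0 13 15 true true), .t 3 (nat_lit 0x47d045c) (.a 1 7 13 15 true), .t 3 (nat_lit 0x47e045c) (.a 1 7 13 15 false), .t 2 (nat_lit 0x47f) (.g 0 11 1 13 15 true true), .t 2 (nat_lit 0x480) (.g 0 11 1 13 15 true true), .t 2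 (nat_lit 0x45e) (.g 1 7 0 13 16 true true), .t 3 (nat_lit 0x481045e) (.a 1 7 13 16 true), .t 3 (nat_lit 0x482045e) (.a 1 7 13 16 false), .t 2 (nat_lit 0x45e) (.g 16 1 0 7 13 true false), .t 2 (nat_lit 0x483) (.g 0 11 1 13 16 true true), .t 2 (nat_lit 0x484) (.g 0 11 1 13 16 true true), .t 2 (nat_lit 0x460) (.g 1 7 0 13 17 true true), .t 3 (nat_lit 0x4850460) (.a 1 7 13 17 true), .t 3 (nat_lit 0x4860460) (.a 1 7 13 17 false), .t 2 (nat_lit 0x460) (.g 17 1 0 7 13 true false), .t 2 (nat_lit 0x487) (.g 0 11 1 13 17 true true), .t 2 (nat_lit 0x488) (.g 0 11 1 13 17 true true), .t 2 (nat_lit 0x489) (.g 0 11 7 13 18 true true), .t 2 (nat_lit 0x458) (.g 7 1 0 13 18 false true), .t 3 (nat_lit 0x48a0462) (.a 1 7 13 18 false), .t 2 (nat_lit 0x462) (.g 18 1 0 7 13 true false), .t 2 (nat_lit 0x48b) (.g 0 11 1 13 18 true true), .t 3 (nat_lit 0x48c0462) (.g 0 11 7 13 18 true true), .t 2 (nat_lit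 0x45b) (.g 7 1 0 14 15 false true), .t 3 (nat_lit 0x48d045b) (.g 7 0 1 14 15 true false), .t 3 (nat_lit 0x48e045c) (.a 1 7 14 15 true), .t 2 (nat_lit 0x45c) (.g 15 1 0 7 14 true false), .t 2 (nat_lit 0x48f) (.g 0 11 1 14 15 true true), .t 2 (nat_lit 0x490) (.g 0 11 1 14 15 true true), .t 3 (nat_lit 0x491045e) (.a 1 7 14 16 false), .t 2 (nat_lit 0x45e) (.g 16 1 0 7 14 true false), .t 2 (nat_lit 0x492) (.g 0 11 1 14 16 true true), .t 3 (nat_lit 0x4930460) (.a 1 7 14 17 true), .t 3 (nat_lit 0x4940460) (.a 1 7 14 17 false), .t 2 (nat_lit 0x460) (.g 17 1 0 7 14 true false), .t 2 (nat_lit 0x495) (.g 0 11 1 14 17 true true), .t 3 (nat_lit 0x4960460) (.g 0 11 7 14 17 true true), .t 2 (nat_lit 0x497) (.g 0 11 7 14 18 true true), .t 3 (nat_lit 0x498045b) (.g 7 0 1 14 18 true false), .t 3 (nat_lit 0x4990462) (.a 1 7 14 18 true), .t 2 (nat_lit 0x462) (.g 18 1 0 7 14 true false), .t 2 (nat_lit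 0x49a) (.g 0 11 1 14 18 true true), .t 2 (nat_lit 0x49b) (.g 0 11 1 14 18 true true), .t 3 (nat_lit 0x49c0462) (.g 0 11 7 14 18 true true), .t 3 (nat_lit 0x49d045c) (.a 1 7 15 16 false), .t 2 (nat_lit 0x45e) (.g 16 1 0 7 15 true false), .t 2 (nat_lit 0x49e) (.g 0 11 1 15 16 true true), .t 2 (nat_lit 0x49f) (.g 0 11 1 15 16 true true), .t 3 (nat_lit 0x4a0045e) (.g 0 11 7 15 16 true true), .t 3 (nat_lit 0x4a10460) (.a 1 7 15 17 true), .t 2 (nat_lit 0x460) (.g 17 1 0 7 15 true false), .t 2 (nat_lit 0x4a2) (.g 0 11 1 15 17 true true)] (by decide +kernel) (by decide +kernel)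
theorem b121 : B 7744 7808 := Blk.of_chk [.t 2 (nat_lit 0x4a3) (.g 0 11 1 15 17 true true), .t 3 (nat_lit 0x4a40460) (.g 0 11 7 15 17 true true), .t 3 (nat_lit 0x4a50462) (.a 1 7 15 18 false), .t 2 (nat_lit 0x4a6) (.g 0 11 1 15 18 true true), .t 3 (nat_lit 0x4a70462) (.g 0 11 7 15 18 true true), .t 2 (nat_lit 0x4a8) (.g 0 11 7 16 17 true true), .t 2 (nat_lit 0x45e) (.g 16 1 0 7 17 false true), .t 2 (nat_lit 0x4a9) (.g 0 11 1 16 17 true true), .t 3 (nat_lit 0x4aa0460) (.a 1 7 16 17 true), .t 2 (nat_lit 0x460) (.g 17 1 0 7 16 true false), .t 2 (nat_lit 0x4ab) (.g 0 11 1 16 17 true true), .t 2 (nat_lit 0x4ac) (.g 0 11 1 16 17 true true), .t 2 (nat_lit 0x45e) (.g 16 7 0 1 18 false true), .t 2 (nat_lit 0x45e) (.g 16 1 0 7 18 false true), .t 2 (nat_lit 0x45e) (.g 7 0 1 16 18 true false), .t 3 (nat_lit 0x4ad0462) (.a 1 7 16 18 true), .t 2 (nat_lit 0x462) (.g 18 1 0 7 16 true false),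 .t 2 (nat_lit 0x4ae) (.g 0 11 1 16 18 true true), .t 3 (nat_lit 0x4af0462) (.g 0 11 7 16 18 true true), .t 2 (nat_lit 0x4b0) (.g 0 11 7 17 18 true true), .t 3 (nat_lit 0x4b10462) (.a 1 7 17 18 true), .t 1 (nat_lit 0) (.g 1 8 0 9 11 true false), .t 1 (nat_lit 0) (.g 8 1 0 9 11 false false), .t 1 (nat_lit 0) (.g 9 0 1 8 11 true true), .t 1 (nat_lit 0) (.g 1 8 0 9 12 true false), .t 2 (nat_lit 0x4b2) (.g 0 11 1 9 12 true true), .t 1 (nat_lit 0) (.g 1 8 0 9 13 true false), .t 2 (nat_lit 0x4b3) (.g 0 11 1 8 13 true true), .t 2 (nat_lit 0x4b4) (.g 0 11 1 9 13 true true), .t 2 (nat_lit 0x4b5) (.g 0 11 1 8 14 true true), .t 2 (nat_lit 0x4b6) (.g 0 11 1 9 14 true true), .t 2 (nat_lit 0x4b7) (.g 0 11 1 9 15 true true), .t 2 (nat_lit 0x4b8) (.g 0 11 1 9 15 true true), .t 1 (nat_lit 0) (.g 9 8 0 1 16 false true), .t 1 (nat_lit 0) (.g 1 0 8 9 16 false true), .t 1 (nat_lit 0) (.g 1 8 0 9 16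 true false), .t 2 (nat_lit 0x4b9) (.g 0 11 1 8 16 true true), .t 2 (nat_lit 0x4ba) (.g 0 11 1 9 16 true true), .t 1 (nat_lit 0) (.g 1 8 0 9 17 true false), .t 2 (nat_lit 0x4bb) (.g 0 11 1 8 17 true true), .t 2 (nat_lit 0x4bc) (.g 0 11 1 9 17 true true), .t 2 (nat_lit 0x4bd) (.g 0 11 1 9 18 true true), .t 1 (nat_lit 0) (.g 1 0 8 9 18 false true), .t 2 (nat_lit 0x4be) (.g 0 11 1 8 18 true true), .t 2 (nat_lit 0x4bf) (.g 0 11 1 9 18 true true), .t 1 (nat_lit 0) (.g 1 8 0 10 11 true false), .t 1 (nat_lit 0) (.g 10 0 1 8 11 true true), .t 1 (nat_lit 0) (.g 1 8 0 10 12 true false), .t 2 (nat_lit 0x4c0) (.g 0 11 1 10 12 true true), .t 1 (nat_lit 0) (.g 1 8 0 10 13 true false), .t 2 (nat_lit 0x4c1) (.g 0 11 1 8 13 true true), .t 2 (nat_lit 0x4c2) (.g 0 11 1 10 13 true true), .t 1 (nat_lit 0) (.g 1 8 0 10 14 true false), .t 2 (nat_lit 0x4c3) (.g 0 11 1 8 14 true true), .t 2 (nat_lit 0x4c4)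 (.g 0 11 1 10 14 true true), .t 2 (nat_lit 0x4c5) (.g 0 11 1 10 15 true true), .t 2 (nat_lit 0x4c6) (.g 0 11 1 10 15 true true), .t 1 (nat_lit 0) (.g 1 8 0 10 16 true false), .t 2 (nat_lit 0x4c7) (.g 0 11 1 8 16 true true), .t 2 (nat_lit 0x4c8) (.g 0 11 1 10 16 true true), .t 1 (nat_lit 0) (.g 1 8 0 10 17 true false), .t 2 (nat_lit 0x4c9) (.g 0 11 1 8 17 true true), .t 2 (nat_lit 0x4ca) (.g 0 11 1 10 17 true true), .t 1 (nat_lit 0) (.g 1 0 8 10 18 false true)] (by decide +kernel) (by decide +kernel)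
theorem b122 : B 7808 7872 := Blk.of_chk [.t 1 (nat_lit 0) (.g 1 8 0 10 18 true false), .t 2 (nat_lit 0x4cb) (.g 0 11 1 8 18 true true), .t 2 (nat_lit 0x4cc) (.g 0 11 1 10 18 true true), .t 1 (nat_lit 0) (.g 11 0 1 8 12 false true), .t 2 (nat_lit 0x4cd) (.g 11 0 1 8 12 false true), .t 2 (nat_lit 0x4ce) (.g 11 0 1 8 12 false false), .t 2 (nat_lit 0x4cf) (.g 8 0 1 11 12 true false), .t 1 (nat_lit 0) (.g 11 0 1 8 13 false false), .t 2 (nat_lit 0x4d0) (.g 11 0 1 8 13 false false), .t 1 (nat_lit 0) (.g 1 13 0 8 11 false false), .t 2 (nat_lit 0x4d1) (.g 8 0 1 11 13 true false), .t 1 (nat_lit 0) (.g 8 0 1 11 14 true false), .t 1 (nat_lit 0) (.g 11 0 1 8 14 false true), .t 1 (nat_lit 0) (.g 11 0 1 8 14 false false), .t 2 (nat_lit 0x4d2) (.g 11 0 1 8 14 false true), .t 2 (nat_lit 0x4d3) (.g 11 0 1 8 14 false false), .t 2 (nat_lit 0x4d4) (.g 8 0 1 11 14 true true), .t 1 (nat_lit 0) (.g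 11 0 1 8 15 false true), .t 1 (nat_lit 0) (.g 11 0 1 8 15 false false), .t 2 (nat_lit 0x4d5) (.g 11 0 1 8 15 false true), .t 1 (nat_lit 0) (.g 1 11 0 8 15 false false), .t 2 (nat_lit 0x4d6) (.g 8 0 1 11 15 true true), .t 2 (nat_lit 0x4d7) (.g 1 8 0 11 16 true true), .t 1 (nat_lit 0) (.g 11 0 1 8 16 false true), .t 1 (nat_lit 0) (.g 11 0 1 8 16 false false), .t 2 (nat_lit 0x4d8) (.g 11 0 1 8 16 false true), .t 2 (nat_lit 0x4d9) (.g 1 8 0 11 17 true true), .t 1 (nat_lit 0) (.g 11 0 1 8 17 false true), .t 1 (nat_lit 0) (.g 11 0 1 8 17 false false), .t 2 (nat_lit 0x4da) (.g 11 0 1 8 17 false true), .t 2 (nat_lit 0x4d9) (.g 8 0 1 11 17 true true), .t 2 (nat_lit 0x4db) (.g 1 8 0 11 18 true true), .t 2 (nat_lit 0x4dc) (.g 11 0 1 8 18 false true), .t 2 (nat_lit 0x4db) (.g 8 0 1 11 18 true true), .t 2 (nat_lit 0x4d1) (.g 13 1 0 8 12 true false), .t 2 (nat_lit 0x4dd) (.g 0 11 1 12 13 true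 true), .t 3 (nat_lit 0x4de04d1) (.g 0 11 8 12 13 true true), .t 3 (nat_lit 0x4df04d4) (.a 1 8 12 14 true), .t 2 (nat_lit 0x4d4) (.g 14 1 0 8 12 true false), .t 2 (nat_lit 0x4e0) (.g 0 11 1 12 14 true true), .t 2 (nat_lit 0x4d6) (.g 1 8 0 12 15 true true), .t 3 (nat_lit 0x4e104d6) (.a 1 8 12 15 true), .t 2 (nat_lit 0x4d6) (.g 15 1 0 8 12 true false), .t 2 (nat_lit 0x4e2) (.g 0 11 1 12 15 true true), .t 2 (nat_lit 0x4d7) (.g 1 8 0 12 16 true true), .t 3 (nat_lit 0x4e304d7) (.a 1 8 12 16 true), .t 2 (nat_lit 0x4d7) (.g 16 1 0 8 12 true false), .t 2 (nat_lit 0x4d7) (.g 16 8 0 1 12 true false), .t 2 (nat_lit 0x4e4) (.g 0 11 1 12 16 true true), .t 2 (nat_lit 0x4e5) (.g 0 11 1 12 16 true true), .t 3 (nat_lit 0x4e604d7) (.g 0 11 8 12 16 true true), .t 3 (nat_lit 0x4e704d9) (.a 1 8 12 17 true), .t 2 (nat_lit 0x4d9) (.g 17 1 0 8 12 true false), .t 2 (nat_lit 0x4e8) (.g 0 11 1 12 17 true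 true), .t 2 (nat_lit 0x4e9) (.g 0 11 1 12 17 true true), .t 3 (nat_lit 0x4ea04d9) (.g 0 11 8 12 17 true true), .t 2 (nat_lit 0x4cf) (.g 8 1 0 12 18 false true), .t 3 (nat_lit 0x4eb04db) (.a 1 8 12 18 true), .t 2 (nat_lit 0x4db) (.g 18 1 0 8 12 true false), .t 2 (nat_lit 0x4ec) (.g 0 11 1 12 18 true true), .t 3 (nat_lit 0x4ed04db) (.g 0 11 8 12 18 true true), .t 2 (nat_lit 0x4ee) (.g 0 11 1 13 14 true true), .t 3 (nat_lit 0x4ef04d4) (.a 1 8 13 14 false), .t 2 (nat_lit 0x4d4) (.g 14 1 0 8 13 true false)] (by decide +kernel) (by decide +kernel)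
theorem b123 : B 7872 7936 := Blk.of_chk [.t 2 (nat_lit 0x4d4) (.g 14 8 0 1 13 true false), .t 2 (nat_lit 0x4f0) (.g 0 11 1 13 14 true true), .t 2 (nat_lit 0x4f1) (.g 0 11 1 13 14 true true), .t 3 (nat_lit 0x4f204d4) (.g 0 11 8 13 14 true true), .t 3 (nat_lit 0x4f304d6) (.a 1 8 13 15 true), .t 3 (nat_lit 0x4f404d6) (.a 1 8 13 15 false), .t 2 (nat_lit 0x4f5) (.g 0 11 1 13 15 true true), .t 2 (nat_lit 0x4f6) (.g 0 11 1 13 15 true true), .t 2 (nat_lit 0x4d7) (.g 1 8 0 13 16 true true), .t 3 (nat_lit 0x4f704d7) (.a 1 8 13 16 true), .t 3 (nat_lit 0x4f804d7) (.a 1 8 13 16 false), .t 2 (nat_lit 0x4d7) (.g 16 1 0 8 13 true false), .t 2 (nat_lit 0x4f9) (.g 0 11 1 13 16 true true), .t 2 (nat_lit 0x4fa) (.g 0 11 1 13 16 true true), .t 2 (nat_lit 0x4d9) (.g 1 8 0 13 17 true true), .t 3 (nat_lit 0x4fb04d9) (.a 1 8 13 17 true), .t 3 (nat_lit 0x4fc04d9) (.a 1 8 13 17 false), .t 2 (nat_lit 0x4d9)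 (.g 17 1 0 8 13 true false), .t 2 (nat_lit 0x4fd) (.g 0 11 1 13 17 true true), .t 2 (nat_lit 0x4fe) (.g 0 11 1 13 17 true true), .t 3 (nat_lit 0x4ff04d9) (.g 0 11 8 13 17 true true), .t 2 (nat_lit 0x500) (.g 0 11 8 13 18 true true), .t 2 (nat_lit 0x4d1) (.g 8 1 0 13 18 false true), .t 3 (nat_lit 0x50104db) (.a 1 8 13 18 false), .t 2 (nat_lit 0x4db) (.g 18 1 0 8 13 true false), .t 2 (nat_lit 0x502) (.g 0 11 1 13 18 true true), .t 3 (nat_lit 0x50304db) (.g 0 11 8 13 18 true true), .t 3 (nat_lit 0x50404d4) (.g 8 0 1 14 15 true false), .t 3 (nat_lit 0x50504d6) (.a 1 8 14 15 true), .t 2 (nat_lit 0x4d6) (.g 15 1 0 8 14 true false), .t 2 (nat_lit 0x506) (.g 0 11 1 14 15 true true), .t 2 (nat_lit 0x507) (.g 0 11 1 14 15 true true), .t 3 (nat_lit 0x50804d7) (.a 1 8 14 16 false), .t 2 (nat_lit 0x4d7) (.g 16 1 0 8 14 true false), .t 2 (nat_lit 0x509) (.g 0 11 1 14 16 true true), .t 2 (nat_lit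 0x50a) (.g 0 11 1 14 16 true true), .t 3 (nat_lit 0x50b04d7) (.g 0 11 8 14 16 true true), .t 3 (nat_lit 0x50c04d4) (.g 8 0 1 14 17 true false), .t 3 (nat_lit 0x50d04d9) (.a 1 8 14 17 true), .t 3 (nat_lit 0x50e04d9) (.a 1 8 14 17 false), .t 2 (nat_lit 0x4d9) (.g 17 1 0 8 14 true false), .t 2 (nat_lit 0x50f) (.g 0 11 1 14 17 true true), .t 3 (nat_lit 0x51004d9) (.g 0 11 8 14 17 true true), .t 3 (nat_lit 0x51104d4) (.g 8 0 1 14 18 true false), .t 3 (nat_lit 0x51204db) (.a 1 8 14 18 true), .t 2 (nat_lit 0x4db) (.g 18 1 0 8 14 true false), .t 2 (nat_lit 0x513) (.g 0 11 1 14 18 true true), .t 2 (nat_lit 0x514) (.g 0 11 1 14 18 true true), .t 3 (nat_lit 0x51504db) (.g 0 11 8 14 18 true true), .t 2 (nat_lit 0x516) (.g 0 11 1 15 16 true true), .t 2 (nat_lit 0x517) (.g 0 11 1 15 16 true true), .t 3 (nat_lit 0x51804d7) (.g 0 11 8 15 16 true true), .t 3 (nat_lit 0x51904d9) (.a 1 8 15 17 true),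 .t 2 (nat_lit 0x4d9) (.g 17 1 0 8 15 true false), .t 2 (nat_lit 0x51a) (.g 0 11 1 15 17 true true), .t 2 (nat_lit 0x51b) (.g 0 11 1 15 17 true true), .t 3 (nat_lit 0x51c04d9) (.g 0 11 8 15 17 true true), .t 2 (nat_lit 0x4d6) (.g 8 0 1 15 18 true false), .t 3 (nat_lit 0x51d04db) (.a 1 8 15 18 false), .t 2 (nat_lit 0x51e) (.g 0 11 1 15 18 true true), .t 3 (nat_lit 0x51f04db) (.g 0 11 8 15 18 true true), .t 2 (nat_lit 0x520) (.g 0 11 1 16 17 true true), .t 3 (nat_lit 0x52104d9) (.a 1 8 16 17 true), .t 3 (nat_lit 0x52204d9) (.a 1 8 16 17 false)] (by decide +kernel) (by decide +kernel)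
theorem b124 : B 7936 8000 := Blk.of_chk [.t 2 (nat_lit 0x4d9) (.g 17 1 0 8 16 true false), .t 2 (nat_lit 0x523) (.g 0 11 1 16 17 true true), .t 2 (nat_lit 0x524) (.g 0 11 1 16 17 true true), .t 3 (nat_lit 0x52504d9) (.g 0 11 8 16 17 true true), .t 2 (nat_lit 0x4d7) (.g 8 0 1 16 18 true false), .t 3 (nat_lit 0x52604db) (.a 1 8 16 18 true), .t 2 (nat_lit 0x4db) (.g 18 1 0 8 16 true false), .t 2 (nat_lit 0x527) (.g 0 11 1 16 18 true true), .t 3 (nat_lit 0x52804db) (.g 0 11 8 16 18 true true), .t 2 (nat_lit 0x529) (.g 0 11 8 17 18 true true), .t 3 (nat_lit 0x52a04d9) (.g 8 0 1 17 18 true false), .t 3 (nat_lit 0x52b04db) (.a 1 8 17 18 true), .t 2 (nat_lit 0x4db) (.g 18 1 0 8 17 true false), .t 3 (nat_lit 0x52c04db) (.g 0 11 8 17 18 true true), .t 1 (nat_lit 0) (.g 1 10 0 9 11 true false), .t 1 (nat_lit 0) (.g 9 11 0 1 10 false true), .t 1 (nat_lit 0) (.g 10 0 1 9 11 true false), .t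 1 (nat_lit 0) (.g 1 0 9 10 12 false false), .t 2 (nat_lit 0x52d) (.g 9 12 0 1 10 false true), .t 1 (nat_lit 0) (.g 1 10 0 9 12 true false), .t 2 (nat_lit 0x52e) (.g 0 11 1 9 12 true true), .t 2 (nat_lit 0x52f) (.g 0 11 1 10 13 true true), .t 1 (nat_lit 0) (.g 9 13 0 1 10 false true), .t 1 (nat_lit 0) (.a 1 9 10 13 false), .t 1 (nat_lit 0) (.g 1 10 0 9 13 true false), .t 1 (nat_lit 0) (.g 1 10 0 9 13 true false), .t 2 (nat_lit 0x530) (.g 0 11 1 9 13 true true), .t 2 (nat_lit 0x531) (.g 0 11 1 10 13 true true), .t 1 (nat_lit 0) (.g 9 14 0 1 10 false true), .t 1 (nat_lit 0) (.g 1 10 0 9 14 true false), .t 2 (nat_lit 0x532) (.g 0 11 1 9 14 true true), .t 2 (nat_lit 0x533) (.g 0 11 1 10 14 true true), .t 1 (nat_lit 0) (.g 9 15 0 1 10 false true), .t 2 (nat_lit 0x534) (.g 9 15 0 1 10 false true), .t 1 (nat_lit 0) (.g 1 10 0 9 15 true false), .t 2 (nat_lit 0x535) (.g 0 11 1 9 15 true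 true), .t 2 (nat_lit 0x536) (.g 1 0 9 10 16 false false), .t 1 (nat_lit 0) (.g 9 16 0 1 10 false true), .t 2 (nat_lit 0x537) (.g 9 16 0 1 10 false true), .t 1 (nat_lit 0) (.g 1 10 0 9 16 true false), .t 2 (nat_lit 0x538) (.g 0 11 1 9 16 true true), .t 2 (nat_lit 0x539) (.g 0 11 1 10 16 true true), .t 2 (nat_lit 0x53a) (.g 1 0 9 10 17 false false), .t 1 (nat_lit 0) (.g 9 17 0 1 10 true true), .t 1 (nat_lit 0) (.g 9 17 0 1 10 false true), .t 2 (nat_lit 0x53b) (.g 9 17 0 1 10 false true), .t 1 (nat_lit 0) (.g 1 10 0 9 17 true false), .t 2 (nat_lit 0x53c) (.g 0 11 1 9 17 true true), .t 2 (nat_lit 0x53d) (.g 0 11 1 10 17 true true), .t 2 (nat_lit 0x53e) (.g 0 11 1 10 18 true true), .t 2 (nat_lit 0x53f) (.g 0 11 9 10 18 true true), .t 2 (nat_lit 0x540) (.g 1 0 9 10 18 false false), .t 1 (nat_lit 0) (.g 9 18 0 1 10 true true), .t 1 (nat_lit 0) (.g 9 18 0 1 10 false true), .t 1 (nat_lit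 0) (.a 1 9 10 18 false), .t 1 (nat_lit 0) (.g 1 10 0 9 18 true false), .t 1 (nat_lit 0) (.g 1 10 0 9 18 true false), .t 2 (nat_lit 0x541) (.g 0 11 1 9 18 true true), .t 1 (nat_lit 0) (.g 11 0 1 9 12 false true), .t 2 (nat_lit 0x542) (.g 11 0 1 9 12 false true), .t 2 (nat_lit 0x543) (.g 11 0 1 9 12 false false), .t 2 (nat_lit 0x544) (.g 9 0 1 11 12 true true), .t 2 (nat_lit 0x544) (.g 9 0 1 11 12 true false), .t 1 (nat_lit 0) (.g 9 1 0 11 13 false true)] (by decide +kernel) (by decide +kernel)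
theorem b125 : B 8000 8064 := Blk.of_chk [.t 1 (nat_lit 0) (.g 11 0 1 9 13 false true), .t 1 (nat_lit 0) (.g 11 0 1 9 13 false false), .t 2 (nat_lit 0x545) (.g 11 0 1 9 13 false true), .t 2 (nat_lit 0x546) (.g 11 0 1 9 13 false false), .t 2 (nat_lit 0x547) (.g 9 0 1 11 13 true true), .t 1 (nat_lit 0) (.g 11 0 1 9 14 false true), .t 1 (nat_lit 0) (.g 11 0 1 9 14 false true), .t 1 (nat_lit 0) (.g 11 0 1 9 14 false false), .t 2 (nat_lit 0x548) (.g 11 0 1 9 14 false true), .t 2 (nat_lit 0x549) (.g 11 0 1 9 14 false false), .t 2 (nat_lit 0x54a) (.g 9 0 1 11 14 true true), .t 2 (nat_lit 0x54a) (.g 9 0 1 11 14 true false), .t 1 (nat_lit 0) (.g 9 1 0 11 15 false true), .t 1 (nat_lit 0) (.g 11 0 1 9 15 false true), .t 1 (nat_lit 0) (.g 11 0 1 9 15 false true), .t 1 (nat_lit 0) (.g 11 0 1 9 15 false false), .t 2 (nat_lit 0x54b) (.g 11 0 1 9 15 false true), .t 1 (nat_lit 0) (.g 1 11 0 9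 15 false false), .t 2 (nat_lit 0x54c) (.g 9 0 1 11 15 true true), .t 2 (nat_lit 0x54c) (.g 9 0 1 11 15 true false), .t 2 (nat_lit 0x54d) (.g 1 9 0 11 16 true true), .t 1 (nat_lit 0) (.g 11 0 1 9 16 false true), .t 1 (nat_lit 0) (.g 11 0 1 9 16 false true), .t 1 (nat_lit 0) (.g 11 0 1 9 16 false false), .t 2 (nat_lit 0x54e) (.g 11 0 1 9 16 false true), .t 2 (nat_lit 0x54f) (.g 11 0 1 9 16 false false), .t 2 (nat_lit 0x54d) (.g 9 0 1 11 16 true true), .t 2 (nat_lit 0x54d) (.g 9 0 1 11 16 true false), .t 1 (nat_lit 0) (.g 9 1 0 11 17 false true), .t 1 (nat_lit 0) (.g 11 0 1 9 17 false true), .t 1 (nat_lit 0) (.g 11 0 1 9 17 false true), .t 1 (nat_lit 0) (.g 11 0 1 9 17 false false), .t 2 (nat_lit 0x550) (.g 11 0 1 9 17 false true), .t 2 (nat_lit 0x551) (.g 11 0 1 9 17 false false), .t 2 (nat_lit 0x552) (.g 9 0 1 11 17 true true), .t 2 (nat_lit 0x553) (.g 1 9 0 11 18 true true), .t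 1 (nat_lit 0) (.g 9 1 0 11 18 false true), .t 1 (nat_lit 0) (.g 11 0 1 9 18 false true), .t 1 (nat_lit 0) (.g 11 0 1 9 18 false true), .t 2 (nat_lit 0x554) (.g 11 0 1 9 18 false true), .t 1 (nat_lit 0) (.g 1 11 0 9 18 false false), .t 2 (nat_lit 0x553) (.g 9 0 1 11 18 true true), .t 3 (nat_lit 0x5550547) (.a 1 9 12 13 true), .t 2 (nat_lit 0x547) (.g 13 1 0 9 12 true false), .t 2 (nat_lit 0x547) (.g 13 9 0 1 12 true false), .t 2 (nat_lit 0x556) (.g 0 11 1 12 13 true true), .t 3 (nat_lit 0x5570547) (.g 0 11 9 12 13 true true), .t 3 (nat_lit 0x5580544) (.g 9 0 1 12 14 true false), .t 3 (nat_lit 0x559054a) (.a 1 9 12 14 true), .t 3 (nat_lit 0x55a054a) (.a 1 9 12 14 false), .t 2 (nat_lit 0x54a) (.g 14 1 0 9 12 true false), .t 2 (nat_lit 0x54a) (.g 14 9 0 1 12 true false), .t 2 (nat_lit 0x55b) (.g 0 11 1 12 14 true true), .t 2 (nat_lit 0x55c) (.g 0 11 1 12 14 true true), .t 3 (nat_lit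 0x55d054a) (.g 0 11 9 12 14 true true), .t 3 (nat_lit 0x55e054a) (.g 0 11 9 12 14 true true), .t 2 (nat_lit 0x544) (.g 9 1 0 12 15 false true), .t 3 (nat_lit 0x55f054c) (.a 1 9 12 15 true), .t 2 (nat_lit 0x54c) (.g 15 1 0 9 12 true false), .t 2 (nat_lit 0x54c) (.g 15 9 0 1 12 true false), .t 2 (nat_lit 0x560) (.g 0 11 1 12 15 true true), .t 3 (nat_lit 0x561054c) (.g 0 11 9 12 15 true true), .t 2 (nat_lit 0x54d) (.g 1 9 0 12 16 true true), .t 3 (nat_lit 0x562054d) (.a 1 9 12 16 true)] (by decide +kernel) (by decide +kernel)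
theorem b126 : B 8064 8128 := Blk.of_chk [.t 3 (nat_lit 0x563054d) (.a 1 9 12 16 false), .t 2 (nat_lit 0x54d) (.g 16 1 0 9 12 true false), .t 2 (nat_lit 0x54d) (.g 16 9 0 1 12 true false), .t 2 (nat_lit 0x564) (.g 0 11 1 12 16 true true), .t 3 (nat_lit 0x565054d) (.g 0 11 9 12 16 true true), .t 3 (nat_lit 0x566054d) (.g 0 11 9 12 16 true true), .t 2 (nat_lit 0x552) (.g 1 9 0 12 17 true true), .t 3 (nat_lit 0x5670552) (.a 1 9 12 17 true), .t 2 (nat_lit 0x552) (.g 17 1 0 9 12 true false), .t 2 (nat_lit 0x552) (.g 17 9 0 1 12 true false), .t 2 (nat_lit 0x568) (.g 0 11 1 12 17 true true), .t 3 (nat_lit 0x5690552) (.g 0 11 9 12 17 true true), .t 2 (nat_lit 0x553) (.g 1 9 0 12 18 true true), .t 2 (nat_lit 0x544) (.g 9 1 0 12 18 false true), .t 3 (nat_lit 0x56a0544) (.g 9 0 1 12 18 true false), .t 3 (nat_lit 0x56b0553) (.a 1 9 12 18 true), .t 2 (nat_lit 0x553) (.g 18 1 0 9 12 true false),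 .t 2 (nat_lit 0x553) (.g 18 9 0 1 12 true false), .t 2 (nat_lit 0x56c) (.g 0 11 1 12 18 true true), .t 3 (nat_lit 0x56d0553) (.g 0 11 9 12 18 true true), .t 2 (nat_lit 0x56e) (.g 0 11 1 13 14 true true), .t 3 (nat_lit 0x56f0547) (.g 9 0 1 13 14 true false), .t 2 (nat_lit 0x547) (.g 9 0 1 13 14 true false), .t 3 (nat_lit 0x570054a) (.a 1 9 13 14 true), .t 3 (nat_lit 0x571054a) (.a 1 9 13 14 false), .t 2 (nat_lit 0x54a) (.g 14 1 0 9 13 true false), .t 2 (nat_lit 0x54a) (.g 14 9 0 1 13 true false), .t 2 (nat_lit 0x572) (.g 0 11 1 13 14 true true), .t 2 (nat_lit 0x573) (.g 0 11 1 13 14 true true), .t 3 (nat_lit 0x574054a) (.g 0 11 9 13 14 true true), .t 3 (nat_lit 0x575054a) (.g 0 11 9 13 14 true true), .t 2 (nat_lit 0x576) (.g 0 11 9 13 15 true true), .t 2 (nat_lit 0x547) (.g 9 1 0 13 15 false true), .t 3 (nat_lit 0x5770547) (.g 9 0 1 13 15 true false), .t 3 (nat_lit 0x578054c) (.a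 1 9 13 15 true), .t 3 (nat_lit 0x579054c) (.a 1 9 13 15 false), .t 2 (nat_lit 0x54c) (.g 15 1 0 9 13 true false), .t 2 (nat_lit 0x57a) (.g 0 11 1 13 15 true true), .t 2 (nat_lit 0x57b) (.g 0 11 1 13 15 true true), .t 3 (nat_lit 0x57c054c) (.g 0 11 9 13 15 true true), .t 3 (nat_lit 0x57d054c) (.g 0 11 9 13 15 true true), .t 2 (nat_lit 0x54d) (.g 1 9 0 13 16 true true), .t 3 (nat_lit 0x57e0547) (.g 9 0 1 13 16 true false), .t 2 (nat_lit 0x547) (.g 9 0 1 13 16 true false), .t 3 (nat_lit 0x57f054d) (.a 1 9 13 16 true), .t 3 (nat_lit 0x580054d) (.a 1 9 13 16 false), .t 2 (nat_lit 0x54d) (.g 16 1 0 9 13 true false), .t 2 (nat_lit 0x54d) (.g 16 9 0 1 13 true false), .t 2 (nat_lit 0x581) (.g 0 11 1 13 16 true true), .t 2 (nat_lit 0x582) (.g 0 11 1 13 16 true true), .t 3 (nat_lit 0x583054d) (.g 0 11 9 13 16 true true), .t 3 (nat_lit 0x584054d) (.g 0 11 9 13 16 true true), .t 3 (nat_lit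 0x5850547) (.g 9 0 1 13 17 true false), .t 3 (nat_lit 0x5860552) (.a 1 9 13 17 true), .t 3 (nat_lit 0x5870552) (.a 1 9 13 17 false), .t 2 (nat_lit 0x552) (.g 17 1 0 9 13 true false), .t 2 (nat_lit 0x552) (.g 17 9 0 1 13 true false), .t 2 (nat_lit 0x588) (.g 0 11 1 13 17 true true), .t 2 (nat_lit 0x589) (.g 0 11 1 13 17 true true), .t 3 (nat_lit 0x58a0552) (.g 0 11 9 13 17 true true), .t 2 (nat_lit 0x58b) (.g 0 11 9 13 18 true true), .t 2 (nat_lit 0x58c) (.g 0 11 9 13 18 true true), .t 2 (nat_lit 0x547) (.g 9 1 0 13 18 false true), .t 3 (nat_lit 0x58d0547) (.g 9 0 1 13 18 true false)] (by decide +kernel) (by decide +kernel)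
theorem b127 : B 8128 8192 := Blk.of_chk [.t 2 (nat_lit 0x547) (.g 9 0 1 13 18 true false), .t 3 (nat_lit 0x58e0553) (.a 1 9 13 18 true), .t 3 (nat_lit 0x58f0553) (.a 1 9 13 18 false), .t 2 (nat_lit 0x553) (.g 18 1 0 9 13 true false), .t 2 (nat_lit 0x553) (.g 18 9 0 1 13 true false), .t 2 (nat_lit 0x590) (.g 0 11 1 13 18 true true), .t 3 (nat_lit 0x5910553) (.g 0 11 9 13 18 true true), .t 3 (nat_lit 0x5920553) (.g 0 11 9 13 18 true true), .t 3 (nat_lit 0x593054a) (.g 9 0 1 14 15 true false), .t 2 (nat_lit 0x54a) (.g 9 0 1 14 15 true false), .t 3 (nat_lit 0x594054c) (.a 1 9 14 15 true), .t 3 (nat_lit 0x595054c) (.a 1 9 14 15 false), .t 2 (nat_lit 0x54c) (.g 15 1 0 9 14 true false), .t 2 (nat_lit 0x54c) (.g 15 9 0 1 14 true false), .t 2 (nat_lit 0x596) (.g 0 11 1 14 15 true true), .t 2 (nat_lit 0x597) (.g 0 11 1 14 15 true true), .t 3 (nat_lit 0x598054c) (.g 0 11 9 14 15 true true),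 .t 3 (nat_lit 0x599054c) (.g 0 11 9 14 15 true true), .t 3 (nat_lit 0x59a054a) (.g 9 0 1 14 16 true false), .t 3 (nat_lit 0x59b054d) (.a 1 9 14 16 true), .t 3 (nat_lit 0x59c054d) (.a 1 9 14 16 false), .t 2 (nat_lit 0x54d) (.g 16 1 0 9 14 true false), .t 2 (nat_lit 0x54d) (.g 16 9 0 1 14 true false), .t 2 (nat_lit 0x59d) (.g 0 11 1 14 16 true true), .t 2 (nat_lit 0x59e) (.g 0 11 1 14 16 true true), .t 3 (nat_lit 0x59f054d) (.g 0 11 9 14 16 true true), .t 3 (nat_lit 0x5a0054d) (.g 0 11 9 14 16 true true), .t 2 (nat_lit 0x552) (.g 1 9 0 14 17 true true), .t 3 (nat_lit 0x5a1054a) (.g 9 0 1 14 17 true false), .t 3 (nat_lit 0x5a20552) (.a 1 9 14 17 true), .t 3 (nat_lit 0x5a30552) (.a 1 9 14 17 false), .t 2 (nat_lit 0x552) (.g 17 1 0 9 14 true false), .t 2 (nat_lit 0x552) (.g 17 9 0 1 14 true false), .t 2 (nat_lit 0x5a4) (.g 0 11 1 14 17 true true), .t 2 (nat_lit 0x5a5) (.g 0 11 1 14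 17 true true), .t 3 (nat_lit 0x5a60552) (.g 0 11 9 14 17 true true), .t 2 (nat_lit 0x54a) (.g 9 1 0 14 18 false true), .t 3 (nat_lit 0x5a7054a) (.g 9 0 1 14 18 true false), .t 2 (nat_lit 0x54a) (.g 9 0 1 14 18 true false), .t 3 (nat_lit 0x5a80553) (.a 1 9 14 18 true), .t 2 (nat_lit 0x553) (.g 18 1 0 9 14 true false), .t 2 (nat_lit 0x5a9) (.g 0 11 1 14 18 true true), .t 2 (nat_lit 0x5aa) (.g 0 11 1 14 18 true true), .t 3 (nat_lit 0x5ab0553) (.g 0 11 9 14 18 true true), .t 3 (nat_lit 0x5ac0553) (.g 0 11 9 14 18 true true), .t 2 (nat_lit 0x5ad) (.g 0 11 1 15 16 true true), .t 2 (nat_lit 0x54c) (.g 9 0 1 15 16 true false), .t 3 (nat_lit 0x5ae054d) (.a 1 9 15 16 true), .t 3 (nat_lit 0x5af054d) (.a 1 9 15 16 false), .t 2 (nat_lit 0x54d) (.g 16 1 0 9 15 true false), .t 2 (nat_lit 0x54d) (.g 16 9 0 1 15 true false), .t 2 (nat_lit 0x5b0) (.g 0 11 1 15 16 true true), .t 3 (nat_lit 0x5b1054d)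 (.g 0 11 9 15 16 true true), .t 3 (nat_lit 0x5b2054d) (.g 0 11 9 15 16 true true), .t 2 (nat_lit 0x552) (.g 17 1 0 9 15 true false), .t 2 (nat_lit 0x5b3) (.g 0 11 1 15 17 true true), .t 2 (nat_lit 0x5b4) (.g 0 11 1 15 17 true true), .t 3 (nat_lit 0x5b50552) (.g 0 11 9 15 17 true true), .t 3 (nat_lit 0x5b6054c) (.g 9 0 1 15 18 true false), .t 2 (nat_lit 0x54c) (.g 9 0 1 15 18 true false), .t 3 (nat_lit 0x5b70553) (.a 1 9 15 18 true), .t 2 (nat_lit 0x553) (.g 18 1 0 9 15 true false), .t 2 (nat_lit 0x553) (.g 18 9 0 1 15 true false), .t 3 (nat_lit 0x5b80553) (.g 0 11 9 15 18 true true)] (by decide +kernel) (by decide +kernel)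
theorem b128 : B 8192 8256 := Blk.of_chk [.t 3 (nat_lit 0x5b90553) (.g 0 11 9 15 18 true true), .t 2 (nat_lit 0x5ba) (.g 0 11 9 16 17 true true), .t 3 (nat_lit 0x5bb0552) (.a 1 9 16 17 true), .t 3 (nat_lit 0x5bc0552) (.a 1 9 16 17 false), .t 2 (nat_lit 0x552) (.g 17 1 0 9 16 true false), .t 2 (nat_lit 0x552) (.g 17 9 0 1 16 true false), .t 2 (nat_lit 0x5bd) (.g 0 11 1 16 17 true true), .t 2 (nat_lit 0x5be) (.g 0 11 1 16 17 true true), .t 3 (nat_lit 0x5bf0552) (.g 0 11 9 16 17 true true), .t 2 (nat_lit 0x54d) (.g 9 0 1 16 18 true false), .t 3 (nat_lit 0x5c00553) (.a 1 9 16 18 true), .t 2 (nat_lit 0x553) (.g 18 1 0 9 16 true false), .t 2 (nat_lit 0x5c1) (.g 0 11 1 16 18 true true), .t 2 (nat_lit 0x5c2) (.g 0 11 1 16 18 true true), .t 3 (nat_lit 0x5c30553) (.g 0 11 9 16 18 true true), .t 3 (nat_lit 0x5c40553) (.g 0 11 9 16 18 true true), .t 2 (nat_lit 0x552) (.g 9 0 1 17 18 true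 false), .t 3 (nat_lit 0x5c50553) (.a 1 9 17 18 true), .t 3 (nat_lit 0x5c60553) (.a 1 9 17 18 false), .t 2 (nat_lit 0x553) (.g 18 1 0 9 17 true false), .t 2 (nat_lit 0x553) (.g 18 9 0 1 17 true false), .t 3 (nat_lit 0x5c70553) (.g 0 11 9 17 18 true true), .t 3 (nat_lit 0x5c80553) (.g 0 11 9 17 18 true true), .t 2 (nat_lit 0x5c9) (.g 11 0 1 10 12 false true), .t 2 (nat_lit 0x5ca) (.g 11 0 1 10 12 false false), .t 2 (nat_lit 0x5cb) (.g 10 0 1 11 12 true false), .t 2 (nat_lit 0x5cc) (.g 1 10 0 11 13 true true), .t 1 (nat_lit 0) (.g 11 0 1 10 13 false false), .t 2 (nat_lit 0x5cd) (.g 11 0 1 10 13 false true), .t 2 (nat_lit 0x5ce) (.g 11 0 1 10 13 false false), .t 2 (nat_lit 0x5cc) (.g 10 0 1 11 13 true true), .t 2 (nat_lit 0x5cc) (.g 10 0 1 11 13 true false), .t 1 (nat_lit 0) (.g 11 0 1 10 14 false true), .t 1 (nat_lit 0) (.g 11 0 1 10 14 false true), .t 1 (nat_lit 0) (.g 11 0 1 10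 14 false false), .t 2 (nat_lit 0x5cf) (.g 11 0 1 10 14 false true), .t 2 (nat_lit 0x5d0) (.g 11 0 1 10 14 false false), .t 2 (nat_lit 0x5d1) (.g 10 0 1 11 14 true true), .t 2 (nat_lit 0x5d1) (.g 10 0 1 11 14 true false), .t 2 (nat_lit 0x5d2) (.g 1 10 0 11 15 true true), .t 1 (nat_lit 0) (.g 11 0 1 10 15 false true), .t 1 (nat_lit 0) (.g 11 0 1 10 15 false true), .t 1 (nat_lit 0) (.g 11 0 1 10 15 false false), .t 2 (nat_lit 0x5d3) (.g 11 0 1 10 15 false true), .t 2 (nat_lit 0x5d4) (.g 11 0 1 10 15 false false), .t 2 (nat_lit 0x5d2) (.g 10 0 1 11 15 true true), .t 1 (nat_lit 0) (.g 11 0 1 10 16 false true), .t 1 (nat_lit 0) (.g 11 0 1 10 16 false true), .t 1 (nat_lit 0) (.g 11 0 1 10 16 false false), .t 2 (nat_lit 0x5d5) (.g 11 0 1 10 16 false true), .t 2 (nat_lit 0x5d6) (.g 11 0 1 10 16 false false), .t 1 (nat_lit 0) (.g 11 0 1 10 17 false true), .t 1 (nat_lit 0) (.g 11 0 1 10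 17 false true), .t 1 (nat_lit 0) (.g 11 0 1 10 17 false false), .t 2 (nat_lit 0x5d7) (.g 11 0 1 10 17 false true), .t 2 (nat_lit 0x5d8) (.g 10 0 1 11 17 true true), .t 2 (nat_lit 0x5d8) (.g 10 0 1 11 17 true false), .t 1 (nat_lit 0) (.g 11 0 1 10 18 false true), .t 2 (nat_lit 0x5d9) (.g 11 0 1 10 18 false true), .t 2 (nat_lit 0x5da) (.g 10 0 1 11 18 true true), .t 3 (nat_lit 0x5db05cc) (.a 1 10 12 13 true), .t 2 (nat_lit 0x5cc) (.g 13 1 0 10 12 true false), .t 2 (nat_lit 0x5cc) (.g 13 10 0 1 12 true false), .t 2 (nat_lit 0x5dc) (.g 0 11 1 12 13 true true)] (by decide +kernel) (by decide +kernel)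
theorem b129 : B 8256 8320 := Blk.of_chk [.t 3 (nat_lit 0x5dd05cc) (.g 0 11 10 12 13 true true), .t 3 (nat_lit 0x5de05cc) (.g 0 11 10 12 13 true true), .t 3 (nat_lit 0x5df05d1) (.a 1 10 12 14 true), .t 3 (nat_lit 0x5e005d1) (.a 1 10 12 14 false), .t 2 (nat_lit 0x5d1) (.g 14 1 0 10 12 true false), .t 2 (nat_lit 0x5e1) (.g 0 11 1 12 14 true true), .t 2 (nat_lit 0x5e2) (.g 0 11 1 12 14 true true), .t 3 (nat_lit 0x5e305d1) (.g 0 11 10 12 14 true true), .t 2 (nat_lit 0x5cb) (.g 10 1 0 12 15 false true), .t 3 (nat_lit 0x5e405d2) (.a 1 10 12 15 true), .t 2 (nat_lit 0x5d2) (.g 15 1 0 10 12 true false), .t 2 (nat_lit 0x5e5) (.g 0 11 1 12 15 true true), .t 3 (nat_lit 0x5e705e6) (.a 1 10 12 16 true), .t 3 (nat_lit 0x5e805e6) (.a 1 10 12 16 false), .t 2 (nat_lit 0x5e6) (.g 16 1 0 10 12 true false), .t 2 (nat_lit 0x5e9) (.g 0 11 1 12 16 true true), .t 2 (nat_lit 0x5ea) (.g 0 11 1 12 16 true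 true), .t 3 (nat_lit 0x5eb05e6) (.g 0 11 10 12 16 true true), .t 3 (nat_lit 0x5ec05d8) (.a 1 10 12 17 true), .t 2 (nat_lit 0x5d8) (.g 17 1 0 10 12 true false), .t 2 (nat_lit 0x5ed) (.g 0 11 1 12 17 true true), .t 2 (nat_lit 0x5ee) (.g 0 11 1 12 17 true true), .t 3 (nat_lit 0x5ef05d8) (.g 0 11 10 12 17 true true), .t 3 (nat_lit 0x5f005da) (.a 1 10 12 18 true), .t 3 (nat_lit 0x5f105da) (.a 1 10 12 18 false), .t 2 (nat_lit 0x5da) (.g 18 1 0 10 12 true false), .t 2 (nat_lit 0x5f2) (.g 0 11 1 12 18 true true), .t 2 (nat_lit 0x5f3) (.g 0 11 1 12 18 true true), .t 3 (nat_lit 0x5f405da) (.g 0 11 10 12 18 true true), .t 2 (nat_lit 0x5f5) (.g 0 11 1 13 14 true true), .t 3 (nat_lit 0x5f605cc) (.g 10 0 1 13 14 true false), .t 3 (nat_lit 0x5f705d1) (.a 1 10 13 14 true), .t 3 (nat_lit 0x5f805d1) (.a 1 10 13 14 false), .t 2 (nat_lit 0x5d1) (.g 14 1 0 10 13 true false), .t 2 (nat_lit 0x5d1) (.g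 14 10 0 1 13 true false), .t 2 (nat_lit 0x5f9) (.g 0 11 1 13 14 true true), .t 2 (nat_lit 0x5fa) (.g 0 11 1 13 14 true true), .t 3 (nat_lit 0x5fb05d1) (.g 0 11 10 13 14 true true), .t 3 (nat_lit 0x5fc05d1) (.g 0 11 10 13 14 true true), .t 3 (nat_lit 0x5fd05cc) (.g 10 0 1 13 15 true false), .t 2 (nat_lit 0x5cc) (.g 10 0 1 13 15 true false), .t 3 (nat_lit 0x5fe05d2) (.a 1 10 13 15 true), .t 3 (nat_lit 0x5ff05d2) (.a 1 10 13 15 false), .t 2 (nat_lit 0x5d2) (.g 15 10 0 1 13 true false), .t 2 (nat_lit 0x600) (.g 0 11 1 13 15 true true), .t 2 (nat_lit 0x601) (.g 0 11 1 13 15 true true), .t 3 (nat_lit 0x60205d2) (.g 0 11 10 13 15 true true), .t 3 (nat_lit 0x60305d2) (.g 0 11 10 13 15 true true), .t 2 (nat_lit 0x5e6) (.g 1 10 0 13 16 true true), .t 3 (nat_lit 0x60405cc) (.g 10 0 1 13 16 true false), .t 2 (nat_lit 0x5cc) (.g 10 0 1 13 16 true false), .t 3 (nat_lit 0x60505e6) (.a 1 10 13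 16 true), .t 3 (nat_lit 0x60605e6) (.a 1 10 13 16 false), .t 2 (nat_lit 0x5e6) (.g 16 1 0 10 13 true false), .t 2 (nat_lit 0x607) (.g 0 11 1 13 16 true true), .t 2 (nat_lit 0x608) (.g 0 11 1 13 16 true true), .t 2 (nat_lit 0x5d8) (.g 1 10 0 13 17 true true), .t 3 (nat_lit 0x60905d8) (.a 1 10 13 17 true), .t 3 (nat_lit 0x60a05d8) (.a 1 10 13 17 false), .t 2 (nat_lit 0x5d8) (.g 17 1 0 10 13 true false), .t 2 (nat_lit 0x5d8) (.g 17 10 0 1 13 true false), .t 2 (nat_lit 0x60b) (.g 0 11 1 13 17 true true), .t 2 (nat_lit 0x60c) (.g 0 11 1 13 17 true true), .t 3 (nat_lit 0x60d05d8) (.g 0 11 10 13 17 true true)] (by decide +kernel) (by decide +kernel)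
theorem b130 : B 8320 8384 := Blk.of_chk [.t 2 (nat_lit 0x60e) (.g 0 11 10 13 18 true true), .t 2 (nat_lit 0x5da) (.g 1 10 0 13 18 true true), .t 3 (nat_lit 0x60f05cc) (.g 10 0 1 13 18 true false), .t 2 (nat_lit 0x5cc) (.g 10 0 1 13 18 true false), .t 3 (nat_lit 0x61005da) (.a 1 10 13 18 false), .t 2 (nat_lit 0x5da) (.g 18 1 0 10 13 true false), .t 2 (nat_lit 0x611) (.g 0 11 1 13 18 true true), .t 3 (nat_lit 0x61205da) (.g 0 11 10 13 18 true true), .t 3 (nat_lit 0x61305d1) (.g 10 0 1 14 15 true false), .t 3 (nat_lit 0x61405d2) (.a 1 10 14 15 true), .t 2 (nat_lit 0x5d2) (.g 15 1 0 10 14 true false), .t 2 (nat_lit 0x615) (.g 0 11 1 14 15 true true), .t 2 (nat_lit 0x616) (.g 0 11 1 14 15 true true), .t 3 (nat_lit 0x61705e6) (.a 1 10 14 16 false), .t 2 (nat_lit 0x5e6) (.g 16 1 0 10 14 true false), .t 2 (nat_lit 0x618) (.g 0 11 1 14 16 true true), .t 2 (nat_lit 0x619) (.g 0 11 1 14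 16 true true), .t 3 (nat_lit 0x61a05e6) (.g 0 11 10 14 16 true true), .t 3 (nat_lit 0x61b05d1) (.g 10 0 1 14 17 true false), .t 3 (nat_lit 0x61c05d8) (.a 1 10 14 17 true), .t 2 (nat_lit 0x5d8) (.g 17 1 0 10 14 true false), .t 2 (nat_lit 0x61d) (.g 0 11 1 14 17 true true), .t 3 (nat_lit 0x61e05d8) (.g 0 11 10 14 17 true true), .t 3 (nat_lit 0x61f05d1) (.g 10 0 1 14 18 true false), .t 3 (nat_lit 0x62005da) (.a 1 10 14 18 true), .t 2 (nat_lit 0x5da) (.g 18 1 0 10 14 true false), .t 2 (nat_lit 0x621) (.g 0 11 1 14 18 true true), .t 2 (nat_lit 0x622) (.g 0 11 1 14 18 true true), .t 3 (nat_lit 0x62305da) (.g 0 11 10 14 18 true true), .t 2 (nat_lit 0x5d2) (.g 10 0 1 15 16 true false), .t 2 (nat_lit 0x5e6) (.g 16 1 0 10 15 true false), .t 2 (nat_lit 0x624) (.g 0 11 1 15 16 true true), .t 2 (nat_lit 0x625) (.g 0 11 1 15 16 true true), .t 3 (nat_lit 0x62605e6) (.g 0 11 10 15 16 true true),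 .t 3 (nat_lit 0x62705e6) (.g 0 11 10 15 16 true true), .t 3 (nat_lit 0x62805d8) (.a 1 10 15 17 true), .t 2 (nat_lit 0x5d8) (.g 17 1 0 10 15 true false), .t 2 (nat_lit 0x629) (.g 0 11 1 15 17 true true), .t 2 (nat_lit 0x62a) (.g 0 11 1 15 17 true true), .t 3 (nat_lit 0x62b05d8) (.g 0 11 10 15 17 true true), .t 2 (nat_lit 0x5d2) (.g 10 0 1 15 18 true false), .t 3 (nat_lit 0x62c05da) (.a 1 10 15 18 false), .t 2 (nat_lit 0x62d) (.g 0 11 1 15 18 true true), .t 3 (nat_lit 0x62e05da) (.g 0 11 10 15 18 true true), .t 2 (nat_lit 0x62f) (.g 0 11 10 16 17 true true), .t 3 (nat_lit 0x63005d8) (.a 1 10 16 17 true), .t 3 (nat_lit 0x63105d8) (.a 1 10 16 17 false), .t 2 (nat_lit 0x5d8) (.g 17 1 0 10 16 true false), .t 2 (nat_lit 0x632) (.g 0 11 1 16 17 true true), .t 2 (nat_lit 0x633) (.g 0 11 1 16 17 true true), .t 3 (nat_lit 0x63405d8) (.g 0 11 10 16 17 true true), .t 3 (nat_lit 0x63505e6)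 (.g 10 0 1 16 18 true false), .t 3 (nat_lit 0x63605da) (.a 1 10 16 18 true), .t 3 (nat_lit 0x63705da) (.a 1 10 16 18 false), .t 2 (nat_lit 0x5da) (.g 18 1 0 10 16 true false), .t 2 (nat_lit 0x638) (.g 0 11 1 16 18 true true), .t 2 (nat_lit 0x639) (.g 0 11 1 16 18 true true), .t 3 (nat_lit 0x63a05da) (.g 0 11 10 16 18 true true), .t 2 (nat_lit 0x63b) (.g 0 11 1 17 18 true true), .t 3 (nat_lit 0x63c05da) (.a 1 10 17 18 true), .t 2 (nat_lit 0x5da) (.g 18 1 0 10 17 true false), .t 2 (nat_lit 0x5da) (.g 18 10 0 1 17 true false), .t 2 (nat_lit 0x63d) (.g 0 11 1 17 18 true true), .t 3 (nat_lit 0x63e05da) (.g 0 11 10 17 18 true true)] (by decide +kernel) (by decide +kernel)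
theorem b131 : B 8384 8448 := Blk.of_chk [.t 1 (nat_lit 0) (.g 11 0 1 12 13 false false), .t 2 (nat_lit 0x63f) (.g 12 1 0 11 13 true true), .t 1 (nat_lit 0) (.st 1 11 13 12), .t 1 (nat_lit 0) (.g 11 0 1 12 14 false true), .t 1 (nat_lit 0) (.g 11 0 1 12 14 false true), .t 1 (nat_lit 0) (.g 11 0 1 12 14 false false), .t 2 (nat_lit 0x640) (.g 12 14 0 1 11 true false), .t 2 (nat_lit 0x640) (.g 12 1 0 11 14 true true), .t 1 (nat_lit 0) (.g 14 12 0 1 11 false false), .t 1 (nat_lit 0) (.g 14 11 0 1 12 false false), .t 1 (nat_lit 0) (.st 1 11 14 12), .t 1 (nat_lit 0) (.g 11 0 1 12 15 false true), .t 1 (nat_lit 0) (.g 11 0 1 12 15 false true), .t 1 (nat_lit 0) (.g 11 0 1 12 15 false false), .t 2 (nat_lit 0x641) (.g 12 15 0 1 11 true false), .t 2 (nat_lit 0x641) (.g 12 1 0 11 15 true true), .t 1 (nat_lit 0) (.g 15 11 0 1 12 false false), .t 1 (nat_lit 0) (.g 11 0 1 12 16 false true), .t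 1 (nat_lit 0) (.g 11 0 1 12 16 false false), .t 2 (nat_lit 0x642) (.g 12 16 0 1 11 true false), .t 2 (nat_lit 0x642) (.g 12 1 0 11 16 true true), .t 1 (nat_lit 0) (.g 16 11 0 1 12 false false), .t 1 (nat_lit 0) (.g 11 0 1 12 17 false true), .t 1 (nat_lit 0) (.g 11 0 1 12 17 false false), .t 2 (nat_lit 0x643) (.g 12 17 0 1 11 true false), .t 2 (nat_lit 0x643) (.g 12 1 0 11 17 true true), .t 1 (nat_lit 0) (.g 17 12 0 1 11 false false), .t 1 (nat_lit 0) (.st 1 11 17 12), .t 1 (nat_lit 0) (.g 11 0 1 12 18 false true), .t 1 (nat_lit 0) (.g 12 18 0 1 11 true false), .t 2 (nat_lit 0x644) (.g 12 18 0 1 11 true false), .t 1 (nat_lit 0) (.st 1 11 18 12), .t 1 (nat_lit 0) (.g 13 14 0 1 11 true false), .t 1 (nat_lit 0) (.g 11 0 1 13 14 false true), .t 1 (nat_lit 0) (.g 11 0 1 13 14 false false), .t 2 (nat_lit 0x645) (.g 13 14 0 1 11 true false), .t 2 (nat_lit 0x645) (.g 13 1 0 11 14 true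 true), .t 1 (nat_lit 0) (.g 14 13 0 1 11 false false), .t 1 (nat_lit 0) (.st 1 11 13 14), .t 1 (nat_lit 0) (.st 1 11 14 13), .t 2 (nat_lit 0x646) (.g 13 11 0 1 15 false true), .t 1 (nat_lit 0) (.g 11 0 1 13 15 false true), .t 1 (nat_lit 0) (.g 11 0 1 13 15 false true), .t 1 (nat_lit 0) (.g 11 0 1 13 15 false false), .t 2 (nat_lit 0x647) (.g 13 15 0 1 11 true false), .t 2 (nat_lit 0x647) (.g 13 1 0 11 15 true true), .t 1 (nat_lit 0) (.g 15 13 0 1 11 false false), .t 1 (nat_lit 0) (.g 15 11 0 1 13 false false), .t 1 (nat_lit 0) (.st 1 11 13 15), .t 2 (nat_lit 0x648) (.g 13 11 0 1 16 false true), .t 1 (nat_lit 0) (.g 11 0 1 13 16 false true), .t 1 (nat_lit 0) (.g 11 0 1 13 16 false true), .t 1 (nat_lit 0) (.g 11 0 1 13 16 false false), .t 2 (nat_lit 0x649) (.g 13 16 0 1 11 true false), .t 2 (nat_lit 0x649) (.g 13 1 0 11 16 true true), .t 1 (nat_lit 0) (.g 16 13 0 1 11 false false),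 .t 2 (nat_lit 0x64a) (.g 13 11 0 1 17 false true), .t 1 (nat_lit 0) (.g 11 0 1 13 17 false true), .t 1 (nat_lit 0) (.g 13 17 0 1 11 true false), .t 1 (nat_lit 0) (.g 11 0 1 13 17 false true), .t 1 (nat_lit 0) (.g 11 0 1 13 17 false false), .t 2 (nat_lit 0x64b) (.g 13 17 0 1 11 true false), .t 2 (nat_lit 0x64b) (.g 13 1 0 11 17 true true), .t 1 (nat_lit 0) (.st 1 11 13 17)] (by decide +kernel) (by decide +kernel)
theorem b132 : B 8448 8512 := Blk.of_chk [.t 1 (nat_lit 0) (.st 1 11 17 13), .t 1 (nat_lit 0) (.g 11 0 1 13 18 false true), .t 1 (nat_lit 0) (.g 13 18 0 1 11 true false), .t 1 (nat_lit 0) (.g 11 0 1 13 18 false true), .t 1 (nat_lit 0) (.g 11 0 1 13 18 false false), .t 2 (nat_lit 0x64c) (.g 13 18 0 1 11 true false), .t 2 (nat_lit 0x64c) (.g 13 1 0 11 18 true true), .t 1 (nat_lit 0) (.g 18 13 0 1 11 false false), .t 1 (nat_lit 0) (.g 18 11 0 1 13 false false), .t 1 (nat_lit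 0) (.st 1 11 18 13), .t 1 (nat_lit 0) (.g 14 11 0 1 15 false true), .t 1 (nat_lit 0) (.g 11 0 1 14 15 false true), .t 1 (nat_lit 0) (.g 14 15 0 1 11 true false), .t 1 (nat_lit 0) (.g 11 0 1 14 15 false true), .t 1 (nat_lit 0) (.g 11 0 1 14 15 false false), .t 2 (nat_lit 0x64d) (.g 14 15 0 1 11 true false), .t 2 (nat_lit 0x64d) (.g 14 1 0 11 15 true true), .t 1 (nat_lit 0) (.g 15 14 0 1 11 false false), .t 1 (nat_lit 0) (.g 15 11 0 1 14 false false), .t 1 (nat_lit 0) (.st 1 11 14 15), .t 1 (nat_lit 0) (.g 14 11 0 1 16 false true), .t 1 (nat_lit 0) (.g 11 0 1 14 16 false true), .t 1 (nat_lit 0) (.g 11 0 1 14 16 false true), .t 1 (nat_lit 0) (.g 11 0 1 14 16 false false), .t 2 (nat_lit 0x64e) (.g 14 16 0 1 11 true false), .t 2 (nat_lit 0x64e) (.g 14 1 0 11 16 true true), .t 1 (nat_lit 0) (.g 16 11 0 1 14 false false), .t 1 (nat_lit 0) (.g 11 0 1 14 17 false true), .t 1 (nat_lit 0)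 (.g 11 0 1 14 17 false true), .t 1 (nat_lit 0) (.g 11 0 1 14 17 false false), .t 2 (nat_lit 0x64f) (.g 14 17 0 1 11 true false), .t 2 (nat_lit 0x64f) (.g 14 1 0 11 17 true true), .t 1 (nat_lit 0) (.st 1 11 14 17), .t 1 (nat_lit 0) (.st 1 11 17 14), .t 1 (nat_lit 0) (.g 11 0 1 14 18 false true), .t 1 (nat_lit 0) (.g 14 18 0 1 11 true false), .t 1 (nat_lit 0) (.g 11 0 1 14 18 false true), .t 1 (nat_lit 0) (.g 11 0 1 14 18 false false), .t 2 (nat_lit 0x650) (.g 14 18 0 1 11 true false), .t 2 (nat_lit 0x650) (.g 14 1 0 11 18 true true), .t 1 (nat_lit 0) (.g 18 11 0 1 14 false false), .t 1 (nat_lit 0) (.st 1 11 14 18), .t 1 (nat_lit 0) (.st 1 11 18 14), .t 1 (nat_lit 0) (.g 11 0 1 15 16 false true), .t 1 (nat_lit 0) (.g 11 0 1 15 16 false false), .t 2 (nat_lit 0x651) (.g 15 16 0 1 11 true false), .t 2 (nat_lit 0x651) (.g 15 1 0 11 16 true true), .t 1 (nat_lit 0) (.g 16 15 0 1 11 false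 false), .t 1 (nat_lit 0) (.g 16 11 0 1 15 false false), .t 1 (nat_lit 0) (.st 1 11 15 16), .t 1 (nat_lit 0) (.g 11 0 1 15 17 false true), .t 1 (nat_lit 0) (.g 11 0 1 15 17 false false), .t 2 (nat_lit 0x652) (.g 15 17 0 1 11 true false), .t 2 (nat_lit 0x652) (.g 15 1 0 11 17 true true), .t 1 (nat_lit 0) (.g 17 15 0 1 11 false false), .t 1 (nat_lit 0) (.g 17 11 0 1 15 false false), .t 1 (nat_lit 0) (.st 1 11 15 17), .t 1 (nat_lit 0) (.g 11 0 1 15 18 false true), .t 1 (nat_lit 0) (.g 15 18 0 1 11 true false), .t 1 (nat_lit 0) (.g 11 0 1 15 18 false true), .t 1 (nat_lit 0) (.g 11 0 1 15 18 false false), .t 2 (nat_lit 0x653) (.g 15 18 0 1 11 true false), .t 2 (nat_lit 0x653) (.g 15 1 0 11 18 true true), .t 1 (nat_lit 0) (.g 18 15 0 1 11 false false)] (by decide +kernel) (by decide +kernel)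
theorem b133 : B 8512 8576 := Blk.of_chk [.t 1 (nat_lit 0) (.g 18 11 0 1 15 false false), .t 1 (nat_lit 0) (.st 1 11 15 18), .t 1 (nat_lit 0) (.st 1 11 18 15), .t 1 (nat_lit 0) (.g 11 0 1 16 17 false true), .t 1 (nat_lit 0) (.g 11 0 1 16 17 false false), .t 2 (nat_lit 0x654) (.g 16 17 0 1 11 true false), .t 2 (nat_lit 0x654) (.g 16 1 0 11 17 true true), .t 1 (nat_lit 0) (.g 17 16 0 1 11 false false), .t 1 (nat_lit 0) (.g 17 11 0 1 16 false false), .t 1 (nat_lit 0) (.st 1 11 17 16), .t 2 (nat_lit 0x655) (.g 16 11 0 1 18 false true), .t 1 (nat_lit 0) (.g 11 0 1 16 18 false true), .t 1 (nat_lit 0) (.g 16 18 0 1 11 true false), .t 1 (nat_lit 0) (.g 11 0 1 16 18 false true), .t 1 (nat_lit 0) (.g 11 0 1 16 18 false false), .t 2 (nat_lit 0x656) (.g 16 18 0 1 11 true false), .t 2 (nat_lit 0x656) (.g 16 1 0 11 18 true true), .t 1 (nat_lit 0) (.g 18 16 0 1 11 false false), .t 1 (nat_lit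 0) (.st 1 11 16 18), .t 1 (nat_lit 0) (.st 1 11 18 16), .t 1 (nat_lit 0) (.g 17 18 0 1 11 true false), .t 1 (nat_lit 0) (.g 11 0 1 17 18 false true), .t 2 (nat_lit 0x657) (.g 17 18 0 1 11 true false), .t 2 (nat_lit 0x657) (.g 17 1 0 11 18 true true), .t 1 (nat_lit 0) (.st 1 11 17 18), .t 1 (nat_lit 0) (.st 1 11 18 17), .t 1 (nat_lit 0) (.st 1 12 13 14), .t 2 (nat_lit 0x63f) (.g 13 12 0 1 14 false true), .t 2 (nat_lit 0x640) (.g 12 0 1 13 14 false true), .t 2 (nat_lit 0x645) (.g 13 14 0 1 12 true false), .t 2 (nat_lit 0x63f) (.g 13 12 0 1 15 false true), .t 2 (nat_lit 0x63f) (.g 12 0 1 13 15 false true), .t 1 (nat_lit 0) (.g 13 15 0 1 12 true false), .t 2 (nat_lit 0x641) (.g 12 0 1 13 15 false true), .t 2 (nat_lit 0x647) (.g 13 15 0 1 12 true false), .t 2 (nat_lit 0x647) (.g 13 1 0 12 15 true true), .t 1 (nat_lit 0) (.g 15 13 0 1 12 false false), .t 1 (nat_lit 0) (.g 15 12 0 1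 13 false false), .t 1 (nat_lit 0) (.st 1 12 13 16), .t 2 (nat_lit 0x63f) (.g 12 0 1 13 16 false true), .t 2 (nat_lit 0x642) (.g 12 0 1 13 16 false true), .t 2 (nat_lit 0x642) (.g 12 0 1 13 16 false false), .t 2 (nat_lit 0x649) (.g 13 16 0 1 12 true false), .t 1 (nat_lit 0) (.g 16 13 0 1 12 false false), .t 1 (nat_lit 0) (.st 1 12 13 16), .t 2 (nat_lit 0x63f) (.g 12 0 1 13 17 false true), .t 2 (nat_lit 0x643) (.g 12 0 1 13 17 false true), .t 2 (nat_lit 0x64b) (.g 13 17 0 1 12 true false), .t 2 (nat_lit 0x64b) (.g 13 1 0 12 17 true true), .t 1 (nat_lit 0) (.g 17 13 0 1 12 false false), .t 1 (nat_lit 0) (.st 1 12 17 13), .t 1 (nat_lit 0) (.st 1 12 13 18), .t 2 (nat_lit 0x63f) (.g 13 12 0 1 18 false true), .t 2 (nat_lit 0x63f) (.g 12 0 1 13 18 false true), .t 1 (nat_lit 0) (.g 13 18 0 1 12 true false), .t 2 (nat_lit 0x644) (.g 12 0 1 13 18 false true), .t 2 (nat_lit 0x64c) (.g 13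 18 0 1 12 true false), .t 2 (nat_lit 0x64c) (.g 13 1 0 12 18 true true), .t 1 (nat_lit 0) (.g 18 13 0 1 12 false false), .t 1 (nat_lit 0) (.st 1 12 13 18), .t 1 (nat_lit 0) (.st 1 12 14 15), .t 2 (nat_lit 0x640) (.g 14 12 0 1 15 false true), .t 2 (nat_lit 0x640) (.g 12 0 1 14 15 false true), .t 1 (nat_lit 0) (.g 14 15 0 1 12 true false)] (by decide +kernel) (by decide +kernel)
theorem b134 : B 8576 8640 := Blk.of_chk [.t 2 (nat_lit 0x641) (.g 12 0 1 14 15 false true), .t 2 (nat_lit 0x64d) (.g 14 15 0 1 12 true false), .t 2 (nat_lit 0x64d) (.g 14 1 0 12 15 true true), .t 1 (nat_lit 0) (.g 15 14 0 1 12 false false), .t 1 (nat_lit 0) (.g 15 12 0 1 14 false false), .t 1 (nat_lit 0) (.st 1 12 15 14), .t 1 (nat_lit 0) (.st 1 12 14 16), .t 1 (nat_lit 0) (.g 14 16 0 1 12 true false), .t 2 (nat_lit 0x642) (.g 12 0 1 14 16 false true), .t 2 (nat_lit 0x642) (.g 12 0 1 14 16 false false),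 .t 2 (nat_lit 0x64e) (.g 14 16 0 1 12 true false), .t 2 (nat_lit 0x64e) (.g 14 1 0 12 16 true true), .t 1 (nat_lit 0) (.g 16 14 0 1 12 false false), .t 1 (nat_lit 0) (.g 16 12 0 1 14 false false), .t 1 (nat_lit 0) (.st 1 12 16 14), .t 1 (nat_lit 0) (.g 14 17 0 1 12 true false), .t 2 (nat_lit 0x643) (.g 12 0 1 14 17 false true), .t 2 (nat_lit 0x64f) (.g 14 17 0 1 12 true false), .t 2 (nat_lit 0x64f) (.g 14 1 0 12 17 true true), .t 1 (nat_lit 0) (.g 17 14 0 1 12 false false), .t 1 (nat_lit 0) (.g 17 12 0 1 14 false false), .t 1 (nat_lit 0) (.st 1 12 14 17), .t 1 (nat_lit 0) (.st 1 12 17 14), .t 2 (nat_lit 0x640) (.g 12 0 1 14 18 false true), .t 1 (nat_lit 0) (.g 14 18 0 1 12 true false), .t 2 (nat_lit 0x644) (.g 12 0 1 14 18 false true), .t 2 (nat_lit 0x644) (.g 12 0 1 14 18 false false), .t 2 (nat_lit 0x650) (.g 14 18 0 1 12 true false), .t 2 (nat_lit 0x650) (.g 14 1 0 12 18 true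 true), .t 1 (nat_lit 0) (.g 18 14 0 1 12 false false), .t 1 (nat_lit 0) (.st 1 12 18 14), .t 2 (nat_lit 0x642) (.g 12 0 1 15 16 false true), .t 2 (nat_lit 0x642) (.g 12 0 1 15 16 false false), .t 2 (nat_lit 0x651) (.g 15 16 0 1 12 true false), .t 2 (nat_lit 0x651) (.g 15 1 0 12 16 true true), .t 1 (nat_lit 0) (.g 16 15 0 1 12 false false), .t 1 (nat_lit 0) (.g 16 12 0 1 15 false false), .t 2 (nat_lit 0x643) (.g 12 0 1 15 17 false true), .t 2 (nat_lit 0x643) (.g 12 0 1 15 17 false false), .t 2 (nat_lit 0x652) (.g 15 17 0 1 12 true false), .t 2 (nat_lit 0x652) (.g 15 1 0 12 17 true true), .t 1 (nat_lit 0) (.g 17 15 0 1 12 false false), .t 1 (nat_lit 0) (.g 17 12 0 1 15 false false), .t 1 (nat_lit 0) (.g 12 18 0 1 15 true true), .t 2 (nat_lit 0x641) (.g 15 1 0 12 18 false true), .t 2 (nat_lit 0x644) (.g 12 0 1 15 18 false true), .t 2 (nat_lit 0x644) (.g 12 0 1 15 18 false false),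 .t 2 (nat_lit 0x653) (.g 15 18 0 1 12 true false), .t 2 (nat_lit 0x653) (.g 15 1 0 12 18 true true), .t 1 (nat_lit 0) (.g 18 15 0 1 12 false false), .t 1 (nat_lit 0) (.g 18 12 0 1 15 false false), .t 1 (nat_lit 0) (.st 1 12 18 15), .t 2 (nat_lit 0x643) (.g 12 0 1 16 17 false true), .t 2 (nat_lit 0x643) (.g 12 0 1 16 17 false false), .t 2 (nat_lit 0x654) (.g 16 17 0 1 12 true false), .t 2 (nat_lit 0x654) (.g 16 1 0 12 17 true true), .t 1 (nat_lit 0) (.g 17 16 0 1 12 false false), .t 1 (nat_lit 0) (.g 17 12 0 1 16 false false), .t 2 (nat_lit 0x642) (.g 16 12 0 1 18 false true), .t 2 (nat_lit 0x644) (.g 12 0 1 16 18 false true), .t 2 (nat_lit 0x644) (.g 12 0 1 16 18 false false), .t 2 (nat_lit 0x656) (.g 16 18 0 1 12 true false), .t 2 (nat_lit 0x656) (.g 16 1 0 12 18 true true), .t 1 (nat_lit 0) (.g 18 16 0 1 12 false false)] (by decide +kernel) (by decide +kernel)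
theorem b135 : B 8640 8704 := Blk.of_chk [.t 1 (nat_lit 0) (.g 18 12 0 1 16 false false), .t 1 (nat_lit 0) (.st 1 12 16 18), .t 1 (nat_lit 0) (.st 1 12 18 16), .t 1 (nat_lit 0) (.g 12 18 0 1 17 true true), .t 1 (nat_lit 0) (.g 17 18 0 1 12 true false), .t 2 (nat_lit 0x657) (.g 17 18 0 1 12 true false), .t 2 (nat_lit 0x657) (.g 17 1 0 12 18 true true), .t 1 (nat_lit 0) (.g 18 17 0 1 12 false false), .t 1 (nat_lit 0) (.g 18 12 0 1 17 false false), .t 1 (nat_lit 0) (.st 1 12 17 18), .t 1 (nat_lit 0) (.st 1 12 18 17), .t 1 (nat_lit 0) (.st 1 13 14 15), .t 1 (nat_lit 0) (.g 13 15 0 1 14 true true), .t 2 (nat_lit 0x645) (.g 14 13 0 1 15 false true), .t 2 (nat_lit 0x645) (.g 14 1 0 13 15 false true), .t 4 (nat_lit 0x65806470645) (.g 14 13 0 1 15 false true), .t 4 (nat_lit 0x65906470645) (.g 14 1 0 13 15 false true), .t 2 (nat_lit 0x645) (.g 13 0 1 14 15 false true), .t 1 (nat_lit 0)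 (.g 14 15 0 1 13 true false), .t 2 (nat_lit 0x647) (.g 13 0 1 14 15 false true), .t 2 (nat_lit 0x647) (.g 13 0 1 14 15 false false), .t 2 (nat_lit 0x64d) (.g 14 15 0 1 13 true false), .t 2 (nat_lit 0x64d) (.g 14 1 0 13 15 true true), .t 1 (nat_lit 0) (.g 15 14 0 1 13 false false), .t 1 (nat_lit 0) (.st 1 13 14 16), .t 1 (nat_lit 0) (.g 13 14 0 1 16 true true), .t 1 (nat_lit 0) (.g 13 16 0 1 14 true true), .t 2 (nat_lit 0x645) (.g 14 13 0 1 16 false true), .t 4 (nat_lit 0x65a06490645) (.g 14 13 0 1 16 false true), .t 4 (nat_lit 0x65b06490645) (.g 14 1 0 13 16 false true), .t 2 (nat_lit 0x645) (.g 13 0 1 14 16 false true), .t 1 (nat_lit 0) (.g 14 16 0 1 13 true false), .t 2 (nat_lit 0x649) (.g 13 0 1 14 16 false true), .t 2 (nat_lit 0x649) (.g 13 0 1 14 16 false false), .t 2 (nat_lit 0x64e) (.g 14 16 0 1 13 true false), .t 2 (nat_lit 0x64e) (.g 14 1 0 13 16 true true), .t 1 (nat_lit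 0) (.g 16 14 0 1 13 false false), .t 1 (nat_lit 0) (.st 1 13 14 16), .t 1 (nat_lit 0) (.st 1 13 14 17), .t 1 (nat_lit 0) (.g 13 14 0 1 17 true true), .t 1 (nat_lit 0) (.g 13 17 0 1 14 true true), .t 2 (nat_lit 0x645) (.g 14 13 0 1 17 false true), .t 4 (nat_lit 0x65c064b0645) (.g 14 1 0 13 17 false true), .t 2 (nat_lit 0x645) (.g 13 0 1 14 17 false true), .t 1 (nat_lit 0) (.g 14 17 0 1 13 true false), .t 2 (nat_lit 0x64b) (.g 13 0 1 14 17 false true), .t 2 (nat_lit 0x64b) (.g 13 0 1 14 17 false false), .t 2 (nat_lit 0x64f) (.g 14 17 0 1 13 true false), .t 2 (nat_lit 0x64f) (.g 14 1 0 13 17 true true), .t 1 (nat_lit 0) (.st 1 13 14 18), .t 1 (nat_lit 0) (.g 13 14 0 1 18 true true), .t 1 (nat_lit 0) (.g 13 18 0 1 14 true true), .t 2 (nat_lit 0x645) (.g 14 13 0 1 18 false true), .t 4 (nat_lit 0x65d064c0645) (.g 14 1 0 13 18 false true), .t 2 (nat_lit 0x645) (.g 13 0 1 14 18 false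 true), .t 1 (nat_lit 0) (.g 14 18 0 1 13 true false), .t 2 (nat_lit 0x64c) (.g 13 0 1 14 18 false true), .t 2 (nat_lit 0x64c) (.g 13 0 1 14 18 false false), .t 2 (nat_lit 0x650) (.g 14 18 0 1 13 true false), .t 2 (nat_lit 0x650) (.g 14 1 0 13 18 true true), .t 1 (nat_lit 0) (.g 18 14 0 1 13 false false), .t 1 (nat_lit 0) (.g 13 15 0 1 16 true true), .t 1 (nat_lit 0) (.g 13 16 0 1 15 true true), .t 2 (nat_lit 0x647) (.g 15 1 0 13 16 false true)] (by decide +kernel) (by decide +kernel)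
theorem b136 : B 8704 8768 := Blk.of_chk [.t 4 (nat_lit 0x65e06490647) (.g 15 13 0 1 16 false true), .t 4 (nat_lit 0x65f06490647) (.g 15 1 0 13 16 false true), .t 2 (nat_lit 0x647) (.g 13 0 1 15 16 false true), .t 2 (nat_lit 0x649) (.g 13 0 1 15 16 false true), .t 2 (nat_lit 0x649) (.g 13 0 1 15 16 false false), .t 2 (nat_lit 0x651) (.g 15 16 0 1 13 true false), .t 2 (nat_lit 0x651) (.g 15 1 0 13 16 true true), .t 1 (nat_lit 0) (.g 16 15 0 1 13 false false), .t 1 (nat_lit 0) (.g 16 13 0 1 15 false false), .t 1 (nat_lit 0) (.st 1 13 15 16), .t 1 (nat_lit 0) (.st 1 13 15 17), .t 1 (nat_lit 0) (.st 1 13 17 15), .t 2 (nat_lit 0x647) (.g 13 0 1 15 17 false true), .t 2 (nat_lit 0x64b) (.g 13 0 1 15 17 false true), .t 2 (nat_lit 0x64b) (.g 13 0 1 15 17 false false), .t 2 (nat_lit 0x652) (.g 15 17 0 1 13 true false), .t 1 (nat_lit 0) (.g 17 15 0 1 13 false false), .t 1 (nat_lit 0) (.g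 17 13 0 1 15 false false), .t 1 (nat_lit 0) (.st 1 13 15 18), .t 1 (nat_lit 0) (.g 13 18 0 1 15 true true), .t 2 (nat_lit 0x647) (.g 13 0 1 15 18 false true), .t 2 (nat_lit 0x64c) (.g 13 0 1 15 18 false true), .t 2 (nat_lit 0x64c) (.g 13 0 1 15 18 false false), .t 2 (nat_lit 0x653) (.g 15 18 0 1 13 true false), .t 2 (nat_lit 0x653) (.g 15 1 0 13 18 true true), .t 1 (nat_lit 0) (.g 18 15 0 1 13 false false), .t 1 (nat_lit 0) (.st 1 13 17 16), .t 2 (nat_lit 0x649) (.g 16 13 0 1 17 false true), .t 2 (nat_lit 0x649) (.g 16 1 0 13 17 false true), .t 2 (nat_lit 0x64b) (.g 13 0 1 16 17 false true), .t 2 (nat_lit 0x64b) (.g 13 0 1 16 17 false false), .t 2 (nat_lit 0x654) (.g 16 17 0 1 13 true false), .t 2 (nat_lit 0x654) (.g 16 1 0 13 17 true true), .t 1 (nat_lit 0) (.g 17 16 0 1 13 false false), .t 1 (nat_lit 0) (.g 17 13 0 1 16 false false), .t 1 (nat_lit 0) (.st 1 13 16 18), .t 1 (nat_lit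 0) (.st 1 13 18 16), .t 1 (nat_lit 0) (.g 13 16 0 1 18 true true), .t 2 (nat_lit 0x649) (.g 13 0 1 16 18 false true), .t 1 (nat_lit 0) (.g 16 18 0 1 13 true false), .t 2 (nat_lit 0x64c) (.g 13 0 1 16 18 false true), .t 2 (nat_lit 0x64c) (.g 13 0 1 16 18 false false), .t 2 (nat_lit 0x656) (.g 16 18 0 1 13 true false), .t 2 (nat_lit 0x656) (.g 16 1 0 13 18 true true), .t 1 (nat_lit 0) (.g 18 13 0 1 16 false false), .t 1 (nat_lit 0) (.st 1 13 16 18), .t 1 (nat_lit 0) (.st 1 13 18 16), .t 1 (nat_lit 0) (.st 1 13 17 18), .t 1 (nat_lit 0) (.g 17 13 0 1 18 false true), .t 2 (nat_lit 0x64b) (.g 13 0 1 17 18 false true), .t 1 (nat_lit 0) (.g 17 18 0 1 13 true false), .t 2 (nat_lit 0x64c) (.g 13 0 1 17 18 false true), .t 2 (nat_lit 0x64c) (.g 13 0 1 17 18 false false), .t 2 (nat_lit 0x657) (.g 17 18 0 1 13 true false), .t 2 (nat_lit 0x657) (.g 17 1 0 13 18 true true), .t 1 (nat_lit 0) (.g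 18 17 0 1 13 false false), .t 1 (nat_lit 0) (.g 18 13 0 1 17 false false), .t 1 (nat_lit 0) (.st 1 13 18 17), .t 2 (nat_lit 0x64d) (.g 15 14 0 1 16 false true), .t 4 (nat_lit 0x660064e064d) (.g 15 14 0 1 16 false true), .t 2 (nat_lit 0x64e) (.g 14 0 1 15 16 false true), .t 2 (nat_lit 0x64e) (.g 14 0 1 15 16 false false), .t 2 (nat_lit 0x651) (.g 15 16 0 1 14 true false), .t 2 (nat_lit 0x651) (.g 15 1 0 14 16 true true)] (by decide +kernel) (by decide +kernel)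
theorem b137 : B 8768 8832 := Blk.of_chk [.t 1 (nat_lit 0) (.g 16 15 0 1 14 false false), .t 1 (nat_lit 0) (.st 1 14 15 16), .t 1 (nat_lit 0) (.st 1 14 15 17), .t 2 (nat_lit 0x64d) (.g 15 1 0 14 17 false true), .t 2 (nat_lit 0x64f) (.g 14 0 1 15 17 false true), .t 2 (nat_lit 0x64f) (.g 14 0 1 15 17 false false), .t 2 (nat_lit 0x652) (.g 15 17 0 1 14 true false), .t 2 (nat_lit 0x652) (.g 15 1 0 14 17 true true), .t 1 (nat_lit 0) (.g 17 15 0 1 14 false false), .t 1 (nat_lit 0) (.st 1 14 15 17), .t 1 (nat_lit 0) (.st 1 14 18 15), .t 2 (nat_lit 0x64d) (.g 15 14 0 1 18 false true), .t 2 (nat_lit 0x64d) (.g 15 1 0 14 18 false true), .t 4 (nat_lit 0x6610650064d) (.g 15 1 0 14 18 false true), .t 1 (nat_lit 0) (.g 15 18 0 1 14 true false), .t 2 (nat_lit 0x650) (.g 14 0 1 15 18 false true), .t 2 (nat_lit 0x650) (.g 14 0 1 15 18 false false), .t 2 (nat_lit 0x653) (.g 15 18 0 1 14 true false),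 .t 2 (nat_lit 0x653) (.g 15 1 0 14 18 true true), .t 1 (nat_lit 0) (.st 1 14 15 18), .t 1 (nat_lit 0) (.st 1 14 18 15), .t 1 (nat_lit 0) (.g 14 16 0 1 17 true true), .t 2 (nat_lit 0x64e) (.g 16 14 0 1 17 false true), .t 2 (nat_lit 0x64f) (.g 14 0 1 16 17 false true), .t 2 (nat_lit 0x64f) (.g 14 0 1 16 17 false false), .t 2 (nat_lit 0x654) (.g 16 17 0 1 14 true false), .t 2 (nat_lit 0x654) (.g 16 1 0 14 17 true true), .t 1 (nat_lit 0) (.g 17 16 0 1 14 false false), .t 1 (nat_lit 0) (.st 1 14 16 17), .t 1 (nat_lit 0) (.g 14 16 0 1 18 true true), .t 2 (nat_lit 0x64e) (.g 14 0 1 16 18 false true), .t 2 (nat_lit 0x650) (.g 14 0 1 16 18 false true), .t 2 (nat_lit 0x650) (.g 14 0 1 16 18 false false), .t 2 (nat_lit 0x656) (.g 16 18 0 1 14 true false), .t 2 (nat_lit 0x656) (.g 16 1 0 14 18 true true), .t 1 (nat_lit 0) (.g 18 16 0 1 14 false false), .t 1 (nat_lit 0) (.st 1 14 16 18), .t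 1 (nat_lit 0) (.st 1 14 18 16), .t 1 (nat_lit 0) (.st 1 14 17 18), .t 1 (nat_lit 0) (.st 1 14 18 17), .t 1 (nat_lit 0) (.g 14 18 0 1 17 true true), .t 2 (nat_lit 0x64f) (.g 17 1 0 14 18 false true), .t 4 (nat_lit 0x6620650064f) (.g 17 14 0 1 18 false true), .t 4 (nat_lit 0x6630650064f) (.g 17 1 0 14 18 false true), .t 2 (nat_lit 0x64f) (.g 14 0 1 17 18 false true), .t 1 (nat_lit 0) (.g 17 18 0 1 14 true false), .t 2 (nat_lit 0x650) (.g 14 0 1 17 18 false true), .t 2 (nat_lit 0x650) (.g 14 0 1 17 18 false false), .t 2 (nat_lit 0x657) (.g 17 18 0 1 14 true false), .t 2 (nat_lit 0x657) (.g 17 1 0 14 18 true true), .t 1 (nat_lit 0) (.st 1 14 18 17), .t 1 (nat_lit 0) (.st 1 15 16 17), .t 1 (nat_lit 0) (.st 1 15 17 16), .t 1 (nat_lit 0) (.g 15 16 0 1 17 true true), .t 2 (nat_lit 0x651) (.g 16 15 0 1 17 false true), .t 2 (nat_lit 0x651) (.g 16 1 0 15 17 false true), .t 4 (nat_lit 0x66406520651)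 (.g 16 1 0 15 17 false true), .t 2 (nat_lit 0x652) (.g 15 0 1 16 17 false true), .t 2 (nat_lit 0x652) (.g 15 0 1 16 17 false false), .t 2 (nat_lit 0x654) (.g 16 17 0 1 15 true false), .t 2 (nat_lit 0x654) (.g 16 1 0 15 17 true true), .t 1 (nat_lit 0) (.st 1 15 16 17), .t 2 (nat_lit 0x651) (.g 16 1 0 15 18 false true), .t 4 (nat_lit 0x66506530651) (.g 16 1 0 15 18 false true)] (by decide +kernel) (by decide +kernel)
theorem b138 : B 8832 8896 := Blk.of_chk [.t 2 (nat_lit 0x651) (.g 15 0 1 16 18 false true), .t 2 (nat_lit 0x653) (.g 15 0 1 16 18 false false), .t 2 (nat_lit 0x656) (.g 16 18 0 1 15 true false), .t 2 (nat_lit 0x656) (.g 16 1 0 15 18 true true), .t 1 (nat_lit 0) (.st 1 15 16 18), .t 1 (nat_lit 0) (.st 1 15 18 16), .t 1 (nat_lit 0) (.st 1 15 17 18), .t 2 (nat_lit 0x652) (.g 17 1 0 15 18 false true), .t 4 (nat_lit 0x66606530652) (.g 17 1 0 15 18 false true), .t 1 (nat_lit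 0) (.g 17 18 0 1 15 true false), .t 2 (nat_lit 0x653) (.g 15 0 1 17 18 false true), .t 2 (nat_lit 0x657) (.g 17 18 0 1 15 true false), .t 2 (nat_lit 0x657) (.g 17 1 0 15 18 true true), .t 1 (nat_lit 0) (.st 1 15 17 18), .t 1 (nat_lit 0) (.st 1 15 18 17), .t 1 (nat_lit 0) (.st 1 16 17 18), .t 1 (nat_lit 0) (.g 16 18 0 1 17 true true), .t 2 (nat_lit 0x654) (.g 17 1 0 16 18 false true), .t 2 (nat_lit 0x654) (.g 16 0 1 17 18 false true), .t 2 (nat_lit 0x657) (.g 17 18 0 1 16 true false), .t 2 (nat_lit 0x657) (.g 17 1 0 16 18 true true), .t 1 (nat_lit 0) (.g 18 17 0 1 16 false false), .t 1 (nat_lit 0) (.st 1 16 18 17), .t 1 (nat_lit 0) (.g 4 0 2 3 11 true true), .t 2 (nat_lit 0x667) (.g 0 11 2 3 12 true true), .t 2 (nat_lit 0x668) (.g 0 11 2 4 12 true true), .t 2 (nat_lit 0x669) (.g 0 11 2 3 13 true true), .t 2 (nat_lit 0x66a) (.g 0 11 2 4 13 true true), .t 1 (nat_lit 0) (.a 2 3 4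 14 true), .t 1 (nat_lit 0) (.g 2 3 0 4 14 true false), .t 2 (nat_lit 0x66b) (.g 0 11 2 3 14 true true), .t 2 (nat_lit 0x66c) (.g 0 11 2 4 14 true true), .t 2 (nat_lit 0x66d) (.g 0 11 2 4 15 true true), .t 2 (nat_lit 0x66e) (.g 0 11 2 3 15 true true), .t 2 (nat_lit 0x66f) (.g 0 11 2 4 16 true true), .t 2 (nat_lit 0x66f) (.g 3 2 0 4 16 false false), .t 2 (nat_lit 0x670) (.g 0 11 2 3 16 true true), .t 2 (nat_lit 0x671) (.g 0 11 2 4 16 true true), .t 2 (nat_lit 0x672) (.g 0 11 2 4 17 true true), .t 2 (nat_lit 0x673) (.g 0 11 3 4 17 true true), .t 1 (nat_lit 0) (.g 4 3 0 2 17 false true), .t 2 (nat_lit 0x674) (.g 0 11 2 3 17 true true), .t 1 (nat_lit 0) (.g 3 2 0 4 18 false false), .t 2 (nat_lit 0x675) (.g 0 11 2 3 18 true true), .t 2 (nat_lit 0x676) (.g 0 11 2 4 18 true true), .t 2 (nat_lit 0x677) (.g 0 11 2 3 12 true true), .t 2 (nat_lit 0x678) (.g 0 11 2 5 12 true true), .t 2 (nat_lit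 0x679) (.g 0 11 2 5 13 true true), .t 1 (nat_lit 0) (.g 2 3 0 5 14 true false), .t 2 (nat_lit 0x67a) (.g 0 11 2 5 15 true true), .t 2 (nat_lit 0x67b) (.g 0 11 2 5 18 true true), .t 1 (nat_lit 0) (.g 2 3 0 5 18 true false), .t 2 (nat_lit 0x67c) (.g 0 11 2 3 18 true true), .t 1 (nat_lit 0) (.g 6 3 0 2 7 false true), .t 1 (nat_lit 0) (.g 2 3 0 6 11 true false), .t 1 (nat_lit 0) (.g 3 2 0 6 11 false false), .t 1 (nat_lit 0) (.g 2 3 0 6 12 true false), .t 1 (nat_lit 0) (.g 2 3 0 6 14 true false), .t 2 (nat_lit 0x67d) (.g 0 11 2 3 14 true true), .t 1 (nat_lit 0) (.g 2 3 0 6 17 true false), .t 2 (nat_lit 0x67e) (.g 0 11 2 6 18 true true), .t 1 (nat_lit 0) (.g 6 0 2 3 18 true true), .t 1 (nat_lit 0) (.g 2 3 0 6 18 true false), .t 2 (nat_lit 0x67f) (.g 0 11 2 3 18 true true)] (by decide +kernel) (by decide +kernel)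
theorem b139 : B 8896 8960 := Blk.of_chk [.t 1 (nat_lit 0) (.g 2 3 0 7 12 true false), .t 2 (nat_lit 0x680) (.g 0 11 2 7 13 true true), .t 1 (nat_lit 0) (.g 2 3 0 7 14 true false), .t 2 (nat_lit 0x681) (.g 0 11 2 7 15 true true), .t 2 (nat_lit 0x682) (.g 0 11 2 7 17 true true), .t 1 (nat_lit 0) (.g 7 3 0 2 17 false true), .t 1 (nat_lit 0) (.g 2 3 0 7 17 true false), .t 2 (nat_lit 0x683) (.g 0 11 2 7 18 true true), .t 1 (nat_lit 0) (.g 2 3 0 7 18 true false), .t 2 (nat_lit 0x684) (.g 0 11 2 7 18 true true), .t 1 (nat_lit 0) (.g 2 3 0 8 12 true false), .t 1 (nat_lit 0) (.g 2 3 0 8 14 true false), .t 2 (nat_lit 0x685) (.g 0 11 2 8 16 true true), .t 1 (nat_lit 0) (.g 8 3 0 2 17 false true), .t 1 (nat_lit 0) (.g 2 3 0 8 17 true false), .t 2 (nat_lit 0x686) (.g 0 11 2 3 17 true true), .t 2 (nat_lit 0x687) (.g 0 11 2 8 17 true true), .t 1 (nat_lit 0) (.g 2 3 0 8 18 true false), .t 1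 (nat_lit 0) (.g 2 3 0 8 18 true false), .t 2 (nat_lit 0x688) (.g 0 11 2 3 18 true true), .t 2 (nat_lit 0x689) (.g 0 11 2 8 18 true true), .t 1 (nat_lit 0) (.g 2 3 0 9 11 true false), .t 1 (nat_lit 0) (.g 9 0 2 3 11 true true), .t 2 (nat_lit 0x68a) (.g 0 11 2 9 12 true true), .t 1 (nat_lit 0) (.g 2 3 0 9 13 true false), .t 2 (nat_lit 0x68b) (.g 0 11 2 3 13 true true), .t 2 (nat_lit 0x68c) (.g 0 11 2 9 13 true true), .t 1 (nat_lit 0) (.g 2 3 0 9 14 true false), .t 2 (nat_lit 0x68d) (.g 0 11 2 3 14 true true), .t 2 (nat_lit 0x68e) (.g 0 11 2 9 14 true true), .t 2 (nat_lit 0x68f) (.g 0 11 2 9 15 true true), .t 1 (nat_lit 0) (.g 2 3 0 9 16 true false), .t 2 (nat_lit 0x690) (.g 0 11 2 9 16 true true), .t 1 (nat_lit 0) (.g 2 3 0 9 17 true false), .t 2 (nat_lit 0x691) (.g 0 11 2 3 17 true true), .t 2 (nat_lit 0x692) (.g 0 11 2 9 17 true true), .t 1 (nat_lit 0) (.g 2 3 0 9 18 true false),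 .t 1 (nat_lit 0) (.g 2 3 0 9 18 true false), .t 2 (nat_lit 0x693) (.g 0 11 2 3 18 true true), .t 2 (nat_lit 0x694) (.g 0 11 2 9 18 true true), .t 1 (nat_lit 0) (.g 2 3 0 10 11 true false), .t 1 (nat_lit 0) (.g 10 0 2 3 11 true true), .t 2 (nat_lit 0x695) (.g 0 11 2 10 12 true true), .t 1 (nat_lit 0) (.g 2 3 0 10 13 true false), .t 2 (nat_lit 0x696) (.g 0 11 2 10 13 true true), .t 1 (nat_lit 0) (.g 2 3 0 10 14 true false), .t 1 (nat_lit 0) (.g 2 3 0 10 17 true false), .t 1 (nat_lit 0) (.g 2 3 0 10 17 true false), .t 2 (nat_lit 0x697) (.g 0 11 2 10 17 true true), .t 1 (nat_lit 0) (.g 10 3 0 2 18 false true), .t 1 (nat_lit 0) (.g 2 3 0 10 18 true false), .t 2 (nat_lit 0x698) (.g 0 11 2 3 18 true true), .t 2 (nat_lit 0x699) (.g 0 11 2 10 18 true true), .t 1 (nat_lit 0) (.g 11 0 2 3 12 false false), .t 2 (nat_lit 0x69a) (.g 11 0 2 3 12 false false), .t 2 (nat_lit 0x69b) (.g 3 0 2 11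 12 true false), .t 1 (nat_lit 0) (.g 11 0 2 3 13 false false), .t 2 (nat_lit 0x69c) (.g 11 0 2 3 13 false false), .t 2 (nat_lit 0x69d) (.g 3 0 2 11 13 true true), .t 2 (nat_lit 0x69d) (.g 3 0 2 11 13 true false), .t 2 (nat_lit 0x69e) (.g 11 0 2 3 14 false false), .t 1 (nat_lit 0) (.g 2 14 0 3 11 false false), .t 2 (nat_lit 0x69f) (.g 3 0 2 11 14 true false), .t 2 (nat_lit 0x6a0) (.g 2 3 0 11 15 true true)] (by decide +kernel) (by decide +kernel)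
theorem b140 : B 8960 9024 := Blk.of_chk [.t 1 (nat_lit 0) (.g 11 0 2 3 15 false false), .t 1 (nat_lit 0) (.g 2 15 0 3 11 false false), .t 2 (nat_lit 0x6a0) (.g 3 0 2 11 15 true true), .t 1 (nat_lit 0) (.g 11 0 2 3 16 false false), .t 2 (nat_lit 0x6a1) (.g 2 3 0 11 16 true true), .t 1 (nat_lit 0) (.g 11 0 2 3 16 false false), .t 1 (nat_lit 0) (.g 2 16 0 3 11 false false), .t 1 (nat_lit 0) (.g 11 0 2 3 17 false false), .t 2 (nat_lit 0x6a2) (.g 2 3 0 11 17 true true), .t 1 (nat_lit 0) (.g 11 0 2 3 17 false true), .t 1 (nat_lit 0) (.g 11 0 2 3 17 false false), .t 2 (nat_lit 0x6a3) (.g 11 0 2 3 17 false true), .t 2 (nat_lit 0x6a4) (.g 11 0 2 3 17 false false), .t 1 (nat_lit 0) (.g 11 0 2 3 18 false false), .t 1 (nat_lit 0) (.g 11 0 2 3 18 false false), .t 2 (nat_lit 0x6a5) (.g 11 0 2 3 18 false true), .t 2 (nat_lit 0x6a6) (.g 11 0 2 3 18 false false), .t 2 (nat_lit 0x6a7) (.g 3 0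 2 11 18 true true), .t 2 (nat_lit 0x69d) (.g 13 3 0 2 12 true false), .t 2 (nat_lit 0x6a8) (.g 0 11 2 12 13 true true), .t 2 (nat_lit 0x6a9) (.g 0 11 2 12 13 true true), .t 2 (nat_lit 0x69f) (.g 14 3 0 2 12 true false), .t 2 (nat_lit 0x6aa) (.g 0 11 2 12 14 true true), .t 2 (nat_lit 0x6a0) (.g 15 3 0 2 12 true false), .t 2 (nat_lit 0x6ab) (.g 0 11 2 12 15 true true), .t 2 (nat_lit 0x6a1) (.g 2 3 0 12 16 true true), .t 2 (nat_lit 0x6a1) (.g 16 3 0 2 12 true false), .t 2 (nat_lit 0x69b) (.g 3 2 0 12 17 false true), .t 2 (nat_lit 0x6a2) (.g 17 2 0 3 12 true false), .t 2 (nat_lit 0x6a2) (.g 17 3 0 2 12 true false), .t 2 (nat_lit 0x6ac) (.g 0 11 2 12 17 true true), .t 2 (nat_lit 0x69d) (.g 13 0 2 3 14 false false), .t 3 (nat_lit 0x6ad069f) (.a 2 3 13 14 true), .t 3 (nat_lit 0x6ae069f) (.a 2 3 13 14 false), .t 2 (nat_lit 0x69f) (.g 14 2 0 3 13 true false), .t 2 (nat_lit 0x69f) (.g 14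 3 0 2 13 true false), .t 2 (nat_lit 0x6af) (.g 0 11 2 13 14 true true), .t 3 (nat_lit 0x6b0069f) (.g 0 11 3 13 14 true true), .t 3 (nat_lit 0x6b1069f) (.g 0 11 3 13 14 true true), .t 2 (nat_lit 0x6a0) (.g 2 3 0 13 15 true true), .t 3 (nat_lit 0x6b206a0) (.a 2 3 13 15 true), .t 3 (nat_lit 0x6b306a0) (.a 2 3 13 15 false), .t 2 (nat_lit 0x6a0) (.g 15 3 0 2 13 true false), .t 2 (nat_lit 0x6a1) (.g 2 3 0 13 16 true true), .t 3 (nat_lit 0x6b406a1) (.a 2 3 13 16 false), .t 2 (nat_lit 0x6a1) (.g 16 3 0 2 13 true false), .t 2 (nat_lit 0x6a2) (.g 2 3 0 13 17 true true), .t 3 (nat_lit 0x6b506a2) (.a 2 3 13 17 false), .t 2 (nat_lit 0x6a2) (.g 17 2 0 3 13 true false), .t 2 (nat_lit 0x6a2) (.g 17 3 0 2 13 true false), .t 2 (nat_lit 0x6b6) (.g 0 11 2 13 17 true true), .t 2 (nat_lit 0x6b7) (.g 0 11 2 13 17 true true), .t 3 (nat_lit 0x6b806a2) (.g 0 11 3 13 17 true true), .t 3 (nat_lit 0x6b906a7)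 (.a 2 3 13 18 false), .t 2 (nat_lit 0x6a7) (.g 18 2 0 3 13 true false), .t 2 (nat_lit 0x6ba) (.g 0 11 2 13 18 true true), .t 3 (nat_lit 0x6bb06a7) (.g 0 11 3 13 18 true true), .t 3 (nat_lit 0x6bc06a7) (.g 0 11 3 13 18 true true), .t 2 (nat_lit 0x69f) (.g 3 2 0 14 15 false true), .t 3 (nat_lit 0x6bd06a0) (.a 2 3 14 15 false), .t 2 (nat_lit 0x6a0) (.g 15 3 0 2 14 true false), .t 2 (nat_lit 0x6be) (.g 0 11 2 14 15 true true), .t 3 (nat_lit 0x6bf06a0) (.g 0 11 3 14 15 true true), .t 2 (nat_lit 0x69f) (.g 14 0 2 3 16 false false)] (by decide +kernel) (by decide +kernel)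
theorem b141 : B 9024 9088 := Blk.of_chk [.t 2 (nat_lit 0x6a1) (.g 2 3 0 14 16 true true), .t 1 (nat_lit 0) (.g 16 14 0 2 3 false true), .t 2 (nat_lit 0x6a1) (.g 16 3 0 2 14 true false), .t 2 (nat_lit 0x6a2) (.g 2 3 0 14 17 true true), .t 2 (nat_lit 0x6a2) (.g 17 2 0 3 14 true false), .t 2 (nat_lit 0x6a2) (.g 17 3 0 2 14 true false), .t 2 (nat_lit 0x6c0) (.g 0 11 2 14 17 true true), .t 2 (nat_lit 0x6c1) (.g 0 11 2 14 17 true true), .t 3 (nat_lit 0x6c206a2) (.g 0 11 3 14 17 true true), .t 3 (nat_lit 0x6c306a7) (.a 2 3 14 18 false), .t 2 (nat_lit 0x6a7) (.g 18 2 0 3 14 true false), .t 2 (nat_lit 0x6c4) (.g 0 11 2 14 18 true true), .t 3 (nat_lit 0x6c506a7) (.g 0 11 3 14 18 true true), .t 2 (nat_lit 0x6c6) (.g 0 11 3 15 16 true true), .t 2 (nat_lit 0x6a0) (.g 15 3 0 2 16 false true), .t 3 (nat_lit 0x6c706a0) (.a 2 3 15 16 false), .t 2 (nat_lit 0x6a1) (.g 2 3 0 15 16 true true), .t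 1 (nat_lit 0) (.sx 2 0 15 16), .t 3 (nat_lit 0x6c806a1) (.a 2 3 15 16 false), .t 2 (nat_lit 0x6c9) (.g 0 11 3 15 17 true true), .t 2 (nat_lit 0x6a2) (.g 2 3 0 15 17 true true), .t 2 (nat_lit 0x6a0) (.g 3 2 0 15 17 false true), .t 2 (nat_lit 0x6a2) (.g 17 2 0 3 15 true false), .t 2 (nat_lit 0x6a2) (.g 17 3 0 2 15 true false), .t 2 (nat_lit 0x6ca) (.g 0 11 2 15 17 true true), .t 2 (nat_lit 0x6cb) (.g 0 11 2 15 17 true true), .t 3 (nat_lit 0x6cc06a2) (.g 0 11 3 15 17 true true), .t 2 (nat_lit 0x6cd) (.g 0 11 2 15 18 true true), .t 2 (nat_lit 0x6a2) (.g 17 2 0 3 16 true false), .t 2 (nat_lit 0x6a2) (.g 17 3 0 2 16 true false), .t 2 (nat_lit 0x6ce) (.g 0 11 2 16 17 true true), .t 3 (nat_lit 0x6cf06a2) (.g 0 11 3 16 17 true true), .t 3 (nat_lit 0x6d006a7) (.a 2 3 16 18 false), .t 2 (nat_lit 0x6a7) (.g 18 3 0 2 16 true false), .t 2 (nat_lit 0x6d1) (.g 0 11 2 16 18 true true), .t 2 (nat_lit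 0x6d2) (.g 0 11 2 16 18 true true), .t 3 (nat_lit 0x6d306a7) (.g 0 11 3 16 18 true true), .t 2 (nat_lit 0x6a2) (.g 17 3 0 2 18 false true), .t 2 (nat_lit 0x6a7) (.g 18 3 0 2 17 true false), .t 2 (nat_lit 0x6d4) (.g 0 11 2 17 18 true true), .t 2 (nat_lit 0x6d5) (.g 0 11 2 17 18 true true), .t 3 (nat_lit 0x6d606a7) (.g 0 11 3 17 18 true true), .t 1 (nat_lit 0) (.g 5 0 2 4 11 true true), .t 2 (nat_lit 0x6d7) (.g 0 11 2 4 12 true true), .t 2 (nat_lit 0x6d8) (.g 0 11 2 5 12 true true), .t 1 (nat_lit 0) (.g 2 4 0 5 13 true false), .t 2 (nat_lit 0x6d9) (.g 0 11 2 5 13 true true), .t 1 (nat_lit 0) (.g 2 4 0 5 14 true false), .t 1 (nat_lit 0) (.g 5 4 0 2 15 false true), .t 2 (nat_lit 0x6da) (.g 0 11 2 5 16 true true), .t 1 (nat_lit 0) (.g 2 4 0 5 16 true false), .t 2 (nat_lit 0x6db) (.g 0 11 2 4 17 true true), .t 1 (nat_lit 0) (.g 2 4 0 5 18 true false), .t 1 (nat_lit 0) (.g 2 4 0 5 18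 true false), .t 1 (nat_lit 0) (.g 2 4 0 6 11 true false), .t 1 (nat_lit 0) (.g 2 4 0 6 12 true false), .t 2 (nat_lit 0x6dc) (.g 0 11 2 4 12 true true), .t 2 (nat_lit 0x6dd) (.g 0 11 2 6 12 true true), .t 1 (nat_lit 0) (.g 2 4 0 6 13 true false), .t 2 (nat_lit 0x6de) (.g 0 11 2 4 13 true true), .t 2 (nat_lit 0x6df) (.g 0 11 2 6 13 true true), .t 2 (nat_lit 0x6e0) (.g 0 11 2 4 14 true true), .t 2 (nat_lit 0x6e1) (.g 0 11 2 6 14 true true), .t 2 (nat_lit 0x6e2) (.g 0 11 4 6 16 true true)] (by decide +kernel) (by decide +kernel)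
theorem b142 : B 9088 9152 := Blk.of_chk [.t 1 (nat_lit 0) (.g 6 4 0 2 16 false true), .t 1 (nat_lit 0) (.g 2 4 0 6 16 true false), .t 1 (nat_lit 0) (.g 2 4 0 6 18 true false), .t 1 (nat_lit 0) (.g 2 4 0 7 11 true false), .t 1 (nat_lit 0) (.g 7 0 2 4 11 true true), .t 1 (nat_lit 0) (.g 2 4 0 7 12 true false), .t 2 (nat_lit 0x6e3) (.g 0 11 2 4 12 true true), .t 2 (nat_lit 0x6e4) (.g 0 11 2 7 12 true true), .t 1 (nat_lit 0) (.g 2 4 0 7 13 true false), .t 2 (nat_lit 0x6e5) (.g 0 11 2 7 13 true true), .t 1 (nat_lit 0) (.g 2 4 0 7 14 true false), .t 2 (nat_lit 0x6e6) (.g 0 11 2 4 14 true true), .t 2 (nat_lit 0x6e7) (.g 0 11 2 7 14 true true), .t 2 (nat_lit 0x6e8) (.g 0 11 2 7 15 true true), .t 2 (nat_lit 0x6e9) (.g 0 11 4 7 15 true true), .t 1 (nat_lit 0) (.g 7 4 0 2 15 false true), .t 1 (nat_lit 0) (.g 2 4 0 7 15 true false), .t 2 (nat_lit 0x6ea) (.g 0 11 2 7 16 true true), .t 2 (nat_lit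 0x6eb) (.g 0 11 4 7 16 true true), .t 1 (nat_lit 0) (.g 7 4 0 2 16 false true), .t 1 (nat_lit 0) (.g 7 0 2 4 16 true true), .t 1 (nat_lit 0) (.g 2 4 0 7 16 true false), .t 2 (nat_lit 0x6ec) (.g 0 11 4 7 17 true true), .t 1 (nat_lit 0) (.g 7 4 0 2 17 false true), .t 2 (nat_lit 0x6ed) (.g 0 11 2 4 17 true true), .t 1 (nat_lit 0) (.g 7 4 0 2 18 false true), .t 2 (nat_lit 0x6ee) (.g 4 2 0 7 18 false false), .t 2 (nat_lit 0x6ef) (.g 0 11 2 7 18 true true), .t 1 (nat_lit 0) (.g 2 4 0 8 11 true false), .t 2 (nat_lit 0x6f0) (.g 0 11 2 8 12 true true), .t 1 (nat_lit 0) (.g 2 4 0 8 13 true false), .t 2 (nat_lit 0x6f1) (.g 0 11 2 4 13 true true), .t 2 (nat_lit 0x6f2) (.g 0 11 2 8 13 true true), .t 2 (nat_lit 0x6f3) (.g 0 11 2 4 14 true true), .t 2 (nat_lit 0x6f4) (.g 0 11 2 8 14 true true), .t 2 (nat_lit 0x6f5) (.g 0 11 4 8 16 true true), .t 1 (nat_lit 0) (.g 8 4 0 2 16 false true), .t 2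 (nat_lit 0x6f6) (.g 0 11 4 8 17 true true), .t 1 (nat_lit 0) (.g 8 4 0 2 17 false true), .t 1 (nat_lit 0) (.g 2 4 0 8 17 true false), .t 2 (nat_lit 0x6f7) (.g 0 11 2 4 17 true true), .t 2 (nat_lit 0x6f8) (.g 0 11 2 8 17 true true), .t 1 (nat_lit 0) (.g 8 4 0 2 18 false true), .t 1 (nat_lit 0) (.g 8 0 2 4 18 true true), .t 1 (nat_lit 0) (.g 8 0 2 4 18 true true), .t 1 (nat_lit 0) (.g 2 4 0 8 18 true false), .t 1 (nat_lit 0) (.g 2 4 0 8 18 true false), .t 2 (nat_lit 0x6f9) (.g 0 11 2 4 18 true true), .t 2 (nat_lit 0x6fa) (.g 0 11 2 8 18 true true), .t 1 (nat_lit 0) (.g 2 4 0 9 11 true false), .t 1 (nat_lit 0) (.g 9 0 2 4 11 true true), .t 1 (nat_lit 0) (.g 2 4 0 9 12 true false), .t 2 (nat_lit 0x6fb) (.g 0 11 2 9 12 true true), .t 1 (nat_lit 0) (.g 2 4 0 9 13 true false), .t 2 (nat_lit 0x6fc) (.g 0 11 2 4 13 true true), .t 2 (nat_lit 0x6fd) (.g 0 11 2 9 13 true true), .t 1 (nat_lit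 0) (.g 2 4 0 9 14 true false), .t 2 (nat_lit 0x6fe) (.g 0 11 2 4 14 true true), .t 2 (nat_lit 0x6ff) (.g 0 11 2 9 14 true true), .t 1 (nat_lit 0) (.g 9 4 0 2 15 false true), .t 1 (nat_lit 0) (.g 2 4 0 9 15 true false), .t 2 (nat_lit 0x700) (.g 0 11 2 9 15 true true), .t 1 (nat_lit 0) (.g 2 4 0 9 16 true false), .t 2 (nat_lit 0x701) (.g 0 11 2 9 16 true true)] (by decide +kernel) (by decide +kernel)
theorem b143 : B 9152 9216 := Blk.of_chk [.t 2 (nat_lit 0x702) (.g 0 11 2 9 17 true true), .t 1 (nat_lit 0) (.g 9 4 0 2 18 false true), .t 1 (nat_lit 0) (.g 9 0 2 4 18 true true), .t 1 (nat_lit 0) (.g 2 4 0 9 18 true false), .t 2 (nat_lit 0x703) (.g 0 11 2 9 18 true true), .t 1 (nat_lit 0) (.g 2 4 0 10 11 true false), .t 1 (nat_lit 0) (.g 10 0 2 4 11 true true), .t 2 (nat_lit 0x704) (.g 0 11 2 10 12 true true), .t 1 (nat_lit 0) (.g 2 4 0 10 13 true false), .t 2 (nat_lit 0x705) (.g 0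 11 2 4 13 true true), .t 2 (nat_lit 0x706) (.g 0 11 2 10 13 true true), .t 1 (nat_lit 0) (.g 2 4 0 10 14 true false), .t 2 (nat_lit 0x707) (.g 0 11 2 4 15 true true), .t 1 (nat_lit 0) (.g 2 4 0 10 17 true false), .t 1 (nat_lit 0) (.g 10 4 0 2 18 false true), .t 1 (nat_lit 0) (.g 10 0 2 4 18 true true), .t 1 (nat_lit 0) (.g 10 0 2 4 18 true true), .t 1 (nat_lit 0) (.g 2 4 0 10 18 true false), .t 1 (nat_lit 0) (.g 2 4 0 10 18 true false), .t 2 (nat_lit 0x708) (.g 0 11 2 10 18 true true), .t 1 (nat_lit 0) (.g 11 0 2 4 12 false false), .t 2 (nat_lit 0x709) (.g 11 0 2 4 12 false false), .t 2 (nat_lit 0x70a) (.g 4 0 2 11 12 true false), .t 1 (nat_lit 0) (.g 11 0 2 4 13 false false), .t 2 (nat_lit 0x70b) (.g 11 0 2 4 13 false false), .t 2 (nat_lit 0x70c) (.g 4 0 2 11 13 true true), .t 2 (nat_lit 0x70c) (.g 4 0 2 11 13 true false), .t 1 (nat_lit 0) (.g 11 0 2 4 14 false false), .t 2 (nat_lit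 0x70d) (.g 11 0 2 4 14 false true), .t 2 (nat_lit 0x70e) (.g 11 0 2 4 14 false false), .t 2 (nat_lit 0x70f) (.g 4 0 2 11 14 true true), .t 2 (nat_lit 0x70f) (.g 4 0 2 11 14 true false), .t 2 (nat_lit 0x710) (.g 2 4 0 11 15 true true), .t 1 (nat_lit 0) (.g 11 0 2 4 15 false false), .t 2 (nat_lit 0x711) (.g 11 0 2 4 15 false false), .t 2 (nat_lit 0x712) (.g 2 4 0 11 16 true true), .t 1 (nat_lit 0) (.g 11 0 2 4 16 false false), .t 1 (nat_lit 0) (.g 2 16 0 4 11 false false), .t 1 (nat_lit 0) (.g 11 0 2 4 17 false false), .t 2 (nat_lit 0x713) (.g 2 4 0 11 17 true true), .t 1 (nat_lit 0) (.g 11 0 2 4 17 false false), .t 2 (nat_lit 0x714) (.g 11 0 2 4 17 false true), .t 2 (nat_lit 0x715) (.g 11 0 2 4 17 false false), .t 2 (nat_lit 0x713) (.g 4 0 2 11 17 true true), .t 2 (nat_lit 0x713) (.g 4 0 2 11 17 true false), .t 1 (nat_lit 0) (.g 11 0 2 4 18 false false), .t 1 (nat_lit 0) (.g 11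 0 2 4 18 false false), .t 2 (nat_lit 0x716) (.g 11 0 2 4 18 false false), .t 3 (nat_lit 0x717070c) (.a 2 4 12 13 false), .t 2 (nat_lit 0x70c) (.g 13 2 0 4 12 true false), .t 2 (nat_lit 0x70c) (.g 13 4 0 2 12 true false), .t 2 (nat_lit 0x718) (.g 0 11 2 12 13 true true), .t 3 (nat_lit 0x719070f) (.a 2 4 12 14 false), .t 2 (nat_lit 0x70f) (.g 14 4 0 2 12 true false), .t 2 (nat_lit 0x710) (.g 2 4 0 12 15 true true), .t 2 (nat_lit 0x710) (.g 15 4 0 2 12 true false), .t 2 (nat_lit 0x712) (.g 16 4 0 2 12 true false), .t 2 (nat_lit 0x713) (.g 17 4 0 2 12 true false), .t 2 (nat_lit 0x70a) (.g 4 2 0 12 18 false true), .t 2 (nat_lit 0x71a) (.g 18 2 0 4 12 true false), .t 2 (nat_lit 0x71a) (.g 18 4 0 2 12 true false), .t 3 (nat_lit 0x71b071a) (.g 0 11 4 12 18 true true), .t 3 (nat_lit 0x71c070f) (.a 2 4 13 14 true), .t 3 (nat_lit 0x71d070f) (.a 2 4 13 14 false)] (by decide +kernel) (by decide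 +kernel)
theorem b144 : B 9216 9280 := Blk.of_chk [.t 2 (nat_lit 0x70f) (.g 14 2 0 4 13 true false), .t 2 (nat_lit 0x70f) (.g 14 4 0 2 13 true false), .t 2 (nat_lit 0x71e) (.g 0 11 2 13 14 true true), .t 2 (nat_lit 0x71f) (.g 0 11 2 13 14 true true), .t 3 (nat_lit 0x720070f) (.g 0 11 4 13 14 true true), .t 3 (nat_lit 0x721070f) (.g 0 11 4 13 14 true true), .t 2 (nat_lit 0x70c) (.g 13 0 2 4 15 false false), .t 2 (nat_lit 0x710) (.g 2 4 0 13 15 true true), .t 3 (nat_lit 0x7220710) (.a 2 4 13 15 true), .t 3 (nat_lit 0x7230710) (.a 2 4 13 15 false), .t 2 (nat_lit 0x70c) (.g 4 2 0 13 16 false true), .t 3 (nat_lit 0x7240712) (.a 2 4 13 16 false), .t 2 (nat_lit 0x712) (.g 16 4 0 2 13 true false), .t 2 (nat_lit 0x70c) (.g 13 0 2 4 17 false false), .t 2 (nat_lit 0x70c) (.g 4 2 0 13 17 false true), .t 3 (nat_lit 0x7250713) (.a 2 4 13 17 false), .t 2 (nat_lit 0x713) (.g 17 2 0 4 13 true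 false), .t 2 (nat_lit 0x713) (.g 17 4 0 2 13 true false), .t 2 (nat_lit 0x726) (.g 0 11 2 13 17 true true), .t 3 (nat_lit 0x7270713) (.g 0 11 4 13 17 true true), .t 3 (nat_lit 0x7280713) (.g 0 11 4 13 17 true true), .t 2 (nat_lit 0x70c) (.g 13 0 2 4 18 false false), .t 2 (nat_lit 0x70c) (.g 4 2 0 13 18 false true), .t 3 (nat_lit 0x729071a) (.a 2 4 13 18 true), .t 3 (nat_lit 0x72a071a) (.a 2 4 13 18 false), .t 2 (nat_lit 0x71a) (.g 18 2 0 4 13 true false), .t 2 (nat_lit 0x72b) (.g 0 11 2 13 18 true true), .t 2 (nat_lit 0x72c) (.g 0 11 2 13 18 true true), .t 3 (nat_lit 0x72d071a) (.g 0 11 4 13 18 true true), .t 2 (nat_lit 0x70f) (.g 14 0 2 4 15 false false), .t 2 (nat_lit 0x710) (.g 2 4 0 14 15 true true), .t 3 (nat_lit 0x72e0710) (.a 2 4 14 15 true), .t 3 (nat_lit 0x72f0710) (.a 2 4 14 15 false), .t 2 (nat_lit 0x730) (.g 0 11 2 14 15 true true), .t 2 (nat_lit 0x70f) (.g 14 0 2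 4 16 false false), .t 3 (nat_lit 0x731070f) (.g 14 0 2 4 16 false false), .t 3 (nat_lit 0x7320712) (.a 2 4 14 16 false), .t 2 (nat_lit 0x733) (.g 0 11 2 14 16 true true), .t 2 (nat_lit 0x734) (.g 0 11 2 14 16 true true), .t 2 (nat_lit 0x70f) (.g 14 0 2 4 17 false false), .t 3 (nat_lit 0x7350713) (.a 2 4 14 17 false), .t 2 (nat_lit 0x713) (.g 17 2 0 4 14 true false), .t 2 (nat_lit 0x713) (.g 17 4 0 2 14 true false), .t 2 (nat_lit 0x736) (.g 0 11 2 14 17 true true), .t 2 (nat_lit 0x737) (.g 0 11 2 14 17 true true), .t 3 (nat_lit 0x7380713) (.g 0 11 4 14 17 true true), .t 2 (nat_lit 0x70f) (.g 14 0 2 4 18 false false), .t 2 (nat_lit 0x71a) (.g 18 4 0 2 14 true false), .t 3 (nat_lit 0x739071a) (.g 0 11 4 14 18 true true), .t 2 (nat_lit 0x73a) (.g 0 11 4 15 16 true true), .t 2 (nat_lit 0x710) (.g 15 4 0 2 16 false true), .t 2 (nat_lit 0x73b) (.g 0 11 4 15 16 true true), .t 2 (nat_lit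 0x73c) (.g 0 11 2 15 16 true true), .t 2 (nat_lit 0x712) (.g 16 4 0 2 15 true false), .t 2 (nat_lit 0x73d) (.g 0 11 2 15 16 true true), .t 3 (nat_lit 0x73e0713) (.a 2 4 15 17 false), .t 2 (nat_lit 0x713) (.g 17 4 0 2 15 true false), .t 3 (nat_lit 0x73f0713) (.g 0 11 4 15 17 true true), .t 2 (nat_lit 0x740) (.g 0 11 4 15 18 true true), .t 2 (nat_lit 0x71a) (.g 18 4 0 2 15 true false), .t 2 (nat_lit 0x741) (.g 0 11 2 15 18 true true), .t 3 (nat_lit 0x742071a) (.g 0 11 4 15 18 true true), .t 2 (nat_lit 0x743) (.g 0 11 4 16 17 true true), .t 2 (nat_lit 0x712) (.g 16 4 0 2 17 false true)] (by decide +kernel) (by decide +kernel)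
theorem b145 : B 9280 9344 := Blk.of_chk [.t 2 (nat_lit 0x744) (.g 0 11 4 16 17 true true), .t 2 (nat_lit 0x713) (.g 17 4 0 2 16 true false), .t 2 (nat_lit 0x745) (.g 0 11 2 16 17 true true), .t 3 (nat_lit 0x7460713) (.g 0 11 4 16 17 true true), .t 2 (nat_lit 0x747) (.g 0 11 4 16 18 true true), .t 2 (nat_lit 0x712) (.g 16 4 0 2 18 false true), .t 2 (nat_lit 0x748) (.g 0 11 2 16 18 true true), .t 3 (nat_lit 0x749071a) (.a 2 4 16 18 false), .t 2 (nat_lit 0x71a) (.g 18 4 0 2 16 true false), .t 2 (nat_lit 0x74a) (.g 0 11 2 16 18 true true), .t 3 (nat_lit 0x74b071a) (.g 0 11 4 16 18 true true), .t 3 (nat_lit 0x74c071a) (.a 2 4 17 18 false), .t 2 (nat_lit 0x71a) (.g 18 4 0 2 17 true false), .t 2 (nat_lit 0x74d) (.g 0 11 2 17 18 true true), .t 3 (nat_lit 0x74e071a) (.g 0 11 4 17 18 true true), .t 1 (nat_lit 0) (.g 5 8 0 2 6 true true), .t 1 (nat_lit 0) (.g 5 9 0 2 6 true true), .t 1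 (nat_lit 0) (.g 5 10 0 2 6 true true), .t 1 (nat_lit 0) (.g 5 11 0 2 6 false true), .t 1 (nat_lit 0) (.g 6 0 2 5 11 true false), .t 1 (nat_lit 0) (.g 2 6 0 5 13 true false), .t 2 (nat_lit 0x74f) (.g 0 11 2 5 13 true true), .t 2 (nat_lit 0x750) (.g 0 11 2 6 13 true true), .t 2 (nat_lit 0x751) (.g 5 14 0 2 6 false true), .t 1 (nat_lit 0) (.g 2 5 0 6 14 true false), .t 1 (nat_lit 0) (.g 2 6 0 5 14 true false), .t 2 (nat_lit 0x752) (.g 0 11 2 6 16 true true), .t 2 (nat_lit 0x753) (.g 0 11 5 6 16 true true), .t 2 (nat_lit 0x754) (.g 2 0 5 6 16 false false), .t 2 (nat_lit 0x752) (.g 5 16 0 2 6 false true), .t 1 (nat_lit 0) (.g 2 6 0 5 16 true false), .t 2 (nat_lit 0x755) (.g 5 17 0 2 6 false true), .t 2 (nat_lit 0x756) (.g 0 11 2 5 17 true true), .t 2 (nat_lit 0x757) (.g 0 11 5 6 18 true true), .t 1 (nat_lit 0) (.g 2 6 0 5 18 true false), .t 2 (nat_lit 0x758) (.g 0 11 2 5 18 true true),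 .t 1 (nat_lit 0) (.g 2 5 0 7 11 true false), .t 1 (nat_lit 0) (.g 2 5 0 7 12 true false), .t 2 (nat_lit 0x759) (.g 0 11 2 5 12 true true), .t 1 (nat_lit 0) (.g 2 5 0 7 13 true false), .t 2 (nat_lit 0x75a) (.g 0 11 2 5 13 true true), .t 1 (nat_lit 0) (.g 2 5 0 7 14 true false), .t 2 (nat_lit 0x75b) (.g 0 11 2 5 14 true true), .t 1 (nat_lit 0) (.st 15 2 5 7), .t 2 (nat_lit 0x75c) (.g 0 11 5 7 16 true true), .t 1 (nat_lit 0) (.g 7 5 0 2 16 false true), .t 2 (nat_lit 0x75d) (.g 0 11 5 7 17 true true), .t 1 (nat_lit 0) (.g 7 5 0 2 17 false true), .t 1 (nat_lit 0) (.g 2 7 0 5 17 true false), .t 2 (nat_lit 0x75e) (.g 0 11 5 7 18 true true), .t 1 (nat_lit 0) (.g 2 7 0 5 18 true false), .t 1 (nat_lit 0) (.g 2 5 0 8 11 true false), .t 1 (nat_lit 0) (.g 2 5 0 8 13 true false), .t 2 (nat_lit 0x75f) (.g 0 11 2 5 13 true true), .t 1 (nat_lit 0) (.g 2 5 0 8 14 true false), .t 2 (nat_lit 0x760)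 (.g 0 11 2 8 16 true true), .t 2 (nat_lit 0x761) (.g 0 11 2 5 16 true true), .t 2 (nat_lit 0x762) (.g 0 11 2 8 17 true true), .t 1 (nat_lit 0) (.g 2 5 0 8 17 true false), .t 2 (nat_lit 0x763) (.g 0 11 2 5 17 true true), .t 2 (nat_lit 0x764) (.g 0 11 2 8 17 true true), .t 1 (nat_lit 0) (.g 2 5 0 8 18 true false), .t 1 (nat_lit 0) (.g 2 5 0 8 18 true false), .t 2 (nat_lit 0x765) (.g 0 11 2 5 18 true true)] (by decide +kernel) (by decide +kernel)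
theorem b146 : B 9344 9408 := Blk.of_chk [.t 2 (nat_lit 0x766) (.g 0 11 2 8 18 true true), .t 1 (nat_lit 0) (.g 2 5 0 9 11 true false), .t 1 (nat_lit 0) (.g 5 2 0 9 11 false false), .t 1 (nat_lit 0) (.g 9 0 2 5 11 true true), .t 2 (nat_lit 0x767) (.g 0 11 2 9 12 true true), .t 2 (nat_lit 0x768) (.g 0 11 2 5 13 true true), .t 2 (nat_lit 0x769) (.g 0 11 2 9 13 true true), .t 2 (nat_lit 0x76a) (.g 0 11 2 5 14 true true), .t 2 (nat_lit 0x76b) (.g 0 11 2 9 14 true true), .t 2 (nat_lit 0x76c) (.g 0 11 2 9 15 true true), .t 2 (nat_lit 0x76d) (.g 0 11 2 9 16 true true), .t 2 (nat_lit 0x76e) (.g 0 11 2 9 17 true true), .t 2 (nat_lit 0x76f) (.g 0 11 2 9 18 true true), .t 1 (nat_lit 0) (.g 2 5 0 10 11 true false), .t 1 (nat_lit 0) (.g 10 0 2 5 11 true true), .t 1 (nat_lit 0) (.g 2 5 0 10 13 true false), .t 2 (nat_lit 0x770) (.g 0 11 2 5 13 true true), .t 2 (nat_lit 0x771) (.g 0 11 2 10 13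 true true), .t 1 (nat_lit 0) (.g 2 5 0 10 14 true false), .t 1 (nat_lit 0) (.g 2 5 0 10 14 true false), .t 2 (nat_lit 0x772) (.g 0 11 2 10 14 true true), .t 2 (nat_lit 0x773) (.g 0 11 2 10 15 true true), .t 2 (nat_lit 0x774) (.g 0 11 2 5 15 true true), .t 1 (nat_lit 0) (.g 2 5 0 10 17 true false), .t 1 (nat_lit 0) (.g 2 5 0 10 17 true false), .t 2 (nat_lit 0x775) (.g 0 11 2 10 17 true true), .t 1 (nat_lit 0) (.g 10 5 0 2 18 false true), .t 1 (nat_lit 0) (.g 2 5 0 10 18 true false), .t 1 (nat_lit 0) (.g 2 5 0 10 18 true false), .t 2 (nat_lit 0x776) (.g 0 11 2 10 18 true true), .t 1 (nat_lit 0) (.g 11 0 2 5 12 false false), .t 2 (nat_lit 0x777) (.g 11 0 2 5 12 false false), .t 2 (nat_lit 0x778) (.g 5 0 2 11 12 true false), .t 1 (nat_lit 0) (.g 11 0 2 5 13 false true), .t 1 (nat_lit 0) (.g 11 0 2 5 13 false false), .t 2 (nat_lit 0x779) (.g 11 0 2 5 13 false false), .t 2 (nat_lit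 0x77a) (.g 5 0 2 11 13 true false), .t 2 (nat_lit 0x77b) (.g 11 0 2 5 14 false false), .t 2 (nat_lit 0x77c) (.g 5 0 2 11 14 true false), .t 2 (nat_lit 0x77d) (.g 2 5 0 11 15 true true), .t 1 (nat_lit 0) (.g 11 0 2 5 15 false true), .t 1 (nat_lit 0) (.g 11 0 2 5 15 false false), .t 2 (nat_lit 0x77e) (.g 11 0 2 5 15 false false), .t 2 (nat_lit 0x77f) (.g 2 5 0 11 16 true true), .t 1 (nat_lit 0) (.g 11 0 2 5 16 false true), .t 2 (nat_lit 0x780) (.g 2 5 0 11 17 true true), .t 2 (nat_lit 0x781) (.g 11 0 2 5 17 false true), .t 2 (nat_lit 0x782) (.g 11 0 2 5 17 false false), .t 2 (nat_lit 0x783) (.g 11 0 2 5 18 false false), .t 3 (nat_lit 0x784077a) (.a 2 5 12 13 false), .t 2 (nat_lit 0x778) (.g 5 2 0 12 15 false true), .t 3 (nat_lit 0x785077d) (.a 2 5 12 15 true), .t 2 (nat_lit 0x77f) (.g 2 5 0 12 16 true true), .t 2 (nat_lit 0x778) (.g 5 2 0 12 16 false true), .t 1 (nat_lit 0) (.g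 16 12 0 2 5 false true), .t 3 (nat_lit 0x786077f) (.a 2 5 12 16 false), .t 2 (nat_lit 0x780) (.g 2 5 0 12 17 true true), .t 2 (nat_lit 0x787) (.g 0 11 2 12 17 true true), .t 2 (nat_lit 0x788) (.g 2 5 0 12 18 true true), .t 2 (nat_lit 0x788) (.g 18 2 0 5 12 true false), .t 2 (nat_lit 0x789) (.g 0 11 2 12 18 true true), .t 3 (nat_lit 0x78a077c) (.a 2 5 13 14 true), .t 3 (nat_lit 0x78b077c) (.a 2 5 13 14 false), .t 2 (nat_lit 0x77c) (.g 14 5 0 2 13 true false)] (by decide +kernel) (by decide +kernel)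
theorem b147 : B 9408 9472 := Blk.of_chk [.t 2 (nat_lit 0x78c) (.g 0 11 2 13 14 true true), .t 2 (nat_lit 0x78d) (.g 0 11 2 13 14 true true), .t 3 (nat_lit 0x78e077c) (.g 0 11 5 13 14 true true), .t 3 (nat_lit 0x78f077c) (.g 0 11 5 13 14 true true), .t 2 (nat_lit 0x77a) (.g 5 2 0 13 15 false true), .t 3 (nat_lit 0x790077d) (.a 2 5 13 15 false), .t 2 (nat_lit 0x77f) (.g 16 5 0 2 13 true false), .t 3 (nat_lit 0x791077f) (.g 0 11 5 13 16 true true), .t 3 (nat_lit 0x7920780) (.a 2 5 13 17 false), .t 2 (nat_lit 0x780) (.g 17 2 0 5 13 true false), .t 2 (nat_lit 0x780) (.g 17 5 0 2 13 true false), .t 2 (nat_lit 0x793) (.g 0 11 2 13 17 true true), .t 3 (nat_lit 0x7940788) (.a 2 5 13 18 false), .t 2 (nat_lit 0x788) (.g 18 2 0 5 13 true false), .t 2 (nat_lit 0x788) (.g 18 5 0 2 13 true false), .t 2 (nat_lit 0x795) (.g 0 11 2 13 18 true true), .t 3 (nat_lit 0x7960788) (.g 0 11 5 13 18 true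 true), .t 3 (nat_lit 0x797077d) (.a 2 5 14 15 true), .t 2 (nat_lit 0x780) (.g 17 2 0 5 14 true false), .t 2 (nat_lit 0x780) (.g 17 5 0 2 14 true false), .t 2 (nat_lit 0x788) (.g 18 5 0 2 14 true false), .t 2 (nat_lit 0x798) (.g 0 11 2 15 16 true true), .t 3 (nat_lit 0x799077f) (.g 0 11 5 15 16 true true), .t 2 (nat_lit 0x780) (.g 17 2 0 5 15 true false), .t 2 (nat_lit 0x780) (.g 17 5 0 2 15 true false), .t 2 (nat_lit 0x79a) (.g 0 11 5 15 18 true true), .t 2 (nat_lit 0x780) (.g 17 5 0 2 16 true false), .t 3 (nat_lit 0x79b0788) (.a 2 5 16 18 false), .t 2 (nat_lit 0x788) (.g 18 5 0 2 16 true false), .t 2 (nat_lit 0x788) (.g 18 5 0 2 17 true false), .t 2 (nat_lit 0x79c) (.g 0 11 2 17 18 true true), .t 2 (nat_lit 0x79d) (.g 0 11 2 17 18 true true), .t 1 (nat_lit 0) (.g 2 6 0 7 11 true false), .t 1 (nat_lit 0) (.g 2 6 0 7 12 true false), .t 2 (nat_lit 0x79e) (.g 0 11 2 6 12 true true),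 .t 1 (nat_lit 0) (.g 2 6 0 7 13 true false), .t 2 (nat_lit 0x79f) (.g 0 11 2 6 13 true true), .t 1 (nat_lit 0) (.st 14 2 7 6), .t 1 (nat_lit 0) (.g 2 6 0 7 14 true false), .t 2 (nat_lit 0x7a0) (.g 0 11 2 7 15 true true), .t 1 (nat_lit 0) (.g 7 6 0 2 15 false true), .t 1 (nat_lit 0) (.g 2 6 0 7 15 true false), .t 1 (nat_lit 0) (.g 7 6 0 2 16 false true), .t 2 (nat_lit 0x7a1) (.g 0 11 6 7 17 true true), .t 2 (nat_lit 0x7a2) (.g 0 11 6 7 18 true true), .t 1 (nat_lit 0) (.g 7 6 0 2 18 false true), .t 1 (nat_lit 0) (.g 2 0 6 7 18 false true), .t 1 (nat_lit 0) (.g 2 6 0 8 11 true false), .t 1 (nat_lit 0) (.g 2 6 0 8 13 true false), .t 1 (nat_lit 0) (.g 2 6 0 8 14 true false), .t 2 (nat_lit 0x7a3) (.g 0 11 2 6 14 true true), .t 2 (nat_lit 0x7a4) (.g 0 11 2 8 16 true true), .t 2 (nat_lit 0x7a5) (.g 0 11 2 8 17 true true), .t 1 (nat_lit 0) (.g 2 6 0 8 17 true false), .t 2 (nat_lit 0x7a6)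 (.g 0 11 2 6 17 true true), .t 2 (nat_lit 0x7a7) (.g 0 11 2 8 17 true true), .t 2 (nat_lit 0x7a8) (.g 0 11 2 8 18 true true), .t 1 (nat_lit 0) (.g 8 0 2 6 18 true true), .t 1 (nat_lit 0) (.g 2 6 0 8 18 true false), .t 2 (nat_lit 0x7a9) (.g 0 11 2 6 18 true true), .t 2 (nat_lit 0x7aa) (.g 0 11 2 8 18 true true), .t 1 (nat_lit 0) (.g 2 6 0 9 11 true false), .t 1 (nat_lit 0) (.g 9 0 2 6 11 true true), .t 2 (nat_lit 0x7ab) (.g 0 11 2 9 12 true true)] (by decide +kernel) (by decide +kernel)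
theorem b148 : B 9472 9536 := Blk.of_chk [.t 2 (nat_lit 0x7ac) (.g 0 11 2 6 13 true true), .t 2 (nat_lit 0x7ad) (.g 0 11 2 9 13 true true), .t 2 (nat_lit 0x7ae) (.g 0 11 2 6 14 true true), .t 2 (nat_lit 0x7af) (.g 0 11 2 9 14 true true), .t 2 (nat_lit 0x7b0) (.g 0 11 2 9 15 true true), .t 2 (nat_lit 0x7b1) (.g 0 11 2 9 16 true true), .t 2 (nat_lit 0x7b2) (.g 0 11 2 9 17 true true), .t 1 (nat_lit 0) (.g 9 0 2 6 18 true true), .t 2 (nat_lit 0x7b3) (.g 0 11 2 9 18 true true), .t 1 (nat_lit 0) (.g 2 6 0 10 11 true false), .t 1 (nat_lit 0) (.g 2 6 0 10 13 true false), .t 2 (nat_lit 0x7b4) (.g 0 11 2 6 13 true true), .t 2 (nat_lit 0x7b5) (.g 0 11 2 10 13 true true), .t 1 (nat_lit 0) (.g 2 6 0 10 14 true false), .t 1 (nat_lit 0) (.g 2 6 0 10 14 true false), .t 1 (nat_lit 0) (.g 2 6 0 10 17 true false), .t 2 (nat_lit 0x7b6) (.g 0 11 2 10 17 true true), .t 1 (nat_lit 0) (.g 10 6 0 2 18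 false true), .t 1 (nat_lit 0) (.g 2 6 0 10 18 true false), .t 1 (nat_lit 0) (.g 2 6 0 10 18 true false), .t 2 (nat_lit 0x7b7) (.g 0 11 2 10 18 true true), .t 1 (nat_lit 0) (.g 11 0 2 6 12 false true), .t 1 (nat_lit 0) (.g 2 11 0 6 12 false false), .t 2 (nat_lit 0x7b8) (.g 6 0 2 11 12 true false), .t 1 (nat_lit 0) (.g 11 0 2 6 13 false true), .t 1 (nat_lit 0) (.g 11 0 2 6 13 false false), .t 2 (nat_lit 0x7b9) (.g 11 0 2 6 13 false false), .t 1 (nat_lit 0) (.g 2 13 0 6 11 false false), .t 2 (nat_lit 0x7ba) (.g 6 0 2 11 13 true true), .t 2 (nat_lit 0x7ba) (.g 6 0 2 11 13 true false), .t 1 (nat_lit 0) (.g 11 0 2 6 14 false false), .t 2 (nat_lit 0x7bb) (.g 11 0 2 6 14 false false), .t 1 (nat_lit 0) (.g 2 14 0 6 11 false false), .t 1 (nat_lit 0) (.g 11 0 2 6 15 false true), .t 1 (nat_lit 0) (.g 11 0 2 6 15 false false), .t 1 (nat_lit 0) (.g 2 15 0 6 11 false false), .t 2 (nat_lit 0x7bc)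 (.g 2 6 0 11 16 true true), .t 1 (nat_lit 0) (.g 11 0 2 6 16 false true), .t 1 (nat_lit 0) (.g 2 16 0 6 11 false false), .t 2 (nat_lit 0x7bd) (.g 2 6 0 11 17 true true), .t 1 (nat_lit 0) (.g 11 0 2 6 17 false false), .t 2 (nat_lit 0x7be) (.g 11 0 2 6 17 false true), .t 2 (nat_lit 0x7bf) (.g 11 0 2 6 17 false false), .t 1 (nat_lit 0) (.g 11 0 2 6 18 false false), .t 2 (nat_lit 0x7c0) (.g 11 0 2 6 18 false false), .t 3 (nat_lit 0x7c107ba) (.a 2 6 12 13 false), .t 3 (nat_lit 0x7c307c2) (.a 2 6 12 15 true), .t 2 (nat_lit 0x7bc) (.g 2 6 0 12 16 true true), .t 2 (nat_lit 0x7b8) (.g 6 2 0 12 16 false true), .t 3 (nat_lit 0x7c407bc) (.a 2 6 12 16 false), .t 2 (nat_lit 0x7bd) (.g 2 6 0 12 17 true true), .t 2 (nat_lit 0x7b8) (.g 6 2 0 12 17 false true), .t 2 (nat_lit 0x7c5) (.g 0 11 2 12 17 true true), .t 2 (nat_lit 0x7c6) (.g 2 6 0 12 18 true true), .t 2 (nat_lit 0x7b8) (.g 6 2 0 12 18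 false true), .t 2 (nat_lit 0x7c6) (.g 18 2 0 6 12 true false), .t 2 (nat_lit 0x7c7) (.g 0 11 2 12 18 true true), .t 3 (nat_lit 0x7c907c8) (.a 2 6 13 14 true), .t 3 (nat_lit 0x7ca07c8) (.a 2 6 13 14 false), .t 2 (nat_lit 0x7c8) (.g 14 6 0 2 13 true false), .t 2 (nat_lit 0x7cb) (.g 0 11 2 13 14 true true), .t 2 (nat_lit 0x7cc) (.g 0 11 2 13 14 true true), .t 3 (nat_lit 0x7cd07c8) (.g 0 11 6 13 14 true true), .t 3 (nat_lit 0x7ce07c8) (.g 0 11 6 13 14 true true)] (by decide +kernel) (by decide +kernel)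
theorem b149 : B 9536 9600 := Blk.of_chk [.t 2 (nat_lit 0x7c2) (.g 2 6 0 13 15 true true), .t 3 (nat_lit 0x7cf07c2) (.a 2 6 13 15 false), .t 2 (nat_lit 0x7d0) (.g 0 11 2 13 15 true true), .t 3 (nat_lit 0x7d107bc) (.a 2 6 13 16 false), .t 2 (nat_lit 0x7d2) (.g 0 11 2 13 16 true true), .t 3 (nat_lit 0x7d307bd) (.a 2 6 13 17 false), .t 2 (nat_lit 0x7bd) (.g 17 2 0 6 13 true false), .t 2 (nat_lit 0x7bd) (.g 17 6 0 2 13 true false), .t 2 (nat_lit 0x7d4) (.g 0 11 2 13 17 true true), .t 3 (nat_lit 0x7d507c6) (.a 2 6 13 18 false), .t 2 (nat_lit 0x7c6) (.g 18 2 0 6 13 true false), .t 2 (nat_lit 0x7c6) (.g 18 6 0 2 13 true false), .t 2 (nat_lit 0x7d6) (.g 0 11 2 13 18 true true), .t 3 (nat_lit 0x7d707c6) (.g 0 11 6 13 18 true true), .t 2 (nat_lit 0x7c8) (.g 6 2 0 14 15 false true), .t 3 (nat_lit 0x7d807c2) (.a 2 6 14 15 true), .t 2 (nat_lit 0x7bc) (.g 2 6 0 14 16 true true), .t 3 (nat_lit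 0x7d907bd) (.g 6 2 0 14 17 false true), .t 2 (nat_lit 0x7c8) (.g 6 2 0 14 17 false true), .t 2 (nat_lit 0x7bd) (.g 17 2 0 6 14 true false), .t 2 (nat_lit 0x7bd) (.g 17 6 0 2 14 true false), .t 2 (nat_lit 0x7c6) (.g 18 6 0 2 14 true false), .t 3 (nat_lit 0x7da07bc) (.g 0 11 6 15 16 true true), .t 2 (nat_lit 0x7bd) (.g 17 2 0 6 15 true false), .t 2 (nat_lit 0x7bd) (.g 17 6 0 2 15 true false), .t 2 (nat_lit 0x7db) (.g 0 11 6 16 17 true true), .t 2 (nat_lit 0x7bd) (.g 17 6 0 2 16 true false), .t 2 (nat_lit 0x7dc) (.g 0 11 6 16 18 true true), .t 3 (nat_lit 0x7dd07c6) (.a 2 6 16 18 false), .t 2 (nat_lit 0x7c6) (.g 18 6 0 2 16 true false), .t 2 (nat_lit 0x7c6) (.g 18 6 0 2 17 true false), .t 2 (nat_lit 0x7de) (.g 0 11 2 17 18 true true), .t 1 (nat_lit 0) (.g 8 0 2 7 11 true true), .t 2 (nat_lit 0x7df) (.g 0 11 2 8 13 true true), .t 1 (nat_lit 0) (.g 2 7 0 8 14 true false), .t 2 (nat_lit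 0x7e0) (.g 0 11 2 8 16 true true), .t 2 (nat_lit 0x7e1) (.g 0 11 2 8 17 true true), .t 1 (nat_lit 0) (.g 2 7 0 8 17 true false), .t 1 (nat_lit 0) (.g 2 7 0 8 17 true false), .t 1 (nat_lit 0) (.g 2 7 0 8 18 true false), .t 1 (nat_lit 0) (.g 2 7 0 8 18 true false), .t 2 (nat_lit 0x7e2) (.g 0 11 2 7 18 true true), .t 1 (nat_lit 0) (.g 2 7 0 9 11 true false), .t 1 (nat_lit 0) (.g 9 0 2 7 11 true true), .t 1 (nat_lit 0) (.g 2 7 0 9 12 true false), .t 2 (nat_lit 0x7e3) (.g 0 11 2 9 12 true true), .t 1 (nat_lit 0) (.g 2 7 0 9 13 true false), .t 2 (nat_lit 0x7e4) (.g 0 11 2 9 13 true true), .t 1 (nat_lit 0) (.g 2 7 0 9 14 true false), .t 2 (nat_lit 0x7e5) (.g 0 11 2 7 14 true true), .t 2 (nat_lit 0x7e6) (.g 0 11 2 9 14 true true), .t 1 (nat_lit 0) (.g 9 7 0 2 15 false true), .t 2 (nat_lit 0x7e7) (.g 0 11 2 9 15 true true), .t 1 (nat_lit 0) (.g 9 7 0 2 16 false true), .t 1 (nat_lit 0)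 (.g 2 7 0 9 16 true false), .t 2 (nat_lit 0x7e8) (.g 0 11 2 9 16 true true), .t 2 (nat_lit 0x7e9) (.g 0 11 2 9 17 true true), .t 2 (nat_lit 0x7ea) (.g 0 11 2 9 18 true true), .t 1 (nat_lit 0) (.g 9 7 0 2 18 false true), .t 1 (nat_lit 0) (.g 2 7 0 9 18 true false), .t 2 (nat_lit 0x7eb) (.g 0 11 2 7 18 true true), .t 2 (nat_lit 0x7ec) (.g 0 11 2 9 18 true true), .t 1 (nat_lit 0) (.g 2 7 0 10 11 true false), .t 1 (nat_lit 0) (.g 2 7 0 10 13 true false)] (by decide +kernel) (by decide +kernel)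
theorem b150 : B 9600 9664 := Blk.of_chk [.t 1 (nat_lit 0) (.g 2 7 0 10 13 true false), .t 2 (nat_lit 0x7ed) (.g 0 11 2 7 13 true true), .t 2 (nat_lit 0x7ee) (.g 0 11 2 10 13 true true), .t 1 (nat_lit 0) (.g 2 7 0 10 14 true false), .t 2 (nat_lit 0x7ef) (.g 0 11 7 10 15 true true), .t 1 (nat_lit 0) (.g 10 7 0 2 15 false true), .t 1 (nat_lit 0) (.g 2 7 0 10 17 true false), .t 1 (nat_lit 0) (.g 10 7 0 2 18 false true), .t 1 (nat_lit 0) (.g 2 7 0 10 18 true false), .t 1 (nat_lit 0) (.g 2 7 0 10 18 true false), .t 2 (nat_lit 0x7f0) (.g 0 11 2 10 18 true true), .t 2 (nat_lit 0x7f1) (.g 11 0 2 7 12 false false), .t 2 (nat_lit 0x7f2) (.g 7 0 2 11 12 true false), .t 1 (nat_lit 0) (.g 11 0 2 7 13 false true), .t 1 (nat_lit 0) (.g 11 0 2 7 13 false false), .t 2 (nat_lit 0x7f3) (.g 11 0 2 7 13 false false), .t 1 (nat_lit 0) (.g 2 13 0 7 11 false false), .t 2 (nat_lit 0x7f4) (.g 7 0 2 11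 13 true false), .t 2 (nat_lit 0x7f5) (.g 11 0 2 7 14 false false), .t 2 (nat_lit 0x7f6) (.g 7 0 2 11 14 true false), .t 2 (nat_lit 0x7f7) (.g 2 7 0 11 15 true true), .t 1 (nat_lit 0) (.g 11 0 2 7 15 false true), .t 1 (nat_lit 0) (.g 11 0 2 7 15 false false), .t 1 (nat_lit 0) (.g 2 15 0 7 11 false false), .t 2 (nat_lit 0x7f8) (.g 2 7 0 11 16 true true), .t 1 (nat_lit 0) (.g 11 0 2 7 16 false true), .t 1 (nat_lit 0) (.g 2 16 0 7 11 false false), .t 2 (nat_lit 0x7f9) (.g 2 7 0 11 17 true true), .t 1 (nat_lit 0) (.g 11 0 2 7 17 false false), .t 2 (nat_lit 0x7fa) (.g 11 0 2 7 17 false true), .t 2 (nat_lit 0x7fb) (.g 11 0 2 7 17 false false), .t 1 (nat_lit 0) (.g 11 0 2 7 18 false false), .t 2 (nat_lit 0x7fc) (.g 11 0 2 7 18 false false), .t 3 (nat_lit 0x7fd07f4) (.a 2 7 12 13 true), .t 3 (nat_lit 0x7fe07f4) (.a 2 7 12 13 false), .t 2 (nat_lit 0x7f4) (.g 13 7 0 2 12 true false), .t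 2 (nat_lit 0x7ff) (.g 0 11 2 12 13 true true), .t 2 (nat_lit 0x7f7) (.g 2 7 0 12 15 true true), .t 3 (nat_lit 0x80007f7) (.a 2 7 12 15 true), .t 2 (nat_lit 0x801) (.g 0 11 2 12 15 true true), .t 3 (nat_lit 0x80207f8) (.a 2 7 12 16 false), .t 2 (nat_lit 0x803) (.g 0 11 2 12 16 true true), .t 2 (nat_lit 0x7f9) (.g 2 7 0 12 17 true true), .t 2 (nat_lit 0x7f9) (.g 17 2 0 7 12 true false), .t 2 (nat_lit 0x804) (.g 2 7 0 12 18 true true), .t 2 (nat_lit 0x804) (.g 18 2 0 7 12 true false), .t 2 (nat_lit 0x805) (.g 0 11 2 12 18 true true), .t 3 (nat_lit 0x80607f6) (.a 2 7 13 14 true), .t 3 (nat_lit 0x80707f6) (.a 2 7 13 14 false), .t 2 (nat_lit 0x7f6) (.g 14 7 0 2 13 true false), .t 2 (nat_lit 0x808) (.g 0 11 2 13 14 true true), .t 2 (nat_lit 0x809) (.g 0 11 2 13 14 true true), .t 3 (nat_lit 0x80a07f6) (.g 0 11 7 13 14 true true), .t 2 (nat_lit 0x7f7) (.g 2 7 0 13 15 true true), .t 3 (nat_lit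 0x80b07f7) (.a 2 7 13 15 false), .t 3 (nat_lit 0x80c07f8) (.a 2 7 13 16 false), .t 2 (nat_lit 0x7f9) (.g 2 7 0 13 17 true true), .t 3 (nat_lit 0x80d07f9) (.a 2 7 13 17 false), .t 2 (nat_lit 0x7f9) (.g 17 2 0 7 13 true false), .t 2 (nat_lit 0x7f9) (.g 17 7 0 2 13 true false), .t 3 (nat_lit 0x80e0804) (.a 2 7 13 18 false), .t 2 (nat_lit 0x804) (.g 18 2 0 7 13 true false), .t 3 (nat_lit 0x80f0804) (.g 0 11 7 13 18 true true), .t 2 (nat_lit 0x7f7) (.g 2 7 0 14 15 true true)] (by decide +kernel) (by decide +kernel)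
theorem b151 : B 9664 9728 := Blk.of_chk [.t 3 (nat_lit 0x81007f7) (.a 2 7 14 15 true), .t 2 (nat_lit 0x7f8) (.g 2 0 7 14 16 false false), .t 2 (nat_lit 0x7f9) (.g 2 7 0 14 17 true true), .t 2 (nat_lit 0x7f9) (.g 17 2 0 7 14 true false), .t 2 (nat_lit 0x7f9) (.g 17 7 0 2 14 true false), .t 2 (nat_lit 0x804) (.g 18 7 0 2 14 true false), .t 2 (nat_lit 0x811) (.g 0 11 2 15 16 true true), .t 3 (nat_lit 0x81207f8) (.g 0 11 7 15 16 true true), .t 2 (nat_lit 0x7f9) (.g 17 2 0 7 15 true false), .t 2 (nat_lit 0x7f9) (.g 17 7 0 2 15 true false), .t 2 (nat_lit 0x7f9) (.g 17 7 0 2 16 true false), .t 3 (nat_lit 0x8130804) (.a 2 7 16 18 false), .t 2 (nat_lit 0x804) (.g 18 7 0 2 16 true false), .t 3 (nat_lit 0x81407f9) (.a 2 7 17 18 true), .t 2 (nat_lit 0x804) (.g 18 7 0 2 17 true false), .t 2 (nat_lit 0x815) (.g 0 11 2 17 18 true true), .t 3 (nat_lit 0x8160804) (.g 0 11 7 17 18 true true),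 .t 1 (nat_lit 0) (.g 2 8 0 9 11 true false), .t 1 (nat_lit 0) (.g 9 0 2 8 11 true true), .t 1 (nat_lit 0) (.g 2 8 0 9 12 true false), .t 2 (nat_lit 0x817) (.g 0 11 2 9 12 true true), .t 1 (nat_lit 0) (.g 2 8 0 9 13 true false), .t 2 (nat_lit 0x818) (.g 0 11 2 8 13 true true), .t 2 (nat_lit 0x819) (.g 0 11 2 9 13 true true), .t 1 (nat_lit 0) (.g 2 8 0 9 14 true false), .t 2 (nat_lit 0x81a) (.g 0 11 2 8 14 true true), .t 2 (nat_lit 0x81b) (.g 0 11 2 9 14 true true), .t 1 (nat_lit 0) (.g 2 8 0 9 15 true false), .t 2 (nat_lit 0x81c) (.g 0 11 2 9 15 true true), .t 1 (nat_lit 0) (.g 2 8 0 9 16 true false), .t 2 (nat_lit 0x81d) (.g 0 11 2 9 16 true true), .t 2 (nat_lit 0x81e) (.g 0 11 2 8 17 true true), .t 2 (nat_lit 0x81f) (.g 0 11 2 9 17 true true), .t 2 (nat_lit 0x820) (.g 0 11 2 9 18 true true), .t 1 (nat_lit 0) (.g 2 8 0 10 11 true false), .t 1 (nat_lit 0) (.g 2 8 0 10 13 true false),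 .t 2 (nat_lit 0x821) (.g 0 11 2 8 13 true true), .t 2 (nat_lit 0x822) (.g 0 11 2 10 13 true true), .t 1 (nat_lit 0) (.g 2 8 0 10 14 true false), .t 1 (nat_lit 0) (.g 2 8 0 10 14 true false), .t 2 (nat_lit 0x823) (.g 0 11 2 10 14 true true), .t 2 (nat_lit 0x824) (.g 0 11 2 10 15 true true), .t 1 (nat_lit 0) (.g 2 8 0 10 17 true false), .t 2 (nat_lit 0x825) (.g 0 11 2 8 17 true true), .t 1 (nat_lit 0) (.g 10 8 0 2 18 false true), .t 1 (nat_lit 0) (.g 2 0 8 10 18 false true), .t 1 (nat_lit 0) (.g 2 8 0 10 18 true false), .t 1 (nat_lit 0) (.g 2 8 0 10 18 true false), .t 2 (nat_lit 0x826) (.g 0 11 2 8 18 true true), .t 2 (nat_lit 0x827) (.g 0 11 2 10 18 true true), .t 1 (nat_lit 0) (.g 11 0 2 8 12 false true), .t 1 (nat_lit 0) (.g 2 11 0 8 12 false false), .t 2 (nat_lit 0x828) (.g 8 0 2 11 12 true false), .t 1 (nat_lit 0) (.g 11 0 2 8 13 false false), .t 2 (nat_lit 0x829) (.g 11 0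 2 8 13 false false), .t 1 (nat_lit 0) (.g 11 0 2 8 14 false true), .t 2 (nat_lit 0x82a) (.g 11 0 2 8 14 false true), .t 2 (nat_lit 0x82b) (.g 11 0 2 8 14 false false), .t 1 (nat_lit 0) (.g 11 0 2 8 15 false false), .t 1 (nat_lit 0) (.g 11 0 2 8 17 false false), .t 2 (nat_lit 0x82c) (.g 11 0 2 8 17 false true), .t 2 (nat_lit 0x82d) (.g 11 0 2 8 17 false false), .t 2 (nat_lit 0x82e) (.g 8 0 2 11 17 true true), .t 2 (nat_lit 0x82e) (.g 8 0 2 11 17 true false)] (by decide +kernel) (by decide +kernel)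
theorem b152 : B 9728 9792 := Blk.of_chk [.t 1 (nat_lit 0) (.g 11 0 2 8 18 false false), .t 2 (nat_lit 0x82f) (.g 11 0 2 8 18 false false), .t 2 (nat_lit 0x830) (.g 0 11 2 12 13 true true), .t 3 (nat_lit 0x8320831) (.a 2 8 12 15 true), .t 3 (nat_lit 0x8340833) (.a 2 8 12 16 false), .t 3 (nat_lit 0x8350833) (.g 0 11 8 12 16 true true), .t 2 (nat_lit 0x82e) (.g 17 8 0 2 12 true false), .t 2 (nat_lit 0x836) (.g 0 11 2 12 17 true true), .t 3 (nat_lit 0x837082e) (.g 0 11 8 12 17 true true), .t 2 (nat_lit 0x838) (.g 18 2 0 8 12 true false), .t 2 (nat_lit 0x839) (.g 0 11 2 12 18 true true), .t 3 (nat_lit 0x83b083a) (.a 2 8 13 14 true), .t 3 (nat_lit 0x83c083a) (.a 2 8 13 14 false), .t 2 (nat_lit 0x83a) (.g 14 8 0 2 13 true false), .t 2 (nat_lit 0x83d) (.g 0 11 2 13 14 true true), .t 3 (nat_lit 0x83e083a) (.g 0 11 8 13 14 true true), .t 2 (nat_lit 0x83f) (.g 8 2 0 13 15 false true), .t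 3 (nat_lit 0x8400831) (.a 2 8 13 15 true), .t 3 (nat_lit 0x8410831) (.a 2 8 13 15 false), .t 3 (nat_lit 0x842083f) (.g 8 0 2 13 17 true false), .t 3 (nat_lit 0x843082e) (.a 2 8 13 17 false), .t 2 (nat_lit 0x82e) (.g 17 2 0 8 13 true false), .t 2 (nat_lit 0x82e) (.g 17 8 0 2 13 true false), .t 2 (nat_lit 0x844) (.g 0 11 2 13 17 true true), .t 3 (nat_lit 0x845082e) (.g 0 11 8 13 17 true true), .t 3 (nat_lit 0x8460838) (.a 2 8 13 18 false), .t 2 (nat_lit 0x838) (.g 18 2 0 8 13 true false), .t 3 (nat_lit 0x8470838) (.g 0 11 8 13 18 true true), .t 3 (nat_lit 0x8480831) (.a 2 8 14 15 true), .t 2 (nat_lit 0x849) (.g 0 11 2 14 16 true true), .t 3 (nat_lit 0x84a0833) (.g 0 11 8 14 16 true true), .t 2 (nat_lit 0x82e) (.g 17 2 0 8 14 true false), .t 2 (nat_lit 0x82e) (.g 17 8 0 2 14 true false), .t 3 (nat_lit 0x84b082e) (.g 0 11 8 14 17 true true), .t 3 (nat_lit 0x84c082e) (.g 0 11 8 14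 17 true true), .t 3 (nat_lit 0x84d0838) (.a 2 8 14 18 false), .t 2 (nat_lit 0x838) (.g 18 8 0 2 14 true false), .t 2 (nat_lit 0x82e) (.g 17 2 0 8 15 true false), .t 2 (nat_lit 0x82e) (.g 17 8 0 2 15 true false), .t 3 (nat_lit 0x84e082e) (.g 0 11 8 15 17 true true), .t 3 (nat_lit 0x84f0838) (.a 2 8 15 18 false), .t 3 (nat_lit 0x850082e) (.a 2 8 16 17 false), .t 2 (nat_lit 0x82e) (.g 17 8 0 2 16 true false), .t 2 (nat_lit 0x851) (.g 0 11 2 16 17 true true), .t 3 (nat_lit 0x852082e) (.g 0 11 8 16 17 true true), .t 3 (nat_lit 0x8530838) (.a 2 8 16 18 false), .t 2 (nat_lit 0x838) (.g 18 8 0 2 16 true false), .t 3 (nat_lit 0x8540838) (.a 2 8 17 18 true), .t 3 (nat_lit 0x8550838) (.a 2 8 17 18 false), .t 2 (nat_lit 0x838) (.g 18 2 0 8 17 true false), .t 2 (nat_lit 0x838) (.g 18 8 0 2 17 true false), .t 3 (nat_lit 0x8560838) (.g 0 11 8 17 18 true true), .t 3 (nat_lit 0x8570838) (.g 0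 11 8 17 18 true true), .t 1 (nat_lit 0) (.g 2 10 0 9 11 true false), .t 1 (nat_lit 0) (.g 9 11 0 2 10 false true), .t 1 (nat_lit 0) (.g 10 0 2 9 11 true false), .t 1 (nat_lit 0) (.g 2 0 9 10 12 false false), .t 2 (nat_lit 0x858) (.g 0 11 2 9 12 true true), .t 2 (nat_lit 0x859) (.g 0 11 2 10 13 true true), .t 1 (nat_lit 0) (.g 2 0 9 10 13 false false), .t 1 (nat_lit 0) (.g 9 13 0 2 10 false true), .t 2 (nat_lit 0x85a) (.g 0 11 2 9 13 true true), .t 2 (nat_lit 0x85b) (.g 0 11 2 10 13 true true), .t 2 (nat_lit 0x85c) (.g 0 11 2 9 14 true true)] (by decide +kernel) (by decide +kernel)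
theorem b153 : B 9792 9856 := Blk.of_chk [.t 2 (nat_lit 0x85d) (.g 0 11 2 10 14 true true), .t 1 (nat_lit 0) (.g 9 15 0 2 10 false true), .t 2 (nat_lit 0x85e) (.g 0 11 2 9 15 true true), .t 2 (nat_lit 0x85f) (.g 2 0 9 10 16 false false), .t 1 (nat_lit 0) (.g 9 16 0 2 10 true true), .t 1 (nat_lit 0) (.g 9 16 0 2 10 false true), .t 2 (nat_lit 0x860) (.g 0 11 2 9 16 true true), .t 2 (nat_lit 0x861) (.g 0 11 2 10 16 true true), .t 2 (nat_lit 0x862) (.g 2 0 9 10 17 false false), .t 1 (nat_lit 0) (.g 9 17 0 2 10 true true), .t 2 (nat_lit 0x863) (.g 0 11 2 9 17 true true), .t 2 (nat_lit 0x864) (.g 0 11 2 10 17 true true), .t 2 (nat_lit 0x865) (.g 0 11 2 10 18 true true), .t 2 (nat_lit 0x866) (.g 0 11 9 10 18 true true), .t 1 (nat_lit 0) (.g 10 2 0 9 18 false true), .t 2 (nat_lit 0x867) (.g 2 0 9 10 18 false false), .t 1 (nat_lit 0) (.g 9 18 0 2 10 true true), .t 2 (nat_lit 0x865) (.g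 9 18 0 2 10 false true), .t 2 (nat_lit 0x868) (.g 0 11 2 9 18 true true), .t 2 (nat_lit 0x869) (.g 0 11 2 10 18 true true), .t 1 (nat_lit 0) (.g 11 0 2 9 12 false true), .t 2 (nat_lit 0x86a) (.g 11 0 2 9 12 false true), .t 2 (nat_lit 0x86b) (.g 11 0 2 9 12 false false), .t 2 (nat_lit 0x86c) (.g 9 0 2 11 12 true true), .t 2 (nat_lit 0x86c) (.g 9 0 2 11 12 true false), .t 1 (nat_lit 0) (.g 9 2 0 11 13 false true), .t 1 (nat_lit 0) (.g 11 0 2 9 13 false true), .t 1 (nat_lit 0) (.g 11 0 2 9 13 false false), .t 2 (nat_lit 0x86d) (.g 11 0 2 9 13 false true), .t 2 (nat_lit 0x86e) (.g 11 0 2 9 13 false false), .t 2 (nat_lit 0x86f) (.g 9 0 2 11 13 true true), .t 1 (nat_lit 0) (.g 2 9 0 11 14 true true), .t 1 (nat_lit 0) (.g 9 0 2 11 14 true false), .t 1 (nat_lit 0) (.g 11 0 2 9 14 false true), .t 1 (nat_lit 0) (.g 11 0 2 9 14 false false), .t 2 (nat_lit 0x870) (.g 11 0 2 9 14 false true),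 .t 2 (nat_lit 0x871) (.g 11 0 2 9 14 false false), .t 2 (nat_lit 0x872) (.g 9 0 2 11 14 true true), .t 2 (nat_lit 0x872) (.g 9 0 2 11 14 true false), .t 1 (nat_lit 0) (.g 9 2 0 11 15 false true), .t 1 (nat_lit 0) (.g 11 0 2 9 15 false true), .t 1 (nat_lit 0) (.g 11 0 2 9 15 false false), .t 2 (nat_lit 0x873) (.g 11 0 2 9 15 false true), .t 2 (nat_lit 0x874) (.g 11 0 2 9 15 false false), .t 2 (nat_lit 0x875) (.g 9 0 2 11 15 true true), .t 1 (nat_lit 0) (.g 11 0 2 9 16 false true), .t 1 (nat_lit 0) (.g 11 0 2 9 16 false false), .t 2 (nat_lit 0x876) (.g 11 0 2 9 16 false true), .t 2 (nat_lit 0x877) (.g 11 0 2 9 16 false false), .t 2 (nat_lit 0x878) (.g 9 0 2 11 16 true true), .t 2 (nat_lit 0x878) (.g 9 0 2 11 16 true false), .t 1 (nat_lit 0) (.g 11 0 2 9 17 false true), .t 1 (nat_lit 0) (.g 11 0 2 9 17 false false), .t 2 (nat_lit 0x879) (.g 11 0 2 9 17 false true), .t 2 (nat_lit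 0x87a) (.g 11 0 2 9 17 false false), .t 2 (nat_lit 0x87b) (.g 9 0 2 11 17 true true), .t 1 (nat_lit 0) (.g 9 2 0 11 18 false true), .t 1 (nat_lit 0) (.g 11 0 2 9 18 false true), .t 2 (nat_lit 0x87c) (.g 11 0 2 9 18 false true), .t 2 (nat_lit 0x87d) (.g 11 0 2 9 18 false false), .t 2 (nat_lit 0x87e) (.g 9 0 2 11 18 true true), .t 2 (nat_lit 0x87e) (.g 9 0 2 11 18 true false), .t 2 (nat_lit 0x86c) (.g 9 2 0 12 13 false true), .t 3 (nat_lit 0x87f086f) (.a 2 9 12 13 true)] (by decide +kernel) (by decide +kernel)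
theorem b154 : B 9856 9920 := Blk.of_chk [.t 2 (nat_lit 0x86f) (.g 13 2 0 9 12 true false), .t 2 (nat_lit 0x86f) (.g 13 9 0 2 12 true false), .t 2 (nat_lit 0x880) (.g 0 11 2 12 13 true true), .t 3 (nat_lit 0x881086f) (.g 0 11 9 12 13 true true), .t 3 (nat_lit 0x8820872) (.a 2 9 12 14 true), .t 2 (nat_lit 0x872) (.g 14 2 0 9 12 true false), .t 2 (nat_lit 0x872) (.g 14 9 0 2 12 true false), .t 2 (nat_lit 0x883) (.g 0 11 2 12 14 true true), .t 3 (nat_lit 0x8840872) (.g 0 11 9 12 14 true true), .t 3 (nat_lit 0x8850872) (.g 0 11 9 12 14 true true), .t 2 (nat_lit 0x86c) (.g 12 0 2 9 15 false false), .t 3 (nat_lit 0x8860875) (.a 2 9 12 15 true), .t 3 (nat_lit 0x8870875) (.g 0 11 9 12 15 true true), .t 3 (nat_lit 0x8880878) (.a 2 9 12 16 true), .t 2 (nat_lit 0x878) (.g 16 2 0 9 12 true false), .t 2 (nat_lit 0x889) (.g 0 11 2 12 16 true true), .t 3 (nat_lit 0x88a0878) (.g 0 11 9 12 16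 true true), .t 3 (nat_lit 0x88b0878) (.g 0 11 9 12 16 true true), .t 2 (nat_lit 0x87b) (.g 17 2 0 9 12 true false), .t 2 (nat_lit 0x88c) (.g 0 11 2 12 17 true true), .t 3 (nat_lit 0x88d087b) (.g 0 11 9 12 17 true true), .t 2 (nat_lit 0x86c) (.g 12 0 2 9 18 false false), .t 2 (nat_lit 0x87e) (.g 2 9 0 12 18 true true), .t 2 (nat_lit 0x87e) (.g 18 2 0 9 12 true false), .t 2 (nat_lit 0x87e) (.g 18 9 0 2 12 true false), .t 2 (nat_lit 0x88e) (.g 0 11 2 12 18 true true), .t 3 (nat_lit 0x88f087e) (.g 0 11 9 12 18 true true), .t 3 (nat_lit 0x890086f) (.g 9 0 2 13 14 true false), .t 2 (nat_lit 0x86f) (.g 9 0 2 13 14 true false), .t 3 (nat_lit 0x8910872) (.a 2 9 13 14 true), .t 3 (nat_lit 0x8920872) (.a 2 9 13 14 false), .t 2 (nat_lit 0x872) (.g 14 2 0 9 13 true false), .t 2 (nat_lit 0x872) (.g 14 9 0 2 13 true false), .t 2 (nat_lit 0x893) (.g 0 11 2 13 14 true true), .t 2 (nat_lit 0x894)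 (.g 0 11 2 13 14 true true), .t 3 (nat_lit 0x8950872) (.g 0 11 9 13 14 true true), .t 3 (nat_lit 0x8960872) (.g 0 11 9 13 14 true true), .t 2 (nat_lit 0x875) (.g 2 9 0 13 15 true true), .t 2 (nat_lit 0x86f) (.g 9 2 0 13 15 false true), .t 3 (nat_lit 0x897086f) (.g 9 0 2 13 15 true false), .t 3 (nat_lit 0x8980875) (.a 2 9 13 15 true), .t 3 (nat_lit 0x8990875) (.a 2 9 13 15 false), .t 2 (nat_lit 0x875) (.g 15 2 0 9 13 true false), .t 2 (nat_lit 0x875) (.g 15 9 0 2 13 true false), .t 2 (nat_lit 0x89a) (.g 0 11 2 13 15 true true), .t 2 (nat_lit 0x89b) (.g 0 11 2 13 15 true true), .t 3 (nat_lit 0x89c0875) (.g 0 11 9 13 15 true true), .t 3 (nat_lit 0x89d0875) (.g 0 11 9 13 15 true true), .t 2 (nat_lit 0x878) (.g 2 9 0 13 16 true true), .t 3 (nat_lit 0x89e086f) (.g 9 0 2 13 16 true false), .t 3 (nat_lit 0x89f0878) (.a 2 9 13 16 true), .t 3 (nat_lit 0x8a00878) (.a 2 9 13 16 false), .t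 2 (nat_lit 0x878) (.g 16 2 0 9 13 true false), .t 2 (nat_lit 0x8a1) (.g 0 11 2 13 16 true true), .t 3 (nat_lit 0x8a20878) (.g 0 11 9 13 16 true true), .t 3 (nat_lit 0x8a30878) (.g 0 11 9 13 16 true true), .t 3 (nat_lit 0x8a4086f) (.g 9 0 2 13 17 true false), .t 3 (nat_lit 0x8a5087b) (.a 2 9 13 17 true), .t 3 (nat_lit 0x8a6087b) (.a 2 9 13 17 false), .t 2 (nat_lit 0x87b) (.g 17 2 0 9 13 true false), .t 2 (nat_lit 0x87b) (.g 17 9 0 2 13 true false), .t 2 (nat_lit 0x8a7) (.g 0 11 2 13 17 true true), .t 2 (nat_lit 0x8a8) (.g 0 11 2 13 17 true true), .t 3 (nat_lit 0x8a9087b) (.g 0 11 9 13 17 true true)] (by decide +kernel) (by decide +kernel)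
theorem b155 : B 9920 9984 := Blk.of_chk [.t 3 (nat_lit 0x8aa087b) (.g 0 11 9 13 17 true true), .t 2 (nat_lit 0x87e) (.g 2 9 0 13 18 true true), .t 3 (nat_lit 0x8ab086f) (.g 9 0 2 13 18 true false), .t 3 (nat_lit 0x8ac087e) (.a 2 9 13 18 true), .t 3 (nat_lit 0x8ad087e) (.a 2 9 13 18 false), .t 2 (nat_lit 0x87e) (.g 18 2 0 9 13 true false), .t 2 (nat_lit 0x87e) (.g 18 9 0 2 13 true false), .t 2 (nat_lit 0x8ae) (.g 0 11 2 13 18 true true), .t 2 (nat_lit 0x8af) (.g 0 11 2 13 18 true true), .t 3 (nat_lit 0x8b0087e) (.g 0 11 9 13 18 true true), .t 3 (nat_lit 0x8b1087e) (.g 0 11 9 13 18 true true), .t 2 (nat_lit 0x872) (.g 9 0 2 14 15 true false), .t 3 (nat_lit 0x8b20875) (.a 2 9 14 15 true), .t 2 (nat_lit 0x875) (.g 15 2 0 9 14 true false), .t 2 (nat_lit 0x875) (.g 15 9 0 2 14 true false), .t 2 (nat_lit 0x8b3) (.g 0 11 2 14 15 true true), .t 2 (nat_lit 0x8b4) (.g 0 11 2 14 15 true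 true), .t 3 (nat_lit 0x8b50875) (.g 0 11 9 14 15 true true), .t 3 (nat_lit 0x8b60875) (.g 0 11 9 14 15 true true), .t 3 (nat_lit 0x8b70878) (.a 2 9 14 16 true), .t 2 (nat_lit 0x878) (.g 16 2 0 9 14 true false), .t 2 (nat_lit 0x8b8) (.g 0 11 2 14 16 true true), .t 2 (nat_lit 0x8b9) (.g 0 11 2 14 16 true true), .t 3 (nat_lit 0x8ba0878) (.g 0 11 9 14 16 true true), .t 3 (nat_lit 0x8bb0878) (.g 0 11 9 14 16 true true), .t 3 (nat_lit 0x8bc087b) (.a 2 9 14 17 true), .t 3 (nat_lit 0x8bd087b) (.a 2 9 14 17 false), .t 2 (nat_lit 0x87b) (.g 17 2 0 9 14 true false), .t 2 (nat_lit 0x8be) (.g 0 11 2 14 17 true true), .t 3 (nat_lit 0x8bf087b) (.g 0 11 9 14 17 true true), .t 3 (nat_lit 0x8c0087b) (.g 0 11 9 14 17 true true), .t 3 (nat_lit 0x8c1087e) (.a 2 9 14 18 true), .t 2 (nat_lit 0x87e) (.g 18 2 0 9 14 true false), .t 2 (nat_lit 0x87e) (.g 18 9 0 2 14 true false), .t 2 (nat_lit 0x8c2) (.g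 0 11 2 14 18 true true), .t 2 (nat_lit 0x8c3) (.g 0 11 2 14 18 true true), .t 3 (nat_lit 0x8c4087e) (.g 0 11 9 14 18 true true), .t 3 (nat_lit 0x8c5087e) (.g 0 11 9 14 18 true true), .t 3 (nat_lit 0x8c60878) (.a 2 9 15 16 true), .t 2 (nat_lit 0x878) (.g 16 2 0 9 15 true false), .t 2 (nat_lit 0x8c7) (.g 0 11 2 15 16 true true), .t 2 (nat_lit 0x8c8) (.g 0 11 2 15 16 true true), .t 3 (nat_lit 0x8c90878) (.g 0 11 9 15 16 true true), .t 3 (nat_lit 0x8ca0878) (.g 0 11 9 15 16 true true), .t 3 (nat_lit 0x8cb087b) (.a 2 9 15 17 true), .t 2 (nat_lit 0x87b) (.g 17 2 0 9 15 true false), .t 2 (nat_lit 0x8cc) (.g 0 11 2 15 17 true true), .t 3 (nat_lit 0x8cd087b) (.g 0 11 9 15 17 true true), .t 3 (nat_lit 0x8ce087e) (.a 2 9 15 18 true), .t 2 (nat_lit 0x87e) (.g 18 2 0 9 15 true false), .t 2 (nat_lit 0x87e) (.g 18 9 0 2 15 true false), .t 2 (nat_lit 0x8cf) (.g 0 11 2 15 18 true true), .t 3 (nat_lit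 0x8d0087e) (.g 0 11 9 15 18 true true), .t 3 (nat_lit 0x8d1087e) (.g 0 11 9 15 18 true true), .t 3 (nat_lit 0x8d2087b) (.a 2 9 16 17 true), .t 3 (nat_lit 0x8d3087b) (.a 2 9 16 17 false), .t 2 (nat_lit 0x87b) (.g 17 2 0 9 16 true false), .t 2 (nat_lit 0x8d4) (.g 0 11 2 16 17 true true), .t 2 (nat_lit 0x8d5) (.g 0 11 2 16 17 true true), .t 3 (nat_lit 0x8d6087b) (.g 0 11 9 16 17 true true), .t 3 (nat_lit 0x8d7087e) (.a 2 9 16 18 true), .t 3 (nat_lit 0x8d8087e) (.a 2 9 16 18 false), .t 2 (nat_lit 0x87e) (.g 18 2 0 9 16 true false), .t 2 (nat_lit 0x87e) (.g 18 9 0 2 16 true false)] (by decide +kernel) (by decide +kernel)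
theorem b156 : B 9984 10048 := Blk.of_chk [.t 2 (nat_lit 0x8d9) (.g 0 11 2 16 18 true true), .t 3 (nat_lit 0x8da087e) (.g 0 11 9 16 18 true true), .t 3 (nat_lit 0x8db087e) (.g 0 11 9 16 18 true true), .t 2 (nat_lit 0x87b) (.g 9 0 2 17 18 true false), .t 3 (nat_lit 0x8dc087e) (.a 2 9 17 18 true), .t 3 (nat_lit 0x8dd087e) (.a 2 9 17 18 false), .t 2 (nat_lit 0x87e) (.g 18 2 0 9 17 true false), .t 2 (nat_lit 0x87e) (.g 18 9 0 2 17 true false), .t 2 (nat_lit 0x8de) (.g 0 11 2 17 18 true true), .t 3 (nat_lit 0x8df087e) (.g 0 11 9 17 18 true true), .t 3 (nat_lit 0x8e0087e) (.g 0 11 9 17 18 true true), .t 1 (nat_lit 0) (.g 2 11 0 10 12 false false), .t 2 (nat_lit 0x8e1) (.g 10 0 2 11 12 true false), .t 2 (nat_lit 0x8e2) (.g 2 10 0 11 13 true true), .t 1 (nat_lit 0) (.g 11 0 2 10 13 false true), .t 1 (nat_lit 0) (.g 11 0 2 10 13 false false), .t 2 (nat_lit 0x8e3) (.g 11 0 2 10 13 false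 false), .t 1 (nat_lit 0) (.g 2 13 0 10 11 false false), .t 2 (nat_lit 0x8e2) (.g 10 0 2 11 13 true true), .t 2 (nat_lit 0x8e2) (.g 10 0 2 11 13 true false), .t 1 (nat_lit 0) (.g 11 0 2 10 14 false true), .t 1 (nat_lit 0) (.g 11 0 2 10 14 false false), .t 2 (nat_lit 0x8e4) (.g 11 0 2 10 14 false false), .t 1 (nat_lit 0) (.g 2 14 0 10 11 false false), .t 2 (nat_lit 0x8e5) (.g 10 0 2 11 14 true true), .t 2 (nat_lit 0x8e5) (.g 10 0 2 11 14 true false), .t 2 (nat_lit 0x8e6) (.g 2 10 0 11 15 true true), .t 1 (nat_lit 0) (.g 11 0 2 10 15 false true), .t 1 (nat_lit 0) (.g 11 0 2 10 15 false false), .t 2 (nat_lit 0x8e7) (.g 11 0 2 10 15 false false), .t 2 (nat_lit 0x8e6) (.g 10 0 2 11 15 true true), .t 2 (nat_lit 0x8e6) (.g 10 0 2 11 15 true false), .t 1 (nat_lit 0) (.g 11 0 2 10 16 false true), .t 1 (nat_lit 0) (.g 11 0 2 10 17 false true), .t 1 (nat_lit 0) (.g 11 0 2 10 17 false false),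 .t 2 (nat_lit 0x8e8) (.g 11 0 2 10 17 false true), .t 2 (nat_lit 0x8e9) (.g 11 0 2 10 17 false false), .t 2 (nat_lit 0x8ea) (.g 2 10 0 11 18 true true), .t 2 (nat_lit 0x8eb) (.g 11 0 2 10 18 false false), .t 2 (nat_lit 0x8e2) (.g 13 2 0 10 12 true false), .t 2 (nat_lit 0x8ec) (.g 0 11 2 12 13 true true), .t 3 (nat_lit 0x8ed08e2) (.g 0 11 10 12 13 true true), .t 2 (nat_lit 0x8e5) (.g 14 2 0 10 12 true false), .t 2 (nat_lit 0x8ee) (.g 0 11 2 12 14 true true), .t 3 (nat_lit 0x8ef08e6) (.a 2 10 12 15 true), .t 2 (nat_lit 0x8f0) (.g 0 11 2 12 16 true true), .t 2 (nat_lit 0x8f1) (.g 17 2 0 10 12 true false), .t 2 (nat_lit 0x8f1) (.g 17 10 0 2 12 true false), .t 2 (nat_lit 0x8f2) (.g 0 11 2 12 17 true true), .t 3 (nat_lit 0x8f308f1) (.g 0 11 10 12 17 true true), .t 2 (nat_lit 0x8e1) (.g 10 2 0 12 18 false true), .t 2 (nat_lit 0x8ea) (.g 18 2 0 10 12 true false), .t 2 (nat_lit 0x8ea)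 (.g 18 10 0 2 12 true false), .t 3 (nat_lit 0x8f408ea) (.g 0 11 10 12 18 true true), .t 3 (nat_lit 0x8f508ea) (.g 0 11 10 12 18 true true), .t 3 (nat_lit 0x8f608e5) (.a 2 10 13 14 true), .t 3 (nat_lit 0x8f708e5) (.a 2 10 13 14 false), .t 2 (nat_lit 0x8e5) (.g 14 2 0 10 13 true false), .t 2 (nat_lit 0x8e5) (.g 14 10 0 2 13 true false), .t 2 (nat_lit 0x8f8) (.g 0 11 2 13 14 true true), .t 2 (nat_lit 0x8f9) (.g 0 11 2 13 14 true true), .t 3 (nat_lit 0x8fa08e5) (.g 0 11 10 13 14 true true), .t 3 (nat_lit 0x8fb08e5) (.g 0 11 10 13 14 true true), .t 2 (nat_lit 0x8e2) (.g 10 2 0 13 15 false true)] (by decide +kernel) (by decide +kernel)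
theorem b157 : B 10048 10112 := Blk.of_chk [.t 2 (nat_lit 0x8e2) (.g 10 0 2 13 15 true false), .t 3 (nat_lit 0x8fc08e6) (.a 2 10 13 15 true), .t 3 (nat_lit 0x8fd08e6) (.a 2 10 13 15 false), .t 2 (nat_lit 0x8e6) (.g 15 10 0 2 13 true false), .t 3 (nat_lit 0x8fe08e6) (.g 0 11 10 13 15 true true), .t 3 (nat_lit 0x8ff08e2) (.g 10 0 2 13 16 true false), .t 3 (nat_lit 0x9010900) (.a 2 10 13 16 true), .t 3 (nat_lit 0x9020900) (.a 2 10 13 16 false), .t 3 (nat_lit 0x90308e2) (.g 10 0 2 13 17 true false), .t 3 (nat_lit 0x90408f1) (.a 2 10 13 17 true), .t 3 (nat_lit 0x90508f1) (.a 2 10 13 17 false), .t 2 (nat_lit 0x8f1) (.g 17 2 0 10 13 true false), .t 2 (nat_lit 0x8f1) (.g 17 10 0 2 13 true false), .t 2 (nat_lit 0x906) (.g 0 11 2 13 17 true true), .t 2 (nat_lit 0x8ea) (.g 2 10 0 13 18 true true), .t 3 (nat_lit 0x90708ea) (.a 2 10 13 18 false), .t 2 (nat_lit 0x8ea) (.g 18 2 0 10 13 true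 false), .t 2 (nat_lit 0x8ea) (.g 18 10 0 2 13 true false), .t 2 (nat_lit 0x908) (.g 0 11 2 13 18 true true), .t 2 (nat_lit 0x909) (.g 0 11 2 13 18 true true), .t 3 (nat_lit 0x90a08ea) (.g 0 11 10 13 18 true true), .t 3 (nat_lit 0x90b08e5) (.g 10 0 2 14 15 true false), .t 3 (nat_lit 0x90c08e6) (.a 2 10 14 15 true), .t 2 (nat_lit 0x90d) (.g 0 11 2 14 15 true true), .t 3 (nat_lit 0x90e08f1) (.a 2 10 14 17 false), .t 2 (nat_lit 0x8f1) (.g 17 2 0 10 14 true false), .t 2 (nat_lit 0x8f1) (.g 17 10 0 2 14 true false), .t 3 (nat_lit 0x90f08f1) (.g 0 11 10 14 17 true true), .t 3 (nat_lit 0x91008f1) (.g 0 11 10 14 17 true true), .t 3 (nat_lit 0x91108ea) (.a 2 10 14 18 true), .t 2 (nat_lit 0x8ea) (.g 18 2 0 10 14 true false), .t 2 (nat_lit 0x8ea) (.g 18 10 0 2 14 true false), .t 2 (nat_lit 0x912) (.g 0 11 2 14 18 true true), .t 3 (nat_lit 0x91308ea) (.g 0 11 10 14 18 true true), .t 2 (nat_lit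 0x914) (.g 0 11 2 15 16 true true), .t 3 (nat_lit 0x9150900) (.g 0 11 10 15 16 true true), .t 3 (nat_lit 0x9160900) (.g 0 11 10 15 16 true true), .t 3 (nat_lit 0x91708f1) (.a 2 10 15 17 false), .t 2 (nat_lit 0x8f1) (.g 17 2 0 10 15 true false), .t 2 (nat_lit 0x8f1) (.g 17 10 0 2 15 true false), .t 2 (nat_lit 0x918) (.g 0 11 2 15 17 true true), .t 3 (nat_lit 0x91908f1) (.g 0 11 10 15 17 true true), .t 3 (nat_lit 0x91a08ea) (.a 2 10 15 18 false), .t 2 (nat_lit 0x8ea) (.g 18 10 0 2 15 true false), .t 2 (nat_lit 0x91b) (.g 0 11 2 15 18 true true), .t 3 (nat_lit 0x91c08ea) (.g 0 11 10 15 18 true true), .t 3 (nat_lit 0x91d08ea) (.g 0 11 10 15 18 true true), .t 2 (nat_lit 0x91e) (.g 0 11 10 16 17 true true), .t 2 (nat_lit 0x8f1) (.g 17 10 0 2 16 true false), .t 3 (nat_lit 0x91f08f1) (.g 0 11 10 16 17 true true), .t 2 (nat_lit 0x920) (.g 0 11 10 16 18 true true), .t 3 (nat_lit 0x92108ea)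 (.a 2 10 16 18 false), .t 2 (nat_lit 0x8ea) (.g 18 10 0 2 16 true false), .t 3 (nat_lit 0x92208ea) (.a 2 10 17 18 true), .t 2 (nat_lit 0x8ea) (.g 18 2 0 10 17 true false), .t 2 (nat_lit 0x8ea) (.g 18 10 0 2 17 true false), .t 2 (nat_lit 0x923) (.g 0 11 2 17 18 true true), .t 2 (nat_lit 0x924) (.g 0 11 2 17 18 true true), .t 1 (nat_lit 0) (.g 11 0 2 12 13 false false), .t 2 (nat_lit 0x925) (.g 12 2 0 11 13 true true), .t 1 (nat_lit 0) (.g 13 11 0 2 12 false false), .t 1 (nat_lit 0) (.st 2 11 12 13), .t 1 (nat_lit 0) (.g 11 0 2 12 14 false true), .t 1 (nat_lit 0) (.g 11 0 2 12 14 false false)] (by decide +kernel) (by decide +kernel)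
theorem b158 : B 10112 10176 := Blk.of_chk [.t 2 (nat_lit 0x926) (.g 12 14 0 2 11 true false), .t 2 (nat_lit 0x926) (.g 12 2 0 11 14 true true), .t 1 (nat_lit 0) (.g 14 12 0 2 11 false false), .t 1 (nat_lit 0) (.g 14 11 0 2 12 false false), .t 1 (nat_lit 0) (.st 2 11 12 14), .t 1 (nat_lit 0) (.st 2 11 14 12), .t 2 (nat_lit 0x927) (.g 12 15 0 2 11 true false), .t 1 (nat_lit 0) (.st 2 11 15 12), .t 1 (nat_lit 0) (.g 11 0 2 12 16 false true), .t 1 (nat_lit 0) (.g 11 0 2 12 16 false false), .t 2 (nat_lit 0x928) (.g 12 16 0 2 11 true false), .t 1 (nat_lit 0) (.st 2 11 16 12), .t 1 (nat_lit 0) (.g 11 0 2 12 17 false true), .t 1 (nat_lit 0) (.g 11 0 2 12 17 false false), .t 2 (nat_lit 0x929) (.g 12 17 0 2 11 true false), .t 2 (nat_lit 0x929) (.g 12 2 0 11 17 true true), .t 1 (nat_lit 0) (.g 17 12 0 2 11 false false), .t 1 (nat_lit 0) (.g 17 11 0 2 12 false false), .t 1 (nat_lit 0) (.st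 2 11 17 12), .t 2 (nat_lit 0x92a) (.g 12 2 0 11 18 true true), .t 1 (nat_lit 0) (.g 18 11 0 2 12 false false), .t 1 (nat_lit 0) (.g 11 0 2 13 14 false true), .t 1 (nat_lit 0) (.g 11 0 2 13 14 false true), .t 1 (nat_lit 0) (.g 11 0 2 13 14 false false), .t 2 (nat_lit 0x92b) (.g 13 14 0 2 11 true false), .t 2 (nat_lit 0x92b) (.g 13 2 0 11 14 true true), .t 1 (nat_lit 0) (.g 14 13 0 2 11 false false), .t 1 (nat_lit 0) (.g 14 11 0 2 13 false false), .t 1 (nat_lit 0) (.st 2 11 13 14), .t 1 (nat_lit 0) (.st 2 11 14 13), .t 1 (nat_lit 0) (.g 11 0 2 13 15 false true), .t 1 (nat_lit 0) (.g 11 0 2 13 15 false true), .t 1 (nat_lit 0) (.g 11 0 2 13 15 false false), .t 2 (nat_lit 0x92c) (.g 13 15 0 2 11 true false), .t 2 (nat_lit 0x92c) (.g 13 2 0 11 15 true true), .t 1 (nat_lit 0) (.g 15 13 0 2 11 false false), .t 1 (nat_lit 0) (.g 15 11 0 2 13 false false), .t 1 (nat_lit 0) (.st 2 11 15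 13), .t 1 (nat_lit 0) (.g 11 0 2 13 16 false true), .t 1 (nat_lit 0) (.g 13 16 0 2 11 true false), .t 1 (nat_lit 0) (.g 11 0 2 13 16 false true), .t 1 (nat_lit 0) (.g 11 0 2 13 16 false false), .t 2 (nat_lit 0x92d) (.g 13 16 0 2 11 true false), .t 2 (nat_lit 0x92d) (.g 13 2 0 11 16 true true), .t 1 (nat_lit 0) (.g 16 13 0 2 11 false false), .t 1 (nat_lit 0) (.g 16 11 0 2 13 false false), .t 1 (nat_lit 0) (.st 2 11 16 13), .t 1 (nat_lit 0) (.g 11 0 2 13 17 false true), .t 1 (nat_lit 0) (.g 13 17 0 2 11 true false), .t 1 (nat_lit 0) (.g 11 0 2 13 17 false true), .t 1 (nat_lit 0) (.g 11 0 2 13 17 false false), .t 2 (nat_lit 0x92e) (.g 13 17 0 2 11 true false), .t 2 (nat_lit 0x92e) (.g 13 2 0 11 17 true true), .t 1 (nat_lit 0) (.g 17 11 0 2 13 false false), .t 1 (nat_lit 0) (.g 11 0 2 13 18 false true), .t 1 (nat_lit 0) (.g 11 0 2 13 18 false true), .t 1 (nat_lit 0) (.g 11 0 2 13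 18 false false), .t 2 (nat_lit 0x92f) (.g 13 18 0 2 11 true false), .t 2 (nat_lit 0x92f) (.g 13 2 0 11 18 true true), .t 1 (nat_lit 0) (.g 18 13 0 2 11 false false), .t 1 (nat_lit 0) (.g 18 11 0 2 13 false false), .t 1 (nat_lit 0) (.st 2 11 18 13), .t 1 (nat_lit 0) (.g 11 0 2 14 15 false true), .t 1 (nat_lit 0) (.g 11 0 2 14 15 false true)] (by decide +kernel) (by decide +kernel)
theorem b159 : B 10176 10240 := Blk.of_chk [.t 1 (nat_lit 0) (.g 11 0 2 14 15 false false), .t 2 (nat_lit 0x930) (.g 14 15 0 2 11 true false), .t 2 (nat_lit 0x930) (.g 14 2 0 11 15 true true), .t 1 (nat_lit 0) (.g 15 14 0 2 11 false false), .t 1 (nat_lit 0) (.g 15 11 0 2 14 false false), .t 1 (nat_lit 0) (.st 2 11 14 15), .t 1 (nat_lit 0) (.st 2 11 15 14), .t 1 (nat_lit 0) (.g 11 0 2 14 16 false true), .t 1 (nat_lit 0) (.g 11 0 2 14 16 false false), .t 2 (nat_lit 0x931) (.g 14 16 0 2 11 true false), .t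 2 (nat_lit 0x931) (.g 14 2 0 11 16 true true), .t 1 (nat_lit 0) (.g 16 14 0 2 11 false false), .t 1 (nat_lit 0) (.g 11 0 2 14 17 false true), .t 1 (nat_lit 0) (.g 11 0 2 14 17 false false), .t 2 (nat_lit 0x932) (.g 14 17 0 2 11 true false), .t 2 (nat_lit 0x932) (.g 14 2 0 11 17 true true), .t 1 (nat_lit 0) (.g 17 14 0 2 11 false false), .t 1 (nat_lit 0) (.g 17 11 0 2 14 false false), .t 1 (nat_lit 0) (.st 2 11 17 14), .t 1 (nat_lit 0) (.g 11 0 2 14 18 false true), .t 1 (nat_lit 0) (.g 11 0 2 14 18 false true), .t 1 (nat_lit 0) (.g 11 0 2 14 18 false false), .t 2 (nat_lit 0x933) (.g 14 18 0 2 11 true false), .t 2 (nat_lit 0x933) (.g 14 2 0 11 18 true true), .t 1 (nat_lit 0) (.g 18 14 0 2 11 false false), .t 1 (nat_lit 0) (.g 18 11 0 2 14 false false), .t 1 (nat_lit 0) (.st 2 11 14 18), .t 1 (nat_lit 0) (.st 2 11 18 14), .t 1 (nat_lit 0) (.g 11 0 2 15 16 false true), .t 1 (nat_lit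 0) (.g 11 0 2 15 16 false false), .t 2 (nat_lit 0x934) (.g 15 2 0 11 16 true true), .t 1 (nat_lit 0) (.g 16 15 0 2 11 false false), .t 1 (nat_lit 0) (.g 16 11 0 2 15 false false), .t 1 (nat_lit 0) (.st 2 11 15 16), .t 1 (nat_lit 0) (.g 11 0 2 15 17 false true), .t 1 (nat_lit 0) (.g 11 0 2 15 17 false false), .t 2 (nat_lit 0x935) (.g 15 17 0 2 11 true false), .t 2 (nat_lit 0x935) (.g 15 2 0 11 17 true true), .t 1 (nat_lit 0) (.g 17 15 0 2 11 false false), .t 1 (nat_lit 0) (.g 17 11 0 2 15 false false), .t 1 (nat_lit 0) (.st 2 11 15 17), .t 1 (nat_lit 0) (.st 2 11 17 15), .t 1 (nat_lit 0) (.g 11 0 2 15 18 false true), .t 1 (nat_lit 0) (.g 11 0 2 15 18 false true), .t 1 (nat_lit 0) (.g 11 0 2 15 18 false false), .t 2 (nat_lit 0x936) (.g 15 18 0 2 11 true false), .t 2 (nat_lit 0x936) (.g 15 2 0 11 18 true true), .t 1 (nat_lit 0) (.g 18 15 0 2 11 false false), .t 1 (nat_lit 0) (.g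 18 11 0 2 15 false false), .t 1 (nat_lit 0) (.st 2 11 15 18), .t 1 (nat_lit 0) (.st 2 11 18 15), .t 1 (nat_lit 0) (.g 11 0 2 16 17 false true), .t 1 (nat_lit 0) (.g 11 0 2 16 17 false false), .t 2 (nat_lit 0x937) (.g 16 17 0 2 11 true false), .t 2 (nat_lit 0x937) (.g 16 2 0 11 17 true true), .t 1 (nat_lit 0) (.g 17 16 0 2 11 false false), .t 1 (nat_lit 0) (.g 17 11 0 2 16 false false), .t 1 (nat_lit 0) (.st 2 11 16 17), .t 1 (nat_lit 0) (.st 2 11 17 16), .t 1 (nat_lit 0) (.g 11 0 2 16 18 false true), .t 1 (nat_lit 0) (.g 11 0 2 16 18 false false), .t 2 (nat_lit 0x938) (.g 16 18 0 2 11 true false), .t 2 (nat_lit 0x938) (.g 16 2 0 11 18 true true), .t 1 (nat_lit 0) (.g 18 16 0 2 11 false false)] (by decide +kernel) (by decide +kernel)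
theorem b160 : B 10240 10304 := Blk.of_chk [.t 1 (nat_lit 0) (.g 18 11 0 2 16 false false), .t 1 (nat_lit 0) (.st 2 11 16 18), .t 1 (nat_lit 0) (.st 2 11 18 16), .t 1 (nat_lit 0) (.g 11 0 2 17 18 false true), .t 1 (nat_lit 0) (.g 11 0 2 17 18 false false), .t 2 (nat_lit 0x939) (.g 17 18 0 2 11 true false), .t 2 (nat_lit 0x939) (.g 17 2 0 11 18 true true), .t 1 (nat_lit 0) (.g 18 11 0 2 17 false false), .t 1 (nat_lit 0) (.st 2 11 17 18), .t 1 (nat_lit 0) (.st 2 11 18 17), .t 2 (nat_lit 0x926) (.g 12 0 2 13 14 false true), .t 2 (nat_lit 0x92b) (.g 13 14 0 2 12 true false), .t 2 (nat_lit 0x92b) (.g 13 2 0 12 14 true true), .t 2 (nat_lit 0x925) (.g 12 0 2 13 15 false true), .t 1 (nat_lit 0) (.g 13 15 0 2 12 true false), .t 2 (nat_lit 0x92c) (.g 13 15 0 2 12 true false), .t 2 (nat_lit 0x92c) (.g 13 2 0 12 15 true true), .t 2 (nat_lit 0x925) (.g 12 0 2 13 16 false true), .t 2 (nat_lit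 0x928) (.g 12 0 2 13 16 false true), .t 2 (nat_lit 0x928) (.g 12 0 2 13 16 false false), .t 2 (nat_lit 0x92d) (.g 13 16 0 2 12 true false), .t 2 (nat_lit 0x925) (.g 12 0 2 13 17 false true), .t 2 (nat_lit 0x929) (.g 12 0 2 13 17 false true), .t 2 (nat_lit 0x92e) (.g 13 17 0 2 12 true false), .t 2 (nat_lit 0x92e) (.g 13 2 0 12 17 true true), .t 1 (nat_lit 0) (.g 17 13 0 2 12 false false), .t 2 (nat_lit 0x925) (.g 12 0 2 13 18 false true), .t 2 (nat_lit 0x92a) (.g 12 0 2 13 18 false true), .t 2 (nat_lit 0x92f) (.g 13 18 0 2 12 true false), .t 2 (nat_lit 0x92f) (.g 13 2 0 12 18 true true), .t 1 (nat_lit 0) (.g 18 13 0 2 12 false false), .t 2 (nat_lit 0x926) (.g 12 0 2 14 15 false true), .t 2 (nat_lit 0x927) (.g 12 0 2 14 15 false true), .t 2 (nat_lit 0x930) (.g 14 15 0 2 12 true false), .t 2 (nat_lit 0x930) (.g 14 2 0 12 15 true true), .t 1 (nat_lit 0) (.g 15 14 0 2 12 false false),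 .t 1 (nat_lit 0) (.g 15 12 0 2 14 false false), .t 2 (nat_lit 0x928) (.g 12 0 2 14 16 false true), .t 2 (nat_lit 0x931) (.g 14 16 0 2 12 true false), .t 2 (nat_lit 0x931) (.g 14 2 0 12 16 true true), .t 1 (nat_lit 0) (.g 16 14 0 2 12 false false), .t 1 (nat_lit 0) (.g 16 12 0 2 14 false false), .t 2 (nat_lit 0x929) (.g 12 0 2 14 17 false true), .t 2 (nat_lit 0x932) (.g 14 17 0 2 12 true false), .t 1 (nat_lit 0) (.g 17 14 0 2 12 false false), .t 2 (nat_lit 0x92a) (.g 12 0 2 14 18 false true), .t 2 (nat_lit 0x92a) (.g 12 0 2 14 18 false false), .t 2 (nat_lit 0x933) (.g 14 18 0 2 12 true false), .t 1 (nat_lit 0) (.g 18 14 0 2 12 false false), .t 2 (nat_lit 0x928) (.g 12 0 2 15 16 false true), .t 2 (nat_lit 0x928) (.g 12 0 2 15 16 false false), .t 2 (nat_lit 0x934) (.g 15 16 0 2 12 true false), .t 2 (nat_lit 0x934) (.g 15 2 0 12 16 true true), .t 1 (nat_lit 0) (.g 16 15 0 2 12 false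 false), .t 1 (nat_lit 0) (.g 16 12 0 2 15 false false), .t 1 (nat_lit 0) (.st 2 12 16 15), .t 2 (nat_lit 0x929) (.g 12 0 2 15 17 false true), .t 2 (nat_lit 0x935) (.g 15 17 0 2 12 true false), .t 2 (nat_lit 0x935) (.g 15 2 0 12 17 true true), .t 1 (nat_lit 0) (.g 17 15 0 2 12 false false), .t 2 (nat_lit 0x92a) (.g 12 0 2 15 18 false true), .t 2 (nat_lit 0x92a) (.g 12 0 2 15 18 false false), .t 2 (nat_lit 0x936) (.g 15 2 0 12 18 true true), .t 1 (nat_lit 0) (.g 18 15 0 2 12 false false)] (by decide +kernel) (by decide +kernel)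
theorem b161 : B 10304 10368 := Blk.of_chk [.t 1 (nat_lit 0) (.st 2 12 15 18), .t 2 (nat_lit 0x929) (.g 12 0 2 16 17 false true), .t 2 (nat_lit 0x937) (.g 16 17 0 2 12 true false), .t 1 (nat_lit 0) (.g 17 16 0 2 12 false false), .t 1 (nat_lit 0) (.g 17 12 0 2 16 false false), .t 1 (nat_lit 0) (.st 2 12 17 16), .t 2 (nat_lit 0x92a) (.g 12 0 2 16 18 false true), .t 2 (nat_lit 0x92a) (.g 12 0 2 16 18 false false), .t 2 (nat_lit 0x938) (.g 16 18 0 2 12 true false), .t 1 (nat_lit 0) (.g 18 16 0 2 12 false false), .t 1 (nat_lit 0) (.g 18 12 0 2 16 false false), .t 1 (nat_lit 0) (.st 2 12 16 18), .t 2 (nat_lit 0x939) (.g 17 18 0 2 12 true false), .t 1 (nat_lit 0) (.g 18 17 0 2 12 false false), .t 1 (nat_lit 0) (.st 2 12 17 18), .t 1 (nat_lit 0) (.st 2 12 18 17), .t 2 (nat_lit 0x93a) (.g 14 13 0 2 15 false true), .t 2 (nat_lit 0x92b) (.g 13 0 2 14 15 false true), .t 2 (nat_lit 0x92c)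 (.g 13 0 2 14 15 false true), .t 2 (nat_lit 0x92c) (.g 13 0 2 14 15 false false), .t 2 (nat_lit 0x930) (.g 14 15 0 2 13 true false), .t 2 (nat_lit 0x930) (.g 14 2 0 13 15 true true), .t 1 (nat_lit 0) (.g 15 13 0 2 14 false false), .t 1 (nat_lit 0) (.g 14 13 0 2 16 false true), .t 2 (nat_lit 0x92b) (.g 13 0 2 14 16 false true), .t 1 (nat_lit 0) (.g 14 16 0 2 13 true false), .t 2 (nat_lit 0x92d) (.g 13 0 2 14 16 false true), .t 2 (nat_lit 0x92d) (.g 13 0 2 14 16 false false), .t 2 (nat_lit 0x931) (.g 14 16 0 2 13 true false), .t 2 (nat_lit 0x931) (.g 14 2 0 13 16 true true), .t 1 (nat_lit 0) (.g 16 13 0 2 14 false false), .t 2 (nat_lit 0x92b) (.g 13 0 2 14 17 false true), .t 2 (nat_lit 0x92e) (.g 13 0 2 14 17 false true), .t 2 (nat_lit 0x92e) (.g 13 0 2 14 17 false false), .t 2 (nat_lit 0x932) (.g 14 17 0 2 13 true false), .t 2 (nat_lit 0x932) (.g 14 2 0 13 17 true true), .t 2 (nat_lit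 0x92b) (.g 13 0 2 14 18 false true), .t 1 (nat_lit 0) (.g 14 18 0 2 13 true false), .t 2 (nat_lit 0x92f) (.g 13 0 2 14 18 false true), .t 2 (nat_lit 0x92f) (.g 13 0 2 14 18 false false), .t 2 (nat_lit 0x933) (.g 14 18 0 2 13 true false), .t 2 (nat_lit 0x933) (.g 14 2 0 13 18 true true), .t 1 (nat_lit 0) (.g 18 14 0 2 13 false false), .t 1 (nat_lit 0) (.g 18 13 0 2 14 false false), .t 1 (nat_lit 0) (.st 2 13 14 18), .t 2 (nat_lit 0x93b) (.g 15 13 0 2 16 false true), .t 2 (nat_lit 0x92d) (.g 13 0 2 15 16 false true), .t 2 (nat_lit 0x92d) (.g 13 0 2 15 16 false false), .t 2 (nat_lit 0x934) (.g 15 16 0 2 13 true false), .t 2 (nat_lit 0x934) (.g 15 2 0 13 16 true true), .t 1 (nat_lit 0) (.g 16 15 0 2 13 false false), .t 1 (nat_lit 0) (.g 16 13 0 2 15 false false), .t 2 (nat_lit 0x92e) (.g 13 0 2 15 17 false true), .t 2 (nat_lit 0x92e) (.g 13 0 2 15 17 false false), .t 2 (nat_lit 0x935)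 (.g 15 17 0 2 13 true false), .t 2 (nat_lit 0x935) (.g 15 2 0 13 17 true true), .t 1 (nat_lit 0) (.g 17 15 0 2 13 false false), .t 1 (nat_lit 0) (.g 17 13 0 2 15 false false), .t 2 (nat_lit 0x92c) (.g 13 0 2 15 18 false true), .t 2 (nat_lit 0x92f) (.g 13 0 2 15 18 false true), .t 2 (nat_lit 0x92f) (.g 13 0 2 15 18 false false), .t 2 (nat_lit 0x936) (.g 15 2 0 13 18 true true), .t 1 (nat_lit 0) (.g 18 15 0 2 13 false false), .t 1 (nat_lit 0) (.g 18 13 0 2 15 false false)] (by decide +kernel) (by decide +kernel)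
theorem b162 : B 10368 10432 := Blk.of_chk [.t 2 (nat_lit 0x92e) (.g 13 0 2 16 17 false true), .t 2 (nat_lit 0x92e) (.g 13 0 2 16 17 false false), .t 2 (nat_lit 0x937) (.g 16 17 0 2 13 true false), .t 1 (nat_lit 0) (.g 17 13 0 2 16 false false), .t 1 (nat_lit 0) (.st 2 13 16 17), .t 2 (nat_lit 0x92d) (.g 13 0 2 16 18 false true), .t 2 (nat_lit 0x92f) (.g 13 0 2 16 18 false true), .t 2 (nat_lit 0x92f) (.g 13 0 2 16 18 false false), .t 2 (nat_lit 0x938) (.g 16 18 0 2 13 true false), .t 1 (nat_lit 0) (.g 18 16 0 2 13 false false), .t 1 (nat_lit 0) (.g 18 13 0 2 16 false false), .t 1 (nat_lit 0) (.g 13 0 2 17 18 false true), .t 2 (nat_lit 0x92e) (.g 13 0 2 17 18 false true), .t 2 (nat_lit 0x92f) (.g 13 0 2 17 18 false true), .t 2 (nat_lit 0x92f) (.g 13 0 2 17 18 false false), .t 2 (nat_lit 0x939) (.g 17 18 0 2 13 true false), .t 2 (nat_lit 0x939) (.g 17 2 0 13 18 true true), .t 1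 (nat_lit 0) (.g 18 17 0 2 13 false false), .t 1 (nat_lit 0) (.g 18 13 0 2 17 false false), .t 1 (nat_lit 0) (.st 2 13 17 18), .t 4 (nat_lit 0x93c09310930) (.g 15 14 0 2 16 false true), .t 4 (nat_lit 0x93d09310930) (.g 15 2 0 14 16 false true), .t 2 (nat_lit 0x931) (.g 14 0 2 15 16 false true), .t 2 (nat_lit 0x934) (.g 15 2 0 14 16 true true), .t 1 (nat_lit 0) (.st 2 14 15 16), .t 1 (nat_lit 0) (.st 2 14 16 15), .t 2 (nat_lit 0x932) (.g 14 0 2 15 17 false true), .t 2 (nat_lit 0x932) (.g 14 0 2 15 17 false false), .t 2 (nat_lit 0x935) (.g 15 17 0 2 14 true false), .t 2 (nat_lit 0x935) (.g 15 2 0 14 17 true true), .t 2 (nat_lit 0x933) (.g 14 0 2 15 18 false true), .t 2 (nat_lit 0x933) (.g 14 0 2 15 18 false false), .t 2 (nat_lit 0x936) (.g 15 18 0 2 14 true false), .t 2 (nat_lit 0x936) (.g 15 2 0 14 18 true true), .t 1 (nat_lit 0) (.g 18 15 0 2 14 false false), .t 1 (nat_lit 0) (.g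 18 14 0 2 15 false false), .t 1 (nat_lit 0) (.st 2 14 15 18), .t 1 (nat_lit 0) (.g 14 16 0 2 17 true true), .t 1 (nat_lit 0) (.g 14 17 0 2 16 true true), .t 2 (nat_lit 0x932) (.g 14 0 2 16 17 false true), .t 2 (nat_lit 0x932) (.g 14 0 2 16 17 false false), .t 2 (nat_lit 0x937) (.g 16 17 0 2 14 true false), .t 2 (nat_lit 0x937) (.g 16 2 0 14 17 true true), .t 2 (nat_lit 0x933) (.g 14 0 2 16 18 false true), .t 2 (nat_lit 0x933) (.g 14 0 2 16 18 false false), .t 2 (nat_lit 0x938) (.g 16 18 0 2 14 true false), .t 2 (nat_lit 0x938) (.g 16 2 0 14 18 true true), .t 1 (nat_lit 0) (.g 18 14 0 2 16 false false), .t 1 (nat_lit 0) (.st 2 14 16 18), .t 2 (nat_lit 0x933) (.g 14 0 2 17 18 false false), .t 2 (nat_lit 0x939) (.g 17 18 0 2 14 true false), .t 2 (nat_lit 0x939) (.g 17 2 0 14 18 true true), .t 1 (nat_lit 0) (.g 18 14 0 2 17 false false), .t 1 (nat_lit 0) (.st 2 14 17 18), .t 1 (nat_lit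 0) (.st 2 14 18 17), .t 2 (nat_lit 0x934) (.g 16 15 0 2 17 false true), .t 2 (nat_lit 0x935) (.g 15 0 2 16 17 false true), .t 2 (nat_lit 0x935) (.g 15 0 2 16 17 false false), .t 2 (nat_lit 0x937) (.g 16 17 0 2 15 true false), .t 2 (nat_lit 0x937) (.g 16 2 0 15 17 true true), .t 1 (nat_lit 0) (.g 17 16 0 2 15 false false), .t 2 (nat_lit 0x934) (.g 16 15 0 2 18 false true), .t 2 (nat_lit 0x936) (.g 15 0 2 16 18 false false), .t 2 (nat_lit 0x938) (.g 16 18 0 2 15 true false)] (by decide +kernel) (by decide +kernel)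
theorem b163 : B 10432 10496 := Blk.of_chk [.t 2 (nat_lit 0x938) (.g 16 2 0 15 18 true true), .t 1 (nat_lit 0) (.st 2 15 16 18), .t 1 (nat_lit 0) (.st 2 15 18 16), .t 1 (nat_lit 0) (.g 15 18 0 2 17 true true), .t 2 (nat_lit 0x939) (.g 17 18 0 2 15 true false), .t 2 (nat_lit 0x939) (.g 17 2 0 15 18 true true), .t 1 (nat_lit 0) (.g 18 15 0 2 17 false false), .t 1 (nat_lit 0) (.st 2 15 17 18), .t 1 (nat_lit 0) (.st 2 15 18 17), .t 2 (nat_lit 0x939) (.g 17 18 0 2 16 true false), .t 1 (nat_lit 0) (.g 5 4 0 3 10 false true), .t 1 (nat_lit 0) (.g 5 0 3 4 11 true true), .t 1 (nat_lit 0) (.g 3 4 0 5 12 true false), .t 2 (nat_lit 0x93e) (.g 0 11 3 4 12 true true), .t 2 (nat_lit 0x93f) (.g 0 11 3 5 12 true true), .t 2 (nat_lit 0x940) (.g 0 11 3 5 13 true true), .t 2 (nat_lit 0x941) (.g 0 11 3 4 14 true true), .t 1 (nat_lit 0) (.g 5 4 0 3 15 false true), .t 1 (nat_lit 0) (.g 5 4 0 3 17 false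 true), .t 2 (nat_lit 0x942) (.g 0 11 3 5 18 true true), .t 2 (nat_lit 0x943) (.g 0 11 3 5 18 true true), .t 1 (nat_lit 0) (.g 6 0 3 4 11 true true), .t 2 (nat_lit 0x944) (.g 0 11 3 6 12 true true), .t 2 (nat_lit 0x945) (.g 0 11 3 4 13 true true), .t 2 (nat_lit 0x946) (.g 0 11 3 6 13 true true), .t 2 (nat_lit 0x947) (.g 0 11 3 4 14 true true), .t 2 (nat_lit 0x948) (.g 0 11 3 6 14 true true), .t 1 (nat_lit 0) (.g 6 0 3 4 15 true true), .t 2 (nat_lit 0x949) (.g 0 11 3 6 16 true true), .t 1 (nat_lit 0) (.g 6 4 0 3 16 false true), .t 2 (nat_lit 0x94a) (.g 0 11 3 6 17 true true), .t 1 (nat_lit 0) (.g 6 4 0 3 18 false true), .t 1 (nat_lit 0) (.g 7 0 3 4 11 true true), .t 2 (nat_lit 0x94b) (.g 0 11 3 7 12 true true), .t 2 (nat_lit 0x94c) (.g 0 11 3 7 13 true true), .t 1 (nat_lit 0) (.g 3 4 0 7 14 true false), .t 2 (nat_lit 0x94d) (.g 0 11 3 4 14 true true), .t 2 (nat_lit 0x94e) (.g 0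 11 3 7 14 true true), .t 2 (nat_lit 0x94f) (.g 0 11 4 7 15 true true), .t 1 (nat_lit 0) (.g 7 4 0 3 15 false true), .t 2 (nat_lit 0x950) (.g 0 11 3 7 16 true true), .t 1 (nat_lit 0) (.g 7 4 0 3 16 false true), .t 1 (nat_lit 0) (.g 7 0 3 4 16 true true), .t 1 (nat_lit 0) (.g 3 4 0 7 16 true false), .t 2 (nat_lit 0x951) (.g 0 11 3 7 16 true true), .t 2 (nat_lit 0x952) (.g 0 11 4 7 17 true true), .t 1 (nat_lit 0) (.g 7 4 0 3 17 false true), .t 2 (nat_lit 0x953) (.g 0 11 3 4 17 true true), .t 2 (nat_lit 0x954) (.g 0 11 3 7 17 true true), .t 2 (nat_lit 0x955) (.g 0 11 3 7 18 true true), .t 2 (nat_lit 0x956) (.g 0 11 4 7 18 true true), .t 1 (nat_lit 0) (.g 7 4 0 3 18 false true), .t 1 (nat_lit 0) (.g 4 3 0 7 18 false false), .t 2 (nat_lit 0x955) (.g 4 3 0 7 18 false false), .t 2 (nat_lit 0x957) (.g 0 11 3 4 18 true true), .t 1 (nat_lit 0) (.g 8 0 3 4 11 true true), .t 2 (nat_lit 0x958)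 (.g 0 11 3 8 12 true true), .t 2 (nat_lit 0x959) (.g 0 11 3 8 13 true true), .t 1 (nat_lit 0) (.g 3 4 0 8 14 true false), .t 2 (nat_lit 0x95a) (.g 0 11 3 4 14 true true), .t 2 (nat_lit 0x95b) (.g 0 11 3 8 14 true true), .t 2 (nat_lit 0x95c) (.g 0 11 4 8 16 true true), .t 1 (nat_lit 0) (.g 8 4 0 3 16 false true), .t 1 (nat_lit 0) (.g 3 4 0 8 16 true false)] (by decide +kernel) (by decide +kernel)
theorem b164 : B 10496 10560 := Blk.of_chk [.t 2 (nat_lit 0x95d) (.g 0 11 3 4 16 true true), .t 2 (nat_lit 0x95e) (.g 0 11 3 8 16 true true), .t 2 (nat_lit 0x95f) (.g 0 11 4 8 17 true true), .t 1 (nat_lit 0) (.g 8 4 0 3 17 false true), .t 1 (nat_lit 0) (.g 8 0 3 4 17 true true), .t 1 (nat_lit 0) (.g 8 4 0 3 18 false true), .t 1 (nat_lit 0) (.g 8 0 3 4 18 true true), .t 1 (nat_lit 0) (.g 8 0 3 4 18 true true), .t 1 (nat_lit 0) (.g 3 4 0 8 18 true false), .t 2 (nat_lit 0x960) (.g 0 11 3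 8 18 true true), .t 1 (nat_lit 0) (.g 3 4 0 9 11 true false), .t 1 (nat_lit 0) (.g 9 0 3 4 11 true true), .t 2 (nat_lit 0x961) (.g 0 11 3 9 12 true true), .t 1 (nat_lit 0) (.g 3 4 0 9 13 true false), .t 2 (nat_lit 0x962) (.g 0 11 3 9 13 true true), .t 1 (nat_lit 0) (.g 3 4 0 9 14 true false), .t 2 (nat_lit 0x963) (.g 0 11 3 4 14 true true), .t 2 (nat_lit 0x964) (.g 0 11 3 9 14 true true), .t 1 (nat_lit 0) (.g 3 4 0 9 15 true false), .t 2 (nat_lit 0x965) (.g 0 11 3 9 15 true true), .t 1 (nat_lit 0) (.g 3 4 0 9 16 true false), .t 1 (nat_lit 0) (.g 3 4 0 9 16 true false), .t 2 (nat_lit 0x966) (.g 0 11 3 4 16 true true), .t 2 (nat_lit 0x967) (.g 0 11 3 9 16 true true), .t 2 (nat_lit 0x968) (.g 0 11 3 9 17 true true), .t 1 (nat_lit 0) (.g 9 0 3 4 18 true true), .t 2 (nat_lit 0x969) (.g 0 11 3 4 18 true true), .t 2 (nat_lit 0x96a) (.g 0 11 3 9 18 true true), .t 1 (nat_lit 0) (.g 4 3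 0 10 11 false false), .t 1 (nat_lit 0) (.g 10 0 3 4 11 true true), .t 1 (nat_lit 0) (.g 3 4 0 10 13 true false), .t 2 (nat_lit 0x96b) (.g 0 11 3 4 13 true true), .t 2 (nat_lit 0x96c) (.g 0 11 3 4 14 true true), .t 2 (nat_lit 0x96d) (.g 0 11 3 4 15 true true), .t 2 (nat_lit 0x96e) (.g 0 11 3 10 16 true true), .t 1 (nat_lit 0) (.g 10 0 3 4 18 true true), .t 2 (nat_lit 0x96f) (.g 0 11 3 4 18 true true), .t 2 (nat_lit 0x970) (.g 0 11 3 10 18 true true), .t 1 (nat_lit 0) (.g 11 0 3 4 12 false false), .t 2 (nat_lit 0x971) (.g 11 0 3 4 12 false false), .t 1 (nat_lit 0) (.g 11 0 3 4 13 false false), .t 2 (nat_lit 0x972) (.g 11 0 3 4 13 false true), .t 2 (nat_lit 0x973) (.g 4 0 3 11 13 true true), .t 2 (nat_lit 0x973) (.g 4 0 3 11 13 true false), .t 1 (nat_lit 0) (.g 11 0 3 4 14 false false), .t 2 (nat_lit 0x974) (.g 11 0 3 4 14 false true), .t 2 (nat_lit 0x975) (.g 4 0 3 11 14 true false),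 .t 2 (nat_lit 0x976) (.g 3 4 0 11 15 true true), .t 1 (nat_lit 0) (.g 3 15 0 4 11 false false), .t 2 (nat_lit 0x976) (.g 4 0 3 11 15 true true), .t 1 (nat_lit 0) (.g 11 0 3 4 16 false false), .t 2 (nat_lit 0x977) (.g 3 4 0 11 16 true true), .t 1 (nat_lit 0) (.g 11 0 3 4 16 false false), .t 2 (nat_lit 0x977) (.g 4 0 3 11 16 true false), .t 2 (nat_lit 0x978) (.g 3 4 0 11 17 true true), .t 2 (nat_lit 0x979) (.g 11 0 3 4 17 false true), .t 2 (nat_lit 0x97a) (.g 11 0 3 4 17 false false), .t 1 (nat_lit 0) (.g 11 0 3 4 18 false false), .t 2 (nat_lit 0x97b) (.g 3 4 0 11 18 true true), .t 1 (nat_lit 0) (.g 4 3 0 11 18 false true), .t 1 (nat_lit 0) (.g 11 0 3 4 18 false true), .t 1 (nat_lit 0) (.g 11 0 3 4 18 false false), .t 2 (nat_lit 0x97c) (.g 11 0 3 4 18 false true), .t 2 (nat_lit 0x97d) (.g 11 0 3 4 18 false false)] (by decide +kernel) (by decide +kernel)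
theorem b165 : B 10560 10624 := Blk.of_chk [.t 3 (nat_lit 0x97e0973) (.a 3 4 12 13 false), .t 2 (nat_lit 0x973) (.g 13 4 0 3 12 true false), .t 3 (nat_lit 0x97f0973) (.g 0 11 4 12 13 true true), .t 3 (nat_lit 0x9800973) (.g 0 11 4 12 13 true true), .t 3 (nat_lit 0x9810975) (.a 3 4 12 14 true), .t 2 (nat_lit 0x975) (.g 14 3 0 4 12 true false), .t 2 (nat_lit 0x975) (.g 14 4 0 3 12 true false), .t 3 (nat_lit 0x9820975) (.g 0 11 4 12 14 true true), .t 3 (nat_lit 0x9830976) (.a 3 4 12 15 false), .t 2 (nat_lit 0x976) (.g 15 4 0 3 12 true false), .t 2 (nat_lit 0x984) (.g 0 11 3 12 15 true true), .t 3 (nat_lit 0x9850976) (.g 0 11 4 12 15 true true), .t 2 (nat_lit 0x986) (.g 12 0 3 4 16 false false), .t 2 (nat_lit 0x977) (.g 3 4 0 12 16 true true), .t 3 (nat_lit 0x9870977) (.a 3 4 12 16 false), .t 2 (nat_lit 0x977) (.g 16 4 0 3 12 true false), .t 2 (nat_lit 0x986) (.g 4 3 0 12 17 false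 true), .t 2 (nat_lit 0x978) (.g 17 3 0 4 12 true false), .t 2 (nat_lit 0x978) (.g 17 4 0 3 12 true false), .t 2 (nat_lit 0x988) (.g 0 11 3 12 17 true true), .t 2 (nat_lit 0x989) (.g 0 11 3 12 17 true true), .t 2 (nat_lit 0x97b) (.g 3 4 0 12 18 true true), .t 2 (nat_lit 0x986) (.g 4 3 0 12 18 false true), .t 3 (nat_lit 0x98a097b) (.a 3 4 12 18 true), .t 2 (nat_lit 0x97b) (.g 18 3 0 4 12 true false), .t 2 (nat_lit 0x97b) (.g 18 4 0 3 12 true false), .t 2 (nat_lit 0x98b) (.g 0 11 3 12 18 true true), .t 2 (nat_lit 0x98c) (.g 0 11 3 12 18 true true), .t 3 (nat_lit 0x98d0975) (.a 3 4 13 14 true), .t 3 (nat_lit 0x98e0975) (.a 3 4 13 14 false), .t 2 (nat_lit 0x975) (.g 14 3 0 4 13 true false), .t 2 (nat_lit 0x975) (.g 14 4 0 3 13 true false), .t 2 (nat_lit 0x98f) (.g 0 11 3 13 14 true true), .t 3 (nat_lit 0x9900975) (.g 0 11 4 13 14 true true), .t 3 (nat_lit 0x9910975) (.g 0 11 4 13 14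 true true), .t 2 (nat_lit 0x973) (.g 13 0 3 4 15 false false), .t 3 (nat_lit 0x9920976) (.a 3 4 13 15 true), .t 2 (nat_lit 0x976) (.g 15 3 0 4 13 true false), .t 3 (nat_lit 0x9930976) (.g 0 11 4 13 15 true true), .t 2 (nat_lit 0x973) (.g 13 0 3 4 16 false false), .t 2 (nat_lit 0x977) (.g 3 4 0 13 16 true true), .t 2 (nat_lit 0x973) (.g 4 3 0 13 16 false true), .t 3 (nat_lit 0x9940977) (.g 0 11 4 13 16 true true), .t 2 (nat_lit 0x973) (.g 13 0 3 4 17 false false), .t 2 (nat_lit 0x973) (.g 4 3 0 13 17 false true), .t 3 (nat_lit 0x9950978) (.a 3 4 13 17 true), .t 2 (nat_lit 0x978) (.g 17 3 0 4 13 true false), .t 2 (nat_lit 0x978) (.g 17 4 0 3 13 true false), .t 2 (nat_lit 0x996) (.g 0 11 3 13 17 true true), .t 3 (nat_lit 0x9970978) (.g 0 11 4 13 17 true true), .t 2 (nat_lit 0x973) (.g 13 0 3 4 18 false false), .t 2 (nat_lit 0x97b) (.g 3 4 0 13 18 true true), .t 2 (nat_lit 0x973)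 (.g 4 3 0 13 18 false true), .t 3 (nat_lit 0x9980973) (.g 13 0 3 4 18 false false), .t 2 (nat_lit 0x97b) (.g 18 3 0 4 13 true false), .t 2 (nat_lit 0x97b) (.g 18 4 0 3 13 true false), .t 2 (nat_lit 0x999) (.g 0 11 3 13 18 true true), .t 2 (nat_lit 0x975) (.g 14 0 3 4 15 false false), .t 2 (nat_lit 0x975) (.g 4 3 0 14 15 false true), .t 3 (nat_lit 0x99a0976) (.a 3 4 14 15 false), .t 2 (nat_lit 0x976) (.g 15 3 0 4 14 true false), .t 2 (nat_lit 0x976) (.g 15 4 0 3 14 true false), .t 3 (nat_lit 0x99b0976) (.g 0 11 4 14 15 true true), .t 2 (nat_lit 0x99c) (.g 0 11 4 14 16 true true)] (by decide +kernel) (by decide +kernel)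
theorem b166 : B 10624 10688 := Blk.of_chk [.t 2 (nat_lit 0x975) (.g 14 0 3 4 16 false false), .t 2 (nat_lit 0x975) (.g 4 3 0 14 16 false true), .t 3 (nat_lit 0x99d0977) (.a 3 4 14 16 false), .t 2 (nat_lit 0x977) (.g 16 3 0 4 14 true false), .t 2 (nat_lit 0x99e) (.g 0 11 3 14 16 true true), .t 2 (nat_lit 0x975) (.g 14 0 3 4 17 false false), .t 3 (nat_lit 0x99f0978) (.a 3 4 14 17 true), .t 3 (nat_lit 0x9a00978) (.a 3 4 14 17 false), .t 2 (nat_lit 0x978) (.g 17 3 0 4 14 true false), .t 2 (nat_lit 0x978) (.g 17 4 0 3 14 true false), .t 2 (nat_lit 0x9a1) (.g 0 11 3 14 17 true true), .t 3 (nat_lit 0x9a20978) (.g 0 11 4 14 17 true true), .t 3 (nat_lit 0x9a30978) (.g 0 11 4 14 17 true true), .t 2 (nat_lit 0x9a4) (.g 0 11 4 14 18 true true), .t 2 (nat_lit 0x975) (.g 14 0 3 4 18 false false), .t 2 (nat_lit 0x97b) (.g 3 4 0 14 18 true true), .t 2 (nat_lit 0x975) (.g 4 3 0 14 18 false true),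 .t 3 (nat_lit 0x9a50975) (.g 14 0 3 4 18 false false), .t 1 (nat_lit 0) (.g 3 18 0 4 14 true false), .t 3 (nat_lit 0x9a6097b) (.a 3 4 14 18 true), .t 3 (nat_lit 0x9a7097b) (.a 3 4 14 18 false), .t 2 (nat_lit 0x97b) (.g 18 3 0 4 14 true false), .t 2 (nat_lit 0x9a8) (.g 0 11 3 14 18 true true), .t 3 (nat_lit 0x9a90976) (.a 3 4 15 16 false), .t 3 (nat_lit 0x9aa0977) (.g 4 3 0 15 16 false true), .t 2 (nat_lit 0x9ab) (.g 0 11 4 15 16 true true), .t 2 (nat_lit 0x9ac) (.g 0 11 3 15 16 true true), .t 2 (nat_lit 0x976) (.g 4 3 0 15 16 false true), .t 3 (nat_lit 0x9ad0976) (.g 15 0 3 4 16 false false), .t 1 (nat_lit 0) (.g 3 16 0 4 15 true false), .t 2 (nat_lit 0x9ae) (.g 0 11 3 15 16 true true), .t 3 (nat_lit 0x9af0977) (.g 0 11 4 15 16 true true), .t 2 (nat_lit 0x9b0) (.g 0 11 3 15 17 true true), .t 2 (nat_lit 0x978) (.g 17 3 0 4 15 true false), .t 2 (nat_lit 0x978) (.g 17 4 0 3 15 true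 false), .t 2 (nat_lit 0x9b1) (.g 0 11 3 15 17 true true), .t 2 (nat_lit 0x9b2) (.g 0 11 3 15 17 true true), .t 3 (nat_lit 0x9b30978) (.g 0 11 4 15 17 true true), .t 2 (nat_lit 0x9b4) (.g 0 11 3 15 18 true true), .t 2 (nat_lit 0x97b) (.g 3 4 0 15 18 true true), .t 2 (nat_lit 0x976) (.g 4 3 0 15 18 false true), .t 3 (nat_lit 0x9b5097b) (.a 3 4 15 18 true), .t 2 (nat_lit 0x97b) (.g 18 3 0 4 15 true false), .t 2 (nat_lit 0x97b) (.g 18 4 0 3 15 true false), .t 2 (nat_lit 0x9b6) (.g 0 11 3 15 18 true true), .t 2 (nat_lit 0x9b7) (.g 0 11 4 16 17 true true), .t 2 (nat_lit 0x9b8) (.g 0 11 4 16 17 true true), .t 2 (nat_lit 0x9b9) (.g 0 11 3 16 17 true true), .t 3 (nat_lit 0x9ba0978) (.a 3 4 16 17 false), .t 2 (nat_lit 0x978) (.g 17 3 0 4 16 true false), .t 2 (nat_lit 0x978) (.g 17 4 0 3 16 true false), .t 2 (nat_lit 0x9bb) (.g 0 11 3 16 17 true true), .t 2 (nat_lit 0x9bc) (.g 0 11 3 16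 17 true true), .t 3 (nat_lit 0x9bd0978) (.g 0 11 4 16 17 true true), .t 3 (nat_lit 0x9be0978) (.g 0 11 4 16 17 true true), .t 2 (nat_lit 0x9bf) (.g 0 11 4 16 18 true true), .t 2 (nat_lit 0x9c0) (.g 0 11 3 16 18 true true), .t 2 (nat_lit 0x97b) (.g 3 4 0 16 18 true true), .t 2 (nat_lit 0x977) (.g 4 3 0 16 18 false true), .t 3 (nat_lit 0x9c1097b) (.a 3 4 16 18 true), .t 3 (nat_lit 0x9c2097b) (.a 3 4 16 18 false), .t 2 (nat_lit 0x97b) (.g 18 3 0 4 16 true false), .t 2 (nat_lit 0x9c3) (.g 0 11 3 16 18 true true), .t 2 (nat_lit 0x9c4) (.g 0 11 3 16 18 true true)] (by decide +kernel) (by decide +kernel)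
theorem b167 : B 10688 10752 := Blk.of_chk [.t 2 (nat_lit 0x9c5) (.g 0 11 4 17 18 true true), .t 2 (nat_lit 0x9c6) (.g 0 11 4 17 18 true true), .t 2 (nat_lit 0x9c7) (.g 0 11 4 17 18 true true), .t 2 (nat_lit 0x9c8) (.g 0 11 4 17 18 true true), .t 2 (nat_lit 0x978) (.g 4 3 0 17 18 false true), .t 1 (nat_lit 0) (.st 18 0 3 4), .t 3 (nat_lit 0x9c9097b) (.a 3 4 17 18 true), .t 3 (nat_lit 0x9ca097b) (.a 3 4 17 18 false), .t 2 (nat_lit 0x97b) (.g 18 3 0 4 17 true false), .t 2 (nat_lit 0x97b) (.g 18 4 0 3 17 true false), .t 2 (nat_lit 0x9cb) (.g 0 11 3 17 18 true true), .t 1 (nat_lit 0) (.g 7 0 3 5 6 true false), .t 1 (nat_lit 0) (.g 5 6 0 3 8 true true), .t 1 (nat_lit 0) (.g 5 8 0 3 6 true true), .t 1 (nat_lit 0) (.g 5 9 0 3 6 true true), .t 1 (nat_lit 0) (.g 3 5 0 6 11 true false), .t 1 (nat_lit 0) (.st 13 3 6 5), .t 1 (nat_lit 0) (.g 3 5 0 6 13 true false), .t 2 (nat_lit 0x9cc) (.g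 0 11 3 6 13 true true), .t 1 (nat_lit 0) (.st 14 3 6 5), .t 1 (nat_lit 0) (.g 3 5 0 6 14 true false), .t 1 (nat_lit 0) (.g 3 0 5 7 10 false true), .t 1 (nat_lit 0) (.g 3 5 0 7 11 true false), .t 1 (nat_lit 0) (.g 5 3 0 7 11 false false), .t 2 (nat_lit 0x9cd) (.g 0 11 3 5 12 true true), .t 2 (nat_lit 0x9ce) (.g 0 11 3 7 12 true true), .t 1 (nat_lit 0) (.g 3 5 0 7 13 true false), .t 2 (nat_lit 0x9cf) (.g 0 11 3 5 13 true true), .t 1 (nat_lit 0) (.g 3 5 0 7 14 true false), .t 2 (nat_lit 0x9d0) (.g 0 11 3 5 14 true true), .t 2 (nat_lit 0x9d1) (.g 0 11 3 7 16 true true), .t 2 (nat_lit 0x9d2) (.g 3 0 5 7 16 false false), .t 1 (nat_lit 0) (.g 5 16 0 3 7 false true), .t 2 (nat_lit 0x9d3) (.g 5 16 0 3 7 false true), .t 1 (nat_lit 0) (.g 5 17 0 3 7 false true), .t 2 (nat_lit 0x9d4) (.g 5 17 0 3 7 false true), .t 2 (nat_lit 0x9d5) (.g 0 11 3 7 18 true true), .t 2 (nat_lit 0x9d6) (.g 0 11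 5 7 18 true true), .t 2 (nat_lit 0x9d7) (.g 0 11 3 5 18 true true), .t 1 (nat_lit 0) (.g 3 0 5 8 10 false true), .t 1 (nat_lit 0) (.g 3 5 0 8 11 true false), .t 1 (nat_lit 0) (.g 3 8 0 5 11 true false), .t 2 (nat_lit 0x9d8) (.g 0 11 3 5 12 true true), .t 1 (nat_lit 0) (.g 3 5 0 8 13 true false), .t 1 (nat_lit 0) (.g 3 8 0 5 13 true false), .t 1 (nat_lit 0) (.g 3 5 0 8 14 true false), .t 2 (nat_lit 0x9d9) (.g 5 15 0 3 8 false true), .t 2 (nat_lit 0x9da) (.g 0 11 3 8 16 true true), .t 2 (nat_lit 0x9db) (.g 3 0 5 8 16 false false), .t 1 (nat_lit 0) (.g 5 16 0 3 8 false true), .t 2 (nat_lit 0x9dc) (.g 0 11 3 5 16 true true), .t 2 (nat_lit 0x9dd) (.g 5 17 0 3 8 false true), .t 2 (nat_lit 0x9de) (.g 0 11 3 5 17 true true), .t 2 (nat_lit 0x9df) (.g 0 11 3 8 18 true true), .t 1 (nat_lit 0) (.g 8 5 0 3 18 false true), .t 1 (nat_lit 0) (.g 8 3 0 5 18 false true), .t 2 (nat_lit 0x9e0) (.g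 0 11 3 8 18 true true), .t 1 (nat_lit 0) (.g 3 5 0 9 11 true false), .t 1 (nat_lit 0) (.g 9 0 3 5 11 true true), .t 2 (nat_lit 0x9e1) (.g 0 11 3 9 12 true true), .t 1 (nat_lit 0) (.g 3 5 0 9 13 true false), .t 2 (nat_lit 0x9e2) (.g 0 11 3 9 13 true true), .t 1 (nat_lit 0) (.g 3 5 0 9 14 true false), .t 1 (nat_lit 0) (.g 3 5 0 9 14 true false)] (by decide +kernel) (by decide +kernel)
theorem b168 : B 10752 10816 := Blk.of_chk [.t 2 (nat_lit 0x9e3) (.g 0 11 3 5 14 true true), .t 2 (nat_lit 0x9e4) (.g 0 11 3 9 14 true true), .t 1 (nat_lit 0) (.g 3 5 0 9 15 true false), .t 2 (nat_lit 0x9e5) (.g 0 11 3 9 15 true true), .t 1 (nat_lit 0) (.g 3 5 0 9 16 true false), .t 2 (nat_lit 0x9e6) (.g 0 11 3 9 16 true true), .t 1 (nat_lit 0) (.g 9 0 3 5 17 true true), .t 1 (nat_lit 0) (.g 3 5 0 9 17 true false), .t 2 (nat_lit 0x9e7) (.g 0 11 3 9 17 true true), .t 1 (nat_lit 0) (.g 3 5 0 9 18 true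 false), .t 2 (nat_lit 0x9e8) (.g 0 11 3 9 18 true true), .t 1 (nat_lit 0) (.st 11 3 5 10), .t 1 (nat_lit 0) (.g 3 5 0 10 13 true false), .t 1 (nat_lit 0) (.g 3 5 0 10 16 true false), .t 2 (nat_lit 0x9e9) (.g 5 17 0 3 10 false true), .t 1 (nat_lit 0) (.g 11 0 3 5 12 false false), .t 1 (nat_lit 0) (.g 3 11 0 5 12 false false), .t 2 (nat_lit 0x9ea) (.g 5 0 3 11 12 true false), .t 1 (nat_lit 0) (.g 3 13 0 5 11 false false), .t 1 (nat_lit 0) (.g 3 11 0 5 13 false false), .t 2 (nat_lit 0x9eb) (.g 5 0 3 11 13 true false), .t 2 (nat_lit 0x9ec) (.g 11 0 3 5 14 false true), .t 2 (nat_lit 0x9ed) (.g 11 0 3 5 14 false false), .t 2 (nat_lit 0x9ee) (.g 3 5 0 11 15 true true), .t 1 (nat_lit 0) (.g 11 0 3 5 15 false true), .t 1 (nat_lit 0) (.g 11 0 3 5 15 false false), .t 2 (nat_lit 0x9ee) (.g 5 0 3 11 15 true true), .t 2 (nat_lit 0x9ef) (.g 3 5 0 11 16 true true), .t 1 (nat_lit 0) (.g 11 0 3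 5 16 false false), .t 2 (nat_lit 0x9f0) (.g 11 0 3 5 16 false true), .t 2 (nat_lit 0x9f1) (.g 3 5 0 11 17 true true), .t 2 (nat_lit 0x9f1) (.g 5 0 3 11 17 true true), .t 1 (nat_lit 0) (.g 11 0 3 5 18 false true), .t 2 (nat_lit 0x9f2) (.g 5 0 3 11 18 true true), .t 2 (nat_lit 0x9f3) (.g 0 11 3 12 13 true true), .t 3 (nat_lit 0x9f409eb) (.g 0 11 5 12 13 true true), .t 2 (nat_lit 0x9f5) (.g 14 3 0 5 12 true false), .t 2 (nat_lit 0x9f6) (.g 0 11 3 12 14 true true), .t 3 (nat_lit 0x9f709f5) (.g 0 11 5 12 14 true true), .t 2 (nat_lit 0x9ef) (.g 3 5 0 12 16 true true), .t 2 (nat_lit 0x9f8) (.g 0 11 3 12 16 true true), .t 3 (nat_lit 0x9f909ef) (.g 0 11 5 12 16 true true), .t 2 (nat_lit 0x9fa) (.g 0 11 3 12 17 true true), .t 3 (nat_lit 0x9fb09f1) (.g 0 11 5 12 17 true true), .t 3 (nat_lit 0x9fc09f5) (.a 3 5 13 14 true), .t 3 (nat_lit 0x9fd09f5) (.a 3 5 13 14 false), .t 2 (nat_lit 0x9f5)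 (.g 14 3 0 5 13 true false), .t 2 (nat_lit 0x9f5) (.g 14 5 0 3 13 true false), .t 2 (nat_lit 0x9fe) (.g 0 11 3 13 14 true true), .t 2 (nat_lit 0x9eb) (.g 5 3 0 13 16 false true), .t 2 (nat_lit 0x9ff) (.g 0 11 3 13 18 true true), .t 2 (nat_lit 0x9f5) (.g 5 3 0 14 15 false true), .t 3 (nat_lit 0xa0009ee) (.a 3 5 14 15 false), .t 2 (nat_lit 0x9ee) (.g 15 3 0 5 14 true false), .t 2 (nat_lit 0x9ef) (.g 3 5 0 14 16 true true), .t 2 (nat_lit 0x9f5) (.g 5 3 0 14 16 false true), .t 3 (nat_lit 0xa0109ef) (.a 3 5 14 16 true), .t 2 (nat_lit 0x9f5) (.g 5 3 0 14 17 false true), .t 3 (nat_lit 0xa0209f1) (.a 3 5 14 17 true), .t 3 (nat_lit 0xa0309f1) (.a 3 5 14 17 false), .t 2 (nat_lit 0xa04) (.g 0 11 3 14 17 true true), .t 2 (nat_lit 0x9f5) (.g 5 3 0 14 18 false true), .t 3 (nat_lit 0xa0509f5) (.g 5 0 3 14 18 true false), .t 3 (nat_lit 0xa0609f2) (.a 3 5 14 18 true)] (by decide +kernel) (by decide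 +kernel)
theorem b169 : B 10816 10880 := Blk.of_chk [.t 3 (nat_lit 0xa0709f2) (.a 3 5 14 18 false), .t 2 (nat_lit 0x9f2) (.g 18 3 0 5 14 true false), .t 2 (nat_lit 0xa08) (.g 0 11 3 14 18 true true), .t 2 (nat_lit 0xa09) (.g 0 11 3 15 16 true true), .t 2 (nat_lit 0xa0a) (.g 0 11 3 15 17 true true), .t 3 (nat_lit 0xa0b09f1) (.a 3 5 15 17 false), .t 2 (nat_lit 0x9f1) (.g 17 3 0 5 15 true false), .t 2 (nat_lit 0xa0c) (.g 0 11 3 15 17 true true), .t 3 (nat_lit 0xa0d09f1) (.g 0 11 5 15 17 true true), .t 3 (nat_lit 0xa0e09f2) (.a 3 5 15 18 false), .t 3 (nat_lit 0xa0f09f2) (.g 0 11 5 15 18 true true), .t 3 (nat_lit 0xa1009f1) (.a 3 5 16 17 false), .t 2 (nat_lit 0xa11) (.g 0 11 3 16 17 true true), .t 3 (nat_lit 0xa1209f1) (.g 0 11 5 16 17 true true), .t 3 (nat_lit 0xa1309f1) (.g 0 11 5 16 17 true true), .t 2 (nat_lit 0xa14) (.g 0 11 5 16 18 true true), .t 3 (nat_lit 0xa1509f2) (.a 3 5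 16 18 false), .t 2 (nat_lit 0x9f2) (.g 18 3 0 5 16 true false), .t 3 (nat_lit 0xa1609f2) (.g 0 11 5 16 18 true true), .t 2 (nat_lit 0x9f2) (.g 18 3 0 5 17 true false), .t 2 (nat_lit 0xa17) (.g 0 11 3 17 18 true true), .t 3 (nat_lit 0xa1809f2) (.g 0 11 5 17 18 true true), .t 1 (nat_lit 0) (.g 3 0 6 7 10 false true), .t 1 (nat_lit 0) (.g 3 6 0 7 11 true false), .t 1 (nat_lit 0) (.g 3 7 0 6 11 true false), .t 2 (nat_lit 0xa19) (.g 0 11 3 6 12 true true), .t 1 (nat_lit 0) (.g 3 6 0 7 13 true false), .t 2 (nat_lit 0xa1a) (.g 0 11 3 6 13 true true), .t 2 (nat_lit 0xa1b) (.g 0 11 3 7 13 true true), .t 1 (nat_lit 0) (.g 3 6 0 7 14 true false), .t 2 (nat_lit 0xa1c) (.g 0 11 3 6 14 true true), .t 2 (nat_lit 0xa1d) (.g 0 11 3 7 15 true true), .t 1 (nat_lit 0) (.g 7 6 0 3 15 false true), .t 2 (nat_lit 0xa1e) (.g 0 11 6 7 16 true true), .t 1 (nat_lit 0) (.g 3 0 6 7 16 false false), .t 2 (nat_lit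 0xa1f) (.g 6 3 0 7 16 false false), .t 2 (nat_lit 0xa20) (.g 0 11 6 7 17 true true), .t 2 (nat_lit 0xa21) (.g 6 3 0 7 17 false false), .t 1 (nat_lit 0) (.g 3 0 6 8 10 false true), .t 1 (nat_lit 0) (.g 3 8 0 6 11 true false), .t 1 (nat_lit 0) (.g 3 6 0 8 13 true false), .t 1 (nat_lit 0) (.g 3 6 0 8 14 true false), .t 2 (nat_lit 0xa22) (.g 0 11 3 6 14 true true), .t 2 (nat_lit 0xa23) (.g 0 11 3 8 14 true true), .t 2 (nat_lit 0xa24) (.g 6 15 0 3 8 false true), .t 1 (nat_lit 0) (.g 6 16 0 3 8 false true), .t 2 (nat_lit 0xa25) (.g 0 11 3 6 16 true true), .t 1 (nat_lit 0) (.g 6 17 0 3 8 false true), .t 2 (nat_lit 0xa26) (.g 0 11 3 6 17 true true), .t 2 (nat_lit 0xa27) (.g 0 11 3 8 17 true true), .t 1 (nat_lit 0) (.g 8 3 0 6 18 false true), .t 1 (nat_lit 0) (.g 3 6 0 9 11 true false), .t 1 (nat_lit 0) (.g 9 0 3 6 11 true true), .t 2 (nat_lit 0xa28) (.g 0 11 3 9 12 true true), .t 1 (nat_lit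 0) (.g 3 6 0 9 13 true false), .t 1 (nat_lit 0) (.g 3 6 0 9 13 true false), .t 2 (nat_lit 0xa29) (.g 0 11 3 6 13 true true), .t 2 (nat_lit 0xa2a) (.g 0 11 3 9 13 true true), .t 1 (nat_lit 0) (.g 3 6 0 9 14 true false), .t 1 (nat_lit 0) (.g 3 6 0 9 14 true false), .t 2 (nat_lit 0xa2b) (.g 0 11 3 6 14 true true), .t 2 (nat_lit 0xa2c) (.g 0 11 3 9 14 true true), .t 1 (nat_lit 0) (.g 3 6 0 9 15 true false), .t 2 (nat_lit 0xa2d) (.g 0 11 3 9 15 true true)] (by decide +kernel) (by decide +kernel)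
theorem b170 : B 10880 10944 := Blk.of_chk [.t 1 (nat_lit 0) (.g 3 6 0 9 16 true false), .t 2 (nat_lit 0xa2e) (.g 0 11 3 6 16 true true), .t 2 (nat_lit 0xa2f) (.g 0 11 3 9 16 true true), .t 1 (nat_lit 0) (.g 3 6 0 9 17 true false), .t 2 (nat_lit 0xa30) (.g 0 11 3 9 17 true true), .t 1 (nat_lit 0) (.g 3 6 0 9 18 true false), .t 2 (nat_lit 0xa31) (.g 0 11 3 9 18 true true), .t 1 (nat_lit 0) (.g 3 6 0 10 11 true false), .t 1 (nat_lit 0) (.st 13 3 6 10), .t 1 (nat_lit 0) (.g 3 6 0 10 16 true false), .t 1 (nat_lit 0) (.g 11 0 3 6 12 false false), .t 1 (nat_lit 0) (.g 3 11 0 6 12 false false), .t 2 (nat_lit 0xa32) (.g 6 0 3 11 12 true false), .t 1 (nat_lit 0) (.g 3 13 0 6 11 false false), .t 1 (nat_lit 0) (.g 3 11 0 6 13 false false), .t 2 (nat_lit 0xa33) (.g 6 0 3 11 13 true false), .t 1 (nat_lit 0) (.g 11 0 3 6 14 false false), .t 2 (nat_lit 0xa34) (.g 11 0 3 6 14 false true), .t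 1 (nat_lit 0) (.g 11 0 3 6 15 false true), .t 1 (nat_lit 0) (.g 11 0 3 6 15 false false), .t 2 (nat_lit 0xa35) (.g 6 0 3 11 15 true true), .t 1 (nat_lit 0) (.g 11 0 3 6 16 false false), .t 2 (nat_lit 0xa36) (.g 11 0 3 6 17 false true), .t 2 (nat_lit 0xa37) (.g 6 0 3 11 17 true true), .t 1 (nat_lit 0) (.g 11 0 3 6 18 false true), .t 2 (nat_lit 0xa38) (.g 6 0 3 11 18 true true), .t 2 (nat_lit 0xa39) (.g 14 3 0 6 12 true false), .t 2 (nat_lit 0xa3a) (.g 0 11 3 12 14 true true), .t 2 (nat_lit 0xa35) (.g 3 6 0 12 15 true true), .t 3 (nat_lit 0xa3b0a39) (.a 3 6 13 14 false), .t 2 (nat_lit 0xa39) (.g 14 3 0 6 13 true false), .t 2 (nat_lit 0xa39) (.g 14 6 0 3 13 true false), .t 2 (nat_lit 0xa3c) (.g 0 11 3 13 14 true true), .t 3 (nat_lit 0xa3d0a39) (.g 0 11 6 13 14 true true), .t 2 (nat_lit 0xa33) (.g 6 3 0 13 16 false true), .t 2 (nat_lit 0xa3e) (.g 16 6 0 3 13 true false), .t 2 (nat_lit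 0xa37) (.g 3 6 0 13 17 true true), .t 3 (nat_lit 0xa3f0a38) (.a 3 6 13 18 true), .t 2 (nat_lit 0xa40) (.g 0 11 3 13 18 true true), .t 2 (nat_lit 0xa35) (.g 3 6 0 14 15 true true), .t 3 (nat_lit 0xa410a35) (.a 3 6 14 15 false), .t 2 (nat_lit 0xa35) (.g 15 3 0 6 14 true false), .t 2 (nat_lit 0xa3e) (.g 3 6 0 14 16 true true), .t 3 (nat_lit 0xa420a3e) (.a 3 6 14 16 true), .t 3 (nat_lit 0xa430a37) (.a 3 6 14 17 false), .t 2 (nat_lit 0xa44) (.g 0 11 3 14 17 true true), .t 3 (nat_lit 0xa450a39) (.g 6 0 3 14 18 true false), .t 3 (nat_lit 0xa460a38) (.a 3 6 14 18 true), .t 3 (nat_lit 0xa470a38) (.a 3 6 14 18 false), .t 2 (nat_lit 0xa38) (.g 18 3 0 6 14 true false), .t 2 (nat_lit 0xa48) (.g 0 11 3 14 18 true true), .t 2 (nat_lit 0xa49) (.g 0 11 3 15 16 true true), .t 2 (nat_lit 0xa4a) (.g 0 11 3 15 16 true true), .t 2 (nat_lit 0xa4b) (.g 0 11 3 15 17 true true), .t 3 (nat_lit 0xa4c0a37)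 (.a 3 6 15 17 false), .t 2 (nat_lit 0xa4d) (.g 0 11 3 15 17 true true), .t 3 (nat_lit 0xa4e0a37) (.g 0 11 6 15 17 true true), .t 3 (nat_lit 0xa4f0a38) (.a 3 6 15 18 false), .t 3 (nat_lit 0xa500a38) (.g 0 11 6 15 18 true true), .t 2 (nat_lit 0xa51) (.g 0 11 6 16 17 true true), .t 3 (nat_lit 0xa520a37) (.a 3 6 16 17 false), .t 2 (nat_lit 0xa53) (.g 0 11 3 16 17 true true), .t 2 (nat_lit 0xa54) (.g 0 11 3 16 17 true true), .t 3 (nat_lit 0xa550a37) (.g 0 11 6 16 17 true true)] (by decide +kernel) (by decide +kernel)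
theorem b171 : B 10944 11008 := Blk.of_chk [.t 2 (nat_lit 0xa56) (.g 0 11 6 16 18 true true), .t 3 (nat_lit 0xa570a38) (.a 3 6 16 18 false), .t 2 (nat_lit 0xa38) (.g 18 3 0 6 16 true false), .t 3 (nat_lit 0xa580a38) (.g 0 11 6 16 18 true true), .t 2 (nat_lit 0xa38) (.g 18 3 0 6 17 true false), .t 2 (nat_lit 0xa59) (.g 0 11 3 17 18 true true), .t 3 (nat_lit 0xa5a0a38) (.g 0 11 6 17 18 true true), .t 2 (nat_lit 0xa5b) (.g 0 11 3 7 14 true true), .t 1 (nat_lit 0) (.g 3 0 7 8 16 false true), .t 2 (nat_lit 0xa5c) (.g 0 11 3 7 16 true true), .t 2 (nat_lit 0xa5d) (.g 0 11 3 8 17 true true), .t 1 (nat_lit 0) (.g 3 0 7 8 17 false true), .t 2 (nat_lit 0xa5e) (.g 0 11 3 8 18 true true), .t 2 (nat_lit 0xa5f) (.g 0 11 7 8 18 true true), .t 1 (nat_lit 0) (.g 3 0 7 8 18 false true), .t 1 (nat_lit 0) (.g 3 7 0 8 18 true false), .t 1 (nat_lit 0) (.g 3 7 0 9 11 true false), .t 1 (nat_lit 0) (.g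 9 0 3 7 11 true true), .t 2 (nat_lit 0xa60) (.g 0 11 3 9 12 true true), .t 2 (nat_lit 0xa61) (.g 0 11 3 9 13 true true), .t 1 (nat_lit 0) (.g 3 7 0 9 14 true false), .t 2 (nat_lit 0xa62) (.g 0 11 3 7 14 true true), .t 2 (nat_lit 0xa63) (.g 0 11 3 9 14 true true), .t 1 (nat_lit 0) (.g 9 7 0 3 15 false true), .t 1 (nat_lit 0) (.g 3 7 0 9 15 true false), .t 2 (nat_lit 0xa64) (.g 0 11 3 9 15 true true), .t 1 (nat_lit 0) (.g 3 0 7 9 16 false true), .t 1 (nat_lit 0) (.g 3 7 0 9 16 true false), .t 1 (nat_lit 0) (.g 3 7 0 9 16 true false), .t 2 (nat_lit 0xa65) (.g 0 11 3 7 16 true true), .t 2 (nat_lit 0xa66) (.g 0 11 3 9 16 true true), .t 1 (nat_lit 0) (.g 3 0 7 9 17 false true), .t 2 (nat_lit 0xa67) (.g 0 11 3 9 17 true true), .t 1 (nat_lit 0) (.g 9 7 0 3 18 false true), .t 1 (nat_lit 0) (.g 3 0 7 9 18 false true), .t 1 (nat_lit 0) (.g 3 7 0 10 11 true false), .t 1 (nat_lit 0) (.g 3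 7 0 10 13 true false), .t 1 (nat_lit 0) (.g 3 7 0 10 13 true false), .t 1 (nat_lit 0) (.g 3 7 0 10 14 true false), .t 1 (nat_lit 0) (.g 3 0 7 10 16 false true), .t 1 (nat_lit 0) (.g 3 0 7 10 17 false true), .t 1 (nat_lit 0) (.g 11 0 3 7 12 false false), .t 2 (nat_lit 0xa68) (.g 7 0 3 11 12 true false), .t 2 (nat_lit 0xa69) (.g 11 0 3 7 13 false true), .t 1 (nat_lit 0) (.g 3 11 0 7 13 false false), .t 2 (nat_lit 0xa6a) (.g 7 0 3 11 13 true false), .t 2 (nat_lit 0xa6b) (.g 11 0 3 7 14 false true), .t 2 (nat_lit 0xa6c) (.g 3 7 0 11 15 true true), .t 1 (nat_lit 0) (.g 11 0 3 7 15 false true), .t 1 (nat_lit 0) (.g 11 0 3 7 15 false false), .t 2 (nat_lit 0xa6d) (.g 3 7 0 11 16 true true), .t 1 (nat_lit 0) (.g 11 0 3 7 16 false false), .t 2 (nat_lit 0xa6e) (.g 3 7 0 11 17 true true), .t 2 (nat_lit 0xa6e) (.g 7 0 3 11 17 true true), .t 2 (nat_lit 0xa6f) (.g 7 0 3 11 18 true true), .t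 2 (nat_lit 0xa6a) (.g 13 7 0 3 12 true false), .t 2 (nat_lit 0xa70) (.g 0 11 3 12 13 true true), .t 2 (nat_lit 0xa71) (.g 14 3 0 7 12 true false), .t 2 (nat_lit 0xa72) (.g 0 11 3 12 14 true true), .t 3 (nat_lit 0xa730a71) (.g 0 11 7 12 14 true true), .t 2 (nat_lit 0xa68) (.g 7 3 0 12 15 false true), .t 2 (nat_lit 0xa74) (.g 0 11 3 12 16 true true), .t 3 (nat_lit 0xa750a6d) (.g 0 11 7 12 16 true true), .t 2 (nat_lit 0xa76) (.g 0 11 3 12 17 true true)] (by decide +kernel) (by decide +kernel)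
theorem b172 : B 11008 11072 := Blk.of_chk [.t 3 (nat_lit 0xa770a6e) (.g 0 11 7 12 17 true true), .t 2 (nat_lit 0xa71) (.g 14 3 0 7 13 true false), .t 2 (nat_lit 0xa78) (.g 0 11 3 13 14 true true), .t 2 (nat_lit 0xa79) (.g 0 11 3 13 14 true true), .t 3 (nat_lit 0xa7a0a71) (.g 0 11 7 13 14 true true), .t 2 (nat_lit 0xa7b) (.g 0 11 3 13 18 true true), .t 2 (nat_lit 0xa6c) (.g 3 7 0 14 15 true true), .t 3 (nat_lit 0xa7c0a6c) (.a 3 7 14 15 false), .t 2 (nat_lit 0xa6c) (.g 15 3 0 7 14 true false), .t 2 (nat_lit 0xa6d) (.g 3 7 0 14 16 true true), .t 3 (nat_lit 0xa7d0a6d) (.a 3 7 14 16 true), .t 3 (nat_lit 0xa7e0a71) (.g 7 0 3 14 17 true false), .t 3 (nat_lit 0xa7f0a6e) (.a 3 7 14 17 true), .t 3 (nat_lit 0xa800a6e) (.a 3 7 14 17 false), .t 2 (nat_lit 0xa81) (.g 0 11 3 14 17 true true), .t 2 (nat_lit 0xa6f) (.g 3 7 0 14 18 true true), .t 3 (nat_lit 0xa820a6f) (.a 3 7 14 18 true), .t 3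 (nat_lit 0xa830a6f) (.a 3 7 14 18 false), .t 2 (nat_lit 0xa6f) (.g 18 3 0 7 14 true false), .t 2 (nat_lit 0xa84) (.g 0 11 3 14 18 true true), .t 3 (nat_lit 0xa850a6d) (.a 3 7 15 16 true), .t 3 (nat_lit 0xa860a6e) (.a 3 7 15 17 false), .t 2 (nat_lit 0xa87) (.g 0 11 3 15 17 true true), .t 3 (nat_lit 0xa880a6e) (.g 0 11 7 15 17 true true), .t 3 (nat_lit 0xa890a6f) (.a 3 7 15 18 false), .t 3 (nat_lit 0xa8a0a6f) (.g 0 11 7 15 18 true true), .t 2 (nat_lit 0xa8b) (.g 0 11 7 16 17 true true), .t 3 (nat_lit 0xa8c0a6e) (.a 3 7 16 17 false), .t 3 (nat_lit 0xa8d0a6e) (.g 0 11 7 16 17 true true), .t 3 (nat_lit 0xa8e0a6e) (.g 0 11 7 16 17 true true), .t 2 (nat_lit 0xa8f) (.g 0 11 7 16 18 true true), .t 3 (nat_lit 0xa900a6f) (.a 3 7 16 18 false), .t 3 (nat_lit 0xa910a6f) (.g 0 11 7 16 18 true true), .t 2 (nat_lit 0xa92) (.g 0 11 3 17 18 true true), .t 2 (nat_lit 0xa6f) (.g 18 3 0 7 17 true false),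 .t 2 (nat_lit 0xa93) (.g 0 11 3 17 18 true true), .t 1 (nat_lit 0) (.g 3 8 0 9 11 true false), .t 1 (nat_lit 0) (.g 9 0 3 8 11 true true), .t 2 (nat_lit 0xa94) (.g 0 11 3 9 12 true true), .t 1 (nat_lit 0) (.g 3 8 0 9 13 true false), .t 2 (nat_lit 0xa95) (.g 0 11 3 9 13 true true), .t 1 (nat_lit 0) (.g 3 8 0 9 14 true false), .t 2 (nat_lit 0xa96) (.g 0 11 3 8 14 true true), .t 2 (nat_lit 0xa97) (.g 0 11 3 9 14 true true), .t 1 (nat_lit 0) (.g 3 8 0 9 15 true false), .t 2 (nat_lit 0xa98) (.g 0 11 3 9 15 true true), .t 1 (nat_lit 0) (.g 3 8 0 9 16 true false), .t 1 (nat_lit 0) (.g 3 8 0 9 16 true false), .t 2 (nat_lit 0xa99) (.g 0 11 3 9 16 true true), .t 2 (nat_lit 0xa9a) (.g 0 11 3 9 17 true true), .t 1 (nat_lit 0) (.g 3 0 8 9 18 false true), .t 1 (nat_lit 0) (.g 3 8 0 10 11 true false), .t 1 (nat_lit 0) (.g 3 8 0 10 13 true false), .t 1 (nat_lit 0) (.g 3 8 0 10 14 true false),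 .t 1 (nat_lit 0) (.g 3 0 8 10 16 false true), .t 1 (nat_lit 0) (.g 3 8 0 10 16 true false), .t 1 (nat_lit 0) (.g 3 8 0 10 16 true false), .t 2 (nat_lit 0xa9b) (.g 0 11 3 8 16 true true), .t 1 (nat_lit 0) (.g 3 0 8 10 17 false true), .t 1 (nat_lit 0) (.g 3 0 8 10 18 false true), .t 1 (nat_lit 0) (.g 11 0 3 8 12 false true), .t 1 (nat_lit 0) (.g 11 0 3 8 12 false false), .t 2 (nat_lit 0xa9c) (.g 8 0 3 11 12 true false), .t 1 (nat_lit 0) (.g 3 13 0 8 11 false false)] (by decide +kernel) (by decide +kernel)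
theorem b173 : B 11072 11136 := Blk.of_chk [.t 1 (nat_lit 0) (.g 3 11 0 8 13 false false), .t 2 (nat_lit 0xa9d) (.g 8 0 3 11 13 true false), .t 1 (nat_lit 0) (.g 11 0 3 8 14 false true), .t 2 (nat_lit 0xa9e) (.g 11 0 3 8 14 false true), .t 2 (nat_lit 0xa9f) (.g 8 0 3 11 14 true false), .t 1 (nat_lit 0) (.g 11 0 3 8 15 false true), .t 1 (nat_lit 0) (.g 11 0 3 8 15 false false), .t 1 (nat_lit 0) (.g 11 0 3 8 16 false false), .t 2 (nat_lit 0xaa0) (.g 11 0 3 8 17 false true), .t 2 (nat_lit 0xaa1) (.g 8 0 3 11 17 true true), .t 2 (nat_lit 0xaa2) (.g 3 8 0 11 18 true true), .t 1 (nat_lit 0) (.g 3 8 0 11 18 true true), .t 2 (nat_lit 0xaa2) (.g 8 0 3 11 18 true true), .t 2 (nat_lit 0xaa3) (.g 0 11 3 12 13 true true), .t 2 (nat_lit 0xa9f) (.g 14 3 0 8 12 true false), .t 2 (nat_lit 0xaa4) (.g 0 11 3 12 14 true true), .t 3 (nat_lit 0xaa60aa5) (.g 0 11 8 12 16 true true), .t 3 (nat_lit 0xaa70aa1)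 (.g 0 11 8 12 17 true true), .t 3 (nat_lit 0xaa80a9f) (.a 3 8 13 14 true), .t 2 (nat_lit 0xa9f) (.g 14 3 0 8 13 true false), .t 2 (nat_lit 0xa9f) (.g 14 8 0 3 13 true false), .t 3 (nat_lit 0xaa90a9f) (.g 0 11 8 13 14 true true), .t 2 (nat_lit 0xaa1) (.g 17 3 0 8 13 true false), .t 2 (nat_lit 0xaa2) (.g 3 8 0 13 18 true true), .t 2 (nat_lit 0xaa2) (.g 18 3 0 8 13 true false), .t 2 (nat_lit 0xaaa) (.g 0 11 3 13 18 true true), .t 3 (nat_lit 0xaac0aab) (.a 3 8 14 15 true), .t 3 (nat_lit 0xaad0aab) (.a 3 8 14 15 false), .t 2 (nat_lit 0xaab) (.g 15 3 0 8 14 true false), .t 3 (nat_lit 0xaae0aa5) (.a 3 8 14 16 true), .t 2 (nat_lit 0xaaf) (.g 0 11 3 14 16 true true), .t 3 (nat_lit 0xab00aa5) (.g 0 11 8 14 16 true true), .t 3 (nat_lit 0xab10aa1) (.a 3 8 14 17 true), .t 3 (nat_lit 0xab20aa1) (.a 3 8 14 17 false), .t 2 (nat_lit 0xaa1) (.g 17 3 0 8 14 true false), .t 3 (nat_lit 0xab30aa1)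 (.g 0 11 8 14 17 true true), .t 2 (nat_lit 0xaa2) (.g 3 8 0 14 18 true true), .t 2 (nat_lit 0xa9f) (.g 8 3 0 14 18 false true), .t 2 (nat_lit 0xa9f) (.g 8 0 3 14 18 true false), .t 3 (nat_lit 0xab40aa2) (.a 3 8 14 18 true), .t 3 (nat_lit 0xab50aa2) (.a 3 8 14 18 false), .t 2 (nat_lit 0xaa2) (.g 18 3 0 8 14 true false), .t 2 (nat_lit 0xab6) (.g 0 11 3 14 18 true true), .t 3 (nat_lit 0xab70aa1) (.a 3 8 15 17 false), .t 3 (nat_lit 0xab80aa1) (.g 0 11 8 15 17 true true), .t 2 (nat_lit 0xaab) (.g 8 3 0 15 18 false true), .t 3 (nat_lit 0xab90aa2) (.g 0 11 8 15 18 true true), .t 3 (nat_lit 0xaba0aa1) (.a 3 8 16 17 false), .t 2 (nat_lit 0xabb) (.g 0 11 3 16 17 true true), .t 2 (nat_lit 0xabc) (.g 0 11 3 16 17 true true), .t 3 (nat_lit 0xabd0aa1) (.g 0 11 8 16 17 true true), .t 3 (nat_lit 0xabe0aa1) (.g 0 11 8 16 17 true true), .t 2 (nat_lit 0xaa5) (.g 8 0 3 16 18 true false), .t 3 (nat_lit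 0xabf0aa2) (.a 3 8 16 18 false), .t 3 (nat_lit 0xac00aa2) (.g 0 11 8 16 18 true true), .t 2 (nat_lit 0xac1) (.g 0 11 8 17 18 true true), .t 2 (nat_lit 0xac2) (.g 0 11 3 17 18 true true), .t 2 (nat_lit 0xaa2) (.g 18 3 0 8 17 true false), .t 2 (nat_lit 0xac3) (.g 0 11 3 17 18 true true), .t 3 (nat_lit 0xac40aa2) (.g 0 11 8 17 18 true true), .t 1 (nat_lit 0) (.g 3 10 0 9 11 true false), .t 1 (nat_lit 0) (.g 9 11 0 3 10 false true), .t 1 (nat_lit 0) (.g 3 10 0 9 12 true false), .t 2 (nat_lit 0xac5) (.g 0 11 3 9 12 true true)] (by decide +kernel) (by decide +kernel)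
theorem b174 : B 11136 11200 := Blk.of_chk [.t 2 (nat_lit 0xac6) (.g 0 11 3 9 13 true true), .t 2 (nat_lit 0xac7) (.g 0 11 3 10 13 true true), .t 1 (nat_lit 0) (.g 3 10 0 9 14 true false), .t 2 (nat_lit 0xac8) (.g 0 11 3 9 14 true true), .t 2 (nat_lit 0xac9) (.g 0 11 3 10 14 true true), .t 1 (nat_lit 0) (.a 3 9 10 15 false), .t 1 (nat_lit 0) (.g 3 10 0 9 15 true false), .t 2 (nat_lit 0xaca) (.g 0 11 3 9 15 true true), .t 2 (nat_lit 0xacb) (.g 3 0 9 10 16 false false), .t 1 (nat_lit 0) (.g 3 10 0 9 16 true false), .t 2 (nat_lit 0xacc) (.g 0 11 3 9 16 true true), .t 2 (nat_lit 0xacd) (.g 3 0 9 10 17 false false), .t 1 (nat_lit 0) (.g 9 17 0 3 10 true true), .t 2 (nat_lit 0xace) (.g 0 11 3 9 17 true true), .t 2 (nat_lit 0xacf) (.g 0 11 3 10 17 true true), .t 2 (nat_lit 0xad0) (.g 0 11 3 10 18 true true), .t 2 (nat_lit 0xad1) (.g 0 11 9 10 18 true true), .t 2 (nat_lit 0xad2) (.g 3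 0 9 10 18 false false), .t 1 (nat_lit 0) (.g 9 18 0 3 10 true true), .t 1 (nat_lit 0) (.g 3 10 0 9 18 true false), .t 1 (nat_lit 0) (.g 3 10 0 9 18 true false), .t 2 (nat_lit 0xad3) (.g 0 11 3 9 18 true true), .t 1 (nat_lit 0) (.g 11 0 3 9 12 false true), .t 2 (nat_lit 0xad4) (.g 11 0 3 9 12 false true), .t 2 (nat_lit 0xad5) (.g 11 0 3 9 12 false false), .t 2 (nat_lit 0xad6) (.g 9 0 3 11 12 true true), .t 2 (nat_lit 0xad6) (.g 9 0 3 11 12 true false), .t 1 (nat_lit 0) (.g 11 0 3 9 13 false false), .t 2 (nat_lit 0xad7) (.g 11 0 3 9 13 false true), .t 1 (nat_lit 0) (.g 3 11 0 9 13 false false), .t 2 (nat_lit 0xad8) (.g 9 0 3 11 13 true true), .t 2 (nat_lit 0xad8) (.g 9 0 3 11 13 true false), .t 1 (nat_lit 0) (.g 11 0 3 9 14 false true), .t 1 (nat_lit 0) (.g 11 0 3 9 14 false false), .t 2 (nat_lit 0xad9) (.g 11 0 3 9 14 false true), .t 2 (nat_lit 0xada) (.g 11 0 3 9 14 false false),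 .t 2 (nat_lit 0xadb) (.g 9 0 3 11 14 true true), .t 2 (nat_lit 0xadb) (.g 9 0 3 11 14 true false), .t 1 (nat_lit 0) (.g 11 0 3 9 15 false true), .t 1 (nat_lit 0) (.g 11 0 3 9 15 false false), .t 2 (nat_lit 0xadc) (.g 11 0 3 9 15 false true), .t 1 (nat_lit 0) (.g 3 11 0 9 15 false false), .t 2 (nat_lit 0xadd) (.g 9 0 3 11 15 true true), .t 1 (nat_lit 0) (.g 11 0 3 9 16 false true), .t 2 (nat_lit 0xade) (.g 11 0 3 9 16 false true), .t 1 (nat_lit 0) (.g 3 11 0 9 16 false false), .t 2 (nat_lit 0xadf) (.g 9 0 3 11 16 true true), .t 2 (nat_lit 0xadf) (.g 9 0 3 11 16 true false), .t 1 (nat_lit 0) (.g 9 3 0 11 17 false true), .t 1 (nat_lit 0) (.g 11 0 3 9 17 false false), .t 2 (nat_lit 0xae0) (.g 11 0 3 9 17 false true), .t 2 (nat_lit 0xae1) (.g 9 0 3 11 17 true true), .t 1 (nat_lit 0) (.g 9 3 0 11 18 false true), .t 2 (nat_lit 0xae2) (.g 11 0 3 9 18 false true), .t 1 (nat_lit 0) (.g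 3 11 0 9 18 false false), .t 2 (nat_lit 0xae3) (.g 9 0 3 11 18 true true), .t 3 (nat_lit 0xae40ad8) (.a 3 9 12 13 false), .t 2 (nat_lit 0xad8) (.g 13 3 0 9 12 true false), .t 2 (nat_lit 0xae5) (.g 0 11 3 12 13 true true), .t 3 (nat_lit 0xae60ad8) (.g 0 11 9 12 13 true true), .t 2 (nat_lit 0xadb) (.g 14 3 0 9 12 true false), .t 3 (nat_lit 0xae70adb) (.g 0 11 9 12 14 true true), .t 3 (nat_lit 0xae80adb) (.g 0 11 9 12 14 true true), .t 3 (nat_lit 0xae90add) (.a 3 9 12 15 true)] (by decide +kernel) (by decide +kernel)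
theorem b175 : B 11200 11264 := Blk.of_chk [.t 3 (nat_lit 0xaea0add) (.g 0 11 9 12 15 true true), .t 3 (nat_lit 0xaeb0adf) (.a 3 9 12 16 true), .t 2 (nat_lit 0xadf) (.g 16 3 0 9 12 true false), .t 2 (nat_lit 0xaec) (.g 0 11 3 12 16 true true), .t 3 (nat_lit 0xaed0adf) (.g 0 11 9 12 16 true true), .t 3 (nat_lit 0xaee0adf) (.g 0 11 9 12 16 true true), .t 3 (nat_lit 0xaef0ae1) (.a 3 9 12 17 true), .t 3 (nat_lit 0xaf00ae1) (.g 0 11 9 12 17 true true), .t 2 (nat_lit 0xae3) (.g 3 9 0 12 18 true true), .t 2 (nat_lit 0xae3) (.g 18 3 0 9 12 true false), .t 3 (nat_lit 0xaf10ae3) (.g 0 11 9 12 18 true true), .t 3 (nat_lit 0xaf20adb) (.a 3 9 13 14 true), .t 3 (nat_lit 0xaf30adb) (.a 3 9 13 14 false), .t 2 (nat_lit 0xadb) (.g 14 3 0 9 13 true false), .t 2 (nat_lit 0xadb) (.g 14 9 0 3 13 true false), .t 2 (nat_lit 0xaf4) (.g 0 11 3 13 14 true true), .t 2 (nat_lit 0xaf5) (.g 0 11 3 13 14 true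 true), .t 3 (nat_lit 0xaf60adb) (.g 0 11 9 13 14 true true), .t 3 (nat_lit 0xaf70adb) (.g 0 11 9 13 14 true true), .t 2 (nat_lit 0xadd) (.g 3 9 0 13 15 true true), .t 3 (nat_lit 0xaf80ad8) (.g 9 0 3 13 15 true false), .t 3 (nat_lit 0xaf90add) (.a 3 9 13 15 true), .t 3 (nat_lit 0xafa0add) (.a 3 9 13 15 false), .t 2 (nat_lit 0xadd) (.g 15 3 0 9 13 true false), .t 2 (nat_lit 0xadd) (.g 15 9 0 3 13 true false), .t 3 (nat_lit 0xafb0add) (.g 0 11 9 13 15 true true), .t 3 (nat_lit 0xafc0add) (.g 0 11 9 13 15 true true), .t 2 (nat_lit 0xad8) (.g 9 3 0 13 16 false true), .t 3 (nat_lit 0xafd0ad8) (.g 9 0 3 13 16 true false), .t 3 (nat_lit 0xafe0adf) (.a 3 9 13 16 true), .t 2 (nat_lit 0xadf) (.g 16 3 0 9 13 true false), .t 2 (nat_lit 0xadf) (.g 16 9 0 3 13 true false), .t 2 (nat_lit 0xaff) (.g 0 11 3 13 16 true true), .t 3 (nat_lit 0xb000adf) (.g 0 11 9 13 16 true true), .t 3 (nat_lit 0xb010adf)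 (.g 0 11 9 13 16 true true), .t 2 (nat_lit 0xae1) (.g 3 9 0 13 17 true true), .t 3 (nat_lit 0xb020ae1) (.a 3 9 13 17 true), .t 3 (nat_lit 0xb030ae1) (.a 3 9 13 17 false), .t 2 (nat_lit 0xae1) (.g 17 3 0 9 13 true false), .t 2 (nat_lit 0xae1) (.g 17 9 0 3 13 true false), .t 3 (nat_lit 0xb040ae1) (.g 0 11 9 13 17 true true), .t 3 (nat_lit 0xb050ae1) (.g 0 11 9 13 17 true true), .t 2 (nat_lit 0xae3) (.g 3 9 0 13 18 true true), .t 3 (nat_lit 0xb060ae3) (.a 3 9 13 18 true), .t 2 (nat_lit 0xae3) (.g 18 3 0 9 13 true false), .t 2 (nat_lit 0xb07) (.g 0 11 3 13 18 true true), .t 3 (nat_lit 0xb080ae3) (.g 0 11 9 13 18 true true), .t 3 (nat_lit 0xb090ae3) (.g 0 11 9 13 18 true true), .t 2 (nat_lit 0xadd) (.g 3 9 0 14 15 true true), .t 3 (nat_lit 0xb0a0add) (.a 3 9 14 15 true), .t 3 (nat_lit 0xb0b0add) (.a 3 9 14 15 false), .t 2 (nat_lit 0xadd) (.g 15 3 0 9 14 true false), .t 2 (nat_lit 0xadd)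 (.g 15 9 0 3 14 true false), .t 2 (nat_lit 0xb0c) (.g 0 11 3 14 15 true true), .t 2 (nat_lit 0xb0d) (.g 0 11 3 14 15 true true), .t 3 (nat_lit 0xb0e0add) (.g 0 11 9 14 15 true true), .t 3 (nat_lit 0xb0f0add) (.g 0 11 9 14 15 true true), .t 2 (nat_lit 0xadb) (.g 9 3 0 14 16 false true), .t 3 (nat_lit 0xb100adf) (.a 3 9 14 16 true), .t 3 (nat_lit 0xb110adf) (.a 3 9 14 16 false), .t 2 (nat_lit 0xadf) (.g 16 3 0 9 14 true false), .t 2 (nat_lit 0xadf) (.g 16 9 0 3 14 true false), .t 2 (nat_lit 0xb12) (.g 0 11 3 14 16 true true), .t 2 (nat_lit 0xb13) (.g 0 11 3 14 16 true true)] (by decide +kernel) (by decide +kernel)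
theorem b176 : B 11264 11328 := Blk.of_chk [.t 3 (nat_lit 0xb140adf) (.g 0 11 9 14 16 true true), .t 3 (nat_lit 0xb150adf) (.g 0 11 9 14 16 true true), .t 2 (nat_lit 0xadb) (.g 9 3 0 14 17 false true), .t 3 (nat_lit 0xb160ae1) (.a 3 9 14 17 false), .t 2 (nat_lit 0xae1) (.g 17 3 0 9 14 true false), .t 2 (nat_lit 0xb17) (.g 0 11 3 14 17 true true), .t 2 (nat_lit 0xb18) (.g 0 11 3 14 17 true true), .t 3 (nat_lit 0xb190ae1) (.g 0 11 9 14 17 true true), .t 2 (nat_lit 0xae3) (.g 3 9 0 14 18 true true), .t 3 (nat_lit 0xb1a0adb) (.g 9 0 3 14 18 true false), .t 2 (nat_lit 0xae3) (.g 18 3 0 9 14 true false), .t 2 (nat_lit 0xb1b) (.g 0 11 3 14 18 true true), .t 2 (nat_lit 0xb1c) (.g 0 11 3 14 18 true true), .t 3 (nat_lit 0xb1d0ae3) (.g 0 11 9 14 18 true true), .t 3 (nat_lit 0xb1e0ae3) (.g 0 11 9 14 18 true true), .t 3 (nat_lit 0xb1f0adf) (.a 3 9 15 16 true), .t 2 (nat_lit 0xadf) (.g 16 3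 0 9 15 true false), .t 2 (nat_lit 0xb20) (.g 0 11 3 15 16 true true), .t 2 (nat_lit 0xb21) (.g 0 11 3 15 16 true true), .t 3 (nat_lit 0xb220adf) (.g 0 11 9 15 16 true true), .t 3 (nat_lit 0xb230adf) (.g 0 11 9 15 16 true true), .t 3 (nat_lit 0xb240ae1) (.a 3 9 15 17 false), .t 2 (nat_lit 0xae1) (.g 17 3 0 9 15 true false), .t 2 (nat_lit 0xae1) (.g 17 9 0 3 15 true false), .t 2 (nat_lit 0xb25) (.g 0 11 3 15 17 true true), .t 3 (nat_lit 0xb260ae1) (.g 0 11 9 15 17 true true), .t 2 (nat_lit 0xb27) (.g 0 11 3 15 18 true true), .t 2 (nat_lit 0xae3) (.g 18 3 0 9 15 true false), .t 2 (nat_lit 0xb28) (.g 0 11 3 15 18 true true), .t 2 (nat_lit 0xb29) (.g 0 11 3 15 18 true true), .t 3 (nat_lit 0xb2a0ae3) (.g 0 11 9 15 18 true true), .t 3 (nat_lit 0xb2b0ae3) (.g 0 11 9 15 18 true true), .t 3 (nat_lit 0xb2c0ae1) (.a 3 9 16 17 false), .t 2 (nat_lit 0xae1) (.g 17 3 0 9 16 true false), .t 2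 (nat_lit 0xb2d) (.g 0 11 3 16 17 true true), .t 3 (nat_lit 0xb2e0ae1) (.g 0 11 9 16 17 true true), .t 3 (nat_lit 0xb2f0ae1) (.g 0 11 9 16 17 true true), .t 2 (nat_lit 0xb30) (.g 0 11 3 16 18 true true), .t 2 (nat_lit 0xadf) (.g 9 0 3 16 18 true false), .t 3 (nat_lit 0xb310ae3) (.a 3 9 16 18 true), .t 2 (nat_lit 0xae3) (.g 18 3 0 9 16 true false), .t 2 (nat_lit 0xae3) (.g 18 9 0 3 16 true false), .t 2 (nat_lit 0xb32) (.g 0 11 3 16 18 true true), .t 3 (nat_lit 0xb330ae3) (.g 0 11 9 16 18 true true), .t 3 (nat_lit 0xb340ae3) (.g 0 11 9 16 18 true true), .t 2 (nat_lit 0xae3) (.g 18 3 0 9 17 true false), .t 3 (nat_lit 0xb350ae3) (.g 0 11 9 17 18 true true), .t 1 (nat_lit 0) (.g 11 0 3 10 12 false false), .t 1 (nat_lit 0) (.g 3 11 0 10 12 false false), .t 1 (nat_lit 0) (.g 11 0 3 10 13 false false), .t 1 (nat_lit 0) (.g 3 13 0 10 11 false false), .t 1 (nat_lit 0) (.g 3 11 0 10 13 false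 false), .t 1 (nat_lit 0) (.g 11 0 3 10 14 false false), .t 2 (nat_lit 0xb36) (.g 11 0 3 10 14 false true), .t 1 (nat_lit 0) (.g 3 11 0 10 14 false false), .t 2 (nat_lit 0xb37) (.g 10 0 3 11 14 true true), .t 2 (nat_lit 0xb37) (.g 10 0 3 11 14 true false), .t 1 (nat_lit 0) (.g 11 0 3 10 15 false true), .t 1 (nat_lit 0) (.g 11 0 3 10 15 false false), .t 2 (nat_lit 0xb38) (.g 10 0 3 11 15 true true), .t 1 (nat_lit 0) (.g 11 0 3 10 16 false false), .t 2 (nat_lit 0xb39) (.g 11 0 3 10 16 false true), .t 2 (nat_lit 0xb3a) (.g 10 0 3 11 16 true false), .t 2 (nat_lit 0xb3b) (.g 10 0 3 11 17 true true)] (by decide +kernel) (by decide +kernel)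
theorem b177 : B 11328 11392 := Blk.of_chk [.t 1 (nat_lit 0) (.g 11 0 3 10 18 false false), .t 2 (nat_lit 0xb3c) (.g 11 0 3 10 18 false true), .t 2 (nat_lit 0xb3d) (.g 13 3 0 10 12 true false), .t 2 (nat_lit 0xb3e) (.g 0 11 3 12 13 true true), .t 3 (nat_lit 0xb3f0b3d) (.g 0 11 10 12 13 true true), .t 2 (nat_lit 0xb37) (.g 14 3 0 10 12 true false), .t 2 (nat_lit 0xb40) (.g 0 11 3 12 14 true true), .t 3 (nat_lit 0xb410b37) (.g 0 11 10 12 14 true true), .t 2 (nat_lit 0xb42) (.g 18 3 0 10 12 true false), .t 3 (nat_lit 0xb430b42) (.g 0 11 10 12 18 true true), .t 3 (nat_lit 0xb440b37) (.a 3 10 13 14 true), .t 3 (nat_lit 0xb450b37) (.a 3 10 13 14 false), .t 2 (nat_lit 0xb37) (.g 14 3 0 10 13 true false), .t 3 (nat_lit 0xb460b37) (.g 0 11 10 13 14 true true), .t 3 (nat_lit 0xb470b37) (.g 0 11 10 13 14 true true), .t 3 (nat_lit 0xb480b38) (.a 3 10 13 15 true), .t 3 (nat_lit 0xb490b38)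 (.a 3 10 13 15 false), .t 2 (nat_lit 0xb38) (.g 15 10 0 3 13 true false), .t 3 (nat_lit 0xb4a0b38) (.g 0 11 10 13 15 true true), .t 2 (nat_lit 0xb3a) (.g 3 10 0 13 16 true true), .t 3 (nat_lit 0xb4b0b3a) (.a 3 10 13 16 false), .t 2 (nat_lit 0xb3a) (.g 16 10 0 3 13 true false), .t 3 (nat_lit 0xb4c0b3a) (.g 0 11 10 13 16 true true), .t 2 (nat_lit 0xb3b) (.g 3 10 0 13 17 true true), .t 3 (nat_lit 0xb4d0b3b) (.a 3 10 13 17 true), .t 3 (nat_lit 0xb4e0b3b) (.a 3 10 13 17 false), .t 2 (nat_lit 0xb42) (.g 3 10 0 13 18 true true), .t 3 (nat_lit 0xb4f0b3d) (.g 10 0 3 13 18 true false), .t 2 (nat_lit 0xb42) (.g 18 3 0 10 13 true false), .t 3 (nat_lit 0xb500b37) (.g 10 0 3 14 15 true false), .t 3 (nat_lit 0xb510b38) (.a 3 10 14 15 false), .t 2 (nat_lit 0xb38) (.g 15 3 0 10 14 true false), .t 3 (nat_lit 0xb520b3a) (.a 3 10 14 16 true), .t 3 (nat_lit 0xb530b3b) (.a 3 10 14 17 true), .t 3 (nat_lit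 0xb540b3b) (.a 3 10 14 17 false), .t 2 (nat_lit 0xb55) (.g 0 11 3 14 17 true true), .t 3 (nat_lit 0xb560b3b) (.g 0 11 10 14 17 true true), .t 3 (nat_lit 0xb570b42) (.a 3 10 14 18 true), .t 3 (nat_lit 0xb580b42) (.a 3 10 14 18 false), .t 2 (nat_lit 0xb42) (.g 18 3 0 10 14 true false), .t 2 (nat_lit 0xb59) (.g 0 11 3 14 18 true true), .t 2 (nat_lit 0xb5a) (.g 0 11 3 15 16 true true), .t 3 (nat_lit 0xb5b0b3b) (.a 3 10 15 17 false), .t 2 (nat_lit 0xb5c) (.g 0 11 3 15 17 true true), .t 3 (nat_lit 0xb5d0b3b) (.g 0 11 10 15 17 true true), .t 3 (nat_lit 0xb5e0b42) (.a 3 10 15 18 false), .t 2 (nat_lit 0xb42) (.g 18 3 0 10 15 true false), .t 3 (nat_lit 0xb5f0b42) (.g 0 11 10 15 18 true true), .t 3 (nat_lit 0xb600b3b) (.a 3 10 16 17 false), .t 2 (nat_lit 0xb61) (.g 0 11 3 16 17 true true), .t 3 (nat_lit 0xb620b3b) (.g 0 11 10 16 17 true true), .t 1 (nat_lit 0) (.g 10 16 0 3 18 false true),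 .t 3 (nat_lit 0xb630b42) (.g 0 11 10 16 18 true true), .t 3 (nat_lit 0xb640b42) (.a 3 10 17 18 true), .t 2 (nat_lit 0xb42) (.g 18 3 0 10 17 true false), .t 2 (nat_lit 0xb65) (.g 0 11 3 17 18 true true), .t 1 (nat_lit 0) (.g 11 0 3 12 13 false false), .t 1 (nat_lit 0) (.g 11 0 3 12 14 false true), .t 1 (nat_lit 0) (.g 11 0 3 12 14 false true), .t 1 (nat_lit 0) (.g 11 0 3 12 14 false false), .t 2 (nat_lit 0xb66) (.g 12 14 0 3 11 true false), .t 2 (nat_lit 0xb66) (.g 12 3 0 11 14 true true), .t 1 (nat_lit 0) (.st 3 11 14 12), .t 1 (nat_lit 0) (.g 11 0 3 12 15 false true)] (by decide +kernel) (by decide +kernel)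
theorem b178 : B 11392 11456 := Blk.of_chk [.t 1 (nat_lit 0) (.g 15 11 0 3 12 false false), .t 1 (nat_lit 0) (.g 11 0 3 12 16 false true), .t 2 (nat_lit 0xb67) (.g 12 3 0 11 16 true true), .t 1 (nat_lit 0) (.g 16 11 0 3 12 false false), .t 1 (nat_lit 0) (.g 11 0 3 12 17 false true), .t 1 (nat_lit 0) (.g 17 11 0 3 12 false false), .t 1 (nat_lit 0) (.g 11 0 3 12 18 false true), .t 1 (nat_lit 0) (.g 18 11 0 3 12 false false), .t 1 (nat_lit 0) (.st 3 11 18 12), .t 1 (nat_lit 0) (.g 11 0 3 13 14 false true), .t 1 (nat_lit 0) (.g 11 0 3 13 14 false false), .t 2 (nat_lit 0xb68) (.g 13 14 0 3 11 true false), .t 2 (nat_lit 0xb68) (.g 13 3 0 11 14 true true), .t 1 (nat_lit 0) (.g 14 13 0 3 11 false false), .t 1 (nat_lit 0) (.st 3 11 13 14), .t 1 (nat_lit 0) (.st 3 11 14 13), .t 1 (nat_lit 0) (.g 11 0 3 13 15 false true), .t 1 (nat_lit 0) (.g 11 0 3 13 15 false true), .t 2 (nat_lit 0xb69)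 (.g 13 15 0 3 11 true false), .t 2 (nat_lit 0xb69) (.g 13 3 0 11 15 true true), .t 1 (nat_lit 0) (.g 15 11 0 3 13 false false), .t 1 (nat_lit 0) (.g 11 0 3 13 16 false true), .t 1 (nat_lit 0) (.g 11 0 3 13 16 false true), .t 2 (nat_lit 0xb6a) (.g 13 16 0 3 11 true false), .t 1 (nat_lit 0) (.g 16 13 0 3 11 false false), .t 1 (nat_lit 0) (.g 16 11 0 3 13 false false), .t 1 (nat_lit 0) (.g 11 0 3 13 17 false true), .t 1 (nat_lit 0) (.g 11 0 3 13 17 false true), .t 1 (nat_lit 0) (.g 11 0 3 13 17 false false), .t 2 (nat_lit 0xb6b) (.g 13 3 0 11 17 true true), .t 1 (nat_lit 0) (.g 17 13 0 3 11 false false), .t 1 (nat_lit 0) (.g 17 11 0 3 13 false false), .t 1 (nat_lit 0) (.g 11 0 3 13 18 false true), .t 1 (nat_lit 0) (.g 11 0 3 13 18 false false), .t 2 (nat_lit 0xb6c) (.g 13 18 0 3 11 true false), .t 2 (nat_lit 0xb6c) (.g 13 3 0 11 18 true true), .t 1 (nat_lit 0) (.g 18 13 0 3 11 false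 false), .t 1 (nat_lit 0) (.g 18 11 0 3 13 false false), .t 1 (nat_lit 0) (.g 11 0 3 14 15 false true), .t 1 (nat_lit 0) (.g 11 0 3 14 15 false false), .t 2 (nat_lit 0xb6d) (.g 14 3 0 11 15 true true), .t 1 (nat_lit 0) (.g 15 14 0 3 11 false false), .t 1 (nat_lit 0) (.st 3 11 15 14), .t 1 (nat_lit 0) (.g 11 0 3 14 16 false true), .t 1 (nat_lit 0) (.g 11 0 3 14 16 false true), .t 1 (nat_lit 0) (.g 11 0 3 14 16 false false), .t 2 (nat_lit 0xb6e) (.g 14 16 0 3 11 true false), .t 2 (nat_lit 0xb6e) (.g 14 3 0 11 16 true true), .t 1 (nat_lit 0) (.g 16 14 0 3 11 false false), .t 1 (nat_lit 0) (.g 11 0 3 14 17 false true), .t 1 (nat_lit 0) (.g 11 0 3 14 17 false true), .t 1 (nat_lit 0) (.g 11 0 3 14 17 false false), .t 2 (nat_lit 0xb6f) (.g 14 17 0 3 11 true false), .t 2 (nat_lit 0xb6f) (.g 14 3 0 11 17 true true), .t 1 (nat_lit 0) (.g 17 14 0 3 11 false false), .t 1 (nat_lit 0) (.st 3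 11 17 14), .t 2 (nat_lit 0xb70) (.g 14 11 0 3 18 false true), .t 1 (nat_lit 0) (.g 11 0 3 14 18 false true), .t 1 (nat_lit 0) (.g 11 0 3 14 18 false true), .t 1 (nat_lit 0) (.g 11 0 3 14 18 false false), .t 2 (nat_lit 0xb71) (.g 14 18 0 3 11 true false), .t 2 (nat_lit 0xb71) (.g 14 3 0 11 18 true true), .t 1 (nat_lit 0) (.g 18 14 0 3 11 false false), .t 1 (nat_lit 0) (.g 18 11 0 3 14 false false)] (by decide +kernel) (by decide +kernel)
theorem b179 : B 11456 11520 := Blk.of_chk [.t 1 (nat_lit 0) (.g 11 0 3 15 16 false true), .t 1 (nat_lit 0) (.g 11 0 3 15 16 false false), .t 2 (nat_lit 0xb72) (.g 15 3 0 11 16 true true), .t 1 (nat_lit 0) (.g 16 15 0 3 11 false false), .t 1 (nat_lit 0) (.g 16 11 0 3 15 false false), .t 1 (nat_lit 0) (.g 11 0 3 15 17 false true), .t 1 (nat_lit 0) (.g 11 0 3 15 17 false false), .t 2 (nat_lit 0xb73) (.g 15 17 0 3 11 true false), .t 2 (nat_lit 0xb73)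 (.g 15 3 0 11 17 true true), .t 1 (nat_lit 0) (.g 17 15 0 3 11 false false), .t 1 (nat_lit 0) (.g 17 11 0 3 15 false false), .t 1 (nat_lit 0) (.st 3 11 15 17), .t 1 (nat_lit 0) (.g 15 11 0 3 18 false true), .t 1 (nat_lit 0) (.g 11 0 3 15 18 false true), .t 1 (nat_lit 0) (.g 11 0 3 15 18 false false), .t 1 (nat_lit 0) (.g 18 15 0 3 11 false false), .t 1 (nat_lit 0) (.st 3 11 15 18), .t 1 (nat_lit 0) (.g 11 0 3 16 17 false true), .t 1 (nat_lit 0) (.g 11 0 3 16 17 false false), .t 2 (nat_lit 0xb74) (.g 16 17 0 3 11 true false), .t 2 (nat_lit 0xb74) (.g 16 3 0 11 17 true true), .t 1 (nat_lit 0) (.g 17 16 0 3 11 false false), .t 1 (nat_lit 0) (.g 17 11 0 3 16 false false), .t 1 (nat_lit 0) (.st 3 11 16 17), .t 1 (nat_lit 0) (.st 3 11 17 16), .t 2 (nat_lit 0xb75) (.g 16 11 0 3 18 false true), .t 1 (nat_lit 0) (.g 11 0 3 16 18 false true), .t 1 (nat_lit 0) (.g 11 0 3 16 18 false false),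 .t 2 (nat_lit 0xb76) (.g 16 18 0 3 11 true false), .t 2 (nat_lit 0xb76) (.g 16 3 0 11 18 true true), .t 1 (nat_lit 0) (.g 18 16 0 3 11 false false), .t 1 (nat_lit 0) (.st 3 11 18 16), .t 1 (nat_lit 0) (.g 11 0 3 17 18 false true), .t 2 (nat_lit 0xb77) (.g 17 18 0 3 11 true false), .t 2 (nat_lit 0xb77) (.g 17 3 0 11 18 true true), .t 1 (nat_lit 0) (.g 18 17 0 3 11 false false), .t 1 (nat_lit 0) (.g 18 11 0 3 17 false false), .t 2 (nat_lit 0xb66) (.g 12 0 3 13 14 false true), .t 2 (nat_lit 0xb68) (.g 13 14 0 3 12 true false), .t 1 (nat_lit 0) (.g 13 15 0 3 12 true false), .t 2 (nat_lit 0xb69) (.g 13 15 0 3 12 true false), .t 2 (nat_lit 0xb69) (.g 13 3 0 12 15 true true), .t 1 (nat_lit 0) (.g 15 13 0 3 12 false false), .t 2 (nat_lit 0xb67) (.g 12 0 3 13 16 false true), .t 2 (nat_lit 0xb6a) (.g 13 16 0 3 12 true false), .t 1 (nat_lit 0) (.g 16 13 0 3 12 false false), .t 1 (nat_lit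 0) (.g 17 13 0 3 12 false false), .t 2 (nat_lit 0xb6c) (.g 13 18 0 3 12 true false), .t 1 (nat_lit 0) (.g 18 13 0 3 12 false false), .t 1 (nat_lit 0) (.g 14 15 0 3 12 true false), .t 2 (nat_lit 0xb6d) (.g 14 3 0 12 15 true true), .t 1 (nat_lit 0) (.g 15 14 0 3 12 false false), .t 1 (nat_lit 0) (.g 15 12 0 3 14 false false), .t 2 (nat_lit 0xb67) (.g 12 0 3 14 16 false true), .t 2 (nat_lit 0xb67) (.g 12 0 3 14 16 false false), .t 2 (nat_lit 0xb6e) (.g 14 3 0 12 16 true true), .t 1 (nat_lit 0) (.g 16 14 0 3 12 false false), .t 1 (nat_lit 0) (.g 16 12 0 3 14 false false), .t 2 (nat_lit 0xb78) (.g 14 12 0 3 17 false true), .t 2 (nat_lit 0xb79) (.g 12 0 3 14 17 false true), .t 2 (nat_lit 0xb79) (.g 12 0 3 14 17 false false), .t 2 (nat_lit 0xb6f) (.g 14 17 0 3 12 true false), .t 2 (nat_lit 0xb6f) (.g 14 3 0 12 17 true true), .t 1 (nat_lit 0) (.g 17 14 0 3 12 false false)] (by decide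 +kernel) (by decide +kernel)
theorem b180 : B 11520 11584 := Blk.of_chk [.t 1 (nat_lit 0) (.g 17 12 0 3 14 false false), .t 2 (nat_lit 0xb7a) (.g 14 12 0 3 18 false true), .t 2 (nat_lit 0xb7b) (.g 12 0 3 14 18 false true), .t 2 (nat_lit 0xb7b) (.g 12 0 3 14 18 false false), .t 2 (nat_lit 0xb71) (.g 14 18 0 3 12 true false), .t 2 (nat_lit 0xb71) (.g 14 3 0 12 18 true true), .t 1 (nat_lit 0) (.g 18 14 0 3 12 false false), .t 2 (nat_lit 0xb67) (.g 12 0 3 15 16 false true), .t 1 (nat_lit 0) (.g 16 12 0 3 15 false false), .t 2 (nat_lit 0xb79) (.g 12 0 3 15 17 false true), .t 2 (nat_lit 0xb73) (.g 15 17 0 3 12 true false), .t 1 (nat_lit 0) (.g 17 15 0 3 12 false false), .t 1 (nat_lit 0) (.g 17 12 0 3 15 false false), .t 2 (nat_lit 0xb7c) (.g 15 12 0 3 18 false true), .t 2 (nat_lit 0xb7b) (.g 12 0 3 15 18 false true), .t 2 (nat_lit 0xb7d) (.g 16 12 0 3 17 false true), .t 2 (nat_lit 0xb79)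 (.g 12 0 3 16 17 false true), .t 2 (nat_lit 0xb74) (.g 16 17 0 3 12 true false), .t 1 (nat_lit 0) (.g 17 16 0 3 12 false false), .t 1 (nat_lit 0) (.st 3 12 17 16), .t 2 (nat_lit 0xb7b) (.g 12 0 3 16 18 false true), .t 2 (nat_lit 0xb76) (.g 16 18 0 3 12 true false), .t 2 (nat_lit 0xb76) (.g 16 3 0 12 18 true true), .t 1 (nat_lit 0) (.g 18 16 0 3 12 false false), .t 1 (nat_lit 0) (.st 3 12 16 18), .t 2 (nat_lit 0xb7e) (.g 17 12 0 3 18 false true), .t 2 (nat_lit 0xb7b) (.g 12 0 3 17 18 false true), .t 2 (nat_lit 0xb77) (.g 17 18 0 3 12 true false), .t 1 (nat_lit 0) (.g 18 17 0 3 12 false false), .t 2 (nat_lit 0xb7f) (.g 14 13 0 3 15 false true), .t 2 (nat_lit 0xb68) (.g 13 0 3 14 15 false true), .t 2 (nat_lit 0xb69) (.g 13 0 3 14 15 false true), .t 2 (nat_lit 0xb69) (.g 13 0 3 14 15 false false), .t 2 (nat_lit 0xb6d) (.g 14 15 0 3 13 true false), .t 2 (nat_lit 0xb6d) (.g 14 3 0 13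 15 true true), .t 1 (nat_lit 0) (.g 15 14 0 3 13 false false), .t 1 (nat_lit 0) (.g 15 13 0 3 14 false false), .t 1 (nat_lit 0) (.st 3 13 14 15), .t 2 (nat_lit 0xb80) (.g 14 13 0 3 16 false true), .t 2 (nat_lit 0xb68) (.g 13 0 3 14 16 false true), .t 2 (nat_lit 0xb6a) (.g 13 0 3 14 16 false true), .t 2 (nat_lit 0xb6a) (.g 13 0 3 14 16 false false), .t 2 (nat_lit 0xb6e) (.g 14 16 0 3 13 true false), .t 2 (nat_lit 0xb6e) (.g 14 3 0 13 16 true true), .t 1 (nat_lit 0) (.g 16 14 0 3 13 false false), .t 2 (nat_lit 0xb81) (.g 14 13 0 3 17 false true), .t 2 (nat_lit 0xb68) (.g 13 0 3 14 17 false true), .t 2 (nat_lit 0xb6b) (.g 13 0 3 14 17 false true), .t 2 (nat_lit 0xb6b) (.g 13 0 3 14 17 false false), .t 2 (nat_lit 0xb6f) (.g 14 17 0 3 13 true false), .t 2 (nat_lit 0xb6f) (.g 14 3 0 13 17 true true), .t 1 (nat_lit 0) (.g 17 14 0 3 13 false false), .t 2 (nat_lit 0xb82) (.g 14 13 0 3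 18 false true), .t 2 (nat_lit 0xb68) (.g 13 0 3 14 18 false true), .t 2 (nat_lit 0xb6c) (.g 13 0 3 14 18 false true), .t 2 (nat_lit 0xb6c) (.g 13 0 3 14 18 false false), .t 2 (nat_lit 0xb71) (.g 14 3 0 13 18 true true), .t 1 (nat_lit 0) (.g 18 14 0 3 13 false false), .t 1 (nat_lit 0) (.g 18 13 0 3 14 false false), .t 2 (nat_lit 0xb83) (.g 15 13 0 3 16 false true), .t 2 (nat_lit 0xb6a) (.g 13 0 3 15 16 false true), .t 2 (nat_lit 0xb6a) (.g 13 0 3 15 16 false false), .t 2 (nat_lit 0xb72) (.g 15 16 0 3 13 true false), .t 1 (nat_lit 0) (.g 16 15 0 3 13 false false)] (by decide +kernel) (by decide +kernel)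
theorem b181 : B 11584 11648 := Blk.of_chk [.t 1 (nat_lit 0) (.g 16 13 0 3 15 false false), .t 1 (nat_lit 0) (.st 3 13 16 15), .t 2 (nat_lit 0xb6b) (.g 13 0 3 15 17 false true), .t 2 (nat_lit 0xb6b) (.g 13 0 3 15 17 false false), .t 2 (nat_lit 0xb73) (.g 15 17 0 3 13 true false), .t 2 (nat_lit 0xb73) (.g 15 3 0 13 17 true true), .t 1 (nat_lit 0) (.g 17 15 0 3 13 false false), .t 1 (nat_lit 0) (.g 17 13 0 3 15 false false), .t 1 (nat_lit 0) (.st 3 13 17 15), .t 2 (nat_lit 0xb84) (.g 15 13 0 3 18 false true), .t 2 (nat_lit 0xb6c) (.g 13 0 3 15 18 false true), .t 2 (nat_lit 0xb6c) (.g 13 0 3 15 18 false false), .t 2 (nat_lit 0xb85) (.g 15 18 0 3 13 true false), .t 2 (nat_lit 0xb85) (.g 15 3 0 13 18 true true), .t 1 (nat_lit 0) (.g 18 15 0 3 13 false false), .t 1 (nat_lit 0) (.g 18 13 0 3 15 false false), .t 2 (nat_lit 0xb86) (.g 16 13 0 3 17 false true), .t 2 (nat_lit 0xb6b) (.g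 13 0 3 16 17 false true), .t 2 (nat_lit 0xb6b) (.g 13 0 3 16 17 false false), .t 2 (nat_lit 0xb74) (.g 16 17 0 3 13 true false), .t 1 (nat_lit 0) (.g 17 16 0 3 13 false false), .t 1 (nat_lit 0) (.g 17 13 0 3 16 false false), .t 1 (nat_lit 0) (.st 3 13 16 17), .t 1 (nat_lit 0) (.st 3 13 17 16), .t 2 (nat_lit 0xb87) (.g 16 13 0 3 18 false true), .t 2 (nat_lit 0xb6c) (.g 13 0 3 16 18 false true), .t 2 (nat_lit 0xb6c) (.g 13 0 3 16 18 false false), .t 2 (nat_lit 0xb76) (.g 16 18 0 3 13 true false), .t 2 (nat_lit 0xb76) (.g 16 3 0 13 18 true true), .t 1 (nat_lit 0) (.g 18 16 0 3 13 false false), .t 1 (nat_lit 0) (.g 18 13 0 3 16 false false), .t 1 (nat_lit 0) (.st 3 13 18 16), .t 2 (nat_lit 0xb88) (.g 17 13 0 3 18 false true), .t 2 (nat_lit 0xb6c) (.g 13 0 3 17 18 false true), .t 2 (nat_lit 0xb6c) (.g 13 0 3 17 18 false false), .t 2 (nat_lit 0xb77) (.g 17 18 0 3 13 true false), .t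 2 (nat_lit 0xb77) (.g 17 3 0 13 18 true true), .t 1 (nat_lit 0) (.g 18 17 0 3 13 false false), .t 1 (nat_lit 0) (.g 18 13 0 3 17 false false), .t 1 (nat_lit 0) (.st 3 13 17 18), .t 2 (nat_lit 0xb6d) (.g 15 14 0 3 16 false true), .t 4 (nat_lit 0xb890b6e0b6d) (.g 15 14 0 3 16 false true), .t 4 (nat_lit 0xb8a0b6e0b6d) (.g 15 3 0 14 16 false true), .t 2 (nat_lit 0xb6e) (.g 14 0 3 15 16 false true), .t 2 (nat_lit 0xb6e) (.g 14 0 3 15 16 false false), .t 2 (nat_lit 0xb72) (.g 15 3 0 14 16 true true), .t 1 (nat_lit 0) (.g 16 15 0 3 14 false false), .t 1 (nat_lit 0) (.g 16 14 0 3 15 false false), .t 1 (nat_lit 0) (.st 3 14 15 17), .t 1 (nat_lit 0) (.g 14 17 0 3 15 true true), .t 2 (nat_lit 0xb6d) (.g 15 14 0 3 17 false true), .t 2 (nat_lit 0xb6f) (.g 14 0 3 15 17 false true), .t 2 (nat_lit 0xb6f) (.g 14 0 3 15 17 false false), .t 2 (nat_lit 0xb73) (.g 15 17 0 3 14 true false), .t 2 (nat_lit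 0xb73) (.g 15 3 0 14 17 true true), .t 1 (nat_lit 0) (.g 17 15 0 3 14 false false), .t 1 (nat_lit 0) (.st 3 14 15 18), .t 1 (nat_lit 0) (.g 14 15 0 3 18 true true), .t 2 (nat_lit 0xb6d) (.g 15 14 0 3 18 false true), .t 2 (nat_lit 0xb6d) (.g 15 3 0 14 18 false true), .t 2 (nat_lit 0xb8b) (.g 15 14 0 3 18 false true), .t 1 (nat_lit 0) (.g 15 18 0 3 14 true false), .t 2 (nat_lit 0xb71) (.g 14 0 3 15 18 false true), .t 2 (nat_lit 0xb71) (.g 14 0 3 15 18 false false)] (by decide +kernel) (by decide +kernel)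
theorem b182 : B 11648 11712 := Blk.of_chk [.t 2 (nat_lit 0xb85) (.g 15 18 0 3 14 true false), .t 2 (nat_lit 0xb85) (.g 15 3 0 14 18 true true), .t 1 (nat_lit 0) (.g 18 15 0 3 14 false false), .t 1 (nat_lit 0) (.g 18 14 0 3 15 false false), .t 1 (nat_lit 0) (.st 3 14 16 17), .t 1 (nat_lit 0) (.g 14 16 0 3 17 true true), .t 2 (nat_lit 0xb6e) (.g 16 14 0 3 17 false true), .t 2 (nat_lit 0xb6f) (.g 14 0 3 16 17 false true), .t 2 (nat_lit 0xb6f) (.g 14 0 3 16 17 false false), .t 2 (nat_lit 0xb74) (.g 16 17 0 3 14 true false), .t 2 (nat_lit 0xb74) (.g 16 3 0 14 17 true true), .t 1 (nat_lit 0) (.g 17 16 0 3 14 false false), .t 1 (nat_lit 0) (.g 17 14 0 3 16 false false), .t 1 (nat_lit 0) (.st 3 14 16 18), .t 1 (nat_lit 0) (.g 14 16 0 3 18 true true), .t 2 (nat_lit 0xb6e) (.g 16 3 0 14 18 false true), .t 2 (nat_lit 0xb71) (.g 14 0 3 16 18 false true), .t 2 (nat_lit 0xb71) (.g 14 0 3 16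 18 false false), .t 2 (nat_lit 0xb76) (.g 16 3 0 14 18 true true), .t 1 (nat_lit 0) (.g 18 16 0 3 14 false false), .t 1 (nat_lit 0) (.g 18 14 0 3 16 false false), .t 1 (nat_lit 0) (.g 14 17 0 3 18 true true), .t 2 (nat_lit 0xb6f) (.g 17 14 0 3 18 false true), .t 1 (nat_lit 0) (.g 17 18 0 3 14 true false), .t 2 (nat_lit 0xb71) (.g 14 0 3 17 18 false false), .t 2 (nat_lit 0xb77) (.g 17 18 0 3 14 true false), .t 2 (nat_lit 0xb77) (.g 17 3 0 14 18 true true), .t 1 (nat_lit 0) (.g 18 17 0 3 14 false false), .t 1 (nat_lit 0) (.g 18 14 0 3 17 false false), .t 1 (nat_lit 0) (.st 3 14 18 17), .t 1 (nat_lit 0) (.g 15 16 0 3 17 true true), .t 2 (nat_lit 0xb72) (.g 16 15 0 3 17 false true), .t 2 (nat_lit 0xb73) (.g 15 0 3 16 17 false false), .t 2 (nat_lit 0xb74) (.g 16 17 0 3 15 true false), .t 2 (nat_lit 0xb74) (.g 16 3 0 15 17 true true), .t 1 (nat_lit 0) (.g 17 16 0 3 15 false false),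 .t 2 (nat_lit 0xb72) (.g 16 15 0 3 18 false true), .t 2 (nat_lit 0xb72) (.g 15 0 3 16 18 false true), .t 2 (nat_lit 0xb85) (.g 15 0 3 16 18 false false), .t 2 (nat_lit 0xb76) (.g 16 18 0 3 15 true false), .t 2 (nat_lit 0xb76) (.g 16 3 0 15 18 true true), .t 1 (nat_lit 0) (.g 18 16 0 3 15 false false), .t 1 (nat_lit 0) (.g 18 15 0 3 16 false false), .t 1 (nat_lit 0) (.st 3 15 16 18), .t 1 (nat_lit 0) (.st 3 15 18 17), .t 1 (nat_lit 0) (.g 15 18 0 3 17 true true), .t 4 (nat_lit 0xb8c0b850b73) (.g 17 15 0 3 18 false true), .t 4 (nat_lit 0xb8d0b850b73) (.g 17 3 0 15 18 false true), .t 2 (nat_lit 0xb77) (.g 17 18 0 3 15 true false), .t 2 (nat_lit 0xb77) (.g 17 3 0 15 18 true true), .t 1 (nat_lit 0) (.g 18 17 0 3 15 false false), .t 1 (nat_lit 0) (.g 18 15 0 3 17 false false), .t 1 (nat_lit 0) (.st 3 15 17 18), .t 2 (nat_lit 0xb74) (.g 17 3 0 16 18 false true), .t 4 (nat_lit 0xb8e0b760b74)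 (.g 17 3 0 16 18 false true), .t 2 (nat_lit 0xb76) (.g 16 0 3 17 18 false false), .t 2 (nat_lit 0xb77) (.g 17 18 0 3 16 true false), .t 2 (nat_lit 0xb77) (.g 17 3 0 16 18 true true), .t 1 (nat_lit 0) (.g 18 16 0 3 17 false false), .t 1 (nat_lit 0) (.g 5 6 0 4 7 true true), .t 1 (nat_lit 0) (.g 8 0 4 5 6 true true), .t 1 (nat_lit 0) (.g 5 9 0 4 6 true true), .t 1 (nat_lit 0) (.g 6 5 0 4 10 false true), .t 1 (nat_lit 0) (.g 4 6 0 5 12 true false)] (by decide +kernel) (by decide +kernel)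
theorem b183 : B 11712 11776 := Blk.of_chk [.t 2 (nat_lit 0xb8f) (.g 0 11 4 5 12 true true), .t 2 (nat_lit 0xb90) (.g 0 11 4 5 12 true true), .t 2 (nat_lit 0xb91) (.g 0 11 4 6 12 true true), .t 1 (nat_lit 0) (.g 4 5 0 6 13 true false), .t 1 (nat_lit 0) (.g 4 6 0 5 13 true false), .t 2 (nat_lit 0xb92) (.g 0 11 4 5 13 true true), .t 2 (nat_lit 0xb93) (.g 0 11 4 6 13 true true), .t 2 (nat_lit 0xb94) (.g 0 11 4 6 13 true true), .t 1 (nat_lit 0) (.g 4 6 0 5 14 true false), .t 2 (nat_lit 0xb95) (.g 0 11 4 5 14 true true), .t 2 (nat_lit 0xb96) (.g 0 11 4 6 14 true true), .t 2 (nat_lit 0xb97) (.g 0 11 5 6 15 true true), .t 1 (nat_lit 0) (.g 6 5 0 4 15 false true), .t 2 (nat_lit 0xb98) (.g 0 11 4 6 16 true true), .t 1 (nat_lit 0) (.g 4 6 0 5 16 true false), .t 2 (nat_lit 0xb99) (.g 0 11 4 6 17 true true), .t 1 (nat_lit 0) (.st 17 4 6 5), .t 1 (nat_lit 0) (.g 4 5 0 6 17 true false), .t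 1 (nat_lit 0) (.g 4 6 0 5 17 true false), .t 2 (nat_lit 0xb9a) (.g 0 11 4 6 18 true true), .t 1 (nat_lit 0) (.st 18 4 6 5), .t 2 (nat_lit 0xb9b) (.g 0 11 4 5 18 true true), .t 1 (nat_lit 0) (.g 4 7 0 5 11 true false), .t 1 (nat_lit 0) (.g 5 11 0 4 7 false true), .t 1 (nat_lit 0) (.g 7 0 4 5 11 true false), .t 1 (nat_lit 0) (.g 4 7 0 5 12 true false), .t 2 (nat_lit 0xb9c) (.g 0 11 4 5 12 true true), .t 2 (nat_lit 0xb9d) (.g 0 11 4 7 12 true true), .t 2 (nat_lit 0xb9e) (.g 0 11 4 5 13 true true), .t 2 (nat_lit 0xb9f) (.g 0 11 4 7 13 true true), .t 1 (nat_lit 0) (.g 7 4 0 5 14 false true), .t 2 (nat_lit 0xba0) (.g 4 0 5 7 14 false false), .t 1 (nat_lit 0) (.g 4 0 5 7 14 false false), .t 2 (nat_lit 0xba1) (.g 5 14 0 4 7 false true), .t 2 (nat_lit 0xba2) (.g 0 11 4 5 14 true true), .t 2 (nat_lit 0xba3) (.g 0 11 4 7 14 true true), .t 2 (nat_lit 0xba4) (.g 0 11 4 7 15 true true), .t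 2 (nat_lit 0xba5) (.g 0 11 5 7 15 true true), .t 1 (nat_lit 0) (.g 7 4 0 5 15 false true), .t 2 (nat_lit 0xba6) (.g 4 0 5 7 15 false false), .t 2 (nat_lit 0xba4) (.g 5 15 0 4 7 false true), .t 1 (nat_lit 0) (.g 4 7 0 5 15 true false), .t 2 (nat_lit 0xba7) (.g 0 11 4 5 15 true true), .t 2 (nat_lit 0xba8) (.g 0 11 4 7 15 true true), .t 2 (nat_lit 0xba9) (.g 0 11 4 7 16 true true), .t 1 (nat_lit 0) (.g 7 4 0 5 16 false true), .t 2 (nat_lit 0xbaa) (.g 4 0 5 7 16 false false), .t 1 (nat_lit 0) (.g 5 16 0 4 7 false true), .t 1 (nat_lit 0) (.g 4 7 0 5 16 true false), .t 1 (nat_lit 0) (.g 4 7 0 5 16 true false), .t 2 (nat_lit 0xbab) (.g 0 11 4 5 16 true true), .t 2 (nat_lit 0xbac) (.g 0 11 4 7 17 true true), .t 2 (nat_lit 0xbad) (.g 0 11 5 7 17 true true), .t 1 (nat_lit 0) (.g 7 4 0 5 17 false true), .t 2 (nat_lit 0xbae) (.g 4 0 5 7 17 false false), .t 1 (nat_lit 0) (.g 4 0 5 7 17 false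 false), .t 2 (nat_lit 0xbac) (.g 5 17 0 4 7 false true), .t 1 (nat_lit 0) (.g 4 7 0 5 17 true false), .t 2 (nat_lit 0xbaf) (.g 0 11 4 7 17 true true), .t 2 (nat_lit 0xbb0) (.g 0 11 4 7 18 true true), .t 2 (nat_lit 0xbb1) (.g 0 11 5 7 18 true true), .t 2 (nat_lit 0xbb2) (.g 4 0 5 7 18 false false), .t 1 (nat_lit 0) (.g 5 18 0 4 7 true true), .t 1 (nat_lit 0) (.g 5 18 0 4 7 false true)] (by decide +kernel) (by decide +kernel)
theorem b184 : B 11776 11840 := Blk.of_chk [.t 2 (nat_lit 0xbb0) (.g 5 18 0 4 7 false true), .t 2 (nat_lit 0xbb3) (.g 0 11 4 7 18 true true), .t 1 (nat_lit 0) (.g 4 5 0 8 11 true false), .t 1 (nat_lit 0) (.g 4 8 0 5 11 true false), .t 1 (nat_lit 0) (.g 5 11 0 4 8 false true), .t 1 (nat_lit 0) (.g 8 0 4 5 11 true false), .t 1 (nat_lit 0) (.g 4 5 0 8 12 true false), .t 1 (nat_lit 0) (.g 4 8 0 5 12 true false), .t 2 (nat_lit 0xbb4) (.g 0 11 4 5 12 true true),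 .t 2 (nat_lit 0xbb5) (.g 0 11 4 8 12 true true), .t 1 (nat_lit 0) (.g 4 5 0 8 13 true false), .t 1 (nat_lit 0) (.g 4 8 0 5 13 true false), .t 2 (nat_lit 0xbb6) (.g 0 11 4 5 13 true true), .t 2 (nat_lit 0xbb7) (.g 0 11 4 5 13 true true), .t 2 (nat_lit 0xbb8) (.g 0 11 4 8 13 true true), .t 2 (nat_lit 0xbb9) (.g 0 11 4 8 13 true true), .t 1 (nat_lit 0) (.g 4 5 0 8 14 true false), .t 1 (nat_lit 0) (.g 4 8 0 5 14 true false), .t 2 (nat_lit 0xbba) (.g 0 11 4 8 14 true true), .t 2 (nat_lit 0xbbb) (.g 0 11 4 8 15 true true), .t 2 (nat_lit 0xbbc) (.g 0 11 5 8 15 true true), .t 1 (nat_lit 0) (.g 8 5 0 4 15 false true), .t 1 (nat_lit 0) (.g 4 5 0 8 15 true false), .t 2 (nat_lit 0xbbd) (.g 0 11 4 8 15 true true), .t 2 (nat_lit 0xbbe) (.g 0 11 4 8 16 true true), .t 2 (nat_lit 0xbbf) (.g 0 11 5 8 16 true true), .t 1 (nat_lit 0) (.g 8 5 0 4 16 false true), .t 2 (nat_lit 0xbc0) (.g 4 0 5 8 16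 false false), .t 1 (nat_lit 0) (.g 5 8 0 4 16 true true), .t 2 (nat_lit 0xbc1) (.g 0 11 4 5 16 true true), .t 2 (nat_lit 0xbc2) (.g 0 11 4 8 17 true true), .t 1 (nat_lit 0) (.g 8 5 0 4 17 false true), .t 2 (nat_lit 0xbc3) (.g 0 11 4 8 17 true true), .t 2 (nat_lit 0xbc4) (.g 0 11 4 8 18 true true), .t 2 (nat_lit 0xbc5) (.g 0 11 4 8 18 true true), .t 2 (nat_lit 0xbc6) (.g 0 11 5 8 18 true true), .t 2 (nat_lit 0xbc7) (.g 0 11 4 5 18 true true), .t 1 (nat_lit 0) (.g 4 0 5 9 10 false false), .t 1 (nat_lit 0) (.g 5 4 0 9 11 false false), .t 1 (nat_lit 0) (.g 9 0 4 5 11 true true), .t 2 (nat_lit 0xbc8) (.g 0 11 4 9 12 true true), .t 1 (nat_lit 0) (.st 13 4 5 9), .t 1 (nat_lit 0) (.st 13 4 9 5), .t 1 (nat_lit 0) (.g 4 9 0 5 13 true false), .t 2 (nat_lit 0xbc9) (.g 0 11 4 5 13 true true), .t 2 (nat_lit 0xbca) (.g 0 11 4 9 13 true true), .t 2 (nat_lit 0xbcb) (.g 0 11 4 5 14 true true),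 .t 2 (nat_lit 0xbcc) (.g 0 11 4 9 14 true true), .t 2 (nat_lit 0xbcd) (.g 0 11 4 5 15 true true), .t 2 (nat_lit 0xbce) (.g 0 11 4 9 15 true true), .t 2 (nat_lit 0xbcf) (.g 0 11 4 9 16 true true), .t 1 (nat_lit 0) (.g 4 5 0 9 17 true false), .t 2 (nat_lit 0xbd0) (.g 0 11 4 5 17 true true), .t 2 (nat_lit 0xbd1) (.g 0 11 4 5 18 true true), .t 1 (nat_lit 0) (.g 4 10 0 5 11 true false), .t 1 (nat_lit 0) (.g 5 4 0 10 11 false false), .t 1 (nat_lit 0) (.g 5 11 0 4 10 false true), .t 1 (nat_lit 0) (.g 10 0 4 5 11 true true), .t 1 (nat_lit 0) (.g 10 0 4 5 11 true false), .t 1 (nat_lit 0) (.g 4 10 0 5 12 true false), .t 2 (nat_lit 0xbd2) (.g 0 11 4 5 12 true true), .t 1 (nat_lit 0) (.g 4 10 0 5 13 true false), .t 2 (nat_lit 0xbd3) (.g 0 11 4 5 13 true true), .t 2 (nat_lit 0xbd4) (.g 0 11 4 5 13 true true)] (by decide +kernel) (by decide +kernel)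
theorem b185 : B 11840 11904 := Blk.of_chk [.t 2 (nat_lit 0xbd5) (.g 0 11 4 10 13 true true), .t 1 (nat_lit 0) (.g 4 10 0 5 14 true false), .t 2 (nat_lit 0xbd6) (.g 0 11 4 5 14 true true), .t 2 (nat_lit 0xbd7) (.g 0 11 4 5 14 true true), .t 2 (nat_lit 0xbd8) (.g 0 11 4 10 14 true true), .t 2 (nat_lit 0xbd9) (.g 0 11 5 10 15 true true), .t 1 (nat_lit 0) (.g 4 10 0 5 15 true false), .t 2 (nat_lit 0xbda) (.g 0 11 4 5 15 true true), .t 2 (nat_lit 0xbdb) (.g 0 11 5 10 16 true true), .t 1 (nat_lit 0) (.g 5 16 0 4 10 false true), .t 2 (nat_lit 0xbdc) (.g 5 16 0 4 10 false true), .t 2 (nat_lit 0xbdd) (.g 0 11 5 10 17 true true), .t 2 (nat_lit 0xbde) (.g 4 0 5 10 17 false false), .t 1 (nat_lit 0) (.g 5 17 0 4 10 false true), .t 2 (nat_lit 0xbdf) (.g 5 17 0 4 10 false true), .t 1 (nat_lit 0) (.g 4 5 0 10 17 true false), .t 1 (nat_lit 0) (.g 4 10 0 5 17 true false), .t 2 (nat_lit 0xbe0)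 (.g 0 11 4 5 17 true true), .t 2 (nat_lit 0xbe1) (.g 4 0 5 10 18 false false), .t 2 (nat_lit 0xbe2) (.g 5 18 0 4 10 false true), .t 2 (nat_lit 0xbe3) (.g 0 11 4 5 18 true true), .t 2 (nat_lit 0xbe4) (.g 0 11 4 10 18 true true), .t 1 (nat_lit 0) (.g 11 0 4 5 12 false false), .t 1 (nat_lit 0) (.g 4 11 0 5 12 false false), .t 1 (nat_lit 0) (.g 11 0 4 5 13 false true), .t 1 (nat_lit 0) (.g 11 0 4 5 13 false false), .t 1 (nat_lit 0) (.g 4 13 0 5 11 false false), .t 1 (nat_lit 0) (.g 4 11 0 5 13 false false), .t 1 (nat_lit 0) (.g 11 0 4 5 14 false true), .t 2 (nat_lit 0xbe5) (.g 11 0 4 5 14 false true), .t 2 (nat_lit 0xbe6) (.g 11 0 4 5 14 false false), .t 2 (nat_lit 0xbe7) (.g 4 5 0 11 15 true true), .t 1 (nat_lit 0) (.g 5 4 0 11 15 false true), .t 1 (nat_lit 0) (.g 11 0 4 5 15 false true), .t 2 (nat_lit 0xbe8) (.g 4 5 0 11 16 true true), .t 2 (nat_lit 0xbe9) (.g 11 0 4 5 16 false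 true), .t 2 (nat_lit 0xbea) (.g 4 5 0 11 17 true true), .t 1 (nat_lit 0) (.g 5 4 0 11 17 false true), .t 2 (nat_lit 0xbeb) (.g 11 0 4 5 17 false true), .t 2 (nat_lit 0xbec) (.g 4 5 0 11 18 true true), .t 3 (nat_lit 0xbee0bed) (.a 4 5 12 13 true), .t 2 (nat_lit 0xbed) (.g 13 4 0 5 12 true false), .t 2 (nat_lit 0xbef) (.g 0 11 4 12 13 true true), .t 2 (nat_lit 0xbf0) (.g 0 11 4 12 13 true true), .t 3 (nat_lit 0xbf10bed) (.g 0 11 5 12 13 true true), .t 2 (nat_lit 0xbf2) (.g 4 5 0 12 14 true true), .t 3 (nat_lit 0xbf30bf2) (.a 4 5 12 14 true), .t 2 (nat_lit 0xbf2) (.g 14 4 0 5 12 true false), .t 2 (nat_lit 0xbf4) (.g 0 11 4 12 14 true true), .t 3 (nat_lit 0xbf50bf2) (.g 0 11 5 12 14 true true), .t 2 (nat_lit 0xbe7) (.g 4 5 0 12 15 true true), .t 3 (nat_lit 0xbf60be7) (.a 4 5 12 15 true), .t 2 (nat_lit 0xbe7) (.g 15 4 0 5 12 true false), .t 2 (nat_lit 0xbe8) (.g 4 5 0 12 16 true true),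 .t 3 (nat_lit 0xbf70be8) (.a 4 5 12 16 true), .t 2 (nat_lit 0xbe8) (.g 16 4 0 5 12 true false), .t 2 (nat_lit 0xbea) (.g 4 5 0 12 17 true true), .t 3 (nat_lit 0xbf80bea) (.a 4 5 12 17 true), .t 2 (nat_lit 0xbea) (.g 17 4 0 5 12 true false), .t 2 (nat_lit 0xbf9) (.g 0 11 4 12 17 true true), .t 2 (nat_lit 0xbec) (.g 4 5 0 12 18 true true), .t 2 (nat_lit 0xbf2) (.g 4 5 0 13 14 true true), .t 3 (nat_lit 0xbfa0bf2) (.a 4 5 13 14 true), .t 3 (nat_lit 0xbfb0bf2) (.a 4 5 13 14 false)] (by decide +kernel) (by decide +kernel)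
theorem b186 : B 11904 11968 := Blk.of_chk [.t 2 (nat_lit 0xbf2) (.g 14 4 0 5 13 true false), .t 2 (nat_lit 0xbf2) (.g 14 5 0 4 13 true false), .t 2 (nat_lit 0xbfc) (.g 0 11 4 13 14 true true), .t 2 (nat_lit 0xbfd) (.g 0 11 4 13 14 true true), .t 3 (nat_lit 0xbfe0bf2) (.g 0 11 5 13 14 true true), .t 2 (nat_lit 0xbe7) (.g 4 5 0 13 15 true true), .t 3 (nat_lit 0xbff0bed) (.g 5 0 4 13 15 true false), .t 2 (nat_lit 0xc00) (.g 0 11 4 13 15 true true), .t 2 (nat_lit 0xbe8) (.g 4 5 0 13 16 true true), .t 3 (nat_lit 0xc010bed) (.g 5 0 4 13 16 true false), .t 2 (nat_lit 0xc02) (.g 0 11 4 13 16 true true), .t 2 (nat_lit 0xbea) (.g 4 5 0 13 17 true true), .t 2 (nat_lit 0xbed) (.g 5 4 0 13 17 false true), .t 2 (nat_lit 0xbea) (.g 17 4 0 5 13 true false), .t 2 (nat_lit 0xc03) (.g 0 11 4 13 17 true true), .t 3 (nat_lit 0xc040bea) (.g 0 11 5 13 17 true true), .t 2 (nat_lit 0xbec) (.g 4 5 0 13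 18 true true), .t 2 (nat_lit 0xc05) (.g 0 11 4 13 18 true true), .t 2 (nat_lit 0xbe7) (.g 4 5 0 14 15 true true), .t 3 (nat_lit 0xc060bf2) (.g 5 0 4 14 15 true false), .t 3 (nat_lit 0xc070be7) (.a 4 5 14 15 true), .t 2 (nat_lit 0xbe8) (.g 4 5 0 14 16 true true), .t 3 (nat_lit 0xc080bf2) (.g 5 0 4 14 16 true false), .t 2 (nat_lit 0xbea) (.g 4 5 0 14 17 true true), .t 2 (nat_lit 0xbf2) (.g 5 4 0 14 17 false true), .t 3 (nat_lit 0xc090bf2) (.g 5 0 4 14 17 true false), .t 3 (nat_lit 0xc0a0bea) (.a 4 5 14 17 true), .t 2 (nat_lit 0xc0b) (.g 0 11 4 14 17 true true), .t 2 (nat_lit 0xbec) (.g 4 5 0 14 18 true true), .t 3 (nat_lit 0xc0c0be7) (.g 0 11 4 15 16 true true), .t 2 (nat_lit 0xc0d) (.g 0 11 5 15 16 true true), .t 2 (nat_lit 0xc0e) (.g 0 11 5 15 16 true true), .t 2 (nat_lit 0xbe8) (.g 4 5 0 15 16 true true), .t 2 (nat_lit 0xbe8) (.g 16 4 0 5 15 true false), .t 2 (nat_lit 0xc0f)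 (.g 0 11 4 15 16 true true), .t 2 (nat_lit 0xbea) (.g 4 5 0 15 17 true true), .t 3 (nat_lit 0xc100bea) (.a 4 5 15 17 true), .t 2 (nat_lit 0xbea) (.g 17 4 0 5 15 true false), .t 2 (nat_lit 0xc11) (.g 0 11 4 15 17 true true), .t 2 (nat_lit 0xbe7) (.g 5 4 0 15 18 false true), .t 3 (nat_lit 0xc120bec) (.a 4 5 15 18 true), .t 2 (nat_lit 0xbec) (.g 18 4 0 5 15 true false), .t 2 (nat_lit 0xc13) (.g 0 11 4 15 18 true true), .t 3 (nat_lit 0xc140bec) (.g 0 11 5 15 18 true true), .t 2 (nat_lit 0xbea) (.g 17 4 0 5 16 true false), .t 2 (nat_lit 0xc15) (.g 0 11 4 16 17 true true), .t 3 (nat_lit 0xc160bea) (.g 0 11 5 16 17 true true), .t 2 (nat_lit 0xbec) (.g 18 4 0 5 16 true false), .t 2 (nat_lit 0xc17) (.g 0 11 4 16 18 true true), .t 3 (nat_lit 0xc180bea) (.g 0 11 4 17 18 true true), .t 3 (nat_lit 0xc190bec) (.a 4 5 17 18 true), .t 2 (nat_lit 0xbec) (.g 18 4 0 5 17 true false), .t 2 (nat_lit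 0xc1a) (.g 0 11 4 17 18 true true), .t 1 (nat_lit 0) (.g 4 7 0 6 11 true false), .t 1 (nat_lit 0) (.g 7 0 4 6 11 true false), .t 1 (nat_lit 0) (.g 4 7 0 6 12 true false), .t 2 (nat_lit 0xc1b) (.g 0 11 4 6 12 true true), .t 2 (nat_lit 0xc1c) (.g 0 11 4 7 12 true true), .t 2 (nat_lit 0xc1d) (.g 0 11 4 6 13 true true), .t 2 (nat_lit 0xc1e) (.g 0 11 4 7 13 true true), .t 2 (nat_lit 0xc1f) (.g 0 11 6 7 14 true true), .t 2 (nat_lit 0xc20) (.g 4 0 6 7 14 false false), .t 2 (nat_lit 0xc21) (.g 6 14 0 4 7 false true), .t 2 (nat_lit 0xc22) (.g 0 11 4 6 14 true true)] (by decide +kernel) (by decide +kernel)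
theorem b187 : B 11968 12032 := Blk.of_chk [.t 2 (nat_lit 0xc23) (.g 0 11 4 7 14 true true), .t 2 (nat_lit 0xc24) (.g 0 11 4 7 15 true true), .t 1 (nat_lit 0) (.g 7 4 0 6 15 false true), .t 2 (nat_lit 0xc25) (.g 4 0 6 7 15 false false), .t 1 (nat_lit 0) (.g 7 0 4 6 15 true false), .t 1 (nat_lit 0) (.g 6 15 0 4 7 false true), .t 2 (nat_lit 0xc24) (.g 6 15 0 4 7 false true), .t 1 (nat_lit 0) (.g 4 7 0 6 15 true false), .t 2 (nat_lit 0xc26) (.g 0 11 4 6 15 true true), .t 2 (nat_lit 0xc27) (.g 0 11 4 7 15 true true), .t 2 (nat_lit 0xc28) (.g 0 11 4 7 16 true true), .t 2 (nat_lit 0xc29) (.g 0 11 6 7 16 true true), .t 2 (nat_lit 0xc2a) (.g 4 0 6 7 16 false false), .t 1 (nat_lit 0) (.g 6 16 0 4 7 false true), .t 2 (nat_lit 0xc28) (.g 6 16 0 4 7 false true), .t 2 (nat_lit 0xc2b) (.g 0 11 4 6 16 true true), .t 2 (nat_lit 0xc2c) (.g 0 11 4 7 16 true true), .t 2 (nat_lit 0xc2d) (.g 0 11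 4 7 17 true true), .t 2 (nat_lit 0xc2e) (.g 0 11 6 7 17 true true), .t 1 (nat_lit 0) (.g 7 4 0 6 17 false true), .t 1 (nat_lit 0) (.g 7 4 0 6 17 false true), .t 2 (nat_lit 0xc2f) (.g 4 0 6 7 17 false false), .t 1 (nat_lit 0) (.g 6 17 0 4 7 true true), .t 1 (nat_lit 0) (.g 6 17 0 4 7 false true), .t 2 (nat_lit 0xc30) (.g 0 11 4 7 17 true true), .t 2 (nat_lit 0xc31) (.g 0 11 4 7 18 true true), .t 2 (nat_lit 0xc32) (.g 0 11 6 7 18 true true), .t 2 (nat_lit 0xc33) (.g 4 0 6 7 18 false false), .t 1 (nat_lit 0) (.g 7 0 4 6 18 true false), .t 1 (nat_lit 0) (.g 6 18 0 4 7 false true), .t 1 (nat_lit 0) (.g 6 18 0 4 7 false true), .t 2 (nat_lit 0xc31) (.g 6 18 0 4 7 false true), .t 2 (nat_lit 0xc34) (.g 0 11 4 6 18 true true), .t 2 (nat_lit 0xc35) (.g 0 11 4 7 18 true true), .t 1 (nat_lit 0) (.g 4 6 0 8 11 true false), .t 1 (nat_lit 0) (.g 4 6 0 8 12 true false), .t 1 (nat_lit 0) (.g 4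 6 0 8 13 true false), .t 1 (nat_lit 0) (.g 4 8 0 6 13 true false), .t 2 (nat_lit 0xc36) (.g 0 11 4 6 13 true true), .t 1 (nat_lit 0) (.st 14 4 6 8), .t 1 (nat_lit 0) (.g 4 6 0 8 14 true false), .t 1 (nat_lit 0) (.g 4 8 0 6 14 true false), .t 2 (nat_lit 0xc37) (.g 0 11 4 6 14 true true), .t 2 (nat_lit 0xc38) (.g 0 11 4 8 14 true true), .t 2 (nat_lit 0xc39) (.g 0 11 4 8 15 true true), .t 1 (nat_lit 0) (.g 4 6 0 8 15 true false), .t 2 (nat_lit 0xc3a) (.g 0 11 4 8 15 true true), .t 2 (nat_lit 0xc3b) (.g 0 11 4 8 16 true true), .t 1 (nat_lit 0) (.g 4 0 6 8 16 false true), .t 1 (nat_lit 0) (.g 4 6 0 8 16 true false), .t 2 (nat_lit 0xc3c) (.g 0 11 4 6 16 true true), .t 2 (nat_lit 0xc3d) (.g 0 11 4 8 17 true true), .t 2 (nat_lit 0xc3e) (.g 0 11 6 8 17 true true), .t 1 (nat_lit 0) (.g 8 6 0 4 17 false true), .t 1 (nat_lit 0) (.g 8 4 0 6 17 false true), .t 1 (nat_lit 0) (.g 6 17 0 4 8 false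 true), .t 1 (nat_lit 0) (.g 4 8 0 6 17 true false), .t 2 (nat_lit 0xc3f) (.g 0 11 4 6 17 true true), .t 2 (nat_lit 0xc40) (.g 0 11 4 8 17 true true), .t 2 (nat_lit 0xc41) (.g 0 11 4 8 17 true true), .t 2 (nat_lit 0xc42) (.g 0 11 4 8 18 true true), .t 2 (nat_lit 0xc43) (.g 0 11 6 8 18 true true), .t 1 (nat_lit 0) (.g 8 6 0 4 18 false true), .t 1 (nat_lit 0) (.g 4 6 0 8 18 true false)] (by decide +kernel) (by decide +kernel)
theorem b188 : B 12032 12096 := Blk.of_chk [.t 2 (nat_lit 0xc44) (.g 0 11 4 6 18 true true), .t 2 (nat_lit 0xc45) (.g 0 11 4 8 18 true true), .t 1 (nat_lit 0) (.g 4 0 6 9 10 false false), .t 1 (nat_lit 0) (.g 4 6 0 9 11 true false), .t 1 (nat_lit 0) (.g 6 4 0 9 11 false false), .t 1 (nat_lit 0) (.g 9 0 4 6 11 true true), .t 1 (nat_lit 0) (.g 4 6 0 9 12 true false), .t 2 (nat_lit 0xc46) (.g 0 11 4 6 12 true true), .t 2 (nat_lit 0xc47) (.g 0 11 4 9 12 true true),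 .t 1 (nat_lit 0) (.st 13 4 9 6), .t 1 (nat_lit 0) (.g 4 6 0 9 13 true false), .t 2 (nat_lit 0xc48) (.g 0 11 4 6 13 true true), .t 2 (nat_lit 0xc49) (.g 0 11 4 9 13 true true), .t 1 (nat_lit 0) (.g 4 6 0 9 14 true false), .t 2 (nat_lit 0xc4a) (.g 0 11 4 6 14 true true), .t 2 (nat_lit 0xc4b) (.g 0 11 4 9 14 true true), .t 2 (nat_lit 0xc4c) (.g 0 11 4 9 15 true true), .t 1 (nat_lit 0) (.g 4 0 6 9 15 false true), .t 1 (nat_lit 0) (.g 4 6 0 9 15 true false), .t 2 (nat_lit 0xc4d) (.g 0 11 4 6 15 true true), .t 2 (nat_lit 0xc4e) (.g 0 11 4 9 15 true true), .t 2 (nat_lit 0xc4f) (.g 0 11 4 9 16 true true), .t 2 (nat_lit 0xc50) (.g 0 11 6 9 16 true true), .t 1 (nat_lit 0) (.g 4 0 6 9 16 false true), .t 1 (nat_lit 0) (.g 4 6 0 9 16 true false), .t 2 (nat_lit 0xc51) (.g 0 11 4 9 16 true true), .t 2 (nat_lit 0xc52) (.g 0 11 4 9 17 true true), .t 2 (nat_lit 0xc53) (.g 0 11 6 9 17 true true),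 .t 1 (nat_lit 0) (.g 9 6 0 4 17 false true), .t 1 (nat_lit 0) (.g 4 6 0 9 17 true false), .t 2 (nat_lit 0xc54) (.g 0 11 4 6 17 true true), .t 2 (nat_lit 0xc55) (.g 0 11 4 9 18 true true), .t 2 (nat_lit 0xc56) (.g 0 11 6 9 18 true true), .t 1 (nat_lit 0) (.g 9 6 0 4 18 false true), .t 1 (nat_lit 0) (.g 4 6 0 9 18 true false), .t 2 (nat_lit 0xc57) (.g 0 11 4 6 18 true true), .t 2 (nat_lit 0xc58) (.g 0 11 4 9 18 true true), .t 1 (nat_lit 0) (.g 4 6 0 10 11 true false), .t 1 (nat_lit 0) (.g 4 10 0 6 11 true false), .t 1 (nat_lit 0) (.g 6 4 0 10 11 false false), .t 1 (nat_lit 0) (.g 10 0 4 6 11 true true), .t 1 (nat_lit 0) (.g 4 6 0 10 12 true false), .t 2 (nat_lit 0xc59) (.g 0 11 4 6 12 true true), .t 1 (nat_lit 0) (.g 4 6 0 10 13 true false), .t 1 (nat_lit 0) (.g 4 10 0 6 13 true false), .t 2 (nat_lit 0xc5a) (.g 0 11 4 6 13 true true), .t 2 (nat_lit 0xc5b) (.g 0 11 4 6 13 true true),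 .t 1 (nat_lit 0) (.g 4 6 0 10 14 true false), .t 1 (nat_lit 0) (.g 4 10 0 6 14 true false), .t 2 (nat_lit 0xc5c) (.g 0 11 4 6 14 true true), .t 2 (nat_lit 0xc5d) (.g 0 11 4 10 14 true true), .t 2 (nat_lit 0xc5e) (.g 0 11 4 10 15 true true), .t 2 (nat_lit 0xc5f) (.g 4 0 6 10 15 false false), .t 2 (nat_lit 0xc60) (.g 0 11 4 6 15 true true), .t 2 (nat_lit 0xc61) (.g 0 11 6 10 16 true true), .t 1 (nat_lit 0) (.g 10 6 0 4 16 false true), .t 1 (nat_lit 0) (.g 6 16 0 4 10 false true), .t 2 (nat_lit 0xc62) (.g 6 16 0 4 10 false true), .t 1 (nat_lit 0) (.g 4 6 0 10 16 true false), .t 2 (nat_lit 0xc63) (.g 0 11 4 6 16 true true), .t 2 (nat_lit 0xc64) (.g 0 11 6 10 17 true true), .t 1 (nat_lit 0) (.g 6 17 0 4 10 false true), .t 2 (nat_lit 0xc65) (.g 6 17 0 4 10 false true), .t 1 (nat_lit 0) (.g 4 6 0 10 17 true false)] (by decide +kernel) (by decide +kernel)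
theorem b189 : B 12096 12160 := Blk.of_chk [.t 1 (nat_lit 0) (.g 4 10 0 6 17 true false), .t 2 (nat_lit 0xc66) (.g 0 11 4 6 17 true true), .t 2 (nat_lit 0xc67) (.g 0 11 4 10 17 true true), .t 2 (nat_lit 0xc68) (.g 0 11 6 10 18 true true), .t 1 (nat_lit 0) (.g 10 6 0 4 18 false true), .t 2 (nat_lit 0xc69) (.g 4 0 6 10 18 false false), .t 2 (nat_lit 0xc6a) (.g 6 18 0 4 10 false true), .t 2 (nat_lit 0xc6b) (.g 0 11 4 6 18 true true), .t 2 (nat_lit 0xc6c) (.g 0 11 4 10 18 true true), .t 1 (nat_lit 0) (.g 4 12 0 6 11 false false), .t 1 (nat_lit 0) (.g 4 11 0 6 12 false false), .t 2 (nat_lit 0xc6d) (.g 6 0 4 11 12 true true), .t 2 (nat_lit 0xc6d) (.g 6 0 4 11 12 true false), .t 1 (nat_lit 0) (.g 11 0 4 6 13 false true), .t 2 (nat_lit 0xc6e) (.g 11 0 4 6 13 false true), .t 1 (nat_lit 0) (.g 4 11 0 6 13 false false), .t 2 (nat_lit 0xc6f) (.g 6 0 4 11 13 true true), .t 2 (nat_lit 0xc6f)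 (.g 6 0 4 11 13 true false), .t 2 (nat_lit 0xc70) (.g 4 6 0 11 14 true true), .t 1 (nat_lit 0) (.g 11 0 4 6 14 false true), .t 2 (nat_lit 0xc71) (.g 11 0 4 6 14 false true), .t 2 (nat_lit 0xc72) (.g 4 6 0 11 15 true true), .t 1 (nat_lit 0) (.g 11 0 4 6 15 false true), .t 2 (nat_lit 0xc73) (.g 4 6 0 11 16 true true), .t 2 (nat_lit 0xc74) (.g 11 0 4 6 16 false true), .t 2 (nat_lit 0xc75) (.g 4 6 0 11 17 true true), .t 2 (nat_lit 0xc76) (.g 11 0 4 6 17 false true), .t 2 (nat_lit 0xc77) (.g 4 6 0 11 18 true true), .t 3 (nat_lit 0xc780c6f) (.a 4 6 12 13 true), .t 2 (nat_lit 0xc6f) (.g 13 4 0 6 12 true false), .t 2 (nat_lit 0xc79) (.g 0 11 4 12 13 true true), .t 2 (nat_lit 0xc7a) (.g 0 11 4 12 13 true true), .t 3 (nat_lit 0xc7b0c6f) (.g 0 11 6 12 13 true true), .t 3 (nat_lit 0xc7c0c70) (.a 4 6 12 14 true), .t 2 (nat_lit 0xc70) (.g 14 4 0 6 12 true false), .t 2 (nat_lit 0xc70) (.g 14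 6 0 4 12 true false), .t 2 (nat_lit 0xc7d) (.g 0 11 4 12 14 true true), .t 2 (nat_lit 0xc7e) (.g 0 11 4 12 14 true true), .t 3 (nat_lit 0xc7f0c70) (.g 0 11 6 12 14 true true), .t 3 (nat_lit 0xc800c72) (.a 4 6 12 15 true), .t 2 (nat_lit 0xc72) (.g 15 4 0 6 12 true false), .t 2 (nat_lit 0xc73) (.g 4 6 0 12 16 true true), .t 3 (nat_lit 0xc810c73) (.a 4 6 12 16 true), .t 2 (nat_lit 0xc73) (.g 16 4 0 6 12 true false), .t 2 (nat_lit 0xc75) (.g 4 6 0 12 17 true true), .t 2 (nat_lit 0xc75) (.g 17 4 0 6 12 true false), .t 2 (nat_lit 0xc82) (.g 0 11 4 12 17 true true), .t 2 (nat_lit 0xc77) (.g 4 6 0 12 18 true true), .t 3 (nat_lit 0xc830c70) (.a 4 6 13 14 true), .t 3 (nat_lit 0xc840c70) (.a 4 6 13 14 false), .t 2 (nat_lit 0xc70) (.g 14 4 0 6 13 true false), .t 2 (nat_lit 0xc70) (.g 14 6 0 4 13 true false), .t 2 (nat_lit 0xc85) (.g 0 11 4 13 14 true true), .t 2 (nat_lit 0xc86) (.g 0 11 4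 13 14 true true), .t 3 (nat_lit 0xc870c70) (.g 0 11 6 13 14 true true), .t 2 (nat_lit 0xc72) (.g 4 6 0 13 15 true true), .t 2 (nat_lit 0xc6f) (.g 6 4 0 13 15 false true), .t 2 (nat_lit 0xc88) (.g 0 11 4 13 15 true true), .t 2 (nat_lit 0xc89) (.g 0 11 4 13 15 true true), .t 2 (nat_lit 0xc73) (.g 4 6 0 13 16 true true), .t 2 (nat_lit 0xc6f) (.g 6 4 0 13 16 false true), .t 2 (nat_lit 0xc8a) (.g 0 11 4 13 16 true true), .t 2 (nat_lit 0xc75) (.g 4 6 0 13 17 true true), .t 2 (nat_lit 0xc75) (.g 17 4 0 6 13 true false)] (by decide +kernel) (by decide +kernel)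
theorem b190 : B 12160 12224 := Blk.of_chk [.t 2 (nat_lit 0xc8b) (.g 0 11 4 13 17 true true), .t 3 (nat_lit 0xc8c0c75) (.g 0 11 6 13 17 true true), .t 2 (nat_lit 0xc77) (.g 4 6 0 13 18 true true), .t 2 (nat_lit 0xc8d) (.g 0 11 4 13 18 true true), .t 2 (nat_lit 0xc72) (.g 4 6 0 14 15 true true), .t 3 (nat_lit 0xc8e0c72) (.a 4 6 14 15 true), .t 2 (nat_lit 0xc8f) (.g 0 11 4 14 15 true true), .t 2 (nat_lit 0xc73) (.g 4 6 0 14 16 true true), .t 2 (nat_lit 0xc70) (.g 6 4 0 14 16 false true), .t 3 (nat_lit 0xc900c70) (.g 6 0 4 14 16 true false), .t 3 (nat_lit 0xc910c73) (.a 4 6 14 16 true), .t 2 (nat_lit 0xc70) (.g 6 4 0 14 17 false true), .t 3 (nat_lit 0xc920c70) (.g 6 0 4 14 17 true false), .t 3 (nat_lit 0xc930c75) (.a 4 6 14 17 true), .t 2 (nat_lit 0xc94) (.g 0 11 4 14 17 true true), .t 2 (nat_lit 0xc77) (.g 4 6 0 14 18 true true), .t 2 (nat_lit 0xc70) (.g 6 4 0 14 18 false true),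 .t 3 (nat_lit 0xc950c70) (.g 6 0 4 14 18 true false), .t 3 (nat_lit 0xc960c77) (.a 4 6 14 18 true), .t 3 (nat_lit 0xc970c77) (.g 0 11 6 14 18 true true), .t 2 (nat_lit 0xc72) (.g 6 4 0 15 16 false true), .t 3 (nat_lit 0xc980c72) (.g 15 0 4 6 16 false true), .t 2 (nat_lit 0xc73) (.g 16 4 0 6 15 true false), .t 2 (nat_lit 0xc99) (.g 0 11 4 15 16 true true), .t 2 (nat_lit 0xc72) (.g 6 4 0 15 17 false true), .t 3 (nat_lit 0xc9a0c75) (.a 4 6 15 17 true), .t 2 (nat_lit 0xc75) (.g 17 4 0 6 15 true false), .t 2 (nat_lit 0xc9b) (.g 0 11 4 15 17 true true), .t 2 (nat_lit 0xc77) (.g 4 6 0 15 18 true true), .t 3 (nat_lit 0xc9c0c77) (.a 4 6 15 18 true), .t 2 (nat_lit 0xc77) (.g 18 4 0 6 15 true false), .t 2 (nat_lit 0xc9d) (.g 0 11 4 15 18 true true), .t 3 (nat_lit 0xc9e0c73) (.g 0 11 4 16 17 true true), .t 2 (nat_lit 0xc75) (.g 17 4 0 6 16 true false), .t 2 (nat_lit 0xc9f) (.g 0 11 4 16 17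 true true), .t 3 (nat_lit 0xca00c73) (.g 0 11 4 16 18 true true), .t 3 (nat_lit 0xca10c73) (.a 4 6 16 18 true), .t 2 (nat_lit 0xc77) (.g 18 4 0 6 16 true false), .t 2 (nat_lit 0xca2) (.g 0 11 4 16 18 true true), .t 3 (nat_lit 0xca30c75) (.g 0 11 4 17 18 true true), .t 3 (nat_lit 0xca40c75) (.g 0 11 4 17 18 true true), .t 3 (nat_lit 0xca50c75) (.a 4 6 17 18 true), .t 2 (nat_lit 0xc77) (.g 4 6 0 17 18 true true), .t 3 (nat_lit 0xca60c77) (.a 4 6 17 18 true), .t 2 (nat_lit 0xc77) (.g 18 4 0 6 17 true false), .t 2 (nat_lit 0xca7) (.g 0 11 4 17 18 true true), .t 1 (nat_lit 0) (.g 4 7 0 8 11 true false), .t 1 (nat_lit 0) (.g 7 4 0 8 11 false false), .t 1 (nat_lit 0) (.g 8 0 4 7 11 true true), .t 1 (nat_lit 0) (.g 4 7 0 8 12 true false), .t 2 (nat_lit 0xca8) (.g 0 11 4 7 12 true true), .t 2 (nat_lit 0xca9) (.g 0 11 4 8 12 true true), .t 1 (nat_lit 0) (.g 4 7 0 8 13 true false), .t 2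 (nat_lit 0xcaa) (.g 0 11 4 7 13 true true), .t 2 (nat_lit 0xcab) (.g 0 11 4 8 13 true true), .t 1 (nat_lit 0) (.g 4 7 0 8 14 true false), .t 2 (nat_lit 0xcac) (.g 0 11 4 7 14 true true), .t 2 (nat_lit 0xcad) (.g 0 11 4 8 14 true true), .t 2 (nat_lit 0xcae) (.g 0 11 4 8 15 true true), .t 2 (nat_lit 0xcaf) (.g 0 11 7 8 15 true true), .t 1 (nat_lit 0) (.g 4 0 7 8 15 false true), .t 1 (nat_lit 0) (.g 4 7 0 8 15 true false), .t 2 (nat_lit 0xcb0) (.g 0 11 4 7 15 true true), .t 2 (nat_lit 0xcb1) (.g 0 11 4 8 15 true true)] (by decide +kernel) (by decide +kernel)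
theorem b191 : B 12224 12288 := Blk.of_chk [.t 2 (nat_lit 0xcb2) (.g 0 11 4 8 16 true true), .t 2 (nat_lit 0xcb3) (.g 0 11 7 8 16 true true), .t 1 (nat_lit 0) (.g 4 0 7 8 16 false true), .t 1 (nat_lit 0) (.g 4 7 0 8 16 true false), .t 2 (nat_lit 0xcb4) (.g 0 11 4 7 16 true true), .t 2 (nat_lit 0xcb5) (.g 0 11 4 8 17 true true), .t 2 (nat_lit 0xcb6) (.g 0 11 7 8 17 true true), .t 1 (nat_lit 0) (.g 8 7 0 4 17 false true), .t 1 (nat_lit 0) (.g 4 0 7 8 17 false true), .t 1 (nat_lit 0) (.g 4 7 0 8 17 true false), .t 2 (nat_lit 0xcb7) (.g 0 11 4 7 17 true true), .t 2 (nat_lit 0xcb8) (.g 0 11 4 8 17 true true), .t 2 (nat_lit 0xcb9) (.g 0 11 4 8 18 true true), .t 2 (nat_lit 0xcba) (.g 0 11 7 8 18 true true), .t 1 (nat_lit 0) (.g 8 7 0 4 18 false true), .t 1 (nat_lit 0) (.g 8 0 4 7 18 true true), .t 1 (nat_lit 0) (.g 4 0 7 8 18 false true), .t 1 (nat_lit 0) (.g 4 7 0 8 18 true false),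 .t 1 (nat_lit 0) (.g 4 7 0 8 18 true false), .t 2 (nat_lit 0xcbb) (.g 0 11 4 7 18 true true), .t 2 (nat_lit 0xcbc) (.g 0 11 4 8 18 true true), .t 1 (nat_lit 0) (.g 4 7 0 9 11 true false), .t 1 (nat_lit 0) (.g 9 0 4 7 11 true true), .t 1 (nat_lit 0) (.g 4 7 0 9 12 true false), .t 2 (nat_lit 0xcbd) (.g 0 11 4 7 12 true true), .t 1 (nat_lit 0) (.g 4 7 0 9 13 true false), .t 2 (nat_lit 0xcbe) (.g 0 11 4 7 13 true true), .t 2 (nat_lit 0xcbf) (.g 0 11 4 9 13 true true), .t 1 (nat_lit 0) (.g 4 7 0 9 14 true false), .t 2 (nat_lit 0xcc0) (.g 0 11 4 7 14 true true), .t 2 (nat_lit 0xcc1) (.g 0 11 4 9 14 true true), .t 1 (nat_lit 0) (.g 4 0 7 9 15 false true), .t 1 (nat_lit 0) (.g 4 7 0 9 15 true false), .t 2 (nat_lit 0xcc2) (.g 0 11 4 7 15 true true), .t 2 (nat_lit 0xcc3) (.g 0 11 4 9 15 true true), .t 2 (nat_lit 0xcc4) (.g 0 11 4 9 16 true true), .t 1 (nat_lit 0) (.g 4 0 7 9 16 false true),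 .t 2 (nat_lit 0xcc5) (.g 0 11 4 9 16 true true), .t 1 (nat_lit 0) (.g 9 7 0 4 17 false true), .t 1 (nat_lit 0) (.g 4 0 7 9 17 false true), .t 1 (nat_lit 0) (.g 4 7 0 9 17 true false), .t 2 (nat_lit 0xcc6) (.g 0 11 4 7 17 true true), .t 2 (nat_lit 0xcc7) (.g 0 11 4 9 17 true true), .t 2 (nat_lit 0xcc8) (.g 0 11 4 9 18 true true), .t 2 (nat_lit 0xcc9) (.g 0 11 7 9 18 true true), .t 1 (nat_lit 0) (.g 9 7 0 4 18 false true), .t 1 (nat_lit 0) (.g 4 7 0 9 18 true false), .t 2 (nat_lit 0xcca) (.g 0 11 4 7 18 true true), .t 2 (nat_lit 0xccb) (.g 0 11 4 9 18 true true), .t 1 (nat_lit 0) (.g 4 7 0 10 11 true false), .t 1 (nat_lit 0) (.g 7 4 0 10 11 false false), .t 1 (nat_lit 0) (.g 10 0 4 7 11 true true), .t 1 (nat_lit 0) (.g 4 7 0 10 12 true false), .t 2 (nat_lit 0xccc) (.g 0 11 4 7 12 true true), .t 2 (nat_lit 0xccd) (.g 0 11 4 10 12 true true), .t 1 (nat_lit 0) (.g 4 7 0 10 13 true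 false), .t 2 (nat_lit 0xcce) (.g 0 11 4 7 13 true true), .t 2 (nat_lit 0xccf) (.g 0 11 4 10 13 true true), .t 1 (nat_lit 0) (.g 4 7 0 10 14 true false), .t 2 (nat_lit 0xcd0) (.g 0 11 4 7 14 true true), .t 2 (nat_lit 0xcd1) (.g 0 11 4 10 14 true true), .t 1 (nat_lit 0) (.g 10 7 0 4 15 false true), .t 1 (nat_lit 0) (.g 4 7 0 10 15 true false), .t 2 (nat_lit 0xcd2) (.g 0 11 4 10 16 true true)] (by decide +kernel) (by decide +kernel)
theorem b192 : B 12288 12352 := Blk.of_chk [.t 2 (nat_lit 0xcd3) (.g 0 11 7 10 16 true true), .t 1 (nat_lit 0) (.g 4 0 7 10 16 false true), .t 2 (nat_lit 0xcd4) (.g 0 11 4 10 17 true true), .t 2 (nat_lit 0xcd5) (.g 0 11 7 10 17 true true), .t 1 (nat_lit 0) (.g 4 0 7 10 17 false true), .t 1 (nat_lit 0) (.g 4 7 0 10 17 true false), .t 2 (nat_lit 0xcd6) (.g 0 11 4 7 17 true true), .t 2 (nat_lit 0xcd7) (.g 0 11 4 10 17 true true), .t 2 (nat_lit 0xcd8) (.g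 0 11 4 10 18 true true), .t 1 (nat_lit 0) (.g 10 7 0 4 18 false true), .t 1 (nat_lit 0) (.g 4 7 0 10 18 true false), .t 2 (nat_lit 0xcd9) (.g 0 11 4 7 18 true true), .t 2 (nat_lit 0xcda) (.g 0 11 4 10 18 true true), .t 1 (nat_lit 0) (.g 11 0 4 7 12 false false), .t 2 (nat_lit 0xcdb) (.g 11 0 4 7 12 false false), .t 2 (nat_lit 0xcdc) (.g 7 0 4 11 12 true false), .t 1 (nat_lit 0) (.g 11 0 4 7 13 false true), .t 1 (nat_lit 0) (.g 11 0 4 7 13 false false), .t 2 (nat_lit 0xcdd) (.g 11 0 4 7 13 false false), .t 1 (nat_lit 0) (.g 4 13 0 7 11 false false), .t 2 (nat_lit 0xcde) (.g 7 0 4 11 13 true false), .t 1 (nat_lit 0) (.g 11 0 4 7 14 false true), .t 2 (nat_lit 0xcdf) (.g 11 0 4 7 14 false true), .t 2 (nat_lit 0xce0) (.g 11 0 4 7 14 false false), .t 2 (nat_lit 0xce1) (.g 4 7 0 11 15 true true), .t 1 (nat_lit 0) (.g 11 0 4 7 15 false true), .t 1 (nat_lit 0) (.g 4 11 0 7 15 false false),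 .t 2 (nat_lit 0xce2) (.g 4 7 0 11 16 true true), .t 1 (nat_lit 0) (.g 11 0 4 7 16 false true), .t 1 (nat_lit 0) (.g 4 16 0 7 11 false false), .t 2 (nat_lit 0xce3) (.g 4 7 0 11 17 true true), .t 1 (nat_lit 0) (.g 7 4 0 11 17 false true), .t 2 (nat_lit 0xce4) (.g 11 0 4 7 17 false true), .t 2 (nat_lit 0xce5) (.g 4 7 0 11 18 true true), .t 1 (nat_lit 0) (.g 7 4 0 11 18 false true), .t 2 (nat_lit 0xcde) (.g 13 4 0 7 12 true false), .t 2 (nat_lit 0xce6) (.g 0 11 4 12 13 true true), .t 2 (nat_lit 0xce7) (.g 0 11 4 12 13 true true), .t 3 (nat_lit 0xce80cde) (.g 0 11 7 12 13 true true), .t 3 (nat_lit 0xce90cde) (.g 0 11 7 12 13 true true), .t 3 (nat_lit 0xceb0cea) (.a 4 7 12 14 true), .t 2 (nat_lit 0xcea) (.g 14 4 0 7 12 true false), .t 2 (nat_lit 0xcea) (.g 14 7 0 4 12 true false), .t 2 (nat_lit 0xcec) (.g 0 11 4 12 14 true true), .t 2 (nat_lit 0xced) (.g 0 11 4 12 14 true true), .t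 3 (nat_lit 0xcee0cea) (.g 0 11 7 12 14 true true), .t 2 (nat_lit 0xce1) (.g 4 7 0 12 15 true true), .t 3 (nat_lit 0xcef0ce1) (.a 4 7 12 15 true), .t 2 (nat_lit 0xce1) (.g 15 4 0 7 12 true false), .t 3 (nat_lit 0xcf00ce1) (.g 0 11 7 12 15 true true), .t 2 (nat_lit 0xce2) (.g 4 7 0 12 16 true true), .t 3 (nat_lit 0xcf10ce2) (.a 4 7 12 16 true), .t 2 (nat_lit 0xce2) (.g 16 4 0 7 12 true false), .t 2 (nat_lit 0xce3) (.g 4 7 0 12 17 true true), .t 2 (nat_lit 0xce3) (.g 17 4 0 7 12 true false), .t 2 (nat_lit 0xcf2) (.g 0 11 4 12 17 true true), .t 2 (nat_lit 0xce5) (.g 4 7 0 12 18 true true), .t 3 (nat_lit 0xcf30cea) (.a 4 7 13 14 true), .t 3 (nat_lit 0xcf40cea) (.a 4 7 13 14 false), .t 2 (nat_lit 0xcea) (.g 14 4 0 7 13 true false), .t 2 (nat_lit 0xcea) (.g 14 7 0 4 13 true false), .t 2 (nat_lit 0xcf5) (.g 0 11 4 13 14 true true), .t 2 (nat_lit 0xcf6) (.g 0 11 4 13 14 true true), .t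 3 (nat_lit 0xcf70cea) (.g 0 11 7 13 14 true true)] (by decide +kernel) (by decide +kernel)
theorem b193 : B 12352 12416 := Blk.of_chk [.t 3 (nat_lit 0xcf80cea) (.g 0 11 7 13 14 true true), .t 2 (nat_lit 0xce1) (.g 4 7 0 13 15 true true), .t 3 (nat_lit 0xcf90cde) (.g 7 0 4 13 15 true false), .t 2 (nat_lit 0xcde) (.g 7 0 4 13 15 true false), .t 2 (nat_lit 0xcfa) (.g 0 11 4 13 15 true true), .t 2 (nat_lit 0xcfb) (.g 0 11 4 13 15 true true), .t 2 (nat_lit 0xcde) (.g 13 0 4 7 16 false false), .t 2 (nat_lit 0xce2) (.g 4 7 0 13 16 true true), .t 3 (nat_lit 0xcfc0cde) (.g 7 0 4 13 16 true false), .t 2 (nat_lit 0xcfd) (.g 0 11 4 13 16 true true), .t 2 (nat_lit 0xce3) (.g 4 7 0 13 17 true true), .t 3 (nat_lit 0xcfe0ce3) (.a 4 7 13 17 true), .t 2 (nat_lit 0xce3) (.g 17 4 0 7 13 true false), .t 2 (nat_lit 0xcff) (.g 0 11 4 13 17 true true), .t 3 (nat_lit 0xd000ce3) (.g 0 11 7 13 17 true true),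 .t 2 (nat_lit 0xce5) (.g 4 7 0 13 18 true true), .t 2 (nat_lit 0xcde) (.g 7 4 0 13 18 false true), .t 2 (nat_lit 0xd01) (.g 0 11 4 13 18 true true), .t 3 (nat_lit 0xd020ce5) (.g 0 11 7 13 18 true true), .t 3 (nat_lit 0xd030ce5) (.g 0 11 7 13 18 true true), .t 2 (nat_lit 0xce1) (.g 4 7 0 14 15 true true), .t 2 (nat_lit 0xcea) (.g 7 0 4 14 15 true false), .t 3 (nat_lit 0xd040ce1) (.a 4 7 14 15 true), .t 2 (nat_lit 0xd05) (.g 0 11 4 14 15 true true), .t 3 (nat_lit 0xd060ce1) (.g 0 11 7 14 15 true true), .t 2 (nat_lit 0xce2) (.g 4 7 0 14 16 true true), .t 2 (nat_lit 0xce3) (.g 4 7 0 14 17 true true), .t 3 (nat_lit 0xd070cea) (.g 7 0 4 14 17 true false), .t 3 (nat_lit 0xd080ce3) (.a 4 7 14 17 true), .t 2 (nat_lit 0xd09) (.g 0 11 4 14 17 true true), .t 2 (nat_lit 0xce5) (.g 4 7 0 14 18 true true), .t 2 (nat_lit 0xcea) (.g 7 4 0 14 18 false true), .t 3 (nat_lit 0xd0a0ce5) (.g 0 11 7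 14 18 true true), .t 3 (nat_lit 0xd0b0ce5) (.g 0 11 7 14 18 true true), .t 3 (nat_lit 0xd0c0ce1) (.g 0 11 4 15 16 true true), .t 2 (nat_lit 0xd0d) (.g 0 11 7 15 16 true true), .t 2 (nat_lit 0xce2) (.g 4 7 0 15 16 true true), .t 2 (nat_lit 0xce1) (.g 7 4 0 15 16 false true), .t 2 (nat_lit 0xce2) (.g 16 4 0 7 15 true false), .t 3 (nat_lit 0xd0e0ce1) (.g 0 11 4 15 17 true true), .t 2 (nat_lit 0xce3) (.g 4 7 0 15 17 true true), .t 2 (nat_lit 0xce3) (.g 17 4 0 7 15 true false), .t 2 (nat_lit 0xd0f) (.g 0 11 4 15 17 true true), .t 2 (nat_lit 0xce5) (.g 4 7 0 15 18 true true), .t 2 (nat_lit 0xce1) (.g 7 4 0 15 18 false true), .t 2 (nat_lit 0xce5) (.g 18 4 0 7 15 true false), .t 3 (nat_lit 0xd100ce5) (.g 0 11 7 15 18 true true), .t 3 (nat_lit 0xd110ce2) (.g 0 11 4 16 17 true true), .t 2 (nat_lit 0xce2) (.g 16 4 0 7 17 false true), .t 3 (nat_lit 0xd120ce2) (.a 4 7 16 17 true), .t 2 (nat_lit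 0xce3) (.g 4 0 7 16 17 false false), .t 2 (nat_lit 0xd13) (.g 0 11 7 16 17 true true), .t 2 (nat_lit 0xce3) (.g 17 4 0 7 16 true false), .t 2 (nat_lit 0xd14) (.g 0 11 4 16 17 true true), .t 3 (nat_lit 0xd150ce3) (.g 0 11 7 16 17 true true), .t 3 (nat_lit 0xd160ce2) (.g 0 11 4 16 18 true true), .t 2 (nat_lit 0xce2) (.g 16 4 0 7 18 false true), .t 2 (nat_lit 0xce5) (.g 4 0 7 16 18 false false), .t 2 (nat_lit 0xd17) (.g 0 11 4 16 18 true true), .t 2 (nat_lit 0xce5) (.g 4 7 0 16 18 true true), .t 2 (nat_lit 0xce2) (.g 7 4 0 16 18 false true), .t 2 (nat_lit 0xce5) (.g 18 4 0 7 16 true false), .t 2 (nat_lit 0xd18) (.g 0 11 4 16 18 true true), .t 2 (nat_lit 0xd19) (.g 0 11 4 16 18 true true)] (by decide +kernel) (by decide +kernel)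
theorem b194 : B 12416 12480 := Blk.of_chk [.t 3 (nat_lit 0xd1a0ce5) (.g 0 11 7 16 18 true true), .t 3 (nat_lit 0xd1b0ce3) (.g 0 11 4 17 18 true true), .t 3 (nat_lit 0xd1c0ce3) (.g 0 11 4 17 18 true true), .t 2 (nat_lit 0xd1d) (.g 0 11 7 17 18 true true), .t 2 (nat_lit 0xce3) (.g 17 7 0 4 18 false true), .t 2 (nat_lit 0xd1e) (.g 0 11 7 17 18 true true), .t 2 (nat_lit 0xd1f) (.g 0 11 4 17 18 true true), .t 2 (nat_lit 0xce5) (.g 4 7 0 17 18 true true), .t 3 (nat_lit 0xd200ce5) (.a 4 7 17 18 true), .t 2 (nat_lit 0xce5) (.g 18 4 0 7 17 true false), .t 2 (nat_lit 0xd21) (.g 0 11 4 17 18 true true), .t 2 (nat_lit 0xd22) (.g 0 11 4 17 18 true true), .t 3 (nat_lit 0xd230ce5) (.g 0 11 7 17 18 true true), .t 1 (nat_lit 0) (.g 8 4 0 9 11 false false), .t 1 (nat_lit 0) (.g 4 8 0 9 12 true false), .t 2 (nat_lit 0xd24) (.g 0 11 4 8 12 true true), .t 1 (nat_lit 0) (.g 4 8 0 9 13 true false),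 .t 2 (nat_lit 0xd25) (.g 0 11 4 8 13 true true), .t 2 (nat_lit 0xd26) (.g 0 11 4 9 13 true true), .t 2 (nat_lit 0xd27) (.g 0 11 4 8 14 true true), .t 2 (nat_lit 0xd28) (.g 0 11 4 9 14 true true), .t 1 (nat_lit 0) (.g 4 0 8 9 15 false true), .t 1 (nat_lit 0) (.g 4 8 0 9 15 true false), .t 2 (nat_lit 0xd29) (.g 0 11 4 8 15 true true), .t 2 (nat_lit 0xd2a) (.g 0 11 4 9 15 true true), .t 1 (nat_lit 0) (.g 4 0 8 9 16 false true), .t 1 (nat_lit 0) (.g 4 8 0 9 16 true false), .t 2 (nat_lit 0xd2b) (.g 0 11 4 9 16 true true), .t 2 (nat_lit 0xd2c) (.g 0 11 4 9 17 true true), .t 1 (nat_lit 0) (.g 9 8 0 4 17 false true), .t 1 (nat_lit 0) (.g 4 0 8 9 17 false true), .t 1 (nat_lit 0) (.g 4 8 0 9 17 true false), .t 2 (nat_lit 0xd2d) (.g 0 11 4 8 17 true true), .t 2 (nat_lit 0xd2e) (.g 0 11 4 9 17 true true), .t 2 (nat_lit 0xd2f) (.g 0 11 4 9 18 true true), .t 2 (nat_lit 0xd30) (.g 0 11 8 9 18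 true true), .t 1 (nat_lit 0) (.g 4 0 8 9 18 false true), .t 2 (nat_lit 0xd31) (.g 0 11 4 8 18 true true), .t 2 (nat_lit 0xd32) (.g 0 11 4 9 18 true true), .t 1 (nat_lit 0) (.g 4 8 0 10 11 true false), .t 1 (nat_lit 0) (.g 10 0 4 8 11 true true), .t 2 (nat_lit 0xd33) (.g 0 11 4 8 12 true true), .t 1 (nat_lit 0) (.g 4 8 0 10 13 true false), .t 2 (nat_lit 0xd34) (.g 0 11 4 8 13 true true), .t 1 (nat_lit 0) (.g 4 8 0 10 14 true false), .t 2 (nat_lit 0xd35) (.g 0 11 4 8 14 true true), .t 1 (nat_lit 0) (.g 4 8 0 10 15 true false), .t 2 (nat_lit 0xd36) (.g 0 11 4 8 15 true true), .t 1 (nat_lit 0) (.g 4 0 8 10 16 false true), .t 2 (nat_lit 0xd37) (.g 0 11 4 8 16 true true), .t 1 (nat_lit 0) (.g 4 0 8 10 17 false true), .t 1 (nat_lit 0) (.g 4 8 0 10 17 true false), .t 2 (nat_lit 0xd38) (.g 0 11 4 8 17 true true), .t 2 (nat_lit 0xd39) (.g 0 11 4 10 17 true true), .t 1 (nat_lit 0) (.g 4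 0 8 10 18 false true), .t 1 (nat_lit 0) (.g 4 8 0 10 18 true false), .t 2 (nat_lit 0xd3a) (.g 0 11 4 8 18 true true), .t 2 (nat_lit 0xd3b) (.g 0 11 4 10 18 true true), .t 1 (nat_lit 0) (.g 11 0 4 8 12 false true), .t 1 (nat_lit 0) (.g 4 11 0 8 12 false false), .t 2 (nat_lit 0xd3c) (.g 8 0 4 11 12 true false), .t 1 (nat_lit 0) (.g 11 0 4 8 13 false true), .t 2 (nat_lit 0xd3d) (.g 11 0 4 8 13 false false), .t 1 (nat_lit 0) (.g 4 13 0 8 11 false false)] (by decide +kernel) (by decide +kernel)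
theorem b195 : B 12480 12544 := Blk.of_chk [.t 2 (nat_lit 0xd3e) (.g 8 0 4 11 13 true true), .t 1 (nat_lit 0) (.g 11 0 4 8 14 false true), .t 2 (nat_lit 0xd3f) (.g 11 0 4 8 14 false true), .t 2 (nat_lit 0xd40) (.g 11 0 4 8 14 false false), .t 2 (nat_lit 0xd41) (.g 4 8 0 11 15 true true), .t 1 (nat_lit 0) (.g 11 0 4 8 15 false true), .t 2 (nat_lit 0xd42) (.g 4 8 0 11 16 true true), .t 2 (nat_lit 0xd43) (.g 11 0 4 8 16 false true), .t 2 (nat_lit 0xd44) (.g 4 8 0 11 17 true true), .t 1 (nat_lit 0) (.g 11 0 4 8 17 false false), .t 2 (nat_lit 0xd45) (.g 11 0 4 8 17 false true), .t 2 (nat_lit 0xd46) (.g 4 8 0 11 18 true true), .t 2 (nat_lit 0xd3e) (.g 13 4 0 8 12 true false), .t 2 (nat_lit 0xd47) (.g 0 11 4 12 13 true true), .t 3 (nat_lit 0xd480d3e) (.g 0 11 8 12 13 true true), .t 3 (nat_lit 0xd4a0d49) (.a 4 8 12 14 true), .t 3 (nat_lit 0xd4b0d49) (.a 4 8 12 14 false), .t 2 (nat_lit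 0xd4c) (.g 0 11 4 12 14 true true), .t 2 (nat_lit 0xd41) (.g 4 8 0 12 15 true true), .t 3 (nat_lit 0xd4d0d41) (.a 4 8 12 15 true), .t 2 (nat_lit 0xd41) (.g 15 4 0 8 12 true false), .t 3 (nat_lit 0xd4e0d42) (.a 4 8 12 16 true), .t 2 (nat_lit 0xd42) (.g 16 4 0 8 12 true false), .t 3 (nat_lit 0xd4f0d42) (.g 0 11 8 12 16 true true), .t 2 (nat_lit 0xd44) (.g 4 8 0 12 17 true true), .t 2 (nat_lit 0xd44) (.g 17 4 0 8 12 true false), .t 2 (nat_lit 0xd50) (.g 0 11 4 12 17 true true), .t 3 (nat_lit 0xd510d44) (.g 0 11 8 12 17 true true), .t 2 (nat_lit 0xd46) (.g 4 8 0 12 18 true true), .t 3 (nat_lit 0xd520d49) (.a 4 8 13 14 true), .t 3 (nat_lit 0xd530d49) (.a 4 8 13 14 false), .t 2 (nat_lit 0xd49) (.g 14 4 0 8 13 true false), .t 2 (nat_lit 0xd49) (.g 14 8 0 4 13 true false), .t 2 (nat_lit 0xd54) (.g 0 11 4 13 14 true true), .t 2 (nat_lit 0xd55) (.g 0 11 4 13 14 true true), .t 3 (nat_lit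 0xd560d49) (.g 0 11 8 13 14 true true), .t 2 (nat_lit 0xd41) (.g 4 8 0 13 15 true true), .t 2 (nat_lit 0xd3e) (.g 8 4 0 13 15 false true), .t 2 (nat_lit 0xd57) (.g 0 11 4 13 15 true true), .t 2 (nat_lit 0xd58) (.g 0 11 4 13 15 true true), .t 2 (nat_lit 0xd42) (.g 4 8 0 13 16 true true), .t 2 (nat_lit 0xd59) (.g 0 11 4 13 16 true true), .t 2 (nat_lit 0xd44) (.g 4 8 0 13 17 true true), .t 3 (nat_lit 0xd5a0d44) (.a 4 8 13 17 true), .t 2 (nat_lit 0xd44) (.g 17 4 0 8 13 true false), .t 2 (nat_lit 0xd5b) (.g 0 11 4 13 17 true true), .t 2 (nat_lit 0xd46) (.g 4 8 0 13 18 true true), .t 2 (nat_lit 0xd46) (.g 18 4 0 8 13 true false), .t 2 (nat_lit 0xd5c) (.g 0 11 4 13 18 true true), .t 3 (nat_lit 0xd5d0d46) (.g 0 11 8 13 18 true true), .t 2 (nat_lit 0xd49) (.g 8 4 0 14 15 false true), .t 3 (nat_lit 0xd5e0d41) (.a 4 8 14 15 true), .t 2 (nat_lit 0xd42) (.g 4 8 0 14 16 true true), .t 2 (nat_lit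 0xd49) (.g 8 4 0 14 16 false true), .t 3 (nat_lit 0xd5f0d49) (.g 8 0 4 14 16 true false), .t 2 (nat_lit 0xd60) (.g 0 11 4 14 16 true true), .t 3 (nat_lit 0xd610d42) (.g 0 11 8 14 16 true true), .t 2 (nat_lit 0xd44) (.g 4 8 0 14 17 true true), .t 2 (nat_lit 0xd49) (.g 8 4 0 14 17 false true), .t 3 (nat_lit 0xd620d44) (.a 4 8 14 17 false), .t 2 (nat_lit 0xd44) (.g 17 4 0 8 14 true false), .t 2 (nat_lit 0xd63) (.g 0 11 4 14 17 true true), .t 3 (nat_lit 0xd640d44) (.g 0 11 8 14 17 true true), .t 2 (nat_lit 0xd46) (.g 4 8 0 14 18 true true)] (by decide +kernel) (by decide +kernel)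
theorem b196 : B 12544 12608 := Blk.of_chk [.t 2 (nat_lit 0xd46) (.g 18 4 0 8 14 true false), .t 3 (nat_lit 0xd650d46) (.g 0 11 8 14 18 true true), .t 2 (nat_lit 0xd44) (.g 4 8 0 15 17 true true), .t 3 (nat_lit 0xd660d41) (.g 8 0 4 15 17 true false), .t 3 (nat_lit 0xd670d44) (.a 4 8 15 17 true), .t 2 (nat_lit 0xd44) (.g 17 4 0 8 15 true false), .t 2 (nat_lit 0xd68) (.g 0 11 4 15 17 true true), .t 2 (nat_lit 0xd41) (.g 8 4 0 15 18 false true), .t 2 (nat_lit 0xd46) (.g 18 4 0 8 15 true false), .t 3 (nat_lit 0xd690d42) (.g 0 11 4 16 17 true true), .t 2 (nat_lit 0xd6a) (.g 0 11 4 16 17 true true), .t 3 (nat_lit 0xd6b0d44) (.a 4 8 16 17 false), .t 2 (nat_lit 0xd44) (.g 17 4 0 8 16 true false), .t 2 (nat_lit 0xd6c) (.g 0 11 4 16 17 true true), .t 2 (nat_lit 0xd6d) (.g 0 11 4 16 17 true true), .t 3 (nat_lit 0xd6e0d44) (.g 0 11 8 16 17 true true), .t 3 (nat_lit 0xd6f0d42) (.g 0 11 4 16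 18 true true), .t 2 (nat_lit 0xd70) (.g 0 11 8 16 18 true true), .t 2 (nat_lit 0xd71) (.g 0 11 4 16 18 true true), .t 2 (nat_lit 0xd42) (.g 8 0 4 16 18 true false), .t 2 (nat_lit 0xd72) (.g 0 11 4 16 18 true true), .t 3 (nat_lit 0xd730d44) (.g 0 11 4 17 18 true true), .t 2 (nat_lit 0xd74) (.g 0 11 8 17 18 true true), .t 2 (nat_lit 0xd75) (.g 0 11 4 17 18 true true), .t 3 (nat_lit 0xd760d46) (.a 4 8 17 18 true), .t 2 (nat_lit 0xd46) (.g 18 4 0 8 17 true false), .t 2 (nat_lit 0xd77) (.g 0 11 4 17 18 true true), .t 3 (nat_lit 0xd780d46) (.g 0 11 8 17 18 true true), .t 1 (nat_lit 0) (.g 4 10 0 9 11 true false), .t 1 (nat_lit 0) (.g 9 11 0 4 10 false true), .t 1 (nat_lit 0) (.g 10 0 4 9 11 true false), .t 1 (nat_lit 0) (.g 4 10 0 9 12 true false), .t 2 (nat_lit 0xd79) (.g 0 11 4 9 12 true true), .t 2 (nat_lit 0xd7a) (.g 0 11 4 10 12 true true), .t 1 (nat_lit 0) (.g 4 10 0 9 13 true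 false), .t 2 (nat_lit 0xd7b) (.g 0 11 4 9 13 true true), .t 2 (nat_lit 0xd7c) (.g 0 11 4 10 13 true true), .t 2 (nat_lit 0xd7d) (.g 9 14 0 4 10 false true), .t 2 (nat_lit 0xd7e) (.g 0 11 4 9 14 true true), .t 2 (nat_lit 0xd7f) (.g 0 11 4 10 14 true true), .t 1 (nat_lit 0) (.g 9 15 0 4 10 false true), .t 2 (nat_lit 0xd80) (.g 9 15 0 4 10 false true), .t 1 (nat_lit 0) (.a 4 9 10 15 false), .t 1 (nat_lit 0) (.g 4 10 0 9 15 true false), .t 2 (nat_lit 0xd81) (.g 0 11 4 9 15 true true), .t 2 (nat_lit 0xd82) (.g 4 0 9 10 16 false false), .t 1 (nat_lit 0) (.g 9 16 0 4 10 false true), .t 2 (nat_lit 0xd83) (.g 9 16 0 4 10 false true), .t 2 (nat_lit 0xd84) (.g 0 11 4 9 16 true true), .t 2 (nat_lit 0xd85) (.g 0 11 4 10 17 true true), .t 2 (nat_lit 0xd86) (.g 4 0 9 10 17 false false), .t 1 (nat_lit 0) (.g 9 17 0 4 10 true true), .t 1 (nat_lit 0) (.g 9 17 0 4 10 false true), .t 2 (nat_lit 0xd87)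 (.g 0 11 4 9 17 true true), .t 2 (nat_lit 0xd88) (.g 0 11 4 10 17 true true), .t 2 (nat_lit 0xd89) (.g 0 11 4 10 18 true true), .t 2 (nat_lit 0xd8a) (.g 0 11 9 10 18 true true), .t 2 (nat_lit 0xd8b) (.g 4 0 9 10 18 false false), .t 1 (nat_lit 0) (.g 9 18 0 4 10 true true), .t 1 (nat_lit 0) (.a 4 9 10 18 false), .t 1 (nat_lit 0) (.g 4 10 0 9 18 true false), .t 1 (nat_lit 0) (.g 4 10 0 9 18 true false), .t 2 (nat_lit 0xd8c) (.g 0 11 4 9 18 true true), .t 1 (nat_lit 0) (.g 11 0 4 9 12 false true)] (by decide +kernel) (by decide +kernel)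
theorem b197 : B 12608 12672 := Blk.of_chk [.t 2 (nat_lit 0xd8d) (.g 11 0 4 9 12 false true), .t 1 (nat_lit 0) (.g 4 11 0 9 12 false false), .t 2 (nat_lit 0xd8e) (.g 9 0 4 11 12 true true), .t 2 (nat_lit 0xd8e) (.g 9 0 4 11 12 true false), .t 1 (nat_lit 0) (.g 11 0 4 9 13 false true), .t 1 (nat_lit 0) (.g 11 0 4 9 13 false false), .t 2 (nat_lit 0xd8f) (.g 11 0 4 9 13 false true), .t 2 (nat_lit 0xd90) (.g 11 0 4 9 13 false false), .t 2 (nat_lit 0xd91) (.g 9 0 4 11 13 true true), .t 2 (nat_lit 0xd91) (.g 9 0 4 11 13 true false), .t 1 (nat_lit 0) (.g 11 0 4 9 14 false true), .t 1 (nat_lit 0) (.g 11 0 4 9 14 false false), .t 2 (nat_lit 0xd92) (.g 11 0 4 9 14 false true), .t 2 (nat_lit 0xd93) (.g 9 0 4 11 14 true true), .t 2 (nat_lit 0xd93) (.g 9 0 4 11 14 true false), .t 2 (nat_lit 0xd94) (.g 4 9 0 11 15 true true), .t 1 (nat_lit 0) (.g 11 0 4 9 15 false true), .t 1 (nat_lit 0) (.g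 11 0 4 9 15 false false), .t 2 (nat_lit 0xd95) (.g 11 0 4 9 15 false true), .t 2 (nat_lit 0xd94) (.g 9 0 4 11 15 true true), .t 1 (nat_lit 0) (.g 11 0 4 9 16 false true), .t 1 (nat_lit 0) (.g 11 0 4 9 16 false true), .t 2 (nat_lit 0xd96) (.g 11 0 4 9 16 false true), .t 1 (nat_lit 0) (.g 4 11 0 9 16 false false), .t 2 (nat_lit 0xd97) (.g 9 0 4 11 16 true true), .t 2 (nat_lit 0xd97) (.g 9 0 4 11 16 true false), .t 1 (nat_lit 0) (.g 9 4 0 11 17 false true), .t 1 (nat_lit 0) (.g 11 0 4 9 17 false false), .t 2 (nat_lit 0xd98) (.g 11 0 4 9 17 false true), .t 2 (nat_lit 0xd99) (.g 9 0 4 11 17 true true), .t 1 (nat_lit 0) (.g 9 4 0 11 18 false true), .t 1 (nat_lit 0) (.g 11 0 4 9 18 false true), .t 2 (nat_lit 0xd9a) (.g 11 0 4 9 18 false true), .t 2 (nat_lit 0xd9b) (.g 9 0 4 11 18 true true), .t 3 (nat_lit 0xd9c0d91) (.a 4 9 12 13 false), .t 2 (nat_lit 0xd91) (.g 13 4 0 9 12 true false),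 .t 2 (nat_lit 0xd9d) (.g 0 11 4 12 13 true true), .t 3 (nat_lit 0xd9e0d91) (.g 0 11 9 12 13 true true), .t 3 (nat_lit 0xd9f0d93) (.a 4 9 12 14 true), .t 2 (nat_lit 0xd93) (.g 14 4 0 9 12 true false), .t 2 (nat_lit 0xda0) (.g 0 11 4 12 14 true true), .t 3 (nat_lit 0xda10d93) (.g 0 11 9 12 14 true true), .t 3 (nat_lit 0xda20d93) (.g 0 11 9 12 14 true true), .t 2 (nat_lit 0xd94) (.g 4 9 0 12 15 true true), .t 3 (nat_lit 0xda30d94) (.a 4 9 12 15 true), .t 2 (nat_lit 0xd94) (.g 15 4 0 9 12 true false), .t 3 (nat_lit 0xda40d94) (.g 0 11 9 12 15 true true), .t 3 (nat_lit 0xda50d8e) (.g 9 0 4 12 16 true false), .t 3 (nat_lit 0xda60d97) (.a 4 9 12 16 true), .t 2 (nat_lit 0xd97) (.g 16 4 0 9 12 true false), .t 3 (nat_lit 0xda70d97) (.g 0 11 9 12 16 true true), .t 3 (nat_lit 0xda80d97) (.g 0 11 9 12 16 true true), .t 2 (nat_lit 0xd99) (.g 17 4 0 9 12 true false), .t 2 (nat_lit 0xda9) (.g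 0 11 4 12 17 true true), .t 3 (nat_lit 0xdaa0d99) (.g 0 11 9 12 17 true true), .t 2 (nat_lit 0xd9b) (.g 4 9 0 12 18 true true), .t 3 (nat_lit 0xdab0d9b) (.a 4 9 12 18 true), .t 2 (nat_lit 0xd9b) (.g 18 4 0 9 12 true false), .t 3 (nat_lit 0xdac0d9b) (.g 0 11 9 12 18 true true), .t 3 (nat_lit 0xdad0d93) (.a 4 9 13 14 true), .t 3 (nat_lit 0xdae0d93) (.a 4 9 13 14 false), .t 2 (nat_lit 0xd93) (.g 14 4 0 9 13 true false), .t 2 (nat_lit 0xd93) (.g 14 9 0 4 13 true false), .t 2 (nat_lit 0xdaf) (.g 0 11 4 13 14 true true)] (by decide +kernel) (by decide +kernel)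
theorem b198 : B 12672 12736 := Blk.of_chk [.t 2 (nat_lit 0xdb0) (.g 0 11 4 13 14 true true), .t 3 (nat_lit 0xdb10d93) (.g 0 11 9 13 14 true true), .t 3 (nat_lit 0xdb20d93) (.g 0 11 9 13 14 true true), .t 2 (nat_lit 0xd94) (.g 4 9 0 13 15 true true), .t 3 (nat_lit 0xdb30d91) (.g 9 0 4 13 15 true false), .t 3 (nat_lit 0xdb40d94) (.a 4 9 13 15 true), .t 3 (nat_lit 0xdb50d94) (.a 4 9 13 15 false), .t 2 (nat_lit 0xd94) (.g 15 4 0 9 13 true false), .t 2 (nat_lit 0xd94) (.g 15 9 0 4 13 true false), .t 2 (nat_lit 0xdb6) (.g 0 11 4 13 15 true true), .t 2 (nat_lit 0xdb7) (.g 0 11 4 13 15 true true), .t 3 (nat_lit 0xdb80d94) (.g 0 11 9 13 15 true true), .t 3 (nat_lit 0xdb90d94) (.g 0 11 9 13 15 true true), .t 3 (nat_lit 0xdba0d91) (.g 9 0 4 13 16 true false), .t 3 (nat_lit 0xdbb0d97) (.a 4 9 13 16 true), .t 2 (nat_lit 0xd97) (.g 16 4 0 9 13 true false), .t 2 (nat_lit 0xdbc) (.g 0 11 4 13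 16 true true), .t 2 (nat_lit 0xdbd) (.g 0 11 4 13 16 true true), .t 3 (nat_lit 0xdbe0d97) (.g 0 11 9 13 16 true true), .t 3 (nat_lit 0xdbf0d97) (.g 0 11 9 13 16 true true), .t 2 (nat_lit 0xd99) (.g 4 9 0 13 17 true true), .t 3 (nat_lit 0xdc00d91) (.g 9 0 4 13 17 true false), .t 3 (nat_lit 0xdc10d99) (.a 4 9 13 17 true), .t 2 (nat_lit 0xd99) (.g 17 4 0 9 13 true false), .t 2 (nat_lit 0xdc2) (.g 0 11 4 13 17 true true), .t 3 (nat_lit 0xdc30d99) (.g 0 11 9 13 17 true true), .t 2 (nat_lit 0xd9b) (.g 4 9 0 13 18 true true), .t 3 (nat_lit 0xdc40d91) (.g 9 0 4 13 18 true false), .t 3 (nat_lit 0xdc50d9b) (.a 4 9 13 18 true), .t 2 (nat_lit 0xd9b) (.g 18 4 0 9 13 true false), .t 3 (nat_lit 0xdc60d9b) (.g 0 11 9 13 18 true true), .t 3 (nat_lit 0xdc70d9b) (.g 0 11 9 13 18 true true), .t 2 (nat_lit 0xd94) (.g 4 9 0 14 15 true true), .t 2 (nat_lit 0xd93) (.g 9 4 0 14 15 false true), .t 3 (nat_lit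 0xdc80d93) (.g 9 0 4 14 15 true false), .t 3 (nat_lit 0xdc90d94) (.a 4 9 14 15 true), .t 2 (nat_lit 0xd94) (.g 15 4 0 9 14 true false), .t 2 (nat_lit 0xdca) (.g 0 11 4 14 15 true true), .t 3 (nat_lit 0xdcb0d94) (.g 0 11 9 14 15 true true), .t 3 (nat_lit 0xdcc0d94) (.g 0 11 9 14 15 true true), .t 3 (nat_lit 0xdcd0d93) (.g 9 0 4 14 16 true false), .t 3 (nat_lit 0xdce0d97) (.a 4 9 14 16 true), .t 2 (nat_lit 0xd97) (.g 16 4 0 9 14 true false), .t 2 (nat_lit 0xdcf) (.g 0 11 4 14 16 true true), .t 3 (nat_lit 0xdd00d97) (.g 0 11 9 14 16 true true), .t 3 (nat_lit 0xdd10d97) (.g 0 11 9 14 16 true true), .t 2 (nat_lit 0xd99) (.g 4 9 0 14 17 true true), .t 3 (nat_lit 0xdd20d93) (.g 9 0 4 14 17 true false), .t 3 (nat_lit 0xdd30d99) (.a 4 9 14 17 true), .t 2 (nat_lit 0xd99) (.g 17 4 0 9 14 true false), .t 2 (nat_lit 0xdd4) (.g 0 11 4 14 17 true true), .t 3 (nat_lit 0xdd50d99) (.g 0 11 9 14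 17 true true), .t 3 (nat_lit 0xdd60d93) (.g 9 0 4 14 18 true false), .t 2 (nat_lit 0xd9b) (.g 18 4 0 9 14 true false), .t 2 (nat_lit 0xdd7) (.g 0 11 4 14 18 true true), .t 3 (nat_lit 0xdd80d9b) (.g 0 11 9 14 18 true true), .t 3 (nat_lit 0xdd90d9b) (.g 0 11 9 14 18 true true), .t 2 (nat_lit 0xdda) (.g 0 11 4 15 16 true true), .t 2 (nat_lit 0xd97) (.g 4 9 0 15 16 true true), .t 3 (nat_lit 0xddb0d97) (.a 4 9 15 16 true), .t 2 (nat_lit 0xd97) (.g 16 4 0 9 15 true false), .t 2 (nat_lit 0xddc) (.g 0 11 4 15 16 true true), .t 2 (nat_lit 0xddd) (.g 0 11 4 15 16 true true), .t 3 (nat_lit 0xdde0d97) (.g 0 11 9 15 16 true true)] (by decide +kernel) (by decide +kernel)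

end Pool.Agent.GCP.C19
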