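import Pool.Agent.GCP.ThW
import Pool.Agent.GCP.C19D0
import Pool.Agent.GCP.C19D1
import Pool.Agent.GCP.C19D2
import Pool.Agent.GCP.C19D3
import Pool.Agent.GCP.C19D4
import Pool.Agent.GCP.C19D5
import Pool.Agent.GCP.C19D6
import Pool.Agent.GCP.C19D7
import Pool.Agent.GCP.C19D8
import Pool.Agent.GCP.C19D9
import Pool.Agent.GCP.C19D10
import Pool.Agent.GCP.C19D11
import Pool.Agent.GCP.C19D12
import Pool.Agent.GCP.C19D13
import Pool.Agent.GCP.C19D14
import Pool.Agent.GCP.C19D15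
import Pool.Agent.GCP.C19D16
import Pool.Agent.GCP.C19D17
import Pool.Agent.GCP.C19D18
import Pool.Agent.GCP.C19D19
import Pool.Agent.GCP.C19D20

set_option autoImplicit false
set_option maxRecDepth 100000

/-! # Database C19 (generated) -/

namespace Pool.Agent.GCP.C19

open Pool.Agent.GCP DB

open W

noncomputable def db : DB := (N 32768 (N 16384 (N 8192 (N 4096 (N 2048 (N 1024 (N 512 (N 256 d0 d1) (N 768 d2 d3)) (N 1536 (N 1280 d4 d5) (N 1792 d6 d7))) (N 3072 (N 2560 (N 2304 d8 d9) (N 2816 d10 d11)) (N 3584 (N 3328 d12 d13) (N 3840 d14 d15)))) (N 6144 (N 5120 (N 4608 (N 4352 d16 d17) (N 4864 d18 d19)) (N 5632 (N 5376 d20 d21) (N 5888 d22 d23))) (N 7168 (N 6656 (N 6400 d24 d25) (N 6912 d26 d27)) (N 7680 (N 7424 d28 d29) (N 7936 d30 d31))))) (N 12288 (N 10240 (N 9216 (N 8704 (N 8448 d32 d33) (N 8960 d34 d35)) (N 9728 (N 9472 d36 d37) (N 9984 d38 d39))) (N 11264 (N 10752 (N 10496 d40 d41) (N 11008 d42 d43)) (N 11776 (N 11520 d44 d45) (N 12032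 d46 d47)))) (N 14336 (N 13312 (N 12800 (N 12544 d48 d49) (N 13056 d50 d51)) (N 13824 (N 13568 d52 d53) (N 14080 d54 d55))) (N 15360 (N 14848 (N 14592 d56 d57) (N 15104 d58 d59)) (N 15872 (N 15616 d60 d61) (N 16128 d62 d63)))))) (N 24576 (N 20480 (N 18432 (N 17408 (N 16896 (N 16640 d64 d65) (N 17152 d66 d67)) (N 17920 (N 17664 d68 d69) (N 18176 d70 d71))) (N 19456 (N 18944 (N 18688 d72 d73) (N 19200 d74 d75)) (N 19968 (N 19712 d76 d77) (N 20224 d78 d79)))) (N 22528 (N 21504 (N 20992 (N 20736 d80 d81) (N 21248 d82 d83)) (N 22016 (N 21760 d84 d85) (N 22272 d86 d87))) (N 23552 (N 23040 (N 22784 d88 d89) (N 23296 d90 d91)) (N 24064 (N 23808 d92 d93) (N 24320 d94 d95))))) (N 28672 (N 26624 (N 25600 (N 25088 (N 24832 d96 d97) (N 25344 d98 d99)) (N 26112 (N 25856 d100 d101) (N 26368 d102 d103))) (N 27648 (N 27136 (N 26880 d104 d105) (N 27392 d106 d107)) (N 28160 (N 27904 d108 d109) (N 28416 d110 d111)))) (N 30720 (N 29696 (N 29184 (N 28928 d112 d113)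 (N 29440 d114 d115)) (N 30208 (N 29952 d116 d117) (N 30464 d118 d119))) (N 31744 (N 31232 (N 30976 d120 d121) (N 31488 d122 d123)) (N 32256 (N 32000 d124 d125) (N 32512 d126 d127))))))) (N 40960 (N 36864 (N 34816 (N 33792 (N 33280 (N 33024 d128 d129) (N 33536 d130 d131)) (N 34304 (N 34048 d132 d133) (N 34560 d134 d135))) (N 35840 (N 35328 (N 35072 d136 d137) (N 35584 d138 d139)) (N 36352 (N 36096 d140 d141) (N 36608 d142 d143)))) (N 38912 (N 37888 (N 37376 (N 37120 d144 d145) (N 37632 d146 d147)) (N 38400 (N 38144 d148 d149) (N 38656 d150 d151))) (N 39936 (N 39424 (N 39168 d152 d153) (N 39680 d154 d155)) (N 40448 (N 40192 d156 d157) (N 40704 d158 d159))))) (N 41472 (N 41216 d160 d161) d162)))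

noncomputable def th : ThW → ℕ → ℕ → Bool := thw 19 957 5

def t1 : List (ℕ × ThW) := [(0, (.u0 1 2)), (1, (.u0 1 3)), (4, (.u0 1 4)), (10, (.u0 1 5)), (20, (.u0 1 6)), (35, (.u0 1 7)), (56, (.u0 1 8)), (84, (.u0 1 9)), (120, (.u0 1 10)), (2, (.u0 2 3)), (5, (.u0 2 4)), (11, (.u0 2 5)), (21, (.u0 2 6)), (36, (.u0 2 7)), (57, (.u0 2 8)), (85, (.u0 2 9)), (121, (.u0 2 10)), (7, (.u0 3 4)), (13, (.u0 3 5)), (23, (.u0 3 6)), (38, (.u0 3 7)), (59, (.u0 3 8)), (87, (.u0 3 9)), (123, (.u0 3 10)), (16, (.u0 4 5)), (26, (.u0 4 6)), (41, (.u0 4 7)), (62, (.u0 4 8)), (90, (.u0 4 9)), (126, (.u0 4 10)), (30, (.u0 5 6)), (45, (.u0 5 7)), (66, (.u0 5 8)), (94, (.u0 5 9)), (130, (.u0 5 10)), (50, (.u0 6 7)), (71, (.u0 6 8)), (99, (.u0 6 9)), (135, (.u0 6 10)), (77, (.u0 7 8)), (105, (.u0 7 9)), (141, (.u0 7 10)), (112, (.u0 8 9)), (148, (.u0 8 10)), (156, (.u0 9 10)), (275, (.ub 12)), (341, (.ub 13)), (419, (.ub 14)), (510, (.ub 15)), (615, (.ub 16)), (735,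 (.ub 17)), (871, (.ub 18)), (352, (.ua 12 13)), (430, (.ua 12 14)), (521, (.ua 12 15)), (626, (.ua 12 16)), (746, (.ua 12 17)), (882, (.ua 12 18)), (442, (.ua 13 14)), (533, (.ua 13 15)), (638, (.ua 13 16)), (758, (.ua 13 17)), (894, (.ua 13 18)), (546, (.ua 14 15)), (651, (.ua 14 16)), (771, (.ua 14 17)), (907, (.ua 14 18)), (665, (.ua 15 16)), (785, (.ua 15 17)), (921, (.ua 15 18)), (800, (.ua 16 17)), (936, (.ua 16 18)), (952, (.ua 17 18)), (9, (.bn 3)), (14, (.bn 5)), (15, (.bn 6)), (17, (.bn 7)), (18, (.bn 8)), (19, (.bn 9)), (24, (.bn 11)), (25, (.bn 12)), (27, (.bn 13)), (28, (.bn 14)), (29, (.bn 15)), (39, (.bn 17)), (40, (.bn 18)), (42, (.bn 19)), (43, (.bn 20)), (44, (.bn 21)), (60, (.bn 25)), (61, (.bn 26)), (63, (.bn 27)), (64, (.bn 28)), (65, (.bn 29)), (68, (.bn 30)), (73, (.bn 31)), (78, (.bn 32)), (79, (.bn 33)), (80, (.bn 34)), (81, (.bn 35)), (82, (.bn 36)), (83, (.bn 37)), (88, (.bn 39)), (89, (.bn 40)), (91, (.bn 41)),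 (92, (.bn 42)), (93, (.bn 43)), (95, (.bn 44)), (96, (.bn 45)), (97, (.bn 46)), (100, (.bn 47)), (101, (.bn 48)), (102, (.bn 49)), (106, (.bn 50)), (107, (.bn 51)), (108, (.bn 52)), (109, (.bn 53)), (110, (.bn 54)), (111, (.bn 55)), (113, (.bn 56)), (114, (.bn 57)), (115, (.bn 58)), (116, (.bn 59)), (117, (.bn 60)), (118, (.bn 61)), (119, (.bn 62)), (124, (.bn 64)), (125, (.bn 65)), (127, (.bn 66)), (128, (.bn 67)), (129, (.bn 68)), (131, (.bn 69)), (132, (.bn 70)), (136, (.bn 71)), (137, (.bn 72)), (142, (.bn 73)), (143, (.bn 74)), (144, (.bn 75)), (145, (.bn 76)), (146, (.bn 77)), (147, (.bn 78)), (149, (.bn 79)), (150, (.bn 80)), (151, (.bn 81)), (152, (.bn 82)), (153, (.bn 83)), (154, (.bn 84))]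

def f1 : List (ℕ × ThW) := [(165, (.ub 1)), (166, (.ub 2)), (168, (.ub 3)), (171, (.ub 4)), (175, (.ub 5)), (180, (.ub 6)), (186, (.ub 7)), (193, (.ub 8)), (201, (.ub 9)), (210, (.ub 10)), (3, (.bn 0)), (6, (.bn 1)), (8, (.bn 2)), (12, (.bn 4)), (22, (.bn 10)), (37, (.bn 16)), (49, (.bn 22)), (54, (.bn 23)), (58, (.bn 24)), (86, (.bn 38)), (122, (.bn 63)), (155, (.bn 85)), (157, (.bn 86)), (158, (.bn 87)), (159, (.bn 88)), (160, (.bn 89)), (161, (.bn 90)), (162, (.bn 91)), (163, (.bn 92)), (164, (.bn 93))]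

abbrev B (a b : ℕ) : Prop := Blk db th (nat_lit 0x100010002000800400400800000000000000001000200080040040080000000000000000200080040040080000000000000000400200200400000000000000004004008000000000000000100200000000000000008000000000000000000000000000017ffe39ffbfffe7bffbfe297fb043fd87fbfeeb7) (nat_lit 0x402020410897fe800000004000000004000000442002000401148) a b

theorem base {σ : ℕ → Prop} (hth : ∀ x T F, Asg σ T F → th x T F = true → False) :
    Asg σ 0x100010002000800400400800000000000000001000200080040040080000000000000000200080040040080000000000000000400200200400000000000000004004008000000000000000100200000000000000008000000000000000000000000000017ffe39ffbfffe7bffbfe297fb043fd87fbfeeb7 0x402020410897fe800000004000000004000000442002000401148 := by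
  have h := asg_units (th := th) hth t1 f1 (by decide +kernel) (by decide +kernel)
  have e1 : msk (t1.map Prod.fst) = 0x100010002000800400400800000000000000001000200080040040080000000000000000200080040040080000000000000000400200200400000000000000004004008000000000000000100200000000000000008000000000000000000000000000017ffe39ffbfffe7bffbfe297fb043fd87fbfeeb7 := by decide +kernel
  have e2 : msk (f1.map Prod.fst) = 0x402020410897fe800000004000000004000000442002000401148 := by decide +kernel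
  rw [e1, e2] at h
  exact h

end Pool.Agent.GCP.C19
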