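import Pool.Agent.GCP.CB2Db

set_option autoImplicit false
set_option maxRecDepth 100000

/-! # Blocks CB2B1 (generated) -/

namespace Pool.Agent.GCP.CB2

open Pool.Agent.GCP

theorem b25 : B 1600 1664 := Blk.of_chk [.t 1 (nat_lit 0) (.ax 2 4 9 13 6), .t 1 (nat_lit 0) (.ax 2 4 9 14 2), .t 1 (nat_lit 0) (.ax 2 4 9 14 4), .t 1 (nat_lit 0) (.ax 2 4 9 14 5), .t 1 (nat_lit 0) (.ax 2 4 9 14 6), .t 1 (nat_lit 0) (.ax 2 4 10 11 2), .t 1 (nat_lit 0) (.ax 2 4 10 11 5), .t 1 (nat_lit 0) (.ax 2 4 10 11 6), .t 1 (nat_lit 0) (.ax 2 4 10 12 0), .t 1 (nat_lit 0) (.ax 2 4 10 12 1), .t 1 (nat_lit 0) (.ax 2 4 10 12 5), .t 1 (nat_lit 0) (.ax 2 4 10 12 6), .t 1 (nat_lit 0) (.ax 2 4 10 13 0), .t 1 (nat_lit 0) (.ax 2 4 10 14 1), .t 1 (nat_lit 0) (.ax 2 4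 10 14 2), .t 1 (nat_lit 0) (.ax 2 4 10 14 5), .t 1 (nat_lit 0) (.ax 2 4 11 12 0), .t 1 (nat_lit 0) (.ax 2 4 11 12 1), .t 1 (nat_lit 0) (.ax 2 4 11 12 5), .t 1 (nat_lit 0) (.ax 2 4 11 12 6), .t 1 (nat_lit 0) (.ax 2 4 11 12 7), .t 1 (nat_lit 0) (.ax 2 4 11 13 0), .t 1 (nat_lit 0) (.ax 2 4 11 13 5), .t 1 (nat_lit 0) (.ax 2 4 11 14 0), .t 1 (nat_lit 0) (.ax 2 4 11 14 1), .t 1 (nat_lit 0) (.ax 2 4 11 14 2), .t 1 (nat_lit 0) (.ax 2 4 11 14 3), .t 1 (nat_lit 0) (.ax 2 4 11 14 4), .t 1 (nat_lit 0) (.ax 2 4 11 14 5), .t 1 (nat_lit 0) (.ax 2 4 11 14 6), .t 1 (nat_lit 0) (.ax 2 4 12 13 0), .t 1 (nat_lit 0) (.ax 2 4 12 13 2), .t 1 (nat_lit 0) (.ax 2 4 12 13 3), .t 1 (nat_lit 0) (.ax 2 4 12 13 4), .t 1 (nat_lit 0) (.ax 2 4 12 13 6), .t 1 (nat_lit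 0) (.ax 2 4 12 13 7), .t 1 (nat_lit 0) (.ax 2 4 12 14 2), .t 1 (nat_lit 0) (.ax 2 4 12 14 3), .t 1 (nat_lit 0) (.ax 2 4 12 14 5), .t 1 (nat_lit 0) (.ax 2 4 12 14 7), .t 1 (nat_lit 0) (.ax 2 4 13 14 2), .t 1 (nat_lit 0) (.ax 2 4 13 14 5), .t 1 (nat_lit 0) (.ax 2 5 6 7 0), .t 1 (nat_lit 0) (.ax 2 5 6 7 1), .t 1 (nat_lit 0) (.ax 2 5 6 7 2), .t 1 (nat_lit 0) (.ax 2 5 6 7 3), .t 1 (nat_lit 0) (.ax 2 5 6 7 4), .t 1 (nat_lit 0) (.ax 2 5 6 7 5), .t 1 (nat_lit 0) (.ax 2 5 6 7 6), .t 1 (nat_lit 0) (.ax 2 5 6 7 7), .t 1 (nat_lit 0) (.ax 2 5 6 8 0), .t 1 (nat_lit 0) (.ax 2 5 6 8 1), .t 1 (nat_lit 0) (.ax 2 5 6 8 3), .t 1 (nat_lit 0) (.ax 2 5 6 8 4), .t 1 (nat_lit 0) (.ax 2 5 6 8 5), .t 1 (nat_lit 0) (.ax 2 5 6 8 6), .t 1 (nat_lit 0) (.ax 2 5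 6 9 2), .t 1 (nat_lit 0) (.ax 2 5 6 9 3), .t 1 (nat_lit 0) (.ax 2 5 6 9 4), .t 1 (nat_lit 0) (.ax 2 5 6 9 6), .t 1 (nat_lit 0) (.ax 2 5 6 9 7), .t 1 (nat_lit 0) (.ax 2 5 6 10 5), .t 1 (nat_lit 0) (.ax 2 5 6 10 6), .t 1 (nat_lit 0) (.ax 2 5 6 11 0)] (by decide +kernel) (by decide +kernel)
theorem b26 : B 1664 1728 := Blk.of_chk [.t 1 (nat_lit 0) (.ax 2 5 6 11 6), .t 1 (nat_lit 0) (.ax 2 5 6 11 7), .t 1 (nat_lit 0) (.ax 2 5 6 12 0), .t 1 (nat_lit 0) (.ax 2 5 6 12 1), .t 1 (nat_lit 0) (.ax 2 5 6 12 2), .t 1 (nat_lit 0) (.ax 2 5 6 12 3), .t 1 (nat_lit 0) (.ax 2 5 6 12 5), .t 1 (nat_lit 0) (.ax 2 5 6 12 6), .t 1 (nat_lit 0) (.ax 2 5 6 12 7), .t 1 (nat_lit 0) (.ax 2 5 6 13 2), .t 1 (nat_lit 0) (.ax 2 5 6 13 3), .t 1 (nat_lit 0) (.ax 2 5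 6 13 4), .t 1 (nat_lit 0) (.ax 2 5 6 13 6), .t 1 (nat_lit 0) (.ax 2 5 6 13 7), .t 1 (nat_lit 0) (.ax 2 5 6 14 3), .t 1 (nat_lit 0) (.ax 2 5 6 14 5), .t 1 (nat_lit 0) (.ax 2 5 6 14 6), .t 1 (nat_lit 0) (.ax 2 5 6 14 7), .t 1 (nat_lit 0) (.ax 2 5 7 8 0), .t 1 (nat_lit 0) (.ax 2 5 7 8 1), .t 1 (nat_lit 0) (.ax 2 5 7 8 3), .t 1 (nat_lit 0) (.ax 2 5 7 8 4), .t 1 (nat_lit 0) (.ax 2 5 7 8 5), .t 1 (nat_lit 0) (.ax 2 5 7 9 0), .t 1 (nat_lit 0) (.ax 2 5 7 9 4), .t 1 (nat_lit 0) (.ax 2 5 7 9 5), .t 1 (nat_lit 0) (.ax 2 5 7 9 6), .t 1 (nat_lit 0) (.ax 2 5 7 9 7), .t 1 (nat_lit 0) (.ax 2 5 7 10 0), .t 1 (nat_lit 0) (.ax 2 5 7 10 5), .t 1 (nat_lit 0) (.ax 2 5 7 11 5), .t 1 (nat_lit 0) (.ax 2 5 7 11 6), .t 1 (nat_lit 0) (.ax 2 5 7 12 0), .t 1 (nat_lit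 0) (.ax 2 5 7 12 1), .t 1 (nat_lit 0) (.ax 2 5 7 12 3), .t 1 (nat_lit 0) (.ax 2 5 7 12 4), .t 1 (nat_lit 0) (.ax 2 5 7 12 5), .t 1 (nat_lit 0) (.ax 2 5 7 12 6), .t 1 (nat_lit 0) (.ax 2 5 7 12 7), .t 1 (nat_lit 0) (.ax 2 5 7 13 0), .t 1 (nat_lit 0) (.ax 2 5 7 13 3), .t 1 (nat_lit 0) (.ax 2 5 7 13 5), .t 1 (nat_lit 0) (.ax 2 5 7 13 6), .t 1 (nat_lit 0) (.ax 2 5 7 13 7), .t 1 (nat_lit 0) (.ax 2 5 7 14 3), .t 1 (nat_lit 0) (.ax 2 5 7 14 5), .t 1 (nat_lit 0) (.ax 2 5 7 14 6), .t 1 (nat_lit 0) (.ax 2 5 7 14 7), .t 1 (nat_lit 0) (.ax 2 5 8 9 2), .t 1 (nat_lit 0) (.ax 2 5 8 9 4), .t 1 (nat_lit 0) (.ax 2 5 8 9 6), .t 1 (nat_lit 0) (.ax 2 5 8 10 0), .t 1 (nat_lit 0) (.ax 2 5 8 10 2), .t 1 (nat_lit 0) (.ax 2 5 8 10 3), .t 1 (nat_lit 0) (.ax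 2 5 8 10 4), .t 1 (nat_lit 0) (.ax 2 5 8 10 6), .t 1 (nat_lit 0) (.ax 2 5 8 11 1), .t 1 (nat_lit 0) (.ax 2 5 8 11 2), .t 1 (nat_lit 0) (.ax 2 5 8 11 4), .t 1 (nat_lit 0) (.ax 2 5 8 11 5), .t 1 (nat_lit 0) (.ax 2 5 8 11 6), .t 1 (nat_lit 0) (.ax 2 5 8 12 1), .t 1 (nat_lit 0) (.ax 2 5 8 12 2), .t 1 (nat_lit 0) (.ax 2 5 8 12 4)] (by decide +kernel) (by decide +kernel)
theorem b27 : B 1728 1792 := Blk.of_chk [.t 1 (nat_lit 0) (.ax 2 5 8 12 5), .t 1 (nat_lit 0) (.ax 2 5 8 12 6), .t 1 (nat_lit 0) (.ax 2 5 8 12 7), .t 1 (nat_lit 0) (.ax 2 5 8 13 0), .t 1 (nat_lit 0) (.ax 2 5 8 13 2), .t 1 (nat_lit 0) (.ax 2 5 8 13 3), .t 1 (nat_lit 0) (.ax 2 5 8 13 4), .t 1 (nat_lit 0) (.ax 2 5 8 13 5), .t 1 (nat_lit 0) (.ax 2 5 8 13 6), .t 1 (nat_lit 0)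 (.ax 2 5 8 14 2), .t 1 (nat_lit 0) (.ax 2 5 8 14 4), .t 1 (nat_lit 0) (.ax 2 5 8 14 5), .t 1 (nat_lit 0) (.ax 2 5 8 14 6), .t 1 (nat_lit 0) (.ax 2 5 9 10 2), .t 1 (nat_lit 0) (.ax 2 5 9 10 6), .t 1 (nat_lit 0) (.ax 2 5 9 10 7), .t 1 (nat_lit 0) (.ax 2 5 9 11 0), .t 1 (nat_lit 0) (.ax 2 5 9 11 1), .t 1 (nat_lit 0) (.ax 2 5 9 11 2), .t 1 (nat_lit 0) (.ax 2 5 9 11 4), .t 1 (nat_lit 0) (.ax 2 5 9 11 5), .t 1 (nat_lit 0) (.ax 2 5 9 11 6), .t 1 (nat_lit 0) (.ax 2 5 9 12 0), .t 1 (nat_lit 0) (.ax 2 5 9 12 1), .t 1 (nat_lit 0) (.ax 2 5 9 12 2), .t 1 (nat_lit 0) (.ax 2 5 9 12 4), .t 1 (nat_lit 0) (.ax 2 5 9 12 5), .t 1 (nat_lit 0) (.ax 2 5 9 13 0), .t 1 (nat_lit 0) (.ax 2 5 9 13 2), .t 1 (nat_lit 0) (.ax 2 5 9 13 4), .t 1 (nat_lit 0) (.ax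 2 5 9 13 5), .t 1 (nat_lit 0) (.ax 2 5 9 14 1), .t 1 (nat_lit 0) (.ax 2 5 9 14 3), .t 1 (nat_lit 0) (.ax 2 5 9 14 4), .t 1 (nat_lit 0) (.ax 2 5 9 14 5), .t 1 (nat_lit 0) (.ax 2 5 9 14 6), .t 1 (nat_lit 0) (.ax 2 5 9 14 7), .t 1 (nat_lit 0) (.ax 2 5 10 11 2), .t 1 (nat_lit 0) (.ax 2 5 10 11 5), .t 1 (nat_lit 0) (.ax 2 5 10 11 6), .t 1 (nat_lit 0) (.ax 2 5 10 11 7), .t 1 (nat_lit 0) (.ax 2 5 10 12 0), .t 1 (nat_lit 0) (.ax 2 5 10 12 1), .t 1 (nat_lit 0) (.ax 2 5 10 12 6), .t 1 (nat_lit 0) (.ax 2 5 10 12 7), .t 1 (nat_lit 0) (.ax 2 5 10 13 0), .t 1 (nat_lit 0) (.ax 2 5 10 13 3), .t 1 (nat_lit 0) (.ax 2 5 10 13 4), .t 1 (nat_lit 0) (.ax 2 5 10 13 5), .t 1 (nat_lit 0) (.ax 2 5 10 13 6), .t 1 (nat_lit 0) (.ax 2 5 10 14 2), .t 1 (nat_lit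 0) (.ax 2 5 10 14 4), .t 1 (nat_lit 0) (.ax 2 5 10 14 5), .t 1 (nat_lit 0) (.ax 2 5 11 12 0), .t 1 (nat_lit 0) (.ax 2 5 11 12 1), .t 1 (nat_lit 0) (.ax 2 5 11 12 3), .t 1 (nat_lit 0) (.ax 2 5 11 12 4), .t 1 (nat_lit 0) (.ax 2 5 11 12 6), .t 1 (nat_lit 0) (.ax 2 5 11 12 7), .t 1 (nat_lit 0) (.ax 2 5 11 13 0), .t 1 (nat_lit 0) (.ax 2 5 11 13 2), .t 1 (nat_lit 0) (.ax 2 5 11 13 4), .t 1 (nat_lit 0) (.ax 2 5 11 14 0), .t 1 (nat_lit 0) (.ax 2 5 11 14 1)] (by decide +kernel) (by decide +kernel)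
theorem b28 : B 1792 1856 := Blk.of_chk [.t 1 (nat_lit 0) (.ax 2 5 11 14 2), .t 1 (nat_lit 0) (.ax 2 5 11 14 3), .t 1 (nat_lit 0) (.ax 2 5 11 14 5), .t 1 (nat_lit 0) (.ax 2 5 11 14 6), .t 1 (nat_lit 0) (.ax 2 5 12 13 2), .t 1 (nat_lit 0) (.ax 2 5 12 13 4), .t 1 (nat_lit 0) (.ax 2 5 12 13 6), .t 1 (nat_lit 0) (.ax 2 5 12 14 1), .t 1 (nat_lit 0) (.ax 2 5 12 14 3), .t 1 (nat_lit 0) (.ax 2 5 12 14 5), .t 1 (nat_lit 0) (.ax 2 5 12 14 6), .t 1 (nat_lit 0) (.ax 2 5 12 14 7), .t 1 (nat_lit 0) (.ax 2 5 13 14 2), .t 1 (nat_lit 0) (.ax 2 5 13 14 5), .t 1 (nat_lit 0) (.ax 2 5 13 14 6), .t 1 (nat_lit 0) (.ax 2 6 7 8 0), .t 1 (nat_lit 0) (.ax 2 6 7 8 1), .t 1 (nat_lit 0) (.ax 2 6 7 8 2), .t 1 (nat_lit 0) (.ax 2 6 7 8 3), .t 1 (nat_lit 0) (.ax 2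 6 7 8 4), .t 1 (nat_lit 0) (.ax 2 6 7 8 5), .t 1 (nat_lit 0) (.ax 2 6 7 8 6), .t 1 (nat_lit 0) (.ax 2 6 7 8 7), .t 1 (nat_lit 0) (.ax 2 6 7 9 0), .t 1 (nat_lit 0) (.ax 2 6 7 9 4), .t 1 (nat_lit 0) (.ax 2 6 7 9 5), .t 1 (nat_lit 0) (.ax 2 6 7 9 6), .t 1 (nat_lit 0) (.ax 2 6 7 9 7), .t 1 (nat_lit 0) (.ax 2 6 7 10 0), .t 1 (nat_lit 0) (.ax 2 6 7 10 2), .t 1 (nat_lit 0) (.ax 2 6 7 10 4), .t 1 (nat_lit 0) (.ax 2 6 7 10 5), .t 1 (nat_lit 0) (.ax 2 6 7 10 6), .t 1 (nat_lit 0) (.ax 2 6 7 10 7), .t 1 (nat_lit 0) (.ax 2 6 7 11 0), .t 1 (nat_lit 0) (.ax 2 6 7 11 3), .t 1 (nat_lit 0) (.ax 2 6 7 11 5), .t 1 (nat_lit 0) (.ax 2 6 7 11 6), .t 1 (nat_lit 0) (.ax 2 6 7 12 0), .t 1 (nat_lit 0) (.ax 2 6 7 12 1), .t 1 (nat_lit 0) (.ax 2 6 7 12 6), .t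 1 (nat_lit 0) (.ax 2 6 7 12 7), .t 1 (nat_lit 0) (.ax 2 6 7 13 0), .t 1 (nat_lit 0) (.ax 2 6 7 13 5), .t 1 (nat_lit 0) (.ax 2 6 7 13 6), .t 1 (nat_lit 0) (.ax 2 6 7 14 5), .t 1 (nat_lit 0) (.ax 2 6 7 14 6), .t 1 (nat_lit 0) (.ax 2 6 7 14 7), .t 1 (nat_lit 0) (.ax 2 6 8 9 0), .t 1 (nat_lit 0) (.ax 2 6 8 9 2), .t 1 (nat_lit 0) (.ax 2 6 8 9 3), .t 1 (nat_lit 0) (.ax 2 6 8 9 4), .t 1 (nat_lit 0) (.ax 2 6 8 9 5), .t 1 (nat_lit 0) (.ax 2 6 8 9 6), .t 1 (nat_lit 0) (.ax 2 6 8 9 7), .t 1 (nat_lit 0) (.ax 2 6 8 10 2), .t 1 (nat_lit 0) (.ax 2 6 8 10 4), .t 1 (nat_lit 0) (.ax 2 6 8 10 6), .t 1 (nat_lit 0) (.ax 2 6 8 11 2), .t 1 (nat_lit 0) (.ax 2 6 8 11 4), .t 1 (nat_lit 0) (.ax 2 6 8 11 6), .t 1 (nat_lit 0) (.ax 2 6 8 12 1), .t 1 (nat_lit 0)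 (.ax 2 6 8 12 2), .t 1 (nat_lit 0) (.ax 2 6 8 12 3)] (by decide +kernel) (by decide +kernel)
theorem b29 : B 1856 1920 := Blk.of_chk [.t 1 (nat_lit 0) (.ax 2 6 8 12 6), .t 1 (nat_lit 0) (.ax 2 6 8 13 0), .t 1 (nat_lit 0) (.ax 2 6 8 13 2), .t 1 (nat_lit 0) (.ax 2 6 8 13 3), .t 1 (nat_lit 0) (.ax 2 6 8 13 4), .t 1 (nat_lit 0) (.ax 2 6 8 13 6), .t 1 (nat_lit 0) (.ax 2 6 8 13 7), .t 1 (nat_lit 0) (.ax 2 6 8 14 2), .t 1 (nat_lit 0) (.ax 2 6 8 14 3), .t 1 (nat_lit 0) (.ax 2 6 8 14 4), .t 1 (nat_lit 0) (.ax 2 6 8 14 5), .t 1 (nat_lit 0) (.ax 2 6 8 14 6), .t 1 (nat_lit 0) (.ax 2 6 8 14 7), .t 1 (nat_lit 0) (.ax 2 6 9 10 5), .t 1 (nat_lit 0) (.ax 2 6 9 10 6), .t 1 (nat_lit 0) (.ax 2 6 9 11 1), .t 1 (nat_lit 0) (.ax 2 6 9 11 2), .t 1 (nat_lit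 0) (.ax 2 6 9 11 3), .t 1 (nat_lit 0) (.ax 2 6 9 11 4), .t 1 (nat_lit 0) (.ax 2 6 9 11 5), .t 1 (nat_lit 0) (.ax 2 6 9 11 6), .t 1 (nat_lit 0) (.ax 2 6 9 11 7), .t 1 (nat_lit 0) (.ax 2 6 9 12 0), .t 1 (nat_lit 0) (.ax 2 6 9 12 1), .t 1 (nat_lit 0) (.ax 2 6 9 12 2), .t 1 (nat_lit 0) (.ax 2 6 9 12 3), .t 1 (nat_lit 0) (.ax 2 6 9 12 4), .t 1 (nat_lit 0) (.ax 2 6 9 12 5), .t 1 (nat_lit 0) (.ax 2 6 9 12 6), .t 1 (nat_lit 0) (.ax 2 6 9 12 7), .t 1 (nat_lit 0) (.ax 2 6 9 13 0), .t 1 (nat_lit 0) (.ax 2 6 9 13 2), .t 1 (nat_lit 0) (.ax 2 6 9 13 3), .t 1 (nat_lit 0) (.ax 2 6 9 13 4), .t 1 (nat_lit 0) (.ax 2 6 9 13 5), .t 1 (nat_lit 0) (.ax 2 6 9 13 6), .t 1 (nat_lit 0) (.ax 2 6 9 14 1), .t 1 (nat_lit 0) (.ax 2 6 9 14 2), .t 1 (nat_lit 0) (.ax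 2 6 9 14 4), .t 1 (nat_lit 0) (.ax 2 6 9 14 6), .t 1 (nat_lit 0) (.ax 2 6 9 14 7), .t 1 (nat_lit 0) (.ax 2 6 10 11 2), .t 1 (nat_lit 0) (.ax 2 6 10 11 4), .t 1 (nat_lit 0) (.ax 2 6 10 11 5), .t 1 (nat_lit 0) (.ax 2 6 10 11 6), .t 1 (nat_lit 0) (.ax 2 6 10 12 0), .t 1 (nat_lit 0) (.ax 2 6 10 12 1), .t 1 (nat_lit 0) (.ax 2 6 10 12 2), .t 1 (nat_lit 0) (.ax 2 6 10 12 5), .t 1 (nat_lit 0) (.ax 2 6 10 12 6), .t 1 (nat_lit 0) (.ax 2 6 10 13 0), .t 1 (nat_lit 0) (.ax 2 6 10 13 5), .t 1 (nat_lit 0) (.ax 2 6 10 13 6), .t 1 (nat_lit 0) (.ax 2 6 10 14 1), .t 1 (nat_lit 0) (.ax 2 6 10 14 2), .t 1 (nat_lit 0) (.ax 2 6 10 14 5), .t 1 (nat_lit 0) (.ax 2 6 10 14 6), .t 1 (nat_lit 0) (.ax 2 6 11 12 0), .t 1 (nat_lit 0) (.ax 2 6 11 12 1), .t 1 (nat_lit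 0) (.ax 2 6 11 12 3), .t 1 (nat_lit 0) (.ax 2 6 11 12 4), .t 1 (nat_lit 0) (.ax 2 6 11 12 6), .t 1 (nat_lit 0) (.ax 2 6 11 12 7), .t 1 (nat_lit 0) (.ax 2 6 11 13 0)] (by decide +kernel) (by decide +kernel)
theorem b30 : B 1920 1984 := Blk.of_chk [.t 1 (nat_lit 0) (.ax 2 6 11 13 2), .t 1 (nat_lit 0) (.ax 2 6 11 13 5), .t 1 (nat_lit 0) (.ax 2 6 11 13 6), .t 1 (nat_lit 0) (.ax 2 6 11 14 0), .t 1 (nat_lit 0) (.ax 2 6 11 14 1), .t 1 (nat_lit 0) (.ax 2 6 11 14 2), .t 1 (nat_lit 0) (.ax 2 6 11 14 3), .t 1 (nat_lit 0) (.ax 2 6 11 14 5), .t 1 (nat_lit 0) (.ax 2 6 11 14 6), .t 1 (nat_lit 0) (.ax 2 6 12 13 0), .t 1 (nat_lit 0) (.ax 2 6 12 13 2), .t 1 (nat_lit 0) (.ax 2 6 12 13 3), .t 1 (nat_lit 0) (.ax 2 6 12 13 4), .t 1 (nat_lit 0) (.ax 2 6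 12 13 5), .t 1 (nat_lit 0) (.ax 2 6 12 13 6), .t 1 (nat_lit 0) (.ax 2 6 12 14 3), .t 1 (nat_lit 0) (.ax 2 6 12 14 4), .t 1 (nat_lit 0) (.ax 2 6 12 14 5), .t 1 (nat_lit 0) (.ax 2 6 12 14 7), .t 1 (nat_lit 0) (.ax 2 6 13 14 2), .t 1 (nat_lit 0) (.ax 2 6 13 14 5), .t 1 (nat_lit 0) (.ax 2 7 8 9 0), .t 1 (nat_lit 0) (.ax 2 7 8 9 2), .t 1 (nat_lit 0) (.ax 2 7 8 9 3), .t 1 (nat_lit 0) (.ax 2 7 8 9 4), .t 1 (nat_lit 0) (.ax 2 7 8 9 6), .t 1 (nat_lit 0) (.ax 2 7 8 10 0), .t 1 (nat_lit 0) (.ax 2 7 8 10 2), .t 1 (nat_lit 0) (.ax 2 7 8 10 3), .t 1 (nat_lit 0) (.ax 2 7 8 10 4), .t 1 (nat_lit 0) (.ax 2 7 8 10 5), .t 1 (nat_lit 0) (.ax 2 7 8 10 6), .t 1 (nat_lit 0) (.ax 2 7 8 11 1), .t 1 (nat_lit 0) (.ax 2 7 8 11 2), .t 1 (nat_lit 0) (.ax 2 7 8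 11 3), .t 1 (nat_lit 0) (.ax 2 7 8 11 4), .t 1 (nat_lit 0) (.ax 2 7 8 11 6), .t 1 (nat_lit 0) (.ax 2 7 8 12 2), .t 1 (nat_lit 0) (.ax 2 7 8 12 3), .t 1 (nat_lit 0) (.ax 2 7 8 12 4), .t 1 (nat_lit 0) (.ax 2 7 8 12 5), .t 1 (nat_lit 0) (.ax 2 7 8 12 6), .t 1 (nat_lit 0) (.ax 2 7 8 13 2), .t 1 (nat_lit 0) (.ax 2 7 8 13 3), .t 1 (nat_lit 0) (.ax 2 7 8 13 4), .t 1 (nat_lit 0) (.ax 2 7 8 13 6), .t 1 (nat_lit 0) (.ax 2 7 8 14 2), .t 1 (nat_lit 0) (.ax 2 7 8 14 3), .t 1 (nat_lit 0) (.ax 2 7 8 14 4), .t 1 (nat_lit 0) (.ax 2 7 8 14 6), .t 1 (nat_lit 0) (.ax 2 7 9 10 0), .t 1 (nat_lit 0) (.ax 2 7 9 10 4), .t 1 (nat_lit 0) (.ax 2 7 9 10 5), .t 1 (nat_lit 0) (.ax 2 7 9 11 0), .t 1 (nat_lit 0) (.ax 2 7 9 11 2), .t 1 (nat_lit 0) (.ax 2 7 9 11 4),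 .t 1 (nat_lit 0) (.ax 2 7 9 11 6), .t 1 (nat_lit 0) (.ax 2 7 9 12 0), .t 1 (nat_lit 0) (.ax 2 7 9 12 1), .t 1 (nat_lit 0) (.ax 2 7 9 12 2), .t 1 (nat_lit 0) (.ax 2 7 9 12 3), .t 1 (nat_lit 0) (.ax 2 7 9 12 5), .t 1 (nat_lit 0) (.ax 2 7 9 12 6), .t 1 (nat_lit 0) (.ax 2 7 9 12 7)] (by decide +kernel) (by decide +kernel)
theorem b31 : B 1984 2048 := Blk.of_chk [.t 1 (nat_lit 0) (.ax 2 7 9 13 0), .t 1 (nat_lit 0) (.ax 2 7 9 13 2), .t 1 (nat_lit 0) (.ax 2 7 9 13 4), .t 1 (nat_lit 0) (.ax 2 7 9 13 5), .t 1 (nat_lit 0) (.ax 2 7 9 13 6), .t 1 (nat_lit 0) (.ax 2 7 9 14 0), .t 1 (nat_lit 0) (.ax 2 7 9 14 4), .t 1 (nat_lit 0) (.ax 2 7 9 14 5), .t 1 (nat_lit 0) (.ax 2 7 10 11 0), .t 1 (nat_lit 0) (.ax 2 7 10 11 2), .t 1 (nat_lit 0) (.ax 2 7 10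 11 4), .t 1 (nat_lit 0) (.ax 2 7 10 12 0), .t 1 (nat_lit 0) (.ax 2 7 10 12 1), .t 1 (nat_lit 0) (.ax 2 7 10 12 2), .t 1 (nat_lit 0) (.ax 2 7 10 12 5), .t 1 (nat_lit 0) (.ax 2 7 10 13 0), .t 1 (nat_lit 0) (.ax 2 7 10 13 2), .t 1 (nat_lit 0) (.ax 2 7 10 13 6), .t 1 (nat_lit 0) (.ax 2 7 10 14 0), .t 1 (nat_lit 0) (.ax 2 7 10 14 4), .t 1 (nat_lit 0) (.ax 2 7 10 14 5), .t 1 (nat_lit 0) (.ax 2 7 11 12 0), .t 1 (nat_lit 0) (.ax 2 7 11 12 1), .t 1 (nat_lit 0) (.ax 2 7 11 12 2), .t 1 (nat_lit 0) (.ax 2 7 11 12 4), .t 1 (nat_lit 0) (.ax 2 7 11 12 6), .t 1 (nat_lit 0) (.ax 2 7 11 13 0), .t 1 (nat_lit 0) (.ax 2 7 11 13 4), .t 1 (nat_lit 0) (.ax 2 7 11 14 0), .t 1 (nat_lit 0) (.ax 2 7 11 14 1), .t 1 (nat_lit 0) (.ax 2 7 11 14 2), .t 1 (nat_lit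 0) (.ax 2 7 11 14 3), .t 1 (nat_lit 0) (.ax 2 7 11 14 5), .t 1 (nat_lit 0) (.ax 2 7 12 13 0), .t 1 (nat_lit 0) (.ax 2 7 12 13 3), .t 1 (nat_lit 0) (.ax 2 7 12 13 4), .t 1 (nat_lit 0) (.ax 2 7 12 13 6), .t 1 (nat_lit 0) (.ax 2 7 12 14 3), .t 1 (nat_lit 0) (.ax 2 7 12 14 4), .t 1 (nat_lit 0) (.ax 2 7 12 14 5), .t 1 (nat_lit 0) (.ax 2 7 12 14 6), .t 1 (nat_lit 0) (.ax 2 7 13 14 0), .t 1 (nat_lit 0) (.ax 2 7 13 14 2), .t 1 (nat_lit 0) (.ax 2 7 13 14 5), .t 1 (nat_lit 0) (.ax 2 8 9 10 0), .t 1 (nat_lit 0) (.ax 2 8 9 10 1), .t 1 (nat_lit 0) (.ax 2 8 9 10 2), .t 1 (nat_lit 0) (.ax 2 8 9 10 4), .t 1 (nat_lit 0) (.ax 2 8 9 10 5), .t 1 (nat_lit 0) (.ax 2 8 9 11 0), .t 1 (nat_lit 0) (.ax 2 8 9 11 1), .t 1 (nat_lit 0) (.ax 2 8 9 11 2), .t 1 (nat_lit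 0) (.ax 2 8 9 11 3), .t 1 (nat_lit 0) (.ax 2 8 9 11 4), .t 1 (nat_lit 0) (.ax 2 8 9 11 5), .t 1 (nat_lit 0) (.ax 2 8 9 11 6), .t 1 (nat_lit 0) (.ax 2 8 9 12 0), .t 1 (nat_lit 0) (.ax 2 8 9 12 2), .t 1 (nat_lit 0) (.ax 2 8 9 12 3), .t 1 (nat_lit 0) (.ax 2 8 9 12 4), .t 1 (nat_lit 0) (.ax 2 8 9 12 5), .t 1 (nat_lit 0) (.ax 2 8 9 12 6), .t 1 (nat_lit 0) (.ax 2 8 9 13 2), .t 1 (nat_lit 0) (.ax 2 8 9 13 4)] (by decide +kernel) (by decide +kernel)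
theorem b32 : B 2048 2112 := Blk.of_chk [.t 1 (nat_lit 0) (.ax 2 8 9 13 6), .t 1 (nat_lit 0) (.ax 2 8 9 14 0), .t 1 (nat_lit 0) (.ax 2 8 9 14 2), .t 1 (nat_lit 0) (.ax 2 8 9 14 3), .t 1 (nat_lit 0) (.ax 2 8 9 14 4), .t 1 (nat_lit 0) (.ax 2 8 9 14 5), .t 1 (nat_lit 0) (.ax 2 8 9 14 6), .t 1 (nat_lit 0) (.ax 2 8 10 11 0), .t 1 (nat_lit 0) (.ax 2 8 10 11 1), .t 1 (nat_lit 0) (.ax 2 8 10 11 2), .t 1 (nat_lit 0) (.ax 2 8 10 11 4), .t 1 (nat_lit 0) (.ax 2 8 10 11 5), .t 1 (nat_lit 0) (.ax 2 8 10 11 6), .t 1 (nat_lit 0) (.ax 2 8 10 12 0), .t 1 (nat_lit 0) (.ax 2 8 10 12 3), .t 1 (nat_lit 0) (.ax 2 8 10 12 4), .t 1 (nat_lit 0) (.ax 2 8 10 12 6), .t 1 (nat_lit 0) (.ax 2 8 10 12 7), .t 1 (nat_lit 0) (.ax 2 8 10 13 0), .t 1 (nat_lit 0) (.ax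 2 8 10 13 5), .t 1 (nat_lit 0) (.ax 2 8 10 13 6), .t 1 (nat_lit 0) (.ax 2 8 10 14 1), .t 1 (nat_lit 0) (.ax 2 8 10 14 2), .t 1 (nat_lit 0) (.ax 2 8 10 14 3), .t 1 (nat_lit 0) (.ax 2 8 10 14 4), .t 1 (nat_lit 0) (.ax 2 8 10 14 5), .t 1 (nat_lit 0) (.ax 2 8 11 12 0), .t 1 (nat_lit 0) (.ax 2 8 11 12 1), .t 1 (nat_lit 0) (.ax 2 8 11 12 3), .t 1 (nat_lit 0) (.ax 2 8 11 12 4), .t 1 (nat_lit 0) (.ax 2 8 11 12 6), .t 1 (nat_lit 0) (.ax 2 8 11 13 5), .t 1 (nat_lit 0) (.ax 2 8 11 13 6), .t 1 (nat_lit 0) (.ax 2 8 11 14 0), .t 1 (nat_lit 0) (.ax 2 8 11 14 1), .t 1 (nat_lit 0) (.ax 2 8 11 14 2), .t 1 (nat_lit 0) (.ax 2 8 11 14 3), .t 1 (nat_lit 0) (.ax 2 8 11 14 4), .t 1 (nat_lit 0) (.ax 2 8 11 14 5), .t 1 (nat_lit 0) (.ax 2 8 11 14 7), .t 1 (nat_lit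 0) (.ax 2 8 12 13 0), .t 1 (nat_lit 0) (.ax 2 8 12 13 4), .t 1 (nat_lit 0) (.ax 2 8 12 14 0), .t 1 (nat_lit 0) (.ax 2 8 12 14 2), .t 1 (nat_lit 0) (.ax 2 8 12 14 3), .t 1 (nat_lit 0) (.ax 2 8 12 14 4), .t 1 (nat_lit 0) (.ax 2 8 12 14 5), .t 1 (nat_lit 0) (.ax 2 8 13 14 1), .t 1 (nat_lit 0) (.ax 2 8 13 14 5), .t 1 (nat_lit 0) (.ax 2 8 13 14 6), .t 1 (nat_lit 0) (.ax 2 9 10 11 0), .t 1 (nat_lit 0) (.ax 2 9 10 11 1), .t 1 (nat_lit 0) (.ax 2 9 10 11 2), .t 1 (nat_lit 0) (.ax 2 9 10 11 3), .t 1 (nat_lit 0) (.ax 2 9 10 11 4), .t 1 (nat_lit 0) (.ax 2 9 10 11 5), .t 1 (nat_lit 0) (.ax 2 9 10 11 6), .t 1 (nat_lit 0) (.ax 2 9 10 12 0), .t 1 (nat_lit 0) (.ax 2 9 10 12 1), .t 1 (nat_lit 0) (.ax 2 9 10 12 3), .t 1 (nat_lit 0) (.ax 2 9 10 12 4),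 .t 1 (nat_lit 0) (.ax 2 9 10 12 7), .t 1 (nat_lit 0) (.ax 2 9 10 13 1), .t 1 (nat_lit 0) (.ax 2 9 10 13 3)] (by decide +kernel) (by decide +kernel)
theorem b33 : B 2112 2176 := Blk.of_chk [.t 1 (nat_lit 0) (.ax 2 9 10 13 6), .t 1 (nat_lit 0) (.ax 2 9 10 14 1), .t 1 (nat_lit 0) (.ax 2 9 10 14 3), .t 1 (nat_lit 0) (.ax 2 9 11 12 0), .t 1 (nat_lit 0) (.ax 2 9 11 12 1), .t 1 (nat_lit 0) (.ax 2 9 11 12 3), .t 1 (nat_lit 0) (.ax 2 9 11 12 4), .t 1 (nat_lit 0) (.ax 2 9 11 12 5), .t 1 (nat_lit 0) (.ax 2 9 11 13 3), .t 1 (nat_lit 0) (.ax 2 9 11 13 5), .t 1 (nat_lit 0) (.ax 2 9 11 13 6), .t 1 (nat_lit 0) (.ax 2 9 11 14 0), .t 1 (nat_lit 0) (.ax 2 9 11 14 1), .t 1 (nat_lit 0) (.ax 2 9 11 14 2), .t 1 (nat_lit 0) (.ax 2 9 11 14 4), .t 1 (nat_lit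 0) (.ax 2 9 11 14 5), .t 1 (nat_lit 0) (.ax 2 9 12 13 2), .t 1 (nat_lit 0) (.ax 2 9 12 13 4), .t 1 (nat_lit 0) (.ax 2 9 12 14 2), .t 1 (nat_lit 0) (.ax 2 9 12 14 3), .t 1 (nat_lit 0) (.ax 2 9 12 14 4), .t 1 (nat_lit 0) (.ax 2 9 12 14 5), .t 1 (nat_lit 0) (.ax 2 9 12 14 7), .t 1 (nat_lit 0) (.ax 2 9 13 14 0), .t 1 (nat_lit 0) (.ax 2 9 13 14 1), .t 1 (nat_lit 0) (.ax 2 9 13 14 5), .t 1 (nat_lit 0) (.ax 2 10 11 12 0), .t 1 (nat_lit 0) (.ax 2 10 11 12 1), .t 1 (nat_lit 0) (.ax 2 10 11 12 2), .t 1 (nat_lit 0) (.ax 2 10 11 12 3), .t 1 (nat_lit 0) (.ax 2 10 11 12 4), .t 1 (nat_lit 0) (.ax 2 10 11 12 5), .t 1 (nat_lit 0) (.ax 2 10 11 13 0), .t 1 (nat_lit 0) (.ax 2 10 11 13 1), .t 1 (nat_lit 0) (.ax 2 10 11 13 4), .t 1 (nat_lit 0) (.ax 2 10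 11 14 0), .t 1 (nat_lit 0) (.ax 2 10 11 14 1), .t 1 (nat_lit 0) (.ax 2 10 11 14 5), .t 1 (nat_lit 0) (.ax 2 10 12 13 2), .t 1 (nat_lit 0) (.ax 2 10 12 13 4), .t 1 (nat_lit 0) (.ax 2 10 12 13 6), .t 1 (nat_lit 0) (.ax 2 10 12 14 1), .t 1 (nat_lit 0) (.ax 2 10 12 14 4), .t 1 (nat_lit 0) (.ax 2 10 12 14 5), .t 1 (nat_lit 0) (.ax 2 10 13 14 0), .t 1 (nat_lit 0) (.ax 2 10 13 14 1), .t 1 (nat_lit 0) (.ax 2 10 13 14 2), .t 1 (nat_lit 0) (.ax 2 10 13 14 5), .t 1 (nat_lit 0) (.ax 2 11 12 13 2), .t 1 (nat_lit 0) (.ax 2 11 12 13 4), .t 1 (nat_lit 0) (.ax 2 11 12 14 1), .t 1 (nat_lit 0) (.ax 2 11 12 14 3), .t 1 (nat_lit 0) (.ax 2 11 12 14 5), .t 1 (nat_lit 0) (.ax 2 11 13 14 2), .t 1 (nat_lit 0) (.ax 2 11 13 14 5), .t 1 (nat_lit 0) (.ax 2 12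 13 14 1), .t 1 (nat_lit 0) (.ax 2 12 13 14 3), .t 1 (nat_lit 0) (.ax 2 12 13 14 5), .t 1 (nat_lit 0) (.ax 3 4 5 6 0), .t 1 (nat_lit 0) (.ax 3 4 5 6 1), .t 1 (nat_lit 0) (.ax 3 4 5 6 2), .t 1 (nat_lit 0) (.ax 3 4 5 6 3), .t 1 (nat_lit 0) (.ax 3 4 5 6 4), .t 1 (nat_lit 0) (.ax 3 4 5 6 5)] (by decide +kernel) (by decide +kernel)
theorem b34 : B 2176 2240 := Blk.of_chk [.t 1 (nat_lit 0) (.ax 3 4 5 6 6), .t 1 (nat_lit 0) (.ax 3 4 5 6 7), .t 1 (nat_lit 0) (.ax 3 4 5 7 0), .t 1 (nat_lit 0) (.ax 3 4 5 7 1), .t 1 (nat_lit 0) (.ax 3 4 5 7 2), .t 1 (nat_lit 0) (.ax 3 4 5 7 3), .t 1 (nat_lit 0) (.ax 3 4 5 7 4), .t 1 (nat_lit 0) (.ax 3 4 5 7 5), .t 1 (nat_lit 0) (.ax 3 4 5 7 6), .t 1 (nat_lit 0) (.ax 3 4 5 7 7), .t 1 (nat_lit 0) (.ax 3 4 5 8 0),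 .t 1 (nat_lit 0) (.ax 3 4 5 8 2), .t 1 (nat_lit 0) (.ax 3 4 5 8 3), .t 1 (nat_lit 0) (.ax 3 4 5 8 4), .t 1 (nat_lit 0) (.ax 3 4 5 8 6), .t 1 (nat_lit 0) (.ax 3 4 5 8 7), .t 1 (nat_lit 0) (.ax 3 4 5 9 2), .t 1 (nat_lit 0) (.ax 3 4 5 9 6), .t 1 (nat_lit 0) (.ax 3 4 5 9 7), .t 1 (nat_lit 0) (.ax 3 4 5 10 0), .t 1 (nat_lit 0) (.ax 3 4 5 10 2), .t 1 (nat_lit 0) (.ax 3 4 5 10 4), .t 1 (nat_lit 0) (.ax 3 4 5 10 6), .t 1 (nat_lit 0) (.ax 3 4 5 10 7), .t 1 (nat_lit 0) (.ax 3 4 5 11 2), .t 1 (nat_lit 0) (.ax 3 4 5 11 3), .t 1 (nat_lit 0) (.ax 3 4 5 11 6), .t 1 (nat_lit 0) (.ax 3 4 5 11 7), .t 1 (nat_lit 0) (.ax 3 4 5 12 1), .t 1 (nat_lit 0) (.ax 3 4 5 12 2), .t 1 (nat_lit 0) (.ax 3 4 5 12 5), .t 1 (nat_lit 0) (.ax 3 4 5 12 7), .t 1 (nat_lit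 0) (.ax 3 4 5 13 2), .t 1 (nat_lit 0) (.ax 3 4 5 13 3), .t 1 (nat_lit 0) (.ax 3 4 5 13 6), .t 1 (nat_lit 0) (.ax 3 4 5 13 7), .t 1 (nat_lit 0) (.ax 3 4 5 14 2), .t 1 (nat_lit 0) (.ax 3 4 5 14 3), .t 1 (nat_lit 0) (.ax 3 4 5 14 4), .t 1 (nat_lit 0) (.ax 3 4 5 14 5), .t 1 (nat_lit 0) (.ax 3 4 5 14 6), .t 1 (nat_lit 0) (.ax 3 4 5 14 7), .t 1 (nat_lit 0) (.ax 3 4 6 7 0), .t 1 (nat_lit 0) (.ax 3 4 6 7 1), .t 1 (nat_lit 0) (.ax 3 4 6 7 2), .t 1 (nat_lit 0) (.ax 3 4 6 7 3), .t 1 (nat_lit 0) (.ax 3 4 6 7 4), .t 1 (nat_lit 0) (.ax 3 4 6 7 5), .t 1 (nat_lit 0) (.ax 3 4 6 7 6), .t 1 (nat_lit 0) (.ax 3 4 6 7 7), .t 1 (nat_lit 0) (.ax 3 4 6 8 0), .t 1 (nat_lit 0) (.ax 3 4 6 8 2), .t 1 (nat_lit 0) (.ax 3 4 6 8 3), .t 1 (nat_lit 0) (.ax 3 4 6 8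 4), .t 1 (nat_lit 0) (.ax 3 4 6 8 6), .t 1 (nat_lit 0) (.ax 3 4 6 8 7), .t 1 (nat_lit 0) (.ax 3 4 6 9 2), .t 1 (nat_lit 0) (.ax 3 4 6 9 3), .t 1 (nat_lit 0) (.ax 3 4 6 9 4), .t 1 (nat_lit 0) (.ax 3 4 6 9 5), .t 1 (nat_lit 0) (.ax 3 4 6 9 6), .t 1 (nat_lit 0) (.ax 3 4 6 9 7), .t 1 (nat_lit 0) (.ax 3 4 6 10 0), .t 1 (nat_lit 0) (.ax 3 4 6 10 2)] (by decide +kernel) (by decide +kernel)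
theorem b35 : B 2240 2304 := Blk.of_chk [.t 1 (nat_lit 0) (.ax 3 4 6 10 5), .t 1 (nat_lit 0) (.ax 3 4 6 10 6), .t 1 (nat_lit 0) (.ax 3 4 6 10 7), .t 1 (nat_lit 0) (.ax 3 4 6 11 2), .t 1 (nat_lit 0) (.ax 3 4 6 11 6), .t 1 (nat_lit 0) (.ax 3 4 6 11 7), .t 1 (nat_lit 0) (.ax 3 4 6 12 1), .t 1 (nat_lit 0) (.ax 3 4 6 12 2), .t 1 (nat_lit 0) (.ax 3 4 6 12 3), .t 1 (nat_lit 0) (.ax 3 4 6 12 4), .t 1 (nat_lit 0) (.ax 3 4 6 12 6), .t 1 (nat_lit 0) (.ax 3 4 6 12 7), .t 1 (nat_lit 0) (.ax 3 4 6 13 2), .t 1 (nat_lit 0) (.ax 3 4 6 13 4), .t 1 (nat_lit 0) (.ax 3 4 6 13 5), .t 1 (nat_lit 0) (.ax 3 4 6 13 6), .t 1 (nat_lit 0) (.ax 3 4 6 13 7), .t 1 (nat_lit 0) (.ax 3 4 6 14 2), .t 1 (nat_lit 0) (.ax 3 4 6 14 3), .t 1 (nat_lit 0) (.ax 3 4 6 14 4),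 .t 1 (nat_lit 0) (.ax 3 4 6 14 5), .t 1 (nat_lit 0) (.ax 3 4 6 14 6), .t 1 (nat_lit 0) (.ax 3 4 6 14 7), .t 1 (nat_lit 0) (.ax 3 4 7 8 0), .t 1 (nat_lit 0) (.ax 3 4 7 8 2), .t 1 (nat_lit 0) (.ax 3 4 7 8 3), .t 1 (nat_lit 0) (.ax 3 4 7 8 4), .t 1 (nat_lit 0) (.ax 3 4 7 8 5), .t 1 (nat_lit 0) (.ax 3 4 7 8 6), .t 1 (nat_lit 0) (.ax 3 4 7 8 7), .t 1 (nat_lit 0) (.ax 3 4 7 9 0), .t 1 (nat_lit 0) (.ax 3 4 7 9 2), .t 1 (nat_lit 0) (.ax 3 4 7 9 3), .t 1 (nat_lit 0) (.ax 3 4 7 9 5), .t 1 (nat_lit 0) (.ax 3 4 7 9 6), .t 1 (nat_lit 0) (.ax 3 4 7 9 7), .t 1 (nat_lit 0) (.ax 3 4 7 10 2), .t 1 (nat_lit 0) (.ax 3 4 7 10 3), .t 1 (nat_lit 0) (.ax 3 4 7 10 4), .t 1 (nat_lit 0) (.ax 3 4 7 10 6), .t 1 (nat_lit 0) (.ax 3 4 7 10 7), .t 1 (nat_lit 0) (.ax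 3 4 7 11 2), .t 1 (nat_lit 0) (.ax 3 4 7 11 3), .t 1 (nat_lit 0) (.ax 3 4 7 11 6), .t 1 (nat_lit 0) (.ax 3 4 7 11 7), .t 1 (nat_lit 0) (.ax 3 4 7 12 0), .t 1 (nat_lit 0) (.ax 3 4 7 12 1), .t 1 (nat_lit 0) (.ax 3 4 7 12 3), .t 1 (nat_lit 0) (.ax 3 4 7 12 7), .t 1 (nat_lit 0) (.ax 3 4 7 13 0), .t 1 (nat_lit 0) (.ax 3 4 7 13 2), .t 1 (nat_lit 0) (.ax 3 4 7 13 3), .t 1 (nat_lit 0) (.ax 3 4 7 13 5), .t 1 (nat_lit 0) (.ax 3 4 7 13 6), .t 1 (nat_lit 0) (.ax 3 4 7 13 7), .t 1 (nat_lit 0) (.ax 3 4 7 14 0), .t 1 (nat_lit 0) (.ax 3 4 7 14 2), .t 1 (nat_lit 0) (.ax 3 4 7 14 4), .t 1 (nat_lit 0) (.ax 3 4 7 14 5), .t 1 (nat_lit 0) (.ax 3 4 7 14 6), .t 1 (nat_lit 0) (.ax 3 4 7 14 7), .t 1 (nat_lit 0) (.ax 3 4 8 9 0), .t 1 (nat_lit 0) (.ax 3 4 8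 9 1), .t 1 (nat_lit 0) (.ax 3 4 8 9 2)] (by decide +kernel) (by decide +kernel)
theorem b36 : B 2304 2368 := Blk.of_chk [.t 1 (nat_lit 0) (.ax 3 4 8 9 4), .t 1 (nat_lit 0) (.ax 3 4 8 9 5), .t 1 (nat_lit 0) (.ax 3 4 8 9 6), .t 1 (nat_lit 0) (.ax 3 4 8 9 7), .t 1 (nat_lit 0) (.ax 3 4 8 10 2), .t 1 (nat_lit 0) (.ax 3 4 8 10 6), .t 1 (nat_lit 0) (.ax 3 4 8 10 7), .t 1 (nat_lit 0) (.ax 3 4 8 11 2), .t 1 (nat_lit 0) (.ax 3 4 8 11 6), .t 1 (nat_lit 0) (.ax 3 4 8 11 7), .t 1 (nat_lit 0) (.ax 3 4 8 12 0), .t 1 (nat_lit 0) (.ax 3 4 8 12 1), .t 1 (nat_lit 0) (.ax 3 4 8 12 2), .t 1 (nat_lit 0) (.ax 3 4 8 12 4), .t 1 (nat_lit 0) (.ax 3 4 8 12 7), .t 1 (nat_lit 0) (.ax 3 4 8 13 0), .t 1 (nat_lit 0) (.ax 3 4 8 13 2), .t 1 (nat_lit 0) (.ax 3 4 8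 13 5), .t 1 (nat_lit 0) (.ax 3 4 8 13 6), .t 1 (nat_lit 0) (.ax 3 4 8 13 7), .t 1 (nat_lit 0) (.ax 3 4 8 14 0), .t 1 (nat_lit 0) (.ax 3 4 8 14 2), .t 1 (nat_lit 0) (.ax 3 4 8 14 3), .t 1 (nat_lit 0) (.ax 3 4 8 14 5), .t 1 (nat_lit 0) (.ax 3 4 8 14 6), .t 1 (nat_lit 0) (.ax 3 4 8 14 7), .t 1 (nat_lit 0) (.ax 3 4 9 10 3), .t 1 (nat_lit 0) (.ax 3 4 9 10 6), .t 1 (nat_lit 0) (.ax 3 4 9 10 7), .t 1 (nat_lit 0) (.ax 3 4 9 11 2), .t 1 (nat_lit 0) (.ax 3 4 9 11 3), .t 1 (nat_lit 0) (.ax 3 4 9 11 6), .t 1 (nat_lit 0) (.ax 3 4 9 11 7), .t 1 (nat_lit 0) (.ax 3 4 9 12 0), .t 1 (nat_lit 0) (.ax 3 4 9 12 1), .t 1 (nat_lit 0) (.ax 3 4 9 12 2), .t 1 (nat_lit 0) (.ax 3 4 9 12 3), .t 1 (nat_lit 0) (.ax 3 4 9 12 4), .t 1 (nat_lit 0) (.ax 3 4 9 12 6),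 .t 1 (nat_lit 0) (.ax 3 4 9 12 7), .t 1 (nat_lit 0) (.ax 3 4 9 13 0), .t 1 (nat_lit 0) (.ax 3 4 9 13 2), .t 1 (nat_lit 0) (.ax 3 4 9 13 3), .t 1 (nat_lit 0) (.ax 3 4 9 13 4), .t 1 (nat_lit 0) (.ax 3 4 9 13 6), .t 1 (nat_lit 0) (.ax 3 4 9 13 7), .t 1 (nat_lit 0) (.ax 3 4 9 14 0), .t 1 (nat_lit 0) (.ax 3 4 9 14 1), .t 1 (nat_lit 0) (.ax 3 4 9 14 2), .t 1 (nat_lit 0) (.ax 3 4 9 14 4), .t 1 (nat_lit 0) (.ax 3 4 9 14 6), .t 1 (nat_lit 0) (.ax 3 4 9 14 7), .t 1 (nat_lit 0) (.ax 3 4 10 11 2), .t 1 (nat_lit 0) (.ax 3 4 10 11 3), .t 1 (nat_lit 0) (.ax 3 4 10 11 5), .t 1 (nat_lit 0) (.ax 3 4 10 11 6), .t 1 (nat_lit 0) (.ax 3 4 10 11 7), .t 1 (nat_lit 0) (.ax 3 4 10 12 0), .t 1 (nat_lit 0) (.ax 3 4 10 12 1), .t 1 (nat_lit 0) (.ax 3 4 10 12 2),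 .t 1 (nat_lit 0) (.ax 3 4 10 12 4), .t 1 (nat_lit 0) (.ax 3 4 10 12 5), .t 1 (nat_lit 0) (.ax 3 4 10 12 6), .t 1 (nat_lit 0) (.ax 3 4 10 12 7)] (by decide +kernel) (by decide +kernel)
theorem b37 : B 2368 2432 := Blk.of_chk [.t 1 (nat_lit 0) (.ax 3 4 10 13 0), .t 1 (nat_lit 0) (.ax 3 4 10 13 2), .t 1 (nat_lit 0) (.ax 3 4 10 13 5), .t 1 (nat_lit 0) (.ax 3 4 10 13 6), .t 1 (nat_lit 0) (.ax 3 4 10 14 0), .t 1 (nat_lit 0) (.ax 3 4 10 14 1), .t 1 (nat_lit 0) (.ax 3 4 10 14 2), .t 1 (nat_lit 0) (.ax 3 4 10 14 4), .t 1 (nat_lit 0) (.ax 3 4 10 14 6), .t 1 (nat_lit 0) (.ax 3 4 10 14 7), .t 1 (nat_lit 0) (.ax 3 4 11 12 0), .t 1 (nat_lit 0) (.ax 3 4 11 12 1), .t 1 (nat_lit 0) (.ax 3 4 11 12 2), .t 1 (nat_lit 0) (.ax 3 4 11 12 3), .t 1 (nat_lit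 0) (.ax 3 4 11 12 4), .t 1 (nat_lit 0) (.ax 3 4 11 12 5), .t 1 (nat_lit 0) (.ax 3 4 11 12 7), .t 1 (nat_lit 0) (.ax 3 4 11 13 0), .t 1 (nat_lit 0) (.ax 3 4 11 13 2), .t 1 (nat_lit 0) (.ax 3 4 11 13 3), .t 1 (nat_lit 0) (.ax 3 4 11 13 6), .t 1 (nat_lit 0) (.ax 3 4 11 13 7), .t 1 (nat_lit 0) (.ax 3 4 11 14 0), .t 1 (nat_lit 0) (.ax 3 4 11 14 1), .t 1 (nat_lit 0) (.ax 3 4 11 14 2), .t 1 (nat_lit 0) (.ax 3 4 11 14 3), .t 1 (nat_lit 0) (.ax 3 4 11 14 5), .t 1 (nat_lit 0) (.ax 3 4 11 14 6), .t 1 (nat_lit 0) (.ax 3 4 11 14 7), .t 1 (nat_lit 0) (.ax 3 4 12 13 2), .t 1 (nat_lit 0) (.ax 3 4 12 13 3), .t 1 (nat_lit 0) (.ax 3 4 12 13 4), .t 1 (nat_lit 0) (.ax 3 4 12 13 6), .t 1 (nat_lit 0) (.ax 3 4 12 14 0), .t 1 (nat_lit 0) (.ax 3 4 12 14 2),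 .t 1 (nat_lit 0) (.ax 3 4 12 14 3), .t 1 (nat_lit 0) (.ax 3 4 12 14 5), .t 1 (nat_lit 0) (.ax 3 4 12 14 6), .t 1 (nat_lit 0) (.ax 3 4 13 14 0), .t 1 (nat_lit 0) (.ax 3 4 13 14 1), .t 1 (nat_lit 0) (.ax 3 4 13 14 2), .t 1 (nat_lit 0) (.ax 3 4 13 14 3), .t 1 (nat_lit 0) (.ax 3 4 13 14 5), .t 1 (nat_lit 0) (.ax 3 4 13 14 6), .t 1 (nat_lit 0) (.ax 3 4 13 14 7), .t 1 (nat_lit 0) (.ax 3 5 6 7 0), .t 1 (nat_lit 0) (.ax 3 5 6 7 1), .t 1 (nat_lit 0) (.ax 3 5 6 7 2), .t 1 (nat_lit 0) (.ax 3 5 6 7 3), .t 1 (nat_lit 0) (.ax 3 5 6 7 4), .t 1 (nat_lit 0) (.ax 3 5 6 7 5), .t 1 (nat_lit 0) (.ax 3 5 6 7 6), .t 1 (nat_lit 0) (.ax 3 5 6 7 7), .t 1 (nat_lit 0) (.ax 3 5 6 8 0), .t 1 (nat_lit 0) (.ax 3 5 6 8 1), .t 1 (nat_lit 0) (.ax 3 5 6 8 2), .t 1 (nat_lit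 0) (.ax 3 5 6 8 3), .t 1 (nat_lit 0) (.ax 3 5 6 8 4), .t 1 (nat_lit 0) (.ax 3 5 6 8 6), .t 1 (nat_lit 0) (.ax 3 5 6 8 7), .t 1 (nat_lit 0) (.ax 3 5 6 9 1), .t 1 (nat_lit 0) (.ax 3 5 6 9 2), .t 1 (nat_lit 0) (.ax 3 5 6 9 4), .t 1 (nat_lit 0) (.ax 3 5 6 9 5)] (by decide +kernel) (by decide +kernel)
theorem b38 : B 2432 2496 := Blk.of_chk [.t 1 (nat_lit 0) (.ax 3 5 6 9 6), .t 1 (nat_lit 0) (.ax 3 5 6 9 7), .t 1 (nat_lit 0) (.ax 3 5 6 10 0), .t 1 (nat_lit 0) (.ax 3 5 6 10 2), .t 1 (nat_lit 0) (.ax 3 5 6 10 3), .t 1 (nat_lit 0) (.ax 3 5 6 10 5), .t 1 (nat_lit 0) (.ax 3 5 6 10 6), .t 1 (nat_lit 0) (.ax 3 5 6 10 7), .t 1 (nat_lit 0) (.ax 3 5 6 11 2), .t 1 (nat_lit 0) (.ax 3 5 6 11 5), .t 1 (nat_lit 0) (.ax 3 5 6 11 6), .t 1 (nat_lit 0) (.ax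 3 5 6 11 7), .t 1 (nat_lit 0) (.ax 3 5 6 12 0), .t 1 (nat_lit 0) (.ax 3 5 6 12 1), .t 1 (nat_lit 0) (.ax 3 5 6 12 2), .t 1 (nat_lit 0) (.ax 3 5 6 12 3), .t 1 (nat_lit 0) (.ax 3 5 6 12 4), .t 1 (nat_lit 0) (.ax 3 5 6 12 7), .t 1 (nat_lit 0) (.ax 3 5 6 13 1), .t 1 (nat_lit 0) (.ax 3 5 6 13 2), .t 1 (nat_lit 0) (.ax 3 5 6 13 5), .t 1 (nat_lit 0) (.ax 3 5 6 13 6), .t 1 (nat_lit 0) (.ax 3 5 6 13 7), .t 1 (nat_lit 0) (.ax 3 5 6 14 2), .t 1 (nat_lit 0) (.ax 3 5 6 14 3), .t 1 (nat_lit 0) (.ax 3 5 6 14 6), .t 1 (nat_lit 0) (.ax 3 5 6 14 7), .t 1 (nat_lit 0) (.ax 3 5 7 8 0), .t 1 (nat_lit 0) (.ax 3 5 7 8 1), .t 1 (nat_lit 0) (.ax 3 5 7 8 2), .t 1 (nat_lit 0) (.ax 3 5 7 8 3), .t 1 (nat_lit 0) (.ax 3 5 7 8 4), .t 1 (nat_lit 0) (.ax 3 5 7 8 5),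 .t 1 (nat_lit 0) (.ax 3 5 7 8 6), .t 1 (nat_lit 0) (.ax 3 5 7 8 7), .t 1 (nat_lit 0) (.ax 3 5 7 9 0), .t 1 (nat_lit 0) (.ax 3 5 7 9 3), .t 1 (nat_lit 0) (.ax 3 5 7 9 4), .t 1 (nat_lit 0) (.ax 3 5 7 9 6), .t 1 (nat_lit 0) (.ax 3 5 7 9 7), .t 1 (nat_lit 0) (.ax 3 5 7 10 0), .t 1 (nat_lit 0) (.ax 3 5 7 10 1), .t 1 (nat_lit 0) (.ax 3 5 7 10 3), .t 1 (nat_lit 0) (.ax 3 5 7 10 4), .t 1 (nat_lit 0) (.ax 3 5 7 10 6), .t 1 (nat_lit 0) (.ax 3 5 7 10 7), .t 1 (nat_lit 0) (.ax 3 5 7 11 2), .t 1 (nat_lit 0) (.ax 3 5 7 11 3), .t 1 (nat_lit 0) (.ax 3 5 7 11 6), .t 1 (nat_lit 0) (.ax 3 5 7 11 7), .t 1 (nat_lit 0) (.ax 3 5 7 12 0), .t 1 (nat_lit 0) (.ax 3 5 7 12 1), .t 1 (nat_lit 0) (.ax 3 5 7 12 4), .t 1 (nat_lit 0) (.ax 3 5 7 12 5), .t 1 (nat_lit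 0) (.ax 3 5 7 12 7), .t 1 (nat_lit 0) (.ax 3 5 7 13 0), .t 1 (nat_lit 0) (.ax 3 5 7 13 2), .t 1 (nat_lit 0) (.ax 3 5 7 13 3), .t 1 (nat_lit 0) (.ax 3 5 7 13 6), .t 1 (nat_lit 0) (.ax 3 5 7 13 7), .t 1 (nat_lit 0) (.ax 3 5 7 14 2), .t 1 (nat_lit 0) (.ax 3 5 7 14 3), .t 1 (nat_lit 0) (.ax 3 5 7 14 6), .t 1 (nat_lit 0) (.ax 3 5 7 14 7)] (by decide +kernel) (by decide +kernel)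
theorem b39 : B 2496 2560 := Blk.of_chk [.t 1 (nat_lit 0) (.ax 3 5 8 9 2), .t 1 (nat_lit 0) (.ax 3 5 8 9 3), .t 1 (nat_lit 0) (.ax 3 5 8 9 4), .t 1 (nat_lit 0) (.ax 3 5 8 9 5), .t 1 (nat_lit 0) (.ax 3 5 8 9 6), .t 1 (nat_lit 0) (.ax 3 5 8 9 7), .t 1 (nat_lit 0) (.ax 3 5 8 10 0), .t 1 (nat_lit 0) (.ax 3 5 8 10 1), .t 1 (nat_lit 0) (.ax 3 5 8 10 2), .t 1 (nat_lit 0) (.ax 3 5 8 10 4), .t 1 (nat_lit 0) (.ax 3 5 8 10 5), .t 1 (nat_lit 0) (.ax 3 5 8 10 6), .t 1 (nat_lit 0) (.ax 3 5 8 10 7), .t 1 (nat_lit 0) (.ax 3 5 8 11 2), .t 1 (nat_lit 0) (.ax 3 5 8 11 3), .t 1 (nat_lit 0) (.ax 3 5 8 11 6), .t 1 (nat_lit 0) (.ax 3 5 8 11 7), .t 1 (nat_lit 0) (.ax 3 5 8 12 2), .t 1 (nat_lit 0) (.ax 3 5 8 12 3), .t 1 (nat_lit 0) (.ax 3 5 8 12 4), .t 1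 (nat_lit 0) (.ax 3 5 8 12 5), .t 1 (nat_lit 0) (.ax 3 5 8 12 6), .t 1 (nat_lit 0) (.ax 3 5 8 13 0), .t 1 (nat_lit 0) (.ax 3 5 8 13 2), .t 1 (nat_lit 0) (.ax 3 5 8 13 3), .t 1 (nat_lit 0) (.ax 3 5 8 13 4), .t 1 (nat_lit 0) (.ax 3 5 8 13 6), .t 1 (nat_lit 0) (.ax 3 5 8 13 7), .t 1 (nat_lit 0) (.ax 3 5 8 14 0), .t 1 (nat_lit 0) (.ax 3 5 8 14 2), .t 1 (nat_lit 0) (.ax 3 5 8 14 3), .t 1 (nat_lit 0) (.ax 3 5 8 14 6), .t 1 (nat_lit 0) (.ax 3 5 8 14 7), .t 1 (nat_lit 0) (.ax 3 5 9 10 4), .t 1 (nat_lit 0) (.ax 3 5 9 10 6), .t 1 (nat_lit 0) (.ax 3 5 9 10 7), .t 1 (nat_lit 0) (.ax 3 5 9 11 0), .t 1 (nat_lit 0) (.ax 3 5 9 11 2), .t 1 (nat_lit 0) (.ax 3 5 9 11 3), .t 1 (nat_lit 0) (.ax 3 5 9 11 4), .t 1 (nat_lit 0) (.ax 3 5 9 11 6), .t 1 (nat_lit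 0) (.ax 3 5 9 11 7), .t 1 (nat_lit 0) (.ax 3 5 9 12 1), .t 1 (nat_lit 0) (.ax 3 5 9 12 2), .t 1 (nat_lit 0) (.ax 3 5 9 12 3), .t 1 (nat_lit 0) (.ax 3 5 9 12 4), .t 1 (nat_lit 0) (.ax 3 5 9 12 5), .t 1 (nat_lit 0) (.ax 3 5 9 12 6), .t 1 (nat_lit 0) (.ax 3 5 9 12 7), .t 1 (nat_lit 0) (.ax 3 5 9 13 0), .t 1 (nat_lit 0) (.ax 3 5 9 13 2), .t 1 (nat_lit 0) (.ax 3 5 9 13 3), .t 1 (nat_lit 0) (.ax 3 5 9 13 4), .t 1 (nat_lit 0) (.ax 3 5 9 13 6), .t 1 (nat_lit 0) (.ax 3 5 9 13 7), .t 1 (nat_lit 0) (.ax 3 5 9 14 0), .t 1 (nat_lit 0) (.ax 3 5 9 14 1), .t 1 (nat_lit 0) (.ax 3 5 9 14 2), .t 1 (nat_lit 0) (.ax 3 5 9 14 4), .t 1 (nat_lit 0) (.ax 3 5 9 14 5), .t 1 (nat_lit 0) (.ax 3 5 9 14 6), .t 1 (nat_lit 0) (.ax 3 5 10 11 0), .t 1 (nat_lit 0) (.ax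 3 5 10 11 2), .t 1 (nat_lit 0) (.ax 3 5 10 11 3)] (by decide +kernel) (by decide +kernel)
theorem b40 : B 2560 2624 := Blk.of_chk [.t 1 (nat_lit 0) (.ax 3 5 10 11 4), .t 1 (nat_lit 0) (.ax 3 5 10 11 6), .t 1 (nat_lit 0) (.ax 3 5 10 11 7), .t 1 (nat_lit 0) (.ax 3 5 10 12 2), .t 1 (nat_lit 0) (.ax 3 5 10 12 3), .t 1 (nat_lit 0) (.ax 3 5 10 12 4), .t 1 (nat_lit 0) (.ax 3 5 10 12 6), .t 1 (nat_lit 0) (.ax 3 5 10 12 7), .t 1 (nat_lit 0) (.ax 3 5 10 13 0), .t 1 (nat_lit 0) (.ax 3 5 10 13 2), .t 1 (nat_lit 0) (.ax 3 5 10 13 3), .t 1 (nat_lit 0) (.ax 3 5 10 13 4), .t 1 (nat_lit 0) (.ax 3 5 10 13 5), .t 1 (nat_lit 0) (.ax 3 5 10 13 6), .t 1 (nat_lit 0) (.ax 3 5 10 13 7), .t 1 (nat_lit 0) (.ax 3 5 10 14 0), .t 1 (nat_lit 0) (.ax 3 5 10 14 1),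 .t 1 (nat_lit 0) (.ax 3 5 10 14 2), .t 1 (nat_lit 0) (.ax 3 5 10 14 3), .t 1 (nat_lit 0) (.ax 3 5 10 14 4), .t 1 (nat_lit 0) (.ax 3 5 10 14 6), .t 1 (nat_lit 0) (.ax 3 5 10 14 7), .t 1 (nat_lit 0) (.ax 3 5 11 12 0), .t 1 (nat_lit 0) (.ax 3 5 11 12 1), .t 1 (nat_lit 0) (.ax 3 5 11 12 2), .t 1 (nat_lit 0) (.ax 3 5 11 12 4), .t 1 (nat_lit 0) (.ax 3 5 11 12 5), .t 1 (nat_lit 0) (.ax 3 5 11 12 6), .t 1 (nat_lit 0) (.ax 3 5 11 12 7), .t 1 (nat_lit 0) (.ax 3 5 11 13 0), .t 1 (nat_lit 0) (.ax 3 5 11 13 2), .t 1 (nat_lit 0) (.ax 3 5 11 13 3), .t 1 (nat_lit 0) (.ax 3 5 11 13 4), .t 1 (nat_lit 0) (.ax 3 5 11 13 5), .t 1 (nat_lit 0) (.ax 3 5 11 13 6), .t 1 (nat_lit 0) (.ax 3 5 11 14 0), .t 1 (nat_lit 0) (.ax 3 5 11 14 2), .t 1 (nat_lit 0) (.ax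 3 5 11 14 3), .t 1 (nat_lit 0) (.ax 3 5 11 14 4), .t 1 (nat_lit 0) (.ax 3 5 11 14 5), .t 1 (nat_lit 0) (.ax 3 5 11 14 6), .t 1 (nat_lit 0) (.ax 3 5 11 14 7), .t 1 (nat_lit 0) (.ax 3 5 12 13 0), .t 1 (nat_lit 0) (.ax 3 5 12 13 2), .t 1 (nat_lit 0) (.ax 3 5 12 13 3), .t 1 (nat_lit 0) (.ax 3 5 12 13 4), .t 1 (nat_lit 0) (.ax 3 5 12 13 5), .t 1 (nat_lit 0) (.ax 3 5 12 13 6), .t 1 (nat_lit 0) (.ax 3 5 12 14 0), .t 1 (nat_lit 0) (.ax 3 5 12 14 2), .t 1 (nat_lit 0) (.ax 3 5 12 14 3), .t 1 (nat_lit 0) (.ax 3 5 12 14 4), .t 1 (nat_lit 0) (.ax 3 5 12 14 5), .t 1 (nat_lit 0) (.ax 3 5 12 14 6), .t 1 (nat_lit 0) (.ax 3 5 12 14 7), .t 1 (nat_lit 0) (.ax 3 5 13 14 0), .t 1 (nat_lit 0) (.ax 3 5 13 14 2), .t 1 (nat_lit 0) (.ax 3 5 13 14 3), .t 1 (nat_lit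 0) (.ax 3 5 13 14 5), .t 1 (nat_lit 0) (.ax 3 5 13 14 6), .t 1 (nat_lit 0) (.ax 3 5 13 14 7), .t 1 (nat_lit 0) (.ax 3 6 7 8 0), .t 1 (nat_lit 0) (.ax 3 6 7 8 1), .t 1 (nat_lit 0) (.ax 3 6 7 8 2)] (by decide +kernel) (by decide +kernel)
theorem b41 : B 2624 2688 := Blk.of_chk [.t 1 (nat_lit 0) (.ax 3 6 7 8 3), .t 1 (nat_lit 0) (.ax 3 6 7 8 4), .t 1 (nat_lit 0) (.ax 3 6 7 8 5), .t 1 (nat_lit 0) (.ax 3 6 7 8 6), .t 1 (nat_lit 0) (.ax 3 6 7 8 7), .t 1 (nat_lit 0) (.ax 3 6 7 9 0), .t 1 (nat_lit 0) (.ax 3 6 7 9 2), .t 1 (nat_lit 0) (.ax 3 6 7 9 3), .t 1 (nat_lit 0) (.ax 3 6 7 9 5), .t 1 (nat_lit 0) (.ax 3 6 7 9 6), .t 1 (nat_lit 0) (.ax 3 6 7 9 7), .t 1 (nat_lit 0) (.ax 3 6 7 10 2), .t 1 (nat_lit 0) (.ax 3 6 7 10 4), .t 1 (nat_lit 0) (.ax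 3 6 7 10 5), .t 1 (nat_lit 0) (.ax 3 6 7 10 7), .t 1 (nat_lit 0) (.ax 3 6 7 11 2), .t 1 (nat_lit 0) (.ax 3 6 7 11 7), .t 1 (nat_lit 0) (.ax 3 6 7 12 1), .t 1 (nat_lit 0) (.ax 3 6 7 12 2), .t 1 (nat_lit 0) (.ax 3 6 7 12 5), .t 1 (nat_lit 0) (.ax 3 6 7 12 6), .t 1 (nat_lit 0) (.ax 3 6 7 12 7), .t 1 (nat_lit 0) (.ax 3 6 7 13 0), .t 1 (nat_lit 0) (.ax 3 6 7 13 1), .t 1 (nat_lit 0) (.ax 3 6 7 13 2), .t 1 (nat_lit 0) (.ax 3 6 7 13 3), .t 1 (nat_lit 0) (.ax 3 6 7 13 5), .t 1 (nat_lit 0) (.ax 3 6 7 13 6), .t 1 (nat_lit 0) (.ax 3 6 7 13 7), .t 1 (nat_lit 0) (.ax 3 6 7 14 2), .t 1 (nat_lit 0) (.ax 3 6 7 14 5), .t 1 (nat_lit 0) (.ax 3 6 7 14 6), .t 1 (nat_lit 0) (.ax 3 6 7 14 7), .t 1 (nat_lit 0) (.ax 3 6 8 9 0), .t 1 (nat_lit 0) (.ax 3 6 8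 9 2), .t 1 (nat_lit 0) (.ax 3 6 8 9 3), .t 1 (nat_lit 0) (.ax 3 6 8 9 4), .t 1 (nat_lit 0) (.ax 3 6 8 9 5), .t 1 (nat_lit 0) (.ax 3 6 8 9 6), .t 1 (nat_lit 0) (.ax 3 6 8 9 7), .t 1 (nat_lit 0) (.ax 3 6 8 10 0), .t 1 (nat_lit 0) (.ax 3 6 8 10 2), .t 1 (nat_lit 0) (.ax 3 6 8 10 3), .t 1 (nat_lit 0) (.ax 3 6 8 10 6), .t 1 (nat_lit 0) (.ax 3 6 8 10 7), .t 1 (nat_lit 0) (.ax 3 6 8 11 0), .t 1 (nat_lit 0) (.ax 3 6 8 11 2), .t 1 (nat_lit 0) (.ax 3 6 8 11 3), .t 1 (nat_lit 0) (.ax 3 6 8 11 4), .t 1 (nat_lit 0) (.ax 3 6 8 11 6), .t 1 (nat_lit 0) (.ax 3 6 8 11 7), .t 1 (nat_lit 0) (.ax 3 6 8 12 0), .t 1 (nat_lit 0) (.ax 3 6 8 12 1), .t 1 (nat_lit 0) (.ax 3 6 8 12 2), .t 1 (nat_lit 0) (.ax 3 6 8 12 3), .t 1 (nat_lit 0) (.ax 3 6 8 12 4), .t 1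 (nat_lit 0) (.ax 3 6 8 12 6), .t 1 (nat_lit 0) (.ax 3 6 8 12 7), .t 1 (nat_lit 0) (.ax 3 6 8 13 0), .t 1 (nat_lit 0) (.ax 3 6 8 13 2), .t 1 (nat_lit 0) (.ax 3 6 8 13 3), .t 1 (nat_lit 0) (.ax 3 6 8 13 5), .t 1 (nat_lit 0) (.ax 3 6 8 13 6), .t 1 (nat_lit 0) (.ax 3 6 8 13 7)] (by decide +kernel) (by decide +kernel)
theorem b42 : B 2688 2752 := Blk.of_chk [.t 1 (nat_lit 0) (.ax 3 6 8 14 0), .t 1 (nat_lit 0) (.ax 3 6 8 14 1), .t 1 (nat_lit 0) (.ax 3 6 8 14 2), .t 1 (nat_lit 0) (.ax 3 6 8 14 3), .t 1 (nat_lit 0) (.ax 3 6 8 14 4), .t 1 (nat_lit 0) (.ax 3 6 8 14 5), .t 1 (nat_lit 0) (.ax 3 6 8 14 6), .t 1 (nat_lit 0) (.ax 3 6 8 14 7), .t 1 (nat_lit 0) (.ax 3 6 9 10 0), .t 1 (nat_lit 0) (.ax 3 6 9 10 5), .t 1 (nat_lit 0) (.ax 3 6 9 10 6),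 .t 1 (nat_lit 0) (.ax 3 6 9 10 7), .t 1 (nat_lit 0) (.ax 3 6 9 11 1), .t 1 (nat_lit 0) (.ax 3 6 9 11 2), .t 1 (nat_lit 0) (.ax 3 6 9 11 3), .t 1 (nat_lit 0) (.ax 3 6 9 11 4), .t 1 (nat_lit 0) (.ax 3 6 9 11 5), .t 1 (nat_lit 0) (.ax 3 6 9 11 7), .t 1 (nat_lit 0) (.ax 3 6 9 12 0), .t 1 (nat_lit 0) (.ax 3 6 9 12 1), .t 1 (nat_lit 0) (.ax 3 6 9 12 2), .t 1 (nat_lit 0) (.ax 3 6 9 12 4), .t 1 (nat_lit 0) (.ax 3 6 9 12 5), .t 1 (nat_lit 0) (.ax 3 6 9 12 7), .t 1 (nat_lit 0) (.ax 3 6 9 13 0), .t 1 (nat_lit 0) (.ax 3 6 9 13 1), .t 1 (nat_lit 0) (.ax 3 6 9 13 2), .t 1 (nat_lit 0) (.ax 3 6 9 13 3), .t 1 (nat_lit 0) (.ax 3 6 9 13 4), .t 1 (nat_lit 0) (.ax 3 6 9 13 5), .t 1 (nat_lit 0) (.ax 3 6 9 13 6), .t 1 (nat_lit 0) (.ax 3 6 9 13 7), .t 1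 (nat_lit 0) (.ax 3 6 9 14 0), .t 1 (nat_lit 0) (.ax 3 6 9 14 1), .t 1 (nat_lit 0) (.ax 3 6 9 14 2), .t 1 (nat_lit 0) (.ax 3 6 9 14 3), .t 1 (nat_lit 0) (.ax 3 6 9 14 5), .t 1 (nat_lit 0) (.ax 3 6 9 14 6), .t 1 (nat_lit 0) (.ax 3 6 9 14 7), .t 1 (nat_lit 0) (.ax 3 6 10 11 6), .t 1 (nat_lit 0) (.ax 3 6 10 11 7), .t 1 (nat_lit 0) (.ax 3 6 10 12 1), .t 1 (nat_lit 0) (.ax 3 6 10 12 2), .t 1 (nat_lit 0) (.ax 3 6 10 12 3), .t 1 (nat_lit 0) (.ax 3 6 10 12 4), .t 1 (nat_lit 0) (.ax 3 6 10 12 5), .t 1 (nat_lit 0) (.ax 3 6 10 12 6), .t 1 (nat_lit 0) (.ax 3 6 10 12 7), .t 1 (nat_lit 0) (.ax 3 6 10 13 0), .t 1 (nat_lit 0) (.ax 3 6 10 13 3), .t 1 (nat_lit 0) (.ax 3 6 10 13 4), .t 1 (nat_lit 0) (.ax 3 6 10 13 5), .t 1 (nat_lit 0) (.ax 3 6 10 13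 6), .t 1 (nat_lit 0) (.ax 3 6 10 13 7), .t 1 (nat_lit 0) (.ax 3 6 10 14 0), .t 1 (nat_lit 0) (.ax 3 6 10 14 1), .t 1 (nat_lit 0) (.ax 3 6 10 14 2), .t 1 (nat_lit 0) (.ax 3 6 10 14 4), .t 1 (nat_lit 0) (.ax 3 6 10 14 5), .t 1 (nat_lit 0) (.ax 3 6 10 14 6), .t 1 (nat_lit 0) (.ax 3 6 10 14 7), .t 1 (nat_lit 0) (.ax 3 6 11 12 0), .t 1 (nat_lit 0) (.ax 3 6 11 12 2), .t 1 (nat_lit 0) (.ax 3 6 11 12 3)] (by decide +kernel) (by decide +kernel)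
theorem b43 : B 2752 2816 := Blk.of_chk [.t 1 (nat_lit 0) (.ax 3 6 11 12 4), .t 1 (nat_lit 0) (.ax 3 6 11 12 5), .t 1 (nat_lit 0) (.ax 3 6 11 12 6), .t 1 (nat_lit 0) (.ax 3 6 11 12 7), .t 1 (nat_lit 0) (.ax 3 6 11 13 0), .t 1 (nat_lit 0) (.ax 3 6 11 13 1), .t 1 (nat_lit 0) (.ax 3 6 11 13 3), .t 1 (nat_lit 0) (.ax 3 6 11 13 4), .t 1 (nat_lit 0) (.ax 3 6 11 13 6), .t 1 (nat_lit 0) (.ax 3 6 11 13 7), .t 1 (nat_lit 0) (.ax 3 6 11 14 0), .t 1 (nat_lit 0) (.ax 3 6 11 14 1), .t 1 (nat_lit 0) (.ax 3 6 11 14 2), .t 1 (nat_lit 0) (.ax 3 6 11 14 3), .t 1 (nat_lit 0) (.ax 3 6 11 14 4), .t 1 (nat_lit 0) (.ax 3 6 11 14 5), .t 1 (nat_lit 0) (.ax 3 6 11 14 6), .t 1 (nat_lit 0) (.ax 3 6 11 14 7), .t 1 (nat_lit 0) (.ax 3 6 12 13 1), .t 1 (nat_lit 0)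 (.ax 3 6 12 13 2), .t 1 (nat_lit 0) (.ax 3 6 12 13 3), .t 1 (nat_lit 0) (.ax 3 6 12 13 4), .t 1 (nat_lit 0) (.ax 3 6 12 14 0), .t 1 (nat_lit 0) (.ax 3 6 12 14 3), .t 1 (nat_lit 0) (.ax 3 6 12 14 5), .t 1 (nat_lit 0) (.ax 3 6 12 14 6), .t 1 (nat_lit 0) (.ax 3 6 12 14 7), .t 1 (nat_lit 0) (.ax 3 6 13 14 0), .t 1 (nat_lit 0) (.ax 3 6 13 14 2), .t 1 (nat_lit 0) (.ax 3 6 13 14 3), .t 1 (nat_lit 0) (.ax 3 6 13 14 5), .t 1 (nat_lit 0) (.ax 3 6 13 14 6), .t 1 (nat_lit 0) (.ax 3 6 13 14 7), .t 1 (nat_lit 0) (.ax 3 7 8 9 0), .t 1 (nat_lit 0) (.ax 3 7 8 9 1), .t 1 (nat_lit 0) (.ax 3 7 8 9 2), .t 1 (nat_lit 0) (.ax 3 7 8 9 3), .t 1 (nat_lit 0) (.ax 3 7 8 9 4), .t 1 (nat_lit 0) (.ax 3 7 8 9 5), .t 1 (nat_lit 0) (.ax 3 7 8 9 6), .t 1 (nat_lit 0)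 (.ax 3 7 8 9 7), .t 1 (nat_lit 0) (.ax 3 7 8 10 0), .t 1 (nat_lit 0) (.ax 3 7 8 10 3), .t 1 (nat_lit 0) (.ax 3 7 8 10 4), .t 1 (nat_lit 0) (.ax 3 7 8 10 5), .t 1 (nat_lit 0) (.ax 3 7 8 10 6), .t 1 (nat_lit 0) (.ax 3 7 8 10 7), .t 1 (nat_lit 0) (.ax 3 7 8 11 0), .t 1 (nat_lit 0) (.ax 3 7 8 11 2), .t 1 (nat_lit 0) (.ax 3 7 8 11 3), .t 1 (nat_lit 0) (.ax 3 7 8 11 4), .t 1 (nat_lit 0) (.ax 3 7 8 11 5), .t 1 (nat_lit 0) (.ax 3 7 8 11 6), .t 1 (nat_lit 0) (.ax 3 7 8 11 7), .t 1 (nat_lit 0) (.ax 3 7 8 12 3), .t 1 (nat_lit 0) (.ax 3 7 8 12 4), .t 1 (nat_lit 0) (.ax 3 7 8 12 7), .t 1 (nat_lit 0) (.ax 3 7 8 13 0), .t 1 (nat_lit 0) (.ax 3 7 8 13 1), .t 1 (nat_lit 0) (.ax 3 7 8 13 2), .t 1 (nat_lit 0) (.ax 3 7 8 13 3), .t 1 (nat_lit 0) (.ax 3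 7 8 13 4), .t 1 (nat_lit 0) (.ax 3 7 8 13 5), .t 1 (nat_lit 0) (.ax 3 7 8 13 6)] (by decide +kernel) (by decide +kernel)
theorem b44 : B 2816 2880 := Blk.of_chk [.t 1 (nat_lit 0) (.ax 3 7 8 13 7), .t 1 (nat_lit 0) (.ax 3 7 8 14 0), .t 1 (nat_lit 0) (.ax 3 7 8 14 2), .t 1 (nat_lit 0) (.ax 3 7 8 14 3), .t 1 (nat_lit 0) (.ax 3 7 8 14 5), .t 1 (nat_lit 0) (.ax 3 7 8 14 6), .t 1 (nat_lit 0) (.ax 3 7 8 14 7), .t 1 (nat_lit 0) (.ax 3 7 9 10 0), .t 1 (nat_lit 0) (.ax 3 7 9 10 4), .t 1 (nat_lit 0) (.ax 3 7 9 10 6), .t 1 (nat_lit 0) (.ax 3 7 9 10 7), .t 1 (nat_lit 0) (.ax 3 7 9 11 0), .t 1 (nat_lit 0) (.ax 3 7 9 11 1), .t 1 (nat_lit 0) (.ax 3 7 9 11 4), .t 1 (nat_lit 0) (.ax 3 7 9 11 5), .t 1 (nat_lit 0) (.ax 3 7 9 11 7), .t 1 (nat_lit 0) (.ax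 3 7 9 12 0), .t 1 (nat_lit 0) (.ax 3 7 9 12 3), .t 1 (nat_lit 0) (.ax 3 7 9 12 4), .t 1 (nat_lit 0) (.ax 3 7 9 12 6), .t 1 (nat_lit 0) (.ax 3 7 9 13 0), .t 1 (nat_lit 0) (.ax 3 7 9 13 1), .t 1 (nat_lit 0) (.ax 3 7 9 13 2), .t 1 (nat_lit 0) (.ax 3 7 9 13 4), .t 1 (nat_lit 0) (.ax 3 7 9 13 5), .t 1 (nat_lit 0) (.ax 3 7 9 13 6), .t 1 (nat_lit 0) (.ax 3 7 9 13 7), .t 1 (nat_lit 0) (.ax 3 7 9 14 0), .t 1 (nat_lit 0) (.ax 3 7 9 14 4), .t 1 (nat_lit 0) (.ax 3 7 9 14 5), .t 1 (nat_lit 0) (.ax 3 7 9 14 6), .t 1 (nat_lit 0) (.ax 3 7 10 11 5), .t 1 (nat_lit 0) (.ax 3 7 10 11 6), .t 1 (nat_lit 0) (.ax 3 7 10 11 7), .t 1 (nat_lit 0) (.ax 3 7 10 12 0), .t 1 (nat_lit 0) (.ax 3 7 10 12 1), .t 1 (nat_lit 0) (.ax 3 7 10 12 2), .t 1 (nat_lit 0) (.ax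 3 7 10 12 3), .t 1 (nat_lit 0) (.ax 3 7 10 13 0), .t 1 (nat_lit 0) (.ax 3 7 10 13 1), .t 1 (nat_lit 0) (.ax 3 7 10 13 2), .t 1 (nat_lit 0) (.ax 3 7 10 13 4), .t 1 (nat_lit 0) (.ax 3 7 10 13 5), .t 1 (nat_lit 0) (.ax 3 7 10 13 6), .t 1 (nat_lit 0) (.ax 3 7 10 14 0), .t 1 (nat_lit 0) (.ax 3 7 10 14 1), .t 1 (nat_lit 0) (.ax 3 7 10 14 2), .t 1 (nat_lit 0) (.ax 3 7 10 14 4), .t 1 (nat_lit 0) (.ax 3 7 10 14 6), .t 1 (nat_lit 0) (.ax 3 7 10 14 7), .t 1 (nat_lit 0) (.ax 3 7 11 12 0), .t 1 (nat_lit 0) (.ax 3 7 11 12 2), .t 1 (nat_lit 0) (.ax 3 7 11 12 3), .t 1 (nat_lit 0) (.ax 3 7 11 12 4), .t 1 (nat_lit 0) (.ax 3 7 11 12 6), .t 1 (nat_lit 0) (.ax 3 7 11 13 0), .t 1 (nat_lit 0) (.ax 3 7 11 13 1), .t 1 (nat_lit 0) (.ax 3 7 11 13 2), .t 1 (nat_lit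 0) (.ax 3 7 11 13 4), .t 1 (nat_lit 0) (.ax 3 7 11 13 5), .t 1 (nat_lit 0) (.ax 3 7 11 14 0), .t 1 (nat_lit 0) (.ax 3 7 11 14 1), .t 1 (nat_lit 0) (.ax 3 7 11 14 2), .t 1 (nat_lit 0) (.ax 3 7 11 14 4)] (by decide +kernel) (by decide +kernel)
theorem b45 : B 2880 2944 := Blk.of_chk [.t 1 (nat_lit 0) (.ax 3 7 11 14 5), .t 1 (nat_lit 0) (.ax 3 7 11 14 7), .t 1 (nat_lit 0) (.ax 3 7 12 13 0), .t 1 (nat_lit 0) (.ax 3 7 12 13 3), .t 1 (nat_lit 0) (.ax 3 7 12 13 4), .t 1 (nat_lit 0) (.ax 3 7 12 13 6), .t 1 (nat_lit 0) (.ax 3 7 12 13 7), .t 1 (nat_lit 0) (.ax 3 7 12 14 4), .t 1 (nat_lit 0) (.ax 3 7 12 14 5), .t 1 (nat_lit 0) (.ax 3 7 12 14 6), .t 1 (nat_lit 0) (.ax 3 7 12 14 7), .t 1 (nat_lit 0) (.ax 3 7 13 14 0), .t 1 (nat_lit 0) (.ax 3 7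 13 14 2), .t 1 (nat_lit 0) (.ax 3 7 13 14 3), .t 1 (nat_lit 0) (.ax 3 7 13 14 5), .t 1 (nat_lit 0) (.ax 3 7 13 14 6), .t 1 (nat_lit 0) (.ax 3 7 13 14 7), .t 1 (nat_lit 0) (.ax 3 8 9 10 0), .t 1 (nat_lit 0) (.ax 3 8 9 10 1), .t 1 (nat_lit 0) (.ax 3 8 9 10 3), .t 1 (nat_lit 0) (.ax 3 8 9 10 4), .t 1 (nat_lit 0) (.ax 3 8 9 10 5), .t 1 (nat_lit 0) (.ax 3 8 9 11 0), .t 1 (nat_lit 0) (.ax 3 8 9 11 1), .t 1 (nat_lit 0) (.ax 3 8 9 11 3), .t 1 (nat_lit 0) (.ax 3 8 9 11 4), .t 1 (nat_lit 0) (.ax 3 8 9 11 5), .t 1 (nat_lit 0) (.ax 3 8 9 11 6), .t 1 (nat_lit 0) (.ax 3 8 9 11 7), .t 1 (nat_lit 0) (.ax 3 8 9 12 1), .t 1 (nat_lit 0) (.ax 3 8 9 12 3), .t 1 (nat_lit 0) (.ax 3 8 9 12 4), .t 1 (nat_lit 0) (.ax 3 8 9 12 5), .t 1 (nat_lit 0) (.ax 3 8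 9 12 6), .t 1 (nat_lit 0) (.ax 3 8 9 13 0), .t 1 (nat_lit 0) (.ax 3 8 9 13 1), .t 1 (nat_lit 0) (.ax 3 8 9 13 2), .t 1 (nat_lit 0) (.ax 3 8 9 13 3), .t 1 (nat_lit 0) (.ax 3 8 9 13 5), .t 1 (nat_lit 0) (.ax 3 8 9 13 6), .t 1 (nat_lit 0) (.ax 3 8 9 14 0), .t 1 (nat_lit 0) (.ax 3 8 9 14 1), .t 1 (nat_lit 0) (.ax 3 8 9 14 3), .t 1 (nat_lit 0) (.ax 3 8 9 14 4), .t 1 (nat_lit 0) (.ax 3 8 9 14 7), .t 1 (nat_lit 0) (.ax 3 8 10 11 0), .t 1 (nat_lit 0) (.ax 3 8 10 11 1), .t 1 (nat_lit 0) (.ax 3 8 10 11 2), .t 1 (nat_lit 0) (.ax 3 8 10 11 4), .t 1 (nat_lit 0) (.ax 3 8 10 11 5), .t 1 (nat_lit 0) (.ax 3 8 10 12 0), .t 1 (nat_lit 0) (.ax 3 8 10 12 2), .t 1 (nat_lit 0) (.ax 3 8 10 12 3), .t 1 (nat_lit 0) (.ax 3 8 10 12 4), .t 1 (nat_lit 0) (.ax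 3 8 10 12 5), .t 1 (nat_lit 0) (.ax 3 8 10 12 6), .t 1 (nat_lit 0) (.ax 3 8 10 13 0), .t 1 (nat_lit 0) (.ax 3 8 10 13 1), .t 1 (nat_lit 0) (.ax 3 8 10 13 2), .t 1 (nat_lit 0) (.ax 3 8 10 13 3), .t 1 (nat_lit 0) (.ax 3 8 10 13 4), .t 1 (nat_lit 0) (.ax 3 8 10 13 5), .t 1 (nat_lit 0) (.ax 3 8 10 13 6), .t 1 (nat_lit 0) (.ax 3 8 10 13 7)] (by decide +kernel) (by decide +kernel)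
theorem b46 : B 2944 3008 := Blk.of_chk [.t 1 (nat_lit 0) (.ax 3 8 10 14 0), .t 1 (nat_lit 0) (.ax 3 8 10 14 1), .t 1 (nat_lit 0) (.ax 3 8 10 14 2), .t 1 (nat_lit 0) (.ax 3 8 10 14 3), .t 1 (nat_lit 0) (.ax 3 8 10 14 4), .t 1 (nat_lit 0) (.ax 3 8 10 14 5), .t 1 (nat_lit 0) (.ax 3 8 10 14 6), .t 1 (nat_lit 0) (.ax 3 8 10 14 7), .t 1 (nat_lit 0) (.ax 3 8 11 12 0), .t 1 (nat_lit 0) (.ax 3 8 11 12 1), .t 1 (nat_lit 0) (.ax 3 8 11 12 2), .t 1 (nat_lit 0) (.ax 3 8 11 12 4), .t 1 (nat_lit 0) (.ax 3 8 11 12 5), .t 1 (nat_lit 0) (.ax 3 8 11 12 6), .t 1 (nat_lit 0) (.ax 3 8 11 12 7), .t 1 (nat_lit 0) (.ax 3 8 11 13 0), .t 1 (nat_lit 0) (.ax 3 8 11 13 1), .t 1 (nat_lit 0) (.ax 3 8 11 13 2), .t 1 (nat_lit 0) (.ax 3 8 11 13 3), .t 1 (nat_lit 0)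 (.ax 3 8 11 13 4), .t 1 (nat_lit 0) (.ax 3 8 11 13 5), .t 1 (nat_lit 0) (.ax 3 8 11 13 6), .t 1 (nat_lit 0) (.ax 3 8 11 13 7), .t 1 (nat_lit 0) (.ax 3 8 11 14 0), .t 1 (nat_lit 0) (.ax 3 8 11 14 1), .t 1 (nat_lit 0) (.ax 3 8 11 14 2), .t 1 (nat_lit 0) (.ax 3 8 11 14 3), .t 1 (nat_lit 0) (.ax 3 8 11 14 4), .t 1 (nat_lit 0) (.ax 3 8 11 14 5), .t 1 (nat_lit 0) (.ax 3 8 11 14 6), .t 1 (nat_lit 0) (.ax 3 8 11 14 7), .t 1 (nat_lit 0) (.ax 3 8 12 13 0), .t 1 (nat_lit 0) (.ax 3 8 12 13 1), .t 1 (nat_lit 0) (.ax 3 8 12 13 3), .t 1 (nat_lit 0) (.ax 3 8 12 13 4), .t 1 (nat_lit 0) (.ax 3 8 12 13 6), .t 1 (nat_lit 0) (.ax 3 8 12 14 0), .t 1 (nat_lit 0) (.ax 3 8 12 14 2), .t 1 (nat_lit 0) (.ax 3 8 12 14 3), .t 1 (nat_lit 0) (.ax 3 8 12 14 4), .t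 1 (nat_lit 0) (.ax 3 8 12 14 5), .t 1 (nat_lit 0) (.ax 3 8 12 14 6), .t 1 (nat_lit 0) (.ax 3 8 12 14 7), .t 1 (nat_lit 0) (.ax 3 8 13 14 2), .t 1 (nat_lit 0) (.ax 3 8 13 14 3), .t 1 (nat_lit 0) (.ax 3 8 13 14 5), .t 1 (nat_lit 0) (.ax 3 8 13 14 6), .t 1 (nat_lit 0) (.ax 3 8 13 14 7), .t 1 (nat_lit 0) (.ax 3 9 10 11 1), .t 1 (nat_lit 0) (.ax 3 9 10 11 4), .t 1 (nat_lit 0) (.ax 3 9 10 11 5), .t 1 (nat_lit 0) (.ax 3 9 10 11 7), .t 1 (nat_lit 0) (.ax 3 9 10 12 0), .t 1 (nat_lit 0) (.ax 3 9 10 12 1), .t 1 (nat_lit 0) (.ax 3 9 10 12 4), .t 1 (nat_lit 0) (.ax 3 9 10 12 5), .t 1 (nat_lit 0) (.ax 3 9 10 12 6), .t 1 (nat_lit 0) (.ax 3 9 10 12 7), .t 1 (nat_lit 0) (.ax 3 9 10 13 0), .t 1 (nat_lit 0) (.ax 3 9 10 13 1), .t 1 (nat_lit 0) (.ax 3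 9 10 13 2), .t 1 (nat_lit 0) (.ax 3 9 10 13 4), .t 1 (nat_lit 0) (.ax 3 9 10 13 5), .t 1 (nat_lit 0) (.ax 3 9 10 13 7)] (by decide +kernel) (by decide +kernel)
theorem b47 : B 3008 3072 := Blk.of_chk [.t 1 (nat_lit 0) (.ax 3 9 10 14 0), .t 1 (nat_lit 0) (.ax 3 9 10 14 1), .t 1 (nat_lit 0) (.ax 3 9 10 14 3), .t 1 (nat_lit 0) (.ax 3 9 10 14 4), .t 1 (nat_lit 0) (.ax 3 9 10 14 5), .t 1 (nat_lit 0) (.ax 3 9 11 12 0), .t 1 (nat_lit 0) (.ax 3 9 11 12 1), .t 1 (nat_lit 0) (.ax 3 9 11 12 2), .t 1 (nat_lit 0) (.ax 3 9 11 12 3), .t 1 (nat_lit 0) (.ax 3 9 11 12 4), .t 1 (nat_lit 0) (.ax 3 9 11 12 7), .t 1 (nat_lit 0) (.ax 3 9 11 13 0), .t 1 (nat_lit 0) (.ax 3 9 11 13 1), .t 1 (nat_lit 0) (.ax 3 9 11 13 2), .t 1 (nat_lit 0) (.ax 3 9 11 13 4),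 .t 1 (nat_lit 0) (.ax 3 9 11 13 5), .t 1 (nat_lit 0) (.ax 3 9 11 14 0), .t 1 (nat_lit 0) (.ax 3 9 11 14 1), .t 1 (nat_lit 0) (.ax 3 9 11 14 2), .t 1 (nat_lit 0) (.ax 3 9 11 14 3), .t 1 (nat_lit 0) (.ax 3 9 11 14 4), .t 1 (nat_lit 0) (.ax 3 9 11 14 7), .t 1 (nat_lit 0) (.ax 3 9 12 13 0), .t 1 (nat_lit 0) (.ax 3 9 12 13 1), .t 1 (nat_lit 0) (.ax 3 9 12 13 3), .t 1 (nat_lit 0) (.ax 3 9 12 13 4), .t 1 (nat_lit 0) (.ax 3 9 12 13 6), .t 1 (nat_lit 0) (.ax 3 9 12 14 0), .t 1 (nat_lit 0) (.ax 3 9 12 14 1), .t 1 (nat_lit 0) (.ax 3 9 12 14 2), .t 1 (nat_lit 0) (.ax 3 9 12 14 3), .t 1 (nat_lit 0) (.ax 3 9 12 14 4), .t 1 (nat_lit 0) (.ax 3 9 12 14 5), .t 1 (nat_lit 0) (.ax 3 9 12 14 7), .t 1 (nat_lit 0) (.ax 3 9 13 14 0), .t 1 (nat_lit 0) (.ax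 3 9 13 14 2), .t 1 (nat_lit 0) (.ax 3 9 13 14 3), .t 1 (nat_lit 0) (.ax 3 9 13 14 5), .t 1 (nat_lit 0) (.ax 3 9 13 14 6), .t 1 (nat_lit 0) (.ax 3 9 13 14 7), .t 1 (nat_lit 0) (.ax 3 10 11 12 1), .t 1 (nat_lit 0) (.ax 3 10 11 12 2), .t 1 (nat_lit 0) (.ax 3 10 11 12 3), .t 1 (nat_lit 0) (.ax 3 10 11 12 7), .t 1 (nat_lit 0) (.ax 3 10 11 13 0), .t 1 (nat_lit 0) (.ax 3 10 11 13 1), .t 1 (nat_lit 0) (.ax 3 10 11 13 2), .t 1 (nat_lit 0) (.ax 3 10 11 13 4), .t 1 (nat_lit 0) (.ax 3 10 11 13 5), .t 1 (nat_lit 0) (.ax 3 10 11 13 6), .t 1 (nat_lit 0) (.ax 3 10 11 14 0), .t 1 (nat_lit 0) (.ax 3 10 11 14 1), .t 1 (nat_lit 0) (.ax 3 10 11 14 2), .t 1 (nat_lit 0) (.ax 3 10 11 14 4), .t 1 (nat_lit 0) (.ax 3 10 11 14 5), .t 1 (nat_lit 0) (.ax 3 10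 11 14 7), .t 1 (nat_lit 0) (.ax 3 10 12 13 0), .t 1 (nat_lit 0) (.ax 3 10 12 13 4), .t 1 (nat_lit 0) (.ax 3 10 12 13 6), .t 1 (nat_lit 0) (.ax 3 10 12 14 0), .t 1 (nat_lit 0) (.ax 3 10 12 14 1), .t 1 (nat_lit 0) (.ax 3 10 12 14 3), .t 1 (nat_lit 0) (.ax 3 10 12 14 4), .t 1 (nat_lit 0) (.ax 3 10 12 14 5)] (by decide +kernel) (by decide +kernel)
theorem b48 : B 3072 3136 := Blk.of_chk [.t 1 (nat_lit 0) (.ax 3 10 12 14 7), .t 1 (nat_lit 0) (.ax 3 10 13 14 0), .t 1 (nat_lit 0) (.ax 3 10 13 14 1), .t 1 (nat_lit 0) (.ax 3 10 13 14 2), .t 1 (nat_lit 0) (.ax 3 10 13 14 3), .t 1 (nat_lit 0) (.ax 3 10 13 14 5), .t 1 (nat_lit 0) (.ax 3 10 13 14 6), .t 1 (nat_lit 0) (.ax 3 10 13 14 7), .t 1 (nat_lit 0) (.ax 3 11 12 13 0), .t 1 (nat_lit 0) (.ax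 3 11 12 13 1), .t 1 (nat_lit 0) (.ax 3 11 12 13 2), .t 1 (nat_lit 0) (.ax 3 11 12 13 4), .t 1 (nat_lit 0) (.ax 3 11 12 14 1), .t 1 (nat_lit 0) (.ax 3 11 12 14 3), .t 1 (nat_lit 0) (.ax 3 11 12 14 5), .t 1 (nat_lit 0) (.ax 3 11 13 14 0), .t 1 (nat_lit 0) (.ax 3 11 13 14 2), .t 1 (nat_lit 0) (.ax 3 11 13 14 3), .t 1 (nat_lit 0) (.ax 3 11 13 14 4), .t 1 (nat_lit 0) (.ax 3 11 13 14 5), .t 1 (nat_lit 0) (.ax 3 11 13 14 6), .t 1 (nat_lit 0) (.ax 3 11 13 14 7), .t 1 (nat_lit 0) (.ax 3 12 13 14 0), .t 1 (nat_lit 0) (.ax 3 12 13 14 1), .t 1 (nat_lit 0) (.ax 3 12 13 14 3), .t 1 (nat_lit 0) (.ax 3 12 13 14 5), .t 1 (nat_lit 0) (.ax 4 5 6 7 0), .t 1 (nat_lit 0) (.ax 4 5 6 7 1), .t 1 (nat_lit 0) (.ax 4 5 6 7 2), .t 1 (nat_lit 0) (.ax 4 5 6 7 3),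 .t 1 (nat_lit 0) (.ax 4 5 6 7 4), .t 1 (nat_lit 0) (.ax 4 5 6 7 5), .t 1 (nat_lit 0) (.ax 4 5 6 7 7), .t 1 (nat_lit 0) (.ax 4 5 6 8 0), .t 1 (nat_lit 0) (.ax 4 5 6 8 1), .t 1 (nat_lit 0) (.ax 4 5 6 8 2), .t 1 (nat_lit 0) (.ax 4 5 6 8 3), .t 1 (nat_lit 0) (.ax 4 5 6 8 4), .t 1 (nat_lit 0) (.ax 4 5 6 8 5), .t 1 (nat_lit 0) (.ax 4 5 6 8 6), .t 1 (nat_lit 0) (.ax 4 5 6 8 7), .t 1 (nat_lit 0) (.ax 4 5 6 9 0), .t 1 (nat_lit 0) (.ax 4 5 6 9 2), .t 1 (nat_lit 0) (.ax 4 5 6 9 5), .t 1 (nat_lit 0) (.ax 4 5 6 9 6), .t 1 (nat_lit 0) (.ax 4 5 6 9 7), .t 1 (nat_lit 0) (.ax 4 5 6 10 2), .t 1 (nat_lit 0) (.ax 4 5 6 10 5), .t 1 (nat_lit 0) (.ax 4 5 6 11 1), .t 1 (nat_lit 0) (.ax 4 5 6 11 2), .t 1 (nat_lit 0) (.ax 4 5 6 11 6), .t 1 (nat_lit 0) (.ax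 4 5 6 11 7), .t 1 (nat_lit 0) (.ax 4 5 6 12 0), .t 1 (nat_lit 0) (.ax 4 5 6 12 1), .t 1 (nat_lit 0) (.ax 4 5 6 12 2), .t 1 (nat_lit 0) (.ax 4 5 6 12 3), .t 1 (nat_lit 0) (.ax 4 5 6 12 5), .t 1 (nat_lit 0) (.ax 4 5 6 12 6), .t 1 (nat_lit 0) (.ax 4 5 6 12 7), .t 1 (nat_lit 0) (.ax 4 5 6 13 2), .t 1 (nat_lit 0) (.ax 4 5 6 13 3), .t 1 (nat_lit 0) (.ax 4 5 6 13 4), .t 1 (nat_lit 0) (.ax 4 5 6 13 6), .t 1 (nat_lit 0) (.ax 4 5 6 13 7)] (by decide +kernel) (by decide +kernel)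
theorem b49 : B 3136 3200 := Blk.of_chk [.t 1 (nat_lit 0) (.ax 4 5 6 14 0), .t 1 (nat_lit 0) (.ax 4 5 6 14 2), .t 1 (nat_lit 0) (.ax 4 5 6 14 3), .t 1 (nat_lit 0) (.ax 4 5 6 14 6), .t 1 (nat_lit 0) (.ax 4 5 7 8 0), .t 1 (nat_lit 0) (.ax 4 5 7 8 1), .t 1 (nat_lit 0) (.ax 4 5 7 8 2), .t 1 (nat_lit 0) (.ax 4 5 7 8 3), .t 1 (nat_lit 0) (.ax 4 5 7 8 4), .t 1 (nat_lit 0) (.ax 4 5 7 8 5), .t 1 (nat_lit 0) (.ax 4 5 7 8 7), .t 1 (nat_lit 0) (.ax 4 5 7 9 0), .t 1 (nat_lit 0) (.ax 4 5 7 9 2), .t 1 (nat_lit 0) (.ax 4 5 7 9 3), .t 1 (nat_lit 0) (.ax 4 5 7 9 4), .t 1 (nat_lit 0) (.ax 4 5 7 9 5), .t 1 (nat_lit 0) (.ax 4 5 7 9 6), .t 1 (nat_lit 0) (.ax 4 5 7 9 7), .t 1 (nat_lit 0) (.ax 4 5 7 10 2), .t 1 (nat_lit 0) (.ax 4 5 7 10 4), .t 1 (nat_lit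 0) (.ax 4 5 7 10 7), .t 1 (nat_lit 0) (.ax 4 5 7 11 2), .t 1 (nat_lit 0) (.ax 4 5 7 11 3), .t 1 (nat_lit 0) (.ax 4 5 7 11 5), .t 1 (nat_lit 0) (.ax 4 5 7 11 7), .t 1 (nat_lit 0) (.ax 4 5 7 12 1), .t 1 (nat_lit 0) (.ax 4 5 7 12 2), .t 1 (nat_lit 0) (.ax 4 5 7 12 3), .t 1 (nat_lit 0) (.ax 4 5 7 12 4), .t 1 (nat_lit 0) (.ax 4 5 7 12 5), .t 1 (nat_lit 0) (.ax 4 5 7 12 7), .t 1 (nat_lit 0) (.ax 4 5 7 13 2), .t 1 (nat_lit 0) (.ax 4 5 7 13 3), .t 1 (nat_lit 0) (.ax 4 5 7 13 4), .t 1 (nat_lit 0) (.ax 4 5 7 13 5), .t 1 (nat_lit 0) (.ax 4 5 7 13 7), .t 1 (nat_lit 0) (.ax 4 5 7 14 2), .t 1 (nat_lit 0) (.ax 4 5 7 14 3), .t 1 (nat_lit 0) (.ax 4 5 7 14 7), .t 1 (nat_lit 0) (.ax 4 5 8 9 0), .t 1 (nat_lit 0) (.ax 4 5 8 9 1), .t 1 (nat_lit 0) (.ax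 4 5 8 9 2), .t 1 (nat_lit 0) (.ax 4 5 8 9 4), .t 1 (nat_lit 0) (.ax 4 5 8 9 5), .t 1 (nat_lit 0) (.ax 4 5 8 9 6), .t 1 (nat_lit 0) (.ax 4 5 8 10 1), .t 1 (nat_lit 0) (.ax 4 5 8 10 2), .t 1 (nat_lit 0) (.ax 4 5 8 10 3), .t 1 (nat_lit 0) (.ax 4 5 8 10 4), .t 1 (nat_lit 0) (.ax 4 5 8 10 5), .t 1 (nat_lit 0) (.ax 4 5 8 10 6), .t 1 (nat_lit 0) (.ax 4 5 8 11 2), .t 1 (nat_lit 0) (.ax 4 5 8 11 3), .t 1 (nat_lit 0) (.ax 4 5 8 11 5), .t 1 (nat_lit 0) (.ax 4 5 8 11 6), .t 1 (nat_lit 0) (.ax 4 5 8 12 0), .t 1 (nat_lit 0) (.ax 4 5 8 12 1), .t 1 (nat_lit 0) (.ax 4 5 8 12 2), .t 1 (nat_lit 0) (.ax 4 5 8 12 3), .t 1 (nat_lit 0) (.ax 4 5 8 12 4), .t 1 (nat_lit 0) (.ax 4 5 8 12 6), .t 1 (nat_lit 0) (.ax 4 5 8 13 2), .t 1 (nat_lit 0) (.ax 4 5 8 13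 4), .t 1 (nat_lit 0) (.ax 4 5 8 13 7)] (by decide +kernel) (by decide +kernel)

end Pool.Agent.GCP.CB2
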