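import Pool.Agent.GCP.CB2Db

set_option autoImplicit false
set_option maxRecDepth 100000

/-! # Blocks CB2B2 (generated) -/

namespace Pool.Agent.GCP.CB2

open Pool.Agent.GCP

theorem b50 : B 3200 3264 := Blk.of_chk [.t 1 (nat_lit 0) (.ax 4 5 8 14 0), .t 1 (nat_lit 0) (.ax 4 5 8 14 1), .t 1 (nat_lit 0) (.ax 4 5 8 14 2), .t 1 (nat_lit 0) (.ax 4 5 8 14 3), .t 1 (nat_lit 0) (.ax 4 5 8 14 4), .t 1 (nat_lit 0) (.ax 4 5 8 14 5), .t 1 (nat_lit 0) (.ax 4 5 8 14 7), .t 1 (nat_lit 0) (.ax 4 5 9 11 0), .t 1 (nat_lit 0) (.ax 4 5 9 11 1), .t 1 (nat_lit 0) (.ax 4 5 9 11 4), .t 1 (nat_lit 0) (.ax 4 5 9 12 1), .t 1 (nat_lit 0) (.ax 4 5 9 12 2), .t 1 (nat_lit 0) (.ax 4 5 9 12 7), .t 1 (nat_lit 0) (.ax 4 5 9 13 0), .t 1 (nat_lit 0) (.ax 4 5 9 13 2), .t 1 (nat_lit 0) (.ax 4 5 9 13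 3), .t 1 (nat_lit 0) (.ax 4 5 9 13 4), .t 1 (nat_lit 0) (.ax 4 5 9 14 0), .t 1 (nat_lit 0) (.ax 4 5 9 14 1), .t 1 (nat_lit 0) (.ax 4 5 9 14 4), .t 1 (nat_lit 0) (.ax 4 5 9 14 5), .t 1 (nat_lit 0) (.ax 4 5 10 11 3), .t 1 (nat_lit 0) (.ax 4 5 10 12 0), .t 1 (nat_lit 0) (.ax 4 5 10 12 1), .t 1 (nat_lit 0) (.ax 4 5 10 13 0), .t 1 (nat_lit 0) (.ax 4 5 10 13 1), .t 1 (nat_lit 0) (.ax 4 5 10 14 0), .t 1 (nat_lit 0) (.ax 4 5 10 14 1), .t 1 (nat_lit 0) (.ax 4 5 10 14 2), .t 1 (nat_lit 0) (.ax 4 5 11 12 1), .t 1 (nat_lit 0) (.ax 4 5 11 12 2), .t 1 (nat_lit 0) (.ax 4 5 11 12 5), .t 1 (nat_lit 0) (.ax 4 5 11 12 7), .t 1 (nat_lit 0) (.ax 4 5 11 13 0), .t 1 (nat_lit 0) (.ax 4 5 11 13 1), .t 1 (nat_lit 0) (.ax 4 5 11 13 2), .t 1 (nat_lit 0) (.ax 4 5 11 13 4), .t 1 (nat_lit 0)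 (.ax 4 5 11 14 0), .t 1 (nat_lit 0) (.ax 4 5 11 14 1), .t 1 (nat_lit 0) (.ax 4 5 11 14 2), .t 1 (nat_lit 0) (.ax 4 5 11 14 3), .t 1 (nat_lit 0) (.ax 4 5 11 14 6), .t 1 (nat_lit 0) (.ax 4 5 11 14 7), .t 1 (nat_lit 0) (.ax 4 5 12 13 2), .t 1 (nat_lit 0) (.ax 4 5 12 13 4), .t 1 (nat_lit 0) (.ax 4 5 12 13 6), .t 1 (nat_lit 0) (.ax 4 5 12 14 3), .t 1 (nat_lit 0) (.ax 4 5 12 14 4), .t 1 (nat_lit 0) (.ax 4 5 13 14 2), .t 1 (nat_lit 0) (.ax 4 5 13 14 7), .t 1 (nat_lit 0) (.ax 4 6 7 8 0), .t 1 (nat_lit 0) (.ax 4 6 7 8 1), .t 1 (nat_lit 0) (.ax 4 6 7 8 2), .t 1 (nat_lit 0) (.ax 4 6 7 8 3), .t 1 (nat_lit 0) (.ax 4 6 7 8 4), .t 1 (nat_lit 0) (.ax 4 6 7 8 5), .t 1 (nat_lit 0) (.ax 4 6 7 9 0), .t 1 (nat_lit 0) (.ax 4 6 7 9 1), .t 1 (nat_lit 0) (.ax 4 6 7 9 2), .t 1 (nat_lit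 0) (.ax 4 6 7 9 3), .t 1 (nat_lit 0) (.ax 4 6 7 9 4), .t 1 (nat_lit 0) (.ax 4 6 7 9 5), .t 1 (nat_lit 0) (.ax 4 6 7 9 6), .t 1 (nat_lit 0) (.ax 4 6 7 9 7)] (by decide +kernel) (by decide +kernel)
theorem b51 : B 3264 3328 := Blk.of_chk [.t 1 (nat_lit 0) (.ax 4 6 7 10 2), .t 1 (nat_lit 0) (.ax 4 6 7 10 3), .t 1 (nat_lit 0) (.ax 4 6 7 10 4), .t 1 (nat_lit 0) (.ax 4 6 7 10 5), .t 1 (nat_lit 0) (.ax 4 6 7 10 7), .t 1 (nat_lit 0) (.ax 4 6 7 11 3), .t 1 (nat_lit 0) (.ax 4 6 7 11 5), .t 1 (nat_lit 0) (.ax 4 6 7 11 7), .t 1 (nat_lit 0) (.ax 4 6 7 12 1), .t 1 (nat_lit 0) (.ax 4 6 7 12 2), .t 1 (nat_lit 0) (.ax 4 6 7 12 3), .t 1 (nat_lit 0) (.ax 4 6 7 12 6), .t 1 (nat_lit 0) (.ax 4 6 7 12 7), .t 1 (nat_lit 0) (.ax 4 6 7 13 2), .t 1 (nat_lit 0) (.ax 4 6 7 13 3), .t 1 (nat_lit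 0) (.ax 4 6 7 13 4), .t 1 (nat_lit 0) (.ax 4 6 7 13 6), .t 1 (nat_lit 0) (.ax 4 6 7 13 7), .t 1 (nat_lit 0) (.ax 4 6 7 14 2), .t 1 (nat_lit 0) (.ax 4 6 7 14 3), .t 1 (nat_lit 0) (.ax 4 6 7 14 4), .t 1 (nat_lit 0) (.ax 4 6 7 14 7), .t 1 (nat_lit 0) (.ax 4 6 8 9 0), .t 1 (nat_lit 0) (.ax 4 6 8 9 1), .t 1 (nat_lit 0) (.ax 4 6 8 9 2), .t 1 (nat_lit 0) (.ax 4 6 8 9 4), .t 1 (nat_lit 0) (.ax 4 6 8 9 5), .t 1 (nat_lit 0) (.ax 4 6 8 9 6), .t 1 (nat_lit 0) (.ax 4 6 8 9 7), .t 1 (nat_lit 0) (.ax 4 6 8 10 2), .t 1 (nat_lit 0) (.ax 4 6 8 10 3), .t 1 (nat_lit 0) (.ax 4 6 8 10 4), .t 1 (nat_lit 0) (.ax 4 6 8 10 5), .t 1 (nat_lit 0) (.ax 4 6 8 10 6), .t 1 (nat_lit 0) (.ax 4 6 8 11 2), .t 1 (nat_lit 0) (.ax 4 6 8 11 3), .t 1 (nat_lit 0) (.ax 4 6 8 11 4), .t 1 (nat_lit 0) (.ax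 4 6 8 11 5), .t 1 (nat_lit 0) (.ax 4 6 8 12 2), .t 1 (nat_lit 0) (.ax 4 6 8 12 3), .t 1 (nat_lit 0) (.ax 4 6 8 12 5), .t 1 (nat_lit 0) (.ax 4 6 8 12 6), .t 1 (nat_lit 0) (.ax 4 6 8 13 2), .t 1 (nat_lit 0) (.ax 4 6 8 13 4), .t 1 (nat_lit 0) (.ax 4 6 8 13 5), .t 1 (nat_lit 0) (.ax 4 6 8 13 6), .t 1 (nat_lit 0) (.ax 4 6 8 14 1), .t 1 (nat_lit 0) (.ax 4 6 8 14 2), .t 1 (nat_lit 0) (.ax 4 6 8 14 3), .t 1 (nat_lit 0) (.ax 4 6 8 14 4), .t 1 (nat_lit 0) (.ax 4 6 8 14 6), .t 1 (nat_lit 0) (.ax 4 6 8 14 7), .t 1 (nat_lit 0) (.ax 4 6 9 10 3), .t 1 (nat_lit 0) (.ax 4 6 9 10 5), .t 1 (nat_lit 0) (.ax 4 6 9 10 7), .t 1 (nat_lit 0) (.ax 4 6 9 11 0), .t 1 (nat_lit 0) (.ax 4 6 9 11 1), .t 1 (nat_lit 0) (.ax 4 6 9 11 5), .t 1 (nat_lit 0) (.ax 4 6 9 12 0), .t 1 (nat_lit 0) (.ax 4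 6 9 12 1), .t 1 (nat_lit 0) (.ax 4 6 9 12 2), .t 1 (nat_lit 0) (.ax 4 6 9 12 3), .t 1 (nat_lit 0) (.ax 4 6 9 12 6), .t 1 (nat_lit 0) (.ax 4 6 9 13 0)] (by decide +kernel) (by decide +kernel)
theorem b52 : B 3328 3392 := Blk.of_chk [.t 1 (nat_lit 0) (.ax 4 6 9 13 2), .t 1 (nat_lit 0) (.ax 4 6 9 13 4), .t 1 (nat_lit 0) (.ax 4 6 9 13 5), .t 1 (nat_lit 0) (.ax 4 6 9 14 0), .t 1 (nat_lit 0) (.ax 4 6 9 14 2), .t 1 (nat_lit 0) (.ax 4 6 9 14 6), .t 1 (nat_lit 0) (.ax 4 6 10 11 5), .t 1 (nat_lit 0) (.ax 4 6 10 11 6), .t 1 (nat_lit 0) (.ax 4 6 10 12 0), .t 1 (nat_lit 0) (.ax 4 6 10 12 1), .t 1 (nat_lit 0) (.ax 4 6 10 12 2), .t 1 (nat_lit 0) (.ax 4 6 10 12 4), .t 1 (nat_lit 0) (.ax 4 6 10 13 0), .t 1 (nat_lit 0) (.ax 4 6 10 13 3), .t 1 (nat_lit 0) (.ax 4 6 10 14 0), .t 1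 (nat_lit 0) (.ax 4 6 10 14 1), .t 1 (nat_lit 0) (.ax 4 6 10 14 3), .t 1 (nat_lit 0) (.ax 4 6 10 14 5), .t 1 (nat_lit 0) (.ax 4 6 10 14 7), .t 1 (nat_lit 0) (.ax 4 6 11 12 0), .t 1 (nat_lit 0) (.ax 4 6 11 12 2), .t 1 (nat_lit 0) (.ax 4 6 11 12 3), .t 1 (nat_lit 0) (.ax 4 6 11 12 4), .t 1 (nat_lit 0) (.ax 4 6 11 12 6), .t 1 (nat_lit 0) (.ax 4 6 11 13 0), .t 1 (nat_lit 0) (.ax 4 6 11 13 3), .t 1 (nat_lit 0) (.ax 4 6 11 13 4), .t 1 (nat_lit 0) (.ax 4 6 11 14 0), .t 1 (nat_lit 0) (.ax 4 6 11 14 1), .t 1 (nat_lit 0) (.ax 4 6 11 14 2), .t 1 (nat_lit 0) (.ax 4 6 11 14 4), .t 1 (nat_lit 0) (.ax 4 6 11 14 5), .t 1 (nat_lit 0) (.ax 4 6 12 13 0), .t 1 (nat_lit 0) (.ax 4 6 12 13 4), .t 1 (nat_lit 0) (.ax 4 6 12 14 0), .t 1 (nat_lit 0) (.ax 4 6 12 14 2), .t 1 (nat_lit 0) (.ax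 4 6 12 14 3), .t 1 (nat_lit 0) (.ax 4 6 12 14 6), .t 1 (nat_lit 0) (.ax 4 6 13 14 5), .t 1 (nat_lit 0) (.ax 4 6 13 14 7), .t 1 (nat_lit 0) (.ax 4 7 8 9 0), .t 1 (nat_lit 0) (.ax 4 7 8 9 2), .t 1 (nat_lit 0) (.ax 4 7 8 9 3), .t 1 (nat_lit 0) (.ax 4 7 8 9 4), .t 1 (nat_lit 0) (.ax 4 7 8 9 5), .t 1 (nat_lit 0) (.ax 4 7 8 10 0), .t 1 (nat_lit 0) (.ax 4 7 8 10 2), .t 1 (nat_lit 0) (.ax 4 7 8 10 3), .t 1 (nat_lit 0) (.ax 4 7 8 10 4), .t 1 (nat_lit 0) (.ax 4 7 8 10 5), .t 1 (nat_lit 0) (.ax 4 7 8 11 1), .t 1 (nat_lit 0) (.ax 4 7 8 11 2), .t 1 (nat_lit 0) (.ax 4 7 8 11 3), .t 1 (nat_lit 0) (.ax 4 7 8 11 4), .t 1 (nat_lit 0) (.ax 4 7 8 11 5), .t 1 (nat_lit 0) (.ax 4 7 8 11 7), .t 1 (nat_lit 0) (.ax 4 7 8 12 1), .t 1 (nat_lit 0) (.ax 4 7 8 12 2), .t 1 (nat_lit 0) (.ax 4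 7 8 12 3), .t 1 (nat_lit 0) (.ax 4 7 8 12 5), .t 1 (nat_lit 0) (.ax 4 7 8 12 7), .t 1 (nat_lit 0) (.ax 4 7 8 13 2), .t 1 (nat_lit 0) (.ax 4 7 8 13 3), .t 1 (nat_lit 0) (.ax 4 7 8 13 4)] (by decide +kernel) (by decide +kernel)
theorem b53 : B 3392 3456 := Blk.of_chk [.t 1 (nat_lit 0) (.ax 4 7 8 13 5), .t 1 (nat_lit 0) (.ax 4 7 8 13 6), .t 1 (nat_lit 0) (.ax 4 7 8 13 7), .t 1 (nat_lit 0) (.ax 4 7 8 14 1), .t 1 (nat_lit 0) (.ax 4 7 8 14 2), .t 1 (nat_lit 0) (.ax 4 7 8 14 4), .t 1 (nat_lit 0) (.ax 4 7 8 14 5), .t 1 (nat_lit 0) (.ax 4 7 8 14 7), .t 1 (nat_lit 0) (.ax 4 7 9 10 0), .t 1 (nat_lit 0) (.ax 4 7 9 10 1), .t 1 (nat_lit 0) (.ax 4 7 9 10 2), .t 1 (nat_lit 0) (.ax 4 7 9 10 3), .t 1 (nat_lit 0) (.ax 4 7 9 10 4), .t 1 (nat_lit 0) (.ax 4 7 9 11 1), .t 1 (nat_lit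 0) (.ax 4 7 9 11 2), .t 1 (nat_lit 0) (.ax 4 7 9 11 3), .t 1 (nat_lit 0) (.ax 4 7 9 11 4), .t 1 (nat_lit 0) (.ax 4 7 9 11 5), .t 1 (nat_lit 0) (.ax 4 7 9 12 0), .t 1 (nat_lit 0) (.ax 4 7 9 12 1), .t 1 (nat_lit 0) (.ax 4 7 9 12 2), .t 1 (nat_lit 0) (.ax 4 7 9 12 3), .t 1 (nat_lit 0) (.ax 4 7 9 12 5), .t 1 (nat_lit 0) (.ax 4 7 9 12 6), .t 1 (nat_lit 0) (.ax 4 7 9 13 0), .t 1 (nat_lit 0) (.ax 4 7 9 13 1), .t 1 (nat_lit 0) (.ax 4 7 9 13 2), .t 1 (nat_lit 0) (.ax 4 7 9 13 4), .t 1 (nat_lit 0) (.ax 4 7 9 13 5), .t 1 (nat_lit 0) (.ax 4 7 9 13 6), .t 1 (nat_lit 0) (.ax 4 7 9 14 0), .t 1 (nat_lit 0) (.ax 4 7 9 14 4), .t 1 (nat_lit 0) (.ax 4 7 9 14 5), .t 1 (nat_lit 0) (.ax 4 7 10 11 2), .t 1 (nat_lit 0) (.ax 4 7 10 11 4), .t 1 (nat_lit 0) (.ax 4 7 10 11 6), .t 1 (nat_lit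 0) (.ax 4 7 10 12 0), .t 1 (nat_lit 0) (.ax 4 7 10 12 1), .t 1 (nat_lit 0) (.ax 4 7 10 12 6), .t 1 (nat_lit 0) (.ax 4 7 10 13 0), .t 1 (nat_lit 0) (.ax 4 7 10 13 2), .t 1 (nat_lit 0) (.ax 4 7 10 13 3), .t 1 (nat_lit 0) (.ax 4 7 10 13 4), .t 1 (nat_lit 0) (.ax 4 7 10 14 0), .t 1 (nat_lit 0) (.ax 4 7 10 14 1), .t 1 (nat_lit 0) (.ax 4 7 10 14 4), .t 1 (nat_lit 0) (.ax 4 7 10 14 5), .t 1 (nat_lit 0) (.ax 4 7 11 12 0), .t 1 (nat_lit 0) (.ax 4 7 11 12 1), .t 1 (nat_lit 0) (.ax 4 7 11 12 2), .t 1 (nat_lit 0) (.ax 4 7 11 12 4), .t 1 (nat_lit 0) (.ax 4 7 11 12 7), .t 1 (nat_lit 0) (.ax 4 7 11 13 0), .t 1 (nat_lit 0) (.ax 4 7 11 13 4), .t 1 (nat_lit 0) (.ax 4 7 11 13 5), .t 1 (nat_lit 0) (.ax 4 7 11 14 0), .t 1 (nat_lit 0) (.ax 4 7 11 14 1), .t 1 (nat_lit 0) (.ax 4 7 11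 14 4), .t 1 (nat_lit 0) (.ax 4 7 12 13 4), .t 1 (nat_lit 0) (.ax 4 7 12 14 1), .t 1 (nat_lit 0) (.ax 4 7 12 14 2), .t 1 (nat_lit 0) (.ax 4 7 12 14 3), .t 1 (nat_lit 0) (.ax 4 7 12 14 4), .t 1 (nat_lit 0) (.ax 4 7 12 14 5)] (by decide +kernel) (by decide +kernel)
theorem b54 : B 3456 3520 := Blk.of_chk [.t 1 (nat_lit 0) (.ax 4 7 12 14 6), .t 1 (nat_lit 0) (.ax 4 7 12 14 7), .t 1 (nat_lit 0) (.ax 4 7 13 14 5), .t 1 (nat_lit 0) (.ax 4 7 13 14 7), .t 1 (nat_lit 0) (.ax 4 8 9 10 1), .t 1 (nat_lit 0) (.ax 4 8 9 10 3), .t 1 (nat_lit 0) (.ax 4 8 9 10 4), .t 1 (nat_lit 0) (.ax 4 8 9 10 5), .t 1 (nat_lit 0) (.ax 4 8 9 11 1), .t 1 (nat_lit 0) (.ax 4 8 9 11 3), .t 1 (nat_lit 0) (.ax 4 8 9 11 4), .t 1 (nat_lit 0) (.ax 4 8 9 11 7), .t 1 (nat_lit 0) (.ax 4 8 9 12 0), .t 1 (nat_lit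 0) (.ax 4 8 9 12 1), .t 1 (nat_lit 0) (.ax 4 8 9 12 3), .t 1 (nat_lit 0) (.ax 4 8 9 12 5), .t 1 (nat_lit 0) (.ax 4 8 9 13 0), .t 1 (nat_lit 0) (.ax 4 8 9 13 1), .t 1 (nat_lit 0) (.ax 4 8 9 13 2), .t 1 (nat_lit 0) (.ax 4 8 9 13 3), .t 1 (nat_lit 0) (.ax 4 8 9 14 0), .t 1 (nat_lit 0) (.ax 4 8 9 14 1), .t 1 (nat_lit 0) (.ax 4 8 9 14 4), .t 1 (nat_lit 0) (.ax 4 8 9 14 7), .t 1 (nat_lit 0) (.ax 4 8 10 11 1), .t 1 (nat_lit 0) (.ax 4 8 10 11 4), .t 1 (nat_lit 0) (.ax 4 8 10 12 0), .t 1 (nat_lit 0) (.ax 4 8 10 12 1), .t 1 (nat_lit 0) (.ax 4 8 10 12 4), .t 1 (nat_lit 0) (.ax 4 8 10 13 0), .t 1 (nat_lit 0) (.ax 4 8 10 13 2), .t 1 (nat_lit 0) (.ax 4 8 10 14 0), .t 1 (nat_lit 0) (.ax 4 8 10 14 1), .t 1 (nat_lit 0) (.ax 4 8 10 14 3), .t 1 (nat_lit 0) (.ax 4 8 11 12 0), .t 1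 (nat_lit 0) (.ax 4 8 11 12 1), .t 1 (nat_lit 0) (.ax 4 8 11 12 3), .t 1 (nat_lit 0) (.ax 4 8 11 12 4), .t 1 (nat_lit 0) (.ax 4 8 11 13 0), .t 1 (nat_lit 0) (.ax 4 8 11 13 1), .t 1 (nat_lit 0) (.ax 4 8 11 14 0), .t 1 (nat_lit 0) (.ax 4 8 11 14 1), .t 1 (nat_lit 0) (.ax 4 8 11 14 3), .t 1 (nat_lit 0) (.ax 4 8 11 14 4), .t 1 (nat_lit 0) (.ax 4 8 12 13 4), .t 1 (nat_lit 0) (.ax 4 8 12 13 6), .t 1 (nat_lit 0) (.ax 4 8 12 14 1), .t 1 (nat_lit 0) (.ax 4 8 12 14 2), .t 1 (nat_lit 0) (.ax 4 8 12 14 3), .t 1 (nat_lit 0) (.ax 4 8 12 14 5), .t 1 (nat_lit 0) (.ax 4 8 12 14 6), .t 1 (nat_lit 0) (.ax 4 8 13 14 1), .t 1 (nat_lit 0) (.ax 4 8 13 14 3), .t 1 (nat_lit 0) (.ax 4 8 13 14 5), .t 1 (nat_lit 0) (.ax 4 9 10 11 1), .t 1 (nat_lit 0) (.ax 4 9 10 12 0), .t 1 (nat_lit 0) (.ax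 4 9 10 12 1), .t 1 (nat_lit 0) (.ax 4 9 10 12 4), .t 1 (nat_lit 0) (.ax 4 9 10 12 5), .t 1 (nat_lit 0) (.ax 4 9 10 13 0), .t 1 (nat_lit 0) (.ax 4 9 10 13 1), .t 1 (nat_lit 0) (.ax 4 9 10 13 5), .t 1 (nat_lit 0) (.ax 4 9 10 14 0), .t 1 (nat_lit 0) (.ax 4 9 10 14 1)] (by decide +kernel) (by decide +kernel)
theorem b55 : B 3520 3584 := Blk.of_chk [.t 1 (nat_lit 0) (.ax 4 9 10 14 4), .t 1 (nat_lit 0) (.ax 4 9 10 14 5), .t 1 (nat_lit 0) (.ax 4 9 11 12 0), .t 1 (nat_lit 0) (.ax 4 9 11 12 1), .t 1 (nat_lit 0) (.ax 4 9 11 12 3), .t 1 (nat_lit 0) (.ax 4 9 11 12 4), .t 1 (nat_lit 0) (.ax 4 9 11 12 5), .t 1 (nat_lit 0) (.ax 4 9 11 13 0), .t 1 (nat_lit 0) (.ax 4 9 11 13 1), .t 1 (nat_lit 0) (.ax 4 9 11 13 4), .t 1 (nat_lit 0) (.ax 4 9 11 13 5), .t 1 (nat_lit 0) (.ax 4 9 11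 14 0), .t 1 (nat_lit 0) (.ax 4 9 11 14 1), .t 1 (nat_lit 0) (.ax 4 9 11 14 2), .t 1 (nat_lit 0) (.ax 4 9 11 14 5), .t 1 (nat_lit 0) (.ax 4 9 12 13 1), .t 1 (nat_lit 0) (.ax 4 9 12 13 4), .t 1 (nat_lit 0) (.ax 4 9 12 13 6), .t 1 (nat_lit 0) (.ax 4 9 12 14 2), .t 1 (nat_lit 0) (.ax 4 9 12 14 3), .t 1 (nat_lit 0) (.ax 4 9 12 14 4), .t 1 (nat_lit 0) (.ax 4 9 12 14 5), .t 1 (nat_lit 0) (.ax 4 9 12 14 6), .t 1 (nat_lit 0) (.ax 4 9 13 14 0), .t 1 (nat_lit 0) (.ax 4 9 13 14 3), .t 1 (nat_lit 0) (.ax 4 9 13 14 5), .t 1 (nat_lit 0) (.ax 4 9 13 14 6), .t 1 (nat_lit 0) (.ax 4 10 11 12 0), .t 1 (nat_lit 0) (.ax 4 10 11 12 1), .t 1 (nat_lit 0) (.ax 4 10 11 12 3), .t 1 (nat_lit 0) (.ax 4 10 11 12 5), .t 1 (nat_lit 0) (.ax 4 10 11 13 0), .t 1 (nat_lit 0) (.ax 4 10 11 13 4), .t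 1 (nat_lit 0) (.ax 4 10 11 14 0), .t 1 (nat_lit 0) (.ax 4 10 11 14 1), .t 1 (nat_lit 0) (.ax 4 10 11 14 4), .t 1 (nat_lit 0) (.ax 4 10 11 14 5), .t 1 (nat_lit 0) (.ax 4 10 12 13 2), .t 1 (nat_lit 0) (.ax 4 10 12 13 4), .t 1 (nat_lit 0) (.ax 4 10 12 13 5), .t 1 (nat_lit 0) (.ax 4 10 12 13 6), .t 1 (nat_lit 0) (.ax 4 10 12 14 0), .t 1 (nat_lit 0) (.ax 4 10 12 14 4), .t 1 (nat_lit 0) (.ax 4 10 12 14 5), .t 1 (nat_lit 0) (.ax 4 10 12 14 7), .t 1 (nat_lit 0) (.ax 4 10 13 14 0), .t 1 (nat_lit 0) (.ax 4 10 13 14 3), .t 1 (nat_lit 0) (.ax 4 10 13 14 5), .t 1 (nat_lit 0) (.ax 4 11 12 13 0), .t 1 (nat_lit 0) (.ax 4 11 12 13 2), .t 1 (nat_lit 0) (.ax 4 11 12 13 4), .t 1 (nat_lit 0) (.ax 4 11 12 14 1), .t 1 (nat_lit 0) (.ax 4 11 12 14 2), .t 1 (nat_lit 0) (.ax 4 11 12 14 3),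 .t 1 (nat_lit 0) (.ax 4 11 12 14 4), .t 1 (nat_lit 0) (.ax 4 11 12 14 5), .t 1 (nat_lit 0) (.ax 4 11 13 14 0), .t 1 (nat_lit 0) (.ax 4 11 13 14 1), .t 1 (nat_lit 0) (.ax 4 11 13 14 4), .t 1 (nat_lit 0) (.ax 4 12 13 14 1), .t 1 (nat_lit 0) (.ax 4 12 13 14 3), .t 1 (nat_lit 0) (.ax 4 12 13 14 5), .t 1 (nat_lit 0) (.ax 5 6 7 8 0), .t 1 (nat_lit 0) (.ax 5 6 7 8 1)] (by decide +kernel) (by decide +kernel)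
theorem b56 : B 3584 3648 := Blk.of_chk [.t 1 (nat_lit 0) (.ax 5 6 7 8 2), .t 1 (nat_lit 0) (.ax 5 6 7 8 3), .t 1 (nat_lit 0) (.ax 5 6 7 8 4), .t 1 (nat_lit 0) (.ax 5 6 7 8 5), .t 1 (nat_lit 0) (.ax 5 6 7 8 6), .t 1 (nat_lit 0) (.ax 5 6 7 8 7), .t 1 (nat_lit 0) (.ax 5 6 7 9 0), .t 1 (nat_lit 0) (.ax 5 6 7 9 1), .t 1 (nat_lit 0) (.ax 5 6 7 9 2), .t 1 (nat_lit 0) (.ax 5 6 7 9 3), .t 1 (nat_lit 0) (.ax 5 6 7 9 4), .t 1 (nat_lit 0) (.ax 5 6 7 9 5), .t 1 (nat_lit 0) (.ax 5 6 7 9 7), .t 1 (nat_lit 0) (.ax 5 6 7 10 2), .t 1 (nat_lit 0) (.ax 5 6 7 10 3), .t 1 (nat_lit 0) (.ax 5 6 7 10 4), .t 1 (nat_lit 0) (.ax 5 6 7 11 2), .t 1 (nat_lit 0) (.ax 5 6 7 11 4), .t 1 (nat_lit 0) (.ax 5 6 7 11 5), .t 1 (nat_lit 0) (.ax 5 6 7 12 0), .t 1 (nat_lit 0) (.ax 5 6 7 12 1), .t 1 (nat_lit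 0) (.ax 5 6 7 12 3), .t 1 (nat_lit 0) (.ax 5 6 7 12 4), .t 1 (nat_lit 0) (.ax 5 6 7 12 5), .t 1 (nat_lit 0) (.ax 5 6 7 12 6), .t 1 (nat_lit 0) (.ax 5 6 7 12 7), .t 1 (nat_lit 0) (.ax 5 6 7 13 2), .t 1 (nat_lit 0) (.ax 5 6 7 13 3), .t 1 (nat_lit 0) (.ax 5 6 7 13 4), .t 1 (nat_lit 0) (.ax 5 6 7 13 6), .t 1 (nat_lit 0) (.ax 5 6 7 13 7), .t 1 (nat_lit 0) (.ax 5 6 7 14 2), .t 1 (nat_lit 0) (.ax 5 6 7 14 3), .t 1 (nat_lit 0) (.ax 5 6 7 14 7), .t 1 (nat_lit 0) (.ax 5 6 8 9 0), .t 1 (nat_lit 0) (.ax 5 6 8 9 1), .t 1 (nat_lit 0) (.ax 5 6 8 9 2), .t 1 (nat_lit 0) (.ax 5 6 8 9 3), .t 1 (nat_lit 0) (.ax 5 6 8 9 4), .t 1 (nat_lit 0) (.ax 5 6 8 9 5), .t 1 (nat_lit 0) (.ax 5 6 8 9 6), .t 1 (nat_lit 0) (.ax 5 6 8 10 2), .t 1 (nat_lit 0) (.ax 5 6 8 10 3), .t 1 (nat_lit 0) (.ax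 5 6 8 10 4), .t 1 (nat_lit 0) (.ax 5 6 8 10 5), .t 1 (nat_lit 0) (.ax 5 6 8 10 6), .t 1 (nat_lit 0) (.ax 5 6 8 11 2), .t 1 (nat_lit 0) (.ax 5 6 8 11 3), .t 1 (nat_lit 0) (.ax 5 6 8 11 4), .t 1 (nat_lit 0) (.ax 5 6 8 11 5), .t 1 (nat_lit 0) (.ax 5 6 8 11 6), .t 1 (nat_lit 0) (.ax 5 6 8 11 7), .t 1 (nat_lit 0) (.ax 5 6 8 12 0), .t 1 (nat_lit 0) (.ax 5 6 8 12 1), .t 1 (nat_lit 0) (.ax 5 6 8 12 2), .t 1 (nat_lit 0) (.ax 5 6 8 12 3), .t 1 (nat_lit 0) (.ax 5 6 8 12 6), .t 1 (nat_lit 0) (.ax 5 6 8 12 7), .t 1 (nat_lit 0) (.ax 5 6 8 13 2), .t 1 (nat_lit 0) (.ax 5 6 8 13 3), .t 1 (nat_lit 0) (.ax 5 6 8 13 4), .t 1 (nat_lit 0) (.ax 5 6 8 13 5), .t 1 (nat_lit 0) (.ax 5 6 8 13 6), .t 1 (nat_lit 0) (.ax 5 6 8 14 0)] (by decide +kernel) (by decide +kernel)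
theorem b57 : B 3648 3712 := Blk.of_chk [.t 1 (nat_lit 0) (.ax 5 6 8 14 2), .t 1 (nat_lit 0) (.ax 5 6 8 14 3), .t 1 (nat_lit 0) (.ax 5 6 8 14 5), .t 1 (nat_lit 0) (.ax 5 6 8 14 6), .t 1 (nat_lit 0) (.ax 5 6 8 14 7), .t 1 (nat_lit 0) (.ax 5 6 9 10 0), .t 1 (nat_lit 0) (.ax 5 6 9 10 4), .t 1 (nat_lit 0) (.ax 5 6 9 10 5), .t 1 (nat_lit 0) (.ax 5 6 9 11 1), .t 1 (nat_lit 0) (.ax 5 6 9 11 2), .t 1 (nat_lit 0) (.ax 5 6 9 11 3), .t 1 (nat_lit 0) (.ax 5 6 9 11 4), .t 1 (nat_lit 0) (.ax 5 6 9 11 5), .t 1 (nat_lit 0) (.ax 5 6 9 12 0), .t 1 (nat_lit 0) (.ax 5 6 9 12 1), .t 1 (nat_lit 0) (.ax 5 6 9 12 2), .t 1 (nat_lit 0) (.ax 5 6 9 12 3), .t 1 (nat_lit 0) (.ax 5 6 9 12 4), .t 1 (nat_lit 0) (.ax 5 6 9 12 5), .t 1 (nat_lit 0) (.ax 5 6 9 13 0), .t 1 (nat_lit 0) (.ax 5 6 9 13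 2), .t 1 (nat_lit 0) (.ax 5 6 9 13 3), .t 1 (nat_lit 0) (.ax 5 6 9 13 4), .t 1 (nat_lit 0) (.ax 5 6 9 13 6), .t 1 (nat_lit 0) (.ax 5 6 9 14 0), .t 1 (nat_lit 0) (.ax 5 6 9 14 1), .t 1 (nat_lit 0) (.ax 5 6 9 14 2), .t 1 (nat_lit 0) (.ax 5 6 9 14 3), .t 1 (nat_lit 0) (.ax 5 6 9 14 4), .t 1 (nat_lit 0) (.ax 5 6 10 11 0), .t 1 (nat_lit 0) (.ax 5 6 10 11 1), .t 1 (nat_lit 0) (.ax 5 6 10 11 4), .t 1 (nat_lit 0) (.ax 5 6 10 11 7), .t 1 (nat_lit 0) (.ax 5 6 10 12 0), .t 1 (nat_lit 0) (.ax 5 6 10 12 1), .t 1 (nat_lit 0) (.ax 5 6 10 12 4), .t 1 (nat_lit 0) (.ax 5 6 10 13 0), .t 1 (nat_lit 0) (.ax 5 6 10 13 1), .t 1 (nat_lit 0) (.ax 5 6 10 13 4), .t 1 (nat_lit 0) (.ax 5 6 10 14 0), .t 1 (nat_lit 0) (.ax 5 6 10 14 1), .t 1 (nat_lit 0) (.ax 5 6 10 14 4), .t 1 (nat_lit 0) (.ax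 5 6 11 12 0), .t 1 (nat_lit 0) (.ax 5 6 11 12 1), .t 1 (nat_lit 0) (.ax 5 6 11 12 3), .t 1 (nat_lit 0) (.ax 5 6 11 12 4), .t 1 (nat_lit 0) (.ax 5 6 11 12 6), .t 1 (nat_lit 0) (.ax 5 6 11 13 0), .t 1 (nat_lit 0) (.ax 5 6 11 13 3), .t 1 (nat_lit 0) (.ax 5 6 11 13 6), .t 1 (nat_lit 0) (.ax 5 6 11 14 0), .t 1 (nat_lit 0) (.ax 5 6 11 14 1), .t 1 (nat_lit 0) (.ax 5 6 11 14 2), .t 1 (nat_lit 0) (.ax 5 6 11 14 3), .t 1 (nat_lit 0) (.ax 5 6 11 14 4), .t 1 (nat_lit 0) (.ax 5 6 11 14 7), .t 1 (nat_lit 0) (.ax 5 6 12 13 1), .t 1 (nat_lit 0) (.ax 5 6 12 13 2), .t 1 (nat_lit 0) (.ax 5 6 12 13 4), .t 1 (nat_lit 0) (.ax 5 6 12 13 7), .t 1 (nat_lit 0) (.ax 5 6 12 14 0), .t 1 (nat_lit 0) (.ax 5 6 12 14 2), .t 1 (nat_lit 0) (.ax 5 6 12 14 3), .t 1 (nat_lit 0) (.ax 5 6 12 14 4)] (by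 decide +kernel) (by decide +kernel)
theorem b58 : B 3712 3776 := Blk.of_chk [.t 1 (nat_lit 0) (.ax 5 6 12 14 7), .t 1 (nat_lit 0) (.ax 5 6 13 14 0), .t 1 (nat_lit 0) (.ax 5 6 13 14 5), .t 1 (nat_lit 0) (.ax 5 7 8 9 0), .t 1 (nat_lit 0) (.ax 5 7 8 9 1), .t 1 (nat_lit 0) (.ax 5 7 8 9 2), .t 1 (nat_lit 0) (.ax 5 7 8 9 3), .t 1 (nat_lit 0) (.ax 5 7 8 9 4), .t 1 (nat_lit 0) (.ax 5 7 8 9 5), .t 1 (nat_lit 0) (.ax 5 7 8 9 6), .t 1 (nat_lit 0) (.ax 5 7 8 9 7), .t 1 (nat_lit 0) (.ax 5 7 8 10 0), .t 1 (nat_lit 0) (.ax 5 7 8 10 2), .t 1 (nat_lit 0) (.ax 5 7 8 10 4), .t 1 (nat_lit 0) (.ax 5 7 8 10 5), .t 1 (nat_lit 0) (.ax 5 7 8 10 6), .t 1 (nat_lit 0) (.ax 5 7 8 10 7), .t 1 (nat_lit 0) (.ax 5 7 8 11 2), .t 1 (nat_lit 0) (.ax 5 7 8 11 3), .t 1 (nat_lit 0) (.ax 5 7 8 11 4),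 .t 1 (nat_lit 0) (.ax 5 7 8 11 5), .t 1 (nat_lit 0) (.ax 5 7 8 11 6), .t 1 (nat_lit 0) (.ax 5 7 8 11 7), .t 1 (nat_lit 0) (.ax 5 7 8 12 0), .t 1 (nat_lit 0) (.ax 5 7 8 12 1), .t 1 (nat_lit 0) (.ax 5 7 8 12 2), .t 1 (nat_lit 0) (.ax 5 7 8 12 4), .t 1 (nat_lit 0) (.ax 5 7 8 12 6), .t 1 (nat_lit 0) (.ax 5 7 8 12 7), .t 1 (nat_lit 0) (.ax 5 7 8 13 2), .t 1 (nat_lit 0) (.ax 5 7 8 13 3), .t 1 (nat_lit 0) (.ax 5 7 8 13 4), .t 1 (nat_lit 0) (.ax 5 7 8 13 5), .t 1 (nat_lit 0) (.ax 5 7 8 13 6), .t 1 (nat_lit 0) (.ax 5 7 8 14 2), .t 1 (nat_lit 0) (.ax 5 7 8 14 3), .t 1 (nat_lit 0) (.ax 5 7 8 14 4), .t 1 (nat_lit 0) (.ax 5 7 8 14 5), .t 1 (nat_lit 0) (.ax 5 7 8 14 6), .t 1 (nat_lit 0) (.ax 5 7 9 10 0), .t 1 (nat_lit 0) (.ax 5 7 9 10 2), .t 1 (nat_lit 0) (.ax 5 7 9 10 4), .t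 1 (nat_lit 0) (.ax 5 7 9 10 7), .t 1 (nat_lit 0) (.ax 5 7 9 11 0), .t 1 (nat_lit 0) (.ax 5 7 9 11 3), .t 1 (nat_lit 0) (.ax 5 7 9 11 4), .t 1 (nat_lit 0) (.ax 5 7 9 11 5), .t 1 (nat_lit 0) (.ax 5 7 9 12 0), .t 1 (nat_lit 0) (.ax 5 7 9 12 1), .t 1 (nat_lit 0) (.ax 5 7 9 12 2), .t 1 (nat_lit 0) (.ax 5 7 9 12 3), .t 1 (nat_lit 0) (.ax 5 7 9 12 7), .t 1 (nat_lit 0) (.ax 5 7 9 13 0), .t 1 (nat_lit 0) (.ax 5 7 9 13 1), .t 1 (nat_lit 0) (.ax 5 7 9 13 2), .t 1 (nat_lit 0) (.ax 5 7 9 13 4), .t 1 (nat_lit 0) (.ax 5 7 9 13 5), .t 1 (nat_lit 0) (.ax 5 7 9 14 0), .t 1 (nat_lit 0) (.ax 5 7 9 14 2), .t 1 (nat_lit 0) (.ax 5 7 9 14 3), .t 1 (nat_lit 0) (.ax 5 7 9 14 6), .t 1 (nat_lit 0) (.ax 5 7 9 14 7), .t 1 (nat_lit 0) (.ax 5 7 10 11 0), .t 1 (nat_lit 0) (.ax 5 7 10 11 4)] (by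 decide +kernel) (by decide +kernel)
theorem b59 : B 3776 3840 := Blk.of_chk [.t 1 (nat_lit 0) (.ax 5 7 10 12 0), .t 1 (nat_lit 0) (.ax 5 7 10 12 1), .t 1 (nat_lit 0) (.ax 5 7 10 12 2), .t 1 (nat_lit 0) (.ax 5 7 10 13 0), .t 1 (nat_lit 0) (.ax 5 7 10 13 1), .t 1 (nat_lit 0) (.ax 5 7 10 13 2), .t 1 (nat_lit 0) (.ax 5 7 10 13 4), .t 1 (nat_lit 0) (.ax 5 7 10 14 0), .t 1 (nat_lit 0) (.ax 5 7 10 14 1), .t 1 (nat_lit 0) (.ax 5 7 10 14 2), .t 1 (nat_lit 0) (.ax 5 7 11 12 0), .t 1 (nat_lit 0) (.ax 5 7 11 12 1), .t 1 (nat_lit 0) (.ax 5 7 11 12 2), .t 1 (nat_lit 0) (.ax 5 7 11 13 0), .t 1 (nat_lit 0) (.ax 5 7 11 13 1), .t 1 (nat_lit 0) (.ax 5 7 11 13 2), .t 1 (nat_lit 0) (.ax 5 7 11 13 4), .t 1 (nat_lit 0) (.ax 5 7 11 14 0), .t 1 (nat_lit 0) (.ax 5 7 11 14 1), .t 1 (nat_lit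 0) (.ax 5 7 11 14 2), .t 1 (nat_lit 0) (.ax 5 7 11 14 6), .t 1 (nat_lit 0) (.ax 5 7 12 13 4), .t 1 (nat_lit 0) (.ax 5 7 12 13 6), .t 1 (nat_lit 0) (.ax 5 7 12 14 0), .t 1 (nat_lit 0) (.ax 5 7 12 14 2), .t 1 (nat_lit 0) (.ax 5 7 12 14 3), .t 1 (nat_lit 0) (.ax 5 7 12 14 4), .t 1 (nat_lit 0) (.ax 5 7 12 14 5), .t 1 (nat_lit 0) (.ax 5 7 13 14 0), .t 1 (nat_lit 0) (.ax 5 7 13 14 2), .t 1 (nat_lit 0) (.ax 5 7 13 14 5), .t 1 (nat_lit 0) (.ax 5 7 13 14 6), .t 1 (nat_lit 0) (.ax 5 8 9 10 0), .t 1 (nat_lit 0) (.ax 5 8 9 10 1), .t 1 (nat_lit 0) (.ax 5 8 9 10 3), .t 1 (nat_lit 0) (.ax 5 8 9 10 4), .t 1 (nat_lit 0) (.ax 5 8 9 10 5), .t 1 (nat_lit 0) (.ax 5 8 9 11 0), .t 1 (nat_lit 0) (.ax 5 8 9 11 1), .t 1 (nat_lit 0) (.ax 5 8 9 11 2), .t 1 (nat_lit 0) (.ax 5 8 9 11 3), .t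 1 (nat_lit 0) (.ax 5 8 9 11 4), .t 1 (nat_lit 0) (.ax 5 8 9 11 5), .t 1 (nat_lit 0) (.ax 5 8 9 11 6), .t 1 (nat_lit 0) (.ax 5 8 9 11 7), .t 1 (nat_lit 0) (.ax 5 8 9 12 0), .t 1 (nat_lit 0) (.ax 5 8 9 12 1), .t 1 (nat_lit 0) (.ax 5 8 9 12 3), .t 1 (nat_lit 0) (.ax 5 8 9 12 4), .t 1 (nat_lit 0) (.ax 5 8 9 12 5), .t 1 (nat_lit 0) (.ax 5 8 9 13 0), .t 1 (nat_lit 0) (.ax 5 8 9 13 1), .t 1 (nat_lit 0) (.ax 5 8 9 13 2), .t 1 (nat_lit 0) (.ax 5 8 9 13 6), .t 1 (nat_lit 0) (.ax 5 8 9 13 7), .t 1 (nat_lit 0) (.ax 5 8 9 14 0), .t 1 (nat_lit 0) (.ax 5 8 9 14 3), .t 1 (nat_lit 0) (.ax 5 8 9 14 4), .t 1 (nat_lit 0) (.ax 5 8 9 14 6), .t 1 (nat_lit 0) (.ax 5 8 10 11 0), .t 1 (nat_lit 0) (.ax 5 8 10 11 1), .t 1 (nat_lit 0) (.ax 5 8 10 11 3), .t 1 (nat_lit 0) (.ax 5 8 10 11 4),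 .t 1 (nat_lit 0) (.ax 5 8 10 11 5)] (by decide +kernel) (by decide +kernel)
theorem b60 : B 3840 3904 := Blk.of_chk [.t 1 (nat_lit 0) (.ax 5 8 10 12 0), .t 1 (nat_lit 0) (.ax 5 8 10 12 1), .t 1 (nat_lit 0) (.ax 5 8 10 12 4), .t 1 (nat_lit 0) (.ax 5 8 10 12 5), .t 1 (nat_lit 0) (.ax 5 8 10 13 0), .t 1 (nat_lit 0) (.ax 5 8 10 13 1), .t 1 (nat_lit 0) (.ax 5 8 10 13 2), .t 1 (nat_lit 0) (.ax 5 8 10 13 3), .t 1 (nat_lit 0) (.ax 5 8 10 13 4), .t 1 (nat_lit 0) (.ax 5 8 10 13 5), .t 1 (nat_lit 0) (.ax 5 8 10 13 6), .t 1 (nat_lit 0) (.ax 5 8 10 14 0), .t 1 (nat_lit 0) (.ax 5 8 10 14 1), .t 1 (nat_lit 0) (.ax 5 8 10 14 4), .t 1 (nat_lit 0) (.ax 5 8 10 14 5), .t 1 (nat_lit 0) (.ax 5 8 11 12 0), .t 1 (nat_lit 0) (.ax 5 8 11 12 1), .t 1 (nat_lit 0) (.ax 5 8 11 12 3), .t 1 (nat_lit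 0) (.ax 5 8 11 12 4), .t 1 (nat_lit 0) (.ax 5 8 11 12 5), .t 1 (nat_lit 0) (.ax 5 8 11 13 0), .t 1 (nat_lit 0) (.ax 5 8 11 13 1), .t 1 (nat_lit 0) (.ax 5 8 11 13 4), .t 1 (nat_lit 0) (.ax 5 8 11 13 5), .t 1 (nat_lit 0) (.ax 5 8 11 14 0), .t 1 (nat_lit 0) (.ax 5 8 11 14 1), .t 1 (nat_lit 0) (.ax 5 8 11 14 2), .t 1 (nat_lit 0) (.ax 5 8 11 14 3), .t 1 (nat_lit 0) (.ax 5 8 11 14 4), .t 1 (nat_lit 0) (.ax 5 8 12 13 0), .t 1 (nat_lit 0) (.ax 5 8 12 13 4), .t 1 (nat_lit 0) (.ax 5 8 12 13 6), .t 1 (nat_lit 0) (.ax 5 8 12 14 0), .t 1 (nat_lit 0) (.ax 5 8 12 14 2), .t 1 (nat_lit 0) (.ax 5 8 12 14 4), .t 1 (nat_lit 0) (.ax 5 8 12 14 5), .t 1 (nat_lit 0) (.ax 5 8 13 14 0), .t 1 (nat_lit 0) (.ax 5 8 13 14 5), .t 1 (nat_lit 0) (.ax 5 9 10 11 0), .t 1 (nat_lit 0) (.ax 5 9 10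 11 1), .t 1 (nat_lit 0) (.ax 5 9 10 11 2), .t 1 (nat_lit 0) (.ax 5 9 10 11 5), .t 1 (nat_lit 0) (.ax 5 9 10 12 0), .t 1 (nat_lit 0) (.ax 5 9 10 12 1), .t 1 (nat_lit 0) (.ax 5 9 10 12 3), .t 1 (nat_lit 0) (.ax 5 9 10 12 4), .t 1 (nat_lit 0) (.ax 5 9 10 13 0), .t 1 (nat_lit 0) (.ax 5 9 10 13 1), .t 1 (nat_lit 0) (.ax 5 9 10 13 4), .t 1 (nat_lit 0) (.ax 5 9 10 13 5), .t 1 (nat_lit 0) (.ax 5 9 10 14 0), .t 1 (nat_lit 0) (.ax 5 9 10 14 1), .t 1 (nat_lit 0) (.ax 5 9 10 14 3), .t 1 (nat_lit 0) (.ax 5 9 10 14 4), .t 1 (nat_lit 0) (.ax 5 9 10 14 5), .t 1 (nat_lit 0) (.ax 5 9 11 12 0), .t 1 (nat_lit 0) (.ax 5 9 11 12 1), .t 1 (nat_lit 0) (.ax 5 9 11 12 3), .t 1 (nat_lit 0) (.ax 5 9 11 12 4), .t 1 (nat_lit 0) (.ax 5 9 11 13 0), .t 1 (nat_lit 0) (.ax 5 9 11 13 4), .t 1 (nat_lit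 0) (.ax 5 9 11 13 5), .t 1 (nat_lit 0) (.ax 5 9 11 14 1), .t 1 (nat_lit 0) (.ax 5 9 11 14 2)] (by decide +kernel) (by decide +kernel)
theorem b61 : B 3904 3968 := Blk.of_chk [.t 1 (nat_lit 0) (.ax 5 9 11 14 3), .t 1 (nat_lit 0) (.ax 5 9 11 14 7), .t 1 (nat_lit 0) (.ax 5 9 12 13 0), .t 1 (nat_lit 0) (.ax 5 9 12 13 4), .t 1 (nat_lit 0) (.ax 5 9 12 13 6), .t 1 (nat_lit 0) (.ax 5 9 12 14 2), .t 1 (nat_lit 0) (.ax 5 9 12 14 3), .t 1 (nat_lit 0) (.ax 5 9 12 14 4), .t 1 (nat_lit 0) (.ax 5 9 12 14 5), .t 1 (nat_lit 0) (.ax 5 9 12 14 6), .t 1 (nat_lit 0) (.ax 5 9 13 14 0), .t 1 (nat_lit 0) (.ax 5 9 13 14 1), .t 1 (nat_lit 0) (.ax 5 9 13 14 5), .t 1 (nat_lit 0) (.ax 5 9 13 14 7), .t 1 (nat_lit 0) (.ax 5 10 11 12 0), .t 1 (nat_lit 0) (.ax 5 10 11 12 1), .t 1 (nat_lit 0) (.ax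 5 10 11 12 3), .t 1 (nat_lit 0) (.ax 5 10 11 12 4), .t 1 (nat_lit 0) (.ax 5 10 11 12 5), .t 1 (nat_lit 0) (.ax 5 10 11 13 0), .t 1 (nat_lit 0) (.ax 5 10 11 13 1), .t 1 (nat_lit 0) (.ax 5 10 11 13 3), .t 1 (nat_lit 0) (.ax 5 10 11 13 4), .t 1 (nat_lit 0) (.ax 5 10 11 13 5), .t 1 (nat_lit 0) (.ax 5 10 11 14 0), .t 1 (nat_lit 0) (.ax 5 10 11 14 1), .t 1 (nat_lit 0) (.ax 5 10 11 14 3), .t 1 (nat_lit 0) (.ax 5 10 11 14 4), .t 1 (nat_lit 0) (.ax 5 10 11 14 5), .t 1 (nat_lit 0) (.ax 5 10 12 13 4), .t 1 (nat_lit 0) (.ax 5 10 12 13 6), .t 1 (nat_lit 0) (.ax 5 10 12 14 0), .t 1 (nat_lit 0) (.ax 5 10 12 14 1), .t 1 (nat_lit 0) (.ax 5 10 12 14 2), .t 1 (nat_lit 0) (.ax 5 10 12 14 5), .t 1 (nat_lit 0) (.ax 5 10 12 14 6), .t 1 (nat_lit 0) (.ax 5 10 13 14 1), .t 1 (nat_lit 0)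 (.ax 5 10 13 14 2), .t 1 (nat_lit 0) (.ax 5 10 13 14 5), .t 1 (nat_lit 0) (.ax 5 11 12 13 0), .t 1 (nat_lit 0) (.ax 5 11 12 13 2), .t 1 (nat_lit 0) (.ax 5 11 12 13 4), .t 1 (nat_lit 0) (.ax 5 11 12 14 1), .t 1 (nat_lit 0) (.ax 5 11 12 14 2), .t 1 (nat_lit 0) (.ax 5 11 12 14 5), .t 1 (nat_lit 0) (.ax 5 11 13 14 1), .t 1 (nat_lit 0) (.ax 5 11 13 14 2), .t 1 (nat_lit 0) (.ax 5 11 13 14 5), .t 1 (nat_lit 0) (.ax 5 12 13 14 0), .t 1 (nat_lit 0) (.ax 5 12 13 14 1), .t 1 (nat_lit 0) (.ax 5 12 13 14 3), .t 1 (nat_lit 0) (.ax 5 12 13 14 5), .t 1 (nat_lit 0) (.ax 6 7 8 9 0), .t 1 (nat_lit 0) (.ax 6 7 8 9 2), .t 1 (nat_lit 0) (.ax 6 7 8 9 3), .t 1 (nat_lit 0) (.ax 6 7 8 9 4), .t 1 (nat_lit 0) (.ax 6 7 8 9 5), .t 1 (nat_lit 0) (.ax 6 7 8 9 6), .t 1 (nat_lit 0) (.ax 6 7 8 9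 7), .t 1 (nat_lit 0) (.ax 6 7 8 10 0), .t 1 (nat_lit 0) (.ax 6 7 8 10 2), .t 1 (nat_lit 0) (.ax 6 7 8 10 3), .t 1 (nat_lit 0) (.ax 6 7 8 10 4), .t 1 (nat_lit 0) (.ax 6 7 8 10 5)] (by decide +kernel) (by decide +kernel)
theorem b62 : B 3968 4032 := Blk.of_chk [.t 1 (nat_lit 0) (.ax 6 7 8 10 6), .t 1 (nat_lit 0) (.ax 6 7 8 10 7), .t 1 (nat_lit 0) (.ax 6 7 8 11 2), .t 1 (nat_lit 0) (.ax 6 7 8 11 3), .t 1 (nat_lit 0) (.ax 6 7 8 11 4), .t 1 (nat_lit 0) (.ax 6 7 8 11 5), .t 1 (nat_lit 0) (.ax 6 7 8 11 6), .t 1 (nat_lit 0) (.ax 6 7 8 12 0), .t 1 (nat_lit 0) (.ax 6 7 8 12 2), .t 1 (nat_lit 0) (.ax 6 7 8 12 3), .t 1 (nat_lit 0) (.ax 6 7 8 12 4), .t 1 (nat_lit 0) (.ax 6 7 8 12 5), .t 1 (nat_lit 0) (.ax 6 7 8 12 6), .t 1 (nat_lit 0) (.ax 6 7 8 12 7), .t 1 (nat_lit 0) (.ax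 6 7 8 13 0), .t 1 (nat_lit 0) (.ax 6 7 8 13 2), .t 1 (nat_lit 0) (.ax 6 7 8 13 3), .t 1 (nat_lit 0) (.ax 6 7 8 13 4), .t 1 (nat_lit 0) (.ax 6 7 8 13 5), .t 1 (nat_lit 0) (.ax 6 7 8 13 6), .t 1 (nat_lit 0) (.ax 6 7 8 13 7), .t 1 (nat_lit 0) (.ax 6 7 8 14 2), .t 1 (nat_lit 0) (.ax 6 7 8 14 3), .t 1 (nat_lit 0) (.ax 6 7 8 14 4), .t 1 (nat_lit 0) (.ax 6 7 8 14 5), .t 1 (nat_lit 0) (.ax 6 7 8 14 6), .t 1 (nat_lit 0) (.ax 6 7 8 14 7), .t 1 (nat_lit 0) (.ax 6 7 9 10 0), .t 1 (nat_lit 0) (.ax 6 7 9 10 2), .t 1 (nat_lit 0) (.ax 6 7 9 10 3), .t 1 (nat_lit 0) (.ax 6 7 9 10 4), .t 1 (nat_lit 0) (.ax 6 7 9 10 5), .t 1 (nat_lit 0) (.ax 6 7 9 10 7), .t 1 (nat_lit 0) (.ax 6 7 9 11 0), .t 1 (nat_lit 0) (.ax 6 7 9 11 2), .t 1 (nat_lit 0) (.ax 6 7 9 11 3), .t 1 (nat_lit 0) (.ax 6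 7 9 11 4), .t 1 (nat_lit 0) (.ax 6 7 9 11 5), .t 1 (nat_lit 0) (.ax 6 7 9 11 7), .t 1 (nat_lit 0) (.ax 6 7 9 12 0), .t 1 (nat_lit 0) (.ax 6 7 9 12 2), .t 1 (nat_lit 0) (.ax 6 7 9 12 3), .t 1 (nat_lit 0) (.ax 6 7 9 12 5), .t 1 (nat_lit 0) (.ax 6 7 9 12 6), .t 1 (nat_lit 0) (.ax 6 7 9 13 0), .t 1 (nat_lit 0) (.ax 6 7 9 13 1), .t 1 (nat_lit 0) (.ax 6 7 9 13 2), .t 1 (nat_lit 0) (.ax 6 7 9 13 4), .t 1 (nat_lit 0) (.ax 6 7 9 13 6), .t 1 (nat_lit 0) (.ax 6 7 9 13 7), .t 1 (nat_lit 0) (.ax 6 7 9 14 0), .t 1 (nat_lit 0) (.ax 6 7 9 14 2), .t 1 (nat_lit 0) (.ax 6 7 9 14 3), .t 1 (nat_lit 0) (.ax 6 7 9 14 4), .t 1 (nat_lit 0) (.ax 6 7 9 14 5), .t 1 (nat_lit 0) (.ax 6 7 9 14 6), .t 1 (nat_lit 0) (.ax 6 7 9 14 7), .t 1 (nat_lit 0) (.ax 6 7 10 11 0), .t 1 (nat_lit 0) (.ax 6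 7 10 11 2), .t 1 (nat_lit 0) (.ax 6 7 10 11 3), .t 1 (nat_lit 0) (.ax 6 7 10 12 0), .t 1 (nat_lit 0) (.ax 6 7 10 12 3), .t 1 (nat_lit 0) (.ax 6 7 10 12 4), .t 1 (nat_lit 0) (.ax 6 7 10 12 6)] (by decide +kernel) (by decide +kernel)
theorem b63 : B 4032 4096 := Blk.of_chk [.t 1 (nat_lit 0) (.ax 6 7 10 13 0), .t 1 (nat_lit 0) (.ax 6 7 10 13 4), .t 1 (nat_lit 0) (.ax 6 7 10 14 0), .t 1 (nat_lit 0) (.ax 6 7 10 14 2), .t 1 (nat_lit 0) (.ax 6 7 10 14 3), .t 1 (nat_lit 0) (.ax 6 7 10 14 4), .t 1 (nat_lit 0) (.ax 6 7 10 14 7), .t 1 (nat_lit 0) (.ax 6 7 11 12 0), .t 1 (nat_lit 0) (.ax 6 7 11 12 1), .t 1 (nat_lit 0) (.ax 6 7 11 12 2), .t 1 (nat_lit 0) (.ax 6 7 11 12 4), .t 1 (nat_lit 0) (.ax 6 7 11 13 0), .t 1 (nat_lit 0) (.ax 6 7 11 13 1), .t 1 (nat_lit 0) (.ax 6 7 11 13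 2), .t 1 (nat_lit 0) (.ax 6 7 11 13 4), .t 1 (nat_lit 0) (.ax 6 7 11 13 5), .t 1 (nat_lit 0) (.ax 6 7 11 13 6), .t 1 (nat_lit 0) (.ax 6 7 11 14 0), .t 1 (nat_lit 0) (.ax 6 7 11 14 1), .t 1 (nat_lit 0) (.ax 6 7 11 14 2), .t 1 (nat_lit 0) (.ax 6 7 11 14 4), .t 1 (nat_lit 0) (.ax 6 7 11 14 5), .t 1 (nat_lit 0) (.ax 6 7 11 14 6), .t 1 (nat_lit 0) (.ax 6 7 12 13 1), .t 1 (nat_lit 0) (.ax 6 7 12 13 4), .t 1 (nat_lit 0) (.ax 6 7 12 13 5), .t 1 (nat_lit 0) (.ax 6 7 12 14 0), .t 1 (nat_lit 0) (.ax 6 7 12 14 2), .t 1 (nat_lit 0) (.ax 6 7 12 14 3), .t 1 (nat_lit 0) (.ax 6 7 12 14 5), .t 1 (nat_lit 0) (.ax 6 7 12 14 6), .t 1 (nat_lit 0) (.ax 6 7 13 14 0), .t 1 (nat_lit 0) (.ax 6 7 13 14 2), .t 1 (nat_lit 0) (.ax 6 7 13 14 5), .t 1 (nat_lit 0) (.ax 6 8 9 10 0), .t 1 (nat_lit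 0) (.ax 6 8 9 10 1), .t 1 (nat_lit 0) (.ax 6 8 9 10 3), .t 1 (nat_lit 0) (.ax 6 8 9 10 4), .t 1 (nat_lit 0) (.ax 6 8 9 10 5), .t 1 (nat_lit 0) (.ax 6 8 9 10 7), .t 1 (nat_lit 0) (.ax 6 8 9 11 0), .t 1 (nat_lit 0) (.ax 6 8 9 11 1), .t 1 (nat_lit 0) (.ax 6 8 9 11 2), .t 1 (nat_lit 0) (.ax 6 8 9 11 3), .t 1 (nat_lit 0) (.ax 6 8 9 11 4), .t 1 (nat_lit 0) (.ax 6 8 9 11 5), .t 1 (nat_lit 0) (.ax 6 8 9 12 0), .t 1 (nat_lit 0) (.ax 6 8 9 12 1), .t 1 (nat_lit 0) (.ax 6 8 9 12 3), .t 1 (nat_lit 0) (.ax 6 8 9 12 4), .t 1 (nat_lit 0) (.ax 6 8 9 12 5), .t 1 (nat_lit 0) (.ax 6 8 9 12 6), .t 1 (nat_lit 0) (.ax 6 8 9 13 0), .t 1 (nat_lit 0) (.ax 6 8 9 13 1), .t 1 (nat_lit 0) (.ax 6 8 9 13 3), .t 1 (nat_lit 0) (.ax 6 8 9 13 4), .t 1 (nat_lit 0) (.ax 6 8 9 13 5), .t 1 (nat_lit 0)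 (.ax 6 8 9 14 0), .t 1 (nat_lit 0) (.ax 6 8 9 14 1), .t 1 (nat_lit 0) (.ax 6 8 9 14 2), .t 1 (nat_lit 0) (.ax 6 8 9 14 3), .t 1 (nat_lit 0) (.ax 6 8 9 14 4), .t 1 (nat_lit 0) (.ax 6 8 9 14 5), .t 1 (nat_lit 0) (.ax 6 8 9 14 6)] (by decide +kernel) (by decide +kernel)
theorem b64 : B 4096 4160 := Blk.of_chk [.t 1 (nat_lit 0) (.ax 6 8 10 11 0), .t 1 (nat_lit 0) (.ax 6 8 10 11 1), .t 1 (nat_lit 0) (.ax 6 8 10 11 3), .t 1 (nat_lit 0) (.ax 6 8 10 11 4), .t 1 (nat_lit 0) (.ax 6 8 10 11 5), .t 1 (nat_lit 0) (.ax 6 8 10 12 0), .t 1 (nat_lit 0) (.ax 6 8 10 12 1), .t 1 (nat_lit 0) (.ax 6 8 10 12 2), .t 1 (nat_lit 0) (.ax 6 8 10 12 4), .t 1 (nat_lit 0) (.ax 6 8 10 13 0), .t 1 (nat_lit 0) (.ax 6 8 10 13 1), .t 1 (nat_lit 0) (.ax 6 8 10 13 4), .t 1 (nat_lit 0) (.ax 6 8 10 13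 5), .t 1 (nat_lit 0) (.ax 6 8 10 14 0), .t 1 (nat_lit 0) (.ax 6 8 10 14 1), .t 1 (nat_lit 0) (.ax 6 8 10 14 4), .t 1 (nat_lit 0) (.ax 6 8 10 14 5), .t 1 (nat_lit 0) (.ax 6 8 11 12 0), .t 1 (nat_lit 0) (.ax 6 8 11 12 1), .t 1 (nat_lit 0) (.ax 6 8 11 12 3), .t 1 (nat_lit 0) (.ax 6 8 11 12 4), .t 1 (nat_lit 0) (.ax 6 8 11 13 0), .t 1 (nat_lit 0) (.ax 6 8 11 13 1), .t 1 (nat_lit 0) (.ax 6 8 11 13 3), .t 1 (nat_lit 0) (.ax 6 8 11 13 4), .t 1 (nat_lit 0) (.ax 6 8 11 13 5), .t 1 (nat_lit 0) (.ax 6 8 11 14 1), .t 1 (nat_lit 0) (.ax 6 8 11 14 2), .t 1 (nat_lit 0) (.ax 6 8 11 14 3), .t 1 (nat_lit 0) (.ax 6 8 11 14 4), .t 1 (nat_lit 0) (.ax 6 8 11 14 5), .t 1 (nat_lit 0) (.ax 6 8 11 14 6), .t 1 (nat_lit 0) (.ax 6 8 12 13 0), .t 1 (nat_lit 0) (.ax 6 8 12 13 4), .t 1 (nat_lit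 0) (.ax 6 8 12 13 6), .t 1 (nat_lit 0) (.ax 6 8 12 14 0), .t 1 (nat_lit 0) (.ax 6 8 12 14 3), .t 1 (nat_lit 0) (.ax 6 8 12 14 4), .t 1 (nat_lit 0) (.ax 6 8 12 14 5), .t 1 (nat_lit 0) (.ax 6 8 12 14 6), .t 1 (nat_lit 0) (.ax 6 8 12 14 7), .t 1 (nat_lit 0) (.ax 6 8 13 14 1), .t 1 (nat_lit 0) (.ax 6 8 13 14 2), .t 1 (nat_lit 0) (.ax 6 8 13 14 3), .t 1 (nat_lit 0) (.ax 6 8 13 14 5), .t 1 (nat_lit 0) (.ax 6 9 10 11 1), .t 1 (nat_lit 0) (.ax 6 9 10 11 2), .t 1 (nat_lit 0) (.ax 6 9 10 11 4), .t 1 (nat_lit 0) (.ax 6 9 10 11 7), .t 1 (nat_lit 0) (.ax 6 9 10 12 0), .t 1 (nat_lit 0) (.ax 6 9 10 12 1), .t 1 (nat_lit 0) (.ax 6 9 10 12 4), .t 1 (nat_lit 0) (.ax 6 9 10 13 0), .t 1 (nat_lit 0) (.ax 6 9 10 13 1), .t 1 (nat_lit 0) (.ax 6 9 10 13 5), .t 1 (nat_lit 0) (.ax 6 9 10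 14 0), .t 1 (nat_lit 0) (.ax 6 9 10 14 1), .t 1 (nat_lit 0) (.ax 6 9 10 14 6), .t 1 (nat_lit 0) (.ax 6 9 11 12 0), .t 1 (nat_lit 0) (.ax 6 9 11 12 1), .t 1 (nat_lit 0) (.ax 6 9 11 12 3), .t 1 (nat_lit 0) (.ax 6 9 11 12 4), .t 1 (nat_lit 0) (.ax 6 9 11 13 0), .t 1 (nat_lit 0) (.ax 6 9 11 13 1)] (by decide +kernel) (by decide +kernel)
theorem b65 : B 4160 4224 := Blk.of_chk [.t 1 (nat_lit 0) (.ax 6 9 11 13 4), .t 1 (nat_lit 0) (.ax 6 9 11 13 5), .t 1 (nat_lit 0) (.ax 6 9 11 14 0), .t 1 (nat_lit 0) (.ax 6 9 11 14 1), .t 1 (nat_lit 0) (.ax 6 9 11 14 4), .t 1 (nat_lit 0) (.ax 6 9 11 14 7), .t 1 (nat_lit 0) (.ax 6 9 12 13 0), .t 1 (nat_lit 0) (.ax 6 9 12 13 3), .t 1 (nat_lit 0) (.ax 6 9 12 13 4), .t 1 (nat_lit 0) (.ax 6 9 12 13 6), .t 1 (nat_lit 0) (.ax 6 9 12 14 0),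 .t 1 (nat_lit 0) (.ax 6 9 12 14 1), .t 1 (nat_lit 0) (.ax 6 9 12 14 2), .t 1 (nat_lit 0) (.ax 6 9 12 14 3), .t 1 (nat_lit 0) (.ax 6 9 12 14 4), .t 1 (nat_lit 0) (.ax 6 9 12 14 5), .t 1 (nat_lit 0) (.ax 6 9 13 14 0), .t 1 (nat_lit 0) (.ax 6 9 13 14 5), .t 1 (nat_lit 0) (.ax 6 9 13 14 7), .t 1 (nat_lit 0) (.ax 6 10 11 12 0), .t 1 (nat_lit 0) (.ax 6 10 11 12 1), .t 1 (nat_lit 0) (.ax 6 10 11 12 3), .t 1 (nat_lit 0) (.ax 6 10 11 12 4), .t 1 (nat_lit 0) (.ax 6 10 11 12 6), .t 1 (nat_lit 0) (.ax 6 10 11 13 0), .t 1 (nat_lit 0) (.ax 6 10 11 13 1), .t 1 (nat_lit 0) (.ax 6 10 11 13 4), .t 1 (nat_lit 0) (.ax 6 10 11 13 5), .t 1 (nat_lit 0) (.ax 6 10 11 13 6), .t 1 (nat_lit 0) (.ax 6 10 11 14 1), .t 1 (nat_lit 0) (.ax 6 10 11 14 2), .t 1 (nat_lit 0) (.ax 6 10 11 14 3), .t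 1 (nat_lit 0) (.ax 6 10 11 14 4), .t 1 (nat_lit 0) (.ax 6 10 11 14 5), .t 1 (nat_lit 0) (.ax 6 10 12 13 2), .t 1 (nat_lit 0) (.ax 6 10 12 13 4), .t 1 (nat_lit 0) (.ax 6 10 12 14 1), .t 1 (nat_lit 0) (.ax 6 10 12 14 2), .t 1 (nat_lit 0) (.ax 6 10 12 14 5), .t 1 (nat_lit 0) (.ax 6 10 12 14 6), .t 1 (nat_lit 0) (.ax 6 10 13 14 1), .t 1 (nat_lit 0) (.ax 6 10 13 14 2), .t 1 (nat_lit 0) (.ax 6 10 13 14 5), .t 1 (nat_lit 0) (.ax 6 11 12 13 0), .t 1 (nat_lit 0) (.ax 6 11 12 13 2), .t 1 (nat_lit 0) (.ax 6 11 12 13 4), .t 1 (nat_lit 0) (.ax 6 11 12 14 0), .t 1 (nat_lit 0) (.ax 6 11 12 14 1), .t 1 (nat_lit 0) (.ax 6 11 12 14 2), .t 1 (nat_lit 0) (.ax 6 11 12 14 3), .t 1 (nat_lit 0) (.ax 6 11 12 14 5), .t 1 (nat_lit 0) (.ax 6 11 13 14 1), .t 1 (nat_lit 0) (.ax 6 11 13 14 2),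 .t 1 (nat_lit 0) (.ax 6 11 13 14 5), .t 1 (nat_lit 0) (.ax 6 12 13 14 0), .t 1 (nat_lit 0) (.ax 6 12 13 14 1), .t 1 (nat_lit 0) (.ax 6 12 13 14 5), .t 1 (nat_lit 0) (.ax 7 8 9 10 0), .t 1 (nat_lit 0) (.ax 7 8 9 10 1), .t 1 (nat_lit 0) (.ax 7 8 9 10 2), .t 1 (nat_lit 0) (.ax 7 8 9 10 3), .t 1 (nat_lit 0) (.ax 7 8 9 10 4), .t 1 (nat_lit 0) (.ax 7 8 9 10 5), .t 1 (nat_lit 0) (.ax 7 8 9 10 6)] (by decide +kernel) (by decide +kernel)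
theorem b66 : B 4224 4288 := Blk.of_chk [.t 1 (nat_lit 0) (.ax 7 8 9 11 0), .t 1 (nat_lit 0) (.ax 7 8 9 11 1), .t 1 (nat_lit 0) (.ax 7 8 9 11 2), .t 1 (nat_lit 0) (.ax 7 8 9 11 3), .t 1 (nat_lit 0) (.ax 7 8 9 11 4), .t 1 (nat_lit 0) (.ax 7 8 9 11 5), .t 1 (nat_lit 0) (.ax 7 8 9 12 0), .t 1 (nat_lit 0) (.ax 7 8 9 12 1), .t 1 (nat_lit 0) (.ax 7 8 9 12 3), .t 1 (nat_lit 0) (.ax 7 8 9 12 4), .t 1 (nat_lit 0) (.ax 7 8 9 12 5), .t 1 (nat_lit 0) (.ax 7 8 9 13 0), .t 1 (nat_lit 0) (.ax 7 8 9 13 1), .t 1 (nat_lit 0) (.ax 7 8 9 13 2), .t 1 (nat_lit 0) (.ax 7 8 9 13 3), .t 1 (nat_lit 0) (.ax 7 8 9 13 4), .t 1 (nat_lit 0) (.ax 7 8 9 13 5), .t 1 (nat_lit 0) (.ax 7 8 9 13 6), .t 1 (nat_lit 0) (.ax 7 8 9 13 7), .t 1 (nat_lit 0) (.ax 7 8 9 14 0), .t 1 (nat_lit 0) (.ax 7 8 9 14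 1), .t 1 (nat_lit 0) (.ax 7 8 9 14 2), .t 1 (nat_lit 0) (.ax 7 8 9 14 3), .t 1 (nat_lit 0) (.ax 7 8 9 14 4), .t 1 (nat_lit 0) (.ax 7 8 9 14 5), .t 1 (nat_lit 0) (.ax 7 8 10 11 0), .t 1 (nat_lit 0) (.ax 7 8 10 11 1), .t 1 (nat_lit 0) (.ax 7 8 10 11 2), .t 1 (nat_lit 0) (.ax 7 8 10 11 3), .t 1 (nat_lit 0) (.ax 7 8 10 11 4), .t 1 (nat_lit 0) (.ax 7 8 10 11 5), .t 1 (nat_lit 0) (.ax 7 8 10 11 6), .t 1 (nat_lit 0) (.ax 7 8 10 11 7), .t 1 (nat_lit 0) (.ax 7 8 10 12 0), .t 1 (nat_lit 0) (.ax 7 8 10 12 1), .t 1 (nat_lit 0) (.ax 7 8 10 12 2), .t 1 (nat_lit 0) (.ax 7 8 10 12 3), .t 1 (nat_lit 0) (.ax 7 8 10 12 4), .t 1 (nat_lit 0) (.ax 7 8 10 12 5), .t 1 (nat_lit 0) (.ax 7 8 10 13 0), .t 1 (nat_lit 0) (.ax 7 8 10 13 1), .t 1 (nat_lit 0) (.ax 7 8 10 13 2), .t 1 (nat_lit 0)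 (.ax 7 8 10 13 3), .t 1 (nat_lit 0) (.ax 7 8 10 13 4), .t 1 (nat_lit 0) (.ax 7 8 10 13 5), .t 1 (nat_lit 0) (.ax 7 8 10 13 7), .t 1 (nat_lit 0) (.ax 7 8 10 14 0), .t 1 (nat_lit 0) (.ax 7 8 10 14 1), .t 1 (nat_lit 0) (.ax 7 8 10 14 2), .t 1 (nat_lit 0) (.ax 7 8 10 14 4), .t 1 (nat_lit 0) (.ax 7 8 10 14 5), .t 1 (nat_lit 0) (.ax 7 8 10 14 7), .t 1 (nat_lit 0) (.ax 7 8 11 12 0), .t 1 (nat_lit 0) (.ax 7 8 11 12 1), .t 1 (nat_lit 0) (.ax 7 8 11 12 2), .t 1 (nat_lit 0) (.ax 7 8 11 12 3), .t 1 (nat_lit 0) (.ax 7 8 11 12 4), .t 1 (nat_lit 0) (.ax 7 8 11 12 5), .t 1 (nat_lit 0) (.ax 7 8 11 12 6), .t 1 (nat_lit 0) (.ax 7 8 11 13 0), .t 1 (nat_lit 0) (.ax 7 8 11 13 1), .t 1 (nat_lit 0) (.ax 7 8 11 13 3), .t 1 (nat_lit 0) (.ax 7 8 11 13 4), .t 1 (nat_lit 0) (.ax 7 8 11 13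 5)] (by decide +kernel) (by decide +kernel)
theorem b67 : B 4288 4352 := Blk.of_chk [.t 1 (nat_lit 0) (.ax 7 8 11 13 6), .t 1 (nat_lit 0) (.ax 7 8 11 14 0), .t 1 (nat_lit 0) (.ax 7 8 11 14 1), .t 1 (nat_lit 0) (.ax 7 8 11 14 3), .t 1 (nat_lit 0) (.ax 7 8 11 14 4), .t 1 (nat_lit 0) (.ax 7 8 11 14 6), .t 1 (nat_lit 0) (.ax 7 8 12 13 0), .t 1 (nat_lit 0) (.ax 7 8 12 13 2), .t 1 (nat_lit 0) (.ax 7 8 12 13 4), .t 1 (nat_lit 0) (.ax 7 8 12 14 0), .t 1 (nat_lit 0) (.ax 7 8 12 14 1), .t 1 (nat_lit 0) (.ax 7 8 12 14 2), .t 1 (nat_lit 0) (.ax 7 8 12 14 3), .t 1 (nat_lit 0) (.ax 7 8 12 14 4), .t 1 (nat_lit 0) (.ax 7 8 12 14 5), .t 1 (nat_lit 0) (.ax 7 8 12 14 7), .t 1 (nat_lit 0) (.ax 7 8 13 14 0), .t 1 (nat_lit 0) (.ax 7 8 13 14 1), .t 1 (nat_lit 0) (.ax 7 8 13 14 2), .t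 1 (nat_lit 0) (.ax 7 8 13 14 3), .t 1 (nat_lit 0) (.ax 7 8 13 14 4), .t 1 (nat_lit 0) (.ax 7 8 13 14 5), .t 1 (nat_lit 0) (.ax 7 8 13 14 7), .t 1 (nat_lit 0) (.ax 7 9 10 11 0), .t 1 (nat_lit 0) (.ax 7 9 10 11 1), .t 1 (nat_lit 0) (.ax 7 9 10 11 3), .t 1 (nat_lit 0) (.ax 7 9 10 11 4), .t 1 (nat_lit 0) (.ax 7 9 10 11 5), .t 1 (nat_lit 0) (.ax 7 9 10 12 0), .t 1 (nat_lit 0) (.ax 7 9 10 12 1), .t 1 (nat_lit 0) (.ax 7 9 10 12 2), .t 1 (nat_lit 0) (.ax 7 9 10 12 4), .t 1 (nat_lit 0) (.ax 7 9 10 12 5), .t 1 (nat_lit 0) (.ax 7 9 10 13 0), .t 1 (nat_lit 0) (.ax 7 9 10 13 1), .t 1 (nat_lit 0) (.ax 7 9 10 13 3), .t 1 (nat_lit 0) (.ax 7 9 10 13 4), .t 1 (nat_lit 0) (.ax 7 9 10 13 5), .t 1 (nat_lit 0) (.ax 7 9 10 14 0), .t 1 (nat_lit 0) (.ax 7 9 10 14 1), .t 1 (nat_lit 0) (.ax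 7 9 10 14 4), .t 1 (nat_lit 0) (.ax 7 9 11 12 0), .t 1 (nat_lit 0) (.ax 7 9 11 12 1), .t 1 (nat_lit 0) (.ax 7 9 11 12 3), .t 1 (nat_lit 0) (.ax 7 9 11 12 4), .t 1 (nat_lit 0) (.ax 7 9 11 12 5), .t 1 (nat_lit 0) (.ax 7 9 11 12 6), .t 1 (nat_lit 0) (.ax 7 9 11 13 0), .t 1 (nat_lit 0) (.ax 7 9 11 13 1), .t 1 (nat_lit 0) (.ax 7 9 11 13 4), .t 1 (nat_lit 0) (.ax 7 9 11 13 5), .t 1 (nat_lit 0) (.ax 7 9 11 13 6), .t 1 (nat_lit 0) (.ax 7 9 11 14 1), .t 1 (nat_lit 0) (.ax 7 9 11 14 2), .t 1 (nat_lit 0) (.ax 7 9 11 14 3), .t 1 (nat_lit 0) (.ax 7 9 11 14 4), .t 1 (nat_lit 0) (.ax 7 9 11 14 5), .t 1 (nat_lit 0) (.ax 7 9 11 14 7), .t 1 (nat_lit 0) (.ax 7 9 12 13 0), .t 1 (nat_lit 0) (.ax 7 9 12 13 1), .t 1 (nat_lit 0) (.ax 7 9 12 13 2), .t 1 (nat_lit 0) (.ax 7 9 12 13 4), .t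 1 (nat_lit 0) (.ax 7 9 12 14 1), .t 1 (nat_lit 0) (.ax 7 9 12 14 2)] (by decide +kernel) (by decide +kernel)
theorem b68 : B 4352 4416 := Blk.of_chk [.t 1 (nat_lit 0) (.ax 7 9 12 14 3), .t 1 (nat_lit 0) (.ax 7 9 12 14 4), .t 1 (nat_lit 0) (.ax 7 9 12 14 5), .t 1 (nat_lit 0) (.ax 7 9 12 14 6), .t 1 (nat_lit 0) (.ax 7 9 12 14 7), .t 1 (nat_lit 0) (.ax 7 9 13 14 0), .t 1 (nat_lit 0) (.ax 7 9 13 14 2), .t 1 (nat_lit 0) (.ax 7 9 13 14 3), .t 1 (nat_lit 0) (.ax 7 9 13 14 4), .t 1 (nat_lit 0) (.ax 7 9 13 14 5), .t 1 (nat_lit 0) (.ax 7 10 11 12 0), .t 1 (nat_lit 0) (.ax 7 10 11 12 1), .t 1 (nat_lit 0) (.ax 7 10 11 12 2), .t 1 (nat_lit 0) (.ax 7 10 11 12 3), .t 1 (nat_lit 0) (.ax 7 10 11 12 4), .t 1 (nat_lit 0) (.ax 7 10 11 12 5), .t 1 (nat_lit 0) (.ax 7 10 11 13 0), .t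 1 (nat_lit 0) (.ax 7 10 11 13 2), .t 1 (nat_lit 0) (.ax 7 10 11 13 4), .t 1 (nat_lit 0) (.ax 7 10 11 13 5), .t 1 (nat_lit 0) (.ax 7 10 11 13 6), .t 1 (nat_lit 0) (.ax 7 10 11 14 0), .t 1 (nat_lit 0) (.ax 7 10 11 14 1), .t 1 (nat_lit 0) (.ax 7 10 11 14 2), .t 1 (nat_lit 0) (.ax 7 10 11 14 3), .t 1 (nat_lit 0) (.ax 7 10 11 14 4), .t 1 (nat_lit 0) (.ax 7 10 11 14 5), .t 1 (nat_lit 0) (.ax 7 10 11 14 7), .t 1 (nat_lit 0) (.ax 7 10 12 13 0), .t 1 (nat_lit 0) (.ax 7 10 12 13 1), .t 1 (nat_lit 0) (.ax 7 10 12 13 4), .t 1 (nat_lit 0) (.ax 7 10 12 13 6), .t 1 (nat_lit 0) (.ax 7 10 12 14 0), .t 1 (nat_lit 0) (.ax 7 10 12 14 1), .t 1 (nat_lit 0) (.ax 7 10 12 14 2), .t 1 (nat_lit 0) (.ax 7 10 12 14 3), .t 1 (nat_lit 0) (.ax 7 10 12 14 4), .t 1 (nat_lit 0) (.ax 7 10 12 14 5),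 .t 1 (nat_lit 0) (.ax 7 10 13 14 0), .t 1 (nat_lit 0) (.ax 7 10 13 14 1), .t 1 (nat_lit 0) (.ax 7 10 13 14 3), .t 1 (nat_lit 0) (.ax 7 10 13 14 5), .t 1 (nat_lit 0) (.ax 7 11 12 13 0), .t 1 (nat_lit 0) (.ax 7 11 12 13 1), .t 1 (nat_lit 0) (.ax 7 11 12 13 2), .t 1 (nat_lit 0) (.ax 7 11 12 13 4), .t 1 (nat_lit 0) (.ax 7 11 12 14 1), .t 1 (nat_lit 0) (.ax 7 11 12 14 3), .t 1 (nat_lit 0) (.ax 7 11 12 14 5), .t 1 (nat_lit 0) (.ax 7 11 13 14 1), .t 1 (nat_lit 0) (.ax 7 11 13 14 2), .t 1 (nat_lit 0) (.ax 7 11 13 14 5), .t 1 (nat_lit 0) (.ax 7 12 13 14 0), .t 1 (nat_lit 0) (.ax 7 12 13 14 1), .t 1 (nat_lit 0) (.ax 7 12 13 14 5), .t 1 (nat_lit 0) (.ax 8 9 10 11 0), .t 1 (nat_lit 0) (.ax 8 9 10 11 1), .t 1 (nat_lit 0) (.ax 8 9 10 11 2), .t 1 (nat_lit 0) (.ax 8 9 10 11 3),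 .t 1 (nat_lit 0) (.ax 8 9 10 11 4), .t 1 (nat_lit 0) (.ax 8 9 10 11 5), .t 1 (nat_lit 0) (.ax 8 9 10 11 7), .t 1 (nat_lit 0) (.ax 8 9 10 12 0), .t 1 (nat_lit 0) (.ax 8 9 10 12 1)] (by decide +kernel) (by decide +kernel)
theorem b69 : B 4416 4480 := Blk.of_chk [.t 1 (nat_lit 0) (.ax 8 9 10 12 3), .t 1 (nat_lit 0) (.ax 8 9 10 12 4), .t 1 (nat_lit 0) (.ax 8 9 10 12 5), .t 1 (nat_lit 0) (.ax 8 9 10 12 7), .t 1 (nat_lit 0) (.ax 8 9 10 13 0), .t 1 (nat_lit 0) (.ax 8 9 10 13 1), .t 1 (nat_lit 0) (.ax 8 9 10 13 2), .t 1 (nat_lit 0) (.ax 8 9 10 13 4), .t 1 (nat_lit 0) (.ax 8 9 10 13 5), .t 1 (nat_lit 0) (.ax 8 9 10 13 6), .t 1 (nat_lit 0) (.ax 8 9 10 13 7), .t 1 (nat_lit 0) (.ax 8 9 10 14 0), .t 1 (nat_lit 0) (.ax 8 9 10 14 1), .t 1 (nat_lit 0) (.ax 8 9 10 14 2), .t 1 (nat_lit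 0) (.ax 8 9 10 14 3), .t 1 (nat_lit 0) (.ax 8 9 10 14 4), .t 1 (nat_lit 0) (.ax 8 9 10 14 5), .t 1 (nat_lit 0) (.ax 8 9 10 14 7), .t 1 (nat_lit 0) (.ax 8 9 11 12 0), .t 1 (nat_lit 0) (.ax 8 9 11 12 1), .t 1 (nat_lit 0) (.ax 8 9 11 12 2), .t 1 (nat_lit 0) (.ax 8 9 11 12 3), .t 1 (nat_lit 0) (.ax 8 9 11 12 4), .t 1 (nat_lit 0) (.ax 8 9 11 12 5), .t 1 (nat_lit 0) (.ax 8 9 11 13 0), .t 1 (nat_lit 0) (.ax 8 9 11 13 1), .t 1 (nat_lit 0) (.ax 8 9 11 13 2), .t 1 (nat_lit 0) (.ax 8 9 11 13 3), .t 1 (nat_lit 0) (.ax 8 9 11 13 4), .t 1 (nat_lit 0) (.ax 8 9 11 13 6), .t 1 (nat_lit 0) (.ax 8 9 11 14 0), .t 1 (nat_lit 0) (.ax 8 9 11 14 1), .t 1 (nat_lit 0) (.ax 8 9 11 14 3), .t 1 (nat_lit 0) (.ax 8 9 11 14 4), .t 1 (nat_lit 0) (.ax 8 9 11 14 5), .t 1 (nat_lit 0) (.ax 8 9 11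 14 7), .t 1 (nat_lit 0) (.ax 8 9 12 13 0), .t 1 (nat_lit 0) (.ax 8 9 12 13 1), .t 1 (nat_lit 0) (.ax 8 9 12 13 2), .t 1 (nat_lit 0) (.ax 8 9 12 13 4), .t 1 (nat_lit 0) (.ax 8 9 12 13 6), .t 1 (nat_lit 0) (.ax 8 9 12 14 0), .t 1 (nat_lit 0) (.ax 8 9 12 14 1), .t 1 (nat_lit 0) (.ax 8 9 12 14 2), .t 1 (nat_lit 0) (.ax 8 9 12 14 3), .t 1 (nat_lit 0) (.ax 8 9 12 14 4), .t 1 (nat_lit 0) (.ax 8 9 12 14 5), .t 1 (nat_lit 0) (.ax 8 9 12 14 6), .t 1 (nat_lit 0) (.ax 8 9 12 14 7), .t 1 (nat_lit 0) (.ax 8 9 13 14 0), .t 1 (nat_lit 0) (.ax 8 9 13 14 1), .t 1 (nat_lit 0) (.ax 8 9 13 14 2), .t 1 (nat_lit 0) (.ax 8 9 13 14 3), .t 1 (nat_lit 0) (.ax 8 9 13 14 4), .t 1 (nat_lit 0) (.ax 8 9 13 14 5), .t 1 (nat_lit 0) (.ax 8 9 13 14 6), .t 1 (nat_lit 0) (.ax 8 9 13 14 7), .t 1 (nat_lit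 0) (.ax 8 10 11 12 0), .t 1 (nat_lit 0) (.ax 8 10 11 12 1), .t 1 (nat_lit 0) (.ax 8 10 11 12 2), .t 1 (nat_lit 0) (.ax 8 10 11 12 3), .t 1 (nat_lit 0) (.ax 8 10 11 12 4), .t 1 (nat_lit 0) (.ax 8 10 11 12 5), .t 1 (nat_lit 0) (.ax 8 10 11 12 6)] (by decide +kernel) (by decide +kernel)
theorem b70 : B 4480 4544 := Blk.of_chk [.t 1 (nat_lit 0) (.ax 8 10 11 13 0), .t 1 (nat_lit 0) (.ax 8 10 11 13 1), .t 1 (nat_lit 0) (.ax 8 10 11 13 2), .t 1 (nat_lit 0) (.ax 8 10 11 13 4), .t 1 (nat_lit 0) (.ax 8 10 11 13 5), .t 1 (nat_lit 0) (.ax 8 10 11 13 7), .t 1 (nat_lit 0) (.ax 8 10 11 14 0), .t 1 (nat_lit 0) (.ax 8 10 11 14 1), .t 1 (nat_lit 0) (.ax 8 10 11 14 3), .t 1 (nat_lit 0) (.ax 8 10 11 14 4), .t 1 (nat_lit 0) (.ax 8 10 11 14 7), .t 1 (nat_lit 0) (.ax 8 10 12 13 1), .t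 1 (nat_lit 0) (.ax 8 10 12 13 2), .t 1 (nat_lit 0) (.ax 8 10 12 13 4), .t 1 (nat_lit 0) (.ax 8 10 12 13 6), .t 1 (nat_lit 0) (.ax 8 10 12 14 0), .t 1 (nat_lit 0) (.ax 8 10 12 14 1), .t 1 (nat_lit 0) (.ax 8 10 12 14 2), .t 1 (nat_lit 0) (.ax 8 10 12 14 3), .t 1 (nat_lit 0) (.ax 8 10 12 14 4), .t 1 (nat_lit 0) (.ax 8 10 12 14 5), .t 1 (nat_lit 0) (.ax 8 10 13 14 0), .t 1 (nat_lit 0) (.ax 8 10 13 14 1), .t 1 (nat_lit 0) (.ax 8 10 13 14 2), .t 1 (nat_lit 0) (.ax 8 10 13 14 3), .t 1 (nat_lit 0) (.ax 8 10 13 14 4), .t 1 (nat_lit 0) (.ax 8 10 13 14 5), .t 1 (nat_lit 0) (.ax 8 11 12 13 0), .t 1 (nat_lit 0) (.ax 8 11 12 13 1), .t 1 (nat_lit 0) (.ax 8 11 12 13 2), .t 1 (nat_lit 0) (.ax 8 11 12 13 4), .t 1 (nat_lit 0) (.ax 8 11 12 14 1), .t 1 (nat_lit 0) (.ax 8 11 12 14 2),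 .t 1 (nat_lit 0) (.ax 8 11 12 14 3), .t 1 (nat_lit 0) (.ax 8 11 12 14 4), .t 1 (nat_lit 0) (.ax 8 11 12 14 5), .t 1 (nat_lit 0) (.ax 8 11 13 14 1), .t 1 (nat_lit 0) (.ax 8 11 13 14 2), .t 1 (nat_lit 0) (.ax 8 11 13 14 4), .t 1 (nat_lit 0) (.ax 8 11 13 14 5), .t 1 (nat_lit 0) (.ax 8 12 13 14 0), .t 1 (nat_lit 0) (.ax 8 12 13 14 1), .t 1 (nat_lit 0) (.ax 8 12 13 14 3), .t 1 (nat_lit 0) (.ax 8 12 13 14 5), .t 1 (nat_lit 0) (.ax 9 10 11 12 0), .t 1 (nat_lit 0) (.ax 9 10 11 12 1), .t 1 (nat_lit 0) (.ax 9 10 11 12 2), .t 1 (nat_lit 0) (.ax 9 10 11 12 3), .t 1 (nat_lit 0) (.ax 9 10 11 12 4), .t 1 (nat_lit 0) (.ax 9 10 11 12 5), .t 1 (nat_lit 0) (.ax 9 10 11 12 7), .t 1 (nat_lit 0) (.ax 9 10 11 13 0), .t 1 (nat_lit 0) (.ax 9 10 11 13 1), .t 1 (nat_lit 0) (.ax 9 10 11 13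 3), .t 1 (nat_lit 0) (.ax 9 10 11 13 4), .t 1 (nat_lit 0) (.ax 9 10 11 13 5), .t 1 (nat_lit 0) (.ax 9 10 11 14 0), .t 1 (nat_lit 0) (.ax 9 10 11 14 1), .t 1 (nat_lit 0) (.ax 9 10 11 14 2), .t 1 (nat_lit 0) (.ax 9 10 11 14 3), .t 1 (nat_lit 0) (.ax 9 10 11 14 4), .t 1 (nat_lit 0) (.ax 9 10 11 14 5), .t 1 (nat_lit 0) (.ax 9 10 11 14 6), .t 1 (nat_lit 0) (.ax 9 10 12 13 0)] (by decide +kernel) (by decide +kernel)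
theorem b71 : B 4544 4608 := Blk.of_chk [.t 1 (nat_lit 0) (.ax 9 10 12 13 1), .t 1 (nat_lit 0) (.ax 9 10 12 13 2), .t 1 (nat_lit 0) (.ax 9 10 12 13 4), .t 1 (nat_lit 0) (.ax 9 10 12 13 6), .t 1 (nat_lit 0) (.ax 9 10 12 14 0), .t 1 (nat_lit 0) (.ax 9 10 12 14 1), .t 1 (nat_lit 0) (.ax 9 10 12 14 2), .t 1 (nat_lit 0) (.ax 9 10 12 14 3), .t 1 (nat_lit 0) (.ax 9 10 12 14 4), .t 1 (nat_lit 0) (.ax 9 10 12 14 5), .t 1 (nat_lit 0) (.ax 9 10 12 14 6), .t 1 (nat_lit 0) (.ax 9 10 12 14 7), .t 1 (nat_lit 0) (.ax 9 10 13 14 0), .t 1 (nat_lit 0) (.ax 9 10 13 14 1), .t 1 (nat_lit 0) (.ax 9 10 13 14 2), .t 1 (nat_lit 0) (.ax 9 10 13 14 3), .t 1 (nat_lit 0) (.ax 9 10 13 14 4), .t 1 (nat_lit 0) (.ax 9 10 13 14 5), .t 1 (nat_lit 0) (.ax 9 11 12 13 0), .t 1 (nat_lit 0) (.ax 9 11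 12 13 2), .t 1 (nat_lit 0) (.ax 9 11 12 13 4), .t 1 (nat_lit 0) (.ax 9 11 12 13 7), .t 1 (nat_lit 0) (.ax 9 11 12 14 0), .t 1 (nat_lit 0) (.ax 9 11 12 14 1), .t 1 (nat_lit 0) (.ax 9 11 12 14 3), .t 1 (nat_lit 0) (.ax 9 11 12 14 4), .t 1 (nat_lit 0) (.ax 9 11 12 14 5), .t 1 (nat_lit 0) (.ax 9 11 12 14 6), .t 1 (nat_lit 0) (.ax 9 11 13 14 1), .t 1 (nat_lit 0) (.ax 9 11 13 14 2), .t 1 (nat_lit 0) (.ax 9 11 13 14 4), .t 1 (nat_lit 0) (.ax 9 11 13 14 5), .t 1 (nat_lit 0) (.ax 9 12 13 14 0), .t 1 (nat_lit 0) (.ax 9 12 13 14 1), .t 1 (nat_lit 0) (.ax 9 12 13 14 3), .t 1 (nat_lit 0) (.ax 9 12 13 14 5), .t 1 (nat_lit 0) (.ax 10 11 12 13 0), .t 1 (nat_lit 0) (.ax 10 11 12 13 2), .t 1 (nat_lit 0) (.ax 10 11 12 13 4), .t 1 (nat_lit 0) (.ax 10 11 12 14 0), .t 1 (nat_lit 0)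 (.ax 10 11 12 14 1), .t 1 (nat_lit 0) (.ax 10 11 12 14 3), .t 1 (nat_lit 0) (.ax 10 11 12 14 5), .t 1 (nat_lit 0) (.ax 10 11 12 14 6), .t 1 (nat_lit 0) (.ax 10 11 12 14 7), .t 1 (nat_lit 0) (.ax 10 11 13 14 0), .t 1 (nat_lit 0) (.ax 10 11 13 14 2), .t 1 (nat_lit 0) (.ax 10 11 13 14 4), .t 1 (nat_lit 0) (.ax 10 11 13 14 7), .t 1 (nat_lit 0) (.ax 10 12 13 14 0), .t 1 (nat_lit 0) (.ax 10 12 13 14 1), .t 1 (nat_lit 0) (.ax 10 12 13 14 3), .t 1 (nat_lit 0) (.ax 10 12 13 14 5), .t 1 (nat_lit 0) (.ax 11 12 13 14 0), .t 1 (nat_lit 0) (.ax 11 12 13 14 1), .t 1 (nat_lit 0) (.ax 11 12 13 14 3), .t 1 (nat_lit 0) (.ax 11 12 13 14 5), .t 1 (nat_lit 0) (.b true 0 11 [0,12,13,14] [1,2,3,4,5,6,7,8,9,10,11]), .t 3 (nat_lit 0x11f911f8) (.b false 11 0 [11,14,13,12] [0,1,2,3,4,5,6,7,8,9,10]),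 .t 3 (nat_lit 0xdfe0dfd) (.b false 4 11 [4,14,13,12] [0,1,2,3,5,6,7,8,9,10,11]), .t 1 (nat_lit 0) (.b false 0 4 [0,1,2,3] [4,5,6,7,8,9,10,11,12,13,14]), .t 3 (nat_lit 0x40002) (.b true 4 0 [1,4,3,2] [0,5,6,7,8,9,10,11,12,13,14]), .t 3 (nat_lit 0x4eb04ea) (.b false 1 11 [1,14,13,12] [0,2,3,4,5,6,7,8,9,10,11]), .t 3 (nat_lit 0x11e411e3) (.b false 9 11 [9,14,13,12] [0,1,2,3,4,5,6,7,8,10,11])] (by decide +kernel) (by decide +kernel)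
theorem b72 : B 4608 4672 := Blk.of_chk [.t 8 (nat_lit 0x107a109f109a1086108110dc10da) (.z (.edon 0 7 (.free 2 [0,1,2,3,4,5,6]) (.edon 0 12 (.leaf [7,8,11,10,9]) (.leaf [12,13,14])))), .t 3 (nat_lit 0x4eb04ea) (.b false 1 8 [1,14,13,12] [0,2,3,4,5,6,7,8,9,10,11]), .t 3 (nat_lit 0x11ac11ab) (.b false 8 11 [8,14,13,12] [0,1,2,3,4,5,6,7,9,10,11]), .r 10 (nat_lit 0x120204a904a104a01203119f11fb042211fa), .t 5 (nat_lit 0x1400120c260c23) (.z (.node 8 0 (.node 4 7 (.leaf [4,6,8,5]) (.leaf [1,7,3,2])) (.free 2 [0,9,10,11,12,13,14]))), .t 8 (nat_lit 0x113d10dc10d8109f109a10851083) (.z (.edon 0 7 (.free 2 [0,1,2,3,4,5,6]) (.edon 0 12 (.leaf [7,8,9,11,10]) (.leaf [12,13,14])))), .t 8 (nat_lit 0xc1c0c490c460c260c230cb70cb5) (.z (.node 8 0 (.edon 0 4 (.leaf [1,2,3]) (.leaf [4,6,7,8,5]))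 (.free 2 [0,9,10,11,12,13,14]))), .t 8 (nat_lit 0xc1f0972096f08af08ac08880886) (.z (.edon 0 8 (.edon 0 3 (.leaf [0,1,2]) (.leaf [3,6,7,5,4])) (.free 2 [8,9,10,11,12,13,14]))), .t 3 (nat_lit 0x4ee04ed) (.z (.edon 0 8 (.edon 1 4 (.leaf [1,6,7]) (.leaf [0,2,3,4,5])) (.free 2 [8,9,10,11,12,13,14]))), .t 3 (nat_lit 0x4ee04ed) (.z (.edon 0 8 (.edon 1 5 (.leaf [1,6,7]) (.leaf [0,2,3,4,5])) (.free 2 [8,9,10,11,12,13,14]))), .r 5 (nat_lit 0x120a11fe010211fd), .t 3 (nat_lit 0xf740f73) (.b false 5 11 [5,14,13,12] [0,1,2,3,4,6,7,8,9,10,11]), .t 3 (nat_lit 0x4eb04ea) (.b false 1 5 [1,14,13,12] [0,2,3,4,5,6,7,8,9,10,11]), .t 8 (nat_lit 0xc200973096e08b008ab08870885) (.z (.edon 0 8 (.edon 0 3 (.leaf [0,1,2]) (.leaf [3,4,5,7,6])) (.free 2 [8,9,10,11,12,13,14]))), .t 8 (nat_lit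 0xc220c200c1b0cb70cb40c490c47) (.z (.node 8 0 (.edon 0 4 (.leaf [1,2,3]) (.leaf [4,5,7,8,6])) (.free 2 [0,9,10,11,12,13,14]))), .t 3 (nat_lit 0x140012) (.z (.edon 0 8 (.edon 3 5 (.leaf [1,7,3,2]) (.leaf [0,4,5,6])) (.free 2 [8,9,10,11,12,13,14]))), .t 3 (nat_lit 0x4f304f2) (.z (.edon 0 8 (.node 4 5 (.leaf [0,2,3,4,6]) (.leaf [1,5,7])) (.free 2 [8,9,10,11,12,13,14]))), .t 3 (nat_lit 0x11f911f6) (.b false 11 0 [11,12,14,13] [0,1,2,3,4,5,6,7,8,9,10]), .t 3 (nat_lit 0x53c053a) (.z (.edon 0 8 (.node 3 5 (.leaf [0,2,3,6,7]) (.leaf [1,4,5])) (.free 2 [8,9,10,11,12,13,14]))), .r 11 (nat_lit 0x1213120e0885121104ed04ee04f311fe088111fd), .t 3 (nat_lit 0x66f066d) (.z (.edon 0 8 (.node 2 4 (.leaf [0,2,5,6,7]) (.leaf [1,3,4])) (.free 2 [8,9,10,11,12,13,14]))), .t 3 (nat_lit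 0x30001) (.b true 4 0 [1,3,4,2] [0,5,6,7,8,9,10,11,12,13,14]), .t 8 (nat_lit 0xc270e040e020cb80cb60c200c1e) (.z (.node 8 0 (.edon 0 4 (.leaf [1,2,3]) (.leaf [4,8,7,6,5])) (.free 2 [0,9,10,11,12,13,14]))), .t 3 (nat_lit 0x1120110) (.z (.edon 0 8 (.edon 3 6 (.leaf [1,7,4,3]) (.leaf [0,2,5,6])) (.free 2 [8,9,10,11,12,13,14]))), .t 8 (nat_lit 0x87b08b008ab0888088309730971) (.z (.edon 0 8 (.edon 0 3 (.leaf [0,1,2]) (.leaf [3,4,7,6,5])) (.free 2 [8,9,10,11,12,13,14]))), .t 3 (nat_lit 0x4f804f7) (.z (.edon 0 8 (.node 4 5 (.leaf [0,2,3,4,7]) (.leaf [1,5,6])) (.free 2 [8,9,10,11,12,13,14]))), .r 7 (nat_lit 0x22c121a04ed11fe120b11fd), .r 12 (nat_lit 0x120b01391209011201101216002e04ed11fe088911fd), .r 3 (nat_lit 0x1213096f), .r 7 (nat_lit 0x1209025011fe1216024d11fd), .t 3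 (nat_lit 0x5130512) (.z (.edon 0 8 (.edon 1 6 (.leaf [1,4,7]) (.leaf [0,2,3,5,6])) (.free 2 [8,9,10,11,12,13,14]))), .r 5 (nat_lit 0x121f0131005202ec), .t 3 (nat_lit 0x5130512) (.z (.edon 0 8 (.edon 1 5 (.leaf [1,4,7]) (.leaf [0,2,3,5,6])) (.free 2 [8,9,10,11,12,13,14]))), .t 3 (nat_lit 0x5130512) (.z (.edon 0 8 (.edon 1 3 (.leaf [1,4,7]) (.leaf [0,2,3,5,6])) (.free 2 [8,9,10,11,12,13,14]))), .t 3 (nat_lit 0x1060103) (.z (.edon 0 8 (.node 2 5 (.leaf [0,2,6,7]) (.leaf [1,4,5,3])) (.free 2 [8,9,10,11,12,13,14]))), .r 4 (nat_lit 0x71a0faf0761), .r 4 (nat_lit 0x121b0225087d), .r 18 (nat_lit 0x2ee1215120b0511022504f704ed04f504f200050881121411fe01061225010211fd), .r 9 (nat_lit 0x13512221221122009700139097411fd), .t 3 (nat_lit 0x1120110) (.z (.edon 0 8 (.node 5 7 (.leaf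 [0,2,5,6]) (.leaf [1,7,4,3])) (.free 2 [8,9,10,11,12,13,14]))), .r 9 (nat_lit 0x122801391215011211fe121605bb11fd), .t 8 (nat_lit 0x10d0880087e0227022501070105) (.z (.edon 0 8 (.node 2 5 (.leaf [0,2,7]) (.leaf [1,6,5,4,3])) (.free 2 [8,9,10,11,12,13,14]))), .t 3 (nat_lit 0x2ee02ec) (.z (.edon 0 8 (.edon 1 4 (.leaf [1,7,6,5]) (.leaf [0,2,3,4])) (.free 2 [8,9,10,11,12,13,14]))), .t 3 (nat_lit 0xc1f0c1d) (.z (.edon 0 8 (.node 0 3 (.leaf [0,4,5,6,7]) (.leaf [1,2,3])) (.free 2 [8,9,10,11,12,13,14]))), .t 8 (nat_lit 0x4ec0514051104f404f105b405b2) (.z (.node 8 0 (.edon 1 6 (.leaf [1,7,8]) (.leaf [2,3,6,5,4])) (.free 2 [0,9,10,11,12,13,14]))), .t 1 (nat_lit 0) (.b false 4 1 [0,2,3,4] [1,5,6,7,8,9,10,11,12,13,14]), .t 1 (nat_lit 0) (.b true 3 4 [0,2,3,10] [1,4,5,6,7,8,9,11,12,13,14]),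 .t 3 (nat_lit 0x4f304f2) (.z (.edon 0 8 (.edon 1 6 (.leaf [1,5,7]) (.leaf [0,2,3,4,6])) (.free 2 [8,9,10,11,12,13,14]))), .r 8 (nat_lit 0x1230122b001011fe0005010e11fd), .t 3 (nat_lit 0x4f304f2) (.z (.edon 0 8 (.edon 1 4 (.leaf [1,5,7]) (.leaf [0,2,3,4,6])) (.free 2 [8,9,10,11,12,13,14]))), .r 6 (nat_lit 0x123211fe0005010b11fd), .r 7 (nat_lit 0x12311233016608b101100112), .t 3 (nat_lit 0x330031) (.z (.edon 0 8 (.edon 3 4 (.leaf [3,5,7]) (.leaf [0,1,2,4,6])) (.free 2 [8,9,10,11,12,13,14]))), .r 6 (nat_lit 0x123504f211fe121611fd), .t 1 (nat_lit 0) (.b true 2 8 [0,1,2,10] [3,4,5,6,7,8,9,11,12,13,14]), .t 8 (nat_lit 0x884087f087c0973096e08b008ae) (.z (.edon 0 8 (.edon 0 3 (.leaf [0,1,2]) (.leaf [3,5,7,6,4])) (.free 2 [8,9,10,11,12,13,14]))), .t 1 (nat_lit 0) (.b false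 4 3 [0,1,2,4] [3,5,6,7,8,9,10,11,12,13,14]), .t 3 (nat_lit 0x350034) (.z (.edon 0 8 (.edon 3 4 (.leaf [3,5,6]) (.leaf [0,1,2,4,7])) (.free 2 [8,9,10,11,12,13,14]))), .t 3 (nat_lit 0x4f804f7) (.z (.edon 0 8 (.node 3 6 (.leaf [0,2,3,4,7]) (.leaf [1,5,6])) (.free 2 [8,9,10,11,12,13,14]))), .t 3 (nat_lit 0x4f804f7) (.z (.edon 0 8 (.node 3 5 (.leaf [0,2,3,4,7]) (.leaf [1,5,6])) (.free 2 [8,9,10,11,12,13,14]))), .r 7 (nat_lit 0x123c088a11fe1226010811fd), .t 3 (nat_lit 0x5180517) (.z (.edon 0 8 (.node 3 4 (.leaf [0,2,3,5,7]) (.leaf [1,4,6])) (.free 2 [8,9,10,11,12,13,14]))), .r 3 (nat_lit 0xbb1237), .t 3 (nat_lit 0x10d010b) (.z (.edon 0 8 (.node 2 4 (.leaf [0,2,5,7]) (.leaf [1,6,4,3])) (.free 2 [8,9,10,11,12,13,14])))] (by decide +kernel) (by decide +kernel)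
theorem b73 : B 4672 4736 := Blk.of_chk [.t 3 (nat_lit 0x10d010b) (.z (.edon 0 8 (.node 2 6 (.leaf [0,2,5,7]) (.leaf [1,6,4,3])) (.free 2 [8,9,10,11,12,13,14]))), .r 7 (nat_lit 0x122b023011fe000502ee11fd), .t 3 (nat_lit 0x53c053a) (.z (.edon 0 8 (.node 3 4 (.leaf [0,2,3,6,7]) (.leaf [1,4,5])) (.free 2 [8,9,10,11,12,13,14]))), .t 3 (nat_lit 0x1070105) (.z (.edon 0 8 (.edon 1 6 (.leaf [1,5,4,3]) (.leaf [0,2,6,7])) (.free 2 [8,9,10,11,12,13,14]))), .r 3 (nat_lit 0x12440078), .t 8 (nat_lit 0xc1b0c4a0c450c270c220cb80cb6) (.z (.node 8 0 (.edon 0 4 (.leaf [1,2,3]) (.leaf [4,5,8,7,6])) (.free 2 [0,9,10,11,12,13,14]))), .t 8 (nat_lit 0x8b005de05d9053d053904f804f7) (.z (.node 8 0 (.edon 1 4 (.leaf [1,5,8]) (.leaf [2,3,4,7,6])) (.free 2 [0,9,10,11,12,13,14]))), .t 3 (nat_lit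 0x1070105) (.z (.edon 0 8 (.node 2 5 (.leaf [0,2,6,7]) (.leaf [1,5,4,3])) (.free 2 [8,9,10,11,12,13,14]))), .t 3 (nat_lit 0x1070105) (.z (.edon 0 8 (.node 2 4 (.leaf [0,2,6,7]) (.leaf [1,5,4,3])) (.free 2 [8,9,10,11,12,13,14]))), .r 6 (nat_lit 0x1248124911fe000511fd), .t 5 (nat_lit 0xe000c0c4a0c45) (.z (.node 8 0 (.edon 4 6 (.leaf [4,5,8,7]) (.leaf [1,3,6,2])) (.free 2 [0,9,10,11,12,13,14]))), .t 8 (nat_lit 0x53f053d053907140711055f055e) (.z (.node 8 0 (.node 3 5 (.leaf [2,3,7,8,6]) (.leaf [1,4,5])) (.free 2 [0,9,10,11,12,13,14]))), .t 3 (nat_lit 0x4ee04ed) (.z (.node 3 10 (.edon 0 6 (.leaf [0,2,3,4,5]) (.leaf [6,7,8])) (.free 2 [1,9,10,11,12,13,14]))), .r 10 (nat_lit 0x124d011f11fe0906011e08c2089708e811fd), .r 14 (nat_lit 0x1215002e05bb051705b5121d000b11fe04ec09740512013511fd),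 .r 8 (nat_lit 0x123a010404f7002f11fe121611fd), .r 17 (nat_lit 0x124112151240002d123d1219123b0010010d0005125004f7053911fe08b211fd), .t 1 (nat_lit 0) (.b true 3 7 [0,2,3,6] [1,4,5,7,8,9,10,11,12,13,14]), .t 3 (nat_lit 0x11e711e6) (.z (.node 0 7 (.node 9 13 (.leaf [0,8,9,14]) (.leaf [10,11,12,13])) (.free 2 [1,2,3,4,5,6,7]))), .r 10 (nat_lit 0x12531097108d0ae611fb0afe0b18110911fa), .r 11 (nat_lit 0x121e122708ad1252122600050881016a124f11fd), .t 3 (nat_lit 0x10c010a) (.z (.edon 0 8 (.node 2 6 (.leaf [0,2,5,7]) (.leaf [1,4,6,3])) (.free 2 [8,9,10,11,12,13,14]))), .t 8 (nat_lit 0x11b1117e117b1157115411431141) (.z (.node 0 7 (.node 0 12 (.leaf [0,13,14]) (.leaf [8,11,12,10,9])) (.free 2 [1,2,3,4,5,6,7]))), .r 7 (nat_lit 0x1253117611fb114a114711fa), .t 3 (nat_lit 0x4ee04ed)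 (.z (.node 3 9 (.edon 0 6 (.leaf [0,2,3,4,5]) (.leaf [6,7,8])) (.free 2 [1,9,10,11,12,13,14]))), .t 8 (nat_lit 0x11391157115411421140117e117c) (.z (.node 0 7 (.node 0 12 (.leaf [0,13,14]) (.leaf [8,10,11,12,9])) (.free 2 [1,2,3,4,5,6,7]))), .t 3 (nat_lit 0x11e711e6) (.z (.node 0 7 (.node 8 13 (.leaf [0,8,9,14]) (.leaf [10,11,12,13])) (.free 2 [1,2,3,4,5,6,7]))), .r 5 (nat_lit 0x1253125b11fb11fa), .t 3 (nat_lit 0x2a0029) (.b false 3 12 [1,14,3,2] [0,4,5,6,7,8,9,10,11,12,13]), .t 3 (nat_lit 0x1151114f) (.z (.node 0 7 (.node 11 14 (.leaf [0,11,12,13]) (.leaf [8,14,10,9])) (.free 2 [1,2,3,4,5,6,7]))), .t 3 (nat_lit 0x113c113a) (.z (.node 0 7 (.edon 0 12 (.leaf [0,8,9,10,11]) (.leaf [12,13,14])) (.free 2 [1,2,3,4,5,6,7]))), .r 25 (nat_lit 0x1204049703ba029700be033301c900bc048404730335029a042403be0482046f049c01c611ff04e804e011fb04ea11fa),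 .t 3 (nat_lit 0x210020) (.b false 3 12 [1,11,3,2] [0,4,5,6,7,8,9,10,12,13,14]), .t 3 (nat_lit 0x210020) (.b false 3 14 [1,11,3,2] [0,4,5,6,7,8,9,10,12,13,14]), .t 3 (nat_lit 0x2a0029) (.b false 3 11 [1,14,3,2] [0,4,5,6,7,8,9,10,11,12,13]), .t 3 (nat_lit 0x210020) (.b true 11 4 [1,11,3,2] [0,4,5,6,7,8,9,10,12,13,14]), .t 8 (nat_lit 0x9730670066b053d053905180517) (.z (.node 8 0 (.edon 1 5 (.leaf [1,4,8]) (.leaf [2,3,5,7,6])) (.free 2 [0,9,10,11,12,13,14]))), .t 3 (nat_lit 0x11f011ef) (.z (.node 0 7 (.node 11 12 (.leaf [0,10,11,13,14]) (.leaf [8,9,12])) (.free 2 [1,2,3,4,5,6,7]))), .t 8 (nat_lit 0x1086113d113b10dc10da107f107d) (.z (.edon 0 7 (.free 2 [0,1,2,3,4,5,6]) (.edon 0 12 (.leaf [7,11,10,9,8]) (.leaf [12,13,14])))), .t 8 (nat_lit 0x66b069706930677067307150713)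 (.z (.node 8 0 (.node 2 4 (.leaf [2,5,8,7,6]) (.leaf [1,3,4])) (.free 2 [0,9,10,11,12,13,14]))), .r 6 (nat_lit 0x1221000b0139013d11fd), .r 5 (nat_lit 0x12211220000b11fd), .t 1 (nat_lit 0) (.b true 10 12 [0,10,13,14] [1,2,3,4,5,6,7,8,9,11,12]), .t 1 (nat_lit 0) (.b true 7 12 [0,7,13,14] [1,2,3,4,5,6,8,9,10,11,12]), .t 3 (nat_lit 0x24f024b) (.z (.edon 0 8 (.edon 1 5 (.leaf [1,4,7,6]) (.leaf [0,2,3,5])) (.free 2 [8,9,10,11,12,13,14]))), .t 1 (nat_lit 0) (.b false 5 1 [0,2,3,5] [1,4,6,7,8,9,10,11,12,13,14]), .t 1 (nat_lit 0) (.b true 3 8 [0,2,3,9] [1,4,5,6,7,8,10,11,12,13,14]), .t 3 (nat_lit 0x5230522) (.z (.edon 9 7 (.node 3 6 (.leaf [0,2,3,5,9]) (.leaf [1,4,6])) (.free 2 [7,8,10,11,12,13,14]))), .t 1 (nat_lit 0) (.b true 3 9 [0,2,3,8] [1,4,5,6,7,9,10,11,12,13,14]),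 .t 3 (nat_lit 0x51e051c) (.z (.edon 8 7 (.edon 1 5 (.leaf [1,4,6]) (.leaf [0,2,3,5,8])) (.free 2 [7,9,10,11,12,13,14]))), .t 1 (nat_lit 0) (.b false 10 1 [0,2,3,10] [1,4,5,6,7,8,9,11,12,13,14]), .t 1 (nat_lit 0) (.b false 3 1 [0,2,3,10] [1,4,5,6,7,8,9,11,12,13,14]), .t 3 (nat_lit 0x5730572) (.z (.edon 3 1 (.leaf [0,2,3,8,10]) (.free 3 [1,4,5,6,7,9,11,12,13,14]))), .t 1 (nat_lit 0) (.b false 9 1 [0,2,3,9] [1,4,5,6,7,8,10,11,12,13,14]), .t 1 (nat_lit 0) (.b false 8 1 [0,2,3,8] [1,4,5,6,7,9,10,11,12,13,14]), .r 4 (nat_lit 0x1277001911fd), .r 6 (nat_lit 0x126611e711fb11f711fa), .t 1 (nat_lit 0) (.b false 3 1 [0,2,3,8] [1,4,5,6,7,9,10,11,12,13,14]), .t 8 (nat_lit 0x1082107e107b10dc10d8109f109d) (.z (.edon 0 7 (.free 2 [0,1,2,3,4,5,6]) (.edon 0 12 (.leaf [7,9,11,10,8])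 (.leaf [12,13,14])))), .t 3 (nat_lit 0xe030e01) (.z (.edon 8 4 (.node 0 3 (.leaf [0,5,6,7,8]) (.leaf [1,2,3])) (.free 2 [4,9,10,11,12,13,14]))), .r 6 (nat_lit 0x127c04fc11fe0cb311fd), .t 3 (nat_lit 0x11841183) (.z (.node 0 7 (.edon 9 11 (.leaf [9,12,14]) (.leaf [0,8,10,11,13])) (.free 2 [1,2,3,4,5,6,7]))), .t 3 (nat_lit 0x118e118d) (.z (.node 0 7 (.edon 9 12 (.leaf [9,11,14]) (.leaf [0,8,10,12,13])) (.free 2 [1,2,3,4,5,6,7]))), .t 8 (nat_lit 0x8830880087b0972096f08af08ad) (.z (.edon 0 8 (.edon 0 3 (.leaf [0,1,2]) (.leaf [3,4,6,7,5])) (.free 2 [8,9,10,11,12,13,14])))] (by decide +kernel) (by decide +kernel)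
theorem b74 : B 4736 4800 := Blk.of_chk [.t 8 (nat_lit 0x10f911db11d91131113010ee10ec) (.z (.edon 0 7 (.free 2 [0,1,2,3,4,5,6]) (.edon 9 13 (.leaf [7,14,12,11,9]) (.leaf [8,10,13])))), .r 4 (nat_lit 0x1275127411fd), .t 3 (nat_lit 0x5180517) (.z (.edon 0 8 (.node 3 6 (.leaf [0,2,3,5,7]) (.leaf [1,4,6])) (.free 2 [8,9,10,11,12,13,14]))), .r 6 (nat_lit 0x128304f311fe097511fd), .t 8 (nat_lit 0x53f053d053907140711055f055e) (.z (.node 8 0 (.node 3 4 (.leaf [2,3,7,8,6]) (.leaf [1,4,5])) (.free 2 [0,9,10,11,12,13,14]))), .t 3 (nat_lit 0x11db11d9) (.z (.node 0 7 (.edon 11 13 (.leaf [9,14,12,11]) (.leaf [0,8,10,13])) (.free 2 [1,2,3,4,5,6,7]))), .r 7 (nat_lit 0x128611d511fb1212118111fa), .t 1 (nat_lit 0) (.b false 6 1 [0,2,3,6] [1,4,5,7,8,9,10,11,12,13,14]), .r 11 (nat_lit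 0x3b003ac1288001003bd02f6025803c803b611fd), .r 4 (nat_lit 0x126d000b11fd), .t 3 (nat_lit 0x24f024b) (.z (.edon 0 8 (.edon 1 3 (.leaf [1,4,7,6]) (.leaf [0,2,3,5])) (.free 2 [8,9,10,11,12,13,14]))), .t 8 (nat_lit 0x10f911db11d91131113010ee10ec) (.z (.edon 0 7 (.free 2 [0,1,2,3,4,5,6]) (.edon 11 13 (.leaf [7,14,12,11,9]) (.leaf [8,10,13])))), .t 3 (nat_lit 0x8b008ab) (.z (.edon 0 8 (.edon 3 5 (.leaf [3,4,7,6]) (.leaf [0,1,2,5])) (.free 2 [8,9,10,11,12,13,14]))), .t 8 (nat_lit 0xc007f007c001800160170016e) (.z (.node 8 0 (.node 1 7 (.leaf [1,3,6,8,2]) (.leaf [4,5,7])) (.free 2 [0,9,10,11,12,13,14]))), .t 8 (nat_lit 0xc007f007c001800160170016e) (.z (.node 8 0 (.node 3 7 (.leaf [1,3,6,8,2]) (.leaf [4,5,7])) (.free 2 [0,9,10,11,12,13,14]))), .t 1 (nat_lit 0) (.b false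 8 3 [0,1,2,8] [3,4,5,6,7,9,10,11,12,13,14]), .t 8 (nat_lit 0x11be11eb11ea11db11d911b211b0) (.z (.node 0 7 (.edon 11 13 (.leaf [9,14,12,11,10]) (.leaf [0,8,13])) (.free 2 [1,2,3,4,5,6,7]))), .t 8 (nat_lit 0x8b005de05d9053d053904f804f7) (.z (.edon 8 5 (.edon 2 8 (.leaf [2,3,4,7,6]) (.leaf [0,1,8])) (.free 2 [5,9,10,11,12,13,14]))), .t 8 (nat_lit 0x8b308b008ab0a420a3f08db08d9) (.z (.edon 8 5 (.edon 0 3 (.leaf [0,1,2]) (.leaf [3,4,7,8,6])) (.free 2 [5,9,10,11,12,13,14]))), .r 13 (nat_lit 0x1292007f124b05e6129305e3120f0c2411fe010908b411fd), .t 8 (nat_lit 0x5300a1009f005c005a03110310) (.z (.node 8 0 (.node 1 6 (.leaf [1,5,7,8,2]) (.leaf [3,4,6])) (.free 2 [0,9,10,11,12,13,14]))), .t 8 (nat_lit 0x7600a1009f007f007c038b038a) (.z (.node 8 0 (.node 1 5 (.leaf [1,6,7,8,2])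 (.leaf [3,4,5])) (.free 2 [0,9,10,11,12,13,14]))), .r 8 (nat_lit 0xe0212151296004f129511fe11fd), .t 8 (nat_lit 0x1100a1009f00180016019e019c) (.z (.node 8 0 (.node 3 6 (.leaf [1,3,7,8,2]) (.leaf [4,5,6])) (.free 2 [0,9,10,11,12,13,14]))), .t 8 (nat_lit 0x1100a1009f00180016019e019c) (.z (.node 8 0 (.node 3 5 (.leaf [1,3,7,8,2]) (.leaf [4,5,6])) (.free 2 [0,9,10,11,12,13,14]))), .t 3 (nat_lit 0x7390738) (.z (.edon 8 7 (.node 2 4 (.leaf [0,2,6,8,10]) (.leaf [1,3,4])) (.free 2 [5,7,9,11,12,13,14]))), .t 3 (nat_lit 0x54c054b) (.z (.edon 10 7 (.edon 1 3 (.leaf [1,4,5]) (.leaf [0,2,3,6,10])) (.free 2 [7,8,9,11,12,13,14]))), .r 6 (nat_lit 0x1226000b1269088a11fd), .t 8 (nat_lit 0x7005c005a0018001601420140) (.z (.node 8 0 (.node 3 6 (.leaf [1,3,5,8,2]) (.leaf [4,6,7])) (.free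 2 [0,9,10,11,12,13,14]))), .t 3 (nat_lit 0xc710c6f) (.z (.edon 8 6 (.node 0 3 (.leaf [0,4,5,8,10]) (.leaf [1,2,3])) (.free 2 [6,7,9,11,12,13,14]))), .t 8 (nat_lit 0x88005b405af0514051104f304f2) (.z (.edon 8 7 (.node 1 2 (.leaf [0,1,8]) (.leaf [2,3,4,6,5])) (.free 2 [7,9,10,11,12,13,14]))), .t 8 (nat_lit 0x88005b405af0514051104f304f2) (.z (.edon 10 7 (.node 1 2 (.leaf [0,1,10]) (.leaf [2,3,4,6,5])) (.free 2 [7,8,9,11,12,13,14]))), .t 1 (nat_lit 0) (.b false 10 3 [0,1,2,10] [3,4,5,6,7,8,9,11,12,13,14]), .r 3 (nat_lit 0x12a10bf0), .r 5 (nat_lit 0x670128405170512), .r 9 (nat_lit 0x230128e123301a00015010e017011fd), .t 8 (nat_lit 0x7005c005a0018001601420140) (.z (.node 8 0 (.node 3 7 (.leaf [1,3,5,8,2]) (.leaf [4,6,7])) (.free 2 [0,9,10,11,12,13,14]))), .r 12 (nat_lit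 0x129912a5016b0167129d04f304f811fe0136088211fd), .t 8 (nat_lit 0xc007f007c001800160170016e) (.z (.node 8 0 (.node 3 5 (.leaf [1,3,6,8,2]) (.leaf [4,5,7])) (.free 2 [0,9,10,11,12,13,14]))), .r 11 (nat_lit 0x12a7013d088a128f129804f304f811fe12a611fd), .r 16 (nat_lit 0x128e022f126a0970122212a612a40167016b001512a8019a0170010e11fd), .t 1 (nat_lit 0) (.b true 11 12 [0,11,13,14] [1,2,3,4,5,6,7,8,9,10,12]), .t 1 (nat_lit 0) (.b true 11 14 [0,11,12,13] [1,2,3,4,5,6,7,8,9,10,14]), .r 7 (nat_lit 0xdd011fc0dc90dcb02ae11fa), .t 1 (nat_lit 0) (.b true 1 8 [0,1,10,13] [2,3,4,5,6,7,8,9,11,12,14]), .t 3 (nat_lit 0x11e711e6) (.z (.node 0 7 (.node 11 14 (.leaf [0,10,11,12,13]) (.leaf [8,9,14])) (.free 2 [1,2,3,4,5,6,7]))), .r 3 (nat_lit 0x12900baf), .t 3 (nat_lit 0x11a711a6) (.z (.node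 0 7 (.node 11 12 (.leaf [0,8,11,13,14]) (.leaf [9,10,12])) (.free 2 [1,2,3,4,5,6,7]))), .r 7 (nat_lit 0x12b0119f11fb12120f1111fa), .r 6 (nat_lit 0x12b0119f11fb121211fa), .t 8 (nat_lit 0x1191118e118c11ac11a9119b1199) (.z (.edon 0 7 (.free 2 [0,1,2,3,4,5,6]) (.edon 7 12 (.leaf [7,9,11]) (.leaf [8,12,14,13,10])))), .r 8 (nat_lit 0x12ac0dcd0dcf09200635091f0634), .t 3 (nat_lit 0x11e411e3) (.z (.node 0 7 (.edon 9 11 (.leaf [9,14,13,12]) (.leaf [0,8,10,11])) (.free 2 [1,2,3,4,5,6,7]))), .r 6 (nat_lit 0x123a04f711fe121611fd), .t 8 (nat_lit 0x1138115811531143113f117f117d) (.z (.node 0 7 (.node 0 12 (.leaf [0,13,14]) (.leaf [8,9,12,11,10])) (.free 2 [1,2,3,4,5,6,7]))), .r 26 (nat_lit 0x12a1001f003c091d093f09380944094908e908c309070898050305041239091a12b61216011611fe0914090f0904090a11fd),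 .t 3 (nat_lit 0x4f804f7) (.z (.edon 0 8 (.edon 1 4 (.leaf [1,5,6]) (.leaf [0,2,3,4,7])) (.free 2 [8,9,10,11,12,13,14]))), .t 1 (nat_lit 0) (.b true 1 12 [0,1,13,14] [2,3,4,5,6,7,8,9,10,11,12]), .r 19 (nat_lit 0x12ba04e904e504e000c204e1049311fb121212b204570405020802d4037004cf04b711fa), .r 10 (nat_lit 0xc100eb081c12aa12bb11fb12b2121211fa), .r 10 (nat_lit 0x126c00aa112d12ba11fb04ea04010fc811fa), .t 1 (nat_lit 0) (.b true 6 12 [0,6,13,14] [1,2,3,4,5,7,8,9,10,11,12]), .r 10 (nat_lit 0x12be0727039b126c106d112d11fb00aa11fa), .r 41 (nat_lit 0x12be039c009112ba12bf1075106e106d10130d140abe0e6b103c1055107112bd04e9113604e504e0113300c204e1112e049310b611fb121212b20b3310eb0d70110c0ecb020802d4037004cf04b711fa)] (by decide +kernel) (by decide +kernel)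

end Pool.Agent.GCP.CB2
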