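import Pool.Agent.GCP.CB2B0
import Pool.Agent.GCP.CB2B1
import Pool.Agent.GCP.CB2B2
import Pool.Agent.GCP.CB2B3
import Pool.Agent.GCP.CB2B4
import Pool.Agent.GCP.CB2B5
import Pool.Agent.GCP.CB2B6
import Pool.Agent.GCP.CB2B7

set_option autoImplicit false

/-! # Assembly CB2All (generated) -/

namespace Pool.Agent.GCP.CB2

open Pool.Agent.GCP

theorem a0 : B 0 64 := b0
theorem a1 : B 0 128 := a0.trans b1
theorem a2 : B 0 192 := a1.trans b2
theorem a3 : B 0 256 := a2.trans b3
theorem a4 : B 0 320 := a3.trans b4
theorem a5 : B 0 384 := a4.trans b5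
theorem a6 : B 0 448 := a5.trans b6
theorem a7 : B 0 512 := a6.trans b7
theorem a8 : B 0 576 := a7.trans b8
theorem a9 : B 0 640 := a8.trans b9
theorem a10 : B 0 704 := a9.trans b10
theorem a11 : B 0 768 := a10.trans b11
theorem a12 : B 0 832 := a11.trans b12
theorem a13 : B 0 896 := a12.trans b13
theorem a14 : B 0 960 := a13.trans b14
theorem a15 : B 0 1024 := a14.trans b15
theorem a16 : B 0 1088 := a15.trans b16
theorem a17 : B 0 1152 := a16.trans b17
theorem a18 : B 0 1216 := a17.trans b18
theorem a19 : B 0 1280 := a18.trans b19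
theorem a20 : B 0 1344 := a19.trans b20
theorem a21 : B 0 1408 := a20.trans b21
theorem a22 : B 0 1472 := a21.trans b22
theorem a23 : B 0 1536 := a22.trans b23
theorem a24 : B 0 1600 := a23.trans b24
theorem a25 : B 0 1664 := a24.trans b25
theorem a26 : B 0 1728 := a25.trans b26
theorem a27 : B 0 1792 := a26.trans b27
theorem a28 : B 0 1856 := a27.trans b28
theorem a29 : B 0 1920 := a28.trans b29
theorem a30 : B 0 1984 := a29.trans b30
theorem a31 : B 0 2048 := a30.trans b31
theorem a32 : B 0 2112 := a31.trans b32
theorem a33 : B 0 2176 := a32.trans b33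
theorem a34 : B 0 2240 := a33.trans b34
theorem a35 : B 0 2304 := a34.trans b35
theorem a36 : B 0 2368 := a35.trans b36
theorem a37 : B 0 2432 := a36.trans b37
theorem a38 : B 0 2496 := a37.trans b38
theorem a39 : B 0 2560 := a38.trans b39
theorem a40 : B 0 2624 := a39.trans b40
theorem a41 : B 0 2688 := a40.trans b41
theorem a42 : B 0 2752 := a41.trans b42
theorem a43 : B 0 2816 := a42.trans b43
theorem a44 : B 0 2880 := a43.trans b44
theorem a45 : B 0 2944 := a44.trans b45
theorem a46 : B 0 3008 := a45.trans b46
theorem a47 : B 0 3072 := a46.trans b47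
theorem a48 : B 0 3136 := a47.trans b48
theorem a49 : B 0 3200 := a48.trans b49
theorem a50 : B 0 3264 := a49.trans b50
theorem a51 : B 0 3328 := a50.trans b51
theorem a52 : B 0 3392 := a51.trans b52
theorem a53 : B 0 3456 := a52.trans b53
theorem a54 : B 0 3520 := a53.trans b54
theorem a55 : B 0 3584 := a54.trans b55
theorem a56 : B 0 3648 := a55.trans b56
theorem a57 : B 0 3712 := a56.trans b57
theorem a58 : B 0 3776 := a57.trans b58
theorem a59 : B 0 3840 := a58.trans b59
theorem a60 : B 0 3904 := a59.trans b60
theorem a61 : B 0 3968 := a60.trans b61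
theorem a62 : B 0 4032 := a61.trans b62
theorem a63 : B 0 4096 := a62.trans b63
theorem a64 : B 0 4160 := a63.trans b64
theorem a65 : B 0 4224 := a64.trans b65
theorem a66 : B 0 4288 := a65.trans b66
theorem a67 : B 0 4352 := a66.trans b67
theorem a68 : B 0 4416 := a67.trans b68
theorem a69 : B 0 4480 := a68.trans b69
theorem a70 : B 0 4544 := a69.trans b70
theorem a71 : B 0 4608 := a70.trans b71
theorem a72 : B 0 4672 := a71.trans b72
theorem a73 : B 0 4736 := a72.trans b73
theorem a74 : B 0 4800 := a73.trans b74
theorem a75 : B 0 4864 := a74.trans b75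
theorem a76 : B 0 4928 := a75.trans b76
theorem a77 : B 0 4992 := a76.trans b77
theorem a78 : B 0 5056 := a77.trans b78
theorem a79 : B 0 5120 := a78.trans b79
theorem a80 : B 0 5184 := a79.trans b80
theorem a81 : B 0 5248 := a80.trans b81
theorem a82 : B 0 5312 := a81.trans b82
theorem a83 : B 0 5376 := a82.trans b83
theorem a84 : B 0 5440 := a83.trans b84
theorem a85 : B 0 5504 := a84.trans b85
theorem a86 : B 0 5568 := a85.trans b86
theorem a87 : B 0 5632 := a86.trans b87
theorem a88 : B 0 5696 := a87.trans b88
theorem a89 : B 0 5760 := a88.trans b89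
theorem a90 : B 0 5824 := a89.trans b90
theorem a91 : B 0 5888 := a90.trans b91
theorem a92 : B 0 5952 := a91.trans b92
theorem a93 : B 0 6016 := a92.trans b93
theorem a94 : B 0 6080 := a93.trans b94
theorem a95 : B 0 6144 := a94.trans b95
theorem a96 : B 0 6208 := a95.trans b96
theorem a97 : B 0 6272 := a96.trans b97
theorem a98 : B 0 6336 := a97.trans b98
theorem a99 : B 0 6400 := a98.trans b99
theorem a100 : B 0 6464 := a99.trans b100
theorem a101 : B 0 6528 := a100.trans b101
theorem a102 : B 0 6592 := a101.trans b102
theorem a103 : B 0 6656 := a102.trans b103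
theorem a104 : B 0 6720 := a103.trans b104
theorem a105 : B 0 6784 := a104.trans b105
theorem a106 : B 0 6848 := a105.trans b106
theorem a107 : B 0 6912 := a106.trans b107
theorem a108 : B 0 6976 := a107.trans b108
theorem a109 : B 0 7040 := a108.trans b109
theorem a110 : B 0 7104 := a109.trans b110
theorem a111 : B 0 7168 := a110.trans b111
theorem a112 : B 0 7232 := a111.trans b112
theorem a113 : B 0 7296 := a112.trans b113
theorem a114 : B 0 7360 := a113.trans b114
theorem a115 : B 0 7424 := a114.trans b115
theorem a116 : B 0 7488 := a115.trans b116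
theorem a117 : B 0 7552 := a116.trans b117
theorem a118 : B 0 7616 := a117.trans b118
theorem a119 : B 0 7680 := a118.trans b119
theorem a120 : B 0 7744 := a119.trans b120
theorem a121 : B 0 7808 := a120.trans b121
theorem a122 : B 0 7872 := a121.trans b122
theorem a123 : B 0 7936 := a122.trans b123
theorem a124 : B 0 8000 := a123.trans b124
theorem a125 : B 0 8064 := a124.trans b125
theorem a126 : B 0 8128 := a125.trans b126
theorem a127 : B 0 8192 := a126.trans b127
theorem a128 : B 0 8256 := a127.trans b128
theorem a129 : B 0 8320 := a128.trans b129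
theorem a130 : B 0 8384 := a129.trans b130
theorem a131 : B 0 8448 := a130.trans b131
theorem a132 : B 0 8512 := a131.trans b132
theorem a133 : B 0 8576 := a132.trans b133
theorem a134 : B 0 8640 := a133.trans b134
theorem a135 : B 0 8704 := a134.trans b135
theorem a136 : B 0 8768 := a135.trans b136
theorem a137 : B 0 8832 := a136.trans b137
theorem a138 : B 0 8896 := a137.trans b138
theorem a139 : B 0 8960 := a138.trans b139
theorem a140 : B 0 9024 := a139.trans b140
theorem a141 : B 0 9088 := a140.trans b141
theorem a142 : B 0 9152 := a141.trans b142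
theorem a143 : B 0 9216 := a142.trans b143
theorem a144 : B 0 9280 := a143.trans b144
theorem a145 : B 0 9344 := a144.trans b145
theorem a146 : B 0 9408 := a145.trans b146
theorem a147 : B 0 9472 := a146.trans b147
theorem a148 : B 0 9536 := a147.trans b148
theorem a149 : B 0 9600 := a148.trans b149
theorem a150 : B 0 9664 := a149.trans b150
theorem a151 : B 0 9728 := a150.trans b151
theorem a152 : B 0 9792 := a151.trans b152
theorem a153 : B 0 9856 := a152.trans b153
theorem a154 : B 0 9920 := a153.trans b154
theorem a155 : B 0 9984 := a154.trans b155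
theorem a156 : B 0 10048 := a155.trans b156
theorem a157 : B 0 10112 := a156.trans b157
theorem a158 : B 0 10176 := a157.trans b158
theorem a159 : B 0 10240 := a158.trans b159
theorem a160 : B 0 10304 := a159.trans b160
theorem a161 : B 0 10368 := a160.trans b161
theorem a162 : B 0 10432 := a161.trans b162
theorem a163 : B 0 10496 := a162.trans b163
theorem a164 : B 0 10560 := a163.trans b164
theorem a165 : B 0 10624 := a164.trans b165
theorem a166 : B 0 10688 := a165.trans b166
theorem a167 : B 0 10752 := a166.trans b167
theorem a168 : B 0 10816 := a167.trans b168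
theorem a169 : B 0 10880 := a168.trans b169
theorem a170 : B 0 10944 := a169.trans b170
theorem a171 : B 0 11008 := a170.trans b171
theorem a172 : B 0 11072 := a171.trans b172
theorem a173 : B 0 11136 := a172.trans b173
theorem a174 : B 0 11200 := a173.trans b174
theorem a175 : B 0 11264 := a174.trans b175
theorem a176 : B 0 11328 := a175.trans b176
theorem a177 : B 0 11392 := a176.trans b177
theorem a178 : B 0 11456 := a177.trans b178
theorem a179 : B 0 11520 := a178.trans b179
theorem a180 : B 0 11584 := a179.trans b180
theorem a181 : B 0 11648 := a180.trans b181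
theorem a182 : B 0 11712 := a181.trans b182
theorem a183 : B 0 11776 := a182.trans b183
theorem a184 : B 0 11840 := a183.trans b184
theorem a185 : B 0 11904 := a184.trans b185
theorem a186 : B 0 11968 := a185.trans b186
theorem a187 : B 0 12032 := a186.trans b187
theorem a188 : B 0 12096 := a187.trans b188
theorem a189 : B 0 12160 := a188.trans b189
theorem a190 : B 0 12224 := a189.trans b190
theorem a191 : B 0 12288 := a190.trans b191
theorem a192 : B 0 12328 := a191.trans b192

theorem all : B 0 12328 := a192

theorem caseB {P : ℕ → Pt} (hf : Frame 15 P) (hK : ¬ HCPle (P '' {i | i < 15}) 4) :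
    LC4 15 P := by
  by_contra h
  exact not_hold_empty _ (tgt_sound (is := [12327]) (cs := [(0, 0)]) (by decide +kernel)
    (all _ (Asg.zero _) (thk_sound X11.facts hf hK true (fun _ => h))
      (fun k hk => absurd hk (Nat.not_lt_zero k))) (0, 0) (by simp))

end Pool.Agent.GCP.CB2
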