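import Pool.Agent.GCP.CB2D0
import Pool.Agent.GCP.CB2D1
import Pool.Agent.GCP.CB2D2
import Pool.Agent.GCP.CB2D3
import Pool.Agent.GCP.Th
import Pool.Agent.GCP.X11

set_option autoImplicit false

/-! # Database CB2Db (generated) -/

namespace Pool.Agent.GCP.CB2

open Pool.Agent.GCP DB

def db : DB := (N 6144 (N 3072 (N 1536 (N 768 (N 256 d0 (N 512 d1 d2)) (N 1024 d3 (N 1280 d4 d5))) (N 2304 (N 1792 d6 (N 2048 d7 d8)) (N 2560 d9 (N 2816 d10 d11)))) (N 4608 (N 3840 (N 3328 d12 (N 3584 d13 d14)) (N 4096 d15 (N 4352 d16 d17))) (N 5376 (N 4864 d18 (N 5120 d19 d20)) (N 5632 d21 (N 5888 d22 d23))))) (N 9216 (N 7680 (N 6912 (N 6400 d24 (N 6656 d25 d26)) (N 7168 d27 (N 7424 d28 d29))) (N 8448 (N 7936 d30 (N 8192 d31 d32)) (N 8704 d33 (N 8960 d34 d35)))) (N 10752 (N 9984 (N 9472 d36 (N 9728 d37 d38)) (N 10240 d39 (N 10496 d40 d41))) (N 11520 (N 11008 d42 (N 11264 d43 d44)) (N 12032 (N 11776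 d45 d46) (N 12288 d47 d48))))))

noncomputable def th : Th → ℕ → ℕ → Bool := thk 15 4 7 10 X11.TG true


abbrev B (a b : ℕ) : Prop := Blk db th (nat_lit 0) (nat_lit 0) a b

end Pool.Agent.GCP.CB2
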