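import Pool.Agent.GCP.Frame

/-!
# Certificates: cutting trees with rest leaves
-/

namespace Pool.Agent.GCP

/-- A convex partition with at most `k` parts. -/
def HCPle (X : Set Pt) (k : ℕ) : Prop := ∃ k' ≤ k, HCP X k'

lemma HCPle.mono {X : Set Pt} {k l : ℕ} (h : HCPle X k) (hk : k ≤ l) : HCPle X l := by
  obtain ⟨k', h1, h2⟩ := h
  exact ⟨k', h1.trans hk, h2⟩

lemma HCPle.append {X X' : Set Pt} {k k' : ℕ} (h : HCPle X k) (h' : HCPle X' k')
    (hd : Disjoint (convexHull ℝ X) (convexHull ℝ X')) : HCPle (X ∪ X') (k + k') := by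
  obtain ⟨a, ha, h1⟩ := h
  obtain ⟨b, hb, h2⟩ := h'
  exact ⟨a + b, by omega, h1.append h2 hd⟩

lemma orient_eq_of_collinear {p q r : Pt} (h : Collinear ℝ ({p, q, r} : Set Pt)) :
    orient p q r = 0 := by
  rw [collinear_iff_of_mem (p₀ := p) (by simp)] at h
  obtain ⟨v, hv⟩ := h
  obtain ⟨s, hs⟩ := hv q (by simp)
  obtain ⟨t, ht⟩ := hv r (by simp)
  subst hs ht
  unfold orient
  simp only [vadd_eq_add, Prod.fst_add, Prod.snd_add, Prod.smul_fst, Prod.smul_snd, smul_eq_mul]
  ring

/-- Two sets separated by the line through `a` and `b`, mirrored version. -/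
lemma hull_disjoint' {A B : Set Pt} {a b : Pt} (hab : a ≠ b)
    (hA : ∀ x ∈ A, x ≠ a → orient a b x < 0) (hB : ∀ x ∈ B, x ≠ b → 0 < orient a b x) :
    Disjoint (convexHull ℝ A) (convexHull ℝ B) := by
  rw [Set.disjoint_left]
  intro z hzA hzB
  have h1 : z ∈ {z : Pt | z = a ∨ 0 < (-1) * orient a b z} := by
    refine convexHull_min ?_ (convex_pos a b a (-1) (by simp)) hzA
    intro x hx
    by_cases hxa : x = a
    · exact Or.inl hxa
    · exact Or.inr (by have := hA x hx hxa; linarith)
  have h2 : z ∈ {z : Pt | z = b ∨ 0 < 1 * orient a b z} := by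
    refine convexHull_min ?_ (convex_pos a b b 1 (by simp)) hzB
    intro x hx
    by_cases hxa : x = b
    · exact Or.inl hxa
    · exact Or.inr (by simpa using hB x hx hxa)
  simp only [Set.mem_ofPred_eq] at h1 h2
  rcases h1 with h1 | h1 <;> rcases h2 with h2 | h2
  · exact hab (h1.symm.trans h2)
  · subst h1; simp at h2
  · subst h2; simp at h1
  · linarith

/-- Cutting trees: convex leaves, leaves with few points, leaves with eleven points, and the two
kinds of cuts along the line through the points `a` and `b`. -/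
inductive Ct : Type
  | leaf (l : List ℕ) : Ct
  | free (k : ℕ) (l : List ℕ) : Ct
  | x11 (t : ℕ) (l : List ℕ) : Ct
  | node (a b : ℕ) (L R : Ct) : Ct
  | edon (a b : ℕ) (L R : Ct) : Ct

namespace Ct

/-- All indices in the tree. -/
def pts : Ct → List ℕ
  | leaf l => l
  | free _ l => l
  | x11 _ l => l
  | node _ _ L R => L.pts ++ R.pts
  | edon _ _ L R => L.pts ++ R.pts

/-- The number of parts. -/
def cost : Ct → ℕ
  | leaf _ => 1
  | free k _ => k
  | x11 _ _ => 3
  | node _ _ L R => L.cost + R.cost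
  | edon _ _ L R => L.cost + R.cost

end Ct

/-- A literal: sign and triple. -/
abbrev Q : Type := Bool × ℕ × ℕ × ℕ

/-- Strictly increasing. -/
def srt : List ℕ → Bool
  | [] => true
  | a :: l => l.all (fun b => lt' a b) && srt l

/-- The literal `q` (in the positions of the list `l`) is known to fail. -/
def refq (li : ℕ → ℕ → ℕ → Bool) (l : List ℕ) (q : Q) : Bool :=
  Nat.ble 1 q.2.1 && (lt' q.2.1 q.2.2.1 && (lt' q.2.2.1 q.2.2.2 && (lt' q.2.2.2 l.length &&
  (match q.1 with
    | true => li (l.getD q.2.2.1 0) (l.getD q.2.1 0) (l.getD q.2.2.2 0)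
    | false => li (l.getD q.2.1 0) (l.getD q.2.2.1 0) (l.getD q.2.2.2 0)))))

/-- The check of an eleven point leaf. -/
def x11OK (tg : List (List Q)) (li : ℕ → ℕ → ℕ → Bool) (t : ℕ) (l : List ℕ) : Bool :=
  Nat.beq l.length 11 && (Nat.beq (l.getD 0 1) 0 && (srt l && (lt' t tg.length &&
    (tg.getD t []).all (refq li l))))

namespace Ct

/-- The check of a cutting tree. -/
def chk (n g2 g3 : ℕ) (tg : List (List Q)) (li : ℕ → ℕ → ℕ → Bool) : Ct → Bool
  | leaf l => leafOK li l
  | free k l => (Nat.beq k 2 && Nat.ble l.length g2) || (Nat.beq k 3 && Nat.ble l.length g3)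
  | x11 t l => x11OK tg li t l
  | node a b L R => lt' a n && (lt' b n && (!Nat.beq a b &&
      (L.pts.all (fun x => Nat.beq x a || li a b x) &&
      (R.pts.all (fun y => Nat.beq y b || li b a y) &&
      (L.chk n g2 g3 tg li && R.chk n g2 g3 tg li)))))
  | edon a b L R => lt' a n && (lt' b n && (!Nat.beq a b &&
      (L.pts.all (fun x => Nat.beq x a || li b a x) &&
      (R.pts.all (fun y => Nat.beq y b || li a b y) &&
      (L.chk n g2 g3 tg li && R.chk n g2 g3 tg li)))))

end Ct

/-- The literal holds for the point sequence. -/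
def QH (P : ℕ → Pt) (q : Q) : Prop :=
  match q.1 with
  | true => 0 < orient (P q.2.1) (P q.2.2.1) (P q.2.2.2)
  | false => ¬ 0 < orient (P q.2.1) (P q.2.2.1) (P q.2.2.2)

/-- The facts used for the rest leaves. -/
structure Facts (g2 g3 : ℕ) (tg : List (List Q)) : Prop where
  f2 : ∀ Y : Finset Pt, Y.card ≤ g2 → GeneralPosition Y → HCPle (Y : Set Pt) 2
  f3 : ∀ Y : Finset Pt, Y.card ≤ g3 → GeneralPosition Y → HCPle (Y : Set Pt) 3
  fx : ∀ P, Frame 11 P → ¬ HCPle (P '' {i | i < 11}) 3 → ∀ c ∈ tg, ∃ q ∈ c, QH P q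

section
variable {n : ℕ} {P : ℕ → Pt}

lemma gp_image (hf : Frame n P) {l : List ℕ} (hl : ∀ i ∈ l, i < n) :
    GeneralPosition (l.toFinset.image P) := by
  intro p hp q hq r hr h1 h2 h3 h4
  rw [Finset.mem_image] at hp hq hr
  obtain ⟨i, hi, rfl⟩ := hp
  obtain ⟨j, hj, rfl⟩ := hq
  obtain ⟨k, hk, rfl⟩ := hr
  rw [List.mem_toFinset] at hi hj hk
  refine hf.gp i j k (hl i hi) (hl j hj) (hl k hk) ?_ ?_ ?_ (orient_eq_of_collinear h4)
  · rintro rfl; exact h1 rfl
  · rintro rfl; exact h2 rfl
  · rintro rfl; exact h3 rfl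

lemma image_list (P : ℕ → Pt) (l : List ℕ) :
    ((l.toFinset.image P : Finset Pt) : Set Pt) = P '' {i | i ∈ l} := by
  ext x
  simp

lemma srt_pair : ∀ {l : List ℕ}, srt l = true → l.Pairwise (· < ·)
  | [], _ => List.Pairwise.nil
  | a :: l, h => by
    simp only [srt, Bool.and_eq_true, List.all_eq_true, lt'_iff] at h
    exact List.Pairwise.cons h.1 (srt_pair h.2)

lemma getD_lt {l : List ℕ} (h : l.Pairwise (· < ·)) {i j : ℕ} (hij : i < j)
    (hj : j < l.length) : l.getD i 0 < l.getD j 0 := by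
  rw [List.getD_eq_getElem _ _ (by omega), List.getD_eq_getElem _ _ hj]
  exact List.pairwise_iff_getElem.1 h i j (by omega) hj hij

/-- A sorted subsequence through the base point is a frame. -/
lemma Frame.sub (hf : Frame n P) {l : List ℕ} (h0 : l.getD 0 1 = 0) (hs : l.Pairwise (· < ·))
    (hl : ∀ i ∈ l, i < n) : Frame l.length (fun i => P (l.getD i 0)) := by
  have hpos : 0 < l.length := by
    rcases l with _ | ⟨a, l⟩
    · simp at h0
    · simp
  have h0' : l.getD 0 0 = 0 := by
    rw [List.getD_eq_getElem _ _ hpos] at h0 ⊢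
    exact h0
  have hlt : ∀ i, i < l.length → l.getD i 0 < n := by
    intro i hi
    rw [List.getD_eq_getElem _ _ hi]
    exact hl _ (List.getElem_mem hi)
  have hmono : ∀ i j, i < j → j < l.length → l.getD i 0 < l.getD j 0 := fun i j h1 h2 =>
    getD_lt hs h1 h2
  have hne : ∀ i j, i < l.length → j < l.length → i ≠ j → l.getD i 0 ≠ l.getD j 0 := by
    intro i j hi hj hij
    rcases lt_or_gt_of_ne hij with h | h
    · exact (hmono i j h hj).ne
    · exact (hmono j i h hi).ne'
  refine ⟨?_, ?_, ?_, ?_⟩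
  · intro i j hi hj hij
    exact hf.inj _ _ (hlt i hi) (hlt j hj) (hne i j hi hj hij)
  · intro i j k hi hj hk h1 h2 h3
    exact hf.gp _ _ _ (hlt i hi) (hlt j hj) (hlt k hk) (hne i j hi hj h1) (hne j k hj hk h2)
      (hne i k hi hk h3)
  · intro i j h1 h2 h3
    simp only [h0']
    have := hmono 0 i (by omega) (by omega)
    exact hf.srt _ _ (by omega) (hmono i j h2 h3) (hlt j h3)
  · intro i j k m h1 h2 h3 h4 h5
    have := hmono 0 i (by omega) (by omega)
    exact hf.sig _ _ _ _ (by omega) (hmono i j h2 (by omega)) (hmono j k h3 (by omega))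
      (hmono k m h4 (by omega)) (by have := hlt m (by omega); omega)

lemma image_sub (P : ℕ → Pt) (l : List ℕ) :
    (fun i => P (l.getD i 0)) '' {i | i < l.length} = P '' {i | i ∈ l} := by
  ext x
  constructor
  · rintro ⟨i, hi, rfl⟩
    simp only [Set.mem_ofPred_eq] at hi
    refine ⟨l.getD i 0, ?_, rfl⟩
    rw [List.getD_eq_getElem _ _ hi]
    exact List.getElem_mem hi
  · rintro ⟨i, hi, rfl⟩
    simp only [Set.mem_ofPred_eq] at hi
    obtain ⟨j, hj, rfl⟩ := List.getElem_of_mem hi
    refine ⟨j, hj, ?_⟩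
    simp only
    rw [List.getD_eq_getElem _ _ hj]

lemma refq_sound (hf : Frame n P) {T F : ℕ} (ha : Asg (val P) T F) {l : List ℕ}
    (hl : ∀ i ∈ l, i < n) {q : Q} (h : refq (lit T F) l q = true) :
    ¬ QH (fun i => P (l.getD i 0)) q := by
  obtain ⟨s, i, j, k⟩ := q
  simp only [refq, Bool.and_eq_true, lt'_iff, Nat.ble_eq] at h
  obtain ⟨h1, h2, h3, h4, h5⟩ := h
  have hlt : ∀ i, i < l.length → l.getD i 0 < n := by
    intro i hi
    rw [List.getD_eq_getElem _ _ hi]
    exact hl _ (List.getElem_mem hi)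
  cases s with
  | true =>
    simp only at h5
    have := lit_sound hf ha (hlt j (by omega)) (hlt i (by omega)) (hlt k h4) h5
    rw [orient_swap] at this
    simp only [QH]
    linarith
  | false =>
    simp only at h5
    have := lit_sound hf ha (hlt i (by omega)) (hlt j (by omega)) (hlt k h4) h5
    simp only [QH]
    exact fun h => h this

lemma x11_sound {g2 g3 : ℕ} {tg : List (List Q)} (hF : Facts g2 g3 tg) (hf : Frame n P)
    {T F : ℕ} (ha : Asg (val P) T F) {t : ℕ} {l : List ℕ}
    (hl : ∀ i ∈ l, i < n) (h : x11OK tg (lit T F) t l = true) :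
    HCPle (P '' {i | i ∈ l}) 3 := by
  simp only [x11OK, Bool.and_eq_true, Nat.beq_eq, lt'_iff] at h
  obtain ⟨h1, h2, h3, h4, h5⟩ := h
  have hs := srt_pair h3
  have hfr := hf.sub h2 hs hl
  rw [h1] at hfr
  by_contra hc
  rw [← image_sub P l, h1] at hc
  have hmem : tg.getD t [] ∈ tg := by
    rw [List.getD_eq_getElem _ _ h4]
    exact List.getElem_mem h4
  obtain ⟨q, hq, hq'⟩ := hF.fx _ hfr hc _ hmem
  rw [List.all_eq_true] at h5
  exact refq_sound hf ha hl (h5 q hq) hq'

theorem ct_sound {g2 g3 : ℕ} {tg : List (List Q)} (hF : Facts g2 g3 tg) (hf : Frame n P)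
    {T F : ℕ} (ha : Asg (val P) T F) :
    ∀ t : Ct, (∀ i ∈ t.pts, i < n) → t.pts.Nodup → t.chk n g2 g3 tg (lit T F) = true →
      HCPle (P '' {i | i ∈ t.pts}) t.cost
  | .leaf l, hl, hnd, h => by
    obtain ⟨h1, h2⟩ := leaf_sound hf.inj hf.gp
      (fun i j k hi hj hk => lit_sound hf ha hi hj hk) hl hnd h
    refine ⟨1, le_refl _, [l.toFinset.image P], rfl, ?_, by simp, ?_⟩
    · intro Y hY
      simp only [List.mem_singleton] at hY
      subst hY
      exact ⟨h1, h2⟩
    · intro x
      simp [Ct.pts]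
  | .free k l, hl, hnd, h => by
    simp only [Ct.chk, Bool.or_eq_true, Bool.and_eq_true, Nat.beq_eq, Nat.ble_eq] at h
    have hc : (l.toFinset.image P).card ≤ l.length :=
      Finset.card_image_le.trans (List.toFinset_card_le l)
    have hg := gp_image hf hl
    rcases h with ⟨rfl, h⟩ | ⟨rfl, h⟩
    · have := hF.f2 _ (hc.trans h) hg
      rw [image_list] at this
      exact this
    · have := hF.f3 _ (hc.trans h) hg
      rw [image_list] at this
      exact this
  | .x11 t l, hl, hnd, h => x11_sound hF hf ha hl h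
  | .node a b L R, hl, hnd, h => by
    simp only [Ct.chk, Bool.and_eq_true, Bool.not_eq_true', lt'_iff] at h
    obtain ⟨ha', hb, hab, hL, hR, hcL, hcR⟩ := h
    have hab' : a ≠ b := by
      rintro rfl
      have : Nat.beq a a = true := by rw [Nat.beq_eq]
      rw [this] at hab
      exact absurd hab (by simp)
    rw [List.all_eq_true] at hL hR
    simp only [Ct.pts, List.mem_append] at hl
    have hnd' := hnd
    simp only [Ct.pts] at hnd'
    rw [List.nodup_append] at hnd'
    have iL := ct_sound hF hf ha L (fun i hi => hl i (Or.inl hi)) hnd'.1 hcL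
    have iR := ct_sound hF hf ha R (fun i hi => hl i (Or.inr hi)) hnd'.2.1 hcR
    have heq : P '' {i | i ∈ (Ct.node a b L R).pts} =
        P '' {i | i ∈ L.pts} ∪ P '' {i | i ∈ R.pts} := by
      rw [← Set.image_union]
      congr 1
      ext i
      simp [Ct.pts]
    rw [heq]
    refine HCPle.append iL iR (hull_disjoint (hf.inj a b ha' hb hab') ?_ ?_)
    · rintro x ⟨i, hi, rfl⟩ hx
      have h1 := hL i hi
      simp only [Bool.or_eq_true, Nat.beq_eq] at h1
      rcases h1 with h1 | h1
      · subst h1; exact absurd rfl hx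
      · exact lit_sound hf ha ha' hb (hl i (Or.inl hi)) h1
    · rintro x ⟨i, hi, rfl⟩ hx
      have h1 := hR i hi
      simp only [Bool.or_eq_true, Nat.beq_eq] at h1
      rcases h1 with h1 | h1
      · subst h1; exact absurd rfl hx
      · have := lit_sound hf ha hb ha' (hl i (Or.inr hi)) h1
        rw [orient_swap] at this
        linarith
  | .edon a b L R, hl, hnd, h => by
    simp only [Ct.chk, Bool.and_eq_true, Bool.not_eq_true', lt'_iff] at h
    obtain ⟨ha', hb, hab, hL, hR, hcL, hcR⟩ := h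
    have hab' : a ≠ b := by
      rintro rfl
      have : Nat.beq a a = true := by rw [Nat.beq_eq]
      rw [this] at hab
      exact absurd hab (by simp)
    rw [List.all_eq_true] at hL hR
    simp only [Ct.pts, List.mem_append] at hl
    have hnd' := hnd
    simp only [Ct.pts] at hnd'
    rw [List.nodup_append] at hnd'
    have iL := ct_sound hF hf ha L (fun i hi => hl i (Or.inl hi)) hnd'.1 hcL
    have iR := ct_sound hF hf ha R (fun i hi => hl i (Or.inr hi)) hnd'.2.1 hcR
    have heq : P '' {i | i ∈ (Ct.edon a b L R).pts} =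
        P '' {i | i ∈ L.pts} ∪ P '' {i | i ∈ R.pts} := by
      rw [← Set.image_union]
      congr 1
      ext i
      simp [Ct.pts]
    rw [heq]
    refine HCPle.append iL iR (hull_disjoint' (hf.inj a b ha' hb hab') ?_ ?_)
    · rintro x ⟨i, hi, rfl⟩ hx
      have h1 := hL i hi
      simp only [Bool.or_eq_true, Nat.beq_eq] at h1
      rcases h1 with h1 | h1
      · subst h1; exact absurd rfl hx
      · have := lit_sound hf ha hb ha' (hl i (Or.inl hi)) h1
        rw [orient_swap] at this
        linarith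
    · rintro x ⟨i, hi, rfl⟩ hx
      have h1 := hR i hi
      simp only [Bool.or_eq_true, Nat.beq_eq] at h1
      rcases h1 with h1 | h1
      · subst h1; exact absurd rfl hx
      · exact lit_sound hf ha ha' hb (hl i (Or.inr hi)) h1

end

end Pool.Agent.GCP
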