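import Pool.Agent.GCP.Win

/-!
# Decision trees over window variables, read from a stream of digits (MP_062f91_co)
-/

namespace Pool.Agent.GCP

namespace Win

/-! ### rank trees -/

/-- a decision tree with values -/
inductive RT : Type
  | lf (r : ℕ) : RT
  | nd (v : ℕ) (a b : RT) : RT

namespace RT

open Classical in
/-- the value -/
noncomputable def ev (σ : ℕ → Prop) : RT → ℕ
  | lf r => r
  | nd v a b => if σ v then a.ev σ else b.ev σ

/-- the variables are below the bound -/
def vlt (N : ℕ) : RT → Bool
  | lf _ => true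
  | nd v a b => Nat.blt v N && (a.vlt N && b.vlt N)

/-- the value plus one when it is determined by the masks, otherwise zero -/
noncomputable def pe (T F : ℕ) (t : RT) : ℕ :=
  RT.rec (motive := fun _ => ℕ) (fun r => Nat.succ r)
    (fun v _ _ a b => Bool.rec (motive := fun _ => ℕ)
      (Bool.rec (motive := fun _ => ℕ) 0 b (tb F v)) a (tb T v)) t

/-- entry of a renaming table: `2 v' + s`, eight bits -/
def me (M v : ℕ) : ℕ := Nat.land (Nat.shiftRight M (Nat.mul 8 v)) 255

/-- the same for the renamed assignment -/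
noncomputable def pm (M T F : ℕ) (t : RT) : ℕ :=
  RT.rec (motive := fun _ => ℕ) (fun r => Nat.succ r)
    (fun v _ _ a b => Bool.rec (motive := fun _ => ℕ)
      (Bool.rec (motive := fun _ => ℕ)
        (Bool.rec (motive := fun _ => ℕ) 0 b (tb F (Nat.shiftRight (me M v) 1))) a
        (tb T (Nat.shiftRight (me M v) 1)))
      (Bool.rec (motive := fun _ => ℕ)
        (Bool.rec (motive := fun _ => ℕ) 0 b (tb T (Nat.shiftRight (me M v) 1))) a
        (tb F (Nat.shiftRight (me M v) 1)))
      (tb (me M v) 0)) t

lemma pe_sound {σ : ℕ → Prop} {T F : ℕ} (ha : Asg σ T F) : ∀ (t : RT) {r : ℕ},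
    t.pe T F = r + 1 → t.ev σ = r
  | lf r', r, h => by
    have : Nat.succ r' = r + 1 := h
    simp only [ev]
    omega
  | nd v a b, r, h => by
    have h' : (Bool.rec (motive := fun _ => ℕ)
      (Bool.rec (motive := fun _ => ℕ) 0 (b.pe T F) (tb F v)) (a.pe T F) (tb T v)) = r + 1 := h
    cases hT : tb T v with
    | true =>
      rw [hT] at h'
      have h1 : σ v := (ha v).1 (tb_iff.1 hT)
      rw [ev, if_pos h1]
      exact pe_sound ha a h'
    | false =>
      rw [hT] at h'
      cases hF : tb F v with
      | true =>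
        rw [hF] at h'
        have h1 : ¬ σ v := (ha v).2 (tb_iff.1 hF)
        rw [ev, if_neg h1]
        exact pe_sound ha b h'
      | false =>
        rw [hF] at h'
        exact absurd h' (by simp)

/-- the renamed assignment -/
def ren (M : ℕ) (σ : ℕ → Prop) (v : ℕ) : Prop :=
  if tb (me M v) 0 = true then ¬ σ (Nat.shiftRight (me M v) 1)
  else σ (Nat.shiftRight (me M v) 1)

lemma pm_sound {σ : ℕ → Prop} {M T F : ℕ} (ha : Asg σ T F) : ∀ (t : RT) {r : ℕ},
    t.pm M T F = r + 1 → t.ev (ren M σ) = r
  | lf r', r, h => by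
    have : Nat.succ r' = r + 1 := h
    simp only [ev]
    omega
  | nd v a b, r, h => by
    have h' : (Bool.rec (motive := fun _ => ℕ)
      (Bool.rec (motive := fun _ => ℕ)
        (Bool.rec (motive := fun _ => ℕ) 0 (b.pm M T F) (tb F (Nat.shiftRight (me M v) 1)))
        (a.pm M T F) (tb T (Nat.shiftRight (me M v) 1)))
      (Bool.rec (motive := fun _ => ℕ)
        (Bool.rec (motive := fun _ => ℕ) 0 (b.pm M T F) (tb T (Nat.shiftRight (me M v) 1)))
        (a.pm M T F) (tb F (Nat.shiftRight (me M v) 1)))
      (tb (me M v) 0)) = r + 1 := h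
    cases h0 : tb (me M v) 0 with
    | true =>
      rw [h0] at h'
      cases hF : tb F (Nat.shiftRight (me M v) 1) with
      | true =>
        rw [hF] at h'
        have h1 : ren M σ v := by
          unfold ren
          rw [if_pos h0]
          exact (ha _).2 (tb_iff.1 hF)
        rw [ev, if_pos h1]
        exact pm_sound ha a h'
      | false =>
        rw [hF] at h'
        cases hT : tb T (Nat.shiftRight (me M v) 1) with
        | true =>
          rw [hT] at h'
          have h1 : ¬ ren M σ v := by
            unfold ren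
            rw [if_pos h0, not_not]
            exact (ha _).1 (tb_iff.1 hT)
          rw [ev, if_neg h1]
          exact pm_sound ha b h'
        | false =>
          rw [hT] at h'
          exact absurd h' (by simp)
    | false =>
      rw [h0] at h'
      cases hT : tb T (Nat.shiftRight (me M v) 1) with
      | true =>
        rw [hT] at h'
        have h1 : ren M σ v := by
          unfold ren
          rw [if_neg (by rw [h0]; simp)]
          exact (ha _).1 (tb_iff.1 hT)
        rw [ev, if_pos h1]
        exact pm_sound ha a h'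
      | false =>
        rw [hT] at h'
        cases hF : tb F (Nat.shiftRight (me M v) 1) with
        | true =>
          rw [hF] at h'
          have h1 : ¬ ren M σ v := by
            unfold ren
            rw [if_neg (by rw [h0]; simp)]
            exact (ha _).2 (tb_iff.1 hF)
          rw [ev, if_neg h1]
          exact pm_sound ha b h'
        | false =>
          rw [hF] at h'
          exact absurd h' (by simp)

lemma ev_congr {σ τ : ℕ → Prop} {N : ℕ} (h : ∀ v, v < N → (σ v ↔ τ v)) : ∀ (t : RT),
    t.vlt N = true → t.ev σ = t.ev τ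
  | lf r, _ => rfl
  | nd v a b, hv => by
    simp only [vlt, Bool.and_eq_true, Nat.blt_eq] at hv
    have e := h v hv.1
    have ea := ev_congr h a hv.2.1
    have eb := ev_congr h b hv.2.2
    rw [ev, ev, ea, eb]
    by_cases h1 : σ v
    · rw [if_pos h1, if_pos (e.1 h1)]
    · rw [if_neg h1, if_neg (fun h2 => h1 (e.2 h2))]

end RT

/-! ### the stream -/

/-- force a number -/
def fc (x : ℕ) (f : ℕ → ℕ) : ℕ := Nat.rec (motive := fun _ => ℕ) (f 0) (fun t _ => f (Nat.succ t)) x

lemma fc_eq (x : ℕ) (f : ℕ → ℕ) : fc x f = f x := by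
  cases x <;> rfl

/-- Reads a decision tree from a stream of digits of twelve bits: a digit below 128 is a branching
variable, the other digits are leaves which are checked by `lf`. The value is the rest of the stream plus
one, or zero. -/
def run (lf : ℕ → ℕ → ℕ → ℕ → ℕ) (k : ℕ) : ℕ → ℕ → ℕ → ℕ :=
  Nat.rec (motive := fun _ => ℕ → ℕ → ℕ → ℕ) (fun _ _ _ => 0)
    (fun _ ih code T F =>
      fc (Nat.land code 4095) fun d =>
      fc (Nat.shiftRight code 12) fun r =>
      Bool.rec (motive := fun _ => ℕ)
        (lf d r T F)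
        (fc (Nat.pow 2 d) fun b =>
          Nat.rec (motive := fun _ => ℕ) 0
            (fun s _ => fc (Nat.lor F b) fun F' => ih s T F')
            (fc (Nat.lor T b) fun T' => ih r T' F))
        (Nat.ble d 127)) k

theorem run_sound {lf : ℕ → ℕ → ℕ → ℕ → ℕ} {G : (ℕ → Prop) → Prop}
    (hlf : ∀ d r T F σ, lf d r T F ≠ 0 → Asg σ T F → G σ) : ∀ (k code T F : ℕ),
    run lf k code T F ≠ 0 → ∀ σ, Asg σ T F → G σ := by
  intro k
  induction k with
  | zero => intro code T F h; exact absurd rfl h
  | succ k ih =>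
    intro code T F h σ ha
    have h' : (fc (Nat.land code 4095) fun d =>
      fc (Nat.shiftRight code 12) fun r =>
      Bool.rec (motive := fun _ => ℕ)
        (lf d r T F)
        (fc (Nat.pow 2 d) fun b =>
          Nat.rec (motive := fun _ => ℕ) 0
            (fun s _ => fc (Nat.lor F b) fun F' => run lf k s T F')
            (fc (Nat.lor T b) fun T' => run lf k r T' F))
        (Nat.ble d 127)) ≠ 0 := h
    rw [fc_eq, fc_eq] at h'
    generalize Nat.land code 4095 = d at h'
    generalize Nat.shiftRight code 12 = r at h'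
    cases hd : Nat.ble d 127 with
    | false =>
      rw [hd] at h'
      exact hlf d r T F σ h' ha
    | true =>
      rw [hd] at h'
      simp only [fc_eq] at h'
      have hb : (Nat.pow 2 d).testBit d = true := testBit_pow_self d
      have hb' : ∀ v, (Nat.pow 2 d).testBit v = true → v = d := by
        intro v hv
        have hv' : (2 ^ d).testBit v = true := hv
        rw [Nat.testBit_two_pow] at hv'
        simp only [decide_eq_true_eq] at hv'
        exact hv'.symm
      generalize hx : run lf k r (Nat.lor T (Nat.pow 2 d)) F = x at h'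
      cases x with
      | zero => exact absurd rfl h'
      | succ s =>
        by_cases hσ : σ d
        · exact ih r _ F (by rw [hx]; exact Nat.succ_ne_zero s) σ
            (ha.orT (fun v hv => by rw [hb' v hv]; exact hσ))
        · exact ih s T _ h' σ (ha.orF (fun v hv => by rw [hb' v hv]; exact hσ))

/-! ### tables of clauses -/

/-- all bits of `m` are bits of `T` -/
def sub (m T : ℕ) : Bool := Nat.beq (Nat.land m T) m

lemma sub_iff {m T : ℕ} (h : sub m T = true) {v : ℕ} (hv : m.testBit v = true) :
    T.testBit v = true := by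
  unfold sub at h
  rw [Nat.beq_eq] at h
  have h' : m &&& T = m := h
  rw [← h', Nat.testBit_and, Bool.and_eq_true] at hv
  exact hv.2

lemma Asg_sub {σ : ℕ → Prop} {T F mT mF : ℕ} (ha : Asg σ T F) (h1 : sub mT T = true)
    (h2 : sub mF F = true) : Asg σ mT mF := by
  intro v
  exact ⟨fun h => (ha v).1 (sub_iff h1 h), fun h => (ha v).2 (sub_iff h2 h)⟩

/-- the mask of 56 bits -/
def m56 : ℕ := 72057594037927935

/-- entry of a table: mask of true and mask of false variables -/
def eT (E k : ℕ) : ℕ := Nat.land (Nat.shiftRight E (Nat.mul 112 k)) m56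

/-- second mask -/
def eF (E k : ℕ) : ℕ := Nat.land (Nat.shiftRight E (Nat.add (Nat.mul 112 k) 56)) m56

/-- the quadruples `1 ≤ i < j < k < l ≤ 8` -/
def quads : List (ℕ × ℕ × ℕ × ℕ) :=
  (List.range 9).flatMap fun l => (List.range l).flatMap fun k => (List.range k).flatMap fun j =>
    ((List.range j).filter (fun i => Nat.ble 1 i)).map fun i => (i, j, k, l)

/-- entries `8 m + t` of the table are the signotope axioms -/
def axTab (E : ℕ) : Bool :=
  Nat.beq quads.length 70 && (quads.zipIdx.all fun q => (List.range 8).all fun t =>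
    axOK 8 q.1.1 q.1.2.1 q.1.2.2.1 q.1.2.2.2 t (eF E (8 * q.2 + t), eT E (8 * q.2 + t)))

section
variable {L : ℕ → Pt → Prop} {P : ℕ → Pt}

/-- the signotope axioms for windows -/
lemma ax_holdw (hf : WF P) {i j k l t : ℕ} {c : ℕ × ℕ} (h : axOK 8 i j k l t c = true) :
    Hold (vw L P) c := by
  simp only [axOK, Bool.and_eq_true, lt'_iff, Nat.ble_eq, Nat.beq_eq] at h
  obtain ⟨h1, h2, h3, h4, h5, h6, h7⟩ := h
  have hc : c = axc i j k l t := Prod.ext h6 h7
  subst hc
  have hs := hf.sig i j k l h1 h2 h3 h4 h5
  simp only at hs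
  have ei : ∀ {a b c : ℕ}, 1 ≤ a → a < b → b < c → c ≤ 8 →
      (vw L P (idx a b c) ↔ 0 < orient (P (a - 1)) (P (b - 1)) (P (c - 1))) := by
    intro a b c h1 h2 h3 h4
    have := vw_ix L P (a := a - 1) (b := b - 1) (c := c - 1) (by omega) (by omega) (by omega)
    have e : ix (a - 1) (b - 1) (c - 1) = idx a b c := by
      unfold ix
      congr 1 <;> omega
    rw [e] at this
    exact this
  rw [← ei (by omega : 1 ≤ j) h3 h4 h5, ← ei h1 (by omega : i < k) h4 h5,
    ← ei h1 h2 (by omega : j < l) h5, ← ei h1 h2 h3 (by omega)] at hs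
  have nab : idx j k l ≠ idx i j l := fun h => by
    have := (idx_inj (by omega) h3 h4 h1 h2 (by omega) h).1
    omega
  have nad : idx j k l ≠ idx i j k := fun h => by
    have := (idx_inj (by omega) h3 h4 h1 h2 h3 h).1
    omega
  have nbd : idx i k l ≠ idx i j k := fun h => by
    have := (idx_inj h1 (by omega) h4 h1 h2 h3 h).2.1
    omega
  obtain ⟨⟨s1, s2⟩, ⟨s3, s4⟩, ⟨s5, s6⟩, s7, s8⟩ := hs
  have key : ∀ x y z : ℕ, x ≠ z →
      (¬ (vw L P x ∧ ¬ vw L P y ∧ vw L P z) →
        Hold (vw L P) (Nat.pow 2 y, Nat.add (Nat.pow 2 x) (Nat.pow 2 z))) ∧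
      (¬ (¬ vw L P x ∧ vw L P y ∧ ¬ vw L P z) →
        Hold (vw L P) (Nat.add (Nat.pow 2 x) (Nat.pow 2 z), Nat.pow 2 y)) := by
    intro x y z hxz
    have hb1 := testBit_add_pow hxz
    have hb2 := testBit_pow_self y
    constructor
    · intro h
      by_cases hx : vw L P x
      · by_cases hy : vw L P y
        · exact ⟨y, Or.inl ⟨hb2, hy⟩⟩
        · by_cases hz : vw L P z
          · exact absurd ⟨hx, hy, hz⟩ h
          · exact ⟨z, Or.inr ⟨hb1.2, hz⟩⟩
      · exact ⟨x, Or.inr ⟨hb1.1, hx⟩⟩
    · intro h
      by_cases hx : vw L P x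
      · exact ⟨x, Or.inl ⟨hb1.1, hx⟩⟩
      · by_cases hy : vw L P y
        · by_cases hz : vw L P z
          · exact ⟨z, Or.inl ⟨hb1.2, hz⟩⟩
          · exact absurd ⟨hx, hy, hz⟩ h
        · exact ⟨y, Or.inr ⟨hb2, hy⟩⟩
  match t with
  | 0 => exact (key _ _ _ nab).1 s1
  | 1 => exact (key _ _ _ nab).2 s2
  | 2 => exact (key _ _ _ nad).1 s3
  | 3 => exact (key _ _ _ nad).2 s4
  | 4 => exact (key _ _ _ nad).1 s5
  | 5 => exact (key _ _ _ nad).2 s6
  | 6 => exact (key _ _ _ nbd).1 s7
  | _ + 7 => exact (key _ _ _ nbd).2 s8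

lemma not_Asg_of_Hold {σ : ℕ → Prop} {mT mF : ℕ} (h : Hold σ (mF, mT)) : ¬ Asg σ mT mF := by
  intro ha
  obtain ⟨v, h | h⟩ := h
  · exact (ha v).2 h.1 h.2
  · exact h.2 ((ha v).1 h.1)

lemma axTab_sound {E : ℕ} (h : axTab E = true) (hf : WF P) {k : ℕ} (hk : k < 560) :
    ¬ Asg (vw L P) (eT E k) (eF E k) := by
  simp only [axTab, Bool.and_eq_true, Nat.beq_eq, List.all_eq_true, List.mem_range] at h
  obtain ⟨h1, h2⟩ := h
  have hm : k / 8 < quads.length := by omega
  have h3 := h2 (quads[k / 8], k / 8) (by
    rw [List.mem_zipIdx_iff_getElem?]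
    simp [List.getElem?_eq_getElem hm]) (k % 8) (Nat.mod_lt _ (by norm_num))
  have e : 8 * (k / 8) + k % 8 = k := by omega
  simp only [e] at h3
  exact not_Asg_of_Hold (ax_holdw hf h3)

/-! ### convex position -/

/-- the point `x` with its neighbours `p`, `q` -/
def good (li : ℕ → ℕ → ℕ → Bool) (l : List ℕ) (p x q : ℕ) : Bool :=
  li p x q && l.all (fun z => Nat.beq z p || (Nat.beq z x || (Nat.beq z q || li p q z)))

/-- all points of the list, which is in cyclic order, are good -/
def cyc (li : ℕ → ℕ → ℕ → Bool) (l : List ℕ) (f : ℕ) : ℕ → List ℕ → Bool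
  | _, [] => true
  | p, x :: r => good li l p x (r.headD f) && cyc li l f x r

/-- convex position of a list in cyclic order -/
def cvx (li : ℕ → ℕ → ℕ → Bool) (l : List ℕ) : Bool :=
  (Nat.ble 1 l.length && Nat.ble l.length 3) ||
    (Nat.ble 4 l.length && cyc li l (l.headD 0) (l.getLastD 0) l)

lemma cyc_mem {li : ℕ → ℕ → ℕ → Bool} {l : List ℕ} {f : ℕ} (hf : f ∈ l) : ∀ (r : List ℕ) (p : ℕ),
    p ∈ l → (∀ x ∈ r, x ∈ l) → cyc li l f p r = true → ∀ x ∈ r, ∃ p ∈ l, ∃ q ∈ l,
      good li l p x q = true := by
  intro r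
  induction r with
  | nil => intro p _ _ _ x hx; exact absurd hx (by simp)
  | cons y r ih =>
    intro p hp hr h x hx
    simp only [cyc, Bool.and_eq_true] at h
    rcases List.mem_cons.1 hx with hx | hx
    · subst hx
      refine ⟨p, hp, r.headD f, ?_, h.1⟩
      cases r with
      | nil => exact hf
      | cons z r => exact hr z (by simp)
    · exact ih y (hr y (by simp)) (fun z hz => hr z (by simp [hz])) h.2 x hx

lemma cvx_sound {n : ℕ} (hinj : ∀ i j, i < n → j < n → i ≠ j → P i ≠ P j)
    (hgp : ∀ i j k, i < n → j < n → k < n → i ≠ j → j ≠ k → i ≠ k →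
      orient (P i) (P j) (P k) ≠ 0)
    {li : ℕ → ℕ → ℕ → Bool} (hlit : ∀ i j k, i < n → j < n → k < n → li i j k = true →
      0 < orient (P i) (P j) (P k))
    {l : List ℕ} (hl : ∀ i ∈ l, i < n) (hnd : l.Nodup) (h : cvx li l = true) :
    (l.toFinset.image P).Nonempty ∧ IsConvexPolygon (l.toFinset.image P) := by
  simp only [cvx, Bool.or_eq_true, Bool.and_eq_true, Nat.ble_eq] at h
  rcases h with ⟨h1, h2⟩ | ⟨h1, h2⟩
  · refine leaf_sound (lit := li) hinj hgp hlit hl hnd ?_
    match l, h1, h2 with
    | [_], _, _ => rfl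
    | [_, _], _, _ => rfl
    | [_, _, _], _, _ => rfl
  · have hne : l ≠ [] := by
      rintro rfl
      simp at h1
    have hhead : l.headD 0 ∈ l := by
      cases l with
      | nil => exact absurd rfl hne
      | cons a l => simp
    have hlast : l.getLastD 0 ∈ l := by
      rw [List.getLastD_eq_getLast?, List.getLast?_eq_some_getLast hne]
      exact List.getLast_mem hne
    have hg := cyc_mem hhead l _ hlast (fun x hx => hx) h2
    refine ⟨?_, ?_⟩
    · rw [Finset.image_nonempty]
      exact ⟨_, List.mem_toFinset.2 hhead⟩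
    · intro x hx
      rw [Finset.mem_coe, Finset.mem_image] at hx
      obtain ⟨i, hi, rfl⟩ := hx
      rw [List.mem_toFinset] at hi
      obtain ⟨p, hp, q, hq, hgd⟩ := hg i hi
      simp only [good, Bool.and_eq_true, List.all_eq_true, Bool.or_eq_true, Nat.beq_eq] at hgd
      have hneg : orient (P p) (P q) (P i) < 0 := by
        rw [orient_swap']
        have := hlit p i q (hl p hp) (hl i hi) (hl q hq) hgd.1
        linarith
      refine extreme_of_side ?_ hneg ?_
      · exact Finset.mem_coe.2 (Finset.mem_image_of_mem _ (List.mem_toFinset.2 hi))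
      · intro y hy hyi
        rw [Finset.mem_coe, Finset.mem_image] at hy
        obtain ⟨j, hj, rfl⟩ := hy
        rw [List.mem_toFinset] at hj
        rcases hgd.2 j hj with h3 | h3 | h3 | h3
        · subst h3; simp
        · subst h3; exact absurd rfl hyi
        · subst h3; simp
        · exact (hlit p q j (hl p hp) (hl q hq) (hl j hj) h3).le

/-- decode digits of four bits -/
def digs : ℕ → ℕ → List ℕ
  | 0, _ => []
  | n + 1, c => Nat.land c 15 :: digs n (Nat.shiftRight c 4)

/-- the partition of the eight points into two convex polygons, separated by the line `a b` -/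
def two (li : ℕ → ℕ → ℕ → Bool) (a b : ℕ) (ls rs : List ℕ) : Bool :=
  Nat.blt a 8 && (Nat.blt b 8 && (!Nat.beq a b && (Nat.beq (ls.length + rs.length) 8 &&
    ((List.range 8).all (fun i => (ls ++ rs).elem i) &&
    (ls.all (fun x => Nat.beq x a || li a b x) && (rs.all (fun y => Nat.beq y b || li b a y) &&
    (cvx li ls && cvx li rs)))))))

lemma two_sound (hf : WF P) {T F : ℕ} (ha : Asg (vw L P) T F) {a b : ℕ} {ls rs : List ℕ}
    (h : two (lw T F) a b ls rs = true) : HCPle (P '' {i | i < 8}) 2 := by
  classical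
  simp only [two, Bool.and_eq_true, Nat.blt_eq, Bool.not_eq_true', Nat.beq_eq, List.all_eq_true,
    List.mem_range, List.elem_eq_mem, decide_eq_true_eq] at h
  obtain ⟨h1, h2, h3, h4, h5, h6, h7, h8, h9⟩ := h
  have hab : a ≠ b := by
    rintro rfl
    have : Nat.beq a a = true := by rw [Nat.beq_eq]
    rw [this] at h3
    exact absurd h3 (by simp)
  have hsub : (Finset.range 8) ⊆ (ls ++ rs).toFinset := by
    intro i hi
    rw [List.mem_toFinset]
    exact h5 i (Finset.mem_range.1 hi)
  have hlen : (ls ++ rs).length = 8 := by rw [List.length_append]; exact h4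
  have hcard : (ls ++ rs).toFinset.card = 8 := by
    apply le_antisymm
    · exact (List.toFinset_card_le _).trans (by rw [hlen])
    · have := Finset.card_le_card hsub
      simpa using this
  have hnd : (ls ++ rs).Nodup := by
    have h10 := (Multiset.toFinset_card_eq_card_iff_nodup (m := ((ls ++ rs : List ℕ) : Multiset ℕ))).1
      (by
        have : ((ls ++ rs : List ℕ) : Multiset ℕ).toFinset = (ls ++ rs).toFinset := by
          ext x; simp
        rw [this, hcard, Multiset.coe_card, hlen])
    exact Multiset.coe_nodup.1 h10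
  have heq : (ls ++ rs).toFinset = Finset.range 8 := by
    symm
    apply Finset.eq_of_subset_of_card_le hsub
    rw [hcard]; simp
  have hlt : ∀ i ∈ ls ++ rs, i < 8 := by
    intro i hi
    have : i ∈ (ls ++ rs).toFinset := List.mem_toFinset.2 hi
    rw [heq] at this
    exact Finset.mem_range.1 this
  have hl : ∀ i ∈ ls, i < 8 := fun i hi => hlt i (List.mem_append.2 (Or.inl hi))
  have hr : ∀ i ∈ rs, i < 8 := fun i hi => hlt i (List.mem_append.2 (Or.inr hi))
  rw [List.nodup_append] at hnd
  have hlit : ∀ i j k, i < 8 → j < 8 → k < 8 → lw T F i j k = true →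
      0 < orient (P i) (P j) (P k) := fun i j k hi hj hk h => lw_sound hf ha hi hj hk h
  obtain ⟨l1, l2⟩ := cvx_sound hf.inj hf.gp hlit hl hnd.1 h8
  obtain ⟨r1, r2⟩ := cvx_sound hf.inj hf.gp hlit hr hnd.2.1 h9
  have A1 : HCPle (P '' {i | i ∈ ls}) 1 := by
    refine ⟨1, le_refl _, [ls.toFinset.image P], rfl, ?_, by simp, ?_⟩
    · intro Y hY
      simp only [List.mem_singleton] at hY
      subst hY
      exact ⟨l1, l2⟩
    · intro x
      simp
  have A2 : HCPle (P '' {i | i ∈ rs}) 1 := by
    refine ⟨1, le_refl _, [rs.toFinset.image P], rfl, ?_, by simp, ?_⟩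
    · intro Y hY
      simp only [List.mem_singleton] at hY
      subst hY
      exact ⟨r1, r2⟩
    · intro x
      simp
  have hU : P '' {i | i < 8} = P '' {i | i ∈ ls} ∪ P '' {i | i ∈ rs} := by
    rw [← Set.image_union]
    congr 1
    ext i
    simp only [Set.mem_ofPred_eq, Set.mem_union]
    rw [← List.mem_append, ← List.mem_toFinset, heq, Finset.mem_range]
  rw [hU]
  refine HCPle.append A1 A2 (hull_disjoint (hf.inj a b h1 h2 hab) ?_ ?_)
  · rintro x ⟨i, hi, rfl⟩ hx
    have h10 := h6 i hi
    simp only [Bool.or_eq_true, Nat.beq_eq] at h10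
    rcases h10 with h10 | h10
    · subst h10; exact absurd rfl hx
    · exact lw_sound hf ha h1 h2 (hl i hi) h10
  · rintro x ⟨i, hi, rfl⟩ hx
    have h10 := h7 i hi
    simp only [Bool.or_eq_true, Nat.beq_eq] at h10
    rcases h10 with h10 | h10
    · subst h10; exact absurd rfl hx
    · have := lw_sound hf ha h2 h1 (hr i hi) h10
      rw [orient_swap] at this
      linarith

/-- the partition stored in the details table: `a`, `b`, number of points on the left, eight digits -/
def twoE (E D k : ℕ) : Bool :=
  let e := Nat.land (Nat.shiftRight D (Nat.mul 44 k)) 17592186044415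
  let n := Nat.land (Nat.shiftRight e 8) 15
  two (lw (eT E (Nat.add k 568)) (eF E (Nat.add k 568))) (Nat.land e 15)
    (Nat.land (Nat.shiftRight e 4) 15) (digs n (Nat.shiftRight e 12))
    (digs (8 - n) (Nat.shiftRight e (Nat.add 12 (Nat.mul 4 n))))

/-- entries from `568 + a` to `568 + b` are implicants of `two convex polygons` -/
def impTab (E D a n : ℕ) : Bool := (List.range n).all fun i => twoE E D (a + i)

lemma impTab_sound {E D a n : ℕ} (h : impTab E D a n = true) (hf : WF P)
    (hK : ¬ HCPle (P '' {i | i < 8}) 2) {k : ℕ} (h1 : a ≤ k) (h2 : k < a + n) :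
    ¬ Asg (vw L P) (eT E (k + 568)) (eF E (k + 568)) := by
  intro ha
  simp only [impTab, List.all_eq_true, List.mem_range] at h
  have h3 := h (k - a) (by omega)
  have e : a + (k - a) = k := by omega
  rw [e] at h3
  exact hK (two_sound hf ha h3)

end

end Win

end Pool.Agent.GCP
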