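import Pool.Agent.GCP.PatchU

/-!
# The unsorted patches of the corner lemma and of the three chords (MP_062f91_co)
-/

namespace Pool.Agent.GCP

namespace UDt

/-- Remove the elements of the second list. -/
def ex (l s : List ℕ) : List ℕ := l.filter (fun x => !mb s x)

lemma mem_ex {l s : List ℕ} {x : ℕ} : x ∈ ex l s ↔ x ∈ l ∧ x ∉ s := by
  unfold ex
  rw [List.mem_filter, Bool.not_eq_true']
  constructor
  · rintro ⟨h1, h2⟩
    exact ⟨h1, mb_false h2⟩
  · rintro ⟨h1, h2⟩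
    refine ⟨h1, ?_⟩
    by_contra h3
    rw [Bool.not_eq_false] at h3
    exact h2 (mb_iff.1 h3)

/-- Facts about the eleven first points around `p₀`; the names are
`0 = p₀, 1 = p₁, 2 = a₀, 3 = a₁, 4 = p₂, 5 = c₁, 6 = a₂, 7 = p₃, 8 = c₂, 9, 10, 11 = z₁, z₂, z₃`. -/
def facts : List (ℕ × ℕ × ℕ) := [
  (0, 3, 5), (0, 3, 6), (0, 3, 8), (0, 3, 9), (0, 3, 10), (0, 3, 11), (0, 5, 8), (0, 5, 9),
  (0, 5, 10), (0, 5, 11), (0, 6, 8), (0, 6, 9), (0, 6, 10), (0, 6, 11), (0, 8, 9), (0, 8, 10),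
  (0, 8, 11), (0, 9, 10), (0, 9, 11), (0, 10, 11), (1, 5, 9), (1, 5, 10), (1, 5, 11), (1, 6, 8),
  (1, 6, 9), (1, 6, 10), (1, 6, 11), (1, 8, 9), (1, 8, 10), (1, 8, 11), (2, 3, 5), (2, 3, 6),
  (2, 3, 7), (2, 3, 8), (2, 3, 9), (2, 3, 10), (2, 3, 11), (2, 4, 5), (2, 4, 8), (2, 4, 9),
  (2, 4, 10), (2, 4, 11), (2, 5, 8), (2, 5, 9), (2, 5, 10), (2, 5, 11), (2, 6, 8), (2, 6, 9),
  (2, 6, 10), (2, 6, 11), (2, 7, 8), (2, 7, 9), (2, 7, 10), (2, 7, 11), (2, 8, 9), (2, 8, 10),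
  (2, 8, 11), (2, 9, 10), (3, 5, 9), (3, 5, 10), (3, 6, 8), (3, 6, 9), (3, 6, 10), (3, 6, 11),
  (3, 7, 8), (3, 7, 9), (3, 7, 10), (3, 7, 11), (3, 8, 9), (3, 8, 10), (3, 8, 11), (4, 5, 9),
  (4, 5, 10), (4, 8, 9), (4, 8, 10), (4, 8, 11), (5, 1, 6), (5, 1, 8), (5, 2, 6), (5, 3, 6),
  (5, 3, 7), (5, 3, 8), (5, 4, 8), (5, 4, 11), (5, 6, 8), (5, 6, 10), (5, 6, 11), (5, 7, 8),
  (5, 7, 9), (5, 7, 10), (5, 7, 11), (5, 8, 9), (5, 8, 10), (5, 8, 11), (6, 8, 9), (6, 8, 10),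
  (6, 8, 11), (7, 8, 9), (8, 7, 11), (9, 1, 10), (9, 1, 11), (9, 3, 10), (9, 3, 11), (9, 4, 10),
  (9, 4, 11), (9, 5, 10), (9, 5, 11), (9, 6, 10), (9, 6, 11), (9, 7, 10), (9, 7, 11), (9, 8, 10),
  (9, 8, 11), (10, 1, 11), (10, 3, 11), (10, 4, 11), (10, 5, 11), (10, 6, 11), (10, 7, 11),
  (10, 8, 11), (10, 9, 11)]

/-- The first eleven points around `p₀`. -/
def Rl : List ℕ := [1, 2, 3, 4, 5, 6, 7, 8, 9, 10, 11]

/-- The mirror image of the names: `16 = p₄, 12 = a₃, 13, 14, 15 = y₁, y₂, y₃`. -/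
def mu (x : ℕ) : ℕ := [16, 7, 12, 6, 4, 8, 3, 1, 5, 13, 14, 15].getD x 0

/-- The first eleven points around `p₄`. -/
def Ll : List ℕ := [7, 12, 6, 4, 8, 3, 1, 5, 13, 14, 15]

/-- The rows common to the two patches at a corner: `rl` real labels, `n` number of labels. -/
def srows (rl : List ℕ) (n : ℕ) : List (ℕ × ℕ × List ℕ) :=
  [(0, 1, ex (List.range n) [0, 1]), (1, 4, ex (List.range n) [1, 4]),
    (4, 7, ex (List.range n) [4, 7]), (7, 16, ex (List.range n) [7, 16]),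
    (16, 0, ex rl [0, 16]),
    (0, 2, ex rl [0, 1, 2]), (2, 1, ex rl [0, 1, 2]),
    (1, 3, ex rl [1, 4, 3]), (3, 4, ex rl [1, 4, 3]),
    (4, 6, ex rl [4, 7, 6]), (6, 7, ex rl [4, 7, 6]),
    (7, 12, ex rl [7, 16, 12]), (12, 16, ex rl [7, 16, 12]),
    (7, 1, [3, 4, 6]), (1, 7, ex rl [1, 7, 3, 4, 6]),
    (4, 0, [2, 1, 3]), (0, 4, ex rl [0, 4, 2, 1, 3]),
    (16, 4, [6, 7, 12]), (4, 16, ex rl [4, 16, 6, 7, 12]),
    (7, 0, [2, 3, 6, 1, 4, 5]), (0, 7, ex rl [0, 7, 2, 3, 6, 1, 4, 5]),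
    (16, 1, [3, 6, 12, 4, 7, 8]), (1, 16, ex rl [1, 16, 3, 6, 12, 4, 7, 8])]

/-- The facts and their mirror images as rows. -/
def frows : List (ℕ × ℕ × List ℕ) :=
  facts.map (fun t => (t.1, t.2.1, [t.2.2])) ++
    facts.map (fun t => (mu t.2.1, mu t.1, [mu t.2.2]))

/-- The real labels of `dNR b`. -/
def rNR (b : ℕ) : List ℕ := List.range 17 ++ List.range' 19 b

/-- The patch of a corner and a third line, normal case: `17 = q₁, 18 = q₂` virtual,
`19, ..., 18 + b` the points above the third line only, sorted around `p₀`. -/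
def dNR (b : ℕ) : UD where
  n := 19 + b
  rl := rNR b
  ch := [0, 17, 18, 16]
  e0 := 1
  eV := 7
  rows := srows (rNR b) (19 + b) ++
    [(17, 0, Rl), (0, 17, ex (rNR b) (0 :: Rl)), (16, 18, Ll), (18, 16, ex (rNR b) (16 :: Ll)),
      (17, 18, [0, 16]), (0, 17, [18]), (0, 18, [16]), (18, 17, List.range' 19 b)] ++
    (List.range b).map (fun i => (0, 19 + i, List.range' (20 + i) (b - 1 - i))) ++ frows
  ubs := [(17, 18, 12, rNR b), (18, 17, 5 + b, rNR b), (17, 18, 9, Rl), (18, 17, 2, Rl)]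
  fas := []
  eqs := []

/-- The patch of a corner and a third line, reversed case: `17 = o, 18 = q₁, 19 = q₂` virtual. -/
def dRV : UD where
  n := 20
  rl := List.range 17
  ch := [0, 17, 16]
  e0 := 1
  eV := 7
  rows := srows (List.range 17) 20 ++
    [(17, 0, Rl), (0, 17, ex (List.range 17) (0 :: Rl)),
      (18, 0, Rl), (0, 18, ex (List.range 17) (0 :: Rl)),
      (18, 17, Rl), (17, 18, ex (List.range 17) (0 :: Rl)),
      (16, 17, Ll), (17, 16, ex (List.range 17) (16 :: Ll)),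
      (16, 19, Ll), (19, 16, ex (List.range 17) (16 :: Ll)),
      (17, 19, Ll), (19, 17, ex (List.range 17) (16 :: Ll)),
      (19, 18, [0, 16, 17]), (17, 0, [19]), (16, 17, [18])] ++ frows
  ubs := [(19, 18, 12, List.range 17), (18, 19, 5, List.range 17), (19, 18, 9, Rl),
    (18, 19, 2, Rl)]
  fas := []
  eqs := []

/-- Both bounds for the number of the labels beyond the line `a b`. -/
def card (rl : List ℕ) (a b k : ℕ) : List (ℕ × ℕ × ℕ × List ℕ) :=
  [(a, b, k, ex rl [a, b]), (b, a, (ex rl [a, b]).length - k, ex rl [a, b])]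

/-- The patch of three chords: `0 = p₀`; `1, ..., 10` the points beyond `p₀ p₄` sorted around
`p₀` (`1 = p₁, 2 = a₀, 3 = a₁, 4 = p₂, 7 = p₃`); `11 = p₄`; `12, ..., 11 + r` the other points
beyond `p₁ p₅`; `12 + r = p₅`; `13 + r, ..., 12 + r + c` the other points beyond `p₂ p₆`;
`13 + r + c = p₆`; `14 + r + c = o₁, 15 + r + c = o₂` virtual. -/
def dN3 (r c : ℕ) : UD where
  n := 16 + r + c
  rl := List.range (14 + r + c)
  ch := [0, 14 + r + c, 15 + r + c, 13 + r + c]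
  e0 := 1
  eV := 12 + r
  rows :=
    [(0, 1, ex (List.range (16 + r + c)) [0, 1]), (1, 4, ex (List.range (16 + r + c)) [1, 4]),
      (4, 7, ex (List.range (16 + r + c)) [4, 7]), (7, 11, ex (List.range (16 + r + c)) [7, 11]),
      (11, 12 + r, ex (List.range (16 + r + c)) [11, 12 + r]),
      (12 + r, 13 + r + c, ex (List.range (16 + r + c)) [12 + r, 13 + r + c]),
      (0, 2, ex (List.range (14 + r + c)) [0, 1, 2]), (2, 1, ex (List.range (14 + r + c)) [0, 1, 2]),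
      (1, 3, ex (List.range (14 + r + c)) [1, 4, 3]), (3, 4, ex (List.range (14 + r + c)) [1, 4, 3])] ++
    (List.range' 1 10).map (fun i => (0, i, List.range' (i + 1) (11 - i))) ++
    [(0, 11, ex (List.range (14 + r + c)) (List.range 12)),
      (12 + r, 1, [4, 7, 11] ++ List.range' 12 r),
      (1, 12 + r, List.range' (13 + r) c ++ [0, 13 + r + c]),
      (13 + r + c, 4, [7, 11, 12 + r] ++ List.range' (13 + r) c),
      (4, 13 + r + c, [0, 1]),
      (1, 11, [0, 12 + r, 13 + r + c]), (7, 12 + r, [0, 1, 4, 13 + r + c]),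
      (4, 12 + r, [0, 1, 13 + r + c]), (7, 13 + r + c, [0, 1, 4]),
      (11, 13 + r + c, [0, 1, 4, 7]), (4, 11, [0, 1, 12 + r, 13 + r + c]),
      (1, 7, [0, 11, 12 + r, 13 + r + c]),
      (0, 11, [14 + r + c]), (1, 12 + r, [14 + r + c]), (4, 13 + r + c, [14 + r + c]),
      (0, 11, [15 + r + c]), (1, 12 + r, [15 + r + c]), (4, 13 + r + c, [15 + r + c]),
      (0, 14 + r + c, [15 + r + c, 13 + r + c]), (14 + r + c, 15 + r + c, [13 + r + c]),
      (0, 15 + r + c, [13 + r + c]), (15 + r + c, 14 + r + c, [1, 12 + r])]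
  ubs := card (List.range (14 + r + c)) 1 7 3 ++ card (List.range (14 + r + c)) 4 11 3 ++
    card (List.range (14 + r + c)) 7 (12 + r) 3 ++
    card (List.range (14 + r + c)) 11 (13 + r + c) 3 ++
    card (List.range (14 + r + c)) 1 11 6 ++ card (List.range (14 + r + c)) 4 (12 + r) 6 ++
    card (List.range (14 + r + c)) 7 (13 + r + c) 6 ++
    card (List.range (14 + r + c)) 1 (12 + r) 10 ++
    card (List.range (14 + r + c)) 4 (13 + r + c) 10
  fas := [(0, 1), (1, 4), (4, 7), (7, 11), (11, 12 + r), (12 + r, 13 + r + c)]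
  eqs := [(0, 14 + r + c, 0, 11, ex (List.range (14 + r + c)) [0, 11]),
    (14 + r + c, 15 + r + c, 1, 12 + r, ex (List.range (14 + r + c)) [1, 12 + r]),
    (15 + r + c, 13 + r + c, 4, 13 + r + c, ex (List.range (14 + r + c)) [4, 13 + r + c])]

end UDt

end Pool.Agent.GCP
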