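import Pool.Agent.GCP.WinFour
import Pool.Agent.GCP.UData
import Pool.Agent.GCP.R4a
import Pool.Agent.GCP.R4b

/-!
# Names of the first eleven points around a hull vertex with a rich corner (MP_062f91_co)
-/

namespace Pool.Agent.GCP

namespace Geo

variable {X : Finset Pt} {h : ℕ} {p a c : ZMod h → Pt}

/-- Names of the first eleven points around `p i`. -/
structure Nam (X : Finset Pt) {h : ℕ} (p a c : ZMod h → Pt) (i : ZMod h) (N : ℕ → Pt) :
    Prop where
  N0 : N 0 = p i
  N1 : N 1 = p (i + 1)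
  N2 : N 2 = a i
  N3 : N 3 = a (i + 1)
  N4 : N 4 = p (i + 2)
  N5 : N 5 = c (i + 1)
  N6 : N 6 = a (i + 2)
  N7 : N 7 = p (i + 3)
  N8 : N 8 = c (i + 2)
  mem : ∀ m ≤ 11, N m ∈ X
  inj : ∀ m ≤ 11, ∀ m' ≤ 11, N m = N m' → m = m'
  R : ∀ z ∈ X, (z ≠ p i ∧ nr X (p i) z < 11) ↔ ∃ m, 1 ≤ m ∧ m ≤ 11 ∧ N m = z
  L : ∀ m, 1 ≤ m → m ≤ 11 → (nr X (N m) (p (i + ((4 : ℕ) : ZMod h))) < 11 ↔
    m ∉ [2, 9, 10, 11])
  fact : ∀ t ∈ UDt.facts, 0 < orient (N t.1) (N t.2.1) (N t.2.2)

/-- Exchange the labels five and six. -/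
def sw (b : Bool) (m : ℕ) : ℕ :=
  if b = true then (if m = 5 then 6 else if m = 6 then 5 else m) else m

lemma sw_sw (b : Bool) (m : ℕ) : sw b (sw b m) = m := by
  unfold sw
  cases b
  · simp
  · split_ifs <;> omega

lemma sw_le (b : Bool) {m : ℕ} (h1 : 1 ≤ m) (h2 : m ≤ 11) : 1 ≤ sw b m ∧ sw b m ≤ 11 := by
  unfold sw
  split_ifs <;> omega

lemma sw_of (b : Bool) {m : ℕ} (h5 : m ≠ 5) (h6 : m ≠ 6) : sw b m = m := by
  unfold sw
  split_ifs <;> omega

lemma nam_of (W : RingS0 X h p a c) (hh : 7 ≤ h) {i : ZMod h} {P : ℕ → Pt}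
    (D : TwoK X p a i 4 11 11 4 P) (b : Bool) (h5 : P (sw b 5) = c (i + 1))
    (h6 : P (sw b 6) = a (i + 2))
    (hf : ∀ t ∈ UDt.facts, 0 < orient (P (sw b t.1)) (P (sw b t.2.1)) (P (sw b t.2.2)))
    (hL : ∀ x ∈ [1, 3, 4, 5, 6, 7, 8], orient (P 12) (P 17) (P x) < 0)
    (hL' : ∀ x ∈ [2, 9, 10, 11], 0 < orient (P 12) (P 17) (P x))
    (h8 : orient (P 1) (P 17) (P 8) < 0) (h8' : 0 < orient (P 4) (P 17) (P 8)) :
    Nam X p a c i (fun m => P (sw b m)) := by
  have PV : P 17 = p (i + ((4 : ℕ) : ZMod h)) := D.PV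
  have i4 : i + ((4 : ℕ) : ZMod h) = i + 4 := by norm_num
  have inj := D.frame.inj
  have ne : ∀ {x y : ℕ}, x < 18 → y < 18 → x ≠ y → P x ≠ P y := fun h1 h2 h3 =>
    inj _ _ h1 h2 h3
  have memP : ∀ {m : ℕ}, m ≤ 11 → P m ∈ X := fun hm => D.mem _ (by omega) (by omega)
  have swl : ∀ {m : ℕ}, m ≤ 11 → sw b m ≤ 11 := by
    intro m hm
    unfold sw
    split_ifs <;> omega
  have Liff : ∀ {x : ℕ}, x ≤ 11 → 1 ≤ x →
      (orient (P 12) (P 17) (P x) < 0 ↔ nr X (P x) (p (i + ((4 : ℕ) : ZMod h))) < 11) := by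
    intro x hx hx1
    have := D.L_iff W (by omega) (by omega) (memP hx)
    rw [this, ← PV]
    constructor
    · exact fun h => h.2
    · exact fun h => ⟨ne (by omega) (by omega) (by omega), h⟩
  refine ⟨?_, ?_, ?_, ?_, ?_, h5, h6, ?_, ?_, ?_, ?_, ?_, ?_, hf⟩
  · simp only [sw_of b (show (0 : ℕ) ≠ 5 by omega) (show (0 : ℕ) ≠ 6 by omega)]
    exact D.P0
  · simp only [sw_of b (show (1 : ℕ) ≠ 5 by omega) (show (1 : ℕ) ≠ 6 by omega)]
    exact D.P1
  · simp only [sw_of b (show (2 : ℕ) ≠ 5 by omega) (show (2 : ℕ) ≠ 6 by omega)]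
    exact D.P2
  · simp only [sw_of b (show (3 : ℕ) ≠ 5 by omega) (show (3 : ℕ) ≠ 6 by omega)]
    exact D.P3
  · simp only [sw_of b (show (4 : ℕ) ≠ 5 by omega) (show (4 : ℕ) ≠ 6 by omega)]
    exact D.P4
  · simp only [sw_of b (show (7 : ℕ) ≠ 5 by omega) (show (7 : ℕ) ≠ 6 by omega)]
    exact D.P7
  · simp only [sw_of b (show (8 : ℕ) ≠ 5 by omega) (show (8 : ℕ) ≠ 6 by omega)]
    have e1 : i + 2 - 1 = i + 1 := by ring
    have e2 : i + 2 + 2 = i + 4 := by ring
    have e3 : i + 2 + 1 = i + 3 := by ring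
    have k1 := (W.s2 (i + 2) (P 8) (memP (by omega))).1 (by
      rw [e1, e2, ← i4, ← PV, ← D.P1]
      exact h8)
    rw [e1, e3] at k1
    rcases k1 with k | k | k | k | k | k
    · rw [← D.P4] at k
      exact absurd k (ne (by omega) (by omega) (by omega))
    · rw [← D.P7] at k
      exact absurd k (ne (by omega) (by omega) (by omega))
    · rw [← D.P3] at k
      exact absurd k (ne (by omega) (by omega) (by omega))
    · rw [← h6] at k
      refine absurd k (ne (by omega) (by have := swl (m := 6) (by omega); omega) ?_)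
      unfold sw
      split_ifs <;> omega
    · exfalso
      have e4 : i + 3 - 1 = i + 2 := by ring
      have e5 : i + 3 + 1 = i + 4 := by ring
      have k2 := (W.s1 (i + 3) (P 8) (memP (by omega))).2 (Or.inr (Or.inr k))
      rw [e4, e5, ← i4, ← PV, ← D.P4] at k2
      linarith
    · exact k
  · intro m hm
    exact memP (swl hm)
  · intro m hm m' hm' he
    by_contra hne
    refine ne (by have := swl hm; omega) (by have := swl hm'; omega) ?_ he
    intro h1
    apply hne
    rw [← sw_sw b m, h1, sw_sw]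
  · intro z hz
    have k1 := D.R_iff W (by omega) hz
    rw [← k1]
    constructor
    · intro hneg
      obtain ⟨m, m1, m2, m3⟩ := D.nameR z hz hneg
      refine ⟨sw b m, (sw_le b m1 m2).1, (sw_le b m1 m2).2, ?_⟩
      simp only [sw_sw]
      exact m3
    · rintro ⟨m, m1, m2, rfl⟩
      have h1 := (sw_le b m1 m2).1
      have h2 := (sw_le b m1 m2).2
      have := D.frame.srt (sw b m) 12 h1 (by omega) (by omega)
      rw [orient_swap']
      linarith
  · intro m m1 m2
    have h1 := (sw_le b m1 m2).1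
    have h2 := (sw_le b m1 m2).2
    rw [← Liff h2 h1]
    have key : m ∉ [2, 9, 10, 11] ↔ sw b m ∈ [1, 3, 4, 5, 6, 7, 8] := by
      cases b <;> interval_cases m <;> decide
    rw [key]
    constructor
    · intro hneg
      have : sw b m ∉ [2, 9, 10, 11] := fun hm => by
        have := hL' _ hm
        linarith
      generalize sw b m = x at this h1 h2
      interval_cases x <;> simp_all
    · exact fun hm => hL _ hm

theorem corner_names (W : RingS0 X h p a c) (hh : 7 ≤ h) {K : ℕ} (hI : Irr X K t414 [])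
    (i : ZMod h) (hM : 11 ≤ nr X (p i) (p (i + ((4 : ℕ) : ZMod h)))) :
    ∃ (N : ℕ → Pt) (o : Pt), Nam X p a c i N ∧
      (∀ x ∈ X, ∀ y ∈ X, x ≠ y → orient x y o ≠ 0) ∧
      0 < orient (p i) o (p (i + ((4 : ℕ) : ZMod h))) ∧
      (∀ z ∈ X, orient (p i) o z < 0 ↔ z ≠ p i ∧ nr X (p i) z < 11) ∧
      (∀ z ∈ X, orient o (p (i + ((4 : ℕ) : ZMod h))) z < 0 ↔
        z ≠ p (i + ((4 : ℕ) : ZMod h)) ∧ nr X z (p (i + ((4 : ℕ) : ZMod h))) < 11) ∧
      (X.filter (fun z => orient (p i) o z < 0)).card = 11 ∧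
      (X.filter (fun z => orient o (p (i + ((4 : ℕ) : ZMod h))) z < 0)).card = 11 := by
  obtain ⟨P, D, hp, hMI⟩ := four_win W hh hI i hM
  have PV : P 17 = p (i + ((4 : ℕ) : ZMod h)) := D.PV
  have P0 := D.P0
  have inj := D.frame.inj
  have ne : ∀ {x y : ℕ}, x < 18 → y < 18 → x ≠ y → P x ≠ P y := fun h1 h2 h3 =>
    inj _ _ h1 h2 h3
  have c03 : nr X (p i) (p (i + ((3 : ℕ) : ZMod h))) = 6 := z3 W i
  have i3 : i + ((3 : ℕ) : ZMod h) = i + 3 := by norm_num
  -- the names `5` and `6`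
  have m56 : ∀ z ∈ X, orient (p i) (p (i + 3)) z < 0 → z ≠ p (i + 1) → z ≠ p (i + 2) →
      z ≠ a i → z ≠ a (i + 1) → z = P 5 ∨ z = P 6 := by
    intro z hz h0 z1 z2 z3 z4
    obtain ⟨m, m1, m2, m3⟩ := D.chR 3 (by omega) (by omega) (by omega) z hz (by rw [i3]; exact h0)
    have hm7 : m < 7 := by
      by_contra hc
      have hm := not_lt.1 hc
      rcases Nat.eq_or_lt_of_le hm with h1 | h1
      · rw [← h1, D.P7] at m3
        rw [← m3] at h0
        simp at h0
      · have := D.frame.srt 7 m (by omega) h1 (by omega)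
        rw [D.P0, D.P7, m3] at this
        linarith
    have hm1 : m ≠ 1 := by rintro rfl; exact z1 (m3.symm.trans D.P1)
    have hm2 : m ≠ 2 := by rintro rfl; exact z3 (m3.symm.trans D.P2)
    have hm3 : m ≠ 3 := by rintro rfl; exact z4 (m3.symm.trans D.P3)
    have hm4 : m ≠ 4 := by rintro rfl; exact z2 (m3.symm.trans D.P4)
    have hm5 : m = 5 ∨ m = 6 := by omega
    rcases hm5 with h1 | h1
    · left; rw [← m3, h1]
    · right; rw [← m3, h1]
  have ea : i + 1 - 1 = i := by ring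
  have eb : i + 1 + 2 = i + 3 := by ring
  have ec : i + 1 + 1 = i + 2 := by ring
  have ha : a (i + 2) = P 5 ∨ a (i + 2) = P 6 := by
    refine m56 _ (W.aX _) ?_ (W.ap _ _) (W.ap _ _) ?_ ?_
    · have := (W.s2 (i + 1) (a (i + 2)) (W.aX _)).2
        (Or.inr (Or.inr (Or.inr (Or.inr (Or.inl (by rw [ec]))))))
      rw [ea, eb] at this
      exact this
    · exact fun e => a_ne2 W i e.symm
    · intro e
      have := a_ne1 W (i + 1)
      rw [ec] at this
      exact this e.symm
  have hc : c (i + 1) = P 5 ∨ c (i + 1) = P 6 := by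
    refine m56 _ (W.cX _) ?_ (W.cp _ _) (W.cp _ _) (W.ca _ _) (W.ca _ _)
    have := (W.s2 (i + 1) (c (i + 1)) (W.cX _)).2
      (Or.inr (Or.inr (Or.inr (Or.inr (Or.inr rfl)))))
    rw [ea, eb] at this
    exact this
  have hca : c (i + 1) ≠ a (i + 2) := W.ca _ _
  have ed : i + 2 + 1 = i + 3 := by ring
  have tria : ∀ z, z ≤ 17 → z ≠ 12 → P z ≠ a (i + 2) → z ≠ 4 → z ≠ 7 →
      0 < orient (P 7) (P z) (a (i + 2)) ∧ 0 < orient (P z) (P 4) (a (i + 2)) := by
    intro z hz1 hz2 hz3 hz4 hz5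
    have hzX : P z ∈ X := D.mem z (by omega) (by omega)
    have n1 : P z ≠ p (i + 2) := by
      rw [← D.P4]
      exact ne (by omega) (by omega) hz4
    have n2 : P z ≠ p (i + 2 + 1) := by
      rw [ed, ← D.P7]
      exact ne (by omega) (by omega) hz5
    have k1 := W.a1 (i + 2) (P z) hzX n1 n2 hz3
    have k2 := W.a2 (i + 2) (P z) hzX n1 n2 hz3
    rw [ed] at k2
    rw [D.P7, D.P4]
    constructor
    · rw [orient_swap']
      linarith
    · rw [orient_cyc, orient_cyc] at k1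
      rw [orient_cyc, orient_cyc]
      rw [orient_cyc] at k1
      exact k1
  have real_of : ∀ {d : PD} {z : ℕ}, d.V = 17 → d.vi = [12] → d.isReal z = true →
      z ≤ 17 ∧ z ≠ 12 := by
    intro d z hV hvi hz
    have h1 := isReal_le hz
    refine ⟨by omega, ?_⟩
    rintro rfl
    unfold PD.isReal at hz
    rw [hvi] at hz
    simp at hz
  have fin : ∀ (b : Bool) (F : List (ℕ × ℕ × ℕ)),
      (∀ t ∈ F, 0 < orient (P t.1) (P t.2.1) (P t.2.2)) →
      (∀ t ∈ UDt.facts, (sw b t.1, sw b t.2.1, sw b t.2.2) ∈ F) →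
      (∀ x ∈ [1, 3, 4, 5, 6, 7, 8], ((17, 12, x) : ℕ × ℕ × ℕ) ∈ F) →
      (∀ x ∈ [2, 9, 10, 11], ((12, 17, x) : ℕ × ℕ × ℕ) ∈ F) →
      ((17, 1, 8) : ℕ × ℕ × ℕ) ∈ F → ((4, 17, 8) : ℕ × ℕ × ℕ) ∈ F →
      P (sw b 5) = c (i + 1) → P (sw b 6) = a (i + 2) →
      Nam X p a c i (fun m => P (sw b m)) := by
    intro b F hF f1 f2 f3 f4 f5 h5 h6
    refine nam_of W hh D b h5 h6 (fun t ht => hF _ (f1 t ht)) ?_ ?_ ?_ ?_
    · intro x hx
      have := hF _ (f2 x hx)
      simp only at this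
      rw [orient_swap]
      linarith
    · intro x hx
      exact hF _ (f3 x hx)
    · have := hF _ f4
      simp only at this
      rw [orient_swap]
      linarith
    · exact hF _ f5
  have hnam : ∃ N, Nam X p a c i N := by
    rcases ha with ha | ha
    · have hc' : c (i + 1) = P 6 := by
        rcases hc with h1 | h1
        · exact absurd (h1.trans ha.symm) hca
        · exact h1
      have hpd : Patch R4a.d P X := by
        refine ⟨hp.gp, hp.fr, hp.real, hp.viV, hp.end0, hp.endV, hp.in0, hp.inV, hp.conv, hp.out,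
          hp.near, hp.gen, hp.hul, ?_, hp.ext, hp.ub, hp.lb, hp.fa⟩
        intro f hf z hz z1 z2 z3
        simp only [R4a.d, List.mem_cons, List.not_mem_nil, or_false] at hf
        rcases hf with rfl | rfl | rfl
        · exact hp.tri (2, 0, 1) (by simp [pd4]) z hz z1 z2 z3
        · exact hp.tri (3, 1, 4) (by simp [pd4]) z hz z1 z2 z3
        · obtain ⟨r1, r2⟩ := real_of (d := R4a.d) rfl rfl hz
          simp only at z1 z2 z3
          have := tria z r1 r2 (by rw [ha]; exact ne (by omega) (by omega) z1) z2 z3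
          rw [ha] at this
          exact this
      refine ⟨_, fin true R4a.facts (R4a.fin hpd hI) (by decide +kernel) (by decide +kernel)
        (by decide +kernel) (by decide +kernel) (by decide +kernel) ?_ ?_⟩
      · exact hc'.symm
      · exact ha.symm
    · have hc' : c (i + 1) = P 5 := by
        rcases hc with h1 | h1
        · exact h1
        · exact absurd (h1.trans ha.symm) hca
      have hpd : Patch R4b.d P X := by
        refine ⟨hp.gp, hp.fr, hp.real, hp.viV, hp.end0, hp.endV, hp.in0, hp.inV, hp.conv, hp.out,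
          hp.near, hp.gen, hp.hul, ?_, hp.ext, hp.ub, hp.lb, hp.fa⟩
        intro f hf z hz z1 z2 z3
        simp only [R4b.d, List.mem_cons, List.not_mem_nil, or_false] at hf
        rcases hf with rfl | rfl | rfl
        · exact hp.tri (2, 0, 1) (by simp [pd4]) z hz z1 z2 z3
        · exact hp.tri (3, 1, 4) (by simp [pd4]) z hz z1 z2 z3
        · obtain ⟨r1, r2⟩ := real_of (d := R4b.d) rfl rfl hz
          simp only at z1 z2 z3
          have := tria z r1 r2 (by rw [ha]; exact ne (by omega) (by omega) z1) z2 z3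
          rw [ha] at this
          exact this
      refine ⟨_, fin false R4b.facts (R4b.fin hpd hI) (by decide +kernel) (by decide +kernel)
        (by decide +kernel) (by decide +kernel) (by decide +kernel) ?_ ?_⟩
      · exact hc'.symm
      · exact ha.symm
  obtain ⟨N, hN⟩ := hnam
  have hR := D.cardR
  have hL := D.cardLX
  rw [D.P0] at hR
  rw [D.PV] at hL
  refine ⟨N, P 12, hN, D.gen, ?_, ?_, ?_, ?_, ?_⟩
  · rw [← P0, ← PV]
    exact D.frame.srt 12 17 (by omega) (by omega) (by omega)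
  · intro z hz
    have := D.R_iff W (by omega) hz
    rw [D.P0] at this
    exact this
  · intro z hz
    have := D.L_iff W (by omega) (by omega) hz
    rw [D.PV] at this
    exact this
  · exact hR
  · exact hL

end Geo

end Pool.Agent.GCP
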