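import Pool.Agent.GCP.Patch

/-!
# Removal sequences in patches and the theory checks
-/

namespace Pool.Agent.GCP

/-- One removal: the points of the tree `t` are cut off along the line through `a` and `b`. -/
structure Cu where
  m : Bool
  a : ℕ
  b : ℕ
  x0 : ℕ
  t : Ct

/-- The literal says that `x` is on the near side. -/
def nr (li : ℕ → ℕ → ℕ → Bool) (m : Bool) (a b x : ℕ) : Bool :=
  match m with
  | true => li a b x
  | false => li b a x

/-- The check of one removal. -/
def cuOK (d : PD) (li : ℕ → ℕ → ℕ → Bool) (D : List ℕ) (s : Cu) : Bool :=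
  d.isReal s.a && (lt' s.b (Nat.succ d.V) && (!Nat.beq s.a s.b && (mb s.t.pts s.x0 &&
  (!Nat.beq s.x0 0 && (!Nat.beq s.x0 d.V && (nd s.t.pts &&
  (s.t.pts.all (fun x => d.isReal x && !mb D x) &&
  (s.t.pts.all (fun x => Nat.beq x s.a || nr li s.m s.a s.b x) &&
  (d.reals.all (fun y => mb D y || (mb s.t.pts y || (Nat.beq y s.b || nr li (!s.m) s.a s.b y))) &&
  (d.chain.all (fun f => Nat.beq f s.a || (Nat.beq f s.b || nr li (!s.m) s.a s.b f)) &&
  s.t.chk (Nat.succ d.V) 7 10 [] li))))))))))

/-- The check of a sequence of removals. -/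
def remGo (d : PD) (t0 : List ℕ) (li : ℕ → ℕ → ℕ → Bool) : List Cu → List ℕ → ℕ → Bool
  | [], D, c => mb t0 D.length && Nat.ble c (Nat.div D.length 4)
  | s :: ss, D, c => cuOK d li D s && remGo d t0 li ss (D ++ s.t.pts) (Nat.add c s.t.cost)

/-- The check of a sequence of removals, or of a single line cut. -/
def remOK (d : PD) (t0 t1 : List ℕ) (li : ℕ → ℕ → ℕ → Bool) (ss : List Cu) : Bool :=
  remGo d t0 li ss [] 0 || (match ss with
    | [s] => cuOK d li [] s && (mb t1 s.t.pts.length &&
        Nat.ble s.t.cost (Nat.div s.t.pts.length 4))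
    | _ => false)

/-- What is known about partitions: the set has no partition into `K` parts, but the sets which
remain after removals of `t` points do, for `t` in `t0`, and for `t` in `t1` if the removed points
are cut off by a line. -/
structure Irr (X : Finset Pt) (K : ℕ) (t0 t1 : List ℕ) : Prop where
  hK : ¬ HCPle (X : Set Pt) K
  hR : ∀ Y : Finset Pt, Y ⊆ X → ∀ t ∈ t0, Y.card + t = X.card →
    ∃ k, k + t / 4 ≤ K ∧ HCPle (Y : Set Pt) k
  hR1 : ∀ Y : Finset Pt, Y ⊆ X → ∀ t ∈ t1, Y.card + t = X.card →
    Disjoint (convexHull ℝ ((X : Set Pt) \ Y)) (convexHull ℝ (Y : Set Pt)) →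
    ∃ k, k + t / 4 ≤ K ∧ HCPle (Y : Set Pt) k

section
variable {d : PD} {P : ℕ → Pt} {X : Finset Pt}

lemma nr_sound (hf : Frame (d.V + 1) P) {T F : ℕ} (ha : Asg (val P) T F) {m : Bool}
    {a b x : ℕ} (h1 : a < d.V + 1) (h2 : b < d.V + 1) (h3 : x < d.V + 1)
    (h : nr (lit T F) m a b x = true) : 0 < sd m (P a) (P b) (P x) := by
  cases m with
  | true => exact lit_sound hf ha h1 h2 h3 h
  | false =>
    have := lit_sound hf ha h2 h1 h3 h
    rw [orient_swap] at this
    exact this

lemma sd_not (m : Bool) (a b x : Pt) : sd (!m) a b x = -sd m a b x := by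
  cases m <;> simp [sd]

/-- The points which are left. -/
def left (P : ℕ → Pt) (X : Finset Pt) (D : List ℕ) : Set Pt := {x | x ∈ X ∧ ∀ i ∈ D, x ≠ P i}

theorem cu_sound (hp : Patch d P X) (hF : Facts 7 10 []) {T F : ℕ} (ha : Asg (val P) T F)
    {D : List ℕ} (hD : ∀ i ∈ D, d.isReal i = true) {s : Cu}
    (h : cuOK d (lit T F) D s = true) :
    HCPle (P '' {i | i ∈ s.t.pts}) s.t.cost ∧
    left P X D = P '' {i | i ∈ s.t.pts} ∪ left P X (D ++ s.t.pts) ∧
    Disjoint (convexHull ℝ (P '' {i | i ∈ s.t.pts}))
      (convexHull ℝ (left P X (D ++ s.t.pts))) := by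
  simp only [cuOK, Bool.and_eq_true, lt'_iff, Bool.not_eq_true', List.all_eq_true,
    Bool.or_eq_true] at h
  obtain ⟨h1, h2, h3, h4, h5, h6, h7, h8, h9, h10, h11, h12⟩ := h
  have h3' := nbeq_false h3
  have h5' := nbeq_false h5
  have h6' := nbeq_false h6
  have h4' := mb_iff.1 h4
  have h7' := nd_iff h7
  have hreal : ∀ i ∈ s.t.pts, d.isReal i = true := fun i hi => (h8 i hi).1
  have hnD : ∀ i ∈ s.t.pts, i ∉ D := fun i hi => mb_false (h8 i hi).2
  have hlt : ∀ {i}, d.isReal i = true → i < d.V + 1 := fun hi =>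
    Nat.lt_succ_of_le (isReal_le hi)
  have ha' : s.a < d.V + 1 := hlt h1
  have hb' : s.b < d.V + 1 := h2
  have hA := ct_sound hF hp.fr ha s.t (fun i hi => hlt (hreal i hi)) h7' h12
  have heq : left P X D = P '' {i | i ∈ s.t.pts} ∪ left P X (D ++ s.t.pts) := by
    ext x
    simp only [left, Set.mem_union, Set.mem_image, Set.mem_ofPred_eq, List.mem_append]
    constructor
    · rintro ⟨hx, hxD⟩
      by_cases hxA : ∃ i ∈ s.t.pts, P i = x
      · exact Or.inl hxA
      · right
        refine ⟨hx, ?_⟩
        rintro i (hi | hi)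
        · exact hxD i hi
        · intro he
          exact hxA ⟨i, hi, he.symm⟩
    · rintro (⟨i, hi, rfl⟩ | ⟨hx, hxD⟩)
      · refine ⟨hp.real i (hreal i hi), ?_⟩
        intro j hj
        refine hp.fr.inj i j (hlt (hreal i hi)) (hlt (hD j hj)) ?_
        rintro rfl
        exact hnD i hi hj
      · exact ⟨hx, fun i hi => hxD i (Or.inl hi)⟩
  refine ⟨hA, heq, ?_⟩
  -- the separation
  have hPab : P s.a ≠ P s.b := hp.fr.inj _ _ ha' hb' h3'
  have hsA : ∀ x ∈ P '' {i | i ∈ s.t.pts}, x ≠ P s.a → 0 < sd s.m (P s.a) (P s.b) x := by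
    rintro x ⟨i, hi, rfl⟩ hx
    rcases h9 i hi with h | h
    · rw [Nat.beq_eq] at h
      have h' : i = s.a := h
      subst h'
      exact absurd rfl hx
    · exact nr_sound hp.fr ha ha' hb' (hlt (hreal i hi)) h
  have hch : ∀ f ∈ d.chain, f = s.a ∨ f = s.b ∨ sd s.m (P s.a) (P s.b) (P f) < 0 := by
    intro f hf
    have hfV : f < d.V + 1 := by
      unfold PD.chain at hf
      simp only [List.mem_cons, List.mem_append, List.not_mem_nil, or_false] at hf
      rcases hf with rfl | hf | rfl
      · omega
      · -- virtual elements: use the frame data through the literal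
        by_contra hcon
        rcases h11 f (by simp [PD.chain, hf]) with h | h | h
        · have h' : f = s.a := by rw [Nat.beq_eq] at h; exact h
          omega
        · have h' : f = s.b := by rw [Nat.beq_eq] at h; exact h
          omega
        · exact hcon (hp.viV f hf)
      · omega
    rcases h11 f hf with h | h | h
    · rw [Nat.beq_eq] at h
      exact Or.inl h
    · rw [Nat.beq_eq] at h
      exact Or.inr (Or.inl h)
    · right; right
      have := nr_sound hp.fr ha ha' hb' hfV h
      rw [sd_not] at this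
      linarith
  have hsB : ∀ x ∈ left P X (D ++ s.t.pts), x ≠ P s.b → sd s.m (P s.a) (P s.b) x < 0 := by
    rintro x ⟨hx, hxD⟩ hxb
    by_cases hun : ∀ i, d.isReal i = true → x ≠ P i
    · refine hp.far h1 (by omega) h3' (hreal _ h4') h5' h6' ?_ hch hx hun
      by_cases hxa : s.x0 = s.a
      · rw [hxa, sd_left]
      · refine (hsA _ ⟨s.x0, h4', rfl⟩ ?_).le
        exact hp.fr.inj _ _ (hlt (hreal _ h4')) ha' hxa
    · push Not at hun
      obtain ⟨i, hi, rfl⟩ := hun
      rcases h10 i (mem_reals.2 hi) with h | h | h | h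
      · exact absurd rfl (hxD i (List.mem_append.2 (Or.inl (mb_iff.1 h))))
      · exact absurd rfl (hxD i (List.mem_append.2 (Or.inr (mb_iff.1 h))))
      · rw [Nat.beq_eq] at h
        have h' : i = s.b := h
        subst h'
        exact absurd rfl hxb
      · have := nr_sound hp.fr ha ha' hb' (hlt hi) h
        rw [sd_not] at this
        linarith
  cases hm : s.m with
  | true =>
    rw [hm] at hsA hsB
    exact hull_disjoint hPab hsA hsB
  | false =>
    rw [hm] at hsA hsB
    refine hull_disjoint' hPab ?_ ?_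
    · intro x hx hxa
      have := hsA x hx hxa
      simp only [sd, cond_false] at this
      linarith
    · intro x hx hxb
      have := hsB x hx hxb
      simp only [sd, cond_false] at this
      linarith

theorem rem_sound (hp : Patch d P X) (hF : Facts 7 10 []) {T F K : ℕ} {t0 t1 : List ℕ}
    (hI : Irr X K t0 t1) (ha : Asg (val P) T F) : ∀ (ss : List Cu) (D : List ℕ) (c : ℕ),
    (∀ i ∈ D, d.isReal i = true) → D.Nodup → remGo d t0 (lit T F) ss D c = true →
      ∃ k, c + k ≤ K ∧ HCPle (left P X D) k := by
  classical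
  intro ss
  induction ss with
  | nil =>
    intro D c hD hnd h
    simp only [remGo, Bool.and_eq_true, Nat.ble_eq] at h
    obtain ⟨h1, h3⟩ := h
    have hinj : Set.InjOn P (D.toFinset : Set ℕ) := by
      intro i hi j hj hij
      by_contra hne
      have hi' := isReal_le (hD i (List.mem_toFinset.1 hi))
      have hj' := isReal_le (hD j (List.mem_toFinset.1 hj))
      exact hp.fr.inj i j (by omega) (by omega) hne hij
    have hsub : D.toFinset.image P ⊆ X := by
      intro x hx
      rw [Finset.mem_image] at hx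
      obtain ⟨i, hi, rfl⟩ := hx
      exact hp.real i (hD i (List.mem_toFinset.1 hi))
    have hcard : (D.toFinset.image P).card = D.length := by
      rw [Finset.card_image_of_injOn hinj, List.toFinset_card_of_nodup hnd]
    obtain ⟨k, hk1, hk2⟩ := hI.hR (X \ D.toFinset.image P) Finset.sdiff_subset D.length
      (mb_iff.1 h1)
      (by rw [Finset.card_sdiff_of_subset hsub, hcard]
          have := Finset.card_le_card hsub
          omega)
    refine ⟨k, ?_, ?_⟩
    · have h3' : c ≤ D.length / 4 := h3
      omega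
    · have he : ((X \ D.toFinset.image P : Finset Pt) : Set Pt) = left P X D := by
        ext x
        simp only [left, Finset.coe_sdiff, Finset.coe_image, List.coe_toFinset, Set.mem_sdiff,
          Finset.mem_coe, Set.mem_image, Set.mem_ofPred_eq, not_exists, not_and]
        constructor
        · rintro ⟨hx, h⟩
          exact ⟨hx, fun i hi he => h i hi he.symm⟩
        · rintro ⟨hx, h⟩
          exact ⟨hx, fun i hi he => h i hi he.symm⟩
      rw [← he]
      exact hk2
  | cons s ss ih =>
    intro D c hD hnd h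
    simp only [remGo, Bool.and_eq_true] at h
    obtain ⟨h1, h2⟩ := h
    -- the structure of the removed list does not depend on the rest
    have h0 := h1
    simp only [cuOK, Bool.and_eq_true, lt'_iff, Bool.not_eq_true', List.all_eq_true] at h0
    obtain ⟨_, _, _, _, _, _, h7, h8, _⟩ := h0
    have hD' : ∀ i ∈ D ++ s.t.pts, d.isReal i = true := by
      intro i hi
      rcases List.mem_append.1 hi with hi | hi
      · exact hD i hi
      · exact (h8 i hi).1
    have hnd' : (D ++ s.t.pts).Nodup := by
      rw [List.nodup_append]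
      refine ⟨hnd, nd_iff h7, ?_⟩
      intro i hi j hj hij
      subst hij
      exact mb_false (h8 i hj).2 hi
    obtain ⟨k, hk1, hk2⟩ := ih (D ++ s.t.pts) (Nat.add c s.t.cost) hD' hnd' h2
    have hk1' : c + s.t.cost + k ≤ K := hk1
    obtain ⟨e1, e2, e3⟩ := cu_sound hp hF ha hD h1
    refine ⟨s.t.cost + k, by omega, ?_⟩
    rw [e2]
    exact e1.append hk2 e3

lemma left_nil (P : ℕ → Pt) (X : Finset Pt) : left P X [] = (X : Set Pt) := by
  ext x
  simp [left]

theorem rem_false (hp : Patch d P X) (hF : Facts 7 10 []) {T F K : ℕ} {t0 t1 : List ℕ}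
    (hI : Irr X K t0 t1) (ha : Asg (val P) T F) {ss : List Cu}
    (h : remOK d t0 t1 (lit T F) ss = true) : False := by
  classical
  unfold remOK at h
  rw [Bool.or_eq_true] at h
  rcases h with h | h
  · obtain ⟨k, hk1, hk2⟩ := rem_sound hp hF hI ha ss [] 0 (by simp) List.nodup_nil h
    apply hI.hK
    rw [left_nil] at hk2
    exact hk2.mono (by omega)
  · rcases ss with _ | ⟨s, _ | ⟨s', ss⟩⟩
    · exact absurd h (by simp)
    · simp only [Bool.and_eq_true, Nat.ble_eq] at h
      obtain ⟨h1, h2, h3⟩ := h
      obtain ⟨e1, e2, e3⟩ := cu_sound hp hF ha (D := []) (by simp) h1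
      rw [List.nil_append] at e2 e3
      rw [left_nil] at e2
      have h0 := h1
      simp only [cuOK, Bool.and_eq_true, lt'_iff, Bool.not_eq_true', List.all_eq_true] at h0
      obtain ⟨_, _, _, _, _, _, h7, h8, _⟩ := h0
      have hinj : Set.InjOn P (s.t.pts.toFinset : Set ℕ) := by
        intro i hi j hj hij
        by_contra hne
        have hi' := isReal_le (h8 i (List.mem_toFinset.1 hi)).1
        have hj' := isReal_le (h8 j (List.mem_toFinset.1 hj)).1
        exact hp.fr.inj i j (by omega) (by omega) hne hij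
      have hsub : s.t.pts.toFinset.image P ⊆ X := by
        intro x hx
        rw [Finset.mem_image] at hx
        obtain ⟨i, hi, rfl⟩ := hx
        exact hp.real i (h8 i (List.mem_toFinset.1 hi)).1
      have hcard : (s.t.pts.toFinset.image P).card = s.t.pts.length := by
        rw [Finset.card_image_of_injOn hinj, List.toFinset_card_of_nodup (nd_iff h7)]
      have he : ((X \ s.t.pts.toFinset.image P : Finset Pt) : Set Pt) =
          left P X s.t.pts := by
        ext x
        simp only [left, Finset.coe_sdiff, Finset.coe_image, List.coe_toFinset, Set.mem_sdiff,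
          Finset.mem_coe, Set.mem_image, Set.mem_ofPred_eq, not_exists, not_and]
        constructor
        · rintro ⟨hx, h⟩
          exact ⟨hx, fun i hi he => h i hi he.symm⟩
        · rintro ⟨hx, h⟩
          exact ⟨hx, fun i hi he => h i hi he.symm⟩
      have he2 : ((X : Set Pt) \ ((X \ s.t.pts.toFinset.image P : Finset Pt) : Set Pt)) =
          P '' {i | i ∈ s.t.pts} := by
        rw [← image_list, Finset.coe_sdiff, Set.sdiff_sdiff_right_self]
        exact Set.inter_eq_self_of_subset_right (Finset.coe_subset.2 hsub)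
      obtain ⟨k, hk1, hk2⟩ := hI.hR1 (X \ s.t.pts.toFinset.image P) Finset.sdiff_subset
        s.t.pts.length (mb_iff.1 h2)
        (by rw [Finset.card_sdiff_of_subset hsub, hcard]
            have := Finset.card_le_card hsub
            omega) (by rw [he2, he]; exact e3)
      apply hI.hK
      rw [he] at hk2
      rw [e2]
      have h3' : s.t.cost ≤ s.t.pts.length / 4 := h3
      exact (e1.append hk2 e3).mono (by omega)
    · exact absurd h (by simp)

end

/-- Theory justifications for patches. -/
inductive ThP : Type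
  | ax (i j k l t : ℕ) : ThP
  | hul (a b z : ℕ) : ThP
  | tri (x a b z : ℕ) (w : Bool) : ThP
  | ext (a b c : ℕ) : ThP
  | cneg (a b k : ℕ) (I : List ℕ) : ThP
  | cpos (a b k : ℕ) (I : List ℕ) : ThP
  | fa (a b : ℕ) (w : List (ℕ × ℕ × Bool)) : ThP
  | rem (ss : List Cu) : ThP

/-- Pair membership. -/
def mp (l : List (ℕ × ℕ)) (a b : ℕ) : Bool := l.any (fun f => Nat.beq f.1 a && Nat.beq f.2 b)

/-- Triple membership. -/
def mt (l : List (ℕ × ℕ × ℕ)) (a b c : ℕ) : Bool :=
  l.any (fun f => Nat.beq f.1 a && (Nat.beq f.2.1 b && Nat.beq f.2.2 c))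

lemma mp_iff {l : List (ℕ × ℕ)} {a b : ℕ} (h : mp l a b = true) : (a, b) ∈ l := by
  simp only [mp, List.any_eq_true, Bool.and_eq_true, Nat.beq_eq] at h
  obtain ⟨x, hx, h1, h2⟩ := h
  have : x = (a, b) := Prod.ext h1 h2
  rw [← this]
  exact hx

lemma mt_iff {l : List (ℕ × ℕ × ℕ)} {a b c : ℕ} (h : mt l a b c = true) : (a, b, c) ∈ l := by
  simp only [mt, List.any_eq_true, Bool.and_eq_true, Nat.beq_eq] at h
  obtain ⟨x, hx, h1, h2, h3⟩ := h
  have : x = (a, b, c) := Prod.ext h1 (Prod.ext h2 h3)
  rw [← this]
  exact hx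

/-- The theory check of patches. -/
def thp (d : PD) (t0 t1 : List ℕ) : ThP → ℕ → ℕ → Bool
  | .ax i j k l t, T, F => axf d.V i j k l t T F
  | .hul a b z, T, F => mp d.hulls a b && (lt' a (Nat.succ d.V) && (lt' b (Nat.succ d.V) &&
      (lt' z (Nat.succ d.V) && (!Nat.beq z a && (!Nat.beq z b && lit T F b a z)))))
  | .tri x a b z w, T, F => mt d.tris x a b && (d.isReal z && (!Nat.beq z x && (!Nat.beq z a &&
      (!Nat.beq z b && (lt' x (Nat.succ d.V) && (lt' a (Nat.succ d.V) && (lt' b (Nat.succ d.V) &&
      (match w with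
        | true => lit T F z b x
        | false => lit T F a z x))))))))
  | .ext a b c, T, F => mt d.exts a b c && (lt' a (Nat.succ d.V) && (lt' b (Nat.succ d.V) &&
      (lt' c (Nat.succ d.V) && lit T F b a c)))
  | .cneg a b k I, T, F => mt d.ubs a b k && (nd I && (I.all (fun i => d.isReal i &&
      lit T F b a i) && (lt' k I.length && (lt' a (Nat.succ d.V) && lt' b (Nat.succ d.V)))))
  | .cpos a b k I, T, F => mt d.lbs a b k && (nd I && (I.all (fun i => d.isReal i &&
      lit T F a b i) && (lt' (d.reals.filter (fun i => !Nat.beq i a && !Nat.beq i b)).length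
        (Nat.add k I.length) && (lt' a (Nat.succ d.V) && lt' b (Nat.succ d.V)))))
  | .fa a b w, T, F => mp d.fas a b && (lt' a (Nat.succ d.V) && (lt' b (Nat.succ d.V) &&
      d.reals.all (fun i => Nat.beq i a || (Nat.beq i b || w.any (fun v => Nat.beq v.1 i &&
        (d.isReal v.2.1 && (!Nat.beq v.2.1 i && (!Nat.beq v.2.1 a && (!Nat.beq v.2.1 b &&
        (match v.2.2 with
          | true => lit T F v.2.1 b i
          | false => lit T F a v.2.1 i))))))))))
  | .rem ss, T, F => remOK d t0 t1 (lit T F) ss

theorem thp_sound {d : PD} {P : ℕ → Pt} {X : Finset Pt} (hp : Patch d P X)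
    (hF : Facts 7 10 []) {K : ℕ} {t0 t1 : List ℕ} (hI : Irr X K t0 t1) :
    ∀ (x : ThP) (T F : ℕ), Asg (val P) T F → thp d t0 t1 x T F = true → False := by
  intro x T F ha h
  have hlt : ∀ {i}, d.isReal i = true → i < d.V + 1 := fun hi =>
    Nat.lt_succ_of_le (isReal_le hi)
  cases x with
  | ax i j k l t => exact axf_sound (n := d.V + 1) hp.fr ha (by simpa only [thp, Nat.add_sub_cancel] using h)
  | hul a b z =>
    simp only [thp, Bool.and_eq_true, lt'_iff, Bool.not_eq_true'] at h
    obtain ⟨h1, h2, h3, h4, h5, h6, h7⟩ := h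
    have e1 := hp.hul _ (mp_iff h1) z (by omega) (nbeq_false h5) (nbeq_false h6)
    have e2 := lit_sound hp.fr ha h3 h2 h4 h7
    simp only at e1
    rw [orient_swap] at e2
    linarith
  | tri x a b z w =>
    simp only [thp, Bool.and_eq_true, lt'_iff, Bool.not_eq_true'] at h
    obtain ⟨h1, h2, h3, h4, h5, h6, h7, h8, h9⟩ := h
    have e1 := hp.tri _ (mt_iff h1) z h2 (nbeq_false h3) (nbeq_false h4) (nbeq_false h5)
    simp only at e1
    cases w with
    | true =>
      have e2 := lit_sound hp.fr ha (hlt h2) h8 h6 h9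
      rw [orient_swap] at e2
      linarith [e1.1]
    | false =>
      have e2 := lit_sound hp.fr ha h7 (hlt h2) h6 h9
      rw [orient_swap] at e2
      linarith [e1.2]
  | ext a b c =>
    simp only [thp, Bool.and_eq_true, lt'_iff] at h
    obtain ⟨h1, h2, h3, h4, h5⟩ := h
    have e1 := hp.ext _ (mt_iff h1)
    have e2 := lit_sound hp.fr ha h3 h2 h4 h5
    simp only at e1
    rw [orient_swap] at e2
    linarith
  | cneg a b k I =>
    simp only [thp, Bool.and_eq_true, lt'_iff, List.all_eq_true] at h
    obtain ⟨h1, h2, h3, h4, h5, h6⟩ := h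
    obtain ⟨S, s1, s3⟩ := hp.ub _ (mt_iff h1)
    simp only at s1 s3
    have hsub : I.toFinset ⊆ S := by
      intro i hi
      rw [List.mem_toFinset] at hi
      apply s3 i (h3 i hi).1
      have := lit_sound hp.fr ha h6 h5 (hlt (h3 i hi).1) (h3 i hi).2
      rw [orient_swap] at this
      linarith
    have := Finset.card_le_card hsub
    rw [List.toFinset_card_of_nodup (nd_iff h2)] at this
    have h4' : k < I.length := h4
    omega
  | cpos a b k I =>
    simp only [thp, Bool.and_eq_true, lt'_iff, List.all_eq_true] at h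
    obtain ⟨h1, h2, h3, h4, h5, h6⟩ := h
    obtain ⟨S, s1, s2⟩ := hp.lb _ (mt_iff h1)
    simp only at s1 s2
    have hdis : Disjoint I.toFinset S := by
      rw [Finset.disjoint_left]
      intro i hi hiS
      rw [List.mem_toFinset] at hi
      have e1 := (s2 i hiS).2
      have := lit_sound hp.fr ha h5 h6 (hlt (h3 i hi).1) (h3 i hi).2
      linarith
    have hsub : I.toFinset ∪ S ⊆
        (d.reals.filter (fun i => !Nat.beq i a && !Nat.beq i b)).toFinset := by
      intro i hi
      rw [List.mem_toFinset, List.mem_filter, mem_reals, Bool.and_eq_true, Bool.not_eq_true',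
        Bool.not_eq_true']
      rw [Finset.mem_union, List.mem_toFinset] at hi
      have hr : d.isReal i = true := by
        rcases hi with hi | hi
        · exact (h3 i hi).1
        · exact (s2 i hi).1
      have hne : orient (P a) (P b) (P i) ≠ 0 := by
        rcases hi with hi | hi
        · exact (lit_sound hp.fr ha h5 h6 (hlt (h3 i hi).1) (h3 i hi).2).ne'
        · exact ((s2 i hi).2).ne
      refine ⟨hr, ?_, ?_⟩
      · by_contra h'
        rw [Bool.not_eq_false, Nat.beq_eq] at h'
        have h'' : i = a := h'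
        subst h''
        simp at hne
      · by_contra h'
        rw [Bool.not_eq_false, Nat.beq_eq] at h'
        have h'' : i = b := h'
        subst h''
        simp at hne
    have h7 := Finset.card_le_card hsub
    rw [Finset.card_union_of_disjoint hdis, List.toFinset_card_of_nodup (nd_iff h2)] at h7
    have h8 := List.toFinset_card_le (d.reals.filter (fun i => !Nat.beq i a && !Nat.beq i b))
    have h4' : (d.reals.filter (fun i => !Nat.beq i a && !Nat.beq i b)).length < k + I.length := h4
    omega
  | fa a b w =>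
    simp only [thp, Bool.and_eq_true, lt'_iff, List.all_eq_true, Bool.or_eq_true,
      List.any_eq_true, Bool.not_eq_true'] at h
    obtain ⟨h1, h2, h3, h4⟩ := h
    obtain ⟨i, i1, i2, i3, i4⟩ := hp.fa _ (mp_iff h1)
    simp only at i2 i3 i4
    rcases h4 i (mem_reals.2 i1) with h | h | ⟨v, hv, k1, k2, k3, k4, k5, k6⟩
    · rw [Nat.beq_eq] at h
      exact i2 h
    · rw [Nat.beq_eq] at h
      exact i3 h
    · rw [Nat.beq_eq] at k1
      have e1 := i4 v.2.1 k2 (nbeq_false k3) (nbeq_false k4) (nbeq_false k5)
      cases hw : v.2.2 with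
      | true =>
        rw [hw] at k6
        have e2 := lit_sound hp.fr ha (hlt k2) h3 (hlt i1) k6
        rw [orient_swap] at e2
        linarith [e1.1]
      | false =>
        rw [hw] at k6
        have e2 := lit_sound hp.fr ha h2 (hlt k2) (hlt i1) k6
        rw [orient_swap] at e2
        linarith [e1.2]
  | rem ss => exact rem_false hp hF hI ha h

end Pool.Agent.GCP
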