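import Pool.Agent.GCP.GeoWin
import Pool.Agent.GCP.PatchTh

/-!
# Reflection of a ring (MP_062f91_co)
-/

namespace Pool.Agent.GCP

namespace Geo

/-- The reflection in the second axis. -/
def sg (z : Pt) : Pt := (-z.1, z.2)

@[simp] lemma sg_sg (z : Pt) : sg (sg z) = z := by
  unfold sg; simp

lemma sg_inj : Function.Injective sg := fun x y h => by
  rw [← sg_sg x, h, sg_sg]

lemma orient_sg (x y z : Pt) : orient (sg x) (sg y) (sg z) = -orient x y z := by
  unfold orient sg; ring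

/-- The reflection as a linear map. -/
def sgL : Pt →ₗ[ℝ] Pt where
  toFun := sg
  map_add' x y := by
    unfold sg
    ext
    · simp only [Prod.fst_add]; ring
    · simp
  map_smul' r x := by
    unfold sg
    ext
    · simp
    · simp

lemma sgL_coe : ((sgL : Pt →ₗ[ℝ] Pt) : Pt → Pt) = sg := rfl

lemma sg_hull (S : Set Pt) : convexHull ℝ (sg '' S) = sg '' convexHull ℝ S := by
  have := sgL.image_convexHull S
  rw [sgL_coe] at this
  exact this.symm

lemma sg_extreme (C : Set Pt) {x : Pt} (hx : x ∈ C.extremePoints ℝ) :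
    sg x ∈ (sg '' C).extremePoints ℝ := by
  refine ⟨⟨x, hx.1, rfl⟩, ?_⟩
  rintro _ ⟨y, hy, rfl⟩ _ ⟨z, hz, rfl⟩ hs
  have h1 : x ∈ openSegment ℝ y z := by
    obtain ⟨s, t, hs', ht', hst, he⟩ := hs
    refine ⟨s, t, hs', ht', hst, sg_inj ?_⟩
    rw [← he]
    have := sgL.map_add (s • y) (t • z)
    rw [sgL.map_smul, sgL.map_smul, sgL_coe] at this
    exact this
  rw [hx.2 hy hz h1]

lemma sg_polygon {Y : Finset Pt} (h : IsConvexPolygon Y) : IsConvexPolygon (Y.image sg) := by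
  classical
  intro x hx
  rw [Finset.coe_image] at hx ⊢
  obtain ⟨y, hy, rfl⟩ := hx
  rw [sg_hull]
  exact sg_extreme _ (h hy)

lemma sg_HCP {S : Set Pt} {k : ℕ} (h : HCP S k) : HCP (sg '' S) k := by
  classical
  obtain ⟨Ys, h1, h2, h3, h4⟩ := h
  refine ⟨Ys.map (fun Y => Y.image sg), by simpa using h1, ?_, ?_, ?_⟩
  · intro Y hY
    rw [List.mem_map] at hY
    obtain ⟨Z, hZ, rfl⟩ := hY
    exact ⟨(h2 Z hZ).1.image _, sg_polygon (h2 Z hZ).2⟩
  · rw [List.pairwise_map]
    refine h3.imp ?_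
    intro A B hAB
    rw [Finset.coe_image, Finset.coe_image, sg_hull, sg_hull]
    exact (Set.disjoint_image_iff sg_inj).2 hAB
  · intro x
    constructor
    · rintro ⟨y, hy, rfl⟩
      obtain ⟨Y, hY, hyY⟩ := (h4 y).1 hy
      exact ⟨Y.image sg, List.mem_map.2 ⟨Y, hY, rfl⟩, Finset.mem_image_of_mem _ hyY⟩
    · rintro ⟨Y, hY, hx⟩
      rw [List.mem_map] at hY
      obtain ⟨Z, hZ, rfl⟩ := hY
      rw [Finset.mem_image] at hx
      obtain ⟨y, hy, rfl⟩ := hx
      exact ⟨y, (h4 y).2 ⟨Z, hZ, hy⟩, rfl⟩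

lemma sg_HCPle {S : Set Pt} {k : ℕ} (h : HCPle S k) : HCPle (sg '' S) k := by
  obtain ⟨k', h1, h2⟩ := h
  exact ⟨k', h1, sg_HCP h2⟩

lemma sg_image_image (S : Set Pt) : sg '' (sg '' S) = S := by
  rw [← Set.image_comp]
  have : sg ∘ sg = id := funext sg_sg
  rw [this, Set.image_id]

lemma sg_HCPle_iff {S : Set Pt} {k : ℕ} : HCPle (sg '' S) k ↔ HCPle S k := by
  refine ⟨fun h => ?_, sg_HCPle⟩
  have := sg_HCPle h
  rwa [sg_image_image] at this

open scoped Classical in
/-- The mirror image of the set. -/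
noncomputable def mir (X : Finset Pt) : Finset Pt := X.image sg

lemma mem_mir {X : Finset Pt} {x : Pt} : x ∈ mir X ↔ ∃ y ∈ X, sg y = x := by
  classical
  unfold mir
  rw [Finset.mem_image]

lemma sg_mem_mir {X : Finset Pt} {x : Pt} : sg x ∈ mir X ↔ x ∈ X := by
  rw [mem_mir]
  constructor
  · rintro ⟨y, hy, h⟩
    rwa [← sg_inj h]
  · intro h
    exact ⟨x, h, rfl⟩

lemma coe_mir (X : Finset Pt) : (mir X : Set Pt) = sg '' (X : Set Pt) := by
  classical
  unfold mir
  rw [Finset.coe_image]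

lemma mir_mir (X : Finset Pt) : mir (mir X) = X := by
  apply Finset.coe_injective
  rw [coe_mir, coe_mir, sg_image_image]

@[simp] lemma card_mir (X : Finset Pt) : (mir X).card = X.card := by
  classical
  unfold mir
  exact Finset.card_image_of_injective _ sg_inj

lemma mir_sub {X Y : Finset Pt} (h : Y ⊆ X) : mir Y ⊆ mir X := by
  classical
  unfold mir
  exact Finset.image_subset_image h

open scoped Classical in
/-- Sets given by a condition. -/
lemma mir_filter (X : Finset Pt) (Q : Pt → Prop) :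
    (mir X).filter Q = mir (X.filter (fun z => Q (sg z))) := by
  ext x
  rw [Finset.mem_filter, mem_mir, mem_mir]
  constructor
  · rintro ⟨⟨y, hy, rfl⟩, h⟩
    exact ⟨y, Finset.mem_filter.2 ⟨hy, h⟩, rfl⟩
  · rintro ⟨y, hy, rfl⟩
    rw [Finset.mem_filter] at hy
    exact ⟨⟨y, hy.1, rfl⟩, hy.2⟩

lemma nr_sg (X : Finset Pt) (x y : Pt) : nr (mir X) (sg x) (sg y) = nr X y x := by
  classical
  unfold nr
  rw [mir_filter, card_mir]
  congr 1
  refine Finset.filter_congr fun z _ => ?_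
  rw [orient_sg, orient_swap]
  simp

lemma gp_mir {X : Finset Pt} (h : GeneralPosition X) : GeneralPosition (mir X) := by
  intro x hx y hy z hz h1 h2 h3 h4
  obtain ⟨x, hx', rfl⟩ := mem_mir.1 hx
  obtain ⟨y, hy', rfl⟩ := mem_mir.1 hy
  obtain ⟨z, hz', rfl⟩ := mem_mir.1 hz
  have h5 := orient_eq_of_collinear h4
  rw [orient_sg, neg_eq_zero] at h5
  exact orient_ne h hx' hy' hz' (fun e => h1 (by rw [e])) (fun e => h2 (by rw [e]))
    (fun e => h3 (by rw [e])) h5

theorem Irr_mir {X : Finset Pt} {K : ℕ} {t0 t1 : List ℕ} (h : Irr X K t0 t1) :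
    Irr (mir X) K t0 t1 where
  hK := by
    rw [coe_mir, sg_HCPle_iff]
    exact h.hK
  hR := by
    intro Y hY t ht hc
    obtain ⟨k, h1, h2⟩ := h.hR (mir Y) (by have := mir_sub hY; rwa [mir_mir] at this) t ht
      (by rw [card_mir]; rwa [card_mir] at hc)
    rw [coe_mir] at h2
    exact ⟨k, h1, sg_HCPle_iff.1 h2⟩
  hR1 := by
    intro Y hY t ht hc hd
    obtain ⟨k, h1, h2⟩ := h.hR1 (mir Y) (by have := mir_sub hY; rwa [mir_mir] at this) t ht
      (by rw [card_mir]; rwa [card_mir] at hc) (by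
        rw [coe_mir, sg_hull]
        have e : (X : Set Pt) \ (sg '' (Y : Set Pt)) = sg '' ((mir X : Set Pt) \ (Y : Set Pt)) := by
          rw [Set.image_sdiff sg_inj, coe_mir, sg_image_image]
        rw [e, sg_hull]
        exact (Set.disjoint_image_iff sg_inj).2 hd)
    rw [coe_mir] at h2
    exact ⟨k, h1, sg_HCPle_iff.1 h2⟩

lemma HE_mir {X : Finset Pt} {v w : Pt} (h : HE (mir X) v w) : HE X (sg w) (sg v) := by
  obtain ⟨h1, h2, h3, h4⟩ := h
  obtain ⟨v, hv, rfl⟩ := mem_mir.1 h1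
  obtain ⟨w, hw, rfl⟩ := mem_mir.1 h2
  rw [sg_sg, sg_sg]
  refine ⟨hw, hv, fun e => h3 (by rw [e]), fun z hz z1 z2 => ?_⟩
  have := h4 (sg z) (sg_mem_mir.2 hz) (fun e => z2 (sg_inj e)) (fun e => z1 (sg_inj e))
  rw [orient_sg, ← orient_swap] at this
  exact this

theorem ring_mir {X : Finset Pt} {h : ℕ} {p a c : ZMod h → Pt} (W : RingS0 X h p a c) :
    RingS0 (mir X) h (fun i => sg (p (-i))) (fun i => sg (a (-i - 1)))
      (fun i => sg (c (-i - 1))) where
  gp := gp_mir W.gp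
  hh := W.hh
  pinj := fun i j hij => neg_injective (W.pinj (sg_inj hij))
  pX := fun i => sg_mem_mir.2 (W.pX _)
  aX := fun i => sg_mem_mir.2 (W.aX _)
  cX := fun i => sg_mem_mir.2 (W.cX _)
  hull := by
    intro i z hz z1 z2
    obtain ⟨z, hz', rfl⟩ := mem_mir.1 hz
    rw [orient_sg, ← orient_swap]
    have e : -(i + 1) + 1 = -i := by ring
    have := W.hull (-(i + 1)) z hz' (fun e => z2 (by rw [e])) (by rw [e]; exact fun e => z1 (by rw [e]))
    rwa [e] at this
  a1 := by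
    intro i z hz z1 z2 z3
    obtain ⟨z, hz', rfl⟩ := mem_mir.1 hz
    rw [orient_sg]
    have e : -i - 1 + 1 = -i := by ring
    have e2 : -(i + 1) = -i - 1 := by ring
    have := W.a2 (-i - 1) z hz' (by rw [← e2]; exact fun e => z2 (by rw [e]))
      (by rw [e]; exact fun e => z1 (by rw [e])) (fun e => z3 (by rw [e]))
    rw [e] at this
    linarith
  a2 := by
    intro i z hz z1 z2 z3
    obtain ⟨z, hz', rfl⟩ := mem_mir.1 hz
    rw [orient_sg]
    have e : -i - 1 + 1 = -i := by ring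
    have e2 : -(i + 1) = -i - 1 := by ring
    have := W.a1 (-i - 1) z hz' (by rw [← e2]; exact fun e => z2 (by rw [e]))
      (by rw [e]; exact fun e => z1 (by rw [e])) (fun e => z3 (by rw [e]))
    rw [e2]
    linarith
  s1 := by
    intro i z hz
    obtain ⟨z, hz', rfl⟩ := mem_mir.1 hz
    have := W.s1 (-i) z hz'
    rw [orient_sg, ← orient_swap]
    rw [show -(i + 1) = -i - 1 by ring, show -(i - 1) = -i + 1 by ring, this,
      show -i + 1 - 1 = -i by ring, sg_inj.eq_iff, sg_inj.eq_iff, sg_inj.eq_iff]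
    tauto
  s2 := by
    intro i z hz
    obtain ⟨z, hz', rfl⟩ := mem_mir.1 hz
    have := W.s2 (-i - 1) z hz'
    rw [orient_sg, ← orient_swap]
    rw [show -i - 1 - 1 = -(i + 2) by ring, show -i - 1 + 2 = -(i - 1) by ring,
      show -i - 1 + 1 = -i by ring] at this
    rw [this, sg_inj.eq_iff, sg_inj.eq_iff, sg_inj.eq_iff, sg_inj.eq_iff, sg_inj.eq_iff,
      sg_inj.eq_iff, show -(i + 1) = -i - 1 by ring, show -(i - 1) - 1 = -i by ring,
      show -(i + 2) = -i - 1 - 1 by ring]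
    tauto
  ca := fun i j e => W.ca _ _ (sg_inj e)
  cp := fun i j e => W.cp _ _ (sg_inj e)
  ap := fun i j e => W.ap _ _ (sg_inj e)
  conv := by
    intro i j k h1 h2 h3
    have := W.conv (-(i + (k : ZMod h))) (k - j) k (by omega) (by omega) h3
    rw [Nat.cast_sub h2.le] at this
    rw [show -(i + (k : ZMod h)) + ((k : ZMod h) - (j : ZMod h)) = -(i + (j : ZMod h)) by ring,
      show -(i + (k : ZMod h)) + (k : ZMod h) = -i by ring] at this
    rw [orient_sg]
    have e : orient (p (-i)) (p (-(i + (j : ZMod h)))) (p (-(i + (k : ZMod h)))) =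
      -orient (p (-(i + (k : ZMod h)))) (p (-(i + (j : ZMod h)))) (p (-i)) := by
      unfold orient; ring
    rw [e, neg_neg]
    exact this
  all := by
    intro v w hvw
    obtain ⟨i, h1, h2⟩ := W.all _ _ (HE_mir hvw)
    refine ⟨-(i + 1), ?_, ?_⟩
    · show v = sg (p (- -(i + 1)))
      rw [neg_neg, ← h2, sg_sg]
    · show w = sg (p (-(-(i + 1) + 1)))
      rw [show -(-(i + 1) + 1) = i by ring, ← h1, sg_sg]

end Geo

end Pool.Agent.GCP
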