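import Pool.Agent.GCP.Corner1
import Pool.Agent.GCP.Mirror

/-!
# Both sides of a rich corner, and the rows common to its patches (MP_062f91_co)
-/

namespace Pool.Agent.GCP

namespace Geo

variable {X : Finset Pt} {h : ℕ} {p a c : ZMod h → Pt}

/-- Names of the first eleven points around `p (i + 4)`. -/
structure NamR (X : Finset Pt) {h : ℕ} (p a c : ZMod h → Pt) (i : ZMod h) (M : ℕ → Pt) :
    Prop where
  M0 : M 0 = p (i + 4)
  M1 : M 1 = p (i + 3)
  M2 : M 2 = a (i + 3)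
  M3 : M 3 = a (i + 2)
  M4 : M 4 = p (i + 2)
  M5 : M 5 = c (i + 2)
  M6 : M 6 = a (i + 1)
  M7 : M 7 = p (i + 1)
  M8 : M 8 = c (i + 1)
  mem : ∀ m ≤ 11, M m ∈ X
  inj : ∀ m ≤ 11, ∀ m' ≤ 11, M m = M m' → m = m'
  L : ∀ z ∈ X, (z ≠ p (i + 4) ∧ nr X z (p (i + 4)) < 11) ↔ ∃ m, 1 ≤ m ∧ m ≤ 11 ∧ M m = z
  R : ∀ m, 1 ≤ m → m ≤ 11 → (nr X (p i) (M m) < 11 ↔ m ∉ [2, 9, 10, 11])
  fact : ∀ t ∈ UDt.facts, 0 < orient (M t.2.1) (M t.1) (M t.2.2)

lemma facts_le : ∀ t ∈ UDt.facts, t.1 ≤ 11 ∧ t.2.1 ≤ 11 ∧ t.2.2 ≤ 11 := by decide +kernel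

theorem corner_namesR (W : RingS0 X h p a c) (hh : 7 ≤ h) {K : ℕ} (hI : Irr X K t414 [])
    (i : ZMod h) (hM : 11 ≤ nr X (p i) (p (i + 4))) :
    ∃ M, NamR X p a c i M := by
  have W' := ring_mir W
  set i' : ZMod h := -(i + 4) with hi'
  have e0 : -i' = i + 4 := by rw [hi']; ring
  have e1 : -(i' + 1) = i + 3 := by rw [hi']; ring
  have e2 : -(i' + 2) = i + 2 := by rw [hi']; ring
  have e3 : -(i' + 3) = i + 1 := by rw [hi']; ring
  have e4 : -(i' + ((4 : ℕ) : ZMod h)) = i := by rw [hi']; push_cast; ring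
  have f0 : -i' - 1 = i + 3 := by rw [hi']; ring
  have f1 : -(i' + 1) - 1 = i + 2 := by rw [hi']; ring
  have f2 : -(i' + 2) - 1 = i + 1 := by rw [hi']; ring
  have hM' : 11 ≤ nr (mir X) (sg (p (-i'))) (sg (p (-(i' + ((4 : ℕ) : ZMod h))))) := by
    rw [nr_sg, e0, e4]
    exact hM
  obtain ⟨N, -, hN, -⟩ := corner_names W' hh (Irr_mir hI) i' hM'
  have key : ∀ {m : ℕ} {z : Pt}, N m = sg z → sg (N m) = z := by
    intro m z hz
    rw [hz, sg_sg]
  refine ⟨fun m => sg (N m), ?_, ?_, ?_, ?_, ?_, ?_, ?_, ?_, ?_, ?_, ?_, ?_, ?_, ?_⟩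
  · exact key (by rw [hN.N0, e0])
  · exact key (by rw [hN.N1, e1])
  · exact key (by rw [hN.N2, f0])
  · exact key (by rw [hN.N3, f1])
  · exact key (by rw [hN.N4, e2])
  · exact key (by rw [hN.N5, f1])
  · exact key (by rw [hN.N6, f2])
  · exact key (by rw [hN.N7, e3])
  · exact key (by rw [hN.N8, f2])
  · intro m hm
    have h1 := hN.mem m hm
    rw [← sg_mem_mir, sg_sg]
    exact h1
  · intro m hm m' hm' he
    exact hN.inj m hm m' hm' (sg_inj he)
  · intro z hz
    have h1 := hN.R (sg z) (sg_mem_mir.2 hz)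
    rw [nr_sg, e0] at h1
    constructor
    · rintro ⟨z1, z2⟩
      obtain ⟨m, m1, m2, m3⟩ := h1.1 ⟨fun e => z1 (sg_inj e), z2⟩
      exact ⟨m, m1, m2, key m3⟩
    · rintro ⟨m, m1, m2, m3⟩
      have h2 := h1.2 ⟨m, m1, m2, by rw [← m3, sg_sg]⟩
      exact ⟨fun e => h2.1 (by rw [e]), h2.2⟩
  · intro m m1 m2
    have h1 := hN.L m m1 m2
    rw [← h1, e4]
    have h2 := nr_sg X (sg (N m)) (p i)
    rw [sg_sg] at h2
    rw [h2]
  · intro t ht
    have h1 := hN.fact t ht
    rw [← sg_sg (N t.1), ← sg_sg (N t.2.1), ← sg_sg (N t.2.2), orient_sg] at h1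
    rw [orient_swap]
    exact h1

/-- The points of a rich corner by their labels. -/
def Qn (N M : ℕ → Pt) (j : ℕ) : Pt :=
  if j < 12 then N j else if j = 12 then M 2 else if j < 16 then M (j - 4) else M 0

section
variable {i : ZMod h} {N M : ℕ → Pt}

lemma Qn_lt {j : ℕ} (hj : j < 12) : Qn N M j = N j := by
  unfold Qn
  rw [if_pos hj]

lemma Qn_12 : Qn N M 12 = M 2 := by simp [Qn]
lemma Qn_13 : Qn N M 13 = M 9 := by simp [Qn]
lemma Qn_14 : Qn N M 14 = M 10 := by simp [Qn]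
lemma Qn_15 : Qn N M 15 = M 11 := by simp [Qn]
lemma Qn_16 : Qn N M 16 = M 0 := by simp [Qn]

/-- The mirrored names. -/
lemma Qn_mu (hN : Nam X p a c i N) (hM : NamR X p a c i M) {x : ℕ} (hx : x ≤ 11) :
    Qn N M (UDt.mu x) = M x := by
  interval_cases x
  · exact Qn_16
  · show Qn N M 7 = M 1
    rw [Qn_lt (by omega), hN.N7, hM.M1]
  · exact Qn_12
  · show Qn N M 6 = M 3
    rw [Qn_lt (by omega), hN.N6, hM.M3]
  · show Qn N M 4 = M 4
    rw [Qn_lt (by omega), hN.N4, hM.M4]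
  · show Qn N M 8 = M 5
    rw [Qn_lt (by omega), hN.N8, hM.M5]
  · show Qn N M 3 = M 6
    rw [Qn_lt (by omega), hN.N3, hM.M6]
  · show Qn N M 1 = M 7
    rw [Qn_lt (by omega), hN.N1, hM.M7]
  · show Qn N M 5 = M 8
    rw [Qn_lt (by omega), hN.N5, hM.M8]
  · exact Qn_13
  · exact Qn_14
  · exact Qn_15

lemma Qn_mem (hN : Nam X p a c i N) (hM : NamR X p a c i M) {j : ℕ} (hj : j ≤ 16) :
    Qn N M j ∈ X := by
  unfold Qn
  split_ifs with h1 h2 h3
  · exact hN.mem j (by omega)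
  · exact hM.mem 2 (by omega)
  · exact hM.mem _ (by omega)
  · exact hM.mem 0 (by omega)

/-- The labels from twelve to sixteen are not among the first eleven points. -/
lemma Qn_rank (hM : NamR X p a c i M)
    (h11 : 11 ≤ nr X (p i) (p (i + 4))) {j : ℕ} (h1 : 12 ≤ j) (h2 : j ≤ 16) :
    11 ≤ nr X (p i) (Qn N M j) := by
  have key : ∀ m ∈ [2, 9, 10, 11], 11 ≤ nr X (p i) (M m) := by
    intro m hm
    by_contra hc
    have hm' : 1 ≤ m ∧ m ≤ 11 := by
      simp only [List.mem_cons, List.not_mem_nil, or_false] at hm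
      omega
    exact (hM.R m hm'.1 hm'.2).1 (by omega) hm
  interval_cases j
  · rw [Qn_12]; exact key 2 (by simp)
  · rw [Qn_13]; exact key 9 (by simp)
  · rw [Qn_14]; exact key 10 (by simp)
  · rw [Qn_15]; exact key 11 (by simp)
  · rw [Qn_16, hM.M0]; exact h11

lemma nr_self (x : Pt) : nr X x x = 0 := by
  classical
  unfold nr
  rw [Finset.card_eq_zero, Finset.filter_eq_empty_iff]
  intro z _
  simp

lemma Qn_inj (hN : Nam X p a c i N) (hM : NamR X p a c i M)
    (h11 : 11 ≤ nr X (p i) (p (i + 4))) {j k : ℕ} (hj : j ≤ 16) (hk : k ≤ 16)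
    (he : Qn N M j = Qn N M k) : j = k := by
  have low : ∀ {m : ℕ}, m < 12 → nr X (p i) (Qn N M m) < 11 := by
    intro m hm
    rw [Qn_lt hm]
    rcases Nat.eq_zero_or_pos m with h0 | h0
    · rw [h0, hN.N0, nr_self]
      omega
    · exact ((hN.R (N m) (hN.mem m (by omega))).2 ⟨m, h0, by omega, rfl⟩).2
  rcases Nat.lt_or_ge j 12 with h1 | h1 <;> rcases Nat.lt_or_ge k 12 with h2 | h2
  · rw [Qn_lt h1, Qn_lt h2] at he
    exact hN.inj j (by omega) k (by omega) he
  · have a1 := low h1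
    have a2 := Qn_rank (N := N) hM h11 h2 hk
    rw [he] at a1
    omega
  · have a1 := low h2
    have a2 := Qn_rank (N := N) hM h11 h1 hj
    rw [he] at a2
    omega
  · have hmu : ∀ m, 12 ≤ m → m ≤ 16 → ∃ x, x ≤ 11 ∧ UDt.mu x = m ∧ Qn N M m = M x := by
      intro m m1 m2
      interval_cases m
      · exact ⟨2, by omega, rfl, Qn_12⟩
      · exact ⟨9, by omega, rfl, Qn_13⟩
      · exact ⟨10, by omega, rfl, Qn_14⟩
      · exact ⟨11, by omega, rfl, Qn_15⟩
      · exact ⟨0, by omega, rfl, Qn_16⟩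
    obtain ⟨x, x1, x2, x3⟩ := hmu j h1 hj
    obtain ⟨y, y1, y2, y3⟩ := hmu k h2 hk
    rw [x3, y3] at he
    rw [← x2, ← y2, hM.inj x x1 y y1 he]

/-- The first eleven points around `p i`. -/
lemma Qn_R (hN : Nam X p a c i N) {z : Pt} (hz : z ∈ X) :
    (z ≠ p i ∧ nr X (p i) z < 11) ↔ ∃ j ∈ UDt.Rl, Qn N M j = z := by
  rw [hN.R z hz]
  constructor
  · rintro ⟨m, m1, m2, m3⟩
    refine ⟨m, ?_, by rw [Qn_lt (by omega)]; exact m3⟩
    interval_cases m <;> simp [UDt.Rl]
  · rintro ⟨j, hj, he⟩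
    have hj' : 1 ≤ j ∧ j ≤ 11 := by
      simp only [UDt.Rl, List.mem_cons, List.not_mem_nil, or_false] at hj
      omega
    rw [Qn_lt (by omega)] at he
    exact ⟨j, hj'.1, hj'.2, he⟩

/-- The first eleven points around `p (i + 4)`. -/
lemma Qn_L (hN : Nam X p a c i N) (hM : NamR X p a c i M) {z : Pt} (hz : z ∈ X) :
    (z ≠ p (i + 4) ∧ nr X z (p (i + 4)) < 11) ↔ ∃ j ∈ UDt.Ll, Qn N M j = z := by
  rw [hM.L z hz]
  constructor
  · rintro ⟨m, m1, m2, m3⟩
    refine ⟨UDt.mu m, ?_, by rw [Qn_mu hN hM m2]; exact m3⟩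
    interval_cases m <;> simp [UDt.mu, UDt.Ll]
  · rintro ⟨j, hj, he⟩
    have : ∃ m, 1 ≤ m ∧ m ≤ 11 ∧ UDt.mu m = j := by
      simp only [UDt.Ll, List.mem_cons, List.not_mem_nil, or_false] at hj
      rcases hj with rfl | rfl | rfl | rfl | rfl | rfl | rfl | rfl | rfl | rfl | rfl
      · exact ⟨1, by omega, by omega, rfl⟩
      · exact ⟨2, by omega, by omega, rfl⟩
      · exact ⟨3, by omega, by omega, rfl⟩
      · exact ⟨4, by omega, by omega, rfl⟩
      · exact ⟨5, by omega, by omega, rfl⟩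
      · exact ⟨6, by omega, by omega, rfl⟩
      · exact ⟨7, by omega, by omega, rfl⟩
      · exact ⟨8, by omega, by omega, rfl⟩
      · exact ⟨9, by omega, by omega, rfl⟩
      · exact ⟨10, by omega, by omega, rfl⟩
      · exact ⟨11, by omega, by omega, rfl⟩
    obtain ⟨m, m1, m2, m3⟩ := this
    rw [← m3, Qn_mu hN hM m2] at he
    exact ⟨m, m1, m2, he⟩

/-- The points of the corner are beyond the chord. -/
lemma Qn_near (W : RingS0 X h p a c) (hN : Nam X p a c i N) (hM : NamR X p a c i M)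
    (hh : 7 ≤ h) (h11 : 11 ≤ nr X (p i) (p (i + 4))) {j : ℕ} (h1 : 0 < j) (h2 : j < 16) :
    orient (p i) (p (i + 4)) (Qn N M j) < 0 := by
  have hz := Qn_mem hN hM (show j ≤ 16 by omega)
  have i4 : i + ((4 : ℕ) : ZMod h) = i + 4 := by norm_num
  have hne : p i ≠ p (i + 4) := by
    have := pne_gen W i (j := 0) (k := 4) (by omega) (by omega)
    rw [Nat.cast_zero, add_zero, i4] at this
    exact this
  have z0 : Qn N M j ≠ p i := by
    intro e
    have : Qn N M j = Qn N M 0 := by rw [Qn_lt (show (0 : ℕ) < 12 by omega), hN.N0, e]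
    have := Qn_inj hN hM h11 (by omega) (by omega) this
    omega
  have z4 : Qn N M j ≠ p (i + 4) := by
    intro e
    have : Qn N M j = Qn N M 16 := by rw [Qn_16, hM.M0, e]
    have := Qn_inj hN hM h11 (by omega) (by omega) this
    omega
  by_contra hc
  have hpos : 0 < orient (p i) (p (i + 4)) (Qn N M j) :=
    lt_of_le_of_ne (not_lt.1 hc) (orient_ne W.gp (W.pX _) (W.pX _) hz hne z4.symm z0.symm).symm
  rcases Nat.lt_or_ge j 12 with h3 | h3
  · have k1 := ((Qn_R (M := M) hN hz).2 ⟨j, by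
      simp only [UDt.Rl, List.mem_cons, List.not_mem_nil, or_false]; omega, rfl⟩).2
    have k2 := rank_lt W i (W.pX _) hz hpos
    omega
  · have k1 := ((Qn_L hN hM hz).2 ⟨j, by
      simp only [UDt.Ll, List.mem_cons, List.not_mem_nil, or_false]; omega, rfl⟩).2
    rw [← orient_cyc] at hpos
    have k2 := rank_lt' W (i + 4) hz (W.pX i) hpos
    omega

theorem frows_ok (hN : Nam X p a c i N) (hM : NamR X p a c i M) {Q : ℕ → Pt}
    (hQ : ∀ j ≤ 16, Q j = Qn N M j) :
    ∀ f ∈ UDt.frows, ∀ z ∈ f.2.2, 0 < orient (Q f.1) (Q f.2.1) (Q z) := by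
  have mul : ∀ x, x ≤ 11 → UDt.mu x ≤ 16 := by
    intro x hx
    interval_cases x <;> decide
  intro f hf
  unfold UDt.frows at hf
  rw [List.mem_append, List.mem_map, List.mem_map] at hf
  rcases hf with ⟨t, ht, rfl⟩ | ⟨t, ht, rfl⟩
  · intro z hz
    simp only [List.mem_cons, List.not_mem_nil, or_false] at hz
    subst hz
    obtain ⟨t1, t2, t3⟩ := facts_le t ht
    simp only
    rw [hQ _ (by omega), hQ _ (by omega), hQ _ (by omega), Qn_lt (by omega), Qn_lt (by omega),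
      Qn_lt (by omega)]
    exact hN.fact t ht
  · intro z hz
    simp only [List.mem_cons, List.not_mem_nil, or_false] at hz
    subst hz
    obtain ⟨t1, t2, t3⟩ := facts_le t ht
    simp only
    rw [hQ _ (mul _ t2), hQ _ (mul _ t1), hQ _ (mul _ t3), Qn_mu hN hM t2, Qn_mu hN hM t1,
      Qn_mu hN hM t3]
    exact hM.fact t ht

/-- A labelling of a rich corner with further real and virtual labels. -/
structure CorQ (X : Finset Pt) {h : ℕ} (p a c : ZMod h → Pt) (i : ZMod h) (N M : ℕ → Pt)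
    (Q : ℕ → Pt) (rl : List ℕ) (n : ℕ) : Prop where
  Q16 : ∀ j ≤ 16, Q j = Qn N M j
  rl16 : ∀ j ≤ 16, j ∈ rl
  rln : ∀ j ∈ rl, j < n
  real : ∀ j ∈ rl, Q j ∈ X
  inj : ∀ j k, j < n → k < n → j ≠ k → Q j ≠ Q k
  near : ∀ j ∈ rl, j ≠ 0 → j ≠ 16 → orient (p i) (p (i + 4)) (Q j) < 0
  hullv : ∀ j < n, j ∉ rl → ∀ m, 0 < orient (p m) (p (m + 1)) (Q j)

variable {Q : ℕ → Pt} {rl : List ℕ} {n : ℕ}

lemma CorQ.hullQ (W : RingS0 X h p a c) (H : CorQ X p a c i N M Q rl n) {s t : ℕ}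
    {m : ZMod h} (hs : Q s = p m) (ht : Q t = p (m + 1)) (hsn : s < n) (htn : t < n) {z : ℕ}
    (hz : z < n) (h1 : z ≠ s) (h2 : z ≠ t) : 0 < orient (Q s) (Q t) (Q z) := by
  rw [hs, ht]
  by_cases hr : z ∈ rl
  · refine W.hull m _ (H.real z hr) ?_ ?_
    · rw [← hs]; exact H.inj z s hz hsn h1
    · rw [← ht]; exact H.inj z t hz htn h2
  · exact H.hullv z hz hr m

lemma CorQ.aQ (W : RingS0 X h p a c) (H : CorQ X p a c i N M Q rl n) {s t al : ℕ}
    {m : ZMod h} (hs : Q s = p m) (ht : Q t = p (m + 1)) (ha : Q al = a m) (hsn : s < n)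
    (htn : t < n) (han : al < n) {z : ℕ} (hz : z ∈ rl) (h1 : z ≠ s) (h2 : z ≠ t) (h3 : z ≠ al) :
    0 < orient (Q s) (Q al) (Q z) ∧ 0 < orient (Q al) (Q t) (Q z) := by
  have hzn := H.rln z hz
  have n1 : Q z ≠ p m := by rw [← hs]; exact H.inj z s hzn hsn h1
  have n2 : Q z ≠ p (m + 1) := by rw [← ht]; exact H.inj z t hzn htn h2
  have n3 : Q z ≠ a m := by rw [← ha]; exact H.inj z al hzn han h3
  rw [hs, ht, ha]
  have k1 := W.a1 m (Q z) (H.real z hz) n1 n2 n3
  have k2 := W.a2 m (Q z) (H.real z hz) n1 n2 n3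
  refine ⟨k1, ?_⟩
  rw [orient_swap]
  linarith

lemma CorQ.pos (W : RingS0 X h p a c) (H : CorQ X p a c i N M Q rl n) {s t z : ℕ}
    (hs : s ∈ rl) (ht : t ∈ rl) (hz : z ∈ rl) (h1 : s ≠ t) (h2 : z ≠ s) (h3 : z ≠ t)
    (hn : ¬ orient (Q s) (Q t) (Q z) < 0) : 0 < orient (Q s) (Q t) (Q z) := by
  have := orient_ne W.gp (H.real s hs) (H.real t ht) (H.real z hz)
    (H.inj s t (H.rln s hs) (H.rln t ht) h1) (H.inj t z (H.rln t ht) (H.rln z hz) h3.symm)
    (H.inj s z (H.rln s hs) (H.rln z hz) h2.symm)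
  exact lt_of_le_of_ne (not_lt.1 hn) this.symm

lemma CorQ.names (hN : Nam X p a c i N) (hM : NamR X p a c i M)
    (H : CorQ X p a c i N M Q rl n) :
    Q 0 = p i ∧ Q 1 = p (i + 1) ∧ Q 2 = a i ∧ Q 3 = a (i + 1) ∧ Q 4 = p (i + 2) ∧
    Q 5 = c (i + 1) ∧ Q 6 = a (i + 2) ∧ Q 7 = p (i + 3) ∧ Q 8 = c (i + 2) ∧
    Q 12 = a (i + 3) ∧ Q 16 = p (i + 4) := by
  refine ⟨?_, ?_, ?_, ?_, ?_, ?_, ?_, ?_, ?_, ?_, ?_⟩
  · rw [H.Q16 0 (by omega), Qn_lt (by omega), hN.N0]
  · rw [H.Q16 1 (by omega), Qn_lt (by omega), hN.N1]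
  · rw [H.Q16 2 (by omega), Qn_lt (by omega), hN.N2]
  · rw [H.Q16 3 (by omega), Qn_lt (by omega), hN.N3]
  · rw [H.Q16 4 (by omega), Qn_lt (by omega), hN.N4]
  · rw [H.Q16 5 (by omega), Qn_lt (by omega), hN.N5]
  · rw [H.Q16 6 (by omega), Qn_lt (by omega), hN.N6]
  · rw [H.Q16 7 (by omega), Qn_lt (by omega), hN.N7]
  · rw [H.Q16 8 (by omega), Qn_lt (by omega), hN.N8]
  · rw [H.Q16 12 (by omega), Qn_12, hM.M2]
  · rw [H.Q16 16 (by omega), Qn_16, hM.M0]

theorem srows_ok (W : RingS0 X h p a c) (hh : 7 ≤ h) (hN : Nam X p a c i N)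
    (hM : NamR X p a c i M) (H : CorQ X p a c i N M Q rl n) :
    ∀ f ∈ UDt.srows rl n, ∀ z ∈ f.2.2, 0 < orient (Q f.1) (Q f.2.1) (Q z) := by
  obtain ⟨q0, q1, q2, q3, q4, q5, q6, q7, q8, q12, q16⟩ := H.names hN hM
  have ln : ∀ j ≤ 16, j < n := fun j hj => H.rln j (H.rl16 j hj)
  have r : ∀ j ≤ 16, j ∈ rl := H.rl16
  have s11 : i + 1 + 1 = i + 2 := by ring
  have s21 : i + 2 + 1 = i + 3 := by ring
  have s31 : i + 3 + 1 = i + 4 := by ring
  have m11 : i + 1 - 1 = i := by ring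
  have m21 : i + 2 - 1 = i + 1 := by ring
  have m31 : i + 3 - 1 = i + 2 := by ring
  have s12 : i + 1 + 2 = i + 3 := by ring
  have s22 : i + 2 + 2 = i + 4 := by ring
  have q4' : Q 4 = p (i + 1 + 1) := by rw [s11]; exact q4
  have q7' : Q 7 = p (i + 2 + 1) := by rw [s21]; exact q7
  have q16' : Q 16 = p (i + 3 + 1) := by rw [s31]; exact q16
  intro f hf
  simp only [UDt.srows, List.mem_cons, List.not_mem_nil, or_false] at hf
  rcases hf with rfl | rfl | rfl | rfl | rfl | rfl | rfl | rfl | rfl | rfl | rfl | rfl | rfl |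
    rfl | rfl | rfl | rfl | rfl | rfl | rfl | rfl | rfl | rfl
  · intro z hz
    obtain ⟨z1, z2⟩ := UDt.mem_ex.1 hz
    rw [List.mem_range] at z1
    simp only [List.mem_cons, List.not_mem_nil, or_false, not_or] at z2
    exact H.hullQ W q0 q1 (ln 0 (by omega)) (ln 1 (by omega)) z1 z2.1 z2.2
  · intro z hz
    obtain ⟨z1, z2⟩ := UDt.mem_ex.1 hz
    rw [List.mem_range] at z1
    simp only [List.mem_cons, List.not_mem_nil, or_false, not_or] at z2
    exact H.hullQ W q1 q4' (ln 1 (by omega)) (ln 4 (by omega)) z1 z2.1 z2.2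
  · intro z hz
    obtain ⟨z1, z2⟩ := UDt.mem_ex.1 hz
    rw [List.mem_range] at z1
    simp only [List.mem_cons, List.not_mem_nil, or_false, not_or] at z2
    exact H.hullQ W q4 q7' (ln 4 (by omega)) (ln 7 (by omega)) z1 z2.1 z2.2
  · intro z hz
    obtain ⟨z1, z2⟩ := UDt.mem_ex.1 hz
    rw [List.mem_range] at z1
    simp only [List.mem_cons, List.not_mem_nil, or_false, not_or] at z2
    exact H.hullQ W q7 q16' (ln 7 (by omega)) (ln 16 (by omega)) z1 z2.1 z2.2
  · intro z hz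
    obtain ⟨z1, z2⟩ := UDt.mem_ex.1 hz
    simp only [List.mem_cons, List.not_mem_nil, or_false, not_or] at z2
    have := H.near z z1 z2.1 z2.2
    simp only
    rw [q16, q0, orient_swap]
    linarith
  · intro z hz
    obtain ⟨z1, z2⟩ := UDt.mem_ex.1 hz
    simp only [List.mem_cons, List.not_mem_nil, or_false, not_or] at z2
    exact (H.aQ W q0 q1 q2 (ln 0 (by omega)) (ln 1 (by omega)) (ln 2 (by omega)) z1 z2.1 z2.2.1
      z2.2.2).1
  · intro z hz
    obtain ⟨z1, z2⟩ := UDt.mem_ex.1 hz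
    simp only [List.mem_cons, List.not_mem_nil, or_false, not_or] at z2
    exact (H.aQ W q0 q1 q2 (ln 0 (by omega)) (ln 1 (by omega)) (ln 2 (by omega)) z1 z2.1 z2.2.1
      z2.2.2).2
  · intro z hz
    obtain ⟨z1, z2⟩ := UDt.mem_ex.1 hz
    simp only [List.mem_cons, List.not_mem_nil, or_false, not_or] at z2
    exact (H.aQ W q1 q4' q3 (ln 1 (by omega)) (ln 4 (by omega)) (ln 3 (by omega)) z1 z2.1 z2.2.1
      z2.2.2).1
  · intro z hz
    obtain ⟨z1, z2⟩ := UDt.mem_ex.1 hz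
    simp only [List.mem_cons, List.not_mem_nil, or_false, not_or] at z2
    exact (H.aQ W q1 q4' q3 (ln 1 (by omega)) (ln 4 (by omega)) (ln 3 (by omega)) z1 z2.1 z2.2.1
      z2.2.2).2
  · intro z hz
    obtain ⟨z1, z2⟩ := UDt.mem_ex.1 hz
    simp only [List.mem_cons, List.not_mem_nil, or_false, not_or] at z2
    exact (H.aQ W q4 q7' q6 (ln 4 (by omega)) (ln 7 (by omega)) (ln 6 (by omega)) z1 z2.1 z2.2.1
      z2.2.2).1
  · intro z hz
    obtain ⟨z1, z2⟩ := UDt.mem_ex.1 hz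
    simp only [List.mem_cons, List.not_mem_nil, or_false, not_or] at z2
    exact (H.aQ W q4 q7' q6 (ln 4 (by omega)) (ln 7 (by omega)) (ln 6 (by omega)) z1 z2.1 z2.2.1
      z2.2.2).2
  · intro z hz
    obtain ⟨z1, z2⟩ := UDt.mem_ex.1 hz
    simp only [List.mem_cons, List.not_mem_nil, or_false, not_or] at z2
    exact (H.aQ W q7 q16' q12 (ln 7 (by omega)) (ln 16 (by omega)) (ln 12 (by omega)) z1 z2.1
      z2.2.1 z2.2.2).1
  · intro z hz
    obtain ⟨z1, z2⟩ := UDt.mem_ex.1 hz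
    simp only [List.mem_cons, List.not_mem_nil, or_false, not_or] at z2
    exact (H.aQ W q7 q16' q12 (ln 7 (by omega)) (ln 16 (by omega)) (ln 12 (by omega)) z1 z2.1
      z2.2.1 z2.2.2).2
  · -- (7, 1, [3, 4, 6])
    intro z hz
    have key : orient (Q 1) (Q 7) (Q z) < 0 := by
      have k := W.s1 (i + 2) (Q z)
        (by simp only [List.mem_cons, List.not_mem_nil, or_false] at hz
            rcases hz with rfl | rfl | rfl <;> exact H.real _ (r _ (by omega)))
      rw [m21, s21] at k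
      rw [q1, q7]
      refine k.2 ?_
      simp only [List.mem_cons, List.not_mem_nil, or_false] at hz
      rcases hz with rfl | rfl | rfl
      · exact Or.inl q3
      · exact Or.inr (Or.inl q4)
      · exact Or.inr (Or.inr q6)
    simp only
    rw [orient_swap]
    linarith
  · intro z hz
    obtain ⟨z1, z2⟩ := UDt.mem_ex.1 hz
    simp only [List.mem_cons, List.not_mem_nil, or_false, not_or] at z2
    simp only
    refine H.pos W (r 1 (by omega)) (r 7 (by omega)) z1 (by omega) z2.1 z2.2.1 ?_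
    rw [q1, q7]
    intro hn
    have k := (W.s1 (i + 2) (Q z) (H.real z z1))
    rw [m21, s21] at k
    have zn := H.rln z z1
    rcases k.1 hn with k | k | k
    · exact H.inj z 3 zn (ln 3 (by omega)) z2.2.2.1 (k.trans q3.symm)
    · exact H.inj z 4 zn (ln 4 (by omega)) z2.2.2.2.1 (k.trans q4.symm)
    · exact H.inj z 6 zn (ln 6 (by omega)) z2.2.2.2.2 (k.trans q6.symm)
  · -- (4, 0, [2, 1, 3])
    intro z hz
    have key : orient (Q 0) (Q 4) (Q z) < 0 := by
      have k := W.s1 (i + 1) (Q z)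
        (by simp only [List.mem_cons, List.not_mem_nil, or_false] at hz
            rcases hz with rfl | rfl | rfl <;> exact H.real _ (r _ (by omega)))
      rw [m11, s11] at k
      rw [q0, q4]
      refine k.2 ?_
      simp only [List.mem_cons, List.not_mem_nil, or_false] at hz
      rcases hz with rfl | rfl | rfl
      · exact Or.inl q2
      · exact Or.inr (Or.inl q1)
      · exact Or.inr (Or.inr q3)
    simp only
    rw [orient_swap]
    linarith
  · intro z hz
    obtain ⟨z1, z2⟩ := UDt.mem_ex.1 hz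
    simp only [List.mem_cons, List.not_mem_nil, or_false, not_or] at z2
    simp only
    refine H.pos W (r 0 (by omega)) (r 4 (by omega)) z1 (by omega) z2.1 z2.2.1 ?_
    rw [q0, q4]
    intro hn
    have k := (W.s1 (i + 1) (Q z) (H.real z z1))
    rw [m11, s11] at k
    have zn := H.rln z z1
    rcases k.1 hn with k | k | k
    · exact H.inj z 2 zn (ln 2 (by omega)) z2.2.2.1 (k.trans q2.symm)
    · exact H.inj z 1 zn (ln 1 (by omega)) z2.2.2.2.1 (k.trans q1.symm)
    · exact H.inj z 3 zn (ln 3 (by omega)) z2.2.2.2.2 (k.trans q3.symm)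
  · -- (16, 4, [6, 7, 12])
    intro z hz
    have key : orient (Q 4) (Q 16) (Q z) < 0 := by
      have k := W.s1 (i + 3) (Q z)
        (by simp only [List.mem_cons, List.not_mem_nil, or_false] at hz
            rcases hz with rfl | rfl | rfl <;> exact H.real _ (r _ (by omega)))
      rw [m31, s31] at k
      rw [q4, q16]
      refine k.2 ?_
      simp only [List.mem_cons, List.not_mem_nil, or_false] at hz
      rcases hz with rfl | rfl | rfl
      · exact Or.inl q6
      · exact Or.inr (Or.inl q7)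
      · exact Or.inr (Or.inr q12)
    simp only
    rw [orient_swap]
    linarith
  · intro z hz
    obtain ⟨z1, z2⟩ := UDt.mem_ex.1 hz
    simp only [List.mem_cons, List.not_mem_nil, or_false, not_or] at z2
    simp only
    refine H.pos W (r 4 (by omega)) (r 16 (by omega)) z1 (by omega) z2.1 z2.2.1 ?_
    rw [q4, q16]
    intro hn
    have k := (W.s1 (i + 3) (Q z) (H.real z z1))
    rw [m31, s31] at k
    have zn := H.rln z z1
    rcases k.1 hn with k | k | k
    · exact H.inj z 6 zn (ln 6 (by omega)) z2.2.2.1 (k.trans q6.symm)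
    · exact H.inj z 7 zn (ln 7 (by omega)) z2.2.2.2.1 (k.trans q7.symm)
    · exact H.inj z 12 zn (ln 12 (by omega)) z2.2.2.2.2 (k.trans q12.symm)
  · -- (7, 0, [2, 3, 6, 1, 4, 5])
    intro z hz
    have key : orient (Q 0) (Q 7) (Q z) < 0 := by
      have k := W.s2 (i + 1) (Q z)
        (by simp only [List.mem_cons, List.not_mem_nil, or_false] at hz
            rcases hz with rfl | rfl | rfl | rfl | rfl | rfl <;>
              exact H.real _ (r _ (by omega)))
      rw [m11, s12, s11] at k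
      rw [q0, q7]
      refine k.2 ?_
      simp only [List.mem_cons, List.not_mem_nil, or_false] at hz
      rcases hz with rfl | rfl | rfl | rfl | rfl | rfl
      · exact Or.inr (Or.inr (Or.inl q2))
      · exact Or.inr (Or.inr (Or.inr (Or.inl q3)))
      · exact Or.inr (Or.inr (Or.inr (Or.inr (Or.inl q6))))
      · exact Or.inl q1
      · exact Or.inr (Or.inl q4)
      · exact Or.inr (Or.inr (Or.inr (Or.inr (Or.inr q5))))
    simp only
    rw [orient_swap]
    linarith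
  · intro z hz
    obtain ⟨z1, z2⟩ := UDt.mem_ex.1 hz
    simp only [List.mem_cons, List.not_mem_nil, or_false, not_or] at z2
    simp only
    refine H.pos W (r 0 (by omega)) (r 7 (by omega)) z1 (by omega) z2.1 z2.2.1 ?_
    rw [q0, q7]
    intro hn
    have k := (W.s2 (i + 1) (Q z) (H.real z z1))
    rw [m11, s12, s11] at k
    have zn := H.rln z z1
    rcases k.1 hn with k | k | k | k | k | k
    · exact H.inj z 1 zn (ln 1 (by omega)) z2.2.2.2.2.2.1 (k.trans q1.symm)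
    · exact H.inj z 4 zn (ln 4 (by omega)) z2.2.2.2.2.2.2.1 (k.trans q4.symm)
    · exact H.inj z 2 zn (ln 2 (by omega)) z2.2.2.1 (k.trans q2.symm)
    · exact H.inj z 3 zn (ln 3 (by omega)) z2.2.2.2.1 (k.trans q3.symm)
    · exact H.inj z 6 zn (ln 6 (by omega)) z2.2.2.2.2.1 (k.trans q6.symm)
    · exact H.inj z 5 zn (ln 5 (by omega)) z2.2.2.2.2.2.2.2 (k.trans q5.symm)
  · -- (16, 1, [3, 6, 12, 4, 7, 8])
    intro z hz
    have key : orient (Q 1) (Q 16) (Q z) < 0 := by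
      have k := W.s2 (i + 2) (Q z)
        (by simp only [List.mem_cons, List.not_mem_nil, or_false] at hz
            rcases hz with rfl | rfl | rfl | rfl | rfl | rfl <;>
              exact H.real _ (r _ (by omega)))
      rw [m21, s22, s21] at k
      rw [q1, q16]
      refine k.2 ?_
      simp only [List.mem_cons, List.not_mem_nil, or_false] at hz
      rcases hz with rfl | rfl | rfl | rfl | rfl | rfl
      · exact Or.inr (Or.inr (Or.inl q3))
      · exact Or.inr (Or.inr (Or.inr (Or.inl q6)))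
      · exact Or.inr (Or.inr (Or.inr (Or.inr (Or.inl q12))))
      · exact Or.inl q4
      · exact Or.inr (Or.inl q7)
      · exact Or.inr (Or.inr (Or.inr (Or.inr (Or.inr q8))))
    simp only
    rw [orient_swap]
    linarith
  · intro z hz
    obtain ⟨z1, z2⟩ := UDt.mem_ex.1 hz
    simp only [List.mem_cons, List.not_mem_nil, or_false, not_or] at z2
    simp only
    refine H.pos W (r 1 (by omega)) (r 16 (by omega)) z1 (by omega) z2.1 z2.2.1 ?_
    rw [q1, q16]
    intro hn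
    have k := (W.s2 (i + 2) (Q z) (H.real z z1))
    rw [m21, s22, s21] at k
    have zn := H.rln z z1
    rcases k.1 hn with k | k | k | k | k | k
    · exact H.inj z 4 zn (ln 4 (by omega)) z2.2.2.2.2.2.1 (k.trans q4.symm)
    · exact H.inj z 7 zn (ln 7 (by omega)) z2.2.2.2.2.2.2.1 (k.trans q7.symm)
    · exact H.inj z 3 zn (ln 3 (by omega)) z2.2.2.1 (k.trans q3.symm)
    · exact H.inj z 6 zn (ln 6 (by omega)) z2.2.2.2.1 (k.trans q6.symm)
    · exact H.inj z 12 zn (ln 12 (by omega)) z2.2.2.2.2.1 (k.trans q12.symm)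
    · exact H.inj z 8 zn (ln 8 (by omega)) z2.2.2.2.2.2.2.2 (k.trans q8.symm)

end

end Geo

end Pool.Agent.GCP
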