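import Pool.Agent.GCP.GeoThree

/-!
# A line with exactly `m` points beyond it (MP_062f91_co)
-/

namespace Pool.Agent.GCP

namespace Geo

open Filter Topology

section top

variable {α : Type} [DecidableEq α]

/-- `T` consists of `T.card` largest elements of `N` with respect to `g`. -/
def IsTop (N T : Finset α) (g : α → ℝ) : Prop :=
  T ⊆ N ∧ ∀ x ∈ T, ∀ y ∈ N, y ∉ T → g y ≤ g x

lemma exists_isTop (N : Finset α) (g : α → ℝ) : ∀ m, m ≤ N.card →
    ∃ T, T.card = m ∧ IsTop N T g := by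
  intro m
  induction m with
  | zero => exact fun _ => ⟨∅, rfl, Finset.empty_subset _, fun x hx => absurd hx (by simp)⟩
  | succ m ih =>
    intro hm
    obtain ⟨T, h1, h2, h3⟩ := ih (by omega)
    have hne : (N \ T).Nonempty := by
      rw [← Finset.card_pos, Finset.card_sdiff_of_subset h2]
      omega
    obtain ⟨y, hy, hy2⟩ := Finset.exists_max_image (N \ T) g hne
    have hy' := Finset.mem_sdiff.1 hy
    refine ⟨insert y T, by rw [Finset.card_insert_of_notMem hy'.2, h1],
      Finset.insert_subset hy'.1 h2, ?_⟩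
    intro x hx z hz hzT
    rw [Finset.mem_insert, not_or] at hzT
    rcases Finset.mem_insert.1 hx with rfl | hx
    · exact hy2 z (Finset.mem_sdiff.2 ⟨hz, hzT.2⟩)
    · exact h3 x hx z hz hzT.2

/-- The intermediate value theorem for the top sets of a family of orders. -/
theorem ivt_top (N R : Finset α) (f : ℝ → α → ℝ)
    (hf : ∀ z ∈ N, ContinuousOn (fun t => f t z) (Set.Icc 0 1)) {m k : ℕ} (hm : m ≤ N.card)
    (h3 : ∀ t ∈ Set.Icc (0 : ℝ) 1, ∀ x ∈ N, ∀ y ∈ N, ∀ z ∈ N, x ≠ y → y ≠ z → x ≠ z →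
      ¬ (f t x = f t y ∧ f t y = f t z))
    (h0 : ∀ T, T.card = m → IsTop N T (f 0) → k < (T ∩ R).card)
    (h1 : ∀ T, T.card = m → IsTop N T (f 1) → (T ∩ R).card ≤ k) :
    ∃ t ∈ Set.Icc (0 : ℝ) 1, ∃ A x y, A ⊆ N ∧ x ∈ N ∧ y ∈ N ∧ x ∉ A ∧ y ∉ A ∧ x ≠ y ∧
      A.card + 1 = m ∧ x ∈ R ∧ y ∉ R ∧ (A ∩ R).card = k ∧ f t x = f t y ∧
      (∀ z ∈ A, f t x < f t z) ∧ ∀ z ∈ N, z ∉ A → z ≠ x → z ≠ y → f t z < f t x := by
  classical
  set W : Finset α → Set ℝ := fun T => {t ∈ Set.Icc (0 : ℝ) 1 | IsTop N T (f t)} with hW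
  have hWc : ∀ T ⊆ N, IsClosed (W T) := by
    intro T hT
    have e : W T = Set.Icc 0 1 ∩ ⋂ x ∈ T, ⋂ y ∈ N \ T,
        {t ∈ Set.Icc (0 : ℝ) 1 | f t y ≤ f t x} := by
      ext t
      simp only [hW, Set.mem_ofPred_eq, Set.mem_inter_iff, Set.mem_iInter, Finset.mem_sdiff]
      constructor
      · rintro ⟨ht, h4⟩
        exact ⟨ht, fun x hx y hy => ⟨ht, h4.2 x hx y hy.1 hy.2⟩⟩
      · rintro ⟨ht, h4⟩
        exact ⟨ht, hT, fun x hx y hy hyT => (h4 x hx y ⟨hy, hyT⟩).2⟩
    rw [e]
    refine isClosed_Icc.inter ?_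
    refine isClosed_biInter fun x hx => isClosed_biInter fun y hy => ?_
    exact isClosed_Icc.isClosed_le (hf y (Finset.mem_sdiff.1 hy).1) (hf x (hT hx))
  set A : Set ℝ := ⋃ T ∈ (N.powersetCard m).filter (fun T => k < (T ∩ R).card), W T with hA
  set B : Set ℝ := ⋃ T ∈ (N.powersetCard m).filter (fun T => (T ∩ R).card ≤ k), W T with hB
  have hAc : IsClosed A := by
    refine Set.Finite.isClosed_biUnion (Finset.finite_toSet _) fun T hT => hWc T ?_
    exact (Finset.mem_powersetCard.1 (Finset.mem_filter.1 (Finset.mem_coe.1 hT)).1).1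
  have hBc : IsClosed B := by
    refine Set.Finite.isClosed_biUnion (Finset.finite_toSet _) fun T hT => hWc T ?_
    exact (Finset.mem_powersetCard.1 (Finset.mem_filter.1 (Finset.mem_coe.1 hT)).1).1
  have hcov : Set.Icc (0 : ℝ) 1 ⊆ A ∪ B := by
    intro t ht
    obtain ⟨T, h4, h5⟩ := exists_isTop N (f t) m hm
    rcases lt_or_ge k (T ∩ R).card with h6 | h6
    · left
      simp only [hA, Set.mem_iUnion]
      exact ⟨T, Finset.mem_filter.2 ⟨Finset.mem_powersetCard.2 ⟨h5.1, h4⟩, h6⟩, ht, h5⟩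
    · right
      simp only [hB, Set.mem_iUnion]
      exact ⟨T, Finset.mem_filter.2 ⟨Finset.mem_powersetCard.2 ⟨h5.1, h4⟩, h6⟩, ht, h5⟩
  have hA0 : (Set.Icc (0 : ℝ) 1 ∩ A).Nonempty := by
    obtain ⟨T, h4, h5⟩ := exists_isTop N (f 0) m hm
    refine ⟨0, by simp, ?_⟩
    simp only [hA, Set.mem_iUnion]
    exact ⟨T, Finset.mem_filter.2 ⟨Finset.mem_powersetCard.2 ⟨h5.1, h4⟩, h0 T h4 h5⟩, by simp, h5⟩
  have hB1 : (Set.Icc (0 : ℝ) 1 ∩ B).Nonempty := by
    obtain ⟨T, h4, h5⟩ := exists_isTop N (f 1) m hm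
    refine ⟨1, by simp, ?_⟩
    simp only [hB, Set.mem_iUnion]
    exact ⟨T, Finset.mem_filter.2 ⟨Finset.mem_powersetCard.2 ⟨h5.1, h4⟩, h1 T h4 h5⟩, by simp, h5⟩
  obtain ⟨t, ht, htA, htB⟩ := isPreconnected_closed_iff.1 isPreconnected_Icc A B hAc hBc hcov hA0 hB1
  simp only [hA, Set.mem_iUnion] at htA
  simp only [hB, Set.mem_iUnion] at htB
  obtain ⟨T, hT, -, hT2⟩ := htA
  obtain ⟨U, hU, -, hU2⟩ := htB
  obtain ⟨hT3, hT4⟩ := Finset.mem_filter.1 hT
  obtain ⟨hU3, hU4⟩ := Finset.mem_filter.1 hU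
  have cT := (Finset.mem_powersetCard.1 hT3).2
  have cU := (Finset.mem_powersetCard.1 hU3).2
  have hTN := hT2.1
  have hUN := hU2.1
  -- all elements of `T \ U` and of `U \ T` have the same value
  have htie : ∀ x ∈ T, x ∉ U → ∀ y ∈ U, y ∉ T → f t x = f t y := fun x hx hxU y hy hyT =>
    le_antisymm (hU2.2 y hy x (hTN hx) hxU) (hT2.2 x hx y (hUN hy) hyT)
  have hne : T ≠ U := by
    rintro rfl
    omega
  have hTU : (T \ U).Nonempty := by
    rw [Finset.sdiff_nonempty]
    intro h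
    exact hne (Finset.eq_of_subset_of_card_le h (by omega))
  have hUT : (U \ T).Nonempty := by
    rw [Finset.sdiff_nonempty]
    intro h
    exact hne (Finset.eq_of_subset_of_card_le h (by omega)).symm
  obtain ⟨x, hx⟩ := hTU
  obtain ⟨y, hy⟩ := hUT
  obtain ⟨hxT, hxU⟩ := Finset.mem_sdiff.1 hx
  obtain ⟨hyU, hyT⟩ := Finset.mem_sdiff.1 hy
  have hxy : x ≠ y := fun e => hyT (e ▸ hxT)
  have ftie := htie x hxT hxU y hyU hyT
  have e1 : T \ U = {x} := by
    ext z
    rw [Finset.mem_singleton]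
    constructor
    · intro hz
      by_contra hzx
      obtain ⟨hzT, hzU⟩ := Finset.mem_sdiff.1 hz
      have hzy : z ≠ y := fun e => hyT (e ▸ hzT)
      exact h3 t ht x (hTN hxT) y (hUN hyU) z (hTN hzT) hxy hzy.symm (Ne.symm hzx)
        ⟨ftie, (htie z hzT hzU y hyU hyT).symm⟩
    · rintro rfl
      exact hx
  have e2 : U \ T = {y} := by
    ext z
    rw [Finset.mem_singleton]
    constructor
    · intro hz
      by_contra hzy
      obtain ⟨hzU, hzT⟩ := Finset.mem_sdiff.1 hz
      have hzx : z ≠ x := fun e => hxU (e ▸ hzU)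
      exact h3 t ht y (hUN hyU) x (hTN hxT) z (hUN hzU) hxy.symm hzx.symm (Ne.symm hzy)
        ⟨ftie.symm, htie x hxT hxU z hzU hzT⟩
    · rintro rfl
      exact hy
  set I := T ∩ U with hI
  have hTI : T = insert x I := by
    rw [hI, Finset.insert_eq, ← e1]
    exact (Finset.sdiff_union_inter T U).symm
  have hUI : U = insert y I := by
    rw [hI, Finset.inter_comm, Finset.insert_eq, ← e2]
    exact (Finset.sdiff_union_inter U T).symm
  have hxI : x ∉ I := fun h => hxU (Finset.mem_inter.1 h).2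
  have hyI : y ∉ I := fun h => hyT (Finset.mem_inter.1 h).1
  have cI : I.card + 1 = m := by
    rw [← cT, hTI, Finset.card_insert_of_notMem hxI]
  -- counting `R`
  have k1 : (T ∩ R).card = (I ∩ R).card + if x ∈ R then 1 else 0 := by
    rw [hTI]
    split_ifs with hxR
    · rw [Finset.insert_inter_of_mem hxR, Finset.card_insert_of_notMem]
      exact fun h => hxI (Finset.mem_inter.1 h).1
    · rw [Finset.insert_inter_of_notMem hxR, add_zero]
  have k2 : (U ∩ R).card = (I ∩ R).card + if y ∈ R then 1 else 0 := by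
    rw [hUI]
    split_ifs with hyR
    · rw [Finset.insert_inter_of_mem hyR, Finset.card_insert_of_notMem]
      exact fun h => hyI (Finset.mem_inter.1 h).1
    · rw [Finset.insert_inter_of_notMem hyR, add_zero]
  have hxR : x ∈ R := by
    by_contra hxR
    rw [if_neg hxR] at k1
    omega
  rw [if_pos hxR] at k1
  have hyR : y ∉ R := by
    intro hyR
    rw [if_pos hyR] at k2
    omega
  rw [if_neg hyR] at k2
  have hIN : I ⊆ N := Finset.inter_subset_left.trans hTN
  refine ⟨t, ht, I, x, y, hIN, hTN hxT, hUN hyU, hxI, hyI, hxy, cI, hxR, hyR,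
    by omega, ftie, ?_, ?_⟩
  · intro z hz
    have hzx : z ≠ x := fun e => hxI (e ▸ hz)
    have hzy : z ≠ y := fun e => hyI (e ▸ hz)
    have h5 := hU2.2 z (Finset.mem_inter.1 hz).2 x (hTN hxT) hxU
    refine lt_of_le_of_ne h5 fun h6 => ?_
    exact h3 t ht z (hIN hz) x (hTN hxT) y (hUN hyU) hzx hxy hzy ⟨h6.symm, ftie⟩
  · intro z hz hzI hzx hzy
    have hzT : z ∉ T := by
      rw [hTI, Finset.mem_insert, not_or]
      exact ⟨hzx, hzI⟩
    have h5 := hT2.2 x hxT z hz hzT
    refine lt_of_le_of_ne h5 fun h6 => ?_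
    exact h3 t ht z hz x (hTN hxT) y (hUN hyU) hzx hxy hzy ⟨h6, ftie⟩

end top

/-- A line with exactly `n + 1` points beyond it, exactly `k` of them in the set `R` of the `n`
first points around `P0`. -/
theorem line_exists {X : Finset Pt} (gp : GeneralPosition X) {P0 P4 o : Pt} {τ0 τ4 : Pt → ℝ}
    (a0 : Aff τ0) (a4 : Aff τ4) (z0 : τ0 P0 = 0) (z4 : τ4 P4 = 0)
    (h0 : ∀ z ∈ X, z ≠ P0 → 0 < τ0 z) (h4 : ∀ z ∈ X, z ≠ P4 → 0 < τ4 z)
    (m0 : P0 ∈ X) (m4 : P4 ∈ X) (hne : P0 ≠ P4)
    (gen : ∀ x ∈ X, ∀ y ∈ X, x ≠ y → orient x y o ≠ 0) (ho : 0 < orient P0 o P4)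
    (ho0 : 0 < τ0 o) (ho4 : 0 < τ4 o) {R L : Finset Pt}
    (hR : ∀ z, z ∈ R ↔ z ∈ X ∧ orient P0 o z < 0) (hL : ∀ z, z ∈ L ↔ z ∈ X ∧ orient o P4 z < 0)
    {n k : ℕ} (cR : R.card = n) (cL : L.card = n) (hk1 : k < n) (hk2 : (R ∩ L).card + 1 ≤ k) :
    ∃ (Ψ : Pt → ℝ) (T : Finset Pt), Aff Ψ ∧ T ⊆ X ∧ T.card = n + 1 ∧ (T ∩ R).card = k ∧
      (∀ z ∈ T, 0 < Ψ z) ∧ (∀ z ∈ X, z ∉ T → Ψ z < 0) ∧ Ψ o ≠ 0 ∧ P0 ∉ T ∧ P4 ∉ T ∧
      ∀ z ∈ T, orient P0 P4 z < 0 := by
  classical
  have τ04 : 0 < τ0 P4 := h0 P4 m4 hne.symm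
  have τ40 : 0 < τ4 P0 := h4 P0 m0 hne
  have hκo : orient P4 P0 o = orient P0 o P4 := (orient_cyc P4 P0 o).symm
  have aκ : Aff (fun z => orient P4 P0 z) := aff_orient _ _
  set N := X.filter (fun z => 0 < orient P4 P0 z) with hN
  have memN : ∀ z, z ∈ N ↔ z ∈ X ∧ 0 < orient P4 P0 z := fun z => Finset.mem_filter
  have nN0 : ∀ z ∈ N, z ≠ P0 := by
    rintro z hz rfl
    have := ((memN _).1 hz).2
    simp at this
  have nN4 : ∀ z ∈ N, z ≠ P4 := by
    rintro z hz rfl
    have := ((memN _).1 hz).2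
    simp at this
  set D : ℝ → Pt → ℝ := fun t z => (1 - t) * τ0 z + t * τ4 z with hD
  have Dpos : ∀ t ∈ Set.Icc (0 : ℝ) 1, ∀ z ∈ N, 0 < D t z := by
    intro t ht z hz
    have e1 := h0 z ((memN z).1 hz).1 (nN0 z hz)
    have e2 := h4 z ((memN z).1 hz).1 (nN4 z hz)
    rcases eq_or_lt_of_le ht.1 with h | h
    · rw [← h]; simpa [hD] using e1
    · have := mul_pos h e2
      have := mul_nonneg (sub_nonneg.2 ht.2) e1.le
      simp only [hD]; linarith
  have aD : ∀ t, Aff (D t) := fun t => (a0.smul (1 - t)).add (a4.smul t)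
  -- the functional through two tied points
  have key : ∀ t x y z u, orient P4 P0 x * D t y = orient P4 P0 y * D t x →
      (orient P4 P0 u * D t x - orient P4 P0 x * D t u) * orient x y z =
      (orient P4 P0 z * D t x - orient P4 P0 x * D t z) * orient x y u := by
    intro t x y z u h
    have aΦ : Aff (fun u => orient P4 P0 u * D t x - orient P4 P0 x * D t u) := by
      have := (aκ.smul (D t x)).add ((aD t).smul (-orient P4 P0 x))
      obtain ⟨a, b, c, h⟩ := this
      exact ⟨a, b, c, fun z => by rw [← h]; ring⟩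
    have := aΦ.bary x y z u
    rw [this]
    have e : orient P4 P0 y * D t x - orient P4 P0 x * D t y = 0 := by rw [h]; ring
    rw [e]
    ring
  set f : ℝ → Pt → ℝ := fun t z => orient P4 P0 z / D t z with hf
  have f0R : ∀ z ∈ X, z ≠ P0 → (orient P0 o z < 0 ↔ f 0 o < f 0 z) := by
    intro z hz hzne
    have e : (orient P4 P0 z * τ0 o - orient P4 P0 o * τ0 z) =
        -τ0 P4 * orient P0 o z := by
      have aΦ : Aff (fun u => orient P4 P0 u * τ0 o - orient P4 P0 o * τ0 u) := by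
        have := (aκ.smul (τ0 o)).add (a0.smul (-orient P4 P0 o))
        obtain ⟨a, b, c, h⟩ := this
        exact ⟨a, b, c, fun z => by rw [← h]; ring⟩
      have k1 := aΦ.bary P0 o z P4
      simp only [orient_left, orient_right, z0, hκo] at k1
      have k2 : orient P0 o P4 * ((orient P4 P0 z * τ0 o - orient P0 o P4 * τ0 z) +
        τ0 P4 * orient P0 o z) = 0 := by linear_combination -k1
      rcases mul_eq_zero.1 k2 with k3 | k3
      · exact absurd k3 ho.ne'
      · rw [hκo]; linarith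
    have e1 := h0 z hz hzne
    simp only [hf, hD, sub_zero, one_mul, zero_mul, add_zero]
    rw [div_lt_div_iff₀ ho0 e1]
    constructor
    · intro h
      have := mul_pos_of_neg_of_neg (neg_neg_of_pos τ04) h
      linarith
    · intro h
      have h5 : 0 < -τ0 P4 * orient P0 o z := by linarith
      by_contra h6
      rw [not_lt] at h6
      have := mul_nonneg τ04.le h6
      linarith
  have f1L : ∀ z ∈ X, z ≠ P4 → (orient o P4 z < 0 ↔ f 1 o < f 1 z) := by
    intro z hz hzne
    have e : (orient P4 P0 z * τ4 o - orient P4 P0 o * τ4 z) =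
        -τ4 P0 * orient o P4 z := by
      have aΦ : Aff (fun u => orient P4 P0 u * τ4 o - orient P4 P0 o * τ4 u) := by
        have := (aκ.smul (τ4 o)).add (a4.smul (-orient P4 P0 o))
        obtain ⟨a, b, c, h⟩ := this
        exact ⟨a, b, c, fun z => by rw [← h]; ring⟩
      have k1 := aΦ.bary o P4 z P0
      have e2 : orient o P4 P0 = orient P0 o P4 := orient_cyc _ _ _
      simp only [orient_left, orient_right, z4, hκo, e2] at k1
      have k2 : orient P0 o P4 * ((orient P4 P0 z * τ4 o - orient P0 o P4 * τ4 z) +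
        τ4 P0 * orient o P4 z) = 0 := by linear_combination -k1
      rcases mul_eq_zero.1 k2 with k3 | k3
      · exact absurd k3 ho.ne'
      · rw [hκo]; linarith
    have e1 := h4 z hz hzne
    simp only [hf, hD, sub_self, one_mul, zero_mul, zero_add]
    rw [div_lt_div_iff₀ ho4 e1]
    constructor
    · intro h
      have := mul_pos_of_neg_of_neg (neg_neg_of_pos τ40) h
      linarith
    · intro h
      have h5 : 0 < -τ4 P0 * orient o P4 z := by linarith
      by_contra h6
      rw [not_lt] at h6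
      have := mul_nonneg τ40.le h6
      linarith
  have fpos : ∀ t ∈ Set.Icc (0 : ℝ) 1, ∀ x ∈ N, ∀ y ∈ N, f t x < f t y →
      orient P4 P0 x * D t y < orient P4 P0 y * D t x := by
    intro t ht x hx y hy hxy
    exact (div_lt_div_iff₀ (Dpos t ht x hx) (Dpos t ht y hy)).1 hxy
  have feq : ∀ t ∈ Set.Icc (0 : ℝ) 1, ∀ x ∈ N, ∀ y ∈ N, f t x = f t y →
      orient P4 P0 x * D t y = orient P4 P0 y * D t x := by
    intro t ht x hx y hy hxy
    exact (div_eq_div_iff (Dpos t ht x hx).ne' (Dpos t ht y hy).ne').1 hxy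
  -- a functional through two tied points does not vanish at both ends
  have hne0 : ∀ t x, x ∈ N → 0 < t → orient P4 P0 P0 * D t x - orient P4 P0 x * D t P0 < 0 := by
    intro t x hx ht
    have hx' := ((memN x).1 hx).2
    simp only [orient_right, zero_mul, hD, z0, mul_zero, zero_add, zero_sub]
    have := mul_pos hx' (mul_pos ht τ40)
    linarith
  have hne4 : ∀ t x, x ∈ N → t < 1 → orient P4 P0 P4 * D t x - orient P4 P0 x * D t P4 < 0 := by
    intro t x hx ht
    have hx' := ((memN x).1 hx).2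
    simp only [orient_left, zero_mul, hD, z4, mul_zero, add_zero, zero_sub]
    have := mul_pos hx' (mul_pos (sub_pos.2 ht) τ04)
    linarith
  have RN : R ⊆ N := by
    intro z hz
    obtain ⟨h5, h6⟩ := (hR z).1 hz
    have z0' : z ≠ P0 := by rintro rfl; simp at h6
    have h7 := (f0R z h5 z0').1 h6
    refine (memN z).2 ⟨h5, ?_⟩
    have h8 : 0 < f 0 o := by
      simp only [hf, hD, sub_zero, one_mul, zero_mul, add_zero, hκo]
      exact div_pos ho ho0
    have h9 : 0 < f 0 z := h8.trans h7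
    simp only [hf, hD, sub_zero, one_mul, zero_mul, add_zero] at h9
    by_contra h10
    rw [not_lt] at h10
    exact absurd h9 (not_lt.2 (div_nonpos_of_nonpos_of_nonneg h10 (h0 z h5 z0').le))
  have LN : L ⊆ N := by
    intro z hz
    obtain ⟨h5, h6⟩ := (hL z).1 hz
    have z0' : z ≠ P4 := by rintro rfl; simp at h6
    have h7 := (f1L z h5 z0').1 h6
    refine (memN z).2 ⟨h5, ?_⟩
    have h8 : 0 < f 1 o := by
      simp only [hf, hD, sub_self, one_mul, zero_mul, zero_add, hκo]
      exact div_pos ho ho4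
    have h9 : 0 < f 1 z := h8.trans h7
    simp only [hf, hD, sub_self, one_mul, zero_mul, zero_add] at h9
    by_contra h10
    rw [not_lt] at h10
    exact absurd h9 (not_lt.2 (div_nonpos_of_nonpos_of_nonneg h10 (h4 z h5 z0').le))
  have hmN : n + 1 ≤ N.card := by
    have h5 : (R ∪ L).card ≤ N.card := Finset.card_le_card (Finset.union_subset RN LN)
    have h6 := Finset.card_union_add_card_inter R L
    omega
  obtain ⟨t, ht, A, x, y, hAN, hxN, hyN, hxA, hyA, hxy, cA, hxR, hyR, cAR, ftie, fA, fB⟩ :=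
    ivt_top N R f (m := n + 1) (k := k)
      (by
        intro z hz
        apply ContinuousOn.div
        · exact continuousOn_const
        · simp only [hD]; fun_prop
        · intro t ht
          exact (Dpos t ht z hz).ne')
      hmN
      (by
        rintro t ht x hx y hy z hz hxy hyz hxz ⟨e1, e2⟩
        have k1 := feq t ht x hx y hy e1
        have k2 := feq t ht x hx z hz (e1.trans e2)
        have k3 : orient P4 P0 z * D t x - orient P4 P0 x * D t z = 0 := by rw [k2]; ring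
        have hor : orient x y z ≠ 0 := orient_ne gp ((memN x).1 hx).1 ((memN y).1 hy).1
          ((memN z).1 hz).1 hxy hyz hxz
        have k4 := key t x y z P0 k1
        have k5 := key t x y z P4 k1
        rw [k3, zero_mul] at k4 k5
        rcases eq_or_lt_of_le ht.1 with h | h
        · rcases mul_eq_zero.1 k5 with h5 | h5
          · exact (hne4 t x hx (by rw [← h]; norm_num)).ne h5
          · exact hor h5
        · rcases mul_eq_zero.1 k4 with h5 | h5
          · exact (hne0 t x hx h).ne h5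
          · exact hor h5)
      (by
        intro T cT hT
        have : R ⊆ T := by
          intro z hz
          by_contra hzT
          have h5 : T ⊆ R := by
            intro w hw
            have h6 := hT.2 w hw z (RN hz) hzT
            have h7 := (hR z).1 hz
            have h8 := (f0R z h7.1 (nN0 z (RN hz))).1 h7.2
            have hwX := ((memN w).1 (hT.1 hw)).1
            exact (hR w).2 ⟨hwX, (f0R w hwX (nN0 w (hT.1 hw))).2 (lt_of_lt_of_le h8 h6)⟩
          have := Finset.card_le_card h5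
          omega
        rw [Finset.inter_eq_right.2 this, cR]
        exact hk1)
      (by
        intro T cT hT
        have : L ⊆ T := by
          intro z hz
          by_contra hzT
          have h5 : T ⊆ L := by
            intro w hw
            have h6 := hT.2 w hw z (LN hz) hzT
            have h7 := (hL z).1 hz
            have h8 := (f1L z h7.1 (nN4 z (LN hz))).1 h7.2
            have hwX := ((memN w).1 (hT.1 hw)).1
            exact (hL w).2 ⟨hwX, (f1L w hwX (nN4 w (hT.1 hw))).2 (lt_of_lt_of_le h8 h6)⟩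
          have := Finset.card_le_card h5
          omega
        have h5 : (T ∩ R) ⊆ (R ∩ L) ∪ (T \ L) := by
          intro w hw
          obtain ⟨h6, h7⟩ := Finset.mem_inter.1 hw
          by_cases h8 : w ∈ L
          · exact Finset.mem_union_left _ (Finset.mem_inter.2 ⟨h7, h8⟩)
          · exact Finset.mem_union_right _ (Finset.mem_sdiff.2 ⟨h6, h8⟩)
        have h6 := (Finset.card_le_card h5).trans (Finset.card_union_le _ _)
        have h7 := Finset.card_sdiff_of_subset this
        omega)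
  have hxX := ((memN x).1 hxN).1
  have hyX := ((memN y).1 hyN).1
  have AX : ∀ z ∈ A, z ∈ X := fun z hz => ((memN z).1 (hAN hz)).1
  have xytie := feq t ht x hxN y hyN ftie
  have t0 : 0 < t := by
    rcases eq_or_lt_of_le ht.1 with h | h
    · exfalso
      have k1 := key t x y P0 P4 xytie
      have k2 : orient P4 P0 P0 * D t x - orient P4 P0 x * D t P0 = 0 := by
        rw [← h]
        simp [hD, z0]
      rw [k2, zero_mul] at k1
      rcases mul_eq_zero.1 k1 with h5 | h5
      · exact (hne4 t x hxN (by rw [← h]; norm_num)).ne h5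
      · exact orient_ne gp hxX hyX m0 hxy (nN0 y hyN) (nN0 x hxN) h5
    · exact h
  have t1 : t < 1 := by
    rcases eq_or_lt_of_le ht.2 with h | h
    · exfalso
      have k1 := key t x y P4 P0 xytie
      have k2 : orient P4 P0 P4 * D t x - orient P4 P0 x * D t P4 = 0 := by
        rw [h]
        simp [hD, z4]
      rw [k2, zero_mul] at k1
      rcases mul_eq_zero.1 k1 with h5 | h5
      · exact (hne0 t x hxN (by rw [h]; norm_num)).ne h5
      · exact orient_ne gp hxX hyX m4 hxy (nN4 y hyN) (nN4 x hxN) h5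
    · exact h
  set Φ : Pt → ℝ := fun u => orient P4 P0 u * D t x - orient P4 P0 x * D t u with hΦ
  have aΦ : Aff Φ := by
    have := (aκ.smul (D t x)).add ((aD t).smul (-orient P4 P0 x))
    obtain ⟨a, b, c, h⟩ := this
    exact ⟨a, b, c, fun z => by rw [← h, hΦ]; ring⟩
  have Φx : Φ x = 0 := by simp only [hΦ]; ring
  have Φy : Φ y = 0 := by simp only [hΦ]; rw [xytie]; ring
  have ΦA : ∀ z ∈ A, 0 < Φ z := by
    intro z hz
    have := fpos t ht x hxN z (hAN hz) (fA z hz)
    simp only [hΦ]; linarith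
  have Φn : ∀ z ∈ X, z ∉ A → z ≠ x → z ≠ y → Φ z < 0 := by
    intro z hz hzA hzx hzy
    by_cases hzN : z ∈ N
    · have := fpos t ht z hzN x hxN (fB z hzN hzA hzx hzy)
      simp only [hΦ]; linarith
    · by_cases hz0 : z = P0
      · rw [hz0]; exact hne0 t x hxN t0
      by_cases hz4 : z = P4
      · rw [hz4]; exact hne4 t x hxN t1
      have e1 : orient P4 P0 z ≤ 0 := by
        by_contra h5
        exact hzN ((memN z).2 ⟨hz, not_le.1 h5⟩)
      have e2 : 0 < D t z := by
        simp only [hD]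
        have := mul_pos (sub_pos.2 t1) (h0 z hz hz0)
        have := mul_pos t0 (h4 z hz hz4)
        linarith
      have e3 := mul_pos ((memN x).1 hxN).2 e2
      have e4 := mul_nonpos_of_nonpos_of_nonneg e1 (Dpos t ht x hxN).le
      simp only [hΦ]; linarith
  have Φo : Φ o ≠ 0 := by
    intro h5
    have k1 := aΦ.bary x y o P0
    rw [Φx, Φy, h5, zero_mul, zero_mul, zero_mul, add_zero, add_zero] at k1
    rcases mul_eq_zero.1 k1 with h6 | h6
    · exact (hne0 t x hxN t0).ne h6
    · exact gen x hxX y hyX hxy h6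
  -- turn the line a little
  set Θ : Pt → ℝ := fun u => (y.1 - x.1) * (u.1 - x.1) + (y.2 - x.2) * (u.2 - x.2) -
    ((y.1 - x.1) ^ 2 + (y.2 - x.2) ^ 2) / 2 with hΘ
  have aΘ : Aff Θ := ⟨y.1 - x.1, y.2 - x.2, -(y.1 - x.1) * x.1 - (y.2 - x.2) * x.2 -
    ((y.1 - x.1) ^ 2 + (y.2 - x.2) ^ 2) / 2, fun z => by simp only [hΘ]; ring⟩
  have dxy : 0 < (y.1 - x.1) ^ 2 + (y.2 - x.2) ^ 2 := by
    by_contra h5
    rw [not_lt] at h5
    have h6 : (y.1 - x.1) ^ 2 = 0 := by nlinarith [sq_nonneg (y.1 - x.1), sq_nonneg (y.2 - x.2)]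
    have h7 : (y.2 - x.2) ^ 2 = 0 := by nlinarith [sq_nonneg (y.1 - x.1), sq_nonneg (y.2 - x.2)]
    have h8 := pow_eq_zero_iff (two_ne_zero) |>.1 h6
    have h9 := pow_eq_zero_iff (two_ne_zero) |>.1 h7
    exact hxy (Prod.ext (by linarith) (by linarith))
  have Θx : Θ x < 0 := by simp only [hΘ]; nlinarith
  have Θy : 0 < Θ y := by simp only [hΘ]; nlinarith
  have tnd : ∀ u, Tendsto (fun ε : ℝ => Φ u + ε * Θ u) (𝓝[>] 0) (𝓝 (Φ u)) := by
    intro u
    have hc : Continuous (fun ε : ℝ => Φ u + ε * Θ u) := by fun_prop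
    have h5 := (hc.tendsto 0).mono_left (nhdsWithin_le_nhds (s := Set.Ioi (0 : ℝ)))
    simpa using h5
  have ev1 : ∀ᶠ ε : ℝ in 𝓝[>] 0, ∀ z ∈ X, 0 < Φ z → 0 < Φ z + ε * Θ z := by
    apply (Filter.eventually_all_finset X).2
    intro z _
    by_cases h5 : 0 < Φ z
    · filter_upwards [(tnd z).eventually (lt_mem_nhds h5)] with ε h6 _ using h6
    · exact Filter.Eventually.of_forall (fun _ h6 => absurd h6 h5)
  have ev2 : ∀ᶠ ε : ℝ in 𝓝[>] 0, ∀ z ∈ X, Φ z < 0 → Φ z + ε * Θ z < 0 := by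
    apply (Filter.eventually_all_finset X).2
    intro z _
    by_cases h5 : Φ z < 0
    · filter_upwards [(tnd z).eventually (gt_mem_nhds h5)] with ε h6 _ using h6
    · exact Filter.Eventually.of_forall (fun _ h6 => absurd h6 h5)
  have ev3 : ∀ᶠ ε : ℝ in 𝓝[>] 0, Φ o + ε * Θ o ≠ 0 :=
    (tnd o).eventually (isOpen_ne.mem_nhds Φo)
  have ev4 : ∀ᶠ ε : ℝ in 𝓝[>] 0, 0 < ε := self_mem_nhdsWithin
  obtain ⟨ε, ⟨e1, e2⟩, e3, e4⟩ := ((ev1.and ev2).and (ev3.and ev4)).exists
  refine ⟨fun u => Φ u + ε * Θ u, insert y A, aΦ.add (aΘ.smul ε), ?_, ?_, ?_, ?_, ?_, e3, ?_, ?_, ?_⟩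
  · exact Finset.insert_subset hyX AX
  · rw [Finset.card_insert_of_notMem hyA, cA]
  · rw [Finset.insert_inter_of_notMem hyR, cAR]
  · intro z hz
    rcases Finset.mem_insert.1 hz with rfl | hz
    · show 0 < Φ z + ε * Θ z
      rw [Φy, zero_add]; exact mul_pos e4 Θy
    · exact e1 z (AX z hz) (ΦA z hz)
  · intro z hz hzT
    rw [Finset.mem_insert, not_or] at hzT
    by_cases hzx : z = x
    · show Φ z + ε * Θ z < 0
      rw [hzx, Φx, zero_add]; exact mul_neg_of_pos_of_neg e4 Θx
    · exact e2 z hz (Φn z hz hzT.2 hzx hzT.1)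
  · intro h5
    rcases Finset.mem_insert.1 h5 with h6 | h6
    · exact nN0 y hyN h6.symm
    · exact nN0 _ (hAN h6) rfl
  · intro h5
    rcases Finset.mem_insert.1 h5 with h6 | h6
    · exact nN4 y hyN h6.symm
    · exact nN4 _ (hAN h6) rfl
  · intro z hz
    have hzN : z ∈ N := by
      rcases Finset.mem_insert.1 hz with rfl | hz
      · exact hyN
      · exact hAN hz
    have h5 := ((memN z).1 hzN).2
    rw [orient_swap] at h5
    linarith

/-- The crossing point of a segment with a line through a vertex. -/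
lemma beyond {P o Q u v : Pt} {τ : Pt → ℝ} (aτ : Aff τ) (hc : orient P o Q ≠ 0)
    (hF : orient P o u * orient P o v < 0) (τP : τ P = 0) (τo : 0 < τ o) (τu : 0 < τ u)
    (τv : 0 < τ v) :
    ∃ (g : Pt) (μ s : ℝ), g = (1 - μ) • P + μ • o ∧ g = (1 - s) • u + s • v ∧ 0 < μ ∧ 0 < s ∧
      s < 1 := by
  have hd : orient P o u - orient P o v ≠ 0 := by
    intro h
    have : orient P o u = orient P o v := by linarith
    rw [this] at hF
    nlinarith [mul_self_nonneg (orient P o v)]
  set s := orient P o u / (orient P o u - orient P o v) with hs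
  have hs' : s * (orient P o u - orient P o v) = orient P o u := div_mul_cancel₀ _ hd
  have hd2 : 0 < (orient P o u - orient P o v) ^ 2 := by positivity
  have s0 : 0 < s := by
    have : 0 < s * (orient P o u - orient P o v) ^ 2 := by
      have e : s * (orient P o u - orient P o v) ^ 2 =
          orient P o u ^ 2 - orient P o u * orient P o v := by
        rw [pow_two (orient P o u - orient P o v), ← mul_assoc, hs']; ring
      rw [e]
      nlinarith [sq_nonneg (orient P o u)]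
    exact (pos_iff_pos_of_mul_pos this).2 hd2
  have s1 : s < 1 := by
    have : 0 < (1 - s) * (orient P o u - orient P o v) ^ 2 := by
      have e : (1 - s) * (orient P o u - orient P o v) ^ 2 =
          orient P o v ^ 2 - orient P o u * orient P o v := by
        have : (1 - s) * (orient P o u - orient P o v) ^ 2 =
          (orient P o u - orient P o v) ^ 2 -
            s * (orient P o u - orient P o v) * (orient P o u - orient P o v) := by ring
        rw [this, hs']; ring
      rw [e]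
      nlinarith [sq_nonneg (orient P o v)]
    have := (pos_iff_pos_of_mul_pos this).2 hd2
    linarith
  set g : Pt := (1 - s) • u + s • v with hg
  have Fg : orient P o g = 0 := by
    rw [hg, orient_comb3]
    linarith
  have b : ∀ {F : Pt → ℝ}, Aff F → F g * orient P o Q =
      F P * (orient P o Q - orient P g Q) + F o * orient P g Q := by
    intro F hF'
    have k1 := hF'.bary P o Q g
    have k2 : orient g o Q = orient P o Q - orient P g Q - orient P o g := by
      unfold orient; ring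
    rw [k2, Fg] at k1
    rw [k1]; ring
  set μ := orient P g Q / orient P o Q with hμ
  have hμ' : orient P g Q = μ * orient P o Q := (div_mul_cancel₀ _ hc).symm
  have b' : ∀ {F : Pt → ℝ}, Aff F → F g = (1 - μ) * F P + μ * F o := by
    intro F hF'
    have := b hF'
    rw [hμ'] at this
    apply mul_right_cancel₀ hc
    rw [this]; ring
  have μ0 : 0 < μ := by
    have k1 := b' aτ
    have k2 : 0 < τ g := by
      rw [hg, aτ.comb]
      have := mul_pos (sub_pos.2 s1) τu
      have := mul_pos s0 τv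
      linarith
    rw [k1, τP, mul_zero, zero_add] at k2
    exact (pos_iff_pos_of_mul_pos k2).2 τo
  refine ⟨g, μ, s, ?_, rfl, μ0, s0, s1⟩
  ext
  · have := b' (F := fun z => z.1) ⟨1, 0, 0, fun z => by ring⟩
    simp only [Prod.fst_add, Prod.smul_fst, smul_eq_mul]
    exact this
  · have := b' (F := fun z => z.2) ⟨0, 1, 0, fun z => by ring⟩
    simp only [Prod.snd_add, Prod.smul_snd, smul_eq_mul]
    exact this

open scoped Classical in
/-- The line of `q1`, `q2` and the two lines of a two line patch: common facts. -/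
structure TopLine (X : Finset Pt) (P0 P4 o q1 q2 : Pt) (R T : Finset Pt) (n k : ℕ) : Prop where
  n1 : q1 ∉ insert o X
  n2 : q2 ∉ insert q1 (insert o X)
  gen1 : ∀ x ∈ insert o X, ∀ y ∈ insert o X, x ≠ y → orient x y q1 ≠ 0
  gen2 : ∀ x ∈ insert q1 (insert o X), ∀ y ∈ insert q1 (insert o X), x ≠ y → orient x y q2 ≠ 0
  gp : GeneralPosition (insert q2 (insert q1 (insert o X)))
  TX : T ⊆ X
  cT : T.card = n + 1
  cTR : (T ∩ R).card = k
  T0 : P0 ∉ T
  T4 : P4 ∉ T
  Tn : ∀ z ∈ T, orient P0 P4 z < 0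
  s1 : ∀ z ∈ X, z ≠ P0 → 0 < orient P0 q1 z * orient P0 o z
  s2 : ∀ z ∈ X, z ≠ P4 → 0 < orient q2 P4 z * orient o P4 z
  c1 : 0 < orient P0 q1 P4
  c2 : 0 < orient P0 q2 P4

/-- Case `NR`: the corner `o` is beyond the line. -/
structure TopNR (X : Finset Pt) (P0 P4 o q1 q2 : Pt) (T : Finset Pt) : Prop where
  memT : ∀ z ∈ X, z ∈ T ↔ orient q1 q2 z < 0
  t1 : orient q1 q2 o < 0
  t2 : 0 < orient q1 q2 P0
  t3 : 0 < orient q1 q2 P4
  t4 : 0 < orient P0 o q2
  t5 : 0 < orient q1 o P4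
  t6 : 0 < orient q1 o q2
  t7 : 0 < orient P0 q1 q2
  s3 : ∀ z ∈ X, z ≠ P0 → 0 < orient q1 o z * orient P0 o z
  s4 : ∀ z ∈ X, z ≠ P4 → 0 < orient o q2 z * orient o P4 z

/-- Case `RV`: the corner `o` is not beyond the line. -/
structure TopRV (X : Finset Pt) (P0 P4 o q1 q2 : Pt) (R L T : Finset Pt) : Prop where
  memT : ∀ z ∈ X, z ∈ T ↔ orient q2 q1 z < 0
  sub : T ⊆ R ∪ L
  t1 : 0 < orient q2 q1 o
  t2 : 0 < orient q2 q1 P0
  t3 : 0 < orient q2 q1 P4
  t4 : orient P0 o q2 < 0
  t5 : orient o P4 q1 < 0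
  t6 : 0 < orient o q1 P4
  s3 : ∀ z ∈ X, z ≠ P0 → 0 < orient o q1 z * orient P0 o z
  s4 : ∀ z ∈ X, z ≠ P4 → 0 < orient q2 o z * orient o P4 z

lemma qpoint {X : Finset Pt} {P o Q : Pt} {τ Ψ : Pt → ℝ} (aΨ : Aff Ψ) (aτ : Aff τ)
    (hc : orient P o Q ≠ 0) (ΨP : Ψ P < 0) (Ψo : Ψ o ≠ 0) (τP : τ P = 0) (τo : 0 < τ o)
    (τX : ∀ z ∈ X, z ≠ P → 0 < τ z)
    (huv : Ψ o < 0 → ∃ u ∈ X, ∃ v ∈ X, 0 < Ψ u ∧ 0 < Ψ v ∧ orient P o u * orient P o v < 0) :
    ∃ l : ℝ, 0 < l ∧ 0 < Ψ o * (1 - l) ∧ Ψ ((1 - l) • P + l • o) = 0 ∧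
      ∀ E : Pt → ℝ, Aff E → (∀ z ∈ X, 0 ≤ E z) → 0 ≤ E P → 0 < E o →
        0 < E ((1 - l) • P + l • o) := by
  rcases lt_or_gt_of_ne Ψo with h | h
  · obtain ⟨u, hu, v, hv, Ψu, Ψv, huv'⟩ := huv h
    have uP : u ≠ P := by rintro rfl; linarith
    have vP : v ≠ P := by rintro rfl; linarith
    obtain ⟨g, μ, s, g1, g2, μ0, s0, s1⟩ := beyond aτ hc huv' τP τo (τX u hu uP) (τX v hv vP)
    have k1 : 0 < (1 - μ) * Ψ P + μ * Ψ o := by
      rw [← aΨ.comb, ← g1, g2, aΨ.comb]
      have := mul_pos (sub_pos.2 s1) Ψu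
      have := mul_pos s0 Ψv
      linarith
    have k2 : 0 < μ * (Ψ o - Ψ P) := by linarith
    have k3 : 0 < Ψ o - Ψ P := (pos_iff_pos_of_mul_pos k2).1 μ0
    set l := -Ψ P / (Ψ o - Ψ P) with hl
    have hl' : l * (Ψ o - Ψ P) = -Ψ P := div_mul_cancel₀ _ k3.ne'
    have l1 : 1 < l := by rw [hl, lt_div_iff₀ k3]; linarith
    have lμ : l < μ := by rw [hl, div_lt_iff₀ k3]; linarith
    refine ⟨l, by linarith, mul_pos_of_neg_of_neg h (by linarith), ?_, ?_⟩
    · rw [aΨ.comb]; linarith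
    · intro E aE hE EP Eo
      rw [aE.comb]
      have e1 : 0 ≤ (1 - μ) * E P + μ * E o := by
        rw [← aE.comb, ← g1, g2, aE.comb]
        have := mul_nonneg (sub_pos.2 s1).le (hE u hu)
        have := mul_nonneg s0.le (hE v hv)
        linarith
      have e2 : (μ - 1) * ((1 - l) * E P + l * E o) =
          (l - 1) * ((1 - μ) * E P + μ * E o) + (μ - l) * E o := by ring
      have e3 : 0 < (μ - 1) * ((1 - l) * E P + l * E o) := by
        rw [e2]
        have := mul_nonneg (sub_pos.2 l1).le e1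
        have := mul_pos (sub_pos.2 lμ) Eo
        linarith
      exact (pos_iff_pos_of_mul_pos e3).1 (by linarith)
  · have k3 : 0 < Ψ o - Ψ P := by linarith
    set l := -Ψ P / (Ψ o - Ψ P) with hl
    have hl' : l * (Ψ o - Ψ P) = -Ψ P := div_mul_cancel₀ _ k3.ne'
    have l0 : 0 < l := div_pos (by linarith) k3
    have l1 : l < 1 := by rw [hl, div_lt_one k3]; linarith
    refine ⟨l, l0, mul_pos h (by linarith), ?_, ?_⟩
    · rw [aΨ.comb]; linarith
    · intro E aE hE EP Eo
      rw [aE.comb]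
      have := mul_nonneg (sub_pos.2 l1).le EP
      have := mul_pos l0 Eo
      linarith

lemma orient_cross (x y o : Pt) (s t : ℝ) :
    orient ((1 - s) • x + s • o) ((1 - t) • y + t • o) o = (1 - s) * (1 - t) * orient x y o := by
  unfold orient
  simp only [Prod.fst_add, Prod.smul_fst, Prod.snd_add, Prod.smul_snd, smul_eq_mul]
  ring

theorem top_line {X : Finset Pt} (gp : GeneralPosition X) {ι : Type} [Finite ι] {e f : ι → Pt}
    (hE : ∀ j, ∀ z ∈ X, 0 ≤ orient (e j) (f j) z)
    (hE2 : ∀ j, ∀ z ∈ X, orient (e j) (f j) z = 0 → z = e j ∨ z = f j)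
    {P0 P4 o : Pt} {τ0 τ4 : Pt → ℝ}
    (a0 : Aff τ0) (a4 : Aff τ4) (z0 : τ0 P0 = 0) (z4 : τ4 P4 = 0)
    (h0 : ∀ z ∈ X, z ≠ P0 → 0 < τ0 z) (h4 : ∀ z ∈ X, z ≠ P4 → 0 < τ4 z)
    (m0 : P0 ∈ X) (m4 : P4 ∈ X) (hne : P0 ≠ P4)
    (gen : ∀ x ∈ X, ∀ y ∈ X, x ≠ y → orient x y o ≠ 0) (ho : 0 < orient P0 o P4)
    {R L : Finset Pt}
    (hR : ∀ z, z ∈ R ↔ z ∈ X ∧ orient P0 o z < 0) (hL : ∀ z, z ∈ L ↔ z ∈ X ∧ orient o P4 z < 0)
    {n k : ℕ} (cR : R.card = n) (cL : L.card = n) (hk1 : k < n) (hk2 : (R ∩ L).card + 1 ≤ k)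
    (hRL : (R ∩ L).Nonempty) :
    ∃ q1 q2 T, TopLine X P0 P4 o q1 q2 R T n k ∧
      (∀ j, 0 < orient (e j) (f j) o ∧ 0 < orient (e j) (f j) q1 ∧ 0 < orient (e j) (f j) q2) ∧
      (TopNR X P0 P4 o q1 q2 T ∨ TopRV X P0 P4 o q1 q2 R L T) := by
  classical
  -- `o` is inside the triangle `P0 w P4`
  obtain ⟨w, hw⟩ := hRL
  obtain ⟨hwR, hwL⟩ := Finset.mem_inter.1 hw
  obtain ⟨hwX, w1⟩ := (hR w).1 hwR
  obtain ⟨-, w2⟩ := (hL w).1 hwL
  have w1' : 0 < orient P0 w o := by rw [orient_swap']; linarith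
  have w2' : 0 < orient o w P4 := by rw [orient_swap']; linarith
  have w3 : 0 < orient P0 w P4 := by
    have : orient P0 w P4 = orient P0 w o + orient o w P4 + orient P0 o P4 := by
      unfold orient; ring
    rw [this]; linarith
  have inside : ∀ {F : Pt → ℝ}, Aff F → F o * orient P0 w P4 =
      F P0 * orient o w P4 + F w * orient P0 o P4 + F P4 * orient P0 w o :=
    fun hF => hF.bary P0 w P4 o
  have wP0 : w ≠ P0 := by rintro rfl; simp at w1
  have wP4 : w ≠ P4 := by rintro rfl; simp at w2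
  have ho0 : 0 < τ0 o := by
    have k1 := inside a0
    rw [z0, zero_mul, zero_add] at k1
    have : 0 < τ0 o * orient P0 w P4 := by
      rw [k1]
      exact add_pos (mul_pos (h0 w hwX wP0) ho) (mul_pos (h0 P4 m4 hne.symm) w1')
    exact (pos_iff_pos_of_mul_pos this).2 w3
  have ho4 : 0 < τ4 o := by
    have k1 := inside a4
    rw [z4, zero_mul, add_zero] at k1
    have : 0 < τ4 o * orient P0 w P4 := by
      rw [k1]
      exact add_pos (mul_pos (h4 P0 m0 hne) w2') (mul_pos (h4 w hwX wP4) ho)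
    exact (pos_iff_pos_of_mul_pos this).2 w3
  have Eo : ∀ j, 0 < orient (e j) (f j) o := by
    intro j
    have k1 := inside (aff_orient (e j) (f j))
    have e0 := hE j P0 m0
    have e1 := hE j w hwX
    have e4 := hE j P4 m4
    have k2 : 0 < orient (e j) (f j) o * orient P0 w P4 := by
      rw [k1]
      rcases e0.lt_or_eq with h | h
      · have := mul_pos h w2'
        have := mul_nonneg e1 ho.le
        have := mul_nonneg e4 w1'.le
        linarith
      rcases e1.lt_or_eq with h' | h'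
      · have := mul_nonneg e0 w2'.le
        have := mul_pos h' ho
        have := mul_nonneg e4 w1'.le
        linarith
      rcases e4.lt_or_eq with h'' | h''
      · have := mul_nonneg e0 w2'.le
        have := mul_nonneg e1 ho.le
        have := mul_pos h'' w1'
        linarith
      exfalso
      have b0 := hE2 j P0 m0 h.symm
      have b1 := hE2 j w hwX h'.symm
      have b4 := hE2 j P4 m4 h''.symm
      rcases b0 with b0 | b0 <;> rcases b1 with b1 | b1 <;> rcases b4 with b4 | b4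
      · exact hne (b0.trans b4.symm)
      · exact wP0 (b1.trans b0.symm)
      · exact hne (b0.trans b4.symm)
      · exact wP4 (b1.trans b4.symm)
      · exact wP4 (b1.trans b4.symm)
      · exact hne (b0.trans b4.symm)
      · exact wP0 (b1.trans b0.symm)
      · exact hne (b0.trans b4.symm)
    exact (pos_iff_pos_of_mul_pos k2).2 w3
  obtain ⟨Ψ, T, aΨ, TX, cT, cTR, ΨT, Ψn, Ψo, T0, T4, Tn⟩ := line_exists gp a0 a4 z0 z4 h0 h4 m0 m4
    hne gen ho ho0 ho4 hR hL cR cL hk1 hk2
  have ΨP0 : Ψ P0 < 0 := Ψn P0 m0 T0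
  have ΨP4 : Ψ P4 < 0 := Ψn P4 m4 T4
  have hX2 : 1 < X.card := Finset.one_lt_card.2 ⟨P0, m0, P4, m4, hne⟩
  have oX : o ∉ X := gen_notMem gen hX2
  -- in the second case `T` is contained in `R ∪ L`
  have hsub : Ψ o < 0 → T ⊆ R ∪ L := by
    intro h z hz
    by_contra hcon
    rw [Finset.mem_union, not_or] at hcon
    have hzX := TX hz
    have r1 : 0 ≤ orient P0 o z := by
      by_contra h5
      exact hcon.1 ((hR z).2 ⟨hzX, not_le.1 h5⟩)
    have r2 : 0 ≤ orient o P4 z := by
      by_contra h5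
      exact hcon.2 ((hL z).2 ⟨hzX, not_le.1 h5⟩)
    have k1 := aΨ.bary P0 P4 o z
    have k2 : orient P0 P4 o = -orient P0 o P4 := orient_swap' _ _ _
    have k3 : orient z P4 o = -orient o P4 z := by unfold orient; ring
    have k4 : orient P0 z o = -orient P0 o z := orient_swap' _ _ _
    rw [k2, k3, k4] at k1
    have k5 := mul_pos (ΨT z hz) ho
    have k6 := mul_nonneg (neg_pos.2 ΨP0).le r2
    have k7 := mul_nonneg (neg_pos.2 ΨP4).le r1
    have k8 := mul_pos_of_neg_of_neg h (Tn z hz)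
    linarith
  have huv : Ψ o < 0 → ∃ u v, u ∈ T ∧ v ∈ T ∧ orient P0 o u < 0 ∧ 0 < orient P0 o v ∧
      0 < orient o P4 u ∧ orient o P4 v < 0 := by
    intro h
    have gu : ∃ u ∈ T ∩ R, u ∉ L := by
      by_contra hcon
      push Not at hcon
      have : T ∩ R ⊆ R ∩ L := fun u hu =>
        Finset.mem_inter.2 ⟨(Finset.mem_inter.1 hu).2, hcon u hu⟩
      have := Finset.card_le_card this
      omega
    have gv : ∃ v ∈ T, v ∉ R := by
      by_contra hcon
      push Not at hcon
      have : T ∩ R = T := Finset.inter_eq_left.2 hcon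
      rw [this] at cTR
      omega
    obtain ⟨u, hu, huL⟩ := gu
    obtain ⟨v, hv, hvR⟩ := gv
    obtain ⟨huT, huR⟩ := Finset.mem_inter.1 hu
    have hvL : v ∈ L := (Finset.mem_union.1 (hsub h hv)).resolve_left hvR
    have hv0 : v ≠ P0 := by rintro rfl; exact T0 hv
    have hu4 : u ≠ P4 := by rintro rfl; exact T4 huT
    refine ⟨u, v, huT, hv, ((hR u).1 huR).2, ?_, ?_, ((hL v).1 hvL).2⟩
    · have h5 : orient P0 o v ≠ 0 := by
        rw [orient_swap']
        exact neg_ne_zero.2 (gen P0 m0 v (TX hv) hv0.symm)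
      rcases lt_or_gt_of_ne h5 with h6 | h6
      · exact absurd ((hR v).2 ⟨TX hv, h6⟩) hvR
      · exact h6
    · have h5 : orient o P4 u ≠ 0 := by
        rw [← orient_cyc]
        exact gen P4 m4 u (TX huT) hu4.symm
      rcases lt_or_gt_of_ne h5 with h6 | h6
      · exact absurd ((hL u).2 ⟨TX huT, h6⟩) huL
      · exact h6
  obtain ⟨l1, l10, l11, Ψq1, Eq1⟩ := qpoint (X := X) (Q := P4) aΨ a0 ho.ne' ΨP0 Ψo z0 ho0 h0
    (by
      intro h
      obtain ⟨u, v, hu, hv, u1, v1, -, -⟩ := huv h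
      exact ⟨u, TX hu, v, TX hv, ΨT u hu, ΨT v hv, mul_neg_of_neg_of_pos u1 v1⟩)
  obtain ⟨l2, l20, l21, Ψq2, Eq2⟩ := qpoint (X := X) (P := P4) (Q := P0) aΨ a4
    (by rw [show orient P4 o P0 = -orient P0 o P4 by unfold orient; ring]; exact (neg_neg_of_pos ho).ne)
    ΨP4 Ψo z4 ho4 h4
    (by
      intro h
      obtain ⟨u, v, hu, hv, -, -, u2, v2⟩ := huv h
      refine ⟨u, TX hu, v, TX hv, ΨT u hu, ΨT v hv, ?_⟩
      rw [orient_swap o P4 u, orient_swap o P4 v, neg_mul_neg]
      exact mul_neg_of_pos_of_neg u2 v2)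
  set x1 : Pt := (1 - l1) • P0 + l1 • o with hx1
  set x2 : Pt := (1 - l2) • P4 + l2 • o with hx2
  have ll : 0 < (1 - l1) * (1 - l2) := by
    have h5 : 0 < Ψ o ^ 2 * ((1 - l1) * (1 - l2)) := by
      have := mul_pos l11 l21
      have e : Ψ o ^ 2 * ((1 - l1) * (1 - l2)) = Ψ o * (1 - l1) * (Ψ o * (1 - l2)) := by ring
      rw [e]; exact this
    exact (pos_iff_pos_of_mul_pos h5).1 (by positivity)
  have Ψne : ∀ z ∈ X, Ψ z ≠ 0 := by
    intro z hz
    by_cases hzT : z ∈ T
    · exact (ΨT z hzT).ne'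
    · exact (Ψn z hz hzT).ne
  have g0 : ∀ z ∈ X, z ≠ P0 → 0 < orient P0 o z * orient P0 o z := by
    intro z hz hz0
    apply mul_self_pos.2
    rw [orient_swap']
    exact neg_ne_zero.2 (gen P0 m0 z hz hz0.symm)
  have g4 : ∀ z ∈ X, z ≠ P4 → 0 < orient o P4 z * orient o P4 z := by
    intro z hz hz4
    apply mul_self_pos.2
    rw [← orient_cyc]
    exact gen P4 m4 z hz hz4.symm
  have cr : orient x1 x2 o < 0 := by
    rw [hx1, hx2, orient_cross, orient_swap' P0 o P4]
    have := mul_pos ll ho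
    linarith
  have S1 : ∀ᶠ q : Pt × Pt in 𝓝 (x1, x2), ∀ z ∈ X, z ≠ P0 →
      0 < orient P0 q.1 z * orient P0 o z := by
    refine ev_all (F := fun z q => orient P0 q.1 z * orient P0 o z)
      (fun z => by unfold orient; fun_prop) ?_
    intro z hz hz0
    show 0 < orient P0 x1 z * orient P0 o z
    rw [hx1, orient_comb2, orient_self, mul_zero, zero_add, mul_assoc]
    exact mul_pos l10 (g0 z hz hz0)
  have S2 : ∀ᶠ q : Pt × Pt in 𝓝 (x1, x2), ∀ z ∈ X, z ≠ P4 →
      0 < orient q.2 P4 z * orient o P4 z := by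
    refine ev_all (F := fun z q => orient q.2 P4 z * orient o P4 z)
      (fun z => by unfold orient; fun_prop) ?_
    intro z hz hz4
    show 0 < orient x2 P4 z * orient o P4 z
    rw [hx2, orient_comb1, orient_self, mul_zero, zero_add, mul_assoc]
    exact mul_pos l20 (g4 z hz hz4)
  have S3 : ∀ᶠ q : Pt × Pt in 𝓝 (x1, x2), ∀ z ∈ X, z ≠ P0 →
      0 < Ψ o * (orient q.1 o z * orient P0 o z) := by
    refine ev_all (F := fun z q => Ψ o * (orient q.1 o z * orient P0 o z))
      (fun z => by unfold orient; fun_prop) ?_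
    intro z hz hz0
    show 0 < Ψ o * (orient x1 o z * orient P0 o z)
    rw [hx1, orient_comb1, orient_self, mul_zero, add_zero]
    have := mul_pos l11 (g0 z hz hz0)
    have e : Ψ o * ((1 - l1) * orient P0 o z * orient P0 o z) =
      Ψ o * (1 - l1) * (orient P0 o z * orient P0 o z) := by ring
    rw [e]; exact this
  have S4 : ∀ᶠ q : Pt × Pt in 𝓝 (x1, x2), ∀ z ∈ X, z ≠ P4 →
      0 < Ψ o * (orient o q.2 z * orient o P4 z) := by
    refine ev_all (F := fun z q => Ψ o * (orient o q.2 z * orient o P4 z))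
      (fun z => by unfold orient; fun_prop) ?_
    intro z hz hz4
    show 0 < Ψ o * (orient o x2 z * orient o P4 z)
    rw [hx2, orient_comb2, orient_self, mul_zero, add_zero]
    have := mul_pos l21 (g4 z hz hz4)
    have e : Ψ o * ((1 - l2) * orient o P4 z * orient o P4 z) =
      Ψ o * (1 - l2) * (orient o P4 z * orient o P4 z) := by ring
    rw [e]; exact this
  have M : ∀ᶠ q : Pt × Pt in 𝓝 (x1, x2), ∀ z ∈ X, True →
      0 < -(Ψ o * Ψ z) * orient q.1 q.2 z := by
    refine ev_all (P := fun _ => True) (F := fun z q => -(Ψ o * Ψ z) * orient q.1 q.2 z)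
      (fun z => by unfold orient; fun_prop) ?_
    intro z hz _
    show 0 < -(Ψ o * Ψ z) * orient x1 x2 z
    have k1 := aΨ.bary x1 x2 z o
    rw [Ψq1, Ψq2, zero_mul, zero_mul, zero_add, zero_add] at k1
    have e : -(Ψ o * Ψ z) * orient x1 x2 z = (Ψ z * Ψ z) * -orient x1 x2 o := by
      linear_combination -Ψ z * k1
    rw [e]
    exact mul_pos (mul_self_pos.2 (Ψne z hz)) (neg_pos.2 cr)
  have C1 : ∀ᶠ q : Pt × Pt in 𝓝 (x1, x2), 0 < orient P0 q.1 P4 := by
    refine ev (f := fun q => orient P0 q.1 P4) (by unfold orient; fun_prop) ?_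
    show 0 < orient P0 x1 P4
    rw [hx1, orient_comb2, orient_self, mul_zero, zero_add]
    exact mul_pos l10 ho
  have C2 : ∀ᶠ q : Pt × Pt in 𝓝 (x1, x2), 0 < orient P0 q.2 P4 := by
    refine ev (f := fun q => orient P0 q.2 P4) (by unfold orient; fun_prop) ?_
    show 0 < orient P0 x2 P4
    rw [hx2, orient_comb2, orient_right, mul_zero, zero_add]
    exact mul_pos l20 ho
  have T1 : ∀ᶠ q : Pt × Pt in 𝓝 (x1, x2), 0 < -orient q.1 q.2 o := by
    refine ev (f := fun q => -orient q.1 q.2 o) (by unfold orient; fun_prop) ?_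
    show 0 < -orient x1 x2 o
    linarith
  have T5 : ∀ᶠ q : Pt × Pt in 𝓝 (x1, x2), 0 < Ψ o * orient P0 o q.2 := by
    refine ev (f := fun q => Ψ o * orient P0 o q.2) (by unfold orient; fun_prop) ?_
    show 0 < Ψ o * orient P0 o x2
    rw [hx2, orient_comb3, orient_right, mul_zero, add_zero, ← mul_assoc]
    exact mul_pos l21 ho
  have T6 : ∀ᶠ q : Pt × Pt in 𝓝 (x1, x2), 0 < Ψ o * orient q.1 o P4 := by
    refine ev (f := fun q => Ψ o * orient q.1 o P4) (by unfold orient; fun_prop) ?_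
    show 0 < Ψ o * orient x1 o P4
    rw [hx1, orient_comb1, orient_self, mul_zero, add_zero, ← mul_assoc]
    exact mul_pos l11 ho
  have H1 : ∀ᶠ q : Pt × Pt in 𝓝 (x1, x2), ∀ j, 0 < orient (e j) (f j) q.1 :=
    Filter.eventually_all.2 fun j => ev (f := fun q => orient (e j) (f j) q.1)
      (by unfold orient; fun_prop) (Eq1 _ (aff_orient _ _) (hE j) (hE j _ m0) (Eo j))
  have H2 : ∀ᶠ q : Pt × Pt in 𝓝 (x1, x2), ∀ j, 0 < orient (e j) (f j) q.2 :=
    Filter.eventually_all.2 fun j => ev (f := fun q => orient (e j) (f j) q.2)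
      (by unfold orient; fun_prop) (Eq2 _ (aff_orient _ _) (hE j) (hE j _ m4) (Eo j))
  have hX3 : 1 < (insert o X).card := by
    rw [Finset.card_insert_of_notMem oX]; omega
  obtain ⟨q1, q2, ⟨⟨⟨⟨s1, s2⟩, ⟨s3, s4⟩⟩, ⟨⟨m, c1⟩, ⟨c2, t1⟩⟩⟩, ⟨⟨t5, t6⟩, ⟨h1', h2'⟩⟩⟩,
    n1, n2, ge1, ge2, ggp⟩ := gen2 (gp_insert gp gen) hX3
      ((((S1.and S2).and (S3.and S4)).and ((M.and C1).and (C2.and T1))).and
        ((T5.and T6).and (H1.and H2)))
  replace c1 : 0 < orient P0 q1 P4 := c1
  replace c2 : 0 < orient P0 q2 P4 := c2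
  replace t1 : 0 < -orient q1 q2 o := t1
  replace t5 : 0 < Ψ o * orient P0 o q2 := t5
  replace t6 : 0 < Ψ o * orient q1 o P4 := t6
  replace m : ∀ z ∈ X, 0 < -(Ψ o * Ψ z) * orient q1 q2 z := fun z hz => m z hz trivial
  replace s3 : ∀ z ∈ X, z ≠ P0 → 0 < Ψ o * (orient q1 o z * orient P0 o z) := s3
  replace s4 : ∀ z ∈ X, z ≠ P4 → 0 < Ψ o * (orient o q2 z * orient o P4 z) := s4
  refine ⟨q1, q2, T,
    { n1 := n1, n2 := n2, gen1 := ge1, gen2 := ge2, gp := ggp, TX := TX, cT := cT, cTR := cTR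
      T0 := T0, T4 := T4, Tn := Tn, s1 := s1, s2 := s2, c1 := c1, c2 := c2 },
    fun j => ⟨Eo j, h1' j, h2' j⟩, ?_⟩
  have msgn : ∀ z ∈ X, 0 < -(Ψ o * (Ψ z * orient q1 q2 z)) := by
    intro z hz
    have := m z hz
    have e : -(Ψ o * Ψ z) * orient q1 q2 z = -(Ψ o * (Ψ z * orient q1 q2 z)) := by ring
    rwa [e] at this
  rcases lt_or_gt_of_ne Ψo with h | h
  · right
    have mz : ∀ z ∈ X, 0 < Ψ z * orient q1 q2 z := by
      intro z hz
      have := msgn z hz
      by_contra h5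
      rw [not_lt] at h5
      have := mul_nonneg_of_nonpos_of_nonpos h.le h5
      linarith
    have memT : ∀ z ∈ X, z ∈ T ↔ orient q2 q1 z < 0 := by
      intro z hz
      have h5 := mz z hz
      rw [orient_swap q1 q2 z, neg_lt_zero]
      constructor
      · intro hzT
        exact (pos_iff_pos_of_mul_pos h5).1 (ΨT z hzT)
      · intro h6
        by_contra hzT
        have := Ψn z hz hzT
        have := (pos_iff_pos_of_mul_pos h5).2 h6
        linarith
    have neg_of : ∀ {x : ℝ}, 0 < Ψ o * x → x < 0 := by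
      intro x hx
      by_contra h5
      rw [not_lt] at h5
      have := mul_nonpos_of_nonpos_of_nonneg h.le h5
      linarith
    have far : ∀ z ∈ X, z ∉ T → 0 < orient q2 q1 z := by
      intro z hz hzT
      have h5 := mz z hz
      have h6 := Ψn z hz hzT
      rw [orient_swap q1 q2 z, neg_pos]
      by_contra h7
      rw [not_lt] at h7
      have := mul_nonpos_of_nonpos_of_nonneg h6.le h7
      linarith
    exact
      { memT := memT, sub := hsub h
        t1 := by rw [orient_swap q1 q2 o]; exact t1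
        t2 := far P0 m0 T0
        t3 := far P4 m4 T4
        t4 := neg_of t5
        t5 := by
          rw [show orient o P4 q1 = orient q1 o P4 by unfold orient; ring]
          exact neg_of t6
        t6 := by rw [orient_swap q1 o P4]; have := neg_of t6; linarith
        s3 := fun z hz hz0 => by
          have := neg_of (s3 z hz hz0)
          rw [orient_swap q1 o z, neg_mul]; linarith
        s4 := fun z hz hz4 => by
          have := neg_of (s4 z hz hz4)
          rw [orient_swap o q2 z, neg_mul]; linarith }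
  · left
    have pos_of' : ∀ {x : ℝ}, 0 < Ψ o * x → 0 < x := fun hx => (pos_iff_pos_of_mul_pos hx).1 h
    have mz : ∀ z ∈ X, Ψ z * orient q1 q2 z < 0 := by
      intro z hz
      have := msgn z hz
      by_contra h5
      rw [not_lt] at h5
      have := mul_nonneg h.le h5
      linarith
    have far : ∀ z ∈ X, z ∉ T → 0 < orient q1 q2 z := by
      intro z hz hzT
      have h5 := mz z hz
      have h6 := Ψn z hz hzT
      by_contra h7
      rw [not_lt] at h7
      have := mul_nonneg_of_nonpos_of_nonpos h6.le h7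
      linarith
    have memT : ∀ z ∈ X, z ∈ T ↔ orient q1 q2 z < 0 := by
      intro z hz
      have h5 := mz z hz
      constructor
      · intro hzT
        have h6 := ΨT z hzT
        by_contra h7
        rw [not_lt] at h7
        have := mul_nonneg h6.le h7
        linarith
      · intro h6
        by_contra hzT
        have := far z hz hzT
        linarith
    exact
      { memT := memT
        t1 := by linarith
        t2 := far P0 m0 T0
        t3 := far P4 m4 T4
        t4 := pos_of' t5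
        t5 := pos_of' t6
        t6 := by rw [orient_swap' q1 q2 o]; exact t1
        t7 := by rw [← orient_cyc P0 q1 q2]; exact far P0 m0 T0
        s3 := fun z hz hz0 => pos_of' (s3 z hz hz0)
        s4 := fun z hz hz4 => pos_of' (s4 z hz hz4) }

section three

variable {X : Finset Pt} {h : ℕ} {p a c : ZMod h → Pt}

/-- A functional which supports `X` exactly at `p i`. -/
lemma support (W : RingS0 X h p a c) (i : ZMod h) :
    ∃ τ : Pt → ℝ, Aff τ ∧ τ (p i) = 0 ∧ ∀ z ∈ X, z ≠ p i → 0 < τ z := by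
  refine ⟨fun z => orient (p (i - 1)) (p i) z + orient (p i) (p (i + 1)) z,
    (aff_orient _ _).add (aff_orient _ _), by simp, ?_⟩
  intro z hz hzi
  have e1 : 0 ≤ orient (p i) (p (i + 1)) z := hull_nonneg W i hz
  have e2 : 0 ≤ orient (p (i - 1)) (p i) z := by
    have := hull_nonneg W (i - 1) hz
    rwa [show i - 1 + 1 = i by ring] at this
  by_cases h1 : z = p (i + 1)
  · have h2 : z ≠ p (i - 1) := by
      intro h3
      have h4 := W.pinj (h1.symm.trans h3)
      have h5 := pne_gen W (i - 1) (j := 0) (k := 2) (by omega) (by have := W.hh; omega)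
      apply h5
      rw [Nat.cast_zero, add_zero]
      congr 1
      rw [← h4]
      push_cast
      have h6 : i + 1 - (i - 1) = 0 := by rw [h4]; ring
      have h7 : (2 : ZMod h) = 0 := by
        have : i + 1 - (i - 1) = 2 := by ring
        rw [← this]; exact h6
      rw [h7]
      have : i + 1 = i - 1 := h4
      rw [this]; ring
    have h3 : 0 < orient (p (i - 1)) (p i) z := by
      have := W.hull (i - 1) z hz h2 (by rw [show i - 1 + 1 = i by ring]; exact hzi)
      rwa [show i - 1 + 1 = i by ring] at this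
    show 0 < orient (p (i - 1)) (p i) z + orient (p i) (p (i + 1)) z
    linarith
  · have h3 := W.hull i z hz hzi h1
    show 0 < orient (p (i - 1)) (p i) z + orient (p i) (p (i + 1)) z
    linarith

/-- The line with exactly `n + 1` points beyond it in a two line patch. -/
theorem three_line (W : RingS0 X h p a c) {i j : ZMod h} (hij : i ≠ j) {o : Pt}
    (gen : ∀ x ∈ X, ∀ y ∈ X, x ≠ y → orient x y o ≠ 0) (ho : 0 < orient (p i) o (p j))
    {R L : Finset Pt}
    (hR : ∀ z, z ∈ R ↔ z ∈ X ∧ orient (p i) o z < 0)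
    (hL : ∀ z, z ∈ L ↔ z ∈ X ∧ orient o (p j) z < 0)
    {n k : ℕ} (cR : R.card = n) (cL : L.card = n) (hk1 : k < n) (hk2 : (R ∩ L).card + 1 ≤ k)
    (hRL : 0 < (R ∩ L).card) :
    ∃ q1 q2 T, TopLine X (p i) (p j) o q1 q2 R T n k ∧
      (∀ m, 0 < orient (p m) (p (m + 1)) o ∧ 0 < orient (p m) (p (m + 1)) q1 ∧
        0 < orient (p m) (p (m + 1)) q2) ∧
      (TopNR X (p i) (p j) o q1 q2 T ∨ TopRV X (p i) (p j) o q1 q2 R L T) := by
  have : NeZero h := ⟨by have := W.hh; omega⟩
  obtain ⟨τ0, a0, z0, h0⟩ := support W i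
  obtain ⟨τ4, a4, z4, h4⟩ := support W j
  exact top_line W.gp (e := p) (f := fun m => p (m + 1)) (fun m z hz => hull_nonneg W m hz)
    (fun m z hz hz0 => by
      by_contra hcon
      rw [not_or] at hcon
      exact (W.hull m z hz hcon.1 hcon.2).ne' hz0)
    a0 a4 z0 z4 h0 h4 (W.pX i) (W.pX j) (fun e => hij (W.pinj e)) gen ho hR hL cR cL hk1 hk2
    (Finset.card_pos.1 hRL)

end three

end Geo

end Pool.Agent.GCP
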