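import Pool.Agent.GCP.Corner2
import Pool.Agent.GCP.GeoTop
import Pool.Agent.GCP.UC0

/-!
# A corner and a third line, reversed case (MP_062f91_co)
-/

namespace Pool.Agent.GCP

namespace Geo

variable {X : Finset Pt} {h : ℕ} {p a c : ZMod h → Pt} {i : ZMod h} {N M : ℕ → Pt}
  {o q1 q2 : Pt} {R L T : Finset Pt}

/-- The labels of the patch `UDt.dRV`. -/
def Qv (N M : ℕ → Pt) (o q1 q2 : Pt) (j : ℕ) : Pt :=
  if j < 17 then Qn N M j else if j = 17 then o else if j = 18 then q1 else q2

lemma Qv_lt {j : ℕ} (hj : j < 17) : Qv N M o q1 q2 j = Qn N M j := by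
  unfold Qv
  rw [if_pos hj]

lemma Qv_17 : Qv N M o q1 q2 17 = o := by simp [Qv]
lemma Qv_18 : Qv N M o q1 q2 18 = q1 := by simp [Qv]
lemma Qv_19 : Qv N M o q1 q2 19 = q2 := by simp [Qv]

lemma corner_ne (W : RingS0 X h p a c) (hh : 7 ≤ h) (i : ZMod h) : p i ≠ p (i + 4) := by
  have i4 : i + ((4 : ℕ) : ZMod h) = i + 4 := by norm_num
  have := pne_gen W i (j := 0) (k := 4) (by omega) (by omega)
  rw [Nat.cast_zero, add_zero, i4] at this
  exact this

lemma corner_o_notMem (W : RingS0 X h p a c) (hh : 7 ≤ h)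
    (gen : ∀ x ∈ X, ∀ y ∈ X, x ≠ y → orient x y o ≠ 0) : o ∉ X := by
  intro ho
  have hne := corner_ne W hh 0
  by_cases h1 : o = p 0
  · have := gen (p 0) (W.pX 0) (p (0 + 4)) (W.pX _) hne
    rw [h1] at this
    apply this
    unfold orient
    ring
  · have := gen (p 0) (W.pX 0) o ho (Ne.symm h1)
    apply this
    unfold orient
    ring

theorem corQ_RV (W : RingS0 X h p a c) (hh : 7 ≤ h) (hN : Nam X p a c i N)
    (hM : NamR X p a c i M) (h11 : 11 ≤ nr X (p i) (p (i + 4)))
    (gen : ∀ x ∈ X, ∀ y ∈ X, x ≠ y → orient x y o ≠ 0)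
    (TL : TopLine X (p i) (p (i + 4)) o q1 q2 R T 11 9)
    (hin : ∀ m, 0 < orient (p m) (p (m + 1)) o ∧ 0 < orient (p m) (p (m + 1)) q1 ∧
        0 < orient (p m) (p (m + 1)) q2) :
    CorQ X p a c i N M (Qv N M o q1 q2) (List.range 17) 20 := by
  have on : o ∉ X := corner_o_notMem W hh gen
  have q1n : q1 ∉ X := fun hq => TL.n1 (Finset.mem_insert_of_mem hq)
  have q2n : q2 ∉ X := fun hq => TL.n2 (Finset.mem_insert_of_mem (Finset.mem_insert_of_mem hq))
  have q1o : q1 ≠ o := by
    rintro rfl
    exact TL.n1 (Finset.mem_insert_self _ _)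
  have q12 : q2 ≠ q1 := by
    rintro rfl
    exact TL.n2 (Finset.mem_insert_self _ _)
  have q2o : q2 ≠ o := by
    rintro rfl
    exact TL.n2 (Finset.mem_insert_of_mem (Finset.mem_insert_self _ _))
  have real : ∀ j < 17, Qv N M o q1 q2 j ∈ X := by
    intro j hj
    rw [Qv_lt hj]
    exact Qn_mem hN hM (by omega)
  have virt : ∀ j, 17 ≤ j → Qv N M o q1 q2 j ∉ X := by
    intro j hj
    unfold Qv
    rw [if_neg (by omega)]
    split_ifs
    · exact on
    · exact q1n
    · exact q2n
  exact
    { Q16 := fun j hj => Qv_lt (by omega)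
      rl16 := fun j hj => List.mem_range.2 (by omega)
      rln := fun j hj => by
        have := List.mem_range.1 hj
        omega
      real := fun j hj => real j (List.mem_range.1 hj)
      inj := by
        intro j k hj hk hjk he
        rcases Nat.lt_or_ge j 17 with h1 | h1 <;> rcases Nat.lt_or_ge k 17 with h2 | h2
        · rw [Qv_lt h1, Qv_lt h2] at he
          exact hjk (Qn_inj hN hM h11 (by omega) (by omega) he)
        · exact virt k h2 (he ▸ real j h1)
        · exact virt j h1 (he.symm ▸ real k h2)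
        · have hj' : j = 17 ∨ j = 18 ∨ j = 19 := by omega
          have hk' : k = 17 ∨ k = 18 ∨ k = 19 := by omega
          rcases hj' with rfl | rfl | rfl <;> rcases hk' with rfl | rfl | rfl <;>
            simp only [Qv_17, Qv_18, Qv_19] at he
          · exact hjk rfl
          · exact q1o he.symm
          · exact q2o he.symm
          · exact q1o he
          · exact hjk rfl
          · exact q12 he.symm
          · exact q2o he
          · exact q12 he
          · exact hjk rfl
      near := by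
        intro j hj h0 h16
        have := List.mem_range.1 hj
        rw [Qv_lt this]
        exact Qn_near W hN hM hh h11 (by omega) (by omega)
      hullv := by
        intro j hj hr m
        have h17 : ¬ j < 17 := fun h => hr (List.mem_range.2 h)
        have hj' : j = 17 ∨ j = 18 ∨ j = 19 := by omega
        rcases hj' with rfl | rfl | rfl
        · rw [Qv_17]; exact (hin m).1
        · rw [Qv_18]; exact (hin m).2.1
        · rw [Qv_19]; exact (hin m).2.2 }

theorem upatch_RV (W : RingS0 X h p a c) (hh : 7 ≤ h) (hN : Nam X p a c i N)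
    (hM : NamR X p a c i M) (h11 : 11 ≤ nr X (p i) (p (i + 4)))
    (gen : ∀ x ∈ X, ∀ y ∈ X, x ≠ y → orient x y o ≠ 0)
    (ho : 0 < orient (p i) o (p (i + 4)))
    (nR : ∀ z ∈ X, orient (p i) o z < 0 ↔ z ≠ p i ∧ nr X (p i) z < 11)
    (nL : ∀ z ∈ X, orient o (p (i + 4)) z < 0 ↔
      z ≠ p (i + 4) ∧ nr X z (p (i + 4)) < 11)
    (hR : ∀ z, z ∈ R ↔ z ∈ X ∧ orient (p i) o z < 0)
    (hL : ∀ z, z ∈ L ↔ z ∈ X ∧ orient o (p (i + 4)) z < 0)
    (TL : TopLine X (p i) (p (i + 4)) o q1 q2 R T 11 9)
    (TV : TopRV X (p i) (p (i + 4)) o q1 q2 R L T)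
    (hin : ∀ m, 0 < orient (p m) (p (m + 1)) o ∧ 0 < orient (p m) (p (m + 1)) q1 ∧
        0 < orient (p m) (p (m + 1)) q2) :
    UPatch UDt.dRV (Qv N M o q1 q2) X := by
  classical
  have H := corQ_RV W hh hN hM h11 gen TL hin
  have on : o ∉ X := corner_o_notMem W hh gen
  set P := Qv N M o q1 q2 with hP
  have P17 : P 17 = o := Qv_17
  have P18 : P 18 = q1 := Qv_18
  have P19 : P 19 = q2 := Qv_19
  obtain ⟨P0, P1, -, -, -, -, -, P7, -, -, P16⟩ := H.names hN hM
  have hmem : ∀ x < 17, P x ∈ X := fun x hx => H.real x (List.mem_range.2 hx)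
  have R0 : ∀ j ∈ UDt.Rl, j < 17 ∧ j ≠ 0 ∧ j ≠ 16 := by
    intro j hj
    simp only [UDt.Rl, List.mem_cons, List.not_mem_nil, or_false] at hj
    omega
  have L0 : ∀ j ∈ UDt.Ll, j < 17 ∧ j ≠ 0 ∧ j ≠ 16 := by
    intro j hj
    simp only [UDt.Ll, List.mem_cons, List.not_mem_nil, or_false] at hj
    omega
  have RI : ∀ z ∈ X, orient (p i) o z < 0 ↔ ∃ j ∈ UDt.Rl, P j = z := by
    intro z hz
    rw [nR z hz, Qn_R (M := M) hN hz]
    constructor
    · rintro ⟨j, hj, e⟩
      exact ⟨j, hj, by rw [hP, Qv_lt (R0 j hj).1, e]⟩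
    · rintro ⟨j, hj, e⟩
      exact ⟨j, hj, by rw [← e, hP, Qv_lt (R0 j hj).1]⟩
  have LI : ∀ z ∈ X, orient o (p (i + 4)) z < 0 ↔ ∃ j ∈ UDt.Ll, P j = z := by
    intro z hz
    rw [nL z hz, Qn_L hN hM hz]
    constructor
    · rintro ⟨j, hj, e⟩
      exact ⟨j, hj, by rw [hP, Qv_lt (L0 j hj).1, e]⟩
    · rintro ⟨j, hj, e⟩
      exact ⟨j, hj, by rw [← e, hP, Qv_lt (L0 j hj).1]⟩
  have hinj : ∀ x y, x < 20 → y < 20 → x ≠ y → P x ≠ P y := H.inj
  -- signs
  have sR : ∀ x < 17, (x ∈ UDt.Rl ↔ orient (p i) o (P x) < 0) := by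
    intro x hx
    rw [RI _ (hmem x hx)]
    constructor
    · intro hx'
      exact ⟨x, hx', rfl⟩
    · rintro ⟨j, hj, e⟩
      by_contra hcon
      have := (R0 j hj).1
      exact hinj j x (by omega) (by omega) (by rintro rfl; exact hcon hj) e
  have sL : ∀ x < 17, (x ∈ UDt.Ll ↔ orient o (p (i + 4)) (P x) < 0) := by
    intro x hx
    rw [LI _ (hmem x hx)]
    constructor
    · intro hx'
      exact ⟨x, hx', rfl⟩
    · rintro ⟨j, hj, e⟩
      by_contra hcon
      have := (L0 j hj).1
      exact hinj j x (by omega) (by omega) (by rintro rfl; exact hcon hj) e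
  have neg_of : ∀ {x y : ℝ}, 0 < x * y → y < 0 → x < 0 := by
    intro x y h1 h2
    by_contra h3
    rw [not_lt] at h3
    have := mul_nonpos_of_nonneg_of_nonpos h3 h2.le
    linarith
  have pos_of : ∀ {x y : ℝ}, 0 < x * y → 0 < y → 0 < x := by
    intro x y h1 h2
    exact (pos_iff_pos_of_mul_pos h1).2 h2
  have ogen0 : ∀ z ∈ X, z ≠ p i → ¬ orient (p i) o z < 0 → 0 < orient (p i) o z := by
    intro z hz hz0 hn
    have h1 := gen (p i) (W.pX i) z hz (Ne.symm hz0)
    have h2 : orient (p i) o z ≠ 0 := by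
      rw [orient_swap']
      exact neg_ne_zero.2 h1
    exact lt_of_le_of_ne (not_lt.1 hn) h2.symm
  have ogen4 : ∀ z ∈ X, z ≠ p (i + 4) → ¬ orient o (p (i + 4)) z < 0 →
      0 < orient o (p (i + 4)) z := by
    intro z hz hz0 hn
    have h1 := gen (p (i + 4)) (W.pX _) z hz (Ne.symm hz0)
    have h2 : orient o (p (i + 4)) z ≠ 0 := by
      rw [orient_cyc, orient_cyc]
      exact h1
    exact lt_of_le_of_ne (not_lt.1 hn) h2.symm
  have b0 : ∀ x < 17, x ≠ 0 → x ∉ UDt.Rl → 0 < orient (p i) o (P x) := by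
    intro x hx h0 hx'
    refine ogen0 _ (hmem x hx) ?_ ?_
    · rw [← P0]
      exact hinj x 0 (by omega) (by omega) h0
    · exact fun h => hx' ((sR x hx).2 h)
  have b4 : ∀ x < 17, x ≠ 16 → x ∉ UDt.Ll → 0 < orient o (p (i + 4)) (P x) := by
    intro x hx h0 hx'
    refine ogen4 _ (hmem x hx) ?_ ?_
    · rw [← P16]
      exact hinj x 16 (by omega) (by omega) h0
    · exact fun h => hx' ((sL x hx).2 h)
  have ne0 : ∀ x < 17, x ≠ 0 → P x ≠ p i := by
    intro x hx h0
    rw [← P0]
    exact hinj x 0 (by omega) (by omega) h0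
  have ne4 : ∀ x < 17, x ≠ 16 → P x ≠ p (i + 4) := by
    intro x hx h0
    rw [← P16]
    exact hinj x 16 (by omega) (by omega) h0
  -- general position
  have hm : ∀ x, x < 20 → P x ∈ insert q2 (insert q1 (insert o X)) := by
    intro x hx
    rcases Nat.lt_or_ge x 17 with h1 | h1
    · exact Finset.mem_insert_of_mem (Finset.mem_insert_of_mem (Finset.mem_insert_of_mem
        (hmem x h1)))
    · rcases (show x = 17 ∨ x = 18 ∨ x = 19 by omega) with rfl | rfl | rfl
      · rw [P17]
        exact Finset.mem_insert_of_mem (Finset.mem_insert_of_mem (Finset.mem_insert_self _ _))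
      · rw [P18]; exact Finset.mem_insert_of_mem (Finset.mem_insert_self _ _)
      · rw [P19]; exact Finset.mem_insert_self _ _
  have G : GenP 20 P := by
    refine ⟨hinj, ?_⟩
    intro x y z hx hy hz h1 h2 h3
    exact orient_ne TL.gp (hm x hx) (hm y hy) (hm z hz) (hinj x y hx hy h1) (hinj y z hy hz h2)
      (hinj x z hx hz h3)
  refine
    { gpX := W.gp
      gen := G
      rlt := ?_
      clt := ?_
      real := H.real
      end0 := ?_
      endV := ?_
      in0 := ?_
      inV := ?_
      conv := ?_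
      out := ?_
      near := ?_
      gch := ?_
      row := ?_
      ub := ?_
      fa := ?_
      eqq := ?_ }
  · intro x hx
    have := H.rln x hx
    show x < 20
    omega
  · intro x hx
    simp only [UDt.dRV, List.mem_cons, List.not_mem_nil, or_false] at hx
    show x < 20
    omega
  · intro x hx
    show 0 ≤ orient (P 0) (P 1) x
    rw [P0, P1]
    exact hull_nonneg W i hx
  · intro x hx
    show 0 ≤ orient (P 7) (P 16) x
    rw [P7, P16, show i + 4 = i + 3 + 1 by ring]
    exact hull_nonneg W (i + 3) hx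
  · show 0 < orient (P 0) (P 1) (P 17)
    rw [P0, P1, P17]
    exact (hin i).1
  · show 0 < orient (P 7) (P 16) (P 17)
    rw [P7, P16, P17, show i + 4 = i + 3 + 1 by ring]
    exact (hin (i + 3)).1
  · intro k hk
    have hk' : k + 2 ≤ 2 := hk
    have hk0 : k = 0 := by omega
    subst hk0
    show 0 < orient (P 0) (P 17) (P 16)
    rw [P0, P17, P16]
    exact ho
  · intro x hx hun k hk
    have hk' : k < 2 := hk
    have hun' : ∀ y < 17, x ≠ P y := fun y hy => hun y (List.mem_range.2 hy)
    rcases (show k = 0 ∨ k = 1 by omega) with rfl | rfl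
    · show 0 < orient (P 0) (P 17) x
      rw [P0, P17]
      refine ogen0 x hx (by rw [← P0]; exact hun' 0 (by omega)) ?_
      intro hcon
      obtain ⟨j, hj, e⟩ := (RI x hx).1 hcon
      exact hun' j (R0 j hj).1 e.symm
    · show 0 < orient (P 17) (P 16) x
      rw [P16, P17]
      refine ogen4 x hx (by rw [← P16]; exact hun' 16 (by omega)) ?_
      intro hcon
      obtain ⟨j, hj, e⟩ := (LI x hx).1 hcon
      exact hun' j (L0 j hj).1 e.symm
  · intro x hx h0 hV
    have hx' : x < 17 := List.mem_range.1 hx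
    have h0' : x ≠ 0 := h0
    have hV' : x ≠ 16 := hV
    by_cases h2 : x ≤ 11
    · refine ⟨0, by show 0 < 2; omega, ?_⟩
      show orient (P 0) (P 17) (P x) < 0
      rw [P0, P17]
      refine (sR x hx').1 ?_
      simp only [UDt.Rl, List.mem_cons, List.not_mem_nil, or_false]
      omega
    · refine ⟨1, by show 1 < 2; omega, ?_⟩
      show orient (P 17) (P 16) (P x) < 0
      rw [P16, P17]
      refine (sL x hx').1 ?_
      simp only [UDt.Ll, List.mem_cons, List.not_mem_nil, or_false]
      omega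
  · intro x hx hx' y hy z hz hyz
    simp only [UDt.dRV, List.mem_cons, List.not_mem_nil, or_false] at hx
    have hx'' : ¬ x < 17 := fun h => hx' (List.mem_range.2 h)
    rcases hx with rfl | rfl | rfl
    · omega
    · rw [P17, orient_cyc, orient_cyc]
      exact gen y hy z hz hyz
    · omega
  · -- the rows
    intro f hf z hz
    simp only [UDt.dRV, List.mem_append, List.mem_cons, List.not_mem_nil, or_false,
      or_assoc] at hf
    rcases hf with hf | rfl | rfl | rfl | rfl | rfl | rfl | rfl | rfl | rfl | rfl | rfl | rfl |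
      rfl | rfl | rfl | hf
    · exact srows_ok W hh hN hM H f hf z hz
    · have hz' : z ∈ UDt.Rl := hz
      have := (sR z (R0 z hz').1).1 hz'
      show 0 < orient (P 17) (P 0) (P z)
      rw [P0, P17, orient_swap]
      linarith
    · obtain ⟨z1, z2⟩ := UDt.mem_ex.1 hz
      rw [List.mem_range] at z1
      simp only [List.mem_cons, not_or] at z2
      show 0 < orient (P 0) (P 17) (P z)
      rw [P0, P17]
      exact b0 z z1 z2.1 z2.2
    · have hz' : z ∈ UDt.Rl := hz
      have h1 := (sR z (R0 z hz').1).1 hz'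
      have h2 := neg_of (TL.s1 _ (hmem z (R0 z hz').1) (ne0 z (R0 z hz').1 (R0 z hz').2.1)) h1
      show 0 < orient (P 18) (P 0) (P z)
      rw [P0, P18, orient_swap]
      linarith
    · obtain ⟨z1, z2⟩ := UDt.mem_ex.1 hz
      rw [List.mem_range] at z1
      simp only [List.mem_cons, not_or] at z2
      show 0 < orient (P 0) (P 18) (P z)
      rw [P0, P18]
      exact pos_of (TL.s1 _ (hmem z z1) (ne0 z z1 z2.1)) (b0 z z1 z2.1 z2.2)
    · have hz' : z ∈ UDt.Rl := hz
      have h1 := (sR z (R0 z hz').1).1 hz'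
      have h2 := neg_of (TV.s3 _ (hmem z (R0 z hz').1) (ne0 z (R0 z hz').1 (R0 z hz').2.1)) h1
      show 0 < orient (P 18) (P 17) (P z)
      rw [P17, P18, orient_swap]
      linarith
    · obtain ⟨z1, z2⟩ := UDt.mem_ex.1 hz
      rw [List.mem_range] at z1
      simp only [List.mem_cons, not_or] at z2
      show 0 < orient (P 17) (P 18) (P z)
      rw [P17, P18]
      exact pos_of (TV.s3 _ (hmem z z1) (ne0 z z1 z2.1)) (b0 z z1 z2.1 z2.2)
    · have hz' : z ∈ UDt.Ll := hz
      have := (sL z (L0 z hz').1).1 hz'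
      show 0 < orient (P 16) (P 17) (P z)
      rw [P16, P17, orient_swap]
      linarith
    · obtain ⟨z1, z2⟩ := UDt.mem_ex.1 hz
      rw [List.mem_range] at z1
      simp only [List.mem_cons, not_or] at z2
      show 0 < orient (P 17) (P 16) (P z)
      rw [P16, P17]
      exact b4 z z1 z2.1 z2.2
    · have hz' : z ∈ UDt.Ll := hz
      have h1 := (sL z (L0 z hz').1).1 hz'
      have h2 := neg_of (TL.s2 _ (hmem z (L0 z hz').1) (ne4 z (L0 z hz').1 (L0 z hz').2.2)) h1
      show 0 < orient (P 16) (P 19) (P z)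
      rw [P16, P19, orient_swap]
      linarith
    · obtain ⟨z1, z2⟩ := UDt.mem_ex.1 hz
      rw [List.mem_range] at z1
      simp only [List.mem_cons, not_or] at z2
      show 0 < orient (P 19) (P 16) (P z)
      rw [P16, P19]
      exact pos_of (TL.s2 _ (hmem z z1) (ne4 z z1 z2.1)) (b4 z z1 z2.1 z2.2)
    · have hz' : z ∈ UDt.Ll := hz
      have h1 := (sL z (L0 z hz').1).1 hz'
      have h2 := neg_of (TV.s4 _ (hmem z (L0 z hz').1) (ne4 z (L0 z hz').1 (L0 z hz').2.2)) h1
      show 0 < orient (P 17) (P 19) (P z)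
      rw [P17, P19, orient_swap]
      linarith
    · obtain ⟨z1, z2⟩ := UDt.mem_ex.1 hz
      rw [List.mem_range] at z1
      simp only [List.mem_cons, not_or] at z2
      show 0 < orient (P 19) (P 17) (P z)
      rw [P17, P19]
      exact pos_of (TV.s4 _ (hmem z z1) (ne4 z z1 z2.1)) (b4 z z1 z2.1 z2.2)
    · simp only [List.mem_cons, List.not_mem_nil, or_false] at hz ⊢
      rw [P18, P19]
      rcases hz with rfl | rfl | rfl
      · rw [P0]; exact TV.t2
      · rw [P16]; exact TV.t3
      · rw [P17]; exact TV.t1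
    · simp only [List.mem_cons, List.not_mem_nil, or_false] at hz ⊢
      rw [hz, P0, P17, P19, orient_swap]
      have := TV.t4
      linarith
    · simp only [List.mem_cons, List.not_mem_nil, or_false] at hz ⊢
      rw [hz, P16, P17, P18, orient_swap]
      have := TV.t5
      linarith
    · exact frows_ok hN hM H.Q16 f hf z hz
  · -- the bounds
    have ub : ∀ (S : Finset Pt) (l : List ℕ), (∀ x ∈ l, x < 17) → ∀ I : Finset ℕ,
        (∀ x ∈ I, x ∈ l ∧ P x ∈ S) → I.card ≤ S.card := by
      intro S l hl I hI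
      rw [← Finset.card_image_of_injOn (s := I) (f := P)]
      · apply Finset.card_le_card
        intro z hz
        obtain ⟨x, hx, rfl⟩ := Finset.mem_image.1 hz
        exact (hI x hx).2
      · intro x hx y hy hxy
        by_contra hne
        have h1 := hl x (hI x hx).1
        have h2 := hl y (hI y hy).1
        exact hinj x y (by omega) (by omega) hne hxy
    have lb : ∀ (S : Finset Pt) (l : List ℕ) (m : ℕ), l.length = m →
        (∀ z ∈ S, ∃ j ∈ l, P j = z) → ∀ I : Finset ℕ,
        (∀ x ∈ I, x ∈ l ∧ P x ∉ S) → I.card + S.card ≤ m := by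
      intro S l m hlm hS I hI
      set J := l.toFinset.filter (fun x => P x ∈ S) with hJ
      have h1 : S.card ≤ J.card := by
        refine (Finset.card_le_card ?_).trans (Finset.card_image_le (s := J) (f := P))
        intro z hz
        obtain ⟨j, hj, rfl⟩ := hS z hz
        exact Finset.mem_image.2 ⟨j, Finset.mem_filter.2 ⟨List.mem_toFinset.2 hj, hz⟩, rfl⟩
      have h2 : Disjoint I J := by
        rw [Finset.disjoint_left]
        intro x hx hx'
        exact (hI x hx).2 (Finset.mem_filter.1 hx').2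
      have h3 : I ∪ J ⊆ l.toFinset := by
        intro x hx
        rcases Finset.mem_union.1 hx with hx | hx
        · exact List.mem_toFinset.2 (hI x hx).1
        · exact (Finset.mem_filter.1 hx).1
      have h4 := Finset.card_le_card h3
      rw [Finset.card_union_of_disjoint h2] at h4
      have h5 := List.toFinset_card_le l
      omega
    have hTR : (T ∩ R).card = 9 := TL.cTR
    have hTc' : T.card = 12 := TL.cT
    have memT : ∀ x < 17, (P x ∈ T ↔ orient q2 q1 (P x) < 0) := fun x hx =>
      TV.memT _ (hmem x hx)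
    have Tcov : ∀ z ∈ T, ∃ j ∈ List.range 17, P j = z := by
      intro z hz
      rcases Finset.mem_union.1 (TV.sub hz) with h1 | h1
      · obtain ⟨j, hj, e⟩ := (RI z (TL.TX hz)).1 ((hR z).1 h1).2
        exact ⟨j, List.mem_range.2 (R0 j hj).1, e⟩
      · obtain ⟨j, hj, e⟩ := (LI z (TL.TX hz)).1 ((hL z).1 h1).2
        exact ⟨j, List.mem_range.2 (L0 j hj).1, e⟩
    intro f hf I hI
    simp only [UDt.dRV, List.mem_cons, List.not_mem_nil, or_false] at hf
    rcases hf with rfl | rfl | rfl | rfl
    · simp only [P18, P19] at hI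
      show I.card ≤ 12
      rw [← hTc']
      exact ub T (List.range 17) (fun x hx => List.mem_range.1 hx) I
        (fun x hx => ⟨(hI x hx).1, (memT x (List.mem_range.1 (hI x hx).1)).2 (hI x hx).2⟩)
    · simp only [P18, P19] at hI
      show I.card ≤ 5
      have := lb T (List.range 17) 17 (by simp) Tcov I (fun x hx =>
        ⟨(hI x hx).1, fun hcon => by
          have h1 := (memT x (List.mem_range.1 (hI x hx).1)).1 hcon
          have h2 := (hI x hx).2
          rw [orient_swap] at h2
          linarith⟩)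
      omega
    · simp only [P18, P19] at hI
      show I.card ≤ 9
      rw [← hTR]
      refine ub (T ∩ R) UDt.Rl (fun x hx => (R0 x hx).1) I (fun x hx => ⟨(hI x hx).1, ?_⟩)
      have hx' := (hI x hx).1
      refine Finset.mem_inter.2 ⟨(memT x (R0 x hx').1).2 (hI x hx).2, ?_⟩
      exact (hR _).2 ⟨hmem x (R0 x hx').1, (sR x (R0 x hx').1).1 hx'⟩
    · simp only [P18, P19] at hI
      show I.card ≤ 2
      have := lb (T ∩ R) UDt.Rl 11 rfl (fun z hz => by
          have hzR := (hR z).1 (Finset.mem_inter.1 hz).2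
          exact (RI z hzR.1).1 hzR.2) I (fun x hx =>
        ⟨(hI x hx).1, fun hcon => by
          have h1 := (memT x (R0 x (hI x hx).1).1).1 (Finset.mem_inter.1 hcon).1
          have h2 := (hI x hx).2
          rw [orient_swap] at h2
          linarith⟩)
      omega
  · intro f hf
    simp [UDt.dRV] at hf
  · intro f hf
    simp [UDt.dRV] at hf

end Geo

end Pool.Agent.GCP
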