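import Pool.Agent.GCP.GeoWin

/-!
# Geometry of patches with two or three virtual points (MP_062f91_co)
-/

namespace Pool.Agent.GCP

namespace Geo

open Filter Topology

/-- An affine functional on the plane. -/
def Aff (F : Pt → ℝ) : Prop := ∃ a b c : ℝ, ∀ z : Pt, F z = a * z.1 + b * z.2 + c

lemma aff_orient (x y : Pt) : Aff (fun z => orient x y z) :=
  ⟨-(y.2 - x.2), y.1 - x.1, (y.2 - x.2) * x.1 - (y.1 - x.1) * x.2, fun z => by
    unfold orient; ring⟩

lemma Aff.add {F G : Pt → ℝ} (hF : Aff F) (hG : Aff G) : Aff (fun z => F z + G z) := by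
  obtain ⟨a, b, c, h⟩ := hF
  obtain ⟨a', b', c', h'⟩ := hG
  exact ⟨a + a', b + b', c + c', fun z => by show F z + G z = _; rw [h, h']; ring⟩

lemma Aff.smul {F : Pt → ℝ} (hF : Aff F) (t : ℝ) : Aff (fun z => t * F z) := by
  obtain ⟨a, b, c, h⟩ := hF
  exact ⟨t * a, t * b, t * c, fun z => by show t * F z = _; rw [h]; ring⟩

/-- Barycentric coordinates. -/
lemma Aff.bary {F : Pt → ℝ} (hF : Aff F) (x y w u : Pt) :
    F u * orient x y w = F x * orient u y w + F y * orient x u w + F w * orient x y u := by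
  obtain ⟨a, b, c, h⟩ := hF
  rw [h, h, h, h]
  unfold orient
  ring

lemma Aff.comb {F : Pt → ℝ} (hF : Aff F) (x y : Pt) (t : ℝ) :
    F ((1 - t) • x + t • y) = (1 - t) * F x + t * F y := by
  obtain ⟨a, b, c, h⟩ := hF
  rw [h, h, h]
  simp only [Prod.fst_add, Prod.smul_fst, Prod.snd_add, Prod.smul_snd, smul_eq_mul]
  ring

lemma orient_comb1 (x y u v : Pt) (t : ℝ) :
    orient ((1 - t) • x + t • y) u v = (1 - t) * orient x u v + t * orient y u v := by
  unfold orient
  simp only [Prod.fst_add, Prod.smul_fst, Prod.snd_add, Prod.smul_snd, smul_eq_mul]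
  ring

lemma orient_comb2 (x y u v : Pt) (t : ℝ) :
    orient u ((1 - t) • x + t • y) v = (1 - t) * orient u x v + t * orient u y v := by
  unfold orient
  simp only [Prod.fst_add, Prod.smul_fst, Prod.snd_add, Prod.smul_snd, smul_eq_mul]
  ring

lemma orient_comb3 (x y u v : Pt) (t : ℝ) :
    orient u v ((1 - t) • x + t • y) = (1 - t) * orient u v x + t * orient u v y := by
  unfold orient
  simp only [Prod.fst_add, Prod.smul_fst, Prod.snd_add, Prod.smul_snd, smul_eq_mul]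
  ring

/-- A generic point near a given point. -/
lemma generic_nhds {Φ : Pt → Prop} {o : Pt} (hΦ : ∀ᶠ x in 𝓝 o, Φ x) (S : Finset (Pt × Pt))
    (hS : ∀ s ∈ S, s.1 ≠ s.2) :
    ∃ o' : Pt, Φ o' ∧ ∀ s ∈ S, orient s.1 s.2 o' ≠ 0 := by
  classical
  obtain ⟨m, hm⟩ := Infinite.exists_notMem_finset
    (S.image (fun s : Pt × Pt => (s.2.2 - s.1.2) / (s.2.1 - s.1.1)))
  have hform : ∀ (a b : Pt) (t : ℝ), orient a b (o.1 + t, o.2 + t * m) =
      orient a b o + t * ((b.1 - a.1) * m - (b.2 - a.2)) := by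
    intro a b t; unfold orient; ring
  have hB : ∀ s ∈ S, (s.2.1 - s.1.1) * m - (s.2.2 - s.1.2) ≠ 0 := by
    intro s hs h0
    by_cases h1 : s.2.1 - s.1.1 = 0
    · rw [h1] at h0
      apply hS s hs
      exact Prod.ext (by linarith) (by linarith)
    · apply hm
      rw [Finset.mem_image]
      refine ⟨s, hs, ?_⟩
      rw [div_eq_iff h1]
      linarith
  have h1 : ∀ᶠ t : ℝ in 𝓝[>] 0, Φ (o.1 + t, o.2 + t * m) := by
    apply Filter.Eventually.filter_mono nhdsWithin_le_nhds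
    have hc : Continuous (fun t : ℝ => ((o.1 + t, o.2 + t * m) : Pt)) := by fun_prop
    have h3 := hc.tendsto (0 : ℝ)
    apply h3.eventually
    simpa using hΦ
  have h2 : ∀ s ∈ S, ∀ᶠ t : ℝ in 𝓝[>] 0, orient s.1 s.2 (o.1 + t, o.2 + t * m) ≠ 0 := by
    intro s hs
    set B := (s.2.1 - s.1.1) * m - (s.2.2 - s.1.2) with hBd
    have hB0 : B ≠ 0 := hB s hs
    have key : ∀ t : ℝ, orient s.1 s.2 (o.1 + t, o.2 + t * m) = 0 →
        t = -(orient s.1 s.2 o) / B := by
      intro t ht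
      rw [hform] at ht
      rw [eq_div_iff hB0]
      linarith
    by_cases h0 : -(orient s.1 s.2 o) / B = 0
    · filter_upwards [self_mem_nhdsWithin] with t ht h
      have := key t h
      rw [h0] at this
      exact absurd this (ne_of_gt ht)
    · apply Filter.Eventually.filter_mono nhdsWithin_le_nhds
      filter_upwards [eventually_ne_nhds (Ne.symm h0)] with t ht h
      exact ht (key t h)
  obtain ⟨t, ht1, ht2⟩ := (h1.and ((Filter.eventually_all_finset S).2 h2)).exists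
  exact ⟨_, ht1, ht2⟩

lemma gen_notMem {X : Finset Pt} {o : Pt} (h : ∀ x ∈ X, ∀ y ∈ X, x ≠ y → orient x y o ≠ 0)
    (h2 : 1 < X.card) : o ∉ X := by
  intro ho
  obtain ⟨y, hy, hne⟩ := Finset.exists_mem_ne h2 o
  exact h y hy o ho hne (by simp)

open scoped Classical in
/-- Two generic points near two given points. -/
lemma gen2 {X : Finset Pt} (gp : GeneralPosition X) (h2 : 1 < X.card) {x1 x2 : Pt}
    {Φ : Pt × Pt → Prop} (h : ∀ᶠ q : Pt × Pt in 𝓝 (x1, x2), Φ q) :
    ∃ o1 o2, Φ (o1, o2) ∧ o1 ∉ X ∧ o2 ∉ insert o1 X ∧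
      (∀ x ∈ X, ∀ y ∈ X, x ≠ y → orient x y o1 ≠ 0) ∧
      (∀ x ∈ insert o1 X, ∀ y ∈ insert o1 X, x ≠ y → orient x y o2 ≠ 0) ∧
      GeneralPosition (insert o2 (insert o1 X)) := by
  have h3 : ∀ᶠ x in 𝓝 x1, ∀ᶠ y in 𝓝 x2, Φ (x, y) := h.curry_nhds
  obtain ⟨o1, h4, h5⟩ := generic_nhds h3 X.offDiag (fun s hs => (Finset.mem_offDiag.1 hs).2.2)
  obtain ⟨o2, h6, h7⟩ := generic_nhds h4 (insert o1 X).offDiag
    (fun s hs => (Finset.mem_offDiag.1 hs).2.2)
  have g1 : ∀ x ∈ X, ∀ y ∈ X, x ≠ y → orient x y o1 ≠ 0 := fun x hx y hy hxy =>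
    h5 (x, y) (Finset.mem_offDiag.2 ⟨hx, hy, hxy⟩)
  have g2 : ∀ x ∈ insert o1 X, ∀ y ∈ insert o1 X, x ≠ y → orient x y o2 ≠ 0 :=
    fun x hx y hy hxy => h7 (x, y) (Finset.mem_offDiag.2 ⟨hx, hy, hxy⟩)
  have n1 := gen_notMem g1 h2
  refine ⟨o1, o2, h6, n1, gen_notMem g2 ?_, g1, g2, gp_insert (gp_insert gp g1) g2⟩
  rw [Finset.card_insert_of_notMem n1]
  omega

/-- The crossing of two segments. -/
lemma cross_seg {x y u v : Pt} (h1 : orient x y u < 0) (h2 : 0 < orient x y v)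
    (h3 : 0 < orient u v x) (h4 : orient u v y < 0) :
    ∃ (z : Pt) (s t : ℝ), 0 < s ∧ s < 1 ∧ 0 < t ∧ t < 1 ∧ z = (1 - s) • x + s • y ∧
      z = (1 - t) • u + t • v := by
  have hd : 0 < orient u v x - orient u v y := by linarith
  have e : orient u v x - orient u v y = orient x y v - orient x y u := by
    unfold orient; ring
  refine ⟨(1 - orient u v x / (orient u v x - orient u v y)) • x +
    (orient u v x / (orient u v x - orient u v y)) • y,
    orient u v x / (orient u v x - orient u v y),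
    -orient x y u / (orient u v x - orient u v y), div_pos h3 hd, ?_, ?_, ?_, rfl, ?_⟩
  · rw [div_lt_one hd]; linarith
  · exact div_pos (by linarith) hd
  · rw [div_lt_one hd, e]; linarith
  · have hd' := hd.ne'
    ext
    · simp only [Prod.fst_add, Prod.smul_fst, smul_eq_mul]
      field_simp
      unfold orient
      ring
    · simp only [Prod.snd_add, Prod.smul_snd, smul_eq_mul]
      field_simp
      unfold orient
      ring

/-- Three chords: the third case. -/
lemma chord_R {p0 p1 p2 p4 p5 p6 o : Pt} (A1 : orient p0 p4 p1 < 0) (A5 : 0 < orient p0 p4 p5)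
    (C1 : 0 < orient p2 p6 p1) (C5 : orient p2 p6 p5 < 0) (C0 : 0 < orient p2 p6 p0)
    (B0 : 0 < orient p1 p5 p0)
    (hD : orient p2 p6 p1 * orient p0 p4 p5 - orient p2 p6 p5 * orient p0 p4 p1 ≤ 0)
    (hA : 0 < orient p0 p4 o) (hC : 0 < orient p2 p6 o) : 0 < orient p1 p5 o := by
  by_contra hB
  rw [not_lt] at hB
  have hd : 0 < orient p1 p5 p0 - orient p1 p5 o := by linarith
  set t := -orient p1 p5 o / (orient p1 p5 p0 - orient p1 p5 o) with ht
  have t0 : 0 ≤ t := div_nonneg (by linarith) hd.le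
  have t1 : t < 1 := by rw [ht, div_lt_one hd]; linarith
  set s : Pt := (1 - t) • o + t • p0 with hs
  have As : 0 < orient p0 p4 s := by
    rw [hs, orient_comb3, orient_left, mul_zero, add_zero]
    exact mul_pos (by linarith) hA
  have Cs : 0 < orient p2 p6 s := by
    rw [hs, orient_comb3]
    have := mul_pos (sub_pos.2 t1) hC
    have := mul_nonneg t0 C0.le
    linarith
  have Bs : orient p1 p5 s = 0 := by
    rw [hs, orient_comb3]
    have : t * (orient p1 p5 p0 - orient p1 p5 o) = -orient p1 p5 o := by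
      rw [ht, div_mul_cancel₀ _ hd.ne']
    linarith
  have k1 := (aff_orient p0 p4).bary p1 p5 p0 s
  have k2 := (aff_orient p2 p6).bary p1 p5 p0 s
  have k3 : orient p1 p5 p0 = orient s p5 p0 + orient p1 s p0 + orient p1 p5 s := by
    unfold orient; ring
  simp only [Bs, mul_zero, add_zero] at k1 k2 k3
  set α := orient s p5 p0
  set β := orient p1 s p0
  have h1 : 0 < orient p0 p4 p1 * α + orient p0 p4 p5 * β := by
    rw [← k1]; exact mul_pos As B0
  have h2 : 0 < orient p2 p6 p1 * α + orient p2 p6 p5 * β := by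
    rw [← k2]; exact mul_pos Cs B0
  have hα : 0 < α := by
    by_contra hα
    rw [not_lt] at hα
    have hβ : 0 < β := by linarith
    have := mul_nonpos_of_nonneg_of_nonpos C1.le hα
    have := mul_neg_of_neg_of_pos C5 hβ
    linarith
  have hβ : 0 < β := by
    by_contra hβ
    rw [not_lt] at hβ
    have := mul_neg_of_neg_of_pos A1 hα
    have := mul_nonpos_of_nonneg_of_nonpos A5.le hβ
    linarith
  have h3 : 0 < orient p2 p6 p1 * α * (orient p0 p4 p1 * α + orient p0 p4 p5 * β) :=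
    mul_pos (mul_pos C1 hα) h1
  have h4 : 0 < -orient p0 p4 p1 * α * (orient p2 p6 p1 * α + orient p2 p6 p5 * β) :=
    mul_pos (mul_pos (by linarith) hα) h2
  have h5 : orient p2 p6 p1 * α * (orient p0 p4 p1 * α + orient p0 p4 p5 * β) +
      -orient p0 p4 p1 * α * (orient p2 p6 p1 * α + orient p2 p6 p5 * β) =
      α * β * (orient p2 p6 p1 * orient p0 p4 p5 - orient p2 p6 p5 * orient p0 p4 p1) := by ring
  have h6 := mul_nonpos_of_nonneg_of_nonpos (mul_pos hα hβ).le hD
  linarith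

lemma ev {f : Pt × Pt → ℝ} (hf : Continuous f) {x : Pt × Pt} (h : 0 < f x) :
    ∀ᶠ y in 𝓝 x, 0 < f y := hf.continuousAt.eventually (lt_mem_nhds h)

lemma ev_all {X : Finset Pt} {P : Pt → Prop} {F : Pt → Pt × Pt → ℝ} (hF : ∀ z, Continuous (F z))
    {x : Pt × Pt} (h : ∀ z ∈ X, P z → 0 < F z x) :
    ∀ᶠ y in 𝓝 x, ∀ z ∈ X, P z → 0 < F z y := by
  apply (Filter.eventually_all_finset X).2
  intro z hz
  by_cases hP : P z
  · filter_upwards [ev (hF z) (h z hz hP)] with y hy _ using hy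
  · exact Filter.Eventually.of_forall (fun y h' => absurd h' hP)

lemma orient_two (x y z : Pt) (s t : ℝ) :
    orient ((1 - s) • x + s • y) ((1 - t) • x + t • y) z = (t - s) * orient x y z := by
  unfold orient
  simp only [Prod.fst_add, Prod.smul_fst, Prod.snd_add, Prod.smul_snd, smul_eq_mul]
  ring

lemma orient_push (a b x u v w : Pt) (β ε : ℝ) :
    orient a b (x + ε • ((1 / β) • (u - x) + (v - w))) =
      orient a b x + ε * ((orient a b u - orient a b x) / β + (orient a b v - orient a b w)) := by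
  unfold orient
  simp only [Prod.fst_add, Prod.smul_fst, Prod.snd_add, Prod.smul_snd, smul_eq_mul, Prod.fst_sub,
    Prod.snd_sub]
  ring

open scoped Classical in
/-- Three chords `q 0 q 4`, `q 1 q 5`, `q 2 q 6`, second case: the crossing points of the middle
chord with the other two, pushed a little inside. -/
structure ThreeN (X : Finset Pt) (q : ℕ → Pt) (o1 o2 : Pt) : Prop where
  n1 : o1 ∉ X
  n2 : o2 ∉ insert o1 X
  gen1 : ∀ x ∈ X, ∀ y ∈ X, x ≠ y → orient x y o1 ≠ 0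
  gen2 : ∀ x ∈ insert o1 X, ∀ y ∈ insert o1 X, x ≠ y → orient x y o2 ≠ 0
  gp : GeneralPosition (insert o2 (insert o1 X))
  a1 : ∀ z ∈ X, z ≠ q 0 → z ≠ q 4 → 0 < orient (q 0) o1 z * orient (q 0) (q 4) z
  a2 : orient (q 0) o1 (q 4) < 0
  a3 : ∀ z ∈ X, z ≠ q 0 → z ≠ q 4 → 0 < orient o1 (q 4) z * orient (q 0) (q 4) z
  b1 : ∀ z ∈ X, z ≠ q 1 → z ≠ q 5 → 0 < orient o1 o2 z * orient (q 1) (q 5) z
  b2 : orient o1 o2 (q 1) < 0
  b3 : orient o1 o2 (q 5) < 0
  b4 : ∀ z ∈ X, z ≠ q 1 → z ≠ q 5 → 0 < orient (q 1) o1 z * orient (q 1) (q 5) z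
  b5 : ∀ z ∈ X, z ≠ q 1 → z ≠ q 5 → 0 < orient (q 1) o2 z * orient (q 1) (q 5) z
  b6 : ∀ z ∈ X, z ≠ q 1 → z ≠ q 5 → 0 < orient o1 (q 5) z * orient (q 1) (q 5) z
  b7 : ∀ z ∈ X, z ≠ q 1 → z ≠ q 5 → 0 < orient o2 (q 5) z * orient (q 1) (q 5) z
  c1 : ∀ z ∈ X, z ≠ q 2 → z ≠ q 6 → 0 < orient o2 (q 6) z * orient (q 2) (q 6) z
  c2 : orient o2 (q 6) (q 2) < 0
  c3 : ∀ z ∈ X, z ≠ q 2 → z ≠ q 6 → 0 < orient (q 2) o2 z * orient (q 2) (q 6) z
  d1 : 0 < orient (q 0) o1 o2
  d2 : 0 < orient o1 o2 (q 6)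
  d3 : 0 < orient (q 0) o1 (q 6)
  d4 : 0 < orient (q 0) o2 (q 6)
  e1 : 0 < orient (q 0) (q 4) o1
  e2 : 0 < orient (q 1) (q 5) o1
  e3 : 0 < orient (q 2) (q 6) o1
  e4 : 0 < orient (q 0) (q 4) o2
  e5 : 0 < orient (q 1) (q 5) o2
  e6 : 0 < orient (q 2) (q 6) o2

lemma chord_N {X : Finset Pt} (gp : GeneralPosition X) {q : ℕ → Pt} {ι : Type} [Finite ι]
    {e f : ι → Pt} (hE0 : ∀ j, 0 < orient (e j) (f j) (q 0) + orient (e j) (f j) (q 4))
    (hE1 : ∀ j, 0 < orient (e j) (f j) (q 1) + orient (e j) (f j) (q 5))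
    (hE : ∀ j, ∀ z ∈ X, 0 ≤ orient (e j) (f j) z)
    (hm : ∀ s, s ≤ 6 → q s ∈ X)
    (hq : ∀ s t u, s < t → t < u → u ≤ 6 → 0 < orient (q s) (q t) (q u))
    (hD : 0 < orient (q 2) (q 6) (q 1) * orient (q 0) (q 4) (q 5) -
      orient (q 2) (q 6) (q 5) * orient (q 0) (q 4) (q 1)) :
    ∃ o1 o2, ThreeN X q o1 o2 ∧ ∀ j, 0 < orient (e j) (f j) o1 ∧ 0 < orient (e j) (f j) o2 := by
  classical
  have hne : ∀ s t, s < t → t ≤ 6 → q s ≠ q t := by
    intro s t h1 h2 h3
    rcases Nat.lt_or_ge t 6 with h4 | h4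
    · have := hq s t 6 h1 h4 le_rfl
      rw [h3] at this
      simp at this
    · rcases Nat.eq_zero_or_pos s with h5 | h5
      · rcases (show t = 6 by omega) with rfl
        have := hq 0 1 6 (by omega) (by omega) le_rfl
        rw [← h3, h5] at this
        simp at this
      · have := hq 0 s t h5 h1 h2
        rw [h3] at this
        simp at this
  have h2 : 1 < X.card := Finset.one_lt_card.2 ⟨q 0, hm 0 (by omega), q 1, hm 1 (by omega),
    hne 0 1 (by omega) (by omega)⟩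
  -- signs on the chords
  have A1 : orient (q 0) (q 4) (q 1) < 0 := by
    have := hq 0 1 4 (by omega) (by omega) (by omega)
    rw [orient_swap'] at this
    linarith
  have A5 : 0 < orient (q 0) (q 4) (q 5) := hq 0 4 5 (by omega) (by omega) (by omega)
  have A6 : 0 < orient (q 0) (q 4) (q 6) := hq 0 4 6 (by omega) (by omega) (by omega)
  have B0 : 0 < orient (q 1) (q 5) (q 0) := by
    rw [orient_cyc]; exact hq 0 1 5 (by omega) (by omega) (by omega)
  have B4 : orient (q 1) (q 5) (q 4) < 0 := by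
    have := hq 1 4 5 (by omega) (by omega) (by omega)
    rw [orient_swap'] at this
    linarith
  have B2 : orient (q 1) (q 5) (q 2) < 0 := by
    have := hq 1 2 5 (by omega) (by omega) (by omega)
    rw [orient_swap'] at this
    linarith
  have B6 : 0 < orient (q 1) (q 5) (q 6) := hq 1 5 6 (by omega) (by omega) (by omega)
  have C1 : 0 < orient (q 2) (q 6) (q 1) := by
    rw [orient_cyc]; exact hq 1 2 6 (by omega) (by omega) (by omega)
  have C5 : orient (q 2) (q 6) (q 5) < 0 := by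
    have := hq 2 5 6 (by omega) (by omega) (by omega)
    rw [orient_swap'] at this
    linarith
  have C0 : 0 < orient (q 2) (q 6) (q 0) := by
    rw [orient_cyc]; exact hq 0 2 6 (by omega) (by omega) (by omega)
  obtain ⟨x1, l1, t1, l10, l11, t10, t11, x1e, x1e'⟩ := cross_seg A1 A5 B0 B4
  obtain ⟨x2, t2, m2, t20, t21, m20, m21, x2e, x2e'⟩ := cross_seg B2 B6 C1 C5
  have Ax1 : orient (q 0) (q 4) x1 = 0 := by rw [x1e, orient_comb3]; simp
  have Bx1 : orient (q 1) (q 5) x1 = 0 := by rw [x1e', orient_comb3]; simp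
  have Bx2 : orient (q 1) (q 5) x2 = 0 := by rw [x2e, orient_comb3]; simp
  have Cx2 : orient (q 2) (q 6) x2 = 0 := by rw [x2e', orient_comb3]; simp
  have f1 : (1 - t1) * orient (q 0) (q 4) (q 1) + t1 * orient (q 0) (q 4) (q 5) = 0 := by
    rw [← orient_comb3, ← x1e', Ax1]
  have f2 : (1 - t2) * orient (q 2) (q 6) (q 1) + t2 * orient (q 2) (q 6) (q 5) = 0 := by
    rw [← orient_comb3, ← x2e, Cx2]
  have Ax2 : 0 < orient (q 0) (q 4) x2 := by
    have : orient (q 0) (q 4) x2 * orient (q 2) (q 6) (q 1) =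
        t2 * (orient (q 2) (q 6) (q 1) * orient (q 0) (q 4) (q 5) -
          orient (q 2) (q 6) (q 5) * orient (q 0) (q 4) (q 1)) := by
      rw [x2e, orient_comb3]
      linear_combination orient (q 0) (q 4) (q 1) * f2
    have h3 : 0 < orient (q 0) (q 4) x2 * orient (q 2) (q 6) (q 1) := by
      rw [this]; exact mul_pos t20 hD
    exact (pos_iff_pos_of_mul_pos h3).2 C1
  have Cx1 : 0 < orient (q 2) (q 6) x1 := by
    have : orient (q 2) (q 6) x1 * orient (q 0) (q 4) (q 5) =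
        (1 - t1) * (orient (q 2) (q 6) (q 1) * orient (q 0) (q 4) (q 5) -
          orient (q 2) (q 6) (q 5) * orient (q 0) (q 4) (q 1)) := by
      rw [x1e', orient_comb3]
      linear_combination orient (q 2) (q 6) (q 5) * f1
    have h3 : 0 < orient (q 2) (q 6) x1 * orient (q 0) (q 4) (q 5) := by
      rw [this]; exact mul_pos (by linarith) hD
    exact (pos_iff_pos_of_mul_pos h3).2 A5
  have t12 : t1 < t2 := by
    have h3 : orient (q 0) (q 4) x2 =
        (1 - t2) * orient (q 0) (q 4) (q 1) + t2 * orient (q 0) (q 4) (q 5) := by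
      rw [x2e, orient_comb3]
    have h4 : 0 < (t2 - t1) * (orient (q 0) (q 4) (q 5) - orient (q 0) (q 4) (q 1)) := by
      have : (t2 - t1) * (orient (q 0) (q 4) (q 5) - orient (q 0) (q 4) (q 1)) =
          orient (q 0) (q 4) x2 := by rw [h3]; linear_combination -f1
      rw [this]; exact Ax2
    have h5 := (pos_iff_pos_of_mul_pos h4).2 (by linarith)
    linarith
  have nz : ∀ z ∈ X, ∀ s t, s < t → t ≤ 6 → z ≠ q s → z ≠ q t → 0 <
      orient (q s) (q t) z * orient (q s) (q t) z := by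
    intro z hz s t h1 h3 zs zt
    exact mul_self_pos.2 (orient_ne gp (hm s (by omega)) (hm t h3) hz (hne s t h1 h3) zt.symm zs.symm)
  -- open conditions at the crossing points
  have G1 : ∀ᶠ o : Pt × Pt in 𝓝 (x1, x2), ∀ z ∈ X, (z ≠ q 0 ∧ z ≠ q 4) →
      0 < orient (q 0) o.1 z * orient (q 0) (q 4) z := by
    refine ev_all (F := fun z o => orient (q 0) o.1 z * orient (q 0) (q 4) z)
      (fun z => by unfold orient; fun_prop) ?_
    rintro z hz ⟨z0, z4⟩
    show 0 < orient (q 0) x1 z * orient (q 0) (q 4) z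
    rw [x1e, orient_comb2, orient_self, mul_zero, zero_add, mul_assoc]
    exact mul_pos l10 (nz z hz 0 4 (by omega) (by omega) z0 z4)
  have G2 : ∀ᶠ o : Pt × Pt in 𝓝 (x1, x2), ∀ z ∈ X, (z ≠ q 0 ∧ z ≠ q 4) →
      0 < orient o.1 (q 4) z * orient (q 0) (q 4) z := by
    refine ev_all (F := fun z o => orient o.1 (q 4) z * orient (q 0) (q 4) z)
      (fun z => by unfold orient; fun_prop) ?_
    rintro z hz ⟨z0, z4⟩
    show 0 < orient x1 (q 4) z * orient (q 0) (q 4) z
    rw [x1e, orient_comb1, orient_self, mul_zero, add_zero, mul_assoc]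
    exact mul_pos (by linarith) (nz z hz 0 4 (by omega) (by omega) z0 z4)
  have G3 : ∀ᶠ o : Pt × Pt in 𝓝 (x1, x2), ∀ z ∈ X, (z ≠ q 1 ∧ z ≠ q 5) →
      0 < orient o.1 o.2 z * orient (q 1) (q 5) z := by
    refine ev_all (F := fun z o => orient o.1 o.2 z * orient (q 1) (q 5) z)
      (fun z => by unfold orient; fun_prop) ?_
    rintro z hz ⟨z0, z4⟩
    show 0 < orient x1 x2 z * orient (q 1) (q 5) z
    rw [x1e', x2e, orient_two, mul_assoc]
    exact mul_pos (by linarith) (nz z hz 1 5 (by omega) (by omega) z0 z4)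
  have G4 : ∀ᶠ o : Pt × Pt in 𝓝 (x1, x2), ∀ z ∈ X, (z ≠ q 1 ∧ z ≠ q 5) →
      0 < orient (q 1) o.1 z * orient (q 1) (q 5) z := by
    refine ev_all (F := fun z o => orient (q 1) o.1 z * orient (q 1) (q 5) z)
      (fun z => by unfold orient; fun_prop) ?_
    rintro z hz ⟨z0, z4⟩
    show 0 < orient (q 1) x1 z * orient (q 1) (q 5) z
    rw [x1e', orient_comb2, orient_self, mul_zero, zero_add, mul_assoc]
    exact mul_pos t10 (nz z hz 1 5 (by omega) (by omega) z0 z4)
  have G5 : ∀ᶠ o : Pt × Pt in 𝓝 (x1, x2), ∀ z ∈ X, (z ≠ q 1 ∧ z ≠ q 5) →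
      0 < orient (q 1) o.2 z * orient (q 1) (q 5) z := by
    refine ev_all (F := fun z o => orient (q 1) o.2 z * orient (q 1) (q 5) z)
      (fun z => by unfold orient; fun_prop) ?_
    rintro z hz ⟨z0, z4⟩
    show 0 < orient (q 1) x2 z * orient (q 1) (q 5) z
    rw [x2e, orient_comb2, orient_self, mul_zero, zero_add, mul_assoc]
    exact mul_pos t20 (nz z hz 1 5 (by omega) (by omega) z0 z4)
  have G6 : ∀ᶠ o : Pt × Pt in 𝓝 (x1, x2), ∀ z ∈ X, (z ≠ q 1 ∧ z ≠ q 5) →
      0 < orient o.1 (q 5) z * orient (q 1) (q 5) z := by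
    refine ev_all (F := fun z o => orient o.1 (q 5) z * orient (q 1) (q 5) z)
      (fun z => by unfold orient; fun_prop) ?_
    rintro z hz ⟨z0, z4⟩
    show 0 < orient x1 (q 5) z * orient (q 1) (q 5) z
    rw [x1e', orient_comb1, orient_self, mul_zero, add_zero, mul_assoc]
    exact mul_pos (by linarith) (nz z hz 1 5 (by omega) (by omega) z0 z4)
  have G7 : ∀ᶠ o : Pt × Pt in 𝓝 (x1, x2), ∀ z ∈ X, (z ≠ q 1 ∧ z ≠ q 5) →
      0 < orient o.2 (q 5) z * orient (q 1) (q 5) z := by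
    refine ev_all (F := fun z o => orient o.2 (q 5) z * orient (q 1) (q 5) z)
      (fun z => by unfold orient; fun_prop) ?_
    rintro z hz ⟨z0, z4⟩
    show 0 < orient x2 (q 5) z * orient (q 1) (q 5) z
    rw [x2e, orient_comb1, orient_self, mul_zero, add_zero, mul_assoc]
    exact mul_pos (by linarith) (nz z hz 1 5 (by omega) (by omega) z0 z4)
  have G8 : ∀ᶠ o : Pt × Pt in 𝓝 (x1, x2), ∀ z ∈ X, (z ≠ q 2 ∧ z ≠ q 6) →
      0 < orient o.2 (q 6) z * orient (q 2) (q 6) z := by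
    refine ev_all (F := fun z o => orient o.2 (q 6) z * orient (q 2) (q 6) z)
      (fun z => by unfold orient; fun_prop) ?_
    rintro z hz ⟨z0, z4⟩
    show 0 < orient x2 (q 6) z * orient (q 2) (q 6) z
    rw [x2e', orient_comb1, orient_self, mul_zero, add_zero, mul_assoc]
    exact mul_pos (by linarith) (nz z hz 2 6 (by omega) (by omega) z0 z4)
  have G9 : ∀ᶠ o : Pt × Pt in 𝓝 (x1, x2), ∀ z ∈ X, (z ≠ q 2 ∧ z ≠ q 6) →
      0 < orient (q 2) o.2 z * orient (q 2) (q 6) z := by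
    refine ev_all (F := fun z o => orient (q 2) o.2 z * orient (q 2) (q 6) z)
      (fun z => by unfold orient; fun_prop) ?_
    rintro z hz ⟨z0, z4⟩
    show 0 < orient (q 2) x2 z * orient (q 2) (q 6) z
    rw [x2e', orient_comb2, orient_self, mul_zero, zero_add, mul_assoc]
    exact mul_pos m20 (nz z hz 2 6 (by omega) (by omega) z0 z4)
  have D1 : ∀ᶠ o : Pt × Pt in 𝓝 (x1, x2), 0 < orient (q 0) o.1 o.2 := by
    refine ev (f := fun o => orient (q 0) o.1 o.2) (by unfold orient; fun_prop) ?_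
    show 0 < orient (q 0) x1 x2
    have : orient (q 0) x1 x2 = l1 * orient (q 0) (q 4) x2 := by
      rw [x1e, orient_comb2, orient_self, mul_zero, zero_add]
    rw [this]
    exact mul_pos l10 Ax2
  have D2 : ∀ᶠ o : Pt × Pt in 𝓝 (x1, x2), 0 < orient o.1 o.2 (q 6) := by
    refine ev (f := fun o => orient o.1 o.2 (q 6)) (by unfold orient; fun_prop) ?_
    show 0 < orient x1 x2 (q 6)
    rw [x1e', x2e, orient_two]
    exact mul_pos (by linarith) B6
  have D3 : ∀ᶠ o : Pt × Pt in 𝓝 (x1, x2), 0 < orient (q 0) o.1 (q 6) := by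
    refine ev (f := fun o => orient (q 0) o.1 (q 6)) (by unfold orient; fun_prop) ?_
    show 0 < orient (q 0) x1 (q 6)
    rw [x1e, orient_comb2, orient_self, mul_zero, zero_add]
    exact mul_pos l10 A6
  have D4 : ∀ᶠ o : Pt × Pt in 𝓝 (x1, x2), 0 < orient (q 0) o.2 (q 6) := by
    refine ev (f := fun o => orient (q 0) o.2 (q 6)) (by unfold orient; fun_prop) ?_
    show 0 < orient (q 0) x2 (q 6)
    rw [x2e', orient_comb2, orient_right, mul_zero, add_zero]
    exact mul_pos (by linarith) (hq 0 2 6 (by omega) (by omega) (by omega))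
  have E3 : ∀ᶠ o : Pt × Pt in 𝓝 (x1, x2), 0 < orient (q 2) (q 6) o.1 :=
    ev (f := fun o => orient (q 2) (q 6) o.1) (by unfold orient; fun_prop) Cx1
  have E4 : ∀ᶠ o : Pt × Pt in 𝓝 (x1, x2), 0 < orient (q 0) (q 4) o.2 :=
    ev (f := fun o => orient (q 0) (q 4) o.2) (by unfold orient; fun_prop) Ax2
  have X1 : ∀ᶠ o : Pt × Pt in 𝓝 (x1, x2),
      0 < -(orient (q 0) o.2 (q 1) + orient o.1 (q 0) (q 1)) := by
    refine ev (f := fun o => -(orient (q 0) o.2 (q 1) + orient o.1 (q 0) (q 1)))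
      (by unfold orient; fun_prop) ?_
    show 0 < -(orient (q 0) x2 (q 1) + orient x1 (q 0) (q 1))
    rw [x1e', x2e, orient_comb2, orient_comb1]
    have e1 : orient (q 0) (q 5) (q 1) = -orient (q 0) (q 1) (q 5) := orient_swap' _ _ _
    have e2 : orient (q 5) (q 0) (q 1) = orient (q 0) (q 1) (q 5) := by unfold orient; ring
    have e3 := hq 0 1 5 (by omega) (by omega) (by omega)
    rw [orient_right, orient_left, e1, e2]
    have : 0 < (t2 - t1) * orient (q 0) (q 1) (q 5) := mul_pos (by linarith) e3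
    linarith
  have X2 : ∀ᶠ o : Pt × Pt in 𝓝 (x1, x2),
      0 < -(orient (q 0) o.2 (q 5) + orient o.1 (q 0) (q 5)) := by
    refine ev (f := fun o => -(orient (q 0) o.2 (q 5) + orient o.1 (q 0) (q 5)))
      (by unfold orient; fun_prop) ?_
    show 0 < -(orient (q 0) x2 (q 5) + orient x1 (q 0) (q 5))
    rw [x1e', x2e, orient_comb2, orient_comb1]
    have e1 : orient (q 1) (q 0) (q 5) = -orient (q 0) (q 1) (q 5) := orient_swap _ _ _
    have e3 := hq 0 1 5 (by omega) (by omega) (by omega)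
    rw [orient_right, orient_left, e1]
    have : 0 < (t2 - t1) * orient (q 0) (q 1) (q 5) := mul_pos (by linarith) e3
    linarith
  have H1 : ∀ᶠ o : Pt × Pt in 𝓝 (x1, x2), ∀ j, 0 < orient (e j) (f j) o.1 := by
    refine Filter.eventually_all.2 fun j => ?_
    refine ev (f := fun o => orient (e j) (f j) o.1) (by unfold orient; fun_prop) ?_
    show 0 < orient (e j) (f j) x1
    rw [x1e, orient_comb3]
    have k0 := hE j _ (hm 0 (by omega))
    have k4 := hE j _ (hm 4 (by omega))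
    have k := hE0 j
    rcases k0.lt_or_eq with k1 | k1
    · have := mul_pos (sub_pos.2 l11) k1
      have := mul_nonneg l10.le k4
      linarith
    · have k2 : 0 < orient (e j) (f j) (q 4) := by linarith
      have := mul_nonneg (sub_nonneg.2 l11.le) k0
      have := mul_pos l10 k2
      linarith
  have H2 : ∀ᶠ o : Pt × Pt in 𝓝 (x1, x2), ∀ j, 0 < orient (e j) (f j) o.2 := by
    refine Filter.eventually_all.2 fun j => ?_
    refine ev (f := fun o => orient (e j) (f j) o.2) (by unfold orient; fun_prop) ?_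
    show 0 < orient (e j) (f j) x2
    rw [x2e, orient_comb3]
    have k0 := hE j _ (hm 1 (by omega))
    have k4 := hE j _ (hm 5 (by omega))
    have k := hE1 j
    rcases k0.lt_or_eq with k1 | k1
    · have := mul_pos (sub_pos.2 t21) k1
      have := mul_nonneg t20.le k4
      linarith
    · have k2 : 0 < orient (e j) (f j) (q 5) := by linarith
      have := mul_nonneg (sub_nonneg.2 t21.le) k0
      have := mul_pos t20 k2
      linarith
  have ALL := ((((((G1.and G2).and (G3.and G4)).and ((G5.and G6).and (G7.and G8))).and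
    ((G9.and D1).and (D2.and D3))).and ((D4.and E3).and (E4.and X1))).and
      (X2.and (H1.and H2))).eventually_nhds
  -- the pushed points
  set v1 : Pt := (1 / orient (q 1) (q 5) (q 0)) • (q 0 - x1) + (q 5 - q 1) with hv1
  set v2 : Pt := (1 / orient (q 1) (q 5) (q 6)) • (q 6 - x2) + (q 1 - q 5) with hv2
  have hγ : Tendsto (fun ε : ℝ => ((x1 + ε • v1, x2 + ε • v2) : Pt × Pt)) (𝓝[>] 0)
      (𝓝 (x1, x2)) := by
    have hc : Continuous (fun ε : ℝ => ((x1 + ε • v1, x2 + ε • v2) : Pt × Pt)) := by fun_prop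
    have h3 := (hc.tendsto 0).mono_left (nhdsWithin_le_nhds (s := Set.Ioi (0 : ℝ)))
    simpa using h3
  have hpos : ∀ᶠ ε : ℝ in 𝓝[>] 0, 0 < ε := self_mem_nhdsWithin
  obtain ⟨ε, hε, ALLε⟩ := (hpos.and (hγ.eventually ALL)).exists
  have By1 : orient (q 1) (q 5) (x1 + ε • v1) = ε := by
    rw [hv1, orient_push, Bx1, sub_zero, div_self B0.ne']
    simp
  have By2 : orient (q 1) (q 5) (x2 + ε • v2) = ε := by
    rw [hv2, orient_push, Bx2, sub_zero, div_self B6.ne']
    simp
  have Ay1 : 0 < orient (q 0) (q 4) (x1 + ε • v1) := by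
    rw [hv1, orient_push, Ax1]
    simp only [orient_left, sub_zero, zero_div, zero_add]
    exact mul_pos hε (by linarith)
  have Cy2 : 0 < orient (q 2) (q 6) (x2 + ε • v2) := by
    rw [hv2, orient_push, Cx2]
    simp only [orient_right, sub_zero, zero_div, zero_add]
    exact mul_pos hε (by linarith)
  set y1 := x1 + ε • v1 with hy1
  set y2 := x2 + ε • v2 with hy2
  have VX1 : 0 < -(orient (q 0) y2 (q 1) + orient y1 (q 0) (q 1)) := ALLε.self_of_nhds.1.2.2.2
  have VX2 : 0 < -(orient (q 0) y2 (q 5) + orient y1 (q 0) (q 5)) := ALLε.self_of_nhds.2.1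
  have N1 : 0 < -orient y1 y2 (q 1) := by
    have k := (aff_orient (q 1) (q 5)).bary y1 y2 (q 1) (q 0)
    simp only [By1, By2, orient_left, zero_mul, add_zero] at k
    have k2 : 0 < orient (q 1) (q 5) (q 0) * (-orient y1 y2 (q 1)) := by
      have : orient (q 1) (q 5) (q 0) * (-orient y1 y2 (q 1)) =
          ε * -(orient (q 0) y2 (q 1) + orient y1 (q 0) (q 1)) := by linear_combination -k
      rw [this]
      exact mul_pos hε VX1
    exact (pos_iff_pos_of_mul_pos k2).1 B0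
  have N2 : 0 < -orient y1 y2 (q 5) := by
    have k := (aff_orient (q 1) (q 5)).bary y1 y2 (q 5) (q 0)
    simp only [By1, By2, orient_right, zero_mul, add_zero] at k
    have k2 : 0 < orient (q 1) (q 5) (q 0) * (-orient y1 y2 (q 5)) := by
      have : orient (q 1) (q 5) (q 0) * (-orient y1 y2 (q 5)) =
          ε * -(orient (q 0) y2 (q 5) + orient y1 (q 0) (q 5)) := by linear_combination -k
      rw [this]
      exact mul_pos hε VX2
    exact (pos_iff_pos_of_mul_pos k2).1 B0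
  have J1 : ∀ᶠ o : Pt × Pt in 𝓝 (y1, y2), 0 < orient (q 0) (q 4) o.1 :=
    ev (f := fun o => orient (q 0) (q 4) o.1) (by unfold orient; fun_prop) Ay1
  have J2 : ∀ᶠ o : Pt × Pt in 𝓝 (y1, y2), 0 < orient (q 1) (q 5) o.1 :=
    ev (f := fun o => orient (q 1) (q 5) o.1) (by unfold orient; fun_prop)
      (by show 0 < orient (q 1) (q 5) y1; rw [By1]; exact hε)
  have J3 : ∀ᶠ o : Pt × Pt in 𝓝 (y1, y2), 0 < orient (q 1) (q 5) o.2 :=
    ev (f := fun o => orient (q 1) (q 5) o.2) (by unfold orient; fun_prop)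
      (by show 0 < orient (q 1) (q 5) y2; rw [By2]; exact hε)
  have J4 : ∀ᶠ o : Pt × Pt in 𝓝 (y1, y2), 0 < orient (q 2) (q 6) o.2 :=
    ev (f := fun o => orient (q 2) (q 6) o.2) (by unfold orient; fun_prop) Cy2
  have J5 : ∀ᶠ o : Pt × Pt in 𝓝 (y1, y2), 0 < -orient o.1 o.2 (q 1) :=
    ev (f := fun o => -orient o.1 o.2 (q 1)) (by unfold orient; fun_prop) N1
  have J6 : ∀ᶠ o : Pt × Pt in 𝓝 (y1, y2), 0 < -orient o.1 o.2 (q 5) :=
    ev (f := fun o => -orient o.1 o.2 (q 5)) (by unfold orient; fun_prop) N2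
  obtain ⟨o1, o2, ⟨⟨⟨⟨⟨⟨⟨g1, g2⟩, ⟨g3, g4⟩⟩, ⟨⟨g5, g6⟩, ⟨g7, g8⟩⟩⟩, ⟨⟨g9, d1⟩, ⟨d2, d3⟩⟩⟩,
    ⟨⟨d4, e3⟩, ⟨e4, -⟩⟩⟩, ⟨-, ⟨h1, h2'⟩⟩⟩, ⟨⟨j1, j2⟩, ⟨⟨j3, j4⟩, ⟨j5, j6⟩⟩⟩⟩,
    n1, n2, ge1, ge2, ggp⟩ := gen2 gp h2
      (ALLε.and ((J1.and J2).and ((J3.and J4).and (J5.and J6))))
  replace j1 : 0 < orient (q 0) (q 4) o1 := j1
  replace j4 : 0 < orient (q 2) (q 6) o2 := j4
  replace j5 : 0 < -orient o1 o2 (q 1) := j5
  replace j6 : 0 < -orient o1 o2 (q 5) := j6
  refine ⟨o1, o2,
    { n1 := n1, n2 := n2, gen1 := ge1, gen2 := ge2, gp := ggp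
      a1 := fun z hz h1 h2 => g1 z hz ⟨h1, h2⟩
      a2 := by rw [orient_swap']; linarith
      a3 := fun z hz h1 h2 => g2 z hz ⟨h1, h2⟩
      b1 := fun z hz h1 h2 => g3 z hz ⟨h1, h2⟩
      b2 := by linarith
      b3 := by linarith
      b4 := fun z hz h1 h2 => g4 z hz ⟨h1, h2⟩
      b5 := fun z hz h1 h2 => g5 z hz ⟨h1, h2⟩
      b6 := fun z hz h1 h2 => g6 z hz ⟨h1, h2⟩
      b7 := fun z hz h1 h2 => g7 z hz ⟨h1, h2⟩
      c1 := fun z hz h1 h2 => g8 z hz ⟨h1, h2⟩
      c2 := by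
        have : orient o2 (q 6) (q 2) = -orient (q 2) (q 6) o2 := by unfold orient; ring
        rw [this]; linarith
      c3 := fun z hz h1 h2 => g9 z hz ⟨h1, h2⟩
      d1 := d1, d2 := d2, d3 := d3, d4 := d4, e1 := j1, e2 := j2, e3 := e3, e4 := e4
      e5 := j3, e6 := j4 }, fun j => ⟨h1 j, h2' j⟩⟩

section three

variable {X : Finset Pt} {h : ℕ} {p a c : ZMod h → Pt}

lemma hull_nonneg (W : RingS0 X h p a c) (j : ZMod h) {z : Pt} (hz : z ∈ X) :
    0 ≤ orient (p j) (p (j + 1)) z := by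
  by_cases h1 : z = p j
  · rw [h1]; simp
  by_cases h2 : z = p (j + 1)
  · rw [h2]; simp
  exact (W.hull j z hz h1 h2).le

/-- A chord which is not a hull edge is on the inner side of every hull edge. -/
lemma hull_sum (W : RingS0 X h p a c) (i : ZMod h) {s t : ℕ} (h1 : s + 1 < t) (h2 : t + 1 < s + h)
    (j : ZMod h) : 0 < orient (p j) (p (j + 1)) (p (i + (s : ZMod h))) +
      orient (p j) (p (j + 1)) (p (i + (t : ZMod h))) := by
  have k1 := hull_nonneg W j (W.pX (i + (s : ZMod h)))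
  have k2 := hull_nonneg W j (W.pX (i + (t : ZMod h)))
  rcases k1.lt_or_eq with k3 | k3
  · linarith
  rcases k2.lt_or_eq with k4 | k4
  · linarith
  exfalso
  have hne := pne_gen W i (j := s) (k := t) (by omega) (by omega)
  have m1 : p (i + (s : ZMod h)) = p j ∨ p (i + (s : ZMod h)) = p (j + 1) := by
    by_contra hcon
    rw [not_or] at hcon
    exact absurd k3.symm (W.hull j _ (W.pX _) hcon.1 hcon.2).ne'
  have m2 : p (i + (t : ZMod h)) = p j ∨ p (i + (t : ZMod h)) = p (j + 1) := by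
    by_contra hcon
    rw [not_or] at hcon
    exact absurd k4.symm (W.hull j _ (W.pX _) hcon.1 hcon.2).ne'
  rcases m1 with m1 | m1 <;> rcases m2 with m2 | m2
  · exact hne (m1.trans m2.symm)
  · have e1 := W.pinj m1
    have e2 := W.pinj m2
    have hne2 := pne_gen W i (j := s + 1) (k := t) (by omega) (by omega)
    apply hne2
    rw [e2, ← e1]
    congr 1
    push_cast
    ring
  · have e1 := W.pinj m1
    have e2 := W.pinj m2
    have hne2 := pne_gen W i (j := t + 1) (k := s + h) (by omega) (by omega)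
    apply hne2
    have e3 : i + ((t + 1 : ℕ) : ZMod h) = i + ((s + h : ℕ) : ZMod h) := by
      push_cast
      rw [ZMod.natCast_self, add_zero, e1, ← add_assoc, e2]
    rw [e3]
  · exact hne (m1.trans m2.symm)

/-- Three consecutive chords over four edges. -/
theorem three_chords (W : RingS0 X h p a c) (i : ZMod h) (hh : 6 < h) :
    (∃ o1 o2, ThreeN X (fun j => p (i + (j : ZMod h))) o1 o2 ∧
      ∀ j, 0 < orient (p j) (p (j + 1)) o1 ∧ 0 < orient (p j) (p (j + 1)) o2) ∨
    (∀ o, 0 < orient (p i) (p (i + 4)) o → 0 < orient (p (i + 2)) (p (i + 6)) o →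
      0 < orient (p (i + 1)) (p (i + 5)) o) := by
  have : NeZero h := ⟨by omega⟩
  set q : ℕ → Pt := fun j => p (i + (j : ZMod h)) with hq
  have q0 : q 0 = p i := by rw [hq]; simp
  have q1 : q 1 = p (i + 1) := by rw [hq]; simp
  have q2 : q 2 = p (i + 2) := by rw [hq]; simp
  have q4 : q 4 = p (i + 4) := by rw [hq]; simp
  have q5 : q 5 = p (i + 5) := by rw [hq]; simp
  have q6 : q 6 = p (i + 6) := by rw [hq]; simp
  have cv : ∀ s t u, s < t → t < u → u ≤ 6 → 0 < orient (q s) (q t) (q u) :=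
    fun s t u h1 h2 h3 => conv_gen W i h1 h2 (by omega)
  rcases lt_or_ge 0 (orient (q 2) (q 6) (q 1) * orient (q 0) (q 4) (q 5) -
      orient (q 2) (q 6) (q 5) * orient (q 0) (q 4) (q 1)) with hD | hD
  · left
    exact chord_N W.gp (q := q) (e := p) (f := fun j => p (j + 1))
      (fun j => hull_sum W i (s := 0) (t := 4) (by omega) (by omega) j)
      (fun j => hull_sum W i (s := 1) (t := 5) (by omega) (by omega) j)
      (fun j z hz => hull_nonneg W j hz) (fun s _ => W.pX _) cv hD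
  · right
    intro o hA hC
    rw [← q0, ← q4] at hA
    rw [← q2, ← q6] at hC
    rw [← q1, ← q5]
    refine chord_R ?_ (cv 0 4 5 (by omega) (by omega) (by omega)) ?_ ?_ ?_ ?_ hD hA hC
    · have := cv 0 1 4 (by omega) (by omega) (by omega)
      rw [orient_swap'] at this
      linarith
    · rw [orient_cyc]; exact cv 1 2 6 (by omega) (by omega) (by omega)
    · have := cv 2 5 6 (by omega) (by omega) (by omega)
      rw [orient_swap'] at this
      linarith
    · rw [orient_cyc]; exact cv 0 2 6 (by omega) (by omega) (by omega)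
    · rw [orient_cyc]; exact cv 0 1 5 (by omega) (by omega) (by omega)

end three

end Geo

end Pool.Agent.GCP
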