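import Pool.Agent.GCP.UData
import Pool.Agent.GCP.GeoThree

/-!
# The labelled patch of three chords (MP_062f91_co)
-/

namespace Pool.Agent.GCP

namespace Geo

/-- Seven consecutive hull vertices `q 0, ..., q 6` and the points `α j` of the edges. -/
structure QA (X : Finset Pt) (q α : ℕ → Pt) : Prop where
  gp : GeneralPosition X
  mem : ∀ j, q j ∈ X
  cv : ∀ j k l, j < k → k < l → l ≤ 6 → 0 < orient (q j) (q k) (q l)
  hull : ∀ j, ∀ z ∈ X, z ≠ q j → z ≠ q (j + 1) → 0 < orient (q j) (q (j + 1)) z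
  am : ∀ j, α j ∈ X
  aq : ∀ j k, α j ≠ q k
  a1 : ∀ j, ∀ z ∈ X, z ≠ q j → z ≠ q (j + 1) → z ≠ α j → 0 < orient (q j) (α j) z
  a2 : ∀ j, ∀ z ∈ X, z ≠ q j → z ≠ q (j + 1) → z ≠ α j → orient (q (j + 1)) (α j) z < 0
  an : ∀ j, orient (q j) (q (j + 2)) (α (j + 1)) < 0
  am0 : orient (q 0) (q 2) (α 0) < 0
  ns : ∀ j' j k k', j' ≤ j → j < k → k ≤ k' → k' ≤ 6 → ∀ z ∈ X, orient (q j) (q k) z < 0 →
    orient (q j') (q k') z < 0
  n3 : ∀ j, nr X (q j) (q (j + 2)) = 3
  n6 : ∀ j, nr X (q j) (q (j + 3)) = 6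
  n10 : ∀ j, nr X (q j) (q (j + 4)) = 10

/-- The labels of the patch of three chords. -/
structure Lab3 (X : Finset Pt) (q α : ℕ → Pt) (o1 o2 : Pt) (r s : ℕ) (P : ℕ → Pt) : Prop where
  inj : ∀ x y, x < 14 + r + s → y < 14 + r + s → x ≠ y → P x ≠ P y
  mem : ∀ x, x < 14 + r + s → P x ∈ X
  P0 : P 0 = q 0
  P1 : P 1 = q 1
  P2 : P 2 = α 0
  P3 : P 3 = α 1
  P4 : P 4 = q 2
  P7 : P 7 = q 3
  P11 : P 11 = q 4
  P5 : P (12 + r) = q 5
  P6 : P (13 + r + s) = q 6
  Po1 : P (14 + r + s) = o1
  Po2 : P (15 + r + s) = o2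
  srt : ∀ x y, 1 ≤ x → x < y → y ≤ 11 → 0 < orient (P 0) (P x) (P y)
  hB : ∀ x, 12 ≤ x → x < 12 + r → orient (q 1) (q 5) (P x) < 0 ∧ 0 < orient (q 0) (q 4) (P x)
  hC : ∀ x, 13 + r ≤ x → x < 13 + r + s → orient (q 2) (q 6) (P x) < 0 ∧
    0 < orient (q 1) (q 5) (P x) ∧ 0 < orient (q 0) (q 4) (P x)
  cov : ∀ z ∈ X, (∀ x < 14 + r + s, z ≠ P x) → 0 < orient (q 0) (q 4) z ∧
    0 < orient (q 1) (q 5) z ∧ 0 < orient (q 2) (q 6) z

/-- Both bounds for the number of labels beyond a line. -/
lemma ub_card {X : Finset Pt} {P : ℕ → Pt} {rl : List ℕ} {x y k : ℕ}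
    (hinj : ∀ i ∈ rl, ∀ j ∈ rl, i ≠ j → P i ≠ P j) (hmem : ∀ i ∈ rl, P i ∈ X)
    (hnr : nr X (P x) (P y) = k)
    (hcov : ∀ z ∈ X, orient (P x) (P y) z < 0 → ∃ i ∈ rl, P i = z) :
    ∀ f ∈ UDt.card rl x y k, ∀ I : Finset ℕ,
      (∀ i ∈ I, i ∈ f.2.2.2 ∧ orient (P f.1) (P f.2.1) (P i) < 0) → I.card ≤ f.2.2.1 := by
  classical
  have hsub : ∀ I : Finset ℕ, (∀ i ∈ I, i ∈ UDt.ex rl [x, y] ∧ orient (P x) (P y) (P i) < 0) →
      I.card ≤ k := by
    intro I hI
    rw [← hnr]
    unfold nr
    rw [← Finset.card_image_of_injOn (s := I) (f := P)]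
    · apply Finset.card_le_card
      intro z hz
      obtain ⟨i, hi, rfl⟩ := Finset.mem_image.1 hz
      have := hI i hi
      exact Finset.mem_filter.2 ⟨hmem i (UDt.mem_ex.1 this.1).1, this.2⟩
    · intro i hi j hj hij
      by_contra hne
      exact hinj i (UDt.mem_ex.1 (hI i hi).1).1 j (UDt.mem_ex.1 (hI j hj).1).1 hne hij
  intro f hf I hI
  simp only [UDt.card, List.mem_cons, List.not_mem_nil, or_false] at hf
  rcases hf with rfl | rfl
  · exact hsub I hI
  · set J := (UDt.ex rl [x, y]).toFinset.filter (fun i => orient (P x) (P y) (P i) < 0) with hJ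
    have h1 : k ≤ J.card := by
      rw [← hnr]
      unfold nr
      refine (Finset.card_le_card ?_).trans (Finset.card_image_le (s := J) (f := P))
      intro z hz
      obtain ⟨z1, z2⟩ := Finset.mem_filter.1 hz
      obtain ⟨i, hi, rfl⟩ := hcov z z1 z2
      refine Finset.mem_image.2 ⟨i, Finset.mem_filter.2 ⟨?_, z2⟩, rfl⟩
      rw [List.mem_toFinset, UDt.mem_ex]
      refine ⟨hi, ?_⟩
      simp only [List.mem_cons, List.not_mem_nil, or_false, not_or]
      constructor
      · rintro rfl; simp at z2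
      · rintro rfl; simp at z2
    have h2 : Disjoint I J := by
      rw [Finset.disjoint_left]
      intro i hi hi'
      have h3 := (hI i hi).2
      have h4 := (Finset.mem_filter.1 hi').2
      simp only at h3
      rw [orient_swap] at h3
      linarith
    have h3 : I ∪ J ⊆ (UDt.ex rl [x, y]).toFinset := by
      intro i hi
      rcases Finset.mem_union.1 hi with hi | hi
      · exact List.mem_toFinset.2 (hI i hi).1
      · exact (Finset.mem_filter.1 hi).1
    have h4 := Finset.card_le_card h3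
    rw [Finset.card_union_of_disjoint h2] at h4
    have h5 := List.toFinset_card_le (UDt.ex rl [x, y])
    show I.card ≤ (UDt.ex rl [x, y]).length - k
    omega

section

variable {X : Finset Pt} {q α : ℕ → Pt} {o1 o2 : Pt} {r s : ℕ} {P : ℕ → Pt}

lemma Lab3.o1n (hT : ThreeN X q o1 o2) {z : Pt} (hz : z ∈ X) : z ≠ o1 := by
  rintro rfl; exact hT.n1 hz

lemma Lab3.genP (hT : ThreeN X q o1 o2) (L : Lab3 X q α o1 o2 r s P) :
    GenP (16 + r + s) P := by
  classical
  have hm : ∀ x, x < 16 + r + s → P x ∈ insert o2 (insert o1 X) := by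
    intro x hx
    rcases Nat.lt_or_ge x (14 + r + s) with h | h
    · exact Finset.mem_insert_of_mem (Finset.mem_insert_of_mem (L.mem x h))
    · rcases (show x = 14 + r + s ∨ x = 15 + r + s by omega) with rfl | rfl
      · rw [L.Po1]; exact Finset.mem_insert_of_mem (Finset.mem_insert_self _ _)
      · rw [L.Po2]; exact Finset.mem_insert_self _ _
  have h2 : ∀ x, x < 14 + r + s → P x ≠ o2 := by
    intro x hx e
    have := L.mem x hx
    rw [e] at this
    exact hT.n2 (Finset.mem_insert_of_mem this)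
  have h12 : o1 ≠ o2 := by
    rintro rfl
    exact hT.n2 (Finset.mem_insert_self _ _)
  have hinj : ∀ i j, i < 16 + r + s → j < 16 + r + s → i ≠ j → P i ≠ P j := by
    have key : ∀ i j, i < j → j < 16 + r + s → P i ≠ P j := by
      intro i j hij hj
      rcases Nat.lt_or_ge j (14 + r + s) with h | h
      · exact L.inj i j (by omega) h (by omega)
      · rcases (show j = 14 + r + s ∨ j = 15 + r + s by omega) with rfl | rfl
        · rw [L.Po1]; exact Lab3.o1n hT (L.mem i hij)
        · rw [L.Po2]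
          rcases Nat.lt_or_ge i (14 + r + s) with h' | h'
          · exact h2 i h'
          · rw [show i = 14 + r + s by omega, L.Po1]; exact h12
    intro i j hi hj hij
    rcases Nat.lt_or_ge i j with h | h
    · exact key i j h hj
    · exact (key j i (by omega) hi).symm
  refine ⟨hinj, ?_⟩
  intro i j k hi hj hk h1 h2 h3
  exact orient_ne hT.gp (hm i hi) (hm j hj) (hm k hk) (hinj i j hi hj h1) (hinj j k hj hk h2)
    (hinj i k hi hk h3)

/-- The patch of three chords. -/
theorem upatch_N3 (Q : QA X q α) (hT : ThreeN X q o1 o2)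
    (hin : ∀ j, 0 < orient (q j) (q (j + 1)) o1 ∧ 0 < orient (q j) (q (j + 1)) o2)
    (L : Lab3 X q α o1 o2 r s P) : UPatch (UDt.dN3 r s) P X := by
  classical
  have G := L.genP hT
  -- signs with respect to the hull edges
  have hh : ∀ j x, x < 16 + r + s → P x ≠ q j → P x ≠ q (j + 1) →
      0 < orient (q j) (q (j + 1)) (P x) := by
    intro j x hx h1 h2
    rcases Nat.lt_or_ge x (14 + r + s) with h | h
    · exact Q.hull j _ (L.mem x h) h1 h2
    · rcases (show x = 14 + r + s ∨ x = 15 + r + s by omega) with rfl | rfl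
      · rw [L.Po1]; exact (hin j).1
      · rw [L.Po2]; exact (hin j).2
  have hmr : ∀ i ∈ List.range (14 + r + s), P i ∈ X := fun i hi => L.mem i (List.mem_range.1 hi)
  have hir : ∀ i ∈ List.range (14 + r + s), ∀ j ∈ List.range (14 + r + s), i ≠ j →
      P i ≠ P j := fun i hi j hj => L.inj i j (List.mem_range.1 hi) (List.mem_range.1 hj)
  -- covering
  have hcov : ∀ z ∈ X, (orient (q 0) (q 4) z < 0 ∨ orient (q 1) (q 5) z < 0 ∨
      orient (q 2) (q 6) z < 0) → ∃ i ∈ List.range (14 + r + s), P i = z := by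
    intro z hz h
    by_contra hcon
    push Not at hcon
    have := L.cov z hz (fun x hx e => hcon x (List.mem_range.2 hx) e.symm)
    rcases h with h | h | h
    · linarith [this.1]
    · linarith [this.2.1]
    · linarith [this.2.2]
  have hsgn : ∀ j k, (j = 0 ∧ k = 4) ∨ (j = 1 ∧ k = 5) ∨ (j = 2 ∧ k = 6) →
      ∀ j' k', j ≤ j' → j' < k' → k' ≤ k → ∀ z ∈ X, orient (q j') (q k') z < 0 →
        ∃ i ∈ List.range (14 + r + s), P i = z := by
    intro j k hjk j' k' h1 h2 h3 z hz h
    apply hcov z hz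
    have := Q.ns j j' k' k h1 h2 h3 (by omega) z hz h
    rcases hjk with ⟨rfl, rfl⟩ | ⟨rfl, rfl⟩ | ⟨rfl, rfl⟩
    · exact Or.inl this
    · exact Or.inr (Or.inl this)
    · exact Or.inr (Or.inr this)
  have hcv : ∀ j k l, j < k → k < l → l ≤ 6 → 0 < orient (q j) (q k) (q l) := Q.cv
  refine
    { gpX := Q.gp
      gen := G
      rlt := ?_
      clt := ?_
      real := hmr
      end0 := ?_
      endV := ?_
      in0 := ?_
      inV := ?_
      conv := ?_
      out := ?_
      near := ?_
      gch := ?_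
      row := ?_
      ub := ?_
      fa := ?_
      eqq := ?_ }
  · intro i hi
    have := List.mem_range.1 hi
    show i < 16 + r + s
    omega
  · intro i hi
    simp only [UDt.dN3, List.mem_cons, List.not_mem_nil, or_false] at hi
    show i < 16 + r + s
    omega
  · intro x hx
    show 0 ≤ orient (P 0) (P 1) x
    rw [L.P0, L.P1]
    by_cases h1 : x = q 0
    · rw [h1]; simp
    by_cases h2 : x = q (0 + 1)
    · rw [h2]; simp
    exact (Q.hull 0 x hx h1 h2).le
  · intro x hx
    show 0 ≤ orient (P (12 + r)) (P (13 + r + s)) x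
    rw [L.P5, L.P6]
    by_cases h1 : x = q 5
    · rw [h1]; simp
    by_cases h2 : x = q (5 + 1)
    · rw [h2]; simp
    exact (Q.hull 5 x hx h1 h2).le
  · show 0 < orient (P 0) (P 1) (P (14 + r + s))
    rw [L.P0, L.P1, L.Po1]
    exact (hin 0).1
  · show 0 < orient (P (12 + r)) (P (13 + r + s)) (P (15 + r + s))
    rw [L.P5, L.P6, L.Po2]
    exact (hin 5).2
  · intro i hi
    have hi' : i + 2 ≤ 3 := hi
    rcases (show i = 0 ∨ i = 1 by omega) with rfl | rfl
    · show 0 < orient (P 0) (P (14 + r + s)) (P (15 + r + s))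
      rw [L.P0, L.Po1, L.Po2]
      exact hT.d1
    · show 0 < orient (P (14 + r + s)) (P (15 + r + s)) (P (13 + r + s))
      rw [L.P6, L.Po1, L.Po2]
      exact hT.d2
  · intro x hx hun i hi
    have hi' : i < 3 := hi
    have hun' : ∀ y < 14 + r + s, x ≠ P y := fun y hy => hun y (List.mem_range.2 hy)
    obtain ⟨u1, u2, u3⟩ := L.cov x hx hun'
    rcases (show i = 0 ∨ i = 1 ∨ i = 2 by omega) with rfl | rfl | rfl
    · show 0 < orient (P 0) (P (14 + r + s)) x
      rw [L.P0, L.Po1]
      exact (pos_iff_pos_of_mul_pos (hT.a1 x hx (by rw [← L.P0]; exact hun' 0 (by omega))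
        (by rw [← L.P11]; exact hun' 11 (by omega)))).2 u1
    · show 0 < orient (P (14 + r + s)) (P (15 + r + s)) x
      rw [L.Po1, L.Po2]
      exact (pos_iff_pos_of_mul_pos (hT.b1 x hx (by rw [← L.P1]; exact hun' 1 (by omega))
        (by rw [← L.P5]; exact hun' _ (by omega)))).2 u2
    · show 0 < orient (P (15 + r + s)) (P (13 + r + s)) x
      rw [L.P6, L.Po2]
      exact (pos_iff_pos_of_mul_pos (hT.c1 x hx (by rw [← L.P4]; exact hun' 4 (by omega))
        (by rw [← L.P6]; exact hun' _ (by omega)))).2 u3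
  · intro i hi h0 hV
    have hi' : i < 14 + r + s := List.mem_range.1 hi
    have h0' : i ≠ 0 := h0
    have hV' : i ≠ 13 + r + s := hV
    have hneg : ∀ {x y : ℝ}, 0 < x * y → y < 0 → x < 0 := by
      intro x y h1 h2
      by_contra h3
      rw [not_lt] at h3
      have := mul_nonpos_of_nonneg_of_nonpos h3 h2.le
      linarith
    rcases Nat.lt_or_ge i 12 with h1 | h1
    · refine ⟨0, by show 0 < 3; omega, ?_⟩
      show orient (P 0) (P (14 + r + s)) (P i) < 0
      rw [L.P0, L.Po1]
      rcases Nat.lt_or_ge i 11 with h2 | h2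
      · have h3 := L.srt i 11 (by omega) h2 (by omega)
        rw [L.P0, L.P11, orient_swap', Left.neg_pos_iff] at h3
        exact hneg (hT.a1 _ (L.mem i hi') (by rw [← L.P0]; exact L.inj i 0 hi' (by omega) h0')
          (by rw [← L.P11]; exact L.inj i 11 hi' (by omega) (by omega))) h3
      · rw [show i = 11 by omega, L.P11]
        exact hT.a2
    · rcases Nat.lt_or_ge i (13 + r) with h2 | h2
      · refine ⟨1, by show 1 < 3; omega, ?_⟩
        show orient (P (14 + r + s)) (P (15 + r + s)) (P i) < 0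
        rw [L.Po1, L.Po2]
        rcases Nat.lt_or_ge i (12 + r) with h3 | h3
        · exact hneg (hT.b1 _ (L.mem i hi') (by rw [← L.P1]; exact L.inj i 1 hi' (by omega) (by omega))
            (by rw [← L.P5]; exact L.inj i _ hi' (by omega) (by omega))) (L.hB i h1 h3).1
        · rw [show i = 12 + r by omega, L.P5]
          exact hT.b3
      · refine ⟨2, by show 2 < 3; omega, ?_⟩
        show orient (P (15 + r + s)) (P (13 + r + s)) (P i) < 0
        rw [L.Po2, L.P6]
        exact hneg (hT.c1 _ (L.mem i hi') (by rw [← L.P4]; exact L.inj i 4 hi' (by omega) (by omega))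
            (by rw [← L.P6]; exact L.inj i _ hi' (by omega) (by omega))) (L.hC i h2 (by omega)).1
  · intro i hi hi' x hx y hy hxy
    simp only [UDt.dN3, List.mem_cons, List.not_mem_nil, or_false] at hi
    have hi'' : ¬ i < 14 + r + s := fun h => hi' (List.mem_range.2 h)
    rcases hi with rfl | rfl | rfl | rfl
    · omega
    · rw [L.Po1, orient_cyc, orient_cyc]
      exact hT.gen1 x hx y hy hxy
    · rw [L.Po2, ← orient_cyc]
      exact hT.gen2 x (Finset.mem_insert_of_mem hx) y (Finset.mem_insert_of_mem hy) hxy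
    · omega
  · -- the rows
    have hE : ∀ j u v, u < 16 + r + s → v < 16 + r + s → P u = q j → P v = q (j + 1) →
        ∀ z ∈ UDt.ex (List.range (16 + r + s)) [u, v], 0 < orient (P u) (P v) (P z) := by
      intro j u v hu hv e1 e2 z hz
      rw [UDt.mem_ex, List.mem_range] at hz
      simp only [List.mem_cons, List.not_mem_nil, or_false, not_or] at hz
      rw [e1, e2]
      exact hh j z hz.1 (by rw [← e1]; exact G.inj _ _ hz.1 hu hz.2.1)
        (by rw [← e2]; exact G.inj _ _ hz.1 hv hz.2.2)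
    have hA : ∀ j u v w (l : List ℕ), u < 14 + r + s → v < 14 + r + s → w < 14 + r + s →
        P u = q j → P v = q (j + 1) → P w = α j → u ∈ l → v ∈ l → w ∈ l →
        ∀ z ∈ UDt.ex (List.range (14 + r + s)) l,
          0 < orient (P u) (P w) (P z) ∧ 0 < orient (P w) (P v) (P z) := by
      intro j u v w l hu hv hw e1 e2 e3 m1 m2 m3 z hz
      rw [UDt.mem_ex, List.mem_range] at hz
      have n1 : z ≠ u := by rintro rfl; exact hz.2 m1
      have n2 : z ≠ v := by rintro rfl; exact hz.2 m2
      have n3 : z ≠ w := by rintro rfl; exact hz.2 m3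
      have k1 : P z ≠ q j := by rw [← e1]; exact L.inj _ _ hz.1 hu n1
      have k2 : P z ≠ q (j + 1) := by rw [← e2]; exact L.inj _ _ hz.1 hv n2
      have k3 : P z ≠ α j := by rw [← e3]; exact L.inj _ _ hz.1 hw n3
      rw [e1, e2, e3]
      refine ⟨Q.a1 j _ (L.mem z hz.1) k1 k2 k3, ?_⟩
      have := Q.a2 j _ (L.mem z hz.1) k1 k2 k3
      rw [orient_swap]
      linarith
    intro f hf z hz
    simp only [UDt.dN3, List.mem_append, List.mem_map, List.mem_cons, List.not_mem_nil, or_false,
      or_assoc] at hf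
    have cc : ∀ j k l, j < k → k < l → l ≤ 6 → 0 < orient (q k) (q l) (q j) := by
      intro j k l h1 h2 h3
      rw [orient_cyc]; exact hcv j k l h1 h2 h3
    have cd : ∀ j k l, j < k → k < l → l ≤ 6 → 0 < orient (q l) (q j) (q k) := by
      intro j k l h1 h2 h3
      rw [← orient_cyc]; exact hcv j k l h1 h2 h3
    rcases hf with rfl | rfl | rfl | rfl | rfl | rfl | rfl | rfl | rfl | rfl | ⟨i, hi, rfl⟩ | rfl |
      rfl | rfl | rfl | rfl | rfl | rfl | rfl | rfl | rfl | rfl | rfl | rfl | rfl | rfl | rfl |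
      rfl | rfl | rfl | rfl | rfl | rfl
    · exact hE 0 0 1 (by omega) (by omega) L.P0 L.P1 z hz
    · exact hE 1 1 4 (by omega) (by omega) L.P1 L.P4 z hz
    · exact hE 2 4 7 (by omega) (by omega) L.P4 L.P7 z hz
    · exact hE 3 7 11 (by omega) (by omega) L.P7 L.P11 z hz
    · exact hE 4 11 (12 + r) (by omega) (by omega) L.P11 L.P5 z hz
    · exact hE 5 (12 + r) (13 + r + s) (by omega) (by omega) L.P5 L.P6 z hz
    · exact (hA 0 0 1 2 _ (by omega) (by omega) (by omega) L.P0 L.P1 L.P2 (by simp) (by simp)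
        (by simp) z hz).1
    · exact (hA 0 0 1 2 _ (by omega) (by omega) (by omega) L.P0 L.P1 L.P2 (by simp) (by simp)
        (by simp) z hz).2
    · exact (hA 1 1 4 3 _ (by omega) (by omega) (by omega) L.P1 L.P4 L.P3 (by simp) (by simp)
        (by simp) z hz).1
    · exact (hA 1 1 4 3 _ (by omega) (by omega) (by omega) L.P1 L.P4 L.P3 (by simp) (by simp)
        (by simp) z hz).2
    · simp only at hz ⊢
      rw [List.mem_range'_1] at hi hz
      exact L.srt i z (by omega) (by omega) (by omega)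
    · -- (0, 11, _)
      simp only at hz ⊢
      rw [UDt.mem_ex, List.mem_range, List.mem_range] at hz
      rw [L.P0, L.P11]
      rcases Nat.lt_or_ge z (12 + r) with h1 | h1
      · exact (L.hB z (by omega) h1).2
      rcases Nat.eq_or_lt_of_le h1 with h2 | h2
      · rw [← h2, L.P5]; exact hcv 0 4 5 (by omega) (by omega) (by omega)
      rcases Nat.lt_or_ge z (13 + r + s) with h3 | h3
      · exact (L.hC z (by omega) h3).2.2
      · rw [show z = 13 + r + s by omega, L.P6]; exact hcv 0 4 6 (by omega) (by omega) (by omega)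
    · -- (12 + r, 1, _)
      simp only [List.mem_append, List.mem_cons, List.not_mem_nil, or_false, List.mem_range'_1]
        at hz ⊢
      rw [L.P5, L.P1]
      rcases hz with (rfl | rfl | rfl) | hz
      · rw [L.P4]; exact cd 1 2 5 (by omega) (by omega) (by omega)
      · rw [L.P7]; exact cd 1 3 5 (by omega) (by omega) (by omega)
      · rw [L.P11]; exact cd 1 4 5 (by omega) (by omega) (by omega)
      · have := (L.hB z hz.1 (by omega)).1
        rw [orient_swap]; linarith
    · -- (1, 12 + r, _)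
      simp only [List.mem_append, List.mem_cons, List.not_mem_nil, or_false, List.mem_range'_1]
        at hz ⊢
      rw [L.P5, L.P1]
      rcases hz with hz | rfl | rfl
      · exact (L.hC z (by omega) (by omega)).2.1
      · rw [L.P0]; exact cc 0 1 5 (by omega) (by omega) (by omega)
      · rw [L.P6]; exact hcv 1 5 6 (by omega) (by omega) (by omega)
    · -- (13 + r + s, 4, _)
      simp only [List.mem_append, List.mem_cons, List.not_mem_nil, or_false, List.mem_range'_1]
        at hz ⊢
      rw [L.P6, L.P4]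
      rcases hz with (rfl | rfl | rfl) | hz
      · rw [L.P7]; exact cd 2 3 6 (by omega) (by omega) (by omega)
      · rw [L.P11]; exact cd 2 4 6 (by omega) (by omega) (by omega)
      · rw [L.P5]; exact cd 2 5 6 (by omega) (by omega) (by omega)
      · have := (L.hC z hz.1 (by omega)).1
        rw [orient_swap]; linarith
    · simp only [List.mem_cons, List.not_mem_nil, or_false] at hz ⊢
      rw [L.P6, L.P4]
      rcases hz with rfl | rfl
      · rw [L.P0]; exact cc 0 2 6 (by omega) (by omega) (by omega)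
      · rw [L.P1]; exact cc 1 2 6 (by omega) (by omega) (by omega)
    · -- (1, 11, [0, 12 + r, 13 + r + s])
      simp only [List.mem_cons, List.not_mem_nil, or_false] at hz ⊢
      rw [L.P1, L.P11]
      rcases hz with rfl | rfl | rfl
      · rw [L.P0]; exact cc 0 1 4 (by omega) (by omega) (by omega)
      · rw [L.P5]; exact hcv 1 4 5 (by omega) (by omega) (by omega)
      · rw [L.P6]; exact hcv 1 4 6 (by omega) (by omega) (by omega)
    · -- (7, 12 + r, [0, 1, 4, 13 + r + c])
      simp only [List.mem_cons, List.not_mem_nil, or_false] at hz ⊢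
      rw [L.P7, L.P5]
      rcases hz with rfl | rfl | rfl | rfl
      · rw [L.P0]; exact cc 0 3 5 (by omega) (by omega) (by omega)
      · rw [L.P1]; exact cc 1 3 5 (by omega) (by omega) (by omega)
      · rw [L.P4]; exact cc 2 3 5 (by omega) (by omega) (by omega)
      · rw [L.P6]; exact hcv 3 5 6 (by omega) (by omega) (by omega)
    · -- (4, 12 + r, [0, 1, 13 + r + c])
      simp only [List.mem_cons, List.not_mem_nil, or_false] at hz ⊢
      rw [L.P4, L.P5]
      rcases hz with rfl | rfl | rfl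
      · rw [L.P0]; exact cc 0 2 5 (by omega) (by omega) (by omega)
      · rw [L.P1]; exact cc 1 2 5 (by omega) (by omega) (by omega)
      · rw [L.P6]; exact hcv 2 5 6 (by omega) (by omega) (by omega)
    · -- (7, 13 + r + c, [0, 1, 4])
      simp only [List.mem_cons, List.not_mem_nil, or_false] at hz ⊢
      rw [L.P7, L.P6]
      rcases hz with rfl | rfl | rfl
      · rw [L.P0]; exact cc 0 3 6 (by omega) (by omega) (by omega)
      · rw [L.P1]; exact cc 1 3 6 (by omega) (by omega) (by omega)
      · rw [L.P4]; exact cc 2 3 6 (by omega) (by omega) (by omega)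
    · -- (11, 13 + r + c, [0, 1, 4, 7])
      simp only [List.mem_cons, List.not_mem_nil, or_false] at hz ⊢
      rw [L.P11, L.P6]
      rcases hz with rfl | rfl | rfl | rfl
      · rw [L.P0]; exact cc 0 4 6 (by omega) (by omega) (by omega)
      · rw [L.P1]; exact cc 1 4 6 (by omega) (by omega) (by omega)
      · rw [L.P4]; exact cc 2 4 6 (by omega) (by omega) (by omega)
      · rw [L.P7]; exact cc 3 4 6 (by omega) (by omega) (by omega)
    · -- (4, 11, [0, 1, 12 + r, 13 + r + c])
      simp only [List.mem_cons, List.not_mem_nil, or_false] at hz ⊢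
      rw [L.P4, L.P11]
      rcases hz with rfl | rfl | rfl | rfl
      · rw [L.P0]; exact cc 0 2 4 (by omega) (by omega) (by omega)
      · rw [L.P1]; exact cc 1 2 4 (by omega) (by omega) (by omega)
      · rw [L.P5]; exact hcv 2 4 5 (by omega) (by omega) (by omega)
      · rw [L.P6]; exact hcv 2 4 6 (by omega) (by omega) (by omega)
    · -- (1, 7, [0, 11, 12 + r, 13 + r + c])
      simp only [List.mem_cons, List.not_mem_nil, or_false] at hz ⊢
      rw [L.P1, L.P7]
      rcases hz with rfl | rfl | rfl | rfl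
      · rw [L.P0]; exact cc 0 1 3 (by omega) (by omega) (by omega)
      · rw [L.P11]; exact hcv 1 3 4 (by omega) (by omega) (by omega)
      · rw [L.P5]; exact hcv 1 3 5 (by omega) (by omega) (by omega)
      · rw [L.P6]; exact hcv 1 3 6 (by omega) (by omega) (by omega)
    · simp only [List.mem_cons, List.not_mem_nil, or_false] at hz ⊢
      rw [hz, L.P0, L.P11, L.Po1]; exact hT.e1
    · simp only [List.mem_cons, List.not_mem_nil, or_false] at hz ⊢
      rw [hz, L.P1, L.P5, L.Po1]; exact hT.e2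
    · simp only [List.mem_cons, List.not_mem_nil, or_false] at hz ⊢
      rw [hz, L.P4, L.P6, L.Po1]; exact hT.e3
    · simp only [List.mem_cons, List.not_mem_nil, or_false] at hz ⊢
      rw [hz, L.P0, L.P11, L.Po2]; exact hT.e4
    · simp only [List.mem_cons, List.not_mem_nil, or_false] at hz ⊢
      rw [hz, L.P1, L.P5, L.Po2]; exact hT.e5
    · simp only [List.mem_cons, List.not_mem_nil, or_false] at hz ⊢
      rw [hz, L.P4, L.P6, L.Po2]; exact hT.e6
    · simp only [List.mem_cons, List.not_mem_nil, or_false] at hz ⊢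
      rw [L.P0, L.Po1]
      rcases hz with rfl | rfl
      · rw [L.Po2]; exact hT.d1
      · rw [L.P6]; exact hT.d3
    · simp only [List.mem_cons, List.not_mem_nil, or_false] at hz ⊢
      rw [hz, L.Po1, L.Po2, L.P6]; exact hT.d2
    · simp only [List.mem_cons, List.not_mem_nil, or_false] at hz ⊢
      rw [hz, L.P0, L.Po2, L.P6]; exact hT.d4
    · simp only [List.mem_cons, List.not_mem_nil, or_false] at hz ⊢
      rw [L.Po1, L.Po2, orient_swap]
      rcases hz with rfl | rfl
      · rw [L.P1]; linarith [hT.b2]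
      · rw [L.P5]; linarith [hT.b3]
  · -- the bounds
    have hn : ∀ j k, j < k → k ≤ 6 → k ≤ j + 4 → nr X (q j) (q k) = nr X (q j) (q k) := by
      intros; rfl
    have key : ∀ x y k j j', P x = q j → P y = q j' → 1 ≤ j → j < j' → j' ≤ 6 → j' ≤ j + 4 →
        nr X (q j) (q j') = k →
        ∀ f ∈ UDt.card (List.range (14 + r + s)) x y k, ∀ I : Finset ℕ,
      (∀ i ∈ I, i ∈ f.2.2.2 ∧ orient (P f.1) (P f.2.1) (P i) < 0) → I.card ≤ f.2.2.1 := by
      intro x y k j j' e1 e2 h0 h1 h2 h3 h4
      refine ub_card hir hmr (by rw [e1, e2]; exact h4) ?_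
      rw [e1, e2]
      intro z hz hlt
      rcases Nat.lt_or_ge 1 j with h5 | h5
      · exact hsgn 2 6 (by omega) j j' (by omega) h1 (by omega) z hz hlt
      · exact hsgn 1 5 (by omega) j j' (by omega) h1 (by omega) z hz hlt
    intro f hf
    simp only [UDt.dN3, List.mem_append, or_assoc] at hf
    rcases hf with hf | hf | hf | hf | hf | hf | hf | hf | hf
    · exact key 1 7 3 1 3 L.P1 L.P7 (by omega) (by omega) (by omega) (by omega) (Q.n3 1) f hf
    · exact key 4 11 3 2 4 L.P4 L.P11 (by omega) (by omega) (by omega) (by omega) (Q.n3 2) f hf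
    · exact key 7 (12 + r) 3 3 5 L.P7 L.P5 (by omega) (by omega) (by omega) (by omega) (Q.n3 3) f hf
    · exact key 11 (13 + r + s) 3 4 6 L.P11 L.P6 (by omega) (by omega) (by omega) (by omega)
        (Q.n3 4) f hf
    · exact key 1 11 6 1 4 L.P1 L.P11 (by omega) (by omega) (by omega) (by omega) (Q.n6 1) f hf
    · exact key 4 (12 + r) 6 2 5 L.P4 L.P5 (by omega) (by omega) (by omega) (by omega) (Q.n6 2) f hf
    · exact key 7 (13 + r + s) 6 3 6 L.P7 L.P6 (by omega) (by omega) (by omega) (by omega)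
        (Q.n6 3) f hf
    · exact key 1 (12 + r) 10 1 5 L.P1 L.P5 (by omega) (by omega) (by omega) (by omega) (Q.n10 1)
        f hf
    · exact key 4 (13 + r + s) 10 2 6 L.P4 L.P6 (by omega) (by omega) (by omega) (by omega)
        (Q.n10 2) f hf
  · -- Fact A
    have key : ∀ j u v, u < 14 + r + s → v < 14 + r + s → P u = q j → P v = q (j + 1) →
        (∃ i ∈ List.range (14 + r + s), P i = α j) →
        ∃ i ∈ List.range (14 + r + s), i ≠ u ∧ i ≠ v ∧
          ∀ z ∈ List.range (14 + r + s), z ≠ i → z ≠ u → z ≠ v →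
            0 < orient (P v) (P z) (P i) ∧ 0 < orient (P z) (P u) (P i) := by
      rintro j u v hu hv e1 e2 ⟨i, hi, hi'⟩
      have hi2 := List.mem_range.1 hi
      refine ⟨i, hi, ?_, ?_, ?_⟩
      · rintro rfl; exact Q.aq j j (hi'.symm.trans e1)
      · rintro rfl; exact Q.aq j (j + 1) (hi'.symm.trans e2)
      · intro z hz n1 n2 n3
        have hz2 := List.mem_range.1 hz
        have k1 : P z ≠ q j := by rw [← e1]; exact L.inj _ _ hz2 hu n2
        have k2 : P z ≠ q (j + 1) := by rw [← e2]; exact L.inj _ _ hz2 hv n3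
        have k3 : P z ≠ α j := by rw [← hi']; exact L.inj _ _ hz2 hi2 n1
        rw [e1, e2, hi']
        constructor
        · have := Q.a2 j _ (L.mem z hz2) k1 k2 k3
          rw [orient_swap']
          linarith
        · rw [← orient_cyc]
          have := Q.a1 j _ (L.mem z hz2) k1 k2 k3
          rwa [← orient_cyc] at this ⊢
    intro f hf
    simp only [UDt.dN3, List.mem_cons, List.not_mem_nil, or_false] at hf
    rcases hf with rfl | rfl | rfl | rfl | rfl | rfl
    · exact key 0 0 1 (by omega) (by omega) L.P0 L.P1 ⟨2, List.mem_range.2 (by omega), L.P2⟩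
    · exact key 1 1 4 (by omega) (by omega) L.P1 L.P4 ⟨3, List.mem_range.2 (by omega), L.P3⟩
    · exact key 2 4 7 (by omega) (by omega) L.P4 L.P7
        (hsgn 1 5 (by omega) 1 3 (by omega) (by omega) (by omega) _ (Q.am 2) (Q.an 1))
    · exact key 3 7 11 (by omega) (by omega) L.P7 L.P11
        (hsgn 1 5 (by omega) 2 4 (by omega) (by omega) (by omega) _ (Q.am 3) (Q.an 2))
    · exact key 4 11 (12 + r) (by omega) (by omega) L.P11 L.P5
        (hsgn 1 5 (by omega) 3 5 (by omega) (by omega) (by omega) _ (Q.am 4) (Q.an 3))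
    · exact key 5 (12 + r) (13 + r + s) (by omega) (by omega) L.P5 L.P6
        (hsgn 2 6 (by omega) 4 6 (by omega) (by omega) (by omega) _ (Q.am 5) (Q.an 4))
  · -- equal signs
    have key : ∀ u v x y (x' y' : Pt), u < 14 + r + s → v < 14 + r + s →
        (∀ z ∈ X, z ≠ P u → z ≠ P v → 0 < orient x' y' z * orient (P u) (P v) z) →
        P x = x' → P y = y' → ∀ z ∈ UDt.ex (List.range (14 + r + s)) [u, v],
        (0 < orient (P x) (P y) (P z) ↔ 0 < orient (P u) (P v) (P z)) := by
      intro u v x y x' y' hu hv hz' e1 e2 z hz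
      rw [UDt.mem_ex, List.mem_range] at hz
      simp only [List.mem_cons, List.not_mem_nil, or_false, not_or] at hz
      rw [e1, e2]
      exact pos_iff_pos_of_mul_pos (hz' _ (L.mem z hz.1) (L.inj _ _ hz.1 hu hz.2.1)
        (L.inj _ _ hz.1 hv hz.2.2))
    intro f hf
    simp only [UDt.dN3, List.mem_cons, List.not_mem_nil, or_false] at hf
    rcases hf with rfl | rfl | rfl
    · exact key 0 11 0 (14 + r + s) _ _ (by omega) (by omega)
        (by rw [L.P0, L.P11]; exact hT.a1) L.P0 L.Po1
    · exact key 1 (12 + r) (14 + r + s) (15 + r + s) _ _ (by omega) (by omega)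
        (by rw [L.P1, L.P5]; exact hT.b1) L.Po1 L.Po2
    · exact key 4 (13 + r + s) (15 + r + s) (13 + r + s) _ _ (by omega) (by omega)
        (by rw [L.P4, L.P6]; exact hT.c1) L.Po2 L.P6

end

/-- Enumeration of a finite set. -/
lemma enum_set (B : Finset Pt) : ∃ b : ℕ → Pt, (∀ k < B.card, b k ∈ B) ∧
    (∀ j k, j < B.card → k < B.card → j ≠ k → b j ≠ b k) ∧
    (∀ z ∈ B, ∃ k < B.card, b k = z) := by
  classical
  refine ⟨fun k => if hk : k < B.card then (B.equivFin.symm ⟨k, hk⟩ : Pt) else 0, ?_, ?_, ?_⟩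
  · intro k hk
    simp only [dif_pos hk]
    exact (B.equivFin.symm ⟨k, hk⟩).2
  · intro j k hj hk hjk e
    simp only [dif_pos hj, dif_pos hk] at e
    have := B.equivFin.symm.injective (Subtype.ext e)
    simp only [Fin.mk.injEq] at this
    exact hjk this
  · intro z hz
    refine ⟨B.equivFin ⟨z, hz⟩, (B.equivFin ⟨z, hz⟩).2, ?_⟩
    simp only [dif_pos (B.equivFin ⟨z, hz⟩).2]
    simp

section

variable {X : Finset Pt} {h : ℕ} {p a c : ZMod h → Pt}

/-- Seven consecutive hull vertices of a ring. -/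
lemma ring_QA (W : RingS0 X h p a c) (hh : 6 < h) (i : ZMod h)
    (h10 : ∀ i : ZMod h, nr X (p i) (p (i + 4)) = 10) :
    QA X (fun j => p (i + (j : ZMod h))) (fun j => a (i + (j : ZMod h))) where
  gp := W.gp
  mem := fun j => W.pX _
  cv := fun j k l h1 h2 h3 => conv_gen W i h1 h2 (by omega)
  hull := by
    intro j z hz h1 h2
    have e : i + ((j + 1 : ℕ) : ZMod h) = i + (j : ZMod h) + 1 := by push_cast; ring
    show 0 < orient (p (i + (j : ZMod h))) (p (i + ((j + 1 : ℕ) : ZMod h))) z
    rw [e]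
    rw [e] at h2
    exact W.hull _ z hz h1 h2
  am := fun j => W.aX _
  aq := fun j k => W.ap _ _
  a1 := by
    intro j z hz h1 h2 h3
    have e : i + ((j + 1 : ℕ) : ZMod h) = i + (j : ZMod h) + 1 := by push_cast; ring
    rw [e] at h2
    exact W.a1 _ z hz h1 h2 h3
  a2 := by
    intro j z hz h1 h2 h3
    have e : i + ((j + 1 : ℕ) : ZMod h) = i + (j : ZMod h) + 1 := by push_cast; ring
    show orient (p (i + ((j + 1 : ℕ) : ZMod h))) (a (i + (j : ZMod h))) z < 0
    rw [e]
    rw [e] at h2
    exact W.a2 _ z hz h1 h2 h3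
  an := by
    intro j
    have := (W.s1 (i + (j : ZMod h) + 1) (a (i + (j : ZMod h) + 1)) (W.aX _)).2
      (Or.inr (Or.inr rfl))
    rw [show i + (j : ZMod h) + 1 - 1 = i + (j : ZMod h) by ring,
      show i + (j : ZMod h) + 1 + 1 = i + ((j + 2 : ℕ) : ZMod h) by push_cast; ring,
      show i + (j : ZMod h) + 1 = i + ((j + 1 : ℕ) : ZMod h) by push_cast; ring] at this
    exact this
  am0 := by
    have := (W.s1 (i + 1) (a i) (W.aX _)).2 (Or.inl (by rw [show i + 1 - 1 = i by ring]))
    rw [show i + 1 - 1 = i by ring, show i + 1 + 1 = i + 2 by ring] at this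
    simpa using this
  ns := fun j' j k k' h1 h2 h3 h4 z hz hlt => near_sub W i h1 h2 h3 (by omega) hz hlt
  n3 := by
    intro j
    have := nr_two W (i + (j : ZMod h))
    rw [show i + (j : ZMod h) + 2 = i + ((j + 2 : ℕ) : ZMod h) by push_cast; ring] at this
    exact this
  n6 := by
    intro j
    have := nr_three W (i + (j : ZMod h))
    rw [show i + (j : ZMod h) + 3 = i + ((j + 3 : ℕ) : ZMod h) by push_cast; ring] at this
    exact this
  n10 := by
    intro j
    have := h10 (i + (j : ZMod h))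
    rw [show i + (j : ZMod h) + 4 = i + ((j + 4 : ℕ) : ZMod h) by push_cast; ring] at this
    exact this

open scoped Classical in
/-- The labels exist. -/
theorem exists_lab3 (W : RingS0 X h p a c) (hh : 6 < h) (i : ZMod h)
    (h10 : ∀ i : ZMod h, nr X (p i) (p (i + 4)) = 10) (o1 o2 : Pt)
    (hB : (X.filter (fun z => orient (p (i + 1)) (p (i + 5)) z < 0 ∧
      ¬ orient (p i) (p (i + 4)) z < 0 ∧ z ≠ p (i + 4))).card ≤ 2)
    (hC : (X.filter (fun z => orient (p (i + 1 + 1)) (p (i + 1 + 5)) z < 0 ∧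
      ¬ orient (p (i + 1)) (p (i + 1 + 4)) z < 0 ∧ z ≠ p (i + 1 + 4))).card ≤ 2) :
    ∃ r s, r ≤ 2 ∧ s ≤ 2 ∧ ∃ P, Lab3 X (fun j => p (i + (j : ZMod h)))
      (fun j => a (i + (j : ZMod h))) o1 o2 r s P := by
  set q : ℕ → Pt := fun j => p (i + (j : ZMod h)) with hq
  set α : ℕ → Pt := fun j => a (i + (j : ZMod h)) with hα
  have Q : QA X q α := ring_QA W hh i h10
  have q0 : p i = q 0 := by rw [hq]; simp
  have q1 : p (i + 1) = q 1 := by rw [hq]; simp
  have q2 : p (i + 2) = q 2 := by rw [hq]; simp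
  have q3 : p (i + 3) = q 3 := by rw [hq]; simp
  have q4 : p (i + 4) = q 4 := by rw [hq]; simp
  have q5 : p (i + 5) = q 5 := by rw [hq]; simp
  have q6 : p (i + 1 + 5) = q 6 := by
    rw [hq]
    show p (i + 1 + 5) = p (i + ((6 : ℕ) : ZMod h))
    congr 1
    push_cast
    ring
  have α0 : a i = α 0 := by rw [hα]; simp
  have α1 : a (i + 1) = α 1 := by rw [hα]; simp
  rw [q0, q1, q4, q5] at hB
  rw [show i + 1 + 1 = i + 2 by ring, show i + 1 + 4 = i + 5 by ring, q1, q2, q5, q6] at hC
  obtain ⟨n, hn⟩ : ∃ n, X.card = n + 1 :=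
    ⟨X.card - 1, by have := Finset.card_pos.2 ⟨p i, W.pX i⟩; omega⟩
  obtain ⟨Z, S, z0, z1, z2, z3, z4, z7, -, -⟩ := ring_sort W i hn
  obtain ⟨z11, hn11⟩ := pos_of W i S z0 (j := 4) (by omega) (by omega)
  rw [show i + ((4 : ℕ) : ZMod h) = i + 4 by push_cast; ring, h10 i] at z11 hn11
  rw [q0] at z0
  rw [q1] at z1
  rw [α0] at z2
  rw [α1] at z3
  rw [q2] at z4
  rw [q3] at z7
  rw [q4] at z11
  norm_num at z11 hn11
  -- the points beyond the first chord
  have hnear : ∀ z ∈ X, orient (q 0) (q 4) z < 0 → ∃ k, 1 ≤ k ∧ k ≤ 10 ∧ Z k = z := by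
    intro z hz hlt
    obtain ⟨k, hk, rfl⟩ := S.exi hz
    rw [← z0, ← z11, orient_swap', Left.neg_neg_iff] at hlt
    have := (S.pos_iff hk hn11).1 hlt
    exact ⟨k, this.1, by omega, rfl⟩
  have hZneg : ∀ k, k ≤ 11 → orient (q 0) (q 4) (Z k) ≤ 0 := by
    intro k hk
    rcases Nat.eq_zero_or_pos k with rfl | h0
    · rw [z0]; simp
    rcases Nat.eq_or_lt_of_le hk with rfl | h1
    · rw [z11]; simp
    · have := S.srt k 11 h0 h1 hn11
      rw [z0, z11, orient_swap', Left.neg_pos_iff] at this
      exact this.le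
  set B := X.filter (fun z => orient (q 1) (q 5) z < 0 ∧ ¬ orient (q 0) (q 4) z < 0 ∧ z ≠ q 4)
    with hBd
  set C := X.filter (fun z => orient (q 2) (q 6) z < 0 ∧ 0 < orient (q 1) (q 5) z ∧
    0 < orient (q 0) (q 4) z) with hCd
  have hC2 : C.card ≤ 2 := by
    refine (Finset.card_le_card ?_).trans hC
    intro z hz
    obtain ⟨w1, w2, w3, w4⟩ := Finset.mem_filter.1 hz
    refine Finset.mem_filter.2 ⟨w1, w2, by linarith, ?_⟩
    rintro rfl
    simp at w3
  obtain ⟨b, b1, b2, b3⟩ := enum_set B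
  obtain ⟨d, d1, d2, d3⟩ := enum_set C
  set r := B.card with hr
  set s := C.card with hs
  refine ⟨r, s, hB, hC2, fun x => if x ≤ 11 then Z x else if x < 12 + r then b (x - 12) else
    if x = 12 + r then q 5 else if x < 13 + r + s then d (x - (13 + r)) else
    if x = 13 + r + s then q 6 else if x = 14 + r + s then o1 else o2, ?_⟩
  set P : ℕ → Pt := fun x => if x ≤ 11 then Z x else if x < 12 + r then b (x - 12) else
    if x = 12 + r then q 5 else if x < 13 + r + s then d (x - (13 + r)) else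
    if x = 13 + r + s then q 6 else if x = 14 + r + s then o1 else o2 with hP
  have PZ : ∀ x, x ≤ 11 → P x = Z x := by
    intro x hx
    show (if x ≤ 11 then Z x else _) = Z x
    rw [if_pos hx]
  have PB : ∀ x, 12 ≤ x → x < 12 + r → P x = b (x - 12) := by
    intro x h1 h2
    simp only [hP]
    rw [if_neg (by omega), if_pos h2]
  have P5 : P (12 + r) = q 5 := by
    simp only [hP]
    rw [if_neg (by omega), if_neg (by omega), if_pos trivial]
  have PC : ∀ x, 13 + r ≤ x → x < 13 + r + s → P x = d (x - (13 + r)) := by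
    intro x h1 h2
    simp only [hP]
    rw [if_neg (by omega), if_neg (by omega), if_neg (by omega), if_pos h2]
  have P6 : P (13 + r + s) = q 6 := by
    simp only [hP]
    rw [if_neg (by omega), if_neg (by omega), if_neg (by omega), if_neg (by omega),
      if_pos trivial]
  have Po1 : P (14 + r + s) = o1 := by
    simp only [hP]
    rw [if_neg (by omega), if_neg (by omega), if_neg (by omega), if_neg (by omega),
      if_neg (by omega), if_pos trivial]
  have Po2 : P (15 + r + s) = o2 := by
    simp only [hP]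
    rw [if_neg (by omega), if_neg (by omega), if_neg (by omega), if_neg (by omega),
      if_neg (by omega), if_neg (by omega)]
  have hBm : ∀ x, 12 ≤ x → x < 12 + r → P x ∈ X ∧ orient (q 1) (q 5) (P x) < 0 ∧
      0 < orient (q 0) (q 4) (P x) := by
    intro x h1 h2
    rw [PB x h1 h2]
    have h3 := b1 (x - 12) (by omega)
    obtain ⟨w1, w2, w3, w4⟩ := Finset.mem_filter.1 h3
    refine ⟨w1, w2, ?_⟩
    have w5 : b (x - 12) ≠ q 0 := by
      intro e
      rw [e, orient_cyc] at w2
      have := Q.cv 0 1 5 (by omega) (by omega) (by omega)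
      linarith
    have h04 : q 0 ≠ q 4 := by
      intro e
      have := Q.cv 0 4 5 (by omega) (by omega) (by omega)
      rw [e] at this
      simp at this
    have := orient_ne Q.gp (Q.mem 0) (Q.mem 4) w1 h04 (Ne.symm w4) (Ne.symm w5)
    rcases lt_or_gt_of_ne this with h6 | h6
    · exact absurd h6 w3
    · exact h6
  have hCm : ∀ x, 13 + r ≤ x → x < 13 + r + s → P x ∈ X ∧ orient (q 2) (q 6) (P x) < 0 ∧
      0 < orient (q 1) (q 5) (P x) ∧ 0 < orient (q 0) (q 4) (P x) := by
    intro x h1 h2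
    rw [PC x h1 h2]
    exact Finset.mem_filter.1 (d1 (x - (13 + r)) (by omega))
  have c05 := Q.cv 0 4 5 (by omega) (by omega) (by omega)
  have c06 := Q.cv 0 4 6 (by omega) (by omega) (by omega)
  have c16 := Q.cv 1 5 6 (by omega) (by omega) (by omega)
  -- classes
  have cls : ∀ x, x < 14 + r + s →
      (x ≤ 11 ∧ orient (q 0) (q 4) (P x) ≤ 0) ∨
      (12 ≤ x ∧ x < 12 + r ∧ 0 < orient (q 0) (q 4) (P x) ∧ orient (q 1) (q 5) (P x) < 0) ∨
      (x = 12 + r ∧ 0 < orient (q 0) (q 4) (P x) ∧ orient (q 1) (q 5) (P x) = 0) ∨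
      (13 + r ≤ x ∧ x < 13 + r + s ∧ 0 < orient (q 0) (q 4) (P x) ∧
        0 < orient (q 1) (q 5) (P x) ∧ orient (q 2) (q 6) (P x) < 0) ∨
      (x = 13 + r + s ∧ 0 < orient (q 0) (q 4) (P x) ∧
        0 < orient (q 1) (q 5) (P x) ∧ orient (q 2) (q 6) (P x) = 0) := by
    intro x hx
    rcases Nat.lt_or_ge x 12 with h1 | h1
    · left
      refine ⟨by omega, ?_⟩
      rw [PZ x (by omega)]
      exact hZneg x (by omega)
    rcases Nat.lt_or_ge x (12 + r) with h2 | h2
    · right; left
      have := hBm x h1 h2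
      exact ⟨h1, h2, this.2.2, this.2.1⟩
    rcases Nat.eq_or_lt_of_le h2 with h3 | h3
    · right; right; left
      refine ⟨h3.symm, ?_, ?_⟩
      · rw [← h3, P5]; exact c05
      · rw [← h3, P5]; simp
    rcases Nat.lt_or_ge x (13 + r + s) with h4 | h4
    · right; right; right; left
      have := hCm x (by omega) h4
      exact ⟨by omega, h4, this.2.2.2, this.2.2.1, this.2.1⟩
    · right; right; right; right
      have h5 : x = 13 + r + s := by omega
      subst h5
      rw [P6]
      exact ⟨rfl, c06, c16, by simp⟩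
  have hinj : ∀ x y, x < 14 + r + s → y < 14 + r + s → x ≠ y → P x ≠ P y := by
    intro x y hx hy hxy e
    have cx := cls x hx
    have cy := cls y hy
    rw [e] at cx
    rcases cx with ⟨u1, u2⟩ | ⟨u1, u2, u3, u4⟩ | ⟨u1, u2, u3⟩ | ⟨u1, u2, u3, u4, u5⟩ |
        ⟨u1, u2, u3, u4⟩ <;>
      rcases cy with ⟨v1, v2⟩ | ⟨v1, v2, v3, v4⟩ | ⟨v1, v2, v3⟩ | ⟨v1, v2, v3, v4, v5⟩ |
        ⟨v1, v2, v3, v4⟩ <;> first | linarith | omega | skip
    · rw [PZ x u1, PZ y v1] at e
      exact hxy (S.inj' (by omega) (by omega) e)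
    · rw [PB x u1 u2, PB y v1 v2] at e
      exact b2 _ _ (by omega) (by omega) (by omega) e
    · rw [PC x u1 u2, PC y v1 v2] at e
      exact d2 _ _ (by omega) (by omega) (by omega) e
  exact
    { inj := hinj
      mem := by
        intro x hx
        rcases cls x hx with ⟨u1, -⟩ | ⟨u1, u2, -⟩ | ⟨u1, -⟩ | ⟨u1, u2, -⟩ | ⟨u1, -⟩
        · rw [PZ x u1]; exact S.mem (by omega)
        · exact (hBm x u1 u2).1
        · rw [u1, P5]; exact Q.mem 5
        · exact (hCm x u1 u2).1
        · rw [u1, P6]; exact Q.mem 6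
      P0 := by rw [PZ 0 (by omega), z0]
      P1 := by rw [PZ 1 (by omega), z1]
      P2 := by rw [PZ 2 (by omega), z2]
      P3 := by rw [PZ 3 (by omega), z3]
      P4 := by rw [PZ 4 (by omega), z4]
      P7 := by rw [PZ 7 (by omega), z7]
      P11 := by rw [PZ 11 (by omega), z11]
      P5 := P5
      P6 := P6
      Po1 := Po1
      Po2 := Po2
      srt := by
        intro x y h1 h2 h3
        rw [PZ 0 (by omega), PZ x (by omega), PZ y (by omega)]
        exact S.srt x y h1 h2 (by omega)
      hB := fun x h1 h2 => (hBm x h1 h2).2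
      hC := fun x h1 h2 => (hCm x h1 h2).2
      cov := by
        intro z hz hun
        have n0 : z ≠ q 0 := by
          have := hun 0 (by omega)
          rwa [PZ 0 (by omega), z0] at this
        have n1 : z ≠ q 1 := by
          have := hun 1 (by omega)
          rwa [PZ 1 (by omega), z1] at this
        have n2 : z ≠ q 2 := by
          have := hun 4 (by omega)
          rwa [PZ 4 (by omega), z4] at this
        have n4 : z ≠ q 4 := by
          have := hun 11 (by omega)
          rwa [PZ 11 (by omega), z11] at this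
        have n5 : z ≠ q 5 := by
          have := hun _ (by omega : 12 + r < 14 + r + s)
          rwa [P5] at this
        have n6 : z ≠ q 6 := by
          have := hun _ (by omega : 13 + r + s < 14 + r + s)
          rwa [P6] at this
        have qne : ∀ j k, j < k → k < 6 → q j ≠ q k := by
          intro j k hj hk e
          have := Q.cv j k 6 hj hk (by omega)
          rw [e] at this
          simp at this
        have q26 : q 2 ≠ q 6 := by
          intro e
          have := Q.cv 1 2 6 (by omega) (by omega) (by omega)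
          rw [e] at this
          simp at this
        have k1 : 0 < orient (q 0) (q 4) z := by
          have := orient_ne Q.gp (Q.mem 0) (Q.mem 4) hz (qne 0 4 (by omega) (by omega))
            (Ne.symm n4) (Ne.symm n0)
          rcases lt_or_gt_of_ne this with h6 | h6
          · obtain ⟨k, k1, k2, k3⟩ := hnear z hz h6
            exact absurd (by rw [PZ k (by omega), k3]) (hun k (by omega))
          · exact h6
        have k2 : 0 < orient (q 1) (q 5) z := by
          have := orient_ne Q.gp (Q.mem 1) (Q.mem 5) hz (qne 1 5 (by omega) (by omega))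
            (Ne.symm n5) (Ne.symm n1)
          rcases lt_or_gt_of_ne this with h6 | h6
          · obtain ⟨k, k1', k2⟩ := b3 z (Finset.mem_filter.2 ⟨hz, h6, by linarith, n4⟩)
            refine absurd ?_ (hun (12 + k) (by omega))
            rw [PB (12 + k) (by omega) (by omega), show 12 + k - 12 = k by omega, k2]
          · exact h6
        have k3 : 0 < orient (q 2) (q 6) z := by
          have := orient_ne Q.gp (Q.mem 2) (Q.mem 6) hz q26 (Ne.symm n6) (Ne.symm n2)
          rcases lt_or_gt_of_ne this with h6 | h6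
          · obtain ⟨k, k1', k2'⟩ := d3 z (Finset.mem_filter.2 ⟨hz, h6, k2, k1⟩)
            refine absurd ?_ (hun (13 + r + k) (by omega))
            rw [PC (13 + r + k) (by omega) (by omega), show 13 + r + k - (13 + r) = k by omega, k2']
          · exact h6
        exact ⟨k1, k2, k3⟩ }

open scoped Classical in
/-- The labelled instance for three chords. -/
theorem inst_N3 (W : RingS0 X h p a c) (hh : 6 < h) (i : ZMod h)
    (h10 : ∀ i : ZMod h, nr X (p i) (p (i + 4)) = 10) {o1 o2 : Pt}
    (hT : ThreeN X (fun j => p (i + (j : ZMod h))) o1 o2)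
    (hin : ∀ j, 0 < orient (p j) (p (j + 1)) o1 ∧ 0 < orient (p j) (p (j + 1)) o2)
    (hB : (X.filter (fun z => orient (p (i + 1)) (p (i + 5)) z < 0 ∧
      ¬ orient (p i) (p (i + 4)) z < 0 ∧ z ≠ p (i + 4))).card ≤ 2)
    (hC : (X.filter (fun z => orient (p (i + 1 + 1)) (p (i + 1 + 5)) z < 0 ∧
      ¬ orient (p (i + 1)) (p (i + 1 + 4)) z < 0 ∧ z ≠ p (i + 1 + 4))).card ≤ 2) :
    ∃ r s, r ≤ 2 ∧ s ≤ 2 ∧ ∃ P, UPatch (UDt.dN3 r s) P X := by
  obtain ⟨r, s, hr, hs, P, L⟩ := exists_lab3 W hh i h10 o1 o2 hB hC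
  refine ⟨r, s, hr, hs, P, upatch_N3 (ring_QA W hh i h10) hT ?_ L⟩
  intro j
  have e : i + ((j + 1 : ℕ) : ZMod h) = i + (j : ZMod h) + 1 := by push_cast; ring
  show 0 < orient (p (i + (j : ZMod h))) (p (i + ((j + 1 : ℕ) : ZMod h))) o1 ∧
    0 < orient (p (i + (j : ZMod h))) (p (i + ((j + 1 : ℕ) : ZMod h))) o2
  rw [e]
  exact hin _

end

end Geo

end Pool.Agent.GCP
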