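import Pool.Agent.GCP.UData
import Pool.Agent.GCP.GeoTop
import Pool.Agent.GCP.GeoN3

/-!
# The labelled patch of a corner and a third line, normal case (MP_062f91_co)
-/

namespace Pool.Agent.GCP

namespace Geo

section

variable {X : Finset Pt} {h : ℕ} {p a c : ZMod h → Pt} {i : ZMod h} {o q1 q2 : Pt}
  {R L T : Finset Pt} {b : ℕ} {P : ℕ → Pt}

lemma mem_rNR {b x : ℕ} : x ∈ UDt.rNR b ↔ x < 17 ∨ (19 ≤ x ∧ x < 19 + b) := by
  unfold UDt.rNR
  rw [List.mem_append, List.mem_range, List.mem_range'_1]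

lemma nodup_rNR (b : ℕ) : (UDt.rNR b).Nodup := by
  unfold UDt.rNR
  rw [List.nodup_append]
  refine ⟨List.nodup_range, List.nodup_range', ?_⟩
  intro x hx y hy
  rw [List.mem_range] at hx
  rw [List.mem_range'_1] at hy
  omega

lemma length_rNR (b : ℕ) : (UDt.rNR b).length = 17 + b := by
  unfold UDt.rNR
  simp

/-- The labels of the patch `UDt.dNR b`. -/
structure LabNR (X : Finset Pt) {h : ℕ} (p : ZMod h → Pt) (i : ZMod h) (q1 q2 : Pt)
    (R L : Finset Pt) (b : ℕ) (P : ℕ → Pt) : Prop where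
  inj : ∀ x ∈ UDt.rNR b, ∀ y ∈ UDt.rNR b, x ≠ y → P x ≠ P y
  mem : ∀ x ∈ UDt.rNR b, P x ∈ X
  P0 : P 0 = p i
  P1 : P 1 = p (i + 1)
  P7 : P 7 = p (i + 3)
  P16 : P 16 = p (i + 4)
  P17 : P 17 = q1
  P18 : P 18 = q2
  hR : ∀ z, z ∈ R ↔ ∃ j ∈ UDt.Rl, P j = z
  hL : ∀ z, z ∈ L ↔ ∃ j ∈ UDt.Ll, P j = z
  hT : ∀ z ∈ X, orient q1 q2 z < 0 → ∃ j ∈ UDt.rNR b, P j = z
  hb : ∀ x, 19 ≤ x → x < 19 + b → orient q1 q2 (P x) < 0
  srt : ∀ x y, 19 ≤ x → x < y → y < 19 + b → 0 < orient (P 0) (P x) (P y)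
  srow : ∀ f ∈ UDt.srows (UDt.rNR b) (19 + b), ∀ z ∈ f.2.2, 0 < orient (P f.1) (P f.2.1) (P z)
  frow : ∀ f ∈ UDt.frows, ∀ z ∈ f.2.2, 0 < orient (P f.1) (P f.2.1) (P z)

/-- The patch of a corner and a third line, normal case. -/
theorem upatch_NR (W : RingS0 X h p a c)
    (gen : ∀ x ∈ X, ∀ y ∈ X, x ≠ y → orient x y o ≠ 0)
    (hR : ∀ z, z ∈ R ↔ z ∈ X ∧ orient (p i) o z < 0)
    (hL : ∀ z, z ∈ L ↔ z ∈ X ∧ orient o (p (i + 4)) z < 0)
    (TL : TopLine X (p i) (p (i + 4)) o q1 q2 R T 11 9)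
    (TN : TopNR X (p i) (p (i + 4)) o q1 q2 T)
    (hin : ∀ m, 0 < orient (p m) (p (m + 1)) o ∧ 0 < orient (p m) (p (m + 1)) q1 ∧
        0 < orient (p m) (p (m + 1)) q2)
    (D : LabNR X p i q1 q2 R L b P) : UPatch (UDt.dNR b) P X := by
  classical
  have q1n : q1 ∉ X := fun hq => TL.n1 (Finset.mem_insert_of_mem hq)
  have q2n : q2 ∉ X := fun hq => TL.n2 (Finset.mem_insert_of_mem (Finset.mem_insert_of_mem hq))
  have q12 : q1 ≠ q2 := by
    intro e
    exact TL.n2 (by rw [← e]; exact Finset.mem_insert_self _ _)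
  have m0 : (0 : ℕ) ∈ UDt.rNR b := mem_rNR.2 (by omega)
  have m16 : (16 : ℕ) ∈ UDt.rNR b := mem_rNR.2 (by omega)
  have R0 : ∀ j ∈ UDt.Rl, j ∈ UDt.rNR b := by
    intro j hj
    simp only [UDt.Rl, List.mem_cons, List.not_mem_nil, or_false] at hj
    exact mem_rNR.2 (by omega)
  have L0 : ∀ j ∈ UDt.Ll, j ∈ UDt.rNR b := by
    intro j hj
    simp only [UDt.Ll, List.mem_cons, List.not_mem_nil, or_false] at hj
    exact mem_rNR.2 (by omega)
  -- signs
  have sR : ∀ x ∈ UDt.rNR b, x ≠ 0 → (x ∈ UDt.Rl ↔ orient (p i) o (P x) < 0) := by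
    intro x hx h0
    constructor
    · intro hx'
      exact ((hR _).1 ((D.hR _).2 ⟨x, hx', rfl⟩)).2
    · intro hx'
      obtain ⟨j, hj, e⟩ := (D.hR _).1 ((hR _).2 ⟨D.mem x hx, hx'⟩)
      by_contra hcon
      exact D.inj j (R0 j hj) x hx (by rintro rfl; exact hcon hj) e
  have sL : ∀ x ∈ UDt.rNR b, x ≠ 16 → (x ∈ UDt.Ll ↔ orient o (p (i + 4)) (P x) < 0) := by
    intro x hx h0
    constructor
    · intro hx'
      exact ((hL _).1 ((D.hL _).2 ⟨x, hx', rfl⟩)).2
    · intro hx'
      obtain ⟨j, hj, e⟩ := (D.hL _).1 ((hL _).2 ⟨D.mem x hx, hx'⟩)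
      by_contra hcon
      exact D.inj j (L0 j hj) x hx (by rintro rfl; exact hcon hj) e
  have neg_of : ∀ {x y : ℝ}, 0 < x * y → y < 0 → x < 0 := by
    intro x y h1 h2
    by_contra h3
    rw [not_lt] at h3
    have := mul_nonpos_of_nonneg_of_nonpos h3 h2.le
    linarith
  have pos_of : ∀ {x y : ℝ}, 0 < x * y → 0 < y → 0 < x := by
    intro x y h1 h2
    exact (pos_iff_pos_of_mul_pos h1).2 h2
  have ogen0 : ∀ z ∈ X, z ≠ p i → orient (p i) o z ≠ 0 := by
    intro z hz hz0
    have := gen (p i) (W.pX i) z hz (Ne.symm hz0)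
    rw [orient_swap']
    exact neg_ne_zero.2 this
  have ogen4 : ∀ z ∈ X, z ≠ p (i + 4) → orient o (p (i + 4)) z ≠ 0 := by
    intro z hz hz0
    have := gen (p (i + 4)) (W.pX _) z hz (Ne.symm hz0)
    rw [orient_cyc] at this
    rwa [← orient_cyc, ← orient_cyc] at this ⊢
  have sR1 : ∀ x ∈ UDt.rNR b, x ∈ UDt.Rl → orient (p i) q1 (P x) < 0 := by
    intro x hx hx'
    have h0 : x ≠ 0 := by
      rintro rfl
      simp [UDt.Rl] at hx'
    exact neg_of (TL.s1 _ (D.mem x hx) (by rw [← D.P0]; exact D.inj x hx 0 m0 h0))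
      ((sR x hx h0).1 hx')
  have sR2 : ∀ z ∈ X, z ≠ p i → z ∉ R → 0 < orient (p i) q1 z := by
    intro z hz h0 hzR
    refine pos_of (TL.s1 _ hz h0) ?_
    rcases lt_or_gt_of_ne (ogen0 z hz h0) with h1 | h1
    · exact absurd ((hR z).2 ⟨hz, h1⟩) hzR
    · exact h1
  have sL1 : ∀ x ∈ UDt.rNR b, x ∈ UDt.Ll → orient q2 (p (i + 4)) (P x) < 0 := by
    intro x hx hx'
    have h0 : x ≠ 16 := by
      rintro rfl
      simp [UDt.Ll] at hx'
    exact neg_of (TL.s2 _ (D.mem x hx) (by rw [← D.P16]; exact D.inj x hx 16 m16 h0))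
      ((sL x hx h0).1 hx')
  have sL2 : ∀ z ∈ X, z ≠ p (i + 4) → z ∉ L → 0 < orient q2 (p (i + 4)) z := by
    intro z hz h0 hzL
    refine pos_of (TL.s2 _ hz h0) ?_
    rcases lt_or_gt_of_ne (ogen4 z hz h0) with h1 | h1
    · exact absurd ((hL z).2 ⟨hz, h1⟩) hzL
    · exact h1
  have nR : ∀ x ∈ UDt.rNR b, x ∉ UDt.Rl → P x ∉ R := by
    intro x hx hx' hcon
    obtain ⟨j, hj, e⟩ := (D.hR _).1 hcon
    exact D.inj j (R0 j hj) x hx (by rintro rfl; exact hx' hj) e
  have nL : ∀ x ∈ UDt.rNR b, x ∉ UDt.Ll → P x ∉ L := by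
    intro x hx hx' hcon
    obtain ⟨j, hj, e⟩ := (D.hL _).1 hcon
    exact D.inj j (L0 j hj) x hx (by rintro rfl; exact hx' hj) e
  -- general position
  have hm : ∀ x, x < 19 + b → P x ∈ insert q2 (insert q1 (insert o X)) := by
    intro x hx
    by_cases h : x ∈ UDt.rNR b
    · exact Finset.mem_insert_of_mem (Finset.mem_insert_of_mem (Finset.mem_insert_of_mem
        (D.mem x h)))
    · rw [mem_rNR] at h
      rcases (show x = 17 ∨ x = 18 by omega) with rfl | rfl
      · rw [D.P17]; exact Finset.mem_insert_of_mem (Finset.mem_insert_self _ _)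
      · rw [D.P18]; exact Finset.mem_insert_self _ _
  have hinj : ∀ x y, x < 19 + b → y < 19 + b → x ≠ y → P x ≠ P y := by
    intro x y hx hy hxy e
    by_cases h1 : x ∈ UDt.rNR b
    · by_cases h2 : y ∈ UDt.rNR b
      · exact D.inj x h1 y h2 hxy e
      · rw [mem_rNR] at h2
        rcases (show y = 17 ∨ y = 18 by omega) with rfl | rfl
        · rw [D.P17] at e; exact q1n (by rw [← e]; exact D.mem x h1)
        · rw [D.P18] at e; exact q2n (by rw [← e]; exact D.mem x h1)
    · rw [mem_rNR] at h1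
      by_cases h2 : y ∈ UDt.rNR b
      · rcases (show x = 17 ∨ x = 18 by omega) with rfl | rfl
        · rw [D.P17] at e; exact q1n (by rw [e]; exact D.mem y h2)
        · rw [D.P18] at e; exact q2n (by rw [e]; exact D.mem y h2)
      · rw [mem_rNR] at h2
        rcases (show (x = 17 ∧ y = 18) ∨ (x = 18 ∧ y = 17) by omega) with ⟨rfl, rfl⟩ | ⟨rfl, rfl⟩
        · rw [D.P17, D.P18] at e; exact q12 e
        · rw [D.P17, D.P18] at e; exact q12 e.symm
  have G : GenP (19 + b) P := by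
    refine ⟨hinj, ?_⟩
    intro x y z hx hy hz h1 h2 h3
    exact orient_ne TL.gp (hm x hx) (hm y hy) (hm z hz) (hinj x y hx hy h1) (hinj y z hy hz h2)
      (hinj x z hx hz h3)
  -- the set `T`
  have hTc : (X.filter (fun z => orient q1 q2 z < 0)) = T := by
    ext z
    rw [Finset.mem_filter]
    constructor
    · rintro ⟨h1, h2⟩
      exact (TN.memT z h1).2 h2
    · intro h1
      exact ⟨TL.TX h1, (TN.memT z (TL.TX h1)).1 h1⟩
  have tgen : ∀ z ∈ X, orient q1 q2 z ≠ 0 := by
    intro z hz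
    have h1 : z ∈ insert q1 (insert o X) := Finset.mem_insert_of_mem (Finset.mem_insert_of_mem hz)
    have h2 : z ≠ q1 := by rintro rfl; exact q1n hz
    have := TL.gen2 z h1 q1 (Finset.mem_insert_self _ _) h2
    rwa [← orient_cyc] at this
  refine
    { gpX := W.gp
      gen := G
      rlt := ?_
      clt := ?_
      real := D.mem
      end0 := ?_
      endV := ?_
      in0 := ?_
      inV := ?_
      conv := ?_
      out := ?_
      near := ?_
      gch := ?_
      row := ?_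
      ub := ?_
      fa := ?_
      eqq := ?_ }
  · intro x hx
    have := mem_rNR.1 hx
    show x < 19 + b
    omega
  · intro x hx
    simp only [UDt.dNR, List.mem_cons, List.not_mem_nil, or_false] at hx
    show x < 19 + b
    omega
  · intro x hx
    show 0 ≤ orient (P 0) (P 1) x
    rw [D.P0, D.P1]
    exact hull_nonneg W i hx
  · intro x hx
    show 0 ≤ orient (P 7) (P 16) x
    rw [D.P7, D.P16, show i + 4 = i + 3 + 1 by ring]
    exact hull_nonneg W (i + 3) hx
  · show 0 < orient (P 0) (P 1) (P 17)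
    rw [D.P0, D.P1, D.P17]
    exact (hin i).2.1
  · show 0 < orient (P 7) (P 16) (P 18)
    rw [D.P7, D.P16, D.P18, show i + 4 = i + 3 + 1 by ring]
    exact (hin (i + 3)).2.2
  · intro k hk
    have hk' : k + 2 ≤ 3 := hk
    rcases (show k = 0 ∨ k = 1 by omega) with rfl | rfl
    · show 0 < orient (P 0) (P 17) (P 18)
      rw [D.P0, D.P17, D.P18]
      exact TN.t7
    · show 0 < orient (P 17) (P 18) (P 16)
      rw [D.P16, D.P17, D.P18]
      exact TN.t3
  · intro x hx hun k hk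
    have hk' : k < 3 := hk
    have hun' : ∀ y ∈ UDt.rNR b, x ≠ P y := hun
    rcases (show k = 0 ∨ k = 1 ∨ k = 2 by omega) with rfl | rfl | rfl
    · show 0 < orient (P 0) (P 17) x
      rw [D.P0, D.P17]
      refine sR2 x hx (by rw [← D.P0]; exact hun' 0 m0) ?_
      intro hcon
      obtain ⟨j, hj, e⟩ := (D.hR x).1 hcon
      exact hun' j (R0 j hj) e.symm
    · show 0 < orient (P 17) (P 18) x
      rw [D.P17, D.P18]
      rcases lt_or_gt_of_ne (tgen x hx) with h1 | h1
      · obtain ⟨j, hj, e⟩ := D.hT x hx h1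
        exact absurd e.symm (hun' j hj)
      · exact h1
    · show 0 < orient (P 18) (P 16) x
      rw [D.P16, D.P18]
      refine sL2 x hx (by rw [← D.P16]; exact hun' 16 m16) ?_
      intro hcon
      obtain ⟨j, hj, e⟩ := (D.hL x).1 hcon
      exact hun' j (L0 j hj) e.symm
  · intro x hx h0 hV
    have hx' : x ∈ UDt.rNR b := hx
    have h0' : x ≠ 0 := h0
    have hV' : x ≠ 16 := hV
    rcases mem_rNR.1 hx' with h1 | h1
    · by_cases h2 : x ≤ 11
      · refine ⟨0, by show 0 < 3; omega, ?_⟩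
        show orient (P 0) (P 17) (P x) < 0
        rw [D.P0, D.P17]
        refine sR1 x hx' ?_
        simp only [UDt.Rl, List.mem_cons, List.not_mem_nil, or_false]
        omega
      · refine ⟨2, by show 2 < 3; omega, ?_⟩
        show orient (P 18) (P 16) (P x) < 0
        rw [D.P16, D.P18]
        refine sL1 x hx' ?_
        simp only [UDt.Ll, List.mem_cons, List.not_mem_nil, or_false]
        omega
    · refine ⟨1, by show 1 < 3; omega, ?_⟩
      show orient (P 17) (P 18) (P x) < 0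
      rw [D.P17, D.P18]
      exact D.hb x h1.1 h1.2
  · intro x hx hx' y hy z hz hyz
    simp only [UDt.dNR, List.mem_cons, List.not_mem_nil, or_false] at hx
    have hx'' : x ∉ UDt.rNR b := hx'
    rw [mem_rNR] at hx''
    rcases hx with rfl | rfl | rfl | rfl
    · omega
    · rw [D.P17, orient_cyc, orient_cyc]
      exact TL.gen1 y (Finset.mem_insert_of_mem hy) z (Finset.mem_insert_of_mem hz) hyz
    · rw [D.P18, orient_cyc, orient_cyc]
      exact TL.gen2 y (Finset.mem_insert_of_mem (Finset.mem_insert_of_mem hy)) z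
        (Finset.mem_insert_of_mem (Finset.mem_insert_of_mem hz)) hyz
    · omega
  · -- the rows
    intro f hf z hz
    simp only [UDt.dNR, List.mem_append, List.mem_map, List.mem_cons, List.not_mem_nil, or_false,
      or_assoc] at hf
    rcases hf with hf | rfl | rfl | rfl | rfl | rfl | rfl | rfl | rfl | ⟨k, hk, rfl⟩ | hf
    · exact D.srow f hf z hz
    · have hz' : z ∈ UDt.Rl := hz
      have := sR1 z (R0 z hz') hz'
      show 0 < orient (P 17) (P 0) (P z)
      rw [D.P0, D.P17, orient_swap]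
      linarith
    · rw [UDt.mem_ex] at hz
      simp only [List.mem_cons, not_or] at hz
      show 0 < orient (P 0) (P 17) (P z)
      rw [D.P0, D.P17]
      exact sR2 _ (D.mem z hz.1) (by rw [← D.P0]; exact D.inj z hz.1 0 m0 hz.2.1)
        (nR z hz.1 hz.2.2)
    · have hz' : z ∈ UDt.Ll := hz
      have := sL1 z (L0 z hz') hz'
      show 0 < orient (P 16) (P 18) (P z)
      rw [D.P16, D.P18, orient_swap]
      linarith
    · rw [UDt.mem_ex] at hz
      simp only [List.mem_cons, not_or] at hz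
      show 0 < orient (P 18) (P 16) (P z)
      rw [D.P16, D.P18]
      exact sL2 _ (D.mem z hz.1) (by rw [← D.P16]; exact D.inj z hz.1 16 m16 hz.2.1)
        (nL z hz.1 hz.2.2)
    · simp only [List.mem_cons, List.not_mem_nil, or_false] at hz ⊢
      rw [D.P17, D.P18]
      rcases hz with rfl | rfl
      · rw [D.P0]; exact TN.t2
      · rw [D.P16]; exact TN.t3
    · simp only [List.mem_cons, List.not_mem_nil, or_false] at hz ⊢
      rw [hz, D.P0, D.P17, D.P18]; exact TN.t7
    · simp only [List.mem_cons, List.not_mem_nil, or_false] at hz ⊢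
      rw [hz, D.P0, D.P16, D.P18]; exact TL.c2
    · rw [List.mem_range'_1] at hz
      have := D.hb z hz.1 hz.2
      show 0 < orient (P 18) (P 17) (P z)
      rw [D.P17, D.P18, orient_swap]
      linarith
    · rw [List.mem_range] at hk
      simp only [List.mem_range'_1] at hz ⊢
      exact D.srt _ _ (by omega) (by omega) (by omega)
    · exact D.frow f hf z hz
  · -- the bounds
    have ub : ∀ (S : Finset Pt) (l : List ℕ), (∀ x ∈ l, x ∈ UDt.rNR b) → ∀ I : Finset ℕ,
        (∀ x ∈ I, x ∈ l ∧ P x ∈ S) → I.card ≤ S.card := by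
      intro S l hl I hI
      rw [← Finset.card_image_of_injOn (s := I) (f := P)]
      · apply Finset.card_le_card
        intro z hz
        obtain ⟨x, hx, rfl⟩ := Finset.mem_image.1 hz
        exact (hI x hx).2
      · intro x hx y hy hxy
        by_contra hne
        exact D.inj x (hl x (hI x hx).1) y (hl y (hI y hy).1) hne hxy
    have lb : ∀ (S : Finset Pt) (l : List ℕ) (m : ℕ), l.length = m →
        (∀ z ∈ S, ∃ j ∈ l, P j = z) → ∀ I : Finset ℕ,
        (∀ x ∈ I, x ∈ l ∧ P x ∉ S) → I.card + S.card ≤ m := by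
      intro S l m hlm hS I hI
      set J := l.toFinset.filter (fun x => P x ∈ S) with hJ
      have h1 : S.card ≤ J.card := by
        refine (Finset.card_le_card ?_).trans (Finset.card_image_le (s := J) (f := P))
        intro z hz
        obtain ⟨j, hj, rfl⟩ := hS z hz
        exact Finset.mem_image.2 ⟨j, Finset.mem_filter.2 ⟨List.mem_toFinset.2 hj, hz⟩, rfl⟩
      have h2 : Disjoint I J := by
        rw [Finset.disjoint_left]
        intro x hx hx'
        exact (hI x hx).2 (Finset.mem_filter.1 hx').2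
      have h3 : I ∪ J ⊆ l.toFinset := by
        intro x hx
        rcases Finset.mem_union.1 hx with hx | hx
        · exact List.mem_toFinset.2 (hI x hx).1
        · exact (Finset.mem_filter.1 hx).1
      have h4 := Finset.card_le_card h3
      rw [Finset.card_union_of_disjoint h2] at h4
      have h5 := List.toFinset_card_le l
      omega
    have hTR : (T ∩ R).card = 9 := TL.cTR
    have hTc' : T.card = 12 := TL.cT
    have memT : ∀ x ∈ UDt.rNR b, (P x ∈ T ↔ orient q1 q2 (P x) < 0) := fun x hx =>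
      TN.memT _ (D.mem x hx)
    have Tcov : ∀ z ∈ T, ∃ j ∈ UDt.rNR b, P j = z := fun z hz =>
      D.hT z (TL.TX hz) ((TN.memT z (TL.TX hz)).1 hz)
    intro f hf I hI
    simp only [UDt.dNR, List.mem_cons, List.not_mem_nil, or_false] at hf
    rcases hf with rfl | rfl | rfl | rfl
    · simp only [D.P17, D.P18] at hI
      show I.card ≤ 12
      rw [← hTc']
      exact ub T (UDt.rNR b) (fun x hx => hx) I
        (fun x hx => ⟨(hI x hx).1, (memT x (hI x hx).1).2 (hI x hx).2⟩)
    · simp only [D.P17, D.P18] at hI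
      show I.card ≤ 5 + b
      have := lb T (UDt.rNR b) (17 + b) (length_rNR b) Tcov I (fun x hx =>
        ⟨(hI x hx).1, fun hcon => by
          have h1 := (memT x (hI x hx).1).1 hcon
          have h2 := (hI x hx).2
          rw [orient_swap] at h2
          linarith⟩)
      omega
    · simp only [D.P17, D.P18] at hI
      show I.card ≤ 9
      rw [← hTR]
      exact ub (T ∩ R) UDt.Rl R0 I (fun x hx => ⟨(hI x hx).1, Finset.mem_inter.2
        ⟨(memT x (R0 x (hI x hx).1)).2 (hI x hx).2, (D.hR _).2 ⟨x, (hI x hx).1, rfl⟩⟩⟩)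
    · simp only [D.P17, D.P18] at hI
      show I.card ≤ 2
      have := lb (T ∩ R) UDt.Rl 11 rfl (fun z hz => by
          obtain ⟨j, hj, e⟩ := (D.hR z).1 (Finset.mem_inter.1 hz).2
          exact ⟨j, hj, e⟩) I (fun x hx =>
        ⟨(hI x hx).1, fun hcon => by
          have h1 := (memT x (R0 x (hI x hx).1)).1 (Finset.mem_inter.1 hcon).1
          have h2 := (hI x hx).2
          rw [orient_swap] at h2
          linarith⟩)
      omega
  · intro f hf
    simp [UDt.dNR] at hf
  · intro f hf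
    simp [UDt.dNR] at hf

/-- Enumeration of a set in the angular order around `p i`. -/
lemma enum_sorted (W : RingS0 X h p a c) (i : ZMod h) (F : Finset Pt) (hF : F ⊆ X)
    (h0 : p i ∉ F) : ∃ f : ℕ → Pt, (∀ k < F.card, f k ∈ F) ∧
      (∀ j k, j < k → k < F.card → 0 < orient (p i) (f j) (f k)) ∧
      (∀ z ∈ F, ∃ k < F.card, f k = z) := by
  classical
  obtain ⟨n, Z, hn, S, z0, -, -⟩ := sort_v W i
  set K := (Finset.range (n + 1)).filter (fun k => Z k ∈ F) with hK
  have hKm : ∀ k, k ∈ K ↔ k ≤ n ∧ Z k ∈ F := by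
    intro k
    rw [hK, Finset.mem_filter, Finset.mem_range]
    constructor
    · rintro ⟨h1, h2⟩; exact ⟨by omega, h2⟩
    · rintro ⟨h1, h2⟩; exact ⟨by omega, h2⟩
  have hc : K.card = F.card := by
    have h1 : K.image Z = F := by
      ext z
      rw [Finset.mem_image]
      constructor
      · rintro ⟨k, hk, rfl⟩
        exact ((hKm k).1 hk).2
      · intro hz
        obtain ⟨k, hk, rfl⟩ := S.exi (hF hz)
        exact ⟨k, (hKm k).2 ⟨hk, hz⟩, rfl⟩
    rw [← h1, Finset.card_image_of_injOn]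
    intro x hx y hy hxy
    have hx' := (hKm x).1 hx
    have hy' := (hKm y).1 hy
    exact S.inj' hx'.1 hy'.1 hxy
  refine ⟨fun k => if hk : k < F.card then Z (K.orderEmbOfFin hc ⟨k, hk⟩) else 0, ?_, ?_, ?_⟩
  · intro k hk
    simp only [dif_pos hk]
    exact ((hKm _).1 (Finset.orderEmbOfFin_mem K hc ⟨k, hk⟩)).2
  · intro j k hjk hk
    have hj : j < F.card := by omega
    simp only [dif_pos hj, dif_pos hk]
    have m1 := (hKm _).1 (Finset.orderEmbOfFin_mem K hc ⟨j, hj⟩)
    have m2 := (hKm _).1 (Finset.orderEmbOfFin_mem K hc ⟨k, hk⟩)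
    have h1 : K.orderEmbOfFin hc ⟨j, hj⟩ < K.orderEmbOfFin hc ⟨k, hk⟩ := by
      rw [OrderEmbedding.lt_iff_lt]
      exact hjk
    have h2 : 1 ≤ K.orderEmbOfFin hc ⟨j, hj⟩ := by
      by_contra hcon
      have h3 : K.orderEmbOfFin hc ⟨j, hj⟩ = 0 := by omega
      rw [h3, z0] at m1
      exact h0 m1.2
    have := S.srt _ _ h2 h1 m2.1
    rwa [z0] at this
  · intro z hz
    obtain ⟨k, hk, rfl⟩ := S.exi (hF hz)
    have hkK : k ∈ K := (hKm k).2 ⟨hk, hz⟩
    have : k ∈ Set.range (K.orderEmbOfFin hc) := by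
      rw [Finset.range_orderEmbOfFin]
      exact hkK
    obtain ⟨⟨m, hm⟩, hmk⟩ := this
    refine ⟨m, hm, ?_⟩
    simp only [dif_pos hm]
    rw [hmk]

/-- The labels exist, normal case; the rows `srows` and `frows` are assumed for all extensions
of the labelling `Q` of the corner. -/
theorem exists_NR (W : RingS0 X h p a c)
    (TL : TopLine X (p i) (p (i + 4)) o q1 q2 R T 11 9)
    (TN : TopNR X (p i) (p (i + 4)) o q1 q2 T)
    (hin : ∀ m, 0 < orient (p m) (p (m + 1)) o ∧ 0 < orient (p m) (p (m + 1)) q1 ∧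
        0 < orient (p m) (p (m + 1)) q2)
    {Q : ℕ → Pt} (Qinj : ∀ x y, x < 17 → y < 17 → x ≠ y → Q x ≠ Q y)
    (QX : ∀ x, x < 17 → Q x ∈ X) (Q0 : Q 0 = p i) (Q1 : Q 1 = p (i + 1)) (Q7 : Q 7 = p (i + 3))
    (Q16 : Q 16 = p (i + 4)) (QR : ∀ z, z ∈ R ↔ ∃ j ∈ UDt.Rl, Q j = z)
    (QL : ∀ z, z ∈ L ↔ ∃ j ∈ UDt.Ll, Q j = z)
    (hsr : ∀ (b : ℕ) (P : ℕ → Pt), (∀ x, x < 17 → P x = Q x) →
      (∀ x, 19 ≤ x → x < 19 + b → P x ∈ X ∧ orient (p i) (p (i + 4)) (P x) < 0 ∧
        ∀ y, y < 17 → P x ≠ Q y) →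
      (∀ m, 0 < orient (p m) (p (m + 1)) (P 17) ∧ 0 < orient (p m) (p (m + 1)) (P 18)) →
      (∀ x y, x < 19 + b → y < 19 + b → x ≠ y → P x ≠ P y) →
      ∀ f ∈ UDt.srows (UDt.rNR b) (19 + b), ∀ z ∈ f.2.2, 0 < orient (P f.1) (P f.2.1) (P z))
    (hfr : ∀ f ∈ UDt.frows, ∀ z ∈ f.2.2, 0 < orient (Q f.1) (Q f.2.1) (Q z)) :
    ∃ b, b ≤ 3 ∧ ∃ P, LabNR X p i q1 q2 R L b P := by
  classical
  set F := T.filter (fun z => z ∉ R ∧ z ∉ L) with hF
  have hFX : F ⊆ X := fun z hz => TL.TX (Finset.mem_filter.1 hz).1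
  have hF0 : p i ∉ F := fun hz => TL.T0 (Finset.mem_filter.1 hz).1
  obtain ⟨f, f1, f2, f3⟩ := enum_sorted W i F hFX hF0
  set b := F.card with hb
  have hb3 : b ≤ 3 := by
    have h1 : F ∪ (T ∩ R) ⊆ T := by
      intro z hz
      rcases Finset.mem_union.1 hz with hz | hz
      · exact (Finset.mem_filter.1 hz).1
      · exact (Finset.mem_inter.1 hz).1
    have h2 : Disjoint F (T ∩ R) := by
      rw [Finset.disjoint_left]
      intro z hz hz'
      exact (Finset.mem_filter.1 hz).2.1 (Finset.mem_inter.1 hz').2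
    have h3 := Finset.card_le_card h1
    rw [Finset.card_union_of_disjoint h2, TL.cT, TL.cTR] at h3
    omega
  set P : ℕ → Pt := fun x => if x < 17 then Q x else if x = 17 then q1 else if x = 18 then q2
    else f (x - 19) with hP
  have PQ : ∀ x, x < 17 → P x = Q x := by
    intro x hx
    simp only [hP]
    rw [if_pos hx]
  have P17 : P 17 = q1 := by simp [hP]
  have P18 : P 18 = q2 := by simp [hP]
  have Pf : ∀ x, 19 ≤ x → P x = f (x - 19) := by
    intro x hx
    simp only [hP]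
    rw [if_neg (by omega), if_neg (by omega), if_neg (by omega)]
  have cls : ∀ j, j < 17 → j = 0 ∨ j = 16 ∨ Q j ∈ R ∨ Q j ∈ L := by
    intro j hj
    by_cases h1 : j = 0
    · exact Or.inl h1
    by_cases h2 : j = 16
    · exact Or.inr (Or.inl h2)
    by_cases h3 : j ≤ 11
    · right; right; left
      refine (QR _).2 ⟨j, ?_, rfl⟩
      simp only [UDt.Rl, List.mem_cons, List.not_mem_nil, or_false]
      omega
    · right; right; right
      refine (QL _).2 ⟨j, ?_, rfl⟩
      simp only [UDt.Ll, List.mem_cons, List.not_mem_nil, or_false]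
      omega
  have Fne : ∀ z ∈ F, ∀ y, y < 17 → z ≠ Q y := by
    rintro z hz y hy rfl
    obtain ⟨z1, z2, z3⟩ := Finset.mem_filter.1 hz
    rcases cls y hy with rfl | rfl | h1 | h1
    · rw [Q0] at z1; exact TL.T0 z1
    · rw [Q16] at z1; exact TL.T4 z1
    · exact z2 h1
    · exact z3 h1
  have Pb : ∀ x, 19 ≤ x → x < 19 + b → P x ∈ F := by
    intro x h1 h2
    rw [Pf x h1]
    exact f1 _ (by omega)
  have Pinj : ∀ x ∈ UDt.rNR b, ∀ y ∈ UDt.rNR b, x ≠ y → P x ≠ P y := by
    intro x hx y hy hxy e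
    rw [mem_rNR] at hx hy
    rcases hx with hx | hx <;> rcases hy with hy | hy
    · rw [PQ x hx, PQ y hy] at e
      exact Qinj x y hx hy hxy e
    · rw [PQ x hx] at e
      exact Fne _ (Pb y hy.1 hy.2) x hx e.symm
    · rw [PQ y hy] at e
      exact Fne _ (Pb x hx.1 hx.2) y hy e
    · rw [Pf x hx.1, Pf y hy.1] at e
      rcases lt_or_gt_of_ne hxy with h1 | h1
      · have := f2 (x - 19) (y - 19) (by omega) (by omega)
        rw [e] at this
        simp at this
      · have := f2 (y - 19) (x - 19) (by omega) (by omega)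
        rw [e] at this
        simp at this
  have Pmem : ∀ x ∈ UDt.rNR b, P x ∈ X := by
    intro x hx
    rw [mem_rNR] at hx
    rcases hx with hx | hx
    · rw [PQ x hx]; exact QX x hx
    · exact hFX (Pb x hx.1 hx.2)
  have q1n : q1 ∉ X := fun hq => TL.n1 (Finset.mem_insert_of_mem hq)
  have q2n : q2 ∉ X := fun hq => TL.n2 (Finset.mem_insert_of_mem (Finset.mem_insert_of_mem hq))
  have q12 : q1 ≠ q2 := by
    intro e
    exact TL.n2 (by rw [← e]; exact Finset.mem_insert_self _ _)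
  have Pall : ∀ x y, x < 19 + b → y < 19 + b → x ≠ y → P x ≠ P y := by
    intro x y hx hy hxy e
    by_cases h1 : x ∈ UDt.rNR b
    · by_cases h2 : y ∈ UDt.rNR b
      · exact Pinj x h1 y h2 hxy e
      · rw [mem_rNR] at h2
        rcases (show y = 17 ∨ y = 18 by omega) with rfl | rfl
        · rw [P17] at e; exact q1n (by rw [← e]; exact Pmem x h1)
        · rw [P18] at e; exact q2n (by rw [← e]; exact Pmem x h1)
    · rw [mem_rNR] at h1
      by_cases h2 : y ∈ UDt.rNR b
      · rcases (show x = 17 ∨ x = 18 by omega) with rfl | rfl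
        · rw [P17] at e; exact q1n (by rw [e]; exact Pmem y h2)
        · rw [P18] at e; exact q2n (by rw [e]; exact Pmem y h2)
      · rw [mem_rNR] at h2
        rcases (show (x = 17 ∧ y = 18) ∨ (x = 18 ∧ y = 17) by omega) with ⟨rfl, rfl⟩ | ⟨rfl, rfl⟩
        · rw [P17, P18] at e; exact q12 e
        · rw [P17, P18] at e; exact q12 e.symm
  refine ⟨b, hb3, P, ?_⟩
  exact
    { inj := Pinj
      mem := Pmem
      P0 := by rw [PQ 0 (by omega), Q0]
      P1 := by rw [PQ 1 (by omega), Q1]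
      P7 := by rw [PQ 7 (by omega), Q7]
      P16 := by rw [PQ 16 (by omega), Q16]
      P17 := P17
      P18 := P18
      hR := by
        intro z
        rw [QR z]
        constructor
        · rintro ⟨j, hj, e⟩
          refine ⟨j, hj, ?_⟩
          simp only [UDt.Rl, List.mem_cons, List.not_mem_nil, or_false] at hj
          rw [PQ j (by omega), e]
        · rintro ⟨j, hj, e⟩
          refine ⟨j, hj, ?_⟩
          simp only [UDt.Rl, List.mem_cons, List.not_mem_nil, or_false] at hj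
          rw [← PQ j (by omega), e]
      hL := by
        intro z
        rw [QL z]
        constructor
        · rintro ⟨j, hj, e⟩
          refine ⟨j, hj, ?_⟩
          simp only [UDt.Ll, List.mem_cons, List.not_mem_nil, or_false] at hj
          rw [PQ j (by omega), e]
        · rintro ⟨j, hj, e⟩
          refine ⟨j, hj, ?_⟩
          simp only [UDt.Ll, List.mem_cons, List.not_mem_nil, or_false] at hj
          rw [← PQ j (by omega), e]
      hT := by
        intro z hz hlt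
        have hzT := (TN.memT z hz).2 hlt
        by_cases h1 : z ∈ R
        · obtain ⟨j, hj, e⟩ := (QR z).1 h1
          refine ⟨j, ?_, ?_⟩
          · simp only [UDt.Rl, List.mem_cons, List.not_mem_nil, or_false] at hj
            exact mem_rNR.2 (by omega)
          · simp only [UDt.Rl, List.mem_cons, List.not_mem_nil, or_false] at hj
            rw [PQ j (by omega), e]
        by_cases h2 : z ∈ L
        · obtain ⟨j, hj, e⟩ := (QL z).1 h2
          refine ⟨j, ?_, ?_⟩
          · simp only [UDt.Ll, List.mem_cons, List.not_mem_nil, or_false] at hj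
            exact mem_rNR.2 (by omega)
          · simp only [UDt.Ll, List.mem_cons, List.not_mem_nil, or_false] at hj
            rw [PQ j (by omega), e]
        obtain ⟨k, hk, e⟩ := f3 z (Finset.mem_filter.2 ⟨hzT, h1, h2⟩)
        refine ⟨19 + k, mem_rNR.2 (by omega), ?_⟩
        rw [Pf _ (by omega), show 19 + k - 19 = k by omega, e]
      hb := by
        intro x h1 h2
        have h3 := Pb x h1 h2
        exact (TN.memT _ (hFX h3)).1 (Finset.mem_filter.1 h3).1
      srt := by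
        intro x y h1 h2 h3
        rw [PQ 0 (by omega), Q0, Pf x h1, Pf y (by omega)]
        exact f2 _ _ (by omega) (by omega)
      srow := by
        refine hsr b P PQ ?_ ?_ Pall
        · intro x h1 h2
          have h3 := Pb x h1 h2
          exact ⟨hFX h3, TL.Tn _ (Finset.mem_filter.1 h3).1, Fne _ h3⟩
        · intro m
          rw [P17, P18]
          exact (hin m).2
      frow := by
        have key : ∀ f ∈ UDt.frows, f.1 < 17 ∧ f.2.1 < 17 ∧ ∀ z ∈ f.2.2, z < 17 := by
          decide +kernel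
        intro g hg z hz
        have k := key g hg
        rw [PQ _ k.1, PQ _ k.2.1, PQ _ (k.2.2 z hz)]
        exact hfr g hg z hz }

/-- The labelled instance, normal case. -/
theorem inst_NR (W : RingS0 X h p a c)
    (gen : ∀ x ∈ X, ∀ y ∈ X, x ≠ y → orient x y o ≠ 0)
    (hR : ∀ z, z ∈ R ↔ z ∈ X ∧ orient (p i) o z < 0)
    (hL : ∀ z, z ∈ L ↔ z ∈ X ∧ orient o (p (i + 4)) z < 0)
    (TL : TopLine X (p i) (p (i + 4)) o q1 q2 R T 11 9)
    (TN : TopNR X (p i) (p (i + 4)) o q1 q2 T)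
    (hin : ∀ m, 0 < orient (p m) (p (m + 1)) o ∧ 0 < orient (p m) (p (m + 1)) q1 ∧
        0 < orient (p m) (p (m + 1)) q2)
    {Q : ℕ → Pt} (Qinj : ∀ x y, x < 17 → y < 17 → x ≠ y → Q x ≠ Q y)
    (QX : ∀ x, x < 17 → Q x ∈ X) (Q0 : Q 0 = p i) (Q1 : Q 1 = p (i + 1)) (Q7 : Q 7 = p (i + 3))
    (Q16 : Q 16 = p (i + 4)) (QR : ∀ z, z ∈ R ↔ ∃ j ∈ UDt.Rl, Q j = z)
    (QL : ∀ z, z ∈ L ↔ ∃ j ∈ UDt.Ll, Q j = z)
    (hsr : ∀ (b : ℕ) (P : ℕ → Pt), (∀ x, x < 17 → P x = Q x) →
      (∀ x, 19 ≤ x → x < 19 + b → P x ∈ X ∧ orient (p i) (p (i + 4)) (P x) < 0 ∧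
        ∀ y, y < 17 → P x ≠ Q y) →
      (∀ m, 0 < orient (p m) (p (m + 1)) (P 17) ∧ 0 < orient (p m) (p (m + 1)) (P 18)) →
      (∀ x y, x < 19 + b → y < 19 + b → x ≠ y → P x ≠ P y) →
      ∀ f ∈ UDt.srows (UDt.rNR b) (19 + b), ∀ z ∈ f.2.2, 0 < orient (P f.1) (P f.2.1) (P z))
    (hfr : ∀ f ∈ UDt.frows, ∀ z ∈ f.2.2, 0 < orient (Q f.1) (Q f.2.1) (Q z)) :
    ∃ b, b ≤ 3 ∧ ∃ P, UPatch (UDt.dNR b) P X := by
  obtain ⟨b, hb, P, D⟩ := exists_NR W TL TN hin Qinj QX Q0 Q1 Q7 Q16 QR QL hsr hfr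
  exact ⟨b, hb, P, upatch_NR W gen hR hL TL TN hin D⟩

end

end Geo

end Pool.Agent.GCP
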