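import Mathlib

/-!
# Convex partitions of planar point sets: definitions and basic lemmas (MP_062f91_co)
-/

namespace Pool.Agent.GCP

/-- The plane. -/
abbrev Pt : Type := ℝ × ℝ

/-- No three distinct points of `X` are collinear. -/
def GeneralPosition (X : Finset Pt) : Prop :=
  ∀ p ∈ X, ∀ q ∈ X, ∀ r ∈ X, p ≠ q → q ≠ r → p ≠ r →
    ¬ Collinear ℝ ({p, q, r} : Set Pt)

/-- Every point of `Y` is a vertex (extreme point) of the convex hull of `Y`. -/
def IsConvexPolygon (Y : Finset Pt) : Prop :=
  (Y : Set Pt) ⊆ (convexHull ℝ (Y : Set Pt)).extremePoints ℝ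

/-- `X` is the disjoint union of `k` nonempty sets `Y i`, each the vertex set of a convex
polygon, with pairwise disjoint convex hulls. -/
def HasConvexPartition (X : Finset Pt) (k : ℕ) : Prop :=
  ∃ Y : Fin k → Finset Pt,
    (∀ i, (Y i).Nonempty) ∧
    (∀ i j, i ≠ j → Disjoint (Y i) (Y j)) ∧
    Finset.univ.biUnion Y = X ∧
    (∀ i, IsConvexPolygon (Y i)) ∧
    (∀ i j, i ≠ j →
      Disjoint (convexHull ℝ (Y i : Set Pt)) (convexHull ℝ (Y j : Set Pt)))

/-- The smallest `g` such that every set of `n` points in general position in the plane has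
a convex partition with `g` parts. -/
noncomputable def G (n : ℕ) : ℕ :=
  sInf {g | ∀ X : Finset Pt, X.card = n → GeneralPosition X → HasConvexPartition X g}

/-- Signed area of the triangle. -/
def orient (a b c : Pt) : ℝ :=
  (b.1 - a.1) * (c.2 - a.2) - (b.2 - a.2) * (c.1 - a.1)

lemma collinear_of_orient {p q r : Pt} (hpq : p ≠ q) (h : orient p q r = 0) :
    Collinear ℝ ({p, q, r} : Set Pt) := by
  rw [collinear_iff_of_mem (p₀ := p) (by simp)]
  refine ⟨q - p, ?_⟩
  intro x hx
  simp only [Set.mem_insert_iff, Set.mem_singleton_iff] at hx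
  rcases hx with rfl | rfl | rfl
  · exact ⟨0, by simp⟩
  · exact ⟨1, by simp⟩
  · unfold orient at h
    by_cases h1 : q.1 - p.1 = 0
    · have h2 : q.2 - p.2 ≠ 0 := by
        intro h2
        apply hpq
        ext
        · linarith
        · linarith
      refine ⟨(x.2 - p.2) / (q.2 - p.2), ?_⟩
      ext
      · simp only [vadd_eq_add, Prod.fst_add, Prod.smul_fst, Prod.fst_sub, smul_eq_mul]
        rw [h1] at h ⊢
        have : (q.2 - p.2) * (x.1 - p.1) = 0 := by linarith
        have := (mul_eq_zero.1 this).resolve_left h2
        linarith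
      · simp only [vadd_eq_add, Prod.snd_add, Prod.smul_snd, Prod.snd_sub, smul_eq_mul]
        field_simp
        ring
    · refine ⟨(x.1 - p.1) / (q.1 - p.1), ?_⟩
      ext
      · simp only [vadd_eq_add, Prod.fst_add, Prod.smul_fst, Prod.fst_sub, smul_eq_mul]
        field_simp
        ring
      · simp only [vadd_eq_add, Prod.snd_add, Prod.smul_snd, Prod.snd_sub, smul_eq_mul]
        field_simp
        linarith

lemma orient_ne {X : Finset Pt} (hX : GeneralPosition X) {p q r : Pt} (hp : p ∈ X) (hq : q ∈ X)
    (hr : r ∈ X) (h1 : p ≠ q) (h2 : q ≠ r) (h3 : p ≠ r) : orient p q r ≠ 0 := fun h =>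
  hX p hp q hq r hr h1 h2 h3 (collinear_of_orient h1 h)

lemma orient_cyc (a b c : Pt) : orient b c a = orient a b c := by
  unfold orient; ring

lemma orient_swap (a b c : Pt) : orient b a c = -orient a b c := by
  unfold orient; ring

lemma orient_swap' (a b c : Pt) : orient a c b = -orient a b c := by
  unfold orient; ring

@[simp] lemma orient_left (a b : Pt) : orient a b a = 0 := by unfold orient; ring

@[simp] lemma orient_right (a b : Pt) : orient a b b = 0 := by unfold orient; ring

@[simp] lemma orient_self (a b : Pt) : orient a a b = 0 := by unfold orient; ring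

lemma orient_comb (a b x y : Pt) {s t : ℝ} (h : s + t = 1) :
    orient a b (s • x + t • y) = s * orient a b x + t * orient a b y := by
  have ht : t = 1 - s := by linarith
  subst ht
  unfold orient
  simp only [Prod.fst_add, Prod.snd_add, Prod.smul_fst, Prod.smul_snd, smul_eq_mul]
  ring

/-- The set where `±orient a b` is positive, together with one point of value `≥ 0`. -/
lemma convex_pos (a b c : Pt) (e : ℝ) (hc : e * orient a b c = 0) :
    Convex ℝ {z : Pt | z = c ∨ 0 < e * orient a b z} := by
  intro x hx y hy s t hs ht hst
  simp only [Set.mem_ofPred_eq] at hx hy ⊢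
  rw [orient_comb a b x y hst]
  rcases hx with rfl | hx
  · rcases hy with rfl | hy
    · left
      rw [← add_smul, hst, one_smul]
    · rcases ht.eq_or_lt with h0 | h0
      · left
        have h1 : s = 1 := by linarith
        rw [← h0, h1]
        simp
      · right
        have := mul_pos h0 hy
        nlinarith
  · rcases hy with rfl | hy
    · rcases hs.eq_or_lt with h0 | h0
      · left
        have h1 : t = 1 := by linarith
        rw [← h0, h1]
        simp
      · right
        have := mul_pos h0 hx
        nlinarith
    · right
      rcases hs.eq_or_lt with h0 | h0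
      · have h1 : t = 1 := by linarith
        rw [← h0, h1]
        nlinarith
      · have := mul_pos h0 hx
        have := mul_nonneg ht hy.le
        nlinarith

/-- Two sets separated by the line through `a` and `b` have disjoint convex hulls. -/
lemma hull_disjoint {A B : Set Pt} {a b : Pt} (hab : a ≠ b)
    (hA : ∀ x ∈ A, x ≠ a → 0 < orient a b x) (hB : ∀ x ∈ B, x ≠ b → orient a b x < 0) :
    Disjoint (convexHull ℝ A) (convexHull ℝ B) := by
  rw [Set.disjoint_left]
  intro z hzA hzB
  have h1 : z ∈ {z : Pt | z = a ∨ 0 < 1 * orient a b z} := by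
    refine convexHull_min ?_ (convex_pos a b a 1 (by simp)) hzA
    intro x hx
    by_cases hxa : x = a
    · exact Or.inl hxa
    · exact Or.inr (by simpa using hA x hx hxa)
  have h2 : z ∈ {z : Pt | z = b ∨ 0 < (-1) * orient a b z} := by
    refine convexHull_min ?_ (convex_pos a b b (-1) (by simp)) hzB
    intro x hx
    by_cases hxa : x = b
    · exact Or.inl hxa
    · exact Or.inr (by have := hB x hx hxa; linarith)
  simp only [Set.mem_ofPred_eq] at h1 h2
  rcases h1 with h1 | h1 <;> rcases h2 with h2 | h2
  · exact hab (h1.symm.trans h2)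
  · subst h1; simp at h2
  · subst h2; simp at h1
  · linarith

/-- A point on the other side of the line through `p` and `q` than all other points of the set is
extreme. -/
lemma extreme_of_side {S : Set Pt} {x p q : Pt} (hx : x ∈ S) (h : orient p q x < 0)
    (hS : ∀ y ∈ S, y ≠ x → 0 ≤ orient p q y) : x ∈ (convexHull ℝ S).extremePoints ℝ := by
  have hconv : Convex ℝ {y : Pt | y = x ∨ orient p q x < orient p q y} := by
    intro y hy z hz a b ha hb hab
    simp only [Set.mem_ofPred_eq] at hy hz ⊢
    rw [orient_comb p q y z hab]
    have hb' : b = 1 - a := by linarith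
    rcases hy with rfl | hy
    · rcases hz with rfl | hz
      · left
        rw [← add_smul, hab, one_smul]
      · rcases hb.eq_or_lt with hb0 | hb0
        · left
          have : a = 1 := by linarith
          rw [← hb0, this]
          simp
        · right
          have := mul_pos hb0 (sub_pos.2 hz)
          nlinarith
    · rcases hz with rfl | hz
      · rcases ha.eq_or_lt with ha0 | ha0
        · left
          have : b = 1 := by linarith
          rw [← ha0, this]
          simp
        · right
          have := mul_pos ha0 (sub_pos.2 hy)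
          nlinarith
      · right
        have h1 := mul_nonneg ha (sub_pos.2 hy).le
        have h2 := mul_nonneg hb (sub_pos.2 hz).le
        rcases ha.eq_or_lt with ha0 | ha0
        · have : b = 1 := by linarith
          rw [← ha0, this]
          linarith
        · have := mul_pos ha0 (sub_pos.2 hy)
          nlinarith
  have hsub : convexHull ℝ S ⊆ {y : Pt | y = x ∨ orient p q x < orient p q y} := by
    refine convexHull_min ?_ hconv
    intro y hy
    by_cases hyx : y = x
    · exact Or.inl hyx
    · exact Or.inr (lt_of_lt_of_le h (hS y hy hyx))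
  rw [mem_extremePoints]
  refine ⟨subset_convexHull ℝ S hx, ?_⟩
  intro y hy z hz hyz
  obtain ⟨a, b, ha, hb, hab, hxx⟩ := hyz
  have hv : orient p q x = a * orient p q y + b * orient p q z := by
    rw [← hxx, orient_comb p q y z hab]
  rcases hsub hy with h1 | h1
  · rcases hsub hz with h2 | h2
    · exact ⟨h1, h2⟩
    · exfalso
      rw [h1] at hv
      have := mul_pos hb (sub_pos.2 h2)
      have hb' : b = 1 - a := by linarith
      nlinarith
  · exfalso
    rcases hsub hz with h2 | h2
    · rw [h2] at hv
      have := mul_pos ha (sub_pos.2 h1)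
      have hb' : b = 1 - a := by linarith
      nlinarith
    · have := mul_pos ha (sub_pos.2 h1)
      have := mul_pos hb (sub_pos.2 h2)
      have hb' : b = 1 - a := by linarith
      nlinarith

end Pool.Agent.GCP
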