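import Mathlib

/-!
# The exotic seven-prefixes (MP_062f91_co)

Each entry is `(code, mask, h, zt, zs)`: `code` = the 35 signs (bit `a + b(b-1)/2 + c(c-1)(c-2)/6`
is set iff `0 < orient (P a) (P b) (P c)`), `mask` = the hull bits, `h` = the position of the
second hull vertex, `zt` / `zs` = the positions of the companions of the hull vertex at `0` / at `h`.
-/

namespace Pool.Agent.GCP

/-- The 116 exotic states. -/
def E116 : List (ℕ × ℕ × ℕ × ℕ × ℕ) :=
  [(524311, 9, 3, 1, 4),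
   (986135, 65, 6, 2, 4),
   (2042935, 33, 5, 2, 4),
   (4722798, 9, 3, 2, 4),
   (5184622, 65, 6, 1, 4),
   (7289982, 33, 5, 1, 4),
   (32604158, 5, 2, 4, 3),
   (45199287, 3, 1, 4, 3),
   (50643841, 5, 2, 3, 4),
   (51373953, 65, 6, 1, 4),
   (54711240, 3, 1, 3, 4),
   (55573448, 65, 6, 2, 4),
   (59764625, 33, 5, 1, 4),
   (63963112, 33, 5, 2, 4),
   (99713022, 5, 2, 4, 3),
   (99745790, 5, 2, 4, 3),
   (112308151, 3, 1, 4, 3),
   (112324535, 3, 1, 4, 3),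
   (188928968, 3, 1, 3, 4),
   (188937160, 3, 1, 3, 4),
   (319079297, 5, 2, 3, 4),
   (319087489, 5, 2, 3, 4),
   (530050961, 9, 3, 2, 4),
   (532148113, 9, 3, 2, 4),
   (532672401, 9, 3, 2, 4),
   (535298024, 9, 3, 1, 4),
   (536346600, 9, 3, 1, 4),
   (536870888, 9, 3, 1, 4),
   (537395223, 9, 3, 1, 4),
   (537396247, 9, 3, 1, 4),
   (541593710, 9, 3, 2, 4),
   (541595758, 9, 3, 2, 4),
   (746273918, 5, 2, 3, 4),
   (754662526, 5, 2, 3, 4),
   (754924670, 5, 2, 3, 4),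
   (876424247, 3, 1, 3, 4),
   (884812855, 3, 1, 3, 4),
   (884943927, 3, 1, 3, 4),
   (940474369, 5, 2, 4, 3),
   (944656456, 3, 1, 4, 3),
   (961433672, 3, 1, 4, 3),
   (961499208, 3, 1, 4, 3),
   (974028801, 5, 2, 4, 3),
   (974094337, 5, 2, 4, 3),
   (2113928702, 5, 2, 5, 3),
   (2126507703, 3, 1, 5, 3),
   (3209687880, 3, 1, 3, 5),
   (5352973057, 5, 2, 3, 5),
   (9597551623, 9, 3, 1, 5),
   (9601751118, 9, 3, 2, 5),
   (17116890119, 17, 4, 2, 5),
   (17121089614, 17, 4, 1, 5),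
   (17125280791, 65, 6, 2, 5),
   (17129479278, 65, 6, 1, 5),
   (17173570305, 17, 4, 1, 5),
   (17175668609, 65, 6, 1, 5),
   (17178817352, 17, 4, 2, 5),
   (17179868104, 65, 6, 2, 5),
   (17179870263, 65, 6, 2, 5),
   (17180921015, 17, 4, 2, 5),
   (17184069758, 65, 6, 1, 5),
   (17186168062, 17, 4, 1, 5),
   (17230259089, 65, 6, 1, 5),
   (17234457576, 65, 6, 2, 5),
   (17238648753, 17, 4, 1, 5),
   (17242848248, 17, 4, 2, 5),
   (24757987249, 9, 3, 2, 5),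
   (24762186744, 9, 3, 1, 5),
   (29006765310, 5, 2, 3, 5),
   (31150050487, 3, 1, 3, 5),
   (32233230664, 3, 1, 5, 3),
   (32245809665, 5, 2, 5, 3),
   (33385644030, 5, 2, 4, 3),
   (33385709566, 5, 2, 4, 3),
   (33398239159, 3, 1, 4, 3),
   (33398304695, 3, 1, 4, 3),
   (33415081911, 3, 1, 4, 3),
   (33419263998, 5, 2, 4, 3),
   (33474794440, 3, 1, 3, 4),
   (33474925512, 3, 1, 3, 4),
   (33483314120, 3, 1, 3, 4),
   (33604813697, 5, 2, 3, 4),
   (33605075841, 5, 2, 3, 4),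
   (33613464449, 5, 2, 3, 4),
   (33818142609, 9, 3, 2, 4),
   (33818144657, 9, 3, 2, 4),
   (33822342120, 9, 3, 1, 4),
   (33822343144, 9, 3, 1, 4),
   (33822867479, 9, 3, 1, 4),
   (33823391767, 9, 3, 1, 4),
   (33824440343, 9, 3, 1, 4),
   (33827065966, 9, 3, 2, 4),
   (33827590254, 9, 3, 2, 4),
   (33829687406, 9, 3, 2, 4),
   (34040650878, 5, 2, 3, 4),
   (34040659070, 5, 2, 3, 4),
   (34170801207, 3, 1, 3, 4),
   (34170809399, 3, 1, 3, 4),
   (34247413832, 3, 1, 4, 3),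
   (34247430216, 3, 1, 4, 3),
   (34259992577, 5, 2, 4, 3),
   (34260025345, 5, 2, 4, 3),
   (34295775255, 33, 5, 2, 4),
   (34299973742, 33, 5, 1, 4),
   (34304164919, 65, 6, 2, 4),
   (34305027127, 3, 1, 3, 4),
   (34308364414, 65, 6, 1, 4),
   (34309094526, 5, 2, 3, 4),
   (34314539080, 3, 1, 4, 3),
   (34327134209, 5, 2, 4, 3),
   (34352448385, 33, 5, 1, 4),
   (34354553745, 65, 6, 1, 4),
   (34355015569, 9, 3, 2, 4),
   (34357695432, 33, 5, 2, 4),
   (34358752232, 65, 6, 2, 4),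
   (34359214056, 9, 3, 1, 4)]

end Pool.Agent.GCP
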