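import Pool.Agent.GCP.E7B0
import Pool.Agent.GCP.E7B1

set_option autoImplicit false
set_option maxRecDepth 100000

/-! # Case E7 (generated) -/

namespace Pool.Agent.GCP.E7

open Pool.Agent.GCP DB

theorem a0 : B 0 32 := b0
theorem a1 : B 0 64 := a0.trans b1
theorem a2 : B 0 96 := a1.trans b2
theorem a3 : B 0 128 := a2.trans b3
theorem a4 : B 0 160 := a3.trans b4
theorem a5 : B 0 192 := a4.trans b5
theorem a6 : B 0 224 := a5.trans b6
theorem a7 : B 0 256 := a6.trans b7
theorem a8 : B 0 288 := a7.trans b8
theorem a9 : B 0 320 := a8.trans b9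
theorem a10 : B 0 352 := a9.trans b10
theorem a11 : B 0 384 := a10.trans b11
theorem a12 : B 0 416 := a11.trans b12
theorem a13 : B 0 448 := a12.trans b13
theorem a14 : B 0 480 := a13.trans b14
theorem a15 : B 0 512 := a14.trans b15
theorem a16 : B 0 544 := a15.trans b16
theorem a17 : B 0 576 := a16.trans b17
theorem a18 : B 0 608 := a17.trans b18
theorem a19 : B 0 640 := a18.trans b19
theorem a20 : B 0 672 := a19.trans b20
theorem a21 : B 0 704 := a20.trans b21
theorem a22 : B 0 736 := a21.trans b22
theorem a23 : B 0 768 := a22.trans b23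
theorem a24 : B 0 800 := a23.trans b24
theorem a25 : B 0 832 := a24.trans b25
theorem a26 : B 0 864 := a25.trans b26
theorem a27 : B 0 896 := a26.trans b27
theorem a28 : B 0 928 := a27.trans b28
theorem a29 : B 0 960 := a28.trans b29
theorem a30 : B 0 992 := a29.trans b30
theorem a31 : B 0 1024 := a30.trans b31
theorem a32 : B 0 1056 := a31.trans b32
theorem a33 : B 0 1088 := a32.trans b33
theorem a34 : B 0 1120 := a33.trans b34
theorem a35 : B 0 1152 := a34.trans b35
theorem a36 : B 0 1184 := a35.trans b36
theorem a37 : B 0 1216 := a36.trans b37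
theorem a38 : B 0 1248 := a37.trans b38
theorem a39 : B 0 1280 := a38.trans b39
theorem a40 : B 0 1312 := a39.trans b40
theorem a41 : B 0 1344 := a40.trans b41
theorem a42 : B 0 1376 := a41.trans b42
theorem a43 : B 0 1408 := a42.trans b43
theorem a44 : B 0 1440 := a43.trans b44
theorem a45 : B 0 1472 := a44.trans b45
theorem a46 : B 0 1504 := a45.trans b46
theorem a47 : B 0 1536 := a46.trans b47
theorem a48 : B 0 1568 := a47.trans b48
theorem a49 : B 0 1600 := a48.trans b49
theorem a50 : B 0 1632 := a49.trans b50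
theorem a51 : B 0 1664 := a50.trans b51
theorem a52 : B 0 1696 := a51.trans b52
theorem a53 : B 0 1728 := a52.trans b53
theorem a54 : B 0 1760 := a53.trans b54
theorem a55 : B 0 1792 := a54.trans b55
theorem a56 : B 0 1824 := a55.trans b56
theorem a57 : B 0 1856 := a56.trans b57
theorem a58 : B 0 1888 := a57.trans b58
theorem a59 : B 0 1920 := a58.trans b59
theorem a60 : B 0 1952 := a59.trans b60
theorem a61 : B 0 1984 := a60.trans b61
theorem a62 : B 0 2016 := a61.trans b62
theorem a63 : B 0 2048 := a62.trans b63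
theorem a64 : B 0 2080 := a63.trans b64
theorem a65 : B 0 2112 := a64.trans b65
theorem a66 : B 0 2127 := a65.trans b66

theorem main {Z : ℕ → Pt} (hF : FreeOK [0,3,7,10,15]) (R : RZ 18 [0,1,4,7,12,15,18] Z) :
    HCPle (Z '' {i | i < 19}) 5 := by
  by_contra hK
  have hth := tfk_sound hF R hK
  have h1 := a66 (val Z) (base hth) hth (fun k hk => absurd hk (Nat.not_lt_zero k))
  have hl : tgtOK db 2127 [2126] [(0, 0)] = true := by decide +kernel
  exact not_hold_empty _ (tgt_sound hl h1 (0, 0) (by simp))

end Pool.Agent.GCP.E7
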