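import Pool.Agent.GCP.E7Db

set_option autoImplicit false
set_option maxRecDepth 100000

/-! # Blocks E7B0 (generated) -/

namespace Pool.Agent.GCP.E7

open Pool.Agent.GCP DB

theorem b0 : B 0 32 := Blk.of_chk [.t 1 (nat_lit 0) (.ax 1 2 3 5 1), .t 1 (nat_lit 0) (.ax 1 2 3 6 1), .t 1 (nat_lit 0) (.ax 1 2 3 8 1), .t 1 (nat_lit 0) (.ax 1 2 3 9 1), .t 1 (nat_lit 0) (.ax 1 2 3 10 1), .t 1 (nat_lit 0) (.ax 1 2 4 5 1), .t 1 (nat_lit 0) (.ax 1 2 4 6 1), .t 1 (nat_lit 0) (.ax 1 2 4 8 1), .t 1 (nat_lit 0) (.ax 1 2 4 9 1), .t 1 (nat_lit 0) (.ax 1 2 4 10 1), .t 1 (nat_lit 0) (.ax 1 2 4 11 1), .t 1 (nat_lit 0) (.ax 1 2 4 12 1), .t 1 (nat_lit 0) (.ax 1 2 4 13 1), .t 1 (nat_lit 0) (.ax 1 2 4 14 1), .t 1 (nat_lit 0) (.ax 1 2 4 15 1), .t 1 (nat_lit 0) (.ax 1 2 4 16 1), .t 1 (nat_lit 0) (.ax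 1 2 4 17 1), .t 1 (nat_lit 0) (.ax 1 2 4 18 1), .t 1 (nat_lit 0) (.ax 1 2 5 7 1), .t 1 (nat_lit 0) (.ax 1 2 5 7 3), .t 1 (nat_lit 0) (.ax 1 2 5 8 1), .t 1 (nat_lit 0) (.ax 1 2 5 9 1), .t 1 (nat_lit 0) (.ax 1 2 5 10 1), .t 1 (nat_lit 0) (.ax 1 2 5 11 1), .t 1 (nat_lit 0) (.ax 1 2 6 7 1), .t 1 (nat_lit 0) (.ax 1 2 6 9 1), .t 1 (nat_lit 0) (.ax 1 2 7 8 1), .t 1 (nat_lit 0) (.ax 1 2 7 9 1), .t 1 (nat_lit 0) (.ax 1 2 7 10 1), .t 1 (nat_lit 0) (.ax 1 2 8 9 1), .t 1 (nat_lit 0) (.ax 1 2 8 10 1), .t 1 (nat_lit 0) (.ax 1 2 8 12 1)] (by decide +kernel) (by decide +kernel)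
theorem b1 : B 32 64 := Blk.of_chk [.t 1 (nat_lit 0) (.ax 1 2 8 13 1), .t 1 (nat_lit 0) (.ax 1 2 9 10 1), .t 1 (nat_lit 0) (.ax 1 2 9 10 3), .t 1 (nat_lit 0) (.ax 1 2 9 11 1), .t 1 (nat_lit 0) (.ax 1 2 9 12 1), .t 1 (nat_lit 0) (.ax 1 2 10 12 1), .t 1 (nat_lit 0) (.ax 1 2 10 15 1), .t 1 (nat_lit 0) (.ax 1 2 11 15 1), .t 1 (nat_lit 0) (.ax 1 3 5 8 0), .t 1 (nat_lit 0) (.ax 1 3 5 9 0), .t 1 (nat_lit 0) (.ax 1 3 5 10 0), .t 1 (nat_lit 0) (.ax 1 3 5 12 0), .t 1 (nat_lit 0) (.ax 1 3 6 8 0), .t 1 (nat_lit 0) (.ax 1 3 6 9 0), .t 1 (nat_lit 0) (.ax 1 3 6 10 0), .t 1 (nat_lit 0) (.ax 1 3 6 12 0), .t 1 (nat_lit 0) (.ax 1 3 8 9 0), .t 1 (nat_lit 0) (.ax 1 3 8 10 0), .t 1 (nat_lit 0) (.ax 1 3 8 11 0), .t 1 (nat_lit 0) (.ax 1 3 9 10 0), .t 1 (nat_lit 0) (.ax 1 3 9 11 0), .t 1 (nat_lit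 0) (.ax 1 3 11 12 0), .t 1 (nat_lit 0) (.ax 1 4 5 6 0), .t 1 (nat_lit 0) (.ax 1 4 5 8 0), .t 1 (nat_lit 0) (.ax 1 4 5 8 2), .t 1 (nat_lit 0) (.ax 1 4 5 9 0), .t 1 (nat_lit 0) (.ax 1 4 5 10 0), .t 1 (nat_lit 0) (.ax 1 4 5 11 0), .t 1 (nat_lit 0) (.ax 1 4 5 12 0), .t 1 (nat_lit 0) (.ax 1 4 5 15 0), .t 1 (nat_lit 0) (.ax 1 4 6 8 0), .t 1 (nat_lit 0) (.ax 1 4 6 9 0)] (by decide +kernel) (by decide +kernel)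
theorem b2 : B 64 96 := Blk.of_chk [.t 1 (nat_lit 0) (.ax 1 4 6 10 0), .t 1 (nat_lit 0) (.ax 1 4 6 11 0), .t 1 (nat_lit 0) (.ax 1 4 6 11 2), .t 1 (nat_lit 0) (.ax 1 4 6 15 0), .t 1 (nat_lit 0) (.ax 1 4 7 8 0), .t 1 (nat_lit 0) (.ax 1 4 7 9 0), .t 1 (nat_lit 0) (.ax 1 4 7 10 0), .t 1 (nat_lit 0) (.ax 1 4 7 11 0), .t 1 (nat_lit 0) (.ax 1 4 7 13 0), .t 1 (nat_lit 0) (.ax 1 4 7 14 0), .t 1 (nat_lit 0) (.ax 1 4 7 15 0), .t 1 (nat_lit 0) (.ax 1 4 7 16 0), .t 1 (nat_lit 0) (.ax 1 4 7 17 0), .t 1 (nat_lit 0) (.ax 1 4 7 18 0), .t 1 (nat_lit 0) (.ax 1 4 8 9 0), .t 1 (nat_lit 0) (.ax 1 4 8 10 0), .t 1 (nat_lit 0) (.ax 1 4 8 11 0), .t 1 (nat_lit 0) (.ax 1 4 8 12 0), .t 1 (nat_lit 0) (.ax 1 4 8 12 2), .t 1 (nat_lit 0) (.ax 1 4 8 15 0), .t 1 (nat_lit 0) (.ax 1 4 9 10 0), .t 1 (nat_lit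 0) (.ax 1 4 9 11 0), .t 1 (nat_lit 0) (.ax 1 4 9 12 0), .t 1 (nat_lit 0) (.ax 1 4 9 15 0), .t 1 (nat_lit 0) (.ax 1 4 10 12 0), .t 1 (nat_lit 0) (.ax 1 4 10 15 0), .t 1 (nat_lit 0) (.ax 1 4 11 12 0), .t 1 (nat_lit 0) (.ax 1 4 11 15 0), .t 1 (nat_lit 0) (.ax 1 4 13 15 0), .t 1 (nat_lit 0) (.ax 1 5 6 7 0), .t 1 (nat_lit 0) (.ax 1 5 6 7 1), .t 1 (nat_lit 0) (.ax 1 5 6 7 4)] (by decide +kernel) (by decide +kernel)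
theorem b3 : B 96 128 := Blk.of_chk [.t 1 (nat_lit 0) (.ax 1 5 6 7 5), .t 1 (nat_lit 0) (.ax 1 5 6 7 6), .t 1 (nat_lit 0) (.ax 1 5 6 7 7), .t 1 (nat_lit 0) (.ax 1 5 6 8 0), .t 1 (nat_lit 0) (.ax 1 5 6 8 1), .t 1 (nat_lit 0) (.ax 1 5 6 8 5), .t 1 (nat_lit 0) (.ax 1 5 6 9 3), .t 1 (nat_lit 0) (.ax 1 5 6 10 3), .t 1 (nat_lit 0) (.ax 1 5 7 8 1), .t 1 (nat_lit 0) (.ax 1 5 7 8 2), .t 1 (nat_lit 0) (.ax 1 5 7 8 4), .t 1 (nat_lit 0) (.ax 1 5 7 9 1), .t 1 (nat_lit 0) (.ax 1 5 7 9 4), .t 1 (nat_lit 0) (.ax 1 5 7 10 4), .t 1 (nat_lit 0) (.ax 1 5 7 11 4), .t 1 (nat_lit 0) (.ax 1 5 7 12 4), .t 1 (nat_lit 0) (.ax 1 5 7 12 6), .t 1 (nat_lit 0) (.ax 1 5 7 15 4), .t 1 (nat_lit 0) (.ax 1 5 8 9 1), .t 1 (nat_lit 0) (.ax 1 5 8 9 2), .t 1 (nat_lit 0) (.ax 1 5 8 9 3), .t 1 (nat_lit 0) (.ax 1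 5 8 9 4), .t 1 (nat_lit 0) (.ax 1 5 8 9 6), .t 1 (nat_lit 0) (.ax 1 5 8 10 0), .t 1 (nat_lit 0) (.ax 1 5 8 10 1), .t 1 (nat_lit 0) (.ax 1 5 8 10 2), .t 1 (nat_lit 0) (.ax 1 5 8 10 3), .t 1 (nat_lit 0) (.ax 1 5 8 10 4), .t 1 (nat_lit 0) (.ax 1 5 8 10 5), .t 1 (nat_lit 0) (.ax 1 5 8 10 6), .t 1 (nat_lit 0) (.ax 1 5 8 10 7), .t 1 (nat_lit 0) (.ax 1 5 8 11 1)] (by decide +kernel) (by decide +kernel)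
theorem b4 : B 128 160 := Blk.of_chk [.t 1 (nat_lit 0) (.ax 1 5 8 12 0), .t 1 (nat_lit 0) (.ax 1 5 8 12 1), .t 1 (nat_lit 0) (.ax 1 5 8 12 2), .t 1 (nat_lit 0) (.ax 1 5 8 12 4), .t 1 (nat_lit 0) (.ax 1 5 8 12 5), .t 1 (nat_lit 0) (.ax 1 5 8 12 6), .t 1 (nat_lit 0) (.ax 1 5 8 12 7), .t 1 (nat_lit 0) (.ax 1 5 8 15 1), .t 1 (nat_lit 0) (.ax 1 5 8 15 6), .t 1 (nat_lit 0) (.ax 1 5 9 10 2), .t 1 (nat_lit 0) (.ax 1 5 9 10 6), .t 1 (nat_lit 0) (.ax 1 5 9 11 0), .t 1 (nat_lit 0) (.ax 1 5 9 11 3), .t 1 (nat_lit 0) (.ax 1 5 9 11 6), .t 1 (nat_lit 0) (.ax 1 5 9 12 1), .t 1 (nat_lit 0) (.ax 1 5 9 12 2), .t 1 (nat_lit 0) (.ax 1 5 9 12 6), .t 1 (nat_lit 0) (.ax 1 5 9 15 0), .t 1 (nat_lit 0) (.ax 1 5 9 15 6), .t 1 (nat_lit 0) (.ax 1 5 10 11 1), .t 1 (nat_lit 0) (.ax 1 5 10 11 5), .t 1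 (nat_lit 0) (.ax 1 5 10 11 6), .t 1 (nat_lit 0) (.ax 1 5 10 12 4), .t 1 (nat_lit 0) (.ax 1 5 10 12 6), .t 1 (nat_lit 0) (.ax 1 5 10 15 6), .t 1 (nat_lit 0) (.ax 1 5 11 12 6), .t 1 (nat_lit 0) (.ax 1 5 11 12 7), .t 1 (nat_lit 0) (.ax 1 5 11 15 1), .t 1 (nat_lit 0) (.ax 1 5 11 15 6), .t 1 (nat_lit 0) (.ax 1 5 12 15 4), .t 1 (nat_lit 0) (.ax 1 6 7 8 1), .t 1 (nat_lit 0) (.ax 1 6 7 8 2)] (by decide +kernel) (by decide +kernel)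
theorem b5 : B 160 192 := Blk.of_chk [.t 1 (nat_lit 0) (.ax 1 6 7 8 4), .t 1 (nat_lit 0) (.ax 1 6 7 9 1), .t 1 (nat_lit 0) (.ax 1 6 7 9 4), .t 1 (nat_lit 0) (.ax 1 6 7 10 4), .t 1 (nat_lit 0) (.ax 1 6 7 11 4), .t 1 (nat_lit 0) (.ax 1 6 7 12 4), .t 1 (nat_lit 0) (.ax 1 6 7 15 4), .t 1 (nat_lit 0) (.ax 1 6 8 9 1), .t 1 (nat_lit 0) (.ax 1 6 8 9 2), .t 1 (nat_lit 0) (.ax 1 6 8 9 4), .t 1 (nat_lit 0) (.ax 1 6 8 9 5), .t 1 (nat_lit 0) (.ax 1 6 8 9 6), .t 1 (nat_lit 0) (.ax 1 6 8 10 0), .t 1 (nat_lit 0) (.ax 1 6 8 10 1), .t 1 (nat_lit 0) (.ax 1 6 8 10 2), .t 1 (nat_lit 0) (.ax 1 6 8 10 4), .t 1 (nat_lit 0) (.ax 1 6 8 11 0), .t 1 (nat_lit 0) (.ax 1 6 8 12 0), .t 1 (nat_lit 0) (.ax 1 6 8 12 1), .t 1 (nat_lit 0) (.ax 1 6 8 12 2), .t 1 (nat_lit 0) (.ax 1 6 8 12 4), .t 1 (nat_lit 0)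 (.ax 1 6 8 12 6), .t 1 (nat_lit 0) (.ax 1 6 8 12 7), .t 1 (nat_lit 0) (.ax 1 6 8 15 3), .t 1 (nat_lit 0) (.ax 1 6 8 15 6), .t 1 (nat_lit 0) (.ax 1 6 9 10 2), .t 1 (nat_lit 0) (.ax 1 6 9 10 4), .t 1 (nat_lit 0) (.ax 1 6 9 10 6), .t 1 (nat_lit 0) (.ax 1 6 9 11 0), .t 1 (nat_lit 0) (.ax 1 6 9 11 3), .t 1 (nat_lit 0) (.ax 1 6 9 11 6), .t 1 (nat_lit 0) (.ax 1 6 9 12 6)] (by decide +kernel) (by decide +kernel)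
theorem b6 : B 192 224 := Blk.of_chk [.t 1 (nat_lit 0) (.ax 1 6 9 12 7), .t 1 (nat_lit 0) (.ax 1 6 9 15 5), .t 1 (nat_lit 0) (.ax 1 6 10 11 1), .t 1 (nat_lit 0) (.ax 1 6 10 11 2), .t 1 (nat_lit 0) (.ax 1 6 10 11 5), .t 1 (nat_lit 0) (.ax 1 6 10 11 6), .t 1 (nat_lit 0) (.ax 1 6 10 11 7), .t 1 (nat_lit 0) (.ax 1 6 10 12 6), .t 1 (nat_lit 0) (.ax 1 6 10 15 6), .t 1 (nat_lit 0) (.ax 1 6 11 12 4), .t 1 (nat_lit 0) (.ax 1 6 11 12 6), .t 1 (nat_lit 0) (.ax 1 6 11 15 1), .t 1 (nat_lit 0) (.ax 1 6 11 15 6), .t 1 (nat_lit 0) (.ax 1 6 12 15 4), .t 1 (nat_lit 0) (.ax 1 7 8 9 0), .t 1 (nat_lit 0) (.ax 1 7 8 9 2), .t 1 (nat_lit 0) (.ax 1 7 8 9 4), .t 1 (nat_lit 0) (.ax 1 7 8 10 0), .t 1 (nat_lit 0) (.ax 1 7 8 11 0), .t 1 (nat_lit 0) (.ax 1 7 9 10 0), .t 1 (nat_lit 0) (.ax 1 7 9 11 0),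 .t 1 (nat_lit 0) (.ax 1 7 10 11 0), .t 1 (nat_lit 0) (.ax 1 7 12 13 0), .t 1 (nat_lit 0) (.ax 1 7 12 14 0), .t 1 (nat_lit 0) (.ax 1 7 12 16 0), .t 1 (nat_lit 0) (.ax 1 7 12 17 0), .t 1 (nat_lit 0) (.ax 1 7 12 18 0), .t 1 (nat_lit 0) (.ax 1 8 9 10 0), .t 1 (nat_lit 0) (.ax 1 8 9 10 2), .t 1 (nat_lit 0) (.ax 1 8 9 10 4), .t 1 (nat_lit 0) (.ax 1 8 9 10 5), .t 1 (nat_lit 0) (.ax 1 8 9 10 6)] (by decide +kernel) (by decide +kernel)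
theorem b7 : B 224 256 := Blk.of_chk [.t 1 (nat_lit 0) (.ax 1 8 9 11 1), .t 1 (nat_lit 0) (.ax 1 8 9 11 4), .t 1 (nat_lit 0) (.ax 1 8 9 11 6), .t 1 (nat_lit 0) (.ax 1 8 9 12 1), .t 1 (nat_lit 0) (.ax 1 8 9 12 4), .t 1 (nat_lit 0) (.ax 1 8 9 12 5), .t 1 (nat_lit 0) (.ax 1 8 9 12 6), .t 1 (nat_lit 0) (.ax 1 8 9 15 0), .t 1 (nat_lit 0) (.ax 1 8 9 15 3), .t 1 (nat_lit 0) (.ax 1 8 9 15 5), .t 1 (nat_lit 0) (.ax 1 8 9 16 3), .t 1 (nat_lit 0) (.ax 1 8 10 11 0), .t 1 (nat_lit 0) (.ax 1 8 10 11 4), .t 1 (nat_lit 0) (.ax 1 8 10 12 0), .t 1 (nat_lit 0) (.ax 1 8 10 12 1), .t 1 (nat_lit 0) (.ax 1 8 10 12 2), .t 1 (nat_lit 0) (.ax 1 8 10 12 4), .t 1 (nat_lit 0) (.ax 1 8 10 12 5), .t 1 (nat_lit 0) (.ax 1 8 10 12 6), .t 1 (nat_lit 0) (.ax 1 8 10 12 7), .t 1 (nat_lit 0) (.ax 1 8 10 15 3),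 .t 1 (nat_lit 0) (.ax 1 8 10 15 5), .t 1 (nat_lit 0) (.ax 1 8 10 15 6), .t 1 (nat_lit 0) (.ax 1 8 11 12 0), .t 1 (nat_lit 0) (.ax 1 8 11 12 2), .t 1 (nat_lit 0) (.ax 1 8 11 12 4), .t 1 (nat_lit 0) (.ax 1 8 11 12 6), .t 1 (nat_lit 0) (.ax 1 8 11 15 1), .t 1 (nat_lit 0) (.ax 1 8 11 15 5), .t 1 (nat_lit 0) (.ax 1 8 12 15 4), .t 1 (nat_lit 0) (.ax 1 8 13 15 1), .t 1 (nat_lit 0) (.ax 1 8 13 15 6)] (by decide +kernel) (by decide +kernel)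
theorem b8 : B 256 288 := Blk.of_chk [.t 1 (nat_lit 0) (.ax 1 8 13 15 7), .t 1 (nat_lit 0) (.ax 1 8 13 16 3), .t 1 (nat_lit 0) (.ax 1 8 14 15 0), .t 1 (nat_lit 0) (.ax 1 8 14 15 1), .t 1 (nat_lit 0) (.ax 1 8 14 15 6), .t 1 (nat_lit 0) (.ax 1 8 14 16 3), .t 1 (nat_lit 0) (.ax 1 9 10 11 0), .t 1 (nat_lit 0) (.ax 1 9 10 11 1), .t 1 (nat_lit 0) (.ax 1 9 10 11 3), .t 1 (nat_lit 0) (.ax 1 9 10 11 4), .t 1 (nat_lit 0) (.ax 1 9 10 11 5), .t 1 (nat_lit 0) (.ax 1 9 10 12 0), .t 1 (nat_lit 0) (.ax 1 9 10 12 1), .t 1 (nat_lit 0) (.ax 1 9 10 12 3), .t 1 (nat_lit 0) (.ax 1 9 10 12 5), .t 1 (nat_lit 0) (.ax 1 9 10 12 6), .t 1 (nat_lit 0) (.ax 1 9 10 12 7), .t 1 (nat_lit 0) (.ax 1 9 10 15 1), .t 1 (nat_lit 0) (.ax 1 9 10 15 3), .t 1 (nat_lit 0) (.ax 1 9 10 15 5), .t 1 (nat_lit 0) (.ax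 1 9 11 12 1), .t 1 (nat_lit 0) (.ax 1 9 11 12 3), .t 1 (nat_lit 0) (.ax 1 9 11 12 5), .t 1 (nat_lit 0) (.ax 1 9 11 12 6), .t 1 (nat_lit 0) (.ax 1 9 11 12 7), .t 1 (nat_lit 0) (.ax 1 9 11 15 1), .t 1 (nat_lit 0) (.ax 1 9 11 15 3), .t 1 (nat_lit 0) (.ax 1 9 11 15 5), .t 1 (nat_lit 0) (.ax 1 9 11 16 3), .t 1 (nat_lit 0) (.ax 1 9 12 15 4), .t 1 (nat_lit 0) (.ax 1 9 14 15 1), .t 1 (nat_lit 0) (.ax 1 9 15 16 4)] (by decide +kernel) (by decide +kernel)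
theorem b9 : B 288 320 := Blk.of_chk [.t 1 (nat_lit 0) (.ax 1 10 11 12 0), .t 1 (nat_lit 0) (.ax 1 10 11 12 1), .t 1 (nat_lit 0) (.ax 1 10 11 12 2), .t 1 (nat_lit 0) (.ax 1 10 11 12 3), .t 1 (nat_lit 0) (.ax 1 10 11 12 4), .t 1 (nat_lit 0) (.ax 1 10 11 12 5), .t 1 (nat_lit 0) (.ax 1 10 11 12 6), .t 1 (nat_lit 0) (.ax 1 10 11 12 7), .t 1 (nat_lit 0) (.ax 1 10 11 15 0), .t 1 (nat_lit 0) (.ax 1 10 11 15 1), .t 1 (nat_lit 0) (.ax 1 10 11 15 3), .t 1 (nat_lit 0) (.ax 1 10 11 15 5), .t 1 (nat_lit 0) (.ax 1 10 11 15 6), .t 1 (nat_lit 0) (.ax 1 10 12 15 4), .t 1 (nat_lit 0) (.ax 1 10 13 15 1), .t 1 (nat_lit 0) (.ax 1 10 13 15 5), .t 1 (nat_lit 0) (.ax 1 10 14 15 1), .t 1 (nat_lit 0) (.ax 1 11 13 15 0), .t 1 (nat_lit 0) (.ax 1 11 13 15 1), .t 1 (nat_lit 0) (.ax 1 11 14 15 1), .t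 1 (nat_lit 0) (.ax 1 11 15 16 4), .t 1 (nat_lit 0) (.ax 1 12 15 17 0), .t 1 (nat_lit 0) (.ax 1 13 15 16 4), .t 1 (nat_lit 0) (.ax 1 14 15 16 4), .t 1 (nat_lit 0) (.ax 2 3 5 8 0), .t 1 (nat_lit 0) (.ax 2 3 5 9 0), .t 1 (nat_lit 0) (.ax 2 3 5 10 0), .t 1 (nat_lit 0) (.ax 2 3 6 8 0), .t 1 (nat_lit 0) (.ax 2 3 6 9 0), .t 1 (nat_lit 0) (.ax 2 3 6 10 0), .t 1 (nat_lit 0) (.ax 2 3 8 9 0), .t 1 (nat_lit 0) (.ax 2 3 8 10 0)] (by decide +kernel) (by decide +kernel)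
theorem b10 : B 320 352 := Blk.of_chk [.t 1 (nat_lit 0) (.ax 2 3 9 10 0), .t 1 (nat_lit 0) (.ax 2 4 5 8 0), .t 1 (nat_lit 0) (.ax 2 4 5 9 0), .t 1 (nat_lit 0) (.ax 2 4 6 8 0), .t 1 (nat_lit 0) (.ax 2 4 6 8 2), .t 1 (nat_lit 0) (.ax 2 4 6 9 0), .t 1 (nat_lit 0) (.ax 2 4 8 9 0), .t 1 (nat_lit 0) (.ax 2 4 8 10 0), .t 1 (nat_lit 0) (.ax 2 4 8 11 0), .t 1 (nat_lit 0) (.ax 2 4 8 12 0), .t 1 (nat_lit 0) (.ax 2 4 8 15 0), .t 1 (nat_lit 0) (.ax 2 4 9 10 0), .t 1 (nat_lit 0) (.ax 2 4 9 15 0), .t 1 (nat_lit 0) (.ax 2 5 6 7 0), .t 1 (nat_lit 0) (.ax 2 5 6 7 1), .t 1 (nat_lit 0) (.ax 2 5 6 7 4), .t 1 (nat_lit 0) (.ax 2 5 6 7 5), .t 1 (nat_lit 0) (.ax 2 5 6 8 0), .t 1 (nat_lit 0) (.ax 2 5 6 8 1), .t 1 (nat_lit 0) (.ax 2 5 6 8 4), .t 1 (nat_lit 0) (.ax 2 5 7 8 1), .t 1 (nat_lit 0) (.ax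 2 5 7 8 2), .t 1 (nat_lit 0) (.ax 2 5 7 8 4), .t 1 (nat_lit 0) (.ax 2 5 7 9 4), .t 1 (nat_lit 0) (.ax 2 5 7 12 4), .t 1 (nat_lit 0) (.ax 2 5 8 9 2), .t 1 (nat_lit 0) (.ax 2 5 8 9 4), .t 1 (nat_lit 0) (.ax 2 5 8 9 6), .t 1 (nat_lit 0) (.ax 2 5 8 10 2), .t 1 (nat_lit 0) (.ax 2 5 8 10 4), .t 1 (nat_lit 0) (.ax 2 5 8 10 6), .t 1 (nat_lit 0) (.ax 2 5 8 11 2)] (by decide +kernel) (by decide +kernel)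
theorem b11 : B 352 384 := Blk.of_chk [.t 1 (nat_lit 0) (.ax 2 5 8 11 4), .t 1 (nat_lit 0) (.ax 2 5 8 11 6), .t 1 (nat_lit 0) (.ax 2 5 9 10 0), .t 1 (nat_lit 0) (.ax 2 5 9 10 2), .t 1 (nat_lit 0) (.ax 2 5 9 10 4), .t 1 (nat_lit 0) (.ax 2 5 9 10 6), .t 1 (nat_lit 0) (.ax 2 5 9 11 2), .t 1 (nat_lit 0) (.ax 2 5 9 11 4), .t 1 (nat_lit 0) (.ax 2 5 10 11 2), .t 1 (nat_lit 0) (.ax 2 5 10 11 4), .t 1 (nat_lit 0) (.ax 2 5 10 11 6), .t 1 (nat_lit 0) (.ax 2 6 7 8 1), .t 1 (nat_lit 0) (.ax 2 6 7 8 2), .t 1 (nat_lit 0) (.ax 2 6 7 8 4), .t 1 (nat_lit 0) (.ax 2 6 7 9 4), .t 1 (nat_lit 0) (.ax 2 6 8 9 2), .t 1 (nat_lit 0) (.ax 2 6 8 9 4), .t 1 (nat_lit 0) (.ax 2 6 8 9 6), .t 1 (nat_lit 0) (.ax 2 6 8 10 2), .t 1 (nat_lit 0) (.ax 2 6 8 10 4), .t 1 (nat_lit 0) (.ax 2 6 8 10 6), .t 1 (nat_lit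 0) (.ax 2 6 8 11 2), .t 1 (nat_lit 0) (.ax 2 6 8 11 4), .t 1 (nat_lit 0) (.ax 2 6 9 10 2), .t 1 (nat_lit 0) (.ax 2 6 9 10 4), .t 1 (nat_lit 0) (.ax 2 6 9 11 2), .t 1 (nat_lit 0) (.ax 2 6 9 11 4), .t 1 (nat_lit 0) (.ax 2 6 10 11 2), .t 1 (nat_lit 0) (.ax 2 6 10 11 4), .t 1 (nat_lit 0) (.ax 2 7 8 9 0), .t 1 (nat_lit 0) (.ax 2 7 8 9 2), .t 1 (nat_lit 0) (.ax 2 7 8 9 4)] (by decide +kernel) (by decide +kernel)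
theorem b12 : B 384 416 := Blk.of_chk [.t 1 (nat_lit 0) (.ax 2 8 9 10 1), .t 1 (nat_lit 0) (.ax 2 8 9 10 2), .t 1 (nat_lit 0) (.ax 2 8 9 10 4), .t 1 (nat_lit 0) (.ax 2 8 9 10 5), .t 1 (nat_lit 0) (.ax 2 8 9 10 6), .t 1 (nat_lit 0) (.ax 2 8 9 11 6), .t 1 (nat_lit 0) (.ax 2 8 9 12 5), .t 1 (nat_lit 0) (.ax 2 8 9 15 5), .t 1 (nat_lit 0) (.ax 2 8 10 11 2), .t 1 (nat_lit 0) (.ax 2 8 10 11 4), .t 1 (nat_lit 0) (.ax 2 8 10 11 6), .t 1 (nat_lit 0) (.ax 2 8 10 15 5), .t 1 (nat_lit 0) (.ax 2 8 11 12 5), .t 1 (nat_lit 0) (.ax 2 8 11 15 1), .t 1 (nat_lit 0) (.ax 2 9 10 11 0), .t 1 (nat_lit 0) (.ax 2 9 10 11 2), .t 1 (nat_lit 0) (.ax 2 9 10 11 4), .t 1 (nat_lit 0) (.ax 2 9 10 11 5), .t 1 (nat_lit 0) (.ax 2 9 10 12 5), .t 1 (nat_lit 0) (.ax 2 9 10 15 5), .t 1 (nat_lit 0) (.ax 2 10 11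 12 5), .t 1 (nat_lit 0) (.ax 2 10 13 15 5), .t 1 (nat_lit 0) (.ax 3 4 5 6 0), .t 1 (nat_lit 0) (.ax 3 4 5 8 0), .t 1 (nat_lit 0) (.ax 3 4 5 9 0), .t 1 (nat_lit 0) (.ax 3 4 5 10 0), .t 1 (nat_lit 0) (.ax 3 4 5 12 0), .t 1 (nat_lit 0) (.ax 3 4 6 8 0), .t 1 (nat_lit 0) (.ax 3 4 6 9 0), .t 1 (nat_lit 0) (.ax 3 4 6 10 0), .t 1 (nat_lit 0) (.ax 3 4 7 8 0), .t 1 (nat_lit 0) (.ax 3 4 7 9 0)] (by decide +kernel) (by decide +kernel)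
theorem b13 : B 416 448 := Blk.of_chk [.t 1 (nat_lit 0) (.ax 3 4 7 10 0), .t 1 (nat_lit 0) (.ax 3 4 8 10 0), .t 1 (nat_lit 0) (.ax 3 4 8 12 0), .t 1 (nat_lit 0) (.ax 3 4 8 15 0), .t 1 (nat_lit 0) (.ax 3 4 9 10 0), .t 1 (nat_lit 0) (.ax 3 4 9 12 0), .t 1 (nat_lit 0) (.ax 3 5 6 8 0), .t 1 (nat_lit 0) (.ax 3 5 6 8 1), .t 1 (nat_lit 0) (.ax 3 5 6 8 4), .t 1 (nat_lit 0) (.ax 3 5 6 8 5), .t 1 (nat_lit 0) (.ax 3 5 6 10 2), .t 1 (nat_lit 0) (.ax 3 5 6 10 4), .t 1 (nat_lit 0) (.ax 3 5 8 9 2), .t 1 (nat_lit 0) (.ax 3 5 8 9 3), .t 1 (nat_lit 0) (.ax 3 5 8 9 5), .t 1 (nat_lit 0) (.ax 3 5 8 10 1), .t 1 (nat_lit 0) (.ax 3 5 8 10 3), .t 1 (nat_lit 0) (.ax 3 5 8 10 4), .t 1 (nat_lit 0) (.ax 3 5 8 10 5), .t 1 (nat_lit 0) (.ax 3 5 8 12 4), .t 1 (nat_lit 0) (.ax 3 5 9 10 3), .t 1 (nat_lit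 0) (.ax 3 5 9 10 5), .t 1 (nat_lit 0) (.ax 3 5 9 11 3), .t 1 (nat_lit 0) (.ax 3 5 9 11 5), .t 1 (nat_lit 0) (.ax 3 5 10 11 3), .t 1 (nat_lit 0) (.ax 3 5 10 11 5), .t 1 (nat_lit 0) (.ax 3 6 8 10 2), .t 1 (nat_lit 0) (.ax 3 6 8 10 4), .t 1 (nat_lit 0) (.ax 3 6 8 12 4), .t 1 (nat_lit 0) (.ax 3 6 9 10 3), .t 1 (nat_lit 0) (.ax 3 6 9 10 5), .t 1 (nat_lit 0) (.ax 3 6 10 11 3)] (by decide +kernel) (by decide +kernel)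
theorem b14 : B 448 480 := Blk.of_chk [.t 1 (nat_lit 0) (.ax 3 6 10 11 5), .t 1 (nat_lit 0) (.ax 3 6 11 12 0), .t 1 (nat_lit 0) (.ax 3 7 8 9 0), .t 1 (nat_lit 0) (.ax 3 8 9 10 0), .t 1 (nat_lit 0) (.ax 3 8 9 11 4), .t 1 (nat_lit 0) (.ax 3 8 10 11 3), .t 1 (nat_lit 0) (.ax 3 8 10 11 5), .t 1 (nat_lit 0) (.ax 3 8 10 12 5), .t 1 (nat_lit 0) (.ax 3 8 10 15 5), .t 1 (nat_lit 0) (.ax 3 9 10 11 3), .t 1 (nat_lit 0) (.ax 3 9 10 11 5), .t 1 (nat_lit 0) (.ax 3 9 11 12 5), .t 1 (nat_lit 0) (.ax 4 5 6 7 2), .t 1 (nat_lit 0) (.ax 4 5 6 8 0), .t 1 (nat_lit 0) (.ax 4 5 6 8 2), .t 1 (nat_lit 0) (.ax 4 5 6 8 4), .t 1 (nat_lit 0) (.ax 4 5 6 8 5), .t 1 (nat_lit 0) (.ax 4 5 6 8 6), .t 1 (nat_lit 0) (.ax 4 5 6 8 7), .t 1 (nat_lit 0) (.ax 4 5 6 9 3), .t 1 (nat_lit 0) (.ax 4 5 6 10 2), .t 1 (nat_lit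 0) (.ax 4 5 6 10 4), .t 1 (nat_lit 0) (.ax 4 5 6 12 2), .t 1 (nat_lit 0) (.ax 4 5 6 12 6), .t 1 (nat_lit 0) (.ax 4 5 6 12 7), .t 1 (nat_lit 0) (.ax 4 5 6 15 7), .t 1 (nat_lit 0) (.ax 4 5 7 8 3), .t 1 (nat_lit 0) (.ax 4 5 7 9 3), .t 1 (nat_lit 0) (.ax 4 5 7 10 3), .t 1 (nat_lit 0) (.ax 4 5 7 11 3), .t 1 (nat_lit 0) (.ax 4 5 7 13 3), .t 1 (nat_lit 0) (.ax 4 5 7 14 3)] (by decide +kernel) (by decide +kernel)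
theorem b15 : B 480 512 := Blk.of_chk [.t 1 (nat_lit 0) (.ax 4 5 7 15 3), .t 1 (nat_lit 0) (.ax 4 5 7 16 3), .t 1 (nat_lit 0) (.ax 4 5 7 17 3), .t 1 (nat_lit 0) (.ax 4 5 7 18 3), .t 1 (nat_lit 0) (.ax 4 5 8 9 0), .t 1 (nat_lit 0) (.ax 4 5 8 9 2), .t 1 (nat_lit 0) (.ax 4 5 8 9 3), .t 1 (nat_lit 0) (.ax 4 5 8 9 5), .t 1 (nat_lit 0) (.ax 4 5 8 9 6), .t 1 (nat_lit 0) (.ax 4 5 8 9 7), .t 1 (nat_lit 0) (.ax 4 5 8 10 0), .t 1 (nat_lit 0) (.ax 4 5 8 10 2), .t 1 (nat_lit 0) (.ax 4 5 8 10 3), .t 1 (nat_lit 0) (.ax 4 5 8 10 4), .t 1 (nat_lit 0) (.ax 4 5 8 10 5), .t 1 (nat_lit 0) (.ax 4 5 8 10 7), .t 1 (nat_lit 0) (.ax 4 5 8 11 0), .t 1 (nat_lit 0) (.ax 4 5 8 11 2), .t 1 (nat_lit 0) (.ax 4 5 8 11 7), .t 1 (nat_lit 0) (.ax 4 5 8 12 0), .t 1 (nat_lit 0) (.ax 4 5 8 12 2), .t 1 (nat_lit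 0) (.ax 4 5 8 12 4), .t 1 (nat_lit 0) (.ax 4 5 8 12 6), .t 1 (nat_lit 0) (.ax 4 5 8 12 7), .t 1 (nat_lit 0) (.ax 4 5 8 15 1), .t 1 (nat_lit 0) (.ax 4 5 8 15 6), .t 1 (nat_lit 0) (.ax 4 5 8 15 7), .t 1 (nat_lit 0) (.ax 4 5 9 10 0), .t 1 (nat_lit 0) (.ax 4 5 9 10 2), .t 1 (nat_lit 0) (.ax 4 5 9 10 3), .t 1 (nat_lit 0) (.ax 4 5 9 10 5), .t 1 (nat_lit 0) (.ax 4 5 9 11 2)] (by decide +kernel) (by decide +kernel)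
theorem b16 : B 512 544 := Blk.of_chk [.t 1 (nat_lit 0) (.ax 4 5 9 11 3), .t 1 (nat_lit 0) (.ax 4 5 9 11 4), .t 1 (nat_lit 0) (.ax 4 5 9 11 5), .t 1 (nat_lit 0) (.ax 4 5 9 12 0), .t 1 (nat_lit 0) (.ax 4 5 9 12 1), .t 1 (nat_lit 0) (.ax 4 5 9 12 2), .t 1 (nat_lit 0) (.ax 4 5 9 12 5), .t 1 (nat_lit 0) (.ax 4 5 9 12 7), .t 1 (nat_lit 0) (.ax 4 5 9 15 0), .t 1 (nat_lit 0) (.ax 4 5 9 15 1), .t 1 (nat_lit 0) (.ax 4 5 9 15 6), .t 1 (nat_lit 0) (.ax 4 5 9 15 7), .t 1 (nat_lit 0) (.ax 4 5 10 11 2), .t 1 (nat_lit 0) (.ax 4 5 10 11 3), .t 1 (nat_lit 0) (.ax 4 5 10 11 5), .t 1 (nat_lit 0) (.ax 4 5 10 12 0), .t 1 (nat_lit 0) (.ax 4 5 10 12 2), .t 1 (nat_lit 0) (.ax 4 5 10 15 0), .t 1 (nat_lit 0) (.ax 4 5 10 15 1), .t 1 (nat_lit 0) (.ax 4 5 10 15 2), .t 1 (nat_lit 0) (.ax 4 5 10 15 4),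 .t 1 (nat_lit 0) (.ax 4 5 10 15 7), .t 1 (nat_lit 0) (.ax 4 5 11 12 0), .t 1 (nat_lit 0) (.ax 4 5 11 15 0), .t 1 (nat_lit 0) (.ax 4 5 11 15 7), .t 1 (nat_lit 0) (.ax 4 5 12 15 4), .t 1 (nat_lit 0) (.ax 4 5 12 15 6), .t 1 (nat_lit 0) (.ax 4 5 14 15 0), .t 1 (nat_lit 0) (.ax 4 6 7 8 3), .t 1 (nat_lit 0) (.ax 4 6 7 9 3), .t 1 (nat_lit 0) (.ax 4 6 7 10 3), .t 1 (nat_lit 0) (.ax 4 6 7 11 3)] (by decide +kernel) (by decide +kernel)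
theorem b17 : B 544 576 := Blk.of_chk [.t 1 (nat_lit 0) (.ax 4 6 7 15 3), .t 1 (nat_lit 0) (.ax 4 6 8 9 0), .t 1 (nat_lit 0) (.ax 4 6 8 9 2), .t 1 (nat_lit 0) (.ax 4 6 8 9 3), .t 1 (nat_lit 0) (.ax 4 6 8 9 5), .t 1 (nat_lit 0) (.ax 4 6 8 9 7), .t 1 (nat_lit 0) (.ax 4 6 8 10 0), .t 1 (nat_lit 0) (.ax 4 6 8 10 2), .t 1 (nat_lit 0) (.ax 4 6 8 10 3), .t 1 (nat_lit 0) (.ax 4 6 8 10 7), .t 1 (nat_lit 0) (.ax 4 6 8 11 0), .t 1 (nat_lit 0) (.ax 4 6 8 11 2), .t 1 (nat_lit 0) (.ax 4 6 8 11 7), .t 1 (nat_lit 0) (.ax 4 6 8 12 3), .t 1 (nat_lit 0) (.ax 4 6 8 12 6), .t 1 (nat_lit 0) (.ax 4 6 8 12 7), .t 1 (nat_lit 0) (.ax 4 6 8 15 1), .t 1 (nat_lit 0) (.ax 4 6 8 15 2), .t 1 (nat_lit 0) (.ax 4 6 8 15 6), .t 1 (nat_lit 0) (.ax 4 6 8 15 7), .t 1 (nat_lit 0) (.ax 4 6 9 10 2), .t 1 (nat_lit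 0) (.ax 4 6 9 10 3), .t 1 (nat_lit 0) (.ax 4 6 9 10 5), .t 1 (nat_lit 0) (.ax 4 6 9 11 2), .t 1 (nat_lit 0) (.ax 4 6 9 11 4), .t 1 (nat_lit 0) (.ax 4 6 9 12 0), .t 1 (nat_lit 0) (.ax 4 6 9 12 6), .t 1 (nat_lit 0) (.ax 4 6 9 12 7), .t 1 (nat_lit 0) (.ax 4 6 9 15 0), .t 1 (nat_lit 0) (.ax 4 6 9 15 6), .t 1 (nat_lit 0) (.ax 4 6 9 15 7), .t 1 (nat_lit 0) (.ax 4 6 10 11 2)] (by decide +kernel) (by decide +kernel)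
theorem b18 : B 576 608 := Blk.of_chk [.t 1 (nat_lit 0) (.ax 4 6 10 11 3), .t 1 (nat_lit 0) (.ax 4 6 10 11 5), .t 1 (nat_lit 0) (.ax 4 6 10 11 7), .t 1 (nat_lit 0) (.ax 4 6 10 12 1), .t 1 (nat_lit 0) (.ax 4 6 10 12 7), .t 1 (nat_lit 0) (.ax 4 6 10 15 0), .t 1 (nat_lit 0) (.ax 4 6 10 15 1), .t 1 (nat_lit 0) (.ax 4 6 10 15 6), .t 1 (nat_lit 0) (.ax 4 6 10 15 7), .t 1 (nat_lit 0) (.ax 4 6 11 12 7), .t 1 (nat_lit 0) (.ax 4 6 11 15 0), .t 1 (nat_lit 0) (.ax 4 6 11 15 7), .t 1 (nat_lit 0) (.ax 4 6 12 15 4), .t 1 (nat_lit 0) (.ax 4 7 8 9 0), .t 1 (nat_lit 0) (.ax 4 7 8 10 0), .t 1 (nat_lit 0) (.ax 4 7 8 11 0), .t 1 (nat_lit 0) (.ax 4 7 8 15 0), .t 1 (nat_lit 0) (.ax 4 7 9 10 0), .t 1 (nat_lit 0) (.ax 4 7 9 15 0), .t 1 (nat_lit 0) (.ax 4 7 10 11 0), .t 1 (nat_lit 0) (.ax 4 7 10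 15 0), .t 1 (nat_lit 0) (.ax 4 7 11 15 0), .t 1 (nat_lit 0) (.ax 4 7 12 17 0), .t 1 (nat_lit 0) (.ax 4 7 13 15 0), .t 1 (nat_lit 0) (.ax 4 7 14 15 0), .t 1 (nat_lit 0) (.ax 4 7 14 15 2), .t 1 (nat_lit 0) (.ax 4 8 9 10 1), .t 1 (nat_lit 0) (.ax 4 8 9 10 2), .t 1 (nat_lit 0) (.ax 4 8 9 10 3), .t 1 (nat_lit 0) (.ax 4 8 9 10 4), .t 1 (nat_lit 0) (.ax 4 8 9 10 5), .t 1 (nat_lit 0) (.ax 4 8 9 10 7)] (by decide +kernel) (by decide +kernel)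
theorem b19 : B 608 640 := Blk.of_chk [.t 1 (nat_lit 0) (.ax 4 8 9 11 1), .t 1 (nat_lit 0) (.ax 4 8 9 11 2), .t 1 (nat_lit 0) (.ax 4 8 9 11 4), .t 1 (nat_lit 0) (.ax 4 8 9 12 0), .t 1 (nat_lit 0) (.ax 4 8 9 12 1), .t 1 (nat_lit 0) (.ax 4 8 9 12 2), .t 1 (nat_lit 0) (.ax 4 8 9 12 6), .t 1 (nat_lit 0) (.ax 4 8 9 15 0), .t 1 (nat_lit 0) (.ax 4 8 9 15 1), .t 1 (nat_lit 0) (.ax 4 8 9 15 4), .t 1 (nat_lit 0) (.ax 4 8 9 15 6), .t 1 (nat_lit 0) (.ax 4 8 9 15 7), .t 1 (nat_lit 0) (.ax 4 8 10 11 1), .t 1 (nat_lit 0) (.ax 4 8 10 11 2), .t 1 (nat_lit 0) (.ax 4 8 10 11 3), .t 1 (nat_lit 0) (.ax 4 8 10 11 4), .t 1 (nat_lit 0) (.ax 4 8 10 11 5), .t 1 (nat_lit 0) (.ax 4 8 10 12 0), .t 1 (nat_lit 0) (.ax 4 8 10 12 1), .t 1 (nat_lit 0) (.ax 4 8 10 12 2), .t 1 (nat_lit 0) (.ax 4 8 10 12 3),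 .t 1 (nat_lit 0) (.ax 4 8 10 12 4), .t 1 (nat_lit 0) (.ax 4 8 10 12 5), .t 1 (nat_lit 0) (.ax 4 8 10 12 6), .t 1 (nat_lit 0) (.ax 4 8 10 12 7), .t 1 (nat_lit 0) (.ax 4 8 10 15 0), .t 1 (nat_lit 0) (.ax 4 8 10 15 1), .t 1 (nat_lit 0) (.ax 4 8 10 15 2), .t 1 (nat_lit 0) (.ax 4 8 10 15 6), .t 1 (nat_lit 0) (.ax 4 8 10 15 7), .t 1 (nat_lit 0) (.ax 4 8 10 16 3), .t 1 (nat_lit 0) (.ax 4 8 11 12 1)] (by decide +kernel) (by decide +kernel)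
theorem b20 : B 640 672 := Blk.of_chk [.t 1 (nat_lit 0) (.ax 4 8 11 12 7), .t 1 (nat_lit 0) (.ax 4 8 11 13 2), .t 1 (nat_lit 0) (.ax 4 8 11 14 2), .t 1 (nat_lit 0) (.ax 4 8 11 15 0), .t 1 (nat_lit 0) (.ax 4 8 11 15 1), .t 1 (nat_lit 0) (.ax 4 8 11 15 2), .t 1 (nat_lit 0) (.ax 4 8 11 15 4), .t 1 (nat_lit 0) (.ax 4 8 11 15 6), .t 1 (nat_lit 0) (.ax 4 8 11 15 7), .t 1 (nat_lit 0) (.ax 4 8 12 15 4), .t 1 (nat_lit 0) (.ax 4 8 14 15 0), .t 1 (nat_lit 0) (.ax 4 9 10 11 0), .t 1 (nat_lit 0) (.ax 4 9 10 11 1), .t 1 (nat_lit 0) (.ax 4 9 10 11 2), .t 1 (nat_lit 0) (.ax 4 9 10 11 3), .t 1 (nat_lit 0) (.ax 4 9 10 11 5), .t 1 (nat_lit 0) (.ax 4 9 10 12 0), .t 1 (nat_lit 0) (.ax 4 9 10 12 1), .t 1 (nat_lit 0) (.ax 4 9 10 12 2), .t 1 (nat_lit 0) (.ax 4 9 10 12 4), .t 1 (nat_lit 0) (.ax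 4 9 10 12 5), .t 1 (nat_lit 0) (.ax 4 9 10 12 6), .t 1 (nat_lit 0) (.ax 4 9 10 13 2), .t 1 (nat_lit 0) (.ax 4 9 10 15 0), .t 1 (nat_lit 0) (.ax 4 9 10 15 1), .t 1 (nat_lit 0) (.ax 4 9 10 15 4), .t 1 (nat_lit 0) (.ax 4 9 10 15 6), .t 1 (nat_lit 0) (.ax 4 9 10 15 7), .t 1 (nat_lit 0) (.ax 4 9 11 12 0), .t 1 (nat_lit 0) (.ax 4 9 11 12 1), .t 1 (nat_lit 0) (.ax 4 9 11 12 2), .t 1 (nat_lit 0) (.ax 4 9 11 12 6)] (by decide +kernel) (by decide +kernel)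
theorem b21 : B 672 704 := Blk.of_chk [.t 1 (nat_lit 0) (.ax 4 9 11 12 7), .t 1 (nat_lit 0) (.ax 4 9 11 13 0), .t 1 (nat_lit 0) (.ax 4 9 11 13 2), .t 1 (nat_lit 0) (.ax 4 9 11 14 2), .t 1 (nat_lit 0) (.ax 4 9 11 15 0), .t 1 (nat_lit 0) (.ax 4 9 11 15 1), .t 1 (nat_lit 0) (.ax 4 9 11 15 6), .t 1 (nat_lit 0) (.ax 4 9 11 15 7), .t 1 (nat_lit 0) (.ax 4 9 11 16 3), .t 1 (nat_lit 0) (.ax 4 9 11 17 3), .t 1 (nat_lit 0) (.ax 4 9 11 18 3), .t 1 (nat_lit 0) (.ax 4 9 12 13 4), .t 1 (nat_lit 0) (.ax 4 9 12 15 4), .t 1 (nat_lit 0) (.ax 4 9 13 15 0), .t 1 (nat_lit 0) (.ax 4 9 13 15 1), .t 1 (nat_lit 0) (.ax 4 9 14 15 0), .t 1 (nat_lit 0) (.ax 4 9 14 15 1), .t 1 (nat_lit 0) (.ax 4 10 11 12 0), .t 1 (nat_lit 0) (.ax 4 10 11 12 1), .t 1 (nat_lit 0) (.ax 4 10 11 12 2), .t 1 (nat_lit 0) (.ax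 4 10 11 12 3), .t 1 (nat_lit 0) (.ax 4 10 11 12 4), .t 1 (nat_lit 0) (.ax 4 10 11 12 7), .t 1 (nat_lit 0) (.ax 4 10 11 13 3), .t 1 (nat_lit 0) (.ax 4 10 11 14 2), .t 1 (nat_lit 0) (.ax 4 10 11 15 0), .t 1 (nat_lit 0) (.ax 4 10 11 15 1), .t 1 (nat_lit 0) (.ax 4 10 11 15 2), .t 1 (nat_lit 0) (.ax 4 10 11 15 6), .t 1 (nat_lit 0) (.ax 4 10 11 15 7), .t 1 (nat_lit 0) (.ax 4 10 12 15 4), .t 1 (nat_lit 0) (.ax 4 10 13 15 1)] (by decide +kernel) (by decide +kernel)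
theorem b22 : B 704 736 := Blk.of_chk [.t 1 (nat_lit 0) (.ax 4 10 13 15 6), .t 1 (nat_lit 0) (.ax 4 10 14 15 0), .t 1 (nat_lit 0) (.ax 4 10 14 15 1), .t 1 (nat_lit 0) (.ax 4 10 15 16 4), .t 1 (nat_lit 0) (.ax 4 11 12 15 4), .t 1 (nat_lit 0) (.ax 4 11 13 15 0), .t 1 (nat_lit 0) (.ax 4 11 13 15 1), .t 1 (nat_lit 0) (.ax 4 11 13 15 4), .t 1 (nat_lit 0) (.ax 4 11 13 15 5), .t 1 (nat_lit 0) (.ax 4 11 14 15 0), .t 1 (nat_lit 0) (.ax 4 11 14 15 1), .t 1 (nat_lit 0) (.ax 4 11 14 15 4), .t 1 (nat_lit 0) (.ax 4 11 15 16 4), .t 1 (nat_lit 0) (.ax 4 11 15 17 4), .t 1 (nat_lit 0) (.ax 4 11 15 18 4), .t 1 (nat_lit 0) (.ax 4 12 15 17 0), .t 1 (nat_lit 0) (.ax 4 13 14 15 0), .t 1 (nat_lit 0) (.ax 4 13 14 15 1), .t 1 (nat_lit 0) (.ax 5 6 7 8 1), .t 1 (nat_lit 0) (.ax 5 6 7 8 2), .t 1 (nat_lit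 0) (.ax 5 6 7 8 4), .t 1 (nat_lit 0) (.ax 5 6 7 9 1), .t 1 (nat_lit 0) (.ax 5 6 7 9 2), .t 1 (nat_lit 0) (.ax 5 6 7 9 4), .t 1 (nat_lit 0) (.ax 5 6 7 10 1), .t 1 (nat_lit 0) (.ax 5 6 7 10 4), .t 1 (nat_lit 0) (.ax 5 6 7 11 1), .t 1 (nat_lit 0) (.ax 5 6 7 11 2), .t 1 (nat_lit 0) (.ax 5 6 7 11 4), .t 1 (nat_lit 0) (.ax 5 6 8 9 0), .t 1 (nat_lit 0) (.ax 5 6 8 9 3), .t 1 (nat_lit 0) (.ax 5 6 8 9 5)] (by decide +kernel) (by decide +kernel)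
theorem b23 : B 736 768 := Blk.of_chk [.t 1 (nat_lit 0) (.ax 5 6 8 9 7), .t 1 (nat_lit 0) (.ax 5 6 8 10 1), .t 1 (nat_lit 0) (.ax 5 6 8 10 3), .t 1 (nat_lit 0) (.ax 5 6 8 10 4), .t 1 (nat_lit 0) (.ax 5 6 8 10 5), .t 1 (nat_lit 0) (.ax 5 6 8 10 7), .t 1 (nat_lit 0) (.ax 5 6 8 12 7), .t 1 (nat_lit 0) (.ax 5 6 10 11 0), .t 1 (nat_lit 0) (.ax 5 6 10 11 3), .t 1 (nat_lit 0) (.ax 5 6 10 11 5), .t 1 (nat_lit 0) (.ax 5 7 8 9 0), .t 1 (nat_lit 0) (.ax 5 7 8 9 2), .t 1 (nat_lit 0) (.ax 5 7 8 9 4), .t 1 (nat_lit 0) (.ax 5 7 8 9 5), .t 1 (nat_lit 0) (.ax 5 7 8 10 0), .t 1 (nat_lit 0) (.ax 5 7 8 10 2), .t 1 (nat_lit 0) (.ax 5 7 8 10 4), .t 1 (nat_lit 0) (.ax 5 7 8 10 5), .t 1 (nat_lit 0) (.ax 5 7 8 11 0), .t 1 (nat_lit 0) (.ax 5 7 8 11 5), .t 1 (nat_lit 0) (.ax 5 7 9 10 0), .t 1 (nat_lit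 0) (.ax 5 7 9 10 5), .t 1 (nat_lit 0) (.ax 5 7 9 11 0), .t 1 (nat_lit 0) (.ax 5 7 9 11 5), .t 1 (nat_lit 0) (.ax 5 7 10 11 0), .t 1 (nat_lit 0) (.ax 5 7 10 11 2), .t 1 (nat_lit 0) (.ax 5 7 10 11 4), .t 1 (nat_lit 0) (.ax 5 7 10 11 5), .t 1 (nat_lit 0) (.ax 5 7 12 13 0), .t 1 (nat_lit 0) (.ax 5 7 12 14 0), .t 1 (nat_lit 0) (.ax 5 7 12 16 0), .t 1 (nat_lit 0) (.ax 5 7 12 17 0)] (by decide +kernel) (by decide +kernel)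
theorem b24 : B 768 800 := Blk.of_chk [.t 1 (nat_lit 0) (.ax 5 7 12 18 0), .t 1 (nat_lit 0) (.ax 5 8 9 10 0), .t 1 (nat_lit 0) (.ax 5 8 9 10 1), .t 1 (nat_lit 0) (.ax 5 8 9 10 2), .t 1 (nat_lit 0) (.ax 5 8 9 10 3), .t 1 (nat_lit 0) (.ax 5 8 9 10 4), .t 1 (nat_lit 0) (.ax 5 8 9 10 5), .t 1 (nat_lit 0) (.ax 5 8 9 12 0), .t 1 (nat_lit 0) (.ax 5 8 9 12 1), .t 1 (nat_lit 0) (.ax 5 8 9 12 4), .t 1 (nat_lit 0) (.ax 5 8 9 12 5), .t 1 (nat_lit 0) (.ax 5 8 9 12 7), .t 1 (nat_lit 0) (.ax 5 8 9 15 5), .t 1 (nat_lit 0) (.ax 5 8 10 11 1), .t 1 (nat_lit 0) (.ax 5 8 10 11 2), .t 1 (nat_lit 0) (.ax 5 8 10 11 3), .t 1 (nat_lit 0) (.ax 5 8 10 11 4), .t 1 (nat_lit 0) (.ax 5 8 10 11 5), .t 1 (nat_lit 0) (.ax 5 8 10 12 1), .t 1 (nat_lit 0) (.ax 5 8 10 12 2), .t 1 (nat_lit 0) (.ax 5 8 10 12 4),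 .t 1 (nat_lit 0) (.ax 5 8 10 12 5), .t 1 (nat_lit 0) (.ax 5 8 10 12 7), .t 1 (nat_lit 0) (.ax 5 8 10 15 5), .t 1 (nat_lit 0) (.ax 5 8 11 12 5), .t 1 (nat_lit 0) (.ax 5 8 11 15 3), .t 1 (nat_lit 0) (.ax 5 8 11 15 5), .t 1 (nat_lit 0) (.ax 5 8 12 15 4), .t 1 (nat_lit 0) (.ax 5 9 10 11 1), .t 1 (nat_lit 0) (.ax 5 9 10 11 3), .t 1 (nat_lit 0) (.ax 5 9 10 11 4), .t 1 (nat_lit 0) (.ax 5 9 10 11 5)] (by decide +kernel) (by decide +kernel)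
theorem b25 : B 800 832 := Blk.of_chk [.t 1 (nat_lit 0) (.ax 5 9 10 12 0), .t 1 (nat_lit 0) (.ax 5 9 10 12 5), .t 1 (nat_lit 0) (.ax 5 9 10 12 7), .t 1 (nat_lit 0) (.ax 5 9 10 15 0), .t 1 (nat_lit 0) (.ax 5 9 10 15 5), .t 1 (nat_lit 0) (.ax 5 9 11 12 0), .t 1 (nat_lit 0) (.ax 5 9 11 12 4), .t 1 (nat_lit 0) (.ax 5 9 11 15 0), .t 1 (nat_lit 0) (.ax 5 9 12 15 4), .t 1 (nat_lit 0) (.ax 5 9 14 15 0), .t 1 (nat_lit 0) (.ax 5 10 11 12 1), .t 1 (nat_lit 0) (.ax 5 10 11 15 0), .t 1 (nat_lit 0) (.ax 5 10 12 15 4), .t 1 (nat_lit 0) (.ax 5 11 12 15 4), .t 1 (nat_lit 0) (.ax 6 7 8 9 0), .t 1 (nat_lit 0) (.ax 6 7 8 9 2), .t 1 (nat_lit 0) (.ax 6 7 8 9 4), .t 1 (nat_lit 0) (.ax 6 7 8 9 5), .t 1 (nat_lit 0) (.ax 6 7 8 10 0), .t 1 (nat_lit 0) (.ax 6 7 8 10 2), .t 1 (nat_lit 0) (.ax 6 7 8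 10 4), .t 1 (nat_lit 0) (.ax 6 7 8 10 5), .t 1 (nat_lit 0) (.ax 6 7 8 11 0), .t 1 (nat_lit 0) (.ax 6 7 8 11 5), .t 1 (nat_lit 0) (.ax 6 7 9 10 0), .t 1 (nat_lit 0) (.ax 6 7 9 10 2), .t 1 (nat_lit 0) (.ax 6 7 9 10 4), .t 1 (nat_lit 0) (.ax 6 7 9 10 5), .t 1 (nat_lit 0) (.ax 6 7 9 11 0), .t 1 (nat_lit 0) (.ax 6 7 9 11 5), .t 1 (nat_lit 0) (.ax 6 7 10 11 0), .t 1 (nat_lit 0) (.ax 6 7 10 11 2)] (by decide +kernel) (by decide +kernel)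
theorem b26 : B 832 864 := Blk.of_chk [.t 1 (nat_lit 0) (.ax 6 7 10 11 4), .t 1 (nat_lit 0) (.ax 6 7 10 11 5), .t 1 (nat_lit 0) (.ax 6 8 9 10 1), .t 1 (nat_lit 0) (.ax 6 8 9 10 2), .t 1 (nat_lit 0) (.ax 6 8 9 10 3), .t 1 (nat_lit 0) (.ax 6 8 9 10 4), .t 1 (nat_lit 0) (.ax 6 8 9 10 5), .t 1 (nat_lit 0) (.ax 6 8 9 10 6), .t 1 (nat_lit 0) (.ax 6 8 9 11 3), .t 1 (nat_lit 0) (.ax 6 8 9 12 2), .t 1 (nat_lit 0) (.ax 6 8 9 12 4), .t 1 (nat_lit 0) (.ax 6 8 10 11 1), .t 1 (nat_lit 0) (.ax 6 8 10 11 2), .t 1 (nat_lit 0) (.ax 6 8 10 11 3), .t 1 (nat_lit 0) (.ax 6 8 10 11 4), .t 1 (nat_lit 0) (.ax 6 8 10 11 5), .t 1 (nat_lit 0) (.ax 6 8 10 11 7), .t 1 (nat_lit 0) (.ax 6 8 10 12 5), .t 1 (nat_lit 0) (.ax 6 8 10 12 6), .t 1 (nat_lit 0) (.ax 6 8 10 15 5), .t 1 (nat_lit 0) (.ax 6 8 11 12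 0), .t 1 (nat_lit 0) (.ax 6 8 11 15 3), .t 1 (nat_lit 0) (.ax 6 8 11 15 4), .t 1 (nat_lit 0) (.ax 6 9 10 11 0), .t 1 (nat_lit 0) (.ax 6 9 10 11 1), .t 1 (nat_lit 0) (.ax 6 9 10 11 7), .t 1 (nat_lit 0) (.ax 6 9 10 12 4), .t 1 (nat_lit 0) (.ax 6 9 11 12 4), .t 1 (nat_lit 0) (.ax 6 10 11 12 2), .t 1 (nat_lit 0) (.ax 6 10 11 15 2), .t 1 (nat_lit 0) (.ax 6 10 11 15 3), .t 1 (nat_lit 0) (.ax 7 8 9 10 0)] (by decide +kernel) (by decide +kernel)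
theorem b27 : B 864 896 := Blk.of_chk [.t 1 (nat_lit 0) (.ax 7 8 9 10 1), .t 1 (nat_lit 0) (.ax 7 8 9 10 2), .t 1 (nat_lit 0) (.ax 7 8 9 10 3), .t 1 (nat_lit 0) (.ax 7 8 9 10 4), .t 1 (nat_lit 0) (.ax 7 8 9 10 5), .t 1 (nat_lit 0) (.ax 7 8 9 11 0), .t 1 (nat_lit 0) (.ax 7 8 9 11 2), .t 1 (nat_lit 0) (.ax 7 8 9 11 3), .t 1 (nat_lit 0) (.ax 7 8 9 11 4), .t 1 (nat_lit 0) (.ax 7 8 9 11 5), .t 1 (nat_lit 0) (.ax 7 8 9 11 7), .t 1 (nat_lit 0) (.ax 7 8 9 12 2), .t 1 (nat_lit 0) (.ax 7 8 9 15 4), .t 1 (nat_lit 0) (.ax 7 8 10 11 0), .t 1 (nat_lit 0) (.ax 7 8 10 11 2), .t 1 (nat_lit 0) (.ax 7 8 10 11 4), .t 1 (nat_lit 0) (.ax 7 8 10 11 5), .t 1 (nat_lit 0) (.ax 7 8 10 12 2), .t 1 (nat_lit 0) (.ax 7 8 10 15 4), .t 1 (nat_lit 0) (.ax 7 8 12 13 3), .t 1 (nat_lit 0) (.ax 7 8 12 14 3),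 .t 1 (nat_lit 0) (.ax 7 8 12 16 3), .t 1 (nat_lit 0) (.ax 7 9 10 11 0), .t 1 (nat_lit 0) (.ax 7 9 10 11 1), .t 1 (nat_lit 0) (.ax 7 9 10 11 3), .t 1 (nat_lit 0) (.ax 7 9 10 11 4), .t 1 (nat_lit 0) (.ax 7 9 10 11 5), .t 1 (nat_lit 0) (.ax 7 9 10 12 2), .t 1 (nat_lit 0) (.ax 7 9 10 15 1), .t 1 (nat_lit 0) (.ax 7 9 10 15 4), .t 1 (nat_lit 0) (.ax 7 9 10 15 7), .t 1 (nat_lit 0) (.ax 7 9 11 12 2)] (by decide +kernel) (by decide +kernel)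
theorem b28 : B 896 928 := Blk.of_chk [.t 1 (nat_lit 0) (.ax 7 9 11 15 4), .t 1 (nat_lit 0) (.ax 7 9 11 15 7), .t 1 (nat_lit 0) (.ax 7 9 12 13 3), .t 1 (nat_lit 0) (.ax 7 9 12 14 3), .t 1 (nat_lit 0) (.ax 7 9 12 17 3), .t 1 (nat_lit 0) (.ax 7 9 13 15 1), .t 1 (nat_lit 0) (.ax 7 10 11 12 2), .t 1 (nat_lit 0) (.ax 7 10 11 13 4), .t 1 (nat_lit 0) (.ax 7 10 11 15 2), .t 1 (nat_lit 0) (.ax 7 10 11 15 4), .t 1 (nat_lit 0) (.ax 7 10 11 15 7), .t 1 (nat_lit 0) (.ax 7 10 12 13 3), .t 1 (nat_lit 0) (.ax 7 10 12 14 3), .t 1 (nat_lit 0) (.ax 7 10 12 16 3), .t 1 (nat_lit 0) (.ax 7 10 12 17 3), .t 1 (nat_lit 0) (.ax 7 10 12 18 3), .t 1 (nat_lit 0) (.ax 7 10 13 15 4), .t 1 (nat_lit 0) (.ax 7 10 14 15 1), .t 1 (nat_lit 0) (.ax 7 11 12 13 3), .t 1 (nat_lit 0) (.ax 7 11 12 14 3), .t 1 (nat_lit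 0) (.ax 7 11 12 16 3), .t 1 (nat_lit 0) (.ax 7 11 12 17 3), .t 1 (nat_lit 0) (.ax 7 11 12 18 3), .t 1 (nat_lit 0) (.ax 7 11 14 15 1), .t 1 (nat_lit 0) (.ax 7 13 14 15 1), .t 1 (nat_lit 0) (.ax 8 9 10 11 0), .t 1 (nat_lit 0) (.ax 8 9 10 11 1), .t 1 (nat_lit 0) (.ax 8 9 10 11 2), .t 1 (nat_lit 0) (.ax 8 9 10 11 3), .t 1 (nat_lit 0) (.ax 8 9 10 11 4), .t 1 (nat_lit 0) (.ax 8 9 10 11 5), .t 1 (nat_lit 0) (.ax 8 9 10 12 0)] (by decide +kernel) (by decide +kernel)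
theorem b29 : B 928 960 := Blk.of_chk [.t 1 (nat_lit 0) (.ax 8 9 10 12 1), .t 1 (nat_lit 0) (.ax 8 9 10 12 2), .t 1 (nat_lit 0) (.ax 8 9 10 12 3), .t 1 (nat_lit 0) (.ax 8 9 10 12 4), .t 1 (nat_lit 0) (.ax 8 9 10 12 5), .t 1 (nat_lit 0) (.ax 8 9 10 14 2), .t 1 (nat_lit 0) (.ax 8 9 10 14 4), .t 1 (nat_lit 0) (.ax 8 9 10 15 2), .t 1 (nat_lit 0) (.ax 8 9 10 15 4), .t 1 (nat_lit 0) (.ax 8 9 10 15 5), .t 1 (nat_lit 0) (.ax 8 9 10 15 6), .t 1 (nat_lit 0) (.ax 8 9 10 16 4), .t 1 (nat_lit 0) (.ax 8 9 10 16 6), .t 1 (nat_lit 0) (.ax 8 9 11 12 0), .t 1 (nat_lit 0) (.ax 8 9 11 12 1), .t 1 (nat_lit 0) (.ax 8 9 11 12 2), .t 1 (nat_lit 0) (.ax 8 9 11 12 3), .t 1 (nat_lit 0) (.ax 8 9 11 12 4), .t 1 (nat_lit 0) (.ax 8 9 11 12 5), .t 1 (nat_lit 0) (.ax 8 9 11 13 0), .t 1 (nat_lit 0) (.ax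 8 9 11 13 3), .t 1 (nat_lit 0) (.ax 8 9 11 13 5), .t 1 (nat_lit 0) (.ax 8 9 11 14 0), .t 1 (nat_lit 0) (.ax 8 9 11 15 0), .t 1 (nat_lit 0) (.ax 8 9 11 15 6), .t 1 (nat_lit 0) (.ax 8 9 12 13 1), .t 1 (nat_lit 0) (.ax 8 9 12 13 2), .t 1 (nat_lit 0) (.ax 8 9 12 13 4), .t 1 (nat_lit 0) (.ax 8 9 12 14 2), .t 1 (nat_lit 0) (.ax 8 9 12 14 4), .t 1 (nat_lit 0) (.ax 8 9 12 15 4), .t 1 (nat_lit 0) (.ax 8 9 12 16 6)] (by decide +kernel) (by decide +kernel)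
theorem b30 : B 960 992 := Blk.of_chk [.t 1 (nat_lit 0) (.ax 8 9 15 16 4), .t 1 (nat_lit 0) (.ax 8 9 16 18 4), .t 1 (nat_lit 0) (.ax 8 9 17 18 5), .t 1 (nat_lit 0) (.ax 8 10 11 12 0), .t 1 (nat_lit 0) (.ax 8 10 11 12 1), .t 1 (nat_lit 0) (.ax 8 10 11 12 2), .t 1 (nat_lit 0) (.ax 8 10 11 12 3), .t 1 (nat_lit 0) (.ax 8 10 11 12 4), .t 1 (nat_lit 0) (.ax 8 10 11 12 5), .t 1 (nat_lit 0) (.ax 8 10 11 13 0), .t 1 (nat_lit 0) (.ax 8 10 11 13 1), .t 1 (nat_lit 0) (.ax 8 10 11 13 2), .t 1 (nat_lit 0) (.ax 8 10 11 13 3), .t 1 (nat_lit 0) (.ax 8 10 11 13 4), .t 1 (nat_lit 0) (.ax 8 10 11 13 5), .t 1 (nat_lit 0) (.ax 8 10 11 14 0), .t 1 (nat_lit 0) (.ax 8 10 11 14 3), .t 1 (nat_lit 0) (.ax 8 10 11 14 5), .t 1 (nat_lit 0) (.ax 8 10 11 15 1), .t 1 (nat_lit 0) (.ax 8 10 11 15 2), .t 1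 (nat_lit 0) (.ax 8 10 11 15 4), .t 1 (nat_lit 0) (.ax 8 10 11 15 6), .t 1 (nat_lit 0) (.ax 8 10 12 13 1), .t 1 (nat_lit 0) (.ax 8 10 12 13 2), .t 1 (nat_lit 0) (.ax 8 10 12 13 4), .t 1 (nat_lit 0) (.ax 8 10 12 14 1), .t 1 (nat_lit 0) (.ax 8 10 12 14 2), .t 1 (nat_lit 0) (.ax 8 10 12 14 4), .t 1 (nat_lit 0) (.ax 8 10 12 15 4), .t 1 (nat_lit 0) (.ax 8 10 13 15 1), .t 1 (nat_lit 0) (.ax 8 10 13 15 4), .t 1 (nat_lit 0) (.ax 8 10 14 15 1)] (by decide +kernel) (by decide +kernel)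
theorem b31 : B 992 1024 := Blk.of_chk [.t 1 (nat_lit 0) (.ax 8 10 14 15 2), .t 1 (nat_lit 0) (.ax 8 10 14 15 4), .t 1 (nat_lit 0) (.ax 8 10 15 16 4), .t 1 (nat_lit 0) (.ax 8 10 16 18 4), .t 1 (nat_lit 0) (.ax 8 10 17 18 5), .t 1 (nat_lit 0) (.ax 8 11 12 13 1), .t 1 (nat_lit 0) (.ax 8 11 12 13 2), .t 1 (nat_lit 0) (.ax 8 11 12 13 4), .t 1 (nat_lit 0) (.ax 8 11 12 14 1), .t 1 (nat_lit 0) (.ax 8 11 12 14 4), .t 1 (nat_lit 0) (.ax 8 11 13 15 2), .t 1 (nat_lit 0) (.ax 8 11 13 15 4), .t 1 (nat_lit 0) (.ax 8 13 15 16 4), .t 1 (nat_lit 0) (.ax 8 13 16 18 4), .t 1 (nat_lit 0) (.ax 8 13 17 18 5), .t 1 (nat_lit 0) (.ax 8 14 16 18 4), .t 1 (nat_lit 0) (.ax 8 14 17 18 5), .t 1 (nat_lit 0) (.ax 8 16 17 18 5), .t 1 (nat_lit 0) (.ax 9 10 11 12 1), .t 1 (nat_lit 0) (.ax 9 10 11 12 2),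 .t 1 (nat_lit 0) (.ax 9 10 11 12 3), .t 1 (nat_lit 0) (.ax 9 10 11 12 4), .t 1 (nat_lit 0) (.ax 9 10 11 12 5), .t 1 (nat_lit 0) (.ax 9 10 11 12 6), .t 1 (nat_lit 0) (.ax 9 10 11 13 1), .t 1 (nat_lit 0) (.ax 9 10 11 13 2), .t 1 (nat_lit 0) (.ax 9 10 11 13 3), .t 1 (nat_lit 0) (.ax 9 10 11 13 4), .t 1 (nat_lit 0) (.ax 9 10 11 13 5), .t 1 (nat_lit 0) (.ax 9 10 11 14 3), .t 1 (nat_lit 0) (.ax 9 10 11 14 4), .t 1 (nat_lit 0) (.ax 9 10 11 14 5)] (by decide +kernel) (by decide +kernel)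
theorem b32 : B 1024 1056 := Blk.of_chk [.t 1 (nat_lit 0) (.ax 9 10 11 15 2), .t 1 (nat_lit 0) (.ax 9 10 11 15 3), .t 1 (nat_lit 0) (.ax 9 10 11 15 4), .t 1 (nat_lit 0) (.ax 9 10 11 15 5), .t 1 (nat_lit 0) (.ax 9 10 11 15 6), .t 1 (nat_lit 0) (.ax 9 10 11 16 3), .t 1 (nat_lit 0) (.ax 9 10 11 16 4), .t 1 (nat_lit 0) (.ax 9 10 11 16 5), .t 1 (nat_lit 0) (.ax 9 10 11 16 6), .t 1 (nat_lit 0) (.ax 9 10 11 17 3), .t 1 (nat_lit 0) (.ax 9 10 11 18 3), .t 1 (nat_lit 0) (.ax 9 10 12 13 1), .t 1 (nat_lit 0) (.ax 9 10 12 13 4), .t 1 (nat_lit 0) (.ax 9 10 12 14 1), .t 1 (nat_lit 0) (.ax 9 10 12 14 4), .t 1 (nat_lit 0) (.ax 9 10 12 15 4), .t 1 (nat_lit 0) (.ax 9 10 12 15 6), .t 1 (nat_lit 0) (.ax 9 10 12 16 4), .t 1 (nat_lit 0) (.ax 9 10 13 15 2), .t 1 (nat_lit 0) (.ax 9 10 14 15 2),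 .t 1 (nat_lit 0) (.ax 9 10 14 15 3), .t 1 (nat_lit 0) (.ax 9 10 14 15 4), .t 1 (nat_lit 0) (.ax 9 10 14 16 1), .t 1 (nat_lit 0) (.ax 9 10 14 16 4), .t 1 (nat_lit 0) (.ax 9 10 15 16 4), .t 1 (nat_lit 0) (.ax 9 10 16 18 4), .t 1 (nat_lit 0) (.ax 9 10 17 18 5), .t 1 (nat_lit 0) (.ax 9 11 12 13 1), .t 1 (nat_lit 0) (.ax 9 11 12 13 2), .t 1 (nat_lit 0) (.ax 9 11 12 13 4), .t 1 (nat_lit 0) (.ax 9 11 12 14 1), .t 1 (nat_lit 0) (.ax 9 11 12 14 2)] (by decide +kernel) (by decide +kernel)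
theorem b33 : B 1056 1088 := Blk.of_chk [.t 1 (nat_lit 0) (.ax 9 11 12 14 4), .t 1 (nat_lit 0) (.ax 9 11 13 15 0), .t 1 (nat_lit 0) (.ax 9 11 13 15 2), .t 1 (nat_lit 0) (.ax 9 11 13 15 4), .t 1 (nat_lit 0) (.ax 9 11 14 15 1), .t 1 (nat_lit 0) (.ax 9 11 15 16 4), .t 1 (nat_lit 0) (.ax 9 11 16 18 4), .t 1 (nat_lit 0) (.ax 9 11 17 18 5), .t 1 (nat_lit 0) (.ax 9 12 15 17 0), .t 1 (nat_lit 0) (.ax 9 13 14 15 1), .t 1 (nat_lit 0) (.ax 9 14 15 16 4), .t 1 (nat_lit 0) (.ax 9 14 16 18 4), .t 1 (nat_lit 0) (.ax 9 14 17 18 5), .t 1 (nat_lit 0) (.ax 9 16 17 18 5), .t 1 (nat_lit 0) (.ax 10 11 12 13 2), .t 1 (nat_lit 0) (.ax 10 11 12 13 4), .t 1 (nat_lit 0) (.ax 10 11 12 14 2), .t 1 (nat_lit 0) (.ax 10 11 12 14 4), .t 1 (nat_lit 0) (.ax 10 11 12 15 4), .t 1 (nat_lit 0) (.ax 10 11 12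 15 6), .t 1 (nat_lit 0) (.ax 10 11 12 16 4), .t 1 (nat_lit 0) (.ax 10 11 13 14 0), .t 1 (nat_lit 0) (.ax 10 11 13 14 5), .t 1 (nat_lit 0) (.ax 10 11 13 15 2), .t 1 (nat_lit 0) (.ax 10 11 13 15 4), .t 1 (nat_lit 0) (.ax 10 11 13 15 5), .t 1 (nat_lit 0) (.ax 10 11 13 16 0), .t 1 (nat_lit 0) (.ax 10 11 14 15 0), .t 1 (nat_lit 0) (.ax 10 11 14 15 1), .t 1 (nat_lit 0) (.ax 10 11 14 15 2), .t 1 (nat_lit 0) (.ax 10 11 14 15 4), .t 1 (nat_lit 0) (.ax 10 11 14 16 0)] (by decide +kernel) (by decide +kernel)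
theorem b34 : B 1088 1120 := Blk.of_chk [.t 1 (nat_lit 0) (.ax 10 11 15 16 4), .t 1 (nat_lit 0) (.ax 10 11 15 16 6), .t 1 (nat_lit 0) (.ax 10 11 15 17 4), .t 1 (nat_lit 0) (.ax 10 11 15 18 4), .t 1 (nat_lit 0) (.ax 10 11 16 18 4), .t 1 (nat_lit 0) (.ax 10 11 17 18 5), .t 1 (nat_lit 0) (.ax 10 12 13 14 0), .t 1 (nat_lit 0) (.ax 10 12 13 14 5), .t 1 (nat_lit 0) (.ax 10 12 15 17 0), .t 1 (nat_lit 0) (.ax 10 13 14 15 0), .t 1 (nat_lit 0) (.ax 10 13 14 15 1), .t 1 (nat_lit 0) (.ax 10 13 14 15 4), .t 1 (nat_lit 0) (.ax 10 13 14 15 5), .t 1 (nat_lit 0) (.ax 10 13 14 16 0), .t 1 (nat_lit 0) (.ax 10 13 14 16 1), .t 1 (nat_lit 0) (.ax 10 13 14 16 4), .t 1 (nat_lit 0) (.ax 10 13 15 16 4), .t 1 (nat_lit 0) (.ax 10 13 16 18 4), .t 1 (nat_lit 0) (.ax 10 13 17 18 5), .t 1 (nat_lit 0)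 (.ax 10 14 15 16 4), .t 1 (nat_lit 0) (.ax 10 14 16 18 4), .t 1 (nat_lit 0) (.ax 10 14 17 18 5), .t 1 (nat_lit 0) (.ax 10 15 16 17 0), .t 1 (nat_lit 0) (.ax 10 16 17 18 5), .t 1 (nat_lit 0) (.ax 11 12 13 14 5), .t 1 (nat_lit 0) (.ax 11 12 15 17 0), .t 1 (nat_lit 0) (.ax 11 13 14 15 0), .t 1 (nat_lit 0) (.ax 11 13 14 15 1), .t 1 (nat_lit 0) (.ax 11 13 14 15 4), .t 1 (nat_lit 0) (.ax 11 13 14 15 5), .t 1 (nat_lit 0) (.ax 11 13 14 16 0), .t 1 (nat_lit 0) (.ax 11 13 14 16 1)] (by decide +kernel) (by decide +kernel)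
theorem b35 : B 1120 1152 := Blk.of_chk [.t 1 (nat_lit 0) (.ax 11 13 15 16 4), .t 1 (nat_lit 0) (.ax 11 13 16 18 4), .t 1 (nat_lit 0) (.ax 11 13 17 18 5), .t 1 (nat_lit 0) (.ax 11 14 15 16 4), .t 1 (nat_lit 0) (.ax 11 14 16 18 4), .t 1 (nat_lit 0) (.ax 11 14 17 18 5), .t 1 (nat_lit 0) (.ax 11 16 17 18 5), .t 1 (nat_lit 0) (.ax 12 13 15 17 3), .t 1 (nat_lit 0) (.ax 12 14 15 17 3), .t 1 (nat_lit 0) (.ax 13 14 15 16 4), .t 1 (nat_lit 0) (.ax 13 16 17 18 5), .t 1 (nat_lit 0) (.ax 14 16 17 18 5), .t 1 (nat_lit 0) (.fa 4), .t 1 (nat_lit 0) (.cn 5 3), .t 1 (nat_lit 0) (.fa 2), .t 1 (nat_lit 0) (.fa 3), .t 3 (nat_lit 0x39e039c) (.z (.node 0 7 (.edon 0 12 (.leaf [0,8,9,10,11]) (.free 2 [12,13,14,15,16,17,18])) (.free 2 [1,2,3,4,5,6,7]))), .t 8 (nat_lit 0x1520151014e016e016c01570156)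 (.z (.edon 0 12 (.node 0 8 (.leaf [0,9,10,11]) (.node 2 4 (.leaf [2,5,7,8,6]) (.leaf [1,3,4]))) (.free 2 [12,13,14,15,16,17,18]))), .t 1 (nat_lit 0) (.cn 2 2), .t 1 (nat_lit 0) (.cn 2 2), .t 1 (nat_lit 0) (.cn 1 3), .t 10 (nat_lit 0x1520151014e016e016c0157015603f603f3) (.z (.node 2 4 (.node 0 8 (.node 0 12 (.free 2 [0,13,14,15,16,17,18]) (.leaf [9,11,12,10])) (.leaf [2,5,7,8,6])) (.free 1 [1,3,4]))), .t 5 (nat_lit 0x2e001a00040002) (.z (.node 12 0 (.edon 4 9 (.free 2 [4,5,7,8,10,11,12]) (.leaf [1,3,9,6,2])) (.free 2 [0,13,14,15,16,17,18]))), .t 1 (nat_lit 0) (.cp 1 2), .t 3 (nat_lit 0x1790178) (.z (.edon 0 12 (.edon 1 9 (.free 2 [1,3,4,5,7,8,11]) (.leaf [0,2,6,9,10])) (.free 2 [12,13,14,15,16,17,18]))), .t 3 (nat_lit 0x1910190) (.z (.edon 0 12 (.node 2 8 (.leaf [0,2,9,10,11])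 (.free 2 [1,3,4,5,6,7,8])) (.free 2 [12,13,14,15,16,17,18]))), .t 8 (nat_lit 0x459044804470437043604320431) (.z (.edon 1 15 (.edon 0 10 (.free 2 [1,3,4,5,7,8,9]) (.leaf [10,11,12,14,13])) (.free 2 [0,2,6,15,16,17,18]))), .t 1 (nat_lit 0) (.cn 1 3), .t 1 (nat_lit 0) (.cn 2 3), .t 7 (nat_lit 0x46b0237023601bf01be019d) (.z (.edon 0 3 (.free 1 [0,1,2]) (.node 4 15 (.edon 0 13 (.leaf [3,4,10,9,6]) (.leaf [13,16,18,17])) (.free 2 [5,7,8,11,12,14,15])))), .t 1 (nat_lit 0) (.cp 2 3), .t 1 (nat_lit 0) (.fa 2)] (by decide +kernel) (by decide +kernel)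
theorem b36 : B 1152 1184 := Blk.of_chk [.t 1 (nat_lit 0) (.fa 2), .t 5 (nat_lit 0x13a002a00040001) (.z (.edon 15 4 (.node 0 9 (.free 2 [0,10,13,15,16,17,18]) (.leaf [1,3,5,9,2])) (.free 2 [4,6,7,8,11,12,14]))), .t 1 (nat_lit 0) (.cp 2 3), .t 7 (nat_lit 0x46b01ff01fe01b601b50199) (.z (.edon 0 3 (.free 1 [0,1,2]) (.node 4 15 (.edon 0 13 (.leaf [3,4,10,9,5]) (.leaf [13,16,18,17])) (.free 2 [6,7,8,11,12,14,15])))), .t 5 (nat_lit 0x13d002e00040002) (.z (.edon 15 4 (.node 0 9 (.free 2 [0,10,13,15,16,17,18]) (.leaf [1,3,6,9,2])) (.free 2 [4,5,7,8,11,12,14]))), .t 1 (nat_lit 0) (.cn 2 3), .t 1 (nat_lit 0) (.cn 1 3), .t 1 (nat_lit 0) (.cn 2 3), .t 3 (nat_lit 0x1790178) (.z (.edon 0 12 (.edon 1 6 (.free 2 [1,3,4,5,7,8,11]) (.leaf [0,2,6,9,10])) (.free 2 [12,13,14,15,16,17,18]))),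 .t 1 (nat_lit 0) (.cn 2 3), .t 5 (nat_lit 0x467045804460445) (.z (.node 4 15 (.edon 0 10 (.free 2 [0,1,2,3,4,6,9]) (.leaf [10,11,16,18,17])) (.free 2 [5,7,8,12,13,14,15]))), .t 5 (nat_lit 0x467045804460445) (.z (.node 4 15 (.edon 0 10 (.free 2 [0,1,2,3,4,5,9]) (.leaf [10,11,16,18,17])) (.free 2 [6,7,8,12,13,14,15]))), .t 1 (nat_lit 0) (.cn 2 3), .t 3 (nat_lit 0x1650164) (.z (.edon 12 1 (.edon 0 12 (.leaf [0,2,5,9,10]) (.free 2 [12,13,14,15,16,17,18])) (.free 2 [1,3,4,6,7,8,11]))), .t 10 (nat_lit 0x14f0157015501540153016e016d03f603f3) (.z (.node 2 4 (.node 0 8 (.node 0 12 (.free 2 [0,13,14,15,16,17,18]) (.leaf [9,11,12,10])) (.leaf [2,6,7,8,5])) (.free 1 [1,3,4]))), .t 1 (nat_lit 0) (.cn 2 3), .t 1 (nat_lit 0) (.fa 3), .t 1 (nat_lit 0) (.cn 1 3), .t 1 (nat_lit 0) (.cn 1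 3), .t 10 (nat_lit 0x14f0157015501540153016e016d04320431) (.z (.node 2 4 (.node 0 8 (.edon 10 15 (.leaf [10,11,12,14]) (.free 2 [0,9,13,15,16,17,18])) (.leaf [2,6,7,8,5])) (.free 1 [1,3,4]))), .t 1 (nat_lit 0) (.fa 2), .t 1 (nat_lit 0) (.fa 3), .t 8 (nat_lit 0x39a03b303ae03a503a003c903c7) (.z (.node 0 7 (.node 0 12 (.free 2 [0,13,14,15,16,17,18]) (.leaf [8,9,12,11,10])) (.free 2 [1,2,3,4,5,6,7]))), .t 15 (nat_lit 0x14f0157015501540153016e016d0430041e041c040d040c03fd03fb) (.z (.edon 0 16 (.node 0 8 (.node 0 13 (.leaf [0,14,15]) (.leaf [9,12,13,11,10])) (.node 2 4 (.leaf [2,6,7,8,5]) (.leaf [1,3,4]))) (.free 1 [16,17,18]))), .t 3 (nat_lit 0x16a0169) (.z (.edon 0 12 (.edon 1 10 (.free 2 [1,3,4,6,7,8,9]) (.leaf [0,2,5,10,11])) (.free 2 [12,13,14,15,16,17,18]))), .t 5 (nat_lit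 0x467045804460445) (.z (.edon 0 7 (.free 2 [0,1,2,3,4,5,6]) (.node 11 15 (.leaf [10,11,16,18,17]) (.free 2 [7,8,9,12,13,14,15])))), .t 1 (nat_lit 0) (.cp 2 3), .t 10 (nat_lit 0x14f0157015501540153016e016d03f703f5) (.z (.node 2 4 (.node 0 8 (.node 0 12 (.free 2 [0,13,14,15,16,17,18]) (.leaf [9,12,11,10])) (.leaf [2,6,7,8,5])) (.free 1 [1,3,4]))), .t 1 (nat_lit 0) (.cn 1 3), .t 1 (nat_lit 0) (.cn 1 3), .t 1 (nat_lit 0) (.fa 3), .t 3 (nat_lit 0x17d017c) (.z (.edon 0 12 (.edon 1 10 (.free 2 [1,3,4,5,7,8,9]) (.leaf [0,2,6,10,11])) (.free 2 [12,13,14,15,16,17,18])))] (by decide +kernel) (by decide +kernel)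
theorem b37 : B 1184 1216 := Blk.of_chk [.t 1 (nat_lit 0) (.cp 2 3), .t 15 (nat_lit 0x1520151014e016e016c015701560430041e041c040d040c03fd03fb) (.z (.edon 0 16 (.node 0 8 (.node 0 13 (.leaf [0,14,15]) (.leaf [9,12,13,11,10])) (.node 2 4 (.leaf [2,5,7,8,6]) (.leaf [1,3,4]))) (.free 1 [16,17,18]))), .t 8 (nat_lit 0x14f0157015501540153016e016d) (.z (.edon 0 12 (.node 0 8 (.leaf [0,9,10,11]) (.node 2 4 (.leaf [2,6,7,8,5]) (.leaf [1,3,4]))) (.free 2 [12,13,14,15,16,17,18]))), .t 7 (nat_lit 0x46b04670463046203360333) (.z (.node 2 4 (.edon 0 11 (.node 5 10 (.leaf [0,2,5,9]) (.leaf [6,7,10,8])) (.node 13 15 (.leaf [11,13,16,18,17]) (.leaf [12,14,15]))) (.free 1 [1,3,4]))), .t 3 (nat_lit 0x1680167) (.z (.edon 0 12 (.edon 1 9 (.free 2 [1,3,4,6,7,8,10]) (.leaf [0,2,5,9,11])) (.free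 2 [12,13,14,15,16,17,18]))), .t 1 (nat_lit 0) (.cp 2 3), .t 8 (nat_lit 0x32f033c03390336033303470345) (.z (.edon 0 12 (.node 4 8 (.free 2 [0,1,2,3,4,5,11]) (.leaf [6,7,10,9,8])) (.free 2 [12,13,14,15,16,17,18]))), .t 1 (nat_lit 0) (.cn 1 3), .t 8 (nat_lit 0x2eb02f602f502f202ef03070305) (.z (.edon 0 12 (.node 4 8 (.free 2 [0,1,2,3,4,6,11]) (.leaf [5,7,10,9,8])) (.free 2 [12,13,14,15,16,17,18]))), .t 1 (nat_lit 0) (.cp 2 3), .t 10 (nat_lit 0x1520151014e016e016c0157015603f703f5) (.z (.node 2 4 (.node 0 8 (.node 0 12 (.free 2 [0,13,14,15,16,17,18]) (.leaf [9,12,11,10])) (.leaf [2,5,7,8,6])) (.free 1 [1,3,4]))), .t 1 (nat_lit 0) (.cp 1 3), .t 3 (nat_lit 0x18a0189) (.z (.edon 0 12 (.edon 1 8 (.free 2 [1,3,4,5,6,7,9]) (.leaf [0,2,8,10,11])) (.free 2 [12,13,14,15,16,17,18]))),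 .t 8 (nat_lit 0x3b703b303ae03ea03e903be03bd) (.z (.node 0 7 (.edon 11 15 (.leaf [8,9,12,14,11]) (.free 2 [0,10,13,15,16,17,18])) (.free 2 [1,2,3,4,5,6,7]))), .t 1 (nat_lit 0) (.cn 2 3), .t 1 (nat_lit 0) (.cn 5 3), .t 5 (nat_lit 0x13e002f00050002) (.z (.edon 15 4 (.node 0 10 (.free 2 [0,11,13,15,16,17,18]) (.leaf [1,3,6,10,2])) (.free 2 [4,5,7,8,9,12,14]))), .t 7 (nat_lit 0x46b0242024101c101c0019e) (.z (.edon 0 3 (.free 1 [0,1,2]) (.node 4 15 (.edon 0 13 (.leaf [3,4,11,10,6]) (.leaf [13,16,18,17])) (.free 2 [5,7,8,9,12,14,15])))), .t 7 (nat_lit 0x46b020f020e01ba01b9019a) (.z (.edon 0 3 (.free 1 [0,1,2]) (.node 4 15 (.edon 0 13 (.leaf [3,4,11,10,5]) (.leaf [13,16,18,17])) (.free 2 [6,7,8,9,12,14,15])))), .t 5 (nat_lit 0x13b002b00050001) (.z (.edon 15 4 (.node 0 10 (.free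 2 [0,11,13,15,16,17,18]) (.leaf [1,3,5,10,2])) (.free 2 [4,6,7,8,9,12,14]))), .t 4 (nat_lit 0x46b016a0169) (.z (.node 4 15 (.edon 0 13 (.node 2 4 (.leaf [0,2,5,10,11]) (.leaf [1,3,4])) (.leaf [13,16,18,17])) (.free 2 [6,7,8,9,12,14,15]))), .t 1 (nat_lit 0) (.cn 2 3), .t 1 (nat_lit 0) (.cp 1 3), .t 1 (nat_lit 0) (.cn 5 3), .t 5 (nat_lit 0x467042e04280427) (.z (.edon 0 7 (.free 2 [0,1,2,3,4,5,6]) (.node 11 15 (.leaf [9,11,16,18,17]) (.free 2 [7,8,10,12,13,14,15])))), .t 8 (nat_lit 0x43203ea03e903dc03da03d203d1) (.z (.node 0 7 (.edon 11 15 (.leaf [8,12,14,11,10]) (.free 2 [0,9,13,15,16,17,18])) (.free 2 [1,2,3,4,5,6,7]))), .t 5 (nat_lit 0x13a002a00040001) (.z (.edon 15 4 (.node 0 9 (.free 2 [0,11,13,15,16,17,18]) (.leaf [1,3,5,9,2])) (.free 2 [4,6,7,8,10,12,14]))), .t 8 (nat_lit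 0x3d003c903c403ea03e903dc03db) (.z (.node 0 7 (.edon 11 15 (.leaf [8,10,12,14,11]) (.free 2 [0,9,13,15,16,17,18])) (.free 2 [1,2,3,4,5,6,7]))), .t 7 (nat_lit 0x1d001a901a8019c01980024) (.z (.node 12 0 (.node 1 8 (.leaf [1,9,11,2]) (.edon 7 8 (.leaf [7,10,12]) (.leaf [3,4,6,8,5]))) (.free 2 [0,13,14,15,16,17,18]))), .t 6 (nat_lit 0x1b2007c00790032002b) (.z (.edon 0 12 (.edon 1 9 (.edon 4 8 (.leaf [4,6,7]) (.leaf [1,3,8,10,5])) (.leaf [0,2,9,11])) (.free 2 [12,13,14,15,16,17,18]))), .t 1 (nat_lit 0) (.cn 2 2), .t 7 (nat_lit 0x1d001a901a8019c01980024) (.z (.node 12 0 (.node 1 5 (.leaf [1,9,11,2]) (.edon 7 8 (.leaf [7,10,12]) (.leaf [3,4,6,8,5]))) (.free 2 [0,13,14,15,16,17,18])))] (by decide +kernel) (by decide +kernel)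
theorem b38 : B 1216 1248 := Blk.of_chk [.t 7 (nat_lit 0x46b0203020101b801b70199) (.z (.edon 0 3 (.free 1 [0,1,2]) (.node 4 15 (.edon 0 13 (.leaf [3,4,11,9,5]) (.leaf [13,16,18,17])) (.free 2 [6,7,8,10,12,14,15])))), .t 3 (nat_lit 0x1680167) (.z (.edon 0 12 (.edon 1 11 (.free 2 [1,3,4,6,7,8,10]) (.leaf [0,2,5,9,11])) (.free 2 [12,13,14,15,16,17,18]))), .t 1 (nat_lit 0) (.cn 2 3), .t 8 (nat_lit 0x36603650360037a03780370036f) (.z (.edon 0 12 (.edon 0 7 (.free 2 [0,1,2,3,4,5,6]) (.leaf [7,8,10,11,9])) (.free 2 [12,13,14,15,16,17,18]))), .t 1 (nat_lit 0) (.fa 3), .t 1 (nat_lit 0) (.cp 1 3), .t 8 (nat_lit 0x2d502d30290028f01cb01ca01a5) (.z (.edon 0 12 (.edon 0 3 (.leaf [0,1,2]) (.node 4 6 (.leaf [3,4,11,10,9]) (.leaf [5,7,8,6]))) (.free 2 [12,13,14,15,16,17,18]))), .t 1 (nat_lit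 0) (.cn 2 2), .t 7 (nat_lit 0x46b0290028f01cb01ca01a5) (.z (.edon 0 3 (.free 1 [0,1,2]) (.node 4 15 (.edon 0 13 (.leaf [3,4,11,10,9]) (.leaf [13,16,18,17])) (.free 2 [5,6,7,8,12,14,15])))), .t 1 (nat_lit 0) (.cn 2 3), .t 5 (nat_lit 0x34002200050004) (.z (.edon 15 4 (.node 0 10 (.free 2 [0,11,13,15,16,17,18]) (.leaf [1,3,10,9,2])) (.free 2 [4,5,6,7,8,12,14]))), .t 5 (nat_lit 0x141003400050004) (.z (.edon 15 4 (.node 0 10 (.free 2 [0,11,13,15,16,17,18]) (.leaf [1,3,9,10,2])) (.free 2 [4,5,6,7,8,12,14]))), .t 7 (nat_lit 0x204410426041904080406) (.z (.edon 15 4 (.node 0 6 (.node 0 16 (.leaf [0,17,18]) (.leaf [9,15,16,11,10])) (.leaf [1,3,6,2])) (.free 2 [4,5,7,8,12,13,14]))), .t 8 (nat_lit 0x2d302e402e202da02d902f102f0) (.z (.edon 0 12 (.edon 1 9 (.edon 0 5 (.leaf [1,3,4])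 (.leaf [5,7,8,10,6])) (.leaf [0,2,9,11])) (.free 2 [12,13,14,15,16,17,18]))), .t 7 (nat_lit 0x1d601d501ac01ab01970024) (.z (.node 12 0 (.node 1 10 (.leaf [1,9,11,2]) (.edon 7 10 (.leaf [7,8,12]) (.leaf [3,4,5,6,10]))) (.free 2 [0,13,14,15,16,17,18]))), .t 6 (nat_lit 0x1bc00b000ae0032002f) (.z (.edon 0 12 (.node 2 10 (.leaf [0,2,9,11]) (.edon 4 8 (.leaf [4,5,7]) (.leaf [1,3,8,10,6]))) (.free 2 [12,13,14,15,16,17,18]))), .t 1 (nat_lit 0) (.cn 2 2), .t 1 (nat_lit 0) (.cn 1 3), .t 1 (nat_lit 0) (.fa 3), .t 3 (nat_lit 0x17b017a) (.z (.edon 0 12 (.edon 1 9 (.free 2 [1,3,4,5,7,8,10]) (.leaf [0,2,6,9,11])) (.free 2 [12,13,14,15,16,17,18]))), .t 7 (nat_lit 0x1d101aa01a7019c01980024) (.z (.node 12 0 (.node 1 6 (.leaf [1,9,11,2]) (.edon 7 8 (.leaf [7,10,12]) (.leaf [3,4,5,8,6])))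 (.free 2 [0,13,14,15,16,17,18]))), .t 8 (nat_lit 0x2d902d502d302f202ef02e502e3) (.z (.edon 0 12 (.edon 1 9 (.edon 0 5 (.leaf [1,3,4]) (.leaf [5,7,10,8,6])) (.leaf [0,2,9,11])) (.free 2 [12,13,14,15,16,17,18]))), .t 8 (nat_lit 0x3a503f703f503c903c7039f039d) (.z (.node 0 7 (.node 0 12 (.free 2 [0,13,14,15,16,17,18]) (.leaf [8,12,11,10,9])) (.free 2 [1,2,3,4,5,6,7]))), .t 1 (nat_lit 0) (.cn 2 3), .t 4 (nat_lit 0x46b017d017c) (.z (.node 4 15 (.edon 0 13 (.node 2 4 (.leaf [0,2,6,10,11]) (.leaf [1,3,4])) (.leaf [13,16,18,17])) (.free 2 [5,7,8,9,12,14,15]))), .t 10 (nat_lit 0x1520151014e016e016c015701560421041f) (.z (.node 2 4 (.node 0 8 (.edon 11 15 (.leaf [9,12,14,11]) (.free 2 [0,10,13,15,16,17,18])) (.leaf [2,5,7,8,6])) (.free 1 [1,3,4]))), .t 10 (nat_lit 0x14f0157015501540153016e016d0421041f)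 (.z (.node 2 4 (.node 0 8 (.edon 11 15 (.leaf [9,12,14,11]) (.free 2 [0,10,13,15,16,17,18])) (.leaf [2,6,7,8,5])) (.free 1 [1,3,4]))), .t 10 (nat_lit 0x14f0157015501540153016e016d041e041c) (.z (.node 2 4 (.node 0 8 (.edon 11 15 (.leaf [9,12,13,11]) (.free 2 [0,10,14,15,16,17,18])) (.leaf [2,6,7,8,5])) (.free 1 [1,3,4]))), .t 7 (nat_lit 0x46c020f020e01ba01b9019a) (.z (.edon 0 3 (.free 1 [0,1,2]) (.node 4 15 (.edon 0 14 (.leaf [3,4,11,10,5]) (.leaf [14,16,18,17])) (.free 2 [6,7,8,9,12,13,15])))), .t 1 (nat_lit 0) (.cp 2 3), .t 1 (nat_lit 0) (.cn 2 3), .t 4 (nat_lit 0x46c016a0169) (.z (.node 4 15 (.edon 0 14 (.node 2 4 (.leaf [0,2,5,10,11]) (.leaf [1,3,4])) (.leaf [14,16,18,17])) (.free 2 [6,7,8,9,12,13,15])))] (by decide +kernel) (by decide +kernel)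
theorem b39 : B 1248 1280 := Blk.of_chk [.t 5 (nat_lit 0x13b002b00050001) (.z (.edon 15 4 (.node 0 10 (.free 2 [0,11,14,15,16,17,18]) (.leaf [1,3,5,10,2])) (.free 2 [4,6,7,8,9,12,13]))), .t 1 (nat_lit 0) (.cn 2 3), .t 5 (nat_lit 0x141003400050004) (.z (.edon 15 4 (.node 0 10 (.free 2 [0,11,14,15,16,17,18]) (.leaf [1,3,9,10,2])) (.free 2 [4,5,6,7,8,12,13]))), .t 7 (nat_lit 0x46c0290028f01cb01ca01a5) (.z (.edon 0 3 (.free 1 [0,1,2]) (.node 4 15 (.edon 0 14 (.leaf [3,4,11,10,9]) (.leaf [14,16,18,17])) (.free 2 [5,6,7,8,12,13,15])))), .t 5 (nat_lit 0x34002200050004) (.z (.edon 15 4 (.node 0 10 (.free 2 [0,11,14,15,16,17,18]) (.leaf [1,3,10,9,2])) (.free 2 [4,5,6,7,8,12,13]))), .t 1 (nat_lit 0) (.cn 2 3), .t 1 (nat_lit 0) (.cn 1 2), .t 8 (nat_lit 0x2da0335033402f102f002d502d4)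 (.z (.edon 0 12 (.edon 1 9 (.edon 0 5 (.leaf [1,3,4]) (.leaf [5,6,7,8,10])) (.leaf [0,2,9,11])) (.free 2 [12,13,14,15,16,17,18]))), .t 5 (nat_lit 0x139002900030001) (.z (.edon 0 12 (.node 0 8 (.leaf [0,9,10,11]) (.edon 4 8 (.leaf [4,6,7]) (.leaf [1,3,5,8,2]))) (.free 2 [12,13,14,15,16,17,18]))), .t 8 (nat_lit 0x3ca03c903c403e803e603d903d8) (.z (.node 0 7 (.edon 11 15 (.leaf [8,10,12,13,11]) (.free 2 [0,9,14,15,16,17,18])) (.free 2 [1,2,3,4,5,6,7]))), .t 8 (nat_lit 0x43003e803e603d903d703cf03cd) (.z (.node 0 7 (.edon 11 15 (.leaf [8,12,13,11,10]) (.free 2 [0,9,14,15,16,17,18])) (.free 2 [1,2,3,4,5,6,7]))), .t 1 (nat_lit 0) (.cp 2 3), .t 8 (nat_lit 0x41e03e803e603bc03ba03b603b5) (.z (.node 0 7 (.edon 11 15 (.leaf [8,12,13,11,9]) (.free 2 [0,10,14,15,16,17,18])) (.free 2 [1,2,3,4,5,6,7]))),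 .t 1 (nat_lit 0) (.fa 3), .t 8 (nat_lit 0x39f037b03770371036e03690367) (.z (.edon 0 12 (.edon 0 7 (.free 2 [0,1,2,3,4,5,6]) (.leaf [7,8,9,11,10])) (.free 2 [12,13,14,15,16,17,18]))), .t 8 (nat_lit 0x3b403b303ae03e803e603bc03bb) (.z (.node 0 7 (.edon 11 15 (.leaf [8,9,12,13,11]) (.free 2 [0,10,14,15,16,17,18])) (.free 2 [1,2,3,4,5,6,7]))), .t 1 (nat_lit 0) (.fa 3), .t 3 (nat_lit 0x18a0189) (.z (.edon 0 12 (.edon 1 10 (.free 2 [1,3,4,5,6,7,9]) (.leaf [0,2,8,10,11])) (.free 2 [12,13,14,15,16,17,18]))), .t 1 (nat_lit 0) (.cn 5 3), .t 8 (nat_lit 0x430041e041c040d040c03fd03fb) (.z (.edon 1 15 (.edon 0 9 (.free 2 [1,3,4,5,6,7,8]) (.leaf [9,12,13,11,10])) (.free 2 [0,2,14,15,16,17,18]))), .t 1 (nat_lit 0) (.cp 5 3), .t 5 (nat_lit 0x46c046704660465) (.z (.node 0 7 (.edon 0 11 (.leaf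 [0,8,9,10]) (.node 14 15 (.leaf [11,14,16,18,17]) (.leaf [12,13,15]))) (.free 2 [1,2,3,4,5,6,7]))), .t 5 (nat_lit 0x46b046704630462) (.z (.node 0 7 (.edon 0 11 (.leaf [0,8,9,10]) (.node 13 15 (.leaf [11,13,16,18,17]) (.leaf [12,14,15]))) (.free 2 [1,2,3,4,5,6,7]))), .t 8 (nat_lit 0x4320421041f040f040e040003fe) (.z (.edon 1 15 (.edon 0 9 (.free 2 [1,3,4,5,6,7,8]) (.leaf [9,12,14,11,10])) (.free 2 [0,2,13,15,16,17,18]))), .t 1 (nat_lit 0) (.cn 5 3), .t 1 (nat_lit 0) (.cn 2 3), .t 5 (nat_lit 0x46b045804530452) (.z (.node 4 15 (.edon 0 10 (.free 2 [0,1,2,3,4,5,9]) (.leaf [10,13,16,18,17])) (.free 2 [6,7,8,11,12,14,15]))), .t 7 (nat_lit 0x460045d045c001704640461) (.z (.node 1 12 (.node 0 10 (.node 0 16 (.leaf [0,17,18]) (.leaf [11,14,15,16,13])) (.leaf [1,5,10,2])) (.free 2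 [3,4,6,7,8,9,12]))), .t 1 (nat_lit 0) (.cn 2 3), .t 10 (nat_lit 0x2d80430042f0331033002ed02ec02d502d4) (.z (.edon 1 15 (.edon 0 5 (.leaf [1,3,4]) (.edon 0 10 (.leaf [5,6,7,8,9]) (.leaf [10,11,12,13]))) (.free 2 [0,2,14,15,16,17,18]))), .t 4 (nat_lit 0x46c01650164) (.z (.node 4 15 (.edon 0 14 (.node 2 4 (.leaf [0,2,5,9,10]) (.leaf [1,3,4])) (.leaf [14,16,18,17])) (.free 2 [6,7,8,11,12,13,15]))), .t 25 (nat_lit 0x150006900650060005f016f015b015800760073006d006c033103300180017f016e016d00d100d000a100a000190016) (.z (.node 3 1 (.free 1 [3,4]) (.node 9 0 (.leaf [1,6,7,8,9,5,2]) (.free 3 [0,10,11,12,13,14,15,16,17,18]))))] (by decide +kernel) (by decide +kernel)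
theorem b40 : B 1280 1312 := Blk.of_chk [.t 1 (nat_lit 0) (.cn 2 3), .t 1 (nat_lit 0) (.cn 5 3), .t 5 (nat_lit 0x46c045804560455) (.z (.node 4 15 (.edon 0 10 (.free 2 [0,1,2,3,4,5,9]) (.leaf [10,14,16,18,17])) (.free 2 [6,7,8,11,12,13,15]))), .t 1 (nat_lit 0) (.cn 2 3), .t 8 (nat_lit 0x430041e041c040d040c03fd03fb) (.z (.node 0 7 (.edon 11 15 (.leaf [9,12,13,11,10]) (.free 2 [0,8,14,15,16,17,18])) (.free 2 [1,2,3,4,5,6,7]))), .t 5 (nat_lit 0x32001f00050003) (.z (.node 12 0 (.edon 4 10 (.free 2 [4,5,6,7,9,11,12]) (.leaf [1,3,10,8,2])) (.free 2 [0,13,14,15,16,17,18]))), .t 1 (nat_lit 0) (.cp 2 3), .t 7 (nat_lit 0x3f703f50139002900030001) (.z (.node 12 0 (.edon 0 9 (.edon 4 5 (.leaf [4,6,7]) (.leaf [1,3,5,8,2])) (.leaf [9,12,11,10])) (.free 2 [0,13,14,15,16,17,18]))), .t 3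 (nat_lit 0x18a0189) (.z (.edon 0 12 (.edon 1 11 (.free 2 [1,3,4,5,6,7,9]) (.leaf [0,2,8,10,11])) (.free 2 [12,13,14,15,16,17,18]))), .t 7 (nat_lit 0x46c0271026f01c701c601a2) (.z (.edon 0 3 (.free 1 [0,1,2]) (.node 4 15 (.edon 0 14 (.leaf [3,4,11,10,8]) (.leaf [14,16,18,17])) (.free 2 [5,6,7,9,12,13,15])))), .t 1 (nat_lit 0) (.cp 2 3), .t 8 (nat_lit 0x4320421041f040f040e040003fe) (.z (.node 0 7 (.edon 11 15 (.leaf [9,12,14,11,10]) (.free 2 [0,8,13,15,16,17,18])) (.free 2 [1,2,3,4,5,6,7]))), .t 7 (nat_lit 0x46b0271026f01c701c601a2) (.z (.edon 0 3 (.free 1 [0,1,2]) (.node 4 15 (.edon 0 13 (.leaf [3,4,11,10,8]) (.leaf [13,16,18,17])) (.free 2 [5,6,7,9,12,14,15])))), .t 5 (nat_lit 0x140003200050003) (.z (.edon 15 4 (.node 0 10 (.free 2 [0,11,13,15,16,17,18]) (.leaf [1,3,8,10,2]))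 (.free 2 [4,5,6,7,9,12,14]))), .t 5 (nat_lit 0x140003200050003) (.z (.edon 15 4 (.node 0 10 (.free 2 [0,11,14,15,16,17,18]) (.leaf [1,3,8,10,2])) (.free 2 [4,5,6,7,9,12,13]))), .t 1 (nat_lit 0) (.cp 1 3), .t 9 (nat_lit 0x3d50439043803ec03eb03ce03cc046c) (.z (.edon 0 7 (.free 2 [0,1,2,3,4,5,6]) (.node 11 12 (.node 14 15 (.leaf [14,16,18,17]) (.leaf [8,10,11,13,15])) (.leaf [7,9,12])))), .t 10 (nat_lit 0x430042f033202ee02eb02e002de02d802d7) (.z (.edon 1 15 (.edon 0 5 (.leaf [1,3,4]) (.edon 0 10 (.leaf [5,6,7,9,8]) (.leaf [10,11,12,13]))) (.free 2 [0,2,14,15,16,17,18]))), .t 1 (nat_lit 0) (.cn 2 3), .t 1 (nat_lit 0) (.cn 1 3), .t 5 (nat_lit 0x139002900030001) (.z (.edon 15 4 (.node 0 8 (.free 2 [0,10,14,15,16,17,18]) (.leaf [1,3,5,8,2])) (.free 2 [4,6,7,9,11,12,13]))), .t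 7 (nat_lit 0x46c01ef01ed01b301b10198) (.z (.edon 0 3 (.free 1 [0,1,2]) (.node 4 15 (.edon 0 14 (.leaf [3,4,10,8,5]) (.leaf [14,16,18,17])) (.free 2 [6,7,9,11,12,13,15])))), .t 1 (nat_lit 0) (.cp 2 3), .t 1 (nat_lit 0) (.cp 1 3), .t 1 (nat_lit 0) (.cn 5 3), .t 5 (nat_lit 0x46c045804560455) (.z (.node 4 15 (.edon 0 10 (.free 2 [0,1,2,3,4,8,9]) (.leaf [10,14,16,18,17])) (.free 2 [5,6,7,11,12,13,15]))), .t 1 (nat_lit 0) (.cn 2 2), .t 7 (nat_lit 0x3f603f3013c002d00030002) (.z (.node 12 0 (.edon 0 9 (.edon 4 6 (.leaf [4,5,7]) (.leaf [1,3,6,8,2])) (.leaf [9,11,12,10])) (.free 2 [0,13,14,15,16,17,18]))), .t 7 (nat_lit 0x3f603f30139002900030001) (.z (.node 12 0 (.edon 0 9 (.edon 4 5 (.leaf [4,6,7]) (.leaf [1,3,5,8,2])) (.leaf [9,11,12,10])) (.free 2 [0,13,14,15,16,17,18]))), .t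 5 (nat_lit 0x33e033d015e015d) (.z (.edon 0 12 (.node 4 9 (.node 2 4 (.leaf [0,2,5,8,10]) (.leaf [1,3,4])) (.leaf [6,7,11,9])) (.free 2 [12,13,14,15,16,17,18]))), .t 5 (nat_lit 0x46c045804560455) (.z (.node 4 15 (.edon 0 10 (.free 2 [0,1,2,3,4,5,8]) (.leaf [10,14,16,18,17])) (.free 2 [6,7,9,11,12,13,15]))), .t 8 (nat_lit 0x3a0039f039a03c803c503b203b0) (.z (.node 0 7 (.node 0 12 (.free 2 [0,13,14,15,16,17,18]) (.leaf [8,9,11,12,10])) (.free 2 [1,2,3,4,5,6,7])))] (by decide +kernel) (by decide +kernel)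

end Pool.Agent.GCP.E7
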