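import Pool.Agent.GCP.E8_10Db

set_option autoImplicit false
set_option maxRecDepth 100000

/-! # Blocks E8_10B0 (generated) -/

namespace Pool.Agent.GCP.E8_10

open Pool.Agent.GCP DB

theorem b0 : B 0 32 := Blk.of_chk [.t 1 (nat_lit 0) (.ax 1 2 3 5 1), .t 1 (nat_lit 0) (.ax 1 2 3 6 1), .t 1 (nat_lit 0) (.ax 1 2 3 7 1), .t 1 (nat_lit 0) (.ax 1 2 3 8 1), .t 1 (nat_lit 0) (.ax 1 2 3 9 1), .t 1 (nat_lit 0) (.ax 1 2 3 12 1), .t 1 (nat_lit 0) (.ax 1 2 4 5 1), .t 1 (nat_lit 0) (.ax 1 2 4 6 1), .t 1 (nat_lit 0) (.ax 1 2 4 8 1), .t 1 (nat_lit 0) (.ax 1 2 4 12 1), .t 1 (nat_lit 0) (.ax 1 2 4 18 1), .t 1 (nat_lit 0) (.ax 1 2 5 7 1), .t 1 (nat_lit 0) (.ax 1 2 5 9 1), .t 1 (nat_lit 0) (.ax 1 2 5 10 1), .t 1 (nat_lit 0) (.ax 1 2 5 11 1), .t 1 (nat_lit 0) (.ax 1 2 6 7 1), .t 1 (nat_lit 0) (.ax 1 2 6 9 1), .t 1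 (nat_lit 0) (.ax 1 2 6 10 1), .t 1 (nat_lit 0) (.ax 1 2 6 11 1), .t 1 (nat_lit 0) (.ax 1 2 7 12 1), .t 1 (nat_lit 0) (.ax 1 2 7 15 1), .t 1 (nat_lit 0) (.ax 1 2 9 10 1), .t 1 (nat_lit 0) (.ax 1 2 10 18 1), .t 1 (nat_lit 0) (.ax 1 3 5 12 0), .t 1 (nat_lit 0) (.ax 1 3 6 7 0), .t 1 (nat_lit 0) (.ax 1 3 6 8 0), .t 1 (nat_lit 0) (.ax 1 3 6 12 0), .t 1 (nat_lit 0) (.ax 1 3 9 10 0), .t 1 (nat_lit 0) (.ax 1 3 12 13 0), .t 1 (nat_lit 0) (.ax 1 4 7 8 0), .t 1 (nat_lit 0) (.ax 1 4 7 9 0), .t 1 (nat_lit 0) (.ax 1 4 7 11 0)] (by decide +kernel) (by decide +kernel)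
theorem b1 : B 32 64 := Blk.of_chk [.t 1 (nat_lit 0) (.ax 1 4 7 12 0), .t 1 (nat_lit 0) (.ax 1 4 7 13 0), .t 1 (nat_lit 0) (.ax 1 4 7 14 0), .t 1 (nat_lit 0) (.ax 1 4 7 15 0), .t 1 (nat_lit 0) (.ax 1 4 7 16 0), .t 1 (nat_lit 0) (.ax 1 4 7 17 0), .t 1 (nat_lit 0) (.ax 1 4 7 18 0), .t 1 (nat_lit 0) (.ax 1 4 9 12 0), .t 1 (nat_lit 0) (.ax 1 4 9 15 0), .t 1 (nat_lit 0) (.ax 1 5 7 10 4), .t 1 (nat_lit 0) (.ax 1 5 7 15 4), .t 1 (nat_lit 0) (.ax 1 5 8 15 0), .t 1 (nat_lit 0) (.ax 1 5 9 10 0), .t 1 (nat_lit 0) (.ax 1 5 9 10 7), .t 1 (nat_lit 0) (.ax 1 5 9 12 2), .t 1 (nat_lit 0) (.ax 1 5 9 12 4), .t 1 (nat_lit 0) (.ax 1 5 9 15 0), .t 1 (nat_lit 0) (.ax 1 5 10 11 4), .t 1 (nat_lit 0) (.ax 1 5 10 15 4), .t 1 (nat_lit 0) (.ax 1 5 11 12 2), .t 1 (nat_lit 0) (.ax 1 5 11 12 4), .t 1 (nat_lit 0) (.ax 1 6 7 10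 4), .t 1 (nat_lit 0) (.ax 1 6 7 15 4), .t 1 (nat_lit 0) (.ax 1 6 9 10 0), .t 1 (nat_lit 0) (.ax 1 6 9 10 7), .t 1 (nat_lit 0) (.ax 1 6 9 12 2), .t 1 (nat_lit 0) (.ax 1 6 9 12 4), .t 1 (nat_lit 0) (.ax 1 6 9 15 0), .t 1 (nat_lit 0) (.ax 1 6 10 11 4), .t 1 (nat_lit 0) (.ax 1 6 10 15 4), .t 1 (nat_lit 0) (.ax 1 6 11 12 2), .t 1 (nat_lit 0) (.ax 1 6 11 12 4)] (by decide +kernel) (by decide +kernel)
theorem b2 : B 64 96 := Blk.of_chk [.t 1 (nat_lit 0) (.ax 1 7 10 11 0), .t 1 (nat_lit 0) (.ax 1 7 10 13 0), .t 1 (nat_lit 0) (.ax 1 7 10 14 0), .t 1 (nat_lit 0) (.ax 1 7 10 15 0), .t 1 (nat_lit 0) (.ax 1 7 10 16 0), .t 1 (nat_lit 0) (.ax 1 7 10 17 0), .t 1 (nat_lit 0) (.ax 1 7 10 18 0), .t 1 (nat_lit 0) (.ax 1 7 13 15 0), .t 1 (nat_lit 0) (.ax 1 7 14 15 0), .t 1 (nat_lit 0) (.ax 1 7 14 15 2), .t 1 (nat_lit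 0) (.ax 1 8 9 10 1), .t 1 (nat_lit 0) (.ax 1 8 9 15 0), .t 1 (nat_lit 0) (.ax 1 8 10 15 4), .t 1 (nat_lit 0) (.ax 1 8 11 15 0), .t 1 (nat_lit 0) (.ax 1 8 13 15 0), .t 1 (nat_lit 0) (.ax 1 8 14 15 0), .t 1 (nat_lit 0) (.ax 1 9 10 15 4), .t 1 (nat_lit 0) (.ax 1 9 12 15 4), .t 1 (nat_lit 0) (.ax 1 10 12 17 0), .t 1 (nat_lit 0) (.ax 1 12 13 14 2), .t 1 (nat_lit 0) (.ax 1 12 13 14 4), .t 1 (nat_lit 0) (.ax 1 12 15 17 0), .t 1 (nat_lit 0) (.ax 2 3 5 12 0), .t 1 (nat_lit 0) (.ax 2 3 6 7 0), .t 1 (nat_lit 0) (.ax 2 3 6 8 0), .t 1 (nat_lit 0) (.ax 2 3 6 12 0), .t 1 (nat_lit 0) (.ax 2 5 6 7 0), .t 1 (nat_lit 0) (.ax 2 5 6 7 1), .t 1 (nat_lit 0) (.ax 2 5 6 7 5), .t 1 (nat_lit 0) (.ax 2 5 6 8 0), .t 1 (nat_lit 0) (.ax 2 5 6 8 1), .t 1 (nat_lit 0) (.ax 2 5 6 8 4)] (by decide +kernel) (by decide +kernel)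
theorem b3 : B 96 128 := Blk.of_chk [.t 1 (nat_lit 0) (.ax 2 5 7 8 1), .t 1 (nat_lit 0) (.ax 2 5 7 8 2), .t 1 (nat_lit 0) (.ax 2 5 7 8 4), .t 1 (nat_lit 0) (.ax 2 5 8 10 6), .t 1 (nat_lit 0) (.ax 2 5 9 10 5), .t 1 (nat_lit 0) (.ax 2 5 9 12 2), .t 1 (nat_lit 0) (.ax 2 5 9 12 4), .t 1 (nat_lit 0) (.ax 2 5 10 11 2), .t 1 (nat_lit 0) (.ax 2 5 10 11 4), .t 1 (nat_lit 0) (.ax 2 5 11 12 2), .t 1 (nat_lit 0) (.ax 2 5 11 12 4), .t 1 (nat_lit 0) (.ax 2 6 7 8 1), .t 1 (nat_lit 0) (.ax 2 6 7 8 2), .t 1 (nat_lit 0) (.ax 2 6 7 8 4), .t 1 (nat_lit 0) (.ax 2 6 8 10 6), .t 1 (nat_lit 0) (.ax 2 6 9 10 5), .t 1 (nat_lit 0) (.ax 2 6 9 12 2), .t 1 (nat_lit 0) (.ax 2 6 9 12 4), .t 1 (nat_lit 0) (.ax 2 6 10 11 2), .t 1 (nat_lit 0) (.ax 2 6 10 11 4), .t 1 (nat_lit 0) (.ax 2 6 11 12 2), .t 1 (nat_lit 0) (.ax 2 6 11 12 4),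 .t 1 (nat_lit 0) (.ax 2 8 9 10 1), .t 1 (nat_lit 0) (.ax 3 4 6 8 0), .t 1 (nat_lit 0) (.ax 3 4 7 8 0), .t 1 (nat_lit 0) (.ax 3 4 7 9 0), .t 1 (nat_lit 0) (.ax 3 4 7 12 0), .t 1 (nat_lit 0) (.ax 3 4 7 13 0), .t 1 (nat_lit 0) (.ax 3 4 7 15 0), .t 1 (nat_lit 0) (.ax 3 4 7 18 0), .t 1 (nat_lit 0) (.ax 3 4 9 12 0), .t 1 (nat_lit 0) (.ax 3 5 7 8 4)] (by decide +kernel) (by decide +kernel)
theorem b4 : B 128 160 := Blk.of_chk [.t 1 (nat_lit 0) (.ax 3 5 7 9 4), .t 1 (nat_lit 0) (.ax 3 5 8 9 2), .t 1 (nat_lit 0) (.ax 3 5 9 11 3), .t 1 (nat_lit 0) (.ax 3 5 9 12 4), .t 1 (nat_lit 0) (.ax 3 6 8 9 2), .t 1 (nat_lit 0) (.ax 3 6 8 9 4), .t 1 (nat_lit 0) (.ax 3 6 9 11 3), .t 1 (nat_lit 0) (.ax 3 6 9 12 4), .t 1 (nat_lit 0) (.ax 3 7 10 13 0), .t 1 (nat_lit 0) (.ax 3 7 10 18 0), .t 1 (nat_lit 0) (.ax 3 10 12 13 0),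 .t 1 (nat_lit 0) (.ax 3 12 13 14 2), .t 1 (nat_lit 0) (.ax 3 12 13 14 4), .t 1 (nat_lit 0) (.ax 4 5 6 8 1), .t 1 (nat_lit 0) (.ax 4 5 6 18 0), .t 1 (nat_lit 0) (.ax 4 5 6 18 1), .t 1 (nat_lit 0) (.ax 4 5 6 18 4), .t 1 (nat_lit 0) (.ax 4 5 7 8 3), .t 1 (nat_lit 0) (.ax 4 5 7 9 3), .t 1 (nat_lit 0) (.ax 4 5 7 11 3), .t 1 (nat_lit 0) (.ax 4 5 7 12 3), .t 1 (nat_lit 0) (.ax 4 5 7 13 3), .t 1 (nat_lit 0) (.ax 4 5 7 14 3), .t 1 (nat_lit 0) (.ax 4 5 7 15 3), .t 1 (nat_lit 0) (.ax 4 5 7 18 3), .t 1 (nat_lit 0) (.ax 4 5 8 18 4), .t 1 (nat_lit 0) (.ax 4 5 9 12 3), .t 1 (nat_lit 0) (.ax 4 5 9 12 6), .t 1 (nat_lit 0) (.ax 4 5 9 15 0), .t 1 (nat_lit 0) (.ax 4 5 9 15 5), .t 1 (nat_lit 0) (.ax 4 5 9 16 0), .t 1 (nat_lit 0) (.ax 4 5 9 18 3)] (by decide +kernel) (by decide +kernel)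
theorem b5 : B 160 192 := Blk.of_chk [.t 1 (nat_lit 0) (.ax 4 5 9 18 4), .t 1 (nat_lit 0) (.ax 4 5 12 14 4), .t 1 (nat_lit 0) (.ax 4 5 12 15 4), .t 1 (nat_lit 0) (.ax 4 5 12 18 4), .t 1 (nat_lit 0) (.ax 4 5 13 14 0), .t 1 (nat_lit 0) (.ax 4 5 15 16 4), .t 1 (nat_lit 0) (.ax 4 6 7 8 3), .t 1 (nat_lit 0) (.ax 4 6 7 9 3), .t 1 (nat_lit 0) (.ax 4 6 7 11 3), .t 1 (nat_lit 0) (.ax 4 6 7 12 3), .t 1 (nat_lit 0) (.ax 4 6 7 13 3), .t 1 (nat_lit 0) (.ax 4 6 7 14 3), .t 1 (nat_lit 0) (.ax 4 6 7 15 3), .t 1 (nat_lit 0) (.ax 4 6 7 18 3), .t 1 (nat_lit 0) (.ax 4 6 8 12 2), .t 1 (nat_lit 0) (.ax 4 6 8 18 4), .t 1 (nat_lit 0) (.ax 4 6 9 12 1), .t 1 (nat_lit 0) (.ax 4 6 9 15 0), .t 1 (nat_lit 0) (.ax 4 6 9 15 5), .t 1 (nat_lit 0) (.ax 4 6 9 16 0), .t 1 (nat_lit 0) (.ax 4 6 9 18 4), .t 1 (nat_lit 0) (.ax 4 6 11 12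 0), .t 1 (nat_lit 0) (.ax 4 6 11 12 3), .t 1 (nat_lit 0) (.ax 4 6 11 18 4), .t 1 (nat_lit 0) (.ax 4 6 12 14 4), .t 1 (nat_lit 0) (.ax 4 6 12 15 4), .t 1 (nat_lit 0) (.ax 4 6 12 18 4), .t 1 (nat_lit 0) (.ax 4 6 13 14 0), .t 1 (nat_lit 0) (.ax 4 6 15 16 4), .t 1 (nat_lit 0) (.ax 4 7 8 12 0), .t 1 (nat_lit 0) (.ax 4 7 8 18 0), .t 1 (nat_lit 0) (.ax 4 7 9 18 0)] (by decide +kernel) (by decide +kernel)
theorem b6 : B 192 224 := Blk.of_chk [.t 1 (nat_lit 0) (.ax 4 7 10 13 0), .t 1 (nat_lit 0) (.ax 4 7 10 14 0), .t 1 (nat_lit 0) (.ax 4 7 10 16 0), .t 1 (nat_lit 0) (.ax 4 7 10 17 0), .t 1 (nat_lit 0) (.ax 4 7 10 18 0), .t 1 (nat_lit 0) (.ax 4 8 11 12 0), .t 1 (nat_lit 0) (.ax 4 9 12 15 4), .t 1 (nat_lit 0) (.ax 4 9 12 18 4), .t 1 (nat_lit 0) (.ax 4 9 15 16 4), .t 1 (nat_lit 0) (.ax 4 9 16 18 4), .t 1 (nat_lit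 0) (.ax 4 10 11 13 0), .t 1 (nat_lit 0) (.ax 4 10 12 13 0), .t 1 (nat_lit 0) (.ax 4 10 12 14 0), .t 1 (nat_lit 0) (.ax 4 10 12 16 0), .t 1 (nat_lit 0) (.ax 4 10 12 17 0), .t 1 (nat_lit 0) (.ax 4 10 12 18 0), .t 1 (nat_lit 0) (.ax 4 10 13 18 0), .t 1 (nat_lit 0) (.ax 4 10 14 18 0), .t 1 (nat_lit 0) (.ax 4 11 13 18 6), .t 1 (nat_lit 0) (.ax 4 13 14 15 2), .t 1 (nat_lit 0) (.ax 4 13 14 15 4), .t 1 (nat_lit 0) (.ax 4 13 15 16 4), .t 1 (nat_lit 0) (.ax 4 14 15 16 4), .t 1 (nat_lit 0) (.ax 5 6 8 9 4), .t 1 (nat_lit 0) (.ax 5 6 9 18 4), .t 1 (nat_lit 0) (.ax 5 7 8 12 0), .t 1 (nat_lit 0) (.ax 5 7 8 18 0), .t 1 (nat_lit 0) (.ax 5 7 9 18 0), .t 1 (nat_lit 0) (.ax 5 7 10 11 0), .t 1 (nat_lit 0) (.ax 5 7 10 13 0), .t 1 (nat_lit 0) (.ax 5 7 10 14 0), .t 1 (nat_lit 0) (.ax 5 7 10 15 0)] (by decide +kernel) (by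 decide +kernel)
theorem b7 : B 224 256 := Blk.of_chk [.t 1 (nat_lit 0) (.ax 5 7 10 18 0), .t 1 (nat_lit 0) (.ax 5 7 13 15 0), .t 1 (nat_lit 0) (.ax 5 7 14 15 0), .t 1 (nat_lit 0) (.ax 5 8 9 10 5), .t 1 (nat_lit 0) (.ax 5 8 10 11 4), .t 1 (nat_lit 0) (.ax 5 8 10 15 4), .t 1 (nat_lit 0) (.ax 5 8 11 12 0), .t 1 (nat_lit 0) (.ax 5 8 11 12 2), .t 1 (nat_lit 0) (.ax 5 8 12 15 4), .t 1 (nat_lit 0) (.ax 5 10 11 13 0), .t 1 (nat_lit 0) (.ax 5 10 12 14 0), .t 1 (nat_lit 0) (.ax 5 10 12 18 0), .t 1 (nat_lit 0) (.ax 5 11 12 14 2), .t 1 (nat_lit 0) (.ax 5 11 12 14 4), .t 1 (nat_lit 0) (.ax 5 11 13 14 0), .t 1 (nat_lit 0) (.ax 5 11 13 14 5), .t 1 (nat_lit 0) (.ax 5 11 13 15 6), .t 1 (nat_lit 0) (.ax 5 12 13 14 0), .t 1 (nat_lit 0) (.ax 5 12 13 14 5), .t 1 (nat_lit 0) (.ax 6 7 8 12 0), .t 1 (nat_lit 0) (.ax 6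 7 8 18 0), .t 1 (nat_lit 0) (.ax 6 7 9 18 0), .t 1 (nat_lit 0) (.ax 6 7 10 11 0), .t 1 (nat_lit 0) (.ax 6 7 10 13 0), .t 1 (nat_lit 0) (.ax 6 7 10 14 0), .t 1 (nat_lit 0) (.ax 6 7 10 15 0), .t 1 (nat_lit 0) (.ax 6 7 10 18 0), .t 1 (nat_lit 0) (.ax 6 7 13 15 0), .t 1 (nat_lit 0) (.ax 6 7 14 15 0), .t 1 (nat_lit 0) (.ax 6 8 9 10 5), .t 1 (nat_lit 0) (.ax 6 8 10 11 4), .t 1 (nat_lit 0) (.ax 6 8 10 12 4)] (by decide +kernel) (by decide +kernel)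
theorem b8 : B 256 288 := Blk.of_chk [.t 1 (nat_lit 0) (.ax 6 8 11 12 0), .t 1 (nat_lit 0) (.ax 6 8 11 12 2), .t 1 (nat_lit 0) (.ax 6 8 12 15 4), .t 1 (nat_lit 0) (.ax 6 10 11 13 0), .t 1 (nat_lit 0) (.ax 6 10 12 14 0), .t 1 (nat_lit 0) (.ax 6 10 12 18 0), .t 1 (nat_lit 0) (.ax 6 10 13 18 0), .t 1 (nat_lit 0) (.ax 6 11 12 14 2), .t 1 (nat_lit 0) (.ax 6 11 12 14 4), .t 1 (nat_lit 0) (.ax 6 11 13 14 0), .t 1 (nat_lit 0) (.ax 6 11 13 14 5), .t 1 (nat_lit 0) (.ax 6 11 13 15 6), .t 1 (nat_lit 0) (.ax 6 11 13 18 6), .t 1 (nat_lit 0) (.ax 6 12 13 14 0), .t 1 (nat_lit 0) (.ax 6 12 13 14 5), .t 1 (nat_lit 0) (.ax 7 8 9 11 3), .t 1 (nat_lit 0) (.ax 7 8 9 11 5), .t 1 (nat_lit 0) (.ax 7 8 9 18 0), .t 1 (nat_lit 0) (.ax 7 8 9 18 1), .t 1 (nat_lit 0) (.ax 7 8 9 18 4), .t 1 (nat_lit 0) (.ax 7 8 10 11 1), .t 1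 (nat_lit 0) (.ax 7 8 10 11 3), .t 1 (nat_lit 0) (.ax 7 8 10 15 3), .t 1 (nat_lit 0) (.ax 7 8 10 18 3), .t 1 (nat_lit 0) (.ax 7 8 12 18 4), .t 1 (nat_lit 0) (.ax 7 8 13 15 5), .t 1 (nat_lit 0) (.ax 7 8 13 18 4), .t 1 (nat_lit 0) (.ax 7 8 15 18 4), .t 1 (nat_lit 0) (.ax 7 9 10 11 1), .t 1 (nat_lit 0) (.ax 7 9 10 11 3), .t 1 (nat_lit 0) (.ax 7 9 10 15 3), .t 1 (nat_lit 0) (.ax 7 9 10 18 3)] (by decide +kernel) (by decide +kernel)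
theorem b9 : B 288 320 := Blk.of_chk [.t 1 (nat_lit 0) (.ax 7 9 12 18 4), .t 1 (nat_lit 0) (.ax 7 9 15 18 4), .t 1 (nat_lit 0) (.ax 7 10 12 13 0), .t 1 (nat_lit 0) (.ax 7 10 12 14 0), .t 1 (nat_lit 0) (.ax 7 10 12 16 0), .t 1 (nat_lit 0) (.ax 7 10 12 17 0), .t 1 (nat_lit 0) (.ax 7 10 12 18 0), .t 1 (nat_lit 0) (.ax 7 12 15 17 0), .t 1 (nat_lit 0) (.ax 8 9 10 11 2), .t 1 (nat_lit 0) (.ax 8 9 10 11 4), .t 1 (nat_lit 0) (.ax 8 9 11 15 6), .t 1 (nat_lit 0) (.ax 8 10 12 18 0), .t 1 (nat_lit 0) (.ax 8 10 13 18 0), .t 1 (nat_lit 0) (.ax 8 11 12 14 4), .t 1 (nat_lit 0) (.ax 8 11 12 15 4), .t 1 (nat_lit 0) (.ax 8 11 14 15 2), .t 1 (nat_lit 0) (.ax 9 10 12 18 0), .t 1 (nat_lit 0) (.ax 10 11 12 14 3), .t 1 (nat_lit 0) (.ax 10 11 13 15 2), .t 1 (nat_lit 0) (.ax 10 11 13 15 4), .t 1 (nat_lit 0) (.ax 10 11 14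 15 0), .t 1 (nat_lit 0) (.ax 11 12 13 14 5), .t 1 (nat_lit 0) (.ax 11 13 14 15 1), .t 1 (nat_lit 0) (.ax 13 14 15 16 4), .t 1 (nat_lit 0) (.fa 4), .t 1 (nat_lit 0) (.cp 4 3), .t 1 (nat_lit 0) (.cp 3 3), .t 1 (nat_lit 0) (.cp 7 3), .t 1 (nat_lit 0) (.cp 1 3), .t 3 (nat_lit 0x740073) (.z (.edon 0 12 (.edon 1 10 (.free 2 [1,3,4,5,7,8,9]) (.leaf [0,2,6,10,11])) (.free 2 [12,13,14,15,16,17,18]))), .t 8 (nat_lit 0x5e005d005b006e006c00630062) (.z (.edon 0 12 (.node 0 8 (.leaf [0,9,10,11]) (.node 2 4 (.leaf [2,5,7,8,6]) (.leaf [1,3,4]))) (.free 2 [12,13,14,15,16,17,18]))), .t 1 (nat_lit 0) (.cp 1 2)] (by decide +kernel) (by decide +kernel)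
theorem b10 : B 320 352 := Blk.of_chk [.t 3 (nat_lit 0x690068) (.z (.edon 0 12 (.edon 1 10 (.free 2 [1,3,4,6,7,8,9]) (.leaf [0,2,5,10,11])) (.free 2 [12,13,14,15,16,17,18]))), .t 1 (nat_lit 0) (.cn 1 3), .t 1 (nat_lit 0) (.cn 7 3), .t 1 (nat_lit 0) (.fa 2), .t 1 (nat_lit 0) (.fa 4), .t 1 (nat_lit 0) (.cp 6 3), .t 1 (nat_lit 0) (.cp 2 3), .t 1 (nat_lit 0) (.fa 5), .t 1 (nat_lit 0) (.cp 3 3), .t 1 (nat_lit 0) (.cp 3 3), .t 1 (nat_lit 0) (.cp 3 2), .t 6 (nat_lit 0x6700660030002f000d) (.z (.node 12 0 (.edon 3 9 (.free 2 [3,4,6,7,8,10,11]) (.leaf [1,5,9,12,2])) (.free 2 [0,13,14,15,16,17,18]))), .t 6 (nat_lit 0x6b006a00350034000f) (.z (.node 12 0 (.node 5 9 (.leaf [1,5,11,12,2]) (.free 2 [3,4,6,7,8,9,10])) (.free 2 [0,13,14,15,16,17,18]))), .t 5 (nat_lit 0x57001800060001) (.z (.node 12 0 (.edon 4 12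 (.free 2 [4,6,7,8,9,10,11]) (.leaf [1,3,5,12,2])) (.free 2 [0,13,14,15,16,17,18]))), .t 1 (nat_lit 0) (.fa 3), .t 1 (nat_lit 0) (.cp 1 3), .t 1 (nat_lit 0) (.fa 2), .t 8 (nat_lit 0x5c006300610060005f006e006d) (.z (.edon 0 12 (.node 0 8 (.leaf [0,9,10,11]) (.node 2 4 (.leaf [2,6,7,8,5]) (.leaf [1,3,4]))) (.free 2 [12,13,14,15,16,17,18]))), .t 1 (nat_lit 0) (.cp 2 3), .t 1 (nat_lit 0) (.fa 2), .t 6 (nat_lit 0x7600750040003f0013) (.z (.node 12 0 (.node 6 9 (.leaf [1,6,11,12,2]) (.free 2 [3,4,5,7,8,9,10])) (.free 2 [0,13,14,15,16,17,18]))), .t 6 (nat_lit 0x720071003b003a0011) (.z (.node 12 0 (.edon 3 9 (.free 2 [3,4,5,7,8,10,11]) (.leaf [1,6,9,12,2])) (.free 2 [0,13,14,15,16,17,18]))), .t 1 (nat_lit 0) (.cp 2 3), .t 6 (nat_lit 0x12a011d011501110110) (.z (.edon 0 12 (.edon 0 7 (.free 2 [0,1,2,3,4,5,6])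 (.leaf [7,10,11,9,8])) (.free 2 [12,13,14,15,16,17,18]))), .t 5 (nat_lit 0x5a001b00060002) (.z (.node 12 0 (.edon 4 12 (.free 2 [4,5,7,8,9,10,11]) (.leaf [1,3,6,12,2])) (.free 2 [0,13,14,15,16,17,18]))), .t 1 (nat_lit 0) (.cp 2 3), .t 1 (nat_lit 0) (.cp 4 3), .t 1 (nat_lit 0) (.cp 3 3), .t 1 (nat_lit 0) (.fa 3), .t 1 (nat_lit 0) (.cn 1 2), .t 5 (nat_lit 0x59001a00040002) (.z (.edon 0 12 (.node 0 8 (.leaf [0,9,10,11]) (.node 3 7 (.leaf [1,3,6,8,2]) (.leaf [4,5,7]))) (.free 2 [12,13,14,15,16,17,18]))), .t 6 (nat_lit 0x8d008c00550054001d) (.z (.edon 12 4 (.edon 1 15 (.leaf [1,3,12,13,14]) (.free 2 [0,2,9,15,16,17,18])) (.free 2 [4,5,6,7,8,10,11])))] (by decide +kernel) (by decide +kernel)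
theorem b11 : B 352 384 := Blk.of_chk [.t 1 (nat_lit 0) (.fa 5), .t 1 (nat_lit 0) (.cn 4 2), .t 6 (nat_lit 0x13800d700d600d500d4) (.z (.node 4 12 (.edon 4 18 (.leaf [4,13,14,15,16]) (.free 2 [0,1,2,3,9,17,18])) (.free 2 [5,6,7,8,10,11,12]))), .t 13 (nat_lit 0xb400b300b200c900bd013600f300f200f000ef00ee00ed) (.z (.node 0 3 (.node 0 16 (.leaf [0,17,18]) (.edon 5 15 (.node 5 10 (.leaf [5,11,12,14,13]) (.leaf [7,8,10])) (.leaf [4,6,15,16,9]))) (.free 1 [1,2,3]))), .t 13 (nat_lit 0x9f009e009d00c900a60136010f010e010b010a01090108) (.z (.node 0 3 (.node 0 16 (.leaf [0,17,18]) (.edon 6 15 (.node 6 10 (.leaf [6,11,12,14,13]) (.leaf [7,8,10])) (.leaf [4,5,15,16,9]))) (.free 1 [1,2,3]))), .t 3 (nat_lit 0x12a0129) (.z (.node 0 7 (.edon 0 12 (.leaf [0,8,9,10,11]) (.free 2 [12,13,14,15,16,17,18])) (.free 2 [1,2,3,4,5,6,7]))),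 .r 3 (nat_lit 0x140021), .r 3 (nat_lit 0x150024), .r 3 (nat_lit 0x410020), .r 3 (nat_lit 0x420022), .r 3 (nat_lit 0x430023), .r 3 (nat_lit 0x440024), .r 3 (nat_lit 0x450025), .r 3 (nat_lit 0x460026), .r 3 (nat_lit 0x470027), .r 3 (nat_lit 0x17016f), .r 3 (nat_lit 0x480024), .r 3 (nat_lit 0x490024), .r 3 (nat_lit 0x4a0023), .r 3 (nat_lit 0x53016e), .r 3 (nat_lit 0x560174), .r 3 (nat_lit 0x580003), .r 3 (nat_lit 0x89007c), .r 3 (nat_lit 0x8a007e), .r 3 (nat_lit 0x8b0177), .r 3 (nat_lit 0xcb00c1), .r 3 (nat_lit 0xcc00c1), .r 3 (nat_lit 0xcd00c2), .r 3 (nat_lit 0xce00c3), .r 3 (nat_lit 0xcf00c4), .r 3 (nat_lit 0xd000c5), .r 3 (nat_lit 0xd100c5)] (by decide +kernel) (by decide +kernel)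
theorem b12 : B 384 416 := Blk.of_chk [.r 3 (nat_lit 0xd200c5), .r 3 (nat_lit 0xda0095), .r 3 (nat_lit 0xdb0099), .r 3 (nat_lit 0xdc0099), .r 3 (nat_lit 0xdd0094), .r 3 (nat_lit 0xde0096), .r 3 (nat_lit 0xdf0097), .r 3 (nat_lit 0xe00098), .r 3 (nat_lit 0xe10099), .r 3 (nat_lit 0xe20098), .r 3 (nat_lit 0xe30098), .r 3 (nat_lit 0xea0186), .r 3 (nat_lit 0xeb0187), .r 3 (nat_lit 0xec0189), .r 3 (nat_lit 0xf400aa), .r 3 (nat_lit 0xf500ae), .r 3 (nat_lit 0xf600ae), .r 3 (nat_lit 0xf700a9), .r 3 (nat_lit 0xf800ab), .r 3 (nat_lit 0xf900ac), .r 3 (nat_lit 0xfa00ad), .r 3 (nat_lit 0xfb00ae), .r 3 (nat_lit 0xfc00ad), .r 3 (nat_lit 0xfd00ad), .r 3 (nat_lit 0x1040193), .r 3 (nat_lit 0x1050194), .r 3 (nat_lit 0x1060196), .r 3 (nat_lit 0x1070196), .r 3 (nat_lit 0x1280126), .r 3 (nat_lit 0x12c0118), .r 3 (nat_lit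 0x12d0118), .r 3 (nat_lit 0x1310120)] (by decide +kernel) (by decide +kernel)
theorem b13 : B 416 448 := Blk.of_chk [.r 4 (nat_lit 0x12e01320139), .r 3 (nat_lit 0x12f0139), .r 10 (nat_lit 0x13a012001180196018900c501780170016f), .r 3 (nat_lit 0x18001a3), .r 3 (nat_lit 0x19c01a3), .r 3 (nat_lit 0x19f01a3), .r 8 (nat_lit 0x13b019d00ad0098007d01680024), .r 5 (nat_lit 0x13c01a4017f00c5), .r 9 (nat_lit 0x13d016f016e016d016c016b016a0169), .r 4 (nat_lit 0x13e01920169), .r 7 (nat_lit 0x13f011e0092000900080007), .r 12 (nat_lit 0x14000270026002500240023002200210020001f001e), .r 4 (nat_lit 0x14101850169), .r 3 (nat_lit 0x143000b), .r 3 (nat_lit 0x17a0145), .r 3 (nat_lit 0x18c0145), .r 3 (nat_lit 0x1990145), .r 4 (nat_lit 0xd301a401af), .r 4 (nat_lit 0x10d01a501b1), .r 4 (nat_lit 0x146016c0024), .r 8 (nat_lit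 0x147017f017e017d017c017b000a), .r 8 (nat_lit 0x149019d00ad0098007d01680024), .r 8 (nat_lit 0x14a019d00ad0098007d01680024), .r 12 (nat_lit 0x14b0127012601250124012300aa0095007b01670021), .r 4 (nat_lit 0x14c007a0005), .r 3 (nat_lit 0x14d0093), .r 3 (nat_lit 0x14e000a), .r 9 (nat_lit 0x150016f016e016d016c016b016a0169), .r 7 (nat_lit 0x152011e00a7000900080007), .r 8 (nat_lit 0x153017f017e017d017c017b000a), .r 3 (nat_lit 0x15500a8), .r 4 (nat_lit 0x156007a0005)] (by decide +kernel) (by decide +kernel)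
theorem b14 : B 448 480 := Blk.of_chk [.r 8 (nat_lit 0x157017f017e017d017c017b000a), .r 3 (nat_lit 0x159000a), .r 8 (nat_lit 0x15a017f017e017d017c017b000a), .r 10 (nat_lit 0x15b012001180196018900c501780170016f), .r 3 (nat_lit 0x18101c4), .r 8 (nat_lit 0x15c019d00ad0098007d01680024), .r 5 (nat_lit 0x15f011e00790003), .r 10 (nat_lit 0x160017f0175017e017d017c017b0179000a), .r 11 (nat_lit 0x16301c501a4017f000b017e017d017c017b000a), .r 8 (nat_lit 0x164018800980132018701860185), .r 8 (nat_lit 0x165019500ad0132019401930192), .r 3 (nat_lit 0x166011e), .r 5 (nat_lit 0x162013401330145), .r 16 (nat_lit 0x6401ad007701bd004b00160036001001bc01ac0033002b01cc01880098), .r 9 (nat_lit 0x4b015d00e6004d002c01cc011701ce), .r 4 (nat_lit 0x4e01a201cf), .r 12 (nat_lit 0x6401ad01420077004b00160036001901bd017601cc), .r 36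 (nat_lit 0x8301ba01b9008401bb00b600e80065008600d8008500af010200e400e5002d002e0032000e00fe010000ff015d01bc014f001c01be0078007f009b01b5013901cc01160185), .r 13 (nat_lit 0x1c7015401d101d20078008e015100a400a1009a0091018e), .r 10 (nat_lit 0x1a8008f01d300c0018400bf018301b201c5), .r 11 (nat_lit 0x1aa006f01420077004b0016002a01ab000c01cc), .r 43 (nat_lit 0x1c00087008201bf007000e400fe00390038003d0012015d014f01a9001c01d5008100800088015401c200b7001900c600b1007f015e01c301c101be014400bb00b800b500b001cc0192009300920139019b01b3), .r 12 (nat_lit 0x9001a801d600d901d4019000bf00c0019101b201c5), .r 8 (nat_lit 0x1d501a901ac003e0037019500ad), .r 25 (nat_lit 0x11b011a01b70183004f017101d301b400a00052009c00c80028009001b501ae00a401a601cf01d001d801ce01a0018e), .r 14 (nat_lit 0x1b4004c0171012b01b70158011c011401d001d801ce01cf01a2),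 .r 3 (nat_lit 0x1d70112), .r 3 (nat_lit 0x1db01da), .r 5 (nat_lit 0x13501cd01340145), .r 65 (nat_lit 0x1cb01ca00bc00a501c900ca01a800bb00ba00b900a300a201c101b5015d014f00c70051003c00310029010c00f101b40103010100e900e700c60198018b0197018a0171018f018200be01c601b601b80122012101d700bf01d900500130013701dd01b201c5019b019a018d011f01d801ce01b101b001d001cf013901a001a1), .r 7 (nat_lit 0x1b8012101190113019e01a0), .r 8 (nat_lit 0x1df01de01dc0050013001cf01a1)] (by decide +kernel) (by decide +kernel)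
theorem b15 : B 480 497 := Blk.of_chk [.r 3 (nat_lit 0x14801e0), .r 3 (nat_lit 0x16101e0), .r 6 (nat_lit 0x17301a701dc011c01df), .r 3 (nat_lit 0x1d701e3), .r 4 (nat_lit 0x12101a001e4), .r 3 (nat_lit 0x12201e4), .r 3 (nat_lit 0x1b801e5), .r 3 (nat_lit 0x1c601e6), .r 3 (nat_lit 0xbe01e7), .r 3 (nat_lit 0x17201e8), .r 4 (nat_lit 0xc6013901e9), .r 8 (nat_lit 0x1b401e101cf01ce01d801d001ea), .r 3 (nat_lit 0x2901ec), .r 3 (nat_lit 0xc701ed), .r 3 (nat_lit 0x1b501ee), .r 3 (nat_lit 0x1c101ee), .r 11 (nat_lit 0x1c801ea01e101e201eb01e901f001ec01ef01ee)] (by decide +kernel) (by decide +kernel)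

end Pool.Agent.GCP.E8_10
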