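import Pool.Agent.GCP.E8_9B0

set_option autoImplicit false
set_option maxRecDepth 100000

/-! # Case E8_9 (generated) -/

namespace Pool.Agent.GCP.E8_9

open Pool.Agent.GCP DB

theorem a0 : B 0 32 := b0
theorem a1 : B 0 64 := a0.trans b1
theorem a2 : B 0 96 := a1.trans b2
theorem a3 : B 0 128 := a2.trans b3
theorem a4 : B 0 160 := a3.trans b4
theorem a5 : B 0 192 := a4.trans b5
theorem a6 : B 0 224 := a5.trans b6
theorem a7 : B 0 256 := a6.trans b7
theorem a8 : B 0 288 := a7.trans b8
theorem a9 : B 0 320 := a8.trans b9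
theorem a10 : B 0 352 := a9.trans b10
theorem a11 : B 0 384 := a10.trans b11
theorem a12 : B 0 416 := a11.trans b12
theorem a13 : B 0 448 := a12.trans b13
theorem a14 : B 0 457 := a13.trans b14

theorem main {Z : ℕ → Pt} (hF : FreeOK [0,3,7,10,15]) (R : RZ 18 [0,1,4,7,9,12,15,18] Z) :
    HCPle (Z '' {i | i < 19}) 5 := by
  by_contra hK
  have hth := tfk_sound hF R hK
  have h1 := a14 (val Z) (base hth) hth (fun k hk => absurd hk (Nat.not_lt_zero k))
  have hl : tgtOK db 457 [456] [(0, 0)] = true := by decide +kernel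
  exact not_hold_empty _ (tgt_sound hl h1 (0, 0) (by simp))

end Pool.Agent.GCP.E8_9
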