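import Pool.Agent.GCP.E8_9Db

set_option autoImplicit false
set_option maxRecDepth 100000

/-! # Blocks E8_9B0 (generated) -/

namespace Pool.Agent.GCP.E8_9

open Pool.Agent.GCP DB

theorem b0 : B 0 32 := Blk.of_chk [.t 1 (nat_lit 0) (.ax 1 2 4 12 1), .t 1 (nat_lit 0) (.ax 1 2 4 18 1), .t 1 (nat_lit 0) (.ax 1 2 7 15 1), .t 1 (nat_lit 0) (.ax 1 2 9 18 1), .t 1 (nat_lit 0) (.ax 1 2 12 18 1), .t 1 (nat_lit 0) (.ax 1 3 10 15 0), .t 1 (nat_lit 0) (.ax 1 4 7 10 0), .t 1 (nat_lit 0) (.ax 1 4 7 11 0), .t 1 (nat_lit 0) (.ax 1 4 7 13 0), .t 1 (nat_lit 0) (.ax 1 4 7 14 0), .t 1 (nat_lit 0) (.ax 1 4 7 15 0), .t 1 (nat_lit 0) (.ax 1 4 7 16 0), .t 1 (nat_lit 0) (.ax 1 4 7 17 0), .t 1 (nat_lit 0) (.ax 1 4 7 18 0), .t 1 (nat_lit 0) (.ax 1 4 10 15 0), .t 1 (nat_lit 0) (.ax 1 5 6 7 1), .t 1 (nat_lit 0) (.ax 1 5 9 15 4), .t 1 (nat_lit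 0) (.ax 1 5 10 15 0), .t 1 (nat_lit 0) (.ax 1 6 9 15 4), .t 1 (nat_lit 0) (.ax 1 7 8 11 0), .t 1 (nat_lit 0) (.ax 1 7 9 10 0), .t 1 (nat_lit 0) (.ax 1 7 9 11 0), .t 1 (nat_lit 0) (.ax 1 7 9 13 0), .t 1 (nat_lit 0) (.ax 1 7 9 14 0), .t 1 (nat_lit 0) (.ax 1 7 9 15 0), .t 1 (nat_lit 0) (.ax 1 7 9 16 0), .t 1 (nat_lit 0) (.ax 1 7 9 17 0), .t 1 (nat_lit 0) (.ax 1 7 9 18 0), .t 1 (nat_lit 0) (.ax 1 7 13 15 0), .t 1 (nat_lit 0) (.ax 1 7 14 15 0), .t 1 (nat_lit 0) (.ax 1 8 11 15 2), .t 1 (nat_lit 0) (.ax 1 8 11 15 4)] (by decide +kernel) (by decide +kernel)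
theorem b1 : B 32 64 := Blk.of_chk [.t 1 (nat_lit 0) (.ax 1 8 14 15 0), .t 1 (nat_lit 0) (.ax 1 9 12 17 0), .t 1 (nat_lit 0) (.ax 1 9 12 18 0), .t 1 (nat_lit 0) (.ax 1 12 15 17 0), .t 1 (nat_lit 0) (.ax 3 4 5 6 0), .t 1 (nat_lit 0) (.ax 3 4 7 15 0), .t 1 (nat_lit 0) (.ax 3 4 7 18 0), .t 1 (nat_lit 0) (.ax 3 4 10 15 0), .t 1 (nat_lit 0) (.ax 3 4 14 15 0), .t 1 (nat_lit 0) (.ax 3 5 6 15 2), .t 1 (nat_lit 0) (.ax 3 5 6 15 4), .t 1 (nat_lit 0) (.ax 3 7 9 18 0), .t 1 (nat_lit 0) (.ax 3 9 12 18 0), .t 1 (nat_lit 0) (.ax 3 10 14 15 1), .t 1 (nat_lit 0) (.ax 3 10 14 15 4), .t 1 (nat_lit 0) (.ax 4 5 6 15 2), .t 1 (nat_lit 0) (.ax 4 5 6 15 4), .t 1 (nat_lit 0) (.ax 4 5 7 11 3), .t 1 (nat_lit 0) (.ax 4 5 7 13 3), .t 1 (nat_lit 0) (.ax 4 5 7 14 3), .t 1 (nat_lit 0) (.ax 4 5 7 15 3), .t 1 (nat_lit 0) (.ax 4 5 7 18 3), .t 1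 (nat_lit 0) (.ax 4 5 12 13 4), .t 1 (nat_lit 0) (.ax 4 5 12 15 4), .t 1 (nat_lit 0) (.ax 4 5 12 18 4), .t 1 (nat_lit 0) (.ax 4 5 13 14 2), .t 1 (nat_lit 0) (.ax 4 6 7 13 3), .t 1 (nat_lit 0) (.ax 4 6 7 15 3), .t 1 (nat_lit 0) (.ax 4 6 7 16 3), .t 1 (nat_lit 0) (.ax 4 6 7 18 3), .t 1 (nat_lit 0) (.ax 4 6 10 15 0), .t 1 (nat_lit 0) (.ax 4 6 10 15 5)] (by decide +kernel) (by decide +kernel)
theorem b2 : B 64 96 := Blk.of_chk [.t 1 (nat_lit 0) (.ax 4 6 10 16 0), .t 1 (nat_lit 0) (.ax 4 6 12 13 4), .t 1 (nat_lit 0) (.ax 4 6 12 15 4), .t 1 (nat_lit 0) (.ax 4 6 12 18 4), .t 1 (nat_lit 0) (.ax 4 6 15 16 4), .t 1 (nat_lit 0) (.ax 4 7 8 11 0), .t 1 (nat_lit 0) (.ax 4 7 9 13 0), .t 1 (nat_lit 0) (.ax 4 7 9 14 0), .t 1 (nat_lit 0) (.ax 4 7 9 16 0), .t 1 (nat_lit 0) (.ax 4 7 9 17 0), .t 1 (nat_lit 0) (.ax 4 7 9 18 0), .t 1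 (nat_lit 0) (.ax 4 7 10 18 0), .t 1 (nat_lit 0) (.ax 4 7 13 15 0), .t 1 (nat_lit 0) (.ax 4 7 14 15 0), .t 1 (nat_lit 0) (.ax 4 8 11 13 4), .t 1 (nat_lit 0) (.ax 4 8 11 18 2), .t 1 (nat_lit 0) (.ax 4 8 11 18 4), .t 1 (nat_lit 0) (.ax 4 9 11 13 0), .t 1 (nat_lit 0) (.ax 4 9 12 13 0), .t 1 (nat_lit 0) (.ax 4 9 12 14 0), .t 1 (nat_lit 0) (.ax 4 9 12 16 0), .t 1 (nat_lit 0) (.ax 4 9 12 17 0), .t 1 (nat_lit 0) (.ax 4 9 12 18 0), .t 1 (nat_lit 0) (.ax 4 9 13 18 0), .t 1 (nat_lit 0) (.ax 4 9 14 18 0), .t 1 (nat_lit 0) (.ax 4 10 12 15 4), .t 1 (nat_lit 0) (.ax 4 10 12 18 4), .t 1 (nat_lit 0) (.ax 4 10 13 15 6), .t 1 (nat_lit 0) (.ax 4 10 13 18 4), .t 1 (nat_lit 0) (.ax 4 10 14 15 4), .t 1 (nat_lit 0) (.ax 4 10 15 16 4), .t 1 (nat_lit 0) (.ax 4 10 16 18 4)] (by decide +kernel) (by decide +kernel)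
theorem b3 : B 96 128 := Blk.of_chk [.t 1 (nat_lit 0) (.ax 4 12 13 18 0), .t 1 (nat_lit 0) (.ax 4 12 14 18 0), .t 1 (nat_lit 0) (.ax 4 13 14 18 5), .t 1 (nat_lit 0) (.ax 5 6 7 16 2), .t 1 (nat_lit 0) (.ax 5 6 7 16 4), .t 1 (nat_lit 0) (.ax 5 6 9 15 4), .t 1 (nat_lit 0) (.ax 5 6 11 12 1), .t 1 (nat_lit 0) (.ax 5 6 11 13 1), .t 1 (nat_lit 0) (.ax 5 6 11 13 4), .t 1 (nat_lit 0) (.ax 5 6 12 13 1), .t 1 (nat_lit 0) (.ax 5 6 12 13 4), .t 1 (nat_lit 0) (.ax 5 6 13 15 4), .t 1 (nat_lit 0) (.ax 5 6 16 18 4), .t 1 (nat_lit 0) (.ax 5 7 9 11 0), .t 1 (nat_lit 0) (.ax 5 7 9 13 0), .t 1 (nat_lit 0) (.ax 5 7 9 14 0), .t 1 (nat_lit 0) (.ax 5 7 9 15 0), .t 1 (nat_lit 0) (.ax 5 7 9 18 0), .t 1 (nat_lit 0) (.ax 5 7 13 15 0), .t 1 (nat_lit 0) (.ax 5 7 14 15 0), .t 1 (nat_lit 0) (.ax 5 7 16 18 4), .t 1 (nat_lit 0) (.ax 5 8 9 11 4),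 .t 1 (nat_lit 0) (.ax 5 8 9 15 4), .t 1 (nat_lit 0) (.ax 5 8 11 12 2), .t 1 (nat_lit 0) (.ax 5 8 11 15 2), .t 1 (nat_lit 0) (.ax 5 9 12 13 0), .t 1 (nat_lit 0) (.ax 5 9 12 18 0), .t 1 (nat_lit 0) (.ax 5 11 12 13 2), .t 1 (nat_lit 0) (.ax 5 11 12 13 4), .t 1 (nat_lit 0) (.ax 5 11 12 14 2), .t 1 (nat_lit 0) (.ax 5 11 12 14 4), .t 1 (nat_lit 0) (.ax 5 11 13 14 0)] (by decide +kernel) (by decide +kernel)
theorem b4 : B 128 160 := Blk.of_chk [.t 1 (nat_lit 0) (.ax 5 11 13 14 5), .t 1 (nat_lit 0) (.ax 5 12 13 14 0), .t 1 (nat_lit 0) (.ax 5 12 13 14 5), .t 1 (nat_lit 0) (.ax 6 7 9 13 0), .t 1 (nat_lit 0) (.ax 6 7 9 15 0), .t 1 (nat_lit 0) (.ax 6 7 9 18 0), .t 1 (nat_lit 0) (.ax 6 7 13 15 0), .t 1 (nat_lit 0) (.ax 6 7 16 18 4), .t 1 (nat_lit 0) (.ax 6 9 12 13 0), .t 1 (nat_lit 0) (.ax 6 9 12 18 0), .t 1 (nat_lit 0) (.ax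 7 8 9 10 3), .t 1 (nat_lit 0) (.ax 7 8 9 11 3), .t 1 (nat_lit 0) (.ax 7 8 9 13 3), .t 1 (nat_lit 0) (.ax 7 8 9 14 3), .t 1 (nat_lit 0) (.ax 7 8 9 15 3), .t 1 (nat_lit 0) (.ax 7 8 9 16 3), .t 1 (nat_lit 0) (.ax 7 8 9 17 3), .t 1 (nat_lit 0) (.ax 7 8 9 18 3), .t 1 (nat_lit 0) (.ax 7 8 10 18 2), .t 1 (nat_lit 0) (.ax 7 8 10 18 4), .t 1 (nat_lit 0) (.ax 7 8 11 14 4), .t 1 (nat_lit 0) (.ax 7 8 11 15 2), .t 1 (nat_lit 0) (.ax 7 8 11 15 4), .t 1 (nat_lit 0) (.ax 7 8 11 16 4), .t 1 (nat_lit 0) (.ax 7 8 11 18 4), .t 1 (nat_lit 0) (.ax 7 8 17 18 5), .t 1 (nat_lit 0) (.ax 7 9 12 17 0), .t 1 (nat_lit 0) (.ax 7 9 12 18 0), .t 1 (nat_lit 0) (.ax 7 10 14 15 7), .t 1 (nat_lit 0) (.ax 7 10 14 18 2), .t 1 (nat_lit 0) (.ax 7 10 14 18 4), .t 1 (nat_lit 0) (.ax 7 10 15 16 4)] (by decide +kernel) (by decide +kernel)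
theorem b5 : B 160 192 := Blk.of_chk [.t 1 (nat_lit 0) (.ax 7 10 15 18 4), .t 1 (nat_lit 0) (.ax 7 10 16 18 4), .t 1 (nat_lit 0) (.ax 7 10 17 18 5), .t 1 (nat_lit 0) (.ax 7 12 15 17 0), .t 1 (nat_lit 0) (.ax 7 14 17 18 5), .t 1 (nat_lit 0) (.ax 7 16 17 18 5), .t 1 (nat_lit 0) (.ax 8 9 10 11 2), .t 1 (nat_lit 0) (.ax 8 9 10 11 4), .t 1 (nat_lit 0) (.ax 8 9 10 17 2), .t 1 (nat_lit 0) (.ax 8 9 10 17 4), .t 1 (nat_lit 0) (.ax 8 9 12 13 0), .t 1 (nat_lit 0) (.ax 8 9 12 14 0), .t 1 (nat_lit 0) (.ax 8 9 12 16 0), .t 1 (nat_lit 0) (.ax 8 9 12 17 0), .t 1 (nat_lit 0) (.ax 8 9 12 18 0), .t 1 (nat_lit 0) (.ax 8 9 13 18 0), .t 1 (nat_lit 0) (.ax 8 9 14 18 0), .t 1 (nat_lit 0) (.ax 8 10 14 18 4), .t 1 (nat_lit 0) (.ax 8 10 16 18 4), .t 1 (nat_lit 0) (.ax 8 10 17 18 5), .t 1 (nat_lit 0) (.ax 8 11 12 13 4), .t 1 (nat_lit 0)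 (.ax 8 11 12 14 4), .t 1 (nat_lit 0) (.ax 8 11 12 15 4), .t 1 (nat_lit 0) (.ax 8 11 12 16 4), .t 1 (nat_lit 0) (.ax 8 11 12 17 4), .t 1 (nat_lit 0) (.ax 8 11 12 18 4), .t 1 (nat_lit 0) (.ax 8 11 14 17 2), .t 1 (nat_lit 0) (.ax 8 12 13 14 0), .t 1 (nat_lit 0) (.ax 8 12 13 16 0), .t 1 (nat_lit 0) (.ax 8 12 13 18 0), .t 1 (nat_lit 0) (.ax 8 12 14 16 0), .t 1 (nat_lit 0) (.ax 8 12 14 18 0)] (by decide +kernel) (by decide +kernel)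
theorem b6 : B 192 224 := Blk.of_chk [.t 1 (nat_lit 0) (.ax 8 12 15 17 0), .t 1 (nat_lit 0) (.ax 8 13 14 15 1), .t 1 (nat_lit 0) (.ax 8 13 14 15 4), .t 1 (nat_lit 0) (.ax 8 13 14 16 0), .t 1 (nat_lit 0) (.ax 8 13 14 16 1), .t 1 (nat_lit 0) (.ax 8 13 14 18 5), .t 1 (nat_lit 0) (.ax 8 13 15 16 4), .t 1 (nat_lit 0) (.ax 8 14 15 16 4), .t 1 (nat_lit 0) (.ax 8 14 17 18 5), .t 1 (nat_lit 0) (.ax 8 15 16 17 0), .t 1 (nat_lit 0) (.ax 9 10 11 13 3), .t 1 (nat_lit 0) (.ax 9 10 12 18 3), .t 1 (nat_lit 0) (.ax 9 10 14 17 4), .t 1 (nat_lit 0) (.ax 9 10 14 18 3), .t 1 (nat_lit 0) (.ax 9 10 17 18 5), .t 1 (nat_lit 0) (.ax 9 11 12 13 3), .t 1 (nat_lit 0) (.ax 9 11 12 14 3), .t 1 (nat_lit 0) (.ax 9 11 12 16 3), .t 1 (nat_lit 0) (.ax 9 11 12 17 3), .t 1 (nat_lit 0) (.ax 9 11 12 18 3), .t 1 (nat_lit 0) (.ax 9 11 13 17 4), .t 1 (nat_lit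 0) (.ax 9 11 13 17 6), .t 1 (nat_lit 0) (.ax 9 11 13 18 6), .t 1 (nat_lit 0) (.ax 9 12 13 18 0), .t 1 (nat_lit 0) (.ax 9 12 14 18 0), .t 1 (nat_lit 0) (.ax 9 13 17 18 5), .t 1 (nat_lit 0) (.ax 10 11 13 14 4), .t 1 (nat_lit 0) (.ax 10 11 13 17 4), .t 1 (nat_lit 0) (.ax 10 11 13 17 6), .t 1 (nat_lit 0) (.ax 10 11 14 17 2), .t 1 (nat_lit 0) (.ax 10 12 13 18 0), .t 1 (nat_lit 0) (.ax 10 12 14 18 0)] (by decide +kernel) (by decide +kernel)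
theorem b7 : B 224 256 := Blk.of_chk [.t 1 (nat_lit 0) (.ax 10 13 17 18 5), .t 1 (nat_lit 0) (.ax 10 14 17 18 5), .t 1 (nat_lit 0) (.ax 10 16 17 18 5), .t 1 (nat_lit 0) (.ax 11 12 13 14 0), .t 1 (nat_lit 0) (.ax 11 12 13 14 5), .t 1 (nat_lit 0) (.ax 11 12 13 17 0), .t 1 (nat_lit 0) (.ax 11 12 13 17 2), .t 1 (nat_lit 0) (.ax 11 12 13 17 4), .t 1 (nat_lit 0) (.ax 11 12 13 18 0), .t 1 (nat_lit 0) (.ax 11 12 14 17 0), .t 1 (nat_lit 0) (.ax 11 12 14 17 2), .t 1 (nat_lit 0) (.ax 11 12 14 17 4), .t 1 (nat_lit 0) (.ax 11 12 14 17 5), .t 1 (nat_lit 0) (.ax 11 12 14 18 0), .t 1 (nat_lit 0) (.ax 11 12 15 17 0), .t 1 (nat_lit 0) (.ax 11 13 14 17 0), .t 1 (nat_lit 0) (.ax 11 13 14 17 1), .t 1 (nat_lit 0) (.ax 11 13 14 17 4), .t 1 (nat_lit 0) (.ax 11 13 14 17 5), .t 1 (nat_lit 0) (.ax 11 13 14 18 5), .t 1 (nat_lit 0) (.ax 11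 13 17 18 5), .t 1 (nat_lit 0) (.ax 11 14 17 18 5), .t 1 (nat_lit 0) (.ax 11 15 16 17 0), .t 1 (nat_lit 0) (.ax 12 13 14 16 4), .t 1 (nat_lit 0) (.ax 12 13 14 17 5), .t 1 (nat_lit 0) (.ax 12 13 14 18 0), .t 1 (nat_lit 0) (.ax 12 13 15 17 3), .t 1 (nat_lit 0) (.ax 12 13 17 18 5), .t 1 (nat_lit 0) (.ax 12 14 15 17 3), .t 1 (nat_lit 0) (.ax 12 14 16 18 4), .t 1 (nat_lit 0) (.ax 12 14 17 18 5), .t 1 (nat_lit 0) (.ax 13 14 16 18 4)] (by decide +kernel) (by decide +kernel)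
theorem b8 : B 256 288 := Blk.of_chk [.t 1 (nat_lit 0) (.cp 1 3), .t 1 (nat_lit 0) (.fa 3), .t 3 (nat_lit 0xa800a7) (.z (.node 0 7 (.edon 0 12 (.leaf [0,8,9,10,11]) (.free 2 [12,13,14,15,16,17,18])) (.free 2 [1,2,3,4,5,6,7]))), .t 1 (nat_lit 0) (.fa 4), .t 1 (nat_lit 0) (.fa 2), .t 1 (nat_lit 0) (.cn 1 2), .t 1 (nat_lit 0) (.fa 3), .t 1 (nat_lit 0) (.cp 3 3), .t 1 (nat_lit 0) (.cp 5 2), .t 3 (nat_lit 0xaa00a9) (.z (.node 0 7 (.edon 11 17 (.free 2 [11,12,13,14,15,16,18]) (.leaf [0,8,9,10,17])) (.free 2 [1,2,3,4,5,6,7]))), .t 1 (nat_lit 0) (.cp 4 3), .t 8 (nat_lit 0xe600e500e400f200f100ec00eb) (.z (.node 0 7 (.edon 0 11 (.leaf [0,8,9,10]) (.edon 15 17 (.leaf [15,16,18]) (.leaf [11,12,14,17,13]))) (.free 2 [1,2,3,4,5,6,7]))), .t 1 (nat_lit 0) (.cp 6 3), .t 6 (nat_lit 0xb400a3009a00940093) (.z (.edon 0 7 (.free 2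 [0,1,2,3,4,5,6]) (.edon 9 18 (.free 2 [9,11,12,13,14,15,16]) (.leaf [7,8,10,18,17])))), .t 1 (nat_lit 0) (.fa 5), .t 7 (nat_lit 0xc500c300c200a300c800c7) (.z (.edon 0 7 (.free 2 [0,1,2,3,4,5,6]) (.edon 8 18 (.node 8 12 (.leaf [8,14,15,16,13]) (.leaf [9,11,12])) (.leaf [7,10,18,17])))), .t 5 (nat_lit 0xe300a600a300a2) (.z (.edon 0 7 (.free 2 [0,1,2,3,4,5,6]) (.edon 8 16 (.free 2 [8,9,11,12,13,14,15]) (.leaf [7,10,16,18,17])))), .t 1 (nat_lit 0) (.fa 4), .t 1 (nat_lit 0) (.fa 5), .t 1 (nat_lit 0) (.cp 2 3), .t 1 (nat_lit 0) (.cp 7 3), .t 13 (nat_lit 0x410040003f005f004500e50083008200810080007f007e) (.z (.node 0 3 (.node 0 16 (.leaf [0,17,18]) (.edon 5 15 (.node 5 9 (.leaf [5,11,12,14,13]) (.leaf [7,8,9])) (.leaf [4,6,15,16,10]))) (.free 1 [1,2,3]))), .t 13 (nat_lit 0x67006b006a00690068007d007c005e002f002e00290028)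 (.z (.edon 0 16 (.edon 0 3 (.leaf [0,1,2]) (.node 4 13 (.leaf [3,4,14,15,10]) (.node 5 9 (.leaf [5,11,12,13,6]) (.leaf [7,8,9])))) (.free 1 [16,17,18]))), .t 6 (nat_lit 0x310030002b002a0025) (.z (.edon 15 7 (.node 1 15 (.free 2 [0,1,2,10,16,17,18]) (.leaf [3,4,5,6,15])) (.free 2 [7,8,9,11,12,13,14]))), .t 1 (nat_lit 0) (.fa 3), .t 6 (nat_lit 0x880075006d00650064) (.z (.node 7 15 (.node 4 18 (.free 2 [0,1,2,3,4,10,17]) (.leaf [5,6,7,16,18])) (.free 2 [8,9,11,12,13,14,15]))), .t 1 (nat_lit 0) (.cn 7 3), .t 1 (nat_lit 0) (.cp 2 3), .t 1 (nat_lit 0) (.cp 1 3), .t 1 (nat_lit 0) (.cp 3 3), .t 1 (nat_lit 0) (.cp 4 3), .t 8 (nat_lit 0xf900f300f000ed00ea00e800e7) (.z (.node 0 7 (.edon 0 11 (.leaf [0,8,9,10]) (.edon 15 17 (.leaf [15,16,18]) (.leaf [11,12,13,17,14]))) (.free 2 [1,2,3,4,5,6,7])))] (by decide +kernel) (by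 decide +kernel)
theorem b9 : B 288 320 := Blk.of_chk [.t 6 (nat_lit 0xe200a500a3009f009e) (.z (.edon 0 7 (.free 2 [0,1,2,3,4,5,6]) (.edon 8 14 (.free 2 [8,9,11,12,13,15,16]) (.leaf [7,10,14,18,17])))), .r 3 (nat_lit 0x3000b), .r 3 (nat_lit 0x140008), .r 3 (nat_lit 0x150007), .r 3 (nat_lit 0x160008), .r 3 (nat_lit 0x170009), .r 3 (nat_lit 0x18000a), .r 3 (nat_lit 0x19000b), .r 3 (nat_lit 0x1a000c), .r 3 (nat_lit 0x1b000d), .r 3 (nat_lit 0x1c000e), .r 3 (nat_lit 0x4012b), .r 3 (nat_lit 0x1d000b), .r 3 (nat_lit 0x1e000b), .r 3 (nat_lit 0x22012a), .r 3 (nat_lit 0x23012b), .r 3 (nat_lit 0x50130), .r 3 (nat_lit 0x24012f), .r 3 (nat_lit 0x2c0027), .r 3 (nat_lit 0x2d0133), .r 3 (nat_lit 0x520047), .r 3 (nat_lit 0x530047), .r 3 (nat_lit 0x540048), .r 3 (nat_lit 0x550049), .r 3 (nat_lit 0x56004a), .r 3 (nat_lit 0x57004b),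 .r 3 (nat_lit 0x58004b), .r 3 (nat_lit 0x59004b), .r 3 (nat_lit 0x61013a), .r 3 (nat_lit 0x62013a), .r 3 (nat_lit 0x6e0032), .r 3 (nat_lit 0x6f0033)] (by decide +kernel) (by decide +kernel)
theorem b10 : B 320 352 := Blk.of_chk [.r 3 (nat_lit 0x700034), .r 3 (nat_lit 0x710035), .r 3 (nat_lit 0x720036), .r 3 (nat_lit 0x730035), .r 3 (nat_lit 0x740035), .r 3 (nat_lit 0x7a0140), .r 3 (nat_lit 0x7b0143), .r 3 (nat_lit 0x84003b), .r 3 (nat_lit 0x85003c), .r 3 (nat_lit 0x86003e), .r 3 (nat_lit 0x87003c), .r 3 (nat_lit 0x890148), .r 3 (nat_lit 0x8a014a), .r 3 (nat_lit 0xa4009b), .r 3 (nat_lit 0xab008d), .r 3 (nat_lit 0xac008e), .r 3 (nat_lit 0xad0090), .r 3 (nat_lit 0xae0091), .r 3 (nat_lit 0xaf0092), .r 3 (nat_lit 0xb00092), .r 3 (nat_lit 0xb10092), .r 3 (nat_lit 0xbc0150), .r 3 (nat_lit 0xbd0151), .r 3 (nat_lit 0xbe0153),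 .r 3 (nat_lit 0xbf0151), .r 3 (nat_lit 0xc00153), .r 3 (nat_lit 0xc10152), .r 3 (nat_lit 0xca015b), .r 3 (nat_lit 0xdf00cc), .r 3 (nat_lit 0xe000cc), .r 3 (nat_lit 0xe900d4), .r 3 (nat_lit 0xee00d4)] (by decide +kernel) (by decide +kernel)
theorem b11 : B 352 384 := Blk.of_chk [.r 3 (nat_lit 0xef00d3), .r 3 (nat_lit 0xf70161), .r 10 (nat_lit 0x101012b012a012901280127012601250124), .r 4 (nat_lit 0x1301490163), .r 4 (nat_lit 0x76008c0102), .r 4 (nat_lit 0x77008f0102), .r 3 (nat_lit 0x103008b), .r 3 (nat_lit 0x1040167), .r 4 (nat_lit 0xb500d00168), .r 4 (nat_lit 0xb600d10168), .r 3 (nat_lit 0xb70168), .r 4 (nat_lit 0xb800d20168), .r 4 (nat_lit 0xb900d30168), .r 4 (nat_lit 0xba00d40168), .r 4 (nat_lit 0x7801650168), .r 4 (nat_lit 0x790165016b), .r 8 (nat_lit 0x108014e003c003500260122000b), .r 12 (nat_lit 0x10900d400cc0153009c014d0147013a013401310130),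 .r 7 (nat_lit 0x10a0162016100d3016d008b), .r 9 (nat_lit 0x10b0092014a0143004b0133012c012b), .r 7 (nat_lit 0x10c00fd00fb016100d1008b), .r 5 (nat_lit 0x10d0128000b0164), .r 4 (nat_lit 0x10e00920107), .r 9 (nat_lit 0x1100153016e009201510150014f0168), .r 6 (nat_lit 0x111015c0151016c0090), .r 3 (nat_lit 0x1120167), .r 3 (nat_lit 0x135017a), .r 4 (nat_lit 0xcb0167017a), .r 8 (nat_lit 0x114013a01390138013701360001), .r 4 (nat_lit 0x115013a004b), .r 12 (nat_lit 0x116017001420166003500d101410140016f013f0102), .r 10 (nat_lit 0x11700d00136017b01400047016f013f0102)] (by decide +kernel) (by decide +kernel)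
theorem b12 : B 384 416 := Blk.of_chk [.r 10 (nat_lit 0x118014e0132003c003500260122000b0164), .r 3 (nat_lit 0x1230119), .r 3 (nat_lit 0x460119), .r 4 (nat_lit 0x95016a0119), .r 4 (nat_lit 0x96016b0119), .r 4 (nat_lit 0x97016b0119), .r 4 (nat_lit 0x98016c0119), .r 4 (nat_lit 0x99016e0119), .r 4 (nat_lit 0x1f016b0182), .r 4 (nat_lit 0x20016b0182), .r 4 (nat_lit 0x4f01690183), .r 4 (nat_lit 0x50016e0183), .r 4 (nat_lit 0x51016e0183), .r 12 (nat_lit 0x11a0002014e003d01850186003c003500260122000b), .r 3 (nat_lit 0x11b0002), .r 8 (nat_lit 0x11c013a01390138013701360001), .r 10 (nat_lit 0x11d012b012a012901280127012601250124), .r 4 (nat_lit 0x1101420191), .r 8 (nat_lit 0x11e014e003c003500260122000b), .r 9 (nat_lit 0x11f0092014a0143004b0133012c012b), .r 7 (nat_lit 0x12000fd00fb016100d0008b), .r 6 (nat_lit 0x1210150016a008e0184),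 .r 9 (nat_lit 0x176012e012d01930171018a01890192), .r 22 (nat_lit 0x11300f801780157015a0154017700d7017400cf017300d500dc017500ff00f6016000d90188017c017a), .r 20 (nat_lit 0x17900c4019800b3017700d7017400cf017300d500dc017500ff00f6016000d90187017c017a), .r 4 (nat_lit 0x17900c50187), .r 36 (nat_lit 0x9d0196012e015601760113010f00c80159019a019900a0019700c9015a00b2015e00b3017700d7017400cf017300d500dc017500ff00f6016000d9018a01890192017c017a), .r 27 (nat_lit 0x17e003900440190017d005a000f019b004c013e013b017400cf017300d500dc017500ff00f60160018d018c0147014d017c017a), .r 3 (nat_lit 0x100106), .r 59 (nat_lit 0x3a0180017f006c006601810105019d018e0060017e0039003800370044004300420190017d005a005c0012000f00060145004e014b0144004d01970193017100a1019c013b017400cf017300dc00d5017500f600ff0160013e018b0149019201860185018d018c01470146014d014c017c017a),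 .r 3 (nat_lit 0xfe019e), .r 3 (nat_lit 0x172019e)] (by decide +kernel) (by decide +kernel)
theorem b13 : B 416 448 := Blk.of_chk [.r 3 (nat_lit 0x10f019f), .r 3 (nat_lit 0x13d01a0), .r 3 (nat_lit 0x15801a0), .r 3 (nat_lit 0xd801a0), .r 3 (nat_lit 0x15d01a0), .r 3 (nat_lit 0x15f01a0), .r 4 (nat_lit 0xfa019e01a0), .r 3 (nat_lit 0xfc01a0), .r 4 (nat_lit 0xc601a701a3), .r 3 (nat_lit 0xda01a4), .r 4 (nat_lit 0xd7017a01a4), .r 3 (nat_lit 0xe101a5), .r 3 (nat_lit 0xf501a6), .r 4 (nat_lit 0xf401a701a6), .r 3 (nat_lit 0x10001a7), .r 4 (nat_lit 0x6301a201a7), .r 3 (nat_lit 0x19501a8), .r 4 (nat_lit 0xd6017a01aa), .r 4 (nat_lit 0xdd017c01ac), .r 4 (nat_lit 0xdb017c01ae), .r 4 (nat_lit 0xbb016a01b1), .r 4 (nat_lit 0xde01b401b1), .r 6 (nat_lit 0x17301b101ad01b301b2), .r 4 (nat_lit 0xcd01b601b7), .r 3 (nat_lit 0xcf01b7), .r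 3 (nat_lit 0x19401b9), .r 6 (nat_lit 0x17701ba01a401ab01b9), .r 3 (nat_lit 0x13c01ba), .r 3 (nat_lit 0x15501ba), .r 4 (nat_lit 0xce01b801ba), .r 4 (nat_lit 0xb201be01bb), .r 3 (nat_lit 0xb301bb)] (by decide +kernel) (by decide +kernel)
theorem b14 : B 448 457 := Blk.of_chk [.r 36 (nat_lit 0x180006c006601810105019d018e0006004e014b004d0037004400420197019301710190017d00a1018f005d005b004c018b01b001490192018601850146014d014c01a500cc), .r 20 (nat_lit 0x196009d019a0021012e00a00176019701bf01a901b501bd01be01af01c0018a0189019201a1), .r 3 (nat_lit 0xf01c2), .r 3 (nat_lit 0x5a01c3), .r 3 (nat_lit 0x17d01c4), .r 3 (nat_lit 0x19001c4), .r 4 (nat_lit 0x44014d01c5), .r 4 (nat_lit 0x39014701c6), .r 9 (nat_lit 0x17e01a201bc018c01c1018d01c701c8)] (by decide +kernel) (by decide +kernel)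

end Pool.Agent.GCP.E8_9
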