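import Pool.Agent.GCP.RingOf

/-!
# From the numbers of hull vertices in the top sets to the near sets (MP_062f91_co)

If in every direction there is a sorting of `X` such that exactly two of the first four and
exactly three of the first seven points are hull vertices, then exactly three points are beyond
`p (i-1), p (i+1)` and exactly six beyond `p (i-1), p (i+2)`; hence the ring structure.
-/

namespace Pool.Agent.GCP

open Hull

/-- height in the direction `w` -/
def hgt (w z : Pt) : ℝ := w.1 * z.1 + w.2 * z.2

namespace NC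

/-- a down-closed set of indices is an initial segment -/
lemma eq_range {J : Finset ℕ} (h : ∀ j ∈ J, ∀ i < j, i ∈ J) : J = Finset.range J.card := by
  apply Finset.eq_of_subset_of_card_le
  · intro j hj
    rw [Finset.mem_range]
    by_contra hlt
    push Not at hlt
    have h1 : Finset.range (j + 1) ⊆ J := by
      intro i hi
      rw [Finset.mem_range] at hi
      rcases Nat.lt_or_ge i j with h2 | h2
      · exact h j hj i h2
      · have : i = j := by omega
        rw [this]; exact hj
    have := Finset.card_le_card h1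
    rw [Finset.card_range] at this
    omega
  · rw [Finset.card_range]

variable {X : Finset Pt}

open scoped Classical in
/-- The key counting lemma. -/
lemma near_card (hX : GeneralPosition X) {L R : Pt} (hL : L ∈ X) (hR : R ∈ X) (hLR : L ≠ R)
    (vL : HV X L) (vR : HV X R) {K : Finset Pt}
    (hK1 : ∀ z ∈ K, z ∈ X ∧ orient L R z < 0 ∧ HV X z)
    (hK2 : ∀ z ∈ X, orient L R z < 0 → HV X z → z ∈ K)
    {P : ℕ → Pt} (Pm : ∀ i < X.card, P i ∈ X)
    (Pi : ∀ i j, i < X.card → j < X.card → P i = P j → i = j)
    (Ps : ∀ i j, i < j → j < X.card →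
      hgt (R.2 - L.2, -(R.1 - L.1)) (P j) ≤ hgt (R.2 - L.2, -(R.1 - L.1)) (P i))
    {T : ℕ} (hT : T ≤ X.card)
    (hc : ((Finset.range T).filter (fun i => HV X (P i))).card = K.card + 1) :
    (X.filter (fun z => orient L R z < 0)).card + 1 = T := by
  set n := X.card with hn
  have hht : ∀ z, hgt (R.2 - L.2, -(R.1 - L.1)) z = hgt (R.2 - L.2, -(R.1 - L.1)) L -
      orient L R z := by
    intro z; unfold hgt orient; ring
  have hord : ∀ i j, i < j → j < n → orient L R (P i) ≤ orient L R (P j) := by
    intro i j h1 h2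
    have := Ps i j h1 h2
    rw [hht (P i), hht (P j)] at this
    linarith
  -- P is surjective
  have hsurj : ∀ z ∈ X, ∃ i, i < n ∧ P i = z := by
    intro z hz
    have h1 : (Finset.range n).image P = X := by
      apply Finset.eq_of_subset_of_card_le
      · intro y hy
        obtain ⟨i, hi, rfl⟩ := Finset.mem_image.1 hy
        exact Pm i (Finset.mem_range.1 hi)
      · rw [Finset.card_image_of_injOn, Finset.card_range]
        intro i hi j hj hij
        exact Pi i j (by simpa using hi) (by simpa using hj) hij
    rw [← h1] at hz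
    obtain ⟨i, hi, rfl⟩ := Finset.mem_image.1 hz
    exact ⟨i, Finset.mem_range.1 hi, rfl⟩
  -- index sets
  have hidx : ∀ (S : Finset Pt), S ⊆ X →
      ((Finset.range n).filter (fun i => P i ∈ S)).card = S.card := by
    intro S hS
    have h1 : ((Finset.range n).filter (fun i => P i ∈ S)).image P = S := by
      ext z
      rw [Finset.mem_image]
      constructor
      · rintro ⟨i, hi, rfl⟩; exact (Finset.mem_filter.1 hi).2
      · intro hz
        obtain ⟨i, hi, rfl⟩ := hsurj z (hS hz)
        exact ⟨i, Finset.mem_filter.2 ⟨Finset.mem_range.2 hi, hz⟩, rfl⟩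
    rw [← h1, Finset.card_image_of_injOn]
    · congr 1
      ext i
      rw [Finset.mem_filter, Finset.mem_filter, h1]
    · intro i hi j hj hij
      have hi' := (Finset.mem_filter.1 (Finset.mem_coe.1 hi)).1
      have hj' := (Finset.mem_filter.1 (Finset.mem_coe.1 hj)).1
      exact Pi i j (Finset.mem_range.1 hi') (Finset.mem_range.1 hj') hij
  set N := X.filter (fun z => orient L R z < 0) with hN
  set N' := insert L (insert R N) with hN'
  have hNX : N ⊆ X := Finset.filter_subset _ _
  have hN'X : N' ⊆ X := by
    intro z hz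
    rcases Finset.mem_insert.1 hz with rfl | hz
    · exact hL
    · rcases Finset.mem_insert.1 hz with rfl | hz
      · exact hR
      · exact hNX hz
  have hN'c : N'.card = N.card + 2 := by
    rw [hN', Finset.card_insert_of_notMem, Finset.card_insert_of_notMem]
    · rw [hN, Finset.mem_filter]; simp
    · rw [Finset.mem_insert, not_or]
      refine ⟨hLR, ?_⟩
      rw [hN, Finset.mem_filter]; simp
  have hN'mem : ∀ z ∈ X, z ∈ N' ↔ orient L R z ≤ 0 := by
    intro z hz
    rw [hN', Finset.mem_insert, Finset.mem_insert, hN, Finset.mem_filter]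
    constructor
    · rintro (rfl | rfl | h)
      · simp
      · simp
      · exact h.2.le
    · intro h
      by_cases h1 : z = L
      · exact Or.inl h1
      · by_cases h2 : z = R
        · exact Or.inr (Or.inl h2)
        · exact Or.inr (Or.inr ⟨hz, lt_of_le_of_ne h
            (orient_ne hX hL hR hz hLR (Ne.symm h2) (Ne.symm h1))⟩)
  have J1 : (Finset.range n).filter (fun i => P i ∈ N) = Finset.range N.card := by
    rw [eq_range (J := (Finset.range n).filter (fun i => P i ∈ N)), hidx N hNX]
    intro j hj i hij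
    obtain ⟨h1, h2⟩ := Finset.mem_filter.1 hj
    have h3 := Finset.mem_range.1 h1
    refine Finset.mem_filter.2 ⟨Finset.mem_range.2 (by omega), ?_⟩
    have h4 := (Finset.mem_filter.1 h2).2
    exact Finset.mem_filter.2 ⟨Pm i (by omega), lt_of_le_of_lt (hord i j hij h3) h4⟩
  have J2 : (Finset.range n).filter (fun i => P i ∈ N') = Finset.range (N.card + 2) := by
    rw [eq_range (J := (Finset.range n).filter (fun i => P i ∈ N')), hidx N' hN'X, hN'c]
    intro j hj i hij
    obtain ⟨h1, h2⟩ := Finset.mem_filter.1 hj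
    have h3 := Finset.mem_range.1 h1
    refine Finset.mem_filter.2 ⟨Finset.mem_range.2 (by omega), ?_⟩
    rw [hN'mem _ (Pm i (by omega))]
    rw [hN'mem _ (Pm j h3)] at h2
    exact (hord i j hij h3).trans h2
  by_contra hne
  rcases Nat.lt_or_ge N.card T with hlt | hge
  · -- N.card + 2 ≤ T
    have h2T : N.card + 2 ≤ T := by omega
    have hsub : insert L (insert R K) ⊆
        ((Finset.range T).filter (fun i => HV X (P i))).image P := by
      intro z hz
      have hz' : z ∈ N' ∧ HV X z := by
        rcases Finset.mem_insert.1 hz with rfl | hz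
        · exact ⟨Finset.mem_insert_self _ _, vL⟩
        · rcases Finset.mem_insert.1 hz with rfl | hz
          · exact ⟨Finset.mem_insert_of_mem (Finset.mem_insert_self _ _), vR⟩
          · obtain ⟨k1, k2, k3⟩ := hK1 z hz
            exact ⟨Finset.mem_insert_of_mem (Finset.mem_insert_of_mem
              (Finset.mem_filter.2 ⟨k1, k2⟩)), k3⟩
      obtain ⟨i, hi, rfl⟩ := hsurj z (hN'X hz'.1)
      have h5 : i ∈ (Finset.range n).filter (fun i => P i ∈ N') :=
        Finset.mem_filter.2 ⟨Finset.mem_range.2 hi, hz'.1⟩
      rw [J2, Finset.mem_range] at h5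
      exact Finset.mem_image_of_mem P
        (Finset.mem_filter.2 ⟨Finset.mem_range.2 (by omega), hz'.2⟩)
    have h6 := (Finset.card_le_card hsub).trans Finset.card_image_le
    rw [hc, Finset.card_insert_of_notMem, Finset.card_insert_of_notMem] at h6
    · omega
    · intro h7
      have := (hK1 R h7).2.1
      simp at this
    · rw [Finset.mem_insert, not_or]
      refine ⟨hLR, fun h7 => ?_⟩
      have := (hK1 L h7).2.1
      simp at this
  · -- T ≤ N.card
    have hsub : ((Finset.range T).filter (fun i => HV X (P i))).image P ⊆ K := by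
      intro z hz
      obtain ⟨i, hi, rfl⟩ := Finset.mem_image.1 hz
      obtain ⟨h1, h2⟩ := Finset.mem_filter.1 hi
      have h3 : i ∈ (Finset.range n).filter (fun i => P i ∈ N) := by
        rw [J1, Finset.mem_range]
        have := Finset.mem_range.1 h1
        omega
      have h4 := (Finset.mem_filter.1 h3).2
      obtain ⟨h5, h6⟩ := Finset.mem_filter.1 h4
      exact hK2 _ h5 h6 h2
    have h7 := Finset.card_le_card hsub
    rw [Finset.card_image_of_injOn, hc] at h7
    · omega
    · intro i hi j hj hij
      have hi' := Finset.mem_range.1 (Finset.mem_filter.1 (Finset.mem_coe.1 hi)).1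
      have hj' := Finset.mem_range.1 (Finset.mem_filter.1 (Finset.mem_coe.1 hj)).1
      exact Pi i j (by omega) (by omega) hij

end NC

open scoped Classical in
/-- The ring structure from the top sets. -/
theorem exists_ring_of_top {X : Finset Pt} (hX : GeneralPosition X) (hK : K1 X)
    (hn : 9 ≤ X.card)
    (H : ∀ w : Pt, w ≠ 0 → ∃ P : ℕ → Pt, (∀ i < X.card, P i ∈ X) ∧
      (∀ i j, i < X.card → j < X.card → P i = P j → i = j) ∧
      (∀ i j, i < j → j < X.card → hgt w (P j) ≤ hgt w (P i)) ∧
      ((Finset.range 4).filter (fun i => HV X (P i))).card = 2 ∧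
      ((Finset.range 7).filter (fun i => HV X (P i))).card = 3) :
    ∃ (h : ℕ) (p a c : ZMod h → Pt), RingS0 X h p a c := by
  obtain ⟨h, p, h3, pinj, pX, hull, hall, hconv⟩ := Hull.exists_hull hX (by omega)
  have hp1 : ∀ i, p i ≠ p (i + 1) := by
    intro i h1
    have h2 := pinj h1
    have h3' : ((1 : ℕ) : ZMod h) = 0 := by
      rw [Nat.cast_one]
      have : i + 0 = i + 1 := by rw [add_zero]; exact h2
      exact (add_left_cancel this).symm
    rw [ZMod.natCast_eq_zero_iff] at h3'
    have := Nat.le_of_dvd (by omega) h3'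
    omega
  have hHE : ∀ i, HE X (p i) (p (i + 1)) := fun i => ⟨pX i, pX (i + 1), hp1 i, hull i⟩
  have hHV : ∀ i, HV X (p i) := fun i => ⟨_, hHE i⟩
  haveI : NeZero h := ⟨by omega⟩
  have hne : ∀ (i : ZMod h) (k : ℕ), 0 < k → k < h → p (i + (k : ZMod h)) ≠ p i := by
    intro i k hk hk' h1
    have h2 := pinj h1
    have h4 : ((k : ℕ) : ZMod h) = 0 := by
      have : i + (k : ZMod h) = i + 0 := by rw [add_zero]; exact h2
      exact add_left_cancel this
    rw [ZMod.natCast_eq_zero_iff] at h4
    have := Nat.le_of_dvd hk h4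
    omega
  -- the chord p i, p (i + k)
  have key : ∀ (i : ZMod h) (k T : ℕ), 2 ≤ k → k < h → T ≤ X.card →
      (∀ w : Pt, w ≠ 0 → ∃ P : ℕ → Pt, (∀ i < X.card, P i ∈ X) ∧
      (∀ i j, i < X.card → j < X.card → P i = P j → i = j) ∧
      (∀ i j, i < j → j < X.card → hgt w (P j) ≤ hgt w (P i)) ∧
      ((Finset.range T).filter (fun i => HV X (P i))).card = k) →
      (X.filter (fun z => orient (p i) (p (i + (k : ZMod h))) z < 0)).card + 1 = T := by
    intro i k T hk1 hk2 hT HT
    set K : Finset Pt := (Finset.Icc 1 (k - 1)).image (fun j : ℕ => p (i + (j : ZMod h))) with hKdef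
    have hKc : K.card = k - 1 := by
      rw [hKdef, Finset.card_image_of_injOn, Nat.card_Icc]
      · omega
      · intro j hj j' hj' hjj
        have a1 := Finset.mem_Icc.1 (Finset.mem_coe.1 hj)
        have a2 := Finset.mem_Icc.1 (Finset.mem_coe.1 hj')
        have a3 := add_left_cancel (pinj hjj)
        rw [ZMod.natCast_eq_natCast_iff'] at a3
        rwa [Nat.mod_eq_of_lt (by omega), Nat.mod_eq_of_lt (by omega)] at a3
    have hw : ((p (i + (k : ZMod h))).2 - (p i).2, -((p (i + (k : ZMod h))).1 - (p i).1)) ≠
        (0 : Pt) := by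
      intro h1
      rw [Prod.ext_iff] at h1
      simp only [Prod.fst_zero, Prod.snd_zero] at h1
      apply hne i k (by omega) hk2
      exact Prod.ext (by linarith [h1.2]) (by linarith [h1.1])
    obtain ⟨P, Pm, Pi, Ps, Pc⟩ := HT _ hw
    refine NC.near_card hX (pX i) (pX _) (hne i k (by omega) hk2).symm (hHV _) (hHV _)
      (K := K) ?_ ?_ Pm Pi Ps hT (by rw [Pc, hKc]; omega)
    · intro z hz
      obtain ⟨j, hj, rfl⟩ := Finset.mem_image.1 hz
      have a1 := Finset.mem_Icc.1 hj
      refine ⟨pX _, ?_, hHV _⟩
      have := hconv i j k (by omega) (by omega) hk2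
      rw [orient_swap']; linarith
    · intro z hz hzn hzv
      obtain ⟨w', hw'⟩ := hzv
      obtain ⟨j, rfl, -⟩ := hall _ _ hw'
      set b := (j - i).val with hb
      have hj : j = i + (b : ZMod h) := by
        rw [hb, ZMod.natCast_zmod_val]; ring
      have hbh : b < h := ZMod.val_lt _
      have hb0 : b = 0 ∨ (1 ≤ b ∧ b ≤ k - 1) ∨ b = k ∨ k < b := by omega
      rcases hb0 with h0 | h0 | h0 | h0
      · rw [hj, h0, Nat.cast_zero, add_zero] at hzn
        simp at hzn
      · rw [hj]
        exact Finset.mem_image.2 ⟨b, Finset.mem_Icc.2 h0, rfl⟩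
      · rw [hj, h0] at hzn
        simp at hzn
      · have := hconv i k b (by omega) h0 hbh
        rw [← hj] at this
        linarith
  have E1 : ∀ i, (X.filter (fun z => orient (p (i - 1)) (p (i + 1)) z < 0)).card = 3 := by
    intro i
    have := key (i - 1) 2 4 le_rfl (by omega) (by omega) (fun w hw => by
      obtain ⟨P, a1, a2, a3, a4, -⟩ := H w hw
      exact ⟨P, a1, a2, a3, a4⟩)
    rw [show i - 1 + ((2 : ℕ) : ZMod h) = i + 1 by push_cast; ring] at this
    omega
  have h4 : 4 ≤ h := by
    by_contra hlt
    have h1 : h = 3 := by omega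
    have e0 : ((3 : ℕ) : ZMod h) = 0 := by rw [← h1]; exact ZMod.natCast_self h
    push_cast at e0
    have e1 := E1 0
    have e3 : (0 : ZMod h) + 1 + 1 = 0 - 1 := by
      have : (0 : ZMod h) + 1 + 1 = (3 : ZMod h) - 1 := by ring
      rw [this, e0]
    have hsub : (X.erase (p (0 + 1))).erase (p (0 - 1)) ⊆
        X.filter (fun z => orient (p (0 - 1)) (p (0 + 1)) z < 0) := by
      intro z hz
      rw [Finset.mem_erase, Finset.mem_erase] at hz
      refine Finset.mem_filter.2 ⟨hz.2.2, ?_⟩
      have := hull (0 + 1) z hz.2.2 hz.2.1 (by rw [e3]; exact hz.1)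
      rw [e3] at this
      rw [orient_swap]; linarith
    have h2 := Finset.card_le_card hsub
    have hne' : p (0 - 1) ≠ p (0 + 1) := by
      have := hp1 (0 + 1)
      rw [e3] at this
      exact this.symm
    rw [Finset.card_erase_of_mem (Finset.mem_erase.2 ⟨hne', pX _⟩),
      Finset.card_erase_of_mem (pX _), e1] at h2
    omega
  have E2 : ∀ i, (X.filter (fun z => orient (p (i - 1)) (p (i + 2)) z < 0)).card = 6 := by
    intro i
    have := key (i - 1) 3 7 (by omega) (by omega) (by omega) (fun w hw => by
      obtain ⟨P, a1, a2, a3, -, a4⟩ := H w hw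
      exact ⟨P, a1, a2, a3, a4⟩)
    rw [show i - 1 + ((3 : ℕ) : ZMod h) = i + 2 by push_cast; ring] at this
    omega
  obtain ⟨a, c, W⟩ := exists_ring hX hK hn h3 pinj pX hull hall hconv E1 E2
  exact ⟨h, p, a, c, W⟩

end Pool.Agent.GCP
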