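import Pool.Agent.GCP.Stage
import Pool.Agent.GCP.NearCard
import Pool.Agent.GCP.Step

/-!
# The induction step with an exceptional piece of eleven points (MP_062f91_co)

`L16` : eleven points `E` which are not three convex polygons, together with five further points
(`J` cut off from `E`, `H` cut off from `E ∪ J`), are four convex polygons.
-/

namespace Pool.Agent.GCP

/-- Sixteen points which contain an exceptional set of eleven points as a cut are four convex
polygons. -/
def L16 : Prop :=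
  ∀ E J H : Finset Pt, E.card = 11 → J.card + H.card = 5 → Disjoint E J → Disjoint (E ∪ J) H →
    GeneralPosition (E ∪ J ∪ H) →
    Disjoint (convexHull ℝ (E : Set Pt)) (convexHull ℝ (J : Set Pt)) →
    Disjoint (convexHull ℝ ((E ∪ J : Finset Pt) : Set Pt)) (convexHull ℝ (H : Set Pt)) →
    ¬ HCPle (E : Set Pt) 3 → HCPle ((E ∪ J ∪ H : Finset Pt) : Set Pt) 4

namespace Exc

variable {X : Finset Pt}

/-- A cut by an affine functional extends to cuts of all larger sizes. -/
lemma extend_cut (hX : GeneralPosition X) {k : Pt → ℝ} (hk : Aff k) {R0 : Finset Pt}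
    (h0 : R0 ⊆ X) (hne : R0.Nonempty) (hlt : ∀ x ∈ R0, ∀ y ∈ X, y ∉ R0 → k y < k x) {m : ℕ}
    (h1 : R0.card ≤ m) (h2 : m < X.card) :
    ∃ R : Finset Pt, R0 ⊆ R ∧ R ⊆ X ∧ R.card = m ∧
      Disjoint (convexHull ℝ (R0 : Set Pt)) (convexHull ℝ ((X \ R0 : Finset Pt) : Set Pt)) ∧
      Disjoint (convexHull ℝ (R : Set Pt)) (convexHull ℝ ((X \ R : Finset Pt) : Set Pt)) := by
  classical
  obtain ⟨α, β, γ, hc⟩ := hk.coords
  set w : Pt := (α, β) with hw
  have hht : ∀ z, k z = ht w z + γ := by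
    intro z
    rw [hc]
    rfl
  have hw0 : w ≠ 0 := by
    intro h
    have ha : α = 0 := congrArg Prod.fst h
    have hb : β = 0 := congrArg Prod.snd h
    obtain ⟨x, hx⟩ := hne
    obtain ⟨y, hy, hy'⟩ : ∃ y ∈ X, y ∉ R0 := by
      by_contra hcon
      push Not at hcon
      have := Finset.card_le_card (show X ⊆ R0 from hcon)
      omega
    have h3 := hlt x hx y hy hy'
    rw [hc, hc, ha, hb] at h3
    linarith
  obtain ⟨P, hP⟩ := Sweep.exists_srt X w
  let J : Finset ℕ := (Finset.range X.card).filter (fun i => P i ∈ R0)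
  have hJ : J = Finset.range J.card := by
    apply NC.eq_range
    intro j hj i hij
    obtain ⟨a1, a2⟩ := Finset.mem_filter.1 hj
    have a1' := Finset.mem_range.1 a1
    refine Finset.mem_filter.2 ⟨Finset.mem_range.2 (by omega), ?_⟩
    by_contra hni
    have a3 := hlt (P j) a2 (P i) (hP.mem i (by omega)) hni
    have a4 := hP.mono i j hij a1'
    rw [hht, hht] at a3
    linarith
  have himg : J.image P = R0 := by
    ext x
    rw [Finset.mem_image]
    constructor
    · rintro ⟨i, hi, rfl⟩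
      exact (Finset.mem_filter.1 hi).2
    · intro hx
      obtain ⟨i, hi, rfl⟩ := Sweep.surj hP (h0 hx)
      exact ⟨i, Finset.mem_filter.2 ⟨Finset.mem_range.2 hi, hx⟩, rfl⟩
  have hJc : J.card = R0.card := by
    rw [← himg, Finset.card_image_of_injOn]
    intro i hi j hj hij
    have b1 := Finset.mem_range.1 (Finset.mem_filter.1 (Finset.mem_coe.1 hi)).1
    have b2 := Finset.mem_range.1 (Finset.mem_filter.1 (Finset.mem_coe.1 hj)).1
    exact hP.inj i j b1 b2 hij
  have hR0 : (Finset.range R0.card).image P = R0 := by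
    rw [← hJc, ← hJ]; exact himg
  obtain ⟨c1, c2⟩ := Win.card_top hP (k := m) (by omega)
  have hpos : 0 < R0.card := Finset.card_pos.2 hne
  refine ⟨(Finset.range m).image P, ?_, c2, c1, ?_, Win.top_cut hX hw0 hP (by omega) h2⟩
  · rw [← hR0]
    exact Finset.image_subset_image (Finset.range_subset_range.2 h1)
  · have := Win.top_cut hX hw0 hP (k := R0.card) hpos (by omega)
    rwa [hR0] at this

/-- The induction step if a line cuts off an exceptional set of eleven points and at most five further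
points beyond another line. -/
theorem step_cut (hL : L16) (hX : GeneralPosition X) {q : ℕ} (hq : X.card = 4 * q + 3)
    (hq4 : 4 ≤ q)
    (H : ∀ Y : Finset Pt, Y ⊆ X → Y.card = 4 * (q - 4) + 3 → HCPle (Y : Set Pt) (q - 4 + 1))
    {k : Pt → ℝ} (hk : Aff k) {E J : Finset Pt} (hEJ : E ∪ J ⊆ X) (hE : E.card = 11)
    (hJ : J.card ≤ 5) (hd : Disjoint E J)
    (hlt : ∀ x ∈ E ∪ J, ∀ y ∈ X, y ∉ E ∪ J → k y < k x)
    (hdc : Disjoint (convexHull ℝ (E : Set Pt)) (convexHull ℝ (J : Set Pt)))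
    (hE3 : ¬ HCPle (E : Set Pt) 3) : HCPle (X : Set Pt) (q + 1) := by
  classical
  have hcard : (E ∪ J).card = 11 + J.card := by
    rw [Finset.card_union_of_disjoint hd, hE]
  obtain ⟨R, r1, r2, r3, r4, r5⟩ := extend_cut hX hk hEJ (Finset.card_pos.1 (by omega)) hlt
    (m := 16) (by omega) (by omega)
  have hRu : E ∪ J ∪ (R \ (E ∪ J)) = R := by
    rw [Finset.union_sdiff_of_subset r1]
  have hHc : (R \ (E ∪ J)).card = 16 - (11 + J.card) := by
    rw [Finset.card_sdiff_of_subset r1, r3, hcard]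
  have h4 : HCPle ((E ∪ J ∪ (R \ (E ∪ J)) : Finset Pt) : Set Pt) 4 := by
    refine hL E J (R \ (E ∪ J)) hE (by omega) hd Finset.disjoint_sdiff ?_ hdc ?_ hE3
    · rw [hRu]
      exact hX.subset r2
    · refine r4.mono_right (convexHull_mono ?_)
      intro x hx
      rw [Finset.mem_coe, Finset.mem_sdiff] at hx ⊢
      exact ⟨r2 hx.1, hx.2⟩
  rw [hRu] at h4
  have h5 := H (X \ R) Finset.sdiff_subset (by
    rw [Finset.card_sdiff_of_subset r2, r3]; omega)
  have h6 := h4.append h5 r5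
  have h7 : (R : Set Pt) ∪ ((X \ R : Finset Pt) : Set Pt) = (X : Set Pt) := by
    rw [← Finset.coe_union, Finset.union_sdiff_of_subset r2]
  rw [h7] at h6
  exact h6.mono (by omega)

/-- The wedge lemma with the functional of the splitting line. -/
theorem wedge_line {f g : Pt → ℝ} (hf : Aff f) (hg : Aff g) (f0 : ∀ x ∈ X, f x ≠ 0)
    (g0 : ∀ x ∈ X, g x ≠ 0) (inj : ∀ x ∈ X, ∀ y ∈ X, f x = f y → g x = g y → x = y) {m : ℕ}
    (h1 : (X.filter (fun z => f z < 0 ∧ 0 < g z)).card ≤ m)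
    (h2 : m ≤ (X.filter (fun z => f z < 0)).card) :
    ∃ h : Pt → ℝ, Aff h ∧ (∀ z ∈ X, f z < 0 → 0 < g z → 0 < h z) ∧
      (∀ z ∈ X, 0 < f z → g z < 0 → h z < 0) ∧
      (X.filter (fun z => f z < 0 ∧ 0 < h z)).card = m := by
  classical
  obtain ⟨ε, he1, he2⟩ := exists_perturb g0 inj f0
  set Q := X.filter (fun z => f z < 0 ∧ g z < 0) with hQ
  let ρ : Pt → ℝ := fun z => (g z + ε) / f z
  have hQm : ∀ x ∈ Q, x ∈ X ∧ f x < 0 ∧ g x < 0 := fun x hx => by
    rw [hQ, Finset.mem_filter] at hx; exact hx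
  have hρ : ∀ x ∈ Q, 0 < ρ x := by
    intro x hx
    obtain ⟨a1, a2, a3⟩ := hQm x hx
    exact div_pos_of_neg_of_neg ((he1 x a1).2 a3) a2
  have hinj : Set.InjOn ρ (Q : Set Pt) := by
    intro x hx y hy hxy
    exact he2 x (hQm x hx).1 y (hQm y hy).1 hxy
  have hcardf : (X.filter (fun z => f z < 0)).card =
      (X.filter (fun z => f z < 0 ∧ 0 < g z)).card + Q.card := by
    rw [hQ, ← Finset.card_union_of_disjoint]
    · congr 1
      ext z
      simp only [Finset.mem_filter, Finset.mem_union]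
      constructor
      · rintro ⟨a1, a2⟩
        rcases lt_or_gt_of_ne (g0 z a1) with h | h
        · exact Or.inr ⟨a1, a2, h⟩
        · exact Or.inl ⟨a1, a2, h⟩
      · rintro (⟨a1, a2, -⟩ | ⟨a1, a2, -⟩) <;> exact ⟨a1, a2⟩
    · rw [Finset.disjoint_left]
      intro z hz hz'
      rw [Finset.mem_filter] at hz hz'
      linarith [hz.2.2, hz'.2.2]
  obtain ⟨t, ht0, ht⟩ := exists_threshold (Q.image ρ) (by
    intro s hs
    obtain ⟨x, hx, rfl⟩ := Finset.mem_image.1 hs
    exact hρ x hx) (k := m - (X.filter (fun z => f z < 0 ∧ 0 < g z)).card) (by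
    rw [Finset.card_image_of_injOn hinj]; omega)
  have hcount : (Q.filter (fun z => ρ z < t)).card =
      m - (X.filter (fun z => f z < 0 ∧ 0 < g z)).card := by
    rw [← ht, ← Finset.card_image_of_injOn (s := Q.filter (fun z => ρ z < t)) (f := ρ)]
    · congr 1
      ext s
      simp only [Finset.mem_image, Finset.mem_filter]
      constructor
      · rintro ⟨x, ⟨a1, a2⟩, rfl⟩
        exact ⟨⟨x, a1, rfl⟩, a2⟩
      · rintro ⟨⟨x, a1, rfl⟩, a2⟩
        exact ⟨x, ⟨a1, a2⟩, rfl⟩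
    · exact hinj.mono (by intro x hx; exact (Finset.mem_filter.1 hx).1)
  let h : Pt → ℝ := fun z => (-t) * f z + 1 * g z + ε
  have hh : Aff h := hf.comb hg (-t) 1 ε
  have hA : ∀ z ∈ X, f z < 0 → 0 < g z → 0 < h z := by
    intro z hz a1 a2
    have a3 := (he1 z hz).1 a2
    have a4 := mul_nonneg ht0 (neg_nonneg.2 a1.le)
    change 0 < (-t) * f z + 1 * g z + ε
    linarith
  have hB : ∀ z ∈ X, 0 < f z → g z < 0 → h z < 0 := by
    intro z hz a1 a2
    have a3 := (he1 z hz).2 a2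
    have a4 := mul_nonneg ht0 a1.le
    change (-t) * f z + 1 * g z + ε < 0
    linarith
  have hQi : ∀ z ∈ X, f z < 0 → g z < 0 → (0 < h z ↔ ρ z < t) := by
    intro z hz a1 a2
    change 0 < (-t) * f z + 1 * g z + ε ↔ (g z + ε) / f z < t
    rw [div_lt_iff_of_neg a1]
    constructor <;> intro a3 <;> linarith
  have hX1 : X.filter (fun z => f z < 0 ∧ 0 < h z) =
      X.filter (fun z => f z < 0 ∧ 0 < g z) ∪ Q.filter (fun z => ρ z < t) := by
    ext z
    simp only [hQ, Finset.mem_filter, Finset.mem_union]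
    constructor
    · rintro ⟨a1, a2, a3⟩
      rcases lt_or_gt_of_ne (g0 z a1) with a4 | a4
      · exact Or.inr ⟨⟨a1, a2, a4⟩, (hQi z a1 a2 a4).1 a3⟩
      · exact Or.inl ⟨a1, a2, a4⟩
    · rintro (⟨a1, a2, a3⟩ | ⟨⟨a1, a2, a3⟩, a4⟩)
      · exact ⟨a1, a2, hA z a1 a2 a3⟩
      · exact ⟨a1, a2, (hQi z a1 a2 a3).2 a4⟩
  refine ⟨h, hh, hA, hB, ?_⟩
  rw [hX1, Finset.card_union_of_disjoint, hcount]
  · omega
  · rw [Finset.disjoint_left]
    intro z hz hz'
    simp only [hQ, Finset.mem_filter] at hz hz'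
    linarith [hz.2.2, hz'.1.2.2]

/-- The data of a splitting line. -/
structure Split (X : Finset Pt) (f g h : Pt → ℝ) (s t : ℕ) : Prop where
  hh : Aff h
  hA : ∀ z ∈ X, f z < 0 → 0 < g z → 0 < h z
  hB : ∀ z ∈ X, 0 < f z → g z < 0 → h z < 0
  c1 : (X.filter (fun z => f z < 0 ∧ 0 < h z)).card = 4 * s + 3
  c2 : (X.filter (fun z => g z < 0 ∧ h z ≤ 0)).card = 4 * t + 3

variable {f g h : Pt → ℝ} {s t : ℕ}

lemma Split.cover (W : WCut X f g) (S : Split X f g h s t) {z : Pt} (hz : z ∈ X) :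
    (0 < f z ∧ 0 < g z) ∨ (f z < 0 ∧ 0 < h z) ∨ (g z < 0 ∧ h z ≤ 0) := by
  rcases lt_or_gt_of_ne (W.f0 z hz) with a1 | a1
  · rcases lt_or_ge 0 (h z) with a2 | a2
    · exact Or.inr (Or.inl ⟨a1, a2⟩)
    · rcases lt_or_gt_of_ne (W.g0 z hz) with a3 | a3
      · exact Or.inr (Or.inr ⟨a3, a2⟩)
      · linarith [S.hA z hz a1 a3]
  · rcases lt_or_gt_of_ne (W.g0 z hz) with a2 | a2
    · exact Or.inr (Or.inr ⟨a2, (S.hB z hz a1 a2).le⟩)
    · exact Or.inl ⟨a1, a2⟩

/-- the three parts together -/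
theorem Split.hcp (W : WCut X f g) (S : Split X f g h s t)
    (h1 : HCPle ((X.filter (fun z => f z < 0 ∧ 0 < h z) : Finset Pt) : Set Pt) (s + 1))
    (h2 : HCPle ((X.filter (fun z => g z < 0 ∧ h z ≤ 0) : Finset Pt) : Set Pt) (t + 1)) :
    HCPle (X : Set Pt) (s + t + 3) := by
  classical
  have hne : (X.filter (fun z => 0 < f z ∧ 0 < g z)).Nonempty :=
    Finset.card_pos.1 (by rw [W.card]; norm_num)
  have key := HCP.append3 (HCP.single hne W.conv) (h1.exact (by rw [S.c1]; omega))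
    (h2.exact (by rw [S.c2]; omega)) ?_ ?_ ?_
  · refine ⟨1 + (s + 1) + (t + 1), by omega, ?_⟩
    convert key using 1
    ext x
    simp only [Set.mem_union, Finset.mem_coe, Finset.mem_filter]
    constructor
    · intro hx
      rcases S.cover W hx with a | a | a
      · exact Or.inl (Or.inl ⟨hx, a⟩)
      · exact Or.inl (Or.inr ⟨hx, a⟩)
      · exact Or.inr ⟨hx, a⟩
    · rintro ((⟨a, -⟩ | ⟨a, -⟩) | ⟨a, -⟩) <;> exact a
  · refine W.hf.disjoint ?_ ?_
    · intro x hx; exact (Finset.mem_filter.1 hx).2.1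
    · intro x hx; exact ((Finset.mem_filter.1 hx).2.1).le
  · refine W.hg.disjoint ?_ ?_
    · intro x hx; exact (Finset.mem_filter.1 hx).2.2
    · intro x hx; exact ((Finset.mem_filter.1 hx).2.1).le
  · refine S.hh.disjoint ?_ ?_
    · intro x hx; exact (Finset.mem_filter.1 hx).2.2
    · intro x hx; exact (Finset.mem_filter.1 hx).2.2

/-- There is a splitting line. -/
theorem exists_split (W : WCut X f g) {q : ℕ} (hq : X.card = 4 * q + 3)
    (h3 : 3 ≤ (X.filter (fun z => f z < 0 ∧ g z < 0)).card) :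
    ∃ (h : Pt → ℝ) (s t : ℕ), Split X f g h s t ∧ s + t + 2 = q := by
  classical
  have hA : (X.filter (fun z => f z < 0)).card =
      (X.filter (fun z => f z < 0 ∧ 0 < g z)).card +
        (X.filter (fun z => f z < 0 ∧ g z < 0)).card := by
    rw [← Finset.card_union_of_disjoint]
    · congr 1
      ext z
      simp only [Finset.mem_filter, Finset.mem_union]
      constructor
      · rintro ⟨a1, a2⟩
        rcases lt_or_gt_of_ne (W.g0 z a1) with h | h
        · exact Or.inr ⟨a1, a2, h⟩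
        · exact Or.inl ⟨a1, a2, h⟩
      · rintro (⟨a1, a2, -⟩ | ⟨a1, a2, -⟩) <;> exact ⟨a1, a2⟩
    · rw [Finset.disjoint_left]
      intro z hz hz'
      rw [Finset.mem_filter] at hz hz'
      linarith [hz.2.2, hz'.2.2]
  have hle : (X.filter (fun z => f z < 0)).card + 5 ≤ X.card := by
    rw [← W.card, ← Finset.card_union_of_disjoint]
    · exact Finset.card_le_card (Finset.union_subset (Finset.filter_subset _ _)
        (Finset.filter_subset _ _))
    · rw [Finset.disjoint_left]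
      intro z hz hz'
      linarith [(Finset.mem_filter.1 hz).2, (Finset.mem_filter.1 hz').2.1]
  obtain ⟨s, hs1, hs2⟩ : ∃ s, (X.filter (fun z => f z < 0 ∧ 0 < g z)).card ≤ 4 * s + 3 ∧
      4 * s + 3 ≤ (X.filter (fun z => f z < 0)).card := by
    refine ⟨((X.filter (fun z => f z < 0)).card - 3) / 4, ?_, ?_⟩ <;> omega
  obtain ⟨h, hh, a1, a2, a3⟩ := wedge_line W.hf W.hg W.f0 W.g0 W.inj hs1 hs2
  have hcov : ∀ z ∈ X, (0 < f z ∧ 0 < g z) ∨ (f z < 0 ∧ 0 < h z) ∨ (g z < 0 ∧ h z ≤ 0) := by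
    intro z hz
    rcases lt_or_gt_of_ne (W.f0 z hz) with b1 | b1
    · rcases lt_or_ge 0 (h z) with b2 | b2
      · exact Or.inr (Or.inl ⟨b1, b2⟩)
      · rcases lt_or_gt_of_ne (W.g0 z hz) with b3 | b3
        · exact Or.inr (Or.inr ⟨b3, b2⟩)
        · linarith [a1 z hz b1 b3]
    · rcases lt_or_gt_of_ne (W.g0 z hz) with b2 | b2
      · exact Or.inr (Or.inr ⟨b2, (a2 z hz b1 b2).le⟩)
      · exact Or.inl ⟨b1, b2⟩
  have e1 : X = (X.filter (fun z => 0 < f z ∧ 0 < g z) ∪ X.filter (fun z => f z < 0 ∧ 0 < h z)) ∪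
      X.filter (fun z => g z < 0 ∧ h z ≤ 0) := by
    ext x
    simp only [Finset.mem_union, Finset.mem_filter]
    constructor
    · intro hx
      rcases hcov x hx with b | b | b
      · exact Or.inl (Or.inl ⟨hx, b⟩)
      · exact Or.inl (Or.inr ⟨hx, b⟩)
      · exact Or.inr ⟨hx, b⟩
    · rintro ((⟨b, -⟩ | ⟨b, -⟩) | ⟨b, -⟩) <;> exact b
  have d1 : Disjoint (X.filter (fun z => 0 < f z ∧ 0 < g z))
      (X.filter (fun z => f z < 0 ∧ 0 < h z)) := by
    rw [Finset.disjoint_left]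
    intro x hx hx'
    linarith [(Finset.mem_filter.1 hx).2.1, (Finset.mem_filter.1 hx').2.1]
  have d2 : Disjoint (X.filter (fun z => 0 < f z ∧ 0 < g z) ∪ X.filter (fun z => f z < 0 ∧ 0 < h z))
      (X.filter (fun z => g z < 0 ∧ h z ≤ 0)) := by
    rw [Finset.disjoint_left]
    intro x hx hx'
    rcases Finset.mem_union.1 hx with hx | hx
    · linarith [(Finset.mem_filter.1 hx).2.2, (Finset.mem_filter.1 hx').2.1]
    · linarith [(Finset.mem_filter.1 hx).2.2, (Finset.mem_filter.1 hx').2.2]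
  have e2 : X.card = 5 + (4 * s + 3) + (X.filter (fun z => g z < 0 ∧ h z ≤ 0)).card := by
    conv_lhs => rw [e1]
    rw [Finset.card_union_of_disjoint d2, Finset.card_union_of_disjoint d1, W.card, a3]
  refine ⟨h, s, q - s - 2, ⟨hh, a1, a2, a3, by omega⟩, by omega⟩

/-- If the first part is exceptional. -/
theorem Split.left (hL : L16) (hX : GeneralPosition X) (W : WCut X f g) (S : Split X f g h 2 t)
    {q : ℕ} (hq : X.card = 4 * q + 3) (hq4 : 4 ≤ q)
    (H : ∀ Y : Finset Pt, Y ⊆ X → Y.card = 4 * (q - 4) + 3 → HCPle (Y : Set Pt) (q - 4 + 1))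
    (hE3 : ¬ HCPle ((X.filter (fun z => f z < 0 ∧ 0 < h z) : Finset Pt) : Set Pt) 3) :
    HCPle (X : Set Pt) (q + 1) := by
  classical
  refine step_cut hL hX hq hq4 H S.hh (E := X.filter (fun z => f z < 0 ∧ 0 < h z))
    (J := X.filter (fun z => (0 < f z ∧ 0 < g z) ∧ 0 < h z)) ?_ (by rw [S.c1]) ?_ ?_ ?_ ?_ hE3
  · exact Finset.union_subset (Finset.filter_subset _ _) (Finset.filter_subset _ _)
  · rw [← W.card]
    apply Finset.card_le_card
    intro x hx
    rw [Finset.mem_filter] at hx ⊢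
    exact ⟨hx.1, hx.2.1⟩
  · rw [Finset.disjoint_left]
    intro x hx hx'
    linarith [(Finset.mem_filter.1 hx).2.1, (Finset.mem_filter.1 hx').2.1.1]
  · intro x hx y hy hy'
    have hxp : 0 < h x := by
      rcases Finset.mem_union.1 hx with hx | hx
      · exact (Finset.mem_filter.1 hx).2.2
      · exact (Finset.mem_filter.1 hx).2.2
    have hyn : h y ≤ 0 := by
      by_contra hcon
      rw [not_le] at hcon
      apply hy'
      rcases S.cover W hy with a | a | a
      · exact Finset.mem_union_right _ (Finset.mem_filter.2 ⟨hy, a, hcon⟩)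
      · exact Finset.mem_union_left _ (Finset.mem_filter.2 ⟨hy, a⟩)
      · linarith [a.2]
    linarith
  · refine (W.hf.disjoint ?_ ?_).symm
    · intro x hx; exact (Finset.mem_filter.1 hx).2.1.1
    · intro x hx; exact ((Finset.mem_filter.1 hx).2.1).le

/-- If the second part is exceptional. -/
theorem Split.right (hL : L16) (hX : GeneralPosition X) (W : WCut X f g) (S : Split X f g h s 2)
    {q : ℕ} (hq : X.card = 4 * q + 3) (hq4 : 4 ≤ q)
    (H : ∀ Y : Finset Pt, Y ⊆ X → Y.card = 4 * (q - 4) + 3 → HCPle (Y : Set Pt) (q - 4 + 1))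
    (hE3 : ¬ HCPle ((X.filter (fun z => g z < 0 ∧ h z ≤ 0) : Finset Pt) : Set Pt) 3) :
    HCPle (X : Set Pt) (q + 1) := by
  classical
  have hneg : Aff (fun z => (-1) * h z + 0 * h z + 0) := S.hh.comb S.hh (-1) 0 0
  refine step_cut hL hX hq hq4 H hneg (E := X.filter (fun z => g z < 0 ∧ h z ≤ 0))
    (J := X.filter (fun z => (0 < f z ∧ 0 < g z) ∧ h z ≤ 0)) ?_ (by rw [S.c2]) ?_ ?_ ?_ ?_ hE3
  · exact Finset.union_subset (Finset.filter_subset _ _) (Finset.filter_subset _ _)
  · rw [← W.card]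
    apply Finset.card_le_card
    intro x hx
    rw [Finset.mem_filter] at hx ⊢
    exact ⟨hx.1, hx.2.1⟩
  · rw [Finset.disjoint_left]
    intro x hx hx'
    linarith [(Finset.mem_filter.1 hx).2.1, (Finset.mem_filter.1 hx').2.1.2]
  · intro x hx y hy hy'
    have hxp : h x ≤ 0 := by
      rcases Finset.mem_union.1 hx with hx | hx
      · exact (Finset.mem_filter.1 hx).2.2
      · exact (Finset.mem_filter.1 hx).2.2
    have hyn : 0 < h y := by
      by_contra hcon
      rw [not_lt] at hcon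
      apply hy'
      rcases S.cover W hy with a | a | a
      · exact Finset.mem_union_right _ (Finset.mem_filter.2 ⟨hy, a, hcon⟩)
      · linarith [a.2]
      · exact Finset.mem_union_left _ (Finset.mem_filter.2 ⟨hy, a⟩)
    linarith
  · refine (W.hg.disjoint ?_ ?_).symm
    · intro x hx; exact (Finset.mem_filter.1 hx).2.1.2
    · intro x hx; exact ((Finset.mem_filter.1 hx).2.1).le

end Exc

/-- The induction step for all `q ≥ 4` except `q = 6`. -/
theorem RingS.step_exc (hL : L16) {X : Finset Pt} {h : ℕ} {p a c : ZMod h → Pt}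
    (W : RingS X h p a c) {q : ℕ} (hq : X.card = 4 * q + 3) (hq4 : 4 ≤ q) (hq6 : q ≠ 6)
    (H : ∀ (Y : Finset Pt) (s : ℕ), Y ⊆ X → Y.card = 4 * s + 3 → s < q → s ≠ 2 →
      HCPle (Y : Set Pt) (s + 1)) : HCPle (X : Set Pt) (q + 1) := by
  classical
  obtain ⟨f, g, hf, hg, f0, g0, hinj, hc, hconv, h3⟩ := W.cut
  have hW : WCut X f g := ⟨hf, hg, f0, g0, hinj, hc, hconv⟩
  obtain ⟨k, s, t, S, hst⟩ := Exc.exists_split hW hq h3
  have H4 : ∀ Y : Finset Pt, Y ⊆ X → Y.card = 4 * (q - 4) + 3 → HCPle (Y : Set Pt) (q - 4 + 1) :=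
    fun Y hY hYc => H Y (q - 4) hY hYc (by omega) (by omega)
  by_cases h1 : HCPle ((X.filter (fun z => f z < 0 ∧ 0 < k z) : Finset Pt) : Set Pt) (s + 1)
  · by_cases h2 : HCPle ((X.filter (fun z => g z < 0 ∧ k z ≤ 0) : Finset Pt) : Set Pt) (t + 1)
    · have := S.hcp hW h1 h2
      rwa [show s + t + 3 = q + 1 by omega] at this
    · have ht : t = 2 := by
        by_contra ht
        exact h2 (H _ t (Finset.filter_subset _ _) S.c2 (by omega) ht)
      subst ht
      exact S.right hL W.gp hW hq hq4 H4 h2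
  · have hs : s = 2 := by
      by_contra hs
      exact h1 (H _ s (Finset.filter_subset _ _) S.c1 (by omega) hs)
    subst hs
    exact S.left hL W.gp hW hq hq4 H4 h1

end Pool.Agent.GCP
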