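import Pool.Agent.GCP.Avg

/-!
# The exotic component is impossible (MP_062f91_co)

If every ear `p (i-1), p i, p (i+1)` of the hull contains exactly five further points and
consecutive ears have at least three of them in common, then the set has eight points.
-/

namespace Pool.Agent.GCP

/-- The points of `X` strictly beyond the short chord `p (i-1), p (i+1)`, without `p i`. -/
noncomputable def ear (X : Finset Pt) {h : ℕ} (p : ZMod h → Pt) (i : ZMod h) : Finset Pt := by
  classical
  exact X.filter (fun z => orient (p (i - 1)) (p (i + 1)) z < 0 ∧ z ≠ p i)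

namespace Exotic

variable {X : Finset Pt} {h : ℕ} {p : ZMod h → Pt}

lemma mem_ear {i : ZMod h} {z : Pt} :
    z ∈ ear X p i ↔ z ∈ X ∧ orient (p (i - 1)) (p (i + 1)) z < 0 ∧ z ≠ p i := by
  unfold ear
  simp

lemma natCast_ne {k l : ℕ} (hk : k < h) (hl : l < h) (hkl : k ≠ l) (i : ZMod h) :
    i + (k : ZMod h) ≠ i + (l : ZMod h) := by
  intro he
  have h1 : (k : ZMod h) = (l : ZMod h) := add_left_cancel he
  rw [ZMod.natCast_eq_natCast_iff'] at h1
  rw [Nat.mod_eq_of_lt hk, Nat.mod_eq_of_lt hl] at h1
  exact hkl h1

/-- The hull vertices are sorted around `p i`. -/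
lemma fan (hh : 3 ≤ h) (pinj : Function.Injective p) (pX : ∀ i, p i ∈ X)
    (hull : ∀ i, ∀ z ∈ X, z ≠ p i → z ≠ p (i + 1) → 0 < orient (p i) (p (i + 1)) z)
    (i : ZMod h) (k : ℕ) (hk : 3 + k < h) :
    0 < orient (p i) (p (i + 2)) (p (i + ((3 + k : ℕ) : ZMod h))) := by
  have key : ∀ j : ℕ, 0 < j → j + 1 < h →
      0 < orient (p i) (p (i + (j : ZMod h))) (p (i + ((j + 1 : ℕ) : ZMod h))) := by
    intro j hj hj2
    have h0 : p i ≠ p (i + (j : ZMod h)) := by
      intro he
      have := pinj he
      have h2 := natCast_ne (h := h) (k := 0) (l := j) (by omega) (by omega) (by omega) i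
      simp only [Nat.cast_zero, add_zero] at h2
      exact h2 this
    have h1 : p i ≠ p (i + (j : ZMod h) + 1) := by
      intro he
      have := pinj he
      have h2 := natCast_ne (h := h) (k := 0) (l := j + 1) (by omega) (by omega) (by omega) i
      simp only [Nat.cast_zero, add_zero] at h2
      apply h2
      refine this.trans ?_
      push_cast
      ring
    have h2 := hull (i + (j : ZMod h)) (p i) (pX i) h0 h1
    have h3 : i + ((j + 1 : ℕ) : ZMod h) = i + (j : ZMod h) + 1 := by push_cast; ring
    rw [h3]
    have h4 : orient (p i) (p (i + (j : ZMod h))) (p (i + (j : ZMod h) + 1)) =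
        orient (p (i + (j : ZMod h))) (p (i + (j : ZMod h) + 1)) (p i) := by
      unfold orient; ring
    rw [h4]
    exact h2
  have base : ∀ j : ℕ, 2 ≤ j → j < h →
      0 < orient (p i) (p (i + 1)) (p (i + (j : ZMod h))) := by
    intro j hj hj2
    refine hull i _ (pX _) ?_ ?_
    · intro he
      have := pinj he
      have h2 := natCast_ne (h := h) (k := 0) (l := j) (by omega) (by omega) (by omega) i
      simp only [Nat.cast_zero, add_zero] at h2
      exact h2 this.symm
    · intro he
      have := pinj he
      have h2 := natCast_ne (h := h) (k := 1) (l := j) (by omega) (by omega) (by omega) i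
      simp only [Nat.cast_one] at h2
      exact h2 this.symm
  induction k with
  | zero =>
    have := key 2 (by norm_num) (by omega)
    simpa using this
  | succ k ih =>
    have h1 := ih (by omega)
    have h2 := key (3 + k) (by omega) (by omega)
    have h3 := base 2 le_rfl (by omega)
    have h4 := base (3 + k) (by omega) (by omega)
    have h5 := base (3 + k + 1) (by omega) (by omega)
    have h6 : ((2 : ℕ) : ZMod h) = 2 := by norm_num
    rw [h6] at h3
    exact Avg.ang_trans h3.le h4 h5 h1 h2

lemma ear_disjoint (hh : 4 ≤ h) (pinj : Function.Injective p) (pX : ∀ i, p i ∈ X)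
    (hull : ∀ i, ∀ z ∈ X, z ≠ p i → z ≠ p (i + 1) → 0 < orient (p i) (p (i + 1)) z)
    (i : ZMod h) : Disjoint (ear X p (i - 1)) (ear X p (i + 1)) := by
  rw [Finset.disjoint_left]
  intro z hz1 hz2
  rw [mem_ear] at hz1 hz2
  obtain ⟨hzX, ha, hane⟩ := hz1
  obtain ⟨-, hb, hbne⟩ := hz2
  have e1 : i - 1 - 1 = i + ((h - 2 : ℕ) : ZMod h) := by
    rw [Nat.cast_sub (by omega)]
    simp
    ring
  have e2 : i - 1 + 1 = i := by ring
  have e3 : i + 1 - 1 = i := by ring
  have e4 : i + 1 + 1 = i + 2 := by ring
  rw [e1, e2] at ha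
  rw [e3, e4] at hb
  have hzi : z ≠ p i := by
    rintro rfl
    have : orient (p i) (p (i + 2)) (p i) = 0 := by unfold orient; ring
    rw [this] at hb
    exact lt_irrefl _ hb
  have hz0 : 0 < orient (p i) (p (i + 1)) z := hull i z hzX hzi hbne
  have hane' : z ≠ p (i - 1) := hane
  -- `z` is after `p (i + (h-2))` and before `p (i + 2)`
  have ha' : 0 < orient (p i) (p (i + ((h - 2 : ℕ) : ZMod h))) z := by
    have : orient (p i) (p (i + ((h - 2 : ℕ) : ZMod h))) z =
        - orient (p (i + ((h - 2 : ℕ) : ZMod h))) (p i) z := by unfold orient; ring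
    rw [this]
    linarith
  by_cases h4 : h = 4
  · subst h4
    have : ((4 - 2 : ℕ) : ZMod 4) = 2 := by norm_num
    rw [this] at ha'
    linarith
  · obtain ⟨k, hk⟩ : ∃ k, h = 5 + k := ⟨h - 5, by omega⟩
    have hf := fan (X := X) (by omega) pinj pX hull i k (by omega)
    have e5 : h - 2 = 3 + k := by omega
    rw [e5] at ha'
    have base : ∀ j : ℕ, 2 ≤ j → j < h →
        0 < orient (p i) (p (i + 1)) (p (i + (j : ZMod h))) := by
      intro j hj hj2
      refine hull i _ (pX _) ?_ ?_
      · intro he
        have := pinj he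
        have h2 := natCast_ne (h := h) (k := 0) (l := j) (by omega) (by omega) (by omega) i
        simp only [Nat.cast_zero, add_zero] at h2
        exact h2 this.symm
      · intro he
        have := pinj he
        have h2 := natCast_ne (h := h) (k := 1) (l := j) (by omega) (by omega) (by omega) i
        simp only [Nat.cast_one] at h2
        exact h2 this.symm
    have b2 := base 2 le_rfl (by omega)
    have b3 := base (3 + k) (by omega) (by omega)
    have h6 : ((2 : ℕ) : ZMod h) = 2 := by norm_num
    rw [h6] at b2
    have := Avg.ang_trans b2.le b3 hz0 hf ha'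
    linarith

/-- All ears have five further points, consecutive ears share three of them: impossible for
nine or more points. -/
theorem false (hh : 3 ≤ h) (pinj : Function.Injective p) (pX : ∀ i, p i ∈ X)
    (hull : ∀ i, ∀ z ∈ X, z ≠ p i → z ≠ p (i + 1) → 0 < orient (p i) (p (i + 1)) z)
    (hX : 9 ≤ X.card) (h5 : ∀ i, (ear X p i).card = 5)
    (h3 : ∀ i, 3 ≤ (ear X p i ∩ ear X p (i + 1)).card) : False := by
  classical
  rcases Nat.lt_or_ge h 4 with h4 | h4
  · have hh3 : h = 3 := by omega
    subst hh3
    have hE : X ⊆ insert (p 0) (insert (p 1) (insert (p 2) (ear X p 0))) := by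
      intro z hz
      simp only [Finset.mem_insert, mem_ear]
      by_cases z0 : z = p 0
      · exact Or.inl z0
      by_cases z1 : z = p 1
      · exact Or.inr (Or.inl z1)
      by_cases z2 : z = p 2
      · exact Or.inr (Or.inr (Or.inl z2))
      refine Or.inr (Or.inr (Or.inr ⟨hz, ?_, z0⟩))
      have := hull 1 z hz z1 (by
        have : (1 : ZMod 3) + 1 = 2 := by decide
        rw [this]; exact z2)
      have e1 : (1 : ZMod 3) + 1 = 0 - 1 := by decide
      have e2 : (0 : ZMod 3) + 1 = 1 := by decide
      rw [e1] at this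
      rw [e2]
      have e3 : orient (p (0 - 1)) (p 1) z = - orient (p 1) (p (0 - 1)) z := by
        unfold orient; ring
      rw [e3]
      linarith
    have h1 := Finset.card_le_card hE
    have h2 := Finset.card_insert_le (p 0) (insert (p 1) (insert (p 2) (ear X p 0)))
    have h3' := Finset.card_insert_le (p 1) (insert (p 2) (ear X p 0))
    have h4' := Finset.card_insert_le (p 2) (ear X p 0)
    have h5' := h5 0
    omega
  · have hd := ear_disjoint h4 pinj pX hull 0
    have a1 : 3 ≤ (ear X p 0 ∩ ear X p (0 - 1)).card := by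
      have := h3 (0 - 1)
      have e : (0 : ZMod h) - 1 + 1 = 0 := by ring
      rw [e] at this
      rwa [Finset.inter_comm]
    have a2 : 3 ≤ (ear X p 0 ∩ ear X p (0 + 1)).card := h3 0
    have a3 : Disjoint (ear X p 0 ∩ ear X p (0 - 1)) (ear X p 0 ∩ ear X p (0 + 1)) :=
      Finset.disjoint_of_subset_left Finset.inter_subset_right
        (Finset.disjoint_of_subset_right Finset.inter_subset_right hd)
    have a4 : (ear X p 0 ∩ ear X p (0 - 1) ∪ ear X p 0 ∩ ear X p (0 + 1)).card ≤
        (ear X p 0).card :=
      Finset.card_le_card (Finset.union_subset Finset.inter_subset_left Finset.inter_subset_left)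
    rw [Finset.card_union_of_disjoint a3, h5 0] at a4
    omega

end Exotic

end Pool.Agent.GCP
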