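import Pool.Agent.GCP.Defs

/-!
# Sorting a planar point set around an extreme point: signotope axioms
-/

namespace Pool.Agent.GCP

open Filter Topology

/-- The signotope axioms for a predicate on increasing triples of `1, ..., N`. -/
def IsSig (N : ℕ) (s : ℕ → ℕ → ℕ → Prop) : Prop :=
  ∀ i j k l, 1 ≤ i → i < j → j < k → k < l → l ≤ N →
    (¬ (s j k l ∧ ¬ s i k l ∧ s i j l) ∧ ¬ (¬ s j k l ∧ s i k l ∧ ¬ s i j l)) ∧
    (¬ (s j k l ∧ ¬ s i k l ∧ s i j k) ∧ ¬ (¬ s j k l ∧ s i k l ∧ ¬ s i j k)) ∧
    (¬ (s j k l ∧ ¬ s i j l ∧ s i j k) ∧ ¬ (¬ s j k l ∧ s i j l ∧ ¬ s i j k)) ∧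
    (¬ (s i k l ∧ ¬ s i j l ∧ s i j k) ∧ ¬ (¬ s i k l ∧ s i j l ∧ ¬ s i j k))

/-- Signed area in coordinates. -/
def dd (u v : ℕ → ℝ) (i j k : ℕ) : ℝ :=
  (u j - u i) * (v k - v i) - (v j - v i) * (u k - u i)

lemma three_aux {a b c x y z : ℝ} (ha : 0 < a) (hb : 0 < b) (hc : 0 < c)
    (h : a * x - b * y + c * z = 0) (hx : x ≠ 0) (hy : y ≠ 0) (hz : z ≠ 0) :
    ¬ (0 < x ∧ ¬ 0 < y ∧ 0 < z) ∧ ¬ (¬ 0 < x ∧ 0 < y ∧ ¬ 0 < z) := by
  constructor
  · rintro ⟨h1, h2, h3⟩
    have h2' : y < 0 := lt_of_le_of_ne (not_lt.1 h2) hy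
    have := mul_pos ha h1
    have := mul_pos hc h3
    have := mul_pos hb (neg_pos.2 h2')
    nlinarith
  · rintro ⟨h1, h2, h3⟩
    have h1' : x < 0 := lt_of_le_of_ne (not_lt.1 h1) hx
    have h3' : z < 0 := lt_of_le_of_ne (not_lt.1 h3) hz
    have := mul_pos ha (neg_pos.2 h1')
    have := mul_pos hc (neg_pos.2 h3')
    have := mul_pos hb h2
    nlinarith

lemma isSig_of_sorted {N : ℕ} {u v : ℕ → ℝ}
    (hu : ∀ i j, 1 ≤ i → i < j → j ≤ N → u i < u j)
    (hne : ∀ i j k, 1 ≤ i → i < j → j < k → k ≤ N → dd u v i j k ≠ 0) :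
    IsSig N (fun i j k => 0 < dd u v i j k) := by
  intro i j k l hi hij hjk hkl hl
  have uij := hu i j hi hij (by omega)
  have ujk := hu j k (by omega) hjk (by omega)
  have ukl := hu k l (by omega) hkl hl
  have n1 := hne j k l (by omega) hjk hkl hl
  have n2 := hne i k l hi (by omega) hkl hl
  have n3 := hne i j l hi hij (by omega) hl
  have n4 := hne i j k hi hij hjk (by omega)
  refine ⟨?_, ?_, ?_, ?_⟩
  · exact three_aux (a := u l - u i) (b := u l - u j) (c := u l - u k) (by linarith)
      (by linarith) (by linarith) (by unfold dd; ring) n1 n2 n3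
  · exact three_aux (a := u k - u i) (b := u k - u j) (c := u l - u k) (by linarith)
      (by linarith) (by linarith) (by unfold dd; ring) n1 n2 n4
  · exact three_aux (a := u j - u i) (b := u k - u j) (c := u l - u j) (by linarith)
      (by linarith) (by linarith) (by unfold dd; ring) n1 n3 n4
  · exact three_aux (a := u j - u i) (b := u k - u i) (c := u l - u i) (by linarith)
      (by linarith) (by linarith) (by unfold dd; ring) n2 n3 n4

/-- The lexicographically smallest point of a nonempty finite set, and a linear functional which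
is positive on the differences to the other points. -/
lemma exists_base (X : Finset Pt) (hX : X.Nonempty) :
    ∃ p ∈ X, ∃ e : ℝ, ∀ q ∈ X, q ≠ p → 0 < (q.1 - p.1) + e * (q.2 - p.2) := by
  obtain ⟨p, hp, hmin⟩ := Finset.exists_min_image X (fun q : Pt => toLex (q.1, q.2)) hX
  refine ⟨p, hp, ?_⟩
  have hev : ∀ q ∈ X, ∀ᶠ e : ℝ in 𝓝[>] 0, q ≠ p → 0 < (q.1 - p.1) + e * (q.2 - p.2) := by
    intro q hq
    by_cases hqp : q = p
    · exact Eventually.of_forall fun e h => absurd hqp h
    have h1 := hmin q hq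
    rw [Prod.Lex.le_iff] at h1
    simp only [ofLex_toLex] at h1
    rcases h1 with h1 | ⟨h1, h2⟩
    · have hc : Tendsto (fun e : ℝ => (q.1 - p.1) + e * (q.2 - p.2)) (𝓝[>] 0)
          (𝓝 ((q.1 - p.1) + 0 * (q.2 - p.2))) := by
        refine Tendsto.mono_left ?_ nhdsWithin_le_nhds
        exact Continuous.tendsto (by fun_prop) 0
      have h3 : (0 : ℝ) < (q.1 - p.1) + 0 * (q.2 - p.2) := by linarith
      filter_upwards [hc.eventually (lt_mem_nhds h3)] with e he _
      exact he
    · have h4 : p.2 < q.2 := by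
        refine lt_of_le_of_ne h2 ?_
        intro h5
        exact hqp (Prod.ext h1.symm h5.symm)
      filter_upwards [self_mem_nhdsWithin] with e he _
      have he' : 0 < e := he
      have := mul_pos he' (sub_pos.2 h4)
      rw [h1]
      linarith
  have hall := (Finset.eventually_all X).2 hev
  obtain ⟨e, he⟩ := hall.exists
  exact ⟨e, he⟩

/-- A point set in general position can be sorted around an extreme point. -/
theorem exists_sorted {X : Finset Pt} {N : ℕ} (hc : X.card = N + 1) (hX : GeneralPosition X) :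
    ∃ P : ℕ → Pt, X = (Finset.range (N + 1)).image P ∧
      (∀ i j, i < N + 1 → j < N + 1 → i ≠ j → P i ≠ P j) ∧
      (∀ i j, 1 ≤ i → i < j → j ≤ N → 0 < orient (P 0) (P i) (P j)) ∧
      IsSig N (fun i j k => 0 < orient (P i) (P j) (P k)) := by
  classical
  have hne : X.Nonempty := by
    rw [← Finset.card_pos]; omega
  obtain ⟨p, hp, e, he⟩ := exists_base X hne
  set Z := X.erase p with hZ
  have hZc : Z.card = N := by
    rw [hZ, Finset.card_erase_of_mem hp, hc]; rfl
  set x' : Pt → ℝ := fun q => (q.1 - p.1) + e * (q.2 - p.2) with hx'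
  have hpos : ∀ q ∈ Z, 0 < x' q := fun q hq =>
    he q (Finset.mem_of_mem_erase hq) (Finset.ne_of_mem_erase hq)
  set u' : Pt → ℝ := fun q => (q.2 - p.2) / x' q with hu'
  have horp : ∀ q ∈ Z, ∀ r ∈ Z, orient p q r = x' q * x' r * (u' r - u' q) := by
    intro q hq r hr
    have h1 := (hpos q hq).ne'
    have h2 := (hpos r hr).ne'
    simp only [hu']
    field_simp
    simp only [hx']
    unfold orient
    ring
  have hinj : Set.InjOn u' (Z : Set Pt) := by
    intro q hq r hr hqr
    by_contra hne'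
    have h1 := horp q hq r hr
    rw [hqr, sub_self, mul_zero] at h1
    exact orient_ne hX hp (Finset.mem_of_mem_erase hq) (Finset.mem_of_mem_erase hr)
      (Finset.ne_of_mem_erase hq).symm hne' (Finset.ne_of_mem_erase hr).symm h1
  have hUc : (Z.image u').card = N := by
    rw [Finset.card_image_of_injOn hinj, hZc]
  set E := (Z.image u').orderEmbOfFin hUc with hE
  have hEm : ∀ i : Fin N, ∃ q ∈ Z, u' q = E i := by
    intro i
    have := Finset.orderEmbOfFin_mem (Z.image u') hUc i
    rw [Finset.mem_image] at this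
    exact this
  choose F hFZ hFu using hEm
  set P : ℕ → Pt := fun i => if h : 1 ≤ i ∧ i ≤ N then F ⟨i - 1, by omega⟩ else p with hP
  have hP0 : P 0 = p := by simp [hP]
  have hPi : ∀ i (h : 1 ≤ i ∧ i ≤ N), P i = F ⟨i - 1, by omega⟩ := by
    intro i h
    simp only [hP]
    rw [dif_pos h]
  have hPZ : ∀ i, 1 ≤ i → i ≤ N → P i ∈ Z := by
    intro i h1 h2
    rw [hPi i ⟨h1, h2⟩]
    exact hFZ _
  have hPu : ∀ i j, 1 ≤ i → i < j → j ≤ N → u' (P i) < u' (P j) := by
    intro i j h1 h2 h3
    rw [hPi i ⟨h1, by omega⟩, hPi j ⟨by omega, h3⟩, hFu, hFu]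
    apply E.strictMono
    rw [Fin.lt_def]
    simp only
    omega
  have hdis : ∀ i j, i < N + 1 → j < N + 1 → i < j → P i ≠ P j := by
    intro i j hi hj hij
    rcases Nat.eq_zero_or_pos i with h0 | h0
    · subst h0
      rw [hP0]
      exact (Finset.ne_of_mem_erase (hPZ j (by omega) (by omega))).symm
    · intro h
      have := hPu i j h0 hij (by omega)
      rw [h] at this
      exact lt_irrefl _ this
  have hdis' : ∀ i j, i < N + 1 → j < N + 1 → i ≠ j → P i ≠ P j := by
    intro i j hi hj hij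
    rcases lt_or_gt_of_ne hij with h | h
    · exact hdis i j hi hj h
    · exact (hdis j i hj hi h).symm
  have hPX : ∀ i, i < N + 1 → P i ∈ X := by
    intro i hi
    rcases Nat.eq_zero_or_pos i with h0 | h0
    · subst h0; rw [hP0]; exact hp
    · exact Finset.mem_of_mem_erase (hPZ i h0 (by omega))
  refine ⟨P, ?_, hdis', ?_, ?_⟩
  · symm
    apply Finset.eq_of_subset_of_card_le
    · intro q hq
      rw [Finset.mem_image] at hq
      obtain ⟨i, hi, rfl⟩ := hq
      exact hPX i (Finset.mem_range.1 hi)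
    · rw [hc, Finset.card_image_of_injOn, Finset.card_range]
      intro i hi j hj hij
      by_contra hne'
      exact hdis' i j (by simpa using hi) (by simpa using hj) hne' hij
  · intro i j h1 h2 h3
    rw [hP0, horp _ (hPZ i h1 (by omega)) _ (hPZ j (by omega) h3)]
    have a1 := hpos _ (hPZ i h1 (by omega))
    have a2 := hpos _ (hPZ j (by omega) h3)
    have a3 := sub_pos.2 (hPu i j h1 h2 h3)
    positivity
  · -- orientations in the coordinates `u = y / x`, `v = 1 / x`
    set u : ℕ → ℝ := fun i => u' (P i) with hu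
    set v : ℕ → ℝ := fun i => 1 / x' (P i) with hv
    have hdet : ∀ i j k, 1 ≤ i → i < j → j < k → k ≤ N →
        orient (P i) (P j) (P k) = x' (P i) * x' (P j) * x' (P k) * dd u v i j k := by
      intro i j k h1 h2 h3 h4
      have a1 := (hpos _ (hPZ i h1 (by omega))).ne'
      have a2 := (hpos _ (hPZ j (by omega) (by omega))).ne'
      have a3 := (hpos _ (hPZ k (by omega) h4)).ne'
      simp only [dd, hu, hv, hu']
      field_simp
      simp only [hx']
      unfold orient
      ring
    have hpp : ∀ i j k, 1 ≤ i → i < j → j < k → k ≤ N →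
        0 < x' (P i) * x' (P j) * x' (P k) := by
      intro i j k h1 h2 h3 h4
      have a1 := (hpos _ (hPZ i h1 (by omega)))
      have a2 := (hpos _ (hPZ j (by omega) (by omega)))
      have a3 := (hpos _ (hPZ k (by omega) h4))
      positivity
    have hiff : ∀ i j k, 1 ≤ i → i < j → j < k → k ≤ N →
        ((0 < orient (P i) (P j) (P k)) ↔ 0 < dd u v i j k) := by
      intro i j k h1 h2 h3 h4
      rw [hdet i j k h1 h2 h3 h4]
      exact mul_pos_iff_of_pos_left (hpp i j k h1 h2 h3 h4)
    have hs : IsSig N (fun i j k => 0 < dd u v i j k) := by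
      refine isSig_of_sorted (fun i j h1 h2 h3 => hPu i j h1 h2 h3) ?_
      intro i j k h1 h2 h3 h4 h0
      have := hdet i j k h1 h2 h3 h4
      rw [h0, mul_zero] at this
      exact orient_ne hX (hPX i (by omega)) (hPX j (by omega)) (hPX k (by omega))
        (hdis i j (by omega) (by omega) h2) (hdis j k (by omega) (by omega) h3)
        (hdis i k (by omega) (by omega) (by omega)) this
    intro i j k l h1 h2 h3 h4 h5
    have := hs i j k l h1 h2 h3 h4 h5
    simp only at this ⊢
    rw [hiff j k l (by omega) h3 h4 h5, hiff i k l h1 (by omega) h4 h5,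
      hiff i j l h1 h2 (by omega) h5, hiff i j k h1 h2 h3 (by omega)]
    exact this

end Pool.Agent.GCP
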