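import Pool.Agent.GCP.Avg
import Pool.Agent.GCP.Sort

/-!
# The hull polygon of a finite set in general position (MP_062f91_co)

`HE X x y`: `x, y` is a hull edge in counterclockwise direction. The hull vertices form one cycle
`p : ZMod h → Pt`.
-/

namespace Pool.Agent.GCP

/-- hull edges, counterclockwise -/
def HE (X : Finset Pt) (x y : Pt) : Prop :=
  x ∈ X ∧ y ∈ X ∧ x ≠ y ∧ ∀ z ∈ X, z ≠ x → z ≠ y → 0 < orient x y z

namespace Hull

variable {X : Finset Pt}

lemma exists_HE (hX : GeneralPosition X) (hc : 2 ≤ X.card) : ∃ x y, HE X x y := by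
  obtain ⟨N, hN⟩ : ∃ N, X.card = N + 1 := ⟨X.card - 1, by omega⟩
  obtain ⟨P, h1, h2, h3, -⟩ := exists_sorted hN hX
  refine ⟨P 0, P 1, ?_, ?_, h2 0 1 (by omega) (by omega) (by omega), ?_⟩
  · rw [h1]; exact Finset.mem_image_of_mem _ (Finset.mem_range.2 (by omega))
  · rw [h1]; exact Finset.mem_image_of_mem _ (Finset.mem_range.2 (by omega))
  · intro z hz hz0 hz1
    rw [h1, Finset.mem_image] at hz
    obtain ⟨j, hj, rfl⟩ := hz
    rw [Finset.mem_range] at hj
    have hj0 : j ≠ 0 := by rintro rfl; exact hz0 rfl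
    have hj1 : j ≠ 1 := by rintro rfl; exact hz1 rfl
    exact h3 1 j (by omega) (by omega) (by omega)

lemma HE.next (hX : GeneralPosition X) (hc : 3 ≤ X.card) {v w : Pt} (h : HE X v w) :
    ∃ r, HE X w r := by
  classical
  obtain ⟨hv, hw, hvw, hz⟩ := h
  set S := (X.erase v).erase w with hS
  have hSc : S.Nonempty := by
    rw [← Finset.card_pos, hS, Finset.card_erase_of_mem (Finset.mem_erase.2 ⟨hvw.symm, hw⟩),
      Finset.card_erase_of_mem hv]
    omega
  have hSm : ∀ z, z ∈ S ↔ z ≠ w ∧ z ≠ v ∧ z ∈ X := by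
    intro z; rw [hS, Finset.mem_erase, Finset.mem_erase]
  -- the reflected statement: first in the order given by `e = 2 w - v`
  have hneg : ∀ z ∈ S, orient w v z < 0 := by
    intro z hz'
    obtain ⟨a1, a2, a3⟩ := (hSm z).1 hz'
    rw [orient_swap]
    have := hz z a3 a2 a1
    linarith
  obtain ⟨r, hr, hmax⟩ : ∃ r ∈ S, ∀ z ∈ S, ¬ orient w r z < 0 := by
    let F : Pt → ℝ := fun z => ((z.1 - w.1) * (v.1 - w.1) + (z.2 - w.2) * (v.2 - w.2)) /
      (-orient w v z)
    obtain ⟨r, hr, hmin⟩ := S.exists_min_image F hSc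
    refine ⟨r, hr, ?_⟩
    intro z hz' hlt
    have h1 := hmin z hz'
    have hz1 := hneg z hz'
    have hr1 := hneg r hr
    simp only [F] at h1
    rw [div_le_div_iff₀ (by linarith) (by linarith)] at h1
    have heo : 0 < (v.1 - w.1) ^ 2 + (v.2 - w.2) ^ 2 := by
      by_contra h0
      have e1 : v.1 - w.1 = 0 := by nlinarith [sq_nonneg (v.1 - w.1), sq_nonneg (v.2 - w.2)]
      have e2 : v.2 - w.2 = 0 := by nlinarith [sq_nonneg (v.1 - w.1), sq_nonneg (v.2 - w.2)]
      exact hvw (Prod.ext (by linarith) (by linarith))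
    have key : ((r.1 - w.1) * (v.1 - w.1) + (r.2 - w.2) * (v.2 - w.2)) * (-orient w v z) -
        ((z.1 - w.1) * (v.1 - w.1) + (z.2 - w.2) * (v.2 - w.2)) * (-orient w v r) =
        -(((v.1 - w.1) ^ 2 + (v.2 - w.2) ^ 2) * orient w r z) := by
      unfold orient; ring
    have h2 := mul_neg_of_pos_of_neg heo hlt
    linarith
  obtain ⟨r1, r2, r3⟩ := (hSm r).1 hr
  refine ⟨r, hw, r3, r1.symm, ?_⟩
  intro z hzX z1 z2
  by_cases hzv : z = v
  · rw [hzv, orient_swap']
    have := hneg r hr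
    linarith
  · have h1 := hmax z ((hSm z).2 ⟨z1, hzv, hzX⟩)
    exact lt_of_le_of_ne (not_lt.1 h1) (orient_ne hX hw r3 hzX r1.symm z2.symm z1.symm).symm

lemma HE.unique {v w w' : Pt} (h : HE X v w) (h' : HE X v w') : w = w' := by
  by_contra hne
  have h1 := h.2.2.2 w' h'.2.1 h'.2.2.1.symm (Ne.symm hne)
  have h2 := h'.2.2.2 w h.2.1 h.2.2.1.symm hne
  rw [orient_swap'] at h2
  linarith

lemma HE.unique' {v v' w : Pt} (h : HE X v w) (h' : HE X v' w) : v = v' := by
  by_contra hne
  have h1 := h.2.2.2 v' h'.1 (Ne.symm hne) h'.2.2.1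
  have h2 := h'.2.2.2 v h.1 hne h.2.2.1
  have h3 : orient v' w v = - orient v w v' := by unfold orient; ring
  rw [h3] at h2
  linarith

/-- a hull vertex is not inside a triangle -/
lemma not_inside {v w x y t : Pt} (h : HE X v w) (hx : x ∈ X) (hy : y ∈ X) (ht : t ∈ X)
    (hxv : x ≠ v) (hyv : y ≠ v) (htv : t ≠ v) (hxy : x ≠ y) (hyt : y ≠ t) (hxt : x ≠ t)
    (h1 : 0 < orient x y v) (h2 : 0 < orient y t v) (h3 : 0 < orient t x v) : False := by
  have key : orient y t v * orient v w x + orient t x v * orient v w y +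
      orient x y v * orient v w t = 0 := by unfold orient; ring
  have pos : ∀ z ∈ X, z ≠ v → 0 ≤ orient v w z := by
    intro z hz hzv
    by_cases hzw : z = w
    · rw [hzw]; simp
    · exact (h.2.2.2 z hz hzv hzw).le
  have p1 := mul_nonneg h2.le (pos x hx hxv)
  have p2 := mul_nonneg h3.le (pos y hy hyv)
  have p3 := mul_nonneg h1.le (pos t ht htv)
  by_cases hxw : x = w
  · have hyw : y ≠ w := fun h0 => hxy (hxw.trans h0.symm)
    have := mul_pos h3 (h.2.2.2 y hy hyv hyw)
    linarith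
  · have := mul_pos h2 (h.2.2.2 x hx hxv hxw)
    linarith

/-- the set of hull vertices -/
def HV (X : Finset Pt) (x : Pt) : Prop := ∃ w, HE X x w

lemma exists_cycle (hX : GeneralPosition X) (hc : 3 ≤ X.card) :
    ∃ (h : ℕ) (p : ZMod h → Pt), 3 ≤ h ∧ Function.Injective p ∧ ∀ i, HE X (p i) (p (i + 1)) := by
  classical
  let H : Type := {x : X // HV X x.1}
  haveI : Finite H := inferInstance
  have hnext : ∀ x : H, ∃ y : H, HE X x.1.1 y.1.1 := by
    intro x
    obtain ⟨w, hw⟩ := x.2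
    exact ⟨⟨⟨w, hw.2.1⟩, HE.next hX hc hw⟩, hw⟩
  choose σ hσ using hnext
  have hinj : Function.Injective σ := by
    intro x y hxy
    have h1 := hσ x
    have h2 := hσ y
    rw [← hxy] at h2
    exact Subtype.ext (Subtype.ext (HE.unique' h1 h2))
  obtain ⟨x0, y0, h0⟩ := exists_HE hX (by omega)
  let a : H := ⟨⟨x0, h0.1⟩, ⟨y0, h0⟩⟩
  have hper : a ∈ Function.periodicPts σ := by
    exact (hinj.mem_periodicPts a)
  set h := Function.minimalPeriod σ a with hh
  have hpos : 0 < h := Function.minimalPeriod_pos_of_mem_periodicPts hper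
  haveI : NeZero h := ⟨hpos.ne'⟩
  have hmod : ∀ n, σ^[n % h] a = σ^[n] a := fun n => Function.iterate_mod_minimalPeriod_eq
  let p : ZMod h → Pt := fun i => (σ^[i.val] a).1.1
  have hp1 : ∀ i, HE X (p i) (p (i + 1)) := by
    intro i
    have h1 := hσ (σ^[i.val] a)
    have h2 : σ (σ^[i.val] a) = σ^[(i + 1).val] a := by
      rw [← Function.iterate_succ_apply' σ i.val a]
      have h3 : (i + 1).val = (i.val + 1) % h := by
        rw [ZMod.val_add, ZMod.val_one_eq_one_mod, Nat.add_mod_mod]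
      rw [h3, hmod]
    rw [h2] at h1
    exact h1
  have hpinj : Function.Injective p := by
    intro i j hij
    have h1 : σ^[i.val] a = σ^[j.val] a := Subtype.ext (Subtype.ext hij)
    have h2 := Function.iterate_injOn_Iio_minimalPeriod (f := σ) (x := a)
      (Set.mem_Iio.2 (ZMod.val_lt i)) (Set.mem_Iio.2 (ZMod.val_lt j)) h1
    exact ZMod.val_injective h h2
  refine ⟨h, p, ?_, hpinj, hp1⟩
  by_contra hlt
  have hcases : h = 1 ∨ h = 2 := by omega
  rcases hcases with h1 | h1
  · have h2 := (hp1 0).2.2.1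
    apply h2
    congr 1
    have : Subsingleton (ZMod h) := by rw [h1]; infer_instance
    exact Subsingleton.elim _ _
  · have e0 := hp1 0
    have e1 := hp1 (0 + 1)
    have h3 : (0 : ZMod h) + 1 + 1 = 0 := by
      have : ((2 : ℕ) : ZMod h) = 0 := by rw [← h1]; exact ZMod.natCast_self h
      push_cast at this
      rw [zero_add, one_add_one_eq_two]
      exact this
    rw [h3] at e1
    obtain ⟨z, hz⟩ : ∃ z ∈ X, z ≠ p 0 ∧ z ≠ p (0 + 1) := by
      by_contra hcon
      push Not at hcon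
      have hsub : X ⊆ {p 0, p (0 + 1)} := by
        intro z hz
        rw [Finset.mem_insert, Finset.mem_singleton]
        by_cases hz0 : z = p 0
        · exact Or.inl hz0
        · exact Or.inr (hcon z hz hz0)
      have := (Finset.card_le_card hsub).trans Finset.card_le_two
      omega
    have f0 := e0.2.2.2 z hz.1 hz.2.1 hz.2.2
    have f1 := e1.2.2.2 z hz.1 hz.2.2 hz.2.1
    rw [orient_swap] at f1
    linarith

/-- Angular position of a hull vertex `v` seen from `p i`. -/
lemma ang {h : ℕ} {p : ZMod h → Pt} (hX : GeneralPosition X)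
    (hp : ∀ i, HE X (p i) (p (i + 1))) (i : ZMod h) {v w : Pt} (hv : HE X v w) :
    ∀ k : ℕ, 1 ≤ k → (∀ j : ℕ, j ≤ k → v ≠ p (i + j)) →
      (∀ j : ℕ, 1 ≤ j → j ≤ k → p (i + j) ≠ p i) → 0 < orient (p i) (p (i + k)) v := by
  intro k
  induction k with
  | zero => intro h; omega
  | succ k ih =>
    intro _ h2 h3
    have hv0 : v ≠ p i := by simpa using h2 0 (by omega)
    have hv1 : v ≠ p (i + ((k + 1 : ℕ) : ZMod h)) := h2 (k + 1) le_rfl
    rcases Nat.eq_zero_or_pos k with h0 | h0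
    · subst h0
      have e : i + ((0 + 1 : ℕ) : ZMod h) = i + 1 := by push_cast; ring
      rw [e] at hv1 ⊢
      exact (hp i).2.2.2 v hv.1 hv0 hv1
    · have h4 := ih h0 (fun j hj => h2 j (by omega)) (fun j hj hj' => h3 j hj (by omega))
      have hk : v ≠ p (i + (k : ZMod h)) := h2 k (by omega)
      have e : i + ((k + 1 : ℕ) : ZMod h) = i + (k : ZMod h) + 1 := by push_cast; ring
      have hne0 : p i ≠ p (i + (k : ZMod h)) := (h3 k h0 (by omega)).symm
      have hne1 : p i ≠ p (i + (k : ZMod h) + 1) := by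
        rw [← e]; exact (h3 (k + 1) (by omega) le_rfl).symm
      rw [e] at hv1 ⊢
      have hE := hp (i + (k : ZMod h))
      have h5 : 0 < orient (p (i + (k : ZMod h))) (p (i + (k : ZMod h) + 1)) v :=
        hE.2.2.2 v hv.1 hk hv1
      rcases lt_or_gt_of_ne (orient_ne hX (hp i).1 hE.2.1 hv.1 hne1 hv1.symm hv0.symm) with h6 | h6
      · exfalso
        refine not_inside hv (hp i).1 hE.1 hE.2.1 hv0.symm hk.symm hv1.symm hne0 hE.2.2.1 hne1
          h4 h5 ?_
        rw [orient_swap]; linarith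
      · exact h6

/-- Every hull vertex occurs in the cycle. -/
lemma complete {h : ℕ} {p : ZMod h → Pt} (hX : GeneralPosition X) (hh : 3 ≤ h)
    (pinj : Function.Injective p) (hp : ∀ i, HE X (p i) (p (i + 1))) {v w : Pt}
    (hv : HE X v w) : ∃ i, v = p i := by
  by_contra hcon
  push Not at hcon
  have h1 := ang hX hp 0 hv (h - 1) (by omega) (fun j _ => hcon _) (by
    intro j h2 h3 h4
    have h5 := pinj h4
    rw [zero_add] at h5
    rw [ZMod.natCast_eq_zero_iff] at h5
    have := Nat.le_of_dvd (by omega) h5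
    omega)
  have e : (0 : ZMod h) + ((h - 1 : ℕ) : ZMod h) + 1 = 0 := by
    rw [zero_add]
    have : (((h - 1) + 1 : ℕ) : ZMod h) = 0 := by
      rw [show h - 1 + 1 = h by omega]; exact ZMod.natCast_self h
    rw [Nat.cast_add, Nat.cast_one] at this
    exact this
  have h2 := hp ((0 : ZMod h) + ((h - 1 : ℕ) : ZMod h))
  rw [e] at h2
  have h3 := h2.2.2.2 v hv.1 (hcon _) (hcon _)
  rw [orient_swap] at h3
  linarith

/-- The hull vertices are in convex position, in counterclockwise order. -/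
lemma convex_order {h : ℕ} {p : ZMod h → Pt} (hX : GeneralPosition X)
    (pinj : Function.Injective p) (hp : ∀ i, HE X (p i) (p (i + 1))) (i : ZMod h) {a b : ℕ}
    (ha : 0 < a) (hab : a < b) (hb : b < h) :
    0 < orient (p i) (p (i + (a : ZMod h))) (p (i + (b : ZMod h))) := by
  have key : ∀ j k : ℕ, j < h → k < h → j ≠ k →
      p (i + (j : ZMod h)) ≠ p (i + (k : ZMod h)) := by
    intro j k h1 h2 h3 h4
    have h5 := add_left_cancel (pinj h4)
    rw [ZMod.natCast_eq_natCast_iff'] at h5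
    rw [Nat.mod_eq_of_lt h1, Nat.mod_eq_of_lt h2] at h5
    exact h3 h5
  refine ang hX hp i (hp (i + (b : ZMod h))) a ha ?_ ?_
  · intro j hj
    exact key b j hb (by omega) (by omega)
  · intro j h1 h2
    have := key j 0 (by omega) (by omega) (by omega)
    simpa using this

/-- The hull polygon. -/
theorem exists_hull (hX : GeneralPosition X) (hc : 3 ≤ X.card) :
    ∃ (h : ℕ) (p : ZMod h → Pt), 3 ≤ h ∧ Function.Injective p ∧ (∀ i, p i ∈ X) ∧
      (∀ i, ∀ z ∈ X, z ≠ p i → z ≠ p (i + 1) → 0 < orient (p i) (p (i + 1)) z) ∧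
      (∀ v w, HE X v w → ∃ i, v = p i ∧ w = p (i + 1)) ∧
      (∀ (i : ZMod h) (a b : ℕ), 0 < a → a < b → b < h →
        0 < orient (p i) (p (i + (a : ZMod h))) (p (i + (b : ZMod h)))) := by
  obtain ⟨h, p, h1, h2, h3⟩ := exists_cycle hX hc
  refine ⟨h, p, h1, h2, fun i => (h3 i).1, fun i => (h3 i).2.2.2, ?_, ?_⟩
  · intro v w hvw
    obtain ⟨i, rfl⟩ := complete hX h1 h2 h3 hvw
    exact ⟨i, rfl, HE.unique hvw (h3 i)⟩
  · intro i a b ha hab hb
    exact convex_order hX h2 h3 i ha hab hb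

/-- A point which is strictly beyond all others for some linear functional is a hull vertex. -/
lemma HV_of_max (hX : GeneralPosition X) (hc : 2 ≤ X.card) {v : Pt} (hv : v ∈ X) {s t : ℝ}
    (hmax : ∀ z ∈ X, z ≠ v → s * z.1 + t * z.2 < s * v.1 + t * v.2) : HV X v := by
  classical
  -- the direction `e = v + (-t, s)` has all other points on its left
  have hneg : ∀ z ∈ X, z ≠ v → 0 < orient v (v.1 - t, v.2 + s) z := by
    intro z hz hzv
    have h1 := hmax z hz hzv
    have h2 : orient v (v.1 - t, v.2 + s) z = (s * v.1 + t * v.2) - (s * z.1 + t * z.2) := by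
      unfold orient; ring
    rw [h2]; linarith
  set S := X.erase v with hS
  have hSc : S.Nonempty := by
    rw [← Finset.card_pos, hS, Finset.card_erase_of_mem hv]; omega
  obtain ⟨r, hr, hmin⟩ : ∃ r ∈ S, ∀ z ∈ S, ¬ orient v r z < 0 := by
    let e : Pt := (v.1 - t, v.2 + s)
    let F : Pt → ℝ := fun z => ((z.1 - v.1) * (e.1 - v.1) + (z.2 - v.2) * (e.2 - v.2)) /
      (orient v e z)
    have hpos : ∀ z ∈ S, 0 < orient v e z := fun z hz =>
      hneg z (Finset.mem_of_mem_erase hz) (Finset.ne_of_mem_erase hz)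
    obtain ⟨r, hr, hmin⟩ := S.exists_max_image F hSc
    refine ⟨r, hr, ?_⟩
    intro z hz' hlt
    have h1 := hmin z hz'
    have hz1 := hpos z hz'
    have hr1 := hpos r hr
    simp only [F] at h1
    rw [div_le_div_iff₀ hz1 hr1] at h1
    have heo : 0 < (e.1 - v.1) ^ 2 + (e.2 - v.2) ^ 2 := by
      by_contra h0
      have e1 : e.1 - v.1 = 0 := by nlinarith [sq_nonneg (e.1 - v.1), sq_nonneg (e.2 - v.2)]
      have e2 : e.2 - v.2 = 0 := by nlinarith [sq_nonneg (e.1 - v.1), sq_nonneg (e.2 - v.2)]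
      unfold orient at hz1
      rw [e1, e2] at hz1
      linarith
    have key : ((z.1 - v.1) * (e.1 - v.1) + (z.2 - v.2) * (e.2 - v.2)) * (orient v e r) -
        ((r.1 - v.1) * (e.1 - v.1) + (r.2 - v.2) * (e.2 - v.2)) * (orient v e z) =
        -(((e.1 - v.1) ^ 2 + (e.2 - v.2) ^ 2) * orient v r z) := by
      unfold orient; ring
    have h2 := mul_neg_of_pos_of_neg heo hlt
    linarith
  have hr1 := Finset.mem_of_mem_erase hr
  have hr2 := Finset.ne_of_mem_erase hr
  refine ⟨r, hv, hr1, hr2.symm, ?_⟩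
  intro z hz z1 z2
  have h1 := hmin z (Finset.mem_erase.2 ⟨z1, hz⟩)
  exact lt_of_le_of_ne (not_lt.1 h1) (orient_ne hX hv hr1 hz hr2.symm z2.symm z1.symm).symm

end Hull

end Pool.Agent.GCP
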