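import Pool.Agent.GCP.Sweep

/-!
# Functions which do not increase along the sweep (MP_062f91_co)
-/

namespace Pool.Agent.GCP

namespace Sweep

lemma exists_srt (X : Finset Pt) (w : Pt) : ∃ P, Srt X w P := by
  classical
  set n := X.card with hn
  let e : X ≃ Fin n := X.equivFin
  let g : Fin n → ℝ := fun i => - ht w (e.symm i).1
  let σ : Equiv.Perm (Fin n) := Tuple.sort g
  have hmono : Monotone (g ∘ σ) := Tuple.monotone_sort g
  refine ⟨fun i => if h : i < n then (e.symm (σ ⟨i, h⟩)).1 else 0, ?_, ?_, ?_, ?_⟩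
  · intro i hi
    simp only [dif_pos (show i < n from hi)]
    exact (e.symm _).2
  · intro i j hi hj hij
    simp only [dif_pos (show i < n from hi), dif_pos (show j < n from hj)] at hij
    have h1 := e.symm.injective (Subtype.ext hij)
    have h2 := σ.injective h1
    exact congrArg Fin.val h2
  · intro i j hij hj
    have hi : i < n := lt_trans hij hj
    simp only [dif_pos hi, dif_pos (show j < n from hj)]
    have h1 := hmono (show (⟨i, hi⟩ : Fin n) ≤ ⟨j, hj⟩ from hij.le)
    simp only [Function.comp, g] at h1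
    linarith
  · intro i hi
    simp only [dif_neg (show ¬ i < n from not_lt.2 hi)]

/-- rotation by a right angle -/
def rot (w : Pt) : Pt := (-w.2, w.1)

lemma crs_rot {w : Pt} (hw : w ≠ 0) : 0 < crs w (rot w) := by
  have e : crs w (rot w) = w.1 ^ 2 + w.2 ^ 2 := by unfold crs rot; ring
  rw [e]
  by_contra hc
  apply hw
  have : w.1 = 0 := by nlinarith [sq_nonneg w.1, sq_nonneg w.2]
  have : w.2 = 0 := by nlinarith [sq_nonneg w.1, sq_nonneg w.2]
  ext <;> assumption

lemma rot_ne {w : Pt} (hw : w ≠ 0) : rot w ≠ 0 := by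
  intro h
  apply hw
  have h1 : -w.2 = 0 := congrArg Prod.fst h
  have h2 : w.1 = 0 := congrArg Prod.snd h
  ext
  · exact h2
  · simpa using h1

section
variable {X : Finset Pt} (hX : GeneralPosition X) {f : (ℕ → Pt) → ℕ}
  (hf : ∀ w j P P', w ≠ 0 → Stp X w j P P' → f P' ≤ f P)

include hX hf

lemma le_of_crs {w w' : Pt} (h : 0 < crs w w') {P P' : ℕ → Pt} (hP : Srt X w P)
    (hP' : Srt X w' P') : f P' ≤ f P := by
  refine sweep hX h hP hP' (fun R => f R ≤ f P) ?_ le_rfl
  intro t j R R' _ _ hst hR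
  exact (hf _ j R R' (seg_ne h t) hst).trans hR

lemma rank_le {w w' : Pt} (hw : w ≠ 0) (hw' : w' ≠ 0) {P P' : ℕ → Pt} (hP : Srt X w P)
    (hP' : Srt X w' P') : f P' ≤ f P := by
  have neg : ∀ {w w' : Pt}, w ≠ 0 → crs w w' < 0 → ∀ {P P' : ℕ → Pt}, Srt X w P → Srt X w' P' →
      f P' ≤ f P := by
    intro w w' hw h P P' hP hP'
    obtain ⟨P1, h1⟩ := exists_srt X (rot w)
    obtain ⟨P2, h2⟩ := exists_srt X (rot (rot w))
    have a1 := le_of_crs hX hf (crs_rot hw) hP h1
    have a2 := le_of_crs hX hf (crs_rot (rot_ne hw)) h1 h2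
    have a3 : f P' ≤ f P2 := by
      refine le_of_crs hX hf ?_ h2 hP'
      have : crs (rot (rot w)) w' = - crs w w' := by unfold crs rot; ring
      linarith
    exact a3.trans (a2.trans a1)
  rcases lt_trichotomy (crs w w') 0 with h | h | h
  · exact neg hw h hP hP'
  · obtain ⟨P1, h1⟩ := exists_srt X (rot w)
    have a1 := le_of_crs hX hf (crs_rot hw) hP h1
    refine le_trans ?_ a1
    -- the direction `w'` is parallel to `w`
    rcases lt_trichotomy (crs (rot w) w') 0 with h2 | h2 | h2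
    · exact neg (rot_ne hw) h2 h1 hP'
    · exfalso
      have e1 : w.1 * w'.2 - w.2 * w'.1 = 0 := h
      have e2 : -w.2 * w'.2 - w.1 * w'.1 = 0 := h2
      have hn : 0 < w.1 ^ 2 + w.2 ^ 2 := by
        have := crs_rot hw
        have e : crs w (rot w) = w.1 ^ 2 + w.2 ^ 2 := by unfold crs rot; ring
        rwa [e] at this
      have k1 : (w.1 ^ 2 + w.2 ^ 2) * w'.1 = 0 := by
        have : (w.1 ^ 2 + w.2 ^ 2) * w'.1 = -(w.1 * (-w.2 * w'.2 - w.1 * w'.1)) -
          w.2 * (w.1 * w'.2 - w.2 * w'.1) := by ring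
        rw [this, e1, e2]; ring
      have k2 : (w.1 ^ 2 + w.2 ^ 2) * w'.2 = 0 := by
        have : (w.1 ^ 2 + w.2 ^ 2) * w'.2 = -(w.2 * (-w.2 * w'.2 - w.1 * w'.1)) +
          w.1 * (w.1 * w'.2 - w.2 * w'.1) := by ring
        rw [this, e1, e2]; ring
      exact hw' (Prod.ext ((mul_eq_zero.1 k1).resolve_left hn.ne')
        ((mul_eq_zero.1 k2).resolve_left hn.ne'))
    · exact le_of_crs hX hf h2 h1 hP'
  · exact le_of_crs hX hf h hP hP'

lemma rank_eq {w w' : Pt} (hw : w ≠ 0) (hw' : w' ≠ 0) {P P' : ℕ → Pt} (hP : Srt X w P)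
    (hP' : Srt X w' P') : f P' = f P :=
  le_antisymm (rank_le hX hf hw hw' hP hP') (rank_le hX hf hw' hw hP' hP)

end

/-- a swap of the two highest points occurs -/
lemma exists_top {X : Finset Pt} (hX : GeneralPosition X) (hc : 3 ≤ X.card) :
    ∃ w P P', w ≠ 0 ∧ Stp X w 0 P P' := by
  classical
  by_contra hno
  push Not at hno
  have hw : ((1, 0) : Pt) ≠ 0 := by
    intro h
    have : (1 : ℝ) = 0 := congrArg Prod.fst h
    norm_num at this
  obtain ⟨P, hP⟩ := exists_srt X (1, 0)
  -- the highest point never changes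
  let f : (ℕ → Pt) → ℕ := fun R => if R 0 = P 0 then 0 else 1
  have hf : ∀ w j R R', w ≠ 0 → Stp X w j R R' → f R' ≤ f R := by
    intro w j R R' hw hst
    have hj : j ≠ 0 := by
      rintro rfl
      exact hno w R R' hw hst
    have h0 : R' 0 = R 0 := by
      rw [hst.eq 0, Equiv.swap_apply_of_ne_of_ne (by omega) (by omega)]
    simp only [f]
    rw [h0]
  have hall : ∀ w R, w ≠ 0 → Srt X w R → R 0 = P 0 := by
    intro w R hw' hR
    have := rank_le hX hf hw hw' hP hR
    by_contra h
    simp only [f, if_neg h, if_true] at this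
    omega
  have hneg : ((-1, 0) : Pt) ≠ 0 := by
    intro h
    have : (-1 : ℝ) = 0 := congrArg Prod.fst h
    norm_num at this
  obtain ⟨R, hR⟩ := exists_srt X (-1, 0)
  have h0 := hall _ R hneg hR
  have htop : ∀ z ∈ X, ht (1, 0) z = ht (1, 0) (P 0) := by
    intro z hz
    apply le_antisymm
    · obtain ⟨i, hi, rfl⟩ := surj hP hz
      rcases Nat.eq_zero_or_pos i with h | h
      · rw [h]
      · exact hP.mono 0 i h hi
    · obtain ⟨i, hi, rfl⟩ := surj hR hz
      have h1 : ht (-1, 0) (R i) ≤ ht (-1, 0) (R 0) := by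
        rcases Nat.eq_zero_or_pos i with h | h
        · rw [h]
        · exact hR.mono 0 i h hi
      rw [h0] at h1
      unfold ht at h1 ⊢
      simp only at h1 ⊢
      linarith
  have ne : ∀ i j, i < 3 → j < 3 → i ≠ j → P i ≠ P j := by
    intro i j hi hj hij h
    exact hij (hP.inj i j (by omega) (by omega) h)
  exact no_tie hX hw (hP.mem 0 (by omega)) (hP.mem 1 (by omega)) (hP.mem 2 (by omega))
    (ne 0 1 (by omega) (by omega) (by omega)) (ne 1 2 (by omega) (by omega) (by omega))
    (ne 0 2 (by omega) (by omega) (by omega))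
    (by rw [htop _ (hP.mem 1 (by omega))])
    (by rw [htop _ (hP.mem 1 (by omega)), htop _ (hP.mem 2 (by omega))])

/-- A rank which does not increase along the sweep, and which is preserved at a swap of the two
highest points only if it is good, is good everywhere and constant. -/
theorem rank_good {X : Finset Pt} (hX : GeneralPosition X) (hc : 3 ≤ X.card)
    {f : (ℕ → Pt) → ℕ} (hf : ∀ w j P P', w ≠ 0 → Stp X w j P P' → f P' ≤ f P)
    {Good : ℕ → Prop} (hg : ∀ w P P', w ≠ 0 → Stp X w 0 P P' → f P' = f P → Good (f P)) :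
    ∃ c, Good c ∧ ∀ w P, w ≠ 0 → Srt X w P → f P = c := by
  obtain ⟨w, P, P', hw, hst⟩ := exists_top hX hc
  refine ⟨f P, hg w P P' hw hst (rank_eq hX hf hw hw hst.s hst.s'), ?_⟩
  intro w' R hw' hR
  exact rank_eq hX hf hw hw' hst.s hR

end Sweep

end Pool.Agent.GCP
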