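import Pool.Agent.GCP.E116
import Pool.Agent.GCP.Hull
import Pool.Agent.GCP.Rank

/-!
# The exotic component is impossible for at least 13 points (MP_062f91_co)

In every exotic state each of the two hull vertices among the top seven has a companion, whose
position (at most `5`) is a function of the state, and the companions are preserved by all moves.
Hence the line through a hull vertex `p` and its companion `z` has at most five points on each side.
-/

namespace Pool.Agent.GCP

namespace Exo

/-- The adjacent transposition `j, j+1`. -/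
def tau (j a : ℕ) : ℕ := if a = j then j + 1 else if a = j + 1 then j else a

/-- Sign function after the swap `j, j+1`. -/
def gs (j : ℕ) (f : ℕ → ℕ → ℕ → Bool) (a b c : ℕ) : Bool :=
  if (a = j ∧ b = j + 1) ∨ (b = j ∧ c = j + 1) then !(f a b c)
  else f (tau j a) (tau j b) (tau j c)

/-- The 35 triples `a < b < c < 7` in colexicographic order. -/
def trip : List (ℕ × ℕ × ℕ) :=
  (List.range 7).flatMap fun c => (List.range c).flatMap fun b => (List.range b).map fun a =>
    (a, b, c)

/-- Bits to a number, lowest first. -/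
def enc : List Bool → ℕ
  | [] => 0
  | b :: l => 2 * enc l + cond b 1 0

lemma enc_inj : ∀ {l l' : List Bool}, l.length = l'.length → enc l = enc l' → l = l'
  | [], [], _, _ => rfl
  | [], _ :: _, h, _ => by simp at h
  | _ :: _, [], h, _ => by simp at h
  | b :: l, b' :: l', h, he => by
    simp only [enc] at he
    have h1 : enc l = enc l' := by
      cases b <;> cases b' <;> simp at he <;> omega
    have h2 : b = b' := by
      rw [h1] at he
      cases b <;> cases b' <;> simp at he <;> rfl
    have h3 : l.length = l'.length := by simpa using h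
    rw [h2, enc_inj h3 h1]

lemma enc_mod : ∀ (k : ℕ) (l : List Bool), enc l % 2 ^ k = enc (l.take k)
  | 0, l => by simp [enc, Nat.mod_one]
  | k + 1, [] => by simp [enc]
  | k + 1, b :: l => by
    have ih := enc_mod k l
    simp only [List.take_succ_cons, enc]
    rw [← ih, pow_succ]
    have h1 : cond b 1 0 < 2 := by cases b <;> simp
    rw [mul_comm (2 ^ k) 2, Nat.mod_mul]
    have h2 : (2 * enc l + cond b 1 0) % 2 = cond b 1 0 := by omega
    have h3 : (2 * enc l + cond b 1 0) / 2 = enc l := by omega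
    rw [h2, h3]
    ring

/-- The code of a sign function. -/
def code (f : ℕ → ℕ → ℕ → Bool) : ℕ := enc (trip.map fun t => f t.1 t.2.1 t.2.2)

/-- The code of a hull predicate. -/
def mcode (m : ℕ → Bool) : ℕ := enc ((List.range 7).map m)

lemma mem_trip {a b c : ℕ} : (a, b, c) ∈ trip ↔ a < b ∧ b < c ∧ c < 7 := by
  simp only [trip, List.mem_flatMap, List.mem_range, List.mem_map, Prod.mk.injEq]
  constructor
  · rintro ⟨c', hc, b', hb, a', ha, rfl, rfl, rfl⟩
    exact ⟨ha, hb, hc⟩
  · rintro ⟨h1, h2, h3⟩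
    exact ⟨c, h3, b, h2, a, h1, rfl, rfl, rfl⟩

lemma code_eq {f g : ℕ → ℕ → ℕ → Bool} :
    code f = code g ↔ ∀ a b c, a < b → b < c → c < 7 → f a b c = g a b c := by
  constructor
  · intro h a b c h1 h2 h3
    have := enc_inj (by simp) h
    have h4 := (List.map_inj_left.1 this) (a, b, c) (mem_trip.2 ⟨h1, h2, h3⟩)
    exact h4
  · intro h
    unfold code
    congr 1
    apply List.map_inj_left.2
    rintro ⟨a, b, c⟩ ht
    obtain ⟨h1, h2, h3⟩ := mem_trip.1 ht
    exact h a b c h1 h2 h3

lemma mcode_eq {f g : ℕ → Bool} : mcode f = mcode g ↔ ∀ i < 7, f i = g i := by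
  constructor
  · intro h i hi
    have := enc_inj (by simp) h
    exact (List.map_inj_left.1 this) i (List.mem_range.2 hi)
  · intro h
    unfold mcode
    congr 1
    exact List.map_inj_left.2 fun i hi => h i (List.mem_range.1 hi)

lemma take_trip : ∀ t ∈ trip.take 20, t.1 < t.2.1 ∧ t.2.1 < t.2.2 ∧ t.2.2 < 6 := by
  decide

lemma code_mod {f g : ℕ → ℕ → ℕ → Bool}
    (h : ∀ a b c, a < b → b < c → c < 6 → f a b c = g a b c) :
    code f % 2 ^ 20 = code g % 2 ^ 20 := by
  unfold code
  rw [enc_mod, enc_mod, ← List.map_take, ← List.map_take]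
  congr 1
  apply List.map_inj_left.2
  intro t ht
  obtain ⟨h1, h2, h3⟩ := take_trip t ht
  exact h _ _ _ h1 h2 h3

lemma mcode_mod {f g : ℕ → Bool} (h : ∀ i < 6, f i = g i) :
    mcode f % 2 ^ 6 = mcode g % 2 ^ 6 := by
  unfold mcode
  rw [enc_mod, enc_mod, ← List.map_take, ← List.map_take]
  congr 1
  apply List.map_inj_left.2
  intro i hi
  have : i ∈ List.range 6 := by
    have e : (List.range 7).take 6 = List.range 6 := by decide
    rwa [e] at hi
  exact h i (List.mem_range.1 this)

/-- Index of a triple. -/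
def ix (a b c : ℕ) : ℕ := a + b * (b - 1) / 2 + c * (c - 1) * (c - 2) / 6

/-- Sign function of a code. -/
def fc (n : ℕ) (a b c : ℕ) : Bool := n.testBit (ix a b c)

/-- The pairs (position of a hull vertex, position of its companion). -/
def mk (e : ℕ × ℕ × ℕ × ℕ × ℕ) : List (ℕ × ℕ) := [(0, e.2.2.2.1), (e.2.2.1, e.2.2.2.2)]

/-- Basic checks on the entries. -/
def ok0 (e : ℕ × ℕ × ℕ × ℕ × ℕ) : Bool :=
  Nat.beq (code (fc e.1)) e.1 && (Nat.beq (mcode (fun i => e.2.1.testBit i)) e.2.1) &&
  Nat.ble e.2.2.1 6 && (!(e.2.1.testBit 1) || Nat.beq e.2.2.1 1) &&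
  Nat.ble 1 e.2.2.2.1 && Nat.ble e.2.2.2.1 5 && Nat.ble e.2.2.2.2 5 &&
  !(Nat.beq e.2.2.2.1 e.2.2.1)

lemma ok0_all : E116.all ok0 = true := by decide +kernel

/-- Swap check. -/
def ok1 (j : ℕ) (e : ℕ × ℕ × ℕ × ℕ × ℕ) : Bool :=
  let c := code (gs j (fc e.1))
  E116.all fun e' => !(Nat.beq c e'.1) ||
    ((mk e).all fun q => (mk e').contains (tau j q.1, tau j q.2))

lemma ok1_all : ((List.range 6).all fun j => E116.all fun e => ok1 j e) = true := by
  decide +kernel

/-- Same first six positions. -/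
def ok2 (e e' : ℕ × ℕ × ℕ × ℕ × ℕ) : Bool :=
  !(Nat.beq (e.1 % 2 ^ 20) (e'.1 % 2 ^ 20) && Nat.beq (e.2.1 % 2 ^ 6) (e'.2.1 % 2 ^ 6)) ||
    ((mk e).all fun q => Nat.beq q.1 6 || (mk e').contains q)

lemma ok2_all : (E116.all fun e => E116.all fun e' => ok2 e e') = true := by decide +kernel

/-- Same code. -/
def ok3 (e e' : ℕ × ℕ × ℕ × ℕ × ℕ) : Bool :=
  !(Nat.beq e.1 e'.1) || ((mk e).all fun q => (mk e').contains q)

lemma ok3_all : (E116.all fun e => E116.all fun e' => ok3 e e') = true := by decide +kernel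

variable {X : Finset Pt}

open Classical in
/-- The signs of a list. -/
noncomputable def bf (P : ℕ → Pt) (a b c : ℕ) : Bool := decide (0 < orient (P a) (P b) (P c))

open Classical in
/-- The hull bits of a list. -/
noncomputable def bm (X : Finset Pt) (P : ℕ → Pt) (i : ℕ) : Bool := decide (Hull.HV X (P i))

/-- The state of `P` is the entry `e`. -/
def Match (X : Finset Pt) (P : ℕ → Pt) (e : ℕ × ℕ × ℕ × ℕ × ℕ) : Prop :=
  e ∈ E116 ∧ code (bf P) = e.1 ∧ mcode (bm X P) = e.2.1

/-- `p` is a hull vertex of the top seven with companion `z`. -/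
def Mk (X : Finset Pt) (P : ℕ → Pt) (p z : Pt) : Prop :=
  ∃ e, Match X P e ∧ ∃ q ∈ mk e, P q.1 = p ∧ P q.2 = z

lemma Match.ok0 {P : ℕ → Pt} {e : ℕ × ℕ × ℕ × ℕ × ℕ} (h : Match X P e) :
    (code (fc e.1) = e.1) ∧ (mcode (fun i => e.2.1.testBit i) = e.2.1) ∧ e.2.2.1 ≤ 6 ∧
      (e.2.1.testBit 1 = true → e.2.2.1 = 1) ∧ 1 ≤ e.2.2.2.1 ∧ e.2.2.2.1 ≤ 5 ∧
      e.2.2.2.2 ≤ 5 ∧ e.2.2.2.1 ≠ e.2.2.1 := by
  have h1 := List.all_eq_true.1 ok0_all e h.1
  simp only [Exo.ok0, Bool.and_eq_true, Bool.or_eq_true, Bool.not_eq_true', Nat.beq_eq,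
    Nat.ble_eq] at h1
  obtain ⟨⟨⟨⟨⟨⟨⟨a1, a2⟩, a3⟩, a4⟩, a5⟩, a6⟩, a7⟩, a8⟩ := h1
  refine ⟨a1, a2, a3, ?_, a5, a6, a7, ?_⟩
  · intro h
    rcases a4 with a4 | a4
    · rw [h] at a4; exact absurd a4 (by simp)
    · exact a4
  · intro h
    rw [h] at a8
    have : Nat.beq e.2.2.1 e.2.2.1 = true := by rw [Nat.beq_eq]
    rw [this] at a8
    exact absurd a8 (by simp)

lemma mk_le {P : ℕ → Pt} {e : ℕ × ℕ × ℕ × ℕ × ℕ} (h : Match X P e) {q : ℕ × ℕ} (hq : q ∈ mk e) :
    q.1 ≤ 6 ∧ q.2 ≤ 5 := by
  obtain ⟨-, -, h3, -, -, h6, h7, -⟩ := h.ok0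
  simp only [mk, List.mem_cons, List.not_mem_nil, or_false] at hq
  rcases hq with rfl | rfl
  · exact ⟨by simp, h6⟩
  · exact ⟨h3, h7⟩

lemma swap_eq_tau (j i : ℕ) : Equiv.swap j (j + 1) i = tau j i := by
  rw [Equiv.swap_apply_def]; rfl

lemma tau_tau (j i : ℕ) : tau j (tau j i) = i := by
  rw [← swap_eq_tau, ← swap_eq_tau, Equiv.swap_apply_self]

/-- The companion relation is preserved by a swap, as long as `p` is not at the boundary. -/
lemma step {R R' : ℕ → Pt} {j : ℕ} (hadj : ∀ i, R' i = R (Equiv.swap j (j + 1) i))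
    (hne : ∀ a b c, a < 7 → b < 7 → c < 7 → a ≠ b → b ≠ c → a ≠ c →
      orient (R a) (R b) (R c) ≠ 0)
    {e e' : ℕ × ℕ × ℕ × ℕ × ℕ} (m : Match X R e) (m' : Match X R' e') {p z : Pt}
    {q : ℕ × ℕ} (hq : q ∈ mk e) (hp : R q.1 = p) (hz : R q.2 = z) (h6 : ¬ (j = 6 ∧ q.1 = 6)) :
    Mk X R' p z := by
  have hadj' : ∀ i, R' i = R (tau j i) := fun i => by rw [hadj, swap_eq_tau]
  obtain ⟨hq1, hq2⟩ := mk_le m hq
  rcases lt_trichotomy j 6 with hj | hj | hj
  · -- an inner swap
    have hcode : e'.1 = code (gs j (fc e.1)) := by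
      rw [← m'.2.1]
      apply code_eq.2
      intro a b c hab hbc hc
      have hfc : ∀ a b c, a < b → b < c → c < 7 → bf R a b c = fc e.1 a b c :=
        code_eq.1 (by rw [m.2.1, (m.ok0).1])
      unfold gs
      split_ifs with hif
      · rw [← hfc a b c hab hbc hc]
        have hn := hne a b c (by omega) (by omega) hc (by omega) (by omega) (by omega)
        unfold bf
        have hsign : orient (R' a) (R' b) (R' c) = - orient (R a) (R b) (R c) := by
          rcases hif with ⟨rfl, rfl⟩ | ⟨rfl, rfl⟩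
          · have e1 : tau a a = a + 1 := by simp [tau]
            have e2 : tau a (a + 1) = a := by simp [tau]
            have e3 : tau a c = c := by unfold tau; split_ifs <;> omega
            rw [hadj' a, hadj' (a + 1), hadj' c, e1, e2, e3]
            unfold orient; ring
          · have e1 : tau b b = b + 1 := by simp [tau]
            have e2 : tau b (b + 1) = b := by simp [tau]
            have e3 : tau b a = a := by unfold tau; split_ifs <;> omega
            rw [hadj' b, hadj' (b + 1), hadj' a, e1, e2, e3]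
            unfold orient; ring
        rw [hsign]
        rcases lt_or_gt_of_ne hn with h | h
        · have h1 : 0 < - orient (R a) (R b) (R c) := by linarith
          have h2 : ¬ 0 < orient (R a) (R b) (R c) := by linarith
          simp [h2, h]
        · have h1 : ¬ 0 < - orient (R a) (R b) (R c) := by linarith
          have h2 : 0 < orient (R a) (R b) (R c) := h
          simp [h2, h2.le]
      · have h1 : bf R' a b c = bf R (tau j a) (tau j b) (tau j c) := by
          unfold bf
          rw [hadj' a, hadj' b, hadj' c]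
        rw [h1]
        apply hfc
        · unfold tau; split_ifs <;> omega
        · unfold tau; split_ifs <;> omega
        · unfold tau; split_ifs <;> omega
    have h1 := List.all_eq_true.1 (List.all_eq_true.1 ok1_all j (List.mem_range.2 hj)) e m.1
    have h2 := List.all_eq_true.1 h1 e' m'.1
    rw [← hcode] at h2
    have hb : Nat.beq e'.1 e'.1 = true := by rw [Nat.beq_eq]
    simp only [hb, Bool.not_true, Bool.false_or] at h2
    have h3 := List.all_eq_true.1 h2 q hq
    refine ⟨e', m', (tau j q.1, tau j q.2), ?_, ?_, ?_⟩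
    · simpa using h3
    · show R' (tau j q.1) = p
      rw [hadj', tau_tau, hp]
    · show R' (tau j q.2) = z
      rw [hadj', tau_tau, hz]
  · -- the swap at the boundary
    subst hj
    have hq6 : q.1 ≠ 6 := fun h => h6 ⟨rfl, h⟩
    have heq : ∀ i < 6, R' i = R i := by
      intro i hi
      rw [hadj']
      congr 1
      unfold tau; split_ifs <;> omega
    have hcode : e.1 % 2 ^ 20 = e'.1 % 2 ^ 20 := by
      rw [← m.2.1, ← m'.2.1]
      apply code_mod
      intro a b c hab hbc hc
      unfold bf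
      rw [heq a (by omega), heq b (by omega), heq c hc]
    have hmask : e.2.1 % 2 ^ 6 = e'.2.1 % 2 ^ 6 := by
      rw [← m.2.2, ← m'.2.2]
      apply mcode_mod
      intro i hi
      unfold bm
      rw [heq i hi]
    have h2 := List.all_eq_true.1 (List.all_eq_true.1 ok2_all e m.1) e' m'.1
    unfold ok2 at h2
    rw [hcode, hmask] at h2
    have hb1 : Nat.beq (e'.1 % 2 ^ 20) (e'.1 % 2 ^ 20) = true := by rw [Nat.beq_eq]
    have hb2 : Nat.beq (e'.2.1 % 2 ^ 6) (e'.2.1 % 2 ^ 6) = true := by rw [Nat.beq_eq]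
    rw [hb1, hb2] at h2
    simp only [Bool.and_true, Bool.not_true, Bool.false_or] at h2
    have h3 := List.all_eq_true.1 h2 q hq
    have hb3 : Nat.beq q.1 6 = false := by
      rw [← Bool.not_eq_true, Nat.beq_eq]; exact hq6
    rw [hb3, Bool.false_or] at h3
    refine ⟨e', m', q, by simpa using h3, ?_, ?_⟩
    · rw [heq _ (by omega), hp]
    · rw [heq _ (by omega), hz]
  · -- a swap below
    have heq : ∀ i < 7, R' i = R i := by
      intro i hi
      rw [hadj']
      congr 1
      unfold tau; split_ifs <;> omega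
    have hcode : e.1 = e'.1 := by
      rw [← m.2.1, ← m'.2.1]
      apply code_eq.2
      intro a b c hab hbc hc
      unfold bf
      rw [heq a (by omega), heq b (by omega), heq c hc]
    have h2 := List.all_eq_true.1 (List.all_eq_true.1 ok3_all e m.1) e' m'.1
    unfold ok3 at h2
    rw [hcode] at h2
    have hb1 : Nat.beq e'.1 e'.1 = true := by rw [Nat.beq_eq]
    rw [hb1] at h2
    simp only [Bool.not_true, Bool.false_or] at h2
    have h3 := List.all_eq_true.1 h2 q hq
    refine ⟨e', m', q, by simpa using h3, ?_, ?_⟩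
    · rw [heq _ (by omega), hp]
    · rw [heq _ (by omega), hz]


section
open Sweep

variable (hX : GeneralPosition X) (hc : 13 ≤ X.card)
  (H : ∀ w P, w ≠ 0 → Srt X w P → ∃ e, Match X P e)

include hX hc

lemma ne_zero_of_srt {w : Pt} {R : ℕ → Pt} (h : Srt X w R) : ∀ a b c, a < 7 → b < 7 → c < 7 →
    a ≠ b → b ≠ c → a ≠ c → orient (R a) (R b) (R c) ≠ 0 := by
  intro a b c ha hb hc' hab hbc hac
  refine orient_ne hX (h.mem a (by omega)) (h.mem b (by omega)) (h.mem c (by omega)) ?_ ?_ ?_
  · intro he; exact hab (h.inj a b (by omega) (by omega) he)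
  · intro he; exact hbc (h.inj b c (by omega) (by omega) he)
  · intro he; exact hac (h.inj a c (by omega) (by omega) he)

include H

/-- The boundary swap with `p` in front of it cannot occur strictly between the directions. -/
lemma no_exit {w : Pt} (hw : w ≠ 0) {R : ℕ → Pt} (hR : Srt X w R) {p z : Pt} {b : ℕ}
    (hb : b ≤ 5) (h6 : R 6 = p) (hz : R b = z) (htie : ht w (R 7) = ht w (R 6))
    (hle : ht w z ≤ ht w p) : False := by
  have h1 : ht w p ≤ ht w z := by
    rw [← h6, ← hz]; exact hR.mono b 6 (by omega) (by omega)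
  have hzp : ht w z = ht w p := le_antisymm hle h1
  have n1 : z ≠ p := by
    rw [← hz, ← h6]; intro he
    have := hR.inj b 6 (by omega) (by omega) he
    omega
  have n2 : p ≠ R 7 := by
    rw [← h6]; intro he
    have := hR.inj 6 7 (by omega) (by omega) he
    omega
  have n3 : z ≠ R 7 := by
    rw [← hz]; intro he
    have := hR.inj b 7 (by omega) (by omega) he
    omega
  refine no_tie hX hw (x := z) (y := p) (z := R 7) ?_ ?_ (hR.mem 7 (by omega)) n1 n2 n3 hzp ?_
  · rw [← hz]; exact hR.mem b (by omega)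
  · rw [← h6]; exact hR.mem 6 (by omega)
  · rw [htie, h6]

/-- Forward sweep. -/
lemma fwd {w w' : Pt} (hww : 0 < crs w w') {P P' : ℕ → Pt} (hP : Srt X w P) (hP' : Srt X w' P')
    {p z : Pt} (h0 : ht w z ≤ ht w p) (h1 : ht w' z ≤ ht w' p) (hM : Mk X P p z) :
    Mk X P' p z := by
  refine sweep hX hww hP hP' (fun R => Mk X R p z) ?_ hM
  rintro t j R R' ht0 ht1 hst ⟨e, me, q, hq, hp, hz⟩
  obtain ⟨e', me'⟩ := H _ R' (seg_ne hww t) hst.s'
  refine step hst.eq (ne_zero_of_srt hX hc hst.s) me me' hq hp hz ?_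
  rintro ⟨rfl, h6⟩
  rw [h6] at hp
  refine no_exit hX hc H (seg_ne hww t) hst.s (mk_le me hq).2 hp hz hst.tie ?_
  rw [ht_seg, ht_seg]
  have := mul_le_mul_of_nonneg_left h0 (sub_nonneg.2 ht1)
  have := mul_le_mul_of_nonneg_left h1 ht0
  linarith

/-- Backward sweep. -/
lemma bwd {w w' : Pt} (hww : 0 < crs w w') {P P' : ℕ → Pt} (hP : Srt X w P) (hP' : Srt X w' P')
    {p z : Pt} (h0 : ht w z ≤ ht w p) (h1 : ht w' z ≤ ht w' p) (hM : Mk X P' p z) :
    Mk X P p z := by
  by_contra hcon
  refine sweep hX hww hP hP' (fun R => ¬ Mk X R p z) ?_ hcon hM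
  rintro t j R R' ht0 ht1 hst hR ⟨e, me, q, hq, hp, hz⟩
  apply hR
  obtain ⟨e', me'⟩ := H _ R (seg_ne hww t) hst.s
  have heq : ∀ i, R i = R' (Equiv.swap j (j + 1) i) := by
    intro i; rw [hst.eq, Equiv.swap_apply_self]
  refine step heq (ne_zero_of_srt hX hc hst.s') me me' hq hp hz ?_
  rintro ⟨rfl, h6⟩
  rw [h6] at hp
  have htie : ht (seg w w' t) (R' 7) = ht (seg w w' t) (R' 6) := by
    have e6 : R' 6 = R 7 := by rw [hst.eq, Equiv.swap_apply_left]
    have e7 : R' 7 = R 6 := by
      have : (7 : ℕ) = 6 + 1 := rfl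
      rw [hst.eq, this, Equiv.swap_apply_right]
    rw [e6, e7]
    exact hst.tie.symm
  refine no_exit hX hc H (seg_ne hww t) hst.s' (mk_le me hq).2 hp hz htie ?_
  rw [ht_seg, ht_seg]
  have := mul_le_mul_of_nonneg_left h0 (sub_nonneg.2 ht1)
  have := mul_le_mul_of_nonneg_left h1 ht0
  linarith

/-- At most five points are above the companion. -/
lemma above {w : Pt} {P : ℕ → Pt} (hP : Srt X w P) {p z : Pt} (hM : Mk X P p z) :
    (X.filter (fun x => ht w z < ht w x)).card ≤ 5 := by
  classical
  obtain ⟨e, me, q, hq, hp, hz⟩ := hM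
  have hq2 := (mk_le me hq).2
  have hsub : X.filter (fun x => ht w z < ht w x) ⊆ (Finset.range q.2).image P := by
    intro x hx
    rw [Finset.mem_filter] at hx
    obtain ⟨i, hi, rfl⟩ := surj hP hx.1
    refine Finset.mem_image.2 ⟨i, Finset.mem_range.2 ?_, rfl⟩
    by_contra hle
    push Not at hle
    rcases hle.eq_or_lt with h | h
    · rw [← h, hz] at hx
      exact lt_irrefl _ hx.2
    · have := hP.mono q.2 i h hi
      rw [hz] at this
      linarith [hx.2]
  calc _ ≤ ((Finset.range q.2).image P).card := Finset.card_le_card hsub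
    _ ≤ q.2 := by simpa using Finset.card_image_le (s := Finset.range q.2) (f := P)
    _ ≤ 5 := hq2

/-- The exotic component is impossible for at least 13 points. -/
theorem impossible : False := by
  classical
  obtain ⟨p', p, hE⟩ := Hull.exists_HE hX (by omega)
  obtain ⟨hp'X, hpX, hne, hall⟩ := hE
  -- the direction of the hull edge
  set w0 : Pt := rot (p' - p) with hw0
  have hw0ne : w0 ≠ 0 := rot_ne (sub_ne_zero.2 hne)
  have htop : ∀ x, ht w0 p - ht w0 x = orient p' p x := by
    intro x
    simp only [hw0, rot, ht, orient, Prod.fst_sub, Prod.snd_sub]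
    ring
  have htp : ht w0 p' = ht w0 p := by
    have := htop p'
    have e : orient p' p p' = 0 := by unfold orient; ring
    linarith
  -- the sorted list with `p` first
  obtain ⟨P, hP, hP0, hP1⟩ : ∃ P, Srt X w0 P ∧ P 0 = p ∧ P 1 = p' := by
    obtain ⟨P, hP⟩ := exists_srt X w0
    have hpos : ∀ i, i < X.card → P i = p ∨ P i = p' ∨ 2 ≤ i := by
      intro i hi
      by_contra hcon
      push Not at hcon
      obtain ⟨h1, h2, h3⟩ := hcon
      -- then all points before `i` or at `i` ... `p` and `p'` are before `i`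
      have hlt : ht w0 (P i) < ht w0 p := by
        have := hall (P i) (hP.mem i hi) h2 h1
        rw [← htop] at this
        linarith
      obtain ⟨a, ha, hap⟩ := surj hP hpX
      obtain ⟨b, hb, hbp⟩ := surj hP hp'X
      have ha' : a < i := by
        by_contra h
        push Not at h
        rcases h.eq_or_lt with h | h
        · rw [h] at h1; exact h1 hap
        · have := hP.mono i a h ha
          rw [hap] at this
          linarith
      have hb' : b < i := by
        by_contra h
        push Not at h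
        rcases h.eq_or_lt with h | h
        · rw [h] at h2; exact h2 hbp
        · have := hP.mono i b h hb
          rw [hbp] at this
          linarith
      have hab : a = b := by omega
      rw [hab, hbp] at hap
      exact hne hap
    rcases hpos 0 (by omega) with h0 | h0 | h0
    · rcases hpos 1 (by omega) with h1 | h1 | h1
      · have := hP.inj 0 1 (by omega) (by omega) (h0.trans h1.symm)
        omega
      · exact ⟨P, hP, h0, h1⟩
      · omega
    · rcases hpos 1 (by omega) with h1 | h1 | h1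
      · refine ⟨sw 0 P, sw_srt hP (by omega) (by rw [h0, h1, htp]), ?_, ?_⟩
        · show P (Equiv.swap 0 (0 + 1) 0) = p
          rw [Equiv.swap_apply_left]; exact h1
        · show P (Equiv.swap 0 (0 + 1) 1) = p'
          have : (1 : ℕ) = 0 + 1 := rfl
          rw [this, Equiv.swap_apply_right]; exact h0
      · have := hP.inj 0 1 (by omega) (by omega) (h0.trans h1.symm)
        omega
      · omega
    · omega
  -- the companion
  obtain ⟨e, me⟩ := H w0 P hw0ne hP
  obtain ⟨g1, g2, g3, g4, g5, g6, g7, g8⟩ := me.ok0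
  set z : Pt := P e.2.2.2.1 with hz
  have hM : Mk X P p z := ⟨e, me, (0, e.2.2.2.1), by simp [mk], hP0, rfl⟩
  have hzX : z ∈ X := hP.mem _ (by omega)
  have hzp : z ≠ p := by
    intro he
    rw [← hP0] at he
    have := hP.inj _ 0 (by omega) (by omega) he
    omega
  have hzp' : z ≠ p' := by
    intro he
    rw [← hP1] at he
    have h1 := hP.inj _ 1 (by omega) (by omega) he
    have h2 : bm X P 1 = true := by
      unfold bm
      rw [hP1]
      exact decide_eq_true ⟨p, hp'X, hpX, hne, hall⟩
    have h3 := (mcode_eq.1 (me.2.2.trans g2.symm)) 1 (by norm_num)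
    rw [h2] at h3
    have h4 := g4 h3.symm
    omega
  have hlt : ht w0 z < ht w0 p := by
    have := hall z hzX hzp' hzp
    rw [← htop] at this
    linarith
  -- the two directions in which `p` and `z` have the same height
  have hd : 0 < ht w0 (p - z) := by rw [ht_sub]; linarith
  have e1 : crs w0 (rot (p - z)) = ht w0 (p - z) := by
    unfold crs rot ht; ring
  have e2 : crs (rot (z - p)) w0 = ht w0 (p - z) := by
    simp only [crs, rot, ht, Prod.fst_sub, Prod.snd_sub]; ring
  have t1 : ht (rot (p - z)) z = ht (rot (p - z)) p := by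
    simp only [ht, rot, Prod.fst_sub, Prod.snd_sub]; ring
  have t2 : ht (rot (z - p)) z = ht (rot (z - p)) p := by
    simp only [ht, rot, Prod.fst_sub, Prod.snd_sub]; ring
  obtain ⟨P1, hP1'⟩ := exists_srt X (rot (p - z))
  obtain ⟨P2, hP2'⟩ := exists_srt X (rot (z - p))
  have M1 := fwd hX hc H (by rw [e1]; exact hd) hP hP1' hlt.le t1.le hM
  have M2 := bwd hX hc H (by rw [e2]; exact hd) hP2' hP t2.le hlt.le hM
  have c1 := above hX hc H hP1' M1
  have c2 := above hX hc H hP2' M2
  have hcov : X ⊆ {p, z} ∪ (X.filter (fun x => ht (rot (p - z)) z < ht (rot (p - z)) x) ∪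
      X.filter (fun x => ht (rot (z - p)) z < ht (rot (z - p)) x)) := by
    intro x hx
    simp only [Finset.mem_union, Finset.mem_insert, Finset.mem_singleton, Finset.mem_filter]
    by_cases x1 : x = p
    · exact Or.inl (Or.inl x1)
    by_cases x2 : x = z
    · exact Or.inl (Or.inr x2)
    right
    have hneg : ∀ y, ht (rot (z - p)) y = - ht (rot (p - z)) y := by
      intro y
      simp only [ht, rot, Prod.fst_sub, Prod.snd_sub]; ring
    rcases lt_trichotomy (ht (rot (p - z)) z) (ht (rot (p - z)) x) with h | h | h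
    · exact Or.inl ⟨hx, h⟩
    · exfalso
      exact no_tie hX (rot_ne (sub_ne_zero.2 hzp.symm)) hx hzX hpX x2 hzp x1 h.symm t1
    · right
      refine ⟨hx, ?_⟩
      rw [hneg, hneg]
      linarith
  have c3 := Finset.card_le_card hcov
  have c4 := Finset.card_union_le ({p, z} : Finset Pt)
    (X.filter (fun x => ht (rot (p - z)) z < ht (rot (p - z)) x) ∪
      X.filter (fun x => ht (rot (z - p)) z < ht (rot (z - p)) x))
  have c5 := Finset.card_union_le (X.filter (fun x => ht (rot (p - z)) z < ht (rot (p - z)) x))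
    (X.filter (fun x => ht (rot (z - p)) z < ht (rot (z - p)) x))
  have c6 : ({p, z} : Finset Pt).card ≤ 2 := Finset.card_le_two
  omega

end

/-- The form with bits. -/
theorem impossible_bits (hX : GeneralPosition X) (hc : 13 ≤ X.card)
    (H : ∀ w P, w ≠ 0 → Srt X w P → ∃ e ∈ E116,
      (∀ a b c, a < b → b < c → c < 7 →
        (0 < orient (P a) (P b) (P c) ↔ e.1.testBit (ix a b c) = true)) ∧
      (∀ i < 7, (Hull.HV X (P i) ↔ e.2.1.testBit i = true))) : False := by
  classical
  refine impossible hX hc ?_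
  intro w P hw hP
  obtain ⟨e, he, h1, h2⟩ := H w P hw hP
  have hk := List.all_eq_true.1 ok0_all e he
  simp only [Exo.ok0, Bool.and_eq_true] at hk
  obtain ⟨⟨⟨⟨⟨⟨⟨a1, a2⟩, -⟩, -⟩, -⟩, -⟩, -⟩, -⟩ := hk
  rw [Nat.beq_eq] at a1 a2
  refine ⟨e, he, ?_, ?_⟩
  · rw [← a1]
    apply code_eq.2
    intro a b c hab hbc hc'
    unfold bf fc
    have := h1 a b c hab hbc hc'
    by_cases h : 0 < orient (P a) (P b) (P c)
    · rw [this.1 h]; exact decide_eq_true h
    · have h3 : ¬ (e.1.testBit (ix a b c) = true) := fun h4 => h (this.2 h4)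
      rw [Bool.not_eq_true] at h3
      rw [h3]; exact decide_eq_false h
  · rw [← a2]
    apply mcode_eq.2
    intro i hi
    unfold bm
    have := h2 i hi
    by_cases h : Hull.HV X (P i)
    · rw [this.1 h]; exact decide_eq_true h
    · have h3 : ¬ (e.2.1.testBit i = true) := fun h4 => h (this.2 h4)
      rw [Bool.not_eq_true] at h3
      rw [h3]; exact decide_eq_false h

end Exo

end Pool.Agent.GCP
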