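import Pool.Agent.GCP.F10_10_12_14B0

set_option autoImplicit false
set_option maxRecDepth 100000

/-! # Case F10_10_12_14 (generated) -/

namespace Pool.Agent.GCP.F10_10_12_14

open Pool.Agent.GCP DB

theorem a0 : B 0 32 := b0
theorem a1 : B 0 34 := a0.trans b1

theorem main {Z : ℕ → Pt} (hF : FreeOK [0,3,7,10,15,19]) (R : RZ 22 [0,1,4,7,10,12,14,16,19,22] Z) :
    HCPle (Z '' {i | i < 23}) 6 := by
  by_contra hK
  have hth := tfk_sound hF R hK
  have h1 := a1 (val Z) (base hth) hth (fun k hk => absurd hk (Nat.not_lt_zero k))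
  have hl : tgtOK db 34 [33] [(0, 0)] = true := by decide +kernel
  exact not_hold_empty _ (tgt_sound hl h1 (0, 0) (by simp))

end Pool.Agent.GCP.F10_10_12_14
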