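import Pool.Agent.GCP.F10_10_12_14Db

set_option autoImplicit false
set_option maxRecDepth 100000

/-! # Blocks F10_10_12_14B0 (generated) -/

namespace Pool.Agent.GCP.F10_10_12_14

open Pool.Agent.GCP DB

theorem b0 : B 0 32 := Blk.of_chk [.t 1 (nat_lit 0) (.ax 1 2 10 16 1), .t 1 (nat_lit 0) (.ax 1 4 7 16 0), .t 1 (nat_lit 0) (.ax 1 7 10 16 0), .t 1 (nat_lit 0) (.ax 3 4 7 16 0), .t 1 (nat_lit 0) (.ax 3 7 10 16 0), .t 1 (nat_lit 0) (.ax 4 5 7 16 3), .t 1 (nat_lit 0) (.ax 4 6 7 16 3), .t 1 (nat_lit 0) (.ax 4 7 10 16 0), .t 1 (nat_lit 0) (.ax 5 7 10 16 0), .t 1 (nat_lit 0) (.ax 6 7 10 16 0), .t 1 (nat_lit 0) (.ax 7 8 10 16 3), .t 1 (nat_lit 0) (.ax 7 9 10 16 3), .t 1 (nat_lit 0) (.ax 10 12 14 17 0), .t 1 (nat_lit 0) (.ax 10 12 14 18 0), .t 1 (nat_lit 0) (.ax 10 12 14 20 0), .t 1 (nat_lit 0) (.ax 10 12 14 21 0), .t 1 (nat_lit 0) (.ax 10 12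 14 22 0), .t 1 (nat_lit 0) (.ax 10 14 16 17 0), .t 1 (nat_lit 0) (.ax 10 14 16 18 0), .t 1 (nat_lit 0) (.ax 10 14 16 20 0), .t 1 (nat_lit 0) (.ax 10 14 16 21 0), .t 1 (nat_lit 0) (.ax 10 14 16 22 0), .t 1 (nat_lit 0) (.cp 4 3), .r 3 (nat_lit 0x30002), .r 3 (nat_lit 0x10018), .r 3 (nat_lit 0x50004), .r 3 (nat_lit 0x90006), .r 3 (nat_lit 0xa0007), .r 3 (nat_lit 0x12000d), .r 3 (nat_lit 0x13000e), .r 3 (nat_lit 0x14000f), .r 3 (nat_lit 0x150010)] (by decide +kernel) (by decide +kernel)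
theorem b1 : B 32 34 := Blk.of_chk [.r 3 (nat_lit 0x160011), .r 15 (nat_lit 0x1700210020001f001e001d000c000b001c001b0008001a00190018)] (by decide +kernel) (by decide +kernel)

end Pool.Agent.GCP.F10_10_12_14
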