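import Pool.Agent.GCP.F10_9_11_13Db

set_option autoImplicit false
set_option maxRecDepth 100000

/-! # Blocks F10_9_11_13B0 (generated) -/

namespace Pool.Agent.GCP.F10_9_11_13

open Pool.Agent.GCP DB

theorem b0 : B 0 32 := Blk.of_chk [.t 1 (nat_lit 0) (.ax 1 2 7 13 1), .t 1 (nat_lit 0) (.ax 1 4 7 13 0), .t 1 (nat_lit 0) (.ax 3 4 7 13 0), .t 1 (nat_lit 0) (.ax 4 5 7 13 3), .t 1 (nat_lit 0) (.ax 4 6 7 13 3), .t 1 (nat_lit 0) (.ax 7 9 11 14 0), .t 1 (nat_lit 0) (.ax 7 9 11 15 0), .t 1 (nat_lit 0) (.ax 7 9 11 17 0), .t 1 (nat_lit 0) (.ax 7 9 11 18 0), .t 1 (nat_lit 0) (.ax 7 9 11 19 0), .t 1 (nat_lit 0) (.ax 7 9 11 20 0), .t 1 (nat_lit 0) (.ax 7 9 11 21 0), .t 1 (nat_lit 0) (.ax 7 9 11 22 0), .t 1 (nat_lit 0) (.ax 7 11 13 14 0), .t 1 (nat_lit 0) (.ax 7 11 13 15 0), .t 1 (nat_lit 0) (.ax 7 11 13 17 0), .t 1 (nat_lit 0) (.ax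 7 11 13 18 0), .t 1 (nat_lit 0) (.ax 7 11 13 19 0), .t 1 (nat_lit 0) (.ax 7 11 13 20 0), .t 1 (nat_lit 0) (.ax 7 11 13 21 0), .t 1 (nat_lit 0) (.ax 7 11 13 22 0), .t 1 (nat_lit 0) (.cp 3 3), .r 3 (nat_lit 0x10002), .r 3 (nat_lit 0xe0006), .r 3 (nat_lit 0xf0007), .r 3 (nat_lit 0x100008), .r 3 (nat_lit 0x110009), .r 3 (nat_lit 0x12000a), .r 3 (nat_lit 0x13000b), .r 3 (nat_lit 0x14000c), .r 3 (nat_lit 0x15000d), .r 15 (nat_lit 0x16001f001e001d001c001b001a0019001800050004000300170002)] (by decide +kernel) (by decide +kernel)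

end Pool.Agent.GCP.F10_9_11_13
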