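import Pool.Agent.GCP.F10_9_11_14Db

set_option autoImplicit false
set_option maxRecDepth 100000

/-! # Blocks F10_9_11_14B0 (generated) -/

namespace Pool.Agent.GCP.F10_9_11_14

open Pool.Agent.GCP DB

theorem b0 : B 0 32 := Blk.of_chk [.t 1 (nat_lit 0) (.ax 1 2 3 11 1), .t 1 (nat_lit 0) (.ax 1 2 3 12 1), .t 1 (nat_lit 0) (.ax 1 2 4 11 1), .t 1 (nat_lit 0) (.ax 1 3 11 12 0), .t 1 (nat_lit 0) (.ax 2 3 11 12 0), .t 1 (nat_lit 0) (.ax 3 4 7 12 0), .t 1 (nat_lit 0) (.ax 3 7 9 12 0), .t 1 (nat_lit 0) (.ax 3 9 11 12 0), .t 1 (nat_lit 0) (.ax 4 7 9 12 0), .t 1 (nat_lit 0) (.ax 4 7 9 13 0), .t 1 (nat_lit 0) (.ax 4 7 9 15 0), .t 1 (nat_lit 0) (.ax 4 7 9 16 0), .t 1 (nat_lit 0) (.ax 4 7 9 17 0), .t 1 (nat_lit 0) (.ax 4 7 9 18 0), .t 1 (nat_lit 0) (.ax 4 7 9 19 0), .t 1 (nat_lit 0) (.ax 4 7 9 20 0), .t 1 (nat_lit 0) (.ax 4 7 9 21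 0), .t 1 (nat_lit 0) (.ax 4 7 9 22 0), .t 1 (nat_lit 0) (.ax 4 8 10 11 0), .t 1 (nat_lit 0) (.ax 4 9 11 12 0), .t 1 (nat_lit 0) (.ax 4 9 11 13 0), .t 1 (nat_lit 0) (.ax 4 9 11 15 0), .t 1 (nat_lit 0) (.ax 4 9 11 16 0), .t 1 (nat_lit 0) (.ax 4 9 11 17 0), .t 1 (nat_lit 0) (.ax 4 9 11 18 0), .t 1 (nat_lit 0) (.ax 4 9 11 19 0), .t 1 (nat_lit 0) (.ax 4 9 11 20 0), .t 1 (nat_lit 0) (.ax 4 9 11 21 0), .t 1 (nat_lit 0) (.ax 4 9 11 22 0), .t 1 (nat_lit 0) (.ax 11 13 14 15 3), .t 1 (nat_lit 0) (.fa 4), .t 1 (nat_lit 0) (.cp 2 3)] (by decide +kernel) (by decide +kernel)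
theorem b1 : B 32 53 := Blk.of_chk [.t 1 (nat_lit 0) (.cp 2 3), .t 5 (nat_lit 0x5000400020001) (.z (.edon 0 16 (.node 0 12 (.leaf [0,13,14,15]) (.edon 4 11 (.free 2 [4,5,6,7,8,9,10]) (.leaf [1,3,11,12,2]))) (.free 2 [16,17,18,19,20,21,22]))), .t 1 (nat_lit 0) (.cp 2 3), .r 3 (nat_lit 0x70006), .r 3 (nat_lit 0x80024), .r 3 (nat_lit 0x140009), .r 3 (nat_lit 0x15000a), .r 3 (nat_lit 0x16000b), .r 3 (nat_lit 0x17000c), .r 3 (nat_lit 0x18000d), .r 3 (nat_lit 0x19000e), .r 3 (nat_lit 0x1a000f), .r 3 (nat_lit 0x1b0010), .r 3 (nat_lit 0x1c0011), .r 3 (nat_lit 0x1d0012), .r 13 (nat_lit 0x20002f002e002d002c002b002a00290028002700260003), .r 13 (nat_lit 0x21002f002e002d002c002b002a00290028002700260003), .r 8 (nat_lit 0x22001e00260025003100300003), .r 13 (nat_lit 0x23002f002e002d002c002b002a00290028002700260003), .r 4 (nat_lit 0x13001f0033),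 .r 4 (nat_lit 0x3200340033)] (by decide +kernel) (by decide +kernel)

end Pool.Agent.GCP.F10_9_11_14
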