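import Pool.Agent.GCP.F10_9_12_14Db

set_option autoImplicit false
set_option maxRecDepth 100000

/-! # Blocks F10_9_12_14B0 (generated) -/

namespace Pool.Agent.GCP.F10_9_12_14

open Pool.Agent.GCP DB

theorem b0 : B 0 32 := Blk.of_chk [.t 1 (nat_lit 0) (.ax 1 2 7 14 1), .t 1 (nat_lit 0) (.ax 1 2 9 16 1), .t 1 (nat_lit 0) (.ax 1 2 12 16 1), .t 1 (nat_lit 0) (.ax 1 2 12 19 1), .t 1 (nat_lit 0) (.ax 1 4 7 10 0), .t 1 (nat_lit 0) (.ax 1 4 7 11 0), .t 1 (nat_lit 0) (.ax 1 4 7 13 0), .t 1 (nat_lit 0) (.ax 1 4 7 14 0), .t 1 (nat_lit 0) (.ax 1 4 7 15 0), .t 1 (nat_lit 0) (.ax 1 4 7 16 0), .t 1 (nat_lit 0) (.ax 1 4 7 17 0), .t 1 (nat_lit 0) (.ax 1 4 7 18 0), .t 1 (nat_lit 0) (.ax 1 4 7 19 0), .t 1 (nat_lit 0) (.ax 1 4 7 20 0), .t 1 (nat_lit 0) (.ax 1 4 7 21 0), .t 1 (nat_lit 0) (.ax 1 4 7 22 0), .t 1 (nat_lit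 0) (.ax 1 5 9 19 4), .t 1 (nat_lit 0) (.ax 1 6 9 19 4), .t 1 (nat_lit 0) (.ax 1 7 9 10 0), .t 1 (nat_lit 0) (.ax 1 7 9 11 0), .t 1 (nat_lit 0) (.ax 1 7 9 13 0), .t 1 (nat_lit 0) (.ax 1 7 9 14 0), .t 1 (nat_lit 0) (.ax 1 7 9 15 0), .t 1 (nat_lit 0) (.ax 1 7 9 16 0), .t 1 (nat_lit 0) (.ax 1 7 9 17 0), .t 1 (nat_lit 0) (.ax 1 7 9 18 0), .t 1 (nat_lit 0) (.ax 1 7 9 19 0), .t 1 (nat_lit 0) (.ax 1 7 9 20 0), .t 1 (nat_lit 0) (.ax 1 7 9 21 0), .t 1 (nat_lit 0) (.ax 1 7 9 22 0), .t 1 (nat_lit 0) (.ax 1 7 10 14 0), .t 1 (nat_lit 0) (.ax 1 7 11 14 0)] (by decide +kernel) (by decide +kernel)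
theorem b1 : B 32 64 := Blk.of_chk [.t 1 (nat_lit 0) (.ax 1 8 9 19 4), .t 1 (nat_lit 0) (.ax 1 9 12 16 0), .t 1 (nat_lit 0) (.ax 1 9 12 19 0), .t 1 (nat_lit 0) (.ax 1 9 15 16 0), .t 1 (nat_lit 0) (.ax 1 10 14 19 4), .t 1 (nat_lit 0) (.ax 1 11 14 19 4), .t 1 (nat_lit 0) (.ax 1 12 13 16 0), .t 1 (nat_lit 0) (.ax 1 12 14 19 0), .t 1 (nat_lit 0) (.ax 1 12 17 19 0), .t 1 (nat_lit 0) (.ax 1 12 18 19 0), .t 1 (nat_lit 0) (.ax 1 13 16 19 4), .t 1 (nat_lit 0) (.ax 1 15 16 19 4), .t 1 (nat_lit 0) (.ax 3 4 7 14 0), .t 1 (nat_lit 0) (.ax 3 4 7 16 0), .t 1 (nat_lit 0) (.ax 3 4 7 19 0), .t 1 (nat_lit 0) (.ax 3 7 9 16 0), .t 1 (nat_lit 0) (.ax 3 7 9 19 0), .t 1 (nat_lit 0) (.ax 3 9 12 16 0), .t 1 (nat_lit 0) (.ax 3 9 12 19 0), .t 1 (nat_lit 0) (.ax 4 5 7 14 3), .t 1 (nat_lit 0) (.ax 4 5 7 16 3), .t 1 (nat_lit 0) (.ax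 4 5 7 19 3), .t 1 (nat_lit 0) (.ax 4 6 7 14 3), .t 1 (nat_lit 0) (.ax 4 6 7 16 3), .t 1 (nat_lit 0) (.ax 4 6 7 19 3), .t 1 (nat_lit 0) (.ax 4 7 9 16 0), .t 1 (nat_lit 0) (.ax 4 7 9 19 0), .t 1 (nat_lit 0) (.ax 4 9 12 16 0), .t 1 (nat_lit 0) (.ax 4 9 12 19 0), .t 1 (nat_lit 0) (.ax 5 7 9 16 0), .t 1 (nat_lit 0) (.ax 5 7 9 19 0), .t 1 (nat_lit 0) (.ax 5 9 12 16 0)] (by decide +kernel) (by decide +kernel)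
theorem b2 : B 64 96 := Blk.of_chk [.t 1 (nat_lit 0) (.ax 5 9 12 19 0), .t 1 (nat_lit 0) (.ax 6 7 9 16 0), .t 1 (nat_lit 0) (.ax 6 7 9 19 0), .t 1 (nat_lit 0) (.ax 6 9 12 16 0), .t 1 (nat_lit 0) (.ax 6 9 12 19 0), .t 1 (nat_lit 0) (.ax 7 8 9 16 3), .t 1 (nat_lit 0) (.ax 7 8 9 19 3), .t 1 (nat_lit 0) (.ax 7 9 12 15 0), .t 1 (nat_lit 0) (.ax 7 9 12 16 0), .t 1 (nat_lit 0) (.ax 7 9 12 17 0), .t 1 (nat_lit 0) (.ax 7 9 12 18 0), .t 1 (nat_lit 0) (.ax 7 9 12 19 0), .t 1 (nat_lit 0) (.ax 7 9 12 20 0), .t 1 (nat_lit 0) (.ax 7 9 12 21 0), .t 1 (nat_lit 0) (.ax 7 9 12 22 0), .t 1 (nat_lit 0) (.ax 7 12 14 15 0), .t 1 (nat_lit 0) (.ax 7 12 14 17 0), .t 1 (nat_lit 0) (.ax 7 12 14 18 0), .t 1 (nat_lit 0) (.ax 7 12 14 19 0), .t 1 (nat_lit 0) (.ax 7 12 14 20 0), .t 1 (nat_lit 0) (.ax 7 12 14 21 0), .t 1 (nat_lit 0) (.ax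 7 12 14 22 0), .t 1 (nat_lit 0) (.ax 8 9 12 16 0), .t 1 (nat_lit 0) (.ax 8 9 12 19 0), .t 1 (nat_lit 0) (.ax 9 10 12 16 3), .t 1 (nat_lit 0) (.ax 9 10 12 19 3), .t 1 (nat_lit 0) (.ax 9 11 12 16 3), .t 1 (nat_lit 0) (.ax 9 11 12 19 3), .t 1 (nat_lit 0) (.ax 9 12 14 17 0), .t 1 (nat_lit 0) (.ax 9 12 14 18 0), .t 1 (nat_lit 0) (.ax 9 12 14 20 0), .t 1 (nat_lit 0) (.ax 9 12 14 21 0)] (by decide +kernel) (by decide +kernel)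
theorem b3 : B 96 128 := Blk.of_chk [.t 1 (nat_lit 0) (.ax 9 12 14 22 0), .t 1 (nat_lit 0) (.ax 9 14 16 17 0), .t 1 (nat_lit 0) (.ax 9 14 16 18 0), .t 1 (nat_lit 0) (.ax 9 14 16 20 0), .t 1 (nat_lit 0) (.ax 9 14 16 21 0), .t 1 (nat_lit 0) (.ax 9 14 16 22 0), .t 1 (nat_lit 0) (.ax 10 12 14 19 0), .t 1 (nat_lit 0) (.ax 11 12 14 19 0), .t 1 (nat_lit 0) (.ax 12 14 16 17 0), .t 1 (nat_lit 0) (.ax 12 14 16 18 0), .t 1 (nat_lit 0) (.ax 12 14 16 20 0), .t 1 (nat_lit 0) (.ax 12 14 16 21 0), .t 1 (nat_lit 0) (.ax 12 14 16 22 0), .t 1 (nat_lit 0) (.ax 12 16 19 21 0), .t 1 (nat_lit 0) (.cp 3 3), .t 1 (nat_lit 0) (.cp 5 2), .t 1 (nat_lit 0) (.cp 5 3), .t 1 (nat_lit 0) (.cp 1 3), .t 1 (nat_lit 0) (.cp 8 3), .t 1 (nat_lit 0) (.cp 1 3), .t 1 (nat_lit 0) (.cp 5 3), .t 1 (nat_lit 0) (.cp 4 3), .t 1 (nat_lit 0) (.cp 3 3),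 .t 1 (nat_lit 0) (.cp 1 3), .r 3 (nat_lit 0x10008), .r 3 (nat_lit 0x130005), .r 3 (nat_lit 0x140006), .r 3 (nat_lit 0x150007), .r 3 (nat_lit 0x160008), .r 3 (nat_lit 0x170009), .r 3 (nat_lit 0x18000a), .r 3 (nat_lit 0x2007f)] (by decide +kernel) (by decide +kernel)
theorem b4 : B 128 160 := Blk.of_chk [.r 3 (nat_lit 0x19000b), .r 3 (nat_lit 0x1a000c), .r 3 (nat_lit 0x1b000d), .r 3 (nat_lit 0x1c000e), .r 3 (nat_lit 0x1d000f), .r 3 (nat_lit 0x1e0010), .r 3 (nat_lit 0x1f0008), .r 3 (nat_lit 0x200008), .r 3 (nat_lit 0x22007f), .r 3 (nat_lit 0x30089), .r 3 (nat_lit 0x230083), .r 3 (nat_lit 0x4008b), .r 3 (nat_lit 0x24007f), .r 3 (nat_lit 0x270089), .r 3 (nat_lit 0x28008b), .r 3 (nat_lit 0x29008b), .r 3 (nat_lit 0x2a008b), .r 3 (nat_lit 0x30002e), .r 3 (nat_lit 0x31002f), .r 3 (nat_lit 0x320092), .r 3 (nat_lit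 0x330093), .r 3 (nat_lit 0x3c003a), .r 3 (nat_lit 0x3d003b), .r 3 (nat_lit 0x3e0035), .r 3 (nat_lit 0x3f0036), .r 3 (nat_lit 0x400098), .r 3 (nat_lit 0x410099), .r 3 (nat_lit 0x420038), .r 3 (nat_lit 0x430039), .r 3 (nat_lit 0x44009c), .r 3 (nat_lit 0x45009d), .r 3 (nat_lit 0x500048)] (by decide +kernel) (by decide +kernel)
theorem b5 : B 160 192 := Blk.of_chk [.r 3 (nat_lit 0x51004a), .r 3 (nat_lit 0x52004b), .r 3 (nat_lit 0x53004c), .r 3 (nat_lit 0x54004d), .r 3 (nat_lit 0x55004e), .r 3 (nat_lit 0x56004f), .r 3 (nat_lit 0x570046), .r 3 (nat_lit 0x580047), .r 3 (nat_lit 0x62005d), .r 3 (nat_lit 0x63005e), .r 3 (nat_lit 0x64005f), .r 3 (nat_lit 0x650060), .r 3 (nat_lit 0x660061), .r 3 (nat_lit 0x67005a), .r 3 (nat_lit 0x68005c), .r 3 (nat_lit 0x6e006c), .r 14 (nat_lit 0x6f00a600a500a400a300a200a100a000370034002d00790008),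 .r 3 (nat_lit 0x8800b1), .r 4 (nat_lit 0x2600af00b2), .r 17 (nat_lit 0x70006d006c006b006a0069005b005900a70049009e009a00960094008a0089), .r 3 (nat_lit 0x8e00b4), .r 3 (nat_lit 0x2b00b5), .r 13 (nat_lit 0x7100b0005c005a00a8004c009f009b00970095008c008b), .r 3 (nat_lit 0x9100b7), .r 14 (nat_lit 0x72008600850084008300820081007f007e007d007c007b007a), .r 4 (nat_lit 0x12009d00b9), .r 10 (nat_lit 0x7300b8008f00b6008b00b30083000d00ba), .r 14 (nat_lit 0x74008600850084008300820081007f007e007d007c007b007a), .r 4 (nat_lit 0x11009900bc), .r 13 (nat_lit 0x7500b0005c005a00a8004c009f009b00970095008c008b), .r 3 (nat_lit 0x9000be), .r 14 (nat_lit 0x7600ad00ac00ab00aa00a90046009c0098003a00920080007f)] (by decide +kernel) (by decide +kernel)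
theorem b6 : B 192 200 := Blk.of_chk [.r 3 (nat_lit 0x8d00c0), .r 3 (nat_lit 0x2c00c1), .r 14 (nat_lit 0x7700a600a500a400a300a200a100a000370034002d00790008), .r 3 (nat_lit 0x8700c3), .r 4 (nat_lit 0x2500ae00c4), .r 6 (nat_lit 0xbb00bf00c200bd00c5), .r 4 (nat_lit 0x21004700c6), .r 15 (nat_lit 0x78008600850084008300820081007f007e007d007c007b007a00c7)] (by decide +kernel) (by decide +kernel)

end Pool.Agent.GCP.F10_9_12_14
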