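import Pool.Agent.GCP.F8_10Db

set_option autoImplicit false
set_option maxRecDepth 100000

/-! # Blocks F8_10B1 (generated) -/

namespace Pool.Agent.GCP.F8_10

open Pool.Agent.GCP DB

theorem b79 : B 2528 2560 := Blk.of_chk [.t 1 (nat_lit 0) (.ax 11 12 13 14 5), .t 1 (nat_lit 0) (.ax 11 12 13 14 6), .t 1 (nat_lit 0) (.ax 11 12 13 14 7), .t 1 (nat_lit 0) (.ax 11 12 13 15 0), .t 1 (nat_lit 0) (.ax 11 12 13 15 1), .t 1 (nat_lit 0) (.ax 11 12 13 15 2), .t 1 (nat_lit 0) (.ax 11 12 13 15 3), .t 1 (nat_lit 0) (.ax 11 12 13 15 4), .t 1 (nat_lit 0) (.ax 11 12 13 15 5), .t 1 (nat_lit 0) (.ax 11 12 13 15 6), .t 1 (nat_lit 0) (.ax 11 12 13 15 7), .t 1 (nat_lit 0) (.ax 11 12 13 16 0), .t 1 (nat_lit 0) (.ax 11 12 13 16 1), .t 1 (nat_lit 0) (.ax 11 12 13 16 2), .t 1 (nat_lit 0) (.ax 11 12 13 16 3), .t 1 (nat_lit 0) (.ax 11 12 13 16 4),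 .t 1 (nat_lit 0) (.ax 11 12 13 16 5), .t 1 (nat_lit 0) (.ax 11 12 13 16 6), .t 1 (nat_lit 0) (.ax 11 12 13 16 7), .t 1 (nat_lit 0) (.ax 11 12 13 17 6), .t 1 (nat_lit 0) (.ax 11 12 13 18 3), .t 1 (nat_lit 0) (.ax 11 12 13 18 5), .t 1 (nat_lit 0) (.ax 11 12 13 18 6), .t 1 (nat_lit 0) (.ax 11 12 13 19 2), .t 1 (nat_lit 0) (.ax 11 12 13 19 3), .t 1 (nat_lit 0) (.ax 11 12 13 19 4), .t 1 (nat_lit 0) (.ax 11 12 13 21 2), .t 1 (nat_lit 0) (.ax 11 12 13 21 4), .t 1 (nat_lit 0) (.ax 11 12 13 21 6), .t 1 (nat_lit 0) (.ax 11 12 13 22 2), .t 1 (nat_lit 0) (.ax 11 12 14 15 0), .t 1 (nat_lit 0) (.ax 11 12 14 15 1)] (by decide +kernel) (by decide +kernel)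
theorem b80 : B 2560 2592 := Blk.of_chk [.t 1 (nat_lit 0) (.ax 11 12 14 15 2), .t 1 (nat_lit 0) (.ax 11 12 14 15 3), .t 1 (nat_lit 0) (.ax 11 12 14 15 4), .t 1 (nat_lit 0) (.ax 11 12 14 15 5), .t 1 (nat_lit 0) (.ax 11 12 14 15 6), .t 1 (nat_lit 0) (.ax 11 12 14 16 0), .t 1 (nat_lit 0) (.ax 11 12 14 16 1), .t 1 (nat_lit 0) (.ax 11 12 14 16 2), .t 1 (nat_lit 0) (.ax 11 12 14 16 3), .t 1 (nat_lit 0) (.ax 11 12 14 16 4), .t 1 (nat_lit 0) (.ax 11 12 14 16 5), .t 1 (nat_lit 0) (.ax 11 12 14 16 6), .t 1 (nat_lit 0) (.ax 11 12 14 17 3), .t 1 (nat_lit 0) (.ax 11 12 14 17 5), .t 1 (nat_lit 0) (.ax 11 12 14 19 0), .t 1 (nat_lit 0) (.ax 11 12 14 19 2), .t 1 (nat_lit 0) (.ax 11 12 14 20 3), .t 1 (nat_lit 0) (.ax 11 12 14 21 2), .t 1 (nat_lit 0) (.ax 11 12 14 21 4), .t 1 (nat_lit 0) (.ax 11 12 14 22 0), .t 1 (nat_lit 0) (.ax 11 12 15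 16 0), .t 1 (nat_lit 0) (.ax 11 12 15 16 1), .t 1 (nat_lit 0) (.ax 11 12 15 16 2), .t 1 (nat_lit 0) (.ax 11 12 15 16 3), .t 1 (nat_lit 0) (.ax 11 12 15 16 4), .t 1 (nat_lit 0) (.ax 11 12 15 16 5), .t 1 (nat_lit 0) (.ax 11 12 15 16 6), .t 1 (nat_lit 0) (.ax 11 12 15 16 7), .t 1 (nat_lit 0) (.ax 11 12 15 18 3), .t 1 (nat_lit 0) (.ax 11 12 15 19 0), .t 1 (nat_lit 0) (.ax 11 12 15 19 3), .t 1 (nat_lit 0) (.ax 11 12 15 21 3)] (by decide +kernel) (by decide +kernel)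
theorem b81 : B 2592 2624 := Blk.of_chk [.t 1 (nat_lit 0) (.ax 11 12 16 17 4), .t 1 (nat_lit 0) (.ax 11 12 16 18 4), .t 1 (nat_lit 0) (.ax 11 12 21 22 5), .t 1 (nat_lit 0) (.ax 11 13 14 15 0), .t 1 (nat_lit 0) (.ax 11 13 14 15 1), .t 1 (nat_lit 0) (.ax 11 13 14 15 2), .t 1 (nat_lit 0) (.ax 11 13 14 15 3), .t 1 (nat_lit 0) (.ax 11 13 14 15 4), .t 1 (nat_lit 0) (.ax 11 13 14 15 5), .t 1 (nat_lit 0) (.ax 11 13 14 16 0), .t 1 (nat_lit 0) (.ax 11 13 14 16 1), .t 1 (nat_lit 0) (.ax 11 13 14 16 3), .t 1 (nat_lit 0) (.ax 11 13 14 16 4), .t 1 (nat_lit 0) (.ax 11 13 14 16 5), .t 1 (nat_lit 0) (.ax 11 13 14 19 4), .t 1 (nat_lit 0) (.ax 11 13 14 20 3), .t 1 (nat_lit 0) (.ax 11 13 14 20 4), .t 1 (nat_lit 0) (.ax 11 13 14 21 2), .t 1 (nat_lit 0) (.ax 11 13 14 21 4), .t 1 (nat_lit 0) (.ax 11 13 15 16 0), .t 1 (nat_lit 0) (.ax 11 13 15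 16 1), .t 1 (nat_lit 0) (.ax 11 13 15 16 2), .t 1 (nat_lit 0) (.ax 11 13 15 16 3), .t 1 (nat_lit 0) (.ax 11 13 15 16 4), .t 1 (nat_lit 0) (.ax 11 13 15 16 5), .t 1 (nat_lit 0) (.ax 11 13 15 16 7), .t 1 (nat_lit 0) (.ax 11 13 15 19 0), .t 1 (nat_lit 0) (.ax 11 13 15 21 0), .t 1 (nat_lit 0) (.ax 11 13 16 18 4), .t 1 (nat_lit 0) (.ax 11 13 16 19 4), .t 1 (nat_lit 0) (.ax 11 13 17 19 2), .t 1 (nat_lit 0) (.ax 11 13 18 19 0)] (by decide +kernel) (by decide +kernel)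
theorem b82 : B 2624 2656 := Blk.of_chk [.t 1 (nat_lit 0) (.ax 11 13 20 22 4), .t 1 (nat_lit 0) (.ax 11 13 21 22 5), .t 1 (nat_lit 0) (.ax 11 14 15 16 0), .t 1 (nat_lit 0) (.ax 11 14 15 16 1), .t 1 (nat_lit 0) (.ax 11 14 15 16 3), .t 1 (nat_lit 0) (.ax 11 14 15 16 4), .t 1 (nat_lit 0) (.ax 11 14 15 16 5), .t 1 (nat_lit 0) (.ax 11 14 15 17 4), .t 1 (nat_lit 0) (.ax 11 14 15 18 4), .t 1 (nat_lit 0) (.ax 11 14 15 19 4), .t 1 (nat_lit 0) (.ax 11 14 15 19 6), .t 1 (nat_lit 0) (.ax 11 14 16 19 4), .t 1 (nat_lit 0) (.ax 11 14 18 19 1), .t 1 (nat_lit 0) (.ax 11 14 18 21 2), .t 1 (nat_lit 0) (.ax 11 14 18 21 4), .t 1 (nat_lit 0) (.ax 11 14 19 20 4), .t 1 (nat_lit 0) (.ax 11 14 20 22 4), .t 1 (nat_lit 0) (.ax 11 14 21 22 5), .t 1 (nat_lit 0) (.ax 11 15 16 18 4), .t 1 (nat_lit 0) (.ax 11 15 16 19 4), .t 1 (nat_lit 0) (.ax 11 15 16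 21 4), .t 1 (nat_lit 0) (.ax 11 16 19 21 0), .t 1 (nat_lit 0) (.ax 11 20 21 22 5), .t 1 (nat_lit 0) (.ax 12 13 14 15 0), .t 1 (nat_lit 0) (.ax 12 13 14 15 1), .t 1 (nat_lit 0) (.ax 12 13 14 15 2), .t 1 (nat_lit 0) (.ax 12 13 14 15 3), .t 1 (nat_lit 0) (.ax 12 13 14 15 4), .t 1 (nat_lit 0) (.ax 12 13 14 15 5), .t 1 (nat_lit 0) (.ax 12 13 14 15 6), .t 1 (nat_lit 0) (.ax 12 13 14 15 7), .t 1 (nat_lit 0) (.ax 12 13 14 16 0)] (by decide +kernel) (by decide +kernel)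
theorem b83 : B 2656 2688 := Blk.of_chk [.t 1 (nat_lit 0) (.ax 12 13 14 16 1), .t 1 (nat_lit 0) (.ax 12 13 14 16 2), .t 1 (nat_lit 0) (.ax 12 13 14 16 3), .t 1 (nat_lit 0) (.ax 12 13 14 16 4), .t 1 (nat_lit 0) (.ax 12 13 14 16 5), .t 1 (nat_lit 0) (.ax 12 13 14 16 6), .t 1 (nat_lit 0) (.ax 12 13 14 16 7), .t 1 (nat_lit 0) (.ax 12 13 14 17 2), .t 1 (nat_lit 0) (.ax 12 13 14 17 3), .t 1 (nat_lit 0) (.ax 12 13 14 17 4), .t 1 (nat_lit 0) (.ax 12 13 14 17 6), .t 1 (nat_lit 0) (.ax 12 13 14 18 1), .t 1 (nat_lit 0) (.ax 12 13 14 18 4), .t 1 (nat_lit 0) (.ax 12 13 14 18 6), .t 1 (nat_lit 0) (.ax 12 13 14 18 7), .t 1 (nat_lit 0) (.ax 12 13 14 19 0), .t 1 (nat_lit 0) (.ax 12 13 14 19 1), .t 1 (nat_lit 0) (.ax 12 13 14 19 4), .t 1 (nat_lit 0) (.ax 12 13 14 19 5), .t 1 (nat_lit 0) (.ax 12 13 14 19 6), .t 1 (nat_lit 0) (.ax 12 13 14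 19 7), .t 1 (nat_lit 0) (.ax 12 13 14 20 0), .t 1 (nat_lit 0) (.ax 12 13 14 20 1), .t 1 (nat_lit 0) (.ax 12 13 14 20 3), .t 1 (nat_lit 0) (.ax 12 13 14 21 2), .t 1 (nat_lit 0) (.ax 12 13 14 21 3), .t 1 (nat_lit 0) (.ax 12 13 14 21 4), .t 1 (nat_lit 0) (.ax 12 13 14 21 5), .t 1 (nat_lit 0) (.ax 12 13 14 22 0), .t 1 (nat_lit 0) (.ax 12 13 15 16 0), .t 1 (nat_lit 0) (.ax 12 13 15 16 1), .t 1 (nat_lit 0) (.ax 12 13 15 16 2)] (by decide +kernel) (by decide +kernel)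
theorem b84 : B 2688 2720 := Blk.of_chk [.t 1 (nat_lit 0) (.ax 12 13 15 16 3), .t 1 (nat_lit 0) (.ax 12 13 15 16 4), .t 1 (nat_lit 0) (.ax 12 13 15 16 5), .t 1 (nat_lit 0) (.ax 12 13 15 16 6), .t 1 (nat_lit 0) (.ax 12 13 15 17 0), .t 1 (nat_lit 0) (.ax 12 13 15 17 1), .t 1 (nat_lit 0) (.ax 12 13 15 17 3), .t 1 (nat_lit 0) (.ax 12 13 15 17 4), .t 1 (nat_lit 0) (.ax 12 13 15 17 5), .t 1 (nat_lit 0) (.ax 12 13 15 17 7), .t 1 (nat_lit 0) (.ax 12 13 15 18 0), .t 1 (nat_lit 0) (.ax 12 13 15 18 3), .t 1 (nat_lit 0) (.ax 12 13 15 18 4), .t 1 (nat_lit 0) (.ax 12 13 15 19 0), .t 1 (nat_lit 0) (.ax 12 13 15 19 2), .t 1 (nat_lit 0) (.ax 12 13 15 19 3), .t 1 (nat_lit 0) (.ax 12 13 15 19 4), .t 1 (nat_lit 0) (.ax 12 13 15 19 7), .t 1 (nat_lit 0) (.ax 12 13 15 21 0), .t 1 (nat_lit 0) (.ax 12 13 15 22 0), .t 1 (nat_lit 0) (.ax 12 13 16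 17 1), .t 1 (nat_lit 0) (.ax 12 13 16 17 2), .t 1 (nat_lit 0) (.ax 12 13 16 17 4), .t 1 (nat_lit 0) (.ax 12 13 16 18 1), .t 1 (nat_lit 0) (.ax 12 13 16 18 2), .t 1 (nat_lit 0) (.ax 12 13 16 18 4), .t 1 (nat_lit 0) (.ax 12 13 16 19 4), .t 1 (nat_lit 0) (.ax 12 13 16 19 6), .t 1 (nat_lit 0) (.ax 12 13 16 21 4), .t 1 (nat_lit 0) (.ax 12 13 17 18 0), .t 1 (nat_lit 0) (.ax 12 13 17 18 1), .t 1 (nat_lit 0) (.ax 12 13 17 18 5)] (by decide +kernel) (by decide +kernel)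
theorem b85 : B 2720 2752 := Blk.of_chk [.t 1 (nat_lit 0) (.ax 12 13 17 19 0), .t 1 (nat_lit 0) (.ax 12 13 17 19 1), .t 1 (nat_lit 0) (.ax 12 13 17 19 2), .t 1 (nat_lit 0) (.ax 12 13 17 19 4), .t 1 (nat_lit 0) (.ax 12 13 17 21 4), .t 1 (nat_lit 0) (.ax 12 13 18 19 0), .t 1 (nat_lit 0) (.ax 12 13 18 19 1), .t 1 (nat_lit 0) (.ax 12 13 18 19 4), .t 1 (nat_lit 0) (.ax 12 13 18 19 6), .t 1 (nat_lit 0) (.ax 12 13 18 21 2), .t 1 (nat_lit 0) (.ax 12 13 18 21 4), .t 1 (nat_lit 0) (.ax 12 13 19 20 4), .t 1 (nat_lit 0) (.ax 12 13 19 21 4), .t 1 (nat_lit 0) (.ax 12 13 19 22 4), .t 1 (nat_lit 0) (.ax 12 13 20 21 4), .t 1 (nat_lit 0) (.ax 12 13 20 22 4), .t 1 (nat_lit 0) (.ax 12 14 15 16 0), .t 1 (nat_lit 0) (.ax 12 14 15 16 1), .t 1 (nat_lit 0) (.ax 12 14 15 16 2), .t 1 (nat_lit 0) (.ax 12 14 15 16 3), .t 1 (nat_lit 0) (.ax 12 14 15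 16 4), .t 1 (nat_lit 0) (.ax 12 14 15 16 5), .t 1 (nat_lit 0) (.ax 12 14 15 16 6), .t 1 (nat_lit 0) (.ax 12 14 15 17 1), .t 1 (nat_lit 0) (.ax 12 14 15 17 3), .t 1 (nat_lit 0) (.ax 12 14 15 17 4), .t 1 (nat_lit 0) (.ax 12 14 15 17 5), .t 1 (nat_lit 0) (.ax 12 14 15 18 0), .t 1 (nat_lit 0) (.ax 12 14 15 18 1), .t 1 (nat_lit 0) (.ax 12 14 15 18 3), .t 1 (nat_lit 0) (.ax 12 14 15 18 4), .t 1 (nat_lit 0) (.ax 12 14 15 18 5)] (by decide +kernel) (by decide +kernel)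
theorem b86 : B 2752 2784 := Blk.of_chk [.t 1 (nat_lit 0) (.ax 12 14 15 19 0), .t 1 (nat_lit 0) (.ax 12 14 15 19 1), .t 1 (nat_lit 0) (.ax 12 14 15 19 2), .t 1 (nat_lit 0) (.ax 12 14 15 19 4), .t 1 (nat_lit 0) (.ax 12 14 15 19 7), .t 1 (nat_lit 0) (.ax 12 14 15 20 4), .t 1 (nat_lit 0) (.ax 12 14 15 21 0), .t 1 (nat_lit 0) (.ax 12 14 15 21 2), .t 1 (nat_lit 0) (.ax 12 14 15 21 3), .t 1 (nat_lit 0) (.ax 12 14 15 21 4), .t 1 (nat_lit 0) (.ax 12 14 15 22 4), .t 1 (nat_lit 0) (.ax 12 14 15 22 6), .t 1 (nat_lit 0) (.ax 12 14 16 17 1), .t 1 (nat_lit 0) (.ax 12 14 16 17 2), .t 1 (nat_lit 0) (.ax 12 14 16 17 4), .t 1 (nat_lit 0) (.ax 12 14 16 18 1), .t 1 (nat_lit 0) (.ax 12 14 16 18 2), .t 1 (nat_lit 0) (.ax 12 14 16 18 4), .t 1 (nat_lit 0) (.ax 12 14 16 18 6), .t 1 (nat_lit 0) (.ax 12 14 16 19 4), .t 1 (nat_lit 0) (.ax 12 14 16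 20 4), .t 1 (nat_lit 0) (.ax 12 14 16 22 4), .t 1 (nat_lit 0) (.ax 12 14 17 18 0), .t 1 (nat_lit 0) (.ax 12 14 17 18 2), .t 1 (nat_lit 0) (.ax 12 14 17 18 3), .t 1 (nat_lit 0) (.ax 12 14 17 18 5), .t 1 (nat_lit 0) (.ax 12 14 17 19 0), .t 1 (nat_lit 0) (.ax 12 14 17 19 1), .t 1 (nat_lit 0) (.ax 12 14 17 19 2), .t 1 (nat_lit 0) (.ax 12 14 17 19 4), .t 1 (nat_lit 0) (.ax 12 14 17 21 2), .t 1 (nat_lit 0) (.ax 12 14 17 21 4)] (by decide +kernel) (by decide +kernel)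
theorem b87 : B 2784 2816 := Blk.of_chk [.t 1 (nat_lit 0) (.ax 12 14 18 19 0), .t 1 (nat_lit 0) (.ax 12 14 18 19 1), .t 1 (nat_lit 0) (.ax 12 14 18 19 2), .t 1 (nat_lit 0) (.ax 12 14 18 19 4), .t 1 (nat_lit 0) (.ax 12 14 18 19 6), .t 1 (nat_lit 0) (.ax 12 14 18 21 0), .t 1 (nat_lit 0) (.ax 12 14 18 21 2), .t 1 (nat_lit 0) (.ax 12 14 18 21 3), .t 1 (nat_lit 0) (.ax 12 14 18 21 4), .t 1 (nat_lit 0) (.ax 12 14 19 20 4), .t 1 (nat_lit 0) (.ax 12 14 19 21 4), .t 1 (nat_lit 0) (.ax 12 14 19 22 4), .t 1 (nat_lit 0) (.ax 12 14 20 22 4), .t 1 (nat_lit 0) (.ax 12 14 21 22 5), .t 1 (nat_lit 0) (.ax 12 15 16 17 1), .t 1 (nat_lit 0) (.ax 12 15 16 17 2), .t 1 (nat_lit 0) (.ax 12 15 16 17 4), .t 1 (nat_lit 0) (.ax 12 15 16 18 1), .t 1 (nat_lit 0) (.ax 12 15 16 18 2), .t 1 (nat_lit 0) (.ax 12 15 16 18 4), .t 1 (nat_lit 0) (.ax 12 15 16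 19 4), .t 1 (nat_lit 0) (.ax 12 15 16 21 4), .t 1 (nat_lit 0) (.ax 12 15 16 22 4), .t 1 (nat_lit 0) (.ax 12 15 17 18 4), .t 1 (nat_lit 0) (.ax 12 15 17 19 0), .t 1 (nat_lit 0) (.ax 12 15 17 19 1), .t 1 (nat_lit 0) (.ax 12 15 17 19 2), .t 1 (nat_lit 0) (.ax 12 15 17 19 4), .t 1 (nat_lit 0) (.ax 12 15 17 20 4), .t 1 (nat_lit 0) (.ax 12 15 17 21 4), .t 1 (nat_lit 0) (.ax 12 15 17 22 4), .t 1 (nat_lit 0) (.ax 12 15 18 19 1)] (by decide +kernel) (by decide +kernel)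
theorem b88 : B 2816 2848 := Blk.of_chk [.t 1 (nat_lit 0) (.ax 12 15 18 19 2), .t 1 (nat_lit 0) (.ax 12 15 18 19 4), .t 1 (nat_lit 0) (.ax 12 15 18 19 6), .t 1 (nat_lit 0) (.ax 12 15 18 21 4), .t 1 (nat_lit 0) (.ax 12 15 19 21 4), .t 1 (nat_lit 0) (.ax 12 15 19 22 4), .t 1 (nat_lit 0) (.ax 12 16 17 18 0), .t 1 (nat_lit 0) (.ax 12 16 17 18 2), .t 1 (nat_lit 0) (.ax 12 16 17 18 4), .t 1 (nat_lit 0) (.ax 12 16 17 18 5), .t 1 (nat_lit 0) (.ax 12 16 19 21 0), .t 1 (nat_lit 0) (.ax 12 17 18 19 2), .t 1 (nat_lit 0) (.ax 12 17 18 19 4), .t 1 (nat_lit 0) (.ax 12 17 19 20 4), .t 1 (nat_lit 0) (.ax 12 18 19 20 4), .t 1 (nat_lit 0) (.ax 12 18 19 21 4), .t 1 (nat_lit 0) (.ax 12 18 19 22 4), .t 1 (nat_lit 0) (.ax 12 20 21 22 5), .t 1 (nat_lit 0) (.ax 13 14 15 16 0), .t 1 (nat_lit 0) (.ax 13 14 15 16 1), .t 1 (nat_lit 0) (.ax 13 14 15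 16 2), .t 1 (nat_lit 0) (.ax 13 14 15 16 3), .t 1 (nat_lit 0) (.ax 13 14 15 16 4), .t 1 (nat_lit 0) (.ax 13 14 15 16 5), .t 1 (nat_lit 0) (.ax 13 14 15 16 6), .t 1 (nat_lit 0) (.ax 13 14 15 16 7), .t 1 (nat_lit 0) (.ax 13 14 15 17 0), .t 1 (nat_lit 0) (.ax 13 14 15 17 1), .t 1 (nat_lit 0) (.ax 13 14 15 17 2), .t 1 (nat_lit 0) (.ax 13 14 15 17 3), .t 1 (nat_lit 0) (.ax 13 14 15 17 4), .t 1 (nat_lit 0) (.ax 13 14 15 17 5)] (by decide +kernel) (by decide +kernel)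
theorem b89 : B 2848 2880 := Blk.of_chk [.t 1 (nat_lit 0) (.ax 13 14 15 17 6), .t 1 (nat_lit 0) (.ax 13 14 15 17 7), .t 1 (nat_lit 0) (.ax 13 14 15 18 0), .t 1 (nat_lit 0) (.ax 13 14 15 18 1), .t 1 (nat_lit 0) (.ax 13 14 15 18 2), .t 1 (nat_lit 0) (.ax 13 14 15 18 3), .t 1 (nat_lit 0) (.ax 13 14 15 18 4), .t 1 (nat_lit 0) (.ax 13 14 15 18 5), .t 1 (nat_lit 0) (.ax 13 14 15 18 6), .t 1 (nat_lit 0) (.ax 13 14 15 19 0), .t 1 (nat_lit 0) (.ax 13 14 15 19 1), .t 1 (nat_lit 0) (.ax 13 14 15 19 2), .t 1 (nat_lit 0) (.ax 13 14 15 19 3), .t 1 (nat_lit 0) (.ax 13 14 15 19 4), .t 1 (nat_lit 0) (.ax 13 14 15 19 5), .t 1 (nat_lit 0) (.ax 13 14 15 19 6), .t 1 (nat_lit 0) (.ax 13 14 15 19 7), .t 1 (nat_lit 0) (.ax 13 14 15 20 0), .t 1 (nat_lit 0) (.ax 13 14 15 20 2), .t 1 (nat_lit 0) (.ax 13 14 15 20 3), .t 1 (nat_lit 0) (.ax 13 14 15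 20 4), .t 1 (nat_lit 0) (.ax 13 14 15 21 0), .t 1 (nat_lit 0) (.ax 13 14 15 21 2), .t 1 (nat_lit 0) (.ax 13 14 15 21 4), .t 1 (nat_lit 0) (.ax 13 14 15 21 5), .t 1 (nat_lit 0) (.ax 13 14 15 21 7), .t 1 (nat_lit 0) (.ax 13 14 15 22 0), .t 1 (nat_lit 0) (.ax 13 14 15 22 2), .t 1 (nat_lit 0) (.ax 13 14 16 17 1), .t 1 (nat_lit 0) (.ax 13 14 16 17 2), .t 1 (nat_lit 0) (.ax 13 14 16 17 4), .t 1 (nat_lit 0) (.ax 13 14 16 18 1)] (by decide +kernel) (by decide +kernel)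
theorem b90 : B 2880 2912 := Blk.of_chk [.t 1 (nat_lit 0) (.ax 13 14 16 18 2), .t 1 (nat_lit 0) (.ax 13 14 16 18 4), .t 1 (nat_lit 0) (.ax 13 14 16 19 4), .t 1 (nat_lit 0) (.ax 13 14 16 20 4), .t 1 (nat_lit 0) (.ax 13 14 16 21 4), .t 1 (nat_lit 0) (.ax 13 14 16 21 6), .t 1 (nat_lit 0) (.ax 13 14 16 22 4), .t 1 (nat_lit 0) (.ax 13 14 17 18 0), .t 1 (nat_lit 0) (.ax 13 14 17 18 1), .t 1 (nat_lit 0) (.ax 13 14 17 18 2), .t 1 (nat_lit 0) (.ax 13 14 17 18 3), .t 1 (nat_lit 0) (.ax 13 14 17 18 4), .t 1 (nat_lit 0) (.ax 13 14 17 18 5), .t 1 (nat_lit 0) (.ax 13 14 17 19 0), .t 1 (nat_lit 0) (.ax 13 14 17 19 1), .t 1 (nat_lit 0) (.ax 13 14 17 19 2), .t 1 (nat_lit 0) (.ax 13 14 17 19 3), .t 1 (nat_lit 0) (.ax 13 14 17 19 4), .t 1 (nat_lit 0) (.ax 13 14 17 19 5), .t 1 (nat_lit 0) (.ax 13 14 17 20 2), .t 1 (nat_lit 0) (.ax 13 14 17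 20 3), .t 1 (nat_lit 0) (.ax 13 14 17 20 4), .t 1 (nat_lit 0) (.ax 13 14 17 21 2), .t 1 (nat_lit 0) (.ax 13 14 17 21 4), .t 1 (nat_lit 0) (.ax 13 14 17 22 2), .t 1 (nat_lit 0) (.ax 13 14 18 19 0), .t 1 (nat_lit 0) (.ax 13 14 18 19 1), .t 1 (nat_lit 0) (.ax 13 14 18 19 2), .t 1 (nat_lit 0) (.ax 13 14 18 19 3), .t 1 (nat_lit 0) (.ax 13 14 18 19 4), .t 1 (nat_lit 0) (.ax 13 14 18 19 5), .t 1 (nat_lit 0) (.ax 13 14 18 19 6)] (by decide +kernel) (by decide +kernel)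
theorem b91 : B 2912 2944 := Blk.of_chk [.t 1 (nat_lit 0) (.ax 13 14 18 21 2), .t 1 (nat_lit 0) (.ax 13 14 18 21 3), .t 1 (nat_lit 0) (.ax 13 14 18 21 4), .t 1 (nat_lit 0) (.ax 13 14 19 20 4), .t 1 (nat_lit 0) (.ax 13 14 19 21 4), .t 1 (nat_lit 0) (.ax 13 14 20 21 4), .t 1 (nat_lit 0) (.ax 13 14 20 22 4), .t 1 (nat_lit 0) (.ax 13 14 21 22 5), .t 1 (nat_lit 0) (.ax 13 15 16 17 1), .t 1 (nat_lit 0) (.ax 13 15 16 17 2), .t 1 (nat_lit 0) (.ax 13 15 16 17 4), .t 1 (nat_lit 0) (.ax 13 15 16 18 1), .t 1 (nat_lit 0) (.ax 13 15 16 18 2), .t 1 (nat_lit 0) (.ax 13 15 16 18 4), .t 1 (nat_lit 0) (.ax 13 15 16 19 4), .t 1 (nat_lit 0) (.ax 13 15 16 20 4), .t 1 (nat_lit 0) (.ax 13 15 16 21 4), .t 1 (nat_lit 0) (.ax 13 15 17 18 0), .t 1 (nat_lit 0) (.ax 13 15 17 18 1), .t 1 (nat_lit 0) (.ax 13 15 17 18 2), .t 1 (nat_lit 0) (.ax 13 15 17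 18 4), .t 1 (nat_lit 0) (.ax 13 15 17 18 5), .t 1 (nat_lit 0) (.ax 13 15 17 19 0), .t 1 (nat_lit 0) (.ax 13 15 17 19 1), .t 1 (nat_lit 0) (.ax 13 15 17 19 2), .t 1 (nat_lit 0) (.ax 13 15 17 19 3), .t 1 (nat_lit 0) (.ax 13 15 17 19 4), .t 1 (nat_lit 0) (.ax 13 15 17 19 5), .t 1 (nat_lit 0) (.ax 13 15 17 19 6), .t 1 (nat_lit 0) (.ax 13 15 17 20 1), .t 1 (nat_lit 0) (.ax 13 15 17 21 0), .t 1 (nat_lit 0) (.ax 13 15 17 21 2)] (by decide +kernel) (by decide +kernel)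
theorem b92 : B 2944 2976 := Blk.of_chk [.t 1 (nat_lit 0) (.ax 13 15 18 19 0), .t 1 (nat_lit 0) (.ax 13 15 18 19 1), .t 1 (nat_lit 0) (.ax 13 15 18 19 2), .t 1 (nat_lit 0) (.ax 13 15 18 19 3), .t 1 (nat_lit 0) (.ax 13 15 18 19 4), .t 1 (nat_lit 0) (.ax 13 15 18 19 5), .t 1 (nat_lit 0) (.ax 13 15 18 19 6), .t 1 (nat_lit 0) (.ax 13 15 18 21 2), .t 1 (nat_lit 0) (.ax 13 15 19 20 4), .t 1 (nat_lit 0) (.ax 13 15 19 21 4), .t 1 (nat_lit 0) (.ax 13 15 19 22 4), .t 1 (nat_lit 0) (.ax 13 16 17 18 0), .t 1 (nat_lit 0) (.ax 13 16 17 18 2), .t 1 (nat_lit 0) (.ax 13 16 17 18 4), .t 1 (nat_lit 0) (.ax 13 16 17 18 5), .t 1 (nat_lit 0) (.ax 13 16 19 21 0), .t 1 (nat_lit 0) (.ax 13 17 18 19 0), .t 1 (nat_lit 0) (.ax 13 17 18 19 1), .t 1 (nat_lit 0) (.ax 13 17 18 19 2), .t 1 (nat_lit 0) (.ax 13 17 18 19 4), .t 1 (nat_lit 0) (.ax 13 17 18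 19 5), .t 1 (nat_lit 0) (.ax 13 17 18 20 0), .t 1 (nat_lit 0) (.ax 13 17 18 20 4), .t 1 (nat_lit 0) (.ax 13 17 19 20 4), .t 1 (nat_lit 0) (.ax 13 17 19 21 4), .t 1 (nat_lit 0) (.ax 13 17 20 22 4), .t 1 (nat_lit 0) (.ax 13 17 21 22 5), .t 1 (nat_lit 0) (.ax 13 18 19 20 4), .t 1 (nat_lit 0) (.ax 13 18 19 20 6), .t 1 (nat_lit 0) (.ax 13 18 19 21 4), .t 1 (nat_lit 0) (.ax 13 18 19 22 4), .t 1 (nat_lit 0) (.ax 13 18 20 22 4)] (by decide +kernel) (by decide +kernel)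
theorem b93 : B 2976 3008 := Blk.of_chk [.t 1 (nat_lit 0) (.ax 13 18 21 22 5), .t 1 (nat_lit 0) (.ax 13 19 20 21 0), .t 1 (nat_lit 0) (.ax 13 20 21 22 5), .t 1 (nat_lit 0) (.ax 14 15 16 17 1), .t 1 (nat_lit 0) (.ax 14 15 16 17 2), .t 1 (nat_lit 0) (.ax 14 15 16 17 4), .t 1 (nat_lit 0) (.ax 14 15 16 18 1), .t 1 (nat_lit 0) (.ax 14 15 16 18 2), .t 1 (nat_lit 0) (.ax 14 15 16 18 4), .t 1 (nat_lit 0) (.ax 14 15 16 19 4), .t 1 (nat_lit 0) (.ax 14 15 16 20 4), .t 1 (nat_lit 0) (.ax 14 15 16 21 4), .t 1 (nat_lit 0) (.ax 14 15 16 22 4), .t 1 (nat_lit 0) (.ax 14 15 17 18 0), .t 1 (nat_lit 0) (.ax 14 15 17 18 1), .t 1 (nat_lit 0) (.ax 14 15 17 18 4), .t 1 (nat_lit 0) (.ax 14 15 17 18 5), .t 1 (nat_lit 0) (.ax 14 15 17 19 0), .t 1 (nat_lit 0) (.ax 14 15 17 19 1), .t 1 (nat_lit 0) (.ax 14 15 17 19 2), .t 1 (nat_lit 0) (.ax 14 15 17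 19 3), .t 1 (nat_lit 0) (.ax 14 15 17 19 4), .t 1 (nat_lit 0) (.ax 14 15 17 19 5), .t 1 (nat_lit 0) (.ax 14 15 17 20 0), .t 1 (nat_lit 0) (.ax 14 15 17 20 1), .t 1 (nat_lit 0) (.ax 14 15 17 20 3), .t 1 (nat_lit 0) (.ax 14 15 17 20 4), .t 1 (nat_lit 0) (.ax 14 15 17 20 5), .t 1 (nat_lit 0) (.ax 14 15 17 21 0), .t 1 (nat_lit 0) (.ax 14 15 17 21 2), .t 1 (nat_lit 0) (.ax 14 15 17 21 4), .t 1 (nat_lit 0) (.ax 14 15 17 22 0)] (by decide +kernel) (by decide +kernel)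
theorem b94 : B 3008 3040 := Blk.of_chk [.t 1 (nat_lit 0) (.ax 14 15 18 19 0), .t 1 (nat_lit 0) (.ax 14 15 18 19 1), .t 1 (nat_lit 0) (.ax 14 15 18 19 2), .t 1 (nat_lit 0) (.ax 14 15 18 19 3), .t 1 (nat_lit 0) (.ax 14 15 18 19 4), .t 1 (nat_lit 0) (.ax 14 15 18 19 5), .t 1 (nat_lit 0) (.ax 14 15 18 20 0), .t 1 (nat_lit 0) (.ax 14 15 18 20 4), .t 1 (nat_lit 0) (.ax 14 15 18 20 5), .t 1 (nat_lit 0) (.ax 14 15 18 21 0), .t 1 (nat_lit 0) (.ax 14 15 18 21 2), .t 1 (nat_lit 0) (.ax 14 15 18 21 4), .t 1 (nat_lit 0) (.ax 14 15 19 20 4), .t 1 (nat_lit 0) (.ax 14 15 19 21 4), .t 1 (nat_lit 0) (.ax 14 15 19 22 4), .t 1 (nat_lit 0) (.ax 14 16 17 18 0), .t 1 (nat_lit 0) (.ax 14 16 17 18 2), .t 1 (nat_lit 0) (.ax 14 16 17 18 4), .t 1 (nat_lit 0) (.ax 14 16 17 18 5), .t 1 (nat_lit 0) (.ax 14 16 19 21 0), .t 1 (nat_lit 0) (.ax 14 17 18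 19 0), .t 1 (nat_lit 0) (.ax 14 17 18 19 1), .t 1 (nat_lit 0) (.ax 14 17 18 19 2), .t 1 (nat_lit 0) (.ax 14 17 18 19 4), .t 1 (nat_lit 0) (.ax 14 17 18 19 5), .t 1 (nat_lit 0) (.ax 14 17 18 20 1), .t 1 (nat_lit 0) (.ax 14 17 18 20 4), .t 1 (nat_lit 0) (.ax 14 17 18 21 6), .t 1 (nat_lit 0) (.ax 14 17 19 20 4), .t 1 (nat_lit 0) (.ax 14 17 19 20 6), .t 1 (nat_lit 0) (.ax 14 17 19 21 4), .t 1 (nat_lit 0) (.ax 14 17 19 22 4)] (by decide +kernel) (by decide +kernel)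
theorem b95 : B 3040 3072 := Blk.of_chk [.t 1 (nat_lit 0) (.ax 14 17 20 22 4), .t 1 (nat_lit 0) (.ax 14 17 21 22 5), .t 1 (nat_lit 0) (.ax 14 18 19 20 4), .t 1 (nat_lit 0) (.ax 14 18 19 21 4), .t 1 (nat_lit 0) (.ax 14 18 19 22 4), .t 1 (nat_lit 0) (.ax 14 18 20 22 4), .t 1 (nat_lit 0) (.ax 14 18 21 22 5), .t 1 (nat_lit 0) (.ax 14 19 20 21 0), .t 1 (nat_lit 0) (.ax 14 20 21 22 5), .t 1 (nat_lit 0) (.ax 15 16 17 18 0), .t 1 (nat_lit 0) (.ax 15 16 17 18 2), .t 1 (nat_lit 0) (.ax 15 16 17 18 4), .t 1 (nat_lit 0) (.ax 15 16 17 18 5), .t 1 (nat_lit 0) (.ax 15 16 19 21 0), .t 1 (nat_lit 0) (.ax 15 17 18 19 0), .t 1 (nat_lit 0) (.ax 15 17 18 19 1), .t 1 (nat_lit 0) (.ax 15 17 18 19 2), .t 1 (nat_lit 0) (.ax 15 17 18 19 4), .t 1 (nat_lit 0) (.ax 15 17 18 19 5), .t 1 (nat_lit 0) (.ax 15 17 18 19 6), .t 1 (nat_lit 0) (.ax 15 17 18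 19 7), .t 1 (nat_lit 0) (.ax 15 17 18 20 0), .t 1 (nat_lit 0) (.ax 15 17 18 20 1), .t 1 (nat_lit 0) (.ax 15 17 18 20 3), .t 1 (nat_lit 0) (.ax 15 17 18 21 6), .t 1 (nat_lit 0) (.ax 15 17 19 20 4), .t 1 (nat_lit 0) (.ax 15 17 19 21 4), .t 1 (nat_lit 0) (.ax 15 17 19 22 4), .t 1 (nat_lit 0) (.ax 15 17 20 21 4), .t 1 (nat_lit 0) (.ax 15 17 20 22 4), .t 1 (nat_lit 0) (.ax 15 17 21 22 5), .t 1 (nat_lit 0) (.ax 15 18 19 20 4)] (by decide +kernel) (by decide +kernel)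
theorem b96 : B 3072 3104 := Blk.of_chk [.t 1 (nat_lit 0) (.ax 15 18 19 20 6), .t 1 (nat_lit 0) (.ax 15 18 19 21 4), .t 1 (nat_lit 0) (.ax 15 18 20 21 4), .t 1 (nat_lit 0) (.ax 15 18 20 22 4), .t 1 (nat_lit 0) (.ax 15 18 21 22 5), .t 1 (nat_lit 0) (.ax 15 19 20 21 0), .t 1 (nat_lit 0) (.ax 15 20 21 22 5), .t 1 (nat_lit 0) (.ax 16 17 18 19 2), .t 1 (nat_lit 0) (.ax 16 17 18 20 3), .t 1 (nat_lit 0) (.ax 16 17 18 20 5), .t 1 (nat_lit 0) (.ax 16 17 19 21 3), .t 1 (nat_lit 0) (.ax 16 18 19 21 3), .t 1 (nat_lit 0) (.ax 17 18 19 20 4), .t 1 (nat_lit 0) (.ax 17 20 21 22 5), .t 1 (nat_lit 0) (.ax 18 20 21 22 5), .t 1 (nat_lit 0) (.fa 5), .t 1 (nat_lit 0) (.fa 3), .t 1 (nat_lit 0) (.cn 7 2), .t 4 (nat_lit 0xc0d0c0a0c09) (.z (.node 0 15 (.node 0 20 (.leaf [0,21,22]) (.leaf [16,19,20,18,17])) (.free 4 [1,2,3,4,5,6,7,8,9,10,11,12,13,14,15]))),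 .t 1 (nat_lit 0) (.fa 4), .t 1 (nat_lit 0) (.cn 2 3), .t 1 (nat_lit 0) (.fa 2), .t 8 (nat_lit 0x1610160015e0185018301670166) (.z (.node 2 4 (.node 0 8 (.free 4 [0,9,10,11,12,13,14,15,16,17,18,19,20,21,22]) (.leaf [2,5,7,8,6])) (.free 1 [1,3,4]))), .t 1 (nat_lit 0) (.fa 5), .t 9 (nat_lit 0xa590a820a7f0a640a610ab50ab30002) (.z (.node 16 0 (.edon 0 12 (.edon 4 6 (.free 2 [4,5,7,8,9,10,11]) (.leaf [1,3,6,2])) (.leaf [12,14,15,16,13])) (.free 2 [0,17,18,19,20,21,22]))), .t 3 (nat_lit 0x1fc01fb) (.z (.edon 0 20 (.node 2 16 (.leaf [0,2,17,18,19]) (.free 4 [1,3,4,5,6,7,8,9,10,11,12,13,14,15,16])) (.free 1 [20,21,22]))), .t 1 (nat_lit 0) (.cp 1 3), .t 1 (nat_lit 0) (.cn 2 3), .t 4 (nat_lit 0x208d408d2) (.z (.edon 16 4 (.node 0 6 (.edon 0 16 (.leaf [0,9,11,12,13]) (.free 2 [16,17,18,19,20,21,22])) (.leaf [1,3,6,2])) (.free 2 [4,5,7,8,10,14,15]))),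 .t 8 (nat_lit 0x7940793079107eb07e807a207a0) (.z (.node 0 7 (.node 0 12 (.edon 0 16 (.leaf [0,13,14,15]) (.free 2 [16,17,18,19,20,21,22])) (.leaf [8,10,12,11,9])) (.free 2 [1,2,3,4,5,6,7]))), .t 1 (nat_lit 0) (.cn 2 3), .t 8 (nat_lit 0x34e034c034b04a404a2036f036e) (.z (.edon 11 16 (.node 5 10 (.leaf [4,5,14,15,11]) (.leaf [7,8,10])) (.free 4 [0,1,2,3,6,9,12,13,16,17,18,19,20,21,22])))] (by decide +kernel) (by decide +kernel)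
theorem b97 : B 3104 3136 := Blk.of_chk [.t 6 (nat_lit 0x36f036e025802570203) (.z (.edon 3 16 (.node 5 10 (.leaf [3,4,5,14,15]) (.leaf [7,8,10])) (.free 4 [0,1,2,6,9,11,12,13,16,17,18,19,20,21,22]))), .t 1 (nat_lit 0) (.cn 2 3), .t 1 (nat_lit 0) (.fa 4), .t 5 (nat_lit 0x79307910a5c0a5a) (.z (.node 0 7 (.node 0 11 (.edon 0 16 (.leaf [0,12,13,14,15]) (.free 2 [16,17,18,19,20,21,22])) (.leaf [8,10,11,9])) (.free 2 [1,2,3,4,5,6,7]))), .t 8 (nat_lit 0x7e807fd07fa07f307f0081a0818) (.z (.node 0 7 (.edon 0 16 (.node 9 12 (.leaf [0,9,13,15]) (.leaf [8,10,14,12,11])) (.free 2 [16,17,18,19,20,21,22])) (.free 2 [1,2,3,4,5,6,7]))), .t 1 (nat_lit 0) (.fa 4), .t 1 (nat_lit 0) (.cp 2 3), .t 1 (nat_lit 0) (.cn 2 3), .t 1 (nat_lit 0) (.cp 2 3), .t 5 (nat_lit 0x9fc09fb07990798) (.z (.node 0 7 (.edon 9 16 (.leaf [8,10,14,9]) (.node 13 22 (.leaf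 [0,11,12,13,21]) (.free 2 [15,16,17,18,19,20,22]))) (.free 2 [1,2,3,4,5,6,7]))), .t 5 (nat_lit 0x14c006200060005) (.z (.edon 0 16 (.node 0 12 (.leaf [0,13,14,15]) (.edon 4 12 (.free 2 [4,5,6,7,8,9,10]) (.leaf [1,3,11,12,2]))) (.free 2 [16,17,18,19,20,21,22]))), .t 1 (nat_lit 0) (.cn 2 3), .t 1 (nat_lit 0) (.fa 5), .t 5 (nat_lit 0xc0e0c070bff0bfe) (.z (.edon 0 15 (.free 4 [0,1,2,3,4,5,6,7,8,9,10,11,12,13,14]) (.node 17 19 (.leaf [15,17,20,22,21]) (.leaf [16,18,19])))), .t 1 (nat_lit 0) (.cn 2 3), .t 5 (nat_lit 0x146005900060002) (.z (.edon 0 16 (.node 0 12 (.leaf [0,13,14,15]) (.node 6 11 (.leaf [1,3,6,12,2]) (.free 2 [4,5,7,8,9,10,11]))) (.free 2 [16,17,18,19,20,21,22]))), .t 1 (nat_lit 0) (.cn 2 3), .t 1 (nat_lit 0) (.cp 2 3), .t 4 (nat_lit 0x50a5c0a5a) (.z (.edon 0 16 (.node 0 11 (.leaf [0,12,13,14,15]) (.edon 4 11 (.free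 2 [4,5,6,7,8,9,10]) (.leaf [1,3,11,2]))) (.free 2 [16,17,18,19,20,21,22]))), .t 4 (nat_lit 0x20a5c0a5a) (.z (.edon 0 16 (.node 0 11 (.leaf [0,12,13,14,15]) (.edon 4 6 (.free 2 [4,5,7,8,9,10,11]) (.leaf [1,3,6,2]))) (.free 2 [16,17,18,19,20,21,22]))), .t 5 (nat_lit 0x145005800050002) (.z (.edon 0 16 (.node 0 12 (.leaf [0,13,14,15]) (.edon 4 11 (.free 2 [4,5,7,8,9,10,12]) (.leaf [1,3,6,11,2]))) (.free 2 [16,17,18,19,20,21,22]))), .t 5 (nat_lit 0x14c006200060005) (.z (.edon 0 16 (.node 0 12 (.leaf [0,13,14,15]) (.edon 4 11 (.free 2 [4,5,6,7,8,9,10]) (.leaf [1,3,11,12,2]))) (.free 2 [16,17,18,19,20,21,22]))), .t 7 (nat_lit 0xb180b16014c006200060005) (.z (.node 16 0 (.edon 0 13 (.edon 4 11 (.free 2 [4,5,6,7,8,9,10]) (.leaf [1,3,11,12,2])) (.leaf [13,16,15,14])) (.free 2 [0,17,18,19,20,21,22]))), .t 1 (nat_lit 0) (.fa 2), .t 1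 (nat_lit 0) (.cp 2 3), .t 1 (nat_lit 0) (.fa 3), .t 17 (nat_lit 0x7e8079607940793079107f907f607ef07ec07a708d508d30814081207a207a0) (.z (.node 7 0 (.free 2 [1,2,3,4,5,6,7]) (.node 13 0 (.leaf [8,10,13,12,11,9]) (.free 3 [0,14,15,16,17,18,19,20,21,22])))), .t 1 (nat_lit 0) (.fa 3), .t 5 (nat_lit 0x148005c00050004) (.z (.edon 16 4 (.node 0 11 (.edon 0 16 (.leaf [0,12,14,15]) (.free 2 [16,17,18,19,20,21,22])) (.leaf [1,3,9,11,2])) (.free 2 [4,5,6,7,8,10,13]))), .t 1 (nat_lit 0) (.cn 2 3), .t 1 (nat_lit 0) (.cn 2 3), .t 9 (nat_lit 0xa580a830a7e0a650a600ab60ab40005) (.z (.node 16 0 (.edon 0 12 (.edon 4 11 (.free 2 [4,5,6,7,8,9,10]) (.leaf [1,3,11,2])) (.leaf [12,13,16,15,14])) (.free 2 [0,17,18,19,20,21,22])))] (by decide +kernel) (by decide +kernel)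
theorem b98 : B 3136 3168 := Blk.of_chk [.t 12 (nat_lit 0x148005c0005000407f905cb05ca05ae05ad05a505a4) (.z (.edon 0 16 (.node 0 13 (.leaf [0,14,15]) (.edon 4 9 (.node 5 7 (.leaf [5,8,10,13,12]) (.leaf [4,6,7])) (.leaf [1,3,9,11,2]))) (.free 2 [16,17,18,19,20,21,22]))), .t 12 (nat_lit 0x148005c0005000407f9064606450625062406160615) (.z (.edon 0 16 (.node 0 13 (.leaf [0,14,15]) (.edon 4 9 (.node 6 7 (.leaf [6,8,10,13,12]) (.leaf [4,5,7])) (.leaf [1,3,9,11,2]))) (.free 2 [16,17,18,19,20,21,22]))), .t 27 (nat_lit 0x8b708b508b108b008ad09140910090d08f008ed08df08c908c408c208c10a040a0209af093f093a0929092708dc08da08c808c7) (.z (.edon 0 16 (.edon 0 9 (.free 3 [0,1,2,3,4,5,6,7,8]) (.leaf [9,10,13,15,14,12,11])) (.free 2 [16,17,18,19,20,21,22]))), .t 8 (nat_lit 0x98c0989098609af09ac09990997) (.z (.node 0 7 (.edon 0 16 (.edon 10 11 (.leaf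 [10,13,15,14,12]) (.leaf [0,8,9,11])) (.free 2 [16,17,18,19,20,21,22])) (.free 2 [1,2,3,4,5,6,7]))), .t 8 (nat_lit 0x79607dc07da079b079a08060805) (.z (.node 0 7 (.edon 0 16 (.edon 9 12 (.leaf [8,10,13,15,9]) (.leaf [0,11,12,14])) (.free 2 [16,17,18,19,20,21,22])) (.free 2 [1,2,3,4,5,6,7]))), .t 8 (nat_lit 0x8c108bc08b90916091408c808c7) (.z (.node 0 7 (.edon 0 16 (.node 8 12 (.leaf [0,8,11,14]) (.leaf [9,10,13,15,12])) (.free 2 [16,17,18,19,20,21,22])) (.free 2 [1,2,3,4,5,6,7]))), .t 10 (nat_lit 0x7940793079107eb07e807a207a00b180b16) (.z (.node 0 7 (.node 0 12 (.node 0 16 (.free 2 [0,17,18,19,20,21,22]) (.leaf [13,16,15,14])) (.leaf [8,10,12,11,9])) (.free 2 [1,2,3,4,5,6,7]))), .t 5 (nat_lit 0xa030a0107970796) (.z (.node 0 7 (.edon 0 16 (.edon 9 14 (.leaf [8,10,13,9]) (.leaf [0,11,12,14,15])) (.free 2 [16,17,18,19,20,21,22]))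 (.free 2 [1,2,3,4,5,6,7]))), .t 4 (nat_lit 0x227022601fd) (.z (.edon 0 8 (.edon 0 3 (.leaf [0,1,2]) (.leaf [3,4,7,6,5])) (.free 4 [8,9,10,11,12,13,14,15,16,17,18,19,20,21,22]))), .t 8 (nat_lit 0x79607d907d60799079808020801) (.z (.node 0 7 (.edon 0 16 (.node 11 14 (.leaf [0,11,12,15]) (.leaf [8,10,13,14,9])) (.free 2 [16,17,18,19,20,21,22])) (.free 2 [1,2,3,4,5,6,7]))), .t 1 (nat_lit 0) (.fa 4), .t 9 (nat_lit 0x60d0608060706330632061406130005) (.z (.edon 0 16 (.node 0 12 (.leaf [0,13,14,15]) (.node 3 12 (.leaf [1,3,11,2]) (.node 6 7 (.leaf [6,8,10,12,9]) (.leaf [4,5,7])))) (.free 2 [16,17,18,19,20,21,22]))), .t 7 (nat_lit 0x79507940145005800050002) (.z (.edon 0 16 (.node 0 12 (.leaf [0,13,14,15]) (.edon 4 8 (.leaf [4,5,7]) (.node 6 12 (.leaf [1,3,6,11,2]) (.leaf [8,10,12,9])))) (.free 2 [16,17,18,19,20,21,22]))), .t 5 (nat_lit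 0x143005600030002) (.z (.node 8 0 (.edon 4 6 (.leaf [4,5,7]) (.leaf [1,3,6,8,2])) (.free 4 [0,9,10,11,12,13,14,15,16,17,18,19,20,21,22]))), .t 1 (nat_lit 0) (.cn 2 2), .t 6 (nat_lit 0x1d5011a011900460037) (.z (.node 1 10 (.node 11 16 (.edon 0 15 (.leaf [0,11,12,13]) (.free 2 [15,17,18,19,20,21,22])) (.leaf [1,14,16,9,2])) (.free 2 [3,4,5,6,7,8,10]))), .t 9 (nat_lit 0x30c0559055803a303a202fc02fb0005) (.z (.edon 0 16 (.node 0 12 (.leaf [0,13,14,15]) (.node 3 12 (.leaf [1,3,11,2]) (.node 5 10 (.leaf [4,5,6,9,12]) (.leaf [7,8,10])))) (.free 2 [16,17,18,19,20,21,22]))), .t 5 (nat_lit 0x62003e00060005) (.z (.edon 0 16 (.node 0 12 (.leaf [0,13,14,15]) (.edon 4 12 (.free 2 [4,5,6,7,8,9,10]) (.leaf [1,3,12,11,2]))) (.free 2 [16,17,18,19,20,21,22]))), .t 1 (nat_lit 0) (.cn 1 3), .t 5 (nat_lit 0x143005600030002) (.z (.node 8 0 (.edon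 4 8 (.leaf [4,5,7]) (.leaf [1,3,6,8,2])) (.free 4 [0,9,10,11,12,13,14,15,16,17,18,19,20,21,22]))), .t 1 (nat_lit 0) (.fa 2), .t 10 (nat_lit 0x5610560055f05c505c40567056601da01d9) (.z (.node 2 4 (.node 2 16 (.edon 0 15 (.leaf [0,2,11,12,13]) (.free 2 [15,17,18,19,20,21,22])) (.node 6 10 (.leaf [5,6,14,16,9]) (.leaf [7,8,10]))) (.free 1 [1,3,4]))), .t 10 (nat_lit 0x5610560055f05c505c40567056601da01d9) (.z (.node 2 4 (.node 6 10 (.node 11 16 (.edon 0 15 (.leaf [0,2,11,12,13]) (.free 2 [15,17,18,19,20,21,22])) (.leaf [5,6,14,16,9])) (.leaf [7,8,10])) (.free 1 [1,3,4]))), .t 1 (nat_lit 0) (.cp 1 3), .t 6 (nat_lit 0x1b901b700f000ee0034) (.z (.edon 0 16 (.node 0 12 (.leaf [0,13,14,15]) (.node 1 10 (.leaf [1,9,11,12,2]) (.free 2 [3,4,5,6,7,8,10]))) (.free 2 [16,17,18,19,20,21,22]))), .t 5 (nat_lit 0x148005c00050004) (.z (.edon 0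 16 (.node 0 12 (.leaf [0,13,14,15]) (.edon 4 9 (.free 2 [4,5,6,7,8,10,12]) (.leaf [1,3,9,11,2]))) (.free 2 [16,17,18,19,20,21,22]))), .t 5 (nat_lit 0xa030a0107970796) (.z (.node 0 7 (.edon 0 16 (.edon 9 12 (.leaf [8,10,13,9]) (.leaf [0,11,12,14,15])) (.free 2 [16,17,18,19,20,21,22])) (.free 2 [1,2,3,4,5,6,7]))), .t 1 (nat_lit 0) (.fa 4), .t 8 (nat_lit 0x7f007ef07ec082f082c08020801) (.z (.node 0 7 (.edon 0 16 (.node 9 14 (.leaf [0,9,12,15]) (.leaf [8,10,13,14,11])) (.free 2 [16,17,18,19,20,21,22])) (.free 2 [1,2,3,4,5,6,7]))), .t 8 (nat_lit 0x1c201c100f900f800340a830a7e) (.z (.node 1 10 (.node 0 16 (.free 2 [0,17,18,19,20,21,22]) (.edon 12 14 (.leaf [12,13,16,15]) (.leaf [1,9,11,14,2]))) (.free 2 [3,4,5,6,7,8,10]))), .t 8 (nat_lit 0x7e807f907f607ef07ec08140812) (.z (.node 0 7 (.edon 0 16 (.node 9 12 (.leaf [0,9,14,15]) (.leaf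 [8,10,13,12,11])) (.free 2 [16,17,18,19,20,21,22])) (.free 2 [1,2,3,4,5,6,7]))), .t 8 (nat_lit 0x1b901b700f000ee00340b180b16) (.z (.node 1 10 (.node 0 12 (.node 0 16 (.free 2 [0,17,18,19,20,21,22]) (.leaf [13,16,15,14])) (.leaf [1,9,11,12,2])) (.free 2 [3,4,5,6,7,8,10])))] (by decide +kernel) (by decide +kernel)
theorem b99 : B 3168 3200 := Blk.of_chk [.t 5 (nat_lit 0x7ef07ec09280926) (.z (.node 0 7 (.edon 0 16 (.node 12 13 (.leaf [0,9,12,14,15]) (.leaf [8,10,13,11])) (.free 2 [16,17,18,19,20,21,22])) (.free 2 [1,2,3,4,5,6,7]))), .t 5 (nat_lit 0x7f307f009160915) (.z (.node 0 7 (.edon 0 16 (.node 12 14 (.leaf [0,9,12,13,15]) (.leaf [8,10,14,11])) (.free 2 [16,17,18,19,20,21,22])) (.free 2 [1,2,3,4,5,6,7]))), .t 5 (nat_lit 0x916091507f307f0) (.z (.node 0 7 (.edon 0 16 (.edon 11 13 (.leaf [8,10,14,11]) (.leaf [0,9,12,13,15]))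 (.free 2 [16,17,18,19,20,21,22])) (.free 2 [1,2,3,4,5,6,7]))), .t 5 (nat_lit 0x7f307f009160915) (.z (.node 0 7 (.edon 0 16 (.node 9 11 (.leaf [0,9,12,13,15]) (.leaf [8,10,14,11])) (.free 2 [16,17,18,19,20,21,22])) (.free 2 [1,2,3,4,5,6,7]))), .t 17 (nat_lit 0xa5c0a2b0a280a250a070a030a0009f10a830a810a470a430a390a3709e909e7) (.z (.node 0 16 (.free 2 [0,17,18,19,20,21,22]) (.edon 0 11 (.free 3 [1,2,3,4,5,6,7,8,9,10]) (.leaf [11,14,16,15,13,12])))), .t 1 (nat_lit 0) (.cn 2 2), .t 1 (nat_lit 0) (.cn 2 2), .t 13 (nat_lit 0xa5c0a280a250a030a0009e909e702fc022c022a020601ff) (.z (.edon 0 16 (.edon 0 3 (.leaf [0,1,2]) (.edon 0 11 (.node 6 10 (.leaf [3,4,6,9,5]) (.leaf [7,8,10])) (.leaf [11,14,15,13,12]))) (.free 2 [16,17,18,19,20,21,22]))), .t 5 (nat_lit 0x7f307f009160915) (.z (.node 0 7 (.edon 0 16 (.node 9 14 (.leaf [0,9,12,13,15])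 (.leaf [8,10,14,11])) (.free 2 [16,17,18,19,20,21,22])) (.free 2 [1,2,3,4,5,6,7]))), .t 1 (nat_lit 0) (.cn 1 2), .t 1 (nat_lit 0) (.cn 2 3), .t 12 (nat_lit 0x7e807f907f607ef07ec014400570004000208140812) (.z (.node 16 0 (.edon 4 8 (.leaf [4,5,7]) (.edon 8 9 (.edon 0 14 (.leaf [8,10,13,12,11]) (.leaf [14,15,16])) (.leaf [1,3,6,9,2]))) (.free 2 [0,17,18,19,20,21,22]))), .t 13 (nat_lit 0x3ae02740273021d02080a5d093f093a0929092409160915) (.z (.edon 0 16 (.edon 0 3 (.leaf [0,1,2]) (.node 9 11 (.leaf [9,12,13,15,14]) (.node 4 8 (.leaf [3,4,10,11,6]) (.leaf [5,7,8])))) (.free 2 [16,17,18,19,20,21,22]))), .t 22 (nat_lit 0x3f10397029f029e02630262025f06120611041f03fb0388038702b602b502a602a5025e025d02190205) (.z (.node 7 4 (.free 1 [7]) (.edon 9 12 (.leaf [3,4,6,8,10,11,9]) (.free 4 [0,1,2,5,12,13,14,15,16,17,18,19,20,21,22])))), .t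 22 (nat_lit 0x3f1032e029f029e02440243023c05a105a0041f03fb0322032002b602b502a602a5023a0239021901fe) (.z (.node 7 4 (.free 1 [7]) (.edon 9 12 (.leaf [3,4,5,8,10,11,9]) (.free 4 [0,1,2,6,12,13,14,15,16,17,18,19,20,21,22])))), .t 6 (nat_lit 0x1b900f000ed003e0035) (.z (.edon 0 16 (.node 0 12 (.leaf [0,13,14,15]) (.node 1 10 (.leaf [1,11,12,9,2]) (.free 2 [3,4,5,6,7,8,10]))) (.free 2 [16,17,18,19,20,21,22]))), .t 1 (nat_lit 0) (.cp 1 2), .t 1 (nat_lit 0) (.fa 3), .t 1 (nat_lit 0) (.cn 3 3), .t 10 (nat_lit 0xc0e0ba30b9b0b9a042502bb02b8021e021a) (.z (.edon 0 3 (.free 1 [0,1,2]) (.node 4 16 (.edon 0 13 (.leaf [3,4,11,12,9]) (.node 17 19 (.leaf [13,17,20,22,21]) (.leaf [15,18,19]))) (.free 2 [5,6,7,8,10,14,16])))), .t 1 (nat_lit 0) (.cn 7 2), .t 1 (nat_lit 0) (.cn 7 2), .t 1 (nat_lit 0) (.cn 7 2), .t 1 (nat_lit 0) (.cn 7 2), .t 3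 (nat_lit 0xb940b93) (.z (.edon 0 20 (.node 13 16 (.leaf [0,13,17,18,19]) (.free 4 [1,2,3,4,5,6,7,8,9,10,11,12,14,15,16])) (.free 1 [20,21,22]))), .t 7 (nat_lit 0x7eb07e8013f005100040001) (.z (.edon 0 16 (.node 0 12 (.leaf [0,13,14,15]) (.node 7 11 (.edon 4 5 (.leaf [4,6,7]) (.leaf [1,3,5,9,2])) (.leaf [8,10,12,11]))) (.free 2 [16,17,18,19,20,21,22]))), .t 7 (nat_lit 0x7eb07e80144005700040002) (.z (.edon 0 16 (.node 0 12 (.leaf [0,13,14,15]) (.node 7 11 (.edon 4 6 (.leaf [4,5,7]) (.leaf [1,3,6,9,2])) (.leaf [8,10,12,11]))) (.free 2 [16,17,18,19,20,21,22]))), .t 7 (nat_lit 0x14400570004000207eb07e8) (.z (.edon 0 16 (.node 0 12 (.leaf [0,13,14,15]) (.edon 8 9 (.leaf [8,10,12,11]) (.edon 4 6 (.leaf [4,5,7]) (.leaf [1,3,6,9,2])))) (.free 2 [16,17,18,19,20,21,22]))), .t 7 (nat_lit 0x13f00510004000107eb07e8) (.z (.edon 0 16 (.node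 0 12 (.leaf [0,13,14,15]) (.edon 8 9 (.leaf [8,10,12,11]) (.edon 4 5 (.leaf [4,6,7]) (.leaf [1,3,5,9,2])))) (.free 2 [16,17,18,19,20,21,22]))), .t 8 (nat_lit 0x1c701c60104010300350a470a43) (.z (.node 1 10 (.node 0 16 (.free 2 [0,17,18,19,20,21,22]) (.edon 11 12 (.leaf [11,14,16,15]) (.leaf [1,9,12,13,2]))) (.free 2 [3,4,5,6,7,8,10]))), .t 10 (nat_lit 0xabc0ab60ab1079307910af40af20ad20ad1) (.z (.node 0 7 (.node 0 11 (.edon 15 19 (.leaf [12,14,16,18,15]) (.free 2 [0,13,17,19,20,21,22])) (.leaf [8,10,11,9])) (.free 2 [1,2,3,4,5,6,7]))), .t 5 (nat_lit 0x149005e00060004) (.z (.edon 0 16 (.node 0 12 (.leaf [0,13,14,15]) (.node 3 11 (.leaf [1,3,9,12,2]) (.free 2 [4,5,6,7,8,10,11]))) (.free 2 [16,17,18,19,20,21,22])))] (by decide +kernel) (by decide +kernel)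
theorem b100 : B 3200 3232 := Blk.of_chk [.t 13 (nat_lit 0xb770b760b720b940b920b850b83042502bb02b8021e021a) (.z (.edon 0 20 (.node 4 16 (.edon 0 13 (.edon 0 3 (.leaf [0,1,2]) (.leaf [3,4,11,12,9])) (.leaf [13,15,18,19,17])) (.free 2 [5,6,7,8,10,14,16])) (.free 1 [20,21,22]))), .t 7 (nat_lit 0x1fd01c701c6010401030035) (.z (.node 16 0 (.edon 7 12 (.free 2 [7,8,10,11,14,15,16]) (.node 1 6 (.leaf [1,9,12,13,2]) (.leaf [3,4,5,6]))) (.free 2 [0,17,18,19,20,21,22]))), .t 8 (nat_lit 0x1c701c60104010300350a470a43) (.z (.node 1 10 (.node 0 16 (.free 2 [0,17,18,19,20,21,22]) (.edon 11 13 (.leaf [11,14,16,15]) (.leaf [1,9,12,13,2]))) (.free 2 [3,4,5,6,7,8,10]))), .t 5 (nat_lit 0xc0f0c070c050c04) (.z (.edon 0 15 (.free 4 [0,1,2,3,4,5,6,7,8,9,10,11,12,13,14]) (.node 18 19 (.leaf [15,18,20,22,21]) (.leaf [16,17,19])))), .t 10 (nat_lit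 0xa610a5c0a59079307910ab60ab10a830a81) (.z (.node 0 7 (.node 0 11 (.node 0 16 (.free 2 [0,17,18,19,20,21,22]) (.leaf [12,14,16,15,13])) (.leaf [8,10,11,9])) (.free 2 [1,2,3,4,5,6,7]))), .t 8 (nat_lit 0x7980793079107f307f007ae07ac) (.z (.node 0 7 (.edon 0 16 (.node 12 14 (.leaf [0,12,13,15]) (.leaf [8,10,14,11,9])) (.free 2 [16,17,18,19,20,21,22])) (.free 2 [1,2,3,4,5,6,7]))), .t 10 (nat_lit 0xb230b180b13079307910b6e0b6c0b420b41) (.z (.node 0 7 (.node 0 11 (.edon 13 19 (.leaf [13,14,16,18,15]) (.free 2 [0,12,17,19,20,21,22])) (.leaf [8,10,11,9])) (.free 2 [1,2,3,4,5,6,7]))), .t 1 (nat_lit 0) (.fa 5), .t 9 (nat_lit 0xb850b820c0e042502bb02b8021e021a) (.z (.edon 0 3 (.free 1 [0,1,2]) (.node 4 16 (.edon 0 13 (.leaf [3,4,11,12,9]) (.node 17 19 (.leaf [17,20,22,21]) (.leaf [13,18,19,15]))) (.free 2 [5,6,7,8,10,14,16])))), .t 13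 (nat_lit 0xb780b750b730b950b910b860b84042502bb02b8021e021a) (.z (.edon 0 20 (.node 4 16 (.edon 0 13 (.edon 0 3 (.leaf [0,1,2]) (.leaf [3,4,11,12,9])) (.leaf [13,17,19,18,15])) (.free 2 [5,6,7,8,10,14,16])) (.free 1 [20,21,22]))), .t 9 (nat_lit 0xb7b0b780c0f042502bb02b8021e021a) (.z (.edon 0 3 (.free 1 [0,1,2]) (.node 4 16 (.edon 0 13 (.leaf [3,4,11,12,9]) (.node 18 19 (.leaf [18,20,22,21]) (.leaf [13,17,19,15]))) (.free 2 [5,6,7,8,10,14,16])))), .t 8 (nat_lit 0x7ec0803080007f307f00830082e) (.z (.node 0 7 (.edon 0 16 (.node 9 13 (.leaf [0,9,12,15]) (.leaf [8,10,14,13,11])) (.free 2 [16,17,18,19,20,21,22])) (.free 2 [1,2,3,4,5,6,7]))), .t 5 (nat_lit 0x928092607ef07ec) (.z (.node 0 7 (.edon 0 16 (.edon 11 14 (.leaf [8,10,13,11]) (.leaf [0,9,12,14,15])) (.free 2 [16,17,18,19,20,21,22])) (.free 2 [1,2,3,4,5,6,7]))), .t 1 (nat_lit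 0) (.cn 4 2), .t 12 (nat_lit 0x7f007ef07ec082f082c080208010144005700040002) (.z (.node 16 0 (.node 7 12 (.edon 4 6 (.leaf [4,5,7]) (.leaf [1,3,6,9,2])) (.node 12 14 (.leaf [12,15,16]) (.leaf [8,10,13,14,11]))) (.free 2 [0,17,18,19,20,21,22]))), .t 11 (nat_lit 0x338033503300b180b1600020425042203470346) (.z (.node 16 0 (.edon 0 13 (.edon 7 11 (.leaf [7,8,10]) (.edon 4 6 (.leaf [4,5,11,12,9]) (.leaf [1,3,6,2]))) (.leaf [13,16,15,14])) (.free 2 [0,17,18,19,20,21,22]))), .t 9 (nat_lit 0xb180b1603090231022e020802000035) (.z (.node 16 0 (.edon 0 13 (.node 1 11 (.leaf [1,9,12,2]) (.edon 7 11 (.leaf [7,8,10]) (.leaf [3,4,5,11,6]))) (.leaf [13,16,15,14])) (.free 2 [0,17,18,19,20,21,22]))), .t 15 (nat_lit 0x539054b054a053e053c09e009890986096d096b0961095f056b056a) (.z (.edon 1 21 (.edon 0 5 (.leaf [1,3,4]) (.edon 0 10 (.leaf [5,7,8,9,6])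 (.edon 0 15 (.leaf [10,13,14,12,11]) (.free 2 [15,16,17,18,19,20,22])))) (.free 1 [0,2,21]))), .t 1 (nat_lit 0) (.cn 7 2), .t 8 (nat_lit 0x539054b054a053e053c056b056a) (.z (.node 2 4 (.edon 6 10 (.leaf [5,7,8,9,6]) (.free 4 [0,2,10,11,12,13,14,15,16,17,18,19,20,21,22])) (.free 1 [1,3,4]))), .t 7 (nat_lit 0xb180b160149005e00060004) (.z (.node 16 0 (.edon 0 13 (.node 3 11 (.leaf [1,3,9,12,2]) (.free 2 [4,5,6,7,8,10,11])) (.leaf [13,16,15,14])) (.free 2 [0,17,18,19,20,21,22]))), .t 8 (nat_lit 0x7960793079107ef07ec07a707a5) (.z (.node 0 7 (.edon 0 16 (.node 12 13 (.leaf [0,12,14,15]) (.leaf [8,10,13,11,9])) (.free 2 [16,17,18,19,20,21,22])) (.free 2 [1,2,3,4,5,6,7]))), .t 13 (nat_lit 0x9e509e009dd0a290a240a040a0202fd022d0229020601ff) (.z (.edon 0 16 (.edon 0 3 (.leaf [0,1,2]) (.edon 0 11 (.edon 7 9 (.leaf [7,8,10]) (.leaf [3,4,5,9,6]))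 (.leaf [11,13,15,14,12]))) (.free 2 [16,17,18,19,20,21,22]))), .t 1 (nat_lit 0) (.cn 2 3), .t 8 (nat_lit 0x1b901b700f000ee00340b170b14) (.z (.node 1 10 (.node 0 12 (.node 0 16 (.free 2 [0,17,18,19,20,21,22]) (.leaf [13,15,16,14])) (.leaf [1,9,11,12,2])) (.free 2 [3,4,5,6,7,8,10]))), .t 8 (nat_lit 0x79a0793079107f507f407b207b0) (.z (.node 0 7 (.edon 0 16 (.node 12 15 (.leaf [0,12,13,14]) (.leaf [8,10,15,11,9])) (.free 2 [16,17,18,19,20,21,22])) (.free 2 [1,2,3,4,5,6,7]))), .t 13 (nat_lit 0x9e90a5d0a5b0a290a2709e109df02fd022d0229020601ff) (.z (.edon 0 16 (.edon 0 3 (.leaf [0,1,2]) (.edon 0 11 (.edon 7 9 (.leaf [7,8,10]) (.leaf [3,4,5,9,6])) (.leaf [11,15,14,13,12]))) (.free 2 [16,17,18,19,20,21,22]))), .t 1 (nat_lit 0) (.cp 2 3), .t 11 (nat_lit 0x338033503300b170b1400020425042203470346) (.z (.node 16 0 (.edon 0 13 (.edon 4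 6 (.node 5 10 (.leaf [4,5,11,12,9]) (.leaf [7,8,10])) (.leaf [1,3,6,2])) (.leaf [13,15,16,14])) (.free 2 [0,17,18,19,20,21,22]))), .t 8 (nat_lit 0xb170b140193019200b000af0023) (.z (.node 16 0 (.edon 0 13 (.edon 3 9 (.free 2 [3,4,5,7,8,10,11]) (.leaf [1,6,9,12,2])) (.leaf [13,15,16,14])) (.free 2 [0,17,18,19,20,21,22]))), .t 17 (nat_lit 0x539054b054a053e053c0bed0bd30bd00bb10bae0ba90ba8095b0959056b056a) (.z (.edon 1 21 (.edon 0 5 (.leaf [1,3,4]) (.edon 0 10 (.leaf [5,7,8,9,6]) (.edon 0 14 (.leaf [10,13,12,11]) (.edon 0 19 (.leaf [14,15,16,18,17]) (.leaf [19,20,22]))))) (.free 1 [0,2,21]))), .t 10 (nat_lit 0x79307910b170b140c0d0b0f0b0e0b0d0b0c) (.z (.node 0 7 (.node 0 11 (.node 0 20 (.leaf [0,21,22]) (.node 12 16 (.leaf [12,17,18,19,20]) (.leaf [13,15,16,14]))) (.leaf [8,10,11,9])) (.free 2 [1,2,3,4,5,6,7])))] (by decide +kernel)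 (by decide +kernel)
theorem b101 : B 3232 3264 := Blk.of_chk [.t 17 (nat_lit 0x5390ba9054b054a053e053c0bec0beb0bd20bd10ba60ba5095b0959056b056a) (.z (.edon 1 21 (.edon 0 5 (.leaf [1,3,4]) (.edon 0 10 (.leaf [5,7,8,9,6]) (.edon 0 14 (.leaf [10,13,12,11]) (.edon 0 19 (.leaf [14,15,16,17,18]) (.leaf [19,20,22]))))) (.free 1 [0,2,21]))), .t 11 (nat_lit 0x609060806070b170b1406310630061206110006) (.z (.node 16 0 (.edon 0 13 (.node 3 9 (.leaf [1,3,12,2]) (.node 6 7 (.leaf [6,8,10,11,9]) (.leaf [4,5,7]))) (.leaf [13,15,16,14])) (.free 2 [0,17,18,19,20,21,22]))), .t 1 (nat_lit 0) (.fa 4), .t 1 (nat_lit 0) (.fa 4), .t 8 (nat_lit 0x9af088708850809080808060805) (.z (.node 0 7 (.edon 0 16 (.edon 8 11 (.leaf [8,10,13,15,14]) (.leaf [0,9,11,12])) (.free 2 [16,17,18,19,20,21,22])) (.free 2 [1,2,3,4,5,6,7]))), .t 12 (nat_lit 0x7f407ef07ec08340832080608050144005700040002)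 (.z (.edon 0 16 (.node 7 11 (.node 0 9 (.leaf [0,12,14]) (.edon 4 9 (.leaf [4,5,7]) (.leaf [1,3,6,9,2]))) (.leaf [8,10,13,15,11])) (.free 2 [16,17,18,19,20,21,22]))), .t 8 (nat_lit 0x971096d096b09af09ac097b097a) (.z (.edon 0 16 (.edon 1 10 (.free 2 [1,3,4,5,6,7,8]) (.edon 10 12 (.leaf [10,13,15,14,11]) (.leaf [0,2,9,12]))) (.free 2 [16,17,18,19,20,21,22]))), .t 13 (nat_lit 0x7f407ef07ec0c0d0b0f0b0e0b0d0b0c0834083208060805) (.z (.node 0 7 (.node 0 20 (.leaf [0,21,22]) (.edon 11 16 (.leaf [8,10,13,15,11]) (.node 12 16 (.leaf [12,17,18,19,20]) (.leaf [9,14,16])))) (.free 2 [1,2,3,4,5,6,7]))), .t 17 (nat_lit 0x539054b054a053e053c0bd30b0a0b070ada0ad70ad20ad109740971056b056a) (.z (.edon 1 21 (.edon 0 5 (.leaf [1,3,4]) (.edon 0 10 (.leaf [5,7,8,9,6]) (.edon 11 16 (.leaf [10,13,15,11]) (.edon 0 19 (.leaf [12,14,16,18,17]) (.leaf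 [19,20,22]))))) (.free 1 [0,2,21]))), .t 17 (nat_lit 0x5390ad2054b054a053e053c0bd20bd10b090b080acf0ace09740971056b056a) (.z (.edon 1 21 (.edon 0 5 (.leaf [1,3,4]) (.edon 0 10 (.leaf [5,7,8,9,6]) (.edon 11 16 (.leaf [10,13,15,11]) (.edon 0 19 (.leaf [12,14,16,17,18]) (.leaf [19,20,22]))))) (.free 1 [0,2,21]))), .t 17 (nat_lit 0x79608b807f407ef07ec07da07a7079b079a08f5083408320806080507b207b0) (.z (.node 7 0 (.free 2 [1,2,3,4,5,6,7]) (.edon 11 16 (.leaf [8,10,13,15,11,9]) (.free 3 [0,12,14,16,17,18,19,20,21,22])))), .t 10 (nat_lit 0xa600a5d0a58079307910ab50ab20a820a80) (.z (.node 0 7 (.node 0 11 (.node 0 16 (.free 2 [0,17,18,19,20,21,22]) (.leaf [12,13,15,16,14])) (.leaf [8,10,11,9])) (.free 2 [1,2,3,4,5,6,7]))), .t 1 (nat_lit 0) (.cn 7 2), .t 12 (nat_lit 0x96609e909e70990098e095b09590c0e0be90be20be1) (.z (.node 0 3 (.edon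 0 10 (.free 2 [0,4,5,6,7,8,9]) (.node 14 15 (.node 17 19 (.leaf [14,17,20,22,21]) (.leaf [16,18,19])) (.leaf [10,15,13,12,11]))) (.free 1 [1,2,3]))), .t 1 (nat_lit 0) (.fa 4), .t 10 (nat_lit 0x79307910a830a810c0d0be30bdd0bd80bd7) (.z (.node 0 7 (.node 0 11 (.node 0 20 (.leaf [0,21,22]) (.node 14 16 (.leaf [14,17,18,19,20]) (.leaf [12,16,15,13]))) (.leaf [8,10,11,9])) (.free 2 [1,2,3,4,5,6,7]))), .t 1 (nat_lit 0) (.cp 2 3), .t 8 (nat_lit 0x609060806070631063006120611) (.z (.node 9 3 (.node 6 7 (.leaf [6,8,10,11,9]) (.leaf [4,5,7])) (.free 4 [0,1,2,3,12,13,14,15,16,17,18,19,20,21,22]))), .t 8 (nat_lit 0x609060806070631063006120611) (.z (.node 11 3 (.node 6 7 (.leaf [6,8,10,11,9]) (.leaf [4,5,7])) (.free 4 [0,1,2,3,12,13,14,15,16,17,18,19,20,21,22]))), .t 12 (nat_lit 0x79107a1079e079507940147005a0008000207ea07e9) (.z (.node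 16 0 (.edon 4 14 (.edon 0 8 (.leaf [4,5,7]) (.edon 0 13 (.leaf [8,10,11,12,9]) (.leaf [13,15,16]))) (.leaf [1,3,6,14,2])) (.free 2 [0,17,18,19,20,21,22]))), .t 9 (nat_lit 0x9f100080a830a810a390a3709e909e7) (.z (.node 16 0 (.edon 4 14 (.edon 0 11 (.free 2 [4,5,6,7,8,9,10]) (.leaf [11,16,15,13,12])) (.leaf [1,3,14,2])) (.free 2 [0,17,18,19,20,21,22]))), .t 7 (nat_lit 0x147005a000800020a830a81) (.z (.node 16 0 (.edon 4 14 (.edon 0 12 (.free 2 [4,5,7,8,9,10,11]) (.leaf [12,16,15,13])) (.leaf [1,3,6,14,2])) (.free 2 [0,17,18,19,20,21,22]))), .t 1 (nat_lit 0) (.fa 4), .t 15 (nat_lit 0xbed0bd30bd00bb10bae0ba90ba8095b08d508d008bc08b908b308b2) (.z (.edon 1 21 (.edon 0 9 (.free 2 [1,3,4,5,6,7,8]) (.edon 0 14 (.leaf [9,10,11,13,12]) (.edon 0 19 (.leaf [14,15,16,18,17]) (.leaf [19,20,22])))) (.free 1 [0,2,21]))), .t 15 (nat_lit 0xba90bec0beb0bd20bd10ba60ba5095b08d508d008bc08b908b308b2)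 (.z (.edon 1 21 (.edon 0 9 (.free 2 [1,3,4,5,6,7,8]) (.edon 0 14 (.leaf [9,10,11,13,12]) (.edon 0 19 (.leaf [14,15,16,17,18]) (.leaf [19,20,22])))) (.free 1 [0,2,21]))), .t 6 (nat_lit 0x3090231022e02080200) (.z (.edon 6 12 (.edon 7 11 (.leaf [7,8,10]) (.leaf [3,4,5,11,6])) (.free 4 [0,1,2,9,12,13,14,15,16,17,18,19,20,21,22]))), .t 8 (nat_lit 0x61407ea07e90641064006120611) (.z (.node 12 3 (.node 6 7 (.leaf [6,8,10,11,12]) (.leaf [4,5,7])) (.free 4 [0,1,2,3,9,13,14,15,16,17,18,19,20,21,22]))), .t 13 (nat_lit 0x9f10a830a810a390a3709e909e702fd022d0229020601ff) (.z (.edon 0 3 (.free 1 [0,1,2]) (.edon 0 11 (.edon 7 9 (.leaf [7,8,10]) (.leaf [3,4,5,9,6])) (.node 14 16 (.free 2 [14,17,18,19,20,21,22]) (.leaf [11,16,15,13,12]))))), .t 1 (nat_lit 0) (.fa 3), .t 1 (nat_lit 0) (.fa 3), .t 1 (nat_lit 0) (.cn 2 3), .t 7 (nat_lit 0x14b0061000800040a830a81)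 (.z (.node 16 0 (.edon 4 14 (.edon 0 12 (.free 2 [4,5,6,7,8,10,11]) (.leaf [12,16,15,13])) (.leaf [1,3,9,14,2])) (.free 2 [0,17,18,19,20,21,22])))] (by decide +kernel) (by decide +kernel)
theorem b102 : B 3264 3296 := Blk.of_chk [.t 8 (nat_lit 0x5a307ea07e905c805c705a105a0) (.z (.node 12 3 (.node 5 7 (.leaf [5,8,10,11,12]) (.leaf [4,6,7])) (.free 4 [0,1,2,3,9,13,14,15,16,17,18,19,20,21,22]))), .t 6 (nat_lit 0x3080230022f02080200) (.z (.edon 5 12 (.edon 7 11 (.leaf [7,8,10]) (.leaf [3,4,6,11,5])) (.free 4 [0,1,2,9,12,13,14,15,16,17,18,19,20,21,22]))), .t 1 (nat_lit 0) (.fa 4), .t 1 (nat_lit 0) (.cp 2 3), .t 8 (nat_lit 0x54505e605e505710570053b053a) (.z (.node 12 4 (.edon 10 12 (.leaf [10,11,16]) (.leaf [5,6,7,8,12])) (.free 4 [0,1,2,3,4,9,13,14,15,17,18,19,20,21,22]))), .t 1 (nat_lit 0) (.fa 5), .t 1 (nat_lit 0) (.cp 3 3),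 .t 27 (nat_lit 0x622060105930579056405520542084b084a0730067d067c065106500621062005e405e305d605d505ac05ab056e056d053b053a) (.z (.node 10 7 (.free 1 [10]) (.node 17 4 (.leaf [5,6,7,8,11,16,17]) (.free 4 [0,1,2,3,4,9,12,13,14,15,18,19,20,21,22])))), .t 27 (nat_lit 0x5e9057905770568055205510847072b06a9067d067c064f062f0621062005e405e305d405d305b405ac05ab056e056d053b053a) (.z (.node 10 7 (.free 1 [10]) (.node 15 4 (.leaf [5,6,7,8,11,16,15]) (.free 4 [0,1,2,3,4,9,12,13,14,17,18,19,20,21,22])))), .t 27 (nat_lit 0x623060205940579056505520542084d084c0731067d067c065306520621062005e405e305d805d705ac05ab056e056d053b053a) (.z (.node 10 7 (.free 1 [10]) (.node 18 4 (.leaf [5,6,7,8,11,16,18]) (.free 4 [0,1,2,3,4,9,12,13,14,15,17,19,20,21,22])))), .t 12 (nat_lit 0x5a307ea07e905c805c705a105a0014a006000070004) (.z (.edon 0 16 (.node 0 13 (.leaf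 [0,14,15]) (.node 9 12 (.leaf [1,3,9,13,2]) (.node 5 7 (.leaf [5,8,10,11,12]) (.leaf [4,6,7])))) (.free 2 [16,17,18,19,20,21,22]))), .t 8 (nat_lit 0x79107a1079e0795079407ea07e9) (.z (.edon 9 16 (.edon 0 8 (.leaf [4,6,7]) (.leaf [8,10,11,12,9])) (.free 4 [0,1,2,3,5,13,14,15,16,17,18,19,20,21,22]))), .t 1 (nat_lit 0) (.cn 2 3), .t 1 (nat_lit 0) (.cn 3 2), .t 1 (nat_lit 0) (.cn 7 2), .t 12 (nat_lit 0x8d008fb08f708e508e1091c091a0c0e0be90be20be1) (.z (.edon 0 7 (.free 2 [0,1,2,3,4,5,6]) (.node 9 10 (.node 15 16 (.node 17 19 (.leaf [14,17,20,22,21]) (.leaf [15,18,19])) (.leaf [9,11,16,13,12])) (.leaf [7,8,10])))), .t 10 (nat_lit 0x79307910a830a7e0c0d0be30bdd0bd80bd7) (.z (.node 0 7 (.node 0 11 (.node 0 20 (.leaf [0,21,22]) (.node 14 16 (.leaf [14,17,18,19,20]) (.leaf [12,13,16,15]))) (.leaf [8,10,11,9])) (.free 2 [1,2,3,4,5,6,7]))),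 .t 1 (nat_lit 0) (.cn 2 3), .t 1 (nat_lit 0) (.cn 3 3), .t 1 (nat_lit 0) (.fa 4), .t 1 (nat_lit 0) (.cn 3 2), .t 10 (nat_lit 0x79107a607a30797079607ee07ed0ab50ab2) (.z (.node 0 7 (.node 0 16 (.free 2 [0,17,18,19,20,21,22]) (.node 12 13 (.leaf [12,15,16,14]) (.leaf [8,10,11,13,9]))) (.free 2 [1,2,3,4,5,6,7]))), .t 12 (nat_lit 0xc0e0be90be20be107c106d606d20681067f0660065f) (.z (.edon 0 7 (.free 2 [0,1,2,3,4,5,6]) (.node 8 16 (.edon 0 14 (.leaf [7,8,9,13,12]) (.node 17 19 (.leaf [14,17,20,22,21]) (.leaf [15,18,19]))) (.leaf [10,11,16])))), .t 13 (nat_lit 0x79107a607a30797079607ee07ed0c0d0b0f0b0e0b0d0b0c) (.z (.node 0 7 (.node 0 20 (.leaf [0,21,22]) (.node 12 16 (.leaf [12,17,18,19,20]) (.edon 0 14 (.leaf [8,10,11,13,9]) (.leaf [14,15,16])))) (.free 2 [1,2,3,4,5,6,7]))), .t 1 (nat_lit 0) (.cn 2 3), .t 9 (nat_lit 0xb180b16079307910141005300060001)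 (.z (.node 16 0 (.edon 0 13 (.node 7 9 (.edon 4 5 (.leaf [4,6,7]) (.leaf [1,3,5,12,2])) (.leaf [8,10,11,9])) (.leaf [13,16,15,14])) (.free 2 [0,17,18,19,20,21,22]))), .t 7 (nat_lit 0xb180b160141005300060001) (.z (.node 16 0 (.edon 0 13 (.edon 4 12 (.free 2 [4,6,7,8,9,10,11]) (.leaf [1,3,5,12,2])) (.leaf [13,16,15,14])) (.free 2 [0,17,18,19,20,21,22]))), .t 10 (nat_lit 0x79307910ba90b6e0b6c0b420b400b280b26) (.z (.node 0 7 (.node 0 11 (.edon 15 19 (.leaf [13,16,18,15,14]) (.free 2 [0,12,17,19,20,21,22])) (.leaf [8,10,11,9])) (.free 2 [1,2,3,4,5,6,7]))), .t 1 (nat_lit 0) (.fa 5), .t 8 (nat_lit 0x79107a1079e0795079407ea07e9) (.z (.node 0 7 (.node 0 12 (.edon 0 16 (.leaf [0,13,14,15]) (.free 2 [16,17,18,19,20,21,22])) (.leaf [8,10,11,12,9])) (.free 2 [1,2,3,4,5,6,7]))), .t 5 (nat_lit 0x141005300060001) (.z (.edon 0 16 (.node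 0 12 (.leaf [0,13,14,15]) (.edon 4 5 (.free 2 [4,6,7,8,9,10,11]) (.leaf [1,3,5,12,2]))) (.free 2 [16,17,18,19,20,21,22]))), .t 1 (nat_lit 0) (.cn 2 3)] (by decide +kernel) (by decide +kernel)

end Pool.Agent.GCP.F8_10
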