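import Pool.Agent.GCP.F8_10Db

set_option autoImplicit false
set_option maxRecDepth 100000

/-! # Blocks F8_10B2 (generated) -/

namespace Pool.Agent.GCP.F8_10

open Pool.Agent.GCP DB

theorem b103 : B 3296 3328 := Blk.of_chk [.t 5 (nat_lit 0x149005e00060004) (.z (.edon 0 16 (.node 0 12 (.leaf [0,13,14,15]) (.edon 4 9 (.free 2 [4,5,6,7,8,10,11]) (.leaf [1,3,9,12,2]))) (.free 2 [16,17,18,19,20,21,22]))), .t 5 (nat_lit 0x141005300060001) (.z (.edon 0 16 (.node 0 12 (.leaf [0,13,14,15]) (.edon 4 12 (.free 2 [4,6,7,8,9,10,11]) (.leaf [1,3,5,12,2]))) (.free 2 [16,17,18,19,20,21,22]))), .t 5 (nat_lit 0xc030c0f0c070c05) (.z (.edon 0 15 (.free 4 [0,1,2,3,4,5,6,7,8,9,10,11,12,13,14]) (.node 15 19 (.leaf [15,20,22,21,18]) (.leaf [16,17,19])))), .t 7 (nat_lit 0x79307910aab0aaa0ba60ba4) (.z (.node 0 7 (.node 0 11 (.edon 19 21 (.leaf [19,20,22]) (.edon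 14 18 (.leaf [14,16,17,15]) (.leaf [0,12,13,18,21]))) (.leaf [8,10,11,9])) (.free 2 [1,2,3,4,5,6,7]))), .t 5 (nat_lit 0x79307910a7b0a79) (.z (.node 0 7 (.node 0 11 (.edon 15 21 (.free 2 [15,16,17,18,19,20,22]) (.leaf [0,12,13,14,21])) (.leaf [8,10,11,9])) (.free 2 [1,2,3,4,5,6,7]))), .t 1 (nat_lit 0) (.cn 2 3), .t 1 (nat_lit 0) (.fa 4), .t 1 (nat_lit 0) (.cn 3 2), .t 10 (nat_lit 0xbf70bf20bf0079307910a640a610c000bfa) (.z (.node 0 7 (.node 0 11 (.node 0 20 (.leaf [0,21,22]) (.node 15 16 (.leaf [15,18,19,20,17]) (.leaf [12,14,16,13]))) (.leaf [8,10,11,9])) (.free 2 [1,2,3,4,5,6,7]))), .t 5 (nat_lit 0xc0e0c070bff0bfe) (.z (.edon 0 15 (.free 4 [0,1,2,3,4,5,6,7,8,9,10,11,12,13,14]) (.node 15 19 (.leaf [15,17,20,22,21]) (.leaf [16,18,19])))), .t 7 (nat_lit 0x79307910af40af20b580b57) (.z (.node 0 7 (.node 0 11 (.edon 19 21 (.leaf [19,20,22]) (.node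 14 15 (.leaf [0,13,14,17,21]) (.leaf [12,16,18,15]))) (.leaf [8,10,11,9])) (.free 2 [1,2,3,4,5,6,7]))), .t 5 (nat_lit 0xc0f0c070c050c04) (.z (.edon 0 15 (.free 4 [0,1,2,3,4,5,6,7,8,9,10,11,12,13,14]) (.node 15 19 (.leaf [15,18,20,22,21]) (.leaf [16,17,19])))), .t 10 (nat_lit 0x79307910ba60af10aef0acf0acd0abb0ab9) (.z (.node 0 7 (.node 0 11 (.edon 14 19 (.leaf [12,16,17,15,14]) (.free 2 [0,13,18,19,20,21,22])) (.leaf [8,10,11,9])) (.free 2 [1,2,3,4,5,6,7]))), .t 17 (nat_lit 0x79107a307a1079e079607950794095b0814080f07f907f607ee07ed07c107bf) (.z (.node 7 0 (.free 2 [1,2,3,4,5,6,7]) (.node 13 0 (.leaf [8,10,11,13,12,9]) (.free 3 [0,14,15,16,17,18,19,20,21,22])))), .t 7 (nat_lit 0x79307910a970a950bcc0bcb) (.z (.node 0 7 (.node 0 11 (.edon 19 21 (.leaf [19,20,22]) (.node 14 17 (.leaf [0,14,15,18,21]) (.leaf [12,16,17,13]))) (.leaf [8,10,11,9]))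 (.free 2 [1,2,3,4,5,6,7]))), .t 10 (nat_lit 0xa580a830a7e0a650a60079307910ab60ab4) (.z (.node 0 7 (.node 0 11 (.node 0 16 (.free 2 [0,17,18,19,20,21,22]) (.leaf [12,13,16,15,14])) (.leaf [8,10,11,9])) (.free 2 [1,2,3,4,5,6,7]))), .t 10 (nat_lit 0x79307910ba60b6b0b690b3f0b3d0b200b1e) (.z (.node 0 7 (.node 0 11 (.edon 19 21 (.leaf [19,20,22]) (.edon 14 18 (.leaf [13,16,17,15,14]) (.leaf [0,12,18,21]))) (.leaf [8,10,11,9])) (.free 2 [1,2,3,4,5,6,7]))), .t 1 (nat_lit 0) (.fa 3), .t 1 (nat_lit 0) (.cn 3 2), .t 5 (nat_lit 0x7f907f609010900) (.z (.node 0 7 (.edon 0 16 (.node 11 13 (.leaf [0,9,11,14,15]) (.leaf [8,10,13,12])) (.free 2 [16,17,18,19,20,21,22])) (.free 2 [1,2,3,4,5,6,7]))), .t 1 (nat_lit 0) (.cn 2 3), .t 1 (nat_lit 0) (.fa 4), .t 15 (nat_lit 0x53e09e009890986096d096b0961095f05e205e1056b056a053b053a) (.z (.edon 1 21 (.edon 0 5 (.leaf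 [1,3,4]) (.edon 0 10 (.leaf [5,6,7,8,9]) (.edon 0 15 (.leaf [10,13,14,12,11]) (.free 2 [15,16,17,18,19,20,22])))) (.free 1 [0,2,21]))), .t 10 (nat_lit 0x79107a1079e0795079407ea07e90b180b16) (.z (.node 0 7 (.node 0 12 (.node 0 16 (.free 2 [0,17,18,19,20,21,22]) (.leaf [13,16,15,14])) (.leaf [8,10,11,12,9])) (.free 2 [1,2,3,4,5,6,7]))), .t 1 (nat_lit 0) (.cn 3 2), .t 1 (nat_lit 0) (.cn 3 3), .t 15 (nat_lit 0xbb20bb10bae0bd80bd60bc50bc302fc022c022a020601ff06780675) (.z (.edon 0 3 (.free 1 [0,1,2]) (.node 8 16 (.edon 0 14 (.edon 7 9 (.leaf [7,8,13,11]) (.leaf [3,4,6,9,5])) (.edon 0 20 (.leaf [14,15,18,19,17]) (.leaf [20,21,22]))) (.leaf [10,12,16])))), .t 15 (nat_lit 0xbb20bb10bae09f109ec0bd80bd60bc50bc302fc022c022a020601ff) (.z (.edon 0 20 (.edon 0 3 (.leaf [0,1,2]) (.edon 0 11 (.edon 7 9 (.leaf [7,8,10]) (.leaf [3,4,6,9,5])) (.node 14 16 (.leaf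 [14,15,18,19,17]) (.leaf [11,12,16,13])))) (.free 1 [20,21,22]))), .t 1 (nat_lit 0) (.fa 3), .t 12 (nat_lit 0xc0e0be90be20be102fc022c022a020601ff06780675) (.z (.edon 0 3 (.free 1 [0,1,2]) (.node 8 16 (.edon 0 14 (.edon 7 9 (.leaf [7,8,13,11]) (.leaf [3,4,6,9,5])) (.edon 15 20 (.leaf [15,18,19]) (.leaf [14,17,20,22,21]))) (.leaf [10,12,16])))), .t 12 (nat_lit 0x9f109ec0c0e0be90be20be102fc022c022a020601ff) (.z (.edon 0 3 (.free 1 [0,1,2]) (.edon 0 11 (.edon 7 9 (.leaf [7,8,10]) (.leaf [3,4,6,9,5])) (.node 14 16 (.edon 15 20 (.leaf [15,18,19]) (.leaf [14,17,20,22,21])) (.leaf [11,12,16,13]))))), .t 10 (nat_lit 0xbf70bf20bf0079507940a2e0a2a0c000bfa) (.z (.node 0 7 (.node 0 20 (.leaf [0,21,22]) (.node 15 16 (.leaf [15,18,19,20,17]) (.node 11 12 (.leaf [11,13,16,14]) (.leaf [8,10,12,9])))) (.free 2 [1,2,3,4,5,6,7])))] (by decide +kernel) (by decide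 +kernel)
theorem b104 : B 3328 3360 := Blk.of_chk [.t 1 (nat_lit 0) (.cn 3 2), .t 9 (nat_lit 0xbf70bf20bf00001049604930c000bfa) (.z (.node 4 16 (.node 0 14 (.node 0 20 (.leaf [0,21,22]) (.leaf [15,18,19,20,17])) (.edon 4 5 (.leaf [4,13,14,11]) (.leaf [1,3,5,2]))) (.free 2 [6,7,8,9,10,12,16]))), .t 7 (nat_lit 0xb180b160140005200050001) (.z (.node 16 0 (.edon 0 13 (.edon 4 5 (.free 2 [4,6,7,8,9,10,12]) (.leaf [1,3,5,11,2])) (.leaf [13,16,15,14])) (.free 2 [0,17,18,19,20,21,22]))), .t 1 (nat_lit 0) (.cn 2 3), .t 1 (nat_lit 0) (.cn 2 3), .t 1 (nat_lit 0) (.cp 2 3), .t 15 (nat_lit 0x2fa03340331030803060a65039d039b0b180b160ab60ab40a5d0a5b) (.z (.node 0 3 (.node 0 11 (.node 0 16 (.free 2 [0,17,18,19,20,21,22]) (.leaf [12,16,15,14,13])) (.edon 7 9 (.leaf [7,8,10]) (.leaf [4,6,9,11,5]))) (.free 1 [1,2,3]))), .t 15 (nat_lit 0xbb20bb10bae0bd80bd60bc50bc306610610060f05f205f105e805e7)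 (.z (.edon 0 20 (.node 8 16 (.edon 0 14 (.node 4 9 (.free 2 [0,1,2,3,4,5,11]) (.leaf [6,7,8,13,9])) (.leaf [14,15,18,19,17])) (.leaf [10,12,16])) (.free 1 [20,21,22]))), .t 1 (nat_lit 0) (.cn 2 3), .t 10 (nat_lit 0xbb20bb10bae0bd80bd60bc50bc307a1079f) (.z (.node 0 7 (.node 8 16 (.edon 0 14 (.leaf [0,8,9,11,12]) (.edon 0 20 (.leaf [14,15,18,19,17]) (.leaf [20,21,22]))) (.leaf [10,13,16])) (.free 2 [1,2,3,4,5,6,7]))), .t 1 (nat_lit 0) (.cn 7 2), .t 15 (nat_lit 0x7fa07f907f60542085508520802080105ec05eb057c057b053e053d) (.z (.edon 1 21 (.edon 0 15 (.node 7 12 (.edon 0 5 (.leaf [1,3,4]) (.leaf [5,6,7,9,11])) (.leaf [8,10,13,14,12])) (.free 2 [15,16,17,18,19,20,22])) (.free 1 [0,2,21]))), .t 1 (nat_lit 0) (.cn 2 3), .t 5 (nat_lit 0xa030a0107970796) (.z (.node 0 7 (.edon 9 16 (.leaf [8,10,13,9]) (.edon 0 16 (.leaf [0,11,12,14,15]) (.free 2 [16,17,18,19,20,21,22])))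 (.free 2 [1,2,3,4,5,6,7]))), .t 15 (nat_lit 0x2fa0a5803340331030803060a830a7e0a650a60039d039b0ab60ab4) (.z (.node 0 3 (.node 0 11 (.node 0 16 (.free 2 [0,17,18,19,20,21,22]) (.leaf [12,13,16,15,14])) (.edon 7 9 (.leaf [7,8,10]) (.leaf [4,6,9,11,5]))) (.free 1 [1,2,3]))), .t 1 (nat_lit 0) (.cn 7 2), .t 5 (nat_lit 0xa280a2607950794) (.z (.node 0 7 (.edon 0 16 (.edon 9 13 (.leaf [8,10,12,9]) (.leaf [0,11,13,14,15])) (.free 2 [16,17,18,19,20,21,22])) (.free 2 [1,2,3,4,5,6,7]))), .t 15 (nat_lit 0x7f60803080007fd07fa05420856085405ec05eb057c057b053e053d) (.z (.edon 1 21 (.edon 0 15 (.node 7 12 (.edon 0 5 (.leaf [1,3,4]) (.leaf [5,6,7,9,11])) (.leaf [8,10,14,13,12])) (.free 2 [15,16,17,18,19,20,22])) (.free 1 [0,2,21]))), .t 10 (nat_lit 0x2fa0334033103080306039d039b0a5c0a5a) (.z (.node 0 3 (.node 0 11 (.edon 0 16 (.leaf [0,12,13,14,15]) (.free 2 [16,17,18,19,20,21,22]))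 (.edon 7 9 (.leaf [7,8,10]) (.leaf [4,6,9,11,5]))) (.free 1 [1,2,3]))), .t 15 (nat_lit 0x8b9054208c508c308c008bd05e405e3056e056d053b053a0911090f) (.z (.edon 1 21 (.edon 0 15 (.edon 9 11 (.leaf [9,10,14,13,12]) (.edon 0 5 (.leaf [1,3,4]) (.leaf [5,6,7,8,11]))) (.free 2 [15,16,17,18,19,20,22])) (.free 1 [0,2,21]))), .t 9 (nat_lit 0x106350426042103b503b203a303a2) (.z (.edon 0 16 (.node 0 12 (.leaf [0,13,14,15]) (.edon 7 9 (.leaf [7,8,10]) (.edon 4 5 (.leaf [4,6,9,12,11]) (.leaf [1,3,5,2])))) (.free 2 [16,17,18,19,20,21,22]))), .t 7 (nat_lit 0x79507940140005200050001) (.z (.edon 0 16 (.node 0 12 (.leaf [0,13,14,15]) (.node 7 12 (.edon 4 5 (.leaf [4,6,7]) (.leaf [1,3,5,11,2])) (.leaf [8,10,12,9]))) (.free 2 [16,17,18,19,20,21,22]))), .t 15 (nat_lit 0x7f605420803080007fd07fa05ec05eb057c057b053e053d08560854) (.z (.edon 1 21 (.edon 0 15 (.edon 8 9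 (.leaf [8,10,14,13,12]) (.edon 0 5 (.leaf [1,3,4]) (.leaf [5,6,7,9,11]))) (.free 2 [15,16,17,18,19,20,22])) (.free 1 [0,2,21]))), .t 15 (nat_lit 0x2fa03340331030803060bf70bf20bf0039d039b0a640a610c000bfa) (.z (.node 0 3 (.node 0 11 (.node 0 20 (.leaf [0,21,22]) (.node 15 16 (.leaf [15,18,19,20,17]) (.leaf [12,14,16,13]))) (.edon 7 9 (.leaf [7,8,10]) (.leaf [4,6,9,11,5]))) (.free 1 [1,2,3]))), .t 13 (nat_lit 0x9e409e109dc0a280a250a030a0102fc022c022a020601ff) (.z (.edon 0 16 (.edon 0 3 (.leaf [0,1,2]) (.edon 0 11 (.edon 7 9 (.leaf [7,8,10]) (.leaf [3,4,6,9,5])) (.leaf [11,12,14,15,13]))) (.free 2 [16,17,18,19,20,21,22]))), .t 5 (nat_lit 0x140005200050001) (.z (.edon 0 16 (.node 0 12 (.leaf [0,13,14,15]) (.edon 4 11 (.free 2 [4,6,7,8,9,10,12]) (.leaf [1,3,5,11,2]))) (.free 2 [16,17,18,19,20,21,22]))), .t 1 (nat_lit 0) (.cn 2 3), .t 8 (nat_lit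 0x7980795079407fd07fa07c807c6) (.z (.node 0 7 (.edon 0 16 (.edon 9 15 (.leaf [8,10,14,12,9]) (.leaf [0,11,13,15])) (.free 2 [16,17,18,19,20,21,22])) (.free 2 [1,2,3,4,5,6,7]))), .t 1 (nat_lit 0) (.cn 2 3), .t 8 (nat_lit 0x7980795079407fd07fa07c807c6) (.z (.node 0 7 (.edon 0 16 (.edon 12 15 (.leaf [8,10,14,12,9]) (.leaf [0,11,13,15])) (.free 2 [16,17,18,19,20,21,22])) (.free 2 [1,2,3,4,5,6,7]))), .t 8 (nat_lit 0x7980795079407fd07fa07c807c6) (.z (.node 0 7 (.edon 0 16 (.edon 9 13 (.leaf [8,10,14,12,9]) (.leaf [0,11,13,15])) (.free 2 [16,17,18,19,20,21,22])) (.free 2 [1,2,3,4,5,6,7]))), .t 7 (nat_lit 0x79507940140005200050001) (.z (.edon 0 16 (.node 0 12 (.leaf [0,13,14,15]) (.node 7 9 (.edon 4 5 (.leaf [4,6,7]) (.leaf [1,3,5,11,2])) (.leaf [8,10,12,9]))) (.free 2 [16,17,18,19,20,21,22])))] (by decide +kernel) (by decide +kernel)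
theorem b105 : B 3360 3392 := Blk.of_chk [.t 1 (nat_lit 0) (.cn 2 3), .t 10 (nat_lit 0x53e01da01d905e205e1056b056a053b053a) (.z (.edon 0 16 (.node 2 4 (.edon 5 12 (.edon 0 10 (.leaf [5,6,7,8,9]) (.leaf [10,14,15])) (.leaf [0,2,11,12,13])) (.leaf [1,3,4])) (.free 2 [16,17,18,19,20,21,22]))), .t 5 (nat_lit 0x140005200050001) (.z (.edon 0 16 (.node 0 12 (.leaf [0,13,14,15]) (.edon 4 5 (.free 2 [4,6,7,8,9,10,12]) (.leaf [1,3,5,11,2]))) (.free 2 [16,17,18,19,20,21,22]))), .t 10 (nat_lit 0x53e05e205e1056b056a053b053a01da01d9) (.z (.node 2 4 (.node 12 16 (.edon 0 15 (.leaf [0,2,11,12,13]) (.free 2 [15,17,18,19,20,21,22])) (.edon 0 10 (.leaf [5,6,7,8,9]) (.leaf [10,14,16]))) (.free 1 [1,3,4]))), .t 8 (nat_lit 0x7980795079407fd07fa07c807c6) (.z (.node 0 7 (.edon 0 16 (.edon 8 15 (.leaf [8,10,14,12,9]) (.leaf [0,11,13,15])) (.free 2 [16,17,18,19,20,21,22]))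 (.free 2 [1,2,3,4,5,6,7]))), .t 13 (nat_lit 0x9130911090c03080230022f02080200093e093b09280926) (.z (.edon 0 16 (.edon 0 3 (.leaf [0,1,2]) (.edon 7 11 (.node 9 10 (.leaf [9,12,14,15,13]) (.leaf [7,8,10])) (.leaf [3,4,6,11,5]))) (.free 2 [16,17,18,19,20,21,22]))), .t 10 (nat_lit 0x8f3090a090908fa08f807fd07fa09480946) (.z (.node 0 7 (.node 0 16 (.free 2 [0,17,18,19,20,21,22]) (.node 9 14 (.leaf [9,13,15,16,11]) (.leaf [8,10,14,12]))) (.free 2 [1,2,3,4,5,6,7]))), .t 1 (nat_lit 0) (.cn 3 2), .t 9 (nat_lit 0xbc50b850b820b5e0b5b0b2f0b2d0c0e) (.z (.node 0 7 (.node 8 16 (.edon 0 13 (.leaf [0,8,9,11]) (.node 17 19 (.leaf [17,20,22,21]) (.leaf [13,18,19,15,14]))) (.leaf [10,12,16])) (.free 2 [1,2,3,4,5,6,7]))), .t 13 (nat_lit 0x5e40bf70bf20bf006590658060b060a05e205e10c000bfa) (.z (.node 8 16 (.node 0 14 (.node 0 20 (.leaf [0,21,22]) (.leaf [15,18,19,20,17]))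 (.node 4 11 (.free 2 [1,2,3,4,5,13,14]) (.leaf [6,7,8,9,11]))) (.free 1 [10,12,16]))), .t 5 (nat_lit 0x79507940a280a26) (.z (.node 0 7 (.edon 0 16 (.node 11 12 (.leaf [0,11,13,14,15]) (.leaf [8,10,12,9])) (.free 2 [16,17,18,19,20,21,22])) (.free 2 [1,2,3,4,5,6,7]))), .t 15 (nat_lit 0x8ad054808c008bd08b608b505e805e705740573053b053a08dc08da) (.z (.edon 1 21 (.edon 0 15 (.edon 9 13 (.leaf [9,10,14,12,11]) (.edon 0 5 (.leaf [1,3,4]) (.leaf [5,6,7,8,13]))) (.free 2 [15,16,17,18,19,20,22])) (.free 1 [0,2,21]))), .t 13 (nat_lit 0x5e40bf70bf20bf006590658060b060a05e205e10c000bfa) (.z (.node 8 16 (.node 0 13 (.node 0 20 (.leaf [0,21,22]) (.leaf [15,18,19,20,17])) (.node 4 11 (.free 2 [1,2,3,4,5,12,13]) (.leaf [6,7,8,9,11]))) (.free 1 [10,14,16]))), .t 1 (nat_lit 0) (.cn 3 3), .t 12 (nat_lit 0xc0e0ba30b9b0b9a0a030a0002fc022c022a020601ff) (.z (.edon 0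 3 (.free 1 [0,1,2]) (.edon 0 11 (.edon 7 9 (.leaf [7,8,10]) (.leaf [3,4,6,9,5])) (.edon 12 16 (.leaf [11,14,15,12]) (.node 17 19 (.leaf [13,17,20,22,21]) (.leaf [16,18,19])))))), .t 17 (nat_lit 0x53e0961095f0bed0b8f0b8c0b760b720b6e0b6d05e205e1056b056a053b053a) (.z (.edon 1 21 (.edon 0 5 (.leaf [1,3,4]) (.edon 0 10 (.leaf [5,6,7,8,9]) (.edon 0 19 (.node 13 14 (.leaf [13,15,16,18,17]) (.leaf [10,14,12,11])) (.leaf [19,20,22])))) (.free 1 [0,2,21]))), .t 12 (nat_lit 0xc0e0ba30b9b0b9a03080230022f02080200065e065b) (.z (.edon 0 3 (.free 1 [0,1,2]) (.node 8 16 (.edon 0 13 (.edon 7 11 (.leaf [7,8,12,9]) (.leaf [3,4,6,11,5])) (.edon 15 20 (.leaf [15,18,19]) (.leaf [13,17,20,22,21]))) (.leaf [10,14,16])))), .t 1 (nat_lit 0) (.fa 3), .t 1 (nat_lit 0) (.cn 3 2), .t 17 (nat_lit 0xb6e053e0961095f0bec0beb0b8e0b8d0b6b0b6a05e205e1056b056a053b053a) (.z (.edon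 1 21 (.edon 0 5 (.leaf [1,3,4]) (.edon 0 10 (.leaf [5,6,7,8,9]) (.edon 0 19 (.node 13 14 (.leaf [13,15,16,17,18]) (.leaf [10,14,12,11])) (.leaf [19,20,22])))) (.free 1 [0,2,21]))), .t 9 (nat_lit 0xbf60bf30bef0a640a610c000bfa0001) (.z (.node 20 0 (.edon 0 12 (.node 3 11 (.leaf [1,3,5,2]) (.free 2 [4,6,7,8,9,10,11])) (.node 15 16 (.leaf [15,17,19,20,18]) (.leaf [12,14,16,13]))) (.free 1 [0,21,22]))), .t 1 (nat_lit 0) (.cn 3 2), .t 13 (nat_lit 0xbf70bf20bf008dc081a081507c807c307ad07ab0c000bfa) (.z (.node 0 7 (.node 8 16 (.node 0 14 (.node 0 20 (.leaf [0,21,22]) (.leaf [15,18,19,20,17])) (.leaf [8,9,11,14,12])) (.leaf [10,13,16])) (.free 2 [1,2,3,4,5,6,7]))), .t 12 (nat_lit 0x2650264018f018e014400ac00ab0057000500040002) (.z (.edon 4 16 (.free 2 [4,5,7,8,10,13,14]) (.node 11 0 (.leaf [1,3,6,9,11,2]) (.free 3 [0,12,15,16,17,18,19,20,21,22])))),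 .t 10 (nat_lit 0x53e05e205e1056b056a053b053a01da01d9) (.z (.node 8 16 (.edon 0 15 (.node 4 5 (.node 2 4 (.leaf [0,2,11,12,13]) (.leaf [1,3,4])) (.leaf [5,6,7,8,9])) (.free 2 [15,17,18,19,20,21,22])) (.free 1 [10,14,16]))), .t 1 (nat_lit 0) (.cn 3 2), .t 12 (nat_lit 0x2650264018f018e014400ac00ab0057000500040002) (.z (.edon 4 16 (.free 2 [4,5,7,8,10,14,15]) (.node 11 0 (.leaf [1,3,6,9,11,2]) (.free 3 [0,12,13,16,17,18,19,20,21,22])))), .t 7 (nat_lit 0xb180b160148005c00050004) (.z (.node 16 0 (.edon 0 13 (.edon 4 9 (.free 2 [4,5,6,7,8,10,12]) (.leaf [1,3,9,11,2])) (.leaf [13,16,15,14])) (.free 2 [0,17,18,19,20,21,22]))), .t 13 (nat_lit 0x5e40bf60bf30bef06590658060b060a05e205e10c000bfa) (.z (.node 8 16 (.node 0 14 (.node 0 20 (.leaf [0,21,22]) (.leaf [15,17,19,20,18])) (.node 4 11 (.free 2 [1,2,3,4,5,13,14]) (.leaf [6,7,8,9,11]))) (.free 1 [10,12,16]))),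 .t 15 (nat_lit 0x8b508b008ad054808db08d808bf08be05e805e705740573053b053a) (.z (.edon 1 21 (.edon 0 15 (.node 8 11 (.edon 0 5 (.leaf [1,3,4]) (.leaf [5,6,7,8,13])) (.leaf [9,10,12,14,11])) (.free 2 [15,16,17,18,19,20,22])) (.free 1 [0,2,21]))), .t 1 (nat_lit 0) (.fa 4), .t 10 (nat_lit 0xbb20bb10bae0bd80bd60bc50bc307c007be) (.z (.node 0 7 (.node 8 16 (.edon 0 14 (.leaf [0,8,9,12,13]) (.edon 0 20 (.leaf [14,15,18,19,17]) (.leaf [20,21,22]))) (.leaf [10,11,16])) (.free 2 [1,2,3,4,5,6,7])))] (by decide +kernel) (by decide +kernel)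
theorem b106 : B 3392 3424 := Blk.of_chk [.t 7 (nat_lit 0xc0e0be90be20be107c007be) (.z (.node 0 7 (.node 8 16 (.edon 0 14 (.leaf [0,8,9,12,13]) (.edon 15 20 (.leaf [15,18,19]) (.leaf [14,17,20,22,21]))) (.leaf [10,11,16])) (.free 2 [1,2,3,4,5,6,7]))), .t 5 (nat_lit 0xbfd0c0e0c070bff) (.z (.edon 0 15 (.free 4 [0,1,2,3,4,5,6,7,8,9,10,11,12,13,14]) (.node 15 19 (.leaf [15,20,22,21,17]) (.leaf [16,18,19])))), .t 10 (nat_lit 0xa65079307910b180b160ab60ab40a5d0a5b) (.z (.node 0 7 (.node 0 11 (.node 0 16 (.free 2 [0,17,18,19,20,21,22]) (.leaf [12,16,15,14,13])) (.leaf [8,10,11,9])) (.free 2 [1,2,3,4,5,6,7]))), .t 13 (nat_lit 0x7c70bf60bf30bef0910090e0855085307c007be0c000bfa) (.z (.node 0 7 (.node 8 16 (.node 0 14 (.node 0 20 (.leaf [0,21,22]) (.leaf [15,17,19,20,18])) (.leaf [8,9,12,13,14])) (.leaf [10,11,16])) (.free 2 [1,2,3,4,5,6,7]))), .t 7 (nat_lit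 0x79307910a9a0a980bbf0bbe) (.z (.node 0 7 (.node 0 11 (.edon 19 21 (.leaf [19,20,22]) (.node 14 18 (.leaf [0,14,15,17,21]) (.leaf [12,16,18,13]))) (.leaf [8,10,11,9])) (.free 2 [1,2,3,4,5,6,7]))), .t 15 (nat_lit 0x2fa03340331030803060bf60bf30bef039d039b0a650a600c000bfa) (.z (.node 0 3 (.node 0 11 (.node 0 20 (.leaf [0,21,22]) (.node 15 16 (.leaf [15,17,19,20,18]) (.leaf [12,13,16,14]))) (.edon 7 9 (.leaf [7,8,10]) (.leaf [4,6,9,11,5]))) (.free 1 [1,2,3]))), .t 9 (nat_lit 0xc0f0bb60b7b0b780b520b4f0b2f0b2d) (.z (.node 0 7 (.node 8 16 (.edon 0 13 (.leaf [0,8,9,11]) (.edon 15 20 (.leaf [13,17,19,15,14]) (.leaf [18,20,22,21]))) (.leaf [10,12,16])) (.free 2 [1,2,3,4,5,6,7]))), .t 13 (nat_lit 0xa5d0a290a240a0409ff09e809e602fc022c022a020601ff) (.z (.edon 0 16 (.edon 0 3 (.leaf [0,1,2]) (.edon 0 11 (.edon 7 9 (.leaf [7,8,10]) (.leaf [3,4,6,9,5])) (.leaf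 [11,12,13,15,14]))) (.free 2 [16,17,18,19,20,21,22]))), .t 12 (nat_lit 0x2fa0334033103080306039d039b0a9a0a980bbf0bbe) (.z (.node 0 3 (.node 0 11 (.edon 19 21 (.leaf [19,20,22]) (.node 14 18 (.leaf [0,14,15,17,21]) (.leaf [12,16,18,13]))) (.edon 7 9 (.leaf [7,8,10]) (.leaf [4,6,9,11,5]))) (.free 1 [1,2,3]))), .t 9 (nat_lit 0xb180b16079507940140005200050001) (.z (.node 16 0 (.edon 0 13 (.node 7 9 (.edon 4 11 (.leaf [4,6,7]) (.leaf [1,3,5,11,2])) (.leaf [8,10,12,9])) (.leaf [13,16,15,14])) (.free 2 [0,17,18,19,20,21,22]))), .t 7 (nat_lit 0x79507940b6b0b690a4f0a4e) (.z (.node 0 7 (.edon 19 21 (.leaf [19,20,22]) (.node 11 12 (.node 14 17 (.leaf [0,11,14,18,21]) (.leaf [13,16,17,15])) (.leaf [8,10,12,9]))) (.free 2 [1,2,3,4,5,6,7]))), .t 1 (nat_lit 0) (.cn 3 3), .t 6 (nat_lit 0x10a970a950bcc0bcb) (.z (.edon 21 19 (.node 0 11 (.node 14 17 (.leaf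 [0,14,15,18,21]) (.leaf [12,16,17,13])) (.node 3 11 (.leaf [1,3,5,2]) (.free 2 [4,6,7,8,9,10,11]))) (.free 1 [19,20,22]))), .t 9 (nat_lit 0x10b6b0af10aef0a970a950a890a87) (.z (.edon 21 19 (.node 0 11 (.node 14 17 (.leaf [0,14,18,21]) (.leaf [12,16,17,15,13])) (.node 3 11 (.leaf [1,3,5,2]) (.free 2 [4,6,7,8,9,10,11]))) (.free 1 [19,20,22]))), .t 10 (nat_lit 0xa240a390a340a2e0a2a0a470a4507950794) (.z (.node 0 7 (.node 0 16 (.free 2 [0,17,18,19,20,21,22]) (.edon 9 13 (.leaf [8,10,12,9]) (.leaf [11,13,16,15,14]))) (.free 2 [1,2,3,4,5,6,7]))), .t 1 (nat_lit 0) (.cp 3 3), .t 10 (nat_lit 0xa240a390a340a2e0a2a0a470a4507950794) (.z (.node 0 7 (.node 0 16 (.free 2 [0,17,18,19,20,21,22]) (.edon 9 16 (.leaf [8,10,12,9]) (.leaf [11,13,16,15,14]))) (.free 2 [1,2,3,4,5,6,7]))), .t 10 (nat_lit 0xbe90a570a520a5102fc022c022a020601ff) (.z (.edon 0 3 (.free 1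 [0,1,2]) (.edon 0 11 (.edon 7 9 (.leaf [7,8,10]) (.leaf [3,4,6,9,5])) (.node 14 19 (.leaf [11,14,20,22,21]) (.free 2 [12,13,15,16,17,18,19]))))), .t 12 (nat_lit 0x9f109ec0c0f0be90be70be602fc022c022a020601ff) (.z (.edon 0 3 (.free 1 [0,1,2]) (.edon 0 11 (.edon 7 9 (.leaf [7,8,10]) (.leaf [3,4,6,9,5])) (.node 14 16 (.edon 15 20 (.leaf [15,17,19]) (.leaf [14,18,20,22,21])) (.leaf [11,12,16,13]))))), .t 15 (nat_lit 0x9f109ec0bf30bd90bd50bc60bc10bb60bb402fc022c022a020601ff) (.z (.edon 0 20 (.edon 0 3 (.leaf [0,1,2]) (.edon 0 11 (.edon 7 9 (.leaf [7,8,10]) (.leaf [3,4,6,9,5])) (.node 14 16 (.leaf [14,15,17,19,18]) (.leaf [11,12,16,13])))) (.free 1 [20,21,22]))), .t 9 (nat_lit 0xb1c0b520b4f0b2e0b2b0b7b0b790c0f) (.z (.node 0 7 (.node 8 16 (.edon 0 13 (.leaf [0,8,9,11]) (.node 18 19 (.leaf [18,20,22,21]) (.leaf [13,15,17,19,14]))) (.leaf [10,12,16]))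 (.free 2 [1,2,3,4,5,6,7]))), .t 4 (nat_lit 0xc0f08f008ee) (.z (.node 0 7 (.node 13 19 (.edon 0 18 (.leaf [0,9,11,13,14]) (.leaf [18,20,22,21])) (.free 2 [8,10,12,15,16,17,19])) (.free 2 [1,2,3,4,5,6,7]))), .t 12 (nat_lit 0xc0f0be90be70be602fc022c022a020601ff06780675) (.z (.edon 0 3 (.free 1 [0,1,2]) (.node 8 16 (.edon 0 14 (.edon 7 9 (.leaf [7,8,13,11]) (.leaf [3,4,6,9,5])) (.edon 15 20 (.leaf [15,17,19]) (.leaf [14,18,20,22,21]))) (.leaf [10,12,16])))), .t 9 (nat_lit 0xb180b16013f00510004000107eb07e8) (.z (.node 16 0 (.edon 0 13 (.edon 4 8 (.leaf [4,6,7]) (.edon 8 9 (.leaf [8,10,12,11]) (.leaf [1,3,5,9,2]))) (.leaf [13,16,15,14])) (.free 2 [0,17,18,19,20,21,22]))), .t 9 (nat_lit 0xb180b1607eb07e80144005700040002) (.z (.node 16 0 (.edon 0 13 (.node 7 11 (.edon 4 6 (.leaf [4,5,7]) (.leaf [1,3,6,9,2])) (.leaf [8,10,12,11])) (.leaf [13,16,15,14]))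 (.free 2 [0,17,18,19,20,21,22]))), .t 1 (nat_lit 0) (.cn 2 3), .t 1 (nat_lit 0) (.cn 3 2), .t 1 (nat_lit 0) (.cn 2 3), .t 5 (nat_lit 0x144005700040002) (.z (.edon 16 4 (.node 0 9 (.edon 0 16 (.leaf [0,12,14,15]) (.free 2 [16,17,18,19,20,21,22])) (.leaf [1,3,6,9,2])) (.free 2 [4,5,7,8,10,11,13]))), .t 15 (nat_lit 0xbb30bb00baf065b065a06570bd90bd50bc60bc406bf06bc06730672) (.z (.edon 0 7 (.free 2 [0,1,2,3,4,5,6]) (.node 8 16 (.edon 0 14 (.leaf [7,8,11,12,9]) (.edon 0 20 (.leaf [14,17,19,18,15]) (.leaf [20,21,22]))) (.leaf [10,13,16])))), .t 7 (nat_lit 0x79307910ae90ae70b6b0b69) (.z (.node 0 7 (.node 0 11 (.edon 15 19 (.leaf [13,16,17,15]) (.edon 19 21 (.leaf [19,20,22]) (.leaf [0,12,14,18,21]))) (.leaf [8,10,11,9])) (.free 2 [1,2,3,4,5,6,7]))), .t 17 (nat_lit 0xba40bb00baf0ba90ba7053e0bd20bd1095b095905e205e1056b056a053b053a) (.z (.edon 1 21 (.edon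 0 5 (.leaf [1,3,4]) (.edon 0 10 (.leaf [5,6,7,8,9]) (.edon 0 14 (.leaf [10,13,12,11]) (.edon 0 19 (.leaf [14,16,17,18,15]) (.leaf [19,20,22]))))) (.free 1 [0,2,21])))] (by decide +kernel) (by decide +kernel)
theorem b107 : B 3424 3456 := Blk.of_chk [.t 11 (nat_lit 0xc0f0bb60b7b0b780b520b4f0b2f0b2d065a0657) (.z (.edon 0 7 (.free 2 [0,1,2,3,4,5,6]) (.node 8 16 (.edon 0 13 (.leaf [7,8,11,9]) (.edon 15 20 (.leaf [13,17,19,15,14]) (.leaf [18,20,22,21]))) (.leaf [10,12,16])))), .t 1 (nat_lit 0) (.fa 4), .t 1 (nat_lit 0) (.cn 4 2), .t 7 (nat_lit 0x79307910bcc0bcb0a970a95) (.z (.node 0 7 (.node 0 11 (.edon 13 19 (.leaf [12,16,17,13]) (.edon 19 21 (.leaf [19,20,22]) (.leaf [0,14,15,18,21]))) (.leaf [8,10,11,9])) (.free 2 [1,2,3,4,5,6,7]))), .t 1 (nat_lit 0) (.fa 4), .t 1 (nat_lit 0) (.cn 2 3), .t 7 (nat_lit 0x14400570004000207f307f0) (.z (.edon 8 4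 (.edon 11 16 (.leaf [8,10,14,11]) (.node 0 9 (.edon 0 16 (.leaf [0,12,13,15]) (.free 2 [16,17,18,19,20,21,22])) (.leaf [1,3,6,9,2]))) (.free 1 [4,5,7]))), .t 12 (nat_lit 0x7ec0803080007f307f00830082e0144005700040002) (.z (.node 16 0 (.node 7 12 (.edon 4 6 (.leaf [4,5,7]) (.leaf [1,3,6,9,2])) (.node 12 13 (.leaf [12,15,16]) (.leaf [8,10,14,13,11]))) (.free 2 [0,17,18,19,20,21,22]))), .t 5 (nat_lit 0x149005e00060004) (.z (.edon 0 16 (.node 0 12 (.leaf [0,13,14,15]) (.edon 4 12 (.free 2 [4,5,6,7,8,10,11]) (.leaf [1,3,9,12,2]))) (.free 2 [16,17,18,19,20,21,22]))), .t 7 (nat_lit 0x79307910aab0aaa0ba60ba4) (.z (.node 0 7 (.node 0 11 (.edon 15 19 (.leaf [14,16,17,15]) (.edon 19 21 (.leaf [19,20,22]) (.leaf [0,12,13,18,21]))) (.leaf [8,10,11,9])) (.free 2 [1,2,3,4,5,6,7]))), .t 12 (nat_lit 0xa7f0a970a950a880a8601440057000400020af10af0) (.z (.edon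 0 20 (.edon 4 16 (.free 2 [4,5,7,8,10,11,14]) (.node 0 9 (.node 0 17 (.leaf [0,18,19]) (.leaf [12,15,16,17,13])) (.leaf [1,3,6,9,2]))) (.free 1 [20,21,22]))), .t 12 (nat_lit 0x65b065a06570c0f0ba30ba10ba006bf06bc06730672) (.z (.edon 0 7 (.free 2 [0,1,2,3,4,5,6]) (.node 8 16 (.edon 0 13 (.leaf [7,8,11,12,9]) (.edon 15 20 (.leaf [15,17,19]) (.leaf [13,18,20,22,21]))) (.leaf [10,14,16])))), .t 15 (nat_lit 0x65b065a06570bf30b950b910b860b810b7b0b7906bf06bc06730672) (.z (.edon 0 7 (.free 2 [0,1,2,3,4,5,6]) (.node 8 16 (.edon 0 13 (.leaf [7,8,11,12,9]) (.edon 0 20 (.leaf [13,15,17,19,18]) (.leaf [20,21,22]))) (.leaf [10,14,16])))), .t 1 (nat_lit 0) (.cn 2 3), .t 5 (nat_lit 0x13f005100040001) (.z (.edon 0 16 (.node 0 12 (.leaf [0,13,14,15]) (.edon 4 9 (.free 2 [4,6,7,8,10,11,12]) (.leaf [1,3,5,9,2]))) (.free 2 [16,17,18,19,20,21,22]))), .t 10 (nat_lit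 0x79307910ba60af10aef0acf0acd0abb0ab9) (.z (.node 0 7 (.node 0 11 (.edon 15 19 (.leaf [12,16,17,15,14]) (.free 2 [0,13,18,19,20,21,22])) (.leaf [8,10,11,9])) (.free 2 [1,2,3,4,5,6,7]))), .t 12 (nat_lit 0xa0b0a060c0f0ba30ba10ba002fc022c022a020601ff) (.z (.edon 0 3 (.free 1 [0,1,2]) (.edon 0 11 (.edon 7 9 (.leaf [7,8,10]) (.leaf [3,4,6,9,5])) (.node 15 16 (.edon 15 20 (.leaf [15,17,19]) (.leaf [13,18,20,22,21])) (.leaf [11,12,16,14]))))), .t 17 (nat_lit 0xb6e053e0960095e0bec0beb0b8e0b8d0b6b0b6a05e205e1056b056a053b053a) (.z (.edon 1 21 (.edon 0 5 (.leaf [1,3,4]) (.edon 0 10 (.leaf [5,6,7,8,9]) (.edon 0 19 (.node 13 14 (.leaf [13,15,16,17,18]) (.leaf [10,12,14,11])) (.leaf [19,20,22])))) (.free 1 [0,2,21]))), .t 5 (nat_lit 0x7eb07e8093e093c) (.z (.node 0 7 (.edon 0 16 (.node 9 12 (.leaf [0,9,13,14,15]) (.leaf [8,10,12,11])) (.free 2 [16,17,18,19,20,21,22]))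 (.free 2 [1,2,3,4,5,6,7]))), .t 5 (nat_lit 0x7fd07fa08f508f4) (.z (.node 0 7 (.edon 0 16 (.node 11 14 (.leaf [0,9,11,13,15]) (.leaf [8,10,14,12])) (.free 2 [16,17,18,19,20,21,22])) (.free 2 [1,2,3,4,5,6,7]))), .t 15 (nat_lit 0x961053e09e109df098a0988095b095905e205e1056b056a053b053a) (.z (.edon 1 21 (.edon 0 5 (.leaf [1,3,4]) (.edon 0 10 (.leaf [5,6,7,8,9]) (.edon 0 15 (.leaf [10,14,13,12,11]) (.free 2 [15,16,17,18,19,20,22])))) (.free 1 [0,2,21]))), .t 8 (nat_lit 0x7f007eb07e80819081607fc07fb) (.z (.node 0 7 (.edon 0 16 (.node 9 14 (.leaf [0,9,13,15]) (.leaf [8,10,12,14,11])) (.free 2 [16,17,18,19,20,21,22])) (.free 2 [1,2,3,4,5,6,7]))), .t 1 (nat_lit 0) (.fa 4), .t 11 (nat_lit 0xa0b0a060b7b0b780c0f02fc022c022a020601ff) (.z (.edon 0 3 (.free 1 [0,1,2]) (.edon 0 11 (.edon 7 9 (.leaf [7,8,10]) (.leaf [3,4,6,9,5])) (.node 13 16 (.node 18 19 (.leaf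 [18,20,22,21]) (.leaf [13,17,19,15])) (.leaf [11,12,16,14]))))), .t 10 (nat_lit 0xbf60bf30bef079307910a650a630c000bfa) (.z (.node 0 7 (.node 0 11 (.node 0 20 (.leaf [0,21,22]) (.node 15 16 (.leaf [15,17,19,20,18]) (.leaf [12,16,14,13]))) (.leaf [8,10,11,9])) (.free 2 [1,2,3,4,5,6,7]))), .t 10 (nat_lit 0x79307910ba60af10aef0acf0acd0abb0ab9) (.z (.node 0 7 (.node 0 11 (.edon 0 20 (.edon 14 18 (.leaf [12,16,17,15,14]) (.leaf [0,13,18,19])) (.leaf [20,21,22])) (.leaf [8,10,11,9])) (.free 2 [1,2,3,4,5,6,7]))), .t 13 (nat_lit 0x9ff0a1a0a150a0b0a060a470a4502fc022c022a020601ff) (.z (.edon 0 3 (.free 1 [0,1,2]) (.edon 0 11 (.edon 7 9 (.leaf [7,8,10]) (.leaf [3,4,6,9,5])) (.edon 14 17 (.leaf [11,12,16,15,14]) (.free 2 [13,17,18,19,20,21,22]))))), .t 1 (nat_lit 0) (.cn 4 2), .t 1 (nat_lit 0) (.cn 3 3), .t 12 (nat_lit 0xa0b0a060c0f0ba30ba10ba002fc022c022a020601ff)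 (.z (.edon 0 3 (.free 1 [0,1,2]) (.edon 0 11 (.edon 7 9 (.leaf [7,8,10]) (.leaf [3,4,6,9,5])) (.node 13 16 (.edon 15 20 (.leaf [15,17,19]) (.leaf [13,18,20,22,21])) (.leaf [11,12,16,14]))))), .t 10 (nat_lit 0xb960b950b91079307910b9c0b980ab60ab4) (.z (.node 0 7 (.node 0 11 (.node 0 20 (.leaf [0,21,22]) (.edon 14 17 (.leaf [12,16,15,14]) (.leaf [13,17,19,20,18]))) (.leaf [8,10,11,9])) (.free 2 [1,2,3,4,5,6,7]))), .t 10 (nat_lit 0x940093e093b07eb07e80952094d09490947) (.z (.node 0 7 (.node 0 16 (.free 2 [0,17,18,19,20,21,22]) (.node 9 12 (.leaf [9,14,16,15,13]) (.leaf [8,10,12,11]))) (.free 2 [1,2,3,4,5,6,7])))] (by decide +kernel) (by decide +kernel)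
theorem b108 : B 3456 3488 := Blk.of_chk [.t 1 (nat_lit 0) (.cn 2 3), .t 10 (nat_lit 0x65b065a065706bf06bc0673067209af09ac) (.z (.edon 0 16 (.edon 0 7 (.free 2 [0,1,2,3,4,5,6]) (.edon 10 12 (.leaf [10,13,15,14]) (.leaf [7,8,11,12,9]))) (.free 2 [16,17,18,19,20,21,22]))), .t 1 (nat_lit 0) (.cn 4 2), .t 15 (nat_lit 0x95e095a0957053e098a0985096e096c05e205e1056b056a053b053a) (.z (.edon 1 21 (.edon 0 5 (.leaf [1,3,4]) (.edon 0 10 (.leaf [5,6,7,8,9]) (.edon 0 15 (.leaf [10,12,14,13,11]) (.free 2 [15,16,17,18,19,20,22])))) (.free 1 [0,2,21]))), .t 1 (nat_lit 0) (.cn 4 3), .t 1 (nat_lit 0) (.cn 3 3), .t 1 (nat_lit 0) (.cp 3 3), .t 6 (nat_lit 0x1039e03990b580b57) (.z (.edon 19 7 (.node 0 11 (.edon 19 21 (.leaf [19,20,22]) (.leaf [0,13,14,17,21])) (.edon 4 5 (.leaf [4,6,11,9]) (.leaf [1,3,5,2]))) (.free 2 [7,8,10,12,15,16,18]))), .t 10 (nat_lit 0x79307910ab60ab10c0d0b9c0b980b940b93)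 (.z (.node 0 7 (.node 0 11 (.node 0 20 (.leaf [0,21,22]) (.node 13 16 (.leaf [13,17,18,19,20]) (.leaf [12,14,16,15]))) (.leaf [8,10,11,9])) (.free 2 [1,2,3,4,5,6,7]))), .t 4 (nat_lit 0x108d408d2) (.z (.edon 16 4 (.node 0 5 (.edon 0 16 (.leaf [0,9,11,12,13]) (.free 2 [16,17,18,19,20,21,22])) (.leaf [1,3,5,2])) (.free 2 [4,6,7,8,10,14,15]))), .t 7 (nat_lit 0x9f109ef0144005700040002) (.z (.node 16 0 (.edon 4 16 (.free 2 [4,5,7,8,10,14,15]) (.edon 0 11 (.leaf [1,3,6,9,2]) (.leaf [11,16,13,12]))) (.free 2 [0,17,18,19,20,21,22]))), .t 13 (nat_lit 0xb8f0b0a0b070aa00a9e0a9a0a99026600ad00aa005c0058) (.z (.edon 16 4 (.edon 1 21 (.edon 0 12 (.leaf [1,3,6,11,9]) (.edon 0 19 (.leaf [12,13,16,18,17]) (.leaf [19,20,22]))) (.leaf [0,2,21])) (.free 2 [4,5,7,8,10,14,15]))), .t 7 (nat_lit 0x1440057000400020b0d0b0c) (.z (.edon 0 20 (.edon 4 16 (.free 2 [4,5,7,8,10,14,15])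 (.node 0 9 (.node 12 16 (.leaf [0,12,17,18,19]) (.leaf [11,13,16])) (.leaf [1,3,6,9,2]))) (.free 1 [20,21,22]))), .t 7 (nat_lit 0x9f009ed0144005700040002) (.z (.node 16 0 (.edon 4 16 (.free 2 [4,5,7,8,10,14,15]) (.edon 0 11 (.leaf [1,3,6,9,2]) (.leaf [11,13,16,12]))) (.free 2 [0,17,18,19,20,21,22]))), .t 5 (nat_lit 0x144005700040002) (.z (.edon 16 4 (.node 0 9 (.edon 15 21 (.free 2 [15,16,17,18,19,20,22]) (.leaf [0,12,13,21])) (.leaf [1,3,6,9,2])) (.free 2 [4,5,7,8,10,11,14]))), .t 13 (nat_lit 0xbed0b8f0b8c0b760b720b6e0b6d026c00b100ae005e0059) (.z (.edon 16 4 (.edon 1 21 (.edon 0 13 (.leaf [1,3,6,12,9]) (.edon 0 19 (.leaf [13,15,16,18,17]) (.leaf [19,20,22]))) (.leaf [0,2,21])) (.free 2 [4,5,7,8,10,11,14]))), .t 5 (nat_lit 0x144005700040002) (.z (.edon 0 16 (.node 0 12 (.leaf [0,13,14,15]) (.node 3 12 (.leaf [1,3,6,9,2]) (.free 2 [4,5,7,8,10,11,12])))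 (.free 2 [16,17,18,19,20,21,22]))), .t 1 (nat_lit 0) (.cn 7 3), .t 1 (nat_lit 0) (.cn 2 3), .t 10 (nat_lit 0x79307910ba90af40af20ad20ad00ac00abe) (.z (.node 0 7 (.node 0 11 (.edon 15 19 (.leaf [12,16,18,15,14]) (.free 2 [0,13,17,19,20,21,22])) (.leaf [8,10,11,9])) (.free 2 [1,2,3,4,5,6,7]))), .t 10 (nat_lit 0x79307910bfa0bdd0bcd0bbc0bba0a9a0a98) (.z (.node 0 7 (.node 0 11 (.node 0 20 (.leaf [0,21,22]) (.edon 13 19 (.leaf [12,16,18,13]) (.leaf [14,19,20,17,15]))) (.leaf [8,10,11,9])) (.free 2 [1,2,3,4,5,6,7]))), .t 10 (nat_lit 0xbf70bf20bf0079307910a650a630c000bfa) (.z (.node 0 7 (.node 0 11 (.node 0 20 (.leaf [0,21,22]) (.node 15 16 (.leaf [15,18,19,20,17]) (.leaf [12,16,14,13]))) (.leaf [8,10,11,9])) (.free 2 [1,2,3,4,5,6,7]))), .t 11 (nat_lit 0xa0b0a060b850b820c0e02fc022c022a020601ff) (.z (.edon 0 3 (.free 1 [0,1,2]) (.edon 0 11 (.edon 7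 9 (.leaf [7,8,10]) (.leaf [3,4,6,9,5])) (.node 13 16 (.node 17 19 (.leaf [17,20,22,21]) (.leaf [13,18,19,15])) (.leaf [11,12,16,14]))))), .t 6 (nat_lit 0x193019200b000af0023) (.z (.edon 0 16 (.node 0 12 (.leaf [0,13,14,15]) (.edon 3 9 (.free 2 [3,4,5,7,8,10,11]) (.leaf [1,6,9,12,2]))) (.free 2 [16,17,18,19,20,21,22]))), .t 1 (nat_lit 0) (.cn 2 3), .t 5 (nat_lit 0x144005700040002) (.z (.edon 0 16 (.node 0 12 (.leaf [0,13,14,15]) (.edon 4 9 (.free 2 [4,5,7,8,10,11,12]) (.leaf [1,3,6,9,2]))) (.free 2 [16,17,18,19,20,21,22]))), .t 7 (nat_lit 0x2303480251024f021e0202) (.z (.edon 0 16 (.node 0 12 (.leaf [0,13,14,15]) (.edon 7 12 (.leaf [7,8,10]) (.edon 3 9 (.leaf [3,4,5,12,11]) (.leaf [1,6,9,2])))) (.free 2 [16,17,18,19,20,21,22]))), .t 1 (nat_lit 0) (.cp 2 3), .t 6 (nat_lit 0x2fd022d0229020601ff) (.z (.node 9 1 (.edon 7 9 (.leaf [7,8,10]) (.leaf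 [3,4,5,9,6])) (.free 4 [0,1,2,11,12,13,14,15,16,17,18,19,20,21,22]))), .t 6 (nat_lit 0x18f018e00ac00ab0023) (.z (.edon 0 16 (.node 0 12 (.leaf [0,13,14,15]) (.edon 3 9 (.free 2 [3,4,5,7,8,10,12]) (.leaf [1,6,9,11,2]))) (.free 2 [16,17,18,19,20,21,22]))), .t 5 (nat_lit 0x145005800050002) (.z (.edon 0 16 (.node 0 12 (.leaf [0,13,14,15]) (.edon 4 6 (.free 2 [4,5,7,8,9,10,12]) (.leaf [1,3,6,11,2]))) (.free 2 [16,17,18,19,20,21,22]))), .t 8 (nat_lit 0x79508af08ae07ea07e907930792) (.z (.node 7 0 (.free 2 [1,2,3,4,5,6,7]) (.edon 0 13 (.leaf [0,8,9,10,11,12]) (.free 3 [13,14,15,16,17,18,19,20,21,22]))))] (by decide +kernel) (by decide +kernel)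
theorem b109 : B 3488 3520 := Blk.of_chk [.t 6 (nat_lit 0x193019200b000af0023) (.z (.edon 0 16 (.node 0 12 (.leaf [0,13,14,15]) (.edon 3 12 (.free 2 [3,4,5,7,8,10,11]) (.leaf [1,6,9,12,2]))) (.free 2 [16,17,18,19,20,21,22]))), .t 6 (nat_lit 0x1750174009a0099001e) (.z (.edon 0 16 (.node 0 12 (.leaf [0,13,14,15]) (.edon 3 9 (.free 2 [3,4,6,7,8,10,11]) (.leaf [1,5,9,12,2]))) (.free 2 [16,17,18,19,20,21,22]))), .t 5 (nat_lit 0x149005e00060004) (.z (.edon 0 16 (.node 0 12 (.leaf [0,13,14,15]) (.node 3 6 (.leaf [1,3,9,12,2]) (.free 2 [4,5,6,7,8,10,11]))) (.free 2 [16,17,18,19,20,21,22]))), .t 15 (nat_lit 0x539054e054d054205400bf70bf20bf001c701c6056e056d0c000bfa) (.z (.node 2 4 (.node 8 16 (.node 0 13 (.node 0 20 (.leaf [0,21,22]) (.leaf [15,18,19,20,17])) (.edon 6 12 (.leaf [5,7,8,11,6]) (.leaf [2,9,12,13]))) (.leaf [10,14,16])) (.free 1 [1,3,4]))),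 .t 15 (nat_lit 0x5390961054b054a053e053c09e109df098a0988095b0959056b056a) (.z (.edon 1 21 (.edon 0 5 (.leaf [1,3,4]) (.edon 0 10 (.leaf [5,7,8,9,6]) (.edon 0 15 (.leaf [10,14,13,12,11]) (.free 2 [15,16,17,18,19,20,22])))) (.free 1 [0,2,21]))), .t 15 (nat_lit 0x539054e054d054205400bf60bf30bef01c701c6056e056d0c000bfa) (.z (.node 2 4 (.node 8 16 (.node 0 13 (.node 0 20 (.leaf [0,21,22]) (.leaf [15,17,19,20,18])) (.edon 6 12 (.leaf [5,7,8,11,6]) (.leaf [2,9,12,13]))) (.leaf [10,14,16])) (.free 1 [1,3,4]))), .t 15 (nat_lit 0x539054b054a053e053c0bf60bf30bef056b056a01da01d90c000bfa) (.z (.node 2 4 (.node 8 16 (.node 0 13 (.node 0 20 (.leaf [0,21,22]) (.leaf [15,17,19,20,18])) (.node 2 9 (.leaf [2,11,12,13]) (.leaf [5,7,8,9,6]))) (.leaf [10,14,16])) (.free 1 [1,3,4]))), .t 15 (nat_lit 0x539054b054a053e053c0bf70bf20bf0056b056a01da01d90c000bfa) (.z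 (.node 2 4 (.node 8 16 (.node 0 13 (.node 0 20 (.leaf [0,21,22]) (.leaf [15,18,19,20,17])) (.node 2 9 (.leaf [2,11,12,13]) (.leaf [5,7,8,9,6]))) (.leaf [10,14,16])) (.free 1 [1,3,4]))), .t 1 (nat_lit 0) (.cn 2 3), .t 4 (nat_lit 0xc0e07930792) (.z (.node 0 7 (.edon 0 12 (.leaf [0,8,9,10,11]) (.node 17 19 (.leaf [17,20,22,21]) (.free 2 [12,13,14,15,16,18,19]))) (.free 2 [1,2,3,4,5,6,7]))), .t 1 (nat_lit 0) (.fa 4), .t 4 (nat_lit 0xc0f07930792) (.z (.node 0 7 (.edon 0 12 (.leaf [0,8,9,10,11]) (.node 18 19 (.leaf [18,20,22,21]) (.free 2 [12,13,14,15,16,17,19]))) (.free 2 [1,2,3,4,5,6,7]))), .t 4 (nat_lit 0xba307930792) (.z (.node 0 7 (.edon 0 12 (.leaf [0,8,9,10,11]) (.node 13 19 (.leaf [13,20,22,21]) (.free 2 [12,14,15,16,17,18,19]))) (.free 2 [1,2,3,4,5,6,7]))), .t 1 (nat_lit 0) (.fa 2), .t 4 (nat_lit 0xb1207930792) (.z (.node 0 7 (.edon 0 12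 (.leaf [0,8,9,10,11]) (.node 12 19 (.leaf [12,20,22,21]) (.free 2 [13,14,15,16,17,18,19]))) (.free 2 [1,2,3,4,5,6,7]))), .t 10 (nat_lit 0xab20acf0acd0aba0ab8079307910af10af0) (.z (.node 0 7 (.node 0 11 (.edon 14 19 (.leaf [12,15,16,17,14]) (.free 2 [0,13,18,19,20,21,22])) (.leaf [8,10,11,9])) (.free 2 [1,2,3,4,5,6,7]))), .t 10 (nat_lit 0xaf4079307910bec0beb0b090b080af10af0) (.z (.node 0 7 (.node 0 11 (.edon 18 19 (.leaf [12,15,16,17,18]) (.free 2 [0,13,14,19,20,21,22])) (.leaf [8,10,11,9])) (.free 2 [1,2,3,4,5,6,7]))), .t 10 (nat_lit 0xc0f0ba30ba10ba002fc022c022a020601ff) (.z (.edon 0 3 (.free 1 [0,1,2]) (.edon 0 11 (.edon 7 9 (.leaf [7,8,10]) (.leaf [3,4,6,9,5])) (.node 18 19 (.leaf [13,18,20,22,21]) (.free 2 [11,12,14,15,16,17,19]))))), .t 11 (nat_lit 0xb2e0bb60bb40b7b0b790b1f0b1d0c0f065a0657) (.z (.edon 0 7 (.free 2 [0,1,2,3,4,5,6]) (.node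 8 16 (.edon 0 13 (.leaf [7,8,11,9]) (.node 18 19 (.leaf [18,20,22,21]) (.leaf [13,14,15,17,19]))) (.leaf [10,12,16])))), .t 10 (nat_lit 0xbe90ba30b680b6702fc022c022a020601ff) (.z (.edon 0 3 (.free 1 [0,1,2]) (.edon 0 11 (.edon 7 9 (.leaf [7,8,10]) (.leaf [3,4,6,9,5])) (.node 14 19 (.leaf [13,14,20,22,21]) (.free 2 [11,12,15,16,17,18,19]))))), .t 1 (nat_lit 0) (.fa 4), .t 1 (nat_lit 0) (.cn 3 2), .t 1 (nat_lit 0) (.cn 2 3), .t 12 (nat_lit 0xc0f0ba30ba10ba002fc022c022a020601ff06740671) (.z (.edon 0 3 (.free 1 [0,1,2]) (.node 8 16 (.edon 0 13 (.edon 7 9 (.leaf [7,8,12,11]) (.leaf [3,4,6,9,5])) (.node 18 19 (.leaf [13,18,20,22,21]) (.leaf [14,17,19]))) (.leaf [10,15,16])))), .t 1 (nat_lit 0) (.fa 3), .t 15 (nat_lit 0xbd90b950b910b5f0b5a0b520b5002fc022c022a020601ff06740671) (.z (.edon 0 3 (.free 1 [0,1,2]) (.node 8 16 (.edon 0 13 (.edon 7 9 (.leaf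 [7,8,12,11]) (.leaf [3,4,6,9,5])) (.edon 0 20 (.leaf [13,14,17,19,18]) (.leaf [20,21,22]))) (.leaf [10,15,16])))), .t 10 (nat_lit 0xba9079307910bec0beb0bd20bd10ba60ba5) (.z (.node 0 7 (.node 0 11 (.edon 14 19 (.leaf [14,15,16,17,18]) (.free 2 [0,12,13,19,20,21,22])) (.leaf [8,10,11,9])) (.free 2 [1,2,3,4,5,6,7]))), .t 7 (nat_lit 0xc0e0be90be20be108d408d2) (.z (.node 0 7 (.edon 8 16 (.leaf [8,10,15]) (.edon 0 14 (.leaf [0,9,11,12,13]) (.node 17 19 (.leaf [14,17,20,22,21]) (.leaf [16,18,19])))) (.free 2 [1,2,3,4,5,6,7]))), .t 1 (nat_lit 0) (.cn 3 2), .t 1 (nat_lit 0) (.cn 2 3), .t 1 (nat_lit 0) (.cn 2 3), .t 15 (nat_lit 0xb4e0b4d0b480b940b920b5e0b5c02fc022c022a020601ff06740671) (.z (.edon 0 3 (.free 1 [0,1,2]) (.node 8 16 (.edon 0 13 (.edon 7 9 (.leaf [7,8,12,11]) (.leaf [3,4,6,9,5])) (.edon 0 20 (.leaf [13,14,18,19,17]) (.leaf [20,21,22])))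 (.leaf [10,15,16]))))] (by decide +kernel) (by decide +kernel)
theorem b110 : B 3520 3552 := Blk.of_chk [.t 12 (nat_lit 0xc0e0ba30b9b0b9a02fc022c022a020601ff06740671) (.z (.edon 0 3 (.free 1 [0,1,2]) (.node 8 16 (.edon 0 13 (.edon 7 9 (.leaf [7,8,12,11]) (.leaf [3,4,6,9,5])) (.node 17 19 (.leaf [13,17,20,22,21]) (.leaf [14,18,19]))) (.leaf [10,15,16])))), .t 10 (nat_lit 0xaf4079307910bec0beb0b090b080af10af0) (.z (.node 0 7 (.node 0 11 (.edon 12 19 (.leaf [12,15,16,17,18]) (.free 2 [0,13,14,19,20,21,22])) (.leaf [8,10,11,9])) (.free 2 [1,2,3,4,5,6,7]))), .t 10 (nat_lit 0xc0e0ba30b9b0b9a02fc022c022a020601ff) (.z (.edon 0 3 (.free 1 [0,1,2]) (.edon 0 11 (.edon 7 9 (.leaf [7,8,10]) (.leaf [3,4,6,9,5])) (.node 17 19 (.leaf [13,17,20,22,21]) (.free 2 [11,12,14,15,16,18,19]))))), .t 11 (nat_lit 0xb2e0bc50bc30b850b830b270b250c0e065a0657) (.z (.edon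 0 7 (.free 2 [0,1,2,3,4,5,6]) (.node 8 16 (.edon 0 13 (.leaf [7,8,11,9]) (.node 17 19 (.leaf [17,20,22,21]) (.leaf [13,14,15,18,19]))) (.leaf [10,12,16])))), .t 8 (nat_lit 0x15f016701650163016201850184) (.z (.node 2 4 (.node 0 8 (.free 4 [0,9,10,11,12,13,14,15,16,17,18,19,20,21,22]) (.leaf [2,6,7,8,5])) (.free 1 [1,3,4]))), .t 7 (nat_lit 0xbf20bf00be90ba30b680b67) (.z (.node 0 7 (.node 8 16 (.edon 0 13 (.leaf [0,8,9,12]) (.node 14 19 (.leaf [13,14,20,22,21]) (.leaf [15,18,19,17]))) (.leaf [10,11,16])) (.free 2 [1,2,3,4,5,6,7]))), .t 9 (nat_lit 0xbe90ba30b680b670175017405e405e3) (.z (.node 2 4 (.node 8 16 (.edon 0 13 (.edon 6 9 (.leaf [6,7,8,11]) (.leaf [0,2,5,9,12])) (.node 14 19 (.leaf [13,14,20,22,21]) (.leaf [17,18,19]))) (.leaf [10,15,16])) (.free 1 [1,3,4]))), .t 12 (nat_lit 0x65b065a06570be90ba30b680b6706bf06bc06730672) (.z (.edon 0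 7 (.free 2 [0,1,2,3,4,5,6]) (.node 8 16 (.edon 0 13 (.leaf [7,8,11,12,9]) (.node 14 19 (.leaf [13,14,20,22,21]) (.leaf [17,18,19]))) (.leaf [10,15,16])))), .t 17 (nat_lit 0x5480bed0bd30bd00bb10bae0ba90ba807930791060506040596059505450544) (.z (.edon 1 21 (.edon 0 5 (.leaf [1,3,4]) (.edon 0 14 (.node 7 9 (.leaf [5,6,7,12,13]) (.leaf [8,10,11,9])) (.edon 0 19 (.leaf [14,15,16,18,17]) (.leaf [19,20,22])))) (.free 1 [0,2,21]))), .t 1 (nat_lit 0) (.cn 2 3), .t 1 (nat_lit 0) (.cp 2 3), .t 17 (nat_lit 0x53e0bd30b8f0b8c0b4d0b480b420b410966096405e205e1056b056a053b053a) (.z (.edon 1 21 (.edon 0 5 (.leaf [1,3,4]) (.edon 0 10 (.leaf [5,6,7,8,9]) (.edon 12 16 (.leaf [10,15,12,11]) (.edon 0 19 (.leaf [13,14,16,18,17]) (.leaf [19,20,22]))))) (.free 1 [0,2,21]))), .t 15 (nat_lit 0xb4e0b4d0b48065b065a06570b940b920b5e0b5c06bf06bc06730672) (.z (.edon 0 7 (.free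 2 [0,1,2,3,4,5,6]) (.node 8 16 (.edon 0 13 (.leaf [7,8,11,12,9]) (.edon 0 20 (.leaf [13,14,18,19,17]) (.leaf [20,21,22]))) (.leaf [10,15,16])))), .t 12 (nat_lit 0x65b065a06570c0e0ba30b9b0b9a06bf06bc06730672) (.z (.edon 0 7 (.free 2 [0,1,2,3,4,5,6]) (.node 8 16 (.edon 0 13 (.leaf [7,8,11,12,9]) (.node 17 19 (.leaf [13,17,20,22,21]) (.leaf [14,18,19]))) (.leaf [10,15,16])))), .t 1 (nat_lit 0) (.cn 2 3), .t 5 (nat_lit 0x1c701c6097b097a) (.z (.edon 0 16 (.edon 1 10 (.free 2 [1,3,4,5,6,7,8]) (.edon 11 12 (.leaf [10,15,14,11]) (.leaf [0,2,9,12,13]))) (.free 2 [16,17,18,19,20,21,22]))), .t 10 (nat_lit 0xab50a460a440a190a160a0b0a0902fc02fb) (.z (.node 0 3 (.edon 0 11 (.edon 7 9 (.leaf [7,8,10]) (.leaf [0,4,5,6,9])) (.node 13 16 (.free 2 [13,17,18,19,20,21,22]) (.leaf [11,15,16,14,12]))) (.free 1 [1,2,3]))), .t 10 (nat_lit 0xa590a820a7f0a640a61079307910ab50ab3)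 (.z (.node 0 7 (.node 0 11 (.node 0 16 (.free 2 [0,17,18,19,20,21,22]) (.leaf [12,14,15,16,13])) (.leaf [8,10,11,9])) (.free 2 [1,2,3,4,5,6,7]))), .t 5 (nat_lit 0x1c701c6097b097a) (.z (.edon 0 16 (.edon 1 10 (.free 2 [1,3,4,5,6,7,8]) (.edon 11 13 (.leaf [10,15,14,11]) (.leaf [0,2,9,12,13]))) (.free 2 [16,17,18,19,20,21,22]))), .t 9 (nat_lit 0x7f507f40a640a610144005700040002) (.z (.node 16 0 (.node 7 12 (.edon 4 6 (.leaf [4,5,7]) (.leaf [1,3,6,9,2])) (.node 12 15 (.leaf [12,14,16,13]) (.leaf [8,10,15,11]))) (.free 2 [0,17,18,19,20,21,22]))), .t 7 (nat_lit 0x79307910aab0aaa0ba60ba5) (.z (.node 0 7 (.node 0 11 (.edon 14 19 (.leaf [14,15,16,17]) (.edon 19 21 (.leaf [19,20,22]) (.leaf [0,12,13,18,21]))) (.leaf [8,10,11,9])) (.free 2 [1,2,3,4,5,6,7]))), .t 8 (nat_lit 0x53e05e205e1056b056a053b053a) (.z (.node 2 4 (.edon 5 10 (.leaf [5,6,7,8,9]) (.free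 4 [0,2,10,11,12,13,14,15,16,17,18,19,20,21,22])) (.free 1 [1,3,4]))), .t 10 (nat_lit 0xba30a570a420a4102fc022c022a020601ff) (.z (.edon 0 3 (.free 1 [0,1,2]) (.edon 0 11 (.edon 7 9 (.leaf [7,8,10]) (.leaf [3,4,6,9,5])) (.node 13 19 (.leaf [11,13,20,22,21]) (.free 2 [12,14,15,16,17,18,19]))))), .t 12 (nat_lit 0xbe90ba30b680b6703080230022f02080200065e065b) (.z (.edon 0 3 (.free 1 [0,1,2]) (.node 8 16 (.edon 0 13 (.edon 7 11 (.leaf [7,8,12,9]) (.leaf [3,4,6,11,5])) (.node 14 19 (.leaf [13,14,20,22,21]) (.leaf [17,18,19]))) (.leaf [10,15,16])))), .t 10 (nat_lit 0x539054b054a053e053c056b056a01da01d9) (.z (.node 8 16 (.edon 0 14 (.node 2 9 (.leaf [0,2,11,12,13]) (.edon 0 5 (.leaf [1,3,4]) (.leaf [5,7,8,9,6]))) (.free 2 [14,17,18,19,20,21,22])) (.free 1 [10,15,16]))), .t 1 (nat_lit 0) (.cn 3 2), .t 15 (nat_lit 0xb4e0b4d0b480b940b920b5e0b5c07a206c006bb06740671065d065c)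 (.z (.edon 0 7 (.free 2 [0,1,2,3,4,5,6]) (.node 8 16 (.edon 0 13 (.leaf [7,8,9,12,11]) (.edon 0 20 (.leaf [13,14,18,19,17]) (.leaf [20,21,22]))) (.leaf [10,15,16])))), .t 12 (nat_lit 0xc0e0ba30b9b0b9a07a206c006bb06740671065d065c) (.z (.edon 0 7 (.free 2 [0,1,2,3,4,5,6]) (.node 8 16 (.edon 0 13 (.leaf [7,8,9,12,11]) (.node 17 19 (.leaf [13,17,20,22,21]) (.leaf [14,18,19]))) (.leaf [10,15,16])))), .t 12 (nat_lit 0xbe90ba30b680b6707a206c006bb06740671065d065c) (.z (.edon 0 7 (.free 2 [0,1,2,3,4,5,6]) (.node 8 16 (.edon 0 13 (.leaf [7,8,9,12,11]) (.node 14 19 (.leaf [13,14,20,22,21]) (.leaf [17,18,19]))) (.leaf [10,15,16])))), .t 10 (nat_lit 0x53e05e205e1056b056a053b053a01da01d9) (.z (.node 8 16 (.edon 0 14 (.node 2 9 (.leaf [0,2,11,12,13]) (.edon 0 5 (.leaf [1,3,4]) (.leaf [5,6,7,8,9]))) (.free 2 [14,17,18,19,20,21,22])) (.free 1 [10,15,16]))),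 .t 6 (nat_lit 0x1ba00f100ec003e0035) (.z (.edon 0 16 (.node 0 12 (.leaf [0,13,14,15]) (.node 1 10 (.leaf [1,9,12,11,2]) (.free 2 [3,4,5,6,7,8,10]))) (.free 2 [16,17,18,19,20,21,22]))), .t 6 (nat_lit 0x172017100970096001e) (.z (.edon 0 16 (.node 0 12 (.leaf [0,13,14,15]) (.edon 3 9 (.free 2 [3,4,6,7,8,10,12]) (.leaf [1,5,9,11,2]))) (.free 2 [16,17,18,19,20,21,22])))] (by decide +kernel) (by decide +kernel)

end Pool.Agent.GCP.F8_10
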