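import Pool.Agent.GCP.F8_10Db

set_option autoImplicit false
set_option maxRecDepth 100000

/-! # Blocks F8_10B3 (generated) -/

namespace Pool.Agent.GCP.F8_10

open Pool.Agent.GCP DB

theorem b111 : B 3552 3584 := Blk.of_chk [.t 10 (nat_lit 0x539054e054d05420540056e056d01c701c6) (.z (.node 8 16 (.edon 0 14 (.node 2 11 (.leaf [0,2,9,12,13]) (.edon 0 5 (.leaf [1,3,4]) (.leaf [5,7,8,11,6]))) (.free 2 [14,17,18,19,20,21,22])) (.free 1 [10,15,16]))), .t 5 (nat_lit 0xa5d0a5b07930792) (.z (.node 0 7 (.edon 0 12 (.leaf [0,8,9,10,11]) (.edon 0 16 (.leaf [12,15,14,13]) (.free 2 [16,17,18,19,20,21,22]))) (.free 2 [1,2,3,4,5,6,7]))), .t 5 (nat_lit 0xa820a7f07930792) (.z (.node 0 7 (.edon 0 12 (.leaf [0,8,9,10,11]) (.node 14 16 (.free 2 [14,17,18,19,20,21,22]) (.leaf [12,15,16,13]))) (.free 2 [1,2,3,4,5,6,7]))), .t 5 (nat_lit 0x9e009de079b079a) (.z (.node 0 7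 (.edon 9 16 (.leaf [8,10,15,9]) (.edon 0 16 (.leaf [0,11,12,13,14]) (.free 2 [16,17,18,19,20,21,22]))) (.free 2 [1,2,3,4,5,6,7]))), .t 1 (nat_lit 0) (.cn 2 3), .t 10 (nat_lit 0x7940793079107eb07e807a207a00b170b14) (.z (.node 0 7 (.node 0 12 (.node 0 16 (.free 2 [0,17,18,19,20,21,22]) (.leaf [13,15,16,14])) (.leaf [8,10,12,11,9])) (.free 2 [1,2,3,4,5,6,7]))), .t 4 (nat_lit 0x409e009de) (.z (.edon 16 4 (.node 0 9 (.edon 0 16 (.leaf [0,11,12,13,14]) (.free 2 [16,17,18,19,20,21,22])) (.leaf [1,3,9,2])) (.free 2 [4,5,6,7,8,10,15]))), .t 1 (nat_lit 0) (.cn 2 3), .t 9 (nat_lit 0xa760a730a7000340aea0aac0bed0bea) (.z (.node 1 10 (.node 0 11 (.node 0 20 (.leaf [0,21,22]) (.edon 17 19 (.leaf [15,16,18,17]) (.leaf [12,13,19,20,14]))) (.leaf [1,9,11,2])) (.free 2 [3,4,5,6,7,8,10]))), .t 1 (nat_lit 0) (.cn 2 3), .t 6 (nat_lit 0x340a820a7f0bd80bd7) (.z (.edon 0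 20 (.node 0 11 (.node 14 16 (.leaf [0,14,17,18,19]) (.leaf [12,15,16,13])) (.node 1 10 (.leaf [1,9,11,2]) (.free 2 [3,4,5,6,7,8,10]))) (.free 1 [20,21,22]))), .t 9 (nat_lit 0x340b170ab50ab20a820a7f0a650a63) (.z (.node 1 10 (.node 0 11 (.node 0 16 (.free 2 [0,17,18,19,20,21,22]) (.leaf [12,15,16,14,13])) (.leaf [1,9,11,2])) (.free 2 [3,4,5,6,7,8,10]))), .t 10 (nat_lit 0x79307910b170ab50ab20a820a7f0a650a63) (.z (.node 0 7 (.node 0 11 (.node 0 16 (.free 2 [0,17,18,19,20,21,22]) (.leaf [12,15,16,14,13])) (.leaf [8,10,11,9])) (.free 2 [1,2,3,4,5,6,7]))), .t 7 (nat_lit 0xc0e0be90be20be107930792) (.z (.node 0 7 (.edon 0 12 (.leaf [0,8,9,10,11]) (.node 14 15 (.node 17 19 (.leaf [14,17,20,22,21]) (.leaf [16,18,19])) (.leaf [12,13,15]))) (.free 2 [1,2,3,4,5,6,7]))), .t 13 (nat_lit 0x7ad0bf70bf20bf008f008ee082f082d07a607a40c000bfa) (.z (.node 0 7 (.node 8 16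 (.node 0 14 (.node 0 20 (.leaf [0,21,22]) (.leaf [15,18,19,20,17])) (.leaf [8,9,11,13,14])) (.leaf [10,12,16])) (.free 2 [1,2,3,4,5,6,7]))), .t 10 (nat_lit 0x7940793079107eb07e807a207a00bed0bea) (.z (.node 0 7 (.node 0 12 (.edon 17 19 (.leaf [15,16,18,17]) (.free 2 [0,13,14,19,20,21,22])) (.leaf [8,10,12,11,9])) (.free 2 [1,2,3,4,5,6,7]))), .t 12 (nat_lit 0x9f1091c091708fb08f708e408e20c0e0be90be20be1) (.z (.edon 0 7 (.free 2 [0,1,2,3,4,5,6]) (.node 9 10 (.node 15 16 (.edon 15 20 (.leaf [15,18,19]) (.leaf [14,17,20,22,21])) (.leaf [9,11,12,16,13])) (.leaf [7,8,10])))), .t 14 (nat_lit 0x1be00f508d408d201da01d901b901b7012b012a00f000ee0034) (.z (.node 10 1 (.free 2 [3,4,5,6,7,8,10]) (.node 13 0 (.leaf [1,9,11,12,13,2]) (.free 3 [0,14,15,16,17,18,19,20,21,22])))), .t 12 (nat_lit 0xb140b3f0b3d0b1f0b1c0148005c000500040b6b0b6a) (.z (.edon 0 20 (.node 0 12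 (.node 0 17 (.leaf [0,18,19]) (.leaf [13,15,16,17,14])) (.edon 4 9 (.free 2 [4,5,6,7,8,10,12]) (.leaf [1,3,9,11,2]))) (.free 1 [20,21,22]))), .t 4 (nat_lit 0x340a7b0a79) (.z (.node 1 10 (.node 0 11 (.edon 15 21 (.free 2 [15,16,17,18,19,20,22]) (.leaf [0,12,13,14,21])) (.leaf [1,9,11,2])) (.free 2 [3,4,5,6,7,8,10]))), .t 7 (nat_lit 0xb660bf20bf00be90ba30b68) (.z (.node 0 7 (.node 8 16 (.edon 0 13 (.leaf [0,8,9,11]) (.node 13 19 (.leaf [13,20,22,21,14]) (.leaf [15,18,19,17]))) (.leaf [10,12,16])) (.free 2 [1,2,3,4,5,6,7]))), .t 10 (nat_lit 0xa130a120bed0b8f0b8c0b760b720b6e0b6d) (.z (.node 0 3 (.node 0 10 (.edon 13 21 (.edon 0 19 (.leaf [13,15,16,18,17]) (.leaf [19,20,22])) (.leaf [0,11,12,14,21])) (.free 2 [4,5,6,7,8,9,10])) (.free 1 [1,2,3]))), .t 7 (nat_lit 0xc0e0be90be20be1018f018e) (.z (.node 4 16 (.edon 0 13 (.node 2 4 (.leaf [0,2,6,9,11]) (.leaf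 [1,3,4])) (.node 17 19 (.leaf [14,17,20,22,21]) (.leaf [13,18,19]))) (.free 2 [5,7,8,10,12,15,16]))), .t 1 (nat_lit 0) (.cn 2 3), .t 15 (nat_lit 0x8b108b008ad0bed0bd30bd00bb10bae0ba90ba808d408d108bb08ba) (.z (.edon 1 21 (.edon 0 9 (.free 2 [1,3,4,5,6,7,8]) (.edon 0 14 (.leaf [9,10,12,13,11]) (.edon 0 19 (.leaf [14,15,16,18,17]) (.leaf [19,20,22])))) (.free 1 [0,2,21]))), .t 5 (nat_lit 0x7f507f40910090e) (.z (.node 0 7 (.edon 0 16 (.node 9 15 (.leaf [0,9,12,13,14]) (.leaf [8,10,15,11])) (.free 2 [16,17,18,19,20,21,22])) (.free 2 [1,2,3,4,5,6,7]))), .t 10 (nat_lit 0x79107a1079e0795079407ea07e90b170b14) (.z (.node 0 7 (.node 0 12 (.node 0 16 (.free 2 [0,17,18,19,20,21,22]) (.leaf [13,15,16,14])) (.leaf [8,10,11,12,9])) (.free 2 [1,2,3,4,5,6,7]))), .t 13 (nat_lit 0x1ca0bf70bf20bf00910090e01ee01ed01c701c60c000bfa) (.z (.edon 10 1 (.node 9 16 (.node 0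 14 (.node 0 20 (.leaf [0,21,22]) (.leaf [15,18,19,20,17])) (.leaf [2,9,12,13,14])) (.leaf [10,11,16])) (.free 2 [1,3,4,5,6,7,8]))), .t 10 (nat_lit 0x79107ad07aa079907980a830a8107f207f1) (.z (.node 0 7 (.node 0 16 (.free 2 [0,17,18,19,20,21,22]) (.node 11 12 (.leaf [8,10,11,14,9]) (.leaf [12,16,15,13]))) (.free 2 [1,2,3,4,5,6,7]))), .t 10 (nat_lit 0x9f10c0d0a830a810a390a3709e909e70954) (.z (.edon 0 7 (.free 2 [0,1,2,3,4,5,6]) (.node 9 10 (.node 14 20 (.leaf [9,14,22,21]) (.edon 0 17 (.leaf [11,16,15,13,12]) (.leaf [17,18,19,20]))) (.leaf [7,8,10])))), .t 10 (nat_lit 0x9f10a830a810a390a3709e909e702fc02fb) (.z (.node 0 3 (.edon 0 11 (.edon 7 9 (.leaf [7,8,10]) (.leaf [0,4,5,6,9])) (.node 14 16 (.free 2 [14,17,18,19,20,21,22]) (.leaf [11,16,15,13,12]))) (.free 1 [1,2,3]))), .t 17 (nat_lit 0x539054b054a053e053c0bed0bd30bd00bb10bae0ba90ba8095b0956056b056a)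 (.z (.edon 1 21 (.edon 0 5 (.leaf [1,3,4]) (.edon 0 10 (.leaf [5,7,8,9,6]) (.edon 0 14 (.leaf [10,11,13,12]) (.edon 0 19 (.leaf [14,15,16,18,17]) (.leaf [19,20,22]))))) (.free 1 [0,2,21])))] (by decide +kernel) (by decide +kernel)
theorem b112 : B 3584 3616 := Blk.of_chk [.t 17 (nat_lit 0x546053e053c0bed0bd30bd00bb10bae0ba90ba807ea07e905830582055e055d) (.z (.edon 1 21 (.edon 0 5 (.leaf [1,3,4]) (.edon 0 14 (.node 7 12 (.leaf [5,7,13,9,6]) (.leaf [8,10,11,12])) (.edon 0 19 (.leaf [14,15,16,18,17]) (.leaf [19,20,22])))) (.free 1 [0,2,21]))), .t 15 (nat_lit 0x8b30bed0bd30bd00bb10bae0ba90ba8095a095808d408d208af08ae) (.z (.edon 1 21 (.edon 0 9 (.free 2 [1,3,4,5,6,7,8]) (.edon 0 14 (.leaf [9,10,11,12,13]) (.edon 0 19 (.leaf [14,15,16,18,17]) (.leaf [19,20,22])))) (.free 1 [0,2,21]))), .t 17 (nat_lit 0x979096509600a5d0a290a0409e809e609af09ac09990996098f098d095a0958)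 (.z (.edon 0 16 (.edon 0 10 (.free 3 [0,1,2,3,4,5,6,7,8,9]) (.leaf [10,11,12,13,15,14])) (.free 2 [16,17,18,19,20,21,22]))), .t 13 (nat_lit 0x79107a1079e0795079407ea07e90c0d0be30bdd0bd80bd7) (.z (.node 0 7 (.node 0 12 (.node 0 20 (.leaf [0,21,22]) (.node 14 16 (.leaf [14,17,18,19,20]) (.leaf [13,15,16]))) (.leaf [8,10,11,12,9])) (.free 2 [1,2,3,4,5,6,7]))), .t 9 (nat_lit 0x9f109ef0c0e0be90be20be102fc02fb) (.z (.node 0 3 (.edon 0 11 (.edon 7 9 (.leaf [7,8,10]) (.leaf [0,4,5,6,9])) (.node 15 16 (.edon 15 20 (.leaf [15,18,19]) (.leaf [14,17,20,22,21])) (.leaf [11,16,13,12]))) (.free 1 [1,2,3]))), .t 17 (nat_lit 0x53e0bed0bd30bd00bb10bae0ba90ba8095b095605e205e1056b056a053b053a) (.z (.edon 1 21 (.edon 0 5 (.leaf [1,3,4]) (.edon 0 10 (.leaf [5,6,7,8,9]) (.edon 0 14 (.leaf [10,11,13,12]) (.edon 0 19 (.leaf [14,15,16,18,17]) (.leaf [19,20,22]))))) (.free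 1 [0,2,21]))), .t 11 (nat_lit 0xbf70bf20bf001cf01ce0116011500360c000bfa) (.z (.node 1 10 (.node 13 16 (.node 0 14 (.node 0 20 (.leaf [0,21,22]) (.leaf [15,18,19,20,17])) (.leaf [1,9,13,14,2])) (.leaf [11,12,16])) (.free 2 [3,4,5,6,7,8,10]))), .t 12 (nat_lit 0x270026f01960195014400b400b30057000700040002) (.z (.edon 4 16 (.free 2 [4,5,7,8,10,11,12]) (.node 13 0 (.leaf [1,3,6,9,13,2]) (.free 3 [0,14,15,16,17,18,19,20,21,22])))), .t 10 (nat_lit 0xbf70bf20bf001500067000800070c000bfa) (.z (.node 4 16 (.node 0 14 (.node 0 20 (.leaf [0,21,22]) (.leaf [15,18,19,20,17])) (.edon 4 13 (.leaf [4,9,12]) (.leaf [1,3,13,14,2]))) (.free 2 [5,6,7,8,10,11,16]))), .t 12 (nat_lit 0x53e0c0e0be90be20be105e205e1056b056a053b053a) (.z (.node 2 4 (.node 8 16 (.edon 0 14 (.node 2 9 (.leaf [0,2,11,13]) (.leaf [5,6,7,8,9])) (.edon 15 20 (.leaf [15,18,19]) (.leaf [14,17,20,22,21])))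 (.leaf [10,12,16])) (.free 1 [1,3,4]))), .t 7 (nat_lit 0xb170b14014c006200060005) (.z (.node 16 0 (.edon 0 13 (.node 3 9 (.leaf [1,3,11,12,2]) (.free 2 [4,5,6,7,8,9,10])) (.leaf [13,15,16,14])) (.free 2 [0,17,18,19,20,21,22]))), .t 7 (nat_lit 0xb170b140145005800050002) (.z (.node 16 0 (.edon 0 13 (.node 6 12 (.leaf [1,3,6,11,2]) (.free 2 [4,5,7,8,9,10,12])) (.leaf [13,15,16,14])) (.free 2 [0,17,18,19,20,21,22]))), .t 11 (nat_lit 0x60d060806070b170b1406330632061406130005) (.z (.node 16 0 (.edon 0 13 (.node 3 12 (.leaf [1,3,11,2]) (.node 6 7 (.leaf [6,8,10,12,9]) (.leaf [4,5,7]))) (.leaf [13,15,16,14])) (.free 2 [0,17,18,19,20,21,22]))), .t 11 (nat_lit 0x60d060806070b170b1406330632061406130005) (.z (.node 16 0 (.edon 0 13 (.node 3 9 (.leaf [1,3,11,2]) (.node 6 7 (.leaf [6,8,10,12,9]) (.leaf [4,5,7]))) (.leaf [13,15,16,14])) (.free 2 [0,17,18,19,20,21,22]))),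 .t 8 (nat_lit 0xb170b14018f018e00ac00ab0023) (.z (.node 16 0 (.edon 0 13 (.edon 3 9 (.free 2 [3,4,5,7,8,10,12]) (.leaf [1,6,9,11,2])) (.leaf [13,15,16,14])) (.free 2 [0,17,18,19,20,21,22]))), .t 9 (nat_lit 0xb170b14002303480251024f021e0202) (.z (.node 16 0 (.edon 0 13 (.edon 7 12 (.leaf [7,8,10]) (.edon 3 9 (.leaf [3,4,5,12,11]) (.leaf [1,6,9,2]))) (.leaf [13,15,16,14])) (.free 2 [0,17,18,19,20,21,22]))), .t 9 (nat_lit 0xb170b14014400570004000207eb07e8) (.z (.node 16 0 (.edon 0 13 (.edon 4 8 (.leaf [4,5,7]) (.edon 8 9 (.leaf [8,10,12,11]) (.leaf [1,3,6,9,2]))) (.leaf [13,15,16,14])) (.free 2 [0,17,18,19,20,21,22]))), .t 1 (nat_lit 0) (.fa 2), .t 13 (nat_lit 0xb140b3f0b3d0b1f0b1c01ba00f100ec003e00350b6b0b6a) (.z (.edon 0 20 (.node 0 12 (.node 0 17 (.leaf [0,18,19]) (.leaf [13,15,16,17,14])) (.node 1 10 (.leaf [1,9,12,11,2]) (.free 2 [3,4,5,6,7,8,10])))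 (.free 1 [20,21,22]))), .t 15 (nat_lit 0xba908b108b008ad0bec0beb0bd20bd10ba60ba508d408d108bb08ba) (.z (.edon 1 21 (.edon 0 9 (.free 2 [1,3,4,5,6,7,8]) (.edon 0 14 (.leaf [9,10,12,13,11]) (.edon 0 19 (.leaf [14,15,16,17,18]) (.leaf [19,20,22])))) (.free 1 [0,2,21]))), .t 7 (nat_lit 0xb170b140148005c00050004) (.z (.node 16 0 (.edon 0 13 (.edon 4 9 (.free 2 [4,5,6,7,8,10,12]) (.leaf [1,3,9,11,2])) (.leaf [13,15,16,14])) (.free 2 [0,17,18,19,20,21,22]))), .t 1 (nat_lit 0) (.fa 4), .t 17 (nat_lit 0xba905420bec0beb0bd20bd10ba60ba507f907f605ec05eb057c057b053e053d) (.z (.edon 1 21 (.edon 0 5 (.leaf [1,3,4]) (.edon 0 14 (.node 7 12 (.leaf [5,6,7,9,11]) (.leaf [8,10,13,12])) (.edon 0 19 (.leaf [14,15,16,17,18]) (.leaf [19,20,22])))) (.free 1 [0,2,21]))), .t 5 (nat_lit 0x8f008ee07ff07fe) (.z (.node 0 7 (.edon 12 16 (.leaf [8,10,15,12]) (.edon 0 16 (.leaf [0,9,11,13,14])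 (.free 2 [16,17,18,19,20,21,22]))) (.free 2 [1,2,3,4,5,6,7]))), .t 17 (nat_lit 0xba9053e0bec0beb0bd20bd10ba60ba5095b095905e205e1056b056a053b053a) (.z (.edon 1 21 (.edon 0 5 (.leaf [1,3,4]) (.edon 0 10 (.leaf [5,6,7,8,9]) (.edon 0 14 (.leaf [10,13,12,11]) (.edon 0 19 (.leaf [14,15,16,17,18]) (.leaf [19,20,22]))))) (.free 1 [0,2,21]))), .t 14 (nat_lit 0xb140b3f0b3d0b1f0b1c07eb07e8013f0051000400010b6b0b6a) (.z (.edon 0 20 (.node 0 12 (.node 0 17 (.leaf [0,18,19]) (.leaf [13,15,16,17,14])) (.node 7 11 (.edon 4 5 (.leaf [4,6,7]) (.leaf [1,3,5,9,2])) (.leaf [8,10,12,11]))) (.free 1 [20,21,22]))), .t 4 (nat_lit 0x108f008ee) (.z (.edon 16 4 (.node 0 5 (.edon 0 16 (.leaf [0,9,11,13,14]) (.free 2 [16,17,18,19,20,21,22])) (.leaf [1,3,5,2])) (.free 2 [4,6,7,8,10,12,15]))), .t 14 (nat_lit 0xb140b3f0b3d0b1f0b1c001e03b5027a0276021e02090b6b0b6a) (.z (.edon 0 20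 (.node 0 12 (.node 0 17 (.leaf [0,18,19]) (.leaf [13,15,16,17,14])) (.edon 7 12 (.leaf [7,8,10]) (.edon 3 9 (.leaf [3,4,6,12,11]) (.leaf [1,5,9,2])))) (.free 1 [20,21,22]))), .t 7 (nat_lit 0xb170b14013f005100040001) (.z (.node 16 0 (.edon 0 13 (.edon 4 9 (.free 2 [4,6,7,8,10,11,12]) (.leaf [1,3,5,9,2])) (.leaf [13,15,16,14])) (.free 2 [0,17,18,19,20,21,22]))), .t 9 (nat_lit 0xb170b14001e03b5027a0276021e0209) (.z (.node 16 0 (.edon 0 13 (.edon 7 12 (.leaf [7,8,10]) (.edon 3 9 (.leaf [3,4,6,12,11]) (.leaf [1,5,9,2]))) (.leaf [13,15,16,14])) (.free 2 [0,17,18,19,20,21,22]))), .t 9 (nat_lit 0xb170b1407eb07e8013f005100040001) (.z (.node 16 0 (.edon 0 13 (.node 7 11 (.edon 4 5 (.leaf [4,6,7]) (.leaf [1,3,5,9,2])) (.leaf [8,10,12,11])) (.leaf [13,15,16,14])) (.free 2 [0,17,18,19,20,21,22]))), .t 11 (nat_lit 0x1bf00f600f2003f00360c0d0be30bdd0bd80bd7) (.z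 (.node 1 10 (.node 0 20 (.leaf [0,21,22]) (.edon 12 13 (.node 14 16 (.leaf [14,17,18,19,20]) (.leaf [12,15,16])) (.leaf [1,9,13,11,2]))) (.free 2 [3,4,5,6,7,8,10])))] (by decide +kernel) (by decide +kernel)
theorem b113 : B 3616 3648 := Blk.of_chk [.t 7 (nat_lit 0x79507940a330a320bed0bea) (.z (.node 0 7 (.edon 19 21 (.leaf [19,20,22]) (.node 11 12 (.edon 15 21 (.leaf [15,16,18,17]) (.leaf [0,11,13,14,21])) (.leaf [8,10,12,9]))) (.free 2 [1,2,3,4,5,6,7]))), .t 10 (nat_lit 0xbd80b940b920b5e0b5b0b530b5101720171) (.z (.edon 0 20 (.node 4 16 (.edon 0 13 (.node 2 4 (.leaf [0,2,5,9,11]) (.leaf [1,3,4])) (.leaf [13,18,19,17,14])) (.free 2 [6,7,8,10,12,15,16])) (.free 1 [20,21,22]))), .t 1 (nat_lit 0) (.fa 4), .t 1 (nat_lit 0) (.cn 7 2), .t 12 (nat_lit 0x27d027c01990198014500bb00ba0058000700050002) (.z (.edon 4 16 (.free 2 [4,5,7,8,9,10,12]) (.node 13 0 (.leaf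 [1,3,6,11,13,2]) (.free 3 [0,14,15,16,17,18,19,20,21,22])))), .t 13 (nat_lit 0x9dc0a0409ff09e909e40a290a2702fd022d0229020601ff) (.z (.edon 0 16 (.edon 0 3 (.leaf [0,1,2]) (.edon 0 11 (.edon 7 9 (.leaf [7,8,10]) (.leaf [3,4,5,9,6])) (.leaf [11,12,15,14,13]))) (.free 2 [16,17,18,19,20,21,22]))), .t 17 (nat_lit 0xba905480bec0beb0bd20bd10ba60ba507950794060005ff0592059105420541) (.z (.edon 1 21 (.edon 0 5 (.leaf [1,3,4]) (.edon 0 14 (.node 7 9 (.leaf [5,6,7,11,13]) (.leaf [8,10,12,9])) (.edon 0 19 (.leaf [14,15,16,17,18]) (.leaf [19,20,22])))) (.free 1 [0,2,21]))), .t 12 (nat_lit 0x60d06080607014d0064000700050633063206140613) (.z (.edon 0 16 (.node 0 13 (.leaf [0,14,15]) (.edon 4 11 (.node 6 7 (.leaf [6,8,10,12,9]) (.leaf [4,5,7])) (.leaf [1,3,11,13,2]))) (.free 2 [16,17,18,19,20,21,22]))), .t 12 (nat_lit 0x2650264018f018e014400ac00ab0057000500040002)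 (.z (.edon 4 16 (.free 2 [4,5,7,8,10,12,15]) (.node 11 0 (.leaf [1,3,6,9,11,2]) (.free 3 [0,13,14,16,17,18,19,20,21,22])))), .t 10 (nat_lit 0x65e059f059d0581057e0571057001990198) (.z (.node 8 16 (.edon 0 14 (.node 4 9 (.node 2 4 (.leaf [0,2,6,11,13]) (.leaf [1,3,4])) (.leaf [5,7,8,12,9])) (.free 2 [14,17,18,19,20,21,22])) (.free 1 [10,15,16]))), .t 1 (nat_lit 0) (.cn 3 2), .t 8 (nat_lit 0x9900a5d0a5b09af09ad098a0988) (.z (.node 0 7 (.edon 0 16 (.edon 10 11 (.leaf [10,15,14,13,12]) (.leaf [0,8,9,11])) (.free 2 [16,17,18,19,20,21,22])) (.free 2 [1,2,3,4,5,6,7]))), .t 8 (nat_lit 0xb170b1401750174009a0099001e) (.z (.node 16 0 (.edon 0 13 (.edon 3 9 (.free 2 [3,4,6,7,8,10,11]) (.leaf [1,5,9,12,2])) (.leaf [13,15,16,14])) (.free 2 [0,17,18,19,20,21,22]))), .t 8 (nat_lit 0x79107a1079e0795079407ea07e9) (.z (.node 0 7 (.node 0 12 (.edon 15 21 (.free 2 [15,16,17,18,19,20,22])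 (.leaf [0,13,14,21])) (.leaf [8,10,11,12,9])) (.free 2 [1,2,3,4,5,6,7]))), .t 7 (nat_lit 0x1440057000400020ba60ba5) (.z (.edon 21 19 (.node 0 12 (.node 13 17 (.leaf [0,13,18,21]) (.leaf [14,15,16,17])) (.edon 4 9 (.free 2 [4,5,7,8,10,11,12]) (.leaf [1,3,6,9,2]))) (.free 1 [19,20,22]))), .t 9 (nat_lit 0x7eb07e801440057000400020ba60ba5) (.z (.edon 21 19 (.node 0 12 (.node 13 17 (.leaf [0,13,18,21]) (.leaf [14,15,16,17])) (.node 7 11 (.edon 4 6 (.leaf [4,5,7]) (.leaf [1,3,6,9,2])) (.leaf [8,10,12,11]))) (.free 1 [19,20,22]))), .t 17 (nat_lit 0x5390ba9054b054a053e053c0bec0beb0bd20bd10ba60ba5095a0957056b056a) (.z (.edon 1 21 (.edon 0 5 (.leaf [1,3,4]) (.edon 0 10 (.leaf [5,7,8,9,6]) (.edon 0 14 (.leaf [10,12,13,11]) (.edon 0 19 (.leaf [14,15,16,17,18]) (.leaf [19,20,22]))))) (.free 1 [0,2,21]))), .t 8 (nat_lit 0x7940793079107eb07e807a207a0) (.z (.node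 0 7 (.node 0 12 (.edon 15 21 (.free 2 [15,16,17,18,19,20,22]) (.leaf [0,13,14,21])) (.leaf [8,10,12,11,9])) (.free 2 [1,2,3,4,5,6,7]))), .t 9 (nat_lit 0x7eb07e8013f0051000400010ba60ba5) (.z (.edon 21 19 (.node 0 12 (.node 13 17 (.leaf [0,13,18,21]) (.leaf [14,15,16,17])) (.node 7 11 (.edon 4 5 (.leaf [4,6,7]) (.leaf [1,3,5,9,2])) (.leaf [8,10,12,11]))) (.free 1 [19,20,22]))), .t 15 (nat_lit 0x53e0ba905e205e1056b056a053b053a0bec0beb0bd20bd10ba60ba5) (.z (.node 2 4 (.edon 19 21 (.leaf [19,20,22]) (.node 2 12 (.edon 14 21 (.leaf [14,15,16,17,18]) (.leaf [0,2,13,21])) (.edon 0 10 (.leaf [5,6,7,8,9]) (.leaf [10,11,12])))) (.free 1 [1,3,4]))), .t 7 (nat_lit 0x13f0051000400010ba60ba5) (.z (.edon 21 19 (.node 0 12 (.node 13 17 (.leaf [0,13,18,21]) (.leaf [14,15,16,17])) (.edon 4 9 (.free 2 [4,6,7,8,10,11,12]) (.leaf [1,3,5,9,2]))) (.free 1 [19,20,22]))),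 .t 8 (nat_lit 0x1b900f000ed003e00350ba60ba5) (.z (.node 1 10 (.node 0 12 (.edon 14 19 (.leaf [14,15,16,17]) (.free 2 [0,13,18,19,20,21,22])) (.leaf [1,11,12,9,2])) (.free 2 [3,4,5,6,7,8,10]))), .t 17 (nat_lit 0x5390b42054b054a053e053c096609640bd20bd10b8e0b8d0b3f0b3e056b056a) (.z (.edon 1 21 (.edon 0 5 (.leaf [1,3,4]) (.edon 0 10 (.leaf [5,7,8,9,6]) (.edon 0 19 (.node 13 15 (.leaf [13,14,16,17,18]) (.leaf [10,15,12,11])) (.leaf [19,20,22])))) (.free 1 [0,2,21]))), .t 13 (nat_lit 0xb140b3f0b3d0b1f0b1c01b900f000ed003e00350b6b0b6a) (.z (.edon 0 20 (.node 0 12 (.node 0 17 (.leaf [0,18,19]) (.leaf [13,15,16,17,14])) (.node 1 10 (.leaf [1,11,12,9,2]) (.free 2 [3,4,5,6,7,8,10]))) (.free 1 [20,21,22]))), .t 15 (nat_lit 0xb4f0b4c0b49065b065a06570b950b910b5f0b5d06bf06bc06730672) (.z (.edon 0 7 (.free 2 [0,1,2,3,4,5,6]) (.node 8 16 (.edon 0 13 (.leaf [7,8,11,12,9])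 (.edon 0 20 (.leaf [13,17,19,18,14]) (.leaf [20,21,22]))) (.leaf [10,15,16])))), .t 7 (nat_lit 0xc0f0be90be70be608070804) (.z (.node 0 7 (.edon 13 16 (.leaf [8,10,15,13]) (.edon 0 14 (.leaf [0,9,11,12]) (.node 18 19 (.leaf [14,18,20,22,21]) (.leaf [16,17,19])))) (.free 2 [1,2,3,4,5,6,7]))), .t 5 (nat_lit 0x910090e07f507f4) (.z (.node 0 7 (.edon 11 16 (.leaf [8,10,15,11]) (.edon 0 16 (.leaf [0,9,12,13,14]) (.free 2 [16,17,18,19,20,21,22]))) (.free 2 [1,2,3,4,5,6,7]))), .t 10 (nat_lit 0x5ed057d057a055705540542054101ee01ed) (.z (.edon 0 16 (.node 7 15 (.node 2 9 (.leaf [0,2,12,13,14]) (.edon 0 5 (.leaf [1,3,4]) (.leaf [5,6,7,11,9]))) (.leaf [8,10,15])) (.free 2 [16,17,18,19,20,21,22]))), .t 1 (nat_lit 0) (.fa 4), .t 15 (nat_lit 0x8ad0ba908bc08b908b408b10bec0beb0bd20bd10ba60ba508d508d3) (.z (.edon 1 21 (.edon 0 9 (.free 2 [1,3,4,5,6,7,8]) (.edon 0 14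 (.leaf [9,10,13,12,11]) (.edon 0 19 (.leaf [14,15,16,17,18]) (.leaf [19,20,22])))) (.free 1 [0,2,21]))), .t 10 (nat_lit 0x9e509e009dd0a290a240a040a0202fc02fb) (.z (.node 0 3 (.edon 0 11 (.edon 7 9 (.leaf [7,8,10]) (.leaf [0,4,5,6,9])) (.edon 0 16 (.leaf [11,13,15,14,12]) (.free 2 [16,17,18,19,20,21,22]))) (.free 1 [1,2,3]))), .t 10 (nat_lit 0xb140b3f0b3d0b1f0b1c079307910b6b0b6a) (.z (.node 0 7 (.node 0 11 (.edon 0 20 (.node 12 17 (.leaf [0,12,18,19]) (.leaf [13,15,16,17,14])) (.leaf [20,21,22])) (.leaf [8,10,11,9])) (.free 2 [1,2,3,4,5,6,7])))] (by decide +kernel) (by decide +kernel)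
theorem b114 : B 3648 3680 := Blk.of_chk [.t 12 (nat_lit 0x9660c0f0be90be70be609e909e70990098e095b0959) (.z (.node 0 3 (.edon 0 10 (.free 2 [0,4,5,6,7,8,9]) (.edon 12 16 (.leaf [10,15,13,12,11]) (.node 18 19 (.leaf [14,18,20,22,21]) (.leaf [16,17,19])))) (.free 1 [1,2,3]))), .t 12 (nat_lit 0x9660c0f0be90be70be609e909e70990098e095b0959) (.z (.node 0 3 (.edon 0 10 (.free 2 [0,4,5,6,7,8,9]) (.edon 13 16 (.leaf [10,15,13,12,11]) (.node 18 19 (.leaf [14,18,20,22,21]) (.leaf [16,17,19])))) (.free 1 [1,2,3]))), .t 11 (nat_lit 0x59a059905980b170b1405b605b505a105a00006) (.z (.node 16 0 (.edon 0 13 (.node 3 9 (.leaf [1,3,12,2]) (.node 5 7 (.leaf [5,8,10,11,9]) (.leaf [4,6,7]))) (.leaf [13,15,16,14])) (.free 2 [0,17,18,19,20,21,22]))), .t 13 (nat_lit 0x9e90a5d0a5b0a290a2709e109df02fc022c022a020601ff) (.z (.edon 0 16 (.edon 0 3 (.leaf [0,1,2]) (.edon 0 11 (.edon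 7 9 (.leaf [7,8,10]) (.leaf [3,4,6,9,5])) (.leaf [11,15,14,13,12]))) (.free 2 [16,17,18,19,20,21,22]))), .t 9 (nat_lit 0x141005300060001079307910ba60ba5) (.z (.edon 21 19 (.node 0 12 (.node 13 17 (.leaf [0,13,18,21]) (.leaf [14,15,16,17])) (.edon 4 8 (.leaf [4,6,7]) (.edon 8 12 (.leaf [8,10,11,9]) (.leaf [1,3,5,12,2])))) (.free 1 [19,20,22]))), .t 9 (nat_lit 0x146005900060002079307910ba60ba5) (.z (.edon 21 19 (.node 0 12 (.node 13 17 (.leaf [0,13,18,21]) (.leaf [14,15,16,17])) (.edon 4 8 (.leaf [4,5,7]) (.edon 8 12 (.leaf [8,10,11,9]) (.leaf [1,3,6,12,2])))) (.free 1 [19,20,22]))), .t 15 (nat_lit 0xba908b30bec0beb0bd20bd10ba60ba5095a095808d408d208af08ae) (.z (.edon 1 21 (.edon 0 9 (.free 2 [1,3,4,5,6,7,8]) (.edon 0 14 (.leaf [9,10,11,12,13]) (.edon 0 19 (.leaf [14,15,16,17,18]) (.leaf [19,20,22])))) (.free 1 [0,2,21]))), .t 6 (nat_lit 0x1b901b700f000ee0034)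 (.z (.node 1 10 (.node 0 12 (.edon 15 21 (.free 2 [15,16,17,18,19,20,22]) (.leaf [0,13,14,21])) (.leaf [1,9,11,12,2])) (.free 2 [3,4,5,6,7,8,10]))), .t 17 (nat_lit 0x9e90990097509610a5d0a5b0a290a2709e109df09af09ad098a0988095b0959) (.z (.edon 0 16 (.edon 0 10 (.free 3 [0,1,2,3,4,5,6,7,8,9]) (.leaf [10,15,14,13,12,11])) (.free 2 [16,17,18,19,20,21,22]))), .t 8 (nat_lit 0x7fa0809080807ff07fe086b0869) (.z (.node 0 7 (.edon 0 16 (.node 11 14 (.leaf [0,9,11,13]) (.leaf [8,10,15,14,12])) (.free 2 [16,17,18,19,20,21,22])) (.free 2 [1,2,3,4,5,6,7]))), .t 15 (nat_lit 0xba90bec0beb0bd20bd10ba60ba5027d027c00bb00ba005807950794) (.z (.edon 1 21 (.edon 0 14 (.edon 8 11 (.leaf [8,10,12,9]) (.edon 4 6 (.leaf [4,5,7]) (.leaf [1,3,6,11,13]))) (.edon 0 19 (.leaf [14,15,16,17,18]) (.leaf [19,20,22]))) (.free 1 [0,2,21]))), .t 13 (nat_lit 0xba90bec0beb0bd20bd10ba60ba5027d027c00bb00ba0058)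 (.z (.edon 1 21 (.edon 0 14 (.edon 4 11 (.free 2 [4,5,7,8,9,10,12]) (.leaf [1,3,6,11,13])) (.edon 0 19 (.leaf [14,15,16,17,18]) (.leaf [19,20,22]))) (.free 1 [0,2,21]))), .t 8 (nat_lit 0x8bd08ca08c908c208c109290927) (.z (.node 0 7 (.edon 0 16 (.edon 9 11 (.leaf [9,10,15,14,12]) (.leaf [0,8,11,13])) (.free 2 [16,17,18,19,20,21,22])) (.free 2 [1,2,3,4,5,6,7]))), .t 15 (nat_lit 0x8ad08c208c108b808b70bd30b8f0b8c0b4d0b480b420b4108df08de) (.z (.edon 1 21 (.edon 0 9 (.free 2 [1,3,4,5,6,7,8]) (.edon 12 16 (.leaf [9,10,15,12,11]) (.edon 0 19 (.leaf [13,14,16,18,17]) (.leaf [19,20,22])))) (.free 1 [0,2,21]))), .t 14 (nat_lit 0xb140b3f0b3d0b1f0b1c02fd022d0229020601ff003e0b6b0b6a) (.z (.edon 0 20 (.node 0 12 (.node 0 17 (.leaf [0,18,19]) (.leaf [13,15,16,17,14])) (.node 1 9 (.leaf [1,11,12,2]) (.edon 7 9 (.leaf [7,8,10]) (.leaf [3,4,5,9,6])))) (.free 1 [20,21,22]))),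 .t 14 (nat_lit 0xb140b3f0b3d0b1f0b1c02fc022c022a020601ff003e0b6b0b6a) (.z (.edon 0 20 (.node 0 12 (.node 0 17 (.leaf [0,18,19]) (.leaf [13,15,16,17,14])) (.node 1 9 (.leaf [1,11,12,2]) (.edon 7 9 (.leaf [7,8,10]) (.leaf [3,4,6,9,5])))) (.free 1 [20,21,22]))), .t 7 (nat_lit 0x14400570004000209e009de) (.z (.edon 0 16 (.node 7 15 (.node 0 9 (.leaf [0,11,12,13,14]) (.edon 4 6 (.leaf [4,5,7]) (.leaf [1,3,6,9,2]))) (.leaf [8,10,15])) (.free 2 [16,17,18,19,20,21,22]))), .t 15 (nat_lit 0x8ad08bc08b908b408b10bed0bd30bd00bb10bae0ba90ba808d508d3) (.z (.edon 1 21 (.edon 0 9 (.free 2 [1,3,4,5,6,7,8]) (.edon 0 14 (.leaf [9,10,13,12,11]) (.edon 0 19 (.leaf [14,15,16,18,17]) (.leaf [19,20,22])))) (.free 1 [0,2,21]))), .t 16 (nat_lit 0xb14030c0b3f0b3d0b1f0b1c0559055803a303a202fc02fb00050b6b0b6a) (.z (.edon 0 20 (.node 0 12 (.node 0 17 (.leaf [0,18,19]) (.leaf [13,15,16,17,14]))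 (.node 3 12 (.leaf [1,3,11,2]) (.edon 7 9 (.leaf [7,8,10]) (.leaf [4,5,6,9,12])))) (.free 1 [20,21,22]))), .t 12 (nat_lit 0xc0e0be90be20be107a206c006bb06740671065d065c) (.z (.edon 0 7 (.free 2 [0,1,2,3,4,5,6]) (.node 8 16 (.edon 0 13 (.leaf [7,8,9,12,11]) (.node 17 19 (.leaf [14,17,20,22,21]) (.leaf [13,18,19]))) (.leaf [10,15,16])))), .t 12 (nat_lit 0xb660be90ba30b6807a206c006bb06740671065d065c) (.z (.edon 0 7 (.free 2 [0,1,2,3,4,5,6]) (.node 8 16 (.edon 0 13 (.leaf [7,8,9,12,11]) (.node 13 19 (.leaf [13,20,22,21,14]) (.leaf [17,18,19]))) (.leaf [10,15,16])))), .t 14 (nat_lit 0xb140b3f0b3d0b1f0b1c0140005200050001079507940b6b0b6a) (.z (.edon 0 20 (.node 0 12 (.node 0 17 (.leaf [0,18,19]) (.leaf [13,15,16,17,14])) (.edon 4 8 (.leaf [4,6,7]) (.edon 8 11 (.leaf [8,10,12,9]) (.leaf [1,3,5,11,2])))) (.free 1 [20,21,22]))), .t 14 (nat_lit 0xb140b3f0b3d0b1f0b1c0a230b6b0b6a02fc022c022a020601ff)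 (.z (.edon 0 3 (.free 1 [0,1,2]) (.edon 0 11 (.edon 7 9 (.leaf [7,8,10]) (.leaf [3,4,6,9,5])) (.edon 14 22 (.edon 0 18 (.leaf [13,15,16,17,14]) (.leaf [18,19,20])) (.leaf [11,12,22,21]))))), .t 9 (nat_lit 0xa600a5d0a580ab50ab20a820a800001) (.z (.node 16 0 (.edon 0 12 (.node 3 11 (.leaf [1,3,5,2]) (.free 2 [4,6,7,8,9,10,11])) (.leaf [12,13,15,16,14])) (.free 2 [0,17,18,19,20,21,22]))), .t 12 (nat_lit 0x539054b054a053e053c0c0e0be90be20be1056b056a) (.z (.node 2 4 (.node 8 16 (.edon 0 13 (.node 2 9 (.leaf [0,2,11,12]) (.leaf [5,7,8,9,6])) (.node 17 19 (.leaf [14,17,20,22,21]) (.leaf [13,18,19]))) (.leaf [10,15,16])) (.free 1 [1,3,4]))), .t 14 (nat_lit 0xb140b3f0b3d0b1f0b1c0a230b6b0b6a02fd022d0229020601ff) (.z (.edon 0 3 (.free 1 [0,1,2]) (.edon 0 11 (.edon 7 9 (.leaf [7,8,10]) (.leaf [3,4,5,9,6])) (.edon 14 22 (.edon 0 18 (.leaf [13,15,16,17,14]) (.leaf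 [18,19,20])) (.leaf [11,12,22,21]))))), .t 13 (nat_lit 0xb140b3f0b3d0b1f0b1c0172017100970096001e0b6b0b6a) (.z (.edon 0 20 (.node 0 12 (.node 0 17 (.leaf [0,18,19]) (.leaf [13,15,16,17,14])) (.edon 3 9 (.free 2 [3,4,6,7,8,10,12]) (.leaf [1,5,9,11,2]))) (.free 1 [20,21,22]))), .t 7 (nat_lit 0x148005c000500040b940b93) (.z (.edon 0 20 (.node 0 12 (.node 13 16 (.leaf [0,13,17,18,19]) (.leaf [14,15,16])) (.edon 4 9 (.free 2 [4,5,6,7,8,10,12]) (.leaf [1,3,9,11,2]))) (.free 1 [20,21,22]))), .t 17 (nat_lit 0x5480bed0bd30bd00bb10bae0ba90ba807950794060005ff0592059105420541) (.z (.edon 1 21 (.edon 0 5 (.leaf [1,3,4]) (.edon 0 14 (.node 7 9 (.leaf [5,6,7,11,13]) (.leaf [8,10,12,9])) (.edon 0 19 (.leaf [14,15,16,18,17]) (.leaf [19,20,22])))) (.free 1 [0,2,21]))), .t 6 (nat_lit 0x1ba00f100ec003e0035) (.z (.node 1 10 (.node 0 12 (.edon 15 21 (.free 2 [15,16,17,18,19,20,22])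 (.leaf [0,13,14,21])) (.leaf [1,9,12,11,2])) (.free 2 [3,4,5,6,7,8,10]))), .t 8 (nat_lit 0x1be01bd00f500f400340ab50ab2) (.z (.node 1 10 (.node 0 16 (.free 2 [0,17,18,19,20,21,22]) (.edon 12 13 (.leaf [12,15,16,14]) (.leaf [1,9,11,13,2]))) (.free 2 [3,4,5,6,7,8,10]))), .t 9 (nat_lit 0xa770a720a7100340aea0aac0bed0bea) (.z (.node 1 10 (.node 0 11 (.node 0 20 (.leaf [0,21,22]) (.edon 17 19 (.leaf [15,16,18,17]) (.leaf [12,14,19,20,13]))) (.leaf [1,9,11,2])) (.free 2 [3,4,5,6,7,8,10])))] (by decide +kernel) (by decide +kernel)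
theorem b115 : B 3680 3712 := Blk.of_chk [.t 6 (nat_lit 0x340ab50ab20b940b93) (.z (.edon 0 20 (.node 0 11 (.node 13 16 (.leaf [0,13,17,18,19]) (.leaf [12,15,16,14])) (.node 1 10 (.leaf [1,9,11,2]) (.free 2 [3,4,5,6,7,8,10]))) (.free 1 [20,21,22]))), .t 14 (nat_lit 0x7eb07e801440057000400020bed0bd30bd00bb10bae0ba90ba8) (.z (.edon 21 19 (.node 0 12 (.node 13 17 (.leaf [0,13,21]) (.leaf [14,15,16,18,17])) (.node 7 11 (.edon 4 6 (.leaf [4,5,7]) (.leaf [1,3,6,9,2])) (.leaf [8,10,12,11]))) (.free 1 [19,20,22]))), .t 10 (nat_lit 0xab20ad20ad00abf0abd079307910af40af3) (.z (.node 0 7 (.node 0 11 (.edon 14 19 (.leaf [12,15,16,18,14]) (.free 2 [0,13,17,19,20,21,22])) (.leaf [8,10,11,9])) (.free 2 [1,2,3,4,5,6,7]))), .t 15 (nat_lit 0x65b065a06570bd80b940b920b5e0b5b0b530b5106bf06bc06730672) (.z (.edon 0 7 (.free 2 [0,1,2,3,4,5,6]) (.node 8 16 (.edon 0 13 (.leaf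 [7,8,11,12,9]) (.edon 0 20 (.leaf [13,18,19,17,14]) (.leaf [20,21,22]))) (.leaf [10,15,16])))), .t 17 (nat_lit 0x53e0bed0bd30bd00bb10bae0ba90ba8095b095905e205e1056b056a053b053a) (.z (.edon 1 21 (.edon 0 5 (.leaf [1,3,4]) (.edon 0 10 (.leaf [5,6,7,8,9]) (.edon 0 14 (.leaf [10,13,12,11]) (.edon 0 19 (.leaf [14,15,16,18,17]) (.leaf [19,20,22]))))) (.free 1 [0,2,21]))), .t 10 (nat_lit 0xb140b420b400b270b24079307910b6e0b6d) (.z (.node 0 7 (.node 0 11 (.edon 0 20 (.node 12 18 (.leaf [0,12,17,19]) (.leaf [13,15,16,18,14])) (.leaf [20,21,22])) (.leaf [8,10,11,9])) (.free 2 [1,2,3,4,5,6,7]))), .t 15 (nat_lit 0x539054e054d054205400bf70bf20bf0056e056d01cf01ce0c000bfa) (.z (.node 2 4 (.node 8 16 (.node 0 14 (.node 0 20 (.leaf [0,21,22]) (.leaf [15,18,19,20,17])) (.node 2 11 (.leaf [2,9,13,14]) (.leaf [5,7,8,11,6]))) (.leaf [10,12,16])) (.free 1 [1,3,4]))), .t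 15 (nat_lit 0x1c20bf70bf20bf0053b053908f008ee01e301e201be01bd0c000bfa) (.z (.node 2 4 (.node 8 16 (.node 0 14 (.node 0 20 (.leaf [0,21,22]) (.leaf [15,18,19,20,17])) (.node 2 8 (.leaf [2,9,11,13,14]) (.leaf [5,7,8,6]))) (.leaf [10,12,16])) (.free 1 [1,3,4]))), .t 17 (nat_lit 0x546053e053c0bed0bd30bd00bb10bae0ba90ba807eb07e805830582055e055d) (.z (.edon 1 21 (.edon 0 5 (.leaf [1,3,4]) (.edon 0 14 (.node 7 11 (.leaf [5,7,13,9,6]) (.leaf [8,10,12,11])) (.edon 0 19 (.leaf [14,15,16,18,17]) (.leaf [19,20,22])))) (.free 1 [0,2,21]))), .t 12 (nat_lit 0xc0e0be90be20be102fd022d0229020601ff06780675) (.z (.edon 0 3 (.free 1 [0,1,2]) (.node 8 16 (.edon 0 14 (.edon 7 9 (.leaf [7,8,13,11]) (.leaf [3,4,5,9,6])) (.edon 15 20 (.leaf [15,18,19]) (.leaf [14,17,20,22,21]))) (.leaf [10,12,16])))), .t 13 (nat_lit 0xa5d0a290a240a0409ff09e809e602fd022d0229020601ff) (.z (.edon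 0 16 (.edon 0 3 (.leaf [0,1,2]) (.edon 0 11 (.edon 7 9 (.leaf [7,8,10]) (.leaf [3,4,5,9,6])) (.leaf [11,12,13,15,14]))) (.free 2 [16,17,18,19,20,21,22]))), .t 13 (nat_lit 0x7940793079107eb07e807a207a00c0d0be30bdd0bd80bd7) (.z (.node 0 7 (.node 0 12 (.node 0 20 (.leaf [0,21,22]) (.node 14 16 (.leaf [14,17,18,19,20]) (.leaf [13,15,16]))) (.leaf [8,10,12,11,9])) (.free 2 [1,2,3,4,5,6,7]))), .t 1 (nat_lit 0) (.cn 2 3), .t 15 (nat_lit 0xba90794079307910bec0beb0bd20bd10ba60ba507eb07e807a207a0) (.z (.edon 1 21 (.edon 0 14 (.node 7 11 (.free 2 [1,3,4,5,6,7,13]) (.leaf [8,10,12,11,9])) (.edon 0 19 (.leaf [14,15,16,17,18]) (.leaf [19,20,22]))) (.free 1 [0,2,21]))), .t 15 (nat_lit 0x539054e054d054205400bf60bf30bef056e056d01cf01ce0c000bfa) (.z (.node 2 4 (.node 8 16 (.node 0 14 (.node 0 20 (.leaf [0,21,22]) (.leaf [15,17,19,20,18])) (.node 2 11 (.leaf [2,9,13,14])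 (.leaf [5,7,8,11,6]))) (.leaf [10,12,16])) (.free 1 [1,3,4]))), .t 17 (nat_lit 0xba90546053e053c0bec0beb0bd20bd10ba60ba507eb07e805830582055e055d) (.z (.edon 1 21 (.edon 0 5 (.leaf [1,3,4]) (.edon 0 14 (.node 7 11 (.leaf [5,7,13,9,6]) (.leaf [8,10,12,11])) (.edon 0 19 (.leaf [14,15,16,17,18]) (.leaf [19,20,22])))) (.free 1 [0,2,21]))), .t 10 (nat_lit 0x9dc0a0409ff09e909e40a290a2702fc02fb) (.z (.node 0 3 (.edon 0 11 (.edon 7 9 (.leaf [7,8,10]) (.leaf [0,4,5,6,9])) (.edon 0 16 (.leaf [11,12,15,14,13]) (.free 2 [16,17,18,19,20,21,22]))) (.free 1 [1,2,3]))), .t 11 (nat_lit 0x30d023602320209020201be00f500f3003f0036) (.z (.edon 0 16 (.node 0 13 (.leaf [0,14,15]) (.node 1 12 (.leaf [1,11,13,9,2]) (.edon 7 12 (.leaf [7,8,10]) (.leaf [3,4,5,12,6])))) (.free 2 [16,17,18,19,20,21,22]))), .t 12 (nat_lit 0x7eb0642063f061b0619061406130060003600070004) (.z (.edon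 0 16 (.node 0 13 (.leaf [0,14,15]) (.node 3 11 (.leaf [1,3,13,9,2]) (.node 6 7 (.leaf [6,8,10,12,11]) (.leaf [4,5,7])))) (.free 2 [16,17,18,19,20,21,22]))), .t 14 (nat_lit 0xed01c701be0104010200f500f301da01d9012b012a003e0036) (.z (.node 10 1 (.free 2 [3,4,5,6,7,8,10]) (.node 13 0 (.leaf [1,11,12,13,9,2]) (.free 3 [0,14,15,16,17,18,19,20,21,22])))), .t 17 (nat_lit 0xba90bec0beb0bd20bd10ba60ba507eb07e805f205830582055e055c05480547) (.z (.edon 1 21 (.edon 0 5 (.leaf [1,3,4]) (.edon 0 14 (.node 7 11 (.leaf [5,6,7,13,9]) (.leaf [8,10,12,11])) (.edon 0 19 (.leaf [14,15,16,17,18]) (.leaf [19,20,22])))) (.free 1 [0,2,21]))), .t 17 (nat_lit 0xba9053e0bec0beb0bd20bd10ba60ba5095a095705e205e1056b056a053b053a) (.z (.edon 1 21 (.edon 0 5 (.leaf [1,3,4]) (.edon 0 10 (.leaf [5,6,7,8,9]) (.edon 0 14 (.leaf [10,12,13,11]) (.edon 0 19 (.leaf [14,15,16,17,18]) (.leaf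 [19,20,22]))))) (.free 1 [0,2,21]))), .t 13 (nat_lit 0xbf60bf30bef01790c000bfa05c005bf01cf01ce01780177) (.z (.edon 2 22 (.node 4 16 (.edon 0 15 (.node 2 4 (.leaf [2,5,9,13,14]) (.leaf [1,3,4])) (.leaf [15,17,19,20,18])) (.free 2 [6,7,8,10,11,12,16])) (.free 1 [0,21,22]))), .t 12 (nat_lit 0x7eb05c905c605a905a705a305a2014a006000070004) (.z (.edon 0 16 (.node 0 13 (.leaf [0,14,15]) (.node 3 11 (.leaf [1,3,9,13,2]) (.node 5 7 (.leaf [5,8,10,12,11]) (.leaf [4,6,7])))) (.free 2 [16,17,18,19,20,21,22]))), .t 13 (nat_lit 0x8ec090208fe08f608f2030c0235023302090202093f093d) (.z (.edon 0 16 (.node 1 12 (.edon 0 9 (.leaf [0,1,2]) (.leaf [9,11,15,14,13])) (.edon 7 12 (.leaf [7,8,10]) (.leaf [3,4,6,12,5]))) (.free 2 [16,17,18,19,20,21,22]))), .t 12 (nat_lit 0x24e024d01780177013f009c009b0051000700040001) (.z (.edon 4 16 (.free 2 [4,6,7,8,10,11,12]) (.node 13 0 (.leaf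 [1,3,5,9,13,2]) (.free 3 [0,14,15,16,17,18,19,20,21,22])))), .t 13 (nat_lit 0x9dc0a0409ff09e909e40a290a2702fc022c022a020601ff) (.z (.edon 0 16 (.edon 0 3 (.leaf [0,1,2]) (.edon 0 11 (.edon 7 9 (.leaf [7,8,10]) (.leaf [3,4,6,9,5])) (.leaf [11,12,15,14,13]))) (.free 2 [16,17,18,19,20,21,22]))), .t 1 (nat_lit 0) (.cn 2 3), .t 13 (nat_lit 0x9e40a1a0a1509f109ec0a390a3702fc022c022a020601ff) (.z (.edon 0 3 (.free 1 [0,1,2]) (.edon 0 11 (.edon 7 9 (.leaf [7,8,10]) (.leaf [3,4,6,9,5])) (.node 14 16 (.free 2 [14,17,18,19,20,21,22]) (.leaf [11,12,16,15,13]))))), .t 12 (nat_lit 0x2550254017f017e014000a100a00052000700050001) (.z (.edon 4 16 (.free 2 [4,6,7,8,9,10,12]) (.node 13 0 (.leaf [1,3,5,11,13,2]) (.free 3 [0,14,15,16,17,18,19,20,21,22])))), .t 15 (nat_lit 0xba90bec0beb0bd20bd10ba60ba507eb07e8024e024d009c009b0051) (.z (.edon 1 21 (.edon 0 14 (.node 7 11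 (.edon 4 5 (.leaf [4,6,7]) (.leaf [1,3,5,9,13])) (.leaf [8,10,12,11])) (.edon 0 19 (.leaf [14,15,16,17,18]) (.leaf [19,20,22]))) (.free 1 [0,2,21]))), .t 12 (nat_lit 0x2be02bd01be01bd014800f500f4005c000700050004) (.z (.edon 4 16 (.free 2 [4,5,6,7,8,10,12]) (.node 13 0 (.leaf [1,3,9,11,13,2]) (.free 3 [0,14,15,16,17,18,19,20,21,22]))))] (by decide +kernel) (by decide +kernel)
theorem b116 : B 3712 3744 := Blk.of_chk [.t 10 (nat_lit 0x9e40a1a0a1509f109ec0a390a3702fc02fb) (.z (.node 0 3 (.edon 0 11 (.edon 7 9 (.leaf [7,8,10]) (.leaf [0,4,5,6,9])) (.node 14 16 (.free 2 [14,17,18,19,20,21,22]) (.leaf [11,12,16,15,13]))) (.free 1 [1,2,3]))), .t 12 (nat_lit 0x14a00600007000407eb0642063f061b061906140613) (.z (.edon 0 16 (.node 0 13 (.leaf [0,14,15]) (.edon 4 9 (.node 6 7 (.leaf [6,8,10,12,11]) (.leaf [4,5,7])) (.leaf [1,3,9,13,2]))) (.free 2 [16,17,18,19,20,21,22]))),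 .t 15 (nat_lit 0xba907ec07eb07e80bec0beb0bd20bd10ba60ba50813081007f807f7) (.z (.edon 1 21 (.edon 0 14 (.node 7 11 (.free 2 [1,3,4,5,6,7,9]) (.leaf [8,10,12,13,11])) (.edon 0 19 (.leaf [14,15,16,17,18]) (.leaf [19,20,22]))) (.free 1 [0,2,21]))), .t 12 (nat_lit 0x7ec07eb07e80813081007f807f70144005700040002) (.z (.edon 0 16 (.node 0 13 (.leaf [0,14,15]) (.node 7 11 (.edon 4 9 (.leaf [4,5,7]) (.leaf [1,3,6,9,2])) (.leaf [8,10,12,13,11]))) (.free 2 [16,17,18,19,20,21,22]))), .t 12 (nat_lit 0x7ec07eb07e80813081007f807f70144005700040002) (.z (.edon 0 16 (.node 0 13 (.leaf [0,14,15]) (.node 7 11 (.edon 4 6 (.leaf [4,5,7]) (.leaf [1,3,6,9,2])) (.leaf [8,10,12,13,11]))) (.free 2 [16,17,18,19,20,21,22]))), .t 10 (nat_lit 0xa5d0a290a240a0409ff09e809e602fc02fb) (.z (.node 0 3 (.edon 0 11 (.edon 7 9 (.leaf [7,8,10]) (.leaf [0,4,5,6,9])) (.edon 0 16 (.leaf [11,12,13,15,14])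 (.free 2 [16,17,18,19,20,21,22]))) (.free 1 [1,2,3]))), .t 15 (nat_lit 0x7ec07eb07e80bed0bd30bd00bb10bae0ba90ba80813081007f807f7) (.z (.edon 1 21 (.edon 0 14 (.node 7 13 (.free 2 [1,3,4,5,6,7,9]) (.leaf [8,10,12,13,11])) (.edon 0 19 (.leaf [14,15,16,18,17]) (.leaf [19,20,22]))) (.free 1 [0,2,21]))), .t 13 (nat_lit 0xbf70bf20bf005e80c000bfa06770676061e061d05e405e3) (.z (.edon 2 22 (.node 8 16 (.edon 0 15 (.node 5 13 (.free 2 [1,2,3,4,5,9,14]) (.leaf [6,7,8,11,13])) (.leaf [15,18,19,20,17])) (.leaf [10,12,16])) (.free 1 [0,21,22]))), .t 12 (nat_lit 0x7ec07eb07e80813081007f807f7013f005100040001) (.z (.edon 0 16 (.node 0 13 (.leaf [0,14,15]) (.node 7 11 (.edon 4 5 (.leaf [4,6,7]) (.leaf [1,3,5,9,2])) (.leaf [8,10,12,13,11]))) (.free 2 [16,17,18,19,20,21,22]))), .t 12 (nat_lit 0x7ec07eb07e80813081007f807f7013f005100040001) (.z (.edon 0 16 (.node 0 13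 (.leaf [0,14,15]) (.node 7 11 (.edon 4 9 (.leaf [4,6,7]) (.leaf [1,3,5,9,2])) (.leaf [8,10,12,13,11]))) (.free 2 [16,17,18,19,20,21,22]))), .t 13 (nat_lit 0x794079307910bda0bd80bd607eb07e807a207a00be30bdd) (.z (.node 0 7 (.node 0 12 (.node 0 20 (.leaf [0,21,22]) (.node 14 16 (.leaf [14,18,19,20,17]) (.leaf [13,15,16]))) (.leaf [8,10,12,11,9])) (.free 2 [1,2,3,4,5,6,7]))), .t 10 (nat_lit 0xbb20bb10bae0bd80bd60bc50bc301be01bd) (.z (.edon 10 1 (.node 11 16 (.edon 0 14 (.leaf [0,2,9,11,13]) (.edon 0 20 (.leaf [14,15,18,19,17]) (.leaf [20,21,22]))) (.leaf [10,12,16])) (.free 2 [1,3,4,5,6,7,8]))), .t 15 (nat_lit 0x5420bf70bf20bf005e405e3056e056d053b053a01cf01ce0c000bfa) (.z (.node 2 4 (.node 8 16 (.node 0 14 (.node 0 20 (.leaf [0,21,22]) (.leaf [15,18,19,20,17])) (.node 2 11 (.leaf [2,9,13,14]) (.leaf [5,6,7,8,11]))) (.leaf [10,12,16])) (.free 1 [1,3,4]))),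 .t 17 (nat_lit 0xbed0bd30bd00bb10bae0ba90ba807eb07e805f205830582055e055c05480547) (.z (.edon 1 21 (.edon 0 5 (.leaf [1,3,4]) (.edon 0 14 (.node 7 11 (.leaf [5,6,7,13,9]) (.leaf [8,10,12,11])) (.edon 0 19 (.leaf [14,15,16,18,17]) (.leaf [19,20,22])))) (.free 1 [0,2,21]))), .t 7 (nat_lit 0x79307910bbf0bbe0a9a0a98) (.z (.node 0 7 (.node 0 11 (.edon 13 19 (.leaf [12,16,18,13]) (.edon 19 21 (.leaf [19,20,22]) (.leaf [0,14,15,17,21]))) (.leaf [8,10,11,9])) (.free 2 [1,2,3,4,5,6,7]))), .t 10 (nat_lit 0xbda0bd80bd6079307910a830a810be30bdd) (.z (.node 0 7 (.node 0 11 (.node 0 20 (.leaf [0,21,22]) (.node 14 16 (.leaf [14,18,19,20,17]) (.leaf [12,16,15,13]))) (.leaf [8,10,11,9])) (.free 2 [1,2,3,4,5,6,7]))), .t 15 (nat_lit 0x1c20bf60bf30bef053b053908f008ee01e301e201be01bd0c000bfa) (.z (.node 2 4 (.node 8 16 (.node 0 14 (.node 0 20 (.leaf [0,21,22]) (.leaf [15,17,19,20,18]))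 (.node 2 8 (.leaf [2,9,11,13,14]) (.leaf [5,7,8,6]))) (.leaf [10,12,16])) (.free 1 [1,3,4]))), .t 8 (nat_lit 0xb180b16019000ad00aa00340024) (.z (.node 16 0 (.edon 0 13 (.edon 3 11 (.free 2 [3,4,5,7,8,10,12]) (.leaf [1,6,11,9,2])) (.leaf [13,16,15,14])) (.free 2 [0,17,18,19,20,21,22]))), .t 1 (nat_lit 0) (.cn 2 3), .t 8 (nat_lit 0xb180b16018f018e00ac00ab0023) (.z (.node 16 0 (.edon 0 13 (.edon 3 9 (.free 2 [3,4,5,7,8,10,12]) (.leaf [1,6,9,11,2])) (.leaf [13,16,15,14])) (.free 2 [0,17,18,19,20,21,22]))), .t 9 (nat_lit 0xb180b16014500580005000207950794) (.z (.node 16 0 (.edon 0 13 (.edon 4 8 (.leaf [4,5,7]) (.edon 8 11 (.leaf [8,10,12,9]) (.leaf [1,3,6,11,2]))) (.leaf [13,16,15,14])) (.free 2 [0,17,18,19,20,21,22]))), .t 4 (nat_lit 0xbe907930792) (.z (.node 0 7 (.edon 0 12 (.leaf [0,8,9,10,11]) (.node 14 19 (.leaf [14,20,22,21]) (.free 2 [12,13,15,16,17,18,19])))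 (.free 2 [1,2,3,4,5,6,7]))), .t 9 (nat_lit 0xbf70bf20bf000340a650a600c000bfa) (.z (.node 1 10 (.node 0 11 (.node 0 20 (.leaf [0,21,22]) (.node 15 16 (.leaf [15,18,19,20,17]) (.leaf [12,13,16,14]))) (.leaf [1,9,11,2])) (.free 2 [3,4,5,6,7,8,10]))), .t 8 (nat_lit 0xb180b1601750174009a0099001e) (.z (.node 16 0 (.edon 0 13 (.edon 3 9 (.free 2 [3,4,6,7,8,10,11]) (.leaf [1,5,9,12,2])) (.leaf [13,16,15,14])) (.free 2 [0,17,18,19,20,21,22]))), .t 10 (nat_lit 0xbf70bf20bf0079307910a650a600c000bfa) (.z (.node 0 7 (.node 0 11 (.node 0 20 (.leaf [0,21,22]) (.node 15 16 (.leaf [15,18,19,20,17]) (.leaf [12,13,16,14]))) (.leaf [8,10,11,9])) (.free 2 [1,2,3,4,5,6,7]))), .t 11 (nat_lit 0xac10ac00abc0b020b000ae40ae30c0e065a0657) (.z (.edon 0 7 (.free 2 [0,1,2,3,4,5,6]) (.node 8 16 (.edon 0 12 (.leaf [7,8,11,9]) (.node 17 19 (.leaf [17,20,22,21]) (.leaf [12,14,18,19,15])))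 (.leaf [10,13,16])))), .t 9 (nat_lit 0xa580a830a7e0a650a600ab60ab40002) (.z (.node 16 0 (.edon 0 12 (.node 3 11 (.leaf [1,3,6,2]) (.free 2 [4,5,7,8,9,10,11])) (.leaf [12,13,16,15,14])) (.free 2 [0,17,18,19,20,21,22]))), .t 15 (nat_lit 0xa58030502fd02f90a830a7e0a650a60039d039a033403320ab60ab4) (.z (.node 0 3 (.node 0 11 (.node 0 16 (.free 2 [0,17,18,19,20,21,22]) (.leaf [12,13,16,15,14])) (.edon 7 9 (.leaf [7,8,10]) (.leaf [4,5,9,11,6]))) (.free 1 [1,2,3]))), .t 1 (nat_lit 0) (.cn 2 3), .t 12 (nat_lit 0x7f407ef07ec08340832080608050144005700040002) (.z (.edon 0 16 (.node 7 11 (.node 0 9 (.leaf [0,12,14]) (.edon 4 6 (.leaf [4,5,7]) (.leaf [1,3,6,9,2]))) (.leaf [8,10,13,15,11])) (.free 2 [16,17,18,19,20,21,22]))), .t 9 (nat_lit 0x14400570004000207ef07ec0ab50ab3) (.z (.node 16 0 (.edon 8 9 (.node 12 13 (.leaf [12,14,15,16]) (.leaf [8,10,13,11])) (.edon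 4 6 (.leaf [4,5,7]) (.leaf [1,3,6,9,2]))) (.free 2 [0,17,18,19,20,21,22]))), .t 1 (nat_lit 0) (.cn 2 3)] (by decide +kernel) (by decide +kernel)

end Pool.Agent.GCP.F8_10
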