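import Pool.Agent.GCP.F8_11Db

set_option autoImplicit false
set_option maxRecDepth 100000

/-! # Blocks F8_11B1 (generated) -/

namespace Pool.Agent.GCP.F8_11

open Pool.Agent.GCP DB

theorem b79 : B 2528 2560 := Blk.of_chk [.t 1 (nat_lit 0) (.ax 11 12 13 14 5), .t 1 (nat_lit 0) (.ax 11 12 13 14 7), .t 1 (nat_lit 0) (.ax 11 12 13 15 0), .t 1 (nat_lit 0) (.ax 11 12 13 15 1), .t 1 (nat_lit 0) (.ax 11 12 13 15 2), .t 1 (nat_lit 0) (.ax 11 12 13 15 3), .t 1 (nat_lit 0) (.ax 11 12 13 15 4), .t 1 (nat_lit 0) (.ax 11 12 13 15 5), .t 1 (nat_lit 0) (.ax 11 12 13 15 7), .t 1 (nat_lit 0) (.ax 11 12 13 16 2), .t 1 (nat_lit 0) (.ax 11 12 13 17 2), .t 1 (nat_lit 0) (.ax 11 12 13 17 3), .t 1 (nat_lit 0) (.ax 11 12 13 17 5), .t 1 (nat_lit 0) (.ax 11 12 13 17 7), .t 1 (nat_lit 0) (.ax 11 12 13 18 2), .t 1 (nat_lit 0) (.ax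 11 12 13 18 3), .t 1 (nat_lit 0) (.ax 11 12 13 18 4), .t 1 (nat_lit 0) (.ax 11 12 13 18 5), .t 1 (nat_lit 0) (.ax 11 12 13 18 7), .t 1 (nat_lit 0) (.ax 11 12 13 19 2), .t 1 (nat_lit 0) (.ax 11 12 13 19 3), .t 1 (nat_lit 0) (.ax 11 12 13 19 4), .t 1 (nat_lit 0) (.ax 11 12 13 19 5), .t 1 (nat_lit 0) (.ax 11 12 13 19 6), .t 1 (nat_lit 0) (.ax 11 12 13 19 7), .t 1 (nat_lit 0) (.ax 11 12 13 20 2), .t 1 (nat_lit 0) (.ax 11 12 13 20 7), .t 1 (nat_lit 0) (.ax 11 12 13 21 2), .t 1 (nat_lit 0) (.ax 11 12 13 21 3), .t 1 (nat_lit 0) (.ax 11 12 13 21 4), .t 1 (nat_lit 0) (.ax 11 12 13 22 2), .t 1 (nat_lit 0) (.ax 11 12 13 22 3)] (by decide +kernel) (by decide +kernel)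
theorem b80 : B 2560 2592 := Blk.of_chk [.t 1 (nat_lit 0) (.ax 11 12 13 22 4), .t 1 (nat_lit 0) (.ax 11 12 13 22 5), .t 1 (nat_lit 0) (.ax 11 12 13 22 7), .t 1 (nat_lit 0) (.ax 11 12 14 15 0), .t 1 (nat_lit 0) (.ax 11 12 14 15 1), .t 1 (nat_lit 0) (.ax 11 12 14 15 2), .t 1 (nat_lit 0) (.ax 11 12 14 15 3), .t 1 (nat_lit 0) (.ax 11 12 14 15 4), .t 1 (nat_lit 0) (.ax 11 12 14 15 5), .t 1 (nat_lit 0) (.ax 11 12 14 15 7), .t 1 (nat_lit 0) (.ax 11 12 14 16 2), .t 1 (nat_lit 0) (.ax 11 12 14 16 4), .t 1 (nat_lit 0) (.ax 11 12 14 17 2), .t 1 (nat_lit 0) (.ax 11 12 14 18 0), .t 1 (nat_lit 0) (.ax 11 12 14 18 2), .t 1 (nat_lit 0) (.ax 11 12 14 18 7), .t 1 (nat_lit 0) (.ax 11 12 14 19 2), .t 1 (nat_lit 0) (.ax 11 12 14 19 4), .t 1 (nat_lit 0) (.ax 11 12 14 19 7), .t 1 (nat_lit 0) (.ax 11 12 14 20 2), .t 1 (nat_lit 0)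 (.ax 11 12 14 20 3), .t 1 (nat_lit 0) (.ax 11 12 14 21 0), .t 1 (nat_lit 0) (.ax 11 12 14 21 2), .t 1 (nat_lit 0) (.ax 11 12 14 21 3), .t 1 (nat_lit 0) (.ax 11 12 14 21 5), .t 1 (nat_lit 0) (.ax 11 12 14 21 7), .t 1 (nat_lit 0) (.ax 11 12 14 22 0), .t 1 (nat_lit 0) (.ax 11 12 14 22 2), .t 1 (nat_lit 0) (.ax 11 12 14 22 3), .t 1 (nat_lit 0) (.ax 11 12 14 22 6), .t 1 (nat_lit 0) (.ax 11 12 14 22 7), .t 1 (nat_lit 0) (.ax 11 12 15 16 2)] (by decide +kernel) (by decide +kernel)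
theorem b81 : B 2592 2624 := Blk.of_chk [.t 1 (nat_lit 0) (.ax 11 12 15 16 4), .t 1 (nat_lit 0) (.ax 11 12 15 17 2), .t 1 (nat_lit 0) (.ax 11 12 15 17 6), .t 1 (nat_lit 0) (.ax 11 12 15 18 2), .t 1 (nat_lit 0) (.ax 11 12 15 19 0), .t 1 (nat_lit 0) (.ax 11 12 15 19 2), .t 1 (nat_lit 0) (.ax 11 12 15 19 7), .t 1 (nat_lit 0) (.ax 11 12 15 21 0), .t 1 (nat_lit 0) (.ax 11 12 15 21 4), .t 1 (nat_lit 0) (.ax 11 12 15 22 0), .t 1 (nat_lit 0) (.ax 11 12 15 22 2), .t 1 (nat_lit 0) (.ax 11 12 15 22 4), .t 1 (nat_lit 0) (.ax 11 12 15 22 6), .t 1 (nat_lit 0) (.ax 11 12 15 22 7), .t 1 (nat_lit 0) (.ax 11 12 16 17 3), .t 1 (nat_lit 0) (.ax 11 12 16 18 3), .t 1 (nat_lit 0) (.ax 11 12 16 20 3), .t 1 (nat_lit 0) (.ax 11 12 16 21 3), .t 1 (nat_lit 0) (.ax 11 12 16 22 3), .t 1 (nat_lit 0) (.ax 11 12 17 19 0), .t 1 (nat_lit 0)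 (.ax 11 12 17 19 2), .t 1 (nat_lit 0) (.ax 11 12 17 19 4), .t 1 (nat_lit 0) (.ax 11 12 17 21 0), .t 1 (nat_lit 0) (.ax 11 12 17 22 0), .t 1 (nat_lit 0) (.ax 11 12 17 22 1), .t 1 (nat_lit 0) (.ax 11 12 17 22 3), .t 1 (nat_lit 0) (.ax 11 12 18 19 0), .t 1 (nat_lit 0) (.ax 11 12 18 19 1), .t 1 (nat_lit 0) (.ax 11 12 18 19 2), .t 1 (nat_lit 0) (.ax 11 12 18 19 3), .t 1 (nat_lit 0) (.ax 11 12 18 19 4), .t 1 (nat_lit 0) (.ax 11 12 18 19 6)] (by decide +kernel) (by decide +kernel)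
theorem b82 : B 2624 2656 := Blk.of_chk [.t 1 (nat_lit 0) (.ax 11 12 18 21 4), .t 1 (nat_lit 0) (.ax 11 12 18 22 0), .t 1 (nat_lit 0) (.ax 11 12 18 22 1), .t 1 (nat_lit 0) (.ax 11 12 21 22 5), .t 1 (nat_lit 0) (.ax 11 13 14 15 0), .t 1 (nat_lit 0) (.ax 11 13 14 15 1), .t 1 (nat_lit 0) (.ax 11 13 14 15 2), .t 1 (nat_lit 0) (.ax 11 13 14 15 3), .t 1 (nat_lit 0) (.ax 11 13 14 15 4), .t 1 (nat_lit 0) (.ax 11 13 14 15 5), .t 1 (nat_lit 0) (.ax 11 13 14 15 7), .t 1 (nat_lit 0) (.ax 11 13 14 16 2), .t 1 (nat_lit 0) (.ax 11 13 14 16 4), .t 1 (nat_lit 0) (.ax 11 13 14 17 2), .t 1 (nat_lit 0) (.ax 11 13 14 18 7), .t 1 (nat_lit 0) (.ax 11 13 14 19 0), .t 1 (nat_lit 0) (.ax 11 13 14 19 1), .t 1 (nat_lit 0) (.ax 11 13 14 19 2), .t 1 (nat_lit 0) (.ax 11 13 14 19 4), .t 1 (nat_lit 0) (.ax 11 13 14 19 6), .t 1 (nat_lit 0)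 (.ax 11 13 14 19 7), .t 1 (nat_lit 0) (.ax 11 13 14 20 1), .t 1 (nat_lit 0) (.ax 11 13 14 21 0), .t 1 (nat_lit 0) (.ax 11 13 14 21 2), .t 1 (nat_lit 0) (.ax 11 13 14 21 5), .t 1 (nat_lit 0) (.ax 11 13 14 21 7), .t 1 (nat_lit 0) (.ax 11 13 14 22 0), .t 1 (nat_lit 0) (.ax 11 13 14 22 1), .t 1 (nat_lit 0) (.ax 11 13 14 22 2), .t 1 (nat_lit 0) (.ax 11 13 14 22 3), .t 1 (nat_lit 0) (.ax 11 13 14 22 4), .t 1 (nat_lit 0) (.ax 11 13 14 22 5)] (by decide +kernel) (by decide +kernel)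
theorem b83 : B 2656 2688 := Blk.of_chk [.t 1 (nat_lit 0) (.ax 11 13 14 22 6), .t 1 (nat_lit 0) (.ax 11 13 14 22 7), .t 1 (nat_lit 0) (.ax 11 13 15 16 2), .t 1 (nat_lit 0) (.ax 11 13 15 16 4), .t 1 (nat_lit 0) (.ax 11 13 15 17 2), .t 1 (nat_lit 0) (.ax 11 13 15 17 4), .t 1 (nat_lit 0) (.ax 11 13 15 18 2), .t 1 (nat_lit 0) (.ax 11 13 15 18 3), .t 1 (nat_lit 0) (.ax 11 13 15 18 4), .t 1 (nat_lit 0) (.ax 11 13 15 19 0), .t 1 (nat_lit 0) (.ax 11 13 15 19 2), .t 1 (nat_lit 0) (.ax 11 13 15 19 4), .t 1 (nat_lit 0) (.ax 11 13 15 19 6), .t 1 (nat_lit 0) (.ax 11 13 15 19 7), .t 1 (nat_lit 0) (.ax 11 13 15 20 2), .t 1 (nat_lit 0) (.ax 11 13 15 21 2), .t 1 (nat_lit 0) (.ax 11 13 15 21 3), .t 1 (nat_lit 0) (.ax 11 13 15 21 4), .t 1 (nat_lit 0) (.ax 11 13 15 22 0), .t 1 (nat_lit 0) (.ax 11 13 15 22 1), .t 1 (nat_lit 0)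 (.ax 11 13 15 22 2), .t 1 (nat_lit 0) (.ax 11 13 15 22 3), .t 1 (nat_lit 0) (.ax 11 13 15 22 4), .t 1 (nat_lit 0) (.ax 11 13 15 22 6), .t 1 (nat_lit 0) (.ax 11 13 15 22 7), .t 1 (nat_lit 0) (.ax 11 13 16 17 3), .t 1 (nat_lit 0) (.ax 11 13 16 18 3), .t 1 (nat_lit 0) (.ax 11 13 16 20 3), .t 1 (nat_lit 0) (.ax 11 13 16 21 3), .t 1 (nat_lit 0) (.ax 11 13 16 22 3), .t 1 (nat_lit 0) (.ax 11 13 17 18 2), .t 1 (nat_lit 0) (.ax 11 13 17 19 1)] (by decide +kernel) (by decide +kernel)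
theorem b84 : B 2688 2720 := Blk.of_chk [.t 1 (nat_lit 0) (.ax 11 13 17 19 2), .t 1 (nat_lit 0) (.ax 11 13 17 19 4), .t 1 (nat_lit 0) (.ax 11 13 17 20 0), .t 1 (nat_lit 0) (.ax 11 13 17 20 2), .t 1 (nat_lit 0) (.ax 11 13 17 20 4), .t 1 (nat_lit 0) (.ax 11 13 17 21 1), .t 1 (nat_lit 0) (.ax 11 13 17 21 3), .t 1 (nat_lit 0) (.ax 11 13 17 22 0), .t 1 (nat_lit 0) (.ax 11 13 17 22 1), .t 1 (nat_lit 0) (.ax 11 13 17 22 6), .t 1 (nat_lit 0) (.ax 11 13 17 22 7), .t 1 (nat_lit 0) (.ax 11 13 18 19 1), .t 1 (nat_lit 0) (.ax 11 13 18 19 2), .t 1 (nat_lit 0) (.ax 11 13 18 19 4), .t 1 (nat_lit 0) (.ax 11 13 18 19 6), .t 1 (nat_lit 0) (.ax 11 13 18 19 7), .t 1 (nat_lit 0) (.ax 11 13 18 21 3), .t 1 (nat_lit 0) (.ax 11 13 18 22 0), .t 1 (nat_lit 0) (.ax 11 13 18 22 1), .t 1 (nat_lit 0) (.ax 11 13 18 22 2), .t 1 (nat_lit 0)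 (.ax 11 13 18 22 6), .t 1 (nat_lit 0) (.ax 11 13 19 20 4), .t 1 (nat_lit 0) (.ax 11 13 19 21 4), .t 1 (nat_lit 0) (.ax 11 13 20 22 4), .t 1 (nat_lit 0) (.ax 11 13 21 22 5), .t 1 (nat_lit 0) (.ax 11 13 21 22 7), .t 1 (nat_lit 0) (.ax 11 14 15 16 2), .t 1 (nat_lit 0) (.ax 11 14 15 17 0), .t 1 (nat_lit 0) (.ax 11 14 15 17 2), .t 1 (nat_lit 0) (.ax 11 14 15 17 4), .t 1 (nat_lit 0) (.ax 11 14 15 17 5), .t 1 (nat_lit 0) (.ax 11 14 15 18 1)] (by decide +kernel) (by decide +kernel)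
theorem b85 : B 2720 2752 := Blk.of_chk [.t 1 (nat_lit 0) (.ax 11 14 15 18 2), .t 1 (nat_lit 0) (.ax 11 14 15 18 3), .t 1 (nat_lit 0) (.ax 11 14 15 18 6), .t 1 (nat_lit 0) (.ax 11 14 15 19 0), .t 1 (nat_lit 0) (.ax 11 14 15 19 1), .t 1 (nat_lit 0) (.ax 11 14 15 19 2), .t 1 (nat_lit 0) (.ax 11 14 15 19 4), .t 1 (nat_lit 0) (.ax 11 14 15 19 6), .t 1 (nat_lit 0) (.ax 11 14 15 19 7), .t 1 (nat_lit 0) (.ax 11 14 15 20 2), .t 1 (nat_lit 0) (.ax 11 14 15 21 2), .t 1 (nat_lit 0) (.ax 11 14 15 21 3), .t 1 (nat_lit 0) (.ax 11 14 15 21 4), .t 1 (nat_lit 0) (.ax 11 14 15 22 0), .t 1 (nat_lit 0) (.ax 11 14 15 22 1), .t 1 (nat_lit 0) (.ax 11 14 15 22 2), .t 1 (nat_lit 0) (.ax 11 14 15 22 4), .t 1 (nat_lit 0) (.ax 11 14 15 22 6), .t 1 (nat_lit 0) (.ax 11 14 15 22 7), .t 1 (nat_lit 0) (.ax 11 14 16 17 3), .t 1 (nat_lit 0)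 (.ax 11 14 16 18 3), .t 1 (nat_lit 0) (.ax 11 14 16 20 3), .t 1 (nat_lit 0) (.ax 11 14 16 21 3), .t 1 (nat_lit 0) (.ax 11 14 16 22 3), .t 1 (nat_lit 0) (.ax 11 14 17 19 0), .t 1 (nat_lit 0) (.ax 11 14 17 19 1), .t 1 (nat_lit 0) (.ax 11 14 17 19 2), .t 1 (nat_lit 0) (.ax 11 14 17 19 3), .t 1 (nat_lit 0) (.ax 11 14 17 19 4), .t 1 (nat_lit 0) (.ax 11 14 17 19 6), .t 1 (nat_lit 0) (.ax 11 14 17 20 2), .t 1 (nat_lit 0) (.ax 11 14 17 21 4)] (by decide +kernel) (by decide +kernel)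
theorem b86 : B 2752 2784 := Blk.of_chk [.t 1 (nat_lit 0) (.ax 11 14 17 22 0), .t 1 (nat_lit 0) (.ax 11 14 17 22 1), .t 1 (nat_lit 0) (.ax 11 14 17 22 3), .t 1 (nat_lit 0) (.ax 11 14 17 22 5), .t 1 (nat_lit 0) (.ax 11 14 17 22 6), .t 1 (nat_lit 0) (.ax 11 14 17 22 7), .t 1 (nat_lit 0) (.ax 11 14 18 19 0), .t 1 (nat_lit 0) (.ax 11 14 18 19 1), .t 1 (nat_lit 0) (.ax 11 14 18 19 4), .t 1 (nat_lit 0) (.ax 11 14 18 19 6), .t 1 (nat_lit 0) (.ax 11 14 18 21 3), .t 1 (nat_lit 0) (.ax 11 14 18 22 6), .t 1 (nat_lit 0) (.ax 11 14 19 21 4), .t 1 (nat_lit 0) (.ax 11 14 19 22 4), .t 1 (nat_lit 0) (.ax 11 14 20 22 4), .t 1 (nat_lit 0) (.ax 11 14 20 22 6), .t 1 (nat_lit 0) (.ax 11 14 21 22 5), .t 1 (nat_lit 0) (.ax 11 15 16 17 3), .t 1 (nat_lit 0) (.ax 11 15 16 18 3), .t 1 (nat_lit 0) (.ax 11 15 16 20 3), .t 1 (nat_lit 0)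 (.ax 11 15 16 21 3), .t 1 (nat_lit 0) (.ax 11 15 16 22 3), .t 1 (nat_lit 0) (.ax 11 15 17 18 5), .t 1 (nat_lit 0) (.ax 11 15 17 19 0), .t 1 (nat_lit 0) (.ax 11 15 17 19 1), .t 1 (nat_lit 0) (.ax 11 15 17 19 2), .t 1 (nat_lit 0) (.ax 11 15 17 19 4), .t 1 (nat_lit 0) (.ax 11 15 17 19 6), .t 1 (nat_lit 0) (.ax 11 15 17 20 1), .t 1 (nat_lit 0) (.ax 11 15 17 20 5), .t 1 (nat_lit 0) (.ax 11 15 17 21 0), .t 1 (nat_lit 0) (.ax 11 15 17 22 2)] (by decide +kernel) (by decide +kernel)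
theorem b87 : B 2784 2816 := Blk.of_chk [.t 1 (nat_lit 0) (.ax 11 15 17 22 6), .t 1 (nat_lit 0) (.ax 11 15 18 19 0), .t 1 (nat_lit 0) (.ax 11 15 18 19 1), .t 1 (nat_lit 0) (.ax 11 15 18 19 2), .t 1 (nat_lit 0) (.ax 11 15 18 19 4), .t 1 (nat_lit 0) (.ax 11 15 18 19 6), .t 1 (nat_lit 0) (.ax 11 15 18 21 0), .t 1 (nat_lit 0) (.ax 11 15 18 21 4), .t 1 (nat_lit 0) (.ax 11 15 18 22 0), .t 1 (nat_lit 0) (.ax 11 15 18 22 2), .t 1 (nat_lit 0) (.ax 11 15 18 22 4), .t 1 (nat_lit 0) (.ax 11 15 18 22 6), .t 1 (nat_lit 0) (.ax 11 15 19 22 4), .t 1 (nat_lit 0) (.ax 11 15 20 22 4), .t 1 (nat_lit 0) (.ax 11 15 21 22 5), .t 1 (nat_lit 0) (.ax 11 16 17 18 0), .t 1 (nat_lit 0) (.ax 11 16 17 22 0), .t 1 (nat_lit 0) (.ax 11 16 18 22 0), .t 1 (nat_lit 0) (.ax 11 16 18 22 2), .t 1 (nat_lit 0) (.ax 11 16 19 21 0), .t 1 (nat_lit 0)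 (.ax 11 17 18 19 0), .t 1 (nat_lit 0) (.ax 11 17 18 19 4), .t 1 (nat_lit 0) (.ax 11 17 18 19 6), .t 1 (nat_lit 0) (.ax 11 17 18 21 6), .t 1 (nat_lit 0) (.ax 11 17 18 22 0), .t 1 (nat_lit 0) (.ax 11 17 18 22 1), .t 1 (nat_lit 0) (.ax 11 17 18 22 6), .t 1 (nat_lit 0) (.ax 11 17 19 20 4), .t 1 (nat_lit 0) (.ax 11 17 19 22 4), .t 1 (nat_lit 0) (.ax 11 17 20 22 4), .t 1 (nat_lit 0) (.ax 11 18 19 21 4), .t 1 (nat_lit 0) (.ax 11 18 19 22 4)] (by decide +kernel) (by decide +kernel)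
theorem b88 : B 2816 2848 := Blk.of_chk [.t 1 (nat_lit 0) (.ax 11 18 19 22 6), .t 1 (nat_lit 0) (.ax 11 18 21 22 5), .t 1 (nat_lit 0) (.ax 11 19 20 21 0), .t 1 (nat_lit 0) (.ax 12 13 14 15 0), .t 1 (nat_lit 0) (.ax 12 13 14 15 1), .t 1 (nat_lit 0) (.ax 12 13 14 15 2), .t 1 (nat_lit 0) (.ax 12 13 14 15 3), .t 1 (nat_lit 0) (.ax 12 13 14 15 4), .t 1 (nat_lit 0) (.ax 12 13 14 15 5), .t 1 (nat_lit 0) (.ax 12 13 14 15 6), .t 1 (nat_lit 0) (.ax 12 13 14 15 7), .t 1 (nat_lit 0) (.ax 12 13 14 16 0), .t 1 (nat_lit 0) (.ax 12 13 14 16 1), .t 1 (nat_lit 0) (.ax 12 13 14 16 2), .t 1 (nat_lit 0) (.ax 12 13 14 16 3), .t 1 (nat_lit 0) (.ax 12 13 14 16 4), .t 1 (nat_lit 0) (.ax 12 13 14 16 5), .t 1 (nat_lit 0) (.ax 12 13 14 16 6), .t 1 (nat_lit 0) (.ax 12 13 14 16 7), .t 1 (nat_lit 0) (.ax 12 13 14 17 1), .t 1 (nat_lit 0)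 (.ax 12 13 14 17 3), .t 1 (nat_lit 0) (.ax 12 13 14 17 4), .t 1 (nat_lit 0) (.ax 12 13 14 17 5), .t 1 (nat_lit 0) (.ax 12 13 14 17 7), .t 1 (nat_lit 0) (.ax 12 13 14 18 0), .t 1 (nat_lit 0) (.ax 12 13 14 18 1), .t 1 (nat_lit 0) (.ax 12 13 14 18 3), .t 1 (nat_lit 0) (.ax 12 13 14 18 4), .t 1 (nat_lit 0) (.ax 12 13 14 18 5), .t 1 (nat_lit 0) (.ax 12 13 14 18 7), .t 1 (nat_lit 0) (.ax 12 13 14 19 0), .t 1 (nat_lit 0) (.ax 12 13 14 19 1)] (by decide +kernel) (by decide +kernel)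
theorem b89 : B 2848 2880 := Blk.of_chk [.t 1 (nat_lit 0) (.ax 12 13 14 19 2), .t 1 (nat_lit 0) (.ax 12 13 14 19 3), .t 1 (nat_lit 0) (.ax 12 13 14 19 4), .t 1 (nat_lit 0) (.ax 12 13 14 19 5), .t 1 (nat_lit 0) (.ax 12 13 14 19 6), .t 1 (nat_lit 0) (.ax 12 13 14 19 7), .t 1 (nat_lit 0) (.ax 12 13 14 20 0), .t 1 (nat_lit 0) (.ax 12 13 14 20 1), .t 1 (nat_lit 0) (.ax 12 13 14 20 2), .t 1 (nat_lit 0) (.ax 12 13 14 20 4), .t 1 (nat_lit 0) (.ax 12 13 14 20 5), .t 1 (nat_lit 0) (.ax 12 13 14 20 6), .t 1 (nat_lit 0) (.ax 12 13 14 20 7), .t 1 (nat_lit 0) (.ax 12 13 14 21 0), .t 1 (nat_lit 0) (.ax 12 13 14 21 1), .t 1 (nat_lit 0) (.ax 12 13 14 21 2), .t 1 (nat_lit 0) (.ax 12 13 14 21 3), .t 1 (nat_lit 0) (.ax 12 13 14 21 4), .t 1 (nat_lit 0) (.ax 12 13 14 21 5), .t 1 (nat_lit 0) (.ax 12 13 14 21 6), .t 1 (nat_lit 0)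 (.ax 12 13 14 21 7), .t 1 (nat_lit 0) (.ax 12 13 14 22 1), .t 1 (nat_lit 0) (.ax 12 13 14 22 2), .t 1 (nat_lit 0) (.ax 12 13 14 22 3), .t 1 (nat_lit 0) (.ax 12 13 14 22 4), .t 1 (nat_lit 0) (.ax 12 13 14 22 5), .t 1 (nat_lit 0) (.ax 12 13 14 22 7), .t 1 (nat_lit 0) (.ax 12 13 15 16 0), .t 1 (nat_lit 0) (.ax 12 13 15 16 1), .t 1 (nat_lit 0) (.ax 12 13 15 16 2), .t 1 (nat_lit 0) (.ax 12 13 15 16 3), .t 1 (nat_lit 0) (.ax 12 13 15 16 4)] (by decide +kernel) (by decide +kernel)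
theorem b90 : B 2880 2912 := Blk.of_chk [.t 1 (nat_lit 0) (.ax 12 13 15 16 5), .t 1 (nat_lit 0) (.ax 12 13 15 16 6), .t 1 (nat_lit 0) (.ax 12 13 15 16 7), .t 1 (nat_lit 0) (.ax 12 13 15 17 0), .t 1 (nat_lit 0) (.ax 12 13 15 17 1), .t 1 (nat_lit 0) (.ax 12 13 15 17 2), .t 1 (nat_lit 0) (.ax 12 13 15 17 4), .t 1 (nat_lit 0) (.ax 12 13 15 17 5), .t 1 (nat_lit 0) (.ax 12 13 15 17 6), .t 1 (nat_lit 0) (.ax 12 13 15 18 1), .t 1 (nat_lit 0) (.ax 12 13 15 18 2), .t 1 (nat_lit 0) (.ax 12 13 15 18 3), .t 1 (nat_lit 0) (.ax 12 13 15 18 4), .t 1 (nat_lit 0) (.ax 12 13 15 18 6), .t 1 (nat_lit 0) (.ax 12 13 15 19 0), .t 1 (nat_lit 0) (.ax 12 13 15 19 1), .t 1 (nat_lit 0) (.ax 12 13 15 19 2), .t 1 (nat_lit 0) (.ax 12 13 15 19 3), .t 1 (nat_lit 0) (.ax 12 13 15 19 4), .t 1 (nat_lit 0) (.ax 12 13 15 19 6), .t 1 (nat_lit 0)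 (.ax 12 13 15 20 3), .t 1 (nat_lit 0) (.ax 12 13 15 20 6), .t 1 (nat_lit 0) (.ax 12 13 15 21 0), .t 1 (nat_lit 0) (.ax 12 13 15 21 2), .t 1 (nat_lit 0) (.ax 12 13 15 22 0), .t 1 (nat_lit 0) (.ax 12 13 15 22 2), .t 1 (nat_lit 0) (.ax 12 13 15 22 4), .t 1 (nat_lit 0) (.ax 12 13 15 22 5), .t 1 (nat_lit 0) (.ax 12 13 16 17 1), .t 1 (nat_lit 0) (.ax 12 13 16 17 2), .t 1 (nat_lit 0) (.ax 12 13 16 17 4), .t 1 (nat_lit 0) (.ax 12 13 16 18 1)] (by decide +kernel) (by decide +kernel)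
theorem b91 : B 2912 2944 := Blk.of_chk [.t 1 (nat_lit 0) (.ax 12 13 16 18 2), .t 1 (nat_lit 0) (.ax 12 13 16 18 4), .t 1 (nat_lit 0) (.ax 12 13 16 19 4), .t 1 (nat_lit 0) (.ax 12 13 16 20 4), .t 1 (nat_lit 0) (.ax 12 13 16 21 4), .t 1 (nat_lit 0) (.ax 12 13 16 21 6), .t 1 (nat_lit 0) (.ax 12 13 16 22 4), .t 1 (nat_lit 0) (.ax 12 13 17 18 2), .t 1 (nat_lit 0) (.ax 12 13 17 18 4), .t 1 (nat_lit 0) (.ax 12 13 17 18 6), .t 1 (nat_lit 0) (.ax 12 13 17 19 0), .t 1 (nat_lit 0) (.ax 12 13 17 19 1), .t 1 (nat_lit 0) (.ax 12 13 17 19 2), .t 1 (nat_lit 0) (.ax 12 13 17 19 4), .t 1 (nat_lit 0) (.ax 12 13 17 19 5), .t 1 (nat_lit 0) (.ax 12 13 17 19 6), .t 1 (nat_lit 0) (.ax 12 13 17 20 1), .t 1 (nat_lit 0) (.ax 12 13 17 20 3), .t 1 (nat_lit 0) (.ax 12 13 17 20 4), .t 1 (nat_lit 0) (.ax 12 13 17 21 2), .t 1 (nat_lit 0)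 (.ax 12 13 17 21 4), .t 1 (nat_lit 0) (.ax 12 13 17 22 2), .t 1 (nat_lit 0) (.ax 12 13 17 22 4), .t 1 (nat_lit 0) (.ax 12 13 17 22 6), .t 1 (nat_lit 0) (.ax 12 13 18 19 1), .t 1 (nat_lit 0) (.ax 12 13 18 19 2), .t 1 (nat_lit 0) (.ax 12 13 18 19 3), .t 1 (nat_lit 0) (.ax 12 13 18 19 4), .t 1 (nat_lit 0) (.ax 12 13 18 19 5), .t 1 (nat_lit 0) (.ax 12 13 18 19 6), .t 1 (nat_lit 0) (.ax 12 13 18 20 3), .t 1 (nat_lit 0) (.ax 12 13 18 20 6)] (by decide +kernel) (by decide +kernel)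
theorem b92 : B 2944 2976 := Blk.of_chk [.t 1 (nat_lit 0) (.ax 12 13 18 21 2), .t 1 (nat_lit 0) (.ax 12 13 18 21 4), .t 1 (nat_lit 0) (.ax 12 13 18 21 6), .t 1 (nat_lit 0) (.ax 12 13 18 22 1), .t 1 (nat_lit 0) (.ax 12 13 18 22 2), .t 1 (nat_lit 0) (.ax 12 13 18 22 3), .t 1 (nat_lit 0) (.ax 12 13 18 22 6), .t 1 (nat_lit 0) (.ax 12 13 19 20 4), .t 1 (nat_lit 0) (.ax 12 13 19 21 4), .t 1 (nat_lit 0) (.ax 12 13 19 21 6), .t 1 (nat_lit 0) (.ax 12 13 19 22 4), .t 1 (nat_lit 0) (.ax 12 13 20 21 4), .t 1 (nat_lit 0) (.ax 12 13 20 21 6), .t 1 (nat_lit 0) (.ax 12 13 20 22 4), .t 1 (nat_lit 0) (.ax 12 13 21 22 5), .t 1 (nat_lit 0) (.ax 12 14 15 16 0), .t 1 (nat_lit 0) (.ax 12 14 15 16 1), .t 1 (nat_lit 0) (.ax 12 14 15 16 2), .t 1 (nat_lit 0) (.ax 12 14 15 16 3), .t 1 (nat_lit 0) (.ax 12 14 15 16 4), .t 1 (nat_lit 0)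 (.ax 12 14 15 16 5), .t 1 (nat_lit 0) (.ax 12 14 15 16 6), .t 1 (nat_lit 0) (.ax 12 14 15 16 7), .t 1 (nat_lit 0) (.ax 12 14 15 17 0), .t 1 (nat_lit 0) (.ax 12 14 15 17 1), .t 1 (nat_lit 0) (.ax 12 14 15 17 2), .t 1 (nat_lit 0) (.ax 12 14 15 17 3), .t 1 (nat_lit 0) (.ax 12 14 15 17 4), .t 1 (nat_lit 0) (.ax 12 14 15 17 5), .t 1 (nat_lit 0) (.ax 12 14 15 18 0), .t 1 (nat_lit 0) (.ax 12 14 15 18 1), .t 1 (nat_lit 0) (.ax 12 14 15 18 2)] (by decide +kernel) (by decide +kernel)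
theorem b93 : B 2976 3008 := Blk.of_chk [.t 1 (nat_lit 0) (.ax 12 14 15 18 4), .t 1 (nat_lit 0) (.ax 12 14 15 19 0), .t 1 (nat_lit 0) (.ax 12 14 15 19 1), .t 1 (nat_lit 0) (.ax 12 14 15 19 2), .t 1 (nat_lit 0) (.ax 12 14 15 19 4), .t 1 (nat_lit 0) (.ax 12 14 15 19 7), .t 1 (nat_lit 0) (.ax 12 14 15 20 4), .t 1 (nat_lit 0) (.ax 12 14 15 21 0), .t 1 (nat_lit 0) (.ax 12 14 15 21 2), .t 1 (nat_lit 0) (.ax 12 14 15 21 4), .t 1 (nat_lit 0) (.ax 12 14 15 22 5), .t 1 (nat_lit 0) (.ax 12 14 16 17 1), .t 1 (nat_lit 0) (.ax 12 14 16 17 2), .t 1 (nat_lit 0) (.ax 12 14 16 17 4), .t 1 (nat_lit 0) (.ax 12 14 16 18 1), .t 1 (nat_lit 0) (.ax 12 14 16 18 2), .t 1 (nat_lit 0) (.ax 12 14 16 18 4), .t 1 (nat_lit 0) (.ax 12 14 16 19 4), .t 1 (nat_lit 0) (.ax 12 14 16 20 4), .t 1 (nat_lit 0) (.ax 12 14 16 21 4), .t 1 (nat_lit 0)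 (.ax 12 14 16 21 6), .t 1 (nat_lit 0) (.ax 12 14 17 18 2), .t 1 (nat_lit 0) (.ax 12 14 17 18 4), .t 1 (nat_lit 0) (.ax 12 14 17 18 6), .t 1 (nat_lit 0) (.ax 12 14 17 19 0), .t 1 (nat_lit 0) (.ax 12 14 17 19 1), .t 1 (nat_lit 0) (.ax 12 14 17 19 2), .t 1 (nat_lit 0) (.ax 12 14 17 19 3), .t 1 (nat_lit 0) (.ax 12 14 17 19 4), .t 1 (nat_lit 0) (.ax 12 14 17 19 5), .t 1 (nat_lit 0) (.ax 12 14 17 20 2), .t 1 (nat_lit 0) (.ax 12 14 17 20 4)] (by decide +kernel) (by decide +kernel)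
theorem b94 : B 3008 3040 := Blk.of_chk [.t 1 (nat_lit 0) (.ax 12 14 17 20 5), .t 1 (nat_lit 0) (.ax 12 14 17 21 2), .t 1 (nat_lit 0) (.ax 12 14 17 21 4), .t 1 (nat_lit 0) (.ax 12 14 17 22 2), .t 1 (nat_lit 0) (.ax 12 14 17 22 4), .t 1 (nat_lit 0) (.ax 12 14 17 22 5), .t 1 (nat_lit 0) (.ax 12 14 17 22 6), .t 1 (nat_lit 0) (.ax 12 14 18 19 0), .t 1 (nat_lit 0) (.ax 12 14 18 19 1), .t 1 (nat_lit 0) (.ax 12 14 18 19 2), .t 1 (nat_lit 0) (.ax 12 14 18 19 3), .t 1 (nat_lit 0) (.ax 12 14 18 19 4), .t 1 (nat_lit 0) (.ax 12 14 18 19 5), .t 1 (nat_lit 0) (.ax 12 14 18 19 6), .t 1 (nat_lit 0) (.ax 12 14 18 20 3), .t 1 (nat_lit 0) (.ax 12 14 18 21 2), .t 1 (nat_lit 0) (.ax 12 14 18 21 4), .t 1 (nat_lit 0) (.ax 12 14 18 22 4), .t 1 (nat_lit 0) (.ax 12 14 18 22 6), .t 1 (nat_lit 0) (.ax 12 14 19 20 4), .t 1 (nat_lit 0)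 (.ax 12 14 19 20 6), .t 1 (nat_lit 0) (.ax 12 14 19 21 4), .t 1 (nat_lit 0) (.ax 12 14 19 22 4), .t 1 (nat_lit 0) (.ax 12 14 20 21 4), .t 1 (nat_lit 0) (.ax 12 14 20 22 4), .t 1 (nat_lit 0) (.ax 12 14 21 22 5), .t 1 (nat_lit 0) (.ax 12 15 16 17 1), .t 1 (nat_lit 0) (.ax 12 15 16 17 2), .t 1 (nat_lit 0) (.ax 12 15 16 17 4), .t 1 (nat_lit 0) (.ax 12 15 16 18 1), .t 1 (nat_lit 0) (.ax 12 15 16 18 2), .t 1 (nat_lit 0) (.ax 12 15 16 18 4)] (by decide +kernel) (by decide +kernel)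
theorem b95 : B 3040 3072 := Blk.of_chk [.t 1 (nat_lit 0) (.ax 12 15 16 19 4), .t 1 (nat_lit 0) (.ax 12 15 16 20 4), .t 1 (nat_lit 0) (.ax 12 15 16 21 4), .t 1 (nat_lit 0) (.ax 12 15 17 19 1), .t 1 (nat_lit 0) (.ax 12 15 17 19 2), .t 1 (nat_lit 0) (.ax 12 15 17 19 4), .t 1 (nat_lit 0) (.ax 12 15 17 20 2), .t 1 (nat_lit 0) (.ax 12 15 17 20 3), .t 1 (nat_lit 0) (.ax 12 15 17 20 5), .t 1 (nat_lit 0) (.ax 12 15 17 21 2), .t 1 (nat_lit 0) (.ax 12 15 17 21 4), .t 1 (nat_lit 0) (.ax 12 15 17 22 2), .t 1 (nat_lit 0) (.ax 12 15 18 19 1), .t 1 (nat_lit 0) (.ax 12 15 18 19 2), .t 1 (nat_lit 0) (.ax 12 15 18 19 4), .t 1 (nat_lit 0) (.ax 12 15 18 19 6), .t 1 (nat_lit 0) (.ax 12 15 18 20 3), .t 1 (nat_lit 0) (.ax 12 15 18 20 5), .t 1 (nat_lit 0) (.ax 12 15 18 21 0), .t 1 (nat_lit 0) (.ax 12 15 18 21 2), .t 1 (nat_lit 0)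 (.ax 12 15 18 21 4), .t 1 (nat_lit 0) (.ax 12 15 18 22 4), .t 1 (nat_lit 0) (.ax 12 15 19 20 4), .t 1 (nat_lit 0) (.ax 12 16 17 18 0), .t 1 (nat_lit 0) (.ax 12 16 17 18 2), .t 1 (nat_lit 0) (.ax 12 16 17 18 4), .t 1 (nat_lit 0) (.ax 12 16 17 22 0), .t 1 (nat_lit 0) (.ax 12 16 19 21 0), .t 1 (nat_lit 0) (.ax 12 17 18 19 0), .t 1 (nat_lit 0) (.ax 12 17 18 19 1), .t 1 (nat_lit 0) (.ax 12 17 18 19 2), .t 1 (nat_lit 0) (.ax 12 17 18 19 4)] (by decide +kernel) (by decide +kernel)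
theorem b96 : B 3072 3104 := Blk.of_chk [.t 1 (nat_lit 0) (.ax 12 17 18 19 5), .t 1 (nat_lit 0) (.ax 12 17 18 19 6), .t 1 (nat_lit 0) (.ax 12 17 18 22 5), .t 1 (nat_lit 0) (.ax 12 17 19 20 4), .t 1 (nat_lit 0) (.ax 12 17 21 22 5), .t 1 (nat_lit 0) (.ax 12 18 19 20 4), .t 1 (nat_lit 0) (.ax 12 18 19 21 4), .t 1 (nat_lit 0) (.ax 12 18 19 22 4), .t 1 (nat_lit 0) (.ax 12 19 20 21 0), .t 1 (nat_lit 0) (.ax 12 20 21 22 5), .t 1 (nat_lit 0) (.ax 13 14 15 16 0), .t 1 (nat_lit 0) (.ax 13 14 15 16 1), .t 1 (nat_lit 0) (.ax 13 14 15 16 2), .t 1 (nat_lit 0) (.ax 13 14 15 16 3), .t 1 (nat_lit 0) (.ax 13 14 15 16 4), .t 1 (nat_lit 0) (.ax 13 14 15 16 5), .t 1 (nat_lit 0) (.ax 13 14 15 16 6), .t 1 (nat_lit 0) (.ax 13 14 15 16 7), .t 1 (nat_lit 0) (.ax 13 14 15 17 0), .t 1 (nat_lit 0) (.ax 13 14 15 17 1), .t 1 (nat_lit 0)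 (.ax 13 14 15 17 2), .t 1 (nat_lit 0) (.ax 13 14 15 17 3), .t 1 (nat_lit 0) (.ax 13 14 15 17 4), .t 1 (nat_lit 0) (.ax 13 14 15 17 5), .t 1 (nat_lit 0) (.ax 13 14 15 17 6), .t 1 (nat_lit 0) (.ax 13 14 15 17 7), .t 1 (nat_lit 0) (.ax 13 14 15 18 0), .t 1 (nat_lit 0) (.ax 13 14 15 18 1), .t 1 (nat_lit 0) (.ax 13 14 15 18 2), .t 1 (nat_lit 0) (.ax 13 14 15 18 3), .t 1 (nat_lit 0) (.ax 13 14 15 18 4), .t 1 (nat_lit 0) (.ax 13 14 15 18 5)] (by decide +kernel) (by decide +kernel)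
theorem b97 : B 3104 3136 := Blk.of_chk [.t 1 (nat_lit 0) (.ax 13 14 15 18 6), .t 1 (nat_lit 0) (.ax 13 14 15 18 7), .t 1 (nat_lit 0) (.ax 13 14 15 19 0), .t 1 (nat_lit 0) (.ax 13 14 15 19 1), .t 1 (nat_lit 0) (.ax 13 14 15 19 2), .t 1 (nat_lit 0) (.ax 13 14 15 19 3), .t 1 (nat_lit 0) (.ax 13 14 15 19 4), .t 1 (nat_lit 0) (.ax 13 14 15 19 5), .t 1 (nat_lit 0) (.ax 13 14 15 19 6), .t 1 (nat_lit 0) (.ax 13 14 15 19 7), .t 1 (nat_lit 0) (.ax 13 14 15 20 0), .t 1 (nat_lit 0) (.ax 13 14 15 20 2), .t 1 (nat_lit 0) (.ax 13 14 15 20 4), .t 1 (nat_lit 0) (.ax 13 14 15 20 5), .t 1 (nat_lit 0) (.ax 13 14 15 20 6), .t 1 (nat_lit 0) (.ax 13 14 15 21 0), .t 1 (nat_lit 0) (.ax 13 14 15 21 2), .t 1 (nat_lit 0) (.ax 13 14 15 21 4), .t 1 (nat_lit 0) (.ax 13 14 15 21 5), .t 1 (nat_lit 0) (.ax 13 14 15 21 7), .t 1 (nat_lit 0)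 (.ax 13 14 15 22 0), .t 1 (nat_lit 0) (.ax 13 14 15 22 2), .t 1 (nat_lit 0) (.ax 13 14 15 22 4), .t 1 (nat_lit 0) (.ax 13 14 15 22 6), .t 1 (nat_lit 0) (.ax 13 14 16 17 1), .t 1 (nat_lit 0) (.ax 13 14 16 17 2), .t 1 (nat_lit 0) (.ax 13 14 16 17 4), .t 1 (nat_lit 0) (.ax 13 14 16 17 6), .t 1 (nat_lit 0) (.ax 13 14 16 18 1), .t 1 (nat_lit 0) (.ax 13 14 16 18 2), .t 1 (nat_lit 0) (.ax 13 14 16 18 4), .t 1 (nat_lit 0) (.ax 13 14 16 19 4)] (by decide +kernel) (by decide +kernel)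
theorem b98 : B 3136 3168 := Blk.of_chk [.t 1 (nat_lit 0) (.ax 13 14 16 20 4), .t 1 (nat_lit 0) (.ax 13 14 16 21 4), .t 1 (nat_lit 0) (.ax 13 14 16 21 6), .t 1 (nat_lit 0) (.ax 13 14 16 22 4), .t 1 (nat_lit 0) (.ax 13 14 17 18 0), .t 1 (nat_lit 0) (.ax 13 14 17 18 1), .t 1 (nat_lit 0) (.ax 13 14 17 18 2), .t 1 (nat_lit 0) (.ax 13 14 17 18 3), .t 1 (nat_lit 0) (.ax 13 14 17 18 4), .t 1 (nat_lit 0) (.ax 13 14 17 18 5), .t 1 (nat_lit 0) (.ax 13 14 17 18 6), .t 1 (nat_lit 0) (.ax 13 14 17 19 0), .t 1 (nat_lit 0) (.ax 13 14 17 19 1), .t 1 (nat_lit 0) (.ax 13 14 17 19 2), .t 1 (nat_lit 0) (.ax 13 14 17 19 3), .t 1 (nat_lit 0) (.ax 13 14 17 19 4), .t 1 (nat_lit 0) (.ax 13 14 17 19 5), .t 1 (nat_lit 0) (.ax 13 14 17 20 0), .t 1 (nat_lit 0) (.ax 13 14 17 20 2), .t 1 (nat_lit 0) (.ax 13 14 17 20 4), .t 1 (nat_lit 0)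 (.ax 13 14 17 21 0), .t 1 (nat_lit 0) (.ax 13 14 17 21 4), .t 1 (nat_lit 0) (.ax 13 14 17 22 2), .t 1 (nat_lit 0) (.ax 13 14 17 22 4), .t 1 (nat_lit 0) (.ax 13 14 18 19 0), .t 1 (nat_lit 0) (.ax 13 14 18 19 1), .t 1 (nat_lit 0) (.ax 13 14 18 19 2), .t 1 (nat_lit 0) (.ax 13 14 18 19 3), .t 1 (nat_lit 0) (.ax 13 14 18 19 4), .t 1 (nat_lit 0) (.ax 13 14 18 19 5), .t 1 (nat_lit 0) (.ax 13 14 18 21 0), .t 1 (nat_lit 0) (.ax 13 14 18 21 2)] (by decide +kernel) (by decide +kernel)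
theorem b99 : B 3168 3200 := Blk.of_chk [.t 1 (nat_lit 0) (.ax 13 14 18 21 4), .t 1 (nat_lit 0) (.ax 13 14 18 21 6), .t 1 (nat_lit 0) (.ax 13 14 18 22 2), .t 1 (nat_lit 0) (.ax 13 14 18 22 4), .t 1 (nat_lit 0) (.ax 13 14 19 20 4), .t 1 (nat_lit 0) (.ax 13 14 19 20 6), .t 1 (nat_lit 0) (.ax 13 14 19 21 4), .t 1 (nat_lit 0) (.ax 13 14 19 22 4), .t 1 (nat_lit 0) (.ax 13 14 19 22 6), .t 1 (nat_lit 0) (.ax 13 14 20 21 4), .t 1 (nat_lit 0) (.ax 13 14 20 22 4), .t 1 (nat_lit 0) (.ax 13 14 21 22 5), .t 1 (nat_lit 0) (.ax 13 15 16 17 1), .t 1 (nat_lit 0) (.ax 13 15 16 17 2), .t 1 (nat_lit 0) (.ax 13 15 16 17 4), .t 1 (nat_lit 0) (.ax 13 15 16 18 1), .t 1 (nat_lit 0) (.ax 13 15 16 18 2), .t 1 (nat_lit 0) (.ax 13 15 16 18 4), .t 1 (nat_lit 0) (.ax 13 15 16 19 4), .t 1 (nat_lit 0) (.ax 13 15 16 20 4), .t 1 (nat_lit 0)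 (.ax 13 15 16 20 6), .t 1 (nat_lit 0) (.ax 13 15 16 21 4), .t 1 (nat_lit 0) (.ax 13 15 16 22 4), .t 1 (nat_lit 0) (.ax 13 15 17 18 0), .t 1 (nat_lit 0) (.ax 13 15 17 18 3), .t 1 (nat_lit 0) (.ax 13 15 17 18 5), .t 1 (nat_lit 0) (.ax 13 15 17 19 0), .t 1 (nat_lit 0) (.ax 13 15 17 19 1), .t 1 (nat_lit 0) (.ax 13 15 17 19 2), .t 1 (nat_lit 0) (.ax 13 15 17 19 4), .t 1 (nat_lit 0) (.ax 13 15 17 19 5), .t 1 (nat_lit 0) (.ax 13 15 17 19 6)] (by decide +kernel) (by decide +kernel)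
theorem b100 : B 3200 3232 := Blk.of_chk [.t 1 (nat_lit 0) (.ax 13 15 17 20 0), .t 1 (nat_lit 0) (.ax 13 15 17 20 2), .t 1 (nat_lit 0) (.ax 13 15 17 21 0), .t 1 (nat_lit 0) (.ax 13 15 17 21 2), .t 1 (nat_lit 0) (.ax 13 15 17 21 4), .t 1 (nat_lit 0) (.ax 13 15 17 22 0), .t 1 (nat_lit 0) (.ax 13 15 17 22 2), .t 1 (nat_lit 0) (.ax 13 15 18 19 0), .t 1 (nat_lit 0) (.ax 13 15 18 19 1), .t 1 (nat_lit 0) (.ax 13 15 18 19 2), .t 1 (nat_lit 0) (.ax 13 15 18 19 4), .t 1 (nat_lit 0) (.ax 13 15 18 19 5), .t 1 (nat_lit 0) (.ax 13 15 18 19 6), .t 1 (nat_lit 0) (.ax 13 15 18 20 1), .t 1 (nat_lit 0) (.ax 13 15 18 20 2), .t 1 (nat_lit 0) (.ax 13 15 18 20 5), .t 1 (nat_lit 0) (.ax 13 15 18 21 0), .t 1 (nat_lit 0) (.ax 13 15 18 21 2), .t 1 (nat_lit 0) (.ax 13 15 18 21 4), .t 1 (nat_lit 0) (.ax 13 15 18 22 1), .t 1 (nat_lit 0)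 (.ax 13 15 18 22 2), .t 1 (nat_lit 0) (.ax 13 15 18 22 4), .t 1 (nat_lit 0) (.ax 13 15 18 22 6), .t 1 (nat_lit 0) (.ax 13 15 19 20 4), .t 1 (nat_lit 0) (.ax 13 15 19 21 4), .t 1 (nat_lit 0) (.ax 13 15 19 22 4), .t 1 (nat_lit 0) (.ax 13 15 19 22 6), .t 1 (nat_lit 0) (.ax 13 15 20 21 4), .t 1 (nat_lit 0) (.ax 13 15 20 22 4), .t 1 (nat_lit 0) (.ax 13 15 20 22 6), .t 1 (nat_lit 0) (.ax 13 16 17 18 0), .t 1 (nat_lit 0) (.ax 13 16 17 18 2)] (by decide +kernel) (by decide +kernel)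
theorem b101 : B 3232 3264 := Blk.of_chk [.t 1 (nat_lit 0) (.ax 13 16 17 18 4), .t 1 (nat_lit 0) (.ax 13 16 17 18 5), .t 1 (nat_lit 0) (.ax 13 16 17 22 0), .t 1 (nat_lit 0) (.ax 13 16 18 22 0), .t 1 (nat_lit 0) (.ax 13 16 19 21 0), .t 1 (nat_lit 0) (.ax 13 17 18 19 0), .t 1 (nat_lit 0) (.ax 13 17 18 19 1), .t 1 (nat_lit 0) (.ax 13 17 18 19 2), .t 1 (nat_lit 0) (.ax 13 17 18 19 4), .t 1 (nat_lit 0) (.ax 13 17 18 19 5), .t 1 (nat_lit 0) (.ax 13 17 18 20 0), .t 1 (nat_lit 0) (.ax 13 17 18 20 1), .t 1 (nat_lit 0) (.ax 13 17 18 20 4), .t 1 (nat_lit 0) (.ax 13 17 18 20 6), .t 1 (nat_lit 0) (.ax 13 17 18 22 4), .t 1 (nat_lit 0) (.ax 13 17 19 20 4), .t 1 (nat_lit 0) (.ax 13 17 19 20 6), .t 1 (nat_lit 0) (.ax 13 17 20 22 4), .t 1 (nat_lit 0) (.ax 13 17 20 22 6), .t 1 (nat_lit 0) (.ax 13 17 21 22 5), .t 1 (nat_lit 0)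 (.ax 13 18 19 20 4), .t 1 (nat_lit 0) (.ax 13 18 19 20 6), .t 1 (nat_lit 0) (.ax 13 18 19 22 4), .t 1 (nat_lit 0) (.ax 13 18 20 22 4), .t 1 (nat_lit 0) (.ax 13 18 21 22 5), .t 1 (nat_lit 0) (.ax 13 19 20 21 0), .t 1 (nat_lit 0) (.ax 13 20 21 22 5), .t 1 (nat_lit 0) (.ax 14 15 16 17 1), .t 1 (nat_lit 0) (.ax 14 15 16 17 2), .t 1 (nat_lit 0) (.ax 14 15 16 17 4), .t 1 (nat_lit 0) (.ax 14 15 16 18 1), .t 1 (nat_lit 0) (.ax 14 15 16 18 2)] (by decide +kernel) (by decide +kernel)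
theorem b102 : B 3264 3296 := Blk.of_chk [.t 1 (nat_lit 0) (.ax 14 15 16 18 4), .t 1 (nat_lit 0) (.ax 14 15 16 19 4), .t 1 (nat_lit 0) (.ax 14 15 16 20 4), .t 1 (nat_lit 0) (.ax 14 15 16 21 4), .t 1 (nat_lit 0) (.ax 14 15 16 22 4), .t 1 (nat_lit 0) (.ax 14 15 17 18 0), .t 1 (nat_lit 0) (.ax 14 15 17 18 1), .t 1 (nat_lit 0) (.ax 14 15 17 18 2), .t 1 (nat_lit 0) (.ax 14 15 17 18 3), .t 1 (nat_lit 0) (.ax 14 15 17 18 4), .t 1 (nat_lit 0) (.ax 14 15 17 18 5), .t 1 (nat_lit 0) (.ax 14 15 17 19 0), .t 1 (nat_lit 0) (.ax 14 15 17 19 1), .t 1 (nat_lit 0) (.ax 14 15 17 19 2), .t 1 (nat_lit 0) (.ax 14 15 17 19 3), .t 1 (nat_lit 0) (.ax 14 15 17 19 4), .t 1 (nat_lit 0) (.ax 14 15 17 19 5), .t 1 (nat_lit 0) (.ax 14 15 17 19 6), .t 1 (nat_lit 0) (.ax 14 15 17 20 1), .t 1 (nat_lit 0) (.ax 14 15 17 20 2), .t 1 (nat_lit 0)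 (.ax 14 15 17 20 6), .t 1 (nat_lit 0) (.ax 14 15 17 21 0), .t 1 (nat_lit 0) (.ax 14 15 17 21 2), .t 1 (nat_lit 0) (.ax 14 15 17 21 4), .t 1 (nat_lit 0) (.ax 14 15 17 22 2), .t 1 (nat_lit 0) (.ax 14 15 18 19 0), .t 1 (nat_lit 0) (.ax 14 15 18 19 1), .t 1 (nat_lit 0) (.ax 14 15 18 19 2), .t 1 (nat_lit 0) (.ax 14 15 18 19 4), .t 1 (nat_lit 0) (.ax 14 15 18 19 5), .t 1 (nat_lit 0) (.ax 14 15 18 19 6), .t 1 (nat_lit 0) (.ax 14 15 18 20 1)] (by decide +kernel) (by decide +kernel)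
theorem b103 : B 3296 3328 := Blk.of_chk [.t 1 (nat_lit 0) (.ax 14 15 18 20 2), .t 1 (nat_lit 0) (.ax 14 15 18 20 4), .t 1 (nat_lit 0) (.ax 14 15 18 20 5), .t 1 (nat_lit 0) (.ax 14 15 18 21 0), .t 1 (nat_lit 0) (.ax 14 15 18 21 2), .t 1 (nat_lit 0) (.ax 14 15 18 21 4), .t 1 (nat_lit 0) (.ax 14 15 18 22 2), .t 1 (nat_lit 0) (.ax 14 15 18 22 4), .t 1 (nat_lit 0) (.ax 14 15 19 21 4), .t 1 (nat_lit 0) (.ax 14 15 19 22 4), .t 1 (nat_lit 0) (.ax 14 15 20 21 4), .t 1 (nat_lit 0) (.ax 14 15 20 22 6), .t 1 (nat_lit 0) (.ax 14 15 21 22 5), .t 1 (nat_lit 0) (.ax 14 16 17 18 0), .t 1 (nat_lit 0) (.ax 14 16 17 18 2), .t 1 (nat_lit 0) (.ax 14 16 17 18 4), .t 1 (nat_lit 0) (.ax 14 16 17 18 5), .t 1 (nat_lit 0) (.ax 14 16 18 22 0), .t 1 (nat_lit 0) (.ax 14 16 19 21 0), .t 1 (nat_lit 0) (.ax 14 17 18 19 0), .t 1 (nat_lit 0)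 (.ax 14 17 18 19 1), .t 1 (nat_lit 0) (.ax 14 17 18 19 2), .t 1 (nat_lit 0) (.ax 14 17 18 19 4), .t 1 (nat_lit 0) (.ax 14 17 18 19 5), .t 1 (nat_lit 0) (.ax 14 17 18 19 6), .t 1 (nat_lit 0) (.ax 14 17 18 20 0), .t 1 (nat_lit 0) (.ax 14 17 18 20 1), .t 1 (nat_lit 0) (.ax 14 17 18 20 2), .t 1 (nat_lit 0) (.ax 14 17 18 20 4), .t 1 (nat_lit 0) (.ax 14 17 18 22 4), .t 1 (nat_lit 0) (.ax 14 17 18 22 6), .t 1 (nat_lit 0) (.ax 14 17 19 20 4)] (by decide +kernel) (by decide +kernel)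
theorem b104 : B 3328 3360 := Blk.of_chk [.t 1 (nat_lit 0) (.ax 14 17 19 20 6), .t 1 (nat_lit 0) (.ax 14 17 19 21 4), .t 1 (nat_lit 0) (.ax 14 17 19 22 4), .t 1 (nat_lit 0) (.ax 14 17 19 22 6), .t 1 (nat_lit 0) (.ax 14 17 20 22 4), .t 1 (nat_lit 0) (.ax 14 17 21 22 5), .t 1 (nat_lit 0) (.ax 14 18 19 20 4), .t 1 (nat_lit 0) (.ax 14 18 19 20 6), .t 1 (nat_lit 0) (.ax 14 18 19 22 4), .t 1 (nat_lit 0) (.ax 14 18 20 22 4), .t 1 (nat_lit 0) (.ax 14 18 21 22 5), .t 1 (nat_lit 0) (.ax 14 19 20 21 0), .t 1 (nat_lit 0) (.ax 14 20 21 22 5), .t 1 (nat_lit 0) (.ax 15 16 17 18 0), .t 1 (nat_lit 0) (.ax 15 16 17 18 2), .t 1 (nat_lit 0) (.ax 15 16 17 18 4), .t 1 (nat_lit 0) (.ax 15 16 17 18 5), .t 1 (nat_lit 0) (.ax 15 16 17 21 2), .t 1 (nat_lit 0) (.ax 15 16 17 21 4), .t 1 (nat_lit 0) (.ax 15 16 18 21 0), .t 1 (nat_lit 0)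 (.ax 15 16 18 21 5), .t 1 (nat_lit 0) (.ax 15 16 18 22 0), .t 1 (nat_lit 0) (.ax 15 16 19 21 0), .t 1 (nat_lit 0) (.ax 15 17 18 19 0), .t 1 (nat_lit 0) (.ax 15 17 18 19 1), .t 1 (nat_lit 0) (.ax 15 17 18 19 4), .t 1 (nat_lit 0) (.ax 15 17 18 19 5), .t 1 (nat_lit 0) (.ax 15 17 18 19 6), .t 1 (nat_lit 0) (.ax 15 17 18 19 7), .t 1 (nat_lit 0) (.ax 15 17 18 20 0), .t 1 (nat_lit 0) (.ax 15 17 18 20 1), .t 1 (nat_lit 0) (.ax 15 17 18 20 6)] (by decide +kernel) (by decide +kernel)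
theorem b105 : B 3360 3392 := Blk.of_chk [.t 1 (nat_lit 0) (.ax 15 17 18 20 7), .t 1 (nat_lit 0) (.ax 15 17 18 21 0), .t 1 (nat_lit 0) (.ax 15 17 18 21 5), .t 1 (nat_lit 0) (.ax 15 17 19 20 4), .t 1 (nat_lit 0) (.ax 15 17 19 20 6), .t 1 (nat_lit 0) (.ax 15 17 19 21 4), .t 1 (nat_lit 0) (.ax 15 17 19 22 4), .t 1 (nat_lit 0) (.ax 15 17 20 21 4), .t 1 (nat_lit 0) (.ax 15 17 20 22 4), .t 1 (nat_lit 0) (.ax 15 17 21 22 5), .t 1 (nat_lit 0) (.ax 15 18 19 20 4), .t 1 (nat_lit 0) (.ax 15 18 19 20 6), .t 1 (nat_lit 0) (.ax 15 18 19 22 4), .t 1 (nat_lit 0) (.ax 15 18 20 22 4), .t 1 (nat_lit 0) (.ax 15 18 21 22 5), .t 1 (nat_lit 0) (.ax 15 19 20 21 0), .t 1 (nat_lit 0) (.ax 15 20 21 22 5), .t 1 (nat_lit 0) (.ax 16 17 18 19 2), .t 1 (nat_lit 0) (.ax 16 17 18 19 4), .t 1 (nat_lit 0) (.ax 16 17 18 21 5), .t 1 (nat_lit 0)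 (.ax 16 17 18 22 0), .t 1 (nat_lit 0) (.ax 16 17 18 22 1), .t 1 (nat_lit 0) (.ax 16 17 18 22 3), .t 1 (nat_lit 0) (.ax 16 17 18 22 6), .t 1 (nat_lit 0) (.ax 16 17 18 22 7), .t 1 (nat_lit 0) (.ax 16 17 19 21 3), .t 1 (nat_lit 0) (.ax 16 17 21 22 5), .t 1 (nat_lit 0) (.ax 16 18 19 21 3), .t 1 (nat_lit 0) (.ax 16 18 21 22 5), .t 1 (nat_lit 0) (.ax 17 18 19 20 4), .t 1 (nat_lit 0) (.ax 17 18 19 22 4), .t 1 (nat_lit 0) (.ax 17 19 20 21 0)] (by decide +kernel) (by decide +kernel)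
theorem b106 : B 3392 3424 := Blk.of_chk [.t 1 (nat_lit 0) (.ax 17 20 21 22 5), .t 1 (nat_lit 0) (.ax 18 20 21 22 5), .t 1 (nat_lit 0) (.fa 5), .t 1 (nat_lit 0) (.fa 3), .t 1 (nat_lit 0) (.cn 7 2), .t 8 (nat_lit 0x19f019e019c01d301d101a401a3) (.z (.node 2 4 (.node 0 8 (.free 4 [0,9,10,11,12,13,14,15,16,17,18,19,20,21,22]) (.leaf [2,5,7,8,6])) (.free 1 [1,3,4]))), .t 1 (nat_lit 0) (.fa 5), .t 1 (nat_lit 0) (.cn 4 2), .t 5 (nat_lit 0xd410d310d2a0d29) (.z (.edon 0 15 (.free 4 [0,1,2,3,4,5,6,7,8,9,10,11,12,13,14]) (.node 17 19 (.leaf [15,17,20,22,21]) (.leaf [16,18,19])))), .t 1 (nat_lit 0) (.fa 5), .t 5 (nat_lit 0xd410d310d2a0d29) (.z (.edon 0 15 (.free 4 [0,1,2,3,4,5,6,7,8,9,10,11,12,13,14]) (.node 15 19 (.leaf [15,17,20,22,21]) (.leaf [16,18,19])))), .t 1 (nat_lit 0) (.cn 4 3), .t 1 (nat_lit 0) (.cn 4 3), .t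 1 (nat_lit 0) (.cn 2 3), .t 1 (nat_lit 0) (.fa 2), .t 1 (nat_lit 0) (.cn 1 2), .t 1 (nat_lit 0) (.fa 2), .t 1 (nat_lit 0) (.cn 2 3), .t 7 (nat_lit 0x17d004d0005000107f507f3) (.z (.edon 0 16 (.node 0 12 (.leaf [0,13,14,15]) (.edon 4 8 (.leaf [4,6,7]) (.edon 8 9 (.leaf [8,11,12,10]) (.leaf [1,3,5,9,2])))) (.free 2 [16,17,18,19,20,21,22]))), .t 9 (nat_lit 0x6d706d406cf0c6c0713071006ea06e8) (.z (.edon 0 7 (.free 2 [0,1,2,3,4,5,6]) (.edon 11 22 (.free 2 [11,15,16,17,18,19,20]) (.edon 0 13 (.leaf [7,8,10,12,9]) (.leaf [13,14,22,21]))))), .t 1 (nat_lit 0) (.fa 3), .t 9 (nat_lit 0xc6c065b065a039f039d02c202c0026c) (.z (.edon 0 3 (.free 1 [0,1,2]) (.edon 11 22 (.free 2 [11,15,16,17,18,19,20]) (.edon 0 13 (.node 4 10 (.leaf [3,4,12,9,5]) (.leaf [6,7,8,10])) (.leaf [13,14,22,21]))))), .t 8 (nat_lit 0x89307f507f307aa07a807930791)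 (.z (.node 0 7 (.node 0 12 (.edon 0 16 (.leaf [0,13,14,15]) (.free 2 [16,17,18,19,20,21,22])) (.leaf [8,11,12,10,9])) (.free 2 [1,2,3,4,5,6,7]))), .t 6 (nat_lit 0x1b801b700a500a4001e) (.z (.edon 0 16 (.node 0 12 (.leaf [0,13,14,15]) (.edon 3 9 (.free 2 [3,4,6,7,8,11,12]) (.leaf [1,5,9,10,2]))) (.free 2 [16,17,18,19,20,21,22]))), .t 12 (nat_lit 0xcbb0c0a0b8f0b8e06d40673066e0660065d065b065a) (.z (.node 0 2 (.edon 0 6 (.leaf [0,3,4,5]) (.edon 0 11 (.leaf [6,7,8,10,9]) (.edon 14 20 (.free 2 [11,14,15,16,17,18,19]) (.leaf [12,13,20,22,21])))) (.free 1 [1,2]))), .t 5 (nat_lit 0xcbb0c0a0b8f0b8e) (.z (.node 0 7 (.edon 0 11 (.leaf [0,8,9,10]) (.edon 14 20 (.free 2 [11,14,15,16,17,18,19]) (.leaf [12,13,20,22,21]))) (.free 2 [1,2,3,4,5,6,7]))), .t 1 (nat_lit 0) (.fa 3), .t 1 (nat_lit 0) (.fa 3), .t 1 (nat_lit 0) (.cp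 2 3), .t 1 (nat_lit 0) (.fa 4), .t 1 (nat_lit 0) (.cp 4 3), .t 1 (nat_lit 0) (.fa 4)] (by decide +kernel) (by decide +kernel)
theorem b107 : B 3424 3456 := Blk.of_chk [.t 1 (nat_lit 0) (.cn 2 3), .t 1 (nat_lit 0) (.cn 4 2), .t 5 (nat_lit 0xd280d410d310d2a) (.z (.edon 0 15 (.free 4 [0,1,2,3,4,5,6,7,8,9,10,11,12,13,14]) (.node 15 19 (.leaf [15,20,22,21,17]) (.leaf [16,18,19])))), .t 4 (nat_lit 0x10b750b74) (.z (.node 11 22 (.node 0 11 (.leaf [0,12,13,17,21]) (.edon 4 5 (.free 2 [4,6,7,8,9,10,11]) (.leaf [1,3,5,2]))) (.free 2 [14,15,16,18,19,20,22]))), .t 1 (nat_lit 0) (.cn 4 3), .t 6 (nat_lit 0x1c801c700bf00be001f) (.z (.edon 0 16 (.node 0 12 (.leaf [0,13,14,15]) (.node 5 9 (.leaf [1,5,10,12,2]) (.free 2 [3,4,6,7,8,9,11]))) (.free 2 [16,17,18,19,20,21,22]))), .t 1 (nat_lit 0) (.cp 1 3), .t 1 (nat_lit 0) (.cp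 4 3), .t 6 (nat_lit 0x1bf01be00af00ae001e) (.z (.edon 0 16 (.node 0 12 (.leaf [0,13,14,15]) (.node 5 10 (.leaf [1,5,9,12,2]) (.free 2 [3,4,6,7,8,10,11]))) (.free 2 [16,17,18,19,20,21,22]))), .t 15 (nat_lit 0x352034d034b0d1f0d1a0d1903fb03f6039503930b100b0d0d2b0d24) (.z (.node 0 3 (.node 0 11 (.node 0 20 (.leaf [0,21,22]) (.node 15 16 (.leaf [15,18,19,20,17]) (.leaf [12,14,16,13]))) (.edon 7 10 (.leaf [7,8,11]) (.leaf [4,6,10,9,5]))) (.free 1 [1,2,3]))), .t 8 (nat_lit 0xb9e0b950b900be00bde0bb10bb0) (.z (.edon 21 19 (.node 11 15 (.free 4 [0,1,2,3,4,5,6,7,8,9,10,11,13,17,21]) (.leaf [12,14,16,18,15])) (.free 1 [19,20,22]))), .t 6 (nat_lit 0x35402ab02aa0277026d) (.z (.edon 5 12 (.edon 7 10 (.leaf [7,8,11]) (.leaf [3,4,6,10,5])) (.free 4 [0,1,2,9,12,13,14,15,16,17,18,19,20,21,22]))), .t 7 (nat_lit 0x1e04fc032303210292028f)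 (.z (.edon 0 16 (.node 0 12 (.leaf [0,13,14,15]) (.edon 3 9 (.node 4 8 (.leaf [3,4,11,12,10]) (.leaf [6,7,8])) (.leaf [1,5,9,2]))) (.free 2 [16,17,18,19,20,21,22]))), .t 5 (nat_lit 0x17d004d00050001) (.z (.edon 0 16 (.node 0 12 (.leaf [0,13,14,15]) (.edon 4 9 (.free 2 [4,6,7,8,10,11,12]) (.leaf [1,3,5,9,2]))) (.free 2 [16,17,18,19,20,21,22]))), .t 5 (nat_lit 0x17f004f00080001) (.z (.edon 0 16 (.node 0 12 (.leaf [0,13,14,15]) (.edon 4 12 (.free 2 [4,6,7,8,9,10,11]) (.leaf [1,3,5,12,2]))) (.free 2 [16,17,18,19,20,21,22]))), .t 5 (nat_lit 0x17f004f00080001) (.z (.edon 0 16 (.node 0 12 (.leaf [0,13,14,15]) (.edon 4 5 (.free 2 [4,6,7,8,9,10,11]) (.leaf [1,3,5,12,2]))) (.free 2 [16,17,18,19,20,21,22]))), .t 10 (nat_lit 0x352034d034b03fb03f6039503930b080b06) (.z (.node 0 3 (.node 0 11 (.edon 0 16 (.leaf [0,12,13,14,15])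 (.free 2 [16,17,18,19,20,21,22])) (.edon 7 10 (.leaf [7,8,11]) (.leaf [4,6,10,9,5]))) (.free 1 [1,2,3]))), .t 8 (nat_lit 0xd110cf10cee0ccb0cc60cc10cc0) (.z (.edon 21 19 (.node 11 17 (.free 4 [0,1,2,3,4,5,6,7,8,9,10,11,12,13,21]) (.leaf [14,15,16,18,17])) (.free 1 [19,20,22]))), .t 1 (nat_lit 0) (.cn 4 2), .t 1 (nat_lit 0) (.cp 2 3), .t 5 (nat_lit 0x8a208a00840083d) (.z (.node 0 7 (.edon 0 16 (.edon 8 12 (.leaf [8,11,15,14]) (.leaf [0,9,10,12,13])) (.free 2 [16,17,18,19,20,21,22])) (.free 2 [1,2,3,4,5,6,7]))), .t 8 (nat_lit 0x7fc07f507f308340833080f080d) (.z (.node 12 3 (.edon 0 8 (.leaf [4,6,7]) (.leaf [8,11,15,12,10])) (.free 4 [0,1,2,3,5,9,13,14,16,17,18,19,20,21,22]))), .t 1 (nat_lit 0) (.cn 2 3), .t 8 (nat_lit 0x83308320831085a0858083f083e) (.z (.node 0 7 (.edon 0 16 (.node 10 12 (.leaf [0,9,10,13]) (.leaf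 [8,11,14,15,12])) (.free 2 [16,17,18,19,20,21,22])) (.free 2 [1,2,3,4,5,6,7]))), .t 5 (nat_lit 0xd420d310d2f0d2e) (.z (.edon 0 15 (.free 4 [0,1,2,3,4,5,6,7,8,9,10,11,12,13,14]) (.node 18 19 (.leaf [15,18,20,22,21]) (.leaf [16,17,19])))), .t 5 (nat_lit 0xd420d310d2f0d2e) (.z (.edon 0 15 (.free 4 [0,1,2,3,4,5,6,7,8,9,10,11,12,13,14]) (.node 15 19 (.leaf [15,18,20,22,21]) (.leaf [16,17,19])))), .t 1 (nat_lit 0) (.cp 5 2), .t 15 (nat_lit 0x352034d034b0b0d0b080b0503fb03f6039503930b950b900b410b3f) (.z (.node 0 3 (.node 0 11 (.node 0 16 (.free 2 [0,17,18,19,20,21,22]) (.leaf [12,14,16,15,13])) (.edon 7 10 (.leaf [7,8,11]) (.leaf [4,6,10,9,5]))) (.free 1 [1,2,3]))), .t 1 (nat_lit 0) (.fa 5), .t 1 (nat_lit 0) (.cn 4 2), .t 15 (nat_lit 0x352034d034b0b980b950b9003fb03f6039503930bdd0bdb0bae0bad) (.z (.node 0 3 (.node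 0 11 (.node 13 17 (.free 2 [0,13,18,19,20,21,22]) (.leaf [12,14,16,17,15])) (.edon 7 10 (.leaf [7,8,11]) (.leaf [4,6,10,9,5]))) (.free 1 [1,2,3]))), .t 1 (nat_lit 0) (.cp 4 3)] (by decide +kernel) (by decide +kernel)
theorem b108 : B 3456 3488 := Blk.of_chk [.t 1 (nat_lit 0) (.cn 2 2), .t 5 (nat_lit 0x832083108bf08be) (.z (.node 0 7 (.edon 0 16 (.node 10 12 (.leaf [0,9,10,13,15]) (.leaf [8,11,14,12])) (.free 2 [16,17,18,19,20,21,22])) (.free 2 [1,2,3,4,5,6,7]))), .t 5 (nat_lit 0x8f308f207fb07f9) (.z (.node 0 7 (.edon 0 16 (.edon 10 13 (.leaf [8,11,14,10]) (.leaf [0,9,12,13,15])) (.free 2 [16,17,18,19,20,21,22])) (.free 2 [1,2,3,4,5,6,7]))), .t 8 (nat_lit 0x83908380835086e086c083f083e) (.z (.node 0 7 (.edon 0 16 (.edon 8 12 (.leaf [8,11,14,15,13]) (.leaf [0,9,10,12])) (.free 2 [16,17,18,19,20,21,22])) (.free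 2 [1,2,3,4,5,6,7]))), .t 1 (nat_lit 0) (.cn 4 3), .t 15 (nat_lit 0xb080a490a460a080a0509e809e606d40673066e0660065d065b065a) (.z (.node 0 2 (.edon 0 6 (.leaf [0,3,4,5]) (.edon 0 11 (.leaf [6,7,8,10,9]) (.edon 0 16 (.leaf [11,14,15,13,12]) (.free 2 [16,17,18,19,20,21,22])))) (.free 1 [1,2]))), .t 8 (nat_lit 0x19d01a401a201a101a001d301d2) (.z (.node 2 4 (.node 0 8 (.free 4 [0,9,10,11,12,13,14,15,16,17,18,19,20,21,22]) (.leaf [2,6,7,8,5])) (.free 1 [1,3,4]))), .t 10 (nat_lit 0x6d40673066e0660065d065b065a0a080a05) (.z (.edon 0 16 (.node 2 4 (.edon 11 13 (.leaf [11,14,15,12]) (.node 5 9 (.leaf [0,2,5,13]) (.leaf [6,7,8,10,9]))) (.leaf [1,3,4])) (.free 2 [16,17,18,19,20,21,22]))), .t 13 (nat_lit 0x1c20d1f0d1a0d19061906180237023601bf01be0d2b0d24) (.z (.node 4 16 (.node 0 13 (.node 0 20 (.leaf [0,21,22]) (.leaf [15,18,19,20,17]))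 (.node 2 4 (.leaf [2,5,9,12,13]) (.leaf [1,3,4]))) (.free 2 [6,7,8,10,11,14,16]))), .t 8 (nat_lit 0x78707aa07a80792078f07f507f4) (.z (.node 0 7 (.node 0 12 (.edon 0 16 (.leaf [0,13,14,15]) (.free 2 [16,17,18,19,20,21,22])) (.leaf [8,10,11,12,9])) (.free 2 [1,2,3,4,5,6,7]))), .t 1 (nat_lit 0) (.cn 2 3), .t 17 (nat_lit 0x94c095d095c09590954095309500b0809b309b00990098d097b097909650964) (.z (.edon 0 16 (.edon 0 10 (.free 3 [0,1,2,3,4,5,6,7,8,9]) (.leaf [10,11,14,15,13,12])) (.free 2 [16,17,18,19,20,21,22]))), .t 8 (nat_lit 0x5a6065b065a05cc05cb05a0059f) (.z (.node 2 4 (.edon 5 11 (.leaf [5,6,7,8,10]) (.free 4 [0,2,9,11,12,13,14,15,16,17,18,19,20,21,22])) (.free 1 [1,3,4]))), .t 6 (nat_lit 0xd420c7e0c7c01bf01be) (.z (.node 4 16 (.edon 0 13 (.node 2 4 (.leaf [0,2,5,9,12]) (.leaf [1,3,4])) (.edon 15 20 (.leaf [13,17,19,15])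 (.leaf [18,20,22,21]))) (.free 2 [6,7,8,10,11,14,16]))), .t 8 (nat_lit 0x5a30657065605c805c705a0059f) (.z (.node 2 4 (.node 2 9 (.free 4 [0,2,10,11,12,13,14,15,16,17,18,19,20,21,22]) (.leaf [5,6,7,8,9])) (.free 1 [1,3,4]))), .t 8 (nat_lit 0x22708930892024b024a02220221) (.z (.edon 0 16 (.node 0 12 (.leaf [0,13,14,15]) (.node 2 8 (.leaf [2,9,10,11,12]) (.free 2 [1,3,4,5,6,7,8]))) (.free 2 [16,17,18,19,20,21,22]))), .t 1 (nat_lit 0) (.fa 5), .t 1 (nat_lit 0) (.cn 2 3), .t 8 (nat_lit 0x65c05cd05ca05b405b105a605a5) (.z (.node 2 4 (.edon 8 11 (.leaf [5,6,7,10,8]) (.free 4 [0,2,9,11,12,13,14,15,16,17,18,19,20,21,22])) (.free 1 [1,3,4]))), .t 7 (nat_lit 0x4c8031c031b0292028d001d) (.z (.edon 0 16 (.node 0 12 (.leaf [0,13,14,15]) (.node 4 10 (.node 5 9 (.leaf [1,5,8,2]) (.leaf [3,4,11,12,9])) (.leaf [6,7,10]))) (.free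 2 [16,17,18,19,20,21,22]))), .t 1 (nat_lit 0) (.cp 1 3), .t 1 (nat_lit 0) (.fa 2), .t 9 (nat_lit 0xc100c0e04c8031c031b0292028d001d) (.z (.node 16 0 (.edon 0 13 (.node 4 10 (.node 5 9 (.leaf [1,5,8,2]) (.leaf [3,4,11,12,9])) (.leaf [6,7,10])) (.leaf [13,16,15,14])) (.free 2 [0,17,18,19,20,21,22]))), .t 1 (nat_lit 0) (.cn 2 3), .t 10 (nat_lit 0x78707aa07a80792078f07f507f40c100c0e) (.z (.node 0 7 (.node 0 12 (.node 0 16 (.free 2 [0,17,18,19,20,21,22]) (.leaf [13,16,15,14])) (.leaf [8,10,11,12,9])) (.free 2 [1,2,3,4,5,6,7]))), .t 7 (nat_lit 0x7aa07a9004e001f00060001) (.z (.edon 0 13 (.edon 5 9 (.edon 4 10 (.leaf [4,6,7]) (.leaf [1,3,10,5,2])) (.leaf [0,8,9,11,12])) (.free 3 [13,14,15,16,17,18,19,20,21,22]))), .t 8 (nat_lit 0x7920893089207f507f4078a0788) (.z (.node 7 0 (.free 2 [1,2,3,4,5,6,7]) (.edon 0 13 (.leaf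 [0,8,9,10,11,12]) (.free 3 [13,14,15,16,17,18,19,20,21,22])))), .t 1 (nat_lit 0) (.cn 2 3), .t 4 (nat_lit 0x29d029c026a) (.z (.edon 0 8 (.edon 0 3 (.leaf [0,1,2]) (.leaf [3,4,7,6,5])) (.free 4 [8,9,10,11,12,13,14,15,16,17,18,19,20,21,22]))), .t 8 (nat_lit 0x66005d105ce05ba05b605a605a5) (.z (.node 2 4 (.edon 9 11 (.leaf [5,6,7,10,9]) (.free 4 [0,2,8,11,12,13,14,15,16,17,18,19,20,21,22])) (.free 1 [1,3,4]))), .t 5 (nat_lit 0x17c004c00040001) (.z (.node 8 0 (.edon 4 5 (.leaf [4,6,7]) (.leaf [1,3,5,8,2])) (.free 4 [0,9,10,11,12,13,14,15,16,17,18,19,20,21,22]))), .t 6 (nat_lit 0x34d02a702a50275026c) (.z (.node 9 1 (.edon 7 9 (.leaf [7,10,11]) (.leaf [3,4,6,9,5])) (.free 4 [0,1,2,8,12,13,14,15,16,17,18,19,20,21,22])))] (by decide +kernel) (by decide +kernel)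
theorem b109 : B 3488 3520 := Blk.of_chk [.t 6 (nat_lit 0x1a9009b0099002c001e) (.z (.edon 0 16 (.node 5 13 (.node 0 9 (.leaf [0,12,14,15]) (.leaf [1,5,9,8,2])) (.free 2 [3,4,6,7,10,11,13])) (.free 2 [16,17,18,19,20,21,22]))), .t 6 (nat_lit 0x3bb02cd02cc02930270) (.z (.node 13 1 (.node 4 10 (.leaf [3,4,11,13,5]) (.leaf [6,7,10])) (.free 4 [0,1,2,8,9,12,14,15,16,17,18,19,20,21,22]))), .t 8 (nat_lit 0x204020301020101002c0c100c0e) (.z (.node 1 11 (.node 0 12 (.node 0 16 (.free 2 [0,17,18,19,20,21,22]) (.leaf [13,16,15,14])) (.leaf [1,8,9,12,2])) (.free 2 [3,4,5,6,7,10,11]))), .t 6 (nat_lit 0x204020301020101002c) (.z (.edon 0 16 (.node 0 12 (.leaf [0,13,14,15]) (.node 1 11 (.leaf [1,8,9,12,2]) (.free 2 [3,4,5,6,7,10,11]))) (.free 2 [16,17,18,19,20,21,22]))), .t 5 (nat_lit 0x78a07870b080b06) (.z (.node 0 7 (.node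 0 11 (.edon 0 16 (.leaf [0,12,13,14,15]) (.free 2 [16,17,18,19,20,21,22])) (.leaf [8,10,11,9])) (.free 2 [1,2,3,4,5,6,7]))), .t 6 (nat_lit 0x3bc02cf02ce02940271) (.z (.node 14 1 (.node 4 10 (.leaf [3,4,11,14,5]) (.leaf [6,7,10])) (.free 4 [0,1,2,8,9,12,13,15,16,17,18,19,20,21,22]))), .t 1 (nat_lit 0) (.cn 1 3), .t 8 (nat_lit 0x6550660065d065c065906730671) (.z (.node 2 4 (.edon 8 11 (.leaf [6,7,10,9,8]) (.free 4 [0,2,5,11,12,13,14,15,16,17,18,19,20,21,22])) (.free 1 [1,3,4]))), .t 1 (nat_lit 0) (.cn 1 3), .t 8 (nat_lit 0x1bf061706160231023001bb01ba) (.z (.edon 1 11 (.free 2 [1,3,4,6,7,8,10]) (.edon 0 13 (.leaf [0,2,5,9,11,12]) (.free 3 [13,14,15,16,17,18,19,20,21,22])))), .t 13 (nat_lit 0x1b10d1e0d1b0d1805ed05ec0204020301a801a70d2b0d24) (.z (.node 4 16 (.node 0 12 (.node 0 20 (.leaf [0,21,22]) (.leaf [15,17,19,20,18]))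 (.node 2 4 (.leaf [2,5,8,9,12]) (.leaf [1,3,4]))) (.free 2 [6,7,10,11,13,14,16]))), .t 13 (nat_lit 0x1b10d1f0d1a0d1905ed05ec0204020301a801a70d2b0d24) (.z (.node 4 16 (.node 0 12 (.node 0 20 (.leaf [0,21,22]) (.leaf [15,18,19,20,17])) (.node 2 4 (.leaf [2,5,8,9,12]) (.leaf [1,3,4]))) (.free 2 [6,7,10,11,13,14,16]))), .t 8 (nat_lit 0x78707aa07a80792078f07f507f4) (.z (.node 0 7 (.node 0 12 (.edon 15 21 (.free 2 [15,16,17,18,19,20,22]) (.leaf [0,13,14,21])) (.leaf [8,10,11,12,9])) (.free 2 [1,2,3,4,5,6,7]))), .t 8 (nat_lit 0xd340d230d220d150d140d130d12) (.z (.edon 0 15 (.free 4 [0,1,2,3,4,5,6,7,8,9,10,11,12,13,14]) (.edon 19 21 (.leaf [19,20,22]) (.leaf [15,16,17,21,18])))), .t 5 (nat_lit 0x7bf07bd09660963) (.z (.node 0 7 (.edon 0 16 (.edon 10 12 (.leaf [10,11,15,14]) (.leaf [0,8,9,12,13])) (.free 2 [16,17,18,19,20,21,22]))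 (.free 2 [1,2,3,4,5,6,7]))), .t 5 (nat_lit 0x8930892086e086d) (.z (.node 0 7 (.edon 0 16 (.node 8 12 (.leaf [0,8,13,14,15]) (.leaf [9,10,11,12])) (.free 2 [16,17,18,19,20,21,22])) (.free 2 [1,2,3,4,5,6,7]))), .t 4 (nat_lit 0x107bf07bd) (.z (.edon 16 4 (.node 0 5 (.edon 0 16 (.leaf [0,8,9,12,13]) (.free 2 [16,17,18,19,20,21,22])) (.leaf [1,3,5,2])) (.free 2 [4,6,7,10,11,14,15]))), .t 1 (nat_lit 0) (.cp 2 3), .t 5 (nat_lit 0x893089202650264) (.z (.edon 0 16 (.node 2 12 (.leaf [0,2,13,14,15]) (.edon 0 9 (.free 2 [1,3,4,5,6,7,8]) (.leaf [9,10,11,12]))) (.free 2 [16,17,18,19,20,21,22]))), .t 8 (nat_lit 0x95308d508d408aa08a608990898) (.z (.edon 0 16 (.edon 1 13 (.edon 0 9 (.free 2 [1,3,4,5,6,7,8]) (.leaf [9,10,11,14,12])) (.leaf [0,2,13,15])) (.free 2 [16,17,18,19,20,21,22]))), .t 1 (nat_lit 0) (.cn 2 3), .t 1 (nat_lit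 0) (.cn 2 3), .t 1 (nat_lit 0) (.fa 4), .t 1 (nat_lit 0) (.fa 4), .t 13 (nat_lit 0xd1f0d1a0d190608021b021801cd01cc01b401b30d2b0d24) (.z (.node 4 16 (.node 0 13 (.node 0 20 (.leaf [0,21,22]) (.leaf [15,18,19,20,17])) (.node 2 4 (.leaf [2,5,8,13,12]) (.leaf [1,3,4]))) (.free 2 [6,7,9,10,11,14,16]))), .t 4 (nat_lit 0x4c0260025f) (.z (.edon 16 4 (.edon 0 16 (.node 2 8 (.leaf [0,2,12,13,15]) (.leaf [1,3,8,5])) (.free 2 [16,17,18,19,20,21,22])) (.free 2 [4,6,7,9,10,11,14]))), .t 13 (nat_lit 0xd1e0d1b0d180608021b021801cd01cc01b401b30d2b0d24) (.z (.node 4 16 (.node 0 13 (.node 0 20 (.leaf [0,21,22]) (.leaf [15,17,19,20,18])) (.node 2 4 (.leaf [2,5,8,13,12]) (.leaf [1,3,4]))) (.free 2 [6,7,9,10,11,14,16]))), .t 1 (nat_lit 0) (.cn 2 3), .t 13 (nat_lit 0x1b40d1f0d1a0d1905f105f00207020601a801a70d2b0d24) (.z (.node 4 16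 (.node 0 13 (.node 0 20 (.leaf [0,21,22]) (.leaf [15,18,19,20,17])) (.node 2 4 (.leaf [2,5,8,9,13]) (.leaf [1,3,4]))) (.free 2 [6,7,10,11,12,14,16]))), .t 13 (nat_lit 0x1b40d1e0d1b0d1805f105f00207020601a801a70d2b0d24) (.z (.node 4 16 (.node 0 13 (.node 0 20 (.leaf [0,21,22]) (.leaf [15,17,19,20,18])) (.node 2 4 (.leaf [2,5,8,9,13]) (.leaf [1,3,4]))) (.free 2 [6,7,10,11,12,14,16]))), .t 1 (nat_lit 0) (.cp 2 3), .t 13 (nat_lit 0xd1e0d1b0d1806220241024001cf01ce01c401c30d2b0d24) (.z (.edon 11 1 (.node 9 16 (.node 0 14 (.node 0 20 (.leaf [0,21,22]) (.leaf [15,17,19,20,18])) (.leaf [2,5,9,14,13])) (.leaf [11,12,16])) (.free 2 [1,3,4,6,7,8,10])))] (by decide +kernel) (by decide +kernel)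
theorem b110 : B 3520 3552 := Blk.of_chk [.t 13 (nat_lit 0xd1f0d1a0d1906220241024001cf01ce01c401c30d2b0d24) (.z (.edon 11 1 (.node 9 16 (.node 0 14 (.node 0 20 (.leaf [0,21,22]) (.leaf [15,18,19,20,17])) (.leaf [2,5,9,14,13])) (.leaf [11,12,16])) (.free 2 [1,3,4,6,7,8,10]))), .t 13 (nat_lit 0x1b40d1e0d1b0d1806070605021a021901b101b00d2b0d24) (.z (.node 4 16 (.node 0 13 (.node 0 20 (.leaf [0,21,22]) (.leaf [15,17,19,20,18])) (.node 2 4 (.leaf [2,5,8,12,13]) (.leaf [1,3,4]))) (.free 2 [6,7,9,10,11,14,16]))), .t 13 (nat_lit 0x1b40d1f0d1a0d1906070605021a021901b101b00d2b0d24) (.z (.node 4 16 (.node 0 13 (.node 0 20 (.leaf [0,21,22]) (.leaf [15,18,19,20,17])) (.node 2 4 (.leaf [2,5,8,12,13]) (.leaf [1,3,4]))) (.free 2 [6,7,9,10,11,14,16]))), .t 1 (nat_lit 0) (.cn 2 3), .t 8 (nat_lit 0x95d095c095909b309b009650964)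 (.z (.node 0 7 (.edon 0 16 (.edon 10 12 (.leaf [10,11,14,15,13]) (.leaf [0,8,9,12])) (.free 2 [16,17,18,19,20,21,22])) (.free 2 [1,2,3,4,5,6,7]))), .t 1 (nat_lit 0) (.fa 4), .t 10 (nat_lit 0xc17078a07870cbe0cbd0c6f0c6e0c0f0c0d) (.z (.node 0 7 (.node 0 11 (.edon 0 20 (.node 12 17 (.leaf [0,12,18,19]) (.leaf [13,14,15,16,17])) (.leaf [20,21,22])) (.leaf [8,10,11,9])) (.free 2 [1,2,3,4,5,6,7]))), .t 6 (nat_lit 0x10d410cbb0cb40cb2) (.z (.edon 16 4 (.node 0 5 (.edon 0 13 (.leaf [0,8,9,12]) (.node 17 19 (.leaf [13,17,20,22,21]) (.leaf [16,18,19]))) (.leaf [1,3,5,2])) (.free 2 [4,6,7,10,11,14,15]))), .t 10 (nat_lit 0xcc1078a07870d100d0f0cf00cef0cbe0cbd) (.z (.node 0 7 (.node 0 11 (.node 12 18 (.free 2 [0,12,13,19,20,21,22]) (.leaf [14,15,16,17,18])) (.leaf [8,10,11,9])) (.free 2 [1,2,3,4,5,6,7]))), .t 10 (nat_lit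 0xcc1078a07870d100d0f0cf00cef0cbe0cbd) (.z (.node 0 7 (.node 0 11 (.node 13 22 (.leaf [0,12,13,21]) (.edon 0 19 (.leaf [14,15,16,17,18]) (.leaf [19,20,22]))) (.leaf [8,10,11,9])) (.free 2 [1,2,3,4,5,6,7]))), .t 5 (nat_lit 0x78a07870b820b81) (.z (.node 0 7 (.node 0 11 (.node 13 22 (.leaf [0,12,13,18,21]) (.free 2 [14,15,16,17,19,20,22])) (.leaf [8,10,11,9])) (.free 2 [1,2,3,4,5,6,7]))), .t 1 (nat_lit 0) (.cn 2 3), .t 10 (nat_lit 0xcab0caa0ca6078a07870b940b910cb50cb0) (.z (.node 0 7 (.node 0 11 (.node 0 20 (.leaf [0,21,22]) (.node 13 16 (.leaf [13,17,19,20,18]) (.leaf [12,15,16,14]))) (.leaf [8,10,11,9])) (.free 2 [1,2,3,4,5,6,7]))), .t 15 (nat_lit 0xcc108960d100d0f0cf00cef0cbe0cbd094e094d08d208d108930892) (.z (.node 22 2 (.edon 0 9 (.free 2 [1,3,4,5,6,7,8]) (.edon 0 14 (.leaf [9,10,11,12,13]) (.edon 0 19 (.leaf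 [14,15,16,17,18]) (.leaf [19,20,22])))) (.free 1 [0,2,21]))), .t 1 (nat_lit 0) (.cn 7 2), .t 10 (nat_lit 0x94c095c0959095309500973097106580655) (.z (.node 2 4 (.node 5 22 (.leaf [0,2,5,21]) (.edon 0 10 (.leaf [6,7,9,8]) (.edon 0 15 (.leaf [10,11,14,13,12]) (.free 2 [15,16,17,18,19,20,22])))) (.free 1 [1,3,4]))), .t 10 (nat_lit 0x1c80658065506250624024b024a01c601c5) (.z (.edon 0 16 (.node 0 12 (.leaf [0,13,14,15]) (.node 2 4 (.node 5 9 (.leaf [2,5,10,11,12]) (.leaf [6,7,9,8])) (.leaf [1,3,4]))) (.free 2 [16,17,18,19,20,21,22]))), .t 5 (nat_lit 0xd410cbb0cb40cb2) (.z (.node 0 7 (.edon 0 11 (.leaf [0,8,9,10]) (.node 17 19 (.leaf [13,17,20,22,21]) (.free 2 [11,12,14,15,16,18,19]))) (.free 2 [1,2,3,4,5,6,7]))), .t 5 (nat_lit 0xd0d0cbb0c6c0c6b) (.z (.node 0 7 (.edon 0 11 (.leaf [0,8,9,10]) (.node 14 19 (.leaf [13,14,20,22,21])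 (.free 2 [11,12,15,16,17,18,19]))) (.free 2 [1,2,3,4,5,6,7]))), .t 5 (nat_lit 0x79a07980a090a07) (.z (.node 0 7 (.edon 0 16 (.edon 11 13 (.leaf [11,15,14,12]) (.leaf [0,8,9,10,13])) (.free 2 [16,17,18,19,20,21,22])) (.free 2 [1,2,3,4,5,6,7]))), .t 9 (nat_lit 0xb910bb10baf0ba10b9f00010be00bdf) (.z (.edon 21 19 (.node 0 11 (.node 13 18 (.leaf [0,13,17,21]) (.leaf [12,15,16,18,14])) (.edon 4 5 (.free 2 [4,6,7,8,9,10,11]) (.leaf [1,3,5,2]))) (.free 1 [19,20,22]))), .t 9 (nat_lit 0xb1a0b7c0b790b230b200bcc0bca0d41) (.z (.node 0 7 (.edon 0 11 (.leaf [0,8,9,10]) (.node 17 19 (.leaf [17,20,22,21]) (.edon 11 18 (.leaf [11,15,16]) (.leaf [12,14,18,19,13])))) (.free 2 [1,2,3,4,5,6,7]))), .t 9 (nat_lit 0xb710b6e0b6c0c040b880cc10cc00001) (.z (.node 20 0 (.edon 0 12 (.edon 4 5 (.free 2 [4,6,7,8,9,10,11]) (.leaf [1,3,5,2]))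 (.edon 14 19 (.leaf [14,15,16,18]) (.leaf [12,17,19,20,13]))) (.free 1 [0,21,22]))), .t 6 (nat_lit 0x10d410d0d0d060d05) (.z (.edon 16 4 (.node 0 5 (.edon 0 14 (.leaf [0,8,12,13]) (.node 17 19 (.leaf [14,17,20,22,21]) (.leaf [16,18,19]))) (.leaf [1,3,5,2])) (.free 2 [4,6,7,9,10,11,15]))), .t 5 (nat_lit 0xb8c0cbb0c0a0b8f) (.z (.node 0 7 (.edon 0 11 (.leaf [0,8,9,10]) (.node 12 19 (.leaf [12,20,22,21,13]) (.free 2 [11,14,15,16,17,18,19]))) (.free 2 [1,2,3,4,5,6,7]))), .t 5 (nat_lit 0x804080208e108de) (.z (.node 0 7 (.edon 0 16 (.edon 9 12 (.leaf [9,11,15,14]) (.leaf [0,8,10,12,13])) (.free 2 [16,17,18,19,20,21,22])) (.free 2 [1,2,3,4,5,6,7]))), .t 17 (nat_lit 0xc3f0cf00cef0ca10ca00c3b0c3a09570954065805c905c605af05aa05a305a2) (.z (.node 2 4 (.node 2 22 (.leaf [0,2,21]) (.edon 0 10 (.leaf [5,6,7,9,8]) (.edon 12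 16 (.leaf [10,11,15,12]) (.edon 0 19 (.leaf [13,14,16,17,18]) (.leaf [19,20,22]))))) (.free 1 [1,3,4]))), .t 1 (nat_lit 0) (.cn 7 2), .t 5 (nat_lit 0x7bf07bd09660963) (.z (.node 0 7 (.edon 0 16 (.edon 10 13 (.leaf [10,11,15,14]) (.leaf [0,8,9,12,13])) (.free 2 [16,17,18,19,20,21,22])) (.free 2 [1,2,3,4,5,6,7]))), .t 1 (nat_lit 0) (.cn 7 2), .t 15 (nat_lit 0x8910cc108a2089f089608940d100d0f0cf00cef0cbe0cbd08d208d1) (.z (.node 22 2 (.edon 0 9 (.free 2 [1,3,4,5,6,7,8]) (.edon 0 14 (.leaf [9,11,12,13,10]) (.edon 0 19 (.leaf [14,15,16,17,18]) (.leaf [19,20,22])))) (.free 1 [0,2,21]))), .t 8 (nat_lit 0x9e80b090b070a4a0a4809e109df) (.z (.node 0 7 (.edon 0 11 (.leaf [0,8,9,10]) (.edon 0 16 (.leaf [11,15,14,13,12]) (.free 2 [16,17,18,19,20,21,22]))) (.free 2 [1,2,3,4,5,6,7])))] (by decide +kernel) (by decide +kernel)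
theorem b111 : B 3552 3584 := Blk.of_chk [.t 15 (nat_lit 0xc3f089a089308910cf00cef0ca10ca00c3b0c3a08d708d608b108af) (.z (.node 22 2 (.edon 0 9 (.free 2 [1,3,4,5,6,7,8]) (.edon 12 16 (.leaf [9,11,15,12,10]) (.edon 0 19 (.leaf [13,14,16,17,18]) (.leaf [19,20,22])))) (.free 1 [0,2,21]))), .t 9 (nat_lit 0xc0f0b940b910b400b3d0b110b0f0001) (.z (.node 16 0 (.edon 0 12 (.edon 4 5 (.free 2 [4,6,7,8,9,10,11]) (.leaf [1,3,5,2])) (.leaf [12,15,16,14,13])) (.free 2 [0,17,18,19,20,21,22]))), .t 8 (nat_lit 0xcc10d100d0f0cf00cef0cbe0cbd) (.z (.edon 14 21 (.edon 0 19 (.leaf [14,15,16,17,18]) (.leaf [19,20,22])) (.free 4 [0,1,2,3,4,5,6,7,8,9,10,11,12,13,21]))), .t 6 (nat_lit 0x10c610c600bdd0bdc) (.z (.edon 21 19 (.node 0 11 (.edon 12 18 (.leaf [12,15,16,17]) (.leaf [0,13,14,18,21])) (.edon 4 5 (.free 2 [4,6,7,8,9,10,11]) (.leaf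 [1,3,5,2]))) (.free 1 [19,20,22]))), .t 1 (nat_lit 0) (.fa 2), .t 1 (nat_lit 0) (.cn 2 3), .t 1 (nat_lit 0) (.cn 2 3), .t 4 (nat_lit 0x108490847) (.z (.edon 16 4 (.node 0 5 (.edon 0 16 (.leaf [0,8,12,13,14]) (.free 2 [16,17,18,19,20,21,22])) (.leaf [1,3,5,2])) (.free 2 [4,6,7,9,10,11,15]))), .t 5 (nat_lit 0x89c089a08490847) (.z (.node 0 7 (.edon 0 16 (.node 8 10 (.leaf [0,8,12,13,14]) (.leaf [9,11,15,10])) (.free 2 [16,17,18,19,20,21,22])) (.free 2 [1,2,3,4,5,6,7]))), .t 9 (nat_lit 0xc140c500c4d0c270c240c7e0c7d0d42) (.z (.node 0 7 (.edon 0 11 (.leaf [0,8,9,10]) (.node 15 16 (.node 18 19 (.leaf [18,20,22,21]) (.leaf [13,15,17,19,14])) (.leaf [11,12,16]))) (.free 2 [1,2,3,4,5,6,7]))), .t 1 (nat_lit 0) (.cn 2 3), .t 1 (nat_lit 0) (.cn 2 3), .t 1 (nat_lit 0) (.fa 4), .t 10 (nat_lit 0xd1b0cf80cf40cde0cda0cd00cce079a0798)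 (.z (.node 0 7 (.node 9 16 (.edon 0 14 (.leaf [0,8,9,10,13]) (.edon 0 20 (.leaf [14,15,17,19,18]) (.leaf [20,21,22]))) (.leaf [11,12,16])) (.free 2 [1,2,3,4,5,6,7]))), .t 10 (nat_lit 0xd1b0cf80cf40cde0cda0cd00cce079a0798) (.z (.node 0 7 (.node 15 16 (.edon 0 14 (.leaf [0,8,9,10,13]) (.edon 0 20 (.leaf [14,15,17,19,18]) (.leaf [20,21,22]))) (.leaf [11,12,16])) (.free 2 [1,2,3,4,5,6,7]))), .t 1 (nat_lit 0) (.fa 4), .t 10 (nat_lit 0xb910bae0bac0b9c0b99078b07860bdd0bdc) (.z (.node 0 7 (.node 0 11 (.edon 14 19 (.leaf [12,15,16,17,14]) (.free 2 [0,13,18,19,20,21,22])) (.leaf [8,9,11,10])) (.free 2 [1,2,3,4,5,6,7]))), .t 9 (nat_lit 0xb140b6e0b6c0b230b200bbd0bbb0d42) (.z (.node 0 7 (.edon 0 11 (.leaf [0,8,9,10]) (.node 12 16 (.node 18 19 (.leaf [18,20,22,21]) (.leaf [12,14,17,19,13])) (.leaf [11,15,16]))) (.free 2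 [1,2,3,4,5,6,7]))), .t 9 (nat_lit 0xb910bae0bac0b9c0b9900010bdd0bdc) (.z (.edon 21 19 (.node 0 11 (.edon 12 18 (.leaf [12,15,16,17,14]) (.leaf [0,13,18,21])) (.edon 4 5 (.free 2 [4,6,7,8,9,10,11]) (.leaf [1,3,5,2]))) (.free 1 [19,20,22]))), .t 5 (nat_lit 0xd420cbb0cb90cb8) (.z (.node 0 7 (.edon 0 11 (.leaf [0,8,9,10]) (.node 18 19 (.leaf [13,18,20,22,21]) (.free 2 [11,12,14,15,16,17,19]))) (.free 2 [1,2,3,4,5,6,7]))), .t 9 (nat_lit 0xb140b6e0b6c0b230b200bbd0bbb0d42) (.z (.node 0 7 (.edon 0 11 (.leaf [0,8,9,10]) (.node 14 16 (.node 18 19 (.leaf [18,20,22,21]) (.leaf [12,14,17,19,13])) (.leaf [11,15,16]))) (.free 2 [1,2,3,4,5,6,7]))), .t 9 (nat_lit 0xb910bae0bac0b9c0b9900060bdd0bdc) (.z (.edon 21 19 (.node 0 11 (.node 13 17 (.leaf [0,13,18,21]) (.leaf [12,15,16,17,14])) (.edon 4 10 (.free 2 [4,5,6,7,8,9,11])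 (.leaf [1,3,10,2]))) (.free 1 [19,20,22]))), .t 9 (nat_lit 0xc0f0b940b910b400b3d0b110b0f0006) (.z (.node 16 0 (.edon 0 12 (.edon 4 10 (.free 2 [4,5,6,7,8,9,11]) (.leaf [1,3,10,2])) (.leaf [12,15,16,14,13])) (.free 2 [0,17,18,19,20,21,22]))), .t 5 (nat_lit 0x181005100040002) (.z (.node 8 0 (.edon 4 6 (.leaf [4,5,7]) (.leaf [1,3,6,8,2])) (.free 4 [0,9,10,11,12,13,14,15,16,17,18,19,20,21,22]))), .t 9 (nat_lit 0xb910bae0bac0b9c0b9900020bdd0bdc) (.z (.edon 21 19 (.node 0 11 (.node 13 17 (.leaf [0,13,18,21]) (.leaf [12,15,16,17,14])) (.edon 4 6 (.free 2 [4,5,7,8,9,10,11]) (.leaf [1,3,6,2]))) (.free 1 [19,20,22]))), .t 9 (nat_lit 0xc0f0b940b910b400b3d0b110b0f0002) (.z (.node 16 0 (.edon 0 12 (.edon 4 6 (.free 2 [4,5,7,8,9,10,11]) (.leaf [1,3,6,2])) (.leaf [12,15,16,14,13])) (.free 2 [0,17,18,19,20,21,22]))), .t 1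 (nat_lit 0) (.cn 2 2), .t 1 (nat_lit 0) (.cn 2 3), .t 1 (nat_lit 0) (.cn 2 3), .t 1 (nat_lit 0) (.cp 2 3), .t 9 (nat_lit 0xc140c500c4d0c270c240c7e0c7d0d42) (.z (.node 0 7 (.edon 0 11 (.leaf [0,8,9,10]) (.node 13 16 (.node 18 19 (.leaf [18,20,22,21]) (.leaf [13,15,17,19,14])) (.leaf [11,12,16]))) (.free 2 [1,2,3,4,5,6,7]))), .t 1 (nat_lit 0) (.cn 7 2)] (by decide +kernel) (by decide +kernel)

end Pool.Agent.GCP.F8_11
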