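import Pool.Agent.GCP.F8_11Db

set_option autoImplicit false
set_option maxRecDepth 100000

/-! # Blocks F8_11B2 (generated) -/

namespace Pool.Agent.GCP.F8_11

open Pool.Agent.GCP DB

theorem b112 : B 3584 3616 := Blk.of_chk [.t 10 (nat_lit 0xd1b0cf80cf40cde0cda0cd00cce01f501f4) (.z (.edon 0 20 (.node 4 16 (.edon 0 14 (.node 2 4 (.leaf [0,2,6,10,13]) (.leaf [1,3,4])) (.leaf [14,15,17,19,18])) (.free 2 [5,7,8,9,11,12,16])) (.free 1 [20,21,22]))), .t 1 (nat_lit 0) (.cp 2 3), .t 1 (nat_lit 0) (.fa 4), .t 1 (nat_lit 0) (.cn 7 2), .t 1 (nat_lit 0) (.cn 2 3), .t 17 (nat_lit 0x59e0cc105b305b205a605a40d100d0f0cf00cef0cbe0cbd05cc05cb08d308d0) (.z (.node 2 4 (.node 2 22 (.leaf [0,2,21]) (.edon 0 14 (.edon 9 10 (.leaf [9,11,13,12]) (.leaf [5,7,8,10,6])) (.edon 0 19 (.leaf [14,15,16,17,18]) (.leaf [19,20,22])))) (.free 1 [1,3,4]))), .t 1 (nat_lit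 0) (.cn 2 2), .t 10 (nat_lit 0x78e078b078607f507f307aa07a90c6f0c6d) (.z (.node 0 7 (.node 0 12 (.edon 19 21 (.leaf [19,20,22]) (.node 14 17 (.leaf [0,14,18,21]) (.leaf [13,16,17,15]))) (.leaf [8,9,11,12,10])) (.free 2 [1,2,3,4,5,6,7]))), .t 1 (nat_lit 0) (.cn 7 2), .t 5 (nat_lit 0x183005300060002) (.z (.edon 16 4 (.node 0 10 (.edon 15 21 (.free 2 [15,16,17,18,19,20,22]) (.leaf [0,12,14,21])) (.leaf [1,3,6,10,2])) (.free 2 [4,5,7,8,9,11,13]))), .t 6 (nat_lit 0x2d700d300d200550052) (.z (.node 3 7 (.edon 6 11 (.leaf [1,3,8,9,6]) (.free 4 [0,2,10,11,12,13,14,15,16,17,18,19,20,21,22])) (.free 1 [4,5,7]))), .t 1 (nat_lit 0) (.cn 1 3), .t 9 (nat_lit 0xb990bbd0bba0ba50ba30be60be50d42) (.z (.node 0 7 (.edon 0 11 (.leaf [0,8,9,10]) (.node 12 16 (.node 18 19 (.leaf [18,20,22,21]) (.leaf [12,15,17,19,14])) (.leaf [11,13,16]))) (.free 2 [1,2,3,4,5,6,7]))),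 .t 1 (nat_lit 0) (.cn 2 3), .t 1 (nat_lit 0) (.cn 2 3), .t 9 (nat_lit 0xb440b410b3c00010bdd0bdb0b5f0b5e) (.z (.edon 21 19 (.node 0 11 (.node 14 17 (.leaf [0,14,18,21]) (.leaf [12,13,16,17,15])) (.edon 4 5 (.free 2 [4,6,7,8,9,10,11]) (.leaf [1,3,5,2]))) (.free 1 [19,20,22]))), .t 6 (nat_lit 0x10c6f0c6d0bd10bd0) (.z (.edon 21 19 (.node 0 11 (.node 12 17 (.leaf [0,12,14,18,21]) (.leaf [13,16,17,15])) (.edon 4 5 (.free 2 [4,6,7,8,9,10,11]) (.leaf [1,3,5,2]))) (.free 1 [19,20,22]))), .t 6 (nat_lit 0x10c6f0c6d0bd10bd0) (.z (.edon 21 19 (.node 0 11 (.node 14 17 (.leaf [0,12,14,18,21]) (.leaf [13,16,17,15])) (.edon 4 5 (.free 2 [4,6,7,8,9,10,11]) (.leaf [1,3,5,2]))) (.free 1 [19,20,22]))), .t 9 (nat_lit 0xb440b410b3c00020bdd0bdb0b5f0b5e) (.z (.edon 21 19 (.node 0 11 (.node 14 17 (.leaf [0,14,18,21]) (.leaf [12,13,16,17,15])) (.edon 4 6 (.free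 2 [4,5,7,8,9,10,11]) (.leaf [1,3,6,2]))) (.free 1 [19,20,22]))), .t 6 (nat_lit 0x20c6f0c6d0bd10bd0) (.z (.edon 21 19 (.node 0 11 (.node 12 17 (.leaf [0,12,14,18,21]) (.leaf [13,16,17,15])) (.edon 4 6 (.free 2 [4,5,7,8,9,10,11]) (.leaf [1,3,6,2]))) (.free 1 [19,20,22]))), .t 6 (nat_lit 0x20c6f0c6d0bd10bd0) (.z (.edon 21 19 (.node 0 11 (.node 14 17 (.leaf [0,12,14,18,21]) (.leaf [13,16,17,15])) (.edon 4 6 (.free 2 [4,5,7,8,9,10,11]) (.leaf [1,3,6,2]))) (.free 1 [19,20,22]))), .t 6 (nat_lit 0x60c6f0c6d0bd10bd0) (.z (.edon 21 19 (.node 0 11 (.node 14 17 (.leaf [0,12,14,18,21]) (.leaf [13,16,17,15])) (.edon 4 10 (.free 2 [4,5,6,7,8,9,11]) (.leaf [1,3,10,2]))) (.free 1 [19,20,22]))), .t 9 (nat_lit 0xb440b410b3c00060bdd0bdb0b5f0b5e) (.z (.edon 21 19 (.node 0 11 (.node 14 17 (.leaf [0,14,18,21]) (.leaf [12,13,16,17,15])) (.edon 4 10 (.free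 2 [4,5,6,7,8,9,11]) (.leaf [1,3,10,2]))) (.free 1 [19,20,22]))), .t 1 (nat_lit 0) (.cp 2 3), .t 10 (nat_lit 0xd1b0cf80cf40cde0cda0cd00cce01b801b7) (.z (.edon 0 20 (.node 4 16 (.edon 0 14 (.node 2 4 (.leaf [0,2,5,9,10]) (.leaf [1,3,4])) (.leaf [14,15,17,19,18])) (.free 2 [6,7,8,11,12,13,16])) (.free 1 [20,21,22]))), .t 17 (nat_lit 0xcc105a60d100d0f0cf00cef0cbe0cbd065b065a05cc05cb05a0059f08d308d0) (.z (.node 2 4 (.node 2 22 (.leaf [0,2,21]) (.edon 0 14 (.edon 9 10 (.leaf [9,11,13,12]) (.leaf [5,6,7,8,10])) (.edon 0 19 (.leaf [14,15,16,17,18]) (.leaf [19,20,22])))) (.free 1 [1,3,4]))), .t 1 (nat_lit 0) (.cn 2 2), .t 1 (nat_lit 0) (.cn 2 3), .t 5 (nat_lit 0x184005800060005) (.z (.edon 16 4 (.node 0 10 (.edon 15 21 (.free 2 [15,16,17,18,19,20,22]) (.leaf [0,12,14,21])) (.leaf [1,3,9,10,2])) (.free 2 [4,5,6,7,8,11,13]))), .t 1 (nat_lit 0)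 (.cp 2 3), .t 10 (nat_lit 0xd1b0cf80cf40cde0cda0cd00cce01e701e6) (.z (.edon 0 20 (.node 4 16 (.edon 0 14 (.node 2 4 (.leaf [0,2,6,9,10]) (.leaf [1,3,4])) (.leaf [14,15,17,19,18])) (.free 2 [5,7,8,11,12,13,16])) (.free 1 [20,21,22]))), .t 1 (nat_lit 0) (.cp 2 3)] (by decide +kernel) (by decide +kernel)
theorem b113 : B 3616 3648 := Blk.of_chk [.t 1 (nat_lit 0) (.cp 2 3), .t 10 (nat_lit 0xd1b0cf80cf40cde0cda0cd00cce01ac01ab) (.z (.edon 0 20 (.node 4 16 (.edon 0 14 (.node 2 4 (.leaf [0,2,5,8,10]) (.leaf [1,3,4])) (.leaf [14,15,17,19,18])) (.free 2 [6,7,9,11,12,13,16])) (.free 1 [20,21,22]))), .t 1 (nat_lit 0) (.fa 2), .t 1 (nat_lit 0) (.cn 2 3), .t 1 (nat_lit 0) (.cn 2 3), .t 1 (nat_lit 0) (.cn 2 3), .t 1 (nat_lit 0) (.cn 2 3), .t 1 (nat_lit 0) (.cn 2 3), .t 12 (nat_lit 0x2e202e001e701e6018200da00d90052000600050002) (.z (.edon 4 16 (.free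 2 [4,5,7,8,11,13,14]) (.node 10 0 (.leaf [1,3,6,9,10,2]) (.free 3 [0,12,15,16,17,18,19,20,21,22])))), .t 1 (nat_lit 0) (.cn 2 3), .t 1 (nat_lit 0) (.cn 2 3), .t 1 (nat_lit 0) (.cn 2 3), .t 1 (nat_lit 0) (.cn 2 3), .t 1 (nat_lit 0) (.cn 2 3), .t 1 (nat_lit 0) (.fa 5), .t 8 (nat_lit 0x78e078b078607f507f307aa07a9) (.z (.node 0 7 (.node 0 12 (.edon 0 16 (.leaf [0,13,14,15]) (.free 2 [16,17,18,19,20,21,22])) (.leaf [8,9,11,12,10])) (.free 2 [1,2,3,4,5,6,7]))), .t 1 (nat_lit 0) (.cn 2 3), .t 1 (nat_lit 0) (.fa 4), .t 1 (nat_lit 0) (.fa 4), .t 1 (nat_lit 0) (.cp 2 3), .t 9 (nat_lit 0xd1e0d1b0d180b110b0f0d2b0d240001) (.z (.node 20 0 (.edon 0 12 (.edon 4 5 (.free 2 [4,6,7,8,9,10,11]) (.leaf [1,3,5,2])) (.node 15 16 (.leaf [15,17,19,20,18]) (.leaf [12,16,14,13]))) (.free 1 [0,21,22]))), .t 1 (nat_lit 0) (.cn 4 2), .t 10 (nat_lit 0xd1e0d1b0d180d2b0d24017e004e00060001)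 (.z (.node 20 0 (.edon 0 13 (.edon 4 5 (.free 2 [4,6,7,8,9,11,12]) (.leaf [1,3,5,10,2])) (.node 15 16 (.leaf [15,17,19,20,18]) (.leaf [13,14,16]))) (.free 1 [0,21,22]))), .t 10 (nat_lit 0xd1b0cf80cf40cde0cda0cd00cce01ca01c9) (.z (.edon 0 20 (.node 4 16 (.edon 0 14 (.node 2 4 (.leaf [0,2,5,10,13]) (.leaf [1,3,4])) (.leaf [14,15,17,19,18])) (.free 2 [6,7,8,9,11,12,16])) (.free 1 [20,21,22]))), .t 17 (nat_lit 0x7f307a808a208960804080107f807f607bf07bc07ae07ac082f082e079b0799) (.z (.node 7 0 (.free 2 [1,2,3,4,5,6,7]) (.node 13 0 (.leaf [8,11,12,13,10,9]) (.free 3 [0,14,15,16,17,18,19,20,21,22])))), .t 1 (nat_lit 0) (.cn 2 3), .t 1 (nat_lit 0) (.cn 2 2), .t 15 (nat_lit 0x9e10973096e095c095909520951065805c905c605af05aa05a305a2) (.z (.node 2 4 (.node 2 22 (.leaf [0,2,21]) (.edon 0 10 (.leaf [5,6,7,9,8]) (.edon 0 15 (.leaf [10,11,12,14,13])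 (.free 2 [15,16,17,18,19,20,22])))) (.free 1 [1,3,4]))), .t 10 (nat_lit 0xd1b0cf80cf40cde0cda0cd00cce01b401b3) (.z (.edon 0 20 (.node 4 16 (.edon 0 14 (.node 2 4 (.leaf [0,2,5,8,13]) (.leaf [1,3,4])) (.leaf [14,15,17,19,18])) (.free 2 [6,7,9,10,11,12,16])) (.free 1 [20,21,22]))), .t 17 (nat_lit 0xcc10d100d0f0cf00cef0cbe0cbd094e094d065805c905c605af05aa05a305a2) (.z (.node 2 4 (.node 2 22 (.leaf [0,2,21]) (.edon 0 10 (.leaf [5,6,7,9,8]) (.edon 0 19 (.edon 0 14 (.leaf [10,11,12,13]) (.leaf [14,15,16,17,18])) (.leaf [19,20,22])))) (.free 1 [1,3,4]))), .t 1 (nat_lit 0) (.cn 2 3), .t 17 (nat_lit 0xcc105a105a0059e0d100d0f0cf00cef0cbe0cbd094e094d05c905c605af05ad) (.z (.edon 1 21 (.edon 0 5 (.leaf [1,3,4]) (.edon 0 10 (.leaf [5,7,9,8,6]) (.edon 0 19 (.edon 0 14 (.leaf [10,11,12,13]) (.leaf [14,15,16,17,18])) (.leaf [19,20,22])))) (.free 1 [0,2,21])))]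 (by decide +kernel) (by decide +kernel)
theorem b114 : B 3648 3680 := Blk.of_chk [.t 10 (nat_lit 0xd1b0cf80cf40cde0cda0cd00cce01e301e2) (.z (.edon 0 20 (.node 4 16 (.edon 0 14 (.node 2 4 (.leaf [0,2,6,8,13]) (.leaf [1,3,4])) (.leaf [14,15,17,19,18])) (.free 2 [5,7,9,10,11,12,16])) (.free 1 [20,21,22]))), .t 1 (nat_lit 0) (.cn 2 3), .t 1 (nat_lit 0) (.fa 2), .t 17 (nat_lit 0x7f30796078e078b07860804080107f807f607ae08d208d1082f082e07aa07a9) (.z (.node 7 0 (.free 2 [1,2,3,4,5,6,7]) (.node 13 0 (.leaf [8,9,11,12,13,10]) (.free 3 [0,14,15,16,17,18,19,20,21,22])))), .t 1 (nat_lit 0) (.cp 1 3), .t 9 (nat_lit 0xd1e0d1b0d18002f0b110b0f0d2b0d24) (.z (.node 1 11 (.node 0 10 (.node 0 20 (.leaf [0,21,22]) (.node 15 16 (.leaf [15,17,19,20,18]) (.leaf [12,16,14,13]))) (.leaf [1,9,10,2])) (.free 2 [3,4,5,6,7,8,11]))), .t 9 (nat_lit 0xd1e0d1b0d180b110b0f0d2b0d240002)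 (.z (.node 20 0 (.edon 0 12 (.edon 4 6 (.free 2 [4,5,7,8,9,10,11]) (.leaf [1,3,6,2])) (.node 15 16 (.leaf [15,17,19,20,18]) (.leaf [12,16,14,13]))) (.free 1 [0,21,22]))), .t 1 (nat_lit 0) (.cn 2 3), .t 7 (nat_lit 0x7f507f30182005200050002) (.z (.edon 0 16 (.node 0 12 (.leaf [0,13,14,15]) (.node 7 10 (.node 3 7 (.leaf [1,3,6,9,2]) (.leaf [4,5,7])) (.leaf [8,11,12,10]))) (.free 2 [16,17,18,19,20,21,22]))), .t 9 (nat_lit 0x18200520005000207f507f30c100c0e) (.z (.node 3 7 (.node 0 12 (.node 0 16 (.free 2 [0,17,18,19,20,21,22]) (.leaf [13,16,15,14])) (.edon 8 9 (.leaf [8,11,12,10]) (.leaf [1,3,6,9,2]))) (.free 1 [4,5,7]))), .t 7 (nat_lit 0xd420cbb0cb90cb806d406cf) (.z (.edon 0 7 (.free 2 [0,1,2,3,4,5,6]) (.edon 0 11 (.leaf [7,8,10,9]) (.node 18 19 (.leaf [13,18,20,22,21]) (.free 2 [11,12,14,15,16,17,19]))))), .t 1 (nat_lit 0) (.cn 2 3),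 .t 1 (nat_lit 0) (.cn 2 2), .t 9 (nat_lit 0xd1e0d1b0d180b110b0f0d2b0d240005) (.z (.node 20 0 (.edon 0 12 (.edon 4 9 (.free 2 [4,5,6,7,8,10,11]) (.leaf [1,3,9,2])) (.node 15 16 (.leaf [15,17,19,20,18]) (.leaf [12,16,14,13]))) (.free 1 [0,21,22]))), .t 6 (nat_lit 0x50b5f0b5d0ce60ce5) (.z (.edon 21 19 (.node 0 11 (.node 15 17 (.leaf [0,14,15,18,21]) (.leaf [12,16,17,13])) (.edon 4 9 (.free 2 [4,5,6,7,8,10,11]) (.leaf [1,3,9,2]))) (.free 1 [19,20,22]))), .t 1 (nat_lit 0) (.cp 2 3), .t 13 (nat_lit 0x1e30d1e0d1b0d18068106800207020601d701d60d2b0d24) (.z (.node 4 16 (.node 0 13 (.node 0 20 (.leaf [0,21,22]) (.leaf [15,17,19,20,18])) (.node 2 4 (.leaf [2,6,8,9,13]) (.leaf [1,3,4]))) (.free 2 [5,7,10,11,12,14,16]))), .t 1 (nat_lit 0) (.fa 2), .t 1 (nat_lit 0) (.cn 7 2), .t 1 (nat_lit 0) (.fa 4), .t 17 (nat_lit 0x59e0cc105ae05ab05a305a10d100d0f0cf00cef0cbe0cbd094e094d05c805c7)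 (.z (.edon 1 21 (.edon 0 5 (.leaf [1,3,4]) (.edon 0 14 (.edon 0 10 (.leaf [5,7,8,9,6]) (.leaf [10,11,12,13])) (.edon 0 19 (.leaf [14,15,16,17,18]) (.leaf [19,20,22])))) (.free 1 [0,2,21]))), .t 1 (nat_lit 0) (.fa 4), .t 17 (nat_lit 0x59e0cc105ae05ab05a305a10d100d0f0cf00cef0cbe0cbd094f094c05c805c7) (.z (.edon 1 21 (.edon 0 5 (.leaf [1,3,4]) (.edon 0 14 (.edon 0 10 (.leaf [5,7,8,9,6]) (.leaf [10,11,13,12])) (.edon 0 19 (.leaf [14,15,16,17,18]) (.leaf [19,20,22])))) (.free 1 [0,2,21]))), .t 1 (nat_lit 0) (.cn 2 3), .t 16 (nat_lit 0xb990bbd0bba0ba50ba30be60be50d4206d40673066e0660065d065b065a) (.z (.node 0 2 (.edon 0 6 (.leaf [0,3,4,5]) (.edon 0 11 (.leaf [6,7,8,10,9]) (.node 12 16 (.node 18 19 (.leaf [18,20,22,21]) (.leaf [12,15,17,19,14])) (.leaf [11,13,16])))) (.free 1 [1,2]))), .t 1 (nat_lit 0) (.cp 1 3), .t 4 (nat_lit 0x207e807e7)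 (.z (.edon 16 4 (.node 0 6 (.edon 15 21 (.free 2 [15,16,17,18,19,20,22]) (.leaf [0,8,9,14,21])) (.leaf [1,3,6,2])) (.free 2 [4,5,7,10,11,12,13]))), .t 13 (nat_lit 0x3f00d1e0d1b0d18068406820459045703de03dd0d2b0d24) (.z (.node 0 3 (.node 4 16 (.node 0 14 (.node 0 20 (.leaf [0,21,22]) (.leaf [15,17,19,20,18])) (.leaf [4,14,9,8,6])) (.free 2 [5,7,10,11,12,13,16])) (.free 1 [1,2,3]))), .t 1 (nat_lit 0) (.cn 2 3), .t 1 (nat_lit 0) (.cn 2 3), .t 15 (nat_lit 0xcc10d100d0f0cf00cef0cbe0cbd094f08d308d008a3089e08960895) (.z (.edon 1 21 (.edon 0 14 (.edon 0 9 (.free 2 [1,3,4,5,6,7,8]) (.leaf [9,10,11,13,12])) (.edon 0 19 (.leaf [14,15,16,17,18]) (.leaf [19,20,22]))) (.free 1 [0,2,21]))), .t 1 (nat_lit 0) (.cp 2 3)] (by decide +kernel) (by decide +kernel)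
theorem b115 : B 3680 3712 := Blk.of_chk [.t 1 (nat_lit 0) (.cn 2 3), .t 9 (nat_lit 0xb440b410b3c00050bdd0bdb0b5f0b5e) (.z (.edon 21 19 (.node 0 11 (.node 14 17 (.leaf [0,14,18,21]) (.leaf [12,13,16,17,15])) (.edon 4 9 (.free 2 [4,5,6,7,8,10,11]) (.leaf [1,3,9,2]))) (.free 1 [19,20,22]))), .t 9 (nat_lit 0xb040b410b3c0b110b0c0b950b930002) (.z (.node 16 0 (.edon 0 12 (.edon 4 6 (.free 2 [4,5,7,8,9,10,11]) (.leaf [1,3,6,2])) (.leaf [12,13,16,15,14])) (.free 2 [0,17,18,19,20,21,22]))), .t 9 (nat_lit 0xd1e0d1b0d180b110b0c0d2b0d240002) (.z (.node 20 0 (.edon 0 12 (.edon 4 6 (.free 2 [4,5,7,8,9,10,11]) (.leaf [1,3,6,2])) (.node 15 16 (.leaf [15,17,19,20,18]) (.leaf [12,13,16,14]))) (.free 1 [0,21,22]))), .t 9 (nat_lit 0xd1e0d1b0d180b110b0c0d2b0d240005) (.z (.node 20 0 (.edon 0 12 (.edon 4 9 (.free 2 [4,5,6,7,8,10,11]) (.leaf [1,3,9,2])) (.node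 15 16 (.leaf [15,17,19,20,18]) (.leaf [12,13,16,14]))) (.free 1 [0,21,22]))), .t 5 (nat_lit 0x182005200050002) (.z (.edon 16 4 (.node 0 9 (.edon 0 16 (.leaf [0,12,14,15]) (.free 2 [16,17,18,19,20,21,22])) (.leaf [1,3,6,9,2])) (.free 2 [4,5,7,8,10,11,13]))), .t 15 (nat_lit 0x59e0950094f094c05ae05ab05a305a10972096f095b095a05c805c7) (.z (.edon 1 21 (.edon 0 5 (.leaf [1,3,4]) (.edon 0 10 (.leaf [5,7,8,9,6]) (.edon 0 15 (.leaf [10,11,13,14,12]) (.free 2 [15,16,17,18,19,20,22])))) (.free 1 [0,2,21]))), .t 8 (nat_lit 0x78707ae07ac079a079707f807f7) (.z (.node 0 7 (.edon 0 16 (.node 12 13 (.leaf [0,12,14,15]) (.leaf [8,10,11,13,9])) (.free 2 [16,17,18,19,20,21,22])) (.free 2 [1,2,3,4,5,6,7]))), .t 15 (nat_lit 0x950094f094c05a30972096f095b095a0657065605c805c705a0059f) (.z (.edon 1 21 (.edon 0 5 (.leaf [1,3,4]) (.edon 0 10 (.leaf [5,6,7,8,9])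 (.edon 0 15 (.leaf [10,11,13,14,12]) (.free 2 [15,16,17,18,19,20,22])))) (.free 1 [0,2,21]))), .t 1 (nat_lit 0) (.cp 2 3), .t 9 (nat_lit 0xd1e0d1b0d180b110b0c0d2b0d240001) (.z (.node 20 0 (.edon 0 12 (.edon 4 5 (.free 2 [4,6,7,8,9,10,11]) (.leaf [1,3,5,2])) (.node 15 16 (.leaf [15,17,19,20,18]) (.leaf [12,13,16,14]))) (.free 1 [0,21,22]))), .t 17 (nat_lit 0xcc105a30d100d0f0cf00cef0cbe0cbd094f094c0657065605c805c705a0059f) (.z (.node 2 4 (.node 2 22 (.leaf [0,2,21]) (.edon 0 14 (.edon 0 10 (.leaf [5,6,7,8,9]) (.leaf [10,11,13,12])) (.edon 0 19 (.leaf [14,15,16,17,18]) (.leaf [19,20,22])))) (.free 1 [1,3,4]))), .t 1 (nat_lit 0) (.cn 7 2), .t 13 (nat_lit 0x78707aa07a80792078f07f507f40d3e0d070d000cf70cf6) (.z (.node 0 7 (.node 0 12 (.node 0 20 (.leaf [0,21,22]) (.node 14 16 (.leaf [14,17,18,19,20]) (.leaf [13,15,16]))) (.leaf [8,10,11,12,9]))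 (.free 2 [1,2,3,4,5,6,7]))), .t 15 (nat_lit 0xd110cf10cee0ccb0cc60cc10cc0094f08d308d008a3089e08960895) (.z (.edon 1 21 (.edon 0 19 (.edon 0 14 (.edon 0 9 (.free 2 [1,3,4,5,6,7,8]) (.leaf [9,10,11,13,12])) (.leaf [14,15,16,18,17])) (.leaf [19,20,22])) (.free 1 [0,2,21]))), .t 13 (nat_lit 0x34802a202a00273026b0b0909180913090208fe08f308f2) (.z (.edon 0 16 (.edon 0 3 (.leaf [0,1,2]) (.node 9 11 (.leaf [9,12,13,15,14]) (.edon 7 8 (.leaf [7,10,11]) (.leaf [3,4,6,8,5])))) (.free 2 [16,17,18,19,20,21,22]))), .t 8 (nat_lit 0x94f0830082d0805080007f807f7) (.z (.node 0 7 (.edon 0 16 (.node 9 13 (.leaf [0,9,14,15]) (.leaf [8,10,11,13,12])) (.free 2 [16,17,18,19,20,21,22])) (.free 2 [1,2,3,4,5,6,7]))), .t 13 (nat_lit 0xb0909180913090208fe08f308f2034902a3029f0273026b) (.z (.edon 0 3 (.free 1 [0,1,2]) (.node 5 11 (.edon 0 9 (.leaf [3,4,5,8,6]) (.edon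 0 16 (.leaf [9,12,13,15,14]) (.free 2 [16,17,18,19,20,21,22]))) (.leaf [7,10,11])))), .t 5 (nat_lit 0x181005100040002) (.z (.node 3 7 (.node 0 8 (.free 4 [0,9,10,11,12,13,14,15,16,17,18,19,20,21,22]) (.leaf [1,3,6,8,2])) (.free 1 [4,5,7]))), .t 1 (nat_lit 0) (.cn 2 3), .t 6 (nat_lit 0x10b410b3c0cf70cf6) (.z (.edon 0 20 (.node 0 11 (.node 14 16 (.leaf [0,14,17,18,19]) (.leaf [12,13,16,15])) (.edon 4 5 (.free 2 [4,6,7,8,9,10,11]) (.leaf [1,3,5,2]))) (.free 1 [20,21,22]))), .t 6 (nat_lit 0x20b410b3c0cf70cf6) (.z (.edon 0 20 (.node 0 11 (.node 14 16 (.leaf [0,14,17,18,19]) (.leaf [12,13,16,15])) (.edon 4 6 (.free 2 [4,5,7,8,9,10,11]) (.leaf [1,3,6,2]))) (.free 1 [20,21,22]))), .t 1 (nat_lit 0) (.cn 2 3), .t 5 (nat_lit 0x17c004c00040001) (.z (.node 8 0 (.edon 4 8 (.leaf [4,6,7]) (.leaf [1,3,5,8,2])) (.free 4 [0,9,10,11,12,13,14,15,16,17,18,19,20,21,22]))),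 .t 1 (nat_lit 0) (.fa 2), .t 7 (nat_lit 0xd410d0d0d060d0501a801a7) (.z (.node 4 16 (.edon 0 14 (.node 2 4 (.leaf [0,2,5,8,9]) (.leaf [1,3,4])) (.edon 15 20 (.leaf [15,18,19]) (.leaf [14,17,20,22,21]))) (.free 2 [6,7,10,11,12,13,16]))), .t 13 (nat_lit 0x78707aa07a80792078f0cfb0cf70cf507f507f40d070d00) (.z (.node 0 7 (.node 0 12 (.node 0 20 (.leaf [0,21,22]) (.node 14 16 (.leaf [14,18,19,20,17]) (.leaf [13,15,16]))) (.leaf [8,10,11,12,9])) (.free 2 [1,2,3,4,5,6,7]))), .t 7 (nat_lit 0xd420d0d0d0b0d0a01a801a7) (.z (.node 4 16 (.edon 0 14 (.node 2 4 (.leaf [0,2,5,8,9]) (.leaf [1,3,4])) (.edon 15 20 (.leaf [15,17,19]) (.leaf [14,18,20,22,21]))) (.free 2 [6,7,10,11,12,13,16]))), .t 13 (nat_lit 0x78707aa07a80792078f0cfa0cf80cf407f507f40d070d00) (.z (.node 0 7 (.node 0 12 (.node 0 20 (.leaf [0,21,22]) (.node 14 16 (.leaf [14,17,19,20,18]) (.leaf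 [13,15,16]))) (.leaf [8,10,11,12,9])) (.free 2 [1,2,3,4,5,6,7]))), .t 1 (nat_lit 0) (.cn 2 3), .t 10 (nat_lit 0xd420d0d0d0b0d0a0372037102b102b0026b) (.z (.edon 0 3 (.free 1 [0,1,2]) (.node 4 16 (.edon 0 14 (.leaf [3,4,9,8,5]) (.edon 15 20 (.leaf [15,17,19]) (.leaf [14,18,20,22,21]))) (.free 2 [6,7,10,11,12,13,16])))), .t 10 (nat_lit 0xd410d0d0d060d050372037102b102b0026b) (.z (.edon 0 3 (.free 1 [0,1,2]) (.node 4 16 (.edon 0 14 (.leaf [3,4,9,8,5]) (.edon 15 20 (.leaf [15,18,19]) (.leaf [14,17,20,22,21]))) (.free 2 [6,7,10,11,12,13,16]))))] (by decide +kernel) (by decide +kernel)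
theorem b116 : B 3712 3744 := Blk.of_chk [.t 9 (nat_lit 0xcfb0cf70cf50b410b3c0d070d000001) (.z (.node 20 0 (.edon 0 12 (.edon 4 5 (.free 2 [4,6,7,8,9,10,11]) (.leaf [1,3,5,2])) (.node 14 16 (.leaf [14,18,19,20,17]) (.leaf [12,13,16,15]))) (.free 1 [0,21,22]))), .t 9 (nat_lit 0xcfa0cf80cf40b410b3c0d070d000001) (.z (.node 20 0 (.edon 0 12 (.edon 4 5 (.free 2 [4,6,7,8,9,10,11]) (.leaf [1,3,5,2])) (.node 14 16 (.leaf [14,17,19,20,18]) (.leaf [12,13,16,15]))) (.free 1 [0,21,22]))), .t 7 (nat_lit 0xd420d0d0d0b0d0a01d701d6) (.z (.node 4 16 (.edon 0 14 (.node 2 4 (.leaf [0,2,6,8,9]) (.leaf [1,3,4])) (.edon 15 20 (.leaf [15,17,19]) (.leaf [14,18,20,22,21]))) (.free 2 [5,7,10,11,12,13,16]))), .t 7 (nat_lit 0xd1f0d1a0d190d2b0d24093c) (.z (.node 4 16 (.edon 0 9 (.free 2 [0,1,2,3,4,6,8]) (.node 14 20 (.leaf [9,14,22,21]) (.leaf [15,18,19,20,17])))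 (.free 2 [5,7,10,11,12,13,16]))), .t 1 (nat_lit 0) (.cn 2 3), .t 1 (nat_lit 0) (.cn 2 3), .t 8 (nat_lit 0x66005d105ce05ba05b605a605a5) (.z (.node 2 4 (.edon 5 11 (.leaf [5,6,7,10,9]) (.free 4 [0,2,8,11,12,13,14,15,16,17,18,19,20,21,22])) (.free 1 [1,3,4]))), .t 7 (nat_lit 0xd410d0d0d060d0501b101b0) (.z (.node 4 16 (.edon 0 14 (.node 2 4 (.leaf [0,2,5,8,12]) (.leaf [1,3,4])) (.edon 15 20 (.leaf [15,18,19]) (.leaf [14,17,20,22,21]))) (.free 2 [6,7,9,10,11,13,16]))), .t 10 (nat_lit 0xd410d0d0d060d0503ee03ed02de02dd0273) (.z (.edon 0 3 (.free 1 [0,1,2]) (.node 4 16 (.edon 0 14 (.leaf [3,4,12,8,6]) (.edon 15 20 (.leaf [15,18,19]) (.leaf [14,17,20,22,21]))) (.free 2 [5,7,9,10,11,13,16])))), .t 7 (nat_lit 0xd410d0d0d060d0501e001df) (.z (.node 4 16 (.edon 0 14 (.node 2 4 (.leaf [0,2,6,8,12]) (.leaf [1,3,4])) (.edon 15 20 (.leaf [15,18,19])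 (.leaf [14,17,20,22,21]))) (.free 2 [5,7,9,10,11,13,16]))), .t 1 (nat_lit 0) (.cn 2 3), .t 6 (nat_lit 0x20d410d0d0d060d05) (.z (.edon 16 4 (.node 0 6 (.edon 0 14 (.leaf [0,8,9,12]) (.node 17 19 (.leaf [14,17,20,22,21]) (.leaf [16,18,19]))) (.leaf [1,3,6,2])) (.free 2 [4,5,7,10,11,13,15]))), .t 1 (nat_lit 0) (.cn 2 3), .t 1 (nat_lit 0) (.cn 2 3), .t 7 (nat_lit 0xd410d0d0d060d0501ed01ec) (.z (.node 4 16 (.edon 0 14 (.node 2 4 (.leaf [0,2,6,9,12]) (.leaf [1,3,4])) (.edon 15 20 (.leaf [15,18,19]) (.leaf [14,17,20,22,21]))) (.free 2 [5,7,8,10,11,13,16]))), .t 7 (nat_lit 0xd410d0d0d060d0501bf01be) (.z (.node 4 16 (.edon 0 14 (.node 2 4 (.leaf [0,2,5,9,12]) (.leaf [1,3,4])) (.edon 15 20 (.leaf [15,18,19]) (.leaf [14,17,20,22,21]))) (.free 2 [6,7,8,10,11,13,16]))), .t 1 (nat_lit 0) (.cn 2 3), .t 6 (nat_lit 0x10d410d0d0d060d05) (.z (.edon 16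 4 (.node 0 5 (.edon 0 14 (.leaf [0,8,9,12]) (.node 17 19 (.leaf [14,17,20,22,21]) (.leaf [16,18,19]))) (.leaf [1,3,5,2])) (.free 2 [4,6,7,10,11,13,15]))), .t 4 (nat_lit 0x107c507c4) (.z (.edon 16 4 (.node 0 5 (.edon 0 16 (.leaf [0,8,9,12,14]) (.free 2 [16,17,18,19,20,21,22])) (.leaf [1,3,5,2])) (.free 2 [4,6,7,10,11,13,15]))), .t 1 (nat_lit 0) (.cn 1 3), .t 10 (nat_lit 0xd110cf10cee0ccb0cc60cc10cc0094f094c) (.z (.node 0 7 (.node 9 22 (.leaf [0,8,9,21]) (.edon 0 19 (.edon 0 14 (.leaf [10,11,13,12]) (.leaf [14,15,16,18,17])) (.leaf [19,20,22]))) (.free 2 [1,2,3,4,5,6,7]))), .t 10 (nat_lit 0x78707aa07a80792078f07f507f40c0f0c0c) (.z (.node 0 7 (.node 0 12 (.node 0 16 (.free 2 [0,17,18,19,20,21,22]) (.leaf [13,15,16,14])) (.leaf [8,10,11,12,9])) (.free 2 [1,2,3,4,5,6,7]))), .t 10 (nat_lit 0x94f094c0d110cf10cee0ccb0cc60cc10cc0) (.z (.node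 0 7 (.edon 19 21 (.leaf [19,20,22]) (.node 8 13 (.edon 14 21 (.leaf [14,15,16,18,17]) (.leaf [0,8,9,21])) (.leaf [10,11,13,12]))) (.free 2 [1,2,3,4,5,6,7]))), .t 12 (nat_lit 0xd41094b094709460b090b04034902a3029f0273026b) (.z (.edon 0 3 (.free 1 [0,1,2]) (.node 5 11 (.edon 0 9 (.leaf [3,4,5,8,6]) (.edon 14 16 (.leaf [12,13,15,14]) (.node 17 19 (.leaf [9,17,20,22,21]) (.leaf [16,18,19])))) (.leaf [7,10,11])))), .t 9 (nat_lit 0x7c307e307e107cf07cd085e085d0002) (.z (.node 16 0 (.edon 4 16 (.free 2 [4,5,7,10,11,13,15]) (.edon 0 8 (.leaf [1,3,6,2]) (.leaf [8,12,14,16,9]))) (.free 2 [0,17,18,19,20,21,22]))), .t 10 (nat_lit 0xd41094b09470946034902a3029f0273026b) (.z (.edon 0 3 (.free 1 [0,1,2]) (.node 5 11 (.edon 0 9 (.leaf [3,4,5,8,6]) (.node 9 19 (.leaf [9,17,20,22,21]) (.free 2 [12,13,14,15,16,18,19]))) (.leaf [7,10,11])))), .t 4 (nat_lit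 0x207c507c4) (.z (.edon 16 4 (.node 0 6 (.edon 0 16 (.leaf [0,8,9,12,14]) (.free 2 [16,17,18,19,20,21,22])) (.leaf [1,3,6,2])) (.free 2 [4,5,7,10,11,13,15]))), .t 10 (nat_lit 0xcc10d100d0f0cf00cef0cbe0cbd094f094c) (.z (.node 0 7 (.node 9 22 (.leaf [0,8,9,21]) (.edon 0 14 (.leaf [10,11,13,12]) (.edon 0 19 (.leaf [14,15,16,17,18]) (.leaf [19,20,22])))) (.free 2 [1,2,3,4,5,6,7]))), .t 10 (nat_lit 0xcc1094f094c0d100d0f0cf00cef0cbe0cbd) (.z (.node 0 7 (.edon 19 21 (.leaf [19,20,22]) (.node 8 13 (.edon 14 21 (.leaf [14,15,16,17,18]) (.leaf [0,8,9,21])) (.leaf [10,11,13,12]))) (.free 2 [1,2,3,4,5,6,7]))), .t 12 (nat_lit 0xd42094b094909480b090b04034902a3029f0273026b) (.z (.edon 0 3 (.free 1 [0,1,2]) (.node 5 11 (.edon 0 9 (.leaf [3,4,5,8,6]) (.edon 14 16 (.leaf [12,13,15,14]) (.node 18 19 (.leaf [9,18,20,22,21]) (.leaf [16,17,19])))) (.leaf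 [7,10,11])))), .t 10 (nat_lit 0xd42094b09490948034902a3029f0273026b) (.z (.edon 0 3 (.free 1 [0,1,2]) (.node 5 11 (.edon 0 9 (.leaf [3,4,5,8,6]) (.node 9 19 (.leaf [9,18,20,22,21]) (.free 2 [12,13,14,15,16,17,19]))) (.leaf [7,10,11])))), .t 6 (nat_lit 0x34802a202a00273026b) (.z (.edon 0 3 (.free 1 [0,1,2]) (.edon 7 8 (.free 4 [7,9,10,11,12,13,14,15,16,17,18,19,20,21,22]) (.leaf [3,4,6,8,5]))))] (by decide +kernel) (by decide +kernel)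
theorem b117 : B 3744 3776 := Blk.of_chk [.t 1 (nat_lit 0) (.cp 2 3), .t 10 (nat_lit 0xc500cf70cf60ca90ca80c490c4701bf01be) (.z (.edon 0 20 (.node 4 16 (.edon 0 13 (.node 2 4 (.leaf [0,2,5,9,12]) (.leaf [1,3,4])) (.leaf [13,14,17,18,19])) (.free 2 [6,7,8,10,11,15,16])) (.free 1 [20,21,22]))), .t 1 (nat_lit 0) (.cn 7 3), .t 12 (nat_lit 0x94c0960095d095709540d410d0d0d060d05097b0979) (.z (.node 0 3 (.edon 0 10 (.free 2 [0,4,5,6,7,8,9]) (.edon 13 16 (.leaf [10,11,15,13,12]) (.node 17 19 (.leaf [14,17,20,22,21]) (.leaf [16,18,19])))) (.free 1 [1,2,3]))), .t 12 (nat_lit 0x94c0960095d09570954097b09790d410d0d0d060d05) (.z (.node 0 3 (.edon 0 10 (.free 2 [0,4,5,6,7,8,9]) (.node 14 15 (.node 17 19 (.leaf [14,17,20,22,21]) (.leaf [16,18,19])) (.leaf [10,11,15,13,12]))) (.free 1 [1,2,3]))), .t 12 (nat_lit 0x6550660065d065c06590d0d0c0a0bda0bd906730671)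 (.z (.node 0 2 (.edon 0 6 (.leaf [0,3,4,5]) (.edon 0 11 (.leaf [6,7,10,9,8]) (.node 14 19 (.leaf [12,14,20,22,21]) (.free 2 [11,13,15,16,17,18,19])))) (.free 1 [1,2]))), .t 10 (nat_lit 0xb0c0b090b04078a07870b940b910b400b3e) (.z (.node 0 7 (.node 0 11 (.node 0 16 (.free 2 [0,17,18,19,20,21,22]) (.leaf [12,13,15,16,14])) (.leaf [8,10,11,9])) (.free 2 [1,2,3,4,5,6,7]))), .t 5 (nat_lit 0x78a07870b320b30) (.z (.node 0 7 (.node 0 11 (.edon 15 21 (.free 2 [15,16,17,18,19,20,22]) (.leaf [0,12,13,14,21])) (.leaf [8,10,11,9])) (.free 2 [1,2,3,4,5,6,7]))), .t 10 (nat_lit 0x78a07870c0f0c0c0d3e0c060c040c000bff) (.z (.node 0 7 (.node 0 11 (.node 0 20 (.leaf [0,21,22]) (.node 12 16 (.leaf [12,17,18,19,20]) (.leaf [13,15,16,14]))) (.leaf [8,10,11,9])) (.free 2 [1,2,3,4,5,6,7]))), .t 8 (nat_lit 0x95708d708d608b108ad089c089b) (.z (.node 0 7 (.edon 0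 16 (.node 8 12 (.leaf [0,8,13,14]) (.leaf [9,10,11,15,12])) (.free 2 [16,17,18,19,20,21,22])) (.free 2 [1,2,3,4,5,6,7]))), .t 6 (nat_lit 0xc6c0bda0b8f0b390b37) (.z (.node 0 7 (.edon 0 11 (.leaf [0,8,9,10]) (.edon 11 22 (.free 2 [11,15,16,17,18,19,20]) (.leaf [12,13,14,22,21]))) (.free 2 [1,2,3,4,5,6,7]))), .t 15 (nat_lit 0x94c095c09590953095009730971065805c905c605af05aa05a305a2) (.z (.edon 1 21 (.edon 0 5 (.leaf [1,3,4]) (.edon 0 10 (.leaf [5,6,7,9,8]) (.edon 0 15 (.leaf [10,11,14,13,12]) (.free 2 [15,16,17,18,19,20,22])))) (.free 1 [0,2,21]))), .t 6 (nat_lit 0x10b320b300d100d0f) (.z (.edon 21 19 (.node 0 11 (.edon 15 21 (.leaf [15,16,17,18]) (.leaf [0,12,13,14,21])) (.edon 4 5 (.free 2 [4,6,7,8,9,10,11]) (.leaf [1,3,5,2]))) (.free 1 [19,20,22]))), .t 17 (nat_lit 0xcc10d100d0f0cf00cef0cbe0cbd094f094c065805c905c605af05aa05a305a2) (.z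 (.edon 1 21 (.edon 0 5 (.leaf [1,3,4]) (.edon 0 10 (.leaf [5,6,7,9,8]) (.edon 0 14 (.leaf [10,11,13,12]) (.edon 0 19 (.leaf [14,15,16,17,18]) (.leaf [19,20,22]))))) (.free 1 [0,2,21]))), .t 5 (nat_lit 0xc6c0d3e01b101b0) (.z (.node 4 16 (.edon 0 13 (.node 2 4 (.leaf [0,2,5,8,12]) (.leaf [1,3,4])) (.edon 17 22 (.leaf [17,18,19,20]) (.leaf [13,22,21,14]))) (.free 2 [6,7,9,10,11,15,16]))), .t 7 (nat_lit 0xd410d0d0d060d0501b101b0) (.z (.node 4 16 (.edon 0 13 (.node 2 4 (.leaf [0,2,5,8,12]) (.leaf [1,3,4])) (.edon 13 20 (.leaf [13,18,19]) (.leaf [14,17,20,22,21]))) (.free 2 [6,7,9,10,11,15,16]))), .t 12 (nat_lit 0x2b90d410d0d0d060d0506080606030e030d02b802b7) (.z (.edon 0 3 (.free 1 [0,1,2]) (.edon 4 16 (.free 2 [4,6,7,9,10,11,15]) (.edon 0 14 (.leaf [3,13,12,8,5]) (.node 17 19 (.leaf [14,17,20,22,21]) (.leaf [16,18,19])))))), .t 6 (nat_lit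 0x10b320b300d110d0e) (.z (.edon 21 19 (.node 0 11 (.edon 15 21 (.leaf [15,16,18,17]) (.leaf [0,12,13,14,21])) (.edon 4 5 (.free 2 [4,6,7,8,9,10,11]) (.leaf [1,3,5,2]))) (.free 1 [19,20,22]))), .t 1 (nat_lit 0) (.cn 4 3), .t 8 (nat_lit 0xd110ca20c9f0c7a0c780c720c71) (.z (.edon 13 21 (.edon 0 19 (.leaf [13,15,16,18,17]) (.leaf [19,20,22])) (.free 4 [0,1,2,3,4,5,6,7,8,9,10,11,12,14,21]))), .t 17 (nat_lit 0xd110cf10cee0ccb0cc60cc10cc0094f094c065805c905c605af05aa05a305a2) (.z (.edon 1 21 (.edon 0 5 (.leaf [1,3,4]) (.edon 0 10 (.leaf [5,6,7,9,8]) (.edon 0 14 (.leaf [10,11,13,12]) (.edon 0 19 (.leaf [14,15,16,18,17]) (.leaf [19,20,22]))))) (.free 1 [0,2,21]))), .t 1 (nat_lit 0) (.cn 2 3), .t 15 (nat_lit 0x94c095c09590953095005a105a0059e0973097105c905c605af05ad) (.z (.edon 1 21 (.edon 0 5 (.leaf [1,3,4]) (.edon 0 10 (.leaf [5,7,9,8,6]) (.edon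 0 15 (.leaf [10,11,14,13,12]) (.free 2 [15,16,17,18,19,20,22])))) (.free 1 [0,2,21]))), .t 10 (nat_lit 0x1f305c905c606b206b1024b024a01f101f0) (.z (.edon 0 16 (.node 0 12 (.leaf [0,13,14,15]) (.node 2 4 (.node 6 9 (.leaf [2,6,10,11,12]) (.leaf [5,7,9,8])) (.leaf [1,3,4]))) (.free 2 [16,17,18,19,20,21,22]))), .t 6 (nat_lit 0x20b320b300d100d0f) (.z (.edon 21 19 (.node 0 11 (.edon 15 21 (.leaf [15,16,17,18]) (.leaf [0,12,13,14,21])) (.edon 4 6 (.free 2 [4,5,7,8,9,10,11]) (.leaf [1,3,6,2]))) (.free 1 [19,20,22]))), .t 17 (nat_lit 0xcc105a105a0059e0d100d0f0cf00cef0cbe0cbd094f094c05c905c605af05ad) (.z (.edon 1 21 (.edon 0 5 (.leaf [1,3,4]) (.edon 0 10 (.leaf [5,7,9,8,6]) (.edon 0 14 (.leaf [10,11,13,12]) (.edon 0 19 (.leaf [14,15,16,17,18]) (.leaf [19,20,22]))))) (.free 1 [0,2,21]))), .t 8 (nat_lit 0x5c605d105ce05cd05ca05e405e2) (.z (.node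 2 4 (.edon 8 11 (.leaf [5,7,10,9,8]) (.free 4 [0,2,6,11,12,13,14,15,16,17,18,19,20,21,22])) (.free 1 [1,3,4]))), .t 10 (nat_lit 0xb050b400b3d0b100b0d078a07870b940b92) (.z (.node 0 7 (.node 0 11 (.node 0 16 (.free 2 [0,17,18,19,20,21,22]) (.leaf [12,14,15,16,13])) (.leaf [8,10,11,9])) (.free 2 [1,2,3,4,5,6,7]))), .t 1 (nat_lit 0) (.cn 2 3), .t 10 (nat_lit 0x3450372036e034e034a03de03dd0b080b06) (.z (.node 0 3 (.node 0 11 (.edon 0 16 (.leaf [0,12,13,14,15]) (.free 2 [16,17,18,19,20,21,22])) (.edon 7 9 (.leaf [7,10,11]) (.leaf [4,5,9,8,6]))) (.free 1 [1,2,3]))), .t 1 (nat_lit 0) (.cp 2 3), .t 10 (nat_lit 0x3450372036e034e034a03de03dd0b320b30) (.z (.node 0 3 (.node 0 11 (.edon 15 21 (.free 2 [15,16,17,18,19,20,22]) (.leaf [0,12,13,14,21])) (.edon 7 9 (.leaf [7,10,11]) (.leaf [4,5,9,8,6]))) (.free 1 [1,2,3])))] (by decide +kernel) (by decide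 +kernel)
theorem b118 : B 3776 3808 := Blk.of_chk [.t 15 (nat_lit 0x3450372036e034e034a0b0c0b090b0403de03dd0b940b910b400b3e) (.z (.node 0 3 (.node 0 11 (.node 0 16 (.free 2 [0,17,18,19,20,21,22]) (.leaf [12,13,15,16,14])) (.edon 7 9 (.leaf [7,10,11]) (.leaf [4,5,9,8,6]))) (.free 1 [1,2,3]))), .t 17 (nat_lit 0x5a105a0059e0d110cf10cee0ccb0cc60cc10cc0094f094c05c905c605af05ad) (.z (.edon 1 21 (.edon 0 5 (.leaf [1,3,4]) (.edon 0 14 (.edon 0 10 (.leaf [5,7,9,8,6]) (.leaf [10,11,13,12])) (.edon 0 19 (.leaf [14,15,16,18,17]) (.leaf [19,20,22])))) (.free 1 [0,2,21]))), .t 1 (nat_lit 0) (.fa 3), .t 4 (nat_lit 0xc6c07920790) (.z (.node 0 7 (.edon 11 22 (.free 2 [11,15,16,17,18,19,20]) (.edon 0 13 (.leaf [0,8,9,10,12]) (.leaf [13,22,21,14]))) (.free 2 [1,2,3,4,5,6,7]))), .t 15 (nat_lit 0x34503780375035503510b0c0b090b0403e403e30b940b910b400b3e)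 (.z (.node 0 3 (.node 0 11 (.node 0 16 (.free 2 [0,17,18,19,20,21,22]) (.leaf [12,13,15,16,14])) (.edon 7 10 (.leaf [7,9,11]) (.leaf [4,5,10,8,6]))) (.free 1 [1,2,3]))), .t 5 (nat_lit 0xd0d0c0a0bda0bd9) (.z (.node 0 7 (.edon 0 11 (.leaf [0,8,9,10]) (.node 14 19 (.leaf [12,14,20,22,21]) (.free 2 [11,13,15,16,17,18,19]))) (.free 2 [1,2,3,4,5,6,7]))), .t 8 (nat_lit 0x5ca05c905c605e305e005d005cf) (.z (.node 2 4 (.edon 8 11 (.leaf [5,7,9,10,8]) (.free 4 [0,2,6,11,12,13,14,15,16,17,18,19,20,21,22])) (.free 1 [1,3,4]))), .t 1 (nat_lit 0) (.fa 3), .t 5 (nat_lit 0x957095407d307d2) (.z (.node 0 7 (.edon 0 16 (.node 9 12 (.leaf [0,8,9,13,14]) (.leaf [10,11,15,12])) (.free 2 [16,17,18,19,20,21,22])) (.free 2 [1,2,3,4,5,6,7]))), .t 12 (nat_lit 0x95009660963095709540991098f0d410cbb0cb40cb2) (.z (.node 0 3 (.edon 0 10 (.free 2 [0,4,5,6,7,8,9]) (.node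 13 15 (.node 17 19 (.leaf [13,17,20,22,21]) (.leaf [16,18,19])) (.leaf [10,11,15,14,12]))) (.free 1 [1,2,3]))), .t 1 (nat_lit 0) (.cp 2 3), .t 6 (nat_lit 0x10d410d0d0d060d05) (.z (.edon 16 4 (.node 0 5 (.edon 0 14 (.leaf [0,8,10,12]) (.node 17 19 (.leaf [14,17,20,22,21]) (.leaf [16,18,19]))) (.leaf [1,3,5,2])) (.free 2 [4,6,7,9,11,13,15]))), .t 6 (nat_lit 0x20d410d0d0d060d05) (.z (.edon 16 4 (.node 0 6 (.edon 0 14 (.leaf [0,8,10,12]) (.node 17 19 (.leaf [14,17,20,22,21]) (.leaf [16,18,19]))) (.leaf [1,3,6,2])) (.free 2 [4,5,7,9,11,13,15]))), .t 10 (nat_lit 0xd410d0d0d060d050384038302b802b7026b) (.z (.edon 0 3 (.free 1 [0,1,2]) (.node 4 16 (.edon 0 14 (.leaf [3,4,12,8,5]) (.edon 15 20 (.leaf [15,18,19]) (.leaf [14,17,20,22,21]))) (.free 2 [6,7,9,10,11,13,16])))), .t 8 (nat_lit 0x659065806550672066f065f065e) (.z (.node 2 4 (.edon 8 11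 (.leaf [6,7,9,10,8]) (.free 4 [0,2,5,11,12,13,14,15,16,17,18,19,20,21,22])) (.free 1 [1,3,4]))), .t 4 (nat_lit 0x107d307d2) (.z (.edon 16 4 (.node 0 5 (.edon 0 16 (.leaf [0,8,9,13,14]) (.free 2 [16,17,18,19,20,21,22])) (.leaf [1,3,5,2])) (.free 2 [4,6,7,10,11,12,15]))), .t 10 (nat_lit 0x78a07870d110cf10cee0ccb0cc60cc10cc0) (.z (.node 0 7 (.node 0 11 (.edon 14 21 (.edon 0 19 (.leaf [14,15,16,18,17]) (.leaf [19,20,22])) (.leaf [0,12,13,21])) (.leaf [8,10,11,9])) (.free 2 [1,2,3,4,5,6,7]))), .t 11 (nat_lit 0xd060cb40c6c0c580c570372037102b102b0026b) (.z (.edon 0 3 (.free 1 [0,1,2]) (.node 4 16 (.edon 0 13 (.leaf [3,4,9,8,5]) (.node 14 20 (.leaf [13,14,17,22,21]) (.leaf [18,19,20]))) (.free 2 [6,7,10,11,12,15,16])))), .t 10 (nat_lit 0xd0d0cbb0c6c0c6b0372037102b102b0026b) (.z (.edon 0 3 (.free 1 [0,1,2]) (.node 4 16 (.edon 0 13 (.leaf [3,4,9,8,5])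 (.edon 17 20 (.leaf [17,18,19]) (.leaf [13,14,20,22,21]))) (.free 2 [6,7,10,11,12,15,16])))), .t 12 (nat_lit 0x6550660065d065c06590d420cbb0cb90cb806730671) (.z (.node 0 2 (.edon 0 6 (.leaf [0,3,4,5]) (.edon 0 11 (.leaf [6,7,10,9,8]) (.node 13 19 (.leaf [13,18,20,22,21]) (.free 2 [11,12,14,15,16,17,19])))) (.free 1 [1,2]))), .t 1 (nat_lit 0) (.fa 4), .t 15 (nat_lit 0x8960d110cf10cee0ccb0cc60cc10cc0094e094d08d208d108930892) (.z (.edon 1 21 (.edon 0 14 (.edon 0 9 (.free 2 [1,3,4,5,6,7,8]) (.leaf [9,10,11,12,13])) (.edon 0 19 (.leaf [14,15,16,18,17]) (.leaf [19,20,22]))) (.free 1 [0,2,21]))), .t 6 (nat_lit 0x10d410d0d0d060d05) (.z (.edon 16 4 (.node 0 5 (.edon 0 14 (.leaf [0,8,9,13]) (.node 17 19 (.leaf [14,17,20,22,21]) (.leaf [16,18,19]))) (.leaf [1,3,5,2])) (.free 2 [4,6,7,10,11,12,15]))), .t 7 (nat_lit 0xd410d0d0d060d0501b401b3) (.z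 (.node 4 16 (.edon 0 14 (.node 2 4 (.leaf [0,2,5,8,13]) (.leaf [1,3,4])) (.edon 15 20 (.leaf [15,18,19]) (.leaf [14,17,20,22,21]))) (.free 2 [6,7,9,10,11,12,16]))), .t 11 (nat_lit 0x310031c031b03170314001d032303220cf70cf6) (.z (.edon 0 20 (.node 0 12 (.node 14 16 (.leaf [0,14,17,18,19]) (.leaf [13,15,16])) (.node 3 7 (.edon 3 8 (.leaf [3,10,11,12,9]) (.leaf [1,5,8,2])) (.leaf [4,6,7]))) (.free 1 [20,21,22]))), .t 10 (nat_lit 0x78a07870b410b3f0d3e0d070d000cf70cf6) (.z (.node 0 7 (.node 0 11 (.node 0 20 (.leaf [0,21,22]) (.node 14 16 (.leaf [14,17,18,19,20]) (.leaf [12,16,15,13]))) (.leaf [8,10,11,9])) (.free 2 [1,2,3,4,5,6,7]))), .t 7 (nat_lit 0xd0d0cbb0c6c0c6b06d406d2) (.z (.edon 0 7 (.free 2 [0,1,2,3,4,5,6]) (.edon 0 11 (.leaf [7,10,9,8]) (.node 14 19 (.leaf [13,14,20,22,21]) (.free 2 [11,12,15,16,17,18,19]))))), .t 6 (nat_lit 0x20d410d0d0d060d05)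 (.z (.edon 16 4 (.node 0 6 (.edon 0 14 (.leaf [0,8,9,13]) (.node 17 19 (.leaf [14,17,20,22,21]) (.leaf [16,18,19]))) (.leaf [1,3,6,2])) (.free 2 [4,5,7,10,11,12,15]))), .t 6 (nat_lit 0x20d410d0d0d060d05) (.z (.edon 16 4 (.node 0 6 (.edon 0 14 (.leaf [0,8,9,13]) (.node 14 19 (.leaf [14,17,20,22,21]) (.leaf [16,18,19]))) (.leaf [1,3,6,2])) (.free 2 [4,5,7,10,11,12,15]))), .t 11 (nat_lit 0xd060cb40c6c0c580c5703de03dd02d802d60273) (.z (.edon 0 3 (.free 1 [0,1,2]) (.node 4 16 (.edon 0 13 (.leaf [3,4,9,8,6]) (.node 14 20 (.leaf [13,14,17,22,21]) (.leaf [18,19,20]))) (.free 2 [5,7,10,11,12,15,16])))), .t 13 (nat_lit 0x1e30cfb0cf70cf5068106800207020601d701d60d070d00) (.z (.node 4 16 (.node 0 13 (.node 0 20 (.leaf [0,21,22]) (.leaf [14,18,19,20,17])) (.node 2 4 (.leaf [2,6,8,9,13]) (.leaf [1,3,4]))) (.free 2 [5,7,10,11,12,15,16]))), .t 4 (nat_lit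 0x207d307d2) (.z (.edon 16 4 (.node 0 6 (.edon 0 16 (.leaf [0,8,9,13,14]) (.free 2 [16,17,18,19,20,21,22])) (.leaf [1,3,6,2])) (.free 2 [4,5,7,10,11,12,15])))] (by decide +kernel) (by decide +kernel)
theorem b119 : B 3808 3840 := Blk.of_chk [.t 11 (nat_lit 0xcbb0cf80c010bfd0bcd0bc80bbd0bbb06d406d2) (.z (.edon 0 7 (.free 2 [0,1,2,3,4,5,6]) (.edon 0 11 (.leaf [7,10,9,8]) (.node 12 16 (.edon 12 20 (.leaf [12,14,17,19,18]) (.leaf [13,20,22,21])) (.leaf [11,15,16]))))), .t 7 (nat_lit 0xd420cbb0cb90cb806d406d2) (.z (.edon 0 7 (.free 2 [0,1,2,3,4,5,6]) (.edon 0 11 (.leaf [7,10,9,8]) (.edon 12 20 (.free 2 [11,12,14,15,16,17,19]) (.leaf [13,18,20,22,21]))))), .t 15 (nat_lit 0x3450372036e034e034a0cab0caa0ca603de03dd0b940b910cb50cb0) (.z (.node 0 3 (.node 0 11 (.node 0 20 (.leaf [0,21,22]) (.node 13 16 (.leaf [13,17,19,20,18]) (.leaf [12,15,16,14])))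 (.edon 7 9 (.leaf [7,10,11]) (.leaf [4,5,9,8,6]))) (.free 1 [1,2,3]))), .t 10 (nat_lit 0xcc10d100d0f0cf00cef0cbe0cbd08560855) (.z (.node 0 7 (.node 8 11 (.node 13 22 (.leaf [0,8,12,13,21]) (.edon 0 19 (.leaf [14,15,16,17,18]) (.leaf [19,20,22]))) (.leaf [9,10,11])) (.free 2 [1,2,3,4,5,6,7]))), .t 14 (nat_lit 0x6550660065d065c06590d420cbb0cb90cb80a090a0706730671) (.z (.node 0 2 (.edon 0 6 (.leaf [0,3,4,5]) (.edon 0 11 (.leaf [6,7,10,9,8]) (.edon 14 16 (.leaf [11,15,14,12]) (.node 18 19 (.leaf [13,18,20,22,21]) (.leaf [16,17,19]))))) (.free 1 [1,2]))), .t 1 (nat_lit 0) (.cn 2 3), .t 15 (nat_lit 0x3450372036e034e034a0cac0ca90ca703de03dd0b940b910cb50cb0) (.z (.node 0 3 (.node 0 11 (.node 0 20 (.leaf [0,21,22]) (.node 13 16 (.leaf [13,18,19,20,17]) (.leaf [12,15,16,14]))) (.edon 7 9 (.leaf [7,10,11]) (.leaf [4,5,9,8,6]))) (.free 1 [1,2,3]))),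 .t 10 (nat_lit 0x8fc08fb0d110cf10cee0ccb0cc60cc10cc0) (.z (.node 0 7 (.node 9 11 (.edon 14 21 (.edon 0 19 (.leaf [14,15,16,18,17]) (.leaf [19,20,22])) (.leaf [0,9,12,13,21])) (.leaf [8,10,11])) (.free 2 [1,2,3,4,5,6,7]))), .t 15 (nat_lit 0x9e80b090b070a4a0a4809e109df06d40673066e0660065d065b065a) (.z (.node 0 2 (.edon 0 6 (.leaf [0,3,4,5]) (.edon 0 11 (.leaf [6,7,8,10,9]) (.edon 0 16 (.leaf [11,15,14,13,12]) (.free 2 [16,17,18,19,20,21,22])))) (.free 1 [1,2]))), .t 8 (nat_lit 0xd110cf10cee0ccb0cc60cc10cc0) (.z (.edon 21 19 (.node 11 14 (.free 4 [0,1,2,3,4,5,6,7,8,9,10,11,12,13,21]) (.leaf [14,15,16,18,17])) (.free 1 [19,20,22]))), .t 10 (nat_lit 0x9e80b090b070a4a0a4809e109df06d406cf) (.z (.edon 0 16 (.edon 0 7 (.free 2 [0,1,2,3,4,5,6]) (.edon 0 11 (.leaf [7,8,10,9]) (.leaf [11,15,14,13,12]))) (.free 2 [16,17,18,19,20,21,22]))), .t 10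 (nat_lit 0x59e05ae05ab05a305a105c805c7024f024e) (.z (.edon 0 16 (.edon 11 13 (.leaf [11,14,15]) (.node 2 9 (.leaf [0,2,10,12,13]) (.edon 0 5 (.leaf [1,3,4]) (.leaf [5,7,8,9,6])))) (.free 2 [16,17,18,19,20,21,22]))), .t 8 (nat_lit 0x89307f507f307aa07a807930791) (.z (.node 0 7 (.node 0 12 (.edon 15 21 (.free 2 [15,16,17,18,19,20,22]) (.leaf [0,13,14,21])) (.leaf [8,11,12,10,9])) (.free 2 [1,2,3,4,5,6,7]))), .t 4 (nat_lit 0x208bc08ba) (.z (.edon 16 4 (.node 0 6 (.edon 0 16 (.leaf [0,9,10,13,14]) (.free 2 [16,17,18,19,20,21,22])) (.leaf [1,3,6,2])) (.free 2 [4,5,7,8,11,12,15]))), .t 6 (nat_lit 0xd410c5d0c5a01e701e6) (.z (.node 4 16 (.edon 0 13 (.node 2 4 (.leaf [0,2,6,9,10]) (.leaf [1,3,4])) (.edon 14 20 (.leaf [13,18,19,14]) (.leaf [17,20,22,21]))) (.free 2 [5,7,8,11,12,15,16]))), .t 10 (nat_lit 0x98b098a0d110cf10cee0ccb0cc60cc10cc0)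 (.z (.node 0 7 (.node 10 11 (.edon 14 21 (.edon 0 19 (.leaf [14,15,16,18,17]) (.leaf [19,20,22])) (.leaf [0,10,12,13,21])) (.leaf [8,9,11])) (.free 2 [1,2,3,4,5,6,7]))), .t 15 (nat_lit 0x89108a2089f089608940d110cf10cee0ccb0cc60cc10cc008d208d1) (.z (.edon 1 21 (.edon 0 9 (.free 2 [1,3,4,5,6,7,8]) (.edon 0 14 (.leaf [9,11,12,13,10]) (.edon 0 19 (.leaf [14,15,16,18,17]) (.leaf [19,20,22])))) (.free 1 [0,2,21]))), .t 13 (nat_lit 0x1ef0cfb0cf70cf506a206a1022a022901e701e60d070d00) (.z (.node 4 16 (.node 0 13 (.node 0 20 (.leaf [0,21,22]) (.leaf [14,18,19,20,17])) (.node 2 4 (.leaf [2,6,9,10,13]) (.leaf [1,3,4]))) (.free 2 [5,7,8,11,12,15,16]))), .t 17 (nat_lit 0x59e05ae05ab05a305a10d110cf10cee0ccb0cc60cc10cc0094e094d05c805c7) (.z (.edon 1 21 (.edon 0 5 (.leaf [1,3,4]) (.edon 0 14 (.edon 0 10 (.leaf [5,7,8,9,6]) (.leaf [10,11,12,13])) (.edon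 0 19 (.leaf [14,15,16,18,17]) (.leaf [19,20,22])))) (.free 1 [0,2,21]))), .t 9 (nat_lit 0x7f507f301820052000500020d110d0e) (.z (.edon 21 19 (.node 0 12 (.edon 15 21 (.leaf [15,16,18,17]) (.leaf [0,13,14,21])) (.node 7 10 (.node 3 7 (.leaf [1,3,6,9,2]) (.leaf [4,5,7])) (.leaf [8,11,12,10]))) (.free 1 [19,20,22]))), .t 14 (nat_lit 0xc0c0c3b0c390c170c1407f507f301820052000500020c6f0c6e) (.z (.edon 0 20 (.node 0 12 (.node 0 17 (.leaf [0,18,19]) (.leaf [13,15,16,17,14])) (.node 7 10 (.node 3 7 (.leaf [1,3,6,9,2]) (.leaf [4,5,7])) (.leaf [8,11,12,10]))) (.free 1 [20,21,22]))), .t 10 (nat_lit 0x89307f507f307aa07a8079307910c0f0c0c) (.z (.node 0 7 (.node 0 12 (.node 0 16 (.free 2 [0,17,18,19,20,21,22]) (.leaf [13,15,16,14])) (.leaf [8,11,12,10,9])) (.free 2 [1,2,3,4,5,6,7]))), .t 12 (nat_lit 0xc0c0c3b0c390c170c1401840058000600050c6f0c6e) (.z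 (.edon 0 20 (.node 0 12 (.node 0 17 (.leaf [0,18,19]) (.leaf [13,15,16,17,14])) (.edon 4 9 (.free 2 [4,5,6,7,8,11,12]) (.leaf [1,3,9,10,2]))) (.free 1 [20,21,22]))), .t 1 (nat_lit 0) (.fa 3), .t 12 (nat_lit 0x67b06790676018800630009000606a506a406930692) (.z (.edon 0 16 (.node 0 13 (.leaf [0,14,15]) (.edon 4 10 (.node 6 7 (.leaf [6,8,11,12,9]) (.leaf [4,5,7])) (.leaf [1,3,10,13,2]))) (.free 2 [16,17,18,19,20,21,22]))), .t 7 (nat_lit 0xd410cbb0cb40cb20a090a07) (.z (.node 0 7 (.edon 0 11 (.leaf [0,8,9,10]) (.edon 14 16 (.leaf [11,15,14,12]) (.node 17 19 (.leaf [13,17,20,22,21]) (.leaf [16,18,19])))) (.free 2 [1,2,3,4,5,6,7]))), .t 7 (nat_lit 0xd0d0cbb0c6c0c6b01e701e6) (.z (.node 4 16 (.edon 0 13 (.node 2 4 (.leaf [0,2,6,9,10]) (.leaf [1,3,4])) (.edon 17 20 (.leaf [17,18,19]) (.leaf [13,14,20,22,21]))) (.free 2 [5,7,8,11,12,15,16]))),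 .t 12 (nat_lit 0xc0c0c3b0c390c170c1401830053000600020c6f0c6e) (.z (.edon 0 20 (.node 0 12 (.node 0 17 (.leaf [0,18,19]) (.leaf [13,15,16,17,14])) (.edon 4 10 (.free 2 [4,5,7,8,9,11,12]) (.leaf [1,3,6,10,2]))) (.free 1 [20,21,22]))), .t 14 (nat_lit 0x228012901280123024f02370236015801560131013000360031) (.z (.node 11 1 (.free 2 [3,4,5,6,7,8,11]) (.node 13 0 (.leaf [1,9,12,13,10,2]) (.free 3 [0,14,15,16,17,18,19,20,21,22])))), .t 5 (nat_lit 0xd410d0d0d060d05) (.z (.node 0 7 (.edon 0 11 (.leaf [0,8,9,10]) (.node 17 19 (.leaf [14,17,20,22,21]) (.free 2 [11,12,13,15,16,18,19]))) (.free 2 [1,2,3,4,5,6,7]))), .t 12 (nat_lit 0xc0c0c3b0c390c170c1401830053000600020c6f0c6e) (.z (.edon 0 20 (.node 0 12 (.node 0 17 (.leaf [0,18,19]) (.leaf [13,15,16,17,14])) (.edon 4 6 (.free 2 [4,5,7,8,9,11,12]) (.leaf [1,3,6,10,2]))) (.free 1 [20,21,22]))), .t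 6 (nat_lit 0x20d410d0d0d060d05) (.z (.edon 16 4 (.node 0 6 (.edon 0 14 (.leaf [0,9,10,13]) (.node 17 19 (.leaf [14,17,20,22,21]) (.leaf [16,18,19]))) (.leaf [1,3,6,2])) (.free 2 [4,5,7,8,11,12,15])))] (by decide +kernel) (by decide +kernel)

end Pool.Agent.GCP.F8_11
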