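import Pool.Agent.GCP.F8_11Db

set_option autoImplicit false
set_option maxRecDepth 100000

/-! # Blocks F8_11B3 (generated) -/

namespace Pool.Agent.GCP.F8_11

open Pool.Agent.GCP DB

theorem b120 : B 3840 3872 := Blk.of_chk [.t 9 (nat_lit 0x7f507f301820052000500020d100d0f) (.z (.edon 21 19 (.node 0 12 (.edon 15 21 (.leaf [15,16,17,18]) (.leaf [0,13,14,21])) (.node 7 10 (.node 3 7 (.leaf [1,3,6,9,2]) (.leaf [4,5,7])) (.leaf [8,11,12,10]))) (.free 1 [19,20,22]))), .t 5 (nat_lit 0xc6a0d0d0cbb0c6c) (.z (.node 0 7 (.edon 0 11 (.leaf [0,8,9,10]) (.node 13 19 (.leaf [13,20,22,21,14]) (.free 2 [11,12,15,16,17,18,19]))) (.free 2 [1,2,3,4,5,6,7]))), .t 15 (nat_lit 0x59e095205ae05ab05a305a109e009de09720970094e094d05c805c7) (.z (.edon 1 21 (.edon 0 5 (.leaf [1,3,4]) (.edon 0 10 (.leaf [5,7,8,9,6]) (.edon 0 15 (.leaf [10,11,12,13,14]) (.free 2 [15,16,17,18,19,20,22]))))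 (.free 1 [0,2,21]))), .t 7 (nat_lit 0xd410d0d0d060d0509e809e6) (.z (.node 0 7 (.edon 0 11 (.leaf [0,8,9,10]) (.edon 13 16 (.leaf [11,15,13,12]) (.node 17 19 (.leaf [14,17,20,22,21]) (.leaf [16,18,19])))) (.free 2 [1,2,3,4,5,6,7]))), .t 10 (nat_lit 0xcc1098b098a0d100d0f0cf00cef0cbe0cbd) (.z (.node 0 7 (.node 10 11 (.edon 14 21 (.edon 0 19 (.leaf [14,15,16,17,18]) (.leaf [19,20,22])) (.leaf [0,10,12,13,21])) (.leaf [8,9,11])) (.free 2 [1,2,3,4,5,6,7]))), .t 12 (nat_lit 0xb8c0cbb0c0a0b8f06d40673066e0660065d065b065a) (.z (.node 0 2 (.edon 0 6 (.leaf [0,3,4,5]) (.edon 0 11 (.leaf [6,7,8,10,9]) (.node 12 19 (.leaf [12,20,22,21,13]) (.free 2 [11,14,15,16,17,18,19])))) (.free 1 [1,2]))), .t 16 (nat_lit 0xb140b6e0b6c0b230b200bbd0bbb0d4206d40673066e0660065d065b065a) (.z (.node 0 2 (.edon 0 6 (.leaf [0,3,4,5]) (.edon 0 11 (.leaf [6,7,8,10,9]) (.node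 12 16 (.node 18 19 (.leaf [18,20,22,21]) (.leaf [12,14,17,19,13])) (.leaf [11,15,16])))) (.free 1 [1,2]))), .t 10 (nat_lit 0xcc108fc08fb0d100d0f0cf00cef0cbe0cbd) (.z (.node 0 7 (.node 9 11 (.edon 14 21 (.edon 0 19 (.leaf [14,15,16,17,18]) (.leaf [19,20,22])) (.leaf [0,9,12,13,21])) (.leaf [8,10,11])) (.free 2 [1,2,3,4,5,6,7]))), .t 6 (nat_lit 0x20d410d0d0d060d05) (.z (.edon 16 4 (.node 0 6 (.edon 0 14 (.leaf [0,9,10,13]) (.node 14 19 (.leaf [14,17,20,22,21]) (.leaf [16,18,19]))) (.leaf [1,3,6,2])) (.free 2 [4,5,7,8,11,12,15]))), .t 7 (nat_lit 0xd410d0d0d060d0509e809e6) (.z (.node 0 7 (.edon 0 11 (.leaf [0,8,9,10]) (.edon 13 16 (.leaf [11,15,13,12]) (.node 14 19 (.leaf [14,17,20,22,21]) (.leaf [16,18,19])))) (.free 2 [1,2,3,4,5,6,7]))), .t 7 (nat_lit 0xd420d0d0d0b0d0a09e809e6) (.z (.node 0 7 (.edon 0 11 (.leaf [0,8,9,10]) (.edon 13 16 (.leaf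 [11,15,13,12]) (.node 18 19 (.leaf [14,18,20,22,21]) (.leaf [16,17,19])))) (.free 2 [1,2,3,4,5,6,7]))), .t 13 (nat_lit 0xc4d0c490c460caa0ca60c5e0c5c03fa02e202df028c0277) (.z (.edon 0 20 (.node 4 16 (.edon 0 13 (.edon 0 3 (.leaf [0,1,2]) (.leaf [3,4,9,10,6])) (.leaf [13,17,19,18,14])) (.free 2 [5,7,8,11,12,15,16])) (.free 1 [20,21,22]))), .t 10 (nat_lit 0xc4d0c490c460caa0ca60c5e0c5c01b801b7) (.z (.edon 0 20 (.node 4 16 (.edon 0 13 (.node 2 4 (.leaf [0,2,5,9,10]) (.leaf [1,3,4])) (.leaf [13,17,19,18,14])) (.free 2 [6,7,8,11,12,15,16])) (.free 1 [20,21,22]))), .t 4 (nat_lit 0x108bc08ba) (.z (.edon 16 4 (.node 0 5 (.edon 0 16 (.leaf [0,9,10,13,14]) (.free 2 [16,17,18,19,20,21,22])) (.leaf [1,3,5,2])) (.free 2 [4,6,7,8,11,12,15]))), .t 1 (nat_lit 0) (.cn 2 3), .t 10 (nat_lit 0xcf70ca90ca70c5d0c5a0c510c4f01b801b7) (.z (.edon 0 20 (.node 4 16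 (.edon 0 13 (.node 2 4 (.leaf [0,2,5,9,10]) (.leaf [1,3,4])) (.leaf [13,18,19,17,14])) (.free 2 [6,7,8,11,12,15,16])) (.free 1 [20,21,22]))), .t 10 (nat_lit 0xc4c0c4a0c450ca90ca70c5d0c5b01b801b7) (.z (.edon 0 20 (.node 4 16 (.edon 0 13 (.node 2 4 (.leaf [0,2,5,9,10]) (.leaf [1,3,4])) (.leaf [13,14,18,19,17])) (.free 2 [6,7,8,11,12,15,16])) (.free 1 [20,21,22]))), .t 15 (nat_lit 0x34b034803460cab0caa0ca603de03db037203710b940b910cb50cb0) (.z (.node 0 3 (.node 0 11 (.node 0 20 (.leaf [0,21,22]) (.node 13 16 (.leaf [13,17,19,20,18]) (.leaf [12,15,16,14]))) (.edon 7 9 (.leaf [7,10,11]) (.leaf [4,6,9,8,5]))) (.free 1 [1,2,3]))), .t 15 (nat_lit 0x5a309e10973096e095c0959095209510657065605c805c705a0059f) (.z (.edon 1 21 (.edon 0 5 (.leaf [1,3,4]) (.edon 0 10 (.leaf [5,6,7,8,9]) (.edon 0 15 (.leaf [10,11,12,14,13]) (.free 2 [15,16,17,18,19,20,22]))))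 (.free 1 [0,2,21]))), .t 7 (nat_lit 0x7aa07a809c009bf0d110d0e) (.z (.node 0 7 (.edon 19 21 (.leaf [19,20,22]) (.node 10 12 (.edon 15 21 (.leaf [15,16,18,17]) (.leaf [0,10,13,14,21])) (.leaf [8,11,12,9]))) (.free 2 [1,2,3,4,5,6,7]))), .t 15 (nat_lit 0x95205a309e009de09720970094e094d0657065605c805c705a0059f) (.z (.edon 1 21 (.edon 0 5 (.leaf [1,3,4]) (.edon 0 10 (.leaf [5,6,7,8,9]) (.edon 0 15 (.leaf [10,11,12,13,14]) (.free 2 [15,16,17,18,19,20,22])))) (.free 1 [0,2,21]))), .t 9 (nat_lit 0xc0f0b940b910b400b3d0b110b0f0005) (.z (.node 16 0 (.edon 0 12 (.edon 4 9 (.free 2 [4,5,6,7,8,10,11]) (.leaf [1,3,9,2])) (.leaf [12,15,16,14,13])) (.free 2 [0,17,18,19,20,21,22]))), .t 14 (nat_lit 0xd410cbb0cb40cb20a090a0706d40673066e0660065d065b065a) (.z (.node 0 2 (.edon 0 6 (.leaf [0,3,4,5]) (.edon 0 11 (.leaf [6,7,8,10,9]) (.edon 14 16 (.leaf [11,15,14,12])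 (.node 17 19 (.leaf [13,17,20,22,21]) (.leaf [16,18,19]))))) (.free 1 [1,2]))), .t 17 (nat_lit 0x5a30d110cf10cee0ccb0cc60cc10cc0094e094d0657065605c805c705a0059f) (.z (.edon 1 21 (.edon 0 5 (.leaf [1,3,4]) (.edon 0 10 (.leaf [5,6,7,8,9]) (.edon 0 14 (.leaf [10,11,12,13]) (.edon 0 19 (.leaf [14,15,16,18,17]) (.leaf [19,20,22]))))) (.free 1 [0,2,21]))), .t 17 (nat_lit 0xcc105a30d100d0f0cf00cef0cbe0cbd094e094d0657065605c805c705a0059f) (.z (.edon 1 21 (.edon 0 5 (.leaf [1,3,4]) (.edon 0 10 (.leaf [5,6,7,8,9]) (.edon 0 14 (.leaf [10,11,12,13]) (.edon 0 19 (.leaf [14,15,16,17,18]) (.leaf [19,20,22]))))) (.free 1 [0,2,21]))), .t 7 (nat_lit 0xd420cbb0cb90cb80a090a07) (.z (.node 0 7 (.edon 0 11 (.leaf [0,8,9,10]) (.edon 14 16 (.leaf [11,15,14,12]) (.node 18 19 (.leaf [13,18,20,22,21]) (.leaf [16,17,19])))) (.free 2 [1,2,3,4,5,6,7]))), .t 1 (nat_lit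 0) (.cp 4 3), .t 4 (nat_lit 0x208190817) (.z (.edon 16 4 (.node 0 6 (.edon 0 16 (.leaf [0,8,10,13,14]) (.free 2 [16,17,18,19,20,21,22])) (.leaf [1,3,6,2])) (.free 2 [4,5,7,9,11,12,15]))), .t 10 (nat_lit 0x78e078b078607f507f307aa07a90c0f0c0c) (.z (.node 0 7 (.node 0 12 (.node 0 16 (.free 2 [0,17,18,19,20,21,22]) (.leaf [13,15,16,14])) (.leaf [8,9,11,12,10])) (.free 2 [1,2,3,4,5,6,7]))), .t 4 (nat_lit 0x108190817) (.z (.edon 16 4 (.node 0 5 (.edon 0 16 (.leaf [0,8,10,13,14]) (.free 2 [16,17,18,19,20,21,22])) (.leaf [1,3,5,2])) (.free 2 [4,6,7,9,11,12,15]))), .t 13 (nat_lit 0x96e0991098c097b0976034802a202a00273026b09b409b2) (.z (.edon 0 16 (.edon 0 3 (.leaf [0,1,2]) (.node 10 11 (.leaf [10,12,15,14,13]) (.edon 7 8 (.leaf [7,9,11]) (.leaf [3,4,6,8,5])))) (.free 2 [16,17,18,19,20,21,22]))), .t 13 (nat_lit 0x96e0991098c097b097609b409b2034902a3029f0273026b)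 (.z (.edon 0 3 (.free 1 [0,1,2]) (.node 5 11 (.edon 0 10 (.leaf [3,4,5,8,6]) (.edon 0 16 (.leaf [10,12,15,14,13]) (.free 2 [16,17,18,19,20,21,22]))) (.leaf [7,9,11]))))] (by decide +kernel) (by decide +kernel)
theorem b121 : B 3872 3904 := Blk.of_chk [.t 1 (nat_lit 0) (.cn 7 2), .t 8 (nat_lit 0x659065806550672066f065f065e) (.z (.node 2 4 (.edon 10 11 (.leaf [6,7,9,10,8]) (.free 4 [0,2,5,11,12,13,14,15,16,17,18,19,20,21,22])) (.free 1 [1,3,4]))), .t 8 (nat_lit 0x78e078b078607f507f307aa07a9) (.z (.node 0 7 (.node 0 12 (.edon 15 21 (.free 2 [15,16,17,18,19,20,22]) (.leaf [0,13,14,21])) (.leaf [8,9,11,12,10])) (.free 2 [1,2,3,4,5,6,7]))), .t 1 (nat_lit 0) (.fa 4), .t 10 (nat_lit 0x85608550d110cf10cee0ccb0cc60cc10cc0) (.z (.node 0 7 (.node 8 11 (.edon 14 21 (.edon 0 19 (.leaf [14,15,16,18,17]) (.leaf [19,20,22])) (.leaf [0,8,12,13,21])) (.leaf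 [9,10,11])) (.free 2 [1,2,3,4,5,6,7]))), .t 10 (nat_lit 0xc4c0c4a0c450ca90ca70c5d0c5b01ac01ab) (.z (.edon 0 20 (.node 4 16 (.edon 0 13 (.node 2 4 (.leaf [0,2,5,8,10]) (.leaf [1,3,4])) (.leaf [13,14,18,19,17])) (.free 2 [6,7,9,11,12,15,16])) (.free 1 [20,21,22]))), .t 1 (nat_lit 0) (.cn 2 3), .t 1 (nat_lit 0) (.cn 2 3), .t 9 (nat_lit 0xc270cdd0cdc0c8b0c8a0c1f0c1d0d41) (.z (.node 0 7 (.edon 0 11 (.leaf [0,8,9,10]) (.node 15 16 (.node 17 19 (.leaf [17,20,22,21]) (.leaf [13,14,15,18,19])) (.leaf [11,12,16]))) (.free 2 [1,2,3,4,5,6,7]))), .t 9 (nat_lit 0xb910bb10baf0ba10b9f00020be00bdf) (.z (.edon 21 19 (.node 0 11 (.node 13 18 (.leaf [0,13,17,21]) (.leaf [12,15,16,18,14])) (.edon 4 6 (.free 2 [4,5,7,8,9,10,11]) (.leaf [1,3,6,2]))) (.free 1 [19,20,22]))), .t 1 (nat_lit 0) (.cn 2 3), .t 4 (nat_lit 0x108a208a0) (.z (.edon 16 4 (.node 0 5 (.edon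 0 16 (.leaf [0,9,10,12,13]) (.free 2 [16,17,18,19,20,21,22])) (.leaf [1,3,5,2])) (.free 2 [4,6,7,8,11,14,15]))), .t 8 (nat_lit 0x7af07df07dd07b407b3083f083e) (.z (.node 0 7 (.edon 9 16 (.leaf [8,11,14,15,9]) (.edon 0 16 (.leaf [0,10,12,13]) (.free 2 [16,17,18,19,20,21,22]))) (.free 2 [1,2,3,4,5,6,7]))), .t 8 (nat_lit 0xb080a490a460a080a0509e809e6) (.z (.node 0 7 (.edon 0 11 (.leaf [0,8,9,10]) (.edon 0 16 (.leaf [11,14,15,13,12]) (.free 2 [16,17,18,19,20,21,22]))) (.free 2 [1,2,3,4,5,6,7]))), .t 9 (nat_lit 0xb450b6e0b6c0b530b500be60be50d42) (.z (.node 0 7 (.edon 0 11 (.leaf [0,8,9,10]) (.node 15 16 (.node 18 19 (.leaf [18,20,22,21]) (.leaf [12,15,17,19,13])) (.leaf [11,14,16]))) (.free 2 [1,2,3,4,5,6,7]))), .t 7 (nat_lit 0xd420cbb0cb90cb80a080a05) (.z (.node 0 7 (.edon 0 11 (.leaf [0,8,9,10]) (.edon 12 16 (.leaf [11,14,15,12]) (.node 18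 19 (.leaf [13,18,20,22,21]) (.leaf [16,17,19])))) (.free 2 [1,2,3,4,5,6,7]))), .t 17 (nat_lit 0x9ab05a30bfa0bf909d909d809aa09a90a490a460657065605c805c705a0059f) (.z (.edon 1 21 (.edon 0 5 (.leaf [1,3,4]) (.edon 0 10 (.leaf [5,6,7,8,9]) (.edon 0 19 (.edon 13 16 (.leaf [11,14,15,13]) (.leaf [10,12,16,17,18])) (.leaf [19,20,22])))) (.free 1 [0,2,21]))), .t 6 (nat_lit 0x2f0b820b810cbe0cbc) (.z (.node 1 11 (.node 0 10 (.edon 15 19 (.leaf [14,16,17,15]) (.edon 19 21 (.leaf [19,20,22]) (.leaf [0,12,13,18,21]))) (.leaf [1,10,9,2])) (.free 2 [3,4,5,6,7,8,11]))), .t 7 (nat_lit 0x78b07890b820b810cbe0cbc) (.z (.node 0 7 (.node 0 11 (.edon 15 19 (.leaf [14,16,17,15]) (.edon 19 21 (.leaf [19,20,22]) (.leaf [0,12,13,18,21]))) (.leaf [8,11,10,9])) (.free 2 [1,2,3,4,5,6,7]))), .t 5 (nat_lit 0x79207900a490a46) (.z (.node 0 7 (.edon 0 16 (.edon 11 12 (.leaf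 [11,14,15,13]) (.leaf [0,8,9,10,12])) (.free 2 [16,17,18,19,20,21,22])) (.free 2 [1,2,3,4,5,6,7]))), .t 6 (nat_lit 0x60cbe0cbc0b820b81) (.z (.edon 21 19 (.node 0 11 (.node 13 17 (.leaf [0,12,13,18,21]) (.leaf [14,16,17,15])) (.edon 4 10 (.free 2 [4,5,6,7,8,9,11]) (.leaf [1,3,10,2]))) (.free 1 [19,20,22]))), .t 1 (nat_lit 0) (.cn 2 3), .t 10 (nat_lit 0x6d706d406cf0713071006ea06e80a490a46) (.z (.edon 0 16 (.edon 0 7 (.free 2 [0,1,2,3,4,5,6]) (.edon 11 12 (.leaf [11,14,15,13]) (.leaf [7,8,10,12,9]))) (.free 2 [16,17,18,19,20,21,22]))), .t 10 (nat_lit 0x59e05b305b205a605a405cc05cb0a490a46) (.z (.edon 0 16 (.node 2 4 (.edon 11 12 (.leaf [11,14,15,13]) (.node 2 10 (.leaf [0,2,9,12]) (.leaf [5,7,8,10,6]))) (.leaf [1,3,4])) (.free 2 [16,17,18,19,20,21,22]))), .t 13 (nat_lit 0xb360b320b2f0bda0b8f06d40673066e0660065d065b065a) (.z (.node 0 2 (.edon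 0 6 (.leaf [0,3,4,5]) (.edon 0 11 (.leaf [6,7,8,10,9]) (.edon 11 22 (.free 2 [11,15,16,17,18,19,20]) (.leaf [12,14,22,21,13])))) (.free 1 [1,2]))), .t 1 (nat_lit 0) (.cn 2 3), .t 12 (nat_lit 0x1820052000500020b5f09cc09cb09aa09a809850984) (.z (.edon 0 20 (.edon 4 16 (.free 2 [4,5,7,8,11,14,15]) (.node 0 9 (.node 0 17 (.leaf [0,18,19]) (.leaf [10,16,17,13,12])) (.leaf [1,3,6,9,2]))) (.free 1 [20,21,22]))), .t 1 (nat_lit 0) (.cn 2 3), .t 10 (nat_lit 0xcc1078b07890d100d0f0cf00cef0cbe0cbd) (.z (.node 0 7 (.node 0 11 (.node 13 22 (.leaf [0,12,13,21]) (.edon 0 19 (.leaf [14,15,16,17,18]) (.leaf [19,20,22]))) (.leaf [8,11,10,9])) (.free 2 [1,2,3,4,5,6,7]))), .t 5 (nat_lit 0x7bf07bd09650964) (.z (.node 0 7 (.edon 0 16 (.edon 10 12 (.leaf [10,11,14,15]) (.leaf [0,8,9,12,13])) (.free 2 [16,17,18,19,20,21,22])) (.free 2 [1,2,3,4,5,6,7]))), .t 4 (nat_lit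 0x208a208a0) (.z (.edon 16 4 (.node 0 6 (.edon 0 16 (.leaf [0,9,10,12,13]) (.free 2 [16,17,18,19,20,21,22])) (.leaf [1,3,6,2])) (.free 2 [4,5,7,8,11,14,15]))), .t 15 (nat_lit 0x3450b050372036e034e034a0b400b3d0b100b0d03de03dd0b940b92) (.z (.node 0 3 (.node 0 11 (.node 0 16 (.free 2 [0,17,18,19,20,21,22]) (.leaf [12,14,15,16,13])) (.edon 7 9 (.leaf [7,10,11]) (.leaf [4,5,9,8,6]))) (.free 1 [1,2,3])))] (by decide +kernel) (by decide +kernel)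
theorem b122 : B 3904 3936 := Blk.of_chk [.t 10 (nat_lit 0x7930714070f06eb06e706d906d80a490a46) (.z (.edon 0 16 (.edon 0 7 (.free 2 [0,1,2,3,4,5,6]) (.edon 11 12 (.leaf [11,14,15,13]) (.leaf [7,8,9,12,10]))) (.free 2 [16,17,18,19,20,21,22]))), .t 5 (nat_lit 0xcbb0c0a0b8f0b8e) (.z (.node 0 7 (.edon 0 11 (.leaf [0,8,9,10]) (.node 13 19 (.leaf [12,13,20,22,21]) (.free 2 [11,14,15,16,17,18,19]))) (.free 2 [1,2,3,4,5,6,7]))), .t 9 (nat_lit 0xb4a0b7c0b790b530b500d410bef0bee) (.z (.node 0 7 (.edon 0 11 (.leaf [0,8,9,10]) (.node 15 16 (.edon 13 20 (.leaf [12,15,18,19,13]) (.leaf [17,20,22,21])) (.leaf [11,14,16]))) (.free 2 [1,2,3,4,5,6,7]))), .t 5 (nat_lit 0x184005800060005) (.z (.edon 0 16 (.node 0 12 (.leaf [0,13,14,15]) (.edon 4 9 (.free 2 [4,5,6,7,8,11,12]) (.leaf [1,3,9,10,2]))) (.free 2 [16,17,18,19,20,21,22]))), .t 5 (nat_lit 0xd410cbb0cb40cb2)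 (.z (.node 0 7 (.edon 0 11 (.leaf [0,8,9,10]) (.node 13 19 (.leaf [13,17,20,22,21]) (.free 2 [11,12,14,15,16,18,19]))) (.free 2 [1,2,3,4,5,6,7]))), .t 10 (nat_lit 0x5a30657065605c805c705a0059f0a080a05) (.z (.node 2 4 (.edon 11 21 (.edon 12 16 (.leaf [11,14,15,12]) (.free 2 [13,16,17,18,19,20,22])) (.node 2 9 (.leaf [0,2,10,21]) (.leaf [5,6,7,8,9]))) (.free 1 [1,3,4]))), .t 15 (nat_lit 0xcbf0cbe0cbc0894089308910cf10cee0ccb0cc908d308d008a308a1) (.z (.edon 1 21 (.edon 0 9 (.free 2 [1,3,4,5,6,7,8]) (.edon 0 14 (.leaf [9,11,13,12,10]) (.edon 0 19 (.leaf [14,16,18,17,15]) (.leaf [19,20,22])))) (.free 1 [0,2,21]))), .t 6 (nat_lit 0xcb40c050b8f0b770b76) (.z (.node 0 7 (.edon 0 11 (.leaf [0,8,9,10]) (.edon 11 22 (.free 2 [11,14,15,16,18,19,20]) (.leaf [12,13,17,22,21]))) (.free 2 [1,2,3,4,5,6,7]))), .t 7 (nat_lit 0x78b07890b750b740cc10cbf) (.z (.node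 0 7 (.node 0 11 (.edon 15 19 (.leaf [14,16,18,15]) (.edon 19 21 (.leaf [19,20,22]) (.leaf [0,12,13,17,21]))) (.leaf [8,11,10,9])) (.free 2 [1,2,3,4,5,6,7]))), .t 15 (nat_lit 0xcbf0cbe0cbc0cf10cee0ccb0cc9094f08d308d008a3089e08960895) (.z (.edon 1 21 (.edon 0 9 (.free 2 [1,3,4,5,6,7,8]) (.edon 0 14 (.leaf [9,10,11,13,12]) (.edon 0 19 (.leaf [14,16,18,17,15]) (.leaf [19,20,22])))) (.free 1 [0,2,21]))), .t 5 (nat_lit 0x186005a00080005) (.z (.edon 0 16 (.node 0 12 (.leaf [0,13,14,15]) (.node 3 10 (.leaf [1,3,9,12,2]) (.free 2 [4,5,6,7,8,10,11]))) (.free 2 [16,17,18,19,20,21,22]))), .t 9 (nat_lit 0xbbd0cbb0cf70cf60c000bff0bb70bb6) (.z (.node 0 7 (.edon 0 11 (.leaf [0,8,9,10]) (.node 14 16 (.edon 12 20 (.leaf [12,14,17,18,19]) (.leaf [13,20,22,21])) (.leaf [11,15,16]))) (.free 2 [1,2,3,4,5,6,7]))), .t 15 (nat_lit 0x894089308910d110cf10cee0ccb0cc60cc10cc008d308d008a308a1)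 (.z (.edon 1 21 (.edon 0 9 (.free 2 [1,3,4,5,6,7,8]) (.edon 0 14 (.leaf [9,11,13,12,10]) (.edon 0 19 (.leaf [14,15,16,18,17]) (.leaf [19,20,22])))) (.free 1 [0,2,21]))), .t 17 (nat_lit 0x5a30d110cf10cee0ccb0cc60cc10cc0094f094c0657065605c805c705a0059f) (.z (.edon 1 21 (.edon 0 5 (.leaf [1,3,4]) (.edon 0 10 (.leaf [5,6,7,8,9]) (.edon 0 14 (.leaf [10,11,13,12]) (.edon 0 19 (.leaf [14,15,16,18,17]) (.leaf [19,20,22]))))) (.free 1 [0,2,21]))), .t 15 (nat_lit 0x94c059e095c09590953095005ae05ab05a305a10973097105c805c7) (.z (.edon 1 21 (.edon 0 5 (.leaf [1,3,4]) (.edon 0 10 (.leaf [5,7,8,9,6]) (.edon 0 15 (.leaf [10,11,14,13,12]) (.free 2 [15,16,17,18,19,20,22])))) (.free 1 [0,2,21]))), .t 10 (nat_lit 0xc4c0c4a0c450ca90ca70c5d0c5b07920790) (.z (.edon 0 20 (.edon 11 18 (.leaf [11,15,16]) (.edon 0 13 (.node 0 7 (.leaf [0,8,9,10,12]) (.free 2 [1,2,3,4,5,6,7]))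 (.leaf [13,14,18,19,17]))) (.free 1 [20,21,22]))), .t 10 (nat_lit 0x78b07890d110cf10cee0ccb0cc60cc10cc0) (.z (.node 0 7 (.node 0 11 (.edon 14 21 (.edon 0 19 (.leaf [14,15,16,18,17]) (.leaf [19,20,22])) (.leaf [0,12,13,21])) (.leaf [8,11,10,9])) (.free 2 [1,2,3,4,5,6,7]))), .t 7 (nat_lit 0xcbb0c0a0b8f0b8e05a0059e) (.z (.node 2 4 (.edon 0 11 (.node 2 8 (.leaf [0,2,9,10]) (.leaf [5,7,8,6])) (.node 13 19 (.leaf [12,13,20,22,21]) (.free 2 [11,14,15,16,17,18,19]))) (.free 1 [1,3,4]))), .t 6 (nat_lit 0x10d410cbb0cb40cb2) (.z (.edon 16 4 (.node 0 5 (.edon 0 13 (.leaf [0,9,10,12]) (.node 17 19 (.leaf [13,17,20,22,21]) (.leaf [16,18,19]))) (.leaf [1,3,5,2])) (.free 2 [4,6,7,8,11,14,15]))), .t 1 (nat_lit 0) (.cn 2 3), .t 1 (nat_lit 0) (.cn 2 3), .t 10 (nat_lit 0xb050b400b3d0b100b0d078b07860b940b92) (.z (.node 0 7 (.node 0 11 (.node 0 16 (.free 2 [0,17,18,19,20,21,22])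 (.leaf [12,14,15,16,13])) (.leaf [8,9,11,10])) (.free 2 [1,2,3,4,5,6,7]))), .t 1 (nat_lit 0) (.cn 2 3), .t 6 (nat_lit 0xc6c01f301f205c905c6) (.z (.node 2 4 (.edon 8 11 (.leaf [5,7,9,8]) (.edon 11 22 (.free 2 [11,15,16,17,18,19,20]) (.edon 0 13 (.leaf [0,2,6,10,12]) (.leaf [13,14,22,21])))) (.free 1 [1,3,4]))), .t 6 (nat_lit 0xc6c01c801c706580655) (.z (.node 2 4 (.edon 8 11 (.leaf [6,7,9,8]) (.edon 11 22 (.free 2 [11,15,16,17,18,19,20]) (.edon 0 13 (.leaf [0,2,5,10,12]) (.leaf [13,14,22,21])))) (.free 1 [1,3,4]))), .t 1 (nat_lit 0) (.cn 2 3), .t 8 (nat_lit 0x8dc08db08d80917091408e008df) (.z (.node 0 7 (.edon 0 16 (.edon 9 12 (.leaf [9,11,14,15,13]) (.leaf [0,8,10,12])) (.free 2 [16,17,18,19,20,21,22])) (.free 2 [1,2,3,4,5,6,7]))), .t 5 (nat_lit 0x804080208e008df) (.z (.node 0 7 (.edon 0 16 (.edon 9 12 (.leaf [9,11,14,15]) (.leaf [0,8,10,12,13]))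 (.free 2 [16,17,18,19,20,21,22])) (.free 2 [1,2,3,4,5,6,7]))), .t 4 (nat_lit 0xc6c07920790) (.z (.node 0 7 (.edon 11 22 (.free 2 [11,15,16,17,18,19,20]) (.edon 0 13 (.leaf [0,8,9,10,12]) (.leaf [13,14,22,21]))) (.free 2 [1,2,3,4,5,6,7]))), .t 4 (nat_lit 0x108040802) (.z (.edon 16 4 (.node 0 5 (.edon 0 16 (.leaf [0,8,10,12,13]) (.free 2 [16,17,18,19,20,21,22])) (.leaf [1,3,5,2])) (.free 2 [4,6,7,9,11,14,15]))), .t 4 (nat_lit 0x208040802) (.z (.edon 16 4 (.node 0 6 (.edon 0 16 (.leaf [0,8,10,12,13]) (.free 2 [16,17,18,19,20,21,22])) (.leaf [1,3,6,2])) (.free 2 [4,5,7,9,11,14,15]))), .t 1 (nat_lit 0) (.cn 2 3)] (by decide +kernel) (by decide +kernel)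
theorem b123 : B 3936 3968 := Blk.of_chk [.t 1 (nat_lit 0) (.fa 4), .t 1 (nat_lit 0) (.fa 4), .t 1 (nat_lit 0) (.cn 4 2), .t 10 (nat_lit 0x78e078b078607f507f307aa07a90cd80cd7) (.z (.node 0 7 (.node 0 12 (.edon 19 21 (.leaf [19,20,22]) (.node 15 18 (.leaf [0,14,15,17,21]) (.leaf [13,16,18]))) (.leaf [8,9,11,12,10])) (.free 2 [1,2,3,4,5,6,7]))), .t 1 (nat_lit 0) (.cn 4 2), .t 4 (nat_lit 0x1080a0809) (.z (.edon 16 4 (.node 0 5 (.edon 0 16 (.leaf [0,8,10,12,14]) (.free 2 [16,17,18,19,20,21,22])) (.leaf [1,3,5,2])) (.free 2 [4,6,7,9,11,13,15]))), .t 4 (nat_lit 0x2080a0809) (.z (.edon 16 4 (.node 0 6 (.edon 0 16 (.leaf [0,8,10,12,14]) (.free 2 [16,17,18,19,20,21,22])) (.leaf [1,3,6,2])) (.free 2 [4,5,7,9,11,13,15]))), .t 1 (nat_lit 0) (.cp 2 3), .t 4 (nat_lit 0x208490847) (.z (.edon 16 4 (.node 0 6 (.edon 0 16 (.leaf [0,8,12,13,14]) (.free 2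 [16,17,18,19,20,21,22])) (.leaf [1,3,6,2])) (.free 2 [4,5,7,9,10,11,15]))), .t 5 (nat_lit 0x804080208e108de) (.z (.node 0 7 (.edon 0 16 (.edon 9 13 (.leaf [9,11,15,14]) (.leaf [0,8,10,12,13])) (.free 2 [16,17,18,19,20,21,22])) (.free 2 [1,2,3,4,5,6,7]))), .t 7 (nat_lit 0x1870061000800060d110d0e) (.z (.edon 21 19 (.node 0 12 (.edon 15 21 (.leaf [15,16,18,17]) (.leaf [0,13,14,21])) (.edon 4 10 (.free 2 [4,5,6,7,8,9,11]) (.leaf [1,3,10,12,2]))) (.free 1 [19,20,22]))), .t 10 (nat_lit 0x90d090b0c6c0d3e034902a3029f0273026b) (.z (.edon 0 3 (.free 1 [0,1,2]) (.node 5 11 (.edon 0 9 (.leaf [3,4,5,8,6]) (.node 14 16 (.edon 17 22 (.leaf [17,18,19,20]) (.leaf [13,14,22,21])) (.leaf [9,15,16,12]))) (.leaf [7,10,11])))), .t 12 (nat_lit 0x6550660065d065c06590d410cbb0cb40cb206730671) (.z (.node 0 2 (.edon 0 6 (.leaf [0,3,4,5]) (.edon 0 11 (.leaf [6,7,10,9,8])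 (.node 17 19 (.leaf [13,17,20,22,21]) (.free 2 [11,12,14,15,16,18,19])))) (.free 1 [1,2]))), .t 13 (nat_lit 0x6550b360b320b2f0660065d065c06590bda0b8f06730671) (.z (.node 0 2 (.edon 0 6 (.leaf [0,3,4,5]) (.edon 0 11 (.leaf [6,7,10,9,8]) (.edon 11 22 (.free 2 [11,15,16,17,18,19,20]) (.leaf [12,14,22,21,13])))) (.free 1 [1,2]))), .t 1 (nat_lit 0) (.cp 2 3), .t 15 (nat_lit 0x3450372036e034e034a0b0d0b080b0503de03dd0b950b900b410b3f) (.z (.node 0 3 (.node 0 11 (.node 0 16 (.free 2 [0,17,18,19,20,21,22]) (.leaf [12,14,16,15,13])) (.edon 7 9 (.leaf [7,10,11]) (.leaf [4,5,9,8,6]))) (.free 1 [1,2,3]))), .t 17 (nat_lit 0x5a105a0059e0d110ca20c9f0c7a0c780c720c710953095005c905c605af05ad) (.z (.edon 1 21 (.edon 0 5 (.leaf [1,3,4]) (.edon 0 10 (.leaf [5,7,9,8,6]) (.edon 0 19 (.edon 12 16 (.leaf [10,11,14,12]) (.leaf [13,15,16,18,17])) (.leaf [19,20,22]))))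 (.free 1 [0,2,21]))), .t 5 (nat_lit 0x953095007d807d7) (.z (.node 0 7 (.edon 0 16 (.node 9 12 (.leaf [0,8,9,13,15]) (.leaf [10,11,14,12])) (.free 2 [16,17,18,19,20,21,22])) (.free 2 [1,2,3,4,5,6,7]))), .t 17 (nat_lit 0xc7205a105a0059e0d100d0f0ca10ca00c6f0c6e0953095005c905c605af05ad) (.z (.edon 1 21 (.edon 0 5 (.leaf [1,3,4]) (.edon 0 10 (.leaf [5,7,9,8,6]) (.edon 12 16 (.leaf [10,11,14,12]) (.edon 0 19 (.leaf [13,15,16,17,18]) (.leaf [19,20,22]))))) (.free 1 [0,2,21]))), .t 5 (nat_lit 0x8930891086e086d) (.z (.node 0 7 (.edon 0 16 (.node 8 12 (.leaf [0,8,13,14,15]) (.leaf [9,11,12,10])) (.free 2 [16,17,18,19,20,21,22])) (.free 2 [1,2,3,4,5,6,7]))), .t 5 (nat_lit 0x8d308d008250824) (.z (.node 0 7 (.edon 0 16 (.node 10 13 (.leaf [0,8,10,14,15]) (.leaf [9,11,13,12])) (.free 2 [16,17,18,19,20,21,22])) (.free 2 [1,2,3,4,5,6,7]))), .t 10 (nat_lit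 0x78e078b078607f507f307aa07a90c100c0e) (.z (.node 0 7 (.node 0 12 (.node 0 16 (.free 2 [0,17,18,19,20,21,22]) (.leaf [13,16,15,14])) (.leaf [8,9,11,12,10])) (.free 2 [1,2,3,4,5,6,7]))), .t 1 (nat_lit 0) (.cp 2 3), .t 17 (nat_lit 0xc720d100d0f0ca10ca00c6f0c6e09530950065805c905c605af05aa05a305a2) (.z (.edon 1 21 (.edon 0 5 (.leaf [1,3,4]) (.edon 0 10 (.leaf [5,6,7,9,8]) (.edon 12 16 (.leaf [10,11,14,12]) (.edon 0 19 (.leaf [13,15,16,17,18]) (.leaf [19,20,22]))))) (.free 1 [0,2,21]))), .t 10 (nat_lit 0xcac0ca90ca7078b07860b950b900cb50cb0) (.z (.node 0 7 (.node 0 11 (.node 0 20 (.leaf [0,21,22]) (.node 13 16 (.leaf [13,18,19,20,17]) (.leaf [12,14,16,15]))) (.leaf [8,9,11,10])) (.free 2 [1,2,3,4,5,6,7]))), .t 1 (nat_lit 0) (.cn 3 2), .t 8 (nat_lit 0x79d078b078607fb07f907b107b0) (.z (.node 0 7 (.edon 10 16 (.leaf [8,9,11,14,10]) (.edon 15 21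 (.free 2 [15,16,17,18,19,20,22]) (.leaf [0,12,13,21]))) (.free 2 [1,2,3,4,5,6,7]))), .t 10 (nat_lit 0xb0d0b080b05078b07860b950b900b410b3f) (.z (.node 0 7 (.node 0 11 (.node 0 16 (.free 2 [0,17,18,19,20,21,22]) (.leaf [12,14,16,15,13])) (.leaf [8,9,11,10])) (.free 2 [1,2,3,4,5,6,7]))), .t 15 (nat_lit 0x34802a202a00273026b099609930d1b0caa0ca60c8c0c880c7e0c7d) (.z (.edon 0 20 (.edon 0 3 (.leaf [0,1,2]) (.node 10 11 (.node 15 16 (.leaf [13,15,17,19,18]) (.leaf [10,14,16,12])) (.edon 7 8 (.leaf [7,9,11]) (.leaf [3,4,6,8,5])))) (.free 1 [20,21,22]))), .t 15 (nat_lit 0x352034803460b0d0b080b0503e403e1037803770b950b900b410b3f) (.z (.node 0 3 (.node 0 11 (.node 0 16 (.free 2 [0,17,18,19,20,21,22]) (.leaf [12,14,16,15,13])) (.edon 7 10 (.leaf [7,9,11]) (.leaf [4,6,10,8,5]))) (.free 1 [1,2,3]))), .t 17 (nat_lit 0xd110ca20c9f0c7a0c780c720c7109530950065805c905c605af05aa05a305a2)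 (.z (.edon 1 21 (.edon 0 5 (.leaf [1,3,4]) (.edon 0 10 (.leaf [5,6,7,9,8]) (.edon 12 16 (.leaf [10,11,14,12]) (.edon 0 19 (.leaf [13,15,16,18,17]) (.leaf [19,20,22]))))) (.free 1 [0,2,21]))), .t 5 (nat_lit 0x84e084c08990897) (.z (.node 0 7 (.edon 10 16 (.leaf [9,11,14,10]) (.edon 0 16 (.leaf [0,8,12,13,15]) (.free 2 [16,17,18,19,20,21,22]))) (.free 2 [1,2,3,4,5,6,7])))] (by decide +kernel) (by decide +kernel)
theorem b124 : B 3968 4000 := Blk.of_chk [.t 10 (nat_lit 0xb0d0b620b600b1c0b1a078b07860bb10bb0) (.z (.node 0 7 (.node 0 11 (.edon 19 21 (.leaf [19,20,22]) (.node 15 18 (.leaf [0,15,17,21]) (.leaf [12,14,16,18,13]))) (.leaf [8,9,11,10])) (.free 2 [1,2,3,4,5,6,7]))), .t 10 (nat_lit 0xb0d0b5f0b5d0b160b14078b07860bae0bad) (.z (.node 0 7 (.node 0 11 (.edon 19 21 (.leaf [19,20,22]) (.node 15 17 (.leaf [0,15,18,21]) (.leaf [12,14,16,17,13])))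 (.leaf [8,9,11,10])) (.free 2 [1,2,3,4,5,6,7]))), .t 1 (nat_lit 0) (.cp 2 3), .t 15 (nat_lit 0x99609930d1b0caa0ca60c8c0c880c7e0c7d034902a3029f0273026b) (.z (.edon 0 3 (.free 1 [0,1,2]) (.node 5 11 (.edon 0 10 (.leaf [3,4,5,8,6]) (.node 15 16 (.edon 0 20 (.leaf [13,15,17,19,18]) (.leaf [20,21,22])) (.leaf [10,14,16,12]))) (.leaf [7,9,11])))), .t 15 (nat_lit 0x34503780375035503510b0d0b080b0503e403e30b950b900b410b3f) (.z (.node 0 3 (.node 0 11 (.node 0 16 (.free 2 [0,17,18,19,20,21,22]) (.leaf [12,14,16,15,13])) (.edon 7 10 (.leaf [7,9,11]) (.leaf [4,5,10,8,6]))) (.free 1 [1,2,3]))), .t 8 (nat_lit 0x8d008db08d808d508d408ef08ed) (.z (.node 0 7 (.edon 0 16 (.node 10 13 (.leaf [0,8,10,15]) (.leaf [9,11,14,13,12])) (.free 2 [16,17,18,19,20,21,22])) (.free 2 [1,2,3,4,5,6,7]))), .t 4 (nat_lit 0x208250824) (.z (.edon 16 4 (.node 0 6 (.edon 0 16 (.leaf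 [0,8,10,14,15]) (.free 2 [16,17,18,19,20,21,22])) (.leaf [1,3,6,2])) (.free 2 [4,5,7,9,11,12,13]))), .t 13 (nat_lit 0xb0909b409af0991098c097a0978034902a3029f0273026b) (.z (.edon 0 3 (.free 1 [0,1,2]) (.node 5 11 (.edon 0 10 (.leaf [3,4,5,8,6]) (.edon 0 16 (.leaf [10,12,13,15,14]) (.free 2 [16,17,18,19,20,21,22]))) (.leaf [7,9,11])))), .t 15 (nat_lit 0x3450372036e034e034a0d1f0d1a0d1903de03dd0b110b0c0d2b0d24) (.z (.node 0 3 (.node 0 11 (.node 0 20 (.leaf [0,21,22]) (.node 15 16 (.leaf [15,18,19,20,17]) (.leaf [12,13,16,14]))) (.edon 7 9 (.leaf [7,10,11]) (.leaf [4,5,9,8,6]))) (.free 1 [1,2,3]))), .t 1 (nat_lit 0) (.cn 2 3), .t 15 (nat_lit 0xcc10894089308910d100d0f0cf00cef0cbe0cbd08d308d008a308a1) (.z (.edon 1 21 (.edon 0 14 (.edon 0 9 (.free 2 [1,3,4,5,6,7,8]) (.leaf [9,11,13,12,10])) (.edon 0 19 (.leaf [14,15,16,17,18]) (.leaf [19,20,22])))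 (.free 1 [0,2,21]))), .t 13 (nat_lit 0x34802a202a00273026b0b0909b409af0991098c097a0978) (.z (.edon 0 16 (.edon 0 3 (.leaf [0,1,2]) (.node 10 11 (.leaf [10,12,13,15,14]) (.edon 7 8 (.leaf [7,9,11]) (.leaf [3,4,6,8,5])))) (.free 2 [16,17,18,19,20,21,22]))), .t 10 (nat_lit 0xd420d0d0d0b0d0a0378037702b502b3026b) (.z (.edon 0 3 (.free 1 [0,1,2]) (.node 4 16 (.edon 0 14 (.leaf [3,4,10,8,5]) (.edon 15 20 (.leaf [15,17,19]) (.leaf [14,18,20,22,21]))) (.free 2 [6,7,9,11,12,13,16])))), .t 10 (nat_lit 0xd410d0d0d060d050378037702b502b3026b) (.z (.edon 0 3 (.free 1 [0,1,2]) (.node 4 16 (.edon 0 14 (.leaf [3,4,10,8,5]) (.edon 15 20 (.leaf [15,18,19]) (.leaf [14,17,20,22,21]))) (.free 2 [6,7,9,11,12,13,16])))), .t 15 (nat_lit 0x352034803460d1f0d1a0d1903e403e1037803770b110b0c0d2b0d24) (.z (.node 0 3 (.node 0 11 (.node 0 20 (.leaf [0,21,22]) (.node 15 16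 (.leaf [15,18,19,20,17]) (.leaf [12,13,16,14]))) (.edon 7 10 (.leaf [7,9,11]) (.leaf [4,6,10,8,5]))) (.free 1 [1,2,3]))), .t 10 (nat_lit 0xd1f0d1a0d19078b07860b110b0c0d2b0d24) (.z (.node 0 7 (.node 0 11 (.node 0 20 (.leaf [0,21,22]) (.node 15 16 (.leaf [15,18,19,20,17]) (.leaf [12,13,16,14]))) (.leaf [8,9,11,10])) (.free 2 [1,2,3,4,5,6,7]))), .t 1 (nat_lit 0) (.fa 4), .t 7 (nat_lit 0xd410d0d0d060d0501c801c7) (.z (.node 4 16 (.edon 0 14 (.node 2 4 (.leaf [0,2,5,10,12]) (.leaf [1,3,4])) (.edon 15 20 (.leaf [15,18,19]) (.leaf [14,17,20,22,21]))) (.free 2 [6,7,8,9,11,13,16]))), .t 7 (nat_lit 0xd420d0d0d0b0d0a09e709e4) (.z (.node 0 7 (.edon 0 11 (.leaf [0,8,9,10]) (.edon 15 16 (.leaf [11,13,15,12]) (.node 18 19 (.leaf [14,18,20,22,21]) (.leaf [16,17,19])))) (.free 2 [1,2,3,4,5,6,7]))), .t 10 (nat_lit 0xcfb0cf70cf5078b07860b410b3c0d070d00) (.z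 (.node 0 7 (.node 0 11 (.node 0 20 (.leaf [0,21,22]) (.node 14 16 (.leaf [14,18,19,20,17]) (.leaf [12,13,16,15]))) (.leaf [8,9,11,10])) (.free 2 [1,2,3,4,5,6,7]))), .t 7 (nat_lit 0xd410d0d0d060d0501f301f2) (.z (.node 4 16 (.edon 0 14 (.node 2 4 (.leaf [0,2,6,10,12]) (.leaf [1,3,4])) (.edon 15 20 (.leaf [15,18,19]) (.leaf [14,17,20,22,21]))) (.free 2 [5,7,8,9,11,13,16]))), .t 10 (nat_lit 0xccc0ccb0cc60cf70cf50cdd0cdc01b101b0) (.z (.edon 0 20 (.node 4 16 (.edon 0 14 (.node 2 4 (.leaf [0,2,5,8,12]) (.leaf [1,3,4])) (.leaf [14,15,18,19,17])) (.free 2 [6,7,9,10,11,13,16])) (.free 1 [20,21,22]))), .t 9 (nat_lit 0xb990bbd0bba0ba50ba30be60be50d42) (.z (.node 0 7 (.edon 0 11 (.leaf [0,8,9,10]) (.node 15 16 (.node 18 19 (.leaf [18,20,22,21]) (.leaf [12,15,17,19,14])) (.leaf [11,13,16]))) (.free 2 [1,2,3,4,5,6,7]))), .t 10 (nat_lit 0xccc0ccb0cc60cf70cf50cdd0cdc01e001df)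 (.z (.edon 0 20 (.node 4 16 (.edon 0 14 (.node 2 4 (.leaf [0,2,6,8,12]) (.leaf [1,3,4])) (.leaf [14,15,18,19,17])) (.free 2 [5,7,9,10,11,13,16])) (.free 1 [20,21,22]))), .t 1 (nat_lit 0) (.cn 2 3), .t 7 (nat_lit 0xc0f0c0c0187006100080006) (.z (.node 16 0 (.edon 0 13 (.edon 4 10 (.free 2 [4,5,6,7,8,9,11]) (.leaf [1,3,10,12,2])) (.leaf [13,15,16,14])) (.free 2 [0,17,18,19,20,21,22]))), .t 5 (nat_lit 0x79207900a4a0a45) (.z (.node 0 7 (.edon 0 16 (.edon 11 12 (.leaf [11,13,15,14]) (.leaf [0,8,9,10,12])) (.free 2 [16,17,18,19,20,21,22])) (.free 2 [1,2,3,4,5,6,7]))), .t 10 (nat_lit 0x78b07860c0f0c0c0d3e0c060c040c000bff) (.z (.node 0 7 (.node 0 11 (.node 0 20 (.leaf [0,21,22]) (.node 12 16 (.leaf [12,17,18,19,20]) (.leaf [13,15,16,14]))) (.leaf [8,9,11,10])) (.free 2 [1,2,3,4,5,6,7]))), .t 10 (nat_lit 0xc0c0c3f0c3d0c1f0c1c078b07860c720c71) (.z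 (.node 0 7 (.node 0 11 (.edon 14 19 (.leaf [13,15,16,18,14]) (.free 2 [0,12,17,19,20,21,22])) (.leaf [8,9,11,10])) (.free 2 [1,2,3,4,5,6,7]))), .t 5 (nat_lit 0x78b07860b320b30) (.z (.node 0 7 (.node 0 11 (.edon 15 21 (.free 2 [15,16,17,18,19,20,22]) (.leaf [0,12,13,14,21])) (.leaf [8,9,11,10])) (.free 2 [1,2,3,4,5,6,7]))), .t 1 (nat_lit 0) (.cp 4 3), .t 5 (nat_lit 0x7a1079f09e709e4) (.z (.node 0 7 (.edon 0 16 (.edon 11 14 (.leaf [11,13,15,12]) (.leaf [0,8,9,10,14])) (.free 2 [16,17,18,19,20,21,22])) (.free 2 [1,2,3,4,5,6,7])))] (by decide +kernel) (by decide +kernel)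
theorem b125 : B 4000 4032 := Blk.of_chk [.t 8 (nat_lit 0xc720d100d0f0ca10ca00c6f0c6e) (.z (.edon 13 21 (.edon 0 19 (.leaf [13,15,16,17,18]) (.leaf [19,20,22])) (.free 4 [0,1,2,3,4,5,6,7,8,9,10,11,12,14,21]))), .t 10 (nat_lit 0xb0c0b090b04078b07860b940b910b400b3e) (.z (.node 0 7 (.node 0 11 (.node 0 16 (.free 2 [0,17,18,19,20,21,22]) (.leaf [12,13,15,16,14])) (.leaf [8,9,11,10])) (.free 2 [1,2,3,4,5,6,7]))), .t 1 (nat_lit 0) (.fa 4), .t 10 (nat_lit 0x345037803750355035103e403e30b320b30) (.z (.node 0 3 (.node 0 11 (.edon 15 21 (.free 2 [15,16,17,18,19,20,22]) (.leaf [0,12,13,14,21])) (.edon 7 10 (.leaf [7,9,11]) (.leaf [4,5,10,8,6]))) (.free 1 [1,2,3]))), .t 15 (nat_lit 0x34503780375035503510d1f0d1a0d1903e403e30b110b0c0d2b0d24) (.z (.node 0 3 (.node 0 11 (.node 0 20 (.leaf [0,21,22]) (.node 15 16 (.leaf [15,18,19,20,17]) (.leaf [12,13,16,14])))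 (.edon 7 10 (.leaf [7,9,11]) (.leaf [4,5,10,8,6]))) (.free 1 [1,2,3]))), .t 1 (nat_lit 0) (.cp 4 3), .t 1 (nat_lit 0) (.cn 7 2), .t 15 (nat_lit 0x950094f094c05a105a0059e0972096f095b095a05c905c605af05ad) (.z (.edon 1 21 (.edon 0 5 (.leaf [1,3,4]) (.edon 0 10 (.leaf [5,7,9,8,6]) (.edon 0 15 (.leaf [10,11,13,14,12]) (.free 2 [15,16,17,18,19,20,22])))) (.free 1 [0,2,21]))), .t 15 (nat_lit 0x950094f094c0972096f095b095a065805c905c605af05aa05a305a2) (.z (.edon 1 21 (.edon 0 5 (.leaf [1,3,4]) (.edon 0 10 (.leaf [5,6,7,9,8]) (.edon 0 15 (.leaf [10,11,13,14,12]) (.free 2 [15,16,17,18,19,20,22])))) (.free 1 [0,2,21]))), .t 10 (nat_lit 0x3520348034603e403e1037803770b080b06) (.z (.node 0 3 (.node 0 11 (.edon 0 16 (.leaf [0,12,13,14,15]) (.free 2 [16,17,18,19,20,21,22])) (.edon 7 10 (.leaf [7,9,11]) (.leaf [4,6,10,8,5]))) (.free 1 [1,2,3]))), .t 5 (nat_lit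 0x8d308d008250824) (.z (.node 0 7 (.edon 0 16 (.node 10 12 (.leaf [0,8,10,14,15]) (.leaf [9,11,13,12])) (.free 2 [16,17,18,19,20,21,22])) (.free 2 [1,2,3,4,5,6,7]))), .t 10 (nat_lit 0x345037803750355035103e403e30b080b06) (.z (.node 0 3 (.node 0 11 (.edon 0 16 (.leaf [0,12,13,14,15]) (.free 2 [16,17,18,19,20,21,22])) (.edon 7 10 (.leaf [7,9,11]) (.leaf [4,5,10,8,6]))) (.free 1 [1,2,3]))), .t 5 (nat_lit 0x78b07860b080b06) (.z (.node 0 7 (.node 0 11 (.edon 0 16 (.leaf [0,12,13,14,15]) (.free 2 [16,17,18,19,20,21,22])) (.leaf [8,9,11,10])) (.free 2 [1,2,3,4,5,6,7]))), .t 10 (nat_lit 0x78b07860d2b0c060bf70bf20bf10c3b0c3a) (.z (.node 0 7 (.node 0 11 (.node 0 20 (.leaf [0,21,22]) (.edon 13 19 (.leaf [13,14,16,17]) (.leaf [12,19,20,18,15]))) (.leaf [8,9,11,10])) (.free 2 [1,2,3,4,5,6,7]))), .t 7 (nat_lit 0x78b07860bf50bf40c3b0c3a) (.z (.node 0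 7 (.node 0 11 (.edon 13 19 (.leaf [13,14,16,17]) (.edon 19 21 (.leaf [19,20,22]) (.leaf [0,12,15,18,21]))) (.leaf [8,9,11,10])) (.free 2 [1,2,3,4,5,6,7]))), .t 7 (nat_lit 0x78b07860beb0bea0c3f0c3e) (.z (.node 0 7 (.node 0 11 (.edon 13 19 (.leaf [13,14,16,18]) (.edon 19 21 (.leaf [19,20,22]) (.leaf [0,12,15,17,21]))) (.leaf [8,9,11,10])) (.free 2 [1,2,3,4,5,6,7]))), .t 8 (nat_lit 0x79d078b078607fb07f907b107b0) (.z (.node 0 7 (.edon 0 16 (.node 12 14 (.leaf [0,12,13,15]) (.leaf [8,9,11,14,10])) (.free 2 [16,17,18,19,20,21,22])) (.free 2 [1,2,3,4,5,6,7]))), .t 7 (nat_lit 0xc100c0e0187006100080006) (.z (.node 16 0 (.edon 0 13 (.edon 4 10 (.free 2 [4,5,6,7,8,9,11]) (.leaf [1,3,10,12,2])) (.leaf [13,16,15,14])) (.free 2 [0,17,18,19,20,21,22]))), .t 8 (nat_lit 0x796078b078607f807f607ae07ad) (.z (.node 0 7 (.edon 0 16 (.node 12 13 (.leaf [0,12,14,15])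 (.leaf [8,9,11,13,10])) (.free 2 [16,17,18,19,20,21,22])) (.free 2 [1,2,3,4,5,6,7]))), .t 13 (nat_lit 0xd1f0d1a0d1901b10d2b0d2405fc05fb0211021001ac01ab) (.z (.edon 2 22 (.node 4 16 (.edon 0 15 (.node 2 4 (.leaf [2,5,8,10,12]) (.leaf [1,3,4])) (.leaf [15,18,19,20,17])) (.free 2 [6,7,9,11,13,14,16])) (.free 1 [0,21,22]))), .t 6 (nat_lit 0xd410cdd0cdb01b101b0) (.z (.node 4 16 (.edon 0 14 (.node 2 4 (.leaf [0,2,5,8,12]) (.leaf [1,3,4])) (.edon 15 20 (.leaf [14,18,19,15]) (.leaf [17,20,22,21]))) (.free 2 [6,7,9,10,11,13,16]))), .t 7 (nat_lit 0x78b07860beb0bea0c3f0c3d) (.z (.node 0 7 (.node 0 11 (.edon 19 21 (.leaf [19,20,22]) (.edon 14 15 (.leaf [13,16,18,14]) (.leaf [0,12,15,17,21]))) (.leaf [8,9,11,10])) (.free 2 [1,2,3,4,5,6,7]))), .t 7 (nat_lit 0x1c801c70a4a0a4506580655) (.z (.edon 0 16 (.node 2 4 (.edon 8 11 (.leaf [6,7,9,8]) (.edon 11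 12 (.leaf [11,13,15,14]) (.leaf [0,2,5,10,12]))) (.leaf [1,3,4])) (.free 2 [16,17,18,19,20,21,22]))), .t 6 (nat_lit 0xd420cd00ccd01b101b0) (.z (.node 4 16 (.edon 0 14 (.node 2 4 (.leaf [0,2,5,8,12]) (.leaf [1,3,4])) (.edon 15 20 (.leaf [14,17,19,15]) (.leaf [18,20,22,21]))) (.free 2 [6,7,9,10,11,13,16]))), .t 13 (nat_lit 0xd1e0d1b0d1801b10d2b0d2405fc05fb0211021001ac01ab) (.z (.edon 2 22 (.node 4 16 (.edon 0 15 (.node 2 4 (.leaf [2,5,8,10,12]) (.leaf [1,3,4])) (.leaf [15,17,19,20,18])) (.free 2 [6,7,9,11,13,14,16])) (.free 1 [0,21,22]))), .t 13 (nat_lit 0xd1e0d1b0d1801e00d2b0d24068d068c0211021001da01d9) (.z (.edon 2 22 (.node 4 16 (.edon 0 15 (.node 2 4 (.leaf [2,6,8,10,12]) (.leaf [1,3,4])) (.leaf [15,17,19,20,18])) (.free 2 [5,7,9,11,13,14,16])) (.free 1 [0,21,22]))), .t 5 (nat_lit 0x78b07860b750b74) (.z (.node 0 7 (.node 0 11 (.node 13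 22 (.leaf [0,12,13,17,21]) (.free 2 [14,15,16,18,19,20,22])) (.leaf [8,9,11,10])) (.free 2 [1,2,3,4,5,6,7]))), .t 12 (nat_lit 0xd1a0cf70cf50cdd0cdb0cd10ccf01f301f205c905c6) (.z (.node 2 4 (.edon 8 11 (.leaf [5,7,9,8]) (.node 14 16 (.edon 0 14 (.leaf [0,2,6,10,12]) (.edon 0 20 (.leaf [14,18,19,17,15]) (.leaf [20,21,22]))) (.leaf [11,13,16]))) (.free 1 [1,3,4]))), .t 7 (nat_lit 0x78b07860bc30bc20c720c70) (.z (.node 0 7 (.node 0 11 (.edon 15 19 (.leaf [13,16,18,15]) (.edon 19 21 (.leaf [19,20,22]) (.leaf [0,12,14,17,21]))) (.leaf [8,9,11,10])) (.free 2 [1,2,3,4,5,6,7]))), .t 10 (nat_lit 0x78b07860d240c040bf70be90be80c3f0c3e) (.z (.node 0 7 (.node 0 11 (.node 0 20 (.leaf [0,21,22]) (.edon 13 19 (.leaf [13,14,16,18]) (.leaf [12,19,20,17,15]))) (.leaf [8,9,11,10])) (.free 2 [1,2,3,4,5,6,7]))), .t 7 (nat_lit 0x78b07860b820b810cbe0cbc) (.z (.node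 0 7 (.node 0 11 (.edon 15 19 (.leaf [14,16,17,15]) (.edon 19 21 (.leaf [19,20,22]) (.leaf [0,12,13,18,21]))) (.leaf [8,9,11,10])) (.free 2 [1,2,3,4,5,6,7]))), .t 1 (nat_lit 0) (.cn 2 3)] (by decide +kernel) (by decide +kernel)
theorem b126 : B 4032 4064 := Blk.of_chk [.t 6 (nat_lit 0xd420cd00ccd01e001df) (.z (.node 4 16 (.edon 0 14 (.node 2 4 (.leaf [0,2,6,8,12]) (.leaf [1,3,4])) (.edon 15 20 (.leaf [14,17,19,15]) (.leaf [18,20,22,21]))) (.free 2 [5,7,9,10,11,13,16]))), .t 10 (nat_lit 0xd1a0cf70cf50cdd0cdb0cd10ccf01e001df) (.z (.edon 0 20 (.node 4 16 (.edon 0 14 (.node 2 4 (.leaf [0,2,6,8,12]) (.leaf [1,3,4])) (.leaf [14,18,19,17,15])) (.free 2 [5,7,9,10,11,13,16])) (.free 1 [20,21,22]))), .t 7 (nat_lit 0x1f301f20a4a0a4505c905c6) (.z (.edon 0 16 (.node 2 4 (.edon 8 11 (.leaf [5,7,9,8]) (.edon 11 12 (.leaf [11,13,15,14]) (.leaf [0,2,6,10,12])))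 (.leaf [1,3,4])) (.free 2 [16,17,18,19,20,21,22]))), .t 9 (nat_lit 0xb040b410b3c0b110b0c0b950b930006) (.z (.node 16 0 (.edon 0 12 (.edon 4 10 (.free 2 [4,5,6,7,8,9,11]) (.leaf [1,3,10,2])) (.leaf [12,13,16,15,14])) (.free 2 [0,17,18,19,20,21,22]))), .t 9 (nat_lit 0xb040b410b3c0b110b0c0b950b930005) (.z (.node 16 0 (.edon 0 12 (.edon 4 9 (.free 2 [4,5,6,7,8,10,11]) (.leaf [1,3,9,2])) (.leaf [12,13,16,15,14])) (.free 2 [0,17,18,19,20,21,22]))), .t 9 (nat_lit 0xb040b410b3c0b110b0c0b950b930001) (.z (.node 16 0 (.edon 0 12 (.edon 4 5 (.free 2 [4,6,7,8,9,10,11]) (.leaf [1,3,5,2])) (.leaf [12,13,16,15,14])) (.free 2 [0,17,18,19,20,21,22]))), .t 1 (nat_lit 0) (.fa 4), .t 17 (nat_lit 0x59e05ae05ab05a305a10d110cf10cee0ccb0cc60cc10cc0094f094c05c805c7) (.z (.edon 1 21 (.edon 0 5 (.leaf [1,3,4]) (.edon 0 10 (.leaf [5,7,8,9,6]) (.edon 0 14 (.leaf [10,11,13,12])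 (.edon 0 19 (.leaf [14,15,16,18,17]) (.leaf [19,20,22]))))) (.free 1 [0,2,21]))), .t 15 (nat_lit 0x59e0954094f094c05ae05ab05a305a1097a0977095f095e05c805c7) (.z (.edon 1 21 (.edon 0 5 (.leaf [1,3,4]) (.edon 0 10 (.leaf [5,7,8,9,6]) (.edon 12 16 (.leaf [10,11,13,15,12]) (.free 2 [14,16,17,18,19,20,22])))) (.free 1 [0,2,21]))), .t 12 (nat_lit 0x7f607f507f301820052000500020830082d08050803) (.z (.edon 0 16 (.node 0 13 (.leaf [0,14,15]) (.edon 8 9 (.leaf [8,11,13,12,10]) (.node 3 7 (.leaf [1,3,6,9,2]) (.leaf [4,5,7])))) (.free 2 [16,17,18,19,20,21,22]))), .t 7 (nat_lit 0xb940b910182005200050002) (.z (.node 16 0 (.edon 4 16 (.free 2 [4,5,7,8,10,11,13]) (.edon 0 12 (.leaf [1,3,6,9,2]) (.leaf [12,15,16,14]))) (.free 2 [0,17,18,19,20,21,22]))), .t 9 (nat_lit 0x6d706d406cf0ced0713071006ea06e8) (.z (.edon 0 7 (.free 2 [0,1,2,3,4,5,6]) (.edon 11 22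 (.free 2 [11,13,16,17,18,19,20]) (.edon 0 14 (.leaf [7,8,10,12,9]) (.leaf [14,15,22,21]))))), .t 6 (nat_lit 0x50b620b610cd80cd7) (.z (.edon 21 19 (.node 0 11 (.node 15 18 (.leaf [0,14,15,17,21]) (.leaf [12,13,16,18])) (.edon 4 9 (.free 2 [4,5,6,7,8,10,11]) (.leaf [1,3,9,2]))) (.free 1 [19,20,22]))), .t 1 (nat_lit 0) (.cn 4 3), .t 9 (nat_lit 0x6d706d406cf0d060713071006ea06e8) (.z (.edon 0 7 (.free 2 [0,1,2,3,4,5,6]) (.edon 11 22 (.free 2 [11,13,15,16,18,19,20]) (.edon 0 14 (.leaf [7,8,10,12,9]) (.leaf [14,17,22,21]))))), .t 9 (nat_lit 0xcfb0cf70cf50b410b3c0d070d000005) (.z (.edon 2 22 (.edon 0 12 (.edon 4 9 (.free 2 [4,5,6,7,8,10,11]) (.leaf [1,3,9,2])) (.node 14 16 (.leaf [14,18,19,20,17]) (.leaf [12,13,16,15]))) (.free 1 [0,21,22]))), .t 17 (nat_lit 0x95009e709770972096f0963095b095709540a4a09b409af0991098f095f095e) (.z (.edon 0 16 (.edon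 0 10 (.free 3 [0,1,2,3,4,5,6,7,8,9]) (.leaf [10,11,13,15,14,12])) (.free 2 [16,17,18,19,20,21,22]))), .t 14 (nat_lit 0xd420d0d0d0b0d0a09e709e406d40673066e0660065d065b065a) (.z (.node 0 2 (.edon 0 6 (.leaf [0,3,4,5]) (.edon 0 11 (.leaf [6,7,8,10,9]) (.edon 15 16 (.leaf [11,13,15,12]) (.node 18 19 (.leaf [14,18,20,22,21]) (.leaf [16,17,19]))))) (.free 1 [1,2]))), .t 15 (nat_lit 0x954094f094c05a3097a0977095f095e0657065605c805c705a0059f) (.z (.edon 1 21 (.edon 0 5 (.leaf [1,3,4]) (.edon 0 10 (.leaf [5,6,7,8,9]) (.edon 12 16 (.leaf [10,11,13,15,12]) (.free 2 [14,16,17,18,19,20,22])))) (.free 1 [0,2,21]))), .t 9 (nat_lit 0xd410d0d0d060d0509e709e405a0059f) (.z (.node 2 4 (.edon 0 11 (.node 2 8 (.leaf [0,2,9,10]) (.leaf [5,6,7,8])) (.edon 12 16 (.leaf [11,13,15,12]) (.node 14 19 (.leaf [14,17,20,22,21]) (.leaf [16,18,19])))) (.free 1 [1,3,4]))),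 .t 17 (nat_lit 0x5a60d110cf10cee0ccb0cc60cc10cc0065b065a05cc05cb05a0059f08d308d0) (.z (.edon 1 21 (.edon 0 5 (.leaf [1,3,4]) (.edon 0 14 (.edon 9 10 (.leaf [9,11,13,12]) (.leaf [5,6,7,8,10])) (.edon 0 19 (.leaf [14,15,16,18,17]) (.leaf [19,20,22])))) (.free 1 [0,2,21]))), .t 10 (nat_lit 0x89307f507f307aa07a8079307910ce60ce5) (.z (.node 0 7 (.node 0 12 (.edon 19 21 (.leaf [19,20,22]) (.node 15 17 (.leaf [0,14,15,18,21]) (.leaf [13,16,17]))) (.leaf [8,11,12,10,9])) (.free 2 [1,2,3,4,5,6,7]))), .t 10 (nat_lit 0x89307f507f307aa07a8079307910cd80cd7) (.z (.node 0 7 (.node 0 12 (.edon 19 21 (.leaf [19,20,22]) (.node 15 18 (.leaf [0,14,15,17,21]) (.leaf [13,16,18]))) (.leaf [8,11,12,10,9])) (.free 2 [1,2,3,4,5,6,7]))), .t 6 (nat_lit 0x60b410b3c0cf70cf6) (.z (.edon 0 20 (.node 0 11 (.node 14 16 (.leaf [0,14,17,18,19]) (.leaf [12,13,16,15])) (.edon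 4 10 (.free 2 [4,5,6,7,8,9,11]) (.leaf [1,3,10,2]))) (.free 1 [20,21,22]))), .t 9 (nat_lit 0x7f507f3017d004d000500010cd80cd7) (.z (.edon 21 19 (.node 0 12 (.node 15 18 (.leaf [0,14,15,17,21]) (.leaf [13,16,18])) (.node 7 10 (.node 3 7 (.leaf [1,3,5,9,2]) (.leaf [4,6,7])) (.leaf [8,11,12,10]))) (.free 1 [19,20,22]))), .t 6 (nat_lit 0x50b410b3c0cf70cf6) (.z (.edon 0 20 (.node 0 11 (.node 14 16 (.leaf [0,14,17,18,19]) (.leaf [12,13,16,15])) (.edon 4 9 (.free 2 [4,5,6,7,8,10,11]) (.leaf [1,3,9,2]))) (.free 1 [20,21,22]))), .t 9 (nat_lit 0x7f507f3017d004d000500010ce60ce5) (.z (.edon 21 19 (.node 0 12 (.node 15 17 (.leaf [0,14,15,18,21]) (.leaf [13,16,17])) (.node 7 10 (.node 3 7 (.leaf [1,3,5,9,2]) (.leaf [4,6,7])) (.leaf [8,11,12,10]))) (.free 1 [19,20,22]))), .t 15 (nat_lit 0x9e409e009dd0a4a0a450a090a0706d40673066e0660065d065b065a) (.z (.node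 0 2 (.edon 0 6 (.leaf [0,3,4,5]) (.edon 0 11 (.leaf [6,7,8,10,9]) (.edon 0 16 (.leaf [11,13,15,14,12]) (.free 2 [16,17,18,19,20,21,22])))) (.free 1 [1,2]))), .t 9 (nat_lit 0x7f507f301820052000500020cd80cd7) (.z (.edon 21 19 (.node 0 12 (.node 15 18 (.leaf [0,14,15,17,21]) (.leaf [13,16,18])) (.node 7 10 (.node 3 7 (.leaf [1,3,6,9,2]) (.leaf [4,5,7])) (.leaf [8,11,12,10]))) (.free 1 [19,20,22]))), .t 10 (nat_lit 0x954094f094c097a0977095f095e05a0059e) (.z (.edon 0 16 (.node 4 12 (.free 2 [0,1,2,3,4,9,14]) (.edon 0 10 (.leaf [5,7,8,6]) (.leaf [10,11,13,15,12]))) (.free 2 [16,17,18,19,20,21,22]))), .t 12 (nat_lit 0x68e068a06870186005a0008000506b406b306950694) (.z (.edon 0 16 (.node 0 13 (.leaf [0,14,15]) (.edon 4 9 (.node 6 7 (.leaf [6,8,11,13,10]) (.leaf [4,5,7])) (.leaf [1,3,9,12,2]))) (.free 2 [16,17,18,19,20,21,22]))), .t 12 (nat_lit 0x67f06790676018700610008000606a706a606950694)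 (.z (.edon 0 16 (.node 0 13 (.leaf [0,14,15]) (.edon 4 10 (.node 6 7 (.leaf [6,8,11,13,9]) (.leaf [4,5,7])) (.leaf [1,3,10,12,2]))) (.free 2 [16,17,18,19,20,21,22])))] (by decide +kernel) (by decide +kernel)

end Pool.Agent.GCP.F8_11
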