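import Pool.Agent.GCP.F8_11Db

set_option autoImplicit false
set_option maxRecDepth 100000

/-! # Blocks F8_11B4 (generated) -/

namespace Pool.Agent.GCP.F8_11

open Pool.Agent.GCP DB

theorem b127 : B 4064 4096 := Blk.of_chk [.t 5 (nat_lit 0xbd80d0d0c0a0bda) (.z (.node 0 7 (.edon 0 11 (.leaf [0,8,9,10]) (.node 12 19 (.leaf [12,20,22,21,14]) (.free 2 [11,13,15,16,17,18,19]))) (.free 2 [1,2,3,4,5,6,7]))), .t 12 (nat_lit 0xb910bae0bac0b9c0b9901840058000600050bdd0bdc) (.z (.edon 0 20 (.edon 4 16 (.free 2 [4,5,6,7,8,11,13]) (.node 0 10 (.node 0 17 (.leaf [0,18,19]) (.leaf [12,15,16,17,14])) (.leaf [1,3,9,10,2]))) (.free 1 [20,21,22]))), .t 5 (nat_lit 0x8a908a7083b083a) (.z (.node 0 7 (.edon 0 16 (.edon 8 12 (.leaf [8,11,13,15]) (.leaf [0,9,10,12,14])) (.free 2 [16,17,18,19,20,21,22])) (.free 2 [1,2,3,4,5,6,7]))), .t 5 (nat_lit 0xd420d0d0d0b0d0a)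 (.z (.node 0 7 (.edon 0 11 (.leaf [0,8,9,10]) (.node 18 19 (.leaf [14,18,20,22,21]) (.free 2 [11,12,13,15,16,17,19]))) (.free 2 [1,2,3,4,5,6,7]))), .t 5 (nat_lit 0xd410d0d0d060d05) (.z (.node 0 7 (.edon 0 11 (.leaf [0,8,9,10]) (.node 14 19 (.leaf [14,17,20,22,21]) (.free 2 [11,12,13,15,16,18,19]))) (.free 2 [1,2,3,4,5,6,7]))), .t 9 (nat_lit 0xcfb0cf70cf50b410b3c0d070d000006) (.z (.edon 2 22 (.edon 0 12 (.edon 4 10 (.free 2 [4,5,6,7,8,9,11]) (.leaf [1,3,10,2])) (.node 14 16 (.leaf [14,18,19,20,17]) (.leaf [12,13,16,15]))) (.free 1 [0,21,22]))), .t 17 (nat_lit 0x59e05b305b205a605a40d110cf10cee0ccb0cc60cc10cc005cc05cb08d308d0) (.z (.edon 1 21 (.edon 0 5 (.leaf [1,3,4]) (.edon 0 14 (.edon 9 10 (.leaf [9,11,13,12]) (.leaf [5,7,8,10,6])) (.edon 0 19 (.leaf [14,15,16,18,17]) (.leaf [19,20,22])))) (.free 1 [0,2,21]))), .t 9 (nat_lit 0xb9f0bcc0bc90ba50ba30d410bef0bee)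 (.z (.node 0 7 (.edon 0 11 (.leaf [0,8,9,10]) (.node 15 16 (.edon 14 20 (.leaf [12,15,18,19,14]) (.leaf [17,20,22,21])) (.leaf [11,13,16]))) (.free 2 [1,2,3,4,5,6,7]))), .t 7 (nat_lit 0xd410d0d0d060d0509e709e4) (.z (.node 0 7 (.edon 0 11 (.leaf [0,8,9,10]) (.edon 12 16 (.leaf [11,13,15,12]) (.node 17 19 (.leaf [14,17,20,22,21]) (.leaf [16,18,19])))) (.free 2 [1,2,3,4,5,6,7]))), .t 9 (nat_lit 0xc0a0cf70ca90ca70c5d0c5a0c510c4f) (.z (.node 0 7 (.edon 0 11 (.leaf [0,8,9,10]) (.node 13 16 (.edon 14 20 (.leaf [13,18,19,17,14]) (.leaf [12,20,22,21])) (.leaf [11,15,16]))) (.free 2 [1,2,3,4,5,6,7]))), .t 6 (nat_lit 0xd060c050bda0bc50bc4) (.z (.node 0 7 (.edon 0 11 (.leaf [0,8,9,10]) (.node 14 20 (.leaf [12,14,17,22,21]) (.free 2 [11,13,15,16,18,19,20]))) (.free 2 [1,2,3,4,5,6,7]))), .t 7 (nat_lit 0xcb50c060b880b7c0b7a0d06) (.z (.node 0 7 (.edon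 0 11 (.leaf [0,8,9,10]) (.node 13 16 (.node 14 20 (.leaf [14,17,22,21]) (.leaf [12,13,18,19,20])) (.leaf [11,15,16]))) (.free 2 [1,2,3,4,5,6,7]))), .t 4 (nat_lit 0x209720970) (.z (.edon 16 4 (.node 0 6 (.edon 0 16 (.leaf [0,10,12,13,14]) (.free 2 [16,17,18,19,20,21,22])) (.leaf [1,3,6,2])) (.free 2 [4,5,7,8,9,11,15]))), .t 5 (nat_lit 0x183005300060002) (.z (.edon 16 4 (.node 0 10 (.edon 0 16 (.leaf [0,12,13,14]) (.free 2 [16,17,18,19,20,21,22])) (.leaf [1,3,6,10,2])) (.free 2 [4,5,7,8,9,11,15]))), .t 15 (nat_lit 0x351034e034a0b270b240b1f03fa03f7039403920bd40b880d110d0e) (.z (.node 0 3 (.node 0 11 (.node 0 20 (.leaf [0,21,22]) (.edon 17 19 (.leaf [15,16,18,17]) (.leaf [12,13,19,20,14]))) (.edon 7 9 (.leaf [7,8,11]) (.leaf [4,5,9,10,6]))) (.free 1 [1,2,3]))), .t 5 (nat_lit 0xd0d0c0a0bda0bd9) (.z (.node 0 7 (.edon 0 11 (.leaf [0,8,9,10]) (.node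 12 19 (.leaf [12,14,20,22,21]) (.free 2 [11,13,15,16,17,18,19]))) (.free 2 [1,2,3,4,5,6,7]))), .t 1 (nat_lit 0) (.cp 2 3), .t 12 (nat_lit 0x2e202e001e701e6018200da00d90052000600050002) (.z (.edon 4 16 (.free 2 [4,5,7,8,11,13,15]) (.node 10 0 (.leaf [1,3,6,9,10,2]) (.free 3 [0,12,14,16,17,18,19,20,21,22])))), .t 9 (nat_lit 0xb270b240b1f0bd40b880d110d0e0006) (.z (.edon 2 22 (.edon 0 12 (.edon 4 10 (.free 2 [4,5,6,7,8,9,11]) (.leaf [1,3,10,2])) (.edon 17 19 (.leaf [15,16,18,17]) (.leaf [12,13,19,20,14]))) (.free 1 [0,21,22]))), .t 9 (nat_lit 0x2f0d110ca20c9f0c7a0c780c720c71) (.z (.node 1 11 (.node 0 10 (.edon 17 19 (.leaf [13,15,16,18,17]) (.free 2 [0,12,14,19,20,21,22])) (.leaf [1,9,10,2])) (.free 2 [3,4,5,6,7,8,11]))), .t 8 (nat_lit 0x9e409e009dd0a4a0a450a090a07) (.z (.node 0 7 (.edon 0 11 (.leaf [0,8,9,10]) (.edon 0 16 (.leaf [11,13,15,14,12])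 (.free 2 [16,17,18,19,20,21,22]))) (.free 2 [1,2,3,4,5,6,7]))), .t 4 (nat_lit 0x208a908a7) (.z (.edon 16 4 (.node 0 6 (.edon 0 16 (.leaf [0,9,10,12,14]) (.free 2 [16,17,18,19,20,21,22])) (.leaf [1,3,6,2])) (.free 2 [4,5,7,8,11,13,15]))), .t 16 (nat_lit 0xb1f0b1d0b190bcc0bc90b7c0b7a0d4106d40673066e0660065d065b065a) (.z (.node 0 2 (.edon 0 6 (.leaf [0,3,4,5]) (.edon 0 11 (.leaf [6,7,8,10,9]) (.node 13 16 (.node 17 19 (.leaf [17,20,22,21]) (.leaf [12,13,18,19,14])) (.leaf [11,15,16])))) (.free 1 [1,2]))), .t 12 (nat_lit 0xc0c0c3f0c3d0c1f0c1c01820052000500020c720c71) (.z (.node 3 7 (.node 0 11 (.edon 14 19 (.leaf [13,15,16,18,14]) (.free 2 [0,12,17,19,20,21,22])) (.edon 8 9 (.leaf [8,10,11]) (.leaf [1,3,6,9,2]))) (.free 1 [4,5,7]))), .t 6 (nat_lit 0x20d410d0d0d060d05) (.z (.edon 16 4 (.node 0 6 (.edon 0 14 (.leaf [0,9,10,12]) (.node 17 19 (.leaf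 [14,17,20,22,21]) (.leaf [16,18,19]))) (.leaf [1,3,6,2])) (.free 2 [4,5,7,8,11,13,15]))), .t 7 (nat_lit 0xd0d0c0a0bda0bd905a0059e) (.z (.node 2 4 (.edon 0 11 (.node 2 8 (.leaf [0,2,9,10]) (.leaf [5,7,8,6])) (.node 14 19 (.leaf [12,14,20,22,21]) (.free 2 [11,13,15,16,17,18,19]))) (.free 1 [1,3,4]))), .t 10 (nat_lit 0xb0c0b090b04078b07890b940b910b400b3e) (.z (.node 0 7 (.node 0 11 (.node 0 16 (.free 2 [0,17,18,19,20,21,22]) (.leaf [12,13,15,16,14])) (.leaf [8,11,10,9])) (.free 2 [1,2,3,4,5,6,7]))), .t 10 (nat_lit 0xb280b230b20078b07890bd40b880d110d0e) (.z (.node 0 7 (.node 0 11 (.node 0 20 (.leaf [0,21,22]) (.edon 17 19 (.leaf [15,16,18,17]) (.leaf [12,14,19,20,13]))) (.leaf [8,11,10,9])) (.free 2 [1,2,3,4,5,6,7]))), .t 6 (nat_lit 0x50d410d0d0d060d05) (.z (.edon 16 4 (.node 0 9 (.edon 0 14 (.leaf [0,10,12,13]) (.node 14 19 (.leaf [14,17,20,22,21])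 (.leaf [16,18,19]))) (.leaf [1,3,9,2])) (.free 2 [4,5,6,7,8,11,15]))), .t 1 (nat_lit 0) (.cn 2 3), .t 14 (nat_lit 0xc0c0c3b0c390c170c1407f507f3017d004d000500010c6f0c6e) (.z (.edon 0 20 (.node 0 12 (.node 0 17 (.leaf [0,18,19]) (.leaf [13,15,16,17,14])) (.node 7 10 (.node 3 7 (.leaf [1,3,5,9,2]) (.leaf [4,6,7])) (.leaf [8,11,12,10]))) (.free 1 [20,21,22]))), .t 4 (nat_lit 0x108a908a7) (.z (.edon 16 4 (.node 0 5 (.edon 0 16 (.leaf [0,9,10,12,14]) (.free 2 [16,17,18,19,20,21,22])) (.leaf [1,3,5,2])) (.free 2 [4,6,7,8,11,13,15])))] (by decide +kernel) (by decide +kernel)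
theorem b128 : B 4096 4128 := Blk.of_chk [.t 14 (nat_lit 0x22a012a08a208a0024f024e022702260158015701270125002f) (.z (.node 11 1 (.free 2 [3,4,5,6,7,8,11]) (.node 13 0 (.leaf [1,9,10,12,13,2]) (.free 3 [0,14,15,16,17,18,19,20,21,22])))), .t 4 (nat_lit 0x509720970) (.z (.edon 16 4 (.node 0 9 (.edon 0 16 (.leaf [0,10,12,13,14]) (.free 2 [16,17,18,19,20,21,22])) (.leaf [1,3,9,2])) (.free 2 [4,5,6,7,8,11,15]))), .t 8 (nat_lit 0xd110cf10cee0ccb0cc60cc10cc0) (.z (.edon 14 21 (.edon 0 19 (.leaf [14,15,16,18,17]) (.leaf [19,20,22])) (.free 4 [0,1,2,3,4,5,6,7,8,9,10,11,12,13,21]))), .t 10 (nat_lit 0xb910bb10baf0ba10b9f078b07890be00bdf) (.z (.node 0 7 (.node 0 11 (.edon 14 19 (.leaf [12,15,16,18,14]) (.free 2 [0,13,17,19,20,21,22])) (.leaf [8,11,10,9])) (.free 2 [1,2,3,4,5,6,7]))), .t 12 (nat_lit 0xd0d0c0a0bda0bd906d40673066e0660065d065b065a) (.z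 (.node 0 2 (.edon 0 6 (.leaf [0,3,4,5]) (.edon 0 11 (.leaf [6,7,8,10,9]) (.node 14 19 (.leaf [12,14,20,22,21]) (.free 2 [11,13,15,16,17,18,19])))) (.free 1 [1,2]))), .t 9 (nat_lit 0xb0c0b090b040b940b910b400b3e0005) (.z (.node 16 0 (.edon 0 12 (.edon 4 9 (.free 2 [4,5,6,7,8,10,11]) (.leaf [1,3,9,2])) (.leaf [12,13,15,16,14])) (.free 2 [0,17,18,19,20,21,22]))), .t 15 (nat_lit 0x352034d034b0b0c0b090b0403fb03f6039503930b940b910b400b3e) (.z (.node 0 3 (.node 0 11 (.node 0 16 (.free 2 [0,17,18,19,20,21,22]) (.leaf [12,13,15,16,14])) (.edon 7 10 (.leaf [7,8,11]) (.leaf [4,6,10,9,5]))) (.free 1 [1,2,3]))), .t 10 (nat_lit 0x78b07890c0f0c0c0d3e0c060c040c000bff) (.z (.node 0 7 (.node 0 11 (.node 0 20 (.leaf [0,21,22]) (.node 12 16 (.leaf [12,17,18,19,20]) (.leaf [13,15,16,14]))) (.leaf [8,11,10,9])) (.free 2 [1,2,3,4,5,6,7]))), .t 6 (nat_lit 0x50d410d0d0d060d05)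 (.z (.edon 16 4 (.node 0 9 (.edon 0 14 (.leaf [0,10,12,13]) (.node 17 19 (.leaf [14,17,20,22,21]) (.leaf [16,18,19]))) (.leaf [1,3,9,2])) (.free 2 [4,5,6,7,8,11,15]))), .t 15 (nat_lit 0x34b03940391035403520b270b240b1f03fa03f80bd40b880d110d0e) (.z (.node 0 3 (.node 0 11 (.node 0 20 (.leaf [0,21,22]) (.edon 17 19 (.leaf [15,16,18,17]) (.leaf [12,13,19,20,14]))) (.edon 7 9 (.leaf [7,8,11]) (.leaf [4,6,9,10,5]))) (.free 1 [1,2,3]))), .t 1 (nat_lit 0) (.cn 2 3), .t 4 (nat_lit 0x109720970) (.z (.edon 16 4 (.node 0 5 (.edon 0 16 (.leaf [0,10,12,13,14]) (.free 2 [16,17,18,19,20,21,22])) (.leaf [1,3,5,2])) (.free 2 [4,6,7,8,9,11,15]))), .t 15 (nat_lit 0x3540cac0ca90ca705b905b803fa03f8034d034c0b940b910cb50cb0) (.z (.node 0 3 (.node 0 11 (.node 0 20 (.leaf [0,21,22]) (.node 13 16 (.leaf [13,18,19,20,17]) (.leaf [12,15,16,14]))) (.edon 7 9 (.leaf [7,8,11])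 (.leaf [4,5,6,9,10]))) (.free 1 [1,2,3]))), .t 17 (nat_lit 0xcc105a60d100d0f0cf00cef0cbe0cbd065f065e05d005cf05a305a20830082d) (.z (.edon 1 21 (.edon 0 5 (.leaf [1,3,4]) (.edon 0 14 (.edon 8 9 (.leaf [8,11,13,12]) (.leaf [5,6,7,9,10])) (.edon 0 19 (.leaf [14,15,16,17,18]) (.leaf [19,20,22])))) (.free 1 [0,2,21]))), .t 9 (nat_lit 0x59e05ae05ab05a305a10c6c05c805c7) (.z (.edon 22 11 (.edon 0 13 (.node 4 6 (.free 2 [0,1,2,3,4,10,12]) (.leaf [5,7,8,9,6])) (.leaf [13,22,21,14])) (.free 2 [11,15,16,17,18,19,20]))), .t 17 (nat_lit 0x5a10cc105b905b705a605a40d100d0f0cf00cef0cbe0cbd05d005cf0830082d) (.z (.edon 1 21 (.edon 0 5 (.leaf [1,3,4]) (.edon 0 14 (.edon 8 9 (.leaf [8,11,13,12]) (.leaf [5,7,9,10,6])) (.edon 0 19 (.leaf [14,15,16,17,18]) (.leaf [19,20,22])))) (.free 1 [0,2,21]))), .t 7 (nat_lit 0xd420d0d0d0b0d0a01b401b3) (.z (.node 4 16 (.edon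 0 14 (.node 2 4 (.leaf [0,2,5,8,13]) (.leaf [1,3,4])) (.edon 15 20 (.leaf [15,17,19]) (.leaf [14,18,20,22,21]))) (.free 2 [6,7,9,10,11,12,16]))), .t 7 (nat_lit 0xd420d0d0d0b0d0a01e301e2) (.z (.node 4 16 (.edon 0 14 (.node 2 4 (.leaf [0,2,6,8,13]) (.leaf [1,3,4])) (.edon 15 20 (.leaf [15,17,19]) (.leaf [14,18,20,22,21]))) (.free 2 [5,7,9,10,11,12,16]))), .t 13 (nat_lit 0xd1e0d1b0d1801e30d2b0d240690068f0213021201da01d9) (.z (.edon 2 22 (.node 4 16 (.edon 0 15 (.node 2 4 (.leaf [2,6,8,10,13]) (.leaf [1,3,4])) (.leaf [15,17,19,20,18])) (.free 2 [5,7,9,11,12,14,16])) (.free 1 [0,21,22]))), .t 1 (nat_lit 0) (.cn 4 3), .t 1 (nat_lit 0) (.fa 4), .t 4 (nat_lit 0x208230822) (.z (.edon 16 4 (.node 0 6 (.edon 15 21 (.free 2 [15,16,17,18,19,20,22]) (.leaf [0,8,10,13,21])) (.leaf [1,3,6,2])) (.free 2 [4,5,7,9,11,12,14]))), .t 13 (nat_lit 0xd1b0caa0ca60c8c0c880c7e0c7d03e403e302db02da0273)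 (.z (.edon 0 20 (.node 4 16 (.edon 0 13 (.edon 0 3 (.leaf [0,1,2]) (.leaf [3,4,10,8,6])) (.leaf [13,15,17,19,18])) (.free 2 [5,7,9,11,12,14,16])) (.free 1 [20,21,22]))), .t 4 (nat_lit 0x108230822) (.z (.edon 16 4 (.node 0 5 (.edon 15 21 (.free 2 [15,16,17,18,19,20,22]) (.leaf [0,8,10,13,21])) (.leaf [1,3,5,2])) (.free 2 [4,6,7,9,11,12,14]))), .t 8 (nat_lit 0xcbc0cca0cc70cc10cbf0cf00cef) (.z (.edon 14 21 (.edon 0 19 (.leaf [14,16,17,18,15]) (.leaf [19,20,22])) (.free 4 [0,1,2,3,4,5,6,7,8,9,10,11,12,13,21]))), .t 7 (nat_lit 0x78b07860bae0bad0c930c92) (.z (.node 0 7 (.node 0 11 (.edon 19 21 (.leaf [19,20,22]) (.node 15 17 (.leaf [0,13,15,18,21]) (.leaf [12,14,16,17]))) (.leaf [8,9,11,10])) (.free 2 [1,2,3,4,5,6,7]))), .t 13 (nat_lit 0xd1b0caa0ca60c8c0c880c7e0c7d0378037702b502b3026b) (.z (.edon 0 20 (.node 4 16 (.edon 0 13 (.edon 0 3 (.leaf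 [0,1,2]) (.leaf [3,4,10,8,5])) (.leaf [13,15,17,19,18])) (.free 2 [6,7,9,11,12,14,16])) (.free 1 [20,21,22]))), .t 15 (nat_lit 0x5a105a0059e09e10973096e095c09590952095105c905c605af05ad) (.z (.edon 1 21 (.edon 0 5 (.leaf [1,3,4]) (.edon 0 10 (.leaf [5,7,9,8,6]) (.edon 0 15 (.leaf [10,11,12,14,13]) (.free 2 [15,16,17,18,19,20,22])))) (.free 1 [0,2,21]))), .t 7 (nat_lit 0xd420cbb0cb90cb80a080a05) (.z (.node 0 7 (.edon 0 11 (.leaf [0,8,9,10]) (.edon 15 16 (.leaf [11,14,15,12]) (.node 18 19 (.leaf [13,18,20,22,21]) (.leaf [16,17,19])))) (.free 2 [1,2,3,4,5,6,7]))), .t 1 (nat_lit 0) (.cn 2 3), .t 5 (nat_lit 0x183005300060002) (.z (.edon 0 16 (.node 0 12 (.leaf [0,13,14,15]) (.edon 4 6 (.free 2 [4,5,7,8,9,11,12]) (.leaf [1,3,6,10,2]))) (.free 2 [16,17,18,19,20,21,22]))), .t 4 (nat_lit 0x109b309b1) (.z (.edon 16 4 (.node 0 5 (.edon 0 16 (.leaf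 [0,10,13,14,15]) (.free 2 [16,17,18,19,20,21,22])) (.leaf [1,3,5,2])) (.free 2 [4,6,7,8,9,11,12])))] (by decide +kernel) (by decide +kernel)
theorem b129 : B 4128 4160 := Blk.of_chk [.t 1 (nat_lit 0) (.cp 2 3), .t 5 (nat_lit 0x7aa07a809b309b1) (.z (.node 0 7 (.edon 0 16 (.node 10 12 (.leaf [0,10,13,14,15]) (.leaf [8,11,12,9])) (.free 2 [16,17,18,19,20,21,22])) (.free 2 [1,2,3,4,5,6,7]))), .t 10 (nat_lit 0xd1b0caa0ca60c8c0c880c7e0c7d01b801b7) (.z (.edon 0 20 (.node 4 16 (.edon 0 13 (.node 2 4 (.leaf [0,2,5,9,10]) (.leaf [1,3,4])) (.leaf [13,15,17,19,18])) (.free 2 [6,7,8,11,12,14,16])) (.free 1 [20,21,22]))), .t 1 (nat_lit 0) (.cn 2 3), .t 1 (nat_lit 0) (.cn 2 3), .t 10 (nat_lit 0x59e05ae05ab05a305a105c805c70a080a05) (.z (.edon 0 16 (.node 2 4 (.edon 11 13 (.leaf [11,14,15,12]) (.node 2 9 (.leaf [0,2,10,13]) (.leaf [5,7,8,9,6]))) (.leaf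 [1,3,4])) (.free 2 [16,17,18,19,20,21,22]))), .t 1 (nat_lit 0) (.cp 2 3), .t 7 (nat_lit 0x18300530006000207aa07a8) (.z (.edon 0 16 (.node 0 12 (.leaf [0,13,14,15]) (.node 3 7 (.edon 8 10 (.leaf [8,11,12,9]) (.leaf [1,3,6,10,2])) (.leaf [4,5,7]))) (.free 2 [16,17,18,19,20,21,22]))), .t 9 (nat_lit 0xb450b6e0b6c0b530b500be60be50d42) (.z (.node 0 7 (.edon 0 11 (.leaf [0,8,9,10]) (.node 12 16 (.node 18 19 (.leaf [18,20,22,21]) (.leaf [12,15,17,19,13])) (.leaf [11,14,16]))) (.free 2 [1,2,3,4,5,6,7]))), .t 6 (nat_lit 0x2f0bae0bad0c930c92) (.z (.node 1 11 (.node 0 10 (.edon 19 21 (.leaf [19,20,22]) (.node 15 17 (.leaf [0,13,15,18,21]) (.leaf [12,14,16,17]))) (.leaf [1,9,10,2])) (.free 2 [3,4,5,6,7,8,11]))), .t 1 (nat_lit 0) (.fa 4), .t 12 (nat_lit 0xd410d0d0d060d0509e8097b09760960095d09560955) (.z (.node 0 3 (.edon 0 10 (.free 2 [0,4,5,6,7,8,9])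 (.edon 13 16 (.leaf [10,11,12,15,13]) (.node 17 19 (.leaf [14,17,20,22,21]) (.leaf [16,18,19])))) (.free 1 [1,2,3]))), .t 10 (nat_lit 0xcfb0cf70cf5078b07860b410b3f0d070d00) (.z (.node 0 7 (.node 0 11 (.node 0 20 (.leaf [0,21,22]) (.node 14 16 (.leaf [14,18,19,20,17]) (.leaf [12,16,15,13]))) (.leaf [8,9,11,10])) (.free 2 [1,2,3,4,5,6,7]))), .t 7 (nat_lit 0xd410d0d0d060d0509e809e3) (.z (.node 0 7 (.edon 0 11 (.leaf [0,8,9,10]) (.edon 15 16 (.leaf [11,12,15,13]) (.node 17 19 (.leaf [14,17,20,22,21]) (.leaf [16,18,19])))) (.free 2 [1,2,3,4,5,6,7]))), .t 1 (nat_lit 0) (.fa 4), .t 7 (nat_lit 0xd410d0d0d060d0509e709e4) (.z (.node 0 7 (.edon 0 11 (.leaf [0,8,9,10]) (.edon 15 16 (.leaf [11,13,15,12]) (.node 17 19 (.leaf [14,17,20,22,21]) (.leaf [16,18,19])))) (.free 2 [1,2,3,4,5,6,7]))), .t 15 (nat_lit 0x351034e034a0cfb0cf70cf503fa03f7039403920b410b3c0d070d00)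 (.z (.node 0 3 (.node 0 11 (.node 0 20 (.leaf [0,21,22]) (.node 14 16 (.leaf [14,18,19,20,17]) (.leaf [12,13,16,15]))) (.edon 7 9 (.leaf [7,8,11]) (.leaf [4,5,9,10,6]))) (.free 1 [1,2,3]))), .t 1 (nat_lit 0) (.cn 3 2), .t 17 (nat_lit 0xd110cf10cee0ccb0cc60cc10cc0094e094d065805c905c605af05aa05a305a2) (.z (.edon 1 21 (.edon 0 5 (.leaf [1,3,4]) (.edon 0 10 (.leaf [5,6,7,9,8]) (.edon 0 19 (.edon 0 14 (.leaf [10,11,12,13]) (.leaf [14,15,16,18,17])) (.leaf [19,20,22])))) (.free 1 [0,2,21]))), .t 17 (nat_lit 0x5a105a0059e0d110cf10cee0ccb0cc60cc10cc0094e094d05c905c605af05ad) (.z (.edon 1 21 (.edon 0 5 (.leaf [1,3,4]) (.edon 0 10 (.leaf [5,7,9,8,6]) (.edon 0 19 (.edon 0 14 (.leaf [10,11,12,13]) (.leaf [14,15,16,18,17])) (.leaf [19,20,22])))) (.free 1 [0,2,21]))), .t 4 (nat_lit 0x2081e081d) (.z (.edon 16 4 (.node 0 6 (.edon 0 16 (.leaf [0,8,10,13,15])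 (.free 2 [16,17,18,19,20,21,22])) (.leaf [1,3,6,2])) (.free 2 [4,5,7,9,11,12,14]))), .t 4 (nat_lit 0x1081e081d) (.z (.edon 16 4 (.node 0 5 (.edon 0 16 (.leaf [0,8,10,13,15]) (.free 2 [16,17,18,19,20,21,22])) (.leaf [1,3,5,2])) (.free 2 [4,6,7,9,11,12,14]))), .t 9 (nat_lit 0xd1f0d1a0d19002f0b110b0c0d2b0d24) (.z (.node 1 11 (.node 0 10 (.node 0 20 (.leaf [0,21,22]) (.node 15 16 (.leaf [15,18,19,20,17]) (.leaf [12,13,16,14]))) (.leaf [1,9,10,2])) (.free 2 [3,4,5,6,7,8,11]))), .t 8 (nat_lit 0x5cc06d306d105e305e105c805c7) (.z (.node 2 4 (.edon 10 11 (.leaf [5,7,8,9,10]) (.free 4 [0,2,6,11,12,13,14,15,16,17,18,19,20,21,22])) (.free 1 [1,3,4]))), .t 15 (nat_lit 0x351034e034a0d1f0d1a0d1903fa03f7039403920b100b0d0d2b0d24) (.z (.node 0 3 (.node 0 11 (.node 0 20 (.leaf [0,21,22]) (.node 15 16 (.leaf [15,18,19,20,17]) (.leaf [12,14,16,13]))) (.edon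 7 9 (.leaf [7,8,11]) (.leaf [4,5,9,10,6]))) (.free 1 [1,2,3]))), .t 15 (nat_lit 0x34b03940391035403520d1f0d1a0d1903fa03f80b100b0d0d2b0d24) (.z (.node 0 3 (.node 0 11 (.node 0 20 (.leaf [0,21,22]) (.node 15 16 (.leaf [15,18,19,20,17]) (.leaf [12,14,16,13]))) (.edon 7 9 (.leaf [7,8,11]) (.leaf [4,6,9,10,5]))) (.free 1 [1,2,3]))), .t 15 (nat_lit 0x34b03940391035403520d1e0d1b0d1803fa03f80b100b0d0d2b0d24) (.z (.node 0 3 (.node 0 11 (.node 0 20 (.leaf [0,21,22]) (.node 15 16 (.leaf [15,17,19,20,18]) (.leaf [12,14,16,13]))) (.edon 7 9 (.leaf [7,8,11]) (.leaf [4,6,9,10,5]))) (.free 1 [1,2,3]))), .t 15 (nat_lit 0x351034e034a0d1e0d1b0d1803fa03f7039403920b100b0d0d2b0d24) (.z (.node 0 3 (.node 0 11 (.node 0 20 (.leaf [0,21,22]) (.node 15 16 (.leaf [15,17,19,20,18]) (.leaf [12,14,16,13]))) (.edon 7 9 (.leaf [7,8,11]) (.leaf [4,5,9,10,6]))) (.free 1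 [1,2,3]))), .t 17 (nat_lit 0x59e0cbf0cbe0cbc05ae05ab05a305a10cf10cee0ccb0cc9094e094d05c805c7) (.z (.edon 1 21 (.edon 0 5 (.leaf [1,3,4]) (.edon 0 10 (.leaf [5,7,8,9,6]) (.edon 0 19 (.edon 0 14 (.leaf [10,11,12,13]) (.leaf [14,16,18,17,15])) (.leaf [19,20,22])))) (.free 1 [0,2,21]))), .t 6 (nat_lit 0x1e701e600da00d90023) (.z (.edon 0 16 (.node 0 12 (.leaf [0,13,14,15]) (.edon 3 9 (.free 2 [3,4,5,7,8,11,12]) (.leaf [1,6,9,10,2]))) (.free 2 [16,17,18,19,20,21,22]))), .t 7 (nat_lit 0xd410cbb0cb40cb20a080a05) (.z (.node 0 7 (.edon 0 11 (.leaf [0,8,9,10]) (.edon 15 16 (.leaf [11,14,15,12]) (.node 17 19 (.leaf [13,17,20,22,21]) (.leaf [16,18,19])))) (.free 2 [1,2,3,4,5,6,7]))), .t 15 (nat_lit 0x34b03940391035403520cac0ca90ca703fa03f80b950b900cb50cb0) (.z (.node 0 3 (.node 0 11 (.node 0 20 (.leaf [0,21,22]) (.node 13 16 (.leaf [13,18,19,20,17])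 (.leaf [12,14,16,15]))) (.edon 7 9 (.leaf [7,8,11]) (.leaf [4,6,9,10,5]))) (.free 1 [1,2,3])))] (by decide +kernel) (by decide +kernel)
theorem b130 : B 4160 4192 := Blk.of_chk [.t 12 (nat_lit 0x3520348034603e403e1037803770bb10bb00c850c84) (.z (.node 0 3 (.node 0 11 (.edon 19 21 (.leaf [19,20,22]) (.node 15 18 (.leaf [0,13,15,17,21]) (.leaf [12,14,16,18]))) (.edon 7 10 (.leaf [7,9,11]) (.leaf [4,6,10,8,5]))) (.free 1 [1,2,3]))), .t 9 (nat_lit 0xb4a0b7c0b790b530b500d410bef0bee) (.z (.node 0 7 (.edon 0 11 (.leaf [0,8,9,10]) (.node 12 16 (.edon 13 20 (.leaf [12,15,18,19,13]) (.leaf [17,20,22,21])) (.leaf [11,14,16]))) (.free 2 [1,2,3,4,5,6,7]))), .t 12 (nat_lit 0x345037803750355035103e403e30bb10bb00c850c84) (.z (.node 0 3 (.node 0 11 (.edon 19 21 (.leaf [19,20,22]) (.node 15 18 (.leaf [0,13,15,17,21]) (.leaf [12,14,16,18]))) (.edon 7 10 (.leaf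 [7,9,11]) (.leaf [4,5,10,8,6]))) (.free 1 [1,2,3]))), .t 13 (nat_lit 0xd1f0d1a0d1901b40d2b0d2405ff05fe0213021201ac01ab) (.z (.edon 2 22 (.node 4 16 (.edon 0 15 (.node 2 4 (.leaf [2,5,8,10,13]) (.leaf [1,3,4])) (.leaf [15,18,19,20,17])) (.free 2 [6,7,9,11,12,14,16])) (.free 1 [0,21,22]))), .t 13 (nat_lit 0xd1e0d1b0d1801b40d2b0d2405ff05fe0213021201ac01ab) (.z (.edon 2 22 (.node 4 16 (.edon 0 15 (.node 2 4 (.leaf [2,5,8,10,13]) (.leaf [1,3,4])) (.leaf [15,17,19,20,18])) (.free 2 [6,7,9,11,12,14,16])) (.free 1 [0,21,22]))), .t 8 (nat_lit 0x89108a2089f0896089408d208d1) (.z (.node 0 7 (.edon 0 16 (.node 8 13 (.leaf [0,8,14,15]) (.leaf [9,11,12,13,10])) (.free 2 [16,17,18,19,20,21,22])) (.free 2 [1,2,3,4,5,6,7]))), .t 6 (nat_lit 0xcd00ccd0d4201b401b3) (.z (.node 4 16 (.edon 0 14 (.node 2 4 (.leaf [0,2,5,8,13]) (.leaf [1,3,4])) (.node 18 19 (.leaf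 [18,20,22,21]) (.leaf [14,17,19,15]))) (.free 2 [6,7,9,10,11,12,16]))), .t 15 (nat_lit 0x95209e009de09720970094e094d065805c905c605af05aa05a305a2) (.z (.edon 1 21 (.edon 0 5 (.leaf [1,3,4]) (.edon 0 10 (.leaf [5,6,7,9,8]) (.edon 0 15 (.leaf [10,11,12,13,14]) (.free 2 [15,16,17,18,19,20,22])))) (.free 1 [0,2,21]))), .t 10 (nat_lit 0x86b08770876087308700893089108840882) (.z (.node 0 7 (.node 0 16 (.free 2 [0,17,18,19,20,21,22]) (.node 8 12 (.leaf [8,13,16,15,14]) (.leaf [9,11,12,10]))) (.free 2 [1,2,3,4,5,6,7]))), .t 13 (nat_lit 0xd1e0d1b0d1801b60d2b0d24060f060e021f021e01b401b3) (.z (.edon 2 22 (.node 4 16 (.edon 0 15 (.node 2 4 (.leaf [2,5,8,13,14]) (.leaf [1,3,4])) (.leaf [15,17,19,20,18])) (.free 2 [6,7,9,10,11,12,16])) (.free 1 [0,21,22]))), .t 10 (nat_lit 0x78b07860cbe0bdd0bdb0bae0bac0b9d0b9b) (.z (.node 0 7 (.node 0 11 (.edon 14 19 (.leaf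 [12,16,17,15,14]) (.free 2 [0,13,18,19,20,21,22])) (.leaf [8,9,11,10])) (.free 2 [1,2,3,4,5,6,7]))), .t 10 (nat_lit 0xb11078b07860c100c0e0b950b930b090b07) (.z (.node 0 7 (.node 0 11 (.node 0 16 (.free 2 [0,17,18,19,20,21,22]) (.leaf [12,16,15,14,13])) (.leaf [8,9,11,10])) (.free 2 [1,2,3,4,5,6,7]))), .t 1 (nat_lit 0) (.cn 3 2), .t 7 (nat_lit 0x1ca01c90a090a0406580655) (.z (.edon 0 16 (.node 2 4 (.edon 8 11 (.leaf [6,7,9,8]) (.edon 11 13 (.leaf [11,12,15,14]) (.leaf [0,2,5,10,13]))) (.leaf [1,3,4])) (.free 2 [16,17,18,19,20,21,22]))), .t 13 (nat_lit 0xd1f0d1a0d1901b60d2b0d24060f060e021f021e01b401b3) (.z (.edon 2 22 (.node 4 16 (.edon 0 15 (.node 2 4 (.leaf [2,5,8,13,14]) (.leaf [1,3,4])) (.leaf [15,18,19,20,17])) (.free 2 [6,7,9,10,11,12,16])) (.free 1 [0,21,22]))), .t 6 (nat_lit 0xcdd0cdb0d4101b401b3) (.z (.node 4 16 (.edon 0 14 (.node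 2 4 (.leaf [0,2,5,8,13]) (.leaf [1,3,4])) (.node 17 19 (.leaf [17,20,22,21]) (.leaf [14,18,19,15]))) (.free 2 [6,7,9,10,11,12,16]))), .t 15 (nat_lit 0x352034803460b1103e403e1037803770c100c0e0b950b930b090b07) (.z (.node 0 3 (.node 0 11 (.node 0 16 (.free 2 [0,17,18,19,20,21,22]) (.leaf [12,16,15,14,13])) (.edon 7 10 (.leaf [7,9,11]) (.leaf [4,6,10,8,5]))) (.free 1 [1,2,3]))), .t 9 (nat_lit 0xb11002f0c100c0e0b950b930b090b07) (.z (.node 1 11 (.node 0 10 (.node 0 16 (.free 2 [0,17,18,19,20,21,22]) (.leaf [12,16,15,14,13])) (.leaf [1,9,10,2])) (.free 2 [3,4,5,6,7,8,11]))), .t 15 (nat_lit 0x59e05ae05ab05a305a109e10973096e095c09590952095105c805c7) (.z (.edon 1 21 (.edon 0 5 (.leaf [1,3,4]) (.edon 0 10 (.leaf [5,7,8,9,6]) (.edon 0 15 (.leaf [10,11,12,14,13]) (.free 2 [15,16,17,18,19,20,22])))) (.free 1 [0,2,21]))), .t 7 (nat_lit 0xc100c0e0184005800060005)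 (.z (.node 16 0 (.edon 0 13 (.edon 4 9 (.free 2 [4,5,6,7,8,11,12]) (.leaf [1,3,9,10,2])) (.leaf [13,16,15,14])) (.free 2 [0,17,18,19,20,21,22]))), .t 13 (nat_lit 0xd1f0d1a0d1901e40d2b0d2406970696021f021e01e301e2) (.z (.edon 2 22 (.node 4 16 (.edon 0 15 (.node 2 4 (.leaf [2,6,8,13,14]) (.leaf [1,3,4])) (.leaf [15,18,19,20,17])) (.free 2 [5,7,9,10,11,12,16])) (.free 1 [0,21,22]))), .t 13 (nat_lit 0xd1e0d1b0d1801e40d2b0d2406970696021f021e01e301e2) (.z (.edon 2 22 (.node 4 16 (.edon 0 15 (.node 2 4 (.leaf [2,6,8,13,14]) (.leaf [1,3,4])) (.leaf [15,17,19,20,18])) (.free 2 [5,7,9,10,11,12,16])) (.free 1 [0,21,22]))), .t 15 (nat_lit 0x95205a105a0059e09e009de09720970094e094d05c905c605af05ad) (.z (.edon 1 21 (.edon 0 5 (.leaf [1,3,4]) (.edon 0 10 (.leaf [5,7,9,8,6]) (.edon 0 15 (.leaf [10,11,12,13,14]) (.free 2 [15,16,17,18,19,20,22])))) (.free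 1 [0,2,21]))), .t 1 (nat_lit 0) (.cp 1 3), .t 6 (nat_lit 0xcd00ccd0d4201e301e2) (.z (.node 4 16 (.edon 0 14 (.node 2 4 (.leaf [0,2,6,8,13]) (.leaf [1,3,4])) (.node 18 19 (.leaf [18,20,22,21]) (.leaf [14,17,19,15]))) (.free 2 [5,7,9,10,11,12,16]))), .t 5 (nat_lit 0x1f501f40a090a04) (.z (.edon 0 16 (.edon 1 11 (.free 2 [1,3,4,5,7,8,9]) (.edon 11 13 (.leaf [11,12,15,14]) (.leaf [0,2,6,10,13]))) (.free 2 [16,17,18,19,20,21,22]))), .t 6 (nat_lit 0xcdd0cdb0d4101e301e2) (.z (.node 4 16 (.edon 0 14 (.node 2 4 (.leaf [0,2,6,8,13]) (.leaf [1,3,4])) (.node 17 19 (.leaf [17,20,22,21]) (.leaf [14,18,19,15]))) (.free 2 [5,7,9,10,11,12,16]))), .t 15 (nat_lit 0x34503780375035503510b1103e403e30c100c0e0b950b930b090b07) (.z (.node 0 3 (.node 0 11 (.node 0 16 (.free 2 [0,17,18,19,20,21,22]) (.leaf [12,16,15,14,13])) (.edon 7 10 (.leaf [7,9,11]) (.leaf [4,5,10,8,6])))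 (.free 1 [1,2,3]))), .t 13 (nat_lit 0xd1f0d1a0d1901e30d2b0d240690068f0213021201da01d9) (.z (.edon 2 22 (.node 4 16 (.edon 0 15 (.node 2 4 (.leaf [2,6,8,10,13]) (.leaf [1,3,4])) (.leaf [15,18,19,20,17])) (.free 2 [5,7,9,11,12,14,16])) (.free 1 [0,21,22]))), .t 4 (nat_lit 0x20990098e) (.z (.edon 16 4 (.node 0 6 (.edon 0 16 (.leaf [0,10,12,14,15]) (.free 2 [16,17,18,19,20,21,22])) (.leaf [1,3,6,2])) (.free 2 [4,5,7,8,9,11,13]))), .t 5 (nat_lit 0x184005800060005) (.z (.edon 16 4 (.node 0 10 (.edon 0 16 (.leaf [0,12,14,15]) (.free 2 [16,17,18,19,20,21,22])) (.leaf [1,3,9,10,2])) (.free 2 [4,5,6,7,8,11,13]))), .t 4 (nat_lit 0x10990098e) (.z (.edon 16 4 (.node 0 5 (.edon 0 16 (.leaf [0,10,12,14,15]) (.free 2 [16,17,18,19,20,21,22])) (.leaf [1,3,5,2])) (.free 2 [4,6,7,8,9,11,13])))] (by decide +kernel) (by decide +kernel)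
theorem b131 : B 4192 4224 := Blk.of_chk [.t 7 (nat_lit 0xd420d0d0d0b0d0a09e709e4) (.z (.node 0 7 (.edon 0 11 (.leaf [0,8,9,10]) (.edon 12 16 (.leaf [11,13,15,12]) (.node 18 19 (.leaf [14,18,20,22,21]) (.leaf [16,17,19])))) (.free 2 [1,2,3,4,5,6,7]))), .t 15 (nat_lit 0x94c095c09590953095005a3097309710657065605c805c705a0059f) (.z (.edon 1 21 (.edon 0 5 (.leaf [1,3,4]) (.edon 0 10 (.leaf [5,6,7,8,9]) (.edon 0 15 (.leaf [10,11,14,13,12]) (.free 2 [15,16,17,18,19,20,22])))) (.free 1 [0,2,21]))), .t 4 (nat_lit 0x1097a0978) (.z (.edon 16 4 (.node 0 5 (.edon 0 16 (.leaf [0,10,12,13,15]) (.free 2 [16,17,18,19,20,21,22])) (.leaf [1,3,5,2])) (.free 2 [4,6,7,8,9,11,14]))), .t 9 (nat_lit 0xb0d0b080b05002f0b950b900b410b3f) (.z (.node 1 11 (.node 0 10 (.node 0 16 (.free 2 [0,17,18,19,20,21,22]) (.leaf [12,14,16,15,13])) (.leaf [1,9,10,2])) (.free 2 [3,4,5,6,7,8,11]))),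 .t 4 (nat_lit 0x2f0b080b06) (.z (.edon 0 16 (.node 0 11 (.leaf [0,12,13,14,15]) (.node 1 11 (.leaf [1,9,10,2]) (.free 2 [3,4,5,6,7,8,11]))) (.free 2 [16,17,18,19,20,21,22]))), .t 4 (nat_lit 0x2097a0978) (.z (.edon 16 4 (.node 0 6 (.edon 0 16 (.leaf [0,10,12,13,15]) (.free 2 [16,17,18,19,20,21,22])) (.leaf [1,3,6,2])) (.free 2 [4,5,7,8,9,11,14]))), .t 1 (nat_lit 0) (.cn 2 3), .t 1 (nat_lit 0) (.cn 2 3), .t 5 (nat_lit 0x184005800060005) (.z (.edon 16 4 (.node 0 10 (.edon 0 16 (.leaf [0,12,13,15]) (.free 2 [16,17,18,19,20,21,22])) (.leaf [1,3,9,10,2])) (.free 2 [4,5,6,7,8,11,14]))), .t 5 (nat_lit 0x97a097807b107af) (.z (.node 0 7 (.edon 0 16 (.edon 9 13 (.leaf [8,11,14,9]) (.leaf [0,10,12,13,15])) (.free 2 [16,17,18,19,20,21,22])) (.free 2 [1,2,3,4,5,6,7]))), .t 15 (nat_lit 0x5a1082d05b905b705a605a4083808350832083105d005cf084a0848) (.z (.edon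 1 21 (.edon 0 15 (.edon 8 9 (.leaf [8,11,14,13,12]) (.edon 0 5 (.leaf [1,3,4]) (.leaf [5,7,9,10,6]))) (.free 2 [15,16,17,18,19,20,22])) (.free 1 [0,2,21]))), .t 15 (nat_lit 0x5a105b905b705a605a408310830082d05d005cf0849084608370836) (.z (.edon 1 21 (.edon 0 15 (.edon 8 9 (.leaf [8,11,13,14,12]) (.edon 0 5 (.leaf [1,3,4]) (.leaf [5,7,9,10,6]))) (.free 2 [15,16,17,18,19,20,22])) (.free 1 [0,2,21]))), .t 5 (nat_lit 0x990098e07ae07ac) (.z (.node 0 7 (.edon 0 16 (.edon 9 14 (.leaf [8,11,13,9]) (.leaf [0,10,12,14,15])) (.free 2 [16,17,18,19,20,21,22])) (.free 2 [1,2,3,4,5,6,7]))), .t 7 (nat_lit 0xc100c0e0183005300060002) (.z (.node 16 0 (.edon 0 13 (.edon 4 6 (.free 2 [4,5,7,8,9,11,12]) (.leaf [1,3,6,10,2])) (.leaf [13,16,15,14])) (.free 2 [0,17,18,19,20,21,22]))), .t 6 (nat_lit 0x60c720c700bc30bc2) (.z (.edon 21 19 (.node 0 11 (.node 14 18 (.leaf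 [0,12,14,17,21]) (.leaf [13,16,18,15])) (.edon 4 10 (.free 2 [4,5,6,7,8,9,11]) (.leaf [1,3,10,2]))) (.free 1 [19,20,22]))), .t 10 (nat_lit 0x8c408ce08cd08c808c70830082d092d092c) (.z (.node 0 7 (.node 0 16 (.free 2 [0,17,18,19,20,21,22]) (.node 9 13 (.leaf [9,14,15,16,10]) (.leaf [8,11,13,12]))) (.free 2 [1,2,3,4,5,6,7]))), .t 15 (nat_lit 0x5a608310830082d065f065e05d005cf05a305a20849084608370836) (.z (.edon 1 21 (.edon 0 15 (.edon 8 9 (.leaf [8,11,13,14,12]) (.edon 0 5 (.leaf [1,3,4]) (.leaf [5,6,7,9,10]))) (.free 2 [15,16,17,18,19,20,22])) (.free 1 [0,2,21]))), .t 15 (nat_lit 0x82d05a60838083508320831065f065e05d005cf05a305a2084a0848) (.z (.edon 1 21 (.edon 0 15 (.edon 8 9 (.leaf [8,11,14,13,12]) (.edon 0 5 (.leaf [1,3,4]) (.leaf [5,6,7,9,10]))) (.free 2 [15,16,17,18,19,20,22])) (.free 1 [0,2,21]))), .t 5 (nat_lit 0x7ae07ac0990098e) (.z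 (.node 0 7 (.edon 0 16 (.node 10 13 (.leaf [0,10,12,14,15]) (.leaf [8,11,13,9])) (.free 2 [16,17,18,19,20,21,22])) (.free 2 [1,2,3,4,5,6,7]))), .t 5 (nat_lit 0x830082d08c608c5) (.z (.node 0 7 (.edon 0 16 (.node 10 12 (.leaf [0,9,10,14,15]) (.leaf [8,11,13,12])) (.free 2 [16,17,18,19,20,21,22])) (.free 2 [1,2,3,4,5,6,7]))), .t 8 (nat_lit 0x227022601270125002f0c100c0e) (.z (.node 1 11 (.node 0 12 (.node 0 16 (.free 2 [0,17,18,19,20,21,22]) (.leaf [13,16,15,14])) (.leaf [1,9,10,12,2])) (.free 2 [3,4,5,6,7,8,11]))), .t 8 (nat_lit 0x7f60819081607fb07f908370836) (.z (.node 0 7 (.edon 0 16 (.edon 8 12 (.leaf [8,11,13,14,10]) (.leaf [0,9,12,15])) (.free 2 [16,17,18,19,20,21,22])) (.free 2 [1,2,3,4,5,6,7]))), .t 5 (nat_lit 0x901090007f807f6) (.z (.node 0 7 (.edon 0 16 (.edon 10 14 (.leaf [8,11,13,10]) (.leaf [0,9,12,14,15])) (.free 2 [16,17,18,19,20,21,22]))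 (.free 2 [1,2,3,4,5,6,7]))), .t 8 (nat_lit 0xcc10c720c700c3f0c3d0c200c1e) (.z (.edon 21 19 (.node 11 15 (.free 4 [0,1,2,3,4,5,6,7,8,9,10,11,12,17,21]) (.leaf [13,16,18,15,14])) (.free 1 [19,20,22]))), .t 17 (nat_lit 0xcbe0c700c6f0c6d0c3d0c3b0c390c200ccb0cc90ca20c9f0c7a0c790c180c16) (.z (.edon 19 21 (.free 1 [19,20,22]) (.node 15 11 (.leaf [13,16,18,17,15,14]) (.free 4 [0,1,2,3,4,5,6,7,8,9,10,11,12,21])))), .t 5 (nat_lit 0x182005200050002) (.z (.edon 16 4 (.node 0 9 (.edon 15 21 (.free 2 [15,16,17,18,19,20,22]) (.leaf [0,10,12,21])) (.leaf [1,3,6,9,2])) (.free 2 [4,5,7,8,11,13,14]))), .t 7 (nat_lit 0x9a1099f0182005200050002) (.z (.node 16 0 (.edon 4 16 (.free 2 [4,5,7,8,11,13,14]) (.edon 0 10 (.leaf [1,3,6,9,2]) (.leaf [10,16,15,12]))) (.free 2 [0,17,18,19,20,21,22]))), .t 12 (nat_lit 0x7f60819081607fb07f9018200520005000208370836) (.z (.node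 3 7 (.node 0 16 (.free 2 [0,17,18,19,20,21,22]) (.edon 8 9 (.node 12 14 (.leaf [12,15,16]) (.leaf [8,11,13,14,10])) (.leaf [1,3,6,9,2]))) (.free 1 [4,5,7]))), .t 13 (nat_lit 0x7f60819081607fb07f90837083602e702e600e300e20052) (.z (.edon 1 21 (.edon 0 15 (.node 7 10 (.node 3 7 (.leaf [1,3,6,9,12]) (.leaf [4,5,7])) (.leaf [8,11,13,14,10])) (.free 2 [15,16,17,18,19,20,22])) (.free 1 [0,2,21]))), .t 8 (nat_lit 0x89607f807f607ae07ac079b0799) (.z (.node 0 7 (.edon 0 16 (.node 12 13 (.leaf [0,12,14,15]) (.leaf [8,11,13,10,9])) (.free 2 [16,17,18,19,20,21,22])) (.free 2 [1,2,3,4,5,6,7]))), .t 7 (nat_lit 0x7f807f60182005200050002) (.z (.edon 0 16 (.node 7 10 (.node 0 9 (.leaf [0,12,14,15]) (.node 3 7 (.leaf [1,3,6,9,2]) (.leaf [4,5,7]))) (.leaf [8,11,13,10])) (.free 2 [16,17,18,19,20,21,22]))), .t 10 (nat_lit 0x6d706d406cf0713071006ea06e80a4a0a45)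 (.z (.edon 0 16 (.edon 0 7 (.free 2 [0,1,2,3,4,5,6]) (.edon 11 12 (.leaf [11,13,15,14]) (.leaf [7,8,10,12,9]))) (.free 2 [16,17,18,19,20,21,22])))] (by decide +kernel) (by decide +kernel)
theorem b132 : B 4224 4256 := Blk.of_chk [.t 13 (nat_lit 0x97e0972096f034d034c02a702a6026a09bb09b609970995) (.z (.edon 0 3 (.free 1 [0,1,2]) (.node 10 11 (.node 15 16 (.free 2 [15,17,18,19,20,21,22]) (.leaf [10,13,16,14,12])) (.edon 7 9 (.leaf [7,8,11]) (.leaf [3,4,5,6,9]))))), .t 5 (nat_lit 0x901090007f807f6) (.z (.node 0 7 (.edon 10 16 (.leaf [8,11,13,10]) (.edon 0 16 (.leaf [0,9,12,14,15]) (.free 2 [16,17,18,19,20,21,22]))) (.free 2 [1,2,3,4,5,6,7]))), .t 4 (nat_lit 0x109010900) (.z (.edon 16 4 (.node 0 5 (.edon 0 16 (.leaf [0,9,12,14,15]) (.free 2 [16,17,18,19,20,21,22])) (.leaf [1,3,5,2])) (.free 2 [4,6,7,8,10,11,13]))), .t 4 (nat_lit 0x209010900)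 (.z (.edon 16 4 (.node 0 6 (.edon 0 16 (.leaf [0,9,12,14,15]) (.free 2 [16,17,18,19,20,21,22])) (.leaf [1,3,6,2])) (.free 2 [4,5,7,8,10,11,13]))), .t 1 (nat_lit 0) (.cn 2 3), .t 5 (nat_lit 0x7c907c8095b095a) (.z (.node 0 7 (.edon 0 16 (.edon 10 12 (.leaf [10,11,13,14]) (.leaf [0,8,9,12,15])) (.free 2 [16,17,18,19,20,21,22])) (.free 2 [1,2,3,4,5,6,7]))), .t 8 (nat_lit 0x899095b095a08da08d908960895) (.z (.node 3 7 (.node 8 14 (.free 4 [0,1,2,3,6,8,12,15,16,17,18,19,20,21,22]) (.leaf [9,10,11,13,14])) (.free 1 [4,5,7]))), .t 8 (nat_lit 0x94f08d308d008a3089e08960895) (.z (.node 0 7 (.edon 0 16 (.node 8 12 (.leaf [0,8,14,15]) (.leaf [9,10,11,13,12])) (.free 2 [16,17,18,19,20,21,22])) (.free 2 [1,2,3,4,5,6,7]))), .t 8 (nat_lit 0x78a0312031003080306030002ff) (.z (.node 3 7 (.edon 8 13 (.leaf [3,10,11,9,8]) (.free 4 [0,1,2,6,12,13,14,15,16,17,18,19,20,21,22]))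 (.free 1 [4,5,7]))), .t 8 (nat_lit 0x94f08d308d008a3089e08960895) (.z (.node 0 7 (.edon 0 16 (.node 8 13 (.leaf [0,8,14,15]) (.leaf [9,10,11,13,12])) (.free 2 [16,17,18,19,20,21,22])) (.free 2 [1,2,3,4,5,6,7]))), .t 7 (nat_lit 0x78a07870bf50bf40c3b0c39) (.z (.node 0 7 (.node 0 11 (.edon 19 21 (.leaf [19,20,22]) (.edon 14 15 (.leaf [13,16,17,14]) (.leaf [0,12,15,18,21]))) (.leaf [8,10,11,9])) (.free 2 [1,2,3,4,5,6,7]))), .t 7 (nat_lit 0x78a07870beb0bea0c3f0c3d) (.z (.node 0 7 (.node 0 11 (.edon 19 21 (.leaf [19,20,22]) (.edon 14 15 (.leaf [13,16,18,14]) (.leaf [0,12,15,17,21]))) (.leaf [8,10,11,9])) (.free 2 [1,2,3,4,5,6,7]))), .t 7 (nat_lit 0x35c035b0a4a0a4506d406cf) (.z (.node 0 3 (.edon 0 16 (.edon 7 12 (.edon 0 11 (.leaf [7,8,10,9]) (.leaf [11,13,15,14])) (.leaf [0,4,5,6,12])) (.free 2 [16,17,18,19,20,21,22])) (.free 1 [1,2,3]))), .t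 7 (nat_lit 0x7fb07f90182005200050002) (.z (.edon 0 16 (.node 7 10 (.node 0 9 (.leaf [0,12,13,15]) (.node 3 7 (.leaf [1,3,6,9,2]) (.leaf [4,5,7]))) (.leaf [8,11,14,10])) (.free 2 [16,17,18,19,20,21,22]))), .t 9 (nat_lit 0xd1e0d1b0d180b100b0d0d2b0d240005) (.z (.edon 2 22 (.edon 0 12 (.edon 4 9 (.free 2 [4,5,6,7,8,10,11]) (.leaf [1,3,9,2])) (.node 15 16 (.leaf [15,17,19,20,18]) (.leaf [12,14,16,13]))) (.free 1 [0,21,22]))), .t 9 (nat_lit 0xd420c7e0c7c04b403170314028f028d) (.z (.edon 0 3 (.free 1 [0,1,2]) (.node 4 16 (.edon 0 13 (.leaf [3,4,10,12,9]) (.edon 15 20 (.leaf [13,17,19,15]) (.leaf [18,20,22,21]))) (.free 2 [5,6,7,8,11,14,16])))), .t 9 (nat_lit 0xd410c8b0c8904b403170314028f028d) (.z (.edon 0 3 (.free 1 [0,1,2]) (.node 4 16 (.edon 0 13 (.leaf [3,4,10,12,9]) (.edon 15 20 (.leaf [13,18,19,15]) (.leaf [17,20,22,21]))) (.free 2 [5,6,7,8,11,14,16])))),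 .t 5 (nat_lit 0x78b07890b080b06) (.z (.node 0 7 (.node 0 11 (.edon 0 16 (.leaf [0,12,13,14,15]) (.free 2 [16,17,18,19,20,21,22])) (.leaf [8,11,10,9])) (.free 2 [1,2,3,4,5,6,7]))), .t 7 (nat_lit 0x5d105ce01e001df0a490a46) (.z (.edon 0 16 (.edon 11 12 (.leaf [11,14,15,13]) (.node 4 9 (.node 2 4 (.leaf [0,2,6,8,12]) (.leaf [1,3,4])) (.leaf [5,7,10,9]))) (.free 2 [16,17,18,19,20,21,22]))), .t 7 (nat_lit 0x78a07870beb0bea0c3f0c3e) (.z (.node 0 7 (.node 0 11 (.edon 19 21 (.leaf [19,20,22]) (.edon 13 15 (.leaf [13,14,16,18]) (.leaf [0,12,15,17,21]))) (.leaf [8,10,11,9])) (.free 2 [1,2,3,4,5,6,7]))), .t 6 (nat_lit 0xd420c7e0c7c01e001df) (.z (.node 4 16 (.edon 0 13 (.node 2 4 (.leaf [0,2,6,8,12]) (.leaf [1,3,4])) (.edon 15 20 (.leaf [13,17,19,15]) (.leaf [18,20,22,21]))) (.free 2 [5,7,9,10,11,14,16]))), .t 6 (nat_lit 0x1bf01be00af00ae001e) (.z (.edon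 0 16 (.node 0 12 (.leaf [0,13,14,15]) (.node 1 11 (.leaf [1,5,9,12,2]) (.free 2 [3,4,6,7,8,10,11]))) (.free 2 [16,17,18,19,20,21,22]))), .t 4 (nat_lit 0x50b080b06) (.z (.edon 0 16 (.node 0 11 (.leaf [0,12,13,14,15]) (.edon 4 9 (.free 2 [4,5,6,7,8,10,11]) (.leaf [1,3,9,2]))) (.free 2 [16,17,18,19,20,21,22]))), .t 10 (nat_lit 0x34a039503900355035103fb03f90b080b06) (.z (.node 0 3 (.node 0 11 (.edon 0 16 (.leaf [0,12,13,14,15]) (.free 2 [16,17,18,19,20,21,22])) (.edon 7 10 (.leaf [7,8,11]) (.leaf [4,5,10,9,6]))) (.free 1 [1,2,3]))), .t 5 (nat_lit 0x182005200050002) (.z (.edon 16 4 (.node 0 9 (.edon 0 16 (.leaf [0,12,13,15]) (.free 2 [16,17,18,19,20,21,22])) (.leaf [1,3,6,9,2])) (.free 2 [4,5,7,8,10,11,14]))), .t 1 (nat_lit 0) (.cn 2 3), .t 8 (nat_lit 0x78707b107af07a1079e07fb07fa) (.z (.node 0 7 (.edon 0 16 (.node 12 14 (.leaf [0,12,13,15])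 (.leaf [8,10,11,14,9])) (.free 2 [16,17,18,19,20,21,22])) (.free 2 [1,2,3,4,5,6,7]))), .t 8 (nat_lit 0x94c095c09590953095009730971) (.z (.node 0 7 (.edon 0 16 (.node 9 13 (.leaf [0,8,9,15]) (.leaf [10,11,14,13,12])) (.free 2 [16,17,18,19,20,21,22])) (.free 2 [1,2,3,4,5,6,7]))), .t 13 (nat_lit 0xd1e0d1b0d1801e00d2b0d24067d067c0204020301d701d6) (.z (.edon 2 22 (.node 4 16 (.edon 0 15 (.node 2 4 (.leaf [2,6,8,9,12]) (.leaf [1,3,4])) (.leaf [15,17,19,20,18])) (.free 2 [5,7,10,11,13,14,16])) (.free 1 [0,21,22]))), .t 7 (nat_lit 0x78a07870b750b740cc10cbf) (.z (.node 0 7 (.node 0 11 (.edon 15 19 (.leaf [14,16,18,15]) (.edon 19 21 (.leaf [19,20,22]) (.leaf [0,12,13,17,21]))) (.leaf [8,10,11,9])) (.free 2 [1,2,3,4,5,6,7]))), .t 5 (nat_lit 0x94f094c07df07de) (.z (.node 0 7 (.edon 0 16 (.node 9 13 (.leaf [0,8,9,14,15]) (.leaf [10,11,13,12])) (.free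 2 [16,17,18,19,20,21,22])) (.free 2 [1,2,3,4,5,6,7]))), .t 4 (nat_lit 0x107df07de) (.z (.edon 16 4 (.node 0 5 (.edon 0 16 (.leaf [0,8,9,14,15]) (.free 2 [16,17,18,19,20,21,22])) (.leaf [1,3,5,2])) (.free 2 [4,6,7,10,11,12,13])))] (by decide +kernel) (by decide +kernel)
theorem b133 : B 4256 4288 := Blk.of_chk [.t 4 (nat_lit 0x207df07de) (.z (.edon 16 4 (.node 0 6 (.edon 0 16 (.leaf [0,8,9,14,15]) (.free 2 [16,17,18,19,20,21,22])) (.leaf [1,3,6,2])) (.free 2 [4,5,7,10,11,12,13]))), .t 4 (nat_lit 0x208c608c5) (.z (.edon 16 4 (.node 0 6 (.edon 0 16 (.leaf [0,9,10,14,15]) (.free 2 [16,17,18,19,20,21,22])) (.leaf [1,3,6,2])) (.free 2 [4,5,7,8,11,12,13]))), .t 10 (nat_lit 0x89307f507f307aa07a8079307910c100c0e) (.z (.node 0 7 (.node 0 12 (.node 0 16 (.free 2 [0,17,18,19,20,21,22]) (.leaf [13,16,15,14])) (.leaf [8,11,12,10,9])) (.free 2 [1,2,3,4,5,6,7]))),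 .t 13 (nat_lit 0xb0909b409af0991098c097a0978034e02a802a40275026c) (.z (.edon 0 3 (.free 1 [0,1,2]) (.node 5 11 (.edon 0 10 (.leaf [3,4,5,9,6]) (.edon 0 16 (.leaf [10,12,13,15,14]) (.free 2 [16,17,18,19,20,21,22]))) (.leaf [7,8,11])))), .t 4 (nat_lit 0x108c608c5) (.z (.edon 16 4 (.node 0 5 (.edon 0 16 (.leaf [0,9,10,14,15]) (.free 2 [16,17,18,19,20,21,22])) (.leaf [1,3,5,2])) (.free 2 [4,6,7,8,11,12,13]))), .t 10 (nat_lit 0xd410d0d0d060d050395039302bd02bb026c) (.z (.edon 0 3 (.free 1 [0,1,2]) (.node 4 16 (.edon 0 14 (.leaf [3,4,10,9,5]) (.edon 15 20 (.leaf [15,18,19]) (.leaf [14,17,20,22,21]))) (.free 2 [6,7,8,11,12,13,16])))), .t 8 (nat_lit 0xa4a086f086b0840083d083b083a) (.z (.node 0 7 (.edon 0 16 (.edon 8 12 (.leaf [8,11,13,15,14]) (.leaf [0,9,10,12])) (.free 2 [16,17,18,19,20,21,22])) (.free 2 [1,2,3,4,5,6,7]))), .t 5 (nat_lit 0x830082d08c608c5)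 (.z (.node 0 7 (.edon 0 16 (.node 10 13 (.leaf [0,9,10,14,15]) (.leaf [8,11,13,12])) (.free 2 [16,17,18,19,20,21,22])) (.free 2 [1,2,3,4,5,6,7]))), .t 8 (nat_lit 0x82d0838083508320831084a0848) (.z (.node 0 7 (.edon 0 16 (.node 10 13 (.leaf [0,9,10,15]) (.leaf [8,11,14,13,12])) (.free 2 [16,17,18,19,20,21,22])) (.free 2 [1,2,3,4,5,6,7]))), .t 8 (nat_lit 0x7f907f807f608380835081a0818) (.z (.node 0 7 (.edon 0 16 (.node 9 13 (.leaf [0,9,12,15]) (.leaf [8,11,14,13,10])) (.free 2 [16,17,18,19,20,21,22])) (.free 2 [1,2,3,4,5,6,7]))), .t 7 (nat_lit 0x78b07890c3f0c3e0beb0bea) (.z (.node 0 7 (.node 0 11 (.edon 19 21 (.leaf [19,20,22]) (.node 15 18 (.leaf [0,12,15,17,21]) (.leaf [13,14,16,18]))) (.leaf [8,11,10,9])) (.free 2 [1,2,3,4,5,6,7]))), .t 6 (nat_lit 0x50c3b0c3a0bf50bf4) (.z (.edon 21 19 (.node 0 11 (.node 15 17 (.leaf [0,12,15,18,21]) (.leaf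 [13,14,16,17])) (.edon 4 9 (.free 2 [4,5,6,7,8,10,11]) (.leaf [1,3,9,2]))) (.free 1 [19,20,22]))), .t 8 (nat_lit 0xc1b0c100c0b0c720c700c3f0c3e) (.z (.edon 21 19 (.node 11 15 (.free 4 [0,1,2,3,4,5,6,7,8,9,10,11,12,17,21]) (.leaf [13,14,16,18,15])) (.free 1 [19,20,22]))), .t 5 (nat_lit 0x838083508b008ae) (.z (.node 0 7 (.edon 0 16 (.node 9 13 (.leaf [0,9,10,12,15]) (.leaf [8,11,14,13])) (.free 2 [16,17,18,19,20,21,22])) (.free 2 [1,2,3,4,5,6,7]))), .t 9 (nat_lit 0x6d706d406cf0c6c0713071006ea06e8) (.z (.edon 0 7 (.free 2 [0,1,2,3,4,5,6]) (.edon 11 22 (.free 2 [11,15,16,17,18,19,20]) (.edon 0 13 (.leaf [7,8,10,12,9]) (.leaf [13,22,21,14]))))), .t 10 (nat_lit 0xd1f0d1a0d19078b07890b100b0d0d2b0d24) (.z (.node 0 7 (.node 0 11 (.node 0 20 (.leaf [0,21,22]) (.node 15 16 (.leaf [15,18,19,20,17]) (.leaf [12,14,16,13]))) (.leaf [8,11,10,9])) (.free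 2 [1,2,3,4,5,6,7]))), .t 10 (nat_lit 0xd1f0d1a0d19078b07890b110b0f0d2b0d24) (.z (.node 0 7 (.node 0 11 (.node 0 20 (.leaf [0,21,22]) (.node 15 16 (.leaf [15,18,19,20,17]) (.leaf [12,16,14,13]))) (.leaf [8,11,10,9])) (.free 2 [1,2,3,4,5,6,7]))), .t 10 (nat_lit 0xd1e0d1b0d18078b07890b100b0d0d2b0d24) (.z (.node 0 7 (.node 0 11 (.node 0 20 (.leaf [0,21,22]) (.node 15 16 (.leaf [15,17,19,20,18]) (.leaf [12,14,16,13]))) (.leaf [8,11,10,9])) (.free 2 [1,2,3,4,5,6,7]))), .t 16 (nat_lit 0xcdd0c8b0c890c5d0c5a0c280c260d4106d40673066e0660065d065b065a) (.z (.node 0 2 (.edon 0 6 (.leaf [0,3,4,5]) (.edon 0 11 (.leaf [6,7,8,10,9]) (.node 13 16 (.node 17 19 (.leaf [17,20,22,21]) (.leaf [13,18,19,15,14])) (.leaf [11,12,16])))) (.free 1 [1,2]))), .t 15 (nat_lit 0xb090a4a0a450a090a0409e709e506d40673066e0660065d065b065a) (.z (.node 0 2 (.edon 0 6 (.leaf [0,3,4,5])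 (.edon 0 11 (.leaf [6,7,8,10,9]) (.edon 0 16 (.leaf [11,12,13,15,14]) (.free 2 [16,17,18,19,20,21,22])))) (.free 1 [1,2]))), .t 16 (nat_lit 0xd420cd00c7e0c7c0c500c4d0c280c2606d40673066e0660065d065b065a) (.z (.node 0 2 (.edon 0 6 (.leaf [0,3,4,5]) (.edon 0 11 (.leaf [6,7,8,10,9]) (.node 13 16 (.edon 15 20 (.leaf [13,17,19,15,14]) (.leaf [18,20,22,21])) (.leaf [11,12,16])))) (.free 1 [1,2]))), .t 15 (nat_lit 0x34a03950390035503510b0c0b090b0403fb03f90b940b910b400b3e) (.z (.node 0 3 (.node 0 11 (.node 0 16 (.free 2 [0,17,18,19,20,21,22]) (.leaf [12,13,15,16,14])) (.edon 7 10 (.leaf [7,8,11]) (.leaf [4,5,10,9,6]))) (.free 1 [1,2,3]))), .t 4 (nat_lit 0x207d807d7) (.z (.edon 16 4 (.node 0 6 (.edon 0 16 (.leaf [0,8,9,13,15]) (.free 2 [16,17,18,19,20,21,22])) (.leaf [1,3,6,2])) (.free 2 [4,5,7,10,11,12,14]))), .t 4 (nat_lit 0x208f308f2) (.z (.edon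 16 4 (.node 0 6 (.edon 0 16 (.leaf [0,9,12,13,15]) (.free 2 [16,17,18,19,20,21,22])) (.leaf [1,3,6,2])) (.free 2 [4,5,7,8,10,11,14]))), .t 4 (nat_lit 0x108f308f2) (.z (.edon 16 4 (.node 0 5 (.edon 0 16 (.leaf [0,9,12,13,15]) (.free 2 [16,17,18,19,20,21,22])) (.leaf [1,3,5,2])) (.free 2 [4,6,7,8,10,11,14]))), .t 1 (nat_lit 0) (.cn 2 3), .t 6 (nat_lit 0x2270127012400350031) (.z (.edon 0 16 (.node 0 12 (.leaf [0,13,14,15]) (.node 1 11 (.leaf [1,10,12,9,2]) (.free 2 [3,4,5,6,7,8,11]))) (.free 2 [16,17,18,19,20,21,22]))), .t 1 (nat_lit 0) (.cn 2 3), .t 5 (nat_lit 0x182005200050002) (.z (.edon 0 16 (.node 0 12 (.leaf [0,13,14,15]) (.edon 4 6 (.free 2 [4,5,7,8,10,11,12]) (.leaf [1,3,6,9,2]))) (.free 2 [16,17,18,19,20,21,22]))), .t 4 (nat_lit 0x209170915) (.z (.edon 16 4 (.node 0 6 (.edon 0 16 (.leaf [0,9,13,14,15]) (.free 2 [16,17,18,19,20,21,22]))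 (.leaf [1,3,6,2])) (.free 2 [4,5,7,8,10,11,12]))), .t 4 (nat_lit 0x208bf08be) (.z (.edon 16 4 (.node 0 6 (.edon 0 16 (.leaf [0,9,10,13,15]) (.free 2 [16,17,18,19,20,21,22])) (.leaf [1,3,6,2])) (.free 2 [4,5,7,8,11,12,14]))), .t 4 (nat_lit 0x108ee08ec) (.z (.edon 16 4 (.node 0 5 (.edon 0 16 (.leaf [0,9,12,13,14]) (.free 2 [16,17,18,19,20,21,22])) (.leaf [1,3,5,2])) (.free 2 [4,6,7,8,10,11,15])))] (by decide +kernel) (by decide +kernel)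

end Pool.Agent.GCP.F8_11
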