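import Pool.Agent.GCP.F8_12Db

set_option autoImplicit false
set_option maxRecDepth 100000

/-! # Blocks F8_12B1 (generated) -/

namespace Pool.Agent.GCP.F8_12

open Pool.Agent.GCP DB

theorem b79 : B 2528 2560 := Blk.of_chk [.t 1 (nat_lit 0) (.ax 14 17 20 22 4), .t 1 (nat_lit 0) (.ax 14 17 21 22 5), .t 1 (nat_lit 0) (.ax 14 18 19 20 4), .t 1 (nat_lit 0) (.ax 14 18 19 21 4), .t 1 (nat_lit 0) (.ax 14 18 20 22 4), .t 1 (nat_lit 0) (.ax 14 18 21 22 5), .t 1 (nat_lit 0) (.ax 14 19 20 21 0), .t 1 (nat_lit 0) (.ax 14 20 21 22 5), .t 1 (nat_lit 0) (.ax 15 16 17 18 0), .t 1 (nat_lit 0) (.ax 15 16 17 18 2), .t 1 (nat_lit 0) (.ax 15 16 17 18 4), .t 1 (nat_lit 0) (.ax 15 16 17 18 5), .t 1 (nat_lit 0) (.ax 15 16 19 21 0), .t 1 (nat_lit 0) (.ax 15 17 18 19 1), .t 1 (nat_lit 0) (.ax 15 17 18 19 4), .t 1 (nat_lit 0) (.ax 15 17 18 20 1), .t 1 (nat_lit 0) (.ax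 15 17 19 20 4), .t 1 (nat_lit 0) (.ax 15 17 20 21 4), .t 1 (nat_lit 0) (.ax 15 17 20 22 4), .t 1 (nat_lit 0) (.ax 15 17 21 22 5), .t 1 (nat_lit 0) (.ax 15 18 19 20 4), .t 1 (nat_lit 0) (.ax 15 18 19 21 4), .t 1 (nat_lit 0) (.ax 15 18 20 22 4), .t 1 (nat_lit 0) (.ax 15 18 21 22 5), .t 1 (nat_lit 0) (.ax 15 19 20 21 0), .t 1 (nat_lit 0) (.ax 15 20 21 22 5), .t 1 (nat_lit 0) (.ax 16 17 18 19 2), .t 1 (nat_lit 0) (.ax 16 17 19 21 3), .t 1 (nat_lit 0) (.ax 16 18 19 21 3), .t 1 (nat_lit 0) (.ax 17 18 19 20 4), .t 1 (nat_lit 0) (.ax 17 18 19 21 4), .t 1 (nat_lit 0) (.ax 17 18 19 22 4)] (by decide +kernel) (by decide +kernel)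
theorem b80 : B 2560 2592 := Blk.of_chk [.t 1 (nat_lit 0) (.ax 17 20 21 22 5), .t 1 (nat_lit 0) (.ax 18 20 21 22 5), .t 1 (nat_lit 0) (.fa 5), .t 1 (nat_lit 0) (.fa 3), .t 1 (nat_lit 0) (.cn 7 2), .t 1 (nat_lit 0) (.fa 2), .t 8 (nat_lit 0x1760175017301ae01ac017b017a) (.z (.node 2 4 (.node 0 8 (.free 4 [0,9,10,11,12,13,14,15,16,17,18,19,20,21,22]) (.leaf [2,5,7,8,6])) (.free 1 [1,3,4]))), .t 1 (nat_lit 0) (.fa 4), .t 1 (nat_lit 0) (.cn 1 3), .t 1 (nat_lit 0) (.cn 2 3), .t 1 (nat_lit 0) (.cn 1 3), .t 1 (nat_lit 0) (.cn 1 2), .t 17 (nat_lit 0x8ba0880087f087e08630862085f085708c208c10891088f0887088608540853) (.z (.edon 0 16 (.edon 0 10 (.free 3 [0,1,2,3,4,5,6,7,8,9]) (.leaf [10,11,12,14,15,13])) (.free 2 [16,17,18,19,20,21,22]))), .t 1 (nat_lit 0) (.cn 2 2), .t 1 (nat_lit 0) (.cn 1 3), .t 5 (nat_lit 0xa0109fa09f409f3) (.z (.edon 0 15 (.free 4 [0,1,2,3,4,5,6,7,8,9,10,11,12,13,14])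 (.node 17 19 (.leaf [15,17,20,22,21]) (.leaf [16,18,19])))), .t 1 (nat_lit 0) (.fa 5), .t 1 (nat_lit 0) (.cn 2 3), .t 5 (nat_lit 0x159003c00050002) (.z (.edon 0 16 (.node 0 12 (.leaf [0,13,14,15]) (.edon 4 6 (.free 2 [4,5,7,8,9,11,12]) (.leaf [1,3,6,10,2]))) (.free 2 [16,17,18,19,20,21,22]))), .t 8 (nat_lit 0x6fe07bb07b9074a074806f606f4) (.z (.node 0 7 (.node 0 12 (.edon 0 16 (.leaf [0,13,14,15]) (.free 2 [16,17,18,19,20,21,22])) (.leaf [8,12,11,10,9])) (.free 2 [1,2,3,4,5,6,7]))), .t 8 (nat_lit 0x8bb08ba08b708ce08cb08c208c1) (.z (.node 0 7 (.edon 0 11 (.leaf [0,8,9,10]) (.edon 0 16 (.leaf [11,12,14,15,13]) (.free 2 [16,17,18,19,20,21,22]))) (.free 2 [1,2,3,4,5,6,7]))), .t 1 (nat_lit 0) (.cn 2 3), .t 1 (nat_lit 0) (.fa 2), .t 5 (nat_lit 0xa010922091f091e) (.z (.node 0 7 (.edon 0 11 (.leaf [0,8,9,10]) (.node 11 19 (.leaf [11,17,20,22,21]) (.free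 2 [12,13,14,15,16,18,19]))) (.free 2 [1,2,3,4,5,6,7]))), .t 5 (nat_lit 0xa010922091f091e) (.z (.node 0 7 (.edon 0 11 (.leaf [0,8,9,10]) (.node 17 19 (.leaf [11,17,20,22,21]) (.free 2 [12,13,14,15,16,18,19]))) (.free 2 [1,2,3,4,5,6,7]))), .t 1 (nat_lit 0) (.cn 4 2), .t 8 (nat_lit 0x7f5077d077b072a0728071b0719) (.z (.node 0 7 (.edon 0 16 (.node 10 13 (.leaf [0,10,14,15]) (.leaf [8,12,13,11,9])) (.free 2 [16,17,18,19,20,21,22])) (.free 2 [1,2,3,4,5,6,7]))), .t 5 (nat_lit 0x9ba092208ff08fe) (.z (.node 0 7 (.edon 0 11 (.leaf [0,8,9,10]) (.node 13 19 (.leaf [11,13,20,22,21]) (.free 2 [12,14,15,16,17,18,19]))) (.free 2 [1,2,3,4,5,6,7]))), .t 17 (nat_lit 0x728070506fe085107f507ca07c207c0077d077b075d075b0750074e06f606f4) (.z (.node 7 0 (.free 2 [1,2,3,4,5,6,7]) (.node 13 0 (.leaf [8,12,13,11,10,9]) (.free 3 [0,14,15,16,17,18,19,20,21,22])))), .t 1 (nat_lit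 0) (.fa 4), .t 8 (nat_lit 0x8bd0927092508ce08cc08b908b8) (.z (.edon 0 16 (.node 0 10 (.leaf [0,11,12,13,14,15]) (.free 3 [1,2,3,4,5,6,7,8,9,10])) (.free 2 [16,17,18,19,20,21,22]))), .t 1 (nat_lit 0) (.fa 5)] (by decide +kernel) (by decide +kernel)
theorem b81 : B 2592 2624 := Blk.of_chk [.t 1 (nat_lit 0) (.fa 5), .t 1 (nat_lit 0) (.fa 4), .t 1 (nat_lit 0) (.fa 3), .t 1 (nat_lit 0) (.cn 2 3), .t 1 (nat_lit 0) (.cn 4 2), .t 1 (nat_lit 0) (.cn 4 2), .t 1 (nat_lit 0) (.cn 3 3), .t 1 (nat_lit 0) (.fa 3), .t 1 (nat_lit 0) (.fa 3), .t 1 (nat_lit 0) (.fa 3), .t 5 (nat_lit 0x77d077b07e707e6) (.z (.node 0 7 (.edon 0 16 (.node 10 13 (.leaf [0,9,10,14,15]) (.leaf [8,12,13,11])) (.free 2 [16,17,18,19,20,21,22])) (.free 2 [1,2,3,4,5,6,7]))), .t 9 (nat_lit 0x605062606210612060d0a02064b0649) (.z (.edon 0 7 (.free 2 [0,1,2,3,4,5,6]) (.edon 0 12 (.leaf [7,8,11,10,9])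 (.node 18 19 (.leaf [18,20,22,21]) (.free 2 [12,13,14,15,16,17,19]))))), .t 1 (nat_lit 0) (.cp 1 3), .t 8 (nat_lit 0x61205cb05c605ad05aa05a405a3) (.z (.node 2 4 (.edon 9 12 (.leaf [6,7,8,11,9]) (.free 4 [0,2,5,10,12,13,14,15,16,17,18,19,20,21,22])) (.free 1 [1,3,4]))), .t 8 (nat_lit 0x174017b01790178017701ae01ad) (.z (.node 2 4 (.node 0 8 (.free 4 [0,9,10,11,12,13,14,15,16,17,18,19,20,21,22]) (.leaf [2,6,7,8,5])) (.free 1 [1,3,4]))), .t 4 (nat_lit 0xa0201c801c7) (.z (.edon 12 1 (.edon 0 12 (.leaf [0,2,6,9,10]) (.node 18 19 (.leaf [18,20,22,21]) (.free 2 [12,13,14,15,16,17,19]))) (.free 2 [1,3,4,5,7,8,11]))), .t 1 (nat_lit 0) (.cp 1 3), .t 1 (nat_lit 0) (.cn 3 2), .t 5 (nat_lit 0x7490746081e081c) (.z (.node 0 7 (.edon 0 16 (.node 9 12 (.leaf [0,9,13,14,15]) (.leaf [8,11,12,10])) (.free 2 [16,17,18,19,20,21,22])) (.free 2 [1,2,3,4,5,6,7]))),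 .t 8 (nat_lit 0x7ba074907460712070f06fe06fc) (.z (.node 0 7 (.node 0 12 (.edon 0 16 (.leaf [0,13,14,15]) (.free 2 [16,17,18,19,20,21,22])) (.leaf [8,11,12,10,9])) (.free 2 [1,2,3,4,5,6,7]))), .t 8 (nat_lit 0x4f905a405a30531053004f004ef) (.z (.node 2 4 (.edon 5 12 (.leaf [5,6,7,8,11]) (.free 4 [0,2,9,10,12,13,14,15,16,17,18,19,20,21,22])) (.free 1 [1,3,4]))), .t 5 (nat_lit 0xa0209fa09f809f7) (.z (.edon 0 15 (.free 4 [0,1,2,3,4,5,6,7,8,9,10,11,12,13,14]) (.node 18 19 (.leaf [15,18,20,22,21]) (.leaf [16,17,19])))), .t 10 (nat_lit 0x605062606210612060d09270924064b0649) (.z (.edon 0 16 (.edon 0 7 (.free 2 [0,1,2,3,4,5,6]) (.edon 0 12 (.leaf [7,8,11,10,9]) (.leaf [12,14,15,13]))) (.free 2 [16,17,18,19,20,21,22]))), .t 1 (nat_lit 0) (.fa 4), .t 8 (nat_lit 0x8bb08ba08b708ce08cb08c208c1) (.z (.edon 0 16 (.edon 0 11 (.node 2 8 (.leaf [0,2,9,10]) (.free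 2 [1,3,4,5,6,7,8])) (.leaf [11,12,14,15,13])) (.free 2 [16,17,18,19,20,21,22]))), .t 1 (nat_lit 0) (.cn 3 2), .t 8 (nat_lit 0x87f079e079d076d076b0760075f) (.z (.node 0 7 (.edon 0 16 (.node 11 13 (.leaf [0,9,11,15]) (.leaf [8,10,12,14,13])) (.free 2 [16,17,18,19,20,21,22])) (.free 2 [1,2,3,4,5,6,7]))), .t 8 (nat_lit 0x6fa06f506f2074a074507130711) (.z (.node 0 7 (.node 0 12 (.edon 0 16 (.leaf [0,13,14,15]) (.free 2 [16,17,18,19,20,21,22])) (.leaf [8,10,12,11,9])) (.free 2 [1,2,3,4,5,6,7]))), .t 1 (nat_lit 0) (.cn 2 3), .t 1 (nat_lit 0) (.cn 1 3), .t 6 (nat_lit 0xa0201cd01cc052e052b) (.z (.node 2 4 (.edon 8 12 (.leaf [5,7,10,8]) (.edon 0 12 (.leaf [0,2,6,9,11]) (.node 18 19 (.leaf [18,20,22,21]) (.free 2 [12,13,14,15,16,17,19])))) (.free 1 [1,3,4]))), .t 1 (nat_lit 0) (.cp 1 3)] (by decide +kernel) (by decide +kernel)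
theorem b82 : B 2624 2656 := Blk.of_chk [.t 4 (nat_lit 0xa0201ed01ec) (.z (.edon 12 1 (.edon 0 12 (.leaf [0,2,8,9,11]) (.node 18 19 (.leaf [18,20,22,21]) (.free 2 [12,13,14,15,16,17,19]))) (.free 2 [1,3,4,5,6,7,10]))), .t 9 (nat_lit 0x59a05a905a605a1059e0a0205c305c1) (.z (.node 2 4 (.edon 0 12 (.node 5 8 (.leaf [0,2,5,11]) (.leaf [6,7,10,9,8])) (.node 18 19 (.leaf [18,20,22,21]) (.free 2 [12,13,14,15,16,17,19]))) (.free 1 [1,3,4]))), .t 1 (nat_lit 0) (.cp 1 3), .t 1 (nat_lit 0) (.cp 1 2), .t 4 (nat_lit 0xa0201870186) (.z (.edon 12 1 (.edon 0 12 (.leaf [0,2,5,8,11]) (.node 18 19 (.leaf [18,20,22,21]) (.free 2 [12,13,14,15,16,17,19]))) (.free 2 [1,3,4,6,7,9,10]))), .t 1 (nat_lit 0) (.cp 1 3), .t 4 (nat_lit 0xa0201f701f6) (.z (.edon 12 1 (.edon 0 12 (.leaf [0,2,8,10,11]) (.node 18 19 (.leaf [18,20,22,21]) (.free 2 [12,13,14,15,16,17,19]))) (.free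 2 [1,3,4,5,6,7,9]))), .t 5 (nat_lit 0x153003600030001) (.z (.node 8 0 (.edon 4 5 (.leaf [4,6,7]) (.leaf [1,3,5,8,2])) (.free 4 [0,9,10,11,12,13,14,15,16,17,18,19,20,21,22]))), .t 1 (nat_lit 0) (.fa 3), .t 4 (nat_lit 0xa0206f506f3) (.z (.node 0 7 (.edon 0 12 (.leaf [0,8,9,10,11]) (.node 18 19 (.leaf [18,20,22,21]) (.free 2 [12,13,14,15,16,17,19]))) (.free 2 [1,2,3,4,5,6,7]))), .t 9 (nat_lit 0x4f60a0205a805a70535053404f304f2) (.z (.node 2 4 (.edon 0 12 (.node 2 10 (.leaf [0,2,8,11]) (.leaf [5,6,7,9,10])) (.node 18 19 (.leaf [18,20,22,21]) (.free 2 [12,13,14,15,16,17,19]))) (.free 1 [1,3,4]))), .t 17 (nat_lit 0x6f107160713070e070106fe06f90851077d077b075d075b0750074e072a0729) (.z (.node 7 0 (.free 2 [1,2,3,4,5,6,7]) (.node 13 0 (.leaf [8,9,12,13,11,10]) (.free 3 [0,14,15,16,17,18,19,20,21,22])))), .t 5 (nat_lit 0x157003a00030002) (.z (.node 8 0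 (.edon 4 6 (.leaf [4,5,7]) (.leaf [1,3,6,8,2])) (.free 4 [0,9,10,11,12,13,14,15,16,17,18,19,20,21,22]))), .t 1 (nat_lit 0) (.cp 1 3), .t 6 (nat_lit 0xa0201b901b805350534) (.z (.node 2 4 (.edon 0 12 (.edon 5 8 (.leaf [5,7,9,10]) (.leaf [0,2,6,8,11])) (.node 18 19 (.leaf [18,20,22,21]) (.free 2 [12,13,14,15,16,17,19]))) (.free 1 [1,3,4]))), .t 1 (nat_lit 0) (.cn 1 3), .t 1 (nat_lit 0) (.cn 1 3), .t 6 (nat_lit 0xa0201b901b805360533) (.z (.node 2 4 (.edon 0 12 (.edon 5 8 (.leaf [5,7,10,9]) (.leaf [0,2,6,8,11])) (.node 18 19 (.leaf [18,20,22,21]) (.free 2 [12,13,14,15,16,17,19]))) (.free 1 [1,3,4]))), .t 1 (nat_lit 0) (.cn 1 3), .t 1 (nat_lit 0) (.cn 1 3), .t 9 (nat_lit 0x59e059d059a0a0205c205bf05a805a7) (.z (.node 2 4 (.edon 0 12 (.node 5 10 (.leaf [0,2,5,11]) (.leaf [6,7,9,10,8])) (.node 18 19 (.leaf [18,20,22,21]) (.free 2 [12,13,14,15,16,17,19])))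 (.free 1 [1,3,4]))), .t 6 (nat_lit 0x2de00c600c3003e003b) (.z (.node 9 2 (.edon 4 8 (.leaf [4,5,7]) (.leaf [1,3,8,9,6])) (.free 4 [0,2,10,11,12,13,14,15,16,17,18,19,20,21,22]))), .t 8 (nat_lit 0x77e077d077b079e079d07880787) (.z (.node 0 7 (.edon 0 16 (.node 10 13 (.leaf [0,9,10,15]) (.leaf [8,12,14,13,11])) (.free 2 [16,17,18,19,20,21,22])) (.free 2 [1,2,3,4,5,6,7]))), .t 6 (nat_lit 0xa0204f004ee02260224) (.z (.node 2 4 (.edon 0 12 (.node 2 8 (.leaf [0,2,9,10,11]) (.leaf [5,7,8,6])) (.node 18 19 (.leaf [18,20,22,21]) (.free 2 [12,13,14,15,16,17,19]))) (.free 1 [1,3,4]))), .t 9 (nat_lit 0x4ee0508050504f604f40a02052d052c) (.z (.node 2 4 (.edon 0 12 (.node 2 10 (.leaf [0,2,9,11]) (.leaf [5,7,8,10,6])) (.node 18 19 (.leaf [18,20,22,21]) (.free 2 [12,13,14,15,16,17,19]))) (.free 1 [1,3,4]))), .t 5 (nat_lit 0x15c004300050004) (.z (.edon 0 16 (.node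 0 12 (.leaf [0,13,14,15]) (.node 3 11 (.leaf [1,3,9,10,2]) (.free 2 [4,5,6,7,8,11,12]))) (.free 2 [16,17,18,19,20,21,22]))), .t 7 (nat_lit 0x71307110159003c00050002) (.z (.edon 0 16 (.node 0 12 (.leaf [0,13,14,15]) (.node 7 9 (.edon 4 6 (.leaf [4,5,7]) (.leaf [1,3,6,10,2])) (.leaf [8,12,11,9]))) (.free 2 [16,17,18,19,20,21,22]))), .t 6 (nat_lit 0xa0201c801c705310530) (.z (.node 2 4 (.edon 0 12 (.edon 5 9 (.leaf [5,7,8,11]) (.leaf [0,2,6,9,10])) (.node 18 19 (.leaf [18,20,22,21]) (.free 2 [12,13,14,15,16,17,19]))) (.free 1 [1,3,4]))), .t 6 (nat_lit 0xa020191019005a405a3) (.z (.node 2 4 (.edon 0 12 (.edon 6 9 (.leaf [6,7,8,11]) (.leaf [0,2,5,9,10])) (.node 18 19 (.leaf [18,20,22,21]) (.free 2 [12,13,14,15,16,17,19]))) (.free 1 [1,3,4]))), .t 6 (nat_lit 0xa0204f004ef02260224) (.z (.node 2 4 (.edon 0 12 (.node 2 8 (.leaf [0,2,9,10,11]) (.leaf [5,6,7,8]))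 (.node 18 19 (.leaf [18,20,22,21]) (.free 2 [12,13,14,15,16,17,19]))) (.free 1 [1,3,4]))), .t 6 (nat_lit 0x2c7008b008800400038) (.z (.node 10 2 (.edon 4 8 (.leaf [4,6,7]) (.leaf [1,3,8,10,5])) (.free 4 [0,2,9,11,12,13,14,15,16,17,18,19,20,21,22]))), .t 6 (nat_lit 0x2e400cd00ca0040003c) (.z (.node 10 2 (.edon 4 8 (.leaf [4,5,7]) (.leaf [1,3,8,10,6])) (.free 4 [0,2,9,11,12,13,14,15,16,17,18,19,20,21,22])))] (by decide +kernel) (by decide +kernel)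
theorem b83 : B 2656 2688 := Blk.of_chk [.t 1 (nat_lit 0) (.fa 3), .t 9 (nat_lit 0x60d060a06050a02064a064706250623) (.z (.edon 0 7 (.free 2 [0,1,2,3,4,5,6]) (.edon 0 12 (.leaf [7,8,10,11,9]) (.node 18 19 (.leaf [18,20,22,21]) (.free 2 [12,13,14,15,16,17,19]))))), .t 5 (nat_lit 0x15d004400060004) (.z (.edon 0 16 (.node 0 12 (.leaf [0,13,14,15]) (.node 3 10 (.leaf [1,3,9,11,2]) (.free 2 [4,5,6,7,8,10,12]))) (.free 2 [16,17,18,19,20,21,22]))), .t 6 (nat_lit 0x2260126012400320030) (.z (.edon 0 16 (.node 0 12 (.leaf [0,13,14,15]) (.node 1 12 (.leaf [1,10,11,9,2]) (.free 2 [3,4,5,6,7,8,12]))) (.free 2 [16,17,18,19,20,21,22]))), .t 1 (nat_lit 0) (.cn 2 2), .t 4 (nat_lit 0xa0201950194) (.z (.edon 12 1 (.edon 0 12 (.leaf [0,2,5,9,11]) (.node 18 19 (.leaf [18,20,22,21]) (.free 2 [12,13,14,15,16,17,19]))) (.free 2 [1,3,4,6,7,8,10]))), .t 5 (nat_lit 0x8ba08b701990198)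 (.z (.edon 0 16 (.edon 1 12 (.free 2 [1,3,4,6,7,8,10]) (.node 9 13 (.leaf [0,2,5,9,15]) (.leaf [11,12,14,13]))) (.free 2 [16,17,18,19,20,21,22]))), .t 7 (nat_lit 0x25f025e0854085204f004ef) (.z (.edon 0 16 (.node 2 4 (.edon 5 13 (.edon 0 10 (.leaf [5,6,7,8]) (.leaf [10,12,14,11])) (.leaf [0,2,9,13,15])) (.leaf [1,3,4])) (.free 2 [16,17,18,19,20,21,22]))), .t 5 (nat_lit 0x74a0745081e081c) (.z (.node 0 7 (.edon 0 16 (.node 9 12 (.leaf [0,9,13,14,15]) (.leaf [8,10,12,11])) (.free 2 [16,17,18,19,20,21,22])) (.free 2 [1,2,3,4,5,6,7]))), .t 1 (nat_lit 0) (.cn 2 2), .t 7 (nat_lit 0x8ba08b705a1059e01990198) (.z (.edon 0 16 (.node 2 4 (.node 5 13 (.leaf [0,2,5,9,15]) (.edon 0 11 (.leaf [6,7,10,8]) (.leaf [11,12,14,13]))) (.leaf [1,3,4])) (.free 2 [16,17,18,19,20,21,22]))), .t 1 (nat_lit 0) (.cn 1 3), .t 8 (nat_lit 0x752074a07450780077e0760075f) (.z (.node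 0 7 (.edon 0 16 (.node 9 14 (.leaf [0,9,13,15]) (.leaf [8,10,12,14,11])) (.free 2 [16,17,18,19,20,21,22])) (.free 2 [1,2,3,4,5,6,7]))), .t 7 (nat_lit 0x74a07480158003b00040002) (.z (.edon 0 16 (.node 0 12 (.leaf [0,13,14,15]) (.node 7 10 (.edon 4 6 (.leaf [4,5,7]) (.leaf [1,3,6,9,2])) (.leaf [8,12,11,10]))) (.free 2 [16,17,18,19,20,21,22]))), .t 9 (nat_lit 0xa020626056405610540053d05310530) (.z (.node 2 4 (.edon 0 12 (.edon 5 9 (.leaf [5,7,8,11,10]) (.leaf [0,2,6,9])) (.node 18 19 (.leaf [18,20,22,21]) (.free 2 [12,13,14,15,16,17,19]))) (.free 1 [1,3,4]))), .t 6 (nat_lit 0xa020331033006260621) (.z (.node 0 3 (.edon 0 12 (.edon 7 9 (.leaf [7,8,11,10]) (.leaf [0,4,5,6,9])) (.node 18 19 (.leaf [18,20,22,21]) (.free 2 [12,13,14,15,16,17,19]))) (.free 1 [1,2,3]))), .t 9 (nat_lit 0xa02062605d405d005b105ae05a405a3) (.z (.node 2 4 (.edon 0 12 (.node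 5 10 (.leaf [0,2,5,9]) (.leaf [6,7,8,11,10])) (.node 18 19 (.leaf [18,20,22,21]) (.free 2 [12,13,14,15,16,17,19]))) (.free 1 [1,3,4]))), .t 9 (nat_lit 0x4f60a0205a0059f052d052c04f004ef) (.z (.node 2 4 (.edon 0 12 (.node 2 10 (.leaf [0,2,9,11]) (.leaf [5,6,7,8,10])) (.node 18 19 (.leaf [18,20,22,21]) (.free 2 [12,13,14,15,16,17,19]))) (.free 1 [1,3,4]))), .t 1 (nat_lit 0) (.cn 1 3), .t 8 (nat_lit 0x4f3059c059b0529052804f004ef) (.z (.node 2 4 (.node 2 9 (.free 4 [0,2,10,11,12,13,14,15,16,17,18,19,20,21,22]) (.leaf [5,6,7,8,9])) (.free 1 [1,3,4]))), .t 1 (nat_lit 0) (.fa 3), .t 9 (nat_lit 0x4f30a02059c059b0529052804f004ef) (.z (.node 2 4 (.edon 0 12 (.node 2 9 (.leaf [0,2,10,11]) (.leaf [5,6,7,8,9])) (.node 18 19 (.leaf [18,20,22,21]) (.free 2 [12,13,14,15,16,17,19]))) (.free 1 [1,3,4]))), .t 6 (nat_lit 0x2270127012300320030) (.z (.edon 0 16 (.node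 0 12 (.leaf [0,13,14,15]) (.node 1 12 (.leaf [1,9,11,10,2]) (.free 2 [3,4,5,6,7,8,12]))) (.free 2 [16,17,18,19,20,21,22]))), .t 9 (nat_lit 0x4ee050004fd04f304f10a0205290528) (.z (.node 2 4 (.edon 0 12 (.node 2 9 (.leaf [0,2,10,11]) (.leaf [5,7,8,9,6])) (.node 18 19 (.leaf [18,20,22,21]) (.free 2 [12,13,14,15,16,17,19]))) (.free 1 [1,3,4]))), .t 1 (nat_lit 0) (.fa 5), .t 5 (nat_lit 0x15c004300050004) (.z (.edon 0 16 (.node 0 12 (.leaf [0,13,14,15]) (.edon 4 9 (.free 2 [4,5,6,7,8,11,12]) (.leaf [1,3,9,10,2]))) (.free 2 [16,17,18,19,20,21,22]))), .t 8 (nat_lit 0x4ee050004fd04f304f105290528) (.z (.node 2 4 (.node 2 9 (.free 4 [0,2,10,11,12,13,14,15,16,17,18,19,20,21,22]) (.leaf [5,7,8,9,6])) (.free 1 [1,3,4]))), .t 6 (nat_lit 0x1c801c700d900d70021) (.z (.edon 0 16 (.node 0 12 (.leaf [0,13,14,15]) (.node 6 11 (.leaf [1,6,9,10,2]) (.free 2 [3,4,5,7,8,11,12])))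 (.free 2 [16,17,18,19,20,21,22]))), .t 6 (nat_lit 0x1c801c700d900d70021) (.z (.edon 0 16 (.node 0 12 (.leaf [0,13,14,15]) (.edon 3 9 (.free 2 [3,4,5,7,8,11,12]) (.leaf [1,6,9,10,2]))) (.free 2 [16,17,18,19,20,21,22]))), .t 5 (nat_lit 0x159003c00050002) (.z (.edon 0 16 (.node 0 12 (.leaf [0,13,14,15]) (.edon 4 10 (.free 2 [4,5,7,8,9,11,12]) (.leaf [1,3,6,10,2]))) (.free 2 [16,17,18,19,20,21,22]))), .t 9 (nat_lit 0x605062606210612060d0a01064b0649) (.z (.edon 0 7 (.free 2 [0,1,2,3,4,5,6]) (.edon 0 12 (.leaf [7,8,11,10,9]) (.node 17 19 (.leaf [17,20,22,21]) (.free 2 [12,13,14,15,16,18,19]))))), .t 1 (nat_lit 0) (.cn 2 3)] (by decide +kernel) (by decide +kernel)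
theorem b84 : B 2688 2720 := Blk.of_chk [.t 1 (nat_lit 0) (.cn 2 3), .t 5 (nat_lit 0x153003600030001) (.z (.node 8 0 (.edon 4 8 (.leaf [4,6,7]) (.leaf [1,3,5,8,2])) (.free 4 [0,9,10,11,12,13,14,15,16,17,18,19,20,21,22]))), .t 9 (nat_lit 0x4f30a01059c059b0529052804f004ef) (.z (.node 2 4 (.edon 0 12 (.node 2 9 (.leaf [0,2,10,11]) (.leaf [5,6,7,8,9])) (.node 17 19 (.leaf [17,20,22,21]) (.free 2 [12,13,14,15,16,18,19]))) (.free 1 [1,3,4]))), .t 7 (nat_lit 0x33902bd02bc029f029b002f) (.z (.edon 0 16 (.node 0 12 (.leaf [0,13,14,15]) (.node 1 11 (.leaf [1,9,10,2]) (.edon 7 11 (.leaf [7,8,12]) (.leaf [3,4,6,11,5])))) (.free 2 [16,17,18,19,20,21,22]))), .t 10 (nat_lit 0x4ee0508050504f604f409270924052d052c) (.z (.edon 0 16 (.edon 0 12 (.node 2 4 (.node 2 10 (.leaf [0,2,9,11]) (.leaf [5,7,8,10,6])) (.leaf [1,3,4])) (.leaf [12,14,15,13])) (.free 2 [16,17,18,19,20,21,22]))),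 .t 9 (nat_lit 0x4ee0508050504f604f40a01052d052c) (.z (.node 2 4 (.edon 0 12 (.node 2 10 (.leaf [0,2,9,11]) (.leaf [5,7,8,10,6])) (.node 17 19 (.leaf [17,20,22,21]) (.free 2 [12,13,14,15,16,18,19]))) (.free 1 [1,3,4]))), .t 9 (nat_lit 0x4f60a0105a0059f052d052c04f004ef) (.z (.node 2 4 (.edon 0 12 (.node 2 10 (.leaf [0,2,9,11]) (.leaf [5,6,7,8,10])) (.node 17 19 (.leaf [17,20,22,21]) (.free 2 [12,13,14,15,16,18,19]))) (.free 1 [1,3,4]))), .t 12 (nat_lit 0x9ba092208ff08fe060a05c305be05a905a605a0059f) (.z (.node 0 2 (.edon 0 6 (.leaf [0,3,4,5]) (.edon 0 11 (.leaf [6,7,8,10,9]) (.node 13 19 (.leaf [11,13,20,22,21]) (.free 2 [12,14,15,16,17,18,19])))) (.free 1 [1,2]))), .t 10 (nat_lit 0x4ee050004fd04f304f10927092405290528) (.z (.edon 0 16 (.edon 0 12 (.node 2 4 (.node 2 9 (.leaf [0,2,10,11]) (.leaf [5,7,8,9,6])) (.leaf [1,3,4])) (.leaf [12,14,15,13]))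 (.free 2 [16,17,18,19,20,21,22]))), .t 9 (nat_lit 0x4ee050004fd04f304f10a0105290528) (.z (.node 2 4 (.edon 0 12 (.node 2 9 (.leaf [0,2,10,11]) (.leaf [5,7,8,9,6])) (.node 17 19 (.leaf [17,20,22,21]) (.free 2 [12,13,14,15,16,18,19]))) (.free 1 [1,3,4]))), .t 6 (nat_lit 0xa0104f004ee02260224) (.z (.node 2 4 (.edon 0 12 (.node 2 8 (.leaf [0,2,9,10,11]) (.leaf [5,7,8,6])) (.node 17 19 (.leaf [17,20,22,21]) (.free 2 [12,13,14,15,16,18,19]))) (.free 1 [1,3,4]))), .t 10 (nat_lit 0x4f104f004ee09270924052a0527050104ff) (.z (.edon 0 16 (.edon 0 12 (.node 2 4 (.node 2 8 (.leaf [0,2,10,11]) (.leaf [5,7,9,8,6])) (.leaf [1,3,4])) (.leaf [12,14,15,13])) (.free 2 [16,17,18,19,20,21,22]))), .t 1 (nat_lit 0) (.fa 2), .t 9 (nat_lit 0xa01059d052a0527050104fc04f304f2) (.z (.node 2 4 (.edon 0 12 (.node 2 9 (.leaf [0,2,10,11]) (.leaf [5,6,7,9,8])) (.node 17 19 (.leaf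 [17,20,22,21]) (.free 2 [12,13,14,15,16,18,19]))) (.free 1 [1,3,4]))), .t 9 (nat_lit 0xa01059d052a0527050104fc04f304f2) (.z (.node 2 4 (.edon 0 12 (.node 2 8 (.leaf [0,2,10,11]) (.leaf [5,6,7,9,8])) (.node 17 19 (.leaf [17,20,22,21]) (.free 2 [12,13,14,15,16,18,19]))) (.free 1 [1,3,4]))), .t 1 (nat_lit 0) (.fa 2), .t 8 (nat_lit 0x59d052a0527050104fc04f304f2) (.z (.node 2 4 (.node 2 9 (.free 4 [0,2,10,11,12,13,14,15,16,17,18,19,20,21,22]) (.leaf [5,6,7,9,8])) (.free 1 [1,3,4]))), .t 5 (nat_lit 0xa0109fa09f409f3) (.z (.edon 0 15 (.free 4 [0,1,2,3,4,5,6,7,8,9,10,11,12,13,14]) (.node 15 19 (.leaf [15,17,20,22,21]) (.leaf [16,18,19])))), .t 1 (nat_lit 0) (.fa 5), .t 8 (nat_lit 0x59d052a0527050104fc04f304f2) (.z (.node 2 4 (.node 2 8 (.free 4 [0,2,10,11,12,13,14,15,16,17,18,19,20,21,22]) (.leaf [5,6,7,9,8])) (.free 1 [1,3,4]))), .t 8 (nat_lit 0x6f10713070e06fe06f9074a0748)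 (.z (.node 0 7 (.node 0 12 (.edon 0 16 (.leaf [0,13,14,15]) (.free 2 [16,17,18,19,20,21,22])) (.leaf [8,9,12,11,10])) (.free 2 [1,2,3,4,5,6,7]))), .t 1 (nat_lit 0) (.fa 3), .t 1 (nat_lit 0) (.fa 3), .t 1 (nat_lit 0) (.fa 3), .t 8 (nat_lit 0x8110815081408130812081f081d) (.z (.node 0 7 (.edon 0 16 (.edon 9 11 (.leaf [9,12,15,14,13]) (.leaf [0,8,10,11])) (.free 2 [16,17,18,19,20,21,22])) (.free 2 [1,2,3,4,5,6,7]))), .t 10 (nat_lit 0x7160713070e077d077b072a072909bc09bb) (.z (.node 0 7 (.node 10 13 (.edon 14 19 (.leaf [14,15,16,17]) (.free 2 [0,10,18,19,20,21,22])) (.leaf [8,9,12,13,11])) (.free 2 [1,2,3,4,5,6,7]))), .t 8 (nat_lit 0x8b708c308c008be08bb08cf08cd) (.z (.node 0 7 (.edon 0 11 (.leaf [0,8,9,10]) (.edon 0 16 (.leaf [11,12,15,14,13]) (.free 2 [16,17,18,19,20,21,22]))) (.free 2 [1,2,3,4,5,6,7]))), .t 8 (nat_lit 0x81307a2079f07340732072d072c)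 (.z (.node 0 7 (.edon 0 16 (.node 11 13 (.leaf [0,10,11,14]) (.leaf [8,9,12,15,13])) (.free 2 [16,17,18,19,20,21,22])) (.free 2 [1,2,3,4,5,6,7]))), .t 6 (nat_lit 0xa0205ac05ab01840183) (.z (.node 2 4 (.edon 0 12 (.node 8 11 (.leaf [0,2,5,8,10]) (.leaf [6,7,9,11])) (.node 18 19 (.leaf [18,20,22,21]) (.free 2 [12,13,14,15,16,17,19]))) (.free 1 [1,3,4]))), .t 7 (nat_lit 0xa0209e809e609e508be08bb) (.z (.node 0 7 (.edon 0 11 (.leaf [0,8,9,10]) (.edon 13 16 (.leaf [11,12,15,13]) (.node 18 19 (.leaf [14,18,20,22,21]) (.leaf [16,17,19])))) (.free 2 [1,2,3,4,5,6,7]))), .t 7 (nat_lit 0xa0209ba09b909b808c308c0) (.z (.node 0 7 (.edon 0 11 (.leaf [0,8,9,10]) (.edon 14 16 (.leaf [11,12,15,14]) (.node 18 19 (.leaf [13,18,20,22,21]) (.leaf [16,17,19])))) (.free 2 [1,2,3,4,5,6,7]))), .t 7 (nat_lit 0xa0209ba09b909b808c308c0) (.z (.node 0 7 (.edon 0 11 (.leaf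 [0,8,9,10]) (.edon 11 16 (.leaf [11,12,15,14]) (.node 18 19 (.leaf [13,18,20,22,21]) (.leaf [16,17,19])))) (.free 2 [1,2,3,4,5,6,7])))] (by decide +kernel) (by decide +kernel)
theorem b85 : B 2720 2752 := Blk.of_chk [.t 10 (nat_lit 0x8cb08eb08e808d508d306fe06f909030902) (.z (.node 0 7 (.node 0 16 (.free 2 [0,17,18,19,20,21,22]) (.node 11 12 (.leaf [11,14,15,16,13]) (.leaf [8,9,12,10]))) (.free 2 [1,2,3,4,5,6,7]))), .t 7 (nat_lit 0xa0109ba09b409b308c308c0) (.z (.node 0 7 (.edon 0 11 (.leaf [0,8,9,10]) (.edon 11 16 (.leaf [11,12,15,14]) (.node 17 19 (.leaf [13,17,20,22,21]) (.leaf [16,18,19])))) (.free 2 [1,2,3,4,5,6,7]))), .t 9 (nat_lit 0x8df0a01098909880914091308dc08db) (.z (.node 0 7 (.edon 0 11 (.leaf [0,8,9,10]) (.node 14 16 (.edon 11 20 (.leaf [11,13,14,18,19]) (.leaf [17,20,22,21])) (.leaf [12,15,16]))) (.free 2 [1,2,3,4,5,6,7]))), .t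 10 (nat_lit 0x6f10713070e06fe06f9074a074809590956) (.z (.node 0 7 (.node 0 12 (.node 0 16 (.free 2 [0,17,18,19,20,21,22]) (.leaf [13,15,16,14])) (.leaf [8,9,12,11,10])) (.free 2 [1,2,3,4,5,6,7]))), .t 9 (nat_lit 0x60e060906060a01064b064606260624) (.z (.edon 0 7 (.free 2 [0,1,2,3,4,5,6]) (.edon 0 12 (.leaf [7,9,11,10,8]) (.node 17 19 (.leaf [17,20,22,21]) (.free 2 [12,13,14,15,16,18,19]))))), .t 7 (nat_lit 0xa0109e809e209e108be08bb) (.z (.node 0 7 (.edon 0 11 (.leaf [0,8,9,10]) (.edon 13 16 (.leaf [11,12,15,13]) (.node 17 19 (.leaf [14,17,20,22,21]) (.leaf [16,18,19])))) (.free 2 [1,2,3,4,5,6,7]))), .t 7 (nat_lit 0x9270924059d059a019c019b) (.z (.edon 0 16 (.edon 0 12 (.node 2 4 (.node 5 9 (.leaf [0,2,5,10,11]) (.leaf [6,7,9,8])) (.leaf [1,3,4])) (.leaf [12,14,15,13])) (.free 2 [16,17,18,19,20,21,22]))), .t 6 (nat_lit 0xa01059d059a019c019b) (.z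 (.node 2 4 (.edon 0 12 (.node 5 9 (.leaf [0,2,5,10,11]) (.leaf [6,7,9,8])) (.node 17 19 (.leaf [17,20,22,21]) (.free 2 [12,13,14,15,16,18,19]))) (.free 1 [1,3,4]))), .t 1 (nat_lit 0) (.fa 4), .t 1 (nat_lit 0) (.fa 4), .t 10 (nat_lit 0x7160713070e077d077b072a072909be09bd) (.z (.node 0 7 (.node 10 13 (.edon 14 19 (.leaf [14,15,16,18]) (.free 2 [0,10,17,19,20,21,22])) (.leaf [8,9,12,13,11])) (.free 2 [1,2,3,4,5,6,7]))), .t 1 (nat_lit 0) (.fa 4), .t 1 (nat_lit 0) (.fa 4), .t 7 (nat_lit 0x9280923059d059a019c019b) (.z (.edon 0 16 (.edon 0 12 (.node 2 4 (.node 5 9 (.leaf [0,2,5,10,11]) (.leaf [6,7,9,8])) (.leaf [1,3,4])) (.leaf [12,13,15,14])) (.free 2 [16,17,18,19,20,21,22]))), .t 1 (nat_lit 0) (.cn 4 2), .t 10 (nat_lit 0x6f10713070e06fe06f9074a0748095a0958) (.z (.node 0 7 (.node 0 12 (.node 0 16 (.free 2 [0,17,18,19,20,21,22]) (.leaf [13,16,15,14]))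 (.leaf [8,9,12,11,10])) (.free 2 [1,2,3,4,5,6,7]))), .t 10 (nat_lit 0x5a2059d059a0928092305ca05c705ac05ab) (.z (.edon 0 16 (.edon 0 12 (.node 2 4 (.node 5 11 (.leaf [0,2,5,10]) (.leaf [6,7,9,11,8])) (.leaf [1,3,4])) (.leaf [12,13,15,14])) (.free 2 [16,17,18,19,20,21,22]))), .t 5 (nat_lit 0x9e8092209170916) (.z (.node 0 7 (.edon 0 11 (.leaf [0,8,9,10]) (.node 14 19 (.leaf [11,14,20,22,21]) (.free 2 [12,13,15,16,17,18,19]))) (.free 2 [1,2,3,4,5,6,7]))), .t 8 (nat_lit 0x92808cf08ca08c308c008bd08bc) (.z (.node 0 7 (.edon 0 11 (.leaf [0,8,9,10]) (.edon 0 16 (.leaf [11,12,13,15,14]) (.free 2 [16,17,18,19,20,21,22]))) (.free 2 [1,2,3,4,5,6,7]))), .t 10 (nat_lit 0x8930892088e0713070e08b108af08a208a1) (.z (.node 0 7 (.node 0 16 (.free 2 [0,17,18,19,20,21,22]) (.node 10 12 (.leaf [10,13,15,16,14]) (.leaf [8,9,12,11]))) (.free 2 [1,2,3,4,5,6,7]))), .t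 10 (nat_lit 0x713070e09ec09aa09a70999099809930992) (.z (.node 0 7 (.node 10 12 (.edon 17 19 (.leaf [13,15,16,18,17]) (.free 2 [0,10,14,19,20,21,22])) (.leaf [8,9,12,11])) (.free 2 [1,2,3,4,5,6,7]))), .t 7 (nat_lit 0xa0109e809e209e108be08bb) (.z (.node 0 7 (.edon 0 11 (.leaf [0,8,9,10]) (.edon 11 16 (.leaf [11,12,15,13]) (.node 17 19 (.leaf [14,17,20,22,21]) (.leaf [16,18,19])))) (.free 2 [1,2,3,4,5,6,7]))), .t 10 (nat_lit 0x8d208cf08ca06fe06f90903090108eb08e9) (.z (.node 0 7 (.node 0 16 (.free 2 [0,17,18,19,20,21,22]) (.node 11 12 (.leaf [11,13,15,16,14]) (.leaf [8,9,12,10]))) (.free 2 [1,2,3,4,5,6,7]))), .t 13 (nat_lit 0x8d208cf08ca0903090108eb08e9032d02b102b0029c0298) (.z (.edon 0 3 (.free 1 [0,1,2]) (.node 6 12 (.edon 0 10 (.leaf [3,4,6,8,5]) (.node 10 16 (.free 2 [10,17,18,19,20,21,22]) (.leaf [11,13,15,16,14]))) (.leaf [7,9,12])))), .t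 7 (nat_lit 0xa0209e809e609e508be08bb) (.z (.node 0 7 (.edon 0 11 (.leaf [0,8,9,10]) (.edon 11 16 (.leaf [11,12,15,13]) (.node 18 19 (.leaf [14,18,20,22,21]) (.leaf [16,17,19])))) (.free 2 [1,2,3,4,5,6,7]))), .t 7 (nat_lit 0x9280926059d059a019c019b) (.z (.edon 0 16 (.edon 0 12 (.node 2 4 (.node 5 9 (.leaf [0,2,5,10,11]) (.leaf [6,7,9,8])) (.leaf [1,3,4])) (.leaf [12,15,14,13])) (.free 2 [16,17,18,19,20,21,22]))), .t 6 (nat_lit 0xa0201b601b505390538) (.z (.node 2 4 (.edon 0 12 (.edon 5 8 (.leaf [5,7,9,11]) (.leaf [0,2,6,8,10])) (.node 18 19 (.leaf [18,20,22,21]) (.free 2 [12,13,14,15,16,17,19]))) (.free 1 [1,3,4]))), .t 9 (nat_lit 0x60e060906060a02064b064606260624) (.z (.edon 0 7 (.free 2 [0,1,2,3,4,5,6]) (.edon 0 12 (.leaf [7,9,11,10,8]) (.node 18 19 (.leaf [18,20,22,21]) (.free 2 [12,13,14,15,16,17,19]))))), .t 6 (nat_lit 0x1840183008b0089001a)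 (.z (.edon 0 16 (.node 0 12 (.leaf [0,13,14,15]) (.edon 3 8 (.free 2 [3,4,6,7,9,11,12]) (.leaf [1,5,8,10,2]))) (.free 2 [16,17,18,19,20,21,22]))), .t 9 (nat_lit 0x5a2059d059a0a0205ca05c705ac05ab) (.z (.node 2 4 (.edon 0 12 (.node 5 8 (.leaf [0,2,5,10]) (.leaf [6,7,9,11,8])) (.node 18 19 (.leaf [18,20,22,21]) (.free 2 [12,13,14,15,16,17,19]))) (.free 1 [1,3,4]))), .t 1 (nat_lit 0) (.fa 3), .t 4 (nat_lit 0xa0201840183) (.z (.edon 12 1 (.edon 0 12 (.leaf [0,2,5,8,10]) (.node 18 19 (.leaf [18,20,22,21]) (.free 2 [12,13,14,15,16,17,19]))) (.free 2 [1,3,4,6,7,9,11])))] (by decide +kernel) (by decide +kernel)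
theorem b86 : B 2752 2784 := Blk.of_chk [.t 1 (nat_lit 0) (.cn 1 3), .t 1 (nat_lit 0) (.cn 1 3), .t 6 (nat_lit 0xa0201b601b5053a0537) (.z (.node 2 4 (.edon 0 12 (.edon 5 8 (.leaf [5,7,11,9]) (.leaf [0,2,6,8,10])) (.node 18 19 (.leaf [18,20,22,21]) (.free 2 [12,13,14,15,16,17,19]))) (.free 1 [1,3,4]))), .t 7 (nat_lit 0x33102b702b5029d0299002b) (.z (.edon 0 16 (.node 0 12 (.leaf [0,13,14,15]) (.node 1 9 (.leaf [1,8,10,2]) (.edon 7 9 (.leaf [7,11,12]) (.leaf [3,4,6,9,5])))) (.free 2 [16,17,18,19,20,21,22]))), .t 1 (nat_lit 0) (.cp 1 3), .t 8 (nat_lit 0x18a055b055901f201f101810180) (.z (.edon 1 12 (.free 2 [1,3,4,6,7,10,11]) (.edon 0 13 (.leaf [0,2,5,8,9,12]) (.free 3 [13,14,15,16,17,18,19,20,21,22])))), .t 8 (nat_lit 0x6f906f606f10749074607120710) (.z (.node 0 7 (.node 0 12 (.edon 0 16 (.leaf [0,13,14,15]) (.free 2 [16,17,18,19,20,21,22])) (.leaf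 [8,9,11,12,10])) (.free 2 [1,2,3,4,5,6,7]))), .t 1 (nat_lit 0) (.cn 2 2), .t 1 (nat_lit 0) (.fa 2), .t 9 (nat_lit 0x5330540053d053a05370a0205790577) (.z (.node 2 4 (.edon 0 12 (.edon 5 8 (.leaf [5,7,11,10,9]) (.leaf [0,2,6,8])) (.node 18 19 (.leaf [18,20,22,21]) (.free 2 [12,13,14,15,16,17,19]))) (.free 1 [1,3,4]))), .t 9 (nat_lit 0x351034e034a0002040103fe036a0368) (.z (.edon 0 16 (.node 0 12 (.leaf [0,13,14,15]) (.edon 4 6 (.node 5 12 (.leaf [4,5,9,10,8]) (.leaf [7,11,12])) (.leaf [1,3,6,2]))) (.free 2 [16,17,18,19,20,21,22]))), .t 1 (nat_lit 0) (.fa 2), .t 9 (nat_lit 0xa0205ad05aa0355035302c802c60298) (.z (.edon 0 3 (.free 1 [0,1,2]) (.edon 0 12 (.node 4 9 (.leaf [3,4,10,8,5]) (.leaf [6,7,11,9])) (.node 18 19 (.leaf [18,20,22,21]) (.free 2 [12,13,14,15,16,17,19]))))), .t 9 (nat_lit 0xa02032d02b102b0029c0298064b0649) (.z (.edon 0 3 (.free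 1 [0,1,2]) (.edon 0 12 (.edon 7 8 (.leaf [7,11,10,9]) (.leaf [3,4,6,8,5])) (.node 18 19 (.leaf [18,20,22,21]) (.free 2 [12,13,14,15,16,17,19]))))), .t 1 (nat_lit 0) (.cn 2 2), .t 1 (nat_lit 0) (.cn 1 3), .t 9 (nat_lit 0x34a036b036703550351000204020400) (.z (.edon 0 16 (.node 0 12 (.leaf [0,13,14,15]) (.edon 7 10 (.leaf [7,11,12]) (.edon 4 6 (.leaf [4,5,10,9,8]) (.leaf [1,3,6,2])))) (.free 2 [16,17,18,19,20,21,22]))), .t 6 (nat_lit 0xa0201b601b5053a0537) (.z (.node 2 4 (.edon 0 12 (.edon 5 10 (.leaf [5,7,11,9]) (.leaf [0,2,6,8,10])) (.node 18 19 (.leaf [18,20,22,21]) (.free 2 [12,13,14,15,16,17,19]))) (.free 1 [1,3,4]))), .t 9 (nat_lit 0x3a303c503c203af03aa040204000001) (.z (.edon 0 16 (.node 0 12 (.leaf [0,13,14,15]) (.edon 7 10 (.leaf [7,11,12]) (.node 3 8 (.leaf [1,3,5,2]) (.leaf [4,6,10,9,8])))) (.free 2 [16,17,18,19,20,21,22]))), .t 6 (nat_lit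 0x1b601b500cd00cb0020) (.z (.edon 0 16 (.node 0 12 (.leaf [0,13,14,15]) (.edon 3 8 (.free 2 [3,4,5,7,9,11,12]) (.leaf [1,6,8,10,2]))) (.free 2 [16,17,18,19,20,21,22]))), .t 15 (nat_lit 0x8cb0332032e032908eb08e808d508d303ae03ab0354035209030902) (.z (.node 0 3 (.node 5 12 (.node 0 10 (.node 0 16 (.free 2 [0,17,18,19,20,21,22]) (.leaf [11,14,15,16,13])) (.leaf [4,5,8,10,6])) (.leaf [7,9,12])) (.free 1 [1,2,3]))), .t 6 (nat_lit 0x9ba01b601b5053a0537) (.z (.node 2 4 (.edon 0 12 (.edon 5 8 (.leaf [5,7,11,9]) (.leaf [0,2,6,8,10])) (.node 13 19 (.leaf [13,20,22,21]) (.free 2 [12,14,15,16,17,18,19]))) (.free 1 [1,3,4]))), .t 1 (nat_lit 0) (.cp 1 3), .t 9 (nat_lit 0x5330540053d053a053709ba05790577) (.z (.node 2 4 (.edon 0 12 (.edon 5 8 (.leaf [5,7,11,10,9]) (.leaf [0,2,6,8])) (.node 13 19 (.leaf [13,20,22,21]) (.free 2 [12,14,15,16,17,18,19]))) (.free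 1 [1,3,4]))), .t 9 (nat_lit 0x60e0609060609ba064b064606260624) (.z (.edon 0 7 (.free 2 [0,1,2,3,4,5,6]) (.edon 0 12 (.leaf [7,9,11,10,8]) (.node 13 19 (.leaf [13,20,22,21]) (.free 2 [12,14,15,16,17,18,19]))))), .t 6 (nat_lit 0x9ba0184018305ac05ab) (.z (.node 2 4 (.edon 0 12 (.edon 6 8 (.leaf [6,7,9,11]) (.leaf [0,2,5,8,10])) (.node 13 19 (.leaf [13,20,22,21]) (.free 2 [12,14,15,16,17,18,19]))) (.free 1 [1,3,4]))), .t 9 (nat_lit 0x9ba032d02b102b0029c0298064b0649) (.z (.edon 0 3 (.free 1 [0,1,2]) (.edon 0 12 (.edon 7 8 (.leaf [7,11,10,9]) (.leaf [3,4,6,8,5])) (.node 13 19 (.leaf [13,20,22,21]) (.free 2 [12,14,15,16,17,18,19]))))), .t 9 (nat_lit 0x3aa03a803a3040103fe03c403c30001) (.z (.edon 0 16 (.node 0 12 (.leaf [0,13,14,15]) (.edon 7 9 (.leaf [7,11,12]) (.node 3 8 (.leaf [1,3,5,2]) (.leaf [4,6,9,10,8])))) (.free 2 [16,17,18,19,20,21,22]))),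 .t 7 (nat_lit 0x713070e0159003c00050002) (.z (.edon 0 16 (.node 0 12 (.leaf [0,13,14,15]) (.node 7 8 (.edon 4 6 (.leaf [4,5,7]) (.leaf [1,3,6,10,2])) (.leaf [8,9,12,11]))) (.free 2 [16,17,18,19,20,21,22]))), .t 9 (nat_lit 0x5640421041c0382037e035b03590002) (.z (.edon 0 16 (.node 0 12 (.leaf [0,13,14,15]) (.edon 7 11 (.leaf [7,9,12]) (.node 3 10 (.leaf [1,3,6,2]) (.leaf [4,5,8,11,10])))) (.free 2 [16,17,18,19,20,21,22]))), .t 7 (nat_lit 0x713070e0159003c00050002) (.z (.edon 0 16 (.node 0 12 (.leaf [0,13,14,15]) (.node 7 11 (.edon 4 6 (.leaf [4,5,7]) (.leaf [1,3,6,10,2])) (.leaf [8,9,12,11]))) (.free 2 [16,17,18,19,20,21,22]))), .t 9 (nat_lit 0x5640421041c0382037e035b03590002) (.z (.edon 0 16 (.node 0 12 (.leaf [0,13,14,15]) (.edon 7 8 (.leaf [7,9,12]) (.node 3 10 (.leaf [1,3,6,2]) (.leaf [4,5,8,11,10])))) (.free 2 [16,17,18,19,20,21,22])))]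 (by decide +kernel) (by decide +kernel)
theorem b87 : B 2784 2816 := Blk.of_chk [.t 7 (nat_lit 0x713070e0155003800050001) (.z (.edon 0 16 (.node 0 12 (.leaf [0,13,14,15]) (.node 7 11 (.edon 4 5 (.leaf [4,6,7]) (.leaf [1,3,5,10,2])) (.leaf [8,9,12,11]))) (.free 2 [16,17,18,19,20,21,22]))), .t 9 (nat_lit 0x105d40421041c03d603d203b403b2) (.z (.edon 0 16 (.node 0 12 (.leaf [0,13,14,15]) (.edon 7 8 (.leaf [7,9,12]) (.edon 4 5 (.leaf [4,6,8,11,10]) (.leaf [1,3,5,2])))) (.free 2 [16,17,18,19,20,21,22]))), .t 9 (nat_lit 0x105d40421041c03d603d203b403b2) (.z (.edon 0 16 (.node 0 12 (.leaf [0,13,14,15]) (.edon 7 11 (.leaf [7,9,12]) (.edon 4 5 (.leaf [4,6,8,11,10]) (.leaf [1,3,5,2])))) (.free 2 [16,17,18,19,20,21,22]))), .t 7 (nat_lit 0x713070e0155003800050001) (.z (.edon 0 16 (.node 0 12 (.leaf [0,13,14,15]) (.node 7 8 (.edon 4 5 (.leaf [4,6,7]) (.leaf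 [1,3,5,10,2])) (.leaf [8,9,12,11]))) (.free 2 [16,17,18,19,20,21,22]))), .t 1 (nat_lit 0) (.fa 3), .t 1 (nat_lit 0) (.cn 3 3), .t 1 (nat_lit 0) (.cn 2 3), .t 1 (nat_lit 0) (.cn 2 3), .t 8 (nat_lit 0x7210713070e07830781072d072c) (.z (.node 0 7 (.edon 0 16 (.edon 8 13 (.leaf [8,9,12,15,11]) (.leaf [0,10,13,14])) (.free 2 [16,17,18,19,20,21,22])) (.free 2 [1,2,3,4,5,6,7]))), .t 1 (nat_lit 0) (.cn 3 3), .t 15 (nat_lit 0x8b7059a08c308c008be08bb05a905a605a1059e08cf08cd05c305c1) (.z (.node 0 2 (.edon 0 6 (.leaf [0,3,4,5]) (.edon 0 11 (.leaf [6,7,10,9,8]) (.edon 0 16 (.leaf [11,12,15,14,13]) (.free 2 [16,17,18,19,20,21,22])))) (.free 1 [1,2]))), .t 10 (nat_lit 0x8b708c308c008be08bb08cf08cd060a0608) (.z (.edon 0 16 (.edon 0 7 (.free 2 [0,1,2,3,4,5,6]) (.edon 0 11 (.leaf [7,10,9,8]) (.leaf [11,12,15,14,13]))) (.free 2 [16,17,18,19,20,21,22]))), .t 1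 (nat_lit 0) (.fa 3), .t 1 (nat_lit 0) (.fa 3), .t 16 (nat_lit 0x34a0956036b036703550351097109700960095d00020402040009910990) (.z (.edon 0 20 (.node 0 12 (.node 0 17 (.leaf [0,18,19]) (.leaf [13,15,16,17,14])) (.edon 7 10 (.leaf [7,11,12]) (.edon 4 6 (.leaf [4,5,10,9,8]) (.leaf [1,3,6,2])))) (.free 1 [20,21,22]))), .t 10 (nat_lit 0x92808cf08ca08c308c008bd08bc060a0608) (.z (.edon 0 16 (.edon 0 7 (.free 2 [0,1,2,3,4,5,6]) (.edon 0 11 (.leaf [7,10,9,8]) (.leaf [11,12,13,15,14]))) (.free 2 [16,17,18,19,20,21,22]))), .t 1 (nat_lit 0) (.cn 3 2), .t 16 (nat_lit 0x3a3095603c503c203af03aa097109700960095d04020400000109910990) (.z (.edon 0 20 (.node 0 12 (.node 0 17 (.leaf [0,18,19]) (.leaf [13,15,16,17,14])) (.edon 7 10 (.leaf [7,11,12]) (.node 3 8 (.leaf [1,3,5,2]) (.leaf [4,6,10,9,8])))) (.free 1 [20,21,22]))), .t 5 (nat_lit 0x8510850073a0739) (.z (.node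 0 7 (.edon 0 16 (.node 9 13 (.leaf [0,8,9,14,15]) (.leaf [10,11,12,13])) (.free 2 [16,17,18,19,20,21,22])) (.free 2 [1,2,3,4,5,6,7]))), .t 16 (nat_lit 0x351034e034a0002040103fe036a036809bc0991098f097109700961095f) (.z (.edon 0 20 (.node 0 12 (.node 0 17 (.leaf [0,18,19]) (.leaf [13,16,17,15,14])) (.edon 4 6 (.node 5 12 (.leaf [4,5,9,10,8]) (.leaf [7,11,12])) (.leaf [1,3,6,2]))) (.free 1 [20,21,22]))), .t 8 (nat_lit 0x9c909c70a0205ad05aa01840183) (.z (.node 11 16 (.edon 0 14 (.node 4 9 (.node 2 4 (.leaf [0,2,5,8,10]) (.leaf [1,3,4])) (.leaf [6,7,11,9])) (.node 18 19 (.leaf [18,20,22,21]) (.leaf [14,17,19,15]))) (.free 1 [12,13,16]))), .t 8 (nat_lit 0x97f097c0a0205ad05aa01840183) (.z (.node 11 16 (.edon 0 13 (.node 4 9 (.node 2 4 (.leaf [0,2,5,8,10]) (.leaf [1,3,4])) (.leaf [6,7,11,9])) (.node 18 19 (.leaf [18,20,22,21]) (.leaf [13,17,19,14])))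 (.free 1 [12,15,16]))), .t 16 (nat_lit 0x9560351034e034a097109700960095d0002040103fe036a036809910990) (.z (.edon 0 20 (.node 0 12 (.node 0 17 (.leaf [0,18,19]) (.leaf [13,15,16,17,14])) (.edon 4 6 (.node 5 12 (.leaf [4,5,9,10,8]) (.leaf [7,11,12])) (.leaf [1,3,6,2]))) (.free 1 [20,21,22]))), .t 1 (nat_lit 0) (.cn 3 2), .t 1 (nat_lit 0) (.cn 2 3), .t 8 (nat_lit 0x7160713070e077d077b072a0729) (.z (.node 0 7 (.edon 0 16 (.node 10 13 (.leaf [0,10,14,15]) (.leaf [8,9,12,13,11])) (.free 2 [16,17,18,19,20,21,22])) (.free 2 [1,2,3,4,5,6,7]))), .t 8 (nat_lit 0x7210713070e07830781072d072c) (.z (.node 0 7 (.edon 0 16 (.node 10 15 (.leaf [0,10,13,14]) (.leaf [8,9,12,15,11])) (.free 2 [16,17,18,19,20,21,22])) (.free 2 [1,2,3,4,5,6,7]))), .t 9 (nat_lit 0xa0206f6064b0646062606210611060f) (.z (.edon 0 7 (.free 2 [0,1,2,3,4,5,6]) (.edon 0 12 (.leaf [7,8,9,11,10])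 (.node 18 19 (.leaf [18,20,22,21]) (.free 2 [12,13,14,15,16,17,19]))))), .t 8 (nat_lit 0x2270127012300320030095a0958) (.z (.node 1 12 (.node 0 11 (.node 0 16 (.free 2 [0,17,18,19,20,21,22]) (.leaf [13,16,15,14])) (.leaf [1,9,11,10,2])) (.free 2 [3,4,5,6,7,8,12]))), .t 1 (nat_lit 0) (.cn 2 3), .t 7 (nat_lit 0x71307110159003c00050002) (.z (.edon 0 16 (.node 0 12 (.leaf [0,13,14,15]) (.node 7 11 (.edon 4 6 (.leaf [4,5,7]) (.leaf [1,3,6,10,2])) (.leaf [8,12,11,9]))) (.free 2 [16,17,18,19,20,21,22]))), .t 5 (nat_lit 0x15e004700060005) (.z (.edon 0 16 (.node 0 12 (.leaf [0,13,14,15]) (.node 3 9 (.leaf [1,3,10,11,2]) (.free 2 [4,5,6,7,8,9,12]))) (.free 2 [16,17,18,19,20,21,22])))] (by decide +kernel) (by decide +kernel)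
theorem b88 : B 2816 2848 := Blk.of_chk [.t 6 (nat_lit 0xa0203390338060a0605) (.z (.node 0 3 (.edon 0 12 (.edon 7 11 (.leaf [7,8,10,9]) (.leaf [0,4,5,6,11])) (.node 18 19 (.leaf [18,20,22,21]) (.free 2 [12,13,14,15,16,17,19]))) (.free 1 [1,2,3]))), .t 6 (nat_lit 0xa020339033806090607) (.z (.node 0 3 (.edon 0 12 (.edon 7 11 (.leaf [7,8,9,10]) (.leaf [0,4,5,6,11])) (.node 18 19 (.leaf [18,20,22,21]) (.free 2 [12,13,14,15,16,17,19]))) (.free 1 [1,2,3]))), .t 12 (nat_lit 0x7f5077d077b072a0728071b07190159003c00050002) (.z (.edon 0 16 (.node 0 13 (.leaf [0,14,15]) (.node 7 11 (.edon 4 6 (.leaf [4,5,7]) (.leaf [1,3,6,10,2])) (.leaf [8,12,13,11,9]))) (.free 2 [16,17,18,19,20,21,22]))), .t 9 (nat_lit 0x6120a0206f606f4064b0649060a0608) (.z (.edon 0 7 (.free 2 [0,1,2,3,4,5,6]) (.edon 0 12 (.leaf [7,11,10,9,8]) (.node 18 19 (.leaf [18,20,22,21]) (.free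 2 [12,13,14,15,16,17,19]))))), .t 6 (nat_lit 0xa0201b301b20540053d) (.z (.node 2 4 (.edon 0 12 (.edon 5 8 (.leaf [5,7,11,10]) (.leaf [0,2,6,8,9])) (.node 18 19 (.leaf [18,20,22,21]) (.free 2 [12,13,14,15,16,17,19]))) (.free 1 [1,3,4]))), .t 6 (nat_lit 0xa020181018005b105ae) (.z (.node 2 4 (.edon 0 12 (.edon 6 8 (.leaf [6,7,11,10]) (.leaf [0,2,5,8,9])) (.node 18 19 (.leaf [18,20,22,21]) (.free 2 [12,13,14,15,16,17,19]))) (.free 1 [1,3,4]))), .t 8 (nat_lit 0x4f704f004ee0532052f050f050e) (.z (.node 2 4 (.edon 8 12 (.leaf [5,7,11,8,6]) (.free 4 [0,2,9,10,12,13,14,15,16,17,18,19,20,21,22])) (.free 1 [1,3,4]))), .t 9 (nat_lit 0x4f704f004ee0a020532052f050f050e) (.z (.node 2 4 (.edon 0 12 (.node 2 8 (.leaf [0,2,9,10]) (.leaf [5,7,11,8,6])) (.node 18 19 (.leaf [18,20,22,21]) (.free 2 [12,13,14,15,16,17,19]))) (.free 1 [1,3,4]))), .t 8 (nat_lit 0x5a50532052f050f050c04f904f8)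 (.z (.node 2 4 (.edon 8 12 (.leaf [5,6,7,11,8]) (.free 4 [0,2,9,10,12,13,14,15,16,17,18,19,20,21,22])) (.free 1 [1,3,4]))), .t 9 (nat_lit 0xa0205a50532052f050f050c04f904f8) (.z (.node 2 4 (.edon 0 12 (.node 2 8 (.leaf [0,2,9,10]) (.leaf [5,6,7,11,8])) (.node 18 19 (.leaf [18,20,22,21]) (.free 2 [12,13,14,15,16,17,19]))) (.free 1 [1,3,4]))), .t 6 (nat_lit 0xa020191019005a505a2) (.z (.node 2 4 (.edon 0 12 (.edon 6 9 (.leaf [6,7,11,8]) (.leaf [0,2,5,9,10])) (.node 18 19 (.leaf [18,20,22,21]) (.free 2 [12,13,14,15,16,17,19]))) (.free 1 [1,3,4]))), .t 10 (nat_lit 0x7ba074907460712070f06fe06fc095a0958) (.z (.node 0 7 (.node 0 12 (.node 0 16 (.free 2 [0,17,18,19,20,21,22]) (.leaf [13,16,15,14])) (.leaf [8,11,12,10,9])) (.free 2 [1,2,3,4,5,6,7]))), .t 15 (nat_lit 0x92808cf08ca08c308c008bd08bc060a05c305be05a905a605a0059f) (.z (.node 0 2 (.edon 0 6 (.leaf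 [0,3,4,5]) (.edon 0 11 (.leaf [6,7,8,10,9]) (.edon 0 16 (.leaf [11,12,13,15,14]) (.free 2 [16,17,18,19,20,21,22])))) (.free 1 [1,2]))), .t 1 (nat_lit 0) (.fa 3), .t 17 (nat_lit 0x87e085f08c308be088808850883088008770874086808630892089008570856) (.z (.edon 0 16 (.edon 0 10 (.free 3 [0,1,2,3,4,5,6,7,8,9]) (.leaf [10,11,12,15,14,13])) (.free 2 [16,17,18,19,20,21,22]))), .t 10 (nat_lit 0x7ba074907460712070f06fe06fc09590956) (.z (.node 0 7 (.node 0 12 (.node 0 16 (.free 2 [0,17,18,19,20,21,22]) (.leaf [13,15,16,14])) (.leaf [8,11,12,10,9])) (.free 2 [1,2,3,4,5,6,7]))), .t 15 (nat_lit 0x8b708c308c008be08bb08cf08cd060a05c305be05a905a605a0059f) (.z (.node 0 2 (.edon 0 6 (.leaf [0,3,4,5]) (.edon 0 11 (.leaf [6,7,8,10,9]) (.edon 0 16 (.leaf [11,12,15,14,13]) (.free 2 [16,17,18,19,20,21,22])))) (.free 1 [1,2]))), .t 1 (nat_lit 0) (.cn 2 2), .t 1 (nat_lit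 0) (.cn 3 2), .t 5 (nat_lit 0x231023008c308c0) (.z (.edon 0 16 (.node 2 8 (.edon 11 13 (.leaf [11,12,15,14]) (.leaf [0,2,9,10,13])) (.free 2 [1,3,4,5,6,7,8])) (.free 2 [16,17,18,19,20,21,22]))), .t 17 (nat_lit 0x87408570854092808cf08c308bd08bc0892088e088808850882088108510850) (.z (.edon 0 16 (.edon 0 10 (.free 3 [0,1,2,3,4,5,6,7,8,9]) (.leaf [10,11,12,13,15,14])) (.free 2 [16,17,18,19,20,21,22]))), .t 17 (nat_lit 0x746070f07ca07c1075d075b074f074d072a0728071a0717077d077c07050703) (.z (.node 7 0 (.free 2 [1,2,3,4,5,6,7]) (.node 13 0 (.leaf [8,11,12,13,10,9]) (.free 3 [0,14,15,16,17,18,19,20,21,22])))), .t 1 (nat_lit 0) (.fa 3), .t 1 (nat_lit 0) (.fa 3), .t 1 (nat_lit 0) (.fa 3), .t 4 (nat_lit 0xa0201910190) (.z (.edon 12 1 (.edon 0 12 (.leaf [0,2,5,9,10]) (.node 18 19 (.leaf [18,20,22,21]) (.free 2 [12,13,14,15,16,17,19]))) (.free 2 [1,3,4,6,7,8,11]))),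 .t 8 (nat_lit 0x7460760075e075507530780077f) (.z (.node 0 7 (.edon 0 16 (.node 9 14 (.leaf [0,9,13,15]) (.leaf [8,11,12,14,10])) (.free 2 [16,17,18,19,20,21,22])) (.free 2 [1,2,3,4,5,6,7]))), .t 13 (nat_lit 0x956097109700960095d01e9010100fd002f002b09910990) (.z (.edon 0 20 (.node 0 12 (.node 0 17 (.leaf [0,18,19]) (.leaf [13,15,16,17,14])) (.node 1 12 (.leaf [1,8,10,9,2]) (.free 2 [3,4,5,6,7,11,12]))) (.free 1 [20,21,22]))), .t 8 (nat_lit 0x746075d075b074f074d077d077c) (.z (.node 0 7 (.edon 0 16 (.node 9 13 (.leaf [0,9,14,15]) (.leaf [8,11,12,13,10])) (.free 2 [16,17,18,19,20,21,22])) (.free 2 [1,2,3,4,5,6,7]))), .t 1 (nat_lit 0) (.cn 2 3), .t 1 (nat_lit 0) (.cn 2 3), .t 13 (nat_lit 0x892081f081a07e807e507db07da032e02b202af029c0298) (.z (.edon 0 16 (.edon 7 15 (.leaf [7,11,12]) (.edon 0 9 (.edon 0 3 (.leaf [0,1,2]) (.leaf [3,4,5,8,6])) (.leaf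 [9,10,13,15,14]))) (.free 2 [16,17,18,19,20,21,22])))] (by decide +kernel) (by decide +kernel)

end Pool.Agent.GCP.F8_12
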