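import Pool.Agent.GCP.F8_12Db

set_option autoImplicit false
set_option maxRecDepth 100000

/-! # Blocks F8_12B2 (generated) -/

namespace Pool.Agent.GCP.F8_12

open Pool.Agent.GCP DB

theorem b89 : B 2848 2880 := Blk.of_chk [.t 5 (nat_lit 0x7d607d507830782) (.z (.node 0 7 (.edon 0 16 (.edon 8 13 (.leaf [8,11,12,15]) (.leaf [0,9,10,13,14])) (.free 2 [16,17,18,19,20,21,22])) (.free 2 [1,2,3,4,5,6,7]))), .t 1 (nat_lit 0) (.cn 2 3), .t 1 (nat_lit 0) (.cn 2 3), .t 13 (nat_lit 0x892081f081a07e807e507db07da032d02b102b0029c0298) (.z (.edon 0 16 (.edon 7 15 (.leaf [7,11,12]) (.edon 0 9 (.edon 0 3 (.leaf [0,1,2]) (.leaf [3,4,6,8,5])) (.leaf [9,10,13,15,14]))) (.free 2 [16,17,18,19,20,21,22]))), .t 1 (nat_lit 0) (.cp 2 3), .t 1 (nat_lit 0) (.cp 2 3), .t 5 (nat_lit 0x7d607d507830782) (.z (.node 0 7 (.edon 8 16 (.leaf [8,11,12,15]) (.edon 0 16 (.leaf [0,9,10,13,14])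 (.free 2 [16,17,18,19,20,21,22]))) (.free 2 [1,2,3,4,5,6,7]))), .t 1 (nat_lit 0) (.cn 2 3), .t 1 (nat_lit 0) (.cn 2 3), .t 10 (nat_lit 0x746075d075b074f074d09bc09bb077d077c) (.z (.node 0 7 (.node 9 17 (.free 2 [0,9,18,19,20,21,22]) (.edon 0 14 (.leaf [8,11,12,13,10]) (.leaf [14,15,16,17]))) (.free 2 [1,2,3,4,5,6,7]))), .t 8 (nat_lit 0x8c307a407a30796079207830782) (.z (.node 0 7 (.edon 0 16 (.node 10 14 (.leaf [0,9,10,13]) (.leaf [8,11,12,15,14])) (.free 2 [16,17,18,19,20,21,22])) (.free 2 [1,2,3,4,5,6,7]))), .t 13 (nat_lit 0x7d907d707d4081e081b07e707e6032e02b202af029c0298) (.z (.edon 0 16 (.edon 7 15 (.leaf [7,11,12]) (.edon 0 9 (.edon 0 3 (.leaf [0,1,2]) (.leaf [3,4,5,8,6])) (.leaf [9,10,14,15,13]))) (.free 2 [16,17,18,19,20,21,22]))), .t 13 (nat_lit 0x7d907d707d4081e081b07e707e6032d02b102b0029c0298) (.z (.edon 0 16 (.edon 7 15 (.leaf [7,11,12]) (.edon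 0 9 (.edon 0 3 (.leaf [0,1,2]) (.leaf [3,4,6,8,5])) (.leaf [9,10,14,15,13]))) (.free 2 [16,17,18,19,20,21,22]))), .t 1 (nat_lit 0) (.cn 2 2), .t 10 (nat_lit 0x81b08290827082208210749074608350834) (.z (.node 0 7 (.node 0 16 (.free 2 [0,17,18,19,20,21,22]) (.node 9 12 (.leaf [9,14,15,16,13]) (.leaf [8,11,12,10]))) (.free 2 [1,2,3,4,5,6,7]))), .t 10 (nat_lit 0x9600749074609bc09bb0991099009590957) (.z (.node 0 7 (.node 9 12 (.edon 13 19 (.leaf [13,14,15,16,17]) (.free 2 [0,9,18,19,20,21,22])) (.leaf [8,11,12,10])) (.free 2 [1,2,3,4,5,6,7]))), .t 1 (nat_lit 0) (.cn 2 3), .t 10 (nat_lit 0x74607630761075907570783078208220821) (.z (.node 0 7 (.node 0 16 (.free 2 [0,17,18,19,20,21,22]) (.node 9 15 (.leaf [9,14,16,13]) (.leaf [8,11,12,15,10]))) (.free 2 [1,2,3,4,5,6,7]))), .t 13 (nat_lit 0x7e907e807e50835083307ee07ed032e02b202af029c0298) (.z (.edon 0 3 (.free 1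 [0,1,2]) (.node 5 12 (.edon 0 9 (.leaf [3,4,5,8,6]) (.node 13 16 (.free 2 [13,17,18,19,20,21,22]) (.leaf [9,10,15,16,14]))) (.leaf [7,11,12])))), .t 15 (nat_lit 0x7e907e807e50835083307ee07ed09af09ac032d02b102b0029c0298) (.z (.edon 0 20 (.edon 7 15 (.leaf [7,11,12]) (.edon 0 9 (.edon 0 3 (.leaf [0,1,2]) (.leaf [3,4,6,8,5])) (.node 13 16 (.leaf [13,17,19,18]) (.leaf [9,10,15,16,14])))) (.free 1 [20,21,22]))), .t 1 (nat_lit 0) (.cn 2 3), .t 8 (nat_lit 0x74c074a0745077d077b075d075c) (.z (.node 0 7 (.edon 0 16 (.node 9 13 (.leaf [0,9,14,15]) (.leaf [8,10,12,13,11])) (.free 2 [16,17,18,19,20,21,22])) (.free 2 [1,2,3,4,5,6,7]))), .t 5 (nat_lit 0x7fe07fd07630762) (.z (.node 0 7 (.edon 8 16 (.leaf [8,10,12,15]) (.edon 0 16 (.leaf [0,9,11,13,14]) (.free 2 [16,17,18,19,20,21,22]))) (.free 2 [1,2,3,4,5,6,7]))), .t 1 (nat_lit 0) (.cn 2 3), .t 1 (nat_lit 0) (.fa 2),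 .t 1 (nat_lit 0) (.cn 4 2), .t 1 (nat_lit 0) (.fa 3), .t 9 (nat_lit 0xa0206f5064a06470625062206120610) (.z (.edon 0 7 (.free 2 [0,1,2,3,4,5,6]) (.edon 0 12 (.leaf [7,10,11,9,8]) (.node 18 19 (.leaf [18,20,22,21]) (.free 2 [12,13,14,15,16,17,19]))))), .t 1 (nat_lit 0) (.fa 3), .t 9 (nat_lit 0xa02032d02b102b0029c0298064a0647) (.z (.edon 0 3 (.free 1 [0,1,2]) (.edon 0 12 (.edon 7 8 (.leaf [7,10,11,9]) (.leaf [3,4,6,8,5])) (.node 18 19 (.leaf [18,20,22,21]) (.free 2 [12,13,14,15,16,17,19]))))), .t 1 (nat_lit 0) (.fa 3), .t 1 (nat_lit 0) (.cn 2 2)] (by decide +kernel) (by decide +kernel)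
theorem b90 : B 2880 2912 := Blk.of_chk [.t 1 (nat_lit 0) (.cn 3 2), .t 9 (nat_lit 0x537053605330a0205780575053f053e) (.z (.node 2 4 (.edon 0 12 (.edon 5 8 (.leaf [5,7,10,11,9]) (.leaf [0,2,6,8])) (.node 18 19 (.leaf [18,20,22,21]) (.free 2 [12,13,14,15,16,17,19]))) (.free 1 [1,3,4]))), .t 6 (nat_lit 0xa0201b901b805360533) (.z (.node 2 4 (.edon 0 12 (.edon 5 11 (.leaf [5,7,10,9]) (.leaf [0,2,6,8,11])) (.node 18 19 (.leaf [18,20,22,21]) (.free 2 [12,13,14,15,16,17,19]))) (.free 1 [1,3,4]))), .t 1 (nat_lit 0) (.fa 4), .t 9 (nat_lit 0x358034e034a0002040804050371036f) (.z (.edon 0 16 (.node 0 12 (.leaf [0,13,14,15]) (.edon 7 11 (.leaf [7,10,12]) (.edon 4 6 (.leaf [4,5,9,11,8]) (.leaf [1,3,6,2])))) (.free 2 [16,17,18,19,20,21,22]))), .t 9 (nat_lit 0xa02032d02b102b0029c0298064b0646) (.z (.edon 0 3 (.free 1 [0,1,2]) (.edon 0 12 (.edon 7 8 (.leaf [7,9,11,10])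 (.leaf [3,4,6,8,5])) (.node 18 19 (.leaf [18,20,22,21]) (.free 2 [12,13,14,15,16,17,19]))))), .t 1 (nat_lit 0) (.cn 2 3), .t 1 (nat_lit 0) (.cn 4 2), .t 9 (nat_lit 0x3580355035100020420041d0381037f) (.z (.edon 0 16 (.node 0 12 (.leaf [0,13,14,15]) (.edon 7 11 (.leaf [7,9,12]) (.edon 4 6 (.leaf [4,5,10,11,8]) (.leaf [1,3,6,2])))) (.free 2 [16,17,18,19,20,21,22]))), .t 6 (nat_lit 0xa0201b901b805350534) (.z (.node 2 4 (.edon 0 12 (.edon 5 11 (.leaf [5,7,9,10]) (.leaf [0,2,6,8,11])) (.node 18 19 (.leaf [18,20,22,21]) (.free 2 [12,13,14,15,16,17,19]))) (.free 1 [1,3,4]))), .t 9 (nat_lit 0xa02032e02b202af029c0298064b0646) (.z (.edon 0 3 (.free 1 [0,1,2]) (.edon 0 12 (.edon 7 8 (.leaf [7,9,11,10]) (.leaf [3,4,5,8,6])) (.node 18 19 (.leaf [18,20,22,21]) (.free 2 [12,13,14,15,16,17,19]))))), .t 5 (nat_lit 0x157003a00030002) (.z (.node 8 0 (.edon 4 8 (.leaf [4,5,7])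 (.leaf [1,3,6,8,2])) (.free 4 [0,9,10,11,12,13,14,15,16,17,18,19,20,21,22]))), .t 4 (nat_lit 0xa0201d001cf) (.z (.edon 12 1 (.edon 0 12 (.leaf [0,2,6,10,11]) (.node 18 19 (.leaf [18,20,22,21]) (.free 2 [12,13,14,15,16,17,19]))) (.free 2 [1,3,4,5,7,8,9]))), .t 4 (nat_lit 0xa02019c019b) (.z (.edon 12 1 (.edon 0 12 (.leaf [0,2,5,10,11]) (.node 18 19 (.leaf [18,20,22,21]) (.free 2 [12,13,14,15,16,17,19]))) (.free 2 [1,3,4,6,7,8,9]))), .t 9 (nat_lit 0xa020536053303b503b302eb02e9029c) (.z (.edon 0 3 (.free 1 [0,1,2]) (.edon 0 12 (.node 4 9 (.leaf [3,4,11,8,6]) (.leaf [5,7,10,9])) (.node 18 19 (.leaf [18,20,22,21]) (.free 2 [12,13,14,15,16,17,19]))))), .t 9 (nat_lit 0xa0205a905a6035c035a02cd02cb0298) (.z (.edon 0 3 (.free 1 [0,1,2]) (.edon 0 12 (.node 4 9 (.leaf [3,4,11,8,5]) (.leaf [6,7,10,9])) (.node 18 19 (.leaf [18,20,22,21]) (.free 2 [12,13,14,15,16,17,19]))))),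 .t 9 (nat_lit 0xa0205a805a7035c035a02cd02cb0298) (.z (.edon 0 3 (.free 1 [0,1,2]) (.edon 0 12 (.node 4 10 (.leaf [3,4,11,8,5]) (.leaf [6,7,9,10])) (.node 18 19 (.leaf [18,20,22,21]) (.free 2 [12,13,14,15,16,17,19]))))), .t 9 (nat_lit 0xa020535053403b503b302eb02e9029c) (.z (.edon 0 3 (.free 1 [0,1,2]) (.edon 0 12 (.node 4 10 (.leaf [3,4,11,8,6]) (.leaf [5,7,9,10])) (.node 18 19 (.leaf [18,20,22,21]) (.free 2 [12,13,14,15,16,17,19]))))), .t 6 (nat_lit 0xa0201b301b2053f053e) (.z (.node 2 4 (.edon 0 12 (.edon 5 8 (.leaf [5,7,10,11]) (.leaf [0,2,6,8,9])) (.node 18 19 (.leaf [18,20,22,21]) (.free 2 [12,13,14,15,16,17,19]))) (.free 1 [1,3,4]))), .t 6 (nat_lit 0xa020181018005b005af) (.z (.node 2 4 (.edon 0 12 (.edon 6 8 (.leaf [6,7,10,11]) (.leaf [0,2,5,8,9])) (.node 18 19 (.leaf [18,20,22,21]) (.free 2 [12,13,14,15,16,17,19]))) (.free 1 [1,3,4]))), .t 8 (nat_lit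 0x5a1052e052b0509050404f604f5) (.z (.node 2 4 (.edon 8 12 (.leaf [5,6,7,10,8]) (.free 4 [0,2,9,11,12,13,14,15,16,17,18,19,20,21,22])) (.free 1 [1,3,4]))), .t 8 (nat_lit 0x1ee010601030030002d09590956) (.z (.node 1 12 (.node 0 11 (.node 0 16 (.free 2 [0,17,18,19,20,21,22]) (.leaf [13,15,16,14])) (.leaf [1,8,11,9,2])) (.free 2 [3,4,5,6,7,10,12]))), .t 10 (nat_lit 0x8bb08ba08b708ce08cb08c208c101b301b2) (.z (.edon 0 16 (.edon 0 11 (.node 2 4 (.edon 5 8 (.leaf [5,7,10]) (.leaf [0,2,6,8,9])) (.leaf [1,3,4])) (.leaf [11,12,14,15,13])) (.free 2 [16,17,18,19,20,21,22]))), .t 8 (nat_lit 0x4f404f004ee052e052b05090507) (.z (.node 2 4 (.edon 8 12 (.leaf [5,7,10,8,6]) (.free 4 [0,2,9,11,12,13,14,15,16,17,18,19,20,21,22])) (.free 1 [1,3,4]))), .t 10 (nat_lit 0x6fa06f506f2074a07450713071109bc09bb) (.z (.node 0 7 (.node 0 12 (.edon 14 19 (.leaf [14,15,16,17]) (.free 2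 [0,13,18,19,20,21,22])) (.leaf [8,10,12,11,9])) (.free 2 [1,2,3,4,5,6,7]))), .t 9 (nat_lit 0x4f404f004ee0a02052e052b05090507) (.z (.node 2 4 (.edon 0 12 (.node 2 8 (.leaf [0,2,9,11]) (.leaf [5,7,10,8,6])) (.node 18 19 (.leaf [18,20,22,21]) (.free 2 [12,13,14,15,16,17,19]))) (.free 1 [1,3,4]))), .t 10 (nat_lit 0x6fa06f506f2074a07450713071109590956) (.z (.node 0 7 (.node 0 12 (.node 0 16 (.free 2 [0,17,18,19,20,21,22]) (.leaf [13,15,16,14])) (.leaf [8,10,12,11,9])) (.free 2 [1,2,3,4,5,6,7]))), .t 10 (nat_lit 0x8b708c308c008be08bb08cf08cd01b301b2) (.z (.edon 0 16 (.edon 0 11 (.node 2 4 (.edon 5 8 (.leaf [5,7,10]) (.leaf [0,2,6,8,9])) (.leaf [1,3,4])) (.leaf [11,12,15,14,13])) (.free 2 [16,17,18,19,20,21,22]))), .t 1 (nat_lit 0) (.cn 2 3), .t 1 (nat_lit 0) (.cp 2 3), .t 1 (nat_lit 0) (.fa 2), .t 1 (nat_lit 0) (.cn 2 3)] (by decide +kernel) (by decide +kernel)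
theorem b91 : B 2912 2944 := Blk.of_chk [.t 1 (nat_lit 0) (.cn 3 2), .t 10 (nat_lit 0x92808cf08ca08c308c008bd08bc01b301b2) (.z (.edon 0 16 (.edon 0 11 (.node 2 4 (.edon 5 8 (.leaf [5,7,10]) (.leaf [0,2,6,8,9])) (.leaf [1,3,4])) (.leaf [11,12,13,15,14])) (.free 2 [16,17,18,19,20,21,22]))), .t 17 (nat_lit 0x6fa07c2074c074a0745072807130704070207f5077d077b075d075c071b0719) (.z (.node 7 0 (.free 2 [1,2,3,4,5,6,7]) (.node 13 0 (.leaf [8,10,12,13,11,9]) (.free 3 [0,14,15,16,17,18,19,20,21,22])))), .t 10 (nat_lit 0x92808cf08ca08c308c008bd08bc01810180) (.z (.edon 0 16 (.edon 0 11 (.node 2 4 (.edon 6 8 (.leaf [6,7,10]) (.leaf [0,2,5,8,9])) (.leaf [1,3,4])) (.leaf [11,12,13,15,14])) (.free 2 [16,17,18,19,20,21,22]))), .t 1 (nat_lit 0) (.cn 2 3), .t 10 (nat_lit 0x956097109700960095d074a074509910990) (.z (.node 0 7 (.node 9 12 (.edon 14 19 (.leaf [13,15,16,17,14])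 (.free 2 [0,9,18,19,20,21,22])) (.leaf [8,10,12,11])) (.free 2 [1,2,3,4,5,6,7]))), .t 10 (nat_lit 0x820081f081a074a07450835083308290828) (.z (.node 0 7 (.node 0 16 (.free 2 [0,17,18,19,20,21,22]) (.node 9 12 (.leaf [9,13,15,16,14]) (.leaf [8,10,12,11]))) (.free 2 [1,2,3,4,5,6,7]))), .t 10 (nat_lit 0x74c074a074509bc09bb077d077b075d075c) (.z (.node 0 7 (.node 9 17 (.free 2 [0,9,18,19,20,21,22]) (.edon 0 14 (.leaf [8,10,12,13,11]) (.leaf [14,15,16,17]))) (.free 2 [1,2,3,4,5,6,7]))), .t 5 (nat_lit 0x7fe07fd07630762) (.z (.node 0 7 (.edon 0 16 (.edon 8 13 (.leaf [8,10,12,15]) (.leaf [0,9,11,13,14])) (.free 2 [16,17,18,19,20,21,22])) (.free 2 [1,2,3,4,5,6,7]))), .t 10 (nat_lit 0x8b708c308c008be08bb08cf08cd01810180) (.z (.edon 0 16 (.edon 0 11 (.node 2 4 (.edon 6 8 (.leaf [6,7,10]) (.leaf [0,2,5,8,9])) (.leaf [1,3,4])) (.leaf [11,12,15,14,13])) (.free 2 [16,17,18,19,20,21,22]))),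 .t 10 (nat_lit 0x960074a074509bc09bb0991099009590957) (.z (.node 0 7 (.node 9 12 (.edon 13 19 (.leaf [13,14,15,16,17]) (.free 2 [0,9,18,19,20,21,22])) (.leaf [8,10,12,11])) (.free 2 [1,2,3,4,5,6,7]))), .t 10 (nat_lit 0x756074a0745078307810763076208220821) (.z (.node 0 7 (.node 0 16 (.free 2 [0,17,18,19,20,21,22]) (.node 9 15 (.leaf [9,14,16,13]) (.leaf [8,10,12,15,11]))) (.free 2 [1,2,3,4,5,6,7]))), .t 13 (nat_lit 0x8080806080408350833080e080d032e02b202af029c0298) (.z (.edon 0 3 (.free 1 [0,1,2]) (.node 5 12 (.edon 0 9 (.leaf [3,4,5,8,6]) (.node 13 16 (.free 2 [13,17,18,19,20,21,22]) (.leaf [9,11,15,16,14]))) (.leaf [7,10,12])))), .t 10 (nat_lit 0x81b0829082708220821074a074508350834) (.z (.node 0 7 (.node 0 16 (.free 2 [0,17,18,19,20,21,22]) (.node 9 12 (.leaf [9,14,15,16,13]) (.leaf [8,10,12,11]))) (.free 2 [1,2,3,4,5,6,7]))), .t 1 (nat_lit 0) (.cp 2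 3), .t 8 (nat_lit 0x88807a407a30776077307630762) (.z (.node 0 7 (.edon 0 16 (.edon 8 13 (.leaf [8,10,12,15,14]) (.leaf [0,9,11,13])) (.free 2 [16,17,18,19,20,21,22])) (.free 2 [1,2,3,4,5,6,7]))), .t 13 (nat_lit 0x80808060804032d02b102b0029c029808350833080e080d) (.z (.edon 0 3 (.free 1 [0,1,2]) (.node 11 12 (.node 13 16 (.free 2 [13,17,18,19,20,21,22]) (.leaf [9,11,15,16,14])) (.edon 7 8 (.leaf [7,10,12]) (.leaf [3,4,6,8,5]))))), .t 5 (nat_lit 0x154003700040001) (.z (.edon 0 16 (.node 0 12 (.leaf [0,13,14,15]) (.node 3 11 (.leaf [1,3,5,9,2]) (.free 2 [4,6,7,8,10,11,12]))) (.free 2 [16,17,18,19,20,21,22]))), .t 15 (nat_lit 0x9de09af09ac098a0986097f097d05a1059e0372037002d402d30299) (.z (.edon 0 20 (.edon 0 3 (.leaf [0,1,2]) (.edon 0 12 (.node 4 8 (.leaf [3,4,11,9,5]) (.leaf [6,7,10,8])) (.node 14 16 (.leaf [13,14,17,19,18]) (.leaf [12,15,16])))) (.free 1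 [20,21,22]))), .t 10 (nat_lit 0x8bb08ba08b708ce08cb08c208c101810180) (.z (.edon 0 16 (.edon 0 11 (.node 2 4 (.edon 6 8 (.leaf [6,7,10]) (.leaf [0,2,5,8,9])) (.leaf [1,3,4])) (.leaf [11,12,14,15,13])) (.free 2 [16,17,18,19,20,21,22]))), .t 1 (nat_lit 0) (.cn 3 2), .t 1 (nat_lit 0) (.cn 2 3), .t 8 (nat_lit 0x226012601240032003009bc09bb) (.z (.node 1 12 (.node 0 11 (.edon 14 19 (.leaf [14,15,16,17]) (.free 2 [0,13,18,19,20,21,22])) (.leaf [1,10,11,9,2])) (.free 2 [3,4,5,6,7,8,12]))), .t 13 (nat_lit 0x956097109700960095d0226012601240032003009910990) (.z (.edon 0 20 (.node 0 12 (.node 0 17 (.leaf [0,18,19]) (.leaf [13,15,16,17,14])) (.node 1 12 (.leaf [1,10,11,9,2]) (.free 2 [3,4,5,6,7,8,12]))) (.free 1 [20,21,22]))), .t 8 (nat_lit 0x92807ad07ab07a407a307a107a0) (.z (.node 0 7 (.edon 0 16 (.edon 8 11 (.leaf [8,12,13,15,14]) (.leaf [0,9,10,11])) (.free 2 [16,17,18,19,20,21,22]))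 (.free 2 [1,2,3,4,5,6,7]))), .t 8 (nat_lit 0x22701270123003200300991098f) (.z (.node 1 12 (.node 0 11 (.edon 15 19 (.leaf [13,16,17,15]) (.free 2 [0,14,18,19,20,21,22])) (.leaf [1,9,11,10,2])) (.free 2 [3,4,5,6,7,8,12]))), .t 8 (nat_lit 0x227012701230032003009590956) (.z (.node 1 12 (.node 0 11 (.node 0 16 (.free 2 [0,17,18,19,20,21,22]) (.leaf [13,15,16,14])) (.leaf [1,9,11,10,2])) (.free 2 [3,4,5,6,7,8,12]))), .t 8 (nat_lit 0x227012701230032003009bc09bb) (.z (.node 1 12 (.node 0 11 (.edon 14 19 (.leaf [14,15,16,17]) (.free 2 [0,13,18,19,20,21,22])) (.leaf [1,9,11,10,2])) (.free 2 [3,4,5,6,7,8,12]))), .t 8 (nat_lit 0x2260126012400320030095a0958) (.z (.node 1 12 (.node 0 11 (.node 0 16 (.free 2 [0,17,18,19,20,21,22]) (.leaf [13,16,15,14])) (.leaf [1,10,11,9,2])) (.free 2 [3,4,5,6,7,8,12]))), .t 9 (nat_lit 0x9590956074a07480158003b00040002) (.z (.node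 16 0 (.edon 0 13 (.node 7 11 (.edon 4 6 (.leaf [4,5,7]) (.leaf [1,3,6,9,2])) (.leaf [8,12,11,10])) (.leaf [13,15,16,14])) (.free 2 [0,17,18,19,20,21,22]))), .t 9 (nat_lit 0x158003b00040002074a074809bc09bb) (.z (.edon 8 4 (.node 0 12 (.edon 14 19 (.leaf [14,15,16,17]) (.free 2 [0,13,18,19,20,21,22])) (.edon 8 9 (.leaf [8,12,11,10]) (.leaf [1,3,6,9,2]))) (.free 1 [4,5,7]))), .t 7 (nat_lit 0x74a07480158003b00040002) (.z (.edon 0 16 (.node 0 12 (.leaf [0,13,14,15]) (.node 7 11 (.edon 4 6 (.leaf [4,5,7]) (.leaf [1,3,6,9,2])) (.leaf [8,12,11,10]))) (.free 2 [16,17,18,19,20,21,22])))] (by decide +kernel) (by decide +kernel)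
theorem b92 : B 2944 2976 := Blk.of_chk [.t 12 (nat_lit 0x851077d077b075d075b0750074e0158003b00040002) (.z (.edon 0 16 (.node 0 13 (.leaf [0,14,15]) (.node 7 11 (.edon 4 6 (.leaf [4,5,7]) (.leaf [1,3,6,9,2])) (.leaf [8,12,13,11,10]))) (.free 2 [16,17,18,19,20,21,22]))), .t 9 (nat_lit 0x95a09580331033002b702b602970032) (.z (.node 16 0 (.edon 0 13 (.node 1 9 (.leaf [1,10,11,2]) (.edon 7 9 (.leaf [7,8,12]) (.leaf [3,4,5,6,9]))) (.leaf [13,16,15,14])) (.free 2 [0,17,18,19,20,21,22]))), .t 9 (nat_lit 0x95a0958071307110159003c00050002) (.z (.node 16 0 (.edon 0 13 (.node 7 9 (.edon 4 6 (.leaf [4,5,7]) (.leaf [1,3,6,10,2])) (.leaf [8,12,11,9])) (.leaf [13,16,15,14])) (.free 2 [0,17,18,19,20,21,22]))), .t 10 (nat_lit 0x928092604f004ee046b031c031802ac02aa) (.z (.edon 0 16 (.edon 0 3 (.leaf [0,1,2]) (.edon 0 12 (.node 4 6 (.leaf [3,4,9,11,10]) (.leaf [5,7,8,6]))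 (.leaf [12,15,14,13]))) (.free 2 [16,17,18,19,20,21,22]))), .t 9 (nat_lit 0x331033002b702b60297003209bc09bb) (.z (.node 5 12 (.node 0 11 (.edon 14 19 (.leaf [14,15,16,17]) (.free 2 [0,13,18,19,20,21,22])) (.node 1 9 (.leaf [1,10,11,2]) (.leaf [3,4,5,6,9]))) (.free 1 [7,8,12]))), .t 9 (nat_lit 0xa0204f004ee046b031c031802ac02aa) (.z (.edon 0 3 (.free 1 [0,1,2]) (.edon 0 12 (.node 4 6 (.leaf [3,4,9,11,10]) (.leaf [5,7,8,6])) (.node 18 19 (.leaf [18,20,22,21]) (.free 2 [12,13,14,15,16,17,19]))))), .t 6 (nat_lit 0xa02033503340612060d) (.z (.node 0 3 (.edon 0 12 (.edon 7 10 (.leaf [7,8,11,9]) (.leaf [0,4,5,6,10])) (.node 18 19 (.leaf [18,20,22,21]) (.free 2 [12,13,14,15,16,17,19]))) (.free 1 [1,2,3]))), .t 12 (nat_lit 0x956097109700960095d015e00470006000509910990) (.z (.edon 0 20 (.node 0 12 (.node 0 17 (.leaf [0,18,19]) (.leaf [13,15,16,17,14])) (.node 3 9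 (.leaf [1,3,10,11,2]) (.free 2 [4,5,6,7,8,9,12]))) (.free 1 [20,21,22]))), .t 6 (nat_lit 0xa0201b301b20540053d) (.z (.node 2 4 (.edon 0 12 (.edon 5 9 (.leaf [5,7,11,10]) (.leaf [0,2,6,8,9])) (.node 18 19 (.leaf [18,20,22,21]) (.free 2 [12,13,14,15,16,17,19]))) (.free 1 [1,3,4]))), .t 6 (nat_lit 0xa020181018005b105ae) (.z (.node 2 4 (.edon 0 12 (.edon 6 9 (.leaf [6,7,11,10]) (.leaf [0,2,5,8,9])) (.node 18 19 (.leaf [18,20,22,21]) (.free 2 [12,13,14,15,16,17,19]))) (.free 1 [1,3,4]))), .t 16 (nat_lit 0x3a303c503c203af03aa04020400000109bc0991098f097109700961095f) (.z (.edon 0 20 (.node 0 12 (.node 0 17 (.leaf [0,18,19]) (.leaf [13,16,17,15,14])) (.edon 7 10 (.leaf [7,11,12]) (.node 3 8 (.leaf [1,3,5,2]) (.leaf [4,6,10,9,8])))) (.free 1 [20,21,22]))), .t 16 (nat_lit 0x34a036b03670355035104020400000209bc0991098f097109700961095f) (.z (.edon 0 20 (.node 0 12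 (.node 0 17 (.leaf [0,18,19]) (.leaf [13,16,17,15,14])) (.edon 7 10 (.leaf [7,11,12]) (.node 3 8 (.leaf [1,3,6,2]) (.leaf [4,5,10,9,8])))) (.free 1 [20,21,22]))), .t 1 (nat_lit 0) (.fa 3), .t 1 (nat_lit 0) (.cn 2 2), .t 1 (nat_lit 0) (.cn 2 2), .t 8 (nat_lit 0x18a056f056e0214021301870186) (.z (.edon 1 12 (.free 2 [1,3,4,6,7,9,10]) (.edon 0 13 (.leaf [0,2,5,8,11,12]) (.free 3 [13,14,15,16,17,18,19,20,21,22])))), .t 9 (nat_lit 0x3b103af03aa0420041d03d503d30001) (.z (.edon 0 16 (.node 0 12 (.leaf [0,13,14,15]) (.edon 7 10 (.leaf [7,9,12]) (.node 3 8 (.leaf [1,3,5,2]) (.leaf [4,6,10,11,8])))) (.free 2 [16,17,18,19,20,21,22]))), .t 4 (nat_lit 0x9ba06f506f3) (.z (.node 0 7 (.edon 0 12 (.leaf [0,8,9,10,11]) (.node 13 19 (.leaf [13,20,22,21]) (.free 2 [12,14,15,16,17,18,19]))) (.free 2 [1,2,3,4,5,6,7]))), .t 9 (nat_lit 0x3b103af03aa00010420041d03d503d3) (.z (.edon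 0 16 (.node 0 12 (.leaf [0,13,14,15]) (.edon 7 10 (.leaf [7,9,12]) (.edon 4 5 (.leaf [4,6,10,11,8]) (.leaf [1,3,5,2])))) (.free 2 [16,17,18,19,20,21,22]))), .t 9 (nat_lit 0x59e059d059a09ba05c205bf05a805a7) (.z (.node 2 4 (.edon 0 12 (.node 5 8 (.leaf [0,2,5,11]) (.leaf [6,7,9,10,8])) (.node 13 19 (.leaf [13,20,22,21]) (.free 2 [12,14,15,16,17,18,19]))) (.free 1 [1,3,4]))), .t 4 (nat_lit 0x9ba01b901b8) (.z (.edon 12 1 (.edon 0 12 (.leaf [0,2,6,8,11]) (.node 13 19 (.leaf [13,20,22,21]) (.free 2 [12,14,15,16,17,18,19]))) (.free 2 [1,3,4,5,7,9,10]))), .t 9 (nat_lit 0x358034e034a040804050371036f0002) (.z (.edon 0 16 (.node 0 12 (.leaf [0,13,14,15]) (.edon 7 9 (.leaf [7,10,12]) (.node 3 8 (.leaf [1,3,6,2]) (.leaf [4,5,9,11,8])))) (.free 2 [16,17,18,19,20,21,22]))), .t 9 (nat_lit 0x5370536053309ba05780575053f053e) (.z (.node 2 4 (.edon 0 12 (.edon 5 8 (.leaf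 [5,7,10,11,9]) (.leaf [0,2,6,8])) (.node 13 19 (.leaf [13,20,22,21]) (.free 2 [12,14,15,16,17,18,19]))) (.free 1 [1,3,4]))), .t 9 (nat_lit 0x358034e034a0002040804050371036f) (.z (.edon 0 16 (.node 0 12 (.leaf [0,13,14,15]) (.edon 7 9 (.leaf [7,10,12]) (.edon 4 6 (.leaf [4,5,9,11,8]) (.leaf [1,3,6,2])))) (.free 2 [16,17,18,19,20,21,22]))), .t 7 (nat_lit 0x9ba092208ff08fe060a0608) (.z (.edon 0 7 (.free 2 [0,1,2,3,4,5,6]) (.edon 0 11 (.leaf [7,10,9,8]) (.node 13 19 (.leaf [11,13,20,22,21]) (.free 2 [12,14,15,16,17,18,19]))))), .t 9 (nat_lit 0x3b103a803a300010408040503c903c7) (.z (.edon 0 16 (.node 0 12 (.leaf [0,13,14,15]) (.edon 7 9 (.leaf [7,10,12]) (.edon 4 5 (.leaf [4,6,9,11,8]) (.leaf [1,3,5,2])))) (.free 2 [16,17,18,19,20,21,22]))), .t 9 (nat_lit 0x9ba032d02b102b0029c0298064a0647) (.z (.edon 0 3 (.free 1 [0,1,2]) (.edon 0 12 (.edon 7 8 (.leaf [7,10,11,9])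 (.leaf [3,4,6,8,5])) (.node 13 19 (.leaf [13,20,22,21]) (.free 2 [12,14,15,16,17,18,19]))))), .t 9 (nat_lit 0x59a05a905a605a1059e09ba05c305c1) (.z (.node 2 4 (.edon 0 12 (.node 5 8 (.leaf [0,2,5,11]) (.leaf [6,7,10,9,8])) (.node 13 19 (.leaf [13,20,22,21]) (.free 2 [12,14,15,16,17,18,19]))) (.free 1 [1,3,4]))), .t 6 (nat_lit 0x9ba01b901b805360533) (.z (.node 2 4 (.edon 0 12 (.edon 5 8 (.leaf [5,7,10,9]) (.leaf [0,2,6,8,11])) (.node 13 19 (.leaf [13,20,22,21]) (.free 2 [12,14,15,16,17,18,19]))) (.free 1 [1,3,4]))), .t 6 (nat_lit 0x9ba01b901b805360533) (.z (.node 2 4 (.edon 0 12 (.edon 5 11 (.leaf [5,7,10,9]) (.leaf [0,2,6,8,11])) (.node 13 19 (.leaf [13,20,22,21]) (.free 2 [12,14,15,16,17,18,19]))) (.free 1 [1,3,4]))), .t 9 (nat_lit 0x9ba032d02b102b0029c0298064b0646) (.z (.edon 0 3 (.free 1 [0,1,2]) (.edon 0 12 (.edon 7 8 (.leaf [7,9,11,10]) (.leaf [3,4,6,8,5]))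 (.node 13 19 (.leaf [13,20,22,21]) (.free 2 [12,14,15,16,17,18,19]))))), .t 7 (nat_lit 0xa0109ba09b409b308c308c0) (.z (.node 0 7 (.edon 0 11 (.leaf [0,8,9,10]) (.edon 14 16 (.leaf [11,12,15,14]) (.node 17 19 (.leaf [13,17,20,22,21]) (.leaf [16,18,19])))) (.free 2 [1,2,3,4,5,6,7])))] (by decide +kernel) (by decide +kernel)
theorem b93 : B 2976 3008 := Blk.of_chk [.t 9 (nat_lit 0x9ba064b057905740540053d05390538) (.z (.node 2 4 (.edon 0 12 (.edon 5 8 (.leaf [5,7,9,11,10]) (.leaf [0,2,6,8])) (.node 13 19 (.leaf [13,20,22,21]) (.free 2 [12,14,15,16,17,18,19]))) (.free 1 [1,3,4]))), .t 6 (nat_lit 0xa0101b601b505390538) (.z (.node 2 4 (.edon 0 12 (.edon 5 8 (.leaf [5,7,9,11]) (.leaf [0,2,6,8,10])) (.node 17 19 (.leaf [17,20,22,21]) (.free 2 [12,13,14,15,16,18,19]))) (.free 1 [1,3,4]))), .t 9 (nat_lit 0xa01032e02b202af029c0298064b0646) (.z (.edon 0 3 (.free 1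 [0,1,2]) (.edon 0 12 (.edon 7 8 (.leaf [7,9,11,10]) (.leaf [3,4,5,8,6])) (.node 17 19 (.leaf [17,20,22,21]) (.free 2 [12,13,14,15,16,18,19]))))), .t 9 (nat_lit 0xa01032d02b102b0029c0298064b0646) (.z (.edon 0 3 (.free 1 [0,1,2]) (.edon 0 12 (.edon 7 8 (.leaf [7,9,11,10]) (.leaf [3,4,6,8,5])) (.node 17 19 (.leaf [17,20,22,21]) (.free 2 [12,13,14,15,16,18,19]))))), .t 6 (nat_lit 0xa010184018305ac05ab) (.z (.node 2 4 (.edon 0 12 (.edon 6 8 (.leaf [6,7,9,11]) (.leaf [0,2,5,8,10])) (.node 17 19 (.leaf [17,20,22,21]) (.free 2 [12,13,14,15,16,18,19]))) (.free 1 [1,3,4]))), .t 6 (nat_lit 0xa010184018305ad05aa) (.z (.node 2 4 (.edon 0 12 (.edon 6 8 (.leaf [6,7,11,9]) (.leaf [0,2,5,8,10])) (.node 17 19 (.leaf [17,20,22,21]) (.free 2 [12,13,14,15,16,18,19]))) (.free 1 [1,3,4]))), .t 6 (nat_lit 0xa010184018305ad05aa) (.z (.node 2 4 (.edon 0 12 (.edon 6 10 (.leaf [6,7,11,9])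 (.leaf [0,2,5,8,10])) (.node 17 19 (.leaf [17,20,22,21]) (.free 2 [12,13,14,15,16,18,19]))) (.free 1 [1,3,4]))), .t 6 (nat_lit 0xa01053a053701b601b5) (.z (.node 2 4 (.edon 0 12 (.node 8 9 (.leaf [0,2,6,8,10]) (.leaf [5,7,11,9])) (.node 17 19 (.leaf [17,20,22,21]) (.free 2 [12,13,14,15,16,18,19]))) (.free 1 [1,3,4]))), .t 6 (nat_lit 0xa0101b301b20540053d) (.z (.node 2 4 (.edon 0 12 (.edon 5 9 (.leaf [5,7,11,10]) (.leaf [0,2,6,8,9])) (.node 17 19 (.leaf [17,20,22,21]) (.free 2 [12,13,14,15,16,18,19]))) (.free 1 [1,3,4]))), .t 1 (nat_lit 0) (.cn 2 2), .t 9 (nat_lit 0xa0105b105ae034e034c02c102c00298) (.z (.edon 0 3 (.free 1 [0,1,2]) (.edon 0 12 (.node 4 10 (.leaf [3,4,9,8,5]) (.leaf [6,7,11,10])) (.node 17 19 (.leaf [17,20,22,21]) (.free 2 [12,13,14,15,16,18,19]))))), .t 9 (nat_lit 0xa010540053d03a803a602df02dd029c) (.z (.edon 0 3 (.free 1 [0,1,2]) (.edon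 0 12 (.node 4 10 (.leaf [3,4,9,8,6]) (.leaf [5,7,11,10])) (.node 17 19 (.leaf [17,20,22,21]) (.free 2 [12,13,14,15,16,18,19]))))), .t 9 (nat_lit 0xa0103a803a602df02dd029c0540053d) (.z (.edon 0 3 (.free 1 [0,1,2]) (.edon 0 12 (.edon 5 9 (.leaf [5,7,11,10]) (.leaf [3,4,9,8,6])) (.node 17 19 (.leaf [17,20,22,21]) (.free 2 [12,13,14,15,16,18,19]))))), .t 9 (nat_lit 0x5a605b105ae05ad05aa0a0105ee05ec) (.z (.node 2 4 (.edon 0 12 (.edon 6 8 (.leaf [6,7,11,10,9]) (.leaf [0,2,5,8])) (.node 17 19 (.leaf [17,20,22,21]) (.free 2 [12,13,14,15,16,18,19]))) (.free 1 [1,3,4]))), .t 9 (nat_lit 0xa0109ba09b409b308c308c0060a0608) (.z (.edon 0 7 (.free 2 [0,1,2,3,4,5,6]) (.edon 0 11 (.leaf [7,10,9,8]) (.edon 14 16 (.leaf [11,12,15,14]) (.node 17 19 (.leaf [13,17,20,22,21]) (.leaf [16,18,19])))))), .t 10 (nat_lit 0x8bb08ba08b708ce08cb08c208c1060a0608) (.z (.edon 0 16 (.edon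 0 7 (.free 2 [0,1,2,3,4,5,6]) (.edon 0 11 (.leaf [7,10,9,8]) (.leaf [11,12,14,15,13]))) (.free 2 [16,17,18,19,20,21,22]))), .t 9 (nat_lit 0xa0209ba09b909b808c308c0060a0608) (.z (.edon 0 7 (.free 2 [0,1,2,3,4,5,6]) (.edon 0 11 (.leaf [7,10,9,8]) (.edon 14 16 (.leaf [11,12,15,14]) (.node 18 19 (.leaf [13,18,20,22,21]) (.leaf [16,17,19])))))), .t 9 (nat_lit 0xa0209e809e609e508be08bb060a0608) (.z (.edon 0 7 (.free 2 [0,1,2,3,4,5,6]) (.edon 0 11 (.leaf [7,10,9,8]) (.edon 13 16 (.leaf [11,12,15,13]) (.node 18 19 (.leaf [14,18,20,22,21]) (.leaf [16,17,19])))))), .t 9 (nat_lit 0xa0109e809e209e108be08bb060a0608) (.z (.edon 0 7 (.free 2 [0,1,2,3,4,5,6]) (.edon 0 11 (.leaf [7,10,9,8]) (.edon 13 16 (.leaf [11,12,15,13]) (.node 17 19 (.leaf [14,17,20,22,21]) (.leaf [16,18,19])))))), .t 12 (nat_lit 0xa0209e809e609e5032d02b102b0029c0298064b0646) (.z (.edon 0 3 (.free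 1 [0,1,2]) (.edon 0 12 (.edon 7 8 (.leaf [7,9,11,10]) (.leaf [3,4,6,8,5])) (.edon 13 16 (.leaf [12,13,15]) (.node 18 19 (.leaf [14,18,20,22,21]) (.leaf [16,17,19])))))), .t 9 (nat_lit 0xa0209e809e609e50184018305ac05ab) (.z (.node 2 4 (.edon 0 12 (.edon 6 8 (.leaf [6,7,9,11]) (.leaf [0,2,5,8,10])) (.edon 13 16 (.leaf [12,13,15]) (.node 18 19 (.leaf [14,18,20,22,21]) (.leaf [16,17,19])))) (.free 1 [1,3,4]))), .t 12 (nat_lit 0xa0209e809e609e5032e02b202af029c0298064b0646) (.z (.edon 0 3 (.free 1 [0,1,2]) (.edon 0 12 (.edon 7 8 (.leaf [7,9,11,10]) (.leaf [3,4,5,8,6])) (.edon 13 16 (.leaf [12,13,15]) (.node 18 19 (.leaf [14,18,20,22,21]) (.leaf [16,17,19])))))), .t 13 (nat_lit 0x8d208cf08ca035502c802c402a6029a0903090108eb08e9) (.z (.node 5 12 (.node 0 10 (.node 0 16 (.free 2 [0,17,18,19,20,21,22]) (.leaf [11,13,15,16,14])) (.edon 3 6 (.leaf [3,4,5,10,8]) (.leaf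 [1,2,6]))) (.free 1 [7,9,12]))), .t 7 (nat_lit 0xa0209e809e609e506f506f3) (.z (.node 0 7 (.edon 0 12 (.leaf [0,8,9,10,11]) (.edon 13 16 (.leaf [12,13,15]) (.node 18 19 (.leaf [14,18,20,22,21]) (.leaf [16,17,19])))) (.free 2 [1,2,3,4,5,6,7]))), .t 8 (nat_lit 0x59e059d059a05c205bf05a805a7) (.z (.node 2 4 (.edon 8 12 (.leaf [6,7,9,10,8]) (.free 4 [0,2,5,11,12,13,14,15,16,17,18,19,20,21,22])) (.free 1 [1,3,4]))), .t 10 (nat_lit 0x9930713070e09eb09ea09a909a809910990) (.z (.node 0 7 (.node 10 12 (.edon 13 19 (.leaf [13,15,16,17,18]) (.free 2 [0,10,14,19,20,21,22])) (.leaf [8,9,12,11])) (.free 2 [1,2,3,4,5,6,7]))), .t 12 (nat_lit 0xa0209e809e609e506f6064b0646062606210611060f) (.z (.edon 0 7 (.free 2 [0,1,2,3,4,5,6]) (.edon 0 12 (.leaf [7,8,9,11,10]) (.edon 13 16 (.leaf [12,13,15]) (.node 18 19 (.leaf [14,18,20,22,21]) (.leaf [16,17,19])))))), .t 9 (nat_lit 0x8d208cf08ca002f0903090108eb08e9)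 (.z (.node 1 12 (.node 0 10 (.node 0 16 (.free 2 [0,17,18,19,20,21,22]) (.leaf [11,13,15,16,14])) (.leaf [1,9,10,2])) (.free 2 [3,4,5,6,7,8,12]))), .t 10 (nat_lit 0x9930713070e09eb09ea09a909a809910990) (.z (.node 0 7 (.node 10 12 (.edon 18 19 (.leaf [13,15,16,17,18]) (.free 2 [0,10,14,19,20,21,22])) (.leaf [8,9,12,11])) (.free 2 [1,2,3,4,5,6,7]))), .t 9 (nat_lit 0xa0209e809e609e501b601b505390538) (.z (.node 2 4 (.edon 0 12 (.edon 5 8 (.leaf [5,7,9,11]) (.leaf [0,2,6,8,10])) (.edon 13 16 (.leaf [12,13,15]) (.node 18 19 (.leaf [14,18,20,22,21]) (.leaf [16,17,19])))) (.free 1 [1,3,4]))), .t 13 (nat_lit 0x8cf0892088e0877087408670865032d02b102b0029c0298) (.z (.edon 0 3 (.free 1 [0,1,2]) (.node 6 12 (.edon 0 10 (.leaf [3,4,6,8,5]) (.edon 0 16 (.leaf [10,11,13,15,14]) (.free 2 [16,17,18,19,20,21,22]))) (.leaf [7,9,12])))), .t 7 (nat_lit 0xa0109e809e209e101840183)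 (.z (.edon 12 1 (.edon 0 12 (.leaf [0,2,5,8,10]) (.edon 13 16 (.leaf [12,13,15]) (.node 17 19 (.leaf [14,17,20,22,21]) (.leaf [16,18,19])))) (.free 2 [1,3,4,6,7,9,11])))] (by decide +kernel) (by decide +kernel)
theorem b94 : B 3008 3040 := Blk.of_chk [.t 12 (nat_lit 0xa0109e809e209e1064b05ee05ea05b105ae05ac05ab) (.z (.node 2 4 (.edon 0 12 (.edon 6 8 (.leaf [6,7,9,11,10]) (.leaf [0,2,5,8])) (.edon 13 16 (.leaf [12,13,15]) (.node 17 19 (.leaf [14,17,20,22,21]) (.leaf [16,18,19])))) (.free 1 [1,3,4]))), .t 7 (nat_lit 0xa0109e809e209e101b601b5) (.z (.edon 12 1 (.edon 0 12 (.leaf [0,2,6,8,10]) (.edon 13 16 (.leaf [12,13,15]) (.node 17 19 (.leaf [14,17,20,22,21]) (.leaf [16,18,19])))) (.free 2 [1,3,4,5,7,9,11]))), .t 9 (nat_lit 0x8d208cf08ca002b0903090108eb08e9) (.z (.node 1 12 (.node 0 10 (.node 0 16 (.free 2 [0,17,18,19,20,21,22]) (.leaf [11,13,15,16,14]))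 (.leaf [1,8,10,2])) (.free 2 [3,4,5,6,7,9,12]))), .t 13 (nat_lit 0x8d208cf08ca0903090108eb08e9032e02b202af029c0298) (.z (.edon 0 3 (.free 1 [0,1,2]) (.node 5 12 (.edon 0 10 (.leaf [3,4,5,8,6]) (.node 10 16 (.free 2 [10,17,18,19,20,21,22]) (.leaf [11,13,15,16,14]))) (.leaf [7,9,12])))), .t 1 (nat_lit 0) (.cn 2 2), .t 1 (nat_lit 0) (.cn 2 2), .t 15 (nat_lit 0x333032d032a08d208cf08ca03af03aa035503530903090108eb08e9) (.z (.node 0 3 (.node 6 12 (.node 0 10 (.node 0 16 (.free 2 [0,17,18,19,20,21,22]) (.leaf [11,13,15,16,14])) (.leaf [4,6,10,8,5])) (.leaf [7,9,12])) (.free 1 [1,2,3]))), .t 7 (nat_lit 0xa0109e809e209e106f506f3) (.z (.node 0 7 (.edon 0 12 (.leaf [0,8,9,10,11]) (.edon 13 16 (.leaf [12,13,15]) (.node 17 19 (.leaf [14,17,20,22,21]) (.leaf [16,18,19])))) (.free 2 [1,2,3,4,5,6,7]))), .t 1 (nat_lit 0) (.fa 3), .t 7 (nat_lit 0xa0109e809e209e101c801c7)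 (.z (.edon 12 1 (.edon 0 12 (.leaf [0,2,6,9,10]) (.edon 13 16 (.leaf [12,13,15]) (.node 17 19 (.leaf [14,17,20,22,21]) (.leaf [16,18,19])))) (.free 2 [1,3,4,5,7,8,11]))), .t 9 (nat_lit 0x8cb08eb08e808d508d3002f09030902) (.z (.node 1 12 (.node 0 10 (.node 0 16 (.free 2 [0,17,18,19,20,21,22]) (.leaf [11,14,15,16,13])) (.leaf [1,9,10,2])) (.free 2 [3,4,5,6,7,8,12]))), .t 15 (nat_lit 0x32908cb035503510336033208eb08e808d508d303af03ad09030902) (.z (.node 0 3 (.node 5 12 (.node 0 10 (.node 0 16 (.free 2 [0,17,18,19,20,21,22]) (.leaf [11,14,15,16,13])) (.leaf [4,5,10,8,6])) (.leaf [7,9,12])) (.free 1 [1,2,3]))), .t 6 (nat_lit 0x1f701f601130111002b) (.z (.edon 0 16 (.node 0 12 (.leaf [0,13,14,15]) (.node 1 12 (.leaf [1,8,10,11,2]) (.free 2 [3,4,5,6,7,9,12]))) (.free 2 [16,17,18,19,20,21,22]))), .t 6 (nat_lit 0x1b901b800d000cf0020) (.z (.edon 0 16 (.node 0 12 (.leaf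 [0,13,14,15]) (.edon 3 8 (.free 2 [3,4,5,7,9,10,12]) (.leaf [1,6,8,11,2]))) (.free 2 [16,17,18,19,20,21,22]))), .t 10 (nat_lit 0x97b0979097709ae09ad0989098806f506f3) (.z (.node 0 7 (.edon 0 12 (.leaf [0,8,9,10,11]) (.node 14 16 (.edon 0 20 (.leaf [13,14,18,19,17]) (.leaf [20,21,22])) (.leaf [12,15,16]))) (.free 2 [1,2,3,4,5,6,7]))), .t 9 (nat_lit 0x3580355035100020420041d0381037f) (.z (.edon 0 16 (.node 0 12 (.leaf [0,13,14,15]) (.edon 7 10 (.leaf [7,9,12]) (.edon 4 6 (.leaf [4,5,10,11,8]) (.leaf [1,3,6,2])))) (.free 2 [16,17,18,19,20,21,22]))), .t 10 (nat_lit 0x97b0979097709ae09ad0989098801b901b8) (.z (.edon 0 20 (.edon 0 12 (.edon 1 8 (.free 2 [1,3,4,5,7,9,10]) (.leaf [0,2,6,8,11])) (.node 14 16 (.leaf [13,14,18,19,17]) (.leaf [12,15,16]))) (.free 1 [20,21,22]))), .t 8 (nat_lit 0x959095601b901b800d000cf0020) (.z (.node 16 0 (.edon 0 13 (.edon 3 8 (.free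 2 [3,4,5,7,9,10,12]) (.leaf [1,6,8,11,2])) (.leaf [13,15,16,14])) (.free 2 [0,17,18,19,20,21,22]))), .t 10 (nat_lit 0x928092605a805a7035c035a02cd02cb0298) (.z (.edon 0 16 (.edon 0 3 (.leaf [0,1,2]) (.edon 0 12 (.node 4 10 (.leaf [3,4,11,8,5]) (.leaf [6,7,9,10])) (.leaf [12,15,14,13]))) (.free 2 [16,17,18,19,20,21,22]))), .t 11 (nat_lit 0x358035503510959095600020420041d0381037f) (.z (.node 16 0 (.edon 0 13 (.edon 7 10 (.leaf [7,9,12]) (.edon 4 6 (.leaf [4,5,10,11,8]) (.leaf [1,3,6,2]))) (.leaf [13,15,16,14])) (.free 2 [0,17,18,19,20,21,22]))), .t 7 (nat_lit 0x92809260191019005a405a3) (.z (.edon 0 16 (.edon 0 12 (.node 2 4 (.edon 6 9 (.leaf [6,7,8,11]) (.leaf [0,2,5,9,10])) (.leaf [1,3,4])) (.leaf [12,15,14,13])) (.free 2 [16,17,18,19,20,21,22]))), .t 10 (nat_lit 0x97b0979097709ae09ad0989098801c801c7) (.z (.edon 0 20 (.edon 0 12 (.edon 1 9 (.free 2 [1,3,4,5,7,8,11])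 (.leaf [0,2,6,9,10])) (.node 14 16 (.leaf [13,14,18,19,17]) (.leaf [12,15,16]))) (.free 1 [20,21,22]))), .t 9 (nat_lit 0xa0105ad05aa0355035302c802c60298) (.z (.edon 0 3 (.free 1 [0,1,2]) (.edon 0 12 (.node 4 9 (.leaf [3,4,10,8,5]) (.leaf [6,7,11,9])) (.node 17 19 (.leaf [17,20,22,21]) (.free 2 [12,13,14,15,16,18,19]))))), .t 11 (nat_lit 0x3b103af03aa0959095600010420041d03d503d3) (.z (.node 16 0 (.edon 0 13 (.edon 7 10 (.leaf [7,9,12]) (.edon 4 5 (.leaf [4,6,10,11,8]) (.leaf [1,3,5,2]))) (.leaf [13,15,16,14])) (.free 2 [0,17,18,19,20,21,22]))), .t 8 (nat_lit 0x9590956018701860091008f001a) (.z (.node 16 0 (.edon 0 13 (.edon 3 8 (.free 2 [3,4,6,7,9,10,12]) (.leaf [1,5,8,11,2])) (.leaf [13,15,16,14])) (.free 2 [0,17,18,19,20,21,22]))), .t 8 (nat_lit 0x1f701f601130111002b09590956) (.z (.node 1 12 (.node 0 11 (.node 0 16 (.free 2 [0,17,18,19,20,21,22]) (.leaf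 [13,15,16,14])) (.leaf [1,8,10,11,2])) (.free 2 [3,4,5,6,7,9,12]))), .t 10 (nat_lit 0x6f906f606f1074907460712071009590956) (.z (.node 0 7 (.node 0 12 (.node 0 16 (.free 2 [0,17,18,19,20,21,22]) (.leaf [13,15,16,14])) (.leaf [8,9,11,12,10])) (.free 2 [1,2,3,4,5,6,7]))), .t 8 (nat_lit 0x959095601b601b500cd00cb0020) (.z (.node 16 0 (.edon 0 13 (.edon 3 8 (.free 2 [3,4,5,7,9,11,12]) (.leaf [1,6,8,10,2])) (.leaf [13,15,16,14])) (.free 2 [0,17,18,19,20,21,22]))), .t 8 (nat_lit 0x959095601b601b500cd00cb0020) (.z (.node 16 0 (.edon 0 13 (.edon 3 10 (.free 2 [3,4,5,7,9,11,12]) (.leaf [1,6,8,10,2])) (.leaf [13,15,16,14])) (.free 2 [0,17,18,19,20,21,22]))), .t 9 (nat_lit 0xa01053a053703af03ad02e502e3029c) (.z (.edon 0 3 (.free 1 [0,1,2]) (.edon 0 12 (.node 4 9 (.leaf [3,4,10,8,6]) (.leaf [5,7,11,9])) (.node 17 19 (.leaf [17,20,22,21]) (.free 2 [12,13,14,15,16,18,19]))))),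 .t 4 (nat_lit 0xa0106f506f3) (.z (.node 0 7 (.edon 0 12 (.leaf [0,8,9,10,11]) (.node 17 19 (.leaf [17,20,22,21]) (.free 2 [12,13,14,15,16,18,19]))) (.free 2 [1,2,3,4,5,6,7]))), .t 9 (nat_lit 0x59e059d059a0a0105c205bf05a805a7) (.z (.node 2 4 (.edon 0 12 (.node 5 8 (.leaf [0,2,5,11]) (.leaf [6,7,9,10,8])) (.node 17 19 (.leaf [17,20,22,21]) (.free 2 [12,13,14,15,16,18,19]))) (.free 1 [1,3,4])))] (by decide +kernel) (by decide +kernel)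
theorem b95 : B 3040 3072 := Blk.of_chk [.t 4 (nat_lit 0xa0101b901b8) (.z (.edon 12 1 (.edon 0 12 (.leaf [0,2,6,8,11]) (.node 17 19 (.leaf [17,20,22,21]) (.free 2 [12,13,14,15,16,18,19]))) (.free 2 [1,3,4,5,7,9,10]))), .t 4 (nat_lit 0xa0101d001cf) (.z (.edon 12 1 (.edon 0 12 (.leaf [0,2,6,10,11]) (.node 17 19 (.leaf [17,20,22,21]) (.free 2 [12,13,14,15,16,18,19]))) (.free 2 [1,3,4,5,7,8,9]))), .t 13 (nat_lit 0x956097109700960095d01ed01ec01050104002a09910990) (.z (.edon 0 20 (.node 0 12 (.node 0 17 (.leaf [0,18,19]) (.leaf [13,15,16,17,14])) (.node 1 12 (.leaf [1,8,9,11,2]) (.free 2 [3,4,5,6,7,10,12]))) (.free 1 [20,21,22]))), .t 12 (nat_lit 0xa0109e809e209e106f5064a06470625062206120610) (.z (.edon 0 7 (.free 2 [0,1,2,3,4,5,6]) (.edon 0 12 (.leaf [7,10,11,9,8]) (.edon 13 16 (.leaf [12,13,15]) (.node 17 19 (.leaf [14,17,20,22,21]) (.leaf [16,18,19])))))),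 .t 13 (nat_lit 0x956097109700960095d0181018000840083001a09910990) (.z (.edon 0 20 (.node 0 12 (.node 0 17 (.leaf [0,18,19]) (.leaf [13,15,16,17,14])) (.edon 3 8 (.free 2 [3,4,6,7,10,11,12]) (.leaf [1,5,8,9,2]))) (.free 1 [20,21,22]))), .t 14 (nat_lit 0x59a05a905a605a1059e08be08bb0a0109e809e209e105c305c1) (.z (.node 0 2 (.edon 0 6 (.leaf [0,3,4,5]) (.edon 0 11 (.leaf [6,7,10,9,8]) (.node 14 15 (.node 17 19 (.leaf [14,17,20,22,21]) (.leaf [16,18,19])) (.leaf [11,12,15,13])))) (.free 1 [1,2]))), .t 16 (nat_lit 0x95603b103a803a3097109700960095d00010408040503c903c709910990) (.z (.edon 0 20 (.node 0 12 (.node 0 17 (.leaf [0,18,19]) (.leaf [13,15,16,17,14])) (.edon 7 9 (.leaf [7,10,12]) (.edon 4 5 (.leaf [4,6,9,11,8]) (.leaf [1,3,5,2])))) (.free 1 [20,21,22]))), .t 12 (nat_lit 0xa0109e809e209e1062605d405d005b105ae05a405a3) (.z (.node 2 4 (.edon 0 12 (.edon 6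 9 (.leaf [6,7,8,11,10]) (.leaf [0,2,5,9])) (.edon 13 16 (.leaf [12,13,15]) (.node 17 19 (.leaf [14,17,20,22,21]) (.leaf [16,18,19])))) (.free 1 [1,3,4]))), .t 9 (nat_lit 0xa0109e809e209e108be08bb01810180) (.z (.node 2 4 (.edon 0 11 (.edon 6 8 (.leaf [6,7,10]) (.leaf [0,2,5,8,9])) (.edon 13 16 (.leaf [11,12,15,13]) (.node 17 19 (.leaf [14,17,20,22,21]) (.leaf [16,18,19])))) (.free 1 [1,3,4]))), .t 12 (nat_lit 0xa0109e809e209e1061205cb05c605ad05aa05a405a3) (.z (.node 2 4 (.edon 0 12 (.node 5 9 (.leaf [0,2,5,10]) (.leaf [6,7,8,11,9])) (.edon 13 16 (.leaf [12,13,15]) (.node 17 19 (.leaf [14,17,20,22,21]) (.leaf [16,18,19])))) (.free 1 [1,3,4]))), .t 10 (nat_lit 0x6fe07bb07b9074a074806f606f409590956) (.z (.node 0 7 (.node 0 12 (.node 0 16 (.free 2 [0,17,18,19,20,21,22]) (.leaf [13,15,16,14])) (.leaf [8,12,11,10,9])) (.free 2 [1,2,3,4,5,6,7]))), .t 12 (nat_lit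 0x8550851084f08830880086808660a0109e809e209e1) (.z (.node 0 3 (.edon 0 10 (.free 2 [0,4,5,6,7,8,9]) (.node 14 15 (.node 17 19 (.leaf [14,17,20,22,21]) (.leaf [16,18,19])) (.leaf [10,12,15,13,11]))) (.free 1 [1,2,3]))), .t 9 (nat_lit 0xa0109e809e209e108be08bb01b301b2) (.z (.node 2 4 (.edon 0 11 (.edon 5 8 (.leaf [5,7,10]) (.leaf [0,2,6,8,9])) (.edon 13 16 (.leaf [11,12,15,13]) (.node 17 19 (.leaf [14,17,20,22,21]) (.leaf [16,18,19])))) (.free 1 [1,3,4]))), .t 12 (nat_lit 0xa0109e809e209e10626056405610540053d05310530) (.z (.node 2 4 (.edon 0 12 (.edon 5 9 (.leaf [5,7,8,11,10]) (.leaf [0,2,6,9])) (.edon 13 16 (.leaf [12,13,15]) (.node 17 19 (.leaf [14,17,20,22,21]) (.leaf [16,18,19])))) (.free 1 [1,3,4]))), .t 9 (nat_lit 0xa0109e809e209e104f004ee02260224) (.z (.node 2 4 (.edon 0 12 (.node 2 8 (.leaf [0,2,9,10,11]) (.leaf [5,7,8,6])) (.edon 13 16 (.leaf [12,13,15])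 (.node 17 19 (.leaf [14,17,20,22,21]) (.leaf [16,18,19])))) (.free 1 [1,3,4]))), .t 9 (nat_lit 0x2f09ec09aa09a70999099809930992) (.z (.node 1 12 (.node 0 10 (.edon 17 19 (.leaf [13,15,16,18,17]) (.free 2 [0,11,14,19,20,21,22])) (.leaf [1,9,10,2])) (.free 2 [3,4,5,6,7,8,12]))), .t 7 (nat_lit 0xa0109e809e209e104f004ee) (.z (.node 2 4 (.edon 0 11 (.node 2 8 (.leaf [0,2,9,10]) (.leaf [5,7,8,6])) (.node 17 19 (.leaf [14,17,20,22,21]) (.free 2 [11,12,13,15,16,18,19]))) (.free 1 [1,3,4]))), .t 5 (nat_lit 0x928092302260224) (.z (.edon 0 16 (.edon 0 12 (.node 2 8 (.leaf [0,2,9,10,11]) (.free 2 [1,3,4,5,6,7,8])) (.leaf [12,13,15,14])) (.free 2 [16,17,18,19,20,21,22]))), .t 12 (nat_lit 0x9e8092209170916060a05c305be05a905a605a0059f) (.z (.node 0 2 (.edon 0 6 (.leaf [0,3,4,5]) (.edon 0 11 (.leaf [6,7,8,10,9]) (.node 14 19 (.leaf [11,14,20,22,21]) (.free 2 [12,13,15,16,17,18,19]))))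 (.free 1 [1,2]))), .t 10 (nat_lit 0x92808cf08ca08c308c008bd08bc060a0605) (.z (.edon 0 16 (.edon 0 7 (.free 2 [0,1,2,3,4,5,6]) (.edon 0 11 (.leaf [7,8,10,9]) (.leaf [11,12,13,15,14]))) (.free 2 [16,17,18,19,20,21,22]))), .t 8 (nat_lit 0x92808cf08ca08c308c008bd08bc) (.z (.edon 0 16 (.edon 0 11 (.node 2 8 (.leaf [0,2,9,10]) (.free 2 [1,3,4,5,6,7,8])) (.leaf [11,12,13,15,14])) (.free 2 [16,17,18,19,20,21,22]))), .t 7 (nat_lit 0x9e809220917091601810180) (.z (.node 2 4 (.edon 0 11 (.edon 6 8 (.leaf [6,7,10]) (.leaf [0,2,5,8,9])) (.node 14 19 (.leaf [11,14,20,22,21]) (.free 2 [12,13,15,16,17,18,19]))) (.free 1 [1,3,4]))), .t 12 (nat_lit 0x59a05a905a605a1059e09e809220917091605c305c1) (.z (.node 0 2 (.edon 0 6 (.leaf [0,3,4,5]) (.edon 0 11 (.leaf [6,7,10,9,8]) (.node 14 19 (.leaf [11,14,20,22,21]) (.free 2 [12,13,15,16,17,18,19])))) (.free 1 [1,2]))), .t 7 (nat_lit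 0x9e809220917091601b301b2) (.z (.node 2 4 (.edon 0 11 (.edon 5 8 (.leaf [5,7,10]) (.leaf [0,2,6,8,9])) (.node 14 19 (.leaf [11,14,20,22,21]) (.free 2 [12,13,15,16,17,18,19]))) (.free 1 [1,3,4]))), .t 7 (nat_lit 0x9e8092209170916060a0608) (.z (.edon 0 7 (.free 2 [0,1,2,3,4,5,6]) (.edon 0 11 (.leaf [7,10,9,8]) (.node 14 19 (.leaf [11,14,20,22,21]) (.free 2 [12,13,15,16,17,18,19]))))), .t 9 (nat_lit 0x8cb08eb08e808d508d3002a09030902) (.z (.node 1 12 (.node 0 9 (.node 0 16 (.free 2 [0,17,18,19,20,21,22]) (.leaf [11,14,15,16,13])) (.leaf [1,8,9,2])) (.free 2 [3,4,5,6,7,10,12]))), .t 8 (nat_lit 0x4f404f004ee052e052b05090507) (.z (.node 2 4 (.node 2 8 (.free 4 [0,2,9,11,12,13,14,15,16,17,18,19,20,21,22]) (.leaf [5,7,10,8,6])) (.free 1 [1,3,4]))), .t 8 (nat_lit 0x4f404f004ee052e052b05090507) (.z (.node 2 4 (.node 2 10 (.free 4 [0,2,9,11,12,13,14,15,16,17,18,19,20,21,22])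 (.leaf [5,7,10,8,6])) (.free 1 [1,3,4]))), .t 9 (nat_lit 0x8cb08eb08e808d508d3002109030902) (.z (.node 1 12 (.node 0 9 (.node 0 16 (.free 2 [0,17,18,19,20,21,22]) (.leaf [11,14,15,16,13])) (.leaf [1,6,9,2])) (.free 2 [3,4,5,7,8,10,12]))), .t 15 (nat_lit 0x8cb032f032e032908eb08e808d508d303a703a4034d034b09030902) (.z (.node 0 3 (.node 5 12 (.node 0 9 (.node 0 16 (.free 2 [0,17,18,19,20,21,22]) (.leaf [11,14,15,16,13])) (.leaf [4,5,8,9,6])) (.leaf [7,10,12])) (.free 1 [1,2,3]))), .t 10 (nat_lit 0x8cb08eb08e808d508d306fd06fa09030902) (.z (.node 0 7 (.node 0 16 (.free 2 [0,17,18,19,20,21,22]) (.node 11 12 (.leaf [11,14,15,16,13]) (.leaf [8,10,12,9]))) (.free 2 [1,2,3,4,5,6,7]))), .t 5 (nat_lit 0x158003b00040002) (.z (.edon 0 16 (.node 0 12 (.leaf [0,13,14,15]) (.node 3 8 (.leaf [1,3,6,9,2]) (.free 2 [4,5,7,8,10,11,12]))) (.free 2 [16,17,18,19,20,21,22])))]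 (by decide +kernel) (by decide +kernel)

end Pool.Agent.GCP.F8_12
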