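import Pool.Agent.GCP.F8_13Db

set_option autoImplicit false
set_option maxRecDepth 100000

/-! # Blocks F8_13B1 (generated) -/

namespace Pool.Agent.GCP.F8_13

open Pool.Agent.GCP DB

theorem b79 : B 2528 2560 := Blk.of_chk [.t 1 (nat_lit 0) (.ax 5 12 16 17 4), .t 1 (nat_lit 0) (.ax 5 12 16 18 4), .t 1 (nat_lit 0) (.ax 5 12 21 22 5), .t 1 (nat_lit 0) (.ax 5 13 14 17 0), .t 1 (nat_lit 0) (.ax 5 13 14 18 0), .t 1 (nat_lit 0) (.ax 5 14 15 16 4), .t 1 (nat_lit 0) (.ax 5 14 15 17 4), .t 1 (nat_lit 0) (.ax 5 14 15 18 4), .t 1 (nat_lit 0) (.ax 5 14 15 19 4), .t 1 (nat_lit 0) (.ax 5 14 15 20 4), .t 1 (nat_lit 0) (.ax 5 14 15 22 4), .t 1 (nat_lit 0) (.ax 6 7 8 9 0), .t 1 (nat_lit 0) (.ax 6 7 8 9 2), .t 1 (nat_lit 0) (.ax 6 7 8 9 4), .t 1 (nat_lit 0) (.ax 6 7 8 9 5), .t 1 (nat_lit 0) (.ax 6 7 8 10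 0), .t 1 (nat_lit 0) (.ax 6 7 8 10 2), .t 1 (nat_lit 0) (.ax 6 7 8 10 4), .t 1 (nat_lit 0) (.ax 6 7 8 10 5), .t 1 (nat_lit 0) (.ax 6 7 8 11 0), .t 1 (nat_lit 0) (.ax 6 7 8 11 2), .t 1 (nat_lit 0) (.ax 6 7 8 11 4), .t 1 (nat_lit 0) (.ax 6 7 8 11 5), .t 1 (nat_lit 0) (.ax 6 7 8 12 0), .t 1 (nat_lit 0) (.ax 6 7 8 12 2), .t 1 (nat_lit 0) (.ax 6 7 8 12 4), .t 1 (nat_lit 0) (.ax 6 7 8 12 5), .t 1 (nat_lit 0) (.ax 6 7 8 14 0), .t 1 (nat_lit 0) (.ax 6 7 9 10 0), .t 1 (nat_lit 0) (.ax 6 7 9 10 2), .t 1 (nat_lit 0) (.ax 6 7 9 10 4), .t 1 (nat_lit 0) (.ax 6 7 9 10 5)] (by decide +kernel) (by decide +kernel)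
theorem b80 : B 2560 2592 := Blk.of_chk [.t 1 (nat_lit 0) (.ax 6 7 9 11 0), .t 1 (nat_lit 0) (.ax 6 7 9 11 2), .t 1 (nat_lit 0) (.ax 6 7 9 11 4), .t 1 (nat_lit 0) (.ax 6 7 9 11 5), .t 1 (nat_lit 0) (.ax 6 7 9 12 0), .t 1 (nat_lit 0) (.ax 6 7 9 12 2), .t 1 (nat_lit 0) (.ax 6 7 9 12 4), .t 1 (nat_lit 0) (.ax 6 7 9 12 5), .t 1 (nat_lit 0) (.ax 6 7 10 11 0), .t 1 (nat_lit 0) (.ax 6 7 10 11 2), .t 1 (nat_lit 0) (.ax 6 7 10 11 4), .t 1 (nat_lit 0) (.ax 6 7 10 11 5), .t 1 (nat_lit 0) (.ax 6 7 10 12 0), .t 1 (nat_lit 0) (.ax 6 7 10 12 5), .t 1 (nat_lit 0) (.ax 6 7 10 14 0), .t 1 (nat_lit 0) (.ax 6 7 11 12 0), .t 1 (nat_lit 0) (.ax 6 7 11 12 2), .t 1 (nat_lit 0) (.ax 6 7 11 12 4), .t 1 (nat_lit 0) (.ax 6 7 11 12 5), .t 1 (nat_lit 0) (.ax 6 7 11 14 0), .t 1 (nat_lit 0) (.ax 6 7 11 14 2), .t 1 (nat_lit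 0) (.ax 6 7 11 14 4), .t 1 (nat_lit 0) (.ax 6 7 12 14 2), .t 1 (nat_lit 0) (.ax 6 7 12 14 4), .t 1 (nat_lit 0) (.ax 6 7 13 14 0), .t 1 (nat_lit 0) (.ax 6 7 13 15 0), .t 1 (nat_lit 0) (.ax 6 7 13 17 0), .t 1 (nat_lit 0) (.ax 6 7 13 18 0), .t 1 (nat_lit 0) (.ax 6 7 13 19 0), .t 1 (nat_lit 0) (.ax 6 7 13 20 0), .t 1 (nat_lit 0) (.ax 6 7 13 21 0), .t 1 (nat_lit 0) (.ax 6 7 13 22 0)] (by decide +kernel) (by decide +kernel)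
theorem b81 : B 2592 2624 := Blk.of_chk [.t 1 (nat_lit 0) (.ax 6 8 9 10 0), .t 1 (nat_lit 0) (.ax 6 8 9 10 1), .t 1 (nat_lit 0) (.ax 6 8 9 10 2), .t 1 (nat_lit 0) (.ax 6 8 9 10 3), .t 1 (nat_lit 0) (.ax 6 8 9 10 4), .t 1 (nat_lit 0) (.ax 6 8 9 10 5), .t 1 (nat_lit 0) (.ax 6 8 9 10 6), .t 1 (nat_lit 0) (.ax 6 8 9 11 0), .t 1 (nat_lit 0) (.ax 6 8 9 11 1), .t 1 (nat_lit 0) (.ax 6 8 9 11 2), .t 1 (nat_lit 0) (.ax 6 8 9 11 3), .t 1 (nat_lit 0) (.ax 6 8 9 11 4), .t 1 (nat_lit 0) (.ax 6 8 9 11 5), .t 1 (nat_lit 0) (.ax 6 8 9 11 6), .t 1 (nat_lit 0) (.ax 6 8 9 11 7), .t 1 (nat_lit 0) (.ax 6 8 9 12 0), .t 1 (nat_lit 0) (.ax 6 8 9 12 1), .t 1 (nat_lit 0) (.ax 6 8 9 12 3), .t 1 (nat_lit 0) (.ax 6 8 9 12 4), .t 1 (nat_lit 0) (.ax 6 8 9 12 5), .t 1 (nat_lit 0) (.ax 6 8 9 12 7), .t 1 (nat_lit 0) (.ax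 6 8 9 13 1), .t 1 (nat_lit 0) (.ax 6 8 9 13 2), .t 1 (nat_lit 0) (.ax 6 8 9 13 4), .t 1 (nat_lit 0) (.ax 6 8 9 13 5), .t 1 (nat_lit 0) (.ax 6 8 9 13 6), .t 1 (nat_lit 0) (.ax 6 8 9 14 5), .t 1 (nat_lit 0) (.ax 6 8 10 11 0), .t 1 (nat_lit 0) (.ax 6 8 10 11 1), .t 1 (nat_lit 0) (.ax 6 8 10 11 2), .t 1 (nat_lit 0) (.ax 6 8 10 11 3), .t 1 (nat_lit 0) (.ax 6 8 10 11 4)] (by decide +kernel) (by decide +kernel)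
theorem b82 : B 2624 2656 := Blk.of_chk [.t 1 (nat_lit 0) (.ax 6 8 10 11 5), .t 1 (nat_lit 0) (.ax 6 8 10 11 6), .t 1 (nat_lit 0) (.ax 6 8 10 12 0), .t 1 (nat_lit 0) (.ax 6 8 10 12 2), .t 1 (nat_lit 0) (.ax 6 8 10 12 3), .t 1 (nat_lit 0) (.ax 6 8 10 12 5), .t 1 (nat_lit 0) (.ax 6 8 10 13 0), .t 1 (nat_lit 0) (.ax 6 8 10 13 1), .t 1 (nat_lit 0) (.ax 6 8 10 13 2), .t 1 (nat_lit 0) (.ax 6 8 10 13 4), .t 1 (nat_lit 0) (.ax 6 8 10 13 5), .t 1 (nat_lit 0) (.ax 6 8 10 13 6), .t 1 (nat_lit 0) (.ax 6 8 10 13 7), .t 1 (nat_lit 0) (.ax 6 8 10 14 2), .t 1 (nat_lit 0) (.ax 6 8 10 14 3), .t 1 (nat_lit 0) (.ax 6 8 10 14 4), .t 1 (nat_lit 0) (.ax 6 8 10 15 2), .t 1 (nat_lit 0) (.ax 6 8 10 16 2), .t 1 (nat_lit 0) (.ax 6 8 10 16 4), .t 1 (nat_lit 0) (.ax 6 8 11 12 0), .t 1 (nat_lit 0) (.ax 6 8 11 12 1), .t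 1 (nat_lit 0) (.ax 6 8 11 12 4), .t 1 (nat_lit 0) (.ax 6 8 11 12 5), .t 1 (nat_lit 0) (.ax 6 8 11 13 1), .t 1 (nat_lit 0) (.ax 6 8 11 13 2), .t 1 (nat_lit 0) (.ax 6 8 11 13 3), .t 1 (nat_lit 0) (.ax 6 8 11 13 4), .t 1 (nat_lit 0) (.ax 6 8 11 13 5), .t 1 (nat_lit 0) (.ax 6 8 11 13 6), .t 1 (nat_lit 0) (.ax 6 8 11 14 1), .t 1 (nat_lit 0) (.ax 6 8 11 14 2), .t 1 (nat_lit 0) (.ax 6 8 11 14 3)] (by decide +kernel) (by decide +kernel)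
theorem b83 : B 2656 2688 := Blk.of_chk [.t 1 (nat_lit 0) (.ax 6 8 11 14 4), .t 1 (nat_lit 0) (.ax 6 8 11 16 0), .t 1 (nat_lit 0) (.ax 6 8 12 13 1), .t 1 (nat_lit 0) (.ax 6 8 12 13 2), .t 1 (nat_lit 0) (.ax 6 8 12 13 4), .t 1 (nat_lit 0) (.ax 6 8 12 13 5), .t 1 (nat_lit 0) (.ax 6 8 12 13 7), .t 1 (nat_lit 0) (.ax 6 8 12 14 5), .t 1 (nat_lit 0) (.ax 6 8 13 16 4), .t 1 (nat_lit 0) (.ax 6 8 14 15 2), .t 1 (nat_lit 0) (.ax 6 9 10 11 0), .t 1 (nat_lit 0) (.ax 6 9 10 11 1), .t 1 (nat_lit 0) (.ax 6 9 10 11 2), .t 1 (nat_lit 0) (.ax 6 9 10 11 3), .t 1 (nat_lit 0) (.ax 6 9 10 11 4), .t 1 (nat_lit 0) (.ax 6 9 10 11 5), .t 1 (nat_lit 0) (.ax 6 9 10 11 7), .t 1 (nat_lit 0) (.ax 6 9 10 12 3), .t 1 (nat_lit 0) (.ax 6 9 10 12 4), .t 1 (nat_lit 0) (.ax 6 9 10 12 5), .t 1 (nat_lit 0) (.ax 6 9 10 12 6), .t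 1 (nat_lit 0) (.ax 6 9 10 13 0), .t 1 (nat_lit 0) (.ax 6 9 10 13 1), .t 1 (nat_lit 0) (.ax 6 9 10 13 2), .t 1 (nat_lit 0) (.ax 6 9 10 13 6), .t 1 (nat_lit 0) (.ax 6 9 10 13 7), .t 1 (nat_lit 0) (.ax 6 9 10 14 1), .t 1 (nat_lit 0) (.ax 6 9 11 12 0), .t 1 (nat_lit 0) (.ax 6 9 11 12 1), .t 1 (nat_lit 0) (.ax 6 9 11 12 3), .t 1 (nat_lit 0) (.ax 6 9 11 12 4), .t 1 (nat_lit 0) (.ax 6 9 11 12 5)] (by decide +kernel) (by decide +kernel)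
theorem b84 : B 2688 2720 := Blk.of_chk [.t 1 (nat_lit 0) (.ax 6 9 11 13 1), .t 1 (nat_lit 0) (.ax 6 9 11 13 2), .t 1 (nat_lit 0) (.ax 6 9 11 13 4), .t 1 (nat_lit 0) (.ax 6 9 11 13 5), .t 1 (nat_lit 0) (.ax 6 9 11 13 6), .t 1 (nat_lit 0) (.ax 6 9 11 13 7), .t 1 (nat_lit 0) (.ax 6 9 11 14 3), .t 1 (nat_lit 0) (.ax 6 9 11 14 5), .t 1 (nat_lit 0) (.ax 6 9 12 13 1), .t 1 (nat_lit 0) (.ax 6 9 12 13 2), .t 1 (nat_lit 0) (.ax 6 9 12 13 4), .t 1 (nat_lit 0) (.ax 6 9 12 13 5), .t 1 (nat_lit 0) (.ax 6 9 13 14 4), .t 1 (nat_lit 0) (.ax 6 9 13 16 4), .t 1 (nat_lit 0) (.ax 6 10 11 12 1), .t 1 (nat_lit 0) (.ax 6 10 11 12 2), .t 1 (nat_lit 0) (.ax 6 10 11 12 3), .t 1 (nat_lit 0) (.ax 6 10 11 12 4), .t 1 (nat_lit 0) (.ax 6 10 11 12 5), .t 1 (nat_lit 0) (.ax 6 10 11 12 7), .t 1 (nat_lit 0) (.ax 6 10 11 13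 0), .t 1 (nat_lit 0) (.ax 6 10 11 13 1), .t 1 (nat_lit 0) (.ax 6 10 11 13 2), .t 1 (nat_lit 0) (.ax 6 10 11 13 3), .t 1 (nat_lit 0) (.ax 6 10 11 13 4), .t 1 (nat_lit 0) (.ax 6 10 11 13 5), .t 1 (nat_lit 0) (.ax 6 10 11 13 6), .t 1 (nat_lit 0) (.ax 6 10 11 13 7), .t 1 (nat_lit 0) (.ax 6 10 11 14 0), .t 1 (nat_lit 0) (.ax 6 10 11 14 3), .t 1 (nat_lit 0) (.ax 6 10 11 14 5), .t 1 (nat_lit 0) (.ax 6 10 11 15 3)] (by decide +kernel) (by decide +kernel)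
theorem b85 : B 2720 2752 := Blk.of_chk [.t 1 (nat_lit 0) (.ax 6 10 11 16 2), .t 1 (nat_lit 0) (.ax 6 10 11 16 4), .t 1 (nat_lit 0) (.ax 6 10 12 13 0), .t 1 (nat_lit 0) (.ax 6 10 12 13 1), .t 1 (nat_lit 0) (.ax 6 10 12 13 2), .t 1 (nat_lit 0) (.ax 6 10 12 13 3), .t 1 (nat_lit 0) (.ax 6 10 12 13 4), .t 1 (nat_lit 0) (.ax 6 10 12 13 5), .t 1 (nat_lit 0) (.ax 6 10 12 13 6), .t 1 (nat_lit 0) (.ax 6 10 12 14 0), .t 1 (nat_lit 0) (.ax 6 10 12 14 1), .t 1 (nat_lit 0) (.ax 6 10 12 14 4), .t 1 (nat_lit 0) (.ax 6 10 12 16 3), .t 1 (nat_lit 0) (.ax 6 10 12 16 4), .t 1 (nat_lit 0) (.ax 6 10 13 14 2), .t 1 (nat_lit 0) (.ax 6 10 13 14 4), .t 1 (nat_lit 0) (.ax 6 10 13 15 2), .t 1 (nat_lit 0) (.ax 6 10 13 15 4), .t 1 (nat_lit 0) (.ax 6 10 13 16 4), .t 1 (nat_lit 0) (.ax 6 10 13 17 4), .t 1 (nat_lit 0)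 (.ax 6 10 13 18 4), .t 1 (nat_lit 0) (.ax 6 10 13 19 4), .t 1 (nat_lit 0) (.ax 6 10 13 20 4), .t 1 (nat_lit 0) (.ax 6 10 13 21 4), .t 1 (nat_lit 0) (.ax 6 10 13 22 4), .t 1 (nat_lit 0) (.ax 6 10 14 15 1), .t 1 (nat_lit 0) (.ax 6 11 12 13 1), .t 1 (nat_lit 0) (.ax 6 11 12 13 4), .t 1 (nat_lit 0) (.ax 6 11 12 15 4), .t 1 (nat_lit 0) (.ax 6 11 12 16 4), .t 1 (nat_lit 0) (.ax 6 11 13 14 4), .t 1 (nat_lit 0) (.ax 6 11 13 15 4)] (by decide +kernel) (by decide +kernel)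
theorem b86 : B 2752 2784 := Blk.of_chk [.t 1 (nat_lit 0) (.ax 6 11 13 16 4), .t 1 (nat_lit 0) (.ax 6 11 14 15 1), .t 1 (nat_lit 0) (.ax 6 11 14 16 4), .t 1 (nat_lit 0) (.ax 6 11 14 16 5), .t 1 (nat_lit 0) (.ax 6 12 13 14 2), .t 1 (nat_lit 0) (.ax 6 12 13 14 4), .t 1 (nat_lit 0) (.ax 6 12 13 16 4), .t 1 (nat_lit 0) (.ax 7 8 9 10 0), .t 1 (nat_lit 0) (.ax 7 8 9 10 1), .t 1 (nat_lit 0) (.ax 7 8 9 10 2), .t 1 (nat_lit 0) (.ax 7 8 9 10 3), .t 1 (nat_lit 0) (.ax 7 8 9 10 4), .t 1 (nat_lit 0) (.ax 7 8 9 10 5), .t 1 (nat_lit 0) (.ax 7 8 9 10 6), .t 1 (nat_lit 0) (.ax 7 8 9 10 7), .t 1 (nat_lit 0) (.ax 7 8 9 11 0), .t 1 (nat_lit 0) (.ax 7 8 9 11 1), .t 1 (nat_lit 0) (.ax 7 8 9 11 2), .t 1 (nat_lit 0) (.ax 7 8 9 11 3), .t 1 (nat_lit 0) (.ax 7 8 9 11 4), .t 1 (nat_lit 0) (.ax 7 8 9 11 5), .t 1 (nat_lit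 0) (.ax 7 8 9 11 6), .t 1 (nat_lit 0) (.ax 7 8 9 11 7), .t 1 (nat_lit 0) (.ax 7 8 9 12 0), .t 1 (nat_lit 0) (.ax 7 8 9 12 1), .t 1 (nat_lit 0) (.ax 7 8 9 12 2), .t 1 (nat_lit 0) (.ax 7 8 9 12 5), .t 1 (nat_lit 0) (.ax 7 8 9 12 7), .t 1 (nat_lit 0) (.ax 7 8 9 13 2), .t 1 (nat_lit 0) (.ax 7 8 9 14 2), .t 1 (nat_lit 0) (.ax 7 8 9 14 4), .t 1 (nat_lit 0) (.ax 7 8 9 14 7)] (by decide +kernel) (by decide +kernel)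
theorem b87 : B 2784 2816 := Blk.of_chk [.t 1 (nat_lit 0) (.ax 7 8 9 15 2), .t 1 (nat_lit 0) (.ax 7 8 9 15 4), .t 1 (nat_lit 0) (.ax 7 8 9 15 6), .t 1 (nat_lit 0) (.ax 7 8 9 15 7), .t 1 (nat_lit 0) (.ax 7 8 9 16 2), .t 1 (nat_lit 0) (.ax 7 8 9 16 4), .t 1 (nat_lit 0) (.ax 7 8 9 16 7), .t 1 (nat_lit 0) (.ax 7 8 10 11 0), .t 1 (nat_lit 0) (.ax 7 8 10 11 1), .t 1 (nat_lit 0) (.ax 7 8 10 11 2), .t 1 (nat_lit 0) (.ax 7 8 10 11 3), .t 1 (nat_lit 0) (.ax 7 8 10 11 4), .t 1 (nat_lit 0) (.ax 7 8 10 11 5), .t 1 (nat_lit 0) (.ax 7 8 10 11 6), .t 1 (nat_lit 0) (.ax 7 8 10 11 7), .t 1 (nat_lit 0) (.ax 7 8 10 12 0), .t 1 (nat_lit 0) (.ax 7 8 10 12 2), .t 1 (nat_lit 0) (.ax 7 8 10 12 5), .t 1 (nat_lit 0) (.ax 7 8 10 12 6), .t 1 (nat_lit 0) (.ax 7 8 10 12 7), .t 1 (nat_lit 0) (.ax 7 8 10 13 2), .t 1 (nat_lit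 0) (.ax 7 8 10 14 2), .t 1 (nat_lit 0) (.ax 7 8 10 14 4), .t 1 (nat_lit 0) (.ax 7 8 10 14 5), .t 1 (nat_lit 0) (.ax 7 8 10 14 6), .t 1 (nat_lit 0) (.ax 7 8 10 14 7), .t 1 (nat_lit 0) (.ax 7 8 10 15 0), .t 1 (nat_lit 0) (.ax 7 8 10 15 1), .t 1 (nat_lit 0) (.ax 7 8 10 15 2), .t 1 (nat_lit 0) (.ax 7 8 10 15 4), .t 1 (nat_lit 0) (.ax 7 8 10 15 6), .t 1 (nat_lit 0) (.ax 7 8 10 15 7)] (by decide +kernel) (by decide +kernel)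
theorem b88 : B 2816 2848 := Blk.of_chk [.t 1 (nat_lit 0) (.ax 7 8 10 16 2), .t 1 (nat_lit 0) (.ax 7 8 10 16 6), .t 1 (nat_lit 0) (.ax 7 8 10 16 7), .t 1 (nat_lit 0) (.ax 7 8 11 12 0), .t 1 (nat_lit 0) (.ax 7 8 11 12 1), .t 1 (nat_lit 0) (.ax 7 8 11 12 2), .t 1 (nat_lit 0) (.ax 7 8 11 12 3), .t 1 (nat_lit 0) (.ax 7 8 11 12 4), .t 1 (nat_lit 0) (.ax 7 8 11 12 5), .t 1 (nat_lit 0) (.ax 7 8 11 12 7), .t 1 (nat_lit 0) (.ax 7 8 11 13 2), .t 1 (nat_lit 0) (.ax 7 8 11 14 0), .t 1 (nat_lit 0) (.ax 7 8 11 14 2), .t 1 (nat_lit 0) (.ax 7 8 11 14 3), .t 1 (nat_lit 0) (.ax 7 8 11 14 5), .t 1 (nat_lit 0) (.ax 7 8 11 14 7), .t 1 (nat_lit 0) (.ax 7 8 11 15 0), .t 1 (nat_lit 0) (.ax 7 8 11 15 2), .t 1 (nat_lit 0) (.ax 7 8 11 15 7), .t 1 (nat_lit 0) (.ax 7 8 11 16 0), .t 1 (nat_lit 0) (.ax 7 8 11 16 4), .t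 1 (nat_lit 0) (.ax 7 8 11 19 7), .t 1 (nat_lit 0) (.ax 7 8 12 13 2), .t 1 (nat_lit 0) (.ax 7 8 12 13 4), .t 1 (nat_lit 0) (.ax 7 8 12 14 1), .t 1 (nat_lit 0) (.ax 7 8 12 14 2), .t 1 (nat_lit 0) (.ax 7 8 12 14 3), .t 1 (nat_lit 0) (.ax 7 8 12 14 4), .t 1 (nat_lit 0) (.ax 7 8 12 14 7), .t 1 (nat_lit 0) (.ax 7 8 12 15 2), .t 1 (nat_lit 0) (.ax 7 8 12 15 6), .t 1 (nat_lit 0) (.ax 7 8 12 19 2)] (by decide +kernel) (by decide +kernel)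
theorem b89 : B 2848 2880 := Blk.of_chk [.t 1 (nat_lit 0) (.ax 7 8 12 19 4), .t 1 (nat_lit 0) (.ax 7 8 12 19 6), .t 1 (nat_lit 0) (.ax 7 8 13 14 3), .t 1 (nat_lit 0) (.ax 7 8 13 15 3), .t 1 (nat_lit 0) (.ax 7 8 13 17 3), .t 1 (nat_lit 0) (.ax 7 8 13 18 3), .t 1 (nat_lit 0) (.ax 7 8 13 19 3), .t 1 (nat_lit 0) (.ax 7 8 13 20 3), .t 1 (nat_lit 0) (.ax 7 8 13 21 3), .t 1 (nat_lit 0) (.ax 7 8 13 22 3), .t 1 (nat_lit 0) (.ax 7 8 14 15 2), .t 1 (nat_lit 0) (.ax 7 8 14 15 4), .t 1 (nat_lit 0) (.ax 7 8 14 16 0), .t 1 (nat_lit 0) (.ax 7 8 14 16 7), .t 1 (nat_lit 0) (.ax 7 8 15 16 3), .t 1 (nat_lit 0) (.ax 7 8 15 16 6), .t 1 (nat_lit 0) (.ax 7 8 15 19 4), .t 1 (nat_lit 0) (.ax 7 8 15 19 6), .t 1 (nat_lit 0) (.ax 7 9 10 11 0), .t 1 (nat_lit 0) (.ax 7 9 10 11 1), .t 1 (nat_lit 0) (.ax 7 9 10 11 3), .t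 1 (nat_lit 0) (.ax 7 9 10 11 4), .t 1 (nat_lit 0) (.ax 7 9 10 11 5), .t 1 (nat_lit 0) (.ax 7 9 10 11 6), .t 1 (nat_lit 0) (.ax 7 9 10 11 7), .t 1 (nat_lit 0) (.ax 7 9 10 12 1), .t 1 (nat_lit 0) (.ax 7 9 10 12 3), .t 1 (nat_lit 0) (.ax 7 9 10 12 4), .t 1 (nat_lit 0) (.ax 7 9 10 12 5), .t 1 (nat_lit 0) (.ax 7 9 10 12 6), .t 1 (nat_lit 0) (.ax 7 9 10 13 2), .t 1 (nat_lit 0) (.ax 7 9 10 14 2)] (by decide +kernel) (by decide +kernel)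
theorem b90 : B 2880 2912 := Blk.of_chk [.t 1 (nat_lit 0) (.ax 7 9 10 14 7), .t 1 (nat_lit 0) (.ax 7 9 10 15 2), .t 1 (nat_lit 0) (.ax 7 9 10 15 4), .t 1 (nat_lit 0) (.ax 7 9 10 15 6), .t 1 (nat_lit 0) (.ax 7 9 10 15 7), .t 1 (nat_lit 0) (.ax 7 9 10 16 7), .t 1 (nat_lit 0) (.ax 7 9 11 12 0), .t 1 (nat_lit 0) (.ax 7 9 11 12 1), .t 1 (nat_lit 0) (.ax 7 9 11 12 3), .t 1 (nat_lit 0) (.ax 7 9 11 12 4), .t 1 (nat_lit 0) (.ax 7 9 11 12 5), .t 1 (nat_lit 0) (.ax 7 9 11 12 7), .t 1 (nat_lit 0) (.ax 7 9 11 13 2), .t 1 (nat_lit 0) (.ax 7 9 11 14 0), .t 1 (nat_lit 0) (.ax 7 9 11 14 2), .t 1 (nat_lit 0) (.ax 7 9 11 14 3), .t 1 (nat_lit 0) (.ax 7 9 11 14 5), .t 1 (nat_lit 0) (.ax 7 9 11 14 7), .t 1 (nat_lit 0) (.ax 7 9 11 15 0), .t 1 (nat_lit 0) (.ax 7 9 11 15 2), .t 1 (nat_lit 0) (.ax 7 9 11 15 3), .t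 1 (nat_lit 0) (.ax 7 9 11 15 4), .t 1 (nat_lit 0) (.ax 7 9 11 15 7), .t 1 (nat_lit 0) (.ax 7 9 11 16 0), .t 1 (nat_lit 0) (.ax 7 9 11 16 7), .t 1 (nat_lit 0) (.ax 7 9 12 13 2), .t 1 (nat_lit 0) (.ax 7 9 12 14 0), .t 1 (nat_lit 0) (.ax 7 9 12 14 1), .t 1 (nat_lit 0) (.ax 7 9 12 14 2), .t 1 (nat_lit 0) (.ax 7 9 12 14 4), .t 1 (nat_lit 0) (.ax 7 9 12 14 5), .t 1 (nat_lit 0) (.ax 7 9 12 15 0)] (by decide +kernel) (by decide +kernel)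
theorem b91 : B 2912 2944 := Blk.of_chk [.t 1 (nat_lit 0) (.ax 7 9 12 16 0), .t 1 (nat_lit 0) (.ax 7 9 12 16 7), .t 1 (nat_lit 0) (.ax 7 9 13 14 3), .t 1 (nat_lit 0) (.ax 7 9 13 15 3), .t 1 (nat_lit 0) (.ax 7 9 13 17 3), .t 1 (nat_lit 0) (.ax 7 9 13 18 3), .t 1 (nat_lit 0) (.ax 7 9 13 19 3), .t 1 (nat_lit 0) (.ax 7 9 13 20 3), .t 1 (nat_lit 0) (.ax 7 9 13 21 3), .t 1 (nat_lit 0) (.ax 7 9 13 22 3), .t 1 (nat_lit 0) (.ax 7 9 14 15 2), .t 1 (nat_lit 0) (.ax 7 9 14 16 2), .t 1 (nat_lit 0) (.ax 7 9 14 16 4), .t 1 (nat_lit 0) (.ax 7 9 14 16 6), .t 1 (nat_lit 0) (.ax 7 9 14 16 7), .t 1 (nat_lit 0) (.ax 7 9 14 19 4), .t 1 (nat_lit 0) (.ax 7 9 15 16 1), .t 1 (nat_lit 0) (.ax 7 9 15 16 6), .t 1 (nat_lit 0) (.ax 7 9 15 19 4), .t 1 (nat_lit 0) (.ax 7 10 11 12 0), .t 1 (nat_lit 0) (.ax 7 10 11 12 1),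 .t 1 (nat_lit 0) (.ax 7 10 11 12 2), .t 1 (nat_lit 0) (.ax 7 10 11 12 3), .t 1 (nat_lit 0) (.ax 7 10 11 12 4), .t 1 (nat_lit 0) (.ax 7 10 11 12 5), .t 1 (nat_lit 0) (.ax 7 10 11 12 7), .t 1 (nat_lit 0) (.ax 7 10 11 13 2), .t 1 (nat_lit 0) (.ax 7 10 11 14 0), .t 1 (nat_lit 0) (.ax 7 10 11 14 2), .t 1 (nat_lit 0) (.ax 7 10 11 14 3), .t 1 (nat_lit 0) (.ax 7 10 11 14 5), .t 1 (nat_lit 0) (.ax 7 10 11 14 7)] (by decide +kernel) (by decide +kernel)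
theorem b92 : B 2944 2976 := Blk.of_chk [.t 1 (nat_lit 0) (.ax 7 10 11 15 0), .t 1 (nat_lit 0) (.ax 7 10 11 15 2), .t 1 (nat_lit 0) (.ax 7 10 11 15 6), .t 1 (nat_lit 0) (.ax 7 10 11 15 7), .t 1 (nat_lit 0) (.ax 7 10 11 16 2), .t 1 (nat_lit 0) (.ax 7 10 11 16 4), .t 1 (nat_lit 0) (.ax 7 10 11 16 6), .t 1 (nat_lit 0) (.ax 7 10 11 16 7), .t 1 (nat_lit 0) (.ax 7 10 12 13 2), .t 1 (nat_lit 0) (.ax 7 10 12 14 0), .t 1 (nat_lit 0) (.ax 7 10 12 14 1), .t 1 (nat_lit 0) (.ax 7 10 12 14 2), .t 1 (nat_lit 0) (.ax 7 10 12 14 4), .t 1 (nat_lit 0) (.ax 7 10 12 14 7), .t 1 (nat_lit 0) (.ax 7 10 12 15 7), .t 1 (nat_lit 0) (.ax 7 10 12 16 0), .t 1 (nat_lit 0) (.ax 7 10 12 16 2), .t 1 (nat_lit 0) (.ax 7 10 12 16 7), .t 1 (nat_lit 0) (.ax 7 10 13 14 3), .t 1 (nat_lit 0) (.ax 7 10 13 15 3), .t 1 (nat_lit 0)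 (.ax 7 10 13 17 3), .t 1 (nat_lit 0) (.ax 7 10 13 18 3), .t 1 (nat_lit 0) (.ax 7 10 13 19 3), .t 1 (nat_lit 0) (.ax 7 10 13 20 3), .t 1 (nat_lit 0) (.ax 7 10 13 21 3), .t 1 (nat_lit 0) (.ax 7 10 13 22 3), .t 1 (nat_lit 0) (.ax 7 10 14 15 0), .t 1 (nat_lit 0) (.ax 7 10 14 15 2), .t 1 (nat_lit 0) (.ax 7 10 14 15 4), .t 1 (nat_lit 0) (.ax 7 10 14 15 5), .t 1 (nat_lit 0) (.ax 7 10 14 15 7), .t 1 (nat_lit 0) (.ax 7 10 14 16 4)] (by decide +kernel) (by decide +kernel)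
theorem b93 : B 2976 3008 := Blk.of_chk [.t 1 (nat_lit 0) (.ax 7 10 14 19 2), .t 1 (nat_lit 0) (.ax 7 10 14 19 4), .t 1 (nat_lit 0) (.ax 7 10 15 16 0), .t 1 (nat_lit 0) (.ax 7 10 15 16 3), .t 1 (nat_lit 0) (.ax 7 10 15 16 4), .t 1 (nat_lit 0) (.ax 7 10 15 16 6), .t 1 (nat_lit 0) (.ax 7 10 18 19 0), .t 1 (nat_lit 0) (.ax 7 11 12 13 2), .t 1 (nat_lit 0) (.ax 7 11 12 14 0), .t 1 (nat_lit 0) (.ax 7 11 12 14 1), .t 1 (nat_lit 0) (.ax 7 11 12 14 2), .t 1 (nat_lit 0) (.ax 7 11 12 14 3), .t 1 (nat_lit 0) (.ax 7 11 12 14 4), .t 1 (nat_lit 0) (.ax 7 11 12 14 5), .t 1 (nat_lit 0) (.ax 7 11 12 14 7), .t 1 (nat_lit 0) (.ax 7 11 12 15 0), .t 1 (nat_lit 0) (.ax 7 11 12 15 2), .t 1 (nat_lit 0) (.ax 7 11 12 15 4), .t 1 (nat_lit 0) (.ax 7 11 12 15 5), .t 1 (nat_lit 0) (.ax 7 11 12 15 7), .t 1 (nat_lit 0)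 (.ax 7 11 12 16 0), .t 1 (nat_lit 0) (.ax 7 11 12 16 1), .t 1 (nat_lit 0) (.ax 7 11 12 16 2), .t 1 (nat_lit 0) (.ax 7 11 12 16 4), .t 1 (nat_lit 0) (.ax 7 11 12 16 7), .t 1 (nat_lit 0) (.ax 7 11 12 19 2), .t 1 (nat_lit 0) (.ax 7 11 12 19 4), .t 1 (nat_lit 0) (.ax 7 11 13 14 3), .t 1 (nat_lit 0) (.ax 7 11 13 15 3), .t 1 (nat_lit 0) (.ax 7 11 13 17 3), .t 1 (nat_lit 0) (.ax 7 11 13 18 3), .t 1 (nat_lit 0) (.ax 7 11 13 19 3)] (by decide +kernel) (by decide +kernel)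
theorem b94 : B 3008 3040 := Blk.of_chk [.t 1 (nat_lit 0) (.ax 7 11 13 20 3), .t 1 (nat_lit 0) (.ax 7 11 13 21 3), .t 1 (nat_lit 0) (.ax 7 11 13 22 3), .t 1 (nat_lit 0) (.ax 7 11 14 15 0), .t 1 (nat_lit 0) (.ax 7 11 14 15 4), .t 1 (nat_lit 0) (.ax 7 11 14 16 0), .t 1 (nat_lit 0) (.ax 7 11 14 16 2), .t 1 (nat_lit 0) (.ax 7 11 14 16 4), .t 1 (nat_lit 0) (.ax 7 11 14 19 0), .t 1 (nat_lit 0) (.ax 7 11 14 19 1), .t 1 (nat_lit 0) (.ax 7 11 14 19 4), .t 1 (nat_lit 0) (.ax 7 11 14 19 6), .t 1 (nat_lit 0) (.ax 7 11 15 16 1), .t 1 (nat_lit 0) (.ax 7 11 15 16 2), .t 1 (nat_lit 0) (.ax 7 11 15 16 4), .t 1 (nat_lit 0) (.ax 7 11 15 16 6), .t 1 (nat_lit 0) (.ax 7 11 15 19 1), .t 1 (nat_lit 0) (.ax 7 11 15 19 2), .t 1 (nat_lit 0) (.ax 7 11 15 19 4), .t 1 (nat_lit 0) (.ax 7 11 16 19 4), .t 1 (nat_lit 0)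 (.ax 7 11 18 19 0), .t 1 (nat_lit 0) (.ax 7 12 13 14 3), .t 1 (nat_lit 0) (.ax 7 12 13 15 3), .t 1 (nat_lit 0) (.ax 7 12 13 17 3), .t 1 (nat_lit 0) (.ax 7 12 13 18 3), .t 1 (nat_lit 0) (.ax 7 12 13 19 3), .t 1 (nat_lit 0) (.ax 7 12 13 20 3), .t 1 (nat_lit 0) (.ax 7 12 13 21 3), .t 1 (nat_lit 0) (.ax 7 12 13 22 3), .t 1 (nat_lit 0) (.ax 7 12 14 15 0), .t 1 (nat_lit 0) (.ax 7 12 14 15 5), .t 1 (nat_lit 0) (.ax 7 12 14 16 0)] (by decide +kernel) (by decide +kernel)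
theorem b95 : B 3040 3072 := Blk.of_chk [.t 1 (nat_lit 0) (.ax 7 12 14 16 1), .t 1 (nat_lit 0) (.ax 7 12 14 16 2), .t 1 (nat_lit 0) (.ax 7 12 14 16 4), .t 1 (nat_lit 0) (.ax 7 12 14 16 7), .t 1 (nat_lit 0) (.ax 7 12 14 19 0), .t 1 (nat_lit 0) (.ax 7 12 14 19 2), .t 1 (nat_lit 0) (.ax 7 12 14 19 4), .t 1 (nat_lit 0) (.ax 7 12 14 19 7), .t 1 (nat_lit 0) (.ax 7 12 15 16 0), .t 1 (nat_lit 0) (.ax 7 12 15 16 2), .t 1 (nat_lit 0) (.ax 7 12 15 16 4), .t 1 (nat_lit 0) (.ax 7 12 15 19 0), .t 1 (nat_lit 0) (.ax 7 12 15 19 2), .t 1 (nat_lit 0) (.ax 7 12 15 19 4), .t 1 (nat_lit 0) (.ax 7 12 17 19 0), .t 1 (nat_lit 0) (.ax 7 12 18 19 0), .t 1 (nat_lit 0) (.ax 7 14 15 16 0), .t 1 (nat_lit 0) (.ax 7 14 15 16 2), .t 1 (nat_lit 0) (.ax 7 14 15 16 4), .t 1 (nat_lit 0) (.ax 7 14 15 19 0), .t 1 (nat_lit 0)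 (.ax 7 15 16 19 4), .t 1 (nat_lit 0) (.ax 8 9 10 11 0), .t 1 (nat_lit 0) (.ax 8 9 10 11 1), .t 1 (nat_lit 0) (.ax 8 9 10 11 2), .t 1 (nat_lit 0) (.ax 8 9 10 11 3), .t 1 (nat_lit 0) (.ax 8 9 10 11 4), .t 1 (nat_lit 0) (.ax 8 9 10 11 5), .t 1 (nat_lit 0) (.ax 8 9 10 11 6), .t 1 (nat_lit 0) (.ax 8 9 10 11 7), .t 1 (nat_lit 0) (.ax 8 9 10 12 0), .t 1 (nat_lit 0) (.ax 8 9 10 12 1), .t 1 (nat_lit 0) (.ax 8 9 10 12 2)] (by decide +kernel) (by decide +kernel)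
theorem b96 : B 3072 3104 := Blk.of_chk [.t 1 (nat_lit 0) (.ax 8 9 10 12 3), .t 1 (nat_lit 0) (.ax 8 9 10 12 4), .t 1 (nat_lit 0) (.ax 8 9 10 12 5), .t 1 (nat_lit 0) (.ax 8 9 10 12 7), .t 1 (nat_lit 0) (.ax 8 9 10 13 0), .t 1 (nat_lit 0) (.ax 8 9 10 13 1), .t 1 (nat_lit 0) (.ax 8 9 10 13 2), .t 1 (nat_lit 0) (.ax 8 9 10 13 3), .t 1 (nat_lit 0) (.ax 8 9 10 13 4), .t 1 (nat_lit 0) (.ax 8 9 10 13 5), .t 1 (nat_lit 0) (.ax 8 9 10 13 7), .t 1 (nat_lit 0) (.ax 8 9 10 14 3), .t 1 (nat_lit 0) (.ax 8 9 10 14 5), .t 1 (nat_lit 0) (.ax 8 9 10 14 6), .t 1 (nat_lit 0) (.ax 8 9 10 14 7), .t 1 (nat_lit 0) (.ax 8 9 10 15 1), .t 1 (nat_lit 0) (.ax 8 9 10 15 3), .t 1 (nat_lit 0) (.ax 8 9 10 15 6), .t 1 (nat_lit 0) (.ax 8 9 10 15 7), .t 1 (nat_lit 0) (.ax 8 9 10 16 6), .t 1 (nat_lit 0) (.ax 8 9 10 16 7), .t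 1 (nat_lit 0) (.ax 8 9 11 12 0), .t 1 (nat_lit 0) (.ax 8 9 11 12 1), .t 1 (nat_lit 0) (.ax 8 9 11 12 2), .t 1 (nat_lit 0) (.ax 8 9 11 12 3), .t 1 (nat_lit 0) (.ax 8 9 11 12 4), .t 1 (nat_lit 0) (.ax 8 9 11 12 5), .t 1 (nat_lit 0) (.ax 8 9 11 12 7), .t 1 (nat_lit 0) (.ax 8 9 11 13 0), .t 1 (nat_lit 0) (.ax 8 9 11 13 1), .t 1 (nat_lit 0) (.ax 8 9 11 13 2), .t 1 (nat_lit 0) (.ax 8 9 11 13 3)] (by decide +kernel) (by decide +kernel)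
theorem b97 : B 3104 3136 := Blk.of_chk [.t 1 (nat_lit 0) (.ax 8 9 11 13 4), .t 1 (nat_lit 0) (.ax 8 9 11 13 5), .t 1 (nat_lit 0) (.ax 8 9 11 13 7), .t 1 (nat_lit 0) (.ax 8 9 11 14 1), .t 1 (nat_lit 0) (.ax 8 9 11 14 3), .t 1 (nat_lit 0) (.ax 8 9 11 14 5), .t 1 (nat_lit 0) (.ax 8 9 11 14 7), .t 1 (nat_lit 0) (.ax 8 9 11 15 5), .t 1 (nat_lit 0) (.ax 8 9 11 15 7), .t 1 (nat_lit 0) (.ax 8 9 11 16 5), .t 1 (nat_lit 0) (.ax 8 9 11 16 7), .t 1 (nat_lit 0) (.ax 8 9 11 17 5), .t 1 (nat_lit 0) (.ax 8 9 11 18 5), .t 1 (nat_lit 0) (.ax 8 9 11 19 5), .t 1 (nat_lit 0) (.ax 8 9 11 20 5), .t 1 (nat_lit 0) (.ax 8 9 11 21 5), .t 1 (nat_lit 0) (.ax 8 9 11 22 5), .t 1 (nat_lit 0) (.ax 8 9 12 13 0), .t 1 (nat_lit 0) (.ax 8 9 12 13 1), .t 1 (nat_lit 0) (.ax 8 9 12 13 2), .t 1 (nat_lit 0) (.ax 8 9 12 13 4), .t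 1 (nat_lit 0) (.ax 8 9 12 13 5), .t 1 (nat_lit 0) (.ax 8 9 12 13 6), .t 1 (nat_lit 0) (.ax 8 9 12 14 0), .t 1 (nat_lit 0) (.ax 8 9 12 14 1), .t 1 (nat_lit 0) (.ax 8 9 12 14 3), .t 1 (nat_lit 0) (.ax 8 9 12 14 4), .t 1 (nat_lit 0) (.ax 8 9 12 14 5), .t 1 (nat_lit 0) (.ax 8 9 12 14 6), .t 1 (nat_lit 0) (.ax 8 9 12 15 0), .t 1 (nat_lit 0) (.ax 8 9 12 15 1), .t 1 (nat_lit 0) (.ax 8 9 12 15 4)] (by decide +kernel) (by decide +kernel)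
theorem b98 : B 3136 3168 := Blk.of_chk [.t 1 (nat_lit 0) (.ax 8 9 13 14 1), .t 1 (nat_lit 0) (.ax 8 9 13 14 4), .t 1 (nat_lit 0) (.ax 8 9 13 15 1), .t 1 (nat_lit 0) (.ax 8 9 13 15 2), .t 1 (nat_lit 0) (.ax 8 9 13 15 4), .t 1 (nat_lit 0) (.ax 8 9 14 15 1), .t 1 (nat_lit 0) (.ax 8 9 14 15 3), .t 1 (nat_lit 0) (.ax 8 9 14 15 4), .t 1 (nat_lit 0) (.ax 8 9 14 15 5), .t 1 (nat_lit 0) (.ax 8 9 14 16 1), .t 1 (nat_lit 0) (.ax 8 9 14 16 2), .t 1 (nat_lit 0) (.ax 8 9 14 16 4), .t 1 (nat_lit 0) (.ax 8 9 14 16 5), .t 1 (nat_lit 0) (.ax 8 9 15 16 1), .t 1 (nat_lit 0) (.ax 8 9 15 16 4), .t 1 (nat_lit 0) (.ax 8 10 11 12 0), .t 1 (nat_lit 0) (.ax 8 10 11 12 1), .t 1 (nat_lit 0) (.ax 8 10 11 12 2), .t 1 (nat_lit 0) (.ax 8 10 11 12 3), .t 1 (nat_lit 0) (.ax 8 10 11 12 4), .t 1 (nat_lit 0) (.ax 8 10 11 12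 5), .t 1 (nat_lit 0) (.ax 8 10 11 12 6), .t 1 (nat_lit 0) (.ax 8 10 11 12 7), .t 1 (nat_lit 0) (.ax 8 10 11 13 0), .t 1 (nat_lit 0) (.ax 8 10 11 13 1), .t 1 (nat_lit 0) (.ax 8 10 11 13 2), .t 1 (nat_lit 0) (.ax 8 10 11 13 3), .t 1 (nat_lit 0) (.ax 8 10 11 13 4), .t 1 (nat_lit 0) (.ax 8 10 11 13 5), .t 1 (nat_lit 0) (.ax 8 10 11 13 6), .t 1 (nat_lit 0) (.ax 8 10 11 13 7), .t 1 (nat_lit 0) (.ax 8 10 11 14 1)] (by decide +kernel) (by decide +kernel)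
theorem b99 : B 3168 3200 := Blk.of_chk [.t 1 (nat_lit 0) (.ax 8 10 11 14 2), .t 1 (nat_lit 0) (.ax 8 10 11 14 3), .t 1 (nat_lit 0) (.ax 8 10 11 14 4), .t 1 (nat_lit 0) (.ax 8 10 11 14 5), .t 1 (nat_lit 0) (.ax 8 10 11 14 7), .t 1 (nat_lit 0) (.ax 8 10 11 15 0), .t 1 (nat_lit 0) (.ax 8 10 11 15 1), .t 1 (nat_lit 0) (.ax 8 10 11 15 3), .t 1 (nat_lit 0) (.ax 8 10 11 15 4), .t 1 (nat_lit 0) (.ax 8 10 11 15 5), .t 1 (nat_lit 0) (.ax 8 10 11 16 4), .t 1 (nat_lit 0) (.ax 8 10 11 16 7), .t 1 (nat_lit 0) (.ax 8 10 12 13 0), .t 1 (nat_lit 0) (.ax 8 10 12 13 1), .t 1 (nat_lit 0) (.ax 8 10 12 13 2), .t 1 (nat_lit 0) (.ax 8 10 12 13 3), .t 1 (nat_lit 0) (.ax 8 10 12 13 4), .t 1 (nat_lit 0) (.ax 8 10 12 13 5), .t 1 (nat_lit 0) (.ax 8 10 12 13 7), .t 1 (nat_lit 0) (.ax 8 10 12 14 1), .t 1 (nat_lit 0)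 (.ax 8 10 12 14 3), .t 1 (nat_lit 0) (.ax 8 10 12 14 4), .t 1 (nat_lit 0) (.ax 8 10 12 14 5), .t 1 (nat_lit 0) (.ax 8 10 12 15 0), .t 1 (nat_lit 0) (.ax 8 10 12 15 4), .t 1 (nat_lit 0) (.ax 8 10 12 16 4), .t 1 (nat_lit 0) (.ax 8 10 13 14 1), .t 1 (nat_lit 0) (.ax 8 10 13 14 4), .t 1 (nat_lit 0) (.ax 8 10 13 15 1), .t 1 (nat_lit 0) (.ax 8 10 13 15 2), .t 1 (nat_lit 0) (.ax 8 10 13 15 4), .t 1 (nat_lit 0) (.ax 8 10 13 21 4)] (by decide +kernel) (by decide +kernel)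
theorem b100 : B 3200 3232 := Blk.of_chk [.t 1 (nat_lit 0) (.ax 8 10 13 22 4), .t 1 (nat_lit 0) (.ax 8 10 14 15 0), .t 1 (nat_lit 0) (.ax 8 10 14 15 1), .t 1 (nat_lit 0) (.ax 8 10 14 15 3), .t 1 (nat_lit 0) (.ax 8 10 14 15 4), .t 1 (nat_lit 0) (.ax 8 10 14 15 5), .t 1 (nat_lit 0) (.ax 8 10 14 16 4), .t 1 (nat_lit 0) (.ax 8 10 14 17 7), .t 1 (nat_lit 0) (.ax 8 10 14 18 7), .t 1 (nat_lit 0) (.ax 8 10 15 16 3), .t 1 (nat_lit 0) (.ax 8 10 15 17 4), .t 1 (nat_lit 0) (.ax 8 10 15 18 4), .t 1 (nat_lit 0) (.ax 8 11 12 13 0), .t 1 (nat_lit 0) (.ax 8 11 12 13 1), .t 1 (nat_lit 0) (.ax 8 11 12 13 2), .t 1 (nat_lit 0) (.ax 8 11 12 13 3), .t 1 (nat_lit 0) (.ax 8 11 12 13 4), .t 1 (nat_lit 0) (.ax 8 11 12 13 5), .t 1 (nat_lit 0) (.ax 8 11 12 14 0), .t 1 (nat_lit 0) (.ax 8 11 12 14 1), .t 1 (nat_lit 0)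 (.ax 8 11 12 14 2), .t 1 (nat_lit 0) (.ax 8 11 12 14 3), .t 1 (nat_lit 0) (.ax 8 11 12 14 4), .t 1 (nat_lit 0) (.ax 8 11 12 14 5), .t 1 (nat_lit 0) (.ax 8 11 12 15 1), .t 1 (nat_lit 0) (.ax 8 11 12 15 3), .t 1 (nat_lit 0) (.ax 8 11 12 16 2), .t 1 (nat_lit 0) (.ax 8 11 12 16 4), .t 1 (nat_lit 0) (.ax 8 11 12 19 2), .t 1 (nat_lit 0) (.ax 8 11 12 19 4), .t 1 (nat_lit 0) (.ax 8 11 13 14 1), .t 1 (nat_lit 0) (.ax 8 11 13 14 2)] (by decide +kernel) (by decide +kernel)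
theorem b101 : B 3232 3264 := Blk.of_chk [.t 1 (nat_lit 0) (.ax 8 11 13 14 4), .t 1 (nat_lit 0) (.ax 8 11 13 15 1), .t 1 (nat_lit 0) (.ax 8 11 13 15 2), .t 1 (nat_lit 0) (.ax 8 11 13 15 4), .t 1 (nat_lit 0) (.ax 8 11 14 15 0), .t 1 (nat_lit 0) (.ax 8 11 14 15 1), .t 1 (nat_lit 0) (.ax 8 11 14 15 2), .t 1 (nat_lit 0) (.ax 8 11 14 15 4), .t 1 (nat_lit 0) (.ax 8 11 14 15 5), .t 1 (nat_lit 0) (.ax 8 11 14 16 2), .t 1 (nat_lit 0) (.ax 8 11 14 16 4), .t 1 (nat_lit 0) (.ax 8 11 15 16 4), .t 1 (nat_lit 0) (.ax 8 11 15 16 6), .t 1 (nat_lit 0) (.ax 8 12 13 14 1), .t 1 (nat_lit 0) (.ax 8 12 13 14 2), .t 1 (nat_lit 0) (.ax 8 12 13 14 4), .t 1 (nat_lit 0) (.ax 8 12 13 15 1), .t 1 (nat_lit 0) (.ax 8 12 13 15 2), .t 1 (nat_lit 0) (.ax 8 12 13 15 4), .t 1 (nat_lit 0) (.ax 8 12 13 16 4), .t 1 (nat_lit 0)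 (.ax 8 12 14 15 0), .t 1 (nat_lit 0) (.ax 8 12 14 15 2), .t 1 (nat_lit 0) (.ax 8 12 14 15 3), .t 1 (nat_lit 0) (.ax 8 12 14 15 5), .t 1 (nat_lit 0) (.ax 8 12 14 16 0), .t 1 (nat_lit 0) (.ax 8 12 14 16 2), .t 1 (nat_lit 0) (.ax 8 12 14 19 4), .t 1 (nat_lit 0) (.ax 8 12 15 19 2), .t 1 (nat_lit 0) (.ax 8 13 14 15 0), .t 1 (nat_lit 0) (.ax 8 13 14 15 5), .t 1 (nat_lit 0) (.ax 8 14 15 16 2), .t 1 (nat_lit 0) (.ax 8 14 15 16 4)] (by decide +kernel) (by decide +kernel)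
theorem b102 : B 3264 3296 := Blk.of_chk [.t 1 (nat_lit 0) (.ax 8 14 15 19 4), .t 1 (nat_lit 0) (.ax 8 14 15 20 4), .t 1 (nat_lit 0) (.ax 9 10 11 12 1), .t 1 (nat_lit 0) (.ax 9 10 11 12 3), .t 1 (nat_lit 0) (.ax 9 10 11 12 4), .t 1 (nat_lit 0) (.ax 9 10 11 12 5), .t 1 (nat_lit 0) (.ax 9 10 11 13 0), .t 1 (nat_lit 0) (.ax 9 10 11 13 1), .t 1 (nat_lit 0) (.ax 9 10 11 13 2), .t 1 (nat_lit 0) (.ax 9 10 11 13 3), .t 1 (nat_lit 0) (.ax 9 10 11 13 4), .t 1 (nat_lit 0) (.ax 9 10 11 13 5), .t 1 (nat_lit 0) (.ax 9 10 11 13 6), .t 1 (nat_lit 0) (.ax 9 10 11 14 0), .t 1 (nat_lit 0) (.ax 9 10 11 14 1), .t 1 (nat_lit 0) (.ax 9 10 11 14 2), .t 1 (nat_lit 0) (.ax 9 10 11 14 3), .t 1 (nat_lit 0) (.ax 9 10 11 14 4), .t 1 (nat_lit 0) (.ax 9 10 11 14 5), .t 1 (nat_lit 0) (.ax 9 10 11 14 6), .t 1 (nat_lit 0)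 (.ax 9 10 11 14 7), .t 1 (nat_lit 0) (.ax 9 10 11 15 1), .t 1 (nat_lit 0) (.ax 9 10 11 15 3), .t 1 (nat_lit 0) (.ax 9 10 11 15 4), .t 1 (nat_lit 0) (.ax 9 10 11 15 5), .t 1 (nat_lit 0) (.ax 9 10 12 13 0), .t 1 (nat_lit 0) (.ax 9 10 12 13 1), .t 1 (nat_lit 0) (.ax 9 10 12 13 3), .t 1 (nat_lit 0) (.ax 9 10 12 13 4), .t 1 (nat_lit 0) (.ax 9 10 12 13 5), .t 1 (nat_lit 0) (.ax 9 10 12 13 6), .t 1 (nat_lit 0) (.ax 9 10 12 14 0)] (by decide +kernel) (by decide +kernel)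
theorem b103 : B 3296 3328 := Blk.of_chk [.t 1 (nat_lit 0) (.ax 9 10 12 14 2), .t 1 (nat_lit 0) (.ax 9 10 12 14 3), .t 1 (nat_lit 0) (.ax 9 10 12 14 4), .t 1 (nat_lit 0) (.ax 9 10 12 14 5), .t 1 (nat_lit 0) (.ax 9 10 12 15 0), .t 1 (nat_lit 0) (.ax 9 10 12 15 1), .t 1 (nat_lit 0) (.ax 9 10 12 15 2), .t 1 (nat_lit 0) (.ax 9 10 12 15 3), .t 1 (nat_lit 0) (.ax 9 10 12 15 4), .t 1 (nat_lit 0) (.ax 9 10 12 15 5), .t 1 (nat_lit 0) (.ax 9 10 12 16 3), .t 1 (nat_lit 0) (.ax 9 10 13 14 2), .t 1 (nat_lit 0) (.ax 9 10 13 14 4), .t 1 (nat_lit 0) (.ax 9 10 13 14 6), .t 1 (nat_lit 0) (.ax 9 10 13 15 4), .t 1 (nat_lit 0) (.ax 9 10 13 21 4), .t 1 (nat_lit 0) (.ax 9 10 13 22 4), .t 1 (nat_lit 0) (.ax 9 10 14 15 0), .t 1 (nat_lit 0) (.ax 9 10 14 15 1), .t 1 (nat_lit 0) (.ax 9 10 14 15 2), .t 1 (nat_lit 0)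 (.ax 9 10 14 15 3), .t 1 (nat_lit 0) (.ax 9 10 14 15 4), .t 1 (nat_lit 0) (.ax 9 10 14 16 3), .t 1 (nat_lit 0) (.ax 9 10 14 16 5), .t 1 (nat_lit 0) (.ax 9 10 15 16 1), .t 1 (nat_lit 0) (.ax 9 10 15 16 4), .t 1 (nat_lit 0) (.ax 9 11 12 13 0), .t 1 (nat_lit 0) (.ax 9 11 12 13 1), .t 1 (nat_lit 0) (.ax 9 11 12 13 3), .t 1 (nat_lit 0) (.ax 9 11 12 13 4), .t 1 (nat_lit 0) (.ax 9 11 12 13 5), .t 1 (nat_lit 0) (.ax 9 11 12 13 6)] (by decide +kernel) (by decide +kernel)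
theorem b104 : B 3328 3360 := Blk.of_chk [.t 1 (nat_lit 0) (.ax 9 11 12 13 7), .t 1 (nat_lit 0) (.ax 9 11 12 14 0), .t 1 (nat_lit 0) (.ax 9 11 12 14 1), .t 1 (nat_lit 0) (.ax 9 11 12 14 2), .t 1 (nat_lit 0) (.ax 9 11 12 14 4), .t 1 (nat_lit 0) (.ax 9 11 12 14 5), .t 1 (nat_lit 0) (.ax 9 11 12 14 6), .t 1 (nat_lit 0) (.ax 9 11 12 15 1), .t 1 (nat_lit 0) (.ax 9 11 12 15 4), .t 1 (nat_lit 0) (.ax 9 11 12 19 0), .t 1 (nat_lit 0) (.ax 9 11 12 19 2), .t 1 (nat_lit 0) (.ax 9 11 12 19 3), .t 1 (nat_lit 0) (.ax 9 11 13 14 1), .t 1 (nat_lit 0) (.ax 9 11 13 14 2), .t 1 (nat_lit 0) (.ax 9 11 13 14 4), .t 1 (nat_lit 0) (.ax 9 11 13 15 2), .t 1 (nat_lit 0) (.ax 9 11 13 15 4), .t 1 (nat_lit 0) (.ax 9 11 13 15 6), .t 1 (nat_lit 0) (.ax 9 11 13 16 4), .t 1 (nat_lit 0) (.ax 9 11 13 17 4), .t 1 (nat_lit 0)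 (.ax 9 11 13 18 4), .t 1 (nat_lit 0) (.ax 9 11 13 19 4), .t 1 (nat_lit 0) (.ax 9 11 13 20 4), .t 1 (nat_lit 0) (.ax 9 11 13 21 4), .t 1 (nat_lit 0) (.ax 9 11 13 22 4), .t 1 (nat_lit 0) (.ax 9 11 14 15 0), .t 1 (nat_lit 0) (.ax 9 11 14 15 1), .t 1 (nat_lit 0) (.ax 9 11 14 15 2), .t 1 (nat_lit 0) (.ax 9 11 14 15 4), .t 1 (nat_lit 0) (.ax 9 11 14 15 5), .t 1 (nat_lit 0) (.ax 9 11 14 16 0), .t 1 (nat_lit 0) (.ax 9 11 14 16 2)] (by decide +kernel) (by decide +kernel)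
theorem b105 : B 3360 3392 := Blk.of_chk [.t 1 (nat_lit 0) (.ax 9 11 14 16 4), .t 1 (nat_lit 0) (.ax 9 11 14 16 5), .t 1 (nat_lit 0) (.ax 9 11 14 21 4), .t 1 (nat_lit 0) (.ax 9 11 14 22 4), .t 1 (nat_lit 0) (.ax 9 11 15 16 4), .t 1 (nat_lit 0) (.ax 9 11 16 17 4), .t 1 (nat_lit 0) (.ax 9 11 16 18 4), .t 1 (nat_lit 0) (.ax 9 11 16 19 4), .t 1 (nat_lit 0) (.ax 9 11 16 20 4), .t 1 (nat_lit 0) (.ax 9 12 13 14 1), .t 1 (nat_lit 0) (.ax 9 12 13 14 2), .t 1 (nat_lit 0) (.ax 9 12 13 14 4), .t 1 (nat_lit 0) (.ax 9 12 13 14 6), .t 1 (nat_lit 0) (.ax 9 12 13 15 1), .t 1 (nat_lit 0) (.ax 9 12 13 15 2), .t 1 (nat_lit 0) (.ax 9 12 13 15 4), .t 1 (nat_lit 0) (.ax 9 12 14 15 0), .t 1 (nat_lit 0) (.ax 9 12 14 15 1), .t 1 (nat_lit 0) (.ax 9 12 14 15 2), .t 1 (nat_lit 0) (.ax 9 12 14 15 3), .t 1 (nat_lit 0)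 (.ax 9 12 14 15 4), .t 1 (nat_lit 0) (.ax 9 12 14 15 5), .t 1 (nat_lit 0) (.ax 9 12 14 16 2), .t 1 (nat_lit 0) (.ax 9 12 14 16 4), .t 1 (nat_lit 0) (.ax 9 12 14 19 0), .t 1 (nat_lit 0) (.ax 9 12 14 19 2), .t 1 (nat_lit 0) (.ax 9 12 15 16 2), .t 1 (nat_lit 0) (.ax 9 12 15 16 4), .t 1 (nat_lit 0) (.ax 9 12 15 19 0), .t 1 (nat_lit 0) (.ax 9 13 14 15 0), .t 1 (nat_lit 0) (.ax 9 13 14 15 5), .t 1 (nat_lit 0) (.ax 9 13 16 17 0)] (by decide +kernel) (by decide +kernel)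
theorem b106 : B 3392 3424 := Blk.of_chk [.t 1 (nat_lit 0) (.ax 9 13 16 18 0), .t 1 (nat_lit 0) (.ax 9 13 16 20 0), .t 1 (nat_lit 0) (.ax 9 13 16 21 0), .t 1 (nat_lit 0) (.ax 9 13 16 22 0), .t 1 (nat_lit 0) (.ax 9 14 15 16 1), .t 1 (nat_lit 0) (.ax 9 14 15 16 2), .t 1 (nat_lit 0) (.ax 9 14 15 16 4), .t 1 (nat_lit 0) (.ax 9 14 15 17 4), .t 1 (nat_lit 0) (.ax 9 14 15 18 4), .t 1 (nat_lit 0) (.ax 9 14 15 19 4), .t 1 (nat_lit 0) (.ax 9 14 15 20 4), .t 1 (nat_lit 0) (.ax 9 14 15 21 4), .t 1 (nat_lit 0) (.ax 9 14 15 22 4), .t 1 (nat_lit 0) (.ax 10 11 12 13 0), .t 1 (nat_lit 0) (.ax 10 11 12 13 1), .t 1 (nat_lit 0) (.ax 10 11 12 13 3), .t 1 (nat_lit 0) (.ax 10 11 12 13 4), .t 1 (nat_lit 0) (.ax 10 11 12 13 5), .t 1 (nat_lit 0) (.ax 10 11 12 13 7), .t 1 (nat_lit 0) (.ax 10 11 12 14 0), .t 1 (nat_lit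 0) (.ax 10 11 12 14 1), .t 1 (nat_lit 0) (.ax 10 11 12 14 2), .t 1 (nat_lit 0) (.ax 10 11 12 14 4), .t 1 (nat_lit 0) (.ax 10 11 12 14 5), .t 1 (nat_lit 0) (.ax 10 11 12 15 0), .t 1 (nat_lit 0) (.ax 10 11 12 15 1), .t 1 (nat_lit 0) (.ax 10 11 12 15 4), .t 1 (nat_lit 0) (.ax 10 11 12 15 5), .t 1 (nat_lit 0) (.ax 10 11 12 15 6), .t 1 (nat_lit 0) (.ax 10 11 12 16 0), .t 1 (nat_lit 0) (.ax 10 11 12 16 2), .t 1 (nat_lit 0) (.ax 10 11 13 14 1)] (by decide +kernel) (by decide +kernel)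
theorem b107 : B 3424 3456 := Blk.of_chk [.t 1 (nat_lit 0) (.ax 10 11 13 14 2), .t 1 (nat_lit 0) (.ax 10 11 13 14 4), .t 1 (nat_lit 0) (.ax 10 11 13 14 6), .t 1 (nat_lit 0) (.ax 10 11 13 15 1), .t 1 (nat_lit 0) (.ax 10 11 13 15 2), .t 1 (nat_lit 0) (.ax 10 11 13 15 4), .t 1 (nat_lit 0) (.ax 10 11 14 15 0), .t 1 (nat_lit 0) (.ax 10 11 14 15 1), .t 1 (nat_lit 0) (.ax 10 11 14 15 2), .t 1 (nat_lit 0) (.ax 10 11 14 15 3), .t 1 (nat_lit 0) (.ax 10 11 14 15 4), .t 1 (nat_lit 0) (.ax 10 11 14 15 5), .t 1 (nat_lit 0) (.ax 10 11 14 16 0), .t 1 (nat_lit 0) (.ax 10 11 14 16 2), .t 1 (nat_lit 0) (.ax 10 11 14 16 4), .t 1 (nat_lit 0) (.ax 10 11 15 16 2), .t 1 (nat_lit 0) (.ax 10 11 15 16 4), .t 1 (nat_lit 0) (.ax 10 11 15 16 6), .t 1 (nat_lit 0) (.ax 10 12 13 14 1), .t 1 (nat_lit 0) (.ax 10 12 13 14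 4), .t 1 (nat_lit 0) (.ax 10 12 13 14 6), .t 1 (nat_lit 0) (.ax 10 12 13 15 1), .t 1 (nat_lit 0) (.ax 10 12 13 15 2), .t 1 (nat_lit 0) (.ax 10 12 13 15 4), .t 1 (nat_lit 0) (.ax 10 12 13 16 4), .t 1 (nat_lit 0) (.ax 10 12 13 22 4), .t 1 (nat_lit 0) (.ax 10 12 14 15 0), .t 1 (nat_lit 0) (.ax 10 12 14 15 1), .t 1 (nat_lit 0) (.ax 10 12 14 15 2), .t 1 (nat_lit 0) (.ax 10 12 14 15 3), .t 1 (nat_lit 0) (.ax 10 12 14 15 4), .t 1 (nat_lit 0) (.ax 10 12 14 15 5)] (by decide +kernel) (by decide +kernel)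
theorem b108 : B 3456 3488 := Blk.of_chk [.t 1 (nat_lit 0) (.ax 10 12 14 16 1), .t 1 (nat_lit 0) (.ax 10 12 14 16 2), .t 1 (nat_lit 0) (.ax 10 12 14 16 4), .t 1 (nat_lit 0) (.ax 10 12 14 16 6), .t 1 (nat_lit 0) (.ax 10 12 14 16 7), .t 1 (nat_lit 0) (.ax 10 12 14 19 2), .t 1 (nat_lit 0) (.ax 10 12 14 19 4), .t 1 (nat_lit 0) (.ax 10 12 15 16 1), .t 1 (nat_lit 0) (.ax 10 12 15 16 2), .t 1 (nat_lit 0) (.ax 10 12 15 16 4), .t 1 (nat_lit 0) (.ax 10 12 15 17 2), .t 1 (nat_lit 0) (.ax 10 12 15 18 2), .t 1 (nat_lit 0) (.ax 10 12 15 19 2), .t 1 (nat_lit 0) (.ax 10 12 15 20 2), .t 1 (nat_lit 0) (.ax 10 12 15 21 2), .t 1 (nat_lit 0) (.ax 10 12 15 22 2), .t 1 (nat_lit 0) (.ax 10 12 18 19 0), .t 1 (nat_lit 0) (.ax 10 13 14 15 0), .t 1 (nat_lit 0) (.ax 10 13 14 15 5), .t 1 (nat_lit 0) (.ax 10 13 16 17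 0), .t 1 (nat_lit 0) (.ax 10 13 16 18 0), .t 1 (nat_lit 0) (.ax 10 13 16 20 0), .t 1 (nat_lit 0) (.ax 10 13 16 21 0), .t 1 (nat_lit 0) (.ax 10 13 16 22 0), .t 1 (nat_lit 0) (.ax 10 14 15 16 2), .t 1 (nat_lit 0) (.ax 10 14 15 16 4), .t 1 (nat_lit 0) (.ax 10 14 15 17 4), .t 1 (nat_lit 0) (.ax 10 14 15 18 4), .t 1 (nat_lit 0) (.ax 10 14 15 19 4), .t 1 (nat_lit 0) (.ax 10 14 15 20 4), .t 1 (nat_lit 0) (.ax 10 14 16 17 4), .t 1 (nat_lit 0) (.ax 10 14 16 18 4)] (by decide +kernel) (by decide +kernel)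
theorem b109 : B 3488 3520 := Blk.of_chk [.t 1 (nat_lit 0) (.ax 10 14 16 19 4), .t 1 (nat_lit 0) (.ax 10 14 16 20 4), .t 1 (nat_lit 0) (.ax 10 14 16 21 4), .t 1 (nat_lit 0) (.ax 10 14 16 22 4), .t 1 (nat_lit 0) (.ax 11 12 13 14 1), .t 1 (nat_lit 0) (.ax 11 12 13 14 2), .t 1 (nat_lit 0) (.ax 11 12 13 14 4), .t 1 (nat_lit 0) (.ax 11 12 13 14 6), .t 1 (nat_lit 0) (.ax 11 12 13 15 1), .t 1 (nat_lit 0) (.ax 11 12 13 15 2), .t 1 (nat_lit 0) (.ax 11 12 13 15 4), .t 1 (nat_lit 0) (.ax 11 12 13 16 4), .t 1 (nat_lit 0) (.ax 11 12 13 17 4), .t 1 (nat_lit 0) (.ax 11 12 13 18 4), .t 1 (nat_lit 0) (.ax 11 12 13 19 4), .t 1 (nat_lit 0) (.ax 11 12 13 20 4), .t 1 (nat_lit 0) (.ax 11 12 14 15 0), .t 1 (nat_lit 0) (.ax 11 12 14 15 1), .t 1 (nat_lit 0) (.ax 11 12 14 15 2), .t 1 (nat_lit 0) (.ax 11 12 14 15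 3), .t 1 (nat_lit 0) (.ax 11 12 14 15 4), .t 1 (nat_lit 0) (.ax 11 12 14 15 5), .t 1 (nat_lit 0) (.ax 11 12 14 16 0), .t 1 (nat_lit 0) (.ax 11 12 14 16 1), .t 1 (nat_lit 0) (.ax 11 12 14 16 2), .t 1 (nat_lit 0) (.ax 11 12 14 16 4), .t 1 (nat_lit 0) (.ax 11 12 14 16 6), .t 1 (nat_lit 0) (.ax 11 12 14 16 7), .t 1 (nat_lit 0) (.ax 11 12 14 17 1), .t 1 (nat_lit 0) (.ax 11 12 14 18 1), .t 1 (nat_lit 0) (.ax 11 12 14 19 0), .t 1 (nat_lit 0) (.ax 11 12 14 19 1)] (by decide +kernel) (by decide +kernel)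
theorem b110 : B 3520 3552 := Blk.of_chk [.t 1 (nat_lit 0) (.ax 11 12 14 19 2), .t 1 (nat_lit 0) (.ax 11 12 14 19 4), .t 1 (nat_lit 0) (.ax 11 12 14 20 4), .t 1 (nat_lit 0) (.ax 11 12 15 16 0), .t 1 (nat_lit 0) (.ax 11 12 15 16 1), .t 1 (nat_lit 0) (.ax 11 12 15 16 2), .t 1 (nat_lit 0) (.ax 11 12 15 16 4), .t 1 (nat_lit 0) (.ax 11 12 15 19 0), .t 1 (nat_lit 0) (.ax 11 12 15 19 2), .t 1 (nat_lit 0) (.ax 11 12 15 19 4), .t 1 (nat_lit 0) (.ax 11 12 15 20 4), .t 1 (nat_lit 0) (.ax 11 12 16 19 4), .t 1 (nat_lit 0) (.ax 11 12 16 20 4), .t 1 (nat_lit 0) (.ax 11 12 17 19 0), .t 1 (nat_lit 0) (.ax 11 12 17 19 1), .t 1 (nat_lit 0) (.ax 11 12 17 19 4), .t 1 (nat_lit 0) (.ax 11 12 18 19 0), .t 1 (nat_lit 0) (.ax 11 12 18 19 1), .t 1 (nat_lit 0) (.ax 11 12 18 19 4), .t 1 (nat_lit 0) (.ax 11 12 19 20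 4), .t 1 (nat_lit 0) (.ax 11 12 20 22 4), .t 1 (nat_lit 0) (.ax 11 12 21 22 5), .t 1 (nat_lit 0) (.ax 11 13 14 15 0), .t 1 (nat_lit 0) (.ax 11 13 14 15 2), .t 1 (nat_lit 0) (.ax 11 13 14 15 4), .t 1 (nat_lit 0) (.ax 11 13 14 15 5), .t 1 (nat_lit 0) (.ax 11 13 16 17 0), .t 1 (nat_lit 0) (.ax 11 13 16 18 0), .t 1 (nat_lit 0) (.ax 11 13 16 20 0), .t 1 (nat_lit 0) (.ax 11 13 16 21 0), .t 1 (nat_lit 0) (.ax 11 13 16 22 0), .t 1 (nat_lit 0) (.ax 11 14 15 16 1)] (by decide +kernel) (by decide +kernel)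
theorem b111 : B 3552 3584 := Blk.of_chk [.t 1 (nat_lit 0) (.ax 11 14 15 16 2), .t 1 (nat_lit 0) (.ax 11 14 15 16 4), .t 1 (nat_lit 0) (.ax 11 14 15 17 1), .t 1 (nat_lit 0) (.ax 11 14 15 17 4), .t 1 (nat_lit 0) (.ax 11 14 15 18 4), .t 1 (nat_lit 0) (.ax 11 14 15 19 2), .t 1 (nat_lit 0) (.ax 11 14 15 19 4), .t 1 (nat_lit 0) (.ax 11 14 15 20 2), .t 1 (nat_lit 0) (.ax 11 14 15 20 4), .t 1 (nat_lit 0) (.ax 11 14 15 21 2), .t 1 (nat_lit 0) (.ax 11 14 15 21 4), .t 1 (nat_lit 0) (.ax 11 14 15 22 2), .t 1 (nat_lit 0) (.ax 11 14 15 22 4), .t 1 (nat_lit 0) (.ax 11 14 16 17 1), .t 1 (nat_lit 0) (.ax 11 14 16 17 4), .t 1 (nat_lit 0) (.ax 11 14 16 18 4), .t 1 (nat_lit 0) (.ax 11 14 16 19 4), .t 1 (nat_lit 0) (.ax 11 14 17 19 2), .t 1 (nat_lit 0) (.ax 11 14 17 19 4), .t 1 (nat_lit 0) (.ax 11 14 18 19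 0), .t 1 (nat_lit 0) (.ax 11 14 18 19 2), .t 1 (nat_lit 0) (.ax 11 14 18 19 4), .t 1 (nat_lit 0) (.ax 11 14 18 19 5), .t 1 (nat_lit 0) (.ax 11 15 16 17 2), .t 1 (nat_lit 0) (.ax 11 15 16 17 4), .t 1 (nat_lit 0) (.ax 11 16 19 21 0), .t 1 (nat_lit 0) (.ax 11 17 18 19 0), .t 1 (nat_lit 0) (.ax 11 17 18 19 5), .t 1 (nat_lit 0) (.ax 11 20 21 22 5), .t 1 (nat_lit 0) (.ax 12 13 14 15 0), .t 1 (nat_lit 0) (.ax 12 13 14 15 2), .t 1 (nat_lit 0) (.ax 12 13 14 15 4)] (by decide +kernel) (by decide +kernel)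
theorem b112 : B 3584 3616 := Blk.of_chk [.t 1 (nat_lit 0) (.ax 12 13 14 15 5), .t 1 (nat_lit 0) (.ax 12 13 16 17 0), .t 1 (nat_lit 0) (.ax 12 13 16 18 0), .t 1 (nat_lit 0) (.ax 12 13 16 20 0), .t 1 (nat_lit 0) (.ax 12 13 16 21 0), .t 1 (nat_lit 0) (.ax 12 13 18 19 0), .t 1 (nat_lit 0) (.ax 12 14 15 16 0), .t 1 (nat_lit 0) (.ax 12 14 15 16 1), .t 1 (nat_lit 0) (.ax 12 14 15 16 2), .t 1 (nat_lit 0) (.ax 12 14 15 16 4), .t 1 (nat_lit 0) (.ax 12 14 15 17 2), .t 1 (nat_lit 0) (.ax 12 14 15 17 4), .t 1 (nat_lit 0) (.ax 12 14 15 18 2), .t 1 (nat_lit 0) (.ax 12 14 15 18 4), .t 1 (nat_lit 0) (.ax 12 14 15 19 2), .t 1 (nat_lit 0) (.ax 12 14 15 19 3), .t 1 (nat_lit 0) (.ax 12 14 15 19 4), .t 1 (nat_lit 0) (.ax 12 14 15 20 2), .t 1 (nat_lit 0) (.ax 12 14 15 20 4), .t 1 (nat_lit 0) (.ax 12 14 15 21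 2), .t 1 (nat_lit 0) (.ax 12 14 15 21 4), .t 1 (nat_lit 0) (.ax 12 14 15 22 2), .t 1 (nat_lit 0) (.ax 12 14 15 22 4), .t 1 (nat_lit 0) (.ax 12 14 16 17 4), .t 1 (nat_lit 0) (.ax 12 14 16 18 4), .t 1 (nat_lit 0) (.ax 12 14 16 19 4), .t 1 (nat_lit 0) (.ax 12 14 16 20 4), .t 1 (nat_lit 0) (.ax 12 14 17 18 0), .t 1 (nat_lit 0) (.ax 12 14 17 18 5), .t 1 (nat_lit 0) (.ax 12 14 17 19 0), .t 1 (nat_lit 0) (.ax 12 14 17 19 2), .t 1 (nat_lit 0) (.ax 12 14 17 19 4)] (by decide +kernel) (by decide +kernel)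
theorem b113 : B 3616 3648 := Blk.of_chk [.t 1 (nat_lit 0) (.ax 12 14 17 20 0), .t 1 (nat_lit 0) (.ax 12 14 17 21 0), .t 1 (nat_lit 0) (.ax 12 14 17 22 0), .t 1 (nat_lit 0) (.ax 12 14 18 19 0), .t 1 (nat_lit 0) (.ax 12 14 18 19 2), .t 1 (nat_lit 0) (.ax 12 14 18 19 4), .t 1 (nat_lit 0) (.ax 12 14 18 19 5), .t 1 (nat_lit 0) (.ax 12 14 18 20 2), .t 1 (nat_lit 0) (.ax 12 14 19 20 4), .t 1 (nat_lit 0) (.ax 12 15 16 17 4), .t 1 (nat_lit 0) (.ax 12 15 16 18 2), .t 1 (nat_lit 0) (.ax 12 15 16 18 4), .t 1 (nat_lit 0) (.ax 12 15 16 19 4), .t 1 (nat_lit 0) (.ax 12 15 16 20 4), .t 1 (nat_lit 0) (.ax 12 15 16 21 4), .t 1 (nat_lit 0) (.ax 12 15 16 22 4), .t 1 (nat_lit 0) (.ax 12 15 17 19 0), .t 1 (nat_lit 0) (.ax 12 15 18 19 2), .t 1 (nat_lit 0) (.ax 12 15 19 20 4), .t 1 (nat_lit 0) (.ax 12 15 19 21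 4), .t 1 (nat_lit 0) (.ax 12 15 19 22 4), .t 1 (nat_lit 0) (.ax 12 16 17 18 0), .t 1 (nat_lit 0) (.ax 12 16 19 21 0), .t 1 (nat_lit 0) (.ax 12 17 18 19 0), .t 1 (nat_lit 0) (.ax 12 17 18 19 1), .t 1 (nat_lit 0) (.ax 12 17 18 19 4), .t 1 (nat_lit 0) (.ax 12 17 18 19 5), .t 1 (nat_lit 0) (.ax 12 17 18 19 7), .t 1 (nat_lit 0) (.ax 12 17 18 20 1), .t 1 (nat_lit 0) (.ax 12 17 19 20 4), .t 1 (nat_lit 0) (.ax 12 17 19 20 6), .t 1 (nat_lit 0) (.ax 12 17 19 21 4)] (by decide +kernel) (by decide +kernel)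
theorem b114 : B 3648 3680 := Blk.of_chk [.t 1 (nat_lit 0) (.ax 12 17 19 22 4), .t 1 (nat_lit 0) (.ax 12 17 20 22 4), .t 1 (nat_lit 0) (.ax 12 17 21 22 5), .t 1 (nat_lit 0) (.ax 12 18 19 20 4), .t 1 (nat_lit 0) (.ax 12 18 19 20 6), .t 1 (nat_lit 0) (.ax 12 18 20 22 4), .t 1 (nat_lit 0) (.ax 12 18 21 22 5), .t 1 (nat_lit 0) (.ax 12 19 20 21 0), .t 1 (nat_lit 0) (.ax 12 20 21 22 5), .t 1 (nat_lit 0) (.ax 13 14 15 16 2), .t 1 (nat_lit 0) (.ax 13 14 16 17 3), .t 1 (nat_lit 0) (.ax 13 14 16 18 3), .t 1 (nat_lit 0) (.ax 13 14 16 20 3), .t 1 (nat_lit 0) (.ax 13 14 16 21 3), .t 1 (nat_lit 0) (.ax 13 14 16 22 3), .t 1 (nat_lit 0) (.ax 13 15 16 17 3), .t 1 (nat_lit 0) (.ax 13 15 16 18 3), .t 1 (nat_lit 0) (.ax 13 15 16 20 3), .t 1 (nat_lit 0) (.ax 13 15 16 21 3), .t 1 (nat_lit 0) (.ax 13 15 16 22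 3), .t 1 (nat_lit 0) (.ax 14 15 16 17 4), .t 1 (nat_lit 0) (.ax 14 15 16 18 2), .t 1 (nat_lit 0) (.ax 14 15 16 18 4), .t 1 (nat_lit 0) (.ax 14 15 16 19 4), .t 1 (nat_lit 0) (.ax 14 15 16 20 4), .t 1 (nat_lit 0) (.ax 14 15 16 21 4), .t 1 (nat_lit 0) (.ax 14 15 16 22 4), .t 1 (nat_lit 0) (.ax 14 15 18 19 0), .t 1 (nat_lit 0) (.ax 14 15 18 19 2), .t 1 (nat_lit 0) (.ax 14 17 18 19 0), .t 1 (nat_lit 0) (.ax 14 17 18 19 1), .t 1 (nat_lit 0) (.ax 14 17 18 19 5)] (by decide +kernel) (by decide +kernel)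
theorem b115 : B 3680 3712 := Blk.of_chk [.t 1 (nat_lit 0) (.ax 14 17 19 20 4), .t 1 (nat_lit 0) (.ax 14 17 19 21 4), .t 1 (nat_lit 0) (.ax 14 17 19 22 4), .t 1 (nat_lit 0) (.ax 14 18 19 20 4), .t 1 (nat_lit 0) (.ax 15 16 19 21 0), .t 1 (nat_lit 0) (.ax 16 17 18 22 4), .t 1 (nat_lit 0) (.ax 16 17 19 21 3), .t 1 (nat_lit 0) (.ax 16 18 19 21 3), .t 1 (nat_lit 0) (.ax 17 20 21 22 5), .t 1 (nat_lit 0) (.ax 18 20 21 22 5), .t 1 (nat_lit 0) (.fa 5), .t 1 (nat_lit 0) (.fa 3), .t 1 (nat_lit 0) (.cn 7 2), .t 8 (nat_lit 0x327032603240399039703320331) (.z (.node 2 4 (.node 0 8 (.free 4 [0,9,10,11,12,13,14,15,16,17,18,19,20,21,22]) (.leaf [2,5,7,8,6])) (.free 1 [1,3,4]))), .t 1 (nat_lit 0) (.fa 5), .t 1 (nat_lit 0) (.cp 6 3), .t 1 (nat_lit 0) (.cp 1 3), .t 1 (nat_lit 0) (.cp 7 3), .t 9 (nat_lit 0xdb20dc70dc50dba0db800270de20de1)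 (.z (.node 1 13 (.node 0 10 (.node 0 16 (.free 2 [0,17,18,19,20,21,22]) (.leaf [11,14,15,16,12])) (.leaf [1,6,10,2])) (.free 2 [3,4,5,7,8,9,13]))), .t 1 (nat_lit 0) (.fa 2), .t 9 (nat_lit 0xd7c0d8a0d880d830d8100250d9a0d99) (.z (.node 1 13 (.node 0 9 (.node 0 16 (.free 2 [0,17,18,19,20,21,22]) (.leaf [10,14,15,16,12])) (.leaf [1,6,9,2])) (.free 2 [3,4,5,7,8,11,13]))), .t 1 (nat_lit 0) (.cn 1 3), .t 1 (nat_lit 0) (.cn 2 3), .t 6 (nat_lit 0x3cd03cc0160015e0027) (.z (.edon 0 16 (.node 1 13 (.node 0 11 (.leaf [0,12,14,15]) (.leaf [1,6,10,11,2])) (.free 2 [3,4,5,7,8,9,13])) (.free 2 [16,17,18,19,20,21,22]))), .t 1 (nat_lit 0) (.fa 4), .t 1 (nat_lit 0) (.cn 1 2), .t 1 (nat_lit 0) (.fa 4), .t 1 (nat_lit 0) (.cn 1 3), .t 4 (nat_lit 0x370db50db3) (.z (.edon 0 16 (.node 1 13 (.node 0 10 (.leaf [0,11,12,14,15])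 (.leaf [1,9,10,2])) (.free 2 [3,4,5,6,7,8,13])) (.free 2 [16,17,18,19,20,21,22]))), .t 1 (nat_lit 0) (.cn 1 3), .t 7 (nat_lit 0x30500560005000206a4069f) (.z (.edon 0 16 (.node 5 13 (.node 0 11 (.leaf [0,12,14,15]) (.edon 4 6 (.leaf [4,5,11,9]) (.leaf [1,3,6,10,2]))) (.leaf [7,8,13])) (.free 2 [16,17,18,19,20,21,22]))), .t 7 (nat_lit 0x6a40590058c055005350027) (.z (.edon 0 16 (.node 5 13 (.node 0 11 (.leaf [0,12,14,15]) (.node 1 9 (.leaf [1,6,10,2]) (.leaf [3,4,5,11,9]))) (.leaf [7,8,13])) (.free 2 [16,17,18,19,20,21,22])))] (by decide +kernel) (by decide +kernel)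
theorem b116 : B 3712 3744 := Blk.of_chk [.t 7 (nat_lit 0x30500560005000206a4069f) (.z (.edon 0 16 (.node 5 13 (.node 0 11 (.leaf [0,12,14,15]) (.edon 4 10 (.leaf [4,5,11,9]) (.leaf [1,3,6,10,2]))) (.leaf [7,8,13])) (.free 2 [16,17,18,19,20,21,22]))), .t 1 (nat_lit 0) (.cn 1 3), .t 1 (nat_lit 0) (.cp 1 2), .t 1 (nat_lit 0) (.cn 1 3), .t 7 (nat_lit 0x3b903b70147014500250535) (.z (.edon 0 16 (.node 5 13 (.node 0 11 (.leaf [0,12,14,15]) (.edon 3 9 (.leaf [3,4,5,11]) (.leaf [1,6,9,10,2]))) (.leaf [7,8,13])) (.free 2 [16,17,18,19,20,21,22]))), .t 1 (nat_lit 0) (.cn 1 3), .t 1 (nat_lit 0) (.cn 2 2), .t 1 (nat_lit 0) (.fa 2), .t 6 (nat_lit 0x3ba0148014400370027) (.z (.edon 0 16 (.node 1 13 (.node 0 10 (.leaf [0,12,14,15]) (.leaf [1,6,10,9,2])) (.free 2 [3,4,5,7,8,11,13])) (.free 2 [16,17,18,19,20,21,22]))),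 .t 1 (nat_lit 0) (.cp 1 3), .t 7 (nat_lit 0x653055d055a053a05300037) (.z (.edon 0 16 (.node 5 13 (.node 0 10 (.leaf [0,12,14,15]) (.node 1 8 (.leaf [1,9,10,2]) (.leaf [3,4,5,8,6]))) (.leaf [7,11,13])) (.free 2 [16,17,18,19,20,21,22]))), .t 1 (nat_lit 0) (.cn 1 3), .t 5 (nat_lit 0x303005400030002) (.z (.node 8 0 (.edon 4 8 (.leaf [4,5,7]) (.leaf [1,3,6,8,2])) (.free 4 [0,9,10,11,12,13,14,15,16,17,18,19,20,21,22]))), .t 7 (nat_lit 0x681067c0304005500040002) (.z (.edon 0 16 (.node 5 13 (.node 0 10 (.leaf [0,12,14,15]) (.node 6 10 (.leaf [1,3,6,9,2]) (.leaf [4,5,10,8]))) (.leaf [7,11,13])) (.free 2 [16,17,18,19,20,21,22]))), .t 5 (nat_lit 0x3c803c70d740d73) (.z (.edon 0 16 (.edon 1 13 (.free 2 [1,3,4,5,7,8,11]) (.edon 10 15 (.leaf [10,13,14,12]) (.leaf [0,2,6,9,15]))) (.free 2 [16,17,18,19,20,21,22]))),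 .t 6 (nat_lit 0x4150198019300370032) (.z (.edon 0 16 (.node 1 13 (.node 0 10 (.leaf [0,12,14,15]) (.leaf [1,8,10,9,2])) (.free 2 [3,4,5,6,7,11,13])) (.free 2 [16,17,18,19,20,21,22]))), .t 8 (nat_lit 0xccb0c5c0c590c210c1e0c0a0c08) (.z (.node 0 7 (.edon 0 16 (.node 12 13 (.leaf [0,12,14,15]) (.leaf [8,11,13,10,9])) (.free 2 [16,17,18,19,20,21,22])) (.free 2 [1,2,3,4,5,6,7]))), .t 7 (nat_lit 0x65e05670563053d05330031) (.z (.edon 0 16 (.node 5 13 (.node 0 10 (.leaf [0,12,14,15]) (.node 1 10 (.leaf [1,8,9,2]) (.leaf [3,4,5,10,6]))) (.leaf [7,11,13])) (.free 2 [16,17,18,19,20,21,22]))), .t 1 (nat_lit 0) (.cn 1 3), .t 7 (nat_lit 0x25068105740570054a0533) (.z (.edon 0 16 (.node 5 13 (.node 0 10 (.leaf [0,12,14,15]) (.edon 3 6 (.leaf [3,4,5,10,8]) (.leaf [1,6,9,2]))) (.leaf [7,11,13])) (.free 2 [16,17,18,19,20,21,22]))),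 .t 1 (nat_lit 0) (.cn 2 2), .t 7 (nat_lit 0x65e05670563053d05330031) (.z (.edon 0 16 (.node 5 13 (.node 0 10 (.leaf [0,12,14,15]) (.node 1 6 (.leaf [1,8,9,2]) (.leaf [3,4,5,10,6]))) (.leaf [7,11,13])) (.free 2 [16,17,18,19,20,21,22]))), .t 7 (nat_lit 0x68105740570054a05330025) (.z (.edon 0 16 (.node 5 13 (.node 0 10 (.leaf [0,12,14,15]) (.node 1 8 (.leaf [1,6,9,2]) (.leaf [3,4,5,10,8]))) (.leaf [7,11,13])) (.free 2 [16,17,18,19,20,21,22]))), .t 7 (nat_lit 0x24069c05890586054f0533) (.z (.edon 0 16 (.node 5 13 (.node 0 10 (.leaf [0,12,14,15]) (.edon 3 8 (.leaf [3,4,5,10,9]) (.leaf [1,6,8,2]))) (.leaf [7,11,13])) (.free 2 [16,17,18,19,20,21,22]))), .t 1 (nat_lit 0) (.cn 1 3), .t 4 (nat_lit 0x310d7f0d7d) (.z (.edon 0 16 (.node 1 13 (.node 0 9 (.leaf [0,10,12,14,15]) (.leaf [1,8,9,2])) (.free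 2 [3,4,5,6,7,11,13])) (.free 2 [16,17,18,19,20,21,22]))), .t 4 (nat_lit 0x250d7f0d7d) (.z (.edon 0 16 (.node 1 13 (.node 0 9 (.leaf [0,10,12,14,15]) (.leaf [1,6,9,2])) (.free 2 [3,4,5,7,8,11,13])) (.free 2 [16,17,18,19,20,21,22]))), .t 5 (nat_lit 0xc920c8d0cf60cf4) (.z (.node 0 7 (.edon 0 16 (.node 10 13 (.leaf [0,9,10,14,15]) (.leaf [8,11,13,12])) (.free 2 [16,17,18,19,20,21,22])) (.free 2 [1,2,3,4,5,6,7]))), .t 1 (nat_lit 0) (.cn 2 3), .t 5 (nat_lit 0xc920c8d0cf60cf4) (.z (.node 0 7 (.edon 0 16 (.node 9 13 (.leaf [0,9,10,14,15]) (.leaf [8,11,13,12])) (.free 2 [16,17,18,19,20,21,22])) (.free 2 [1,2,3,4,5,6,7]))), .t 8 (nat_lit 0x8900889088708e908e608ab08a9) (.z (.node 2 4 (.node 2 8 (.free 4 [0,2,9,10,12,13,14,15,16,17,18,19,20,21,22]) (.leaf [5,7,11,8,6])) (.free 1 [1,3,4]))), .t 8 (nat_lit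 0x8900889088708e908e608ab08a9) (.z (.node 2 4 (.node 2 11 (.free 4 [0,2,9,10,12,13,14,15,16,17,18,19,20,21,22]) (.leaf [5,7,11,8,6])) (.free 1 [1,3,4])))] (by decide +kernel) (by decide +kernel)
theorem b117 : B 3744 3776 := Blk.of_chk [.t 1 (nat_lit 0) (.fa 3), .t 10 (nat_lit 0x90008ff08fc097d097b0903090203a603a5) (.z (.edon 0 13 (.node 4 10 (.node 2 4 (.leaf [0,2,6,8,9]) (.leaf [1,3,4])) (.leaf [5,7,11,12,10])) (.free 3 [13,14,15,16,17,18,19,20,21,22]))), .t 13 (nat_lit 0x8ea08e908e609430941090309020718071605d305d2053b) (.z (.edon 0 13 (.node 4 8 (.edon 0 3 (.leaf [0,1,2]) (.leaf [3,4,10,9,6])) (.leaf [5,7,11,12,8])) (.free 3 [13,14,15,16,17,18,19,20,21,22]))), .t 6 (nat_lit 0x68105740570054a0533) (.z (.node 10 1 (.edon 7 10 (.leaf [7,11,13]) (.leaf [3,4,5,10,8])) (.free 4 [0,1,2,6,9,12,14,15,16,17,18,19,20,21,22]))),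 .t 15 (nat_lit 0x5cf05ba05b70d540d520d4e0609060805df05de0d740d730d620d61) (.z (.edon 0 16 (.edon 4 11 (.leaf [4,5,7]) (.edon 10 15 (.leaf [10,11,13,14,12]) (.edon 0 3 (.leaf [0,1,2]) (.leaf [3,8,15,9,6])))) (.free 2 [16,17,18,19,20,21,22]))), .t 7 (nat_lit 0x681067c0304005500040002) (.z (.edon 0 16 (.node 5 13 (.node 0 10 (.leaf [0,12,14,15]) (.node 3 10 (.leaf [1,3,6,9,2]) (.leaf [4,5,10,8]))) (.leaf [7,11,13])) (.free 2 [16,17,18,19,20,21,22]))), .t 5 (nat_lit 0x303005400030002) (.z (.node 8 0 (.edon 4 6 (.leaf [4,5,7]) (.leaf [1,3,6,8,2])) (.free 4 [0,9,10,11,12,13,14,15,16,17,18,19,20,21,22]))), .t 7 (nat_lit 0x3040055000400020d7f0d7d) (.z (.edon 0 16 (.node 5 13 (.node 0 9 (.leaf [0,10,12,14,15]) (.node 3 8 (.leaf [1,3,6,9,2]) (.leaf [4,5,8]))) (.leaf [7,11,13])) (.free 2 [16,17,18,19,20,21,22]))),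 .t 10 (nat_lit 0x8ea08e908e6094309410903090203b903b7) (.z (.edon 0 13 (.node 4 8 (.node 2 4 (.leaf [0,2,6,9,10]) (.leaf [1,3,4])) (.leaf [5,7,11,12,8])) (.free 3 [13,14,15,16,17,18,19,20,21,22]))), .t 6 (nat_lit 0x2067906740d7f0d7d) (.z (.edon 0 16 (.node 5 13 (.node 0 9 (.leaf [0,10,12,14,15]) (.edon 4 6 (.leaf [4,5,9,8]) (.leaf [1,3,6,2]))) (.leaf [7,11,13])) (.free 2 [16,17,18,19,20,21,22]))), .t 6 (nat_lit 0x3b903b7014701450025) (.z (.edon 0 16 (.node 1 13 (.node 0 10 (.leaf [0,12,14,15]) (.leaf [1,6,9,10,2])) (.free 2 [3,4,5,7,8,11,13])) (.free 2 [16,17,18,19,20,21,22]))), .t 8 (nat_lit 0x8900889088708e908e608ab08a9) (.z (.node 2 4 (.node 9 11 (.free 4 [0,2,9,10,12,13,14,15,16,17,18,19,20,21,22]) (.leaf [5,7,11,8,6])) (.free 1 [1,3,4]))), .t 7 (nat_lit 0x6590562055e053b05310032) (.z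 (.edon 0 16 (.node 5 13 (.node 0 10 (.leaf [0,12,14,15]) (.node 1 9 (.leaf [1,8,10,2]) (.leaf [3,4,5,9,6]))) (.leaf [7,11,13])) (.free 2 [16,17,18,19,20,21,22]))), .t 17 (nat_lit 0xbfe0ccb0c590c540c510c320c1a0c0a0c050cff0c920c8d0c720c700c210c1f) (.z (.node 7 0 (.free 2 [1,2,3,4,5,6,7]) (.node 13 0 (.leaf [8,9,11,13,12,10]) (.free 3 [0,14,15,16,17,18,19,20,21,22])))), .t 8 (nat_lit 0x890088c088a08f608f308bc08ba) (.z (.node 2 4 (.node 2 9 (.free 4 [0,2,8,10,12,13,14,15,16,17,18,19,20,21,22]) (.leaf [5,7,11,9,6])) (.free 1 [1,3,4]))), .t 8 (nat_lit 0x8de08f608f308e908e6091d091b) (.z (.node 2 4 (.edon 8 13 (.leaf [5,7,11,9,8]) (.free 4 [0,2,6,10,12,13,14,15,16,17,18,19,20,21,22])) (.free 1 [1,3,4]))), .t 10 (nat_lit 0x6540653064e06f706f4067806760d7f0d7d) (.z (.node 0 3 (.node 5 13 (.node 0 9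 (.edon 0 16 (.leaf [0,10,12,14,15]) (.free 2 [16,17,18,19,20,21,22])) (.leaf [4,5,8,9,6])) (.leaf [7,11,13])) (.free 1 [1,2,3]))), .t 10 (nat_lit 0x8ea08e908e6094309410903090203b903b7) (.z (.edon 0 13 (.node 4 12 (.node 2 4 (.leaf [0,2,6,9,10]) (.leaf [1,3,4])) (.leaf [5,7,11,12,8])) (.free 3 [13,14,15,16,17,18,19,20,21,22]))), .t 17 (nat_lit 0xb050adb0ad50cc50c540c1a0c030c010b780b750b4a0b480b3d0b3b0acd0acb) (.z (.edon 0 7 (.free 2 [0,1,2,3,4,5,6]) (.edon 0 13 (.leaf [7,11,12,10,9,8]) (.free 3 [13,14,15,16,17,18,19,20,21,22])))), .t 5 (nat_lit 0x300004e00030001) (.z (.node 8 0 (.edon 4 5 (.leaf [4,6,7]) (.leaf [1,3,5,8,2])) (.free 4 [0,9,10,11,12,13,14,15,16,17,18,19,20,21,22]))), .t 6 (nat_lit 0x4140412019701950031) (.z (.edon 0 16 (.node 1 13 (.node 0 10 (.leaf [0,12,14,15]) (.leaf [1,8,9,10,2]))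 (.free 2 [3,4,5,6,7,11,13])) (.free 2 [16,17,18,19,20,21,22]))), .t 8 (nat_lit 0x9f708e908e608ab08a608920891) (.z (.node 2 4 (.edon 8 13 (.leaf [5,6,7,11,8]) (.free 4 [0,2,9,10,12,13,14,15,16,17,18,19,20,21,22])) (.free 1 [1,3,4]))), .t 1 (nat_lit 0) (.cn 1 3), .t 5 (nat_lit 0x300004e00030001) (.z (.node 8 0 (.edon 4 8 (.leaf [4,6,7]) (.leaf [1,3,5,8,2])) (.free 4 [0,9,10,11,12,13,14,15,16,17,18,19,20,21,22]))), .t 1 (nat_lit 0) (.fa 2), .t 10 (nat_lit 0x895041404120a120a110903090208920891) (.z (.edon 0 13 (.edon 1 9 (.edon 0 5 (.leaf [1,3,4]) (.leaf [5,6,7,11,12])) (.leaf [0,2,8,9,10])) (.free 3 [13,14,15,16,17,18,19,20,21,22]))), .t 4 (nat_lit 0x310d7f0d7d) (.z (.edon 0 16 (.node 1 13 (.node 0 9 (.leaf [0,10,12,14,15]) (.leaf [1,9,8,2])) (.free 2 [3,4,5,6,7,11,13])) (.free 2 [16,17,18,19,20,21,22]))),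 .t 5 (nat_lit 0xc210c1e0d7f0d7d) (.z (.node 0 7 (.edon 0 16 (.node 12 13 (.leaf [0,10,12,14,15]) (.leaf [8,11,13,9])) (.free 2 [16,17,18,19,20,21,22])) (.free 2 [1,2,3,4,5,6,7]))), .t 8 (nat_lit 0xa0408f608f308bc08b808920891) (.z (.node 2 4 (.edon 9 13 (.leaf [5,6,7,11,9]) (.free 4 [0,2,8,10,12,13,14,15,16,17,18,19,20,21,22])) (.free 1 [1,3,4]))), .t 5 (nat_lit 0xc210c1e0d7f0d7d) (.z (.node 0 7 (.edon 0 16 (.node 10 13 (.leaf [0,10,12,14,15]) (.leaf [8,11,13,9])) (.free 2 [16,17,18,19,20,21,22])) (.free 2 [1,2,3,4,5,6,7]))), .t 5 (nat_lit 0x302005000050001) (.z (.edon 0 16 (.node 12 13 (.leaf [0,12,14,15]) (.node 3 8 (.leaf [1,3,5,10,2]) (.free 2 [4,6,7,8,9,11,13]))) (.free 2 [16,17,18,19,20,21,22]))), .t 1 (nat_lit 0) (.fa 2)] (by decide +kernel) (by decide +kernel)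
theorem b118 : B 3776 3808 := Blk.of_chk [.t 7 (nat_lit 0x6580561055f053b05310032) (.z (.edon 0 16 (.node 12 13 (.leaf [0,12,14,15]) (.node 1 9 (.leaf [1,8,10,2]) (.edon 7 9 (.leaf [7,11,13]) (.leaf [3,4,6,9,5])))) (.free 2 [16,17,18,19,20,21,22]))), .t 1 (nat_lit 0) (.cn 2 2), .t 1 (nat_lit 0) (.cn 2 2), .t 1 (nat_lit 0) (.cn 1 3), .t 9 (nat_lit 0x674069c06970681067c077a07780002) (.z (.edon 0 16 (.node 5 13 (.node 0 10 (.leaf [0,12,14,15]) (.node 3 8 (.leaf [1,3,6,2]) (.leaf [4,5,10,9,8]))) (.leaf [7,11,13])) (.free 2 [16,17,18,19,20,21,22]))), .t 1 (nat_lit 0) (.fa 3), .t 17 (nat_lit 0x41f03c00a660a39046404610428042403f403f303c503c204b704b503b203b1) (.z (.edon 1 13 (.free 2 [1,3,4,5,7,10,11]) (.node 13 0 (.leaf [2,6,8,13,12,9]) (.free 3 [0,14,15,16,17,18,19,20,21,22])))), .t 15 (nat_lit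 0x88d08890887049a0495049208e508e208a408a2050c050904b704b5) (.z (.edon 0 16 (.node 0 13 (.leaf [0,14,15]) (.node 2 10 (.leaf [2,11,13,12,9]) (.edon 0 5 (.leaf [1,3,4]) (.leaf [5,7,10,8,6])))) (.free 2 [16,17,18,19,20,21,22]))), .t 8 (nat_lit 0x890088f088d08ff08fc08c908c8) (.z (.node 2 4 (.edon 6 13 (.leaf [5,7,11,10,6]) (.free 4 [0,2,8,9,12,13,14,15,16,17,18,19,20,21,22])) (.free 1 [1,3,4]))), .t 8 (nat_lit 0x8ff040d040a0368036403370336) (.z (.node 2 4 (.edon 2 13 (.leaf [2,5,7,11,10]) (.free 4 [0,6,8,9,12,13,14,15,16,17,18,19,20,21,22])) (.free 1 [1,3,4]))), .t 10 (nat_lit 0x64e0681067c065e065a06ff06fd0d350d33) (.z (.node 0 3 (.node 5 13 (.node 9 10 (.edon 0 16 (.leaf [0,9,12,14,15]) (.free 2 [16,17,18,19,20,21,22])) (.leaf [4,5,10,8,6])) (.leaf [7,11,13])) (.free 1 [1,2,3]))), .t 8 (nat_lit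 0x68105740570054a05330d350d33) (.z (.edon 0 16 (.node 5 13 (.node 9 10 (.leaf [0,9,12,14,15]) (.node 1 8 (.leaf [1,2,6]) (.leaf [3,4,5,10,8]))) (.leaf [7,11,13])) (.free 2 [16,17,18,19,20,21,22]))), .t 8 (nat_lit 0xa0c08ff08fc08c908c608920891) (.z (.node 2 4 (.edon 10 13 (.leaf [5,6,7,11,10]) (.free 4 [0,2,8,9,12,13,14,15,16,17,18,19,20,21,22])) (.free 1 [1,3,4]))), .t 5 (nat_lit 0xc5c0c590d350d33) (.z (.node 0 7 (.edon 0 16 (.node 12 13 (.leaf [0,9,12,14,15]) (.leaf [8,11,13,10])) (.free 2 [16,17,18,19,20,21,22])) (.free 2 [1,2,3,4,5,6,7]))), .t 4 (nat_lit 0x320d350d33) (.z (.edon 0 16 (.node 1 13 (.node 9 10 (.leaf [0,9,12,14,15]) (.leaf [1,10,8,2])) (.free 2 [3,4,5,6,7,11,13])) (.free 2 [16,17,18,19,20,21,22]))), .t 6 (nat_lit 0x33e033d00c200c0001c) (.z (.edon 0 16 (.node 12 13 (.leaf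 [0,12,14,15]) (.edon 3 8 (.free 2 [3,4,6,7,10,11,13]) (.leaf [1,5,8,9,2]))) (.free 2 [16,17,18,19,20,21,22]))), .t 1 (nat_lit 0) (.fa 2), .t 7 (nat_lit 0x65d05660564053d05330031) (.z (.edon 0 16 (.node 12 13 (.leaf [0,12,14,15]) (.node 1 10 (.leaf [1,8,9,2]) (.edon 7 10 (.leaf [7,11,13]) (.leaf [3,4,6,10,5])))) (.free 2 [16,17,18,19,20,21,22]))), .t 13 (nat_lit 0x652055c055b053a05300cc50b780b750b4a0b480b3d0b3b) (.z (.edon 0 13 (.edon 7 8 (.leaf [7,11,12,10,9]) (.edon 0 3 (.leaf [0,1,2]) (.leaf [3,4,6,8,5]))) (.free 3 [13,14,15,16,17,18,19,20,21,22]))), .t 9 (nat_lit 0x67c0679067407790776069b06990002) (.z (.edon 0 16 (.node 5 13 (.node 0 10 (.leaf [0,12,14,15]) (.node 3 8 (.leaf [1,3,6,2]) (.leaf [4,5,9,10,8]))) (.leaf [7,11,13])) (.free 2 [16,17,18,19,20,21,22]))), .t 13 (nat_lit 0x653055d055a053a05300cc50b780b750b4a0b480b3d0b3b)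 (.z (.edon 0 13 (.edon 7 8 (.leaf [7,11,12,10,9]) (.edon 0 3 (.leaf [0,1,2]) (.leaf [3,4,5,8,6]))) (.free 3 [13,14,15,16,17,18,19,20,21,22]))), .t 13 (nat_lit 0xa0d0a0c0a090a920a8f0a120a1106790677056e056c0530) (.z (.edon 0 13 (.node 4 10 (.edon 0 3 (.leaf [0,1,2]) (.leaf [3,4,9,8,5])) (.leaf [6,7,11,12,10])) (.free 3 [13,14,15,16,17,18,19,20,21,22]))), .t 1 (nat_lit 0) (.fa 3), .t 1 (nat_lit 0) (.fa 3), .t 1 (nat_lit 0) (.fa 3), .t 1 (nat_lit 0) (.fa 3), .t 8 (nat_lit 0x89209f609f508e808e708890888) (.z (.node 2 4 (.edon 11 13 (.leaf [5,6,7,8,11]) (.free 4 [0,2,9,10,12,13,14,15,16,17,18,19,20,21,22])) (.free 1 [1,3,4]))), .t 6 (nat_lit 0x4740472021202100037) (.z (.edon 0 16 (.node 1 13 (.node 0 11 (.leaf [0,12,14,15]) (.leaf [1,11,10,9,2])) (.free 2 [3,4,5,6,7,8,13])) (.free 2 [16,17,18,19,20,21,22]))),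 .t 1 (nat_lit 0) (.cn 2 2), .t 1 (nat_lit 0) (.fa 3), .t 12 (nat_lit 0xda70cb00cae0ca10c9f0c980c960305005600050002) (.z (.node 16 0 (.node 7 9 (.edon 4 6 (.leaf [4,5,7]) (.leaf [1,3,6,10,2])) (.node 9 14 (.leaf [9,15,16]) (.leaf [8,13,14,12,11]))) (.free 2 [0,17,18,19,20,21,22]))), .t 1 (nat_lit 0) (.fa 3)] (by decide +kernel) (by decide +kernel)
theorem b119 : B 3808 3840 := Blk.of_chk [.t 8 (nat_lit 0x9ef08e108de089d0898088c088b) (.z (.node 2 4 (.node 2 9 (.free 4 [0,2,10,11,12,13,14,15,16,17,18,19,20,21,22]) (.leaf [5,6,7,9,8])) (.free 1 [1,3,4]))), .t 1 (nat_lit 0) (.fa 3), .t 1 (nat_lit 0) (.fa 3), .t 5 (nat_lit 0xc220c200d7f0d7d) (.z (.node 0 7 (.edon 0 16 (.node 12 13 (.leaf [0,10,12,14,15]) (.leaf [8,13,11,9])) (.free 2 [16,17,18,19,20,21,22])) (.free 2 [1,2,3,4,5,6,7]))), .t 4 (nat_lit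 0x380d7f0d7d) (.z (.edon 0 16 (.node 1 13 (.node 10 11 (.leaf [0,10,12,14,15]) (.leaf [1,11,9,2])) (.free 2 [3,4,5,6,7,8,13])) (.free 2 [16,17,18,19,20,21,22]))), .t 8 (nat_lit 0x88708aa08a70892089008e808e7) (.z (.node 2 4 (.node 2 11 (.free 4 [0,2,9,10,12,13,14,15,16,17,18,19,20,21,22]) (.leaf [5,7,8,11,6])) (.free 1 [1,3,4]))), .t 8 (nat_lit 0x887089c0899088c088a08e008df) (.z (.node 2 4 (.node 2 9 (.free 4 [0,2,10,11,12,13,14,15,16,17,18,19,20,21,22]) (.leaf [5,7,8,9,6])) (.free 1 [1,3,4]))), .t 6 (nat_lit 0x4740212020d003e0038) (.z (.edon 0 16 (.node 1 13 (.node 0 11 (.leaf [0,12,14,15]) (.leaf [1,9,11,10,2])) (.free 2 [3,4,5,6,7,8,13])) (.free 2 [16,17,18,19,20,21,22]))), .t 1 (nat_lit 0) (.cn 2 3), .t 5 (nat_lit 0xc220c1d0d7f0d7d) (.z (.node 0 7 (.edon 0 16 (.node 12 13 (.leaf [0,10,12,14,15])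 (.leaf [8,9,13,11])) (.free 2 [16,17,18,19,20,21,22])) (.free 2 [1,2,3,4,5,6,7]))), .t 5 (nat_lit 0xc220c1d0d7f0d7d) (.z (.node 0 7 (.edon 0 16 (.node 10 13 (.leaf [0,10,12,14,15]) (.leaf [8,9,13,11])) (.free 2 [16,17,18,19,20,21,22])) (.free 2 [1,2,3,4,5,6,7]))), .t 8 (nat_lit 0xbf60c220c1d0c0a0c050c5d0c5b) (.z (.node 0 7 (.edon 0 16 (.node 12 13 (.leaf [0,12,14,15]) (.leaf [8,9,13,11,10])) (.free 2 [16,17,18,19,20,21,22])) (.free 2 [1,2,3,4,5,6,7]))), .t 1 (nat_lit 0) (.fa 3), .t 8 (nat_lit 0x88f09f209f108e408e308890888) (.z (.node 2 4 (.edon 10 13 (.leaf [5,6,7,8,10]) (.free 4 [0,2,9,11,12,13,14,15,16,17,18,19,20,21,22])) (.free 1 [1,3,4]))), .t 4 (nat_lit 0x370db50db3) (.z (.edon 0 16 (.node 1 13 (.node 0 10 (.leaf [0,11,12,14,15]) (.leaf [1,10,9,2])) (.free 2 [3,4,5,6,7,8,13])) (.free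 2 [16,17,18,19,20,21,22]))), .t 4 (nat_lit 0x320db50db3) (.z (.edon 0 16 (.node 1 13 (.node 0 10 (.leaf [0,11,12,14,15]) (.leaf [1,10,8,2])) (.free 2 [3,4,5,6,7,9,13])) (.free 2 [16,17,18,19,20,21,22]))), .t 8 (nat_lit 0x9ef08e108de089d0898088c088b) (.z (.node 2 4 (.node 2 8 (.free 4 [0,2,10,11,12,13,14,15,16,17,18,19,20,21,22]) (.leaf [5,6,7,9,8])) (.free 1 [1,3,4]))), .t 5 (nat_lit 0xc0a0c050db50db3) (.z (.node 0 7 (.edon 0 16 (.node 12 13 (.leaf [0,11,12,14,15]) (.leaf [8,9,13,10])) (.free 2 [16,17,18,19,20,21,22])) (.free 2 [1,2,3,4,5,6,7]))), .t 1 (nat_lit 0) (.cn 2 3), .t 1 (nat_lit 0) (.fa 3), .t 5 (nat_lit 0xc0a0c080db50db3) (.z (.node 0 7 (.edon 0 16 (.node 12 13 (.leaf [0,11,12,14,15]) (.leaf [8,13,10,9])) (.free 2 [16,17,18,19,20,21,22])) (.free 2 [1,2,3,4,5,6,7]))), .t 29 (nat_lit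 0xacd0a3c0a280a260a210a050a010a0009fd0b090af20a740a570a540a460a430a130a100a0e0a0d0cc60cc40a930a910a700a6e09fa09f9) (.z (.edon 0 6 (.free 2 [0,1,2,3,4,5]) (.edon 0 13 (.leaf [6,7,8,12,11,10,9]) (.free 3 [13,14,15,16,17,18,19,20,21,22])))), .t 4 (nat_lit 0x320db50db3) (.z (.edon 0 16 (.node 1 13 (.node 0 10 (.leaf [0,11,12,14,15]) (.leaf [1,8,10,2])) (.free 2 [3,4,5,6,7,9,13])) (.free 2 [16,17,18,19,20,21,22]))), .t 8 (nat_lit 0x88a0889088708e108de089d089b) (.z (.node 2 4 (.edon 8 10 (.leaf [5,7,9,8,6]) (.free 4 [0,2,10,11,12,13,14,15,16,17,18,19,20,21,22])) (.free 1 [1,3,4]))), .t 1 (nat_lit 0) (.cp 1 3), .t 1 (nat_lit 0) (.fa 3), .t 10 (nat_lit 0xd550d6b0d680d5b0d5a0d7f0d7d06580656) (.z (.node 0 3 (.node 5 13 (.edon 0 10 (.leaf [0,4,5,6,9]) (.edon 0 16 (.leaf [10,12,14,15,11]) (.free 2 [16,17,18,19,20,21,22])))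 (.leaf [7,8,13])) (.free 1 [1,2,3]))), .t 5 (nat_lit 0xcf60cf40c920c90) (.z (.node 0 7 (.edon 0 16 (.edon 11 14 (.leaf [8,13,12,11]) (.leaf [0,9,10,14,15])) (.free 2 [16,17,18,19,20,21,22])) (.free 2 [1,2,3,4,5,6,7]))), .t 1 (nat_lit 0) (.fa 4), .t 1 (nat_lit 0) (.cn 3 3), .t 6 (nat_lit 0xe69065d065c0ad50ad0) (.z (.node 0 3 (.edon 0 12 (.edon 7 10 (.leaf [7,8,11,9]) (.leaf [0,4,5,6,10])) (.edon 12 20 (.free 2 [12,13,14,15,16,18,19]) (.leaf [17,20,22,21]))) (.free 1 [1,2,3]))), .t 6 (nat_lit 0xe6a065d065c0ad50ad0) (.z (.node 0 3 (.edon 0 12 (.edon 7 10 (.leaf [7,8,11,9]) (.leaf [0,4,5,6,10])) (.edon 12 20 (.free 2 [12,13,14,15,16,17,19]) (.leaf [18,20,22,21]))) (.free 1 [1,2,3])))] (by decide +kernel) (by decide +kernel)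

end Pool.Agent.GCP.F8_13
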