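import Pool.Agent.GCP.F8_13Db

set_option autoImplicit false
set_option maxRecDepth 100000

/-! # Blocks F8_13B2 (generated) -/

namespace Pool.Agent.GCP.F8_13

open Pool.Agent.GCP DB

theorem b120 : B 3840 3872 := Blk.of_chk [.t 10 (nat_lit 0xd020cff0cfb0d2c0d2a0d0f0d0e08890887) (.z (.node 22 4 (.edon 0 9 (.leaf [5,7,8,6]) (.edon 0 15 (.leaf [9,11,13,14,12]) (.free 2 [15,16,17,18,19,20,22]))) (.free 2 [0,1,2,3,4,10,21]))), .t 1 (nat_lit 0) (.cn 7 3), .t 1 (nat_lit 0) (.cn 7 3), .t 10 (nat_lit 0xad80ad50ad0065d065c0b4a0b480b080b06) (.z (.edon 0 13 (.edon 7 10 (.leaf [7,8,11,12,9]) (.node 0 3 (.leaf [0,4,5,6,10]) (.leaf [1,2,3]))) (.free 3 [13,14,15,16,17,18,19,20,21,22]))), .t 1 (nat_lit 0) (.cn 1 3), .t 4 (nat_lit 0x250d6b0d69) (.z (.edon 0 16 (.node 1 13 (.node 0 9 (.leaf [0,10,11,14,15]) (.leaf [1,6,9,2])) (.free 2 [3,4,5,7,8,12,13]))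 (.free 2 [16,17,18,19,20,21,22]))), .t 1 (nat_lit 0) (.cp 1 3), .t 4 (nat_lit 0x310d6b0d69) (.z (.edon 0 16 (.node 1 13 (.node 0 9 (.leaf [0,10,11,14,15]) (.leaf [1,8,9,2])) (.free 2 [3,4,5,6,7,12,13])) (.free 2 [16,17,18,19,20,21,22]))), .t 1 (nat_lit 0) (.cn 3 2), .t 7 (nat_lit 0x3050056000500020de20de1) (.z (.node 16 0 (.edon 4 10 (.node 11 13 (.leaf [11,14,15,16]) (.free 2 [4,5,7,8,9,12,13])) (.leaf [1,3,6,10,2])) (.free 2 [0,17,18,19,20,21,22]))), .t 1 (nat_lit 0) (.fa 4), .t 7 (nat_lit 0xe490dfd0dd60dd508890887) (.z (.node 2 4 (.edon 0 11 (.node 2 8 (.leaf [0,2,9,10]) (.leaf [5,7,8,6])) (.node 12 19 (.leaf [11,12,20,22,21]) (.free 2 [13,14,15,16,17,18,19]))) (.free 1 [1,3,4]))), .t 9 (nat_lit 0x887089c0899088c088a0e6a08e008df) (.z (.node 2 4 (.edon 0 12 (.node 2 9 (.leaf [0,2,10,11]) (.leaf [5,7,8,9,6])) (.node 18 19 (.leaf [18,20,22,21])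 (.free 2 [12,13,14,15,16,17,19]))) (.free 1 [1,3,4]))), .t 9 (nat_lit 0xe49065e05670563053d05330ad50ad0) (.z (.edon 0 3 (.free 1 [0,1,2]) (.edon 0 12 (.edon 7 10 (.leaf [7,8,11,9]) (.leaf [3,4,5,10,6])) (.node 12 19 (.leaf [12,20,22,21]) (.free 2 [13,14,15,16,17,18,19]))))), .t 1 (nat_lit 0) (.fa 5), .t 1 (nat_lit 0) (.fa 5), .t 1 (nat_lit 0) (.fa 4), .t 8 (nat_lit 0xda90da70da50dda0dd70db60db4) (.z (.edon 0 16 (.edon 0 11 (.node 2 8 (.leaf [0,2,9,10]) (.free 2 [1,3,4,5,6,7,8])) (.leaf [11,13,15,14,12])) (.free 2 [16,17,18,19,20,21,22]))), .t 8 (nat_lit 0x325033203300329032803990398) (.z (.node 2 4 (.node 0 8 (.free 4 [0,9,10,11,12,13,14,15,16,17,18,19,20,21,22]) (.leaf [2,6,7,8,5])) (.free 1 [1,3,4]))), .t 7 (nat_lit 0xe490dfd0dd60dd508890888) (.z (.node 2 4 (.edon 0 11 (.node 2 8 (.leaf [0,2,9,10]) (.leaf [5,6,7,8])) (.node 12 19 (.leaf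 [11,12,20,22,21]) (.free 2 [13,14,15,16,17,18,19]))) (.free 1 [1,3,4]))), .t 10 (nat_lit 0x9ec0a040a0109f709f40e010dfe0a2d0a2b) (.z (.edon 0 16 (.edon 0 12 (.node 4 8 (.free 2 [0,1,2,3,4,5,10]) (.leaf [6,7,11,9,8])) (.leaf [12,13,15,14])) (.free 2 [16,17,18,19,20,21,22]))), .t 5 (nat_lit 0xe490dfd0dd60dd5) (.z (.node 0 7 (.edon 0 11 (.leaf [0,8,9,10]) (.node 12 19 (.leaf [11,12,20,22,21]) (.free 2 [13,14,15,16,17,18,19]))) (.free 2 [1,2,3,4,5,6,7]))), .t 8 (nat_lit 0xda90da70da50dda0dd70db60db4) (.z (.node 0 7 (.edon 0 11 (.leaf [0,8,9,10]) (.edon 0 16 (.leaf [11,13,15,14,12]) (.free 2 [16,17,18,19,20,21,22]))) (.free 2 [1,2,3,4,5,6,7]))), .t 1 (nat_lit 0) (.cn 3 3), .t 1 (nat_lit 0) (.cn 3 3), .t 10 (nat_lit 0x9f409ef09ec0e010dfe0a2c0a290a030a02) (.z (.edon 0 16 (.edon 0 12 (.node 4 8 (.free 2 [0,1,2,3,4,5,10]) (.leaf [6,7,9,11,8])) (.leaf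 [12,13,15,14])) (.free 2 [16,17,18,19,20,21,22]))), .t 1 (nat_lit 0) (.cn 2 3), .t 7 (nat_lit 0xe010dfe034103400a030a02) (.z (.edon 0 16 (.edon 0 12 (.node 2 4 (.edon 6 8 (.leaf [6,7,9,11]) (.leaf [0,2,5,8,10])) (.leaf [1,3,4])) (.leaf [12,13,15,14])) (.free 2 [16,17,18,19,20,21,22]))), .t 10 (nat_lit 0xad10acc0ac90e010dfe0b370b330aed0aeb) (.z (.edon 0 16 (.edon 0 7 (.free 2 [0,1,2,3,4,5,6]) (.edon 0 12 (.leaf [7,9,11,10,8]) (.leaf [12,13,15,14]))) (.free 2 [16,17,18,19,20,21,22]))), .t 8 (nat_lit 0xe010dda0dd70db60db10dab0daa) (.z (.node 0 7 (.edon 0 11 (.leaf [0,8,9,10]) (.edon 0 16 (.leaf [11,12,13,15,14]) (.free 2 [16,17,18,19,20,21,22]))) (.free 2 [1,2,3,4,5,6,7]))), .t 10 (nat_lit 0xe010dfe0bfb0b370b330aed0ae80ad40ad2) (.z (.edon 0 16 (.edon 0 7 (.free 2 [0,1,2,3,4,5,6]) (.edon 0 12 (.leaf [7,8,9,11,10]) (.leaf [12,13,15,14]))) (.free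 2 [16,17,18,19,20,21,22]))), .t 1 (nat_lit 0) (.cn 3 3)] (by decide +kernel) (by decide +kernel)
theorem b121 : B 3872 3904 := Blk.of_chk [.t 1 (nat_lit 0) (.fa 3), .t 7 (nat_lit 0x3020050000500010de20de1) (.z (.node 16 0 (.edon 4 5 (.node 11 13 (.leaf [11,14,15,16]) (.free 2 [4,6,7,8,9,12,13])) (.leaf [1,3,5,10,2])) (.free 2 [0,17,18,19,20,21,22]))), .t 1 (nat_lit 0) (.fa 3), .t 7 (nat_lit 0x30200500005000106f806f3) (.z (.edon 0 16 (.edon 7 15 (.leaf [7,12,13]) (.node 0 10 (.leaf [0,11,14,15]) (.edon 4 5 (.leaf [4,6,9,8]) (.leaf [1,3,5,10,2])))) (.free 2 [16,17,18,19,20,21,22]))), .t 1 (nat_lit 0) (.cn 2 3), .t 12 (nat_lit 0x301004f000400010d570bad0baa0b8d0b8b0b7f0b7e) (.z (.node 16 0 (.edon 13 14 (.leaf [13,15,16]) (.edon 7 9 (.leaf [7,12,14,11,10]) (.node 3 8 (.leaf [1,3,5,9,2]) (.leaf [4,6,8])))) (.free 2 [0,17,18,19,20,21,22]))),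 .t 10 (nat_lit 0x8920e010dfe09f609f508e808e708890888) (.z (.edon 0 16 (.edon 0 12 (.node 4 5 (.free 2 [0,1,2,3,4,9,10]) (.leaf [5,6,7,8,11])) (.leaf [12,13,15,14])) (.free 2 [16,17,18,19,20,21,22]))), .t 10 (nat_lit 0xe010dfe0ad50a2d0a280a040a0109f609f5) (.z (.edon 0 16 (.edon 0 12 (.node 4 9 (.free 2 [0,1,2,3,4,5,10]) (.leaf [6,7,8,11,9])) (.leaf [12,13,15,14])) (.free 2 [16,17,18,19,20,21,22]))), .t 8 (nat_lit 0xe010dda0dd70db60db10dab0daa) (.z (.edon 0 16 (.edon 0 11 (.node 2 8 (.leaf [0,2,9,10]) (.free 2 [1,3,4,5,6,7,8])) (.leaf [11,12,13,15,14])) (.free 2 [16,17,18,19,20,21,22]))), .t 10 (nat_lit 0xe010dda0dd70db60db10dab0daa08890888) (.z (.edon 0 16 (.edon 0 11 (.node 4 5 (.free 2 [0,1,2,3,4,9,10]) (.leaf [5,6,7,8])) (.leaf [11,12,13,15,14])) (.free 2 [16,17,18,19,20,21,22]))), .t 12 (nat_lit 0xc2203020050000500010cff0cfd0c920c900c1b0c19)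 (.z (.edon 0 16 (.node 0 13 (.leaf [0,14,15]) (.edon 4 5 (.edon 0 8 (.leaf [4,6,7]) (.leaf [8,13,12,11,9])) (.leaf [1,3,5,10,2]))) (.free 2 [16,17,18,19,20,21,22]))), .t 10 (nat_lit 0x88c0e010dfe09ee09ed08e008df08890888) (.z (.edon 0 16 (.edon 0 12 (.node 4 5 (.free 2 [0,1,2,3,4,10,11]) (.leaf [5,6,7,8,9])) (.leaf [12,13,15,14])) (.free 2 [16,17,18,19,20,21,22]))), .t 10 (nat_lit 0x88c0e010dfe09ee09ed08e008df08890888) (.z (.edon 0 16 (.edon 0 12 (.node 4 9 (.free 2 [0,1,2,3,4,10,11]) (.leaf [5,6,7,8,9])) (.leaf [12,13,15,14])) (.free 2 [16,17,18,19,20,21,22]))), .t 1 (nat_lit 0) (.cn 1 3), .t 10 (nat_lit 0x8920e010dfe09f609f508e808e708890888) (.z (.edon 0 16 (.edon 0 12 (.node 4 11 (.free 2 [0,1,2,3,4,9,10]) (.leaf [5,6,7,8,11])) (.leaf [12,13,15,14])) (.free 2 [16,17,18,19,20,21,22]))), .t 1 (nat_lit 0) (.cp 1 3), .t 6 (nat_lit 0x4730211020e003e0038)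 (.z (.edon 0 16 (.node 1 13 (.node 0 11 (.leaf [0,12,14,15]) (.leaf [1,10,11,9,2])) (.free 2 [3,4,5,6,7,8,13])) (.free 2 [16,17,18,19,20,21,22]))), .t 7 (nat_lit 0x301004f000400010cbe0cbd) (.z (.edon 0 16 (.edon 8 12 (.leaf [8,13,15,14]) (.node 0 9 (.leaf [0,10,11,12]) (.edon 4 5 (.leaf [4,6,7]) (.leaf [1,3,5,9,2])))) (.free 2 [16,17,18,19,20,21,22]))), .t 10 (nat_lit 0x88f09f209f108e408e3088908880dda0dd7) (.z (.edon 0 16 (.edon 11 12 (.leaf [11,13,15,14]) (.node 4 10 (.free 2 [0,1,2,3,4,9,12]) (.leaf [5,6,7,8,10]))) (.free 2 [16,17,18,19,20,21,22]))), .t 10 (nat_lit 0xaf20a460a430a0e0a0d09fa09f90dda0dd7) (.z (.node 0 3 (.edon 0 16 (.edon 11 12 (.leaf [11,13,15,14]) (.node 5 10 (.leaf [0,4,5,9]) (.leaf [6,7,8,12,10]))) (.free 2 [16,17,18,19,20,21,22])) (.free 1 [1,2,3]))), .t 10 (nat_lit 0x88f09f209f108e408e30889088804950493) (.z (.edon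 0 13 (.node 2 10 (.leaf [0,2,9,11,12]) (.edon 0 5 (.leaf [1,3,4]) (.leaf [5,6,7,8,10]))) (.free 3 [13,14,15,16,17,18,19,20,21,22]))), .t 12 (nat_lit 0x94b09490944006100370005000409b609b509540953) (.z (.node 16 0 (.edon 4 8 (.leaf [4,6,7]) (.edon 5 10 (.edon 11 15 (.leaf [5,8,13,14,11]) (.leaf [12,15,16])) (.leaf [1,3,10,9,2]))) (.free 2 [0,17,18,19,20,21,22]))), .t 7 (nat_lit 0x6b5059b059805530535003a) (.z (.node 16 0 (.edon 6 11 (.free 2 [6,7,8,13,14,15,16]) (.node 1 10 (.leaf [1,9,12,2]) (.leaf [3,4,5,11,10]))) (.free 2 [0,17,18,19,20,21,22]))), .t 13 (nat_lit 0x89209f609f508e808e70889088807d80638063605540551) (.z (.edon 0 13 (.node 4 11 (.edon 0 3 (.leaf [0,1,2]) (.leaf [3,4,10,12,9])) (.leaf [5,6,7,8,11])) (.free 3 [13,14,15,16,17,18,19,20,21,22]))), .t 13 (nat_lit 0x69c05890586054f05330b090a570a540a130a1009fa09f9) (.z (.edon 0 13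 (.edon 6 10 (.leaf [6,7,8,12,11]) (.edon 0 3 (.leaf [0,1,2]) (.leaf [3,4,5,10,9]))) (.free 3 [13,14,15,16,17,18,19,20,21,22]))), .t 10 (nat_lit 0x89209f609f508e808e708890888047a0479) (.z (.edon 0 13 (.node 4 11 (.node 2 4 (.leaf [0,2,9,10,12]) (.leaf [1,3,4])) (.leaf [5,6,7,8,11])) (.free 3 [13,14,15,16,17,18,19,20,21,22]))), .t 1 (nat_lit 0) (.cp 2 3), .t 5 (nat_lit 0x61003700050004) (.z (.edon 0 16 (.node 12 13 (.leaf [0,12,14,15]) (.node 3 11 (.leaf [1,3,10,9,2]) (.free 2 [4,5,6,7,8,11,13]))) (.free 2 [16,17,18,19,20,21,22]))), .t 13 (nat_lit 0x89209f609f508e808e70889088807d907d706390637054f) (.z (.edon 0 13 (.node 4 11 (.edon 0 3 (.leaf [0,1,2]) (.leaf [3,4,12,10,9])) (.leaf [5,6,7,8,11])) (.free 3 [13,14,15,16,17,18,19,20,21,22]))), .t 9 (nat_lit 0xdb20dc70dc50dba0db800370de20de1) (.z (.node 1 13 (.node 0 10 (.node 0 16 (.free 2 [0,17,18,19,20,21,22])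 (.leaf [11,14,15,16,12])) (.leaf [1,9,10,2])) (.free 2 [3,4,5,6,7,8,13]))), .t 1 (nat_lit 0) (.cn 2 3), .t 10 (nat_lit 0x88c09ee09ed08e008df0889088804d504d3) (.z (.edon 0 13 (.node 2 9 (.leaf [0,2,10,11,12]) (.edon 0 5 (.leaf [1,3,4]) (.leaf [5,6,7,8,9]))) (.free 3 [13,14,15,16,17,18,19,20,21,22])))] (by decide +kernel) (by decide +kernel)
theorem b122 : B 3904 3936 := Blk.of_chk [.t 6 (nat_lit 0x47304710211020f0037) (.z (.edon 0 16 (.node 1 13 (.node 0 11 (.leaf [0,12,14,15]) (.leaf [1,9,10,11,2])) (.free 2 [3,4,5,6,7,8,13])) (.free 2 [16,17,18,19,20,21,22]))), .t 1 (nat_lit 0) (.fa 3), .t 8 (nat_lit 0x89509fa09f908ec08eb08890888) (.z (.node 2 4 (.edon 5 13 (.leaf [5,6,7,8,12]) (.free 4 [0,2,9,10,11,13,14,15,16,17,18,19,20,21,22])) (.free 1 [1,3,4]))), .t 1 (nat_lit 0) (.fa 3), .t 1 (nat_lit 0) (.cn 2 3), .t 1 (nat_lit 0) (.fa 3), .t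 5 (nat_lit 0x30c006300060004) (.z (.edon 0 16 (.node 12 13 (.leaf [0,12,14,15]) (.node 3 10 (.leaf [1,3,9,11,2]) (.free 2 [4,5,6,7,8,10,13]))) (.free 2 [16,17,18,19,20,21,22]))), .t 8 (nat_lit 0x88c09ee09ed08e008df08890888) (.z (.node 2 4 (.edon 9 13 (.leaf [5,6,7,8,9]) (.free 4 [0,2,10,11,12,13,14,15,16,17,18,19,20,21,22])) (.free 1 [1,3,4]))), .t 10 (nat_lit 0x88c09ee09ed08e008df088908880520051f) (.z (.edon 0 16 (.node 2 4 (.node 11 13 (.leaf [0,2,11,14,15]) (.edon 0 10 (.leaf [5,6,7,8,9]) (.leaf [10,12,13]))) (.leaf [1,3,4])) (.free 2 [16,17,18,19,20,21,22]))), .t 1 (nat_lit 0) (.fa 3), .t 1 (nat_lit 0) (.cp 1 3), .t 1 (nat_lit 0) (.fa 2), .t 5 (nat_lit 0x30a006100050004) (.z (.edon 0 16 (.node 11 13 (.leaf [0,11,14,15]) (.edon 4 9 (.free 2 [4,5,6,7,8,12,13]) (.leaf [1,3,9,10,2]))) (.free 2 [16,17,18,19,20,21,22]))), .t 5 (nat_lit 0x301004f00040001)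 (.z (.edon 0 16 (.node 11 13 (.leaf [0,11,14,15]) (.edon 4 5 (.free 2 [4,6,7,8,10,12,13]) (.leaf [1,3,5,9,2]))) (.free 2 [16,17,18,19,20,21,22]))), .t 4 (nat_lit 0x310db50db3) (.z (.edon 0 16 (.node 1 13 (.node 0 9 (.leaf [0,11,12,14,15]) (.leaf [1,8,9,2])) (.free 2 [3,4,5,6,7,10,13])) (.free 2 [16,17,18,19,20,21,22]))), .t 6 (nat_lit 0x41b0419019f019d0031) (.z (.edon 0 16 (.node 1 13 (.node 0 11 (.leaf [0,12,14,15]) (.leaf [1,8,9,11,2])) (.free 2 [3,4,5,6,7,10,13])) (.free 2 [16,17,18,19,20,21,22]))), .t 10 (nat_lit 0xe010dfe09f308e508e208a4089f088f088e) (.z (.edon 0 16 (.edon 0 12 (.node 4 5 (.free 2 [0,1,2,3,4,9,11]) (.leaf [5,6,7,10,8])) (.leaf [12,13,15,14])) (.free 2 [16,17,18,19,20,21,22]))), .t 10 (nat_lit 0xe010dda0dd70db60db10dab0daa0acd0acb) (.z (.edon 0 16 (.edon 0 7 (.free 2 [0,1,2,3,4,5,6]) (.edon 0 11 (.leaf [7,10,9,8])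 (.leaf [11,12,13,15,14]))) (.free 2 [16,17,18,19,20,21,22]))), .t 8 (nat_lit 0xc060bfa0bf70c5d0c580c220c20) (.z (.node 0 7 (.edon 0 16 (.node 12 13 (.leaf [0,12,14,15]) (.leaf [8,10,13,11,9])) (.free 2 [16,17,18,19,20,21,22])) (.free 2 [1,2,3,4,5,6,7]))), .t 7 (nat_lit 0x30c006300060004065d065b) (.z (.edon 0 16 (.node 6 13 (.node 0 11 (.leaf [0,12,14,15]) (.edon 4 9 (.leaf [4,6,10,5]) (.leaf [1,3,9,11,2]))) (.leaf [7,8,13])) (.free 2 [16,17,18,19,20,21,22]))), .t 5 (nat_lit 0x30e006800060005) (.z (.edon 0 16 (.node 12 13 (.leaf [0,12,14,15]) (.node 3 9 (.leaf [1,3,10,11,2]) (.free 2 [4,5,6,7,8,9,13]))) (.free 2 [16,17,18,19,20,21,22]))), .t 10 (nat_lit 0xe010dda0dd70db60db10dab0daa033e033d) (.z (.edon 0 16 (.edon 0 11 (.node 2 4 (.edon 6 8 (.leaf [6,7,10]) (.leaf [0,2,5,8,9])) (.leaf [1,3,4])) (.leaf [11,12,13,15,14])) (.free 2 [16,17,18,19,20,21,22]))),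 .t 12 (nat_lit 0x64f0680067d065d065b030c00630006000406fe06fc) (.z (.edon 0 16 (.node 0 13 (.leaf [0,14,15]) (.edon 4 9 (.edon 7 10 (.leaf [7,12,13]) (.leaf [4,6,8,10,5])) (.leaf [1,3,9,11,2]))) (.free 2 [16,17,18,19,20,21,22]))), .t 7 (nat_lit 0xcdd0cdb088908880520051f) (.z (.edon 0 16 (.node 2 4 (.node 11 13 (.leaf [0,2,11,14,15]) (.edon 0 9 (.leaf [5,6,7,8]) (.leaf [9,12,13,10]))) (.leaf [1,3,4])) (.free 2 [16,17,18,19,20,21,22]))), .t 5 (nat_lit 0xc350c330d6b0d69) (.z (.node 0 7 (.edon 0 16 (.node 11 13 (.leaf [0,10,11,14,15]) (.leaf [8,12,13,9])) (.free 2 [16,17,18,19,20,21,22])) (.free 2 [1,2,3,4,5,6,7]))), .t 4 (nat_lit 0x4f0520051f) (.z (.edon 0 16 (.node 11 13 (.leaf [0,2,11,14,15]) (.edon 4 5 (.free 2 [4,6,7,8,10,12,13]) (.leaf [1,3,5,9]))) (.free 2 [16,17,18,19,20,21,22]))), .t 1 (nat_lit 0) (.fa 3), .t 12 (nat_lit 0x30c0063000600040c72099609930950094c093a0939)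 (.z (.edon 0 16 (.node 0 13 (.leaf [0,14,15]) (.edon 4 9 (.node 5 7 (.leaf [5,8,10,13,12]) (.leaf [4,6,7])) (.leaf [1,3,9,11,2]))) (.free 2 [16,17,18,19,20,21,22]))), .t 1 (nat_lit 0) (.cn 2 2), .t 12 (nat_lit 0x92609160911095d095b093a0939006e004200070006) (.z (.edon 0 16 (.node 0 13 (.leaf [0,14,15]) (.node 3 9 (.leaf [1,3,12,11,2]) (.node 5 7 (.leaf [5,8,10,13,9]) (.leaf [4,6,7])))) (.free 2 [16,17,18,19,20,21,22]))), .t 1 (nat_lit 0) (.fa 3), .t 1 (nat_lit 0) (.cn 1 3)] (by decide +kernel) (by decide +kernel)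
theorem b123 : B 3936 3968 := Blk.of_chk [.t 1 (nat_lit 0) (.fa 3), .t 17 (nat_lit 0xc500c060bff0bfa0bf70c720c6d0c5d0c580c220cff0cfd0c920c900c1b0c19) (.z (.node 7 0 (.free 2 [1,2,3,4,5,6,7]) (.node 13 0 (.leaf [8,10,13,12,11,9]) (.free 3 [0,14,15,16,17,18,19,20,21,22])))), .t 10 (nat_lit 0xda90da70da50dda0dd70db60db409f309f0) (.z (.edon 0 16 (.edon 0 11 (.node 4 8 (.free 2 [0,1,2,3,4,5,9]) (.leaf [6,7,10,8])) (.leaf [11,13,15,14,12])) (.free 2 [16,17,18,19,20,21,22]))), .t 1 (nat_lit 0) (.fa 3), .t 6 (nat_lit 0x355035400de00dc001d) (.z (.edon 0 16 (.node 1 13 (.node 0 11 (.leaf [0,12,14,15]) (.leaf [1,5,9,11,2])) (.free 2 [3,4,6,7,8,10,13])) (.free 2 [16,17,18,19,20,21,22]))), .t 1 (nat_lit 0) (.cp 1 3), .t 8 (nat_lit 0x9f308e508e208a4089f088f088e) (.z (.node 2 4 (.edon 5 13 (.leaf [5,6,7,10,8]) (.free 4 [0,2,9,11,12,13,14,15,16,17,18,19,20,21,22]))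 (.free 1 [1,3,4]))), .t 4 (nat_lit 0x1d0db50db3) (.z (.edon 0 16 (.node 1 13 (.node 0 9 (.leaf [0,11,12,14,15]) (.leaf [1,5,9,2])) (.free 2 [3,4,6,7,8,10,13])) (.free 2 [16,17,18,19,20,21,22]))), .t 11 (nat_lit 0x40c72099609930950094c093a09390de20de1) (.z (.node 16 0 (.edon 4 9 (.node 5 7 (.node 11 13 (.leaf [11,14,15,16]) (.leaf [5,8,10,13,12])) (.leaf [4,6,7])) (.leaf [1,3,9,2])) (.free 2 [0,17,18,19,20,21,22]))), .t 5 (nat_lit 0xc720c6d0d1d0d1c) (.z (.node 0 7 (.edon 0 16 (.node 11 13 (.leaf [0,9,11,14,15]) (.leaf [8,10,13,12])) (.free 2 [16,17,18,19,20,21,22])) (.free 2 [1,2,3,4,5,6,7]))), .t 11 (nat_lit 0x6dd06db05b005ae0536041c01a0019b00380033) (.z (.edon 0 16 (.node 0 13 (.leaf [0,14,15]) (.node 1 12 (.leaf [1,8,11,9,2]) (.node 4 10 (.leaf [3,4,13,12,5]) (.leaf [6,7,10])))) (.free 2 [16,17,18,19,20,21,22]))), .t 10 (nat_lit 0xe010dfe09f308e508e208a4089f088f088e)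 (.z (.edon 0 16 (.edon 0 12 (.edon 1 11 (.edon 0 5 (.leaf [1,3,4]) (.leaf [5,6,7,10,8])) (.leaf [0,2,9,11])) (.leaf [12,13,15,14])) (.free 2 [16,17,18,19,20,21,22]))), .t 1 (nat_lit 0) (.fa 3), .t 1 (nat_lit 0) (.fa 2), .t 10 (nat_lit 0xe010dfe0aed0a410a3c0a0c0a0909f609f5) (.z (.edon 0 16 (.edon 0 12 (.node 4 10 (.free 2 [0,1,2,3,4,5,9]) (.leaf [6,7,8,11,10])) (.leaf [12,13,15,14])) (.free 2 [16,17,18,19,20,21,22]))), .t 15 (nat_lit 0xe010dda0dd70db60db10dab0daa0acd0a260a210a0009fd09f209f1) (.z (.node 0 2 (.edon 0 6 (.leaf [0,3,4,5]) (.edon 0 11 (.leaf [6,7,8,10,9]) (.edon 0 16 (.leaf [11,12,13,15,14]) (.free 2 [16,17,18,19,20,21,22])))) (.free 1 [1,2]))), .t 8 (nat_lit 0x88f09f209f108e408e308890888) (.z (.node 2 4 (.edon 5 13 (.leaf [5,6,7,8,10]) (.free 4 [0,2,9,11,12,13,14,15,16,17,18,19,20,21,22])) (.free 1 [1,3,4]))), .t 8 (nat_lit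 0x88f09f209f108e408e308890888) (.z (.node 2 4 (.edon 5 12 (.leaf [5,6,7,8,10]) (.free 4 [0,2,9,11,12,13,14,15,16,17,18,19,20,21,22])) (.free 1 [1,3,4]))), .t 8 (nat_lit 0x88f09f209f108e408e308890888) (.z (.node 2 4 (.edon 5 11 (.leaf [5,6,7,8,10]) (.free 4 [0,2,9,11,12,13,14,15,16,17,18,19,20,21,22])) (.free 1 [1,3,4]))), .t 1 (nat_lit 0) (.fa 3), .t 7 (nat_lit 0x1d06ff05c105bd054a053d) (.z (.edon 0 16 (.node 6 13 (.node 0 10 (.leaf [0,11,14,15]) (.edon 3 5 (.leaf [3,4,6,10,8]) (.leaf [1,5,9,2]))) (.leaf [7,12,13])) (.free 2 [16,17,18,19,20,21,22]))), .t 1 (nat_lit 0) (.cn 2 2), .t 1 (nat_lit 0) (.fa 3), .t 5 (nat_lit 0xc710c6e0d1d0d1c) (.z (.node 0 7 (.edon 0 16 (.node 11 13 (.leaf [0,9,11,14,15]) (.leaf [8,12,13,10])) (.free 2 [16,17,18,19,20,21,22])) (.free 2 [1,2,3,4,5,6,7]))), .t 8 (nat_lit 0xaf20a460a430a0e0a0d09fa09f9) (.z (.node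 2 4 (.edon 10 13 (.leaf [6,7,8,12,10]) (.free 4 [0,2,5,9,11,13,14,15,16,17,18,19,20,21,22])) (.free 1 [1,3,4]))), .t 4 (nat_lit 0x1d0d6b0d69) (.z (.edon 0 16 (.node 1 13 (.node 0 9 (.leaf [0,10,11,14,15]) (.leaf [1,5,9,2])) (.free 2 [3,4,6,7,8,12,13])) (.free 2 [16,17,18,19,20,21,22]))), .t 1 (nat_lit 0) (.fa 3), .t 1 (nat_lit 0) (.cn 2 2), .t 1 (nat_lit 0) (.cn 1 3), .t 1 (nat_lit 0) (.fa 3), .t 7 (nat_lit 0x301004f000400010d6b0d69) (.z (.edon 0 16 (.node 6 13 (.node 0 9 (.leaf [0,10,11,14,15]) (.node 3 8 (.leaf [1,3,5,9,2]) (.leaf [4,6,8]))) (.leaf [7,12,13])) (.free 2 [16,17,18,19,20,21,22]))), .t 1 (nat_lit 0) (.cn 1 3)] (by decide +kernel) (by decide +kernel)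
theorem b124 : B 3968 4000 := Blk.of_chk [.t 1 (nat_lit 0) (.cn 2 2), .t 1 (nat_lit 0) (.cn 1 3), .t 6 (nat_lit 0x59c00f400f1006a0052) (.z (.edon 5 13 (.edon 4 10 (.leaf [4,6,7]) (.leaf [1,3,10,12,5])) (.free 4 [0,2,8,9,11,13,14,15,16,17,18,19,20,21,22]))), .t 6 (nat_lit 0x61101c901c6006a005d) (.z (.edon 8 13 (.edon 4 10 (.leaf [4,6,7]) (.leaf [1,3,10,12,8])) (.free 4 [0,2,5,9,11,13,14,15,16,17,18,19,20,21,22]))), .t 5 (nat_lit 0xe010dfe033e033d) (.z (.edon 0 16 (.edon 0 12 (.edon 1 8 (.free 2 [1,3,4,6,7,10,11]) (.leaf [0,2,5,8,9])) (.leaf [12,13,15,14])) (.free 2 [16,17,18,19,20,21,22]))), .t 17 (nat_lit 0xd4f0d640d620d600d5a0d570d550e010d930d920d800d7b0d780d770d6c0d6a) (.z (.edon 0 16 (.edon 0 10 (.free 3 [0,1,2,3,4,5,6,7,8,9]) (.leaf [10,12,13,15,14,11])) (.free 2 [16,17,18,19,20,21,22]))), .t 8 (nat_lit 0x41501980193003700320de20de0)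 (.z (.node 1 13 (.node 0 10 (.node 0 16 (.free 2 [0,17,18,19,20,21,22]) (.leaf [11,15,16,14])) (.leaf [1,8,10,9,2])) (.free 2 [3,4,5,6,7,12,13]))), .t 9 (nat_lit 0x301004f0004000106fe06fc0de20de0) (.z (.node 6 13 (.node 0 10 (.node 0 16 (.free 2 [0,17,18,19,20,21,22]) (.leaf [11,15,16,14])) (.edon 4 5 (.leaf [4,6,8,10]) (.leaf [1,3,5,9,2]))) (.free 1 [7,12,13]))), .t 7 (nat_lit 0x301004f0004000106fe06fc) (.z (.node 16 0 (.edon 7 10 (.free 2 [7,11,12,13,14,15,16]) (.edon 4 5 (.leaf [4,6,8,10]) (.leaf [1,3,5,9,2]))) (.free 2 [0,17,18,19,20,21,22]))), .t 1 (nat_lit 0) (.fa 3), .t 1 (nat_lit 0) (.cn 2 2), .t 7 (nat_lit 0x301004f00040001072e072b) (.z (.edon 0 16 (.node 6 13 (.node 0 11 (.leaf [0,12,14,15]) (.edon 4 5 (.leaf [4,6,11,10]) (.leaf [1,3,5,9,2]))) (.leaf [7,8,13])) (.free 2 [16,17,18,19,20,21,22]))), .t 1 (nat_lit 0) (.cn 1 3), .t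 1 (nat_lit 0) (.fa 3), .t 1 (nat_lit 0) (.fa 3), .t 10 (nat_lit 0x9f409f309f00e010dfe0a400a3d0a0b0a0a) (.z (.edon 0 16 (.edon 0 12 (.node 4 8 (.free 2 [0,1,2,3,4,5,9]) (.leaf [6,7,10,11,8])) (.leaf [12,13,15,14])) (.free 2 [16,17,18,19,20,21,22]))), .t 8 (nat_lit 0x89209f609f508e808e708890888) (.z (.node 2 4 (.edon 5 13 (.leaf [5,6,7,8,11]) (.free 4 [0,2,9,10,12,13,14,15,16,17,18,19,20,21,22])) (.free 1 [1,3,4]))), .t 4 (nat_lit 0x1d0d7f0d7d) (.z (.edon 0 16 (.node 1 13 (.node 0 9 (.leaf [0,10,12,14,15]) (.leaf [1,5,9,2])) (.free 2 [3,4,6,7,8,11,13])) (.free 2 [16,17,18,19,20,21,22]))), .t 12 (nat_lit 0xc590c540c510301004f000400010c920c8d0c720c70) (.z (.node 16 0 (.edon 4 11 (.leaf [4,6,7]) (.edon 8 9 (.edon 0 14 (.leaf [8,11,13,12,10]) (.leaf [14,15,16])) (.leaf [1,3,5,9,2]))) (.free 2 [0,17,18,19,20,21,22]))), .t 6 (nat_lit 0x34f034d00d700d5001d)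 (.z (.edon 0 16 (.node 1 13 (.node 0 10 (.leaf [0,12,14,15]) (.leaf [1,5,9,10,2])) (.free 2 [3,4,6,7,8,11,13])) (.free 2 [16,17,18,19,20,21,22]))), .t 8 (nat_lit 0xdda0cbe0cbd0ca90ca50ca40ca3) (.z (.node 0 7 (.edon 0 16 (.node 10 14 (.leaf [0,9,10,12]) (.leaf [8,11,13,15,14])) (.free 2 [16,17,18,19,20,21,22])) (.free 2 [1,2,3,4,5,6,7]))), .t 1 (nat_lit 0) (.cp 1 3), .t 10 (nat_lit 0xda90da70da50dda0dd70db60db408890888) (.z (.edon 0 16 (.edon 0 11 (.node 4 5 (.free 2 [0,1,2,3,4,9,10]) (.leaf [5,6,7,8])) (.leaf [11,13,15,14,12])) (.free 2 [16,17,18,19,20,21,22]))), .t 8 (nat_lit 0xe010d930d920d800d7b0d780d77) (.z (.edon 0 16 (.edon 1 13 (.free 2 [1,3,4,6,7,8,11]) (.edon 0 10 (.leaf [0,2,5,9]) (.leaf [10,12,13,15,14]))) (.free 2 [16,17,18,19,20,21,22]))), .t 10 (nat_lit 0xe010d930d920d800d7b0d780d77033e033d) (.z (.node 2 4 (.edon 6 13 (.leaf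 [6,7,11]) (.edon 0 10 (.leaf [0,2,5,8,9]) (.edon 0 16 (.leaf [10,12,13,15,14]) (.free 2 [16,17,18,19,20,21,22])))) (.free 1 [1,3,4]))), .t 7 (nat_lit 0x301004f000400010d7f0d7d) (.z (.edon 0 16 (.node 6 13 (.node 0 9 (.leaf [0,10,12,14,15]) (.node 3 8 (.leaf [1,3,5,9,2]) (.leaf [4,6,8]))) (.leaf [7,11,13])) (.free 2 [16,17,18,19,20,21,22]))), .t 7 (nat_lit 0x30a0061000500040661065f) (.z (.edon 0 16 (.node 6 13 (.node 0 11 (.leaf [0,12,14,15]) (.edon 4 9 (.leaf [4,6,11,5]) (.leaf [1,3,9,10,2]))) (.leaf [7,8,13])) (.free 2 [16,17,18,19,20,21,22]))), .t 8 (nat_lit 0xd930cbe0cbd0c860c820c7f0c7e) (.z (.node 0 7 (.edon 0 16 (.node 11 14 (.leaf [0,9,11,12]) (.leaf [8,10,13,15,14])) (.free 2 [16,17,18,19,20,21,22])) (.free 2 [1,2,3,4,5,6,7]))), .t 8 (nat_lit 0xc780c720c6d0cb30cb10c7f0c7e) (.z (.node 0 7 (.edon 0 16 (.node 11 12 (.leaf [0,9,11,14])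 (.leaf [8,10,13,15,12])) (.free 2 [16,17,18,19,20,21,22])) (.free 2 [1,2,3,4,5,6,7]))), .t 9 (nat_lit 0xdb70db60db1001d0de20de00dc70dc6) (.z (.node 1 13 (.node 0 9 (.node 0 16 (.free 2 [0,17,18,19,20,21,22]) (.leaf [11,12,15,16,14])) (.leaf [1,5,9,2])) (.free 2 [3,4,6,7,8,10,13]))), .t 12 (nat_lit 0xc500c720c6d0c5d0c580c920c900301004f00040001) (.z (.node 16 0 (.edon 4 10 (.leaf [4,6,7]) (.node 5 11 (.leaf [1,3,5,9,2]) (.edon 0 14 (.leaf [8,10,13,12,11]) (.leaf [14,15,16])))) (.free 2 [0,17,18,19,20,21,22]))), .t 12 (nat_lit 0xc500c720c6d0c5d0c580301004f000400010c920c90) (.z (.edon 0 16 (.node 0 13 (.leaf [0,14,15]) (.edon 4 5 (.edon 0 8 (.leaf [4,6,7]) (.leaf [8,10,13,12,11])) (.leaf [1,3,5,9,2]))) (.free 2 [16,17,18,19,20,21,22])))] (by decide +kernel) (by decide +kernel)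
theorem b125 : B 4000 4032 := Blk.of_chk [.t 5 (nat_lit 0xd050d040c7f0c7e) (.z (.node 0 7 (.edon 0 16 (.edon 8 11 (.leaf [8,10,13,15]) (.leaf [0,9,11,12,14])) (.free 2 [16,17,18,19,20,21,22])) (.free 2 [1,2,3,4,5,6,7]))), .t 1 (nat_lit 0) (.cn 2 3), .t 10 (nat_lit 0xad00acd0ac80e010dfe0b360b340aec0aea) (.z (.edon 0 16 (.edon 0 7 (.free 2 [0,1,2,3,4,5,6]) (.edon 0 12 (.leaf [7,8,10,11,9]) (.leaf [12,13,15,14]))) (.free 2 [16,17,18,19,20,21,22]))), .t 15 (nat_lit 0xda90da70da50dda0dd70db60db40acd0a260a210a0009fd09f209f1) (.z (.node 0 2 (.edon 0 6 (.leaf [0,3,4,5]) (.edon 0 11 (.leaf [6,7,8,10,9]) (.edon 0 16 (.leaf [11,13,15,14,12]) (.free 2 [16,17,18,19,20,21,22])))) (.free 1 [1,2]))), .t 12 (nat_lit 0x30d0064000700040c5d0982097e09490944093a0939) (.z (.edon 0 16 (.node 0 13 (.leaf [0,14,15]) (.edon 4 9 (.node 5 7 (.leaf [5,8,10,13,11])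 (.leaf [4,6,7])) (.leaf [1,3,9,12,2]))) (.free 2 [16,17,18,19,20,21,22]))), .t 7 (nat_lit 0x301004f0004000107050701) (.z (.edon 0 16 (.node 6 13 (.node 0 11 (.leaf [0,12,14,15]) (.edon 4 5 (.leaf [4,6,11,8]) (.leaf [1,3,5,9,2]))) (.leaf [7,10,13])) (.free 2 [16,17,18,19,20,21,22]))), .t 1 (nat_lit 0) (.fa 3), .t 1 (nat_lit 0) (.cn 2 2), .t 7 (nat_lit 0x301004f0004000106ff06fa) (.z (.edon 0 16 (.node 6 13 (.node 0 10 (.leaf [0,12,14,15]) (.edon 4 5 (.leaf [4,6,10,8]) (.leaf [1,3,5,9,2]))) (.leaf [7,11,13])) (.free 2 [16,17,18,19,20,21,22]))), .t 12 (nat_lit 0xc590c7f0c7d0c690c670301004f000400010ca40ca3) (.z (.edon 0 16 (.edon 4 11 (.leaf [4,6,7]) (.edon 8 14 (.leaf [8,11,13,15,10]) (.node 0 9 (.leaf [0,12,14]) (.leaf [1,3,5,9,2])))) (.free 2 [16,17,18,19,20,21,22]))), .t 17 (nat_lit 0xd540dab0d760d740d730d670d620d5c0d590dda0d930d920d800d7e0d660d65)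 (.z (.edon 0 16 (.edon 0 10 (.free 3 [0,1,2,3,4,5,6,7,8,9]) (.leaf [10,11,13,15,14,12])) (.free 2 [16,17,18,19,20,21,22]))), .t 8 (nat_lit 0xd590d520d4e0d780d760d660d65) (.z (.node 0 7 (.edon 0 16 (.edon 10 14 (.leaf [10,11,13,15,12]) (.leaf [0,8,9,14])) (.free 2 [16,17,18,19,20,21,22])) (.free 2 [1,2,3,4,5,6,7]))), .t 10 (nat_lit 0xc590c540c510d470d450c920c8d0c720c70) (.z (.node 0 7 (.node 0 16 (.free 2 [0,17,18,19,20,21,22]) (.edon 10 15 (.leaf [8,11,13,12,10]) (.leaf [9,15,16,14]))) (.free 2 [1,2,3,4,5,6,7]))), .t 5 (nat_lit 0xce30ce10ca40ca3) (.z (.node 0 7 (.edon 0 16 (.edon 8 10 (.leaf [8,11,13,15]) (.leaf [0,9,10,12,14])) (.free 2 [16,17,18,19,20,21,22])) (.free 2 [1,2,3,4,5,6,7]))), .t 10 (nat_lit 0xda90da70da50dda0dd70db60db409f309f0) (.z (.edon 0 16 (.edon 0 11 (.node 4 10 (.free 2 [0,1,2,3,4,5,9]) (.leaf [6,7,10,8])) (.leaf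 [11,13,15,14,12])) (.free 2 [16,17,18,19,20,21,22]))), .t 12 (nat_lit 0xc510c760c740c630c600301004f000400010c970c95) (.z (.node 16 0 (.edon 4 11 (.leaf [4,6,7]) (.edon 8 9 (.edon 13 14 (.leaf [13,15,16]) (.leaf [8,11,12,14,10])) (.leaf [1,3,5,9,2]))) (.free 2 [0,17,18,19,20,21,22]))), .t 7 (nat_lit 0xe010dfe0a0c0a09033e033d) (.z (.edon 0 16 (.edon 0 12 (.node 4 10 (.node 2 4 (.leaf [0,2,5,8,9]) (.leaf [1,3,4])) (.leaf [6,7,11,10])) (.leaf [12,13,15,14])) (.free 2 [16,17,18,19,20,21,22]))), .t 1 (nat_lit 0) (.fa 3), .t 17 (nat_lit 0xcc50c590c540c510c1e0c1a0c170c0a0cde0cdc0c920c8d0c720c700c030c01) (.z (.node 7 0 (.free 2 [1,2,3,4,5,6,7]) (.node 13 0 (.leaf [8,11,13,12,10,9]) (.free 3 [0,14,15,16,17,18,19,20,21,22])))), .t 5 (nat_lit 0xca10ca00ce90ce7) (.z (.node 0 7 (.edon 0 16 (.node 10 14 (.leaf [0,9,10,12,15]) (.leaf [8,11,13,14])) (.free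 2 [16,17,18,19,20,21,22])) (.free 2 [1,2,3,4,5,6,7]))), .t 5 (nat_lit 0x301004f00040001) (.z (.edon 16 4 (.node 0 9 (.edon 0 16 (.leaf [0,10,11,12]) (.free 2 [16,17,18,19,20,21,22])) (.leaf [1,3,5,9,2])) (.free 2 [4,6,7,8,13,14,15]))), .t 1 (nat_lit 0) (.cp 2 3), .t 5 (nat_lit 0x301004f00040001) (.z (.edon 16 4 (.node 0 9 (.edon 0 16 (.leaf [0,10,11,15]) (.free 2 [16,17,18,19,20,21,22])) (.leaf [1,3,5,9,2])) (.free 2 [4,6,7,8,12,13,14]))), .t 8 (nat_lit 0xc0a0ccc0cca0c5d0c5b0bfb0bf9) (.z (.node 0 7 (.edon 0 16 (.node 12 13 (.leaf [0,12,14,15]) (.leaf [8,13,11,10,9])) (.free 2 [16,17,18,19,20,21,22])) (.free 2 [1,2,3,4,5,6,7]))), .t 5 (nat_lit 0xc5d0c5b0d350d33) (.z (.node 0 7 (.edon 0 16 (.node 12 13 (.leaf [0,9,12,14,15]) (.leaf [8,13,11,10])) (.free 2 [16,17,18,19,20,21,22])) (.free 2 [1,2,3,4,5,6,7]))), .t 1 (nat_lit 0) (.fa 4), .t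 5 (nat_lit 0xbfb0bf90e000dff) (.z (.node 0 7 (.node 0 11 (.edon 0 16 (.leaf [0,12,13,14,15]) (.free 2 [16,17,18,19,20,21,22])) (.leaf [8,11,10,9])) (.free 2 [1,2,3,4,5,6,7]))), .t 1 (nat_lit 0) (.cn 2 3), .t 5 (nat_lit 0xbfa0bf70e000dff) (.z (.node 0 7 (.node 0 11 (.edon 0 16 (.leaf [0,12,13,14,15]) (.free 2 [16,17,18,19,20,21,22])) (.leaf [8,10,11,9])) (.free 2 [1,2,3,4,5,6,7]))), .t 12 (nat_lit 0x5890350030200d800d4006100500037000500040001) (.z (.edon 4 16 (.free 2 [4,6,7,8,13,14,15]) (.node 10 0 (.leaf [1,3,5,10,9,2]) (.free 3 [0,11,12,16,17,18,19,20,21,22])))), .t 1 (nat_lit 0) (.fa 4), .t 6 (nat_lit 0x652055c055b053a0530) (.z (.node 8 1 (.edon 7 8 (.leaf [7,10,13]) (.leaf [3,4,6,8,5])) (.free 4 [0,1,2,9,11,12,14,15,16,17,18,19,20,21,22])))] (by decide +kernel) (by decide +kernel)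
theorem b126 : B 4032 4064 := Blk.of_chk [.t 24 (nat_lit 0x65d059d05680566056406e206be05e805b305b205a405a30ab00aaf0834073707360643064205e505e4053d0538) (.z (.node 7 4 (.free 1 [7]) (.node 14 1 (.leaf [3,4,6,10,13,14,5]) (.free 4 [0,1,2,8,9,11,12,15,16,17,18,19,20,21,22])))), .t 11 (nat_lit 0x40c5d0982097e09490944093a09390e0a0e09) (.z (.node 16 0 (.edon 4 9 (.node 5 7 (.node 12 13 (.leaf [12,14,15,16]) (.leaf [5,8,10,13,11])) (.leaf [4,6,7])) (.leaf [1,3,9,2])) (.free 2 [0,17,18,19,20,21,22]))), .t 7 (nat_lit 0x704070205c505c3053a001d) (.z (.edon 0 16 (.node 6 13 (.node 0 11 (.leaf [0,12,14,15]) (.node 1 11 (.leaf [1,5,9,2]) (.leaf [3,4,6,8,11]))) (.leaf [7,10,13])) (.free 2 [16,17,18,19,20,21,22]))), .t 24 (nat_lit 0x65d059d05680566056406e306c005e905b505b405a605a50ab20ab10835073707360645064405e505e4053d0539) (.z (.node 7 4 (.free 1 [7])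 (.node 15 1 (.leaf [3,4,6,10,13,15,5]) (.free 4 [0,1,2,8,9,11,12,14,16,17,18,19,20,21,22])))), .t 10 (nat_lit 0xe010dda0dd70db60db10dab0daa08890887) (.z (.edon 0 16 (.edon 0 11 (.node 4 6 (.free 2 [0,1,2,3,4,9,10]) (.leaf [5,7,8,6])) (.leaf [11,12,13,15,14])) (.free 2 [16,17,18,19,20,21,22]))), .t 10 (nat_lit 0x890088908870e010dfe08e908e608ab08a9) (.z (.edon 0 16 (.edon 0 12 (.node 4 6 (.free 2 [0,1,2,3,4,9,10]) (.leaf [5,7,11,8,6])) (.leaf [12,13,15,14])) (.free 2 [16,17,18,19,20,21,22]))), .t 11 (nat_lit 0x40653064e0d570bad0baa0b8d0b8b0b7f0b7e) (.z (.node 16 0 (.edon 13 14 (.leaf [13,15,16]) (.edon 4 9 (.edon 7 8 (.leaf [7,12,14,11,10]) (.leaf [4,5,8,6])) (.leaf [1,3,9,2]))) (.free 2 [0,17,18,19,20,21,22]))), .t 1 (nat_lit 0) (.cn 2 3), .t 7 (nat_lit 0x6590562055e053b05310032) (.z (.edon 0 16 (.edon 7 15 (.leaf [7,12,13]) (.node 0 10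 (.leaf [0,11,14,15]) (.node 1 9 (.leaf [1,8,10,2]) (.leaf [3,4,5,9,6])))) (.free 2 [16,17,18,19,20,21,22]))), .t 5 (nat_lit 0xe010dfe042f042d) (.z (.edon 0 16 (.edon 0 12 (.edon 1 8 (.free 2 [1,3,4,5,6,7,9]) (.leaf [0,2,8,10,11])) (.leaf [12,13,15,14])) (.free 2 [16,17,18,19,20,21,22]))), .t 6 (nat_lit 0x3b903b7014701450025) (.z (.edon 0 16 (.node 1 13 (.node 0 10 (.leaf [0,11,14,15]) (.leaf [1,6,9,10,2])) (.free 2 [3,4,5,7,8,12,13])) (.free 2 [16,17,18,19,20,21,22]))), .t 5 (nat_lit 0xe010dfe04730471) (.z (.edon 0 16 (.edon 0 12 (.node 2 8 (.leaf [0,2,9,10,11]) (.free 2 [1,3,4,5,6,7,8])) (.leaf [12,13,15,14])) (.free 2 [16,17,18,19,20,21,22]))), .t 17 (nat_lit 0xc330c0a0c030d510cfe0cdd0ccc0cca0c910c8e0c710c6e0c5d0c5b0bfb0bf9) (.z (.node 7 0 (.free 2 [1,2,3,4,5,6,7]) (.node 13 0 (.leaf [8,12,13,11,10,9]) (.free 3 [0,14,15,16,17,18,19,20,21,22])))),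 .t 7 (nat_lit 0x30500560005000206790674) (.z (.edon 0 16 (.edon 7 15 (.leaf [7,12,13]) (.node 0 10 (.leaf [0,11,14,15]) (.edon 4 6 (.leaf [4,5,9,8]) (.leaf [1,3,6,10,2])))) (.free 2 [16,17,18,19,20,21,22]))), .t 7 (nat_lit 0xe010dfe08e908e603b903b7) (.z (.edon 0 16 (.edon 0 12 (.node 4 8 (.node 2 4 (.leaf [0,2,6,9,10]) (.leaf [1,3,4])) (.leaf [5,7,11,8])) (.leaf [12,13,15,14])) (.free 2 [16,17,18,19,20,21,22]))), .t 6 (nat_lit 0x3ba0148014400370027) (.z (.edon 0 16 (.node 1 13 (.node 0 10 (.leaf [0,11,14,15]) (.leaf [1,6,10,9,2])) (.free 2 [3,4,5,7,8,12,13])) (.free 2 [16,17,18,19,20,21,22]))), .t 1 (nat_lit 0) (.fa 3), .t 8 (nat_lit 0xdab0e000dff0dd90dd80da70da6) (.z (.edon 0 16 (.node 0 10 (.leaf [0,11,12,13,14,15]) (.free 3 [1,2,3,4,5,6,7,8,9,10])) (.free 2 [16,17,18,19,20,21,22]))), .t 1 (nat_lit 0) (.fa 3), .t 6 (nat_lit 0x4150198019300370032)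 (.z (.edon 0 16 (.node 1 13 (.node 0 10 (.leaf [0,11,14,15]) (.leaf [1,8,10,9,2])) (.free 2 [3,4,5,6,7,12,13])) (.free 2 [16,17,18,19,20,21,22]))), .t 6 (nat_lit 0x4140412019701950031) (.z (.edon 0 16 (.node 1 13 (.node 0 10 (.leaf [0,11,14,15]) (.leaf [1,8,9,10,2])) (.free 2 [3,4,5,6,7,12,13])) (.free 2 [16,17,18,19,20,21,22]))), .t 7 (nat_lit 0x6580561055f053b05310032) (.z (.edon 0 16 (.edon 7 15 (.leaf [7,12,13]) (.node 0 10 (.leaf [0,11,14,15]) (.node 1 9 (.leaf [1,8,10,2]) (.leaf [3,4,6,9,5])))) (.free 2 [16,17,18,19,20,21,22]))), .t 9 (nat_lit 0x6fa06f806f307790776071707150001) (.z (.edon 0 16 (.edon 7 15 (.leaf [7,12,13]) (.node 0 10 (.leaf [0,11,14,15]) (.node 3 8 (.leaf [1,3,5,2]) (.leaf [4,6,9,10,8])))) (.free 2 [16,17,18,19,20,21,22]))), .t 10 (nat_lit 0xe010dfe0652055c055b053a05300b370b35) (.z (.edon 0 16 (.edon 0 3 (.leaf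 [0,1,2]) (.edon 0 12 (.edon 7 8 (.leaf [7,11,10,9]) (.leaf [3,4,6,8,5])) (.leaf [12,13,15,14]))) (.free 2 [16,17,18,19,20,21,22]))), .t 9 (nat_lit 0x6fa06f806f307790776071707150001) (.z (.edon 0 16 (.node 6 13 (.node 0 10 (.leaf [0,11,14,15]) (.node 3 8 (.leaf [1,3,5,2]) (.leaf [4,6,9,10,8]))) (.leaf [7,12,13])) (.free 2 [16,17,18,19,20,21,22]))), .t 1 (nat_lit 0) (.fa 2), .t 1 (nat_lit 0) (.cn 1 3), .t 5 (nat_lit 0xe010dfe0bfa0bf8) (.z (.node 0 7 (.edon 0 12 (.leaf [0,8,9,10,11]) (.edon 0 16 (.leaf [12,13,15,14]) (.free 2 [16,17,18,19,20,21,22]))) (.free 2 [1,2,3,4,5,6,7]))), .t 7 (nat_lit 0x65d05660564053d05330031) (.z (.edon 0 16 (.node 6 13 (.node 0 10 (.leaf [0,11,14,15]) (.node 1 10 (.leaf [1,8,9,2]) (.leaf [3,4,6,10,5]))) (.leaf [7,12,13])) (.free 2 [16,17,18,19,20,21,22]))), .t 1 (nat_lit 0) (.fa 2), .t 10 (nat_lit 0x88d088908870e010dfe08e508e208a408a2)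 (.z (.edon 0 16 (.edon 0 12 (.node 4 6 (.free 2 [0,1,2,3,4,9,11]) (.leaf [5,7,10,8,6])) (.leaf [12,13,15,14])) (.free 2 [16,17,18,19,20,21,22]))), .t 10 (nat_lit 0xe010dfe0bfa0b360b340aec0ae90ad50ad3) (.z (.edon 0 16 (.edon 0 7 (.free 2 [0,1,2,3,4,5,6]) (.edon 0 12 (.leaf [7,10,11,9,8]) (.leaf [12,13,15,14]))) (.free 2 [16,17,18,19,20,21,22])))] (by decide +kernel) (by decide +kernel)
theorem b127 : B 4064 4096 := Blk.of_chk [.t 7 (nat_lit 0x65e05670563053d05330031) (.z (.edon 0 16 (.edon 7 15 (.leaf [7,12,13]) (.node 0 10 (.leaf [0,11,14,15]) (.node 1 10 (.leaf [1,8,9,2]) (.leaf [3,4,5,10,6])))) (.free 2 [16,17,18,19,20,21,22]))), .t 1 (nat_lit 0) (.cn 3 2), .t 1 (nat_lit 0) (.fa 3), .t 9 (nat_lit 0x3040055000400020c710c6e0de20de1) (.z (.node 16 0 (.edon 8 9 (.node 11 13 (.leaf [11,14,15,16]) (.leaf [8,12,13,10])) (.edon 4 6 (.leaf [4,5,7])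 (.leaf [1,3,6,9,2]))) (.free 2 [0,17,18,19,20,21,22]))), .t 7 (nat_lit 0x3040055000400020681067c) (.z (.edon 0 16 (.edon 7 15 (.leaf [7,12,13]) (.node 0 10 (.leaf [0,11,14,15]) (.edon 4 6 (.leaf [4,5,10,8]) (.leaf [1,3,6,9,2])))) (.free 2 [16,17,18,19,20,21,22]))), .t 7 (nat_lit 0xe010dfe08e508e2071e071c) (.z (.node 0 3 (.edon 0 12 (.node 4 8 (.leaf [0,4,6,9,11]) (.leaf [5,7,10,8])) (.edon 0 16 (.leaf [12,13,15,14]) (.free 2 [16,17,18,19,20,21,22]))) (.free 1 [1,2,3]))), .t 5 (nat_lit 0xe010dfe03be03bd) (.z (.edon 0 16 (.edon 0 12 (.edon 1 6 (.free 2 [1,3,4,5,7,8,10]) (.leaf [0,2,6,9,11])) (.leaf [12,13,15,14])) (.free 2 [16,17,18,19,20,21,22]))), .t 1 (nat_lit 0) (.fa 3), .t 10 (nat_lit 0xe010dfe06590562055e053b05310aec0ae9) (.z (.edon 0 16 (.edon 0 3 (.leaf [0,1,2]) (.edon 0 12 (.edon 7 9 (.leaf [7,10,11,8]) (.leaf [3,4,5,9,6])) (.leaf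 [12,13,15,14]))) (.free 2 [16,17,18,19,20,21,22]))), .t 15 (nat_lit 0x6540653064e06f706f4067806760d570bad0baa0b8d0b8b0b7f0b7e) (.z (.node 16 0 (.edon 13 14 (.leaf [13,15,16]) (.edon 7 8 (.leaf [7,12,14,11,10]) (.edon 0 4 (.leaf [1,2,3]) (.leaf [4,5,8,9,6])))) (.free 2 [0,17,18,19,20,21,22]))), .t 10 (nat_lit 0xe010dfe08e508e2071f071d05d805d7053b) (.z (.edon 0 16 (.edon 0 3 (.leaf [0,1,2]) (.edon 0 12 (.node 4 8 (.leaf [3,4,11,9,6]) (.leaf [5,7,10,8])) (.leaf [12,13,15,14]))) (.free 2 [16,17,18,19,20,21,22]))), .t 7 (nat_lit 0x68105740570054a05330025) (.z (.edon 0 16 (.edon 7 15 (.leaf [7,12,13]) (.node 0 10 (.leaf [0,11,14,15]) (.node 1 10 (.leaf [1,6,9,2]) (.leaf [3,4,5,10,8])))) (.free 2 [16,17,18,19,20,21,22]))), .t 13 (nat_lit 0x653055d055a053a05300d570bad0baa0b8d0b8b0b7f0b7e) (.z (.node 16 0 (.edon 13 14 (.leaf [13,15,16]) (.edon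 7 9 (.leaf [7,12,14,11,10]) (.node 1 6 (.leaf [1,2,9]) (.leaf [3,4,5,8,6])))) (.free 2 [0,17,18,19,20,21,22]))), .t 8 (nat_lit 0xe010dfe05c001360133005a0056) (.z (.edon 0 16 (.edon 0 12 (.node 2 10 (.leaf [0,2,9,11]) (.edon 4 8 (.leaf [4,5,7]) (.leaf [1,3,8,10,6]))) (.leaf [12,13,15,14])) (.free 2 [16,17,18,19,20,21,22]))), .t 9 (nat_lit 0xc710c6e0de20de10304005500040002) (.z (.node 16 0 (.node 7 8 (.edon 4 9 (.leaf [4,5,7]) (.leaf [1,3,6,9,2])) (.node 11 13 (.leaf [11,14,15,16]) (.leaf [8,12,13,10]))) (.free 2 [0,17,18,19,20,21,22]))), .t 9 (nat_lit 0xc710c6e0de20de10304005500040002) (.z (.node 16 0 (.node 7 11 (.edon 4 9 (.leaf [4,5,7]) (.leaf [1,3,6,9,2])) (.node 11 13 (.leaf [11,14,15,16]) (.leaf [8,12,13,10]))) (.free 2 [0,17,18,19,20,21,22]))), .t 9 (nat_lit 0x91d0781077d06a4069f068606840002) (.z (.node 16 0 (.edon 7 8 (.free 2 [7,10,12,13,14,15,16])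 (.node 3 9 (.leaf [1,3,6,2]) (.leaf [4,5,8,11,9]))) (.free 2 [0,17,18,19,20,21,22]))), .t 10 (nat_lit 0xe010d930d920d800d7b0d780d770ad50ad0) (.z (.edon 0 16 (.edon 0 7 (.free 2 [0,1,2,3,4,5,6]) (.node 8 14 (.leaf [7,8,11,9]) (.leaf [10,12,13,15,14]))) (.free 2 [16,17,18,19,20,21,22]))), .t 9 (nat_lit 0x10a2d0781077d071f071b07040702) (.z (.node 16 0 (.edon 7 8 (.free 2 [7,10,12,13,14,15,16]) (.edon 4 5 (.leaf [4,6,8,11,9]) (.leaf [1,3,5,2]))) (.free 2 [0,17,18,19,20,21,22]))), .t 6 (nat_lit 0x35000d800d40037001f) (.z (.edon 0 16 (.node 1 13 (.node 0 10 (.leaf [0,11,14,15]) (.leaf [1,5,10,9,2])) (.free 2 [3,4,6,7,8,12,13])) (.free 2 [16,17,18,19,20,21,22]))), .t 10 (nat_lit 0xe010dfe06580561055f053b05310aec0ae9) (.z (.edon 0 16 (.edon 0 3 (.leaf [0,1,2]) (.edon 0 12 (.edon 7 9 (.leaf [7,10,11,8]) (.leaf [3,4,6,9,5])) (.leaf [12,13,15,14])))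 (.free 2 [16,17,18,19,20,21,22]))), .t 9 (nat_lit 0xc710c6e0de20de10301004f00040001) (.z (.node 16 0 (.node 7 8 (.edon 4 9 (.leaf [4,6,7]) (.leaf [1,3,5,9,2])) (.node 11 13 (.leaf [11,14,15,16]) (.leaf [8,12,13,10]))) (.free 2 [0,17,18,19,20,21,22]))), .t 15 (nat_lit 0x64f067806750658065506f706f50d570bad0baa0b8d0b8b0b7f0b7e) (.z (.node 16 0 (.edon 13 14 (.leaf [13,15,16]) (.edon 7 8 (.leaf [7,12,14,11,10]) (.edon 0 4 (.leaf [1,2,3]) (.leaf [4,6,8,9,5])))) (.free 2 [0,17,18,19,20,21,22]))), .t 5 (nat_lit 0xe010dfe03550354) (.z (.edon 0 16 (.edon 0 12 (.node 5 10 (.leaf [0,2,5,9,11]) (.free 2 [1,3,4,6,7,8,10])) (.leaf [12,13,15,14])) (.free 2 [16,17,18,19,20,21,22]))), .t 10 (nat_lit 0x64f067806750658065506f706f50d6b0d69) (.z (.edon 0 16 (.edon 7 15 (.leaf [7,12,13]) (.node 0 9 (.leaf [0,10,11,14,15]) (.edon 0 4 (.leaf [1,2,3]) (.leaf [4,6,8,9,5]))))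 (.free 2 [16,17,18,19,20,21,22]))), .t 8 (nat_lit 0xe010dfe057300c700c4005a0050) (.z (.edon 0 16 (.edon 0 12 (.node 2 10 (.leaf [0,2,9,11]) (.edon 4 8 (.leaf [4,6,7]) (.leaf [1,3,8,10,5]))) (.leaf [12,13,15,14])) (.free 2 [16,17,18,19,20,21,22]))), .t 7 (nat_lit 0xe010dfe033e033d0a0c0a09) (.z (.edon 0 16 (.edon 0 12 (.node 2 4 (.edon 6 9 (.leaf [6,7,11,10]) (.leaf [0,2,5,8,9])) (.leaf [1,3,4])) (.leaf [12,13,15,14])) (.free 2 [16,17,18,19,20,21,22]))), .t 10 (nat_lit 0xe010dfe09f309f006a406a20590058e0531) (.z (.edon 0 16 (.edon 0 3 (.leaf [0,1,2]) (.edon 0 12 (.node 4 10 (.leaf [3,4,11,9,5]) (.leaf [6,7,10,8])) (.leaf [12,13,15,14]))) (.free 2 [16,17,18,19,20,21,22]))), .t 15 (nat_lit 0x64f067806750658065506f706f50d570bad0baa0b8d0b8b0b7f0b7e) (.z (.node 16 0 (.edon 13 14 (.leaf [13,15,16]) (.edon 7 9 (.leaf [7,12,14,11,10]) (.edon 0 4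 (.leaf [1,2,3]) (.leaf [4,6,8,9,5])))) (.free 2 [0,17,18,19,20,21,22]))), .t 8 (nat_lit 0xe010dfe060d060c01c201c0005a) (.z (.edon 0 16 (.edon 0 12 (.edon 1 9 (.edon 4 10 (.leaf [4,6,7]) (.leaf [1,3,8,10,11])) (.leaf [0,2,5,9])) (.leaf [12,13,15,14])) (.free 2 [16,17,18,19,20,21,22]))), .t 13 (nat_lit 0x652055c055b053a05300d570bad0baa0b8d0b8b0b7f0b7e) (.z (.node 16 0 (.edon 13 14 (.leaf [13,15,16]) (.edon 7 9 (.leaf [7,12,14,11,10]) (.node 1 5 (.leaf [1,2,9]) (.leaf [3,4,6,8,5])))) (.free 2 [0,17,18,19,20,21,22]))), .t 10 (nat_lit 0xe010dfe09f309f006a406a20590058e0531) (.z (.edon 0 16 (.edon 0 3 (.leaf [0,1,2]) (.edon 0 12 (.node 4 8 (.leaf [3,4,11,9,5]) (.leaf [6,7,10,8])) (.leaf [12,13,15,14]))) (.free 2 [16,17,18,19,20,21,22])))] (by decide +kernel) (by decide +kernel)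

end Pool.Agent.GCP.F8_13
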