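import Pool.Agent.GCP.F8_13Db

set_option autoImplicit false
set_option maxRecDepth 100000

/-! # Blocks F8_13B3 (generated) -/

namespace Pool.Agent.GCP.F8_13

open Pool.Agent.GCP DB

theorem b128 : B 4096 4128 := Blk.of_chk [.t 15 (nat_lit 0xa0f0a0e0a0d0aac0aab0a180a17091d041c04170356035303440343) (.z (.node 16 0 (.edon 13 14 (.leaf [13,15,16]) (.node 4 10 (.node 2 4 (.leaf [2,5,8,11,9]) (.leaf [1,3,4])) (.leaf [6,7,12,14,10]))) (.free 2 [0,17,18,19,20,21,22]))), .t 1 (nat_lit 0) (.cn 2 3), .t 6 (nat_lit 0x6ff05c105bd054a053d) (.z (.node 10 1 (.edon 7 10 (.leaf [7,12,13]) (.leaf [3,4,6,10,8])) (.free 4 [0,1,2,5,9,11,14,15,16,17,18,19,20,21,22]))), .t 8 (nat_lit 0xc640279027701e901e701d201d0) (.z (.edon 0 16 (.edon 3 10 (.free 2 [3,4,6,7,12,13,15]) (.edon 1 9 (.leaf [1,8,10,14,11]) (.leaf [0,2,5,9]))) (.free 2 [16,17,18,19,20,21,22]))),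 .t 9 (nat_lit 0xe010d930d920d800d7b0d780d77004e) (.z (.edon 0 16 (.node 3 10 (.node 2 8 (.leaf [0,2,9,11]) (.leaf [1,3,8,5])) (.edon 0 10 (.leaf [4,6,7]) (.leaf [10,12,13,15,14]))) (.free 2 [16,17,18,19,20,21,22]))), .t 1 (nat_lit 0) (.cp 2 3), .t 8 (nat_lit 0xe010cbe0cbd0cb80cb50cb30cb2) (.z (.node 0 7 (.edon 0 16 (.edon 8 10 (.leaf [8,12,13,15,14]) (.leaf [0,9,10,11])) (.free 2 [16,17,18,19,20,21,22])) (.free 2 [1,2,3,4,5,6,7]))), .t 24 (nat_lit 0x708062705ca05c905c707c707c5062e062d062b062a05f20ac60ac508680750074f064c064b05f005ef054d0540) (.z (.node 7 4 (.free 1 [7]) (.node 14 1 (.leaf [3,4,6,12,13,14,8]) (.free 4 [0,1,2,5,9,10,11,15,16,17,18,19,20,21,22])))), .t 13 (nat_lit 0xcd80d6b0d690d1d0d1c0cd20cd00652055c055b053a0530) (.z (.edon 0 3 (.free 1 [0,1,2]) (.node 6 13 (.edon 0 9 (.leaf [3,4,6,8,5]) (.edon 0 16 (.leaf [9,10,11,14,15])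 (.free 2 [16,17,18,19,20,21,22]))) (.leaf [7,12,13])))), .t 10 (nat_lit 0xe010dfe08e908e6071805d305d1054f053d) (.z (.edon 0 16 (.edon 0 3 (.leaf [0,1,2]) (.edon 0 12 (.node 4 8 (.leaf [3,4,6,10,9]) (.leaf [5,7,11,8])) (.leaf [12,13,15,14]))) (.free 2 [16,17,18,19,20,21,22]))), .t 11 (nat_lit 0x68705790576054b053503ba0148014400370027) (.z (.edon 0 16 (.node 0 13 (.leaf [0,14,15]) (.node 1 8 (.leaf [1,6,10,9,2]) (.edon 7 11 (.leaf [7,12,13]) (.leaf [3,4,5,11,8])))) (.free 2 [16,17,18,19,20,21,22]))), .t 13 (nat_lit 0xcd80d6b0d690d1d0d1c0cd20cd00653055d055a053a0530) (.z (.edon 0 16 (.edon 7 15 (.leaf [7,12,13]) (.edon 0 9 (.edon 0 3 (.leaf [0,1,2]) (.leaf [3,4,5,8,6])) (.leaf [9,10,11,14,15]))) (.free 2 [16,17,18,19,20,21,22]))), .t 10 (nat_lit 0xad50e010dfe0bfb0bf90b370b350acd0acb) (.z (.edon 0 16 (.edon 0 7 (.free 2 [0,1,2,3,4,5,6]) (.edon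 0 12 (.leaf [7,11,10,9,8]) (.leaf [12,13,15,14]))) (.free 2 [16,17,18,19,20,21,22]))), .t 6 (nat_lit 0x3a603a5012f012d0024) (.z (.edon 0 16 (.node 1 13 (.node 0 9 (.leaf [0,10,14,15]) (.leaf [1,6,8,9,2])) (.free 2 [3,4,5,7,11,12,13])) (.free 2 [16,17,18,19,20,21,22]))), .t 13 (nat_lit 0xccf0cf60cf30cd80cd60d1d0d1c0653055d055a053a0530) (.z (.edon 0 16 (.edon 7 15 (.leaf [7,12,13]) (.edon 0 9 (.edon 0 3 (.leaf [0,1,2]) (.leaf [3,4,5,8,6])) (.leaf [9,11,14,15,10]))) (.free 2 [16,17,18,19,20,21,22]))), .t 13 (nat_lit 0xccf0cf60cf30cd80cd60d1d0d1c0652055c055b053a0530) (.z (.edon 0 3 (.free 1 [0,1,2]) (.node 6 13 (.edon 0 9 (.leaf [3,4,6,8,5]) (.edon 0 16 (.leaf [9,11,14,15,10]) (.free 2 [16,17,18,19,20,21,22]))) (.leaf [7,12,13])))), .t 10 (nat_lit 0xe010dfe06580561055f053b05310aed0aeb) (.z (.edon 0 16 (.edon 0 3 (.leaf [0,1,2]) (.edon 0 12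 (.edon 7 9 (.leaf [7,11,10,8]) (.leaf [3,4,6,9,5])) (.leaf [12,13,15,14]))) (.free 2 [16,17,18,19,20,21,22]))), .t 5 (nat_lit 0xc350c330d6b0d69) (.z (.node 0 7 (.edon 0 16 (.node 10 13 (.leaf [0,10,11,14,15]) (.leaf [8,12,13,9])) (.free 2 [16,17,18,19,20,21,22])) (.free 2 [1,2,3,4,5,6,7]))), .t 13 (nat_lit 0x652055c055b053a05300d050bad0baa0b5e0b5c0b510b50) (.z (.node 16 0 (.edon 13 14 (.leaf [13,15,16]) (.edon 7 10 (.leaf [7,12,14,11,9]) (.node 1 5 (.leaf [1,2,10]) (.leaf [3,4,6,8,5])))) (.free 2 [0,17,18,19,20,21,22]))), .t 10 (nat_lit 0xe010dfe0652055c055b053a05300b370b33) (.z (.edon 0 16 (.edon 0 3 (.leaf [0,1,2]) (.edon 0 12 (.edon 7 8 (.leaf [7,9,11,10]) (.leaf [3,4,6,8,5])) (.leaf [12,13,15,14]))) (.free 2 [16,17,18,19,20,21,22]))), .t 7 (nat_lit 0xe010dfe09ef09ec03670365) (.z (.edon 0 16 (.edon 0 12 (.node 2 4 (.node 5 9 (.leaf [0,2,5,10,11])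 (.leaf [6,7,9,8])) (.leaf [1,3,4])) (.leaf [12,13,15,14])) (.free 2 [16,17,18,19,20,21,22]))), .t 9 (nat_lit 0x6fe00010a250a230779077706f706f5) (.z (.edon 0 16 (.node 6 13 (.node 0 10 (.leaf [0,11,14,15]) (.edon 4 5 (.leaf [4,6,8,9,10]) (.leaf [1,3,5,2]))) (.leaf [7,12,13])) (.free 2 [16,17,18,19,20,21,22]))), .t 8 (nat_lit 0xe010dfe06020601019f019d0059) (.z (.edon 0 16 (.edon 4 12 (.leaf [4,6,7]) (.edon 0 12 (.edon 1 10 (.leaf [1,3,8,9,11]) (.leaf [0,2,5,10])) (.leaf [12,13,15,14]))) (.free 2 [16,17,18,19,20,21,22]))), .t 10 (nat_lit 0xe010dfe09ef09ec06b506b3059b059a0533) (.z (.edon 0 16 (.edon 0 3 (.leaf [0,1,2]) (.edon 0 12 (.node 4 8 (.leaf [3,4,11,10,5]) (.leaf [6,7,9,8])) (.leaf [12,13,15,14]))) (.free 2 [16,17,18,19,20,21,22]))), .t 15 (nat_lit 0x64f0680067d065d065b06fe06fc0d050bad0baa0b5e0b5c0b510b50) (.z (.node 16 0 (.edon 13 14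 (.leaf [13,15,16]) (.edon 7 10 (.leaf [7,12,14,11,9]) (.edon 0 4 (.leaf [1,2,3]) (.leaf [4,6,8,10,5])))) (.free 2 [0,17,18,19,20,21,22]))), .t 13 (nat_lit 0xd6b0d1d0d1b0cf60cf30cd90cd70652055c055b053a0530) (.z (.edon 0 16 (.edon 7 15 (.leaf [7,12,13]) (.edon 0 9 (.edon 0 3 (.leaf [0,1,2]) (.leaf [3,4,6,8,5])) (.leaf [9,14,15,11,10]))) (.free 2 [16,17,18,19,20,21,22]))), .t 6 (nat_lit 0x6f805bb05b60549053b) (.z (.node 9 1 (.edon 7 9 (.leaf [7,12,13]) (.leaf [3,4,6,9,8])) (.free 4 [0,1,2,5,10,11,14,15,16,17,18,19,20,21,22]))), .t 13 (nat_lit 0x9550970096b09610960070f05d005ce054e054209880986) (.z (.edon 0 16 (.node 1 15 (.edon 0 5 (.leaf [0,1,2]) (.leaf [5,9,14,11,10])) (.edon 7 15 (.leaf [7,12,13]) (.leaf [3,4,6,15,8]))) (.free 2 [16,17,18,19,20,21,22]))), .t 17 (nat_lit 0xc330c430c420c410c3f0c3b0c390e010cbe0cbd0cb80cb50cb30cb20c490c47) (.z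 (.node 7 0 (.free 2 [1,2,3,4,5,6,7]) (.node 15 10 (.leaf [8,12,13,15,14,9]) (.free 3 [0,10,11,16,17,18,19,20,21,22])))), .t 17 (nat_lit 0xc330c430c420c410c3f0c3b0c390e010cbe0cbd0cb80cb50cb30cb20c490c47) (.z (.node 7 0 (.free 2 [1,2,3,4,5,6,7]) (.node 14 10 (.leaf [8,12,13,15,14,9]) (.free 3 [0,10,11,16,17,18,19,20,21,22])))), .t 5 (nat_lit 0xe010dfe034f034d) (.z (.edon 0 16 (.edon 0 12 (.edon 1 9 (.free 2 [1,3,4,6,7,8,11]) (.leaf [0,2,5,9,10])) (.leaf [12,13,15,14])) (.free 2 [16,17,18,19,20,21,22]))), .t 13 (nat_lit 0xd9a0d470d450cfa0cf90cf80cf70652055c055b053a0530) (.z (.edon 0 3 (.free 1 [0,1,2]) (.node 6 13 (.edon 0 9 (.leaf [3,4,6,8,5]) (.node 11 16 (.free 2 [11,17,18,19,20,21,22]) (.leaf [9,15,16,14,10]))) (.leaf [7,12,13]))))] (by decide +kernel) (by decide +kernel)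
theorem b129 : B 4128 4160 := Blk.of_chk [.t 12 (nat_lit 0x64f0678067506580655030e00680006000506f706f5) (.z (.edon 0 16 (.node 0 13 (.leaf [0,14,15]) (.edon 4 10 (.edon 7 9 (.leaf [7,12,13]) (.leaf [4,6,8,9,5])) (.leaf [1,3,10,11,2]))) (.free 2 [16,17,18,19,20,21,22]))), .t 9 (nat_lit 0x3020050000500010c350c330de20de1) (.z (.node 16 0 (.edon 8 10 (.node 11 13 (.leaf [11,14,15,16]) (.leaf [8,12,13,9])) (.edon 4 5 (.leaf [4,6,7]) (.leaf [1,3,5,10,2]))) (.free 2 [0,17,18,19,20,21,22]))), .t 9 (nat_lit 0x10a4107970793072e072b07040702) (.z (.node 16 0 (.edon 7 11 (.free 2 [7,9,12,13,14,15,16]) (.edon 4 5 (.leaf [4,6,8,11,10]) (.leaf [1,3,5,2]))) (.free 2 [0,17,18,19,20,21,22]))), .t 10 (nat_lit 0xaed0ae80e010d3f0d3e0d360d310d300d2f) (.z (.edon 0 16 (.edon 0 7 (.free 2 [0,1,2,3,4,5,6]) (.edon 9 11 (.leaf [9,12,13,15,14]) (.leaf [7,8,11,10])))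 (.free 2 [16,17,18,19,20,21,22]))), .t 15 (nat_lit 0x64f0680067d065d065b06fe06fc0d050bad0baa0b5e0b5c0b510b50) (.z (.node 16 0 (.edon 13 14 (.leaf [13,15,16]) (.edon 7 8 (.leaf [7,12,14,11,9]) (.edon 0 4 (.leaf [1,2,3]) (.leaf [4,6,8,10,5])))) (.free 2 [0,17,18,19,20,21,22]))), .t 1 (nat_lit 0) (.cn 3 2), .t 5 (nat_lit 0xe010dfe03cd03cc) (.z (.edon 0 16 (.edon 0 12 (.node 6 9 (.leaf [0,2,6,10,11]) (.free 2 [1,3,4,5,7,8,9])) (.leaf [12,13,15,14])) (.free 2 [16,17,18,19,20,21,22]))), .t 9 (nat_lit 0x9340797079306b506b1068606840002) (.z (.node 16 0 (.edon 7 8 (.free 2 [7,9,12,13,14,15,16]) (.node 3 10 (.leaf [1,3,6,2]) (.leaf [4,5,8,11,10]))) (.free 2 [0,17,18,19,20,21,22]))), .t 9 (nat_lit 0x3050056000500020c350c330de20de1) (.z (.node 16 0 (.edon 8 10 (.node 11 13 (.leaf [11,14,15,16]) (.leaf [8,12,13,9])) (.edon 4 6 (.leaf [4,5,7]) (.leaf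 [1,3,6,10,2]))) (.free 2 [0,17,18,19,20,21,22]))), .t 15 (nat_lit 0x65a0653064e06fe06fb0680067e0d050bad0baa0b5e0b5c0b510b50) (.z (.node 16 0 (.edon 13 14 (.leaf [13,15,16]) (.edon 7 8 (.leaf [7,12,14,11,9]) (.edon 0 4 (.leaf [1,2,3]) (.leaf [4,5,8,10,6])))) (.free 2 [0,17,18,19,20,21,22]))), .t 7 (nat_lit 0xe010dfe08e108de03cd03cc) (.z (.edon 0 16 (.edon 0 12 (.node 2 4 (.node 6 8 (.leaf [0,2,6,10,11]) (.leaf [5,7,9,8])) (.leaf [1,3,4])) (.leaf [12,13,15,14])) (.free 2 [16,17,18,19,20,21,22]))), .t 10 (nat_lit 0xe010dfe08e108de072e072d05e105e0053d) (.z (.edon 0 16 (.edon 0 3 (.leaf [0,1,2]) (.edon 0 12 (.node 4 8 (.leaf [3,4,11,10,6]) (.leaf [5,7,9,8])) (.leaf [12,13,15,14]))) (.free 2 [16,17,18,19,20,21,22]))), .t 10 (nat_lit 0xd2e0d2c0d2a0d3f0d3e0d360d340aed0ae8) (.z (.edon 0 16 (.edon 0 7 (.free 2 [0,1,2,3,4,5,6]) (.node 8 12 (.leaf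 [7,8,11,10]) (.leaf [9,13,15,14,12]))) (.free 2 [16,17,18,19,20,21,22]))), .t 17 (nat_lit 0xc160c050bfe0bfb0bf60c5d0c360c320c220c1d0d520d500c920c900c550c53) (.z (.node 7 0 (.free 2 [1,2,3,4,5,6,7]) (.node 13 0 (.leaf [8,9,13,12,11,10]) (.free 3 [0,14,15,16,17,18,19,20,21,22])))), .t 10 (nat_lit 0x88a088908870e010dfe08e108de089d089b) (.z (.edon 0 16 (.edon 0 12 (.node 4 6 (.free 2 [0,1,2,3,4,10,11]) (.leaf [5,7,9,8,6])) (.leaf [12,13,15,14])) (.free 2 [16,17,18,19,20,21,22]))), .t 1 (nat_lit 0) (.cn 3 2), .t 11 (nat_lit 0x64e068a0689066306620005070807070de20de1) (.z (.node 16 0 (.edon 4 10 (.node 11 13 (.leaf [11,14,15,16]) (.edon 7 12 (.leaf [7,9,13]) (.leaf [4,5,12,8,6]))) (.leaf [1,3,10,2])) (.free 2 [0,17,18,19,20,21,22]))), .t 9 (nat_lit 0xc360c320de20de10305005600050002) (.z (.node 16 0 (.node 7 8 (.edon 4 6 (.leaf [4,5,7]) (.leaf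 [1,3,6,10,2])) (.node 11 13 (.leaf [11,14,15,16]) (.leaf [8,9,13,12]))) (.free 2 [0,17,18,19,20,21,22]))), .t 1 (nat_lit 0) (.fa 3), .t 1 (nat_lit 0) (.cn 1 3), .t 15 (nat_lit 0xd2e0d2c0d2a0d3f0d3e0d360d340aed0a410a3c0a0c0a0909f609f5) (.z (.node 0 3 (.edon 0 16 (.node 7 12 (.edon 0 6 (.leaf [0,4,5]) (.leaf [6,7,8,11,10])) (.leaf [9,13,15,14,12])) (.free 2 [16,17,18,19,20,21,22])) (.free 1 [1,2,3]))), .t 9 (nat_lit 0xc360c320de20de10305005600050002) (.z (.node 16 0 (.node 7 11 (.edon 4 6 (.leaf [4,5,7]) (.leaf [1,3,6,10,2])) (.node 11 13 (.leaf [11,14,15,16]) (.leaf [8,9,13,12]))) (.free 2 [0,17,18,19,20,21,22]))), .t 8 (nat_lit 0x8ea08e108de0923092008f908f8) (.z (.node 2 4 (.edon 8 13 (.leaf [5,7,9,12,8]) (.free 4 [0,2,6,10,11,13,14,15,16,17,18,19,20,21,22])) (.free 1 [1,3,4]))), .t 1 (nat_lit 0) (.fa 3), .t 7 (nat_lit 0xe010dfe03ac03ab08f108f0)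 (.z (.edon 0 16 (.edon 0 12 (.node 2 4 (.edon 5 8 (.leaf [5,7,9,10]) (.leaf [0,2,6,8,11])) (.leaf [1,3,4])) (.leaf [12,13,15,14])) (.free 2 [16,17,18,19,20,21,22]))), .t 7 (nat_lit 0xe010dfe03ac03ab08f108f0) (.z (.edon 0 16 (.edon 0 12 (.node 2 4 (.edon 5 11 (.leaf [5,7,9,10]) (.leaf [0,2,6,8,11])) (.leaf [1,3,4])) (.leaf [12,13,15,14])) (.free 2 [16,17,18,19,20,21,22]))), .t 10 (nat_lit 0xe010dfe08f108f00705070305c605c4053a) (.z (.edon 0 16 (.edon 0 3 (.leaf [0,1,2]) (.edon 0 12 (.node 4 10 (.leaf [3,4,11,8,6]) (.leaf [5,7,9,10])) (.leaf [12,13,15,14]))) (.free 2 [16,17,18,19,20,21,22]))), .t 10 (nat_lit 0xe010dfe0653055d055a053a05300b370b33) (.z (.edon 0 16 (.edon 0 3 (.leaf [0,1,2]) (.edon 0 12 (.edon 7 8 (.leaf [7,9,11,10]) (.leaf [3,4,5,8,6])) (.leaf [12,13,15,14]))) (.free 2 [16,17,18,19,20,21,22]))), .t 1 (nat_lit 0) (.fa 3), .t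 10 (nat_lit 0xe010dfe0653055d055a053a05300b360b34) (.z (.edon 0 16 (.edon 0 3 (.leaf [0,1,2]) (.edon 0 12 (.edon 7 8 (.leaf [7,10,11,9]) (.leaf [3,4,5,8,6])) (.leaf [12,13,15,14]))) (.free 2 [16,17,18,19,20,21,22]))), .t 1 (nat_lit 0) (.cn 1 3), .t 10 (nat_lit 0xe010dfe08f208ef0705070305c605c4053a) (.z (.edon 0 16 (.edon 0 3 (.leaf [0,1,2]) (.edon 0 12 (.node 4 9 (.leaf [3,4,11,8,6]) (.leaf [5,7,10,9])) (.leaf [12,13,15,14]))) (.free 2 [16,17,18,19,20,21,22])))] (by decide +kernel) (by decide +kernel)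
theorem b130 : B 4160 4192 := Blk.of_chk [.t 7 (nat_lit 0xe010dfe08f208ef03ac03ab) (.z (.edon 0 16 (.edon 0 12 (.node 4 9 (.node 2 4 (.leaf [0,2,6,8,11]) (.leaf [1,3,4])) (.leaf [5,7,10,9])) (.leaf [12,13,15,14])) (.free 2 [16,17,18,19,20,21,22]))), .t 1 (nat_lit 0) (.fa 3), .t 5 (nat_lit 0xe010dfe03be03bd) (.z (.edon 0 16 (.edon 0 12 (.edon 1 9 (.free 2 [1,3,4,5,7,8,10]) (.leaf [0,2,6,9,11])) (.leaf [12,13,15,14])) (.free 2 [16,17,18,19,20,21,22]))), .t 1 (nat_lit 0) (.cn 2 2), .t 5 (nat_lit 0xe010dfe041b0419) (.z (.edon 0 16 (.edon 0 12 (.edon 1 8 (.free 2 [1,3,4,5,6,7,10]) (.leaf [0,2,8,9,11])) (.leaf [12,13,15,14])) (.free 2 [16,17,18,19,20,21,22]))), .t 9 (nat_lit 0x674069c06970681067c077a07780002) (.z (.node 16 0 (.edon 7 10 (.free 2 [7,11,12,13,14,15,16]) (.node 3 8 (.leaf [1,3,6,2]) (.leaf [4,5,10,9,8]))) (.free 2 [0,17,18,19,20,21,22]))),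 .t 1 (nat_lit 0) (.fa 3), .t 1 (nat_lit 0) (.fa 3), .t 1 (nat_lit 0) (.fa 3), .t 7 (nat_lit 0xe010dfe03a603a508ff08fc) (.z (.edon 0 16 (.edon 0 12 (.node 2 4 (.edon 5 9 (.leaf [5,7,11,10]) (.leaf [0,2,6,8,9])) (.leaf [1,3,4])) (.leaf [12,13,15,14])) (.free 2 [16,17,18,19,20,21,22]))), .t 17 (nat_lit 0xbff0ccc0c580c550c500c330c1b0c090c060cfe0c910c8e0c710c6f0c220c20) (.z (.node 7 0 (.free 2 [1,2,3,4,5,6,7]) (.node 13 0 (.leaf [8,10,12,13,11,9]) (.free 3 [0,14,15,16,17,18,19,20,21,22])))), .t 8 (nat_lit 0x893088f088d0901090008cc08cb) (.z (.node 2 4 (.edon 6 13 (.leaf [5,7,12,10,6]) (.free 4 [0,2,8,9,11,13,14,15,16,17,18,19,20,21,22])) (.free 1 [1,3,4]))), .t 8 (nat_lit 0x8e20901090008ed08ea09370936) (.z (.node 2 4 (.edon 8 13 (.leaf [5,7,12,10,8]) (.free 4 [0,2,6,9,11,13,14,15,16,17,18,19,20,21,22])) (.free 1 [1,3,4]))), .t 8 (nat_lit 0x901040f040e036d036a033a0339)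 (.z (.node 2 4 (.edon 2 13 (.leaf [2,5,7,12,10]) (.free 4 [0,6,8,9,11,13,14,15,16,17,18,19,20,21,22])) (.free 1 [1,3,4]))), .t 8 (nat_lit 0xc580c550c500c910c8e0c710c6f) (.z (.node 0 7 (.edon 0 16 (.node 9 13 (.leaf [0,9,14,15]) (.leaf [8,10,12,13,11])) (.free 2 [16,17,18,19,20,21,22])) (.free 2 [1,2,3,4,5,6,7]))), .t 5 (nat_lit 0xe010dfe03a603a5) (.z (.edon 0 16 (.edon 0 12 (.edon 1 8 (.free 2 [1,3,4,5,7,10,11]) (.leaf [0,2,6,8,9])) (.leaf [12,13,15,14])) (.free 2 [16,17,18,19,20,21,22]))), .t 4 (nat_lit 0x240d1d0d1c) (.z (.edon 0 16 (.node 1 13 (.node 0 8 (.leaf [0,9,11,14,15]) (.leaf [1,6,8,2])) (.free 2 [3,4,5,7,10,12,13])) (.free 2 [16,17,18,19,20,21,22]))), .t 11 (nat_lit 0xd2100010de20de10d470d460d1d0d1c06ff06fa) (.z (.node 16 0 (.edon 7 15 (.leaf [7,12,13]) (.edon 4 5 (.edon 8 11 (.leaf [4,6,10,8]) (.leaf [9,11,14,15,16])) (.leaf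 [1,3,5,2]))) (.free 2 [0,17,18,19,20,21,22]))), .t 8 (nat_lit 0xa0e0901090008cc08ca08950894) (.z (.node 2 4 (.edon 5 13 (.leaf [5,6,7,12,10]) (.free 4 [0,2,8,9,11,13,14,15,16,17,18,19,20,21,22])) (.free 1 [1,3,4]))), .t 8 (nat_lit 0xa0e040f040e03d303cf03a103a0) (.z (.node 2 4 (.edon 2 13 (.leaf [2,6,7,12,10]) (.free 4 [0,5,8,9,11,13,14,15,16,17,18,19,20,21,22])) (.free 1 [1,3,4]))), .t 8 (nat_lit 0x9f00a0e0a0d09fb09f80a460a45) (.z (.node 2 4 (.edon 8 13 (.leaf [6,7,12,10,8]) (.free 4 [0,2,5,9,11,13,14,15,16,17,18,19,20,21,22])) (.free 1 [1,3,4]))), .t 8 (nat_lit 0x344091c091a041b0419033e033d) (.z (.edon 1 13 (.free 2 [1,3,4,6,7,10,12]) (.edon 0 13 (.leaf [0,2,5,8,9,11]) (.free 3 [13,14,15,16,17,18,19,20,21,22])))), .t 1 (nat_lit 0) (.fa 3), .t 5 (nat_lit 0xe010dfe03a603a5) (.z (.edon 0 16 (.edon 0 12 (.edon 1 6 (.free 2 [1,3,4,5,7,10,11])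 (.leaf [0,2,6,8,9])) (.leaf [12,13,15,14])) (.free 2 [16,17,18,19,20,21,22]))), .t 10 (nat_lit 0xe010dfe08ff08fc06f806f605bb05b9053a) (.z (.edon 0 16 (.edon 0 3 (.leaf [0,1,2]) (.edon 0 12 (.node 4 10 (.leaf [3,4,9,8,6]) (.leaf [5,7,11,10])) (.leaf [12,13,15,14]))) (.free 2 [16,17,18,19,20,21,22]))), .t 10 (nat_lit 0xe010dfe0a0c0a0906790677056e056c0530) (.z (.edon 0 16 (.edon 0 3 (.leaf [0,1,2]) (.edon 0 12 (.node 4 10 (.leaf [3,4,9,8,5]) (.leaf [6,7,11,10])) (.leaf [12,13,15,14]))) (.free 2 [16,17,18,19,20,21,22]))), .t 1 (nat_lit 0) (.cn 1 3), .t 1 (nat_lit 0) (.cn 1 3), .t 10 (nat_lit 0xe010dfe0652055c055b053a05300b360b34) (.z (.edon 0 16 (.edon 0 3 (.leaf [0,1,2]) (.edon 0 12 (.edon 7 8 (.leaf [7,10,11,9]) (.leaf [3,4,6,8,5])) (.leaf [12,13,15,14]))) (.free 2 [16,17,18,19,20,21,22]))), .t 1 (nat_lit 0) (.fa 3), .t 1 (nat_lit 0) (.cn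 1 3), .t 9 (nat_lit 0x6fa06f806f307790776071707150001) (.z (.edon 0 16 (.edon 7 15 (.leaf [7,12,13]) (.node 0 10 (.leaf [0,11,14,15]) (.node 3 10 (.leaf [1,3,5,2]) (.leaf [4,6,9,10,8])))) (.free 2 [16,17,18,19,20,21,22])))] (by decide +kernel) (by decide +kernel)
theorem b131 : B 4192 4224 := Blk.of_chk [.t 8 (nat_lit 0xc330c420c410c3b0c390cb00caf) (.z (.node 0 7 (.edon 0 16 (.node 10 14 (.leaf [0,10,11,15]) (.leaf [8,12,13,14,9])) (.free 2 [16,17,18,19,20,21,22])) (.free 2 [1,2,3,4,5,6,7]))), .t 15 (nat_lit 0x6540653064e06f706f4067806760d570bad0baa0b8d0b8b0b7f0b7e) (.z (.node 16 0 (.edon 13 14 (.leaf [13,15,16]) (.edon 7 9 (.leaf [7,12,14,11,10]) (.edon 0 4 (.leaf [1,2,3]) (.leaf [4,5,8,9,6])))) (.free 2 [0,17,18,19,20,21,22]))), .t 6 (nat_lit 0x20681067c0d1d0d1c) (.z (.edon 0 16 (.edon 7 15 (.leaf [7,12,13]) (.node 9 10 (.leaf [0,9,11,14,15])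 (.edon 4 6 (.leaf [4,5,10,8]) (.leaf [1,3,6,2])))) (.free 2 [16,17,18,19,20,21,22]))), .t 10 (nat_lit 0xe010dfe08e508e2071f071d05d805d7053b) (.z (.edon 0 16 (.edon 0 3 (.leaf [0,1,2]) (.edon 0 12 (.node 4 10 (.leaf [3,4,11,9,6]) (.leaf [5,7,10,8])) (.leaf [12,13,15,14]))) (.free 2 [16,17,18,19,20,21,22]))), .t 10 (nat_lit 0xe010dfe0653055d055a053a05300b370b35) (.z (.edon 0 16 (.edon 0 3 (.leaf [0,1,2]) (.edon 0 12 (.edon 7 8 (.leaf [7,11,10,9]) (.leaf [3,4,5,8,6])) (.leaf [12,13,15,14]))) (.free 2 [16,17,18,19,20,21,22]))), .t 13 (nat_lit 0x653055d055a053a05300d050bad0baa0b5e0b5c0b510b50) (.z (.node 16 0 (.edon 13 14 (.leaf [13,15,16]) (.edon 7 10 (.leaf [7,12,14,11,9]) (.node 1 6 (.leaf [1,2,10]) (.leaf [3,4,5,8,6])))) (.free 2 [0,17,18,19,20,21,22]))), .t 13 (nat_lit 0xd6b0d1d0d1b0cf60cf30cd90cd70653055d055a053a0530) (.z (.edon 0 16 (.edon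 7 15 (.leaf [7,12,13]) (.edon 0 9 (.edon 0 3 (.leaf [0,1,2]) (.leaf [3,4,5,8,6])) (.leaf [9,14,15,11,10]))) (.free 2 [16,17,18,19,20,21,22]))), .t 10 (nat_lit 0xe010d3f0d3e0d360d310d300d2f08890887) (.z (.edon 0 16 (.node 2 4 (.edon 6 11 (.edon 0 9 (.leaf [5,7,8,6]) (.leaf [9,12,13,15,14])) (.leaf [0,2,10,11])) (.leaf [1,3,4])) (.free 2 [16,17,18,19,20,21,22]))), .t 5 (nat_lit 0xe010dfe03b903b7) (.z (.edon 0 16 (.edon 0 12 (.edon 1 9 (.free 2 [1,3,4,5,7,8,11]) (.leaf [0,2,6,9,10])) (.leaf [12,13,15,14])) (.free 2 [16,17,18,19,20,21,22]))), .t 7 (nat_lit 0xe010dfe03a903a808f608f3) (.z (.edon 0 16 (.edon 0 12 (.node 2 4 (.edon 5 10 (.leaf [5,7,11,9]) (.leaf [0,2,6,8,10])) (.leaf [1,3,4])) (.leaf [12,13,15,14])) (.free 2 [16,17,18,19,20,21,22]))), .t 15 (nat_lit 0x8ee08ed08ea0a700474046f03ce03cb03be03bd0952095109080907) (.z (.node 16 0 (.edon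 13 14 (.leaf [13,15,16]) (.edon 1 9 (.edon 0 5 (.leaf [1,3,4]) (.leaf [5,7,12,14,8])) (.leaf [2,6,9,11,10]))) (.free 2 [0,17,18,19,20,21,22]))), .t 15 (nat_lit 0x3cb08de03f203f103de03db08fa08f708ed08ea04e004df09240922) (.z (.node 16 0 (.edon 13 14 (.leaf [13,15,16]) (.edon 1 14 (.edon 0 5 (.leaf [1,3,4]) (.leaf [5,7,12,9,8])) (.leaf [2,6,14,11,10]))) (.free 2 [0,17,18,19,20,21,22]))), .t 15 (nat_lit 0x65a0653064e06fe06fb0680067e0d050bad0baa0b5e0b5c0b510b50) (.z (.node 16 0 (.edon 13 14 (.leaf [13,15,16]) (.edon 7 10 (.leaf [7,12,14,11,9]) (.edon 0 4 (.leaf [1,2,3]) (.leaf [4,5,8,10,6])))) (.free 2 [0,17,18,19,20,21,22]))), .t 10 (nat_lit 0xcfc0d0f0d0d0d050d030d2c0d2b08890887) (.z (.edon 0 16 (.node 2 4 (.node 10 11 (.leaf [0,2,10,15]) (.edon 0 9 (.leaf [5,7,8,6]) (.leaf [9,12,13,14,11]))) (.leaf [1,3,4])) (.free 2 [16,17,18,19,20,21,22]))),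 .t 5 (nat_lit 0xe010dfe03be03bd) (.z (.edon 0 16 (.edon 0 12 (.edon 1 11 (.free 2 [1,3,4,5,7,8,10]) (.leaf [0,2,6,9,11])) (.leaf [12,13,15,14])) (.free 2 [16,17,18,19,20,21,22]))), .t 8 (nat_lit 0xcdd0c710c6e0c350c330c0a0c08) (.z (.node 0 7 (.edon 0 16 (.node 11 13 (.leaf [0,11,14,15]) (.leaf [8,12,13,10,9])) (.free 2 [16,17,18,19,20,21,22])) (.free 2 [1,2,3,4,5,6,7]))), .t 1 (nat_lit 0) (.fa 2), .t 24 (nat_lit 0x68a0627057d057b057a07c707c5062e062d062b062a05b109d109d0086806dc06da064c064b05af05ad054d0536) (.z (.node 7 4 (.free 1 [7]) (.node 14 1 (.leaf [3,4,5,12,13,14,8]) (.free 4 [0,1,2,6,9,10,11,15,16,17,18,19,20,21,22])))), .t 8 (nat_lit 0xe010dfe060d060c01c201c0005a) (.z (.edon 0 16 (.edon 0 12 (.edon 1 9 (.edon 4 10 (.leaf [4,5,7]) (.leaf [1,3,8,10,11])) (.leaf [0,2,6,9])) (.leaf [12,13,15,14])) (.free 2 [16,17,18,19,20,21,22]))), .t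 6 (nat_lit 0x68105740570054a0533) (.z (.node 10 1 (.edon 7 10 (.leaf [7,12,13]) (.leaf [3,4,5,10,8])) (.free 4 [0,1,2,6,9,11,14,15,16,17,18,19,20,21,22]))), .t 13 (nat_lit 0xa7b0a6f0a6c069305840583054e05390a9f0a9d0a880a87) (.z (.edon 0 16 (.node 1 15 (.edon 0 6 (.leaf [0,1,2]) (.leaf [6,10,14,11,9])) (.edon 7 15 (.leaf [7,12,13]) (.leaf [3,4,5,15,8]))) (.free 2 [16,17,18,19,20,21,22]))), .t 1 (nat_lit 0) (.fa 3), .t 7 (nat_lit 0xe010dfe03a603a508ff08fc) (.z (.edon 0 16 (.edon 0 12 (.node 2 4 (.edon 5 8 (.leaf [5,7,11,10]) (.leaf [0,2,6,8,9])) (.leaf [1,3,4])) (.leaf [12,13,15,14])) (.free 2 [16,17,18,19,20,21,22]))), .t 10 (nat_lit 0xda90da70da50dda0dd70db60db40acd0acb) (.z (.edon 0 16 (.edon 0 7 (.free 2 [0,1,2,3,4,5,6]) (.edon 0 11 (.leaf [7,10,9,8]) (.leaf [11,13,15,14,12]))) (.free 2 [16,17,18,19,20,21,22]))), .t 11 (nat_lit 0xe0a0e0800020916077a0775069c06970680067e)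 (.z (.node 16 0 (.edon 7 15 (.leaf [7,11,13]) (.edon 0 12 (.edon 4 6 (.leaf [4,5,8,10,9]) (.leaf [1,3,6,2])) (.leaf [12,15,16,14]))) (.free 2 [0,17,18,19,20,21,22]))), .t 10 (nat_lit 0xe010dfe09f709f4069c069a058905870531) (.z (.edon 0 16 (.edon 0 3 (.leaf [0,1,2]) (.edon 0 12 (.node 4 8 (.leaf [3,4,10,9,5]) (.leaf [6,7,11,8])) (.leaf [12,13,15,14]))) (.free 2 [16,17,18,19,20,21,22]))), .t 1 (nat_lit 0) (.cn 3 2), .t 8 (nat_lit 0x41501980193003700320e0a0e08) (.z (.node 1 13 (.node 0 10 (.node 0 16 (.free 2 [0,17,18,19,20,21,22]) (.leaf [12,15,16,14])) (.leaf [1,8,10,9,2])) (.free 2 [3,4,5,6,7,11,13]))), .t 9 (nat_lit 0x3040055000400020680067e0e0a0e08) (.z (.node 5 13 (.node 0 10 (.node 0 16 (.free 2 [0,17,18,19,20,21,22]) (.leaf [12,15,16,14])) (.edon 4 6 (.leaf [4,5,8,10]) (.leaf [1,3,6,9,2]))) (.free 1 [7,11,13]))), .t 11 (nat_lit 0x20916077a0775069c06970680067e0e0a0e08)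 (.z (.node 5 13 (.node 0 10 (.node 0 16 (.free 2 [0,17,18,19,20,21,22]) (.leaf [12,15,16,14])) (.edon 4 6 (.leaf [4,5,8,10,9]) (.leaf [1,3,6,2]))) (.free 1 [7,11,13]))), .t 7 (nat_lit 0xe010dfe034103400a040a01) (.z (.edon 0 16 (.edon 0 12 (.node 2 4 (.edon 6 10 (.leaf [6,7,11,9]) (.leaf [0,2,5,8,10])) (.leaf [1,3,4])) (.leaf [12,13,15,14])) (.free 2 [16,17,18,19,20,21,22]))), .t 5 (nat_lit 0xe010dfe04140412) (.z (.edon 0 16 (.edon 0 12 (.edon 1 8 (.free 2 [1,3,4,5,6,7,11]) (.leaf [0,2,8,9,10])) (.leaf [12,13,15,14])) (.free 2 [16,17,18,19,20,21,22])))] (by decide +kernel) (by decide +kernel)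
theorem b132 : B 4224 4256 := Blk.of_chk [.t 5 (nat_lit 0xe010dfe034f034d) (.z (.edon 0 16 (.edon 0 12 (.edon 1 5 (.free 2 [1,3,4,6,7,8,11]) (.leaf [0,2,5,9,10])) (.leaf [12,13,15,14])) (.free 2 [16,17,18,19,20,21,22]))), .t 1 (nat_lit 0) (.cn 1 3), .t 5 (nat_lit 0xe010dfe03b903b7) (.z (.edon 0 16 (.edon 0 12 (.edon 1 6 (.free 2 [1,3,4,5,7,8,11]) (.leaf [0,2,6,9,10])) (.leaf [12,13,15,14])) (.free 2 [16,17,18,19,20,21,22]))), .t 7 (nat_lit 0xe010dfe09f309f003550354) (.z (.edon 0 16 (.edon 0 12 (.node 2 4 (.node 5 8 (.leaf [0,2,5,9,11]) (.leaf [6,7,10,8])) (.leaf [1,3,4])) (.leaf [12,13,15,14])) (.free 2 [16,17,18,19,20,21,22]))), .t 1 (nat_lit 0) (.cn 2 2), .t 7 (nat_lit 0xe010dfe03a903a808f508f4) (.z (.edon 0 16 (.edon 0 12 (.node 2 4 (.edon 5 8 (.leaf [5,7,9,11]) (.leaf [0,2,6,8,10])) (.leaf [1,3,4])) (.leaf [12,13,15,14])) (.free 2 [16,17,18,19,20,21,22]))),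 .t 9 (nat_lit 0x209340797079306b506b106860684) (.z (.node 16 0 (.edon 7 11 (.free 2 [7,9,12,13,14,15,16]) (.edon 4 6 (.leaf [4,5,8,11,10]) (.leaf [1,3,6,2]))) (.free 2 [0,17,18,19,20,21,22]))), .t 11 (nat_lit 0x209340797079306b506b1068606840e0a0e08) (.z (.node 5 13 (.node 0 11 (.node 0 16 (.free 2 [0,17,18,19,20,21,22]) (.leaf [12,15,16,14])) (.edon 4 6 (.leaf [4,5,8,11,10]) (.leaf [1,3,6,2]))) (.free 1 [7,9,13]))), .t 9 (nat_lit 0x3050056000500020c220c1d0e0a0e08) (.z (.node 16 0 (.edon 8 10 (.node 12 13 (.leaf [12,15,16,14]) (.leaf [8,9,13,11])) (.edon 4 6 (.leaf [4,5,7]) (.leaf [1,3,6,10,2]))) (.free 2 [0,17,18,19,20,21,22]))), .t 7 (nat_lit 0x653055d055a053a05300041) (.z (.node 16 0 (.edon 7 8 (.free 2 [7,9,11,12,13,15,16]) (.node 1 6 (.leaf [1,10,14,2]) (.leaf [3,4,5,8,6]))) (.free 2 [0,17,18,19,20,21,22]))), .t 12 (nat_lit 0xc160c360c320c220c1d0c920c900305005600050002)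 (.z (.edon 0 16 (.node 0 13 (.leaf [0,14,15]) (.node 7 8 (.edon 4 6 (.leaf [4,5,7]) (.leaf [1,3,6,10,2])) (.leaf [8,9,13,12,11]))) (.free 2 [16,17,18,19,20,21,22]))), .t 5 (nat_lit 0x3dd03dc0dab0da9) (.z (.edon 0 16 (.edon 1 13 (.free 2 [1,3,4,5,7,8,9]) (.edon 11 14 (.leaf [11,13,15,12]) (.leaf [0,2,6,10,14]))) (.free 2 [16,17,18,19,20,21,22]))), .t 12 (nat_lit 0xc160c360c320c220c1d0c920c900305005600050002) (.z (.edon 0 16 (.node 0 13 (.leaf [0,14,15]) (.node 7 11 (.edon 4 6 (.leaf [4,5,7]) (.leaf [1,3,6,10,2])) (.leaf [8,9,13,12,11]))) (.free 2 [16,17,18,19,20,21,22]))), .t 10 (nat_lit 0xaed0a410a3c0a0c0a0909f609f50d300d2e) (.z (.edon 0 16 (.node 2 4 (.edon 6 14 (.edon 9 11 (.leaf [9,13,15,12]) (.leaf [6,7,8,11,10])) (.leaf [0,2,5,14])) (.leaf [1,3,4])) (.free 2 [16,17,18,19,20,21,22]))), .t 1 (nat_lit 0) (.cn 2 2), .t 5 (nat_lit 0xd570d560c450c44)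 (.z (.node 0 7 (.edon 0 16 (.edon 8 11 (.leaf [8,9,13,15]) (.leaf [0,10,11,12,14])) (.free 2 [16,17,18,19,20,21,22])) (.free 2 [1,2,3,4,5,6,7]))), .t 8 (nat_lit 0xc3e0c360c320cb30cb10c450c44) (.z (.node 0 7 (.edon 0 16 (.node 11 12 (.leaf [0,10,11,14]) (.leaf [8,9,13,15,12])) (.free 2 [16,17,18,19,20,21,22])) (.free 2 [1,2,3,4,5,6,7]))), .t 12 (nat_lit 0xc160c360c320c220c1d03020050000500010c920c90) (.z (.node 16 0 (.edon 4 9 (.leaf [4,6,7]) (.edon 8 10 (.edon 0 14 (.leaf [8,9,13,12,11]) (.leaf [14,15,16])) (.leaf [1,3,5,10,2]))) (.free 2 [0,17,18,19,20,21,22]))), .t 1 (nat_lit 0) (.fa 3), .t 12 (nat_lit 0xad90ad40ad10310006c000900050b4b0b470b090b07) (.z (.node 16 0 (.edon 13 14 (.leaf [13,15,16]) (.edon 7 10 (.leaf [7,9,12,11,8]) (.node 3 5 (.leaf [1,3,10,14,2]) (.leaf [4,5,6])))) (.free 2 [0,17,18,19,20,21,22]))), .t 7 (nat_lit 0x30200500005000106f806f3)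 (.z (.edon 0 16 (.edon 7 15 (.leaf [7,12,13]) (.node 0 10 (.leaf [0,11,14,15]) (.edon 4 10 (.leaf [4,6,9,8]) (.leaf [1,3,5,10,2])))) (.free 2 [16,17,18,19,20,21,22]))), .t 9 (nat_lit 0x3020050000500010c360c320de20de1) (.z (.node 16 0 (.edon 4 9 (.leaf [4,6,7]) (.edon 8 10 (.node 11 13 (.leaf [11,14,15,16]) (.leaf [8,9,13,12])) (.leaf [1,3,5,10,2]))) (.free 2 [0,17,18,19,20,21,22]))), .t 10 (nat_lit 0xe010dfe09ef08e108de089d0898088c088b) (.z (.edon 0 16 (.edon 0 12 (.node 2 4 (.node 2 8 (.leaf [0,2,10,11]) (.leaf [5,6,7,9,8])) (.leaf [1,3,4])) (.leaf [12,13,15,14])) (.free 2 [16,17,18,19,20,21,22]))), .t 10 (nat_lit 0xe010dfe09ef08e108de089d0898088c088b) (.z (.edon 0 16 (.edon 0 12 (.node 4 5 (.free 2 [0,1,2,3,4,10,11]) (.leaf [5,6,7,9,8])) (.leaf [12,13,15,14])) (.free 2 [16,17,18,19,20,21,22]))), .t 1 (nat_lit 0) (.cp 1 3), .t 8 (nat_lit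 0x9f809ef09ec0a330a310a070a06) (.z (.node 2 4 (.edon 8 13 (.leaf [6,7,9,12,8]) (.free 4 [0,2,5,10,11,13,14,15,16,17,18,19,20,21,22])) (.free 1 [1,3,4]))), .t 10 (nat_lit 0xe010dfe065d05660564053d05330ad40ad1) (.z (.edon 0 16 (.edon 0 3 (.leaf [0,1,2]) (.edon 0 12 (.edon 7 10 (.leaf [7,9,11,8]) (.leaf [3,4,6,10,5])) (.leaf [12,13,15,14]))) (.free 2 [16,17,18,19,20,21,22]))), .t 7 (nat_lit 0xe010dfe034103400a040a01) (.z (.edon 0 16 (.edon 0 12 (.node 2 4 (.edon 6 8 (.leaf [6,7,11,9]) (.leaf [0,2,5,8,10])) (.leaf [1,3,4])) (.leaf [12,13,15,14])) (.free 2 [16,17,18,19,20,21,22]))), .t 1 (nat_lit 0) (.cn 1 3), .t 10 (nat_lit 0xe010dfe09f308e508e208a4089f088f088e) (.z (.edon 0 16 (.edon 0 12 (.node 2 4 (.node 2 10 (.leaf [0,2,9,11]) (.leaf [5,6,7,10,8])) (.leaf [1,3,4])) (.leaf [12,13,15,14])) (.free 2 [16,17,18,19,20,21,22]))), .t 10 (nat_lit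 0xe010dfe09f308e508e208a4089f088f088e) (.z (.edon 0 16 (.edon 0 12 (.node 2 4 (.node 2 8 (.leaf [0,2,9,11]) (.leaf [5,6,7,10,8])) (.leaf [1,3,4])) (.leaf [12,13,15,14])) (.free 2 [16,17,18,19,20,21,22]))), .t 10 (nat_lit 0xe010dfe0a0008f208ef08b508b0088f088e) (.z (.edon 0 16 (.edon 0 12 (.node 2 4 (.node 2 9 (.leaf [0,2,8,11]) (.leaf [5,6,7,10,9])) (.leaf [1,3,4])) (.leaf [12,13,15,14])) (.free 2 [16,17,18,19,20,21,22])))] (by decide +kernel) (by decide +kernel)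
theorem b133 : B 4256 4288 := Blk.of_chk [.t 10 (nat_lit 0xe010dfe0a0009fd06870685057905780530) (.z (.edon 0 16 (.edon 0 3 (.leaf [0,1,2]) (.edon 0 12 (.node 4 9 (.leaf [3,4,11,8,5]) (.leaf [6,7,10,9])) (.leaf [12,13,15,14]))) (.free 2 [16,17,18,19,20,21,22]))), .t 5 (nat_lit 0xe010dfe03440343) (.z (.edon 0 16 (.edon 0 12 (.node 2 9 (.leaf [0,2,5,8,11]) (.free 2 [1,3,4,6,7,9,10])) (.leaf [12,13,15,14])) (.free 2 [16,17,18,19,20,21,22]))), .t 10 (nat_lit 0x88f0e010dfe09ff09fe08f108f0088c088b) (.z (.edon 0 16 (.edon 0 12 (.node 2 4 (.node 2 5 (.leaf [0,2,8,11]) (.leaf [5,6,7,9,10])) (.leaf [1,3,4])) (.leaf [12,13,15,14])) (.free 2 [16,17,18,19,20,21,22]))), .t 10 (nat_lit 0x88f0e010dfe09ff09fe08f108f0088c088b) (.z (.edon 0 16 (.edon 0 12 (.node 2 4 (.node 2 10 (.leaf [0,2,8,11]) (.leaf [5,6,7,9,10])) (.leaf [1,3,4])) (.leaf [12,13,15,14]))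 (.free 2 [16,17,18,19,20,21,22]))), .t 1 (nat_lit 0) (.cn 1 3), .t 10 (nat_lit 0xe010dfe09ff09fe06870685057905780530) (.z (.edon 0 16 (.edon 0 3 (.leaf [0,1,2]) (.edon 0 12 (.node 4 10 (.leaf [3,4,11,8,5]) (.leaf [6,7,9,10])) (.leaf [12,13,15,14]))) (.free 2 [16,17,18,19,20,21,22]))), .t 7 (nat_lit 0x301004f000400010de20de1) (.z (.node 16 0 (.edon 4 9 (.node 11 13 (.leaf [11,14,15,16]) (.free 2 [4,6,7,8,10,12,13])) (.leaf [1,3,5,9,2])) (.free 2 [0,17,18,19,20,21,22]))), .t 9 (nat_lit 0x6f30718071306ff06fa077a07780001) (.z (.edon 0 16 (.edon 7 15 (.leaf [7,12,13]) (.node 0 10 (.leaf [0,11,14,15]) (.node 3 8 (.leaf [1,3,5,2]) (.leaf [4,6,10,9,8])))) (.free 2 [16,17,18,19,20,21,22]))), .t 8 (nat_lit 0x9f308e508e208a4089f088f088e) (.z (.node 2 4 (.node 2 8 (.free 4 [0,2,9,11,12,13,14,15,16,17,18,19,20,21,22]) (.leaf [5,6,7,10,8])) (.free 1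 [1,3,4]))), .t 8 (nat_lit 0x88d0889088708e508e208a408a2) (.z (.node 2 4 (.node 2 8 (.free 4 [0,2,9,11,12,13,14,15,16,17,18,19,20,21,22]) (.leaf [5,7,10,8,6])) (.free 1 [1,3,4]))), .t 1 (nat_lit 0) (.cp 1 3), .t 8 (nat_lit 0xc500c720c6d0c5d0c580c920c90) (.z (.node 0 7 (.edon 0 16 (.edon 11 14 (.leaf [8,10,13,12,11]) (.leaf [0,9,14,15])) (.free 2 [16,17,18,19,20,21,22])) (.free 2 [1,2,3,4,5,6,7]))), .t 7 (nat_lit 0xe010dfe03a603a508fe08fd) (.z (.edon 0 16 (.edon 0 12 (.node 2 4 (.edon 5 8 (.leaf [5,7,10,11]) (.leaf [0,2,6,8,9])) (.leaf [1,3,4])) (.leaf [12,13,15,14])) (.free 2 [16,17,18,19,20,21,22]))), .t 12 (nat_lit 0xc500c720c6d0c5d0c580c920c900304005500040002) (.z (.edon 0 16 (.node 0 13 (.leaf [0,14,15]) (.node 7 8 (.edon 4 6 (.leaf [4,5,7]) (.leaf [1,3,6,9,2])) (.leaf [8,10,13,12,11]))) (.free 2 [16,17,18,19,20,21,22]))), .t 1 (nat_lit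 0) (.cn 2 3), .t 12 (nat_lit 0xc500c720c6d0c5d0c580c920c900304005500040002) (.z (.edon 0 16 (.node 0 13 (.leaf [0,14,15]) (.node 7 11 (.edon 4 6 (.leaf [4,5,7]) (.leaf [1,3,6,9,2])) (.leaf [8,10,13,12,11]))) (.free 2 [16,17,18,19,20,21,22]))), .t 9 (nat_lit 0xdb70db60db100310de20de00dc70dc6) (.z (.node 1 13 (.node 0 9 (.node 0 16 (.free 2 [0,17,18,19,20,21,22]) (.leaf [11,12,15,16,14])) (.leaf [1,8,9,2])) (.free 2 [3,4,5,6,7,10,13]))), .t 12 (nat_lit 0xc500c720c6d0c5d0c580c920c900304005500040002) (.z (.edon 0 16 (.node 0 13 (.leaf [0,14,15]) (.node 7 11 (.edon 4 9 (.leaf [4,5,7]) (.leaf [1,3,6,9,2])) (.leaf [8,10,13,12,11]))) (.free 2 [16,17,18,19,20,21,22]))), .t 10 (nat_lit 0x88d088908870e010dfe08e508e208a408a2) (.z (.edon 0 16 (.edon 0 12 (.node 2 4 (.node 2 8 (.leaf [0,2,9,11]) (.leaf [5,7,10,8,6])) (.leaf [1,3,4])) (.leaf [12,13,15,14]))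 (.free 2 [16,17,18,19,20,21,22]))), .t 12 (nat_lit 0xc500c720c6d0c5d0c580c920c900304005500040002) (.z (.edon 0 16 (.node 0 13 (.leaf [0,14,15]) (.node 7 8 (.edon 4 9 (.leaf [4,5,7]) (.leaf [1,3,6,9,2])) (.leaf [8,10,13,12,11]))) (.free 2 [16,17,18,19,20,21,22]))), .t 7 (nat_lit 0x52f041c01a0019b00380033) (.z (.node 16 0 (.edon 7 11 (.free 2 [7,10,12,13,14,15,16]) (.node 1 6 (.leaf [1,8,11,9,2]) (.leaf [3,4,5,6]))) (.free 2 [0,17,18,19,20,21,22]))), .t 7 (nat_lit 0x3040055000400020de20de1) (.z (.node 16 0 (.edon 4 9 (.node 11 13 (.leaf [11,14,15,16]) (.free 2 [4,5,7,8,10,12,13])) (.leaf [1,3,6,9,2])) (.free 2 [0,17,18,19,20,21,22]))), .t 7 (nat_lit 0x3040055000400020de20de1) (.z (.node 16 0 (.edon 4 6 (.node 11 13 (.leaf [11,14,15,16]) (.free 2 [4,5,7,8,10,12,13])) (.leaf [1,3,6,9,2])) (.free 2 [0,17,18,19,20,21,22]))), .t 1 (nat_lit 0)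 (.cn 1 3), .t 8 (nat_lit 0x88708a308a0088f088d08e408e3) (.z (.node 2 4 (.node 2 10 (.free 4 [0,2,9,11,12,13,14,15,16,17,18,19,20,21,22]) (.leaf [5,7,8,10,6])) (.free 1 [1,3,4]))), .t 12 (nat_lit 0xc500c720c6d0c5d0c580301004f000400010c920c90) (.z (.edon 0 16 (.node 0 13 (.leaf [0,14,15]) (.edon 4 9 (.edon 0 8 (.leaf [4,6,7]) (.leaf [8,10,13,12,11])) (.leaf [1,3,5,9,2]))) (.free 2 [16,17,18,19,20,21,22]))), .t 8 (nat_lit 0x88d0889088708e508e208a408a2) (.z (.node 2 4 (.edon 8 13 (.leaf [5,7,10,8,6]) (.free 4 [0,2,9,11,12,13,14,15,16,17,18,19,20,21,22])) (.free 1 [1,3,4]))), .t 10 (nat_lit 0xda90da70da50dda0dd70db60db403a603a5) (.z (.edon 0 16 (.edon 0 11 (.node 2 4 (.edon 5 8 (.leaf [5,7,10]) (.leaf [0,2,6,8,9])) (.leaf [1,3,4])) (.leaf [11,13,15,14,12])) (.free 2 [16,17,18,19,20,21,22]))), .t 10 (nat_lit 0xe010dda0dd70db60db10dab0daa03a603a5)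 (.z (.edon 0 16 (.edon 0 11 (.node 2 4 (.edon 5 8 (.leaf [5,7,10]) (.leaf [0,2,6,8,9])) (.leaf [1,3,4])) (.leaf [11,12,13,15,14])) (.free 2 [16,17,18,19,20,21,22]))), .t 9 (nat_lit 0x3040055000400020c720c6d0de20de1) (.z (.node 16 0 (.edon 4 10 (.leaf [4,5,7]) (.edon 8 9 (.node 11 13 (.leaf [11,14,15,16]) (.leaf [8,10,13,12])) (.leaf [1,3,6,9,2]))) (.free 2 [0,17,18,19,20,21,22]))), .t 8 (nat_lit 0x88d0889088708e508e208a408a2) (.z (.node 2 4 (.node 2 10 (.free 4 [0,2,9,11,12,13,14,15,16,17,18,19,20,21,22]) (.leaf [5,7,10,8,6])) (.free 1 [1,3,4]))), .t 6 (nat_lit 0x61101c901c6006a005d) (.z (.edon 8 13 (.edon 4 10 (.leaf [4,5,7]) (.leaf [1,3,10,12,8])) (.free 4 [0,2,6,9,11,13,14,15,16,17,18,19,20,21,22])))] (by decide +kernel) (by decide +kernel)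
theorem b134 : B 4288 4320 := Blk.of_chk [.t 1 (nat_lit 0) (.fa 3), .t 8 (nat_lit 0x4730211020e003e00380e0a0e08) (.z (.node 1 13 (.node 0 11 (.node 0 16 (.free 2 [0,17,18,19,20,21,22]) (.leaf [12,15,16,14])) (.leaf [1,10,11,9,2])) (.free 2 [3,4,5,6,7,8,13]))), .t 10 (nat_lit 0x88f0e010dfe09f209f108e408e308890888) (.z (.edon 0 16 (.edon 0 12 (.node 2 4 (.node 2 10 (.leaf [0,2,9,11]) (.leaf [5,6,7,8,10])) (.leaf [1,3,4])) (.leaf [12,13,15,14])) (.free 2 [16,17,18,19,20,21,22]))), .t 8 (nat_lit 0xcb10cb00cae0cbe0cbd0cb80cb7) (.z (.node 0 7 (.edon 0 16 (.edon 8 11 (.leaf [8,13,15,14,12]) (.leaf [0,9,10,11])) (.free 2 [16,17,18,19,20,21,22])) (.free 2 [1,2,3,4,5,6,7]))), .t 10 (nat_lit 0x88c0e010dfe09ee09ed08e008df08890888) (.z (.edon 0 16 (.edon 0 12 (.edon 1 10 (.edon 0 5 (.leaf [1,3,4]) (.leaf [5,6,7,8,9])) (.leaf [0,2,10,11])) (.leaf [12,13,15,14]))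 (.free 2 [16,17,18,19,20,21,22]))), .t 10 (nat_lit 0x88c0e010dfe09ee09ed08e008df08890888) (.z (.edon 0 16 (.edon 0 12 (.edon 1 11 (.edon 0 5 (.leaf [1,3,4]) (.leaf [5,6,7,8,9])) (.leaf [0,2,10,11])) (.leaf [12,13,15,14])) (.free 2 [16,17,18,19,20,21,22]))), .t 7 (nat_lit 0x52f04740212020d003e0038) (.z (.node 16 0 (.edon 7 11 (.free 2 [7,8,12,13,14,15,16]) (.node 1 5 (.leaf [1,9,11,10,2]) (.leaf [3,4,6,5]))) (.free 2 [0,17,18,19,20,21,22]))), .t 10 (nat_lit 0xcb10cb00cae0b370b330cbe0cbd0cb80cb7) (.z (.edon 0 16 (.edon 0 7 (.free 2 [0,1,2,3,4,5,6]) (.edon 8 11 (.leaf [8,13,15,14,12]) (.leaf [7,9,11,10]))) (.free 2 [16,17,18,19,20,21,22]))), .t 8 (nat_lit 0x4740212020d003e00380e0a0e08) (.z (.node 1 13 (.node 0 11 (.node 0 16 (.free 2 [0,17,18,19,20,21,22]) (.leaf [12,15,16,14])) (.leaf [1,9,11,10,2])) (.free 2 [3,4,5,6,7,8,13]))), .t 12 (nat_lit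 0xc5d0d520d500c920c900c550c530304005500040002) (.z (.edon 0 16 (.node 0 13 (.leaf [0,14,15]) (.node 7 11 (.edon 4 6 (.leaf [4,5,7]) (.leaf [1,3,6,9,2])) (.leaf [8,13,12,11,10]))) (.free 2 [16,17,18,19,20,21,22]))), .t 8 (nat_lit 0xd660ca40ca20c7f0c7d0c6a0c68) (.z (.edon 0 16 (.node 7 11 (.node 0 7 (.leaf [0,9,12,14]) (.free 2 [1,2,3,4,5,6,7])) (.leaf [8,13,15,11,10])) (.free 2 [16,17,18,19,20,21,22]))), .t 7 (nat_lit 0xe010dfe066106600acd0ac8) (.z (.node 0 3 (.edon 0 12 (.edon 7 11 (.leaf [7,8,10,9]) (.leaf [0,4,5,6,11])) (.edon 0 16 (.leaf [12,13,15,14]) (.free 2 [16,17,18,19,20,21,22]))) (.free 1 [1,2,3]))), .t 10 (nat_lit 0x88708a308a0088f088d0e010dfe08e408e3) (.z (.edon 0 16 (.edon 0 12 (.node 4 10 (.free 2 [0,1,2,3,4,9,11]) (.leaf [5,7,8,10,6])) (.leaf [12,13,15,14])) (.free 2 [16,17,18,19,20,21,22]))), .t 10 (nat_lit 0x88708a308a0088f088d0e010dfe08e408e3)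 (.z (.edon 0 16 (.edon 0 12 (.node 2 4 (.node 2 10 (.leaf [0,2,9,11]) (.leaf [5,7,8,10,6])) (.leaf [1,3,4])) (.leaf [12,13,15,14])) (.free 2 [16,17,18,19,20,21,22]))), .t 7 (nat_lit 0xe010dfe09ee09ed06b406b2) (.z (.node 0 3 (.edon 0 12 (.node 5 9 (.leaf [0,4,5,10,11]) (.leaf [6,7,8,9])) (.edon 0 16 (.leaf [12,13,15,14]) (.free 2 [16,17,18,19,20,21,22]))) (.free 1 [1,2,3]))), .t 12 (nat_lit 0xd570c970c940c760c740c640c620304005500040002) (.z (.node 16 0 (.edon 13 14 (.leaf [13,15,16]) (.node 7 11 (.edon 4 6 (.leaf [4,5,7]) (.leaf [1,3,6,9,2])) (.leaf [8,12,14,11,10]))) (.free 2 [0,17,18,19,20,21,22]))), .t 7 (nat_lit 0xe010dfe065806560aed0ae8) (.z (.node 0 3 (.edon 0 12 (.edon 7 9 (.leaf [7,8,11,10]) (.leaf [0,4,5,6,9])) (.edon 0 16 (.leaf [12,13,15,14]) (.free 2 [16,17,18,19,20,21,22]))) (.free 1 [1,2,3]))), .t 7 (nat_lit 0xe010dfe065d065c0ad50ad0)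 (.z (.node 0 3 (.edon 0 12 (.edon 7 10 (.leaf [7,8,11,9]) (.leaf [0,4,5,6,10])) (.edon 0 16 (.leaf [12,13,15,14]) (.free 2 [16,17,18,19,20,21,22]))) (.free 1 [1,2,3]))), .t 10 (nat_lit 0x887089c0899088c088a0e010dfe08e008df) (.z (.edon 0 16 (.edon 0 12 (.node 2 4 (.node 2 9 (.leaf [0,2,10,11]) (.leaf [5,7,8,9,6])) (.leaf [1,3,4])) (.leaf [12,13,15,14])) (.free 2 [16,17,18,19,20,21,22]))), .t 10 (nat_lit 0xe010dfe0aed0934092f08ff08fc08e808e7) (.z (.edon 0 16 (.edon 0 12 (.node 2 4 (.edon 5 9 (.leaf [5,7,8,11,10]) (.leaf [0,2,6,9])) (.leaf [1,3,4])) (.leaf [12,13,15,14])) (.free 2 [16,17,18,19,20,21,22]))), .t 9 (nat_lit 0x658065605610560052f003e0e0a0e08) (.z (.node 5 13 (.node 0 11 (.node 0 16 (.free 2 [0,17,18,19,20,21,22]) (.leaf [12,15,16,14])) (.node 1 9 (.leaf [1,10,11,2]) (.leaf [3,4,5,6,9]))) (.free 1 [7,8,13]))), .t 10 (nat_lit 0xe010dfe0889088707d30635063205530550)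 (.z (.edon 0 16 (.edon 0 3 (.leaf [0,1,2]) (.edon 0 12 (.node 4 6 (.leaf [3,4,9,11,10]) (.leaf [5,7,8,6])) (.leaf [12,13,15,14]))) (.free 2 [16,17,18,19,20,21,22]))), .t 10 (nat_lit 0x88708aa08a7089208900e010dfe08e808e7) (.z (.edon 0 16 (.edon 0 12 (.edon 1 9 (.edon 0 5 (.leaf [1,3,4]) (.leaf [5,7,8,11,6])) (.leaf [0,2,9,10])) (.leaf [12,13,15,14])) (.free 2 [16,17,18,19,20,21,22]))), .t 7 (nat_lit 0x52f04740212020d003e0038) (.z (.node 16 0 (.edon 7 11 (.free 2 [7,8,12,13,14,15,16]) (.node 1 6 (.leaf [1,9,11,10,2]) (.leaf [3,4,5,6]))) (.free 2 [0,17,18,19,20,21,22]))), .t 8 (nat_lit 0x88c09ee09ed08e008df08890888) (.z (.node 2 4 (.node 2 9 (.free 4 [0,2,10,11,12,13,14,15,16,17,18,19,20,21,22]) (.leaf [5,6,7,8,9])) (.free 1 [1,3,4]))), .t 9 (nat_lit 0x653055d055a053a053000370e0a0e08) (.z (.node 5 13 (.node 0 10 (.node 0 16 (.free 2 [0,17,18,19,20,21,22])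 (.leaf [12,15,16,14])) (.node 1 6 (.leaf [1,9,10,2]) (.leaf [3,4,5,8,6]))) (.free 1 [7,11,13]))), .t 5 (nat_lit 0xe010dfe034f034d) (.z (.edon 0 16 (.edon 0 12 (.edon 1 10 (.free 2 [1,3,4,6,7,8,11]) (.leaf [0,2,5,9,10])) (.leaf [12,13,15,14])) (.free 2 [16,17,18,19,20,21,22]))), .t 9 (nat_lit 0x10a26077a07750718071306fe06fc) (.z (.node 16 0 (.edon 7 10 (.free 2 [7,11,12,13,14,15,16]) (.edon 4 5 (.leaf [4,6,8,10,9]) (.leaf [1,3,5,2]))) (.free 2 [0,17,18,19,20,21,22]))), .t 10 (nat_lit 0xda90da70da50dda0dd70db60db406580656) (.z (.node 0 3 (.edon 0 11 (.edon 7 9 (.leaf [7,8,10]) (.leaf [0,4,5,6,9])) (.edon 0 16 (.leaf [11,13,15,14,12]) (.free 2 [16,17,18,19,20,21,22]))) (.free 1 [1,2,3]))), .t 7 (nat_lit 0x653055d055a053a05300037) (.z (.node 16 0 (.edon 7 10 (.free 2 [7,11,12,13,14,15,16]) (.node 1 6 (.leaf [1,10,9,2]) (.leaf [3,4,5,8,6])))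 (.free 2 [0,17,18,19,20,21,22]))), .t 8 (nat_lit 0xda90da70da50dda0dd70db60db4) (.z (.edon 0 16 (.edon 0 11 (.edon 1 6 (.free 2 [1,3,4,5,7,8,10]) (.leaf [0,2,6,9])) (.leaf [11,13,15,14,12])) (.free 2 [16,17,18,19,20,21,22]))), .t 13 (nat_lit 0xda90da70da50dda0dd70db60db406590562055e053b0531) (.z (.edon 0 16 (.edon 0 3 (.leaf [0,1,2]) (.edon 0 11 (.edon 7 9 (.leaf [7,8,10]) (.leaf [3,4,5,9,6])) (.leaf [11,13,15,14,12]))) (.free 2 [16,17,18,19,20,21,22])))] (by decide +kernel) (by decide +kernel)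

end Pool.Agent.GCP.F8_13
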