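import Pool.Agent.GCP.F8_13Db

set_option autoImplicit false
set_option maxRecDepth 100000

/-! # Blocks F8_13B4 (generated) -/

namespace Pool.Agent.GCP.F8_13

open Pool.Agent.GCP DB

theorem b135 : B 4320 4352 := Blk.of_chk [.t 8 (nat_lit 0xadb0a340a300a080a0509fa09f9) (.z (.node 2 4 (.edon 9 13 (.leaf [6,7,8,12,9]) (.free 4 [0,2,5,10,11,13,14,15,16,17,18,19,20,21,22])) (.free 1 [1,3,4]))), .t 10 (nat_lit 0xe010dfe06580561055f053b05310aed0ae8) (.z (.edon 0 16 (.edon 0 3 (.leaf [0,1,2]) (.edon 0 12 (.edon 7 9 (.leaf [7,8,11,10]) (.leaf [3,4,6,9,5])) (.leaf [12,13,15,14]))) (.free 2 [16,17,18,19,20,21,22]))), .t 10 (nat_lit 0xe010dfe09f209f106a406a20590058e0531) (.z (.edon 0 16 (.edon 0 3 (.leaf [0,1,2]) (.edon 0 12 (.node 4 10 (.leaf [3,4,11,9,5]) (.leaf [6,7,8,10])) (.leaf [12,13,15,14]))) (.free 2 [16,17,18,19,20,21,22]))), .t 11 (nat_lit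 0xde20de000010a26077a07750718071306fe06fc) (.z (.node 16 0 (.edon 7 15 (.leaf [7,12,13]) (.edon 0 11 (.edon 4 5 (.leaf [4,6,8,10,9]) (.leaf [1,3,5,2])) (.leaf [11,15,16,14]))) (.free 2 [0,17,18,19,20,21,22]))), .t 7 (nat_lit 0xe010dfe09f709f4034f034d) (.z (.edon 0 16 (.edon 0 12 (.node 2 4 (.node 5 8 (.leaf [0,2,5,9,10]) (.leaf [6,7,11,8])) (.leaf [1,3,4])) (.leaf [12,13,15,14])) (.free 2 [16,17,18,19,20,21,22]))), .t 10 (nat_lit 0xe010dfe0a040a010681067f057405720530) (.z (.edon 0 16 (.edon 0 3 (.leaf [0,1,2]) (.edon 0 12 (.node 4 9 (.leaf [3,4,10,8,5]) (.leaf [6,7,11,9])) (.leaf [12,13,15,14]))) (.free 2 [16,17,18,19,20,21,22]))), .t 1 (nat_lit 0) (.fa 3), .t 15 (nat_lit 0x65b0658065507180713069c069a0c970bad0baa0b1c0b190b0f0b0e) (.z (.node 16 0 (.edon 13 14 (.leaf [13,15,16]) (.edon 7 10 (.leaf [7,12,14,11,8]) (.edon 0 4 (.leaf [1,2,3])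 (.leaf [4,6,10,9,5])))) (.free 2 [0,17,18,19,20,21,22]))), .t 5 (nat_lit 0xe010dfe03410340) (.z (.edon 0 16 (.edon 0 12 (.node 8 11 (.leaf [0,2,5,8,10]) (.free 2 [1,3,4,6,7,9,11])) (.leaf [12,13,15,14])) (.free 2 [16,17,18,19,20,21,22]))), .t 1 (nat_lit 0) (.cn 2 2), .t 1 (nat_lit 0) (.cn 1 3), .t 5 (nat_lit 0xe010dfe03410340) (.z (.edon 0 16 (.edon 1 13 (.free 2 [1,3,4,6,7,9,11]) (.edon 0 12 (.leaf [0,2,5,8,10]) (.leaf [12,13,15,14]))) (.free 2 [16,17,18,19,20,21,22]))), .t 1 (nat_lit 0) (.fa 3), .t 8 (nat_lit 0x43001c301be003e00330e0a0e08) (.z (.node 1 13 (.node 0 11 (.node 0 16 (.free 2 [0,17,18,19,20,21,22]) (.leaf [12,15,16,14])) (.leaf [1,8,11,10,2])) (.free 2 [3,4,5,6,7,9,13]))), .t 7 (nat_lit 0x3020050000500010de20de1) (.z (.node 16 0 (.edon 4 10 (.node 11 13 (.leaf [11,14,15,16]) (.free 2 [4,6,7,8,9,12,13])) (.leaf [1,3,5,10,2]))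 (.free 2 [0,17,18,19,20,21,22]))), .t 1 (nat_lit 0) (.cn 2 2), .t 17 (nat_lit 0xbf60c1d0c1b0c160c050c030bfe0d510c910c8e0c710c6e0c5d0c5b0c350c34) (.z (.node 7 0 (.free 2 [1,2,3,4,5,6,7]) (.node 13 0 (.leaf [8,9,12,13,11,10]) (.free 3 [0,14,15,16,17,18,19,20,21,22])))), .t 8 (nat_lit 0xc1d0c1b0c160c910c8e0c350c34) (.z (.node 0 7 (.edon 0 16 (.node 10 13 (.leaf [0,10,14,15]) (.leaf [8,9,12,13,11])) (.free 2 [16,17,18,19,20,21,22])) (.free 2 [1,2,3,4,5,6,7]))), .t 10 (nat_lit 0x6550652064f06f806f3067906770d6b0d69) (.z (.edon 0 16 (.edon 7 15 (.leaf [7,12,13]) (.node 0 9 (.leaf [0,10,11,14,15]) (.edon 0 4 (.leaf [1,2,3]) (.leaf [4,6,9,8,5])))) (.free 2 [16,17,18,19,20,21,22]))), .t 8 (nat_lit 0xa0808fa08f708c108bf08950894) (.z (.node 2 4 (.node 2 9 (.free 4 [0,2,8,10,11,13,14,15,16,17,18,19,20,21,22]) (.leaf [5,6,7,12,9])) (.free 1 [1,3,4]))),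 .t 15 (nat_lit 0xbf603250c220c1d0c0a0c05033a0338032f032e0c5d0c5b03a103a0) (.z (.edon 0 16 (.node 2 4 (.edon 5 9 (.leaf [2,6,7,12,5]) (.node 0 13 (.leaf [0,14,15]) (.leaf [8,9,13,11,10]))) (.leaf [1,3,4])) (.free 2 [16,17,18,19,20,21,22]))), .t 7 (nat_lit 0xe010dfe09ef09ec03670365) (.z (.edon 0 16 (.edon 0 12 (.node 2 4 (.node 5 8 (.leaf [0,2,5,10,11]) (.leaf [6,7,9,8])) (.leaf [1,3,4])) (.leaf [12,13,15,14])) (.free 2 [16,17,18,19,20,21,22]))), .t 8 (nat_lit 0xa0808fa08f708c108bf08950894) (.z (.node 2 4 (.node 8 9 (.free 4 [0,2,8,10,11,13,14,15,16,17,18,19,20,21,22]) (.leaf [5,6,7,12,9])) (.free 1 [1,3,4]))), .t 8 (nat_lit 0x9ec0a080a0509fb09f80a340a32) (.z (.node 2 4 (.edon 8 13 (.leaf [6,7,12,9,8]) (.free 4 [0,2,5,10,11,13,14,15,16,17,18,19,20,21,22])) (.free 1 [1,3,4]))), .t 1 (nat_lit 0) (.fa 3), .t 1 (nat_lit 0) (.cn 3 2), .t 8 (nat_lit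 0x9f409ef09ec0a2c0a290a030a02) (.z (.node 2 4 (.node 5 11 (.free 4 [0,2,5,10,12,13,14,15,16,17,18,19,20,21,22]) (.leaf [6,7,9,11,8])) (.free 1 [1,3,4]))), .t 1 (nat_lit 0) (.fa 3), .t 8 (nat_lit 0x6f805bb05b60549053b0d7f0d7d) (.z (.edon 0 16 (.node 6 13 (.node 0 9 (.leaf [0,10,12,14,15]) (.node 1 8 (.leaf [1,2,5]) (.leaf [3,4,6,9,8]))) (.leaf [7,11,13])) (.free 2 [16,17,18,19,20,21,22]))), .t 8 (nat_lit 0xc050bfb0bf60c5c0c590c210c1f) (.z (.node 0 7 (.edon 0 16 (.node 12 13 (.leaf [0,12,14,15]) (.leaf [8,9,11,13,10])) (.free 2 [16,17,18,19,20,21,22])) (.free 2 [1,2,3,4,5,6,7]))), .t 8 (nat_lit 0x9ec0a040a0109f709f40a2d0a2b) (.z (.node 2 4 (.edon 8 13 (.leaf [6,7,11,9,8]) (.free 4 [0,2,5,10,12,13,14,15,16,17,18,19,20,21,22])) (.free 1 [1,3,4]))), .t 8 (nat_lit 0x3410915091304140412033e033d) (.z (.edon 1 13 (.free 2 [1,3,4,6,7,11,12]) (.edon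 0 13 (.leaf [0,2,5,8,9,10]) (.free 3 [13,14,15,16,17,18,19,20,21,22]))))] (by decide +kernel) (by decide +kernel)
theorem b136 : B 4352 4384 := Blk.of_chk [.t 10 (nat_lit 0x9f809f709f4034f034d0a560a550a120a11) (.z (.edon 0 13 (.edon 1 9 (.edon 0 6 (.leaf [1,3,4]) (.leaf [6,7,11,12,8])) (.leaf [0,2,5,9,10])) (.free 3 [13,14,15,16,17,18,19,20,21,22]))), .t 10 (nat_lit 0xa050a040a01034103400a7f0a7d0a120a11) (.z (.edon 0 13 (.edon 6 8 (.leaf [6,7,11,12,9]) (.node 2 4 (.leaf [0,2,5,8,10]) (.leaf [1,3,4]))) (.free 3 [13,14,15,16,17,18,19,20,21,22]))), .t 8 (nat_lit 0x9f708e908e608ab08a608920891) (.z (.node 2 4 (.node 9 11 (.free 4 [0,2,9,10,12,13,14,15,16,17,18,19,20,21,22]) (.leaf [5,6,7,11,8])) (.free 1 [1,3,4]))), .t 1 (nat_lit 0) (.cn 3 2), .t 8 (nat_lit 0xda50db50db20dab0da90dd90dd8) (.z (.node 0 7 (.edon 0 11 (.leaf [0,8,9,10]) (.edon 0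 16 (.leaf [11,13,14,15,12]) (.free 2 [16,17,18,19,20,21,22]))) (.free 2 [1,2,3,4,5,6,7]))), .t 1 (nat_lit 0) (.fa 3), .t 5 (nat_lit 0xbfb0bf60e000dff) (.z (.node 0 7 (.node 0 11 (.edon 0 16 (.leaf [0,12,13,14,15]) (.free 2 [16,17,18,19,20,21,22])) (.leaf [8,9,11,10])) (.free 2 [1,2,3,4,5,6,7]))), .t 1 (nat_lit 0) (.fa 3), .t 12 (nat_lit 0xb470b5f0b5b0b510b4e03020050000500010bae0bac) (.z (.node 16 0 (.edon 13 14 (.leaf [13,15,16]) (.edon 7 8 (.leaf [7,9,14,12,11]) (.node 3 8 (.leaf [1,3,5,10,2]) (.leaf [4,6,8])))) (.free 2 [0,17,18,19,20,21,22]))), .t 15 (nat_lit 0x64f0db20680067d065d065b0dc70dc50dba0db806fe06fc0de20de1) (.z (.node 0 3 (.node 6 13 (.node 0 10 (.node 0 16 (.free 2 [0,17,18,19,20,21,22]) (.leaf [11,14,15,16,12])) (.leaf [4,6,8,10,5])) (.leaf [7,9,13])) (.free 1 [1,2,3]))), .t 9 (nat_lit 0xdb20dc70dc50dba0db8001f0de20de1) (.z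 (.node 1 13 (.node 0 10 (.node 0 16 (.free 2 [0,17,18,19,20,21,22]) (.leaf [11,14,15,16,12])) (.leaf [1,5,10,2])) (.free 2 [3,4,6,7,8,9,13]))), .t 6 (nat_lit 0x367036500f000ee001f) (.z (.edon 0 16 (.node 1 13 (.node 0 11 (.leaf [0,12,14,15]) (.leaf [1,5,10,11,2])) (.free 2 [3,4,6,7,8,9,13])) (.free 2 [16,17,18,19,20,21,22]))), .t 10 (nat_lit 0x34103400b4b0a800a7c0a130a100a070a06) (.z (.edon 0 13 (.edon 6 8 (.leaf [6,7,9,12,11]) (.node 2 4 (.leaf [0,2,5,8,10]) (.leaf [1,3,4]))) (.free 3 [13,14,15,16,17,18,19,20,21,22]))), .t 10 (nat_lit 0x34103400b4b0a800a7c0a130a100a070a06) (.z (.edon 0 13 (.edon 6 10 (.leaf [6,7,9,12,11]) (.node 2 4 (.leaf [0,2,5,8,10]) (.leaf [1,3,4]))) (.free 3 [13,14,15,16,17,18,19,20,21,22]))), .t 1 (nat_lit 0) (.cn 7 2), .t 9 (nat_lit 0xad10acc0ac90e490b370b330aed0aeb) (.z (.edon 0 7 (.free 2 [0,1,2,3,4,5,6]) (.edon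 0 12 (.leaf [7,9,11,10,8]) (.node 12 19 (.leaf [12,20,22,21]) (.free 2 [13,14,15,16,17,18,19]))))), .t 15 (nat_lit 0xad10acc0ac90e600e3b0e380e270e240e200e1f0b370b330aed0aeb) (.z (.edon 0 20 (.edon 0 7 (.free 2 [0,1,2,3,4,5,6]) (.edon 0 12 (.leaf [7,9,11,10,8]) (.node 14 16 (.leaf [12,14,17,19,18]) (.leaf [13,15,16])))) (.free 1 [20,21,22]))), .t 15 (nat_lit 0xe1e0e1d0e1c0ad10acc0ac90e3a0e390e260e250b370b330aed0aeb) (.z (.edon 0 20 (.edon 0 7 (.free 2 [0,1,2,3,4,5,6]) (.edon 0 12 (.leaf [7,9,11,10,8]) (.node 14 16 (.leaf [12,14,18,19,17]) (.leaf [13,15,16])))) (.free 1 [20,21,22]))), .t 5 (nat_lit 0xc020c000dda0dd7) (.z (.node 0 7 (.edon 0 16 (.edon 11 12 (.leaf [11,13,15,14]) (.leaf [0,8,9,10,12])) (.free 2 [16,17,18,19,20,21,22])) (.free 2 [1,2,3,4,5,6,7]))), .t 9 (nat_lit 0x6f30718071306ff06fa077a07780001) (.z (.edon 0 16 (.node 6 13 (.node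 0 10 (.leaf [0,12,14,15]) (.node 3 8 (.leaf [1,3,5,2]) (.leaf [4,6,10,9,8]))) (.leaf [7,11,13])) (.free 2 [16,17,18,19,20,21,22]))), .t 9 (nat_lit 0x6fa06f806f307790776071707150001) (.z (.edon 0 16 (.node 6 13 (.node 0 10 (.leaf [0,12,14,15]) (.node 3 8 (.leaf [1,3,5,2]) (.leaf [4,6,9,10,8]))) (.leaf [7,11,13])) (.free 2 [16,17,18,19,20,21,22]))), .t 10 (nat_lit 0xa050a040a010a7f0a7d0a120a1103410340) (.z (.edon 0 13 (.node 4 9 (.node 2 4 (.leaf [0,2,5,8,10]) (.leaf [1,3,4])) (.leaf [6,7,11,12,9])) (.free 3 [13,14,15,16,17,18,19,20,21,22]))), .t 9 (nat_lit 0x6fa06f806f300010779077607170715) (.z (.edon 0 16 (.node 6 13 (.node 0 10 (.leaf [0,12,14,15]) (.edon 4 5 (.leaf [4,6,9,10,8]) (.leaf [1,3,5,2]))) (.leaf [7,11,13])) (.free 2 [16,17,18,19,20,21,22]))), .t 10 (nat_lit 0xa050a040a01034103400a7f0a7d0a120a11) (.z (.edon 0 13 (.edon 6 10 (.leaf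 [6,7,11,12,9]) (.node 2 4 (.leaf [0,2,5,8,10]) (.leaf [1,3,4]))) (.free 3 [13,14,15,16,17,18,19,20,21,22]))), .t 4 (nat_lit 0x1c0d7f0d7d) (.z (.edon 0 16 (.node 1 13 (.node 0 8 (.leaf [0,10,12,14,15]) (.leaf [1,5,8,2])) (.free 2 [3,4,6,7,9,11,13])) (.free 2 [16,17,18,19,20,21,22]))), .t 8 (nat_lit 0xa0408f608f308bc08b808920891) (.z (.node 2 4 (.edon 5 13 (.leaf [5,6,7,11,9]) (.free 4 [0,2,8,10,12,13,14,15,16,17,18,19,20,21,22])) (.free 1 [1,3,4]))), .t 8 (nat_lit 0xa040407040603bf03bc039f039e) (.z (.node 2 4 (.edon 2 13 (.leaf [2,6,7,11,9]) (.free 4 [0,5,8,10,12,13,14,15,16,17,18,19,20,21,22])) (.free 1 [1,3,4]))), .t 1 (nat_lit 0) (.fa 3), .t 8 (nat_lit 0x890088c088a08f608f308bc08ba) (.z (.node 2 4 (.edon 6 13 (.leaf [5,7,11,9,6]) (.free 4 [0,2,8,10,12,13,14,15,16,17,18,19,20,21,22])) (.free 1 [1,3,4]))), .t 8 (nat_lit 0x8f6040704060356035303370336)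 (.z (.node 2 4 (.edon 2 13 (.leaf [2,5,7,11,9]) (.free 4 [0,6,8,10,12,13,14,15,16,17,18,19,20,21,22])) (.free 1 [1,3,4]))), .t 8 (nat_lit 0x8de08f608f308e908e6091d091b) (.z (.node 2 4 (.edon 9 13 (.leaf [5,7,11,9,8]) (.free 4 [0,2,6,10,12,13,14,15,16,17,18,19,20,21,22])) (.free 1 [1,3,4]))), .t 8 (nat_lit 0xdda0d3f0d3e0d1e0d1a0d110d10) (.z (.edon 0 16 (.node 2 8 (.edon 9 12 (.leaf [9,11,13,15,14]) (.leaf [0,2,10,12])) (.free 2 [1,3,4,5,6,7,8])) (.free 2 [16,17,18,19,20,21,22])))] (by decide +kernel) (by decide +kernel)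
theorem b137 : B 4384 4416 := Blk.of_chk [.t 15 (nat_lit 0x8de03cf08f608f308e908e603f603f503de03db091d091b04f504f3) (.z (.node 16 0 (.edon 13 14 (.leaf [13,15,16]) (.node 6 9 (.leaf [2,6,14,12,10]) (.edon 0 5 (.leaf [1,3,4]) (.leaf [5,7,11,9,8])))) (.free 2 [0,17,18,19,20,21,22]))), .t 24 (nat_lit 0x687061f057d0579057607c807bc0630062f0625062405ab09b909b8085206c806c7064a064905a805a7054e0535) (.z (.node 7 4 (.free 1 [7]) (.node 15 1 (.leaf [3,4,5,11,13,15,8]) (.free 4 [0,1,2,6,9,10,12,14,16,17,18,19,20,21,22])))), .t 9 (nat_lit 0x674069c06970681067c077a07780002) (.z (.edon 0 16 (.node 5 13 (.node 0 10 (.leaf [0,12,14,15]) (.node 3 9 (.leaf [1,3,6,2]) (.leaf [4,5,10,9,8]))) (.leaf [7,11,13])) (.free 2 [16,17,18,19,20,21,22]))), .t 15 (nat_lit 0x5c805ba05b70605060405db05da0dda0d930d920d6c0d670d660d65) (.z (.edon 0 16 (.edon 4 11 (.leaf [4,5,7])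 (.edon 10 12 (.leaf [10,11,13,15,14]) (.edon 0 3 (.leaf [0,1,2]) (.leaf [3,8,12,9,6])))) (.free 2 [16,17,18,19,20,21,22]))), .t 8 (nat_lit 0xdda0d930d920d6c0d670d660d65) (.z (.edon 0 16 (.node 2 8 (.edon 10 12 (.leaf [10,11,13,15,14]) (.leaf [0,2,9,12])) (.free 2 [1,3,4,5,6,7,8])) (.free 2 [16,17,18,19,20,21,22]))), .t 13 (nat_lit 0xce50ce40ce00d350d320cf60cf40653055d055a053a0530) (.z (.edon 0 3 (.free 1 [0,1,2]) (.node 5 13 (.edon 0 9 (.leaf [3,4,5,8,6]) (.edon 0 16 (.leaf [9,10,14,15,12]) (.free 2 [16,17,18,19,20,21,22]))) (.leaf [7,11,13])))), .t 8 (nat_lit 0xce00cde0cda0d2c0d2a0ced0cec) (.z (.edon 0 16 (.edon 1 13 (.free 2 [1,3,4,5,7,8,11]) (.edon 9 15 (.leaf [9,10,13,14,12]) (.leaf [0,2,6,15]))) (.free 2 [16,17,18,19,20,21,22]))), .t 8 (nat_lit 0xdda0dd70611061001c901c7005a) (.z (.edon 0 16 (.edon 1 9 (.edon 4 11 (.leaf [4,5,7]) (.node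 10 15 (.leaf [1,3,8,10,12]) (.leaf [11,13,15,14]))) (.leaf [0,2,6,9])) (.free 2 [16,17,18,19,20,21,22]))), .t 8 (nat_lit 0xc590c7c0c7b0c630c600ca10ca0) (.z (.node 0 7 (.edon 0 16 (.node 9 14 (.leaf [0,9,12,15]) (.leaf [8,11,13,14,10])) (.free 2 [16,17,18,19,20,21,22])) (.free 2 [1,2,3,4,5,6,7]))), .t 5 (nat_lit 0xc5c0c590d350d33) (.z (.node 0 7 (.edon 0 16 (.node 9 13 (.leaf [0,9,12,14,15]) (.leaf [8,11,13,10])) (.free 2 [16,17,18,19,20,21,22])) (.free 2 [1,2,3,4,5,6,7]))), .t 7 (nat_lit 0x25068105740570054a0533) (.z (.edon 0 16 (.node 5 13 (.node 0 10 (.leaf [0,12,14,15]) (.edon 3 9 (.leaf [3,4,5,10,8]) (.leaf [1,6,9,2]))) (.leaf [7,11,13])) (.free 2 [16,17,18,19,20,21,22]))), .t 8 (nat_lit 0x8900889088708e908e608ab08a9) (.z (.node 2 4 (.edon 8 13 (.leaf [5,7,11,8,6]) (.free 4 [0,2,9,10,12,13,14,15,16,17,18,19,20,21,22])) (.free 1 [1,3,4]))),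 .t 5 (nat_lit 0x304005500040002) (.z (.edon 0 16 (.node 12 13 (.leaf [0,12,14,15]) (.node 3 10 (.leaf [1,3,6,9,2]) (.free 2 [4,5,7,8,10,11,13]))) (.free 2 [16,17,18,19,20,21,22]))), .t 13 (nat_lit 0xd7f0d350d320cf60cf30cea0ce80653055d055a053a0530) (.z (.edon 0 3 (.free 1 [0,1,2]) (.node 5 13 (.edon 0 9 (.leaf [3,4,5,8,6]) (.edon 0 16 (.leaf [9,14,15,12,10]) (.free 2 [16,17,18,19,20,21,22]))) (.leaf [7,11,13])))), .t 8 (nat_lit 0xd020cff0cfb0d2c0d2a0d0f0d0e) (.z (.edon 0 16 (.node 2 8 (.node 10 12 (.leaf [0,2,10,15]) (.leaf [9,11,13,14,12])) (.free 2 [1,3,4,5,6,7,8])) (.free 2 [16,17,18,19,20,21,22]))), .t 7 (nat_lit 0x6780676056d056b05300027) (.z (.edon 0 16 (.node 5 13 (.node 0 10 (.leaf [0,12,14,15]) (.node 1 9 (.leaf [1,6,10,2]) (.leaf [3,4,5,8,9]))) (.leaf [7,11,13])) (.free 2 [16,17,18,19,20,21,22]))), .t 9 (nat_lit 0x6800915091307790777067806760002)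 (.z (.edon 0 16 (.node 5 13 (.node 0 10 (.leaf [0,12,14,15]) (.node 3 10 (.leaf [1,3,6,2]) (.leaf [4,5,8,9,10]))) (.leaf [7,11,13])) (.free 2 [16,17,18,19,20,21,22]))), .t 13 (nat_lit 0x8de08f608f308e908e6091d091b0733073205e305e2053d) (.z (.edon 0 13 (.node 4 9 (.edon 0 3 (.leaf [0,1,2]) (.leaf [3,4,12,10,6])) (.leaf [5,7,11,9,8])) (.free 3 [13,14,15,16,17,18,19,20,21,22]))), .t 15 (nat_lit 0x8fb08f608f3096f096c090609050a460437043303d303cf03af03ae) (.z (.node 16 0 (.edon 13 14 (.leaf [13,15,16]) (.node 4 9 (.node 2 4 (.leaf [2,6,8,12,10]) (.leaf [1,3,4])) (.leaf [5,7,11,14,9]))) (.free 2 [0,17,18,19,20,21,22]))), .t 10 (nat_lit 0x8f708f608f3096309620903090203a903a8) (.z (.edon 0 13 (.node 4 9 (.node 2 4 (.leaf [0,2,6,8,10]) (.leaf [1,3,4])) (.leaf [5,7,11,12,9])) (.free 3 [13,14,15,16,17,18,19,20,21,22]))), .t 5 (nat_lit 0x305005600050002)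 (.z (.edon 0 16 (.node 12 13 (.leaf [0,12,14,15]) (.node 3 9 (.leaf [1,3,6,10,2]) (.free 2 [4,5,7,8,9,11,13]))) (.free 2 [16,17,18,19,20,21,22]))), .t 15 (nat_lit 0xd7c06540653064e0d8a0d880d830d8106f706f4067806760d9a0d99) (.z (.node 0 3 (.node 5 13 (.node 0 9 (.node 0 16 (.free 2 [0,17,18,19,20,21,22]) (.leaf [10,14,15,16,12])) (.leaf [4,5,8,9,6])) (.leaf [7,11,13])) (.free 1 [1,2,3]))), .t 10 (nat_lit 0xda50db50db20dab0da90dd90dd80acd0acb) (.z (.edon 0 16 (.edon 0 7 (.free 2 [0,1,2,3,4,5,6]) (.edon 0 11 (.leaf [7,10,9,8]) (.leaf [11,13,14,15,12]))) (.free 2 [16,17,18,19,20,21,22]))), .t 5 (nat_lit 0x4be04bd0d620d61) (.z (.edon 0 16 (.node 2 8 (.edon 10 15 (.leaf [10,11,13,14]) (.leaf [0,2,9,12,15])) (.free 2 [1,3,4,5,6,7,8])) (.free 2 [16,17,18,19,20,21,22]))), .t 10 (nat_lit 0x88d0889088708e508e208a408a20dda0dd7) (.z (.edon 0 16 (.node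 2 4 (.edon 11 12 (.leaf [11,13,15,14]) (.node 2 8 (.leaf [0,2,9,12]) (.leaf [5,7,10,8,6]))) (.leaf [1,3,4])) (.free 2 [16,17,18,19,20,21,22]))), .t 10 (nat_lit 0xe010dfe08f608f306ff06fd05c105bf053a) (.z (.edon 0 16 (.edon 0 3 (.leaf [0,1,2]) (.edon 0 12 (.node 4 9 (.leaf [3,4,10,8,6]) (.leaf [5,7,11,9])) (.leaf [12,13,15,14]))) (.free 2 [16,17,18,19,20,21,22]))), .t 7 (nat_lit 0xe010dfe03a903a808f608f3) (.z (.edon 0 16 (.edon 0 12 (.node 2 4 (.edon 5 8 (.leaf [5,7,11,9]) (.leaf [0,2,6,8,10])) (.leaf [1,3,4])) (.leaf [12,13,15,14])) (.free 2 [16,17,18,19,20,21,22]))), .t 7 (nat_lit 0x52f04150198019300370032) (.z (.node 16 0 (.edon 7 10 (.free 2 [7,11,12,13,14,15,16]) (.node 1 6 (.leaf [1,8,10,9,2]) (.leaf [3,4,5,6]))) (.free 2 [0,17,18,19,20,21,22]))), .t 1 (nat_lit 0) (.fa 3), .t 10 (nat_lit 0xa0d0a0c0a090a920a8f0a120a11033e033d) (.z (.edon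 0 13 (.node 4 10 (.node 2 4 (.leaf [0,2,5,8,9]) (.leaf [1,3,4])) (.leaf [6,7,11,12,10])) (.free 3 [13,14,15,16,17,18,19,20,21,22]))), .t 13 (nat_lit 0xce90d7f0d7d0d350d330ce30ce10652055c055b053a0530) (.z (.edon 0 3 (.free 1 [0,1,2]) (.node 6 13 (.edon 0 9 (.leaf [3,4,6,8,5]) (.edon 0 16 (.leaf [9,10,12,14,15]) (.free 2 [16,17,18,19,20,21,22]))) (.leaf [7,11,13])))), .t 10 (nat_lit 0x64f067806750658065506f706f50d7f0d7d) (.z (.node 0 3 (.node 6 13 (.node 0 9 (.edon 0 16 (.leaf [0,10,12,14,15]) (.free 2 [16,17,18,19,20,21,22])) (.leaf [4,6,8,9,5])) (.leaf [7,11,13])) (.free 1 [1,2,3])))] (by decide +kernel) (by decide +kernel)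
theorem b138 : B 4416 4448 := Blk.of_chk [.t 1 (nat_lit 0) (.fa 3), .t 13 (nat_lit 0xdba0e0a0e090de20de10db50db30652055c055b053a0530) (.z (.edon 0 3 (.free 1 [0,1,2]) (.node 6 13 (.edon 0 10 (.leaf [3,4,6,8,5]) (.node 10 16 (.free 2 [10,17,18,19,20,21,22]) (.leaf [11,12,14,15,16]))) (.leaf [7,9,13])))), .t 1 (nat_lit 0) (.fa 3), .t 4 (nat_lit 0x10e000dff) (.z (.edon 0 16 (.node 0 11 (.leaf [0,12,13,14,15]) (.node 3 8 (.leaf [1,3,5,2]) (.free 2 [4,6,7,8,9,10,11]))) (.free 2 [16,17,18,19,20,21,22]))), .t 1 (nat_lit 0) (.fa 3), .t 10 (nat_lit 0x65f0652064f07050701068706850d7f0d7d) (.z (.edon 0 16 (.node 6 13 (.node 10 11 (.leaf [0,10,12,14,15]) (.edon 0 4 (.leaf [1,2,3]) (.leaf [4,6,11,8,5]))) (.leaf [7,9,13])) (.free 2 [16,17,18,19,20,21,22]))), .t 15 (nat_lit 0x64f0d7c06780675065806550d8a0d880d830d8106f706f50d9a0d99) (.z (.node 0 3 (.node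 6 13 (.node 0 9 (.node 0 16 (.free 2 [0,17,18,19,20,21,22]) (.leaf [10,14,15,16,12])) (.leaf [4,6,8,9,5])) (.leaf [7,11,13])) (.free 1 [1,2,3]))), .t 8 (nat_lit 0x9f00a0c0a0909f709f40a410a3f) (.z (.node 2 4 (.edon 8 13 (.leaf [6,7,11,10,8]) (.free 4 [0,2,5,9,12,13,14,15,16,17,18,19,20,21,22])) (.free 1 [1,3,4]))), .t 10 (nat_lit 0xc460c4f0c4e0c4c0c4a0d520d4e0cc00cbf) (.z (.node 0 7 (.node 0 16 (.free 2 [0,17,18,19,20,21,22]) (.node 8 13 (.leaf [8,14,15,16,9]) (.leaf [10,11,13,12]))) (.free 2 [1,2,3,4,5,6,7]))), .t 8 (nat_lit 0xa0c08ff08fc08c908c608920891) (.z (.node 2 4 (.edon 5 13 (.leaf [5,6,7,11,10]) (.free 4 [0,2,8,9,12,13,14,15,16,17,18,19,20,21,22])) (.free 1 [1,3,4]))), .t 8 (nat_lit 0xa0c040d040a03ce03cb039f039e) (.z (.node 2 4 (.edon 2 13 (.leaf [2,6,7,11,10]) (.free 4 [0,5,8,9,12,13,14,15,16,17,18,19,20,21,22])) (.free 1 [1,3,4]))),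 .t 4 (nat_lit 0x10e000dff) (.z (.edon 0 16 (.node 0 11 (.leaf [0,12,13,14,15]) (.edon 4 5 (.free 2 [4,6,7,8,9,10,11]) (.leaf [1,3,5,2]))) (.free 2 [16,17,18,19,20,21,22]))), .t 9 (nat_lit 0x6f30718071306ff06fa0001077a0778) (.z (.edon 0 16 (.node 6 13 (.node 0 10 (.leaf [0,12,14,15]) (.edon 4 5 (.leaf [4,6,10,9,8]) (.leaf [1,3,5,2]))) (.leaf [7,11,13])) (.free 2 [16,17,18,19,20,21,22]))), .t 4 (nat_lit 0x50e000dff) (.z (.edon 0 16 (.node 0 11 (.leaf [0,12,13,14,15]) (.edon 4 10 (.free 2 [4,5,6,7,8,9,11]) (.leaf [1,3,10,2]))) (.free 2 [16,17,18,19,20,21,22]))), .t 15 (nat_lit 0x9ec036a0a040a0109f709f4038c038b037503730a2d0a2b04f504f3) (.z (.node 16 0 (.edon 13 14 (.leaf [13,15,16]) (.node 5 9 (.leaf [2,5,14,12,10]) (.edon 0 6 (.leaf [1,3,4]) (.leaf [6,7,11,9,8])))) (.free 2 [0,17,18,19,20,21,22]))), .t 13 (nat_lit 0xd7f0d350d320cf60cf30cea0ce80652055c055b053a0530)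 (.z (.edon 0 3 (.free 1 [0,1,2]) (.node 6 13 (.edon 0 9 (.leaf [3,4,6,8,5]) (.edon 0 16 (.leaf [9,14,15,12,10]) (.free 2 [16,17,18,19,20,21,22]))) (.leaf [7,11,13])))), .t 13 (nat_lit 0xce50ce40ce00d350d320cf60cf40652055c055b053a0530) (.z (.edon 0 16 (.edon 7 15 (.leaf [7,11,13]) (.edon 0 9 (.edon 0 3 (.leaf [0,1,2]) (.leaf [3,4,6,8,5])) (.leaf [9,10,14,15,12]))) (.free 2 [16,17,18,19,20,21,22]))), .t 15 (nat_lit 0x35809f0038c038b036203610a0c0a0909f709f404bb04b90a410a3f) (.z (.node 16 0 (.edon 13 14 (.leaf [13,15,16]) (.edon 1 14 (.edon 0 6 (.leaf [1,3,4]) (.leaf [6,7,11,10,8])) (.leaf [2,5,14,12,9]))) (.free 2 [0,17,18,19,20,21,22]))), .t 13 (nat_lit 0xdda0d930d920d6c0d670d660d6506a906a8059205910531) (.z (.edon 0 16 (.edon 0 3 (.leaf [0,1,2]) (.node 4 14 (.leaf [3,4,12,9,5]) (.edon 0 10 (.leaf [6,7,8]) (.leaf [10,11,13,15,14])))) (.free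 2 [16,17,18,19,20,21,22]))), .t 1 (nat_lit 0) (.fa 3), .t 1 (nat_lit 0) (.cn 3 2), .t 9 (nat_lit 0xd7c0d8a0d880d830d81001d0d9a0d99) (.z (.node 1 13 (.node 0 9 (.node 0 16 (.free 2 [0,17,18,19,20,21,22]) (.leaf [10,14,15,16,12])) (.leaf [1,5,9,2])) (.free 2 [3,4,6,7,8,11,13]))), .t 13 (nat_lit 0x9f00a0c0a0909f709f404bb04b9024b024a003a0a410a3f) (.z (.node 16 0 (.edon 13 14 (.leaf [13,15,16]) (.edon 5 14 (.edon 0 6 (.leaf [3,4,5]) (.leaf [6,7,11,10,8])) (.leaf [1,14,12,9,2]))) (.free 2 [0,17,18,19,20,21,22]))), .t 13 (nat_lit 0x9f00a0c0a0909f709f404bb04b9024b024a003a0a410a3f) (.z (.node 16 0 (.edon 13 14 (.leaf [13,15,16]) (.edon 3 14 (.edon 0 6 (.leaf [3,4,5]) (.leaf [6,7,11,10,8])) (.leaf [1,14,12,9,2]))) (.free 2 [0,17,18,19,20,21,22]))), .t 8 (nat_lit 0x9f708e908e608ab08a608920891) (.z (.node 2 4 (.node 2 8 (.free 4 [0,2,9,10,12,13,14,15,16,17,18,19,20,21,22])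 (.leaf [5,6,7,11,8])) (.free 1 [1,3,4]))), .t 9 (nat_lit 0x6fe00010a250a230779077706f706f5) (.z (.edon 0 16 (.edon 7 15 (.leaf [7,11,13]) (.node 0 10 (.leaf [0,12,14,15]) (.edon 4 5 (.leaf [4,6,8,9,10]) (.leaf [1,3,5,2])))) (.free 2 [16,17,18,19,20,21,22]))), .t 15 (nat_lit 0x9fc09f709f4095a047b0477036d036a035a03590a610a5e0a160a15) (.z (.node 16 0 (.edon 13 14 (.leaf [13,15,16]) (.edon 1 9 (.edon 0 6 (.leaf [1,3,4]) (.leaf [6,7,11,14,8])) (.leaf [2,5,9,12,10]))) (.free 2 [0,17,18,19,20,21,22]))), .t 8 (nat_lit 0x9ec0a040a0109f709f40a2d0a2b) (.z (.node 2 4 (.edon 9 13 (.leaf [6,7,11,9,8]) (.free 4 [0,2,5,10,12,13,14,15,16,17,18,19,20,21,22])) (.free 1 [1,3,4]))), .t 7 (nat_lit 0x6f706f505ba05b8053a001f) (.z (.edon 0 16 (.edon 7 15 (.leaf [7,11,13]) (.node 0 10 (.leaf [0,12,14,15]) (.node 1 9 (.leaf [1,5,10,2]) (.leaf [3,4,6,8,9])))) (.free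 2 [16,17,18,19,20,21,22]))), .t 8 (nat_lit 0x89209f609f508e808e708890888) (.z (.node 2 4 (.node 2 11 (.free 4 [0,2,9,10,12,13,14,15,16,17,18,19,20,21,22]) (.leaf [5,6,7,8,11])) (.free 1 [1,3,4]))), .t 8 (nat_lit 0x88f09ff09fe08f108f0088c088b) (.z (.node 2 4 (.node 2 10 (.free 4 [0,2,8,11,12,13,14,15,16,17,18,19,20,21,22]) (.leaf [5,6,7,9,10])) (.free 1 [1,3,4]))), .t 8 (nat_lit 0x8920a030a0208f508f4088c088b) (.z (.node 2 4 (.node 2 11 (.free 4 [0,2,8,10,12,13,14,15,16,17,18,19,20,21,22]) (.leaf [5,6,7,9,11])) (.free 1 [1,3,4])))] (by decide +kernel) (by decide +kernel)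
theorem b139 : B 4448 4480 := Blk.of_chk [.t 10 (nat_lit 0x32503340333032b032a0c540c52039b039a) (.z (.edon 0 13 (.edon 5 11 (.node 2 4 (.leaf [2,6,7,9,5]) (.leaf [1,3,4])) (.leaf [0,8,10,11,12])) (.free 3 [13,14,15,16,17,18,19,20,21,22]))), .t 10 (nat_lit 0x32503340333032b032a0c5c0c59039b039a) (.z (.edon 0 16 (.node 2 4 (.edon 5 11 (.leaf [2,6,7,9,5]) (.node 12 13 (.leaf [0,12,14,15]) (.leaf [8,11,13,10]))) (.leaf [1,3,4])) (.free 2 [16,17,18,19,20,21,22]))), .t 8 (nat_lit 0xb090a570a540a130a1009fa09f9) (.z (.node 2 4 (.edon 11 13 (.leaf [6,7,8,12,11]) (.free 4 [0,2,5,9,10,13,14,15,16,17,18,19,20,21,22])) (.free 1 [1,3,4]))), .t 8 (nat_lit 0x36c097d097c04d504d303670365) (.z (.edon 1 13 (.free 2 [1,3,4,6,7,8,9]) (.edon 0 13 (.leaf [0,2,5,10,11,12]) (.free 3 [13,14,15,16,17,18,19,20,21,22])))), .t 1 (nat_lit 0) (.cn 3 2), .t 8 (nat_lit 0xb370a700a6b0a0c0a090a030a02)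 (.z (.node 2 4 (.edon 10 13 (.leaf [6,7,9,11,10]) (.free 4 [0,2,5,8,12,13,14,15,16,17,18,19,20,21,22])) (.free 1 [1,3,4]))), .t 13 (nat_lit 0xd550d6b0d680d5b0d5a0d7f0d7d0652055c055b053a0530) (.z (.edon 0 3 (.free 1 [0,1,2]) (.node 6 13 (.edon 0 10 (.leaf [3,4,6,8,5]) (.edon 0 16 (.leaf [10,12,14,15,11]) (.free 2 [16,17,18,19,20,21,22]))) (.leaf [7,9,13])))), .t 8 (nat_lit 0x6f805bb05b60549053b0db50db3) (.z (.edon 0 16 (.node 6 13 (.node 0 9 (.leaf [0,11,12,14,15]) (.edon 3 5 (.leaf [3,4,6,9,8]) (.leaf [1,2,5]))) (.leaf [7,10,13])) (.free 2 [16,17,18,19,20,21,22]))), .t 1 (nat_lit 0) (.fa 3), .t 13 (nat_lit 0xdb20dc70dc50dba0db806f805bb05b60549053b0de20de1) (.z (.node 6 13 (.node 0 9 (.node 0 16 (.free 2 [0,17,18,19,20,21,22]) (.leaf [11,14,15,16,12])) (.node 1 8 (.leaf [1,2,5]) (.leaf [3,4,6,9,8]))) (.free 1 [7,10,13]))), .t 8 (nat_lit 0x34609430942044e044d03440343)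 (.z (.edon 1 13 (.free 2 [1,3,4,6,7,9,10]) (.edon 0 13 (.leaf [0,2,5,8,11,12]) (.free 3 [13,14,15,16,17,18,19,20,21,22])))), .t 8 (nat_lit 0xa000405040303ba03b6039d039c) (.z (.node 2 4 (.edon 2 5 (.leaf [2,6,7,10,9]) (.free 4 [0,5,8,11,12,13,14,15,16,17,18,19,20,21,22])) (.free 1 [1,3,4]))), .t 8 (nat_lit 0x32503340333032b032a039b039a) (.z (.node 2 4 (.edon 5 10 (.leaf [2,6,7,9,5]) (.free 4 [0,8,10,11,12,13,14,15,16,17,18,19,20,21,22])) (.free 1 [1,3,4]))), .t 8 (nat_lit 0x32503340333032b032a039b039a) (.z (.node 2 4 (.edon 2 10 (.leaf [2,6,7,9,5]) (.free 4 [0,8,10,11,12,13,14,15,16,17,18,19,20,21,22])) (.free 1 [1,3,4]))), .t 8 (nat_lit 0xa010a0009fd0a6f0a6c0a0b0a0a) (.z (.node 2 4 (.edon 11 13 (.leaf [6,7,10,11,9]) (.free 4 [0,2,5,8,12,13,14,15,16,17,18,19,20,21,22])) (.free 1 [1,3,4]))), .t 9 (nat_lit 0x70106f806f30780077e071e071c0001)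 (.z (.edon 0 16 (.node 6 13 (.node 0 11 (.leaf [0,12,14,15]) (.node 3 8 (.leaf [1,3,5,2]) (.leaf [4,6,9,11,8]))) (.leaf [7,10,13])) (.free 2 [16,17,18,19,20,21,22]))), .t 8 (nat_lit 0xa000405040303ba03b6039d039c) (.z (.node 2 4 (.edon 2 13 (.leaf [2,6,7,10,9]) (.free 4 [0,5,8,11,12,13,14,15,16,17,18,19,20,21,22])) (.free 1 [1,3,4]))), .t 1 (nat_lit 0) (.cn 2 2), .t 1 (nat_lit 0) (.fa 3), .t 10 (nat_lit 0x9f009ef09ec0a250a2209ff09fe03950394) (.z (.edon 0 16 (.node 2 4 (.node 5 13 (.leaf [0,2,5,14,15]) (.edon 0 11 (.leaf [6,7,9,10,8]) (.leaf [11,12,13]))) (.leaf [1,3,4])) (.free 2 [16,17,18,19,20,21,22]))), .t 17 (nat_lit 0xc500c160cde0ccc0c720c6d0c5d0c580c360c320c220c1d0c920c900c090c07) (.z (.node 7 0 (.free 2 [1,2,3,4,5,6,7]) (.node 13 0 (.leaf [8,9,10,13,12,11]) (.free 3 [0,14,15,16,17,18,19,20,21,22])))), .t 8 (nat_lit 0x9ec0a0009fd09f309f00a260a24)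 (.z (.node 2 4 (.edon 8 13 (.leaf [6,7,10,9,8]) (.free 4 [0,2,5,11,12,13,14,15,16,17,18,19,20,21,22])) (.free 1 [1,3,4]))), .t 8 (nat_lit 0x9f009ef09ec0a250a2209ff09fe) (.z (.node 2 4 (.edon 8 13 (.leaf [6,7,9,10,8]) (.free 4 [0,2,5,11,12,13,14,15,16,17,18,19,20,21,22])) (.free 1 [1,3,4]))), .t 8 (nat_lit 0xa010a0009fd0a6f0a6c0a0b0a0a) (.z (.node 2 4 (.edon 9 13 (.leaf [6,7,10,11,9]) (.free 4 [0,2,5,8,12,13,14,15,16,17,18,19,20,21,22])) (.free 1 [1,3,4]))), .t 7 (nat_lit 0x1c071f05d805d60550053f) (.z (.edon 0 16 (.node 6 13 (.node 0 11 (.leaf [0,12,14,15]) (.edon 3 8 (.leaf [3,4,6,11,9]) (.leaf [1,5,8,2]))) (.leaf [7,10,13])) (.free 2 [16,17,18,19,20,21,22]))), .t 5 (nat_lit 0xc1a0c180d930d92) (.z (.node 0 7 (.edon 0 16 (.edon 10 12 (.leaf [10,13,15,14]) (.leaf [0,8,9,11,12])) (.free 2 [16,17,18,19,20,21,22])) (.free 2 [1,2,3,4,5,6,7]))),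 .t 4 (nat_lit 0x10c1a0c18) (.z (.edon 0 16 (.edon 4 12 (.free 2 [4,6,7,10,13,14,15]) (.node 0 5 (.leaf [0,8,9,11,12]) (.leaf [1,3,5,2]))) (.free 2 [16,17,18,19,20,21,22]))), .t 8 (nat_lit 0xa0008f208ef08b508b0088f088e) (.z (.node 2 4 (.node 2 9 (.free 4 [0,2,8,11,12,13,14,15,16,17,18,19,20,21,22]) (.leaf [5,6,7,10,9])) (.free 1 [1,3,4]))), .t 13 (nat_lit 0xb340b4a0b480b3c0b3a0652055c055b053a05300b780b76) (.z (.edon 0 13 (.edon 7 8 (.leaf [7,10,11,12,9]) (.edon 0 3 (.leaf [0,1,2]) (.leaf [3,4,6,8,5]))) (.free 3 [13,14,15,16,17,18,19,20,21,22]))), .t 8 (nat_lit 0x8920a0b0a0a08fe08fd088f088e) (.z (.node 2 4 (.edon 5 13 (.leaf [5,6,7,10,11]) (.free 4 [0,2,8,9,12,13,14,15,16,17,18,19,20,21,22])) (.free 1 [1,3,4]))), .t 8 (nat_lit 0x39f0a0b0a0a040c040b039d039c) (.z (.node 2 4 (.edon 2 13 (.leaf [2,6,7,10,11]) (.free 4 [0,5,8,9,12,13,14,15,16,17,18,19,20,21,22]))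 (.free 1 [1,3,4]))), .t 8 (nat_lit 0xd520c920c8d0c720c6d0c5c0c5a) (.z (.node 0 7 (.edon 0 16 (.node 9 13 (.leaf [0,9,14,15]) (.leaf [8,10,11,13,12])) (.free 2 [16,17,18,19,20,21,22])) (.free 2 [1,2,3,4,5,6,7])))] (by decide +kernel) (by decide +kernel)
theorem b140 : B 4480 4512 := Blk.of_chk [.t 8 (nat_lit 0xbf70c210c1e0c090c060c5c0c5a) (.z (.node 0 7 (.edon 0 16 (.node 12 13 (.leaf [0,12,14,15]) (.leaf [8,10,11,13,9])) (.free 2 [16,17,18,19,20,21,22])) (.free 2 [1,2,3,4,5,6,7]))), .t 9 (nat_lit 0x7040a2c0a2a0780077f06f706f50001) (.z (.edon 0 16 (.node 6 13 (.node 0 11 (.leaf [0,12,14,15]) (.node 3 11 (.leaf [1,3,5,2]) (.leaf [4,6,8,9,11]))) (.leaf [7,10,13])) (.free 2 [16,17,18,19,20,21,22]))), .t 8 (nat_lit 0x9ec0a0009fd09f309f00a260a24) (.z (.node 2 4 (.edon 9 13 (.leaf [6,7,10,9,8]) (.free 4 [0,2,5,11,12,13,14,15,16,17,18,19,20,21,22]))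 (.free 1 [1,3,4]))), .t 9 (nat_lit 0xa2d0781077d071f071b070407020001) (.z (.edon 0 16 (.node 6 13 (.node 0 11 (.leaf [0,12,14,15]) (.node 3 9 (.leaf [1,3,5,2]) (.leaf [4,6,8,11,9]))) (.leaf [7,10,13])) (.free 2 [16,17,18,19,20,21,22]))), .t 8 (nat_lit 0x38809c209c10520051f03870386) (.z (.edon 0 16 (.node 11 13 (.leaf [0,2,5,11,14,15]) (.free 3 [1,3,4,6,7,8,9,10,12,13])) (.free 2 [16,17,18,19,20,21,22]))), .t 5 (nat_lit 0x30f006a00070005) (.z (.edon 2 13 (.edon 4 10 (.leaf [4,6,7]) (.leaf [1,3,10,12,2])) (.free 4 [0,5,8,9,11,13,14,15,16,17,18,19,20,21,22]))), .t 10 (nat_lit 0x64f067806750658065506f706f50db50db3) (.z (.node 0 3 (.node 6 13 (.node 0 9 (.edon 0 16 (.leaf [0,11,12,14,15]) (.free 2 [16,17,18,19,20,21,22])) (.leaf [4,6,8,9,5])) (.leaf [7,10,13])) (.free 1 [1,2,3]))), .t 13 (nat_lit 0xd030d1d0d1b0d090d080d350d330652055c055b053a0530)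 (.z (.edon 0 3 (.free 1 [0,1,2]) (.node 6 13 (.edon 0 9 (.leaf [3,4,6,8,5]) (.edon 0 16 (.leaf [9,12,14,15,11]) (.free 2 [16,17,18,19,20,21,22]))) (.leaf [7,10,13])))), .t 13 (nat_lit 0xdba0e0a0e090de20de10db50db30652055c055b053a0530) (.z (.edon 0 3 (.free 1 [0,1,2]) (.node 6 13 (.edon 0 9 (.leaf [3,4,6,8,5]) (.node 9 16 (.free 2 [9,17,18,19,20,21,22]) (.leaf [11,12,14,15,16]))) (.leaf [7,10,13])))), .t 8 (nat_lit 0x6ff05c105bd054a053d0db50db3) (.z (.edon 0 16 (.node 6 13 (.node 0 10 (.leaf [0,11,12,14,15]) (.edon 3 5 (.leaf [3,4,6,10,8]) (.leaf [1,2,5]))) (.leaf [7,9,13])) (.free 2 [16,17,18,19,20,21,22]))), .t 10 (nat_lit 0x64e067906740659065406f806f60db50db3) (.z (.node 0 3 (.node 5 13 (.node 0 9 (.edon 0 16 (.leaf [0,11,12,14,15]) (.free 2 [16,17,18,19,20,21,22])) (.leaf [4,5,9,8,6])) (.leaf [7,10,13])) (.free 1 [1,2,3]))), .t 10 (nat_lit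 0x64e0681067c065e065a06ff06fd0db50db3) (.z (.node 0 3 (.node 5 13 (.node 0 10 (.edon 0 16 (.leaf [0,11,12,14,15]) (.free 2 [16,17,18,19,20,21,22])) (.leaf [4,5,10,8,6])) (.leaf [7,9,13])) (.free 1 [1,2,3]))), .t 10 (nat_lit 0x88a088908870e010dfe08e108de089d089b) (.z (.edon 0 16 (.edon 0 12 (.node 2 4 (.node 2 9 (.leaf [0,2,10,11]) (.leaf [5,7,9,8,6])) (.leaf [1,3,4])) (.leaf [12,13,15,14])) (.free 2 [16,17,18,19,20,21,22]))), .t 10 (nat_lit 0x88a088908870e010dfe08e108de089d089b) (.z (.edon 0 16 (.edon 0 12 (.node 2 4 (.node 2 8 (.leaf [0,2,10,11]) (.leaf [5,7,9,8,6])) (.leaf [1,3,4])) (.leaf [12,13,15,14])) (.free 2 [16,17,18,19,20,21,22]))), .t 15 (nat_lit 0x64e0681067c065e065a06ff06fd0d050bad0baa0b5e0b5c0b510b50) (.z (.node 16 0 (.edon 13 14 (.leaf [13,15,16]) (.edon 7 10 (.leaf [7,12,14,11,9]) (.edon 0 4 (.leaf [1,2,3]) (.leaf [4,5,10,8,6]))))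 (.free 2 [0,17,18,19,20,21,22]))), .t 9 (nat_lit 0x67c0679067407790776069b06990002) (.z (.edon 0 16 (.edon 7 15 (.leaf [7,12,13]) (.node 0 10 (.leaf [0,11,14,15]) (.node 3 8 (.leaf [1,3,6,2]) (.leaf [4,5,9,10,8])))) (.free 2 [16,17,18,19,20,21,22]))), .t 9 (nat_lit 0x67c06790674000207790776069b0699) (.z (.edon 0 16 (.edon 7 15 (.leaf [7,12,13]) (.node 0 10 (.leaf [0,11,14,15]) (.edon 4 6 (.leaf [4,5,9,10,8]) (.leaf [1,3,6,2])))) (.free 2 [16,17,18,19,20,21,22]))), .t 8 (nat_lit 0x893088c088a08fa08f708c108c0) (.z (.node 2 4 (.edon 6 13 (.leaf [5,7,12,9,6]) (.free 4 [0,2,8,10,11,13,14,15,16,17,18,19,20,21,22])) (.free 1 [1,3,4]))), .t 10 (nat_lit 0x64e067906740659065406f806f60d6b0d69) (.z (.edon 0 16 (.edon 7 15 (.leaf [7,12,13]) (.node 0 9 (.leaf [0,10,11,14,15]) (.edon 0 4 (.leaf [1,2,3]) (.leaf [4,5,9,8,6])))) (.free 2 [16,17,18,19,20,21,22]))),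 .t 8 (nat_lit 0x8de08fa08f708ed08ea09240922) (.z (.node 2 4 (.edon 8 13 (.leaf [5,7,12,9,8]) (.free 4 [0,2,6,10,11,13,14,15,16,17,18,19,20,21,22])) (.free 1 [1,3,4]))), .t 5 (nat_lit 0xe010dfe03a903a8) (.z (.edon 0 16 (.edon 0 12 (.edon 1 8 (.free 2 [1,3,4,5,7,9,11]) (.leaf [0,2,6,8,10])) (.leaf [12,13,15,14])) (.free 2 [16,17,18,19,20,21,22]))), .t 8 (nat_lit 0x8fa04090408035b0358033a0339) (.z (.node 2 4 (.edon 2 13 (.leaf [2,5,7,12,9]) (.free 4 [0,6,8,10,11,13,14,15,16,17,18,19,20,21,22])) (.free 1 [1,3,4]))), .t 13 (nat_lit 0xd6f0de20de10d9a0d990d6b0d690653055d055a053a0530) (.z (.edon 0 3 (.free 1 [0,1,2]) (.node 5 13 (.edon 0 9 (.leaf [3,4,5,8,6]) (.node 9 16 (.free 2 [9,17,18,19,20,21,22]) (.leaf [10,11,14,15,16]))) (.leaf [7,12,13])))), .t 8 (nat_lit 0xe010dda0dd70db60db10dab0daa) (.z (.edon 0 16 (.edon 0 11 (.node 6 10 (.leaf [0,2,6,9])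 (.free 2 [1,3,4,5,7,8,10])) (.leaf [11,12,13,15,14])) (.free 2 [16,17,18,19,20,21,22]))), .t 5 (nat_lit 0xd930d9203a603a5) (.z (.edon 0 16 (.edon 1 13 (.free 2 [1,3,4,5,7,11,12]) (.edon 0 10 (.leaf [0,2,6,8,9]) (.leaf [10,13,15,14]))) (.free 2 [16,17,18,19,20,21,22]))), .t 8 (nat_lit 0x3ba01480144003700270de20de0) (.z (.node 1 13 (.node 0 10 (.node 0 16 (.free 2 [0,17,18,19,20,21,22]) (.leaf [11,15,16,14])) (.leaf [1,6,10,9,2])) (.free 2 [3,4,5,7,8,12,13]))), .t 1 (nat_lit 0) (.cn 2 2), .t 10 (nat_lit 0xe010dfe08e408e3071f071d05d805d7053b) (.z (.edon 0 16 (.edon 0 3 (.leaf [0,1,2]) (.edon 0 12 (.node 4 10 (.leaf [3,4,11,9,6]) (.leaf [5,7,8,10])) (.leaf [12,13,15,14]))) (.free 2 [16,17,18,19,20,21,22]))), .t 10 (nat_lit 0x88708a308a0088f088d0e010dfe08e408e3) (.z (.edon 0 16 (.edon 0 12 (.node 4 6 (.free 2 [0,1,2,3,4,9,11]) (.leaf [5,7,8,10,6]))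 (.leaf [12,13,15,14])) (.free 2 [16,17,18,19,20,21,22]))), .t 10 (nat_lit 0xac80aed0ae80ad50ad00e010dfe0b370b35) (.z (.edon 0 16 (.edon 0 7 (.free 2 [0,1,2,3,4,5,6]) (.edon 0 12 (.leaf [7,8,11,10,9]) (.leaf [12,13,15,14]))) (.free 2 [16,17,18,19,20,21,22]))), .t 15 (nat_lit 0x654069c0697065e065a071807160c970bad0baa0b1c0b190b0f0b0e) (.z (.node 16 0 (.edon 13 14 (.leaf [13,15,16]) (.edon 7 10 (.leaf [7,12,14,11,8]) (.edon 0 4 (.leaf [1,2,3]) (.leaf [4,5,10,9,6])))) (.free 2 [0,17,18,19,20,21,22]))), .t 15 (nat_lit 0x65a0659065407170714069b06990c970bad0baa0b1c0b190b0f0b0e) (.z (.node 16 0 (.edon 13 14 (.leaf [13,15,16]) (.edon 7 9 (.leaf [7,12,14,11,8]) (.edon 0 4 (.leaf [1,2,3]) (.leaf [4,5,9,10,6])))) (.free 2 [0,17,18,19,20,21,22])))] (by decide +kernel) (by decide +kernel)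
theorem b141 : B 4512 4544 := Blk.of_chk [.t 10 (nat_lit 0xe010dfe08e008df072e072d05e105e0053d) (.z (.edon 0 16 (.edon 0 3 (.leaf [0,1,2]) (.edon 0 12 (.node 4 9 (.leaf [3,4,11,10,6]) (.leaf [5,7,8,9])) (.leaf [12,13,15,14]))) (.free 2 [16,17,18,19,20,21,22]))), .t 10 (nat_lit 0xe010dfe065e05670563053d05330ad50ad0) (.z (.edon 0 16 (.edon 0 3 (.leaf [0,1,2]) (.edon 0 12 (.edon 7 10 (.leaf [7,8,11,9]) (.leaf [3,4,5,10,6])) (.leaf [12,13,15,14]))) (.free 2 [16,17,18,19,20,21,22]))), .t 8 (nat_lit 0x88708ae08ad0895089308ec08eb) (.z (.node 2 4 (.node 2 12 (.free 4 [0,2,9,10,11,13,14,15,16,17,18,19,20,21,22]) (.leaf [5,7,8,12,6])) (.free 1 [1,3,4]))), .t 7 (nat_lit 0xc220c200305005600050002) (.z (.edon 0 16 (.node 12 13 (.leaf [0,12,14,15]) (.node 7 9 (.edon 4 6 (.leaf [4,5,7]) (.leaf [1,3,6,10,2])) (.leaf [8,13,11,9]))) (.free 2 [16,17,18,19,20,21,22]))),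 .t 5 (nat_lit 0xc220c20052e052d) (.z (.edon 0 16 (.node 12 13 (.leaf [0,2,12,14,15]) (.node 7 9 (.free 2 [1,3,4,5,6,7,10]) (.leaf [8,13,11,9]))) (.free 2 [16,17,18,19,20,21,22]))), .t 7 (nat_lit 0xc220c200302005000050001) (.z (.edon 0 16 (.node 12 13 (.leaf [0,12,14,15]) (.node 7 9 (.edon 4 5 (.leaf [4,6,7]) (.leaf [1,3,5,10,2])) (.leaf [8,13,11,9]))) (.free 2 [16,17,18,19,20,21,22]))), .t 10 (nat_lit 0xb090a570a540a130a1009fa09f9034f034d) (.z (.edon 0 13 (.node 4 11 (.node 2 4 (.leaf [0,2,5,9,10]) (.leaf [1,3,4])) (.leaf [6,7,8,12,11])) (.free 3 [13,14,15,16,17,18,19,20,21,22]))), .t 7 (nat_lit 0xccb0cc808890887052e052d) (.z (.edon 0 16 (.node 2 4 (.node 12 13 (.leaf [0,2,12,14,15]) (.edon 0 9 (.leaf [5,7,8,6]) (.leaf [9,11,13,10]))) (.leaf [1,3,4])) (.free 2 [16,17,18,19,20,21,22]))), .t 5 (nat_lit 0x30a006100050004) (.z (.edon 0 16 (.node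 12 13 (.leaf [0,12,14,15]) (.edon 4 9 (.free 2 [4,5,6,7,8,11,13]) (.leaf [1,3,9,10,2]))) (.free 2 [16,17,18,19,20,21,22]))), .t 7 (nat_lit 0x302005000050001071f071b) (.z (.edon 0 16 (.edon 7 15 (.leaf [7,8,13]) (.node 0 11 (.leaf [0,12,14,15]) (.edon 4 5 (.leaf [4,6,11,9]) (.leaf [1,3,5,10,2])))) (.free 2 [16,17,18,19,20,21,22]))), .t 10 (nat_lit 0x65a0653064e06fe06fb0680067e0db50db3) (.z (.node 0 3 (.node 5 13 (.node 0 10 (.edon 0 16 (.leaf [0,11,12,14,15]) (.free 2 [16,17,18,19,20,21,22])) (.leaf [4,5,8,10,6])) (.leaf [7,9,13])) (.free 1 [1,2,3]))), .t 1 (nat_lit 0) (.cn 2 2), .t 7 (nat_lit 0xc220c1d0302005000050001) (.z (.edon 0 16 (.node 12 13 (.leaf [0,12,14,15]) (.node 7 11 (.edon 4 5 (.leaf [4,6,7]) (.leaf [1,3,5,10,2])) (.leaf [8,9,13,11]))) (.free 2 [16,17,18,19,20,21,22]))), .t 7 (nat_lit 0xc220c1d0305005600050002) (.z (.edon 0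 16 (.node 12 13 (.leaf [0,12,14,15]) (.node 7 11 (.edon 4 6 (.leaf [4,5,7]) (.leaf [1,3,6,10,2])) (.leaf [8,9,13,11]))) (.free 2 [16,17,18,19,20,21,22]))), .t 5 (nat_lit 0xc220c1d052e052d) (.z (.edon 0 16 (.node 12 13 (.leaf [0,2,12,14,15]) (.node 7 11 (.free 2 [1,3,4,5,6,7,10]) (.leaf [8,9,13,11]))) (.free 2 [16,17,18,19,20,21,22]))), .t 8 (nat_lit 0x3d20a920a9004d504d303cd03cc) (.z (.edon 1 13 (.free 2 [1,3,4,5,7,8,9]) (.edon 0 13 (.leaf [0,2,6,10,11,12]) (.free 3 [13,14,15,16,17,18,19,20,21,22])))), .t 7 (nat_lit 0x680067e0573057105300028) (.z (.edon 0 16 (.edon 7 15 (.leaf [7,9,13]) (.node 0 11 (.leaf [0,12,14,15]) (.node 1 10 (.leaf [1,6,11,2]) (.leaf [3,4,5,8,10])))) (.free 2 [16,17,18,19,20,21,22]))), .t 9 (nat_lit 0x68609330931079607940680067e0002) (.z (.edon 0 16 (.edon 7 15 (.leaf [7,9,13]) (.node 0 11 (.leaf [0,12,14,15]) (.node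 3 11 (.leaf [1,3,6,2]) (.leaf [4,5,8,10,11])))) (.free 2 [16,17,18,19,20,21,22]))), .t 9 (nat_lit 0x209340797079306b506b106860684) (.z (.edon 0 16 (.edon 7 15 (.leaf [7,9,13]) (.node 0 11 (.leaf [0,12,14,15]) (.edon 4 6 (.leaf [4,5,8,11,10]) (.leaf [1,3,6,2])))) (.free 2 [16,17,18,19,20,21,22]))), .t 10 (nat_lit 0x3ac0a400a3e042f042d03a903a80e000dff) (.z (.edon 0 16 (.node 0 11 (.leaf [0,12,13,14,15]) (.node 2 4 (.edon 5 8 (.leaf [5,7,9]) (.leaf [2,6,8,10,11])) (.leaf [1,3,4]))) (.free 2 [16,17,18,19,20,21,22]))), .t 6 (nat_lit 0x42f042d01c201c00032) (.z (.edon 0 16 (.node 1 13 (.node 0 11 (.leaf [0,12,14,15]) (.leaf [1,8,10,11,2])) (.free 2 [3,4,5,6,7,9,13])) (.free 2 [16,17,18,19,20,21,22]))), .t 9 (nat_lit 0x66108bb08b9071e071c065806560005) (.z (.edon 0 16 (.edon 7 15 (.leaf [7,8,13]) (.node 0 11 (.leaf [0,12,14,15]) (.node 3 11 (.leaf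 [1,3,10,2]) (.leaf [4,5,6,9,11])))) (.free 2 [16,17,18,19,20,21,22]))), .t 15 (nat_lit 0x8870e1e0e1d0e1c089c0899088c088a0e3a0e390e260e2508e008df) (.z (.edon 0 20 (.edon 0 12 (.node 2 4 (.node 2 9 (.leaf [0,2,10,11]) (.leaf [5,7,8,9,6])) (.leaf [1,3,4])) (.node 14 16 (.leaf [12,14,18,19,17]) (.leaf [13,15,16]))) (.free 1 [20,21,22]))), .t 9 (nat_lit 0x887089c0899088c088a0e4908e008df) (.z (.node 2 4 (.edon 0 12 (.node 2 9 (.leaf [0,2,10,11]) (.leaf [5,7,8,9,6])) (.node 12 19 (.leaf [12,20,22,21]) (.free 2 [13,14,15,16,17,18,19]))) (.free 1 [1,3,4]))), .t 7 (nat_lit 0xccc0cca08890887052e052d) (.z (.edon 0 16 (.node 2 4 (.node 12 13 (.leaf [0,2,12,14,15]) (.edon 0 9 (.leaf [5,7,8,6]) (.leaf [9,13,11,10]))) (.leaf [1,3,4])) (.free 2 [16,17,18,19,20,21,22]))), .t 1 (nat_lit 0) (.cn 3 2), .t 5 (nat_lit 0x8e008df0e000dff) (.z (.edon 0 16 (.node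 0 11 (.leaf [0,12,13,14,15]) (.node 4 9 (.free 2 [1,2,3,4,6,10,11]) (.leaf [5,7,8,9]))) (.free 2 [16,17,18,19,20,21,22]))), .t 4 (nat_lit 0x60e000dff) (.z (.edon 0 16 (.node 0 11 (.leaf [0,12,13,14,15]) (.node 3 10 (.leaf [1,3,11,2]) (.free 2 [4,5,6,7,8,9,10]))) (.free 2 [16,17,18,19,20,21,22]))), .t 15 (nat_lit 0xe1e0e1d0e1c0e3a0e390e260e250bfb0b370b330aed0ae80ad40ad2) (.z (.edon 0 20 (.edon 0 7 (.free 2 [0,1,2,3,4,5,6]) (.edon 0 12 (.leaf [7,8,9,11,10]) (.node 14 16 (.leaf [12,14,18,19,17]) (.leaf [13,15,16])))) (.free 1 [20,21,22]))), .t 15 (nat_lit 0xe600e3b0e380e270e240e200e1f0bfb0b370b330aed0ae80ad40ad2) (.z (.edon 0 20 (.edon 0 7 (.free 2 [0,1,2,3,4,5,6]) (.edon 0 12 (.leaf [7,8,9,11,10]) (.node 14 16 (.leaf [12,14,17,19,18]) (.leaf [13,15,16])))) (.free 1 [20,21,22]))), .t 15 (nat_lit 0xe1e0e1d0e1c0e3a0e390e260e250ad50a2d0a280a040a0109f609f5)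 (.z (.edon 0 20 (.edon 0 12 (.node 4 9 (.free 2 [0,1,2,3,4,5,10]) (.leaf [6,7,8,11,9])) (.node 14 16 (.leaf [12,14,18,19,17]) (.leaf [13,15,16]))) (.free 1 [20,21,22]))), .t 9 (nat_lit 0x8920e4909f609f508e808e708890888) (.z (.node 2 4 (.edon 0 12 (.node 2 11 (.leaf [0,2,9,10]) (.leaf [5,6,7,8,11])) (.node 12 19 (.leaf [12,20,22,21]) (.free 2 [13,14,15,16,17,18,19]))) (.free 1 [1,3,4])))] (by decide +kernel) (by decide +kernel)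

end Pool.Agent.GCP.F8_13
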