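import Pool.Agent.GCP.F8_13Db

set_option autoImplicit false
set_option maxRecDepth 100000

/-! # Blocks F8_13B5 (generated) -/

namespace Pool.Agent.GCP.F8_13

open Pool.Agent.GCP DB

theorem b142 : B 4544 4576 := Blk.of_chk [.t 15 (nat_lit 0xe600e3b0e380e270e240e200e1f0ad50a2d0a280a040a0109f609f5) (.z (.edon 0 20 (.edon 0 12 (.node 4 9 (.free 2 [0,1,2,3,4,5,10]) (.leaf [6,7,8,11,9])) (.node 14 16 (.leaf [12,14,17,19,18]) (.leaf [13,15,16]))) (.free 1 [20,21,22]))), .t 9 (nat_lit 0xe490ad50a2d0a280a040a0109f609f5) (.z (.node 2 4 (.edon 0 12 (.node 5 9 (.leaf [0,2,5,10]) (.leaf [6,7,8,11,9])) (.node 12 19 (.leaf [12,20,22,21]) (.free 2 [13,14,15,16,17,18,19]))) (.free 1 [1,3,4]))), .t 12 (nat_lit 0xc2203020050000500010cff0cfd0c920c900c1b0c19) (.z (.edon 0 16 (.node 0 13 (.leaf [0,14,15]) (.edon 4 10 (.edon 0 8 (.leaf [4,6,7]) (.leaf [8,13,12,11,9])) (.leaf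 [1,3,5,10,2]))) (.free 2 [16,17,18,19,20,21,22]))), .t 15 (nat_lit 0x88c0e600e3b0e380e270e240e200e1f09ee09ed08e008df08890888) (.z (.edon 0 20 (.edon 0 12 (.node 2 4 (.node 2 9 (.leaf [0,2,10,11]) (.leaf [5,6,7,8,9])) (.leaf [1,3,4])) (.node 14 16 (.leaf [12,14,17,19,18]) (.leaf [13,15,16]))) (.free 1 [20,21,22]))), .t 15 (nat_lit 0xe1e0e1d0e1c088c0e3a0e390e260e2509ee09ed08e008df08890888) (.z (.edon 0 20 (.edon 0 12 (.node 2 4 (.node 2 9 (.leaf [0,2,10,11]) (.leaf [5,6,7,8,9])) (.leaf [1,3,4])) (.node 14 16 (.leaf [12,14,18,19,17]) (.leaf [13,15,16]))) (.free 1 [20,21,22]))), .t 4 (nat_lit 0x60e000dff) (.z (.edon 0 16 (.node 0 11 (.leaf [0,12,13,14,15]) (.edon 4 11 (.free 2 [4,5,6,7,8,9,10]) (.leaf [1,3,11,2]))) (.free 2 [16,17,18,19,20,21,22]))), .t 6 (nat_lit 0x43001c301be003e0033) (.z (.edon 0 16 (.node 1 13 (.node 0 11 (.leaf [0,12,14,15]) (.leaf [1,8,11,10,2]))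 (.free 2 [3,4,5,6,7,9,13])) (.free 2 [16,17,18,19,20,21,22]))), .t 9 (nat_lit 0x10a4107970793072e072b07040702) (.z (.edon 0 16 (.edon 7 15 (.leaf [7,9,13]) (.node 0 11 (.leaf [0,12,14,15]) (.edon 4 5 (.leaf [4,6,8,11,10]) (.leaf [1,3,5,2])))) (.free 2 [16,17,18,19,20,21,22]))), .t 6 (nat_lit 0xe490889088804730471) (.z (.node 2 4 (.edon 0 12 (.node 2 8 (.leaf [0,2,9,10,11]) (.leaf [5,6,7,8])) (.node 12 19 (.leaf [12,20,22,21]) (.free 2 [13,14,15,16,17,18,19]))) (.free 1 [1,3,4]))), .t 9 (nat_lit 0x713072e072b071f071b000107d307d1) (.z (.edon 0 16 (.edon 7 15 (.leaf [7,8,13]) (.node 0 11 (.leaf [0,12,14,15]) (.edon 4 5 (.leaf [4,6,11,10,9]) (.leaf [1,3,5,2])))) (.free 2 [16,17,18,19,20,21,22]))), .t 9 (nat_lit 0x88f0e4909f209f108e408e308890888) (.z (.node 2 4 (.edon 0 12 (.node 2 10 (.leaf [0,2,9,11]) (.leaf [5,6,7,8,10])) (.node 12 19 (.leaf [12,20,22,21])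 (.free 2 [13,14,15,16,17,18,19]))) (.free 1 [1,3,4]))), .t 15 (nat_lit 0x88f0e600e3b0e380e270e240e200e1f09f209f108e408e308890888) (.z (.edon 0 20 (.edon 0 12 (.node 2 4 (.node 2 10 (.leaf [0,2,9,11]) (.leaf [5,6,7,8,10])) (.leaf [1,3,4])) (.node 14 16 (.leaf [12,14,17,19,18]) (.leaf [13,15,16]))) (.free 1 [20,21,22]))), .t 15 (nat_lit 0xe1e0e1d0e1c088f0e3a0e390e260e2509f209f108e408e308890888) (.z (.edon 0 20 (.edon 0 12 (.node 2 4 (.node 2 10 (.leaf [0,2,9,11]) (.leaf [5,6,7,8,10])) (.leaf [1,3,4])) (.node 14 16 (.leaf [12,14,18,19,17]) (.leaf [13,15,16]))) (.free 1 [20,21,22]))), .t 15 (nat_lit 0xe1e0e1d0e1c0e3a0e390e260e250aed0a410a3c0a0c0a0909f609f5) (.z (.edon 0 20 (.edon 0 12 (.node 4 10 (.free 2 [0,1,2,3,4,5,9]) (.leaf [6,7,8,11,10])) (.node 14 16 (.leaf [12,14,18,19,17]) (.leaf [13,15,16]))) (.free 1 [20,21,22]))), .t 9 (nat_lit 0xe490aed0a410a3c0a0c0a0909f609f5)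 (.z (.node 2 4 (.edon 0 12 (.node 5 10 (.leaf [0,2,5,9]) (.leaf [6,7,8,11,10])) (.node 12 19 (.leaf [12,20,22,21]) (.free 2 [13,14,15,16,17,18,19]))) (.free 1 [1,3,4]))), .t 15 (nat_lit 0xe600e3b0e380e270e240e200e1f0aed0a410a3c0a0c0a0909f609f5) (.z (.edon 0 20 (.edon 0 12 (.node 4 10 (.free 2 [0,1,2,3,4,5,9]) (.leaf [6,7,8,11,10])) (.node 14 16 (.leaf [12,14,17,19,18]) (.leaf [13,15,16]))) (.free 1 [20,21,22]))), .t 15 (nat_lit 0xac80aed0ae80ad50ad00e600e3b0e380e270e240e200e1f0b370b35) (.z (.edon 0 20 (.edon 0 7 (.free 2 [0,1,2,3,4,5,6]) (.edon 0 12 (.leaf [7,8,11,10,9]) (.node 14 16 (.leaf [12,14,17,19,18]) (.leaf [13,15,16])))) (.free 1 [20,21,22]))), .t 9 (nat_lit 0xac80aed0ae80ad50ad00e490b370b35) (.z (.edon 0 7 (.free 2 [0,1,2,3,4,5,6]) (.edon 0 12 (.leaf [7,8,11,10,9]) (.node 12 19 (.leaf [12,20,22,21]) (.free 2 [13,14,15,16,17,18,19]))))), .t 15 (nat_lit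 0xac80e1e0e1d0e1c0aed0ae80ad50ad00e3a0e390e260e250b370b35) (.z (.edon 0 20 (.edon 0 7 (.free 2 [0,1,2,3,4,5,6]) (.edon 0 12 (.leaf [7,8,11,10,9]) (.node 14 16 (.leaf [12,14,18,19,17]) (.leaf [13,15,16])))) (.free 1 [20,21,22]))), .t 10 (nat_lit 0xe1e0e1d0e1c0e3a0e390e260e2504730471) (.z (.edon 0 20 (.edon 0 12 (.node 2 8 (.leaf [0,2,9,10,11]) (.free 2 [1,3,4,5,6,7,8])) (.node 14 16 (.leaf [12,14,18,19,17]) (.leaf [13,15,16]))) (.free 1 [20,21,22]))), .t 6 (nat_lit 0xe490889088704730471) (.z (.node 2 4 (.edon 0 12 (.node 2 8 (.leaf [0,2,9,10,11]) (.leaf [5,7,8,6])) (.node 12 19 (.leaf [12,20,22,21]) (.free 2 [13,14,15,16,17,18,19]))) (.free 1 [1,3,4]))), .t 10 (nat_lit 0xe600e3b0e380e270e240e200e1f04730471) (.z (.edon 0 20 (.edon 0 12 (.node 2 8 (.leaf [0,2,9,10,11]) (.free 2 [1,3,4,5,6,7,8])) (.node 14 16 (.leaf [12,14,17,19,18]) (.leaf [13,15,16]))) (.free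 1 [20,21,22]))), .t 5 (nat_lit 0x47304710e000dff) (.z (.edon 0 16 (.node 0 11 (.leaf [0,12,13,14,15]) (.node 2 8 (.leaf [2,9,10,11]) (.free 2 [1,3,4,5,6,7,8]))) (.free 2 [16,17,18,19,20,21,22]))), .t 4 (nat_lit 0x40e000dff) (.z (.edon 0 16 (.node 0 11 (.leaf [0,12,13,14,15]) (.edon 4 9 (.free 2 [4,5,6,7,8,10,11]) (.leaf [1,3,9,2]))) (.free 2 [16,17,18,19,20,21,22]))), .t 4 (nat_lit 0x20e000dff) (.z (.edon 0 16 (.node 0 11 (.leaf [0,12,13,14,15]) (.edon 4 6 (.free 2 [4,5,7,8,9,10,11]) (.leaf [1,3,6,2]))) (.free 2 [16,17,18,19,20,21,22]))), .t 15 (nat_lit 0x88708a308a0088f088d0e600e3b0e380e270e240e200e1f08e408e3) (.z (.edon 0 20 (.edon 0 12 (.node 2 4 (.node 2 10 (.leaf [0,2,9,11]) (.leaf [5,7,8,10,6])) (.leaf [1,3,4])) (.node 14 16 (.leaf [12,14,17,19,18]) (.leaf [13,15,16]))) (.free 1 [20,21,22]))), .t 9 (nat_lit 0x88708a308a0088f088d0e4908e408e3) (.z (.node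 2 4 (.edon 0 12 (.node 2 10 (.leaf [0,2,9,11]) (.leaf [5,7,8,10,6])) (.node 12 19 (.leaf [12,20,22,21]) (.free 2 [13,14,15,16,17,18,19]))) (.free 1 [1,3,4]))), .t 15 (nat_lit 0x8870e1e0e1d0e1c08a308a0088f088d0e3a0e390e260e2508e408e3) (.z (.edon 0 20 (.edon 0 12 (.node 2 4 (.node 2 10 (.leaf [0,2,9,11]) (.leaf [5,7,8,10,6])) (.leaf [1,3,4])) (.node 14 16 (.leaf [12,14,18,19,17]) (.leaf [13,15,16]))) (.free 1 [20,21,22]))), .t 15 (nat_lit 0xe1e0e1d0e1c0e3a0e390e260e250aed0934092f08ff08fc08e808e7) (.z (.edon 0 20 (.edon 0 12 (.node 4 10 (.free 2 [0,1,2,3,4,6,9]) (.leaf [5,7,8,11,10])) (.node 14 16 (.leaf [12,14,18,19,17]) (.leaf [13,15,16]))) (.free 1 [20,21,22]))), .t 9 (nat_lit 0xe490aed0934092f08ff08fc08e808e7) (.z (.node 2 4 (.edon 0 12 (.edon 5 9 (.leaf [5,7,8,11,10]) (.leaf [0,2,6,9])) (.node 12 19 (.leaf [12,20,22,21]) (.free 2 [13,14,15,16,17,18,19])))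 (.free 1 [1,3,4]))), .t 15 (nat_lit 0xe600e3b0e380e270e240e200e1f0aed0934092f08ff08fc08e808e7) (.z (.edon 0 20 (.edon 0 12 (.node 4 10 (.free 2 [0,1,2,3,4,6,9]) (.leaf [5,7,8,11,10])) (.node 14 16 (.leaf [12,14,17,19,18]) (.leaf [13,15,16]))) (.free 1 [20,21,22]))), .t 15 (nat_lit 0xe600e3b0e380e270e240e200e1f0aed0934092f08ff08fc08e808e7) (.z (.node 0 3 (.edon 0 12 (.node 6 10 (.leaf [0,4,6,9]) (.leaf [5,7,8,11,10])) (.node 14 16 (.edon 0 20 (.leaf [12,14,17,19,18]) (.leaf [20,21,22])) (.leaf [13,15,16]))) (.free 1 [1,2,3])))] (by decide +kernel) (by decide +kernel)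
theorem b143 : B 4576 4608 := Blk.of_chk [.t 12 (nat_lit 0xe600e3b0e380e270e240e200e1f065806560aed0ae8) (.z (.node 0 3 (.edon 0 12 (.edon 7 9 (.leaf [7,8,11,10]) (.leaf [0,4,5,6,9])) (.node 14 16 (.edon 0 20 (.leaf [12,14,17,19,18]) (.leaf [20,21,22])) (.leaf [13,15,16]))) (.free 1 [1,2,3]))), .t 6 (nat_lit 0xe49065806560aed0ae8) (.z (.node 0 3 (.edon 0 12 (.edon 7 9 (.leaf [7,8,11,10]) (.leaf [0,4,5,6,9])) (.node 12 19 (.leaf [12,20,22,21]) (.free 2 [13,14,15,16,17,18,19]))) (.free 1 [1,2,3]))), .t 15 (nat_lit 0xe1e0e1d0e1c0e3a0e390e260e250aed0934092f08ff08fc08e808e7) (.z (.node 0 3 (.edon 0 12 (.node 6 10 (.leaf [0,4,6,9]) (.leaf [5,7,8,11,10])) (.edon 0 20 (.node 14 16 (.leaf [12,14,18,19,17]) (.leaf [13,15,16])) (.leaf [20,21,22]))) (.free 1 [1,2,3]))), .t 12 (nat_lit 0xe1e0e1d0e1c0e3a0e390e260e25065806560aed0ae8) (.z (.node 0 3 (.edon 0 12 (.edon 7 9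 (.leaf [7,8,11,10]) (.leaf [0,4,5,6,9])) (.edon 0 20 (.node 14 16 (.leaf [12,14,18,19,17]) (.leaf [13,15,16])) (.leaf [20,21,22]))) (.free 1 [1,2,3]))), .t 15 (nat_lit 0xe1e0e1d0e1c0e3a0e390e260e250889088707d20634063305530550) (.z (.edon 0 20 (.edon 0 3 (.leaf [0,1,2]) (.edon 0 12 (.node 4 6 (.leaf [3,4,10,11,9]) (.leaf [5,7,8,6])) (.node 14 16 (.leaf [12,14,18,19,17]) (.leaf [13,15,16])))) (.free 1 [20,21,22]))), .t 7 (nat_lit 0xccc0cc708890887052e052d) (.z (.edon 0 16 (.node 2 4 (.node 12 13 (.leaf [0,2,12,14,15]) (.edon 0 9 (.leaf [5,7,8,6]) (.leaf [9,10,13,11]))) (.leaf [1,3,4])) (.free 2 [16,17,18,19,20,21,22]))), .t 9 (nat_lit 0xe490889088707d20634063305530550) (.z (.edon 0 3 (.free 1 [0,1,2]) (.edon 0 12 (.node 4 6 (.leaf [3,4,10,11,9]) (.leaf [5,7,8,6])) (.node 12 19 (.leaf [12,20,22,21]) (.free 2 [13,14,15,16,17,18,19]))))), .t 15 (nat_lit 0xe600e3b0e380e270e240e200e1f0889088707d20634063305530550)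 (.z (.edon 0 20 (.edon 0 3 (.leaf [0,1,2]) (.edon 0 12 (.node 4 6 (.leaf [3,4,10,11,9]) (.leaf [5,7,8,6])) (.node 14 16 (.leaf [12,14,17,19,18]) (.leaf [13,15,16])))) (.free 1 [20,21,22]))), .t 7 (nat_lit 0x3050056000500020db50db3) (.z (.edon 0 16 (.node 5 13 (.node 0 10 (.leaf [0,11,12,14,15]) (.node 3 8 (.leaf [1,3,6,10,2]) (.leaf [4,5,8]))) (.leaf [7,9,13])) (.free 2 [16,17,18,19,20,21,22]))), .t 1 (nat_lit 0) (.cn 1 3), .t 9 (nat_lit 0xc220c1d0e0a0e090305005600050002) (.z (.node 16 0 (.node 7 8 (.edon 4 6 (.leaf [4,5,7]) (.leaf [1,3,6,10,2])) (.node 12 13 (.leaf [12,14,15,16]) (.leaf [8,9,13,11]))) (.free 2 [0,17,18,19,20,21,22]))), .t 9 (nat_lit 0xdbd0dd00dcf0dc20dc00df30df20e6a) (.z (.node 0 7 (.edon 0 11 (.leaf [0,8,9,10]) (.node 14 16 (.node 18 19 (.leaf [18,20,22,21]) (.leaf [11,14,17,19,12])) (.leaf [13,15,16]))) (.free 2 [1,2,3,4,5,6,7]))), .t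 9 (nat_lit 0xdbd0dd00dcf0dc20dc00df30df20e6a) (.z (.node 0 7 (.edon 0 11 (.leaf [0,8,9,10]) (.node 11 16 (.node 18 19 (.leaf [18,20,22,21]) (.leaf [11,14,17,19,12])) (.leaf [13,15,16]))) (.free 2 [1,2,3,4,5,6,7]))), .t 1 (nat_lit 0) (.fa 4), .t 9 (nat_lit 0xde00def0dee0de40de300270df90df8) (.z (.node 1 13 (.node 0 10 (.node 12 17 (.free 2 [0,12,18,19,20,21,22]) (.leaf [11,15,16,17,14])) (.leaf [1,6,10,2])) (.free 2 [3,4,5,7,8,9,13]))), .t 7 (nat_lit 0xdda0dd70e6a0e490e470e46) (.z (.node 0 7 (.edon 0 11 (.leaf [0,8,9,10]) (.node 12 15 (.node 18 19 (.leaf [12,18,20,22,21]) (.leaf [16,17,19])) (.leaf [11,13,15,14]))) (.free 2 [1,2,3,4,5,6,7]))), .t 7 (nat_lit 0xdda0dd70e690e490e430e42) (.z (.node 0 7 (.edon 0 11 (.leaf [0,8,9,10]) (.node 12 15 (.node 17 19 (.leaf [12,17,20,22,21]) (.leaf [16,18,19])) (.leaf [11,13,15,14]))) (.free 2 [1,2,3,4,5,6,7]))), .t 5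 (nat_lit 0xe690e490e430e42) (.z (.node 0 7 (.edon 0 11 (.leaf [0,8,9,10]) (.node 12 19 (.leaf [12,17,20,22,21]) (.free 2 [11,13,14,15,16,18,19]))) (.free 2 [1,2,3,4,5,6,7]))), .t 9 (nat_lit 0xe3d0e3a0e3900270de20de00e440e3e) (.z (.node 1 13 (.node 0 10 (.node 0 20 (.leaf [0,21,22]) (.node 12 16 (.leaf [12,18,19,20,17]) (.leaf [11,15,16,14]))) (.leaf [1,6,10,2])) (.free 2 [3,4,5,7,8,9,13]))), .t 9 (nat_lit 0xdbe0dd30dd20dc20dc00df60df50e69) (.z (.node 0 7 (.edon 0 11 (.leaf [0,8,9,10]) (.node 14 16 (.node 17 19 (.leaf [17,20,22,21]) (.leaf [11,14,18,19,12])) (.leaf [13,15,16]))) (.free 2 [1,2,3,4,5,6,7]))), .t 12 (nat_lit 0xe1e0e1d0e1c0e3a0e390e260e2503a903a808f508f4) (.z (.edon 0 20 (.edon 0 12 (.node 2 4 (.edon 5 8 (.leaf [5,7,9,11]) (.leaf [0,2,6,8,10])) (.leaf [1,3,4])) (.node 14 16 (.leaf [12,14,18,19,17]) (.leaf [13,15,16]))) (.free 1 [20,21,22]))),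 .t 1 (nat_lit 0) (.cn 3 2), .t 6 (nat_lit 0xe4903a903a808f508f4) (.z (.node 2 4 (.edon 0 12 (.edon 5 8 (.leaf [5,7,9,11]) (.leaf [0,2,6,8,10])) (.node 12 19 (.leaf [12,20,22,21]) (.free 2 [13,14,15,16,17,18,19]))) (.free 1 [1,3,4]))), .t 12 (nat_lit 0xe600e3b0e380e270e240e200e1f03a903a808f508f4) (.z (.edon 0 20 (.edon 0 12 (.node 2 4 (.edon 5 8 (.leaf [5,7,9,11]) (.leaf [0,2,6,8,10])) (.leaf [1,3,4])) (.node 14 16 (.leaf [12,14,17,19,18]) (.leaf [13,15,16]))) (.free 1 [20,21,22]))), .t 9 (nat_lit 0xc220c1d0e0a0e090302005000050001) (.z (.node 16 0 (.node 7 8 (.edon 4 5 (.leaf [4,6,7]) (.leaf [1,3,5,10,2])) (.node 12 13 (.leaf [12,14,15,16]) (.leaf [8,9,13,11]))) (.free 2 [0,17,18,19,20,21,22]))), .t 12 (nat_lit 0xe600e3b0e380e270e240e200e1f034103400a030a02) (.z (.edon 0 20 (.edon 0 12 (.node 2 4 (.edon 6 8 (.leaf [6,7,9,11]) (.leaf [0,2,5,8,10])) (.leaf [1,3,4]))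 (.node 14 16 (.leaf [12,14,17,19,18]) (.leaf [13,15,16]))) (.free 1 [20,21,22]))), .t 9 (nat_lit 0xde00def0dee0de40de3001f0df90df8) (.z (.node 1 13 (.node 0 10 (.node 12 17 (.free 2 [0,12,18,19,20,21,22]) (.leaf [11,15,16,17,14])) (.leaf [1,5,10,2])) (.free 2 [3,4,6,7,8,9,13]))), .t 9 (nat_lit 0xe3d0e3a0e39001f0de20de00e440e3e) (.z (.node 1 13 (.node 0 10 (.node 0 20 (.leaf [0,21,22]) (.node 12 16 (.leaf [12,18,19,20,17]) (.leaf [11,15,16,14]))) (.leaf [1,5,10,2])) (.free 2 [3,4,6,7,8,9,13]))), .t 12 (nat_lit 0xe1e0e1d0e1c0e3a0e390e260e25034103400a030a02) (.z (.edon 0 20 (.edon 0 12 (.node 2 4 (.edon 6 8 (.leaf [6,7,9,11]) (.leaf [0,2,5,8,10])) (.leaf [1,3,4])) (.node 14 16 (.leaf [12,14,18,19,17]) (.leaf [13,15,16]))) (.free 1 [20,21,22]))), .t 8 (nat_lit 0x88a0889088708e108de089d089b) (.z (.node 2 4 (.edon 8 13 (.leaf [5,7,9,8,6]) (.free 4 [0,2,10,11,12,13,14,15,16,17,18,19,20,21,22]))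 (.free 1 [1,3,4]))), .t 8 (nat_lit 0x3ac0a400a3e042f042d03a903a8) (.z (.edon 1 13 (.free 2 [1,3,4,5,7,9,12]) (.edon 0 13 (.leaf [0,2,6,8,10,11]) (.free 3 [13,14,15,16,17,18,19,20,21,22])))), .t 15 (nat_lit 0xe600e3b0e380e270e240e200e1f0653055d055a053a05300b370b33) (.z (.edon 0 20 (.edon 0 3 (.leaf [0,1,2]) (.edon 0 12 (.edon 7 8 (.leaf [7,9,11,10]) (.leaf [3,4,5,8,6])) (.node 14 16 (.leaf [12,14,17,19,18]) (.leaf [13,15,16])))) (.free 1 [20,21,22])))] (by decide +kernel) (by decide +kernel)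
theorem b144 : B 4608 4640 := Blk.of_chk [.t 15 (nat_lit 0xe1e0e1d0e1c0e3a0e390e260e250653055d055a053a05300b370b33) (.z (.edon 0 20 (.edon 0 3 (.leaf [0,1,2]) (.edon 0 12 (.edon 7 8 (.leaf [7,9,11,10]) (.leaf [3,4,5,8,6])) (.node 14 16 (.leaf [12,14,18,19,17]) (.leaf [13,15,16])))) (.free 1 [20,21,22]))), .t 5 (nat_lit 0xd3f0d3e0c540c52) (.z (.node 0 7 (.edon 0 16 (.node 11 15 (.leaf [0,8,10,11,12]) (.leaf [9,13,15,14])) (.free 2 [16,17,18,19,20,21,22])) (.free 2 [1,2,3,4,5,6,7]))), .t 9 (nat_lit 0xdb20dc70dc50dba0db800320de20de1) (.z (.node 1 13 (.node 0 10 (.node 0 16 (.free 2 [0,17,18,19,20,21,22]) (.leaf [11,14,15,16,12])) (.leaf [1,10,8,2])) (.free 2 [3,4,5,6,7,9,13]))), .t 9 (nat_lit 0xe0e00320e570e560e2c0e2b0e0a0e09) (.z (.node 1 13 (.node 0 10 (.edon 12 19 (.leaf [12,14,15,16,18]) (.free 2 [0,11,17,19,20,21,22])) (.leaf [1,10,8,2])) (.free 2 [3,4,5,6,7,9,13]))),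 .t 9 (nat_lit 0xe3d0e3a0e3900320de20de00e440e3e) (.z (.node 1 13 (.node 0 10 (.node 0 20 (.leaf [0,21,22]) (.node 12 16 (.leaf [12,18,19,20,17]) (.leaf [11,15,16,14]))) (.leaf [1,10,8,2])) (.free 2 [3,4,5,6,7,9,13]))), .t 6 (nat_lit 0x42f01c201bf003e0033) (.z (.edon 0 16 (.node 1 13 (.node 0 11 (.leaf [0,12,14,15]) (.leaf [1,10,11,8,2])) (.free 2 [3,4,5,6,7,9,13])) (.free 2 [16,17,18,19,20,21,22]))), .t 15 (nat_lit 0xe600e3b0e380e270e240e200e1f0652055c055b053a05300b370b33) (.z (.edon 0 20 (.edon 0 3 (.leaf [0,1,2]) (.edon 0 12 (.edon 7 8 (.leaf [7,9,11,10]) (.leaf [3,4,6,8,5])) (.node 14 16 (.leaf [12,14,17,19,18]) (.leaf [13,15,16])))) (.free 1 [20,21,22]))), .t 15 (nat_lit 0x88f0e600e3b0e380e270e240e200e1f09ff09fe08f108f0088c088b) (.z (.edon 0 20 (.edon 0 12 (.node 2 4 (.node 2 10 (.leaf [0,2,8,11]) (.leaf [5,6,7,9,10])) (.leaf [1,3,4])) (.node 14 16 (.leaf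 [12,14,17,19,18]) (.leaf [13,15,16]))) (.free 1 [20,21,22]))), .t 10 (nat_lit 0xe600e3b0e380e270e240e200e1f042f042d) (.z (.edon 0 20 (.edon 1 13 (.free 2 [1,3,4,5,6,7,9]) (.edon 0 12 (.leaf [0,2,8,10,11]) (.node 14 16 (.leaf [12,14,17,19,18]) (.leaf [13,15,16])))) (.free 1 [20,21,22]))), .t 4 (nat_lit 0xe49042f042d) (.z (.edon 13 1 (.edon 0 12 (.leaf [0,2,8,10,11]) (.node 12 19 (.leaf [12,20,22,21]) (.free 2 [13,14,15,16,17,18,19]))) (.free 2 [1,3,4,5,6,7,9]))), .t 10 (nat_lit 0xe1e0e1d0e1c0e3a0e390e260e25042f042d) (.z (.edon 0 20 (.edon 1 13 (.free 2 [1,3,4,5,6,7,9]) (.edon 0 12 (.leaf [0,2,8,10,11]) (.node 14 16 (.leaf [12,14,18,19,17]) (.leaf [13,15,16])))) (.free 1 [20,21,22]))), .t 10 (nat_lit 0xdb20dc70dc50dba0db80c0a0c050de20de1) (.z (.node 0 7 (.node 0 16 (.free 2 [0,17,18,19,20,21,22]) (.node 11 13 (.leaf [11,14,15,16,12]) (.leaf [8,9,13,10]))) (.free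 2 [1,2,3,4,5,6,7]))), .t 10 (nat_lit 0xe1e0e1d0e1c0e3a0e390e260e2503cd03cc) (.z (.edon 0 20 (.edon 0 12 (.edon 1 10 (.free 2 [1,3,4,5,7,8,9]) (.leaf [0,2,6,10,11])) (.node 14 16 (.leaf [12,14,18,19,17]) (.leaf [13,15,16]))) (.free 1 [20,21,22]))), .t 10 (nat_lit 0xe1e0e1d0e1c0e3a0e390e260e2503670365) (.z (.edon 0 20 (.edon 0 12 (.edon 1 10 (.free 2 [1,3,4,6,7,8,9]) (.leaf [0,2,5,10,11])) (.node 14 16 (.leaf [12,14,18,19,17]) (.leaf [13,15,16]))) (.free 1 [20,21,22]))), .t 10 (nat_lit 0xe600e3b0e380e270e240e200e1f03670365) (.z (.edon 0 20 (.edon 0 12 (.edon 1 10 (.free 2 [1,3,4,6,7,8,9]) (.leaf [0,2,5,10,11])) (.node 14 16 (.leaf [12,14,17,19,18]) (.leaf [13,15,16]))) (.free 1 [20,21,22]))), .t 15 (nat_lit 0xe600e3b0e380e270e240e200e1f0bfa0b360b340aec0ae90ad50ad3) (.z (.edon 0 20 (.edon 0 7 (.free 2 [0,1,2,3,4,5,6]) (.edon 0 12 (.leaf [7,10,11,9,8]) (.node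 14 16 (.leaf [12,14,17,19,18]) (.leaf [13,15,16])))) (.free 1 [20,21,22]))), .t 12 (nat_lit 0xe600e3b0e380e270e240e200e1f03a603a508fe08fd) (.z (.edon 0 20 (.edon 0 12 (.node 2 4 (.edon 5 8 (.leaf [5,7,10,11]) (.leaf [0,2,6,8,9])) (.leaf [1,3,4])) (.node 14 16 (.leaf [12,14,17,19,18]) (.leaf [13,15,16]))) (.free 1 [20,21,22]))), .t 7 (nat_lit 0x30400550004000206860684) (.z (.edon 0 16 (.node 5 13 (.node 0 11 (.leaf [0,12,14,15]) (.edon 4 6 (.leaf [4,5,8,11]) (.leaf [1,3,6,9,2]))) (.leaf [7,10,13])) (.free 2 [16,17,18,19,20,21,22]))), .t 15 (nat_lit 0xe600e3b0e380e270e240e200e1f08e508e2071f05d805d60550053f) (.z (.edon 0 20 (.edon 0 3 (.leaf [0,1,2]) (.edon 0 12 (.node 4 8 (.leaf [3,4,6,11,9]) (.leaf [5,7,10,8])) (.node 14 16 (.leaf [12,14,17,19,18]) (.leaf [13,15,16])))) (.free 1 [20,21,22]))), .t 6 (nat_lit 0x3be03bd014d014b0025) (.z (.edon 0 16 (.node 1 13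 (.node 0 11 (.leaf [0,12,14,15]) (.leaf [1,6,9,11,2])) (.free 2 [3,4,5,7,8,10,13])) (.free 2 [16,17,18,19,20,21,22]))), .t 7 (nat_lit 0xe490dfd0dd60dd503a603a5) (.z (.node 2 4 (.edon 0 11 (.node 8 10 (.leaf [0,2,6,8,9]) (.leaf [5,7,10])) (.node 12 19 (.leaf [11,12,20,22,21]) (.free 2 [13,14,15,16,17,18,19]))) (.free 1 [1,3,4]))), .t 9 (nat_lit 0xe4908e508e2071f05d805d60550053f) (.z (.edon 0 3 (.free 1 [0,1,2]) (.edon 0 12 (.node 4 8 (.leaf [3,4,6,11,9]) (.leaf [5,7,10,8])) (.node 12 19 (.leaf [12,20,22,21]) (.free 2 [13,14,15,16,17,18,19]))))), .t 9 (nat_lit 0x8e608e508e20e490933093008fe08fd) (.z (.node 2 4 (.edon 0 12 (.node 6 11 (.leaf [0,2,6,9]) (.leaf [5,7,10,11,8])) (.node 12 19 (.leaf [12,20,22,21]) (.free 2 [13,14,15,16,17,18,19]))) (.free 1 [1,3,4]))), .t 15 (nat_lit 0xe1e0e1d0e1c08e608e508e20e3a0e390e260e250933093008fe08fd) (.z (.edon 0 20 (.edon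 0 12 (.node 2 4 (.node 6 11 (.leaf [0,2,6,9]) (.leaf [5,7,10,11,8])) (.leaf [1,3,4])) (.node 14 16 (.leaf [12,14,18,19,17]) (.leaf [13,15,16]))) (.free 1 [20,21,22]))), .t 15 (nat_lit 0xe1e0e1d0e1c0e3a0e390e260e2508e508e2071f05d805d60550053f) (.z (.edon 0 20 (.edon 0 3 (.leaf [0,1,2]) (.edon 0 12 (.node 4 8 (.leaf [3,4,6,11,9]) (.leaf [5,7,10,8])) (.node 14 16 (.leaf [12,14,18,19,17]) (.leaf [13,15,16])))) (.free 1 [20,21,22]))), .t 9 (nat_lit 0x2091d0781077d06a4069f06860684) (.z (.edon 0 16 (.node 5 13 (.node 0 11 (.leaf [0,12,14,15]) (.edon 4 6 (.leaf [4,5,8,11,9]) (.leaf [1,3,6,2]))) (.leaf [7,10,13])) (.free 2 [16,17,18,19,20,21,22]))), .t 6 (nat_lit 0xe4908e508e203be03bd) (.z (.node 2 4 (.edon 0 12 (.node 6 10 (.leaf [0,2,6,9,11]) (.leaf [5,7,10,8])) (.node 12 19 (.leaf [12,20,22,21]) (.free 2 [13,14,15,16,17,18,19]))) (.free 1 [1,3,4]))), .t 12 (nat_lit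 0xe600e3b0e380e270e240e200e1f08e508e203be03bd) (.z (.edon 0 20 (.edon 0 12 (.node 2 4 (.node 6 10 (.leaf [0,2,6,9,11]) (.leaf [5,7,10,8])) (.leaf [1,3,4])) (.node 14 16 (.leaf [12,14,17,19,18]) (.leaf [13,15,16]))) (.free 1 [20,21,22]))), .t 15 (nat_lit 0xe600e3b0e380e270e240e200e1f0653055d055a053a05300b360b34) (.z (.edon 0 20 (.edon 0 3 (.leaf [0,1,2]) (.edon 0 12 (.edon 7 8 (.leaf [7,10,11,9]) (.leaf [3,4,5,8,6])) (.node 14 16 (.leaf [12,14,17,19,18]) (.leaf [13,15,16])))) (.free 1 [20,21,22]))), .t 9 (nat_lit 0x8f308f208ef0e490959095608fe08fd) (.z (.node 2 4 (.edon 0 12 (.edon 5 8 (.leaf [5,7,10,11,9]) (.leaf [0,2,6,8])) (.node 12 19 (.leaf [12,20,22,21]) (.free 2 [13,14,15,16,17,18,19]))) (.free 1 [1,3,4]))), .t 6 (nat_lit 0xe4903a603a508fe08fd) (.z (.node 2 4 (.edon 0 12 (.edon 5 8 (.leaf [5,7,10,11]) (.leaf [0,2,6,8,9])) (.node 12 19 (.leaf [12,20,22,21])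 (.free 2 [13,14,15,16,17,18,19]))) (.free 1 [1,3,4]))), .t 15 (nat_lit 0xe1e0e1d0e1c08e608e508e20e3a0e390e260e250933093008fe08fd) (.z (.edon 0 20 (.edon 0 12 (.node 2 4 (.node 6 8 (.leaf [0,2,6,9]) (.leaf [5,7,10,11,8])) (.leaf [1,3,4])) (.node 14 16 (.leaf [12,14,18,19,17]) (.leaf [13,15,16]))) (.free 1 [20,21,22])))] (by decide +kernel) (by decide +kernel)
theorem b145 : B 4640 4672 := Blk.of_chk [.t 15 (nat_lit 0xe1e0e1d0e1c0e3a0e390e260e250653055d055a053a05300b360b34) (.z (.edon 0 20 (.edon 0 3 (.leaf [0,1,2]) (.edon 0 12 (.edon 7 8 (.leaf [7,10,11,9]) (.leaf [3,4,5,8,6])) (.node 14 16 (.leaf [12,14,18,19,17]) (.leaf [13,15,16])))) (.free 1 [20,21,22]))), .t 10 (nat_lit 0xe1e0e1d0e1c0e3a0e390e260e2503a603a5) (.z (.edon 0 20 (.edon 0 12 (.edon 1 8 (.free 2 [1,3,4,5,7,10,11]) (.leaf [0,2,6,8,9])) (.node 14 16 (.leaf [12,14,18,19,17]) (.leaf [13,15,16])))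 (.free 1 [20,21,22]))), .t 12 (nat_lit 0xe1e0e1d0e1c0e3a0e390e260e2508e508e203be03bd) (.z (.edon 0 20 (.edon 0 12 (.node 2 4 (.node 6 10 (.leaf [0,2,6,9,11]) (.leaf [5,7,10,8])) (.leaf [1,3,4])) (.node 14 16 (.leaf [12,14,18,19,17]) (.leaf [13,15,16]))) (.free 1 [20,21,22]))), .t 10 (nat_lit 0xe1e0e1d0e1c0e3a0e390e260e250bfa0bf8) (.z (.node 0 7 (.edon 0 12 (.leaf [0,8,9,10,11]) (.edon 0 20 (.node 14 16 (.leaf [12,14,18,19,17]) (.leaf [13,15,16])) (.leaf [20,21,22]))) (.free 2 [1,2,3,4,5,6,7]))), .t 15 (nat_lit 0xe1e0e1d0e1c088d088c088a0e3a0e390e260e2508f208ef08b508b3) (.z (.edon 0 20 (.edon 0 12 (.node 2 4 (.node 2 9 (.leaf [0,2,8,11]) (.leaf [5,7,10,9,6])) (.leaf [1,3,4])) (.node 14 16 (.leaf [12,14,18,19,17]) (.leaf [13,15,16]))) (.free 1 [20,21,22]))), .t 12 (nat_lit 0xe1e0e1d0e1c0e3a0e390e260e25041b0419088f088d) (.z (.edon 0 20 (.edon 0 12 (.node 2 4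 (.edon 6 9 (.leaf [5,7,10,6]) (.leaf [0,2,8,9,11])) (.leaf [1,3,4])) (.node 14 16 (.leaf [12,14,18,19,17]) (.leaf [13,15,16]))) (.free 1 [20,21,22]))), .t 15 (nat_lit 0xe1e0e1d0e1c088d088908870e3a0e390e260e2508e508e208a408a2) (.z (.edon 0 20 (.edon 0 12 (.node 2 4 (.node 2 8 (.leaf [0,2,9,11]) (.leaf [5,7,10,8,6])) (.leaf [1,3,4])) (.node 14 16 (.leaf [12,14,18,19,17]) (.leaf [13,15,16]))) (.free 1 [20,21,22]))), .t 1 (nat_lit 0) (.fa 3), .t 15 (nat_lit 0xe1e0e1d0e1c0e3a0e390e260e2508e508e2071f071d05d805d7053b) (.z (.edon 0 20 (.edon 0 3 (.leaf [0,1,2]) (.edon 0 12 (.node 4 8 (.leaf [3,4,11,9,6]) (.leaf [5,7,10,8])) (.node 14 16 (.leaf [12,14,18,19,17]) (.leaf [13,15,16])))) (.free 1 [20,21,22]))), .t 15 (nat_lit 0xe1e0e1d0e1c0e3a0e390e260e2508f208ef0705070305c605c4053a) (.z (.edon 0 20 (.edon 0 3 (.leaf [0,1,2]) (.edon 0 12 (.node 4 9 (.leaf [3,4,11,8,6])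 (.leaf [5,7,10,9])) (.node 14 16 (.leaf [12,14,18,19,17]) (.leaf [13,15,16])))) (.free 1 [20,21,22]))), .t 10 (nat_lit 0xe1e0e1d0e1c0e3a0e390e260e2503ac03ab) (.z (.edon 0 20 (.edon 0 12 (.node 2 9 (.leaf [0,2,6,8,11]) (.free 2 [1,3,4,5,7,9,10])) (.node 14 16 (.leaf [12,14,18,19,17]) (.leaf [13,15,16]))) (.free 1 [20,21,22]))), .t 12 (nat_lit 0x9ec0a0009fd09f309f00e490dfd0dd60dd50a260a24) (.z (.node 0 2 (.edon 0 6 (.leaf [0,3,4,5]) (.edon 0 11 (.leaf [6,7,10,9,8]) (.node 12 19 (.leaf [11,12,20,22,21]) (.free 2 [13,14,15,16,17,18,19])))) (.free 1 [1,2]))), .t 9 (nat_lit 0x88d088c088a0e4908f208ef08b508b3) (.z (.node 2 4 (.edon 0 12 (.node 2 9 (.leaf [0,2,8,11]) (.leaf [5,7,10,9,6])) (.node 12 19 (.leaf [12,20,22,21]) (.free 2 [13,14,15,16,17,18,19]))) (.free 1 [1,3,4]))), .t 4 (nat_lit 0xe490bfa0bf8) (.z (.node 0 7 (.edon 0 12 (.leaf [0,8,9,10,11]) (.node 12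 19 (.leaf [12,20,22,21]) (.free 2 [13,14,15,16,17,18,19]))) (.free 2 [1,2,3,4,5,6,7]))), .t 6 (nat_lit 0x41b019f019c00380033) (.z (.edon 0 16 (.node 1 13 (.node 0 11 (.leaf [0,12,14,15]) (.leaf [1,9,11,8,2])) (.free 2 [3,4,5,6,7,10,13])) (.free 2 [16,17,18,19,20,21,22]))), .t 4 (nat_lit 0xdfd03a603a5) (.z (.edon 13 1 (.edon 0 11 (.leaf [0,2,6,8,9]) (.node 11 19 (.leaf [11,20,22,21]) (.free 2 [13,14,15,16,17,18,19]))) (.free 2 [1,3,4,5,7,10,12]))), .t 15 (nat_lit 0xe600e3b0e380e270e240e200e1f08f208ef0705070305c605c4053a) (.z (.edon 0 20 (.edon 0 3 (.leaf [0,1,2]) (.edon 0 12 (.node 4 9 (.leaf [3,4,11,8,6]) (.leaf [5,7,10,9])) (.node 14 16 (.leaf [12,14,17,19,18]) (.leaf [13,15,16])))) (.free 1 [20,21,22]))), .t 12 (nat_lit 0xe600e3b0e380e270e240e200e1f03ac03ab08f208ef) (.z (.edon 0 20 (.edon 0 12 (.node 2 4 (.edon 5 11 (.leaf [5,7,10,9]) (.leaf [0,2,6,8,11]))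 (.leaf [1,3,4])) (.node 14 16 (.leaf [12,14,17,19,18]) (.leaf [13,15,16]))) (.free 1 [20,21,22]))), .t 12 (nat_lit 0xe600e3b0e380e270e240e200e1f03ac03ab08f208ef) (.z (.edon 0 20 (.edon 0 12 (.node 2 4 (.edon 5 8 (.leaf [5,7,10,9]) (.leaf [0,2,6,8,11])) (.leaf [1,3,4])) (.node 14 16 (.leaf [12,14,17,19,18]) (.leaf [13,15,16]))) (.free 1 [20,21,22]))), .t 10 (nat_lit 0xe600dfc0dfb0df70df40df30df203a603a5) (.z (.edon 0 20 (.edon 1 13 (.free 2 [1,3,4,5,7,10,12]) (.edon 0 11 (.leaf [0,2,6,8,9]) (.node 14 16 (.leaf [11,14,17,19,18]) (.leaf [13,15,16])))) (.free 1 [20,21,22]))), .t 12 (nat_lit 0xe600e3b0e380e270e240e200e1f08f108f003ac03ab) (.z (.edon 0 20 (.edon 0 12 (.node 2 4 (.node 8 10 (.leaf [0,2,6,8,11]) (.leaf [5,7,9,10])) (.leaf [1,3,4])) (.node 14 16 (.leaf [12,14,17,19,18]) (.leaf [13,15,16]))) (.free 1 [20,21,22]))), .t 15 (nat_lit 0xe600e3b0e380e270e240e200e1f08f108f00705070305c605c4053a)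 (.z (.edon 0 20 (.edon 0 3 (.leaf [0,1,2]) (.edon 0 12 (.node 4 10 (.leaf [3,4,11,8,6]) (.leaf [5,7,9,10])) (.node 14 16 (.leaf [12,14,17,19,18]) (.leaf [13,15,16])))) (.free 1 [20,21,22]))), .t 1 (nat_lit 0) (.cn 2 2), .t 12 (nat_lit 0xe600e3b0e380e270e240e200e1f08f108f003ac03ab) (.z (.edon 0 20 (.edon 0 12 (.node 4 10 (.node 2 4 (.leaf [0,2,6,8,11]) (.leaf [1,3,4])) (.leaf [5,7,9,10])) (.node 14 16 (.leaf [12,14,17,19,18]) (.leaf [13,15,16]))) (.free 1 [20,21,22]))), .t 9 (nat_lit 0xe490653055d055a053a05300b370b33) (.z (.edon 0 3 (.free 1 [0,1,2]) (.edon 0 12 (.edon 7 8 (.leaf [7,9,11,10]) (.leaf [3,4,5,8,6])) (.node 12 19 (.leaf [12,20,22,21]) (.free 2 [13,14,15,16,17,18,19]))))), .t 13 (nat_lit 0xdb20dc70dc50dba0db8068105740570054a05330de20de1) (.z (.node 5 13 (.node 0 10 (.node 0 16 (.free 2 [0,17,18,19,20,21,22]) (.leaf [11,14,15,16,12])) (.edon 3 6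 (.leaf [3,4,5,10,8]) (.leaf [1,2,6]))) (.free 1 [7,9,13]))), .t 6 (nat_lit 0xe4908f208ef03ac03ab) (.z (.node 2 4 (.edon 0 12 (.node 2 9 (.leaf [0,2,6,8,11]) (.leaf [5,7,10,9])) (.node 12 19 (.leaf [12,20,22,21]) (.free 2 [13,14,15,16,17,18,19]))) (.free 1 [1,3,4]))), .t 9 (nat_lit 0xe4908f208ef0705070305c605c4053a) (.z (.edon 0 3 (.free 1 [0,1,2]) (.edon 0 12 (.node 4 9 (.leaf [3,4,11,8,6]) (.leaf [5,7,10,9])) (.node 12 19 (.leaf [12,20,22,21]) (.free 2 [13,14,15,16,17,18,19]))))), .t 10 (nat_lit 0xe1e0e1d0e1c0e3a0e390e260e2503ac03ab) (.z (.edon 0 20 (.edon 1 13 (.free 2 [1,3,4,5,7,9,10]) (.edon 0 12 (.leaf [0,2,6,8,11]) (.node 14 16 (.leaf [12,14,18,19,17]) (.leaf [13,15,16])))) (.free 1 [20,21,22]))), .t 15 (nat_lit 0xe1e0e1d0e1c0e3a0e390e260e2508f108f00705070305c605c4053a) (.z (.edon 0 20 (.edon 0 3 (.leaf [0,1,2]) (.edon 0 12 (.node 4 10 (.leaf [3,4,11,8,6])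 (.leaf [5,7,9,10])) (.node 14 16 (.leaf [12,14,18,19,17]) (.leaf [13,15,16])))) (.free 1 [20,21,22]))), .t 8 (nat_lit 0x9f308e508e208a4089f088f088e) (.z (.node 2 4 (.node 2 10 (.free 4 [0,2,9,11,12,13,14,15,16,17,18,19,20,21,22]) (.leaf [5,6,7,10,8])) (.free 1 [1,3,4]))), .t 15 (nat_lit 0xe1e0e1d0e1c0e3a0e390e260e2509f308e508e208a4089f088f088e) (.z (.edon 0 20 (.edon 0 12 (.node 2 4 (.node 2 8 (.leaf [0,2,9,11]) (.leaf [5,6,7,10,8])) (.leaf [1,3,4])) (.node 14 16 (.leaf [12,14,18,19,17]) (.leaf [13,15,16]))) (.free 1 [20,21,22])))] (by decide +kernel) (by decide +kernel)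
theorem b146 : B 4672 4704 := Blk.of_chk [.t 15 (nat_lit 0xe1e0e1d0e1c0e3a0e390e260e250a0008f208ef08b508b0088f088e) (.z (.edon 0 20 (.edon 0 12 (.edon 1 8 (.edon 0 5 (.leaf [1,3,4]) (.leaf [5,6,7,10,9])) (.leaf [0,2,8,11])) (.node 14 16 (.leaf [12,14,18,19,17]) (.leaf [13,15,16]))) (.free 1 [20,21,22]))), .t 15 (nat_lit 0xe1e0e1d0e1c0e3a0e390e260e250652055c055b053a05300b360b34) (.z (.edon 0 20 (.edon 0 3 (.leaf [0,1,2]) (.edon 0 12 (.edon 7 8 (.leaf [7,10,11,9]) (.leaf [3,4,6,8,5])) (.node 14 16 (.leaf [12,14,18,19,17]) (.leaf [13,15,16])))) (.free 1 [20,21,22]))), .t 12 (nat_lit 0xe1e0e1d0e1c0e3a0e390e260e25033e033d0a0b0a0a) (.z (.edon 0 20 (.edon 0 12 (.node 2 4 (.edon 6 8 (.leaf [6,7,10,11]) (.leaf [0,2,5,8,9])) (.leaf [1,3,4])) (.node 14 16 (.leaf [12,14,18,19,17]) (.leaf [13,15,16]))) (.free 1 [20,21,22]))), .t 9 (nat_lit 0x10a2d0781077d071f071b07040702)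 (.z (.edon 0 16 (.node 6 13 (.node 0 11 (.leaf [0,12,14,15]) (.edon 4 5 (.leaf [4,6,8,11,9]) (.leaf [1,3,5,2]))) (.leaf [7,10,13])) (.free 2 [16,17,18,19,20,21,22]))), .t 10 (nat_lit 0xe1e0e1d0e1c0e3a0e390e260e2503550354) (.z (.edon 0 20 (.edon 0 12 (.edon 1 9 (.free 2 [1,3,4,6,7,8,10]) (.leaf [0,2,5,9,11])) (.node 14 16 (.leaf [12,14,18,19,17]) (.leaf [13,15,16]))) (.free 1 [20,21,22]))), .t 6 (nat_lit 0xe4909f309f003550354) (.z (.node 2 4 (.edon 0 12 (.node 5 10 (.leaf [0,2,5,9,11]) (.leaf [6,7,10,8])) (.node 12 19 (.leaf [12,20,22,21]) (.free 2 [13,14,15,16,17,18,19]))) (.free 1 [1,3,4]))), .t 9 (nat_lit 0x9f409f309f00e490a400a3d0a0b0a0a) (.z (.node 2 4 (.edon 0 12 (.node 5 11 (.leaf [0,2,5,9]) (.leaf [6,7,10,11,8])) (.node 12 19 (.leaf [12,20,22,21]) (.free 2 [13,14,15,16,17,18,19]))) (.free 1 [1,3,4]))), .t 9 (nat_lit 0xa010a0009fd0e490a6f0a6c0a0b0a0a)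 (.z (.node 2 4 (.edon 0 12 (.edon 6 8 (.leaf [6,7,10,11,9]) (.leaf [0,2,5,8])) (.node 12 19 (.leaf [12,20,22,21]) (.free 2 [13,14,15,16,17,18,19]))) (.free 1 [1,3,4]))), .t 9 (nat_lit 0xe490a0008f208ef08b508b0088f088e) (.z (.node 2 4 (.edon 0 12 (.node 2 9 (.leaf [0,2,8,11]) (.leaf [5,6,7,10,9])) (.node 12 19 (.leaf [12,20,22,21]) (.free 2 [13,14,15,16,17,18,19]))) (.free 1 [1,3,4]))), .t 4 (nat_lit 0xe49041b0419) (.z (.edon 13 1 (.edon 0 12 (.leaf [0,2,8,9,11]) (.node 12 19 (.leaf [12,20,22,21]) (.free 2 [13,14,15,16,17,18,19]))) (.free 2 [1,3,4,5,6,7,10]))), .t 6 (nat_lit 0xe49033e033d0a0b0a0a) (.z (.node 2 4 (.edon 0 12 (.edon 6 8 (.leaf [6,7,10,11]) (.leaf [0,2,5,8,9])) (.node 12 19 (.leaf [12,20,22,21]) (.free 2 [13,14,15,16,17,18,19]))) (.free 1 [1,3,4]))), .t 12 (nat_lit 0xe600e3b0e380e270e240e200e1f033e033d0a0b0a0a) (.z (.edon 0 20 (.edon 0 12 (.node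 2 4 (.edon 6 8 (.leaf [6,7,10,11]) (.leaf [0,2,5,8,9])) (.leaf [1,3,4])) (.node 14 16 (.leaf [12,14,17,19,18]) (.leaf [13,15,16]))) (.free 1 [20,21,22]))), .t 10 (nat_lit 0xe600e3b0e380e270e240e200e1f041b0419) (.z (.edon 0 20 (.edon 1 13 (.free 2 [1,3,4,5,6,7,10]) (.edon 0 12 (.leaf [0,2,8,9,11]) (.node 14 16 (.leaf [12,14,17,19,18]) (.leaf [13,15,16])))) (.free 1 [20,21,22]))), .t 10 (nat_lit 0xe600e3b0e380e270e240e200e1f03550354) (.z (.edon 0 20 (.edon 0 12 (.edon 1 9 (.free 2 [1,3,4,6,7,8,10]) (.leaf [0,2,5,9,11])) (.node 14 16 (.leaf [12,14,17,19,18]) (.leaf [13,15,16]))) (.free 1 [20,21,22]))), .t 10 (nat_lit 0xe600e3b0e380e270e240e200e1f0bfa0bf8) (.z (.node 0 7 (.edon 0 12 (.leaf [0,8,9,10,11]) (.edon 0 20 (.node 14 16 (.leaf [12,14,17,19,18]) (.leaf [13,15,16])) (.leaf [20,21,22]))) (.free 2 [1,2,3,4,5,6,7]))), .t 15 (nat_lit 0xe600e3b0e380e270e240e200e1f0a0008f208ef08b508b0088f088e)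 (.z (.edon 0 20 (.edon 0 12 (.node 2 4 (.node 2 9 (.leaf [0,2,8,11]) (.leaf [5,6,7,10,9])) (.leaf [1,3,4])) (.node 14 16 (.leaf [12,14,17,19,18]) (.leaf [13,15,16]))) (.free 1 [20,21,22]))), .r 3 (nat_lit 0x2b0080), .r 3 (nat_lit 0x2c0081), .r 3 (nat_lit 0x2d0082), .r 3 (nat_lit 0x2e0083), .r 3 (nat_lit 0x2f0084), .r 3 (nat_lit 0x300086), .r 3 (nat_lit 0x17e0081), .r 3 (nat_lit 0x17f0082), .r 3 (nat_lit 0x1800083), .r 3 (nat_lit 0x1810084), .r 3 (nat_lit 0x1820082), .r 3 (nat_lit 0x1830083), .r 3 (nat_lit 0x1840081), .r 3 (nat_lit 0x1850084), .r 3 (nat_lit 0x1860085), .r 3 (nat_lit 0x1870083)] (by decide +kernel) (by decide +kernel)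
theorem b147 : B 4704 4736 := Blk.of_chk [.r 3 (nat_lit 0x1880084), .r 3 (nat_lit 0x1890084), .r 3 (nat_lit 0x18a0085), .r 3 (nat_lit 0x451263), .r 3 (nat_lit 0x18b0086), .r 3 (nat_lit 0x461265), .r 3 (nat_lit 0x18c0088), .r 3 (nat_lit 0x471267), .r 3 (nat_lit 0x18d0089), .r 3 (nat_lit 0x481269), .r 3 (nat_lit 0x18e008a), .r 3 (nat_lit 0x49126b), .r 3 (nat_lit 0x18f008b), .r 3 (nat_lit 0x4a126d), .r 3 (nat_lit 0x190008c), .r 3 (nat_lit 0x4b126f), .r 3 (nat_lit 0x191008d), .r 3 (nat_lit 0x4c1271), .r 3 (nat_lit 0x1920087), .r 3 (nat_lit 0x3010004), .r 3 (nat_lit 0x3060004), .r 3 (nat_lit 0x3070005), .r 3 (nat_lit 0x3080006), .r 3 (nat_lit 0x3090008), .r 3 (nat_lit 0x30a0005), .r 3 (nat_lit 0x30b0004), .r 3 (nat_lit 0x30c0006), .r 3 (nat_lit 0x30d0007), .r 3 (nat_lit 0x311000c), .r 3 (nat_lit 0x312000d), .r 3 (nat_lit 0x313000e), .r 3 (nat_lit 0x314000f)] (by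 decide +kernel) (by decide +kernel)
theorem b148 : B 4736 4768 := Blk.of_chk [.r 3 (nat_lit 0x3150010), .r 3 (nat_lit 0x316000c), .r 3 (nat_lit 0x317000d), .r 3 (nat_lit 0x318000e), .r 3 (nat_lit 0x319000f), .r 3 (nat_lit 0x31a0011), .r 3 (nat_lit 0x31b000e), .r 3 (nat_lit 0x31c000d), .r 3 (nat_lit 0x31d000f), .r 3 (nat_lit 0x31e0010), .r 3 (nat_lit 0x31f0011), .r 3 (nat_lit 0x320000f), .r 3 (nat_lit 0x3210010), .r 3 (nat_lit 0x3220011), .r 3 (nat_lit 0x3230014), .r 3 (nat_lit 0x3ff1252), .r 3 (nat_lit 0x4001253), .r 3 (nat_lit 0x4011254), .r 3 (nat_lit 0x4021255), .r 3 (nat_lit 0x4031253), .r 3 (nat_lit 0x4041252), .r 3 (nat_lit 0x4061254), .r 3 (nat_lit 0x40a1254), .r 3 (nat_lit 0x40e1255), .r 3 (nat_lit 0x5241264), .r 3 (nat_lit 0x5f30544), .r 3 (nat_lit 0x5f40545), .r 3 (nat_lit 0x5f50543), .r 3 (nat_lit 0x5f60546), .r 3 (nat_lit 0x5f70545), .r 3 (nat_lit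 0x5f80546), .r 3 (nat_lit 0x5f90546)] (by decide +kernel) (by decide +kernel)
theorem b149 : B 4768 4800 := Blk.of_chk [.r 3 (nat_lit 0x5fa0547), .r 3 (nat_lit 0x5fb0547), .r 3 (nat_lit 0x878076f), .r 3 (nat_lit 0x8790770), .r 3 (nat_lit 0x87a0771), .r 3 (nat_lit 0x87b0772), .r 3 (nat_lit 0x87c0773), .r 3 (nat_lit 0x88212a7), .r 3 (nat_lit 0x88906e6), .r 3 (nat_lit 0x88c06e7), .r 3 (nat_lit 0x88f06e8), .r 3 (nat_lit 0x89206e9), .r 3 (nat_lit 0x89506ea), .r 3 (nat_lit 0x89706eb), .r 3 (nat_lit 0x8de0667), .r 3 (nat_lit 0x8df0666), .r 3 (nat_lit 0x8e20668), .r 3 (nat_lit 0x8e30666), .r 3 (nat_lit 0x8e60669), .r 3 (nat_lit 0x8ea066a), .r 3 (nat_lit 0x8ef0668), .r 3 (nat_lit 0x8f00667), .r 3 (nat_lit 0x8f30669), .r 3 (nat_lit 0x8f40667), .r 3 (nat_lit 0x8fc0669), .r 3 (nat_lit 0x8fd0668), .r 3 (nat_lit 0x904066b), .r 3 (nat_lit 0x909066b), .r 3 (nat_lit 0x90a066c),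 .r 3 (nat_lit 0x90b066e), .r 3 (nat_lit 0x90c066f), .r 3 (nat_lit 0x90d0670)] (by decide +kernel) (by decide +kernel)
theorem b150 : B 4800 4832 := Blk.of_chk [.r 3 (nat_lit 0x90e0671), .r 3 (nat_lit 0x90f0672), .r 3 (nat_lit 0x9100673), .r 3 (nat_lit 0x9b712bc), .r 3 (nat_lit 0x9e412be), .r 3 (nat_lit 0x9e512bf), .r 3 (nat_lit 0x9ec06e7), .r 3 (nat_lit 0x9f006e8), .r 3 (nat_lit 0x9f106e6), .r 3 (nat_lit 0x9f406e9), .r 3 (nat_lit 0x9f506e6), .r 3 (nat_lit 0x9f806ea), .r 3 (nat_lit 0x9fd06e8), .r 3 (nat_lit 0x9fe06e7), .r 3 (nat_lit 0xa0106e9), .r 3 (nat_lit 0xa0906e9), .r 3 (nat_lit 0xa1006ea), .r 3 (nat_lit 0xa1406eb), .r 3 (nat_lit 0xa1906eb), .r 3 (nat_lit 0xa1a06ec), .r 3 (nat_lit 0xa1b06ed), .r 3 (nat_lit 0xa1c06ee), .r 3 (nat_lit 0xa1d06ef), .r 3 (nat_lit 0xa1e06f0), .r 3 (nat_lit 0xa1f06f1), .r 3 (nat_lit 0xa2006f2), .r 3 (nat_lit 0xc420b63), .r 3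 (nat_lit 0xc7c0b93), .r 3 (nat_lit 0xc7f0b94), .r 3 (nat_lit 0xc800b99), .r 3 (nat_lit 0xc810b9a), .r 3 (nat_lit 0xca10bbc)] (by decide +kernel) (by decide +kernel)
theorem b151 : B 4832 4864 := Blk.of_chk [.r 3 (nat_lit 0xca40bbd), .r 3 (nat_lit 0xcb00bd6), .r 3 (nat_lit 0xced0b93), .r 3 (nat_lit 0xcee0b63), .r 3 (nat_lit 0xcef0b94), .r 3 (nat_lit 0xcf00b99), .r 3 (nat_lit 0xcf10b9a), .r 3 (nat_lit 0xd0f0bbc), .r 3 (nat_lit 0xd110bbd), .r 3 (nat_lit 0xd120b64), .r 3 (nat_lit 0xd140bbe), .r 3 (nat_lit 0xd150bbf), .r 3 (nat_lit 0xd160bc0), .r 3 (nat_lit 0xd170bc1), .r 3 (nat_lit 0xd180bc2), .r 3 (nat_lit 0xd190bc3), .r 3 (nat_lit 0xd2c0bd6), .r 3 (nat_lit 0xd2d0b63), .r 3 (nat_lit 0xd400b65), .r 3 (nat_lit 0xd410b66), .r 3 (nat_lit 0xd420b68), .r 3 (nat_lit 0xd430b69), .r 3 (nat_lit 0xd440b6a), .r 3 (nat_lit 0xd620bbc), .r 3 (nat_lit 0xd630b93), .r 3 (nat_lit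 0xd660bbd), .r 3 (nat_lit 0xd740bd6), .r 3 (nat_lit 0xd750b93), .r 3 (nat_lit 0xd780bd7), .r 3 (nat_lit 0xd7a0bdd), .r 3 (nat_lit 0xd920b94), .r 3 (nat_lit 0xd940b95)] (by decide +kernel) (by decide +kernel)
theorem b152 : B 4864 4896 := Blk.of_chk [.r 3 (nat_lit 0xd950b96), .r 3 (nat_lit 0xd960b98), .r 3 (nat_lit 0xd970b99), .r 3 (nat_lit 0xd980b9a), .r 3 (nat_lit 0xda70bd6), .r 3 (nat_lit 0xda80bbc), .r 3 (nat_lit 0xdab0bd7), .r 3 (nat_lit 0xdad0bd8), .r 3 (nat_lit 0xdae0bd9), .r 3 (nat_lit 0xdaf0bda), .r 3 (nat_lit 0xdb00bdb), .r 3 (nat_lit 0xdd70bbd), .r 3 (nat_lit 0xddb0bbe), .r 3 (nat_lit 0xddc0bbf), .r 3 (nat_lit 0xddd0bc1), .r 3 (nat_lit 0xdde0bc2), .r 3 (nat_lit 0xddf0bc3), .r 3 (nat_lit 0xdfa1310), .r 3 (nat_lit 0xdfe0bd7), .r 3 (nat_lit 0xe020bd8), .r 3 (nat_lit 0xe030bd9), .r 3 (nat_lit 0xe040bdb), .r 3 (nat_lit 0xe050bdc), .r 3 (nat_lit 0xe060bda),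 .r 3 (nat_lit 0xe361315), .r 3 (nat_lit 0xe371317), .r 3 (nat_lit 0xe48131a), .r 3 (nat_lit 0xe550e50), .r 3 (nat_lit 0xe570e51), .r 3 (nat_lit 0xe590e52), .r 3 (nat_lit 0xe5a0e53), .r 3 (nat_lit 0xe5b0e54)] (by decide +kernel) (by decide +kernel)
theorem b153 : B 4896 4928 := Blk.of_chk [.r 3 (nat_lit 0xe650e53), .r 3 (nat_lit 0x2a0e6d), .r 3 (nat_lit 0x17d0e6d), .r 3 (nat_lit 0x3fe1322), .r 20 (nat_lit 0xe6e001a0019001800170016001500140013001200110010000f000e000d0666000c000b000a), .r 4 (nat_lit 0xe70126b008a), .r 10 (nat_lit 0xe711271126f126d126b1269126712651263), .r 4 (nat_lit 0xe7212a70773), .r 10 (nat_lit 0xe731271126f126d126b1269126712651263), .r 10 (nat_lit 0xe751271126f126d126b1269126712651263), .r 4 (nat_lit 0xe7812651263), .r 4 (nat_lit 0xe7d12651263), .r 5 (nat_lit 0xe7f12bd12bc000b), .r 4 (nat_lit 0xe8012bd12bc), .r 5 (nat_lit 0xe8112bd12bc000e),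 .r 16 (nat_lit 0xe83008d008c008b008a0089008800870086008500840083008200810080), .r 5 (nat_lit 0xe8512bd12bc0004), .r 4 (nat_lit 0xe8912651263), .r 10 (nat_lit 0xe8a1271126f126d126b1269126712651263), .r 4 (nat_lit 0xe8b12bd12bc), .r 3 (nat_lit 0xe8d000c), .r 4 (nat_lit 0xe8e12bd12bc), .r 6 (nat_lit 0xe8f0b9412650b931263), .r 4 (nat_lit 0xe9012651263), .r 4 (nat_lit 0xe910bd70bd6), .r 4 (nat_lit 0xe9212bd12bc), .r 5 (nat_lit 0xe9412bd12bc0002), .r 4 (nat_lit 0xe9612bd12bc), .r 4 (nat_lit 0xe9712bd12bc), .r 5 (nat_lit 0xe9812bd12bc0003), .r 4 (nat_lit 0xe9a12651263), .r 4 (nat_lit 0xe9b12651263)] (by decide +kernel) (by decide +kernel)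
theorem b154 : B 4928 4960 := Blk.of_chk [.r 4 (nat_lit 0xe9c0b940b93), .r 4 (nat_lit 0xe9e0b640b63), .r 21 (nat_lit 0xe9f001a00190018001700160015001400130012001100100669000f000e000d1251000c000b000a), .r 21 (nat_lit 0xea0001a001900180017001600150014001300120011001006691254000f000e000d000c000b000a), .r 7 (nat_lit 0xea20669000e000d000c000b), .r 4 (nat_lit 0xea30669000c), .r 5 (nat_lit 0xea4066805450082), .r 5 (nat_lit 0xea50b940bbc000f), .r 5 (nat_lit 0xea612bd12bc0005), .r 3 (nat_lit 0xea7000b), .r 5 (nat_lit 0xea812bd12bc0003), .r 7 (nat_lit 0xea90669000e000d000c000b), .r 5 (nat_lit 0xeaa12bd12bc000b), .r 4 (nat_lit 0xeab12651263), .r 20 (nat_lit 0xeac001a00190018001700160015001400130012001100100669000f000e000d000c000b000a), .r 4 (nat_lit 0xead12bd12bc), .r 21 (nat_lit 0xeaf001a00190018001700160015001400130012001100100669000f000e1252000d000c000b000a), .r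 28 (nat_lit 0xeb00b2a001a0b2900190b2800180b2700170b2600160b25001500140b2400130b230012001100100669000f000e000d000c000b000a), .r 10 (nat_lit 0xeb112c312c212c112c012bf12be12bd12bc), .r 7 (nat_lit 0xeb200100669000e000d000b), .r 3 (nat_lit 0xeb4000a), .r 4 (nat_lit 0xeb512651263), .r 28 (nat_lit 0xeb60b2a001a0b2900190b2800180b2700170b2600160b25001500140b2400130b2300120011001006e9000f000e000d000c000b000a), .r 3 (nat_lit 0xeb8000c), .r 4 (nat_lit 0xeba06e90081), .r 4 (nat_lit 0xebb12651263), .r 4 (nat_lit 0xebc0bd70bd6), .r 28 (nat_lit 0xebd0b6a001a0b6900190b6800180b6700170b6600160b65001500140b6400130b6300120011001006e9000f000e000d000c000b000a), .r 4 (nat_lit 0xebe0b940b93), .r 6 (nat_lit 0xebf0bd70bd605430003), .r 8 (nat_lit 0xec10bd70bd606e7066705440081), .r 5 (nat_lit 0xec512bd12bc0003)] (by decide +kernel) (by decide +kernel)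
theorem b155 : B 4960 4992 := Blk.of_chk [.r 10 (nat_lit 0xec71271126f126d126b1269126712651263), .r 6 (nat_lit 0xec806681253000e0005), .r 28 (nat_lit 0xec912da001a12d9001912d8001812d7001712d6001612d50015001412d4001312d30012001100100669000f000e000d000c000b000a), .r 28 (nat_lit 0xeca1272001a12700019126e0018126c0017126a00161268001500141266001312640012001100100669000f000e000d000c000b000a), .r 10 (nat_lit 0xecb12c312c212c112c012bf12be12bd12bc), .r 4 (nat_lit 0xecc12bd12bc), .r 28 (nat_lit 0xecd0b9a001a0b9900190b9800180b9700170b9600160b95001500140b9400130b9300120011001006e9000f000e000d000c000b000a), .r 4 (nat_lit 0xece0bd70bd6), .r 4 (nat_lit 0xecf12651263), .r 6 (nat_lit 0xed00bd70bd605430003), .r 8 (nat_lit 0xed20bd70bd606e8066805450082), .r 7 (nat_lit 0xed306e60666054312510080), .r 5 (nat_lit 0xed412bd12bc0003), .r 7 (nat_lit 0xed506e60666054312510080), .r 4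 (nat_lit 0xed606e9000e), .r 28 (nat_lit 0xedb0bc3001a0bc200190bc100180bc000170bbf00160bbe001500140bbd00130bbc001200110010000f000e000d06e6000c000b000a), .r 4 (nat_lit 0xedc12651263), .r 10 (nat_lit 0xedf0b630b2306e70667054412520081000b), .r 21 (nat_lit 0xee1001a0019001800170016001500140013001200110010000f000e06e71252000d000c000b000a), .r 4 (nat_lit 0xee40bd70bd6), .r 4 (nat_lit 0xee512651263), .r 21 (nat_lit 0xee6001a00190018001700160015001400130012001100101254000f000e000d0666000c000b000a), .r 21 (nat_lit 0xee7001a0019001800170016001500140013001200110010000f000e1252000d0666000c000b000a), .r 4 (nat_lit 0xee812651263), .r 4 (nat_lit 0xeea0bd70bd6), .r 4 (nat_lit 0xeeb0b940b93), .r 4 (nat_lit 0xeec0bd70bd6), .r 28 (nat_lit 0xeee0b9a001a0b9900190b9800180b9700170b9600160b95001500140b9400130b93001200110010000f000e000d06e6000c000b000a), .r 4 (nat_lit 0xeef12651263),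 .r 4 (nat_lit 0xef012651263), .r 21 (nat_lit 0xef1001a0019001800170016001500140013001200110010000f000e06e7000d1251000c000b000a), .r 4 (nat_lit 0xef20bd70bd6)] (by decide +kernel) (by decide +kernel)
theorem b156 : B 4992 5024 := Blk.of_chk [.r 4 (nat_lit 0xef50bd70bd6), .r 3 (nat_lit 0xef606e6), .r 4 (nat_lit 0xef712651263), .r 20 (nat_lit 0xef8001a0019001800170016001500140013001200110010000f000e0667000d000c000b000a), .r 10 (nat_lit 0xef91271126f126d126b1269126712651263), .r 10 (nat_lit 0xefb12c312c212c112c012bf12be12bd12bc), .r 3 (nat_lit 0xefc0bbc), .r 7 (nat_lit 0xeff131b13160bdb06e80668), .r 7 (nat_lit 0xf00131b13160bdb06e80668), .r 7 (nat_lit 0xf0112a70773001a0bbc0666), .r 3 (nat_lit 0xf02001a), .r 3 (nat_lit 0xf03001a), .r 7 (nat_lit 0xf0406e80668054512530082), .r 4 (nat_lit 0xf0612651263), .r 10 (nat_lit 0xf071271126f126d126b1269126712651263), .r 4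 (nat_lit 0xf0812651263), .r 5 (nat_lit 0xf0a0bbd0bbc000e), .r 23 (nat_lit 0xf0c001a131a001900180bda00170016001500140013001200110010000f000e000d06661251000c000b000a), .r 22 (nat_lit 0xf0d001a0e680019001800170016001500140013001200110010000f000e1252000d0666000c000b000a), .r 7 (nat_lit 0xf0e131a0bda06e806680545), .r 6 (nat_lit 0xf120bbd1251000c0003), .r 20 (nat_lit 0xf13001a0019001800170016001500140013001200110010000f000e000d06e6000c000b000a), .r 23 (nat_lit 0xf14001a131a001900180bda00170016001500140013001200110010000f000e000d06e61251000c000b000a), .r 5 (nat_lit 0xf150bd706e9000c), .r 4 (nat_lit 0xf16131a0bda), .r 3 (nat_lit 0xf170bbd), .r 5 (nat_lit 0xf1a0bd706e7000c), .r 11 (nat_lit 0xf1c0bd7000f000e06e7000d06e6000c000b000a), .r 3 (nat_lit 0xf1d0bd7), .r 3 (nat_lit 0xf1e0bd7), .r 3 (nat_lit 0xf1f0bd7), .r 5 (nat_lit 0xf220bbd0bbc000a)] (by decide +kernel) (by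 decide +kernel)
theorem b157 : B 5024 5056 := Blk.of_chk [.r 8 (nat_lit 0xf2406ec066c054812560086000a), .r 19 (nat_lit 0xf260bd60bbc0b930b630b2312d312bc076e12a21264126306e706670544125200810003), .r 5 (nat_lit 0xf270bd706e6000a), .r 5 (nat_lit 0xf280bd7000d06e6), .r 6 (nat_lit 0xf290bd71251000c0003), .r 5 (nat_lit 0xf2a0bd706e6000a), .r 3 (nat_lit 0xf2b000a), .r 5 (nat_lit 0xf2c0bd706e6000a), .r 5 (nat_lit 0xf2d0bd7000d06e6), .r 5 (nat_lit 0xf2f0bd7000f06e6), .r 10 (nat_lit 0xf301271126f126d126b1269126712651263), .r 4 (nat_lit 0xf3112651263), .r 4 (nat_lit 0xf320b24000a), .r 5 (nat_lit 0xf330bbd000e06e6), .r 5 (nat_lit 0xf340bbd066806e6), .r 6 (nat_lit 0xf351253000e000506e6), .r 5 (nat_lit 0xf360bbd0b23000c), .r 3 (nat_lit 0xf3706e9), .r 4 (nat_lit 0xf38000f06e6), .r 4 (nat_lit 0xf3906e806e6), .r 7 (nat_lit 0xf3a0010000f000e000d06e6), .r 8 (nat_lit 0xf3b12a712a612a512a412a30014),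 .r 6 (nat_lit 0xf3c0bd70bd605460006), .r 4 (nat_lit 0xf3d000f06e6), .r 10 (nat_lit 0xf3e1271126f126d126b1269126712651263), .r 6 (nat_lit 0xf401252000d000406e6), .r 4 (nat_lit 0xf4112651263), .r 28 (nat_lit 0xf4312c3001a12c2001912c1001812c0001712bf001612be0015001412bd001312bc001200110010000f000e000d06e6000c000b000a), .r 6 (nat_lit 0xf470bd70bd605450005), .r 28 (nat_lit 0xf480b6a001a0b6900190b6800180b6700170b6600160b65001500140b6400130b63001200110010000f000e000d06e6000c000b000a), .r 15 (nat_lit 0xf490bbd00130bbc001200110010000f000e000d06e6000c000b000a), .r 10 (nat_lit 0xf4b1271126f126d126b1269126712651263)] (by decide +kernel) (by decide +kernel)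
theorem b158 : B 5056 5088 := Blk.of_chk [.r 5 (nat_lit 0xf4d0bbd0bbc000d), .r 5 (nat_lit 0xf4e0bbd0bbc000a), .r 4 (nat_lit 0xf4f12651263), .r 4 (nat_lit 0xf5012651263), .r 5 (nat_lit 0xf510bd706e8000a), .r 3 (nat_lit 0xf520bd7), .r 4 (nat_lit 0xf530bd70bd6), .r 5 (nat_lit 0xf5412d412d3000d), .r 6 (nat_lit 0xf550bd70bd605440004), .r 9 (nat_lit 0xf560bd7000e000d06e6000c000b000a), .r 5 (nat_lit 0xf5706e80668000d), .r 15 (nat_lit 0xf580bbd00130bbc001200110010000f000e000d06e6000c000b000a), .r 4 (nat_lit 0xf590bbd0bbc), .r 4 (nat_lit 0xf5a0bbd0bbc), .r 6 (nat_lit 0xf5c066a0668000d0666), .r 7 (nat_lit 0xf5e06680667054400040666), .r 5 (nat_lit 0xf630bbd06e8000c), .r 4 (nat_lit 0xf6512651263), .r 10 (nat_lit 0xf661271126f126d126b1269126712651263), .r 28 (nat_lit 0xf6712c3001a12c2001912c1001812c0001712bf001612be0015001412bd001312bc001200110010000f06e8000e000d000c000b000a),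 .r 4 (nat_lit 0xf6812651263), .r 12 (nat_lit 0xf69066d0bbd066c0bbc066b066a06690668000d0666), .r 4 (nat_lit 0xf6a0bbd0bbc), .r 3 (nat_lit 0xf6b0084), .r 5 (nat_lit 0xf6c0bd7008306e8), .r 5 (nat_lit 0xf6f0bd7000e06e6), .r 4 (nat_lit 0xf700bd706e6), .r 28 (nat_lit 0xf7112c3001a12c2001912c1001812c0001712bf001612be0015001412bd001312bc001200110010000f000e000d06e6000c000b000a), .r 21 (nat_lit 0xf72001a001900180017001600150014001300120011066a0010000f000e000d06e6000c000b000a), .r 21 (nat_lit 0xf73001a00190018001700160015001400130012001100100669000f000e000d06e6000c000b000a), .r 5 (nat_lit 0xf7512d412d30001), .r 4 (nat_lit 0xf780bbd0bbc)] (by decide +kernel) (by decide +kernel)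

end Pool.Agent.GCP.F8_13
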