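import Pool.Agent.GCP.F8_14Db

set_option autoImplicit false
set_option maxRecDepth 100000

/-! # Blocks F8_14B1 (generated) -/

namespace Pool.Agent.GCP.F8_14

open Pool.Agent.GCP DB

theorem b79 : B 2528 2560 := Blk.of_chk [.t 1 (nat_lit 0) (.ax 8 10 12 14 6), .t 1 (nat_lit 0) (.ax 8 10 12 14 7), .t 1 (nat_lit 0) (.ax 8 10 12 15 4), .t 1 (nat_lit 0) (.ax 8 10 12 15 7), .t 1 (nat_lit 0) (.ax 8 10 12 16 2), .t 1 (nat_lit 0) (.ax 8 10 12 16 4), .t 1 (nat_lit 0) (.ax 8 10 12 16 5), .t 1 (nat_lit 0) (.ax 8 10 12 16 7), .t 1 (nat_lit 0) (.ax 8 10 13 14 5), .t 1 (nat_lit 0) (.ax 8 10 13 15 4), .t 1 (nat_lit 0) (.ax 8 10 13 15 6), .t 1 (nat_lit 0) (.ax 8 10 13 16 4), .t 1 (nat_lit 0) (.ax 8 10 13 16 6), .t 1 (nat_lit 0) (.ax 8 10 13 21 2), .t 1 (nat_lit 0) (.ax 8 10 13 21 4), .t 1 (nat_lit 0) (.ax 8 10 14 15 1), .t 1 (nat_lit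 0) (.ax 8 10 14 15 4), .t 1 (nat_lit 0) (.ax 8 10 15 21 4), .t 1 (nat_lit 0) (.ax 8 10 16 21 4), .t 1 (nat_lit 0) (.ax 8 10 17 21 4), .t 1 (nat_lit 0) (.ax 8 10 18 21 4), .t 1 (nat_lit 0) (.ax 8 10 19 21 4), .t 1 (nat_lit 0) (.ax 8 10 20 21 4), .t 1 (nat_lit 0) (.ax 8 10 21 22 5), .t 1 (nat_lit 0) (.ax 8 11 12 13 1), .t 1 (nat_lit 0) (.ax 8 11 12 13 2), .t 1 (nat_lit 0) (.ax 8 11 12 14 1), .t 1 (nat_lit 0) (.ax 8 11 12 14 3), .t 1 (nat_lit 0) (.ax 8 11 12 14 5), .t 1 (nat_lit 0) (.ax 8 11 12 14 7), .t 1 (nat_lit 0) (.ax 8 11 12 21 6), .t 1 (nat_lit 0) (.ax 8 11 13 15 2)] (by decide +kernel) (by decide +kernel)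
theorem b80 : B 2560 2592 := Blk.of_chk [.t 1 (nat_lit 0) (.ax 8 11 13 15 4), .t 1 (nat_lit 0) (.ax 8 11 13 16 2), .t 1 (nat_lit 0) (.ax 8 11 14 15 2), .t 1 (nat_lit 0) (.ax 8 11 14 15 4), .t 1 (nat_lit 0) (.ax 8 11 14 16 4), .t 1 (nat_lit 0) (.ax 8 12 13 14 5), .t 1 (nat_lit 0) (.ax 8 12 14 21 4), .t 1 (nat_lit 0) (.ax 8 12 15 16 2), .t 1 (nat_lit 0) (.ax 8 13 14 15 1), .t 1 (nat_lit 0) (.ax 8 13 14 15 4), .t 1 (nat_lit 0) (.ax 8 14 16 21 0), .t 1 (nat_lit 0) (.ax 9 10 11 12 0), .t 1 (nat_lit 0) (.ax 9 10 11 12 2), .t 1 (nat_lit 0) (.ax 9 10 11 12 3), .t 1 (nat_lit 0) (.ax 9 10 11 12 4), .t 1 (nat_lit 0) (.ax 9 10 11 12 5), .t 1 (nat_lit 0) (.ax 9 10 11 12 7), .t 1 (nat_lit 0) (.ax 9 10 11 13 2), .t 1 (nat_lit 0) (.ax 9 10 11 13 3), .t 1 (nat_lit 0) (.ax 9 10 11 13 5), .t 1 (nat_lit 0) (.ax 9 10 11 13 7), .t 1 (nat_lit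 0) (.ax 9 10 11 14 0), .t 1 (nat_lit 0) (.ax 9 10 11 14 1), .t 1 (nat_lit 0) (.ax 9 10 11 14 3), .t 1 (nat_lit 0) (.ax 9 10 11 14 4), .t 1 (nat_lit 0) (.ax 9 10 11 14 5), .t 1 (nat_lit 0) (.ax 9 10 11 14 7), .t 1 (nat_lit 0) (.ax 9 10 11 16 2), .t 1 (nat_lit 0) (.ax 9 10 11 16 7), .t 1 (nat_lit 0) (.ax 9 10 11 21 0), .t 1 (nat_lit 0) (.ax 9 10 11 21 4), .t 1 (nat_lit 0) (.ax 9 10 11 22 0)] (by decide +kernel) (by decide +kernel)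
theorem b81 : B 2592 2624 := Blk.of_chk [.t 1 (nat_lit 0) (.ax 9 10 11 22 2), .t 1 (nat_lit 0) (.ax 9 10 12 13 0), .t 1 (nat_lit 0) (.ax 9 10 12 13 2), .t 1 (nat_lit 0) (.ax 9 10 12 13 3), .t 1 (nat_lit 0) (.ax 9 10 12 13 4), .t 1 (nat_lit 0) (.ax 9 10 12 13 5), .t 1 (nat_lit 0) (.ax 9 10 12 13 6), .t 1 (nat_lit 0) (.ax 9 10 12 13 7), .t 1 (nat_lit 0) (.ax 9 10 12 14 1), .t 1 (nat_lit 0) (.ax 9 10 12 14 4), .t 1 (nat_lit 0) (.ax 9 10 12 14 5), .t 1 (nat_lit 0) (.ax 9 10 12 14 6), .t 1 (nat_lit 0) (.ax 9 10 12 16 2), .t 1 (nat_lit 0) (.ax 9 10 12 16 4), .t 1 (nat_lit 0) (.ax 9 10 12 22 0), .t 1 (nat_lit 0) (.ax 9 10 13 16 4), .t 1 (nat_lit 0) (.ax 9 10 13 22 0), .t 1 (nat_lit 0) (.ax 9 11 12 13 1), .t 1 (nat_lit 0) (.ax 9 11 12 13 3), .t 1 (nat_lit 0) (.ax 9 11 12 13 4), .t 1 (nat_lit 0) (.ax 9 11 12 13 5), .t 1 (nat_lit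 0) (.ax 9 11 12 14 0), .t 1 (nat_lit 0) (.ax 9 11 12 14 1), .t 1 (nat_lit 0) (.ax 9 11 12 14 2), .t 1 (nat_lit 0) (.ax 9 11 12 14 3), .t 1 (nat_lit 0) (.ax 9 11 12 14 4), .t 1 (nat_lit 0) (.ax 9 11 12 14 5), .t 1 (nat_lit 0) (.ax 9 11 12 14 6), .t 1 (nat_lit 0) (.ax 9 11 12 14 7), .t 1 (nat_lit 0) (.ax 9 11 12 15 3), .t 1 (nat_lit 0) (.ax 9 11 12 15 5), .t 1 (nat_lit 0) (.ax 9 11 12 15 7)] (by decide +kernel) (by decide +kernel)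
theorem b82 : B 2624 2656 := Blk.of_chk [.t 1 (nat_lit 0) (.ax 9 11 12 16 2), .t 1 (nat_lit 0) (.ax 9 11 12 16 5), .t 1 (nat_lit 0) (.ax 9 11 12 16 7), .t 1 (nat_lit 0) (.ax 9 11 12 21 5), .t 1 (nat_lit 0) (.ax 9 11 12 22 0), .t 1 (nat_lit 0) (.ax 9 11 13 14 1), .t 1 (nat_lit 0) (.ax 9 11 13 14 3), .t 1 (nat_lit 0) (.ax 9 11 13 14 5), .t 1 (nat_lit 0) (.ax 9 11 13 14 7), .t 1 (nat_lit 0) (.ax 9 11 13 15 1), .t 1 (nat_lit 0) (.ax 9 11 13 16 2), .t 1 (nat_lit 0) (.ax 9 11 13 16 4), .t 1 (nat_lit 0) (.ax 9 11 13 16 5), .t 1 (nat_lit 0) (.ax 9 11 13 21 3), .t 1 (nat_lit 0) (.ax 9 11 13 22 6), .t 1 (nat_lit 0) (.ax 9 11 14 15 1), .t 1 (nat_lit 0) (.ax 9 11 14 15 4), .t 1 (nat_lit 0) (.ax 9 11 14 16 4), .t 1 (nat_lit 0) (.ax 9 12 13 14 0), .t 1 (nat_lit 0) (.ax 9 12 13 14 1), .t 1 (nat_lit 0) (.ax 9 12 13 14 3), .t 1 (nat_lit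 0) (.ax 9 12 13 14 5), .t 1 (nat_lit 0) (.ax 9 12 13 15 2), .t 1 (nat_lit 0) (.ax 9 12 13 16 1), .t 1 (nat_lit 0) (.ax 9 12 13 16 4), .t 1 (nat_lit 0) (.ax 9 12 13 22 0), .t 1 (nat_lit 0) (.ax 9 12 14 15 1), .t 1 (nat_lit 0) (.ax 9 12 14 15 4), .t 1 (nat_lit 0) (.ax 9 12 14 16 4), .t 1 (nat_lit 0) (.ax 9 12 14 21 4), .t 1 (nat_lit 0) (.ax 9 12 14 22 4), .t 1 (nat_lit 0) (.ax 9 12 15 16 4)] (by decide +kernel) (by decide +kernel)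
theorem b83 : B 2656 2688 := Blk.of_chk [.t 1 (nat_lit 0) (.ax 9 12 15 17 4), .t 1 (nat_lit 0) (.ax 9 12 15 18 4), .t 1 (nat_lit 0) (.ax 9 12 15 19 4), .t 1 (nat_lit 0) (.ax 9 12 15 20 4), .t 1 (nat_lit 0) (.ax 9 13 14 15 4), .t 1 (nat_lit 0) (.ax 9 14 16 17 0), .t 1 (nat_lit 0) (.ax 9 14 16 18 0), .t 1 (nat_lit 0) (.ax 9 14 16 20 0), .t 1 (nat_lit 0) (.ax 9 14 16 21 0), .t 1 (nat_lit 0) (.ax 9 14 16 22 0), .t 1 (nat_lit 0) (.ax 9 14 17 22 0), .t 1 (nat_lit 0) (.ax 9 14 18 22 0), .t 1 (nat_lit 0) (.ax 9 15 16 17 4), .t 1 (nat_lit 0) (.ax 9 15 16 18 4), .t 1 (nat_lit 0) (.ax 9 15 16 19 4), .t 1 (nat_lit 0) (.ax 9 15 16 20 4), .t 1 (nat_lit 0) (.ax 9 15 16 21 4), .t 1 (nat_lit 0) (.ax 9 16 19 21 0), .t 1 (nat_lit 0) (.ax 9 17 21 22 5), .t 1 (nat_lit 0) (.ax 9 18 21 22 5), .t 1 (nat_lit 0) (.ax 9 19 20 21 0), .t 1 (nat_lit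 0) (.ax 10 11 12 13 0), .t 1 (nat_lit 0) (.ax 10 11 12 13 1), .t 1 (nat_lit 0) (.ax 10 11 12 13 2), .t 1 (nat_lit 0) (.ax 10 11 12 13 3), .t 1 (nat_lit 0) (.ax 10 11 12 13 4), .t 1 (nat_lit 0) (.ax 10 11 12 13 5), .t 1 (nat_lit 0) (.ax 10 11 12 13 6), .t 1 (nat_lit 0) (.ax 10 11 12 14 0), .t 1 (nat_lit 0) (.ax 10 11 12 14 1), .t 1 (nat_lit 0) (.ax 10 11 12 14 2), .t 1 (nat_lit 0) (.ax 10 11 12 14 4)] (by decide +kernel) (by decide +kernel)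
theorem b84 : B 2688 2720 := Blk.of_chk [.t 1 (nat_lit 0) (.ax 10 11 12 14 5), .t 1 (nat_lit 0) (.ax 10 11 12 14 6), .t 1 (nat_lit 0) (.ax 10 11 12 15 0), .t 1 (nat_lit 0) (.ax 10 11 12 15 1), .t 1 (nat_lit 0) (.ax 10 11 12 15 3), .t 1 (nat_lit 0) (.ax 10 11 12 15 4), .t 1 (nat_lit 0) (.ax 10 11 12 15 5), .t 1 (nat_lit 0) (.ax 10 11 12 15 6), .t 1 (nat_lit 0) (.ax 10 11 12 16 3), .t 1 (nat_lit 0) (.ax 10 11 12 16 5), .t 1 (nat_lit 0) (.ax 10 11 12 16 7), .t 1 (nat_lit 0) (.ax 10 11 12 21 2), .t 1 (nat_lit 0) (.ax 10 11 12 21 4), .t 1 (nat_lit 0) (.ax 10 11 12 22 0), .t 1 (nat_lit 0) (.ax 10 11 12 22 4), .t 1 (nat_lit 0) (.ax 10 11 12 22 5), .t 1 (nat_lit 0) (.ax 10 11 12 22 7), .t 1 (nat_lit 0) (.ax 10 11 13 14 0), .t 1 (nat_lit 0) (.ax 10 11 13 14 1), .t 1 (nat_lit 0) (.ax 10 11 13 14 3), .t 1 (nat_lit 0) (.ax 10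 11 13 14 4), .t 1 (nat_lit 0) (.ax 10 11 13 14 5), .t 1 (nat_lit 0) (.ax 10 11 13 14 6), .t 1 (nat_lit 0) (.ax 10 11 13 15 0), .t 1 (nat_lit 0) (.ax 10 11 13 15 1), .t 1 (nat_lit 0) (.ax 10 11 13 15 2), .t 1 (nat_lit 0) (.ax 10 11 13 15 4), .t 1 (nat_lit 0) (.ax 10 11 13 15 6), .t 1 (nat_lit 0) (.ax 10 11 13 16 2), .t 1 (nat_lit 0) (.ax 10 11 13 16 6), .t 1 (nat_lit 0) (.ax 10 11 13 17 2), .t 1 (nat_lit 0) (.ax 10 11 13 18 2)] (by decide +kernel) (by decide +kernel)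
theorem b85 : B 2720 2752 := Blk.of_chk [.t 1 (nat_lit 0) (.ax 10 11 13 19 2), .t 1 (nat_lit 0) (.ax 10 11 13 20 2), .t 1 (nat_lit 0) (.ax 10 11 13 21 0), .t 1 (nat_lit 0) (.ax 10 11 13 21 5), .t 1 (nat_lit 0) (.ax 10 11 13 22 0), .t 1 (nat_lit 0) (.ax 10 11 13 22 2), .t 1 (nat_lit 0) (.ax 10 11 13 22 4), .t 1 (nat_lit 0) (.ax 10 11 14 15 1), .t 1 (nat_lit 0) (.ax 10 11 14 15 2), .t 1 (nat_lit 0) (.ax 10 11 14 15 4), .t 1 (nat_lit 0) (.ax 10 11 14 21 4), .t 1 (nat_lit 0) (.ax 10 11 14 22 4), .t 1 (nat_lit 0) (.ax 10 11 21 22 5), .t 1 (nat_lit 0) (.ax 10 12 13 14 0), .t 1 (nat_lit 0) (.ax 10 12 13 14 1), .t 1 (nat_lit 0) (.ax 10 12 13 14 2), .t 1 (nat_lit 0) (.ax 10 12 13 14 3), .t 1 (nat_lit 0) (.ax 10 12 13 14 5), .t 1 (nat_lit 0) (.ax 10 12 13 15 0), .t 1 (nat_lit 0) (.ax 10 12 13 15 1), .t 1 (nat_lit 0) (.ax 10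 12 13 15 2), .t 1 (nat_lit 0) (.ax 10 12 13 15 3), .t 1 (nat_lit 0) (.ax 10 12 13 15 4), .t 1 (nat_lit 0) (.ax 10 12 13 15 5), .t 1 (nat_lit 0) (.ax 10 12 13 16 0), .t 1 (nat_lit 0) (.ax 10 12 13 16 1), .t 1 (nat_lit 0) (.ax 10 12 13 16 2), .t 1 (nat_lit 0) (.ax 10 12 13 16 3), .t 1 (nat_lit 0) (.ax 10 12 13 16 4), .t 1 (nat_lit 0) (.ax 10 12 13 16 5), .t 1 (nat_lit 0) (.ax 10 12 13 17 4), .t 1 (nat_lit 0) (.ax 10 12 13 18 4)] (by decide +kernel) (by decide +kernel)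
theorem b86 : B 2752 2784 := Blk.of_chk [.t 1 (nat_lit 0) (.ax 10 12 13 19 4), .t 1 (nat_lit 0) (.ax 10 12 13 20 4), .t 1 (nat_lit 0) (.ax 10 12 13 21 0), .t 1 (nat_lit 0) (.ax 10 12 13 21 5), .t 1 (nat_lit 0) (.ax 10 12 13 21 7), .t 1 (nat_lit 0) (.ax 10 12 13 22 2), .t 1 (nat_lit 0) (.ax 10 12 13 22 4), .t 1 (nat_lit 0) (.ax 10 12 13 22 5), .t 1 (nat_lit 0) (.ax 10 12 14 15 1), .t 1 (nat_lit 0) (.ax 10 12 14 15 2), .t 1 (nat_lit 0) (.ax 10 12 14 15 4), .t 1 (nat_lit 0) (.ax 10 12 14 21 4), .t 1 (nat_lit 0) (.ax 10 12 15 16 1), .t 1 (nat_lit 0) (.ax 10 12 15 16 2), .t 1 (nat_lit 0) (.ax 10 12 15 16 4), .t 1 (nat_lit 0) (.ax 10 12 21 22 5), .t 1 (nat_lit 0) (.ax 10 13 14 15 1), .t 1 (nat_lit 0) (.ax 10 13 14 15 4), .t 1 (nat_lit 0) (.ax 10 13 15 16 1), .t 1 (nat_lit 0) (.ax 10 13 15 16 2), .t 1 (nat_lit 0) (.ax 10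 13 15 16 4), .t 1 (nat_lit 0) (.ax 10 13 21 22 5), .t 1 (nat_lit 0) (.ax 10 14 15 22 0), .t 1 (nat_lit 0) (.ax 10 14 16 21 0), .t 1 (nat_lit 0) (.ax 10 14 16 22 0), .t 1 (nat_lit 0) (.ax 10 14 17 22 0), .t 1 (nat_lit 0) (.ax 10 14 18 22 0), .t 1 (nat_lit 0) (.ax 10 15 21 22 5), .t 1 (nat_lit 0) (.ax 10 16 19 21 0), .t 1 (nat_lit 0) (.ax 10 17 21 22 5), .t 1 (nat_lit 0) (.ax 10 18 21 22 5), .t 1 (nat_lit 0) (.ax 10 19 20 21 0)] (by decide +kernel) (by decide +kernel)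
theorem b87 : B 2784 2816 := Blk.of_chk [.t 1 (nat_lit 0) (.ax 11 12 13 14 0), .t 1 (nat_lit 0) (.ax 11 12 13 14 1), .t 1 (nat_lit 0) (.ax 11 12 13 14 3), .t 1 (nat_lit 0) (.ax 11 12 13 14 5), .t 1 (nat_lit 0) (.ax 11 12 13 14 7), .t 1 (nat_lit 0) (.ax 11 12 13 15 0), .t 1 (nat_lit 0) (.ax 11 12 13 15 1), .t 1 (nat_lit 0) (.ax 11 12 13 15 3), .t 1 (nat_lit 0) (.ax 11 12 13 15 5), .t 1 (nat_lit 0) (.ax 11 12 13 16 0), .t 1 (nat_lit 0) (.ax 11 12 13 16 1), .t 1 (nat_lit 0) (.ax 11 12 13 16 4), .t 1 (nat_lit 0) (.ax 11 12 13 21 0), .t 1 (nat_lit 0) (.ax 11 12 13 21 1), .t 1 (nat_lit 0) (.ax 11 12 13 21 2), .t 1 (nat_lit 0) (.ax 11 12 13 21 3), .t 1 (nat_lit 0) (.ax 11 12 13 21 4), .t 1 (nat_lit 0) (.ax 11 12 13 21 5), .t 1 (nat_lit 0) (.ax 11 12 13 21 7), .t 1 (nat_lit 0) (.ax 11 12 13 22 0), .t 1 (nat_lit 0) (.ax 11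 12 13 22 1), .t 1 (nat_lit 0) (.ax 11 12 13 22 2), .t 1 (nat_lit 0) (.ax 11 12 13 22 3), .t 1 (nat_lit 0) (.ax 11 12 13 22 4), .t 1 (nat_lit 0) (.ax 11 12 14 15 1), .t 1 (nat_lit 0) (.ax 11 12 14 15 2), .t 1 (nat_lit 0) (.ax 11 12 14 15 4), .t 1 (nat_lit 0) (.ax 11 12 14 16 4), .t 1 (nat_lit 0) (.ax 11 12 14 21 4), .t 1 (nat_lit 0) (.ax 11 12 14 22 4), .t 1 (nat_lit 0) (.ax 11 12 15 16 1), .t 1 (nat_lit 0) (.ax 11 12 15 16 2)] (by decide +kernel) (by decide +kernel)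
theorem b88 : B 2816 2848 := Blk.of_chk [.t 1 (nat_lit 0) (.ax 11 12 15 16 4), .t 1 (nat_lit 0) (.ax 11 12 15 17 2), .t 1 (nat_lit 0) (.ax 11 12 15 18 2), .t 1 (nat_lit 0) (.ax 11 12 15 19 2), .t 1 (nat_lit 0) (.ax 11 12 15 20 2), .t 1 (nat_lit 0) (.ax 11 12 15 22 4), .t 1 (nat_lit 0) (.ax 11 12 16 21 4), .t 1 (nat_lit 0) (.ax 11 12 16 22 4), .t 1 (nat_lit 0) (.ax 11 12 21 22 5), .t 1 (nat_lit 0) (.ax 11 13 14 15 1), .t 1 (nat_lit 0) (.ax 11 13 14 15 2), .t 1 (nat_lit 0) (.ax 11 13 14 15 4), .t 1 (nat_lit 0) (.ax 11 13 14 16 4), .t 1 (nat_lit 0) (.ax 11 13 14 22 4), .t 1 (nat_lit 0) (.ax 11 13 15 16 1), .t 1 (nat_lit 0) (.ax 11 13 15 16 2), .t 1 (nat_lit 0) (.ax 11 13 15 16 4), .t 1 (nat_lit 0) (.ax 11 13 15 17 4), .t 1 (nat_lit 0) (.ax 11 13 15 18 4), .t 1 (nat_lit 0) (.ax 11 13 15 19 4), .t 1 (nat_lit 0) (.ax 11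 13 15 20 4), .t 1 (nat_lit 0) (.ax 11 13 15 21 4), .t 1 (nat_lit 0) (.ax 11 13 15 22 4), .t 1 (nat_lit 0) (.ax 11 13 15 22 6), .t 1 (nat_lit 0) (.ax 11 13 16 22 4), .t 1 (nat_lit 0) (.ax 11 13 21 22 5), .t 1 (nat_lit 0) (.ax 11 14 15 22 0), .t 1 (nat_lit 0) (.ax 11 14 16 17 0), .t 1 (nat_lit 0) (.ax 11 14 16 18 0), .t 1 (nat_lit 0) (.ax 11 14 16 20 0), .t 1 (nat_lit 0) (.ax 11 14 16 21 0), .t 1 (nat_lit 0) (.ax 11 14 17 22 0)] (by decide +kernel) (by decide +kernel)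
theorem b89 : B 2848 2880 := Blk.of_chk [.t 1 (nat_lit 0) (.ax 11 14 18 22 0), .t 1 (nat_lit 0) (.ax 11 15 21 22 5), .t 1 (nat_lit 0) (.ax 11 16 19 21 0), .t 1 (nat_lit 0) (.ax 11 17 21 22 5), .t 1 (nat_lit 0) (.ax 11 18 21 22 5), .t 1 (nat_lit 0) (.ax 11 19 20 21 0), .t 1 (nat_lit 0) (.ax 12 13 14 15 1), .t 1 (nat_lit 0) (.ax 12 13 14 15 2), .t 1 (nat_lit 0) (.ax 12 13 14 15 4), .t 1 (nat_lit 0) (.ax 12 13 14 16 4), .t 1 (nat_lit 0) (.ax 12 13 14 22 4), .t 1 (nat_lit 0) (.ax 12 13 15 16 1), .t 1 (nat_lit 0) (.ax 12 13 15 16 2), .t 1 (nat_lit 0) (.ax 12 13 15 16 4), .t 1 (nat_lit 0) (.ax 12 13 15 17 1), .t 1 (nat_lit 0) (.ax 12 13 15 17 4), .t 1 (nat_lit 0) (.ax 12 13 15 18 4), .t 1 (nat_lit 0) (.ax 12 13 15 19 4), .t 1 (nat_lit 0) (.ax 12 13 15 20 4), .t 1 (nat_lit 0) (.ax 12 13 15 21 4), .t 1 (nat_lit 0) (.ax 12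 13 15 22 4), .t 1 (nat_lit 0) (.ax 12 13 15 22 6), .t 1 (nat_lit 0) (.ax 12 13 16 17 1), .t 1 (nat_lit 0) (.ax 12 13 16 17 4), .t 1 (nat_lit 0) (.ax 12 13 16 21 4), .t 1 (nat_lit 0) (.ax 12 13 16 22 4), .t 1 (nat_lit 0) (.ax 12 13 16 22 6), .t 1 (nat_lit 0) (.ax 12 13 17 21 4), .t 1 (nat_lit 0) (.ax 12 13 17 22 4), .t 1 (nat_lit 0) (.ax 12 13 17 22 6), .t 1 (nat_lit 0) (.ax 12 13 21 22 5), .t 1 (nat_lit 0) (.ax 12 14 15 22 0)] (by decide +kernel) (by decide +kernel)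
theorem b90 : B 2880 2912 := Blk.of_chk [.t 1 (nat_lit 0) (.ax 12 14 16 17 0), .t 1 (nat_lit 0) (.ax 12 14 16 18 0), .t 1 (nat_lit 0) (.ax 12 14 16 20 0), .t 1 (nat_lit 0) (.ax 12 14 16 21 0), .t 1 (nat_lit 0) (.ax 12 14 16 22 0), .t 1 (nat_lit 0) (.ax 12 14 17 22 0), .t 1 (nat_lit 0) (.ax 12 14 18 22 0), .t 1 (nat_lit 0) (.ax 12 15 16 17 2), .t 1 (nat_lit 0) (.ax 12 15 16 17 4), .t 1 (nat_lit 0) (.ax 12 15 16 18 4), .t 1 (nat_lit 0) (.ax 12 15 16 19 4), .t 1 (nat_lit 0) (.ax 12 15 16 20 4), .t 1 (nat_lit 0) (.ax 13 14 15 22 0), .t 1 (nat_lit 0) (.ax 13 14 16 17 0), .t 1 (nat_lit 0) (.ax 13 14 16 18 0), .t 1 (nat_lit 0) (.ax 13 14 16 20 0), .t 1 (nat_lit 0) (.ax 13 14 16 21 0), .t 1 (nat_lit 0) (.ax 13 14 16 22 0), .t 1 (nat_lit 0) (.ax 13 14 17 22 0), .t 1 (nat_lit 0) (.ax 13 14 18 22 0), .t 1 (nat_lit 0) (.ax 13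 15 16 17 2), .t 1 (nat_lit 0) (.ax 13 15 16 17 4), .t 1 (nat_lit 0) (.ax 13 15 16 18 4), .t 1 (nat_lit 0) (.ax 13 15 16 19 4), .t 1 (nat_lit 0) (.ax 13 15 16 20 4), .t 1 (nat_lit 0) (.ax 13 15 21 22 5), .t 1 (nat_lit 0) (.ax 13 16 19 21 0), .t 1 (nat_lit 0) (.ax 13 17 21 22 5), .t 1 (nat_lit 0) (.ax 13 18 21 22 5), .t 1 (nat_lit 0) (.ax 13 19 20 21 0), .t 1 (nat_lit 0) (.ax 14 15 16 17 3), .t 1 (nat_lit 0) (.ax 14 15 16 18 3)] (by decide +kernel) (by decide +kernel)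
theorem b91 : B 2912 2944 := Blk.of_chk [.t 1 (nat_lit 0) (.ax 14 15 16 20 3), .t 1 (nat_lit 0) (.ax 14 15 16 21 3), .t 1 (nat_lit 0) (.ax 14 15 16 22 3), .t 1 (nat_lit 0) (.cp 1 3), .t 1 (nat_lit 0) (.fa 3), .t 1 (nat_lit 0) (.fa 4), .t 1 (nat_lit 0) (.fa 2), .t 1 (nat_lit 0) (.cp 1 3), .t 5 (nat_lit 0x53002500030002) (.z (.node 8 0 (.edon 4 8 (.leaf [4,5,7]) (.leaf [1,3,8,6,2])) (.free 4 [0,9,10,11,12,13,14,15,16,17,18,19,20,21,22]))), .t 6 (nat_lit 0x4490119011600590054) (.z (.node 9 2 (.edon 4 8 (.leaf [4,5,7]) (.leaf [1,3,8,9,6])) (.free 4 [0,2,10,11,12,13,14,15,16,17,18,19,20,21,22]))), .t 1 (nat_lit 0) (.cn 2 2), .t 8 (nat_lit 0xae60ae40ae10b0c0b0a0afb0afa) (.z (.node 0 7 (.edon 0 11 (.leaf [0,8,9,10]) (.edon 0 16 (.leaf [11,12,14,15,13]) (.free 2 [16,17,18,19,20,21,22]))) (.free 2 [1,2,3,4,5,6,7]))), .t 5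 (nat_lit 0xb290b2709980996) (.z (.node 0 7 (.edon 0 12 (.leaf [0,8,9,10,11]) (.edon 0 16 (.leaf [12,14,15,13]) (.free 2 [16,17,18,19,20,21,22]))) (.free 2 [1,2,3,4,5,6,7]))), .t 1 (nat_lit 0) (.fa 4), .t 14 (nat_lit 0xb2c0b380b370b300b2f04ed03e903e603c403ba003d0b490b48) (.z (.edon 0 20 (.node 5 14 (.node 0 11 (.node 0 17 (.leaf [0,18,19]) (.leaf [12,15,16,17,13])) (.node 1 6 (.leaf [1,10,11,2]) (.leaf [3,4,5,8,6]))) (.leaf [7,9,14])) (.free 1 [20,21,22]))), .t 1 (nat_lit 0) (.cp 4 3), .t 8 (nat_lit 0x99409b209ad09a0099b09cf09cd) (.z (.node 0 7 (.node 0 12 (.edon 0 16 (.leaf [0,13,14,15]) (.free 2 [16,17,18,19,20,21,22])) (.leaf [8,9,12,11,10])) (.free 2 [1,2,3,4,5,6,7]))), .t 1 (nat_lit 0) (.fa 3), .t 8 (nat_lit 0x9a709a509a209f109f009c809c7) (.z (.node 0 7 (.edon 0 16 (.edon 10 13 (.leaf [8,9,14,15,10]) (.leaf [0,11,12,13]))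 (.free 2 [16,17,18,19,20,21,22])) (.free 2 [1,2,3,4,5,6,7]))), .t 1 (nat_lit 0) (.fa 2), .t 8 (nat_lit 0x2ca02d502d402ce02cd03040303) (.z (.node 2 4 (.node 0 8 (.free 4 [0,9,10,11,12,13,14,15,16,17,18,19,20,21,22]) (.leaf [2,6,7,8,5])) (.free 1 [1,3,4]))), .t 10 (nat_lit 0xb290b27085a07880785075d0758074c074b) (.z (.edon 0 16 (.edon 0 12 (.node 2 4 (.node 2 8 (.leaf [0,2,10,11]) (.leaf [5,6,7,9,8])) (.leaf [1,3,4])) (.leaf [12,14,15,13])) (.free 2 [16,17,18,19,20,21,22]))), .t 1 (nat_lit 0) (.cn 1 2), .t 10 (nat_lit 0xb290b27085a07880785075d0758074c074b) (.z (.edon 0 16 (.edon 0 12 (.node 2 4 (.node 2 9 (.leaf [0,2,10,11]) (.leaf [5,6,7,9,8])) (.leaf [1,3,4])) (.leaf [12,14,15,13])) (.free 2 [16,17,18,19,20,21,22]))), .t 1 (nat_lit 0) (.cp 1 2), .t 1 (nat_lit 0) (.fa 2), .t 1 (nat_lit 0) (.cn 1 3), .t 5 (nat_lit 0xb290b270340033f)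 (.z (.edon 0 16 (.edon 0 12 (.edon 1 8 (.free 2 [1,3,4,5,6,7,9]) (.leaf [0,2,8,10,11])) (.leaf [12,14,15,13])) (.free 2 [16,17,18,19,20,21,22]))), .t 1 (nat_lit 0) (.cn 2 2), .t 1 (nat_lit 0) (.cp 1 3), .t 5 (nat_lit 0xb290b270340033f) (.z (.edon 0 16 (.edon 0 12 (.edon 1 10 (.free 2 [1,3,4,5,6,7,9]) (.leaf [0,2,8,10,11])) (.leaf [12,14,15,13])) (.free 2 [16,17,18,19,20,21,22]))), .t 5 (nat_lit 0x2a6005300030002) (.z (.node 8 0 (.edon 4 6 (.leaf [4,5,7]) (.leaf [1,3,6,8,2])) (.free 4 [0,9,10,11,12,13,14,15,16,17,18,19,20,21,22])))] (by decide +kernel) (by decide +kernel)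
theorem b92 : B 2944 2976 := Blk.of_chk [.t 5 (nat_lit 0x2a0004b00030001) (.z (.node 8 0 (.edon 4 5 (.leaf [4,6,7]) (.leaf [1,3,5,8,2])) (.free 4 [0,9,10,11,12,13,14,15,16,17,18,19,20,21,22]))), .t 5 (nat_lit 0x2a6005300030002) (.z (.node 8 0 (.edon 4 8 (.leaf [4,5,7]) (.leaf [1,3,6,8,2])) (.free 4 [0,9,10,11,12,13,14,15,16,17,18,19,20,21,22]))), .t 1 (nat_lit 0) (.fa 4), .t 1 (nat_lit 0) (.cp 4 3), .t 1 (nat_lit 0) (.cp 4 3), .t 1 (nat_lit 0) (.fa 2), .t 5 (nat_lit 0x2a0004b00030001) (.z (.node 8 0 (.edon 4 8 (.leaf [4,6,7]) (.leaf [1,3,5,8,2])) (.free 4 [0,9,10,11,12,13,14,15,16,17,18,19,20,21,22]))), .t 3 (nat_lit 0x2cc02cb) (.z (.edon 0 8 (.node 2 4 (.leaf [0,2,5,6,7]) (.leaf [1,3,4])) (.free 4 [8,9,10,11,12,13,14,15,16,17,18,19,20,21,22]))), .t 6 (nat_lit 0x5950445044403e403c2) (.z (.node 15 1 (.node 4 9 (.leaf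 [3,4,14,15,5]) (.leaf [6,7,9])) (.free 4 [0,1,2,8,10,11,12,13,16,17,18,19,20,21,22]))), .t 7 (nat_lit 0x55c055b0428042603bd0033) (.z (.edon 0 16 (.node 0 12 (.leaf [0,13,14,15]) (.node 1 10 (.leaf [1,8,11,2]) (.node 4 9 (.leaf [3,4,12,10,5]) (.leaf [6,7,9])))) (.free 2 [16,17,18,19,20,21,22]))), .t 6 (nat_lit 0x56405620430042e03bd) (.z (.node 10 1 (.node 4 9 (.leaf [3,4,14,10,5]) (.leaf [6,7,9])) (.free 4 [0,1,2,8,11,12,13,15,16,17,18,19,20,21,22]))), .t 6 (nat_lit 0x57205700439043703be) (.z (.node 11 1 (.node 4 9 (.leaf [3,4,14,11,5]) (.leaf [6,7,9])) (.free 4 [0,1,2,8,10,12,13,15,16,17,18,19,20,21,22]))), .t 1 (nat_lit 0) (.cn 7 2), .t 1 (nat_lit 0) (.cn 1 3), .t 6 (nat_lit 0x2e100c000bb00320020) (.z (.edon 0 16 (.node 1 14 (.node 0 10 (.leaf [0,11,13,15]) (.leaf [1,5,10,8,2])) (.free 2 [3,4,6,7,9,12,14])) (.free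 2 [16,17,18,19,20,21,22]))), .t 6 (nat_lit 0x59105900442044103c0) (.z (.node 13 1 (.node 4 9 (.leaf [3,4,14,13,5]) (.leaf [6,7,9])) (.free 4 [0,1,2,8,10,11,12,15,16,17,18,19,20,21,22]))), .t 1 (nat_lit 0) (.cn 1 3), .t 6 (nat_lit 0xb3f0b1a0b090af80af6) (.z (.node 0 7 (.edon 0 11 (.leaf [0,8,9,10]) (.edon 14 22 (.free 2 [14,15,16,17,18,19,20]) (.leaf [11,12,13,22,21]))) (.free 2 [1,2,3,4,5,6,7]))), .t 5 (nat_lit 0xb290b2702e402e3) (.z (.edon 0 16 (.edon 0 12 (.edon 1 11 (.free 2 [1,3,4,6,7,9,10]) (.leaf [0,2,5,8,11])) (.leaf [12,14,15,13])) (.free 2 [16,17,18,19,20,21,22]))), .t 10 (nat_lit 0x2ca02d702d602d002cf0b290b2703060305) (.z (.edon 0 16 (.edon 0 12 (.node 2 4 (.edon 5 10 (.leaf [2,6,7,9,5]) (.leaf [0,8,10,11])) (.leaf [1,3,4])) (.leaf [12,14,15,13])) (.free 2 [16,17,18,19,20,21,22]))), .t 8 (nat_lit 0xb290b27040b00d300d0005e004e)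 (.z (.edon 0 16 (.edon 0 12 (.edon 1 11 (.edon 4 9 (.leaf [4,6,7]) (.leaf [1,3,9,10,5])) (.leaf [0,2,8,11])) (.leaf [12,14,15,13])) (.free 2 [16,17,18,19,20,21,22]))), .t 8 (nat_lit 0xb290b27040b00d300d0005e004e) (.z (.edon 0 16 (.edon 0 12 (.edon 1 8 (.edon 4 9 (.leaf [4,6,7]) (.leaf [1,3,9,10,5])) (.leaf [0,2,8,11])) (.leaf [12,14,15,13])) (.free 2 [16,17,18,19,20,21,22]))), .t 5 (nat_lit 0xb290b2702e402e3) (.z (.edon 0 16 (.edon 0 12 (.edon 1 8 (.free 2 [1,3,4,6,7,9,10]) (.leaf [0,2,5,8,11])) (.leaf [12,14,15,13])) (.free 2 [16,17,18,19,20,21,22]))), .t 5 (nat_lit 0xb290b2702fa02f9) (.z (.edon 0 16 (.edon 0 12 (.edon 1 10 (.free 2 [1,3,4,6,7,8,9]) (.leaf [0,2,5,10,11])) (.leaf [12,14,15,13])) (.free 2 [16,17,18,19,20,21,22]))), .t 5 (nat_lit 0xb290b2702fa02f9) (.z (.edon 0 16 (.edon 0 12 (.edon 1 5 (.free 2 [1,3,4,6,7,8,9])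 (.leaf [0,2,5,10,11])) (.leaf [12,14,15,13])) (.free 2 [16,17,18,19,20,21,22]))), .t 1 (nat_lit 0) (.cn 1 3), .t 4 (nat_lit 0xb3f02fa02f9) (.z (.edon 22 14 (.edon 0 12 (.edon 1 5 (.free 2 [1,3,4,6,7,8,9]) (.leaf [0,2,5,10,11])) (.leaf [12,13,22,21])) (.free 2 [14,15,16,17,18,19,20]))), .t 4 (nat_lit 0xb3f02fa02f9) (.z (.edon 22 14 (.edon 0 12 (.edon 1 10 (.free 2 [1,3,4,6,7,8,9]) (.leaf [0,2,5,10,11])) (.leaf [12,13,22,21])) (.free 2 [14,15,16,17,18,19,20]))), .t 4 (nat_lit 0xb3f0340033f) (.z (.edon 22 14 (.edon 0 12 (.edon 1 8 (.free 2 [1,3,4,5,6,7,9]) (.leaf [0,2,8,10,11])) (.leaf [12,13,22,21])) (.free 2 [14,15,16,17,18,19,20]))), .t 8 (nat_lit 0x99409b709b409a509a209d809d6) (.z (.node 0 7 (.edon 0 16 (.node 12 14 (.leaf [0,12,13,15]) (.leaf [8,9,14,11,10])) (.free 2 [16,17,18,19,20,21,22])) (.free 2 [1,2,3,4,5,6,7]))),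 .t 5 (nat_lit 0x99909940b290b28) (.z (.node 0 7 (.node 0 11 (.edon 0 16 (.leaf [0,12,13,14,15]) (.free 2 [16,17,18,19,20,21,22])) (.leaf [8,9,11,10])) (.free 2 [1,2,3,4,5,6,7]))), .t 1 (nat_lit 0) (.cn 2 2)] (by decide +kernel) (by decide +kernel)
theorem b93 : B 2976 3008 := Blk.of_chk [.t 1 (nat_lit 0) (.cn 1 3), .t 1 (nat_lit 0) (.cn 1 3), .t 8 (nat_lit 0xa980a960a920ad20ad10aaa0aa9) (.z (.edon 0 16 (.edon 1 14 (.free 2 [1,3,4,6,7,8,9]) (.edon 10 12 (.leaf [10,11,14,15,13]) (.leaf [0,2,5,12]))) (.free 2 [16,17,18,19,20,21,22]))), .t 1 (nat_lit 0) (.cn 2 3), .t 1 (nat_lit 0) (.cn 7 2), .t 5 (nat_lit 0x9b709b40ab70ab5) (.z (.node 0 7 (.edon 0 16 (.node 10 14 (.leaf [0,10,12,13,15]) (.leaf [8,9,14,11])) (.free 2 [16,17,18,19,20,21,22])) (.free 2 [1,2,3,4,5,6,7]))), .t 8 (nat_lit 0xb290b0c0b0a0afb0af90ae90ae8) (.z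 (.node 0 7 (.edon 0 11 (.leaf [0,8,9,10]) (.edon 0 16 (.leaf [11,14,15,13,12]) (.free 2 [16,17,18,19,20,21,22]))) (.free 2 [1,2,3,4,5,6,7]))), .t 10 (nat_lit 0x99409b709b409a509a209d809d60b2e0b2c) (.z (.node 0 7 (.node 0 16 (.free 2 [0,17,18,19,20,21,22]) (.node 12 14 (.leaf [12,15,16,13]) (.leaf [8,9,14,11,10]))) (.free 2 [1,2,3,4,5,6,7]))), .t 10 (nat_lit 0xab90ab80ab309b709b40ad50ad30acf0ace) (.z (.node 0 7 (.node 0 16 (.free 2 [0,17,18,19,20,21,22]) (.node 10 14 (.leaf [10,12,15,16,13]) (.leaf [8,9,14,11]))) (.free 2 [1,2,3,4,5,6,7]))), .t 5 (nat_lit 0xb290b2702e002df) (.z (.edon 0 16 (.edon 0 12 (.edon 1 8 (.free 2 [1,3,4,6,7,9,11]) (.leaf [0,2,5,8,10])) (.leaf [12,14,15,13])) (.free 2 [16,17,18,19,20,21,22]))), .t 4 (nat_lit 0xb3f02e002df) (.z (.edon 22 14 (.edon 0 12 (.edon 1 8 (.free 2 [1,3,4,6,7,9,11]) (.leaf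 [0,2,5,8,10])) (.leaf [12,13,22,21])) (.free 2 [14,15,16,17,18,19,20]))), .t 4 (nat_lit 0x10b290b28) (.z (.edon 0 16 (.node 0 11 (.leaf [0,12,13,14,15]) (.edon 4 5 (.free 2 [4,6,7,8,9,10,11]) (.leaf [1,3,5,2]))) (.free 2 [16,17,18,19,20,21,22]))), .t 1 (nat_lit 0) (.cp 1 3), .t 4 (nat_lit 0xb3f02eb02ea) (.z (.edon 22 14 (.edon 0 12 (.edon 1 9 (.free 2 [1,3,4,6,7,8,11]) (.leaf [0,2,5,9,10])) (.leaf [12,13,22,21])) (.free 2 [14,15,16,17,18,19,20]))), .t 6 (nat_lit 0xb3f02dd02dc08730870) (.z (.node 2 4 (.edon 0 12 (.edon 6 9 (.leaf [6,7,11,10]) (.leaf [0,2,5,8,9])) (.edon 14 22 (.free 2 [14,15,16,17,18,19,20]) (.leaf [12,13,22,21]))) (.free 1 [1,3,4]))), .t 8 (nat_lit 0xa1909d709d509b609b509a509a4) (.z (.node 0 7 (.edon 0 16 (.node 12 14 (.leaf [0,12,13,15]) (.leaf [8,11,14,10,9])) (.free 2 [16,17,18,19,20,21,22]))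 (.free 2 [1,2,3,4,5,6,7]))), .t 13 (nat_lit 0xa760a960a920a810a7d0ab20ab103f600b900b60059004c) (.z (.edon 1 21 (.edon 0 15 (.edon 0 10 (.edon 4 8 (.leaf [4,6,7]) (.leaf [1,3,8,9,5])) (.leaf [10,11,14,13,12])) (.free 2 [15,16,17,18,19,20,22])) (.free 1 [0,2,21]))), .t 1 (nat_lit 0) (.cn 7 3), .t 1 (nat_lit 0) (.cn 7 2), .t 17 (nat_lit 0xa760a980a960a920a830a810a7d0b290ad20ad10acb0ac90ab80ab60aaa0aa9) (.z (.edon 0 16 (.edon 0 10 (.free 3 [0,1,2,3,4,5,6,7,8,9]) (.leaf [10,11,14,15,13,12])) (.free 2 [16,17,18,19,20,21,22]))), .t 5 (nat_lit 0x2a1004c00040001) (.z (.edon 0 16 (.node 0 12 (.leaf [0,13,14,15]) (.edon 4 5 (.free 2 [4,6,7,8,10,11,12]) (.leaf [1,3,5,9,2]))) (.free 2 [16,17,18,19,20,21,22]))), .t 1 (nat_lit 0) (.cn 2 3), .t 11 (nat_lit 0xa980a960a9203d80ad20ad10aaa0aa907490748) (.z (.edon 0 16 (.edon 0 3 (.leaf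 [0,1,2]) (.edon 5 12 (.edon 0 10 (.leaf [5,6,7,8]) (.leaf [10,11,14,15,13])) (.leaf [3,4,12,9]))) (.free 2 [16,17,18,19,20,21,22]))), .t 1 (nat_lit 0) (.cn 2 3), .t 1 (nat_lit 0) (.fa 3), .t 1 (nat_lit 0) (.cn 1 3), .t 1 (nat_lit 0) (.cn 2 2), .t 1 (nat_lit 0) (.cn 2 3), .t 1 (nat_lit 0) (.cp 2 3), .t 9 (nat_lit 0xab40acf0acd0abd0aba001f0ad50ad4) (.z (.node 1 14 (.node 0 9 (.node 0 16 (.free 2 [0,17,18,19,20,21,22]) (.leaf [10,13,15,16,12])) (.leaf [1,5,9,2])) (.free 2 [3,4,6,7,8,11,14]))), .t 1 (nat_lit 0) (.fa 4), .t 5 (nat_lit 0x2b0006000070004) (.z (.edon 0 16 (.node 0 12 (.leaf [0,13,14,15]) (.node 3 5 (.leaf [1,3,9,12,2]) (.free 2 [4,5,6,7,8,10,11]))) (.free 2 [16,17,18,19,20,21,22])))] (by decide +kernel) (by decide +kernel)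
theorem b94 : B 3008 3040 := Blk.of_chk [.t 8 (nat_lit 0x99509b109ae099f099c09ce09cc) (.z (.node 0 7 (.node 0 12 (.edon 0 16 (.leaf [0,13,14,15]) (.free 2 [16,17,18,19,20,21,22])) (.leaf [8,10,11,12,9])) (.free 2 [1,2,3,4,5,6,7]))), .t 6 (nat_lit 0xb3f02dd02dc08730870) (.z (.node 2 4 (.edon 0 12 (.edon 6 8 (.leaf [6,7,11,10]) (.leaf [0,2,5,8,9])) (.edon 14 22 (.free 2 [14,15,16,17,18,19,20]) (.leaf [12,13,22,21]))) (.free 1 [1,3,4]))), .t 9 (nat_lit 0xb3f0516051403f703f503ba08730870) (.z (.edon 0 3 (.free 1 [0,1,2]) (.edon 0 12 (.edon 6 9 (.leaf [6,7,11,10]) (.leaf [3,4,9,8,5])) (.edon 14 22 (.free 2 [14,15,16,17,18,19,20]) (.leaf [12,13,22,21]))))), .t 10 (nat_lit 0xb290b270516051403f703f503ba08730870) (.z (.edon 0 16 (.edon 0 3 (.leaf [0,1,2]) (.edon 0 12 (.edon 6 9 (.leaf [6,7,11,10]) (.leaf [3,4,9,8,5])) (.leaf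 [12,14,15,13]))) (.free 2 [16,17,18,19,20,21,22]))), .t 7 (nat_lit 0xb290b2702dd02dc08730870) (.z (.edon 0 16 (.edon 0 12 (.node 2 4 (.edon 6 9 (.leaf [6,7,11,10]) (.leaf [0,2,5,8,9])) (.leaf [1,3,4])) (.leaf [12,14,15,13])) (.free 2 [16,17,18,19,20,21,22]))), .t 7 (nat_lit 0xb290b2702dd02dc08730870) (.z (.edon 0 16 (.edon 0 12 (.node 2 4 (.edon 6 8 (.leaf [6,7,11,10]) (.leaf [0,2,5,8,9])) (.leaf [1,3,4])) (.leaf [12,14,15,13])) (.free 2 [16,17,18,19,20,21,22]))), .t 5 (nat_lit 0x2a1004c00040001) (.z (.edon 0 16 (.node 0 12 (.leaf [0,13,14,15]) (.node 3 10 (.leaf [1,3,5,9,2]) (.free 2 [4,6,7,8,10,11,12]))) (.free 2 [16,17,18,19,20,21,22]))), .t 5 (nat_lit 0x2a1004c00040001) (.z (.edon 0 16 (.node 0 12 (.leaf [0,13,14,15]) (.edon 4 9 (.free 2 [4,6,7,8,10,11,12]) (.leaf [1,3,5,9,2]))) (.free 2 [16,17,18,19,20,21,22]))),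 .t 4 (nat_lit 0x10a250a23) (.z (.edon 16 4 (.node 0 5 (.edon 0 16 (.leaf [0,9,10,12,13]) (.free 2 [16,17,18,19,20,21,22])) (.leaf [1,3,5,2])) (.free 2 [4,6,7,8,11,14,15]))), .t 9 (nat_lit 0xb3f0862085f05380536040c040a03bb) (.z (.edon 0 3 (.free 1 [0,1,2]) (.edon 0 12 (.node 4 8 (.leaf [3,4,10,9,5]) (.leaf [6,7,11,8])) (.edon 14 22 (.free 2 [14,15,16,17,18,19,20]) (.leaf [12,13,22,21]))))), .t 4 (nat_lit 0xb3f02eb02ea) (.z (.edon 22 14 (.edon 0 12 (.edon 1 10 (.free 2 [1,3,4,6,7,8,11]) (.leaf [0,2,5,9,10])) (.leaf [12,13,22,21])) (.free 2 [14,15,16,17,18,19,20]))), .t 4 (nat_lit 0xb3f02e002df) (.z (.edon 22 14 (.edon 0 12 (.edon 1 10 (.free 2 [1,3,4,6,7,9,11]) (.leaf [0,2,5,8,10])) (.leaf [12,13,22,21])) (.free 2 [14,15,16,17,18,19,20]))), .t 5 (nat_lit 0xb290b2702eb02ea) (.z (.edon 0 16 (.edon 0 12 (.edon 1 9 (.free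 2 [1,3,4,6,7,8,11]) (.leaf [0,2,5,9,10])) (.leaf [12,14,15,13])) (.free 2 [16,17,18,19,20,21,22]))), .t 5 (nat_lit 0xb290b2702e002df) (.z (.edon 0 16 (.edon 0 12 (.edon 1 10 (.free 2 [1,3,4,6,7,9,11]) (.leaf [0,2,5,8,10])) (.leaf [12,14,15,13])) (.free 2 [16,17,18,19,20,21,22]))), .t 1 (nat_lit 0) (.cp 1 3), .t 10 (nat_lit 0xb290b27086c0869051d051b03fd03fb03ba) (.z (.edon 0 16 (.edon 0 3 (.leaf [0,1,2]) (.edon 0 12 (.node 4 9 (.leaf [3,4,10,8,5]) (.leaf [6,7,11,9])) (.leaf [12,14,15,13]))) (.free 2 [16,17,18,19,20,21,22]))), .t 9 (nat_lit 0xb3f086c0869051d051b03fd03fb03ba) (.z (.edon 0 3 (.free 1 [0,1,2]) (.edon 0 12 (.node 4 9 (.leaf [3,4,10,8,5]) (.leaf [6,7,11,9])) (.edon 14 22 (.free 2 [14,15,16,17,18,19,20]) (.leaf [12,13,22,21]))))), .t 9 (nat_lit 0xb3f086c0869051d051b03fd03fb03ba) (.z (.edon 0 3 (.free 1 [0,1,2])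 (.edon 0 12 (.node 4 11 (.leaf [3,4,10,8,5]) (.leaf [6,7,11,9])) (.edon 14 22 (.free 2 [14,15,16,17,18,19,20]) (.leaf [12,13,22,21]))))), .t 7 (nat_lit 0xb3f04bd01c701c20065005f) (.z (.edon 22 14 (.edon 0 12 (.edon 1 8 (.edon 4 9 (.leaf [4,6,7]) (.leaf [1,3,9,11,10])) (.leaf [0,2,5,8])) (.leaf [12,13,22,21])) (.free 2 [14,15,16,17,18,19,20]))), .t 1 (nat_lit 0) (.cn 1 3), .t 5 (nat_lit 0xb290b27031a0319) (.z (.edon 0 16 (.edon 0 12 (.edon 1 9 (.free 2 [1,3,4,5,7,8,11]) (.leaf [0,2,6,9,10])) (.leaf [12,14,15,13])) (.free 2 [16,17,18,19,20,21,22]))), .t 4 (nat_lit 0xb3f031a0319) (.z (.edon 22 14 (.edon 0 12 (.edon 1 9 (.free 2 [1,3,4,5,7,8,11]) (.leaf [0,2,6,9,10])) (.leaf [12,13,22,21])) (.free 2 [14,15,16,17,18,19,20]))), .t 4 (nat_lit 0xb3f031a0319) (.z (.edon 22 14 (.edon 0 12 (.edon 1 10 (.free 2 [1,3,4,5,7,8,11])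 (.leaf [0,2,6,9,10])) (.leaf [12,13,22,21])) (.free 2 [14,15,16,17,18,19,20]))), .t 4 (nat_lit 0xb3f031f031e) (.z (.edon 22 14 (.edon 0 12 (.node 6 10 (.leaf [0,2,6,9,11]) (.free 2 [1,3,4,5,7,8,10])) (.leaf [12,13,22,21])) (.free 2 [14,15,16,17,18,19,20]))), .t 5 (nat_lit 0xb290b27031f031e) (.z (.edon 0 16 (.edon 0 12 (.node 6 10 (.leaf [0,2,6,9,11]) (.free 2 [1,3,4,5,7,8,10])) (.leaf [12,14,15,13])) (.free 2 [16,17,18,19,20,21,22]))), .t 1 (nat_lit 0) (.cn 1 3), .t 5 (nat_lit 0xb290b27036a0368) (.z (.edon 0 16 (.edon 0 12 (.node 2 8 (.leaf [0,2,9,10,11]) (.free 2 [1,3,4,5,6,7,8])) (.leaf [12,14,15,13])) (.free 2 [16,17,18,19,20,21,22]))), .t 4 (nat_lit 0xb3f036a0368) (.z (.edon 22 14 (.edon 0 12 (.node 2 8 (.leaf [0,2,9,10,11]) (.free 2 [1,3,4,5,6,7,8])) (.leaf [12,13,22,21])) (.free 2 [14,15,16,17,18,19,20]))),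 .t 6 (nat_lit 0x31f031e013901370026) (.z (.edon 0 16 (.node 0 12 (.leaf [0,13,14,15]) (.node 6 10 (.leaf [1,6,9,11,2]) (.free 2 [3,4,5,7,8,10,12]))) (.free 2 [16,17,18,19,20,21,22]))), .t 4 (nat_lit 0x20b290b28) (.z (.edon 0 16 (.node 0 11 (.leaf [0,12,13,14,15]) (.edon 4 6 (.free 2 [4,5,7,8,9,10,11]) (.leaf [1,3,6,2]))) (.free 2 [16,17,18,19,20,21,22]))), .t 1 (nat_lit 0) (.cn 1 3), .t 1 (nat_lit 0) (.cn 1 3)] (by decide +kernel) (by decide +kernel)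
theorem b95 : B 3040 3072 := Blk.of_chk [.t 7 (nat_lit 0x4f904f602af005f00060004) (.z (.edon 0 16 (.node 5 14 (.node 0 11 (.leaf [0,12,13,15]) (.node 3 10 (.leaf [1,3,9,11,2]) (.leaf [4,5,10,6]))) (.leaf [7,8,14])) (.free 2 [16,17,18,19,20,21,22]))), .t 12 (nat_lit 0x465031b02a80133012e005e00550036000500040002) (.z (.edon 4 16 (.free 2 [4,5,7,8,13,14,15]) (.node 10 0 (.leaf [1,3,6,10,9,2]) (.free 3 [0,11,12,16,17,18,19,20,21,22])))), .t 1 (nat_lit 0) (.cp 2 3), .t 8 (nat_lit 0xb3f0b1a0b090af80af607490747) (.z (.edon 22 14 (.edon 0 11 (.node 4 6 (.free 2 [0,1,2,3,4,9,10]) (.leaf [5,7,8,6])) (.leaf [11,12,13,22,21])) (.free 2 [14,15,16,17,18,19,20]))), .t 5 (nat_lit 0x5e003600050004) (.z (.edon 16 4 (.node 0 10 (.edon 13 21 (.free 2 [13,16,17,18,19,20,22]) (.leaf [0,11,12,21])) (.leaf [1,3,10,9,2])) (.free 2 [4,5,6,7,8,14,15]))),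 .t 1 (nat_lit 0) (.cn 7 3), .t 1 (nat_lit 0) (.cn 2 3), .t 1 (nat_lit 0) (.cn 2 3), .t 5 (nat_lit 0x2b4006b00070006) (.z (.edon 0 16 (.node 0 12 (.leaf [0,13,14,15]) (.node 3 9 (.leaf [1,3,11,12,2]) (.free 2 [4,5,6,7,8,9,10]))) (.free 2 [16,17,18,19,20,21,22]))), .t 5 (nat_lit 0x2af005f00060004) (.z (.edon 0 16 (.node 0 12 (.leaf [0,13,14,15]) (.node 3 10 (.leaf [1,3,9,11,2]) (.free 2 [4,5,6,7,8,10,12]))) (.free 2 [16,17,18,19,20,21,22]))), .t 7 (nat_lit 0x4f903ef03ee03c703bd0038) (.z (.node 14 22 (.node 5 14 (.node 0 11 (.leaf [0,12,13,21]) (.node 1 10 (.leaf [1,9,11,2]) (.leaf [3,4,5,10,6]))) (.leaf [7,8,14])) (.free 2 [15,16,17,18,19,20,22]))), .t 5 (nat_lit 0x5e003600050004) (.z (.edon 16 4 (.node 0 10 (.edon 0 16 (.leaf [0,11,12,13]) (.free 2 [16,17,18,19,20,21,22])) (.leaf [1,3,10,9,2])) (.free 2 [4,5,6,7,8,14,15]))),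 .t 5 (nat_lit 0x2af005f00060004) (.z (.edon 0 16 (.node 0 12 (.leaf [0,13,14,15]) (.edon 4 9 (.free 2 [4,5,6,7,8,10,12]) (.leaf [1,3,9,11,2]))) (.free 2 [16,17,18,19,20,21,22]))), .t 1 (nat_lit 0) (.cn 2 3), .t 1 (nat_lit 0) (.cn 2 3), .t 5 (nat_lit 0x2b4006b00070006) (.z (.edon 0 16 (.node 0 12 (.leaf [0,13,14,15]) (.node 3 10 (.leaf [1,3,11,12,2]) (.free 2 [4,5,6,7,8,9,10]))) (.free 2 [16,17,18,19,20,21,22]))), .t 6 (nat_lit 0x38b038a02120210003d) (.z (.edon 0 16 (.node 0 12 (.leaf [0,13,14,15]) (.node 1 9 (.leaf [1,10,11,12,2]) (.free 2 [3,4,5,6,7,8,9]))) (.free 2 [16,17,18,19,20,21,22]))), .t 5 (nat_lit 0x2a8005500050002) (.z (.edon 0 16 (.node 0 12 (.leaf [0,13,14,15]) (.edon 4 10 (.free 2 [4,5,7,8,9,11,12]) (.leaf [1,3,6,10,2]))) (.free 2 [16,17,18,19,20,21,22]))), .t 1 (nat_lit 0) (.cn 2 2), .t 1 (nat_lit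 0) (.cn 2 3), .t 1 (nat_lit 0) (.fa 3), .t 4 (nat_lit 0x60b290b28) (.z (.edon 0 16 (.node 0 11 (.leaf [0,12,13,14,15]) (.node 3 10 (.leaf [1,3,11,2]) (.free 2 [4,5,6,7,8,9,10]))) (.free 2 [16,17,18,19,20,21,22]))), .t 5 (nat_lit 0x2a8005500050002) (.z (.edon 16 4 (.node 0 10 (.edon 0 16 (.leaf [0,11,12,13]) (.free 2 [16,17,18,19,20,21,22])) (.leaf [1,3,6,10,2])) (.free 2 [4,5,7,8,9,14,15]))), .t 1 (nat_lit 0) (.cn 2 3), .t 7 (nat_lit 0x2b100650006000504f404ef) (.z (.edon 0 16 (.node 0 12 (.leaf [0,13,14,15]) (.node 5 12 (.edon 6 10 (.leaf [4,5,9,6]) (.leaf [1,3,10,11,2])) (.leaf [7,8,12]))) (.free 2 [16,17,18,19,20,21,22]))), .t 1 (nat_lit 0) (.cn 2 2), .t 5 (nat_lit 0x2a9005600060002) (.z (.edon 0 16 (.node 0 12 (.leaf [0,13,14,15]) (.node 6 10 (.leaf [1,3,6,11,2]) (.free 2 [4,5,7,8,9,10,12]))) (.free 2 [16,17,18,19,20,21,22]))),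 .t 8 (nat_lit 0x9a00a100a0e09cf09cd09990997) (.z (.node 0 7 (.node 0 12 (.edon 0 16 (.leaf [0,13,14,15]) (.free 2 [16,17,18,19,20,21,22])) (.leaf [8,12,11,10,9])) (.free 2 [1,2,3,4,5,6,7]))), .t 5 (nat_lit 0x2b1006500060005) (.z (.edon 0 16 (.node 0 12 (.leaf [0,13,14,15]) (.node 3 6 (.leaf [1,3,10,11,2]) (.free 2 [4,5,6,7,8,9,12]))) (.free 2 [16,17,18,19,20,21,22]))), .t 12 (nat_lit 0x4640462031a031902a7013201300054000500040002) (.z (.edon 4 16 (.free 2 [4,5,7,8,12,14,15]) (.node 10 0 (.leaf [1,3,6,9,10,2]) (.free 3 [0,11,13,16,17,18,19,20,21,22])))), .t 1 (nat_lit 0) (.cn 2 3), .t 12 (nat_lit 0x4640462031a031902a7013201300054000500040002) (.z (.edon 4 16 (.free 2 [4,5,7,8,13,14,15]) (.node 10 0 (.leaf [1,3,6,9,10,2]) (.free 3 [0,11,12,16,17,18,19,20,21,22]))))] (by decide +kernel) (by decide +kernel)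
theorem b96 : B 3072 3104 := Blk.of_chk [.t 7 (nat_lit 0x4f403ed03ea03c503bb003d) (.z (.edon 0 16 (.node 5 14 (.node 0 11 (.leaf [0,12,13,15]) (.node 1 9 (.leaf [1,10,11,2]) (.leaf [3,4,5,9,6]))) (.leaf [7,8,14])) (.free 2 [16,17,18,19,20,21,22]))), .t 5 (nat_lit 0x2ae005e00050004) (.z (.edon 16 4 (.node 0 10 (.edon 13 21 (.free 2 [13,16,17,18,19,20,22]) (.leaf [0,11,12,21])) (.leaf [1,3,9,10,2])) (.free 2 [4,5,6,7,8,14,15]))), .t 5 (nat_lit 0x2ae005e00050004) (.z (.edon 16 4 (.node 0 10 (.edon 0 16 (.leaf [0,11,12,13]) (.free 2 [16,17,18,19,20,21,22])) (.leaf [1,3,9,10,2])) (.free 2 [4,5,6,7,8,14,15]))), .t 1 (nat_lit 0) (.cn 2 3), .t 5 (nat_lit 0x2b1006500060005) (.z (.node 14 22 (.node 3 9 (.node 0 11 (.leaf [0,12,13,21]) (.leaf [1,3,10,11,2])) (.free 2 [4,5,6,7,8,9,14])) (.free 2 [15,16,17,18,19,20,22]))), .t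 7 (nat_lit 0xb3f04490119011600590054) (.z (.edon 22 14 (.edon 0 12 (.edon 1 10 (.edon 4 8 (.leaf [4,5,7]) (.leaf [1,3,8,9,6])) (.leaf [0,2,10,11])) (.leaf [12,13,22,21])) (.free 2 [14,15,16,17,18,19,20]))), .t 8 (nat_lit 0xb290b2704490119011600590054) (.z (.edon 0 16 (.edon 0 12 (.edon 1 10 (.edon 4 8 (.leaf [4,5,7]) (.leaf [1,3,8,9,6])) (.leaf [0,2,10,11])) (.leaf [12,14,15,13])) (.free 2 [16,17,18,19,20,21,22]))), .t 1 (nat_lit 0) (.fa 3), .t 7 (nat_lit 0x4f403ed03ea03c503bb003d) (.z (.edon 0 16 (.node 0 12 (.leaf [0,13,14,15]) (.node 1 9 (.leaf [1,10,11,2]) (.node 5 8 (.leaf [3,4,5,9,6]) (.leaf [7,8,12])))) (.free 2 [16,17,18,19,20,21,22]))), .t 4 (nat_lit 0x50b290b28) (.z (.edon 0 16 (.node 0 11 (.leaf [0,12,13,14,15]) (.edon 4 10 (.free 2 [4,5,6,7,8,9,11]) (.leaf [1,3,10,2]))) (.free 2 [16,17,18,19,20,21,22]))),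 .t 1 (nat_lit 0) (.cn 2 2), .t 7 (nat_lit 0x4ed03e903e603c403ba0036) (.z (.edon 0 16 (.node 5 14 (.node 0 10 (.leaf [0,11,13,15]) (.node 1 6 (.leaf [1,9,10,2]) (.leaf [3,4,5,8,6]))) (.leaf [7,12,14])) (.free 2 [16,17,18,19,20,21,22]))), .t 1 (nat_lit 0) (.fa 2), .t 14 (nat_lit 0xb2c0b380b370b300b2f04f403ed03ea03c503bb003d0b490b48) (.z (.edon 0 20 (.node 5 14 (.node 0 11 (.node 0 17 (.leaf [0,18,19]) (.leaf [12,15,16,17,13])) (.node 1 9 (.leaf [1,10,11,2]) (.leaf [3,4,5,9,6]))) (.leaf [7,8,14])) (.free 1 [20,21,22]))), .t 4 (nat_lit 0x60b290b28) (.z (.edon 0 16 (.node 0 11 (.leaf [0,12,13,14,15]) (.edon 4 11 (.free 2 [4,5,6,7,8,9,10]) (.leaf [1,3,11,2]))) (.free 2 [16,17,18,19,20,21,22]))), .t 11 (nat_lit 0x53305570553053f053b0002068e068c0b2e0b2c) (.z (.node 5 14 (.node 0 11 (.node 0 16 (.free 2 [0,17,18,19,20,21,22])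 (.leaf [12,15,16,13])) (.edon 4 6 (.leaf [4,5,11,10,9]) (.leaf [1,3,6,2]))) (.free 1 [7,8,14]))), .t 9 (nat_lit 0x53305570553053f053b0002068e068c) (.z (.node 14 22 (.node 5 14 (.node 0 11 (.leaf [0,12,13,21]) (.edon 4 6 (.leaf [4,5,11,10,9]) (.leaf [1,3,6,2]))) (.leaf [7,8,14])) (.free 2 [15,16,17,18,19,20,22]))), .t 5 (nat_lit 0x2aa005700070002) (.z (.edon 0 16 (.node 0 12 (.leaf [0,13,14,15]) (.node 6 10 (.leaf [1,3,6,12,2]) (.free 2 [4,5,7,8,9,10,11]))) (.free 2 [16,17,18,19,20,21,22]))), .t 6 (nat_lit 0x3290328014d014c0027) (.z (.edon 0 16 (.node 0 12 (.leaf [0,13,14,15]) (.edon 3 10 (.free 2 [3,4,5,7,8,9,11]) (.leaf [1,6,10,12,2]))) (.free 2 [16,17,18,19,20,21,22]))), .t 8 (nat_lit 0xb290b0c0b0a0afb0af90ae90ae8) (.z (.edon 0 16 (.edon 0 11 (.edon 1 9 (.free 2 [1,3,4,5,6,7,8]) (.leaf [0,2,9,10])) (.leaf [11,14,15,13,12]))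 (.free 2 [16,17,18,19,20,21,22]))), .t 14 (nat_lit 0xa8f0a8d0b3f0b1a0b090af80af60ad60ad00ac70ac60a7a0a78) (.z (.edon 14 22 (.free 2 [14,15,16,17,18,19,20]) (.edon 0 10 (.free 3 [0,1,2,3,4,5,6,7,8,9]) (.leaf [10,11,12,13,22,21])))), .t 14 (nat_lit 0xb300aad0b560b550b490b480b2e0b2d04f403ed03ea03c503bb) (.z (.edon 0 3 (.free 1 [0,1,2]) (.node 5 14 (.edon 0 10 (.leaf [3,4,5,9,6]) (.edon 12 22 (.edon 0 18 (.leaf [12,13,15,16,17]) (.leaf [18,19,20])) (.leaf [10,11,22,21]))) (.leaf [7,8,14])))), .t 5 (nat_lit 0x1c701c203b103b0) (.z (.edon 0 16 (.node 1 14 (.node 2 11 (.leaf [0,2,12,13,15]) (.leaf [1,9,11,10])) (.free 2 [3,4,5,6,7,8,14])) (.free 2 [16,17,18,19,20,21,22]))), .t 7 (nat_lit 0x4f403ed03ea03c503bb003e) (.z (.edon 0 16 (.node 0 12 (.leaf [0,13,14,15]) (.node 1 11 (.leaf [1,10,12,2]) (.node 5 11 (.leaf [3,4,5,9,6])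 (.leaf [7,8,11])))) (.free 2 [16,17,18,19,20,21,22]))), .t 8 (nat_lit 0x5df05de0474047303c503980397) (.z (.node 14 22 (.node 1 9 (.edon 1 12 (.leaf [1,11,13]) (.leaf [0,2,10,12,21])) (.node 4 8 (.leaf [3,4,14,9,6]) (.leaf [5,7,8]))) (.free 2 [15,16,17,18,19,20,22]))), .t 6 (nat_lit 0x36b01c701c2003d0038) (.z (.edon 0 16 (.node 1 14 (.node 0 11 (.leaf [0,12,13,15]) (.leaf [1,9,11,10,2])) (.free 2 [3,4,5,6,7,8,14])) (.free 2 [16,17,18,19,20,21,22]))), .t 8 (nat_lit 0xa650a0a0a0909c809c609c409c2) (.z (.node 0 7 (.edon 9 16 (.leaf [8,14,15,13,9]) (.edon 0 16 (.leaf [0,10,11,12]) (.free 2 [16,17,18,19,20,21,22]))) (.free 2 [1,2,3,4,5,6,7]))), .t 24 (nat_lit 0x4ed045a03f003e903e6060305c4048e048d045e045d040807fa07f90681052a052904b704b60404040303ca03ba) (.z (.node 7 4 (.free 1 [7]) (.node 15 1 (.leaf [3,4,5,8,14,15,6]) (.free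 4 [0,1,2,9,10,11,12,13,16,17,18,19,20,21,22])))), .t 9 (nat_lit 0xae70b010aff0aec0aeb00360b110b10) (.z (.node 1 14 (.node 0 10 (.node 0 16 (.free 2 [0,17,18,19,20,21,22]) (.leaf [11,13,15,16,12])) (.leaf [1,9,10,2])) (.free 2 [3,4,5,6,7,8,14]))), .t 1 (nat_lit 0) (.cn 7 2), .t 10 (nat_lit 0xae70b010aff0aec0aeb03b900360b110b10) (.z (.node 5 14 (.node 0 10 (.node 0 16 (.free 2 [0,17,18,19,20,21,22]) (.leaf [11,13,15,16,12])) (.node 1 6 (.leaf [1,9,10,2]) (.leaf [3,4,5,6]))) (.free 1 [7,8,14]))), .t 1 (nat_lit 0) (.cn 2 2)] (by decide +kernel) (by decide +kernel)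
theorem b97 : B 3104 3136 := Blk.of_chk [.t 7 (nat_lit 0x31a031901320130002603be) (.z (.edon 0 16 (.node 5 14 (.node 0 11 (.leaf [0,12,13,15]) (.edon 3 9 (.leaf [3,4,5,11]) (.leaf [1,6,9,10,2]))) (.leaf [7,8,14])) (.free 2 [16,17,18,19,20,21,22]))), .t 7 (nat_lit 0x5d5046c046903d603c8003e) (.z (.edon 0 16 (.node 0 12 (.leaf [0,13,14,15]) (.node 1 11 (.leaf [1,10,12,2]) (.node 4 8 (.leaf [3,4,9,11,6]) (.leaf [5,7,8])))) (.free 2 [16,17,18,19,20,21,22]))), .t 5 (nat_lit 0x2a8005500050002) (.z (.edon 0 16 (.node 12 14 (.leaf [0,12,13,15]) (.edon 4 6 (.free 2 [4,5,7,8,9,11,14]) (.leaf [1,3,6,10,2]))) (.free 2 [16,17,18,19,20,21,22]))), .t 22 (nat_lit 0x5a904ff045a0446041903f603f103f007c6063a05df052a052904a304a2047404730404040303c503ba) (.z (.node 7 4 (.free 1 [7]) (.node 9 1 (.leaf [3,4,5,8,14,9,6]) (.free 4 [0,1,2,10,11,12,13,15,16,17,18,19,20,21,22])))),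 .t 7 (nat_lit 0x2605570421041e03dc03be) (.z (.edon 0 16 (.node 5 14 (.node 0 11 (.leaf [0,12,13,15]) (.edon 3 9 (.leaf [3,4,5,11,10]) (.leaf [1,6,9,2]))) (.leaf [7,8,14])) (.free 2 [16,17,18,19,20,21,22]))), .t 22 (nat_lit 0x5b804ff045a04530435040003f103f007f1066b05f8052a052904b304b0048704850404040303c803ba) (.z (.node 7 4 (.free 1 [7]) (.node 11 1 (.leaf [3,4,5,8,14,11,6]) (.free 4 [0,1,2,9,10,12,13,15,16,17,18,19,20,21,22])))), .t 1 (nat_lit 0) (.cn 1 3), .t 6 (nat_lit 0x45601240121005b0056) (.z (.edon 6 14 (.edon 4 8 (.leaf [4,5,7]) (.leaf [1,3,8,11,6])) (.free 4 [0,2,9,10,12,13,14,15,16,17,18,19,20,21,22]))), .t 8 (nat_lit 0xae60ae40ae10b0c0b0a0afb0afa) (.z (.edon 0 16 (.edon 0 11 (.edon 1 9 (.free 2 [1,3,4,5,6,7,8]) (.leaf [0,2,9,10])) (.leaf [11,12,14,15,13])) (.free 2 [16,17,18,19,20,21,22]))), .t 5 (nat_lit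 0xb290b27031a0319) (.z (.edon 0 16 (.edon 0 12 (.edon 1 6 (.free 2 [1,3,4,5,7,8,11]) (.leaf [0,2,6,9,10])) (.leaf [12,14,15,13])) (.free 2 [16,17,18,19,20,21,22]))), .t 6 (nat_lit 0x31a0319013201300026) (.z (.edon 0 16 (.node 0 12 (.leaf [0,13,14,15]) (.edon 3 9 (.free 2 [3,4,5,7,8,11,12]) (.leaf [1,6,9,10,2]))) (.free 2 [16,17,18,19,20,21,22]))), .t 4 (nat_lit 0xb1a031a0319) (.z (.edon 22 14 (.node 6 12 (.edon 0 11 (.leaf [0,2,6,9,10]) (.leaf [11,13,22,21])) (.free 2 [1,3,4,5,7,8,12])) (.free 2 [14,15,16,17,18,19,20]))), .t 14 (nat_lit 0xb2c0b380b370b300b2f0aad0b490b4804f403ed03ea03c503bb) (.z (.edon 0 3 (.free 1 [0,1,2]) (.node 5 14 (.edon 0 10 (.leaf [3,4,5,9,6]) (.edon 13 22 (.edon 0 18 (.leaf [12,15,16,17,13]) (.leaf [18,19,20])) (.leaf [10,11,22,21]))) (.leaf [7,8,14])))), .t 9 (nat_lit 0xaea0ae90ae600360b110b0f0b010b00)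 (.z (.node 1 14 (.node 0 10 (.node 0 16 (.free 2 [0,17,18,19,20,21,22]) (.leaf [11,12,15,16,13])) (.leaf [1,9,10,2])) (.free 2 [3,4,5,6,7,8,14]))), .t 1 (nat_lit 0) (.cn 2 3), .t 5 (nat_lit 0x2a7005400040002) (.z (.edon 16 4 (.node 0 9 (.edon 0 16 (.leaf [0,10,11,13]) (.free 2 [16,17,18,19,20,21,22])) (.leaf [1,3,6,9,2])) (.free 2 [4,5,7,8,12,14,15]))), .t 10 (nat_lit 0xb290b2707490747068e068c04bd04bb03d5) (.z (.edon 0 16 (.edon 0 3 (.leaf [0,1,2]) (.edon 0 12 (.node 4 6 (.leaf [3,4,11,10,9]) (.leaf [5,7,8,6])) (.leaf [12,14,15,13]))) (.free 2 [16,17,18,19,20,21,22]))), .t 5 (nat_lit 0x2a7005400040002) (.z (.edon 16 4 (.node 0 9 (.edon 0 16 (.leaf [0,10,12,13]) (.free 2 [16,17,18,19,20,21,22])) (.leaf [1,3,6,9,2])) (.free 2 [4,5,7,8,11,14,15]))), .t 1 (nat_lit 0) (.cn 2 3), .t 1 (nat_lit 0) (.cn 2 3), .t 5 (nat_lit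 0x2a8005500050002) (.z (.edon 16 4 (.node 0 10 (.edon 13 21 (.free 2 [13,16,17,18,19,20,22]) (.leaf [0,11,12,21])) (.leaf [1,3,6,10,2])) (.free 2 [4,5,7,8,9,14,15]))), .t 5 (nat_lit 0x2a8005500050002) (.z (.edon 16 4 (.node 0 10 (.node 13 22 (.leaf [0,12,13,21]) (.free 2 [11,16,17,18,19,20,22])) (.leaf [1,3,6,10,2])) (.free 2 [4,5,7,8,9,14,15]))), .t 6 (nat_lit 0xaf50af10aee0b1a0b09) (.z (.edon 22 14 (.edon 0 11 (.edon 1 9 (.free 2 [1,3,4,5,6,7,8]) (.leaf [0,2,9,10])) (.leaf [11,13,22,21,12])) (.free 2 [14,15,16,17,18,19,20]))), .t 5 (nat_lit 0x2a7005400040002) (.z (.edon 16 4 (.node 0 9 (.edon 0 16 (.leaf [0,10,11,12]) (.free 2 [16,17,18,19,20,21,22])) (.leaf [1,3,6,9,2])) (.free 2 [4,5,7,8,13,14,15]))), .t 1 (nat_lit 0) (.cn 2 3), .t 5 (nat_lit 0x2a7005400040002) (.z (.edon 16 4 (.node 0 9 (.edon 13 21 (.free 2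 [13,16,17,18,19,20,22]) (.leaf [0,10,12,21])) (.leaf [1,3,6,9,2])) (.free 2 [4,5,7,8,11,14,15]))), .t 5 (nat_lit 0x2b0006000070004) (.z (.edon 0 16 (.node 0 12 (.leaf [0,13,14,15]) (.node 3 10 (.leaf [1,3,9,12,2]) (.free 2 [4,5,6,7,8,10,11]))) (.free 2 [16,17,18,19,20,21,22]))), .t 1 (nat_lit 0) (.cn 7 3), .t 9 (nat_lit 0xb3f07490747068e068c04bd04bb03d5) (.z (.edon 0 3 (.free 1 [0,1,2]) (.edon 0 12 (.node 4 6 (.leaf [3,4,11,10,9]) (.leaf [5,7,8,6])) (.edon 14 22 (.free 2 [14,15,16,17,18,19,20]) (.leaf [12,13,22,21]))))), .t 5 (nat_lit 0x2ae005e00050004) (.z (.edon 16 4 (.node 0 10 (.node 13 22 (.leaf [0,12,13,21]) (.free 2 [11,16,17,18,19,20,22])) (.leaf [1,3,9,10,2])) (.free 2 [4,5,6,7,8,14,15]))), .t 9 (nat_lit 0xb3f07490748068e068c04bd04bb03d5) (.z (.edon 0 3 (.free 1 [0,1,2]) (.edon 0 12 (.node 4 5 (.leaf [3,4,11,10,9])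 (.leaf [5,6,7,8])) (.edon 14 22 (.free 2 [14,15,16,17,18,19,20]) (.leaf [12,13,22,21]))))), .t 1 (nat_lit 0) (.cp 2 3)] (by decide +kernel) (by decide +kernel)

end Pool.Agent.GCP.F8_14
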