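import Pool.Agent.GCP.F8_14Db

set_option autoImplicit false
set_option maxRecDepth 100000

/-! # Blocks F8_14B2 (generated) -/

namespace Pool.Agent.GCP.F8_14

open Pool.Agent.GCP DB

theorem b98 : B 3136 3168 := Blk.of_chk [.t 8 (nat_lit 0xb290b0c0b0a0afb0af90ae90ae8) (.z (.edon 0 16 (.edon 0 11 (.node 2 8 (.leaf [0,2,9,10]) (.free 2 [1,3,4,5,6,7,8])) (.leaf [11,14,15,13,12])) (.free 2 [16,17,18,19,20,21,22]))), .t 1 (nat_lit 0) (.cp 1 3), .t 13 (nat_lit 0xb290b0c0b0a0afb0af90ae90ae805380536040c040a03bb) (.z (.edon 0 16 (.edon 0 3 (.leaf [0,1,2]) (.edon 0 11 (.node 4 8 (.leaf [3,4,10,9,5]) (.leaf [6,7,8])) (.leaf [11,14,15,13,12]))) (.free 2 [16,17,18,19,20,21,22]))), .t 6 (nat_lit 0x3f600b900b60059004c) (.z (.node 9 2 (.edon 4 8 (.leaf [4,6,7]) (.leaf [1,3,8,9,5])) (.free 4 [0,2,10,11,12,13,14,15,16,17,18,19,20,21,22]))), .t 5 (nat_lit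 0x37203700ae40ae3) (.z (.edon 14 1 (.edon 11 21 (.edon 0 15 (.leaf [11,14,13,12]) (.free 2 [15,16,17,18,19,20,22])) (.leaf [0,2,9,10,21])) (.free 2 [1,3,4,5,6,7,8]))), .t 6 (nat_lit 0xaf50af10aee0b1a0b09) (.z (.edon 22 14 (.edon 0 11 (.edon 1 10 (.free 2 [1,3,4,5,6,7,8]) (.leaf [0,2,9,10])) (.leaf [11,13,22,21,12])) (.free 2 [14,15,16,17,18,19,20]))), .t 6 (nat_lit 0x36b036901c701c50036) (.z (.edon 0 16 (.node 1 14 (.node 0 11 (.leaf [0,12,13,15]) (.leaf [1,11,10,9,2])) (.free 2 [3,4,5,6,7,8,14])) (.free 2 [16,17,18,19,20,21,22]))), .t 11 (nat_lit 0xaf50af10aee0b1a0b0905380536040c040a03bb) (.z (.edon 0 3 (.free 1 [0,1,2]) (.edon 0 11 (.node 4 8 (.leaf [3,4,10,9,5]) (.leaf [6,7,8])) (.edon 14 22 (.free 2 [14,15,16,17,18,19,20]) (.leaf [11,13,22,21,12]))))), .t 1 (nat_lit 0) (.cn 7 2), .t 4 (nat_lit 0x40b290b28) (.z (.edon 0 16 (.node 0 11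 (.leaf [0,12,13,14,15]) (.edon 4 9 (.free 2 [4,5,6,7,8,10,11]) (.leaf [1,3,9,2]))) (.free 2 [16,17,18,19,20,21,22]))), .t 5 (nat_lit 0x2a3004f00060001) (.z (.edon 0 16 (.node 0 12 (.leaf [0,13,14,15]) (.edon 4 11 (.free 2 [4,6,7,8,9,10,12]) (.leaf [1,3,5,11,2]))) (.free 2 [16,17,18,19,20,21,22]))), .t 15 (nat_lit 0xa81074c0ae40ae30ab20ab10a7b0a79085908580787078607490748) (.z (.node 2 4 (.node 2 22 (.leaf [0,2,21]) (.edon 0 10 (.leaf [5,6,7,8,9]) (.edon 0 15 (.leaf [10,14,13,12,11]) (.free 2 [15,16,17,18,19,20,22])))) (.free 1 [1,3,4]))), .t 1 (nat_lit 0) (.fa 3), .t 1 (nat_lit 0) (.cn 7 2), .t 6 (nat_lit 0x375037401dc01da0038) (.z (.edon 0 16 (.node 0 12 (.leaf [0,13,14,15]) (.node 1 10 (.leaf [1,9,11,12,2]) (.free 2 [3,4,5,6,7,8,10]))) (.free 2 [16,17,18,19,20,21,22]))), .t 1 (nat_lit 0) (.cn 7 3), .t 9 (nat_lit 0x74d074907470b3f078c078907640762)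 (.z (.edon 22 14 (.edon 0 12 (.edon 1 9 (.edon 0 5 (.leaf [1,3,4]) (.leaf [5,7,10,8,6])) (.leaf [0,2,9,11])) (.leaf [12,13,22,21])) (.free 2 [14,15,16,17,18,19,20]))), .t 17 (nat_lit 0xaa80a870a810b290b0c0afb0ae90ae80ad20ad10acb0ac90ab80ab60a7b0a79) (.z (.edon 0 16 (.edon 0 10 (.free 3 [0,1,2,3,4,5,6,7,8,9]) (.leaf [10,14,15,13,12,11])) (.free 2 [16,17,18,19,20,21,22]))), .t 6 (nat_lit 0x4ed03e903e603c403ba) (.z (.edon 0 3 (.free 1 [0,1,2]) (.edon 7 8 (.free 4 [7,9,10,11,12,13,14,15,16,17,18,19,20,21,22]) (.leaf [3,4,5,8,6])))), .t 8 (nat_lit 0x99c0998099509cf09ca09b209b0) (.z (.node 0 7 (.node 0 12 (.edon 0 16 (.leaf [0,13,14,15]) (.free 2 [16,17,18,19,20,21,22])) (.leaf [8,10,12,11,9])) (.free 2 [1,2,3,4,5,6,7]))), .t 8 (nat_lit 0x78907a507a40793079107d507d4) (.z (.edon 0 16 (.node 0 12 (.leaf [0,13,14,15]) (.node 4 8 (.free 2 [1,2,3,4,6,9,11])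 (.leaf [5,7,12,10,8]))) (.free 2 [16,17,18,19,20,21,22]))), .t 1 (nat_lit 0) (.fa 3), .t 4 (nat_lit 0x360af10aef) (.z (.node 14 22 (.node 1 14 (.node 0 10 (.leaf [0,11,12,13,21]) (.leaf [1,10,9,2])) (.free 2 [3,4,5,6,7,8,14])) (.free 2 [15,16,17,18,19,20,22]))), .t 10 (nat_lit 0x74f0b290b27085d085c078b078a07490748) (.z (.edon 0 16 (.edon 0 12 (.edon 1 9 (.edon 0 5 (.leaf [1,3,4]) (.leaf [5,6,7,8,10])) (.leaf [0,2,9,11])) (.leaf [12,14,15,13])) (.free 2 [16,17,18,19,20,21,22]))), .t 10 (nat_lit 0x74d074907470b290b27078c078907640762) (.z (.edon 0 16 (.edon 0 12 (.edon 1 9 (.edon 0 5 (.leaf [1,3,4]) (.leaf [5,7,10,8,6])) (.leaf [0,2,9,11])) (.leaf [12,14,15,13])) (.free 2 [16,17,18,19,20,21,22]))), .t 10 (nat_lit 0x322078c078908bb08ba03750374031f031e) (.z (.edon 0 16 (.node 0 12 (.leaf [0,13,14,15]) (.node 2 4 (.node 6 8 (.leaf [2,6,9,11,12])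 (.leaf [5,7,10,8])) (.leaf [1,3,4]))) (.free 2 [16,17,18,19,20,21,22]))), .t 4 (nat_lit 0xb3f09980996) (.z (.node 0 7 (.edon 0 12 (.leaf [0,8,9,10,11]) (.edon 14 22 (.free 2 [14,15,16,17,18,19,20]) (.leaf [12,13,22,21]))) (.free 2 [1,2,3,4,5,6,7]))), .t 15 (nat_lit 0xa81074a074907470ae40ae30ab20ab10a7b0a7907880785075d075b) (.z (.node 2 4 (.node 2 22 (.leaf [0,2,21]) (.edon 0 10 (.leaf [5,7,9,8,6]) (.edon 0 15 (.leaf [10,14,13,12,11]) (.free 2 [15,16,17,18,19,20,22])))) (.free 1 [1,3,4]))), .t 15 (nat_lit 0x85708680865085e085b0b290b0c0b0a0afb0af90ae90ae808830881) (.z (.node 0 2 (.edon 0 6 (.leaf [0,3,4,5]) (.edon 0 11 (.leaf [6,7,10,9,8]) (.edon 0 16 (.leaf [11,14,15,13,12]) (.free 2 [16,17,18,19,20,21,22])))) (.free 1 [1,2]))), .t 7 (nat_lit 0x2a800550005000205160511) (.z (.edon 0 16 (.node 5 14 (.node 0 10 (.leaf [0,11,13,15]) (.edon 4 6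 (.leaf [4,5,9,8]) (.leaf [1,3,6,10,2]))) (.leaf [7,12,14])) (.free 2 [16,17,18,19,20,21,22]))), .t 10 (nat_lit 0x30f0882088003360334030c030b0b0c0b0b) (.z (.node 2 4 (.edon 5 14 (.leaf [5,7,12]) (.node 0 10 (.edon 0 16 (.leaf [0,11,13,14,15]) (.free 2 [16,17,18,19,20,21,22])) (.leaf [2,6,8,9,10]))) (.free 1 [1,3,4]))), .t 8 (nat_lit 0x79e079d05b10450044d03d203c7) (.z (.edon 0 16 (.node 0 12 (.leaf [0,13,14,15]) (.node 4 9 (.node 1 10 (.leaf [1,2,11]) (.leaf [3,4,8,10,6])) (.leaf [5,7,12,9]))) (.free 2 [16,17,18,19,20,21,22])))] (by decide +kernel) (by decide +kernel)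
theorem b99 : B 3168 3200 := Blk.of_chk [.t 5 (nat_lit 0xb290b2703260325) (.z (.edon 0 16 (.edon 0 12 (.edon 1 10 (.free 2 [1,3,4,5,7,8,9]) (.leaf [0,2,6,10,11])) (.leaf [12,14,15,13])) (.free 2 [16,17,18,19,20,21,22]))), .t 5 (nat_lit 0x2703ba092e092d) (.z (.edon 0 16 (.node 0 12 (.leaf [0,13,14,15]) (.edon 3 10 (.edon 7 8 (.leaf [7,12,11,9]) (.leaf [3,4,5,8])) (.leaf [1,6,10,2]))) (.free 2 [16,17,18,19,20,21,22]))), .t 10 (nat_lit 0x74a0749074707880785075d075b0b290b27) (.z (.node 2 4 (.edon 11 21 (.edon 13 16 (.leaf [12,14,15,13]) (.free 2 [11,16,17,18,19,20,22])) (.node 2 9 (.leaf [0,2,10,21]) (.leaf [5,7,9,8,6]))) (.free 1 [1,3,4]))), .t 10 (nat_lit 0x74a0749074707880785075d075b0b290b27) (.z (.node 2 4 (.edon 11 21 (.edon 13 16 (.leaf [12,14,15,13]) (.free 2 [11,16,17,18,19,20,22])) (.node 2 8 (.leaf [0,2,10,21]) (.leaf [5,7,9,8,6])))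 (.free 1 [1,3,4]))), .t 10 (nat_lit 0x8db08d708d40b290b270924091f08f708f5) (.z (.edon 0 16 (.edon 0 7 (.free 2 [0,1,2,3,4,5,6]) (.edon 0 12 (.leaf [7,9,11,10,8]) (.leaf [12,14,15,13]))) (.free 2 [16,17,18,19,20,21,22]))), .t 15 (nat_lit 0x74707630760074f074d0a370a340a32078b078a0a560a530a480a47) (.z (.node 22 2 (.edon 0 15 (.edon 9 10 (.leaf [9,12,14,13,11]) (.edon 0 5 (.leaf [1,3,4]) (.leaf [5,7,8,10,6]))) (.free 2 [15,16,17,18,19,20,22])) (.free 1 [0,2,21]))), .t 10 (nat_lit 0xb290b2704f903ef03ee03c703bd08dd08db) (.z (.edon 0 16 (.edon 0 3 (.leaf [0,1,2]) (.edon 0 12 (.edon 7 10 (.leaf [7,9,11,8]) (.leaf [3,4,5,10,6])) (.leaf [12,14,15,13]))) (.free 2 [16,17,18,19,20,21,22]))), .t 9 (nat_lit 0x7cf064a064505570553052305210002) (.z (.edon 0 16 (.node 0 12 (.leaf [0,13,14,15]) (.edon 7 8 (.leaf [7,9,12]) (.node 3 10 (.leaf [1,3,6,2]) (.leaf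 [4,5,8,11,10])))) (.free 2 [16,17,18,19,20,21,22]))), .t 10 (nat_lit 0x4f604ed04e805b105ae051c051a092e092d) (.z (.node 0 3 (.node 0 12 (.edon 0 16 (.leaf [0,13,14,15]) (.free 2 [16,17,18,19,20,21,22])) (.edon 7 8 (.leaf [7,12,11,9]) (.leaf [4,5,8,10,6]))) (.free 1 [1,2,3]))), .t 7 (nat_lit 0x2a8005500050002092e092d) (.z (.edon 0 16 (.node 0 12 (.leaf [0,13,14,15]) (.edon 7 8 (.leaf [7,12,11,9]) (.node 3 8 (.leaf [1,3,6,10,2]) (.leaf [4,5,8])))) (.free 2 [16,17,18,19,20,21,22]))), .t 1 (nat_lit 0) (.fa 3), .t 11 (nat_lit 0xb1a0ad60aad0aa70aa604ed03e903e603c403ba) (.z (.edon 0 3 (.free 1 [0,1,2]) (.node 5 14 (.edon 0 10 (.leaf [3,4,5,8,6]) (.edon 12 22 (.free 2 [12,15,16,17,18,19,20]) (.leaf [10,11,13,22,21]))) (.leaf [7,9,14])))), .t 1 (nat_lit 0) (.cn 2 2), .t 8 (nat_lit 0x74a0749074707880785075d075b) (.z (.node 2 4 (.node 2 9 (.free 4 [0,2,10,11,12,13,14,15,16,17,18,19,20,21,22])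 (.leaf [5,7,9,8,6])) (.free 1 [1,3,4]))), .t 1 (nat_lit 0) (.fa 3), .t 1 (nat_lit 0) (.cn 3 2), .t 6 (nat_lit 0xaf40af20aed0b1a0b09) (.z (.node 0 7 (.edon 0 11 (.leaf [0,8,9,10]) (.edon 14 22 (.free 2 [14,15,16,17,18,19,20]) (.leaf [11,12,22,21,13]))) (.free 2 [1,2,3,4,5,6,7]))), .t 10 (nat_lit 0x78d078807850b290b2707bc07ba079b079a) (.z (.edon 0 16 (.edon 0 12 (.node 4 8 (.free 2 [0,1,2,3,4,6,10]) (.leaf [5,7,9,11,8])) (.leaf [12,14,15,13])) (.free 2 [16,17,18,19,20,21,22]))), .t 7 (nat_lit 0xb290b27030f030e079b079a) (.z (.edon 0 16 (.edon 0 12 (.node 2 4 (.edon 5 8 (.leaf [5,7,9,11]) (.leaf [0,2,6,8,10])) (.leaf [1,3,4])) (.leaf [12,14,15,13])) (.free 2 [16,17,18,19,20,21,22]))), .t 15 (nat_lit 0x74707630760074f074d0a3b078b078a0ae40ae30a560a550a350a33) (.z (.node 22 2 (.edon 0 15 (.edon 9 10 (.leaf [9,14,13,12,11]) (.edon 0 5 (.leaf [1,3,4])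 (.leaf [5,7,8,10,6]))) (.free 2 [15,16,17,18,19,20,22])) (.free 1 [0,2,21]))), .t 5 (nat_lit 0x3a103a00a3b0a39) (.z (.node 14 22 (.edon 1 10 (.edon 0 9 (.free 2 [1,3,4,5,6,7,8]) (.leaf [9,14,12,11])) (.leaf [0,2,10,13,21])) (.free 2 [15,16,17,18,19,20,22]))), .t 9 (nat_lit 0x2a800550005000209b709b40b2e0b2c) (.z (.node 16 0 (.edon 8 10 (.node 12 14 (.leaf [12,15,16,13]) (.leaf [8,9,14,11])) (.edon 4 6 (.leaf [4,5,7]) (.leaf [1,3,6,10,2]))) (.free 2 [0,17,18,19,20,21,22]))), .t 10 (nat_lit 0xa830a810a7d031603150acb0ac90aaa0aa9) (.z (.node 2 4 (.edon 5 14 (.leaf [5,7,9]) (.edon 10 21 (.node 13 15 (.free 2 [13,16,17,18,19,20,22]) (.leaf [10,11,14,15,12])) (.leaf [0,2,6,8,21]))) (.free 1 [1,3,4]))), .t 13 (nat_lit 0xaf20ac40ac30aa40aa30a8d0a8c04ed03e903e603c403ba) (.z (.node 14 22 (.node 5 14 (.edon 0 10 (.edon 0 3 (.leaf [0,1,2]) (.leaf [3,4,5,8,6]))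 (.leaf [10,11,12,21,13])) (.leaf [7,9,14])) (.free 2 [15,16,17,18,19,20,22]))), .t 16 (nat_lit 0xb2c0b380b370b300b2f07cf064a0645055705530523052100020b490b48) (.z (.edon 0 20 (.node 5 14 (.node 0 11 (.node 0 17 (.leaf [0,18,19]) (.leaf [12,15,16,17,13])) (.node 3 10 (.leaf [1,3,6,2]) (.leaf [4,5,8,11,10]))) (.leaf [7,9,14])) (.free 1 [20,21,22]))), .t 3 (nat_lit 0x4f804f7) (.z (.node 0 3 (.edon 7 10 (.free 4 [7,8,9,11,12,13,14,15,16,17,18,19,20,21,22]) (.leaf [0,4,5,6,10])) (.free 1 [1,2,3]))), .t 9 (nat_lit 0x4ed04e802b30068000800050b010aff) (.z (.node 5 14 (.node 0 16 (.free 2 [0,17,18,19,20,21,22]) (.edon 11 13 (.leaf [11,15,16,12]) (.node 3 6 (.leaf [1,3,10,13,2]) (.leaf [4,5,8,6])))) (.free 1 [7,9,14]))), .t 5 (nat_lit 0x2b2006700070005) (.z (.edon 0 16 (.node 0 12 (.leaf [0,13,14,15]) (.edon 4 10 (.free 2 [4,5,6,7,8,9,11]) (.leaf [1,3,10,12,2])))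 (.free 2 [16,17,18,19,20,21,22]))), .t 1 (nat_lit 0) (.cn 1 3), .t 6 (nat_lit 0xb3f0788078503260325) (.z (.edon 22 14 (.edon 0 12 (.node 4 8 (.node 2 4 (.leaf [0,2,6,10,11]) (.leaf [1,3,4])) (.leaf [5,7,9,8])) (.leaf [12,13,22,21])) (.free 2 [14,15,16,17,18,19,20]))), .t 9 (nat_lit 0x8db08d708d40b3f0924091f08f708f5) (.z (.edon 0 7 (.free 2 [0,1,2,3,4,5,6]) (.edon 0 12 (.leaf [7,9,11,10,8]) (.edon 14 22 (.free 2 [14,15,16,17,18,19,20]) (.leaf [12,13,22,21]))))), .t 1 (nat_lit 0) (.cn 2 2)] (by decide +kernel) (by decide +kernel)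
theorem b100 : B 3200 3232 := Blk.of_chk [.t 10 (nat_lit 0x8de0b290b27099909970924092208d808d6) (.z (.edon 0 16 (.edon 0 7 (.free 2 [0,1,2,3,4,5,6]) (.edon 0 12 (.leaf [7,11,10,9,8]) (.leaf [12,14,15,13]))) (.free 2 [16,17,18,19,20,21,22]))), .t 8 (nat_lit 0xb1a0ad60aad0aa70aa6030c030b) (.z (.node 2 4 (.edon 5 14 (.leaf [5,7,12]) (.edon 0 10 (.leaf [0,2,6,8,9]) (.edon 14 22 (.free 2 [14,15,16,17,18,19,20]) (.leaf [10,11,13,22,21])))) (.free 1 [1,3,4]))), .t 13 (nat_lit 0xae60ae40ae10b0c0b0a0afb0afa04f403ed03ea03c503bb) (.z (.edon 0 16 (.edon 0 3 (.leaf [0,1,2]) (.edon 0 11 (.edon 7 9 (.leaf [7,8,10]) (.leaf [3,4,5,9,6])) (.leaf [11,12,14,15,13]))) (.free 2 [16,17,18,19,20,21,22]))), .t 10 (nat_lit 0xa1a0a960a940a480a470a140a1303160315) (.z (.node 14 22 (.node 4 12 (.node 8 10 (.node 2 4 (.leaf [0,2,6,8,21]) (.leaf [1,3,4])) (.leaf [9,14,13,11,10]))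 (.leaf [5,7,12])) (.free 2 [15,16,17,18,19,20,22]))), .t 5 (nat_lit 0x2b1006500060005) (.z (.edon 0 16 (.node 0 12 (.leaf [0,13,14,15]) (.node 3 9 (.leaf [1,3,10,11,2]) (.free 2 [4,5,6,7,8,9,12]))) (.free 2 [16,17,18,19,20,21,22]))), .t 10 (nat_lit 0xb290b2707490747068d04bc04b903dc03d6) (.z (.edon 0 16 (.edon 0 3 (.leaf [0,1,2]) (.edon 0 12 (.node 4 6 (.leaf [3,4,10,11,9]) (.leaf [5,7,8,6])) (.leaf [12,14,15,13]))) (.free 2 [16,17,18,19,20,21,22]))), .t 7 (nat_lit 0x4ed04e8005e003600050004) (.z (.edon 0 16 (.node 5 14 (.node 0 10 (.leaf [0,11,13,15]) (.node 3 6 (.leaf [1,3,10,9,2]) (.leaf [4,5,8,6]))) (.leaf [7,12,14])) (.free 2 [16,17,18,19,20,21,22]))), .t 7 (nat_lit 0x31b0133012e0036002703ba) (.z (.edon 0 16 (.node 5 14 (.node 0 10 (.leaf [0,11,13,15]) (.edon 3 10 (.leaf [3,4,5,8]) (.leaf [1,6,10,9,2]))) (.leaf [7,12,14])) (.free 2 [16,17,18,19,20,21,22]))),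 .t 10 (nat_lit 0x88303370332031b0318030f030e0b0c0b0b) (.z (.node 2 4 (.edon 5 14 (.leaf [5,7,12]) (.node 0 10 (.edon 0 16 (.leaf [0,11,13,14,15]) (.free 2 [16,17,18,19,20,21,22])) (.leaf [2,6,8,10,9]))) (.free 1 [1,3,4]))), .t 15 (nat_lit 0x7470a7e0a7a0a77075c0759074c074a0ab20aae0a960a9407870786) (.z (.node 2 4 (.node 2 22 (.leaf [0,2,21]) (.edon 0 10 (.leaf [5,7,8,9,6]) (.edon 0 15 (.leaf [10,12,14,13,11]) (.free 2 [15,16,17,18,19,20,22])))) (.free 1 [1,3,4]))), .t 9 (nat_lit 0x2a700540004000209df09de0b110b10) (.z (.node 16 0 (.edon 8 9 (.node 11 14 (.leaf [11,13,15,16]) (.leaf [8,12,14,10])) (.edon 4 6 (.leaf [4,5,7]) (.leaf [1,3,6,9,2]))) (.free 2 [0,17,18,19,20,21,22]))), .t 8 (nat_lit 0xae60ae40ae10b0c0b0a0afb0afa) (.z (.edon 0 16 (.edon 0 11 (.edon 1 6 (.free 2 [1,3,4,5,7,8,10]) (.leaf [0,2,6,9])) (.leaf [11,12,14,15,13])) (.free 2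 [16,17,18,19,20,21,22]))), .t 10 (nat_lit 0xae60ae40ae10b0c0b0a0afb0afa04f304f1) (.z (.node 0 3 (.edon 0 11 (.edon 7 9 (.leaf [7,8,10]) (.leaf [0,4,5,6,9])) (.edon 0 16 (.leaf [11,12,14,15,13]) (.free 2 [16,17,18,19,20,21,22]))) (.free 1 [1,2,3]))), .t 15 (nat_lit 0xa7e07470aaa0aa80a860a84075c0759074c074a0acb0aca07870786) (.z (.edon 1 21 (.edon 0 5 (.leaf [1,3,4]) (.edon 0 10 (.leaf [5,7,8,9,6]) (.node 13 15 (.free 2 [13,16,17,18,19,20,22]) (.leaf [10,12,14,15,11])))) (.free 1 [0,2,21]))), .t 10 (nat_lit 0xae60ae40ae10b0c0b0a0afb0afa08d808d6) (.z (.edon 0 16 (.edon 0 7 (.free 2 [0,1,2,3,4,5,6]) (.edon 0 11 (.leaf [7,10,9,8]) (.leaf [11,12,14,15,13]))) (.free 2 [16,17,18,19,20,21,22]))), .t 10 (nat_lit 0xae60ae40ae10b0c0b0a0afb0afa078c0789) (.z (.edon 0 16 (.edon 0 11 (.node 4 8 (.free 2 [0,1,2,3,4,6,9]) (.leaf [5,7,10,8])) (.leaf [11,12,14,15,13]))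 (.free 2 [16,17,18,19,20,21,22]))), .t 8 (nat_lit 0xa7e0a7a0a770ab20aae0a960a94) (.z (.node 0 7 (.edon 10 21 (.edon 0 15 (.leaf [10,12,14,13,11]) (.free 2 [15,16,17,18,19,20,22])) (.leaf [0,8,9,21])) (.free 2 [1,2,3,4,5,6,7]))), .t 8 (nat_lit 0x8fc09cf09cd094a094908f708f5) (.z (.edon 0 16 (.node 0 12 (.leaf [0,13,14,15]) (.edon 7 9 (.leaf [7,12,11,10,8]) (.free 2 [1,2,3,4,5,6,9]))) (.free 2 [16,17,18,19,20,21,22]))), .t 8 (nat_lit 0x78d07a907a80793079107e907e7) (.z (.edon 0 16 (.node 0 12 (.leaf [0,13,14,15]) (.node 4 8 (.free 2 [1,2,3,4,6,9,10]) (.leaf [5,7,12,11,8]))) (.free 2 [16,17,18,19,20,21,22]))), .t 1 (nat_lit 0) (.cp 2 3), .t 6 (nat_lit 0x3260325014a01480027) (.z (.edon 0 16 (.node 0 12 (.leaf [0,13,14,15]) (.edon 3 10 (.free 2 [3,4,5,7,8,9,12]) (.leaf [1,6,10,11,2]))) (.free 2 [16,17,18,19,20,21,22]))), .t 10 (nat_lit 0x789078807850b290b2707b607b307970796)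 (.z (.edon 0 16 (.edon 0 12 (.node 4 8 (.free 2 [0,1,2,3,4,6,11]) (.leaf [5,7,9,10,8])) (.leaf [12,14,15,13])) (.free 2 [16,17,18,19,20,21,22]))), .t 9 (nat_lit 0x5190516051100020623062005370535) (.z (.edon 0 16 (.node 5 14 (.node 0 10 (.leaf [0,11,13,15]) (.edon 4 6 (.leaf [4,5,9,10,8]) (.leaf [1,3,6,2]))) (.leaf [7,12,14])) (.free 2 [16,17,18,19,20,21,22]))), .t 9 (nat_lit 0x51105380533051d0519000206240622) (.z (.edon 0 16 (.node 0 12 (.leaf [0,13,14,15]) (.edon 7 10 (.leaf [7,11,12]) (.edon 4 6 (.leaf [4,5,10,9,8]) (.leaf [1,3,6,2])))) (.free 2 [16,17,18,19,20,21,22]))), .t 10 (nat_lit 0xb290b2709980923092008f608f308de08dc) (.z (.edon 0 16 (.edon 0 7 (.free 2 [0,1,2,3,4,5,6]) (.edon 0 12 (.leaf [7,10,11,9,8]) (.leaf [12,14,15,13]))) (.free 2 [16,17,18,19,20,21,22]))), .t 7 (nat_lit 0x78c0789032403230b290b27) (.z (.node 2 4 (.edon 11 21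 (.node 11 15 (.free 2 [11,16,17,18,19,20,22]) (.leaf [12,14,15,13])) (.node 6 8 (.leaf [0,2,6,9,21]) (.leaf [5,7,10,8]))) (.free 1 [1,3,4]))), .t 10 (nat_lit 0xb290b2704ed03e903e603c403ba09240922) (.z (.edon 0 16 (.edon 0 3 (.leaf [0,1,2]) (.edon 0 12 (.edon 7 8 (.leaf [7,11,10,9]) (.leaf [3,4,5,8,6])) (.leaf [12,14,15,13]))) (.free 2 [16,17,18,19,20,21,22]))), .t 10 (nat_lit 0xb290b2704ed03e903e603c403ba09230920) (.z (.edon 0 16 (.edon 0 3 (.leaf [0,1,2]) (.edon 0 12 (.edon 7 8 (.leaf [7,10,11,9]) (.leaf [3,4,5,8,6])) (.leaf [12,14,15,13]))) (.free 2 [16,17,18,19,20,21,22]))), .t 5 (nat_lit 0xb290b27031f031e) (.z (.edon 0 16 (.edon 0 12 (.edon 1 9 (.free 2 [1,3,4,5,7,8,10]) (.leaf [0,2,6,9,11])) (.leaf [12,14,15,13])) (.free 2 [16,17,18,19,20,21,22]))), .t 9 (nat_lit 0x51105380533051d0519062406220002) (.z (.edon 0 16 (.node 5 14 (.node 0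 10 (.leaf [0,11,13,15]) (.node 3 8 (.leaf [1,3,6,2]) (.leaf [4,5,10,9,8]))) (.leaf [7,12,14])) (.free 2 [16,17,18,19,20,21,22]))), .t 1 (nat_lit 0) (.cp 1 3), .t 10 (nat_lit 0x78d078c07890b290b2707ce07cc07a207a1) (.z (.edon 0 16 (.edon 0 12 (.node 4 8 (.free 2 [0,1,2,3,4,6,9]) (.leaf [5,7,10,11,8])) (.leaf [12,14,15,13])) (.free 2 [16,17,18,19,20,21,22])))] (by decide +kernel) (by decide +kernel)
theorem b101 : B 3232 3264 := Blk.of_chk [.t 5 (nat_lit 0x2a7005400040002) (.z (.edon 0 16 (.node 0 12 (.leaf [0,13,14,15]) (.edon 4 6 (.free 2 [4,5,7,8,10,11,12]) (.leaf [1,3,6,9,2]))) (.free 2 [16,17,18,19,20,21,22]))), .t 10 (nat_lit 0x4ef04ed04e805a905a605150513094a0949) (.z (.node 0 3 (.node 0 12 (.edon 0 16 (.leaf [0,13,14,15]) (.free 2 [16,17,18,19,20,21,22])) (.edon 7 8 (.leaf [7,12,11,10]) (.leaf [4,5,8,9,6]))) (.free 1 [1,2,3]))), .t 1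 (nat_lit 0) (.cn 1 3), .t 1 (nat_lit 0) (.cn 2 2), .t 1 (nat_lit 0) (.fa 2), .t 1 (nat_lit 0) (.cn 1 3), .t 10 (nat_lit 0xb290b270868079807950773076f074f074e) (.z (.edon 0 16 (.edon 0 12 (.node 2 4 (.node 8 9 (.leaf [0,2,8,11]) (.leaf [5,6,7,10,9])) (.leaf [1,3,4])) (.leaf [12,14,15,13])) (.free 2 [16,17,18,19,20,21,22]))), .t 10 (nat_lit 0x4f004ec04e905aa05a505160514094a0949) (.z (.node 0 3 (.node 0 12 (.edon 0 16 (.leaf [0,13,14,15]) (.free 2 [16,17,18,19,20,21,22])) (.edon 7 9 (.leaf [7,12,11,10]) (.leaf [4,6,9,8,5]))) (.free 1 [1,2,3]))), .t 10 (nat_lit 0xb290b2704ec03e803e703c403ba09230920) (.z (.edon 0 16 (.edon 0 3 (.leaf [0,1,2]) (.edon 0 12 (.edon 7 8 (.leaf [7,10,11,9]) (.leaf [3,4,6,8,5])) (.leaf [12,14,15,13]))) (.free 2 [16,17,18,19,20,21,22]))), .t 7 (nat_lit 0xb290b27085e085b02f002ef) (.z (.edon 0 16 (.edon 0 12 (.node 2 4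 (.node 5 8 (.leaf [0,2,5,9,11]) (.leaf [6,7,10,8])) (.leaf [1,3,4])) (.leaf [12,14,15,13])) (.free 2 [16,17,18,19,20,21,22]))), .t 9 (nat_lit 0x5b505aa05a50001062b062805d505d3) (.z (.edon 0 16 (.node 0 12 (.leaf [0,13,14,15]) (.edon 7 9 (.leaf [7,10,12]) (.edon 4 5 (.leaf [4,6,9,11,8]) (.leaf [1,3,5,2])))) (.free 2 [16,17,18,19,20,21,22]))), .t 6 (nat_lit 0x105aa05a5094a0949) (.z (.edon 0 16 (.node 0 12 (.leaf [0,13,14,15]) (.edon 7 9 (.leaf [7,12,11,10]) (.edon 4 5 (.leaf [4,6,9,8]) (.leaf [1,3,5,2])))) (.free 2 [16,17,18,19,20,21,22]))), .t 10 (nat_lit 0x85708680865085e085b0b290b2708830881) (.z (.edon 0 16 (.edon 0 12 (.node 4 8 (.free 2 [0,1,2,3,4,5,11]) (.leaf [6,7,10,9,8])) (.leaf [12,14,15,13])) (.free 2 [16,17,18,19,20,21,22]))), .t 7 (nat_lit 0xb290b27085e085b02f002ef) (.z (.edon 0 16 (.edon 0 12 (.node 2 4 (.node 5 10 (.leaf [0,2,5,9,11])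 (.leaf [6,7,10,8])) (.leaf [1,3,4])) (.leaf [12,14,15,13])) (.free 2 [16,17,18,19,20,21,22]))), .t 5 (nat_lit 0xb290b2702f002ef) (.z (.edon 0 16 (.edon 0 12 (.node 5 10 (.leaf [0,2,5,9,11]) (.free 2 [1,3,4,6,7,8,10])) (.leaf [12,14,15,13])) (.free 2 [16,17,18,19,20,21,22]))), .t 10 (nat_lit 0x4e90515051204f304f005a905a7094a0949) (.z (.node 0 3 (.node 0 12 (.edon 0 16 (.leaf [0,13,14,15]) (.free 2 [16,17,18,19,20,21,22])) (.edon 7 9 (.leaf [7,12,11,10]) (.leaf [4,6,8,9,5]))) (.free 1 [1,2,3]))), .t 7 (nat_lit 0x2a1004c00040001094a0949) (.z (.edon 0 16 (.node 0 12 (.leaf [0,13,14,15]) (.edon 7 9 (.leaf [7,12,11,10]) (.node 3 8 (.leaf [1,3,5,9,2]) (.leaf [4,6,8])))) (.free 2 [16,17,18,19,20,21,22]))), .t 10 (nat_lit 0x85708680865085e085b0b290b2708830881) (.z (.node 2 4 (.node 5 22 (.leaf [0,2,5,21]) (.edon 0 11 (.leaf [6,7,10,9,8]) (.node 11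 15 (.free 2 [11,16,17,18,19,20,22]) (.leaf [12,14,15,13])))) (.free 1 [1,3,4]))), .t 10 (nat_lit 0xb290b2704ec03e803e703c403ba09240922) (.z (.edon 0 16 (.edon 0 3 (.leaf [0,1,2]) (.edon 0 12 (.edon 7 8 (.leaf [7,11,10,9]) (.leaf [3,4,6,8,5])) (.leaf [12,14,15,13]))) (.free 2 [16,17,18,19,20,21,22]))), .t 7 (nat_lit 0x2a2004e00050001092e092d) (.z (.edon 0 16 (.node 0 12 (.leaf [0,13,14,15]) (.edon 7 10 (.leaf [7,12,11,9]) (.node 3 8 (.leaf [1,3,5,10,2]) (.leaf [4,6,8])))) (.free 2 [16,17,18,19,20,21,22]))), .t 7 (nat_lit 0xb290b2702e002df086c0869) (.z (.edon 0 16 (.edon 0 12 (.node 2 4 (.edon 6 10 (.leaf [6,7,11,9]) (.leaf [0,2,5,8,10])) (.leaf [1,3,4])) (.leaf [12,14,15,13])) (.free 2 [16,17,18,19,20,21,22]))), .t 8 (nat_lit 0x857086e086d08640863088f088e) (.z (.edon 0 16 (.node 0 12 (.leaf [0,13,14,15]) (.node 4 8 (.free 2 [1,2,3,4,5,10,11])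 (.leaf [6,7,12,9,8]))) (.free 2 [16,17,18,19,20,21,22]))), .t 10 (nat_lit 0x857086e086d08640863088f088e03bd0b1a) (.z (.edon 0 3 (.free 1 [0,1,2]) (.edon 14 22 (.free 2 [14,15,16,17,18,19,20]) (.node 11 12 (.leaf [11,13,22,21]) (.node 4 8 (.leaf [3,4,10,5]) (.leaf [6,7,12,9,8])))))), .t 9 (nat_lit 0x5ad05aa05a50623062005cd05cb0001) (.z (.edon 0 16 (.node 0 12 (.leaf [0,13,14,15]) (.edon 7 9 (.leaf [7,11,12]) (.node 3 10 (.leaf [1,3,5,2]) (.leaf [4,6,9,10,8])))) (.free 2 [16,17,18,19,20,21,22]))), .t 9 (nat_lit 0x5ad05aa05a50623062005cd05cb0001) (.z (.edon 0 16 (.node 0 12 (.leaf [0,13,14,15]) (.edon 7 9 (.leaf [7,11,12]) (.node 3 8 (.leaf [1,3,5,2]) (.leaf [4,6,9,10,8])))) (.free 2 [16,17,18,19,20,21,22]))), .t 9 (nat_lit 0x4ec03e803e703c403ba092e092d0ad6) (.z (.edon 0 3 (.free 1 [0,1,2]) (.edon 14 22 (.free 2 [14,15,16,17,18,19,20]) (.node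 10 12 (.leaf [10,13,22,21]) (.edon 7 8 (.leaf [7,12,11,9]) (.leaf [3,4,6,8,5])))))), .t 10 (nat_lit 0xb290b2704ec03e803e703c403ba0924091f) (.z (.edon 0 16 (.edon 0 3 (.leaf [0,1,2]) (.edon 0 12 (.edon 7 8 (.leaf [7,9,11,10]) (.leaf [3,4,6,8,5])) (.leaf [12,14,15,13]))) (.free 2 [16,17,18,19,20,21,22]))), .t 7 (nat_lit 0xb290b27085a085702fa02f9) (.z (.edon 0 16 (.edon 0 12 (.node 2 4 (.node 5 9 (.leaf [0,2,5,10,11]) (.leaf [6,7,9,8])) (.leaf [1,3,4])) (.leaf [12,14,15,13])) (.free 2 [16,17,18,19,20,21,22]))), .t 9 (nat_lit 0x86e086d051d051b03fd03fb03ba0b1a) (.z (.edon 0 3 (.free 1 [0,1,2]) (.edon 14 22 (.free 2 [14,15,16,17,18,19,20]) (.node 11 12 (.leaf [11,13,22,21]) (.node 4 9 (.leaf [3,4,10,8,5]) (.leaf [6,7,12,9])))))), .t 10 (nat_lit 0xb290b270867086605240522040103ff03ba) (.z (.edon 0 16 (.edon 0 3 (.leaf [0,1,2]) (.edon 0 12 (.node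 4 10 (.leaf [3,4,11,8,5]) (.leaf [6,7,9,10])) (.leaf [12,14,15,13]))) (.free 2 [16,17,18,19,20,21,22]))), .t 6 (nat_lit 0x2f002ef00da00d8001f) (.z (.edon 0 16 (.node 0 12 (.leaf [0,13,14,15]) (.edon 3 9 (.free 2 [3,4,6,7,8,10,12]) (.leaf [1,5,9,11,2]))) (.free 2 [16,17,18,19,20,21,22]))), .t 5 (nat_lit 0x2a3004f00060001) (.z (.edon 0 16 (.node 0 12 (.leaf [0,13,14,15]) (.edon 4 5 (.free 2 [4,6,7,8,9,10,12]) (.leaf [1,3,5,11,2]))) (.free 2 [16,17,18,19,20,21,22])))] (by decide +kernel) (by decide +kernel)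
theorem b102 : B 3264 3296 := Blk.of_chk [.t 5 (nat_lit 0x2a2004e00050001) (.z (.edon 0 16 (.node 0 12 (.leaf [0,13,14,15]) (.edon 4 5 (.free 2 [4,6,7,8,9,11,12]) (.leaf [1,3,5,10,2]))) (.free 2 [16,17,18,19,20,21,22]))), .t 5 (nat_lit 0x2ae005e00050004) (.z (.edon 0 16 (.node 0 12 (.leaf [0,13,14,15]) (.edon 4 9 (.free 2 [4,5,6,7,8,11,12]) (.leaf [1,3,9,10,2]))) (.free 2 [16,17,18,19,20,21,22]))), .t 7 (nat_lit 0x4ec04e9005e003600050004) (.z (.edon 0 16 (.node 0 12 (.leaf [0,13,14,15]) (.edon 7 10 (.leaf [7,11,12]) (.node 3 5 (.leaf [1,3,10,9,2]) (.leaf [4,6,8,5])))) (.free 2 [16,17,18,19,20,21,22]))), .t 10 (nat_lit 0xb290b2708f708f504f303ec03eb03c503bb) (.z (.edon 0 16 (.edon 0 3 (.leaf [0,1,2]) (.edon 0 12 (.node 6 10 (.leaf [3,4,6,9,5]) (.leaf [7,11,10,8])) (.leaf [12,14,15,13]))) (.free 2 [16,17,18,19,20,21,22]))), .t 7 (nat_lit 0xb290b2702e002df086c0869)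 (.z (.edon 0 16 (.edon 0 12 (.node 2 4 (.edon 6 8 (.leaf [6,7,11,9]) (.leaf [0,2,5,8,10])) (.leaf [1,3,4])) (.leaf [12,14,15,13])) (.free 2 [16,17,18,19,20,21,22]))), .t 8 (nat_lit 0x85b0875087408640863089e089d) (.z (.edon 0 16 (.node 0 12 (.leaf [0,13,14,15]) (.edon 6 11 (.leaf [6,7,12,10,8]) (.free 2 [1,2,3,4,5,9,11]))) (.free 2 [16,17,18,19,20,21,22]))), .t 10 (nat_lit 0x85f085e085b0b290b270898089508720871) (.z (.edon 0 16 (.edon 0 12 (.node 2 4 (.node 5 11 (.leaf [0,2,5,9]) (.leaf [6,7,10,11,8])) (.leaf [1,3,4])) (.leaf [12,14,15,13])) (.free 2 [16,17,18,19,20,21,22]))), .t 10 (nat_lit 0xb290b27053f0411040f03d603be085e085b) (.z (.edon 0 16 (.edon 0 3 (.leaf [0,1,2]) (.edon 0 12 (.edon 6 11 (.leaf [6,7,10,8]) (.leaf [3,4,5,11,9])) (.leaf [12,14,15,13]))) (.free 2 [16,17,18,19,20,21,22]))), .t 10 (nat_lit 0xb290b27053f053d0411041003bb085e085b)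 (.z (.edon 0 16 (.edon 0 3 (.leaf [0,1,2]) (.edon 0 12 (.edon 6 11 (.leaf [6,7,10,8]) (.leaf [3,4,11,9,5])) (.leaf [12,14,15,13]))) (.free 2 [16,17,18,19,20,21,22]))), .t 10 (nat_lit 0x4e90515051204f304f005a905a7094a0949) (.z (.node 0 3 (.node 0 12 (.edon 0 16 (.leaf [0,13,14,15]) (.free 2 [16,17,18,19,20,21,22])) (.edon 7 8 (.leaf [7,12,11,10]) (.leaf [4,6,8,9,5]))) (.free 1 [1,2,3]))), .t 7 (nat_lit 0x2a1004c00040001094a0949) (.z (.edon 0 16 (.node 0 12 (.leaf [0,13,14,15]) (.edon 7 8 (.leaf [7,12,11,10]) (.node 3 8 (.leaf [1,3,5,9,2]) (.leaf [4,6,8])))) (.free 2 [16,17,18,19,20,21,22]))), .t 10 (nat_lit 0xb290b2704f303ec03eb03c503bb08f608f3) (.z (.edon 0 16 (.edon 0 3 (.leaf [0,1,2]) (.edon 0 12 (.edon 7 9 (.leaf [7,10,11,8]) (.leaf [3,4,6,9,5])) (.leaf [12,14,15,13]))) (.free 2 [16,17,18,19,20,21,22]))), .t 10 (nat_lit 0xb290b2704f303ec03eb03c503bb08f708f5)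 (.z (.edon 0 16 (.edon 0 3 (.leaf [0,1,2]) (.edon 0 12 (.edon 7 9 (.leaf [7,11,10,8]) (.leaf [3,4,6,9,5])) (.leaf [12,14,15,13]))) (.free 2 [16,17,18,19,20,21,22]))), .t 5 (nat_lit 0x2a2004e00050001) (.z (.edon 0 16 (.node 0 12 (.leaf [0,13,14,15]) (.edon 4 10 (.free 2 [4,6,7,8,9,11,12]) (.leaf [1,3,5,10,2]))) (.free 2 [16,17,18,19,20,21,22]))), .t 5 (nat_lit 0x2ae005e00050004) (.z (.edon 0 16 (.node 0 12 (.leaf [0,13,14,15]) (.edon 4 10 (.free 2 [4,5,6,7,8,11,12]) (.leaf [1,3,9,10,2]))) (.free 2 [16,17,18,19,20,21,22]))), .t 10 (nat_lit 0xb290b270538040c040903d503bd0862085f) (.z (.edon 0 16 (.edon 0 3 (.leaf [0,1,2]) (.edon 0 12 (.edon 6 10 (.leaf [6,7,11,8]) (.leaf [3,4,5,10,9])) (.leaf [12,14,15,13]))) (.free 2 [16,17,18,19,20,21,22]))), .t 5 (nat_lit 0x36090f090e03b9) (.z (.edon 0 16 (.node 0 12 (.leaf [0,13,14,15]) (.edon 3 10 (.edon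 0 7 (.leaf [3,4,6,5]) (.leaf [7,12,11,8])) (.leaf [1,9,10,2]))) (.free 2 [16,17,18,19,20,21,22]))), .t 10 (nat_lit 0x74c0b290b27085908580787078607490748) (.z (.edon 0 16 (.edon 0 12 (.node 2 4 (.node 2 9 (.leaf [0,2,10,11]) (.leaf [5,6,7,8,9])) (.leaf [1,3,4])) (.leaf [12,14,15,13])) (.free 2 [16,17,18,19,20,21,22]))), .t 8 (nat_lit 0x74c085908580787078607490748) (.z (.node 2 4 (.node 2 9 (.free 4 [0,2,10,11,12,13,14,15,16,17,18,19,20,21,22]) (.leaf [5,6,7,8,9])) (.free 1 [1,3,4]))), .t 5 (nat_lit 0xb290b2703720370) (.z (.node 2 8 (.node 10 22 (.leaf [0,2,9,10,21]) (.edon 13 16 (.leaf [12,14,15,13]) (.free 2 [11,16,17,18,19,20,22]))) (.free 2 [1,3,4,5,6,7,8]))), .t 13 (nat_lit 0x86407930791076c076b075407530b1a0ad60aad0aa70aa6) (.z (.node 2 4 (.edon 14 22 (.free 2 [14,15,16,17,18,19,20]) (.node 2 8 (.edon 0 10 (.leaf [0,2,9]) (.leaf [10,11,13,22,21]))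 (.leaf [5,6,7,12,8]))) (.free 1 [1,3,4]))), .t 10 (nat_lit 0x3720370086407930791076c076b07540753) (.z (.node 14 22 (.edon 1 10 (.edon 0 5 (.leaf [1,3,4]) (.node 11 12 (.leaf [11,13,14]) (.leaf [5,6,7,12,8]))) (.leaf [0,2,9,10,21])) (.free 2 [15,16,17,18,19,20,22]))), .t 5 (nat_lit 0x65003d00060005) (.z (.edon 0 16 (.node 0 12 (.leaf [0,13,14,15]) (.node 3 9 (.leaf [1,3,11,10,2]) (.free 2 [4,5,6,7,8,9,12]))) (.free 2 [16,17,18,19,20,21,22]))), .t 6 (nat_lit 0x2f002ef00da00d8001f) (.z (.edon 0 16 (.node 0 12 (.leaf [0,13,14,15]) (.edon 3 11 (.free 2 [3,4,6,7,8,10,12]) (.leaf [1,5,9,11,2]))) (.free 2 [16,17,18,19,20,21,22]))), .t 10 (nat_lit 0x4fb04f304f005d605d1053f053d08fc08fb) (.z (.node 0 3 (.node 0 12 (.edon 0 16 (.leaf [0,13,14,15]) (.free 2 [16,17,18,19,20,21,22])) (.edon 7 11 (.leaf [7,12,10,8]) (.leaf [4,6,11,9,5]))) (.free 1 [1,2,3]))),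 .t 6 (nat_lit 0x3fc00bf00bc005a004e) (.z (.node 10 2 (.edon 4 8 (.leaf [4,6,7]) (.leaf [1,3,8,10,5])) (.free 4 [0,2,9,11,12,13,14,15,16,17,18,19,20,21,22]))), .t 1 (nat_lit 0) (.cn 1 3), .t 5 (nat_lit 0x5f003800060004) (.z (.edon 0 16 (.node 0 12 (.leaf [0,13,14,15]) (.edon 4 11 (.free 2 [4,5,6,7,8,10,12]) (.leaf [1,3,11,9,2]))) (.free 2 [16,17,18,19,20,21,22]))), .t 8 (nat_lit 0xb290b2703fc00bf00bc005a004e) (.z (.edon 0 16 (.edon 0 12 (.node 2 10 (.leaf [0,2,9,11]) (.edon 4 8 (.leaf [4,6,7]) (.leaf [1,3,8,10,5]))) (.leaf [12,14,15,13])) (.free 2 [16,17,18,19,20,21,22]))), .t 1 (nat_lit 0) (.cn 2 2), .t 7 (nat_lit 0x864086302ec02e90b0c0b0b) (.z (.edon 0 16 (.node 2 4 (.node 5 12 (.node 0 10 (.leaf [0,11,13,14,15]) (.leaf [2,5,10,9])) (.leaf [6,7,12,8])) (.leaf [1,3,4])) (.free 2 [16,17,18,19,20,21,22]))), .t 15 (nat_lit 0xa7e0a7a0a77074c0ab20aae0a960a94085908580787078607490748)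 (.z (.edon 1 21 (.edon 0 5 (.leaf [1,3,4]) (.edon 0 10 (.leaf [5,6,7,8,9]) (.edon 0 15 (.leaf [10,12,14,13,11]) (.free 2 [15,16,17,18,19,20,22])))) (.free 1 [0,2,21])))] (by decide +kernel) (by decide +kernel)
theorem b103 : B 3296 3328 := Blk.of_chk [.t 4 (nat_lit 0x40b0c0b0b) (.z (.edon 0 16 (.node 11 12 (.leaf [0,11,13,14,15]) (.edon 4 9 (.free 2 [4,5,6,7,8,10,12]) (.leaf [1,3,9,2]))) (.free 2 [16,17,18,19,20,21,22]))), .t 10 (nat_lit 0x74c08590858078707860749074803b503b4) (.z (.node 2 4 (.node 14 22 (.node 2 12 (.leaf [0,2,13,14,21]) (.edon 0 10 (.leaf [5,6,7,8,9]) (.leaf [10,11,12]))) (.free 2 [15,16,17,18,19,20,22])) (.free 1 [1,3,4]))), .t 15 (nat_lit 0xa7e0aaa0aa80a860a84074c0acb0aca085908580787078607490748) (.z (.edon 1 21 (.edon 0 5 (.leaf [1,3,4]) (.edon 0 10 (.leaf [5,6,7,8,9]) (.node 13 15 (.free 2 [13,16,17,18,19,20,22]) (.leaf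 [10,12,14,15,11])))) (.free 1 [0,2,21]))), .t 10 (nat_lit 0x74f0b290b27085d085c078b078a07490748) (.z (.edon 0 16 (.edon 0 12 (.edon 1 11 (.edon 0 5 (.leaf [1,3,4]) (.leaf [5,6,7,8,10])) (.leaf [0,2,9,11])) (.leaf [12,14,15,13])) (.free 2 [16,17,18,19,20,21,22]))), .t 7 (nat_lit 0x9cf09cd02a1004c00040001) (.z (.edon 0 16 (.node 0 12 (.leaf [0,13,14,15]) (.node 7 10 (.edon 4 5 (.leaf [4,6,7]) (.leaf [1,3,5,9,2])) (.leaf [8,12,11,10]))) (.free 2 [16,17,18,19,20,21,22]))), .t 5 (nat_lit 0x5e003600050004) (.z (.edon 0 16 (.node 0 12 (.leaf [0,13,14,15]) (.edon 4 10 (.free 2 [4,5,6,7,8,11,12]) (.leaf [1,3,10,9,2]))) (.free 2 [16,17,18,19,20,21,22]))), .t 8 (nat_lit 0x2ca02d902d802d202d103080307) (.z (.node 2 4 (.node 8 10 (.free 4 [0,8,9,11,12,13,14,15,16,17,18,19,20,21,22]) (.leaf [2,6,7,10,5])) (.free 1 [1,3,4]))), .t 15 (nat_lit 0x74c0afb0acb0ac90aaa0aa80a870a85085908580787078607490748)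 (.z (.edon 1 21 (.edon 0 5 (.leaf [1,3,4]) (.edon 0 10 (.leaf [5,6,7,8,9]) (.edon 12 16 (.leaf [10,14,15,12,11]) (.free 2 [13,16,17,18,19,20,22])))) (.free 1 [0,2,21]))), .t 5 (nat_lit 0x2b0006000070004) (.z (.edon 0 16 (.node 0 12 (.leaf [0,13,14,15]) (.node 3 11 (.leaf [1,3,9,12,2]) (.free 2 [4,5,6,7,8,10,11]))) (.free 2 [16,17,18,19,20,21,22]))), .t 13 (nat_lit 0xb2c0b380b370b300b2f036a01c601c3003d00380b490b48) (.z (.edon 0 20 (.node 1 14 (.node 0 11 (.node 0 17 (.leaf [0,18,19]) (.leaf [12,15,16,17,13])) (.leaf [1,10,11,9,2])) (.free 2 [3,4,5,6,7,8,14])) (.free 1 [20,21,22]))), .t 15 (nat_lit 0xb290b0c0b0a0afb0af90ae90ae808d80883087f08680865085d085c) (.z (.node 0 2 (.edon 0 6 (.leaf [0,3,4,5]) (.edon 0 11 (.leaf [6,7,8,10,9]) (.edon 0 16 (.leaf [11,14,15,13,12]) (.free 2 [16,17,18,19,20,21,22])))) (.free 1 [1,2]))), .t 1 (nat_lit 0) (.cn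 1 3), .t 8 (nat_lit 0x2ee02ec02e9036a036702fa02f9) (.z (.edon 0 16 (.node 0 12 (.leaf [0,13,14,15]) (.edon 1 10 (.free 2 [1,3,4,6,7,8,12]) (.leaf [2,5,10,11,9]))) (.free 2 [16,17,18,19,20,21,22]))), .t 6 (nat_lit 0x2f100db00d700380021) (.z (.edon 0 16 (.node 0 12 (.leaf [0,13,14,15]) (.edon 3 11 (.free 2 [3,4,6,7,8,10,12]) (.leaf [1,5,11,9,2]))) (.free 2 [16,17,18,19,20,21,22]))), .t 10 (nat_lit 0xb290b2704f303ec03eb03c503bb08f708f2) (.z (.edon 0 16 (.edon 0 3 (.leaf [0,1,2]) (.edon 0 12 (.edon 7 9 (.leaf [7,8,11,10]) (.leaf [3,4,6,9,5])) (.leaf [12,14,15,13]))) (.free 2 [16,17,18,19,20,21,22]))), .t 1 (nat_lit 0) (.fa 3), .t 1 (nat_lit 0) (.fa 3), .t 6 (nat_lit 0x2f402f300de00dd001f) (.z (.edon 0 16 (.node 0 12 (.leaf [0,13,14,15]) (.edon 3 9 (.free 2 [3,4,6,7,8,10,11]) (.leaf [1,5,9,12,2]))) (.free 2 [16,17,18,19,20,21,22]))), .t 1 (nat_lit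 0) (.fa 3), .t 10 (nat_lit 0xb290b270868086505240522040103ff03ba) (.z (.edon 0 16 (.edon 0 3 (.leaf [0,1,2]) (.edon 0 12 (.node 4 9 (.leaf [3,4,11,8,5]) (.leaf [6,7,10,9])) (.leaf [12,14,15,13]))) (.free 2 [16,17,18,19,20,21,22]))), .t 1 (nat_lit 0) (.cp 1 3), .t 1 (nat_lit 0) (.cn 1 3), .t 8 (nat_lit 0x868079807950773076f074f074e) (.z (.node 2 4 (.node 2 9 (.free 4 [0,2,8,11,12,13,14,15,16,17,18,19,20,21,22]) (.leaf [5,6,7,10,9])) (.free 1 [1,3,4]))), .t 1 (nat_lit 0) (.cn 1 3), .t 5 (nat_lit 0xb290b2702dd02dc) (.z (.edon 0 16 (.edon 0 12 (.edon 1 8 (.free 2 [1,3,4,6,7,10,11]) (.leaf [0,2,5,8,9])) (.leaf [12,14,15,13])) (.free 2 [16,17,18,19,20,21,22]))), .t 1 (nat_lit 0) (.cn 1 3), .t 1 (nat_lit 0) (.cn 1 3), .t 10 (nat_lit 0xb290b270868079807950773076f074f074e) (.z (.edon 0 16 (.edon 0 12 (.edon 1 8 (.edon 0 5 (.leaf [1,3,4]) (.leaf [5,6,7,10,9]))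 (.leaf [0,2,8,11])) (.leaf [12,14,15,13])) (.free 2 [16,17,18,19,20,21,22]))), .t 1 (nat_lit 0) (.fa 3), .t 8 (nat_lit 0xb3f0b1a0b090af80af608d808d6) (.z (.edon 0 7 (.free 2 [0,1,2,3,4,5,6]) (.edon 0 11 (.leaf [7,10,9,8]) (.edon 14 22 (.free 2 [14,15,16,17,18,19,20]) (.leaf [11,12,13,22,21]))))), .t 9 (nat_lit 0xb3f09980923092008f608f308de08dc) (.z (.edon 0 7 (.free 2 [0,1,2,3,4,5,6]) (.edon 0 12 (.leaf [7,10,11,9,8]) (.edon 14 22 (.free 2 [14,15,16,17,18,19,20]) (.leaf [12,13,22,21]))))), .t 1 (nat_lit 0) (.cn 2 2)] (by decide +kernel) (by decide +kernel)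
theorem b104 : B 3328 3360 := Blk.of_chk [.t 9 (nat_lit 0xb3f04ec03e803e703c403ba09230920) (.z (.edon 0 3 (.free 1 [0,1,2]) (.edon 0 12 (.edon 7 8 (.leaf [7,10,11,9]) (.leaf [3,4,6,8,5])) (.edon 14 22 (.free 2 [14,15,16,17,18,19,20]) (.leaf [12,13,22,21]))))), .t 1 (nat_lit 0) (.cn 2 2), .t 6 (nat_lit 0xb3f085e085b02f002ef) (.z (.edon 22 14 (.edon 0 12 (.node 4 8 (.node 2 4 (.leaf [0,2,5,9,11]) (.leaf [1,3,4])) (.leaf [6,7,10,8])) (.leaf [12,13,22,21])) (.free 2 [14,15,16,17,18,19,20]))), .t 9 (nat_lit 0x85708680865085e085b0b3f08830881) (.z (.node 2 4 (.edon 0 12 (.node 5 9 (.leaf [0,2,5,11]) (.leaf [6,7,10,9,8])) (.edon 14 22 (.free 2 [14,15,16,17,18,19,20]) (.leaf [12,13,22,21]))) (.free 1 [1,3,4]))), .t 6 (nat_lit 0x3370175017100360032) (.z (.edon 0 16 (.node 1 14 (.node 0 10 (.leaf [0,12,13,15]) (.leaf [1,8,10,9,2])) (.free 2 [3,4,5,6,7,11,14]))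 (.free 2 [16,17,18,19,20,21,22]))), .t 6 (nat_lit 0x375037401dc01da0038) (.z (.edon 0 16 (.node 0 12 (.leaf [0,13,14,15]) (.node 1 8 (.leaf [1,9,11,12,2]) (.free 2 [3,4,5,6,7,8,10]))) (.free 2 [16,17,18,19,20,21,22]))), .t 9 (nat_lit 0xb3f0868086505240522040103ff03ba) (.z (.edon 0 3 (.free 1 [0,1,2]) (.edon 0 12 (.node 4 9 (.leaf [3,4,11,8,5]) (.leaf [6,7,10,9])) (.edon 14 22 (.free 2 [14,15,16,17,18,19,20]) (.leaf [12,13,22,21]))))), .t 9 (nat_lit 0x85708680865085e085b0b3f08830881) (.z (.node 2 4 (.edon 0 12 (.node 5 8 (.leaf [0,2,5,11]) (.leaf [6,7,10,9,8])) (.edon 14 22 (.free 2 [14,15,16,17,18,19,20]) (.leaf [12,13,22,21]))) (.free 1 [1,3,4]))), .t 1 (nat_lit 0) (.fa 3), .t 11 (nat_lit 0xb3f0b1a0b090af80af604f303ec03eb03c503bb) (.z (.edon 0 3 (.free 1 [0,1,2]) (.edon 0 11 (.edon 7 9 (.leaf [7,8,10]) (.leaf [3,4,6,9,5])) (.edon 14 22 (.free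 2 [14,15,16,17,18,19,20]) (.leaf [11,12,13,22,21]))))), .t 8 (nat_lit 0xb3f0b1a0b090af80af6085e085b) (.z (.edon 22 14 (.edon 0 11 (.node 4 8 (.free 2 [0,1,2,3,4,5,9]) (.leaf [6,7,10,8])) (.leaf [11,12,13,22,21])) (.free 2 [14,15,16,17,18,19,20]))), .t 8 (nat_lit 0x85f085e085b0898089508720871) (.z (.edon 0 16 (.node 0 12 (.leaf [0,13,14,15]) (.node 4 8 (.free 2 [1,2,3,4,5,9,12]) (.leaf [6,7,10,11,8]))) (.free 2 [16,17,18,19,20,21,22]))), .t 9 (nat_lit 0xb3f085e085b053f053d0411041003bb) (.z (.edon 0 3 (.free 1 [0,1,2]) (.edon 0 12 (.node 4 8 (.leaf [3,4,11,9,5]) (.leaf [6,7,10,8])) (.edon 14 22 (.free 2 [14,15,16,17,18,19,20]) (.leaf [12,13,22,21]))))), .t 10 (nat_lit 0xae40ae308d80883087f08680865085d085c) (.z (.node 2 4 (.node 5 22 (.leaf [0,2,5,21]) (.edon 0 11 (.leaf [6,7,8,10,9]) (.edon 0 15 (.leaf [11,14,13,12]) (.free 2 [15,16,17,18,19,20,22]))))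 (.free 1 [1,3,4]))), .t 9 (nat_lit 0x2a1004c0004000109d809d60b2e0b2d) (.z (.node 16 0 (.edon 8 9 (.node 12 14 (.leaf [12,13,15,16]) (.leaf [8,14,11,10])) (.edon 4 5 (.leaf [4,6,7]) (.leaf [1,3,5,9,2]))) (.free 2 [0,17,18,19,20,21,22]))), .t 9 (nat_lit 0xb3f08f7089908940873087008610860) (.z (.node 0 3 (.edon 0 12 (.edon 6 9 (.leaf [6,7,8,11,10]) (.leaf [0,4,5,9])) (.edon 14 22 (.free 2 [14,15,16,17,18,19,20]) (.leaf [12,13,22,21]))) (.free 1 [1,2,3]))), .t 15 (nat_lit 0xa760a960a920a810a7d074c0ab20ab1085908580787078607490748) (.z (.edon 1 21 (.edon 0 5 (.leaf [1,3,4]) (.edon 0 10 (.leaf [5,6,7,8,9]) (.edon 0 15 (.leaf [10,11,14,13,12]) (.free 2 [15,16,17,18,19,20,22])))) (.free 1 [0,2,21]))), .t 1 (nat_lit 0) (.cn 1 3), .t 1 (nat_lit 0) (.cp 1 3), .t 8 (nat_lit 0x74707630760074f074d078b078a) (.z (.node 2 4 (.node 2 10 (.free 4 [0,2,9,11,12,13,14,15,16,17,18,19,20,21,22])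 (.leaf [5,7,8,10,6])) (.free 1 [1,3,4]))), .t 5 (nat_lit 0x2a7005400040002) (.z (.edon 0 16 (.node 0 12 (.leaf [0,13,14,15]) (.node 3 10 (.leaf [1,3,6,9,2]) (.free 2 [4,5,7,8,10,11,12]))) (.free 2 [16,17,18,19,20,21,22]))), .t 10 (nat_lit 0xb290b270790078d05ce05cc0465046303c5) (.z (.edon 0 16 (.edon 0 3 (.leaf [0,1,2]) (.edon 0 12 (.node 4 8 (.leaf [3,4,10,9,6]) (.leaf [5,7,11,8])) (.leaf [12,14,15,13]))) (.free 2 [16,17,18,19,20,21,22]))), .t 10 (nat_lit 0xb290b2704f403ed03ea03c503bb08f708f2) (.z (.edon 0 16 (.edon 0 3 (.leaf [0,1,2]) (.edon 0 12 (.edon 7 9 (.leaf [7,8,11,10]) (.leaf [3,4,5,9,6])) (.leaf [12,14,15,13]))) (.free 2 [16,17,18,19,20,21,22]))), .t 1 (nat_lit 0) (.fa 2), .t 8 (nat_lit 0xb290b0c0b0a0afb0af90ae90ae8) (.z (.edon 0 16 (.edon 0 11 (.edon 1 6 (.free 2 [1,3,4,5,7,8,10]) (.leaf [0,2,6,9])) (.leaf [11,14,15,13,12])) (.free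 2 [16,17,18,19,20,21,22]))), .t 6 (nat_lit 0xb3f0ad60ad00ac70ac6) (.z (.edon 14 1 (.edon 0 10 (.leaf [0,2,6,9]) (.edon 14 22 (.free 2 [14,15,16,17,18,19,20]) (.leaf [10,12,13,22,21]))) (.free 2 [1,3,4,5,7,8,11]))), .t 6 (nat_lit 0xb3f0ad60ad00ac70ac6) (.z (.edon 14 1 (.edon 0 10 (.leaf [0,2,8,9]) (.edon 14 22 (.free 2 [14,15,16,17,18,19,20]) (.leaf [10,12,13,22,21]))) (.free 2 [1,3,4,5,6,7,11]))), .t 6 (nat_lit 0x31b0133012e00360027) (.z (.edon 0 16 (.node 1 14 (.node 0 10 (.leaf [0,12,13,15]) (.leaf [1,6,10,9,2])) (.free 2 [3,4,5,7,8,11,14])) (.free 2 [16,17,18,19,20,21,22]))), .t 9 (nat_lit 0x2a700540004000209d709d50b2e0b2d) (.z (.node 16 0 (.edon 4 11 (.leaf [4,5,7]) (.edon 8 9 (.node 12 14 (.leaf [12,13,15,16]) (.leaf [8,11,14,10])) (.leaf [1,3,6,9,2]))) (.free 2 [0,17,18,19,20,21,22]))), .t 6 (nat_lit 0x3220321013b013a0026) (.z (.edon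 0 16 (.node 0 12 (.leaf [0,13,14,15]) (.node 1 10 (.leaf [1,6,9,12,2]) (.free 2 [3,4,5,7,8,10,11]))) (.free 2 [16,17,18,19,20,21,22]))), .t 9 (nat_lit 0xb3f08f707cf07cb07a307a0078f078e) (.z (.edon 22 14 (.edon 0 12 (.node 4 10 (.free 2 [0,1,2,3,4,6,9]) (.leaf [5,7,8,11,10])) (.leaf [12,13,22,21])) (.free 2 [14,15,16,17,18,19,20]))), .t 9 (nat_lit 0xb3f0790078d05ce05cc0465046303c5) (.z (.edon 0 3 (.free 1 [0,1,2]) (.edon 0 12 (.node 4 8 (.leaf [3,4,10,9,6]) (.leaf [5,7,11,8])) (.edon 14 22 (.free 2 [14,15,16,17,18,19,20]) (.leaf [12,13,22,21])))))] (by decide +kernel) (by decide +kernel)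

end Pool.Agent.GCP.F8_14
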