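import Pool.Agent.GCP.F8_9Db

set_option autoImplicit false
set_option maxRecDepth 100000

/-! # Blocks F8_9B1 (generated) -/

namespace Pool.Agent.GCP.F8_9

open Pool.Agent.GCP DB

theorem b79 : B 2528 2560 := Blk.of_chk [.t 1 (nat_lit 0) (.ax 11 12 16 20 6), .t 1 (nat_lit 0) (.ax 11 12 16 21 4), .t 1 (nat_lit 0) (.ax 11 12 17 18 6), .t 1 (nat_lit 0) (.ax 11 12 17 19 0), .t 1 (nat_lit 0) (.ax 11 12 17 19 1), .t 1 (nat_lit 0) (.ax 11 12 17 19 2), .t 1 (nat_lit 0) (.ax 11 12 17 19 4), .t 1 (nat_lit 0) (.ax 11 12 17 19 5), .t 1 (nat_lit 0) (.ax 11 12 17 19 6), .t 1 (nat_lit 0) (.ax 11 12 17 19 7), .t 1 (nat_lit 0) (.ax 11 12 17 20 0), .t 1 (nat_lit 0) (.ax 11 12 17 20 2), .t 1 (nat_lit 0) (.ax 11 12 17 20 4), .t 1 (nat_lit 0) (.ax 11 12 18 19 0), .t 1 (nat_lit 0) (.ax 11 12 18 19 1), .t 1 (nat_lit 0) (.ax 11 12 18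 19 2), .t 1 (nat_lit 0) (.ax 11 12 18 19 4), .t 1 (nat_lit 0) (.ax 11 12 18 19 5), .t 1 (nat_lit 0) (.ax 11 12 18 20 0), .t 1 (nat_lit 0) (.ax 11 12 18 20 2), .t 1 (nat_lit 0) (.ax 11 12 18 22 2), .t 1 (nat_lit 0) (.ax 11 12 18 22 4), .t 1 (nat_lit 0) (.ax 11 12 19 20 4), .t 1 (nat_lit 0) (.ax 11 12 19 21 4), .t 1 (nat_lit 0) (.ax 11 12 20 22 4), .t 1 (nat_lit 0) (.ax 11 12 21 22 5), .t 1 (nat_lit 0) (.ax 11 13 14 15 0), .t 1 (nat_lit 0) (.ax 11 13 14 15 1), .t 1 (nat_lit 0) (.ax 11 13 14 15 3), .t 1 (nat_lit 0) (.ax 11 13 14 15 4), .t 1 (nat_lit 0) (.ax 11 13 14 15 5), .t 1 (nat_lit 0) (.ax 11 13 14 15 7)] (by decide +kernel) (by decide +kernel)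
theorem b80 : B 2560 2592 := Blk.of_chk [.t 1 (nat_lit 0) (.ax 11 13 14 16 0), .t 1 (nat_lit 0) (.ax 11 13 14 16 1), .t 1 (nat_lit 0) (.ax 11 13 14 16 2), .t 1 (nat_lit 0) (.ax 11 13 14 16 4), .t 1 (nat_lit 0) (.ax 11 13 14 16 5), .t 1 (nat_lit 0) (.ax 11 13 14 16 6), .t 1 (nat_lit 0) (.ax 11 13 14 17 2), .t 1 (nat_lit 0) (.ax 11 13 14 17 4), .t 1 (nat_lit 0) (.ax 11 13 14 18 4), .t 1 (nat_lit 0) (.ax 11 13 14 19 0), .t 1 (nat_lit 0) (.ax 11 13 14 19 1), .t 1 (nat_lit 0) (.ax 11 13 14 19 2), .t 1 (nat_lit 0) (.ax 11 13 14 19 3), .t 1 (nat_lit 0) (.ax 11 13 14 19 4), .t 1 (nat_lit 0) (.ax 11 13 14 19 5), .t 1 (nat_lit 0) (.ax 11 13 14 19 6), .t 1 (nat_lit 0) (.ax 11 13 14 19 7), .t 1 (nat_lit 0) (.ax 11 13 14 20 4), .t 1 (nat_lit 0) (.ax 11 13 14 20 6), .t 1 (nat_lit 0) (.ax 11 13 14 21 1), .t 1 (nat_lit 0) (.ax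 11 13 14 21 4), .t 1 (nat_lit 0) (.ax 11 13 14 21 6), .t 1 (nat_lit 0) (.ax 11 13 15 16 0), .t 1 (nat_lit 0) (.ax 11 13 15 16 1), .t 1 (nat_lit 0) (.ax 11 13 15 16 2), .t 1 (nat_lit 0) (.ax 11 13 15 16 3), .t 1 (nat_lit 0) (.ax 11 13 15 16 4), .t 1 (nat_lit 0) (.ax 11 13 15 16 5), .t 1 (nat_lit 0) (.ax 11 13 15 16 6), .t 1 (nat_lit 0) (.ax 11 13 15 16 7), .t 1 (nat_lit 0) (.ax 11 13 15 17 4), .t 1 (nat_lit 0) (.ax 11 13 15 17 5)] (by decide +kernel) (by decide +kernel)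
theorem b81 : B 2592 2624 := Blk.of_chk [.t 1 (nat_lit 0) (.ax 11 13 15 18 3), .t 1 (nat_lit 0) (.ax 11 13 15 18 4), .t 1 (nat_lit 0) (.ax 11 13 15 18 5), .t 1 (nat_lit 0) (.ax 11 13 15 19 0), .t 1 (nat_lit 0) (.ax 11 13 15 19 3), .t 1 (nat_lit 0) (.ax 11 13 15 19 4), .t 1 (nat_lit 0) (.ax 11 13 15 19 5), .t 1 (nat_lit 0) (.ax 11 13 15 19 6), .t 1 (nat_lit 0) (.ax 11 13 15 19 7), .t 1 (nat_lit 0) (.ax 11 13 15 20 4), .t 1 (nat_lit 0) (.ax 11 13 15 21 4), .t 1 (nat_lit 0) (.ax 11 13 15 21 5), .t 1 (nat_lit 0) (.ax 11 13 16 17 4), .t 1 (nat_lit 0) (.ax 11 13 16 18 1), .t 1 (nat_lit 0) (.ax 11 13 16 18 4), .t 1 (nat_lit 0) (.ax 11 13 16 19 4), .t 1 (nat_lit 0) (.ax 11 13 16 19 6), .t 1 (nat_lit 0) (.ax 11 13 16 20 4), .t 1 (nat_lit 0) (.ax 11 13 16 21 4), .t 1 (nat_lit 0) (.ax 11 13 16 22 4), .t 1 (nat_lit 0) (.ax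 11 13 17 18 4), .t 1 (nat_lit 0) (.ax 11 13 17 19 0), .t 1 (nat_lit 0) (.ax 11 13 17 19 1), .t 1 (nat_lit 0) (.ax 11 13 17 19 2), .t 1 (nat_lit 0) (.ax 11 13 17 19 4), .t 1 (nat_lit 0) (.ax 11 13 17 19 6), .t 1 (nat_lit 0) (.ax 11 13 17 19 7), .t 1 (nat_lit 0) (.ax 11 13 17 20 2), .t 1 (nat_lit 0) (.ax 11 13 18 19 1), .t 1 (nat_lit 0) (.ax 11 13 18 19 2), .t 1 (nat_lit 0) (.ax 11 13 18 19 5), .t 1 (nat_lit 0) (.ax 11 13 18 19 7)] (by decide +kernel) (by decide +kernel)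
theorem b82 : B 2624 2656 := Blk.of_chk [.t 1 (nat_lit 0) (.ax 11 13 18 20 0), .t 1 (nat_lit 0) (.ax 11 13 19 20 4), .t 1 (nat_lit 0) (.ax 11 13 20 22 4), .t 1 (nat_lit 0) (.ax 11 13 21 22 5), .t 1 (nat_lit 0) (.ax 11 14 15 16 0), .t 1 (nat_lit 0) (.ax 11 14 15 16 1), .t 1 (nat_lit 0) (.ax 11 14 15 16 2), .t 1 (nat_lit 0) (.ax 11 14 15 16 3), .t 1 (nat_lit 0) (.ax 11 14 15 16 4), .t 1 (nat_lit 0) (.ax 11 14 15 16 5), .t 1 (nat_lit 0) (.ax 11 14 15 17 2), .t 1 (nat_lit 0) (.ax 11 14 15 17 4), .t 1 (nat_lit 0) (.ax 11 14 15 18 2), .t 1 (nat_lit 0) (.ax 11 14 15 19 0), .t 1 (nat_lit 0) (.ax 11 14 15 19 2), .t 1 (nat_lit 0) (.ax 11 14 15 19 4), .t 1 (nat_lit 0) (.ax 11 14 15 19 6), .t 1 (nat_lit 0) (.ax 11 14 15 19 7), .t 1 (nat_lit 0) (.ax 11 14 15 20 0), .t 1 (nat_lit 0) (.ax 11 14 15 20 2), .t 1 (nat_lit 0) (.ax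 11 14 15 20 3), .t 1 (nat_lit 0) (.ax 11 14 15 20 4), .t 1 (nat_lit 0) (.ax 11 14 15 20 6), .t 1 (nat_lit 0) (.ax 11 14 15 21 0), .t 1 (nat_lit 0) (.ax 11 14 15 22 4), .t 1 (nat_lit 0) (.ax 11 14 16 17 2), .t 1 (nat_lit 0) (.ax 11 14 16 17 4), .t 1 (nat_lit 0) (.ax 11 14 16 19 4), .t 1 (nat_lit 0) (.ax 11 14 16 20 4), .t 1 (nat_lit 0) (.ax 11 14 17 18 2), .t 1 (nat_lit 0) (.ax 11 14 17 19 0), .t 1 (nat_lit 0) (.ax 11 14 17 19 1)] (by decide +kernel) (by decide +kernel)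
theorem b83 : B 2656 2688 := Blk.of_chk [.t 1 (nat_lit 0) (.ax 11 14 17 19 2), .t 1 (nat_lit 0) (.ax 11 14 17 19 4), .t 1 (nat_lit 0) (.ax 11 14 17 20 0), .t 1 (nat_lit 0) (.ax 11 14 17 20 2), .t 1 (nat_lit 0) (.ax 11 14 17 20 4), .t 1 (nat_lit 0) (.ax 11 14 18 19 0), .t 1 (nat_lit 0) (.ax 11 14 18 19 1), .t 1 (nat_lit 0) (.ax 11 14 18 19 4), .t 1 (nat_lit 0) (.ax 11 14 18 20 0), .t 1 (nat_lit 0) (.ax 11 14 19 20 4), .t 1 (nat_lit 0) (.ax 11 14 19 21 4), .t 1 (nat_lit 0) (.ax 11 14 19 21 6), .t 1 (nat_lit 0) (.ax 11 14 19 22 4), .t 1 (nat_lit 0) (.ax 11 14 20 21 4), .t 1 (nat_lit 0) (.ax 11 14 20 22 4), .t 1 (nat_lit 0) (.ax 11 14 21 22 5), .t 1 (nat_lit 0) (.ax 11 15 16 17 4), .t 1 (nat_lit 0) (.ax 11 15 16 18 1), .t 1 (nat_lit 0) (.ax 11 15 16 18 4), .t 1 (nat_lit 0) (.ax 11 15 16 19 4), .t 1 (nat_lit 0) (.ax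 11 15 16 20 4), .t 1 (nat_lit 0) (.ax 11 15 16 21 4), .t 1 (nat_lit 0) (.ax 11 15 17 19 0), .t 1 (nat_lit 0) (.ax 11 15 17 19 1), .t 1 (nat_lit 0) (.ax 11 15 17 19 2), .t 1 (nat_lit 0) (.ax 11 15 17 19 3), .t 1 (nat_lit 0) (.ax 11 15 17 19 4), .t 1 (nat_lit 0) (.ax 11 15 17 20 1), .t 1 (nat_lit 0) (.ax 11 15 17 20 2), .t 1 (nat_lit 0) (.ax 11 15 17 21 4), .t 1 (nat_lit 0) (.ax 11 15 18 19 1), .t 1 (nat_lit 0) (.ax 11 15 18 19 2)] (by decide +kernel) (by decide +kernel)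
theorem b84 : B 2688 2720 := Blk.of_chk [.t 1 (nat_lit 0) (.ax 11 15 18 19 4), .t 1 (nat_lit 0) (.ax 11 15 19 21 4), .t 1 (nat_lit 0) (.ax 11 16 17 18 0), .t 1 (nat_lit 0) (.ax 11 16 19 21 0), .t 1 (nat_lit 0) (.ax 11 17 18 19 0), .t 1 (nat_lit 0) (.ax 11 17 18 19 1), .t 1 (nat_lit 0) (.ax 11 17 18 19 5), .t 1 (nat_lit 0) (.ax 11 17 18 19 6), .t 1 (nat_lit 0) (.ax 11 17 18 20 0), .t 1 (nat_lit 0) (.ax 11 17 19 20 4), .t 1 (nat_lit 0) (.ax 11 17 20 22 4), .t 1 (nat_lit 0) (.ax 11 17 21 22 5), .t 1 (nat_lit 0) (.ax 11 18 19 20 4), .t 1 (nat_lit 0) (.ax 11 18 20 22 4), .t 1 (nat_lit 0) (.ax 11 18 21 22 5), .t 1 (nat_lit 0) (.ax 11 19 20 21 0), .t 1 (nat_lit 0) (.ax 11 20 21 22 5), .t 1 (nat_lit 0) (.ax 12 13 14 15 0), .t 1 (nat_lit 0) (.ax 12 13 14 15 1), .t 1 (nat_lit 0) (.ax 12 13 14 15 2), .t 1 (nat_lit 0) (.ax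 12 13 14 15 3), .t 1 (nat_lit 0) (.ax 12 13 14 15 4), .t 1 (nat_lit 0) (.ax 12 13 14 15 5), .t 1 (nat_lit 0) (.ax 12 13 14 15 6), .t 1 (nat_lit 0) (.ax 12 13 14 15 7), .t 1 (nat_lit 0) (.ax 12 13 14 16 0), .t 1 (nat_lit 0) (.ax 12 13 14 16 1), .t 1 (nat_lit 0) (.ax 12 13 14 16 2), .t 1 (nat_lit 0) (.ax 12 13 14 16 3), .t 1 (nat_lit 0) (.ax 12 13 14 16 4), .t 1 (nat_lit 0) (.ax 12 13 14 16 5), .t 1 (nat_lit 0) (.ax 12 13 14 16 6)] (by decide +kernel) (by decide +kernel)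
theorem b85 : B 2720 2752 := Blk.of_chk [.t 1 (nat_lit 0) (.ax 12 13 14 16 7), .t 1 (nat_lit 0) (.ax 12 13 14 17 0), .t 1 (nat_lit 0) (.ax 12 13 14 17 2), .t 1 (nat_lit 0) (.ax 12 13 14 17 3), .t 1 (nat_lit 0) (.ax 12 13 14 17 7), .t 1 (nat_lit 0) (.ax 12 13 14 18 1), .t 1 (nat_lit 0) (.ax 12 13 14 18 7), .t 1 (nat_lit 0) (.ax 12 13 14 19 0), .t 1 (nat_lit 0) (.ax 12 13 14 19 1), .t 1 (nat_lit 0) (.ax 12 13 14 19 2), .t 1 (nat_lit 0) (.ax 12 13 14 19 3), .t 1 (nat_lit 0) (.ax 12 13 14 19 4), .t 1 (nat_lit 0) (.ax 12 13 14 19 5), .t 1 (nat_lit 0) (.ax 12 13 14 19 6), .t 1 (nat_lit 0) (.ax 12 13 14 19 7), .t 1 (nat_lit 0) (.ax 12 13 14 20 1), .t 1 (nat_lit 0) (.ax 12 13 14 20 7), .t 1 (nat_lit 0) (.ax 12 13 14 21 0), .t 1 (nat_lit 0) (.ax 12 13 14 21 1), .t 1 (nat_lit 0) (.ax 12 13 14 21 2), .t 1 (nat_lit 0) (.ax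 12 13 14 21 3), .t 1 (nat_lit 0) (.ax 12 13 14 21 4), .t 1 (nat_lit 0) (.ax 12 13 14 21 5), .t 1 (nat_lit 0) (.ax 12 13 14 21 6), .t 1 (nat_lit 0) (.ax 12 13 14 21 7), .t 1 (nat_lit 0) (.ax 12 13 14 22 3), .t 1 (nat_lit 0) (.ax 12 13 15 16 0), .t 1 (nat_lit 0) (.ax 12 13 15 16 1), .t 1 (nat_lit 0) (.ax 12 13 15 16 2), .t 1 (nat_lit 0) (.ax 12 13 15 16 3), .t 1 (nat_lit 0) (.ax 12 13 15 16 4), .t 1 (nat_lit 0) (.ax 12 13 15 16 5)] (by decide +kernel) (by decide +kernel)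
theorem b86 : B 2752 2784 := Blk.of_chk [.t 1 (nat_lit 0) (.ax 12 13 15 16 6), .t 1 (nat_lit 0) (.ax 12 13 15 16 7), .t 1 (nat_lit 0) (.ax 12 13 15 17 1), .t 1 (nat_lit 0) (.ax 12 13 15 17 4), .t 1 (nat_lit 0) (.ax 12 13 15 17 5), .t 1 (nat_lit 0) (.ax 12 13 15 17 7), .t 1 (nat_lit 0) (.ax 12 13 15 18 1), .t 1 (nat_lit 0) (.ax 12 13 15 18 3), .t 1 (nat_lit 0) (.ax 12 13 15 18 4), .t 1 (nat_lit 0) (.ax 12 13 15 19 0), .t 1 (nat_lit 0) (.ax 12 13 15 19 1), .t 1 (nat_lit 0) (.ax 12 13 15 19 4), .t 1 (nat_lit 0) (.ax 12 13 15 19 6), .t 1 (nat_lit 0) (.ax 12 13 15 19 7), .t 1 (nat_lit 0) (.ax 12 13 15 20 5), .t 1 (nat_lit 0) (.ax 12 13 15 20 7), .t 1 (nat_lit 0) (.ax 12 13 15 21 0), .t 1 (nat_lit 0) (.ax 12 13 15 21 4), .t 1 (nat_lit 0) (.ax 12 13 15 21 6), .t 1 (nat_lit 0) (.ax 12 13 16 17 1), .t 1 (nat_lit 0) (.ax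 12 13 16 17 2), .t 1 (nat_lit 0) (.ax 12 13 16 17 4), .t 1 (nat_lit 0) (.ax 12 13 16 18 1), .t 1 (nat_lit 0) (.ax 12 13 16 18 2), .t 1 (nat_lit 0) (.ax 12 13 16 18 4), .t 1 (nat_lit 0) (.ax 12 13 16 19 4), .t 1 (nat_lit 0) (.ax 12 13 16 19 6), .t 1 (nat_lit 0) (.ax 12 13 16 20 4), .t 1 (nat_lit 0) (.ax 12 13 16 21 4), .t 1 (nat_lit 0) (.ax 12 13 17 18 0), .t 1 (nat_lit 0) (.ax 12 13 17 18 5), .t 1 (nat_lit 0) (.ax 12 13 17 18 6)] (by decide +kernel) (by decide +kernel)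
theorem b87 : B 2784 2816 := Blk.of_chk [.t 1 (nat_lit 0) (.ax 12 13 17 19 0), .t 1 (nat_lit 0) (.ax 12 13 17 19 1), .t 1 (nat_lit 0) (.ax 12 13 17 19 2), .t 1 (nat_lit 0) (.ax 12 13 17 19 3), .t 1 (nat_lit 0) (.ax 12 13 17 19 4), .t 1 (nat_lit 0) (.ax 12 13 17 19 5), .t 1 (nat_lit 0) (.ax 12 13 17 20 0), .t 1 (nat_lit 0) (.ax 12 13 17 20 4), .t 1 (nat_lit 0) (.ax 12 13 17 22 4), .t 1 (nat_lit 0) (.ax 12 13 18 19 0), .t 1 (nat_lit 0) (.ax 12 13 18 19 1), .t 1 (nat_lit 0) (.ax 12 13 18 19 2), .t 1 (nat_lit 0) (.ax 12 13 18 19 4), .t 1 (nat_lit 0) (.ax 12 13 18 19 6), .t 1 (nat_lit 0) (.ax 12 13 18 19 7), .t 1 (nat_lit 0) (.ax 12 13 18 20 5), .t 1 (nat_lit 0) (.ax 12 13 18 21 2), .t 1 (nat_lit 0) (.ax 12 13 18 21 4), .t 1 (nat_lit 0) (.ax 12 13 18 22 0), .t 1 (nat_lit 0) (.ax 12 13 18 22 2), .t 1 (nat_lit 0) (.ax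 12 13 19 20 4), .t 1 (nat_lit 0) (.ax 12 13 19 21 4), .t 1 (nat_lit 0) (.ax 12 13 19 22 4), .t 1 (nat_lit 0) (.ax 12 13 20 22 4), .t 1 (nat_lit 0) (.ax 12 13 21 22 5), .t 1 (nat_lit 0) (.ax 12 14 15 16 0), .t 1 (nat_lit 0) (.ax 12 14 15 16 1), .t 1 (nat_lit 0) (.ax 12 14 15 16 2), .t 1 (nat_lit 0) (.ax 12 14 15 16 3), .t 1 (nat_lit 0) (.ax 12 14 15 16 4), .t 1 (nat_lit 0) (.ax 12 14 15 16 5), .t 1 (nat_lit 0) (.ax 12 14 15 16 6)] (by decide +kernel) (by decide +kernel)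
theorem b88 : B 2816 2848 := Blk.of_chk [.t 1 (nat_lit 0) (.ax 12 14 15 17 0), .t 1 (nat_lit 0) (.ax 12 14 15 17 1), .t 1 (nat_lit 0) (.ax 12 14 15 17 4), .t 1 (nat_lit 0) (.ax 12 14 15 17 6), .t 1 (nat_lit 0) (.ax 12 14 15 18 0), .t 1 (nat_lit 0) (.ax 12 14 15 18 1), .t 1 (nat_lit 0) (.ax 12 14 15 18 2), .t 1 (nat_lit 0) (.ax 12 14 15 18 4), .t 1 (nat_lit 0) (.ax 12 14 15 18 6), .t 1 (nat_lit 0) (.ax 12 14 15 19 0), .t 1 (nat_lit 0) (.ax 12 14 15 19 1), .t 1 (nat_lit 0) (.ax 12 14 15 19 2), .t 1 (nat_lit 0) (.ax 12 14 15 19 4), .t 1 (nat_lit 0) (.ax 12 14 15 19 5), .t 1 (nat_lit 0) (.ax 12 14 15 19 6), .t 1 (nat_lit 0) (.ax 12 14 15 19 7), .t 1 (nat_lit 0) (.ax 12 14 15 20 4), .t 1 (nat_lit 0) (.ax 12 14 15 20 5), .t 1 (nat_lit 0) (.ax 12 14 15 20 6), .t 1 (nat_lit 0) (.ax 12 14 15 21 0), .t 1 (nat_lit 0) (.ax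 12 14 15 21 5), .t 1 (nat_lit 0) (.ax 12 14 15 21 7), .t 1 (nat_lit 0) (.ax 12 14 15 22 5), .t 1 (nat_lit 0) (.ax 12 14 16 17 1), .t 1 (nat_lit 0) (.ax 12 14 16 17 2), .t 1 (nat_lit 0) (.ax 12 14 16 17 4), .t 1 (nat_lit 0) (.ax 12 14 16 18 1), .t 1 (nat_lit 0) (.ax 12 14 16 18 2), .t 1 (nat_lit 0) (.ax 12 14 16 18 4), .t 1 (nat_lit 0) (.ax 12 14 16 19 4), .t 1 (nat_lit 0) (.ax 12 14 16 20 4), .t 1 (nat_lit 0) (.ax 12 14 16 21 4)] (by decide +kernel) (by decide +kernel)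
theorem b89 : B 2848 2880 := Blk.of_chk [.t 1 (nat_lit 0) (.ax 12 14 17 18 0), .t 1 (nat_lit 0) (.ax 12 14 17 18 2), .t 1 (nat_lit 0) (.ax 12 14 17 18 5), .t 1 (nat_lit 0) (.ax 12 14 17 19 0), .t 1 (nat_lit 0) (.ax 12 14 17 19 1), .t 1 (nat_lit 0) (.ax 12 14 17 19 2), .t 1 (nat_lit 0) (.ax 12 14 17 19 3), .t 1 (nat_lit 0) (.ax 12 14 17 19 4), .t 1 (nat_lit 0) (.ax 12 14 17 19 5), .t 1 (nat_lit 0) (.ax 12 14 17 19 6), .t 1 (nat_lit 0) (.ax 12 14 17 20 0), .t 1 (nat_lit 0) (.ax 12 14 17 20 1), .t 1 (nat_lit 0) (.ax 12 14 17 20 2), .t 1 (nat_lit 0) (.ax 12 14 17 20 3), .t 1 (nat_lit 0) (.ax 12 14 17 20 4), .t 1 (nat_lit 0) (.ax 12 14 17 20 5), .t 1 (nat_lit 0) (.ax 12 14 17 21 2), .t 1 (nat_lit 0) (.ax 12 14 17 21 4), .t 1 (nat_lit 0) (.ax 12 14 18 19 0), .t 1 (nat_lit 0) (.ax 12 14 18 19 1), .t 1 (nat_lit 0) (.ax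 12 14 18 19 2), .t 1 (nat_lit 0) (.ax 12 14 18 19 4), .t 1 (nat_lit 0) (.ax 12 14 18 19 5), .t 1 (nat_lit 0) (.ax 12 14 18 19 6), .t 1 (nat_lit 0) (.ax 12 14 18 19 7), .t 1 (nat_lit 0) (.ax 12 14 18 20 0), .t 1 (nat_lit 0) (.ax 12 14 18 20 3), .t 1 (nat_lit 0) (.ax 12 14 18 20 5), .t 1 (nat_lit 0) (.ax 12 14 18 21 0), .t 1 (nat_lit 0) (.ax 12 14 18 21 2), .t 1 (nat_lit 0) (.ax 12 14 18 21 4), .t 1 (nat_lit 0) (.ax 12 14 18 22 2)] (by decide +kernel) (by decide +kernel)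
theorem b90 : B 2880 2912 := Blk.of_chk [.t 1 (nat_lit 0) (.ax 12 14 18 22 4), .t 1 (nat_lit 0) (.ax 12 14 19 20 4), .t 1 (nat_lit 0) (.ax 12 14 19 20 6), .t 1 (nat_lit 0) (.ax 12 14 19 21 4), .t 1 (nat_lit 0) (.ax 12 14 19 22 4), .t 1 (nat_lit 0) (.ax 12 14 20 21 4), .t 1 (nat_lit 0) (.ax 12 14 20 22 4), .t 1 (nat_lit 0) (.ax 12 14 21 22 5), .t 1 (nat_lit 0) (.ax 12 15 16 17 1), .t 1 (nat_lit 0) (.ax 12 15 16 17 2), .t 1 (nat_lit 0) (.ax 12 15 16 17 4), .t 1 (nat_lit 0) (.ax 12 15 16 18 1), .t 1 (nat_lit 0) (.ax 12 15 16 18 2), .t 1 (nat_lit 0) (.ax 12 15 16 18 4), .t 1 (nat_lit 0) (.ax 12 15 16 19 4), .t 1 (nat_lit 0) (.ax 12 15 16 19 6), .t 1 (nat_lit 0) (.ax 12 15 16 20 4), .t 1 (nat_lit 0) (.ax 12 15 16 21 4), .t 1 (nat_lit 0) (.ax 12 15 17 19 0), .t 1 (nat_lit 0) (.ax 12 15 17 19 1), .t 1 (nat_lit 0) (.ax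 12 15 17 19 2), .t 1 (nat_lit 0) (.ax 12 15 17 19 4), .t 1 (nat_lit 0) (.ax 12 15 17 20 0), .t 1 (nat_lit 0) (.ax 12 15 17 20 1), .t 1 (nat_lit 0) (.ax 12 15 17 20 2), .t 1 (nat_lit 0) (.ax 12 15 17 20 3), .t 1 (nat_lit 0) (.ax 12 15 18 19 0), .t 1 (nat_lit 0) (.ax 12 15 18 19 1), .t 1 (nat_lit 0) (.ax 12 15 18 19 2), .t 1 (nat_lit 0) (.ax 12 15 18 19 3), .t 1 (nat_lit 0) (.ax 12 15 18 19 5), .t 1 (nat_lit 0) (.ax 12 15 18 19 6)] (by decide +kernel) (by decide +kernel)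
theorem b91 : B 2912 2944 := Blk.of_chk [.t 1 (nat_lit 0) (.ax 12 15 18 20 3), .t 1 (nat_lit 0) (.ax 12 15 18 20 5), .t 1 (nat_lit 0) (.ax 12 15 18 21 2), .t 1 (nat_lit 0) (.ax 12 15 18 21 4), .t 1 (nat_lit 0) (.ax 12 15 19 20 4), .t 1 (nat_lit 0) (.ax 12 15 19 21 4), .t 1 (nat_lit 0) (.ax 12 15 20 21 4), .t 1 (nat_lit 0) (.ax 12 16 17 18 0), .t 1 (nat_lit 0) (.ax 12 16 17 18 2), .t 1 (nat_lit 0) (.ax 12 16 17 18 4), .t 1 (nat_lit 0) (.ax 12 16 17 18 5), .t 1 (nat_lit 0) (.ax 12 16 19 21 0), .t 1 (nat_lit 0) (.ax 12 17 18 19 0), .t 1 (nat_lit 0) (.ax 12 17 18 19 1), .t 1 (nat_lit 0) (.ax 12 17 18 19 2), .t 1 (nat_lit 0) (.ax 12 17 18 19 4), .t 1 (nat_lit 0) (.ax 12 17 18 19 5), .t 1 (nat_lit 0) (.ax 12 17 18 19 6), .t 1 (nat_lit 0) (.ax 12 17 18 20 1), .t 1 (nat_lit 0) (.ax 12 17 18 20 4), .t 1 (nat_lit 0) (.ax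 12 17 19 20 4), .t 1 (nat_lit 0) (.ax 12 17 20 22 4), .t 1 (nat_lit 0) (.ax 12 17 21 22 5), .t 1 (nat_lit 0) (.ax 12 18 19 20 4), .t 1 (nat_lit 0) (.ax 12 18 20 22 4), .t 1 (nat_lit 0) (.ax 12 18 21 22 5), .t 1 (nat_lit 0) (.ax 12 19 20 21 0), .t 1 (nat_lit 0) (.ax 12 20 21 22 5), .t 1 (nat_lit 0) (.ax 13 14 15 16 0), .t 1 (nat_lit 0) (.ax 13 14 15 16 1), .t 1 (nat_lit 0) (.ax 13 14 15 16 2), .t 1 (nat_lit 0) (.ax 13 14 15 16 3)] (by decide +kernel) (by decide +kernel)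
theorem b92 : B 2944 2976 := Blk.of_chk [.t 1 (nat_lit 0) (.ax 13 14 15 16 4), .t 1 (nat_lit 0) (.ax 13 14 15 16 5), .t 1 (nat_lit 0) (.ax 13 14 15 16 6), .t 1 (nat_lit 0) (.ax 13 14 15 16 7), .t 1 (nat_lit 0) (.ax 13 14 15 17 1), .t 1 (nat_lit 0) (.ax 13 14 15 17 2), .t 1 (nat_lit 0) (.ax 13 14 15 17 3), .t 1 (nat_lit 0) (.ax 13 14 15 17 4), .t 1 (nat_lit 0) (.ax 13 14 15 17 5), .t 1 (nat_lit 0) (.ax 13 14 15 17 6), .t 1 (nat_lit 0) (.ax 13 14 15 17 7), .t 1 (nat_lit 0) (.ax 13 14 15 18 1), .t 1 (nat_lit 0) (.ax 13 14 15 18 2), .t 1 (nat_lit 0) (.ax 13 14 15 18 3), .t 1 (nat_lit 0) (.ax 13 14 15 18 4), .t 1 (nat_lit 0) (.ax 13 14 15 18 5), .t 1 (nat_lit 0) (.ax 13 14 15 18 6), .t 1 (nat_lit 0) (.ax 13 14 15 18 7), .t 1 (nat_lit 0) (.ax 13 14 15 19 0), .t 1 (nat_lit 0) (.ax 13 14 15 19 1), .t 1 (nat_lit 0) (.ax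 13 14 15 19 2), .t 1 (nat_lit 0) (.ax 13 14 15 19 3), .t 1 (nat_lit 0) (.ax 13 14 15 19 4), .t 1 (nat_lit 0) (.ax 13 14 15 19 5), .t 1 (nat_lit 0) (.ax 13 14 15 19 6), .t 1 (nat_lit 0) (.ax 13 14 15 19 7), .t 1 (nat_lit 0) (.ax 13 14 15 20 2), .t 1 (nat_lit 0) (.ax 13 14 15 21 0), .t 1 (nat_lit 0) (.ax 13 14 15 21 2), .t 1 (nat_lit 0) (.ax 13 14 15 21 3), .t 1 (nat_lit 0) (.ax 13 14 15 21 4), .t 1 (nat_lit 0) (.ax 13 14 15 21 5)] (by decide +kernel) (by decide +kernel)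
theorem b93 : B 2976 3008 := Blk.of_chk [.t 1 (nat_lit 0) (.ax 13 14 15 21 6), .t 1 (nat_lit 0) (.ax 13 14 15 21 7), .t 1 (nat_lit 0) (.ax 13 14 15 22 2), .t 1 (nat_lit 0) (.ax 13 14 16 17 1), .t 1 (nat_lit 0) (.ax 13 14 16 17 2), .t 1 (nat_lit 0) (.ax 13 14 16 17 4), .t 1 (nat_lit 0) (.ax 13 14 16 18 1), .t 1 (nat_lit 0) (.ax 13 14 16 18 2), .t 1 (nat_lit 0) (.ax 13 14 16 18 4), .t 1 (nat_lit 0) (.ax 13 14 16 18 6), .t 1 (nat_lit 0) (.ax 13 14 16 19 4), .t 1 (nat_lit 0) (.ax 13 14 16 19 6), .t 1 (nat_lit 0) (.ax 13 14 16 20 4), .t 1 (nat_lit 0) (.ax 13 14 16 21 4), .t 1 (nat_lit 0) (.ax 13 14 16 21 6), .t 1 (nat_lit 0) (.ax 13 14 16 22 4), .t 1 (nat_lit 0) (.ax 13 14 17 18 0), .t 1 (nat_lit 0) (.ax 13 14 17 18 1), .t 1 (nat_lit 0) (.ax 13 14 17 18 2), .t 1 (nat_lit 0) (.ax 13 14 17 18 3), .t 1 (nat_lit 0) (.ax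 13 14 17 18 4), .t 1 (nat_lit 0) (.ax 13 14 17 18 5), .t 1 (nat_lit 0) (.ax 13 14 17 18 6), .t 1 (nat_lit 0) (.ax 13 14 17 19 0), .t 1 (nat_lit 0) (.ax 13 14 17 19 1), .t 1 (nat_lit 0) (.ax 13 14 17 19 2), .t 1 (nat_lit 0) (.ax 13 14 17 19 3), .t 1 (nat_lit 0) (.ax 13 14 17 19 4), .t 1 (nat_lit 0) (.ax 13 14 17 19 5), .t 1 (nat_lit 0) (.ax 13 14 17 20 2), .t 1 (nat_lit 0) (.ax 13 14 17 20 4), .t 1 (nat_lit 0) (.ax 13 14 17 21 2)] (by decide +kernel) (by decide +kernel)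
theorem b94 : B 3008 3040 := Blk.of_chk [.t 1 (nat_lit 0) (.ax 13 14 17 21 4), .t 1 (nat_lit 0) (.ax 13 14 17 22 2), .t 1 (nat_lit 0) (.ax 13 14 18 19 0), .t 1 (nat_lit 0) (.ax 13 14 18 19 1), .t 1 (nat_lit 0) (.ax 13 14 18 19 2), .t 1 (nat_lit 0) (.ax 13 14 18 19 3), .t 1 (nat_lit 0) (.ax 13 14 18 19 4), .t 1 (nat_lit 0) (.ax 13 14 18 19 7), .t 1 (nat_lit 0) (.ax 13 14 18 20 3), .t 1 (nat_lit 0) (.ax 13 14 18 20 5), .t 1 (nat_lit 0) (.ax 13 14 18 21 0), .t 1 (nat_lit 0) (.ax 13 14 18 21 4), .t 1 (nat_lit 0) (.ax 13 14 19 20 4), .t 1 (nat_lit 0) (.ax 13 14 19 21 4), .t 1 (nat_lit 0) (.ax 13 14 19 21 6), .t 1 (nat_lit 0) (.ax 13 14 20 21 4), .t 1 (nat_lit 0) (.ax 13 14 20 21 6), .t 1 (nat_lit 0) (.ax 13 14 20 22 4), .t 1 (nat_lit 0) (.ax 13 14 21 22 5), .t 1 (nat_lit 0) (.ax 13 15 16 17 1), .t 1 (nat_lit 0) (.ax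 13 15 16 17 2), .t 1 (nat_lit 0) (.ax 13 15 16 17 4), .t 1 (nat_lit 0) (.ax 13 15 16 18 1), .t 1 (nat_lit 0) (.ax 13 15 16 18 2), .t 1 (nat_lit 0) (.ax 13 15 16 18 4), .t 1 (nat_lit 0) (.ax 13 15 16 19 4), .t 1 (nat_lit 0) (.ax 13 15 16 20 4), .t 1 (nat_lit 0) (.ax 13 15 16 21 4), .t 1 (nat_lit 0) (.ax 13 15 16 22 4), .t 1 (nat_lit 0) (.ax 13 15 17 18 0), .t 1 (nat_lit 0) (.ax 13 15 17 18 2), .t 1 (nat_lit 0) (.ax 13 15 17 18 4)] (by decide +kernel) (by decide +kernel)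
theorem b95 : B 3040 3072 := Blk.of_chk [.t 1 (nat_lit 0) (.ax 13 15 17 18 5), .t 1 (nat_lit 0) (.ax 13 15 17 19 0), .t 1 (nat_lit 0) (.ax 13 15 17 19 1), .t 1 (nat_lit 0) (.ax 13 15 17 19 2), .t 1 (nat_lit 0) (.ax 13 15 17 19 4), .t 1 (nat_lit 0) (.ax 13 15 17 19 6), .t 1 (nat_lit 0) (.ax 13 15 17 20 1), .t 1 (nat_lit 0) (.ax 13 15 17 20 3), .t 1 (nat_lit 0) (.ax 13 15 17 21 0), .t 1 (nat_lit 0) (.ax 13 15 17 21 2), .t 1 (nat_lit 0) (.ax 13 15 18 19 0), .t 1 (nat_lit 0) (.ax 13 15 18 19 1), .t 1 (nat_lit 0) (.ax 13 15 18 19 2), .t 1 (nat_lit 0) (.ax 13 15 18 19 3), .t 1 (nat_lit 0) (.ax 13 15 18 19 4), .t 1 (nat_lit 0) (.ax 13 15 18 19 5), .t 1 (nat_lit 0) (.ax 13 15 18 21 0), .t 1 (nat_lit 0) (.ax 13 15 18 21 2), .t 1 (nat_lit 0) (.ax 13 15 19 21 4), .t 1 (nat_lit 0) (.ax 13 15 21 22 5), .t 1 (nat_lit 0) (.ax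 13 16 17 18 0), .t 1 (nat_lit 0) (.ax 13 16 17 18 2), .t 1 (nat_lit 0) (.ax 13 16 17 18 4), .t 1 (nat_lit 0) (.ax 13 16 17 18 5), .t 1 (nat_lit 0) (.ax 13 16 19 21 0), .t 1 (nat_lit 0) (.ax 13 17 18 19 0), .t 1 (nat_lit 0) (.ax 13 17 18 19 1), .t 1 (nat_lit 0) (.ax 13 17 18 19 2), .t 1 (nat_lit 0) (.ax 13 17 18 19 4), .t 1 (nat_lit 0) (.ax 13 17 18 19 5), .t 1 (nat_lit 0) (.ax 13 17 18 20 0), .t 1 (nat_lit 0) (.ax 13 17 18 20 1)] (by decide +kernel) (by decide +kernel)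
theorem b96 : B 3072 3104 := Blk.of_chk [.t 1 (nat_lit 0) (.ax 13 17 18 20 4), .t 1 (nat_lit 0) (.ax 13 17 19 20 4), .t 1 (nat_lit 0) (.ax 13 17 19 20 6), .t 1 (nat_lit 0) (.ax 13 17 19 21 4), .t 1 (nat_lit 0) (.ax 13 17 20 22 4), .t 1 (nat_lit 0) (.ax 13 17 21 22 5), .t 1 (nat_lit 0) (.ax 13 18 19 20 4), .t 1 (nat_lit 0) (.ax 13 18 20 22 4), .t 1 (nat_lit 0) (.ax 13 18 21 22 5), .t 1 (nat_lit 0) (.ax 13 19 20 21 0), .t 1 (nat_lit 0) (.ax 13 20 21 22 5), .t 1 (nat_lit 0) (.ax 14 15 16 17 2), .t 1 (nat_lit 0) (.ax 14 15 16 17 4), .t 1 (nat_lit 0) (.ax 14 15 16 18 2), .t 1 (nat_lit 0) (.ax 14 15 16 18 4), .t 1 (nat_lit 0) (.ax 14 15 16 19 4), .t 1 (nat_lit 0) (.ax 14 15 16 20 4), .t 1 (nat_lit 0) (.ax 14 15 16 21 4), .t 1 (nat_lit 0) (.ax 14 15 16 22 4), .t 1 (nat_lit 0) (.ax 14 15 17 18 0), .t 1 (nat_lit 0) (.ax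 14 15 17 18 2), .t 1 (nat_lit 0) (.ax 14 15 17 18 4), .t 1 (nat_lit 0) (.ax 14 15 17 18 5), .t 1 (nat_lit 0) (.ax 14 15 17 19 0), .t 1 (nat_lit 0) (.ax 14 15 17 19 1), .t 1 (nat_lit 0) (.ax 14 15 17 19 2), .t 1 (nat_lit 0) (.ax 14 15 17 19 3), .t 1 (nat_lit 0) (.ax 14 15 17 19 4), .t 1 (nat_lit 0) (.ax 14 15 17 20 1), .t 1 (nat_lit 0) (.ax 14 15 17 20 2), .t 1 (nat_lit 0) (.ax 14 15 17 21 0), .t 1 (nat_lit 0) (.ax 14 15 17 21 2)] (by decide +kernel) (by decide +kernel)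
theorem b97 : B 3104 3136 := Blk.of_chk [.t 1 (nat_lit 0) (.ax 14 15 18 19 0), .t 1 (nat_lit 0) (.ax 14 15 18 19 1), .t 1 (nat_lit 0) (.ax 14 15 18 19 2), .t 1 (nat_lit 0) (.ax 14 15 18 19 3), .t 1 (nat_lit 0) (.ax 14 15 18 19 4), .t 1 (nat_lit 0) (.ax 14 15 18 19 5), .t 1 (nat_lit 0) (.ax 14 15 18 20 0), .t 1 (nat_lit 0) (.ax 14 15 18 20 1), .t 1 (nat_lit 0) (.ax 14 15 18 20 2), .t 1 (nat_lit 0) (.ax 14 15 18 21 0), .t 1 (nat_lit 0) (.ax 14 15 18 21 2), .t 1 (nat_lit 0) (.ax 14 15 19 20 4), .t 1 (nat_lit 0) (.ax 14 15 19 21 4), .t 1 (nat_lit 0) (.ax 14 15 19 22 4), .t 1 (nat_lit 0) (.ax 14 16 17 18 0), .t 1 (nat_lit 0) (.ax 14 16 17 18 2), .t 1 (nat_lit 0) (.ax 14 16 17 18 4), .t 1 (nat_lit 0) (.ax 14 16 17 18 5), .t 1 (nat_lit 0) (.ax 14 16 19 21 0), .t 1 (nat_lit 0) (.ax 14 17 18 19 0), .t 1 (nat_lit 0) (.ax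 14 17 18 19 1), .t 1 (nat_lit 0) (.ax 14 17 18 19 2), .t 1 (nat_lit 0) (.ax 14 17 18 19 4), .t 1 (nat_lit 0) (.ax 14 17 18 19 5), .t 1 (nat_lit 0) (.ax 14 17 18 19 6), .t 1 (nat_lit 0) (.ax 14 17 18 20 0), .t 1 (nat_lit 0) (.ax 14 17 18 20 1), .t 1 (nat_lit 0) (.ax 14 17 18 20 2), .t 1 (nat_lit 0) (.ax 14 17 18 20 4), .t 1 (nat_lit 0) (.ax 14 17 19 20 4), .t 1 (nat_lit 0) (.ax 14 17 19 20 6), .t 1 (nat_lit 0) (.ax 14 17 19 21 4)] (by decide +kernel) (by decide +kernel)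
theorem b98 : B 3136 3168 := Blk.of_chk [.t 1 (nat_lit 0) (.ax 14 17 19 22 4), .t 1 (nat_lit 0) (.ax 14 17 20 22 4), .t 1 (nat_lit 0) (.ax 14 17 21 22 5), .t 1 (nat_lit 0) (.ax 14 18 19 20 4), .t 1 (nat_lit 0) (.ax 14 18 19 20 6), .t 1 (nat_lit 0) (.ax 14 18 19 21 4), .t 1 (nat_lit 0) (.ax 14 18 19 22 4), .t 1 (nat_lit 0) (.ax 14 18 20 21 4), .t 1 (nat_lit 0) (.ax 14 18 20 22 4), .t 1 (nat_lit 0) (.ax 14 18 21 22 5), .t 1 (nat_lit 0) (.ax 14 19 20 21 0), .t 1 (nat_lit 0) (.ax 14 20 21 22 5), .t 1 (nat_lit 0) (.ax 15 16 17 18 0), .t 1 (nat_lit 0) (.ax 15 16 17 18 2), .t 1 (nat_lit 0) (.ax 15 16 17 18 4), .t 1 (nat_lit 0) (.ax 15 16 17 18 5), .t 1 (nat_lit 0) (.ax 15 16 19 21 0), .t 1 (nat_lit 0) (.ax 15 17 18 19 0), .t 1 (nat_lit 0) (.ax 15 17 18 19 1), .t 1 (nat_lit 0) (.ax 15 17 18 19 4), .t 1 (nat_lit 0) (.ax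 15 17 18 19 5), .t 1 (nat_lit 0) (.ax 15 17 18 19 7), .t 1 (nat_lit 0) (.ax 15 17 18 20 0), .t 1 (nat_lit 0) (.ax 15 17 18 20 1), .t 1 (nat_lit 0) (.ax 15 17 18 20 4), .t 1 (nat_lit 0) (.ax 15 17 19 20 4), .t 1 (nat_lit 0) (.ax 15 17 19 21 4), .t 1 (nat_lit 0) (.ax 15 17 20 21 4), .t 1 (nat_lit 0) (.ax 15 17 20 22 4), .t 1 (nat_lit 0) (.ax 15 17 21 22 5), .t 1 (nat_lit 0) (.ax 15 18 19 20 4), .t 1 (nat_lit 0) (.ax 15 18 19 20 6)] (by decide +kernel) (by decide +kernel)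
theorem b99 : B 3168 3200 := Blk.of_chk [.t 1 (nat_lit 0) (.ax 15 18 19 21 4), .t 1 (nat_lit 0) (.ax 15 18 20 21 4), .t 1 (nat_lit 0) (.ax 15 18 20 22 4), .t 1 (nat_lit 0) (.ax 15 18 21 22 5), .t 1 (nat_lit 0) (.ax 15 19 20 21 0), .t 1 (nat_lit 0) (.ax 15 20 21 22 5), .t 1 (nat_lit 0) (.ax 16 17 18 19 2), .t 1 (nat_lit 0) (.ax 16 17 18 20 3), .t 1 (nat_lit 0) (.ax 16 17 18 20 5), .t 1 (nat_lit 0) (.ax 16 17 19 21 3), .t 1 (nat_lit 0) (.ax 16 18 19 21 3), .t 1 (nat_lit 0) (.ax 17 18 19 20 4), .t 1 (nat_lit 0) (.ax 17 20 21 22 5), .t 1 (nat_lit 0) (.ax 18 19 20 21 0), .t 1 (nat_lit 0) (.ax 18 20 21 22 5), .t 1 (nat_lit 0) (.fa 5), .t 1 (nat_lit 0) (.cp 1 3), .t 1 (nat_lit 0) (.fa 3), .t 1 (nat_lit 0) (.fa 3), .t 4 (nat_lit 0xc6c0c690c68) (.z (.node 0 15 (.node 0 20 (.leaf [0,21,22]) (.leaf [16,19,20,18,17])) (.free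 4 [1,2,3,4,5,6,7,8,9,10,11,12,13,14,15]))), .t 1 (nat_lit 0) (.fa 4), .t 1 (nat_lit 0) (.fa 4), .t 1 (nat_lit 0) (.cn 2 3), .t 1 (nat_lit 0) (.cp 3 3), .t 1 (nat_lit 0) (.fa 5), .t 1 (nat_lit 0) (.fa 5), .t 10 (nat_lit 0xa930abf0abc0a9e0a9b07cc07c90afe0afc) (.z (.node 0 7 (.node 0 11 (.node 0 16 (.free 2 [0,17,18,19,20,21,22]) (.leaf [12,14,15,16,13])) (.leaf [8,9,11,10])) (.free 2 [1,2,3,4,5,6,7]))), .t 9 (nat_lit 0xa930abf0abc0a9e0a9b00210afe0afc) (.z (.node 1 9 (.node 0 11 (.node 0 16 (.free 2 [0,17,18,19,20,21,22]) (.leaf [12,14,15,16,13])) (.leaf [1,10,11,2])) (.free 2 [3,4,5,6,7,8,9]))), .t 1 (nat_lit 0) (.cp 1 3), .t 8 (nat_lit 0x7d107eb07ea07d407d3081c081b) (.z (.node 0 7 (.edon 0 16 (.node 11 14 (.leaf [0,11,12,13]) (.leaf [8,9,15,14,10])) (.free 2 [16,17,18,19,20,21,22])) (.free 2 [1,2,3,4,5,6,7]))),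 .t 8 (nat_lit 0x7d107eb07ea07d407d3081c081b) (.z (.node 0 7 (.edon 0 16 (.node 12 14 (.leaf [0,11,12,13]) (.leaf [8,9,15,14,10])) (.free 2 [16,17,18,19,20,21,22])) (.free 2 [1,2,3,4,5,6,7]))), .t 1 (nat_lit 0) (.fa 2)] (by decide +kernel) (by decide +kernel)
theorem b100 : B 3200 3232 := Blk.of_chk [.t 1 (nat_lit 0) (.cn 1 2), .t 8 (nat_lit 0x2d702d600fb00f900210afe0afb) (.z (.node 1 9 (.node 0 16 (.free 2 [0,17,18,19,20,21,22]) (.edon 12 13 (.leaf [12,15,16,14]) (.leaf [1,10,11,13,2]))) (.free 2 [3,4,5,6,7,8,9]))), .t 5 (nat_lit 0x2d702d608a908a8) (.z (.edon 9 1 (.edon 12 16 (.leaf [9,15,14,12]) (.edon 0 16 (.leaf [0,2,10,11,13]) (.free 2 [16,17,18,19,20,21,22]))) (.free 2 [1,3,4,5,6,7,8]))), .t 8 (nat_lit 0xa9e0a9b02b802b7008600850017) (.z (.node 16 0 (.node 5 15 (.edon 0 12 (.leaf [1,5,10,11,2]) (.leaf [12,14,16,13]))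 (.free 2 [3,4,6,7,8,9,15])) (.free 2 [0,17,18,19,20,21,22]))), .t 10 (nat_lit 0x7e507e40a040957095609190917090c090a) (.z (.node 0 7 (.node 0 16 (.free 2 [0,17,18,19,20,21,22]) (.node 10 12 (.leaf [10,14,16,13,11]) (.leaf [8,9,15,12]))) (.free 2 [1,2,3,4,5,6,7]))), .t 9 (nat_lit 0x210b810afe0afb0abf0abc0a9f0a9d) (.z (.node 1 9 (.node 0 11 (.node 0 16 (.free 2 [0,17,18,19,20,21,22]) (.leaf [12,15,16,14,13])) (.leaf [1,10,11,2])) (.free 2 [3,4,5,6,7,8,9]))), .t 1 (nat_lit 0) (.cp 2 2), .t 1 (nat_lit 0) (.cn 2 3), .t 11 (nat_lit 0x47a0360035f033a032202dd02dc011a01180022) (.z (.edon 0 16 (.node 0 13 (.leaf [0,14,15]) (.node 1 11 (.leaf [1,10,12,13,2]) (.edon 6 9 (.leaf [6,7,8]) (.leaf [3,4,9,11,5])))) (.free 2 [16,17,18,19,20,21,22]))), .t 6 (nat_lit 0x47a0360035f033a0322) (.z (.edon 9 6 (.node 1 11 (.free 4 [0,1,2,10,12,13,14,15,16,17,18,19,20,21,22])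 (.leaf [3,4,9,11,5])) (.free 1 [6,7,8]))), .t 1 (nat_lit 0) (.cn 2 3), .t 14 (nat_lit 0x2d700fb08d808d602eb02ea02d402d30178017600f400f20021) (.z (.node 9 1 (.free 2 [3,4,5,6,7,8,9]) (.node 13 0 (.leaf [1,10,11,12,13,2]) (.free 3 [0,14,15,16,17,18,19,20,21,22])))), .t 11 (nat_lit 0x479035e035d0339032102eb02ea017801760026) (.z (.edon 0 16 (.node 0 13 (.leaf [0,14,15]) (.node 1 10 (.leaf [1,11,12,13,2]) (.edon 6 9 (.leaf [6,7,8]) (.leaf [3,4,9,10,5])))) (.free 2 [16,17,18,19,20,21,22]))), .t 6 (nat_lit 0x479035e035d03390321) (.z (.edon 9 6 (.node 1 10 (.free 4 [0,1,2,11,12,13,14,15,16,17,18,19,20,21,22]) (.leaf [3,4,9,10,5])) (.free 1 [6,7,8]))), .t 12 (nat_lit 0x36b036a02b802b7029d00860085003c000400030001) (.z (.edon 4 16 (.free 2 [4,6,7,8,9,12,15]) (.node 11 0 (.leaf [1,3,5,10,11,2]) (.free 3 [0,13,14,16,17,18,19,20,21,22])))),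 .t 12 (nat_lit 0x7cc06940693068b0689067f067e02a6005000060005) (.z (.edon 0 16 (.node 0 13 (.leaf [0,14,15]) (.node 3 10 (.leaf [1,3,12,13,2]) (.node 5 7 (.leaf [5,8,9,11,10]) (.leaf [4,6,7])))) (.free 2 [16,17,18,19,20,21,22]))), .t 1 (nat_lit 0) (.cn 2 2), .t 12 (nat_lit 0x7cc06940693068b0689067f067e02a6005000060005) (.z (.edon 0 16 (.node 0 13 (.leaf [0,14,15]) (.node 3 11 (.leaf [1,3,12,13,2]) (.node 5 7 (.leaf [5,8,9,11,10]) (.leaf [4,6,7])))) (.free 2 [16,17,18,19,20,21,22]))), .t 1 (nat_lit 0) (.cp 2 3), .t 1 (nat_lit 0) (.cn 2 3), .t 1 (nat_lit 0) (.cn 2 3), .t 6 (nat_lit 0x47e03680367033e0326) (.z (.edon 9 6 (.node 1 15 (.free 4 [0,1,2,10,11,12,13,14,16,17,18,19,20,21,22]) (.leaf [3,4,9,15,5])) (.free 1 [6,7,8]))), .t 1 (nat_lit 0) (.cn 2 3), .t 6 (nat_lit 0x47d03660365033d0325) (.z (.edon 9 6 (.node 1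 14 (.free 4 [0,1,2,10,11,12,13,15,16,17,18,19,20,21,22]) (.leaf [3,4,9,14,5])) (.free 1 [6,7,8]))), .t 5 (nat_lit 0x2a3004500050003) (.z (.edon 0 16 (.node 0 12 (.leaf [0,13,14,15]) (.node 3 11 (.leaf [1,3,10,12,2]) (.free 2 [4,5,6,7,8,9,11]))) (.free 2 [16,17,18,19,20,21,22]))), .t 1 (nat_lit 0) (.cn 2 3), .t 5 (nat_lit 0x29d003c00030001) (.z (.edon 0 16 (.node 0 12 (.leaf [0,13,14,15]) (.edon 4 10 (.free 2 [4,6,7,8,9,11,12]) (.leaf [1,3,5,10,2]))) (.free 2 [16,17,18,19,20,21,22]))), .t 8 (nat_lit 0x9890a970a9509ff09fd0981097f) (.z (.node 0 7 (.edon 0 11 (.leaf [0,8,9,10]) (.edon 0 16 (.leaf [11,15,14,13,12]) (.free 2 [16,17,18,19,20,21,22]))) (.free 2 [1,2,3,4,5,6,7]))), .t 5 (nat_lit 0x7eb07ea08d808d6) (.z (.node 0 7 (.edon 0 16 (.node 11 14 (.leaf [0,10,11,12,13]) (.leaf [8,9,15,14])) (.free 2 [16,17,18,19,20,21,22]))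 (.free 2 [1,2,3,4,5,6,7]))), .t 1 (nat_lit 0) (.cp 2 3), .t 8 (nat_lit 0x7e307eb07ea07e507e408560855) (.z (.node 0 7 (.edon 0 16 (.node 11 14 (.leaf [0,10,11,13]) (.leaf [8,9,15,14,12])) (.free 2 [16,17,18,19,20,21,22])) (.free 2 [1,2,3,4,5,6,7]))), .t 1 (nat_lit 0) (.cp 2 3)] (by decide +kernel) (by decide +kernel)
theorem b101 : B 3232 3264 := Blk.of_chk [.t 12 (nat_lit 0x29d003c0003000106f705a4059f04ef04eb04e404e2) (.z (.edon 0 16 (.node 0 13 (.leaf [0,14,15]) (.edon 4 10 (.node 6 9 (.leaf [4,6,11,13,12]) (.leaf [7,8,9])) (.leaf [1,3,5,10,2]))) (.free 2 [16,17,18,19,20,21,22]))), .t 1 (nat_lit 0) (.cn 2 3), .t 8 (nat_lit 0x7cc06940693068b0689067f067e) (.z (.node 10 3 (.node 5 7 (.leaf [5,8,9,11,10]) (.leaf [4,6,7])) (.free 4 [0,1,2,3,12,13,14,15,16,17,18,19,20,21,22]))), .t 5 (nat_lit 0x29d003c00030001) (.z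 (.edon 16 4 (.node 0 10 (.edon 0 16 (.leaf [0,12,13,14]) (.free 2 [16,17,18,19,20,21,22])) (.leaf [1,3,5,10,2])) (.free 2 [4,6,7,8,9,11,15]))), .t 1 (nat_lit 0) (.cn 2 3), .t 1 (nat_lit 0) (.cn 2 3), .t 1 (nat_lit 0) (.cp 3 2), .t 12 (nat_lit 0x2a800540007000607cc06940693068b0689067f067e) (.z (.node 16 0 (.edon 4 13 (.node 5 7 (.edon 0 12 (.leaf [5,8,9,11,10]) (.leaf [12,14,16])) (.leaf [4,6,7])) (.leaf [1,3,13,15,2])) (.free 2 [0,17,18,19,20,21,22]))), .t 7 (nat_lit 0xabf0abc029d003c00030001) (.z (.node 16 0 (.edon 4 16 (.free 2 [4,6,7,8,9,11,14]) (.edon 0 12 (.leaf [1,3,5,10,2]) (.leaf [12,15,16,13]))) (.free 2 [0,17,18,19,20,21,22]))), .t 6 (nat_lit 0x2d402d300f400f20021) (.z (.edon 0 16 (.node 0 12 (.leaf [0,13,14,15]) (.node 1 9 (.leaf [1,10,11,12,2]) (.free 2 [3,4,5,6,7,8,9]))) (.free 2 [16,17,18,19,20,21,22]))),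 .t 7 (nat_lit 0xa9e0a9b029d003c00030001) (.z (.node 16 0 (.edon 4 16 (.free 2 [4,6,7,8,9,11,15]) (.edon 0 12 (.leaf [1,3,5,10,2]) (.leaf [12,14,16,13]))) (.free 2 [0,17,18,19,20,21,22]))), .t 4 (nat_lit 0x108d808d6) (.z (.edon 16 4 (.node 0 5 (.edon 0 16 (.leaf [0,10,11,12,13]) (.free 2 [16,17,18,19,20,21,22])) (.leaf [1,3,5,2])) (.free 2 [4,6,7,8,9,14,15]))), .t 10 (nat_lit 0x7cc07c90b810afe0afb0abf0abc0a9f0a9d) (.z (.node 0 7 (.node 0 11 (.node 0 16 (.free 2 [0,17,18,19,20,21,22]) (.leaf [12,15,16,14,13])) (.leaf [8,9,11,10])) (.free 2 [1,2,3,4,5,6,7]))), .t 8 (nat_lit 0xabf0a1b0a1809cf09cc0991098f) (.z (.node 0 7 (.edon 0 11 (.leaf [0,8,9,10]) (.node 14 16 (.free 2 [14,17,18,19,20,21,22]) (.leaf [11,15,16,13,12]))) (.free 2 [1,2,3,4,5,6,7]))), .t 1 (nat_lit 0) (.cn 2 3), .t 1 (nat_lit 0) (.cn 2 3), .t 1 (nat_lit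 0) (.fa 4), .t 8 (nat_lit 0x7cd07cc07c907f507f207d707d6) (.z (.node 0 7 (.node 0 12 (.edon 0 16 (.leaf [0,13,14,15]) (.free 2 [16,17,18,19,20,21,22])) (.leaf [8,9,11,12,10])) (.free 2 [1,2,3,4,5,6,7]))), .t 5 (nat_lit 0x7cc07c90a960a94) (.z (.node 0 7 (.node 0 11 (.edon 0 16 (.leaf [0,12,13,14,15]) (.free 2 [16,17,18,19,20,21,22])) (.leaf [8,9,11,10])) (.free 2 [1,2,3,4,5,6,7]))), .t 1 (nat_lit 0) (.fa 4), .t 1 (nat_lit 0) (.cn 2 3), .t 1 (nat_lit 0) (.cn 2 3), .t 7 (nat_lit 0x31e031a0319027402720032) (.z (.node 16 0 (.node 1 13 (.leaf [1,14,15,16,2]) (.edon 0 7 (.leaf [3,4,6,5]) (.free 2 [7,8,9,10,11,12,13]))) (.free 2 [0,17,18,19,20,21,22]))), .t 13 (nat_lit 0xc180c170c140c370c350c250c23056e0407040403470341) (.z (.edon 0 20 (.node 4 16 (.edon 0 14 (.edon 0 3 (.leaf [0,1,2]) (.leaf [3,4,10,13,12])) (.leaf [14,15,18,19,17]))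 (.free 2 [5,6,7,8,9,11,16])) (.free 1 [20,21,22]))), .t 5 (nat_lit 0x7cc07c90ab60ab4) (.z (.node 0 7 (.node 0 11 (.node 14 22 (.leaf [0,12,13,14,21]) (.free 2 [15,16,17,18,19,20,22])) (.leaf [8,9,11,10])) (.free 2 [1,2,3,4,5,6,7]))), .t 5 (nat_lit 0xc4c0b7c0b480b47) (.z (.node 0 7 (.edon 0 11 (.leaf [0,8,9,10]) (.node 14 19 (.leaf [12,14,20,22,21]) (.free 2 [11,13,15,16,17,18,19]))) (.free 2 [1,2,3,4,5,6,7]))), .t 10 (nat_lit 0xc3a0c380c340c440c3e02a3004500050003) (.z (.node 20 0 (.edon 0 13 (.node 3 11 (.leaf [1,3,10,12,2]) (.free 2 [4,5,6,7,8,9,11])) (.node 14 16 (.leaf [14,17,19,20,18]) (.leaf [13,15,16]))) (.free 1 [0,21,22]))), .t 7 (nat_lit 0xb820b8002a3004500050003) (.z (.node 16 0 (.edon 0 13 (.node 3 11 (.leaf [1,3,10,12,2]) (.free 2 [4,5,6,7,8,9,11])) (.leaf [13,16,15,14])) (.free 2 [0,17,18,19,20,21,22]))),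 .t 1 (nat_lit 0) (.cp 3 3), .t 5 (nat_lit 0xc6f0c660c640c63) (.z (.edon 0 15 (.free 4 [0,1,2,3,4,5,6,7,8,9,10,11,12,13,14]) (.node 18 19 (.leaf [15,18,20,22,21]) (.leaf [16,17,19])))), .t 1 (nat_lit 0) (.cn 7 3), .t 10 (nat_lit 0xc6f0c4c0c4a0c49056e0407040403470341) (.z (.edon 0 3 (.free 1 [0,1,2]) (.node 4 16 (.edon 0 14 (.leaf [3,4,10,13,12]) (.node 18 19 (.leaf [14,18,20,22,21]) (.leaf [15,17,19]))) (.free 2 [5,6,7,8,9,11,16]))))] (by decide +kernel) (by decide +kernel)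
theorem b102 : B 3264 3296 := Blk.of_chk [.t 5 (nat_lit 0xc6d0c660c5e0c5d) (.z (.edon 0 15 (.free 4 [0,1,2,3,4,5,6,7,8,9,10,11,12,13,14]) (.node 17 19 (.leaf [15,17,20,22,21]) (.leaf [16,18,19])))), .t 10 (nat_lit 0xc6d0c4c0c430c42056e0407040403470341) (.z (.edon 0 3 (.free 1 [0,1,2]) (.node 4 16 (.edon 0 14 (.leaf [3,4,10,13,12]) (.edon 15 20 (.leaf [15,18,19]) (.leaf [14,17,20,22,21]))) (.free 2 [5,6,7,8,9,11,16])))), .t 1 (nat_lit 0) (.fa 5), .t 7 (nat_lit 0xb820b8002a3004500050003) (.z (.node 16 0 (.edon 0 13 (.edon 4 10 (.free 2 [4,5,6,7,8,9,11]) (.leaf [1,3,10,12,2])) (.leaf [13,16,15,14])) (.free 2 [0,17,18,19,20,21,22]))), .t 5 (nat_lit 0x2a2004400040003) (.z (.edon 0 16 (.edon 4 10 (.free 2 [4,5,6,7,8,9,15]) (.node 0 11 (.leaf [0,12,13,14]) (.leaf [1,3,10,11,2]))) (.free 2 [16,17,18,19,20,21,22]))), .t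 1 (nat_lit 0) (.cn 2 3), .t 5 (nat_lit 0x2a0004100040002) (.z (.edon 16 4 (.node 0 11 (.edon 0 16 (.leaf [0,12,13,14]) (.free 2 [16,17,18,19,20,21,22])) (.leaf [1,3,6,11,2])) (.free 2 [4,5,7,8,9,10,15]))), .t 24 (nat_lit 0x44a038d0350034f034e04c204b9039b039a038f038e0357067d067c0518046f046e03e003df03560355032a031f) (.z (.node 7 4 (.free 1 [7]) (.node 10 1 (.leaf [3,4,5,8,9,10,6]) (.free 4 [0,1,2,11,12,13,14,15,16,17,18,19,20,21,22])))), .t 1 (nat_lit 0) (.cn 2 3), .t 1 (nat_lit 0) (.cn 2 3), .t 6 (nat_lit 0x2c502c400aa00a90019) (.z (.edon 0 16 (.node 0 12 (.leaf [0,13,14,15]) (.node 6 11 (.leaf [1,6,10,12,2]) (.free 2 [3,4,5,7,8,9,11]))) (.free 2 [16,17,18,19,20,21,22]))), .t 11 (nat_lit 0x4c3039d039c033a032c02dd02dc011a01180022) (.z (.edon 0 16 (.node 0 13 (.leaf [0,14,15]) (.node 1 11 (.leaf [1,10,12,13,2]) (.edon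 5 9 (.leaf [5,7,8]) (.leaf [3,4,9,11,6])))) (.free 2 [16,17,18,19,20,21,22]))), .t 12 (nat_lit 0x7cc06e506e406d806d606ca06c902a6005000060005) (.z (.edon 0 16 (.node 0 13 (.leaf [0,14,15]) (.node 3 10 (.leaf [1,3,12,13,2]) (.node 6 7 (.leaf [6,8,9,11,10]) (.leaf [4,5,7])))) (.free 2 [16,17,18,19,20,21,22]))), .t 1 (nat_lit 0) (.fa 4), .t 12 (nat_lit 0x3c303c202cb02ca02a100ba00b90042000600050002) (.z (.edon 4 16 (.free 2 [4,5,7,8,9,10,11]) (.node 13 0 (.leaf [1,3,6,12,13,2]) (.free 3 [0,14,15,16,17,18,19,20,21,22])))), .t 8 (nat_lit 0x2d402d300f400f200210b810b7e) (.z (.node 1 9 (.node 0 12 (.node 0 16 (.free 2 [0,17,18,19,20,21,22]) (.leaf [13,15,16,14])) (.leaf [1,10,11,12,2])) (.free 2 [3,4,5,6,7,8,9]))), .t 12 (nat_lit 0x7cc06e506e406d806d606ca06c902a6005000060005) (.z (.edon 0 16 (.node 0 13 (.leaf [0,14,15])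 (.node 3 11 (.leaf [1,3,12,13,2]) (.node 6 7 (.leaf [6,8,9,11,10]) (.leaf [4,5,7])))) (.free 2 [16,17,18,19,20,21,22]))), .t 11 (nat_lit 0xc580c540c530301030001ed01eb002b0c5f0c5a) (.z (.node 4 16 (.node 0 14 (.node 0 20 (.leaf [0,21,22]) (.leaf [15,18,19,20,17])) (.node 1 6 (.leaf [1,12,13,14,2]) (.leaf [3,4,6]))) (.free 2 [5,7,8,9,10,11,16]))), .t 5 (nat_lit 0xc6d0c660c5e0c5d) (.z (.edon 0 15 (.free 4 [0,1,2,3,4,5,6,7,8,9,10,11,12,13,14]) (.node 15 19 (.leaf [15,17,20,22,21]) (.leaf [16,18,19])))), .t 8 (nat_lit 0x2d402d300f400f200210b820b80) (.z (.node 1 9 (.node 0 12 (.node 0 16 (.free 2 [0,17,18,19,20,21,22]) (.leaf [13,16,15,14])) (.leaf [1,10,11,12,2])) (.free 2 [3,4,5,6,7,8,9]))), .t 11 (nat_lit 0xc570c550c520301030001ed01eb002b0c5f0c5a) (.z (.node 4 16 (.node 0 14 (.node 0 20 (.leaf [0,21,22]) (.leaf [15,17,19,20,18]))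 (.node 1 6 (.leaf [1,12,13,14,2]) (.leaf [3,4,6]))) (.free 2 [5,7,8,9,10,11,16]))), .t 5 (nat_lit 0xc6f0c660c640c63) (.z (.edon 0 15 (.free 4 [0,1,2,3,4,5,6,7,8,9,10,11,12,13,14]) (.node 15 19 (.leaf [15,18,20,22,21]) (.leaf [16,17,19])))), .t 1 (nat_lit 0) (.fa 5), .t 15 (nat_lit 0xc0f0c4f0c4e0c310c300c0d0c0c08d901790174011b011600fb00f9) (.z (.node 1 9 (.node 2 22 (.leaf [0,2,21]) (.edon 0 14 (.leaf [1,10,11,13,12]) (.edon 0 19 (.leaf [14,15,16,17,18]) (.leaf [19,20,22])))) (.free 2 [3,4,5,6,7,8,9]))), .t 1 (nat_lit 0) (.cn 7 2), .t 1 (nat_lit 0) (.fa 4), .t 1 (nat_lit 0) (.cn 7 2), .t 11 (nat_lit 0xc570c550c520301030001ed01eb002b0c5f0c5a) (.z (.node 4 16 (.node 0 14 (.node 0 20 (.leaf [0,21,22]) (.leaf [15,17,19,20,18])) (.node 1 5 (.leaf [1,12,13,14,2]) (.leaf [3,4,5]))) (.free 2 [6,7,8,9,10,11,16]))), .t 11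 (nat_lit 0xc570c550c520301030001ed01eb002b0c5f0c5a) (.z (.node 4 16 (.node 0 14 (.node 0 20 (.leaf [0,21,22]) (.leaf [15,17,19,20,18])) (.node 1 10 (.leaf [1,12,13,14,2]) (.leaf [3,4,10]))) (.free 2 [5,6,7,8,9,11,16]))), .t 1 (nat_lit 0) (.cp 2 3), .t 11 (nat_lit 0xc580c540c530301030001ed01eb002b0c5f0c5a) (.z (.node 4 16 (.node 0 14 (.node 0 20 (.leaf [0,21,22]) (.leaf [15,18,19,20,17])) (.node 1 5 (.leaf [1,12,13,14,2]) (.leaf [3,4,5]))) (.free 2 [6,7,8,9,10,11,16]))), .t 8 (nat_lit 0x2d402d300f400f200210c370c36) (.z (.edon 0 20 (.node 0 12 (.node 14 16 (.leaf [0,14,17,18,19]) (.leaf [13,15,16])) (.node 1 9 (.leaf [1,10,11,12,2]) (.free 2 [3,4,5,6,7,8,9]))) (.free 1 [20,21,22])))] (by decide +kernel) (by decide +kernel)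
theorem b103 : B 3296 3328 := Blk.of_chk [.t 15 (nat_lit 0xc500c320c2f0c170c140c0f0c0e08d901790174011b011600fb00f9) (.z (.node 1 9 (.edon 1 21 (.edon 0 14 (.leaf [1,10,11,13,12]) (.edon 0 19 (.leaf [14,15,16,18,17]) (.leaf [19,20,22]))) (.leaf [0,2,21])) (.free 2 [3,4,5,6,7,8,9]))), .t 1 (nat_lit 0) (.cn 7 2), .t 1 (nat_lit 0) (.cn 7 2), .t 8 (nat_lit 0x450048404810457045504cf04cd) (.z (.node 6 9 (.node 3 11 (.free 4 [0,1,2,3,12,13,14,15,16,17,18,19,20,21,22]) (.leaf [4,6,10,11,5])) (.free 1 [7,8,9]))), .t 13 (nat_lit 0xc0f0c4f0c4e0c310c300c0d0c0c0423017901740050004c) (.z (.edon 1 21 (.edon 0 14 (.node 3 10 (.leaf [1,3,11,13,12]) (.free 2 [4,5,6,7,8,9,10])) (.edon 0 19 (.leaf [14,15,16,17,18]) (.leaf [19,20,22]))) (.free 1 [0,2,21]))), .t 1 (nat_lit 0) (.fa 4), .t 4 (nat_lit 0xc4c07cb07ca) (.z (.node 0 7 (.edon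 0 12 (.leaf [0,8,9,10,11]) (.node 14 19 (.leaf [14,20,22,21]) (.free 2 [12,13,15,16,17,18,19]))) (.free 2 [1,2,3,4,5,6,7]))), .t 4 (nat_lit 0xc6f07cb07ca) (.z (.node 0 7 (.edon 0 12 (.leaf [0,8,9,10,11]) (.node 18 19 (.leaf [18,20,22,21]) (.free 2 [12,13,14,15,16,17,19]))) (.free 2 [1,2,3,4,5,6,7]))), .t 4 (nat_lit 0xb7c07cb07ca) (.z (.node 0 7 (.edon 0 12 (.leaf [0,8,9,10,11]) (.node 12 19 (.leaf [12,20,22,21]) (.free 2 [13,14,15,16,17,18,19]))) (.free 2 [1,2,3,4,5,6,7]))), .t 4 (nat_lit 0xc6d07cb07ca) (.z (.node 0 7 (.edon 0 12 (.leaf [0,8,9,10,11]) (.node 17 19 (.leaf [17,20,22,21]) (.free 2 [12,13,14,15,16,18,19]))) (.free 2 [1,2,3,4,5,6,7]))), .t 10 (nat_lit 0x7c907d807d507ce07cd07f607f40b810b7e) (.z (.node 0 7 (.node 0 12 (.node 0 16 (.free 2 [0,17,18,19,20,21,22]) (.leaf [13,15,16,14])) (.leaf [8,9,12,11,10]))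 (.free 2 [1,2,3,4,5,6,7]))), .t 9 (nat_lit 0xae10adf0ade0b700b6e0aed0aec0c4c) (.z (.edon 9 1 (.node 13 16 (.edon 0 12 (.leaf [0,2,10,11]) (.node 14 19 (.leaf [14,20,22,21]) (.leaf [12,13,18,19,17]))) (.leaf [9,15,16])) (.free 2 [1,3,4,5,6,7,8]))), .t 12 (nat_lit 0xb7e0ba60ba40b880b8502a5004b000500040bd60bd5) (.z (.edon 0 20 (.node 0 12 (.node 0 17 (.leaf [0,18,19]) (.leaf [13,15,16,17,14])) (.node 3 10 (.leaf [1,3,11,12,2]) (.free 2 [4,5,6,7,8,9,10]))) (.free 1 [20,21,22]))), .t 1 (nat_lit 0) (.fa 4), .t 1 (nat_lit 0) (.cn 6 3), .t 5 (nat_lit 0xc6d0c4c0c430c42) (.z (.node 0 7 (.edon 0 11 (.leaf [0,8,9,10]) (.node 17 19 (.leaf [14,17,20,22,21]) (.free 2 [11,12,13,15,16,18,19]))) (.free 2 [1,2,3,4,5,6,7]))), .t 1 (nat_lit 0) (.cn 4 2), .t 8 (nat_lit 0x7df07e907e807e507e408520851) (.z (.node 0 7 (.edon 0 16 (.node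 11 13 (.leaf [0,10,11,14]) (.leaf [8,9,15,13,12])) (.free 2 [16,17,18,19,20,21,22])) (.free 2 [1,2,3,4,5,6,7]))), .t 1 (nat_lit 0) (.fa 4), .t 1 (nat_lit 0) (.fa 5), .t 1 (nat_lit 0) (.cn 2 3), .t 1 (nat_lit 0) (.cn 2 3), .t 1 (nat_lit 0) (.cn 2 3), .t 13 (nat_lit 0x2da0c580c540c5308de08dc02ee02ed02d402d30c5f0c5a) (.z (.edon 9 1 (.node 12 16 (.node 0 14 (.node 0 20 (.leaf [0,21,22]) (.leaf [15,18,19,20,17])) (.leaf [2,10,11,12,14])) (.leaf [9,13,16])) (.free 2 [1,3,4,5,6,7,8]))), .t 8 (nat_lit 0xa9709ff09fb09ae09a909880986) (.z (.node 0 7 (.edon 0 11 (.leaf [0,8,9,10]) (.edon 0 16 (.leaf [11,12,13,15,14]) (.free 2 [16,17,18,19,20,21,22]))) (.free 2 [1,2,3,4,5,6,7]))), .t 10 (nat_lit 0xa920ac00abb0a9f0a9a07cc07c90aff0afd) (.z (.node 0 7 (.node 0 11 (.node 0 16 (.free 2 [0,17,18,19,20,21,22]) (.leaf [12,13,16,15,14]))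 (.leaf [8,9,11,10])) (.free 2 [1,2,3,4,5,6,7]))), .t 7 (nat_lit 0x990098d0c6d0c4c0c430c42) (.z (.node 0 7 (.edon 0 11 (.leaf [0,8,9,10]) (.node 15 16 (.edon 15 20 (.leaf [15,18,19]) (.leaf [14,17,20,22,21])) (.leaf [11,13,16,12]))) (.free 2 [1,2,3,4,5,6,7]))), .t 7 (nat_lit 0xc6d0c4c0c430c4209880985) (.z (.node 0 7 (.edon 0 11 (.leaf [0,8,9,10]) (.edon 12 16 (.leaf [11,13,15,12]) (.node 17 19 (.leaf [14,17,20,22,21]) (.leaf [16,18,19])))) (.free 2 [1,2,3,4,5,6,7]))), .t 1 (nat_lit 0) (.fa 4), .t 1 (nat_lit 0) (.cp 2 3), .t 12 (nat_lit 0x4400210004000307e206ef06ee06e306e206ce06cd) (.z (.edon 0 16 (.node 0 13 (.leaf [0,14,15]) (.edon 4 11 (.node 6 7 (.leaf [6,8,9,13,12]) (.leaf [4,5,7])) (.leaf [1,3,11,10,2]))) (.free 2 [16,17,18,19,20,21,22]))), .t 17 (nat_lit 0x7d507cf07cd07cc07c907fd07e207df07da07d908d908d70825082307f607f4)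 (.z (.node 7 0 (.free 2 [1,2,3,4,5,6,7]) (.node 13 0 (.leaf [8,9,13,12,11,10]) (.free 3 [0,14,15,16,17,18,19,20,21,22]))))] (by decide +kernel) (by decide +kernel)
theorem b104 : B 3328 3360 := Blk.of_chk [.t 10 (nat_lit 0x9160915091107e207df096a096909220921) (.z (.node 0 7 (.node 0 16 (.free 2 [0,17,18,19,20,21,22]) (.node 11 12 (.leaf [10,11,15,16,14]) (.leaf [8,9,13,12]))) (.free 2 [1,2,3,4,5,6,7]))), .t 7 (nat_lit 0xc6d0c4c0c430c4209880985) (.z (.node 0 7 (.edon 0 11 (.leaf [0,8,9,10]) (.edon 11 16 (.leaf [11,13,15,12]) (.node 17 19 (.leaf [14,17,20,22,21]) (.leaf [16,18,19])))) (.free 2 [1,2,3,4,5,6,7]))), .t 5 (nat_lit 0xc4c0a910a700a6f) (.z (.node 0 7 (.edon 0 11 (.leaf [0,8,9,10]) (.node 14 19 (.leaf [11,14,20,22,21]) (.free 2 [12,13,15,16,17,18,19]))) (.free 2 [1,2,3,4,5,6,7]))), .t 8 (nat_lit 0x7d907e907e807de07dd083b0839)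 (.z (.node 0 7 (.edon 0 16 (.edon 11 12 (.leaf [8,9,15,13,11]) (.leaf [0,10,12,14])) (.free 2 [16,17,18,19,20,21,22])) (.free 2 [1,2,3,4,5,6,7]))), .t 10 (nat_lit 0xaad0a0f0a0a09c109bd099d099c0c500c4d) (.z (.node 0 7 (.edon 0 11 (.leaf [0,8,9,10]) (.edon 0 20 (.edon 17 19 (.leaf [15,16,18,17]) (.leaf [11,12,13,19,14])) (.leaf [20,21,22]))) (.free 2 [1,2,3,4,5,6,7]))), .t 5 (nat_lit 0x903090107e507e4) (.z (.node 0 7 (.edon 0 16 (.edon 8 13 (.leaf [8,9,15,12]) (.leaf [0,10,11,13,14])) (.free 2 [16,17,18,19,20,21,22])) (.free 2 [1,2,3,4,5,6,7]))), .t 7 (nat_lit 0xc6d0c4c0c430c4209890984) (.z (.node 0 7 (.edon 0 11 (.leaf [0,8,9,10]) (.edon 11 16 (.leaf [11,12,15,13]) (.node 17 19 (.leaf [14,17,20,22,21]) (.leaf [16,18,19])))) (.free 2 [1,2,3,4,5,6,7]))), .t 10 (nat_lit 0x9550954095207d807d5096a09690960095f) (.z (.node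 0 7 (.node 0 16 (.free 2 [0,17,18,19,20,21,22]) (.node 10 12 (.leaf [10,13,15,16,14]) (.leaf [8,9,12,11]))) (.free 2 [1,2,3,4,5,6,7]))), .t 1 (nat_lit 0) (.cn 2 3), .t 1 (nat_lit 0) (.cn 2 3), .t 4 (nat_lit 0x109030901) (.z (.edon 16 4 (.node 0 5 (.edon 0 16 (.leaf [0,10,11,13,14]) (.free 2 [16,17,18,19,20,21,22])) (.leaf [1,3,5,2])) (.free 2 [4,6,7,8,9,12,15]))), .t 1 (nat_lit 0) (.cn 2 3), .t 4 (nat_lit 0x209030901) (.z (.edon 16 4 (.node 0 6 (.edon 0 16 (.leaf [0,10,11,13,14]) (.free 2 [16,17,18,19,20,21,22])) (.leaf [1,3,6,2])) (.free 2 [4,5,7,8,9,12,15]))), .t 1 (nat_lit 0) (.cp 2 3), .t 9 (nat_lit 0xa0109ff09fb0a490a460a1b0a190003) (.z (.node 16 0 (.edon 4 16 (.free 2 [4,5,6,7,8,9,12]) (.edon 0 11 (.leaf [1,3,10,2]) (.leaf [11,13,15,16,14]))) (.free 2 [0,17,18,19,20,21,22]))), .t 1 (nat_lit 0) (.cp 2 3),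 .t 1 (nat_lit 0) (.fa 4), .t 1 (nat_lit 0) (.cp 6 3), .t 1 (nat_lit 0) (.cn 6 3), .t 1 (nat_lit 0) (.cn 6 3), .t 13 (nat_lit 0x7c907d807d507ce07cd07f607f40c6c0c440c3e0c370c36) (.z (.node 0 7 (.node 0 12 (.node 0 20 (.leaf [0,21,22]) (.node 14 16 (.leaf [14,17,18,19,20]) (.leaf [13,15,16]))) (.leaf [8,9,12,11,10])) (.free 2 [1,2,3,4,5,6,7]))), .t 1 (nat_lit 0) (.cn 2 3), .t 10 (nat_lit 0x7cc07c90ac00abe0c6c0c440c3e0c370c36) (.z (.node 0 7 (.node 0 11 (.node 0 20 (.leaf [0,21,22]) (.node 14 16 (.leaf [14,17,18,19,20]) (.leaf [12,16,15,13]))) (.leaf [8,9,11,10])) (.free 2 [1,2,3,4,5,6,7]))), .t 5 (nat_lit 0xc6f0c4c0c4a0c49) (.z (.node 0 7 (.edon 0 11 (.leaf [0,8,9,10]) (.node 18 19 (.leaf [14,18,20,22,21]) (.free 2 [11,12,13,15,16,17,19]))) (.free 2 [1,2,3,4,5,6,7]))), .t 5 (nat_lit 0xc6f0a910a8f0a8e) (.z (.node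 0 7 (.edon 0 11 (.leaf [0,8,9,10]) (.node 11 19 (.leaf [11,18,20,22,21]) (.free 2 [12,13,14,15,16,17,19]))) (.free 2 [1,2,3,4,5,6,7]))), .t 13 (nat_lit 0x7c907d807d507ce07cd0c3a0c380c3407f607f40c440c3e) (.z (.node 0 7 (.node 0 12 (.node 0 20 (.leaf [0,21,22]) (.node 14 16 (.leaf [14,17,19,20,18]) (.leaf [13,15,16]))) (.leaf [8,9,12,11,10])) (.free 2 [1,2,3,4,5,6,7]))), .t 5 (nat_lit 0xc6d0a910a8c0a8b) (.z (.node 0 7 (.edon 0 11 (.leaf [0,8,9,10]) (.node 11 19 (.leaf [11,17,20,22,21]) (.free 2 [12,13,14,15,16,18,19]))) (.free 2 [1,2,3,4,5,6,7]))), .t 13 (nat_lit 0x7c907d807d507ce07cd0c3b0c370c3507f607f40c440c3e) (.z (.node 0 7 (.node 0 12 (.node 0 20 (.leaf [0,21,22]) (.node 14 16 (.leaf [14,18,19,20,17]) (.leaf [13,15,16]))) (.leaf [8,9,12,11,10])) (.free 2 [1,2,3,4,5,6,7]))), .t 7 (nat_lit 0xac00abe0c6d0a910a8c0a8b)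 (.z (.node 0 7 (.edon 0 11 (.leaf [0,8,9,10]) (.node 14 16 (.node 17 19 (.leaf [11,17,20,22,21]) (.leaf [14,18,19])) (.leaf [12,16,15,13]))) (.free 2 [1,2,3,4,5,6,7]))), .t 13 (nat_lit 0x7c907d807d507ce07cd0c580c540c5307f607f40c5f0c5a) (.z (.node 0 7 (.node 0 12 (.node 0 20 (.leaf [0,21,22]) (.node 15 16 (.leaf [15,18,19,20,17]) (.leaf [13,14,16]))) (.leaf [8,9,12,11,10])) (.free 2 [1,2,3,4,5,6,7]))), .t 9 (nat_lit 0xc580c540c5300210a9f0a9d0c5f0c5a) (.z (.node 1 9 (.node 0 11 (.node 0 20 (.leaf [0,21,22]) (.node 15 16 (.leaf [15,18,19,20,17]) (.leaf [12,16,14,13]))) (.leaf [1,10,11,2])) (.free 2 [3,4,5,6,7,8,9]))), .t 9 (nat_lit 0xc3b0c370c3500210ac00abe0c440c3e) (.z (.node 1 9 (.node 0 11 (.node 0 20 (.leaf [0,21,22]) (.node 14 16 (.leaf [14,18,19,20,17]) (.leaf [12,16,15,13]))) (.leaf [1,10,11,2])) (.free 2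 [3,4,5,6,7,8,9])))] (by decide +kernel) (by decide +kernel)
theorem b105 : B 3360 3392 := Blk.of_chk [.t 4 (nat_lit 0x210a960a94) (.z (.edon 0 16 (.node 0 11 (.leaf [0,12,13,14,15]) (.node 1 9 (.leaf [1,10,11,2]) (.free 2 [3,4,5,6,7,8,9]))) (.free 2 [16,17,18,19,20,21,22]))), .t 10 (nat_lit 0xc180c170c140c370c350c250c2302b802b7) (.z (.edon 0 20 (.node 4 16 (.edon 0 14 (.edon 1 5 (.leaf [1,3,4]) (.leaf [0,2,5,10,11])) (.leaf [14,15,18,19,17])) (.free 2 [6,7,8,9,12,13,16])) (.free 1 [20,21,22]))), .t 10 (nat_lit 0xc180c170c140c370c350c250c2302c302c2) (.z (.edon 0 20 (.node 4 16 (.edon 0 14 (.edon 1 6 (.leaf [1,3,4]) (.leaf [0,2,6,10,11])) (.leaf [14,15,18,19,17])) (.free 2 [5,7,8,9,12,13,16])) (.free 1 [20,21,22]))), .t 1 (nat_lit 0) (.cn 6 3), .t 7 (nat_lit 0xc6d0a910a8c0a8b0a970a92) (.z (.node 0 7 (.edon 0 11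 (.leaf [0,8,9,10]) (.edon 14 16 (.leaf [12,13,15,14]) (.node 17 19 (.leaf [11,17,20,22,21]) (.leaf [16,18,19])))) (.free 2 [1,2,3,4,5,6,7]))), .t 1 (nat_lit 0) (.fa 5), .t 13 (nat_lit 0x7c907d807d507ce07cd0c570c550c5207f607f40c5f0c5a) (.z (.node 0 7 (.node 0 12 (.node 0 20 (.leaf [0,21,22]) (.node 15 16 (.leaf [15,17,19,20,18]) (.leaf [13,14,16]))) (.leaf [8,9,12,11,10])) (.free 2 [1,2,3,4,5,6,7]))), .t 7 (nat_lit 0xc570c550c520c5f0c5a0a70) (.z (.node 0 7 (.edon 0 11 (.leaf [0,8,9,10]) (.node 15 16 (.node 14 20 (.leaf [11,14,22,21]) (.leaf [15,17,19,20,18])) (.leaf [12,13,16]))) (.free 2 [1,2,3,4,5,6,7]))), .t 9 (nat_lit 0xc550c380c340c260c210c1c0c1a0a91) (.z (.node 0 7 (.edon 0 11 (.leaf [0,8,9,10]) (.node 15 16 (.node 11 19 (.leaf [11,20,22,21]) (.leaf [14,15,17,19,18])) (.leaf [12,13,16]))) (.free 2 [1,2,3,4,5,6,7]))),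 .t 5 (nat_lit 0xb7c0a9109fa09f9) (.z (.node 0 7 (.edon 0 11 (.leaf [0,8,9,10]) (.node 12 19 (.leaf [11,12,20,22,21]) (.free 2 [13,14,15,16,17,18,19]))) (.free 2 [1,2,3,4,5,6,7]))), .t 5 (nat_lit 0xc6f0a910a8f0a8e) (.z (.node 0 7 (.edon 0 11 (.leaf [0,8,9,10]) (.node 18 19 (.leaf [11,18,20,22,21]) (.free 2 [12,13,14,15,16,17,19]))) (.free 2 [1,2,3,4,5,6,7]))), .t 5 (nat_lit 0xc0b0a910a440a43) (.z (.node 0 7 (.edon 0 11 (.leaf [0,8,9,10]) (.node 13 19 (.leaf [11,13,20,22,21]) (.free 2 [12,14,15,16,17,18,19]))) (.free 2 [1,2,3,4,5,6,7]))), .t 7 (nat_lit 0xc6f0c4c0c4a0c4902c302c2) (.z (.node 4 16 (.edon 0 14 (.edon 1 6 (.leaf [1,3,4]) (.leaf [0,2,6,10,11])) (.edon 15 20 (.leaf [15,17,19]) (.leaf [14,18,20,22,21]))) (.free 2 [5,7,8,9,12,13,16]))), .t 7 (nat_lit 0xc6f0c4c0c4a0c4902b802b7) (.z (.node 4 16 (.edon 0 14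 (.edon 1 5 (.leaf [1,3,4]) (.leaf [0,2,5,10,11])) (.edon 15 20 (.leaf [15,17,19]) (.leaf [14,18,20,22,21]))) (.free 2 [6,7,8,9,12,13,16]))), .t 1 (nat_lit 0) (.cn 6 3), .t 10 (nat_lit 0xc6f0c4c0c4a0c4904d004ce03a903a7032a) (.z (.edon 0 3 (.free 1 [0,1,2]) (.node 4 16 (.edon 0 14 (.leaf [3,4,11,10,6]) (.edon 15 20 (.leaf [15,17,19]) (.leaf [14,18,20,22,21]))) (.free 2 [5,7,8,9,12,13,16])))), .t 9 (nat_lit 0xc3a0c380c3400210ac00abb0c440c3e) (.z (.node 1 9 (.node 0 11 (.node 0 20 (.leaf [0,21,22]) (.node 14 16 (.leaf [14,17,19,20,18]) (.leaf [12,13,16,15]))) (.leaf [1,10,11,2])) (.free 2 [3,4,5,6,7,8,9]))), .t 9 (nat_lit 0xa500c6f0c1c0c1a0a7b0a790a4c0a4b) (.z (.node 0 7 (.edon 0 11 (.leaf [0,8,9,10]) (.node 15 16 (.edon 11 20 (.leaf [11,14,15,17,19]) (.leaf [18,20,22,21])) (.leaf [12,13,16]))) (.free 2 [1,2,3,4,5,6,7]))),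 .t 9 (nat_lit 0xc3a0c380c3400210ac00abe0c440c3e) (.z (.node 1 9 (.node 0 11 (.node 0 20 (.leaf [0,21,22]) (.node 14 16 (.leaf [14,17,19,20,18]) (.leaf [12,16,15,13]))) (.leaf [1,10,11,2])) (.free 2 [3,4,5,6,7,8,9]))), .t 9 (nat_lit 0xc570c550c5200210a9f0a9d0c5f0c5a) (.z (.node 1 9 (.node 0 11 (.node 0 20 (.leaf [0,21,22]) (.node 15 16 (.leaf [15,17,19,20,18]) (.leaf [12,16,14,13]))) (.leaf [1,10,11,2])) (.free 2 [3,4,5,6,7,8,9]))), .t 7 (nat_lit 0xc6d0c4c0c430c4202c302c2) (.z (.node 4 16 (.edon 0 14 (.edon 1 6 (.leaf [1,3,4]) (.leaf [0,2,6,10,11])) (.edon 15 20 (.leaf [15,18,19]) (.leaf [14,17,20,22,21]))) (.free 2 [5,7,8,9,12,13,16]))), .t 7 (nat_lit 0xc6d0c4c0c430c4202b802b7) (.z (.node 4 16 (.edon 0 14 (.edon 1 5 (.leaf [1,3,4]) (.leaf [0,2,5,10,11])) (.edon 15 20 (.leaf [15,18,19]) (.leaf [14,17,20,22,21])))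 (.free 2 [6,7,8,9,12,13,16]))), .t 10 (nat_lit 0xc6d0c4c0c430c4204d004ce03a903a7032a) (.z (.edon 0 3 (.free 1 [0,1,2]) (.node 4 16 (.edon 0 14 (.leaf [3,4,11,10,6]) (.edon 15 20 (.leaf [15,18,19]) (.leaf [14,17,20,22,21]))) (.free 2 [5,7,8,9,12,13,16])))), .t 1 (nat_lit 0) (.cn 2 3), .t 1 (nat_lit 0) (.cn 2 3), .t 10 (nat_lit 0x86a0c500c4d08d908d7087f087e08670866) (.z (.edon 1 19 (.edon 0 9 (.free 2 [1,3,4,5,6,7,8]) (.edon 0 15 (.leaf [9,13,12,11,10]) (.leaf [15,16,18,17]))) (.free 2 [0,2,14,19,20,21,22]))), .t 7 (nat_lit 0xc6d0b7c0b770b7609ff09fb) (.z (.node 0 7 (.edon 0 11 (.leaf [0,8,9,10]) (.edon 14 16 (.leaf [11,13,15,14]) (.node 17 19 (.leaf [12,17,20,22,21]) (.leaf [16,18,19])))) (.free 2 [1,2,3,4,5,6,7]))), .t 1 (nat_lit 0) (.cn 2 3), .t 1 (nat_lit 0) (.cn 2 3), .t 1 (nat_lit 0) (.cn 2 3), .t 7 (nat_lit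 0xc6f0c4c0c4a0c4909880985) (.z (.node 0 7 (.edon 0 11 (.leaf [0,8,9,10]) (.edon 12 16 (.leaf [11,13,15,12]) (.node 18 19 (.leaf [14,18,20,22,21]) (.leaf [16,17,19])))) (.free 2 [1,2,3,4,5,6,7]))), .t 15 (nat_lit 0xc0f086a0c4f0c4e0c310c300c0d0c0c08d908d7087f087e08670866) (.z (.edon 1 21 (.edon 0 9 (.free 2 [1,3,4,5,6,7,8]) (.edon 0 14 (.leaf [9,13,12,11,10]) (.edon 0 19 (.leaf [14,15,16,17,18]) (.leaf [19,20,22])))) (.free 1 [0,2,21])))] (by decide +kernel) (by decide +kernel)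

end Pool.Agent.GCP.F8_9
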