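import Pool.Agent.GCP.F8_9Db

set_option autoImplicit false
set_option maxRecDepth 100000

/-! # Blocks F8_9B2 (generated) -/

namespace Pool.Agent.GCP.F8_9

open Pool.Agent.GCP DB

theorem b106 : B 3392 3424 := Blk.of_chk [.t 7 (nat_lit 0xc550c520c4c0b7c0b480b47) (.z (.node 4 16 (.edon 0 12 (.free 2 [0,1,2,3,4,6,11]) (.node 14 19 (.leaf [12,14,20,22,21]) (.leaf [15,17,19,18]))) (.free 2 [5,7,8,9,10,13,16]))), .t 10 (nat_lit 0xc550c380c340c260c210c1c0c1a02c902c8) (.z (.edon 0 20 (.node 4 16 (.edon 0 14 (.edon 1 6 (.leaf [1,3,4]) (.leaf [0,2,6,11,12])) (.leaf [14,15,17,19,18])) (.free 2 [5,7,8,9,10,13,16])) (.free 1 [20,21,22]))), .t 1 (nat_lit 0) (.cn 7 2), .t 9 (nat_lit 0x9f309f209ee00020a8d09f70c0d0c0c) (.z (.edon 16 4 (.node 0 6 (.node 0 20 (.leaf [0,21,22]) (.edon 14 19 (.leaf [14,15,16,17]) (.leaf [11,12,19,20,18]))) (.leaf [1,3,6,2]))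 (.free 2 [4,5,7,8,9,10,13]))), .t 4 (nat_lit 0x209ad09ab) (.z (.edon 16 4 (.node 0 6 (.edon 0 16 (.leaf [0,11,12,14,15]) (.free 2 [16,17,18,19,20,21,22])) (.leaf [1,3,6,2])) (.free 2 [4,5,7,8,9,10,13]))), .t 9 (nat_lit 0xa920ac00abb0a9f0a9a00210aff0afd) (.z (.node 1 9 (.node 0 11 (.node 0 16 (.free 2 [0,17,18,19,20,21,22]) (.leaf [12,13,16,15,14])) (.leaf [1,10,11,2])) (.free 2 [3,4,5,6,7,8,9]))), .t 9 (nat_lit 0x9f309f209ee00010a8d09f70c0d0c0c) (.z (.edon 16 4 (.node 0 5 (.node 0 20 (.leaf [0,21,22]) (.edon 14 19 (.leaf [14,15,16,17]) (.leaf [11,12,19,20,18]))) (.leaf [1,3,5,2])) (.free 2 [4,6,7,8,9,10,13]))), .t 9 (nat_lit 0xc570c550c5200210a9f0a9a0c5f0c5a) (.z (.node 1 9 (.node 0 11 (.node 0 20 (.leaf [0,21,22]) (.node 15 16 (.leaf [15,17,19,20,18]) (.leaf [12,13,16,14]))) (.leaf [1,10,11,2])) (.free 2 [3,4,5,6,7,8,9]))), .t 1 (nat_lit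 0) (.cn 2 3), .t 1 (nat_lit 0) (.cn 2 3), .t 9 (nat_lit 0xb020b280b250b0d0b0b0b560b550c6f) (.z (.node 4 16 (.edon 0 12 (.free 2 [0,1,2,3,4,6,11]) (.node 18 19 (.leaf [18,20,22,21]) (.leaf [12,15,17,19,14]))) (.free 2 [5,7,8,9,10,13,16]))), .t 9 (nat_lit 0x99d0c6f0ae50ae30a390a3809950994) (.z (.node 0 7 (.edon 0 11 (.leaf [0,8,9,10]) (.node 13 16 (.edon 11 20 (.leaf [11,12,13,17,19]) (.leaf [18,20,22,21])) (.leaf [14,15,16]))) (.free 2 [1,2,3,4,5,6,7]))), .t 8 (nat_lit 0xa9609fe09fc09ad09aa09890987) (.z (.node 0 7 (.edon 0 11 (.leaf [0,8,9,10]) (.edon 0 16 (.leaf [11,14,15,13,12]) (.free 2 [16,17,18,19,20,21,22]))) (.free 2 [1,2,3,4,5,6,7]))), .t 1 (nat_lit 0) (.cn 7 2), .t 9 (nat_lit 0xc550b710b6d0b5f0b5b0b560b550c0b) (.z (.node 4 16 (.edon 0 12 (.free 2 [0,1,2,3,4,5,11]) (.node 13 19 (.leaf [13,20,22,21]) (.leaf [12,15,17,19,18]))) (.free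 2 [6,7,8,9,10,14,16]))), .t 8 (nat_lit 0xb010aff0afa0b4b0b490b1a0b19) (.z (.node 0 7 (.edon 0 11 (.leaf [0,8,9,10]) (.edon 12 19 (.leaf [12,14,16,17,15]) (.free 2 [11,13,18,19,20,21,22]))) (.free 2 [1,2,3,4,5,6,7]))), .t 9 (nat_lit 0xbff0bfe0bfa00210aff0afa0c070c02) (.z (.node 1 9 (.node 0 11 (.node 0 20 (.leaf [0,21,22]) (.node 13 16 (.leaf [13,17,19,20,18]) (.leaf [12,14,16,15]))) (.leaf [1,10,11,2])) (.free 2 [3,4,5,6,7,8,9]))), .t 9 (nat_lit 0xa9b0a960a9300210aff0afa0ac00abe) (.z (.node 1 9 (.node 0 11 (.node 0 16 (.free 2 [0,17,18,19,20,21,22]) (.leaf [12,14,16,15,13])) (.leaf [1,10,11,2])) (.free 2 [3,4,5,6,7,8,9]))), .t 9 (nat_lit 0x9a1099e099a00010a4209f70c4f0c4e) (.z (.edon 16 4 (.node 0 5 (.node 0 20 (.leaf [0,21,22]) (.edon 18 19 (.leaf [15,16,17,18]) (.leaf [11,12,19,20,13]))) (.leaf [1,3,5,2])) (.free 2 [4,6,7,8,9,10,14]))),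 .t 5 (nat_lit 0xc0b0a910a440a43) (.z (.node 0 7 (.edon 0 11 (.leaf [0,8,9,10]) (.node 11 19 (.leaf [11,13,20,22,21]) (.free 2 [12,14,15,16,17,18,19]))) (.free 2 [1,2,3,4,5,6,7]))), .t 8 (nat_lit 0xa9e0a040a0209b409b10991098f) (.z (.node 0 7 (.edon 0 11 (.leaf [0,8,9,10]) (.node 15 16 (.free 2 [15,17,18,19,20,21,22]) (.leaf [11,14,16,13,12]))) (.free 2 [1,2,3,4,5,6,7]))), .t 8 (nat_lit 0x9b109ad09aa0a4a0a4509d009ce) (.z (.node 0 7 (.edon 0 11 (.leaf [0,8,9,10]) (.node 13 16 (.free 2 [13,17,18,19,20,21,22]) (.leaf [11,14,16,15,12]))) (.free 2 [1,2,3,4,5,6,7]))), .t 8 (nat_lit 0x9b109dc09db09b909b80a5b0a5a) (.z (.node 0 7 (.edon 0 11 (.leaf [0,8,9,10]) (.edon 12 19 (.leaf [11,14,16,17,12]) (.free 2 [13,15,18,19,20,21,22]))) (.free 2 [1,2,3,4,5,6,7]))), .t 9 (nat_lit 0xb010aff0afa00210b4b0b490b1a0b19) (.z (.node 1 9 (.node 0 11 (.edon 15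 19 (.leaf [12,14,16,17,15]) (.free 2 [0,13,18,19,20,21,22])) (.leaf [1,10,11,2])) (.free 2 [3,4,5,6,7,8,9]))), .t 7 (nat_lit 0x9b409b10c6f0c0b0c090c08) (.z (.node 0 7 (.edon 0 11 (.leaf [0,8,9,10]) (.node 15 16 (.edon 15 20 (.leaf [15,17,19]) (.leaf [13,18,20,22,21])) (.leaf [11,14,16,12]))) (.free 2 [1,2,3,4,5,6,7]))), .t 5 (nat_lit 0xc6f0c0b0c090c08) (.z (.node 0 7 (.edon 0 11 (.leaf [0,8,9,10]) (.node 13 19 (.leaf [13,18,20,22,21]) (.free 2 [11,12,14,15,16,17,19]))) (.free 2 [1,2,3,4,5,6,7]))), .t 1 (nat_lit 0) (.cn 2 3), .t 8 (nat_lit 0x86c090409020890088f086a0869) (.z (.edon 0 16 (.edon 1 9 (.free 2 [1,3,4,5,6,7,8]) (.node 12 13 (.leaf [0,2,12,15]) (.leaf [9,14,13,11,10]))) (.free 2 [16,17,18,19,20,21,22]))), .t 5 (nat_lit 0x29e003d00040001) (.z (.edon 16 4 (.node 0 11 (.edon 0 16 (.leaf [0,12,13,15]) (.free 2 [16,17,18,19,20,21,22]))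 (.leaf [1,3,5,11,2])) (.free 2 [4,6,7,8,9,10,14]))), .t 7 (nat_lit 0x29e003d000400010bd90bd8) (.z (.edon 16 4 (.node 0 11 (.edon 13 19 (.leaf [13,15,16,18]) (.free 2 [0,12,17,19,20,21,22])) (.leaf [1,3,5,11,2])) (.free 2 [4,6,7,8,9,10,14]))), .t 7 (nat_lit 0xabf0abc029e003d00040001) (.z (.node 16 0 (.edon 4 16 (.free 2 [4,6,7,8,9,10,14]) (.edon 0 12 (.leaf [1,3,5,11,2]) (.leaf [12,15,16,13]))) (.free 2 [0,17,18,19,20,21,22]))), .t 5 (nat_lit 0x29e003d00040001) (.z (.edon 0 16 (.node 0 12 (.leaf [0,13,14,15]) (.edon 4 11 (.free 2 [4,6,7,8,9,10,12]) (.leaf [1,3,5,11,2]))) (.free 2 [16,17,18,19,20,21,22])))] (by decide +kernel) (by decide +kernel)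
theorem b107 : B 3424 3456 := Blk.of_chk [.t 13 (nat_lit 0xc500bf80bf50be10bde0bd90bd8037b008d008c004b003e) (.z (.edon 16 4 (.edon 1 21 (.edon 0 13 (.leaf [1,3,5,12,11]) (.edon 0 19 (.leaf [13,15,16,18,17]) (.leaf [19,20,22]))) (.leaf [0,2,21])) (.free 2 [4,6,7,8,9,10,14]))), .t 11 (nat_lit 0xc580c540c5302eb02ea0178017600260c5f0c5a) (.z (.node 4 16 (.node 0 13 (.node 0 20 (.leaf [0,21,22]) (.leaf [15,18,19,20,17])) (.node 1 5 (.leaf [1,11,12,13,2]) (.leaf [3,4,5]))) (.free 2 [6,7,8,9,10,14,16]))), .t 6 (nat_lit 0x210aff0afa0bfd0bfc) (.z (.edon 0 20 (.node 0 11 (.node 13 16 (.leaf [0,13,17,18,19]) (.leaf [12,14,16,15])) (.node 1 9 (.leaf [1,10,11,2]) (.free 2 [3,4,5,6,7,8,9]))) (.free 1 [20,21,22]))), .t 5 (nat_lit 0x29e003d00040001) (.z (.edon 0 16 (.node 0 12 (.leaf [0,13,14,15]) (.edon 4 5 (.free 2 [4,6,7,8,9,10,12]) (.leaf [1,3,5,11,2])))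 (.free 2 [16,17,18,19,20,21,22]))), .t 8 (nat_lit 0x97c09ae09a90989098409ff09fd) (.z (.node 0 7 (.edon 0 11 (.leaf [0,8,9,10]) (.edon 0 16 (.leaf [11,12,15,14,13]) (.free 2 [16,17,18,19,20,21,22]))) (.free 2 [1,2,3,4,5,6,7]))), .t 7 (nat_lit 0x29e003d000400010c500c4d) (.z (.edon 16 4 (.node 0 11 (.edon 17 19 (.leaf [15,16,18,17]) (.free 2 [0,13,14,19,20,21,22])) (.leaf [1,3,5,11,2])) (.free 2 [4,6,7,8,9,10,12]))), .t 7 (nat_lit 0xb820b80029e003d00040001) (.z (.node 16 0 (.edon 4 16 (.free 2 [4,6,7,8,9,10,12]) (.edon 0 13 (.leaf [1,3,5,11,2]) (.leaf [13,16,15,14]))) (.free 2 [0,17,18,19,20,21,22]))), .t 5 (nat_lit 0xc6f0c4c0c4a0c49) (.z (.node 0 7 (.edon 0 11 (.leaf [0,8,9,10]) (.node 14 19 (.leaf [14,18,20,22,21]) (.free 2 [11,12,13,15,16,17,19]))) (.free 2 [1,2,3,4,5,6,7]))), .t 10 (nat_lit 0xc3a0c380c34029e003d000400010c440c3e) (.z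 (.edon 16 4 (.node 0 11 (.node 0 20 (.leaf [0,21,22]) (.node 14 16 (.leaf [14,17,19,20,18]) (.leaf [13,15,16]))) (.leaf [1,3,5,11,2])) (.free 2 [4,6,7,8,9,10,12]))), .t 7 (nat_lit 0xc6f0c4c0c4a0c4909890984) (.z (.node 0 7 (.edon 0 11 (.leaf [0,8,9,10]) (.edon 13 16 (.leaf [11,12,15,13]) (.node 18 19 (.leaf [14,18,20,22,21]) (.leaf [16,17,19])))) (.free 2 [1,2,3,4,5,6,7]))), .t 7 (nat_lit 0x991098c0c6f0c4c0c4a0c49) (.z (.node 0 7 (.edon 0 11 (.leaf [0,8,9,10]) (.node 15 16 (.edon 15 20 (.leaf [15,17,19]) (.leaf [14,18,20,22,21])) (.leaf [11,12,16,13]))) (.free 2 [1,2,3,4,5,6,7]))), .t 13 (nat_lit 0xc0f0c4f0c4e0c310c300c0d0c0c0422017801750050004c) (.z (.edon 1 21 (.edon 0 14 (.node 3 10 (.leaf [1,3,12,13,11]) (.free 2 [4,5,6,7,8,9,10])) (.edon 0 19 (.leaf [14,15,16,17,18]) (.leaf [19,20,22]))) (.free 1 [0,2,21]))), .t 11 (nat_lit 0xc570c550c5202f902f801a601a400270c5f0c5a)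 (.z (.node 1 9 (.node 13 16 (.node 0 14 (.node 0 20 (.leaf [0,21,22]) (.leaf [15,17,19,20,18])) (.leaf [1,11,13,14,2])) (.leaf [10,12,16])) (.free 2 [3,4,5,6,7,8,9]))), .t 12 (nat_lit 0xb7e0ba60ba40b880b85029e003d000400010bd60bd5) (.z (.edon 0 20 (.edon 4 16 (.free 2 [4,6,7,8,9,10,12]) (.node 0 11 (.node 0 17 (.leaf [0,18,19]) (.leaf [13,15,16,17,14])) (.leaf [1,3,5,11,2]))) (.free 1 [20,21,22]))), .t 6 (nat_lit 0x47b03620361033b0323) (.z (.edon 9 6 (.node 1 12 (.free 4 [0,1,2,10,11,13,14,15,16,17,18,19,20,21,22]) (.leaf [3,4,9,12,5])) (.free 1 [6,7,8]))), .t 1 (nat_lit 0) (.fa 4), .t 7 (nat_lit 0x991098c0c6d0c4c0c430c42) (.z (.node 0 7 (.edon 0 11 (.leaf [0,8,9,10]) (.node 15 16 (.edon 15 20 (.leaf [15,18,19]) (.leaf [14,17,20,22,21])) (.leaf [11,12,16,13]))) (.free 2 [1,2,3,4,5,6,7]))), .t 13 (nat_lit 0xc500c320c2f0c170c140c0f0c0e037e008f008e004c003f)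 (.z (.edon 16 4 (.edon 1 21 (.edon 0 14 (.leaf [1,3,5,13,11]) (.edon 0 19 (.leaf [14,15,16,18,17]) (.leaf [19,20,22]))) (.leaf [0,2,21])) (.free 2 [4,6,7,8,9,10,12]))), .t 7 (nat_lit 0xb810b7e029e003d00040001) (.z (.node 16 0 (.edon 4 16 (.free 2 [4,6,7,8,9,10,12]) (.edon 0 13 (.leaf [1,3,5,11,2]) (.leaf [13,15,16,14]))) (.free 2 [0,17,18,19,20,21,22]))), .t 11 (nat_lit 0xc580c540c5302f902f801a601a400270c5f0c5a) (.z (.node 4 16 (.node 0 14 (.node 0 20 (.leaf [0,21,22]) (.leaf [15,18,19,20,17])) (.node 1 5 (.leaf [1,11,13,14,2]) (.leaf [3,4,5]))) (.free 2 [6,7,8,9,10,12,16]))), .t 5 (nat_lit 0x29e003d00040001) (.z (.edon 16 4 (.node 0 11 (.edon 0 16 (.leaf [0,12,14,15]) (.free 2 [16,17,18,19,20,21,22])) (.leaf [1,3,5,11,2])) (.free 2 [4,6,7,8,9,10,13]))), .t 6 (nat_lit 0x2b802b7008600850017) (.z (.edon 0 16 (.edon 3 10 (.free 2 [3,4,6,7,8,9,13])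 (.node 0 11 (.leaf [0,12,14,15]) (.leaf [1,5,10,11,2]))) (.free 2 [16,17,18,19,20,21,22]))), .t 1 (nat_lit 0) (.cn 2 3), .t 7 (nat_lit 0x990098d0c6f0c4c0c4a0c49) (.z (.node 0 7 (.edon 0 11 (.leaf [0,8,9,10]) (.node 15 16 (.edon 15 20 (.leaf [15,17,19]) (.leaf [14,18,20,22,21])) (.leaf [11,13,16,12]))) (.free 2 [1,2,3,4,5,6,7]))), .t 15 (nat_lit 0x86a0c500c320c2f0c170c140c0f0c0e08d908d7087f087e08670866) (.z (.edon 1 21 (.edon 0 9 (.free 2 [1,3,4,5,6,7,8]) (.edon 0 14 (.leaf [9,13,12,11,10]) (.edon 0 19 (.leaf [14,15,16,18,17]) (.leaf [19,20,22])))) (.free 1 [0,2,21]))), .t 15 (nat_lit 0xc500c320c2f0c170c140c0f0c0e069a00f500f0008d008c008a0089) (.z (.edon 1 21 (.edon 0 14 (.edon 3 10 (.free 2 [3,4,6,7,8,9,13]) (.leaf [1,5,10,12,11])) (.edon 0 19 (.leaf [14,15,16,18,17]) (.leaf [19,20,22]))) (.free 1 [0,2,21]))), .t 7 (nat_lit 0xafe0afb029e003d00040001)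 (.z (.node 16 0 (.edon 4 16 (.free 2 [4,6,7,8,9,10,13]) (.edon 0 12 (.leaf [1,3,5,11,2]) (.leaf [12,15,16,14]))) (.free 2 [0,17,18,19,20,21,22]))), .t 13 (nat_lit 0xc500c320c2f0c170c140c0f0c0e037b008d008c004b003e) (.z (.edon 16 4 (.edon 1 21 (.edon 0 14 (.leaf [1,3,5,12,11]) (.edon 0 19 (.leaf [14,15,16,18,17]) (.leaf [19,20,22]))) (.leaf [0,2,21])) (.free 2 [4,6,7,8,9,10,13]))), .t 10 (nat_lit 0xc180c170c140c370c350c250c2302c902c8) (.z (.edon 0 20 (.node 4 16 (.edon 0 14 (.edon 1 6 (.leaf [1,3,4]) (.leaf [0,2,6,11,12])) (.leaf [14,15,18,19,17])) (.free 2 [5,7,8,9,10,13,16])) (.free 1 [20,21,22]))), .t 1 (nat_lit 0) (.cn 2 3), .t 13 (nat_lit 0xc500c320c2f0c170c140c0f0c0e03b600b100b0004b0042) (.z (.edon 16 4 (.edon 1 21 (.edon 0 14 (.leaf [1,3,6,12,11]) (.edon 0 19 (.leaf [14,15,16,18,17]) (.leaf [19,20,22]))) (.leaf [0,2,21])) (.free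 2 [4,5,7,8,9,10,13]))), .t 7 (nat_lit 0x31e031a0319027402720032) (.z (.node 16 0 (.node 1 13 (.leaf [1,14,15,16,2]) (.edon 0 7 (.leaf [3,4,5,6]) (.free 2 [7,8,9,10,11,12,13]))) (.free 2 [0,17,18,19,20,21,22])))] (by decide +kernel) (by decide +kernel)
theorem b108 : B 3456 3488 := Blk.of_chk [.t 4 (nat_lit 0xc0b07cb07ca) (.z (.node 0 7 (.edon 0 12 (.leaf [0,8,9,10,11]) (.node 13 19 (.leaf [13,20,22,21]) (.free 2 [12,14,15,16,17,18,19]))) (.free 2 [1,2,3,4,5,6,7]))), .t 1 (nat_lit 0) (.cn 2 3), .t 12 (nat_lit 0xb7e0ba60ba40b880b8502a00041000400020bd60bd5) (.z (.edon 0 20 (.edon 4 16 (.free 2 [4,5,7,8,9,10,12]) (.node 0 11 (.node 0 17 (.leaf [0,18,19]) (.leaf [13,15,16,17,14])) (.leaf [1,3,6,11,2]))) (.free 1 [20,21,22]))), .t 13 (nat_lit 0xb7e0ba60ba40b880b8502c302c200a600a500190bd60bd5) (.z (.edon 0 20 (.node 0 12 (.node 0 17 (.leaf [0,18,19])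 (.leaf [13,15,16,17,14])) (.edon 3 10 (.free 2 [3,4,5,7,8,9,12]) (.leaf [1,6,10,11,2]))) (.free 1 [20,21,22]))), .t 15 (nat_lit 0xc0f0c4f0c4e0c310c300c0d0c0c06f200fc00f800b300b200ad00ac) (.z (.edon 1 21 (.edon 0 14 (.edon 3 10 (.free 2 [3,4,5,7,8,9,12]) (.leaf [1,6,10,13,11])) (.edon 0 19 (.leaf [14,15,16,17,18]) (.leaf [19,20,22]))) (.free 1 [0,2,21]))), .t 13 (nat_lit 0xc0f0c4f0c4e0c310c300c0d0c0c03b900b300b2004c0043) (.z (.edon 1 21 (.edon 0 14 (.node 6 10 (.leaf [1,3,6,13,11]) (.free 2 [4,5,7,8,9,10,12])) (.edon 0 19 (.leaf [14,15,16,17,18]) (.leaf [19,20,22]))) (.free 1 [0,2,21]))), .t 24 (nat_lit 0x44a038d0350034f034e04c504bb039f039e03930392035906810680051a046f046e03e403e303560355032d031f) (.z (.node 7 4 (.free 1 [7]) (.node 12 1 (.leaf [3,4,5,8,9,12,6]) (.free 4 [0,1,2,10,11,13,14,15,16,17,18,19,20,21,22])))), .t 7 (nat_lit 0xc540c530c4c0c0b0bd30bd2)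 (.z (.node 4 16 (.edon 0 13 (.free 2 [0,1,2,3,4,6,11]) (.node 14 19 (.leaf [13,14,20,22,21]) (.leaf [15,18,19,17]))) (.free 2 [5,7,8,9,10,12,16]))), .t 11 (nat_lit 0x4c404c204c10543054204d504d400040c0f0c0e) (.z (.edon 9 5 (.node 0 12 (.edon 14 19 (.leaf [14,15,16,18]) (.free 2 [0,13,17,19,20,21,22])) (.node 3 10 (.leaf [1,3,11,2]) (.leaf [4,9,12,10,6]))) (.free 1 [5,7,8]))), .t 13 (nat_lit 0xc500c320c2f0c170c140c0f0c0e0422017801750050004c) (.z (.edon 1 21 (.edon 0 14 (.node 3 10 (.leaf [1,3,12,13,11]) (.free 2 [4,5,6,7,8,9,10])) (.edon 0 19 (.leaf [14,15,16,18,17]) (.leaf [19,20,22]))) (.free 1 [0,2,21]))), .t 11 (nat_lit 0xc580c540c5302f902f801a601a400270c5f0c5a) (.z (.node 4 16 (.node 0 14 (.node 0 20 (.leaf [0,21,22]) (.leaf [15,18,19,20,17])) (.node 1 6 (.leaf [1,11,13,14,2]) (.leaf [3,4,6]))) (.free 2 [5,7,8,9,10,12,16]))), .t 15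 (nat_lit 0xf800f500f00c500c320c2f0c170c140c0f0c0e01780175011a0118) (.z (.node 1 9 (.edon 1 21 (.edon 0 14 (.leaf [1,10,12,13,11]) (.edon 0 19 (.leaf [14,15,16,18,17]) (.leaf [19,20,22]))) (.leaf [0,2,21])) (.free 2 [3,4,5,6,7,8,9]))), .t 13 (nat_lit 0xc500c320c2f0c170c140c0f0c0e03ff00fc00f8004c0046) (.z (.edon 1 21 (.edon 0 14 (.node 3 12 (.leaf [1,3,10,13,11]) (.free 2 [4,5,6,7,8,9,12])) (.edon 0 19 (.leaf [14,15,16,18,17]) (.leaf [19,20,22]))) (.free 1 [0,2,21]))), .t 24 (nat_lit 0x44a038d0350034f034e04c304ba039d039c039103900358067f067e0519046f046e03e203e103560355032c031f) (.z (.node 7 4 (.free 1 [7]) (.node 11 1 (.leaf [3,4,5,8,9,11,6]) (.free 4 [0,1,2,10,12,13,14,15,16,17,18,19,20,21,22])))), .t 8 (nat_lit 0x7cc06e506e406d806d606ca06c9) (.z (.node 10 3 (.node 6 7 (.leaf [6,8,9,11,10]) (.leaf [4,5,7])) (.free 4 [0,1,2,3,12,13,14,15,16,17,18,19,20,21,22]))),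 .t 1 (nat_lit 0) (.cn 2 3), .t 7 (nat_lit 0x2a00041000400020c500c4d) (.z (.edon 16 4 (.node 0 11 (.edon 17 19 (.leaf [15,16,18,17]) (.free 2 [0,12,13,19,20,21,22])) (.leaf [1,3,6,11,2])) (.free 2 [4,5,7,8,9,10,14]))), .t 1 (nat_lit 0) (.cn 2 3), .t 24 (nat_lit 0x44a038d0350034f034e04c704bd03a303a203970396035b06850684051c046f046e03e803e703560355032f031f) (.z (.node 7 4 (.free 1 [7]) (.node 14 1 (.leaf [3,4,5,8,9,14,6]) (.free 4 [0,1,2,10,11,12,13,15,16,17,18,19,20,21,22])))), .t 7 (nat_lit 0x2a00041000400020c4f0c4e) (.z (.edon 16 4 (.node 0 11 (.edon 18 19 (.leaf [15,16,17,18]) (.free 2 [0,12,13,19,20,21,22])) (.leaf [1,3,6,11,2])) (.free 2 [4,5,7,8,9,10,14]))), .t 8 (nat_lit 0x7d206e906e806dd06dc06d006cf) (.z (.node 10 3 (.node 6 7 (.leaf [6,8,9,14,10]) (.leaf [4,5,7])) (.free 4 [0,1,2,3,11,12,13,15,16,17,18,19,20,21,22]))), .t 11 (nat_lit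 0xc580c540c5302eb02ea0178017600260c5f0c5a) (.z (.node 4 16 (.node 0 13 (.node 0 20 (.leaf [0,21,22]) (.leaf [15,18,19,20,17])) (.node 1 6 (.leaf [1,11,12,13,2]) (.leaf [3,4,6]))) (.free 2 [5,7,8,9,10,14,16]))), .t 13 (nat_lit 0xc500bf80bf50be10bde0bd90bd803b600b100b0004b0042) (.z (.edon 16 4 (.edon 1 21 (.edon 0 13 (.leaf [1,3,6,12,11]) (.edon 0 19 (.leaf [13,15,16,18,17]) (.leaf [19,20,22]))) (.leaf [0,2,21])) (.free 2 [4,5,7,8,9,10,14]))), .t 4 (nat_lit 0x209880986) (.z (.edon 16 4 (.node 0 6 (.edon 0 16 (.leaf [0,11,12,13,15]) (.free 2 [16,17,18,19,20,21,22])) (.leaf [1,3,6,2])) (.free 2 [4,5,7,8,9,10,14]))), .t 12 (nat_lit 0xabc0ad60ad40ac40ac302a00041000400020b4b0b4a) (.z (.edon 0 20 (.edon 4 16 (.free 2 [4,5,7,8,9,10,14]) (.node 0 11 (.node 0 17 (.leaf [0,18,19]) (.leaf [12,15,16,17,13])) (.leaf [1,3,6,11,2]))) (.free 1 [20,21,22]))),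 .t 5 (nat_lit 0x2a0004100040002) (.z (.edon 16 4 (.node 0 11 (.edon 0 16 (.leaf [0,12,13,15]) (.free 2 [16,17,18,19,20,21,22])) (.leaf [1,3,6,11,2])) (.free 2 [4,5,7,8,9,10,14]))), .t 7 (nat_lit 0xb820b8002a0004100040002) (.z (.node 16 0 (.edon 4 16 (.free 2 [4,5,7,8,9,10,12]) (.edon 0 13 (.leaf [1,3,6,11,2]) (.leaf [13,16,15,14]))) (.free 2 [0,17,18,19,20,21,22]))), .t 1 (nat_lit 0) (.cn 2 3), .t 5 (nat_lit 0x2a0004100040002) (.z (.edon 16 4 (.node 0 11 (.edon 0 16 (.leaf [0,13,14,15]) (.free 2 [16,17,18,19,20,21,22])) (.leaf [1,3,6,11,2])) (.free 2 [4,5,7,8,9,10,12]))), .t 6 (nat_lit 0x2c302c200a600a50019) (.z (.edon 0 16 (.edon 3 10 (.free 2 [3,4,5,7,8,9,13]) (.node 0 11 (.leaf [0,12,14,15]) (.leaf [1,6,10,11,2]))) (.free 2 [16,17,18,19,20,21,22]))), .t 5 (nat_lit 0x2a0004100040002) (.z (.edon 16 4 (.node 0 11 (.edon 0 16 (.leaf [0,12,14,15])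 (.free 2 [16,17,18,19,20,21,22])) (.leaf [1,3,6,11,2])) (.free 2 [4,5,7,8,9,10,13]))), .t 1 (nat_lit 0) (.cp 2 3)] (by decide +kernel) (by decide +kernel)
theorem b109 : B 3488 3520 := Blk.of_chk [.t 7 (nat_lit 0x2a20044000400030c0d0c0c) (.z (.edon 16 4 (.node 0 11 (.edon 14 19 (.leaf [14,15,16,17]) (.free 2 [0,12,18,19,20,21,22])) (.leaf [1,3,10,11,2])) (.free 2 [4,5,6,7,8,9,13]))), .t 11 (nat_lit 0xc3a0c380c3402d402d300f400f200210c440c3e) (.z (.node 1 9 (.node 0 12 (.node 0 20 (.leaf [0,21,22]) (.node 14 16 (.leaf [14,17,19,20,18]) (.leaf [13,15,16]))) (.leaf [1,10,11,12,2])) (.free 2 [3,4,5,6,7,8,9]))), .t 10 (nat_lit 0xc550c380c340c260c210c1c0c1a02d402d3) (.z (.edon 0 20 (.node 4 16 (.edon 0 14 (.node 2 4 (.leaf [0,2,10,11,12]) (.leaf [1,3,4])) (.leaf [14,15,17,19,18])) (.free 2 [5,6,7,8,9,13,16])) (.free 1 [20,21,22]))), .t 12 (nat_lit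 0xafb0b1a0b180b030b0202a20044000400030b4b0b4a) (.z (.edon 0 20 (.edon 4 16 (.free 2 [4,5,6,7,8,9,13]) (.node 0 11 (.node 0 17 (.leaf [0,18,19]) (.leaf [12,15,16,17,14])) (.leaf [1,3,10,11,2]))) (.free 1 [20,21,22]))), .t 5 (nat_lit 0x2a2004400040003) (.z (.edon 16 4 (.node 0 11 (.edon 0 16 (.leaf [0,12,14,15]) (.free 2 [16,17,18,19,20,21,22])) (.leaf [1,3,10,11,2])) (.free 2 [4,5,6,7,8,9,13]))), .t 11 (nat_lit 0xc3b0c370c3502d402d300f400f200210c440c3e) (.z (.node 1 9 (.node 0 12 (.node 0 20 (.leaf [0,21,22]) (.node 14 16 (.leaf [14,18,19,20,17]) (.leaf [13,15,16]))) (.leaf [1,10,11,12,2])) (.free 2 [3,4,5,6,7,8,9]))), .t 10 (nat_lit 0xc180c170c140c370c350c250c2302d402d3) (.z (.edon 0 20 (.node 4 16 (.edon 0 14 (.node 2 4 (.leaf [0,2,10,11,12]) (.leaf [1,3,4])) (.leaf [14,15,18,19,17])) (.free 2 [5,6,7,8,9,13,16])) (.free 1 [20,21,22]))),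 .t 13 (nat_lit 0xc180c170c140c370c350c250c230557055503fc03fa033f) (.z (.edon 0 20 (.node 4 16 (.edon 0 14 (.edon 0 3 (.leaf [0,1,2]) (.leaf [3,4,12,11,10])) (.leaf [14,15,18,19,17])) (.free 2 [5,6,7,8,9,13,16])) (.free 1 [20,21,22]))), .t 7 (nat_lit 0x2a20044000400030c0f0c0e) (.z (.edon 16 4 (.node 0 11 (.edon 14 19 (.leaf [14,15,16,18]) (.free 2 [0,12,17,19,20,21,22])) (.leaf [1,3,10,11,2])) (.free 2 [4,5,6,7,8,9,13]))), .t 10 (nat_lit 0xc3b0c370c3502a20044000400030c440c3e) (.z (.edon 16 4 (.node 0 11 (.node 0 20 (.leaf [0,21,22]) (.node 14 16 (.leaf [14,18,19,20,17]) (.leaf [12,15,16]))) (.leaf [1,3,10,11,2])) (.free 2 [4,5,6,7,8,9,13]))), .t 8 (nat_lit 0x9850980097d09ff09fb09ae09ac) (.z (.node 0 7 (.edon 0 11 (.leaf [0,8,9,10]) (.edon 0 16 (.leaf [11,13,15,14,12]) (.free 2 [16,17,18,19,20,21,22]))) (.free 2 [1,2,3,4,5,6,7]))), .t 7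 (nat_lit 0xc6d0c4c0c430c4202d402d3) (.z (.node 4 16 (.edon 0 14 (.node 2 4 (.leaf [0,2,10,11,12]) (.leaf [1,3,4])) (.edon 15 20 (.leaf [15,18,19]) (.leaf [14,17,20,22,21]))) (.free 2 [5,6,7,8,9,13,16]))), .t 7 (nat_lit 0xc6f0c4c0c4a0c4902d402d3) (.z (.node 4 16 (.edon 0 14 (.node 2 4 (.leaf [0,2,10,11,12]) (.leaf [1,3,4])) (.edon 15 20 (.leaf [15,17,19]) (.leaf [14,18,20,22,21]))) (.free 2 [5,6,7,8,9,13,16]))), .t 12 (nat_lit 0x4400210004000307e2069806970692069106830682) (.z (.edon 0 16 (.node 0 13 (.leaf [0,14,15]) (.edon 4 11 (.node 5 7 (.leaf [5,8,9,13,12]) (.leaf [4,6,7])) (.leaf [1,3,11,10,2]))) (.free 2 [16,17,18,19,20,21,22]))), .t 5 (nat_lit 0x44002100040003) (.z (.edon 16 4 (.node 0 11 (.edon 0 16 (.leaf [0,12,14,15]) (.free 2 [16,17,18,19,20,21,22])) (.leaf [1,3,11,10,2])) (.free 2 [4,5,6,7,8,9,13]))), .t 7 (nat_lit 0xafe0afb0044002100040003)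 (.z (.node 16 0 (.edon 4 16 (.free 2 [4,5,6,7,8,9,13]) (.edon 0 12 (.leaf [1,3,11,10,2]) (.leaf [12,15,16,14]))) (.free 2 [0,17,18,19,20,21,22]))), .t 10 (nat_lit 0xc3b0c370c3507cc07c90ac00abb0c440c3e) (.z (.node 0 7 (.node 0 11 (.node 0 20 (.leaf [0,21,22]) (.node 14 16 (.leaf [14,18,19,20,17]) (.leaf [12,13,16,15]))) (.leaf [8,9,11,10])) (.free 2 [1,2,3,4,5,6,7]))), .t 10 (nat_lit 0x7cc07c90c0f0bd90bd70ba90ba70b900b8e) (.z (.node 0 7 (.node 0 11 (.edon 14 19 (.leaf [13,16,18,15,14]) (.free 2 [0,12,17,19,20,21,22])) (.leaf [8,9,11,10])) (.free 2 [1,2,3,4,5,6,7]))), .t 8 (nat_lit 0x98d0980097d0a050a0109b509b3) (.z (.node 0 7 (.edon 0 11 (.leaf [0,8,9,10]) (.node 15 16 (.free 2 [15,17,18,19,20,21,22]) (.leaf [11,13,16,14,12]))) (.free 2 [1,2,3,4,5,6,7]))), .t 6 (nat_lit 0xc250c220c6d02d402d3) (.z (.node 4 16 (.edon 0 14 (.node 2 4 (.leaf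 [0,2,10,11,12]) (.leaf [1,3,4])) (.node 17 19 (.leaf [17,20,22,21]) (.leaf [14,18,19,15]))) (.free 2 [5,6,7,8,9,13,16]))), .t 10 (nat_lit 0x7cc07c90c0d0bd60bd40ba60ba40b890b87) (.z (.node 0 7 (.node 0 11 (.edon 14 19 (.leaf [13,16,17,15,14]) (.free 2 [0,12,18,19,20,21,22])) (.leaf [8,9,11,10])) (.free 2 [1,2,3,4,5,6,7]))), .t 1 (nat_lit 0) (.cn 2 3), .t 10 (nat_lit 0x7cd07cc07c907f507f207d707d60b820b80) (.z (.node 0 7 (.node 0 12 (.node 0 16 (.free 2 [0,17,18,19,20,21,22]) (.leaf [13,16,15,14])) (.leaf [8,9,11,12,10])) (.free 2 [1,2,3,4,5,6,7]))), .t 10 (nat_lit 0x7cc07c90c0d0bd60bd40ba60ba40b890b87) (.z (.node 0 7 (.node 0 11 (.edon 19 21 (.leaf [19,20,22]) (.edon 14 18 (.leaf [13,16,17,15,14]) (.leaf [0,12,18,21]))) (.leaf [8,9,11,10])) (.free 2 [1,2,3,4,5,6,7]))), .t 5 (nat_lit 0xc620c6f0c660c64) (.z (.edon 0 15 (.free 4 [0,1,2,3,4,5,6,7,8,9,10,11,12,13,14])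 (.node 15 19 (.leaf [15,20,22,21,18]) (.leaf [16,17,19])))), .t 5 (nat_lit 0x7cc07c90ab60ab4) (.z (.node 0 7 (.node 0 11 (.edon 15 21 (.free 2 [15,16,17,18,19,20,22]) (.leaf [0,12,13,14,21])) (.leaf [8,9,11,10])) (.free 2 [1,2,3,4,5,6,7]))), .t 10 (nat_lit 0x7cc07c90c5f0b780b650b620b610ba60ba4) (.z (.node 0 7 (.node 0 11 (.node 0 20 (.leaf [0,21,22]) (.edon 14 19 (.leaf [13,16,17,14]) (.leaf [12,19,20,18,15]))) (.leaf [8,9,11,10])) (.free 2 [1,2,3,4,5,6,7]))), .t 7 (nat_lit 0x7cc07c90b640b630ba60ba4) (.z (.node 0 7 (.node 0 11 (.edon 14 19 (.leaf [13,16,17,14]) (.edon 19 21 (.leaf [19,20,22]) (.leaf [0,12,15,18,21]))) (.leaf [8,9,11,10])) (.free 2 [1,2,3,4,5,6,7]))), .t 10 (nat_lit 0xc570c550c5207cc07c90a9f0a9a0c5f0c5a) (.z (.node 0 7 (.node 0 11 (.node 0 20 (.leaf [0,21,22]) (.node 15 16 (.leaf [15,17,19,20,18]) (.leaf [12,13,16,14])))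 (.leaf [8,9,11,10])) (.free 2 [1,2,3,4,5,6,7]))), .t 5 (nat_lit 0x7cc07c90b3f0b3e) (.z (.node 0 7 (.node 0 11 (.node 14 22 (.leaf [0,12,14,18,21]) (.free 2 [13,15,16,17,19,20,22])) (.leaf [8,9,11,10])) (.free 2 [1,2,3,4,5,6,7]))), .t 7 (nat_lit 0xc570c550c520c5f0c5a0b48) (.z (.node 0 7 (.edon 0 11 (.leaf [0,8,9,10]) (.node 15 16 (.node 14 20 (.leaf [12,14,22,21]) (.leaf [15,17,19,20,18])) (.leaf [11,13,16]))) (.free 2 [1,2,3,4,5,6,7]))), .t 7 (nat_lit 0xc5a0c4a0b7a0b480b410b40) (.z (.node 0 7 (.edon 0 11 (.leaf [0,8,9,10]) (.node 15 16 (.node 14 20 (.leaf [12,14,18,22,21]) (.leaf [15,17,19,20])) (.leaf [11,13,16]))) (.free 2 [1,2,3,4,5,6,7])))] (by decide +kernel) (by decide +kernel)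
theorem b110 : B 3520 3552 := Blk.of_chk [.t 10 (nat_lit 0xc3a0c380c3407cc07c90ac00abb0c440c3e) (.z (.node 0 7 (.node 0 11 (.node 0 20 (.leaf [0,21,22]) (.node 14 16 (.leaf [14,17,19,20,18]) (.leaf [12,13,16,15]))) (.leaf [8,9,11,10])) (.free 2 [1,2,3,4,5,6,7]))), .t 7 (nat_lit 0xc570c550c520c5f0c5a0b48) (.z (.node 0 7 (.edon 0 11 (.leaf [0,8,9,10]) (.node 12 16 (.node 14 20 (.leaf [12,14,22,21]) (.leaf [15,17,19,20,18])) (.leaf [11,13,16]))) (.free 2 [1,2,3,4,5,6,7]))), .t 9 (nat_lit 0xb020b280b250b0d0b0b0b560b550c6f) (.z (.node 0 7 (.edon 0 11 (.leaf [0,8,9,10]) (.node 15 16 (.node 18 19 (.leaf [18,20,22,21]) (.leaf [12,15,17,19,14])) (.leaf [11,13,16]))) (.free 2 [1,2,3,4,5,6,7]))), .t 12 (nat_lit 0xafb0b1a0b180b030b02029f0040000300020b4b0b4a) (.z (.edon 0 20 (.edon 4 16 (.free 2 [4,5,7,8,9,11,13]) (.node 0 10 (.node 0 17 (.leaf [0,18,19])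 (.leaf [12,15,16,17,14])) (.leaf [1,3,6,10,2]))) (.free 1 [20,21,22]))), .t 12 (nat_lit 0xafb0b1a0b180b030b02029d003c000300010b4b0b4a) (.z (.edon 0 20 (.edon 4 16 (.free 2 [4,6,7,8,9,11,13]) (.node 0 10 (.node 0 17 (.leaf [0,18,19]) (.leaf [12,15,16,17,14])) (.leaf [1,3,5,10,2]))) (.free 1 [20,21,22]))), .t 7 (nat_lit 0x29d003c000300010c4f0c4e) (.z (.edon 16 4 (.node 0 10 (.edon 18 19 (.leaf [15,16,17,18]) (.free 2 [0,12,14,19,20,21,22])) (.leaf [1,3,5,10,2])) (.free 2 [4,6,7,8,9,11,13]))), .t 7 (nat_lit 0x29f0040000300020c4f0c4e) (.z (.edon 16 4 (.node 0 10 (.edon 18 19 (.leaf [15,16,17,18]) (.free 2 [0,12,14,19,20,21,22])) (.leaf [1,3,6,10,2])) (.free 2 [4,5,7,8,9,11,13]))), .t 1 (nat_lit 0) (.fa 5), .t 12 (nat_lit 0x29d003c000300010c500c320c2f0c170c140c0f0c0e) (.z (.edon 16 4 (.node 0 10 (.edon 14 21 (.edon 0 19 (.leaf [14,15,16,18,17])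 (.leaf [19,20,22])) (.leaf [0,12,21])) (.leaf [1,3,5,10,2])) (.free 2 [4,6,7,8,9,11,13]))), .t 5 (nat_lit 0xb460c4c0b7c0b48) (.z (.node 0 7 (.edon 0 11 (.leaf [0,8,9,10]) (.node 12 19 (.leaf [12,20,22,21,14]) (.free 2 [11,13,15,16,17,18,19]))) (.free 2 [1,2,3,4,5,6,7]))), .t 7 (nat_lit 0x29f0040000300020c500c4d) (.z (.edon 16 4 (.node 0 10 (.edon 17 19 (.leaf [15,16,18,17]) (.free 2 [0,12,14,19,20,21,22])) (.leaf [1,3,6,10,2])) (.free 2 [4,5,7,8,9,11,13]))), .t 10 (nat_lit 0x7cc07c90ac00abb0c6c0c440c3e0c370c36) (.z (.node 0 7 (.node 0 11 (.node 0 20 (.leaf [0,21,22]) (.node 14 16 (.leaf [14,17,18,19,20]) (.leaf [12,13,16,15]))) (.leaf [8,9,11,10])) (.free 2 [1,2,3,4,5,6,7]))), .t 5 (nat_lit 0xc5c0c6d0c660c5e) (.z (.edon 0 15 (.free 4 [0,1,2,3,4,5,6,7,8,9,10,11,12,13,14]) (.node 15 19 (.leaf [15,20,22,21,17]) (.leaf [16,18,19])))), .t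 5 (nat_lit 0xc6d0c4c0c430c42) (.z (.node 0 7 (.edon 0 11 (.leaf [0,8,9,10]) (.node 14 19 (.leaf [14,17,20,22,21]) (.free 2 [11,12,13,15,16,18,19]))) (.free 2 [1,2,3,4,5,6,7]))), .t 6 (nat_lit 0x47c03640363033c0324) (.z (.edon 9 6 (.node 1 13 (.free 4 [0,1,2,10,11,12,14,15,16,17,18,19,20,21,22]) (.leaf [3,4,9,13,5])) (.free 1 [6,7,8]))), .t 6 (nat_lit 0xa1c0a170b360b340c6d) (.z (.node 0 7 (.edon 0 11 (.leaf [0,8,9,10]) (.node 12 16 (.node 17 19 (.leaf [17,20,22,21]) (.leaf [12,18,19,14])) (.leaf [11,13,16,15]))) (.free 2 [1,2,3,4,5,6,7]))), .t 4 (nat_lit 0x209470946) (.z (.edon 16 4 (.node 0 6 (.edon 15 21 (.free 2 [15,16,17,18,19,20,22]) (.leaf [0,10,12,14,21])) (.leaf [1,3,6,2])) (.free 2 [4,5,7,8,9,11,13]))), .t 10 (nat_lit 0xb240b230b210a1c0a170b700b6e0b360b35) (.z (.node 0 7 (.edon 0 11 (.leaf [0,8,9,10]) (.edon 0 20 (.node 14 16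 (.leaf [12,14,18,19,17]) (.leaf [11,13,16,15])) (.leaf [20,21,22]))) (.free 2 [1,2,3,4,5,6,7]))), .t 7 (nat_lit 0x29f0040000300020c0f0c0e) (.z (.edon 16 4 (.node 0 10 (.edon 14 19 (.leaf [14,15,16,18]) (.free 2 [0,12,17,19,20,21,22])) (.leaf [1,3,6,10,2])) (.free 2 [4,5,7,8,9,11,13]))), .t 6 (nat_lit 0xa1c0a1a0b360b340c6d) (.z (.node 0 7 (.edon 0 11 (.leaf [0,8,9,10]) (.node 12 16 (.node 17 19 (.leaf [17,20,22,21]) (.leaf [12,18,19,14])) (.leaf [11,16,15,13]))) (.free 2 [1,2,3,4,5,6,7]))), .t 5 (nat_lit 0x29d003c00030001) (.z (.edon 16 4 (.node 0 10 (.edon 0 16 (.leaf [0,12,14,15]) (.free 2 [16,17,18,19,20,21,22])) (.leaf [1,3,5,10,2])) (.free 2 [4,6,7,8,9,11,13]))), .t 5 (nat_lit 0x29f004000030002) (.z (.edon 16 4 (.node 0 10 (.edon 0 16 (.leaf [0,12,14,15]) (.free 2 [16,17,18,19,20,21,22])) (.leaf [1,3,6,10,2])) (.free 2 [4,5,7,8,9,11,13]))),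 .t 7 (nat_lit 0x54703f403f30345033c0019) (.z (.edon 0 16 (.edon 5 9 (.leaf [5,7,8]) (.node 6 11 (.node 0 10 (.leaf [0,12,14,15]) (.leaf [1,6,10,2])) (.leaf [3,4,9,13,11]))) (.free 2 [16,17,18,19,20,21,22]))), .t 1 (nat_lit 0) (.cn 2 3), .t 5 (nat_lit 0xb7c0a9109fa09f9) (.z (.node 0 7 (.edon 0 11 (.leaf [0,8,9,10]) (.edon 14 20 (.free 2 [13,14,15,16,17,18,19]) (.leaf [11,12,20,22,21]))) (.free 2 [1,2,3,4,5,6,7]))), .t 5 (nat_lit 0xc6d0b7c0b770b76) (.z (.node 0 7 (.edon 0 11 (.leaf [0,8,9,10]) (.node 12 19 (.leaf [12,17,20,22,21]) (.free 2 [11,13,14,15,16,18,19]))) (.free 2 [1,2,3,4,5,6,7]))), .t 7 (nat_lit 0x9d009ce029f004000030002) (.z (.node 16 0 (.edon 4 16 (.free 2 [4,5,7,8,9,13,14]) (.edon 0 11 (.leaf [1,3,6,10,2]) (.leaf [11,16,15,12]))) (.free 2 [0,17,18,19,20,21,22]))), .t 24 (nat_lit 0x44a038d0350034f034e04c604bc03a103a003950394035a06830682051b046f046e03e603e503560355032e031f)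 (.z (.node 7 4 (.free 1 [7]) (.node 13 1 (.leaf [3,4,5,8,9,13,6]) (.free 4 [0,1,2,10,11,12,14,15,16,17,18,19,20,21,22])))), .t 4 (nat_lit 0x208e608e4) (.z (.edon 16 4 (.node 0 6 (.edon 0 16 (.leaf [0,10,11,12,15]) (.free 2 [16,17,18,19,20,21,22])) (.leaf [1,3,6,2])) (.free 2 [4,5,7,8,9,13,14]))), .t 10 (nat_lit 0xb730b700b6e07cc07c90b820b800b780b75) (.z (.node 0 7 (.node 0 11 (.node 0 20 (.leaf [0,21,22]) (.node 12 16 (.leaf [12,18,19,20,17]) (.leaf [13,16,15,14]))) (.leaf [8,9,11,10])) (.free 2 [1,2,3,4,5,6,7]))), .t 1 (nat_lit 0) (.cn 2 3), .t 8 (nat_lit 0x7c907da07d907d007cf07fd07fb) (.z (.node 0 7 (.edon 0 16 (.edon 11 14 (.leaf [8,9,13,11,10]) (.leaf [0,12,14,15])) (.free 2 [16,17,18,19,20,21,22])) (.free 2 [1,2,3,4,5,6,7])))] (by decide +kernel) (by decide +kernel)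
theorem b111 : B 3552 3584 := Blk.of_chk [.t 8 (nat_lit 0x7c907dc07db07d207d108020800) (.z (.node 0 7 (.edon 0 16 (.edon 11 13 (.leaf [8,9,14,11,10]) (.leaf [0,12,13,15])) (.free 2 [16,17,18,19,20,21,22])) (.free 2 [1,2,3,4,5,6,7]))), .t 5 (nat_lit 0xc6d0a910a8c0a8b) (.z (.node 0 7 (.edon 0 11 (.leaf [0,8,9,10]) (.node 17 19 (.leaf [11,17,20,22,21]) (.free 2 [12,13,14,15,16,18,19]))) (.free 2 [1,2,3,4,5,6,7]))), .t 5 (nat_lit 0xc6d0b7c0b770b76) (.z (.node 0 7 (.edon 0 11 (.leaf [0,8,9,10]) (.node 17 19 (.leaf [12,17,20,22,21]) (.free 2 [11,13,14,15,16,18,19]))) (.free 2 [1,2,3,4,5,6,7]))), .t 7 (nat_lit 0x29f0040000300020c500c4d) (.z (.edon 16 4 (.node 0 10 (.edon 17 19 (.leaf [15,16,18,17]) (.free 2 [0,11,12,19,20,21,22])) (.leaf [1,3,6,10,2])) (.free 2 [4,5,7,8,9,13,14]))), .t 13 (nat_lit 0xb4e0c4f0c4e0b6a0b690b4b0b4a03a900a700a400440041)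 (.z (.edon 1 21 (.edon 4 16 (.free 2 [4,5,7,8,9,13,14]) (.edon 0 12 (.leaf [1,3,6,11,10]) (.edon 0 19 (.leaf [12,15,16,17,18]) (.leaf [19,20,22])))) (.free 1 [0,2,21]))), .t 1 (nat_lit 0) (.cn 7 2), .t 10 (nat_lit 0xbd907cc07c90c4f0c4e0bf70bf60bd60bd5) (.z (.node 0 7 (.node 0 11 (.edon 13 21 (.edon 0 19 (.leaf [13,15,16,17,18]) (.leaf [19,20,22])) (.leaf [0,12,14,21])) (.leaf [8,9,11,10])) (.free 2 [1,2,3,4,5,6,7]))), .t 12 (nat_lit 0x9b109dc09db09b909b8029f0040000300020a5b0a5a) (.z (.edon 0 20 (.edon 4 16 (.free 2 [4,5,7,8,9,13,15]) (.node 0 10 (.node 0 17 (.leaf [0,18,19]) (.leaf [11,14,16,17,12])) (.leaf [1,3,6,10,2]))) (.free 1 [20,21,22]))), .t 1 (nat_lit 0) (.cn 2 3), .t 1 (nat_lit 0) (.cn 2 3), .t 6 (nat_lit 0xb7a0a8f09fa09f609f5) (.z (.node 0 7 (.edon 0 11 (.leaf [0,8,9,10]) (.node 12 20 (.leaf [11,12,18,22,21]) (.free 2 [13,14,15,16,17,19,20])))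 (.free 2 [1,2,3,4,5,6,7]))), .t 10 (nat_lit 0xa9a0a970a9207cc07c90afe0afb0abf0abd) (.z (.node 0 7 (.node 0 11 (.node 0 16 (.free 2 [0,17,18,19,20,21,22]) (.leaf [12,13,15,16,14])) (.leaf [8,9,11,10])) (.free 2 [1,2,3,4,5,6,7]))), .t 10 (nat_lit 0xb7e0ba90ba70b8f0b8c07cc07c90bd90bd8) (.z (.node 0 7 (.node 0 11 (.edon 14 19 (.leaf [13,15,16,18,14]) (.free 2 [0,12,17,19,20,21,22])) (.leaf [8,9,11,10])) (.free 2 [1,2,3,4,5,6,7]))), .t 4 (nat_lit 0x208de08dc) (.z (.edon 16 4 (.node 0 6 (.edon 0 16 (.leaf [0,10,11,12,14]) (.free 2 [16,17,18,19,20,21,22])) (.leaf [1,3,6,2])) (.free 2 [4,5,7,8,9,13,15]))), .t 1 (nat_lit 0) (.cn 2 3), .t 13 (nat_lit 0xb1d0c310c300b6a0b690b1a0b1903a900a700a400440041) (.z (.edon 16 4 (.edon 1 21 (.edon 0 12 (.leaf [1,3,6,11,10]) (.edon 0 19 (.leaf [12,14,16,17,18]) (.leaf [19,20,22]))) (.leaf [0,2,21])) (.free 2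 [4,5,7,8,9,13,15]))), .t 10 (nat_lit 0x7cc07c90c440b780b420b3c0b3b0bd60bd5) (.z (.node 0 7 (.node 0 11 (.node 0 20 (.leaf [0,21,22]) (.edon 13 19 (.leaf [13,15,16,17]) (.leaf [12,19,20,18,14]))) (.leaf [8,9,11,10])) (.free 2 [1,2,3,4,5,6,7]))), .t 10 (nat_lit 0xc3a0c380c3407cc07c90abf0abc0c440c3e) (.z (.node 0 7 (.node 0 11 (.node 0 20 (.leaf [0,21,22]) (.node 14 16 (.leaf [14,17,19,20,18]) (.leaf [12,15,16,13]))) (.leaf [8,9,11,10])) (.free 2 [1,2,3,4,5,6,7]))), .t 9 (nat_lit 0x7d806ed06ea06e006de06cc06cb0003) (.z (.edon 0 16 (.node 0 12 (.leaf [0,13,14,15]) (.node 3 11 (.leaf [1,3,10,2]) (.node 6 7 (.leaf [6,8,9,12,11]) (.leaf [4,5,7])))) (.free 2 [16,17,18,19,20,21,22]))), .t 13 (nat_lit 0xc320b6b0b680b230b210b1d0b1c03a900a700a400440041) (.z (.edon 16 4 (.edon 1 21 (.edon 0 12 (.leaf [1,3,6,11,10]) (.edon 0 19 (.leaf [12,14,16,18,17])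 (.leaf [19,20,22]))) (.leaf [0,2,21])) (.free 2 [4,5,7,8,9,13,15]))), .t 1 (nat_lit 0) (.cn 2 3), .t 10 (nat_lit 0xc580c540c5307cc07c90a9f0a9a0c5f0c5a) (.z (.node 0 7 (.node 0 11 (.node 0 20 (.leaf [0,21,22]) (.node 15 16 (.leaf [15,18,19,20,17]) (.leaf [12,13,16,14]))) (.leaf [8,9,11,10])) (.free 2 [1,2,3,4,5,6,7]))), .t 11 (nat_lit 0xb820b8007d806ed06ea06e006de06cc06cb0003) (.z (.node 16 0 (.edon 0 13 (.node 3 11 (.leaf [1,3,10,2]) (.node 6 7 (.leaf [6,8,9,12,11]) (.leaf [4,5,7]))) (.leaf [13,16,15,14])) (.free 2 [0,17,18,19,20,21,22]))), .t 14 (nat_lit 0xc3a0c380c340c440c3e07d806ed06ea06e006de06cc06cb0003) (.z (.node 20 0 (.edon 0 13 (.node 3 11 (.leaf [1,3,10,2]) (.node 6 7 (.leaf [6,8,9,12,11]) (.leaf [4,5,7]))) (.node 14 16 (.leaf [14,17,19,20,18]) (.leaf [13,15,16]))) (.free 1 [0,21,22]))), .t 12 (nat_lit 0x7d907e707e607dc07db029f00400003000208360835)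 (.z (.edon 8 4 (.node 0 16 (.free 2 [0,17,18,19,20,21,22]) (.edon 8 10 (.node 12 13 (.leaf [12,15,16]) (.leaf [8,9,14,13,11])) (.leaf [1,3,6,10,2]))) (.free 1 [4,5,7]))), .t 8 (nat_lit 0x7d907e707e607dc07db08360835) (.z (.node 0 7 (.edon 0 16 (.edon 8 12 (.leaf [8,9,14,13,11]) (.leaf [0,10,12,15])) (.free 2 [16,17,18,19,20,21,22])) (.free 2 [1,2,3,4,5,6,7]))), .t 24 (nat_lit 0x44a038d0350034f034e04c804be03a503a403990398035c06870686051d046f046e03ea03e9035603550330031f) (.z (.node 7 4 (.free 1 [7]) (.node 15 1 (.leaf [3,4,5,8,9,15,6]) (.free 4 [0,1,2,10,11,12,13,14,16,17,18,19,20,21,22])))), .t 10 (nat_lit 0x7cc07c90b810b7e0c6c0b780b750b700b6f) (.z (.node 0 7 (.node 0 11 (.node 0 20 (.leaf [0,21,22]) (.node 12 16 (.leaf [12,17,18,19,20]) (.leaf [13,15,16,14]))) (.leaf [8,9,11,10])) (.free 2 [1,2,3,4,5,6,7]))), .t 7 (nat_lit 0xc6f0c4c0c4a0c4909890984)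 (.z (.node 0 7 (.edon 0 11 (.leaf [0,8,9,10]) (.edon 11 16 (.leaf [11,12,15,13]) (.node 18 19 (.leaf [14,18,20,22,21]) (.leaf [16,17,19])))) (.free 2 [1,2,3,4,5,6,7]))), .t 10 (nat_lit 0xc0f07cc07c90c4f0c4e0c310c300c0d0c0c) (.z (.node 0 7 (.node 0 11 (.edon 14 21 (.edon 0 19 (.leaf [14,15,16,17,18]) (.leaf [19,20,22])) (.leaf [0,12,13,21])) (.leaf [8,9,11,10])) (.free 2 [1,2,3,4,5,6,7]))), .t 9 (nat_lit 0x7d806ed06ea06e006de06cc06cb0003) (.z (.edon 0 16 (.node 0 12 (.leaf [0,13,14,15]) (.node 3 12 (.leaf [1,3,10,2]) (.node 6 7 (.leaf [6,8,9,12,11]) (.leaf [4,5,7])))) (.free 2 [16,17,18,19,20,21,22]))), .t 10 (nat_lit 0x7cc07c90b810b7f0c6c0b780b750b700b6f) (.z (.node 0 7 (.node 0 11 (.node 0 20 (.leaf [0,21,22]) (.node 12 16 (.leaf [12,17,18,19,20]) (.leaf [13,14,15,16]))) (.leaf [8,9,11,10])) (.free 2 [1,2,3,4,5,6,7])))] (by decide +kernel)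 (by decide +kernel)
theorem b112 : B 3584 3616 := Blk.of_chk [.t 7 (nat_lit 0x9ae09ac0c6d0c0b0c060c05) (.z (.node 0 7 (.edon 0 11 (.leaf [0,8,9,10]) (.node 13 15 (.node 17 19 (.leaf [13,17,20,22,21]) (.leaf [16,18,19])) (.leaf [11,15,14,12]))) (.free 2 [1,2,3,4,5,6,7]))), .t 7 (nat_lit 0xc6d0b7c0b770b7609fe09fc) (.z (.node 0 7 (.edon 0 11 (.leaf [0,8,9,10]) (.edon 13 16 (.leaf [11,14,15,13]) (.node 17 19 (.leaf [12,17,20,22,21]) (.leaf [16,18,19])))) (.free 2 [1,2,3,4,5,6,7]))), .t 1 (nat_lit 0) (.cn 3 3), .t 1 (nat_lit 0) (.fa 3), .t 15 (nat_lit 0x65c088306b306b206660665065a06590981097f08a208a1087f087e) (.z (.edon 1 21 (.edon 0 15 (.edon 9 10 (.leaf [9,14,13,12,11]) (.edon 0 5 (.leaf [1,3,4]) (.leaf [5,6,7,8,10]))) (.free 2 [15,16,17,18,19,20,22])) (.free 1 [0,2,21]))), .t 7 (nat_lit 0x29d003c0003000107d807d5) (.z (.edon 0 16 (.node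 0 12 (.leaf [0,13,14,15]) (.edon 8 10 (.leaf [8,9,12,11]) (.edon 4 5 (.leaf [4,6,7]) (.leaf [1,3,5,10,2])))) (.free 2 [16,17,18,19,20,21,22]))), .t 8 (nat_lit 0x7c907d807d507ce07cd07f607f4) (.z (.node 0 7 (.node 0 12 (.edon 0 16 (.leaf [0,13,14,15]) (.free 2 [16,17,18,19,20,21,22])) (.leaf [8,9,12,11,10])) (.free 2 [1,2,3,4,5,6,7]))), .t 7 (nat_lit 0x7d807d5029f004000030002) (.z (.edon 0 16 (.node 0 12 (.leaf [0,13,14,15]) (.edon 4 8 (.leaf [4,5,7]) (.node 6 12 (.leaf [1,3,6,10,2]) (.leaf [8,9,12,11])))) (.free 2 [16,17,18,19,20,21,22]))), .t 1 (nat_lit 0) (.cn 7 2), .t 10 (nat_lit 0x70e070d070c08a908a80738073607120711) (.z (.edon 0 16 (.edon 0 7 (.free 2 [0,1,2,3,4,5,6]) (.node 11 12 (.leaf [7,8,11,13,10]) (.leaf [9,15,14,12]))) (.free 2 [16,17,18,19,20,21,22]))), .t 1 (nat_lit 0) (.fa 4), .t 1 (nat_lit 0) (.cn 3 2), .t 1 (nat_lit 0)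 (.fa 4), .t 1 (nat_lit 0) (.cn 3 3), .t 13 (nat_lit 0x7f2080d080c07fc07fa0c580c540c53082408220c5f0c5a) (.z (.node 0 7 (.node 8 16 (.node 0 13 (.node 0 20 (.leaf [0,21,22]) (.leaf [15,18,19,20,17])) (.leaf [8,11,12,13,10])) (.leaf [9,14,16])) (.free 2 [1,2,3,4,5,6,7]))), .t 13 (nat_lit 0x7f2080d080c07fc07fa0c570c550c52082408220c5f0c5a) (.z (.node 0 7 (.node 8 16 (.node 0 13 (.node 0 20 (.leaf [0,21,22]) (.leaf [15,17,19,20,18])) (.leaf [8,11,12,13,10])) (.leaf [9,14,16])) (.free 2 [1,2,3,4,5,6,7]))), .t 10 (nat_lit 0xb7e0ba90ba70b8f0b8c07cc07c90bd90bd8) (.z (.node 0 7 (.node 0 11 (.edon 0 20 (.node 12 18 (.leaf [0,12,17,19]) (.leaf [13,15,16,18,14])) (.leaf [20,21,22])) (.leaf [8,9,11,10])) (.free 2 [1,2,3,4,5,6,7]))), .t 1 (nat_lit 0) (.cn 3 3), .t 10 (nat_lit 0x7cc07c90c3e0b750b420b300b2e0bd90bd8) (.z (.node 0 7 (.node 0 11 (.node 0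 20 (.leaf [0,21,22]) (.edon 13 19 (.leaf [13,15,16,18]) (.leaf [12,19,20,17,14]))) (.leaf [8,9,11,10])) (.free 2 [1,2,3,4,5,6,7]))), .t 7 (nat_lit 0x7cc07c90b320b310bd90bd8) (.z (.node 0 7 (.node 0 11 (.edon 13 19 (.leaf [13,15,16,18]) (.edon 19 21 (.leaf [19,20,22]) (.leaf [0,12,14,17,21]))) (.leaf [8,9,11,10])) (.free 2 [1,2,3,4,5,6,7]))), .t 7 (nat_lit 0xc6d0c4c0c430c4209890987) (.z (.node 0 7 (.edon 0 11 (.leaf [0,8,9,10]) (.edon 12 16 (.leaf [11,15,13,12]) (.node 17 19 (.leaf [14,17,20,22,21]) (.leaf [16,18,19])))) (.free 2 [1,2,3,4,5,6,7]))), .t 7 (nat_lit 0xc6d0c4c0c430c4209890987) (.z (.node 0 7 (.edon 0 11 (.leaf [0,8,9,10]) (.edon 13 16 (.leaf [11,15,13,12]) (.node 17 19 (.leaf [14,17,20,22,21]) (.leaf [16,18,19])))) (.free 2 [1,2,3,4,5,6,7]))), .t 10 (nat_lit 0xc3b0c370c3507cc07c90abf0abc0c440c3e) (.z (.node 0 7 (.node 0 11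 (.node 0 20 (.leaf [0,21,22]) (.node 14 16 (.leaf [14,18,19,20,17]) (.leaf [12,15,16,13]))) (.leaf [8,9,11,10])) (.free 2 [1,2,3,4,5,6,7]))), .t 1 (nat_lit 0) (.cn 3 3), .t 1 (nat_lit 0) (.cn 2 3), .t 6 (nat_lit 0x29d003c000300010c6d) (.z (.node 7 19 (.node 0 10 (.edon 0 17 (.leaf [0,12,13,14]) (.leaf [17,20,22,21])) (.edon 4 5 (.leaf [4,6,7]) (.leaf [1,3,5,10,2]))) (.free 2 [8,9,11,15,16,18,19]))), .t 6 (nat_lit 0x29f0040000300020c6d) (.z (.node 7 19 (.node 0 10 (.edon 0 17 (.leaf [0,12,13,14]) (.leaf [17,20,22,21])) (.edon 4 6 (.leaf [4,5,7]) (.leaf [1,3,6,10,2]))) (.free 2 [8,9,11,15,16,18,19]))), .t 1 (nat_lit 0) (.cp 3 3), .t 8 (nat_lit 0xbd90a730a720a2f0a2e0a230a21) (.z (.node 0 7 (.edon 0 11 (.leaf [0,8,9,10]) (.edon 15 19 (.leaf [11,16,18,15,13]) (.free 2 [12,14,17,19,20,21,22]))) (.free 2 [1,2,3,4,5,6,7]))), .t 10 (nat_lit 0xb730b700b6e0b780b75029d003c00030001)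 (.z (.edon 2 22 (.edon 4 16 (.free 2 [4,6,7,8,9,13,15]) (.edon 0 11 (.leaf [1,3,5,10,2]) (.node 12 16 (.leaf [12,18,19,20,17]) (.leaf [11,14,16])))) (.free 1 [0,21,22]))), .t 15 (nat_lit 0x7d507e207df07da07d90c500c320c2f0c170c140c0f0c0e08250823) (.z (.edon 1 21 (.edon 0 14 (.node 7 11 (.free 2 [1,3,4,5,6,7,10]) (.leaf [8,9,13,12,11])) (.edon 0 19 (.leaf [14,15,16,18,17]) (.leaf [19,20,22]))) (.free 1 [0,2,21]))), .t 12 (nat_lit 0x9b109dc09db09b909b8029d003c000300010a5b0a5a) (.z (.edon 0 20 (.edon 4 16 (.free 2 [4,6,7,8,9,13,15]) (.node 0 10 (.node 0 17 (.leaf [0,18,19]) (.leaf [11,14,16,17,12])) (.leaf [1,3,5,10,2]))) (.free 1 [20,21,22])))] (by decide +kernel) (by decide +kernel)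

end Pool.Agent.GCP.F8_9
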