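import Pool.Agent.GCP.F8_9Db

set_option autoImplicit false
set_option maxRecDepth 100000

/-! # Blocks F8_9B3 (generated) -/

namespace Pool.Agent.GCP.F8_9

open Pool.Agent.GCP DB

theorem b113 : B 3616 3648 := Blk.of_chk [.t 17 (nat_lit 0xc500c320c2f0c170c140c0f0c0e06c30676067506630661065e065d07e207df) (.z (.edon 1 21 (.edon 0 5 (.leaf [1,3,4]) (.edon 0 14 (.edon 8 11 (.leaf [8,9,13,12]) (.leaf [5,6,7,11,10])) (.edon 0 19 (.leaf [14,15,16,18,17]) (.leaf [19,20,22])))) (.free 1 [0,2,21]))), .t 7 (nat_lit 0x29d003c000300010c500c4d) (.z (.edon 16 4 (.node 0 10 (.edon 17 19 (.leaf [15,16,18,17]) (.free 2 [0,11,12,19,20,21,22])) (.leaf [1,3,5,10,2])) (.free 2 [4,6,7,8,9,13,14]))), .t 1 (nat_lit 0) (.cn 2 3), .t 13 (nat_lit 0xb4e0c4f0c4e0b6a0b690b4b0b4a036c008700840044003d) (.z (.edon 1 21 (.edon 4 16 (.free 2 [4,6,7,8,9,13,14]) (.edon 0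 12 (.leaf [1,3,5,11,10]) (.edon 0 19 (.leaf [12,15,16,17,18]) (.leaf [19,20,22])))) (.free 1 [0,2,21]))), .t 7 (nat_lit 0xc6f0b7c0b7a0b7909ff09fb) (.z (.node 0 7 (.edon 0 11 (.leaf [0,8,9,10]) (.edon 14 16 (.leaf [11,13,15,14]) (.node 18 19 (.leaf [12,18,20,22,21]) (.leaf [16,17,19])))) (.free 2 [1,2,3,4,5,6,7]))), .t 4 (nat_lit 0x2091f091e) (.z (.edon 16 4 (.node 0 6 (.edon 15 21 (.free 2 [15,16,17,18,19,20,22]) (.leaf [0,10,11,14,21])) (.leaf [1,3,6,2])) (.free 2 [4,5,7,8,9,12,13]))), .t 1 (nat_lit 0) (.cn 3 3), .t 1 (nat_lit 0) (.cn 2 3), .t 1 (nat_lit 0) (.fa 4), .t 13 (nat_lit 0x7cd07cc07c90c3b0c370c3507f507f207d707d60c440c3e) (.z (.node 0 7 (.node 0 12 (.node 0 20 (.leaf [0,21,22]) (.node 14 16 (.leaf [14,18,19,20,17]) (.leaf [13,15,16]))) (.leaf [8,9,11,12,10])) (.free 2 [1,2,3,4,5,6,7]))), .t 7 (nat_lit 0x9d009ce029d003c00030001)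 (.z (.node 16 0 (.edon 4 16 (.free 2 [4,6,7,8,9,13,14]) (.edon 0 11 (.leaf [1,3,5,10,2]) (.leaf [11,16,15,12]))) (.free 2 [0,17,18,19,20,21,22]))), .t 4 (nat_lit 0x108e608e4) (.z (.edon 16 4 (.node 0 5 (.edon 0 16 (.leaf [0,10,11,12,15]) (.free 2 [16,17,18,19,20,21,22])) (.leaf [1,3,5,2])) (.free 2 [4,6,7,8,9,13,14]))), .t 4 (nat_lit 0x109140913) (.z (.edon 16 4 (.node 0 5 (.edon 0 16 (.leaf [0,10,11,14,15]) (.free 2 [16,17,18,19,20,21,22])) (.leaf [1,3,5,2])) (.free 2 [4,6,7,8,9,12,13]))), .t 4 (nat_lit 0x209140913) (.z (.edon 16 4 (.node 0 6 (.edon 0 16 (.leaf [0,10,11,14,15]) (.free 2 [16,17,18,19,20,21,22])) (.leaf [1,3,6,2])) (.free 2 [4,5,7,8,9,12,13]))), .t 9 (nat_lit 0xb820b8007d807d5029f004000030002) (.z (.node 16 0 (.edon 0 13 (.node 7 11 (.edon 4 6 (.leaf [4,5,7]) (.leaf [1,3,6,10,2])) (.leaf [8,9,12,11])) (.leaf [13,16,15,14]))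 (.free 2 [0,17,18,19,20,21,22]))), .t 9 (nat_lit 0xb820b8007d807d5029d003c00030001) (.z (.node 16 0 (.edon 0 13 (.node 7 11 (.edon 4 5 (.leaf [4,6,7]) (.leaf [1,3,5,10,2])) (.leaf [8,9,12,11])) (.leaf [13,16,15,14])) (.free 2 [0,17,18,19,20,21,22]))), .t 7 (nat_lit 0xb820b80029f004000030002) (.z (.node 16 0 (.edon 4 16 (.free 2 [4,5,7,8,9,11,12]) (.edon 0 13 (.leaf [1,3,6,10,2]) (.leaf [13,16,15,14]))) (.free 2 [0,17,18,19,20,21,22]))), .t 1 (nat_lit 0) (.cn 3 2), .t 1 (nat_lit 0) (.cn 2 3), .t 5 (nat_lit 0x2a5004b00050004) (.z (.edon 0 16 (.node 0 12 (.leaf [0,13,14,15]) (.node 3 10 (.leaf [1,3,11,12,2]) (.free 2 [4,5,6,7,8,9,10]))) (.free 2 [16,17,18,19,20,21,22]))), .t 7 (nat_lit 0x2a000410004000207ce07cd) (.z (.edon 0 16 (.node 0 12 (.leaf [0,13,14,15]) (.edon 4 8 (.leaf [4,5,7]) (.edon 8 11 (.leaf [8,9,12,10]) (.leaf [1,3,6,11,2]))))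 (.free 2 [16,17,18,19,20,21,22]))), .t 1 (nat_lit 0) (.cn 2 3), .t 5 (nat_lit 0x2a2004400040003) (.z (.edon 0 16 (.node 0 12 (.leaf [0,13,14,15]) (.edon 4 10 (.free 2 [4,5,6,7,8,9,12]) (.leaf [1,3,10,11,2]))) (.free 2 [16,17,18,19,20,21,22]))), .t 7 (nat_lit 0xb820b80029d003c00030001) (.z (.node 16 0 (.edon 0 13 (.edon 4 10 (.free 2 [4,6,7,8,9,11,12]) (.leaf [1,3,5,10,2])) (.leaf [13,16,15,14])) (.free 2 [0,17,18,19,20,21,22]))), .t 7 (nat_lit 0xb820b8002a2004400040003) (.z (.node 16 0 (.edon 0 13 (.edon 4 10 (.free 2 [4,5,6,7,8,9,12]) (.leaf [1,3,10,11,2])) (.leaf [13,16,15,14])) (.free 2 [0,17,18,19,20,21,22]))), .t 5 (nat_lit 0x29f004000030002) (.z (.edon 16 4 (.node 0 10 (.edon 0 16 (.leaf [0,12,13,15]) (.free 2 [16,17,18,19,20,21,22])) (.leaf [1,3,6,10,2])) (.free 2 [4,5,7,8,9,11,14]))), .t 7 (nat_lit 0xabf0abc029f004000030002)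 (.z (.node 16 0 (.edon 4 16 (.free 2 [4,5,7,8,9,11,14]) (.edon 0 12 (.leaf [1,3,6,10,2]) (.leaf [12,15,16,13]))) (.free 2 [0,17,18,19,20,21,22]))), .t 10 (nat_lit 0xb050aff0afa07cc07c90b4e0b4c0b1d0b1c) (.z (.node 0 7 (.node 0 11 (.edon 15 19 (.leaf [12,14,16,18,15]) (.free 2 [0,13,17,19,20,21,22])) (.leaf [8,9,11,10])) (.free 2 [1,2,3,4,5,6,7]))), .t 1 (nat_lit 0) (.cn 3 3), .t 1 (nat_lit 0) (.cp 2 3), .t 9 (nat_lit 0xc570c550c520c5f0c5a000305a4059f) (.z (.edon 2 22 (.node 4 16 (.edon 0 15 (.edon 4 10 (.leaf [4,11,13,12]) (.leaf [1,3,10,2])) (.leaf [15,17,19,20,18])) (.free 2 [5,6,7,8,9,14,16])) (.free 1 [0,21,22]))), .t 10 (nat_lit 0xa9b0a960a9307cc07c90aff0afa0ac00abe) (.z (.node 0 7 (.node 0 11 (.node 0 16 (.free 2 [0,17,18,19,20,21,22]) (.leaf [12,14,16,15,13])) (.leaf [8,9,11,10])) (.free 2 [1,2,3,4,5,6,7])))] (by decide +kernel)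 (by decide +kernel)
theorem b114 : B 3648 3680 := Blk.of_chk [.t 9 (nat_lit 0xc580c540c530c5f0c5a000305a4059f) (.z (.edon 2 22 (.node 4 16 (.edon 0 15 (.edon 4 10 (.leaf [4,11,13,12]) (.leaf [1,3,10,2])) (.leaf [15,18,19,20,17])) (.free 2 [5,6,7,8,9,14,16])) (.free 1 [0,21,22]))), .t 10 (nat_lit 0xc580c540c530c5f0c5a02a4004600060003) (.z (.edon 2 22 (.node 4 16 (.edon 0 15 (.node 3 12 (.leaf [1,3,10,13,2]) (.leaf [4,11,12])) (.leaf [15,18,19,20,17])) (.free 2 [5,6,7,8,9,14,16])) (.free 1 [0,21,22]))), .t 10 (nat_lit 0xc570c550c520c5f0c5a02a4004600060003) (.z (.edon 2 22 (.node 4 16 (.edon 0 15 (.node 3 12 (.leaf [1,3,10,13,2]) (.leaf [4,11,12])) (.leaf [15,17,19,20,18])) (.free 2 [5,6,7,8,9,14,16])) (.free 1 [0,21,22]))), .t 13 (nat_lit 0xad90bf70bf60b6a0b690ad60ad503a900a700a400440041) (.z (.edon 1 21 (.edon 4 16 (.free 2 [4,5,7,8,9,14,15])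 (.edon 0 12 (.leaf [1,3,6,11,10]) (.edon 0 19 (.leaf [12,13,16,17,18]) (.leaf [19,20,22])))) (.free 1 [0,2,21]))), .t 4 (nat_lit 0x208d808d6) (.z (.edon 16 4 (.node 0 6 (.edon 0 16 (.leaf [0,10,11,12,13]) (.free 2 [16,17,18,19,20,21,22])) (.leaf [1,3,6,2])) (.free 2 [4,5,7,8,9,14,15]))), .t 13 (nat_lit 0xbf80b6b0b680adf0ade0ad90ad803a900a700a400440041) (.z (.edon 1 21 (.edon 4 16 (.free 2 [4,5,7,8,9,14,15]) (.edon 0 12 (.leaf [1,3,6,11,10]) (.edon 0 19 (.leaf [12,13,16,18,17]) (.leaf [19,20,22])))) (.free 1 [0,2,21]))), .t 1 (nat_lit 0) (.cn 2 3), .t 1 (nat_lit 0) (.cn 2 3), .t 1 (nat_lit 0) (.cn 2 3), .t 4 (nat_lit 0x210af20af1) (.z (.node 1 9 (.node 0 11 (.node 13 22 (.leaf [0,12,13,18,21]) (.free 2 [14,15,16,17,19,20,22])) (.leaf [1,10,11,2])) (.free 2 [3,4,5,6,7,8,9]))), .t 9 (nat_lit 0xc550b710b6d0b5f0b5b0b560b550c0b) (.z (.node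 4 16 (.edon 0 12 (.free 2 [0,1,2,3,4,6,11]) (.node 13 19 (.leaf [13,20,22,21]) (.leaf [12,15,17,19,18]))) (.free 2 [5,7,8,9,10,14,16]))), .t 12 (nat_lit 0xabc0ad60ad40ac40ac302a20044000400030b4b0b4a) (.z (.edon 0 20 (.edon 4 16 (.free 2 [4,5,6,7,8,9,14]) (.node 0 11 (.node 0 17 (.leaf [0,18,19]) (.leaf [12,15,16,17,13])) (.leaf [1,3,10,11,2]))) (.free 1 [20,21,22]))), .t 10 (nat_lit 0xc6d0c0b0c060c05055703fc03f703440340) (.z (.edon 0 3 (.free 1 [0,1,2]) (.node 4 16 (.edon 0 13 (.leaf [3,4,10,12,11]) (.edon 15 20 (.leaf [15,18,19]) (.leaf [13,17,20,22,21]))) (.free 2 [5,6,7,8,9,14,16])))), .t 10 (nat_lit 0xc6f0c0b0c090c08055703fc03f703440340) (.z (.edon 0 3 (.free 1 [0,1,2]) (.node 4 16 (.edon 0 13 (.leaf [3,4,10,12,11]) (.edon 15 20 (.leaf [15,17,19]) (.leaf [13,18,20,22,21]))) (.free 2 [5,6,7,8,9,14,16])))), .t 13 (nat_lit 0xbe20be10bde0bfd0bfb0bef0bed055703fc03f703440340)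 (.z (.edon 0 20 (.node 4 16 (.edon 0 13 (.edon 0 3 (.leaf [0,1,2]) (.leaf [3,4,10,12,11])) (.leaf [13,15,18,19,17])) (.free 2 [5,6,7,8,9,14,16])) (.free 1 [20,21,22]))), .t 5 (nat_lit 0x2a2004400040003) (.z (.edon 16 4 (.node 0 11 (.edon 0 16 (.leaf [0,12,13,15]) (.free 2 [16,17,18,19,20,21,22])) (.leaf [1,3,10,11,2])) (.free 2 [4,5,6,7,8,9,14]))), .t 5 (nat_lit 0x29f004000030002) (.z (.edon 16 4 (.node 0 10 (.edon 0 16 (.leaf [0,11,12,13]) (.free 2 [16,17,18,19,20,21,22])) (.leaf [1,3,6,10,2])) (.free 2 [4,5,7,8,9,14,15]))), .t 12 (nat_lit 0x3a803a602c302c2029f00a600a50040000400030002) (.z (.edon 4 16 (.free 2 [4,5,7,8,9,14,15]) (.node 11 0 (.leaf [1,3,6,10,11,2]) (.free 3 [0,12,13,16,17,18,19,20,21,22])))), .t 1 (nat_lit 0) (.fa 2), .t 10 (nat_lit 0xae10adf0ade0b700b6e0aed0aec02b802b7) (.z (.edon 0 20 (.node 4 16 (.edon 0 12 (.edon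 1 5 (.leaf [1,3,4]) (.leaf [0,2,5,10,11])) (.leaf [12,13,18,19,17])) (.free 2 [6,7,8,9,14,15,16])) (.free 1 [20,21,22]))), .t 1 (nat_lit 0) (.fa 3), .t 8 (nat_lit 0xb8f0c0f0c0e0bd90bd80b810b7f) (.z (.node 0 7 (.edon 0 11 (.leaf [0,8,9,10]) (.edon 13 19 (.leaf [13,14,15,16,18]) (.free 2 [11,12,17,19,20,21,22]))) (.free 2 [1,2,3,4,5,6,7]))), .t 5 (nat_lit 0x29d003c00030001) (.z (.edon 16 4 (.node 0 10 (.edon 0 16 (.leaf [0,11,12,13]) (.free 2 [16,17,18,19,20,21,22])) (.leaf [1,3,5,10,2])) (.free 2 [4,6,7,8,9,14,15]))), .t 9 (nat_lit 0xab00aac0aa900210b420af50c500c4d) (.z (.node 1 9 (.node 0 11 (.node 0 20 (.leaf [0,21,22]) (.edon 17 19 (.leaf [15,16,18,17]) (.leaf [12,14,19,20,13]))) (.leaf [1,10,11,2])) (.free 2 [3,4,5,6,7,8,9]))), .t 8 (nat_lit 0xc500c320c2f0c170c140c0f0c0e) (.z (.node 0 7 (.edon 0 11 (.leaf [0,8,9,10]) (.edon 17 19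 (.leaf [14,15,16,18,17]) (.free 2 [11,12,13,19,20,21,22]))) (.free 2 [1,2,3,4,5,6,7]))), .t 10 (nat_lit 0xc0f086708660c4f0c4e0c310c300c0d0c0c) (.z (.edon 9 1 (.edon 19 21 (.leaf [19,20,22]) (.node 2 12 (.edon 14 21 (.leaf [14,15,16,17,18]) (.leaf [0,2,13,21])) (.leaf [9,12,11,10]))) (.free 2 [1,3,4,5,6,7,8]))), .t 10 (nat_lit 0xc4c0c0b0bd30bd2055703fc03f703440340) (.z (.edon 0 3 (.free 1 [0,1,2]) (.node 4 16 (.edon 0 13 (.leaf [3,4,10,12,11]) (.node 14 19 (.leaf [13,14,20,22,21]) (.leaf [17,18,19]))) (.free 2 [5,6,7,8,9,15,16])))), .t 6 (nat_lit 0x2d500f500f000260022) (.z (.edon 0 16 (.node 0 12 (.leaf [0,13,14,15]) (.node 1 9 (.leaf [1,10,12,11,2]) (.free 2 [3,4,5,6,7,8,9]))) (.free 2 [16,17,18,19,20,21,22]))), .t 10 (nat_lit 0x86708660c500c320c2f0c170c140c0f0c0e) (.z (.edon 9 1 (.edon 19 21 (.leaf [19,20,22]) (.node 2 12 (.edon 14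 21 (.leaf [14,15,16,18,17]) (.leaf [0,2,13,21])) (.leaf [9,12,11,10]))) (.free 2 [1,3,4,5,6,7,8]))), .t 4 (nat_lit 0x210ab60ab4) (.z (.node 1 9 (.node 0 11 (.edon 15 21 (.free 2 [15,16,17,18,19,20,22]) (.leaf [0,12,13,14,21])) (.leaf [1,10,11,2])) (.free 2 [3,4,5,6,7,8,9]))), .t 9 (nat_lit 0xae70ae60ae100210b750af50c0f0c0e) (.z (.node 1 9 (.node 0 11 (.node 0 20 (.leaf [0,21,22]) (.edon 14 19 (.leaf [14,15,16,18]) (.leaf [12,13,19,20,17]))) (.leaf [1,10,11,2])) (.free 2 [3,4,5,6,7,8,9]))), .t 9 (nat_lit 0xaa60aed0aeb0aac0aa90b360b350c6d) (.z (.edon 9 1 (.node 14 16 (.edon 0 12 (.leaf [0,2,10,11]) (.node 17 19 (.leaf [17,20,22,21]) (.leaf [12,14,18,19,13]))) (.leaf [9,15,16])) (.free 2 [1,3,4,5,6,7,8])))] (by decide +kernel) (by decide +kernel)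
theorem b115 : B 3680 3712 := Blk.of_chk [.t 9 (nat_lit 0xc000bfd0bfb00210afe0afb0c070c02) (.z (.node 1 9 (.node 0 11 (.node 0 20 (.leaf [0,21,22]) (.node 13 16 (.leaf [13,18,19,20,17]) (.leaf [12,15,16,14]))) (.leaf [1,10,11,2])) (.free 2 [3,4,5,6,7,8,9]))), .t 11 (nat_lit 0xc000bfd0bfb02d500f500f0002600220c070c02) (.z (.node 1 9 (.node 0 12 (.node 0 20 (.leaf [0,21,22]) (.node 13 16 (.leaf [13,18,19,20,17]) (.leaf [14,15,16]))) (.leaf [1,10,12,11,2])) (.free 2 [3,4,5,6,7,8,9]))), .t 9 (nat_lit 0xa890a870a850a9e0a9b0a8d0a8a0003) (.z (.edon 2 22 (.edon 4 16 (.free 2 [4,5,6,7,8,9,15]) (.edon 0 11 (.leaf [1,3,10,2]) (.node 11 16 (.leaf [11,17,19,20,18]) (.leaf [12,14,16,13])))) (.free 1 [0,21,22]))), .t 9 (nat_lit 0xbff0bfe0bfa00210afe0afb0c070c02) (.z (.node 1 9 (.node 0 11 (.node 0 20 (.leaf [0,21,22]) (.node 13 16 (.leaf [13,17,19,20,18])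 (.leaf [12,15,16,14]))) (.leaf [1,10,11,2])) (.free 2 [3,4,5,6,7,8,9]))), .t 1 (nat_lit 0) (.cp 2 3), .t 11 (nat_lit 0xbff0bfe0bfa02d500f500f0002600220c070c02) (.z (.node 1 9 (.node 0 12 (.node 0 20 (.leaf [0,21,22]) (.node 13 16 (.leaf [13,17,19,20,18]) (.leaf [14,15,16]))) (.leaf [1,10,12,11,2])) (.free 2 [3,4,5,6,7,8,9]))), .t 9 (nat_lit 0xa0e0c6f0bbc0bba0a620a610a080a07) (.z (.node 0 7 (.edon 0 11 (.leaf [0,8,9,10]) (.node 14 16 (.edon 11 20 (.leaf [11,13,14,17,19]) (.leaf [18,20,22,21])) (.leaf [12,15,16]))) (.free 2 [1,2,3,4,5,6,7]))), .t 10 (nat_lit 0xc0f07ce07cd0c4f0c4e0c310c300c0d0c0c) (.z (.node 0 7 (.edon 19 21 (.leaf [19,20,22]) (.node 11 12 (.node 13 18 (.leaf [0,11,13,21]) (.leaf [14,15,16,17,18])) (.leaf [8,9,12,10]))) (.free 2 [1,2,3,4,5,6,7]))), .t 8 (nat_lit 0x2d500f500f0002600220b810b7e) (.z (.node 1 9 (.node 0 12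 (.node 0 16 (.free 2 [0,17,18,19,20,21,22]) (.leaf [13,15,16,14])) (.leaf [1,10,12,11,2])) (.free 2 [3,4,5,6,7,8,9]))), .t 15 (nat_lit 0x86e0ba908e708e508870886086708660c310c300bf70bf60ba60ba5) (.z (.edon 1 21 (.edon 0 9 (.free 2 [1,3,4,5,6,7,8]) (.node 13 15 (.edon 0 19 (.leaf [13,14,16,17,18]) (.leaf [19,20,22])) (.leaf [9,15,12,11,10]))) (.free 1 [0,2,21]))), .t 15 (nat_lit 0x86e0ba908e708e508870886086708660c310c300bf70bf60ba60ba5) (.z (.edon 1 21 (.edon 0 9 (.free 2 [1,3,4,5,6,7,8]) (.node 14 15 (.edon 0 19 (.leaf [13,14,16,17,18]) (.leaf [19,20,22])) (.leaf [9,15,12,11,10]))) (.free 1 [0,2,21]))), .t 4 (nat_lit 0x30980097e) (.z (.edon 16 4 (.node 0 10 (.edon 0 16 (.leaf [0,11,12,13,14]) (.free 2 [16,17,18,19,20,21,22])) (.leaf [1,3,10,2])) (.free 2 [4,5,6,7,8,9,15]))), .t 4 (nat_lit 0x10980097e) (.z (.edon 16 4 (.node 0 5 (.edon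 0 16 (.leaf [0,11,12,13,14]) (.free 2 [16,17,18,19,20,21,22])) (.leaf [1,3,5,2])) (.free 2 [4,6,7,8,9,10,15]))), .t 5 (nat_lit 0x7d407d30980097e) (.z (.node 0 7 (.edon 0 16 (.node 11 15 (.leaf [0,11,12,13,14]) (.leaf [8,9,15,10])) (.free 2 [16,17,18,19,20,21,22])) (.free 2 [1,2,3,4,5,6,7]))), .t 8 (nat_lit 0x2ee0980097e0301030002eb02ea) (.z (.edon 0 16 (.edon 12 1 (.leaf [0,2,11,12,13,14]) (.free 3 [1,3,4,5,6,7,8,9,10,15])) (.free 2 [16,17,18,19,20,21,22]))), .t 5 (nat_lit 0x29d003c00030001) (.z (.edon 16 4 (.node 0 10 (.edon 0 16 (.leaf [0,11,12,14]) (.free 2 [16,17,18,19,20,21,22])) (.leaf [1,3,5,10,2])) (.free 2 [4,6,7,8,9,13,15]))), .t 10 (nat_lit 0xbd900f500f00c4f0c4e0bf70bf60bd60bd5) (.z (.node 1 9 (.edon 13 21 (.edon 0 19 (.leaf [13,15,16,17,18]) (.leaf [19,20,22])) (.node 2 12 (.leaf [0,2,14,21]) (.leaf [1,10,12,11]))) (.free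 2 [3,4,5,6,7,8,9]))), .t 5 (nat_lit 0x29f004000030002) (.z (.edon 16 4 (.node 0 10 (.edon 0 16 (.leaf [0,11,12,14]) (.free 2 [16,17,18,19,20,21,22])) (.leaf [1,3,6,10,2])) (.free 2 [4,5,7,8,9,13,15]))), .t 12 (nat_lit 0xb7e0ba60ba40b880b8502a20044000400030bd60bd5) (.z (.edon 0 20 (.node 0 12 (.node 0 17 (.leaf [0,18,19]) (.leaf [13,15,16,17,14])) (.edon 4 10 (.free 2 [4,5,6,7,8,9,12]) (.leaf [1,3,10,11,2]))) (.free 1 [20,21,22]))), .t 6 (nat_lit 0xbbc0bb90c6f02c302c2) (.z (.node 4 16 (.edon 0 13 (.edon 1 6 (.leaf [1,3,4]) (.leaf [0,2,6,10,11])) (.node 18 19 (.leaf [18,20,22,21]) (.leaf [13,17,19,14]))) (.free 2 [5,7,8,9,12,15,16]))), .t 11 (nat_lit 0xb820b8007ce06e706e606db06d906cc06cb0004) (.z (.node 16 0 (.edon 0 13 (.node 3 10 (.leaf [1,3,11,2]) (.node 6 7 (.leaf [6,8,9,12,10]) (.leaf [4,5,7]))) (.leaf [13,16,15,14])) (.free 2 [0,17,18,19,20,21,22]))),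 .t 11 (nat_lit 0xb820b8007ce06960695068e068c068106800004) (.z (.node 16 0 (.edon 0 13 (.node 3 10 (.leaf [1,3,11,2]) (.node 5 7 (.leaf [5,8,9,12,10]) (.leaf [4,6,7]))) (.leaf [13,16,15,14])) (.free 2 [0,17,18,19,20,21,22]))), .t 16 (nat_lit 0xc0f0c4f0c4e0c310c300c0d0c0c07ce06e706e606db06d906cc06cb004c) (.z (.edon 1 21 (.edon 0 14 (.node 3 10 (.leaf [1,3,13,11]) (.node 6 7 (.leaf [6,8,9,12,10]) (.leaf [4,5,7]))) (.edon 0 19 (.leaf [14,15,16,17,18]) (.leaf [19,20,22]))) (.free 1 [0,2,21]))), .t 7 (nat_lit 0x29f0040000300020c4f0c4e) (.z (.edon 16 4 (.node 0 10 (.edon 18 19 (.leaf [15,16,17,18]) (.free 2 [0,11,14,19,20,21,22])) (.leaf [1,3,6,10,2])) (.free 2 [4,5,7,8,9,12,13]))), .t 12 (nat_lit 0x45a0459045802a200440004000304ee04ec049b049a) (.z (.edon 0 16 (.node 0 13 (.leaf [0,14,15]) (.edon 4 10 (.node 5 9 (.leaf [4,5,12,13,6]) (.leaf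 [7,8,9])) (.leaf [1,3,10,11,2]))) (.free 2 [16,17,18,19,20,21,22]))), .t 8 (nat_lit 0xc580c540c530c5f0c5a032a0028) (.z (.edon 2 22 (.node 4 16 (.edon 0 15 (.node 1 10 (.leaf [1,11,14,2]) (.leaf [3,4,6,10])) (.leaf [15,18,19,20,17])) (.free 2 [5,7,8,9,12,13,16])) (.free 1 [0,21,22]))), .t 12 (nat_lit 0x4940493048f029f00400003000205a305a0049b049a) (.z (.edon 0 16 (.node 0 13 (.leaf [0,14,15]) (.edon 4 10 (.node 5 9 (.leaf [4,5,12,13,11]) (.leaf [7,8,9])) (.leaf [1,3,6,10,2]))) (.free 2 [16,17,18,19,20,21,22]))), .t 8 (nat_lit 0xc580c540c530c5f0c5a03210028) (.z (.edon 2 22 (.node 4 16 (.edon 0 15 (.node 1 10 (.leaf [1,11,14,2]) (.leaf [3,4,5,10])) (.leaf [15,18,19,20,17])) (.free 2 [6,7,8,9,12,13,16])) (.free 1 [0,21,22]))), .t 12 (nat_lit 0x4e104df04dd029d003c0003000105a305a004ee04ed) (.z (.edon 0 16 (.node 0 13 (.leaf [0,14,15]) (.edon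 4 10 (.node 6 9 (.leaf [4,6,12,13,11]) (.leaf [7,8,9])) (.leaf [1,3,5,10,2]))) (.free 2 [16,17,18,19,20,21,22]))), .t 8 (nat_lit 0xc570c550c520c5f0c5a03210028) (.z (.edon 2 22 (.node 4 16 (.edon 0 15 (.node 1 10 (.leaf [1,11,14,2]) (.leaf [3,4,5,10])) (.leaf [15,17,19,20,18])) (.free 2 [6,7,8,9,12,13,16])) (.free 1 [0,21,22]))), .t 15 (nat_lit 0x7d50c0f07e207df07da07d90c4f0c4e0c310c300c0d0c0c08250823) (.z (.edon 1 21 (.edon 0 14 (.node 7 11 (.free 2 [1,3,4,5,6,7,10]) (.leaf [8,9,13,12,11])) (.edon 0 19 (.leaf [14,15,16,17,18]) (.leaf [19,20,22]))) (.free 1 [0,2,21]))), .t 7 (nat_lit 0x29d003c000300010c500c4d) (.z (.edon 16 4 (.node 0 10 (.edon 17 19 (.leaf [15,16,18,17]) (.free 2 [0,11,14,19,20,21,22])) (.leaf [1,3,5,10,2])) (.free 2 [4,6,7,8,9,12,13])))] (by decide +kernel) (by decide +kernel)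
theorem b116 : B 3712 3744 := Blk.of_chk [.t 10 (nat_lit 0xc3b0c370c3507cc07c90ac00abe0c440c3e) (.z (.node 0 7 (.node 0 11 (.node 0 20 (.leaf [0,21,22]) (.node 14 16 (.leaf [14,18,19,20,17]) (.leaf [12,16,15,13]))) (.leaf [8,9,11,10])) (.free 2 [1,2,3,4,5,6,7]))), .t 7 (nat_lit 0x29d003c000300010c4f0c4e) (.z (.edon 16 4 (.node 0 10 (.edon 18 19 (.leaf [15,16,17,18]) (.free 2 [0,11,14,19,20,21,22])) (.leaf [1,3,5,10,2])) (.free 2 [4,6,7,8,9,12,13]))), .t 10 (nat_lit 0xc3a0c380c3407cc07c90ac00abe0c440c3e) (.z (.node 0 7 (.node 0 11 (.node 0 20 (.leaf [0,21,22]) (.node 14 16 (.leaf [14,17,19,20,18]) (.leaf [12,16,15,13]))) (.leaf [8,9,11,10])) (.free 2 [1,2,3,4,5,6,7]))), .t 5 (nat_lit 0xa6e0c4c0a910a70) (.z (.node 0 7 (.edon 0 11 (.leaf [0,8,9,10]) (.node 11 19 (.leaf [11,20,22,21,14]) (.free 2 [12,13,15,16,17,18,19]))) (.free 2 [1,2,3,4,5,6,7]))),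 .t 9 (nat_lit 0x29d003c0003000107da07d90afe0afc) (.z (.edon 8 4 (.node 0 16 (.free 2 [0,17,18,19,20,21,22]) (.edon 8 10 (.node 12 13 (.leaf [12,14,15,16]) (.leaf [8,9,13,11])) (.leaf [1,3,5,10,2]))) (.free 1 [4,6,7]))), .t 8 (nat_lit 0xab60a150a1409ca09c909a709a6) (.z (.node 0 7 (.edon 0 11 (.leaf [0,8,9,10]) (.edon 15 21 (.free 2 [15,16,17,18,19,20,22]) (.leaf [11,14,21,13,12]))) (.free 2 [1,2,3,4,5,6,7]))), .t 10 (nat_lit 0x7cc07c90c500c320c2f0c170c140c0f0c0e) (.z (.node 0 7 (.node 0 11 (.edon 14 21 (.edon 0 19 (.leaf [14,15,16,18,17]) (.leaf [19,20,22])) (.leaf [0,12,13,21])) (.leaf [8,9,11,10])) (.free 2 [1,2,3,4,5,6,7]))), .t 13 (nat_lit 0xbb80bb60bb10bfd0bfb0bc70bc5055603fb03f803440340) (.z (.edon 0 20 (.node 4 16 (.edon 0 13 (.edon 0 3 (.leaf [0,1,2]) (.leaf [3,4,11,12,10])) (.leaf [13,14,18,19,17])) (.free 2 [5,6,7,8,9,15,16]))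 (.free 1 [20,21,22]))), .t 5 (nat_lit 0x2dd02dc08980897) (.z (.edon 0 16 (.edon 1 9 (.free 2 [1,3,4,5,6,7,8]) (.edon 11 13 (.leaf [9,15,14,11]) (.leaf [0,2,10,12,13]))) (.free 2 [16,17,18,19,20,21,22]))), .t 6 (nat_lit 0x2d400f400f100260022) (.z (.edon 0 16 (.node 0 12 (.leaf [0,13,14,15]) (.node 1 9 (.leaf [1,11,12,10,2]) (.free 2 [3,4,5,6,7,8,9]))) (.free 2 [16,17,18,19,20,21,22]))), .t 1 (nat_lit 0) (.cn 2 3), .t 7 (nat_lit 0xc6f0c4c0c4a0c4909890987) (.z (.node 0 7 (.edon 0 11 (.leaf [0,8,9,10]) (.edon 13 16 (.leaf [11,15,13,12]) (.node 18 19 (.leaf [14,18,20,22,21]) (.leaf [16,17,19])))) (.free 2 [1,2,3,4,5,6,7]))), .t 1 (nat_lit 0) (.fa 4), .t 1 (nat_lit 0) (.cn 4 2), .t 7 (nat_lit 0x7cc07c90b3f0b3e0bd60bd4) (.z (.node 0 7 (.node 0 11 (.edon 15 19 (.leaf [13,16,17,15]) (.edon 19 21 (.leaf [19,20,22]) (.leaf [0,12,14,18,21]))) (.leaf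 [8,9,11,10])) (.free 2 [1,2,3,4,5,6,7]))), .t 8 (nat_lit 0x6cc07d707d606ec06eb06ca06c9) (.z (.node 12 3 (.node 6 7 (.leaf [6,8,9,11,12]) (.leaf [4,5,7])) (.free 4 [0,1,2,3,10,13,14,15,16,17,18,19,20,21,22]))), .t 1 (nat_lit 0) (.cn 3 3), .t 7 (nat_lit 0x991098f0c6f0c4c0c4a0c49) (.z (.node 0 7 (.edon 0 11 (.leaf [0,8,9,10]) (.node 15 16 (.edon 15 20 (.leaf [15,17,19]) (.leaf [14,18,20,22,21])) (.leaf [11,16,13,12]))) (.free 2 [1,2,3,4,5,6,7]))), .t 7 (nat_lit 0x991098f0c6d0c4c0c430c42) (.z (.node 0 7 (.edon 0 11 (.leaf [0,8,9,10]) (.node 15 16 (.edon 15 20 (.leaf [15,18,19]) (.leaf [14,17,20,22,21])) (.leaf [11,16,13,12]))) (.free 2 [1,2,3,4,5,6,7]))), .t 10 (nat_lit 0x991098f0c550c380c340c260c210c1c0c1a) (.z (.node 0 7 (.edon 0 11 (.leaf [0,8,9,10]) (.node 15 16 (.edon 0 20 (.leaf [14,15,17,19,18]) (.leaf [20,21,22])) (.leaf [11,16,13,12])))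 (.free 2 [1,2,3,4,5,6,7]))), .t 10 (nat_lit 0x7cd07cc07c907f507f207d707d60b810b7e) (.z (.node 0 7 (.node 0 12 (.node 0 16 (.free 2 [0,17,18,19,20,21,22]) (.leaf [13,15,16,14])) (.leaf [8,9,11,12,10])) (.free 2 [1,2,3,4,5,6,7]))), .t 10 (nat_lit 0xc3b0c370c350c440c3e02a3004500050003) (.z (.edon 2 22 (.edon 0 13 (.edon 4 10 (.free 2 [4,5,6,7,8,9,11]) (.leaf [1,3,10,12,2])) (.node 14 16 (.leaf [14,18,19,20,17]) (.leaf [13,15,16]))) (.free 1 [0,21,22]))), .t 1 (nat_lit 0) (.cn 3 3), .t 10 (nat_lit 0xb2c0b280b2507cc07c90b750b420bd90bd7) (.z (.node 0 7 (.node 0 11 (.node 0 20 (.leaf [0,21,22]) (.edon 15 19 (.leaf [13,16,18,15]) (.leaf [12,17,19,20,14]))) (.leaf [8,9,11,10])) (.free 2 [1,2,3,4,5,6,7]))), .t 7 (nat_lit 0x2a30045000500030bd60bd4) (.z (.edon 16 4 (.node 0 12 (.edon 15 19 (.leaf [13,16,17,15]) (.free 2 [0,14,18,19,20,21,22])) (.leaf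 [1,3,10,12,2])) (.free 2 [4,5,6,7,8,9,11]))), .t 10 (nat_lit 0x7cd07cc07c907f507f207d707d60bd60bd4) (.z (.node 0 7 (.node 0 12 (.edon 15 19 (.leaf [13,16,17,15]) (.free 2 [0,14,18,19,20,21,22])) (.leaf [8,9,11,12,10])) (.free 2 [1,2,3,4,5,6,7]))), .t 5 (nat_lit 0xc6f0c4c0c4a0c49) (.z (.node 7 19 (.node 0 7 (.edon 0 14 (.leaf [0,10,12,13]) (.leaf [14,18,20,22,21])) (.free 2 [1,2,3,4,5,6,7])) (.free 2 [8,9,11,15,16,17,19]))), .t 9 (nat_lit 0x29f0040000300020c6f0c4c0c4a0c49) (.z (.node 7 19 (.node 0 10 (.edon 0 14 (.leaf [0,12,13]) (.leaf [14,18,20,22,21])) (.edon 4 6 (.leaf [4,5,7]) (.leaf [1,3,6,10,2]))) (.free 2 [8,9,11,15,16,17,19]))), .t 9 (nat_lit 0x29d003c000300010c6f0c4c0c4a0c49) (.z (.node 7 19 (.node 0 10 (.edon 0 14 (.leaf [0,12,13]) (.leaf [14,18,20,22,21])) (.edon 4 5 (.leaf [4,6,7]) (.leaf [1,3,5,10,2]))) (.free 2 [8,9,11,15,16,17,19]))),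 .t 9 (nat_lit 0xc580c540c5300210a9f0a9a0c5f0c5a) (.z (.node 1 9 (.node 0 11 (.node 0 20 (.leaf [0,21,22]) (.node 15 16 (.leaf [15,18,19,20,17]) (.leaf [12,13,16,14]))) (.leaf [1,10,11,2])) (.free 2 [3,4,5,6,7,8,9]))), .t 5 (nat_lit 0x29d003c00030001) (.z (.edon 16 4 (.node 0 10 (.edon 0 16 (.leaf [0,11,12,15]) (.free 2 [16,17,18,19,20,21,22])) (.leaf [1,3,5,10,2])) (.free 2 [4,6,7,8,9,13,14]))), .t 5 (nat_lit 0x29f004000030002) (.z (.edon 16 4 (.node 0 10 (.edon 0 16 (.leaf [0,11,12,15]) (.free 2 [16,17,18,19,20,21,22])) (.leaf [1,3,6,10,2])) (.free 2 [4,5,7,8,9,13,14])))] (by decide +kernel) (by decide +kernel)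
theorem b117 : B 3744 3776 := Blk.of_chk [.t 12 (nat_lit 0x3a803a602c302c2029f00a600a50040000400030002) (.z (.edon 4 16 (.free 2 [4,5,7,8,9,13,14]) (.node 11 0 (.leaf [1,3,6,10,11,2]) (.free 3 [0,12,15,16,17,18,19,20,21,22])))), .t 12 (nat_lit 0x36b036a02b802b7029d00860085003c000400030001) (.z (.edon 4 16 (.free 2 [4,6,7,8,9,13,14]) (.node 11 0 (.leaf [1,3,5,10,11,2]) (.free 3 [0,12,15,16,17,18,19,20,21,22])))), .t 5 (nat_lit 0xc6f0b7c0b7a0b79) (.z (.node 0 7 (.edon 0 11 (.leaf [0,8,9,10]) (.node 12 19 (.leaf [12,18,20,22,21]) (.free 2 [11,13,14,15,16,17,19]))) (.free 2 [1,2,3,4,5,6,7]))), .t 12 (nat_lit 0x3a803a602c302c2029f00a600a50040000400030002) (.z (.edon 4 16 (.free 2 [4,5,7,8,9,13,15]) (.node 11 0 (.leaf [1,3,6,10,11,2]) (.free 3 [0,12,14,16,17,18,19,20,21,22])))), .t 12 (nat_lit 0x7cf07e907e807d407d3081908180c6d0c4c0c430c42)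 (.z (.node 0 7 (.node 11 13 (.edon 0 14 (.leaf [0,11,12]) (.node 17 19 (.leaf [14,17,20,22,21]) (.leaf [16,18,19]))) (.leaf [8,9,15,13,10])) (.free 2 [1,2,3,4,5,6,7]))), .t 5 (nat_lit 0x29e003d00040001) (.z (.edon 16 4 (.node 0 11 (.edon 0 16 (.leaf [0,12,13,14]) (.free 2 [16,17,18,19,20,21,22])) (.leaf [1,3,5,11,2])) (.free 2 [4,6,7,8,9,10,15]))), .t 5 (nat_lit 0x2a2004400040003) (.z (.edon 0 16 (.edon 4 13 (.free 2 [4,5,6,7,8,9,15]) (.node 0 11 (.leaf [0,12,13,14]) (.leaf [1,3,10,11,2]))) (.free 2 [16,17,18,19,20,21,22]))), .t 6 (nat_lit 0x210b810b7f0b700b6f) (.z (.edon 0 20 (.node 0 11 (.node 12 16 (.leaf [0,12,17,18,19]) (.leaf [13,14,15,16])) (.node 1 9 (.leaf [1,10,11,2]) (.free 2 [3,4,5,6,7,8,9]))) (.free 1 [20,21,22]))), .t 9 (nat_lit 0xb820b80029e003d0004000107ce07cd) (.z (.node 16 0 (.edon 0 13 (.edon 4 8 (.leaf [4,6,7]) (.edon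 8 11 (.leaf [8,9,12,10]) (.leaf [1,3,5,11,2]))) (.leaf [13,16,15,14])) (.free 2 [0,17,18,19,20,21,22]))), .t 9 (nat_lit 0xb820b8002a000410004000207ce07cd) (.z (.node 16 0 (.edon 0 13 (.edon 4 8 (.leaf [4,5,7]) (.edon 8 11 (.leaf [8,9,12,10]) (.leaf [1,3,6,11,2]))) (.leaf [13,16,15,14])) (.free 2 [0,17,18,19,20,21,22]))), .t 8 (nat_lit 0x2da02d9010100ff00210ac00abe) (.z (.node 1 9 (.node 0 16 (.free 2 [0,17,18,19,20,21,22]) (.edon 13 14 (.leaf [12,16,15,13]) (.leaf [1,10,11,14,2]))) (.free 2 [3,4,5,6,7,8,9]))), .t 1 (nat_lit 0) (.cn 7 3), .t 11 (nat_lit 0xc570c550c520c5f0c5a02f902f801a601a40027) (.z (.edon 2 22 (.node 4 16 (.edon 0 15 (.node 1 10 (.leaf [1,11,13,14,2]) (.leaf [3,4,10])) (.leaf [15,17,19,20,18])) (.free 2 [5,6,7,8,9,12,16])) (.free 1 [0,21,22]))), .t 15 (nat_lit 0xc0f00f800f500f00c4f0c4e0c310c300c0d0c0c01780175011a0118)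 (.z (.node 1 9 (.edon 1 21 (.edon 0 14 (.leaf [1,10,12,13,11]) (.edon 0 19 (.leaf [14,15,16,17,18]) (.leaf [19,20,22]))) (.leaf [0,2,21])) (.free 2 [3,4,5,6,7,8,9]))), .t 11 (nat_lit 0xc580c540c530c5f0c5a02f902f801a601a40027) (.z (.edon 2 22 (.node 4 16 (.edon 0 15 (.node 1 10 (.leaf [1,11,13,14,2]) (.leaf [3,4,10])) (.leaf [15,18,19,20,17])) (.free 2 [5,6,7,8,9,12,16])) (.free 1 [0,21,22]))), .t 8 (nat_lit 0xc580c540c530c5f0c5a03410028) (.z (.edon 2 22 (.node 4 16 (.edon 0 15 (.node 1 13 (.leaf [1,11,14,2]) (.leaf [3,4,13,10])) (.leaf [15,18,19,20,17])) (.free 2 [5,6,7,8,9,12,16])) (.free 1 [0,21,22]))), .t 8 (nat_lit 0xc580c540c530c5f0c5a03410028) (.z (.edon 2 22 (.node 4 16 (.edon 0 15 (.node 1 10 (.leaf [1,11,14,2]) (.leaf [3,4,13,10])) (.leaf [15,18,19,20,17])) (.free 2 [5,6,7,8,9,12,16])) (.free 1 [0,21,22]))), .t 8 (nat_lit 0xc570c550c520c5f0c5a03410028)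 (.z (.edon 2 22 (.node 4 16 (.edon 0 15 (.node 1 10 (.leaf [1,11,14,2]) (.leaf [3,4,13,10])) (.leaf [15,17,19,20,18])) (.free 2 [5,6,7,8,9,12,16])) (.free 1 [0,21,22]))), .t 8 (nat_lit 0xc570c550c520c5f0c5a03410028) (.z (.edon 2 22 (.node 4 16 (.edon 0 15 (.node 1 13 (.leaf [1,11,14,2]) (.leaf [3,4,13,10])) (.leaf [15,17,19,20,18])) (.free 2 [5,6,7,8,9,12,16])) (.free 1 [0,21,22]))), .t 16 (nat_lit 0xc0f0c4f0c4e0c310c300c0d0c0c07ce06960695068e068c06810680004c) (.z (.edon 1 21 (.edon 0 14 (.node 3 10 (.leaf [1,3,13,11]) (.node 5 7 (.leaf [5,8,9,12,10]) (.leaf [4,6,7]))) (.edon 0 19 (.leaf [14,15,16,17,18]) (.leaf [19,20,22]))) (.free 1 [0,2,21]))), .t 6 (nat_lit 0x210ac00abe0c370c36) (.z (.edon 0 20 (.node 0 11 (.node 14 16 (.leaf [0,14,17,18,19]) (.leaf [12,16,15,13])) (.node 1 9 (.leaf [1,10,11,2]) (.free 2 [3,4,5,6,7,8,9]))) (.free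 1 [20,21,22]))), .t 7 (nat_lit 0x2a20044000400030bc10bc0) (.z (.edon 21 19 (.node 0 12 (.edon 15 17 (.leaf [15,16,18]) (.leaf [0,13,14,17,21])) (.edon 4 10 (.free 2 [4,5,6,7,8,9,12]) (.leaf [1,3,10,11,2]))) (.free 1 [19,20,22]))), .t 13 (nat_lit 0x7c907d807d507ce07cd0c000bfd0bfb07f607f40c070c02) (.z (.node 0 7 (.node 0 12 (.node 0 20 (.leaf [0,21,22]) (.node 13 16 (.leaf [13,18,19,20,17]) (.leaf [14,15,16]))) (.leaf [8,9,12,11,10])) (.free 2 [1,2,3,4,5,6,7]))), .t 10 (nat_lit 0xc3b0c370c350c440c3e02a2004400040003) (.z (.edon 2 22 (.edon 0 13 (.edon 4 10 (.free 2 [4,5,6,7,8,9,12]) (.leaf [1,3,10,11,2])) (.node 14 16 (.leaf [14,18,19,20,17]) (.leaf [13,15,16]))) (.free 1 [0,21,22]))), .t 9 (nat_lit 0xaa60aed0aeb0aac0aa90b360b350c6d) (.z (.edon 9 1 (.node 10 16 (.edon 0 12 (.leaf [0,2,10,11]) (.node 17 19 (.leaf [17,20,22,21]) (.leaf [12,14,18,19,13])))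 (.leaf [9,15,16])) (.free 2 [1,3,4,5,6,7,8]))), .t 8 (nat_lit 0x8740937093608a908a808730872) (.z (.edon 0 16 (.edon 1 9 (.free 2 [1,3,4,5,6,7,8]) (.node 11 12 (.leaf [0,2,11,13]) (.leaf [9,15,14,12,10]))) (.free 2 [16,17,18,19,20,21,22]))), .t 8 (nat_lit 0xafb0b1d0b1b0b080b060b4e0b4d) (.z (.node 0 7 (.edon 0 11 (.leaf [0,8,9,10]) (.edon 14 19 (.leaf [12,15,16,18,14]) (.free 2 [11,13,17,19,20,21,22]))) (.free 2 [1,2,3,4,5,6,7]))), .t 5 (nat_lit 0xc6d0c0b0c060c05) (.z (.node 0 7 (.edon 0 11 (.leaf [0,8,9,10]) (.node 13 19 (.leaf [13,17,20,22,21]) (.free 2 [11,12,14,15,16,18,19]))) (.free 2 [1,2,3,4,5,6,7]))), .t 6 (nat_lit 0x210afe0afb0bfd0bfc) (.z (.edon 0 20 (.node 0 11 (.node 13 16 (.leaf [0,13,17,18,19]) (.leaf [12,15,16,14])) (.node 1 9 (.leaf [1,10,11,2]) (.free 2 [3,4,5,6,7,8,9]))) (.free 1 [20,21,22]))), .t 9 (nat_lit 0xafb0b1d0b1b0b080b0600210b4e0b4d)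 (.z (.edon 0 20 (.node 0 11 (.node 13 18 (.leaf [0,13,17,19]) (.leaf [12,15,16,18,14])) (.node 1 9 (.leaf [1,10,11,2]) (.free 2 [3,4,5,6,7,8,9]))) (.free 1 [20,21,22]))), .t 9 (nat_lit 0xb240b230b210b700b6e0b360b350c0b) (.z (.edon 9 1 (.node 10 16 (.edon 0 12 (.leaf [0,2,10,11]) (.node 13 19 (.leaf [13,20,22,21]) (.leaf [12,14,18,19,17]))) (.leaf [9,15,16])) (.free 2 [1,3,4,5,6,7,8]))), .t 6 (nat_lit 0x2e70164016200350023) (.z (.node 1 9 (.node 11 16 (.edon 0 14 (.leaf [0,11,12,13]) (.free 2 [14,17,18,19,20,21,22])) (.leaf [1,15,16,10,2])) (.free 2 [3,4,5,6,7,8,9])))] (by decide +kernel) (by decide +kernel)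
theorem b118 : B 3776 3808 := Blk.of_chk [.t 15 (nat_lit 0x86e08e708e508870886086708660c320bf80bf50bb60bb10ba90ba8) (.z (.edon 1 21 (.edon 0 9 (.free 2 [1,3,4,5,6,7,8]) (.node 13 15 (.edon 0 19 (.leaf [13,14,16,18,17]) (.leaf [19,20,22])) (.leaf [9,15,12,11,10]))) (.free 1 [0,2,21]))), .t 9 (nat_lit 0xabc0ad90ad70ac90ac700210b4e0b4d) (.z (.node 1 9 (.node 0 11 (.edon 13 19 (.leaf [12,15,16,18,13]) (.free 2 [0,14,17,19,20,21,22])) (.leaf [1,10,11,2])) (.free 2 [3,4,5,6,7,8,9]))), .t 9 (nat_lit 0xb8c0bc70bc40b970b940bef0bed0c6d) (.z (.edon 9 1 (.node 15 16 (.edon 0 13 (.leaf [0,2,10,11]) (.node 17 19 (.leaf [17,20,22,21]) (.leaf [13,15,18,19,14]))) (.leaf [9,12,16])) (.free 2 [1,3,4,5,6,7,8]))), .t 7 (nat_lit 0xc6d0c4c0c430c4209890984) (.z (.node 0 7 (.edon 0 11 (.leaf [0,8,9,10]) (.edon 13 16 (.leaf [11,12,15,13]) (.node 17 19 (.leaf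 [14,17,20,22,21]) (.leaf [16,18,19])))) (.free 2 [1,2,3,4,5,6,7]))), .t 10 (nat_lit 0xa0109ff09fb07ce07cd0a490a460a1b0a19) (.z (.node 0 7 (.node 0 16 (.free 2 [0,17,18,19,20,21,22]) (.node 11 12 (.leaf [11,13,15,16,14]) (.leaf [8,9,12,10]))) (.free 2 [1,2,3,4,5,6,7]))), .t 10 (nat_lit 0x86708660c500bf80bf50be10bde0bd90bd8) (.z (.edon 9 1 (.edon 19 21 (.leaf [19,20,22]) (.node 2 12 (.edon 13 21 (.leaf [13,15,16,18,17]) (.leaf [0,2,14,21])) (.leaf [9,12,11,10]))) (.free 2 [1,3,4,5,6,7,8]))), .t 16 (nat_lit 0xb7e0ba60ba40b880b8507ce06e706e606db06d906cc06cb00040bd60bd5) (.z (.edon 0 20 (.node 0 12 (.node 0 17 (.leaf [0,18,19]) (.leaf [13,15,16,17,14])) (.node 3 10 (.leaf [1,3,11,2]) (.node 6 7 (.leaf [6,8,9,12,10]) (.leaf [4,5,7])))) (.free 1 [20,21,22]))), .t 8 (nat_lit 0x2d500f500f0002600220bfd0bfc) (.z (.edon 0 20 (.node 0 12 (.node 13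 16 (.leaf [0,13,17,18,19]) (.leaf [14,15,16])) (.node 1 9 (.leaf [1,10,12,11,2]) (.free 2 [3,4,5,6,7,8,9]))) (.free 1 [20,21,22]))), .t 13 (nat_lit 0x7c907d807d507ce07cd07f607f40c6c0c070c020bfd0bfc) (.z (.node 0 7 (.node 0 12 (.node 0 20 (.leaf [0,21,22]) (.node 13 16 (.leaf [13,17,18,19,20]) (.leaf [14,15,16]))) (.leaf [8,9,12,11,10])) (.free 2 [1,2,3,4,5,6,7]))), .t 15 (nat_lit 0xc500c320c2f0c170c140c0f0c0e08d801780175011a011700fc00fa) (.z (.node 1 9 (.edon 1 21 (.edon 0 14 (.leaf [1,12,13,11,10]) (.edon 0 19 (.leaf [14,15,16,18,17]) (.leaf [19,20,22]))) (.leaf [0,2,21])) (.free 2 [3,4,5,6,7,8,9]))), .t 1 (nat_lit 0) (.fa 4), .t 15 (nat_lit 0x7d907d807d50c500c320c2f0c170c140c0f0c0e0824082107e107e0) (.z (.edon 1 21 (.edon 0 14 (.node 7 11 (.free 2 [1,3,4,5,6,7,10]) (.leaf [8,9,12,13,11])) (.edon 0 19 (.leaf [14,15,16,18,17]) (.leaf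 [19,20,22]))) (.free 1 [0,2,21]))), .t 15 (nat_lit 0xc0f07d907d807d50c4f0c4e0c310c300c0d0c0c0824082107e107e0) (.z (.edon 1 21 (.edon 0 14 (.node 7 11 (.free 2 [1,3,4,5,6,7,10]) (.leaf [8,9,12,13,11])) (.edon 0 19 (.leaf [14,15,16,17,18]) (.leaf [19,20,22]))) (.free 1 [0,2,21]))), .t 15 (nat_lit 0x8a5070d06d806d606c306c206b506b40a970a9508b808b608a208a1) (.z (.node 0 3 (.edon 0 16 (.edon 9 11 (.leaf [9,15,14,13,12]) (.edon 0 6 (.leaf [0,4,5]) (.leaf [6,7,8,11,10]))) (.free 2 [16,17,18,19,20,21,22])) (.free 1 [1,2,3]))), .t 10 (nat_lit 0xc000bfd0bfb07cc07c90afe0afb0c070c02) (.z (.node 0 7 (.node 0 11 (.node 0 20 (.leaf [0,21,22]) (.node 13 16 (.leaf [13,18,19,20,17]) (.leaf [12,15,16,14]))) (.leaf [8,9,11,10])) (.free 2 [1,2,3,4,5,6,7]))), .t 15 (nat_lit 0x7d907d807d50c500c320c2f0c170c140c0f0c0e0824082107e107e0) (.z (.edon 1 21 (.edon 0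 14 (.edon 8 10 (.leaf [8,9,12,13,11]) (.free 2 [1,3,4,5,6,7,10])) (.edon 0 19 (.leaf [14,15,16,18,17]) (.leaf [19,20,22]))) (.free 1 [0,2,21]))), .t 5 (nat_lit 0xc6d0c0b0c060c05) (.z (.node 0 7 (.edon 0 11 (.leaf [0,8,9,10]) (.node 17 19 (.leaf [13,17,20,22,21]) (.free 2 [11,12,14,15,16,18,19]))) (.free 2 [1,2,3,4,5,6,7]))), .t 10 (nat_lit 0x7cc07c90afe0afb0c6c0c070c020bfd0bfc) (.z (.node 0 7 (.node 0 11 (.node 0 20 (.leaf [0,21,22]) (.node 13 16 (.leaf [13,17,18,19,20]) (.leaf [12,15,16,14]))) (.leaf [8,9,11,10])) (.free 2 [1,2,3,4,5,6,7]))), .t 10 (nat_lit 0xafb0b1a0b180b030b0207cc07c90b4b0b4a) (.z (.node 0 7 (.node 0 11 (.edon 0 20 (.node 13 17 (.leaf [0,13,18,19]) (.leaf [12,15,16,17,14])) (.leaf [20,21,22])) (.leaf [8,9,11,10])) (.free 2 [1,2,3,4,5,6,7]))), .t 10 (nat_lit 0xc500c320c2f0c170c140c0f0c0e07d807d5) (.z (.node 0 7 (.edon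 11 19 (.edon 0 14 (.leaf [8,9,12,11]) (.leaf [14,15,16,18,17])) (.free 2 [0,10,13,19,20,21,22])) (.free 2 [1,2,3,4,5,6,7]))), .t 10 (nat_lit 0xafb0b1d0b1b0b080b0607cc07c90b4e0b4d) (.z (.node 0 7 (.node 0 11 (.edon 0 20 (.node 13 18 (.leaf [0,13,17,19]) (.leaf [12,15,16,18,14])) (.leaf [20,21,22])) (.leaf [8,9,11,10])) (.free 2 [1,2,3,4,5,6,7]))), .t 8 (nat_lit 0x7cd07cc07c907f507f207d707d6) (.z (.node 0 7 (.node 0 12 (.edon 15 21 (.free 2 [15,16,17,18,19,20,22]) (.leaf [0,13,14,21])) (.leaf [8,9,11,12,10])) (.free 2 [1,2,3,4,5,6,7]))), .t 5 (nat_lit 0xbd00c4c0c0b0bd3) (.z (.node 0 7 (.edon 0 11 (.leaf [0,8,9,10]) (.node 13 19 (.leaf [13,20,22,21,14]) (.free 2 [11,12,15,16,17,18,19]))) (.free 2 [1,2,3,4,5,6,7]))), .t 7 (nat_lit 0x8a908a80668066702c702c6) (.z (.edon 0 16 (.node 2 4 (.node 11 12 (.node 6 11 (.leaf [0,2,6,10,13]) (.leaf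 [5,7,8,11])) (.leaf [9,15,14,12])) (.leaf [1,3,4])) (.free 2 [16,17,18,19,20,21,22]))), .t 10 (nat_lit 0x8a908a8070d06d806d606c306c206b506b4) (.z (.edon 0 16 (.node 2 4 (.node 11 12 (.node 5 10 (.leaf [0,2,5,13]) (.leaf [6,7,8,11,10])) (.leaf [9,15,14,12])) (.leaf [1,3,4])) (.free 2 [16,17,18,19,20,21,22]))), .t 10 (nat_lit 0xbff0bfe0bfa07cc07c90afe0afb0c070c02) (.z (.node 0 7 (.node 0 11 (.node 0 20 (.leaf [0,21,22]) (.node 13 16 (.leaf [13,17,19,20,18]) (.leaf [12,15,16,14]))) (.leaf [8,9,11,10])) (.free 2 [1,2,3,4,5,6,7]))), .t 7 (nat_lit 0x9cf09cc0c6f0c0b0c090c08) (.z (.node 0 7 (.edon 0 11 (.leaf [0,8,9,10]) (.node 14 16 (.node 18 19 (.leaf [13,18,20,22,21]) (.leaf [14,17,19])) (.leaf [11,15,16,12]))) (.free 2 [1,2,3,4,5,6,7]))), .t 1 (nat_lit 0) (.cn 3 3), .t 1 (nat_lit 0) (.fa 3), .t 7 (nat_lit 0x7d807d5095d095c0c4f0c4e) (.z (.node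 0 7 (.edon 19 21 (.leaf [19,20,22]) (.node 10 12 (.edon 15 21 (.leaf [15,16,17,18]) (.leaf [0,10,13,14,21])) (.leaf [8,9,12,11]))) (.free 2 [1,2,3,4,5,6,7]))), .t 4 (nat_lit 0xc6f09030901) (.z (.node 0 7 (.node 11 19 (.edon 0 18 (.leaf [0,10,11,13,14]) (.leaf [18,20,22,21])) (.free 2 [8,9,12,15,16,17,19])) (.free 2 [1,2,3,4,5,6,7]))), .t 10 (nat_lit 0x7cc07c90c440c070bcd0bca0bc90b4b0b49) (.z (.node 0 7 (.node 0 11 (.node 0 20 (.leaf [0,21,22]) (.edon 15 19 (.leaf [12,16,17,15]) (.leaf [13,19,20,18,14]))) (.leaf [8,9,11,10])) (.free 2 [1,2,3,4,5,6,7])))] (by decide +kernel) (by decide +kernel)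
theorem b119 : B 3808 3840 := Blk.of_chk [.t 1 (nat_lit 0) (.cn 3 3), .t 1 (nat_lit 0) (.fa 4), .t 4 (nat_lit 0xc6d09030901) (.z (.node 0 7 (.node 11 19 (.edon 0 17 (.leaf [0,10,11,13,14]) (.leaf [17,20,22,21])) (.free 2 [8,9,12,15,16,18,19])) (.free 2 [1,2,3,4,5,6,7]))), .t 1 (nat_lit 0) (.cn 3 3), .t 8 (nat_lit 0x9d409d009cb0a730a7209de09dd) (.z (.node 0 7 (.edon 0 11 (.leaf [0,8,9,10]) (.edon 15 19 (.leaf [11,12,16,18,15]) (.free 2 [13,14,17,19,20,21,22]))) (.free 2 [1,2,3,4,5,6,7]))), .r 3 (nat_lit 0x1a0057), .r 3 (nat_lit 0x1b005c), .r 3 (nat_lit 0x1c005f), .r 3 (nat_lit 0x1d0062), .r 3 (nat_lit 0xbc0056), .r 3 (nat_lit 0xbd0057), .r 3 (nat_lit 0xbe0058), .r 3 (nat_lit 0x1e0eec), .r 3 (nat_lit 0xbf0059), .r 3 (nat_lit 0xc0005a), .r 3 (nat_lit 0xc1005b), .r 3 (nat_lit 0x1f0ef0), .r 3 (nat_lit 0xc2005d), .r 3 (nat_lit 0xc3005e), .r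 3 (nat_lit 0xc4005f), .r 3 (nat_lit 0xc50060), .r 3 (nat_lit 0xc60061), .r 3 (nat_lit 0xc70062), .r 3 (nat_lit 0x200ef7), .r 3 (nat_lit 0xc80057), .r 3 (nat_lit 0xc90058), .r 3 (nat_lit 0xca0059), .r 3 (nat_lit 0xcb0056), .r 3 (nat_lit 0xcc0058), .r 3 (nat_lit 0xcd0059), .r 3 (nat_lit 0xce005b), .r 3 (nat_lit 0xcf005c)] (by decide +kernel) (by decide +kernel)
theorem b120 : B 3840 3872 := Blk.of_chk [.r 3 (nat_lit 0xd00059), .r 3 (nat_lit 0xd1005c), .r 3 (nat_lit 0xd2005b), .r 3 (nat_lit 0xd3005f), .r 3 (nat_lit 0xd4005f), .r 3 (nat_lit 0xe60eeb), .r 3 (nat_lit 0xe70eec), .r 3 (nat_lit 0xe80eec), .r 3 (nat_lit 0xe90eee), .r 3 (nat_lit 0xea0eef), .r 3 (nat_lit 0xeb0eee), .r 3 (nat_lit 0xec0ef4), .r 3 (nat_lit 0xed0ef6), .r 3 (nat_lit 0xee0ef7), .r 3 (nat_lit 0x370f0e), .r 3 (nat_lit 0xef0ef4), .r 3 (nat_lit 0x2960f0d), .r 3 (nat_lit 0x3a0f11),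 .r 3 (nat_lit 0x29c0f11), .r 3 (nat_lit 0x2a20004), .r 3 (nat_lit 0x2a30005), .r 3 (nat_lit 0x2a50005), .r 3 (nat_lit 0x2a70008), .r 3 (nat_lit 0x2a90010), .r 3 (nat_lit 0x2aa0014), .r 3 (nat_lit 0x2ab0010), .r 3 (nat_lit 0x2ac0014), .r 3 (nat_lit 0x2ad0012), .r 3 (nat_lit 0x2ae0013), .r 3 (nat_lit 0x2af0014), .r 3 (nat_lit 0x2b00014), .r 3 (nat_lit 0x2b10014)] (by decide +kernel) (by decide +kernel)

end Pool.Agent.GCP.F8_9
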