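import Pool.Agent.GCP.FactA

/-!
# The ring structure from the sizes of the near sets (MP_062f91_co)

If no line cuts off four points in convex position (`K1`), exactly three points are beyond every
chord `p (i-1), p (i+1)` and exactly six beyond every chord `p (i-1), p (i+2)`, then `X` has the
ring structure, up to the statement `s3` (no triple).
-/

namespace Pool.Agent.GCP

/-- The ring structure without `s3`. -/
structure RingS0 (X : Finset Pt) (h : ℕ) (p a c : ZMod h → Pt) : Prop where
  gp : GeneralPosition X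
  hh : 5 ≤ h
  pinj : Function.Injective p
  pX : ∀ i, p i ∈ X
  aX : ∀ i, a i ∈ X
  cX : ∀ i, c i ∈ X
  hull : ∀ i, ∀ z ∈ X, z ≠ p i → z ≠ p (i + 1) → 0 < orient (p i) (p (i + 1)) z
  a1 : ∀ i, ∀ z ∈ X, z ≠ p i → z ≠ p (i + 1) → z ≠ a i → 0 < orient (p i) (a i) z
  a2 : ∀ i, ∀ z ∈ X, z ≠ p i → z ≠ p (i + 1) → z ≠ a i → orient (p (i + 1)) (a i) z < 0
  s1 : ∀ i, ∀ z ∈ X, orient (p (i - 1)) (p (i + 1)) z < 0 ↔
    z = a (i - 1) ∨ z = p i ∨ z = a i
  s2 : ∀ i, ∀ z ∈ X, orient (p (i - 1)) (p (i + 2)) z < 0 ↔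
    z = p i ∨ z = p (i + 1) ∨ z = a (i - 1) ∨ z = a i ∨ z = a (i + 1) ∨ z = c i
  ca : ∀ i j, c i ≠ a j
  cp : ∀ i j, c i ≠ p j
  /-- in addition: the `a i` are distinct from the hull vertices -/
  ap : ∀ i j, a i ≠ p j
  /-- in addition: convex order of the hull -/
  conv : ∀ (i : ZMod h) (j k : ℕ), 0 < j → j < k → k < h →
    0 < orient (p i) (p (i + (j : ZMod h))) (p (i + (k : ZMod h)))
  /-- in addition: all hull edges are listed -/
  all : ∀ v w, HE X v w → ∃ i, v = p i ∧ w = p (i + 1)

lemma RingS0.toRingS {X : Finset Pt} {h : ℕ} {p a c : ZMod h → Pt} (W : RingS0 X h p a c)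
    (s3 : ∀ i, ¬ (c (i - 1) = c i ∧ c i = c (i + 1))) : RingS X h p a c :=
  { gp := W.gp, hh := W.hh, pinj := W.pinj, pX := W.pX, aX := W.aX, cX := W.cX, hull := W.hull,
    a1 := W.a1, a2 := W.a2, s1 := W.s1, s2 := W.s2, s3 := s3, ca := W.ca, cp := W.cp }

namespace RO

lemma tri_nonneg {x y w z e f : Pt} (h1 : 0 < orient x y z) (h2 : 0 < orient y w z)
    (h3 : 0 < orient w x z) (hx : 0 ≤ orient e f x) (hy : 0 ≤ orient e f y)
    (hw : 0 ≤ orient e f w) : 0 ≤ orient e f z := by
  have key : (orient x y z + orient y w z + orient w x z) * orient e f z =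
      orient y w z * orient e f x + orient w x z * orient e f y + orient x y z * orient e f w := by
    unfold orient; ring
  have h5 : 0 ≤ (orient x y z + orient y w z + orient w x z) * orient e f z := by
    rw [key]
    have := mul_nonneg h2.le hx
    have := mul_nonneg h3.le hy
    have := mul_nonneg h1.le hw
    linarith
  have h6 : 0 < orient x y z + orient y w z + orient w x z := by linarith
  by_contra h7
  push Not at h7
  have := mul_neg_of_pos_of_neg h6 h7
  linarith

/-- one more point -/
lemma exists_other {X : Finset Pt} {k : ℕ} (T : Finset Pt) (hT : T.card ≤ k) (hX : k < X.card) :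
    ∃ z ∈ X, z ∉ T := by
  by_contra hcon
  push Not at hcon
  have := Finset.card_le_card (fun z hz => hcon z hz : X ⊆ T)
  omega

lemma ne_add {h : ℕ} (hh : 5 ≤ h) (i : ZMod h) {k : ℕ} (hk : 0 < k) (hk' : k < 5) :
    i + (k : ZMod h) ≠ i := (RingS.ne_shift hh i hk hk').symm

end RO

open RO Avg

theorem exists_ring {X : Finset Pt} (hX : GeneralPosition X) (hK : K1 X) (hn : 9 ≤ X.card) {h : ℕ}
    {p : ZMod h → Pt} (h3 : 3 ≤ h) (pinj : Function.Injective p) (pX : ∀ i, p i ∈ X)
    (hull : ∀ i, ∀ z ∈ X, z ≠ p i → z ≠ p (i + 1) → 0 < orient (p i) (p (i + 1)) z)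
    (hall : ∀ v w, HE X v w → ∃ i, v = p i ∧ w = p (i + 1))
    (hconv : ∀ (i : ZMod h) (a b : ℕ), 0 < a → a < b → b < h →
      0 < orient (p i) (p (i + (a : ZMod h))) (p (i + (b : ZMod h))))
    (E1 : ∀ i, (X.filter (fun z => orient (p (i - 1)) (p (i + 1)) z < 0)).card = 3)
    (E2 : ∀ i, (X.filter (fun z => orient (p (i - 1)) (p (i + 2)) z < 0)).card = 6) :
    ∃ a c : ZMod h → Pt, RingS0 X h p a c := by
  classical
  -- neighbours differ
  have hp1 : ∀ i, p i ≠ p (i + 1) := by
    intro i h1
    have h2 := pinj h1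
    have h3' : ((1 : ℕ) : ZMod h) = 0 := by
      rw [Nat.cast_one]
      have : i + 0 = i + 1 := by rw [add_zero]; exact h2
      exact (add_left_cancel this).symm
    rw [ZMod.natCast_eq_zero_iff] at h3'
    have := Nat.le_of_dvd (by omega) h3'
    omega
  have hHE : ∀ i, HE X (p i) (p (i + 1)) := fun i => ⟨pX i, pX (i + 1), hp1 i, hull i⟩
  -- a reversed hull edge has all other points beyond it
  have hrev : ∀ i, (X.filter (fun z => orient (p (i + 1)) (p i) z < 0)).card + 2 = X.card := by
    intro i
    have h1 : X.filter (fun z => orient (p (i + 1)) (p i) z < 0) =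
        (X.erase (p i)).erase (p (i + 1)) := by
      ext z
      rw [Finset.mem_filter, Finset.mem_erase, Finset.mem_erase]
      constructor
      · rintro ⟨a1, a2⟩
        refine ⟨?_, ?_, a1⟩
        · rintro rfl; simp at a2
        · rintro rfl; simp at a2
      · rintro ⟨a1, a2, a3⟩
        refine ⟨a3, ?_⟩
        have := hull i z a3 a2 a1
        rw [orient_swap]; linarith
    rw [h1, Finset.card_erase_of_mem (Finset.mem_erase.2 ⟨(hp1 i).symm, pX _⟩),
      Finset.card_erase_of_mem (pX i)]
    omega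
  have hh : 5 ≤ h := by
    by_contra hlt
    have hcases : h = 3 ∨ h = 4 := by omega
    rcases hcases with h1 | h1
    · have e0 : ((3 : ℕ) : ZMod h) = 0 := by rw [← h1]; exact ZMod.natCast_self h
      push_cast at e0
      have e1 := E1 0
      have e2 := hrev (0 + 1)
      have e3 : (0 : ZMod h) + 1 + 1 = 0 - 1 := by
        have : (0 : ZMod h) + 1 + 1 = (3 : ZMod h) - 1 := by ring
        rw [this, e0]
      rw [e3] at e2
      omega
    · have e0 : ((4 : ℕ) : ZMod h) = 0 := by rw [← h1]; exact ZMod.natCast_self h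
      push_cast at e0
      have e1 := E2 0
      have e2 := hrev (0 + 2)
      have e3 : (0 : ZMod h) + 2 + 1 = 0 - 1 := by
        have : (0 : ZMod h) + 2 + 1 = (4 : ZMod h) - 1 := by ring
        rw [this, e0]
      rw [e3] at e2
      omega
  -- the points a
  have hA : ∀ i, ∃ a ∈ X, a ≠ p i ∧ a ≠ p (i + 1) ∧
      (∀ z ∈ X, z ≠ p i → z ≠ p (i + 1) → z ≠ a → 0 < orient (p i) a z) ∧
      (∀ z ∈ X, z ≠ p i → z ≠ p (i + 1) → z ≠ a → orient (p (i + 1)) a z < 0) :=
    fun i => factA hX hK (by omega) (hHE i)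
  choose a aX aP aR a1 a2 using hA
  have hap : ∀ i j, a i ≠ p j := by
    intro i j h1
    obtain ⟨z, hz, hzT⟩ := exists_other (X := X) ({p i, p (i + 1), a i} : Finset Pt)
      Finset.card_le_three (by omega)
    simp only [Finset.mem_insert, Finset.mem_singleton, not_or] at hzT
    obtain ⟨z1, z2, z3⟩ := hzT
    have k1 := a1 i z hz z1 z2 z3
    have k2 := a2 i z hz z1 z2 z3
    rw [h1] at k1 k2 z3
    have n1 : p i ≠ p j := by rw [← h1]; exact (aP i).symm
    have n2 : p (i + 1) ≠ p j := by rw [← h1]; exact (aR i).symm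
    refine Hull.not_inside (hHE j) (pX i) (pX (i + 1)) hz n1 n2 z3 (hp1 i) (Ne.symm z2)
      (Ne.symm z1) (hull i _ (pX j) n1.symm n2.symm) ?_ ?_
    · rw [orient_swap']; linarith
    · have : orient z (p i) (p j) = orient (p i) (p j) z := by unfold orient; ring
      rw [this]; exact k1
  have haa : ∀ i, a (i - 1) ≠ a i := by
    intro i h1
    obtain ⟨z, hz, hzT⟩ := exists_other (X := X) ({p (i - 1), p i, p (i + 1), a i} : Finset Pt)
      Finset.card_le_four (by omega)
    simp only [Finset.mem_insert, Finset.mem_singleton, not_or] at hzT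
    obtain ⟨z0, z1, z2, z3⟩ := hzT
    have k1 := a1 i z hz z1 z2 z3
    have e1 : i - 1 + 1 = i := by ring
    have k2 := a2 (i - 1) z hz z0 (by rw [e1]; exact z1) (by rw [h1]; exact z3)
    rw [e1, h1] at k2
    linarith
  -- convex order, special cases
  have c12 : ∀ i, 0 < orient (p (i - 1)) (p i) (p (i + 1)) := by
    intro i
    have := hconv (i - 1) 1 2 (by omega) (by omega) (by omega)
    rwa [show i - 1 + ((1 : ℕ) : ZMod h) = i by push_cast; ring,
      show i - 1 + ((2 : ℕ) : ZMod h) = i + 1 by push_cast; ring] at this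
  have c13 : ∀ i, 0 < orient (p (i - 1)) (p i) (p (i + 2)) := by
    intro i
    have := hconv (i - 1) 1 3 (by omega) (by omega) (by omega)
    rwa [show i - 1 + ((1 : ℕ) : ZMod h) = i by push_cast; ring,
      show i - 1 + ((3 : ℕ) : ZMod h) = i + 2 by push_cast; ring] at this
  have c23 : ∀ i, 0 < orient (p (i - 1)) (p (i + 1)) (p (i + 2)) := by
    intro i
    have := hconv (i - 1) 2 3 (by omega) (by omega) (by omega)
    rwa [show i - 1 + ((2 : ℕ) : ZMod h) = i + 1 by push_cast; ring,
      show i - 1 + ((3 : ℕ) : ZMod h) = i + 2 by push_cast; ring] at this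
  have hne : ∀ (i : ZMod h) (k : ℕ), 0 < k → k < 5 → p (i + (k : ZMod h)) ≠ p i :=
    fun i k hk hk' h1 => ne_add hh i hk hk' (pinj h1)
  have n2 : ∀ i, p (i + 1) ≠ p (i - 1) := by
    intro i
    have := hne (i - 1) 2 (by omega) (by omega)
    rwa [show i - 1 + ((2 : ℕ) : ZMod h) = i + 1 by push_cast; ring] at this
  have n3 : ∀ i, p (i + 2) ≠ p (i - 1) := by
    intro i
    have := hne (i - 1) 3 (by omega) (by omega)
    rwa [show i - 1 + ((3 : ℕ) : ZMod h) = i + 2 by push_cast; ring] at this
  have n2' : ∀ i, p (i + 2) ≠ p i := by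
    intro i
    have := hne i 2 (by omega) (by omega)
    rwa [show i + ((2 : ℕ) : ZMod h) = i + 2 by push_cast; ring] at this
  -- first near set
  have N1 : ∀ i, X.filter (fun z => orient (p (i - 1)) (p (i + 1)) z < 0) =
      {a (i - 1), p i, a i} := by
    intro i
    have e1 : i - 1 + 1 = i := by ring
    have hP : orient (p (i - 1)) (p (i + 1)) (p i) < 0 := by
      rw [orient_swap']; have := c12 i; linarith
    obtain ⟨u, hu, hu'⟩ := exists_other
      (X := X.filter (fun z => orient (p (i - 1)) (p (i + 1)) z < 0)) ({p i} : Finset Pt)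
      (by rw [Finset.card_singleton]) (by rw [E1 i]; omega)
    obtain ⟨uX, uN⟩ := Finset.mem_filter.1 hu
    rw [Finset.mem_singleton] at hu'
    have uL : u ≠ p (i - 1) := by rintro rfl; simp at uN
    have uR : u ≠ p (i + 1) := by rintro rfl; simp at uN
    have hL : orient (p (i - 1)) (p (i + 1)) (a (i - 1)) < 0 := by
      by_cases hua : u = a (i - 1)
      · rw [← hua]; exact uN
      · refine tri_side (x := p (i - 1)) (y := p i) (w := u) ?_ ?_ ?_ (by simp) hP.le uN
        · have := hull (i - 1) (a (i - 1)) (aX _) (aP _) (aR _)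
          rwa [e1] at this
        · have := a2 (i - 1) u uX uL (by rw [e1]; exact hu') hua
          rw [e1] at this
          rw [orient_swap']; linarith
        · have := a1 (i - 1) u uX uL (by rw [e1]; exact hu') hua
          have e : orient u (p (i - 1)) (a (i - 1)) = orient (p (i - 1)) (a (i - 1)) u := by
            unfold orient; ring
          rw [e]; exact this
    have hR : orient (p (i - 1)) (p (i + 1)) (a i) < 0 := by
      by_cases hua : u = a i
      · rw [← hua]; exact uN
      · refine tri_side (x := p i) (y := p (i + 1)) (w := u) ?_ ?_ ?_ hP.le (by simp) uN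
        · exact hull i (a i) (aX _) (aP _) (aR _)
        · have := a2 i u uX hu' uR hua
          rw [orient_swap']; linarith
        · have := a1 i u uX hu' uR hua
          have e : orient u (p i) (a i) = orient (p i) (a i) u := by
            unfold orient; ring
          rw [e]; exact this
    symm
    apply Finset.eq_of_subset_of_card_le
    · intro z hz
      simp only [Finset.mem_insert, Finset.mem_singleton] at hz
      rw [Finset.mem_filter]
      rcases hz with rfl | rfl | rfl
      · exact ⟨aX _, hL⟩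
      · exact ⟨pX _, hP⟩
      · exact ⟨aX _, hR⟩
    · rw [E1 i, Finset.card_insert_of_notMem, Finset.card_insert_of_notMem,
        Finset.card_singleton]
      · rw [Finset.mem_singleton]; exact (hap _ _).symm
      · rw [Finset.mem_insert, Finset.mem_singleton, not_or]
        exact ⟨hap _ _, haa i⟩
  have s1 : ∀ i, ∀ z ∈ X, orient (p (i - 1)) (p (i + 1)) z < 0 ↔
      z = a (i - 1) ∨ z = p i ∨ z = a i := by
    intro i z hz
    have h1 : z ∈ X.filter (fun z => orient (p (i - 1)) (p (i + 1)) z < 0) ↔
        z ∈ ({a (i - 1), p i, a i} : Finset Pt) := by rw [N1 i]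
    rw [Finset.mem_filter] at h1
    simp only [Finset.mem_insert, Finset.mem_singleton] at h1
    constructor
    · intro h2; exact h1.1 ⟨hz, h2⟩
    · intro h2; exact (h1.2 h2).2
  -- second near set: five known points
  have mono1 : ∀ i, ∀ z ∈ X, orient (p (i - 1)) (p (i + 1)) z < 0 →
      orient (p (i - 1)) (p (i + 2)) z < 0 := by
    intro i z hz h1
    have e1 : i - 1 + 1 = i := by ring
    have zL : z ≠ p (i - 1) := by rintro rfl; simp at h1
    have hs : ∀ w ∈ X, w ≠ p (i - 1) → w ≠ p i → 0 < orient (p (i - 1)) (p i) w := by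
      intro w hw w1 w2
      have := hull (i - 1) w hw w1 (by rw [e1]; exact w2)
      rwa [e1] at this
    have h2 : 0 ≤ orient (p (i - 1)) (p i) z := by
      by_cases hzp : z = p i
      · rw [hzp]; simp
      · exact (hs z hz zL hzp).le
    have := ang_trans (o := p (i - 1)) (e := p i) (x := z) (y := p (i + 1)) (z := p (i + 2)) h2
      (c12 i) (c13 i) (by rw [orient_swap']; linarith) (c23 i)
    rw [orient_swap']; linarith
  have mono2 : ∀ i, ∀ z ∈ X, orient (p i) (p (i + 2)) z < 0 →
      orient (p (i - 1)) (p (i + 2)) z < 0 := by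
    intro i z hz h1
    have zL : z ≠ p (i + 2) := by rintro rfl; simp at h1
    have e2 : i + 1 + 1 = i + 2 := by ring
    have hs : ∀ w ∈ X, w ≠ p (i + 1) → w ≠ p (i + 2) → orient (p (i + 2)) (p (i + 1)) w < 0 := by
      intro w hw w1 w2
      have := hull (i + 1) w hw w1 (by rw [e2]; exact w2)
      rw [e2] at this
      rw [orient_swap]; linarith
    have h2 : orient (p (i + 2)) (p (i + 1)) z ≤ 0 := by
      by_cases hzp : z = p (i + 1)
      · rw [hzp]; simp
      · exact (hs z hz hzp zL).le
    have hi1 : p i ≠ p (i + 1) := hp1 i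
    have h3' := ang_trans' (o := p (i + 2)) (e := p (i + 1)) (x := z) (y := p i)
      (z := p (i - 1)) h2 (hs _ (pX i) hi1 (n2' i).symm) (hs _ (pX _) (n2 i).symm (n3 i).symm)
      ?_ ?_
    · have e : orient (p (i - 1)) (p (i + 2)) z = orient (p (i + 2)) z (p (i - 1)) := by
        unfold orient; ring
      rw [e]; exact h3'
    · have e : orient (p (i + 2)) z (p i) = orient (p i) (p (i + 2)) z := by
        unfold orient; ring
      rw [e]; exact h1
    · have e : orient (p (i + 2)) (p i) (p (i - 1)) = - orient (p (i - 1)) (p i) (p (i + 2)) := by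
        unfold orient; ring
      rw [e]; have := c13 i; linarith
  have five : ∀ i, ∀ z, z = p i ∨ z = p (i + 1) ∨ z = a (i - 1) ∨ z = a i ∨ z = a (i + 1) →
      z ∈ X ∧ orient (p (i - 1)) (p (i + 2)) z < 0 := by
    intro i z hz
    have e2 : i + 1 - 1 = i := by ring
    have e3 : i + 1 + 1 = i + 2 := by ring
    rcases hz with rfl | rfl | rfl | rfl | rfl
    · exact ⟨pX _, mono1 i _ (pX _) ((s1 i _ (pX _)).2 (by simp))⟩
    · refine ⟨pX _, ?_⟩
      rw [orient_swap']; have := c23 i; linarith
    · exact ⟨aX _, mono1 i _ (aX _) ((s1 i _ (aX _)).2 (by simp))⟩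
    · exact ⟨aX _, mono1 i _ (aX _) ((s1 i _ (aX _)).2 (by simp))⟩
    · refine ⟨aX _, mono2 i _ (aX _) ?_⟩
      have := (s1 (i + 1) (a (i + 1)) (aX _)).2 (by simp)
      rwa [e2, e3] at this
  have haa2 : ∀ i, a (i - 1) ≠ a (i + 1) := by
    intro i h1
    have e1 : i - 1 + 1 = i := by ring
    have e2 : i + 1 - 1 = i := by ring
    have e3 : i + 1 + 1 = i + 2 := by ring
    have k1 := (s1 (i + 1) (a (i + 1)) (aX _)).2 (by simp)
    rw [e2, e3, ← h1] at k1
    have k2 := a2 (i - 1) (p (i + 2)) (pX _) (n3 i) (by rw [e1]; exact n2' i) (hap _ _).symm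
    rw [e1, orient_swap'] at k2
    linarith
  have haa' : ∀ i, a i ≠ a (i + 1) := by
    intro i
    have := haa (i + 1)
    rwa [show i + 1 - 1 = i by ring] at this
  have hC : ∀ i, ∃ c ∈ X, c ≠ p i ∧ c ≠ p (i + 1) ∧ c ≠ a (i - 1) ∧ c ≠ a i ∧ c ≠ a (i + 1) ∧
      ∀ z ∈ X, orient (p (i - 1)) (p (i + 2)) z < 0 ↔
        z = p i ∨ z = p (i + 1) ∨ z = a (i - 1) ∨ z = a i ∨ z = a (i + 1) ∨ z = c := by
    intro i
    set F : Finset Pt := {p i, p (i + 1), a (i - 1), a i, a (i + 1)} with hF
    have hFc : F.card = 5 := by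
      rw [hF, Finset.card_insert_of_notMem, Finset.card_insert_of_notMem,
        Finset.card_insert_of_notMem, Finset.card_insert_of_notMem, Finset.card_singleton]
      · rw [Finset.mem_singleton]; exact haa' i
      · simp only [Finset.mem_insert, Finset.mem_singleton, not_or]
        exact ⟨haa i, haa2 i⟩
      · simp only [Finset.mem_insert, Finset.mem_singleton, not_or]
        exact ⟨(hap _ _).symm, (hap _ _).symm, (hap _ _).symm⟩
      · simp only [Finset.mem_insert, Finset.mem_singleton, not_or]
        exact ⟨hp1 i, (hap _ _).symm, (hap _ _).symm, (hap _ _).symm⟩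
    have hFs : F ⊆ X.filter (fun z => orient (p (i - 1)) (p (i + 2)) z < 0) := by
      intro z hz
      rw [hF] at hz
      simp only [Finset.mem_insert, Finset.mem_singleton] at hz
      rw [Finset.mem_filter]
      exact five i z hz
    obtain ⟨c, hc, hcF⟩ := exists_other
      (X := X.filter (fun z => orient (p (i - 1)) (p (i + 2)) z < 0)) F hFc.le
      (by rw [E2 i]; omega)
    obtain ⟨cX, cN⟩ := Finset.mem_filter.1 hc
    have hEq : insert c F = X.filter (fun z => orient (p (i - 1)) (p (i + 2)) z < 0) := by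
      apply Finset.eq_of_subset_of_card_le
      · intro z hz
        rcases Finset.mem_insert.1 hz with rfl | hz
        · exact hc
        · exact hFs hz
      · rw [E2 i, Finset.card_insert_of_notMem hcF, hFc]
    have hcF' := hcF
    rw [hF] at hcF'
    simp only [Finset.mem_insert, Finset.mem_singleton, not_or] at hcF'
    obtain ⟨q1, q2, q3, q4, q5⟩ := hcF'
    refine ⟨c, cX, q1, q2, q3, q4, q5, ?_⟩
    intro z hz
    have h1 : z ∈ insert c F ↔ z ∈ X.filter (fun z => orient (p (i - 1)) (p (i + 2)) z < 0) := by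
      rw [hEq]
    rw [Finset.mem_filter, hF] at h1
    simp only [Finset.mem_insert, Finset.mem_singleton] at h1
    constructor
    · intro h2
      rcases h1.2 ⟨hz, h2⟩ with h | h | h | h | h | h
      · exact Or.inr (Or.inr (Or.inr (Or.inr (Or.inr h))))
      · exact Or.inl h
      · exact Or.inr (Or.inl h)
      · exact Or.inr (Or.inr (Or.inl h))
      · exact Or.inr (Or.inr (Or.inr (Or.inl h)))
      · exact Or.inr (Or.inr (Or.inr (Or.inr (Or.inl h))))
    · rintro (h | h | h | h | h | h)
      · exact (h1.1 (Or.inr (Or.inl h))).2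
      · exact (h1.1 (Or.inr (Or.inr (Or.inl h)))).2
      · exact (h1.1 (Or.inr (Or.inr (Or.inr (Or.inl h))))).2
      · exact (h1.1 (Or.inr (Or.inr (Or.inr (Or.inr (Or.inl h)))))).2
      · exact (h1.1 (Or.inr (Or.inr (Or.inr (Or.inr (Or.inr h)))))).2
      · exact (h1.1 (Or.inl h)).2
  choose c cX c1 c2 c3 c4 c5 s2 using hC
  haveI : NeZero h := ⟨by omega⟩
  -- hull vertices outside {i, i+1} are not near
  have far : ∀ i j, j ≠ i → j ≠ i + 1 → 0 ≤ orient (p (i - 1)) (p (i + 2)) (p j) := by
    intro i j h1 h2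
    set b := (j - (i - 1)).val with hb
    have hj : j = i - 1 + (b : ZMod h) := by
      rw [hb, ZMod.natCast_zmod_val]; ring
    have hbh : b < h := ZMod.val_lt _
    have hb0 : b = 0 ∨ b = 1 ∨ b = 2 ∨ b = 3 ∨ 3 < b := by omega
    rcases hb0 with h0 | h0 | h0 | h0 | h0
    · rw [h0, Nat.cast_zero, add_zero] at hj
      rw [hj]; simp
    · exfalso; apply h1
      rw [hj, h0]; push_cast; ring
    · exfalso; apply h2
      rw [hj, h0]; push_cast; ring
    · rw [h0] at hj
      rw [show j = i + 2 by rw [hj]; push_cast; ring]; simp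
    · have := hconv (i - 1) 3 b (by omega) h0 hbh
      rw [← hj, show i - 1 + ((3 : ℕ) : ZMod h) = i + 2 by push_cast; ring] at this
      exact this.le
  have cN : ∀ i, orient (p (i - 1)) (p (i + 2)) (c i) < 0 := fun i =>
    (s2 i _ (cX i)).2 (by simp)
  have cp : ∀ i j, c i ≠ p j := by
    intro i j h1
    by_cases hj1 : j = i
    · rw [hj1] at h1; exact c1 i h1
    · by_cases hj2 : j = i + 1
      · rw [hj2] at h1; exact c2 i h1
      · have := far i j hj1 hj2
        have h2 := cN i
        rw [h1] at h2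
        linarith
  have ca : ∀ i j, c i ≠ a j := by
    intro i j h1
    by_cases hj0 : j = i - 1
    · rw [hj0] at h1; exact c3 i h1
    by_cases hj1 : j = i
    · rw [hj1] at h1; exact c4 i h1
    by_cases hj2 : j = i + 1
    · rw [hj2] at h1; exact c5 i h1
    have f1 := far i j hj1 hj2
    have f2 := far i (j + 1) (by intro h2; apply hj0; rw [← h2]; ring)
      (by intro h2; apply hj1; exact add_right_cancel h2)
    -- a third vertex
    obtain ⟨w, hw, w1, w2, w3⟩ : ∃ w ∈ X, w ≠ p j ∧ w ≠ p (j + 1) ∧
        0 ≤ orient (p (i - 1)) (p (i + 2)) w ∧ True ∧ w ≠ a j := by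
      by_cases k1 : p (i - 1) = p (j + 1)
      · refine ⟨p (i + 2), pX _, ?_, ?_, by simp, trivial, (hap _ _).symm⟩
        · intro k2
          have k3 := pinj k1
          have k4 := pinj k2
          have k5 : (i - 1 : ZMod h) + ((4 : ℕ) : ZMod h) = i - 1 := by
            have : (i - 1 : ZMod h) + 4 = i + 2 + 1 := by ring
            push_cast
            rw [this, k4, k3]
          exact ne_add hh _ (by omega) (by omega) k5
        · rw [← k1]; exact n3 i
      · refine ⟨p (i - 1), pX _, ?_, k1, by simp, trivial, (hap _ _).symm⟩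
        intro k2; exact hj0 (pinj k2).symm
    have g1 := hull j (a j) (aX _) (aP _) (aR _)
    have g2 := a2 j w hw w1 w2 w3.2.2
    have g3 := a1 j w hw w1 w2 w3.2.2
    have g4 := tri_nonneg (x := p j) (y := p (j + 1)) (w := w) (z := a j) (e := p (i - 1))
      (f := p (i + 2)) g1 (by rw [orient_swap']; linarith)
      (by
        have e : orient w (p j) (a j) = orient (p j) (a j) w := by unfold orient; ring
        rw [e]; exact g3) f1 f2 w3.1
    have h2 := cN i
    rw [h1] at h2
    linarith
  refine ⟨a, c, ?_⟩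
  exact
    { gp := hX
      hh := hh
      pinj := pinj
      pX := pX
      aX := aX
      cX := cX
      hull := hull
      a1 := a1
      a2 := a2
      s1 := s1
      s2 := s2
      ca := ca
      cp := cp
      ap := hap
      conv := hconv
      all := hall }

end Pool.Agent.GCP
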