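import Pool.Agent.GCP.NoTriple
import Pool.Agent.GCP.RingOf

/-!
# The ring structure with `s3` (MP_062f91_co)
-/

namespace Pool.Agent.GCP

/-- No line cuts off eight points that can be partitioned into two convex polygons. -/
def K2 (X : Finset Pt) : Prop :=
  ∀ S : Finset Pt, S ⊆ X → S.card = 8 →
    Disjoint (convexHull ℝ (S : Set Pt)) (convexHull ℝ ((X \ S : Finset Pt) : Set Pt)) →
      ¬ HCPle (S : Set Pt) 2

/-- From 12 points on the hull has at least six vertices. -/
theorem RingS0.six {X : Finset Pt} {h : ℕ} {p a c : ZMod h → Pt} (W : RingS0 X h p a c)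
    (hn : 12 ≤ X.card) : 6 ≤ h := by
  classical
  by_contra hcon
  have h5 : h = 5 := by have := W.hh; omega
  subst h5
  have e4 : (2 + 1 + 1 : ZMod 5) = 0 - 1 := by decide
  have hsub : X ⊆ {p 0, p (0 + 1), a (0 - 1), a 0, a (0 + 1), c 0, p (0 - 1), p (0 + 2),
      a (2 + 1 - 1), p (2 + 1), a (2 + 1)} := by
    intro z hz
    simp only [Finset.mem_insert, Finset.mem_singleton]
    by_cases h1 : z = p (0 - 1)
    · tauto
    by_cases h2 : z = p (0 + 2)
    · tauto
    have h3 : p (0 - 1) ≠ p (0 + 2) := fun h => by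
      have := W.pinj h
      revert this
      decide
    have h4 := orient_ne W.gp (W.pX (0 - 1)) (W.pX (0 + 2)) hz h3 (Ne.symm h2) (Ne.symm h1)
    rcases lt_or_gt_of_ne h4 with h | h
    · have := (W.s2 0 z hz).1 h
      tauto
    · have h6 := (W.s1 (2 + 1) z hz).1 (by
        rw [e4, show (2 + 1 - 1 : ZMod 5) = 0 + 2 by decide, orient_swap]
        linarith)
      tauto
  have hc := Finset.card_le_card hsub
  have hle : ∀ (l : List Pt), (l.toFinset).card ≤ l.length := fun l => List.toFinset_card_le l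
  have h7 := hle [p 0, p (0 + 1), a (0 - 1), a 0, a (0 + 1), c 0, p (0 - 1), p (0 + 2),
      a (2 + 1 - 1), p (2 + 1), a (2 + 1)]
  have h8 : ([p 0, p (0 + 1), a (0 - 1), a 0, a (0 + 1), c 0, p (0 - 1), p (0 + 2),
      a (2 + 1 - 1), p (2 + 1), a (2 + 1)] : List Pt).toFinset =
      {p 0, p (0 + 1), a (0 - 1), a 0, a (0 + 1), c 0, p (0 - 1), p (0 + 2),
      a (2 + 1 - 1), p (2 + 1), a (2 + 1)} := by
    simp only [List.toFinset_cons, List.toFinset_nil, insert_empty_eq]
  rw [h8] at h7
  simp only [List.length_cons, List.length_nil] at h7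
  omega

/-- The full ring structure. -/
theorem RingS0.full {X : Finset Pt} {h : ℕ} {p a c : ZMod h → Pt} (W : RingS0 X h p a c)
    (hn : 13 ≤ X.card) (hK : K2 X) : RingS X h p a c :=
  W.toRingS (no_triple W.gp hn (W.six (by omega)) W.pinj W.pX W.aX W.cX W.hull W.a1 W.a2 W.s1
    W.s2 W.ca W.cp hK)

end Pool.Agent.GCP
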