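import Pool.Agent.GCP.W2
import Pool.Agent.GCP.NoTriple0

/-!
# The full ring structure (MP_062f91_co)
-/

namespace Pool.Agent.GCP

/-- A set of at least thirteen points such that no line cuts off four points in convex position and no
line cuts off eight points which are two convex polygons has the ring structure. -/
theorem exists_ringS {X : Finset Pt} (hX : GeneralPosition X) (hn : 13 ≤ X.card) (hK1 : K1 X)
    (hK2 : K2 X) : ∃ (h : ℕ) (p a c : ZMod h → Pt), RingS X h p a c := by
  obtain ⟨h, p, a, c, W⟩ := exists_ringS0 hX hn hK1 (fun S h1 h2 h3 => hK2 S h1 h2 h3)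
  exact ⟨h, p, a, c, W.full hn hK2⟩

end Pool.Agent.GCP
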