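import Pool.Agent.GCP.F7
import Pool.Agent.GCP.F8_9
import Pool.Agent.GCP.F8_10
import Pool.Agent.GCP.F8_11
import Pool.Agent.GCP.F8_12
import Pool.Agent.GCP.F8_13
import Pool.Agent.GCP.F8_14
import Pool.Agent.GCP.F9_9_11
import Pool.Agent.GCP.F9_9_12
import Pool.Agent.GCP.F9_9_13
import Pool.Agent.GCP.F9_9_14
import Pool.Agent.GCP.F9_10_12
import Pool.Agent.GCP.F9_10_13
import Pool.Agent.GCP.F9_10_14
import Pool.Agent.GCP.F9_11_13
import Pool.Agent.GCP.F9_11_14
import Pool.Agent.GCP.F9_12_14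
import Pool.Agent.GCP.F10_9_11_13
import Pool.Agent.GCP.F10_9_11_14
import Pool.Agent.GCP.F10_9_12_14
import Pool.Agent.GCP.F10_10_12_14
import Pool.Agent.GCP.E7
import Pool.Agent.GCP.E8_9
import Pool.Agent.GCP.E8_10
import Pool.Agent.GCP.W3
import Pool.Agent.GCP.Assembly

/-!
# Twenty-three points, and nineteen points with the full ring structure (MP_062f91_co)
-/

namespace Pool.Agent.GCP

lemma r23_empty (k : ℕ) : HCPle ((∅ : Finset Pt) : Set Pt) k :=
  ⟨0, Nat.zero_le k, [], rfl, by simp, by simp, by simp⟩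

lemma r23_ge {Y : Finset Pt} (h15 : Bd 15) (hg : GeneralPosition Y) {k : ℕ} (hk : 1 ≤ k)
    (hk4 : k ≤ 4) (hc : Y.card ≤ [0, 3, 7, 10, 15].getD k 0) : HCPle (Y : Set Pt) k := by
  by_cases h0 : Y.card = 0
  · rw [Finset.card_eq_zero] at h0
    subst h0
    exact r23_empty k
  · have : k = 1 ∨ k = 2 ∨ k = 3 ∨ k = 4 := by omega
    rcases this with rfl | rfl | rfl | rfl
    · exact hcp_three hc (by omega) hg
    · exact G7.facts.f2 Y hc hg
    · exact G7.facts.f3 Y hc hg
    · have hc' : Y.card ≤ 15 := hc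
      by_cases h : Y.card ≤ 14
      · exact hcp_fourteen h hg
      · exact h15 Y (by omega) hg

lemma r23_big {l : List ℕ} {k : ℕ} (h : l.length ≤ k) : l.getD k 0 = 0 := by
  rw [List.getD_eq_getElem?_getD, List.getElem?_eq_none h]
  rfl

lemma freeOK5 (h15 : Bd 15) : FreeOK [0, 3, 7, 10, 15] := by
  intro k Y hc hg
  by_cases h0 : Y.card = 0
  · rw [Finset.card_eq_zero] at h0
    subst h0
    exact r23_empty k
  · have hk : 1 ≤ k := by
      by_contra hlt
      have : k = 0 := by omega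
      subst this
      simp at hc
      exact h0 (by simp [hc])
    have hk4 : k ≤ 4 := by
      by_contra hlt
      rw [r23_big (by simp; omega)] at hc
      omega
    exact r23_ge h15 hg hk hk4 hc

lemma freeOK6 (h15 : Bd 15) (h19 : Bd 19) : FreeOK [0, 3, 7, 10, 15, 19] := by
  intro k Y hc hg
  by_cases h0 : Y.card = 0
  · rw [Finset.card_eq_zero] at h0
    subst h0
    exact r23_empty k
  · have hk : 1 ≤ k := by
      by_contra hlt
      have : k = 0 := by omega
      subst this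
      simp at hc
      exact h0 (by simp [hc])
    have hk5 : k ≤ 5 := by
      by_contra hlt
      rw [r23_big (by simp; omega)] at hc
      omega
    by_cases h5 : k = 5
    · subst h5
      have hc' : Y.card ≤ 19 := hc
      by_cases h1 : Y.card ≤ 15
      · by_cases h2 : Y.card ≤ 14
        · exact (hcp_fourteen h2 hg).mono (by omega)
        · exact (h15 Y (by omega) hg).mono (by omega)
      · by_cases h2 : Y.card = 19
        · exact h19 Y h2 hg
        · have : Y.card = 16 ∨ Y.card = 17 ∨ Y.card = 18 := by omega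
          rcases this with h | h | h
          · exact Bd.next (q := 3) (r := 0) (by omega) h15 Y h hg
          · exact Bd.next (q := 3) (r := 1) (by omega) h15 Y h hg
          · exact Bd.next (q := 3) (r := 2) (by omega) h15 Y h hg
    · refine r23_ge h15 hg hk (by omega) ?_
      have : k = 1 ∨ k = 2 ∨ k = 3 ∨ k = 4 := by omega
      rcases this with rfl | rfl | rfl | rfl <;> exact hc

/-- The list of the positions for nineteen points. -/
lemma FullR.cases19 {X : Finset Pt} {h : ℕ} {q : ℕ → ℕ} {Z : ℕ → Pt} (F : FullR X 18 h q Z)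
    (hh : 5 ≤ h) :
    (h = 7 ∧ q 4 = 12 ∧ q 5 = 15 ∧ q 6 = 18) ∨
    (h = 8 ∧ 9 ≤ q 4 ∧ q 4 ≤ 10 ∧ q 5 = 12 ∧ q 6 = 15 ∧ q 7 = 18) := by
  have m := F.mono
  have q1 := F.q1
  have q2 := F.q2
  have q3 := F.q3
  have a1 := F.qm1
  have a2 := F.qm2
  have a3 := F.qm3
  have hlow : ∀ t, 3 + t < h → 7 + 2 * t ≤ q (3 + t) := by
    intro t
    induction t with
    | zero => intro _; simpa using q3.ge
    | succ t ih =>
      intro ht
      have := m (3 + t) (by omega) (by omega)
      have := ih (by omega)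
      have e : 3 + (t + 1) = 3 + t + 1 := by ring
      rw [e]
      omega
  have h7 : 7 ≤ h := by
    by_contra hlt
    have : h = 5 ∨ h = 6 := by omega
    rcases this with rfl | rfl
    · norm_num at a3; omega
    · norm_num at a3; omega
  have h8 : h ≤ 8 := by
    have := hlow (h - 6) (by omega)
    have e : 3 + (h - 6) = h - 3 := by omega
    rw [e, a3] at this
    omega
  interval_cases h
  · left
    norm_num at a1 a2 a3
    exact ⟨rfl, a3, a2, a1⟩
  · right
    norm_num at a1 a2 a3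
    have b1 := m 3 (by omega) (by omega)
    have b2 := m 4 (by omega) (by omega)
    norm_num at b1 b2
    omega

lemma FullR.img_set {X : Finset Pt} {N h : ℕ} {q : ℕ → ℕ} {Z : ℕ → Pt} (F : FullR X N h q Z) :
    (X : Set Pt) = Z '' {i | i < N + 1} := by
  rw [F.img]
  ext x
  simp

/-- Nineteen points. -/
theorem FullR.hcp19 {X : Finset Pt} {h : ℕ} {q : ℕ → ℕ} {Z : ℕ → Pt} (F : FullR X 18 h q Z)
    (hh : 5 ≤ h) (h15 : Bd 15) : HCPle (X : Set Pt) 5 := by
  have hF := freeOK5 h15
  have q0 := F.q0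
  have q1 := F.q1
  have q2 := F.q2
  have q3 := F.q3
  rw [F.img_set]
  rcases F.cases19 hh with ⟨rfl, e4, e5, e6⟩ | ⟨rfl, l4, u4, e5, e6, e7⟩
  · refine E7.main hF (F.toRZ (by omega) rfl ?_)
    intro j hj
    interval_cases j <;> simp [*]
  · have : q 4 = 9 ∨ q 4 = 10 := by omega
    rcases this with e4 | e4
    · refine E8_9.main hF (F.toRZ (by omega) rfl ?_)
      intro j hj
      interval_cases j <;> simp [*]
    · refine E8_10.main hF (F.toRZ (by omega) rfl ?_)
      intro j hj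
      interval_cases j <;> simp [*]

/-- Twenty-three points. -/
theorem FullR.hcp23 {X : Finset Pt} {h : ℕ} {q : ℕ → ℕ} {Z : ℕ → Pt} (F : FullR X 22 h q Z)
    (hh : 5 ≤ h) (h15 : Bd 15) (h19 : Bd 19) : HCPle (X : Set Pt) 6 := by
  have hF := freeOK6 h15 h19
  have q0 := F.q0
  have q1 := F.q1
  have q2 := F.q2
  have q3 := F.q3
  rw [F.img_set]
  rcases F.cases23 hh with ⟨rfl, e4, e5, e6⟩ | ⟨rfl, l4, u4, e5, e6, e7⟩ |
    ⟨rfl, l4, l5, u5, e6, e7, e8⟩ | ⟨rfl, l4, l5, l6, u6, e7, e8, e9⟩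
  · refine F7.main hF (F.toRZ (by omega) rfl ?_)
    intro j hj
    interval_cases j <;> simp [*]
  · have : q 4 = 9 ∨ q 4 = 10 ∨ q 4 = 11 ∨ q 4 = 12 ∨ q 4 = 13 ∨ q 4 = 14 := by omega
    rcases this with e4 | e4 | e4 | e4 | e4 | e4
    · refine F8_9.main hF (F.toRZ (by omega) rfl ?_)
      intro j hj
      interval_cases j <;> simp [*]
    · refine F8_10.main hF (F.toRZ (by omega) rfl ?_)
      intro j hj
      interval_cases j <;> simp [*]
    · refine F8_11.main hF (F.toRZ (by omega) rfl ?_)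
      intro j hj
      interval_cases j <;> simp [*]
    · refine F8_12.main hF (F.toRZ (by omega) rfl ?_)
      intro j hj
      interval_cases j <;> simp [*]
    · refine F8_13.main hF (F.toRZ (by omega) rfl ?_)
      intro j hj
      interval_cases j <;> simp [*]
    · refine F8_14.main hF (F.toRZ (by omega) rfl ?_)
      intro j hj
      interval_cases j <;> simp [*]
  · have : (q 4 = 9 ∧ q 5 = 11) ∨ (q 4 = 9 ∧ q 5 = 12) ∨ (q 4 = 9 ∧ q 5 = 13) ∨ (q 4 = 9 ∧ q 5 = 14) ∨ (q 4 = 10 ∧ q 5 = 12) ∨ (q 4 = 10 ∧ q 5 = 13) ∨ (q 4 = 10 ∧ q 5 = 14) ∨ (q 4 = 11 ∧ q 5 = 13) ∨ (q 4 = 11 ∧ q 5 = 14) ∨ (q 4 = 12 ∧ q 5 = 14) := by omega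
    rcases this with ⟨e4, e5⟩ | ⟨e4, e5⟩ | ⟨e4, e5⟩ | ⟨e4, e5⟩ | ⟨e4, e5⟩ | ⟨e4, e5⟩ | ⟨e4, e5⟩ | ⟨e4, e5⟩ | ⟨e4, e5⟩ | ⟨e4, e5⟩
    · refine F9_9_11.main hF (F.toRZ (by omega) rfl ?_)
      intro j hj
      interval_cases j <;> simp [*]
    · refine F9_9_12.main hF (F.toRZ (by omega) rfl ?_)
      intro j hj
      interval_cases j <;> simp [*]
    · refine F9_9_13.main hF (F.toRZ (by omega) rfl ?_)
      intro j hj
      interval_cases j <;> simp [*]
    · refine F9_9_14.main hF (F.toRZ (by omega) rfl ?_)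
      intro j hj
      interval_cases j <;> simp [*]
    · refine F9_10_12.main hF (F.toRZ (by omega) rfl ?_)
      intro j hj
      interval_cases j <;> simp [*]
    · refine F9_10_13.main hF (F.toRZ (by omega) rfl ?_)
      intro j hj
      interval_cases j <;> simp [*]
    · refine F9_10_14.main hF (F.toRZ (by omega) rfl ?_)
      intro j hj
      interval_cases j <;> simp [*]
    · refine F9_11_13.main hF (F.toRZ (by omega) rfl ?_)
      intro j hj
      interval_cases j <;> simp [*]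
    · refine F9_11_14.main hF (F.toRZ (by omega) rfl ?_)
      intro j hj
      interval_cases j <;> simp [*]
    · refine F9_12_14.main hF (F.toRZ (by omega) rfl ?_)
      intro j hj
      interval_cases j <;> simp [*]
  · have : (q 4 = 9 ∧ q 5 = 11 ∧ q 6 = 13) ∨ (q 4 = 9 ∧ q 5 = 11 ∧ q 6 = 14) ∨ (q 4 = 9 ∧ q 5 = 12 ∧ q 6 = 14) ∨ (q 4 = 10 ∧ q 5 = 12 ∧ q 6 = 14) := by omega
    rcases this with ⟨e4, e5, e6⟩ | ⟨e4, e5, e6⟩ | ⟨e4, e5, e6⟩ | ⟨e4, e5, e6⟩
    · refine F10_9_11_13.main hF (F.toRZ (by omega) rfl ?_)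
      intro j hj
      interval_cases j <;> simp [*]
    · refine F10_9_11_14.main hF (F.toRZ (by omega) rfl ?_)
      intro j hj
      interval_cases j <;> simp [*]
    · refine F10_9_12_14.main hF (F.toRZ (by omega) rfl ?_)
      intro j hj
      interval_cases j <;> simp [*]
    · refine F10_10_12_14.main hF (F.toRZ (by omega) rfl ?_)
      intro j hj
      interval_cases j <;> simp [*]

/-- Nineteen points with the full ring structure. -/
theorem hcp19_of_K {X : Finset Pt} (hX : GeneralPosition X) (hc : X.card = 19) (hK1 : K1 X)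
    (hK2 : K2 X) (h15 : Bd 15) : HCPle (X : Set Pt) 5 := by
  obtain ⟨h, p, a, c, W⟩ := exists_ringS0 hX (by omega) hK1 (fun S h1 h2 h3 => hK2 S h1 h2 h3)
  obtain ⟨q, Z, F⟩ := Geo.full W (N := 18) hc
  exact F.hcp19 W.hh h15

/-- The bound for twenty-three points. -/
theorem bd_twentythree (h15 : Bd 15) (h19 : Bd 19) : Bd 23 := by
  classical
  intro X hc hX
  by_cases hK1 : K1 X
  · by_cases hK2 : K2 X
    · obtain ⟨h, p, a, c, W⟩ := exists_ringS0 hX (by omega) hK1
        (fun S h1 h2 h3 => hK2 S h1 h2 h3)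
      obtain ⟨q, Z, F⟩ := Geo.full W (N := 22) hc
      exact F.hcp23 W.hh h15 h19
    · unfold K2 at hK2
      push Not at hK2
      obtain ⟨S, h1, h2, h3, h4⟩ := hK2
      refine perfect_cut (q := 5) (k := 2) (A := S) (B := X \ S) hc hX ?_ h2 (by omega) h4 h3 h15
      rw [← Finset.coe_union, Finset.union_sdiff_of_subset h1]
  · unfold K1 at hK1
    push Not at hK1
    obtain ⟨A, h1, h2, h3, h4⟩ := hK1
    refine perfect_cut (q := 5) (k := 1) (A := A) (B := X \ A) hc hX ?_ h2 (by omega) ?_ h3 h19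
    · rw [← Finset.coe_union, Finset.union_sdiff_of_subset h1]
    · refine ⟨1, le_refl _, [A], rfl, ?_, by simp, by simp⟩
      intro Y hY
      simp only [List.mem_singleton] at hY
      subst hY
      exact ⟨Finset.card_pos.1 (by omega), h4⟩

end Pool.Agent.GCP
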