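import Pool.Agent.GCP.F7Db

set_option autoImplicit false
set_option maxRecDepth 100000

/-! # Blocks F7B1 (generated) -/

namespace Pool.Agent.GCP.F7

open Pool.Agent.GCP DB

theorem b79 : B 2528 2560 := Blk.of_chk [.t 1 (nat_lit 0) (.ax 5 11 15 18 3), .t 1 (nat_lit 0) (.ax 5 11 15 19 4), .t 1 (nat_lit 0) (.ax 5 11 16 17 4), .t 1 (nat_lit 0) (.ax 5 11 16 18 4), .t 1 (nat_lit 0) (.ax 5 11 16 19 4), .t 1 (nat_lit 0) (.ax 5 11 18 19 0), .t 1 (nat_lit 0) (.ax 5 11 18 19 2), .t 1 (nat_lit 0) (.ax 5 12 13 14 2), .t 1 (nat_lit 0) (.ax 5 12 13 14 3), .t 1 (nat_lit 0) (.ax 5 12 13 15 3), .t 1 (nat_lit 0) (.ax 5 12 13 16 0), .t 1 (nat_lit 0) (.ax 5 12 13 16 1), .t 1 (nat_lit 0) (.ax 5 12 13 16 3), .t 1 (nat_lit 0) (.ax 5 12 13 16 4), .t 1 (nat_lit 0) (.ax 5 12 13 16 5), .t 1 (nat_lit 0) (.ax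 5 12 13 16 6), .t 1 (nat_lit 0) (.ax 5 12 13 16 7), .t 1 (nat_lit 0) (.ax 5 12 13 17 3), .t 1 (nat_lit 0) (.ax 5 12 13 18 3), .t 1 (nat_lit 0) (.ax 5 12 13 19 0), .t 1 (nat_lit 0) (.ax 5 12 13 19 1), .t 1 (nat_lit 0) (.ax 5 12 13 19 4), .t 1 (nat_lit 0) (.ax 5 12 14 15 3), .t 1 (nat_lit 0) (.ax 5 12 14 16 1), .t 1 (nat_lit 0) (.ax 5 12 14 16 5), .t 1 (nat_lit 0) (.ax 5 12 14 16 6), .t 1 (nat_lit 0) (.ax 5 12 14 16 7), .t 1 (nat_lit 0) (.ax 5 12 14 18 1), .t 1 (nat_lit 0) (.ax 5 12 14 18 4), .t 1 (nat_lit 0) (.ax 5 12 14 19 1), .t 1 (nat_lit 0) (.ax 5 12 15 16 0), .t 1 (nat_lit 0) (.ax 5 12 15 16 1)] (by decide +kernel) (by decide +kernel)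
theorem b80 : B 2560 2592 := Blk.of_chk [.t 1 (nat_lit 0) (.ax 5 12 15 16 3), .t 1 (nat_lit 0) (.ax 5 12 15 16 5), .t 1 (nat_lit 0) (.ax 5 12 15 16 6), .t 1 (nat_lit 0) (.ax 5 12 15 16 7), .t 1 (nat_lit 0) (.ax 5 12 15 19 1), .t 1 (nat_lit 0) (.ax 5 12 15 21 3), .t 1 (nat_lit 0) (.ax 5 12 16 17 4), .t 1 (nat_lit 0) (.ax 5 12 16 18 4), .t 1 (nat_lit 0) (.ax 5 12 16 19 4), .t 1 (nat_lit 0) (.ax 5 12 16 20 4), .t 1 (nat_lit 0) (.ax 5 12 16 21 4), .t 1 (nat_lit 0) (.ax 5 12 16 22 4), .t 1 (nat_lit 0) (.ax 5 12 18 19 0), .t 1 (nat_lit 0) (.ax 5 12 18 19 2), .t 1 (nat_lit 0) (.ax 5 13 14 15 1), .t 1 (nat_lit 0) (.ax 5 13 14 15 2), .t 1 (nat_lit 0) (.ax 5 13 14 15 4), .t 1 (nat_lit 0) (.ax 5 13 14 16 0), .t 1 (nat_lit 0) (.ax 5 13 14 16 1), .t 1 (nat_lit 0) (.ax 5 13 14 16 3), .t 1 (nat_lit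 0) (.ax 5 13 14 16 5), .t 1 (nat_lit 0) (.ax 5 13 14 16 7), .t 1 (nat_lit 0) (.ax 5 13 14 17 1), .t 1 (nat_lit 0) (.ax 5 13 14 17 4), .t 1 (nat_lit 0) (.ax 5 13 14 19 0), .t 1 (nat_lit 0) (.ax 5 13 14 19 1), .t 1 (nat_lit 0) (.ax 5 13 14 19 4), .t 1 (nat_lit 0) (.ax 5 13 15 16 0), .t 1 (nat_lit 0) (.ax 5 13 15 16 1), .t 1 (nat_lit 0) (.ax 5 13 15 16 6), .t 1 (nat_lit 0) (.ax 5 13 15 16 7), .t 1 (nat_lit 0) (.ax 5 13 15 17 1)] (by decide +kernel) (by decide +kernel)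
theorem b81 : B 2592 2624 := Blk.of_chk [.t 1 (nat_lit 0) (.ax 5 13 15 17 3), .t 1 (nat_lit 0) (.ax 5 13 15 18 0), .t 1 (nat_lit 0) (.ax 5 13 15 19 0), .t 1 (nat_lit 0) (.ax 5 13 15 19 1), .t 1 (nat_lit 0) (.ax 5 13 15 21 3), .t 1 (nat_lit 0) (.ax 5 13 16 17 4), .t 1 (nat_lit 0) (.ax 5 13 16 18 4), .t 1 (nat_lit 0) (.ax 5 13 16 19 4), .t 1 (nat_lit 0) (.ax 5 13 17 19 0), .t 1 (nat_lit 0) (.ax 5 13 17 19 2), .t 1 (nat_lit 0) (.ax 5 13 17 19 4), .t 1 (nat_lit 0) (.ax 5 13 17 19 6), .t 1 (nat_lit 0) (.ax 5 13 18 19 0), .t 1 (nat_lit 0) (.ax 5 13 18 19 2), .t 1 (nat_lit 0) (.ax 5 14 15 16 0), .t 1 (nat_lit 0) (.ax 5 14 15 16 1), .t 1 (nat_lit 0) (.ax 5 14 15 16 3), .t 1 (nat_lit 0) (.ax 5 14 15 16 4), .t 1 (nat_lit 0) (.ax 5 14 15 16 7), .t 1 (nat_lit 0) (.ax 5 14 15 17 1), .t 1 (nat_lit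 0) (.ax 5 14 15 19 0), .t 1 (nat_lit 0) (.ax 5 14 15 19 2), .t 1 (nat_lit 0) (.ax 5 14 15 19 4), .t 1 (nat_lit 0) (.ax 5 14 16 17 4), .t 1 (nat_lit 0) (.ax 5 14 16 18 4), .t 1 (nat_lit 0) (.ax 5 14 16 19 4), .t 1 (nat_lit 0) (.ax 5 14 16 19 6), .t 1 (nat_lit 0) (.ax 5 14 16 21 4), .t 1 (nat_lit 0) (.ax 5 14 17 19 0), .t 1 (nat_lit 0) (.ax 5 14 17 19 2), .t 1 (nat_lit 0) (.ax 5 14 18 19 0), .t 1 (nat_lit 0) (.ax 5 14 18 19 2)] (by decide +kernel) (by decide +kernel)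
theorem b82 : B 2624 2656 := Blk.of_chk [.t 1 (nat_lit 0) (.ax 5 15 16 17 4), .t 1 (nat_lit 0) (.ax 5 15 16 18 4), .t 1 (nat_lit 0) (.ax 5 15 16 19 4), .t 1 (nat_lit 0) (.ax 5 15 16 21 4), .t 1 (nat_lit 0) (.ax 5 15 18 19 4), .t 1 (nat_lit 0) (.ax 5 16 19 21 0), .t 1 (nat_lit 0) (.ax 6 7 8 9 0), .t 1 (nat_lit 0) (.ax 6 7 8 9 2), .t 1 (nat_lit 0) (.ax 6 7 8 9 4), .t 1 (nat_lit 0) (.ax 6 7 8 9 5), .t 1 (nat_lit 0) (.ax 6 7 8 10 0), .t 1 (nat_lit 0) (.ax 6 7 8 10 2), .t 1 (nat_lit 0) (.ax 6 7 8 10 4), .t 1 (nat_lit 0) (.ax 6 7 8 10 5), .t 1 (nat_lit 0) (.ax 6 7 8 11 0), .t 1 (nat_lit 0) (.ax 6 7 8 11 2), .t 1 (nat_lit 0) (.ax 6 7 8 11 4), .t 1 (nat_lit 0) (.ax 6 7 8 11 5), .t 1 (nat_lit 0) (.ax 6 7 8 12 0), .t 1 (nat_lit 0) (.ax 6 7 8 12 5), .t 1 (nat_lit 0) (.ax 6 7 8 13 0), .t 1 (nat_lit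 0) (.ax 6 7 8 14 0), .t 1 (nat_lit 0) (.ax 6 7 8 14 5), .t 1 (nat_lit 0) (.ax 6 7 8 15 0), .t 1 (nat_lit 0) (.ax 6 7 8 15 5), .t 1 (nat_lit 0) (.ax 6 7 8 21 0), .t 1 (nat_lit 0) (.ax 6 7 9 10 0), .t 1 (nat_lit 0) (.ax 6 7 9 10 2), .t 1 (nat_lit 0) (.ax 6 7 9 10 4), .t 1 (nat_lit 0) (.ax 6 7 9 10 5), .t 1 (nat_lit 0) (.ax 6 7 9 11 0), .t 1 (nat_lit 0) (.ax 6 7 9 11 2)] (by decide +kernel) (by decide +kernel)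
theorem b83 : B 2656 2688 := Blk.of_chk [.t 1 (nat_lit 0) (.ax 6 7 9 11 5), .t 1 (nat_lit 0) (.ax 6 7 9 12 0), .t 1 (nat_lit 0) (.ax 6 7 9 12 5), .t 1 (nat_lit 0) (.ax 6 7 9 21 0), .t 1 (nat_lit 0) (.ax 6 7 10 11 0), .t 1 (nat_lit 0) (.ax 6 7 10 11 2), .t 1 (nat_lit 0) (.ax 6 7 10 11 4), .t 1 (nat_lit 0) (.ax 6 7 10 11 5), .t 1 (nat_lit 0) (.ax 6 7 10 12 0), .t 1 (nat_lit 0) (.ax 6 7 10 12 5), .t 1 (nat_lit 0) (.ax 6 7 11 12 0), .t 1 (nat_lit 0) (.ax 6 7 11 12 2), .t 1 (nat_lit 0) (.ax 6 7 11 12 4), .t 1 (nat_lit 0) (.ax 6 7 11 12 5), .t 1 (nat_lit 0) (.ax 6 7 11 15 0), .t 1 (nat_lit 0) (.ax 6 7 11 15 5), .t 1 (nat_lit 0) (.ax 6 7 12 13 2), .t 1 (nat_lit 0) (.ax 6 7 12 13 4), .t 1 (nat_lit 0) (.ax 6 7 13 15 0), .t 1 (nat_lit 0) (.ax 6 7 13 15 5), .t 1 (nat_lit 0) (.ax 6 7 14 15 0),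 .t 1 (nat_lit 0) (.ax 6 7 14 15 2), .t 1 (nat_lit 0) (.ax 6 7 14 15 4), .t 1 (nat_lit 0) (.ax 6 7 14 15 5), .t 1 (nat_lit 0) (.ax 6 7 16 17 0), .t 1 (nat_lit 0) (.ax 6 7 16 18 0), .t 1 (nat_lit 0) (.ax 6 7 16 20 0), .t 1 (nat_lit 0) (.ax 6 7 16 21 0), .t 1 (nat_lit 0) (.ax 6 7 16 22 0), .t 1 (nat_lit 0) (.ax 6 8 9 10 0), .t 1 (nat_lit 0) (.ax 6 8 9 10 1), .t 1 (nat_lit 0) (.ax 6 8 9 10 2)] (by decide +kernel) (by decide +kernel)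
theorem b84 : B 2688 2720 := Blk.of_chk [.t 1 (nat_lit 0) (.ax 6 8 9 10 3), .t 1 (nat_lit 0) (.ax 6 8 9 10 4), .t 1 (nat_lit 0) (.ax 6 8 9 10 5), .t 1 (nat_lit 0) (.ax 6 8 9 10 6), .t 1 (nat_lit 0) (.ax 6 8 9 10 7), .t 1 (nat_lit 0) (.ax 6 8 9 11 0), .t 1 (nat_lit 0) (.ax 6 8 9 11 1), .t 1 (nat_lit 0) (.ax 6 8 9 11 2), .t 1 (nat_lit 0) (.ax 6 8 9 11 3), .t 1 (nat_lit 0) (.ax 6 8 9 11 4), .t 1 (nat_lit 0) (.ax 6 8 9 11 5), .t 1 (nat_lit 0) (.ax 6 8 9 11 6), .t 1 (nat_lit 0) (.ax 6 8 9 11 7), .t 1 (nat_lit 0) (.ax 6 8 9 12 1), .t 1 (nat_lit 0) (.ax 6 8 9 12 2), .t 1 (nat_lit 0) (.ax 6 8 9 12 3), .t 1 (nat_lit 0) (.ax 6 8 9 12 5), .t 1 (nat_lit 0) (.ax 6 8 9 12 7), .t 1 (nat_lit 0) (.ax 6 8 9 13 3), .t 1 (nat_lit 0) (.ax 6 8 9 16 0), .t 1 (nat_lit 0) (.ax 6 8 9 16 1), .t 1 (nat_lit 0)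 (.ax 6 8 9 16 3), .t 1 (nat_lit 0) (.ax 6 8 9 16 4), .t 1 (nat_lit 0) (.ax 6 8 9 16 5), .t 1 (nat_lit 0) (.ax 6 8 9 16 6), .t 1 (nat_lit 0) (.ax 6 8 9 16 7), .t 1 (nat_lit 0) (.ax 6 8 9 19 5), .t 1 (nat_lit 0) (.ax 6 8 9 19 7), .t 1 (nat_lit 0) (.ax 6 8 9 21 0), .t 1 (nat_lit 0) (.ax 6 8 10 11 0), .t 1 (nat_lit 0) (.ax 6 8 10 11 1), .t 1 (nat_lit 0) (.ax 6 8 10 11 2)] (by decide +kernel) (by decide +kernel)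
theorem b85 : B 2720 2752 := Blk.of_chk [.t 1 (nat_lit 0) (.ax 6 8 10 11 3), .t 1 (nat_lit 0) (.ax 6 8 10 11 4), .t 1 (nat_lit 0) (.ax 6 8 10 11 5), .t 1 (nat_lit 0) (.ax 6 8 10 11 6), .t 1 (nat_lit 0) (.ax 6 8 10 11 7), .t 1 (nat_lit 0) (.ax 6 8 10 12 0), .t 1 (nat_lit 0) (.ax 6 8 10 12 2), .t 1 (nat_lit 0) (.ax 6 8 10 12 3), .t 1 (nat_lit 0) (.ax 6 8 10 12 4), .t 1 (nat_lit 0) (.ax 6 8 10 12 5), .t 1 (nat_lit 0) (.ax 6 8 10 12 6), .t 1 (nat_lit 0) (.ax 6 8 10 12 7), .t 1 (nat_lit 0) (.ax 6 8 10 13 2), .t 1 (nat_lit 0) (.ax 6 8 10 13 4), .t 1 (nat_lit 0) (.ax 6 8 10 16 0), .t 1 (nat_lit 0) (.ax 6 8 10 16 1), .t 1 (nat_lit 0) (.ax 6 8 10 16 2), .t 1 (nat_lit 0) (.ax 6 8 10 16 4), .t 1 (nat_lit 0) (.ax 6 8 10 16 5), .t 1 (nat_lit 0) (.ax 6 8 10 16 6), .t 1 (nat_lit 0) (.ax 6 8 10 16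 7), .t 1 (nat_lit 0) (.ax 6 8 10 19 4), .t 1 (nat_lit 0) (.ax 6 8 10 19 5), .t 1 (nat_lit 0) (.ax 6 8 11 12 0), .t 1 (nat_lit 0) (.ax 6 8 11 12 1), .t 1 (nat_lit 0) (.ax 6 8 11 12 3), .t 1 (nat_lit 0) (.ax 6 8 11 12 4), .t 1 (nat_lit 0) (.ax 6 8 11 12 6), .t 1 (nat_lit 0) (.ax 6 8 11 12 7), .t 1 (nat_lit 0) (.ax 6 8 11 16 0), .t 1 (nat_lit 0) (.ax 6 8 11 16 1), .t 1 (nat_lit 0) (.ax 6 8 11 16 4)] (by decide +kernel) (by decide +kernel)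
theorem b86 : B 2752 2784 := Blk.of_chk [.t 1 (nat_lit 0) (.ax 6 8 11 16 6), .t 1 (nat_lit 0) (.ax 6 8 11 16 7), .t 1 (nat_lit 0) (.ax 6 8 11 19 2), .t 1 (nat_lit 0) (.ax 6 8 11 19 4), .t 1 (nat_lit 0) (.ax 6 8 11 21 0), .t 1 (nat_lit 0) (.ax 6 8 12 13 1), .t 1 (nat_lit 0) (.ax 6 8 12 13 4), .t 1 (nat_lit 0) (.ax 6 8 12 16 0), .t 1 (nat_lit 0) (.ax 6 8 12 16 1), .t 1 (nat_lit 0) (.ax 6 8 12 19 4), .t 1 (nat_lit 0) (.ax 6 8 12 19 5), .t 1 (nat_lit 0) (.ax 6 8 13 19 4), .t 1 (nat_lit 0) (.ax 6 8 14 16 1), .t 1 (nat_lit 0) (.ax 6 8 14 16 6), .t 1 (nat_lit 0) (.ax 6 8 15 16 0), .t 1 (nat_lit 0) (.ax 6 8 15 16 1), .t 1 (nat_lit 0) (.ax 6 8 15 16 6), .t 1 (nat_lit 0) (.ax 6 8 15 18 3), .t 1 (nat_lit 0) (.ax 6 8 15 19 3), .t 1 (nat_lit 0) (.ax 6 8 16 19 4), .t 1 (nat_lit 0) (.ax 6 9 10 11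 0), .t 1 (nat_lit 0) (.ax 6 9 10 11 1), .t 1 (nat_lit 0) (.ax 6 9 10 11 2), .t 1 (nat_lit 0) (.ax 6 9 10 11 3), .t 1 (nat_lit 0) (.ax 6 9 10 11 4), .t 1 (nat_lit 0) (.ax 6 9 10 11 5), .t 1 (nat_lit 0) (.ax 6 9 10 11 6), .t 1 (nat_lit 0) (.ax 6 9 10 11 7), .t 1 (nat_lit 0) (.ax 6 9 10 12 2), .t 1 (nat_lit 0) (.ax 6 9 10 12 4), .t 1 (nat_lit 0) (.ax 6 9 10 12 7), .t 1 (nat_lit 0) (.ax 6 9 10 16 0)] (by decide +kernel) (by decide +kernel)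
theorem b87 : B 2784 2816 := Blk.of_chk [.t 1 (nat_lit 0) (.ax 6 9 10 16 1), .t 1 (nat_lit 0) (.ax 6 9 10 16 5), .t 1 (nat_lit 0) (.ax 6 9 10 16 6), .t 1 (nat_lit 0) (.ax 6 9 10 16 7), .t 1 (nat_lit 0) (.ax 6 9 10 19 5), .t 1 (nat_lit 0) (.ax 6 9 10 19 7), .t 1 (nat_lit 0) (.ax 6 9 11 12 1), .t 1 (nat_lit 0) (.ax 6 9 11 12 2), .t 1 (nat_lit 0) (.ax 6 9 11 12 3), .t 1 (nat_lit 0) (.ax 6 9 11 12 4), .t 1 (nat_lit 0) (.ax 6 9 11 12 5), .t 1 (nat_lit 0) (.ax 6 9 11 12 6), .t 1 (nat_lit 0) (.ax 6 9 11 12 7), .t 1 (nat_lit 0) (.ax 6 9 11 13 7), .t 1 (nat_lit 0) (.ax 6 9 11 16 0), .t 1 (nat_lit 0) (.ax 6 9 11 16 1), .t 1 (nat_lit 0) (.ax 6 9 11 16 2), .t 1 (nat_lit 0) (.ax 6 9 11 16 3), .t 1 (nat_lit 0) (.ax 6 9 11 16 4), .t 1 (nat_lit 0) (.ax 6 9 11 16 5), .t 1 (nat_lit 0) (.ax 6 9 11 16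 6), .t 1 (nat_lit 0) (.ax 6 9 11 16 7), .t 1 (nat_lit 0) (.ax 6 9 11 19 4), .t 1 (nat_lit 0) (.ax 6 9 11 19 5), .t 1 (nat_lit 0) (.ax 6 9 12 16 0), .t 1 (nat_lit 0) (.ax 6 9 12 16 1), .t 1 (nat_lit 0) (.ax 6 9 12 16 6), .t 1 (nat_lit 0) (.ax 6 9 12 16 7), .t 1 (nat_lit 0) (.ax 6 9 13 16 0), .t 1 (nat_lit 0) (.ax 6 9 13 16 5), .t 1 (nat_lit 0) (.ax 6 9 14 16 0), .t 1 (nat_lit 0) (.ax 6 9 14 16 6)] (by decide +kernel) (by decide +kernel)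
theorem b88 : B 2816 2848 := Blk.of_chk [.t 1 (nat_lit 0) (.ax 6 9 14 21 3), .t 1 (nat_lit 0) (.ax 6 9 15 16 0), .t 1 (nat_lit 0) (.ax 6 9 16 19 4), .t 1 (nat_lit 0) (.ax 6 10 11 12 0), .t 1 (nat_lit 0) (.ax 6 10 11 12 1), .t 1 (nat_lit 0) (.ax 6 10 11 12 2), .t 1 (nat_lit 0) (.ax 6 10 11 12 3), .t 1 (nat_lit 0) (.ax 6 10 11 12 4), .t 1 (nat_lit 0) (.ax 6 10 11 12 5), .t 1 (nat_lit 0) (.ax 6 10 11 13 5), .t 1 (nat_lit 0) (.ax 6 10 11 16 1), .t 1 (nat_lit 0) (.ax 6 10 11 16 4), .t 1 (nat_lit 0) (.ax 6 10 11 16 5), .t 1 (nat_lit 0) (.ax 6 10 11 16 6), .t 1 (nat_lit 0) (.ax 6 10 11 16 7), .t 1 (nat_lit 0) (.ax 6 10 11 19 4), .t 1 (nat_lit 0) (.ax 6 10 11 19 5), .t 1 (nat_lit 0) (.ax 6 10 12 13 2), .t 1 (nat_lit 0) (.ax 6 10 12 13 3), .t 1 (nat_lit 0) (.ax 6 10 12 13 4), .t 1 (nat_lit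 0) (.ax 6 10 12 16 0), .t 1 (nat_lit 0) (.ax 6 10 12 16 2), .t 1 (nat_lit 0) (.ax 6 10 12 16 4), .t 1 (nat_lit 0) (.ax 6 10 12 16 5), .t 1 (nat_lit 0) (.ax 6 10 12 16 7), .t 1 (nat_lit 0) (.ax 6 10 13 19 4), .t 1 (nat_lit 0) (.ax 6 10 14 15 3), .t 1 (nat_lit 0) (.ax 6 10 14 16 6), .t 1 (nat_lit 0) (.ax 6 10 14 21 3), .t 1 (nat_lit 0) (.ax 6 10 16 19 4), .t 1 (nat_lit 0) (.ax 6 11 12 13 3), .t 1 (nat_lit 0) (.ax 6 11 12 13 5)] (by decide +kernel) (by decide +kernel)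
theorem b89 : B 2848 2880 := Blk.of_chk [.t 1 (nat_lit 0) (.ax 6 11 12 14 3), .t 1 (nat_lit 0) (.ax 6 11 12 15 3), .t 1 (nat_lit 0) (.ax 6 11 12 16 0), .t 1 (nat_lit 0) (.ax 6 11 12 16 1), .t 1 (nat_lit 0) (.ax 6 11 12 16 5), .t 1 (nat_lit 0) (.ax 6 11 12 16 6), .t 1 (nat_lit 0) (.ax 6 11 12 16 7), .t 1 (nat_lit 0) (.ax 6 11 12 19 2), .t 1 (nat_lit 0) (.ax 6 11 12 19 4), .t 1 (nat_lit 0) (.ax 6 11 12 20 3), .t 1 (nat_lit 0) (.ax 6 11 13 15 1), .t 1 (nat_lit 0) (.ax 6 11 13 15 3), .t 1 (nat_lit 0) (.ax 6 11 13 16 0), .t 1 (nat_lit 0) (.ax 6 11 13 16 1), .t 1 (nat_lit 0) (.ax 6 11 13 16 6), .t 1 (nat_lit 0) (.ax 6 11 13 19 4), .t 1 (nat_lit 0) (.ax 6 11 14 16 0), .t 1 (nat_lit 0) (.ax 6 11 14 16 1), .t 1 (nat_lit 0) (.ax 6 11 14 16 6), .t 1 (nat_lit 0) (.ax 6 11 14 19 0), .t 1 (nat_lit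 0) (.ax 6 11 14 21 3), .t 1 (nat_lit 0) (.ax 6 11 14 22 3), .t 1 (nat_lit 0) (.ax 6 11 15 16 0), .t 1 (nat_lit 0) (.ax 6 11 15 16 1), .t 1 (nat_lit 0) (.ax 6 11 15 16 6), .t 1 (nat_lit 0) (.ax 6 11 15 19 3), .t 1 (nat_lit 0) (.ax 6 11 15 19 4), .t 1 (nat_lit 0) (.ax 6 11 16 17 4), .t 1 (nat_lit 0) (.ax 6 11 16 18 4), .t 1 (nat_lit 0) (.ax 6 11 16 19 4), .t 1 (nat_lit 0) (.ax 6 11 16 20 4), .t 1 (nat_lit 0) (.ax 6 11 17 19 0)] (by decide +kernel) (by decide +kernel)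
theorem b90 : B 2880 2912 := Blk.of_chk [.t 1 (nat_lit 0) (.ax 6 11 17 19 2), .t 1 (nat_lit 0) (.ax 6 11 18 19 2), .t 1 (nat_lit 0) (.ax 6 12 13 15 1), .t 1 (nat_lit 0) (.ax 6 12 13 15 3), .t 1 (nat_lit 0) (.ax 6 12 13 16 0), .t 1 (nat_lit 0) (.ax 6 12 13 16 1), .t 1 (nat_lit 0) (.ax 6 12 13 16 5), .t 1 (nat_lit 0) (.ax 6 12 13 16 6), .t 1 (nat_lit 0) (.ax 6 12 13 16 7), .t 1 (nat_lit 0) (.ax 6 12 13 17 0), .t 1 (nat_lit 0) (.ax 6 12 13 17 2), .t 1 (nat_lit 0) (.ax 6 12 13 17 3), .t 1 (nat_lit 0) (.ax 6 12 13 18 0), .t 1 (nat_lit 0) (.ax 6 12 13 18 3), .t 1 (nat_lit 0) (.ax 6 12 13 19 0), .t 1 (nat_lit 0) (.ax 6 12 13 19 3), .t 1 (nat_lit 0) (.ax 6 12 13 19 4), .t 1 (nat_lit 0) (.ax 6 12 14 15 1), .t 1 (nat_lit 0) (.ax 6 12 14 16 0), .t 1 (nat_lit 0) (.ax 6 12 14 16 1), .t 1 (nat_lit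 0) (.ax 6 12 14 16 7), .t 1 (nat_lit 0) (.ax 6 12 14 17 0), .t 1 (nat_lit 0) (.ax 6 12 14 19 0), .t 1 (nat_lit 0) (.ax 6 12 14 19 1), .t 1 (nat_lit 0) (.ax 6 12 15 16 0), .t 1 (nat_lit 0) (.ax 6 12 15 16 1), .t 1 (nat_lit 0) (.ax 6 12 15 16 5), .t 1 (nat_lit 0) (.ax 6 12 15 16 6), .t 1 (nat_lit 0) (.ax 6 12 15 17 3), .t 1 (nat_lit 0) (.ax 6 12 15 19 0), .t 1 (nat_lit 0) (.ax 6 12 16 17 4), .t 1 (nat_lit 0) (.ax 6 12 16 18 4)] (by decide +kernel) (by decide +kernel)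
theorem b91 : B 2912 2944 := Blk.of_chk [.t 1 (nat_lit 0) (.ax 6 12 16 19 4), .t 1 (nat_lit 0) (.ax 6 12 16 20 4), .t 1 (nat_lit 0) (.ax 6 12 16 22 4), .t 1 (nat_lit 0) (.ax 6 12 17 19 0), .t 1 (nat_lit 0) (.ax 6 12 17 19 2), .t 1 (nat_lit 0) (.ax 6 12 18 19 2), .t 1 (nat_lit 0) (.ax 6 13 14 15 0), .t 1 (nat_lit 0) (.ax 6 13 14 15 3), .t 1 (nat_lit 0) (.ax 6 13 14 16 0), .t 1 (nat_lit 0) (.ax 6 13 14 16 1), .t 1 (nat_lit 0) (.ax 6 13 14 17 0), .t 1 (nat_lit 0) (.ax 6 13 14 18 1), .t 1 (nat_lit 0) (.ax 6 13 14 19 0), .t 1 (nat_lit 0) (.ax 6 13 15 16 0), .t 1 (nat_lit 0) (.ax 6 13 15 16 1), .t 1 (nat_lit 0) (.ax 6 13 15 16 3), .t 1 (nat_lit 0) (.ax 6 13 15 16 4), .t 1 (nat_lit 0) (.ax 6 13 15 16 5), .t 1 (nat_lit 0) (.ax 6 13 15 16 6), .t 1 (nat_lit 0) (.ax 6 13 15 16 7), .t 1 (nat_lit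 0) (.ax 6 13 15 17 3), .t 1 (nat_lit 0) (.ax 6 13 15 18 0), .t 1 (nat_lit 0) (.ax 6 13 15 19 0), .t 1 (nat_lit 0) (.ax 6 13 16 17 4), .t 1 (nat_lit 0) (.ax 6 13 16 18 4), .t 1 (nat_lit 0) (.ax 6 13 16 19 4), .t 1 (nat_lit 0) (.ax 6 13 17 19 0), .t 1 (nat_lit 0) (.ax 6 13 17 19 4), .t 1 (nat_lit 0) (.ax 6 14 15 16 0), .t 1 (nat_lit 0) (.ax 6 14 15 16 1), .t 1 (nat_lit 0) (.ax 6 14 15 16 3), .t 1 (nat_lit 0) (.ax 6 14 15 16 4)] (by decide +kernel) (by decide +kernel)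
theorem b92 : B 2944 2976 := Blk.of_chk [.t 1 (nat_lit 0) (.ax 6 14 15 16 6), .t 1 (nat_lit 0) (.ax 6 14 15 16 7), .t 1 (nat_lit 0) (.ax 6 14 15 19 0), .t 1 (nat_lit 0) (.ax 6 14 15 19 3), .t 1 (nat_lit 0) (.ax 6 14 15 19 4), .t 1 (nat_lit 0) (.ax 6 14 15 21 3), .t 1 (nat_lit 0) (.ax 6 14 16 17 4), .t 1 (nat_lit 0) (.ax 6 14 16 18 4), .t 1 (nat_lit 0) (.ax 6 14 16 19 4), .t 1 (nat_lit 0) (.ax 6 14 16 21 4), .t 1 (nat_lit 0) (.ax 6 14 16 22 4), .t 1 (nat_lit 0) (.ax 6 14 17 19 1), .t 1 (nat_lit 0) (.ax 6 14 17 19 2), .t 1 (nat_lit 0) (.ax 6 15 16 17 4), .t 1 (nat_lit 0) (.ax 6 15 16 18 4), .t 1 (nat_lit 0) (.ax 6 15 16 19 4), .t 1 (nat_lit 0) (.ax 6 15 16 21 4), .t 1 (nat_lit 0) (.ax 6 16 19 21 0), .t 1 (nat_lit 0) (.ax 7 8 9 10 0), .t 1 (nat_lit 0) (.ax 7 8 9 10 1), .t 1 (nat_lit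 0) (.ax 7 8 9 10 2), .t 1 (nat_lit 0) (.ax 7 8 9 10 3), .t 1 (nat_lit 0) (.ax 7 8 9 10 4), .t 1 (nat_lit 0) (.ax 7 8 9 10 5), .t 1 (nat_lit 0) (.ax 7 8 9 10 6), .t 1 (nat_lit 0) (.ax 7 8 9 10 7), .t 1 (nat_lit 0) (.ax 7 8 9 11 0), .t 1 (nat_lit 0) (.ax 7 8 9 11 1), .t 1 (nat_lit 0) (.ax 7 8 9 11 2), .t 1 (nat_lit 0) (.ax 7 8 9 11 3), .t 1 (nat_lit 0) (.ax 7 8 9 11 4), .t 1 (nat_lit 0) (.ax 7 8 9 11 5)] (by decide +kernel) (by decide +kernel)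
theorem b93 : B 2976 3008 := Blk.of_chk [.t 1 (nat_lit 0) (.ax 7 8 9 11 6), .t 1 (nat_lit 0) (.ax 7 8 9 11 7), .t 1 (nat_lit 0) (.ax 7 8 9 12 2), .t 1 (nat_lit 0) (.ax 7 8 9 12 5), .t 1 (nat_lit 0) (.ax 7 8 9 12 7), .t 1 (nat_lit 0) (.ax 7 8 9 16 2), .t 1 (nat_lit 0) (.ax 7 8 9 19 1), .t 1 (nat_lit 0) (.ax 7 8 9 19 4), .t 1 (nat_lit 0) (.ax 7 8 9 19 6), .t 1 (nat_lit 0) (.ax 7 8 9 21 5), .t 1 (nat_lit 0) (.ax 7 8 9 21 7), .t 1 (nat_lit 0) (.ax 7 8 10 11 0), .t 1 (nat_lit 0) (.ax 7 8 10 11 1), .t 1 (nat_lit 0) (.ax 7 8 10 11 2), .t 1 (nat_lit 0) (.ax 7 8 10 11 3), .t 1 (nat_lit 0) (.ax 7 8 10 11 4), .t 1 (nat_lit 0) (.ax 7 8 10 11 5), .t 1 (nat_lit 0) (.ax 7 8 10 11 6), .t 1 (nat_lit 0) (.ax 7 8 10 11 7), .t 1 (nat_lit 0) (.ax 7 8 10 12 3), .t 1 (nat_lit 0) (.ax 7 8 10 12 5), .t 1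 (nat_lit 0) (.ax 7 8 10 13 3), .t 1 (nat_lit 0) (.ax 7 8 10 13 5), .t 1 (nat_lit 0) (.ax 7 8 10 16 2), .t 1 (nat_lit 0) (.ax 7 8 10 19 4), .t 1 (nat_lit 0) (.ax 7 8 10 19 6), .t 1 (nat_lit 0) (.ax 7 8 10 21 7), .t 1 (nat_lit 0) (.ax 7 8 11 12 1), .t 1 (nat_lit 0) (.ax 7 8 11 12 4), .t 1 (nat_lit 0) (.ax 7 8 11 12 7), .t 1 (nat_lit 0) (.ax 7 8 11 13 7), .t 1 (nat_lit 0) (.ax 7 8 11 14 7)] (by decide +kernel) (by decide +kernel)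
theorem b94 : B 3008 3040 := Blk.of_chk [.t 1 (nat_lit 0) (.ax 7 8 11 15 7), .t 1 (nat_lit 0) (.ax 7 8 11 16 2), .t 1 (nat_lit 0) (.ax 7 8 11 18 7), .t 1 (nat_lit 0) (.ax 7 8 11 19 4), .t 1 (nat_lit 0) (.ax 7 8 11 20 7), .t 1 (nat_lit 0) (.ax 7 8 11 21 5), .t 1 (nat_lit 0) (.ax 7 8 11 21 7), .t 1 (nat_lit 0) (.ax 7 8 11 22 7), .t 1 (nat_lit 0) (.ax 7 8 12 13 1), .t 1 (nat_lit 0) (.ax 7 8 12 13 4), .t 1 (nat_lit 0) (.ax 7 8 12 16 2), .t 1 (nat_lit 0) (.ax 7 8 13 14 0), .t 1 (nat_lit 0) (.ax 7 8 13 14 2), .t 1 (nat_lit 0) (.ax 7 8 13 20 0), .t 1 (nat_lit 0) (.ax 7 8 13 22 0), .t 1 (nat_lit 0) (.ax 7 8 15 20 4), .t 1 (nat_lit 0) (.ax 7 8 16 17 3), .t 1 (nat_lit 0) (.ax 7 8 16 18 3), .t 1 (nat_lit 0) (.ax 7 8 16 20 3), .t 1 (nat_lit 0) (.ax 7 8 16 21 3), .t 1 (nat_lit 0) (.ax 7 8 16 22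 3), .t 1 (nat_lit 0) (.ax 7 8 17 19 6), .t 1 (nat_lit 0) (.ax 7 8 18 20 4), .t 1 (nat_lit 0) (.ax 7 8 18 22 0), .t 1 (nat_lit 0) (.ax 7 9 10 11 0), .t 1 (nat_lit 0) (.ax 7 9 10 11 1), .t 1 (nat_lit 0) (.ax 7 9 10 11 2), .t 1 (nat_lit 0) (.ax 7 9 10 11 3), .t 1 (nat_lit 0) (.ax 7 9 10 11 4), .t 1 (nat_lit 0) (.ax 7 9 10 11 5), .t 1 (nat_lit 0) (.ax 7 9 10 11 6), .t 1 (nat_lit 0) (.ax 7 9 10 11 7)] (by decide +kernel) (by decide +kernel)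
theorem b95 : B 3040 3072 := Blk.of_chk [.t 1 (nat_lit 0) (.ax 7 9 10 12 2), .t 1 (nat_lit 0) (.ax 7 9 10 12 5), .t 1 (nat_lit 0) (.ax 7 9 10 16 2), .t 1 (nat_lit 0) (.ax 7 9 10 19 4), .t 1 (nat_lit 0) (.ax 7 9 11 12 3), .t 1 (nat_lit 0) (.ax 7 9 11 12 5), .t 1 (nat_lit 0) (.ax 7 9 11 12 7), .t 1 (nat_lit 0) (.ax 7 9 11 19 4), .t 1 (nat_lit 0) (.ax 7 9 11 19 7), .t 1 (nat_lit 0) (.ax 7 9 11 21 5), .t 1 (nat_lit 0) (.ax 7 9 12 13 2), .t 1 (nat_lit 0) (.ax 7 9 12 16 2), .t 1 (nat_lit 0) (.ax 7 9 13 16 2), .t 1 (nat_lit 0) (.ax 7 9 15 19 4), .t 1 (nat_lit 0) (.ax 7 9 16 17 3), .t 1 (nat_lit 0) (.ax 7 9 16 18 3), .t 1 (nat_lit 0) (.ax 7 9 16 20 3), .t 1 (nat_lit 0) (.ax 7 9 16 21 3), .t 1 (nat_lit 0) (.ax 7 9 16 22 3), .t 1 (nat_lit 0) (.ax 7 9 18 22 0), .t 1 (nat_lit 0) (.ax 7 10 11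 12 1), .t 1 (nat_lit 0) (.ax 7 10 11 12 3), .t 1 (nat_lit 0) (.ax 7 10 11 12 4), .t 1 (nat_lit 0) (.ax 7 10 11 12 5), .t 1 (nat_lit 0) (.ax 7 10 11 12 7), .t 1 (nat_lit 0) (.ax 7 10 11 13 3), .t 1 (nat_lit 0) (.ax 7 10 11 13 5), .t 1 (nat_lit 0) (.ax 7 10 11 13 7), .t 1 (nat_lit 0) (.ax 7 10 11 14 7), .t 1 (nat_lit 0) (.ax 7 10 11 16 2), .t 1 (nat_lit 0) (.ax 7 10 11 19 0), .t 1 (nat_lit 0) (.ax 7 10 11 19 3)] (by decide +kernel) (by decide +kernel)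
theorem b96 : B 3072 3104 := Blk.of_chk [.t 1 (nat_lit 0) (.ax 7 10 11 19 4), .t 1 (nat_lit 0) (.ax 7 10 11 21 5), .t 1 (nat_lit 0) (.ax 7 10 12 13 1), .t 1 (nat_lit 0) (.ax 7 10 12 13 2), .t 1 (nat_lit 0) (.ax 7 10 12 13 4), .t 1 (nat_lit 0) (.ax 7 10 12 14 7), .t 1 (nat_lit 0) (.ax 7 10 12 19 7), .t 1 (nat_lit 0) (.ax 7 10 14 15 3), .t 1 (nat_lit 0) (.ax 7 10 14 19 6), .t 1 (nat_lit 0) (.ax 7 10 14 19 7), .t 1 (nat_lit 0) (.ax 7 10 15 16 2), .t 1 (nat_lit 0) (.ax 7 10 15 19 4), .t 1 (nat_lit 0) (.ax 7 10 16 17 3), .t 1 (nat_lit 0) (.ax 7 10 16 18 3), .t 1 (nat_lit 0) (.ax 7 10 16 20 3), .t 1 (nat_lit 0) (.ax 7 10 16 21 3), .t 1 (nat_lit 0) (.ax 7 10 16 22 3), .t 1 (nat_lit 0) (.ax 7 10 18 22 0), .t 1 (nat_lit 0) (.ax 7 11 12 13 1), .t 1 (nat_lit 0) (.ax 7 11 12 13 2), .t 1 (nat_lit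 0) (.ax 7 11 12 13 3), .t 1 (nat_lit 0) (.ax 7 11 12 13 4), .t 1 (nat_lit 0) (.ax 7 11 12 13 5), .t 1 (nat_lit 0) (.ax 7 11 12 14 3), .t 1 (nat_lit 0) (.ax 7 11 12 16 2), .t 1 (nat_lit 0) (.ax 7 11 12 19 2), .t 1 (nat_lit 0) (.ax 7 11 12 19 4), .t 1 (nat_lit 0) (.ax 7 11 12 20 2), .t 1 (nat_lit 0) (.ax 7 11 12 22 2), .t 1 (nat_lit 0) (.ax 7 11 13 14 0), .t 1 (nat_lit 0) (.ax 7 11 13 14 2), .t 1 (nat_lit 0) (.ax 7 11 13 19 2)] (by decide +kernel) (by decide +kernel)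
theorem b97 : B 3104 3136 := Blk.of_chk [.t 1 (nat_lit 0) (.ax 7 11 13 19 4), .t 1 (nat_lit 0) (.ax 7 11 13 20 0), .t 1 (nat_lit 0) (.ax 7 11 13 20 2), .t 1 (nat_lit 0) (.ax 7 11 13 22 2), .t 1 (nat_lit 0) (.ax 7 11 14 15 3), .t 1 (nat_lit 0) (.ax 7 11 14 15 7), .t 1 (nat_lit 0) (.ax 7 11 14 18 7), .t 1 (nat_lit 0) (.ax 7 11 14 19 1), .t 1 (nat_lit 0) (.ax 7 11 14 19 4), .t 1 (nat_lit 0) (.ax 7 11 14 19 6), .t 1 (nat_lit 0) (.ax 7 11 14 22 0), .t 1 (nat_lit 0) (.ax 7 11 15 19 4), .t 1 (nat_lit 0) (.ax 7 11 16 17 3), .t 1 (nat_lit 0) (.ax 7 11 16 18 3), .t 1 (nat_lit 0) (.ax 7 11 16 20 3), .t 1 (nat_lit 0) (.ax 7 11 16 21 3), .t 1 (nat_lit 0) (.ax 7 11 16 22 3), .t 1 (nat_lit 0) (.ax 7 11 18 19 0), .t 1 (nat_lit 0) (.ax 7 11 18 22 0), .t 1 (nat_lit 0) (.ax 7 12 13 14 0), .t 1 (nat_lit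 0) (.ax 7 12 13 14 2), .t 1 (nat_lit 0) (.ax 7 12 13 14 5), .t 1 (nat_lit 0) (.ax 7 12 13 15 2), .t 1 (nat_lit 0) (.ax 7 12 13 17 2), .t 1 (nat_lit 0) (.ax 7 12 13 19 2), .t 1 (nat_lit 0) (.ax 7 12 13 19 4), .t 1 (nat_lit 0) (.ax 7 12 13 19 6), .t 1 (nat_lit 0) (.ax 7 12 13 22 0), .t 1 (nat_lit 0) (.ax 7 12 13 22 4), .t 1 (nat_lit 0) (.ax 7 12 14 15 2), .t 1 (nat_lit 0) (.ax 7 12 14 15 7), .t 1 (nat_lit 0) (.ax 7 12 14 16 2)] (by decide +kernel) (by decide +kernel)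
theorem b98 : B 3136 3168 := Blk.of_chk [.t 1 (nat_lit 0) (.ax 7 12 14 17 2), .t 1 (nat_lit 0) (.ax 7 12 14 17 4), .t 1 (nat_lit 0) (.ax 7 12 14 18 2), .t 1 (nat_lit 0) (.ax 7 12 14 19 0), .t 1 (nat_lit 0) (.ax 7 12 14 19 1), .t 1 (nat_lit 0) (.ax 7 12 14 19 2), .t 1 (nat_lit 0) (.ax 7 12 14 19 4), .t 1 (nat_lit 0) (.ax 7 12 14 20 2), .t 1 (nat_lit 0) (.ax 7 12 14 22 0), .t 1 (nat_lit 0) (.ax 7 12 14 22 2), .t 1 (nat_lit 0) (.ax 7 12 14 22 4), .t 1 (nat_lit 0) (.ax 7 12 14 22 7), .t 1 (nat_lit 0) (.ax 7 12 15 22 0), .t 1 (nat_lit 0) (.ax 7 12 15 22 7), .t 1 (nat_lit 0) (.ax 7 12 16 17 3), .t 1 (nat_lit 0) (.ax 7 12 16 18 3), .t 1 (nat_lit 0) (.ax 7 12 16 20 3), .t 1 (nat_lit 0) (.ax 7 12 16 21 3), .t 1 (nat_lit 0) (.ax 7 12 16 22 3), .t 1 (nat_lit 0) (.ax 7 12 17 22 0), .t 1 (nat_lit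 0) (.ax 7 12 17 22 2), .t 1 (nat_lit 0) (.ax 7 12 18 22 0), .t 1 (nat_lit 0) (.ax 7 12 20 22 4), .t 1 (nat_lit 0) (.ax 7 13 14 15 2), .t 1 (nat_lit 0) (.ax 7 13 14 15 4), .t 1 (nat_lit 0) (.ax 7 13 14 17 7), .t 1 (nat_lit 0) (.ax 7 13 14 19 0), .t 1 (nat_lit 0) (.ax 7 13 14 19 1), .t 1 (nat_lit 0) (.ax 7 13 14 19 4), .t 1 (nat_lit 0) (.ax 7 13 14 20 0), .t 1 (nat_lit 0) (.ax 7 13 14 20 2), .t 1 (nat_lit 0) (.ax 7 13 14 22 0)] (by decide +kernel) (by decide +kernel)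
theorem b99 : B 3168 3200 := Blk.of_chk [.t 1 (nat_lit 0) (.ax 7 13 14 22 2), .t 1 (nat_lit 0) (.ax 7 13 15 17 7), .t 1 (nat_lit 0) (.ax 7 13 15 19 2), .t 1 (nat_lit 0) (.ax 7 13 16 17 3), .t 1 (nat_lit 0) (.ax 7 13 16 18 3), .t 1 (nat_lit 0) (.ax 7 13 16 20 3), .t 1 (nat_lit 0) (.ax 7 13 16 21 3), .t 1 (nat_lit 0) (.ax 7 13 16 22 3), .t 1 (nat_lit 0) (.ax 7 13 17 19 1), .t 1 (nat_lit 0) (.ax 7 13 17 19 4), .t 1 (nat_lit 0) (.ax 7 13 18 19 0), .t 1 (nat_lit 0) (.ax 7 13 18 22 0), .t 1 (nat_lit 0) (.ax 7 14 15 16 2), .t 1 (nat_lit 0) (.ax 7 14 15 17 2), .t 1 (nat_lit 0) (.ax 7 14 15 19 0), .t 1 (nat_lit 0) (.ax 7 14 15 19 2), .t 1 (nat_lit 0) (.ax 7 14 15 19 4), .t 1 (nat_lit 0) (.ax 7 14 15 19 5), .t 1 (nat_lit 0) (.ax 7 14 15 19 7), .t 1 (nat_lit 0) (.ax 7 14 15 22 0), .t 1 (nat_lit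 0) (.ax 7 14 16 17 3), .t 1 (nat_lit 0) (.ax 7 14 16 18 3), .t 1 (nat_lit 0) (.ax 7 14 16 20 3), .t 1 (nat_lit 0) (.ax 7 14 16 21 3), .t 1 (nat_lit 0) (.ax 7 14 16 22 3), .t 1 (nat_lit 0) (.ax 7 14 17 19 0), .t 1 (nat_lit 0) (.ax 7 14 17 19 1), .t 1 (nat_lit 0) (.ax 7 14 17 19 4), .t 1 (nat_lit 0) (.ax 7 14 17 19 6), .t 1 (nat_lit 0) (.ax 7 14 17 20 3), .t 1 (nat_lit 0) (.ax 7 14 17 21 3), .t 1 (nat_lit 0) (.ax 7 14 17 22 0)] (by decide +kernel) (by decide +kernel)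
theorem b100 : B 3200 3232 := Blk.of_chk [.t 1 (nat_lit 0) (.ax 7 14 17 22 3), .t 1 (nat_lit 0) (.ax 7 14 18 19 0), .t 1 (nat_lit 0) (.ax 7 14 18 19 2), .t 1 (nat_lit 0) (.ax 7 14 18 19 4), .t 1 (nat_lit 0) (.ax 7 14 18 22 0), .t 1 (nat_lit 0) (.ax 7 14 19 21 4), .t 1 (nat_lit 0) (.ax 7 14 19 22 4), .t 1 (nat_lit 0) (.ax 7 14 20 22 4), .t 1 (nat_lit 0) (.ax 7 14 20 22 6), .t 1 (nat_lit 0) (.ax 7 15 16 17 3), .t 1 (nat_lit 0) (.ax 7 15 16 18 3), .t 1 (nat_lit 0) (.ax 7 15 16 20 3), .t 1 (nat_lit 0) (.ax 7 15 16 21 3), .t 1 (nat_lit 0) (.ax 7 15 16 22 3), .t 1 (nat_lit 0) (.ax 7 15 17 19 6), .t 1 (nat_lit 0) (.ax 7 16 19 21 0), .t 1 (nat_lit 0) (.ax 7 17 18 22 0), .t 1 (nat_lit 0) (.ax 7 17 19 20 4), .t 1 (nat_lit 0) (.ax 7 17 19 21 4), .t 1 (nat_lit 0) (.ax 7 17 19 22 4), .t 1 (nat_lit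 0) (.ax 8 9 10 11 0), .t 1 (nat_lit 0) (.ax 8 9 10 11 1), .t 1 (nat_lit 0) (.ax 8 9 10 11 2), .t 1 (nat_lit 0) (.ax 8 9 10 11 3), .t 1 (nat_lit 0) (.ax 8 9 10 11 4), .t 1 (nat_lit 0) (.ax 8 9 10 11 5), .t 1 (nat_lit 0) (.ax 8 9 10 11 6), .t 1 (nat_lit 0) (.ax 8 9 10 11 7), .t 1 (nat_lit 0) (.ax 8 9 10 12 0), .t 1 (nat_lit 0) (.ax 8 9 10 12 1), .t 1 (nat_lit 0) (.ax 8 9 10 12 3), .t 1 (nat_lit 0) (.ax 8 9 10 12 4)] (by decide +kernel) (by decide +kernel)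
theorem b101 : B 3232 3264 := Blk.of_chk [.t 1 (nat_lit 0) (.ax 8 9 10 12 5), .t 1 (nat_lit 0) (.ax 8 9 10 12 6), .t 1 (nat_lit 0) (.ax 8 9 10 12 7), .t 1 (nat_lit 0) (.ax 8 9 10 13 0), .t 1 (nat_lit 0) (.ax 8 9 10 13 1), .t 1 (nat_lit 0) (.ax 8 9 10 13 5), .t 1 (nat_lit 0) (.ax 8 9 10 13 7), .t 1 (nat_lit 0) (.ax 8 9 10 15 0), .t 1 (nat_lit 0) (.ax 8 9 10 15 5), .t 1 (nat_lit 0) (.ax 8 9 10 16 0), .t 1 (nat_lit 0) (.ax 8 9 10 16 1), .t 1 (nat_lit 0) (.ax 8 9 10 16 2), .t 1 (nat_lit 0) (.ax 8 9 10 16 5), .t 1 (nat_lit 0) (.ax 8 9 10 16 7), .t 1 (nat_lit 0) (.ax 8 9 10 17 1), .t 1 (nat_lit 0) (.ax 8 9 10 17 4), .t 1 (nat_lit 0) (.ax 8 9 10 18 0), .t 1 (nat_lit 0) (.ax 8 9 10 19 2), .t 1 (nat_lit 0) (.ax 8 9 10 19 3), .t 1 (nat_lit 0) (.ax 8 9 10 19 5), .t 1 (nat_lit 0) (.ax 8 9 10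 19 7), .t 1 (nat_lit 0) (.ax 8 9 11 12 0), .t 1 (nat_lit 0) (.ax 8 9 11 12 1), .t 1 (nat_lit 0) (.ax 8 9 11 12 2), .t 1 (nat_lit 0) (.ax 8 9 11 12 3), .t 1 (nat_lit 0) (.ax 8 9 11 12 4), .t 1 (nat_lit 0) (.ax 8 9 11 12 5), .t 1 (nat_lit 0) (.ax 8 9 11 12 6), .t 1 (nat_lit 0) (.ax 8 9 11 12 7), .t 1 (nat_lit 0) (.ax 8 9 11 13 0), .t 1 (nat_lit 0) (.ax 8 9 11 13 3), .t 1 (nat_lit 0) (.ax 8 9 11 13 5)] (by decide +kernel) (by decide +kernel)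
theorem b102 : B 3264 3296 := Blk.of_chk [.t 1 (nat_lit 0) (.ax 8 9 11 13 6), .t 1 (nat_lit 0) (.ax 8 9 11 14 6), .t 1 (nat_lit 0) (.ax 8 9 11 15 4), .t 1 (nat_lit 0) (.ax 8 9 11 15 6), .t 1 (nat_lit 0) (.ax 8 9 11 16 1), .t 1 (nat_lit 0) (.ax 8 9 11 16 3), .t 1 (nat_lit 0) (.ax 8 9 11 16 4), .t 1 (nat_lit 0) (.ax 8 9 11 16 5), .t 1 (nat_lit 0) (.ax 8 9 11 17 6), .t 1 (nat_lit 0) (.ax 8 9 11 18 6), .t 1 (nat_lit 0) (.ax 8 9 11 19 1), .t 1 (nat_lit 0) (.ax 8 9 11 19 3), .t 1 (nat_lit 0) (.ax 8 9 11 19 4), .t 1 (nat_lit 0) (.ax 8 9 11 19 5), .t 1 (nat_lit 0) (.ax 8 9 11 19 6), .t 1 (nat_lit 0) (.ax 8 9 11 20 6), .t 1 (nat_lit 0) (.ax 8 9 11 21 6), .t 1 (nat_lit 0) (.ax 8 9 11 22 6), .t 1 (nat_lit 0) (.ax 8 9 12 13 0), .t 1 (nat_lit 0) (.ax 8 9 12 13 1), .t 1 (nat_lit 0) (.ax 8 9 12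 13 3), .t 1 (nat_lit 0) (.ax 8 9 12 13 5), .t 1 (nat_lit 0) (.ax 8 9 12 16 1), .t 1 (nat_lit 0) (.ax 8 9 12 16 5), .t 1 (nat_lit 0) (.ax 8 9 12 16 6), .t 1 (nat_lit 0) (.ax 8 9 12 16 7), .t 1 (nat_lit 0) (.ax 8 9 12 19 1), .t 1 (nat_lit 0) (.ax 8 9 12 19 4), .t 1 (nat_lit 0) (.ax 8 9 12 19 5), .t 1 (nat_lit 0) (.ax 8 9 12 19 6), .t 1 (nat_lit 0) (.ax 8 9 13 16 5), .t 1 (nat_lit 0) (.ax 8 9 13 16 7)] (by decide +kernel) (by decide +kernel)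
theorem b103 : B 3296 3328 := Blk.of_chk [.t 1 (nat_lit 0) (.ax 8 9 13 19 5), .t 1 (nat_lit 0) (.ax 8 9 14 16 5), .t 1 (nat_lit 0) (.ax 8 9 14 19 5), .t 1 (nat_lit 0) (.ax 8 9 15 16 0), .t 1 (nat_lit 0) (.ax 8 9 15 16 5), .t 1 (nat_lit 0) (.ax 8 9 15 18 0), .t 1 (nat_lit 0) (.ax 8 9 15 19 5), .t 1 (nat_lit 0) (.ax 8 9 16 17 1), .t 1 (nat_lit 0) (.ax 8 9 16 17 4), .t 1 (nat_lit 0) (.ax 8 9 16 18 2), .t 1 (nat_lit 0) (.ax 8 9 16 18 4), .t 1 (nat_lit 0) (.ax 8 9 16 19 4), .t 1 (nat_lit 0) (.ax 8 9 17 19 5), .t 1 (nat_lit 0) (.ax 8 9 19 20 4), .t 1 (nat_lit 0) (.ax 8 9 19 21 4), .t 1 (nat_lit 0) (.ax 8 9 19 22 4), .t 1 (nat_lit 0) (.ax 8 10 11 12 0), .t 1 (nat_lit 0) (.ax 8 10 11 12 1), .t 1 (nat_lit 0) (.ax 8 10 11 12 2), .t 1 (nat_lit 0) (.ax 8 10 11 12 3), .t 1 (nat_lit 0) (.ax 8 10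 11 12 4), .t 1 (nat_lit 0) (.ax 8 10 11 12 5), .t 1 (nat_lit 0) (.ax 8 10 11 12 6), .t 1 (nat_lit 0) (.ax 8 10 11 13 0), .t 1 (nat_lit 0) (.ax 8 10 11 13 2), .t 1 (nat_lit 0) (.ax 8 10 11 13 3), .t 1 (nat_lit 0) (.ax 8 10 11 13 5), .t 1 (nat_lit 0) (.ax 8 10 11 15 3), .t 1 (nat_lit 0) (.ax 8 10 11 15 5), .t 1 (nat_lit 0) (.ax 8 10 11 15 7), .t 1 (nat_lit 0) (.ax 8 10 11 16 0), .t 1 (nat_lit 0) (.ax 8 10 11 16 4)] (by decide +kernel) (by decide +kernel)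
theorem b104 : B 3328 3360 := Blk.of_chk [.t 1 (nat_lit 0) (.ax 8 10 11 16 5), .t 1 (nat_lit 0) (.ax 8 10 11 16 7), .t 1 (nat_lit 0) (.ax 8 10 11 19 4), .t 1 (nat_lit 0) (.ax 8 10 11 19 5), .t 1 (nat_lit 0) (.ax 8 10 12 13 0), .t 1 (nat_lit 0) (.ax 8 10 12 13 1), .t 1 (nat_lit 0) (.ax 8 10 12 13 2), .t 1 (nat_lit 0) (.ax 8 10 12 13 4), .t 1 (nat_lit 0) (.ax 8 10 12 14 2), .t 1 (nat_lit 0) (.ax 8 10 12 16 5), .t 1 (nat_lit 0) (.ax 8 10 12 16 6), .t 1 (nat_lit 0) (.ax 8 10 12 16 7), .t 1 (nat_lit 0) (.ax 8 10 12 19 1), .t 1 (nat_lit 0) (.ax 8 10 12 19 2), .t 1 (nat_lit 0) (.ax 8 10 12 19 4), .t 1 (nat_lit 0) (.ax 8 10 12 19 5), .t 1 (nat_lit 0) (.ax 8 10 12 19 6), .t 1 (nat_lit 0) (.ax 8 10 13 16 5), .t 1 (nat_lit 0) (.ax 8 10 13 19 1), .t 1 (nat_lit 0) (.ax 8 10 14 15 3), .t 1 (nat_lit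 0) (.ax 8 10 14 15 5), .t 1 (nat_lit 0) (.ax 8 10 14 16 5), .t 1 (nat_lit 0) (.ax 8 10 14 18 4), .t 1 (nat_lit 0) (.ax 8 10 14 18 5), .t 1 (nat_lit 0) (.ax 8 10 14 19 1), .t 1 (nat_lit 0) (.ax 8 10 14 19 4), .t 1 (nat_lit 0) (.ax 8 10 15 16 0), .t 1 (nat_lit 0) (.ax 8 10 15 16 5), .t 1 (nat_lit 0) (.ax 8 10 15 17 0), .t 1 (nat_lit 0) (.ax 8 10 15 18 3), .t 1 (nat_lit 0) (.ax 8 10 15 18 5), .t 1 (nat_lit 0) (.ax 8 10 16 17 2)] (by decide +kernel) (by decide +kernel)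
theorem b105 : B 3360 3392 := Blk.of_chk [.t 1 (nat_lit 0) (.ax 8 10 16 17 4), .t 1 (nat_lit 0) (.ax 8 10 16 18 1), .t 1 (nat_lit 0) (.ax 8 10 16 18 4), .t 1 (nat_lit 0) (.ax 8 11 12 13 0), .t 1 (nat_lit 0) (.ax 8 11 12 13 1), .t 1 (nat_lit 0) (.ax 8 11 12 13 3), .t 1 (nat_lit 0) (.ax 8 11 12 13 4), .t 1 (nat_lit 0) (.ax 8 11 12 13 5), .t 1 (nat_lit 0) (.ax 8 11 12 14 1), .t 1 (nat_lit 0) (.ax 8 11 12 16 1), .t 1 (nat_lit 0) (.ax 8 11 12 16 3), .t 1 (nat_lit 0) (.ax 8 11 12 16 4), .t 1 (nat_lit 0) (.ax 8 11 12 16 5), .t 1 (nat_lit 0) (.ax 8 11 12 19 1), .t 1 (nat_lit 0) (.ax 8 11 12 19 2), .t 1 (nat_lit 0) (.ax 8 11 12 19 4), .t 1 (nat_lit 0) (.ax 8 11 12 19 5), .t 1 (nat_lit 0) (.ax 8 11 13 14 1), .t 1 (nat_lit 0) (.ax 8 11 13 14 2), .t 1 (nat_lit 0) (.ax 8 11 13 16 5), .t 1 (nat_lit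 0) (.ax 8 11 14 15 1), .t 1 (nat_lit 0) (.ax 8 11 14 15 4), .t 1 (nat_lit 0) (.ax 8 11 14 16 5), .t 1 (nat_lit 0) (.ax 8 11 14 19 1), .t 1 (nat_lit 0) (.ax 8 11 15 16 5), .t 1 (nat_lit 0) (.ax 8 11 15 19 2), .t 1 (nat_lit 0) (.ax 8 11 16 17 2), .t 1 (nat_lit 0) (.ax 8 11 16 17 4), .t 1 (nat_lit 0) (.ax 8 11 16 18 2), .t 1 (nat_lit 0) (.ax 8 11 16 18 4), .t 1 (nat_lit 0) (.ax 8 11 16 19 4), .t 1 (nat_lit 0) (.ax 8 11 16 20 4)] (by decide +kernel) (by decide +kernel)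
theorem b106 : B 3392 3424 := Blk.of_chk [.t 1 (nat_lit 0) (.ax 8 11 16 21 4), .t 1 (nat_lit 0) (.ax 8 11 16 22 4), .t 1 (nat_lit 0) (.ax 8 11 17 19 2), .t 1 (nat_lit 0) (.ax 8 11 18 19 0), .t 1 (nat_lit 0) (.ax 8 11 18 19 2), .t 1 (nat_lit 0) (.ax 8 12 13 14 2), .t 1 (nat_lit 0) (.ax 8 12 13 14 4), .t 1 (nat_lit 0) (.ax 8 12 13 16 5), .t 1 (nat_lit 0) (.ax 8 12 13 19 1), .t 1 (nat_lit 0) (.ax 8 12 13 19 4), .t 1 (nat_lit 0) (.ax 8 12 13 19 5), .t 1 (nat_lit 0) (.ax 8 12 14 15 1), .t 1 (nat_lit 0) (.ax 8 12 14 19 1), .t 1 (nat_lit 0) (.ax 8 12 14 19 2), .t 1 (nat_lit 0) (.ax 8 12 15 16 1), .t 1 (nat_lit 0) (.ax 8 12 16 18 2), .t 1 (nat_lit 0) (.ax 8 12 16 18 4), .t 1 (nat_lit 0) (.ax 8 12 16 19 4), .t 1 (nat_lit 0) (.ax 8 12 16 22 4), .t 1 (nat_lit 0) (.ax 8 12 17 19 1), .t 1 (nat_lit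 0) (.ax 8 12 18 19 1), .t 1 (nat_lit 0) (.ax 8 12 18 19 2), .t 1 (nat_lit 0) (.ax 8 12 18 22 0), .t 1 (nat_lit 0) (.ax 8 12 18 22 2), .t 1 (nat_lit 0) (.ax 8 13 14 15 1), .t 1 (nat_lit 0) (.ax 8 13 14 15 4), .t 1 (nat_lit 0) (.ax 8 13 14 19 0), .t 1 (nat_lit 0) (.ax 8 13 14 20 2), .t 1 (nat_lit 0) (.ax 8 13 14 20 4), .t 1 (nat_lit 0) (.ax 8 13 14 22 4), .t 1 (nat_lit 0) (.ax 8 13 16 17 2), .t 1 (nat_lit 0) (.ax 8 13 16 17 4)] (by decide +kernel) (by decide +kernel)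
theorem b107 : B 3424 3456 := Blk.of_chk [.t 1 (nat_lit 0) (.ax 8 13 16 19 4), .t 1 (nat_lit 0) (.ax 8 13 17 19 0), .t 1 (nat_lit 0) (.ax 8 13 17 19 2), .t 1 (nat_lit 0) (.ax 8 14 15 16 5), .t 1 (nat_lit 0) (.ax 8 14 15 17 1), .t 1 (nat_lit 0) (.ax 8 14 15 17 3), .t 1 (nat_lit 0) (.ax 8 14 15 17 5), .t 1 (nat_lit 0) (.ax 8 14 15 18 3), .t 1 (nat_lit 0) (.ax 8 14 15 18 5), .t 1 (nat_lit 0) (.ax 8 14 15 19 3), .t 1 (nat_lit 0) (.ax 8 14 15 19 4), .t 1 (nat_lit 0) (.ax 8 14 15 19 5), .t 1 (nat_lit 0) (.ax 8 14 15 20 0), .t 1 (nat_lit 0) (.ax 8 14 16 17 1), .t 1 (nat_lit 0) (.ax 8 14 16 17 4), .t 1 (nat_lit 0) (.ax 8 14 16 18 1), .t 1 (nat_lit 0) (.ax 8 14 16 18 2), .t 1 (nat_lit 0) (.ax 8 14 16 18 4), .t 1 (nat_lit 0) (.ax 8 14 16 19 4), .t 1 (nat_lit 0) (.ax 8 14 16 21 4), .t 1 (nat_lit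 0) (.ax 8 14 17 19 4), .t 1 (nat_lit 0) (.ax 8 14 18 19 2), .t 1 (nat_lit 0) (.ax 8 14 18 20 0), .t 1 (nat_lit 0) (.ax 8 14 18 22 2), .t 1 (nat_lit 0) (.ax 8 15 16 17 1), .t 1 (nat_lit 0) (.ax 8 15 16 17 2), .t 1 (nat_lit 0) (.ax 8 15 16 17 4), .t 1 (nat_lit 0) (.ax 8 15 16 18 1), .t 1 (nat_lit 0) (.ax 8 15 16 18 2), .t 1 (nat_lit 0) (.ax 8 15 16 18 4), .t 1 (nat_lit 0) (.ax 8 15 16 19 4), .t 1 (nat_lit 0) (.ax 8 15 17 19 2)] (by decide +kernel) (by decide +kernel)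
theorem b108 : B 3456 3488 := Blk.of_chk [.t 1 (nat_lit 0) (.ax 8 15 18 19 2), .t 1 (nat_lit 0) (.ax 8 15 18 19 4), .t 1 (nat_lit 0) (.ax 8 16 19 21 0), .t 1 (nat_lit 0) (.ax 9 10 11 12 0), .t 1 (nat_lit 0) (.ax 9 10 11 12 1), .t 1 (nat_lit 0) (.ax 9 10 11 12 2), .t 1 (nat_lit 0) (.ax 9 10 11 12 3), .t 1 (nat_lit 0) (.ax 9 10 11 12 4), .t 1 (nat_lit 0) (.ax 9 10 11 12 5), .t 1 (nat_lit 0) (.ax 9 10 11 12 6), .t 1 (nat_lit 0) (.ax 9 10 11 12 7), .t 1 (nat_lit 0) (.ax 9 10 11 13 0), .t 1 (nat_lit 0) (.ax 9 10 11 13 2), .t 1 (nat_lit 0) (.ax 9 10 11 13 3), .t 1 (nat_lit 0) (.ax 9 10 11 13 4), .t 1 (nat_lit 0) (.ax 9 10 11 13 5), .t 1 (nat_lit 0) (.ax 9 10 11 13 6), .t 1 (nat_lit 0) (.ax 9 10 11 15 3), .t 1 (nat_lit 0) (.ax 9 10 11 15 5), .t 1 (nat_lit 0) (.ax 9 10 11 16 2), .t 1 (nat_lit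 0) (.ax 9 10 11 16 3), .t 1 (nat_lit 0) (.ax 9 10 11 16 4), .t 1 (nat_lit 0) (.ax 9 10 11 16 5), .t 1 (nat_lit 0) (.ax 9 10 11 16 6), .t 1 (nat_lit 0) (.ax 9 10 11 19 3), .t 1 (nat_lit 0) (.ax 9 10 11 19 4), .t 1 (nat_lit 0) (.ax 9 10 11 19 5), .t 1 (nat_lit 0) (.ax 9 10 11 19 6), .t 1 (nat_lit 0) (.ax 9 10 11 21 4), .t 1 (nat_lit 0) (.ax 9 10 12 13 0), .t 1 (nat_lit 0) (.ax 9 10 12 13 2), .t 1 (nat_lit 0) (.ax 9 10 12 13 3)] (by decide +kernel) (by decide +kernel)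
theorem b109 : B 3488 3520 := Blk.of_chk [.t 1 (nat_lit 0) (.ax 9 10 12 13 4), .t 1 (nat_lit 0) (.ax 9 10 12 13 5), .t 1 (nat_lit 0) (.ax 9 10 12 13 6), .t 1 (nat_lit 0) (.ax 9 10 12 14 0), .t 1 (nat_lit 0) (.ax 9 10 12 16 1), .t 1 (nat_lit 0) (.ax 9 10 12 16 5), .t 1 (nat_lit 0) (.ax 9 10 12 16 6), .t 1 (nat_lit 0) (.ax 9 10 12 19 0), .t 1 (nat_lit 0) (.ax 9 10 12 19 2), .t 1 (nat_lit 0) (.ax 9 10 12 19 4), .t 1 (nat_lit 0) (.ax 9 10 12 19 5), .t 1 (nat_lit 0) (.ax 9 10 12 19 7), .t 1 (nat_lit 0) (.ax 9 10 13 14 2), .t 1 (nat_lit 0) (.ax 9 10 13 14 4), .t 1 (nat_lit 0) (.ax 9 10 13 19 5), .t 1 (nat_lit 0) (.ax 9 10 14 19 0), .t 1 (nat_lit 0) (.ax 9 11 12 13 1), .t 1 (nat_lit 0) (.ax 9 11 12 13 2), .t 1 (nat_lit 0) (.ax 9 11 12 13 3), .t 1 (nat_lit 0) (.ax 9 11 12 13 4), .t 1 (nat_lit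 0) (.ax 9 11 12 13 5), .t 1 (nat_lit 0) (.ax 9 11 12 14 0), .t 1 (nat_lit 0) (.ax 9 11 12 14 2), .t 1 (nat_lit 0) (.ax 9 11 12 14 4), .t 1 (nat_lit 0) (.ax 9 11 12 14 5), .t 1 (nat_lit 0) (.ax 9 11 12 15 2), .t 1 (nat_lit 0) (.ax 9 11 12 16 1), .t 1 (nat_lit 0) (.ax 9 11 12 16 2), .t 1 (nat_lit 0) (.ax 9 11 12 16 3), .t 1 (nat_lit 0) (.ax 9 11 12 16 4), .t 1 (nat_lit 0) (.ax 9 11 12 16 5), .t 1 (nat_lit 0) (.ax 9 11 12 16 6)] (by decide +kernel) (by decide +kernel)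
theorem b110 : B 3520 3552 := Blk.of_chk [.t 1 (nat_lit 0) (.ax 9 11 12 19 4), .t 1 (nat_lit 0) (.ax 9 11 12 19 5), .t 1 (nat_lit 0) (.ax 9 11 12 20 4), .t 1 (nat_lit 0) (.ax 9 11 12 21 4), .t 1 (nat_lit 0) (.ax 9 11 13 14 2), .t 1 (nat_lit 0) (.ax 9 11 13 14 4), .t 1 (nat_lit 0) (.ax 9 11 13 16 1), .t 1 (nat_lit 0) (.ax 9 11 13 16 5), .t 1 (nat_lit 0) (.ax 9 11 13 19 4), .t 1 (nat_lit 0) (.ax 9 11 13 20 2), .t 1 (nat_lit 0) (.ax 9 11 14 16 1), .t 1 (nat_lit 0) (.ax 9 11 14 19 0), .t 1 (nat_lit 0) (.ax 9 11 14 19 4), .t 1 (nat_lit 0) (.ax 9 11 16 19 4), .t 1 (nat_lit 0) (.ax 9 11 20 22 4), .t 1 (nat_lit 0) (.ax 9 11 21 22 5), .t 1 (nat_lit 0) (.ax 9 12 13 14 1), .t 1 (nat_lit 0) (.ax 9 12 13 14 3), .t 1 (nat_lit 0) (.ax 9 12 13 14 4), .t 1 (nat_lit 0) (.ax 9 12 13 14 5), .t 1 (nat_lit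 0) (.ax 9 12 13 16 1), .t 1 (nat_lit 0) (.ax 9 12 13 16 5), .t 1 (nat_lit 0) (.ax 9 12 13 19 1), .t 1 (nat_lit 0) (.ax 9 12 13 19 4), .t 1 (nat_lit 0) (.ax 9 12 13 19 5), .t 1 (nat_lit 0) (.ax 9 12 13 21 4), .t 1 (nat_lit 0) (.ax 9 12 14 19 0), .t 1 (nat_lit 0) (.ax 9 12 14 19 1), .t 1 (nat_lit 0) (.ax 9 12 15 16 1), .t 1 (nat_lit 0) (.ax 9 12 15 16 3), .t 1 (nat_lit 0) (.ax 9 12 15 19 1), .t 1 (nat_lit 0) (.ax 9 12 16 17 2)] (by decide +kernel) (by decide +kernel)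
theorem b111 : B 3552 3584 := Blk.of_chk [.t 1 (nat_lit 0) (.ax 9 12 16 17 4), .t 1 (nat_lit 0) (.ax 9 12 16 19 4), .t 1 (nat_lit 0) (.ax 9 12 17 19 2), .t 1 (nat_lit 0) (.ax 9 12 18 19 1), .t 1 (nat_lit 0) (.ax 9 12 18 22 0), .t 1 (nat_lit 0) (.ax 9 12 18 22 2), .t 1 (nat_lit 0) (.ax 9 13 14 15 2), .t 1 (nat_lit 0) (.ax 9 13 14 15 4), .t 1 (nat_lit 0) (.ax 9 13 15 19 0), .t 1 (nat_lit 0) (.ax 9 13 16 19 4), .t 1 (nat_lit 0) (.ax 9 14 16 18 2), .t 1 (nat_lit 0) (.ax 9 14 16 18 4), .t 1 (nat_lit 0) (.ax 9 14 18 19 0), .t 1 (nat_lit 0) (.ax 9 14 18 19 2), .t 1 (nat_lit 0) (.ax 9 14 18 22 2), .t 1 (nat_lit 0) (.ax 9 15 16 19 4), .t 1 (nat_lit 0) (.ax 9 16 19 21 0), .t 1 (nat_lit 0) (.ax 9 18 19 22 4), .t 1 (nat_lit 0) (.ax 9 20 21 22 5), .t 1 (nat_lit 0) (.ax 10 11 12 13 0), .t 1 (nat_lit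 0) (.ax 10 11 12 13 1), .t 1 (nat_lit 0) (.ax 10 11 12 13 2), .t 1 (nat_lit 0) (.ax 10 11 12 13 3), .t 1 (nat_lit 0) (.ax 10 11 12 13 4), .t 1 (nat_lit 0) (.ax 10 11 12 13 5), .t 1 (nat_lit 0) (.ax 10 11 12 13 6), .t 1 (nat_lit 0) (.ax 10 11 12 14 0), .t 1 (nat_lit 0) (.ax 10 11 12 14 2), .t 1 (nat_lit 0) (.ax 10 11 12 14 3), .t 1 (nat_lit 0) (.ax 10 11 12 14 4), .t 1 (nat_lit 0) (.ax 10 11 12 14 5), .t 1 (nat_lit 0) (.ax 10 11 12 15 0)] (by decide +kernel) (by decide +kernel)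
theorem b112 : B 3584 3616 := Blk.of_chk [.t 1 (nat_lit 0) (.ax 10 11 12 15 3), .t 1 (nat_lit 0) (.ax 10 11 12 15 5), .t 1 (nat_lit 0) (.ax 10 11 12 16 0), .t 1 (nat_lit 0) (.ax 10 11 12 16 1), .t 1 (nat_lit 0) (.ax 10 11 12 16 3), .t 1 (nat_lit 0) (.ax 10 11 12 16 4), .t 1 (nat_lit 0) (.ax 10 11 12 16 5), .t 1 (nat_lit 0) (.ax 10 11 12 16 6), .t 1 (nat_lit 0) (.ax 10 11 12 19 2), .t 1 (nat_lit 0) (.ax 10 11 12 19 3), .t 1 (nat_lit 0) (.ax 10 11 12 19 4), .t 1 (nat_lit 0) (.ax 10 11 12 19 5), .t 1 (nat_lit 0) (.ax 10 11 12 19 7), .t 1 (nat_lit 0) (.ax 10 11 13 14 0), .t 1 (nat_lit 0) (.ax 10 11 13 14 1), .t 1 (nat_lit 0) (.ax 10 11 13 14 2), .t 1 (nat_lit 0) (.ax 10 11 13 14 3), .t 1 (nat_lit 0) (.ax 10 11 13 14 4), .t 1 (nat_lit 0) (.ax 10 11 13 14 5), .t 1 (nat_lit 0) (.ax 10 11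 13 15 0), .t 1 (nat_lit 0) (.ax 10 11 13 15 2), .t 1 (nat_lit 0) (.ax 10 11 13 15 5), .t 1 (nat_lit 0) (.ax 10 11 13 16 0), .t 1 (nat_lit 0) (.ax 10 11 13 16 1), .t 1 (nat_lit 0) (.ax 10 11 13 16 5), .t 1 (nat_lit 0) (.ax 10 11 13 19 1), .t 1 (nat_lit 0) (.ax 10 11 13 19 4), .t 1 (nat_lit 0) (.ax 10 11 13 19 5), .t 1 (nat_lit 0) (.ax 10 11 13 21 0), .t 1 (nat_lit 0) (.ax 10 11 13 22 0), .t 1 (nat_lit 0) (.ax 10 11 13 22 5), .t 1 (nat_lit 0) (.ax 10 11 14 15 0)] (by decide +kernel) (by decide +kernel)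
theorem b113 : B 3616 3648 := Blk.of_chk [.t 1 (nat_lit 0) (.ax 10 11 14 15 1), .t 1 (nat_lit 0) (.ax 10 11 14 15 2), .t 1 (nat_lit 0) (.ax 10 11 14 15 3), .t 1 (nat_lit 0) (.ax 10 11 14 15 4), .t 1 (nat_lit 0) (.ax 10 11 14 15 5), .t 1 (nat_lit 0) (.ax 10 11 14 16 1), .t 1 (nat_lit 0) (.ax 10 11 14 16 5), .t 1 (nat_lit 0) (.ax 10 11 14 19 0), .t 1 (nat_lit 0) (.ax 10 11 14 19 1), .t 1 (nat_lit 0) (.ax 10 11 14 19 4), .t 1 (nat_lit 0) (.ax 10 11 14 19 5), .t 1 (nat_lit 0) (.ax 10 11 14 22 0), .t 1 (nat_lit 0) (.ax 10 11 15 16 0), .t 1 (nat_lit 0) (.ax 10 11 15 16 1), .t 1 (nat_lit 0) (.ax 10 11 15 16 4), .t 1 (nat_lit 0) (.ax 10 11 15 16 5), .t 1 (nat_lit 0) (.ax 10 11 15 18 0), .t 1 (nat_lit 0) (.ax 10 11 15 19 5), .t 1 (nat_lit 0) (.ax 10 11 16 18 2), .t 1 (nat_lit 0) (.ax 10 11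 16 18 4), .t 1 (nat_lit 0) (.ax 10 11 16 19 4), .t 1 (nat_lit 0) (.ax 10 11 17 19 1), .t 1 (nat_lit 0) (.ax 10 11 21 22 5), .t 1 (nat_lit 0) (.ax 10 12 13 14 0), .t 1 (nat_lit 0) (.ax 10 12 13 14 2), .t 1 (nat_lit 0) (.ax 10 12 13 14 3), .t 1 (nat_lit 0) (.ax 10 12 13 14 4), .t 1 (nat_lit 0) (.ax 10 12 13 14 5), .t 1 (nat_lit 0) (.ax 10 12 13 14 7), .t 1 (nat_lit 0) (.ax 10 12 13 15 2), .t 1 (nat_lit 0) (.ax 10 12 13 15 3), .t 1 (nat_lit 0) (.ax 10 12 13 15 5)] (by decide +kernel) (by decide +kernel)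
theorem b114 : B 3648 3680 := Blk.of_chk [.t 1 (nat_lit 0) (.ax 10 12 13 16 3), .t 1 (nat_lit 0) (.ax 10 12 13 16 4), .t 1 (nat_lit 0) (.ax 10 12 13 16 5), .t 1 (nat_lit 0) (.ax 10 12 13 17 2), .t 1 (nat_lit 0) (.ax 10 12 13 17 4), .t 1 (nat_lit 0) (.ax 10 12 13 18 4), .t 1 (nat_lit 0) (.ax 10 12 13 19 3), .t 1 (nat_lit 0) (.ax 10 12 13 19 4), .t 1 (nat_lit 0) (.ax 10 12 13 19 5), .t 1 (nat_lit 0) (.ax 10 12 13 20 2), .t 1 (nat_lit 0) (.ax 10 12 13 20 4), .t 1 (nat_lit 0) (.ax 10 12 13 21 2), .t 1 (nat_lit 0) (.ax 10 12 13 21 4), .t 1 (nat_lit 0) (.ax 10 12 13 22 2), .t 1 (nat_lit 0) (.ax 10 12 14 15 1), .t 1 (nat_lit 0) (.ax 10 12 14 15 4), .t 1 (nat_lit 0) (.ax 10 12 14 15 6), .t 1 (nat_lit 0) (.ax 10 12 14 16 1), .t 1 (nat_lit 0) (.ax 10 12 14 19 0), .t 1 (nat_lit 0) (.ax 10 12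 14 19 3), .t 1 (nat_lit 0) (.ax 10 12 14 19 5), .t 1 (nat_lit 0) (.ax 10 12 14 21 0), .t 1 (nat_lit 0) (.ax 10 12 15 16 1), .t 1 (nat_lit 0) (.ax 10 12 15 16 4), .t 1 (nat_lit 0) (.ax 10 12 15 19 0), .t 1 (nat_lit 0) (.ax 10 12 16 19 4), .t 1 (nat_lit 0) (.ax 10 12 17 20 0), .t 1 (nat_lit 0) (.ax 10 12 18 22 0), .t 1 (nat_lit 0) (.ax 10 12 20 22 4), .t 1 (nat_lit 0) (.ax 10 12 21 22 5), .t 1 (nat_lit 0) (.ax 10 13 14 15 1), .t 1 (nat_lit 0) (.ax 10 13 14 15 2)] (by decide +kernel) (by decide +kernel)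
theorem b115 : B 3680 3712 := Blk.of_chk [.t 1 (nat_lit 0) (.ax 10 13 14 15 3), .t 1 (nat_lit 0) (.ax 10 13 14 15 4), .t 1 (nat_lit 0) (.ax 10 13 14 15 5), .t 1 (nat_lit 0) (.ax 10 13 14 16 0), .t 1 (nat_lit 0) (.ax 10 13 14 16 6), .t 1 (nat_lit 0) (.ax 10 13 14 17 2), .t 1 (nat_lit 0) (.ax 10 13 14 19 0), .t 1 (nat_lit 0) (.ax 10 13 14 19 2), .t 1 (nat_lit 0) (.ax 10 13 14 19 5), .t 1 (nat_lit 0) (.ax 10 13 14 20 2), .t 1 (nat_lit 0) (.ax 10 13 14 20 4), .t 1 (nat_lit 0) (.ax 10 13 14 21 2), .t 1 (nat_lit 0) (.ax 10 13 14 21 5), .t 1 (nat_lit 0) (.ax 10 13 14 22 2), .t 1 (nat_lit 0) (.ax 10 13 14 22 3), .t 1 (nat_lit 0) (.ax 10 13 14 22 5), .t 1 (nat_lit 0) (.ax 10 13 15 16 6), .t 1 (nat_lit 0) (.ax 10 13 15 17 4), .t 1 (nat_lit 0) (.ax 10 13 15 19 2), .t 1 (nat_lit 0) (.ax 10 13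 16 19 4), .t 1 (nat_lit 0) (.ax 10 13 17 20 0), .t 1 (nat_lit 0) (.ax 10 14 15 16 1), .t 1 (nat_lit 0) (.ax 10 14 15 16 3), .t 1 (nat_lit 0) (.ax 10 14 15 16 5), .t 1 (nat_lit 0) (.ax 10 14 15 17 1), .t 1 (nat_lit 0) (.ax 10 14 15 17 3), .t 1 (nat_lit 0) (.ax 10 14 15 17 4), .t 1 (nat_lit 0) (.ax 10 14 15 17 5), .t 1 (nat_lit 0) (.ax 10 14 15 18 1), .t 1 (nat_lit 0) (.ax 10 14 15 18 3), .t 1 (nat_lit 0) (.ax 10 14 15 18 5), .t 1 (nat_lit 0) (.ax 10 14 15 19 2)] (by decide +kernel) (by decide +kernel)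
theorem b116 : B 3712 3744 := Blk.of_chk [.t 1 (nat_lit 0) (.ax 10 14 15 19 4), .t 1 (nat_lit 0) (.ax 10 14 16 17 1), .t 1 (nat_lit 0) (.ax 10 14 16 17 4), .t 1 (nat_lit 0) (.ax 10 14 16 18 2), .t 1 (nat_lit 0) (.ax 10 14 16 18 4), .t 1 (nat_lit 0) (.ax 10 14 16 19 4), .t 1 (nat_lit 0) (.ax 10 14 17 19 1), .t 1 (nat_lit 0) (.ax 10 14 17 19 4), .t 1 (nat_lit 0) (.ax 10 14 18 19 2), .t 1 (nat_lit 0) (.ax 10 14 18 19 4), .t 1 (nat_lit 0) (.ax 10 14 18 22 2), .t 1 (nat_lit 0) (.ax 10 15 16 17 1), .t 1 (nat_lit 0) (.ax 10 15 16 17 2), .t 1 (nat_lit 0) (.ax 10 15 16 17 4), .t 1 (nat_lit 0) (.ax 10 15 16 18 1), .t 1 (nat_lit 0) (.ax 10 15 16 18 2), .t 1 (nat_lit 0) (.ax 10 15 16 18 4), .t 1 (nat_lit 0) (.ax 10 15 16 19 4), .t 1 (nat_lit 0) (.ax 10 15 18 19 2), .t 1 (nat_lit 0) (.ax 10 15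 18 19 4), .t 1 (nat_lit 0) (.ax 10 16 19 21 0), .t 1 (nat_lit 0) (.ax 10 17 20 22 4), .t 1 (nat_lit 0) (.ax 10 17 21 22 5), .t 1 (nat_lit 0) (.ax 10 18 19 22 4), .t 1 (nat_lit 0) (.ax 10 20 21 22 5), .t 1 (nat_lit 0) (.ax 11 12 13 14 0), .t 1 (nat_lit 0) (.ax 11 12 13 14 1), .t 1 (nat_lit 0) (.ax 11 12 13 14 2), .t 1 (nat_lit 0) (.ax 11 12 13 14 3), .t 1 (nat_lit 0) (.ax 11 12 13 14 4), .t 1 (nat_lit 0) (.ax 11 12 13 14 5), .t 1 (nat_lit 0) (.ax 11 12 13 14 6)] (by decide +kernel) (by decide +kernel)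
theorem b117 : B 3744 3776 := Blk.of_chk [.t 1 (nat_lit 0) (.ax 11 12 13 14 7), .t 1 (nat_lit 0) (.ax 11 12 13 15 0), .t 1 (nat_lit 0) (.ax 11 12 13 15 1), .t 1 (nat_lit 0) (.ax 11 12 13 15 2), .t 1 (nat_lit 0) (.ax 11 12 13 15 3), .t 1 (nat_lit 0) (.ax 11 12 13 15 4), .t 1 (nat_lit 0) (.ax 11 12 13 15 5), .t 1 (nat_lit 0) (.ax 11 12 13 15 6), .t 1 (nat_lit 0) (.ax 11 12 13 15 7), .t 1 (nat_lit 0) (.ax 11 12 13 16 0), .t 1 (nat_lit 0) (.ax 11 12 13 16 1), .t 1 (nat_lit 0) (.ax 11 12 13 16 3), .t 1 (nat_lit 0) (.ax 11 12 13 16 4), .t 1 (nat_lit 0) (.ax 11 12 13 16 5), .t 1 (nat_lit 0) (.ax 11 12 13 17 0), .t 1 (nat_lit 0) (.ax 11 12 13 17 2), .t 1 (nat_lit 0) (.ax 11 12 13 17 3), .t 1 (nat_lit 0) (.ax 11 12 13 17 4), .t 1 (nat_lit 0) (.ax 11 12 13 17 5), .t 1 (nat_lit 0) (.ax 11 12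 13 17 7), .t 1 (nat_lit 0) (.ax 11 12 13 18 0), .t 1 (nat_lit 0) (.ax 11 12 13 18 1), .t 1 (nat_lit 0) (.ax 11 12 13 18 2), .t 1 (nat_lit 0) (.ax 11 12 13 18 3), .t 1 (nat_lit 0) (.ax 11 12 13 18 4), .t 1 (nat_lit 0) (.ax 11 12 13 18 5), .t 1 (nat_lit 0) (.ax 11 12 13 19 0), .t 1 (nat_lit 0) (.ax 11 12 13 19 1), .t 1 (nat_lit 0) (.ax 11 12 13 19 2), .t 1 (nat_lit 0) (.ax 11 12 13 19 3), .t 1 (nat_lit 0) (.ax 11 12 13 19 4), .t 1 (nat_lit 0) (.ax 11 12 13 19 5)] (by decide +kernel) (by decide +kernel)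
theorem b118 : B 3776 3808 := Blk.of_chk [.t 1 (nat_lit 0) (.ax 11 12 13 19 6), .t 1 (nat_lit 0) (.ax 11 12 13 19 7), .t 1 (nat_lit 0) (.ax 11 12 13 20 0), .t 1 (nat_lit 0) (.ax 11 12 13 20 1), .t 1 (nat_lit 0) (.ax 11 12 13 20 2), .t 1 (nat_lit 0) (.ax 11 12 13 20 4), .t 1 (nat_lit 0) (.ax 11 12 13 20 5), .t 1 (nat_lit 0) (.ax 11 12 13 20 6), .t 1 (nat_lit 0) (.ax 11 12 13 21 2), .t 1 (nat_lit 0) (.ax 11 12 13 21 3), .t 1 (nat_lit 0) (.ax 11 12 13 21 4), .t 1 (nat_lit 0) (.ax 11 12 13 21 5), .t 1 (nat_lit 0) (.ax 11 12 13 22 2), .t 1 (nat_lit 0) (.ax 11 12 13 22 4), .t 1 (nat_lit 0) (.ax 11 12 13 22 5), .t 1 (nat_lit 0) (.ax 11 12 14 15 0), .t 1 (nat_lit 0) (.ax 11 12 14 15 1), .t 1 (nat_lit 0) (.ax 11 12 14 15 2), .t 1 (nat_lit 0) (.ax 11 12 14 15 3), .t 1 (nat_lit 0) (.ax 11 12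 14 15 4), .t 1 (nat_lit 0) (.ax 11 12 14 15 5), .t 1 (nat_lit 0) (.ax 11 12 14 15 6), .t 1 (nat_lit 0) (.ax 11 12 14 16 0), .t 1 (nat_lit 0) (.ax 11 12 14 16 1), .t 1 (nat_lit 0) (.ax 11 12 14 16 3), .t 1 (nat_lit 0) (.ax 11 12 14 16 4), .t 1 (nat_lit 0) (.ax 11 12 14 16 5), .t 1 (nat_lit 0) (.ax 11 12 14 16 7), .t 1 (nat_lit 0) (.ax 11 12 14 17 0), .t 1 (nat_lit 0) (.ax 11 12 14 17 1), .t 1 (nat_lit 0) (.ax 11 12 14 17 2), .t 1 (nat_lit 0) (.ax 11 12 14 17 4)] (by decide +kernel) (by decide +kernel)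
theorem b119 : B 3808 3840 := Blk.of_chk [.t 1 (nat_lit 0) (.ax 11 12 14 17 5), .t 1 (nat_lit 0) (.ax 11 12 14 17 7), .t 1 (nat_lit 0) (.ax 11 12 14 18 0), .t 1 (nat_lit 0) (.ax 11 12 14 18 1), .t 1 (nat_lit 0) (.ax 11 12 14 18 2), .t 1 (nat_lit 0) (.ax 11 12 14 18 3), .t 1 (nat_lit 0) (.ax 11 12 14 18 4), .t 1 (nat_lit 0) (.ax 11 12 14 18 5), .t 1 (nat_lit 0) (.ax 11 12 14 19 0), .t 1 (nat_lit 0) (.ax 11 12 14 19 1), .t 1 (nat_lit 0) (.ax 11 12 14 19 2), .t 1 (nat_lit 0) (.ax 11 12 14 19 3), .t 1 (nat_lit 0) (.ax 11 12 14 19 4), .t 1 (nat_lit 0) (.ax 11 12 14 19 5), .t 1 (nat_lit 0) (.ax 11 12 14 19 6), .t 1 (nat_lit 0) (.ax 11 12 14 19 7), .t 1 (nat_lit 0) (.ax 11 12 14 20 0), .t 1 (nat_lit 0) (.ax 11 12 14 20 2), .t 1 (nat_lit 0) (.ax 11 12 14 20 4), .t 1 (nat_lit 0) (.ax 11 12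 14 20 6), .t 1 (nat_lit 0) (.ax 11 12 14 21 0), .t 1 (nat_lit 0) (.ax 11 12 14 21 2), .t 1 (nat_lit 0) (.ax 11 12 14 21 4), .t 1 (nat_lit 0) (.ax 11 12 14 22 0), .t 1 (nat_lit 0) (.ax 11 12 15 16 0), .t 1 (nat_lit 0) (.ax 11 12 15 16 1), .t 1 (nat_lit 0) (.ax 11 12 15 16 3), .t 1 (nat_lit 0) (.ax 11 12 15 16 4), .t 1 (nat_lit 0) (.ax 11 12 15 16 5), .t 1 (nat_lit 0) (.ax 11 12 15 17 0), .t 1 (nat_lit 0) (.ax 11 12 15 17 1), .t 1 (nat_lit 0) (.ax 11 12 15 17 4)] (by decide +kernel) (by decide +kernel)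
theorem b120 : B 3840 3872 := Blk.of_chk [.t 1 (nat_lit 0) (.ax 11 12 15 18 0), .t 1 (nat_lit 0) (.ax 11 12 15 18 1), .t 1 (nat_lit 0) (.ax 11 12 15 18 3), .t 1 (nat_lit 0) (.ax 11 12 15 18 4), .t 1 (nat_lit 0) (.ax 11 12 15 18 5), .t 1 (nat_lit 0) (.ax 11 12 15 19 0), .t 1 (nat_lit 0) (.ax 11 12 15 19 1), .t 1 (nat_lit 0) (.ax 11 12 15 19 2), .t 1 (nat_lit 0) (.ax 11 12 15 19 3), .t 1 (nat_lit 0) (.ax 11 12 15 19 4), .t 1 (nat_lit 0) (.ax 11 12 15 19 5), .t 1 (nat_lit 0) (.ax 11 12 15 19 6), .t 1 (nat_lit 0) (.ax 11 12 15 19 7), .t 1 (nat_lit 0) (.ax 11 12 15 20 4), .t 1 (nat_lit 0) (.ax 11 12 16 17 1), .t 1 (nat_lit 0) (.ax 11 12 16 17 2), .t 1 (nat_lit 0) (.ax 11 12 16 17 4), .t 1 (nat_lit 0) (.ax 11 12 16 18 1), .t 1 (nat_lit 0) (.ax 11 12 16 18 2), .t 1 (nat_lit 0) (.ax 11 12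 16 18 4), .t 1 (nat_lit 0) (.ax 11 12 16 19 4), .t 1 (nat_lit 0) (.ax 11 12 16 20 4), .t 1 (nat_lit 0) (.ax 11 12 16 21 4), .t 1 (nat_lit 0) (.ax 11 12 16 22 4), .t 1 (nat_lit 0) (.ax 11 12 17 18 4), .t 1 (nat_lit 0) (.ax 11 12 17 19 0), .t 1 (nat_lit 0) (.ax 11 12 17 19 1), .t 1 (nat_lit 0) (.ax 11 12 17 19 2), .t 1 (nat_lit 0) (.ax 11 12 17 19 3), .t 1 (nat_lit 0) (.ax 11 12 17 19 4), .t 1 (nat_lit 0) (.ax 11 12 17 19 5), .t 1 (nat_lit 0) (.ax 11 12 17 19 6)] (by decide +kernel) (by decide +kernel)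
theorem b121 : B 3872 3904 := Blk.of_chk [.t 1 (nat_lit 0) (.ax 11 12 17 20 0), .t 1 (nat_lit 0) (.ax 11 12 17 20 4), .t 1 (nat_lit 0) (.ax 11 12 17 20 5), .t 1 (nat_lit 0) (.ax 11 12 17 20 6), .t 1 (nat_lit 0) (.ax 11 12 17 21 0), .t 1 (nat_lit 0) (.ax 11 12 17 22 0), .t 1 (nat_lit 0) (.ax 11 12 17 22 2), .t 1 (nat_lit 0) (.ax 11 12 18 19 0), .t 1 (nat_lit 0) (.ax 11 12 18 19 1), .t 1 (nat_lit 0) (.ax 11 12 18 19 2), .t 1 (nat_lit 0) (.ax 11 12 18 19 3), .t 1 (nat_lit 0) (.ax 11 12 18 19 4), .t 1 (nat_lit 0) (.ax 11 12 18 19 5), .t 1 (nat_lit 0) (.ax 11 12 18 19 6), .t 1 (nat_lit 0) (.ax 11 12 18 20 0), .t 1 (nat_lit 0) (.ax 11 12 18 20 2), .t 1 (nat_lit 0) (.ax 11 12 18 20 4), .t 1 (nat_lit 0) (.ax 11 12 18 21 0), .t 1 (nat_lit 0) (.ax 11 12 18 22 0), .t 1 (nat_lit 0) (.ax 11 12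 18 22 2), .t 1 (nat_lit 0) (.ax 11 12 18 22 4), .t 1 (nat_lit 0) (.ax 11 12 19 20 4), .t 1 (nat_lit 0) (.ax 11 12 19 20 6), .t 1 (nat_lit 0) (.ax 11 12 19 21 4), .t 1 (nat_lit 0) (.ax 11 12 19 22 4), .t 1 (nat_lit 0) (.ax 11 12 20 21 4), .t 1 (nat_lit 0) (.ax 11 12 20 22 4), .t 1 (nat_lit 0) (.ax 11 12 21 22 5), .t 1 (nat_lit 0) (.ax 11 13 14 15 0), .t 1 (nat_lit 0) (.ax 11 13 14 15 1), .t 1 (nat_lit 0) (.ax 11 13 14 15 2), .t 1 (nat_lit 0) (.ax 11 13 14 15 3)] (by decide +kernel) (by decide +kernel)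
theorem b122 : B 3904 3936 := Blk.of_chk [.t 1 (nat_lit 0) (.ax 11 13 14 15 4), .t 1 (nat_lit 0) (.ax 11 13 14 15 5), .t 1 (nat_lit 0) (.ax 11 13 14 15 6), .t 1 (nat_lit 0) (.ax 11 13 14 16 0), .t 1 (nat_lit 0) (.ax 11 13 14 16 1), .t 1 (nat_lit 0) (.ax 11 13 14 16 3), .t 1 (nat_lit 0) (.ax 11 13 14 16 4), .t 1 (nat_lit 0) (.ax 11 13 14 16 5), .t 1 (nat_lit 0) (.ax 11 13 14 16 6), .t 1 (nat_lit 0) (.ax 11 13 14 17 0), .t 1 (nat_lit 0) (.ax 11 13 14 17 2), .t 1 (nat_lit 0) (.ax 11 13 14 17 3), .t 1 (nat_lit 0) (.ax 11 13 14 17 4), .t 1 (nat_lit 0) (.ax 11 13 14 17 5), .t 1 (nat_lit 0) (.ax 11 13 14 18 0), .t 1 (nat_lit 0) (.ax 11 13 14 18 1), .t 1 (nat_lit 0) (.ax 11 13 14 18 3), .t 1 (nat_lit 0) (.ax 11 13 14 18 5), .t 1 (nat_lit 0) (.ax 11 13 14 19 0), .t 1 (nat_lit 0) (.ax 11 13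 14 19 1), .t 1 (nat_lit 0) (.ax 11 13 14 19 2), .t 1 (nat_lit 0) (.ax 11 13 14 19 3), .t 1 (nat_lit 0) (.ax 11 13 14 19 4), .t 1 (nat_lit 0) (.ax 11 13 14 19 5), .t 1 (nat_lit 0) (.ax 11 13 14 19 7), .t 1 (nat_lit 0) (.ax 11 13 14 20 2), .t 1 (nat_lit 0) (.ax 11 13 14 20 3), .t 1 (nat_lit 0) (.ax 11 13 14 20 4), .t 1 (nat_lit 0) (.ax 11 13 14 20 6), .t 1 (nat_lit 0) (.ax 11 13 14 21 0), .t 1 (nat_lit 0) (.ax 11 13 14 21 2), .t 1 (nat_lit 0) (.ax 11 13 14 21 3)] (by decide +kernel) (by decide +kernel)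
theorem b123 : B 3936 3968 := Blk.of_chk [.t 1 (nat_lit 0) (.ax 11 13 14 21 4), .t 1 (nat_lit 0) (.ax 11 13 14 22 0), .t 1 (nat_lit 0) (.ax 11 13 14 22 2), .t 1 (nat_lit 0) (.ax 11 13 14 22 3), .t 1 (nat_lit 0) (.ax 11 13 14 22 5), .t 1 (nat_lit 0) (.ax 11 13 14 22 6), .t 1 (nat_lit 0) (.ax 11 13 15 16 1), .t 1 (nat_lit 0) (.ax 11 13 15 16 3), .t 1 (nat_lit 0) (.ax 11 13 15 16 4), .t 1 (nat_lit 0) (.ax 11 13 15 16 5), .t 1 (nat_lit 0) (.ax 11 13 15 16 6), .t 1 (nat_lit 0) (.ax 11 13 15 17 0), .t 1 (nat_lit 0) (.ax 11 13 15 17 1), .t 1 (nat_lit 0) (.ax 11 13 15 17 3), .t 1 (nat_lit 0) (.ax 11 13 15 17 4), .t 1 (nat_lit 0) (.ax 11 13 15 17 5), .t 1 (nat_lit 0) (.ax 11 13 15 18 1), .t 1 (nat_lit 0) (.ax 11 13 15 18 3), .t 1 (nat_lit 0) (.ax 11 13 15 18 4), .t 1 (nat_lit 0) (.ax 11 13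 15 18 5), .t 1 (nat_lit 0) (.ax 11 13 15 18 6), .t 1 (nat_lit 0) (.ax 11 13 15 19 0), .t 1 (nat_lit 0) (.ax 11 13 15 19 1), .t 1 (nat_lit 0) (.ax 11 13 15 19 2), .t 1 (nat_lit 0) (.ax 11 13 15 19 3), .t 1 (nat_lit 0) (.ax 11 13 15 19 4), .t 1 (nat_lit 0) (.ax 11 13 15 19 5), .t 1 (nat_lit 0) (.ax 11 13 15 19 6), .t 1 (nat_lit 0) (.ax 11 13 15 20 4), .t 1 (nat_lit 0) (.ax 11 13 16 17 1), .t 1 (nat_lit 0) (.ax 11 13 16 17 2), .t 1 (nat_lit 0) (.ax 11 13 16 17 4)] (by decide +kernel) (by decide +kernel)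
theorem b124 : B 3968 4000 := Blk.of_chk [.t 1 (nat_lit 0) (.ax 11 13 16 18 1), .t 1 (nat_lit 0) (.ax 11 13 16 18 4), .t 1 (nat_lit 0) (.ax 11 13 16 19 4), .t 1 (nat_lit 0) (.ax 11 13 16 20 4), .t 1 (nat_lit 0) (.ax 11 13 17 19 0), .t 1 (nat_lit 0) (.ax 11 13 17 19 1), .t 1 (nat_lit 0) (.ax 11 13 17 19 3), .t 1 (nat_lit 0) (.ax 11 13 17 19 4), .t 1 (nat_lit 0) (.ax 11 13 17 19 5), .t 1 (nat_lit 0) (.ax 11 13 17 19 6), .t 1 (nat_lit 0) (.ax 11 13 17 19 7), .t 1 (nat_lit 0) (.ax 11 13 17 20 0), .t 1 (nat_lit 0) (.ax 11 13 17 20 4), .t 1 (nat_lit 0) (.ax 11 13 17 21 2), .t 1 (nat_lit 0) (.ax 11 13 17 21 4), .t 1 (nat_lit 0) (.ax 11 13 18 19 0), .t 1 (nat_lit 0) (.ax 11 13 18 19 1), .t 1 (nat_lit 0) (.ax 11 13 18 19 2), .t 1 (nat_lit 0) (.ax 11 13 18 19 3), .t 1 (nat_lit 0) (.ax 11 13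 18 19 4), .t 1 (nat_lit 0) (.ax 11 13 18 19 5), .t 1 (nat_lit 0) (.ax 11 13 18 19 6), .t 1 (nat_lit 0) (.ax 11 13 18 20 0), .t 1 (nat_lit 0) (.ax 11 13 18 20 6), .t 1 (nat_lit 0) (.ax 11 13 18 20 7), .t 1 (nat_lit 0) (.ax 11 13 18 21 0), .t 1 (nat_lit 0) (.ax 11 13 18 21 2), .t 1 (nat_lit 0) (.ax 11 13 18 21 4), .t 1 (nat_lit 0) (.ax 11 13 18 22 0), .t 1 (nat_lit 0) (.ax 11 13 18 22 7), .t 1 (nat_lit 0) (.ax 11 13 19 20 4), .t 1 (nat_lit 0) (.ax 11 13 19 20 6)] (by decide +kernel) (by decide +kernel)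
theorem b125 : B 4000 4032 := Blk.of_chk [.t 1 (nat_lit 0) (.ax 11 13 19 21 4), .t 1 (nat_lit 0) (.ax 11 13 19 22 4), .t 1 (nat_lit 0) (.ax 11 13 20 22 4), .t 1 (nat_lit 0) (.ax 11 13 21 22 5), .t 1 (nat_lit 0) (.ax 11 14 15 16 0), .t 1 (nat_lit 0) (.ax 11 14 15 16 1), .t 1 (nat_lit 0) (.ax 11 14 15 16 3), .t 1 (nat_lit 0) (.ax 11 14 15 16 4), .t 1 (nat_lit 0) (.ax 11 14 15 16 5), .t 1 (nat_lit 0) (.ax 11 14 15 17 0), .t 1 (nat_lit 0) (.ax 11 14 15 17 1), .t 1 (nat_lit 0) (.ax 11 14 15 17 3), .t 1 (nat_lit 0) (.ax 11 14 15 17 4), .t 1 (nat_lit 0) (.ax 11 14 15 17 5), .t 1 (nat_lit 0) (.ax 11 14 15 18 0), .t 1 (nat_lit 0) (.ax 11 14 15 18 1), .t 1 (nat_lit 0) (.ax 11 14 15 18 2), .t 1 (nat_lit 0) (.ax 11 14 15 18 3), .t 1 (nat_lit 0) (.ax 11 14 15 18 4), .t 1 (nat_lit 0) (.ax 11 14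 15 18 5), .t 1 (nat_lit 0) (.ax 11 14 15 19 0), .t 1 (nat_lit 0) (.ax 11 14 15 19 1), .t 1 (nat_lit 0) (.ax 11 14 15 19 2), .t 1 (nat_lit 0) (.ax 11 14 15 19 3), .t 1 (nat_lit 0) (.ax 11 14 15 19 4), .t 1 (nat_lit 0) (.ax 11 14 15 19 5), .t 1 (nat_lit 0) (.ax 11 14 15 19 6), .t 1 (nat_lit 0) (.ax 11 14 15 20 4), .t 1 (nat_lit 0) (.ax 11 14 15 21 0), .t 1 (nat_lit 0) (.ax 11 14 15 21 7), .t 1 (nat_lit 0) (.ax 11 14 16 17 1), .t 1 (nat_lit 0) (.ax 11 14 16 17 2)] (by decide +kernel) (by decide +kernel)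
theorem b126 : B 4032 4064 := Blk.of_chk [.t 1 (nat_lit 0) (.ax 11 14 16 17 4), .t 1 (nat_lit 0) (.ax 11 14 16 18 1), .t 1 (nat_lit 0) (.ax 11 14 16 18 2), .t 1 (nat_lit 0) (.ax 11 14 16 18 4), .t 1 (nat_lit 0) (.ax 11 14 16 19 4), .t 1 (nat_lit 0) (.ax 11 14 16 19 6), .t 1 (nat_lit 0) (.ax 11 14 16 21 4), .t 1 (nat_lit 0) (.ax 11 14 16 22 4), .t 1 (nat_lit 0) (.ax 11 14 17 19 0), .t 1 (nat_lit 0) (.ax 11 14 17 19 1), .t 1 (nat_lit 0) (.ax 11 14 17 19 3), .t 1 (nat_lit 0) (.ax 11 14 17 19 4), .t 1 (nat_lit 0) (.ax 11 14 17 19 5), .t 1 (nat_lit 0) (.ax 11 14 17 20 3), .t 1 (nat_lit 0) (.ax 11 14 17 21 2), .t 1 (nat_lit 0) (.ax 11 14 17 21 4), .t 1 (nat_lit 0) (.ax 11 14 17 22 4), .t 1 (nat_lit 0) (.ax 11 14 18 19 0), .t 1 (nat_lit 0) (.ax 11 14 18 19 1), .t 1 (nat_lit 0) (.ax 11 14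 18 19 3), .t 1 (nat_lit 0) (.ax 11 14 18 19 4), .t 1 (nat_lit 0) (.ax 11 14 18 19 5), .t 1 (nat_lit 0) (.ax 11 14 18 20 0), .t 1 (nat_lit 0) (.ax 11 14 18 21 0), .t 1 (nat_lit 0) (.ax 11 14 18 21 2), .t 1 (nat_lit 0) (.ax 11 14 18 21 4), .t 1 (nat_lit 0) (.ax 11 14 19 20 4), .t 1 (nat_lit 0) (.ax 11 14 19 21 4), .t 1 (nat_lit 0) (.ax 11 14 19 22 4), .t 1 (nat_lit 0) (.ax 11 14 20 22 4), .t 1 (nat_lit 0) (.ax 11 14 21 22 5), .t 1 (nat_lit 0) (.ax 11 15 16 17 1)] (by decide +kernel) (by decide +kernel)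
theorem b127 : B 4064 4096 := Blk.of_chk [.t 1 (nat_lit 0) (.ax 11 15 16 17 2), .t 1 (nat_lit 0) (.ax 11 15 16 17 4), .t 1 (nat_lit 0) (.ax 11 15 16 18 1), .t 1 (nat_lit 0) (.ax 11 15 16 18 2), .t 1 (nat_lit 0) (.ax 11 15 16 18 4), .t 1 (nat_lit 0) (.ax 11 15 16 18 6), .t 1 (nat_lit 0) (.ax 11 15 16 19 4), .t 1 (nat_lit 0) (.ax 11 15 17 19 1), .t 1 (nat_lit 0) (.ax 11 15 17 19 3), .t 1 (nat_lit 0) (.ax 11 15 17 19 4), .t 1 (nat_lit 0) (.ax 11 15 17 19 6), .t 1 (nat_lit 0) (.ax 11 15 17 20 5), .t 1 (nat_lit 0) (.ax 11 15 17 21 0), .t 1 (nat_lit 0) (.ax 11 15 17 21 2), .t 1 (nat_lit 0) (.ax 11 15 18 19 1), .t 1 (nat_lit 0) (.ax 11 15 18 19 3), .t 1 (nat_lit 0) (.ax 11 15 18 19 4), .t 1 (nat_lit 0) (.ax 11 15 18 19 5), .t 1 (nat_lit 0) (.ax 11 15 18 19 6), .t 1 (nat_lit 0) (.ax 11 15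 18 21 0), .t 1 (nat_lit 0) (.ax 11 15 18 21 2), .t 1 (nat_lit 0) (.ax 11 15 19 21 4), .t 1 (nat_lit 0) (.ax 11 16 19 21 0), .t 1 (nat_lit 0) (.ax 11 17 18 19 1), .t 1 (nat_lit 0) (.ax 11 17 18 19 5), .t 1 (nat_lit 0) (.ax 11 17 19 20 4), .t 1 (nat_lit 0) (.ax 11 17 19 21 4), .t 1 (nat_lit 0) (.ax 11 17 19 22 4), .t 1 (nat_lit 0) (.ax 11 17 20 22 4), .t 1 (nat_lit 0) (.ax 11 17 21 22 5), .t 1 (nat_lit 0) (.ax 11 18 19 20 4), .t 1 (nat_lit 0) (.ax 11 18 19 22 4)] (by decide +kernel) (by decide +kernel)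
theorem b128 : B 4096 4128 := Blk.of_chk [.t 1 (nat_lit 0) (.ax 11 18 20 22 4), .t 1 (nat_lit 0) (.ax 11 18 21 22 5), .t 1 (nat_lit 0) (.ax 11 20 21 22 5), .t 1 (nat_lit 0) (.ax 12 13 14 15 0), .t 1 (nat_lit 0) (.ax 12 13 14 15 1), .t 1 (nat_lit 0) (.ax 12 13 14 15 2), .t 1 (nat_lit 0) (.ax 12 13 14 15 3), .t 1 (nat_lit 0) (.ax 12 13 14 15 4), .t 1 (nat_lit 0) (.ax 12 13 14 15 5), .t 1 (nat_lit 0) (.ax 12 13 14 15 6), .t 1 (nat_lit 0) (.ax 12 13 14 15 7), .t 1 (nat_lit 0) (.ax 12 13 14 16 0), .t 1 (nat_lit 0) (.ax 12 13 14 16 1), .t 1 (nat_lit 0) (.ax 12 13 14 16 2), .t 1 (nat_lit 0) (.ax 12 13 14 16 3), .t 1 (nat_lit 0) (.ax 12 13 14 16 4), .t 1 (nat_lit 0) (.ax 12 13 14 16 5), .t 1 (nat_lit 0) (.ax 12 13 14 16 6), .t 1 (nat_lit 0) (.ax 12 13 14 16 7), .t 1 (nat_lit 0) (.ax 12 13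 14 17 0), .t 1 (nat_lit 0) (.ax 12 13 14 17 1), .t 1 (nat_lit 0) (.ax 12 13 14 17 2), .t 1 (nat_lit 0) (.ax 12 13 14 17 3), .t 1 (nat_lit 0) (.ax 12 13 14 17 4), .t 1 (nat_lit 0) (.ax 12 13 14 17 5), .t 1 (nat_lit 0) (.ax 12 13 14 17 6), .t 1 (nat_lit 0) (.ax 12 13 14 17 7), .t 1 (nat_lit 0) (.ax 12 13 14 18 0), .t 1 (nat_lit 0) (.ax 12 13 14 18 1), .t 1 (nat_lit 0) (.ax 12 13 14 18 2), .t 1 (nat_lit 0) (.ax 12 13 14 18 3), .t 1 (nat_lit 0) (.ax 12 13 14 18 4)] (by decide +kernel) (by decide +kernel)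
theorem b129 : B 4128 4160 := Blk.of_chk [.t 1 (nat_lit 0) (.ax 12 13 14 18 5), .t 1 (nat_lit 0) (.ax 12 13 14 18 6), .t 1 (nat_lit 0) (.ax 12 13 14 18 7), .t 1 (nat_lit 0) (.ax 12 13 14 19 0), .t 1 (nat_lit 0) (.ax 12 13 14 19 1), .t 1 (nat_lit 0) (.ax 12 13 14 19 2), .t 1 (nat_lit 0) (.ax 12 13 14 19 3), .t 1 (nat_lit 0) (.ax 12 13 14 19 4), .t 1 (nat_lit 0) (.ax 12 13 14 19 5), .t 1 (nat_lit 0) (.ax 12 13 14 19 6), .t 1 (nat_lit 0) (.ax 12 13 14 19 7), .t 1 (nat_lit 0) (.ax 12 13 14 20 0), .t 1 (nat_lit 0) (.ax 12 13 14 20 1), .t 1 (nat_lit 0) (.ax 12 13 14 20 2), .t 1 (nat_lit 0) (.ax 12 13 14 20 3), .t 1 (nat_lit 0) (.ax 12 13 14 20 4), .t 1 (nat_lit 0) (.ax 12 13 14 20 5), .t 1 (nat_lit 0) (.ax 12 13 14 20 7), .t 1 (nat_lit 0) (.ax 12 13 14 21 0), .t 1 (nat_lit 0) (.ax 12 13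 14 21 1), .t 1 (nat_lit 0) (.ax 12 13 14 21 2), .t 1 (nat_lit 0) (.ax 12 13 14 21 3), .t 1 (nat_lit 0) (.ax 12 13 14 21 4), .t 1 (nat_lit 0) (.ax 12 13 14 21 5), .t 1 (nat_lit 0) (.ax 12 13 14 21 6), .t 1 (nat_lit 0) (.ax 12 13 14 21 7), .t 1 (nat_lit 0) (.ax 12 13 14 22 0), .t 1 (nat_lit 0) (.ax 12 13 14 22 2), .t 1 (nat_lit 0) (.ax 12 13 14 22 4), .t 1 (nat_lit 0) (.ax 12 13 14 22 5), .t 1 (nat_lit 0) (.ax 12 13 14 22 7), .t 1 (nat_lit 0) (.ax 12 13 15 16 0)] (by decide +kernel) (by decide +kernel)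
theorem b130 : B 4160 4192 := Blk.of_chk [.t 1 (nat_lit 0) (.ax 12 13 15 16 1), .t 1 (nat_lit 0) (.ax 12 13 15 16 2), .t 1 (nat_lit 0) (.ax 12 13 15 16 3), .t 1 (nat_lit 0) (.ax 12 13 15 16 4), .t 1 (nat_lit 0) (.ax 12 13 15 16 5), .t 1 (nat_lit 0) (.ax 12 13 15 16 6), .t 1 (nat_lit 0) (.ax 12 13 15 16 7), .t 1 (nat_lit 0) (.ax 12 13 15 17 0), .t 1 (nat_lit 0) (.ax 12 13 15 17 1), .t 1 (nat_lit 0) (.ax 12 13 15 17 2), .t 1 (nat_lit 0) (.ax 12 13 15 17 3), .t 1 (nat_lit 0) (.ax 12 13 15 17 4), .t 1 (nat_lit 0) (.ax 12 13 15 17 5), .t 1 (nat_lit 0) (.ax 12 13 15 17 6), .t 1 (nat_lit 0) (.ax 12 13 15 17 7), .t 1 (nat_lit 0) (.ax 12 13 15 18 0), .t 1 (nat_lit 0) (.ax 12 13 15 18 1), .t 1 (nat_lit 0) (.ax 12 13 15 18 2), .t 1 (nat_lit 0) (.ax 12 13 15 18 3), .t 1 (nat_lit 0) (.ax 12 13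 15 18 4), .t 1 (nat_lit 0) (.ax 12 13 15 18 5), .t 1 (nat_lit 0) (.ax 12 13 15 18 6), .t 1 (nat_lit 0) (.ax 12 13 15 18 7), .t 1 (nat_lit 0) (.ax 12 13 15 19 0), .t 1 (nat_lit 0) (.ax 12 13 15 19 1), .t 1 (nat_lit 0) (.ax 12 13 15 19 2), .t 1 (nat_lit 0) (.ax 12 13 15 19 3), .t 1 (nat_lit 0) (.ax 12 13 15 19 4), .t 1 (nat_lit 0) (.ax 12 13 15 19 5), .t 1 (nat_lit 0) (.ax 12 13 15 19 6), .t 1 (nat_lit 0) (.ax 12 13 15 19 7), .t 1 (nat_lit 0) (.ax 12 13 15 20 2)] (by decide +kernel) (by decide +kernel)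
theorem b131 : B 4192 4224 := Blk.of_chk [.t 1 (nat_lit 0) (.ax 12 13 15 20 3), .t 1 (nat_lit 0) (.ax 12 13 15 20 4), .t 1 (nat_lit 0) (.ax 12 13 15 20 5), .t 1 (nat_lit 0) (.ax 12 13 15 20 6), .t 1 (nat_lit 0) (.ax 12 13 15 20 7), .t 1 (nat_lit 0) (.ax 12 13 15 21 0), .t 1 (nat_lit 0) (.ax 12 13 15 21 2), .t 1 (nat_lit 0) (.ax 12 13 15 21 3), .t 1 (nat_lit 0) (.ax 12 13 15 21 4), .t 1 (nat_lit 0) (.ax 12 13 15 21 5), .t 1 (nat_lit 0) (.ax 12 13 15 21 6), .t 1 (nat_lit 0) (.ax 12 13 15 21 7), .t 1 (nat_lit 0) (.ax 12 13 15 22 2), .t 1 (nat_lit 0) (.ax 12 13 15 22 4), .t 1 (nat_lit 0) (.ax 12 13 15 22 5), .t 1 (nat_lit 0) (.ax 12 13 15 22 6), .t 1 (nat_lit 0) (.ax 12 13 16 17 1), .t 1 (nat_lit 0) (.ax 12 13 16 17 2), .t 1 (nat_lit 0) (.ax 12 13 16 17 4), .t 1 (nat_lit 0) (.ax 12 13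 16 17 6), .t 1 (nat_lit 0) (.ax 12 13 16 18 1), .t 1 (nat_lit 0) (.ax 12 13 16 18 2), .t 1 (nat_lit 0) (.ax 12 13 16 18 4), .t 1 (nat_lit 0) (.ax 12 13 16 18 6), .t 1 (nat_lit 0) (.ax 12 13 16 19 4), .t 1 (nat_lit 0) (.ax 12 13 16 19 6), .t 1 (nat_lit 0) (.ax 12 13 16 20 4), .t 1 (nat_lit 0) (.ax 12 13 16 21 4), .t 1 (nat_lit 0) (.ax 12 13 16 22 4), .t 1 (nat_lit 0) (.ax 12 13 17 18 1), .t 1 (nat_lit 0) (.ax 12 13 17 18 2), .t 1 (nat_lit 0) (.ax 12 13 17 18 3)] (by decide +kernel) (by decide +kernel)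
theorem b132 : B 4224 4256 := Blk.of_chk [.t 1 (nat_lit 0) (.ax 12 13 17 18 4), .t 1 (nat_lit 0) (.ax 12 13 17 18 5), .t 1 (nat_lit 0) (.ax 12 13 17 18 6), .t 1 (nat_lit 0) (.ax 12 13 17 19 0), .t 1 (nat_lit 0) (.ax 12 13 17 19 1), .t 1 (nat_lit 0) (.ax 12 13 17 19 2), .t 1 (nat_lit 0) (.ax 12 13 17 19 3), .t 1 (nat_lit 0) (.ax 12 13 17 19 4), .t 1 (nat_lit 0) (.ax 12 13 17 19 5), .t 1 (nat_lit 0) (.ax 12 13 17 19 6), .t 1 (nat_lit 0) (.ax 12 13 17 19 7), .t 1 (nat_lit 0) (.ax 12 13 17 20 0), .t 1 (nat_lit 0) (.ax 12 13 17 20 1), .t 1 (nat_lit 0) (.ax 12 13 17 20 2), .t 1 (nat_lit 0) (.ax 12 13 17 20 3), .t 1 (nat_lit 0) (.ax 12 13 17 20 4), .t 1 (nat_lit 0) (.ax 12 13 17 20 5), .t 1 (nat_lit 0) (.ax 12 13 17 20 6), .t 1 (nat_lit 0) (.ax 12 13 17 21 0), .t 1 (nat_lit 0) (.ax 12 13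 17 21 1), .t 1 (nat_lit 0) (.ax 12 13 17 21 2), .t 1 (nat_lit 0) (.ax 12 13 17 21 3), .t 1 (nat_lit 0) (.ax 12 13 17 21 4), .t 1 (nat_lit 0) (.ax 12 13 17 22 4), .t 1 (nat_lit 0) (.ax 12 13 17 22 6), .t 1 (nat_lit 0) (.ax 12 13 18 19 0), .t 1 (nat_lit 0) (.ax 12 13 18 19 1), .t 1 (nat_lit 0) (.ax 12 13 18 19 2), .t 1 (nat_lit 0) (.ax 12 13 18 19 3), .t 1 (nat_lit 0) (.ax 12 13 18 19 4), .t 1 (nat_lit 0) (.ax 12 13 18 19 5), .t 1 (nat_lit 0) (.ax 12 13 18 19 6)] (by decide +kernel) (by decide +kernel)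
theorem b133 : B 4256 4288 := Blk.of_chk [.t 1 (nat_lit 0) (.ax 12 13 18 19 7), .t 1 (nat_lit 0) (.ax 12 13 18 20 0), .t 1 (nat_lit 0) (.ax 12 13 18 20 1), .t 1 (nat_lit 0) (.ax 12 13 18 20 3), .t 1 (nat_lit 0) (.ax 12 13 18 20 4), .t 1 (nat_lit 0) (.ax 12 13 18 20 5), .t 1 (nat_lit 0) (.ax 12 13 18 20 6), .t 1 (nat_lit 0) (.ax 12 13 18 21 0), .t 1 (nat_lit 0) (.ax 12 13 18 21 1), .t 1 (nat_lit 0) (.ax 12 13 18 21 2), .t 1 (nat_lit 0) (.ax 12 13 18 21 4), .t 1 (nat_lit 0) (.ax 12 13 18 21 6), .t 1 (nat_lit 0) (.ax 12 13 18 22 0), .t 1 (nat_lit 0) (.ax 12 13 19 20 4), .t 1 (nat_lit 0) (.ax 12 13 19 20 6), .t 1 (nat_lit 0) (.ax 12 13 19 21 4), .t 1 (nat_lit 0) (.ax 12 13 19 21 6), .t 1 (nat_lit 0) (.ax 12 13 19 22 4), .t 1 (nat_lit 0) (.ax 12 13 20 21 4), .t 1 (nat_lit 0) (.ax 12 13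 20 21 6), .t 1 (nat_lit 0) (.ax 12 13 20 22 4), .t 1 (nat_lit 0) (.ax 12 13 21 22 5), .t 1 (nat_lit 0) (.ax 12 14 15 16 0), .t 1 (nat_lit 0) (.ax 12 14 15 16 1), .t 1 (nat_lit 0) (.ax 12 14 15 16 2), .t 1 (nat_lit 0) (.ax 12 14 15 16 3), .t 1 (nat_lit 0) (.ax 12 14 15 16 4), .t 1 (nat_lit 0) (.ax 12 14 15 16 5), .t 1 (nat_lit 0) (.ax 12 14 15 16 7), .t 1 (nat_lit 0) (.ax 12 14 15 17 0), .t 1 (nat_lit 0) (.ax 12 14 15 17 1), .t 1 (nat_lit 0) (.ax 12 14 15 17 2)] (by decide +kernel) (by decide +kernel)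
theorem b134 : B 4288 4320 := Blk.of_chk [.t 1 (nat_lit 0) (.ax 12 14 15 17 3), .t 1 (nat_lit 0) (.ax 12 14 15 17 4), .t 1 (nat_lit 0) (.ax 12 14 15 17 5), .t 1 (nat_lit 0) (.ax 12 14 15 17 6), .t 1 (nat_lit 0) (.ax 12 14 15 17 7), .t 1 (nat_lit 0) (.ax 12 14 15 18 0), .t 1 (nat_lit 0) (.ax 12 14 15 18 1), .t 1 (nat_lit 0) (.ax 12 14 15 18 2), .t 1 (nat_lit 0) (.ax 12 14 15 18 3), .t 1 (nat_lit 0) (.ax 12 14 15 18 4), .t 1 (nat_lit 0) (.ax 12 14 15 18 5), .t 1 (nat_lit 0) (.ax 12 14 15 18 6), .t 1 (nat_lit 0) (.ax 12 14 15 18 7), .t 1 (nat_lit 0) (.ax 12 14 15 19 0), .t 1 (nat_lit 0) (.ax 12 14 15 19 1), .t 1 (nat_lit 0) (.ax 12 14 15 19 2), .t 1 (nat_lit 0) (.ax 12 14 15 19 3), .t 1 (nat_lit 0) (.ax 12 14 15 19 4), .t 1 (nat_lit 0) (.ax 12 14 15 19 5), .t 1 (nat_lit 0) (.ax 12 14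 15 19 6), .t 1 (nat_lit 0) (.ax 12 14 15 19 7), .t 1 (nat_lit 0) (.ax 12 14 15 20 0), .t 1 (nat_lit 0) (.ax 12 14 15 20 2), .t 1 (nat_lit 0) (.ax 12 14 15 20 3), .t 1 (nat_lit 0) (.ax 12 14 15 20 4), .t 1 (nat_lit 0) (.ax 12 14 15 20 7), .t 1 (nat_lit 0) (.ax 12 14 15 21 0), .t 1 (nat_lit 0) (.ax 12 14 15 21 2), .t 1 (nat_lit 0) (.ax 12 14 15 21 3), .t 1 (nat_lit 0) (.ax 12 14 15 21 4), .t 1 (nat_lit 0) (.ax 12 14 15 21 7), .t 1 (nat_lit 0) (.ax 12 14 15 22 2)] (by decide +kernel) (by decide +kernel)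
theorem b135 : B 4320 4352 := Blk.of_chk [.t 1 (nat_lit 0) (.ax 12 14 15 22 3), .t 1 (nat_lit 0) (.ax 12 14 15 22 4), .t 1 (nat_lit 0) (.ax 12 14 16 17 1), .t 1 (nat_lit 0) (.ax 12 14 16 17 2), .t 1 (nat_lit 0) (.ax 12 14 16 17 4), .t 1 (nat_lit 0) (.ax 12 14 16 17 6), .t 1 (nat_lit 0) (.ax 12 14 16 18 1), .t 1 (nat_lit 0) (.ax 12 14 16 18 2), .t 1 (nat_lit 0) (.ax 12 14 16 18 4), .t 1 (nat_lit 0) (.ax 12 14 16 18 6), .t 1 (nat_lit 0) (.ax 12 14 16 19 4), .t 1 (nat_lit 0) (.ax 12 14 16 19 6), .t 1 (nat_lit 0) (.ax 12 14 16 20 4), .t 1 (nat_lit 0) (.ax 12 14 16 21 4), .t 1 (nat_lit 0) (.ax 12 14 17 18 3), .t 1 (nat_lit 0) (.ax 12 14 17 18 4), .t 1 (nat_lit 0) (.ax 12 14 17 18 5), .t 1 (nat_lit 0) (.ax 12 14 17 18 6), .t 1 (nat_lit 0) (.ax 12 14 17 18 7), .t 1 (nat_lit 0) (.ax 12 14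 17 19 0), .t 1 (nat_lit 0) (.ax 12 14 17 19 1), .t 1 (nat_lit 0) (.ax 12 14 17 19 2), .t 1 (nat_lit 0) (.ax 12 14 17 19 3), .t 1 (nat_lit 0) (.ax 12 14 17 19 4), .t 1 (nat_lit 0) (.ax 12 14 17 19 5), .t 1 (nat_lit 0) (.ax 12 14 17 19 6), .t 1 (nat_lit 0) (.ax 12 14 17 19 7), .t 1 (nat_lit 0) (.ax 12 14 17 20 0), .t 1 (nat_lit 0) (.ax 12 14 17 20 1), .t 1 (nat_lit 0) (.ax 12 14 17 20 2), .t 1 (nat_lit 0) (.ax 12 14 17 20 3), .t 1 (nat_lit 0) (.ax 12 14 17 20 4)] (by decide +kernel) (by decide +kernel)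
theorem b136 : B 4352 4384 := Blk.of_chk [.t 1 (nat_lit 0) (.ax 12 14 17 20 5), .t 1 (nat_lit 0) (.ax 12 14 17 20 6), .t 1 (nat_lit 0) (.ax 12 14 17 21 0), .t 1 (nat_lit 0) (.ax 12 14 17 21 2), .t 1 (nat_lit 0) (.ax 12 14 17 21 4), .t 1 (nat_lit 0) (.ax 12 14 17 21 6), .t 1 (nat_lit 0) (.ax 12 14 17 22 0), .t 1 (nat_lit 0) (.ax 12 14 17 22 2), .t 1 (nat_lit 0) (.ax 12 14 17 22 4), .t 1 (nat_lit 0) (.ax 12 14 17 22 6), .t 1 (nat_lit 0) (.ax 12 14 18 19 0), .t 1 (nat_lit 0) (.ax 12 14 18 19 1), .t 1 (nat_lit 0) (.ax 12 14 18 19 2), .t 1 (nat_lit 0) (.ax 12 14 18 19 3), .t 1 (nat_lit 0) (.ax 12 14 18 19 4), .t 1 (nat_lit 0) (.ax 12 14 18 19 5), .t 1 (nat_lit 0) (.ax 12 14 18 19 6), .t 1 (nat_lit 0) (.ax 12 14 18 19 7), .t 1 (nat_lit 0) (.ax 12 14 18 20 0), .t 1 (nat_lit 0) (.ax 12 14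 18 20 1), .t 1 (nat_lit 0) (.ax 12 14 18 20 2), .t 1 (nat_lit 0) (.ax 12 14 18 20 3), .t 1 (nat_lit 0) (.ax 12 14 18 20 4), .t 1 (nat_lit 0) (.ax 12 14 18 20 5), .t 1 (nat_lit 0) (.ax 12 14 18 20 6), .t 1 (nat_lit 0) (.ax 12 14 18 21 0), .t 1 (nat_lit 0) (.ax 12 14 18 21 2), .t 1 (nat_lit 0) (.ax 12 14 18 21 4), .t 1 (nat_lit 0) (.ax 12 14 18 21 6), .t 1 (nat_lit 0) (.ax 12 14 18 22 2), .t 1 (nat_lit 0) (.ax 12 14 19 20 4), .t 1 (nat_lit 0) (.ax 12 14 19 20 6)] (by decide +kernel) (by decide +kernel)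
theorem b137 : B 4384 4416 := Blk.of_chk [.t 1 (nat_lit 0) (.ax 12 14 19 21 4), .t 1 (nat_lit 0) (.ax 12 14 19 22 4), .t 1 (nat_lit 0) (.ax 12 14 20 21 4), .t 1 (nat_lit 0) (.ax 12 14 20 22 4), .t 1 (nat_lit 0) (.ax 12 14 21 22 5), .t 1 (nat_lit 0) (.ax 12 15 16 17 1), .t 1 (nat_lit 0) (.ax 12 15 16 17 2), .t 1 (nat_lit 0) (.ax 12 15 16 17 4), .t 1 (nat_lit 0) (.ax 12 15 16 18 1), .t 1 (nat_lit 0) (.ax 12 15 16 18 2), .t 1 (nat_lit 0) (.ax 12 15 16 18 4), .t 1 (nat_lit 0) (.ax 12 15 16 19 4), .t 1 (nat_lit 0) (.ax 12 15 16 20 4), .t 1 (nat_lit 0) (.ax 12 15 16 21 4), .t 1 (nat_lit 0) (.ax 12 15 17 18 0), .t 1 (nat_lit 0) (.ax 12 15 17 18 1), .t 1 (nat_lit 0) (.ax 12 15 17 18 5), .t 1 (nat_lit 0) (.ax 12 15 17 18 6), .t 1 (nat_lit 0) (.ax 12 15 17 19 0), .t 1 (nat_lit 0) (.ax 12 15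 17 19 1), .t 1 (nat_lit 0) (.ax 12 15 17 19 2), .t 1 (nat_lit 0) (.ax 12 15 17 19 3), .t 1 (nat_lit 0) (.ax 12 15 17 19 4), .t 1 (nat_lit 0) (.ax 12 15 17 19 5), .t 1 (nat_lit 0) (.ax 12 15 17 19 6), .t 1 (nat_lit 0) (.ax 12 15 17 20 1), .t 1 (nat_lit 0) (.ax 12 15 17 20 3), .t 1 (nat_lit 0) (.ax 12 15 17 20 4), .t 1 (nat_lit 0) (.ax 12 15 17 20 5), .t 1 (nat_lit 0) (.ax 12 15 17 21 0), .t 1 (nat_lit 0) (.ax 12 15 17 21 2), .t 1 (nat_lit 0) (.ax 12 15 17 21 4)] (by decide +kernel) (by decide +kernel)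
theorem b138 : B 4416 4448 := Blk.of_chk [.t 1 (nat_lit 0) (.ax 12 15 17 22 6), .t 1 (nat_lit 0) (.ax 12 15 18 19 0), .t 1 (nat_lit 0) (.ax 12 15 18 19 1), .t 1 (nat_lit 0) (.ax 12 15 18 19 2), .t 1 (nat_lit 0) (.ax 12 15 18 19 3), .t 1 (nat_lit 0) (.ax 12 15 18 19 4), .t 1 (nat_lit 0) (.ax 12 15 18 19 5), .t 1 (nat_lit 0) (.ax 12 15 18 19 6), .t 1 (nat_lit 0) (.ax 12 15 18 20 1), .t 1 (nat_lit 0) (.ax 12 15 18 20 3), .t 1 (nat_lit 0) (.ax 12 15 18 20 5), .t 1 (nat_lit 0) (.ax 12 15 18 21 0), .t 1 (nat_lit 0) (.ax 12 15 18 21 2), .t 1 (nat_lit 0) (.ax 12 15 18 21 4), .t 1 (nat_lit 0) (.ax 12 15 18 22 6), .t 1 (nat_lit 0) (.ax 12 15 19 20 4), .t 1 (nat_lit 0) (.ax 12 15 19 21 4), .t 1 (nat_lit 0) (.ax 12 15 19 22 4), .t 1 (nat_lit 0) (.ax 12 15 20 21 4), .t 1 (nat_lit 0) (.ax 12 16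 17 18 0), .t 1 (nat_lit 0) (.ax 12 16 17 18 5), .t 1 (nat_lit 0) (.ax 12 16 19 21 0), .t 1 (nat_lit 0) (.ax 12 17 18 19 0), .t 1 (nat_lit 0) (.ax 12 17 18 19 1), .t 1 (nat_lit 0) (.ax 12 17 18 19 4), .t 1 (nat_lit 0) (.ax 12 17 18 19 5), .t 1 (nat_lit 0) (.ax 12 17 18 20 4), .t 1 (nat_lit 0) (.ax 12 17 19 20 4), .t 1 (nat_lit 0) (.ax 12 17 19 20 6), .t 1 (nat_lit 0) (.ax 12 17 19 21 4), .t 1 (nat_lit 0) (.ax 12 17 19 22 4), .t 1 (nat_lit 0) (.ax 12 17 20 21 4)] (by decide +kernel) (by decide +kernel)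
theorem b139 : B 4448 4480 := Blk.of_chk [.t 1 (nat_lit 0) (.ax 12 17 20 22 4), .t 1 (nat_lit 0) (.ax 12 17 21 22 5), .t 1 (nat_lit 0) (.ax 12 18 19 20 4), .t 1 (nat_lit 0) (.ax 12 18 19 21 4), .t 1 (nat_lit 0) (.ax 12 18 19 22 4), .t 1 (nat_lit 0) (.ax 12 18 20 22 4), .t 1 (nat_lit 0) (.ax 12 18 21 22 5), .t 1 (nat_lit 0) (.ax 12 19 20 21 0), .t 1 (nat_lit 0) (.ax 12 20 21 22 5), .t 1 (nat_lit 0) (.ax 13 14 15 16 0), .t 1 (nat_lit 0) (.ax 13 14 15 16 1), .t 1 (nat_lit 0) (.ax 13 14 15 16 2), .t 1 (nat_lit 0) (.ax 13 14 15 16 3), .t 1 (nat_lit 0) (.ax 13 14 15 16 4), .t 1 (nat_lit 0) (.ax 13 14 15 16 5), .t 1 (nat_lit 0) (.ax 13 14 15 16 6), .t 1 (nat_lit 0) (.ax 13 14 15 16 7), .t 1 (nat_lit 0) (.ax 13 14 15 17 0), .t 1 (nat_lit 0) (.ax 13 14 15 17 1), .t 1 (nat_lit 0) (.ax 13 14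 15 17 2), .t 1 (nat_lit 0) (.ax 13 14 15 17 3), .t 1 (nat_lit 0) (.ax 13 14 15 17 4), .t 1 (nat_lit 0) (.ax 13 14 15 17 5), .t 1 (nat_lit 0) (.ax 13 14 15 17 6), .t 1 (nat_lit 0) (.ax 13 14 15 17 7), .t 1 (nat_lit 0) (.ax 13 14 15 18 0), .t 1 (nat_lit 0) (.ax 13 14 15 18 1), .t 1 (nat_lit 0) (.ax 13 14 15 18 2), .t 1 (nat_lit 0) (.ax 13 14 15 18 3), .t 1 (nat_lit 0) (.ax 13 14 15 18 4), .t 1 (nat_lit 0) (.ax 13 14 15 18 5), .t 1 (nat_lit 0) (.ax 13 14 15 18 6)] (by decide +kernel) (by decide +kernel)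
theorem b140 : B 4480 4512 := Blk.of_chk [.t 1 (nat_lit 0) (.ax 13 14 15 18 7), .t 1 (nat_lit 0) (.ax 13 14 15 19 0), .t 1 (nat_lit 0) (.ax 13 14 15 19 1), .t 1 (nat_lit 0) (.ax 13 14 15 19 2), .t 1 (nat_lit 0) (.ax 13 14 15 19 3), .t 1 (nat_lit 0) (.ax 13 14 15 19 4), .t 1 (nat_lit 0) (.ax 13 14 15 19 5), .t 1 (nat_lit 0) (.ax 13 14 15 19 6), .t 1 (nat_lit 0) (.ax 13 14 15 19 7), .t 1 (nat_lit 0) (.ax 13 14 15 20 0), .t 1 (nat_lit 0) (.ax 13 14 15 20 2), .t 1 (nat_lit 0) (.ax 13 14 15 20 3), .t 1 (nat_lit 0) (.ax 13 14 15 20 4), .t 1 (nat_lit 0) (.ax 13 14 15 20 6), .t 1 (nat_lit 0) (.ax 13 14 15 21 0), .t 1 (nat_lit 0) (.ax 13 14 15 21 1), .t 1 (nat_lit 0) (.ax 13 14 15 21 2), .t 1 (nat_lit 0) (.ax 13 14 15 21 3), .t 1 (nat_lit 0) (.ax 13 14 15 21 4), .t 1 (nat_lit 0) (.ax 13 14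 15 21 5), .t 1 (nat_lit 0) (.ax 13 14 15 21 6), .t 1 (nat_lit 0) (.ax 13 14 15 21 7), .t 1 (nat_lit 0) (.ax 13 14 15 22 0), .t 1 (nat_lit 0) (.ax 13 14 15 22 2), .t 1 (nat_lit 0) (.ax 13 14 15 22 3), .t 1 (nat_lit 0) (.ax 13 14 15 22 4), .t 1 (nat_lit 0) (.ax 13 14 16 17 1), .t 1 (nat_lit 0) (.ax 13 14 16 17 2), .t 1 (nat_lit 0) (.ax 13 14 16 17 4), .t 1 (nat_lit 0) (.ax 13 14 16 17 6), .t 1 (nat_lit 0) (.ax 13 14 16 18 1), .t 1 (nat_lit 0) (.ax 13 14 16 18 2)] (by decide +kernel) (by decide +kernel)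
theorem b141 : B 4512 4544 := Blk.of_chk [.t 1 (nat_lit 0) (.ax 13 14 16 18 4), .t 1 (nat_lit 0) (.ax 13 14 16 18 6), .t 1 (nat_lit 0) (.ax 13 14 16 19 4), .t 1 (nat_lit 0) (.ax 13 14 16 19 6), .t 1 (nat_lit 0) (.ax 13 14 16 20 4), .t 1 (nat_lit 0) (.ax 13 14 16 21 4), .t 1 (nat_lit 0) (.ax 13 14 16 21 6), .t 1 (nat_lit 0) (.ax 13 14 16 22 4), .t 1 (nat_lit 0) (.ax 13 14 17 18 0), .t 1 (nat_lit 0) (.ax 13 14 17 18 1), .t 1 (nat_lit 0) (.ax 13 14 17 18 2), .t 1 (nat_lit 0) (.ax 13 14 17 18 3), .t 1 (nat_lit 0) (.ax 13 14 17 18 4), .t 1 (nat_lit 0) (.ax 13 14 17 18 5), .t 1 (nat_lit 0) (.ax 13 14 17 18 6), .t 1 (nat_lit 0) (.ax 13 14 17 19 0), .t 1 (nat_lit 0) (.ax 13 14 17 19 1), .t 1 (nat_lit 0) (.ax 13 14 17 19 2), .t 1 (nat_lit 0) (.ax 13 14 17 19 3), .t 1 (nat_lit 0) (.ax 13 14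 17 19 4), .t 1 (nat_lit 0) (.ax 13 14 17 19 5), .t 1 (nat_lit 0) (.ax 13 14 17 19 6), .t 1 (nat_lit 0) (.ax 13 14 17 19 7), .t 1 (nat_lit 0) (.ax 13 14 17 20 0), .t 1 (nat_lit 0) (.ax 13 14 17 20 1), .t 1 (nat_lit 0) (.ax 13 14 17 20 2), .t 1 (nat_lit 0) (.ax 13 14 17 20 3), .t 1 (nat_lit 0) (.ax 13 14 17 20 4), .t 1 (nat_lit 0) (.ax 13 14 17 20 5), .t 1 (nat_lit 0) (.ax 13 14 17 20 6), .t 1 (nat_lit 0) (.ax 13 14 17 21 0), .t 1 (nat_lit 0) (.ax 13 14 17 21 1)] (by decide +kernel) (by decide +kernel)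
theorem b142 : B 4544 4576 := Blk.of_chk [.t 1 (nat_lit 0) (.ax 13 14 17 21 2), .t 1 (nat_lit 0) (.ax 13 14 17 21 3), .t 1 (nat_lit 0) (.ax 13 14 17 21 4), .t 1 (nat_lit 0) (.ax 13 14 17 21 6), .t 1 (nat_lit 0) (.ax 13 14 17 22 0), .t 1 (nat_lit 0) (.ax 13 14 17 22 1), .t 1 (nat_lit 0) (.ax 13 14 17 22 2), .t 1 (nat_lit 0) (.ax 13 14 17 22 3), .t 1 (nat_lit 0) (.ax 13 14 17 22 6), .t 1 (nat_lit 0) (.ax 13 14 18 19 0), .t 1 (nat_lit 0) (.ax 13 14 18 19 1), .t 1 (nat_lit 0) (.ax 13 14 18 19 2), .t 1 (nat_lit 0) (.ax 13 14 18 19 3), .t 1 (nat_lit 0) (.ax 13 14 18 19 4), .t 1 (nat_lit 0) (.ax 13 14 18 19 5), .t 1 (nat_lit 0) (.ax 13 14 18 19 6), .t 1 (nat_lit 0) (.ax 13 14 18 19 7), .t 1 (nat_lit 0) (.ax 13 14 18 20 0), .t 1 (nat_lit 0) (.ax 13 14 18 20 1), .t 1 (nat_lit 0) (.ax 13 14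 18 20 2), .t 1 (nat_lit 0) (.ax 13 14 18 20 3), .t 1 (nat_lit 0) (.ax 13 14 18 20 4), .t 1 (nat_lit 0) (.ax 13 14 18 20 5), .t 1 (nat_lit 0) (.ax 13 14 18 20 6), .t 1 (nat_lit 0) (.ax 13 14 18 21 0), .t 1 (nat_lit 0) (.ax 13 14 18 21 1), .t 1 (nat_lit 0) (.ax 13 14 18 21 2), .t 1 (nat_lit 0) (.ax 13 14 18 21 3), .t 1 (nat_lit 0) (.ax 13 14 18 21 4), .t 1 (nat_lit 0) (.ax 13 14 18 21 6), .t 1 (nat_lit 0) (.ax 13 14 18 22 6), .t 1 (nat_lit 0) (.ax 13 14 19 20 4)] (by decide +kernel) (by decide +kernel)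
theorem b143 : B 4576 4608 := Blk.of_chk [.t 1 (nat_lit 0) (.ax 13 14 19 20 6), .t 1 (nat_lit 0) (.ax 13 14 19 21 4), .t 1 (nat_lit 0) (.ax 13 14 19 21 6), .t 1 (nat_lit 0) (.ax 13 14 19 22 4), .t 1 (nat_lit 0) (.ax 13 14 20 21 4), .t 1 (nat_lit 0) (.ax 13 14 20 21 6), .t 1 (nat_lit 0) (.ax 13 14 20 22 4), .t 1 (nat_lit 0) (.ax 13 14 21 22 5), .t 1 (nat_lit 0) (.ax 13 15 16 17 1), .t 1 (nat_lit 0) (.ax 13 15 16 17 2), .t 1 (nat_lit 0) (.ax 13 15 16 17 4), .t 1 (nat_lit 0) (.ax 13 15 16 17 6), .t 1 (nat_lit 0) (.ax 13 15 16 18 1), .t 1 (nat_lit 0) (.ax 13 15 16 18 2), .t 1 (nat_lit 0) (.ax 13 15 16 18 4), .t 1 (nat_lit 0) (.ax 13 15 16 19 4), .t 1 (nat_lit 0) (.ax 13 15 16 19 6), .t 1 (nat_lit 0) (.ax 13 15 16 20 4), .t 1 (nat_lit 0) (.ax 13 15 16 21 4), .t 1 (nat_lit 0) (.ax 13 15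 16 21 6), .t 1 (nat_lit 0) (.ax 13 15 16 22 4), .t 1 (nat_lit 0) (.ax 13 15 17 18 0), .t 1 (nat_lit 0) (.ax 13 15 17 18 1), .t 1 (nat_lit 0) (.ax 13 15 17 18 3), .t 1 (nat_lit 0) (.ax 13 15 17 18 4), .t 1 (nat_lit 0) (.ax 13 15 17 18 5), .t 1 (nat_lit 0) (.ax 13 15 17 18 6), .t 1 (nat_lit 0) (.ax 13 15 17 18 7), .t 1 (nat_lit 0) (.ax 13 15 17 19 0), .t 1 (nat_lit 0) (.ax 13 15 17 19 1), .t 1 (nat_lit 0) (.ax 13 15 17 19 2), .t 1 (nat_lit 0) (.ax 13 15 17 19 3)] (by decide +kernel) (by decide +kernel)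
theorem b144 : B 4608 4640 := Blk.of_chk [.t 1 (nat_lit 0) (.ax 13 15 17 19 4), .t 1 (nat_lit 0) (.ax 13 15 17 19 5), .t 1 (nat_lit 0) (.ax 13 15 17 19 6), .t 1 (nat_lit 0) (.ax 13 15 17 19 7), .t 1 (nat_lit 0) (.ax 13 15 17 20 1), .t 1 (nat_lit 0) (.ax 13 15 17 20 3), .t 1 (nat_lit 0) (.ax 13 15 17 20 5), .t 1 (nat_lit 0) (.ax 13 15 17 21 0), .t 1 (nat_lit 0) (.ax 13 15 17 21 2), .t 1 (nat_lit 0) (.ax 13 15 17 21 3), .t 1 (nat_lit 0) (.ax 13 15 17 21 4), .t 1 (nat_lit 0) (.ax 13 15 17 22 6), .t 1 (nat_lit 0) (.ax 13 15 18 19 0), .t 1 (nat_lit 0) (.ax 13 15 18 19 1), .t 1 (nat_lit 0) (.ax 13 15 18 19 2), .t 1 (nat_lit 0) (.ax 13 15 18 19 3), .t 1 (nat_lit 0) (.ax 13 15 18 19 4), .t 1 (nat_lit 0) (.ax 13 15 18 19 5), .t 1 (nat_lit 0) (.ax 13 15 18 19 6), .t 1 (nat_lit 0) (.ax 13 15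 18 19 7), .t 1 (nat_lit 0) (.ax 13 15 18 20 0), .t 1 (nat_lit 0) (.ax 13 15 18 20 1), .t 1 (nat_lit 0) (.ax 13 15 18 20 3), .t 1 (nat_lit 0) (.ax 13 15 18 20 4), .t 1 (nat_lit 0) (.ax 13 15 18 20 5), .t 1 (nat_lit 0) (.ax 13 15 18 21 0), .t 1 (nat_lit 0) (.ax 13 15 18 21 2), .t 1 (nat_lit 0) (.ax 13 15 18 21 4), .t 1 (nat_lit 0) (.ax 13 15 18 22 0), .t 1 (nat_lit 0) (.ax 13 15 18 22 6), .t 1 (nat_lit 0) (.ax 13 15 19 20 4), .t 1 (nat_lit 0) (.ax 13 15 19 20 6)] (by decide +kernel) (by decide +kernel)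
theorem b145 : B 4640 4672 := Blk.of_chk [.t 1 (nat_lit 0) (.ax 13 15 19 21 4), .t 1 (nat_lit 0) (.ax 13 15 19 21 6), .t 1 (nat_lit 0) (.ax 13 15 19 22 4), .t 1 (nat_lit 0) (.ax 13 15 20 21 4), .t 1 (nat_lit 0) (.ax 13 15 20 22 4), .t 1 (nat_lit 0) (.ax 13 16 17 18 0), .t 1 (nat_lit 0) (.ax 13 16 17 18 2), .t 1 (nat_lit 0) (.ax 13 16 17 18 4), .t 1 (nat_lit 0) (.ax 13 16 17 18 5), .t 1 (nat_lit 0) (.ax 13 16 19 21 0), .t 1 (nat_lit 0) (.ax 13 17 18 19 0), .t 1 (nat_lit 0) (.ax 13 17 18 19 1), .t 1 (nat_lit 0) (.ax 13 17 18 19 4), .t 1 (nat_lit 0) (.ax 13 17 18 19 5), .t 1 (nat_lit 0) (.ax 13 17 18 19 6), .t 1 (nat_lit 0) (.ax 13 17 18 19 7), .t 1 (nat_lit 0) (.ax 13 17 18 20 0), .t 1 (nat_lit 0) (.ax 13 17 18 20 1), .t 1 (nat_lit 0) (.ax 13 17 18 20 4), .t 1 (nat_lit 0) (.ax 13 17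 19 20 4), .t 1 (nat_lit 0) (.ax 13 17 19 20 6), .t 1 (nat_lit 0) (.ax 13 17 19 21 4), .t 1 (nat_lit 0) (.ax 13 17 19 22 4), .t 1 (nat_lit 0) (.ax 13 17 20 21 4), .t 1 (nat_lit 0) (.ax 13 17 20 22 4), .t 1 (nat_lit 0) (.ax 13 17 21 22 5), .t 1 (nat_lit 0) (.ax 13 18 19 20 4), .t 1 (nat_lit 0) (.ax 13 18 19 20 6), .t 1 (nat_lit 0) (.ax 13 18 19 21 4), .t 1 (nat_lit 0) (.ax 13 18 19 22 4), .t 1 (nat_lit 0) (.ax 13 18 20 22 4), .t 1 (nat_lit 0) (.ax 13 18 21 22 5)] (by decide +kernel) (by decide +kernel)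
theorem b146 : B 4672 4704 := Blk.of_chk [.t 1 (nat_lit 0) (.ax 13 19 20 21 0), .t 1 (nat_lit 0) (.ax 13 20 21 22 5), .t 1 (nat_lit 0) (.ax 14 15 16 17 1), .t 1 (nat_lit 0) (.ax 14 15 16 17 2), .t 1 (nat_lit 0) (.ax 14 15 16 17 4), .t 1 (nat_lit 0) (.ax 14 15 16 17 6), .t 1 (nat_lit 0) (.ax 14 15 16 18 1), .t 1 (nat_lit 0) (.ax 14 15 16 18 2), .t 1 (nat_lit 0) (.ax 14 15 16 18 4), .t 1 (nat_lit 0) (.ax 14 15 16 18 6), .t 1 (nat_lit 0) (.ax 14 15 16 19 4), .t 1 (nat_lit 0) (.ax 14 15 16 19 6), .t 1 (nat_lit 0) (.ax 14 15 16 20 4), .t 1 (nat_lit 0) (.ax 14 15 16 21 4), .t 1 (nat_lit 0) (.ax 14 15 16 21 6), .t 1 (nat_lit 0) (.ax 14 15 17 18 0), .t 1 (nat_lit 0) (.ax 14 15 17 18 1), .t 1 (nat_lit 0) (.ax 14 15 17 18 3), .t 1 (nat_lit 0) (.ax 14 15 17 18 4), .t 1 (nat_lit 0) (.ax 14 15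 17 18 5), .t 1 (nat_lit 0) (.ax 14 15 17 18 6), .t 1 (nat_lit 0) (.ax 14 15 17 19 0), .t 1 (nat_lit 0) (.ax 14 15 17 19 1), .t 1 (nat_lit 0) (.ax 14 15 17 19 2), .t 1 (nat_lit 0) (.ax 14 15 17 19 3), .t 1 (nat_lit 0) (.ax 14 15 17 19 4), .t 1 (nat_lit 0) (.ax 14 15 17 19 5), .t 1 (nat_lit 0) (.ax 14 15 17 19 6), .t 1 (nat_lit 0) (.ax 14 15 17 19 7), .t 1 (nat_lit 0) (.ax 14 15 17 20 0), .t 1 (nat_lit 0) (.ax 14 15 17 20 1), .t 1 (nat_lit 0) (.ax 14 15 17 20 3)] (by decide +kernel) (by decide +kernel)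
theorem b147 : B 4704 4736 := Blk.of_chk [.t 1 (nat_lit 0) (.ax 14 15 17 20 4), .t 1 (nat_lit 0) (.ax 14 15 17 20 5), .t 1 (nat_lit 0) (.ax 14 15 17 21 0), .t 1 (nat_lit 0) (.ax 14 15 17 21 2), .t 1 (nat_lit 0) (.ax 14 15 17 21 4), .t 1 (nat_lit 0) (.ax 14 15 17 22 0), .t 1 (nat_lit 0) (.ax 14 15 17 22 6), .t 1 (nat_lit 0) (.ax 14 15 18 19 0), .t 1 (nat_lit 0) (.ax 14 15 18 19 1), .t 1 (nat_lit 0) (.ax 14 15 18 19 2), .t 1 (nat_lit 0) (.ax 14 15 18 19 3), .t 1 (nat_lit 0) (.ax 14 15 18 19 4), .t 1 (nat_lit 0) (.ax 14 15 18 19 5), .t 1 (nat_lit 0) (.ax 14 15 18 19 6), .t 1 (nat_lit 0) (.ax 14 15 18 19 7), .t 1 (nat_lit 0) (.ax 14 15 18 20 0), .t 1 (nat_lit 0) (.ax 14 15 18 20 1), .t 1 (nat_lit 0) (.ax 14 15 18 20 3), .t 1 (nat_lit 0) (.ax 14 15 18 20 5), .t 1 (nat_lit 0) (.ax 14 15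 18 21 0), .t 1 (nat_lit 0) (.ax 14 15 18 21 2), .t 1 (nat_lit 0) (.ax 14 15 18 21 4), .t 1 (nat_lit 0) (.ax 14 15 18 22 0), .t 1 (nat_lit 0) (.ax 14 15 18 22 6), .t 1 (nat_lit 0) (.ax 14 15 19 20 4), .t 1 (nat_lit 0) (.ax 14 15 19 21 4), .t 1 (nat_lit 0) (.ax 14 15 19 21 6), .t 1 (nat_lit 0) (.ax 14 15 19 22 4), .t 1 (nat_lit 0) (.ax 14 15 20 21 4), .t 1 (nat_lit 0) (.ax 14 15 20 22 4), .t 1 (nat_lit 0) (.ax 14 16 17 18 0), .t 1 (nat_lit 0) (.ax 14 16 17 18 2)] (by decide +kernel) (by decide +kernel)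
theorem b148 : B 4736 4768 := Blk.of_chk [.t 1 (nat_lit 0) (.ax 14 16 17 18 4), .t 1 (nat_lit 0) (.ax 14 16 17 18 5), .t 1 (nat_lit 0) (.ax 14 16 17 20 0), .t 1 (nat_lit 0) (.ax 14 16 19 21 0), .t 1 (nat_lit 0) (.ax 14 17 18 19 0), .t 1 (nat_lit 0) (.ax 14 17 18 19 1), .t 1 (nat_lit 0) (.ax 14 17 18 19 2), .t 1 (nat_lit 0) (.ax 14 17 18 19 3), .t 1 (nat_lit 0) (.ax 14 17 18 19 4), .t 1 (nat_lit 0) (.ax 14 17 18 19 5), .t 1 (nat_lit 0) (.ax 14 17 18 19 6), .t 1 (nat_lit 0) (.ax 14 17 18 19 7), .t 1 (nat_lit 0) (.ax 14 17 18 20 0), .t 1 (nat_lit 0) (.ax 14 17 18 20 1), .t 1 (nat_lit 0) (.ax 14 17 18 20 3), .t 1 (nat_lit 0) (.ax 14 17 18 20 4), .t 1 (nat_lit 0) (.ax 14 17 18 20 6), .t 1 (nat_lit 0) (.ax 14 17 18 21 6), .t 1 (nat_lit 0) (.ax 14 17 18 22 6), .t 1 (nat_lit 0) (.ax 14 17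 19 20 4), .t 1 (nat_lit 0) (.ax 14 17 19 21 4), .t 1 (nat_lit 0) (.ax 14 17 19 22 4), .t 1 (nat_lit 0) (.ax 14 17 20 21 4), .t 1 (nat_lit 0) (.ax 14 17 20 22 4), .t 1 (nat_lit 0) (.ax 14 17 21 22 5), .t 1 (nat_lit 0) (.ax 14 18 19 20 4), .t 1 (nat_lit 0) (.ax 14 18 19 21 4), .t 1 (nat_lit 0) (.ax 14 18 19 22 4), .t 1 (nat_lit 0) (.ax 14 18 20 22 4), .t 1 (nat_lit 0) (.ax 14 18 21 22 5), .t 1 (nat_lit 0) (.ax 14 19 20 21 0), .t 1 (nat_lit 0) (.ax 14 20 21 22 5)] (by decide +kernel) (by decide +kernel)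
theorem b149 : B 4768 4800 := Blk.of_chk [.t 1 (nat_lit 0) (.ax 15 16 17 18 0), .t 1 (nat_lit 0) (.ax 15 16 17 18 2), .t 1 (nat_lit 0) (.ax 15 16 17 18 4), .t 1 (nat_lit 0) (.ax 15 16 17 18 5), .t 1 (nat_lit 0) (.ax 15 16 17 20 0), .t 1 (nat_lit 0) (.ax 15 16 18 20 0), .t 1 (nat_lit 0) (.ax 15 16 19 21 0), .t 1 (nat_lit 0) (.ax 15 17 18 19 0), .t 1 (nat_lit 0) (.ax 15 17 18 19 1), .t 1 (nat_lit 0) (.ax 15 17 18 19 4), .t 1 (nat_lit 0) (.ax 15 17 18 19 5), .t 1 (nat_lit 0) (.ax 15 17 18 19 6), .t 1 (nat_lit 0) (.ax 15 17 18 19 7), .t 1 (nat_lit 0) (.ax 15 17 18 20 0), .t 1 (nat_lit 0) (.ax 15 17 18 20 1), .t 1 (nat_lit 0) (.ax 15 17 18 20 6), .t 1 (nat_lit 0) (.ax 15 17 18 20 7), .t 1 (nat_lit 0) (.ax 15 17 18 21 6), .t 1 (nat_lit 0) (.ax 15 17 18 22 3), .t 1 (nat_lit 0) (.ax 15 17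 19 20 4), .t 1 (nat_lit 0) (.ax 15 17 19 20 6), .t 1 (nat_lit 0) (.ax 15 17 19 21 4), .t 1 (nat_lit 0) (.ax 15 17 20 21 4), .t 1 (nat_lit 0) (.ax 15 17 20 22 4), .t 1 (nat_lit 0) (.ax 15 17 21 22 5), .t 1 (nat_lit 0) (.ax 15 18 19 20 4), .t 1 (nat_lit 0) (.ax 15 18 19 21 4), .t 1 (nat_lit 0) (.ax 15 18 19 22 4), .t 1 (nat_lit 0) (.ax 15 18 20 21 4), .t 1 (nat_lit 0) (.ax 15 18 20 22 4), .t 1 (nat_lit 0) (.ax 15 18 21 22 5), .t 1 (nat_lit 0) (.ax 15 19 20 21 0)] (by decide +kernel) (by decide +kernel)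
theorem b150 : B 4800 4832 := Blk.of_chk [.t 1 (nat_lit 0) (.ax 15 20 21 22 5), .t 1 (nat_lit 0) (.ax 16 17 18 19 2), .t 1 (nat_lit 0) (.ax 16 17 18 20 4), .t 1 (nat_lit 0) (.ax 16 17 19 21 3), .t 1 (nat_lit 0) (.ax 16 18 19 21 3), .t 1 (nat_lit 0) (.ax 17 18 19 20 4), .t 1 (nat_lit 0) (.ax 17 18 19 22 4), .t 1 (nat_lit 0) (.ax 17 19 20 21 0), .t 1 (nat_lit 0) (.ax 17 20 21 22 5), .t 1 (nat_lit 0) (.ax 18 19 20 21 0), .t 1 (nat_lit 0) (.ax 18 20 21 22 5), .t 1 (nat_lit 0) (.fa 4), .t 1 (nat_lit 0) (.fa 3), .t 5 (nat_lit 0x17a003800030002) (.z (.node 8 0 (.edon 4 6 (.leaf [4,5,7]) (.leaf [1,3,6,8,2])) (.free 4 [0,9,10,11,12,13,14,15,16,17,18,19,20,21,22]))), .t 1 (nat_lit 0) (.fa 2), .t 5 (nat_lit 0x17a003800030002) (.z (.node 8 0 (.edon 4 8 (.leaf [4,5,7]) (.leaf [1,3,6,8,2])) (.free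 4 [0,9,10,11,12,13,14,15,16,17,18,19,20,21,22]))), .t 1 (nat_lit 0) (.fa 2), .t 1 (nat_lit 0) (.fa 2), .t 1 (nat_lit 0) (.fa 4), .t 1 (nat_lit 0) (.cp 3 3), .t 5 (nat_lit 0x12b712c912c112b9) (.z (.edon 0 15 (.free 4 [0,1,2,3,4,5,6,7,8,9,10,11,12,13,14]) (.node 15 19 (.leaf [15,20,22,21,17]) (.leaf [16,18,19])))), .t 1 (nat_lit 0) (.cn 2 2), .t 1 (nat_lit 0) (.fa 2), .t 1 (nat_lit 0) (.cn 2 2), .t 1 (nat_lit 0) (.cn 2 2), .t 1 (nat_lit 0) (.cn 3 3), .t 1 (nat_lit 0) (.cn 2 3), .t 1 (nat_lit 0) (.cn 2 3), .t 5 (nat_lit 0x1008100502310230) (.z (.edon 0 16 (.edon 0 12 (.edon 1 10 (.free 2 [1,3,4,5,7,8,9]) (.leaf [0,2,6,10,11])) (.leaf [12,14,15,13])) (.free 2 [16,17,18,19,20,21,22]))), .t 8 (nat_lit 0x1bb01ba01b80205020301c501c4) (.z (.node 2 4 (.node 0 8 (.free 4 [0,9,10,11,12,13,14,15,16,17,18,19,20,21,22])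 (.leaf [2,5,7,8,6])) (.free 1 [1,3,4]))), .t 7 (nat_lit 0x12c91242123a12390210020f) (.z (.node 4 19 (.edon 0 10 (.node 2 4 (.leaf [0,2,6,8,9]) (.leaf [1,3,4])) (.edon 0 13 (.leaf [10,11,12]) (.leaf [13,17,20,22,21]))) (.free 2 [5,7,14,15,16,18,19]))), .t 1 (nat_lit 0) (.cn 2 3)] (by decide +kernel) (by decide +kernel)
theorem b151 : B 4832 4864 := Blk.of_chk [.t 1 (nat_lit 0) (.cp 1 2), .t 1 (nat_lit 0) (.fa 4), .t 1 (nat_lit 0) (.fa 4), .t 1 (nat_lit 0) (.cn 1 2), .t 1 (nat_lit 0) (.fa 3), .t 1 (nat_lit 0) (.fa 2), .t 1 (nat_lit 0) (.fa 3), .t 7 (nat_lit 0x12c91169116211610210020f) (.z (.node 4 19 (.edon 0 10 (.node 2 4 (.leaf [0,2,6,8,9]) (.leaf [1,3,4])) (.node 12 13 (.leaf [12,17,20,22,21]) (.leaf [10,11,13]))) (.free 2 [5,7,14,15,16,18,19]))), .t 17 (nat_lit 0xe210e020dff10080f410ed40ea70ea50e620e5f0e500e4f0e400e3f0df90df7)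 (.z (.edon 0 16 (.edon 0 10 (.free 3 [0,1,2,3,4,5,6,7,8,9]) (.leaf [10,14,15,13,12,11])) (.free 2 [16,17,18,19,20,21,22]))), .t 10 (nat_lit 0x90008ff0a83024f024a0223022002150214) (.z (.edon 0 16 (.node 4 15 (.node 0 10 (.leaf [0,11,12,13]) (.node 2 4 (.leaf [2,6,8,10,9]) (.leaf [1,3,4]))) (.leaf [5,7,14,15])) (.free 2 [16,17,18,19,20,21,22]))), .t 7 (nat_lit 0x90008ff0df90df70210020f) (.z (.edon 0 16 (.node 4 15 (.edon 0 10 (.node 2 4 (.leaf [0,2,6,8,9]) (.leaf [1,3,4])) (.leaf [10,13,12,11])) (.leaf [5,7,14,15])) (.free 2 [16,17,18,19,20,21,22]))), .t 5 (nat_lit 0xd880d860d5a0d59) (.z (.node 0 7 (.edon 0 16 (.edon 8 12 (.leaf [8,14,15,13]) (.leaf [0,9,10,11,12])) (.free 2 [16,17,18,19,20,21,22])) (.free 2 [1,2,3,4,5,6,7]))), .t 5 (nat_lit 0x1008100502770275) (.z (.edon 0 16 (.edon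 0 12 (.node 2 8 (.leaf [0,2,9,10,11]) (.free 2 [1,3,4,5,6,7,8])) (.leaf [12,14,15,13])) (.free 2 [16,17,18,19,20,21,22]))), .t 10 (nat_lit 0x12af12aa12a90c9a0c981010100d12ba12b4) (.z (.node 0 7 (.node 0 11 (.node 0 20 (.leaf [0,21,22]) (.node 15 16 (.leaf [15,18,19,20,17]) (.leaf [12,14,16,13]))) (.leaf [8,11,10,9])) (.free 2 [1,2,3,4,5,6,7]))), .t 5 (nat_lit 0xc9a0c9810971095) (.z (.node 0 7 (.node 0 11 (.edon 14 17 (.free 2 [14,15,16,18,19,20,22]) (.leaf [0,12,13,17,21])) (.leaf [8,11,10,9])) (.free 2 [1,2,3,4,5,6,7]))), .t 9 (nat_lit 0x20c9a0c981234115c10ae1091108f) (.z (.edon 19 4 (.node 0 6 (.node 0 11 (.node 0 20 (.leaf [0,21,22]) (.leaf [12,19,20,17,13])) (.leaf [8,11,10,9])) (.leaf [1,3,6,2])) (.free 2 [4,5,7,14,15,16,18]))), .t 7 (nat_lit 0x12c90e990e970e960210020f) (.z (.node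 4 19 (.edon 0 10 (.node 2 4 (.leaf [0,2,6,8,9]) (.leaf [1,3,4])) (.node 10 13 (.leaf [10,17,20,22,21]) (.leaf [11,12,13]))) (.free 2 [5,7,14,15,16,18,19]))), .t 8 (nat_lit 0x10080f410f3e0ed40ed10ea70ea5) (.z (.node 0 7 (.edon 0 11 (.leaf [0,8,9,10]) (.edon 0 16 (.leaf [11,14,15,13,12]) (.free 2 [16,17,18,19,20,21,22]))) (.free 2 [1,2,3,4,5,6,7]))), .t 8 (nat_lit 0xecb109710950f8f0f8e0eb20eb0) (.z (.node 0 7 (.edon 0 11 (.leaf [0,8,9,10]) (.edon 14 17 (.free 2 [14,15,16,18,19,20,22]) (.leaf [11,12,13,17,21]))) (.free 2 [1,2,3,4,5,6,7]))), .t 10 (nat_lit 0x215090008ff0a820a80024e024c0210020f) (.z (.edon 0 16 (.node 4 15 (.node 0 10 (.leaf [0,11,12,13]) (.node 2 4 (.leaf [2,6,8,9,10]) (.leaf [1,3,4]))) (.leaf [5,7,14,15])) (.free 2 [16,17,18,19,20,21,22]))), .t 7 (nat_lit 0xc9a0c981097109512491247)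 (.z (.node 0 7 (.node 0 11 (.edon 15 19 (.leaf [14,16,18,15]) (.edon 19 21 (.leaf [19,20,22]) (.leaf [0,12,13,17,21]))) (.leaf [8,11,10,9])) (.free 2 [1,2,3,4,5,6,7]))), .t 8 (nat_lit 0x27c0d880d8602ae02ac02770275) (.z (.edon 0 16 (.node 0 12 (.leaf [0,13,14,15]) (.node 2 8 (.leaf [2,9,10,11,12]) (.free 2 [1,3,4,5,6,7,8]))) (.free 2 [16,17,18,19,20,21,22]))), .t 7 (nat_lit 0x12491247088a088802770275) (.z (.node 2 4 (.edon 0 12 (.node 2 8 (.leaf [0,2,9,10,11]) (.leaf [5,7,8,6])) (.edon 15 19 (.leaf [14,16,18,15]) (.free 2 [12,13,17,19,20,21,22]))) (.free 1 [1,3,4]))), .t 10 (nat_lit 0x12c911691162116104bc04ba0361035f02f9) (.z (.edon 0 3 (.free 1 [0,1,2]) (.node 4 19 (.edon 0 10 (.leaf [3,4,9,8,6]) (.node 12 13 (.leaf [12,17,20,22,21]) (.leaf [10,11,13]))) (.free 2 [5,7,14,15,16,18,19])))),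 .t 8 (nat_lit 0xc9d0c9a0c950cf50cf20cba0cb8) (.z (.node 0 7 (.node 0 12 (.edon 0 16 (.leaf [0,13,14,15]) (.free 2 [16,17,18,19,20,21,22])) (.leaf [8,9,11,12,10])) (.free 2 [1,2,3,4,5,6,7]))), .t 1 (nat_lit 0) (.cn 2 3), .t 1 (nat_lit 0) (.cn 1 3), .t 1 (nat_lit 0) (.cn 2 3), .t 1 (nat_lit 0) (.cn 2 3), .t 10 (nat_lit 0x23508c908c60b080b0602ae02ac02310230) (.z (.edon 0 16 (.node 0 12 (.leaf [0,13,14,15]) (.node 2 4 (.node 6 8 (.leaf [2,6,10,11,12]) (.leaf [5,7,9,8])) (.leaf [1,3,4]))) (.free 2 [16,17,18,19,20,21,22]))), .t 8 (nat_lit 0x8fc08fb08fa0a110a0f090008ff) (.z (.edon 0 16 (.node 4 13 (.node 0 9 (.leaf [0,10,11,12]) (.free 2 [1,2,3,4,6,8,9])) (.leaf [5,7,14,15,13])) (.free 2 [16,17,18,19,20,21,22]))), .t 10 (nat_lit 0x117a116f116a0c990c9611ef11ed11a111a0) (.z (.node 0 7 (.node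 0 11 (.edon 13 19 (.leaf [13,14,16,18,15]) (.free 2 [0,12,17,19,20,21,22])) (.leaf [8,10,11,9])) (.free 2 [1,2,3,4,5,6,7])))] (by decide +kernel) (by decide +kernel)

end Pool.Agent.GCP.F7
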