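import Pool.Agent.GCP.F7Db

set_option autoImplicit false
set_option maxRecDepth 100000

/-! # Blocks F7B10 (generated) -/

namespace Pool.Agent.GCP.F7

open Pool.Agent.GCP DB

theorem b208 : B 6656 6688 := Blk.of_chk [.t 15 (nat_lit 0x3e703dd03da12ae12ab12a804c404bf0411040f0e9f0e9d12ba12b4) (.z (.node 0 3 (.node 6 16 (.node 0 10 (.node 0 14 (.node 0 20 (.leaf [0,21,22]) (.leaf [15,17,19,20,18])) (.leaf [11,14,13,12])) (.leaf [4,6,10,8,5])) (.leaf [7,9,16])) (.free 1 [1,2,3]))), .t 10 (nat_lit 0xa4b0a4a0a47100810050a820a7f0a5d0a5c) (.z (.edon 0 16 (.edon 0 12 (.node 2 4 (.node 5 10 (.leaf [0,2,5,11]) (.leaf [6,7,9,10,8])) (.leaf [1,3,4])) (.leaf [12,14,15,13])) (.free 2 [16,17,18,19,20,21,22]))), .t 7 (nat_lit 0x1008100501fc01fb0a4a0a47) (.z (.edon 0 16 (.edon 0 12 (.node 2 4 (.edon 6 10 (.leaf [6,7,9,8]) (.leaf [0,2,5,10,11])) (.leaf [1,3,4])) (.leaf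 [12,14,15,13])) (.free 2 [16,17,18,19,20,21,22]))), .t 7 (nat_lit 0xa4a0a4710ab10aa12451243) (.z (.edon 21 19 (.node 0 11 (.edon 14 18 (.leaf [14,16,17,15]) (.leaf [0,12,13,18,21])) (.node 4 8 (.free 2 [1,2,3,4,5,10,11]) (.leaf [6,7,9,8]))) (.free 1 [19,20,22]))), .t 9 (nat_lit 0x1193000112761275121c121b117e117c) (.z (.edon 19 4 (.node 0 5 (.edon 0 13 (.leaf [0,10,11,12]) (.edon 19 21 (.leaf [19,20,22]) (.leaf [13,14,15,18,21]))) (.leaf [1,3,5,2])) (.free 2 [4,6,7,8,9,16,17]))), .t 7 (nat_lit 0xa4a0a471128112611dd11db) (.z (.edon 21 19 (.node 0 11 (.node 14 15 (.leaf [0,13,14,18,21]) (.leaf [12,16,17,15])) (.node 4 8 (.free 2 [1,2,3,4,5,10,11]) (.leaf [6,7,9,8]))) (.free 1 [19,20,22]))), .t 14 (nat_lit 0x1186125a1258120111ff1176117412cb03dd0326032502f902ef) (.z (.edon 0 3 (.free 1 [0,1,2]) (.node 6 16 (.edon 0 10 (.leaf [3,4,6,8,5]) (.edon 0 13 (.leaf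 [10,11,12]) (.node 18 19 (.leaf [18,20,22,21]) (.leaf [13,14,15,17,19])))) (.leaf [7,9,16])))), .t 6 (nat_lit 0x12cb0a610a5f01d401d3) (.z (.node 2 4 (.edon 0 12 (.node 8 9 (.leaf [0,2,5,8,10]) (.leaf [6,7,11,9])) (.node 18 19 (.leaf [18,20,22,21]) (.free 2 [12,13,14,15,16,17,19]))) (.free 1 [1,3,4]))), .t 15 (nat_lit 0x3e0042d042a03ea03e712ae12ab12a804e704e50e9f0e9d12ba12b4) (.z (.node 0 3 (.node 6 16 (.node 0 10 (.node 0 14 (.node 0 20 (.leaf [0,21,22]) (.leaf [15,17,19,20,18])) (.leaf [11,14,13,12])) (.leaf [4,6,9,10,5])) (.leaf [7,8,16])) (.free 1 [1,2,3]))), .t 10 (nat_lit 0x11930f110f0f12761275121c121b117e117c) (.z (.node 0 7 (.edon 0 11 (.leaf [0,8,9,10]) (.edon 19 21 (.leaf [19,20,22]) (.node 14 17 (.leaf [13,14,15,18,21]) (.leaf [11,16,17,12])))) (.free 2 [1,2,3,4,5,6,7]))), .t 8 (nat_lit 0x3e303e0125a125712cb0df80df6) (.z (.node 0 3 (.node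 6 16 (.node 0 9 (.edon 0 14 (.leaf [0,10,11,12,13]) (.node 18 19 (.leaf [18,20,22,21]) (.leaf [14,17,19,15]))) (.leaf [4,6,9,5])) (.leaf [7,8,16])) (.free 1 [1,2,3]))), .t 8 (nat_lit 0xa620a610a5f0aea0ae70a6d0a6c) (.z (.edon 0 16 (.node 0 12 (.leaf [0,13,14,15]) (.node 4 9 (.free 2 [1,2,3,4,5,8,10]) (.leaf [6,7,11,12,9]))) (.free 2 [16,17,18,19,20,21,22]))), .t 9 (nat_lit 0xa4b0a4a0a4712cb0a820a7f0a5d0a5c) (.z (.node 2 4 (.edon 0 12 (.node 5 10 (.leaf [0,2,5,11]) (.leaf [6,7,9,10,8])) (.node 18 19 (.leaf [18,20,22,21]) (.free 2 [12,13,14,15,16,17,19]))) (.free 1 [1,3,4]))), .t 1 (nat_lit 0) (.cn 2 3), .t 6 (nat_lit 0x110e510e3121c121b) (.z (.edon 21 19 (.node 0 11 (.node 13 17 (.leaf [0,13,15,18,21]) (.leaf [12,16,17,14])) (.edon 4 5 (.free 2 [4,6,7,8,9,10,11]) (.leaf [1,3,5,2]))) (.free 1 [19,20,22]))), .t 7 (nat_lit 0x2b03e3032c032a02fa02f0) (.z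 (.edon 0 16 (.node 0 12 (.leaf [0,13,14,15]) (.edon 3 11 (.edon 7 9 (.leaf [7,8,12]) (.leaf [3,4,6,9,5])) (.leaf [1,11,10,2]))) (.free 2 [16,17,18,19,20,21,22]))), .t 10 (nat_lit 0x123b12451128112610e510e310c310c10005) (.z (.node 20 0 (.edon 0 12 (.edon 4 10 (.free 2 [4,5,6,7,8,9,11]) (.leaf [1,3,10,2])) (.edon 14 19 (.leaf [12,16,17,15,14]) (.leaf [13,19,20,18]))) (.free 1 [0,21,22]))), .t 4 (nat_lit 0x110081006) (.z (.edon 0 16 (.node 0 11 (.leaf [0,12,13,14,15]) (.edon 4 5 (.free 2 [4,6,7,8,9,10,11]) (.leaf [1,3,5,2]))) (.free 2 [16,17,18,19,20,21,22]))), .t 10 (nat_lit 0x17700350005000112ba129a127912731272) (.z (.edon 19 4 (.node 0 10 (.node 0 13 (.node 0 20 (.leaf [0,21,22]) (.leaf [14,19,20,18,15])) (.leaf [11,12,13])) (.leaf [1,3,5,10,2])) (.free 2 [4,6,7,8,9,16,17]))), .t 10 (nat_lit 0xc9a0c9512ba123b121f1219121710e510e3) (.z (.node 0 7 (.node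 0 11 (.node 0 20 (.leaf [0,21,22]) (.edon 14 19 (.leaf [12,16,17,14]) (.leaf [13,19,20,18,15]))) (.leaf [8,9,11,10])) (.free 2 [1,2,3,4,5,6,7]))), .t 6 (nat_lit 0x12cb01fc01fb0a4a0a47) (.z (.node 2 4 (.edon 0 12 (.edon 6 10 (.leaf [6,7,9,8]) (.leaf [0,2,5,10,11])) (.node 18 19 (.leaf [18,20,22,21]) (.free 2 [12,13,14,15,16,17,19]))) (.free 1 [1,3,4]))), .t 10 (nat_lit 0x1fe0a4a0a47099f099d02ae02ac01fc01fb) (.z (.edon 0 16 (.node 0 12 (.leaf [0,13,14,15]) (.node 4 8 (.node 2 4 (.leaf [2,5,10,11,12]) (.leaf [1,3,4])) (.leaf [6,7,9,8]))) (.free 2 [16,17,18,19,20,21,22]))), .t 9 (nat_lit 0x12cb0a4a0a470450044e0356035402f2) (.z (.edon 0 3 (.free 1 [0,1,2]) (.edon 0 12 (.node 4 8 (.leaf [3,4,11,10,5]) (.leaf [6,7,9,8])) (.node 18 19 (.leaf [18,20,22,21]) (.free 2 [12,13,14,15,16,17,19]))))), .t 11 (nat_lit 0x11821177117203dd03da12cb120111fe11b411b2) (.z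 (.node 0 3 (.node 6 16 (.node 0 8 (.edon 0 13 (.leaf [0,10,11,12]) (.edon 15 20 (.leaf [13,14,17,19,15]) (.leaf [18,20,22,21]))) (.leaf [4,6,8,5])) (.leaf [7,9,16])) (.free 1 [1,2,3]))), .t 9 (nat_lit 0x12cb0a610a5f0411040f033f033e02ef) (.z (.edon 0 3 (.free 1 [0,1,2]) (.edon 0 12 (.node 4 9 (.leaf [3,4,10,8,5]) (.leaf [6,7,11,9])) (.node 18 19 (.leaf [18,20,22,21]) (.free 2 [12,13,14,15,16,17,19]))))), .t 12 (nat_lit 0x12571253125103dd03da128a1285126d126b0df80df6) (.z (.node 0 3 (.node 6 16 (.node 0 8 (.edon 0 14 (.leaf [0,10,11,12,13]) (.edon 0 20 (.leaf [14,17,19,18,15]) (.leaf [20,21,22]))) (.leaf [4,6,8,5])) (.leaf [7,9,16])) (.free 1 [1,2,3]))), .t 10 (nat_lit 0xc9a0c95123b116310ae10a610a412451243) (.z (.node 0 7 (.node 0 11 (.node 0 20 (.leaf [0,21,22]) (.edon 15 19 (.leaf [14,16,17,15]) (.leaf [12,19,20,18,13]))) (.leaf [8,9,11,10])) (.free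 2 [1,2,3,4,5,6,7]))), .t 11 (nat_lit 0x11fe11f911f7000104bc04b7122e122b12121210) (.z (.edon 0 20 (.node 6 16 (.node 0 9 (.edon 0 13 (.leaf [0,10,11,12]) (.leaf [13,17,19,18,15])) (.edon 4 5 (.leaf [4,6,9,8]) (.leaf [1,3,5,2]))) (.leaf [7,14,16])) (.free 1 [20,21,22]))), .t 1 (nat_lit 0) (.cn 2 2), .t 15 (nat_lit 0x11fe11f911f7122e122b121212100d890d8703dd0326032502f902ef) (.z (.edon 0 3 (.free 1 [0,1,2]) (.node 6 16 (.edon 0 9 (.leaf [3,4,6,8,5]) (.edon 0 13 (.leaf [9,12,11,10]) (.edon 0 20 (.leaf [13,17,19,18,15]) (.leaf [20,21,22])))) (.leaf [7,14,16])))), .t 14 (nat_lit 0x4bf04bc04b712ae12ab12a805a605a304e704e5000112ba12b4) (.z (.node 6 16 (.node 0 10 (.node 0 13 (.node 0 20 (.leaf [0,21,22]) (.leaf [15,17,19,20,18])) (.leaf [11,12,13])) (.node 3 8 (.leaf [1,3,5,2]) (.leaf [4,6,9,10,8]))) (.free 1 [7,14,16]))), .t 1 (nat_lit 0) (.fa 3)] (by decide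 +kernel) (by decide +kernel)
theorem b209 : B 6688 6720 := Blk.of_chk [.t 15 (nat_lit 0x3da0408040503e303e012571253125104bb04b9128a1285126d126b) (.z (.node 0 3 (.node 6 16 (.node 0 9 (.edon 0 14 (.leaf [0,10,11,12]) (.edon 0 20 (.leaf [14,17,19,18,15]) (.leaf [20,21,22]))) (.leaf [4,6,8,9,5])) (.leaf [7,13,16])) (.free 1 [1,2,3]))), .t 1 (nat_lit 0) (.cn 2 3), .t 8 (nat_lit 0x3dd03da125a125712cb0df80df6) (.z (.node 0 3 (.node 6 16 (.node 0 8 (.edon 0 14 (.leaf [0,10,11,12,13]) (.node 18 19 (.leaf [18,20,22,21]) (.leaf [14,17,19,15]))) (.leaf [4,6,8,5])) (.leaf [7,9,16])) (.free 1 [1,2,3]))), .t 5 (nat_lit 0x177003500050001) (.z (.edon 0 16 (.node 0 12 (.leaf [0,13,14,15]) (.edon 4 10 (.free 2 [4,6,7,8,9,11,12]) (.leaf [1,3,5,10,2]))) (.free 2 [16,17,18,19,20,21,22]))), .t 7 (nat_lit 0x1770035000500010cbb0cb9) (.z (.edon 0 16 (.node 0 12 (.leaf [0,13,14,15])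 (.edon 8 10 (.leaf [8,12,11,9]) (.edon 4 5 (.leaf [4,6,7]) (.leaf [1,3,5,10,2])))) (.free 2 [16,17,18,19,20,21,22]))), .t 12 (nat_lit 0x12ae12ab12a801770035000500010e9f0e9d12ba12b4) (.z (.node 6 16 (.node 0 10 (.node 0 14 (.node 0 20 (.leaf [0,21,22]) (.leaf [15,17,19,20,18])) (.leaf [11,14,13,12])) (.edon 4 5 (.leaf [4,6,9]) (.leaf [1,3,5,10,2]))) (.free 1 [7,8,16]))), .t 8 (nat_lit 0x88d0a490a4808c808c7088a0889) (.z (.edon 0 16 (.node 0 12 (.leaf [0,13,14,15]) (.node 4 9 (.free 2 [1,2,3,4,10,11,12]) (.leaf [5,6,7,8,9]))) (.free 2 [16,17,18,19,20,21,22]))), .t 12 (nat_lit 0x12ae12ab12a803dd03da018300430005000412ba12b4) (.z (.node 6 16 (.node 0 10 (.node 0 13 (.node 0 20 (.leaf [0,21,22]) (.leaf [15,17,19,20,18])) (.leaf [11,12,13])) (.node 3 5 (.leaf [1,3,9,10,2]) (.leaf [4,6,8,5]))) (.free 1 [7,14,16]))), .t 14 (nat_lit 0x3da0408040503e303e012ae12ab12a804bb04b9000512ba12b4)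 (.z (.node 6 16 (.node 0 10 (.node 0 13 (.node 0 20 (.leaf [0,21,22]) (.leaf [15,17,19,20,18])) (.leaf [11,12,13])) (.node 3 5 (.leaf [1,3,10,2]) (.leaf [4,6,8,9,5]))) (.free 1 [7,14,16]))), .t 14 (nat_lit 0x4c312ae12ab12a80a820a8005a605a404bb04b9000112ba12b4) (.z (.node 6 16 (.node 0 10 (.node 0 13 (.node 0 20 (.leaf [0,21,22]) (.leaf [15,17,19,20,18])) (.leaf [11,12,13])) (.node 3 10 (.leaf [1,3,5,2]) (.leaf [4,6,8,9,10]))) (.free 1 [7,14,16]))), .t 10 (nat_lit 0x1fe0a4a0a47099f099d02ae02ac01fc01fb) (.z (.edon 0 16 (.node 0 12 (.leaf [0,13,14,15]) (.node 2 4 (.node 5 9 (.leaf [2,5,10,11,12]) (.leaf [6,7,9,8])) (.leaf [1,3,4]))) (.free 2 [16,17,18,19,20,21,22]))), .t 10 (nat_lit 0xa5f0a6e0a6b0a630a6201d401d30aeb0ae9) (.z (.edon 0 16 (.node 0 12 (.leaf [0,13,14,15]) (.node 2 4 (.edon 6 8 (.leaf [6,7,12,11,9]) (.leaf [2,5,8,10])) (.leaf [1,3,4])))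 (.free 2 [16,17,18,19,20,21,22]))), .t 14 (nat_lit 0x1058104d1048113711341088108612cb03dd0326032502f902ef) (.z (.edon 0 3 (.free 1 [0,1,2]) (.node 6 16 (.edon 0 9 (.leaf [3,4,6,8,5]) (.edon 0 12 (.leaf [9,10,11]) (.node 18 19 (.leaf [18,20,22,21]) (.leaf [12,13,17,19,15])))) (.leaf [7,14,16])))), .t 10 (nat_lit 0x12ae12ab12a80c9a0c951010100d12ba12b4) (.z (.node 0 7 (.node 0 11 (.node 0 20 (.leaf [0,21,22]) (.node 15 16 (.leaf [15,17,19,20,18]) (.leaf [12,14,16,13]))) (.leaf [8,9,11,10])) (.free 2 [1,2,3,4,5,6,7]))), .t 9 (nat_lit 0xa470a610a5f0a520a4f12cb0a8b0a89) (.z (.node 2 4 (.edon 0 12 (.node 5 8 (.leaf [0,2,5,10]) (.leaf [6,7,11,9,8])) (.node 18 19 (.leaf [18,20,22,21]) (.free 2 [12,13,14,15,16,17,19]))) (.free 1 [1,3,4]))), .t 9 (nat_lit 0x123b116310ae10a610a4124512430001) (.z (.node 20 0 (.edon 0 12 (.edon 4 5 (.free 2 [4,6,7,8,9,10,11])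 (.leaf [1,3,5,2])) (.edon 14 19 (.leaf [14,16,17,15]) (.leaf [12,19,20,18,13]))) (.free 1 [0,21,22]))), .t 10 (nat_lit 0xa4b0a4a0a47100810050a820a7f0a5d0a5c) (.z (.edon 0 16 (.edon 0 12 (.node 4 8 (.free 2 [0,1,2,3,4,5,11]) (.leaf [6,7,9,10,8])) (.leaf [12,14,15,13])) (.free 2 [16,17,18,19,20,21,22]))), .t 5 (nat_lit 0x12cb100310021001) (.z (.node 0 7 (.edon 0 11 (.leaf [0,8,9,10]) (.node 11 19 (.leaf [11,18,20,22,21]) (.free 2 [12,13,14,15,16,17,19]))) (.free 2 [1,2,3,4,5,6,7]))), .t 10 (nat_lit 0xef7111c111b0fda0fd90ee70ee511eb11e9) (.z (.node 0 7 (.edon 0 11 (.leaf [0,8,9,10]) (.edon 19 21 (.leaf [19,20,22]) (.edon 13 18 (.leaf [13,16,17,15]) (.leaf [11,12,14,18,21])))) (.free 2 [1,2,3,4,5,6,7]))), .t 9 (nat_lit 0x129a1163111f1118111611eb11e90001) (.z (.node 20 0 (.edon 0 12 (.edon 4 5 (.free 2 [4,6,7,8,9,10,11]) (.leaf [1,3,5,2])) (.edon 13 19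 (.leaf [13,16,17,15]) (.leaf [12,19,20,18,14]))) (.free 1 [0,21,22]))), .t 5 (nat_lit 0xcc80cc60e3b0e39) (.z (.node 0 7 (.node 12 16 (.edon 0 15 (.leaf [0,10,12,13,14]) (.free 2 [15,17,18,19,20,21,22])) (.leaf [8,16,11,9])) (.free 2 [1,2,3,4,5,6,7]))), .t 12 (nat_lit 0x349034701e401e301760091008f0034000500040001) (.z (.edon 4 19 (.free 2 [4,6,7,8,15,16,17]) (.node 10 0 (.leaf [1,3,5,9,10,2]) (.free 3 [0,11,12,13,14,18,19,20,21,22])))), .t 1 (nat_lit 0) (.cn 2 3), .t 6 (nat_lit 0x17700350005000112cb) (.z (.node 4 19 (.node 0 10 (.edon 0 18 (.leaf [0,11,12,14]) (.leaf [18,20,22,21])) (.edon 4 5 (.leaf [4,8,9]) (.leaf [1,3,5,10,2]))) (.free 2 [6,7,13,15,16,17,19]))), .t 1 (nat_lit 0) (.cn 2 3), .t 9 (nat_lit 0x11131110110b1163111f11eb11e90005) (.z (.node 20 0 (.edon 0 12 (.edon 4 10 (.free 2 [4,5,6,7,8,9,11]) (.leaf [1,3,10,2])) (.edon 13 19 (.leaf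 [13,16,17,15]) (.leaf [12,14,19,20,18]))) (.free 1 [0,21,22]))), .t 6 (nat_lit 0x511eb11e9111c111b) (.z (.edon 21 19 (.node 0 11 (.node 12 17 (.leaf [0,12,14,18,21]) (.leaf [13,16,17,15])) (.edon 4 10 (.free 2 [4,5,6,7,8,9,11]) (.leaf [1,3,10,2]))) (.free 1 [19,20,22]))), .t 9 (nat_lit 0x129a1163111f1118111611eb11e90005) (.z (.node 20 0 (.edon 0 12 (.edon 4 10 (.free 2 [4,5,6,7,8,9,11]) (.leaf [1,3,10,2])) (.edon 13 19 (.leaf [13,16,17,15]) (.leaf [12,19,20,18,14]))) (.free 1 [0,21,22]))), .t 10 (nat_lit 0xeae0eac12ab128a1285126d1268125a1258) (.z (.node 0 7 (.edon 0 11 (.leaf [0,8,9,10]) (.node 15 16 (.edon 0 20 (.leaf [14,15,17,19,18]) (.leaf [20,21,22])) (.leaf [11,16,13,12]))) (.free 2 [1,2,3,4,5,6,7]))), .t 13 (nat_lit 0x117311b411b1118611830177003500050001120111ff12cb) (.z (.node 6 16 (.node 0 10 (.edon 0 13 (.leaf [0,11,12]) (.node 18 19 (.leaf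 [18,20,22,21]) (.leaf [13,15,17,19,14]))) (.edon 4 5 (.leaf [4,6,9]) (.leaf [1,3,5,10,2]))) (.free 1 [7,8,16]))), .t 6 (nat_lit 0x111eb11e9111c111b) (.z (.edon 21 19 (.node 0 11 (.node 12 17 (.leaf [0,12,14,18,21]) (.leaf [13,16,17,15])) (.edon 4 5 (.free 2 [4,6,7,8,9,10,11]) (.leaf [1,3,5,2]))) (.free 1 [19,20,22]))), .t 9 (nat_lit 0x129a1163111f1118111611eb11e90001) (.z (.node 20 0 (.edon 0 12 (.edon 4 5 (.free 2 [4,6,7,8,9,10,11]) (.leaf [1,3,5,2])) (.edon 15 19 (.leaf [13,16,17,15]) (.leaf [12,19,20,18,14]))) (.free 1 [0,21,22])))] (by decide +kernel) (by decide +kernel)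
theorem b210 : B 6720 6752 := Blk.of_chk [.t 14 (nat_lit 0x10bf10f810f510d210cf1137113512cb03dd0326032502f902ef) (.z (.edon 0 3 (.free 1 [0,1,2]) (.node 6 16 (.edon 0 9 (.leaf [3,4,6,8,5]) (.edon 0 12 (.leaf [9,10,11]) (.node 18 19 (.leaf [18,20,22,21]) (.leaf [12,15,17,19,14])))) (.leaf [7,13,16])))), .t 9 (nat_lit 0x111100fd60fd20f2d0f280eed0eeb) (.z (.edon 0 20 (.edon 4 19 (.free 2 [4,6,7,13,15,16,17]) (.node 0 5 (.edon 0 11 (.leaf [0,8,9,10]) (.leaf [11,12,14,19,18])) (.leaf [1,3,5,2]))) (.free 1 [20,21,22]))), .t 12 (nat_lit 0x3dd03da12ab128a1285126d1268125a12580df80df6) (.z (.node 0 3 (.node 6 16 (.node 0 8 (.edon 0 14 (.leaf [0,10,11,12,13]) (.edon 0 20 (.leaf [14,15,17,19,18]) (.leaf [20,21,22]))) (.leaf [4,6,8,5])) (.leaf [7,9,16])) (.free 1 [1,2,3]))), .t 8 (nat_lit 0x12450fe20fe00fc10fbf0fae0fac) (.z (.node 0 7 (.edon 0 11 (.leaf [0,8,9,10])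 (.edon 11 19 (.leaf [11,16,17,15,14]) (.free 2 [12,13,18,19,20,21,22]))) (.free 2 [1,2,3,4,5,6,7]))), .t 7 (nat_lit 0xc9a0c9510ab10aa12451243) (.z (.node 0 7 (.node 0 11 (.edon 14 19 (.leaf [14,16,17,15]) (.edon 19 21 (.leaf [19,20,22]) (.leaf [0,12,13,18,21]))) (.leaf [8,9,11,10])) (.free 2 [1,2,3,4,5,6,7]))), .t 1 (nat_lit 0) (.cn 2 3), .t 8 (nat_lit 0x124511eb11e9119d119b11771175) (.z (.node 0 7 (.edon 0 11 (.leaf [0,8,9,10]) (.edon 14 19 (.leaf [13,16,17,15,14]) (.free 2 [11,12,18,19,20,21,22]))) (.free 2 [1,2,3,4,5,6,7]))), .t 14 (nat_lit 0x12ab128a1285126d1268125a1258116903dd0326032502f902ef) (.z (.edon 0 3 (.free 1 [0,1,2]) (.node 6 16 (.edon 0 9 (.leaf [3,4,6,8,5]) (.edon 0 12 (.leaf [9,10,11]) (.node 12 19 (.leaf [12,20,22,21]) (.leaf [14,15,17,19,18])))) (.leaf [7,13,16])))), .t 6 (nat_lit 0x11690a4a0a47044f044d) (.z (.node 0 3 (.edon 0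 12 (.node 4 8 (.leaf [0,4,5,10,11]) (.leaf [6,7,9,8])) (.node 12 19 (.leaf [12,20,22,21]) (.free 2 [13,14,15,16,17,18,19]))) (.free 1 [1,2,3]))), .t 13 (nat_lit 0xd900df90df70db50db30d890d8703dd0326032502f902ef) (.z (.edon 0 3 (.free 1 [0,1,2]) (.node 6 16 (.edon 0 9 (.leaf [3,4,6,8,5]) (.edon 0 15 (.leaf [9,13,12,11,10]) (.free 2 [15,17,18,19,20,21,22]))) (.leaf [7,14,16])))), .t 6 (nat_lit 0x11690a610a5f01d401d3) (.z (.node 2 4 (.edon 0 12 (.node 8 9 (.leaf [0,2,5,8,10]) (.leaf [6,7,11,9])) (.node 12 19 (.leaf [12,20,22,21]) (.free 2 [13,14,15,16,17,18,19]))) (.free 1 [1,3,4]))), .t 8 (nat_lit 0x1172116f116a11eb11e9119d119c) (.z (.node 0 7 (.edon 0 11 (.leaf [0,8,9,10]) (.edon 15 19 (.leaf [13,14,16,17,15]) (.free 2 [11,12,18,19,20,21,22]))) (.free 2 [1,2,3,4,5,6,7]))), .t 10 (nat_lit 0x1fe099f099d02ae02ac01fc01fb0a4a0a47) (.z (.edon 0 16 (.node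 0 12 (.leaf [0,13,14,15]) (.node 2 4 (.edon 8 10 (.leaf [6,7,9,8]) (.leaf [2,5,10,11,12])) (.leaf [1,3,4]))) (.free 2 [16,17,18,19,20,21,22]))), .t 9 (nat_lit 0x116903dd0326032502f902ef0bde0bdc) (.z (.edon 0 3 (.free 1 [0,1,2]) (.edon 0 12 (.edon 7 8 (.leaf [7,11,10,9]) (.leaf [3,4,6,8,5])) (.node 12 19 (.leaf [12,20,22,21]) (.free 2 [13,14,15,16,17,18,19]))))), .t 13 (nat_lit 0xdff0e9f0e9d0e3c0e3a0df90df703dd0326032502f902ef) (.z (.edon 0 3 (.free 1 [0,1,2]) (.node 6 16 (.edon 0 10 (.leaf [3,4,6,8,5]) (.edon 0 15 (.leaf [10,14,13,12,11]) (.free 2 [15,17,18,19,20,21,22]))) (.leaf [7,9,16])))), .t 8 (nat_lit 0x12450fe20fe00fc10fbf0fae0fac) (.z (.node 0 7 (.edon 0 11 (.leaf [0,8,9,10]) (.edon 11 18 (.leaf [11,16,17,15,14]) (.free 2 [12,13,18,19,20,21,22]))) (.free 2 [1,2,3,4,5,6,7]))), .t 8 (nat_lit 0x12450fe20fe00fc10fbf0fae0fac) (.z (.node 0 7 (.edon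 0 11 (.leaf [0,8,9,10]) (.edon 15 19 (.leaf [11,16,17,15,14]) (.free 2 [12,13,18,19,20,21,22]))) (.free 2 [1,2,3,4,5,6,7]))), .t 8 (nat_lit 0xfaa0fa90fa50fe20fe00fc10fc0) (.z (.node 0 7 (.edon 0 11 (.leaf [0,8,9,10]) (.edon 15 19 (.leaf [11,14,16,17,15]) (.free 2 [12,13,18,19,20,21,22]))) (.free 2 [1,2,3,4,5,6,7]))), .t 10 (nat_lit 0x10a3109e109b0c9a0c95116310ae12451243) (.z (.node 0 7 (.node 0 11 (.node 0 20 (.leaf [0,21,22]) (.edon 14 19 (.leaf [14,16,17,15]) (.leaf [12,18,19,20,13]))) (.leaf [8,9,11,10])) (.free 2 [1,2,3,4,5,6,7]))), .t 1 (nat_lit 0) (.cn 2 2), .t 7 (nat_lit 0x100810050a520a4f01e401e3) (.z (.edon 0 16 (.edon 0 12 (.node 4 8 (.node 2 4 (.leaf [0,2,5,9,10]) (.leaf [1,3,4])) (.leaf [6,7,11,8])) (.leaf [12,14,15,13])) (.free 2 [16,17,18,19,20,21,22]))), .t 7 (nat_lit 0xed40ed112cb12421240123f) (.z (.node 0 7 (.edon 0 11 (.leaf [0,8,9,10])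 (.node 14 19 (.node 13 15 (.leaf [13,18,20,22,21]) (.leaf [11,14,15,12])) (.leaf [16,17,19]))) (.free 2 [1,2,3,4,5,6,7]))), .t 7 (nat_lit 0xed40ed112cb12421240123f) (.z (.node 0 7 (.edon 0 11 (.leaf [0,8,9,10]) (.node 11 19 (.node 13 15 (.leaf [13,18,20,22,21]) (.leaf [11,14,15,12])) (.leaf [16,17,19]))) (.free 2 [1,2,3,4,5,6,7]))), .t 5 (nat_lit 0x12cb12421240123f) (.z (.node 0 7 (.edon 0 11 (.leaf [0,8,9,10]) (.node 18 19 (.leaf [13,18,20,22,21]) (.free 2 [11,12,14,15,16,17,19]))) (.free 2 [1,2,3,4,5,6,7]))), .t 12 (nat_lit 0x125a125712cb12421240123f03e3032c032a02fa02f0) (.z (.edon 0 3 (.free 1 [0,1,2]) (.node 6 16 (.edon 0 10 (.leaf [3,4,6,9,5]) (.edon 0 13 (.leaf [10,11,12]) (.node 18 19 (.leaf [13,18,20,22,21]) (.leaf [14,17,19,15])))) (.leaf [7,8,16])))), .t 8 (nat_lit 0x183004300050004125a125712cb) (.z (.node 6 16 (.node 0 10 (.edon 0 14 (.leaf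 [0,11,12,13]) (.node 18 19 (.leaf [18,20,22,21]) (.leaf [14,17,19,15]))) (.node 3 5 (.leaf [1,3,9,10,2]) (.leaf [4,5,6]))) (.free 1 [7,8,16]))), .t 1 (nat_lit 0) (.cn 2 3), .t 7 (nat_lit 0x12cb12421240123f01e401e3) (.z (.node 4 19 (.edon 0 11 (.node 2 4 (.leaf [0,2,5,9,10]) (.leaf [1,3,4])) (.edon 11 18 (.leaf [11,12,14]) (.leaf [13,18,20,22,21]))) (.free 2 [6,7,8,15,16,17,19]))), .t 8 (nat_lit 0x12451128112610e510e310c310c1) (.z (.node 0 7 (.edon 0 11 (.leaf [0,8,9,10]) (.edon 12 19 (.leaf [12,16,17,15,14]) (.free 2 [11,13,18,19,20,21,22]))) (.free 2 [1,2,3,4,5,6,7]))), .t 9 (nat_lit 0xed10f040f020ee70ee40fb30fb11242) (.z (.node 0 7 (.edon 0 11 (.leaf [0,8,9,10]) (.node 13 19 (.leaf [13,20,22,21]) (.edon 16 18 (.leaf [16,17,19]) (.leaf [11,14,15,18,12])))) (.free 2 [1,2,3,4,5,6,7]))), .t 1 (nat_lit 0) (.cn 1 3), .t 5 (nat_lit 0x177003500050001)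 (.z (.edon 0 16 (.node 0 12 (.leaf [0,13,14,15]) (.edon 4 5 (.free 2 [4,6,7,8,9,11,12]) (.leaf [1,3,5,10,2]))) (.free 2 [16,17,18,19,20,21,22])))] (by decide +kernel) (by decide +kernel)
theorem b211 : B 6752 6784 := Blk.of_chk [.t 9 (nat_lit 0x88d12420a490a4808c808c7088a0889) (.z (.node 2 4 (.edon 0 12 (.node 2 9 (.leaf [0,2,10,11]) (.leaf [5,6,7,8,9])) (.node 13 19 (.leaf [13,20,22,21]) (.free 2 [12,14,15,16,17,18,19]))) (.free 1 [1,3,4]))), .t 8 (nat_lit 0x12451128112610e510e310c310c1) (.z (.node 0 7 (.edon 0 11 (.leaf [0,8,9,10]) (.edon 14 19 (.leaf [12,16,17,15,14]) (.free 2 [11,13,18,19,20,21,22]))) (.free 2 [1,2,3,4,5,6,7]))), .t 5 (nat_lit 0x178003600060001) (.z (.edon 0 16 (.node 0 12 (.leaf [0,13,14,15]) (.edon 4 5 (.free 2 [4,6,7,8,9,10,12]) (.leaf [1,3,5,11,2]))) (.free 2 [16,17,18,19,20,21,22]))), .t 9 (nat_lit 0xba400050cbb0cb90be60be50ba00b9e)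 (.z (.edon 0 16 (.node 0 12 (.leaf [0,13,14,15]) (.edon 4 10 (.edon 0 7 (.leaf [4,5,6]) (.leaf [7,12,11,9,8])) (.leaf [1,3,10,2]))) (.free 2 [16,17,18,19,20,21,22]))), .t 14 (nat_lit 0x125a120111fe11b411b11187118512cb03dd0326032502f902ef) (.z (.edon 0 3 (.free 1 [0,1,2]) (.node 6 16 (.edon 0 9 (.leaf [3,4,6,8,5]) (.edon 0 13 (.leaf [9,10,11]) (.node 18 19 (.leaf [18,20,22,21]) (.leaf [13,17,19,15,14])))) (.leaf [7,12,16])))), .t 8 (nat_lit 0x12451128112610e510e310c310c1) (.z (.node 0 7 (.edon 0 11 (.leaf [0,8,9,10]) (.edon 15 19 (.leaf [12,16,17,15,14]) (.free 2 [11,13,18,19,20,21,22]))) (.free 2 [1,2,3,4,5,6,7]))), .t 10 (nat_lit 0x1d4090c090a024e024c01d101d00a6e0a6b) (.z (.edon 0 16 (.node 0 12 (.leaf [0,13,14,15]) (.node 2 4 (.edon 6 9 (.leaf [6,7,12,11]) (.leaf [2,5,8,9,10])) (.leaf [1,3,4]))) (.free 2 [16,17,18,19,20,21,22]))), .t 14 (nat_lit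 0x12ab128a1285126d1268125a1258124203dd0326032502f902ef) (.z (.edon 0 3 (.free 1 [0,1,2]) (.node 6 16 (.edon 0 13 (.edon 0 9 (.leaf [3,4,6,8,5]) (.leaf [9,10,12])) (.node 13 19 (.leaf [13,20,22,21]) (.leaf [14,15,17,19,18]))) (.leaf [7,11,16])))), .t 1 (nat_lit 0) (.fa 3), .t 1 (nat_lit 0) (.cn 2 2), .t 7 (nat_lit 0x12cb12421240123f0ed50ed3) (.z (.node 0 7 (.edon 0 11 (.leaf [0,8,9,10]) (.edon 12 16 (.leaf [11,15,14,12]) (.node 18 19 (.leaf [13,18,20,22,21]) (.leaf [16,17,19])))) (.free 2 [1,2,3,4,5,6,7]))), .t 9 (nat_lit 0xa470a610a5f0a520a4f12420a8b0a89) (.z (.node 2 4 (.edon 0 12 (.node 5 8 (.leaf [0,2,5,10]) (.leaf [6,7,11,9,8])) (.node 13 19 (.leaf [13,20,22,21]) (.free 2 [12,14,15,16,17,18,19]))) (.free 1 [1,3,4]))), .t 12 (nat_lit 0x1005104410411010100d10bb10b90177003500050001) (.z (.node 16 0 (.edon 4 15 (.leaf [4,6,7]) (.edon 0 12 (.edon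 8 10 (.leaf [8,9,11]) (.leaf [1,3,5,10,2])) (.leaf [12,14,15,16,13]))) (.free 2 [0,17,18,19,20,21,22]))), .t 9 (nat_lit 0x1005104410411010100d10bb10b90005) (.z (.node 16 0 (.edon 0 12 (.edon 4 10 (.free 2 [4,5,6,7,8,9,11]) (.leaf [1,3,10,2])) (.leaf [12,14,15,16,13])) (.free 2 [0,17,18,19,20,21,22]))), .t 8 (nat_lit 0x890088a088808d108ce08a308a2) (.z (.edon 0 16 (.node 0 12 (.leaf [0,13,14,15]) (.node 4 6 (.free 2 [1,2,3,4,9,10,12]) (.leaf [5,7,11,8,6]))) (.free 2 [16,17,18,19,20,21,22]))), .t 6 (nat_lit 0x124208d108ce04e704e5) (.z (.node 0 3 (.edon 0 12 (.node 4 8 (.leaf [0,4,6,9,10]) (.leaf [5,7,11,8])) (.edon 12 20 (.free 2 [12,14,15,16,17,18,19]) (.leaf [13,20,22,21]))) (.free 1 [1,2,3]))), .t 16 (nat_lit 0x3da0408040503e303e004bb04b912ab128a1285126d1268125a12581242) (.z (.node 0 3 (.node 6 16 (.node 0 9 (.edon 0 13 (.leaf [0,10,11]) (.node 13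 19 (.leaf [13,20,22,21]) (.leaf [14,15,17,19,18]))) (.leaf [4,6,8,9,5])) (.leaf [7,12,16])) (.free 1 [1,2,3]))), .t 7 (nat_lit 0x100910070a610a5f01d401d3) (.z (.edon 0 16 (.edon 0 12 (.node 2 4 (.node 8 9 (.leaf [0,2,5,8,10]) (.leaf [6,7,11,9])) (.leaf [1,3,4])) (.leaf [12,15,14,13])) (.free 2 [16,17,18,19,20,21,22]))), .t 7 (nat_lit 0x17700350005000104bb04b9) (.z (.node 6 16 (.node 0 10 (.edon 0 14 (.leaf [0,11,12,13]) (.free 2 [14,17,18,19,20,21,22])) (.edon 4 5 (.leaf [4,6,8,9]) (.leaf [1,3,5,10,2]))) (.free 1 [7,15,16]))), .t 7 (nat_lit 0x3dd03da0183004300050004) (.z (.node 6 16 (.node 0 10 (.edon 0 14 (.leaf [0,11,12,13]) (.free 2 [14,17,18,19,20,21,22])) (.node 3 5 (.leaf [1,3,9,10,2]) (.leaf [4,6,8,5]))) (.free 1 [7,15,16]))), .t 7 (nat_lit 0x17b0039000400020df80df6) (.z (.node 5 16 (.node 0 9 (.edon 0 14 (.leaf [0,10,11,12,13]) (.free 2 [14,17,18,19,20,21,22]))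 (.node 3 8 (.leaf [1,3,6,9,2]) (.leaf [4,5,8]))) (.free 1 [7,15,16]))), .t 6 (nat_lit 0xec00ebe12cb12451244) (.z (.node 0 7 (.edon 0 11 (.leaf [0,8,9,10]) (.edon 14 19 (.leaf [14,15,16,17]) (.node 18 19 (.leaf [18,20,22,21]) (.leaf [11,19,13,12])))) (.free 2 [1,2,3,4,5,6,7]))), .t 8 (nat_lit 0xfa60fc10fbf0fad0fab0fe20fe1) (.z (.node 0 7 (.edon 0 11 (.leaf [0,8,9,10]) (.edon 14 19 (.leaf [11,15,16,17,14]) (.free 2 [12,13,18,19,20,21,22]))) (.free 2 [1,2,3,4,5,6,7]))), .t 9 (nat_lit 0x4c300010a820a8005a605a404bb04b9) (.z (.node 6 16 (.node 0 10 (.edon 0 14 (.leaf [0,11,12,13]) (.free 2 [14,17,18,19,20,21,22])) (.edon 4 5 (.leaf [4,6,8,9,10]) (.leaf [1,3,5,2]))) (.free 1 [7,15,16]))), .t 8 (nat_lit 0x11761245124411eb11ea116e116c) (.z (.node 0 7 (.edon 0 11 (.leaf [0,8,9,10]) (.edon 13 19 (.leaf [13,14,15,16,17]) (.free 2 [11,12,18,19,20,21,22]))) (.free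 2 [1,2,3,4,5,6,7]))), .t 8 (nat_lit 0x116b119d119b1176117311eb11ea) (.z (.node 0 7 (.edon 0 11 (.leaf [0,8,9,10]) (.edon 14 19 (.leaf [13,15,16,17,14]) (.free 2 [11,12,18,19,20,21,22]))) (.free 2 [1,2,3,4,5,6,7]))), .t 6 (nat_lit 0xeee0eec12cb11eb11ea) (.z (.node 0 7 (.edon 0 11 (.leaf [0,8,9,10]) (.edon 13 19 (.leaf [13,15,16,17]) (.node 18 19 (.leaf [18,20,22,21]) (.leaf [11,19,14,12])))) (.free 2 [1,2,3,4,5,6,7]))), .t 10 (nat_lit 0x1d40a740a73090c090a024e024c01d101d0) (.z (.edon 0 16 (.node 4 13 (.node 0 10 (.leaf [0,11,12,14]) (.node 2 4 (.leaf [2,5,8,9,10]) (.leaf [1,3,4]))) (.leaf [6,7,15,13])) (.free 2 [16,17,18,19,20,21,22]))), .t 1 (nat_lit 0) (.cp 2 3), .t 14 (nat_lit 0x3da0408040503e303e0128d128a128504bb04b90005129a1294) (.z (.node 6 16 (.node 0 10 (.node 0 13 (.node 0 20 (.leaf [0,21,22]) (.leaf [14,17,19,20,18])) (.leaf [11,12,13]))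 (.node 3 5 (.leaf [1,3,10,2]) (.leaf [4,6,8,9,5]))) (.free 1 [7,15,16]))), .t 14 (nat_lit 0x4c3128d128a128500010a820a8005a605a404bb04b9129a1294) (.z (.node 6 16 (.node 0 10 (.node 0 13 (.node 0 20 (.leaf [0,21,22]) (.leaf [14,17,19,20,18])) (.leaf [11,12,13])) (.edon 4 5 (.leaf [4,6,8,9,10]) (.leaf [1,3,5,2]))) (.free 1 [7,15,16]))), .t 9 (nat_lit 0x4c300010a820a8005a605a404bb04b9) (.z (.node 6 16 (.node 0 10 (.edon 0 15 (.leaf [0,11,13,14]) (.free 2 [15,17,18,19,20,21,22])) (.edon 4 5 (.leaf [4,6,8,9,10]) (.leaf [1,3,5,2]))) (.free 1 [7,12,16])))] (by decide +kernel) (by decide +kernel)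
theorem b212 : B 6784 6816 := Blk.of_chk [.t 7 (nat_lit 0x17700350005000104bb04b9) (.z (.node 6 16 (.node 0 10 (.edon 0 15 (.leaf [0,11,13,14]) (.free 2 [15,17,18,19,20,21,22])) (.edon 4 5 (.leaf [4,6,8,9]) (.leaf [1,3,5,10,2]))) (.free 1 [7,12,16]))), .t 9 (nat_lit 0x1d4090c090a024e024c01d101d012cb) (.z (.node 4 19 (.node 0 10 (.edon 0 18 (.leaf [0,11,13,14]) (.leaf [18,20,22,21])) (.node 2 4 (.leaf [2,5,8,9,10]) (.leaf [1,3,4]))) (.free 2 [6,7,12,15,16,17,19]))), .t 7 (nat_lit 0x3dd03da0183004300050004) (.z (.node 6 16 (.node 0 10 (.edon 0 15 (.leaf [0,11,13,14]) (.free 2 [15,17,18,19,20,21,22])) (.node 3 5 (.leaf [1,3,9,10,2]) (.leaf [4,6,8,5]))) (.free 1 [7,12,16]))), .t 12 (nat_lit 0x349034701e401e301760091008f0034000500040001) (.z (.edon 4 19 (.free 2 [4,6,7,8,12,16,18]) (.node 10 0 (.leaf [1,3,5,9,10,2]) (.free 3 [0,11,13,14,15,17,19,20,21,22])))),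 .t 1 (nat_lit 0) (.cp 1 3), .t 10 (nat_lit 0x100910070ba00a8b0a860a610a5f0a510a50) (.z (.edon 0 16 (.edon 0 12 (.node 4 9 (.free 2 [0,1,2,3,4,5,10]) (.leaf [6,7,8,11,9])) (.leaf [12,15,14,13])) (.free 2 [16,17,18,19,20,21,22]))), .t 8 (nat_lit 0x88d0a490a4808c808c7088a0889) (.z (.node 2 4 (.node 2 9 (.free 4 [0,2,10,11,12,13,14,15,16,17,18,19,20,21,22]) (.leaf [5,6,7,8,9])) (.free 1 [1,3,4]))), .t 9 (nat_lit 0x3e303e012c912a0129912980df80df6) (.z (.node 0 3 (.node 6 16 (.node 0 9 (.edon 0 14 (.leaf [0,10,11,12,13]) (.edon 15 20 (.leaf [15,18,19]) (.leaf [14,17,20,22,21]))) (.leaf [4,6,9,5])) (.leaf [7,8,16])) (.free 1 [1,2,3]))), .t 10 (nat_lit 0x128e12891286129a12940177003500050001) (.z (.node 20 0 (.edon 0 13 (.edon 4 5 (.free 2 [4,6,7,8,9,11,12]) (.leaf [1,3,5,10,2])) (.node 14 16 (.leaf [14,18,19,20,17]) (.leaf [13,15,16]))) (.free 1 [0,21,22]))),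 .t 7 (nat_lit 0x12c912a01299129801e401e3) (.z (.node 4 19 (.edon 0 11 (.node 2 4 (.leaf [0,2,5,9,10]) (.leaf [1,3,4])) (.node 14 15 (.leaf [14,17,20,22,21]) (.leaf [11,13,15]))) (.free 2 [6,7,8,12,16,18,19]))), .t 10 (nat_lit 0xf6111c311c10fd00fcf0f4d0f4b112b1129) (.z (.node 0 7 (.edon 0 11 (.leaf [0,8,9,10]) (.edon 15 19 (.leaf [12,16,18,15]) (.edon 19 21 (.leaf [19,20,22]) (.leaf [11,13,14,17,21])))) (.free 2 [1,2,3,4,5,6,7]))), .t 10 (nat_lit 0x3e0042d042a03ea03e704e704e50e9e0e9c) (.z (.node 0 3 (.node 6 16 (.node 0 10 (.edon 0 15 (.leaf [0,11,12,13,14]) (.free 2 [15,17,18,19,20,21,22])) (.leaf [4,6,9,10,5])) (.leaf [7,8,16])) (.free 1 [1,2,3]))), .t 15 (nat_lit 0x3e0042d042a03ea03e712561254125004e704e512891286126c126a) (.z (.node 0 3 (.node 6 16 (.node 0 10 (.edon 0 14 (.leaf [0,11,12,13]) (.edon 0 20 (.leaf [14,15,18,19,17]) (.leaf [20,21,22])))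 (.leaf [4,6,9,10,5])) (.leaf [7,8,16])) (.free 1 [1,2,3]))), .t 8 (nat_lit 0xe9a0edb0ed70eae0eaa0f480f46) (.z (.node 0 7 (.edon 0 11 (.leaf [0,8,9,10]) (.node 15 16 (.free 2 [15,17,18,19,20,21,22]) (.leaf [11,12,16,14,13]))) (.free 2 [1,2,3,4,5,6,7]))), .t 6 (nat_lit 0x110e910e7120b1209) (.z (.edon 21 19 (.node 0 11 (.node 13 18 (.leaf [0,13,15,17,21]) (.leaf [12,16,18,14])) (.edon 4 5 (.free 2 [4,6,7,8,9,10,11]) (.leaf [1,3,5,2]))) (.free 1 [19,20,22]))), .t 6 (nat_lit 0x110e910e7120b1209) (.z (.edon 21 19 (.node 0 11 (.node 15 18 (.leaf [0,13,15,17,21]) (.leaf [12,16,18,14])) (.edon 4 5 (.free 2 [4,6,7,8,9,10,11]) (.leaf [1,3,5,2]))) (.free 1 [19,20,22]))), .t 9 (nat_lit 0x12b41234121f1207120610e910e70001) (.z (.node 20 0 (.edon 0 12 (.edon 4 5 (.free 2 [4,6,7,8,9,10,11]) (.leaf [1,3,5,2])) (.edon 14 19 (.leaf [12,16,18,14]) (.leaf [13,19,20,17,15])))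 (.free 1 [0,21,22]))), .t 6 (nat_lit 0x1112b112911c311c1) (.z (.edon 21 19 (.node 0 11 (.node 14 18 (.leaf [0,13,14,17,21]) (.leaf [12,16,18,15])) (.edon 4 5 (.free 2 [4,6,7,8,9,10,11]) (.leaf [1,3,5,2]))) (.free 1 [19,20,22]))), .t 6 (nat_lit 0x12c90a610a5f01d401d3) (.z (.node 2 4 (.edon 0 12 (.node 8 9 (.leaf [0,2,5,8,10]) (.leaf [6,7,11,9])) (.node 17 19 (.leaf [17,20,22,21]) (.free 2 [12,13,14,15,16,18,19]))) (.free 1 [1,3,4]))), .t 7 (nat_lit 0x177003500050001120b1209) (.z (.edon 19 4 (.node 0 12 (.edon 19 21 (.leaf [19,20,22]) (.leaf [0,13,15,17,21])) (.node 5 12 (.leaf [1,3,5,10,2]) (.leaf [9,11,12]))) (.free 2 [4,6,7,8,14,16,18]))), .t 10 (nat_lit 0x17700350005000112b41234121f12071206) (.z (.edon 19 4 (.node 0 12 (.node 0 20 (.leaf [0,21,22]) (.leaf [13,19,20,17,15])) (.node 5 12 (.leaf [1,3,5,10,2]) (.leaf [9,11,12]))) (.free 2 [4,6,7,8,14,16,18]))),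 .t 8 (nat_lit 0xbe20d890d870bf80bf60bde0bdc) (.z (.edon 0 16 (.node 0 12 (.leaf [0,13,14,15]) (.edon 7 8 (.leaf [7,12,11,10,9]) (.free 2 [1,2,3,4,5,6,8]))) (.free 2 [16,17,18,19,20,21,22]))), .t 12 (nat_lit 0x349034701e401e301760091008f0034000500040001) (.z (.edon 4 19 (.free 2 [4,6,7,8,14,16,18]) (.node 10 0 (.leaf [1,3,5,9,10,2]) (.free 3 [0,11,12,13,15,17,19,20,21,22])))), .t 1 (nat_lit 0) (.cn 2 3), .t 9 (nat_lit 0x12c90a490a480450044e0356035402f2) (.z (.edon 0 3 (.free 1 [0,1,2]) (.edon 0 12 (.node 4 9 (.leaf [3,4,11,10,5]) (.leaf [6,7,8,9])) (.node 17 19 (.leaf [17,20,22,21]) (.free 2 [12,13,14,15,16,18,19]))))), .t 9 (nat_lit 0x88d12c90a490a4808c808c7088a0889) (.z (.node 2 4 (.edon 0 12 (.node 2 9 (.leaf [0,2,10,11]) (.leaf [5,6,7,8,9])) (.node 17 19 (.leaf [17,20,22,21]) (.free 2 [12,13,14,15,16,18,19]))) (.free 1 [1,3,4]))), .t 9 (nat_lit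 0x12c903ea0331033002fc02f20ba00b9b) (.z (.edon 0 3 (.free 1 [0,1,2]) (.edon 0 12 (.edon 7 10 (.leaf [7,8,11,9]) (.leaf [3,4,6,10,5])) (.node 17 19 (.leaf [17,20,22,21]) (.free 2 [12,13,14,15,16,18,19]))))), .t 5 (nat_lit 0x179003700070001) (.z (.edon 0 16 (.node 0 12 (.leaf [0,13,14,15]) (.node 5 10 (.leaf [1,3,5,12,2]) (.free 2 [4,6,7,8,9,10,11]))) (.free 2 [16,17,18,19,20,21,22]))), .t 9 (nat_lit 0x11690a490a480450044e0356035402f2) (.z (.edon 0 3 (.free 1 [0,1,2]) (.edon 0 12 (.node 4 9 (.leaf [3,4,11,10,5]) (.leaf [6,7,8,9])) (.node 12 19 (.leaf [12,20,22,21]) (.free 2 [13,14,15,16,17,18,19]))))), .t 9 (nat_lit 0x10d880d8512b41234121f12071206) (.z (.edon 19 4 (.node 0 5 (.node 0 12 (.node 0 20 (.leaf [0,21,22]) (.leaf [13,19,20,17,15])) (.leaf [9,11,12,10])) (.leaf [1,3,5,2])) (.free 2 [4,6,7,8,14,16,18]))), .t 14 (nat_lit 0x4c312af12aa12a90a820a8005a605a404bb04b9000112ba12b4)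 (.z (.node 6 16 (.node 0 10 (.node 0 13 (.node 0 20 (.leaf [0,21,22]) (.leaf [15,18,19,20,17])) (.leaf [11,12,13])) (.node 3 10 (.leaf [1,3,5,2]) (.leaf [4,6,8,9,10]))) (.free 1 [7,14,16]))), .t 9 (nat_lit 0x116903ea0331033002fc02f20ba00b9b) (.z (.edon 0 3 (.free 1 [0,1,2]) (.edon 0 12 (.edon 7 10 (.leaf [7,8,11,9]) (.leaf [3,4,6,10,5])) (.node 12 19 (.leaf [12,20,22,21]) (.free 2 [13,14,15,16,17,18,19])))))] (by decide +kernel) (by decide +kernel)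
theorem b213 : B 6816 6848 := Blk.of_chk [.t 14 (nat_lit 0x3e0042d042a03ea03e704e704e5126c126912c91242123a1239) (.z (.node 0 3 (.node 6 16 (.node 0 10 (.edon 0 13 (.leaf [0,11,12]) (.node 17 19 (.leaf [13,17,20,22,21]) (.leaf [14,18,19,15]))) (.leaf [4,6,9,10,5])) (.leaf [7,8,16])) (.free 1 [1,2,3]))), .t 14 (nat_lit 0x3da0408040503e303e012af12aa12a904bb04b9000512ba12b4) (.z (.node 6 16 (.node 0 10 (.node 0 13 (.node 0 20 (.leaf [0,21,22]) (.leaf [15,18,19,20,17])) (.leaf [11,12,13])) (.node 3 5 (.leaf [1,3,10,2]) (.leaf [4,6,8,9,5]))) (.free 1 [7,14,16]))), .t 1 (nat_lit 0) (.cn 2 3), .t 9 (nat_lit 0x12420a490a480450044e0356035402f2) (.z (.edon 0 3 (.free 1 [0,1,2]) (.edon 0 12 (.node 4 9 (.leaf [3,4,11,10,5]) (.leaf [6,7,8,9])) (.node 13 19 (.leaf [13,20,22,21]) (.free 2 [12,14,15,16,17,18,19]))))), .t 7 (nat_lit 0x17700350005000112651264) (.z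 (.edon 19 4 (.node 0 10 (.node 0 13 (.edon 19 21 (.leaf [19,20,22]) (.leaf [0,14,15,17,21])) (.leaf [11,12,13])) (.leaf [1,3,5,10,2])) (.free 2 [4,6,7,8,9,16,18]))), .t 1 (nat_lit 0) (.cn 2 3), .t 7 (nat_lit 0x12c912a01299129801e401e3) (.z (.node 4 19 (.edon 0 11 (.node 2 4 (.leaf [0,2,5,9,10]) (.leaf [1,3,4])) (.node 14 15 (.leaf [14,17,20,22,21]) (.leaf [11,12,15]))) (.free 2 [6,7,8,13,16,18,19]))), .t 14 (nat_lit 0x4c312af12aa12a900010a820a8005a605a404bb04b912ba12b4) (.z (.node 6 16 (.node 0 10 (.node 0 14 (.node 0 20 (.leaf [0,21,22]) (.leaf [15,18,19,20,17])) (.leaf [11,12,14])) (.edon 4 5 (.leaf [4,6,8,9,10]) (.leaf [1,3,5,2]))) (.free 1 [7,13,16]))), .t 14 (nat_lit 0x117b11ce11cb1186118312c91211120f03dd0326032502f902ef) (.z (.edon 0 3 (.free 1 [0,1,2]) (.node 6 16 (.edon 0 9 (.leaf [3,4,6,8,5]) (.edon 0 13 (.leaf [9,10,12]) (.edon 14 20 (.leaf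 [13,15,18,19,14]) (.leaf [17,20,22,21])))) (.leaf [7,11,16])))), .t 9 (nat_lit 0x125e125b125612941279107710750001) (.z (.node 20 0 (.edon 0 12 (.edon 4 5 (.free 2 [4,6,7,8,9,10,11]) (.leaf [1,3,5,2])) (.edon 13 19 (.leaf [12,16,18,13]) (.leaf [14,15,19,20,17]))) (.free 1 [0,21,22]))), .t 10 (nat_lit 0x1183117611730f140f12120211fd11b511b3) (.z (.node 0 7 (.edon 0 11 (.leaf [0,8,9,10]) (.edon 0 20 (.node 13 18 (.leaf [13,15,19,17,14]) (.leaf [11,16,18,12])) (.leaf [20,21,22]))) (.free 2 [1,2,3,4,5,6,7]))), .t 9 (nat_lit 0x12af12aa12a91011100f12ba12b40001) (.z (.node 20 0 (.edon 0 12 (.edon 4 5 (.free 2 [4,6,7,8,9,10,11]) (.leaf [1,3,5,2])) (.node 15 16 (.leaf [15,18,19,20,17]) (.leaf [12,16,14,13]))) (.free 1 [0,21,22]))), .t 10 (nat_lit 0x1069120b12091140113f104c104a0fc40fc2) (.z (.node 0 7 (.edon 0 11 (.leaf [0,8,9,10]) (.edon 14 19 (.leaf [11,16,18,14])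 (.edon 19 21 (.leaf [19,20,22]) (.leaf [12,13,15,17,21])))) (.free 2 [1,2,3,4,5,6,7]))), .t 14 (nat_lit 0x1182117f117a12c91211120e11ce11cc03dd0326032502f902ef) (.z (.edon 0 3 (.free 1 [0,1,2]) (.node 6 16 (.edon 0 9 (.leaf [3,4,6,8,5]) (.edon 0 13 (.leaf [9,10,12]) (.edon 15 20 (.leaf [13,14,18,19,15]) (.leaf [17,20,22,21])))) (.leaf [7,11,16])))), .t 6 (nat_lit 0x124201e401e30a520a4f) (.z (.node 2 4 (.edon 0 12 (.edon 6 9 (.leaf [6,7,11,8]) (.leaf [0,2,5,9,10])) (.edon 12 20 (.free 2 [12,14,15,16,17,18,19]) (.leaf [13,20,22,21]))) (.free 1 [1,3,4]))), .t 14 (nat_lit 0x1186126c126a1211120f117e117c12c903dd0326032502f902ef) (.z (.edon 0 3 (.free 1 [0,1,2]) (.node 6 16 (.edon 0 9 (.leaf [3,4,6,8,5]) (.edon 0 13 (.leaf [9,10,12]) (.node 17 19 (.leaf [17,20,22,21]) (.leaf [13,14,15,18,19])))) (.leaf [7,11,16])))), .t 8 (nat_lit 0xba00a8b0a860a610a5f0a510a50)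 (.z (.edon 0 16 (.node 0 12 (.leaf [0,13,14,15]) (.node 4 9 (.free 2 [1,2,3,4,5,10,12]) (.leaf [6,7,8,11,9]))) (.free 2 [16,17,18,19,20,21,22]))), .t 12 (nat_lit 0x1d4090c090a024e024c01d101d0120b120910e910e7) (.z (.node 2 4 (.edon 6 16 (.leaf [6,7,11]) (.node 0 10 (.edon 14 19 (.leaf [12,16,18,14]) (.edon 19 21 (.leaf [19,20,22]) (.leaf [0,13,15,17,21]))) (.leaf [2,5,8,9,10]))) (.free 1 [1,3,4]))), .t 10 (nat_lit 0xf140f12125b120211fd11b511b011861184) (.z (.node 0 7 (.edon 0 11 (.leaf [0,8,9,10]) (.edon 0 20 (.node 14 18 (.leaf [13,14,15,19,17]) (.leaf [11,16,18,12])) (.leaf [20,21,22]))) (.free 2 [1,2,3,4,5,6,7]))), .t 8 (nat_lit 0x11ef112b11291077107510551053) (.z (.node 0 7 (.edon 0 11 (.leaf [0,8,9,10]) (.edon 15 19 (.leaf [12,16,18,15,13]) (.free 2 [11,14,17,19,20,21,22]))) (.free 2 [1,2,3,4,5,6,7]))), .t 8 (nat_lit 0x105010451040112b112910771076)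 (.z (.node 0 7 (.edon 0 11 (.leaf [0,8,9,10]) (.edon 15 19 (.leaf [12,13,16,18,15]) (.free 2 [11,14,17,19,20,21,22]))) (.free 2 [1,2,3,4,5,6,7]))), .t 8 (nat_lit 0xf010efd0ef90fe50fe30f140f13) (.z (.node 0 7 (.edon 0 11 (.leaf [0,8,9,10]) (.edon 15 19 (.leaf [11,12,16,18,15]) (.free 2 [13,14,17,19,20,21,22]))) (.free 2 [1,2,3,4,5,6,7]))), .t 10 (nat_lit 0x100910070a610a5f0411040f033f033e02ef) (.z (.edon 0 16 (.edon 0 3 (.leaf [0,1,2]) (.edon 0 12 (.node 4 9 (.leaf [3,4,10,8,5]) (.leaf [6,7,11,9])) (.leaf [12,15,14,13]))) (.free 2 [16,17,18,19,20,21,22]))), .t 6 (nat_lit 0x12c90a520a4f042d042b) (.z (.node 0 3 (.edon 0 12 (.node 4 8 (.leaf [0,4,5,9,10]) (.leaf [6,7,11,8])) (.node 17 19 (.leaf [17,20,22,21]) (.free 2 [12,13,14,15,16,18,19]))) (.free 1 [1,2,3]))), .t 12 (nat_lit 0x12af12aa12a903dd03da018300430005000412ba12b4) (.z (.node 6 16 (.node 0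 10 (.node 0 13 (.node 0 20 (.leaf [0,21,22]) (.leaf [15,18,19,20,17])) (.leaf [11,12,13])) (.node 3 5 (.leaf [1,3,9,10,2]) (.leaf [4,6,8,5]))) (.free 1 [7,14,16]))), .t 8 (nat_lit 0xa470a610a5f0a520a4f0a8b0a89) (.z (.edon 0 16 (.node 0 12 (.leaf [0,13,14,15]) (.node 4 8 (.free 2 [1,2,3,4,5,10,12]) (.leaf [6,7,11,9,8]))) (.free 2 [16,17,18,19,20,21,22]))), .t 6 (nat_lit 0x12c901e401e30a520a4f) (.z (.node 2 4 (.edon 0 12 (.edon 6 9 (.leaf [6,7,11,8]) (.leaf [0,2,5,9,10])) (.node 17 19 (.leaf [17,20,22,21]) (.free 2 [12,13,14,15,16,18,19]))) (.free 1 [1,3,4]))), .t 8 (nat_lit 0x117a116f116a11ef11ed11a111a0) (.z (.node 0 7 (.edon 0 11 (.leaf [0,8,9,10]) (.edon 15 19 (.leaf [13,14,16,18,15]) (.free 2 [11,12,17,19,20,21,22]))) (.free 2 [1,2,3,4,5,6,7]))), .t 9 (nat_lit 0xa470a610a5f0a520a4f12c90a8b0a89) (.z (.node 2 4 (.edon 0 12 (.node 5 8 (.leaf [0,2,5,10])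 (.leaf [6,7,11,9,8])) (.node 17 19 (.leaf [17,20,22,21]) (.free 2 [12,13,14,15,16,18,19]))) (.free 1 [1,3,4]))), .t 9 (nat_lit 0x12c90a610a5f0411040f033f033e02ef) (.z (.edon 0 3 (.free 1 [0,1,2]) (.edon 0 12 (.node 4 9 (.leaf [3,4,10,8,5]) (.leaf [6,7,11,9])) (.node 17 19 (.leaf [17,20,22,21]) (.free 2 [12,13,14,15,16,18,19]))))), .t 1 (nat_lit 0) (.cn 2 3), .t 6 (nat_lit 0x12a001e401e30a520a4f) (.z (.node 2 4 (.edon 0 12 (.edon 6 9 (.leaf [6,7,11,8]) (.leaf [0,2,5,9,10])) (.node 14 19 (.leaf [14,20,22,21]) (.free 2 [12,13,15,16,17,18,19]))) (.free 1 [1,3,4])))] (by decide +kernel) (by decide +kernel)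
theorem b214 : B 6848 6880 := Blk.of_chk [.t 6 (nat_lit 0x12a00a610a5f01d401d3) (.z (.node 2 4 (.edon 0 12 (.node 8 9 (.leaf [0,2,5,8,10]) (.leaf [6,7,11,9])) (.edon 12 20 (.free 2 [12,13,15,16,17,18,19]) (.leaf [14,20,22,21]))) (.free 1 [1,3,4]))), .t 1 (nat_lit 0) (.cn 2 3), .t 6 (nat_lit 0x17700350005000112c9) (.z (.node 4 19 (.node 0 11 (.edon 0 17 (.leaf [0,12,13,14]) (.leaf [17,20,22,21])) (.edon 4 5 (.leaf [4,9,11]) (.leaf [1,3,5,10,2]))) (.free 2 [6,7,8,15,16,18,19]))), .t 12 (nat_lit 0x349034701e401e301760091008f0034000500040001) (.z (.edon 4 19 (.free 2 [4,6,7,8,15,16,18]) (.node 10 0 (.leaf [1,3,5,9,10,2]) (.free 3 [0,11,12,13,14,17,19,20,21,22])))), .t 9 (nat_lit 0x1294115c111f110110ff11ef11ee0006) (.z (.node 20 0 (.edon 0 12 (.node 3 10 (.leaf [1,3,11,2]) (.free 2 [4,5,6,7,8,9,10])) (.edon 13 19 (.leaf [13,15,16,18]) (.leaf [12,19,20,17,14])))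 (.free 1 [0,21,22]))), .t 9 (nat_lit 0x10d890d871294123411e011bd11bb) (.z (.edon 19 4 (.node 0 5 (.node 0 12 (.node 0 20 (.leaf [0,21,22]) (.leaf [13,19,20,17,14])) (.leaf [9,12,11,10])) (.leaf [1,3,5,2])) (.free 2 [4,6,7,8,15,16,18]))), .t 12 (nat_lit 0x125612541250017700350005000112891286126c126a) (.z (.edon 0 20 (.node 6 16 (.node 0 10 (.edon 0 14 (.leaf [0,11,12,13]) (.leaf [14,15,18,19,17])) (.node 3 9 (.leaf [1,3,5,10,2]) (.leaf [4,6,9]))) (.leaf [7,8,16])) (.free 1 [20,21,22]))), .t 10 (nat_lit 0x88d12c90a490a4808c808c7088a08890317) (.z (.edon 0 3 (.free 1 [0,1,2]) (.edon 0 12 (.node 4 5 (.leaf [3,4,11,10]) (.leaf [5,6,7,8,9])) (.node 17 19 (.leaf [17,20,22,21]) (.free 2 [12,13,14,15,16,18,19]))))), .t 6 (nat_lit 0x12c90e9f0e9d01e401e3) (.z (.node 4 19 (.edon 0 11 (.node 2 4 (.leaf [0,2,5,9,10]) (.leaf [1,3,4])) (.edon 0 17 (.leaf [11,14,13,12])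 (.leaf [17,20,22,21]))) (.free 2 [6,7,8,15,16,18,19]))), .t 9 (nat_lit 0x1234115c10ae1091108f124912470005) (.z (.node 20 0 (.edon 0 12 (.edon 4 10 (.free 2 [4,5,6,7,8,9,11]) (.leaf [1,3,10,2])) (.edon 14 19 (.leaf [14,16,18,15]) (.leaf [12,19,20,17,13]))) (.free 1 [0,21,22]))), .t 9 (nat_lit 0x17700350005000104bb04b90e9f0e9d) (.z (.node 6 16 (.node 0 10 (.node 0 14 (.free 2 [0,17,18,19,20,21,22]) (.leaf [11,14,13,12])) (.edon 4 5 (.leaf [4,6,8,9]) (.leaf [1,3,5,10,2]))) (.free 1 [7,15,16]))), .t 9 (nat_lit 0x3dd03da01830043000500040e9f0e9d) (.z (.node 6 16 (.node 0 10 (.node 0 14 (.free 2 [0,17,18,19,20,21,22]) (.leaf [11,14,13,12])) (.node 3 5 (.leaf [1,3,9,10,2]) (.leaf [4,6,8,5]))) (.free 1 [7,15,16]))), .t 14 (nat_lit 0x3dd03da01830043000500041289122d122c11ce11cb11b511b3) (.z (.edon 0 20 (.node 6 16 (.node 0 10 (.edon 0 13 (.leaf [0,11,12]) (.leaf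 [13,18,19,17,14])) (.node 3 5 (.leaf [1,3,9,10,2]) (.leaf [4,6,8,5]))) (.leaf [7,15,16])) (.free 1 [20,21,22]))), .t 12 (nat_lit 0x12af12aa12a903dd03da018300430005000412ba12b4) (.z (.node 6 16 (.node 0 10 (.node 0 14 (.node 0 20 (.leaf [0,21,22]) (.leaf [15,18,19,20,17])) (.leaf [11,12,14])) (.node 3 5 (.leaf [1,3,9,10,2]) (.leaf [4,6,8,5]))) (.free 1 [7,13,16]))), .t 14 (nat_lit 0x3da0408040503e303e012af12aa12a904bb04b9000512ba12b4) (.z (.node 6 16 (.node 0 10 (.node 0 14 (.node 0 20 (.leaf [0,21,22]) (.leaf [15,18,19,20,17])) (.leaf [11,12,14])) (.node 3 5 (.leaf [1,3,10,2]) (.leaf [4,6,8,9,5]))) (.free 1 [7,13,16]))), .t 16 (nat_lit 0x3da0408040503e303e004bb04b900051289122d122c11ce11cb11b511b3) (.z (.edon 0 20 (.node 6 16 (.node 0 10 (.edon 0 13 (.leaf [0,11,12]) (.leaf [13,18,19,17,14])) (.node 3 5 (.leaf [1,3,10,2]) (.leaf [4,6,8,9,5]))) (.leaf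 [7,15,16])) (.free 1 [20,21,22]))), .t 9 (nat_lit 0xa470a610a5f0a520a4f11690a8b0a89) (.z (.node 2 4 (.edon 0 12 (.node 5 8 (.leaf [0,2,5,10]) (.leaf [6,7,11,9,8])) (.node 12 19 (.leaf [12,20,22,21]) (.free 2 [13,14,15,16,17,18,19]))) (.free 1 [1,3,4]))), .t 6 (nat_lit 0x12a00a610a5f01d401d3) (.z (.node 2 4 (.edon 0 12 (.node 8 9 (.leaf [0,2,5,8,10]) (.leaf [6,7,11,9])) (.node 14 19 (.leaf [14,20,22,21]) (.free 2 [12,13,15,16,17,18,19]))) (.free 1 [1,3,4]))), .t 8 (nat_lit 0x12a41229122611fa11f611ef11ee) (.z (.node 0 7 (.edon 0 11 (.leaf [0,8,9,10]) (.edon 17 19 (.leaf [13,15,16,18,17]) (.free 2 [11,12,14,19,20,21,22]))) (.free 2 [1,2,3,4,5,6,7]))), .t 11 (nat_lit 0x3dd03da018300430005000412c912a012991298) (.z (.node 6 16 (.node 0 10 (.edon 0 13 (.leaf [0,11,12]) (.node 17 19 (.leaf [14,17,20,22,21]) (.leaf [13,18,19]))) (.node 3 5 (.leaf [1,3,9,10,2])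 (.leaf [4,6,8,5]))) (.free 1 [7,15,16]))), .t 1 (nat_lit 0) (.cn 2 3), .t 9 (nat_lit 0xa470a610a5f0a520a4f12a00a8b0a89) (.z (.node 2 4 (.edon 0 12 (.edon 8 10 (.leaf [6,7,11,9,8]) (.leaf [0,2,5,10])) (.node 14 19 (.leaf [14,20,22,21]) (.free 2 [12,13,15,16,17,18,19]))) (.free 1 [1,3,4]))), .t 9 (nat_lit 0x12a00a610a5f0411040f033f033e02ef) (.z (.edon 0 3 (.free 1 [0,1,2]) (.edon 0 12 (.node 4 9 (.leaf [3,4,10,8,5]) (.leaf [6,7,11,9])) (.node 14 19 (.leaf [14,20,22,21]) (.free 2 [12,13,15,16,17,18,19]))))), .t 6 (nat_lit 0x12a001d401d30a610a5f) (.z (.node 2 4 (.edon 0 12 (.edon 6 8 (.leaf [6,7,11,9]) (.leaf [0,2,5,8,10])) (.node 14 19 (.leaf [14,20,22,21]) (.free 2 [12,13,15,16,17,18,19]))) (.free 1 [1,3,4]))), .t 9 (nat_lit 0x11690a610a5f0411040f033f033e02ef) (.z (.edon 0 3 (.free 1 [0,1,2]) (.edon 0 12 (.node 4 9 (.leaf [3,4,10,8,5]) (.leaf [6,7,11,9]))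 (.node 12 19 (.leaf [12,20,22,21]) (.free 2 [13,14,15,16,17,18,19]))))), .t 8 (nat_lit 0x116b11a1119f117e117b11ef11ee) (.z (.node 0 7 (.edon 0 11 (.leaf [0,8,9,10]) (.edon 14 19 (.leaf [13,15,16,18,14]) (.free 2 [11,12,17,19,20,21,22]))) (.free 2 [1,2,3,4,5,6,7]))), .t 9 (nat_lit 0x1294115c111f110110ff11ef11ed0001) (.z (.node 20 0 (.edon 0 12 (.edon 4 5 (.free 2 [4,6,7,8,9,10,11]) (.leaf [1,3,5,2])) (.edon 13 19 (.leaf [13,16,18,15]) (.leaf [12,19,20,17,14]))) (.free 1 [0,21,22]))), .t 16 (nat_lit 0x3da0408040503e303e010241021101c04bb04b9110f110c109e109c12c9) (.z (.node 0 3 (.node 6 16 (.node 0 9 (.edon 0 12 (.leaf [0,10,11]) (.node 17 19 (.leaf [17,20,22,21]) (.leaf [12,13,18,19,14]))) (.leaf [4,6,8,9,5])) (.leaf [7,15,16])) (.free 1 [1,2,3]))), .t 9 (nat_lit 0x124203ea0331033002fc02f20ba00b9b) (.z (.edon 0 3 (.free 1 [0,1,2]) (.edon 0 12 (.edon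 7 10 (.leaf [7,8,11,9]) (.leaf [3,4,6,10,5])) (.node 13 19 (.leaf [13,20,22,21]) (.free 2 [12,14,15,16,17,18,19]))))), .t 14 (nat_lit 0x3da0408040503e303e004bb04b912ab12a812a0116911251124) (.z (.node 0 3 (.node 6 16 (.node 0 9 (.edon 0 12 (.leaf [0,10,11]) (.node 14 19 (.leaf [12,14,20,22,21]) (.leaf [15,17,19,18]))) (.leaf [4,6,8,9,5])) (.leaf [7,13,16])) (.free 1 [1,2,3]))), .t 14 (nat_lit 0x3e0042d042a03ea03e711e504e704e512ab12a812a0124211e8) (.z (.node 0 3 (.node 6 16 (.node 0 10 (.edon 0 13 (.leaf [0,11,12]) (.node 13 19 (.leaf [13,20,22,21,14]) (.leaf [15,17,19,18]))) (.leaf [4,6,9,10,5])) (.leaf [7,8,16])) (.free 1 [1,2,3]))), .t 7 (nat_lit 0x12cb12a0129e129d01e401e3) (.z (.node 4 19 (.edon 0 11 (.node 2 4 (.leaf [0,2,5,9,10]) (.leaf [1,3,4])) (.edon 0 14 (.leaf [11,12,13]) (.leaf [14,18,20,22,21]))) (.free 2 [6,7,8,15,16,17,19])))] (by decide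 +kernel) (by decide +kernel)

end Pool.Agent.GCP.F7
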