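import Pool.Agent.GCP.F7Db

set_option autoImplicit false
set_option maxRecDepth 100000

/-! # Blocks F7B11 (generated) -/

namespace Pool.Agent.GCP.F7

open Pool.Agent.GCP DB

theorem b215 : B 6880 6912 := Blk.of_chk [.t 12 (nat_lit 0x3e0042d042a03ea03e704e704e512cb12a0129e129d) (.z (.node 0 3 (.node 6 16 (.node 0 10 (.edon 0 14 (.leaf [0,11,12,13]) (.edon 15 20 (.leaf [15,17,19]) (.leaf [14,18,20,22,21]))) (.leaf [4,6,9,10,5])) (.leaf [7,8,16])) (.free 1 [1,2,3]))), .t 7 (nat_lit 0x12cb12a0129e129d01d101d0) (.z (.node 4 19 (.edon 0 10 (.node 2 4 (.leaf [0,2,5,8,9]) (.leaf [1,3,4])) (.edon 0 14 (.leaf [10,11,12]) (.leaf [14,18,20,22,21]))) (.free 2 [6,7,13,15,16,17,19]))), .t 8 (nat_lit 0x1048104510401128112610731072) (.z (.node 0 7 (.edon 0 11 (.leaf [0,8,9,10]) (.edon 15 19 (.leaf [12,13,16,17,15]) (.free 2 [11,14,18,19,20,21,22]))) (.free 2 [1,2,3,4,5,6,7]))),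 .t 10 (nat_lit 0x12cb12a0129e129d04bc04ba0361035f02f9) (.z (.edon 0 3 (.free 1 [0,1,2]) (.node 4 19 (.edon 0 10 (.leaf [3,4,9,8,6]) (.edon 0 14 (.leaf [10,12,13]) (.leaf [14,18,20,22,21]))) (.free 2 [5,7,11,15,16,17,19])))), .t 7 (nat_lit 0xea70ea512cb12a0129e129d) (.z (.node 0 7 (.edon 0 11 (.leaf [0,8,9,10]) (.node 11 19 (.node 14 15 (.leaf [14,18,20,22,21]) (.leaf [11,15,13,12])) (.leaf [16,17,19]))) (.free 2 [1,2,3,4,5,6,7]))), .t 6 (nat_lit 0x2040904040e3b0e39) (.z (.node 5 16 (.node 0 9 (.edon 0 15 (.leaf [0,10,12,13,14]) (.free 2 [15,17,18,19,20,21,22])) (.edon 4 6 (.leaf [4,5,9,8]) (.leaf [1,3,6,2]))) (.free 1 [7,11,16]))), .t 8 (nat_lit 0x20409040412cb12a0129e129d) (.z (.node 5 16 (.node 0 9 (.edon 0 14 (.leaf [0,10,12,13]) (.edon 15 20 (.leaf [15,17,19]) (.leaf [14,18,20,22,21]))) (.edon 4 6 (.leaf [4,5,9,8]) (.leaf [1,3,6,2]))) (.free 1 [7,11,16]))),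 .t 16 (nat_lit 0x3d90409040403e403df04bc04ba12ab128a1285126d1268125a12581242) (.z (.node 0 3 (.node 5 16 (.node 0 9 (.edon 0 13 (.leaf [0,10,11]) (.node 13 19 (.leaf [13,20,22,21]) (.leaf [14,15,17,19,18]))) (.leaf [4,5,9,8,6])) (.leaf [7,12,16])) (.free 1 [1,2,3]))), .t 10 (nat_lit 0x12cb12421240123f04bc04ba0361035f02f9) (.z (.edon 0 3 (.free 1 [0,1,2]) (.node 4 19 (.edon 0 10 (.leaf [3,4,9,8,6]) (.edon 0 13 (.leaf [10,11,12]) (.leaf [13,18,20,22,21]))) (.free 2 [5,7,14,15,16,17,19])))), .t 7 (nat_lit 0x12cb12a0129e129d02220221) (.z (.node 4 19 (.edon 0 11 (.node 2 4 (.leaf [0,2,6,9,10]) (.leaf [1,3,4])) (.node 14 15 (.leaf [14,18,20,22,21]) (.leaf [11,12,15]))) (.free 2 [5,7,8,13,16,17,19]))), .t 10 (nat_lit 0x1009100708df08de04c404c20368036602f9) (.z (.edon 0 16 (.edon 0 3 (.leaf [0,1,2]) (.edon 0 12 (.node 4 9 (.leaf [3,4,10,8,6]) (.leaf [5,7,11,9]))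 (.leaf [12,15,14,13]))) (.free 2 [16,17,18,19,20,21,22]))), .t 9 (nat_lit 0x4b804e704e404c304c005a605a412c9) (.z (.node 0 3 (.node 4 19 (.node 0 10 (.edon 0 17 (.leaf [0,11,14,15]) (.leaf [17,20,22,21])) (.leaf [4,8,9,10,6])) (.free 2 [5,7,12,13,16,18,19])) (.free 1 [1,2,3]))), .t 7 (nat_lit 0x12c912a01299129802220221) (.z (.node 4 19 (.edon 0 11 (.node 2 4 (.leaf [0,2,6,9,10]) (.leaf [1,3,4])) (.edon 11 17 (.leaf [11,12,15]) (.leaf [14,17,20,22,21]))) (.free 2 [5,7,8,13,16,18,19]))), .t 12 (nat_lit 0x12af12aa12a904080406033a033802ef001e12ba12b4) (.z (.node 5 16 (.node 0 10 (.node 0 14 (.node 0 20 (.leaf [0,21,22]) (.leaf [15,18,19,20,17])) (.leaf [11,12,14])) (.node 1 9 (.leaf [1,6,10,2]) (.leaf [3,4,5,8,9]))) (.free 1 [7,13,16]))), .t 10 (nat_lit 0x8c608df08de08d108ce1009100409150913) (.z (.edon 0 16 (.edon 0 12 (.node 2 4 (.node 6 11 (.leaf [0,2,6,10])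 (.leaf [5,7,11,9,8])) (.leaf [1,3,4])) (.leaf [12,13,15,14])) (.free 2 [16,17,18,19,20,21,22]))), .t 7 (nat_lit 0xd900d8e126512640d510d50) (.z (.node 0 7 (.edon 8 19 (.leaf [8,12,16,18]) (.node 0 13 (.edon 19 21 (.leaf [19,20,22]) (.leaf [0,14,15,17,21])) (.leaf [9,13,11,10]))) (.free 2 [1,2,3,4,5,6,7]))), .t 14 (nat_lit 0x126c1211120e11ce11cb1187118512c903de0327032402f902ef) (.z (.edon 0 3 (.free 1 [0,1,2]) (.node 5 16 (.edon 0 9 (.leaf [3,4,5,8,6]) (.edon 0 13 (.leaf [9,10,11]) (.node 17 19 (.leaf [17,20,22,21]) (.leaf [13,18,19,15,14])))) (.leaf [7,12,16])))), .t 9 (nat_lit 0x410090c090a05a605a4040804060002) (.z (.node 5 16 (.node 0 10 (.edon 0 15 (.leaf [0,11,13,14]) (.free 2 [15,17,18,19,20,21,22])) (.node 3 10 (.leaf [1,3,6,2]) (.leaf [4,5,8,9,10]))) (.free 1 [7,12,16]))), .t 9 (nat_lit 0x2150a820a80024e024c0210020f12c9) (.z (.node 4 19 (.node 0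 10 (.edon 0 17 (.leaf [0,11,13,14]) (.leaf [17,20,22,21])) (.node 2 4 (.leaf [2,6,8,9,10]) (.leaf [1,3,4]))) (.free 2 [5,7,12,15,16,18,19]))), .t 16 (nat_lit 0x3df03de03d9118604bb04b804080406126c126a1211120f117e117c12c9) (.z (.node 0 3 (.node 5 16 (.node 0 9 (.edon 0 13 (.leaf [0,10,11]) (.node 17 19 (.leaf [17,20,22,21]) (.leaf [13,14,15,18,19]))) (.leaf [4,5,8,9,6])) (.leaf [7,12,16])) (.free 1 [1,2,3]))), .t 15 (nat_lit 0x11b011ae11a9122d122c11ce11cc0d890d8703de0327032402f902ef) (.z (.edon 0 3 (.free 1 [0,1,2]) (.node 5 16 (.edon 0 9 (.leaf [3,4,5,8,6]) (.edon 0 13 (.leaf [9,12,11,10]) (.edon 0 20 (.leaf [13,14,18,19,17]) (.leaf [20,21,22])))) (.leaf [7,15,16])))), .t 14 (nat_lit 0x12561254125012891286126c126a124203de0327032402f902ef) (.z (.edon 0 3 (.free 1 [0,1,2]) (.node 5 16 (.edon 0 9 (.leaf [3,4,5,8,6]) (.edon 0 13 (.leaf [9,10,11]) (.node 13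 19 (.leaf [13,20,22,21]) (.leaf [14,15,18,19,17])))) (.leaf [7,12,16])))), .t 7 (nat_lit 0x12c912a01299129802220221) (.z (.node 4 19 (.edon 0 11 (.node 2 4 (.leaf [0,2,6,9,10]) (.leaf [1,3,4])) (.node 14 15 (.leaf [14,17,20,22,21]) (.leaf [11,13,15]))) (.free 2 [5,7,8,12,16,18,19]))), .t 10 (nat_lit 0x1232122d122c0c9a0c9510bc10b7123b1234) (.z (.node 0 7 (.node 0 11 (.node 0 20 (.leaf [0,21,22]) (.node 13 16 (.leaf [13,18,19,20,17]) (.leaf [12,14,16,15]))) (.leaf [8,9,11,10])) (.free 2 [1,2,3,4,5,6,7]))), .t 10 (nat_lit 0xc9a0c951234115c10ae1091108f12491248) (.z (.node 0 7 (.node 0 11 (.node 0 20 (.leaf [0,21,22]) (.edon 14 19 (.leaf [14,15,16,18]) (.leaf [12,19,20,17,13]))) (.leaf [8,9,11,10])) (.free 2 [1,2,3,4,5,6,7]))), .t 9 (nat_lit 0x1232122d122c10bb10b8123b12340002) (.z (.node 20 0 (.edon 0 12 (.edon 4 6 (.free 2 [4,5,7,8,9,10,11]) (.leaf [1,3,6,2]))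 (.node 13 16 (.leaf [13,18,19,20,17]) (.leaf [12,15,16,14]))) (.free 1 [0,21,22]))), .t 15 (nat_lit 0x3d90411040c03eb03e612561254125004c404c212891286126c126a) (.z (.node 0 3 (.node 5 16 (.node 0 10 (.edon 0 14 (.leaf [0,11,12,13]) (.edon 0 20 (.leaf [14,15,18,19,17]) (.leaf [20,21,22]))) (.leaf [4,5,10,8,6])) (.leaf [7,9,16])) (.free 1 [1,2,3]))), .t 9 (nat_lit 0x128e1289128610441041129a12940002) (.z (.node 20 0 (.edon 0 12 (.edon 4 6 (.free 2 [4,5,7,8,9,10,11]) (.leaf [1,3,6,2])) (.node 14 16 (.leaf [14,18,19,20,17]) (.leaf [12,15,16,13]))) (.free 1 [0,21,22]))), .t 9 (nat_lit 0xa8205a605a304e704e404c404c212c9) (.z (.node 0 3 (.node 4 19 (.node 0 10 (.edon 0 17 (.leaf [0,11,13,14]) (.leaf [17,20,22,21])) (.leaf [4,9,10,8,6])) (.free 2 [5,7,12,15,16,18,19])) (.free 1 [1,2,3]))), .t 16 (nat_lit 0x3d90409040403e403df118604bc04ba12c9126c126a1211120f117e117c)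 (.z (.node 0 3 (.node 5 16 (.node 0 9 (.edon 0 13 (.leaf [0,10,11]) (.edon 13 20 (.leaf [13,14,15,18,19]) (.leaf [17,20,22,21]))) (.leaf [4,5,9,8,6])) (.leaf [7,12,16])) (.free 1 [1,2,3]))), .t 10 (nat_lit 0xc9a0c9511ef112b11291077107510551053) (.z (.node 0 7 (.node 0 11 (.edon 13 19 (.leaf [12,16,18,15,13]) (.free 2 [0,14,17,19,20,21,22])) (.leaf [8,9,11,10])) (.free 2 [1,2,3,4,5,6,7]))), .t 9 (nat_lit 0x20c9a0c951294123411e011bd11bb) (.z (.edon 19 4 (.node 0 6 (.node 0 11 (.node 0 20 (.leaf [0,21,22]) (.leaf [13,19,20,17,14])) (.leaf [8,9,11,10])) (.leaf [1,3,6,2])) (.free 2 [4,5,7,12,15,16,18])))] (by decide +kernel) (by decide +kernel)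
theorem b216 : B 6912 6944 := Blk.of_chk [.t 12 (nat_lit 0x12561254125003de03d912891286126c126a0df80df6) (.z (.node 0 3 (.node 5 16 (.node 0 8 (.edon 0 14 (.leaf [0,10,11,12,13]) (.edon 0 20 (.leaf [14,15,18,19,17]) (.leaf [20,21,22]))) (.leaf [4,5,8,6])) (.leaf [7,9,16])) (.free 1 [1,2,3]))), .t 10 (nat_lit 0x1232122d122c0c9a0c9510bb10b8123b1234) (.z (.node 0 7 (.node 0 11 (.node 0 20 (.leaf [0,21,22]) (.node 13 16 (.leaf [13,18,19,20,17]) (.leaf [12,15,16,14]))) (.leaf [8,9,11,10])) (.free 2 [1,2,3,4,5,6,7]))), .t 11 (nat_lit 0x10241019101410f810f51088108612cb0c9a0c95) (.z (.node 0 3 (.node 5 16 (.edon 0 8 (.leaf [0,4,5,6]) (.edon 0 12 (.leaf [8,9,11,10]) (.node 18 19 (.leaf [18,20,22,21]) (.leaf [12,13,17,19,14])))) (.leaf [7,15,16])) (.free 1 [1,2,3]))), .t 11 (nat_lit 0x204090404128a122e122b11cf11ca11b411b2) (.z (.edon 0 20 (.node 5 16 (.node 0 9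 (.edon 0 13 (.leaf [0,10,11,12]) (.leaf [13,14,17,19,18])) (.edon 4 6 (.leaf [4,5,9,8]) (.leaf [1,3,6,2]))) (.leaf [7,15,16])) (.free 1 [20,21,22]))), .t 10 (nat_lit 0x12cb12421240123f04c404c20368036602f9) (.z (.edon 0 3 (.free 1 [0,1,2]) (.node 4 19 (.edon 0 11 (.leaf [3,4,10,8,6]) (.node 13 14 (.leaf [13,18,20,22,21]) (.leaf [11,12,14]))) (.free 2 [5,7,9,15,16,17,19])))), .t 6 (nat_lit 0x20c9a0c9511dd11db) (.z (.edon 19 4 (.node 0 6 (.node 0 11 (.edon 19 21 (.leaf [19,20,22]) (.leaf [0,13,14,18,21])) (.leaf [8,9,11,10])) (.leaf [1,3,6,2])) (.free 2 [4,5,7,12,15,16,17]))), .t 7 (nat_lit 0x12cb12421240123f02150214) (.z (.node 4 19 (.edon 0 11 (.node 2 4 (.leaf [0,2,6,8,10]) (.leaf [1,3,4])) (.edon 11 18 (.leaf [11,12,14]) (.leaf [13,18,20,22,21]))) (.free 2 [5,7,9,15,16,17,19]))), .t 9 (nat_lit 0xedb124210bc10ba0fa90fa70ed50ed3) (.z (.node 0 7 (.edon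 0 11 (.leaf [0,8,9,10]) (.edon 12 20 (.edon 0 17 (.leaf [11,16,15,14,12]) (.leaf [17,18,19])) (.leaf [13,20,22,21]))) (.free 2 [1,2,3,4,5,6,7]))), .t 10 (nat_lit 0x1008100508c908c6050b05090386038502fc) (.z (.edon 0 16 (.edon 0 3 (.leaf [0,1,2]) (.edon 0 12 (.node 4 8 (.leaf [3,4,11,10,6]) (.leaf [5,7,9,8])) (.leaf [12,14,15,13]))) (.free 2 [16,17,18,19,20,21,22]))), .t 9 (nat_lit 0x1193000212761275121c121b117e117c) (.z (.edon 19 4 (.node 0 6 (.edon 0 13 (.leaf [0,10,11,12]) (.edon 19 21 (.leaf [19,20,22]) (.leaf [13,14,15,18,21]))) (.leaf [1,3,6,2])) (.free 2 [4,5,7,8,9,16,17]))), .t 10 (nat_lit 0xebb0eba0eb50f940f910f2c0f2a12451243) (.z (.node 0 7 (.edon 0 11 (.leaf [0,8,9,10]) (.edon 0 20 (.edon 14 19 (.leaf [14,16,17,15]) (.leaf [11,12,18,19,13])) (.leaf [20,21,22]))) (.free 2 [1,2,3,4,5,6,7]))), .t 7 (nat_lit 0xc9a0c9511dd11db11281126) (.z (.node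 0 7 (.node 0 11 (.edon 15 19 (.leaf [12,16,17,15]) (.edon 19 21 (.leaf [19,20,22]) (.leaf [0,13,14,18,21]))) (.leaf [8,9,11,10])) (.free 2 [1,2,3,4,5,6,7]))), .t 14 (nat_lit 0x12ab128a1285126d1268125a1258124203de0327032402f902ef) (.z (.edon 0 3 (.free 1 [0,1,2]) (.node 5 16 (.edon 0 10 (.leaf [3,4,5,8,6]) (.edon 0 13 (.leaf [10,11,12]) (.node 13 19 (.leaf [13,20,22,21]) (.leaf [14,15,17,19,18])))) (.leaf [7,9,16])))), .t 10 (nat_lit 0x8ca08c908c610081005090c090908dc08db) (.z (.edon 0 16 (.edon 0 12 (.node 2 4 (.node 6 8 (.leaf [0,2,6,11]) (.leaf [5,7,9,10,8])) (.leaf [1,3,4])) (.leaf [12,14,15,13])) (.free 2 [16,17,18,19,20,21,22]))), .t 10 (nat_lit 0x88b088a08881008100508c908c608990897) (.z (.edon 0 16 (.edon 0 12 (.node 2 4 (.node 2 8 (.leaf [0,2,10,11]) (.leaf [5,7,9,8,6])) (.leaf [1,3,4])) (.leaf [12,14,15,13])) (.free 2 [16,17,18,19,20,21,22]))),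 .t 10 (nat_lit 0xf530f520f4f0fd50fd30f940f9211281126) (.z (.node 0 7 (.edon 0 11 (.leaf [0,8,9,10]) (.edon 0 20 (.edon 15 19 (.leaf [12,16,17,15]) (.leaf [11,13,18,19,14])) (.leaf [20,21,22]))) (.free 2 [1,2,3,4,5,6,7]))), .t 7 (nat_lit 0x12cb12a0129e129d0de10de0) (.z (.node 0 7 (.edon 9 19 (.leaf [9,12,16,17]) (.edon 0 13 (.leaf [0,8,10,11]) (.node 18 19 (.leaf [14,18,20,22,21]) (.leaf [13,15,19])))) (.free 2 [1,2,3,4,5,6,7]))), .t 9 (nat_lit 0x40c0409040405a605a3042d042b0002) (.z (.node 5 16 (.node 0 10 (.edon 0 15 (.leaf [0,11,13,14]) (.free 2 [15,17,18,19,20,21,22])) (.node 3 8 (.leaf [1,3,6,2]) (.leaf [4,5,9,10,8]))) (.free 1 [7,12,16]))), .t 14 (nat_lit 0x11fd11fa11f6122d122c1211120f12a003de0327032402f902ef) (.z (.edon 0 3 (.free 1 [0,1,2]) (.node 5 16 (.edon 0 9 (.leaf [3,4,5,8,6]) (.edon 0 13 (.leaf [9,10,11]) (.node 14 19 (.leaf [14,20,22,21])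 (.leaf [13,15,18,19,17])))) (.leaf [7,12,16])))), .t 14 (nat_lit 0x11fd11fa11f6122d122c1211120f12a003de0327032402f902ef) (.z (.edon 0 3 (.free 1 [0,1,2]) (.node 5 16 (.edon 0 10 (.leaf [3,4,5,8,6]) (.edon 0 13 (.leaf [10,11,12]) (.node 14 19 (.leaf [14,20,22,21]) (.leaf [13,15,18,19,17])))) (.leaf [7,9,16])))), .t 12 (nat_lit 0x1211120e12c912a01299129803de0327032402f902ef) (.z (.edon 0 3 (.free 1 [0,1,2]) (.node 5 16 (.edon 0 10 (.leaf [3,4,5,8,6]) (.edon 0 13 (.leaf [10,11,12]) (.node 17 19 (.leaf [14,17,20,22,21]) (.leaf [13,18,19,15])))) (.leaf [7,9,16])))), .t 12 (nat_lit 0x12ab12a812a0124211e811e703de0327032402f902ef) (.z (.edon 0 3 (.free 1 [0,1,2]) (.node 5 16 (.edon 0 10 (.leaf [3,4,5,8,6]) (.edon 0 13 (.leaf [10,11,12]) (.node 14 19 (.leaf [13,14,20,22,21]) (.leaf [15,17,19,18])))) (.leaf [7,9,16])))), .t 14 (nat_lit 0x3d90411040c03eb03e604c404c2120111fe12cb12a0129e129d)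 (.z (.node 0 3 (.node 5 16 (.node 0 10 (.edon 0 13 (.leaf [0,11,12]) (.node 18 19 (.leaf [14,18,20,22,21]) (.leaf [13,17,19,15]))) (.leaf [4,5,10,8,6])) (.leaf [7,9,16])) (.free 1 [1,2,3]))), .t 4 (nat_lit 0x20d080d07) (.z (.edon 19 4 (.node 0 6 (.edon 0 14 (.leaf [0,8,10,12,13]) (.free 2 [14,15,18,19,20,21,22])) (.leaf [1,3,6,2])) (.free 2 [4,5,7,9,11,16,17]))), .t 6 (nat_lit 0x212cb12a0129e129d) (.z (.edon 19 4 (.node 0 6 (.edon 0 13 (.leaf [0,8,10,11]) (.node 18 19 (.leaf [14,18,20,22,21]) (.leaf [13,15,19]))) (.leaf [1,3,6,2])) (.free 2 [4,5,7,9,12,16,17]))), .t 9 (nat_lit 0x11ed11eb11e900021229122611fa11f8) (.z (.edon 21 19 (.node 0 11 (.node 14 17 (.leaf [0,12,14,21]) (.leaf [13,16,18,17,15])) (.edon 4 6 (.free 2 [4,5,7,8,9,10,11]) (.leaf [1,3,6,2]))) (.free 1 [19,20,22]))), .t 11 (nat_lit 0x3d90411040c03eb03e604c404c21211120e12c9) (.z (.node 0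 3 (.node 5 16 (.node 0 10 (.edon 13 14 (.node 17 19 (.leaf [17,20,22,21]) (.leaf [13,18,19,15])) (.leaf [0,11,12,14])) (.leaf [4,5,10,8,6])) (.leaf [7,9,16])) (.free 1 [1,2,3]))), .t 9 (nat_lit 0x3df03de03d904bb04b8040804060005) (.z (.node 5 16 (.node 0 10 (.edon 0 15 (.leaf [0,11,13,14]) (.free 2 [15,17,18,19,20,21,22])) (.node 3 6 (.leaf [1,3,10,2]) (.leaf [4,5,8,9,6]))) (.free 1 [7,12,16]))), .t 1 (nat_lit 0) (.cn 2 3), .t 9 (nat_lit 0x12c91008100504c303670364030d02fc) (.z (.edon 0 3 (.free 1 [0,1,2]) (.node 4 19 (.edon 0 17 (.edon 0 12 (.leaf [3,4,8,10,6]) (.leaf [12,14,15,13])) (.leaf [17,20,22,21])) (.free 2 [5,7,9,11,16,18,19])))), .t 10 (nat_lit 0x10fd10f810f50c9a0c95115c111f11ef11ed) (.z (.node 0 7 (.node 0 11 (.node 0 20 (.leaf [0,21,22]) (.edon 15 19 (.leaf [13,16,18,15]) (.leaf [12,17,19,20,14]))) (.leaf [8,9,11,10])) (.free 2 [1,2,3,4,5,6,7]))),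 .t 9 (nat_lit 0x117b11dd11da119311900002121c121b) (.z (.edon 19 4 (.node 0 6 (.edon 0 13 (.leaf [0,10,11,12]) (.edon 19 21 (.leaf [19,20,22]) (.leaf [13,15,18,21,14]))) (.leaf [1,3,6,2])) (.free 2 [4,5,7,8,9,16,17])))] (by decide +kernel) (by decide +kernel)
theorem b217 : B 6944 6976 := Blk.of_chk [.t 9 (nat_lit 0x12a008c908c6050b05090386038502fc) (.z (.edon 0 3 (.free 1 [0,1,2]) (.edon 0 12 (.node 4 8 (.leaf [3,4,11,10,6]) (.leaf [5,7,9,8])) (.node 14 19 (.leaf [14,20,22,21]) (.free 2 [12,13,15,16,17,18,19]))))), .t 14 (nat_lit 0x12ab122e122b1212120d120111ff12a003de0327032402f902ef) (.z (.edon 0 3 (.free 1 [0,1,2]) (.node 5 16 (.edon 0 13 (.edon 0 10 (.leaf [3,4,5,8,6]) (.leaf [10,11,12])) (.node 14 19 (.leaf [14,20,22,21]) (.leaf [13,15,17,19,18]))) (.leaf [7,9,16])))), .t 9 (nat_lit 0x3de03d912cb12a0129e129d0df80df6) (.z (.node 0 3 (.node 5 16 (.node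 0 8 (.edon 0 14 (.leaf [0,10,11,12,13]) (.edon 15 20 (.leaf [15,17,19]) (.leaf [14,18,20,22,21]))) (.leaf [4,5,8,6])) (.leaf [7,9,16])) (.free 1 [1,2,3]))), .t 11 (nat_lit 0x12ab122e122b1212120d120111ff12a00c9a0c95) (.z (.node 0 3 (.node 5 16 (.edon 0 8 (.leaf [0,4,5,6]) (.edon 0 13 (.leaf [8,9,11,10]) (.node 14 19 (.leaf [14,20,22,21]) (.leaf [13,15,17,19,18])))) (.leaf [7,12,16])) (.free 1 [1,2,3]))), .t 12 (nat_lit 0x116b119d119b11761173018a004b0007000611eb11ea) (.z (.edon 0 20 (.node 0 12 (.node 0 17 (.leaf [0,18,19]) (.leaf [13,15,16,17,14])) (.node 3 10 (.leaf [1,3,11,12,2]) (.free 2 [4,5,6,7,8,9,10]))) (.free 1 [20,21,22]))), .t 16 (nat_lit 0x3e003dd03da10241019101404bc04b70409040710f810f51088108612cb) (.z (.node 0 3 (.node 6 16 (.node 0 9 (.edon 0 12 (.leaf [0,10,11]) (.node 18 19 (.leaf [18,20,22,21]) (.leaf [12,13,17,19,14]))) (.leaf [4,6,9,8,5]))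 (.leaf [7,15,16])) (.free 1 [1,2,3]))), .t 8 (nat_lit 0x104110731071104c104911281127) (.z (.node 0 7 (.edon 0 11 (.leaf [0,8,9,10]) (.edon 12 19 (.leaf [12,15,16,17,13]) (.free 2 [11,14,18,19,20,21,22]))) (.free 2 [1,2,3,4,5,6,7]))), .t 9 (nat_lit 0x11131110110b1163111f11eb11ea0001) (.z (.node 20 0 (.edon 0 12 (.edon 4 5 (.free 2 [4,6,7,8,9,10,11]) (.leaf [1,3,5,2])) (.edon 13 19 (.leaf [13,15,16,17]) (.leaf [12,14,19,20,18]))) (.free 1 [0,21,22]))), .t 12 (nat_lit 0x116b119d119b11761173018a004b0007000611eb11ea) (.z (.edon 0 20 (.node 0 12 (.node 0 17 (.leaf [0,18,19]) (.leaf [13,15,16,17,14])) (.edon 4 11 (.free 2 [4,5,6,7,8,9,10]) (.leaf [1,3,11,12,2]))) (.free 1 [20,21,22]))), .t 1 (nat_lit 0) (.cn 2 3), .t 8 (nat_lit 0xf670f800f7e0f6f0f6d0fe20fe1) (.z (.node 0 7 (.edon 0 11 (.leaf [0,8,9,10]) (.edon 13 19 (.leaf [11,15,16,17,13]) (.free 2 [12,14,18,19,20,21,22])))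 (.free 2 [1,2,3,4,5,6,7]))), .t 10 (nat_lit 0x1231122e122b0c9a0c9510bb10b8123b1234) (.z (.node 0 7 (.node 0 11 (.node 0 20 (.leaf [0,21,22]) (.node 13 16 (.leaf [13,17,19,20,18]) (.leaf [12,15,16,14]))) (.leaf [8,9,11,10])) (.free 2 [1,2,3,4,5,6,7]))), .t 1 (nat_lit 0) (.cn 2 3), .t 1 (nat_lit 0) (.cn 2 3), .t 1 (nat_lit 0) (.cn 2 3), .t 9 (nat_lit 0x1005104410411010100d10bb10b90001) (.z (.node 16 0 (.edon 0 12 (.edon 4 5 (.free 2 [4,6,7,8,9,10,11]) (.leaf [1,3,5,2])) (.leaf [12,14,15,16,13])) (.free 2 [0,17,18,19,20,21,22]))), .t 6 (nat_lit 0x12420a4a0a4701fc01fb) (.z (.node 2 4 (.edon 0 12 (.node 5 9 (.leaf [0,2,5,10,11]) (.leaf [6,7,9,8])) (.node 13 19 (.leaf [13,20,22,21]) (.free 2 [12,14,15,16,17,18,19]))) (.free 1 [1,3,4]))), .t 6 (nat_lit 0x12420a4a0a4701fc01fb) (.z (.node 2 4 (.edon 0 12 (.node 5 8 (.leaf [0,2,5,10,11]) (.leaf [6,7,9,8])) (.node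 13 19 (.leaf [13,20,22,21]) (.free 2 [12,14,15,16,17,18,19]))) (.free 1 [1,3,4]))), .t 9 (nat_lit 0x4bf04bc04b705a605a304e704e50001) (.z (.node 6 16 (.node 0 10 (.edon 0 14 (.leaf [0,11,12,13]) (.free 2 [14,17,18,19,20,21,22])) (.node 3 8 (.leaf [1,3,5,2]) (.leaf [4,6,9,10,8]))) (.free 1 [7,15,16]))), .t 1 (nat_lit 0) (.cn 2 2), .t 1 (nat_lit 0) (.cn 2 3), .t 6 (nat_lit 0x112cb12421240123f) (.z (.edon 19 4 (.node 0 5 (.edon 0 12 (.leaf [0,8,10,11]) (.node 18 19 (.leaf [13,18,20,22,21]) (.leaf [12,14,19]))) (.leaf [1,3,5,2])) (.free 2 [4,6,7,9,15,16,17]))), .t 6 (nat_lit 0x12cb0e9f0e9d01d401d3) (.z (.node 4 19 (.edon 0 11 (.node 2 4 (.leaf [0,2,5,8,10]) (.leaf [1,3,4])) (.edon 0 18 (.leaf [11,14,13,12]) (.leaf [18,20,22,21]))) (.free 2 [6,7,9,15,16,17,19]))), .t 11 (nat_lit 0x3dd03da12ab128a1285126d1268125a12581242) (.z (.node 0 3 (.node 6 16 (.node 0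 8 (.edon 0 13 (.leaf [0,10,11,12]) (.node 13 19 (.leaf [13,20,22,21]) (.leaf [14,15,17,19,18]))) (.leaf [4,6,8,5])) (.leaf [7,9,16])) (.free 1 [1,2,3]))), .t 10 (nat_lit 0x12490c9a0c9512a312a21281128012451244) (.z (.node 0 7 (.node 0 11 (.edon 14 19 (.leaf [14,15,16,17,18]) (.free 2 [0,12,13,19,20,21,22])) (.leaf [8,9,11,10])) (.free 2 [1,2,3,4,5,6,7]))), .t 5 (nat_lit 0x12cb12a0129e129d) (.z (.node 4 19 (.node 0 10 (.edon 0 14 (.leaf [0,11,12,13]) (.leaf [14,18,20,22,21])) (.free 2 [1,2,3,4,5,8,10])) (.free 2 [6,7,9,15,16,17,19]))), .t 10 (nat_lit 0xc9a0c951249112b112910e910e710cb10c9) (.z (.node 0 7 (.node 0 11 (.edon 15 19 (.leaf [12,16,18,15,14]) (.free 2 [0,13,17,19,20,21,22])) (.leaf [8,9,11,10])) (.free 2 [1,2,3,4,5,6,7]))), .t 6 (nat_lit 0x104bc04b70df80df6) (.z (.node 6 16 (.node 0 9 (.edon 0 15 (.leaf [0,10,11,12,13]) (.free 2 [15,17,18,19,20,21,22]))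 (.edon 4 5 (.leaf [4,6,9,8]) (.leaf [1,3,5,2]))) (.free 1 [7,14,16]))), .t 7 (nat_lit 0x12c91242123a123901e401e3) (.z (.node 4 19 (.edon 0 11 (.node 2 4 (.leaf [0,2,5,9,10]) (.leaf [1,3,4])) (.node 13 15 (.leaf [13,17,20,22,21]) (.leaf [11,12,15]))) (.free 2 [6,7,8,14,16,18,19]))), .t 10 (nat_lit 0x102d102810250c9a0c95111f10ae12a312a2) (.z (.node 0 7 (.node 0 11 (.node 0 20 (.leaf [0,21,22]) (.edon 18 19 (.leaf [15,16,17,18]) (.leaf [12,14,19,20,13]))) (.leaf [8,9,11,10])) (.free 2 [1,2,3,4,5,6,7]))), .t 1 (nat_lit 0) (.cn 2 3), .t 10 (nat_lit 0x12cb12421240123f04090407033b033902ef) (.z (.edon 0 3 (.free 1 [0,1,2]) (.node 4 19 (.edon 0 13 (.edon 0 10 (.leaf [3,4,9,8,5]) (.leaf [10,11,12])) (.leaf [13,18,20,22,21])) (.free 2 [6,7,14,15,16,17,19]))))] (by decide +kernel) (by decide +kernel)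
theorem b218 : B 6976 7008 := Blk.of_chk [.t 6 (nat_lit 0x104bc04b70df80df6) (.z (.node 6 16 (.node 0 9 (.edon 0 14 (.leaf [0,10,11,12,13]) (.free 2 [14,17,18,19,20,21,22])) (.edon 4 5 (.leaf [4,6,9,8]) (.leaf [1,3,5,2]))) (.free 1 [7,15,16]))), .t 7 (nat_lit 0x12cb12421240123f01d401d3) (.z (.node 4 19 (.edon 0 11 (.node 2 4 (.leaf [0,2,5,8,10]) (.leaf [1,3,4])) (.edon 11 18 (.leaf [11,12,14]) (.leaf [13,18,20,22,21]))) (.free 2 [6,7,9,15,16,17,19]))), .t 9 (nat_lit 0x4bf050b050704cb04c6000105dd05db) (.z (.edon 0 16 (.node 0 12 (.leaf [0,13,14,15]) (.edon 4 5 (.node 6 12 (.leaf [4,6,11,10,8]) (.leaf [7,9,12])) (.leaf [1,3,5,2]))) (.free 2 [16,17,18,19,20,21,22]))), .t 1 (nat_lit 0) (.cn 2 3), .t 6 (nat_lit 0x10c9a0c9511dd11db) (.z (.edon 19 4 (.node 0 5 (.node 0 11 (.edon 19 21 (.leaf [19,20,22]) (.leaf [0,13,14,18,21])) (.leaf [8,9,11,10])) (.leaf [1,3,5,2]))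 (.free 2 [4,6,7,12,15,16,17]))), .t 14 (nat_lit 0x12ab115a11571147114211371135124203dd0326032502f902ef) (.z (.edon 0 3 (.free 1 [0,1,2]) (.node 6 16 (.edon 0 9 (.leaf [3,4,6,8,5]) (.edon 0 12 (.leaf [9,10,11]) (.node 13 19 (.leaf [13,20,22,21]) (.leaf [12,15,17,19,18])))) (.leaf [7,14,16])))), .t 10 (nat_lit 0xc950cbb0cb60ca10c9d0cf60cf412a312a2) (.z (.node 0 7 (.node 0 12 (.edon 18 19 (.leaf [15,16,17,18]) (.free 2 [0,13,14,19,20,21,22])) (.leaf [8,9,12,11,10])) (.free 2 [1,2,3,4,5,6,7]))), .t 9 (nat_lit 0x3dd03da12cb12a0129e129d0df80df6) (.z (.node 0 3 (.node 6 16 (.node 0 8 (.edon 0 14 (.leaf [0,10,11,12,13]) (.edon 15 20 (.leaf [15,17,19]) (.leaf [14,18,20,22,21]))) (.leaf [4,6,8,5])) (.leaf [7,9,16])) (.free 1 [1,2,3]))), .t 10 (nat_lit 0xc9a0c9511ef112b11291077107510551053) (.z (.node 0 7 (.node 0 11 (.edon 15 19 (.leaf [12,16,18,15,13]) (.free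 2 [0,14,17,19,20,21,22])) (.leaf [8,9,11,10])) (.free 2 [1,2,3,4,5,6,7]))), .t 14 (nat_lit 0x126c1211120e11ce11cb1187118512c903dd0326032502f902ef) (.z (.edon 0 3 (.free 1 [0,1,2]) (.node 6 16 (.edon 0 9 (.leaf [3,4,6,8,5]) (.edon 0 13 (.leaf [9,10,11]) (.node 17 19 (.leaf [17,20,22,21]) (.leaf [13,18,19,15,14])))) (.leaf [7,12,16])))), .t 10 (nat_lit 0x125e125b12560c9a0c951294127910771075) (.z (.node 0 7 (.node 0 11 (.node 0 20 (.leaf [0,21,22]) (.edon 13 19 (.leaf [12,16,18,13]) (.leaf [14,15,19,20,17]))) (.leaf [8,9,11,10])) (.free 2 [1,2,3,4,5,6,7]))), .t 10 (nat_lit 0xc9a0c951294123411e011bd11bb112b1129) (.z (.node 0 7 (.node 0 11 (.node 0 20 (.leaf [0,21,22]) (.edon 15 19 (.leaf [12,16,18,15]) (.leaf [13,19,20,17,14]))) (.leaf [8,9,11,10])) (.free 2 [1,2,3,4,5,6,7]))), .t 14 (nat_lit 0x11fd11fa11f6122d122c1211120f12a003dd0326032502f902ef) (.z (.edon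 0 3 (.free 1 [0,1,2]) (.node 6 16 (.edon 0 9 (.leaf [3,4,6,8,5]) (.edon 0 13 (.leaf [9,10,11]) (.node 14 19 (.leaf [14,20,22,21]) (.leaf [13,15,18,19,17])))) (.leaf [7,12,16])))), .t 14 (nat_lit 0x117b11ce11cb118611831211120f12c903dd0326032502f902ef) (.z (.edon 0 3 (.free 1 [0,1,2]) (.node 6 16 (.edon 0 9 (.leaf [3,4,6,8,5]) (.edon 0 13 (.leaf [9,10,11]) (.node 17 19 (.leaf [17,20,22,21]) (.leaf [13,15,18,19,14])))) (.leaf [7,12,16])))), .t 10 (nat_lit 0x128e128912860c9a0c9510441041129a1294) (.z (.node 0 7 (.node 0 11 (.node 0 20 (.leaf [0,21,22]) (.node 14 16 (.leaf [14,18,19,20,17]) (.leaf [12,15,16,13]))) (.leaf [8,9,11,10])) (.free 2 [1,2,3,4,5,6,7]))), .t 14 (nat_lit 0x11fd11fa11f6122d122c1211120f12a003dd0326032502f902ef) (.z (.edon 0 3 (.free 1 [0,1,2]) (.node 6 16 (.edon 0 10 (.leaf [3,4,6,8,5]) (.edon 0 13 (.leaf [10,11,12]) (.node 14 19 (.leaf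 [14,20,22,21]) (.leaf [13,15,18,19,17])))) (.leaf [7,9,16])))), .t 9 (nat_lit 0x125e125b125600020c9a0c9512941279) (.z (.edon 19 4 (.node 0 6 (.node 0 11 (.node 0 20 (.leaf [0,21,22]) (.leaf [14,15,19,20,17])) (.leaf [8,9,11,10])) (.leaf [1,3,6,2])) (.free 2 [4,5,7,12,13,16,18]))), .t 10 (nat_lit 0xc9a0c95129a123b11e011d711d511281126) (.z (.node 0 7 (.node 0 11 (.node 0 20 (.leaf [0,21,22]) (.edon 15 19 (.leaf [12,16,17,15]) (.leaf [13,19,20,18,14]))) (.leaf [8,9,11,10])) (.free 2 [1,2,3,4,5,6,7]))), .t 14 (nat_lit 0x12ab122e122b1212120d120111ff12a003dd0326032502f902ef) (.z (.edon 0 3 (.free 1 [0,1,2]) (.node 6 16 (.edon 0 9 (.leaf [3,4,6,8,5]) (.edon 0 13 (.leaf [9,10,11]) (.node 14 19 (.leaf [14,20,22,21]) (.leaf [13,15,17,19,18])))) (.leaf [7,12,16])))), .t 14 (nat_lit 0x12ab122e122b1212120d120111ff12a003dd0326032502f902ef) (.z (.edon 0 3 (.free 1 [0,1,2])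 (.node 6 16 (.edon 0 10 (.leaf [3,4,6,8,5]) (.edon 0 13 (.leaf [10,11,12]) (.node 14 19 (.leaf [14,20,22,21]) (.leaf [13,15,17,19,18])))) (.leaf [7,9,16])))), .t 9 (nat_lit 0x12c90c9a0bde0bd90bb10bac0b9f0b9d) (.z (.edon 0 7 (.free 2 [0,1,2,3,4,5,6]) (.edon 0 12 (.leaf [7,8,9,11,10]) (.node 17 19 (.leaf [17,20,22,21]) (.free 2 [12,13,14,15,16,18,19]))))), .t 7 (nat_lit 0xc9a0c95120b120910e910e7) (.z (.node 0 7 (.node 0 11 (.edon 14 19 (.leaf [12,16,18,14]) (.edon 19 21 (.leaf [19,20,22]) (.leaf [0,13,15,17,21]))) (.leaf [8,9,11,10])) (.free 2 [1,2,3,4,5,6,7]))), .t 1 (nat_lit 0) (.cn 2 3), .t 11 (nat_lit 0x1182117f117a03dd03da1211120e11ce11cc12c9) (.z (.node 0 3 (.node 6 16 (.node 0 8 (.edon 0 13 (.leaf [0,10,11,12]) (.node 17 19 (.leaf [17,20,22,21]) (.leaf [13,14,18,19,15]))) (.leaf [4,6,8,5])) (.leaf [7,9,16])) (.free 1 [1,2,3]))), .t 14 (nat_lit 0x4bf050b050704cb04c612af12aa12a9000105dd05db12ba12b4)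 (.z (.node 6 16 (.node 0 11 (.node 0 14 (.node 0 20 (.leaf [0,21,22]) (.leaf [15,18,19,20,17])) (.leaf [12,13,14])) (.edon 4 5 (.leaf [4,6,11,10,8]) (.leaf [1,3,5,2]))) (.free 1 [7,9,16]))), .t 8 (nat_lit 0x3dd03da126c126912c90df80df6) (.z (.node 0 3 (.node 6 16 (.node 0 8 (.edon 0 14 (.leaf [0,10,11,12,13]) (.node 17 19 (.leaf [17,20,22,21]) (.leaf [14,18,19,15]))) (.leaf [4,6,8,5])) (.leaf [7,9,16])) (.free 1 [1,2,3]))), .t 6 (nat_lit 0x12c91008100501d401d3) (.z (.node 4 19 (.edon 0 12 (.node 2 4 (.leaf [0,2,5,8,10]) (.leaf [1,3,4])) (.edon 0 17 (.leaf [12,14,15,13]) (.leaf [17,20,22,21]))) (.free 2 [6,7,9,11,16,18,19]))), .t 1 (nat_lit 0) (.cn 2 3), .t 10 (nat_lit 0x100810050a4a0a470450044e0356035402f2) (.z (.edon 0 16 (.edon 0 3 (.leaf [0,1,2]) (.edon 0 12 (.node 4 8 (.leaf [3,4,11,10,5]) (.leaf [6,7,9,8])) (.leaf [12,14,15,13]))) (.free 2 [16,17,18,19,20,21,22]))),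 .t 14 (nat_lit 0x10581055105011461143109e109c12c903dd0326032502f902ef) (.z (.edon 0 3 (.free 1 [0,1,2]) (.node 6 16 (.edon 0 9 (.leaf [3,4,6,8,5]) (.edon 0 12 (.leaf [9,10,11]) (.node 17 19 (.leaf [17,20,22,21]) (.leaf [12,13,18,19,15])))) (.leaf [7,14,16])))), .t 10 (nat_lit 0xc9a0c951234115c10ae1091108f12491247) (.z (.node 0 7 (.node 0 11 (.node 0 20 (.leaf [0,21,22]) (.edon 15 19 (.leaf [14,16,18,15]) (.leaf [12,19,20,17,13]))) (.leaf [8,9,11,10])) (.free 2 [1,2,3,4,5,6,7]))), .t 1 (nat_lit 0) (.cn 2 3)] (by decide +kernel) (by decide +kernel)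
theorem b219 : B 7008 7040 := Blk.of_chk [.t 7 (nat_lit 0x12c912a0129912980ea70ea5) (.z (.node 0 7 (.edon 0 11 (.leaf [0,8,9,10]) (.node 15 19 (.edon 12 17 (.leaf [11,15,13,12]) (.leaf [14,17,20,22,21])) (.leaf [16,18,19]))) (.free 2 [1,2,3,4,5,6,7]))), .t 12 (nat_lit 0x12561254125003dd03da12891286126c126a0df80df6) (.z (.node 0 3 (.node 6 16 (.node 0 8 (.edon 0 14 (.leaf [0,10,11,12,13]) (.edon 0 20 (.leaf [14,15,18,19,17]) (.leaf [20,21,22]))) (.leaf [4,6,8,5])) (.leaf [7,9,16])) (.free 1 [1,2,3]))), .t 7 (nat_lit 0xea70ea512cb12a0129e129d) (.z (.node 0 7 (.edon 0 11 (.leaf [0,8,9,10]) (.node 15 19 (.node 14 15 (.leaf [14,18,20,22,21]) (.leaf [11,15,13,12])) (.leaf [16,17,19]))) (.free 2 [1,2,3,4,5,6,7]))), .t 10 (nat_lit 0x12cb12a0129e129d04090407033b033902ef) (.z (.edon 0 3 (.free 1 [0,1,2]) (.node 4 19 (.edon 0 10 (.leaf [3,4,9,8,5]) (.edon 0 14 (.leaf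 [10,11,12]) (.leaf [14,18,20,22,21]))) (.free 2 [6,7,13,15,16,17,19])))), .t 9 (nat_lit 0x117b11dd11da119311900001121c121b) (.z (.edon 19 4 (.node 0 5 (.edon 0 13 (.leaf [0,10,11,12]) (.edon 19 21 (.leaf [19,20,22]) (.leaf [13,15,18,21,14]))) (.leaf [1,3,5,2])) (.free 2 [4,6,7,8,9,16,17]))), .t 7 (nat_lit 0x12cb12a0129e129d01d401d3) (.z (.node 4 19 (.edon 0 11 (.node 2 4 (.leaf [0,2,5,8,10]) (.leaf [1,3,4])) (.edon 0 14 (.leaf [11,12,13]) (.leaf [14,18,20,22,21]))) (.free 2 [6,7,9,15,16,17,19]))), .t 10 (nat_lit 0x12cb12a0129e129d0411040f033f033e02ef) (.z (.edon 0 3 (.free 1 [0,1,2]) (.node 4 19 (.edon 0 11 (.leaf [3,4,10,8,5]) (.edon 0 14 (.leaf [11,12,13]) (.leaf [14,18,20,22,21]))) (.free 2 [6,7,9,15,16,17,19])))), .t 14 (nat_lit 0x10241019101410f810f51088108612cb03dd0326032502f902ef) (.z (.edon 0 3 (.free 1 [0,1,2]) (.node 6 16 (.edon 0 9 (.leaf [3,4,6,8,5])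 (.edon 0 12 (.leaf [9,10,11]) (.node 18 19 (.leaf [18,20,22,21]) (.leaf [12,13,17,19,14])))) (.leaf [7,15,16])))), .t 10 (nat_lit 0xc9a0c9511ef112b11291077107510551053) (.z (.node 0 7 (.node 0 11 (.edon 19 21 (.leaf [19,20,22]) (.edon 12 17 (.leaf [12,16,18,15,13]) (.leaf [0,14,17,21]))) (.leaf [8,9,11,10])) (.free 2 [1,2,3,4,5,6,7]))), .t 7 (nat_lit 0x12c912a01299129801d401d3) (.z (.node 4 19 (.edon 0 11 (.node 2 4 (.leaf [0,2,5,8,10]) (.leaf [1,3,4])) (.edon 0 14 (.leaf [11,12,13]) (.leaf [14,17,20,22,21]))) (.free 2 [6,7,9,15,16,18,19]))), .t 1 (nat_lit 0) (.cn 2 3), .t 10 (nat_lit 0x100c100910040c9a0c9510bb10b810441042) (.z (.node 0 7 (.node 0 11 (.node 0 16 (.free 2 [0,17,18,19,20,21,22]) (.leaf [12,13,15,16,14])) (.leaf [8,9,11,10])) (.free 2 [1,2,3,4,5,6,7]))), .t 10 (nat_lit 0x12c912a01299129804090407033b033902ef) (.z (.edon 0 3 (.free 1 [0,1,2])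 (.node 4 19 (.edon 0 10 (.leaf [3,4,9,8,5]) (.edon 0 14 (.leaf [10,11,12]) (.leaf [14,17,20,22,21]))) (.free 2 [6,7,13,15,16,18,19])))), .t 7 (nat_lit 0x12c912a01299129801d101d0) (.z (.node 4 19 (.edon 0 10 (.node 2 4 (.leaf [0,2,5,8,9]) (.leaf [1,3,4])) (.edon 0 14 (.leaf [10,11,12]) (.leaf [14,17,20,22,21]))) (.free 2 [6,7,13,15,16,18,19]))), .t 1 (nat_lit 0) (.cn 2 3), .t 6 (nat_lit 0x10c9a0c9511051104) (.z (.edon 19 4 (.node 0 5 (.node 0 11 (.edon 19 21 (.leaf [19,20,22]) (.leaf [0,12,14,17,21])) (.leaf [8,9,11,10])) (.leaf [1,3,5,2])) (.free 2 [4,6,7,13,15,16,18]))), .t 10 (nat_lit 0xc9a0c951234115c10ae1091108f12491247) (.z (.node 0 7 (.node 0 11 (.node 0 20 (.leaf [0,21,22]) (.edon 14 19 (.leaf [14,16,18,15]) (.leaf [12,19,20,17,13]))) (.leaf [8,9,11,10])) (.free 2 [1,2,3,4,5,6,7]))), .t 6 (nat_lit 0x12c90e9f0e9d01d401d3) (.z (.node 4 19 (.edon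 0 11 (.node 2 4 (.leaf [0,2,5,8,10]) (.leaf [1,3,4])) (.edon 0 17 (.leaf [11,14,13,12]) (.leaf [17,20,22,21]))) (.free 2 [6,7,9,15,16,18,19]))), .t 10 (nat_lit 0x11760c9a0c951245124411eb11ea116e116c) (.z (.node 0 7 (.node 0 11 (.edon 13 19 (.leaf [13,14,15,16,17]) (.free 2 [0,12,18,19,20,21,22])) (.leaf [8,9,11,10])) (.free 2 [1,2,3,4,5,6,7]))), .t 6 (nat_lit 0x104bc04b70dfe0dfc) (.z (.node 6 16 (.node 0 9 (.edon 0 15 (.leaf [0,10,11,12,14]) (.free 2 [15,17,18,19,20,21,22])) (.edon 4 5 (.leaf [4,6,9,8]) (.leaf [1,3,5,2]))) (.free 1 [7,13,16]))), .t 7 (nat_lit 0x12cb12a0129e129d01e401e3) (.z (.node 4 19 (.edon 0 11 (.node 2 4 (.leaf [0,2,5,9,10]) (.leaf [1,3,4])) (.node 14 15 (.leaf [14,18,20,22,21]) (.leaf [11,12,15]))) (.free 2 [6,7,8,13,16,17,19]))), .t 6 (nat_lit 0x610f810f611ef11ed) (.z (.edon 0 20 (.node 0 11 (.edon 15 19 (.leaf [13,16,18,15]) (.leaf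 [0,12,14,17,19])) (.edon 4 11 (.free 2 [4,5,6,7,8,9,10]) (.leaf [1,3,11,2]))) (.free 1 [20,21,22]))), .t 12 (nat_lit 0x1d70931092f0264026201d401d31105110411ef11ed) (.z (.node 2 4 (.edon 6 16 (.leaf [6,7,9]) (.node 0 11 (.edon 15 19 (.leaf [13,16,18,15]) (.edon 19 21 (.leaf [19,20,22]) (.leaf [0,12,14,17,21]))) (.leaf [2,5,8,10,11]))) (.free 1 [1,3,4]))), .t 9 (nat_lit 0x125e125b125612941279107710750006) (.z (.node 20 0 (.edon 0 12 (.edon 4 11 (.free 2 [4,5,6,7,8,9,10]) (.leaf [1,3,11,2])) (.edon 13 19 (.leaf [12,16,18,13]) (.leaf [14,15,19,20,17]))) (.free 1 [0,21,22]))), .t 14 (nat_lit 0x126c1211120e11ce11cb1187118512c903dd0326032502f902ef) (.z (.edon 0 3 (.free 1 [0,1,2]) (.node 6 16 (.edon 0 10 (.leaf [3,4,6,8,5]) (.edon 0 13 (.leaf [10,11,12]) (.node 17 19 (.leaf [17,20,22,21]) (.leaf [13,18,19,15,14])))) (.leaf [7,9,16])))), .t 9 (nat_lit 0x12c90a4a0a47044f03550353031702f4)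 (.z (.edon 0 3 (.free 1 [0,1,2]) (.edon 0 12 (.node 4 8 (.leaf [3,4,10,11,5]) (.leaf [6,7,9,8])) (.node 17 19 (.leaf [17,20,22,21]) (.free 2 [12,13,14,15,16,18,19]))))), .t 10 (nat_lit 0x129411ef112b112910771075105510530006) (.z (.node 20 0 (.edon 0 12 (.node 3 5 (.leaf [1,3,11,2]) (.free 2 [4,5,6,7,8,9,10])) (.edon 13 19 (.leaf [12,16,18,15,13]) (.leaf [14,19,20,17]))) (.free 1 [0,21,22]))), .t 7 (nat_lit 0x17800360006000112651264) (.z (.edon 19 4 (.node 0 13 (.edon 19 21 (.leaf [19,20,22]) (.leaf [0,14,15,17,21])) (.edon 10 11 (.leaf [10,12,13]) (.leaf [1,3,5,11,2]))) (.free 2 [4,6,7,8,9,16,18]))), .t 7 (nat_lit 0x18a004b0007000611ef11ed) (.z (.edon 21 19 (.node 0 12 (.edon 13 17 (.leaf [13,16,18,15]) (.leaf [0,14,17,21])) (.edon 4 11 (.free 2 [4,5,6,7,8,9,10]) (.leaf [1,3,11,12,2]))) (.free 1 [19,20,22]))), .t 9 (nat_lit 0xa4b0a4a0a4711690a820a7f0a5d0a5c)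 (.z (.node 0 3 (.edon 0 12 (.node 4 8 (.leaf [0,4,5,11]) (.leaf [6,7,9,10,8])) (.node 12 19 (.leaf [12,20,22,21]) (.free 2 [13,14,15,16,17,18,19]))) (.free 1 [1,2,3]))), .t 9 (nat_lit 0xa4b0a4a0a4712c90a820a7f0a5d0a5c) (.z (.node 0 3 (.edon 0 12 (.node 4 8 (.leaf [0,4,5,11]) (.leaf [6,7,9,10,8])) (.node 17 19 (.leaf [17,20,22,21]) (.free 2 [12,13,14,15,16,18,19]))) (.free 1 [1,2,3]))), .t 9 (nat_lit 0x117a116f116a000111ef11ed11a111a0) (.z (.edon 21 19 (.node 0 11 (.edon 13 17 (.leaf [13,14,16,18,15]) (.leaf [0,12,17,21])) (.edon 4 5 (.free 2 [4,6,7,8,9,10,11]) (.leaf [1,3,5,2]))) (.free 1 [19,20,22])))] (by decide +kernel) (by decide +kernel)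
theorem b220 : B 7040 7072 := Blk.of_chk [.t 5 (nat_lit 0xcf50cf30dec0deb) (.z (.node 0 7 (.edon 9 19 (.leaf [9,14,16,18]) (.edon 0 13 (.leaf [0,8,10,11,12]) (.free 2 [13,15,17,19,20,21,22]))) (.free 2 [1,2,3,4,5,6,7]))), .t 9 (nat_lit 0x108c10891084115c10ae124912470001) (.z (.node 20 0 (.edon 0 12 (.edon 4 5 (.free 2 [4,6,7,8,9,10,11]) (.leaf [1,3,5,2])) (.edon 15 19 (.leaf [14,16,18,15]) (.leaf [12,13,19,20,17]))) (.free 1 [0,21,22]))), .t 6 (nat_lit 0x11249124710971095) (.z (.edon 21 19 (.node 0 11 (.node 13 18 (.leaf [0,12,13,17,21]) (.leaf [14,16,18,15])) (.edon 4 5 (.free 2 [4,6,7,8,9,10,11]) (.leaf [1,3,5,2]))) (.free 1 [19,20,22]))), .t 8 (nat_lit 0xa4b0a4a0a470a820a7f0a5d0a5c) (.z (.edon 0 16 (.node 0 12 (.leaf [0,13,14,15]) (.node 4 8 (.free 2 [1,2,3,4,5,11,12]) (.leaf [6,7,9,10,8]))) (.free 2 [16,17,18,19,20,21,22]))), .t 15 (nat_lit 0x3e703dd03da12af12aa12a904c404bf0411040f0e9f0e9d12ba12b4)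 (.z (.node 0 3 (.node 6 16 (.node 0 10 (.node 0 14 (.node 0 20 (.leaf [0,21,22]) (.leaf [15,18,19,20,17])) (.leaf [11,14,13,12])) (.leaf [4,6,10,8,5])) (.leaf [7,9,16])) (.free 1 [1,2,3]))), .t 10 (nat_lit 0xa4b0a4a0a4711ef11ed0a820a7f0a5d0a5c) (.z (.node 0 3 (.edon 0 12 (.node 4 8 (.leaf [0,4,5,11]) (.leaf [6,7,9,10,8])) (.edon 13 19 (.leaf [13,16,18,15]) (.free 2 [12,14,17,19,20,21,22]))) (.free 1 [1,2,3]))), .t 6 (nat_lit 0x111ef11ed11051104) (.z (.edon 21 19 (.node 0 11 (.node 12 18 (.leaf [0,12,14,17,21]) (.leaf [13,16,18,15])) (.edon 4 5 (.free 2 [4,6,7,8,9,10,11]) (.leaf [1,3,5,2]))) (.free 1 [19,20,22]))), .t 9 (nat_lit 0x1294115c111f110110ff11ef11ed0001) (.z (.node 20 0 (.edon 0 12 (.edon 4 5 (.free 2 [4,6,7,8,9,10,11]) (.leaf [1,3,5,2])) (.edon 15 19 (.leaf [13,16,18,15]) (.leaf [12,19,20,17,14]))) (.free 1 [0,21,22]))), .t 10 (nat_lit 0xa4b0a4a0a47100910040a820a7f0a5d0a5c)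 (.z (.edon 0 16 (.edon 0 12 (.node 2 4 (.node 5 8 (.leaf [0,2,5,11]) (.leaf [6,7,9,10,8])) (.leaf [1,3,4])) (.leaf [12,13,15,14])) (.free 2 [16,17,18,19,20,21,22]))), .t 10 (nat_lit 0x100910040a5d0a5c041704160342034102ef) (.z (.edon 0 16 (.edon 0 3 (.leaf [0,1,2]) (.edon 0 12 (.node 4 10 (.leaf [3,4,11,8,5]) (.leaf [6,7,9,10])) (.leaf [12,13,15,14]))) (.free 2 [16,17,18,19,20,21,22]))), .t 10 (nat_lit 0x129411ef112b112910771075105510530006) (.z (.node 20 0 (.edon 0 12 (.node 3 10 (.leaf [1,3,11,2]) (.free 2 [4,5,6,7,8,9,10])) (.edon 13 19 (.leaf [12,16,18,15,13]) (.leaf [14,19,20,17]))) (.free 1 [0,21,22]))), .t 14 (nat_lit 0x1182117f117a12c91211120e11ce11cc03dd0326032502f902ef) (.z (.edon 0 3 (.free 1 [0,1,2]) (.node 6 16 (.edon 0 10 (.leaf [3,4,6,8,5]) (.edon 0 13 (.leaf [10,11,12]) (.edon 15 20 (.leaf [13,14,18,19,15]) (.leaf [17,20,22,21])))) (.leaf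 [7,9,16])))), .t 11 (nat_lit 0x3e703dd03da04c404bf0411040f126c126912c9) (.z (.node 0 3 (.node 6 16 (.node 0 10 (.edon 0 14 (.leaf [0,11,12,13]) (.node 17 19 (.leaf [17,20,22,21]) (.leaf [14,18,19,15]))) (.leaf [4,6,10,8,5])) (.leaf [7,9,16])) (.free 1 [1,2,3]))), .t 9 (nat_lit 0x100d1008100510bc10b7104510430001) (.z (.node 16 0 (.edon 0 12 (.edon 4 5 (.free 2 [4,6,7,8,9,10,11]) (.leaf [1,3,5,2])) (.leaf [12,14,16,15,13])) (.free 2 [0,17,18,19,20,21,22]))), .t 9 (nat_lit 0x1234115c10ae1091108f124912470001) (.z (.node 20 0 (.edon 0 12 (.edon 4 5 (.free 2 [4,6,7,8,9,10,11]) (.leaf [1,3,5,2])) (.edon 14 19 (.leaf [14,16,18,15]) (.leaf [12,19,20,17,13]))) (.free 1 [0,21,22]))), .t 9 (nat_lit 0x12af12aa12a91010100d12ba12b40001) (.z (.node 20 0 (.edon 0 12 (.edon 4 5 (.free 2 [4,6,7,8,9,10,11]) (.leaf [1,3,5,2])) (.node 15 16 (.leaf [15,18,19,20,17]) (.leaf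 [12,14,16,13]))) (.free 1 [0,21,22]))), .t 9 (nat_lit 0x1232122d122c10bc10b7123b12340001) (.z (.node 20 0 (.edon 0 12 (.edon 4 5 (.free 2 [4,6,7,8,9,10,11]) (.leaf [1,3,5,2])) (.node 13 16 (.leaf [13,18,19,20,17]) (.leaf [12,14,16,15]))) (.free 1 [0,21,22]))), .t 14 (nat_lit 0x118612c9126c126a1211120f117e117c03dd0326032502f902ef) (.z (.edon 0 3 (.free 1 [0,1,2]) (.node 6 16 (.edon 0 10 (.leaf [3,4,6,8,5]) (.edon 0 13 (.leaf [10,11,12]) (.edon 13 20 (.leaf [13,14,15,18,19]) (.leaf [17,20,22,21])))) (.leaf [7,9,16])))), .t 14 (nat_lit 0x118612c9126c126a1211120f117e117c03dd0326032502f902ef) (.z (.edon 0 3 (.free 1 [0,1,2]) (.node 6 16 (.edon 0 13 (.edon 0 9 (.leaf [3,4,6,8,5]) (.leaf [9,10,11])) (.edon 13 20 (.leaf [13,14,15,18,19]) (.leaf [17,20,22,21]))) (.leaf [7,12,16])))), .t 9 (nat_lit 0x112a41282127f1254125012491248) (.z (.edon 21 19 (.node 0 11 (.node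 13 17 (.leaf [0,12,13,21]) (.leaf [14,15,16,18,17])) (.edon 4 5 (.free 2 [4,6,7,8,9,10,11]) (.leaf [1,3,5,2]))) (.free 1 [19,20,22]))), .t 15 (nat_lit 0x3e003dd03da04bc04b70409040712aa122d122c1211120e12021200) (.z (.node 0 3 (.node 6 16 (.node 0 9 (.edon 0 13 (.leaf [0,10,11,12]) (.edon 0 20 (.leaf [13,18,19,17,15]) (.leaf [20,21,22]))) (.leaf [4,6,9,8,5])) (.leaf [7,14,16])) (.free 1 [1,2,3]))), .t 9 (nat_lit 0x3dd03da110f110d12c91242123a1239) (.z (.node 0 3 (.node 6 16 (.node 0 8 (.edon 0 12 (.leaf [0,9,10,11]) (.node 13 19 (.leaf [13,17,20,22,21]) (.leaf [12,14,18,19]))) (.leaf [4,6,8,5])) (.leaf [7,15,16])) (.free 1 [1,2,3]))), .t 9 (nat_lit 0x10b810e910e710ca10c70001112b112a) (.z (.edon 21 19 (.node 0 11 (.node 13 18 (.leaf [0,13,17,21]) (.leaf [12,15,16,18,14])) (.edon 4 5 (.free 2 [4,6,7,8,9,10,11]) (.leaf [1,3,5,2]))) (.free 1 [19,20,22]))), .t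 10 (nat_lit 0x3da0408040503e303e004bb04b90df80df6) (.z (.node 0 3 (.node 6 16 (.node 0 9 (.edon 0 14 (.leaf [0,10,11,12,13]) (.free 2 [14,17,18,19,20,21,22])) (.leaf [4,6,8,9,5])) (.leaf [7,15,16])) (.free 1 [1,2,3]))), .t 1 (nat_lit 0) (.cn 2 2), .t 15 (nat_lit 0x3da0408040503e303e011b011ae11a904bb04b9122d122c11ce11cc) (.z (.node 0 3 (.node 6 16 (.node 0 9 (.edon 0 13 (.leaf [0,10,11,12]) (.edon 0 20 (.leaf [13,14,18,19,17]) (.leaf [20,21,22]))) (.leaf [4,6,8,9,5])) (.leaf [7,15,16])) (.free 1 [1,2,3]))), .t 12 (nat_lit 0x11b011ae11a90176003400040001122d122c11ce11cc) (.z (.edon 0 20 (.node 6 16 (.node 0 9 (.edon 0 13 (.leaf [0,10,11,12]) (.leaf [13,14,18,19,17])) (.node 3 8 (.leaf [1,3,5,9,2]) (.leaf [4,6,8]))) (.leaf [7,15,16])) (.free 1 [20,21,22]))), .t 10 (nat_lit 0xdff0e9f0e9d0e3c0e3a0df90df701d101d0) (.z (.edon 0 16 (.node 4 15 (.edon 0 10 (.node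 2 4 (.leaf [0,2,5,8,9]) (.leaf [1,3,4])) (.leaf [10,14,13,12,11])) (.leaf [6,7,15])) (.free 2 [16,17,18,19,20,21,22]))), .t 9 (nat_lit 0x10b810e910e710ca10c70004112b112a) (.z (.edon 21 19 (.node 0 11 (.node 13 18 (.leaf [0,13,17,21]) (.leaf [12,15,16,18,14])) (.edon 4 9 (.free 2 [4,5,6,7,8,10,11]) (.leaf [1,3,9,2]))) (.free 1 [19,20,22]))), .t 4 (nat_lit 0x10d880d86) (.z (.edon 19 4 (.node 0 5 (.edon 0 13 (.leaf [0,9,10,11,12]) (.free 2 [13,15,17,19,20,21,22])) (.leaf [1,3,5,2])) (.free 2 [4,6,7,8,14,16,18]))), .t 5 (nat_lit 0x176003400040001) (.z (.edon 0 16 (.node 0 12 (.leaf [0,13,14,15]) (.edon 4 5 (.free 2 [4,6,7,8,10,11,12]) (.leaf [1,3,5,9,2]))) (.free 2 [16,17,18,19,20,21,22]))), .t 15 (nat_lit 0x1247124512430d8f1282127f125412520df80df60db40db20d880d86) (.z (.edon 1 21 (.edon 0 9 (.free 2 [1,3,4,5,6,7,8]) (.edon 0 14 (.leaf [9,10,11,12,13]) (.edon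 0 19 (.leaf [14,16,18,17,15]) (.leaf [19,20,22])))) (.free 1 [0,2,21])))] (by decide +kernel) (by decide +kernel)

end Pool.Agent.GCP.F7
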