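import Pool.Agent.GCP.F7Db

set_option autoImplicit false
set_option maxRecDepth 100000

/-! # Blocks F7B12 (generated) -/

namespace Pool.Agent.GCP.F7

open Pool.Agent.GCP DB

theorem b221 : B 7072 7104 := Blk.of_chk [.t 5 (nat_lit 0xa770a760df80df6) (.z (.edon 0 16 (.node 4 15 (.node 0 9 (.leaf [0,10,11,12,13]) (.free 2 [1,2,3,4,5,8,9])) (.leaf [6,7,14,15])) (.free 2 [16,17,18,19,20,21,22]))), .t 10 (nat_lit 0xed40e500e4f0e240e210e020e01088a0889) (.z (.edon 0 16 (.node 4 12 (.free 2 [0,1,2,3,4,9,13]) (.edon 0 10 (.leaf [5,6,7,8]) (.leaf [10,14,15,12,11]))) (.free 2 [16,17,18,19,20,21,22]))), .t 8 (nat_lit 0xa4f0a4e0a4b0aa20a9f0a670a66) (.z (.edon 0 16 (.node 0 12 (.leaf [0,13,14,15]) (.node 4 8 (.free 2 [1,2,3,4,5,9,12]) (.leaf [6,7,10,11,8]))) (.free 2 [16,17,18,19,20,21,22]))), .t 1 (nat_lit 0) (.cn 2 2), .t 8 (nat_lit 0x3dd03da126c126912c90db40db2)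 (.z (.node 0 3 (.node 6 16 (.node 0 8 (.edon 0 14 (.leaf [0,9,11,12,13]) (.node 17 19 (.leaf [17,20,22,21]) (.leaf [14,18,19,15]))) (.leaf [4,6,8,5])) (.leaf [7,10,16])) (.free 1 [1,2,3]))), .t 13 (nat_lit 0xed80f140f120ee70ee412b41234121f120712060fc40fc3) (.z (.node 0 3 (.node 0 10 (.edon 12 19 (.leaf [11,14,16,18,12]) (.node 0 20 (.leaf [0,21,22]) (.leaf [13,19,20,17,15]))) (.free 2 [4,5,6,7,8,9,10])) (.free 1 [1,2,3]))), .t 5 (nat_lit 0x43002600050004) (.z (.edon 0 16 (.node 0 12 (.leaf [0,13,14,15]) (.edon 4 10 (.free 2 [4,5,6,7,8,11,12]) (.leaf [1,3,10,9,2]))) (.free 2 [16,17,18,19,20,21,22]))), .t 9 (nat_lit 0x12c90a520a4f042e034a0346031102f2) (.z (.edon 0 3 (.free 1 [0,1,2]) (.edon 0 12 (.node 4 8 (.leaf [3,4,5,10,9]) (.leaf [6,7,11,8])) (.node 17 19 (.leaf [17,20,22,21]) (.free 2 [12,13,14,15,16,18,19]))))), .t 9 (nat_lit 0xbb500040cf60cf40bf80bf60bb10baf)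 (.z (.edon 0 16 (.node 0 12 (.leaf [0,13,14,15]) (.edon 4 9 (.edon 0 7 (.leaf [4,5,6]) (.leaf [7,12,11,10,8])) (.leaf [1,3,9,2]))) (.free 2 [16,17,18,19,20,21,22]))), .t 6 (nat_lit 0x17600340004000112c9) (.z (.node 4 19 (.node 0 11 (.edon 0 17 (.leaf [0,12,13,15]) (.leaf [17,20,22,21])) (.edon 4 5 (.leaf [4,8,11]) (.leaf [1,3,5,9,2]))) (.free 2 [6,7,10,14,16,18,19]))), .t 1 (nat_lit 0) (.cn 2 3), .t 7 (nat_lit 0x17600340004000110971095) (.z (.edon 19 4 (.node 0 11 (.edon 19 21 (.leaf [19,20,22]) (.leaf [0,12,13,17,21])) (.edon 8 9 (.leaf [8,10,11]) (.leaf [1,3,5,9,2]))) (.free 2 [4,6,7,14,15,16,18]))), .t 8 (nat_lit 0x3dd03da1211120e12c90d880d86) (.z (.node 0 3 (.node 6 16 (.node 0 8 (.edon 0 13 (.leaf [0,9,10,11,12]) (.node 17 19 (.leaf [17,20,22,21]) (.leaf [13,18,19,15]))) (.leaf [4,6,8,5])) (.leaf [7,14,16])) (.free 1 [1,2,3]))), .t 1 (nat_lit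 0) (.cn 2 3), .t 13 (nat_lit 0xeae12af12aa12a91011100f0f480f460e9f0e9d12ba12b4) (.z (.node 0 3 (.node 0 10 (.node 15 16 (.node 0 20 (.leaf [0,21,22]) (.leaf [15,18,19,20,17])) (.leaf [11,16,14,13,12])) (.free 2 [4,5,6,7,8,9,10])) (.free 1 [1,2,3]))), .t 8 (nat_lit 0xcf50bf70bf50bbd0bbc0bb50bb4) (.z (.edon 0 16 (.node 0 12 (.leaf [0,13,14,15]) (.edon 7 9 (.leaf [7,11,12,10,8]) (.free 2 [1,2,3,4,5,6,9]))) (.free 2 [16,17,18,19,20,21,22]))), .t 8 (nat_lit 0x176003400040001126c126912c9) (.z (.node 6 16 (.node 0 9 (.edon 0 14 (.leaf [0,10,11,13]) (.node 17 19 (.leaf [17,20,22,21]) (.leaf [14,18,19,15]))) (.node 3 8 (.leaf [1,3,5,9,2]) (.leaf [4,6,8]))) (.free 1 [7,12,16]))), .t 10 (nat_lit 0x10c610bc10b70c9a0c98112b112910e910e8) (.z (.node 0 7 (.node 0 11 (.edon 15 19 (.leaf [12,14,16,18,15]) (.free 2 [0,13,17,19,20,21,22])) (.leaf [8,11,10,9])) (.free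 2 [1,2,3,4,5,6,7]))), .t 6 (nat_lit 0x10c9a0c9811c311c1) (.z (.edon 19 4 (.node 0 5 (.node 0 11 (.edon 19 21 (.leaf [19,20,22]) (.leaf [0,13,14,17,21])) (.leaf [8,11,10,9])) (.leaf [1,3,5,2])) (.free 2 [4,6,7,12,15,16,18]))), .t 5 (nat_lit 0x176003400040001) (.z (.edon 19 4 (.node 0 9 (.edon 0 14 (.leaf [0,10,11,13]) (.free 2 [14,15,17,19,20,21,22])) (.leaf [1,3,5,9,2])) (.free 2 [4,6,7,8,12,16,18]))), .t 9 (nat_lit 0x10c610bc10b70001112b112910e910e8) (.z (.edon 21 19 (.node 0 11 (.node 13 18 (.leaf [0,13,17,21]) (.leaf [12,14,16,18,15])) (.edon 4 5 (.free 2 [4,6,7,8,9,10,11]) (.leaf [1,3,5,2]))) (.free 1 [19,20,22]))), .t 1 (nat_lit 0) (.cn 2 3), .t 9 (nat_lit 0x3dd03da126c126a12c91242123a1239) (.z (.node 0 3 (.node 6 16 (.node 0 8 (.edon 0 13 (.leaf [0,9,10,11]) (.node 13 19 (.leaf [13,17,20,22,21]) (.leaf [14,15,18,19]))) (.leaf [4,6,8,5])) (.leaf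 [7,12,16])) (.free 1 [1,2,3]))), .t 1 (nat_lit 0) (.cn 2 3), .t 5 (nat_lit 0x176003400040001) (.z (.edon 19 4 (.node 0 9 (.edon 0 13 (.leaf [0,10,11,12]) (.free 2 [13,14,17,19,20,21,22])) (.leaf [1,3,5,9,2])) (.free 2 [4,6,7,8,15,16,18]))), .t 9 (nat_lit 0xb930bb10bac0ba00b9b12c90bde0bdc) (.z (.edon 0 7 (.free 2 [0,1,2,3,4,5,6]) (.edon 0 12 (.leaf [7,8,11,10,9]) (.node 17 19 (.leaf [17,20,22,21]) (.free 2 [12,13,14,15,16,18,19]))))), .t 1 (nat_lit 0) (.cn 1 3), .t 10 (nat_lit 0xc9a0c981249112b112910e910e710cb10c9) (.z (.node 0 7 (.node 0 11 (.edon 14 19 (.leaf [12,16,18,15,14]) (.free 2 [0,13,17,19,20,21,22])) (.leaf [8,11,10,9])) (.free 2 [1,2,3,4,5,6,7]))), .t 10 (nat_lit 0xa590a580e9f0e9d042e042c034a034802f0) (.z (.edon 0 16 (.edon 0 3 (.leaf [0,1,2]) (.node 4 8 (.edon 0 11 (.leaf [3,4,10,9,5]) (.leaf [11,14,13,12])) (.leaf [6,7,15,8]))) (.free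 2 [16,17,18,19,20,21,22]))), .t 12 (nat_lit 0x3da0408040503e303e004bb04b912c91242123a1239) (.z (.node 0 3 (.node 6 16 (.node 0 9 (.edon 0 13 (.leaf [0,10,11,12]) (.node 17 19 (.leaf [13,17,20,22,21]) (.leaf [14,18,19]))) (.leaf [4,6,8,9,5])) (.leaf [7,15,16])) (.free 1 [1,2,3]))), .t 9 (nat_lit 0x17600340004000112c91242123a1239) (.z (.node 6 16 (.node 0 9 (.edon 0 13 (.leaf [0,10,11,12]) (.node 17 19 (.leaf [13,17,20,22,21]) (.leaf [14,18,19]))) (.node 3 8 (.leaf [1,3,5,9,2]) (.leaf [4,6,8]))) (.free 1 [7,15,16]))), .t 12 (nat_lit 0x12c912a0129912981242123a123911e811e711bc11ba) (.z (.node 19 4 (.free 2 [6,7,11,15,16,18,19]) (.edon 0 13 (.free 3 [0,1,2,3,4,5,8,9,10,12]) (.leaf [13,14,17,20,22,21]))))] (by decide +kernel) (by decide +kernel)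
theorem b222 : B 7104 7136 := Blk.of_chk [.t 7 (nat_lit 0x17600340004000111c311c1) (.z (.edon 19 4 (.node 0 12 (.edon 19 21 (.leaf [19,20,22]) (.leaf [0,13,14,17,21])) (.edon 8 9 (.leaf [8,10,12]) (.leaf [1,3,5,9,2]))) (.free 2 [4,6,7,11,15,16,18]))), .t 5 (nat_lit 0x179003700070001) (.z (.edon 0 16 (.node 0 12 (.leaf [0,13,14,15]) (.node 5 9 (.leaf [1,3,5,12,2]) (.free 2 [4,6,7,8,9,10,11]))) (.free 2 [16,17,18,19,20,21,22]))), .t 9 (nat_lit 0x12420a520a4f042e042c034a034802f0) (.z (.edon 0 3 (.free 1 [0,1,2]) (.edon 0 12 (.node 4 8 (.leaf [3,4,10,9,5]) (.leaf [6,7,11,8])) (.node 13 19 (.leaf [13,20,22,21]) (.free 2 [12,14,15,16,17,18,19]))))), .t 10 (nat_lit 0xc9a0c9812a41282127f1254125012491248) (.z (.node 0 7 (.node 0 11 (.edon 17 19 (.leaf [14,15,16,18,17]) (.free 2 [0,12,13,19,20,21,22])) (.leaf [8,11,10,9])) (.free 2 [1,2,3,4,5,6,7]))), .t 14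 (nat_lit 0xedb10bc10ba0fa90fa70ed50ed3124203e3032c032a02fa02f0) (.z (.edon 0 3 (.free 1 [0,1,2]) (.edon 0 11 (.edon 7 9 (.leaf [7,8,10]) (.leaf [3,4,6,9,5])) (.node 13 19 (.leaf [13,20,22,21]) (.edon 0 17 (.leaf [11,16,15,14,12]) (.leaf [17,18,19])))))), .t 10 (nat_lit 0x12c91242123a123903e3032c032a02fa02f0) (.z (.edon 0 3 (.free 1 [0,1,2]) (.edon 0 11 (.edon 7 9 (.leaf [7,8,10]) (.leaf [3,4,6,9,5])) (.node 17 19 (.leaf [13,17,20,22,21]) (.free 2 [11,12,14,15,16,18,19]))))), .t 10 (nat_lit 0x1ec096d096c027c027b01e401e30a520a4f) (.z (.edon 0 16 (.node 0 12 (.leaf [0,13,14,15]) (.node 2 4 (.edon 6 9 (.leaf [6,7,11,8]) (.leaf [2,5,9,10,12])) (.leaf [1,3,4]))) (.free 2 [16,17,18,19,20,21,22]))), .t 10 (nat_lit 0x1008100503e3032c032a02fa02f00bb10baf) (.z (.edon 0 16 (.edon 0 3 (.leaf [0,1,2]) (.edon 0 12 (.edon 7 9 (.leaf [7,11,10,8]) (.leaf [3,4,6,9,5]))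 (.leaf [12,14,15,13]))) (.free 2 [16,17,18,19,20,21,22]))), .t 10 (nat_lit 0xba0100810050c9a0c980bde0bdc0b980b96) (.z (.edon 0 16 (.edon 0 7 (.free 2 [0,1,2,3,4,5,6]) (.edon 0 12 (.leaf [7,11,10,9,8]) (.leaf [12,14,15,13]))) (.free 2 [16,17,18,19,20,21,22]))), .t 15 (nat_lit 0x11b011ae11a9122d122c11ce11cc0d890d8703dd0326032502f902ef) (.z (.edon 0 3 (.free 1 [0,1,2]) (.node 6 16 (.edon 0 9 (.leaf [3,4,6,8,5]) (.edon 0 13 (.leaf [9,12,11,10]) (.edon 0 20 (.leaf [13,14,18,19,17]) (.leaf [20,21,22])))) (.leaf [7,15,16])))), .t 1 (nat_lit 0) (.cn 2 3), .t 15 (nat_lit 0x128a122e122b11cf11ca11b411b20d890d8703dd0326032502f902ef) (.z (.edon 0 3 (.free 1 [0,1,2]) (.node 6 16 (.edon 0 9 (.leaf [3,4,6,8,5]) (.edon 0 13 (.leaf [9,12,11,10]) (.edon 0 20 (.leaf [13,14,17,19,18]) (.leaf [20,21,22])))) (.leaf [7,15,16])))), .t 9 (nat_lit 0x3dd03da12ab12a812a0124211e811e7)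 (.z (.node 0 3 (.node 6 16 (.node 0 8 (.edon 0 13 (.leaf [0,9,10,12]) (.node 14 19 (.leaf [13,14,20,22,21]) (.leaf [15,17,19,18]))) (.leaf [4,6,8,5])) (.leaf [7,11,16])) (.free 1 [1,2,3]))), .t 6 (nat_lit 0x12cb0e3c0e3a01d101d0) (.z (.node 4 19 (.edon 0 10 (.node 2 4 (.leaf [0,2,5,8,9]) (.leaf [1,3,4])) (.edon 0 18 (.leaf [10,14,13,12]) (.leaf [18,20,22,21]))) (.free 2 [6,7,11,15,16,17,19]))), .t 7 (nat_lit 0x17600340004000111dd11db) (.z (.edon 19 4 (.node 0 12 (.edon 19 21 (.leaf [19,20,22]) (.leaf [0,13,14,18,21])) (.edon 8 9 (.leaf [8,10,12]) (.leaf [1,3,5,9,2]))) (.free 2 [4,6,7,11,15,16,17]))), .t 1 (nat_lit 0) (.cn 2 3), .t 10 (nat_lit 0x12cb12421240123f03e3032c032a02fa02f0) (.z (.edon 0 3 (.free 1 [0,1,2]) (.edon 0 11 (.edon 7 9 (.leaf [7,8,10]) (.leaf [3,4,6,9,5])) (.node 18 19 (.leaf [13,18,20,22,21]) (.free 2 [11,12,14,15,16,17,19]))))),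 .t 15 (nat_lit 0x3da0408040503e303e004bb04b9128a122e122b11cf11ca11b411b2) (.z (.node 0 3 (.node 6 16 (.node 0 9 (.edon 0 13 (.leaf [0,10,11,12]) (.edon 0 20 (.leaf [13,14,17,19,18]) (.leaf [20,21,22]))) (.leaf [4,6,8,9,5])) (.leaf [7,15,16])) (.free 1 [1,2,3]))), .t 12 (nat_lit 0x3dd03da12ab128a1285126d1268125a12580da10d9f) (.z (.node 0 3 (.node 6 16 (.node 0 8 (.edon 0 14 (.leaf [0,9,10,12,13]) (.edon 0 20 (.leaf [14,15,17,19,18]) (.leaf [20,21,22]))) (.leaf [4,6,8,5])) (.leaf [7,11,16])) (.free 1 [1,2,3]))), .t 5 (nat_lit 0x176003400040001) (.z (.edon 19 4 (.node 0 9 (.edon 0 13 (.leaf [0,10,11,12]) (.free 2 [13,14,18,19,20,21,22])) (.leaf [1,3,5,9,2])) (.free 2 [4,6,7,8,15,16,17]))), .t 7 (nat_lit 0x17700350005000111dd11db) (.z (.edon 19 4 (.node 0 12 (.edon 19 21 (.leaf [19,20,22]) (.leaf [0,13,14,18,21])) (.edon 9 10 (.leaf [9,11,12]) (.leaf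 [1,3,5,10,2]))) (.free 2 [4,6,7,8,15,16,17]))), .t 10 (nat_lit 0x12cb12421240123f03ea0331033002fc02f2) (.z (.edon 0 3 (.free 1 [0,1,2]) (.edon 0 11 (.edon 7 10 (.leaf [7,8,9]) (.leaf [3,4,6,10,5])) (.node 18 19 (.leaf [13,18,20,22,21]) (.free 2 [11,12,14,15,16,17,19]))))), .t 10 (nat_lit 0x4e40511050e04f704f408d108ce065d065b) (.z (.node 0 3 (.node 0 12 (.edon 0 16 (.leaf [0,13,14,15]) (.free 2 [16,17,18,19,20,21,22])) (.node 4 8 (.leaf [4,9,10,12,6]) (.leaf [5,7,11,8]))) (.free 1 [1,2,3]))), .t 14 (nat_lit 0x12af12aa12a90002090d05a705a2042e04290410040e12ba12b4) (.z (.node 5 16 (.node 0 10 (.node 0 14 (.node 0 20 (.leaf [0,21,22]) (.leaf [15,18,19,20,17])) (.leaf [12,13,14])) (.edon 4 6 (.leaf [4,5,8,10,9]) (.leaf [1,3,6,2]))) (.free 1 [7,11,16]))), .t 6 (nat_lit 0x20ca00c9e11dd11db) (.z (.edon 19 4 (.node 0 6 (.node 0 12 (.edon 19 21 (.leaf [19,20,22])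 (.leaf [0,13,14,18,21])) (.leaf [8,10,12,9])) (.leaf [1,3,6,2])) (.free 2 [4,5,7,11,15,16,17]))), .t 9 (nat_lit 0xe9f0e9d03de03d90183004300050004) (.z (.node 16 0 (.edon 7 14 (.leaf [7,15,16]) (.edon 0 11 (.node 3 6 (.leaf [1,3,9,10,2]) (.leaf [4,5,8,6])) (.leaf [11,14,13,12]))) (.free 2 [0,17,18,19,20,21,22]))), .t 10 (nat_lit 0xc9a0c98123b116310ae10a610a412451244) (.z (.node 0 7 (.node 0 11 (.node 0 20 (.leaf [0,21,22]) (.edon 14 19 (.leaf [14,15,16,17]) (.leaf [12,19,20,18,13]))) (.leaf [8,11,10,9])) (.free 2 [1,2,3,4,5,6,7]))), .t 10 (nat_lit 0x10080f410f3e0ed40ed10ea70ea5088a0888) (.z (.edon 0 16 (.edon 0 11 (.node 4 6 (.free 2 [0,1,2,3,4,9,10]) (.leaf [5,7,8,6])) (.leaf [11,14,15,13,12])) (.free 2 [16,17,18,19,20,21,22]))), .t 10 (nat_lit 0xc9a0c98123b116310ae10a610a412451243) (.z (.node 0 7 (.node 0 11 (.node 0 20 (.leaf [0,21,22]) (.edon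 15 19 (.leaf [14,16,17,15]) (.leaf [12,19,20,18,13]))) (.leaf [8,11,10,9])) (.free 2 [1,2,3,4,5,6,7]))), .t 5 (nat_lit 0x12cb12421240123f) (.z (.node 4 19 (.node 0 9 (.edon 0 13 (.leaf [0,10,11,12]) (.leaf [13,18,20,22,21])) (.free 2 [1,2,3,4,5,8,9])) (.free 2 [6,7,14,15,16,17,19]))), .t 10 (nat_lit 0x117611631245124411eb11ea116e116c0001) (.z (.node 20 0 (.edon 0 12 (.edon 4 5 (.free 2 [4,6,7,8,9,10,11]) (.leaf [1,3,5,2])) (.edon 13 19 (.leaf [13,14,15,16,17]) (.leaf [12,19,20,18]))) (.free 1 [0,21,22]))), .t 12 (nat_lit 0x12ab12a812a0124211e811e703dd0326032502f902ef) (.z (.edon 0 3 (.free 1 [0,1,2]) (.node 6 16 (.edon 0 10 (.leaf [3,4,6,8,5]) (.edon 0 13 (.leaf [10,11,12]) (.node 14 19 (.leaf [13,14,20,22,21]) (.leaf [15,17,19,18])))) (.leaf [7,9,16]))))] (by decide +kernel) (by decide +kernel)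
theorem b223 : B 7136 7168 := Blk.of_chk [.t 12 (nat_lit 0x12c91242123a12390d890d8703dd0326032502f902ef) (.z (.edon 0 3 (.free 1 [0,1,2]) (.node 6 16 (.edon 0 9 (.leaf [3,4,6,8,5]) (.edon 0 13 (.leaf [9,12,11,10]) (.edon 15 20 (.leaf [15,18,19]) (.leaf [13,17,20,22,21])))) (.leaf [7,14,16])))), .t 5 (nat_lit 0xa570a560ea60ea4) (.z (.edon 0 16 (.node 4 8 (.node 0 10 (.leaf [0,11,12,13,15]) (.free 2 [1,2,3,4,5,9,10])) (.leaf [6,7,14,8])) (.free 2 [16,17,18,19,20,21,22]))), .t 8 (nat_lit 0x100d107710751020101d10e910e8) (.z (.node 0 7 (.edon 0 11 (.leaf [0,8,9,10]) (.edon 12 19 (.leaf [12,14,16,18,13]) (.free 2 [11,15,17,19,20,21,22]))) (.free 2 [1,2,3,4,5,6,7]))), .t 8 (nat_lit 0x8ca08e508e208d108ce09320930) (.z (.edon 0 16 (.node 0 12 (.leaf [0,13,14,15]) (.node 4 8 (.free 2 [1,2,3,4,6,9,12]) (.leaf [5,7,11,10,8]))) (.free 2 [16,17,18,19,20,21,22]))),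 .t 7 (nat_lit 0xca00c9e121c121b0fc10fc0) (.z (.node 0 7 (.edon 11 19 (.leaf [11,14,16,17]) (.node 0 12 (.edon 19 21 (.leaf [19,20,22]) (.leaf [0,13,15,18,21])) (.leaf [8,10,12,9]))) (.free 2 [1,2,3,4,5,6,7]))), .t 8 (nat_lit 0x3de03d9125a125712cb0da10d9f) (.z (.node 0 3 (.node 5 16 (.node 0 8 (.edon 0 14 (.leaf [0,9,10,12,13]) (.node 18 19 (.leaf [18,20,22,21]) (.leaf [14,17,19,15]))) (.leaf [4,5,8,6])) (.leaf [7,11,16])) (.free 1 [1,2,3]))), .t 1 (nat_lit 0) (.cn 2 3), .t 7 (nat_lit 0x116910030f3c0f3b088a0889) (.z (.node 2 4 (.edon 0 11 (.node 2 8 (.leaf [0,2,9,10]) (.leaf [5,6,7,8])) (.node 12 19 (.leaf [11,12,20,22,21]) (.free 2 [13,14,15,16,17,18,19]))) (.free 1 [1,3,4]))), .t 7 (nat_lit 0x124210030fa40fa3088a0889) (.z (.node 2 4 (.edon 0 11 (.node 2 8 (.leaf [0,2,9,10]) (.leaf [5,6,7,8])) (.node 13 19 (.leaf [11,13,20,22,21]) (.free 2 [12,14,15,16,17,18,19])))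 (.free 1 [1,3,4]))), .t 10 (nat_lit 0x3da0408040503e303e004bb04b90df80df6) (.z (.node 0 3 (.node 6 16 (.node 0 9 (.edon 0 15 (.leaf [0,10,11,12,13]) (.free 2 [15,17,18,19,20,21,22])) (.leaf [4,6,8,9,5])) (.leaf [7,14,16])) (.free 1 [1,2,3]))), .t 10 (nat_lit 0x100810050a520a4f042e042c034a034802f0) (.z (.edon 0 16 (.edon 0 3 (.leaf [0,1,2]) (.edon 0 12 (.node 4 8 (.leaf [3,4,10,9,5]) (.leaf [6,7,11,8])) (.leaf [12,14,15,13]))) (.free 2 [16,17,18,19,20,21,22]))), .t 1 (nat_lit 0) (.cn 2 3), .t 12 (nat_lit 0x12ae12ab12a801830043000500040e9f0e9d12ba12b4) (.z (.node 6 16 (.node 0 10 (.node 0 14 (.node 0 20 (.leaf [0,21,22]) (.leaf [15,17,19,20,18])) (.leaf [11,14,13,12])) (.node 3 5 (.leaf [1,3,9,10,2]) (.leaf [4,5,6]))) (.free 1 [7,8,16]))), .t 9 (nat_lit 0x17600340004000112cb12421240123f) (.z (.node 6 16 (.node 0 9 (.edon 0 13 (.leaf [0,10,11,12]) (.edon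 15 20 (.leaf [15,17,19]) (.leaf [13,18,20,22,21]))) (.node 3 8 (.leaf [1,3,5,9,2]) (.leaf [4,6,8]))) (.free 1 [7,14,16]))), .t 9 (nat_lit 0x3dd03da125a125712cb12421240123f) (.z (.node 0 3 (.node 6 16 (.node 0 8 (.edon 0 13 (.leaf [0,9,10,12]) (.node 18 19 (.leaf [13,18,20,22,21]) (.leaf [14,17,19,15]))) (.leaf [4,6,8,5])) (.leaf [7,11,16])) (.free 1 [1,2,3]))), .t 1 (nat_lit 0) (.cn 2 3), .t 10 (nat_lit 0x100810050a520a4f042e034a0346031102f2) (.z (.edon 0 16 (.edon 0 3 (.leaf [0,1,2]) (.edon 0 12 (.node 4 8 (.leaf [3,4,5,10,9]) (.leaf [6,7,11,8])) (.leaf [12,14,15,13]))) (.free 2 [16,17,18,19,20,21,22]))), .t 1 (nat_lit 0) (.cn 2 3), .t 8 (nat_lit 0x3dd03da125a125712cb0da10d9f) (.z (.node 0 3 (.node 6 16 (.node 0 8 (.edon 0 14 (.leaf [0,9,10,12,13]) (.node 18 19 (.leaf [18,20,22,21]) (.leaf [14,17,19,15]))) (.leaf [4,6,8,5])) (.leaf [7,11,16])) (.free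 1 [1,2,3]))), .t 12 (nat_lit 0x12ae12ab12a801760034000400010e3c0e3a12ba12b4) (.z (.node 6 16 (.node 0 9 (.node 0 14 (.node 0 20 (.leaf [0,21,22]) (.leaf [15,17,19,20,18])) (.leaf [10,14,13,12])) (.node 3 8 (.leaf [1,3,5,9,2]) (.leaf [4,6,8]))) (.free 1 [7,11,16]))), .t 7 (nat_lit 0xc9a0c98121c121b10e510e3) (.z (.node 0 7 (.node 0 11 (.edon 14 19 (.leaf [12,16,17,14]) (.edon 19 21 (.leaf [19,20,22]) (.leaf [0,13,15,18,21]))) (.leaf [8,11,10,9])) (.free 2 [1,2,3,4,5,6,7]))), .t 7 (nat_lit 0x17900370007000112451244) (.z (.edon 0 20 (.node 0 12 (.node 13 17 (.leaf [0,13,18,19]) (.leaf [14,15,16,17])) (.node 5 9 (.leaf [1,3,5,12,2]) (.free 2 [4,6,7,8,9,10,11]))) (.free 1 [20,21,22]))), .t 7 (nat_lit 0x1760034000400010df80df6) (.z (.node 6 16 (.node 0 9 (.edon 0 14 (.leaf [0,10,11,12,13]) (.free 2 [14,17,18,19,20,21,22])) (.node 3 8 (.leaf [1,3,5,9,2])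 (.leaf [4,6,8]))) (.free 1 [7,15,16]))), .t 10 (nat_lit 0x10b810e510e310c210bf0c9a0c9811281127) (.z (.node 0 7 (.node 0 11 (.edon 14 19 (.leaf [12,15,16,17,14]) (.free 2 [0,13,18,19,20,21,22])) (.leaf [8,11,10,9])) (.free 2 [1,2,3,4,5,6,7]))), .t 9 (nat_lit 0x17600340004000112cb12a0129e129d) (.z (.node 6 16 (.node 0 9 (.edon 0 14 (.leaf [0,10,12,13]) (.edon 15 20 (.leaf [15,17,19]) (.leaf [14,18,20,22,21]))) (.node 3 8 (.leaf [1,3,5,9,2]) (.leaf [4,6,8]))) (.free 1 [7,11,16]))), .t 7 (nat_lit 0x1008100501d101d00a680a65) (.z (.edon 0 16 (.edon 0 12 (.node 2 4 (.edon 6 8 (.leaf [6,7,11,10]) (.leaf [0,2,5,8,9])) (.leaf [1,3,4])) (.leaf [12,14,15,13])) (.free 2 [16,17,18,19,20,21,22]))), .t 8 (nat_lit 0xa4b0a680a650a520a4f0aa30aa1) (.z (.edon 0 16 (.node 0 12 (.leaf [0,13,14,15]) (.node 4 8 (.free 2 [1,2,3,4,5,9,12]) (.leaf [6,7,11,10,8]))) (.free 2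 [16,17,18,19,20,21,22]))), .t 7 (nat_lit 0x17600340004000104c404bf) (.z (.node 6 16 (.node 0 10 (.edon 0 15 (.leaf [0,12,13,14]) (.free 2 [15,17,18,19,20,21,22])) (.edon 4 5 (.leaf [4,6,10,8]) (.leaf [1,3,5,9,2]))) (.free 1 [7,11,16]))), .t 7 (nat_lit 0xa700a6f0183004300050004) (.z (.edon 0 16 (.node 4 11 (.node 0 10 (.leaf [0,12,13,14]) (.node 3 5 (.leaf [1,3,9,10,2]) (.leaf [4,5,8]))) (.leaf [6,7,15,11])) (.free 2 [16,17,18,19,20,21,22]))), .t 12 (nat_lit 0x11b111ad11aa0176003400040001122e122b11cf11cd) (.z (.edon 0 20 (.node 6 16 (.node 0 9 (.edon 0 13 (.leaf [0,10,11,12]) (.leaf [13,17,19,18,14])) (.node 3 8 (.leaf [1,3,5,9,2]) (.leaf [4,6,8]))) (.leaf [7,15,16])) (.free 1 [20,21,22]))), .t 6 (nat_lit 0x17600340004000112cb) (.z (.node 4 19 (.node 0 10 (.edon 0 18 (.leaf [0,12,13,14]) (.leaf [18,20,22,21])) (.edon 4 5 (.leaf [4,8,10]) (.leaf [1,3,5,9,2])))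 (.free 2 [6,7,11,15,16,17,19]))), .t 7 (nat_lit 0x12cb12a0129e129d01d101d0) (.z (.node 4 19 (.edon 0 10 (.node 2 4 (.leaf [0,2,5,8,9]) (.leaf [1,3,4])) (.edon 0 14 (.leaf [10,12,13]) (.leaf [14,18,20,22,21]))) (.free 2 [6,7,11,15,16,17,19])))] (by decide +kernel) (by decide +kernel)
theorem b224 : B 7168 7200 := Blk.of_chk [.t 10 (nat_lit 0x111c111b11eb0fe20fe00f800f7e0f700f6e) (.z (.node 0 3 (.node 0 10 (.edon 13 19 (.leaf [11,16,17,15,13]) (.edon 19 21 (.leaf [19,20,22]) (.leaf [0,12,14,18,21]))) (.free 2 [4,5,6,7,8,9,10])) (.free 1 [1,2,3]))), .t 10 (nat_lit 0x12cb12a0129e129d03e3032c032a02fa02f0) (.z (.edon 0 3 (.free 1 [0,1,2]) (.edon 0 11 (.edon 7 9 (.leaf [7,8,10]) (.leaf [3,4,6,9,5])) (.node 14 19 (.leaf [14,18,20,22,21]) (.free 2 [11,12,13,15,16,17,19]))))), .t 15 (nat_lit 0x3da0408040503e303e011b111ad11aa04bb04b9122e122b11cf11cd) (.z (.node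 0 3 (.node 6 16 (.node 0 9 (.edon 0 13 (.leaf [0,10,11,12]) (.edon 0 20 (.leaf [13,17,19,18,14]) (.leaf [20,21,22]))) (.leaf [4,6,8,9,5])) (.leaf [7,15,16])) (.free 1 [1,2,3]))), .t 12 (nat_lit 0x120111fe12cb12a0129e129d03dd0326032502f902ef) (.z (.edon 0 3 (.free 1 [0,1,2]) (.node 6 16 (.edon 0 9 (.leaf [3,4,6,8,5]) (.edon 0 13 (.leaf [9,10,12]) (.node 18 19 (.leaf [14,18,20,22,21]) (.leaf [13,17,19,15])))) (.leaf [7,11,16])))), .t 13 (nat_lit 0x11eb0fe20fe00f800f7e0f700f6e042e042c034a034802f0) (.z (.edon 0 3 (.free 1 [0,1,2]) (.edon 0 11 (.node 4 8 (.leaf [3,4,10,9,5]) (.leaf [6,7,8])) (.edon 13 19 (.leaf [11,16,17,15,13]) (.free 2 [12,14,18,19,20,21,22]))))), .t 9 (nat_lit 0x11e503dd03da12ab12a812a0124211e8) (.z (.node 0 3 (.node 6 16 (.node 0 8 (.edon 0 13 (.leaf [0,9,10,12]) (.node 13 19 (.leaf [13,20,22,21,14]) (.leaf [15,17,19,18]))) (.leaf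 [4,6,8,5])) (.leaf [7,11,16])) (.free 1 [1,2,3]))), .t 16 (nat_lit 0x3da0408040503e303e004bb04b912ab122e122b1212120d120111ff12a0) (.z (.node 0 3 (.node 6 16 (.node 0 9 (.edon 0 13 (.leaf [0,10,12]) (.node 14 19 (.leaf [14,20,22,21]) (.leaf [13,15,17,19,18]))) (.leaf [4,6,8,9,5])) (.leaf [7,11,16])) (.free 1 [1,2,3]))), .t 14 (nat_lit 0x3da0408040503e303e011e504bb04b912aa12a912a0124211e8) (.z (.node 0 3 (.node 6 16 (.node 0 9 (.edon 0 13 (.leaf [0,10,12]) (.node 13 19 (.leaf [13,20,22,21,14]) (.leaf [15,18,19,17]))) (.leaf [4,6,8,9,5])) (.leaf [7,11,16])) (.free 1 [1,2,3]))), .t 12 (nat_lit 0x3da0408040503e303e011e504bb04b912a0124211e8) (.z (.node 0 3 (.node 6 16 (.node 0 9 (.edon 0 13 (.leaf [0,10,11,12]) (.node 13 19 (.leaf [13,20,22,21,14]) (.leaf [17,18,19]))) (.leaf [4,6,8,9,5])) (.leaf [7,15,16])) (.free 1 [1,2,3]))), .t 10 (nat_lit 0x11d311ce11cb0c9a0c98123b11e011281126)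 (.z (.node 0 7 (.node 0 11 (.node 0 20 (.leaf [0,21,22]) (.edon 15 19 (.leaf [12,16,17,15]) (.leaf [13,18,19,20,14]))) (.leaf [8,11,10,9])) (.free 2 [1,2,3,4,5,6,7]))), .t 9 (nat_lit 0x3dd03da1088108512cb12a0129e129d) (.z (.node 0 3 (.node 6 16 (.node 0 8 (.edon 0 12 (.leaf [0,9,10,11]) (.node 18 19 (.leaf [14,18,20,22,21]) (.leaf [12,17,19,13]))) (.leaf [4,6,8,5])) (.leaf [7,15,16])) (.free 1 [1,2,3]))), .t 7 (nat_lit 0x12cb12a0129e129d01d101d0) (.z (.node 4 19 (.edon 0 11 (.node 2 4 (.leaf [0,2,5,8,9]) (.leaf [1,3,4])) (.edon 0 14 (.leaf [11,12,13]) (.leaf [14,18,20,22,21]))) (.free 2 [6,7,10,15,16,17,19]))), .t 1 (nat_lit 0) (.cn 2 3), .t 1 (nat_lit 0) (.cn 2 3), .t 10 (nat_lit 0x12cb12a0129e129d042e042c034a034802f0) (.z (.edon 0 3 (.free 1 [0,1,2]) (.node 4 19 (.edon 0 11 (.leaf [3,4,10,9,5]) (.edon 0 14 (.leaf [11,12,13]) (.leaf [14,18,20,22,21])))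 (.free 2 [6,7,8,15,16,17,19])))), .t 13 (nat_lit 0x4b704e804e304c404bf05a705a5000112cb12a0129e129d) (.z (.node 6 16 (.node 0 10 (.edon 0 13 (.leaf [0,11,12]) (.node 18 19 (.leaf [14,18,20,22,21]) (.leaf [13,17,19]))) (.node 3 8 (.leaf [1,3,5,2]) (.leaf [4,6,10,9,8]))) (.free 1 [7,15,16]))), .t 10 (nat_lit 0x12cb12a0129e129d04090407033b033902ef) (.z (.edon 0 3 (.free 1 [0,1,2]) (.node 4 19 (.edon 0 14 (.edon 0 11 (.leaf [3,4,9,8,5]) (.leaf [11,12,13])) (.leaf [14,18,20,22,21])) (.free 2 [6,7,10,15,16,17,19])))), .t 1 (nat_lit 0) (.cn 2 3), .t 10 (nat_lit 0x11e512a0124211e804090407033b033902ef) (.z (.edon 0 3 (.free 1 [0,1,2]) (.node 4 19 (.edon 0 13 (.edon 0 10 (.leaf [3,4,9,8,5]) (.leaf [10,11,12])) (.leaf [13,20,22,21,14])) (.free 2 [6,7,15,16,17,18,19])))), .t 1 (nat_lit 0) (.cn 2 3), .t 7 (nat_lit 0x11e512a0124211e801d101d0) (.z (.node 4 19 (.edon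 0 10 (.node 2 4 (.leaf [0,2,5,8,9]) (.leaf [1,3,4])) (.edon 0 13 (.leaf [10,11,12]) (.leaf [13,20,22,21,14]))) (.free 2 [6,7,15,16,17,18,19]))), .t 1 (nat_lit 0) (.cn 2 3), .t 9 (nat_lit 0xa5f0a5e0a5b12a00ad90ad60a670a66) (.z (.node 2 4 (.edon 0 12 (.edon 6 8 (.leaf [6,7,10,11,9]) (.leaf [0,2,5,8])) (.node 14 19 (.leaf [14,20,22,21]) (.free 2 [12,13,15,16,17,18,19]))) (.free 1 [1,3,4]))), .t 1 (nat_lit 0) (.cn 2 3), .t 1 (nat_lit 0) (.cn 2 2), .t 10 (nat_lit 0x3e003dd03da04bc04b7040904070e9e0e9c) (.z (.node 0 3 (.node 6 16 (.node 0 9 (.edon 0 15 (.leaf [0,11,12,13,14]) (.free 2 [15,17,18,19,20,21,22])) (.leaf [4,6,9,8,5])) (.leaf [7,10,16])) (.free 1 [1,2,3]))), .t 9 (nat_lit 0x11e503dd03da12ab12a812a0124211e8) (.z (.node 0 3 (.node 6 16 (.node 0 8 (.edon 0 13 (.leaf [0,9,10,11]) (.node 13 19 (.leaf [13,20,22,21,14]) (.leaf [15,17,19,18]))) (.leaf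 [4,6,8,5])) (.leaf [7,12,16])) (.free 1 [1,2,3]))), .t 1 (nat_lit 0) (.cn 2 3), .t 1 (nat_lit 0) (.cn 2 2), .t 1 (nat_lit 0) (.cp 2 3), .t 9 (nat_lit 0xa470a5e0a5b0a4e0a4b12a00a830a81) (.z (.node 2 4 (.edon 0 12 (.node 5 8 (.leaf [0,2,5,11]) (.leaf [6,7,10,9,8])) (.node 14 19 (.leaf [14,20,22,21]) (.free 2 [12,13,15,16,17,18,19]))) (.free 1 [1,3,4]))), .t 9 (nat_lit 0x12a00a5e0a5b041704160342034102ef) (.z (.edon 0 3 (.free 1 [0,1,2]) (.edon 0 12 (.node 4 9 (.leaf [3,4,11,8,5]) (.leaf [6,7,10,9])) (.node 14 19 (.leaf [14,20,22,21]) (.free 2 [12,13,15,16,17,18,19])))))] (by decide +kernel) (by decide +kernel)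
theorem b225 : B 7200 7232 := Blk.of_chk [.t 8 (nat_lit 0x11212120d12a0116911251124) (.z (.edon 19 4 (.node 0 5 (.edon 0 12 (.leaf [0,8,11]) (.node 14 19 (.leaf [12,14,20,22,21]) (.leaf [13,15,19,18]))) (.leaf [1,3,5,2])) (.free 2 [4,6,7,9,10,16,17]))), .t 14 (nat_lit 0x3e003dd03da11e504bc04b70409040712ab12a812a0124211e8) (.z (.node 0 3 (.node 6 16 (.node 0 9 (.edon 0 13 (.leaf [0,11,12]) (.node 13 19 (.leaf [13,20,22,21,14]) (.leaf [15,17,19,18]))) (.leaf [4,6,9,8,5])) (.leaf [7,10,16])) (.free 1 [1,2,3]))), .t 14 (nat_lit 0x3da0408040503e303e011e504bb04b912ab12a812a0124211e8) (.z (.node 0 3 (.node 6 16 (.node 0 9 (.edon 0 13 (.leaf [0,11,12]) (.node 13 19 (.leaf [13,20,22,21,14]) (.leaf [15,17,19,18]))) (.leaf [4,6,8,9,5])) (.leaf [7,10,16])) (.free 1 [1,2,3]))), .t 7 (nat_lit 0x12cb12a0129e129d01e901e8) (.z (.node 4 19 (.edon 0 12 (.node 2 4 (.leaf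 [0,2,5,9,11]) (.leaf [1,3,4])) (.node 14 15 (.leaf [14,18,20,22,21]) (.leaf [12,13,15]))) (.free 2 [6,7,8,10,16,17,19]))), .t 9 (nat_lit 0x12a00a4e0a4b04350433034f034e02f0) (.z (.edon 0 3 (.free 1 [0,1,2]) (.edon 0 12 (.node 4 8 (.leaf [3,4,11,9,5]) (.leaf [6,7,10,8])) (.node 14 19 (.leaf [14,20,22,21]) (.free 2 [12,13,15,16,17,18,19]))))), .t 8 (nat_lit 0x11212120d12a0116911251124) (.z (.edon 19 4 (.node 0 5 (.edon 0 12 (.leaf [0,9,11]) (.node 14 19 (.leaf [12,14,20,22,21]) (.leaf [13,15,19,18]))) (.leaf [1,3,5,2])) (.free 2 [4,6,7,8,10,16,17]))), .t 12 (nat_lit 0x120111fe12cb12a0129e129d03dd0326032502f902ef) (.z (.edon 0 3 (.free 1 [0,1,2]) (.node 6 16 (.edon 0 9 (.leaf [3,4,6,8,5]) (.edon 0 13 (.leaf [9,11,12]) (.node 18 19 (.leaf [14,18,20,22,21]) (.leaf [13,17,19,15])))) (.leaf [7,10,16])))), .t 10 (nat_lit 0x3da0408040503e303e004bb04b90e9e0e9c)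 (.z (.node 0 3 (.node 6 16 (.node 0 9 (.edon 0 15 (.leaf [0,11,12,13,14]) (.free 2 [15,17,18,19,20,21,22])) (.leaf [4,6,8,9,5])) (.leaf [7,10,16])) (.free 1 [1,2,3]))), .t 1 (nat_lit 0) (.cn 2 3), .t 7 (nat_lit 0x124210030fa40fa3088a0889) (.z (.node 2 4 (.edon 0 11 (.node 2 8 (.leaf [0,2,9,10]) (.leaf [5,6,7,8])) (.edon 14 20 (.free 2 [12,14,15,16,17,18,19]) (.leaf [11,13,20,22,21]))) (.free 1 [1,3,4]))), .t 14 (nat_lit 0x12ae12ab12a800010a8305a705a204e804e304c304c112ba12b4) (.z (.node 6 16 (.node 0 10 (.node 0 14 (.node 0 20 (.leaf [0,21,22]) (.leaf [15,17,19,20,18])) (.leaf [11,13,14])) (.edon 4 5 (.leaf [4,6,8,10,9]) (.leaf [1,3,5,2]))) (.free 1 [7,12,16]))), .t 10 (nat_lit 0xa4b0a6a0a690a540a530aaa0aa801e901e8) (.z (.edon 0 13 (.node 4 10 (.node 2 4 (.leaf [0,2,5,9,11]) (.leaf [1,3,4])) (.leaf [6,7,12,10,8])) (.free 3 [13,14,15,16,17,18,19,20,21,22]))),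 .t 12 (nat_lit 0x1137113412cb12a0129e129d03dd0326032502f902ef) (.z (.edon 0 3 (.free 1 [0,1,2]) (.node 6 16 (.edon 0 9 (.leaf [3,4,6,8,5]) (.edon 12 13 (.node 18 19 (.leaf [14,18,20,22,21]) (.leaf [12,17,19,15])) (.leaf [9,11,13]))) (.leaf [7,10,16])))), .t 10 (nat_lit 0x11d311ce11cb0c990c96123b11e011281126) (.z (.node 0 7 (.node 0 11 (.node 0 20 (.leaf [0,21,22]) (.edon 15 19 (.leaf [12,16,17,15]) (.leaf [13,18,19,20,14]))) (.leaf [8,10,11,9])) (.free 2 [1,2,3,4,5,6,7]))), .t 9 (nat_lit 0x3dd03da12ab12a812a0124211e811e7) (.z (.node 0 3 (.node 6 16 (.node 0 8 (.edon 0 13 (.leaf [0,9,10,11]) (.node 13 19 (.leaf [13,14,20,22,21]) (.leaf [15,17,19,18]))) (.leaf [4,6,8,5])) (.leaf [7,12,16])) (.free 1 [1,2,3]))), .t 7 (nat_lit 0x100910070a4e0a4b01e901e8) (.z (.edon 0 16 (.edon 0 12 (.node 4 8 (.node 2 4 (.leaf [0,2,5,9,11]) (.leaf [1,3,4])) (.leaf [6,7,10,8]))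 (.leaf [12,15,14,13])) (.free 2 [16,17,18,19,20,21,22]))), .t 7 (nat_lit 0x17600340004000112a412a1) (.z (.edon 21 19 (.node 0 12 (.edon 15 21 (.leaf [15,16,18,17]) (.leaf [0,13,14,21])) (.edon 4 9 (.free 2 [4,6,7,8,10,11,12]) (.leaf [1,3,5,9,2]))) (.free 1 [19,20,22]))), .t 9 (nat_lit 0x3dd03da12aa12a912a0124211e811e7) (.z (.node 0 3 (.node 6 16 (.node 0 8 (.edon 0 13 (.leaf [0,9,10,11]) (.node 13 19 (.leaf [13,14,20,22,21]) (.leaf [15,18,19,17]))) (.leaf [4,6,8,5])) (.leaf [7,12,16])) (.free 1 [1,2,3]))), .t 14 (nat_lit 0x12af12aa12a900010a8305a705a204e804e304c304c112ba12b4) (.z (.node 6 16 (.node 0 10 (.node 0 14 (.node 0 20 (.leaf [0,21,22]) (.leaf [15,18,19,20,17])) (.leaf [11,13,14])) (.edon 4 5 (.leaf [4,6,8,10,9]) (.leaf [1,3,5,2]))) (.free 1 [7,12,16]))), .t 10 (nat_lit 0xc990c9611ef112b11291077107510551053) (.z (.node 0 7 (.node 0 11 (.edon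 13 19 (.leaf [12,16,18,15,13]) (.free 2 [0,14,17,19,20,21,22])) (.leaf [8,10,11,9])) (.free 2 [1,2,3,4,5,6,7]))), .t 9 (nat_lit 0x3dd03da1211120e12c912a012991298) (.z (.node 0 3 (.node 6 16 (.node 0 8 (.edon 0 13 (.leaf [0,9,10,11]) (.node 17 19 (.leaf [14,17,20,22,21]) (.leaf [13,18,19,15]))) (.leaf [4,6,8,5])) (.leaf [7,12,16])) (.free 1 [1,2,3]))), .t 7 (nat_lit 0x12a010030fdf0fde0b980b96) (.z (.edon 0 7 (.free 2 [0,1,2,3,4,5,6]) (.edon 0 11 (.leaf [7,10,9,8]) (.node 14 19 (.leaf [11,14,20,22,21]) (.free 2 [12,13,15,16,17,18,19]))))), .t 6 (nat_lit 0x12a001e901e80a4e0a4b) (.z (.node 2 4 (.edon 0 12 (.edon 6 9 (.leaf [6,7,10,8]) (.leaf [0,2,5,9,11])) (.node 14 19 (.leaf [14,20,22,21]) (.free 2 [12,13,15,16,17,18,19]))) (.free 1 [1,3,4]))), .t 1 (nat_lit 0) (.cn 2 3), .t 12 (nat_lit 0x3da0408040503e303e004bb04b912c912a012991298) (.z (.node 0 3 (.node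 6 16 (.node 0 9 (.edon 0 14 (.leaf [0,11,12,13]) (.edon 15 20 (.leaf [15,18,19]) (.leaf [14,17,20,22,21]))) (.leaf [4,6,8,9,5])) (.leaf [7,10,16])) (.free 1 [1,2,3]))), .t 1 (nat_lit 0) (.cn 2 3), .t 10 (nat_lit 0xc990c961294123411e011bd11bb112b1129) (.z (.node 0 7 (.node 0 11 (.node 0 20 (.leaf [0,21,22]) (.edon 15 19 (.leaf [12,16,18,15]) (.leaf [13,19,20,17,14]))) (.leaf [8,10,11,9])) (.free 2 [1,2,3,4,5,6,7]))), .t 9 (nat_lit 0x12c90c990bdd0bda0bb00bad0ba00b9e) (.z (.edon 0 7 (.free 2 [0,1,2,3,4,5,6]) (.edon 0 12 (.leaf [7,10,11,9,8]) (.node 17 19 (.leaf [17,20,22,21]) (.free 2 [12,13,14,15,16,18,19]))))), .t 6 (nat_lit 0x12c90a5e0a5b01d701d6) (.z (.node 2 4 (.edon 0 12 (.node 8 9 (.leaf [0,2,5,8,11]) (.leaf [6,7,10,9])) (.node 17 19 (.leaf [17,20,22,21]) (.free 2 [12,13,14,15,16,18,19]))) (.free 1 [1,3,4]))), .t 15 (nat_lit 0xa550a540a530ac70ac60a720a71096806560653044f044c04350433)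 (.z (.edon 0 16 (.node 0 13 (.leaf [0,14,15]) (.node 4 8 (.edon 0 4 (.leaf [1,2,3]) (.leaf [4,10,11,9,5])) (.leaf [6,7,12,13,8]))) (.free 2 [16,17,18,19,20,21,22]))), .t 7 (nat_lit 0xc990c961265126410771075) (.z (.node 0 7 (.node 0 11 (.edon 13 19 (.leaf [12,16,18,13]) (.edon 19 21 (.leaf [19,20,22]) (.leaf [0,14,15,17,21]))) (.leaf [8,10,11,9])) (.free 2 [1,2,3,4,5,6,7]))), .t 1 (nat_lit 0) (.fa 3)] (by decide +kernel) (by decide +kernel)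
theorem b226 : B 7232 7264 := Blk.of_chk [.t 1 (nat_lit 0) (.cn 3 2), .t 6 (nat_lit 0x12c901e901e80a4e0a4b) (.z (.node 2 4 (.edon 0 12 (.edon 6 9 (.leaf [6,7,10,8]) (.leaf [0,2,5,9,11])) (.node 17 19 (.leaf [17,20,22,21]) (.free 2 [12,13,14,15,16,18,19]))) (.free 1 [1,3,4]))), .t 6 (nat_lit 0x12c9088a088902770275) (.z (.node 2 4 (.edon 0 12 (.node 2 8 (.leaf [0,2,9,10,11]) (.leaf [5,6,7,8])) (.node 17 19 (.leaf [17,20,22,21]) (.free 2 [12,13,14,15,16,18,19]))) (.free 1 [1,3,4]))), .t 9 (nat_lit 0x1050104510400006112b112910771076) (.z (.edon 21 19 (.node 0 11 (.node 14 18 (.leaf [0,14,17,21]) (.leaf [12,13,16,18,15])) (.edon 4 11 (.free 2 [4,5,6,7,8,9,10]) (.leaf [1,3,11,2]))) (.free 1 [19,20,22]))), .t 7 (nat_lit 0x116f116d0178003600060001) (.z (.node 16 0 (.edon 0 13 (.edon 4 5 (.free 2 [4,6,7,8,9,10,12]) (.leaf [1,3,5,11,2])) (.leaf [13,16,15,14]))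 (.free 2 [0,17,18,19,20,21,22]))), .t 9 (nat_lit 0x3dd03da1146114312c912a012991298) (.z (.node 0 3 (.node 6 16 (.node 0 8 (.edon 0 12 (.leaf [0,9,10,11]) (.node 17 19 (.leaf [14,17,20,22,21]) (.leaf [12,18,19,15]))) (.leaf [4,6,8,5])) (.leaf [7,13,16])) (.free 1 [1,2,3]))), .t 9 (nat_lit 0x3dd03da1137113412cb12a0129e129d) (.z (.node 0 3 (.node 6 16 (.node 0 8 (.edon 0 12 (.leaf [0,9,10,11]) (.node 18 19 (.leaf [14,18,20,22,21]) (.leaf [12,17,19,15]))) (.leaf [4,6,8,5])) (.leaf [7,13,16])) (.free 1 [1,2,3]))), .t 6 (nat_lit 0x12c90a4a0a4701fc01fb) (.z (.node 2 4 (.edon 0 12 (.node 5 9 (.leaf [0,2,5,10,11]) (.leaf [6,7,9,8])) (.node 17 19 (.leaf [17,20,22,21]) (.free 2 [12,13,14,15,16,18,19]))) (.free 1 [1,3,4]))), .t 12 (nat_lit 0x11fd11fa11f6122d122c1211120f12a00d890d8702ee) (.z (.edon 0 3 (.free 1 [0,1,2]) (.node 6 16 (.edon 0 9 (.leaf [3,4,6,5])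 (.edon 0 13 (.leaf [9,12,11,10]) (.node 14 19 (.leaf [14,20,22,21]) (.leaf [13,15,18,19,17])))) (.leaf [7,8,16])))), .t 6 (nat_lit 0x112c912a012991298) (.z (.edon 19 4 (.node 0 5 (.edon 0 13 (.leaf [0,9,10,11]) (.node 17 19 (.leaf [14,17,20,22,21]) (.leaf [13,15,19]))) (.leaf [1,3,5,2])) (.free 2 [4,6,7,8,12,16,18]))), .t 15 (nat_lit 0x3e703e303e012561254125004e804e3042e042c12891286126c126a) (.z (.node 0 3 (.node 6 16 (.node 0 10 (.edon 0 14 (.leaf [0,11,12,13]) (.edon 0 20 (.leaf [14,15,18,19,17]) (.leaf [20,21,22]))) (.leaf [4,6,10,9,5])) (.leaf [7,8,16])) (.free 1 [1,2,3]))), .t 10 (nat_lit 0x3e703e303e004e804e3042e042c0e9e0e9c) (.z (.node 0 3 (.node 6 16 (.node 0 10 (.edon 0 15 (.leaf [0,11,12,13,14]) (.free 2 [15,17,18,19,20,21,22])) (.leaf [4,6,10,9,5])) (.leaf [7,8,16])) (.free 1 [1,2,3]))), .t 12 (nat_lit 0x3e703e303e004e804e3042e042c12cb12a0129e129d)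 (.z (.node 0 3 (.node 6 16 (.node 0 10 (.edon 0 14 (.leaf [0,11,12,13]) (.edon 15 20 (.leaf [15,17,19]) (.leaf [14,18,20,22,21]))) (.leaf [4,6,10,9,5])) (.leaf [7,8,16])) (.free 1 [1,2,3]))), .t 9 (nat_lit 0xb930bb10bac0ba00b9b12a00bde0bdc) (.z (.edon 0 7 (.free 2 [0,1,2,3,4,5,6]) (.edon 0 12 (.leaf [7,8,11,10,9]) (.node 14 19 (.leaf [14,20,22,21]) (.free 2 [12,13,15,16,17,18,19]))))), .t 6 (nat_lit 0x12a00a4a0a4701fc01fb) (.z (.node 2 4 (.edon 0 12 (.node 5 9 (.leaf [0,2,5,10,11]) (.leaf [6,7,9,8])) (.node 14 19 (.leaf [14,20,22,21]) (.free 2 [12,13,15,16,17,18,19]))) (.free 1 [1,3,4]))), .t 6 (nat_lit 0x11690a4a0a4701fc01fb) (.z (.node 2 4 (.edon 0 12 (.node 5 9 (.leaf [0,2,5,10,11]) (.leaf [6,7,9,8])) (.node 12 19 (.leaf [12,20,22,21]) (.free 2 [13,14,15,16,17,18,19]))) (.free 1 [1,3,4]))), .t 9 (nat_lit 0x3dd03da12ab12a812a0116911251124) (.z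 (.node 0 3 (.node 6 16 (.node 0 8 (.edon 0 12 (.leaf [0,9,10,11]) (.node 14 19 (.leaf [12,14,20,22,21]) (.leaf [15,17,19,18]))) (.leaf [4,6,8,5])) (.leaf [7,13,16])) (.free 1 [1,2,3]))), .t 14 (nat_lit 0x3da0408040503e303e011e504bb04b912aa12a912a0124211e8) (.z (.node 0 3 (.node 6 16 (.node 0 9 (.edon 0 13 (.leaf [0,11,12]) (.node 13 19 (.leaf [13,20,22,21,14]) (.leaf [15,18,19,17]))) (.leaf [4,6,8,9,5])) (.leaf [7,10,16])) (.free 1 [1,2,3]))), .t 10 (nat_lit 0xa470a5e0a5b0a4e0a4b100910040a830a81) (.z (.edon 0 16 (.edon 0 12 (.node 2 4 (.node 5 9 (.leaf [0,2,5,11]) (.leaf [6,7,10,9,8])) (.leaf [1,3,4])) (.leaf [12,13,15,14])) (.free 2 [16,17,18,19,20,21,22]))), .t 10 (nat_lit 0x1114110f110c0c990c961163111f11eb11e9) (.z (.node 0 7 (.node 0 11 (.node 0 20 (.leaf [0,21,22]) (.edon 15 19 (.leaf [13,16,17,15]) (.leaf [12,18,19,20,14]))) (.leaf [8,10,11,9]))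 (.free 2 [1,2,3,4,5,6,7]))), .t 1 (nat_lit 0) (.cn 2 3), .t 10 (nat_lit 0x100910040a4e0a4b04350433034f034e02f0) (.z (.edon 0 16 (.edon 0 3 (.leaf [0,1,2]) (.edon 0 12 (.node 4 10 (.leaf [3,4,11,9,5]) (.leaf [6,7,10,8])) (.leaf [12,13,15,14]))) (.free 2 [16,17,18,19,20,21,22]))), .t 8 (nat_lit 0x12cb12a0129e129d000104c404bf) (.z (.node 6 16 (.edon 0 14 (.node 9 10 (.leaf [0,9,11,12]) (.edon 4 5 (.leaf [4,6,10,8]) (.leaf [1,3,5,2]))) (.edon 15 20 (.leaf [15,17,19]) (.leaf [14,18,20,22,21]))) (.free 1 [7,13,16]))), .t 7 (nat_lit 0x12cb12a0129e129d0d600d5f) (.z (.node 0 7 (.edon 8 19 (.leaf [8,13,16,17]) (.edon 0 12 (.leaf [0,9,10,11]) (.node 18 19 (.leaf [14,18,20,22,21]) (.leaf [12,15,19])))) (.free 2 [1,2,3,4,5,6,7]))), .t 7 (nat_lit 0x100910040a4e0a4b01e901e8) (.z (.edon 0 16 (.edon 0 12 (.node 2 4 (.node 5 10 (.leaf [0,2,5,9,11]) (.leaf [6,7,10,8]))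 (.leaf [1,3,4])) (.leaf [12,13,15,14])) (.free 2 [16,17,18,19,20,21,22]))), .t 7 (nat_lit 0x17600340004000112761275) (.z (.edon 19 4 (.node 0 9 (.node 0 13 (.edon 19 21 (.leaf [19,20,22]) (.leaf [0,14,15,18,21])) (.leaf [11,12,13])) (.leaf [1,3,5,9,2])) (.free 2 [4,6,7,8,10,16,17]))), .t 12 (nat_lit 0x3e703e303e004e804e3042e042c12c912a012991298) (.z (.node 0 3 (.node 6 16 (.node 0 10 (.edon 0 14 (.leaf [0,11,12,13]) (.edon 15 20 (.leaf [15,18,19]) (.leaf [14,17,20,22,21]))) (.leaf [4,6,10,9,5])) (.leaf [7,8,16])) (.free 1 [1,2,3]))), .t 14 (nat_lit 0x3e703e303e011e504e804e3042e042c12aa12a912a0124211e8) (.z (.node 0 3 (.node 6 16 (.node 0 10 (.edon 0 13 (.leaf [0,11,12]) (.node 13 19 (.leaf [13,20,22,21,14]) (.leaf [15,18,19,17]))) (.leaf [4,6,10,9,5])) (.leaf [7,8,16])) (.free 1 [1,2,3]))), .t 10 (nat_lit 0x12cb12a0129e129d04350433034f034e02f0) (.z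 (.edon 0 3 (.free 1 [0,1,2]) (.node 4 19 (.edon 0 12 (.leaf [3,4,11,9,5]) (.node 14 15 (.leaf [14,18,20,22,21]) (.leaf [12,13,15]))) (.free 2 [6,7,8,10,16,17,19])))), .t 14 (nat_lit 0x3e703e303e004e804e3042e042c120111fe12cb12a0129e129d) (.z (.node 0 3 (.node 6 16 (.node 0 10 (.edon 0 13 (.leaf [0,11,12]) (.node 18 19 (.leaf [14,18,20,22,21]) (.leaf [13,17,19,15]))) (.leaf [4,6,10,9,5])) (.leaf [7,8,16])) (.free 1 [1,2,3]))), .t 14 (nat_lit 0x3e703e303e011e504e804e3042e042c12ab12a812a0124211e8) (.z (.node 0 3 (.node 6 16 (.node 0 10 (.edon 0 13 (.leaf [0,11,12]) (.node 13 19 (.leaf [13,20,22,21,14]) (.leaf [15,17,19,18]))) (.leaf [4,6,10,9,5])) (.leaf [7,8,16])) (.free 1 [1,2,3]))), .t 16 (nat_lit 0x3da117b0408040503e303e011ce11cb1186118304bb04b91211120f12c9) (.z (.node 0 3 (.node 6 16 (.node 0 9 (.edon 0 13 (.leaf [0,11,12]) (.node 17 19 (.leaf [17,20,22,21])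 (.leaf [13,15,18,19,14]))) (.leaf [4,6,8,9,5])) (.leaf [7,10,16])) (.free 1 [1,2,3])))] (by decide +kernel) (by decide +kernel)
theorem b227 : B 7264 7296 := Blk.of_chk [.t 7 (nat_lit 0xc990c961105110411ef11ed) (.z (.node 0 7 (.node 0 11 (.edon 13 19 (.leaf [13,16,18,15]) (.edon 19 21 (.leaf [19,20,22]) (.leaf [0,12,14,17,21]))) (.leaf [8,10,11,9])) (.free 2 [1,2,3,4,5,6,7]))), .t 16 (nat_lit 0x3da0408040503e303e004bb04b9126c1211120e11ce11cb1187118512c9) (.z (.node 0 3 (.node 6 16 (.node 0 9 (.edon 0 13 (.leaf [0,11,12]) (.node 17 19 (.leaf [17,20,22,21]) (.leaf [13,18,19,15,14]))) (.leaf [4,6,8,9,5])) (.leaf [7,10,16])) (.free 1 [1,2,3]))), .t 16 (nat_lit 0x3e703e303e004e804e3042e042c126c1211120e11ce11cb1187118512c9) (.z (.node 0 3 (.node 6 16 (.node 0 10 (.edon 0 13 (.leaf [0,11,12]) (.node 17 19 (.leaf [17,20,22,21]) (.leaf [13,18,19,15,14])))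 (.leaf [4,6,10,9,5])) (.leaf [7,8,16])) (.free 1 [1,2,3]))), .t 9 (nat_lit 0x6124911ef11ed11a1119f117f117d) (.z (.edon 21 19 (.node 0 11 (.edon 14 17 (.leaf [13,16,18,15,14]) (.leaf [0,12,17,21])) (.edon 4 11 (.free 2 [4,5,6,7,8,9,10]) (.leaf [1,3,11,2]))) (.free 1 [19,20,22]))), .t 6 (nat_lit 0x611ef11ed11051104) (.z (.edon 21 19 (.node 0 11 (.node 14 18 (.leaf [0,12,14,17,21]) (.leaf [13,16,18,15])) (.edon 4 11 (.free 2 [4,5,6,7,8,9,10]) (.leaf [1,3,11,2]))) (.free 1 [19,20,22]))), .t 15 (nat_lit 0x12561254125012891286126c126a0df90df703e3032c032a02fa02f0) (.z (.edon 0 3 (.free 1 [0,1,2]) (.node 6 16 (.edon 0 10 (.leaf [3,4,6,9,5]) (.edon 0 14 (.leaf [10,13,12,11]) (.edon 0 20 (.leaf [14,15,18,19,17]) (.leaf [20,21,22])))) (.leaf [7,8,16])))), .t 15 (nat_lit 0x12aa12891286126c1269125b12590d890d8403dd0326032502f902ef) (.z (.edon 0 3 (.free 1 [0,1,2])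 (.node 6 16 (.edon 0 9 (.leaf [3,4,6,8,5]) (.edon 0 14 (.leaf [9,10,12,11]) (.edon 0 20 (.leaf [14,18,19,17,15]) (.leaf [20,21,22])))) (.leaf [7,13,16])))), .t 9 (nat_lit 0x1124511eb11e9119d119b11771175) (.z (.edon 0 20 (.node 0 11 (.edon 15 19 (.leaf [13,16,17,15,14]) (.leaf [0,12,18,19])) (.edon 4 5 (.free 2 [4,6,7,8,9,10,11]) (.leaf [1,3,5,2]))) (.free 1 [20,21,22]))), .t 9 (nat_lit 0x1124511eb11e9119d119b11771175) (.z (.edon 21 19 (.node 0 11 (.node 12 17 (.leaf [0,12,18,21]) (.leaf [13,16,17,15,14])) (.edon 4 5 (.free 2 [4,6,7,8,9,10,11]) (.leaf [1,3,5,2]))) (.free 1 [19,20,22]))), .t 16 (nat_lit 0x3e703e303e004e804e3042e042c12cb125a120111fe11b411b111871185) (.z (.node 0 3 (.node 6 16 (.node 0 10 (.edon 0 13 (.leaf [0,11,12]) (.edon 15 20 (.leaf [13,17,19,15,14]) (.leaf [18,20,22,21]))) (.leaf [4,6,10,9,5])) (.leaf [7,8,16])) (.free 1 [1,2,3]))),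 .t 6 (nat_lit 0x1119d119b114e114d) (.z (.edon 21 19 (.node 0 11 (.node 12 17 (.leaf [0,12,15,18,21]) (.leaf [13,16,17,14])) (.edon 4 5 (.free 2 [4,6,7,8,9,10,11]) (.leaf [1,3,5,2]))) (.free 1 [19,20,22]))), .t 9 (nat_lit 0x119b11ad11aa11a1119f000612281227) (.z (.edon 21 19 (.node 0 11 (.node 15 18 (.leaf [0,12,15,21]) (.leaf [13,16,17,18,14])) (.edon 4 11 (.free 2 [4,5,6,7,8,9,10]) (.leaf [1,3,11,2]))) (.free 1 [19,20,22]))), .t 14 (nat_lit 0x12c9126c1211120e11ce11cb1187118503dd0326032502f902ef) (.z (.edon 0 3 (.free 1 [0,1,2]) (.node 6 16 (.edon 0 13 (.edon 0 9 (.leaf [3,4,6,8,5]) (.leaf [9,11,12])) (.edon 15 20 (.leaf [13,18,19,15,14]) (.leaf [17,20,22,21]))) (.leaf [7,10,16])))), .t 14 (nat_lit 0x12cb125a120111fe11b411b11187118503dd0326032502f902ef) (.z (.edon 0 3 (.free 1 [0,1,2]) (.node 6 16 (.edon 0 9 (.leaf [3,4,6,8,5]) (.edon 0 13 (.leaf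 [9,11,12]) (.edon 15 20 (.leaf [13,17,19,15,14]) (.leaf [18,20,22,21])))) (.leaf [7,10,16])))), .t 6 (nat_lit 0x61105110411ef11ed) (.z (.edon 21 19 (.node 0 11 (.edon 13 17 (.leaf [13,16,18,15]) (.leaf [0,12,14,17,21])) (.edon 4 11 (.free 2 [4,5,6,7,8,9,10]) (.leaf [1,3,11,2]))) (.free 1 [19,20,22]))), .t 6 (nat_lit 0x41105110411ef11ed) (.z (.edon 21 19 (.node 0 11 (.edon 13 17 (.leaf [13,16,18,15]) (.leaf [0,12,14,17,21])) (.edon 4 9 (.free 2 [4,5,6,7,8,10,11]) (.leaf [1,3,9,2]))) (.free 1 [19,20,22]))), .t 6 (nat_lit 0x410f810f611ef11ed) (.z (.edon 0 20 (.node 0 11 (.edon 15 19 (.leaf [13,16,18,15]) (.leaf [0,12,14,17,19])) (.edon 4 9 (.free 2 [4,5,6,7,8,10,11]) (.leaf [1,3,9,2]))) (.free 1 [20,21,22]))), .t 9 (nat_lit 0x119b11ad11aa11a1119f000412281227) (.z (.edon 21 19 (.node 0 11 (.node 15 18 (.leaf [0,12,15,21]) (.leaf [13,16,17,18,14])) (.edon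 4 9 (.free 2 [4,5,6,7,8,10,11]) (.leaf [1,3,9,2]))) (.free 1 [19,20,22]))), .t 13 (nat_lit 0x17600340004000112cb125a120111fe11b411b111871185) (.z (.node 6 16 (.node 0 10 (.edon 0 13 (.leaf [0,11,12]) (.edon 15 20 (.leaf [13,17,19,15,14]) (.leaf [18,20,22,21]))) (.edon 4 5 (.leaf [4,6,10]) (.leaf [1,3,5,9,2]))) (.free 1 [7,8,16]))), .t 9 (nat_lit 0x88f12cb0a4d0a4c08cc08cb088a0889) (.z (.node 0 3 (.edon 0 12 (.node 4 10 (.leaf [0,4,9,11]) (.leaf [5,6,7,8,10])) (.node 18 19 (.leaf [18,20,22,21]) (.free 2 [12,13,14,15,16,17,19]))) (.free 1 [1,2,3]))), .t 6 (nat_lit 0x12cb088a088902770275) (.z (.node 2 4 (.edon 0 12 (.node 2 8 (.leaf [0,2,9,10,11]) (.leaf [5,6,7,8])) (.node 18 19 (.leaf [18,20,22,21]) (.free 2 [12,13,14,15,16,17,19]))) (.free 1 [1,3,4]))), .t 6 (nat_lit 0x12cb0a4e0a4b04340432) (.z (.node 0 3 (.edon 0 12 (.node 4 8 (.leaf [0,4,5,9,11])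 (.leaf [6,7,10,8])) (.node 18 19 (.leaf [18,20,22,21]) (.free 2 [12,13,14,15,16,17,19]))) (.free 1 [1,2,3]))), .t 9 (nat_lit 0x12ae12ab12a81010100d12ba12b40006) (.z (.node 20 0 (.edon 0 12 (.edon 4 11 (.free 2 [4,5,6,7,8,9,10]) (.leaf [1,3,11,2])) (.node 15 16 (.leaf [15,17,19,20,18]) (.leaf [12,14,16,13]))) (.free 1 [0,21,22]))), .t 8 (nat_lit 0xb980a830a7e0a5e0a5b0a4d0a4c) (.z (.edon 0 16 (.node 0 12 (.leaf [0,13,14,15]) (.node 4 9 (.free 2 [1,2,3,4,5,11,12]) (.leaf [6,7,8,10,9]))) (.free 2 [16,17,18,19,20,21,22]))), .t 5 (nat_lit 0x185004400060004) (.z (.edon 0 16 (.node 0 12 (.leaf [0,13,14,15]) (.edon 4 9 (.free 2 [4,5,6,7,8,10,12]) (.leaf [1,3,9,11,2]))) (.free 2 [16,17,18,19,20,21,22]))), .t 7 (nat_lit 0x18500440006000412a312a2) (.z (.edon 21 19 (.node 0 12 (.edon 15 21 (.leaf [15,16,17,18]) (.leaf [0,13,14,21])) (.edon 4 9 (.free 2 [4,5,6,7,8,10,12])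 (.leaf [1,3,9,11,2]))) (.free 1 [19,20,22]))), .t 10 (nat_lit 0xc9a0c9812ba123b121f1219121710e510e3) (.z (.node 0 7 (.node 0 11 (.node 0 20 (.leaf [0,21,22]) (.edon 14 19 (.leaf [12,16,17,14]) (.leaf [13,19,20,18,15]))) (.leaf [8,11,10,9])) (.free 2 [1,2,3,4,5,6,7]))), .t 10 (nat_lit 0x1009100708d108ce04e803770372031102fc) (.z (.edon 0 16 (.edon 0 3 (.leaf [0,1,2]) (.edon 0 12 (.node 4 8 (.leaf [3,4,6,10,9]) (.leaf [5,7,11,8])) (.leaf [12,15,14,13]))) (.free 2 [16,17,18,19,20,21,22]))), .t 12 (nat_lit 0x3de03d912ab128a1285126d1268125a12580da10d9f) (.z (.node 0 3 (.node 5 16 (.node 0 8 (.edon 0 14 (.leaf [0,9,10,12,13]) (.edon 0 20 (.leaf [14,15,17,19,18]) (.leaf [20,21,22]))) (.leaf [4,5,8,6])) (.leaf [7,11,16])) (.free 1 [1,2,3]))), .t 9 (nat_lit 0x17b00390004000211dd11db11281126) (.z (.edon 12 4 (.node 0 11 (.edon 15 19 (.leaf [12,16,17,15]) (.edon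 19 21 (.leaf [19,20,22]) (.leaf [0,13,14,18,21]))) (.edon 8 9 (.leaf [8,10,11]) (.leaf [1,3,6,9,2]))) (.free 1 [4,5,7]))), .t 1 (nat_lit 0) (.cn 2 3), .t 10 (nat_lit 0x1270126d1268017b003900040002129a1279) (.z (.edon 19 4 (.node 0 12 (.node 0 20 (.leaf [0,21,22]) (.leaf [14,15,19,20,18])) (.edon 8 9 (.leaf [8,11,12]) (.leaf [1,3,6,9,2]))) (.free 2 [4,5,7,10,13,16,17])))] (by decide +kernel) (by decide +kernel)

end Pool.Agent.GCP.F7
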