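import Pool.Agent.GCP.F7Db

set_option autoImplicit false
set_option maxRecDepth 100000

/-! # Blocks F7B13 (generated) -/

namespace Pool.Agent.GCP.F7

open Pool.Agent.GCP DB

theorem b228 : B 7296 7328 := Blk.of_chk [.t 8 (nat_lit 0xcab0c990c960d010cff0cc80cc6) (.z (.node 0 7 (.node 12 16 (.edon 0 15 (.leaf [0,12,13,14]) (.free 2 [15,17,18,19,20,21,22])) (.leaf [8,10,16,11,9])) (.free 2 [1,2,3,4,5,6,7]))), .t 9 (nat_lit 0x1004104510401011100c10bc10ba0004) (.z (.node 16 0 (.edon 0 12 (.edon 4 9 (.free 2 [4,5,6,7,8,10,11]) (.leaf [1,3,9,2])) (.leaf [12,13,16,15,14])) (.free 2 [0,17,18,19,20,21,22]))), .t 6 (nat_lit 0x61073107212761275) (.z (.edon 21 19 (.node 0 11 (.node 15 17 (.leaf [0,14,15,18,21]) (.leaf [12,13,16,17])) (.node 3 9 (.leaf [1,3,11,2]) (.free 2 [4,5,6,7,8,9,10]))) (.free 1 [19,20,22]))), .t 6 (nat_lit 0x41073107212761275) (.z (.edon 21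 19 (.node 0 11 (.node 15 17 (.leaf [0,14,15,18,21]) (.leaf [12,13,16,17])) (.edon 4 9 (.free 2 [4,5,6,7,8,10,11]) (.leaf [1,3,9,2]))) (.free 1 [19,20,22]))), .t 7 (nat_lit 0x17b0039000400020e120e10) (.z (.node 5 16 (.node 0 9 (.edon 0 15 (.leaf [0,10,11,13,14]) (.free 2 [15,17,18,19,20,21,22])) (.node 3 8 (.leaf [1,3,6,9,2]) (.leaf [4,5,8]))) (.free 1 [7,12,16]))), .t 9 (nat_lit 0x3e603de03d904c304c00410040e0004) (.z (.node 5 16 (.node 0 10 (.edon 0 15 (.leaf [0,11,13,14]) (.free 2 [15,17,18,19,20,21,22])) (.node 3 6 (.leaf [1,3,9,2]) (.leaf [4,5,8,10,6]))) (.free 1 [7,12,16]))), .t 9 (nat_lit 0x17b003900040002121c121b10e510e3) (.z (.edon 12 4 (.node 0 11 (.edon 14 19 (.leaf [12,16,17,14]) (.edon 19 21 (.leaf [19,20,22]) (.leaf [0,13,15,18,21]))) (.edon 8 9 (.leaf [8,10,11]) (.leaf [1,3,6,9,2]))) (.free 1 [4,5,7]))), .t 9 (nat_lit 0x12ae12ab12a81011100f12ba12b40004)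 (.z (.node 20 0 (.edon 0 12 (.edon 4 9 (.free 2 [4,5,6,7,8,10,11]) (.leaf [1,3,9,2])) (.node 15 16 (.leaf [15,17,19,20,18]) (.leaf [12,16,14,13]))) (.free 1 [0,21,22]))), .t 6 (nat_lit 0x410e510e4121c121b) (.z (.edon 21 19 (.node 0 11 (.node 15 17 (.leaf [0,13,15,18,21]) (.leaf [12,14,16,17])) (.edon 4 9 (.free 2 [4,5,6,7,8,10,11]) (.leaf [1,3,9,2]))) (.free 1 [19,20,22]))), .t 6 (nat_lit 0x410e510e3121c121b) (.z (.edon 21 19 (.node 0 11 (.node 15 17 (.leaf [0,13,15,18,21]) (.leaf [12,16,17,14])) (.edon 4 9 (.free 2 [4,5,6,7,8,10,11]) (.leaf [1,3,9,2]))) (.free 1 [19,20,22]))), .t 6 (nat_lit 0x410e510e3121c121b) (.z (.edon 21 19 (.node 0 11 (.node 13 17 (.leaf [0,13,15,18,21]) (.leaf [12,16,17,14])) (.edon 4 9 (.free 2 [4,5,6,7,8,10,11]) (.leaf [1,3,9,2]))) (.free 1 [19,20,22]))), .t 9 (nat_lit 0x12ba123b121f1219121710e510e30004) (.z (.node 20 0 (.edon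 0 12 (.edon 4 9 (.free 2 [4,5,6,7,8,10,11]) (.leaf [1,3,9,2])) (.edon 14 19 (.leaf [12,16,17,14]) (.leaf [13,19,20,18,15]))) (.free 1 [0,21,22]))), .t 9 (nat_lit 0x12ba11631150114b114a119d119b0004) (.z (.node 20 0 (.edon 0 12 (.edon 4 9 (.free 2 [4,5,6,7,8,10,11]) (.leaf [1,3,9,2])) (.edon 14 19 (.leaf [13,16,17,14]) (.leaf [12,19,20,18,15]))) (.free 1 [0,21,22]))), .t 9 (nat_lit 0x12ae12ab12a81011100c12ba12b40004) (.z (.node 20 0 (.edon 0 12 (.edon 4 9 (.free 2 [4,5,6,7,8,10,11]) (.leaf [1,3,9,2])) (.node 15 16 (.leaf [15,17,19,20,18]) (.leaf [12,13,16,14]))) (.free 1 [0,21,22]))), .t 1 (nat_lit 0) (.cn 2 3), .t 8 (nat_lit 0x3de03d9125a125712cb0db40db2) (.z (.node 0 3 (.node 5 16 (.node 0 8 (.edon 0 14 (.leaf [0,9,11,12,13]) (.node 18 19 (.leaf [18,20,22,21]) (.leaf [14,17,19,15]))) (.leaf [4,5,8,6])) (.leaf [7,10,16])) (.free 1 [1,2,3]))), .t 14 (nat_lit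 0x125a120111fe11b411b11187118512cb03de0327032402f902ef) (.z (.edon 0 3 (.free 1 [0,1,2]) (.node 5 16 (.edon 0 9 (.leaf [3,4,5,8,6]) (.edon 0 13 (.leaf [9,11,12]) (.node 18 19 (.leaf [18,20,22,21]) (.leaf [13,17,19,15,14])))) (.leaf [7,10,16])))), .t 9 (nat_lit 0x12ae12ab12a81011100c12ba12b40006) (.z (.node 20 0 (.edon 0 12 (.node 3 9 (.leaf [1,3,11,2]) (.free 2 [4,5,6,7,8,9,10])) (.node 15 16 (.leaf [15,17,19,20,18]) (.leaf [12,13,16,14]))) (.free 1 [0,21,22]))), .t 12 (nat_lit 0x17b00390004000212ab128a1285126d1268125a1258) (.z (.edon 0 20 (.node 5 16 (.node 0 9 (.edon 0 14 (.leaf [0,10,11,12]) (.leaf [14,15,17,19,18])) (.node 3 8 (.leaf [1,3,6,9,2]) (.leaf [4,5,8]))) (.leaf [7,13,16])) (.free 1 [20,21,22]))), .t 7 (nat_lit 0x17b0039000400020cf60cf4) (.z (.edon 19 4 (.node 0 12 (.free 2 [0,14,18,19,20,21,22]) (.edon 8 9 (.leaf [8,12,11,10]) (.leaf [1,3,6,9,2])))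 (.free 2 [4,5,7,13,15,16,17]))), .t 12 (nat_lit 0x12ae12ab12a8017b0039000400020411040c12ba12b4) (.z (.node 5 16 (.node 0 10 (.node 0 14 (.node 0 20 (.leaf [0,21,22]) (.leaf [15,17,19,20,18])) (.leaf [11,12,14])) (.edon 4 6 (.leaf [4,5,10,8]) (.leaf [1,3,6,9,2]))) (.free 1 [7,13,16]))), .t 9 (nat_lit 0x20c990c96129a1163111f11181116) (.z (.edon 19 4 (.node 0 6 (.node 0 11 (.node 0 20 (.leaf [0,21,22]) (.leaf [12,19,20,18,14])) (.leaf [8,10,11,9])) (.leaf [1,3,6,2])) (.free 2 [4,5,7,13,15,16,17]))), .t 6 (nat_lit 0x20c990c96111c111b) (.z (.edon 19 4 (.node 0 6 (.node 0 11 (.edon 19 21 (.leaf [19,20,22]) (.leaf [0,12,14,18,21])) (.leaf [8,10,11,9])) (.leaf [1,3,6,2])) (.free 2 [4,5,7,13,15,16,17]))), .t 6 (nat_lit 0xa830a7e0006111c111b) (.z (.edon 19 4 (.node 0 11 (.edon 19 21 (.leaf [19,20,22]) (.leaf [0,12,14,18,21])) (.node 3 9 (.leaf [1,3,11,2]) (.leaf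 [6,8,10,9]))) (.free 2 [4,5,7,13,15,16,17]))), .t 11 (nat_lit 0x10bf10f810f510d210cf03de03d912cb11371135) (.z (.node 0 3 (.node 5 16 (.node 0 8 (.edon 0 12 (.leaf [0,9,10,11]) (.edon 14 20 (.leaf [12,15,17,19,14]) (.leaf [18,20,22,21]))) (.leaf [4,5,8,6])) (.leaf [7,13,16])) (.free 1 [1,2,3]))), .t 7 (nat_lit 0x1009100408cd08ca04ef04ed) (.z (.node 0 3 (.edon 0 12 (.node 4 8 (.leaf [0,4,6,9,11]) (.leaf [5,7,10,8])) (.edon 0 16 (.leaf [12,13,15,14]) (.free 2 [16,17,18,19,20,21,22]))) (.free 1 [1,2,3]))), .t 15 (nat_lit 0x8ea08e908e6021809ae09ad08f808f70a8a0a88025502530210020f) (.z (.edon 0 16 (.node 0 13 (.leaf [0,14,15]) (.node 4 10 (.node 2 4 (.leaf [2,6,8,9,11]) (.leaf [1,3,4])) (.leaf [5,7,12,13,10]))) (.free 2 [16,17,18,19,20,21,22]))), .t 12 (nat_lit 0x8d408d308d2094f094e08f808f70185004400060004) (.z (.edon 0 16 (.node 0 13 (.leaf [0,14,15]) (.node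 4 8 (.edon 4 9 (.leaf [4,6,10]) (.leaf [1,3,9,11,2])) (.leaf [5,7,12,13,8]))) (.free 2 [16,17,18,19,20,21,22]))), .t 7 (nat_lit 0x18500440006000412891287) (.z (.edon 0 20 (.node 0 12 (.node 14 16 (.leaf [0,14,17,18,19]) (.leaf [13,15,16])) (.edon 4 9 (.free 2 [4,5,6,7,8,10,12]) (.leaf [1,3,9,11,2]))) (.free 1 [20,21,22]))), .t 7 (nat_lit 0x116f116d0185004400060004) (.z (.node 16 0 (.edon 0 13 (.edon 4 9 (.free 2 [4,5,6,7,8,10,12]) (.leaf [1,3,9,11,2])) (.leaf [13,16,15,14])) (.free 2 [0,17,18,19,20,21,22]))), .t 9 (nat_lit 0x1294115c111f110110ff11ef11ee0006) (.z (.node 20 0 (.edon 0 12 (.node 3 9 (.leaf [1,3,11,2]) (.free 2 [4,5,6,7,8,9,10])) (.edon 13 19 (.leaf [13,15,16,18]) (.leaf [12,19,20,17,14]))) (.free 1 [0,21,22]))), .t 9 (nat_lit 0x3de03d9120111fe12cb12a0129e129d) (.z (.node 0 3 (.node 5 16 (.node 0 8 (.edon 0 13 (.leaf [0,9,10,11]) (.node 18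 19 (.leaf [14,18,20,22,21]) (.leaf [13,17,19,15]))) (.leaf [4,5,8,6])) (.leaf [7,12,16])) (.free 1 [1,2,3])))] (by decide +kernel) (by decide +kernel)
theorem b229 : B 7328 7360 := Blk.of_chk [.t 12 (nat_lit 0x120111fe12cb12a0129e129d03de0327032402f902ef) (.z (.edon 0 3 (.free 1 [0,1,2]) (.node 5 16 (.edon 0 9 (.leaf [3,4,5,8,6]) (.edon 0 13 (.leaf [9,11,12]) (.node 18 19 (.leaf [14,18,20,22,21]) (.leaf [13,17,19,15])))) (.leaf [7,10,16])))), .t 12 (nat_lit 0xca50c990c960cfb0cf80cc00cbf017e003d00070002) (.z (.edon 0 16 (.node 0 13 (.leaf [0,14,15]) (.node 7 9 (.edon 4 6 (.leaf [4,5,7]) (.leaf [1,3,6,12,2])) (.leaf [8,10,13,11,9]))) (.free 2 [16,17,18,19,20,21,22]))), .t 9 (nat_lit 0x129a1163111f1118111611eb11ea0006) (.z (.node 20 0 (.edon 0 12 (.node 3 9 (.leaf [1,3,11,2]) (.free 2 [4,5,6,7,8,9,10])) (.edon 13 19 (.leaf [13,15,16,17]) (.leaf [12,19,20,18,14])))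 (.free 1 [0,21,22]))), .t 8 (nat_lit 0x17b00390004000211b411b112cb) (.z (.node 5 16 (.node 0 9 (.edon 0 13 (.leaf [0,10,11,12]) (.node 18 19 (.leaf [18,20,22,21]) (.leaf [13,17,19,14]))) (.node 3 8 (.leaf [1,3,6,9,2]) (.leaf [4,5,8]))) (.free 1 [7,15,16]))), .t 14 (nat_lit 0x404042e04290411040c12ae12ab12a8000205a705a512ba12b4) (.z (.node 5 16 (.node 0 10 (.node 0 14 (.node 0 20 (.leaf [0,21,22]) (.leaf [15,17,19,20,18])) (.leaf [11,12,14])) (.edon 4 6 (.leaf [4,5,10,9,8]) (.leaf [1,3,6,2]))) (.free 1 [7,13,16]))), .t 9 (nat_lit 0x3de03d91137113412cb12a0129e129d) (.z (.node 0 3 (.node 5 16 (.node 0 8 (.edon 0 12 (.leaf [0,9,10,11]) (.node 18 19 (.leaf [14,18,20,22,21]) (.leaf [12,17,19,15]))) (.leaf [4,5,8,6])) (.leaf [7,13,16])) (.free 1 [1,2,3]))), .t 9 (nat_lit 0x3de03d911b411b112cb116911671166) (.z (.node 0 3 (.node 5 16 (.node 0 8 (.edon 0 12 (.leaf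 [0,9,10,11]) (.node 18 19 (.leaf [12,18,20,22,21]) (.leaf [13,17,19,14]))) (.leaf [4,5,8,6])) (.leaf [7,15,16])) (.free 1 [1,2,3]))), .t 14 (nat_lit 0x128d128a1285090d05a705a2042e04290410040e0002129a1294) (.z (.node 5 16 (.node 0 10 (.node 0 13 (.node 0 20 (.leaf [0,21,22]) (.leaf [14,17,19,20,18])) (.leaf [11,12,13])) (.node 3 9 (.leaf [1,3,6,2]) (.leaf [4,5,8,10,9]))) (.free 1 [7,15,16]))), .t 9 (nat_lit 0x3de03d912ab12a812a0116911251124) (.z (.node 0 3 (.node 5 16 (.node 0 8 (.edon 0 12 (.leaf [0,9,10,11]) (.node 12 19 (.leaf [12,14,20,22,21]) (.leaf [15,17,19,18]))) (.leaf [4,5,8,6])) (.leaf [7,13,16])) (.free 1 [1,2,3]))), .t 8 (nat_lit 0x12cb12a0129e129d00020411040c) (.z (.node 5 16 (.edon 0 14 (.node 9 10 (.leaf [0,9,11,12]) (.edon 4 6 (.leaf [4,5,10,8]) (.leaf [1,3,6,2]))) (.edon 15 20 (.leaf [15,17,19]) (.leaf [14,18,20,22,21]))) (.free 1 [7,13,16]))),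 .t 9 (nat_lit 0x3de03d91211120e12c912a012991298) (.z (.node 0 3 (.node 5 16 (.node 0 8 (.edon 0 13 (.leaf [0,9,10,11]) (.node 17 19 (.leaf [14,17,20,22,21]) (.leaf [13,18,19,15]))) (.leaf [4,5,8,6])) (.leaf [7,12,16])) (.free 1 [1,2,3]))), .t 9 (nat_lit 0x90d05a705a2042e04290410040e0002) (.z (.node 5 16 (.node 0 10 (.edon 0 15 (.leaf [0,11,13,14]) (.free 2 [15,17,18,19,20,21,22])) (.node 3 9 (.leaf [1,3,6,2]) (.leaf [4,5,8,10,9]))) (.free 1 [7,12,16]))), .t 12 (nat_lit 0x1211120e12c912a01299129803de0327032402f902ef) (.z (.edon 0 3 (.free 1 [0,1,2]) (.node 5 16 (.edon 0 9 (.leaf [3,4,5,8,6]) (.edon 0 13 (.leaf [9,11,12]) (.node 17 19 (.leaf [14,17,20,22,21]) (.leaf [13,18,19,15])))) (.leaf [7,10,16])))), .t 9 (nat_lit 0x8f908f604c304c00185004400060004) (.z (.edon 0 16 (.node 0 13 (.leaf [0,14,15]) (.node 4 12 (.node 3 6 (.leaf [1,3,9,11,2]) (.leaf [4,8,10,6]))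 (.leaf [5,7,13,12]))) (.free 2 [16,17,18,19,20,21,22]))), .t 10 (nat_lit 0x12af12aa12a90c990c961011100c12ba12b4) (.z (.node 0 7 (.node 0 11 (.node 0 20 (.leaf [0,21,22]) (.node 15 16 (.leaf [15,18,19,20,17]) (.leaf [12,13,16,14]))) (.leaf [8,10,11,9])) (.free 2 [1,2,3,4,5,6,7]))), .t 7 (nat_lit 0xc990c961265126410771076) (.z (.node 0 7 (.node 0 11 (.edon 12 19 (.leaf [12,13,16,18]) (.edon 19 21 (.leaf [19,20,22]) (.leaf [0,14,15,17,21]))) (.leaf [8,10,11,9])) (.free 2 [1,2,3,4,5,6,7]))), .t 11 (nat_lit 0x10ce10cb10c603de03d911461143110f110d12c9) (.z (.node 0 3 (.node 5 16 (.node 0 8 (.edon 0 12 (.leaf [0,9,10,11]) (.node 17 19 (.leaf [17,20,22,21]) (.leaf [12,14,18,19,15]))) (.leaf [4,5,8,6])) (.leaf [7,13,16])) (.free 1 [1,2,3]))), .t 7 (nat_lit 0x1009100408cd08ca02270226) (.z (.edon 0 16 (.edon 0 12 (.node 2 4 (.node 6 10 (.leaf [0,2,6,9,11]) (.leaf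 [5,7,10,8])) (.leaf [1,3,4])) (.leaf [12,13,15,14])) (.free 2 [16,17,18,19,20,21,22]))), .t 8 (nat_lit 0x12c912a01299129800020411040c) (.z (.node 5 16 (.edon 0 14 (.node 9 10 (.leaf [0,9,11,12]) (.edon 4 6 (.leaf [4,5,10,8]) (.leaf [1,3,6,2]))) (.edon 15 20 (.leaf [15,18,19]) (.leaf [14,17,20,22,21]))) (.free 1 [7,13,16]))), .t 7 (nat_lit 0x12a010030fdf0fde088a0888) (.z (.node 2 4 (.edon 0 11 (.node 2 8 (.leaf [0,2,9,10]) (.leaf [5,7,8,6])) (.node 14 19 (.leaf [11,14,20,22,21]) (.free 2 [12,13,15,16,17,18,19]))) (.free 1 [1,3,4]))), .t 7 (nat_lit 0x100910070210020f08e508e2) (.z (.edon 0 16 (.edon 0 12 (.node 2 4 (.edon 5 8 (.leaf [5,7,11,10]) (.leaf [0,2,6,8,9])) (.leaf [1,3,4])) (.leaf [12,15,14,13])) (.free 2 [16,17,18,19,20,21,22]))), .t 8 (nat_lit 0xd880cf50cf20cba0cb70ca10c9f) (.z (.node 0 7 (.node 0 12 (.edon 15 21 (.free 2 [15,16,17,18,19,20,22])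 (.leaf [0,13,14,21])) (.leaf [8,11,12,10,9])) (.free 2 [1,2,3,4,5,6,7]))), .t 8 (nat_lit 0xea7100910070f420f400e9f0e9d) (.z (.edon 0 16 (.edon 0 11 (.node 2 8 (.leaf [0,2,9,10]) (.free 2 [1,3,4,5,6,7,8])) (.leaf [11,15,14,13,12])) (.free 2 [16,17,18,19,20,21,22]))), .t 9 (nat_lit 0x17b00390004000212cb12421240123f) (.z (.node 5 16 (.node 0 9 (.edon 0 13 (.leaf [0,10,11,12]) (.edon 14 20 (.leaf [14,17,19]) (.leaf [13,18,20,22,21]))) (.node 3 8 (.leaf [1,3,6,9,2]) (.leaf [4,5,8]))) (.free 1 [7,15,16]))), .t 6 (nat_lit 0x17b00390004000212cb) (.z (.node 4 19 (.node 0 10 (.edon 0 18 (.leaf [0,12,13,14]) (.leaf [18,20,22,21])) (.edon 4 6 (.leaf [4,8,10]) (.leaf [1,3,6,9,2]))) (.free 2 [5,7,11,15,16,17,19]))), .t 9 (nat_lit 0x17b00390004000212cb12a0129e129d) (.z (.node 5 16 (.node 0 9 (.edon 0 14 (.leaf [0,10,12,13]) (.edon 15 20 (.leaf [15,17,19]) (.leaf [14,18,20,22,21])))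 (.node 3 8 (.leaf [1,3,6,9,2]) (.leaf [4,5,8]))) (.free 1 [7,11,16]))), .t 9 (nat_lit 0x17b00390004000212cb12a0129e129d) (.z (.node 5 16 (.node 0 9 (.edon 0 14 (.leaf [0,10,11,13]) (.edon 15 20 (.leaf [15,17,19]) (.leaf [14,18,20,22,21]))) (.node 3 8 (.leaf [1,3,6,9,2]) (.leaf [4,5,8]))) (.free 1 [7,12,16]))), .t 10 (nat_lit 0x17b0039000400021294123411e011bd11bb) (.z (.edon 19 4 (.node 0 11 (.node 0 20 (.leaf [0,21,22]) (.leaf [13,19,20,17,14])) (.edon 8 9 (.leaf [8,10,11]) (.leaf [1,3,6,9,2]))) (.free 2 [4,5,7,12,15,16,18]))), .t 7 (nat_lit 0x17b00390004000211c311c1) (.z (.edon 19 4 (.node 0 11 (.edon 19 21 (.leaf [19,20,22]) (.leaf [0,13,14,17,21])) (.edon 8 9 (.leaf [8,10,11]) (.leaf [1,3,6,9,2]))) (.free 2 [4,5,7,12,15,16,18]))), .t 10 (nat_lit 0x128e12891286129a12940185004400060004) (.z (.node 20 0 (.edon 0 13 (.edon 4 9 (.free 2 [4,5,6,7,8,10,12])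 (.leaf [1,3,9,11,2])) (.node 14 16 (.leaf [14,18,19,20,17]) (.leaf [13,15,16]))) (.free 1 [0,21,22]))), .t 7 (nat_lit 0x18500440006000411c311c1) (.z (.edon 21 19 (.node 0 12 (.edon 15 17 (.leaf [15,16,18]) (.leaf [0,13,14,17,21])) (.edon 4 9 (.free 2 [4,5,6,7,8,10,12]) (.leaf [1,3,9,11,2]))) (.free 1 [19,20,22]))), .t 7 (nat_lit 0x17d003c0006000211c311c1) (.z (.edon 21 19 (.node 0 12 (.edon 15 17 (.leaf [15,16,18]) (.leaf [0,13,14,17,21])) (.edon 4 11 (.free 2 [4,5,7,8,9,10,12]) (.leaf [1,3,6,11,2]))) (.free 1 [19,20,22])))] (by decide +kernel) (by decide +kernel)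
theorem b230 : B 7360 7392 := Blk.of_chk [.t 10 (nat_lit 0x128e12891286129a1294017d003c00060002) (.z (.node 20 0 (.edon 0 13 (.node 6 9 (.leaf [1,3,6,11,2]) (.free 2 [4,5,7,8,9,10,12])) (.node 14 16 (.leaf [14,18,19,20,17]) (.leaf [13,15,16]))) (.free 1 [0,21,22]))), .t 9 (nat_lit 0x20c990c961294123411e011bd11bb) (.z (.edon 19 4 (.node 0 6 (.node 0 11 (.node 0 20 (.leaf [0,21,22]) (.leaf [13,19,20,17,14])) (.leaf [8,10,11,9])) (.leaf [1,3,6,2])) (.free 2 [4,5,7,12,15,16,18]))), .t 6 (nat_lit 0x20c990c9611c311c1) (.z (.edon 19 4 (.node 0 6 (.node 0 11 (.edon 19 21 (.leaf [19,20,22]) (.leaf [0,13,14,17,21])) (.leaf [8,10,11,9])) (.leaf [1,3,6,2])) (.free 2 [4,5,7,12,15,16,18]))), .t 7 (nat_lit 0x1008100508e508e20210020f) (.z (.edon 0 16 (.edon 0 12 (.node 4 10 (.node 2 4 (.leaf [0,2,6,8,9]) (.leaf [1,3,4])) (.leaf [5,7,11,10])) (.leaf [12,14,15,13])) (.free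 2 [16,17,18,19,20,21,22]))), .t 15 (nat_lit 0x3df03de03d912561254125004bb04b80408040612891286126c126a) (.z (.node 0 3 (.node 5 16 (.node 0 9 (.edon 0 14 (.leaf [0,11,12,13]) (.edon 0 20 (.leaf [14,15,18,19,17]) (.leaf [20,21,22]))) (.leaf [4,5,8,9,6])) (.leaf [7,10,16])) (.free 1 [1,2,3]))), .t 9 (nat_lit 0x3de03d91211120f12c912a012991298) (.z (.node 0 3 (.node 5 16 (.node 0 8 (.edon 0 13 (.leaf [0,9,10,11]) (.node 14 19 (.leaf [14,17,20,22,21]) (.leaf [13,15,18,19]))) (.leaf [4,5,8,6])) (.leaf [7,12,16])) (.free 1 [1,2,3]))), .t 16 (nat_lit 0x404042e04290411040c05a705a500021289122d122c11ce11cb11b511b3) (.z (.edon 0 20 (.node 5 16 (.node 0 10 (.edon 0 13 (.leaf [0,11,12]) (.leaf [13,18,19,17,14])) (.node 3 8 (.leaf [1,3,6,2]) (.leaf [4,5,10,9,8]))) (.leaf [7,15,16])) (.free 1 [20,21,22]))), .t 9 (nat_lit 0x124208e508e204bc04ba0361035f02f9) (.z (.edon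 0 3 (.free 1 [0,1,2]) (.edon 0 12 (.node 4 10 (.leaf [3,4,9,8,6]) (.leaf [5,7,11,10])) (.edon 12 20 (.free 2 [12,14,15,16,17,18,19]) (.leaf [13,20,22,21]))))), .t 10 (nat_lit 0x17b00390004000212b41294127912621260) (.z (.edon 19 4 (.node 0 9 (.node 0 13 (.node 0 20 (.leaf [0,21,22]) (.leaf [14,19,20,17,15])) (.leaf [10,11,13])) (.leaf [1,3,6,9,2])) (.free 2 [4,5,7,8,12,16,18]))), .t 12 (nat_lit 0x12af12aa12a903de03d9018500440006000412ba12b4) (.z (.node 5 16 (.node 0 11 (.node 0 14 (.node 0 20 (.leaf [0,21,22]) (.leaf [15,18,19,20,17])) (.leaf [12,13,14])) (.node 3 6 (.leaf [1,3,9,11,2]) (.leaf [4,5,8,6]))) (.free 1 [7,10,16]))), .t 10 (nat_lit 0x17b0039000400021294123411e011bd11bb) (.z (.edon 19 4 (.node 0 12 (.node 0 20 (.leaf [0,21,22]) (.leaf [13,19,20,17,14])) (.edon 8 9 (.leaf [8,11,12]) (.leaf [1,3,6,9,2]))) (.free 2 [4,5,7,10,15,16,18]))), .t 13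 (nat_lit 0xc9e0c990c96128e128912860cf60cf10cbb0cb9129a1294) (.z (.node 0 7 (.node 0 12 (.node 0 20 (.leaf [0,21,22]) (.node 14 16 (.leaf [14,18,19,20,17]) (.leaf [13,15,16]))) (.leaf [8,10,12,11,9])) (.free 2 [1,2,3,4,5,6,7]))), .t 7 (nat_lit 0x17b00390004000211c311c1) (.z (.edon 19 4 (.node 0 12 (.edon 19 21 (.leaf [19,20,22]) (.leaf [0,13,14,17,21])) (.edon 8 9 (.leaf [8,11,12]) (.leaf [1,3,6,9,2]))) (.free 2 [4,5,7,10,15,16,18]))), .t 10 (nat_lit 0x17b0039000400021294123411e011bd11bb) (.z (.edon 19 4 (.node 0 9 (.node 0 12 (.node 0 20 (.leaf [0,21,22]) (.leaf [13,19,20,17,14])) (.leaf [10,11,12])) (.leaf [1,3,6,9,2])) (.free 2 [4,5,7,8,15,16,18]))), .t 6 (nat_lit 0x211b411b2112b1129) (.z (.edon 0 20 (.node 0 11 (.edon 15 19 (.leaf [12,16,18,15]) (.leaf [0,13,14,17,19])) (.edon 4 6 (.free 2 [4,5,7,8,9,10,11]) (.leaf [1,3,6,2]))) (.free 1 [20,21,22]))),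 .t 7 (nat_lit 0x100910070210020f08e508e2) (.z (.edon 0 16 (.edon 0 12 (.node 2 4 (.edon 5 9 (.leaf [5,7,11,10]) (.leaf [0,2,6,8,9])) (.leaf [1,3,4])) (.leaf [12,15,14,13])) (.free 2 [16,17,18,19,20,21,22]))), .t 10 (nat_lit 0x8ca08e908e608d308d20939093702270226) (.z (.edon 0 13 (.node 4 10 (.node 2 4 (.leaf [0,2,6,9,11]) (.leaf [1,3,4])) (.leaf [5,7,12,10,8])) (.free 3 [13,14,15,16,17,18,19,20,21,22]))), .t 13 (nat_lit 0x8ce08f208ef08d308d20945094304e804e60377037502fa) (.z (.edon 0 13 (.node 4 11 (.edon 0 3 (.leaf [0,1,2]) (.leaf [3,4,10,9,6])) (.leaf [5,7,12,11,8])) (.free 3 [13,14,15,16,17,18,19,20,21,22]))), .t 7 (nat_lit 0x17b00390004000212761275) (.z (.edon 19 4 (.node 0 9 (.node 0 13 (.edon 19 21 (.leaf [19,20,22]) (.leaf [0,14,15,18,21])) (.leaf [10,11,13])) (.leaf [1,3,6,9,2])) (.free 2 [4,5,7,8,12,16,17]))), .t 1 (nat_lit 0) (.cn 2 3), .t 12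 (nat_lit 0x12ae12ab12a8017b0039000400020411040c12ba12b4) (.z (.node 5 16 (.node 0 10 (.node 0 14 (.node 0 20 (.leaf [0,21,22]) (.leaf [15,17,19,20,18])) (.leaf [11,13,14])) (.edon 4 6 (.leaf [4,5,10,8]) (.leaf [1,3,6,9,2]))) (.free 1 [7,12,16]))), .t 9 (nat_lit 0x17b00390004000212cb12a0129e129d) (.z (.node 5 16 (.node 0 9 (.edon 0 14 (.leaf [0,11,12,13]) (.edon 15 20 (.leaf [15,17,19]) (.leaf [14,18,20,22,21]))) (.node 3 8 (.leaf [1,3,6,9,2]) (.leaf [4,5,8]))) (.free 1 [7,10,16]))), .t 12 (nat_lit 0x12ae12ab12a8017b0039000400020411040c12ba12b4) (.z (.node 5 16 (.node 0 10 (.node 0 14 (.node 0 20 (.leaf [0,21,22]) (.leaf [15,17,19,20,18])) (.leaf [11,13,14])) (.edon 4 9 (.leaf [4,5,10,8]) (.leaf [1,3,6,9,2]))) (.free 1 [7,12,16]))), .t 9 (nat_lit 0x12a008cd08ca04f004ee037d037b02fa) (.z (.edon 0 3 (.free 1 [0,1,2]) (.edon 0 12 (.node 4 8 (.leaf [3,4,11,9,6])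 (.leaf [5,7,10,8])) (.node 14 19 (.leaf [14,20,22,21]) (.free 2 [12,13,15,16,17,18,19]))))), .t 11 (nat_lit 0x3de03d912ab122e122b1212120d120111ff12a0) (.z (.node 0 3 (.node 5 16 (.node 0 8 (.edon 0 13 (.leaf [0,9,10,11]) (.node 14 19 (.leaf [14,20,22,21]) (.leaf [13,15,17,19,18]))) (.leaf [4,5,8,6])) (.leaf [7,12,16])) (.free 1 [1,2,3]))), .t 10 (nat_lit 0x1009100703e4032d032902fa02f00bb00bad) (.z (.edon 0 16 (.edon 0 3 (.leaf [0,1,2]) (.edon 0 12 (.edon 7 9 (.leaf [7,10,11,8]) (.leaf [3,4,5,9,6])) (.leaf [12,15,14,13]))) (.free 2 [16,17,18,19,20,21,22]))), .t 9 (nat_lit 0x12a00c990bdd0bda0bb00bad0ba00b9e) (.z (.edon 0 7 (.free 2 [0,1,2,3,4,5,6]) (.edon 0 12 (.leaf [7,10,11,9,8]) (.node 14 19 (.leaf [14,20,22,21]) (.free 2 [12,13,15,16,17,18,19]))))), .t 6 (nat_lit 0x21037103512a312a2) (.z (.edon 21 19 (.node 0 11 (.edon 15 21 (.leaf [15,16,17,18]) (.leaf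 [0,12,13,14,21])) (.edon 4 6 (.free 2 [4,5,7,8,9,10,11]) (.leaf [1,3,6,2]))) (.free 1 [19,20,22]))), .t 8 (nat_lit 0x20409040412cb12a0129e129d) (.z (.node 5 16 (.node 0 9 (.edon 0 14 (.leaf [0,11,12,13]) (.edon 15 20 (.leaf [15,17,19]) (.leaf [14,18,20,22,21]))) (.edon 4 6 (.leaf [4,5,9,8]) (.leaf [1,3,6,2]))) (.free 1 [7,10,16]))), .t 9 (nat_lit 0x404042e04290411040c000205a705a5) (.z (.node 5 16 (.node 0 10 (.edon 0 15 (.leaf [0,11,13,14]) (.free 2 [15,17,18,19,20,21,22])) (.edon 4 6 (.leaf [4,5,10,9,8]) (.leaf [1,3,6,2]))) (.free 1 [7,12,16]))), .t 9 (nat_lit 0x8c608dd08da08cd08ca12a0090d090b) (.z (.node 2 4 (.edon 0 12 (.node 6 9 (.leaf [0,2,6,11]) (.leaf [5,7,10,9,8])) (.node 14 19 (.leaf [14,20,22,21]) (.free 2 [12,13,15,16,17,18,19]))) (.free 1 [1,3,4]))), .t 6 (nat_lit 0x12a00227022608cd08ca) (.z (.node 2 4 (.edon 0 12 (.edon 5 9 (.leaf [5,7,10,8])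 (.leaf [0,2,6,9,11])) (.node 14 19 (.leaf [14,20,22,21]) (.free 2 [12,13,15,16,17,18,19]))) (.free 1 [1,3,4])))] (by decide +kernel) (by decide +kernel)
theorem b231 : B 7392 7424 := Blk.of_chk [.t 9 (nat_lit 0x17b00390004000212c912a012991298) (.z (.node 5 16 (.node 0 9 (.edon 0 14 (.leaf [0,11,12,13]) (.edon 15 20 (.leaf [15,18,19]) (.leaf [14,17,20,22,21]))) (.node 3 8 (.leaf [1,3,6,9,2]) (.leaf [4,5,8]))) (.free 1 [7,10,16]))), .t 12 (nat_lit 0x12af12aa12a9017b0039000400020411040c12ba12b4) (.z (.node 5 16 (.node 0 10 (.node 0 14 (.node 0 20 (.leaf [0,21,22]) (.leaf [15,18,19,20,17])) (.leaf [11,13,14])) (.edon 4 9 (.leaf [4,5,10,8]) (.leaf [1,3,6,9,2]))) (.free 1 [7,12,16]))), .t 7 (nat_lit 0x124210030fa40fa30b980b96) (.z (.edon 0 7 (.free 2 [0,1,2,3,4,5,6]) (.edon 0 11 (.leaf [7,10,9,8]) (.node 13 19 (.leaf [11,13,20,22,21]) (.free 2 [12,14,15,16,17,18,19]))))),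 .t 10 (nat_lit 0x12c912a01299129804bb0360035d030c02fa) (.z (.edon 0 3 (.free 1 [0,1,2]) (.node 4 19 (.edon 0 11 (.leaf [3,4,8,9,6]) (.node 14 15 (.leaf [14,17,20,22,21]) (.leaf [11,13,15]))) (.free 2 [5,7,10,12,16,18,19])))), .t 12 (nat_lit 0x12af12aa12a9017b0039000400020411040c12ba12b4) (.z (.node 5 16 (.node 0 10 (.node 0 14 (.node 0 20 (.leaf [0,21,22]) (.leaf [15,18,19,20,17])) (.leaf [11,13,14])) (.edon 4 6 (.leaf [4,5,10,8]) (.leaf [1,3,6,9,2]))) (.free 1 [7,12,16]))), .t 9 (nat_lit 0x10b810e510e310c210bf000411281127) (.z (.edon 21 19 (.node 0 11 (.node 13 17 (.leaf [0,13,18,21]) (.leaf [12,15,16,17,14])) (.edon 4 9 (.free 2 [4,5,6,7,8,10,11]) (.leaf [1,3,9,2]))) (.free 1 [19,20,22]))), .t 7 (nat_lit 0x17b00390004000211dd11db) (.z (.edon 19 4 (.node 0 11 (.edon 19 21 (.leaf [19,20,22]) (.leaf [0,13,14,18,21])) (.edon 8 9 (.leaf [8,10,11]) (.leaf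 [1,3,6,9,2]))) (.free 2 [4,5,7,12,15,16,17]))), .t 9 (nat_lit 0x128d128a128510441041129a12940004) (.z (.node 20 0 (.edon 0 12 (.edon 4 9 (.free 2 [4,5,6,7,8,10,11]) (.leaf [1,3,9,2])) (.node 14 16 (.leaf [14,17,19,20,18]) (.leaf [12,15,16,13]))) (.free 1 [0,21,22]))), .t 12 (nat_lit 0x116b119d119b11761173018500440006000411eb11ea) (.z (.edon 0 20 (.node 0 12 (.node 0 17 (.leaf [0,18,19]) (.leaf [13,15,16,17,14])) (.edon 4 9 (.free 2 [4,5,6,7,8,10,12]) (.leaf [1,3,9,11,2]))) (.free 1 [20,21,22]))), .t 6 (nat_lit 0x12a00210020f08e508e2) (.z (.node 2 4 (.edon 0 12 (.edon 5 9 (.leaf [5,7,11,10]) (.leaf [0,2,6,8,9])) (.node 14 19 (.leaf [14,20,22,21]) (.free 2 [12,13,15,16,17,18,19]))) (.free 1 [1,3,4]))), .t 7 (nat_lit 0x12a0124211e811e70b980b96) (.z (.edon 0 7 (.free 2 [0,1,2,3,4,5,6]) (.edon 0 11 (.leaf [7,10,9,8]) (.node 14 19 (.leaf [13,14,20,22,21]) (.free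 2 [11,12,15,16,17,18,19]))))), .t 12 (nat_lit 0x3de03d912ab128a1285126d1268125a12580db40db2) (.z (.node 0 3 (.node 5 16 (.node 0 8 (.edon 0 14 (.leaf [0,9,11,12,13]) (.edon 0 20 (.leaf [14,15,17,19,18]) (.leaf [20,21,22]))) (.leaf [4,5,8,6])) (.leaf [7,10,16])) (.free 1 [1,2,3]))), .t 8 (nat_lit 0x8ce08cd08ca0931092e08e408e3) (.z (.edon 0 16 (.node 0 12 (.leaf [0,13,14,15]) (.node 4 8 (.free 2 [1,2,3,4,6,9,12]) (.leaf [5,7,10,11,8]))) (.free 2 [16,17,18,19,20,21,22]))), .t 1 (nat_lit 0) (.cn 2 3), .t 7 (nat_lit 0x17b00390004000211dd11db) (.z (.edon 19 4 (.node 0 12 (.edon 19 21 (.leaf [19,20,22]) (.leaf [0,13,14,18,21])) (.edon 8 9 (.leaf [8,11,12]) (.leaf [1,3,6,9,2]))) (.free 2 [4,5,7,10,15,16,17]))), .t 7 (nat_lit 0x17d003c0006000211dd11db) (.z (.edon 19 4 (.node 0 12 (.edon 19 21 (.leaf [19,20,22]) (.leaf [0,13,14,18,21])) (.edon 8 11 (.leaf [8,9,12])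 (.leaf [1,3,6,11,2]))) (.free 2 [4,5,7,10,15,16,17]))), .t 8 (nat_lit 0xcab0ce90ce80cb00caf0d210d20) (.z (.node 0 7 (.edon 9 19 (.leaf [8,10,16,17,9]) (.edon 0 14 (.leaf [0,11,12,13]) (.free 2 [14,15,18,19,20,21,22]))) (.free 2 [1,2,3,4,5,6,7]))), .t 9 (nat_lit 0xea70ea5017b0039000400020410040e) (.z (.node 16 0 (.edon 7 15 (.leaf [7,14,16]) (.edon 0 11 (.edon 4 6 (.leaf [4,5,8,10]) (.leaf [1,3,6,9,2])) (.leaf [11,15,13,12]))) (.free 2 [0,17,18,19,20,21,22]))), .t 12 (nat_lit 0x128d128a1285017b0039000400020411040c129a1294) (.z (.node 5 16 (.node 0 10 (.node 0 13 (.node 0 20 (.leaf [0,21,22]) (.leaf [14,17,19,20,18])) (.leaf [11,12,13])) (.edon 4 6 (.leaf [4,5,10,8]) (.leaf [1,3,6,9,2]))) (.free 1 [7,15,16]))), .t 11 (nat_lit 0x1015108810851028102503de03d910f810f612cb) (.z (.node 0 3 (.node 5 16 (.node 0 8 (.edon 0 12 (.leaf [0,9,10,11]) (.node 18 19 (.leaf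 [18,20,22,21]) (.leaf [12,14,17,19,13]))) (.leaf [4,5,8,6])) (.leaf [7,15,16])) (.free 1 [1,2,3]))), .t 7 (nat_lit 0x12a01169112511240210020f) (.z (.node 2 4 (.edon 0 11 (.edon 5 8 (.leaf [5,7,10]) (.leaf [0,2,6,8,9])) (.node 14 19 (.leaf [12,14,20,22,21]) (.free 2 [11,13,15,16,17,18,19]))) (.free 1 [1,3,4]))), .t 10 (nat_lit 0x12c912a01299129804bc04ba0361035f02f9) (.z (.edon 0 3 (.free 1 [0,1,2]) (.node 4 19 (.edon 0 11 (.leaf [3,4,9,8,6]) (.edon 0 14 (.leaf [11,12,13]) (.leaf [14,17,20,22,21]))) (.free 2 [5,7,10,15,16,18,19])))), .t 9 (nat_lit 0x8de08dd08da12a00968096508e408e3) (.z (.node 2 4 (.edon 0 12 (.edon 5 8 (.leaf [5,7,10,11,9]) (.leaf [0,2,6,8])) (.node 14 19 (.leaf [14,20,22,21]) (.free 2 [12,13,15,16,17,18,19]))) (.free 1 [1,3,4]))), .t 9 (nat_lit 0x8c608dd08da08cd08ca12a0090d090b) (.z (.node 2 4 (.edon 0 12 (.node 6 8 (.leaf [0,2,6,11])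 (.leaf [5,7,10,9,8])) (.node 14 19 (.leaf [14,20,22,21]) (.free 2 [12,13,15,16,17,18,19]))) (.free 1 [1,3,4]))), .t 9 (nat_lit 0x41304090404000205ae05ab04340432) (.z (.node 5 16 (.node 0 11 (.edon 0 15 (.leaf [0,12,13,14]) (.free 2 [15,17,18,19,20,21,22])) (.edon 4 6 (.leaf [4,5,9,11,8]) (.leaf [1,3,6,2]))) (.free 1 [7,10,16]))), .t 9 (nat_lit 0x3de03d912ab12a812a0124211e811e7) (.z (.node 0 3 (.node 5 16 (.node 0 8 (.edon 0 13 (.leaf [0,9,11,12]) (.node 14 19 (.leaf [13,14,20,22,21]) (.leaf [15,17,19,18]))) (.leaf [4,5,8,6])) (.leaf [7,10,16])) (.free 1 [1,2,3]))), .t 6 (nat_lit 0x12a00227022608cd08ca) (.z (.node 2 4 (.edon 0 12 (.edon 5 11 (.leaf [5,7,10,8]) (.leaf [0,2,6,9,11])) (.node 14 19 (.leaf [14,20,22,21]) (.free 2 [12,13,15,16,17,18,19]))) (.free 1 [1,3,4]))), .t 9 (nat_lit 0x3de03d9128a12851242116910b610b5) (.z (.node 0 3 (.node 5 16 (.node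 0 8 (.edon 0 12 (.leaf [0,9,10,11]) (.node 13 19 (.leaf [12,13,20,22,21]) (.leaf [14,17,19,18]))) (.leaf [4,5,8,6])) (.leaf [7,15,16])) (.free 1 [1,2,3]))), .t 9 (nat_lit 0x1249000212a312a21281128012451244) (.z (.edon 21 19 (.node 0 11 (.node 12 18 (.leaf [0,12,13,21]) (.leaf [14,15,16,17,18])) (.edon 4 6 (.free 2 [4,5,7,8,9,10,11]) (.leaf [1,3,6,2]))) (.free 1 [19,20,22]))), .t 11 (nat_lit 0x3de03d9128a115a11571110110b10f810f61242) (.z (.node 0 3 (.node 5 16 (.node 0 8 (.edon 0 12 (.leaf [0,9,10,11]) (.node 13 19 (.leaf [13,20,22,21]) (.leaf [12,14,17,19,18]))) (.leaf [4,5,8,6])) (.leaf [7,15,16])) (.free 1 [1,2,3]))), .t 9 (nat_lit 0x3dd03da12ab12a81242116910b610b5) (.z (.node 0 3 (.node 6 16 (.node 0 8 (.edon 0 12 (.leaf [0,9,10,11]) (.node 13 19 (.leaf [12,13,20,22,21]) (.leaf [15,17,19,18]))) (.leaf [4,6,8,5])) (.leaf [7,14,16])) (.free 1 [1,2,3]))),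 .t 15 (nat_lit 0x3e003dd03da12ae12ab12a804bc04b7040904070e9f0e9d12ba12b4) (.z (.node 0 3 (.node 6 16 (.node 0 9 (.node 0 14 (.node 0 20 (.leaf [0,21,22]) (.leaf [15,17,19,20,18])) (.leaf [11,14,13,12])) (.leaf [4,6,9,8,5])) (.leaf [7,10,16])) (.free 1 [1,2,3])))] (by decide +kernel) (by decide +kernel)
theorem b232 : B 7424 7456 := Blk.of_chk [.t 12 (nat_lit 0x12ae12ab12a801760034000400010e9f0e9d12ba12b4) (.z (.node 6 16 (.node 0 10 (.node 0 14 (.node 0 20 (.leaf [0,21,22]) (.leaf [15,17,19,20,18])) (.leaf [11,14,13,12])) (.node 3 10 (.leaf [1,3,5,9,2]) (.leaf [4,6,10]))) (.free 1 [7,8,16]))), .t 15 (nat_lit 0x3e703e303e012ae12ab12a804e804e3042e042c0e9f0e9d12ba12b4) (.z (.node 0 3 (.node 6 16 (.node 0 10 (.node 0 14 (.node 0 20 (.leaf [0,21,22]) (.leaf [15,17,19,20,18])) (.leaf [11,14,13,12])) (.leaf [4,6,10,9,5])) (.leaf [7,8,16])) (.free 1 [1,2,3]))),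 .t 7 (nat_lit 0x116910030f3c0f3b01d101d0) (.z (.node 2 4 (.edon 0 11 (.edon 6 8 (.leaf [6,7,10]) (.leaf [0,2,5,8,9])) (.node 12 19 (.leaf [11,12,20,22,21]) (.free 2 [13,14,15,16,17,18,19]))) (.free 1 [1,3,4]))), .t 15 (nat_lit 0x3da0408040503e303e012ae12ab12a804bb04b90e9f0e9d12ba12b4) (.z (.node 0 3 (.node 6 16 (.node 0 9 (.node 0 14 (.node 0 20 (.leaf [0,21,22]) (.leaf [15,17,19,20,18])) (.leaf [11,14,13,12])) (.leaf [4,6,8,9,5])) (.leaf [7,10,16])) (.free 1 [1,2,3]))), .t 12 (nat_lit 0x12ae12ab12a801760034000400010e9f0e9d12ba12b4) (.z (.node 6 16 (.node 0 9 (.node 0 14 (.node 0 20 (.leaf [0,21,22]) (.leaf [15,17,19,20,18])) (.leaf [11,14,13,12])) (.node 3 8 (.leaf [1,3,5,9,2]) (.leaf [4,6,8]))) (.free 1 [7,10,16]))), .t 12 (nat_lit 0x12ae12ab12a800430026000500040e9f0e9d12ba12b4) (.z (.node 6 16 (.node 0 10 (.node 0 14 (.node 0 20 (.leaf [0,21,22]) (.leaf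 [15,17,19,20,18])) (.leaf [11,14,13,12])) (.node 3 5 (.leaf [1,3,10,9,2]) (.leaf [4,5,6]))) (.free 1 [7,8,16]))), .t 9 (nat_lit 0x3dd03da12cb12421240123f0d880d86) (.z (.node 0 3 (.node 6 16 (.node 0 8 (.edon 0 13 (.leaf [0,9,10,11,12]) (.node 18 19 (.leaf [13,18,20,22,21]) (.leaf [14,17,19]))) (.leaf [4,6,8,5])) (.leaf [7,15,16])) (.free 1 [1,2,3]))), .t 15 (nat_lit 0xa4712490a5e0a5b0a4e0a4b12a312a212811280124512440a830a81) (.z (.node 0 2 (.edon 0 6 (.leaf [0,3,4,5]) (.edon 0 11 (.leaf [6,7,10,9,8]) (.edon 18 19 (.leaf [14,15,16,17,18]) (.free 2 [11,12,13,19,20,21,22])))) (.free 1 [1,2]))), .t 14 (nat_lit 0x4b704e804e304c404bf12ae12ab12a8000105a705a512ba12b4) (.z (.node 6 16 (.node 0 10 (.node 0 13 (.node 0 20 (.leaf [0,21,22]) (.leaf [15,17,19,20,18])) (.leaf [11,12,13])) (.edon 4 5 (.leaf [4,6,10,9,8]) (.leaf [1,3,5,2]))) (.free 1 [7,14,16]))), .t 9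 (nat_lit 0xa470a5e0a5b0a4e0a4b12cb0a830a81) (.z (.node 2 4 (.edon 0 12 (.node 5 9 (.leaf [0,2,5,11]) (.leaf [6,7,10,9,8])) (.node 18 19 (.leaf [18,20,22,21]) (.free 2 [12,13,14,15,16,17,19]))) (.free 1 [1,3,4]))), .t 14 (nat_lit 0x4b704e804e304c404bf12ae12ab12a8000105a705a512ba12b4) (.z (.node 6 16 (.node 0 10 (.node 0 14 (.node 0 20 (.leaf [0,21,22]) (.leaf [15,17,19,20,18])) (.leaf [12,13,14])) (.edon 4 5 (.leaf [4,6,10,9,8]) (.leaf [1,3,5,2]))) (.free 1 [7,11,16]))), .t 11 (nat_lit 0x4b704e804e304c404bf000105a705a50e9f0e9d) (.z (.node 6 16 (.node 0 10 (.node 0 14 (.free 2 [0,17,18,19,20,21,22]) (.leaf [11,14,13,12])) (.edon 4 5 (.leaf [4,6,10,9,8]) (.leaf [1,3,5,2]))) (.free 1 [7,15,16]))), .t 16 (nat_lit 0x4b704e804e304c404bf11b111ad11aa000105a705a5122e122b11cf11cd) (.z (.edon 0 20 (.node 6 16 (.node 0 10 (.edon 0 13 (.leaf [0,11,12]) (.leaf [13,17,19,18,14]))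 (.edon 4 5 (.leaf [4,6,10,9,8]) (.leaf [1,3,5,2]))) (.leaf [7,15,16])) (.free 1 [20,21,22]))), .t 14 (nat_lit 0x4b704e804e304c404bf12ae12ab12a8000105a705a512ba12b4) (.z (.node 6 16 (.node 0 10 (.node 0 14 (.node 0 20 (.leaf [0,21,22]) (.leaf [15,17,19,20,18])) (.leaf [11,12,14])) (.edon 4 5 (.leaf [4,6,10,9,8]) (.leaf [1,3,5,2]))) (.free 1 [7,13,16]))), .t 10 (nat_lit 0xa470a5e0a5b0a4e0a4b100910040a830a81) (.z (.edon 0 16 (.edon 0 12 (.node 2 4 (.node 5 8 (.leaf [0,2,5,11]) (.leaf [6,7,10,9,8])) (.leaf [1,3,4])) (.leaf [12,13,15,14])) (.free 2 [16,17,18,19,20,21,22]))), .t 6 (nat_lit 0x11073107212761275) (.z (.edon 21 19 (.node 0 11 (.node 15 17 (.leaf [0,14,15,18,21]) (.leaf [12,13,16,17])) (.edon 4 5 (.free 2 [4,6,7,8,9,10,11]) (.leaf [1,3,5,2]))) (.free 1 [19,20,22]))), .t 12 (nat_lit 0xa470a5e0a5b0a4e0a4b12cb1003100210010a830a81) (.z (.node 0 2 (.edon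 0 6 (.leaf [0,3,4,5]) (.edon 0 11 (.leaf [6,7,10,9,8]) (.node 11 19 (.leaf [11,18,20,22,21]) (.free 2 [12,13,14,15,16,17,19])))) (.free 1 [1,2]))), .t 14 (nat_lit 0x3e003dd03da04bc04b704090407120111ff12cb12a0129e129d) (.z (.node 0 3 (.node 6 16 (.node 0 9 (.edon 0 13 (.leaf [0,11,12]) (.node 14 19 (.leaf [14,18,20,22,21]) (.leaf [13,15,17,19]))) (.leaf [4,6,9,8,5])) (.leaf [7,10,16])) (.free 1 [1,2,3]))), .t 7 (nat_lit 0x1009100401d101d00a680a65) (.z (.edon 0 16 (.edon 0 12 (.node 2 4 (.edon 6 9 (.leaf [6,7,11,10]) (.leaf [0,2,5,8,9])) (.leaf [1,3,4])) (.leaf [12,13,15,14])) (.free 2 [16,17,18,19,20,21,22]))), .t 6 (nat_lit 0x10c990c96111c111b) (.z (.edon 19 4 (.node 0 5 (.node 0 11 (.edon 19 21 (.leaf [19,20,22]) (.leaf [0,12,14,18,21])) (.leaf [8,10,11,9])) (.leaf [1,3,5,2])) (.free 2 [4,6,7,13,15,16,17]))), .t 9 (nat_lit 0x116b119d119b11761173000111eb11ea)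 (.z (.edon 0 20 (.node 0 11 (.edon 14 19 (.leaf [13,15,16,17,14]) (.leaf [0,12,18,19])) (.edon 4 5 (.free 2 [4,6,7,8,9,10,11]) (.leaf [1,3,5,2]))) (.free 1 [20,21,22]))), .t 12 (nat_lit 0xa470a5e0a5b0a4e0a4b12cb1169116711660a830a81) (.z (.node 0 2 (.edon 0 6 (.leaf [0,3,4,5]) (.edon 0 11 (.leaf [6,7,10,9,8]) (.node 18 19 (.leaf [12,18,20,22,21]) (.free 2 [11,13,14,15,16,17,19])))) (.free 1 [1,2]))), .t 6 (nat_lit 0x12cb01d101d00a680a65) (.z (.node 2 4 (.edon 0 12 (.edon 6 9 (.leaf [6,7,11,10]) (.leaf [0,2,5,8,9])) (.node 18 19 (.leaf [18,20,22,21]) (.free 2 [12,13,14,15,16,17,19]))) (.free 1 [1,3,4]))), .t 9 (nat_lit 0xa470a5e0a5b0a4e0a4b11690a830a81) (.z (.node 0 3 (.edon 0 12 (.node 4 9 (.leaf [0,4,5,11]) (.leaf [6,7,10,9,8])) (.node 12 19 (.leaf [12,20,22,21]) (.free 2 [13,14,15,16,17,18,19]))) (.free 1 [1,2,3]))), .t 6 (nat_lit 0x116901d101d00a680a65)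 (.z (.node 2 4 (.edon 0 12 (.edon 6 9 (.leaf [6,7,11,10]) (.leaf [0,2,5,8,9])) (.node 12 19 (.leaf [12,20,22,21]) (.free 2 [13,14,15,16,17,18,19]))) (.free 1 [1,3,4]))), .t 10 (nat_lit 0x116b119d119b117611730c990c9611eb11ea) (.z (.node 0 7 (.node 0 11 (.edon 14 19 (.leaf [13,15,16,17,14]) (.free 2 [0,12,18,19,20,21,22])) (.leaf [8,10,11,9])) (.free 2 [1,2,3,4,5,6,7]))), .t 9 (nat_lit 0xa5f0a5e0a5b11690ad90ad60a670a66) (.z (.node 2 4 (.edon 0 12 (.edon 6 8 (.leaf [6,7,10,11,9]) (.leaf [0,2,5,8])) (.node 12 19 (.leaf [12,20,22,21]) (.free 2 [13,14,15,16,17,18,19]))) (.free 1 [1,3,4]))), .t 15 (nat_lit 0xa470a5e0a5b0a4e0a4b124511eb11e9119d119b117711750a830a81) (.z (.node 0 2 (.edon 0 6 (.leaf [0,3,4,5]) (.edon 0 11 (.leaf [6,7,10,9,8]) (.edon 14 19 (.leaf [13,16,17,15,14]) (.free 2 [11,12,18,19,20,21,22])))) (.free 1 [1,2]))), .t 10 (nat_lit 0x1009100403dd0326032502f902ef0bdd0bda)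 (.z (.edon 0 16 (.edon 0 3 (.leaf [0,1,2]) (.edon 0 12 (.edon 7 8 (.leaf [7,10,11,9]) (.leaf [3,4,6,8,5])) (.leaf [12,13,15,14]))) (.free 2 [16,17,18,19,20,21,22]))), .t 9 (nat_lit 0x4c604bc04b7000105ae05ab04ef04ed) (.z (.node 6 16 (.node 0 11 (.edon 0 15 (.leaf [0,12,13,14]) (.free 2 [15,17,18,19,20,21,22])) (.edon 4 5 (.leaf [4,6,9,11,8]) (.leaf [1,3,5,2]))) (.free 1 [7,10,16]))), .t 7 (nat_lit 0x1009100401e901e80a4e0a4b) (.z (.edon 0 16 (.edon 0 12 (.node 2 4 (.edon 6 9 (.leaf [6,7,10,8]) (.leaf [0,2,5,9,11])) (.leaf [1,3,4])) (.leaf [12,13,15,14])) (.free 2 [16,17,18,19,20,21,22]))), .t 10 (nat_lit 0xc990c96124511eb11e9119d119b11771175) (.z (.node 0 7 (.node 0 11 (.edon 14 19 (.leaf [13,16,17,15,14]) (.free 2 [0,12,18,19,20,21,22])) (.leaf [8,10,11,9])) (.free 2 [1,2,3,4,5,6,7])))] (by decide +kernel) (by decide +kernel)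
theorem b233 : B 7456 7488 := Blk.of_chk [.t 7 (nat_lit 0xc990c96111c111b11eb11e9) (.z (.node 0 7 (.node 0 11 (.edon 15 19 (.leaf [13,16,17,15]) (.edon 19 21 (.leaf [19,20,22]) (.leaf [0,12,14,18,21]))) (.leaf [8,10,11,9])) (.free 2 [1,2,3,4,5,6,7]))), .t 7 (nat_lit 0x100910040a4e0a4b01e901e8) (.z (.edon 0 16 (.edon 0 12 (.node 4 8 (.node 2 4 (.leaf [0,2,5,9,11]) (.leaf [1,3,4])) (.leaf [6,7,10,8])) (.leaf [12,13,15,14])) (.free 2 [16,17,18,19,20,21,22]))), .t 12 (nat_lit 0x176003400040001124511eb11e9119d119b11771175) (.z (.edon 0 20 (.node 0 12 (.node 0 17 (.leaf [0,18,19]) (.leaf [13,16,17,15,14])) (.edon 4 9 (.free 2 [4,6,7,8,10,11,12]) (.leaf [1,3,5,9,2]))) (.free 1 [20,21,22]))), .t 7 (nat_lit 0x1009100401d101d00a670a66) (.z (.edon 0 16 (.edon 0 12 (.node 2 4 (.edon 6 8 (.leaf [6,7,10,11]) (.leaf [0,2,5,8,9])) (.leaf [1,3,4])) (.leaf [12,13,15,14]))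 (.free 2 [16,17,18,19,20,21,22]))), .t 7 (nat_lit 0x116f116d0176003400040001) (.z (.node 16 0 (.edon 0 13 (.edon 4 9 (.free 2 [4,6,7,8,10,11,12]) (.leaf [1,3,5,9,2])) (.leaf [13,16,15,14])) (.free 2 [0,17,18,19,20,21,22]))), .t 9 (nat_lit 0x4eb04e804e3000106560653050a0508) (.z (.node 6 16 (.node 0 11 (.edon 0 15 (.leaf [0,12,13,14]) (.free 2 [15,17,18,19,20,21,22])) (.edon 4 5 (.leaf [4,6,10,11,9]) (.leaf [1,3,5,2]))) (.free 1 [7,8,16]))), .t 10 (nat_lit 0x88f100910040a4d0a4c08cc08cb088a0889) (.z (.edon 0 16 (.edon 0 12 (.node 2 4 (.node 2 10 (.leaf [0,2,9,11]) (.leaf [5,6,7,8,10])) (.leaf [1,3,4])) (.leaf [12,13,15,14])) (.free 2 [16,17,18,19,20,21,22]))), .t 8 (nat_lit 0x88f0a4d0a4c08cc08cb088a0889) (.z (.node 2 4 (.node 2 10 (.free 4 [0,2,9,11,12,13,14,15,16,17,18,19,20,21,22]) (.leaf [5,6,7,8,10])) (.free 1 [1,3,4]))), .t 10 (nat_lit 0x1009100403e3032c032a02fa02f00bb10bac)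 (.z (.edon 0 16 (.edon 0 3 (.leaf [0,1,2]) (.edon 0 12 (.edon 7 9 (.leaf [7,8,11,10]) (.leaf [3,4,6,9,5])) (.leaf [12,13,15,14]))) (.free 2 [16,17,18,19,20,21,22]))), .t 9 (nat_lit 0x10a8305a705a204e804e304c304c1) (.z (.node 6 16 (.node 0 10 (.edon 0 15 (.leaf [0,12,13,14]) (.free 2 [15,17,18,19,20,21,22])) (.edon 4 5 (.leaf [4,6,8,10,9]) (.leaf [1,3,5,2]))) (.free 1 [7,11,16]))), .t 7 (nat_lit 0x1009100401d101d00a680a65) (.z (.edon 0 16 (.edon 0 12 (.node 2 4 (.edon 6 8 (.leaf [6,7,11,10]) (.leaf [0,2,5,8,9])) (.leaf [1,3,4])) (.leaf [12,13,15,14])) (.free 2 [16,17,18,19,20,21,22]))), .t 1 (nat_lit 0) (.cn 3 2), .t 7 (nat_lit 0x116f116d0179003700070001) (.z (.node 16 0 (.edon 0 13 (.node 5 9 (.leaf [1,3,5,12,2]) (.free 2 [4,6,7,8,9,10,11])) (.leaf [13,16,15,14])) (.free 2 [0,17,18,19,20,21,22]))), .t 9 (nat_lit 0x3dd03da12c912a0129912980da10d9f) (.z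 (.node 0 3 (.node 6 16 (.node 0 8 (.edon 0 14 (.leaf [0,9,10,12,13]) (.edon 15 20 (.leaf [15,18,19]) (.leaf [14,17,20,22,21]))) (.leaf [4,6,8,5])) (.leaf [7,11,16])) (.free 1 [1,2,3]))), .t 12 (nat_lit 0x12561254125003dd03da12891286126c126a0da10d9f) (.z (.node 0 3 (.node 6 16 (.node 0 8 (.edon 0 14 (.leaf [0,9,10,12,13]) (.edon 0 20 (.leaf [14,15,18,19,17]) (.leaf [20,21,22]))) (.leaf [4,6,8,5])) (.leaf [7,11,16])) (.free 1 [1,2,3]))), .t 13 (nat_lit 0xa530a520a4f0abb0ab90a6d0a6c042e042c034a034802f0) (.z (.edon 0 13 (.node 4 8 (.edon 0 3 (.leaf [0,1,2]) (.leaf [3,4,10,9,5])) (.leaf [6,7,11,12,8])) (.free 3 [13,14,15,16,17,18,19,20,21,22]))), .t 6 (nat_lit 0x12a001e401e30a520a4f) (.z (.node 2 4 (.edon 0 12 (.edon 6 10 (.leaf [6,7,11,8]) (.leaf [0,2,5,9,10])) (.node 14 19 (.leaf [14,20,22,21]) (.free 2 [12,13,15,16,17,18,19]))) (.free 1 [1,3,4]))), .t 7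 (nat_lit 0x12a0116911251124088a0889) (.z (.node 2 4 (.edon 0 11 (.node 2 8 (.leaf [0,2,9,10]) (.leaf [5,6,7,8])) (.node 14 19 (.leaf [12,14,20,22,21]) (.free 2 [11,13,15,16,17,18,19]))) (.free 1 [1,3,4]))), .t 12 (nat_lit 0x3da0408040503e303e004bb04b912c912a012991298) (.z (.node 0 3 (.node 6 16 (.node 0 9 (.edon 0 14 (.leaf [0,10,12,13]) (.edon 15 20 (.leaf [15,18,19]) (.leaf [14,17,20,22,21]))) (.leaf [4,6,8,9,5])) (.leaf [7,11,16])) (.free 1 [1,2,3]))), .t 6 (nat_lit 0x12c901e401e30a520a4f) (.z (.node 2 4 (.edon 0 12 (.edon 6 10 (.leaf [6,7,11,8]) (.leaf [0,2,5,9,10])) (.node 17 19 (.leaf [17,20,22,21]) (.free 2 [12,13,14,15,16,18,19]))) (.free 1 [1,3,4]))), .t 7 (nat_lit 0x12c9116911621161088a0889) (.z (.node 2 4 (.edon 0 11 (.node 2 8 (.leaf [0,2,9,10]) (.leaf [5,6,7,8])) (.node 17 19 (.leaf [12,17,20,22,21]) (.free 2 [11,13,14,15,16,18,19]))) (.free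 1 [1,3,4]))), .t 9 (nat_lit 0x104110771075105410510001112b112a) (.z (.edon 21 19 (.node 0 11 (.node 14 18 (.leaf [0,14,17,21]) (.leaf [12,15,16,18,13])) (.edon 4 5 (.free 2 [4,6,7,8,9,10,11]) (.leaf [1,3,5,2]))) (.free 1 [19,20,22]))), .t 6 (nat_lit 0x11105110411ef11ee) (.z (.edon 21 19 (.node 0 11 (.edon 13 17 (.leaf [13,15,16,18]) (.leaf [0,12,14,17,21])) (.edon 4 5 (.free 2 [4,6,7,8,9,10,11]) (.leaf [1,3,5,2]))) (.free 1 [19,20,22]))), .t 9 (nat_lit 0x10a8b05af05aa04f004eb04ca04c8) (.z (.node 6 16 (.node 0 11 (.edon 0 15 (.leaf [0,12,13,14]) (.free 2 [15,17,18,19,20,21,22])) (.edon 4 5 (.leaf [4,6,8,11,9]) (.leaf [1,3,5,2]))) (.free 1 [7,10,16]))), .t 16 (nat_lit 0x3da0408040503e303e012561254125004bb04b912891286126c126a1169) (.z (.node 0 3 (.node 6 16 (.node 0 9 (.edon 0 12 (.leaf [0,10,11]) (.node 12 19 (.leaf [12,20,22,21]) (.leaf [14,15,18,19,17])))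 (.leaf [4,6,8,9,5])) (.leaf [7,13,16])) (.free 1 [1,2,3]))), .t 10 (nat_lit 0xea30e9e0e9b0f420f3d0ed50ed301d101d0) (.z (.edon 0 16 (.edon 0 11 (.node 2 4 (.edon 6 8 (.leaf [6,7,10]) (.leaf [0,2,5,8,9])) (.leaf [1,3,4])) (.leaf [11,13,15,14,12])) (.free 2 [16,17,18,19,20,21,22]))), .t 1 (nat_lit 0) (.cn 2 3), .t 11 (nat_lit 0x10d203dd03da126c126a1146114410ca10c812c9) (.z (.node 0 3 (.node 6 16 (.node 0 8 (.edon 0 12 (.leaf [0,9,10,11]) (.node 17 19 (.leaf [17,20,22,21]) (.leaf [12,14,15,18,19]))) (.leaf [4,6,8,5])) (.leaf [7,13,16])) (.free 1 [1,2,3]))), .t 6 (nat_lit 0x10c9a0c9811051104) (.z (.edon 19 4 (.node 0 5 (.node 0 11 (.edon 19 21 (.leaf [19,20,22]) (.leaf [0,12,14,17,21])) (.leaf [8,11,10,9])) (.leaf [1,3,5,2])) (.free 2 [4,6,7,13,15,16,18]))), .t 14 (nat_lit 0x12af12aa12a900010a8305a705a204e804e304c304c112ba12b4) (.z (.node 6 16 (.node 0 10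 (.node 0 14 (.node 0 20 (.leaf [0,21,22]) (.leaf [15,18,19,20,17])) (.leaf [11,12,14])) (.edon 4 5 (.leaf [4,6,8,10,9]) (.leaf [1,3,5,2]))) (.free 1 [7,13,16]))), .t 7 (nat_lit 0x17800360006000105a705a2) (.z (.edon 0 16 (.node 4 15 (.node 0 11 (.leaf [0,12,13,14]) (.edon 4 5 (.leaf [4,8,10,9]) (.leaf [1,3,5,11,2]))) (.leaf [6,7,15])) (.free 2 [16,17,18,19,20,21,22]))), .t 12 (nat_lit 0x12a41229122611fa11f611ef11ee0a4e0a4b01e901e8) (.z (.edon 21 19 (.edon 0 12 (.node 4 8 (.node 2 4 (.leaf [0,2,5,9,11]) (.leaf [1,3,4])) (.leaf [6,7,10,8])) (.edon 13 21 (.leaf [13,15,16,18,17]) (.leaf [12,14,21]))) (.free 1 [19,20,22])))] (by decide +kernel) (by decide +kernel)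

end Pool.Agent.GCP.F7
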