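import Pool.Agent.GCP.F7Db

set_option autoImplicit false
set_option maxRecDepth 100000

/-! # Blocks F7B14 (generated) -/

namespace Pool.Agent.GCP.F7

open Pool.Agent.GCP DB

theorem b234 : B 7488 7520 := Blk.of_chk [.t 10 (nat_lit 0x104110771075105410510c990c96112b112a) (.z (.node 0 7 (.node 0 11 (.edon 13 19 (.leaf [12,15,16,18,13]) (.free 2 [0,14,17,19,20,21,22])) (.leaf [8,10,11,9])) (.free 2 [1,2,3,4,5,6,7]))), .t 5 (nat_lit 0x18a004b00070006) (.z (.edon 0 16 (.node 0 12 (.leaf [0,13,14,15]) (.node 3 9 (.leaf [1,3,11,12,2]) (.free 2 [4,5,6,7,8,9,10]))) (.free 2 [16,17,18,19,20,21,22]))), .t 10 (nat_lit 0x17600340004000112b41234121f12071206) (.z (.edon 19 4 (.node 0 9 (.node 0 12 (.node 0 20 (.leaf [0,21,22]) (.leaf [13,19,20,17,15])) (.leaf [10,11,12])) (.leaf [1,3,5,9,2])) (.free 2 [4,6,7,8,14,16,18]))), .t 10 (nat_lit 0x1008100503e3032c032a02fa02f00bb10bac)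 (.z (.edon 0 16 (.edon 0 3 (.leaf [0,1,2]) (.edon 0 12 (.edon 7 9 (.leaf [7,8,11,10]) (.leaf [3,4,6,9,5])) (.leaf [12,14,15,13]))) (.free 2 [16,17,18,19,20,21,22]))), .t 10 (nat_lit 0x88f100810050a4d0a4c08cc08cb088a0889) (.z (.edon 0 16 (.edon 0 12 (.node 2 4 (.node 2 10 (.leaf [0,2,9,11]) (.leaf [5,6,7,8,10])) (.leaf [1,3,4])) (.leaf [12,14,15,13])) (.free 2 [16,17,18,19,20,21,22]))), .t 15 (nat_lit 0x3e703e303e012af12aa12a904e804e3042e042c0e9f0e9d12ba12b4) (.z (.node 0 3 (.node 6 16 (.node 0 10 (.node 0 14 (.node 0 20 (.leaf [0,21,22]) (.leaf [15,18,19,20,17])) (.leaf [11,14,13,12])) (.leaf [4,6,10,9,5])) (.leaf [7,8,16])) (.free 1 [1,2,3]))), .t 11 (nat_lit 0x3e703e303e004e804e3042e042c126c126912c9) (.z (.node 0 3 (.node 6 16 (.node 0 10 (.edon 0 14 (.leaf [0,11,12,13]) (.node 17 19 (.leaf [17,20,22,21]) (.leaf [14,18,19,15]))) (.leaf [4,6,10,9,5]))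 (.leaf [7,8,16])) (.free 1 [1,2,3]))), .t 9 (nat_lit 0x10a8305a705a204e804e304c304c1) (.z (.node 6 16 (.node 0 10 (.edon 0 14 (.leaf [0,11,12,13]) (.free 2 [14,17,18,19,20,21,22])) (.edon 4 5 (.leaf [4,6,8,10,9]) (.leaf [1,3,5,2]))) (.free 1 [7,15,16]))), .t 14 (nat_lit 0x12af12aa12a900010a8305a705a204e804e304c304c112ba12b4) (.z (.node 6 16 (.node 0 10 (.node 0 13 (.node 0 20 (.leaf [0,21,22]) (.leaf [15,18,19,20,17])) (.leaf [11,12,13])) (.edon 4 5 (.leaf [4,6,8,10,9]) (.leaf [1,3,5,2]))) (.free 1 [7,14,16]))), .t 1 (nat_lit 0) (.cn 2 3), .t 7 (nat_lit 0x1760034000400010df90df7) (.z (.edon 19 4 (.node 0 9 (.node 0 13 (.free 2 [0,14,17,19,20,21,22]) (.leaf [10,13,12,11])) (.leaf [1,3,5,9,2])) (.free 2 [4,6,7,8,15,16,18]))), .t 7 (nat_lit 0x17800360006000104e804e3) (.z (.node 6 16 (.node 0 11 (.edon 0 15 (.leaf [0,12,13,14]) (.free 2 [15,17,18,19,20,21,22]))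 (.edon 4 5 (.leaf [4,6,10,9]) (.leaf [1,3,5,11,2]))) (.free 1 [7,8,16]))), .t 12 (nat_lit 0x12561254125003dd03da12891286126c126a0db40db2) (.z (.node 0 3 (.node 6 16 (.node 0 8 (.edon 0 14 (.leaf [0,9,11,12,13]) (.edon 0 20 (.leaf [14,15,18,19,17]) (.leaf [20,21,22]))) (.leaf [4,6,8,5])) (.leaf [7,10,16])) (.free 1 [1,2,3]))), .t 9 (nat_lit 0x11b811b511b000010c990c96123411e0) (.z (.edon 19 4 (.node 0 5 (.node 0 11 (.node 0 20 (.leaf [0,21,22]) (.leaf [13,14,19,20,17])) (.leaf [8,10,11,9])) (.leaf [1,3,5,2])) (.free 2 [4,6,7,12,15,16,18]))), .t 9 (nat_lit 0xa4b0a6a0a690a540a5300060aaa0aa8) (.z (.edon 0 16 (.node 0 12 (.leaf [0,13,14,15]) (.edon 4 11 (.edon 6 9 (.leaf [6,7,12,10,8]) (.leaf [4,5,9])) (.leaf [1,3,11,2]))) (.free 2 [16,17,18,19,20,21,22]))), .t 10 (nat_lit 0x1059104c104911381133108910870d720d71) (.z (.node 0 7 (.edon 0 20 (.edon 8 19 (.leaf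 [8,14,16,18]) (.edon 0 12 (.leaf [0,9,10,11]) (.leaf [12,15,19,17,13]))) (.leaf [20,21,22])) (.free 2 [1,2,3,4,5,6,7]))), .t 10 (nat_lit 0xa650a6e0a6b0a6a0a6901d101d00b090b07) (.z (.edon 0 16 (.node 0 12 (.leaf [0,13,14,15]) (.node 2 4 (.edon 6 8 (.leaf [6,7,12,11,10]) (.leaf [2,5,8,9])) (.leaf [1,3,4]))) (.free 2 [16,17,18,19,20,21,22]))), .t 7 (nat_lit 0x124210030fa40fa301d101d0) (.z (.node 2 4 (.edon 0 11 (.edon 6 8 (.leaf [6,7,10]) (.leaf [0,2,5,8,9])) (.node 13 17 (.leaf [11,13,20,22,21]) (.free 2 [12,14,15,16,17,18,19]))) (.free 1 [1,3,4]))), .t 7 (nat_lit 0x1008100501d101d00a670a66) (.z (.edon 0 16 (.edon 0 12 (.node 2 4 (.edon 6 8 (.leaf [6,7,10,11]) (.leaf [0,2,5,8,9])) (.leaf [1,3,4])) (.leaf [12,14,15,13])) (.free 2 [16,17,18,19,20,21,22]))), .t 15 (nat_lit 0x3da0408040503e303e012af12aa12a904bb04b90e9f0e9d12ba12b4) (.z (.node 0 3 (.node 6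 16 (.node 0 9 (.node 0 14 (.node 0 20 (.leaf [0,21,22]) (.leaf [15,18,19,20,17])) (.leaf [11,14,13,12])) (.leaf [4,6,8,9,5])) (.leaf [7,10,16])) (.free 1 [1,2,3]))), .t 12 (nat_lit 0xa470a5e0a5b0a4e0a4b116910030f3c0f3b0a830a81) (.z (.node 0 2 (.edon 0 6 (.leaf [0,3,4,5]) (.edon 0 11 (.leaf [6,7,10,9,8]) (.node 12 19 (.leaf [11,12,20,22,21]) (.free 2 [13,14,15,16,17,18,19])))) (.free 1 [1,2]))), .t 12 (nat_lit 0xa470a5e0a5b0a4e0a4b12c910030ffe0ffd0a830a81) (.z (.node 0 2 (.edon 0 6 (.leaf [0,3,4,5]) (.edon 0 11 (.leaf [6,7,10,9,8]) (.node 17 19 (.leaf [11,17,20,22,21]) (.free 2 [12,13,14,15,16,18,19])))) (.free 1 [1,2]))), .t 17 (nat_lit 0xa470ecb0a5e0a5b0a4e0a4b109710950f8f0f8e0eb20eb0124912470a830a81) (.z (.node 0 2 (.edon 0 6 (.leaf [0,3,4,5]) (.edon 0 11 (.leaf [6,7,10,9,8]) (.edon 19 21 (.leaf [19,20,22]) (.edon 14 17 (.leaf [14,16,18,15]) (.leaf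 [11,12,13,17,21]))))) (.free 1 [1,2]))), .t 14 (nat_lit 0x4c604bc04b712af12aa12a9000105ae05ab04ef04ed12ba12b4) (.z (.node 6 16 (.node 0 11 (.node 0 14 (.node 0 20 (.leaf [0,21,22]) (.leaf [15,18,19,20,17])) (.leaf [12,13,14])) (.edon 4 5 (.leaf [4,6,9,11,8]) (.leaf [1,3,5,2]))) (.free 1 [7,10,16]))), .t 10 (nat_lit 0x1008100503dd0326032502f902ef0bdd0bda) (.z (.edon 0 16 (.edon 0 3 (.leaf [0,1,2]) (.edon 0 12 (.edon 7 8 (.leaf [7,10,11,9]) (.leaf [3,4,6,8,5])) (.leaf [12,14,15,13]))) (.free 2 [16,17,18,19,20,21,22]))), .t 12 (nat_lit 0xa470a5e0a5b0a4e0a4b12c910030ffe0ffd0a830a81) (.z (.node 0 2 (.edon 0 6 (.leaf [0,3,4,5]) (.edon 0 11 (.leaf [6,7,10,9,8]) (.node 11 19 (.leaf [11,17,20,22,21]) (.free 2 [12,13,14,15,16,18,19])))) (.free 1 [1,2]))), .t 8 (nat_lit 0xa470a5e0a5b0a4e0a4b0a830a81) (.z (.edon 0 16 (.node 0 12 (.leaf [0,13,14,15]) (.node 4 8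 (.free 2 [1,2,3,4,5,11,12]) (.leaf [6,7,10,9,8]))) (.free 2 [16,17,18,19,20,21,22]))), .t 9 (nat_lit 0x3dd03da1146114412c91242123a1239) (.z (.node 0 3 (.node 6 16 (.node 0 8 (.edon 0 12 (.leaf [0,9,10,11]) (.node 13 19 (.leaf [13,17,20,22,21]) (.leaf [12,15,18,19]))) (.leaf [4,6,8,5])) (.leaf [7,14,16])) (.free 1 [1,2,3]))), .t 14 (nat_lit 0x4b704e804e304c404bf12af12aa12a905a705a5000112ba12b4) (.z (.node 6 16 (.node 0 10 (.node 0 13 (.node 0 20 (.leaf [0,21,22]) (.leaf [15,18,19,20,17])) (.leaf [11,12,13])) (.node 3 8 (.leaf [1,3,5,2]) (.leaf [4,6,10,9,8]))) (.free 1 [7,14,16]))), .t 9 (nat_lit 0x11690a680a6504090407033b033902ef) (.z (.edon 0 3 (.free 1 [0,1,2]) (.edon 0 12 (.node 4 10 (.leaf [3,4,9,8,5]) (.leaf [6,7,11,10])) (.node 12 19 (.leaf [12,20,22,21]) (.free 2 [13,14,15,16,17,18,19]))))), .t 6 (nat_lit 0x10c990c9611051104) (.z (.edon 19 4 (.node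 0 5 (.node 0 11 (.edon 19 21 (.leaf [19,20,22]) (.leaf [0,12,14,17,21])) (.leaf [8,10,11,9])) (.leaf [1,3,5,2])) (.free 2 [4,6,7,13,15,16,18]))), .t 11 (nat_lit 0x12561254125003dd03da12891286126c126a1169) (.z (.node 0 3 (.node 6 16 (.node 0 8 (.edon 0 12 (.leaf [0,9,10,11]) (.node 12 19 (.leaf [12,20,22,21]) (.leaf [14,15,18,19,17]))) (.leaf [4,6,8,5])) (.leaf [7,13,16])) (.free 1 [1,2,3])))] (by decide +kernel) (by decide +kernel)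
theorem b235 : B 7520 7552 := Blk.of_chk [.t 9 (nat_lit 0xa470a5e0a5b0a4e0a4b11690a830a81) (.z (.node 2 4 (.edon 0 12 (.node 5 8 (.leaf [0,2,5,11]) (.leaf [6,7,10,9,8])) (.node 12 19 (.leaf [12,20,22,21]) (.free 2 [13,14,15,16,17,18,19]))) (.free 1 [1,3,4]))), .t 11 (nat_lit 0x10241021101c03dd03da110f110c109e109c12c9) (.z (.node 0 3 (.node 6 16 (.node 0 8 (.edon 0 12 (.leaf [0,9,10,11]) (.node 17 19 (.leaf [17,20,22,21]) (.leaf [12,13,18,19,14]))) (.leaf [4,6,8,5])) (.leaf [7,15,16])) (.free 1 [1,2,3]))), .t 9 (nat_lit 0xa470a5e0a5b0a4e0a4b12c90a830a81) (.z (.node 2 4 (.edon 0 12 (.node 5 8 (.leaf [0,2,5,11]) (.leaf [6,7,10,9,8])) (.node 17 19 (.leaf [17,20,22,21]) (.free 2 [12,13,14,15,16,18,19]))) (.free 1 [1,3,4]))), .t 9 (nat_lit 0xa5f0a5e0a5b12c90ad90ad60a670a66) (.z (.node 2 4 (.edon 0 12 (.edon 6 8 (.leaf [6,7,10,11,9]) (.leaf [0,2,5,8])) (.node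 17 19 (.leaf [17,20,22,21]) (.free 2 [12,13,14,15,16,18,19]))) (.free 1 [1,3,4]))), .t 14 (nat_lit 0x4b704e804e304c404bf12af12aa12a905a705a5000112ba12b4) (.z (.node 6 16 (.node 0 10 (.node 0 14 (.node 0 20 (.leaf [0,21,22]) (.leaf [15,18,19,20,17])) (.leaf [11,12,14])) (.node 3 8 (.leaf [1,3,5,2]) (.leaf [4,6,10,9,8]))) (.free 1 [7,13,16]))), .t 9 (nat_lit 0x4b704e804e304c404bf05a705a50001) (.z (.node 6 16 (.node 0 10 (.edon 0 15 (.leaf [0,11,13,14]) (.free 2 [15,17,18,19,20,21,22])) (.node 3 8 (.leaf [1,3,5,2]) (.leaf [4,6,10,9,8]))) (.free 1 [7,12,16]))), .t 15 (nat_lit 0x12561254125012891286126c126a0d900d8e03dd0326032502f902ef) (.z (.edon 0 3 (.free 1 [0,1,2]) (.node 6 16 (.edon 0 9 (.leaf [3,4,6,8,5]) (.edon 0 14 (.leaf [9,13,11,10]) (.edon 0 20 (.leaf [14,15,18,19,17]) (.leaf [20,21,22])))) (.leaf [7,12,16])))), .t 9 (nat_lit 0x1294115c111f110110ff11ef11ee0001)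 (.z (.node 20 0 (.edon 0 12 (.edon 4 5 (.free 2 [4,6,7,8,9,10,11]) (.leaf [1,3,5,2])) (.edon 13 19 (.leaf [13,15,16,18]) (.leaf [12,19,20,17,14]))) (.free 1 [0,21,22]))), .t 14 (nat_lit 0x4bf04bc04b712af12aa12a9000105a605a304e704e512ba12b4) (.z (.node 6 16 (.node 0 10 (.node 0 14 (.node 0 20 (.leaf [0,21,22]) (.leaf [15,18,19,20,17])) (.leaf [11,12,14])) (.edon 4 5 (.leaf [4,6,9,10,8]) (.leaf [1,3,5,2]))) (.free 1 [7,13,16]))), .t 6 (nat_lit 0x12c90a4a0a4701fc01fb) (.z (.node 2 4 (.edon 0 12 (.node 5 8 (.leaf [0,2,5,10,11]) (.leaf [6,7,9,8])) (.edon 12 20 (.free 2 [12,13,14,15,16,18,19]) (.leaf [17,20,22,21]))) (.free 1 [1,3,4]))), .t 6 (nat_lit 0x12c90a4a0a4701fc01fb) (.z (.node 2 4 (.edon 0 12 (.node 5 8 (.leaf [0,2,5,10,11]) (.leaf [6,7,9,8])) (.node 17 19 (.leaf [17,20,22,21]) (.free 2 [12,13,14,15,16,18,19]))) (.free 1 [1,3,4]))), .t 9 (nat_lit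 0x12c903dd0326032502f902ef0bde0bdc) (.z (.edon 0 3 (.free 1 [0,1,2]) (.edon 0 12 (.edon 7 8 (.leaf [7,11,10,9]) (.leaf [3,4,6,8,5])) (.node 17 19 (.leaf [17,20,22,21]) (.free 2 [12,13,14,15,16,18,19]))))), .t 16 (nat_lit 0x3e003dd03da12561254125004bc04b70409040712891286126c126a1169) (.z (.node 0 3 (.node 6 16 (.node 0 9 (.edon 0 12 (.leaf [0,10,11]) (.node 12 19 (.leaf [12,20,22,21]) (.leaf [14,15,18,19,17]))) (.leaf [4,6,9,8,5])) (.leaf [7,13,16])) (.free 1 [1,2,3]))), .t 9 (nat_lit 0x12c9100910040411040f033f033e02ef) (.z (.edon 0 3 (.free 1 [0,1,2]) (.node 4 19 (.edon 0 12 (.leaf [3,4,10,8,5]) (.edon 0 17 (.leaf [12,13,15,14]) (.leaf [17,20,22,21]))) (.free 2 [6,7,9,11,16,18,19])))), .t 11 (nat_lit 0x3e703dd03da04c404bf0411040f1211120e12c9) (.z (.node 0 3 (.node 6 16 (.node 0 10 (.edon 13 14 (.node 17 19 (.leaf [17,20,22,21]) (.leaf [13,18,19,15]))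 (.leaf [0,11,12,14])) (.leaf [4,6,10,8,5])) (.leaf [7,9,16])) (.free 1 [1,2,3]))), .t 9 (nat_lit 0x128e1289128610451043129a12940001) (.z (.node 20 0 (.edon 0 12 (.edon 4 5 (.free 2 [4,6,7,8,9,10,11]) (.leaf [1,3,5,2])) (.node 14 16 (.leaf [14,18,19,20,17]) (.leaf [12,16,15,13]))) (.free 1 [0,21,22]))), .t 15 (nat_lit 0x3e703dd03da12561254125004c404bf0411040f12891286126c126a) (.z (.node 0 3 (.node 6 16 (.node 0 10 (.edon 0 14 (.leaf [0,11,12,13]) (.edon 0 20 (.leaf [14,15,18,19,17]) (.leaf [20,21,22]))) (.leaf [4,6,10,8,5])) (.leaf [7,9,16])) (.free 1 [1,2,3]))), .t 6 (nat_lit 0x1242088a088902770275) (.z (.node 2 4 (.edon 0 12 (.node 2 8 (.leaf [0,2,9,10,11]) (.leaf [5,6,7,8])) (.node 13 19 (.leaf [13,20,22,21]) (.free 2 [12,14,15,16,17,18,19]))) (.free 1 [1,3,4]))), .t 6 (nat_lit 0x124201e901e80a4e0a4b) (.z (.node 2 4 (.edon 0 12 (.edon 6 9 (.leaf [6,7,10,8])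 (.leaf [0,2,5,9,11])) (.node 13 19 (.leaf [13,20,22,21]) (.free 2 [12,14,15,16,17,18,19]))) (.free 1 [1,3,4]))), .t 4 (nat_lit 0x10db40db2) (.z (.edon 19 4 (.node 0 5 (.edon 0 14 (.leaf [0,9,11,12,13]) (.free 2 [14,15,17,19,20,21,22])) (.leaf [1,3,5,2])) (.free 2 [4,6,7,8,10,16,18]))), .t 7 (nat_lit 0x12c91242123a12390d7e0d7d) (.z (.node 0 7 (.edon 8 19 (.leaf [8,15,16,18]) (.edon 0 12 (.leaf [0,9,10,11]) (.edon 14 20 (.leaf [12,14,19]) (.leaf [13,17,20,22,21])))) (.free 2 [1,2,3,4,5,6,7]))), .t 7 (nat_lit 0x17600340004000111c311c1) (.z (.edon 19 4 (.node 0 9 (.node 0 12 (.edon 19 21 (.leaf [19,20,22]) (.leaf [0,13,14,17,21])) (.leaf [10,11,12])) (.leaf [1,3,5,9,2])) (.free 2 [4,6,7,8,15,16,18]))), .t 5 (nat_lit 0x12c912a012991298) (.z (.node 4 19 (.node 0 10 (.edon 0 14 (.leaf [0,11,12,13]) (.leaf [14,17,20,22,21])) (.free 2 [1,2,3,4,5,9,10])) (.free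 2 [6,7,8,15,16,18,19]))), .t 10 (nat_lit 0x12c91242123a1239042e042c034a034802f0) (.z (.edon 0 3 (.free 1 [0,1,2]) (.node 4 19 (.edon 0 11 (.leaf [3,4,10,9,5]) (.node 13 15 (.leaf [13,17,20,22,21]) (.leaf [11,12,15]))) (.free 2 [6,7,8,14,16,18,19])))), .t 7 (nat_lit 0x12a0116911251124088a0889) (.z (.node 2 4 (.edon 0 11 (.node 2 8 (.leaf [0,2,9,10]) (.leaf [5,6,7,8])) (.node 12 19 (.leaf [12,14,20,22,21]) (.free 2 [11,13,15,16,17,18,19]))) (.free 1 [1,3,4]))), .t 12 (nat_lit 0x11b911e511c611c311c012c912a01242123a123911e8) (.z (.node 19 4 (.free 2 [6,7,8,15,16,18,19]) (.edon 0 13 (.free 3 [0,1,2,3,4,5,9,10,11,12]) (.leaf [13,17,20,22,21,14])))), .t 7 (nat_lit 0x124210030fa40fa301d101d0) (.z (.node 2 4 (.edon 0 11 (.edon 6 8 (.leaf [6,7,10]) (.leaf [0,2,5,8,9])) (.node 13 19 (.leaf [11,13,20,22,21]) (.free 2 [12,14,15,16,17,18,19]))) (.free 1 [1,3,4]))),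 .t 7 (nat_lit 0x12c91242123a123901d101d0) (.z (.node 4 19 (.edon 0 11 (.node 2 4 (.leaf [0,2,5,8,9]) (.leaf [1,3,4])) (.node 13 15 (.leaf [13,17,20,22,21]) (.leaf [11,12,15]))) (.free 2 [6,7,10,14,16,18,19]))), .t 7 (nat_lit 0x1009100701d101d00a670a66) (.z (.edon 0 16 (.edon 0 12 (.node 2 4 (.edon 6 8 (.leaf [6,7,10,11]) (.leaf [0,2,5,8,9])) (.leaf [1,3,4])) (.leaf [12,15,14,13])) (.free 2 [16,17,18,19,20,21,22]))), .t 7 (nat_lit 0x12a0124211e811e701d101d0) (.z (.node 4 19 (.edon 0 10 (.node 2 4 (.leaf [0,2,5,8,9]) (.leaf [1,3,4])) (.edon 0 13 (.leaf [10,11,12]) (.leaf [13,14,20,22,21]))) (.free 2 [6,7,15,16,17,18,19]))), .t 7 (nat_lit 0x12c912a01299129801d101d0) (.z (.node 4 19 (.edon 0 10 (.node 2 4 (.leaf [0,2,5,8,9]) (.leaf [1,3,4])) (.edon 0 14 (.leaf [10,12,13]) (.leaf [14,17,20,22,21]))) (.free 2 [6,7,11,15,16,18,19]))), .t 7 (nat_lit 0x12c912a01299129801d101d0)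 (.z (.node 4 19 (.edon 0 11 (.node 2 4 (.leaf [0,2,5,8,9]) (.leaf [1,3,4])) (.edon 0 14 (.leaf [11,12,13]) (.leaf [14,17,20,22,21]))) (.free 2 [6,7,10,15,16,18,19])))] (by decide +kernel) (by decide +kernel)
theorem b236 : B 7552 7584 := Blk.of_chk [.t 7 (nat_lit 0x1242116910b610b501d101d0) (.z (.node 2 4 (.edon 0 11 (.edon 6 8 (.leaf [6,7,10]) (.leaf [0,2,5,8,9])) (.node 12 19 (.leaf [12,13,20,22,21]) (.free 2 [11,14,15,16,17,18,19]))) (.free 1 [1,3,4]))), .t 15 (nat_lit 0x3e003dd03da04bc04b70409040712ab128a1285126d1268125a1258) (.z (.node 0 3 (.node 6 16 (.node 0 9 (.edon 0 14 (.leaf [0,11,12,13]) (.edon 0 20 (.leaf [14,15,17,19,18]) (.leaf [20,21,22]))) (.leaf [4,6,9,8,5])) (.leaf [7,10,16])) (.free 1 [1,2,3]))), .t 10 (nat_lit 0xa470a5e0a5b0a4e0a4b100810050a830a81) (.z (.edon 0 16 (.edon 0 12 (.node 2 4 (.node 5 8 (.leaf [0,2,5,11]) (.leaf [6,7,10,9,8]))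 (.leaf [1,3,4])) (.leaf [12,14,15,13])) (.free 2 [16,17,18,19,20,21,22]))), .t 10 (nat_lit 0x100810050a5e0a5b041704160342034102ef) (.z (.edon 0 16 (.edon 0 3 (.leaf [0,1,2]) (.edon 0 12 (.node 4 9 (.leaf [3,4,11,8,5]) (.leaf [6,7,10,9])) (.leaf [12,14,15,13]))) (.free 2 [16,17,18,19,20,21,22]))), .t 13 (nat_lit 0xa470a5e0a5b0a4e0a4b116710020f3c0f350f340a830a81) (.z (.node 0 2 (.edon 0 6 (.leaf [0,3,4,5]) (.edon 0 11 (.leaf [6,7,10,9,8]) (.node 12 20 (.leaf [11,12,18,22,21]) (.free 2 [13,14,15,16,17,19,20])))) (.free 1 [1,2]))), .t 1 (nat_lit 0) (.cn 2 3), .t 9 (nat_lit 0x4b704e804e304c404bf000105a705a5) (.z (.node 6 16 (.node 0 10 (.edon 0 14 (.leaf [0,11,12,13]) (.free 2 [14,17,18,19,20,21,22])) (.edon 4 5 (.leaf [4,6,10,9,8]) (.leaf [1,3,5,2]))) (.free 1 [7,15,16]))), .t 15 (nat_lit 0x10b80a4710e510e310c210bf0a5e0a5b0a4e0a4b112811270a830a81) (.z (.node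 0 2 (.edon 0 6 (.leaf [0,3,4,5]) (.edon 0 11 (.leaf [6,7,10,9,8]) (.edon 14 19 (.leaf [12,15,16,17,14]) (.free 2 [11,13,18,19,20,21,22])))) (.free 1 [1,2]))), .t 7 (nat_lit 0x12cb12421240123f01d101d0) (.z (.node 4 19 (.edon 0 10 (.node 2 4 (.leaf [0,2,5,8,9]) (.leaf [1,3,4])) (.edon 0 13 (.leaf [10,11,12]) (.leaf [13,18,20,22,21]))) (.free 2 [6,7,14,15,16,17,19]))), .t 12 (nat_lit 0xa4710b30a5e0a5b0a4e0a4b1242116910b60a830a81) (.z (.node 0 2 (.edon 0 6 (.leaf [0,3,4,5]) (.edon 0 11 (.leaf [6,7,10,9,8]) (.node 12 19 (.leaf [12,20,22,21,13]) (.free 2 [11,14,15,16,17,18,19])))) (.free 1 [1,2]))), .t 12 (nat_lit 0xa470a5e0a5b0a4e0a4b124210030fa40fa30a830a81) (.z (.node 0 2 (.edon 0 6 (.leaf [0,3,4,5]) (.edon 0 11 (.leaf [6,7,10,9,8]) (.edon 18 20 (.free 2 [12,14,15,16,17,18,19]) (.leaf [11,13,20,22,21])))) (.free 1 [1,2]))), .t 12 (nat_lit 0xa470a5e0a5b0a4e0a4b12cb12421240123f0a830a81)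 (.z (.node 0 2 (.edon 0 6 (.leaf [0,3,4,5]) (.edon 0 11 (.leaf [6,7,10,9,8]) (.node 13 19 (.leaf [13,18,20,22,21]) (.free 2 [11,12,14,15,16,17,19])))) (.free 1 [1,2]))), .t 10 (nat_lit 0xc990c96123b116310ae10a610a412451244) (.z (.node 0 7 (.node 0 11 (.node 0 20 (.leaf [0,21,22]) (.edon 14 19 (.leaf [14,15,16,17]) (.leaf [12,19,20,18,13]))) (.leaf [8,10,11,9])) (.free 2 [1,2,3,4,5,6,7]))), .t 7 (nat_lit 0xc990c9610ab10aa12451244) (.z (.node 0 7 (.node 0 11 (.edon 14 19 (.leaf [14,15,16,17]) (.edon 19 21 (.leaf [19,20,22]) (.leaf [0,12,13,18,21]))) (.leaf [8,10,11,9])) (.free 2 [1,2,3,4,5,6,7]))), .t 10 (nat_lit 0xc990c96123b116310ae10a610a412451243) (.z (.node 0 7 (.node 0 11 (.node 0 20 (.leaf [0,21,22]) (.edon 15 19 (.leaf [14,16,17,15]) (.leaf [12,19,20,18,13]))) (.leaf [8,10,11,9])) (.free 2 [1,2,3,4,5,6,7]))), .t 5 (nat_lit 0x12cb12a0129e129d)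 (.z (.node 4 19 (.node 0 10 (.edon 0 14 (.leaf [0,11,12,13]) (.leaf [14,18,20,22,21])) (.free 2 [1,2,3,4,5,9,10])) (.free 2 [6,7,8,15,16,17,19]))), .t 10 (nat_lit 0x10b810e510e310c210bf0c990c9611281127) (.z (.node 0 7 (.node 0 11 (.edon 14 19 (.leaf [12,15,16,17,14]) (.free 2 [0,13,18,19,20,21,22])) (.leaf [8,10,11,9])) (.free 2 [1,2,3,4,5,6,7]))), .t 7 (nat_lit 0x12cb12421240123f01d101d0) (.z (.node 4 19 (.edon 0 11 (.node 2 4 (.leaf [0,2,5,8,9]) (.leaf [1,3,4])) (.node 13 14 (.leaf [13,18,20,22,21]) (.leaf [11,12,14]))) (.free 2 [6,7,10,15,16,17,19]))), .t 7 (nat_lit 0x1009100701d101d00a680a65) (.z (.edon 0 16 (.edon 0 12 (.node 2 4 (.edon 6 8 (.leaf [6,7,11,10]) (.leaf [0,2,5,8,9])) (.leaf [1,3,4])) (.leaf [12,15,14,13])) (.free 2 [16,17,18,19,20,21,22]))), .t 15 (nat_lit 0x3e703e303e004e804e3042e042c12ab128a1285126d1268125a1258) (.z (.node 0 3 (.node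 6 16 (.node 0 10 (.edon 0 14 (.leaf [0,11,12,13]) (.edon 0 20 (.leaf [14,15,17,19,18]) (.leaf [20,21,22]))) (.leaf [4,6,10,9,5])) (.leaf [7,8,16])) (.free 1 [1,2,3]))), .t 4 (nat_lit 0x10d880d86) (.z (.edon 19 4 (.node 0 5 (.edon 0 13 (.leaf [0,9,10,11,12]) (.free 2 [13,14,18,19,20,21,22])) (.leaf [1,3,5,2])) (.free 2 [4,6,7,8,15,16,17]))), .t 1 (nat_lit 0) (.cn 1 3), .t 8 (nat_lit 0x12450d7b0d790d6f0d6e0d670d66) (.z (.node 0 7 (.edon 14 19 (.leaf [8,16,17,15,14]) (.edon 0 12 (.leaf [0,9,10,11]) (.free 2 [12,13,18,19,20,21,22]))) (.free 2 [1,2,3,4,5,6,7]))), .t 10 (nat_lit 0xd1d0d1c0d1b11dd11db0d7b0d790d210d20) (.z (.node 0 7 (.edon 8 19 (.leaf [8,10,16,17,15]) (.node 0 12 (.edon 19 21 (.leaf [19,20,22]) (.leaf [0,13,14,18,21])) (.leaf [9,11,12]))) (.free 2 [1,2,3,4,5,6,7]))), .t 15 (nat_lit 0xecb10ab10aa0f9c0f9b0eb90eb712450e8e0e8c0e830e820e7c0e7a)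 (.z (.node 0 3 (.edon 0 10 (.free 2 [0,4,5,6,7,8,9]) (.edon 14 19 (.leaf [10,16,17,15,14]) (.edon 19 21 (.leaf [19,20,22]) (.leaf [11,12,13,18,21])))) (.free 1 [1,2,3]))), .t 10 (nat_lit 0xa690a680a650b080b050a6d0a6c01d101d0) (.z (.edon 0 13 (.node 4 10 (.node 2 4 (.leaf [0,2,5,8,9]) (.leaf [1,3,4])) (.leaf [6,7,11,12,10])) (.free 3 [13,14,15,16,17,18,19,20,21,22]))), .t 7 (nat_lit 0x1245124301d101d00a680a65) (.z (.node 2 4 (.edon 0 12 (.edon 6 8 (.leaf [6,7,11,10]) (.leaf [0,2,5,8,9])) (.edon 15 19 (.leaf [14,16,17,15]) (.free 2 [12,13,18,19,20,21,22]))) (.free 1 [1,3,4]))), .t 6 (nat_lit 0x12cb01e901e80a4e0a4b) (.z (.node 2 4 (.edon 0 12 (.edon 6 9 (.leaf [6,7,10,8]) (.leaf [0,2,5,9,11])) (.node 18 19 (.leaf [18,20,22,21]) (.free 2 [12,13,14,15,16,17,19]))) (.free 1 [1,3,4]))), .t 14 (nat_lit 0x12ae12ab12a800010a8305a705a204e804e304c304c112ba12b4)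 (.z (.node 6 16 (.node 0 10 (.node 0 13 (.node 0 20 (.leaf [0,21,22]) (.leaf [15,17,19,20,18])) (.leaf [11,12,13])) (.edon 4 5 (.leaf [4,6,8,10,9]) (.leaf [1,3,5,2]))) (.free 1 [7,14,16]))), .t 15 (nat_lit 0x3da0408040503e303e004bb04b912ab128a1285126d1268125a1258) (.z (.node 0 3 (.node 6 16 (.node 0 9 (.edon 0 14 (.leaf [0,11,12,13]) (.edon 0 20 (.leaf [14,15,17,19,18]) (.leaf [20,21,22]))) (.leaf [4,6,8,9,5])) (.leaf [7,10,16])) (.free 1 [1,2,3]))), .t 11 (nat_lit 0xe760e830e820e7b0e791003109f109d0e8e0e8d) (.z (.node 0 3 (.edon 0 10 (.free 2 [0,4,5,6,7,8,9]) (.edon 14 19 (.leaf [10,15,16,17,14]) (.edon 13 20 (.leaf [12,19,18,13]) (.leaf [11,20,22,21])))) (.free 1 [1,2,3]))), .t 6 (nat_lit 0x111eb11ea111c111b) (.z (.edon 21 19 (.node 0 11 (.node 12 17 (.leaf [0,12,14,18,21]) (.leaf [13,15,16,17])) (.edon 4 5 (.free 2 [4,6,7,8,9,10,11]) (.leaf [1,3,5,2])))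 (.free 1 [19,20,22])))] (by decide +kernel) (by decide +kernel)
theorem b237 : B 7584 7616 := Blk.of_chk [.t 10 (nat_lit 0x104110731071104c10490c990c9611281127) (.z (.node 0 7 (.node 0 11 (.edon 19 21 (.leaf [19,20,22]) (.node 14 17 (.leaf [0,14,18,21]) (.leaf [12,15,16,17,13]))) (.leaf [8,10,11,9])) (.free 2 [1,2,3,4,5,6,7]))), .t 17 (nat_lit 0xa65116b0a6e0a6b0a6a0a69119d119b1176117301d101d00b090b0711eb11ea) (.z (.edon 0 20 (.node 0 12 (.node 0 17 (.leaf [0,18,19]) (.leaf [13,15,16,17,14])) (.node 2 4 (.edon 6 8 (.leaf [6,7,12,11,10]) (.leaf [2,5,8,9])) (.leaf [1,3,4]))) (.free 1 [20,21,22]))), .t 9 (nat_lit 0x90d024f024a01e501e201d401d312cb) (.z (.node 4 19 (.node 0 10 (.edon 0 18 (.leaf [0,11,12,14]) (.leaf [18,20,22,21])) (.node 2 4 (.leaf [2,5,8,10,9]) (.leaf [1,3,4]))) (.free 2 [6,7,13,15,16,17,19]))), .t 13 (nat_lit 0xca1128d128a12850d890d870cf60cf40c9a0c98129a1294)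 (.z (.node 0 7 (.node 0 12 (.node 0 20 (.leaf [0,21,22]) (.node 14 16 (.leaf [14,17,19,20,18]) (.leaf [13,15,16]))) (.leaf [8,12,11,10,9])) (.free 2 [1,2,3,4,5,6,7]))), .t 14 (nat_lit 0x12ae12ab12a800010a8305a705a204e804e304c304c112ba12b4) (.z (.node 6 16 (.node 0 10 (.node 0 14 (.node 0 20 (.leaf [0,21,22]) (.leaf [15,17,19,20,18])) (.leaf [11,12,14])) (.edon 4 5 (.leaf [4,6,8,10,9]) (.leaf [1,3,5,2]))) (.free 1 [7,13,16]))), .t 6 (nat_lit 0x17800360006000112cb) (.z (.node 4 19 (.node 0 11 (.edon 0 18 (.leaf [0,12,13,14]) (.leaf [18,20,22,21])) (.edon 4 5 (.leaf [4,8,9]) (.leaf [1,3,5,11,2]))) (.free 2 [6,7,10,15,16,17,19]))), .t 16 (nat_lit 0x3da11730408040503e303e011b411b11186118304bb04b912cb120111ff) (.z (.node 0 3 (.node 6 16 (.node 0 9 (.edon 0 13 (.leaf [0,11,12]) (.edon 14 20 (.leaf [13,15,17,19,14]) (.leaf [18,20,22,21]))) (.leaf [4,6,8,9,5]))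 (.leaf [7,10,16])) (.free 1 [1,2,3]))), .t 15 (nat_lit 0xb0a12ab128a1285126d1268125a12580df90df70b200b1f0b090b07) (.z (.node 2 4 (.node 6 16 (.edon 0 14 (.edon 6 9 (.leaf [6,13,12,11,10]) (.leaf [0,2,5,9])) (.edon 0 20 (.leaf [14,15,17,19,18]) (.leaf [20,21,22]))) (.leaf [7,8,16])) (.free 1 [1,3,4]))), .t 16 (nat_lit 0x117303e703e303e011b411b11186118304e804e3042e042c120111ff12cb) (.z (.node 0 3 (.node 6 16 (.node 0 10 (.edon 0 13 (.leaf [0,11,12]) (.node 18 19 (.leaf [18,20,22,21]) (.leaf [13,15,17,19,14]))) (.leaf [4,6,10,9,5])) (.leaf [7,8,16])) (.free 1 [1,2,3]))), .t 7 (nat_lit 0xc9a0c98111c111b11eb11e9) (.z (.node 0 7 (.node 0 11 (.edon 13 19 (.leaf [13,16,17,15]) (.edon 19 21 (.leaf [19,20,22]) (.leaf [0,12,14,18,21]))) (.leaf [8,11,10,9])) (.free 2 [1,2,3,4,5,6,7]))), .t 7 (nat_lit 0x12cb12a0129e129d0df90df7) (.z (.node 4 19 (.edon 0 10 (.free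 2 [0,1,2,3,4,5,9]) (.edon 0 14 (.leaf [10,13,12,11]) (.leaf [14,18,20,22,21]))) (.free 2 [6,7,8,15,16,17,19]))), .t 12 (nat_lit 0x12ae12ab12a803dd03da004300260005000412ba12b4) (.z (.node 6 16 (.node 0 10 (.node 0 13 (.node 0 20 (.leaf [0,21,22]) (.leaf [15,17,19,20,18])) (.leaf [11,12,13])) (.node 3 5 (.leaf [1,3,10,9,2]) (.leaf [4,6,8,5]))) (.free 1 [7,14,16]))), .t 10 (nat_lit 0xa780a75090d024f024a01e501e201d401d3) (.z (.edon 0 16 (.node 4 14 (.node 0 10 (.leaf [0,11,12,13]) (.node 2 4 (.leaf [2,5,8,10,9]) (.leaf [1,3,4]))) (.leaf [6,7,15,14])) (.free 2 [16,17,18,19,20,21,22]))), .t 7 (nat_lit 0xa740a730dff0dfd01d101d0) (.z (.edon 0 16 (.node 4 13 (.edon 0 10 (.node 2 4 (.leaf [0,2,5,8,9]) (.leaf [1,3,4])) (.leaf [10,14,12,11])) (.leaf [6,7,15,13])) (.free 2 [16,17,18,19,20,21,22]))), .t 10 (nat_lit 0xea7100910070f420f400e9f0e9d088a0889) (.z (.edon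 0 16 (.edon 0 11 (.node 4 5 (.free 2 [0,1,2,3,4,9,10]) (.leaf [5,6,7,8])) (.leaf [11,15,14,13,12])) (.free 2 [16,17,18,19,20,21,22]))), .t 4 (nat_lit 0x12cb0dfe0dfc) (.z (.node 4 19 (.node 0 9 (.edon 0 18 (.leaf [0,10,11,12,14]) (.leaf [18,20,22,21])) (.free 2 [1,2,3,4,5,8,9])) (.free 2 [6,7,13,15,16,17,19]))), .t 9 (nat_lit 0x123b116310ae10a610a4124512440004) (.z (.node 20 0 (.edon 0 12 (.edon 4 9 (.free 2 [4,5,6,7,8,10,11]) (.leaf [1,3,9,2])) (.edon 14 19 (.leaf [14,15,16,17]) (.leaf [12,19,20,18,13]))) (.free 1 [0,21,22]))), .t 12 (nat_lit 0x17600340004000112ab128a1285126d1268125a1258) (.z (.edon 0 20 (.node 6 16 (.node 0 9 (.edon 0 14 (.leaf [0,11,12,13]) (.leaf [14,15,17,19,18])) (.node 3 8 (.leaf [1,3,5,9,2]) (.leaf [4,6,8]))) (.leaf [7,10,16])) (.free 1 [20,21,22]))), .t 10 (nat_lit 0x1231122e122b123b1234018a004b00070006) (.z (.node 20 0 (.edon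 0 13 (.node 3 9 (.leaf [1,3,11,12,2]) (.free 2 [4,5,6,7,8,9,10])) (.node 13 16 (.leaf [13,17,19,20,18]) (.leaf [14,15,16]))) (.free 1 [0,21,22]))), .t 14 (nat_lit 0x117311b411b11186118312cb120111ff03dd0326032502f902ef) (.z (.edon 0 3 (.free 1 [0,1,2]) (.node 6 16 (.edon 0 9 (.leaf [3,4,6,8,5]) (.edon 0 13 (.leaf [9,11,12]) (.edon 14 20 (.leaf [13,15,17,19,14]) (.leaf [18,20,22,21])))) (.leaf [7,10,16])))), .t 6 (nat_lit 0x4111c111b11eb11ea) (.z (.edon 21 19 (.node 0 11 (.edon 13 18 (.leaf [13,15,16,17]) (.leaf [0,12,14,18,21])) (.edon 4 9 (.free 2 [4,5,6,7,8,10,11]) (.leaf [1,3,9,2]))) (.free 1 [19,20,22]))), .t 7 (nat_lit 0x176003400040001111c111b) (.z (.edon 19 4 (.node 0 11 (.edon 19 21 (.leaf [19,20,22]) (.leaf [0,12,14,18,21])) (.edon 8 9 (.leaf [8,10,11]) (.leaf [1,3,5,9,2]))) (.free 2 [4,6,7,13,15,16,17]))), .t 7 (nat_lit 0x1850044000600040410040d)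 (.z (.node 4 19 (.node 0 11 (.free 2 [0,12,14,18,20,21,22]) (.edon 4 9 (.leaf [4,8,10,5]) (.leaf [1,3,9,11,2]))) (.free 2 [6,7,13,15,16,17,19]))), .t 10 (nat_lit 0x176003400040001129a123b11e011d711d5) (.z (.edon 19 4 (.node 0 9 (.node 0 12 (.node 0 20 (.leaf [0,21,22]) (.leaf [13,19,20,18,14])) (.leaf [10,11,12])) (.leaf [1,3,5,9,2])) (.free 2 [4,6,7,8,15,16,17]))), .t 7 (nat_lit 0x17600340004000111dd11db) (.z (.edon 19 4 (.node 0 9 (.node 0 12 (.edon 19 21 (.leaf [19,20,22]) (.leaf [0,13,14,18,21])) (.leaf [10,11,12])) (.leaf [1,3,5,9,2])) (.free 2 [4,6,7,8,15,16,17]))), .t 7 (nat_lit 0xa770a760176003400040001) (.z (.edon 0 16 (.node 4 15 (.node 0 10 (.leaf [0,11,12,13]) (.edon 4 5 (.leaf [4,8,10]) (.leaf [1,3,5,9,2]))) (.leaf [6,7,14,15])) (.free 2 [16,17,18,19,20,21,22]))), .t 7 (nat_lit 0xa770a760df90df701d101d0) (.z (.edon 0 16 (.node 4 15 (.edon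 0 10 (.node 2 4 (.leaf [0,2,5,8,9]) (.leaf [1,3,4])) (.leaf [10,13,12,11])) (.leaf [6,7,14,15])) (.free 2 [16,17,18,19,20,21,22]))), .t 14 (nat_lit 0x3da0410040d03ea03e712ae12ab12a804c304c1000412ba12b4) (.z (.node 6 16 (.node 0 10 (.node 0 13 (.node 0 20 (.leaf [0,21,22]) (.leaf [15,17,19,20,18])) (.leaf [11,12,13])) (.node 3 5 (.leaf [1,3,9,2]) (.leaf [4,6,8,10,5]))) (.free 1 [7,14,16]))), .t 10 (nat_lit 0x11d211cf11ca0176003400040001123b11e0) (.z (.edon 19 4 (.node 0 12 (.node 0 20 (.leaf [0,21,22]) (.leaf [13,14,19,20,18])) (.edon 8 9 (.leaf [8,11,12]) (.leaf [1,3,5,9,2]))) (.free 2 [4,6,7,10,15,16,17]))), .t 17 (nat_lit 0x1257125312510eae0eac128a1285126d126b0b980a830a7e0a5e0a5b0a4d0a4c) (.z (.node 0 2 (.edon 0 6 (.leaf [0,3,4,5]) (.edon 0 11 (.leaf [6,7,8,10,9]) (.node 14 16 (.edon 0 20 (.leaf [14,17,19,18,15]) (.leaf [20,21,22])) (.leaf [11,16,13,12]))))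 (.free 1 [1,2]))), .t 12 (nat_lit 0x12ae12ab12a8017600340004000104cb04c612ba12b4) (.z (.node 6 16 (.node 0 11 (.node 0 14 (.node 0 20 (.leaf [0,21,22]) (.leaf [15,17,19,20,18])) (.leaf [12,13,14])) (.edon 4 5 (.leaf [4,6,11,8]) (.leaf [1,3,5,9,2]))) (.free 1 [7,10,16]))), .t 11 (nat_lit 0xdf40e190e170e070e030e430e41125a125712cb) (.z (.node 0 3 (.edon 0 10 (.free 2 [0,4,5,6,7,8,9]) (.node 14 16 (.node 18 19 (.leaf [18,20,22,21]) (.leaf [14,17,19,15])) (.leaf [10,11,16,13,12]))) (.free 1 [1,2,3])))] (by decide +kernel) (by decide +kernel)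
theorem b238 : B 7616 7648 := Blk.of_chk [.t 7 (nat_lit 0x17600340004000104c304c1) (.z (.node 6 16 (.node 0 10 (.edon 0 15 (.leaf [0,12,13,14]) (.free 2 [15,17,18,19,20,21,22])) (.edon 4 5 (.leaf [4,6,8,10]) (.leaf [1,3,5,9,2]))) (.free 1 [7,11,16]))), .t 7 (nat_lit 0x3dd03da0185004400060004) (.z (.node 6 16 (.node 0 11 (.edon 0 15 (.leaf [0,12,13,14]) (.free 2 [15,17,18,19,20,21,22])) (.node 3 5 (.leaf [1,3,9,11,2]) (.leaf [4,6,8,5]))) (.free 1 [7,10,16]))), .t 7 (nat_lit 0x17600340004000112761275) (.z (.edon 19 4 (.node 0 12 (.edon 19 21 (.leaf [19,20,22]) (.leaf [0,14,15,18,21])) (.edon 8 9 (.leaf [8,11,12]) (.leaf [1,3,5,9,2]))) (.free 2 [4,6,7,10,13,16,17]))), .t 6 (nat_lit 0x411eb11e9111c111b) (.z (.edon 21 19 (.node 0 11 (.node 12 17 (.leaf [0,12,14,18,21]) (.leaf [13,16,17,15])) (.edon 4 9 (.free 2 [4,5,6,7,8,10,11]) (.leaf [1,3,9,2]))) (.free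 1 [19,20,22]))), .t 7 (nat_lit 0x17600340004000112761275) (.z (.edon 19 4 (.node 0 12 (.edon 19 21 (.leaf [19,20,22]) (.leaf [0,14,15,18,21])) (.edon 8 9 (.leaf [8,10,12]) (.leaf [1,3,5,9,2]))) (.free 2 [4,6,7,11,13,16,17]))), .t 7 (nat_lit 0x1760034000400010e9e0e9c) (.z (.node 6 16 (.node 0 9 (.edon 0 15 (.leaf [0,11,12,13,14]) (.free 2 [15,17,18,19,20,21,22])) (.node 3 8 (.leaf [1,3,5,9,2]) (.leaf [4,6,8]))) (.free 1 [7,10,16]))), .t 9 (nat_lit 0x12af12aa12a91011100c12ba12b40004) (.z (.node 20 0 (.edon 0 12 (.edon 4 9 (.free 2 [4,5,6,7,8,10,11]) (.leaf [1,3,9,2])) (.node 15 16 (.leaf [15,18,19,20,17]) (.leaf [12,13,16,14]))) (.free 1 [0,21,22]))), .t 9 (nat_lit 0x1760034000400011140113f11a1119f) (.z (.edon 13 4 (.node 0 11 (.edon 14 19 (.leaf [13,16,18,14]) (.edon 19 21 (.leaf [19,20,22]) (.leaf [0,12,15,17,21]))) (.edon 8 9 (.leaf [8,10,11]) (.leaf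 [1,3,5,9,2]))) (.free 1 [4,6,7]))), .t 9 (nat_lit 0x3dd03da12c912a0129912980d880d86) (.z (.node 0 3 (.node 6 16 (.node 0 8 (.edon 0 14 (.leaf [0,9,10,11,12]) (.edon 15 20 (.leaf [15,18,19]) (.leaf [14,17,20,22,21]))) (.leaf [4,6,8,5])) (.leaf [7,13,16])) (.free 1 [1,2,3]))), .t 12 (nat_lit 0x12af12aa12a9017600340004000104c404bf12ba12b4) (.z (.node 6 16 (.node 0 10 (.node 0 14 (.node 0 20 (.leaf [0,21,22]) (.leaf [15,18,19,20,17])) (.leaf [11,12,14])) (.edon 4 5 (.leaf [4,6,10,8]) (.leaf [1,3,5,9,2]))) (.free 1 [7,13,16]))), .t 12 (nat_lit 0x12af12aa12a9017600340004000104c304c112ba12b4) (.z (.node 6 16 (.node 0 10 (.node 0 14 (.node 0 20 (.leaf [0,21,22]) (.leaf [15,18,19,20,17])) (.leaf [11,12,14])) (.edon 4 5 (.leaf [4,6,8,10]) (.leaf [1,3,5,9,2]))) (.free 1 [7,13,16]))), .t 9 (nat_lit 0x90d024f024a01e501e201d401d312c9) (.z (.node 4 19 (.node 0 10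 (.edon 0 17 (.leaf [0,11,12,14]) (.leaf [17,20,22,21])) (.node 2 4 (.leaf [2,5,8,10,9]) (.leaf [1,3,4]))) (.free 2 [6,7,13,15,16,18,19]))), .t 10 (nat_lit 0x128e128912860c9a0c9810451040129a1294) (.z (.node 0 7 (.node 0 11 (.node 0 20 (.leaf [0,21,22]) (.node 14 16 (.leaf [14,18,19,20,17]) (.leaf [12,13,16,15]))) (.leaf [8,11,10,9])) (.free 2 [1,2,3,4,5,6,7]))), .t 6 (nat_lit 0x41077107612651264) (.z (.edon 21 19 (.node 0 11 (.node 15 18 (.leaf [0,14,15,17,21]) (.leaf [12,13,16,18])) (.edon 4 9 (.free 2 [4,5,6,7,8,10,11]) (.leaf [1,3,9,2]))) (.free 1 [19,20,22]))), .t 8 (nat_lit 0x3dd03da0db80db71211120e12c9) (.z (.node 0 3 (.node 6 16 (.node 0 8 (.edon 13 14 (.node 17 19 (.leaf [17,20,22,21]) (.leaf [13,18,19,15])) (.leaf [0,9,11,12,14])) (.leaf [4,6,8,5])) (.leaf [7,10,16])) (.free 1 [1,2,3]))), .t 10 (nat_lit 0x1760034000400011294123411e011bd11bb)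 (.z (.edon 19 4 (.node 0 12 (.node 0 20 (.leaf [0,21,22]) (.leaf [13,19,20,17,14])) (.edon 8 9 (.leaf [8,11,12]) (.leaf [1,3,5,9,2]))) (.free 2 [4,6,7,10,15,16,18]))), .t 7 (nat_lit 0x17600340004000104cb04c6) (.z (.node 6 16 (.node 0 11 (.edon 0 15 (.leaf [0,12,13,14]) (.free 2 [15,17,18,19,20,21,22])) (.edon 4 5 (.leaf [4,6,11,8]) (.leaf [1,3,5,9,2]))) (.free 1 [7,10,16]))), .t 13 (nat_lit 0xa530a520a4f0abb0ab90a6d0a6c042e034a0346031102f2) (.z (.edon 0 13 (.node 4 8 (.edon 0 3 (.leaf [0,1,2]) (.leaf [3,4,5,10,9])) (.leaf [6,7,11,12,8])) (.free 3 [13,14,15,16,17,18,19,20,21,22]))), .t 9 (nat_lit 0x17600340004000112c912a012991298) (.z (.node 6 16 (.node 0 9 (.edon 0 14 (.leaf [0,10,12,13]) (.edon 15 20 (.leaf [15,18,19]) (.leaf [14,17,20,22,21]))) (.node 3 8 (.leaf [1,3,5,9,2]) (.leaf [4,6,8]))) (.free 1 [7,11,16]))), .t 11 (nat_lit 0x1211120e12c90d890d8403dd0326032502f902ef)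 (.z (.edon 0 3 (.free 1 [0,1,2]) (.node 6 16 (.edon 0 9 (.leaf [3,4,6,8,5]) (.edon 0 13 (.leaf [9,10,12,11]) (.node 17 19 (.leaf [17,20,22,21]) (.leaf [13,18,19,15])))) (.leaf [7,14,16])))), .t 10 (nat_lit 0x100810050a4e0a4b0435034f034c031302f4) (.z (.edon 0 16 (.edon 0 3 (.leaf [0,1,2]) (.edon 0 12 (.node 4 8 (.leaf [3,4,5,11,9]) (.leaf [6,7,10,8])) (.leaf [12,14,15,13]))) (.free 2 [16,17,18,19,20,21,22]))), .t 10 (nat_lit 0xa770a76090d024f024a01e501e201d401d3) (.z (.edon 0 16 (.node 4 15 (.node 0 10 (.leaf [0,11,12,13]) (.node 2 4 (.leaf [2,5,8,10,9]) (.leaf [1,3,4]))) (.leaf [6,7,14,15])) (.free 2 [16,17,18,19,20,21,22]))), .t 7 (nat_lit 0x119d119c01d101d00a680a65) (.z (.node 2 4 (.edon 0 12 (.edon 6 8 (.leaf [6,7,11,10]) (.leaf [0,2,5,8,9])) (.edon 13 19 (.leaf [13,14,16,17]) (.free 2 [12,15,18,19,20,21,22]))) (.free 1 [1,3,4]))), .t 9 (nat_lit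 0x3dd03da1137113512cb12421240123f) (.z (.node 0 3 (.node 6 16 (.node 0 8 (.edon 0 12 (.leaf [0,9,10,11]) (.node 13 19 (.leaf [13,18,20,22,21]) (.leaf [12,15,17,19]))) (.leaf [4,6,8,5])) (.leaf [7,14,16])) (.free 1 [1,2,3]))), .t 10 (nat_lit 0x10be10bc10b70c990c961128112610e510e4) (.z (.node 0 7 (.node 0 11 (.edon 12 19 (.leaf [12,14,16,17,15]) (.free 2 [0,13,18,19,20,21,22])) (.leaf [8,10,11,9])) (.free 2 [1,2,3,4,5,6,7]))), .t 10 (nat_lit 0x10a3109e109b0c990c96116310ae12451243) (.z (.node 0 7 (.node 0 11 (.node 0 20 (.leaf [0,21,22]) (.edon 15 19 (.leaf [14,16,17,15]) (.leaf [12,18,19,20,13]))) (.leaf [8,10,11,9])) (.free 2 [1,2,3,4,5,6,7]))), .t 7 (nat_lit 0x124210030fa40fa301d101d0) (.z (.node 2 4 (.edon 0 11 (.edon 6 8 (.leaf [6,7,10]) (.leaf [0,2,5,8,9])) (.node 11 19 (.leaf [11,13,20,22,21]) (.free 2 [12,14,15,16,17,18,19]))) (.free 1 [1,3,4]))),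 .t 7 (nat_lit 0x1008100501d101d00a680a65) (.z (.edon 0 16 (.edon 0 12 (.node 2 4 (.edon 6 9 (.leaf [6,7,11,10]) (.leaf [0,2,5,8,9])) (.leaf [1,3,4])) (.leaf [12,14,15,13])) (.free 2 [16,17,18,19,20,21,22]))), .t 7 (nat_lit 0x12cb12421240123f01d101d0) (.z (.node 2 4 (.edon 0 11 (.edon 6 8 (.leaf [6,7,10]) (.leaf [0,2,5,8,9])) (.node 18 19 (.leaf [13,18,20,22,21]) (.free 2 [11,12,14,15,16,17,19]))) (.free 1 [1,3,4]))), .t 9 (nat_lit 0x17600340004000112c912a012991298) (.z (.node 6 16 (.node 0 9 (.edon 0 14 (.leaf [0,11,12,13]) (.edon 15 20 (.leaf [15,18,19]) (.leaf [14,17,20,22,21]))) (.node 3 8 (.leaf [1,3,5,9,2]) (.leaf [4,6,8]))) (.free 1 [7,10,16]))), .t 5 (nat_lit 0xa590a580e9e0e9c) (.z (.edon 0 16 (.node 4 8 (.node 0 10 (.leaf [0,11,12,13,14]) (.free 2 [1,2,3,4,5,9,10])) (.leaf [6,7,15,8])) (.free 2 [16,17,18,19,20,21,22]))), .t 10 (nat_lit 0x128e128912860c990c9610441041129a1294)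 (.z (.node 0 7 (.node 0 11 (.node 0 20 (.leaf [0,21,22]) (.node 14 16 (.leaf [14,18,19,20,17]) (.leaf [12,15,16,13]))) (.leaf [8,10,11,9])) (.free 2 [1,2,3,4,5,6,7])))] (by decide +kernel) (by decide +kernel)
theorem b239 : B 7648 7680 := Blk.of_chk [.t 12 (nat_lit 0xa470a5e0a5b0a4e0a4b12c91242123a12390a830a81) (.z (.node 0 2 (.edon 0 6 (.leaf [0,3,4,5]) (.edon 0 11 (.leaf [6,7,10,9,8]) (.node 13 19 (.leaf [13,17,20,22,21]) (.free 2 [11,12,14,15,16,18,19])))) (.free 1 [1,2]))), .t 7 (nat_lit 0x17600340004000111c311c1) (.z (.edon 19 4 (.node 0 12 (.edon 19 21 (.leaf [19,20,22]) (.leaf [0,13,14,17,21])) (.edon 8 9 (.leaf [8,11,12]) (.leaf [1,3,5,9,2]))) (.free 2 [4,6,7,10,15,16,18]))), .t 6 (nat_lit 0x116901d101d00a680a65) (.z (.node 2 4 (.edon 0 12 (.edon 6 8 (.leaf [6,7,11,10]) (.leaf [0,2,5,8,9])) (.node 12 19 (.leaf [12,20,22,21]) (.free 2 [13,14,15,16,17,18,19])))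 (.free 1 [1,3,4]))), .t 10 (nat_lit 0xeb50eae0eaa126512640f820f810f140f13) (.z (.node 0 3 (.node 0 10 (.edon 13 15 (.leaf [11,12,16,18,13]) (.edon 19 21 (.leaf [19,20,22]) (.leaf [0,14,15,17,21]))) (.free 2 [4,5,6,7,8,9,10])) (.free 1 [1,2,3]))), .t 10 (nat_lit 0xc990c961249112b112910e910e710cb10c9) (.z (.node 0 7 (.node 0 11 (.edon 14 19 (.leaf [12,16,18,15,14]) (.free 2 [0,13,17,19,20,21,22])) (.leaf [8,10,11,9])) (.free 2 [1,2,3,4,5,6,7]))), .t 7 (nat_lit 0x17600340004000111c311c1) (.z (.edon 19 4 (.node 0 11 (.edon 19 21 (.leaf [19,20,22]) (.leaf [0,13,14,17,21])) (.edon 8 9 (.leaf [8,10,11]) (.leaf [1,3,5,9,2]))) (.free 2 [4,6,7,12,15,16,18]))), .t 10 (nat_lit 0x1760034000400011294123411e011bd11bb) (.z (.edon 19 4 (.node 0 11 (.node 0 20 (.leaf [0,21,22]) (.leaf [13,19,20,17,14])) (.edon 8 9 (.leaf [8,10,11]) (.leaf [1,3,5,9,2]))) (.free 2 [4,6,7,12,15,16,18]))),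 .t 10 (nat_lit 0x1760034000400011294123411e011bd11bb) (.z (.edon 19 4 (.node 0 9 (.node 0 12 (.node 0 20 (.leaf [0,21,22]) (.leaf [13,19,20,17,14])) (.leaf [10,11,12])) (.leaf [1,3,5,9,2])) (.free 2 [4,6,7,8,15,16,18]))), .t 12 (nat_lit 0x3dd03da1289122d122c11ce11cb11b511b30d880d86) (.z (.node 0 3 (.node 6 16 (.node 0 8 (.edon 0 13 (.leaf [0,9,10,11,12]) (.edon 0 20 (.leaf [13,18,19,17,14]) (.leaf [20,21,22]))) (.leaf [4,6,8,5])) (.leaf [7,15,16])) (.free 1 [1,2,3]))), .t 10 (nat_lit 0xc9a0c981294115c111f110110ff11ef11ee) (.z (.node 0 7 (.node 0 11 (.node 0 20 (.leaf [0,21,22]) (.edon 13 19 (.leaf [13,15,16,18]) (.leaf [12,19,20,17,14]))) (.leaf [8,11,10,9])) (.free 2 [1,2,3,4,5,6,7]))), .t 10 (nat_lit 0xf670f820f810f730f71110511040fe50fe4) (.z (.node 0 3 (.node 0 10 (.edon 13 19 (.leaf [11,15,16,18,13]) (.edon 19 21 (.leaf [19,20,22]) (.leaf [0,12,14,17,21])))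 (.free 2 [4,5,6,7,8,9,10])) (.free 1 [1,2,3]))), .t 10 (nat_lit 0x104510430b980a830a7e0a5e0a5b0a4d0a4c) (.z (.node 0 3 (.edon 0 12 (.node 5 9 (.leaf [0,4,5,11]) (.leaf [6,7,8,10,9])) (.node 14 16 (.free 2 [14,17,18,19,20,21,22]) (.leaf [12,16,15,13]))) (.free 1 [1,2,3]))), .t 7 (nat_lit 0x17600340004000112651264) (.z (.edon 19 4 (.node 0 9 (.node 0 13 (.edon 19 21 (.leaf [19,20,22]) (.leaf [0,14,15,17,21])) (.leaf [10,11,13])) (.leaf [1,3,5,9,2])) (.free 2 [4,6,7,8,12,16,18]))), .t 10 (nat_lit 0xf010efd0ef911c311c10fe50fe30f140f13) (.z (.node 0 3 (.node 0 10 (.edon 15 19 (.leaf [11,12,16,18,15]) (.edon 19 21 (.leaf [19,20,22]) (.leaf [0,13,14,17,21]))) (.free 2 [4,5,6,7,8,9,10])) (.free 1 [1,2,3]))), .t 10 (nat_lit 0xeb50eae0eaa126512640f820f810f140f13) (.z (.node 0 3 (.node 0 10 (.edon 13 19 (.leaf [11,12,16,18,13]) (.edon 19 21 (.leaf [19,20,22])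 (.leaf [0,14,15,17,21]))) (.free 2 [4,5,6,7,8,9,10])) (.free 1 [1,2,3]))), .t 7 (nat_lit 0x17600340004000112651264) (.z (.edon 19 4 (.node 0 11 (.edon 19 21 (.leaf [19,20,22]) (.leaf [0,14,15,17,21])) (.edon 8 9 (.leaf [8,10,11]) (.leaf [1,3,5,9,2]))) (.free 2 [4,6,7,12,13,16,18]))), .t 12 (nat_lit 0x1850044000600040d080c050c030bca0bc90bb70bb6) (.z (.edon 0 16 (.node 0 13 (.leaf [0,14,15]) (.edon 4 9 (.edon 0 7 (.leaf [4,5,6]) (.leaf [7,12,13,10,8])) (.leaf [1,3,9,11,2]))) (.free 2 [16,17,18,19,20,21,22]))), .t 12 (nat_lit 0x12af12aa12a901760034000400010e9f0e9d12ba12b4) (.z (.node 6 16 (.node 0 9 (.node 0 14 (.node 0 20 (.leaf [0,21,22]) (.leaf [15,18,19,20,17])) (.leaf [11,14,13,12])) (.node 3 8 (.leaf [1,3,5,9,2]) (.leaf [4,6,8]))) (.free 1 [7,10,16]))), .t 9 (nat_lit 0x117311c311c0119311900001120b1209) (.z (.edon 19 4 (.node 0 5 (.edon 0 13 (.leaf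 [0,9,10,12]) (.edon 19 21 (.leaf [19,20,22]) (.leaf [13,15,17,21,14]))) (.leaf [1,3,5,2])) (.free 2 [4,6,7,8,11,16,18]))), .t 7 (nat_lit 0x12c912a012991298088a0889) (.z (.node 2 4 (.edon 0 11 (.node 2 8 (.leaf [0,2,9,10]) (.leaf [5,6,7,8])) (.node 17 19 (.leaf [14,17,20,22,21]) (.free 2 [11,12,13,15,16,18,19]))) (.free 1 [1,3,4]))), .t 10 (nat_lit 0x12c912a01299129804090407033b033902ef) (.z (.edon 0 3 (.free 1 [0,1,2]) (.node 4 19 (.edon 0 14 (.edon 0 11 (.leaf [3,4,9,8,5]) (.leaf [11,12,13])) (.leaf [14,17,20,22,21])) (.free 2 [6,7,10,15,16,18,19])))), .t 9 (nat_lit 0x88f12a00a4d0a4c08cc08cb088a0889) (.z (.node 2 4 (.edon 0 12 (.node 2 10 (.leaf [0,2,9,11]) (.leaf [5,6,7,8,10])) (.node 14 19 (.leaf [14,20,22,21]) (.free 2 [12,13,15,16,17,18,19]))) (.free 1 [1,3,4]))), .t 9 (nat_lit 0x88f11690a4d0a4c08cc08cb088a0889) (.z (.node 2 4 (.edon 0 12 (.node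 2 10 (.leaf [0,2,9,11]) (.leaf [5,6,7,8,10])) (.node 12 19 (.leaf [12,20,22,21]) (.free 2 [13,14,15,16,17,18,19]))) (.free 1 [1,3,4]))), .t 8 (nat_lit 0x1120211fd12a0116911251124) (.z (.edon 19 4 (.node 0 5 (.edon 0 12 (.leaf [0,9,11]) (.node 14 19 (.leaf [12,14,20,22,21]) (.leaf [13,15,19,17]))) (.leaf [1,3,5,2])) (.free 2 [4,6,7,8,10,16,18]))), .t 10 (nat_lit 0x12c912a012991298042e042c034a034802f0) (.z (.edon 0 3 (.free 1 [0,1,2]) (.node 4 19 (.edon 0 11 (.leaf [3,4,10,9,5]) (.edon 0 14 (.leaf [11,12,13]) (.leaf [14,17,20,22,21]))) (.free 2 [6,7,8,15,16,18,19])))), .t 9 (nat_lit 0x3dd03da12aa12a912a0116911251124) (.z (.node 0 3 (.node 6 16 (.node 0 8 (.edon 0 12 (.leaf [0,9,10,11]) (.node 14 19 (.leaf [12,14,20,22,21]) (.leaf [15,18,19,17]))) (.leaf [4,6,8,5])) (.leaf [7,13,16])) (.free 1 [1,2,3]))), .t 12 (nat_lit 0x1211120e12c912a01299129803e3032c032a02fa02f0)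 (.z (.edon 0 3 (.free 1 [0,1,2]) (.node 6 16 (.edon 0 10 (.leaf [3,4,6,9,5]) (.edon 0 13 (.leaf [10,11,12]) (.node 17 19 (.leaf [14,17,20,22,21]) (.leaf [13,18,19,15])))) (.leaf [7,8,16])))), .t 8 (nat_lit 0x12c912a012991298000104c404bf) (.z (.node 6 16 (.edon 0 14 (.node 9 10 (.leaf [0,9,11,12]) (.edon 4 5 (.leaf [4,6,10,8]) (.leaf [1,3,5,2]))) (.edon 15 20 (.leaf [15,18,19]) (.leaf [14,17,20,22,21]))) (.free 1 [7,13,16]))), .t 9 (nat_lit 0x12ae12ab12a81011100f12ba12b40001) (.z (.node 20 0 (.edon 0 12 (.edon 4 5 (.free 2 [4,6,7,8,9,10,11]) (.leaf [1,3,5,2])) (.node 15 16 (.leaf [15,17,19,20,18]) (.leaf [12,16,14,13]))) (.free 1 [0,21,22]))), .t 9 (nat_lit 0x12ba123b121f1219121710e510e30001) (.z (.node 20 0 (.edon 0 12 (.edon 4 5 (.free 2 [4,6,7,8,9,10,11]) (.leaf [1,3,5,2])) (.edon 14 19 (.leaf [12,16,17,14]) (.leaf [13,19,20,18,15]))) (.free 1 [0,21,22]))),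 .t 8 (nat_lit 0x3dd03da125a125712cb0db40db2) (.z (.node 0 3 (.node 6 16 (.node 0 8 (.edon 0 14 (.leaf [0,9,11,12,13]) (.node 18 19 (.leaf [18,20,22,21]) (.leaf [14,17,19,15]))) (.leaf [4,6,8,5])) (.leaf [7,10,16])) (.free 1 [1,2,3]))), .t 15 (nat_lit 0x3da0408040503e303e012ae12ab12a804bb04b90e3c0e3a12ba12b4) (.z (.node 0 3 (.node 6 16 (.node 0 9 (.node 0 14 (.node 0 20 (.leaf [0,21,22]) (.leaf [15,17,19,20,18])) (.leaf [10,14,13,12])) (.leaf [4,6,8,9,5])) (.leaf [7,11,16])) (.free 1 [1,2,3])))] (by decide +kernel) (by decide +kernel)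

end Pool.Agent.GCP.F7
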