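import Pool.Agent.GCP.F7Db

set_option autoImplicit false
set_option maxRecDepth 100000

/-! # Blocks F7B2 (generated) -/

namespace Pool.Agent.GCP.F7

open Pool.Agent.GCP DB

theorem b152 : B 4864 4896 := Blk.of_chk [.t 10 (nat_lit 0x8f508f408f309d709d5090008ff0210020f) (.z (.edon 0 16 (.node 4 11 (.edon 0 10 (.node 2 4 (.leaf [0,2,6,8,9]) (.leaf [1,3,4])) (.leaf [10,12,13])) (.leaf [5,7,14,15,11])) (.free 2 [16,17,18,19,20,21,22]))), .t 10 (nat_lit 0x8c608dd08da08cd08ca090d090b02390238) (.z (.edon 0 16 (.node 0 12 (.leaf [0,13,14,15]) (.node 2 4 (.node 6 9 (.leaf [2,6,11,12]) (.leaf [5,7,10,9,8])) (.leaf [1,3,4]))) (.free 2 [16,17,18,19,20,21,22]))), .t 10 (nat_lit 0x22a08cd08ca0aea0ae8028e028d02270226) (.z (.edon 0 16 (.node 0 12 (.leaf [0,13,14,15]) (.node 2 4 (.node 6 10 (.leaf [2,6,9,11,12]) (.leaf [5,7,10,8])) (.leaf [1,3,4]))) (.free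 2 [16,17,18,19,20,21,22]))), .t 5 (nat_lit 0x175003300030001) (.z (.node 8 0 (.edon 4 5 (.leaf [4,6,7]) (.leaf [1,3,5,8,2])) (.free 4 [0,9,10,11,12,13,14,15,16,17,18,19,20,21,22]))), .t 1 (nat_lit 0) (.fa 2), .t 7 (nat_lit 0xa520a4f1249124710971095) (.z (.edon 21 19 (.node 0 11 (.node 13 18 (.leaf [0,12,13,17,21]) (.leaf [14,16,18,15])) (.node 4 8 (.free 2 [1,2,3,4,5,9,10]) (.leaf [6,7,11,8]))) (.free 1 [19,20,22]))), .t 1 (nat_lit 0) (.fa 2), .t 5 (nat_lit 0x12c912c112b912b8) (.z (.edon 0 15 (.free 4 [0,1,2,3,4,5,6,7,8,9,10,11,12,13,14]) (.node 17 19 (.leaf [15,17,20,22,21]) (.leaf [16,18,19])))), .t 5 (nat_lit 0x175003300030001) (.z (.node 8 0 (.edon 4 8 (.leaf [4,6,7]) (.leaf [1,3,5,8,2])) (.free 4 [0,9,10,11,12,13,14,15,16,17,18,19,20,21,22]))), .t 5 (nat_lit 0x12c912c112b912b8) (.z (.edon 0 15 (.free 4 [0,1,2,3,4,5,6,7,8,9,10,11,12,13,14])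 (.node 15 19 (.leaf [15,17,20,22,21]) (.leaf [16,18,19])))), .t 1 (nat_lit 0) (.cn 3 2), .t 5 (nat_lit 0xd880d860d5a0d59) (.z (.node 0 7 (.edon 0 16 (.edon 8 11 (.leaf [8,14,15,13]) (.leaf [0,9,10,11,12])) (.free 2 [16,17,18,19,20,21,22])) (.free 2 [1,2,3,4,5,6,7]))), .t 1 (nat_lit 0) (.cn 2 3), .t 5 (nat_lit 0xda10d9f0d360d35) (.z (.node 0 7 (.edon 0 16 (.edon 8 13 (.leaf [8,14,15,11]) (.leaf [0,9,10,12,13])) (.free 2 [16,17,18,19,20,21,22])) (.free 2 [1,2,3,4,5,6,7]))), .t 7 (nat_lit 0xc990c961249124710971095) (.z (.node 0 7 (.node 0 11 (.edon 19 21 (.leaf [19,20,22]) (.node 13 18 (.leaf [0,12,13,17,21]) (.leaf [14,16,18,15]))) (.leaf [8,10,11,9])) (.free 2 [1,2,3,4,5,6,7]))), .t 1 (nat_lit 0) (.cn 2 3), .t 7 (nat_lit 0xc990c961249124710971095) (.z (.node 0 7 (.node 0 11 (.edon 19 21 (.leaf [19,20,22]) (.node 12 18 (.leaf [0,12,13,17,21])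 (.leaf [14,16,18,15]))) (.leaf [8,10,11,9])) (.free 2 [1,2,3,4,5,6,7]))), .t 10 (nat_lit 0xc990c96124912471234115c10ae1091108f) (.z (.node 0 7 (.node 0 11 (.node 0 20 (.leaf [0,21,22]) (.node 12 18 (.leaf [12,19,20,17,13]) (.leaf [14,16,18,15]))) (.leaf [8,10,11,9])) (.free 2 [1,2,3,4,5,6,7]))), .t 5 (nat_lit 0x12c91242123a1239) (.z (.node 4 19 (.node 0 9 (.edon 0 13 (.leaf [0,10,11,12]) (.leaf [13,17,20,22,21])) (.free 2 [1,2,3,4,5,8,9])) (.free 2 [6,7,14,15,16,18,19]))), .t 10 (nat_lit 0x10080f410f3e0ed40ed10ea70ea508cd08ca) (.z (.edon 0 16 (.edon 0 11 (.node 4 8 (.free 2 [0,1,2,3,4,6,9]) (.leaf [5,7,10,8])) (.leaf [11,14,15,13,12])) (.free 2 [16,17,18,19,20,21,22]))), .t 10 (nat_lit 0x10080f410f3e0ed40ed10ea70ea50b980b96) (.z (.edon 0 16 (.edon 0 7 (.free 2 [0,1,2,3,4,5,6]) (.edon 0 11 (.leaf [7,10,9,8]) (.leaf [11,14,15,13,12]))) (.free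 2 [16,17,18,19,20,21,22]))), .t 9 (nat_lit 0x124912471234115c10ae1091108f0004) (.z (.node 20 0 (.edon 0 12 (.edon 4 9 (.free 2 [4,5,6,7,8,10,11]) (.leaf [1,3,9,2])) (.node 12 18 (.leaf [12,19,20,17,13]) (.leaf [14,16,18,15]))) (.free 1 [0,21,22]))), .t 5 (nat_lit 0x18a004b00070006) (.z (.edon 0 16 (.node 0 12 (.leaf [0,13,14,15]) (.edon 4 11 (.free 2 [4,5,6,7,8,9,10]) (.leaf [1,3,11,12,2]))) (.free 2 [16,17,18,19,20,21,22]))), .t 9 (nat_lit 0x124912471234115c10ae1091108f0001) (.z (.node 20 0 (.edon 0 12 (.edon 4 5 (.free 2 [4,6,7,8,9,10,11]) (.leaf [1,3,5,2])) (.node 12 18 (.leaf [12,19,20,17,13]) (.leaf [14,16,18,15]))) (.free 1 [0,21,22]))), .t 1 (nat_lit 0) (.cn 2 3), .t 13 (nat_lit 0xfaf0fa90fa51234115c10ae1091108f0fe50fe30fc40fc3) (.z (.node 0 3 (.node 0 10 (.edon 11 19 (.leaf [11,14,16,18,15]) (.node 0 20 (.leaf [0,21,22]) (.leaf [12,19,20,17,13])))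 (.free 2 [4,5,6,7,8,9,10])) (.free 1 [1,2,3]))), .t 1 (nat_lit 0) (.cn 2 3), .t 1 (nat_lit 0) (.cn 2 2), .t 9 (nat_lit 0x1234115c10ae1091108f124912480001) (.z (.node 20 0 (.edon 0 12 (.edon 4 5 (.free 2 [4,6,7,8,9,10,11]) (.leaf [1,3,5,2])) (.edon 14 19 (.leaf [14,15,16,18]) (.leaf [12,19,20,17,13]))) (.free 1 [0,21,22]))), .t 9 (nat_lit 0x1234115c10ae1091108f124912480004) (.z (.node 20 0 (.edon 0 12 (.edon 4 9 (.free 2 [4,5,6,7,8,10,11]) (.leaf [1,3,9,2])) (.edon 14 19 (.leaf [14,15,16,18]) (.leaf [12,19,20,17,13]))) (.free 1 [0,21,22]))), .t 9 (nat_lit 0x1234115c10ae1091108f124912480006) (.z (.node 20 0 (.edon 0 12 (.edon 4 11 (.free 2 [4,5,6,7,8,9,10]) (.leaf [1,3,11,2])) (.edon 14 19 (.leaf [14,15,16,18]) (.leaf [12,19,20,17,13]))) (.free 1 [0,21,22]))), .t 9 (nat_lit 0x1234115c10ae1091108f124912480002) (.z (.node 20 0 (.edon 0 12 (.edon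 4 6 (.free 2 [4,5,7,8,9,10,11]) (.leaf [1,3,6,2])) (.edon 14 19 (.leaf [14,15,16,18]) (.leaf [12,19,20,17,13]))) (.free 1 [0,21,22])))] (by decide +kernel) (by decide +kernel)
theorem b153 : B 4896 4928 := Blk.of_chk [.t 1 (nat_lit 0) (.fa 4), .t 1 (nat_lit 0) (.cn 2 3), .t 1 (nat_lit 0) (.fa 4), .t 6 (nat_lit 0x12c90210020f08e508e2) (.z (.node 2 4 (.edon 0 12 (.edon 5 9 (.leaf [5,7,11,10]) (.leaf [0,2,6,8,9])) (.node 17 19 (.leaf [17,20,22,21]) (.free 2 [12,13,14,15,16,18,19]))) (.free 1 [1,3,4]))), .t 9 (nat_lit 0x12c908e508e204bc04ba0361035f02f9) (.z (.edon 0 3 (.free 1 [0,1,2]) (.edon 0 12 (.node 4 10 (.leaf [3,4,9,8,6]) (.leaf [5,7,11,10])) (.node 17 19 (.leaf [17,20,22,21]) (.free 2 [12,13,14,15,16,18,19]))))), .t 1 (nat_lit 0) (.cn 2 2), .t 1 (nat_lit 0) (.cn 2 3), .t 1 (nat_lit 0) (.fa 3), .t 14 (nat_lit 0x404043504310417041312af12aa12a9000205af05ad12ba12b4)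 (.z (.node 5 16 (.node 0 11 (.node 0 14 (.node 0 20 (.leaf [0,21,22]) (.leaf [15,18,19,20,17])) (.leaf [12,13,14])) (.edon 4 6 (.leaf [4,5,11,9,8]) (.leaf [1,3,6,2]))) (.free 1 [7,10,16]))), .t 1 (nat_lit 0) (.fa 4), .t 1 (nat_lit 0) (.cn 2 3), .t 10 (nat_lit 0x1265126410770f820f810f140f120eba0eb8) (.z (.node 0 3 (.node 0 10 (.edon 13 19 (.leaf [11,16,18,13,12]) (.edon 19 21 (.leaf [19,20,22]) (.leaf [0,14,15,17,21]))) (.free 2 [4,5,6,7,8,9,10])) (.free 1 [1,2,3]))), .t 7 (nat_lit 0x12c912a0129912980210020f) (.z (.node 4 19 (.edon 0 10 (.node 2 4 (.leaf [0,2,6,8,9]) (.leaf [1,3,4])) (.node 14 15 (.leaf [14,17,20,22,21]) (.leaf [10,13,15]))) (.free 2 [5,7,11,12,16,18,19]))), .t 1 (nat_lit 0) (.cn 2 3), .t 1 (nat_lit 0) (.cp 2 3), .t 1 (nat_lit 0) (.cn 2 3), .t 1 (nat_lit 0) (.cn 2 2), .t 1 (nat_lit 0) (.cn 2 3), .t 7 (nat_lit 0x12c912a0129912980210020f)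 (.z (.node 4 19 (.edon 0 10 (.node 2 4 (.leaf [0,2,6,8,9]) (.leaf [1,3,4])) (.edon 0 14 (.leaf [10,12,13]) (.leaf [14,17,20,22,21]))) (.free 2 [5,7,11,15,16,18,19]))), .t 1 (nat_lit 0) (.cn 2 3), .t 1 (nat_lit 0) (.cn 2 2), .t 1 (nat_lit 0) (.fa 2), .t 1 (nat_lit 0) (.cn 2 3), .t 1 (nat_lit 0) (.cn 2 3), .t 1 (nat_lit 0) (.cn 2 3), .t 1 (nat_lit 0) (.cn 2 3), .t 4 (nat_lit 0x10d880d86) (.z (.edon 19 4 (.node 0 5 (.edon 0 13 (.leaf [0,9,10,11,12]) (.free 2 [13,14,17,19,20,21,22])) (.leaf [1,3,5,2])) (.free 2 [4,6,7,8,15,16,18]))), .t 1 (nat_lit 0) (.cp 2 3), .t 1 (nat_lit 0) (.cp 2 3), .t 1 (nat_lit 0) (.cp 2 3), .t 4 (nat_lit 0x20d880d86) (.z (.edon 19 4 (.node 0 6 (.edon 0 13 (.leaf [0,9,10,11,12]) (.free 2 [13,14,17,19,20,21,22])) (.leaf [1,3,6,2])) (.free 2 [4,5,7,8,15,16,18]))), .t 1 (nat_lit 0) (.cn 2 3)] (by decide +kernel) (by decide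 +kernel)
theorem b154 : B 4928 4960 := Blk.of_chk [.t 1 (nat_lit 0) (.cp 2 3), .t 1 (nat_lit 0) (.cn 2 3), .t 10 (nat_lit 0x88808980895088d088b08c808c702ae02ac) (.z (.edon 0 13 (.node 2 9 (.leaf [0,2,10,11,12]) (.edon 0 5 (.leaf [1,3,4]) (.leaf [5,7,8,9,6]))) (.free 3 [13,14,15,16,17,18,19,20,21,22]))), .t 1 (nat_lit 0) (.cn 2 3), .t 1 (nat_lit 0) (.cn 2 3), .t 1 (nat_lit 0) (.cn 2 3), .t 1 (nat_lit 0) (.fa 2), .t 1 (nat_lit 0) (.cp 2 3), .t 10 (nat_lit 0xea7100910070f420f400e9f0e9d08cd08ca) (.z (.edon 0 16 (.edon 0 11 (.node 4 8 (.free 2 [0,1,2,3,4,6,9]) (.leaf [5,7,10,8])) (.leaf [11,15,14,13,12])) (.free 2 [16,17,18,19,20,21,22]))), .t 9 (nat_lit 0x1193000212651264120b120911761174) (.z (.edon 19 4 (.node 0 6 (.edon 0 13 (.leaf [0,9,11,12]) (.edon 19 21 (.leaf [19,20,22]) (.leaf [13,14,15,17,21]))) (.leaf [1,3,6,2])) (.free 2 [4,5,7,8,10,16,18]))),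 .t 1 (nat_lit 0) (.fa 2), .t 10 (nat_lit 0x17b00390004000212b41294127912621260) (.z (.edon 19 4 (.node 0 9 (.node 0 13 (.node 0 20 (.leaf [0,21,22]) (.leaf [14,19,20,17,15])) (.leaf [11,12,13])) (.leaf [1,3,6,9,2])) (.free 2 [4,5,7,8,10,16,18]))), .t 15 (nat_lit 0x3df03de03d912af12aa12a904bb04b8040804060e9f0e9d12ba12b4) (.z (.node 0 3 (.node 5 16 (.node 0 9 (.node 0 14 (.node 0 20 (.leaf [0,21,22]) (.leaf [15,18,19,20,17])) (.leaf [11,14,13,12])) (.leaf [4,5,8,9,6])) (.leaf [7,10,16])) (.free 1 [1,2,3]))), .t 10 (nat_lit 0x1008100508cd08ca04f004ee037d037b02fa) (.z (.edon 0 16 (.edon 0 3 (.leaf [0,1,2]) (.edon 0 12 (.node 4 8 (.leaf [3,4,11,9,6]) (.leaf [5,7,10,8])) (.leaf [12,14,15,13]))) (.free 2 [16,17,18,19,20,21,22]))), .t 1 (nat_lit 0) (.fa 3), .t 15 (nat_lit 0x3df042e042903eb03e612af12aa12a904e804e60e9f0e9d12ba12b4) (.z (.node 0 3 (.node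 5 16 (.node 0 10 (.node 0 14 (.node 0 20 (.leaf [0,21,22]) (.leaf [15,18,19,20,17])) (.leaf [11,14,13,12])) (.leaf [4,5,10,9,6])) (.leaf [7,8,16])) (.free 1 [1,2,3]))), .t 1 (nat_lit 0) (.cn 2 3), .t 13 (nat_lit 0x12b4129412791262126010770f820f810f140f120eba0eb8) (.z (.node 0 3 (.node 0 10 (.edon 13 19 (.leaf [11,16,18,13,12]) (.node 0 20 (.leaf [0,21,22]) (.leaf [14,19,20,17,15]))) (.free 2 [4,5,6,7,8,9,10])) (.free 1 [1,2,3]))), .t 1 (nat_lit 0) (.cp 2 3), .t 15 (nat_lit 0x22a1294123411e011bd11bb08cd08ca0aea0ae8028e028d02270226) (.z (.node 20 0 (.edon 0 13 (.node 4 8 (.node 2 4 (.leaf [2,6,9,11,12]) (.leaf [1,3,4])) (.leaf [5,7,10,8])) (.edon 15 19 (.leaf [15,16,18]) (.leaf [13,19,20,17,14]))) (.free 1 [0,21,22]))), .t 6 (nat_lit 0x17b00390004000212c9) (.z (.node 4 19 (.node 0 11 (.edon 0 17 (.leaf [0,12,13,14]) (.leaf [17,20,22,21])) (.edon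 4 9 (.leaf [4,8,11]) (.leaf [1,3,6,9,2]))) (.free 2 [5,7,10,15,16,18,19]))), .t 10 (nat_lit 0xea7100910070f420f400e9f0e9d0b980b96) (.z (.edon 0 16 (.edon 0 7 (.free 2 [0,1,2,3,4,5,6]) (.edon 0 11 (.leaf [7,10,9,8]) (.leaf [11,15,14,13,12]))) (.free 2 [16,17,18,19,20,21,22]))), .t 13 (nat_lit 0x1294123411e011bd11bb112b0fe50fe30f140f120f050f03) (.z (.node 0 3 (.node 0 10 (.edon 15 19 (.leaf [11,16,18,15,12]) (.node 0 20 (.leaf [0,21,22]) (.leaf [13,19,20,17,14]))) (.free 2 [4,5,6,7,8,9,10])) (.free 1 [1,2,3]))), .t 12 (nat_lit 0x12af12aa12a9017b0039000400020e9f0e9d12ba12b4) (.z (.node 5 16 (.node 0 9 (.node 0 14 (.node 0 20 (.leaf [0,21,22]) (.leaf [15,18,19,20,17])) (.leaf [11,14,13,12])) (.node 3 8 (.leaf [1,3,6,9,2]) (.leaf [4,5,8]))) (.free 1 [7,10,16]))), .t 8 (nat_lit 0xc960cba0cb70ca00c9e0cf50cf3) (.z (.node 0 7 (.node 0 12 (.edon 0 16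 (.leaf [0,13,14,15]) (.free 2 [16,17,18,19,20,21,22])) (.leaf [8,10,11,12,9])) (.free 2 [1,2,3,4,5,6,7]))), .t 1 (nat_lit 0) (.cn 2 3), .t 6 (nat_lit 0x12c90e9f0e9d0210020f) (.z (.node 4 19 (.edon 0 11 (.node 2 4 (.leaf [0,2,6,8,9]) (.leaf [1,3,4])) (.edon 0 17 (.leaf [11,14,13,12]) (.leaf [17,20,22,21]))) (.free 2 [5,7,10,15,16,18,19]))), .t 15 (nat_lit 0xa470a5e0a5b0a4e0a4b10bb0fa80fa60efc0efa0edb0ed90a830a81) (.z (.node 0 2 (.edon 0 6 (.leaf [0,3,4,5]) (.edon 0 11 (.leaf [6,7,10,9,8]) (.node 13 16 (.free 2 [13,17,18,19,20,21,22]) (.leaf [11,15,16,14,12])))) (.free 1 [1,2]))), .t 5 (nat_lit 0x205af05ad12c9) (.z (.node 4 19 (.node 0 11 (.edon 0 17 (.leaf [0,12,13,15]) (.leaf [17,20,22,21])) (.edon 4 6 (.leaf [4,11,9,8]) (.leaf [1,3,6,2]))) (.free 2 [5,7,10,14,16,18,19]))), .t 13 (nat_lit 0x12af12aa12a910100f470f450eda0ed80eae0eac12ba12b4)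 (.z (.node 0 3 (.node 0 10 (.node 15 16 (.node 0 20 (.leaf [0,21,22]) (.leaf [15,18,19,20,17])) (.leaf [11,14,16,13,12])) (.free 2 [4,5,6,7,8,9,10])) (.free 1 [1,2,3]))), .t 1 (nat_lit 0) (.fa 4), .t 6 (nat_lit 0x12c90210020f08e508e2) (.z (.node 2 4 (.edon 0 12 (.edon 5 8 (.leaf [5,7,11,10]) (.leaf [0,2,6,8,9])) (.node 17 19 (.leaf [17,20,22,21]) (.free 2 [12,13,14,15,16,18,19]))) (.free 1 [1,3,4])))] (by decide +kernel) (by decide +kernel)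
theorem b155 : B 4960 4992 := Blk.of_chk [.t 10 (nat_lit 0x17600340004000112b41294127912621260) (.z (.edon 19 4 (.node 0 9 (.node 0 13 (.node 0 20 (.leaf [0,21,22]) (.leaf [14,19,20,17,15])) (.leaf [11,12,13])) (.leaf [1,3,5,9,2])) (.free 2 [4,6,7,8,10,16,18]))), .t 7 (nat_lit 0x17600340004000112651264) (.z (.edon 19 4 (.node 0 9 (.node 0 13 (.edon 19 21 (.leaf [19,20,22]) (.leaf [0,14,15,17,21])) (.leaf [11,12,13])) (.leaf [1,3,5,9,2])) (.free 2 [4,6,7,8,10,16,18]))), .t 7 (nat_lit 0x18a004b0007000612a412a1) (.z (.edon 21 19 (.node 0 12 (.edon 15 21 (.leaf [15,16,18,17]) (.leaf [0,13,14,21])) (.edon 4 11 (.free 2 [4,5,6,7,8,9,10]) (.leaf [1,3,11,12,2]))) (.free 1 [19,20,22]))), .t 10 (nat_lit 0x1294123411e011bd11bb018a004b00070006) (.z (.node 20 0 (.edon 0 13 (.edon 4 11 (.free 2 [4,5,6,7,8,9,10]) (.leaf [1,3,11,12,2])) (.edon 15 19 (.leaf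 [15,16,18]) (.leaf [13,19,20,17,14]))) (.free 1 [0,21,22]))), .t 1 (nat_lit 0) (.cn 2 3), .t 5 (nat_lit 0x186004500070004) (.z (.edon 0 16 (.node 0 12 (.leaf [0,13,14,15]) (.edon 4 9 (.free 2 [4,5,6,7,8,10,11]) (.leaf [1,3,9,12,2]))) (.free 2 [16,17,18,19,20,21,22]))), .t 17 (nat_lit 0x10110f480edb0ea7116f116d10bc10ba100910070fa90fa70f420f400e9f0e9d) (.z (.node 0 16 (.free 2 [0,17,18,19,20,21,22]) (.edon 0 11 (.free 3 [1,2,3,4,5,6,7,8,9,10]) (.leaf [11,16,15,14,13,12])))), .t 10 (nat_lit 0xea7100910070f420f400e9f0e9d0a4e0a4b) (.z (.edon 0 16 (.edon 0 11 (.node 4 8 (.free 2 [0,1,2,3,4,5,9]) (.leaf [6,7,10,8])) (.leaf [11,15,14,13,12])) (.free 2 [16,17,18,19,20,21,22]))), .t 1 (nat_lit 0) (.cn 2 2), .t 1 (nat_lit 0) (.cn 1 3), .t 5 (nat_lit 0x17b003900040002) (.z (.edon 0 16 (.node 0 12 (.leaf [0,13,14,15]) (.edon 4 9 (.free 2 [4,5,7,8,10,11,12])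 (.leaf [1,3,6,9,2]))) (.free 2 [16,17,18,19,20,21,22]))), .t 1 (nat_lit 0) (.fa 3), .t 7 (nat_lit 0x17b0039000400020cf50cf2) (.z (.edon 0 16 (.node 0 12 (.leaf [0,13,14,15]) (.edon 4 11 (.leaf [4,5,7]) (.edon 8 9 (.leaf [8,11,12,10]) (.leaf [1,3,6,9,2])))) (.free 2 [16,17,18,19,20,21,22]))), .t 10 (nat_lit 0xea7100910070f420f400e9f0e9d03e303e1) (.z (.node 0 3 (.edon 0 11 (.edon 7 9 (.leaf [7,8,10]) (.leaf [0,4,5,6,9])) (.edon 0 16 (.leaf [11,15,14,13,12]) (.free 2 [16,17,18,19,20,21,22]))) (.free 1 [1,2,3]))), .t 10 (nat_lit 0x1294123411e011bd11bb0186004500070004) (.z (.node 20 0 (.edon 0 13 (.edon 4 9 (.free 2 [4,5,6,7,8,10,11]) (.leaf [1,3,9,12,2])) (.edon 15 19 (.leaf [15,16,18]) (.leaf [13,19,20,17,14]))) (.free 1 [0,21,22]))), .t 10 (nat_lit 0x17b0039000400021294123411e011bd11bb) (.z (.edon 19 4 (.node 0 12 (.node 0 20 (.leaf [0,21,22])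 (.leaf [13,19,20,17,14])) (.edon 8 9 (.leaf [8,10,12]) (.leaf [1,3,6,9,2]))) (.free 2 [4,5,7,11,15,16,18]))), .t 7 (nat_lit 0x17b00390004000211c311c1) (.z (.edon 19 4 (.node 0 12 (.edon 19 21 (.leaf [19,20,22]) (.leaf [0,13,14,17,21])) (.edon 8 9 (.leaf [8,10,12]) (.leaf [1,3,6,9,2]))) (.free 2 [4,5,7,11,15,16,18]))), .t 1 (nat_lit 0) (.cn 2 3), .t 4 (nat_lit 0x12c90dfe0dfc) (.z (.node 4 19 (.node 0 9 (.edon 0 17 (.leaf [0,10,11,12,14]) (.leaf [17,20,22,21])) (.free 2 [1,2,3,4,6,8,9])) (.free 2 [5,7,13,15,16,18,19]))), .t 7 (nat_lit 0x17b00390004000211051104) (.z (.edon 19 4 (.node 0 11 (.edon 19 21 (.leaf [19,20,22]) (.leaf [0,12,14,17,21])) (.edon 8 9 (.leaf [8,10,11]) (.leaf [1,3,6,9,2]))) (.free 2 [4,5,7,13,15,16,18]))), .t 15 (nat_lit 0xea30e9e0e9b0f420f3d0ed50ed30b980a830a7e0a5e0a5b0a4d0a4c) (.z (.node 0 2 (.edon 0 6 (.leaf [0,3,4,5])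 (.edon 0 11 (.leaf [6,7,8,10,9]) (.edon 0 16 (.leaf [11,13,15,14,12]) (.free 2 [16,17,18,19,20,21,22])))) (.free 1 [1,2]))), .t 10 (nat_lit 0x17b0039000400021294115c111f110110ff) (.z (.edon 19 4 (.node 0 11 (.node 0 20 (.leaf [0,21,22]) (.leaf [12,19,20,17,14])) (.edon 8 9 (.leaf [8,10,11]) (.leaf [1,3,6,9,2]))) (.free 2 [4,5,7,13,15,16,18]))), .t 1 (nat_lit 0) (.cn 2 3), .t 1 (nat_lit 0) (.cn 2 3), .t 1 (nat_lit 0) (.cn 2 3), .t 5 (nat_lit 0x17b003900040002) (.z (.edon 19 4 (.node 0 9 (.edon 0 13 (.leaf [0,10,11,12]) (.free 2 [13,14,17,19,20,21,22])) (.leaf [1,3,6,9,2])) (.free 2 [4,5,7,8,15,16,18]))), .t 10 (nat_lit 0xc960cba0cb70ca00c9e0cf50cf3116e116b) (.z (.node 0 7 (.node 0 12 (.node 0 16 (.free 2 [0,17,18,19,20,21,22]) (.leaf [13,15,16,14])) (.leaf [8,10,11,12,9])) (.free 2 [1,2,3,4,5,6,7]))), .t 13 (nat_lit 0xc960cba0cb70ca00c9e1232122d122c0cf50cf3123b1234)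 (.z (.node 0 7 (.node 0 12 (.node 0 20 (.leaf [0,21,22]) (.node 13 16 (.leaf [13,18,19,20,17]) (.leaf [14,15,16]))) (.leaf [8,10,11,12,9])) (.free 2 [1,2,3,4,5,6,7]))), .t 7 (nat_lit 0x12c912a0129912980210020f) (.z (.node 4 19 (.edon 0 11 (.node 2 4 (.leaf [0,2,6,8,9]) (.leaf [1,3,4])) (.edon 0 14 (.leaf [11,12,13]) (.leaf [14,17,20,22,21]))) (.free 2 [5,7,10,15,16,18,19]))), .t 1 (nat_lit 0) (.cn 2 3), .t 1 (nat_lit 0) (.fa 4), .t 6 (nat_lit 0x12c908d108ce04e704e5) (.z (.node 0 3 (.edon 0 12 (.node 4 8 (.leaf [0,4,6,9,10]) (.leaf [5,7,11,8])) (.node 17 19 (.leaf [17,20,22,21]) (.free 2 [12,13,14,15,16,18,19]))) (.free 1 [1,2,3])))] (by decide +kernel) (by decide +kernel)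
theorem b156 : B 4992 5024 := Blk.of_chk [.t 5 (nat_lit 0x12c9116911621161) (.z (.node 0 7 (.edon 0 11 (.leaf [0,8,9,10]) (.node 17 19 (.leaf [12,17,20,22,21]) (.free 2 [11,13,14,15,16,18,19]))) (.free 2 [1,2,3,4,5,6,7]))), .t 6 (nat_lit 0x12c90222022108d108ce) (.z (.node 2 4 (.edon 0 12 (.edon 5 9 (.leaf [5,7,11,8]) (.leaf [0,2,6,9,10])) (.node 17 19 (.leaf [17,20,22,21]) (.free 2 [12,13,14,15,16,18,19]))) (.free 1 [1,3,4]))), .t 10 (nat_lit 0xc9a0c9812a41282127f1254125012491248) (.z (.node 0 7 (.node 0 11 (.node 13 22 (.leaf [0,12,13,21]) (.edon 0 19 (.leaf [14,15,16,18,17]) (.leaf [19,20,22]))) (.leaf [8,11,10,9])) (.free 2 [1,2,3,4,5,6,7]))), .t 7 (nat_lit 0x17b00390004000210971095) (.z (.edon 19 4 (.node 0 11 (.edon 19 21 (.leaf [19,20,22]) (.leaf [0,12,13,17,21])) (.edon 8 9 (.leaf [8,10,11]) (.leaf [1,3,6,9,2]))) (.free 2 [4,5,7,14,15,16,18]))),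 .t 7 (nat_lit 0x116f116d018a004b00070006) (.z (.node 16 0 (.edon 0 13 (.node 3 10 (.leaf [1,3,11,12,2]) (.free 2 [4,5,6,7,8,9,10])) (.leaf [13,16,15,14])) (.free 2 [0,17,18,19,20,21,22]))), .t 7 (nat_lit 0xc9a0c981140113f11a1119f) (.z (.node 0 7 (.node 0 11 (.edon 14 19 (.leaf [13,16,18,14]) (.edon 19 21 (.leaf [19,20,22]) (.leaf [0,12,15,17,21]))) (.leaf [8,11,10,9])) (.free 2 [1,2,3,4,5,6,7]))), .t 10 (nat_lit 0xc9a0c9812b4115c1150113d113b11a1119f) (.z (.node 0 7 (.node 0 11 (.node 0 20 (.leaf [0,21,22]) (.edon 14 19 (.leaf [13,16,18,14]) (.leaf [12,19,20,17,15]))) (.leaf [8,11,10,9])) (.free 2 [1,2,3,4,5,6,7]))), .t 12 (nat_lit 0x18a004b00070006124511eb11e9119d119b11771175) (.z (.edon 0 20 (.node 0 12 (.node 0 17 (.leaf [0,18,19]) (.leaf [13,16,17,15,14])) (.node 3 9 (.leaf [1,3,11,12,2]) (.free 2 [4,5,6,7,8,9,10]))) (.free 1 [20,21,22]))),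 .t 12 (nat_lit 0x17b003900040002124511eb11e9119d119b11771175) (.z (.edon 0 20 (.node 0 12 (.node 0 17 (.leaf [0,18,19]) (.leaf [13,16,17,15,14])) (.edon 4 9 (.free 2 [4,5,7,8,10,11,12]) (.leaf [1,3,6,9,2]))) (.free 1 [20,21,22]))), .t 1 (nat_lit 0) (.cn 5 3), .t 1 (nat_lit 0) (.cn 5 3), .t 7 (nat_lit 0x17b0039000400021140113f) (.z (.edon 19 4 (.node 0 11 (.edon 19 21 (.leaf [19,20,22]) (.leaf [0,12,15,17,21])) (.edon 8 9 (.leaf [8,10,11]) (.leaf [1,3,6,9,2]))) (.free 2 [4,5,7,13,14,16,18]))), .t 9 (nat_lit 0x12b4115c1150113d113b11a1119f0004) (.z (.node 20 0 (.edon 0 12 (.edon 4 9 (.free 2 [4,5,6,7,8,10,11]) (.leaf [1,3,9,2])) (.edon 14 19 (.leaf [13,16,18,14]) (.leaf [12,19,20,17,15]))) (.free 1 [0,21,22]))), .t 1 (nat_lit 0) (.fa 4), .t 1 (nat_lit 0) (.cn 2 3), .t 1 (nat_lit 0) (.cn 2 3), .t 1 (nat_lit 0) (.cn 2 3), .t 1 (nat_lit 0) (.cn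 5 3), .t 7 (nat_lit 0x17c003a000500021140113f) (.z (.edon 19 4 (.node 0 11 (.edon 19 21 (.leaf [19,20,22]) (.leaf [0,12,15,17,21])) (.edon 8 10 (.leaf [8,9,11]) (.leaf [1,3,6,10,2]))) (.free 2 [4,5,7,13,14,16,18]))), .t 10 (nat_lit 0x17c003a0005000212b4115c1150113d113b) (.z (.edon 19 4 (.node 0 11 (.node 0 20 (.leaf [0,21,22]) (.leaf [12,19,20,17,15])) (.edon 8 10 (.leaf [8,9,11]) (.leaf [1,3,6,10,2]))) (.free 2 [4,5,7,13,14,16,18]))), .t 1 (nat_lit 0) (.cp 2 3), .t 7 (nat_lit 0x17c003a0005000212651264) (.z (.edon 19 4 (.node 0 11 (.edon 19 21 (.leaf [19,20,22]) (.leaf [0,14,15,17,21])) (.edon 8 10 (.leaf [8,9,11]) (.leaf [1,3,6,10,2]))) (.free 2 [4,5,7,12,13,16,18]))), .t 7 (nat_lit 0x17b00390004000212651264) (.z (.edon 19 4 (.node 0 11 (.edon 19 21 (.leaf [19,20,22]) (.leaf [0,14,15,17,21])) (.edon 8 9 (.leaf [8,10,11]) (.leaf [1,3,6,9,2])))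 (.free 2 [4,5,7,12,13,16,18]))), .t 10 (nat_lit 0x17b00390004000212b41294127912621260) (.z (.edon 19 4 (.node 0 11 (.node 0 20 (.leaf [0,21,22]) (.leaf [14,19,20,17,15])) (.edon 8 9 (.leaf [8,10,11]) (.leaf [1,3,6,9,2]))) (.free 2 [4,5,7,12,13,16,18]))), .t 1 (nat_lit 0) (.cp 2 3), .t 8 (nat_lit 0xeb50eae0eaa0f820f810f140f13) (.z (.node 0 7 (.edon 0 11 (.leaf [0,8,9,10]) (.edon 13 19 (.leaf [11,12,16,18,13]) (.free 2 [14,15,17,19,20,21,22]))) (.free 2 [1,2,3,4,5,6,7]))), .t 10 (nat_lit 0x8ce08f208ef08d308d20945094302220221) (.z (.edon 0 13 (.node 4 8 (.node 2 4 (.leaf [0,2,6,9,10]) (.leaf [1,3,4])) (.leaf [5,7,12,11,8])) (.free 3 [13,14,15,16,17,18,19,20,21,22]))), .t 5 (nat_lit 0x12c912a012991298) (.z (.node 0 7 (.edon 0 11 (.leaf [0,8,9,10]) (.node 17 19 (.leaf [14,17,20,22,21]) (.free 2 [11,12,13,15,16,18,19]))) (.free 2 [1,2,3,4,5,6,7]))),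 .t 6 (nat_lit 0x12c90222022108d108ce) (.z (.node 2 4 (.edon 0 12 (.edon 5 10 (.leaf [5,7,11,8]) (.leaf [0,2,6,9,10])) (.node 17 19 (.leaf [17,20,22,21]) (.free 2 [12,13,14,15,16,18,19]))) (.free 1 [1,3,4]))), .t 7 (nat_lit 0x27f027e010c010a002602f9) (.z (.node 4 19 (.node 0 13 (.free 2 [0,14,15,17,20,21,22]) (.edon 3 9 (.leaf [3,4,8,6]) (.leaf [1,9,10,13,2]))) (.free 2 [5,7,11,12,16,18,19]))), .t 7 (nat_lit 0x17b00390004000212651264) (.z (.edon 19 4 (.node 0 13 (.edon 19 21 (.leaf [19,20,22]) (.leaf [0,14,15,17,21])) (.edon 8 9 (.leaf [8,10,13]) (.leaf [1,3,6,9,2]))) (.free 2 [4,5,7,11,12,16,18]))), .t 6 (nat_lit 0xa830a7e000812651264) (.z (.edon 19 4 (.node 0 13 (.edon 19 21 (.leaf [19,20,22]) (.leaf [0,14,15,17,21])) (.node 3 9 (.leaf [1,3,13,2]) (.leaf [6,8,10,9]))) (.free 2 [4,5,7,11,12,16,18])))] (by decide +kernel) (by decide +kernel)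
theorem b157 : B 5024 5056 := Blk.of_chk [.t 10 (nat_lit 0x17b00390004000212b41294127912621260) (.z (.edon 19 4 (.node 0 12 (.node 0 20 (.leaf [0,21,22]) (.leaf [14,19,20,17,15])) (.edon 8 9 (.leaf [8,10,12]) (.leaf [1,3,6,9,2]))) (.free 2 [4,5,7,11,13,16,18]))), .t 7 (nat_lit 0x17b00390004000212651264) (.z (.edon 19 4 (.node 0 12 (.edon 19 21 (.leaf [19,20,22]) (.leaf [0,14,15,17,21])) (.edon 8 9 (.leaf [8,10,12]) (.leaf [1,3,6,9,2]))) (.free 2 [4,5,7,11,13,16,18]))), .t 1 (nat_lit 0) (.cn 2 3), .t 12 (nat_lit 0x376037402220221017b00bf00be0039000500040002) (.z (.edon 4 19 (.free 2 [4,5,7,8,11,16,18]) (.node 10 0 (.leaf [1,3,6,9,10,2]) (.free 3 [0,12,13,14,15,17,19,20,21,22])))), .t 5 (nat_lit 0x17b003900040002) (.z (.edon 19 4 (.node 0 9 (.edon 0 14 (.leaf [0,10,11,13]) (.free 2 [14,15,17,19,20,21,22])) (.leaf [1,3,6,9,2])) (.free 2 [4,5,7,8,12,16,18]))),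 .t 1 (nat_lit 0) (.cn 2 3), .t 1 (nat_lit 0) (.cn 2 3), .t 7 (nat_lit 0x18300430005000412651264) (.z (.edon 19 4 (.node 0 10 (.node 0 13 (.edon 19 21 (.leaf [19,20,22]) (.leaf [0,14,15,17,21])) (.leaf [11,12,13])) (.leaf [1,3,9,10,2])) (.free 2 [4,5,6,7,8,16,18]))), .t 10 (nat_lit 0x18300430005000412b41294127912621260) (.z (.edon 19 4 (.node 0 10 (.node 0 13 (.node 0 20 (.leaf [0,21,22]) (.leaf [14,19,20,17,15])) (.leaf [11,12,13])) (.leaf [1,3,9,10,2])) (.free 2 [4,5,6,7,8,16,18]))), .t 1 (nat_lit 0) (.cn 2 3), .t 9 (nat_lit 0x12c9088a08880657065503be03bc0311) (.z (.edon 0 3 (.free 1 [0,1,2]) (.edon 0 12 (.node 4 6 (.leaf [3,4,11,10,9]) (.leaf [5,7,8,6])) (.node 17 19 (.leaf [17,20,22,21]) (.free 2 [12,13,14,15,16,18,19]))))), .t 1 (nat_lit 0) (.fa 3), .t 7 (nat_lit 0x4300260005000412651264) (.z (.edon 19 4 (.node 0 10 (.node 0 13 (.edon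 19 21 (.leaf [19,20,22]) (.leaf [0,14,15,17,21])) (.leaf [11,12,13])) (.leaf [1,3,10,9,2])) (.free 2 [4,5,6,7,8,16,18]))), .t 9 (nat_lit 0x1169088a08880657065503be03bc0311) (.z (.edon 0 3 (.free 1 [0,1,2]) (.edon 0 12 (.node 4 6 (.leaf [3,4,11,10,9]) (.leaf [5,7,8,6])) (.node 12 19 (.leaf [12,20,22,21]) (.free 2 [13,14,15,16,17,18,19]))))), .t 7 (nat_lit 0x17b00390004000212651264) (.z (.edon 19 4 (.node 0 9 (.node 0 13 (.edon 19 21 (.leaf [19,20,22]) (.leaf [0,14,15,17,21])) (.leaf [10,12,13])) (.leaf [1,3,6,9,2])) (.free 2 [4,5,7,8,11,16,18]))), .t 10 (nat_lit 0x17b00390004000212b41294127912621260) (.z (.edon 19 4 (.node 0 9 (.node 0 13 (.node 0 20 (.leaf [0,21,22]) (.leaf [14,19,20,17,15])) (.leaf [10,12,13])) (.leaf [1,3,6,9,2])) (.free 2 [4,5,7,8,11,16,18]))), .t 7 (nat_lit 0x17b00390004000212651264) (.z (.edon 19 4 (.node 0 9 (.node 0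 13 (.edon 19 21 (.leaf [19,20,22]) (.leaf [0,14,15,17,21])) (.leaf [11,12,13])) (.leaf [1,3,6,9,2])) (.free 2 [4,5,7,8,10,16,18]))), .t 1 (nat_lit 0) (.cn 2 3), .t 10 (nat_lit 0xc960cba0cb70ca00c9e0cf50cf311ef11ed) (.z (.node 0 7 (.node 0 12 (.edon 15 19 (.leaf [13,16,18,15]) (.free 2 [0,14,17,19,20,21,22])) (.leaf [8,10,11,12,9])) (.free 2 [1,2,3,4,5,6,7]))), .t 1 (nat_lit 0) (.cn 2 3), .t 7 (nat_lit 0x12c91169116211610b980b96) (.z (.edon 0 7 (.free 2 [0,1,2,3,4,5,6]) (.edon 0 11 (.leaf [7,10,9,8]) (.node 17 19 (.leaf [12,17,20,22,21]) (.free 2 [11,13,14,15,16,18,19]))))), .t 7 (nat_lit 0x12c91169116211610210020f) (.z (.node 2 4 (.edon 0 11 (.edon 5 8 (.leaf [5,7,10]) (.leaf [0,2,6,8,9])) (.node 17 19 (.leaf [12,17,20,22,21]) (.free 2 [11,13,14,15,16,18,19]))) (.free 1 [1,3,4]))), .t 7 (nat_lit 0x12c912a0129912980b980b96) (.z (.edon 0 7 (.free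 2 [0,1,2,3,4,5,6]) (.edon 0 11 (.leaf [7,10,9,8]) (.node 17 19 (.leaf [14,17,20,22,21]) (.free 2 [11,12,13,15,16,18,19]))))), .t 11 (nat_lit 0x11fd11fa11f6122d122c1211120f12a00ca00c9e) (.z (.edon 0 7 (.free 2 [0,1,2,3,4,5,6]) (.node 10 16 (.edon 0 13 (.leaf [8,10,12,9]) (.node 14 19 (.leaf [14,20,22,21]) (.leaf [13,15,18,19,17]))) (.leaf [7,11,16])))), .t 9 (nat_lit 0x11fd11fa11f6122d122c1211120f12a0) (.z (.node 0 7 (.node 10 16 (.edon 0 13 (.leaf [0,9,10,12]) (.node 14 19 (.leaf [14,20,22,21]) (.leaf [13,15,18,19,17]))) (.leaf [8,11,16])) (.free 2 [1,2,3,4,5,6,7]))), .t 10 (nat_lit 0x11ef0fe50fe30f820f810f740f720b980b96) (.z (.edon 0 7 (.free 2 [0,1,2,3,4,5,6]) (.edon 0 11 (.leaf [7,10,9,8]) (.edon 13 19 (.leaf [11,16,18,15,13]) (.free 2 [12,14,17,19,20,21,22]))))), .t 10 (nat_lit 0xba011ef11ed0c9a0c980bde0bdc0b980b96) (.z (.edon 0 7 (.free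 2 [0,1,2,3,4,5,6]) (.edon 0 12 (.leaf [7,11,10,9,8]) (.edon 15 19 (.leaf [13,16,18,15]) (.free 2 [12,14,17,19,20,21,22]))))), .t 6 (nat_lit 0x212c912a012991298) (.z (.edon 19 4 (.node 0 6 (.edon 0 13 (.leaf [0,8,9,12]) (.node 17 19 (.leaf [14,17,20,22,21]) (.leaf [13,15,19]))) (.leaf [1,3,6,2])) (.free 2 [4,5,7,10,11,16,18]))), .t 7 (nat_lit 0x11ef11ed0210020f08e508e2) (.z (.node 2 4 (.edon 0 12 (.edon 5 8 (.leaf [5,7,11,10]) (.leaf [0,2,6,8,9])) (.edon 15 19 (.leaf [13,16,18,15]) (.free 2 [12,14,17,19,20,21,22]))) (.free 1 [1,3,4]))), .t 1 (nat_lit 0) (.cn 2 3), .t 10 (nat_lit 0x12c912a01299129804bc04ba0361035f02f9) (.z (.edon 0 3 (.free 1 [0,1,2]) (.node 4 19 (.edon 0 12 (.leaf [3,4,9,8,6]) (.edon 13 17 (.leaf [12,13,15]) (.leaf [14,17,20,22,21]))) (.free 2 [5,7,10,11,16,18,19])))), .t 1 (nat_lit 0) (.cn 2 3)] (by decide +kernel) (by decide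 +kernel)
theorem b158 : B 5056 5088 := Blk.of_chk [.t 12 (nat_lit 0xa470a5e0a5b0a4e0a4b12a0124211e811e70a830a81) (.z (.node 0 2 (.edon 0 6 (.leaf [0,3,4,5]) (.edon 0 11 (.leaf [6,7,10,9,8]) (.node 14 19 (.leaf [13,14,20,22,21]) (.free 2 [11,12,15,16,17,18,19])))) (.free 1 [1,2]))), .t 7 (nat_lit 0x12c912a0129912980210020f) (.z (.node 4 19 (.edon 0 12 (.node 2 4 (.leaf [0,2,6,8,9]) (.leaf [1,3,4])) (.node 14 15 (.leaf [14,17,20,22,21]) (.leaf [12,13,15]))) (.free 2 [5,7,10,11,16,18,19]))), .t 7 (nat_lit 0x12c91169116211610210020f) (.z (.node 4 19 (.edon 0 12 (.node 2 4 (.leaf [0,2,6,8,9]) (.leaf [1,3,4])) (.node 12 15 (.leaf [12,17,20,22,21]) (.leaf [13,14,15]))) (.free 2 [5,7,10,11,16,18,19]))), .t 6 (nat_lit 0x212a0124211e811e7) (.z (.edon 19 4 (.node 0 6 (.edon 0 13 (.leaf [0,8,9,12]) (.node 14 19 (.leaf [13,14,20,22,21]) (.leaf [15,17,19])))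 (.leaf [1,3,6,2])) (.free 2 [4,5,7,10,11,16,18]))), .t 10 (nat_lit 0x12a412a108e508e204bc04ba0361035f02f9) (.z (.edon 0 3 (.free 1 [0,1,2]) (.edon 0 12 (.node 4 10 (.leaf [3,4,9,8,6]) (.leaf [5,7,11,10])) (.edon 17 19 (.leaf [15,16,18,17]) (.free 2 [12,13,14,19,20,21,22]))))), .t 7 (nat_lit 0x12c91242123a12390210020f) (.z (.node 4 19 (.edon 0 12 (.node 2 4 (.leaf [0,2,6,8,9]) (.leaf [1,3,4])) (.node 13 15 (.leaf [13,17,20,22,21]) (.leaf [12,14,15]))) (.free 2 [5,7,10,11,16,18,19]))), .t 12 (nat_lit 0xa470a5e0a5b0a4e0a4b12a0124211e811e70a830a81) (.z (.node 0 2 (.edon 0 6 (.leaf [0,3,4,5]) (.edon 0 11 (.leaf [6,7,10,9,8]) (.node 13 19 (.leaf [13,14,20,22,21]) (.free 2 [11,12,15,16,17,18,19])))) (.free 1 [1,2]))), .t 6 (nat_lit 0x12a001d101d00a680a65) (.z (.node 2 4 (.edon 0 12 (.edon 6 9 (.leaf [6,7,11,10]) (.leaf [0,2,5,8,9])) (.node 14 19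 (.leaf [14,20,22,21]) (.free 2 [12,13,15,16,17,18,19]))) (.free 1 [1,3,4]))), .t 8 (nat_lit 0x1b901c501c301bd01bc02050204) (.z (.node 2 4 (.node 0 8 (.free 4 [0,9,10,11,12,13,14,15,16,17,18,19,20,21,22]) (.leaf [2,6,7,8,5])) (.free 1 [1,3,4]))), .t 1 (nat_lit 0) (.cn 2 2), .t 9 (nat_lit 0x12a00a680a6504090407033b033902ef) (.z (.edon 0 3 (.free 1 [0,1,2]) (.edon 0 12 (.node 4 10 (.leaf [3,4,9,8,5]) (.leaf [6,7,11,10])) (.node 14 19 (.leaf [14,20,22,21]) (.free 2 [12,13,15,16,17,18,19]))))), .t 1 (nat_lit 0) (.cn 2 3), .t 9 (nat_lit 0x102d10281025111f10ae12a412a10001) (.z (.node 20 0 (.edon 0 12 (.edon 4 5 (.free 2 [4,6,7,8,9,10,11]) (.leaf [1,3,5,2])) (.edon 17 19 (.leaf [15,16,18,17]) (.leaf [12,14,19,20,13]))) (.free 1 [0,21,22]))), .t 12 (nat_lit 0xa470a5e0a5b0a4e0a4b1242116910b610b50a830a81) (.z (.node 0 2 (.edon 0 6 (.leaf [0,3,4,5]) (.edon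 0 11 (.leaf [6,7,10,9,8]) (.node 13 19 (.leaf [12,13,20,22,21]) (.free 2 [11,14,15,16,17,18,19])))) (.free 1 [1,2]))), .t 10 (nat_lit 0xa4b0a680a650a520a4f100910070aa30aa1) (.z (.edon 0 16 (.edon 0 12 (.node 4 8 (.free 2 [0,1,2,3,4,5,9]) (.leaf [6,7,11,10,8])) (.leaf [12,15,14,13])) (.free 2 [16,17,18,19,20,21,22]))), .t 12 (nat_lit 0xa470a5e0a5b0a4e0a4b1242116910b610b50a830a81) (.z (.node 0 2 (.edon 0 6 (.leaf [0,3,4,5]) (.edon 0 11 (.leaf [6,7,10,9,8]) (.node 12 19 (.leaf [12,13,20,22,21]) (.free 2 [11,14,15,16,17,18,19])))) (.free 1 [1,2]))), .t 12 (nat_lit 0xa470a5e0a5b0a4e0a4b12a01169112511240a830a81) (.z (.node 0 2 (.edon 0 6 (.leaf [0,3,4,5]) (.edon 0 11 (.leaf [6,7,10,9,8]) (.node 14 19 (.leaf [12,14,20,22,21]) (.free 2 [11,13,15,16,17,18,19])))) (.free 1 [1,2]))), .t 1 (nat_lit 0) (.fa 3), .t 9 (nat_lit 0x102c10291024111f10ae12a412a10001)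 (.z (.node 20 0 (.edon 0 12 (.edon 4 5 (.free 2 [4,6,7,8,9,10,11]) (.leaf [1,3,5,2])) (.edon 17 19 (.leaf [15,16,18,17]) (.leaf [12,13,19,20,14]))) (.free 1 [0,21,22]))), .t 10 (nat_lit 0x12c912a01299129804090407033b033902ef) (.z (.edon 0 3 (.free 1 [0,1,2]) (.node 4 19 (.edon 0 12 (.leaf [3,4,9,8,5]) (.edon 13 17 (.leaf [12,13,15]) (.leaf [14,17,20,22,21]))) (.free 2 [6,7,10,11,16,18,19])))), .t 1 (nat_lit 0) (.cn 2 3), .t 10 (nat_lit 0x102d102810250c990c96111f10ae12a412a1) (.z (.node 0 7 (.node 0 11 (.node 0 20 (.leaf [0,21,22]) (.edon 17 19 (.leaf [15,16,18,17]) (.leaf [12,14,19,20,13]))) (.leaf [8,10,11,9])) (.free 2 [1,2,3,4,5,6,7]))), .t 5 (nat_lit 0x12a0116911251124) (.z (.node 0 7 (.edon 0 11 (.leaf [0,8,9,10]) (.node 14 19 (.leaf [12,14,20,22,21]) (.free 2 [11,13,15,16,17,18,19]))) (.free 2 [1,2,3,4,5,6,7]))), .t 1 (nat_lit 0) (.cn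 2 3), .t 6 (nat_lit 0x12a001d101d00a680a65) (.z (.node 2 4 (.edon 0 12 (.edon 6 8 (.leaf [6,7,11,10]) (.leaf [0,2,5,8,9])) (.node 14 19 (.leaf [14,20,22,21]) (.free 2 [12,13,15,16,17,18,19]))) (.free 1 [1,3,4]))), .t 7 (nat_lit 0x12a011691125112401d101d0) (.z (.node 2 4 (.edon 0 11 (.edon 6 8 (.leaf [6,7,10]) (.leaf [0,2,5,8,9])) (.node 14 19 (.leaf [12,14,20,22,21]) (.free 2 [11,13,15,16,17,18,19]))) (.free 1 [1,3,4]))), .t 7 (nat_lit 0x12a0124211e811e701d101d0) (.z (.node 2 4 (.edon 0 11 (.edon 6 8 (.leaf [6,7,10]) (.leaf [0,2,5,8,9])) (.node 14 19 (.leaf [13,14,20,22,21]) (.free 2 [11,12,15,16,17,18,19]))) (.free 1 [1,3,4]))), .t 12 (nat_lit 0xe310e300e2d1242116910b610b50e910e8f0e340e33) (.z (.node 0 3 (.edon 0 10 (.free 2 [0,4,5,6,7,8,9]) (.edon 15 19 (.leaf [10,11,16,18,15]) (.edon 14 20 (.leaf [14,17,19]) (.leaf [12,13,20,22,21]))))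 (.free 1 [1,2,3]))), .t 6 (nat_lit 0x124201d101d00a680a65) (.z (.node 2 4 (.edon 0 12 (.edon 6 8 (.leaf [6,7,11,10]) (.leaf [0,2,5,8,9])) (.edon 12 20 (.free 2 [12,14,15,16,17,18,19]) (.leaf [13,20,22,21]))) (.free 1 [1,3,4]))), .t 6 (nat_lit 0x112c91242123a1239) (.z (.edon 19 4 (.node 0 5 (.edon 0 13 (.leaf [0,8,9,12]) (.node 17 19 (.leaf [13,17,20,22,21]) (.leaf [14,15,19]))) (.leaf [1,3,5,2])) (.free 2 [4,6,7,10,11,16,18]))), .t 7 (nat_lit 0x1009100708e508e20210020f) (.z (.edon 0 16 (.edon 0 12 (.node 4 10 (.node 2 4 (.leaf [0,2,6,8,9]) (.leaf [1,3,4])) (.leaf [5,7,11,10])) (.leaf [12,15,14,13])) (.free 2 [16,17,18,19,20,21,22]))), .t 6 (nat_lit 0x212c91242123a1239) (.z (.edon 19 4 (.node 0 6 (.edon 0 13 (.leaf [0,8,9,12]) (.node 17 19 (.leaf [13,17,20,22,21]) (.leaf [14,15,19]))) (.leaf [1,3,6,2])) (.free 2 [4,5,7,10,11,16,18])))] (by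 decide +kernel) (by decide +kernel)
theorem b159 : B 5088 5120 := Blk.of_chk [.t 7 (nat_lit 0x12c91242123a123901d101d0) (.z (.node 2 4 (.edon 0 11 (.edon 6 8 (.leaf [6,7,10]) (.leaf [0,2,5,8,9])) (.node 17 19 (.leaf [13,17,20,22,21]) (.free 2 [11,12,14,15,16,18,19]))) (.free 1 [1,3,4]))), .t 7 (nat_lit 0x12c91242123a123901d101d0) (.z (.node 2 4 (.edon 0 11 (.edon 6 8 (.leaf [6,7,10]) (.leaf [0,2,5,8,9])) (.node 13 19 (.leaf [13,17,20,22,21]) (.free 2 [11,12,14,15,16,18,19]))) (.free 1 [1,3,4]))), .t 6 (nat_lit 0x12c901d101d00a680a65) (.z (.node 2 4 (.edon 0 12 (.edon 6 8 (.leaf [6,7,11,10]) (.leaf [0,2,5,8,9])) (.node 17 19 (.leaf [17,20,22,21]) (.free 2 [12,13,14,15,16,18,19]))) (.free 1 [1,3,4]))), .t 7 (nat_lit 0x12c911691162116101d101d0) (.z (.node 2 4 (.edon 0 11 (.edon 6 8 (.leaf [6,7,10]) (.leaf [0,2,5,8,9])) (.node 17 19 (.leaf [12,17,20,22,21])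 (.free 2 [11,13,14,15,16,18,19]))) (.free 1 [1,3,4]))), .t 5 (nat_lit 0xc990c9610371035) (.z (.node 0 7 (.node 0 11 (.edon 15 21 (.free 2 [15,16,17,18,19,20,22]) (.leaf [0,12,13,14,21])) (.leaf [8,10,11,9])) (.free 2 [1,2,3,4,5,6,7]))), .t 9 (nat_lit 0x12c90a680a6504090407033b033902ef) (.z (.edon 0 3 (.free 1 [0,1,2]) (.edon 0 12 (.node 4 10 (.leaf [3,4,9,8,5]) (.leaf [6,7,11,10])) (.node 17 19 (.leaf [17,20,22,21]) (.free 2 [12,13,14,15,16,18,19]))))), .t 6 (nat_lit 0x12c901d101d00a680a65) (.z (.node 2 4 (.edon 0 12 (.edon 6 9 (.leaf [6,7,11,10]) (.leaf [0,2,5,8,9])) (.node 17 19 (.leaf [17,20,22,21]) (.free 2 [12,13,14,15,16,18,19]))) (.free 1 [1,3,4]))), .t 10 (nat_lit 0x4d008e508e20a910a9005b605b404bc04ba) (.z (.node 0 3 (.node 0 12 (.edon 15 21 (.free 2 [15,16,17,18,19,20,22]) (.leaf [0,13,14,21])) (.node 4 10 (.leaf [4,12,9,8,6]) (.leaf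 [5,7,11,10]))) (.free 1 [1,2,3]))), .t 12 (nat_lit 0xa470a5e0a5b0a4e0a4b12c91242123a12390a830a81) (.z (.node 0 2 (.edon 0 6 (.leaf [0,3,4,5]) (.edon 0 11 (.leaf [6,7,10,9,8]) (.node 17 19 (.leaf [13,17,20,22,21]) (.free 2 [11,12,14,15,16,18,19])))) (.free 1 [1,2]))), .t 6 (nat_lit 0x124201d101d00a680a65) (.z (.node 2 4 (.edon 0 12 (.edon 6 9 (.leaf [6,7,11,10]) (.leaf [0,2,5,8,9])) (.edon 12 20 (.free 2 [12,14,15,16,17,18,19]) (.leaf [13,20,22,21]))) (.free 1 [1,3,4]))), .t 1 (nat_lit 0) (.cn 2 3), .t 7 (nat_lit 0x12c91242123a123901d101d0) (.z (.node 4 19 (.edon 0 12 (.node 2 4 (.leaf [0,2,5,8,9]) (.leaf [1,3,4])) (.edon 12 17 (.leaf [12,14,15]) (.leaf [13,17,20,22,21]))) (.free 2 [6,7,10,11,16,18,19]))), .t 7 (nat_lit 0x12c91242123a123901d101d0) (.z (.node 4 19 (.edon 0 11 (.node 2 4 (.leaf [0,2,5,8,9]) (.leaf [1,3,4])) (.edon 12 17 (.leaf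 [11,12,14]) (.leaf [13,17,20,22,21]))) (.free 2 [6,7,10,15,16,18,19]))), .t 6 (nat_lit 0x12c90e9f0e9d01d101d0) (.z (.node 4 19 (.edon 0 11 (.node 2 4 (.leaf [0,2,5,8,9]) (.leaf [1,3,4])) (.edon 0 17 (.leaf [11,14,13,12]) (.leaf [17,20,22,21]))) (.free 2 [6,7,10,15,16,18,19]))), .t 6 (nat_lit 0x11690a5e0a5b01d701d6) (.z (.node 2 4 (.edon 0 12 (.node 8 9 (.leaf [0,2,5,8,11]) (.leaf [6,7,10,9])) (.node 12 19 (.leaf [12,20,22,21]) (.free 2 [13,14,15,16,17,18,19]))) (.free 1 [1,3,4]))), .t 12 (nat_lit 0xa470a5e0a5b0a4e0a4b116910030f3c0f3b0a830a81) (.z (.node 0 2 (.edon 0 6 (.leaf [0,3,4,5]) (.edon 0 11 (.leaf [6,7,10,9,8]) (.edon 13 20 (.free 2 [13,14,15,16,17,18,19]) (.leaf [11,12,20,22,21])))) (.free 1 [1,2]))), .t 12 (nat_lit 0xa470a5e0a5b0a4e0a4b124210030fa40fa30a830a81) (.z (.node 0 2 (.edon 0 6 (.leaf [0,3,4,5]) (.edon 0 11 (.leaf [6,7,10,9,8])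 (.edon 12 20 (.free 2 [12,14,15,16,17,18,19]) (.leaf [11,13,20,22,21])))) (.free 1 [1,2]))), .t 7 (nat_lit 0x12c91242123a123901d101d0) (.z (.node 4 19 (.edon 0 11 (.node 2 4 (.leaf [0,2,5,8,9]) (.leaf [1,3,4])) (.edon 11 17 (.leaf [11,12,14]) (.leaf [13,17,20,22,21]))) (.free 2 [6,7,10,15,16,18,19]))), .t 1 (nat_lit 0) (.cn 2 3), .t 12 (nat_lit 0xa470a5e0a5b0a4e0a4b124210030fa40fa30a830a81) (.z (.node 0 2 (.edon 0 6 (.leaf [0,3,4,5]) (.edon 0 11 (.leaf [6,7,10,9,8]) (.node 13 19 (.leaf [11,13,20,22,21]) (.free 2 [12,14,15,16,17,18,19])))) (.free 1 [1,2]))), .t 1 (nat_lit 0) (.cn 2 3), .t 1 (nat_lit 0) (.cn 2 3), .t 4 (nat_lit 0x12420c990c97) (.z (.node 0 7 (.edon 0 12 (.leaf [0,8,9,10,11]) (.node 13 19 (.leaf [13,20,22,21]) (.free 2 [12,14,15,16,17,18,19]))) (.free 2 [1,2,3,4,5,6,7]))), .t 1 (nat_lit 0) (.fa 4), .t 6 (nat_lit 0x12420a5e0a5b01d701d6)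 (.z (.node 2 4 (.edon 0 12 (.node 8 9 (.leaf [0,2,5,8,11]) (.leaf [6,7,10,9])) (.node 13 19 (.leaf [13,20,22,21]) (.free 2 [12,14,15,16,17,18,19]))) (.free 1 [1,3,4]))), .t 15 (nat_lit 0x3e003dd03da12561254125004bc04b70409040712891286126c126a) (.z (.node 0 3 (.node 6 16 (.node 0 9 (.edon 0 14 (.leaf [0,11,12,13]) (.edon 0 20 (.leaf [14,15,18,19,17]) (.leaf [20,21,22]))) (.leaf [4,6,9,8,5])) (.leaf [7,10,16])) (.free 1 [1,2,3]))), .t 1 (nat_lit 0) (.cn 2 2), .t 15 (nat_lit 0x3e003dd03da12af12aa12a904bc04b7040904070e9f0e9d12ba12b4) (.z (.node 0 3 (.node 6 16 (.node 0 9 (.node 0 14 (.node 0 20 (.leaf [0,21,22]) (.leaf [15,18,19,20,17])) (.leaf [11,14,13,12])) (.leaf [4,6,9,8,5])) (.leaf [7,10,16])) (.free 1 [1,2,3]))), .t 12 (nat_lit 0x3e003dd03da04bc04b70409040712c912a012991298) (.z (.node 0 3 (.node 6 16 (.node 0 9 (.edon 0 14 (.leaf [0,11,12,13])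 (.edon 15 20 (.leaf [15,18,19]) (.leaf [14,17,20,22,21]))) (.leaf [4,6,9,8,5])) (.leaf [7,10,16])) (.free 1 [1,2,3]))), .t 7 (nat_lit 0x12a412a10a5e0a5b01d701d6) (.z (.node 2 4 (.edon 0 12 (.node 8 9 (.leaf [0,2,5,8,11]) (.leaf [6,7,10,9])) (.edon 17 19 (.leaf [15,16,18,17]) (.free 2 [12,13,14,19,20,21,22]))) (.free 1 [1,3,4]))), .t 6 (nat_lit 0x12a00a5e0a5b01d701d6) (.z (.node 2 4 (.edon 0 12 (.node 8 9 (.leaf [0,2,5,8,11]) (.leaf [6,7,10,9])) (.node 14 19 (.leaf [14,20,22,21]) (.free 2 [12,13,15,16,17,18,19]))) (.free 1 [1,3,4]))), .t 15 (nat_lit 0xa470a5e0a5b0a4e0a4b1249112b112910e910e710cb10c90a830a81) (.z (.node 0 2 (.edon 0 6 (.leaf [0,3,4,5]) (.edon 0 11 (.leaf [6,7,10,9,8]) (.edon 14 19 (.leaf [12,16,18,15,14]) (.free 2 [11,13,17,19,20,21,22])))) (.free 1 [1,2])))] (by decide +kernel) (by decide +kernel)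

end Pool.Agent.GCP.F7
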