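import Pool.Agent.GCP.F7Db

set_option autoImplicit false
set_option maxRecDepth 100000

/-! # Blocks F7B3 (generated) -/

namespace Pool.Agent.GCP.F7

open Pool.Agent.GCP DB

theorem b160 : B 5120 5152 := Blk.of_chk [.t 9 (nat_lit 0xa470a5e0a5b0a4e0a4b12420a830a81) (.z (.node 2 4 (.edon 0 12 (.node 5 8 (.leaf [0,2,5,11]) (.leaf [6,7,10,9,8])) (.node 13 19 (.leaf [13,20,22,21]) (.free 2 [12,14,15,16,17,18,19]))) (.free 1 [1,3,4]))), .t 9 (nat_lit 0x12420a5e0a5b041704160342034102ef) (.z (.edon 0 3 (.free 1 [0,1,2]) (.edon 0 12 (.node 4 9 (.leaf [3,4,11,8,5]) (.leaf [6,7,10,9])) (.node 13 19 (.leaf [13,20,22,21]) (.free 2 [12,14,15,16,17,18,19]))))), .t 9 (nat_lit 0x124203dd0326032502f902ef0bde0bdc) (.z (.edon 0 3 (.free 1 [0,1,2]) (.edon 0 12 (.edon 7 8 (.leaf [7,11,10,9]) (.leaf [3,4,6,8,5])) (.node 13 19 (.leaf [13,20,22,21]) (.free 2 [12,14,15,16,17,18,19]))))),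 .t 9 (nat_lit 0x12420a5d0a5c041704160342034102ef) (.z (.edon 0 3 (.free 1 [0,1,2]) (.edon 0 12 (.node 4 10 (.leaf [3,4,11,8,5]) (.leaf [6,7,9,10])) (.node 13 19 (.leaf [13,20,22,21]) (.free 2 [12,14,15,16,17,18,19]))))), .t 1 (nat_lit 0) (.fa 3), .t 7 (nat_lit 0x12c91242123a123901d701d6) (.z (.node 4 19 (.edon 0 12 (.node 2 4 (.leaf [0,2,5,8,11]) (.leaf [1,3,4])) (.edon 12 17 (.leaf [12,14,15]) (.leaf [13,17,20,22,21]))) (.free 2 [6,7,9,10,16,18,19]))), .t 7 (nat_lit 0x12c91242123a123901d701d6) (.z (.node 4 19 (.edon 0 12 (.node 2 4 (.leaf [0,2,5,8,11]) (.leaf [1,3,4])) (.edon 12 20 (.leaf [12,14,15]) (.leaf [13,17,20,22,21]))) (.free 2 [6,7,9,10,16,18,19]))), .t 14 (nat_lit 0x12561254125012891286126c126a124203dd0326032502f902ef) (.z (.edon 0 3 (.free 1 [0,1,2]) (.node 6 16 (.edon 0 13 (.edon 0 10 (.leaf [3,4,6,8,5]) (.leaf [10,11,12])) (.node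 13 19 (.leaf [13,20,22,21]) (.leaf [14,15,18,19,17]))) (.leaf [7,9,16])))), .t 1 (nat_lit 0) (.fa 2), .t 1 (nat_lit 0) (.cn 2 3), .t 12 (nat_lit 0x126c126912c91242123a123903dd0326032502f902ef) (.z (.edon 0 3 (.free 1 [0,1,2]) (.node 6 16 (.edon 0 13 (.edon 0 10 (.leaf [3,4,6,8,5]) (.leaf [10,11,12])) (.node 17 19 (.leaf [13,17,20,22,21]) (.leaf [14,18,19,15]))) (.leaf [7,9,16])))), .t 5 (nat_lit 0x100810050c990c97) (.z (.node 0 7 (.edon 0 12 (.leaf [0,8,9,10,11]) (.edon 0 16 (.leaf [12,14,15,13]) (.free 2 [16,17,18,19,20,21,22]))) (.free 2 [1,2,3,4,5,6,7]))), .t 4 (nat_lit 0x11690c990c97) (.z (.node 0 7 (.edon 0 12 (.leaf [0,8,9,10,11]) (.node 12 19 (.leaf [12,20,22,21]) (.free 2 [13,14,15,16,17,18,19]))) (.free 2 [1,2,3,4,5,6,7]))), .t 12 (nat_lit 0x12aa12a912a0124211e811e703dd0326032502f902ef) (.z (.edon 0 3 (.free 1 [0,1,2]) (.node 6 16 (.edon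 0 10 (.leaf [3,4,6,8,5]) (.edon 0 13 (.leaf [10,11,12]) (.node 14 19 (.leaf [13,14,20,22,21]) (.leaf [15,18,19,17])))) (.leaf [7,9,16])))), .t 10 (nat_lit 0x12c912a012991298041704160342034102ef) (.z (.edon 0 3 (.free 1 [0,1,2]) (.node 4 19 (.edon 0 12 (.leaf [3,4,11,8,5]) (.node 14 15 (.leaf [14,17,20,22,21]) (.leaf [12,13,15]))) (.free 2 [6,7,9,10,16,18,19])))), .t 9 (nat_lit 0x102c10291024111f10ae12a412a10006) (.z (.node 20 0 (.edon 0 12 (.edon 4 11 (.free 2 [4,5,6,7,8,9,10]) (.leaf [1,3,11,2])) (.edon 17 19 (.leaf [15,16,18,17]) (.leaf [12,13,19,20,14]))) (.free 1 [0,21,22]))), .t 7 (nat_lit 0x12c912a01299129801d701d6) (.z (.node 4 19 (.edon 0 12 (.node 2 4 (.leaf [0,2,5,8,11]) (.leaf [1,3,4])) (.edon 13 17 (.leaf [12,13,15]) (.leaf [14,17,20,22,21]))) (.free 2 [6,7,9,10,16,18,19]))), .t 1 (nat_lit 0) (.cn 2 3), .t 1 (nat_lit 0) (.fa 2), .t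 1 (nat_lit 0) (.fa 3), .t 8 (nat_lit 0x10090f420f3d0ed50ed00ea60ea4) (.z (.node 0 7 (.edon 0 11 (.leaf [0,8,9,10]) (.edon 0 16 (.leaf [11,12,13,15,14]) (.free 2 [16,17,18,19,20,21,22]))) (.free 2 [1,2,3,4,5,6,7]))), .t 10 (nat_lit 0x88b088a08881009100408c908c608990897) (.z (.edon 0 16 (.edon 0 12 (.node 2 4 (.node 2 9 (.leaf [0,2,10,11]) (.leaf [5,7,9,8,6])) (.leaf [1,3,4])) (.leaf [12,13,15,14])) (.free 2 [16,17,18,19,20,21,22]))), .t 7 (nat_lit 0x1009100408dc08db02180217) (.z (.edon 0 16 (.edon 0 12 (.node 4 10 (.node 2 4 (.leaf [0,2,6,8,11]) (.leaf [1,3,4])) (.leaf [5,7,9,10])) (.leaf [12,13,15,14])) (.free 2 [16,17,18,19,20,21,22]))), .t 10 (nat_lit 0x1009100408dc08db04cb04c9036d036b02f9) (.z (.edon 0 16 (.edon 0 3 (.leaf [0,1,2]) (.edon 0 12 (.node 4 10 (.leaf [3,4,11,8,6]) (.leaf [5,7,9,10])) (.leaf [12,13,15,14]))) (.free 2 [16,17,18,19,20,21,22]))),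 .t 9 (nat_lit 0x12a008dc08db04cb04c9036d036b02f9) (.z (.edon 0 3 (.free 1 [0,1,2]) (.edon 0 12 (.node 4 10 (.leaf [3,4,11,8,6]) (.leaf [5,7,9,10])) (.node 14 19 (.leaf [14,20,22,21]) (.free 2 [12,13,15,16,17,18,19]))))), .t 9 (nat_lit 0x8ca08c908c612a0090c090908dc08db) (.z (.node 2 4 (.edon 0 12 (.edon 8 11 (.leaf [5,7,9,10,8]) (.leaf [0,2,6,11])) (.node 14 19 (.leaf [14,20,22,21]) (.free 2 [12,13,15,16,17,18,19]))) (.free 1 [1,3,4]))), .t 9 (nat_lit 0x8ca08c908c61169090c090908dc08db) (.z (.node 2 4 (.edon 0 12 (.edon 8 11 (.leaf [5,7,9,10,8]) (.leaf [0,2,6,11])) (.node 12 19 (.leaf [12,20,22,21]) (.free 2 [13,14,15,16,17,18,19]))) (.free 1 [1,3,4]))), .t 9 (nat_lit 0x116908dc08db04cb04c9036d036b02f9) (.z (.edon 0 3 (.free 1 [0,1,2]) (.edon 0 12 (.node 4 10 (.leaf [3,4,11,8,6]) (.leaf [5,7,9,10])) (.node 12 19 (.leaf [12,20,22,21]) (.free 2 [13,14,15,16,17,18,19]))))),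 .t 1 (nat_lit 0) (.fa 3), .t 1 (nat_lit 0) (.cn 2 2), .t 4 (nat_lit 0x12a00c990c97) (.z (.node 0 7 (.edon 0 12 (.leaf [0,8,9,10,11]) (.node 14 19 (.leaf [14,20,22,21]) (.free 2 [12,13,15,16,17,18,19]))) (.free 2 [1,2,3,4,5,6,7]))), .t 1 (nat_lit 0) (.cn 2 3)] (by decide +kernel) (by decide +kernel)
theorem b161 : B 5152 5184 := Blk.of_chk [.t 12 (nat_lit 0x12aa12a912a0124211e811e703de0327032402f902ef) (.z (.edon 0 3 (.free 1 [0,1,2]) (.node 5 16 (.edon 0 10 (.leaf [3,4,5,8,6]) (.edon 0 13 (.leaf [10,11,12]) (.node 14 19 (.leaf [13,14,20,22,21]) (.leaf [15,18,19,17])))) (.leaf [7,9,16])))), .t 9 (nat_lit 0x8c608dd08da08cd08ca1242090d090b) (.z (.node 2 4 (.edon 0 12 (.node 6 8 (.leaf [0,2,6,11]) (.leaf [5,7,10,9,8])) (.node 13 19 (.leaf [13,20,22,21]) (.free 2 [12,14,15,16,17,18,19]))) (.free 1 [1,3,4]))), .t 9 (nat_lit 0x124208dd08da04cb04c9036d036b02f9)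 (.z (.edon 0 3 (.free 1 [0,1,2]) (.edon 0 12 (.node 4 9 (.leaf [3,4,11,8,6]) (.leaf [5,7,10,9])) (.node 13 19 (.leaf [13,20,22,21]) (.free 2 [12,14,15,16,17,18,19]))))), .t 9 (nat_lit 0x124208dc08db04cb04c9036d036b02f9) (.z (.edon 0 3 (.free 1 [0,1,2]) (.edon 0 12 (.node 4 10 (.leaf [3,4,11,8,6]) (.leaf [5,7,9,10])) (.node 13 19 (.leaf [13,20,22,21]) (.free 2 [12,14,15,16,17,18,19]))))), .t 1 (nat_lit 0) (.cn 2 3), .t 7 (nat_lit 0x12c91242123a123902180217) (.z (.node 4 19 (.edon 0 12 (.node 2 4 (.leaf [0,2,6,8,11]) (.leaf [1,3,4])) (.node 13 15 (.leaf [13,17,20,22,21]) (.leaf [12,14,15]))) (.free 2 [5,7,9,10,16,18,19]))), .t 7 (nat_lit 0x1009100708dc08db02180217) (.z (.edon 0 16 (.edon 0 12 (.node 4 10 (.node 2 4 (.leaf [0,2,6,8,11]) (.leaf [1,3,4])) (.leaf [5,7,9,10])) (.leaf [12,15,14,13])) (.free 2 [16,17,18,19,20,21,22]))), .t 6 (nat_lit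 0x11690218021708dc08db) (.z (.node 2 4 (.edon 0 12 (.edon 5 8 (.leaf [5,7,9,10]) (.leaf [0,2,6,8,11])) (.node 12 19 (.leaf [12,20,22,21]) (.free 2 [13,14,15,16,17,18,19]))) (.free 1 [1,3,4]))), .t 9 (nat_lit 0x8c608dd08da08cd08ca1169090d090b) (.z (.node 2 4 (.edon 0 12 (.node 6 8 (.leaf [0,2,6,11]) (.leaf [5,7,10,9,8])) (.node 12 19 (.leaf [12,20,22,21]) (.free 2 [13,14,15,16,17,18,19]))) (.free 1 [1,3,4]))), .t 9 (nat_lit 0x116908dd08da04cb04c9036d036b02f9) (.z (.edon 0 3 (.free 1 [0,1,2]) (.edon 0 12 (.node 4 9 (.leaf [3,4,11,8,6]) (.leaf [5,7,10,9])) (.node 12 19 (.leaf [12,20,22,21]) (.free 2 [13,14,15,16,17,18,19]))))), .t 9 (nat_lit 0x116903de0327032402f902ef0bde0bdc) (.z (.edon 0 3 (.free 1 [0,1,2]) (.edon 0 12 (.edon 7 8 (.leaf [7,11,10,9]) (.leaf [3,4,5,8,6])) (.node 12 19 (.leaf [12,20,22,21]) (.free 2 [13,14,15,16,17,18,19]))))), .t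 6 (nat_lit 0x21088108612491247) (.z (.edon 0 20 (.node 0 11 (.edon 15 19 (.leaf [14,16,18,15]) (.leaf [0,12,13,17,19])) (.edon 4 6 (.free 2 [4,5,7,8,9,10,11]) (.leaf [1,3,6,2]))) (.free 1 [20,21,22]))), .t 5 (nat_lit 0x116910030f3c0f3b) (.z (.node 0 7 (.edon 0 11 (.leaf [0,8,9,10]) (.node 12 19 (.leaf [11,12,20,22,21]) (.free 2 [13,14,15,16,17,18,19]))) (.free 2 [1,2,3,4,5,6,7]))), .t 5 (nat_lit 0x1242116910b610b5) (.z (.node 0 7 (.edon 0 11 (.leaf [0,8,9,10]) (.node 13 19 (.leaf [12,13,20,22,21]) (.free 2 [11,14,15,16,17,18,19]))) (.free 2 [1,2,3,4,5,6,7]))), .t 1 (nat_lit 0) (.cp 2 3), .t 11 (nat_lit 0x12af12aa12a900020411040c0e9f0e9d12ba12b4) (.z (.node 5 16 (.node 0 10 (.node 0 14 (.node 0 20 (.leaf [0,21,22]) (.leaf [15,18,19,20,17])) (.leaf [11,14,13,12])) (.edon 4 6 (.leaf [4,5,10,8]) (.leaf [1,3,6,2]))) (.free 1 [7,9,16]))), .t 8 (nat_lit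 0x12a41282127f1254125012491248) (.z (.node 0 7 (.edon 0 11 (.leaf [0,8,9,10]) (.edon 17 19 (.leaf [14,15,16,18,17]) (.free 2 [11,12,13,19,20,21,22]))) (.free 2 [1,2,3,4,5,6,7]))), .t 6 (nat_lit 0x212a412a110371035) (.z (.edon 21 19 (.node 0 11 (.node 14 17 (.leaf [0,12,13,14,21]) (.leaf [15,16,18,17])) (.edon 4 6 (.free 2 [4,5,7,8,9,10,11]) (.leaf [1,3,6,2]))) (.free 1 [19,20,22]))), .t 6 (nat_lit 0x12c90e9f0e9d02150214) (.z (.node 4 19 (.edon 0 11 (.node 2 4 (.leaf [0,2,6,8,10]) (.leaf [1,3,4])) (.edon 0 17 (.leaf [11,14,13,12]) (.leaf [17,20,22,21]))) (.free 2 [5,7,9,15,16,18,19]))), .t 5 (nat_lit 0xc9a0c9510371035) (.z (.node 0 7 (.node 0 11 (.edon 15 21 (.free 2 [15,16,17,18,19,20,22]) (.leaf [0,12,13,14,21])) (.leaf [8,9,11,10])) (.free 2 [1,2,3,4,5,6,7]))), .t 10 (nat_lit 0x12c912a01299129804c404c20368036602f9) (.z (.edon 0 3 (.free 1 [0,1,2])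 (.node 4 19 (.edon 0 11 (.leaf [3,4,10,8,6]) (.edon 0 14 (.leaf [11,12,13]) (.leaf [14,17,20,22,21]))) (.free 2 [5,7,9,15,16,18,19])))), .t 1 (nat_lit 0) (.cn 2 3), .t 1 (nat_lit 0) (.cn 2 3), .t 6 (nat_lit 0x11037103512a412a1) (.z (.edon 21 19 (.node 0 11 (.edon 15 21 (.leaf [15,16,18,17]) (.leaf [0,12,13,14,21])) (.edon 4 5 (.free 2 [4,6,7,8,9,10,11]) (.leaf [1,3,5,2]))) (.free 1 [19,20,22]))), .t 6 (nat_lit 0x61037103512a412a1) (.z (.edon 21 19 (.node 0 11 (.edon 15 21 (.leaf [15,16,18,17]) (.leaf [0,12,13,14,21])) (.edon 4 11 (.free 2 [4,5,6,7,8,9,10]) (.leaf [1,3,11,2]))) (.free 1 [19,20,22]))), .t 9 (nat_lit 0xa4b0a4a0a4712420a820a7f0a5d0a5c) (.z (.node 2 4 (.edon 0 12 (.edon 8 11 (.leaf [6,7,9,10,8]) (.leaf [0,2,5,11])) (.node 13 19 (.leaf [13,20,22,21]) (.free 2 [12,14,15,16,17,18,19]))) (.free 1 [1,3,4]))), .t 8 (nat_lit 0xea7100910070f420f400e9f0e9d)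 (.z (.node 0 7 (.edon 0 11 (.leaf [0,8,9,10]) (.edon 0 16 (.leaf [11,15,14,13,12]) (.free 2 [16,17,18,19,20,21,22]))) (.free 2 [1,2,3,4,5,6,7]))), .t 1 (nat_lit 0) (.cn 2 3), .t 9 (nat_lit 0x12c90e9f0e9d0411040f033f033e02ef) (.z (.edon 0 3 (.free 1 [0,1,2]) (.node 4 19 (.edon 0 11 (.leaf [3,4,10,8,5]) (.edon 0 17 (.leaf [11,14,13,12]) (.leaf [17,20,22,21]))) (.free 2 [6,7,9,15,16,18,19])))), .t 1 (nat_lit 0) (.cn 2 3), .t 15 (nat_lit 0x3e703dd03da04c404bf0411040f12a41282127f1254125012491248) (.z (.node 0 3 (.node 0 11 (.edon 17 19 (.leaf [14,15,16,18,17]) (.free 2 [0,12,13,19,20,21,22])) (.edon 7 10 (.leaf [7,9,11]) (.leaf [4,6,10,8,5]))) (.free 1 [1,2,3]))), .t 10 (nat_lit 0x12c91242123a12390411040f033f033e02ef) (.z (.edon 0 3 (.free 1 [0,1,2]) (.node 4 19 (.edon 0 11 (.leaf [3,4,10,8,5]) (.edon 12 17 (.leaf [11,12,14]) (.leaf [13,17,20,22,21])))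 (.free 2 [6,7,9,15,16,18,19]))))] (by decide +kernel) (by decide +kernel)
theorem b162 : B 5184 5216 := Blk.of_chk [.t 5 (nat_lit 0x116910030f3c0f3b) (.z (.node 0 7 (.edon 0 11 (.leaf [0,8,9,10]) (.edon 13 20 (.free 2 [13,14,15,16,17,18,19]) (.leaf [11,12,20,22,21]))) (.free 2 [1,2,3,4,5,6,7]))), .t 9 (nat_lit 0x108d10881085115c10ae124912470001) (.z (.node 20 0 (.edon 0 12 (.node 3 8 (.leaf [1,3,5,2]) (.free 2 [4,6,7,8,9,10,11])) (.edon 14 19 (.leaf [14,16,18,15]) (.leaf [12,17,19,20,13]))) (.free 1 [0,21,22]))), .t 5 (nat_lit 0x12c912a012991298) (.z (.node 4 19 (.node 0 10 (.edon 0 14 (.leaf [0,11,12,13]) (.leaf [14,17,20,22,21])) (.free 2 [1,2,3,4,5,8,10])) (.free 2 [6,7,9,15,16,18,19]))), .t 7 (nat_lit 0x12c91242123a123901d401d3) (.z (.node 4 19 (.edon 0 11 (.node 2 4 (.leaf [0,2,5,8,10]) (.leaf [1,3,4])) (.edon 12 17 (.leaf [11,12,14]) (.leaf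 [13,17,20,22,21]))) (.free 2 [6,7,9,15,16,18,19]))), .t 6 (nat_lit 0x124201d701d60a5d0a5c) (.z (.node 2 4 (.edon 0 12 (.edon 6 8 (.leaf [6,7,9,10]) (.leaf [0,2,5,8,11])) (.edon 12 20 (.free 2 [12,14,15,16,17,18,19]) (.leaf [13,20,22,21]))) (.free 1 [1,3,4]))), .t 6 (nat_lit 0x124201fc01fb0a4a0a47) (.z (.node 2 4 (.edon 0 12 (.edon 6 10 (.leaf [6,7,9,8]) (.leaf [0,2,5,10,11])) (.edon 12 20 (.free 2 [12,14,15,16,17,18,19]) (.leaf [13,20,22,21]))) (.free 1 [1,3,4]))), .t 10 (nat_lit 0x108d108810850c9a0c95115c10ae12491247) (.z (.node 0 7 (.node 0 11 (.node 0 20 (.leaf [0,21,22]) (.edon 14 19 (.leaf [14,16,18,15]) (.leaf [12,17,19,20,13]))) (.leaf [8,9,11,10])) (.free 2 [1,2,3,4,5,6,7]))), .t 1 (nat_lit 0) (.cp 2 3), .t 12 (nat_lit 0x12aa12a912a0124211e811e703dd0326032502f902ef) (.z (.edon 0 3 (.free 1 [0,1,2]) (.node 6 16 (.edon 0 10 (.leaf [3,4,6,8,5])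 (.edon 0 13 (.leaf [10,11,12]) (.node 13 19 (.leaf [13,14,20,22,21]) (.leaf [15,18,19,17])))) (.leaf [7,9,16])))), .t 1 (nat_lit 0) (.cn 2 2), .t 10 (nat_lit 0xc9a0c9511e0111f10ae1031102f12a412a1) (.z (.node 0 7 (.node 0 11 (.node 0 20 (.leaf [0,21,22]) (.edon 17 19 (.leaf [15,16,18,17]) (.leaf [12,19,20,14,13]))) (.leaf [8,9,11,10])) (.free 2 [1,2,3,4,5,6,7]))), .t 12 (nat_lit 0x11e512aa12a912a0124211e803dd0326032502f902ef) (.z (.edon 0 3 (.free 1 [0,1,2]) (.node 6 16 (.edon 0 10 (.leaf [3,4,6,8,5]) (.edon 0 13 (.leaf [10,11,12]) (.node 13 19 (.leaf [13,20,22,21,14]) (.leaf [15,18,19,17])))) (.leaf [7,9,16])))), .t 7 (nat_lit 0x100910070a4a0a4701fc01fb) (.z (.edon 0 16 (.edon 0 12 (.node 2 4 (.node 5 8 (.leaf [0,2,5,10,11]) (.leaf [6,7,9,8])) (.leaf [1,3,4])) (.leaf [12,15,14,13])) (.free 2 [16,17,18,19,20,21,22]))), .t 5 (nat_lit 0x1242116910b610b5)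 (.z (.node 0 7 (.edon 0 11 (.leaf [0,8,9,10]) (.node 12 19 (.leaf [12,13,20,22,21]) (.free 2 [11,14,15,16,17,18,19]))) (.free 2 [1,2,3,4,5,6,7]))), .t 8 (nat_lit 0x1125b12561242116910b610b5) (.z (.edon 19 4 (.node 0 5 (.edon 0 12 (.leaf [0,10,11]) (.node 13 19 (.leaf [12,13,20,22,21]) (.leaf [14,15,19,17]))) (.leaf [1,3,5,2])) (.free 2 [4,6,7,8,9,16,18]))), .t 1 (nat_lit 0) (.cn 2 2), .t 6 (nat_lit 0x12420a610a5f01d401d3) (.z (.node 2 4 (.edon 0 12 (.node 8 9 (.leaf [0,2,5,8,10]) (.leaf [6,7,11,9])) (.edon 12 20 (.free 2 [12,14,15,16,17,18,19]) (.leaf [13,20,22,21]))) (.free 1 [1,3,4]))), .t 1 (nat_lit 0) (.cn 2 3), .t 1 (nat_lit 0) (.fa 3), .t 9 (nat_lit 0x12420a610a5f0411040f033f033e02ef) (.z (.edon 0 3 (.free 1 [0,1,2]) (.edon 0 12 (.node 4 9 (.leaf [3,4,10,8,5]) (.leaf [6,7,11,9])) (.edon 12 20 (.free 2 [12,14,15,16,17,18,19]) (.leaf [13,20,22,21]))))),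 .t 5 (nat_lit 0x12a0124211e811e7) (.z (.node 0 7 (.edon 0 11 (.leaf [0,8,9,10]) (.node 14 19 (.leaf [13,14,20,22,21]) (.free 2 [11,12,15,16,17,18,19]))) (.free 2 [1,2,3,4,5,6,7]))), .t 6 (nat_lit 0x1088108512a00fe50fe3) (.z (.node 0 7 (.edon 0 11 (.leaf [0,8,9,10]) (.edon 15 19 (.leaf [11,16,18,15]) (.node 14 19 (.leaf [14,20,22,21]) (.leaf [12,17,19,13])))) (.free 2 [1,2,3,4,5,6,7]))), .t 5 (nat_lit 0x12a0116911251124) (.z (.node 0 7 (.edon 0 11 (.leaf [0,8,9,10]) (.node 12 19 (.leaf [12,14,20,22,21]) (.free 2 [11,13,15,16,17,18,19]))) (.free 2 [1,2,3,4,5,6,7]))), .t 10 (nat_lit 0x102c102910240c9a0c95111f10ae12a412a1) (.z (.node 0 7 (.node 0 11 (.node 0 20 (.leaf [0,21,22]) (.edon 17 19 (.leaf [15,16,18,17]) (.leaf [12,13,19,20,14]))) (.leaf [8,9,11,10])) (.free 2 [1,2,3,4,5,6,7]))), .t 1 (nat_lit 0) (.cn 2 3), .t 1 (nat_lit 0) (.cn 2 3), .t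 5 (nat_lit 0x12c91242123a1239) (.z (.node 0 7 (.edon 0 11 (.leaf [0,8,9,10]) (.node 17 19 (.leaf [13,17,20,22,21]) (.free 2 [11,12,14,15,16,18,19]))) (.free 2 [1,2,3,4,5,6,7]))), .t 5 (nat_lit 0x12a0124211e811e7) (.z (.node 0 7 (.edon 0 11 (.leaf [0,8,9,10]) (.node 13 19 (.leaf [13,14,20,22,21]) (.free 2 [11,12,15,16,17,18,19]))) (.free 2 [1,2,3,4,5,6,7]))), .t 10 (nat_lit 0x11b911b411b1123411e0112b11290a610a5f) (.z (.node 20 0 (.edon 0 12 (.node 4 9 (.free 2 [1,2,3,4,5,8,10]) (.leaf [6,7,11,9])) (.edon 15 19 (.leaf [12,16,18,15]) (.leaf [13,17,19,20,14]))) (.free 1 [0,21,22]))), .t 6 (nat_lit 0x12a0104c104901d401d3) (.z (.node 4 19 (.edon 0 12 (.node 2 4 (.leaf [0,2,5,8,10]) (.leaf [1,3,4])) (.edon 13 20 (.leaf [12,15,17,13]) (.leaf [14,20,22,21]))) (.free 2 [6,7,9,11,16,18,19]))), .t 5 (nat_lit 0x11e512a0124211e8) (.z (.node 0 7 (.edon 0 11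 (.leaf [0,8,9,10]) (.node 13 19 (.leaf [13,20,22,21,14]) (.free 2 [11,12,15,16,17,18,19]))) (.free 2 [1,2,3,4,5,6,7]))), .t 9 (nat_lit 0x11b911b411b1123411e0112b11290001) (.z (.node 20 0 (.edon 0 12 (.edon 4 5 (.free 2 [4,6,7,8,9,10,11]) (.leaf [1,3,5,2])) (.edon 15 19 (.leaf [12,16,18,15]) (.leaf [13,17,19,20,14]))) (.free 1 [0,21,22])))] (by decide +kernel) (by decide +kernel)
theorem b163 : B 5216 5248 := Blk.of_chk [.t 10 (nat_lit 0x11b911b411b10c9a0c95123411e0112b1129) (.z (.node 0 7 (.node 0 11 (.node 0 20 (.leaf [0,21,22]) (.edon 15 19 (.leaf [12,16,18,15]) (.leaf [13,17,19,20,14]))) (.leaf [8,9,11,10])) (.free 2 [1,2,3,4,5,6,7]))), .t 9 (nat_lit 0x11b911b411b1123411e0112b11290006) (.z (.node 20 0 (.edon 0 12 (.edon 4 11 (.free 2 [4,5,6,7,8,9,10]) (.leaf [1,3,11,2])) (.edon 15 19 (.leaf [12,16,18,15]) (.leaf [13,17,19,20,14]))) (.free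 1 [0,21,22]))), .t 1 (nat_lit 0) (.cn 2 3), .t 9 (nat_lit 0x88d11690a490a4808c808c7088a0889) (.z (.node 2 4 (.edon 0 12 (.node 2 9 (.leaf [0,2,10,11]) (.leaf [5,6,7,8,9])) (.edon 14 20 (.free 2 [13,14,15,16,17,18,19]) (.leaf [12,20,22,21]))) (.free 1 [1,3,4]))), .t 9 (nat_lit 0x12a00c9a0bde0bd90bb10bac0b9f0b9d) (.z (.edon 0 7 (.free 2 [0,1,2,3,4,5,6]) (.edon 0 12 (.leaf [7,8,9,11,10]) (.node 14 19 (.leaf [14,20,22,21]) (.free 2 [12,13,15,16,17,18,19]))))), .t 9 (nat_lit 0x11690c9a0bde0bd90bb10bac0b9f0b9d) (.z (.edon 0 7 (.free 2 [0,1,2,3,4,5,6]) (.edon 0 12 (.leaf [7,8,9,11,10]) (.node 12 19 (.leaf [12,20,22,21]) (.free 2 [13,14,15,16,17,18,19]))))), .t 9 (nat_lit 0x88d12a00a490a4808c808c7088a0889) (.z (.node 2 4 (.edon 0 12 (.node 2 9 (.leaf [0,2,10,11]) (.leaf [5,6,7,8,9])) (.node 14 19 (.leaf [14,20,22,21]) (.free 2 [12,13,15,16,17,18,19])))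 (.free 1 [1,3,4]))), .t 7 (nat_lit 0x100910070a4a0a4701fc01fb) (.z (.edon 0 16 (.edon 0 12 (.node 2 4 (.node 5 9 (.leaf [0,2,5,10,11]) (.leaf [6,7,9,8])) (.leaf [1,3,4])) (.leaf [12,15,14,13])) (.free 2 [16,17,18,19,20,21,22]))), .t 5 (nat_lit 0x124210030fa40fa3) (.z (.node 0 7 (.edon 0 11 (.leaf [0,8,9,10]) (.node 13 14 (.leaf [11,13,20,22,21]) (.free 2 [12,14,15,16,17,18,19]))) (.free 2 [1,2,3,4,5,6,7]))), .t 12 (nat_lit 0x3da0410040d03ea03e704c304c112c912a012991298) (.z (.node 0 3 (.node 6 16 (.node 0 10 (.edon 0 14 (.leaf [0,11,12,13]) (.edon 15 20 (.leaf [15,18,19]) (.leaf [14,17,20,22,21]))) (.leaf [4,6,8,10,5])) (.leaf [7,9,16])) (.free 1 [1,2,3]))), .t 8 (nat_lit 0xce60ce50ce40d7e0d7c0ceb0cea) (.z (.node 0 7 (.edon 15 19 (.leaf [8,9,16,18,15]) (.edon 0 13 (.leaf [0,10,11,12]) (.free 2 [13,14,17,19,20,21,22]))) (.free 2 [1,2,3,4,5,6,7]))),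 .t 8 (nat_lit 0xc950cbb0cb60ca10c9d0cf60cf4) (.z (.node 0 7 (.node 0 12 (.edon 15 21 (.free 2 [15,16,17,18,19,20,22]) (.leaf [0,13,14,21])) (.leaf [8,9,12,11,10])) (.free 2 [1,2,3,4,5,6,7]))), .t 9 (nat_lit 0x3dd03da12c912a0129912980df80df6) (.z (.node 0 3 (.node 6 16 (.node 0 8 (.edon 0 14 (.leaf [0,10,11,12,13]) (.edon 15 20 (.leaf [15,18,19]) (.leaf [14,17,20,22,21]))) (.leaf [4,6,8,5])) (.leaf [7,9,16])) (.free 1 [1,2,3]))), .t 9 (nat_lit 0x1011116f116d10bc10ba100910070006) (.z (.node 16 0 (.edon 0 12 (.edon 4 11 (.free 2 [4,5,6,7,8,9,10]) (.leaf [1,3,11,2])) (.leaf [12,16,15,14,13])) (.free 2 [0,17,18,19,20,21,22]))), .t 6 (nat_lit 0x112c91242123a1239) (.z (.edon 19 4 (.node 0 5 (.edon 0 12 (.leaf [0,8,10,11]) (.node 17 19 (.leaf [13,17,20,22,21]) (.leaf [12,14,19]))) (.leaf [1,3,5,2])) (.free 2 [4,6,7,9,15,16,18]))), .t 7 (nat_lit 0x12c91242123a123901fc01fb)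 (.z (.node 4 19 (.edon 0 12 (.node 2 4 (.leaf [0,2,5,10,11]) (.leaf [1,3,4])) (.node 13 15 (.leaf [13,17,20,22,21]) (.leaf [12,14,15]))) (.free 2 [6,7,8,9,16,18,19]))), .t 10 (nat_lit 0xa4d100910070b970b950a820a800a490a48) (.z (.node 0 3 (.edon 0 12 (.edon 6 11 (.leaf [6,7,8,9,10]) (.leaf [0,4,5,11])) (.edon 0 16 (.leaf [12,15,14,13]) (.free 2 [16,17,18,19,20,21,22]))) (.free 1 [1,2,3]))), .t 9 (nat_lit 0x12420c9a0bde0bd90bb10bac0b9f0b9d) (.z (.edon 0 7 (.free 2 [0,1,2,3,4,5,6]) (.edon 0 12 (.leaf [7,8,9,11,10]) (.node 13 19 (.leaf [13,20,22,21]) (.free 2 [12,14,15,16,17,18,19]))))), .t 10 (nat_lit 0xc9a0c951249112b112910e910e710cb10c9) (.z (.node 0 7 (.node 0 11 (.edon 14 19 (.leaf [12,16,18,15,14]) (.free 2 [0,13,17,19,20,21,22])) (.leaf [8,9,11,10])) (.free 2 [1,2,3,4,5,6,7]))), .t 9 (nat_lit 0x12420a4a0a470450044e0356035402f2) (.z (.edon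 0 3 (.free 1 [0,1,2]) (.edon 0 12 (.node 4 8 (.leaf [3,4,11,10,5]) (.leaf [6,7,9,8])) (.node 13 19 (.leaf [13,20,22,21]) (.free 2 [12,14,15,16,17,18,19]))))), .t 7 (nat_lit 0x1770035000500010cbb0cb6) (.z (.edon 0 16 (.node 0 12 (.leaf [0,13,14,15]) (.edon 4 9 (.leaf [4,6,7]) (.edon 8 10 (.leaf [8,9,12,11]) (.leaf [1,3,5,10,2])))) (.free 2 [16,17,18,19,20,21,22]))), .t 8 (nat_lit 0xea20e9f0e9a0f410f3e0ed40ed2) (.z (.node 0 7 (.edon 0 11 (.leaf [0,8,9,10]) (.edon 0 16 (.leaf [11,12,14,15,13]) (.free 2 [16,17,18,19,20,21,22]))) (.free 2 [1,2,3,4,5,6,7]))), .t 5 (nat_lit 0x124210030fa40fa3) (.z (.node 0 7 (.edon 0 11 (.leaf [0,8,9,10]) (.node 13 19 (.leaf [11,13,20,22,21]) (.free 2 [12,14,15,16,17,18,19]))) (.free 2 [1,2,3,4,5,6,7]))), .t 7 (nat_lit 0x12c91242123a123901d401d3) (.z (.node 4 19 (.edon 0 11 (.node 2 4 (.leaf [0,2,5,8,10]) (.leaf [1,3,4]))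 (.edon 11 17 (.leaf [11,12,14]) (.leaf [13,17,20,22,21]))) (.free 2 [6,7,9,15,16,18,19]))), .t 12 (nat_lit 0x34212c91242123a12390932093003b303b2033f033e) (.z (.edon 0 3 (.free 1 [0,1,2]) (.edon 4 19 (.free 2 [4,6,7,9,15,16,18]) (.edon 0 12 (.leaf [3,11,10,8,5]) (.node 17 19 (.leaf [13,17,20,22,21]) (.leaf [12,14,19])))))), .t 10 (nat_lit 0xa4d100910070b970b950a820a800a490a48) (.z (.edon 0 16 (.edon 0 12 (.node 4 10 (.free 2 [0,1,2,3,4,5,11]) (.leaf [6,7,8,9,10])) (.leaf [12,15,14,13])) (.free 2 [16,17,18,19,20,21,22]))), .t 9 (nat_lit 0x88d11690a490a4808c808c7088a0889) (.z (.node 2 4 (.edon 0 12 (.node 2 9 (.leaf [0,2,10,11]) (.leaf [5,6,7,8,9])) (.node 12 19 (.leaf [12,20,22,21]) (.free 2 [13,14,15,16,17,18,19]))) (.free 1 [1,3,4]))), .t 8 (nat_lit 0x1249112b112910e910e710cb10c9) (.z (.node 0 7 (.edon 0 11 (.leaf [0,8,9,10]) (.edon 14 19 (.leaf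 [12,16,18,15,14]) (.free 2 [11,13,17,19,20,21,22]))) (.free 2 [1,2,3,4,5,6,7]))), .t 6 (nat_lit 0x112c91242123a1239) (.z (.edon 19 4 (.node 0 5 (.edon 0 13 (.leaf [0,8,10,11]) (.node 17 19 (.leaf [13,17,20,22,21]) (.leaf [14,15,19]))) (.leaf [1,3,5,2])) (.free 2 [4,6,7,9,12,16,18]))), .t 7 (nat_lit 0xc9a0c9511c311c1112b1129) (.z (.node 0 7 (.node 0 11 (.edon 15 19 (.leaf [12,16,18,15]) (.edon 19 21 (.leaf [19,20,22]) (.leaf [0,13,14,17,21]))) (.leaf [8,9,11,10])) (.free 2 [1,2,3,4,5,6,7]))), .t 8 (nat_lit 0xe9a0ed50ed00ea70ea20f420f40) (.z (.node 0 7 (.edon 0 11 (.leaf [0,8,9,10]) (.edon 0 16 (.leaf [11,12,15,14,13]) (.free 2 [16,17,18,19,20,21,22]))) (.free 2 [1,2,3,4,5,6,7]))), .t 9 (nat_lit 0x1193000112651264120b120911761174) (.z (.edon 19 4 (.node 0 5 (.edon 0 13 (.leaf [0,8,10,11]) (.edon 19 21 (.leaf [19,20,22]) (.leaf [13,14,15,17,21])))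 (.leaf [1,3,5,2])) (.free 2 [4,6,7,9,12,16,18])))] (by decide +kernel) (by decide +kernel)
theorem b164 : B 5248 5280 := Blk.of_chk [.t 1 (nat_lit 0) (.cp 2 3), .t 1 (nat_lit 0) (.cp 2 3), .t 7 (nat_lit 0x12c91242123a123901e401e3) (.z (.node 4 19 (.edon 0 11 (.node 2 4 (.leaf [0,2,5,9,10]) (.leaf [1,3,4])) (.node 13 15 (.leaf [13,17,20,22,21]) (.leaf [11,14,15]))) (.free 2 [6,7,8,12,16,18,19]))), .t 1 (nat_lit 0) (.cn 2 3), .t 7 (nat_lit 0x12c912a01299129801e401e3) (.z (.node 4 19 (.edon 0 11 (.node 2 4 (.leaf [0,2,5,9,10]) (.leaf [1,3,4])) (.edon 0 14 (.leaf [11,12,13]) (.leaf [14,17,20,22,21]))) (.free 2 [6,7,8,15,16,18,19]))), .t 7 (nat_lit 0x12c91242123a123901e401e3) (.z (.node 4 19 (.edon 0 11 (.node 2 4 (.leaf [0,2,5,9,10]) (.leaf [1,3,4])) (.node 13 14 (.leaf [13,17,20,22,21]) (.leaf [11,12,14]))) (.free 2 [6,7,8,15,16,18,19]))), .t 12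 (nat_lit 0x125612541250000104bc04b712891286126c126a1242) (.z (.node 11 16 (.node 0 9 (.edon 0 13 (.leaf [0,10,11,12]) (.node 13 19 (.leaf [13,20,22,21]) (.leaf [14,15,18,19,17]))) (.edon 4 5 (.leaf [4,6,9,8]) (.leaf [1,3,5,2]))) (.free 1 [7,16]))), .t 10 (nat_lit 0xc9a0c9512a41282127f1254125012491248) (.z (.node 0 7 (.node 0 11 (.edon 17 19 (.leaf [14,15,16,18,17]) (.free 2 [0,12,13,19,20,21,22])) (.leaf [8,9,11,10])) (.free 2 [1,2,3,4,5,6,7]))), .t 8 (nat_lit 0x12a4115511541131112f112b112a) (.z (.node 0 7 (.edon 0 11 (.leaf [0,8,9,10]) (.edon 17 19 (.leaf [12,15,16,18,17]) (.free 2 [11,13,14,19,20,21,22]))) (.free 2 [1,2,3,4,5,6,7]))), .t 12 (nat_lit 0x12c912a0129912981242123a123911e811e711bc11ba) (.z (.node 19 4 (.free 2 [6,7,12,15,16,18,19]) (.edon 0 13 (.free 3 [0,1,2,3,4,5,8,9,10,11]) (.leaf [13,14,17,20,22,21])))), .t 6 (nat_lit 0x10c9a0c9511c311c1)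 (.z (.edon 19 4 (.node 0 5 (.node 0 11 (.edon 19 21 (.leaf [19,20,22]) (.leaf [0,13,14,17,21])) (.leaf [8,9,11,10])) (.leaf [1,3,5,2])) (.free 2 [4,6,7,12,15,16,18]))), .t 9 (nat_lit 0x12420a610a5f0411040f033f033e02ef) (.z (.edon 0 3 (.free 1 [0,1,2]) (.edon 0 12 (.node 4 9 (.leaf [3,4,10,8,5]) (.leaf [6,7,11,9])) (.node 13 19 (.leaf [13,20,22,21]) (.free 2 [12,14,15,16,17,18,19]))))), .t 1 (nat_lit 0) (.cn 2 2), .t 1 (nat_lit 0) (.fa 2), .t 8 (nat_lit 0x88f0a5d0a5c08dc08db088d088c) (.z (.node 2 4 (.edon 5 11 (.leaf [5,6,7,9,10]) (.free 4 [0,2,8,11,12,13,14,15,16,17,18,19,20,21,22])) (.free 1 [1,3,4]))), .t 15 (nat_lit 0x3e003dd03da12561254125004bc04b70409040712891286126c126a) (.z (.node 0 3 (.node 6 16 (.node 0 9 (.edon 0 14 (.leaf [0,10,11,13]) (.edon 0 20 (.leaf [14,15,18,19,17]) (.leaf [20,21,22]))) (.leaf [4,6,9,8,5])) (.leaf [7,12,16]))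 (.free 1 [1,2,3]))), .t 1 (nat_lit 0) (.fa 3), .t 14 (nat_lit 0x12561254125012891286126c126a124203dd0326032502f902ef) (.z (.edon 0 3 (.free 1 [0,1,2]) (.node 6 16 (.edon 0 9 (.leaf [3,4,6,8,5]) (.edon 0 13 (.leaf [9,10,11]) (.node 13 19 (.leaf [13,20,22,21]) (.leaf [14,15,18,19,17])))) (.leaf [7,12,16])))), .t 8 (nat_lit 0x10b810e910e710ca10c7112b112a) (.z (.node 0 7 (.edon 0 11 (.leaf [0,8,9,10]) (.edon 14 19 (.leaf [12,15,16,18,14]) (.free 2 [11,13,17,19,20,21,22]))) (.free 2 [1,2,3,4,5,6,7]))), .t 1 (nat_lit 0) (.cn 2 3), .t 7 (nat_lit 0x12c91242123a12390d890d87) (.z (.node 4 19 (.edon 0 9 (.free 2 [0,1,2,3,4,5,8]) (.edon 0 13 (.leaf [9,12,11,10]) (.leaf [13,17,20,22,21]))) (.free 2 [6,7,14,15,16,18,19]))), .t 5 (nat_lit 0x12a0124211e811e7) (.z (.node 4 19 (.node 0 9 (.edon 0 13 (.leaf [0,10,11,12]) (.leaf [13,14,20,22,21])) (.free 2 [1,2,3,4,5,8,9]))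 (.free 2 [6,7,15,16,17,18,19]))), .t 7 (nat_lit 0x12a0124211e811e70d890d87) (.z (.node 4 19 (.edon 0 9 (.free 2 [0,1,2,3,4,5,8]) (.edon 0 13 (.leaf [9,12,11,10]) (.leaf [13,14,20,22,21]))) (.free 2 [6,7,15,16,17,18,19]))), .t 1 (nat_lit 0) (.cn 2 3), .t 1 (nat_lit 0) (.fa 2), .t 1 (nat_lit 0) (.cn 2 3), .t 5 (nat_lit 0x12a010030fdf0fde) (.z (.node 0 7 (.edon 0 11 (.leaf [0,8,9,10]) (.node 14 19 (.leaf [11,14,20,22,21]) (.free 2 [12,13,15,16,17,18,19]))) (.free 2 [1,2,3,4,5,6,7]))), .t 7 (nat_lit 0x11e512a0124211e80d890d87) (.z (.node 4 19 (.edon 0 9 (.free 2 [0,1,2,3,4,5,8]) (.edon 0 13 (.leaf [9,12,11,10]) (.leaf [13,20,22,21,14]))) (.free 2 [6,7,15,16,17,18,19]))), .t 9 (nat_lit 0x116e10bb10b8104410411011100f0001) (.z (.node 16 0 (.edon 0 12 (.edon 4 5 (.free 2 [4,6,7,8,9,10,11]) (.leaf [1,3,5,2])) (.leaf [12,15,16,14,13])) (.free 2 [0,17,18,19,20,21,22]))),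 .t 9 (nat_lit 0x116e10bb10b8104410411011100f0006) (.z (.node 16 0 (.edon 0 12 (.edon 4 11 (.free 2 [4,5,6,7,8,9,10]) (.leaf [1,3,11,2])) (.leaf [12,15,16,14,13])) (.free 2 [0,17,18,19,20,21,22]))), .t 1 (nat_lit 0) (.cn 2 3), .t 5 (nat_lit 0x12c912a012991298) (.z (.node 4 19 (.node 0 9 (.edon 0 14 (.leaf [0,10,12,13]) (.leaf [14,17,20,22,21])) (.free 2 [1,2,3,4,5,8,9])) (.free 2 [6,7,11,15,16,18,19])))] (by decide +kernel) (by decide +kernel)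
theorem b165 : B 5280 5312 := Blk.of_chk [.t 1 (nat_lit 0) (.cn 2 3), .t 7 (nat_lit 0x12c912a01299129801d101d0) (.z (.node 4 19 (.edon 0 10 (.node 2 4 (.leaf [0,2,5,8,9]) (.leaf [1,3,4])) (.edon 0 14 (.leaf [10,11,13]) (.leaf [14,17,20,22,21]))) (.free 2 [6,7,12,15,16,18,19]))), .t 10 (nat_lit 0x12c912a01299129804090407033b033902ef) (.z (.edon 0 3 (.free 1 [0,1,2]) (.node 4 19 (.edon 0 10 (.leaf [3,4,9,8,5]) (.edon 0 14 (.leaf [10,11,13]) (.leaf [14,17,20,22,21]))) (.free 2 [6,7,12,15,16,18,19])))), .t 1 (nat_lit 0) (.cn 2 3), .t 10 (nat_lit 0x11b911b411b1123411e00187004700060005) (.z (.node 20 0 (.edon 0 13 (.edon 4 10 (.free 2 [4,5,6,7,8,9,12]) (.leaf [1,3,10,11,2])) (.edon 15 19 (.leaf [15,16,18]) (.leaf [13,17,19,20,14]))) (.free 1 [0,21,22]))), .t 1 (nat_lit 0) (.cn 2 3), .t 7 (nat_lit 0x11e512a0124211e80210020f) (.z (.node 4 19 (.edon 0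 10 (.node 2 4 (.leaf [0,2,6,8,9]) (.leaf [1,3,4])) (.edon 0 13 (.leaf [10,11,12]) (.leaf [13,20,22,21,14]))) (.free 2 [5,7,15,16,17,18,19]))), .t 5 (nat_lit 0x187004700060005) (.z (.edon 0 16 (.node 0 12 (.leaf [0,13,14,15]) (.edon 4 10 (.free 2 [4,5,6,7,8,9,12]) (.leaf [1,3,10,11,2]))) (.free 2 [16,17,18,19,20,21,22]))), .t 7 (nat_lit 0x12a0124211e811e70210020f) (.z (.node 4 19 (.edon 0 10 (.node 2 4 (.leaf [0,2,6,8,9]) (.leaf [1,3,4])) (.edon 0 13 (.leaf [10,11,12]) (.leaf [13,14,20,22,21]))) (.free 2 [5,7,15,16,17,18,19]))), .t 1 (nat_lit 0) (.cn 2 3), .t 10 (nat_lit 0x8d308d20ada06570652050b050704ef04ed) (.z (.node 0 3 (.node 0 12 (.edon 0 16 (.leaf [0,13,14,15]) (.free 2 [16,17,18,19,20,21,22])) (.node 4 8 (.leaf [4,6,9,11,10]) (.leaf [5,7,12,8]))) (.free 1 [1,2,3]))), .t 10 (nat_lit 0x12a0124211e811e704bc04ba0361035f02f9) (.z (.edon 0 3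 (.free 1 [0,1,2]) (.node 4 19 (.edon 0 10 (.leaf [3,4,9,8,6]) (.edon 0 13 (.leaf [10,11,12]) (.leaf [13,14,20,22,21]))) (.free 2 [5,7,15,16,17,18,19])))), .t 10 (nat_lit 0x11e512a0124211e804bc04ba0361035f02f9) (.z (.edon 0 3 (.free 1 [0,1,2]) (.node 4 19 (.edon 0 10 (.leaf [3,4,9,8,6]) (.edon 0 13 (.leaf [10,11,12]) (.leaf [13,20,22,21,14]))) (.free 2 [5,7,15,16,17,18,19])))), .t 7 (nat_lit 0x12a412a108c908c602310230) (.z (.node 2 4 (.edon 0 12 (.node 6 8 (.leaf [0,2,6,10,11]) (.leaf [5,7,9,8])) (.edon 17 19 (.leaf [15,16,18,17]) (.free 2 [12,13,14,19,20,21,22]))) (.free 1 [1,3,4]))), .t 6 (nat_lit 0x21037103512a412a1) (.z (.edon 21 19 (.node 0 11 (.edon 15 21 (.leaf [15,16,18,17]) (.leaf [0,12,13,14,21])) (.edon 4 6 (.free 2 [4,5,7,8,9,10,11]) (.leaf [1,3,6,2]))) (.free 1 [19,20,22]))), .t 9 (nat_lit 0x116e10bb10b8104410411011100f0002) (.z (.node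 16 0 (.edon 0 12 (.edon 4 6 (.free 2 [4,5,7,8,9,10,11]) (.leaf [1,3,6,2])) (.leaf [12,15,16,14,13])) (.free 2 [0,17,18,19,20,21,22]))), .t 10 (nat_lit 0x12c91242123a123904bc04ba0361035f02f9) (.z (.edon 0 3 (.free 1 [0,1,2]) (.node 4 19 (.edon 0 10 (.leaf [3,4,9,8,6]) (.edon 0 13 (.leaf [10,11,12]) (.leaf [13,17,20,22,21]))) (.free 2 [5,7,14,15,16,18,19])))), .t 1 (nat_lit 0) (.cn 2 2), .t 10 (nat_lit 0x12c91242123a123904bc04ba0361035f02f9) (.z (.edon 0 3 (.free 1 [0,1,2]) (.node 4 19 (.edon 0 10 (.leaf [3,4,9,8,6]) (.node 13 14 (.leaf [13,17,20,22,21]) (.leaf [10,11,14]))) (.free 2 [5,7,12,15,16,18,19])))), .t 10 (nat_lit 0x12c90e990e970e9604bc04ba0361035f02f9) (.z (.edon 0 3 (.free 1 [0,1,2]) (.node 4 19 (.edon 0 10 (.leaf [3,4,9,8,6]) (.node 10 14 (.leaf [10,17,20,22,21]) (.leaf [11,13,14]))) (.free 2 [5,7,12,15,16,18,19])))), .t 10 (nat_lit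 0x12c912a01299129804bc04ba0361035f02f9) (.z (.edon 0 3 (.free 1 [0,1,2]) (.node 4 19 (.edon 0 10 (.leaf [3,4,9,8,6]) (.edon 0 14 (.leaf [10,11,13]) (.leaf [14,17,20,22,21]))) (.free 2 [5,7,12,15,16,18,19])))), .t 7 (nat_lit 0x12c912a0129912980210020f) (.z (.node 4 19 (.edon 0 10 (.node 2 4 (.leaf [0,2,6,8,9]) (.leaf [1,3,4])) (.edon 0 14 (.leaf [10,11,13]) (.leaf [14,17,20,22,21]))) (.free 2 [5,7,12,15,16,18,19]))), .t 10 (nat_lit 0x21808e108e00aa20aa00264026202150214) (.z (.edon 0 16 (.node 0 12 (.leaf [0,13,14,15]) (.node 4 9 (.node 2 4 (.leaf [2,6,8,10,11]) (.leaf [1,3,4])) (.leaf [5,7,12,9]))) (.free 2 [16,17,18,19,20,21,22]))), .t 6 (nat_lit 0x8e108e0000205dd05db) (.z (.edon 0 16 (.node 0 12 (.leaf [0,13,14,15]) (.node 4 9 (.edon 4 6 (.leaf [4,11,10,8]) (.leaf [1,3,6,2])) (.leaf [5,7,12,9]))) (.free 2 [16,17,18,19,20,21,22]))), .t 10 (nat_lit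 0x21508f208ef0a820a80024e024c0210020f) (.z (.edon 0 16 (.node 0 12 (.leaf [0,13,14,15]) (.node 4 11 (.node 2 4 (.leaf [2,6,8,9,10]) (.leaf [1,3,4])) (.leaf [5,7,12,11]))) (.free 2 [16,17,18,19,20,21,22]))), .t 6 (nat_lit 0x20c9a0c9511c311c1) (.z (.edon 19 4 (.node 0 6 (.node 0 11 (.edon 19 21 (.leaf [19,20,22]) (.leaf [0,13,14,17,21])) (.leaf [8,9,11,10])) (.leaf [1,3,6,2])) (.free 2 [4,5,7,12,15,16,18]))), .t 7 (nat_lit 0x12c91242123a123902220221) (.z (.node 4 19 (.edon 0 11 (.node 2 4 (.leaf [0,2,6,9,10]) (.leaf [1,3,4])) (.node 13 14 (.leaf [13,17,20,22,21]) (.leaf [11,12,14]))) (.free 2 [5,7,8,15,16,18,19]))), .t 7 (nat_lit 0x12c912a01299129802220221) (.z (.node 4 19 (.edon 0 11 (.node 2 4 (.leaf [0,2,6,9,10]) (.leaf [1,3,4])) (.edon 0 14 (.leaf [11,12,13]) (.leaf [14,17,20,22,21]))) (.free 2 [5,7,8,15,16,18,19]))), .t 7 (nat_lit 0x12c912a01299129802150214)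 (.z (.node 4 19 (.edon 0 11 (.node 2 4 (.leaf [0,2,6,8,10]) (.leaf [1,3,4])) (.edon 0 14 (.leaf [11,12,13]) (.leaf [14,17,20,22,21]))) (.free 2 [5,7,9,15,16,18,19]))), .t 6 (nat_lit 0x124208c908c602310230) (.z (.node 2 4 (.edon 0 12 (.node 6 9 (.leaf [0,2,6,10,11]) (.leaf [5,7,9,8])) (.edon 12 20 (.free 2 [12,14,15,16,17,18,19]) (.leaf [13,20,22,21]))) (.free 1 [1,3,4]))), .t 6 (nat_lit 0x124208c908c602310230) (.z (.node 2 4 (.edon 0 12 (.node 6 8 (.leaf [0,2,6,10,11]) (.leaf [5,7,9,8])) (.edon 12 20 (.free 2 [12,14,15,16,17,18,19]) (.leaf [13,20,22,21]))) (.free 1 [1,3,4]))), .t 10 (nat_lit 0x12c91242123a123904c404c20368036602f9) (.z (.edon 0 3 (.free 1 [0,1,2]) (.node 4 19 (.edon 0 11 (.leaf [3,4,10,8,6]) (.node 13 14 (.leaf [13,17,20,22,21]) (.leaf [11,12,14]))) (.free 2 [5,7,9,15,16,18,19]))))] (by decide +kernel) (by decide +kernel)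
theorem b166 : B 5312 5344 := Blk.of_chk [.t 6 (nat_lit 0x212c91242123a1239) (.z (.edon 19 4 (.node 0 6 (.edon 0 12 (.leaf [0,8,10,11]) (.node 17 19 (.leaf [13,17,20,22,21]) (.leaf [12,14,19]))) (.leaf [1,3,6,2])) (.free 2 [4,5,7,9,15,16,18]))), .t 7 (nat_lit 0x12c91242123a123902150214) (.z (.node 4 19 (.edon 0 11 (.node 2 4 (.leaf [0,2,6,8,10]) (.leaf [1,3,4])) (.node 13 14 (.leaf [13,17,20,22,21]) (.leaf [11,12,14]))) (.free 2 [5,7,9,15,16,18,19]))), .t 1 (nat_lit 0) (.cn 2 3), .t 1 (nat_lit 0) (.cn 2 3), .t 8 (nat_lit 0x1be01ba01b80208020601c801c7) (.z (.node 2 4 (.node 8 9 (.free 4 [0,8,10,11,12,13,14,15,16,17,18,19,20,21,22]) (.leaf [2,5,7,9,6])) (.free 1 [1,3,4]))), .t 5 (nat_lit 0x189004800070005) (.z (.edon 0 16 (.node 0 12 (.leaf [0,13,14,15]) (.edon 4 10 (.free 2 [4,5,6,7,8,9,11]) (.leaf [1,3,10,12,2]))) (.free 2 [16,17,18,19,20,21,22]))),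 .t 10 (nat_lit 0x10110c9a0c95116f116d10bc10ba10091007) (.z (.node 0 7 (.node 0 11 (.node 0 16 (.free 2 [0,17,18,19,20,21,22]) (.leaf [12,16,15,14,13])) (.leaf [8,9,11,10])) (.free 2 [1,2,3,4,5,6,7]))), .t 12 (nat_lit 0x23608c908c60b140b1202b802b7023502340fa90fa7) (.z (.node 2 4 (.node 0 16 (.free 2 [0,17,18,19,20,21,22]) (.edon 11 12 (.leaf [11,16,15,14]) (.node 6 8 (.leaf [2,6,10,12,13]) (.leaf [5,7,9,8])))) (.free 1 [1,3,4]))), .t 9 (nat_lit 0x124208df08de04c404c20368036602f9) (.z (.edon 0 3 (.free 1 [0,1,2]) (.edon 0 12 (.node 4 9 (.leaf [3,4,10,8,6]) (.leaf [5,7,11,9])) (.edon 12 20 (.free 2 [12,14,15,16,17,18,19]) (.leaf [13,20,22,21]))))), .t 9 (nat_lit 0x124203de0327032402f902ef0bde0bdc) (.z (.edon 0 3 (.free 1 [0,1,2]) (.edon 0 12 (.edon 7 8 (.leaf [7,11,10,9]) (.leaf [3,4,5,8,6])) (.edon 12 20 (.free 2 [12,14,15,16,17,18,19]) (.leaf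 [13,20,22,21]))))), .t 10 (nat_lit 0x21a08df08de0aa90aa70268026702150214) (.z (.edon 0 16 (.node 0 12 (.leaf [0,13,14,15]) (.node 2 4 (.node 8 11 (.leaf [2,6,8,10,12]) (.leaf [5,7,11,9])) (.leaf [1,3,4]))) (.free 2 [16,17,18,19,20,21,22]))), .t 8 (nat_lit 0x88b088a088808c908c608990897) (.z (.node 2 4 (.node 2 9 (.free 4 [0,2,10,11,12,13,14,15,16,17,18,19,20,21,22]) (.leaf [5,7,9,8,6])) (.free 1 [1,3,4]))), .t 10 (nat_lit 0x26a0d080d0702b802b7026802670fa90fa7) (.z (.node 16 0 (.node 2 9 (.edon 11 13 (.leaf [11,16,15,14]) (.leaf [2,8,10,12,13])) (.free 2 [1,3,4,5,6,7,9])) (.free 2 [0,17,18,19,20,21,22]))), .t 10 (nat_lit 0x12c912a01299129804bc04ba0361035f02f9) (.z (.edon 0 3 (.free 1 [0,1,2]) (.node 4 19 (.edon 0 10 (.leaf [3,4,9,8,6]) (.edon 0 14 (.leaf [10,12,13]) (.leaf [14,17,20,22,21]))) (.free 2 [5,7,11,15,16,18,19])))), .t 1 (nat_lit 0)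 (.cn 2 3), .t 9 (nat_lit 0x102c10291024111f10ae12a412a10002) (.z (.node 20 0 (.edon 0 12 (.edon 4 6 (.free 2 [4,5,7,8,9,10,11]) (.leaf [1,3,6,2])) (.edon 17 19 (.leaf [15,16,18,17]) (.leaf [12,13,19,20,14]))) (.free 1 [0,21,22]))), .t 4 (nat_lit 0x20d080d07) (.z (.edon 19 4 (.node 0 6 (.edon 0 14 (.leaf [0,8,10,12,13]) (.free 2 [14,15,17,19,20,21,22])) (.leaf [1,3,6,2])) (.free 2 [4,5,7,9,11,16,18]))), .t 1 (nat_lit 0) (.cn 2 3), .t 9 (nat_lit 0x11b911b411b1123411e0112b11290002) (.z (.node 20 0 (.edon 0 12 (.edon 4 6 (.free 2 [4,5,7,8,9,10,11]) (.leaf [1,3,6,2])) (.edon 15 19 (.leaf [12,16,18,15]) (.leaf [13,17,19,20,14]))) (.free 1 [0,21,22]))), .t 9 (nat_lit 0x88b088a088812a008c908c608990897) (.z (.node 2 4 (.edon 0 12 (.node 2 8 (.leaf [0,2,10,11]) (.leaf [5,7,9,8,6])) (.node 14 19 (.leaf [14,20,22,21]) (.free 2 [12,13,15,16,17,18,19]))) (.free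 1 [1,3,4]))), .t 6 (nat_lit 0x12a008c908c602310230) (.z (.node 2 4 (.edon 0 12 (.node 6 9 (.leaf [0,2,6,10,11]) (.leaf [5,7,9,8])) (.node 14 19 (.leaf [14,20,22,21]) (.free 2 [12,13,15,16,17,18,19]))) (.free 1 [1,3,4]))), .t 1 (nat_lit 0) (.cn 2 2), .t 1 (nat_lit 0) (.cn 2 2), .t 9 (nat_lit 0x12aa12a912a0124211e811e70d890d87) (.z (.edon 0 7 (.free 2 [0,1,2,3,4,5,6]) (.node 9 16 (.edon 0 13 (.leaf [9,12,11,10]) (.node 14 19 (.leaf [13,14,20,22,21]) (.leaf [15,18,19,17]))) (.leaf [7,8,16])))), .t 7 (nat_lit 0x12c91242123a123902220221) (.z (.node 4 19 (.edon 0 11 (.node 2 4 (.leaf [0,2,6,9,10]) (.leaf [1,3,4])) (.node 13 15 (.leaf [13,17,20,22,21]) (.leaf [11,14,15]))) (.free 2 [5,7,8,12,16,18,19]))), .t 1 (nat_lit 0) (.cn 2 3), .t 9 (nat_lit 0x1193000212651264120b120911761174) (.z (.edon 19 4 (.node 0 6 (.edon 0 13 (.leaf [0,8,10,11]) (.edon 19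 21 (.leaf [19,20,22]) (.leaf [13,14,15,17,21]))) (.leaf [1,3,6,2])) (.free 2 [4,5,7,9,12,16,18]))), .t 4 (nat_lit 0x20df80df6) (.z (.edon 19 4 (.node 0 6 (.edon 0 14 (.leaf [0,10,11,12,13]) (.free 2 [14,15,17,19,20,21,22])) (.leaf [1,3,6,2])) (.free 2 [4,5,7,8,9,16,18]))), .t 10 (nat_lit 0xc950cbb0cb60ca10c9d0cf60cf412a412a1) (.z (.node 0 7 (.node 0 12 (.edon 17 19 (.leaf [15,16,18,17]) (.free 2 [0,13,14,19,20,21,22])) (.leaf [8,9,12,11,10])) (.free 2 [1,2,3,4,5,6,7]))), .t 17 (nat_lit 0xca80ce60ce50ce40cb10cad0caa0e910d7e0d7c0d230d220d1f0d1e0ceb0cea) (.z (.node 7 0 (.free 2 [1,2,3,4,5,6,7]) (.edon 15 19 (.leaf [8,9,16,18,15,10]) (.free 3 [0,11,12,13,14,17,19,20,21,22])))), .t 9 (nat_lit 0x3de03d912c912a0129912980df80df6) (.z (.node 0 3 (.node 5 16 (.node 0 8 (.edon 0 14 (.leaf [0,10,11,12,13]) (.edon 15 20 (.leaf [15,18,19]) (.leaf [14,17,20,22,21])))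 (.leaf [4,5,8,6])) (.leaf [7,9,16])) (.free 1 [1,2,3]))), .t 8 (nat_lit 0xc9d0c9a0c950cf50cf20cba0cb8) (.z (.node 0 7 (.node 0 12 (.edon 15 21 (.free 2 [15,16,17,18,19,20,22]) (.leaf [0,13,14,21])) (.leaf [8,9,11,12,10])) (.free 2 [1,2,3,4,5,6,7])))] (by decide +kernel) (by decide +kernel)

end Pool.Agent.GCP.F7
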