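import Pool.Agent.GCP.F7Db

set_option autoImplicit false
set_option maxRecDepth 100000

/-! # Blocks F7B4 (generated) -/

namespace Pool.Agent.GCP.F7

open Pool.Agent.GCP DB

theorem b167 : B 5344 5376 := Blk.of_chk [.t 1 (nat_lit 0) (.cn 2 3), .t 11 (nat_lit 0x12561254125003de03d912891286126c126a1242) (.z (.node 0 3 (.node 5 16 (.node 0 8 (.edon 0 13 (.leaf [0,10,11,12]) (.node 13 19 (.leaf [13,20,22,21]) (.leaf [14,15,18,19,17]))) (.leaf [4,5,8,6])) (.leaf [7,9,16])) (.free 1 [1,2,3]))), .t 7 (nat_lit 0x12c91242123a123902310230) (.z (.node 4 19 (.edon 0 12 (.node 2 4 (.leaf [0,2,6,10,11]) (.leaf [1,3,4])) (.node 13 15 (.leaf [13,17,20,22,21]) (.leaf [12,14,15]))) (.free 2 [5,7,8,9,16,18,19]))), .t 6 (nat_lit 0x12c91009100702310230) (.z (.node 4 19 (.edon 0 12 (.node 2 4 (.leaf [0,2,6,10,11]) (.leaf [1,3,4])) (.edon 0 17 (.leaf [12,15,14,13]) (.leaf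 [17,20,22,21]))) (.free 2 [5,7,8,9,16,18,19]))), .t 8 (nat_lit 0x2125b12561242116910b610b5) (.z (.edon 19 4 (.node 0 6 (.edon 0 12 (.leaf [0,10,11]) (.node 13 19 (.leaf [12,13,20,22,21]) (.leaf [14,15,19,17]))) (.leaf [1,3,6,2])) (.free 2 [4,5,7,8,9,16,18]))), .t 1 (nat_lit 0) (.fa 4), .t 7 (nat_lit 0x12cb12421240123f02220221) (.z (.node 4 19 (.edon 0 11 (.node 2 4 (.leaf [0,2,6,9,10]) (.leaf [1,3,4])) (.node 13 15 (.leaf [13,18,20,22,21]) (.leaf [11,14,15]))) (.free 2 [5,7,8,12,16,17,19]))), .t 5 (nat_lit 0x12cb12c112bf12be) (.z (.edon 0 15 (.free 4 [0,1,2,3,4,5,6,7,8,9,10,11,12,13,14]) (.node 18 19 (.leaf [15,18,20,22,21]) (.leaf [16,17,19])))), .t 1 (nat_lit 0) (.fa 3), .t 1 (nat_lit 0) (.cn 2 2), .t 5 (nat_lit 0x124210030fa40fa3) (.z (.node 0 7 (.edon 0 11 (.leaf [0,8,9,10]) (.node 13 18 (.leaf [11,13,20,22,21]) (.free 2 [12,14,15,16,17,18,19])))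 (.free 2 [1,2,3,4,5,6,7]))), .t 9 (nat_lit 0x88808980895088d088b12cb08c808c7) (.z (.node 2 4 (.edon 0 12 (.node 2 9 (.leaf [0,2,10,11]) (.leaf [5,7,8,9,6])) (.node 18 19 (.leaf [18,20,22,21]) (.free 2 [12,13,14,15,16,17,19]))) (.free 1 [1,3,4]))), .t 10 (nat_lit 0x11d211cf11ca0c9a0c95123b11e011281126) (.z (.node 0 7 (.node 0 11 (.node 0 20 (.leaf [0,21,22]) (.edon 15 19 (.leaf [12,16,17,15]) (.leaf [13,14,19,20,18]))) (.leaf [8,9,11,10])) (.free 2 [1,2,3,4,5,6,7]))), .t 1 (nat_lit 0) (.cn 2 3), .t 7 (nat_lit 0xea70ea212cb12a0129e129d) (.z (.node 0 7 (.edon 0 11 (.leaf [0,8,9,10]) (.node 12 19 (.node 14 15 (.leaf [14,18,20,22,21]) (.leaf [11,12,15,13])) (.leaf [16,17,19]))) (.free 2 [1,2,3,4,5,6,7]))), .t 12 (nat_lit 0x376037402220221017b00bf00be0039000500040002) (.z (.edon 4 19 (.free 2 [4,5,7,8,12,16,17]) (.node 10 0 (.leaf [1,3,6,9,10,2]) (.free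 3 [0,11,13,14,15,18,19,20,21,22])))), .t 7 (nat_lit 0x8d308d20f420f3d02220221) (.z (.edon 0 16 (.node 4 8 (.edon 0 11 (.node 2 4 (.leaf [0,2,6,9,10]) (.leaf [1,3,4])) (.leaf [11,13,15,14])) (.leaf [5,7,12,8])) (.free 2 [16,17,18,19,20,21,22]))), .t 5 (nat_lit 0x12cb12c112bf12be) (.z (.edon 0 15 (.free 4 [0,1,2,3,4,5,6,7,8,9,10,11,12,13,14]) (.node 15 19 (.leaf [15,18,20,22,21]) (.leaf [16,17,19])))), .t 7 (nat_lit 0x100910070a610a5f01d401d3) (.z (.edon 0 16 (.edon 0 12 (.node 4 9 (.node 2 4 (.leaf [0,2,5,8,10]) (.leaf [1,3,4])) (.leaf [6,7,11,9])) (.leaf [12,15,14,13])) (.free 2 [16,17,18,19,20,21,22]))), .t 5 (nat_lit 0x12cb12a0129e129d) (.z (.node 0 7 (.edon 0 11 (.leaf [0,8,9,10]) (.node 14 19 (.leaf [14,18,20,22,21]) (.free 2 [11,12,13,15,16,17,19]))) (.free 2 [1,2,3,4,5,6,7]))), .t 12 (nat_lit 0x120111fe12cb12a0129e129d03dd0326032502f902ef)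 (.z (.edon 0 3 (.free 1 [0,1,2]) (.node 6 16 (.edon 0 13 (.edon 0 9 (.leaf [3,4,6,8,5]) (.leaf [9,10,11])) (.node 18 19 (.leaf [14,18,20,22,21]) (.leaf [13,17,19,15]))) (.leaf [7,12,16])))), .t 1 (nat_lit 0) (.cp 2 3), .t 1 (nat_lit 0) (.cn 2 3), .t 1 (nat_lit 0) (.cn 2 2), .t 1 (nat_lit 0) (.cn 2 2), .t 10 (nat_lit 0xc9a0c95116e10bb10b8104410411011100f) (.z (.node 0 7 (.node 0 11 (.node 0 16 (.free 2 [0,17,18,19,20,21,22]) (.leaf [12,15,16,14,13])) (.leaf [8,9,11,10])) (.free 2 [1,2,3,4,5,6,7]))), .t 7 (nat_lit 0x100910070a610a5f01d401d3) (.z (.edon 0 16 (.edon 0 12 (.node 2 4 (.node 8 11 (.leaf [0,2,5,8,10]) (.leaf [6,7,11,9])) (.leaf [1,3,4])) (.leaf [12,15,14,13])) (.free 2 [16,17,18,19,20,21,22]))), .t 1 (nat_lit 0) (.cn 2 3), .t 7 (nat_lit 0x12cb12a0129e129d01d101d0) (.z (.node 4 19 (.edon 0 10 (.node 2 4 (.leaf [0,2,5,8,9]) (.leaf [1,3,4]))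 (.edon 0 14 (.leaf [10,11,13]) (.leaf [14,18,20,22,21]))) (.free 2 [6,7,12,15,16,17,19]))), .t 12 (nat_lit 0x349034701e401e301760091008f0034000500040001) (.z (.edon 4 19 (.free 2 [4,6,7,8,12,16,17]) (.node 10 0 (.leaf [1,3,5,9,10,2]) (.free 3 [0,11,13,14,15,18,19,20,21,22])))), .t 1 (nat_lit 0) (.cn 2 2), .t 10 (nat_lit 0x12cb12a0129e129d04090407033b033902ef) (.z (.edon 0 3 (.free 1 [0,1,2]) (.node 4 19 (.edon 0 10 (.leaf [3,4,9,8,5]) (.edon 0 14 (.leaf [10,11,13]) (.leaf [14,18,20,22,21]))) (.free 2 [6,7,12,15,16,17,19]))))] (by decide +kernel) (by decide +kernel)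
theorem b168 : B 5376 5408 := Blk.of_chk [.t 1 (nat_lit 0) (.cn 2 3), .t 7 (nat_lit 0x12cb12a0129e129d0210020f) (.z (.node 4 19 (.edon 0 10 (.node 2 4 (.leaf [0,2,6,8,9]) (.leaf [1,3,4])) (.edon 0 14 (.leaf [10,11,13]) (.leaf [14,18,20,22,21]))) (.free 2 [5,7,12,15,16,17,19]))), .t 10 (nat_lit 0x12cb12a0129e129d04bc04ba0361035f02f9) (.z (.edon 0 3 (.free 1 [0,1,2]) (.node 4 19 (.edon 0 10 (.leaf [3,4,9,8,6]) (.edon 0 14 (.leaf [10,11,13]) (.leaf [14,18,20,22,21]))) (.free 2 [5,7,12,15,16,17,19])))), .t 1 (nat_lit 0) (.cn 2 3), .t 1 (nat_lit 0) (.cp 2 3), .t 7 (nat_lit 0x12cb12a0129e129d02220221) (.z (.node 4 19 (.edon 0 11 (.node 2 4 (.leaf [0,2,6,9,10]) (.leaf [1,3,4])) (.edon 0 14 (.leaf [11,12,13]) (.leaf [14,18,20,22,21]))) (.free 2 [5,7,8,15,16,17,19]))), .t 1 (nat_lit 0) (.cn 2 3), .t 12 (nat_lit 0x12cb12a0129e129d12421240123f11e811e711d611d4)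 (.z (.node 19 4 (.free 2 [5,7,8,15,16,17,19]) (.edon 0 13 (.free 3 [0,1,2,3,4,6,9,10,11,12]) (.leaf [13,14,18,20,22,21])))), .t 5 (nat_lit 0x12cb12a0129e129d) (.z (.node 4 19 (.node 0 10 (.edon 0 14 (.leaf [0,11,12,13]) (.leaf [14,18,20,22,21])) (.free 2 [1,2,3,4,6,9,10])) (.free 2 [5,7,8,15,16,17,19]))), .t 15 (nat_lit 0x3df042e042903eb03e60ea704e804e6100910070f420f400e9f0e9d) (.z (.node 0 3 (.node 5 16 (.node 0 10 (.node 0 15 (.free 2 [0,17,18,19,20,21,22]) (.leaf [11,15,14,13,12])) (.leaf [4,5,10,9,6])) (.leaf [7,8,16])) (.free 1 [1,2,3]))), .t 8 (nat_lit 0xea7100910070f420f400e9f0e9d) (.z (.edon 0 16 (.edon 0 11 (.edon 1 9 (.free 2 [1,3,4,5,6,7,8]) (.leaf [0,2,9,10])) (.leaf [11,15,14,13,12])) (.free 2 [16,17,18,19,20,21,22]))), .t 10 (nat_lit 0xea7100910070f420f400e9f0e9d088a0888) (.z (.edon 0 16 (.edon 0 11 (.node 4 6 (.free 2 [0,1,2,3,4,9,10])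 (.leaf [5,7,8,6])) (.leaf [11,15,14,13,12])) (.free 2 [16,17,18,19,20,21,22]))), .t 27 (nat_lit 0xfa60efa119d10e510c2104c0fc10fbf0fab0f800f7e0f6f0f6d0f110f0f0f000eff0eb3101910170fe20fe10f4e0f4c0e9f0e9d) (.z (.node 0 17 (.free 2 [0,18,19,20,21,22]) (.edon 0 11 (.free 3 [1,2,3,4,5,6,7,8,9,10]) (.leaf [11,15,16,17,14,13,12])))), .t 1 (nat_lit 0) (.cn 2 3), .t 1 (nat_lit 0) (.cn 2 3), .t 9 (nat_lit 0x116e10bb10b8104410411011100f0004) (.z (.node 16 0 (.edon 0 12 (.edon 4 9 (.free 2 [4,5,6,7,8,10,11]) (.leaf [1,3,9,2])) (.leaf [12,15,16,14,13])) (.free 2 [0,17,18,19,20,21,22]))), .t 9 (nat_lit 0x116e10bb10b8104410411011100f0005) (.z (.node 16 0 (.edon 0 12 (.edon 4 10 (.free 2 [4,5,6,7,8,9,11]) (.leaf [1,3,10,2])) (.leaf [12,15,16,14,13])) (.free 2 [0,17,18,19,20,21,22]))), .t 12 (nat_lit 0x12af12aa12a9017c003a000500020435043112ba12b4) (.z (.node 5 16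 (.node 0 11 (.node 0 14 (.node 0 20 (.leaf [0,21,22]) (.leaf [15,18,19,20,17])) (.leaf [12,13,14])) (.edon 4 6 (.leaf [4,5,11,9]) (.leaf [1,3,6,10,2]))) (.free 1 [7,8,16]))), .t 10 (nat_lit 0xc9a0c9811ef112b11291077107510551053) (.z (.node 0 7 (.node 0 11 (.edon 13 19 (.leaf [12,16,18,15,13]) (.free 2 [0,14,17,19,20,21,22])) (.leaf [8,11,10,9])) (.free 2 [1,2,3,4,5,6,7]))), .t 14 (nat_lit 0x117b11ce11cb118611831211120f12c903e4032d032902fa02f0) (.z (.edon 0 3 (.free 1 [0,1,2]) (.node 5 16 (.edon 0 10 (.leaf [3,4,5,9,6]) (.edon 0 13 (.leaf [10,11,12]) (.node 17 19 (.leaf [17,20,22,21]) (.leaf [13,15,18,19,14])))) (.leaf [7,8,16])))), .t 12 (nat_lit 0x125612541250017c003a0005000212891286126c126a) (.z (.edon 0 20 (.node 5 16 (.node 0 10 (.edon 0 14 (.leaf [0,11,12,13]) (.leaf [14,15,18,19,17])) (.node 3 9 (.leaf [1,3,6,10,2]) (.leaf [4,5,9]))) (.leaf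 [7,8,16])) (.free 1 [20,21,22]))), .t 1 (nat_lit 0) (.cp 1 3), .t 8 (nat_lit 0x88808980895088d088b08c808c7) (.z (.node 2 4 (.node 2 9 (.free 4 [0,2,10,11,12,13,14,15,16,17,18,19,20,21,22]) (.leaf [5,7,8,9,6])) (.free 1 [1,3,4]))), .t 1 (nat_lit 0) (.cn 1 3), .t 8 (nat_lit 0xe9a0ed50ed00ea70ea20f420f40) (.z (.edon 0 16 (.edon 0 11 (.node 2 8 (.leaf [0,2,9,10]) (.free 2 [1,3,4,5,6,7,8])) (.leaf [11,12,15,14,13])) (.free 2 [16,17,18,19,20,21,22]))), .t 10 (nat_lit 0x10110c9a0c98116f116d10bc10ba10091007) (.z (.node 0 7 (.node 0 11 (.node 0 16 (.free 2 [0,17,18,19,20,21,22]) (.leaf [12,16,15,14,13])) (.leaf [8,11,10,9])) (.free 2 [1,2,3,4,5,6,7]))), .t 9 (nat_lit 0x1011116f116d10bc10ba100910070002) (.z (.node 16 0 (.edon 0 12 (.edon 4 6 (.free 2 [4,5,7,8,9,10,11]) (.leaf [1,3,6,2])) (.leaf [12,16,15,14,13])) (.free 2 [0,17,18,19,20,21,22]))), .t 9 (nat_lit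 0x128e1289128610451043129a12940002) (.z (.node 20 0 (.edon 0 12 (.edon 4 6 (.free 2 [4,5,7,8,9,10,11]) (.leaf [1,3,6,2])) (.node 14 16 (.leaf [14,18,19,20,17]) (.leaf [12,16,15,13]))) (.free 1 [0,21,22]))), .t 9 (nat_lit 0x12af12aa12a91011100f12ba12b40002) (.z (.node 20 0 (.edon 0 12 (.edon 4 6 (.free 2 [4,5,7,8,9,10,11]) (.leaf [1,3,6,2])) (.node 15 16 (.leaf [15,18,19,20,17]) (.leaf [12,16,14,13]))) (.free 1 [0,21,22]))), .t 5 (nat_lit 0x1009100702770275) (.z (.edon 0 16 (.edon 0 12 (.node 2 8 (.leaf [0,2,9,10,11]) (.free 2 [1,3,4,5,6,7,8])) (.leaf [12,15,14,13])) (.free 2 [16,17,18,19,20,21,22]))), .t 14 (nat_lit 0x4290450044b0435043112af12aa12a900020657065512ba12b4) (.z (.node 5 16 (.node 0 11 (.node 0 14 (.node 0 20 (.leaf [0,21,22]) (.leaf [15,18,19,20,17])) (.leaf [12,13,14])) (.edon 4 6 (.leaf [4,5,11,10,9]) (.leaf [1,3,6,2]))) (.free 1 [7,8,16]))),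 .t 5 (nat_lit 0x12c912a012991298) (.z (.node 4 19 (.node 0 10 (.edon 0 14 (.leaf [0,11,12,13]) (.leaf [14,17,20,22,21])) (.free 2 [1,2,3,4,6,9,10])) (.free 2 [5,7,8,15,16,18,19])))] (by decide +kernel) (by decide +kernel)
theorem b169 : B 5408 5440 := Blk.of_chk [.t 15 (nat_lit 0x3df042e042903eb03e612561254125004e804e612891286126c126a) (.z (.node 0 3 (.node 5 16 (.node 0 10 (.edon 0 14 (.leaf [0,11,12,13]) (.edon 0 20 (.leaf [14,15,18,19,17]) (.leaf [20,21,22]))) (.leaf [4,5,10,9,6])) (.leaf [7,8,16])) (.free 1 [1,2,3]))), .t 6 (nat_lit 0x20d890d8411c311c1) (.z (.edon 19 4 (.node 0 6 (.node 0 12 (.edon 19 21 (.leaf [19,20,22]) (.leaf [0,13,14,17,21])) (.leaf [9,10,12,11])) (.leaf [1,3,6,2])) (.free 2 [4,5,7,8,15,16,18]))), .t 1 (nat_lit 0) (.cn 1 3), .t 6 (nat_lit 0x36700b300b1003f003a) (.z (.node 10 2 (.edon 4 8 (.leaf [4,5,7]) (.leaf [1,3,8,10,6]))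 (.free 4 [0,2,9,11,12,13,14,15,16,17,18,19,20,21,22]))), .t 1 (nat_lit 0) (.cn 1 3), .t 8 (nat_lit 0x12490d7e0d7c0d720d700d690d68) (.z (.node 0 7 (.edon 14 19 (.leaf [8,16,18,15,14]) (.edon 0 12 (.leaf [0,9,10,11]) (.free 2 [12,13,17,19,20,21,22]))) (.free 2 [1,2,3,4,5,6,7]))), .t 11 (nat_lit 0x12af12aa12a90277010200ff002b002712ba12b4) (.z (.node 1 16 (.node 0 11 (.node 0 14 (.node 0 20 (.leaf [0,21,22]) (.leaf [15,18,19,20,17])) (.leaf [12,13,14])) (.leaf [1,10,11,9,2])) (.free 2 [3,4,5,6,7,8,16]))), .t 6 (nat_lit 0x2112b112911c311c1) (.z (.edon 21 19 (.node 0 11 (.node 14 15 (.leaf [0,13,14,17,21]) (.leaf [12,16,18,15])) (.edon 4 6 (.free 2 [4,5,7,8,9,10,11]) (.leaf [1,3,6,2]))) (.free 1 [19,20,22]))), .t 8 (nat_lit 0xe910d7e0d7c0d230d220d1f0d1e) (.z (.node 0 7 (.edon 10 19 (.leaf [8,16,18,15,10]) (.edon 0 13 (.leaf [0,9,11,12]) (.free 2 [13,14,17,19,20,21,22])))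 (.free 2 [1,2,3,4,5,6,7]))), .t 1 (nat_lit 0) (.cn 2 2), .t 1 (nat_lit 0) (.fa 3), .t 9 (nat_lit 0x12c90e9f0e9d04bc04ba0361035f02f9) (.z (.edon 0 3 (.free 1 [0,1,2]) (.node 4 19 (.edon 0 11 (.leaf [3,4,9,8,6]) (.edon 0 17 (.leaf [11,14,13,12]) (.leaf [17,20,22,21]))) (.free 2 [5,7,10,15,16,18,19])))), .t 8 (nat_lit 0xc9e0c990c960cf60cf10cbb0cb9) (.z (.node 0 7 (.node 0 12 (.edon 0 16 (.leaf [0,13,14,15]) (.free 2 [16,17,18,19,20,21,22])) (.leaf [8,10,12,11,9])) (.free 2 [1,2,3,4,5,6,7]))), .t 6 (nat_lit 0x12c90e3c0e3a0210020f) (.z (.node 4 19 (.edon 0 10 (.node 2 4 (.leaf [0,2,6,8,9]) (.leaf [1,3,4])) (.edon 0 17 (.leaf [10,14,13,12]) (.leaf [17,20,22,21]))) (.free 2 [5,7,11,15,16,18,19]))), .t 12 (nat_lit 0x12561254125003de03d912891286126c126a0da10d9f) (.z (.node 0 3 (.node 5 16 (.node 0 8 (.edon 0 14 (.leaf [0,9,10,12,13]) (.edon 0 20 (.leaf [14,15,18,19,17])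 (.leaf [20,21,22]))) (.leaf [4,5,8,6])) (.leaf [7,11,16])) (.free 1 [1,2,3]))), .t 10 (nat_lit 0x119312651264120b1209117611740d3e0d3d) (.z (.node 0 7 (.edon 8 19 (.leaf [8,11,16,18]) (.edon 0 13 (.leaf [0,9,10,12]) (.edon 19 21 (.leaf [19,20,22]) (.leaf [13,14,15,17,21])))) (.free 2 [1,2,3,4,5,6,7]))), .t 11 (nat_lit 0x12af12aa12a90002040904040e9f0e9d12ba12b4) (.z (.node 5 16 (.node 0 9 (.node 0 14 (.node 0 20 (.leaf [0,21,22]) (.leaf [15,18,19,20,17])) (.leaf [11,14,13,12])) (.edon 4 6 (.leaf [4,5,9,8]) (.leaf [1,3,6,2]))) (.free 1 [7,10,16]))), .t 17 (nat_lit 0xe0e0e000dfb0df90df40e400e250e200e160e14100910070e630e610e3c0e3a) (.z (.edon 0 16 (.edon 0 10 (.free 3 [0,1,2,3,4,5,6,7,8,9]) (.leaf [10,11,15,14,13,12])) (.free 2 [16,17,18,19,20,21,22]))), .t 10 (nat_lit 0x8ca08e508e208d108ce12420932093002fa) (.z (.edon 0 3 (.free 1 [0,1,2]) (.edon 0 12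 (.node 4 8 (.leaf [3,4,9,6]) (.leaf [5,7,11,10,8])) (.node 13 19 (.leaf [13,20,22,21]) (.free 2 [12,14,15,16,17,18,19]))))), .t 10 (nat_lit 0xfa60fc40fc20fb30fb00fe50fe40b980b96) (.z (.edon 0 7 (.free 2 [0,1,2,3,4,5,6]) (.edon 0 11 (.leaf [7,10,9,8]) (.edon 14 19 (.leaf [11,15,16,18,14]) (.free 2 [12,13,17,19,20,21,22]))))), .t 10 (nat_lit 0xfa60fc40fc20fb30fb00fe50fe40210020f) (.z (.node 2 4 (.edon 0 11 (.edon 5 8 (.leaf [5,7,10]) (.leaf [0,2,6,8,9])) (.edon 14 19 (.leaf [11,15,16,18,14]) (.free 2 [12,13,17,19,20,21,22]))) (.free 1 [1,3,4]))), .t 14 (nat_lit 0x128e128912860002090d05a705a2042e04290410040e129a1294) (.z (.node 5 16 (.node 0 10 (.node 0 13 (.node 0 20 (.leaf [0,21,22]) (.leaf [14,18,19,20,17])) (.leaf [11,12,13])) (.edon 4 6 (.leaf [4,5,8,10,9]) (.leaf [1,3,6,2]))) (.free 1 [7,15,16]))), .t 9 (nat_lit 0x212a41282127f1254125012491248)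 (.z (.edon 21 19 (.node 0 11 (.node 13 17 (.leaf [0,12,13,21]) (.leaf [14,15,16,18,17])) (.edon 4 6 (.free 2 [4,5,7,8,9,10,11]) (.leaf [1,3,6,2]))) (.free 1 [19,20,22]))), .t 9 (nat_lit 0x612a41282127f1254125012491248) (.z (.edon 21 19 (.node 0 11 (.node 13 17 (.leaf [0,12,13,21]) (.leaf [14,15,16,18,17])) (.edon 4 11 (.free 2 [4,5,6,7,8,9,10]) (.leaf [1,3,11,2]))) (.free 1 [19,20,22]))), .t 8 (nat_lit 0x8ca08e908e608d308d209390937) (.z (.edon 0 16 (.node 0 12 (.leaf [0,13,14,15]) (.node 4 10 (.free 2 [1,2,3,4,6,9,11]) (.leaf [5,7,12,10,8]))) (.free 2 [16,17,18,19,20,21,22]))), .t 10 (nat_lit 0x10151097109410371034110511040d7e0d7d) (.z (.node 0 7 (.edon 8 19 (.leaf [8,15,16,18]) (.edon 0 12 (.leaf [0,9,10,11]) (.edon 19 21 (.leaf [19,20,22]) (.leaf [12,14,17,21,13])))) (.free 2 [1,2,3,4,5,6,7]))), .t 10 (nat_lit 0xecb0ec912a41282127f1254125012491248)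 (.z (.node 0 3 (.node 0 10 (.edon 14 21 (.edon 0 19 (.leaf [14,15,16,18,17]) (.leaf [19,20,22])) (.leaf [0,11,12,13,21])) (.free 2 [4,5,6,7,8,9,10])) (.free 1 [1,2,3]))), .t 7 (nat_lit 0x12c91242123a12390210020f) (.z (.node 4 19 (.edon 0 11 (.node 2 4 (.leaf [0,2,6,8,9]) (.leaf [1,3,4])) (.node 13 14 (.leaf [13,17,20,22,21]) (.leaf [11,12,14]))) (.free 2 [5,7,10,15,16,18,19]))), .t 5 (nat_lit 0xcf60cf10de80de7) (.z (.node 0 7 (.edon 0 16 (.node 9 12 (.leaf [0,9,13,14,15]) (.leaf [8,10,12,11])) (.free 2 [16,17,18,19,20,21,22])) (.free 2 [1,2,3,4,5,6,7]))), .t 10 (nat_lit 0x12c91242123a123904bc04ba0361035f02f9) (.z (.edon 0 3 (.free 1 [0,1,2]) (.node 4 19 (.edon 0 11 (.leaf [3,4,9,8,6]) (.node 13 14 (.leaf [13,17,20,22,21]) (.leaf [11,12,14]))) (.free 2 [5,7,10,15,16,18,19])))), .t 7 (nat_lit 0x10030df30dd00dcf10181015) (.z (.node 4 19 (.edon 0 9 (.free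 2 [0,1,2,3,4,6,8]) (.edon 13 20 (.leaf [12,14,17,13]) (.leaf [9,11,20,22,21]))) (.free 2 [5,7,10,15,16,18,19]))), .t 12 (nat_lit 0x12561254125003de03d912891286126c126a0db40db2) (.z (.node 0 3 (.node 5 16 (.node 0 8 (.edon 0 14 (.leaf [0,9,11,12,13]) (.edon 0 20 (.leaf [14,15,18,19,17]) (.leaf [20,21,22]))) (.leaf [4,5,8,6])) (.leaf [7,10,16])) (.free 1 [1,2,3])))] (by decide +kernel) (by decide +kernel)
theorem b170 : B 5440 5472 := Blk.of_chk [.t 11 (nat_lit 0x12561254125000020409040412891286126c126a) (.z (.edon 0 20 (.node 5 16 (.node 0 9 (.edon 0 14 (.leaf [0,11,12,13]) (.leaf [14,15,18,19,17])) (.edon 4 6 (.leaf [4,5,9,8]) (.leaf [1,3,6,2]))) (.leaf [7,10,16])) (.free 1 [20,21,22]))), .t 9 (nat_lit 0x10151097109410371034000211051104) (.z (.edon 19 4 (.node 0 6 (.edon 0 12 (.leaf [0,8,9,11]) (.edon 19 21 (.leaf [19,20,22]) (.leaf [12,14,17,21,13])))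 (.leaf [1,3,6,2])) (.free 2 [4,5,7,10,15,16,18]))), .t 6 (nat_lit 0x12c9021802170dd40dd2) (.z (.node 4 19 (.edon 0 17 (.node 2 4 (.edon 9 11 (.leaf [9,14,13,12]) (.leaf [0,2,6,8,11])) (.leaf [1,3,4])) (.leaf [17,20,22,21])) (.free 2 [5,7,10,15,16,18,19]))), .t 10 (nat_lit 0xc9e0c990c960cf60cf10cbb0cb912491248) (.z (.node 0 7 (.node 0 12 (.edon 14 19 (.leaf [14,15,16,18]) (.free 2 [0,13,17,19,20,21,22])) (.leaf [8,10,12,11,9])) (.free 2 [1,2,3,4,5,6,7]))), .t 7 (nat_lit 0x1009100708cd08ca02270226) (.z (.edon 0 16 (.edon 0 12 (.node 4 8 (.node 2 4 (.leaf [0,2,6,9,11]) (.leaf [1,3,4])) (.leaf [5,7,10,8])) (.leaf [12,15,14,13])) (.free 2 [16,17,18,19,20,21,22]))), .t 10 (nat_lit 0x1009100708dc08db04cb04c9036d036b02f9) (.z (.edon 0 16 (.edon 0 3 (.leaf [0,1,2]) (.edon 0 12 (.node 4 10 (.leaf [3,4,11,8,6]) (.leaf [5,7,9,10])) (.leaf [12,15,14,13]))) (.free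 2 [16,17,18,19,20,21,22]))), .t 12 (nat_lit 0x12a41282127f125412501249124808cd08ca02270226) (.z (.edon 21 19 (.edon 0 12 (.node 4 8 (.node 2 4 (.leaf [0,2,6,9,11]) (.leaf [1,3,4])) (.leaf [5,7,10,8])) (.edon 14 21 (.leaf [14,15,16,18,17]) (.leaf [12,13,21]))) (.free 1 [19,20,22]))), .t 8 (nat_lit 0x116910030f3c0f3b08cd08ca02fa) (.z (.edon 0 3 (.free 1 [0,1,2]) (.edon 0 11 (.node 4 8 (.leaf [3,4,9,6]) (.leaf [5,7,10,8])) (.edon 13 20 (.free 2 [13,14,15,16,17,18,19]) (.leaf [11,12,20,22,21]))))), .t 14 (nat_lit 0x118612c9126c126a1211120f117e117c03de0327032402f902ef) (.z (.edon 0 3 (.free 1 [0,1,2]) (.node 5 16 (.edon 0 9 (.leaf [3,4,5,8,6]) (.edon 0 13 (.leaf [9,11,12]) (.edon 13 20 (.leaf [13,14,15,18,19]) (.leaf [17,20,22,21])))) (.leaf [7,10,16])))), .t 14 (nat_lit 0x1186126c126a1211120f117e117c12c903de0327032402f902ef) (.z (.edon 0 3 (.free 1 [0,1,2])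 (.node 5 16 (.edon 0 10 (.leaf [3,4,5,8,6]) (.edon 0 13 (.leaf [10,11,12]) (.node 17 19 (.leaf [17,20,22,21]) (.leaf [13,14,15,18,19])))) (.leaf [7,9,16])))), .t 10 (nat_lit 0x1249124708dc08db04cb04c9036d036b02f9) (.z (.edon 0 3 (.free 1 [0,1,2]) (.edon 0 12 (.node 4 10 (.leaf [3,4,11,8,6]) (.leaf [5,7,9,10])) (.edon 14 19 (.leaf [14,16,18,15]) (.free 2 [12,13,17,19,20,21,22]))))), .t 10 (nat_lit 0x1249124708dd08da04cb04c9036d036b02f9) (.z (.edon 0 3 (.free 1 [0,1,2]) (.edon 0 12 (.node 4 9 (.leaf [3,4,11,8,6]) (.leaf [5,7,10,9])) (.edon 14 19 (.leaf [14,16,18,15]) (.free 2 [12,13,17,19,20,21,22]))))), .t 10 (nat_lit 0x8c608dd08da08cd08ca12491247090d090b) (.z (.node 2 4 (.edon 0 12 (.node 6 8 (.leaf [0,2,6,11]) (.leaf [5,7,10,9,8])) (.edon 14 19 (.leaf [14,16,18,15]) (.free 2 [12,13,17,19,20,21,22]))) (.free 1 [1,3,4]))), .t 7 (nat_lit 0x1249124708dd08da02180217)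 (.z (.node 2 4 (.edon 0 12 (.node 8 9 (.leaf [0,2,6,8,11]) (.leaf [5,7,10,9])) (.edon 14 19 (.leaf [14,16,18,15]) (.free 2 [12,13,17,19,20,21,22]))) (.free 1 [1,3,4]))), .t 7 (nat_lit 0x124912470227022608cd08ca) (.z (.node 2 4 (.edon 0 12 (.edon 5 9 (.leaf [5,7,10,8]) (.leaf [0,2,6,9,11])) (.edon 14 19 (.leaf [14,16,18,15]) (.free 2 [12,13,17,19,20,21,22]))) (.free 1 [1,3,4]))), .t 12 (nat_lit 0x12af12aa12a903eb0332032f02fc02f2002712ba12b4) (.z (.node 5 16 (.node 0 11 (.node 0 14 (.node 0 20 (.leaf [0,21,22]) (.leaf [15,18,19,20,17])) (.leaf [12,13,14])) (.node 1 10 (.leaf [1,9,11,2]) (.leaf [3,4,5,10,6]))) (.free 1 [7,8,16]))), .t 17 (nat_lit 0xd220d180d1612490e910e850e7f0e7e0d7e0d7c0d720d700d690d680d150d14) (.z (.node 7 0 (.free 2 [1,2,3,4,5,6,7]) (.edon 14 19 (.leaf [8,16,18,15,14,10]) (.free 3 [0,9,11,12,13,17,19,20,21,22])))), .t 6 (nat_lit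 0x6112b112911c311c1) (.z (.edon 21 19 (.node 0 11 (.node 14 15 (.leaf [0,13,14,17,21]) (.leaf [12,16,18,15])) (.edon 4 11 (.free 2 [4,5,6,7,8,9,10]) (.leaf [1,3,11,2]))) (.free 1 [19,20,22]))), .t 4 (nat_lit 0x12c910081006) (.z (.node 4 19 (.node 0 11 (.edon 0 17 (.leaf [0,12,13,14,15]) (.leaf [17,20,22,21])) (.free 2 [1,2,3,4,6,9,11])) (.free 2 [5,7,8,10,16,18,19]))), .t 7 (nat_lit 0x2042e0429126c126912c9) (.z (.node 5 16 (.node 0 10 (.edon 0 14 (.leaf [0,11,12,13]) (.node 17 19 (.leaf [17,20,22,21]) (.leaf [14,18,19,15]))) (.edon 4 6 (.leaf [4,5,10,9]) (.leaf [1,3,6,2]))) (.free 1 [7,8,16]))), .t 1 (nat_lit 0) (.cn 2 3), .t 7 (nat_lit 0xc990c96120b120910e910e7) (.z (.node 0 7 (.node 0 11 (.edon 14 19 (.leaf [12,16,18,14]) (.edon 19 21 (.leaf [19,20,22]) (.leaf [0,13,15,17,21]))) (.leaf [8,10,11,9])) (.free 2 [1,2,3,4,5,6,7]))), .t 14 (nat_lit 0x404042e04290411040c12af12aa12a9000205a705a512ba12b4)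 (.z (.node 5 16 (.node 0 10 (.node 0 14 (.node 0 20 (.leaf [0,21,22]) (.leaf [15,18,19,20,17])) (.leaf [11,13,14])) (.edon 4 6 (.leaf [4,5,10,9,8]) (.leaf [1,3,6,2]))) (.free 1 [7,12,16]))), .t 1 (nat_lit 0) (.fa 3), .t 5 (nat_lit 0x17d003c00060002) (.z (.edon 0 16 (.node 0 12 (.leaf [0,13,14,15]) (.edon 4 6 (.free 2 [4,5,7,8,9,10,12]) (.leaf [1,3,6,11,2]))) (.free 2 [16,17,18,19,20,21,22]))), .t 10 (nat_lit 0xc990c9612b41234121f1207120610e910e7) (.z (.node 0 7 (.node 0 11 (.node 0 20 (.leaf [0,21,22]) (.edon 14 19 (.leaf [12,16,18,14]) (.leaf [13,19,20,17,15]))) (.leaf [8,10,11,9])) (.free 2 [1,2,3,4,5,6,7]))), .t 6 (nat_lit 0x2040904040bf80bf6) (.z (.edon 0 16 (.node 0 12 (.leaf [0,13,14,15]) (.edon 7 9 (.leaf [7,12,11,10]) (.edon 4 6 (.leaf [4,5,9,8]) (.leaf [1,3,6,2])))) (.free 2 [16,17,18,19,20,21,22]))), .t 9 (nat_lit 0x12b41234121f1207120610e910e70002)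 (.z (.node 20 0 (.edon 0 12 (.edon 4 6 (.free 2 [4,5,7,8,9,10,11]) (.leaf [1,3,6,2])) (.edon 14 19 (.leaf [12,16,18,14]) (.leaf [13,19,20,17,15]))) (.free 1 [0,21,22]))), .t 12 (nat_lit 0x8ca08c908c6090c090908dc08db120b120910e910e7) (.z (.node 0 3 (.node 0 11 (.edon 14 19 (.leaf [12,16,18,14]) (.edon 19 21 (.leaf [19,20,22]) (.leaf [0,13,15,17,21]))) (.node 4 8 (.leaf [4,6,11]) (.leaf [5,7,9,10,8]))) (.free 1 [1,2,3]))), .t 7 (nat_lit 0x20411040c126c126912c9) (.z (.node 5 16 (.node 0 10 (.edon 0 14 (.leaf [0,11,12,13]) (.node 17 19 (.leaf [17,20,22,21]) (.leaf [14,18,19,15]))) (.edon 4 6 (.leaf [4,5,10,8]) (.leaf [1,3,6,2]))) (.free 1 [7,9,16]))), .t 9 (nat_lit 0x12b41234121f1207120610e910e70006) (.z (.node 20 0 (.edon 0 12 (.edon 4 11 (.free 2 [4,5,6,7,8,9,10]) (.leaf [1,3,11,2])) (.edon 14 19 (.leaf [12,16,18,14]) (.leaf [13,19,20,17,15]))) (.free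 1 [0,21,22]))), .t 11 (nat_lit 0x3df03de03d904bb04b804080406126c126912c9) (.z (.node 0 3 (.node 5 16 (.node 0 9 (.edon 0 14 (.leaf [0,11,12,13]) (.node 17 19 (.leaf [17,20,22,21]) (.leaf [14,18,19,15]))) (.leaf [4,5,8,9,6])) (.leaf [7,10,16])) (.free 1 [1,2,3])))] (by decide +kernel) (by decide +kernel)
theorem b171 : B 5472 5504 := Blk.of_chk [.t 12 (nat_lit 0x12af12aa12a9017d003c000600020409040412ba12b4) (.z (.node 5 16 (.node 0 11 (.node 0 14 (.node 0 20 (.leaf [0,21,22]) (.leaf [15,18,19,20,17])) (.leaf [12,13,14])) (.edon 4 6 (.leaf [4,5,9,8]) (.leaf [1,3,6,11,2]))) (.free 1 [7,10,16]))), .t 8 (nat_lit 0x8c608dd08da08cd08ca090d090b) (.z (.edon 0 16 (.node 0 12 (.leaf [0,13,14,15]) (.node 4 9 (.free 2 [1,2,3,4,6,11,12]) (.leaf [5,7,10,9,8]))) (.free 2 [16,17,18,19,20,21,22]))), .t 7 (nat_lit 0x204090404126c126912c9) (.z (.node 5 16 (.node 0 9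 (.edon 0 14 (.leaf [0,11,12,13]) (.node 17 19 (.leaf [17,20,22,21]) (.leaf [14,18,19,15]))) (.edon 4 6 (.leaf [4,5,9,8]) (.leaf [1,3,6,2]))) (.free 1 [7,10,16]))), .t 1 (nat_lit 0) (.cn 1 3), .t 1 (nat_lit 0) (.cn 2 2), .t 13 (nat_lit 0xdb90e9f0e9d0dd40dd20db50db303de0327032402f902ef) (.z (.edon 0 3 (.free 1 [0,1,2]) (.node 5 16 (.edon 0 9 (.leaf [3,4,5,8,6]) (.edon 0 15 (.leaf [9,14,13,12,11]) (.free 2 [15,17,18,19,20,21,22]))) (.leaf [7,10,16])))), .t 1 (nat_lit 0) (.cn 2 3), .t 13 (nat_lit 0xd840da20d9e0d900d8c0db50db303de0327032402f902ef) (.z (.edon 0 3 (.free 1 [0,1,2]) (.node 5 16 (.edon 0 9 (.leaf [3,4,5,8,6]) (.edon 0 15 (.leaf [9,10,13,12,11]) (.free 2 [15,17,18,19,20,21,22]))) (.leaf [7,14,16])))), .t 6 (nat_lit 0x12661262125e1298127e) (.z (.edon 14 21 (.node 14 19 (.leaf [14,15,20,22,17]) (.leaf [16,18,19])) (.free 4 [0,1,2,3,4,5,6,7,8,9,10,11,12,13,21]))),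 .t 9 (nat_lit 0x404042e04290411040c000205a705a5) (.z (.node 5 16 (.node 0 10 (.edon 0 15 (.leaf [0,11,12,13]) (.free 2 [15,17,18,19,20,21,22])) (.edon 4 6 (.leaf [4,5,10,9,8]) (.leaf [1,3,6,2]))) (.free 1 [7,14,16]))), .t 7 (nat_lit 0x1008100508cd08ca02270226) (.z (.edon 0 16 (.edon 0 12 (.node 4 8 (.node 2 4 (.leaf [0,2,6,9,11]) (.leaf [1,3,4])) (.leaf [5,7,10,8])) (.leaf [12,14,15,13])) (.free 2 [16,17,18,19,20,21,22]))), .t 5 (nat_lit 0x8ec08eb0ea60ea4) (.z (.edon 0 16 (.node 4 10 (.node 0 9 (.leaf [0,11,12,13,15]) (.free 2 [1,2,3,4,6,8,9])) (.leaf [5,7,14,10])) (.free 2 [16,17,18,19,20,21,22]))), .t 1 (nat_lit 0) (.cn 2 3), .t 7 (nat_lit 0x17d003c0006000212a412a1) (.z (.edon 21 19 (.node 0 12 (.node 14 17 (.leaf [0,13,14,21]) (.leaf [15,16,18,17])) (.edon 4 6 (.free 2 [4,5,7,8,9,10,12]) (.leaf [1,3,6,11,2]))) (.free 1 [19,20,22]))), .t 5 (nat_lit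 0x100910070c990c97) (.z (.node 0 7 (.edon 0 12 (.leaf [0,8,9,10,11]) (.edon 0 16 (.leaf [12,15,14,13]) (.free 2 [16,17,18,19,20,21,22]))) (.free 2 [1,2,3,4,5,6,7]))), .t 7 (nat_lit 0xc990c9611c311c1112b1129) (.z (.node 0 7 (.node 0 11 (.edon 15 19 (.leaf [12,16,18,15]) (.edon 19 21 (.leaf [19,20,22]) (.leaf [0,13,14,17,21]))) (.leaf [8,10,11,9])) (.free 2 [1,2,3,4,5,6,7]))), .t 1 (nat_lit 0) (.cn 2 2), .t 6 (nat_lit 0x2112b112911c311c1) (.z (.edon 21 19 (.node 0 11 (.node 14 18 (.leaf [0,13,14,17,21]) (.leaf [12,16,18,15])) (.edon 4 6 (.free 2 [4,5,7,8,9,10,11]) (.leaf [1,3,6,2]))) (.free 1 [19,20,22]))), .t 1 (nat_lit 0) (.fa 4), .t 1 (nat_lit 0) (.cn 2 3), .t 7 (nat_lit 0xc990c961097109512491247) (.z (.node 0 7 (.node 0 11 (.edon 14 19 (.leaf [14,16,18,15]) (.edon 19 21 (.leaf [19,20,22]) (.leaf [0,12,13,17,21]))) (.leaf [8,10,11,9])) (.free 2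 [1,2,3,4,5,6,7]))), .t 10 (nat_lit 0xc990c961234115c10ae1091108f12491247) (.z (.node 0 7 (.node 0 11 (.node 0 20 (.leaf [0,21,22]) (.edon 14 19 (.leaf [14,16,18,15]) (.leaf [12,19,20,17,13]))) (.leaf [8,10,11,9])) (.free 2 [1,2,3,4,5,6,7]))), .t 8 (nat_lit 0x3de03d9126c126912c90db40db2) (.z (.node 0 3 (.node 5 16 (.node 0 8 (.edon 0 14 (.leaf [0,9,11,12,13]) (.node 17 19 (.leaf [17,20,22,21]) (.leaf [14,18,19,15]))) (.leaf [4,5,8,6])) (.leaf [7,10,16])) (.free 1 [1,2,3]))), .t 1 (nat_lit 0) (.cn 2 2), .t 5 (nat_lit 0xcba0cb80e910e90) (.z (.node 0 7 (.edon 10 19 (.leaf [10,15,16,18]) (.edon 0 13 (.leaf [0,8,9,11,12]) (.free 2 [13,14,17,19,20,21,22]))) (.free 2 [1,2,3,4,5,6,7]))), .t 9 (nat_lit 0x404042e04290411040c000205a705a5) (.z (.node 5 16 (.node 0 10 (.edon 0 14 (.leaf [0,11,12,13]) (.free 2 [14,17,18,19,20,21,22])) (.edon 4 6 (.leaf [4,5,10,9,8])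 (.leaf [1,3,6,2]))) (.free 1 [7,15,16]))), .t 7 (nat_lit 0x8cd08ca11c311c1112b112a) (.z (.edon 21 19 (.node 0 11 (.edon 12 17 (.leaf [12,15,16,18]) (.leaf [0,13,14,17,21])) (.node 4 8 (.free 2 [1,2,3,4,6,9,11]) (.leaf [5,7,10,8]))) (.free 1 [19,20,22]))), .t 10 (nat_lit 0x10b810e910e710ca10c70c990c96112b112a) (.z (.node 0 7 (.node 0 11 (.edon 14 19 (.leaf [12,15,16,18,14]) (.free 2 [0,13,17,19,20,21,22])) (.leaf [8,10,11,9])) (.free 2 [1,2,3,4,5,6,7]))), .t 7 (nat_lit 0x10bb10b808e508e20210020f) (.z (.node 2 4 (.edon 0 12 (.node 8 10 (.leaf [0,2,6,8,9]) (.leaf [5,7,11,10])) (.node 13 16 (.free 2 [13,17,18,19,20,21,22]) (.leaf [12,15,16,14]))) (.free 1 [1,3,4]))), .t 7 (nat_lit 0x8d808d70e9f0e9a02220221) (.z (.edon 0 16 (.node 4 8 (.edon 0 11 (.node 2 4 (.leaf [0,2,6,9,10]) (.leaf [1,3,4])) (.leaf [11,12,14,13])) (.leaf [5,7,15,8])) (.free 2 [16,17,18,19,20,21,22]))),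 .t 10 (nat_lit 0x10b810e910e710ca10c70c9a0c98112b112a) (.z (.node 0 7 (.node 0 11 (.edon 14 19 (.leaf [12,15,16,18,14]) (.free 2 [0,13,17,19,20,21,22])) (.leaf [8,11,10,9])) (.free 2 [1,2,3,4,5,6,7]))), .t 10 (nat_lit 0x3df03de03d904bb04b8040804060df80df6) (.z (.node 0 3 (.node 5 16 (.node 0 9 (.edon 0 14 (.leaf [0,10,11,12,13]) (.free 2 [14,17,18,19,20,21,22])) (.leaf [4,5,8,9,6])) (.leaf [7,15,16])) (.free 1 [1,2,3])))] (by decide +kernel) (by decide +kernel)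
theorem b172 : B 5504 5536 := Blk.of_chk [.t 6 (nat_lit 0x12c90215021408df08de) (.z (.node 2 4 (.edon 0 12 (.edon 5 8 (.leaf [5,7,11,9]) (.leaf [0,2,6,8,10])) (.node 17 19 (.leaf [17,20,22,21]) (.free 2 [12,13,14,15,16,18,19]))) (.free 1 [1,3,4]))), .t 6 (nat_lit 0x12c90215021408df08de) (.z (.node 2 4 (.edon 0 12 (.edon 5 10 (.leaf [5,7,11,9]) (.leaf [0,2,6,8,10])) (.node 17 19 (.leaf [17,20,22,21]) (.free 2 [12,13,14,15,16,18,19]))) (.free 1 [1,3,4]))), .t 9 (nat_lit 0xba012420c9a0c980bde0bdc0b980b96) (.z (.edon 0 7 (.free 2 [0,1,2,3,4,5,6]) (.edon 0 12 (.leaf [7,11,10,9,8]) (.node 13 19 (.leaf [13,20,22,21]) (.free 2 [12,14,15,16,17,18,19]))))), .t 8 (nat_lit 0xca10d890d870cf60cf40c9a0c98) (.z (.node 0 7 (.node 0 12 (.edon 0 16 (.leaf [0,13,14,15]) (.free 2 [16,17,18,19,20,21,22])) (.leaf [8,12,11,10,9])) (.free 2 [1,2,3,4,5,6,7]))), .t 7 (nat_lit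 0xd890d8711c311c10d7e0d7d) (.z (.node 0 7 (.edon 8 19 (.leaf [8,15,16,18]) (.node 0 12 (.edon 19 21 (.leaf [19,20,22]) (.leaf [0,13,14,17,21])) (.leaf [9,12,11,10]))) (.free 2 [1,2,3,4,5,6,7]))), .t 15 (nat_lit 0x3e603e403df12561254125004e704e4042d042b12891286126c126a) (.z (.node 0 3 (.node 5 16 (.node 0 10 (.edon 0 14 (.leaf [0,11,12,13]) (.edon 0 20 (.leaf [14,15,18,19,17]) (.leaf [20,21,22]))) (.leaf [4,5,9,10,6])) (.leaf [7,8,16])) (.free 1 [1,2,3]))), .t 6 (nat_lit 0x20d890d8711c311c1) (.z (.edon 19 4 (.node 0 6 (.node 0 12 (.edon 19 21 (.leaf [19,20,22]) (.leaf [0,13,14,17,21])) (.leaf [9,12,11,10])) (.leaf [1,3,6,2])) (.free 2 [4,5,7,8,15,16,18]))), .t 5 (nat_lit 0xcbb0cb90e620e60) (.z (.node 0 7 (.edon 0 16 (.node 10 12 (.leaf [0,10,13,14,15]) (.leaf [8,12,11,9])) (.free 2 [16,17,18,19,20,21,22])) (.free 2 [1,2,3,4,5,6,7]))), .t 9 (nat_lit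 0x1234115c10ae1091108f124912470002) (.z (.node 20 0 (.edon 0 12 (.edon 4 6 (.free 2 [4,5,7,8,9,10,11]) (.leaf [1,3,6,2])) (.edon 14 19 (.leaf [14,16,18,15]) (.leaf [12,19,20,17,13]))) (.free 1 [0,21,22]))), .t 6 (nat_lit 0x10b60fa40f3c0ece0ecd) (.z (.node 0 7 (.edon 0 11 (.leaf [0,8,9,10]) (.edon 14 22 (.free 2 [14,15,16,17,18,19,20]) (.leaf [11,12,13,22,21]))) (.free 2 [1,2,3,4,5,6,7]))), .t 7 (nat_lit 0xcbb0cb9017c003a00050002) (.z (.edon 0 16 (.node 0 12 (.leaf [0,13,14,15]) (.node 7 9 (.edon 4 6 (.leaf [4,5,7]) (.leaf [1,3,6,10,2])) (.leaf [8,12,11,9]))) (.free 2 [16,17,18,19,20,21,22]))), .t 10 (nat_lit 0x1234115c10ae1091108f1249124708c808c7) (.z (.node 20 0 (.edon 0 12 (.node 4 9 (.free 2 [1,2,3,4,6,10,11]) (.leaf [5,7,8,9])) (.edon 14 19 (.leaf [14,16,18,15]) (.leaf [12,19,20,17,13]))) (.free 1 [0,21,22]))), .t 5 (nat_lit 0x124210030fa40fa3)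 (.z (.node 0 7 (.edon 0 11 (.leaf [0,8,9,10]) (.node 13 17 (.leaf [11,13,20,22,21]) (.free 2 [12,14,15,16,17,18,19]))) (.free 2 [1,2,3,4,5,6,7]))), .t 15 (nat_lit 0x88808980895088d088b08c808c71249112b112910e910e710cb10c9) (.z (.node 2 4 (.node 0 11 (.edon 14 19 (.leaf [12,16,18,15,14]) (.free 2 [0,13,17,19,20,21,22])) (.node 2 9 (.leaf [2,10,11]) (.leaf [5,7,8,9,6]))) (.free 1 [1,3,4]))), .t 6 (nat_lit 0x20d880d8511c311c1) (.z (.edon 19 4 (.node 0 6 (.node 0 12 (.edon 19 21 (.leaf [19,20,22]) (.leaf [0,13,14,17,21])) (.leaf [9,11,12,10])) (.leaf [1,3,6,2])) (.free 2 [4,5,7,8,15,16,18]))), .t 8 (nat_lit 0x22a0ade0add027c027b02220221) (.z (.edon 0 16 (.node 0 12 (.leaf [0,13,14,15]) (.edon 1 9 (.free 2 [1,3,4,5,7,8,11]) (.leaf [2,6,9,10,12]))) (.free 2 [16,17,18,19,20,21,22]))), .t 12 (nat_lit 0x12561254125003e403df12891286126c126a0df80df6) (.z (.node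 0 3 (.node 5 16 (.node 0 9 (.edon 0 14 (.leaf [0,10,11,12,13]) (.edon 0 20 (.leaf [14,15,18,19,17]) (.leaf [20,21,22]))) (.leaf [4,5,9,6])) (.leaf [7,8,16])) (.free 1 [1,2,3]))), .t 7 (nat_lit 0xc9a0c981097109512491247) (.z (.node 0 7 (.node 0 11 (.edon 14 19 (.leaf [14,16,18,15]) (.edon 19 21 (.leaf [19,20,22]) (.leaf [0,12,13,17,21]))) (.leaf [8,11,10,9])) (.free 2 [1,2,3,4,5,6,7]))), .t 10 (nat_lit 0x124210030fa40fa303e4032d032902fa02f0) (.z (.edon 0 3 (.free 1 [0,1,2]) (.edon 0 11 (.edon 7 9 (.leaf [7,8,10]) (.leaf [3,4,5,9,6])) (.edon 17 20 (.free 2 [12,14,15,16,17,18,19]) (.leaf [11,13,20,22,21]))))), .t 10 (nat_lit 0x1234115c10ae1091108f1249124808c908c6) (.z (.node 20 0 (.edon 0 12 (.node 4 9 (.free 2 [1,2,3,4,6,10,11]) (.leaf [5,7,9,8])) (.edon 14 19 (.leaf [14,15,16,18]) (.leaf [12,19,20,17,13]))) (.free 1 [0,21,22]))), .t 9 (nat_lit 0xdff12c90e9f0e9d0e3c0e3a0df90df7)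 (.z (.node 4 19 (.edon 0 10 (.free 2 [0,1,2,3,4,6,9]) (.edon 0 17 (.leaf [10,14,13,12,11]) (.leaf [17,20,22,21]))) (.free 2 [5,7,8,15,16,18,19]))), .t 6 (nat_lit 0x12c90e9f0e9d02220221) (.z (.node 4 19 (.edon 0 11 (.node 2 4 (.leaf [0,2,6,9,10]) (.leaf [1,3,4])) (.edon 0 17 (.leaf [11,14,13,12]) (.leaf [17,20,22,21]))) (.free 2 [5,7,8,15,16,18,19]))), .t 10 (nat_lit 0x8d808d70e9f0e9d04e804e60377037502fa) (.z (.edon 0 16 (.edon 0 3 (.leaf [0,1,2]) (.node 4 8 (.edon 0 11 (.leaf [3,4,10,9,6]) (.leaf [11,14,13,12])) (.leaf [5,7,15,8]))) (.free 2 [16,17,18,19,20,21,22]))), .t 7 (nat_lit 0xc9a0c951097109512491248) (.z (.node 0 7 (.node 0 11 (.edon 14 19 (.leaf [14,15,16,18]) (.edon 19 21 (.leaf [19,20,22]) (.leaf [0,12,13,17,21]))) (.leaf [8,9,11,10])) (.free 2 [1,2,3,4,5,6,7]))), .t 9 (nat_lit 0x108c10891084115c10ae124912470002) (.z (.node 20 0 (.edon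 0 12 (.edon 4 6 (.free 2 [4,5,7,8,9,10,11]) (.leaf [1,3,6,2])) (.edon 15 19 (.leaf [14,16,18,15]) (.leaf [12,13,19,20,17]))) (.free 1 [0,21,22]))), .t 5 (nat_lit 0x12c9116911621161) (.z (.node 0 7 (.edon 0 11 (.leaf [0,8,9,10]) (.node 12 19 (.leaf [12,17,20,22,21]) (.free 2 [11,13,14,15,16,18,19]))) (.free 2 [1,2,3,4,5,6,7]))), .t 7 (nat_lit 0xc9a0c951097109512491247) (.z (.node 0 7 (.node 0 11 (.edon 15 19 (.leaf [14,16,18,15]) (.edon 19 21 (.leaf [19,20,22]) (.leaf [0,12,13,17,21]))) (.leaf [8,9,11,10])) (.free 2 [1,2,3,4,5,6,7]))), .t 10 (nat_lit 0xd90090008ff0df90df70db50db30d890d87) (.z (.edon 0 16 (.node 4 15 (.edon 0 9 (.free 2 [0,1,2,3,4,6,8]) (.leaf [9,13,12,11,10])) (.leaf [5,7,14,15])) (.free 2 [16,17,18,19,20,21,22]))), .t 8 (nat_lit 0x8c608dd08da08cd08ca090d090b) (.z (.edon 0 16 (.node 0 12 (.leaf [0,13,14,15]) (.node 4 8 (.free 2 [1,2,3,4,6,11,12])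 (.leaf [5,7,10,9,8]))) (.free 2 [16,17,18,19,20,21,22]))), .t 7 (nat_lit 0x17c003a0005000210971095) (.z (.edon 19 4 (.node 0 11 (.edon 19 21 (.leaf [19,20,22]) (.leaf [0,12,13,17,21])) (.node 6 9 (.leaf [1,3,6,10,2]) (.leaf [8,9,11]))) (.free 2 [4,5,7,14,15,16,18]))), .t 10 (nat_lit 0x108c10891084017c003a00050002115c10ae) (.z (.edon 19 4 (.node 0 11 (.node 0 20 (.leaf [0,21,22]) (.leaf [12,13,19,20,17])) (.edon 8 10 (.leaf [8,9,11]) (.leaf [1,3,6,10,2]))) (.free 2 [4,5,7,14,15,16,18]))), .t 7 (nat_lit 0x17b0039000400020df90df7) (.z (.edon 19 4 (.node 0 9 (.node 0 13 (.free 2 [0,14,17,19,20,21,22]) (.leaf [10,13,12,11])) (.leaf [1,3,6,9,2])) (.free 2 [4,5,7,8,15,16,18])))] (by decide +kernel) (by decide +kernel)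
theorem b173 : B 5536 5568 := Blk.of_chk [.t 13 (nat_lit 0x1294123411e011bd11bb112b0fe50fe30f140f120f050f03) (.z (.node 0 3 (.node 0 10 (.edon 12 19 (.leaf [11,16,18,15,12]) (.node 0 20 (.leaf [0,21,22]) (.leaf [13,19,20,17,14]))) (.free 2 [4,5,6,7,8,9,10])) (.free 1 [1,2,3]))), .t 10 (nat_lit 0x104110771075105410510c9a0c98112b112a) (.z (.node 0 7 (.node 0 11 (.edon 13 19 (.leaf [12,15,16,18,13]) (.free 2 [0,14,17,19,20,21,22])) (.leaf [8,11,10,9])) (.free 2 [1,2,3,4,5,6,7]))), .t 10 (nat_lit 0x12c912a01299129804e804e60377037502fa) (.z (.edon 0 3 (.free 1 [0,1,2]) (.node 4 19 (.edon 0 11 (.leaf [3,4,10,9,6]) (.edon 0 14 (.leaf [11,12,13]) (.leaf [14,17,20,22,21]))) (.free 2 [5,7,8,15,16,18,19])))), .t 13 (nat_lit 0xefa0f110f0f0f000eff11d311ce11cb0fe20fe1123b11e0) (.z (.node 0 3 (.node 0 10 (.node 13 17 (.node 0 20 (.leaf [0,21,22]) (.leaf [13,18,19,20,14]))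 (.leaf [11,15,16,17,12])) (.free 2 [4,5,6,7,8,9,10])) (.free 1 [1,2,3]))), .t 6 (nat_lit 0x51037103512a412a1) (.z (.edon 21 19 (.node 0 11 (.edon 15 21 (.leaf [15,16,18,17]) (.leaf [0,12,13,14,21])) (.edon 4 10 (.free 2 [4,5,6,7,8,9,11]) (.leaf [1,3,10,2]))) (.free 1 [19,20,22]))), .t 10 (nat_lit 0xf670f800f7e0f6f0f6d0fe20fe1110f110c) (.z (.node 0 7 (.edon 0 11 (.leaf [0,8,9,10]) (.edon 0 20 (.node 12 17 (.leaf [12,18,19,14]) (.leaf [11,15,16,17,13])) (.leaf [20,21,22]))) (.free 2 [1,2,3,4,5,6,7]))), .t 8 (nat_lit 0x11ef12a312a21228122711eb11ea) (.z (.node 0 7 (.edon 0 11 (.leaf [0,8,9,10]) (.edon 13 19 (.leaf [13,15,16,17,18]) (.free 2 [11,12,14,19,20,21,22]))) (.free 2 [1,2,3,4,5,6,7]))), .t 9 (nat_lit 0xba012a00c9a0c980bde0bdc0b980b96) (.z (.edon 0 7 (.free 2 [0,1,2,3,4,5,6]) (.edon 0 12 (.leaf [7,11,10,9,8]) (.node 14 19 (.leaf [14,20,22,21])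 (.free 2 [12,13,15,16,17,18,19]))))), .t 17 (nat_lit 0xf670a470f800f7e0f6f0f6d0a5e0a5b0a4e0a4b0fe20fe1110f110c0a830a81) (.z (.node 0 2 (.edon 0 6 (.leaf [0,3,4,5]) (.edon 0 11 (.leaf [6,7,10,9,8]) (.edon 0 20 (.node 12 17 (.leaf [12,18,19,14]) (.leaf [11,15,16,17,13])) (.leaf [20,21,22])))) (.free 1 [1,2]))), .t 15 (nat_lit 0xa4711ef0a5e0a5b0a4e0a4b12a312a21228122711eb11ea0a830a81) (.z (.node 0 2 (.edon 0 6 (.leaf [0,3,4,5]) (.edon 0 11 (.leaf [6,7,10,9,8]) (.edon 13 19 (.leaf [13,15,16,17,18]) (.free 2 [11,12,14,19,20,21,22])))) (.free 1 [1,2]))), .t 6 (nat_lit 0x12a0088a088802770275) (.z (.node 2 4 (.edon 0 12 (.node 2 8 (.leaf [0,2,9,10,11]) (.leaf [5,7,8,6])) (.node 14 19 (.leaf [14,20,22,21]) (.free 2 [12,13,15,16,17,18,19]))) (.free 1 [1,3,4]))), .t 6 (nat_lit 0x41037103512a412a1) (.z (.edon 21 19 (.node 0 11 (.edon 15 21 (.leaf [15,16,18,17])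 (.leaf [0,12,13,14,21])) (.edon 4 9 (.free 2 [4,5,6,7,8,10,11]) (.leaf [1,3,9,2]))) (.free 1 [19,20,22]))), .t 10 (nat_lit 0x88808980895088d088b12c908c808c70317) (.z (.edon 0 3 (.free 1 [0,1,2]) (.edon 0 12 (.node 4 6 (.leaf [3,4,11,10]) (.leaf [5,7,8,9,6])) (.node 17 19 (.leaf [17,20,22,21]) (.free 2 [12,13,14,15,16,18,19]))))), .t 10 (nat_lit 0x88808980895088d088b116908c808c70317) (.z (.edon 0 3 (.free 1 [0,1,2]) (.edon 0 12 (.node 4 6 (.leaf [3,4,11,10]) (.leaf [5,7,8,9,6])) (.node 12 19 (.leaf [12,20,22,21]) (.free 2 [13,14,15,16,17,18,19]))))), .t 6 (nat_lit 0x17c003a0005000212c9) (.z (.node 4 19 (.node 0 11 (.edon 0 17 (.leaf [0,12,13,14]) (.leaf [17,20,22,21])) (.edon 4 6 (.leaf [4,9,11]) (.leaf [1,3,6,10,2]))) (.free 2 [5,7,8,15,16,18,19]))), .t 5 (nat_lit 0x20657065212c9) (.z (.node 4 19 (.node 0 11 (.edon 0 17 (.leaf [0,12,13,14]) (.leaf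 [17,20,22,21])) (.edon 4 6 (.leaf [4,9,11,10]) (.leaf [1,3,6,2]))) (.free 2 [5,7,8,15,16,18,19]))), .t 9 (nat_lit 0x88808980895088d088b116908c808c7) (.z (.node 2 4 (.edon 0 12 (.node 2 9 (.leaf [0,2,10,11]) (.leaf [5,7,8,9,6])) (.node 12 19 (.leaf [12,20,22,21]) (.free 2 [13,14,15,16,17,18,19]))) (.free 1 [1,3,4]))), .t 6 (nat_lit 0x21105110411ef11ee) (.z (.edon 21 19 (.node 0 11 (.edon 13 17 (.leaf [13,15,16,18]) (.leaf [0,12,14,17,21])) (.edon 4 6 (.free 2 [4,5,7,8,9,10,11]) (.leaf [1,3,6,2]))) (.free 1 [19,20,22]))), .t 9 (nat_lit 0x1294115c111f110110ff11ef11ee0002) (.z (.node 20 0 (.edon 0 12 (.edon 4 6 (.free 2 [4,5,7,8,9,10,11]) (.leaf [1,3,6,2])) (.edon 13 19 (.leaf [13,15,16,18]) (.leaf [12,19,20,17,14]))) (.free 1 [0,21,22]))), .t 9 (nat_lit 0x88808980895088d088b12c908c808c7) (.z (.node 2 4 (.edon 0 12 (.node 2 9 (.leaf [0,2,10,11]) (.leaf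 [5,7,8,9,6])) (.node 17 19 (.leaf [17,20,22,21]) (.free 2 [12,13,14,15,16,18,19]))) (.free 1 [1,3,4]))), .t 7 (nat_lit 0x12c9036700b300b1003f003a) (.z (.edon 8 4 (.edon 0 12 (.node 2 10 (.leaf [0,2,9,11]) (.leaf [1,3,8,10,6])) (.node 17 19 (.leaf [17,20,22,21]) (.free 2 [12,13,14,15,16,18,19]))) (.free 1 [4,5,7]))), .t 6 (nat_lit 0x21105110411ef11ed) (.z (.edon 21 19 (.node 0 11 (.edon 13 17 (.leaf [13,16,18,15]) (.leaf [0,12,14,17,21])) (.edon 4 6 (.free 2 [4,5,7,8,9,10,11]) (.leaf [1,3,6,2]))) (.free 1 [19,20,22]))), .t 6 (nat_lit 0x17d003c0006000212c9) (.z (.node 4 19 (.node 0 11 (.edon 0 17 (.leaf [0,12,13,14]) (.leaf [17,20,22,21])) (.edon 4 6 (.leaf [4,9,10]) (.leaf [1,3,6,11,2]))) (.free 2 [5,7,8,15,16,18,19]))), .t 9 (nat_lit 0x1294115c111f110110ff11ef11ed0002) (.z (.node 20 0 (.edon 0 12 (.edon 4 6 (.free 2 [4,5,7,8,9,10,11]) (.leaf [1,3,6,2]))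 (.edon 13 19 (.leaf [13,16,18,15]) (.leaf [12,19,20,17,14]))) (.free 1 [0,21,22]))), .t 1 (nat_lit 0) (.cn 2 2), .t 14 (nat_lit 0x10c7110f110c10d210cf1146114412c903de0327032402f902ef) (.z (.edon 0 3 (.free 1 [0,1,2]) (.node 5 16 (.edon 0 9 (.leaf [3,4,5,8,6]) (.edon 0 12 (.leaf [9,10,11]) (.node 17 19 (.leaf [17,20,22,21]) (.leaf [12,15,18,19,14])))) (.leaf [7,13,16])))), .t 14 (nat_lit 0x12af12aa12a9090d05a705a2042e04290410040e000212ba12b4) (.z (.node 5 16 (.node 0 10 (.node 0 14 (.node 0 20 (.leaf [0,21,22]) (.leaf [15,18,19,20,17])) (.leaf [11,12,14])) (.node 3 9 (.leaf [1,3,6,2]) (.leaf [4,5,8,10,9]))) (.free 1 [7,13,16]))), .t 12 (nat_lit 0x12af12aa12a90222022100bf00be001d02ef12ba12b4) (.z (.node 5 16 (.node 0 10 (.node 0 14 (.node 0 20 (.leaf [0,21,22]) (.leaf [15,18,19,20,17])) (.leaf [11,12,14])) (.edon 3 9 (.leaf [3,4,5,8]) (.leaf [1,6,9,10,2])))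 (.free 1 [7,13,16]))), .t 6 (nat_lit 0x12c9088a088802770275) (.z (.node 2 4 (.edon 0 12 (.node 2 8 (.leaf [0,2,9,10,11]) (.leaf [5,7,8,6])) (.node 17 19 (.leaf [17,20,22,21]) (.free 2 [12,13,14,15,16,18,19]))) (.free 1 [1,3,4]))), .t 6 (nat_lit 0x20c990c9611051104) (.z (.edon 19 4 (.node 0 6 (.node 0 11 (.edon 19 21 (.leaf [19,20,22]) (.leaf [0,12,14,17,21])) (.leaf [8,10,11,9])) (.leaf [1,3,6,2])) (.free 2 [4,5,7,13,15,16,18]))), .t 6 (nat_lit 0x12c908cd08ca02270226) (.z (.node 2 4 (.edon 0 12 (.node 6 10 (.leaf [0,2,6,9,11]) (.leaf [5,7,10,8])) (.node 17 19 (.leaf [17,20,22,21]) (.free 2 [12,13,14,15,16,18,19]))) (.free 1 [1,3,4]))), .t 6 (nat_lit 0x12c908c908c602310230) (.z (.node 2 4 (.edon 0 12 (.node 6 9 (.leaf [0,2,6,10,11]) (.leaf [5,7,9,8])) (.node 17 19 (.leaf [17,20,22,21]) (.free 2 [12,13,14,15,16,18,19]))) (.free 1 [1,3,4])))] (by decide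 +kernel) (by decide +kernel)

end Pool.Agent.GCP.F7
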