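import Pool.Agent.GCP.F7Db

set_option autoImplicit false
set_option maxRecDepth 100000

/-! # Blocks F7B5 (generated) -/

namespace Pool.Agent.GCP.F7

open Pool.Agent.GCP DB

theorem b174 : B 5568 5600 := Blk.of_chk [.t 6 (nat_lit 0x20c9a0c9511051104) (.z (.edon 19 4 (.node 0 6 (.node 0 11 (.edon 19 21 (.leaf [19,20,22]) (.leaf [0,12,14,17,21])) (.leaf [8,9,11,10])) (.leaf [1,3,6,2])) (.free 2 [4,5,7,13,15,16,18]))), .t 9 (nat_lit 0x88b088a088812c908c908c608990897) (.z (.node 2 4 (.edon 0 12 (.node 2 9 (.leaf [0,2,10,11]) (.leaf [5,7,9,8,6])) (.node 17 19 (.leaf [17,20,22,21]) (.free 2 [12,13,14,15,16,18,19]))) (.free 1 [1,3,4]))), .t 9 (nat_lit 0x88b088a088812c908c908c608990897) (.z (.node 2 4 (.edon 0 12 (.node 2 8 (.leaf [0,2,10,11]) (.leaf [5,7,9,8,6])) (.node 17 19 (.leaf [17,20,22,21]) (.free 2 [12,13,14,15,16,18,19]))) (.free 1 [1,3,4]))), .t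 12 (nat_lit 0x12af12aa12a903de03d9018300430005000412ba12b4) (.z (.node 5 16 (.node 0 10 (.node 0 14 (.node 0 20 (.leaf [0,21,22]) (.leaf [15,18,19,20,17])) (.leaf [11,12,14])) (.node 3 6 (.leaf [1,3,9,10,2]) (.leaf [4,5,8,6]))) (.free 1 [7,13,16]))), .t 9 (nat_lit 0x4c004bb04b805a705a204e804e60006) (.z (.node 4 19 (.node 0 11 (.free 2 [0,12,14,17,20,21,22]) (.node 3 9 (.leaf [1,3,11,2]) (.leaf [4,8,10,9,6]))) (.free 2 [5,7,13,15,16,18,19]))), .t 9 (nat_lit 0x12c903de0327032402f902ef0bde0bdc) (.z (.edon 0 3 (.free 1 [0,1,2]) (.edon 0 12 (.edon 7 8 (.leaf [7,11,10,9]) (.leaf [3,4,5,8,6])) (.node 17 19 (.leaf [17,20,22,21]) (.free 2 [12,13,14,15,16,18,19]))))), .t 7 (nat_lit 0x12c912a0129912980210020f) (.z (.node 4 19 (.edon 0 10 (.node 2 4 (.leaf [0,2,6,8,9]) (.leaf [1,3,4])) (.edon 0 14 (.leaf [10,11,12]) (.leaf [14,17,20,22,21]))) (.free 2 [5,7,13,15,16,18,19]))),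 .t 10 (nat_lit 0x12c912a01299129804bc04ba0361035f02f9) (.z (.edon 0 3 (.free 1 [0,1,2]) (.node 4 19 (.edon 0 14 (.edon 0 10 (.leaf [3,4,9,8,6]) (.leaf [10,11,12])) (.leaf [14,17,20,22,21])) (.free 2 [5,7,13,15,16,18,19])))), .t 10 (nat_lit 0x1050104510400c9a0c95112b112910771076) (.z (.node 0 7 (.node 0 11 (.edon 12 19 (.leaf [12,13,16,18,15]) (.free 2 [0,14,17,19,20,21,22])) (.leaf [8,9,11,10])) (.free 2 [1,2,3,4,5,6,7]))), .t 9 (nat_lit 0x88e088d088b12c908dd08da08ae08ac) (.z (.node 2 4 (.edon 0 12 (.node 8 9 (.leaf [0,2,8,11]) (.leaf [5,7,10,9,6])) (.node 17 19 (.leaf [17,20,22,21]) (.free 2 [12,13,14,15,16,18,19]))) (.free 1 [1,3,4]))), .t 10 (nat_lit 0x1050104510400c990c96112b112910771076) (.z (.node 0 7 (.node 0 11 (.edon 12 19 (.leaf [12,13,16,18,15]) (.free 2 [0,14,17,19,20,21,22])) (.leaf [8,10,11,9])) (.free 2 [1,2,3,4,5,6,7]))), .t 6 (nat_lit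 0x12c908cd08ca02270226) (.z (.node 2 4 (.edon 0 12 (.node 6 8 (.leaf [0,2,6,9,11]) (.leaf [5,7,10,8])) (.node 17 19 (.leaf [17,20,22,21]) (.free 2 [12,13,14,15,16,18,19]))) (.free 1 [1,3,4]))), .t 14 (nat_lit 0x404042e04290411040c12af12aa12a905a705a5000212ba12b4) (.z (.node 5 16 (.node 0 10 (.node 0 14 (.node 0 20 (.leaf [0,21,22]) (.leaf [15,18,19,20,17])) (.leaf [11,12,14])) (.node 3 8 (.leaf [1,3,6,2]) (.leaf [4,5,10,9,8]))) (.free 1 [7,13,16]))), .t 4 (nat_lit 0x12c90c990c97) (.z (.node 0 7 (.edon 0 12 (.leaf [0,8,9,10,11]) (.node 17 19 (.leaf [17,20,22,21]) (.free 2 [12,13,14,15,16,18,19]))) (.free 2 [1,2,3,4,5,6,7]))), .t 9 (nat_lit 0x12c904c404c20368036602f908df08de) (.z (.edon 0 3 (.free 1 [0,1,2]) (.edon 0 12 (.edon 5 10 (.leaf [5,7,11,9]) (.leaf [3,4,10,8,6])) (.node 17 19 (.leaf [17,20,22,21]) (.free 2 [12,13,14,15,16,18,19]))))), .t 14 (nat_lit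 0x40c0409040412af12aa12a905a605a3042d042b000212ba12b4) (.z (.node 5 16 (.node 0 10 (.node 0 14 (.node 0 20 (.leaf [0,21,22]) (.leaf [15,18,19,20,17])) (.leaf [11,12,14])) (.node 3 8 (.leaf [1,3,6,2]) (.leaf [4,5,9,10,8]))) (.free 1 [7,13,16]))), .t 14 (nat_lit 0x3d90409040403e403df128e1289128604bc04ba0005129a1294) (.z (.node 5 16 (.node 0 10 (.node 0 13 (.node 0 20 (.leaf [0,21,22]) (.leaf [14,18,19,20,17])) (.leaf [11,12,13])) (.node 3 6 (.leaf [1,3,10,2]) (.leaf [4,5,9,8,6]))) (.free 1 [7,15,16]))), .t 10 (nat_lit 0xc9a0c951294115c111f110110ff11ef11ee) (.z (.node 0 7 (.node 0 11 (.node 0 20 (.leaf [0,21,22]) (.edon 13 19 (.leaf [13,15,16,18]) (.leaf [12,19,20,17,14]))) (.leaf [8,9,11,10])) (.free 2 [1,2,3,4,5,6,7]))), .t 12 (nat_lit 0x128e12891286017b0039000400020df90df7129a1294) (.z (.node 5 16 (.node 0 9 (.node 0 13 (.node 0 20 (.leaf [0,21,22])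 (.leaf [14,18,19,20,17])) (.leaf [10,13,12,11])) (.node 3 8 (.leaf [1,3,6,9,2]) (.leaf [4,5,8]))) (.free 1 [7,15,16]))), .t 13 (nat_lit 0xd900df90df70db50db30d890d8703de0327032402f902ef) (.z (.edon 0 3 (.free 1 [0,1,2]) (.node 5 16 (.edon 0 9 (.leaf [3,4,5,8,6]) (.edon 0 14 (.leaf [9,13,12,11,10]) (.free 2 [14,17,18,19,20,21,22]))) (.leaf [7,15,16])))), .t 12 (nat_lit 0x128e1289128603de03d90183004300050004129a1294) (.z (.node 5 16 (.node 0 10 (.node 0 13 (.node 0 20 (.leaf [0,21,22]) (.leaf [14,18,19,20,17])) (.leaf [11,12,13])) (.node 3 6 (.leaf [1,3,9,10,2]) (.leaf [4,5,8,6]))) (.free 1 [7,15,16]))), .t 11 (nat_lit 0x3df03de03d904bb04b80408040611ce11cb12c9) (.z (.node 0 3 (.node 5 16 (.node 0 9 (.edon 0 13 (.leaf [0,10,11,12]) (.node 17 19 (.leaf [17,20,22,21]) (.leaf [13,18,19,14]))) (.leaf [4,5,8,9,6])) (.leaf [7,15,16])) (.free 1 [1,2,3]))), .t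 10 (nat_lit 0x1050104510401294112b1129107710760006) (.z (.node 20 0 (.edon 0 12 (.node 3 9 (.leaf [1,3,11,2]) (.free 2 [4,5,6,7,8,9,10])) (.edon 12 19 (.leaf [12,13,16,18,15]) (.leaf [14,19,20,17]))) (.free 1 [0,21,22]))), .t 6 (nat_lit 0xa830a7e000611051104) (.z (.edon 19 4 (.node 0 11 (.edon 19 21 (.leaf [19,20,22]) (.leaf [0,12,14,17,21])) (.node 3 9 (.leaf [1,3,11,2]) (.leaf [6,8,10,9]))) (.free 2 [4,5,7,13,15,16,18]))), .t 12 (nat_lit 0x11ce11cb12c911691162116103de0327032402f902ef) (.z (.edon 0 3 (.free 1 [0,1,2]) (.node 5 16 (.edon 0 9 (.leaf [3,4,5,8,6]) (.edon 0 12 (.leaf [9,10,11]) (.node 17 19 (.leaf [12,17,20,22,21]) (.leaf [13,18,19,14])))) (.leaf [7,15,16])))), .t 6 (nat_lit 0x116908e508e20210020f) (.z (.node 2 4 (.edon 0 12 (.node 8 10 (.leaf [0,2,6,8,9]) (.leaf [5,7,11,10])) (.node 12 19 (.leaf [12,20,22,21]) (.free 2 [13,14,15,16,17,18,19])))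 (.free 1 [1,3,4]))), .t 9 (nat_lit 0x8ca08e508e208d108ce116909320930) (.z (.node 2 4 (.edon 0 12 (.node 6 8 (.leaf [0,2,6,9]) (.leaf [5,7,11,10,8])) (.node 12 19 (.leaf [12,20,22,21]) (.free 2 [13,14,15,16,17,18,19]))) (.free 1 [1,3,4]))), .t 6 (nat_lit 0x116908cd08ca02270226) (.z (.node 2 4 (.edon 0 12 (.node 6 8 (.leaf [0,2,6,9,11]) (.leaf [5,7,10,8])) (.node 12 19 (.leaf [12,20,22,21]) (.free 2 [13,14,15,16,17,18,19]))) (.free 1 [1,3,4]))), .t 6 (nat_lit 0x116908cd08ca02270226) (.z (.node 2 4 (.edon 0 12 (.node 6 10 (.leaf [0,2,6,9,11]) (.leaf [5,7,10,8])) (.node 12 19 (.leaf [12,20,22,21]) (.free 2 [13,14,15,16,17,18,19]))) (.free 1 [1,3,4]))), .t 6 (nat_lit 0x116908c908c602310230) (.z (.node 2 4 (.edon 0 12 (.node 6 8 (.leaf [0,2,6,10,11]) (.leaf [5,7,9,8])) (.node 12 19 (.leaf [12,20,22,21]) (.free 2 [13,14,15,16,17,18,19]))) (.free 1 [1,3,4]))),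 .t 9 (nat_lit 0x8c608df08de08d108ce116909150913) (.z (.node 2 4 (.edon 0 12 (.node 6 8 (.leaf [0,2,6,10]) (.leaf [5,7,11,9,8])) (.node 12 19 (.leaf [12,20,22,21]) (.free 2 [13,14,15,16,17,18,19]))) (.free 1 [1,3,4]))), .t 6 (nat_lit 0x116908df08de02150214) (.z (.node 2 4 (.edon 0 12 (.node 8 9 (.leaf [0,2,6,8,10]) (.leaf [5,7,11,9])) (.node 12 19 (.leaf [12,20,22,21]) (.free 2 [13,14,15,16,17,18,19]))) (.free 1 [1,3,4])))] (by decide +kernel) (by decide +kernel)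
theorem b175 : B 5600 5632 := Blk.of_chk [.t 6 (nat_lit 0x116908c908c602310230) (.z (.node 2 4 (.edon 0 12 (.node 6 9 (.leaf [0,2,6,10,11]) (.leaf [5,7,9,8])) (.node 12 19 (.leaf [12,20,22,21]) (.free 2 [13,14,15,16,17,18,19]))) (.free 1 [1,3,4]))), .t 6 (nat_lit 0x20c9a0c9811051104) (.z (.edon 19 4 (.node 0 6 (.node 0 11 (.edon 19 21 (.leaf [19,20,22]) (.leaf [0,12,14,17,21])) (.leaf [8,11,10,9])) (.leaf [1,3,6,2])) (.free 2 [4,5,7,13,15,16,18]))), .t 6 (nat_lit 0x11690222022108d108ce) (.z (.node 2 4 (.edon 0 12 (.edon 5 9 (.leaf [5,7,11,8]) (.leaf [0,2,6,9,10])) (.node 12 19 (.leaf [12,20,22,21]) (.free 2 [13,14,15,16,17,18,19]))) (.free 1 [1,3,4]))), .t 6 (nat_lit 0x1169088a088802770275) (.z (.node 2 4 (.edon 0 12 (.node 2 8 (.leaf [0,2,9,10,11]) (.leaf [5,7,8,6])) (.node 12 19 (.leaf [12,20,22,21]) (.free 2 [13,14,15,16,17,18,19]))) (.free 1 [1,3,4]))),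 .t 1 (nat_lit 0) (.cn 2 2), .t 1 (nat_lit 0) (.cn 2 3), .t 10 (nat_lit 0x12c911691162116104c404c20368036602f9) (.z (.edon 0 3 (.free 1 [0,1,2]) (.node 4 19 (.edon 0 11 (.leaf [3,4,10,8,6]) (.edon 11 17 (.leaf [11,13,14]) (.leaf [12,17,20,22,21]))) (.free 2 [5,7,9,15,16,18,19])))), .t 7 (nat_lit 0x12c911691162116102150214) (.z (.node 4 19 (.edon 0 11 (.node 2 4 (.leaf [0,2,6,8,10]) (.leaf [1,3,4])) (.edon 11 17 (.leaf [11,13,14]) (.leaf [12,17,20,22,21]))) (.free 2 [5,7,9,15,16,18,19]))), .t 14 (nat_lit 0x117b11ce11cb1186118312c91211120f03de0327032402f902ef) (.z (.edon 0 3 (.free 1 [0,1,2]) (.node 5 16 (.edon 0 10 (.leaf [3,4,5,8,6]) (.edon 0 13 (.leaf [10,11,12]) (.edon 14 20 (.leaf [13,15,18,19,14]) (.leaf [17,20,22,21])))) (.leaf [7,9,16])))), .t 7 (nat_lit 0xc9a0c951105110411ef11ed) (.z (.node 0 7 (.node 0 11 (.edon 13 19 (.leaf [13,16,18,15]) (.edon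 19 21 (.leaf [19,20,22]) (.leaf [0,12,14,17,21]))) (.leaf [8,9,11,10])) (.free 2 [1,2,3,4,5,6,7]))), .t 1 (nat_lit 0) (.cn 2 2), .t 10 (nat_lit 0x116b11a1119f117e117b0c9a0c9511ef11ee) (.z (.node 0 7 (.node 0 11 (.edon 14 19 (.leaf [13,15,16,18,14]) (.free 2 [0,12,17,19,20,21,22])) (.leaf [8,9,11,10])) (.free 2 [1,2,3,4,5,6,7]))), .t 9 (nat_lit 0x8ca08c908c612c9090c090908dc08db) (.z (.node 0 3 (.edon 0 12 (.node 4 8 (.leaf [0,4,6,11]) (.leaf [5,7,9,10,8])) (.node 17 19 (.leaf [17,20,22,21]) (.free 2 [12,13,14,15,16,18,19]))) (.free 1 [1,2,3]))), .t 10 (nat_lit 0xc9a0c951294115c111f110110ff11ef11ed) (.z (.node 0 7 (.node 0 11 (.node 0 20 (.leaf [0,21,22]) (.edon 13 19 (.leaf [13,16,18,15]) (.leaf [12,19,20,17,14]))) (.leaf [8,9,11,10])) (.free 2 [1,2,3,4,5,6,7]))), .t 10 (nat_lit 0xc9a0c951294115c111f110110ff11ef11ed) (.z (.node 0 7 (.node 0 11 (.node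 0 20 (.leaf [0,21,22]) (.edon 15 19 (.leaf [13,16,18,15]) (.leaf [12,19,20,17,14]))) (.leaf [8,9,11,10])) (.free 2 [1,2,3,4,5,6,7]))), .t 10 (nat_lit 0x1009100408c908c6050b05090386038502fc) (.z (.edon 0 16 (.edon 0 3 (.leaf [0,1,2]) (.edon 0 12 (.node 4 8 (.leaf [3,4,11,10,6]) (.leaf [5,7,9,8])) (.leaf [12,13,15,14]))) (.free 2 [16,17,18,19,20,21,22]))), .t 7 (nat_lit 0x17c003a0005000212651264) (.z (.edon 19 4 (.node 0 10 (.node 0 13 (.edon 19 21 (.leaf [19,20,22]) (.leaf [0,14,15,17,21])) (.leaf [11,12,13])) (.leaf [1,3,6,10,2])) (.free 2 [4,5,7,8,9,16,18]))), .t 5 (nat_lit 0xc9a0c9510081006) (.z (.node 0 7 (.node 0 11 (.edon 0 16 (.leaf [0,12,13,14,15]) (.free 2 [16,17,18,19,20,21,22])) (.leaf [8,9,11,10])) (.free 2 [1,2,3,4,5,6,7]))), .t 9 (nat_lit 0x12c908c908c6050b05090386038502fc) (.z (.edon 0 3 (.free 1 [0,1,2]) (.edon 0 12 (.node 4 8 (.leaf [3,4,11,10,6])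 (.leaf [5,7,9,8])) (.node 17 19 (.leaf [17,20,22,21]) (.free 2 [12,13,14,15,16,18,19]))))), .t 10 (nat_lit 0x17c003a0005000212b41294127912621260) (.z (.edon 19 4 (.node 0 10 (.node 0 13 (.node 0 20 (.leaf [0,21,22]) (.leaf [14,19,20,17,15])) (.leaf [11,12,13])) (.leaf [1,3,6,10,2])) (.free 2 [4,5,7,8,9,16,18]))), .t 1 (nat_lit 0) (.cn 2 3), .t 12 (nat_lit 0x12af12aa12a9017c003a000500020e9f0e9d12ba12b4) (.z (.node 5 16 (.node 0 10 (.node 0 14 (.node 0 20 (.leaf [0,21,22]) (.leaf [15,18,19,20,17])) (.leaf [11,14,13,12])) (.node 3 8 (.leaf [1,3,6,10,2]) (.leaf [4,5,8]))) (.free 1 [7,9,16]))), .t 8 (nat_lit 0x17c003a0005000212c9126c1269) (.z (.node 5 16 (.node 0 10 (.edon 0 14 (.leaf [0,11,12,13]) (.edon 15 20 (.leaf [14,18,19,15]) (.leaf [17,20,22,21]))) (.node 3 8 (.leaf [1,3,6,10,2]) (.leaf [4,5,8]))) (.free 1 [7,9,16]))), .t 11 (nat_lit 0x1182117f117a03de03d91211120e11ce11cc12c9)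 (.z (.node 0 3 (.node 5 16 (.node 0 8 (.edon 0 13 (.leaf [0,10,11,12]) (.node 17 19 (.leaf [17,20,22,21]) (.leaf [13,14,18,19,15]))) (.leaf [4,5,8,6])) (.leaf [7,9,16])) (.free 1 [1,2,3]))), .t 1 (nat_lit 0) (.cn 1 3), .t 1 (nat_lit 0) (.cn 1 3), .t 6 (nat_lit 0x20411040c0e9e0e9c) (.z (.node 5 16 (.node 0 10 (.edon 0 15 (.leaf [0,11,12,13,14]) (.free 2 [15,17,18,19,20,21,22])) (.edon 4 6 (.leaf [4,5,10,8]) (.leaf [1,3,6,2]))) (.free 1 [7,9,16]))), .t 9 (nat_lit 0x40c0450044b04170413000205dd05db) (.z (.node 5 16 (.node 0 11 (.edon 0 15 (.leaf [0,12,13,14]) (.free 2 [15,17,18,19,20,21,22])) (.edon 4 6 (.leaf [4,5,11,10,8]) (.leaf [1,3,6,2]))) (.free 1 [7,9,16]))), .t 8 (nat_lit 0x3de03d90dfe0dfc1211120e12c9) (.z (.node 0 3 (.node 5 16 (.node 0 8 (.edon 13 14 (.node 17 19 (.leaf [17,20,22,21]) (.leaf [13,18,19,15])) (.leaf [0,10,11,12,14])) (.leaf [4,5,8,6]))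 (.leaf [7,9,16])) (.free 1 [1,2,3]))), .t 8 (nat_lit 0xea30e9e0e9b0f420f3d0ed50ed3) (.z (.node 0 7 (.edon 0 11 (.leaf [0,8,9,10]) (.edon 0 16 (.leaf [11,13,15,14,12]) (.free 2 [16,17,18,19,20,21,22]))) (.free 2 [1,2,3,4,5,6,7]))), .t 10 (nat_lit 0xc950cbb0cb60ca10c9d0cf60cf411ef11ed) (.z (.node 0 7 (.node 0 12 (.edon 15 19 (.leaf [13,16,18,15]) (.free 2 [0,14,17,19,20,21,22])) (.leaf [8,9,12,11,10])) (.free 2 [1,2,3,4,5,6,7]))), .t 7 (nat_lit 0xc9a0c951105110411ef11ed) (.z (.node 0 7 (.node 0 11 (.edon 15 19 (.leaf [13,16,18,15]) (.edon 19 21 (.leaf [19,20,22]) (.leaf [0,12,14,17,21]))) (.leaf [8,9,11,10])) (.free 2 [1,2,3,4,5,6,7])))] (by decide +kernel) (by decide +kernel)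
theorem b176 : B 5632 5664 := Blk.of_chk [.t 1 (nat_lit 0) (.cn 2 3), .t 6 (nat_lit 0x12c91009100402150214) (.z (.node 4 19 (.edon 0 12 (.node 2 4 (.leaf [0,2,6,8,10]) (.leaf [1,3,4])) (.edon 0 17 (.leaf [12,13,15,14]) (.leaf [17,20,22,21]))) (.free 2 [5,7,9,11,16,18,19]))), .t 5 (nat_lit 0x12c912a012991298) (.z (.node 0 7 (.edon 0 11 (.leaf [0,8,9,10]) (.node 14 19 (.leaf [14,17,20,22,21]) (.free 2 [11,12,13,15,16,18,19]))) (.free 2 [1,2,3,4,5,6,7]))), .t 14 (nat_lit 0x126c1211120e11ce11cb1187118512c903de0327032402f902ef) (.z (.edon 0 3 (.free 1 [0,1,2]) (.node 5 16 (.edon 0 10 (.leaf [3,4,5,8,6]) (.edon 0 13 (.leaf [10,11,12]) (.node 17 19 (.leaf [17,20,22,21]) (.leaf [13,18,19,15,14])))) (.leaf [7,9,16])))), .t 17 (nat_lit 0xcb60ca40c9d0c9a0c950cfb0cd60cd30cc00cbe0df90df70d280d260cf60cf4) (.z (.node 7 0 (.free 2 [1,2,3,4,5,6,7]) (.node 13 0 (.leaf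 [8,9,13,12,11,10]) (.free 3 [0,14,15,16,17,18,19,20,21,22])))), .t 7 (nat_lit 0xc9a0c951097109512491247) (.z (.node 0 7 (.node 0 11 (.edon 14 19 (.leaf [14,16,18,15]) (.edon 19 21 (.leaf [19,20,22]) (.leaf [0,12,13,17,21]))) (.leaf [8,9,11,10])) (.free 2 [1,2,3,4,5,6,7]))), .t 7 (nat_lit 0xc9a0c951105110411ef11ee) (.z (.node 0 7 (.node 0 11 (.edon 13 19 (.leaf [13,15,16,18]) (.edon 19 21 (.leaf [19,20,22]) (.leaf [0,12,14,17,21]))) (.leaf [8,9,11,10])) (.free 2 [1,2,3,4,5,6,7]))), .t 7 (nat_lit 0x11690e990e5e0e5d0210020f) (.z (.node 2 4 (.edon 5 16 (.leaf [5,7,11]) (.edon 0 10 (.leaf [0,2,6,8,9]) (.node 12 19 (.leaf [10,12,20,22,21]) (.free 2 [13,14,15,16,17,18,19])))) (.free 1 [1,3,4]))), .t 10 (nat_lit 0x1105110411ef0fe50fe30f820f810f740f72) (.z (.node 0 3 (.node 0 10 (.edon 13 19 (.leaf [11,16,18,15,13]) (.edon 19 21 (.leaf [19,20,22]) (.leaf [0,12,14,17,21])))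 (.free 2 [4,5,6,7,8,9,10])) (.free 1 [1,2,3]))), .t 8 (nat_lit 0xd880cf50cf20cba0cb70ca10c9f) (.z (.node 0 7 (.node 0 12 (.edon 0 16 (.leaf [0,13,14,15]) (.free 2 [16,17,18,19,20,21,22])) (.leaf [8,11,12,10,9])) (.free 2 [1,2,3,4,5,6,7]))), .t 7 (nat_lit 0xc9a0c981105110411ef11ed) (.z (.node 0 7 (.node 0 11 (.edon 15 19 (.leaf [13,16,18,15]) (.edon 19 21 (.leaf [19,20,22]) (.leaf [0,12,14,17,21]))) (.leaf [8,11,10,9])) (.free 2 [1,2,3,4,5,6,7]))), .t 13 (nat_lit 0xda40da20d9e0dd30dd10dae0dad03de0327032402f902ef) (.z (.edon 0 3 (.free 1 [0,1,2]) (.node 5 16 (.edon 0 9 (.leaf [3,4,5,8,6]) (.edon 0 15 (.leaf [9,10,13,14,12]) (.free 2 [15,17,18,19,20,21,22]))) (.leaf [7,11,16])))), .t 15 (nat_lit 0x12490fe50fe30fc40fc20fb40fb20b980a830a7e0a5e0a5b0a4d0a4c) (.z (.node 0 2 (.edon 0 6 (.leaf [0,3,4,5]) (.edon 0 11 (.leaf [6,7,8,10,9]) (.edon 14 19 (.leaf [11,16,18,15,14])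 (.free 2 [12,13,17,19,20,21,22])))) (.free 1 [1,2]))), .t 10 (nat_lit 0x21508fd08fc0a820a80024e024c0210020f) (.z (.edon 0 16 (.node 4 13 (.node 0 10 (.leaf [0,11,12,14]) (.node 2 4 (.leaf [2,6,8,9,10]) (.leaf [1,3,4]))) (.leaf [5,7,15,13])) (.free 2 [16,17,18,19,20,21,22]))), .t 5 (nat_lit 0x8d808d70e9e0e9c) (.z (.edon 0 16 (.node 4 8 (.node 0 10 (.leaf [0,11,12,13,14]) (.free 2 [1,2,3,4,6,9,10])) (.leaf [5,7,15,8])) (.free 2 [16,17,18,19,20,21,22]))), .t 10 (nat_lit 0xca10d890d870cf60cf40c9a0c98116e116b) (.z (.node 0 7 (.node 0 12 (.node 0 16 (.free 2 [0,17,18,19,20,21,22]) (.leaf [13,15,16,14])) (.leaf [8,12,11,10,9])) (.free 2 [1,2,3,4,5,6,7]))), .t 9 (nat_lit 0x12c908d108ce04e804e60377037502fa) (.z (.edon 0 3 (.free 1 [0,1,2]) (.edon 0 12 (.node 4 8 (.leaf [3,4,10,9,6]) (.leaf [5,7,11,8])) (.node 17 19 (.leaf [17,20,22,21]) (.free 2 [12,13,14,15,16,18,19]))))),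 .t 9 (nat_lit 0x2090d05a705a2042e04290410040e) (.z (.node 5 16 (.node 0 10 (.edon 0 15 (.leaf [0,12,13,14]) (.free 2 [15,17,18,19,20,21,22])) (.edon 4 6 (.leaf [4,5,8,10,9]) (.leaf [1,3,6,2]))) (.free 1 [7,11,16]))), .t 7 (nat_lit 0x17e003d0007000212651264) (.z (.edon 19 4 (.node 0 12 (.edon 19 21 (.leaf [19,20,22]) (.leaf [0,14,15,17,21])) (.node 6 9 (.leaf [1,3,6,12,2]) (.leaf [8,9,10]))) (.free 2 [4,5,7,11,13,16,18]))), .t 9 (nat_lit 0x3de03d9126c126912c91242123a1239) (.z (.node 0 3 (.node 5 16 (.node 0 8 (.edon 0 13 (.leaf [0,9,10,12]) (.node 17 19 (.leaf [13,17,20,22,21]) (.leaf [14,18,19,15]))) (.leaf [4,5,8,6])) (.leaf [7,11,16])) (.free 1 [1,2,3]))), .t 15 (nat_lit 0x3df03de03d912af12aa12a904bb04b8040804060e3c0e3a12ba12b4) (.z (.node 0 3 (.node 5 16 (.node 0 9 (.node 0 14 (.node 0 20 (.leaf [0,21,22]) (.leaf [15,18,19,20,17])) (.leaf [10,14,13,12]))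 (.leaf [4,5,8,9,6])) (.leaf [7,11,16])) (.free 1 [1,2,3]))), .t 5 (nat_lit 0x8d108ce10081006) (.z (.edon 0 16 (.node 0 11 (.leaf [0,12,13,14,15]) (.node 4 8 (.free 2 [1,2,3,4,6,9,10]) (.leaf [5,7,11,8]))) (.free 2 [16,17,18,19,20,21,22]))), .t 12 (nat_lit 0x12af12aa12a9017b0039000400020e3c0e3a12ba12b4) (.z (.node 5 16 (.node 0 9 (.node 0 14 (.node 0 20 (.leaf [0,21,22]) (.leaf [15,18,19,20,17])) (.leaf [10,14,13,12])) (.node 3 8 (.leaf [1,3,6,9,2]) (.leaf [4,5,8]))) (.free 1 [7,11,16]))), .t 1 (nat_lit 0) (.fa 2), .t 12 (nat_lit 0x186004500070004124511eb11e9119d119b11771175) (.z (.edon 0 20 (.node 0 12 (.node 0 17 (.leaf [0,18,19]) (.leaf [13,16,17,15,14])) (.edon 4 9 (.free 2 [4,5,6,7,8,10,11]) (.leaf [1,3,9,12,2]))) (.free 1 [20,21,22]))), .t 7 (nat_lit 0x17b00390004000204170413) (.z (.node 5 16 (.node 0 11 (.edon 0 15 (.leaf [0,12,13,14]) (.free 2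 [15,17,18,19,20,21,22])) (.edon 4 6 (.leaf [4,5,11,8]) (.leaf [1,3,6,9,2]))) (.free 1 [7,10,16]))), .t 14 (nat_lit 0x126c1211120e11ce11cb1187118512c903de0327032402f902ef) (.z (.edon 0 3 (.free 1 [0,1,2]) (.node 5 16 (.edon 0 9 (.leaf [3,4,5,8,6]) (.edon 0 13 (.leaf [9,11,12]) (.node 17 19 (.leaf [17,20,22,21]) (.leaf [13,18,19,15,14])))) (.leaf [7,10,16])))), .t 7 (nat_lit 0x17b00390004000212651264) (.z (.edon 19 4 (.node 0 12 (.edon 19 21 (.leaf [19,20,22]) (.leaf [0,14,15,17,21])) (.edon 8 9 (.leaf [8,11,12]) (.leaf [1,3,6,9,2]))) (.free 2 [4,5,7,10,13,16,18]))), .t 7 (nat_lit 0x17e003d0007000212651264) (.z (.edon 19 4 (.node 0 12 (.edon 19 21 (.leaf [19,20,22]) (.leaf [0,14,15,17,21])) (.node 6 9 (.leaf [1,3,6,12,2]) (.leaf [8,9,11]))) (.free 2 [4,5,7,10,13,16,18]))), .t 1 (nat_lit 0) (.cn 2 3), .t 5 (nat_lit 0xc990c9610081006) (.z (.node 0 7 (.node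 0 11 (.edon 0 16 (.leaf [0,12,13,14,15]) (.free 2 [16,17,18,19,20,21,22])) (.leaf [8,10,11,9])) (.free 2 [1,2,3,4,5,6,7]))), .t 7 (nat_lit 0xc990c961140113f11a111a0) (.z (.node 0 7 (.node 0 11 (.edon 13 19 (.leaf [13,14,16,18]) (.edon 19 21 (.leaf [19,20,22]) (.leaf [0,12,15,17,21]))) (.leaf [8,10,11,9])) (.free 2 [1,2,3,4,5,6,7])))] (by decide +kernel) (by decide +kernel)
theorem b177 : B 5664 5696 := Blk.of_chk [.t 9 (nat_lit 0x12c908cd08ca04f004ee037d037b02fa) (.z (.edon 0 3 (.free 1 [0,1,2]) (.edon 0 12 (.node 4 8 (.leaf [3,4,11,9,6]) (.leaf [5,7,10,8])) (.node 17 19 (.leaf [17,20,22,21]) (.free 2 [12,13,14,15,16,18,19]))))), .t 12 (nat_lit 0x12af12aa12a912ba12b411e803de0327032402f902ef) (.z (.edon 0 3 (.free 1 [0,1,2]) (.node 5 16 (.edon 0 9 (.leaf [3,4,5,8,6]) (.edon 0 13 (.leaf [9,11,12]) (.node 13 20 (.leaf [13,22,21,14]) (.leaf [15,18,19,20,17]))))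 (.leaf [7,10,16])))), .t 12 (nat_lit 0x11c611c311c012ba123a11e803de0327032402f902ef) (.z (.edon 0 3 (.free 1 [0,1,2]) (.node 5 16 (.edon 0 9 (.leaf [3,4,5,8,6]) (.edon 0 13 (.leaf [9,11,12]) (.node 13 20 (.leaf [13,17,22,21,14]) (.leaf [15,18,19,20])))) (.leaf [7,10,16])))), .t 10 (nat_lit 0xc9e0c990c960cf60cf10cbb0cb911ef11ed) (.z (.node 0 7 (.node 0 12 (.edon 15 19 (.leaf [13,16,18,15]) (.free 2 [0,14,17,19,20,21,22])) (.leaf [8,10,12,11,9])) (.free 2 [1,2,3,4,5,6,7]))), .t 1 (nat_lit 0) (.fa 3), .t 10 (nat_lit 0x100910040c990bdd0bda0bb00bad0ba00b9e) (.z (.edon 0 16 (.edon 0 7 (.free 2 [0,1,2,3,4,5,6]) (.edon 0 12 (.leaf [7,10,11,9,8]) (.leaf [12,13,15,14]))) (.free 2 [16,17,18,19,20,21,22]))), .t 1 (nat_lit 0) (.cn 2 2), .t 7 (nat_lit 0xc990c961105110411ef11ed) (.z (.node 0 7 (.node 0 11 (.edon 15 19 (.leaf [13,16,18,15]) (.edon 19 21 (.leaf [19,20,22])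 (.leaf [0,12,14,17,21]))) (.leaf [8,10,11,9])) (.free 2 [1,2,3,4,5,6,7]))), .t 5 (nat_lit 0xc990c9611051104) (.z (.node 0 7 (.node 0 11 (.edon 13 17 (.free 2 [13,15,16,18,19,20,22]) (.leaf [0,12,14,17,21])) (.leaf [8,10,11,9])) (.free 2 [1,2,3,4,5,6,7]))), .t 1 (nat_lit 0) (.cn 2 3), .t 7 (nat_lit 0x12c9116911621161088a0888) (.z (.node 2 4 (.edon 0 11 (.node 2 8 (.leaf [0,2,9,10]) (.leaf [5,7,8,6])) (.node 17 19 (.leaf [12,17,20,22,21]) (.free 2 [11,13,14,15,16,18,19]))) (.free 1 [1,3,4]))), .t 6 (nat_lit 0x212c9116911621161) (.z (.edon 19 4 (.node 0 6 (.edon 0 12 (.leaf [0,9,10,11]) (.node 17 19 (.leaf [12,17,20,22,21]) (.leaf [13,15,19]))) (.leaf [1,3,6,2])) (.free 2 [4,5,7,8,14,16,18]))), .t 5 (nat_lit 0xc9a0c9810081006) (.z (.node 0 7 (.node 0 11 (.edon 0 16 (.leaf [0,12,13,14,15]) (.free 2 [16,17,18,19,20,21,22])) (.leaf [8,11,10,9])) (.free 2 [1,2,3,4,5,6,7]))),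 .t 10 (nat_lit 0x117a116f116a0c9a0c9811ef11ed11a111a0) (.z (.node 0 7 (.node 0 11 (.edon 15 19 (.leaf [13,14,16,18,15]) (.free 2 [0,12,17,19,20,21,22])) (.leaf [8,11,10,9])) (.free 2 [1,2,3,4,5,6,7]))), .t 10 (nat_lit 0x12af12aa12a90c9a0c981011100f12ba12b4) (.z (.node 0 7 (.node 0 11 (.node 0 20 (.leaf [0,21,22]) (.node 15 16 (.leaf [15,18,19,20,17]) (.leaf [12,16,14,13]))) (.leaf [8,11,10,9])) (.free 2 [1,2,3,4,5,6,7]))), .t 7 (nat_lit 0x12c911691162116102220221) (.z (.node 4 19 (.edon 0 11 (.node 2 4 (.leaf [0,2,6,9,10]) (.leaf [1,3,4])) (.edon 11 17 (.leaf [11,13,15]) (.leaf [12,17,20,22,21]))) (.free 2 [5,7,8,14,16,18,19]))), .t 1 (nat_lit 0) (.cn 2 3), .t 10 (nat_lit 0x4300260005000412b41294127912621260) (.z (.edon 19 4 (.node 0 10 (.node 0 13 (.node 0 20 (.leaf [0,21,22]) (.leaf [14,19,20,17,15])) (.leaf [11,12,13])) (.leaf [1,3,10,9,2])) (.free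 2 [4,5,6,7,8,16,18]))), .t 9 (nat_lit 0x116908c808c7050b05090386038502fc) (.z (.edon 0 3 (.free 1 [0,1,2]) (.edon 0 12 (.node 4 9 (.leaf [3,4,11,10,6]) (.leaf [5,7,8,9])) (.node 12 19 (.leaf [12,20,22,21]) (.free 2 [13,14,15,16,17,18,19]))))), .t 1 (nat_lit 0) (.cn 2 3), .t 11 (nat_lit 0x12af12aa12a903eb0332032f02fc02f212ba12b4) (.z (.node 5 16 (.node 0 14 (.node 0 20 (.leaf [0,21,22]) (.leaf [15,18,19,20,17])) (.node 1 10 (.free 2 [1,2,9,11,12,13,14]) (.leaf [3,4,5,10,6]))) (.free 1 [7,8,16]))), .t 7 (nat_lit 0x17b003900040002120b1209) (.z (.edon 19 4 (.node 0 9 (.node 0 12 (.edon 19 21 (.leaf [19,20,22]) (.leaf [0,13,15,17,21])) (.leaf [10,11,12])) (.leaf [1,3,6,9,2])) (.free 2 [4,5,7,8,14,16,18]))), .t 10 (nat_lit 0x17b00390004000212b41234121f12071206) (.z (.edon 19 4 (.node 0 9 (.node 0 12 (.node 0 20 (.leaf [0,21,22]) (.leaf [13,19,20,17,15])) (.leaf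 [10,11,12])) (.leaf [1,3,6,9,2])) (.free 2 [4,5,7,8,14,16,18]))), .t 4 (nat_lit 0x210081006) (.z (.edon 0 16 (.node 0 11 (.leaf [0,12,13,14,15]) (.edon 4 6 (.free 2 [4,5,7,8,9,10,11]) (.leaf [1,3,6,2]))) (.free 2 [16,17,18,19,20,21,22]))), .t 5 (nat_lit 0x20656065312c9) (.z (.node 4 19 (.node 0 11 (.edon 0 17 (.leaf [0,12,14,15]) (.leaf [17,20,22,21])) (.edon 4 6 (.leaf [4,10,11,9]) (.leaf [1,3,6,2]))) (.free 2 [5,7,8,13,16,18,19]))), .t 11 (nat_lit 0x3df042e042903eb03e604e804e61211120e12c9) (.z (.node 0 3 (.node 5 16 (.node 0 10 (.edon 13 14 (.node 17 19 (.leaf [17,20,22,21]) (.leaf [13,18,19,15])) (.leaf [0,11,12,14])) (.leaf [4,5,10,9,6])) (.leaf [7,8,16])) (.free 1 [1,2,3]))), .t 1 (nat_lit 0) (.fa 3), .t 7 (nat_lit 0x17b00390004000212651264) (.z (.edon 19 4 (.node 0 9 (.node 0 12 (.edon 19 21 (.leaf [19,20,22]) (.leaf [0,14,15,17,21])) (.leaf [10,11,12]))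 (.leaf [1,3,6,9,2])) (.free 2 [4,5,7,8,13,16,18]))), .t 10 (nat_lit 0x17b00390004000212b41294127912621260) (.z (.edon 19 4 (.node 0 9 (.node 0 12 (.node 0 20 (.leaf [0,21,22]) (.leaf [14,19,20,17,15])) (.leaf [10,11,12])) (.leaf [1,3,6,9,2])) (.free 2 [4,5,7,8,13,16,18]))), .t 1 (nat_lit 0) (.cn 2 2), .t 14 (nat_lit 0x126c1211120e11ce11cb1187118512c903e4032d032902fa02f0) (.z (.edon 0 3 (.free 1 [0,1,2]) (.node 5 16 (.edon 0 10 (.leaf [3,4,5,9,6]) (.edon 0 13 (.leaf [10,11,12]) (.node 17 19 (.leaf [17,20,22,21]) (.leaf [13,18,19,15,14])))) (.leaf [7,8,16])))), .t 4 (nat_lit 0x510081006) (.z (.edon 0 16 (.node 0 11 (.leaf [0,12,13,14,15]) (.edon 4 10 (.free 2 [4,5,6,7,8,9,11]) (.leaf [1,3,10,2]))) (.free 2 [16,17,18,19,20,21,22])))] (by decide +kernel) (by decide +kernel)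
theorem b178 : B 5696 5728 := Blk.of_chk [.t 8 (nat_lit 0xea30e9e0e9b0f420f3d0ed50ed3) (.z (.edon 0 16 (.edon 0 11 (.node 2 8 (.leaf [0,2,9,10]) (.free 2 [1,3,4,5,6,7,8])) (.leaf [11,13,15,14,12])) (.free 2 [16,17,18,19,20,21,22]))), .t 8 (nat_lit 0x17c003a000500021211120e12c9) (.z (.node 5 16 (.node 0 10 (.edon 13 14 (.node 17 19 (.leaf [17,20,22,21]) (.leaf [13,18,19,15])) (.leaf [0,11,12,14])) (.node 3 9 (.leaf [1,3,6,10,2]) (.leaf [4,5,9]))) (.free 1 [7,8,16]))), .t 12 (nat_lit 0x88808980895088d088b08c808c71105110411ef11ed) (.z (.node 2 4 (.node 0 11 (.edon 15 19 (.leaf [13,16,18,15]) (.edon 19 21 (.leaf [19,20,22]) (.leaf [0,12,14,17,21]))) (.node 2 9 (.leaf [2,10,11]) (.leaf [5,7,8,9,6]))) (.free 1 [1,3,4]))), .t 12 (nat_lit 0x3e603e403df04e704e4042d042b1105110411ef11ed) (.z (.node 0 3 (.node 0 11 (.edon 15 19 (.leaf [13,16,18,15]) (.edon 19 21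 (.leaf [19,20,22]) (.leaf [0,12,14,17,21]))) (.edon 7 9 (.leaf [7,8,11]) (.leaf [4,5,9,10,6]))) (.free 1 [1,2,3]))), .t 11 (nat_lit 0x3e603e403df04e704e4042d042b1211120e12c9) (.z (.node 0 3 (.node 5 16 (.node 0 10 (.edon 13 14 (.node 17 19 (.leaf [17,20,22,21]) (.leaf [13,18,19,15])) (.leaf [0,11,12,14])) (.leaf [4,5,9,10,6])) (.leaf [7,8,16])) (.free 1 [1,2,3]))), .t 8 (nat_lit 0x3e403df0dfe0dfc1211120e12c9) (.z (.node 0 3 (.node 5 16 (.node 0 9 (.edon 13 14 (.node 17 19 (.leaf [17,20,22,21]) (.leaf [13,18,19,15])) (.leaf [0,10,11,12,14])) (.leaf [4,5,9,6])) (.leaf [7,8,16])) (.free 1 [1,2,3]))), .t 10 (nat_lit 0xca10d890d870cf60cf40c9a0c9811ef11ed) (.z (.node 0 7 (.node 0 12 (.edon 15 19 (.leaf [13,16,18,15]) (.free 2 [0,14,17,19,20,21,22])) (.leaf [8,12,11,10,9])) (.free 2 [1,2,3,4,5,6,7]))), .t 6 (nat_lit 0x278010300fe002b0027) (.z (.node 1 16 (.node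 0 11 (.edon 0 15 (.leaf [0,12,13,14]) (.free 2 [15,17,18,19,20,21,22])) (.leaf [1,9,11,10,2])) (.free 2 [3,4,5,6,7,8,16]))), .t 6 (nat_lit 0x12c91009100402220221) (.z (.node 4 19 (.edon 0 12 (.node 2 4 (.leaf [0,2,6,9,10]) (.leaf [1,3,4])) (.edon 0 17 (.leaf [12,13,15,14]) (.leaf [17,20,22,21]))) (.free 2 [5,7,8,11,16,18,19]))), .t 9 (nat_lit 0x12c91009100404e804e60377037502fa) (.z (.edon 0 3 (.free 1 [0,1,2]) (.node 4 19 (.edon 0 17 (.edon 0 12 (.leaf [3,4,10,9,6]) (.leaf [12,13,15,14])) (.leaf [17,20,22,21])) (.free 2 [5,7,8,11,16,18,19])))), .t 12 (nat_lit 0x12c912a0129912980b980a830a7e0a5e0a5b0a4d0a4c) (.z (.node 0 2 (.edon 0 6 (.leaf [0,3,4,5]) (.edon 0 11 (.leaf [6,7,8,10,9]) (.node 14 19 (.leaf [14,17,20,22,21]) (.free 2 [11,12,13,15,16,18,19])))) (.free 1 [1,2]))), .t 10 (nat_lit 0xc9a0c9811ef112b11291077107510551053) (.z (.node 0 7 (.node 0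 11 (.edon 12 19 (.leaf [12,16,18,15,13]) (.free 2 [0,14,17,19,20,21,22])) (.leaf [8,11,10,9])) (.free 2 [1,2,3,4,5,6,7]))), .t 5 (nat_lit 0x116910030f3c0f3b) (.z (.node 0 7 (.edon 0 11 (.leaf [0,8,9,10]) (.edon 17 20 (.free 2 [13,14,15,16,17,18,19]) (.leaf [11,12,20,22,21]))) (.free 2 [1,2,3,4,5,6,7]))), .t 14 (nat_lit 0x1182117f117a1211120e11ce11cc12c903e4032d032902fa02f0) (.z (.edon 0 3 (.free 1 [0,1,2]) (.node 5 16 (.edon 0 13 (.edon 0 10 (.leaf [3,4,5,9,6]) (.leaf [10,11,12])) (.node 17 19 (.leaf [17,20,22,21]) (.leaf [13,14,18,19,15]))) (.leaf [7,8,16])))), .t 9 (nat_lit 0x12c908c808c7050b05090386038502fc) (.z (.edon 0 3 (.free 1 [0,1,2]) (.edon 0 12 (.node 4 9 (.leaf [3,4,11,10,6]) (.leaf [5,7,8,9])) (.node 17 19 (.leaf [17,20,22,21]) (.free 2 [12,13,14,15,16,18,19]))))), .t 8 (nat_lit 0x12490fe50fe30fc40fc20fb40fb2) (.z (.node 0 7 (.edon 0 11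 (.leaf [0,8,9,10]) (.edon 14 19 (.leaf [11,16,18,15,14]) (.free 2 [12,13,17,19,20,21,22]))) (.free 2 [1,2,3,4,5,6,7]))), .t 11 (nat_lit 0x118603e403df126c126a1211120f117e117c12c9) (.z (.node 0 3 (.node 5 16 (.node 0 9 (.edon 0 13 (.leaf [0,10,11,12]) (.node 17 19 (.leaf [17,20,22,21]) (.leaf [13,14,15,18,19]))) (.leaf [4,5,9,6])) (.leaf [7,8,16])) (.free 1 [1,2,3]))), .t 12 (nat_lit 0x88808980895088d088b08c808c71097109512491247) (.z (.node 2 4 (.node 0 11 (.edon 15 19 (.leaf [14,16,18,15]) (.edon 19 21 (.leaf [19,20,22]) (.leaf [0,12,13,17,21]))) (.node 2 9 (.leaf [2,10,11]) (.leaf [5,7,8,9,6]))) (.free 1 [1,3,4]))), .t 9 (nat_lit 0x12af12aa12a91011100f12ba12b40005) (.z (.node 20 0 (.edon 0 12 (.edon 4 10 (.free 2 [4,5,6,7,8,9,11]) (.leaf [1,3,10,2])) (.node 15 16 (.leaf [15,18,19,20,17]) (.leaf [12,16,14,13]))) (.free 1 [0,21,22]))), .t 4 (nat_lit 0x610081006)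 (.z (.edon 0 16 (.node 0 11 (.leaf [0,12,13,14,15]) (.node 3 10 (.leaf [1,3,11,2]) (.free 2 [4,5,6,7,8,9,10]))) (.free 2 [16,17,18,19,20,21,22]))), .t 11 (nat_lit 0x12af12aa12a900060da20da003de03d912ba12b4) (.z (.node 5 16 (.node 0 13 (.node 0 20 (.leaf [0,21,22]) (.leaf [15,18,19,20,17])) (.edon 4 11 (.edon 0 9 (.leaf [4,5,8,6]) (.leaf [9,13,12,10])) (.leaf [1,3,11,2]))) (.free 1 [7,14,16]))), .t 11 (nat_lit 0x1211120e12c90d890d8703de0327032402f902ef) (.z (.edon 0 3 (.free 1 [0,1,2]) (.node 5 16 (.edon 0 9 (.leaf [3,4,5,8,6]) (.edon 0 13 (.leaf [9,12,11,10]) (.node 17 19 (.leaf [17,20,22,21]) (.leaf [13,18,19,15])))) (.leaf [7,14,16])))), .t 9 (nat_lit 0x117a116f116a000511ef11ed11a111a0) (.z (.edon 21 19 (.node 0 11 (.edon 13 17 (.leaf [13,14,16,18,15]) (.leaf [0,12,17,21])) (.edon 4 10 (.free 2 [4,5,6,7,8,9,11]) (.leaf [1,3,10,2]))) (.free 1 [19,20,22]))),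 .t 10 (nat_lit 0x17c003a0005000212b41234121f12071206) (.z (.edon 19 4 (.node 0 12 (.node 0 20 (.leaf [0,21,22]) (.leaf [13,19,20,17,15])) (.edon 9 10 (.leaf [9,11,12]) (.leaf [1,3,6,10,2]))) (.free 2 [4,5,7,8,14,16,18]))), .t 7 (nat_lit 0x17c003a00050002120b1209) (.z (.edon 19 4 (.node 0 12 (.edon 19 21 (.leaf [19,20,22]) (.leaf [0,13,15,17,21])) (.edon 9 10 (.leaf [9,11,12]) (.leaf [1,3,6,10,2]))) (.free 2 [4,5,7,8,14,16,18]))), .t 6 (nat_lit 0x51105110411ef11ed) (.z (.edon 21 19 (.node 0 11 (.edon 13 17 (.leaf [13,16,18,15]) (.leaf [0,12,14,17,21])) (.edon 4 10 (.free 2 [4,5,6,7,8,9,11]) (.leaf [1,3,10,2]))) (.free 1 [19,20,22]))), .t 6 (nat_lit 0x51140113f11a1119f) (.z (.edon 21 19 (.node 0 11 (.edon 14 17 (.leaf [13,16,18,14]) (.leaf [0,12,15,17,21])) (.edon 4 10 (.free 2 [4,5,6,7,8,9,11]) (.leaf [1,3,10,2]))) (.free 1 [19,20,22]))), .t 9 (nat_lit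 0x11ed11eb11e900051229122611fa11f8) (.z (.edon 21 19 (.node 0 11 (.node 14 17 (.leaf [0,12,14,21]) (.leaf [13,16,18,17,15])) (.edon 4 10 (.free 2 [4,5,6,7,8,9,11]) (.leaf [1,3,10,2]))) (.free 1 [19,20,22]))), .t 6 (nat_lit 0x51140113f11a1119f) (.z (.edon 21 19 (.node 0 11 (.edon 14 21 (.leaf [13,16,18,14]) (.leaf [0,12,15,17,21])) (.edon 4 10 (.free 2 [4,5,6,7,8,9,11]) (.leaf [1,3,10,2]))) (.free 1 [19,20,22]))), .t 9 (nat_lit 0x12af12aa12a91011100c12ba12b40005) (.z (.node 20 0 (.edon 0 12 (.edon 4 10 (.free 2 [4,5,6,7,8,9,11]) (.leaf [1,3,10,2])) (.node 15 16 (.leaf [15,18,19,20,17]) (.leaf [12,13,16,14]))) (.free 1 [0,21,22]))), .t 9 (nat_lit 0x11ed11eb11e900061229122611fa11f8) (.z (.edon 21 19 (.node 0 11 (.node 14 17 (.leaf [0,12,14,21]) (.leaf [13,16,18,17,15])) (.node 3 10 (.leaf [1,3,11,2]) (.free 2 [4,5,6,7,8,9,10]))) (.free 1 [19,20,22]))),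 .t 8 (nat_lit 0x10091004036000af00ad003e0039) (.z (.edon 0 16 (.edon 0 12 (.edon 1 10 (.edon 4 8 (.leaf [4,5,7]) (.leaf [1,3,8,9,6])) (.leaf [0,2,10,11])) (.leaf [12,13,15,14])) (.free 2 [16,17,18,19,20,21,22])))] (by decide +kernel) (by decide +kernel)
theorem b179 : B 5728 5760 := Blk.of_chk [.t 7 (nat_lit 0xc9a0c951265126410771076) (.z (.node 0 7 (.node 0 11 (.edon 12 19 (.leaf [12,13,16,18]) (.edon 19 21 (.leaf [19,20,22]) (.leaf [0,14,15,17,21]))) (.leaf [8,9,11,10])) (.free 2 [1,2,3,4,5,6,7]))), .t 1 (nat_lit 0) (.cn 2 2), .t 12 (nat_lit 0x187004700060005124511eb11e9119d119b11771175) (.z (.edon 0 20 (.node 0 12 (.node 0 17 (.leaf [0,18,19]) (.leaf [13,16,17,15,14])) (.edon 4 10 (.free 2 [4,5,6,7,8,9,12]) (.leaf [1,3,10,11,2]))) (.free 1 [20,21,22]))), .t 15 (nat_lit 0x12aa12891286126c1269125b12590d890d8703de0327032402f902ef) (.z (.edon 0 3 (.free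 1 [0,1,2]) (.node 5 16 (.edon 0 9 (.leaf [3,4,5,8,6]) (.edon 0 14 (.leaf [9,12,11,10]) (.edon 0 20 (.leaf [14,18,19,17,15]) (.leaf [20,21,22])))) (.leaf [7,13,16])))), .t 1 (nat_lit 0) (.cn 2 2), .t 12 (nat_lit 0x12af12aa12a903de03d9004300260005000412ba12b4) (.z (.node 5 16 (.node 0 10 (.node 0 14 (.node 0 20 (.leaf [0,21,22]) (.leaf [15,18,19,20,17])) (.leaf [11,12,14])) (.node 3 6 (.leaf [1,3,10,9,2]) (.leaf [4,5,8,6]))) (.free 1 [7,13,16]))), .t 7 (nat_lit 0x3de03d90043002600050004) (.z (.node 5 16 (.node 0 10 (.edon 0 15 (.leaf [0,11,13,14]) (.free 2 [15,17,18,19,20,21,22])) (.node 3 6 (.leaf [1,3,10,9,2]) (.leaf [4,5,8,6]))) (.free 1 [7,12,16]))), .t 12 (nat_lit 0x12af12aa12a903de03d9004300260005000412ba12b4) (.z (.node 5 16 (.node 0 10 (.node 0 13 (.node 0 20 (.leaf [0,21,22]) (.leaf [15,18,19,20,17])) (.leaf [11,12,13])) (.node 3 6 (.leaf [1,3,10,9,2])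 (.leaf [4,5,8,6]))) (.free 1 [7,14,16]))), .t 1 (nat_lit 0) (.cn 2 2), .t 1 (nat_lit 0) (.cn 2 3), .t 6 (nat_lit 0x20c9a0c9812651264) (.z (.edon 19 4 (.node 0 6 (.node 0 11 (.edon 19 21 (.leaf [19,20,22]) (.leaf [0,14,15,17,21])) (.leaf [8,11,10,9])) (.leaf [1,3,6,2])) (.free 2 [4,5,7,12,13,16,18]))), .t 12 (nat_lit 0x17c003a00050002124511eb11e9119d119b11771175) (.z (.edon 0 20 (.node 0 12 (.node 0 17 (.leaf [0,18,19]) (.leaf [13,16,17,15,14])) (.edon 4 6 (.free 2 [4,5,7,8,9,11,12]) (.leaf [1,3,6,10,2]))) (.free 1 [20,21,22]))), .t 1 (nat_lit 0) (.cn 2 3), .t 1 (nat_lit 0) (.cn 2 3), .t 10 (nat_lit 0x17600340004000112b41294127912621260) (.z (.edon 19 4 (.node 0 9 (.node 0 12 (.node 0 20 (.leaf [0,21,22]) (.leaf [14,19,20,17,15])) (.leaf [10,11,12])) (.leaf [1,3,5,9,2])) (.free 2 [4,6,7,8,13,16,18]))), .t 1 (nat_lit 0) (.cn 2 3), .t 10 (nat_lit 0x17700350005000112b41294127912621260)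 (.z (.edon 19 4 (.node 0 10 (.node 0 13 (.node 0 20 (.leaf [0,21,22]) (.leaf [14,19,20,17,15])) (.leaf [11,12,13])) (.leaf [1,3,5,10,2])) (.free 2 [4,6,7,8,9,16,18]))), .t 12 (nat_lit 0x189004800070005124511eb11e9119d119b11771175) (.z (.edon 0 20 (.node 0 12 (.node 0 17 (.leaf [0,18,19]) (.leaf [13,16,17,15,14])) (.edon 4 10 (.free 2 [4,5,6,7,8,9,11]) (.leaf [1,3,10,12,2]))) (.free 1 [20,21,22]))), .t 10 (nat_lit 0x12af12aa12a90c9a0c951011100c12ba12b4) (.z (.node 0 7 (.node 0 11 (.node 0 20 (.leaf [0,21,22]) (.node 15 16 (.leaf [15,18,19,20,17]) (.leaf [12,13,16,14]))) (.leaf [8,9,11,10])) (.free 2 [1,2,3,4,5,6,7]))), .t 10 (nat_lit 0xc9a0c9512b4115c1150113d113b11a1119f) (.z (.node 0 7 (.node 0 11 (.node 0 20 (.leaf [0,21,22]) (.edon 14 19 (.leaf [13,16,18,14]) (.leaf [12,19,20,17,15]))) (.leaf [8,9,11,10])) (.free 2 [1,2,3,4,5,6,7]))), .t 7 (nat_lit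 0xc9a0c951140113f11a1119f) (.z (.node 0 7 (.node 0 11 (.edon 14 19 (.leaf [13,16,18,14]) (.edon 19 21 (.leaf [19,20,22]) (.leaf [0,12,15,17,21]))) (.leaf [8,9,11,10])) (.free 2 [1,2,3,4,5,6,7]))), .t 1 (nat_lit 0) (.cp 2 3), .t 9 (nat_lit 0x119f119d119b00011229122611ae11ac) (.z (.edon 21 19 (.node 0 11 (.node 15 17 (.leaf [0,12,15,21]) (.leaf [13,16,18,17,14])) (.edon 4 5 (.free 2 [4,6,7,8,9,10,11]) (.leaf [1,3,5,2]))) (.free 1 [19,20,22]))), .t 9 (nat_lit 0x12b4115c1150113d113b11a1119f0001) (.z (.node 20 0 (.edon 0 12 (.edon 4 5 (.free 2 [4,6,7,8,9,10,11]) (.leaf [1,3,5,2])) (.edon 14 19 (.leaf [13,16,18,14]) (.leaf [12,19,20,17,15]))) (.free 1 [0,21,22]))), .t 9 (nat_lit 0x12af12aa12a91011100c12ba12b40001) (.z (.node 20 0 (.edon 0 12 (.edon 4 5 (.free 2 [4,6,7,8,9,10,11]) (.leaf [1,3,5,2])) (.node 15 16 (.leaf [15,18,19,20,17]) (.leaf [12,13,16,14])))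 (.free 1 [0,21,22]))), .t 1 (nat_lit 0) (.fa 3), .t 14 (nat_lit 0x12c9126c1211120e11ce11cb1187118503e3032c032a02fa02f0) (.z (.edon 0 3 (.free 1 [0,1,2]) (.node 6 16 (.edon 0 10 (.leaf [3,4,6,9,5]) (.edon 0 13 (.leaf [10,11,12]) (.edon 15 20 (.leaf [13,18,19,15,14]) (.leaf [17,20,22,21])))) (.leaf [7,8,16])))), .t 10 (nat_lit 0xd880cf50cf20cba0cb70ca10c9f116f116d) (.z (.node 0 7 (.node 0 12 (.node 0 16 (.free 2 [0,17,18,19,20,21,22]) (.leaf [13,16,15,14])) (.leaf [8,11,12,10,9])) (.free 2 [1,2,3,4,5,6,7]))), .t 1 (nat_lit 0) (.cn 2 3), .t 11 (nat_lit 0x126c1211120e11ce11cb1187118512c9088a0889) (.z (.node 2 4 (.edon 0 11 (.node 2 8 (.leaf [0,2,9,10]) (.leaf [5,6,7,8])) (.node 13 16 (.node 17 19 (.leaf [17,20,22,21]) (.leaf [13,18,19,15,14])) (.leaf [11,12,16]))) (.free 1 [1,3,4]))), .t 7 (nat_lit 0x17600340004000112651264) (.z (.edon 19 4 (.node 0 9 (.node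 0 13 (.edon 19 21 (.leaf [19,20,22]) (.leaf [0,14,15,17,21])) (.leaf [10,12,13])) (.leaf [1,3,5,9,2])) (.free 2 [4,6,7,8,11,16,18]))), .t 7 (nat_lit 0x100910040a520a4f01e401e3) (.z (.edon 0 16 (.edon 0 12 (.node 4 8 (.node 2 4 (.leaf [0,2,5,9,10]) (.leaf [1,3,4])) (.leaf [6,7,11,8])) (.leaf [12,13,15,14])) (.free 2 [16,17,18,19,20,21,22])))] (by decide +kernel) (by decide +kernel)
theorem b180 : B 5760 5792 := Blk.of_chk [.t 1 (nat_lit 0) (.cn 2 3), .t 6 (nat_lit 0x12c91009100401e401e3) (.z (.node 4 19 (.edon 0 12 (.node 2 4 (.leaf [0,2,5,9,10]) (.leaf [1,3,4])) (.edon 0 17 (.leaf [12,13,15,14]) (.leaf [17,20,22,21]))) (.free 2 [6,7,8,11,16,18,19]))), .t 1 (nat_lit 0) (.cn 2 2), .t 11 (nat_lit 0x117b11ce11cb1186118303e303e01211120f12c9) (.z (.node 0 3 (.node 6 16 (.node 0 9 (.edon 0 13 (.leaf [0,10,11,12]) (.node 17 19 (.leaf [17,20,22,21]) (.leaf [13,15,18,19,14])))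 (.leaf [4,6,9,5])) (.leaf [7,8,16])) (.free 1 [1,2,3]))), .t 6 (nat_lit 0x51105110411ef11ee) (.z (.edon 21 19 (.node 0 11 (.edon 13 17 (.leaf [13,15,16,18]) (.leaf [0,12,14,17,21])) (.edon 4 10 (.free 2 [4,5,6,7,8,9,11]) (.leaf [1,3,10,2]))) (.free 1 [19,20,22]))), .t 10 (nat_lit 0xeae104510430f6a0f680ea70ea5088a0889) (.z (.node 2 4 (.edon 0 11 (.node 2 8 (.leaf [0,2,9,10]) (.leaf [5,6,7,8])) (.node 14 16 (.free 2 [14,17,18,19,20,21,22]) (.leaf [11,16,15,13,12]))) (.free 1 [1,3,4]))), .t 10 (nat_lit 0x1256125412500eae0eac12891286126c126a) (.z (.node 0 7 (.edon 0 11 (.leaf [0,8,9,10]) (.node 15 16 (.edon 0 20 (.leaf [14,15,18,19,17]) (.leaf [20,21,22])) (.leaf [11,16,13,12]))) (.free 2 [1,2,3,4,5,6,7]))), .t 6 (nat_lit 0x12c91009100401d401d3) (.z (.node 4 19 (.edon 0 12 (.node 2 4 (.leaf [0,2,5,8,10]) (.leaf [1,3,4])) (.edon 0 17 (.leaf [12,13,15,14])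 (.leaf [17,20,22,21]))) (.free 2 [6,7,9,11,16,18,19]))), .t 10 (nat_lit 0xa470a610a5f0a520a4f100910040a8b0a89) (.z (.edon 0 16 (.edon 0 12 (.node 4 8 (.free 2 [0,1,2,3,4,5,10]) (.leaf [6,7,11,9,8])) (.leaf [12,13,15,14])) (.free 2 [16,17,18,19,20,21,22]))), .t 10 (nat_lit 0x1256125412500eae0eac12891286126c126a) (.z (.node 0 7 (.edon 0 11 (.leaf [0,8,9,10]) (.node 14 16 (.edon 0 20 (.leaf [14,15,18,19,17]) (.leaf [20,21,22])) (.leaf [11,16,13,12]))) (.free 2 [1,2,3,4,5,6,7]))), .t 7 (nat_lit 0x116f116d0189004800070005) (.z (.node 16 0 (.edon 0 13 (.edon 4 10 (.free 2 [4,5,6,7,8,9,11]) (.leaf [1,3,10,12,2])) (.leaf [13,16,15,14])) (.free 2 [0,17,18,19,20,21,22]))), .t 10 (nat_lit 0xc9d0c9a0c950cf50cf20cba0cb8116f116d) (.z (.node 0 7 (.node 0 12 (.node 0 16 (.free 2 [0,17,18,19,20,21,22]) (.leaf [13,16,15,14])) (.leaf [8,9,11,12,10])) (.free 2 [1,2,3,4,5,6,7]))),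 .t 1 (nat_lit 0) (.cn 2 3), .t 10 (nat_lit 0x116b11a1119f117e117b0c9a0c9811ef11ee) (.z (.node 0 7 (.node 0 11 (.edon 14 19 (.leaf [13,15,16,18,14]) (.free 2 [0,12,17,19,20,21,22])) (.leaf [8,11,10,9])) (.free 2 [1,2,3,4,5,6,7]))), .t 10 (nat_lit 0x125b1138113310f910f410d210d00f820f81) (.z (.node 0 7 (.edon 0 11 (.leaf [0,8,9,10]) (.edon 13 19 (.leaf [11,16,18,13]) (.edon 0 20 (.leaf [12,14,15,19,17]) (.leaf [20,21,22])))) (.free 2 [1,2,3,4,5,6,7]))), .t 9 (nat_lit 0x10fc10f910f4115c111f11ef11ed0001) (.z (.node 20 0 (.edon 0 12 (.edon 4 5 (.free 2 [4,6,7,8,9,10,11]) (.leaf [1,3,5,2])) (.edon 15 19 (.leaf [13,16,18,15]) (.leaf [12,14,19,20,17]))) (.free 1 [0,21,22]))), .t 9 (nat_lit 0x10fc10f910f4115c111f11ef11ee0001) (.z (.node 20 0 (.edon 0 12 (.edon 4 5 (.free 2 [4,6,7,8,9,10,11]) (.leaf [1,3,5,2])) (.edon 13 19 (.leaf [13,15,16,18]) (.leaf [12,14,19,20,17])))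 (.free 1 [0,21,22]))), .t 7 (nat_lit 0x100910040a610a5f01d401d3) (.z (.edon 0 16 (.edon 0 12 (.node 4 9 (.node 2 4 (.leaf [0,2,5,8,10]) (.leaf [1,3,4])) (.leaf [6,7,11,9])) (.leaf [12,13,15,14])) (.free 2 [16,17,18,19,20,21,22]))), .t 9 (nat_lit 0x126c1211120e11ce11cb1187118512c9) (.z (.node 0 7 (.edon 0 11 (.leaf [0,8,9,10]) (.node 13 16 (.node 17 19 (.leaf [17,20,22,21]) (.leaf [13,18,19,15,14])) (.leaf [11,12,16]))) (.free 2 [1,2,3,4,5,6,7]))), .t 6 (nat_lit 0x111ef11ed11051104) (.z (.edon 21 19 (.node 0 11 (.node 14 15 (.leaf [0,12,14,17,21]) (.leaf [13,16,18,15])) (.edon 4 5 (.free 2 [4,6,7,8,9,10,11]) (.leaf [1,3,5,2]))) (.free 1 [19,20,22]))), .t 6 (nat_lit 0x111ef11ed11051104) (.z (.edon 21 19 (.node 0 11 (.node 14 18 (.leaf [0,12,14,17,21]) (.leaf [13,16,18,15])) (.edon 4 5 (.free 2 [4,6,7,8,9,10,11]) (.leaf [1,3,5,2]))) (.free 1 [19,20,22]))),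 .t 14 (nat_lit 0x117b11ce11cb118611831211120f12c903dd0326032502f902ef) (.z (.edon 0 3 (.free 1 [0,1,2]) (.node 6 16 (.edon 0 10 (.leaf [3,4,6,8,5]) (.edon 0 13 (.leaf [10,11,12]) (.node 17 19 (.leaf [17,20,22,21]) (.leaf [13,15,18,19,14])))) (.leaf [7,9,16])))), .t 7 (nat_lit 0x116f116d0177003500050001) (.z (.node 16 0 (.edon 0 13 (.edon 4 5 (.free 2 [4,6,7,8,9,11,12]) (.leaf [1,3,5,10,2])) (.leaf [13,16,15,14])) (.free 2 [0,17,18,19,20,21,22]))), .t 12 (nat_lit 0x117b11ce11cb118611831211120f12c90d890d8702ee) (.z (.edon 0 3 (.free 1 [0,1,2]) (.node 6 16 (.edon 0 9 (.leaf [3,4,6,5]) (.edon 0 13 (.leaf [9,12,11,10]) (.node 17 19 (.leaf [17,20,22,21]) (.leaf [13,15,18,19,14])))) (.leaf [7,8,16])))), .t 6 (nat_lit 0x11105110411ef11ed) (.z (.edon 21 19 (.node 0 11 (.edon 13 17 (.leaf [13,16,18,15]) (.leaf [0,12,14,17,21])) (.edon 4 5 (.free 2 [4,6,7,8,9,10,11])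 (.leaf [1,3,5,2]))) (.free 1 [19,20,22]))), .t 5 (nat_lit 0x116910030f3c0f3b) (.z (.node 0 7 (.edon 0 11 (.leaf [0,8,9,10]) (.edon 14 20 (.free 2 [13,14,15,16,17,18,19]) (.leaf [11,12,20,22,21]))) (.free 2 [1,2,3,4,5,6,7]))), .t 12 (nat_lit 0x88d0a490a4808c808c7088a08891105110411ef11ed) (.z (.node 2 4 (.node 0 11 (.edon 15 19 (.leaf [13,16,18,15]) (.edon 19 21 (.leaf [19,20,22]) (.leaf [0,12,14,17,21]))) (.node 2 9 (.leaf [2,10,11]) (.leaf [5,6,7,8,9]))) (.free 1 [1,3,4]))), .t 12 (nat_lit 0x3e0042d042a03ea03e704e704e51105110411ef11ed) (.z (.node 0 3 (.node 0 11 (.edon 15 19 (.leaf [13,16,18,15]) (.edon 19 21 (.leaf [19,20,22]) (.leaf [0,12,14,17,21]))) (.edon 7 9 (.leaf [7,8,11]) (.leaf [4,6,9,10,5]))) (.free 1 [1,2,3]))), .t 7 (nat_lit 0xc9a0c9511ef11ed11051104) (.z (.node 0 7 (.node 0 11 (.edon 19 21 (.leaf [19,20,22]) (.node 12 15 (.leaf [0,12,14,17,21])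 (.leaf [13,16,18,15]))) (.leaf [8,9,11,10])) (.free 2 [1,2,3,4,5,6,7]))), .t 6 (nat_lit 0x111ef11ed11051104) (.z (.edon 21 19 (.node 0 11 (.node 12 15 (.leaf [0,12,14,17,21]) (.leaf [13,16,18,15])) (.edon 4 5 (.free 2 [4,6,7,8,9,10,11]) (.leaf [1,3,5,2]))) (.free 1 [19,20,22]))), .t 1 (nat_lit 0) (.fa 3), .t 1 (nat_lit 0) (.cn 2 2)] (by decide +kernel) (by decide +kernel)

end Pool.Agent.GCP.F7
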