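import Pool.Agent.GCP.F7Db

set_option autoImplicit false
set_option maxRecDepth 100000

/-! # Blocks F7B6 (generated) -/

namespace Pool.Agent.GCP.F7

open Pool.Agent.GCP DB

theorem b181 : B 5792 5824 := Blk.of_chk [.t 10 (nat_lit 0x405042d042a0410040d05a605a40ef70ef6) (.z (.node 0 3 (.edon 6 16 (.leaf [6,7,13]) (.node 0 10 (.edon 15 21 (.free 2 [15,16,17,18,19,20,22]) (.leaf [0,11,12,14,21])) (.leaf [4,8,9,10,5]))) (.free 1 [1,2,3]))), .t 9 (nat_lit 0x1050104510400001112b112910771076) (.z (.edon 21 19 (.node 0 11 (.node 14 18 (.leaf [0,14,17,21]) (.leaf [12,13,16,18,15])) (.edon 4 5 (.free 2 [4,6,7,8,9,10,11]) (.leaf [1,3,5,2]))) (.free 1 [19,20,22]))), .t 11 (nat_lit 0x3e0042d042a03ea03e704e704e51211120e12c9) (.z (.node 0 3 (.node 6 16 (.node 0 10 (.edon 13 14 (.node 17 19 (.leaf [17,20,22,21]) (.leaf [13,18,19,15])) (.leaf [0,11,12,14])) (.leaf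 [4,6,9,10,5])) (.leaf [7,8,16])) (.free 1 [1,2,3]))), .t 15 (nat_lit 0xdfe12af12aa12a903e303e00e9e0e9c0e3b0e390df80df612ba12b4) (.z (.node 0 3 (.node 6 16 (.node 0 9 (.node 0 14 (.node 0 20 (.leaf [0,21,22]) (.leaf [15,18,19,20,17])) (.leaf [10,11,12,13,14])) (.leaf [4,6,9,5])) (.leaf [7,8,16])) (.free 1 [1,2,3]))), .t 13 (nat_lit 0xdfe0e9e0e9c0e3b0e390df80df603dd0326032502f902ef) (.z (.edon 0 3 (.free 1 [0,1,2]) (.node 6 16 (.edon 0 10 (.leaf [3,4,6,8,5]) (.edon 0 15 (.leaf [10,11,12,13,14]) (.free 2 [15,17,18,19,20,21,22]))) (.leaf [7,9,16])))), .t 6 (nat_lit 0x10c9a0c9812651264) (.z (.edon 19 4 (.node 0 5 (.node 0 11 (.edon 19 21 (.leaf [19,20,22]) (.leaf [0,14,15,17,21])) (.leaf [8,11,10,9])) (.leaf [1,3,5,2])) (.free 2 [4,6,7,12,13,16,18]))), .t 1 (nat_lit 0) (.cn 2 3), .t 10 (nat_lit 0xca10d890d870cf60cf40c9a0c98116f116d) (.z (.node 0 7 (.node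 0 12 (.node 0 16 (.free 2 [0,17,18,19,20,21,22]) (.leaf [13,16,15,14])) (.leaf [8,12,11,10,9])) (.free 2 [1,2,3,4,5,6,7]))), .t 8 (nat_lit 0x3e303e00dfe0dfc1211120e12c9) (.z (.node 0 3 (.node 6 16 (.node 0 9 (.edon 13 14 (.node 17 19 (.leaf [17,20,22,21]) (.leaf [13,18,19,15])) (.leaf [0,10,11,12,14])) (.leaf [4,6,9,5])) (.leaf [7,8,16])) (.free 1 [1,2,3]))), .t 8 (nat_lit 0xca90d930d920cfd0cfc0c9a0c98) (.z (.node 0 7 (.edon 0 16 (.edon 11 13 (.leaf [8,15,11,10,9]) (.leaf [0,12,13,14])) (.free 2 [16,17,18,19,20,21,22])) (.free 2 [1,2,3,4,5,6,7]))), .t 15 (nat_lit 0x3e0042d042a03ea03e712af12aa12a904e704e50e9e0e9b12ba12b4) (.z (.node 0 3 (.node 6 16 (.node 0 10 (.node 0 14 (.node 0 20 (.leaf [0,21,22]) (.leaf [15,18,19,20,17])) (.leaf [11,13,14,12])) (.leaf [4,6,9,10,5])) (.leaf [7,8,16])) (.free 1 [1,2,3]))), .t 8 (nat_lit 0x3dd03da0dfe0dfc1211120e12c9)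 (.z (.node 0 3 (.node 6 16 (.node 0 8 (.edon 13 14 (.node 17 19 (.leaf [17,20,22,21]) (.leaf [13,18,19,15])) (.leaf [0,10,11,12,14])) (.leaf [4,6,8,5])) (.leaf [7,9,16])) (.free 1 [1,2,3]))), .t 10 (nat_lit 0xc950cbb0cb60ca10c9d0cf60cf4116f116d) (.z (.node 0 7 (.node 0 12 (.node 0 16 (.free 2 [0,17,18,19,20,21,22]) (.leaf [13,16,15,14])) (.leaf [8,9,12,11,10])) (.free 2 [1,2,3,4,5,6,7]))), .t 1 (nat_lit 0) (.cn 2 2), .t 14 (nat_lit 0x10c7110f110c10d210cf1146114412c903dd0326032502f902ef) (.z (.edon 0 3 (.free 1 [0,1,2]) (.node 6 16 (.edon 0 9 (.leaf [3,4,6,8,5]) (.edon 0 12 (.leaf [9,10,11]) (.node 17 19 (.leaf [17,20,22,21]) (.leaf [12,15,18,19,14])))) (.leaf [7,13,16])))), .t 9 (nat_lit 0x111ef112b11291077107510551053) (.z (.edon 21 19 (.node 0 11 (.edon 12 17 (.leaf [12,16,18,15,13]) (.leaf [0,14,17,21])) (.edon 4 5 (.free 2 [4,6,7,8,9,10,11]) (.leaf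 [1,3,5,2]))) (.free 1 [19,20,22]))), .t 9 (nat_lit 0x1770035000500010cbb0cb911ef11ed) (.z (.edon 21 19 (.node 0 12 (.node 14 18 (.leaf [0,14,17,21]) (.leaf [13,16,18,15])) (.edon 8 10 (.leaf [8,12,11,9]) (.edon 4 5 (.leaf [4,6,7]) (.leaf [1,3,5,10,2])))) (.free 1 [19,20,22]))), .t 10 (nat_lit 0x88d02ae02ac0a490a4808c808c7088a0889) (.z (.edon 0 13 (.edon 1 10 (.edon 0 5 (.leaf [1,3,4]) (.leaf [5,6,7,8,9])) (.leaf [0,2,10,11,12])) (.free 3 [13,14,15,16,17,18,19,20,21,22]))), .t 10 (nat_lit 0x88d100910040a490a4808c808c7088a0889) (.z (.edon 0 16 (.edon 0 12 (.node 4 5 (.free 2 [0,1,2,3,4,10,11]) (.leaf [5,6,7,8,9])) (.leaf [12,13,15,14])) (.free 2 [16,17,18,19,20,21,22]))), .t 1 (nat_lit 0) (.cn 6 3), .t 8 (nat_lit 0x11ed11eb11e91229122611fa11f8) (.z (.node 0 7 (.edon 0 11 (.leaf [0,8,9,10]) (.edon 17 19 (.leaf [13,16,18,17,15]) (.free 2 [11,12,14,19,20,21,22])))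 (.free 2 [1,2,3,4,5,6,7]))), .t 1 (nat_lit 0) (.cn 2 2), .t 1 (nat_lit 0) (.cn 2 2), .t 1 (nat_lit 0) (.cn 2 3), .t 1 (nat_lit 0) (.cn 2 2), .t 10 (nat_lit 0x17600340004000112b41294127912621260) (.z (.edon 19 4 (.node 0 9 (.node 0 13 (.node 0 20 (.leaf [0,21,22]) (.leaf [14,19,20,17,15])) (.leaf [10,12,13])) (.leaf [1,3,5,9,2])) (.free 2 [4,6,7,8,11,16,18]))), .t 9 (nat_lit 0x4124911ef11ed11a1119f117f117d) (.z (.edon 21 19 (.node 0 11 (.edon 14 17 (.leaf [13,16,18,15,14]) (.leaf [0,12,17,21])) (.edon 4 9 (.free 2 [4,5,6,7,8,10,11]) (.leaf [1,3,9,2]))) (.free 1 [19,20,22]))), .t 9 (nat_lit 0x125a120111fe11b411b11187118512cb) (.z (.node 6 16 (.node 0 9 (.edon 0 13 (.leaf [0,10,11,12]) (.node 18 19 (.leaf [18,20,22,21]) (.leaf [13,17,19,15,14]))) (.free 2 [1,2,3,4,5,6,9])) (.free 1 [7,8,16]))), .t 1 (nat_lit 0) (.cn 2 2), .t 1 (nat_lit 0) (.cn 2 3),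 .t 1 (nat_lit 0) (.cn 2 3), .t 7 (nat_lit 0xc9a0c98111c111b11eb11e9) (.z (.node 0 7 (.node 0 11 (.edon 15 19 (.leaf [13,16,17,15]) (.edon 19 21 (.leaf [19,20,22]) (.leaf [0,12,14,18,21]))) (.leaf [8,11,10,9])) (.free 2 [1,2,3,4,5,6,7])))] (by decide +kernel) (by decide +kernel)
theorem b182 : B 5824 5856 := Blk.of_chk [.t 5 (nat_lit 0x12bd12cb12c112bf) (.z (.edon 0 15 (.free 4 [0,1,2,3,4,5,6,7,8,9,10,11,12,13,14]) (.node 15 19 (.leaf [15,20,22,21,18]) (.leaf [16,17,19])))), .t 6 (nat_lit 0x411eb11e9111c111b) (.z (.edon 21 19 (.node 0 11 (.node 14 17 (.leaf [0,12,14,18,21]) (.leaf [13,16,17,15])) (.edon 4 9 (.free 2 [4,5,6,7,8,10,11]) (.leaf [1,3,9,2]))) (.free 1 [19,20,22]))), .t 6 (nat_lit 0x511eb11e9111c111b) (.z (.edon 21 19 (.node 0 11 (.node 14 17 (.leaf [0,12,14,18,21]) (.leaf [13,16,17,15])) (.edon 4 10 (.free 2 [4,5,6,7,8,9,11]) (.leaf [1,3,10,2])))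 (.free 1 [19,20,22]))), .t 6 (nat_lit 0x511eb11e9111c111b) (.z (.edon 21 19 (.node 0 11 (.node 14 15 (.leaf [0,12,14,18,21]) (.leaf [13,16,17,15])) (.edon 4 10 (.free 2 [4,5,6,7,8,9,11]) (.leaf [1,3,10,2]))) (.free 1 [19,20,22]))), .t 12 (nat_lit 0x125a120111fe11b411b11187118512cb0d890d8702ee) (.z (.edon 0 3 (.free 1 [0,1,2]) (.node 6 16 (.edon 0 9 (.leaf [3,4,6,5]) (.edon 0 13 (.leaf [9,12,11,10]) (.node 18 19 (.leaf [18,20,22,21]) (.leaf [13,17,19,15,14])))) (.leaf [7,8,16])))), .t 11 (nat_lit 0x3dd03da125a120111fe11b411b11187118512cb) (.z (.node 0 3 (.node 6 16 (.node 0 8 (.edon 0 13 (.leaf [0,10,11,12]) (.node 18 19 (.leaf [18,20,22,21]) (.leaf [13,17,19,15,14]))) (.leaf [4,6,8,5])) (.leaf [7,9,16])) (.free 1 [1,2,3]))), .t 1 (nat_lit 0) (.cn 1 3), .t 10 (nat_lit 0xc9a0c95124511eb11e9119d119b11771175) (.z (.node 0 7 (.node 0 11 (.edon 19 21 (.leaf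 [19,20,22]) (.edon 14 18 (.leaf [13,16,17,15,14]) (.leaf [0,12,18,21]))) (.leaf [8,9,11,10])) (.free 2 [1,2,3,4,5,6,7]))), .t 7 (nat_lit 0x17700350005000112761275) (.z (.edon 19 4 (.node 0 10 (.node 0 13 (.edon 19 21 (.leaf [19,20,22]) (.leaf [0,14,15,18,21])) (.leaf [11,12,13])) (.leaf [1,3,5,10,2])) (.free 2 [4,6,7,8,9,16,17]))), .t 1 (nat_lit 0) (.cn 2 3), .t 1 (nat_lit 0) (.cn 2 3), .t 1 (nat_lit 0) (.cn 2 3), .t 1 (nat_lit 0) (.cp 2 3), .t 8 (nat_lit 0x3dd03da0dfe0dfc120111fe12cb) (.z (.node 0 3 (.node 6 16 (.node 0 8 (.edon 13 14 (.node 18 19 (.leaf [18,20,22,21]) (.leaf [13,17,19,15])) (.leaf [0,10,11,12,14])) (.leaf [4,6,8,5])) (.leaf [7,9,16])) (.free 1 [1,2,3]))), .t 1 (nat_lit 0) (.cn 2 3), .t 1 (nat_lit 0) (.cp 2 3), .t 6 (nat_lit 0x12cb1009100401e401e3) (.z (.node 4 19 (.edon 0 12 (.node 2 4 (.leaf [0,2,5,9,10]) (.leaf [1,3,4])) (.edon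 0 18 (.leaf [12,13,15,14]) (.leaf [18,20,22,21]))) (.free 2 [6,7,8,11,16,17,19]))), .t 7 (nat_lit 0x17600340004000112761275) (.z (.edon 19 4 (.node 0 9 (.node 0 13 (.edon 19 21 (.leaf [19,20,22]) (.leaf [0,14,15,18,21])) (.leaf [10,12,13])) (.leaf [1,3,5,9,2])) (.free 2 [4,6,7,8,11,16,17]))), .t 7 (nat_lit 0x18300430005000412761275) (.z (.edon 19 4 (.node 0 10 (.node 0 13 (.edon 19 21 (.leaf [19,20,22]) (.leaf [0,14,15,18,21])) (.leaf [11,12,13])) (.leaf [1,3,9,10,2])) (.free 2 [4,5,6,7,8,16,17]))), .t 1 (nat_lit 0) (.cn 2 3), .t 7 (nat_lit 0x17600340004000112761275) (.z (.edon 19 4 (.node 0 9 (.node 0 12 (.edon 19 21 (.leaf [19,20,22]) (.leaf [0,14,15,18,21])) (.leaf [10,11,12])) (.leaf [1,3,5,9,2])) (.free 2 [4,6,7,8,13,16,17]))), .t 1 (nat_lit 0) (.cn 2 3), .t 10 (nat_lit 0xea30e9e0e9b0f420f3d0ed50ed3088a0889) (.z (.edon 0 16 (.edon 0 11 (.node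 4 5 (.free 2 [0,1,2,3,4,9,10]) (.leaf [5,6,7,8])) (.leaf [11,13,15,14,12])) (.free 2 [16,17,18,19,20,21,22]))), .t 6 (nat_lit 0x41037103512a312a2) (.z (.edon 21 19 (.node 0 11 (.edon 15 21 (.leaf [15,16,17,18]) (.leaf [0,12,13,14,21])) (.edon 4 9 (.free 2 [4,5,6,7,8,10,11]) (.leaf [1,3,9,2]))) (.free 1 [19,20,22]))), .t 5 (nat_lit 0x1009100402770275) (.z (.edon 0 16 (.edon 0 12 (.node 2 8 (.leaf [0,2,9,10,11]) (.free 2 [1,3,4,5,6,7,8])) (.leaf [12,13,15,14])) (.free 2 [16,17,18,19,20,21,22]))), .t 7 (nat_lit 0x17600340004000112651264) (.z (.edon 19 4 (.node 0 9 (.node 0 12 (.edon 19 21 (.leaf [19,20,22]) (.leaf [0,14,15,17,21])) (.leaf [10,11,12])) (.leaf [1,3,5,9,2])) (.free 2 [4,6,7,8,13,16,18]))), .t 8 (nat_lit 0x3e303e00dfe0dfc120111fe12cb) (.z (.node 0 3 (.node 6 16 (.node 0 9 (.edon 13 14 (.node 18 19 (.leaf [18,20,22,21]) (.leaf [13,17,19,15]))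 (.leaf [0,10,11,12,14])) (.leaf [4,6,9,5])) (.leaf [7,8,16])) (.free 1 [1,2,3]))), .t 6 (nat_lit 0x51037103512a312a2) (.z (.edon 21 19 (.node 0 11 (.edon 15 21 (.leaf [15,16,17,18]) (.leaf [0,12,13,14,21])) (.edon 4 10 (.free 2 [4,5,6,7,8,9,11]) (.leaf [1,3,10,2]))) (.free 1 [19,20,22]))), .t 7 (nat_lit 0x17700350005000111eb11e9) (.z (.edon 21 19 (.node 0 12 (.node 14 17 (.leaf [0,14,18,21]) (.leaf [13,16,17,15])) (.edon 4 5 (.free 2 [4,6,7,8,9,11,12]) (.leaf [1,3,5,10,2]))) (.free 1 [19,20,22]))), .t 7 (nat_lit 0x4300260005000412761275) (.z (.edon 19 4 (.node 0 10 (.node 0 13 (.edon 19 21 (.leaf [19,20,22]) (.leaf [0,14,15,18,21])) (.leaf [11,12,13])) (.leaf [1,3,10,9,2])) (.free 2 [4,5,6,7,8,16,17]))), .t 1 (nat_lit 0) (.cn 2 3), .t 10 (nat_lit 0xc950cbb0cb60ca10c9d0cf60cf411eb11e9) (.z (.node 0 7 (.node 0 12 (.edon 15 19 (.leaf [13,16,17,15]) (.free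 2 [0,14,18,19,20,21,22])) (.leaf [8,9,12,11,10])) (.free 2 [1,2,3,4,5,6,7])))] (by decide +kernel) (by decide +kernel)
theorem b183 : B 5856 5888 := Blk.of_chk [.t 1 (nat_lit 0) (.cn 2 3), .t 7 (nat_lit 0x17b00390004000212761275) (.z (.edon 19 4 (.node 0 9 (.node 0 12 (.edon 19 21 (.leaf [19,20,22]) (.leaf [0,14,15,18,21])) (.leaf [10,11,12])) (.leaf [1,3,6,9,2])) (.free 2 [4,5,7,8,13,16,17]))), .t 1 (nat_lit 0) (.cn 2 3), .t 10 (nat_lit 0x17b00390004000212ba129a127912731272) (.z (.edon 19 4 (.node 0 9 (.node 0 12 (.node 0 20 (.leaf [0,21,22]) (.leaf [14,19,20,18,15])) (.leaf [10,11,12])) (.leaf [1,3,6,9,2])) (.free 2 [4,5,7,8,13,16,17]))), .t 1 (nat_lit 0) (.cn 2 3), .t 1 (nat_lit 0) (.cn 2 3), .t 10 (nat_lit 0x17b00390004000212ba129a127912731272) (.z (.edon 19 4 (.node 0 9 (.node 0 13 (.node 0 20 (.leaf [0,21,22]) (.leaf [14,19,20,18,15])) (.leaf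 [10,12,13])) (.leaf [1,3,6,9,2])) (.free 2 [4,5,7,8,11,16,17]))), .t 7 (nat_lit 0x17b00390004000212761275) (.z (.edon 19 4 (.node 0 9 (.node 0 13 (.edon 19 21 (.leaf [19,20,22]) (.leaf [0,14,15,18,21])) (.leaf [10,12,13])) (.leaf [1,3,6,9,2])) (.free 2 [4,5,7,8,11,16,17]))), .t 1 (nat_lit 0) (.cn 2 3), .t 1 (nat_lit 0) (.cp 2 3), .t 6 (nat_lit 0x411eb11e9111c111b) (.z (.edon 21 19 (.node 0 11 (.node 14 15 (.leaf [0,12,14,18,21]) (.leaf [13,16,17,15])) (.edon 4 9 (.free 2 [4,5,6,7,8,10,11]) (.leaf [1,3,9,2]))) (.free 1 [19,20,22]))), .t 10 (nat_lit 0x12cb125a120111fe11b411b11187118502ee) (.z (.node 5 16 (.edon 0 13 (.node 1 6 (.free 2 [0,1,2,9,10,11,12]) (.leaf [3,4,5,6])) (.edon 15 20 (.leaf [13,17,19,15,14]) (.leaf [18,20,22,21]))) (.free 1 [7,8,16]))), .t 1 (nat_lit 0) (.cn 2 2), .t 1 (nat_lit 0) (.cn 2 2), .t 1 (nat_lit 0) (.cn 2 3), .t 1 (nat_lit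 0) (.cn 2 3), .t 1 (nat_lit 0) (.fa 2), .t 7 (nat_lit 0x3dd03da0183004300050004) (.z (.node 6 16 (.node 0 10 (.edon 0 15 (.leaf [0,12,13,14]) (.free 2 [15,17,18,19,20,21,22])) (.node 3 5 (.leaf [1,3,9,10,2]) (.leaf [4,6,8,5]))) (.free 1 [7,11,16]))), .t 10 (nat_lit 0x100910040a520a4f042e034a0346031102f2) (.z (.edon 0 16 (.edon 0 3 (.leaf [0,1,2]) (.edon 0 12 (.node 4 8 (.leaf [3,4,5,10,9]) (.leaf [6,7,11,8])) (.leaf [12,13,15,14]))) (.free 2 [16,17,18,19,20,21,22]))), .t 14 (nat_lit 0x12cb125a120111fe11b411b11187118503de0327032402f902ef) (.z (.edon 0 3 (.free 1 [0,1,2]) (.node 5 16 (.edon 0 9 (.leaf [3,4,5,8,6]) (.edon 0 13 (.leaf [9,10,12]) (.edon 15 20 (.leaf [13,17,19,15,14]) (.leaf [18,20,22,21])))) (.leaf [7,11,16])))), .t 7 (nat_lit 0x3de03d90183004300050004) (.z (.node 5 16 (.node 0 10 (.edon 0 15 (.leaf [0,12,13,14]) (.free 2 [15,17,18,19,20,21,22]))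 (.node 3 6 (.leaf [1,3,9,10,2]) (.leaf [4,5,8,6]))) (.free 1 [7,11,16]))), .t 10 (nat_lit 0x1009100408d108ce04e803770372031102fc) (.z (.edon 0 16 (.edon 0 3 (.leaf [0,1,2]) (.edon 0 12 (.node 4 8 (.leaf [3,4,6,10,9]) (.leaf [5,7,11,8])) (.leaf [12,13,15,14]))) (.free 2 [16,17,18,19,20,21,22]))), .t 11 (nat_lit 0x3de03d9125a120111fe11b411b11187118512cb) (.z (.node 0 3 (.node 5 16 (.node 0 8 (.edon 0 13 (.leaf [0,9,10,12]) (.node 18 19 (.leaf [18,20,22,21]) (.leaf [13,17,19,15,14]))) (.leaf [4,5,8,6])) (.leaf [7,11,16])) (.free 1 [1,2,3]))), .t 7 (nat_lit 0x17b00390004000212761275) (.z (.edon 19 4 (.node 0 12 (.edon 19 21 (.leaf [19,20,22]) (.leaf [0,14,15,18,21])) (.edon 8 9 (.leaf [8,10,12]) (.leaf [1,3,6,9,2]))) (.free 2 [4,5,7,11,13,16,17]))), .t 1 (nat_lit 0) (.cn 2 3), .t 1 (nat_lit 0) (.cn 2 3), .t 7 (nat_lit 0x18600450007000411eb11e9) (.z (.edon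 21 19 (.node 0 12 (.node 14 17 (.leaf [0,14,18,21]) (.leaf [13,16,17,15])) (.edon 4 9 (.free 2 [4,5,6,7,8,10,11]) (.leaf [1,3,9,12,2]))) (.free 1 [19,20,22]))), .t 1 (nat_lit 0) (.cp 2 3), .t 7 (nat_lit 0x1009100408e508e20210020f) (.z (.edon 0 16 (.edon 0 12 (.node 4 10 (.node 2 4 (.leaf [0,2,6,8,9]) (.leaf [1,3,4])) (.leaf [5,7,11,10])) (.leaf [12,13,15,14])) (.free 2 [16,17,18,19,20,21,22]))), .t 1 (nat_lit 0) (.cp 2 3), .t 15 (nat_lit 0xa470a610a5f0a520a4f0a8b0a89124511eb11e9119d119b11771175) (.z (.edon 0 20 (.node 0 12 (.node 0 17 (.leaf [0,18,19]) (.leaf [13,16,17,15,14])) (.node 4 8 (.free 2 [1,2,3,4,5,10,12]) (.leaf [6,7,11,9,8]))) (.free 1 [20,21,22]))), .t 11 (nat_lit 0x3dd03da12c9126c1211120e11ce11cb11871185) (.z (.node 0 3 (.node 6 16 (.node 0 8 (.edon 0 13 (.leaf [0,9,10,12]) (.edon 15 20 (.leaf [13,18,19,15,14]) (.leaf [17,20,22,21])))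 (.leaf [4,6,8,5])) (.leaf [7,11,16])) (.free 1 [1,2,3])))] (by decide +kernel) (by decide +kernel)
theorem b184 : B 5888 5920 := Blk.of_chk [.t 10 (nat_lit 0x11ef11ed0a520a4f042e034a0346031102f2) (.z (.edon 0 3 (.free 1 [0,1,2]) (.edon 0 12 (.node 4 8 (.leaf [3,4,5,10,9]) (.leaf [6,7,11,8])) (.edon 15 19 (.leaf [13,16,18,15]) (.free 2 [12,14,17,19,20,21,22]))))), .t 14 (nat_lit 0x12cb125a120111fe11b411b11187118503dd0326032502f902ef) (.z (.edon 0 3 (.free 1 [0,1,2]) (.node 6 16 (.edon 0 9 (.leaf [3,4,6,8,5]) (.edon 0 13 (.leaf [9,10,12]) (.edon 15 20 (.leaf [13,17,19,15,14]) (.leaf [18,20,22,21])))) (.leaf [7,11,16])))), .t 1 (nat_lit 0) (.cn 2 3), .t 6 (nat_lit 0x51077107512651264) (.z (.edon 21 19 (.node 0 11 (.node 15 18 (.leaf [0,14,15,17,21]) (.leaf [12,16,18,13])) (.edon 4 10 (.free 2 [4,5,6,7,8,9,11]) (.leaf [1,3,10,2]))) (.free 1 [19,20,22]))),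 .t 9 (nat_lit 0x125e125b125612941279107710750005) (.z (.node 20 0 (.edon 0 12 (.edon 4 10 (.free 2 [4,5,6,7,8,9,11]) (.leaf [1,3,10,2])) (.edon 13 19 (.leaf [12,16,18,13]) (.leaf [14,15,19,20,17]))) (.free 1 [0,21,22]))), .t 1 (nat_lit 0) (.cn 2 3), .t 9 (nat_lit 0x12b41294127912621260107710750004) (.z (.node 20 0 (.edon 0 12 (.edon 4 9 (.free 2 [4,5,6,7,8,10,11]) (.leaf [1,3,9,2])) (.edon 13 19 (.leaf [12,16,18,13]) (.leaf [14,19,20,17,15]))) (.free 1 [0,21,22]))), .t 6 (nat_lit 0x41073107112761275) (.z (.edon 21 19 (.node 0 11 (.node 15 17 (.leaf [0,14,15,18,21]) (.leaf [12,16,17,13])) (.edon 4 9 (.free 2 [4,5,6,7,8,10,11]) (.leaf [1,3,9,2]))) (.free 1 [19,20,22]))), .t 6 (nat_lit 0x51073107112761275) (.z (.edon 21 19 (.node 0 11 (.node 15 17 (.leaf [0,14,15,18,21]) (.leaf [12,16,17,13])) (.edon 4 10 (.free 2 [4,5,6,7,8,9,11]) (.leaf [1,3,10,2])))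 (.free 1 [19,20,22]))), .t 6 (nat_lit 0x51077107512651264) (.z (.edon 21 19 (.node 0 11 (.node 14 18 (.leaf [0,14,15,17,21]) (.leaf [12,16,18,13])) (.edon 4 10 (.free 2 [4,5,6,7,8,9,11]) (.leaf [1,3,10,2]))) (.free 1 [19,20,22]))), .t 1 (nat_lit 0) (.cn 2 3), .t 6 (nat_lit 0x51073107112761275) (.z (.edon 21 19 (.node 0 11 (.node 14 17 (.leaf [0,14,15,18,21]) (.leaf [12,16,17,13])) (.edon 4 10 (.free 2 [4,5,6,7,8,9,11]) (.leaf [1,3,10,2]))) (.free 1 [19,20,22]))), .t 9 (nat_lit 0x12ba129a127912731272107310710005) (.z (.node 20 0 (.edon 0 12 (.edon 4 10 (.free 2 [4,5,6,7,8,9,11]) (.leaf [1,3,10,2])) (.edon 13 19 (.leaf [12,16,17,13]) (.leaf [14,19,20,18,15]))) (.free 1 [0,21,22]))), .t 1 (nat_lit 0) (.cn 2 3), .t 5 (nat_lit 0x17b003900040002) (.z (.edon 19 4 (.node 0 9 (.edon 0 14 (.leaf [0,10,11,13]) (.free 2 [14,15,18,19,20,21,22])) (.leaf [1,3,6,9,2]))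 (.free 2 [4,5,7,8,12,16,17]))), .t 6 (nat_lit 0x41073107112761275) (.z (.edon 21 19 (.node 0 11 (.node 14 17 (.leaf [0,14,15,18,21]) (.leaf [12,16,17,13])) (.edon 4 9 (.free 2 [4,5,6,7,8,10,11]) (.leaf [1,3,9,2]))) (.free 1 [19,20,22]))), .t 9 (nat_lit 0x12ba129a127912731272107310710004) (.z (.node 20 0 (.edon 0 12 (.edon 4 9 (.free 2 [4,5,6,7,8,10,11]) (.leaf [1,3,9,2])) (.edon 13 19 (.leaf [12,16,17,13]) (.leaf [14,19,20,18,15]))) (.free 1 [0,21,22]))), .t 6 (nat_lit 0x21073107112761275) (.z (.edon 21 19 (.node 0 11 (.node 14 17 (.leaf [0,14,15,18,21]) (.leaf [12,16,17,13])) (.edon 4 6 (.free 2 [4,5,7,8,9,10,11]) (.leaf [1,3,6,2]))) (.free 1 [19,20,22]))), .t 6 (nat_lit 0x211eb11e9111c111b) (.z (.edon 21 19 (.node 0 11 (.node 14 15 (.leaf [0,12,14,18,21]) (.leaf [13,16,17,15])) (.edon 4 6 (.free 2 [4,5,7,8,9,10,11]) (.leaf [1,3,6,2]))) (.free 1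 [19,20,22]))), .t 6 (nat_lit 0x211eb11e9111c111b) (.z (.edon 21 19 (.node 0 11 (.node 14 17 (.leaf [0,12,14,18,21]) (.leaf [13,16,17,15])) (.edon 4 6 (.free 2 [4,5,7,8,9,10,11]) (.leaf [1,3,6,2]))) (.free 1 [19,20,22]))), .t 9 (nat_lit 0x211eb1128112610731071104d104b) (.z (.edon 21 19 (.node 0 11 (.node 14 17 (.leaf [0,14,18,21]) (.leaf [12,16,17,15,13])) (.edon 4 6 (.free 2 [4,5,7,8,9,10,11]) (.leaf [1,3,6,2]))) (.free 1 [19,20,22]))), .t 6 (nat_lit 0x21073107112761275) (.z (.edon 21 19 (.node 0 11 (.node 15 17 (.leaf [0,14,15,18,21]) (.leaf [12,16,17,13])) (.edon 4 6 (.free 2 [4,5,7,8,9,10,11]) (.leaf [1,3,6,2]))) (.free 1 [19,20,22]))), .t 10 (nat_lit 0x1009100408e508e204bc04ba0361035f02f9) (.z (.edon 0 16 (.edon 0 3 (.leaf [0,1,2]) (.edon 0 12 (.node 4 10 (.leaf [3,4,9,8,6]) (.leaf [5,7,11,10])) (.leaf [12,13,15,14]))) (.free 2 [16,17,18,19,20,21,22]))),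 .t 10 (nat_lit 0x1009100408df08de04c404c20368036602f9) (.z (.edon 0 16 (.edon 0 3 (.leaf [0,1,2]) (.edon 0 12 (.node 4 9 (.leaf [3,4,10,8,6]) (.leaf [5,7,11,9])) (.leaf [12,13,15,14]))) (.free 2 [16,17,18,19,20,21,22]))), .t 7 (nat_lit 0x1009100408df08de02150214) (.z (.edon 0 16 (.edon 0 12 (.node 4 9 (.node 2 4 (.leaf [0,2,6,8,10]) (.leaf [1,3,4])) (.leaf [5,7,11,9])) (.leaf [12,13,15,14])) (.free 2 [16,17,18,19,20,21,22]))), .t 8 (nat_lit 0x88b08ad08aa088f088e08dc08db) (.z (.node 2 4 (.node 2 10 (.free 4 [0,2,8,11,12,13,14,15,16,17,18,19,20,21,22]) (.leaf [5,7,9,10,6])) (.free 1 [1,3,4]))), .t 7 (nat_lit 0x1009100408c908c602310230) (.z (.edon 0 16 (.edon 0 12 (.node 2 4 (.node 6 9 (.leaf [0,2,6,10,11]) (.leaf [5,7,9,8])) (.leaf [1,3,4])) (.leaf [12,13,15,14])) (.free 2 [16,17,18,19,20,21,22]))), .t 14 (nat_lit 0x12cb125a120111fe11b411b11187118503de0327032402f902ef)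 (.z (.edon 0 3 (.free 1 [0,1,2]) (.node 5 16 (.edon 0 10 (.leaf [3,4,5,8,6]) (.edon 0 13 (.leaf [10,11,12]) (.edon 15 20 (.leaf [13,17,19,15,14]) (.leaf [18,20,22,21])))) (.leaf [7,9,16])))), .t 16 (nat_lit 0x3df042e042903eb03e604e804e612cb125a120111fe11b411b111871185) (.z (.node 0 3 (.node 5 16 (.node 0 10 (.edon 0 13 (.leaf [0,11,12]) (.edon 15 20 (.leaf [13,17,19,15,14]) (.leaf [18,20,22,21]))) (.leaf [4,5,10,9,6])) (.leaf [7,8,16])) (.free 1 [1,2,3]))), .t 11 (nat_lit 0x3e403df12cb125a120111fe11b411b111871185) (.z (.node 0 3 (.node 5 16 (.node 0 9 (.edon 0 13 (.leaf [0,10,11,12]) (.edon 15 20 (.leaf [13,17,19,15,14]) (.leaf [18,20,22,21]))) (.leaf [4,5,9,6])) (.leaf [7,8,16])) (.free 1 [1,2,3]))), .t 10 (nat_lit 0x125a120111fe11b411b11187118512cb02ee) (.z (.node 5 16 (.edon 0 13 (.node 1 6 (.free 2 [0,1,2,9,10,11,12]) (.leaf [3,4,5,6])) (.node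 18 19 (.leaf [18,20,22,21]) (.leaf [13,17,19,15,14]))) (.free 1 [7,8,16]))), .t 1 (nat_lit 0) (.cn 1 3)] (by decide +kernel) (by decide +kernel)
theorem b185 : B 5920 5952 := Blk.of_chk [.t 10 (nat_lit 0x1048104510400c9a0c981128112610731072) (.z (.node 0 7 (.node 0 11 (.edon 15 19 (.leaf [12,13,16,17,15]) (.free 2 [0,14,18,19,20,21,22])) (.leaf [8,11,10,9])) (.free 2 [1,2,3,4,5,6,7]))), .t 9 (nat_lit 0x1004104510401011100c10bc10ba0002) (.z (.node 16 0 (.edon 0 12 (.edon 4 6 (.free 2 [4,5,7,8,9,10,11]) (.leaf [1,3,6,2])) (.leaf [12,13,16,15,14])) (.free 2 [0,17,18,19,20,21,22]))), .t 7 (nat_lit 0x3ed0334033302fe02f40026) (.z (.node 5 16 (.node 0 11 (.edon 0 15 (.leaf [0,12,13,14]) (.free 2 [15,17,18,19,20,21,22])) (.node 1 11 (.leaf [1,9,10,2]) (.leaf [3,4,5,11,6]))) (.free 1 [7,8,16]))), .t 1 (nat_lit 0) (.cn 1 3), .t 1 (nat_lit 0) (.cn 1 3), .t 10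 (nat_lit 0x8ca08e508e208d108ce1009100409320930) (.z (.edon 0 16 (.edon 0 12 (.node 4 10 (.free 2 [0,1,2,3,4,6,9]) (.leaf [5,7,11,10,8])) (.leaf [12,13,15,14])) (.free 2 [16,17,18,19,20,21,22]))), .t 7 (nat_lit 0x1009100408d108ce02220221) (.z (.edon 0 16 (.edon 0 12 (.node 4 8 (.node 2 4 (.leaf [0,2,6,9,10]) (.leaf [1,3,4])) (.leaf [5,7,11,8])) (.leaf [12,13,15,14])) (.free 2 [16,17,18,19,20,21,22]))), .t 8 (nat_lit 0x10091004036c00b800b60040003c) (.z (.edon 0 16 (.edon 0 12 (.node 2 11 (.leaf [0,2,9,10]) (.edon 4 8 (.leaf [4,5,7]) (.leaf [1,3,8,11,6]))) (.leaf [12,13,15,14])) (.free 2 [16,17,18,19,20,21,22]))), .t 15 (nat_lit 0x12ab128a1285126d1268125a12580df90df703e4032d032902fa02f0) (.z (.edon 0 3 (.free 1 [0,1,2]) (.node 5 16 (.edon 0 14 (.edon 0 10 (.leaf [3,4,5,9,6]) (.leaf [10,13,12,11])) (.edon 0 20 (.leaf [14,15,17,19,18]) (.leaf [20,21,22])))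 (.leaf [7,8,16])))), .t 1 (nat_lit 0) (.cn 6 2), .t 10 (nat_lit 0x3df042e042903eb03e604e804e60e9e0e9c) (.z (.node 0 3 (.node 5 16 (.node 0 10 (.edon 0 15 (.leaf [0,11,12,13,14]) (.free 2 [15,17,18,19,20,21,22])) (.leaf [4,5,10,9,6])) (.leaf [7,8,16])) (.free 1 [1,2,3]))), .t 1 (nat_lit 0) (.cn 1 3), .t 1 (nat_lit 0) (.cn 1 3), .t 4 (nat_lit 0x20d880d86) (.z (.edon 19 4 (.node 0 6 (.edon 0 14 (.leaf [0,9,10,11,12]) (.free 2 [14,15,18,19,20,21,22])) (.leaf [1,3,6,2])) (.free 2 [4,5,7,8,13,16,17]))), .t 12 (nat_lit 0x12cb12a0129e129d0df90df703e4032d032902fa02f0) (.z (.edon 0 3 (.free 1 [0,1,2]) (.node 5 16 (.edon 0 10 (.leaf [3,4,5,9,6]) (.edon 0 14 (.leaf [10,13,12,11]) (.edon 15 20 (.leaf [15,17,19]) (.leaf [14,18,20,22,21])))) (.leaf [7,8,16])))), .t 1 (nat_lit 0) (.cn 1 3), .t 4 (nat_lit 0x20d880d86) (.z (.edon 19 4 (.node 0 6 (.edon 0 13 (.leaf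 [0,9,10,11,12]) (.free 2 [13,14,18,19,20,21,22])) (.leaf [1,3,6,2])) (.free 2 [4,5,7,8,15,16,17]))), .t 1 (nat_lit 0) (.cn 2 3), .t 1 (nat_lit 0) (.cn 2 3), .t 15 (nat_lit 0x3df042e042903eb03e604e804e612ab128a1285126d1268125a1258) (.z (.node 0 3 (.node 5 16 (.node 0 10 (.edon 0 14 (.leaf [0,11,12,13]) (.edon 0 20 (.leaf [14,15,17,19,18]) (.leaf [20,21,22]))) (.leaf [4,5,10,9,6])) (.leaf [7,8,16])) (.free 1 [1,2,3]))), .t 1 (nat_lit 0) (.cn 1 3), .t 1 (nat_lit 0) (.cn 1 3), .t 9 (nat_lit 0x4f00ada0ad80657065504e804e612cb) (.z (.node 0 3 (.node 4 19 (.node 0 11 (.edon 0 18 (.leaf [0,12,13,14]) (.leaf [18,20,22,21])) (.leaf [4,11,10,9,6])) (.free 2 [5,7,8,15,16,17,19])) (.free 1 [1,2,3]))), .t 12 (nat_lit 0x3df042e042903eb03e604e804e612cb12a0129e129d) (.z (.node 0 3 (.node 5 16 (.node 0 10 (.edon 0 14 (.leaf [0,11,12,13]) (.edon 15 20 (.leaf [15,17,19])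 (.leaf [14,18,20,22,21]))) (.leaf [4,5,10,9,6])) (.leaf [7,8,16])) (.free 1 [1,2,3]))), .t 12 (nat_lit 0x3df042e042903eb03e604e804e612c912a012991298) (.z (.node 0 3 (.node 5 16 (.node 0 10 (.edon 0 14 (.leaf [0,11,12,13]) (.edon 15 20 (.leaf [15,18,19]) (.leaf [14,17,20,22,21]))) (.leaf [4,5,10,9,6])) (.leaf [7,8,16])) (.free 1 [1,2,3]))), .t 9 (nat_lit 0x117311c311c0119311900002120b1209) (.z (.edon 19 4 (.node 0 6 (.edon 0 13 (.leaf [0,9,10,12]) (.edon 19 21 (.leaf [19,20,22]) (.leaf [13,15,17,21,14]))) (.leaf [1,3,6,2])) (.free 2 [4,5,7,8,11,16,18]))), .t 9 (nat_lit 0x12cb1009100404e804e60377037502fa) (.z (.edon 0 3 (.free 1 [0,1,2]) (.node 4 19 (.edon 0 12 (.leaf [3,4,10,9,6]) (.edon 0 18 (.leaf [12,13,15,14]) (.leaf [18,20,22,21]))) (.free 2 [5,7,8,11,16,17,19])))), .t 15 (nat_lit 0xeae104510430f6a0f680ea70ea50b980a830a7e0a5e0a5b0a4d0a4c) (.z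 (.node 0 2 (.edon 0 6 (.leaf [0,3,4,5]) (.edon 0 11 (.leaf [6,7,8,10,9]) (.node 14 15 (.free 2 [14,17,18,19,20,21,22]) (.leaf [11,16,15,13,12])))) (.free 1 [1,2]))), .t 6 (nat_lit 0x2780276010301010026) (.z (.node 1 16 (.node 0 11 (.edon 0 15 (.leaf [0,12,13,14]) (.free 2 [15,17,18,19,20,21,22])) (.leaf [1,11,10,9,2])) (.free 2 [3,4,5,6,7,8,16]))), .t 12 (nat_lit 0x12ae12ab12a8017b0039000400020450044b12ba12b4) (.z (.node 5 16 (.node 0 11 (.node 0 14 (.node 0 20 (.leaf [0,21,22]) (.leaf [15,17,19,20,18])) (.leaf [12,13,14])) (.edon 4 6 (.leaf [4,5,11,10]) (.leaf [1,3,6,9,2]))) (.free 1 [7,8,16]))), .t 9 (nat_lit 0x117311b411b111861183120111ff12cb) (.z (.node 1 16 (.edon 0 13 (.free 2 [0,1,2,6,9,10,11]) (.node 18 19 (.leaf [18,20,22,21]) (.leaf [13,15,17,19,14]))) (.free 2 [3,4,5,7,8,12,16]))), .t 5 (nat_lit 0x1245124402220221) (.z (.edon 16 1 (.edon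 0 11 (.leaf [0,2,6,9,10]) (.edon 14 19 (.leaf [14,15,16,17]) (.free 2 [11,13,18,19,20,21,22]))) (.free 2 [1,3,4,5,7,8,12])))] (by decide +kernel) (by decide +kernel)
theorem b186 : B 5952 5984 := Blk.of_chk [.t 9 (nat_lit 0x2612ab128a1285126d1268125a1258) (.z (.edon 0 20 (.node 1 16 (.node 0 10 (.edon 0 14 (.leaf [0,11,12,13]) (.leaf [14,15,17,19,18])) (.leaf [1,9,10,2])) (.free 2 [3,4,5,6,7,8,16])) (.free 1 [20,21,22]))), .t 1 (nat_lit 0) (.cn 1 3), .t 6 (nat_lit 0x20d890d8711dd11db) (.z (.edon 19 4 (.node 0 6 (.node 0 12 (.edon 19 21 (.leaf [19,20,22]) (.leaf [0,13,14,18,21])) (.leaf [9,12,11,10])) (.leaf [1,3,6,2])) (.free 2 [4,5,7,8,15,16,17]))), .t 12 (nat_lit 0x3e403df12ab128a1285126d1268125a12580df80df6) (.z (.node 0 3 (.node 5 16 (.node 0 9 (.edon 0 14 (.leaf [0,10,11,12,13]) (.edon 0 20 (.leaf [14,15,17,19,18]) (.leaf [20,21,22]))) (.leaf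 [4,5,9,6])) (.leaf [7,8,16])) (.free 1 [1,2,3]))), .t 1 (nat_lit 0) (.cn 2 3), .t 4 (nat_lit 0x12cb0e9e0e9c) (.z (.node 4 19 (.node 0 10 (.edon 0 18 (.leaf [0,11,12,13,14]) (.leaf [18,20,22,21])) (.free 2 [1,2,3,4,6,9,10])) (.free 2 [5,7,8,15,16,17,19]))), .t 7 (nat_lit 0x116f116d017c003a00050002) (.z (.node 16 0 (.edon 0 13 (.edon 4 10 (.free 2 [4,5,7,8,9,11,12]) (.leaf [1,3,6,10,2])) (.leaf [13,16,15,14])) (.free 2 [0,17,18,19,20,21,22]))), .t 8 (nat_lit 0x11ef112b11291077107510551053) (.z (.node 0 7 (.edon 0 11 (.leaf [0,8,9,10]) (.edon 13 19 (.leaf [12,16,18,15,13]) (.free 2 [11,14,17,19,20,21,22]))) (.free 2 [1,2,3,4,5,6,7]))), .t 7 (nat_lit 0x124210030fa40fa3088a0888) (.z (.node 2 4 (.edon 0 11 (.node 2 8 (.leaf [0,2,9,10]) (.leaf [5,7,8,6])) (.node 13 14 (.leaf [11,13,20,22,21]) (.free 2 [12,14,15,16,17,18,19]))) (.free 1 [1,3,4]))), .t 6 (nat_lit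 0x2612c912a012991298) (.z (.node 1 16 (.node 0 10 (.edon 0 14 (.leaf [0,11,12,13]) (.edon 15 20 (.leaf [15,18,19]) (.leaf [14,17,20,22,21]))) (.leaf [1,9,10,2])) (.free 2 [3,4,5,6,7,8,16]))), .t 10 (nat_lit 0xca10d890d870cf60cf40c9a0c9812491248) (.z (.node 0 7 (.node 0 12 (.edon 14 19 (.leaf [14,15,16,18]) (.free 2 [0,13,17,19,20,21,22])) (.leaf [8,12,11,10,9])) (.free 2 [1,2,3,4,5,6,7]))), .t 7 (nat_lit 0x124210030fa40fa3088a0888) (.z (.node 2 4 (.edon 0 11 (.node 2 8 (.leaf [0,2,9,10]) (.leaf [5,7,8,6])) (.node 13 19 (.leaf [11,13,20,22,21]) (.free 2 [12,14,15,16,17,18,19]))) (.free 1 [1,3,4]))), .t 5 (nat_lit 0xc9a0c9810371035) (.z (.node 0 7 (.node 0 11 (.node 14 22 (.leaf [0,12,13,14,21]) (.free 2 [15,16,17,18,19,20,22])) (.leaf [8,11,10,9])) (.free 2 [1,2,3,4,5,6,7]))), .t 9 (nat_lit 0x11d311ce11cb123b11e0112811260002) (.z (.node 20 0 (.edon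 0 12 (.edon 4 6 (.free 2 [4,5,7,8,9,10,11]) (.leaf [1,3,6,2])) (.edon 15 19 (.leaf [12,16,17,15]) (.leaf [13,18,19,20,14]))) (.free 1 [0,21,22]))), .t 6 (nat_lit 0x2612cb12a0129e129d) (.z (.node 1 16 (.node 0 10 (.edon 0 14 (.leaf [0,11,12,13]) (.edon 15 20 (.leaf [15,17,19]) (.leaf [14,18,20,22,21]))) (.leaf [1,9,10,2])) (.free 2 [3,4,5,6,7,8,16]))), .t 10 (nat_lit 0x3e603e403df04e704e4042d042b0e9e0e9c) (.z (.node 0 3 (.node 5 16 (.node 0 10 (.edon 0 15 (.leaf [0,11,12,13,14]) (.free 2 [15,17,18,19,20,21,22])) (.leaf [4,5,9,10,6])) (.leaf [7,8,16])) (.free 1 [1,2,3]))), .t 13 (nat_lit 0xdfe0e9e0e9c0e3b0e390df80df603e4032d032902fa02f0) (.z (.edon 0 3 (.free 1 [0,1,2]) (.node 5 16 (.edon 0 10 (.leaf [3,4,5,9,6]) (.edon 0 15 (.leaf [10,11,12,13,14]) (.free 2 [15,17,18,19,20,21,22]))) (.leaf [7,8,16])))), .t 10 (nat_lit 0xca10d890d870cf60cf40c9a0c9811eb11e9)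 (.z (.node 0 7 (.node 0 12 (.edon 15 19 (.leaf [13,16,17,15]) (.free 2 [0,14,18,19,20,21,22])) (.leaf [8,12,11,10,9])) (.free 2 [1,2,3,4,5,6,7]))), .t 15 (nat_lit 0x1257125312510d90128a1285126d126b0df90df70db50db30d890d87) (.z (.edon 0 7 (.free 2 [0,1,2,3,4,5,6]) (.node 13 16 (.edon 0 14 (.leaf [9,13,12,11,10]) (.edon 0 20 (.leaf [14,17,19,18,15]) (.leaf [20,21,22]))) (.leaf [7,8,16])))), .t 1 (nat_lit 0) (.cn 2 3), .t 9 (nat_lit 0x3e403df120111fe12cb12a0129e129d) (.z (.node 0 3 (.node 5 16 (.node 0 9 (.edon 0 13 (.leaf [0,10,11,12]) (.node 18 19 (.leaf [14,18,20,22,21]) (.leaf [13,17,19,15]))) (.leaf [4,5,9,6])) (.leaf [7,8,16])) (.free 1 [1,2,3]))), .t 9 (nat_lit 0x3e403df120111fe12cb12a0129e129d) (.z (.node 0 3 (.node 5 16 (.node 0 9 (.edon 0 13 (.leaf [0,10,11,12]) (.node 14 19 (.leaf [14,18,20,22,21]) (.leaf [13,17,19,15]))) (.leaf [4,5,9,6]))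 (.leaf [7,8,16])) (.free 1 [1,2,3]))), .t 15 (nat_lit 0x3e603e403df11fe11f911f704e704e4042d042b122e122b12121210) (.z (.node 0 3 (.node 5 16 (.node 0 10 (.edon 0 20 (.edon 13 14 (.leaf [13,17,19,18,15]) (.leaf [0,11,12,14])) (.leaf [20,21,22])) (.leaf [4,5,9,10,6])) (.leaf [7,8,16])) (.free 1 [1,2,3]))), .t 9 (nat_lit 0x128d128a128510451040129a12940002) (.z (.node 20 0 (.edon 0 12 (.edon 4 6 (.free 2 [4,5,7,8,9,10,11]) (.leaf [1,3,6,2])) (.node 14 16 (.leaf [14,17,19,20,18]) (.leaf [12,13,16,15]))) (.free 1 [0,21,22]))), .t 15 (nat_lit 0x10b810e510e310c210bf0ada027802730232022f0227022611281127) (.z (.edon 0 20 (.edon 1 16 (.free 2 [1,3,4,5,7,8,13]) (.node 0 11 (.node 0 17 (.leaf [0,18,19]) (.leaf [12,15,16,17,14])) (.leaf [2,6,9,11,10]))) (.free 1 [20,21,22]))), .t 7 (nat_lit 0x116f116d017b003900040002) (.z (.node 16 0 (.edon 0 13 (.edon 4 9 (.free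 2 [4,5,7,8,10,11,12]) (.leaf [1,3,6,9,2])) (.leaf [13,16,15,14])) (.free 2 [0,17,18,19,20,21,22]))), .t 7 (nat_lit 0x17b0039000400020df90df7) (.z (.edon 19 4 (.node 0 9 (.node 0 13 (.free 2 [0,14,18,19,20,21,22]) (.leaf [10,13,12,11])) (.leaf [1,3,6,9,2])) (.free 2 [4,5,7,8,15,16,17]))), .t 6 (nat_lit 0x17d003c0006000212cb) (.z (.node 4 19 (.node 0 11 (.edon 0 18 (.leaf [0,12,13,14]) (.leaf [18,20,22,21])) (.edon 4 6 (.leaf [4,9,10]) (.leaf [1,3,6,11,2]))) (.free 2 [5,7,8,15,16,17,19]))), .t 10 (nat_lit 0x100910040b98090d090808dd08da08cc08cb) (.z (.edon 0 16 (.edon 0 12 (.node 4 9 (.free 2 [0,1,2,3,4,6,11]) (.leaf [5,7,8,10,9])) (.leaf [12,13,15,14])) (.free 2 [16,17,18,19,20,21,22]))), .t 5 (nat_lit 0x20656065312cb) (.z (.node 4 19 (.node 0 11 (.edon 0 18 (.leaf [0,12,13,14]) (.leaf [18,20,22,21])) (.edon 4 6 (.leaf [4,10,11,9]) (.leaf [1,3,6,2])))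 (.free 2 [5,7,8,15,16,17,19]))), .t 11 (nat_lit 0x12ae12ab12a803eb0332032f02fc02f212ba12b4) (.z (.node 5 16 (.node 0 14 (.node 0 20 (.leaf [0,21,22]) (.leaf [15,17,19,20,18])) (.node 1 10 (.free 2 [1,2,9,11,12,13,14]) (.leaf [3,4,5,10,6]))) (.free 1 [7,8,16]))), .t 7 (nat_lit 0x17b00390004000212761275) (.z (.edon 19 4 (.node 0 9 (.node 0 13 (.edon 19 21 (.leaf [19,20,22]) (.leaf [0,14,15,18,21])) (.leaf [11,12,13])) (.leaf [1,3,6,9,2])) (.free 2 [4,5,7,8,10,16,17])))] (by decide +kernel) (by decide +kernel)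
theorem b187 : B 5984 6016 := Blk.of_chk [.t 1 (nat_lit 0) (.cn 2 3), .t 1 (nat_lit 0) (.cn 2 3), .t 9 (nat_lit 0x11fe11f911f70026122e122b12121210) (.z (.edon 0 20 (.node 1 16 (.node 0 10 (.edon 13 14 (.leaf [13,17,19,18,15]) (.leaf [0,11,12,14])) (.leaf [1,10,9,2])) (.free 2 [3,4,5,6,7,8,16])) (.free 1 [20,21,22]))), .t 11 (nat_lit 0x12ae12ab12a803ee03360335030102f712ba12b4) (.z (.node 5 16 (.node 0 14 (.node 0 20 (.leaf [0,21,22]) (.leaf [15,17,19,20,18])) (.node 1 13 (.free 2 [1,2,9,10,11,12,14]) (.leaf [3,4,5,13,6]))) (.free 1 [7,8,16]))), .t 9 (nat_lit 0x3df042e042903eb03e604e804e60006) (.z (.node 5 16 (.node 0 11 (.edon 0 15 (.leaf [0,12,13,14]) (.free 2 [15,17,18,19,20,21,22])) (.node 3 6 (.leaf [1,3,11,2]) (.leaf [4,5,10,9,6]))) (.free 1 [7,8,16]))), .t 1 (nat_lit 0) (.cn 1 3), .t 1 (nat_lit 0) (.cn 3 2), .t 10 (nat_lit 0x12a011691125112403e4032d032902fa02f0)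 (.z (.edon 0 3 (.free 1 [0,1,2]) (.edon 0 11 (.edon 7 9 (.leaf [7,8,10]) (.leaf [3,4,5,9,6])) (.node 14 19 (.leaf [12,14,20,22,21]) (.free 2 [11,13,15,16,17,18,19]))))), .t 9 (nat_lit 0x12a003e4032d032902fa02f00bb00bad) (.z (.edon 0 3 (.free 1 [0,1,2]) (.edon 0 12 (.edon 7 9 (.leaf [7,10,11,8]) (.leaf [3,4,5,9,6])) (.node 14 19 (.leaf [14,20,22,21]) (.free 2 [12,13,15,16,17,18,19]))))), .t 9 (nat_lit 0x12cb03e4032d032902fa02f00bb00bad) (.z (.edon 0 3 (.free 1 [0,1,2]) (.edon 0 12 (.edon 7 9 (.leaf [7,10,11,8]) (.leaf [3,4,5,9,6])) (.node 18 19 (.leaf [18,20,22,21]) (.free 2 [12,13,14,15,16,17,19]))))), .t 12 (nat_lit 0x103711dd11db111c111b1020101e0fe20fe00b980b96) (.z (.edon 0 7 (.free 2 [0,1,2,3,4,5,6]) (.edon 0 11 (.leaf [7,10,9,8]) (.edon 15 19 (.leaf [11,16,17,15]) (.edon 19 21 (.leaf [19,20,22]) (.leaf [12,13,14,18,21])))))), .t 9 (nat_lit 0x11690c990bdd0bda0bb00bad0ba00b9e)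 (.z (.edon 0 7 (.free 2 [0,1,2,3,4,5,6]) (.edon 0 12 (.leaf [7,10,11,9,8]) (.node 12 19 (.leaf [12,20,22,21]) (.free 2 [13,14,15,16,17,18,19]))))), .t 9 (nat_lit 0xea70ea512cb12a0129e129d0b980b96) (.z (.edon 0 7 (.free 2 [0,1,2,3,4,5,6]) (.edon 0 11 (.leaf [7,10,9,8]) (.node 11 19 (.node 14 15 (.leaf [14,18,20,22,21]) (.leaf [11,15,13,12])) (.leaf [16,17,19]))))), .t 7 (nat_lit 0x17b00390004000204170413) (.z (.node 5 16 (.node 0 11 (.edon 0 15 (.leaf [0,12,13,14]) (.free 2 [15,17,18,19,20,21,22])) (.edon 4 9 (.leaf [4,5,11,8]) (.leaf [1,3,6,9,2]))) (.free 1 [7,10,16]))), .t 1 (nat_lit 0) (.cn 2 3), .t 4 (nat_lit 0x12cb0c990c97) (.z (.node 0 7 (.edon 0 12 (.leaf [0,8,9,10,11]) (.node 18 19 (.leaf [18,20,22,21]) (.free 2 [12,13,14,15,16,17,19]))) (.free 2 [1,2,3,4,5,6,7]))), .t 11 (nat_lit 0x125a120111fe11b411b11187118512cb0b980b96) (.z (.edon 0 7 (.free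 2 [0,1,2,3,4,5,6]) (.edon 0 11 (.leaf [7,10,9,8]) (.node 13 16 (.node 18 19 (.leaf [18,20,22,21]) (.leaf [13,17,19,15,14])) (.leaf [11,12,16]))))), .t 7 (nat_lit 0x12cb12a0129e129d0b980b96) (.z (.edon 0 7 (.free 2 [0,1,2,3,4,5,6]) (.edon 0 11 (.leaf [7,10,9,8]) (.node 14 19 (.leaf [14,18,20,22,21]) (.free 2 [11,12,13,15,16,17,19]))))), .t 10 (nat_lit 0x8c608dd08da08cd08ca10091004090d090b) (.z (.edon 0 16 (.edon 0 12 (.node 2 4 (.node 6 9 (.leaf [0,2,6,11]) (.leaf [5,7,10,9,8])) (.leaf [1,3,4])) (.leaf [12,13,15,14])) (.free 2 [16,17,18,19,20,21,22]))), .t 7 (nat_lit 0x100910040227022608cd08ca) (.z (.edon 0 16 (.edon 0 12 (.node 2 4 (.edon 5 9 (.leaf [5,7,10,8]) (.leaf [0,2,6,9,11])) (.leaf [1,3,4])) (.leaf [12,13,15,14])) (.free 2 [16,17,18,19,20,21,22]))), .t 15 (nat_lit 0x12ab128a1285126d1268125a12580db50db303de0327032402f902ef) (.z (.edon 0 3 (.free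 1 [0,1,2]) (.node 5 16 (.edon 0 14 (.edon 0 9 (.leaf [3,4,5,8,6]) (.leaf [9,13,12,11])) (.edon 0 20 (.leaf [14,15,17,19,18]) (.leaf [20,21,22]))) (.leaf [7,10,16])))), .t 6 (nat_lit 0x212a312a210371035) (.z (.edon 21 19 (.node 0 11 (.node 14 18 (.leaf [0,12,13,14,21]) (.leaf [15,16,17,18])) (.edon 4 6 (.free 2 [4,5,7,8,9,10,11]) (.leaf [1,3,6,2]))) (.free 1 [19,20,22]))), .t 9 (nat_lit 0x116903de0327032402f902ef0bdd0bda) (.z (.edon 0 3 (.free 1 [0,1,2]) (.edon 0 12 (.edon 7 8 (.leaf [7,10,11,9]) (.leaf [3,4,5,8,6])) (.node 12 19 (.leaf [12,20,22,21]) (.free 2 [13,14,15,16,17,18,19]))))), .t 10 (nat_lit 0x3d90409040403e403df04bc04ba0e9e0e9c) (.z (.node 0 3 (.node 5 16 (.node 0 9 (.edon 0 15 (.leaf [0,11,12,13,14]) (.free 2 [15,17,18,19,20,21,22])) (.leaf [4,5,9,8,6])) (.leaf [7,10,16])) (.free 1 [1,2,3]))), .t 9 (nat_lit 0x12c903de0327032402f902ef0bdd0bda)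 (.z (.edon 0 3 (.free 1 [0,1,2]) (.edon 0 12 (.edon 7 8 (.leaf [7,10,11,9]) (.leaf [3,4,5,8,6])) (.node 17 19 (.leaf [17,20,22,21]) (.free 2 [12,13,14,15,16,18,19]))))), .t 9 (nat_lit 0x8c608dd08da08cd08ca12c9090d090b) (.z (.node 2 4 (.edon 0 12 (.node 6 8 (.leaf [0,2,6,11]) (.leaf [5,7,10,9,8])) (.node 17 19 (.leaf [17,20,22,21]) (.free 2 [12,13,14,15,16,18,19]))) (.free 1 [1,3,4]))), .t 9 (nat_lit 0x12cb0c990bdd0bda0bb00bad0ba00b9e) (.z (.edon 0 7 (.free 2 [0,1,2,3,4,5,6]) (.edon 0 12 (.leaf [7,10,11,9,8]) (.node 18 19 (.leaf [18,20,22,21]) (.free 2 [12,13,14,15,16,17,19]))))), .t 9 (nat_lit 0x12cb03de0327032402f902ef0bdd0bda) (.z (.edon 0 3 (.free 1 [0,1,2]) (.edon 0 12 (.edon 7 8 (.leaf [7,10,11,9]) (.leaf [3,4,5,8,6])) (.node 18 19 (.leaf [18,20,22,21]) (.free 2 [12,13,14,15,16,17,19]))))), .t 14 (nat_lit 0x117311b411b111861183120111ff12cb03de0327032402f902ef)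 (.z (.edon 0 3 (.free 1 [0,1,2]) (.node 5 16 (.edon 0 13 (.edon 0 9 (.leaf [3,4,5,8,6]) (.leaf [9,11,12])) (.node 18 19 (.leaf [18,20,22,21]) (.leaf [13,15,17,19,14]))) (.leaf [7,10,16])))), .t 1 (nat_lit 0) (.fa 3), .t 6 (nat_lit 0x6111c111b11eb11e9) (.z (.edon 21 19 (.node 0 11 (.edon 13 18 (.leaf [13,16,17,15]) (.leaf [0,12,14,18,21])) (.edon 4 11 (.free 2 [4,5,6,7,8,9,10]) (.leaf [1,3,11,2]))) (.free 1 [19,20,22]))), .t 6 (nat_lit 0x61037103512a312a2) (.z (.edon 21 19 (.node 0 11 (.edon 15 21 (.leaf [15,16,17,18]) (.leaf [0,12,13,14,21])) (.edon 4 11 (.free 2 [4,5,6,7,8,9,10]) (.leaf [1,3,11,2]))) (.free 1 [19,20,22])))] (by decide +kernel) (by decide +kernel)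
theorem b188 : B 6016 6048 := Blk.of_chk [.t 9 (nat_lit 0x6124511eb11e9119d119b11771175) (.z (.edon 21 19 (.node 0 11 (.edon 14 18 (.leaf [13,16,17,15,14]) (.leaf [0,12,18,21])) (.edon 4 11 (.free 2 [4,5,6,7,8,9,10]) (.leaf [1,3,11,2]))) (.free 1 [19,20,22]))), .t 9 (nat_lit 0x8c608dd08da08cd08ca12cb090d090b) (.z (.node 0 3 (.edon 0 12 (.node 4 8 (.leaf [0,4,6,11]) (.leaf [5,7,10,9,8])) (.node 18 19 (.leaf [18,20,22,21]) (.free 2 [12,13,14,15,16,17,19]))) (.free 1 [1,2,3]))), .t 11 (nat_lit 0x10d203de03d9125a12581137113510c210c012cb) (.z (.node 0 3 (.node 5 16 (.node 0 8 (.edon 0 12 (.leaf [0,9,10,11]) (.node 18 19 (.leaf [18,20,22,21]) (.leaf [12,14,15,17,19]))) (.leaf [4,5,8,6])) (.leaf [7,13,16])) (.free 1 [1,2,3]))), .t 9 (nat_lit 0xba012cb0c9a0c980bde0bdc0b980b96) (.z (.edon 0 7 (.free 2 [0,1,2,3,4,5,6]) (.edon 0 12 (.leaf [7,11,10,9,8]) (.node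 18 19 (.leaf [18,20,22,21]) (.free 2 [12,13,14,15,16,17,19]))))), .t 9 (nat_lit 0x3de03d912ab12a812a0116911251124) (.z (.node 0 3 (.node 5 16 (.node 0 8 (.edon 0 12 (.leaf [0,9,10,11]) (.node 14 19 (.leaf [12,14,20,22,21]) (.leaf [15,17,19,18]))) (.leaf [4,5,8,6])) (.leaf [7,13,16])) (.free 1 [1,2,3]))), .t 7 (nat_lit 0x12a01169112511240b980b96) (.z (.edon 0 7 (.free 2 [0,1,2,3,4,5,6]) (.edon 0 11 (.leaf [7,10,9,8]) (.node 14 19 (.leaf [12,14,20,22,21]) (.free 2 [11,13,15,16,17,18,19]))))), .t 10 (nat_lit 0x12af12aa12a90c9a0c981011100c12ba12b4) (.z (.node 0 7 (.node 0 11 (.node 0 20 (.leaf [0,21,22]) (.node 15 16 (.leaf [15,18,19,20,17]) (.leaf [12,13,16,14]))) (.leaf [8,11,10,9])) (.free 2 [1,2,3,4,5,6,7]))), .t 6 (nat_lit 0x12c90210020f08e408e3) (.z (.node 2 4 (.edon 0 12 (.edon 5 8 (.leaf [5,7,10,11]) (.leaf [0,2,6,8,9])) (.node 17 19 (.leaf [17,20,22,21])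 (.free 2 [12,13,14,15,16,18,19]))) (.free 1 [1,3,4]))), .t 10 (nat_lit 0xefa0f140f120f040f0211c311c10fe50fe4) (.z (.node 0 3 (.node 0 10 (.edon 12 19 (.leaf [11,15,16,18,12]) (.edon 19 21 (.leaf [19,20,22]) (.leaf [0,13,14,17,21]))) (.free 2 [4,5,6,7,8,9,10])) (.free 1 [1,2,3]))), .t 9 (nat_lit 0x1011116f116d10bc10ba100910070004) (.z (.node 16 0 (.edon 0 12 (.edon 4 9 (.free 2 [4,5,6,7,8,10,11]) (.leaf [1,3,9,2])) (.leaf [12,16,15,14,13])) (.free 2 [0,17,18,19,20,21,22]))), .t 1 (nat_lit 0) (.cn 2 2), .t 1 (nat_lit 0) (.cn 2 3), .t 8 (nat_lit 0x3de03d9126c126912c90da10d9f) (.z (.node 0 3 (.node 5 16 (.node 0 8 (.edon 0 14 (.leaf [0,9,10,12,13]) (.node 17 19 (.leaf [17,20,22,21]) (.leaf [14,18,19,15]))) (.leaf [4,5,8,6])) (.leaf [7,11,16])) (.free 1 [1,2,3]))), .t 14 (nat_lit 0x3e603de03d912af12aa12a904c304c00410040e000412ba12b4) (.z (.node 5 16 (.node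 0 10 (.node 0 13 (.node 0 20 (.leaf [0,21,22]) (.leaf [15,18,19,20,17])) (.leaf [11,12,13])) (.node 3 6 (.leaf [1,3,9,2]) (.leaf [4,5,8,10,6]))) (.free 1 [7,14,16]))), .t 1 (nat_lit 0) (.cn 2 2), .t 12 (nat_lit 0x12af12aa12a9017b0039000400020410040e12ba12b4) (.z (.node 5 16 (.node 0 10 (.node 0 13 (.node 0 20 (.leaf [0,21,22]) (.leaf [15,18,19,20,17])) (.leaf [11,12,13])) (.edon 4 6 (.leaf [4,5,8,10]) (.leaf [1,3,6,9,2]))) (.free 1 [7,14,16]))), .t 10 (nat_lit 0x4f304e804e308d108ce065d065a0511050f) (.z (.node 0 3 (.node 0 12 (.edon 0 16 (.leaf [0,13,14,15]) (.free 2 [16,17,18,19,20,21,22])) (.node 4 8 (.leaf [4,6,10,12,9]) (.leaf [5,7,11,8]))) (.free 1 [1,2,3]))), .t 5 (nat_lit 0x17e003d00070002) (.z (.edon 0 16 (.node 0 12 (.leaf [0,13,14,15]) (.node 6 9 (.leaf [1,3,6,12,2]) (.free 2 [4,5,7,8,9,10,11]))) (.free 2 [16,17,18,19,20,21,22]))), .t 12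 (nat_lit 0x17b00390004000212aa12891286126c1269125b1259) (.z (.edon 0 20 (.node 5 16 (.node 0 9 (.edon 0 14 (.leaf [0,10,11,13]) (.leaf [14,18,19,17,15])) (.node 3 8 (.leaf [1,3,6,9,2]) (.leaf [4,5,8]))) (.leaf [7,12,16])) (.free 1 [20,21,22]))), .t 7 (nat_lit 0x18b004c000800070fa80fa6) (.z (.node 16 0 (.edon 4 12 (.edon 0 11 (.free 2 [4,5,6,7,8,9,10]) (.leaf [11,15,16,14])) (.leaf [1,3,12,13,2])) (.free 2 [0,17,18,19,20,21,22]))), .t 6 (nat_lit 0x12c91008100502220221) (.z (.node 4 19 (.edon 0 12 (.node 2 4 (.leaf [0,2,6,9,10]) (.leaf [1,3,4])) (.edon 0 17 (.leaf [12,14,15,13]) (.leaf [17,20,22,21]))) (.free 2 [5,7,8,11,16,18,19]))), .t 10 (nat_lit 0xc9a0c981249112b112910e910e710cb10c9) (.z (.node 0 7 (.node 0 11 (.edon 15 19 (.leaf [12,16,18,15,14]) (.free 2 [0,13,17,19,20,21,22])) (.leaf [8,11,10,9])) (.free 2 [1,2,3,4,5,6,7]))), .t 14 (nat_lit 0x12af12aa12a9090d05a705a2042e04290410040e000212ba12b4)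 (.z (.node 5 16 (.node 0 10 (.node 0 13 (.node 0 20 (.leaf [0,21,22]) (.leaf [15,18,19,20,17])) (.leaf [11,12,13])) (.node 3 9 (.leaf [1,3,6,2]) (.leaf [4,5,8,10,9]))) (.free 1 [7,14,16]))), .t 9 (nat_lit 0x12c908cd08ca04f004ee037d037b02fa) (.z (.edon 0 3 (.free 1 [0,1,2]) (.edon 0 12 (.node 4 10 (.leaf [3,4,11,9,6]) (.leaf [5,7,10,8])) (.node 17 19 (.leaf [17,20,22,21]) (.free 2 [12,13,14,15,16,18,19]))))), .t 1 (nat_lit 0) (.cp 2 3), .t 10 (nat_lit 0xc990c9612b4115c1150113d113b11a111a0) (.z (.node 0 7 (.node 0 11 (.node 0 20 (.leaf [0,21,22]) (.edon 13 19 (.leaf [13,14,16,18]) (.leaf [12,19,20,17,15]))) (.leaf [8,10,11,9])) (.free 2 [1,2,3,4,5,6,7]))), .t 10 (nat_lit 0x12af12aa12a90c990c961010100d12ba12b4) (.z (.node 0 7 (.node 0 11 (.node 0 20 (.leaf [0,21,22]) (.node 15 16 (.leaf [15,18,19,20,17]) (.leaf [12,14,16,13]))) (.leaf [8,10,11,9])) (.free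 2 [1,2,3,4,5,6,7]))), .t 10 (nat_lit 0x10c610bc10b70c990c96112b112910e910e8) (.z (.node 0 7 (.node 0 11 (.edon 15 19 (.leaf [12,14,16,18,15]) (.free 2 [0,13,17,19,20,21,22])) (.leaf [8,10,11,9])) (.free 2 [1,2,3,4,5,6,7]))), .t 10 (nat_lit 0x88e088a08881008100508cd08ca089f089d) (.z (.edon 0 16 (.edon 0 12 (.edon 1 9 (.edon 0 5 (.leaf [1,3,4]) (.leaf [5,7,10,8,6])) (.leaf [0,2,9,11])) (.leaf [12,14,15,13])) (.free 2 [16,17,18,19,20,21,22]))), .t 15 (nat_lit 0x3d90411040c03eb03e612af12aa12a904c404c20db40db212ba12b4) (.z (.node 0 3 (.node 5 16 (.node 0 13 (.node 0 20 (.leaf [0,21,22]) (.leaf [15,18,19,20,17])) (.node 9 10 (.leaf [9,11,12,13]) (.leaf [4,5,10,8,6]))) (.leaf [7,14,16])) (.free 1 [1,2,3]))), .t 6 (nat_lit 0x20411040c0db40db2) (.z (.node 5 16 (.edon 0 15 (.node 9 10 (.leaf [0,9,11,12,13]) (.edon 4 6 (.leaf [4,5,10,8]) (.leaf [1,3,6,2])))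 (.free 2 [15,17,18,19,20,21,22])) (.free 1 [7,14,16]))), .t 10 (nat_lit 0x1232122d122c0c990c9610bc10b7123b1234) (.z (.node 0 7 (.node 0 11 (.node 0 20 (.leaf [0,21,22]) (.node 13 16 (.leaf [13,18,19,20,17]) (.leaf [12,14,16,15]))) (.leaf [8,10,11,9])) (.free 2 [1,2,3,4,5,6,7])))] (by decide +kernel) (by decide +kernel)

end Pool.Agent.GCP.F7
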