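import Pool.Agent.GCP.F7Db

set_option autoImplicit false
set_option maxRecDepth 100000

/-! # Blocks F7B7 (generated) -/

namespace Pool.Agent.GCP.F7

open Pool.Agent.GCP DB

theorem b189 : B 6048 6080 := Blk.of_chk [.t 7 (nat_lit 0x17b0039000400020df80df6) (.z (.node 5 16 (.node 0 9 (.edon 0 15 (.leaf [0,10,11,12,13]) (.free 2 [15,17,18,19,20,21,22])) (.node 3 8 (.leaf [1,3,6,9,2]) (.leaf [4,5,8]))) (.free 1 [7,14,16]))), .t 10 (nat_lit 0xc9a0c9812b4115c1150113d113b11a111a0) (.z (.node 0 7 (.node 0 11 (.node 0 20 (.leaf [0,21,22]) (.edon 13 19 (.leaf [13,14,16,18]) (.leaf [12,19,20,17,15]))) (.leaf [8,11,10,9])) (.free 2 [1,2,3,4,5,6,7]))), .t 7 (nat_lit 0xc9a0c981140113f11a111a0) (.z (.node 0 7 (.node 0 11 (.edon 13 19 (.leaf [13,14,16,18]) (.edon 19 21 (.leaf [19,20,22]) (.leaf [0,12,15,17,21]))) (.leaf [8,11,10,9])) (.free 2 [1,2,3,4,5,6,7]))),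 .t 8 (nat_lit 0x10080f410f3e0ed40ed10ea70ea5) (.z (.edon 0 16 (.edon 0 11 (.node 2 8 (.leaf [0,2,9,10]) (.free 2 [1,3,4,5,6,7,8])) (.leaf [11,14,15,13,12])) (.free 2 [16,17,18,19,20,21,22]))), .t 10 (nat_lit 0x3df03de03d904bb04b8040804060df80df6) (.z (.node 0 3 (.node 5 16 (.node 0 9 (.edon 0 15 (.leaf [0,10,11,12,13]) (.free 2 [15,17,18,19,20,21,22])) (.leaf [4,5,8,9,6])) (.leaf [7,14,16])) (.free 1 [1,2,3]))), .t 10 (nat_lit 0x1050104510400c9a0c98112b112910771076) (.z (.node 0 7 (.node 0 11 (.edon 15 19 (.leaf [12,13,16,18,15]) (.free 2 [0,14,17,19,20,21,22])) (.leaf [8,11,10,9])) (.free 2 [1,2,3,4,5,6,7]))), .t 9 (nat_lit 0x20c9a0c9812b41294127912621260) (.z (.edon 19 4 (.node 0 6 (.node 0 11 (.node 0 20 (.leaf [0,21,22]) (.leaf [14,19,20,17,15])) (.leaf [8,11,10,9])) (.leaf [1,3,6,2])) (.free 2 [4,5,7,12,13,16,18]))), .t 11 (nat_lit 0x117b11ce11cb118611831211120f12c90c9a0c98)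 (.z (.node 0 3 (.node 5 16 (.edon 0 8 (.leaf [0,4,5,6]) (.edon 0 13 (.leaf [8,11,10,9]) (.node 17 19 (.leaf [17,20,22,21]) (.leaf [13,15,18,19,14])))) (.leaf [7,12,16])) (.free 1 [1,2,3]))), .t 6 (nat_lit 0x20c9a0c9811c311c1) (.z (.edon 19 4 (.node 0 6 (.node 0 11 (.edon 19 21 (.leaf [19,20,22]) (.leaf [0,13,14,17,21])) (.leaf [8,11,10,9])) (.leaf [1,3,6,2])) (.free 2 [4,5,7,12,15,16,18]))), .t 13 (nat_lit 0xca1128e128912860d890d870cf60cf40c9a0c98129a1294) (.z (.node 0 7 (.node 0 12 (.node 0 20 (.leaf [0,21,22]) (.node 14 16 (.leaf [14,18,19,20,17]) (.leaf [13,15,16]))) (.leaf [8,12,11,10,9])) (.free 2 [1,2,3,4,5,6,7]))), .t 8 (nat_lit 0x3e403df126c126912c90df80df6) (.z (.node 0 3 (.node 5 16 (.node 0 9 (.edon 0 14 (.leaf [0,10,11,12,13]) (.node 17 19 (.leaf [17,20,22,21]) (.leaf [14,18,19,15]))) (.leaf [4,5,9,6])) (.leaf [7,8,16])) (.free 1 [1,2,3]))),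 .t 7 (nat_lit 0xc9a0c981265126410771075) (.z (.node 0 7 (.node 0 11 (.edon 13 19 (.leaf [12,16,18,13]) (.edon 19 21 (.leaf [19,20,22]) (.leaf [0,14,15,17,21]))) (.leaf [8,11,10,9])) (.free 2 [1,2,3,4,5,6,7]))), .t 7 (nat_lit 0xc9a0c9811c311c1112b1129) (.z (.node 0 7 (.node 0 11 (.edon 15 19 (.leaf [12,16,18,15]) (.edon 19 21 (.leaf [19,20,22]) (.leaf [0,13,14,17,21]))) (.leaf [8,11,10,9])) (.free 2 [1,2,3,4,5,6,7]))), .t 11 (nat_lit 0x3df03de03d904bb04b804080406126c126912c9) (.z (.node 0 3 (.node 5 16 (.node 0 9 (.edon 0 14 (.leaf [0,10,11,13]) (.node 17 19 (.leaf [17,20,22,21]) (.leaf [14,18,19,15]))) (.leaf [4,5,8,9,6])) (.leaf [7,12,16])) (.free 1 [1,2,3]))), .t 7 (nat_lit 0x17b00390004000212651264) (.z (.edon 19 4 (.node 0 9 (.node 0 13 (.edon 19 21 (.leaf [19,20,22]) (.leaf [0,14,15,17,21])) (.leaf [10,11,13])) (.leaf [1,3,6,9,2])) (.free 2 [4,5,7,8,12,16,18]))),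 .t 1 (nat_lit 0) (.cn 2 3), .t 6 (nat_lit 0x20c9a0c98120b1209) (.z (.edon 19 4 (.node 0 6 (.node 0 11 (.edon 19 21 (.leaf [19,20,22]) (.leaf [0,13,15,17,21])) (.leaf [8,11,10,9])) (.leaf [1,3,6,2])) (.free 2 [4,5,7,12,14,16,18]))), .t 8 (nat_lit 0x3de03d9126c126912c90d8f0d8d) (.z (.node 0 3 (.node 5 16 (.node 0 8 (.edon 0 14 (.leaf [0,9,10,11,13]) (.node 17 19 (.leaf [17,20,22,21]) (.leaf [14,18,19,15]))) (.leaf [4,5,8,6])) (.leaf [7,12,16])) (.free 1 [1,2,3]))), .t 12 (nat_lit 0x12af12aa12a9017b0039000400020e130e1112ba12b4) (.z (.node 5 16 (.node 0 9 (.node 0 14 (.node 0 20 (.leaf [0,21,22]) (.leaf [15,18,19,20,17])) (.leaf [10,14,13,11])) (.node 3 8 (.leaf [1,3,6,9,2]) (.leaf [4,5,8]))) (.free 1 [7,12,16]))), .t 7 (nat_lit 0x17b0039000400020f410f3f) (.z (.edon 0 16 (.node 4 12 (.node 0 10 (.leaf [0,11,13,14,15]) (.edon 4 6 (.leaf [4,8,10]) (.leaf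 [1,3,6,9,2]))) (.leaf [5,7,12])) (.free 2 [16,17,18,19,20,21,22]))), .t 5 (nat_lit 0x17d003c00060002) (.z (.edon 0 16 (.node 0 12 (.leaf [0,13,14,15]) (.edon 4 11 (.free 2 [4,5,7,8,9,10,12]) (.leaf [1,3,6,11,2]))) (.free 2 [16,17,18,19,20,21,22]))), .t 6 (nat_lit 0x2120b120910e910e7) (.z (.edon 21 19 (.node 0 11 (.edon 12 15 (.leaf [12,16,18,14]) (.leaf [0,13,15,17,21])) (.edon 4 6 (.free 2 [4,5,7,8,9,10,11]) (.leaf [1,3,6,2]))) (.free 1 [19,20,22]))), .t 1 (nat_lit 0) (.cn 3 2), .t 6 (nat_lit 0x210e910e7120b1209) (.z (.edon 21 19 (.node 0 11 (.node 13 18 (.leaf [0,13,15,17,21]) (.leaf [12,16,18,14])) (.edon 4 6 (.free 2 [4,5,7,8,9,10,11]) (.leaf [1,3,6,2]))) (.free 1 [19,20,22]))), .t 6 (nat_lit 0x210e910e7120b1209) (.z (.edon 21 19 (.node 0 11 (.node 15 18 (.leaf [0,13,15,17,21]) (.leaf [12,16,18,14])) (.edon 4 6 (.free 2 [4,5,7,8,9,10,11]) (.leaf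 [1,3,6,2]))) (.free 1 [19,20,22]))), .t 8 (nat_lit 0xea6100810060f410f3f0e9e0e9c) (.z (.edon 0 16 (.node 0 10 (.leaf [0,11,12,13,14,15]) (.free 3 [1,2,3,4,5,6,7,8,9,10])) (.free 2 [16,17,18,19,20,21,22]))), .t 5 (nat_lit 0x17c003a00050002) (.z (.edon 0 16 (.node 0 12 (.leaf [0,13,14,15]) (.edon 4 6 (.free 2 [4,5,7,8,9,11,12]) (.leaf [1,3,6,10,2]))) (.free 2 [16,17,18,19,20,21,22]))), .t 1 (nat_lit 0) (.cn 3 3), .t 1 (nat_lit 0) (.cn 3 3), .t 9 (nat_lit 0x12b41234121f1207120610e910e70005) (.z (.node 20 0 (.edon 0 12 (.edon 4 10 (.free 2 [4,5,6,7,8,9,11]) (.leaf [1,3,10,2])) (.edon 14 19 (.leaf [12,16,18,14]) (.leaf [13,19,20,17,15]))) (.free 1 [0,21,22]))), .t 10 (nat_lit 0x1247124512431282127f125412520ecb0ec9) (.z (.node 0 7 (.edon 0 11 (.leaf [0,8,9,10]) (.edon 19 21 (.leaf [19,20,22]) (.node 13 17 (.leaf [11,12,13,21]) (.leaf [14,16,18,17,15]))))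 (.free 2 [1,2,3,4,5,6,7]))), .t 9 (nat_lit 0x17c003a00050002120b120910e910e7) (.z (.edon 12 4 (.node 0 11 (.edon 14 19 (.leaf [12,16,18,14]) (.edon 19 21 (.leaf [19,20,22]) (.leaf [0,13,15,17,21]))) (.node 6 11 (.leaf [1,3,6,10,2]) (.leaf [8,9,11]))) (.free 1 [4,5,7])))] (by decide +kernel) (by decide +kernel)
theorem b190 : B 6080 6112 := Blk.of_chk [.t 1 (nat_lit 0) (.cn 2 2), .t 8 (nat_lit 0x3de03d912c9126c12690df80df6) (.z (.node 0 3 (.node 5 16 (.node 0 8 (.edon 0 14 (.leaf [0,10,11,12,13]) (.edon 14 20 (.leaf [14,18,19,15]) (.leaf [17,20,22,21]))) (.leaf [4,5,8,6])) (.leaf [7,9,16])) (.free 1 [1,2,3]))), .t 8 (nat_lit 0x3de03d912c9126c12690df80df6) (.z (.node 0 3 (.node 5 16 (.node 0 8 (.edon 0 14 (.leaf [0,10,11,12,13]) (.edon 15 20 (.leaf [14,18,19,15]) (.leaf [17,20,22,21]))) (.leaf [4,5,8,6])) (.leaf [7,9,16])) (.free 1 [1,2,3]))), .t 8 (nat_lit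 0xc950cbb0cb60ca10c9d0cf60cf4) (.z (.node 0 7 (.node 0 12 (.edon 0 16 (.leaf [0,13,14,15]) (.free 2 [16,17,18,19,20,21,22])) (.leaf [8,9,12,11,10])) (.free 2 [1,2,3,4,5,6,7]))), .t 11 (nat_lit 0x3e603e403df04e704e4042d042b126c126912c9) (.z (.node 0 3 (.node 5 16 (.node 0 10 (.edon 0 14 (.leaf [0,11,12,13]) (.node 17 19 (.leaf [17,20,22,21]) (.leaf [14,18,19,15]))) (.leaf [4,5,9,10,6])) (.leaf [7,8,16])) (.free 1 [1,2,3]))), .t 9 (nat_lit 0x108d10881085115c10ae124912470002) (.z (.node 20 0 (.edon 0 12 (.edon 4 6 (.free 2 [4,5,7,8,9,10,11]) (.leaf [1,3,6,2])) (.edon 15 19 (.leaf [14,16,18,15]) (.leaf [12,17,19,20,13]))) (.free 1 [0,21,22]))), .t 12 (nat_lit 0x126c126912c91242123a123903de0327032402f902ef) (.z (.edon 0 3 (.free 1 [0,1,2]) (.node 5 16 (.edon 0 10 (.leaf [3,4,5,8,6]) (.edon 0 13 (.leaf [10,11,12]) (.node 17 19 (.leaf [13,17,20,22,21]) (.leaf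 [14,18,19,15])))) (.leaf [7,9,16])))), .t 12 (nat_lit 0x12c91242123a12390d890d8703de0327032402f902ef) (.z (.edon 0 3 (.free 1 [0,1,2]) (.node 5 16 (.edon 0 9 (.leaf [3,4,5,8,6]) (.edon 0 13 (.leaf [9,12,11,10]) (.edon 15 20 (.leaf [15,18,19]) (.leaf [13,17,20,22,21])))) (.leaf [7,14,16])))), .t 7 (nat_lit 0x1008100508c908c602310230) (.z (.edon 0 16 (.edon 0 12 (.node 2 4 (.node 6 9 (.leaf [0,2,6,10,11]) (.leaf [5,7,9,8])) (.leaf [1,3,4])) (.leaf [12,14,15,13])) (.free 2 [16,17,18,19,20,21,22]))), .t 6 (nat_lit 0x2040904040df80df6) (.z (.node 5 16 (.node 0 9 (.edon 0 15 (.leaf [0,10,11,12,13]) (.free 2 [15,17,18,19,20,21,22])) (.edon 4 6 (.leaf [4,5,9,8]) (.leaf [1,3,6,2]))) (.free 1 [7,14,16]))), .t 10 (nat_lit 0x12c91242123a123904e703760373031102fc) (.z (.edon 0 3 (.free 1 [0,1,2]) (.node 4 19 (.edon 0 11 (.leaf [3,4,9,10,6]) (.edon 11 17 (.leaf [11,12,15])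 (.leaf [13,17,20,22,21]))) (.free 2 [5,7,8,14,16,18,19])))), .t 8 (nat_lit 0x10c610bc10b7112b112910e910e8) (.z (.node 0 7 (.edon 0 11 (.leaf [0,8,9,10]) (.edon 15 19 (.leaf [12,14,16,18,15]) (.free 2 [11,13,17,19,20,21,22]))) (.free 2 [1,2,3,4,5,6,7]))), .t 9 (nat_lit 0x10c610bc10b70002112b112910e910e8) (.z (.edon 0 20 (.node 0 11 (.edon 15 19 (.leaf [12,14,16,18,15]) (.leaf [0,13,17,19])) (.edon 4 6 (.free 2 [4,5,7,8,9,10,11]) (.leaf [1,3,6,2]))) (.free 1 [20,21,22]))), .t 10 (nat_lit 0x8ca08e508e208d108ce1008100509320930) (.z (.edon 0 16 (.edon 0 12 (.node 4 10 (.free 2 [0,1,2,3,4,6,9]) (.leaf [5,7,11,10,8])) (.leaf [12,14,15,13])) (.free 2 [16,17,18,19,20,21,22]))), .t 9 (nat_lit 0x10c610bc10b70002112b112910e910e8) (.z (.edon 21 19 (.node 0 11 (.edon 12 17 (.leaf [12,14,16,18,15]) (.leaf [0,13,17,21])) (.edon 4 6 (.free 2 [4,5,7,8,9,10,11]) (.leaf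 [1,3,6,2]))) (.free 1 [19,20,22]))), .t 10 (nat_lit 0x1008100508cd08ca04f004ee037d037b02fa) (.z (.edon 0 16 (.edon 0 3 (.leaf [0,1,2]) (.edon 0 12 (.node 4 10 (.leaf [3,4,11,9,6]) (.leaf [5,7,10,8])) (.leaf [12,14,15,13]))) (.free 2 [16,17,18,19,20,21,22]))), .t 7 (nat_lit 0x1008100508cd08ca02270226) (.z (.edon 0 16 (.edon 0 12 (.node 2 4 (.node 6 10 (.leaf [0,2,6,9,11]) (.leaf [5,7,10,8])) (.leaf [1,3,4])) (.leaf [12,14,15,13])) (.free 2 [16,17,18,19,20,21,22]))), .t 5 (nat_lit 0x12c91242123a1239) (.z (.node 0 7 (.edon 0 11 (.leaf [0,8,9,10]) (.node 13 19 (.leaf [13,17,20,22,21]) (.free 2 [11,12,14,15,16,18,19]))) (.free 2 [1,2,3,4,5,6,7]))), .t 10 (nat_lit 0x12af12aa12a90c9a0c951010100d12ba12b4) (.z (.node 0 7 (.node 0 11 (.node 0 20 (.leaf [0,21,22]) (.node 15 16 (.leaf [15,18,19,20,17]) (.leaf [12,14,16,13]))) (.leaf [8,9,11,10])) (.free 2 [1,2,3,4,5,6,7]))),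 .t 5 (nat_lit 0x8d608d50ea60ea4) (.z (.edon 0 16 (.node 4 8 (.node 0 10 (.leaf [0,11,12,13,15]) (.free 2 [1,2,3,4,6,9,10])) (.leaf [5,7,14,8])) (.free 2 [16,17,18,19,20,21,22]))), .t 14 (nat_lit 0x10581055105011461143109e109c12c903de0327032402f902ef) (.z (.edon 0 3 (.free 1 [0,1,2]) (.node 5 16 (.edon 0 9 (.leaf [3,4,5,8,6]) (.edon 0 12 (.leaf [9,10,11]) (.node 17 19 (.leaf [17,20,22,21]) (.leaf [12,13,18,19,15])))) (.leaf [7,14,16])))), .t 11 (nat_lit 0x3df03de03d904bb04b804080406120111fe12cb) (.z (.node 0 3 (.node 5 16 (.node 0 9 (.edon 0 13 (.leaf [0,10,11,12]) (.node 18 19 (.leaf [18,20,22,21]) (.leaf [13,17,19,15]))) (.leaf [4,5,8,9,6])) (.leaf [7,14,16])) (.free 1 [1,2,3]))), .t 14 (nat_lit 0x1058104d1048113711341088108612cb03de0327032402f902ef) (.z (.edon 0 3 (.free 1 [0,1,2]) (.node 5 16 (.edon 0 9 (.leaf [3,4,5,8,6]) (.edon 0 12 (.leaf [9,10,11])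 (.node 18 19 (.leaf [18,20,22,21]) (.leaf [12,13,17,19,15])))) (.leaf [7,14,16])))), .t 10 (nat_lit 0x2150a820a80024e024c0210020f0ea60ea4) (.z (.edon 0 16 (.node 4 14 (.node 0 10 (.leaf [0,11,12,13,15]) (.node 2 4 (.leaf [2,6,8,9,10]) (.leaf [1,3,4]))) (.leaf [5,7,14])) (.free 2 [16,17,18,19,20,21,22]))), .t 11 (nat_lit 0x120111fe12cb0d890d8703de0327032402f902ef) (.z (.edon 0 3 (.free 1 [0,1,2]) (.node 5 16 (.edon 0 9 (.leaf [3,4,5,8,6]) (.edon 0 13 (.leaf [9,12,11,10]) (.node 18 19 (.leaf [18,20,22,21]) (.leaf [13,17,19,15])))) (.leaf [7,14,16])))), .t 10 (nat_lit 0x88b088a08881008100508c908c608990897) (.z (.edon 0 16 (.edon 0 12 (.edon 1 10 (.edon 0 5 (.leaf [1,3,4]) (.leaf [5,7,9,8,6])) (.leaf [0,2,10,11])) (.leaf [12,14,15,13])) (.free 2 [16,17,18,19,20,21,22]))), .t 10 (nat_lit 0x10be10bc10b70c9a0c951128112610e510e4) (.z (.node 0 7 (.node 0 11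 (.edon 15 19 (.leaf [12,14,16,17,15]) (.free 2 [0,13,18,19,20,21,22])) (.leaf [8,9,11,10])) (.free 2 [1,2,3,4,5,6,7]))), .t 8 (nat_lit 0x8de08f208ef08e108e0097a0978) (.z (.edon 0 16 (.node 0 12 (.leaf [0,13,14,15]) (.node 4 9 (.free 2 [1,2,3,4,6,8,10]) (.leaf [5,7,12,11,9]))) (.free 2 [16,17,18,19,20,21,22]))), .t 9 (nat_lit 0x40c04090404000205a605a3042d042b) (.z (.node 5 16 (.node 0 10 (.edon 0 15 (.leaf [0,11,12,13]) (.free 2 [15,17,18,19,20,21,22])) (.edon 4 6 (.leaf [4,5,9,10,8]) (.leaf [1,3,6,2]))) (.free 1 [7,14,16]))), .t 8 (nat_lit 0x8ce08f208ef08d308d209450943) (.z (.edon 0 16 (.node 0 12 (.leaf [0,13,14,15]) (.node 4 11 (.free 2 [1,2,3,4,6,9,10]) (.leaf [5,7,12,11,8]))) (.free 2 [16,17,18,19,20,21,22]))), .t 9 (nat_lit 0x4100002090c090a05a605a404080406) (.z (.node 5 16 (.node 0 10 (.edon 0 15 (.leaf [0,11,12,13]) (.free 2 [15,17,18,19,20,21,22]))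 (.edon 4 6 (.leaf [4,5,8,9,10]) (.leaf [1,3,6,2]))) (.free 1 [7,14,16]))), .t 7 (nat_lit 0x1008100508df08de02150214) (.z (.edon 0 16 (.edon 0 12 (.node 2 4 (.node 8 9 (.leaf [0,2,6,8,10]) (.leaf [5,7,11,9])) (.leaf [1,3,4])) (.leaf [12,14,15,13])) (.free 2 [16,17,18,19,20,21,22])))] (by decide +kernel) (by decide +kernel)
theorem b191 : B 6112 6144 := Blk.of_chk [.t 10 (nat_lit 0x100d100810050c9a0c9510bc10b710451043) (.z (.node 0 7 (.node 0 11 (.node 0 16 (.free 2 [0,17,18,19,20,21,22]) (.leaf [12,14,16,15,13])) (.leaf [8,9,11,10])) (.free 2 [1,2,3,4,5,6,7]))), .t 11 (nat_lit 0x12ab115a1157114711421137113512420c9a0c95) (.z (.node 0 3 (.node 5 16 (.edon 0 8 (.leaf [0,4,5,6]) (.edon 0 12 (.leaf [8,9,11,10]) (.node 13 19 (.leaf [13,20,22,21]) (.leaf [12,15,17,19,18])))) (.leaf [7,14,16])) (.free 1 [1,2,3]))), .t 11 (nat_lit 0x104910881085105c10591137113512cb0c9a0c95)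 (.z (.node 0 3 (.node 5 16 (.edon 0 8 (.leaf [0,4,5,6]) (.edon 0 12 (.leaf [8,9,11,10]) (.node 18 19 (.leaf [18,20,22,21]) (.leaf [12,15,17,19,13])))) (.leaf [7,14,16])) (.free 1 [1,2,3]))), .t 10 (nat_lit 0x10be10bc10b70c9a0c951128112610e510e4) (.z (.node 0 7 (.node 0 11 (.edon 19 21 (.leaf [19,20,22]) (.node 13 17 (.leaf [0,13,18,21]) (.leaf [12,14,16,17,15]))) (.leaf [8,9,11,10])) (.free 2 [1,2,3,4,5,6,7]))), .t 12 (nat_lit 0x12cb12421240123f0d890d8703de0327032402f902ef) (.z (.edon 0 3 (.free 1 [0,1,2]) (.node 5 16 (.edon 0 9 (.leaf [3,4,5,8,6]) (.edon 0 13 (.leaf [9,12,11,10]) (.edon 15 20 (.leaf [15,17,19]) (.leaf [13,18,20,22,21])))) (.leaf [7,14,16])))), .t 7 (nat_lit 0xc9a0c9510ab10aa12451243) (.z (.node 0 7 (.node 0 11 (.edon 15 19 (.leaf [14,16,17,15]) (.edon 19 21 (.leaf [19,20,22]) (.leaf [0,12,13,18,21]))) (.leaf [8,9,11,10])) (.free 2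 [1,2,3,4,5,6,7]))), .t 1 (nat_lit 0) (.cn 3 2), .t 10 (nat_lit 0x1172116f116a0c9a0c9511eb11e9119d119c) (.z (.node 0 7 (.node 0 11 (.edon 15 19 (.leaf [13,14,16,17,15]) (.free 2 [0,12,18,19,20,21,22])) (.leaf [8,9,11,10])) (.free 2 [1,2,3,4,5,6,7]))), .t 7 (nat_lit 0x204090404120111fe12cb) (.z (.node 5 16 (.node 0 9 (.edon 0 13 (.leaf [0,10,11,12]) (.node 18 19 (.leaf [18,20,22,21]) (.leaf [13,17,19,15]))) (.edon 4 6 (.leaf [4,5,9,8]) (.leaf [1,3,6,2]))) (.free 1 [7,14,16]))), .t 9 (nat_lit 0x12cb03de0327032402f902ef0bde0bdc) (.z (.edon 0 3 (.free 1 [0,1,2]) (.edon 0 12 (.edon 7 8 (.leaf [7,11,10,9]) (.leaf [3,4,5,8,6])) (.node 18 19 (.leaf [18,20,22,21]) (.free 2 [12,13,14,15,16,17,19]))))), .t 14 (nat_lit 0x40c0409040412ae12ab12a805a605a3042d042b000212ba12b4) (.z (.node 5 16 (.node 0 10 (.node 0 13 (.node 0 20 (.leaf [0,21,22]) (.leaf [15,17,19,20,18]))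 (.leaf [11,12,13])) (.node 3 8 (.leaf [1,3,6,2]) (.leaf [4,5,9,10,8]))) (.free 1 [7,14,16]))), .t 6 (nat_lit 0x12cb08c908c602310230) (.z (.node 2 4 (.edon 0 12 (.node 6 8 (.leaf [0,2,6,10,11]) (.leaf [5,7,9,8])) (.node 18 19 (.leaf [18,20,22,21]) (.free 2 [12,13,14,15,16,17,19]))) (.free 1 [1,3,4]))), .t 6 (nat_lit 0x12cb08c908c602310230) (.z (.node 2 4 (.edon 0 12 (.node 6 9 (.leaf [0,2,6,10,11]) (.leaf [5,7,9,8])) (.node 18 19 (.leaf [18,20,22,21]) (.free 2 [12,13,14,15,16,17,19]))) (.free 1 [1,3,4]))), .t 14 (nat_lit 0x41012ae12ab12a80002090c090a05a605a40408040612ba12b4) (.z (.node 5 16 (.node 0 10 (.node 0 13 (.node 0 20 (.leaf [0,21,22]) (.leaf [15,17,19,20,18])) (.leaf [11,12,13])) (.edon 4 6 (.leaf [4,5,8,9,10]) (.leaf [1,3,6,2]))) (.free 1 [7,14,16]))), .t 12 (nat_lit 0x3d90411040c03eb03e604c404c21097109512491247) (.z (.node 0 3 (.node 0 11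 (.edon 15 19 (.leaf [14,16,18,15]) (.edon 19 21 (.leaf [19,20,22]) (.leaf [0,12,13,17,21]))) (.edon 7 10 (.leaf [7,9,11]) (.leaf [4,5,10,8,6]))) (.free 1 [1,2,3]))), .t 11 (nat_lit 0x3d90409040403e403df04bc04ba1211120e12c9) (.z (.node 0 3 (.node 5 16 (.node 0 9 (.edon 0 13 (.leaf [0,10,11,12]) (.node 17 19 (.leaf [17,20,22,21]) (.leaf [13,18,19,15]))) (.leaf [4,5,9,8,6])) (.leaf [7,14,16])) (.free 1 [1,2,3]))), .t 10 (nat_lit 0x117a116f116a0c9a0c9511ef11ed11a111a0) (.z (.node 0 7 (.node 0 11 (.edon 15 19 (.leaf [13,14,16,18,15]) (.free 2 [0,12,17,19,20,21,22])) (.leaf [8,9,11,10])) (.free 2 [1,2,3,4,5,6,7]))), .t 11 (nat_lit 0x3df03de03d904bb04b8040804061211120e12c9) (.z (.node 0 3 (.node 5 16 (.node 0 9 (.edon 0 13 (.leaf [0,10,11,12]) (.node 17 19 (.leaf [17,20,22,21]) (.leaf [13,18,19,15]))) (.leaf [4,5,8,9,6])) (.leaf [7,14,16])) (.free 1 [1,2,3]))),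 .t 7 (nat_lit 0xc9a0c9810ab10aa12451243) (.z (.node 0 7 (.node 0 11 (.edon 15 19 (.leaf [14,16,17,15]) (.edon 19 21 (.leaf [19,20,22]) (.leaf [0,12,13,18,21]))) (.leaf [8,11,10,9])) (.free 2 [1,2,3,4,5,6,7]))), .t 12 (nat_lit 0x12ae12ab12a8017c003a000500020408040612ba12b4) (.z (.node 5 16 (.node 0 10 (.node 0 13 (.node 0 20 (.leaf [0,21,22]) (.leaf [15,17,19,20,18])) (.leaf [11,12,13])) (.edon 4 6 (.leaf [4,5,8,9]) (.leaf [1,3,6,10,2]))) (.free 1 [7,14,16]))), .t 12 (nat_lit 0x12ae12ab12a8017c003a000500020e9f0e9d12ba12b4) (.z (.node 5 16 (.node 0 10 (.node 0 14 (.node 0 20 (.leaf [0,21,22]) (.leaf [15,17,19,20,18])) (.leaf [11,14,13,12])) (.edon 4 6 (.leaf [4,5,9]) (.leaf [1,3,6,10,2]))) (.free 1 [7,8,16]))), .t 15 (nat_lit 0x3e603e403df12ae12ab12a804e704e4042d042b0e9f0e9d12ba12b4) (.z (.node 0 3 (.node 5 16 (.node 0 10 (.node 0 14 (.node 0 20 (.leaf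 [0,21,22]) (.leaf [15,17,19,20,18])) (.leaf [11,14,13,12])) (.leaf [4,5,9,10,6])) (.leaf [7,8,16])) (.free 1 [1,2,3]))), .t 8 (nat_lit 0xe9b0ed40ed10ea60ea30f410f3f) (.z (.node 0 7 (.edon 0 11 (.leaf [0,8,9,10]) (.edon 0 16 (.leaf [11,13,14,15,12]) (.free 2 [16,17,18,19,20,21,22]))) (.free 2 [1,2,3,4,5,6,7]))), .t 9 (nat_lit 0x3e403df125a125712cb12421240123f) (.z (.node 0 3 (.node 5 16 (.node 0 9 (.edon 0 13 (.leaf [0,10,11,12]) (.node 18 19 (.leaf [13,18,20,22,21]) (.leaf [14,17,19,15]))) (.leaf [4,5,9,6])) (.leaf [7,8,16])) (.free 1 [1,2,3]))), .t 15 (nat_lit 0x3df03de03d912ae12ab12a804bb04b8040804060e3c0e3a12ba12b4) (.z (.node 0 3 (.node 5 16 (.node 0 9 (.node 0 14 (.node 0 20 (.leaf [0,21,22]) (.leaf [15,17,19,20,18])) (.leaf [10,14,13,12])) (.leaf [4,5,8,9,6])) (.leaf [7,11,16])) (.free 1 [1,2,3]))), .t 9 (nat_lit 0x3de03d9125a125712cb12421240123f)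 (.z (.node 0 3 (.node 5 16 (.node 0 8 (.edon 0 13 (.leaf [0,9,10,12]) (.node 18 19 (.leaf [13,18,20,22,21]) (.leaf [14,17,19,15]))) (.leaf [4,5,8,6])) (.leaf [7,11,16])) (.free 1 [1,2,3]))), .t 7 (nat_lit 0x125a125712cb12421240123f) (.z (.node 5 16 (.node 0 9 (.edon 0 13 (.leaf [0,10,11,12]) (.node 18 19 (.leaf [13,18,20,22,21]) (.leaf [14,17,19,15]))) (.free 2 [1,2,3,4,5,6,9])) (.free 1 [7,8,16]))), .t 5 (nat_lit 0x12cb116911671166) (.z (.node 0 7 (.edon 0 11 (.leaf [0,8,9,10]) (.node 18 19 (.leaf [12,18,20,22,21]) (.free 2 [11,13,14,15,16,17,19]))) (.free 2 [1,2,3,4,5,6,7]))), .t 12 (nat_lit 0x12ae12ab12a803de03d9018300430005000412ba12b4) (.z (.node 5 16 (.node 0 10 (.node 0 13 (.node 0 20 (.leaf [0,21,22]) (.leaf [15,17,19,20,18])) (.leaf [11,12,13])) (.node 3 6 (.leaf [1,3,9,10,2]) (.leaf [4,5,8,6]))) (.free 1 [7,14,16]))), .t 9 (nat_lit 0x12ab12a81242116910b610b50c9a0c98)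 (.z (.node 0 3 (.node 5 16 (.edon 0 8 (.leaf [0,4,5,6]) (.edon 0 12 (.leaf [8,11,10,9]) (.node 13 19 (.leaf [12,13,20,22,21]) (.leaf [15,17,19,18])))) (.leaf [7,14,16])) (.free 1 [1,2,3]))), .t 6 (nat_lit 0x12cb08df08de02150214) (.z (.node 2 4 (.edon 0 12 (.node 8 9 (.leaf [0,2,6,8,10]) (.leaf [5,7,11,9])) (.node 18 19 (.leaf [18,20,22,21]) (.free 2 [12,13,14,15,16,17,19]))) (.free 1 [1,3,4]))), .t 6 (nat_lit 0x12cb024e024c08910890) (.z (.node 2 4 (.edon 0 12 (.edon 6 9 (.leaf [5,7,11,6]) (.leaf [0,2,8,9,10])) (.node 18 19 (.leaf [18,20,22,21]) (.free 2 [12,13,14,15,16,17,19]))) (.free 1 [1,3,4])))] (by decide +kernel) (by decide +kernel)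
theorem b192 : B 6144 6176 := Blk.of_chk [.t 9 (nat_lit 0x1c201ba01b812cb020b020a01cb01ca) (.z (.node 2 4 (.edon 0 12 (.edon 6 9 (.leaf [2,5,7,11,6]) (.leaf [0,8,9,10])) (.node 18 19 (.leaf [18,20,22,21]) (.free 2 [12,13,14,15,16,17,19]))) (.free 1 [1,3,4]))), .t 10 (nat_lit 0xecb10ab10aa0f9c0f9b0eb90eb712451243) (.z (.node 0 7 (.edon 0 11 (.leaf [0,8,9,10]) (.edon 15 19 (.leaf [14,16,17,15]) (.edon 19 21 (.leaf [19,20,22]) (.leaf [11,12,13,18,21])))) (.free 2 [1,2,3,4,5,6,7]))), .t 1 (nat_lit 0) (.cn 2 3), .t 7 (nat_lit 0x17c003a00050002111c111b) (.z (.edon 19 4 (.node 0 11 (.edon 19 21 (.leaf [19,20,22]) (.leaf [0,12,14,18,21])) (.edon 8 10 (.leaf [8,9,11]) (.leaf [1,3,6,10,2]))) (.free 2 [4,5,7,13,15,16,17]))), .t 9 (nat_lit 0x2150a820a80024e024c0210020f12cb) (.z (.node 4 19 (.node 0 10 (.edon 0 18 (.leaf [0,11,12,14]) (.leaf [18,20,22,21])) (.node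 2 4 (.leaf [2,6,8,9,10]) (.leaf [1,3,4]))) (.free 2 [5,7,13,15,16,17,19]))), .t 16 (nat_lit 0x3df03de03d910d204bb04b804080406125a12581137113510c210c012cb) (.z (.node 0 3 (.node 5 16 (.node 0 9 (.edon 0 12 (.leaf [0,10,11]) (.node 18 19 (.leaf [18,20,22,21]) (.leaf [12,14,15,17,19]))) (.leaf [4,5,8,9,6])) (.leaf [7,13,16])) (.free 1 [1,2,3]))), .t 9 (nat_lit 0x12cb08c808c7050b05090386038502fc) (.z (.edon 0 3 (.free 1 [0,1,2]) (.edon 0 12 (.node 4 9 (.leaf [3,4,11,10,6]) (.leaf [5,7,8,9])) (.node 18 19 (.leaf [18,20,22,21]) (.free 2 [12,13,14,15,16,17,19]))))), .t 9 (nat_lit 0xada027802730232022f0227022612cb) (.z (.node 4 19 (.node 0 11 (.edon 0 18 (.leaf [0,12,13,14]) (.leaf [18,20,22,21])) (.node 2 4 (.leaf [2,6,9,11,10]) (.leaf [1,3,4]))) (.free 2 [5,7,8,15,16,17,19]))), .t 1 (nat_lit 0) (.fa 3), .t 6 (nat_lit 0x12cb0222022108d008cf) (.z (.node 2 4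 (.edon 0 12 (.edon 5 9 (.leaf [5,7,8,11]) (.leaf [0,2,6,9,10])) (.node 18 19 (.leaf [18,20,22,21]) (.free 2 [12,13,14,15,16,17,19]))) (.free 1 [1,3,4]))), .t 6 (nat_lit 0x12cb0222022108d108ce) (.z (.node 2 4 (.edon 0 12 (.edon 5 9 (.leaf [5,7,11,8]) (.leaf [0,2,6,9,10])) (.node 18 19 (.leaf [18,20,22,21]) (.free 2 [12,13,14,15,16,17,19]))) (.free 1 [1,3,4]))), .t 15 (nat_lit 0x3df03de03d911b111ad11aa04bb04b804080406122e122b11cf11cd) (.z (.node 0 3 (.node 5 16 (.node 0 9 (.edon 0 13 (.leaf [0,10,11,12]) (.edon 0 20 (.leaf [13,17,19,18,14]) (.leaf [20,21,22]))) (.leaf [4,5,8,9,6])) (.leaf [7,15,16])) (.free 1 [1,2,3]))), .t 9 (nat_lit 0x1249000512a312a21281128012451244) (.z (.edon 21 19 (.node 0 11 (.node 13 18 (.leaf [0,12,13,21]) (.leaf [14,15,16,17,18])) (.edon 4 10 (.free 2 [4,5,6,7,8,9,11]) (.leaf [1,3,10,2]))) (.free 1 [19,20,22]))), .t 9 (nat_lit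 0x1249000212a312a21281128012451244) (.z (.edon 21 19 (.node 0 11 (.node 13 18 (.leaf [0,12,13,21]) (.leaf [14,15,16,17,18])) (.edon 4 6 (.free 2 [4,5,7,8,9,10,11]) (.leaf [1,3,6,2]))) (.free 1 [19,20,22]))), .t 10 (nat_lit 0x12490ecb0ec912a312a21281128012451244) (.z (.node 0 3 (.node 0 10 (.edon 14 21 (.edon 0 19 (.leaf [14,15,16,17,18]) (.leaf [19,20,22])) (.leaf [0,11,12,13,21])) (.free 2 [4,5,6,7,8,9,10])) (.free 1 [1,2,3]))), .t 5 (nat_lit 0x12cb12a0129e129d) (.z (.node 0 7 (.edon 0 11 (.leaf [0,8,9,10]) (.node 18 19 (.leaf [14,18,20,22,21]) (.free 2 [11,12,13,15,16,17,19]))) (.free 2 [1,2,3,4,5,6,7]))), .t 9 (nat_lit 0x88808980895088d088b12a008c808c7) (.z (.node 2 4 (.edon 0 12 (.node 2 9 (.leaf [0,2,10,11]) (.leaf [5,7,8,9,6])) (.node 14 19 (.leaf [14,20,22,21]) (.free 2 [12,13,15,16,17,18,19]))) (.free 1 [1,3,4]))), .t 6 (nat_lit 0x12cb08d108ce04e704e5)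 (.z (.node 0 3 (.edon 0 12 (.node 4 8 (.leaf [0,4,6,9,10]) (.leaf [5,7,11,8])) (.node 18 19 (.leaf [18,20,22,21]) (.free 2 [12,13,14,15,16,17,19]))) (.free 1 [1,2,3]))), .t 12 (nat_lit 0x376037402220221017b00bf00be0039000500040002) (.z (.edon 4 19 (.free 2 [4,5,7,8,15,16,17]) (.node 10 0 (.leaf [1,3,6,9,10,2]) (.free 3 [0,11,12,13,14,18,19,20,21,22])))), .t 10 (nat_lit 0xeee1110110e0fd60fd40ee80ee611eb11ea) (.z (.node 0 7 (.edon 0 11 (.leaf [0,8,9,10]) (.edon 13 19 (.leaf [13,15,16,17]) (.edon 0 20 (.leaf [11,19,18,14,12]) (.leaf [20,21,22])))) (.free 2 [1,2,3,4,5,6,7]))), .t 10 (nat_lit 0xecb10ab10aa0f9c0f9b0eb90eb712451243) (.z (.node 0 7 (.edon 0 11 (.leaf [0,8,9,10]) (.edon 14 19 (.leaf [14,16,17,15]) (.edon 19 21 (.leaf [19,20,22]) (.leaf [11,12,13,18,21])))) (.free 2 [1,2,3,4,5,6,7]))), .t 16 (nat_lit 0x40c0409040411b111ad11aa000205a605a3042d042b122e122b11cf11cd)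 (.z (.edon 0 20 (.node 5 16 (.node 0 10 (.edon 0 13 (.leaf [0,11,12]) (.leaf [13,17,19,18,14])) (.edon 4 6 (.leaf [4,5,9,10,8]) (.leaf [1,3,6,2]))) (.leaf [7,15,16])) (.free 1 [20,21,22]))), .t 9 (nat_lit 0x890088d088b12cb08df08de08b208b1) (.z (.node 2 4 (.edon 0 12 (.node 2 9 (.leaf [0,2,8,10]) (.leaf [5,7,11,9,6])) (.node 18 19 (.leaf [18,20,22,21]) (.free 2 [12,13,14,15,16,17,19]))) (.free 1 [1,3,4]))), .t 10 (nat_lit 0x12cb12a0129e129d04bc04ba0361035f02f9) (.z (.edon 0 3 (.free 1 [0,1,2]) (.node 4 19 (.edon 0 10 (.leaf [3,4,9,8,6]) (.edon 0 14 (.leaf [10,11,12]) (.leaf [14,18,20,22,21]))) (.free 2 [5,7,13,15,16,17,19])))), .t 9 (nat_lit 0x12cb08df08de04c404c20368036602f9) (.z (.edon 0 3 (.free 1 [0,1,2]) (.edon 0 12 (.node 4 9 (.leaf [3,4,10,8,6]) (.leaf [5,7,11,9])) (.node 18 19 (.leaf [18,20,22,21]) (.free 2 [12,13,14,15,16,17,19]))))), .t 14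 (nat_lit 0x4290450044b0435043112ae12ab12a806570655000212ba12b4) (.z (.node 5 16 (.node 0 11 (.node 0 14 (.node 0 20 (.leaf [0,21,22]) (.leaf [15,17,19,20,18])) (.leaf [12,13,14])) (.node 3 9 (.leaf [1,3,6,2]) (.leaf [4,5,11,10,9]))) (.free 1 [7,8,16]))), .t 9 (nat_lit 0xb930bb10bac0ba00b9b12cb0bde0bdc) (.z (.edon 0 7 (.free 2 [0,1,2,3,4,5,6]) (.edon 0 12 (.leaf [7,8,11,10,9]) (.node 18 19 (.leaf [18,20,22,21]) (.free 2 [12,13,14,15,16,17,19]))))), .t 7 (nat_lit 0xc9a0c9810ab10aa12451243) (.z (.node 0 7 (.node 0 11 (.edon 14 19 (.leaf [14,16,17,15]) (.edon 19 21 (.leaf [19,20,22]) (.leaf [0,12,13,18,21]))) (.leaf [8,11,10,9])) (.free 2 [1,2,3,4,5,6,7]))), .t 9 (nat_lit 0x12cb08d108ce04e804e60377037502fa) (.z (.edon 0 3 (.free 1 [0,1,2]) (.edon 0 12 (.node 4 8 (.leaf [3,4,10,9,6]) (.leaf [5,7,11,8])) (.node 18 19 (.leaf [18,20,22,21]) (.free 2 [12,13,14,15,16,17,19]))))),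 .t 6 (nat_lit 0x12cb0210020f08e508e2) (.z (.node 2 4 (.edon 0 12 (.edon 5 8 (.leaf [5,7,11,10]) (.leaf [0,2,6,8,9])) (.node 18 19 (.leaf [18,20,22,21]) (.free 2 [12,13,14,15,16,17,19]))) (.free 1 [1,3,4]))), .t 6 (nat_lit 0x12cb0222022108d108ce) (.z (.node 2 4 (.edon 0 12 (.edon 5 10 (.leaf [5,7,11,8]) (.leaf [0,2,6,9,10])) (.node 18 19 (.leaf [18,20,22,21]) (.free 2 [12,13,14,15,16,17,19]))) (.free 1 [1,3,4]))), .t 6 (nat_lit 0x20c9a0c98111c111b) (.z (.edon 19 4 (.node 0 6 (.node 0 11 (.edon 19 21 (.leaf [19,20,22]) (.leaf [0,12,14,18,21])) (.leaf [8,11,10,9])) (.leaf [1,3,6,2])) (.free 2 [4,5,7,13,15,16,17])))] (by decide +kernel) (by decide +kernel)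
theorem b193 : B 6176 6208 := Blk.of_chk [.t 1 (nat_lit 0) (.cn 1 3), .t 6 (nat_lit 0x17c003a0005000212cb) (.z (.node 4 19 (.node 0 10 (.edon 0 18 (.leaf [0,11,12,14]) (.leaf [18,20,22,21])) (.node 3 9 (.leaf [1,3,6,10,2]) (.leaf [4,8,9]))) (.free 2 [5,7,13,15,16,17,19]))), .t 5 (nat_lit 0x1009100402220221) (.z (.edon 0 16 (.edon 0 12 (.edon 1 9 (.free 2 [1,3,4,5,7,8,11]) (.leaf [0,2,6,9,10])) (.leaf [12,13,15,14])) (.free 2 [16,17,18,19,20,21,22]))), .t 6 (nat_lit 0x18300430005000412cb) (.z (.node 4 19 (.node 0 10 (.edon 0 18 (.leaf [0,11,12,14]) (.leaf [18,20,22,21])) (.node 3 6 (.leaf [1,3,9,10,2]) (.leaf [4,6,8]))) (.free 2 [5,7,13,15,16,17,19]))), .t 14 (nat_lit 0x12ae12ab12a80002090d05a705a2042e04290410040e12ba12b4) (.z (.node 5 16 (.node 0 10 (.node 0 14 (.node 0 20 (.leaf [0,21,22]) (.leaf [15,17,19,20,18])) (.leaf [11,12,14])) (.edon 4 6 (.leaf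 [4,5,8,10,9]) (.leaf [1,3,6,2]))) (.free 1 [7,13,16]))), .t 10 (nat_lit 0x12490c9a0c9812a312a21281128012451244) (.z (.node 0 7 (.node 0 11 (.edon 18 19 (.leaf [14,15,16,17,18]) (.free 2 [0,12,13,19,20,21,22])) (.leaf [8,11,10,9])) (.free 2 [1,2,3,4,5,6,7]))), .t 7 (nat_lit 0x12cb116911671166088a0888) (.z (.node 2 4 (.edon 0 11 (.node 2 8 (.leaf [0,2,9,10]) (.leaf [5,7,8,6])) (.node 18 19 (.leaf [12,18,20,22,21]) (.free 2 [11,13,14,15,16,17,19]))) (.free 1 [1,3,4]))), .t 7 (nat_lit 0x1242116910b610b5088a0888) (.z (.node 2 4 (.edon 0 11 (.node 2 8 (.leaf [0,2,9,10]) (.leaf [5,7,8,6])) (.node 13 19 (.leaf [12,13,20,22,21]) (.free 2 [11,14,15,16,17,18,19]))) (.free 1 [1,3,4]))), .t 7 (nat_lit 0x17c003a0005000212761275) (.z (.edon 19 4 (.node 0 10 (.node 0 13 (.edon 19 21 (.leaf [19,20,22]) (.leaf [0,14,15,18,21])) (.leaf [11,12,13])) (.leaf [1,3,6,10,2]))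 (.free 2 [4,5,7,8,9,16,17]))), .t 9 (nat_lit 0xb930bb10bac0ba00b9b11690bde0bdc) (.z (.edon 0 7 (.free 2 [0,1,2,3,4,5,6]) (.edon 0 12 (.leaf [7,8,11,10,9]) (.node 12 19 (.leaf [12,20,22,21]) (.free 2 [13,14,15,16,17,18,19]))))), .t 7 (nat_lit 0x116910030f3c0f3b088a0888) (.z (.node 2 4 (.edon 0 11 (.node 2 8 (.leaf [0,2,9,10]) (.leaf [5,7,8,6])) (.node 12 19 (.leaf [11,12,20,22,21]) (.free 2 [13,14,15,16,17,18,19]))) (.free 1 [1,3,4]))), .t 9 (nat_lit 0x11690ba00915091008df08de08d008cf) (.z (.node 0 3 (.edon 0 12 (.node 4 9 (.leaf [0,4,6,10]) (.leaf [5,7,8,11,9])) (.node 12 19 (.leaf [12,20,22,21]) (.free 2 [13,14,15,16,17,18,19]))) (.free 1 [1,2,3]))), .t 9 (nat_lit 0x17c003a00050002040804060e9f0e9d) (.z (.node 5 16 (.node 0 10 (.node 0 14 (.free 2 [0,17,18,19,20,21,22]) (.leaf [11,14,13,12])) (.edon 4 6 (.leaf [4,5,8,9]) (.leaf [1,3,6,10,2]))) (.free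 1 [7,15,16]))), .t 8 (nat_lit 0x124912a312a21281128012451244) (.z (.node 0 7 (.edon 0 11 (.leaf [0,8,9,10]) (.edon 18 19 (.leaf [14,15,16,17,18]) (.free 2 [11,12,13,19,20,21,22]))) (.free 2 [1,2,3,4,5,6,7]))), .t 6 (nat_lit 0x11690222022108d008cf) (.z (.node 2 4 (.edon 0 12 (.edon 5 9 (.leaf [5,7,8,11]) (.leaf [0,2,6,9,10])) (.node 12 19 (.leaf [12,20,22,21]) (.free 2 [13,14,15,16,17,18,19]))) (.free 1 [1,3,4]))), .t 9 (nat_lit 0x116908df08de04c404c20368036602f9) (.z (.edon 0 3 (.free 1 [0,1,2]) (.edon 0 12 (.node 4 9 (.leaf [3,4,10,8,6]) (.leaf [5,7,11,9])) (.node 12 19 (.leaf [12,20,22,21]) (.free 2 [13,14,15,16,17,18,19]))))), .t 7 (nat_lit 0x12cb12a0129e129d0210020f) (.z (.node 4 19 (.edon 0 10 (.node 2 4 (.leaf [0,2,6,8,9]) (.leaf [1,3,4])) (.edon 0 14 (.leaf [10,12,13]) (.leaf [14,18,20,22,21]))) (.free 2 [5,7,11,15,16,17,19]))), .t 7 (nat_lit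 0x12cb12a0129e129d02220221) (.z (.node 4 19 (.edon 0 12 (.node 2 4 (.leaf [0,2,6,9,10]) (.leaf [1,3,4])) (.node 14 15 (.leaf [14,18,20,22,21]) (.leaf [12,13,15]))) (.free 2 [5,7,8,11,16,17,19]))), .t 12 (nat_lit 0xea70ea512cb12a0129e129d03e4032d032902fa02f0) (.z (.edon 0 3 (.free 1 [0,1,2]) (.edon 0 11 (.edon 7 9 (.leaf [7,8,10]) (.leaf [3,4,5,9,6])) (.node 11 19 (.node 14 15 (.leaf [14,18,20,22,21]) (.leaf [11,15,13,12])) (.leaf [16,17,19]))))), .t 1 (nat_lit 0) (.cn 2 3), .t 6 (nat_lit 0x12a00210020f08e508e2) (.z (.node 2 4 (.edon 0 12 (.edon 5 8 (.leaf [5,7,11,10]) (.leaf [0,2,6,8,9])) (.node 14 19 (.leaf [14,20,22,21]) (.free 2 [12,13,15,16,17,18,19]))) (.free 1 [1,3,4]))), .t 6 (nat_lit 0x124208df08de02150214) (.z (.node 2 4 (.edon 0 12 (.node 8 9 (.leaf [0,2,6,8,10]) (.leaf [5,7,11,9])) (.edon 12 20 (.free 2 [12,14,15,16,17,18,19]) (.leaf [13,20,22,21])))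 (.free 1 [1,3,4]))), .t 6 (nat_lit 0x12420222022108d108ce) (.z (.node 2 4 (.edon 0 12 (.edon 5 9 (.leaf [5,7,11,8]) (.leaf [0,2,6,9,10])) (.edon 12 20 (.free 2 [12,14,15,16,17,18,19]) (.leaf [13,20,22,21]))) (.free 1 [1,3,4]))), .t 5 (nat_lit 0xda10d9f0d3c0d3b) (.z (.node 0 7 (.edon 8 19 (.leaf [8,11,16,17]) (.edon 0 14 (.leaf [0,9,10,12,13]) (.free 2 [14,15,18,19,20,21,22]))) (.free 2 [1,2,3,4,5,6,7]))), .t 5 (nat_lit 0x189004800070005) (.z (.edon 0 16 (.node 0 12 (.leaf [0,13,14,15]) (.node 3 9 (.leaf [1,3,10,12,2]) (.free 2 [4,5,6,7,8,9,11]))) (.free 2 [16,17,18,19,20,21,22]))), .t 9 (nat_lit 0xb930bb10bac0ba00b9b12420bde0bdc) (.z (.edon 0 7 (.free 2 [0,1,2,3,4,5,6]) (.edon 0 12 (.leaf [7,8,11,10,9]) (.node 13 19 (.leaf [13,20,22,21]) (.free 2 [12,14,15,16,17,18,19]))))), .t 6 (nat_lit 0x12420222022108d008cf) (.z (.node 2 4 (.edon 0 12 (.edon 5 9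 (.leaf [5,7,8,11]) (.leaf [0,2,6,9,10])) (.node 13 19 (.leaf [13,20,22,21]) (.free 2 [12,14,15,16,17,18,19]))) (.free 1 [1,3,4]))), .t 9 (nat_lit 0x124208c808c7050b05090386038502fc) (.z (.edon 0 3 (.free 1 [0,1,2]) (.edon 0 12 (.node 4 9 (.leaf [3,4,11,10,6]) (.leaf [5,7,8,9])) (.node 13 19 (.leaf [13,20,22,21]) (.free 2 [12,14,15,16,17,18,19]))))), .t 5 (nat_lit 0x17c003a00050002) (.z (.edon 0 16 (.node 0 12 (.leaf [0,13,14,15]) (.edon 4 10 (.free 2 [4,5,7,8,9,11,12]) (.leaf [1,3,6,10,2]))) (.free 2 [16,17,18,19,20,21,22]))), .t 12 (nat_lit 0x12ab12a812a0124211e811e703de0327032402f902ef) (.z (.edon 0 3 (.free 1 [0,1,2]) (.node 5 16 (.edon 0 9 (.leaf [3,4,5,8,6]) (.edon 0 13 (.leaf [9,10,12]) (.node 14 19 (.leaf [13,14,20,22,21]) (.leaf [15,17,19,18])))) (.leaf [7,11,16])))), .t 10 (nat_lit 0xd880cf50cf20cba0cb70ca10c9f12a312a2) (.z (.node 0 7 (.node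 0 12 (.edon 18 19 (.leaf [15,16,17,18]) (.free 2 [0,13,14,19,20,21,22])) (.leaf [8,11,12,10,9])) (.free 2 [1,2,3,4,5,6,7]))), .t 1 (nat_lit 0) (.cn 2 3)] (by decide +kernel) (by decide +kernel)
theorem b194 : B 6208 6240 := Blk.of_chk [.t 5 (nat_lit 0x17e003d00070002) (.z (.edon 0 16 (.node 0 12 (.leaf [0,13,14,15]) (.node 6 10 (.leaf [1,3,6,12,2]) (.free 2 [4,5,7,8,9,10,11]))) (.free 2 [16,17,18,19,20,21,22]))), .t 7 (nat_lit 0x12cb12421240123f02220221) (.z (.node 4 19 (.edon 0 11 (.node 2 4 (.leaf [0,2,6,9,10]) (.leaf [1,3,4])) (.edon 12 18 (.leaf [11,12,14]) (.leaf [13,18,20,22,21]))) (.free 2 [5,7,8,15,16,17,19]))), .t 10 (nat_lit 0x116b119d119b117611730c9a0c9511eb11ea) (.z (.node 0 7 (.node 0 11 (.edon 14 19 (.leaf [13,15,16,17,14]) (.free 2 [0,12,18,19,20,21,22])) (.leaf [8,9,11,10])) (.free 2 [1,2,3,4,5,6,7]))), .t 7 (nat_lit 0x12cb12421240123f0210020f)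 (.z (.node 4 19 (.edon 0 10 (.node 2 4 (.leaf [0,2,6,8,9]) (.leaf [1,3,4])) (.edon 0 13 (.leaf [10,11,12]) (.leaf [13,18,20,22,21]))) (.free 2 [5,7,14,15,16,17,19]))), .t 1 (nat_lit 0) (.cn 2 3), .t 6 (nat_lit 0x235023400cc00cb001e) (.z (.edon 0 16 (.node 0 12 (.leaf [0,13,14,15]) (.edon 3 10 (.free 2 [3,4,5,7,8,9,11]) (.leaf [1,6,10,12,2]))) (.free 2 [16,17,18,19,20,21,22]))), .t 10 (nat_lit 0x3df03de03d904bb04b8040804060e4d0e4c) (.z (.node 0 3 (.node 5 16 (.node 0 9 (.edon 14 21 (.free 2 [14,15,17,18,19,20,22]) (.leaf [0,10,12,13,21])) (.leaf [4,5,8,9,6])) (.leaf [7,11,16])) (.free 1 [1,2,3]))), .t 7 (nat_lit 0x10b31242116910b6088a0888) (.z (.node 2 4 (.edon 0 11 (.node 2 8 (.leaf [0,2,9,10]) (.leaf [5,7,8,6])) (.node 12 19 (.leaf [12,20,22,21,13]) (.free 2 [11,14,15,16,17,18,19]))) (.free 1 [1,3,4]))), .t 10 (nat_lit 0x10b31242116910b603e4032d032902fa02f0)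 (.z (.edon 0 3 (.free 1 [0,1,2]) (.edon 0 11 (.edon 7 9 (.leaf [7,8,10]) (.leaf [3,4,5,9,6])) (.node 12 19 (.leaf [12,20,22,21,13]) (.free 2 [11,14,15,16,17,18,19]))))), .t 10 (nat_lit 0x12cb12421240123f03e4032d032902fa02f0) (.z (.edon 0 3 (.free 1 [0,1,2]) (.edon 0 11 (.edon 7 9 (.leaf [7,8,10]) (.leaf [3,4,5,9,6])) (.node 18 19 (.leaf [13,18,20,22,21]) (.free 2 [11,12,14,15,16,17,19]))))), .t 15 (nat_lit 0x3df03de03d904bb04b80408040612ab128a1285126d1268125a1258) (.z (.node 0 3 (.node 5 16 (.node 0 9 (.edon 0 14 (.leaf [0,10,12,13]) (.edon 0 20 (.leaf [14,15,17,19,18]) (.leaf [20,21,22]))) (.leaf [4,5,8,9,6])) (.leaf [7,11,16])) (.free 1 [1,2,3]))), .t 15 (nat_lit 0x3df03de03d904bb04b804080406128a122e122b11cf11ca11b411b2) (.z (.node 0 3 (.node 5 16 (.node 0 9 (.edon 0 13 (.leaf [0,10,11,12]) (.edon 0 20 (.leaf [13,14,17,19,18]) (.leaf [20,21,22])))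 (.leaf [4,5,8,9,6])) (.leaf [7,15,16])) (.free 1 [1,2,3]))), .t 12 (nat_lit 0x3df03de03d904bb04b80408040612cb12421240123f) (.z (.node 0 3 (.node 5 16 (.node 0 9 (.edon 0 13 (.leaf [0,10,11,12]) (.edon 14 20 (.leaf [14,17,19]) (.leaf [13,18,20,22,21]))) (.leaf [4,5,8,9,6])) (.leaf [7,15,16])) (.free 1 [1,2,3]))), .t 7 (nat_lit 0x12cb12421240123f088a0888) (.z (.node 2 4 (.edon 0 11 (.node 2 8 (.leaf [0,2,9,10]) (.leaf [5,7,8,6])) (.node 18 19 (.leaf [13,18,20,22,21]) (.free 2 [11,12,14,15,16,17,19]))) (.free 1 [1,3,4]))), .t 9 (nat_lit 0x88808980895088d088b124208c808c7) (.z (.node 2 4 (.edon 0 12 (.node 2 9 (.leaf [0,2,10,11]) (.leaf [5,7,8,9,6])) (.node 13 19 (.leaf [13,20,22,21]) (.free 2 [12,14,15,16,17,18,19]))) (.free 1 [1,3,4]))), .t 7 (nat_lit 0x12cb12421240123f02220221) (.z (.node 4 19 (.edon 0 11 (.node 2 4 (.leaf [0,2,6,9,10]) (.leaf [1,3,4]))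 (.edon 11 18 (.leaf [11,12,14]) (.leaf [13,18,20,22,21]))) (.free 2 [5,7,8,15,16,17,19]))), .t 9 (nat_lit 0x12cb08c908c6050b05090386038502fc) (.z (.edon 0 3 (.free 1 [0,1,2]) (.edon 0 12 (.node 4 9 (.leaf [3,4,11,10,6]) (.leaf [5,7,9,8])) (.node 18 19 (.leaf [18,20,22,21]) (.free 2 [12,13,14,15,16,17,19]))))), .t 14 (nat_lit 0x1231122e122b00020c9a0657065205dd05d805ae05ac123b1234) (.z (.edon 16 5 (.node 0 11 (.node 0 20 (.leaf [0,21,22]) (.node 13 16 (.leaf [13,17,19,20,18]) (.leaf [12,14,16]))) (.edon 4 6 (.leaf [4,8,9,11,10]) (.leaf [1,3,6,2]))) (.free 1 [5,7,15]))), .t 5 (nat_lit 0x12cb12421240123f) (.z (.node 0 7 (.edon 0 11 (.leaf [0,8,9,10]) (.node 13 19 (.leaf [13,18,20,22,21]) (.free 2 [11,12,14,15,16,17,19]))) (.free 2 [1,2,3,4,5,6,7]))), .t 8 (nat_lit 0x10440f690f670efc0efa0eae0eac) (.z (.node 0 7 (.edon 0 11 (.leaf [0,8,9,10]) (.node 14 16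 (.free 2 [14,17,18,19,20,21,22]) (.leaf [11,15,16,13,12]))) (.free 2 [1,2,3,4,5,6,7]))), .t 10 (nat_lit 0x4b804e704e404c304c0090108fe05a605a4) (.z (.node 0 3 (.edon 0 16 (.node 4 14 (.node 0 10 (.leaf [0,11,12,13]) (.leaf [4,8,9,10,6])) (.leaf [5,7,15,14])) (.free 2 [16,17,18,19,20,21,22])) (.free 1 [1,2,3]))), .t 13 (nat_lit 0xca11231122e122b0d890d870cf60cf40c9a0c98123b1234) (.z (.node 0 7 (.node 0 12 (.node 0 20 (.leaf [0,21,22]) (.node 13 16 (.leaf [13,17,19,20,18]) (.leaf [14,15,16]))) (.leaf [8,12,11,10,9])) (.free 2 [1,2,3,4,5,6,7]))), .t 10 (nat_lit 0xca10d890d870cf60cf40c9a0c9812451244) (.z (.node 0 7 (.node 0 12 (.edon 14 19 (.leaf [14,15,16,17]) (.free 2 [0,13,18,19,20,21,22])) (.leaf [8,12,11,10,9])) (.free 2 [1,2,3,4,5,6,7]))), .t 12 (nat_lit 0x12cb12421240123f0d890d8703de0327032402f902ef) (.z (.edon 0 3 (.free 1 [0,1,2]) (.node 5 16 (.edon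 0 13 (.edon 0 9 (.leaf [3,4,5,8,6]) (.leaf [9,12,11,10])) (.node 18 19 (.leaf [13,18,20,22,21]) (.leaf [14,17,19]))) (.leaf [7,15,16])))), .t 8 (nat_lit 0x10b810e510e310c210bf11281127) (.z (.node 0 7 (.edon 0 11 (.leaf [0,8,9,10]) (.edon 14 19 (.leaf [12,15,16,17,14]) (.free 2 [11,13,18,19,20,21,22]))) (.free 2 [1,2,3,4,5,6,7]))), .t 1 (nat_lit 0) (.cn 2 3), .t 8 (nat_lit 0x8c608e108e008d308d2091a0919) (.z (.edon 0 16 (.node 0 12 (.leaf [0,13,14,15]) (.node 4 9 (.free 2 [1,2,3,4,6,10,11]) (.leaf [5,7,12,9,8]))) (.free 2 [16,17,18,19,20,21,22]))), .t 14 (nat_lit 0x41012ae12ab12a80002090c090a05a605a40408040612ba12b4) (.z (.node 5 16 (.node 0 10 (.node 0 14 (.node 0 20 (.leaf [0,21,22]) (.leaf [15,17,19,20,18])) (.leaf [11,13,14])) (.edon 4 6 (.leaf [4,5,8,9,10]) (.leaf [1,3,6,2]))) (.free 1 [7,12,16]))), .t 6 (nat_lit 0x20c9a0c9811dd11db) (.z (.edon 19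 4 (.node 0 6 (.node 0 11 (.edon 19 21 (.leaf [19,20,22]) (.leaf [0,13,14,18,21])) (.leaf [8,11,10,9])) (.leaf [1,3,6,2])) (.free 2 [4,5,7,12,15,16,17]))), .t 1 (nat_lit 0) (.cp 2 3), .t 6 (nat_lit 0x20c9a0c98121c121b) (.z (.edon 19 4 (.node 0 6 (.node 0 11 (.edon 19 21 (.leaf [19,20,22]) (.leaf [0,13,15,18,21])) (.leaf [8,11,10,9])) (.leaf [1,3,6,2])) (.free 2 [4,5,7,12,14,16,17]))), .t 1 (nat_lit 0) (.cn 2 3)] (by decide +kernel) (by decide +kernel)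

end Pool.Agent.GCP.F7
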