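import Pool.Agent.GCP.F7Db

set_option autoImplicit false
set_option maxRecDepth 100000

/-! # Blocks F7B8 (generated) -/

namespace Pool.Agent.GCP.F7

open Pool.Agent.GCP DB

theorem b195 : B 6240 6272 := Blk.of_chk [.t 10 (nat_lit 0x4f008d308d20ada0ad80657065504e804e6) (.z (.node 0 3 (.node 0 12 (.edon 0 16 (.leaf [0,13,14,15]) (.free 2 [16,17,18,19,20,21,22])) (.node 4 8 (.leaf [4,11,10,9,6]) (.leaf [5,7,12,8]))) (.free 1 [1,2,3]))), .t 7 (nat_lit 0xc9a0c9811dd11db11281126) (.z (.node 0 7 (.node 0 11 (.edon 15 19 (.leaf [12,16,17,15]) (.edon 19 21 (.leaf [19,20,22]) (.leaf [0,13,14,18,21]))) (.leaf [8,11,10,9])) (.free 2 [1,2,3,4,5,6,7]))), .t 10 (nat_lit 0x4f008d308d20ada0ad80657065504e804e6) (.z (.node 0 3 (.node 0 12 (.node 14 22 (.leaf [0,13,14,21]) (.free 2 [15,16,17,18,19,20,22])) (.node 4 8 (.leaf [4,11,10,9,6]) (.leaf [5,7,12,8]))) (.free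 1 [1,2,3]))), .t 15 (nat_lit 0x128a122e122b11cf11ca11b411b20d890d8703de0327032402f902ef) (.z (.edon 0 3 (.free 1 [0,1,2]) (.node 5 16 (.edon 0 9 (.leaf [3,4,5,8,6]) (.edon 0 13 (.leaf [9,12,11,10]) (.edon 0 20 (.leaf [13,14,17,19,18]) (.leaf [20,21,22])))) (.leaf [7,15,16])))), .t 11 (nat_lit 0x3df03de03d904bb04b804080406125a125712cb) (.z (.node 0 3 (.node 5 16 (.node 0 9 (.edon 0 14 (.leaf [0,10,11,13]) (.node 18 19 (.leaf [18,20,22,21]) (.leaf [14,17,19,15]))) (.leaf [4,5,8,9,6])) (.leaf [7,12,16])) (.free 1 [1,2,3]))), .t 9 (nat_lit 0x20c9a0c98129a123b11e011d711d5) (.z (.edon 19 4 (.node 0 6 (.node 0 11 (.node 0 20 (.leaf [0,21,22]) (.leaf [13,19,20,18,14])) (.leaf [8,11,10,9])) (.leaf [1,3,6,2])) (.free 2 [4,5,7,12,15,16,17]))), .t 10 (nat_lit 0x128d128a12850c9a0c9510441041129a1294) (.z (.node 0 7 (.node 0 11 (.node 0 20 (.leaf [0,21,22]) (.node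 14 16 (.leaf [14,17,19,20,18]) (.leaf [12,15,16,13]))) (.leaf [8,9,11,10])) (.free 2 [1,2,3,4,5,6,7]))), .t 9 (nat_lit 0x128d128a128510441041129a12940002) (.z (.node 20 0 (.edon 0 12 (.edon 4 6 (.free 2 [4,5,7,8,9,10,11]) (.leaf [1,3,6,2])) (.node 14 16 (.leaf [14,17,19,20,18]) (.leaf [12,15,16,13]))) (.free 1 [0,21,22]))), .t 12 (nat_lit 0x116b119d119b11761173017d003c0006000211eb11ea) (.z (.edon 0 20 (.node 0 12 (.node 0 17 (.leaf [0,18,19]) (.leaf [13,15,16,17,14])) (.edon 4 6 (.free 2 [4,5,7,8,9,10,12]) (.leaf [1,3,6,11,2]))) (.free 1 [20,21,22]))), .t 10 (nat_lit 0x100910070ba00915091008df08de08d008cf) (.z (.edon 0 16 (.edon 0 12 (.node 4 9 (.free 2 [0,1,2,3,4,6,10]) (.leaf [5,7,8,11,9])) (.leaf [12,15,14,13])) (.free 2 [16,17,18,19,20,21,22]))), .t 14 (nat_lit 0x12ab122e122b1212120d120111ff12a003e4032d032902fa02f0) (.z (.edon 0 3 (.free 1 [0,1,2])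 (.node 5 16 (.edon 0 10 (.leaf [3,4,5,9,6]) (.edon 0 13 (.leaf [10,11,12]) (.node 14 19 (.leaf [14,20,22,21]) (.leaf [13,15,17,19,18])))) (.leaf [7,8,16])))), .t 10 (nat_lit 0x4c004bb04b808f208ef05a705a204e804e6) (.z (.node 0 3 (.node 0 12 (.node 14 22 (.leaf [0,13,14,21]) (.free 2 [15,16,17,18,19,20,22])) (.node 4 11 (.leaf [4,8,10,9,6]) (.leaf [5,7,12,11]))) (.free 1 [1,2,3]))), .t 1 (nat_lit 0) (.cn 2 3), .t 10 (nat_lit 0x8d208d108ce0944094208f108f002220221) (.z (.edon 0 13 (.node 4 8 (.node 2 4 (.leaf [0,2,6,9,10]) (.leaf [1,3,4])) (.leaf [5,7,11,12,8])) (.free 3 [13,14,15,16,17,18,19,20,21,22]))), .t 7 (nat_lit 0x12cb12a0129e129d088a0888) (.z (.node 2 4 (.edon 0 11 (.node 2 8 (.leaf [0,2,9,10]) (.leaf [5,7,8,6])) (.node 18 19 (.leaf [14,18,20,22,21]) (.free 2 [11,12,13,15,16,17,19]))) (.free 1 [1,3,4]))), .t 10 (nat_lit 0x3df03de03d904bb04b8040804060e120e10)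 (.z (.node 0 3 (.node 5 16 (.node 0 9 (.edon 0 15 (.leaf [0,10,11,13,14]) (.free 2 [15,17,18,19,20,21,22])) (.leaf [4,5,8,9,6])) (.leaf [7,12,16])) (.free 1 [1,2,3]))), .t 12 (nat_lit 0x3df03de03d904bb04b80408040612cb12a0129e129d) (.z (.node 0 3 (.node 5 16 (.node 0 9 (.edon 0 14 (.leaf [0,10,12,13]) (.edon 15 20 (.leaf [15,17,19]) (.leaf [14,18,20,22,21]))) (.leaf [4,5,8,9,6])) (.leaf [7,11,16])) (.free 1 [1,2,3]))), .t 12 (nat_lit 0x3df03de03d904bb04b80408040612cb12a0129e129d) (.z (.node 0 3 (.node 5 16 (.node 0 9 (.edon 0 14 (.leaf [0,10,11,13]) (.edon 15 20 (.leaf [15,17,19]) (.leaf [14,18,20,22,21]))) (.leaf [4,5,8,9,6])) (.leaf [7,12,16])) (.free 1 [1,2,3]))), .t 13 (nat_lit 0xefe0efd0ef9129a123b11e011d711d50fe20fe00f110f10) (.z (.node 0 3 (.node 0 10 (.edon 15 19 (.leaf [11,12,16,17,15]) (.node 0 20 (.leaf [0,21,22]) (.leaf [13,19,20,18,14])))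 (.free 2 [4,5,6,7,8,9,10])) (.free 1 [1,2,3]))), .t 17 (nat_lit 0xcd40ca60ca10df80db40da10d900d8e0d270d250d080d060cfb0cfa0c9a0c98) (.z (.node 7 0 (.free 2 [1,2,3,4,5,6,7]) (.node 13 0 (.leaf [8,12,13,11,10,9]) (.free 3 [0,14,15,16,17,18,19,20,21,22])))), .t 1 (nat_lit 0) (.cn 2 3), .t 10 (nat_lit 0x10a3109e109b0c9a0c95116310ae12451243) (.z (.node 0 7 (.node 0 11 (.node 0 20 (.leaf [0,21,22]) (.edon 15 19 (.leaf [14,16,17,15]) (.leaf [12,18,19,20,13]))) (.leaf [8,9,11,10])) (.free 2 [1,2,3,4,5,6,7]))), .t 10 (nat_lit 0xc9a0c95123b116310ae10a610a412451244) (.z (.node 0 7 (.node 0 11 (.node 0 20 (.leaf [0,21,22]) (.edon 14 19 (.leaf [14,15,16,17]) (.leaf [12,19,20,18,13]))) (.leaf [8,9,11,10])) (.free 2 [1,2,3,4,5,6,7]))), .t 8 (nat_lit 0x10bb0fa80fa60efc0efa0edb0ed9) (.z (.node 0 7 (.edon 0 11 (.leaf [0,8,9,10]) (.node 13 16 (.free 2 [13,17,18,19,20,21,22])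 (.leaf [11,15,16,14,12]))) (.free 2 [1,2,3,4,5,6,7]))), .t 11 (nat_lit 0x10241019101410f810f51088108612cb0c9a0c95) (.z (.edon 0 7 (.free 2 [0,1,2,3,4,5,6]) (.node 8 16 (.edon 0 12 (.leaf [8,9,11,10]) (.node 18 19 (.leaf [18,20,22,21]) (.leaf [12,13,17,19,14]))) (.leaf [7,15,16])))), .t 12 (nat_lit 0x12ae12ab12a8017c003a000500020408040612ba12b4) (.z (.node 5 16 (.node 0 10 (.node 0 14 (.node 0 20 (.leaf [0,21,22]) (.leaf [15,17,19,20,18])) (.leaf [11,13,14])) (.edon 4 6 (.leaf [4,5,8,9]) (.leaf [1,3,6,10,2]))) (.free 1 [7,12,16]))), .t 10 (nat_lit 0xc9a0c9511eb1128112610731071104d104b) (.z (.node 0 7 (.node 0 11 (.edon 13 19 (.leaf [12,16,17,15,13]) (.free 2 [0,14,18,19,20,21,22])) (.leaf [8,9,11,10])) (.free 2 [1,2,3,4,5,6,7]))), .t 10 (nat_lit 0xc9a0c9511eb1128112610731071104d104b) (.z (.node 0 7 (.node 0 11 (.edon 15 19 (.leaf [12,16,17,15,13]) (.free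 2 [0,14,18,19,20,21,22])) (.leaf [8,9,11,10])) (.free 2 [1,2,3,4,5,6,7]))), .t 7 (nat_lit 0xc9a0c951276127510731071) (.z (.node 0 7 (.node 0 11 (.edon 13 19 (.leaf [12,16,17,13]) (.edon 19 21 (.leaf [19,20,22]) (.leaf [0,14,15,18,21]))) (.leaf [8,9,11,10])) (.free 2 [1,2,3,4,5,6,7]))), .t 9 (nat_lit 0x12cb0c9a0bde0bd90bb10bac0b9f0b9d) (.z (.edon 0 7 (.free 2 [0,1,2,3,4,5,6]) (.edon 0 12 (.leaf [7,8,9,11,10]) (.node 18 19 (.leaf [18,20,22,21]) (.free 2 [12,13,14,15,16,17,19]))))), .t 11 (nat_lit 0x12ae12ab12a80278010300fe002b002712ba12b4) (.z (.node 1 16 (.node 0 11 (.node 0 14 (.node 0 20 (.leaf [0,21,22]) (.leaf [15,17,19,20,18])) (.leaf [12,13,14])) (.leaf [1,9,11,10,2])) (.free 2 [3,4,5,6,7,8,16]))), .t 9 (nat_lit 0x1011116f116d10bc10ba100910070005) (.z (.node 16 0 (.edon 0 12 (.edon 4 10 (.free 2 [4,5,6,7,8,9,11]) (.leaf [1,3,10,2])) (.leaf [12,16,15,14,13]))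 (.free 2 [0,17,18,19,20,21,22])))] (by decide +kernel) (by decide +kernel)
theorem b196 : B 6272 6304 := Blk.of_chk [.t 8 (nat_lit 0x17c003a00050002125a125712cb) (.z (.node 5 16 (.node 0 10 (.edon 0 14 (.leaf [0,11,12,13]) (.node 18 19 (.leaf [18,20,22,21]) (.leaf [14,17,19,15]))) (.edon 4 6 (.leaf [4,5,9]) (.leaf [1,3,6,10,2]))) (.free 1 [7,8,16]))), .t 7 (nat_lit 0x17c003a0005000211dd11db) (.z (.edon 19 4 (.node 0 12 (.edon 19 21 (.leaf [19,20,22]) (.leaf [0,13,14,18,21])) (.edon 9 10 (.leaf [9,11,12]) (.leaf [1,3,6,10,2]))) (.free 2 [4,5,7,8,15,16,17]))), .t 9 (nat_lit 0x17c003a0005000212cb12a0129e129d) (.z (.node 5 16 (.node 0 10 (.edon 0 14 (.leaf [0,11,12,13]) (.edon 15 20 (.leaf [15,17,19]) (.leaf [14,18,20,22,21]))) (.node 3 9 (.leaf [1,3,6,10,2]) (.leaf [4,5,9]))) (.free 1 [7,8,16]))), .t 9 (nat_lit 0x3df03de03d904bb04b8040804060005) (.z (.node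 5 16 (.node 0 10 (.edon 0 15 (.leaf [0,12,13,14]) (.free 2 [15,17,18,19,20,21,22])) (.node 3 6 (.leaf [1,3,10,2]) (.leaf [4,5,8,9,6]))) (.free 1 [7,11,16]))), .t 7 (nat_lit 0xea70ea512c912a012991298) (.z (.node 0 7 (.edon 0 11 (.leaf [0,8,9,10]) (.node 11 19 (.node 14 15 (.leaf [14,17,20,22,21]) (.leaf [11,15,13,12])) (.leaf [16,18,19]))) (.free 2 [1,2,3,4,5,6,7]))), .t 7 (nat_lit 0x12c912a01299129802220221) (.z (.node 4 19 (.edon 0 12 (.node 2 4 (.leaf [0,2,6,9,10]) (.leaf [1,3,4])) (.node 14 15 (.leaf [14,17,20,22,21]) (.leaf [12,13,15]))) (.free 2 [5,7,8,11,16,18,19]))), .t 9 (nat_lit 0x12c91009100404c404c20368036602f9) (.z (.edon 0 3 (.free 1 [0,1,2]) (.node 4 19 (.edon 0 12 (.leaf [3,4,10,8,6]) (.edon 0 17 (.leaf [12,13,15,14]) (.leaf [17,20,22,21]))) (.free 2 [5,7,9,11,16,18,19])))), .t 9 (nat_lit 0x88b08ad08aa088f088e12a008dc08db) (.z (.node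 2 4 (.edon 0 12 (.node 2 10 (.leaf [0,2,8,11]) (.leaf [5,7,9,10,6])) (.node 14 19 (.leaf [14,20,22,21]) (.free 2 [12,13,15,16,17,18,19]))) (.free 1 [1,3,4]))), .t 5 (nat_lit 0x12a010030fdf0fde) (.z (.node 0 7 (.edon 0 11 (.leaf [0,8,9,10]) (.node 14 17 (.leaf [11,14,20,22,21]) (.free 2 [12,13,15,16,17,18,19]))) (.free 2 [1,2,3,4,5,6,7]))), .t 9 (nat_lit 0x3de03d912aa12a91242116910b610b5) (.z (.node 0 3 (.node 5 16 (.node 0 8 (.edon 0 12 (.leaf [0,9,10,11]) (.node 13 19 (.leaf [12,13,20,22,21]) (.leaf [15,18,19,17]))) (.leaf [4,5,8,6])) (.leaf [7,14,16])) (.free 1 [1,2,3]))), .t 10 (nat_lit 0xc990c961234115c10ae1088108612491247) (.z (.node 0 7 (.node 0 11 (.node 0 20 (.leaf [0,21,22]) (.edon 15 19 (.leaf [14,16,18,15]) (.leaf [12,13,17,19,20]))) (.leaf [8,10,11,9])) (.free 2 [1,2,3,4,5,6,7]))), .t 6 (nat_lit 0x11690a4e0a4b04340432) (.z (.node 0 3 (.edon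 0 12 (.node 4 8 (.leaf [0,4,5,9,11]) (.leaf [6,7,10,8])) (.node 12 19 (.leaf [12,20,22,21]) (.free 2 [13,14,15,16,17,18,19]))) (.free 1 [1,2,3]))), .t 10 (nat_lit 0x10080f410f3e0ed40ed10ea70ea50a4e0a4b) (.z (.edon 0 16 (.edon 0 11 (.node 4 8 (.free 2 [0,1,2,3,4,5,9]) (.leaf [6,7,10,8])) (.leaf [11,14,15,13,12])) (.free 2 [16,17,18,19,20,21,22]))), .t 1 (nat_lit 0) (.cp 2 3), .t 1 (nat_lit 0) (.cn 2 2), .t 7 (nat_lit 0x1760034000400010cf60cf4) (.z (.edon 0 16 (.node 0 12 (.leaf [0,13,14,15]) (.edon 8 9 (.leaf [8,12,11,10]) (.edon 4 5 (.leaf [4,6,7]) (.leaf [1,3,5,9,2])))) (.free 2 [16,17,18,19,20,21,22]))), .t 7 (nat_lit 0x176003400040001120b1209) (.z (.edon 19 4 (.node 0 9 (.node 0 12 (.edon 19 21 (.leaf [19,20,22]) (.leaf [0,13,15,17,21])) (.leaf [10,11,12])) (.leaf [1,3,5,9,2])) (.free 2 [4,6,7,8,14,16,18]))), .t 10 (nat_lit 0x116910030f3c0f3b042e042c034a034802f0)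 (.z (.edon 0 3 (.free 1 [0,1,2]) (.edon 0 11 (.node 4 8 (.leaf [3,4,10,9,5]) (.leaf [6,7,8])) (.node 12 19 (.leaf [11,12,20,22,21]) (.free 2 [13,14,15,16,17,18,19]))))), .t 9 (nat_lit 0x10690001120b12091140113f104c104a) (.z (.edon 19 4 (.node 0 5 (.edon 0 12 (.leaf [0,9,10,11]) (.edon 19 21 (.leaf [19,20,22]) (.leaf [12,13,15,17,21]))) (.leaf [1,3,5,2])) (.free 2 [4,6,7,8,14,16,18]))), .t 6 (nat_lit 0x1169088a088902770275) (.z (.node 2 4 (.edon 0 12 (.node 2 8 (.leaf [0,2,9,10,11]) (.leaf [5,6,7,8])) (.node 12 19 (.leaf [12,20,22,21]) (.free 2 [13,14,15,16,17,18,19]))) (.free 1 [1,3,4]))), .t 6 (nat_lit 0x116901e901e80a4e0a4b) (.z (.node 2 4 (.edon 0 12 (.edon 6 9 (.leaf [6,7,10,8]) (.leaf [0,2,5,9,11])) (.node 12 19 (.leaf [12,20,22,21]) (.free 2 [13,14,15,16,17,18,19]))) (.free 1 [1,3,4]))), .t 13 (nat_lit 0x10080f410f3e0ed40ed10ea70ea503e3032c032a02fa02f0)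 (.z (.edon 0 16 (.edon 0 3 (.leaf [0,1,2]) (.edon 0 11 (.edon 7 9 (.leaf [7,8,10]) (.leaf [3,4,6,9,5])) (.leaf [11,14,15,13,12]))) (.free 2 [16,17,18,19,20,21,22]))), .t 1 (nat_lit 0) (.cn 2 2), .t 14 (nat_lit 0x3e703e303e004e804e3042e042c126c126912c91242123a1239) (.z (.node 0 3 (.node 6 16 (.node 0 10 (.edon 0 13 (.leaf [0,11,12]) (.node 17 19 (.leaf [13,17,20,22,21]) (.leaf [14,18,19,15]))) (.leaf [4,6,10,9,5])) (.leaf [7,8,16])) (.free 1 [1,2,3]))), .t 10 (nat_lit 0x1242116910b610b503e3032c032a02fa02f0) (.z (.edon 0 3 (.free 1 [0,1,2]) (.edon 0 11 (.edon 7 9 (.leaf [7,8,10]) (.leaf [3,4,6,9,5])) (.node 13 19 (.leaf [12,13,20,22,21]) (.free 2 [11,14,15,16,17,18,19]))))), .t 6 (nat_lit 0x11088108612491247) (.z (.edon 0 20 (.node 0 11 (.edon 15 19 (.leaf [14,16,18,15]) (.leaf [0,12,13,17,19])) (.edon 4 5 (.free 2 [4,6,7,8,9,10,11]) (.leaf [1,3,5,2])))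 (.free 1 [20,21,22]))), .t 7 (nat_lit 0x1242116910b610b501d101d0) (.z (.node 2 4 (.edon 0 11 (.edon 6 8 (.leaf [6,7,10]) (.leaf [0,2,5,8,9])) (.node 13 19 (.leaf [12,13,20,22,21]) (.free 2 [11,14,15,16,17,18,19]))) (.free 1 [1,3,4]))), .t 1 (nat_lit 0) (.cn 2 3), .t 7 (nat_lit 0x1242116910b610b50b980b96) (.z (.edon 0 7 (.free 2 [0,1,2,3,4,5,6]) (.edon 0 11 (.leaf [7,10,9,8]) (.node 13 19 (.leaf [12,13,20,22,21]) (.free 2 [11,14,15,16,17,18,19]))))), .t 1 (nat_lit 0) (.cn 2 3), .t 9 (nat_lit 0x126c126912c91242123a12390d880d86) (.z (.node 11 16 (.edon 0 13 (.node 0 8 (.leaf [0,9,10,11,12]) (.free 2 [1,2,3,4,5,6,8])) (.node 17 19 (.leaf [13,17,20,22,21]) (.leaf [14,18,19,15]))) (.free 1 [7,16]))), .t 1 (nat_lit 0) (.cn 2 2)] (by decide +kernel) (by decide +kernel)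
theorem b197 : B 6304 6336 := Blk.of_chk [.t 7 (nat_lit 0x176003400040001120b1209) (.z (.edon 19 4 (.node 0 12 (.edon 19 21 (.leaf [19,20,22]) (.leaf [0,13,15,17,21])) (.edon 8 9 (.leaf [8,10,12]) (.leaf [1,3,5,9,2]))) (.free 2 [4,6,7,11,14,16,18]))), .t 7 (nat_lit 0x12c91242123a123901d101d0) (.z (.node 4 19 (.edon 0 10 (.node 2 4 (.leaf [0,2,5,8,9]) (.leaf [1,3,4])) (.edon 0 13 (.leaf [10,11,12]) (.leaf [13,17,20,22,21]))) (.free 2 [6,7,14,15,16,18,19]))), .t 12 (nat_lit 0x12af12aa12a9017b0039000400020411040c12ba12b4) (.z (.node 5 16 (.node 0 10 (.node 0 14 (.node 0 20 (.leaf [0,21,22]) (.leaf [15,18,19,20,17])) (.leaf [11,12,14])) (.edon 4 6 (.leaf [4,5,10,8]) (.leaf [1,3,6,9,2]))) (.free 1 [7,13,16]))), .t 7 (nat_lit 0x4c304c00185004400060004) (.z (.node 4 19 (.node 0 11 (.free 2 [0,12,15,17,20,21,22]) (.node 3 6 (.leaf [1,3,9,11,2]) (.leaf [4,8,10,6])))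 (.free 2 [5,7,13,14,16,18,19]))), .t 8 (nat_lit 0x124911ef11ed11a1119f117f117d) (.z (.node 0 7 (.edon 0 11 (.leaf [0,8,9,10]) (.edon 15 19 (.leaf [13,16,18,15,14]) (.free 2 [11,12,17,19,20,21,22]))) (.free 2 [1,2,3,4,5,6,7]))), .t 12 (nat_lit 0x126c126912c911691162116103de0327032402f902ef) (.z (.edon 0 3 (.free 1 [0,1,2]) (.node 5 16 (.edon 0 9 (.leaf [3,4,5,8,6]) (.edon 0 12 (.leaf [9,10,11]) (.node 17 19 (.leaf [12,17,20,22,21]) (.leaf [14,18,19,15])))) (.leaf [7,13,16])))), .t 14 (nat_lit 0x41012af12aa12a9090c090a05a605a404080406000212ba12b4) (.z (.node 5 16 (.node 0 10 (.node 0 14 (.node 0 20 (.leaf [0,21,22]) (.leaf [15,18,19,20,17])) (.leaf [11,12,14])) (.node 3 10 (.leaf [1,3,6,2]) (.leaf [4,5,8,9,10]))) (.free 1 [7,13,16]))), .t 5 (nat_lit 0xcba0cb80e850e84) (.z (.node 0 7 (.edon 10 19 (.leaf [10,14,16,18]) (.edon 0 13 (.leaf [0,8,9,11,12])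 (.free 2 [13,15,17,19,20,21,22]))) (.free 2 [1,2,3,4,5,6,7]))), .t 15 (nat_lit 0x3d90409040403e403df12af12aa12a904bc04ba0df90df712ba12b4) (.z (.node 0 3 (.node 5 16 (.node 0 9 (.node 0 13 (.node 0 20 (.leaf [0,21,22]) (.leaf [15,18,19,20,17])) (.leaf [10,13,12,11])) (.leaf [4,5,9,8,6])) (.leaf [7,14,16])) (.free 1 [1,2,3]))), .t 10 (nat_lit 0xc990c96124911ef11ed11a1119f117f117d) (.z (.node 0 7 (.node 0 11 (.edon 15 19 (.leaf [13,16,18,15,14]) (.free 2 [0,12,17,19,20,21,22])) (.leaf [8,10,11,9])) (.free 2 [1,2,3,4,5,6,7]))), .t 1 (nat_lit 0) (.cn 2 2), .t 8 (nat_lit 0x124511eb11e9119d119b11771175) (.z (.node 0 7 (.edon 0 11 (.leaf [0,8,9,10]) (.edon 15 19 (.leaf [13,16,17,15,14]) (.free 2 [11,12,18,19,20,21,22]))) (.free 2 [1,2,3,4,5,6,7]))), .t 14 (nat_lit 0x41012ae12ab12a80002090c090a05a605a40408040612ba12b4) (.z (.node 5 16 (.node 0 10 (.node 0 14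 (.node 0 20 (.leaf [0,21,22]) (.leaf [15,17,19,20,18])) (.leaf [11,12,14])) (.edon 4 6 (.leaf [4,5,8,9,10]) (.leaf [1,3,6,2]))) (.free 1 [7,13,16]))), .t 14 (nat_lit 0x3df03de03d912ae12ab12a804bb04b804080406000512ba12b4) (.z (.node 5 16 (.node 0 10 (.node 0 14 (.node 0 20 (.leaf [0,21,22]) (.leaf [15,17,19,20,18])) (.leaf [11,12,14])) (.node 3 6 (.leaf [1,3,10,2]) (.leaf [4,5,8,9,6]))) (.free 1 [7,13,16]))), .t 10 (nat_lit 0xc9a0c95124511eb11e9119d119b11771175) (.z (.node 0 7 (.node 0 11 (.edon 15 19 (.leaf [13,16,17,15,14]) (.free 2 [0,12,18,19,20,21,22])) (.leaf [8,9,11,10])) (.free 2 [1,2,3,4,5,6,7]))), .t 10 (nat_lit 0x12ae12ab12a80c9a0c951011100f12ba12b4) (.z (.node 0 7 (.node 0 11 (.node 0 20 (.leaf [0,21,22]) (.node 15 16 (.leaf [15,17,19,20,18]) (.leaf [12,16,14,13]))) (.leaf [8,9,11,10])) (.free 2 [1,2,3,4,5,6,7]))), .t 4 (nat_lit 0x610081006)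 (.z (.edon 0 16 (.node 0 11 (.leaf [0,12,13,14,15]) (.edon 4 11 (.free 2 [4,5,6,7,8,9,10]) (.leaf [1,3,11,2]))) (.free 2 [16,17,18,19,20,21,22]))), .t 1 (nat_lit 0) (.cp 2 3), .t 9 (nat_lit 0x88b088a088812cb08c908c608990897) (.z (.node 2 4 (.edon 0 12 (.node 2 8 (.leaf [0,2,10,11]) (.leaf [5,7,9,8,6])) (.node 18 19 (.leaf [18,20,22,21]) (.free 2 [12,13,14,15,16,17,19]))) (.free 1 [1,3,4]))), .t 15 (nat_lit 0x3d90411040c03eb03e612ae12ab12a804c404c20e9f0e9d12ba12b4) (.z (.node 0 3 (.node 5 16 (.node 0 10 (.node 0 14 (.node 0 20 (.leaf [0,21,22]) (.leaf [15,17,19,20,18])) (.leaf [11,14,13,12])) (.leaf [4,5,10,8,6])) (.leaf [7,9,16])) (.free 1 [1,2,3]))), .t 11 (nat_lit 0x3d90411040c03eb03e604c404c2125a125712cb) (.z (.node 0 3 (.node 5 16 (.node 0 10 (.edon 0 14 (.leaf [0,11,12,13]) (.node 18 19 (.leaf [18,20,22,21]) (.leaf [14,17,19,15]))) (.leaf [4,5,10,8,6]))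 (.leaf [7,9,16])) (.free 1 [1,2,3]))), .t 14 (nat_lit 0x40c0409040412ae12ab12a805a605a3042d042b000212ba12b4) (.z (.node 5 16 (.node 0 10 (.node 0 14 (.node 0 20 (.leaf [0,21,22]) (.leaf [15,17,19,20,18])) (.leaf [11,12,14])) (.node 3 8 (.leaf [1,3,6,2]) (.leaf [4,5,9,10,8]))) (.free 1 [7,13,16]))), .t 12 (nat_lit 0x12ae12ab12a803de03d9018300430005000412ba12b4) (.z (.node 5 16 (.node 0 10 (.node 0 14 (.node 0 20 (.leaf [0,21,22]) (.leaf [15,17,19,20,18])) (.leaf [11,12,14])) (.node 3 6 (.leaf [1,3,9,10,2]) (.leaf [4,5,8,6]))) (.free 1 [7,13,16]))), .t 7 (nat_lit 0x17c003a000500020cbb0cb9) (.z (.edon 0 16 (.node 0 12 (.leaf [0,13,14,15]) (.edon 8 10 (.leaf [8,12,11,9]) (.edon 4 6 (.leaf [4,5,7]) (.leaf [1,3,6,10,2])))) (.free 2 [16,17,18,19,20,21,22]))), .t 10 (nat_lit 0xc9a0c98124511eb11e9119d119b11771175) (.z (.node 0 7 (.node 0 11 (.edon 15 19 (.leaf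 [13,16,17,15,14]) (.free 2 [0,12,18,19,20,21,22])) (.leaf [8,11,10,9])) (.free 2 [1,2,3,4,5,6,7]))), .t 10 (nat_lit 0x1172116f116a0c9a0c9811eb11e9119d119c) (.z (.node 0 7 (.node 0 11 (.edon 15 19 (.leaf [13,14,16,17,15]) (.free 2 [0,12,18,19,20,21,22])) (.leaf [8,11,10,9])) (.free 2 [1,2,3,4,5,6,7]))), .t 10 (nat_lit 0x12ae12ab12a80c9a0c981011100f12ba12b4) (.z (.node 0 7 (.node 0 11 (.node 0 20 (.leaf [0,21,22]) (.node 15 16 (.leaf [15,17,19,20,18]) (.leaf [12,16,14,13]))) (.leaf [8,11,10,9])) (.free 2 [1,2,3,4,5,6,7]))), .t 12 (nat_lit 0x12ae12ab12a8017b0039000400020e3c0e3a12ba12b4) (.z (.node 5 16 (.node 0 9 (.node 0 14 (.node 0 20 (.leaf [0,21,22]) (.leaf [15,17,19,20,18])) (.leaf [10,14,13,12])) (.node 3 8 (.leaf [1,3,6,9,2]) (.leaf [4,5,8]))) (.free 1 [7,11,16]))), .t 9 (nat_lit 0x3de03d9125a125712cb12421240123f) (.z (.node 0 3 (.node 5 16 (.node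 0 8 (.edon 0 13 (.leaf [0,9,11,12]) (.node 18 19 (.leaf [13,18,20,22,21]) (.leaf [14,17,19,15]))) (.leaf [4,5,8,6])) (.leaf [7,10,16])) (.free 1 [1,2,3]))), .t 7 (nat_lit 0xc990c9610ab10aa12451243) (.z (.node 0 7 (.node 0 11 (.edon 15 19 (.leaf [14,16,17,15]) (.edon 19 21 (.leaf [19,20,22]) (.leaf [0,12,13,18,21]))) (.leaf [8,10,11,9])) (.free 2 [1,2,3,4,5,6,7]))), .t 8 (nat_lit 0x12cb11691167116608cd08ca02fa) (.z (.node 0 2 (.edon 0 11 (.node 4 8 (.leaf [0,3,4,6,9]) (.leaf [5,7,10,8])) (.node 18 19 (.leaf [12,18,20,22,21]) (.free 2 [11,13,14,15,16,17,19]))) (.free 1 [1,2]))), .t 12 (nat_lit 0x12ae12ab12a8017b0039000400020e9f0e9d12ba12b4) (.z (.node 5 16 (.node 0 9 (.node 0 14 (.node 0 20 (.leaf [0,21,22]) (.leaf [15,17,19,20,18])) (.leaf [11,14,13,12])) (.node 3 8 (.leaf [1,3,6,9,2]) (.leaf [4,5,8]))) (.free 1 [7,10,16])))] (by decide +kernel) (by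 decide +kernel)
theorem b198 : B 6336 6368 := Blk.of_chk [.t 8 (nat_lit 0x116910030f3c0f3b08cd08ca02fa) (.z (.node 0 2 (.edon 0 11 (.node 4 8 (.leaf [0,3,4,6,9]) (.leaf [5,7,10,8])) (.node 12 19 (.leaf [11,12,20,22,21]) (.free 2 [13,14,15,16,17,18,19]))) (.free 1 [1,2]))), .t 10 (nat_lit 0xc990c96124511eb11e9119d119b11771175) (.z (.node 0 7 (.node 0 11 (.edon 15 19 (.leaf [13,16,17,15,14]) (.free 2 [0,12,18,19,20,21,22])) (.leaf [8,10,11,9])) (.free 2 [1,2,3,4,5,6,7]))), .t 9 (nat_lit 0x3de03d9125a125712cb116911671166) (.z (.node 0 3 (.node 5 16 (.node 0 8 (.edon 0 12 (.leaf [0,9,10,11]) (.node 18 19 (.leaf [12,18,20,22,21]) (.leaf [14,17,19,15]))) (.leaf [4,5,8,6])) (.leaf [7,13,16])) (.free 1 [1,2,3]))), .t 4 (nat_lit 0x410081006) (.z (.edon 0 16 (.node 0 11 (.leaf [0,12,13,14,15]) (.edon 4 9 (.free 2 [4,5,6,7,8,10,11]) (.leaf [1,3,9,2]))) (.free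 2 [16,17,18,19,20,21,22]))), .t 12 (nat_lit 0x116910030f3c0f3b0b980a830a7e0a5e0a5b0a4d0a4c) (.z (.node 0 2 (.edon 0 6 (.leaf [0,3,4,5]) (.edon 0 11 (.leaf [6,7,8,10,9]) (.node 12 19 (.leaf [11,12,20,22,21]) (.free 2 [13,14,15,16,17,18,19])))) (.free 1 [1,2]))), .t 9 (nat_lit 0x12ae12ab12a800260e9f0e9d12ba12b4) (.z (.node 1 16 (.node 0 10 (.node 0 14 (.node 0 20 (.leaf [0,21,22]) (.leaf [15,17,19,20,18])) (.leaf [11,14,13,12])) (.leaf [1,10,9,2])) (.free 2 [3,4,5,6,7,8,16]))), .t 1 (nat_lit 0) (.cn 1 3), .t 5 (nat_lit 0x17b003900040002) (.z (.edon 0 16 (.node 0 12 (.leaf [0,13,14,15]) (.edon 4 6 (.free 2 [4,5,7,8,10,11,12]) (.leaf [1,3,6,9,2]))) (.free 2 [16,17,18,19,20,21,22]))), .t 5 (nat_lit 0x26125a125712cb) (.z (.node 1 16 (.node 0 10 (.edon 0 14 (.leaf [0,11,12,13]) (.node 18 19 (.leaf [18,20,22,21]) (.leaf [14,17,19,15]))) (.leaf [1,10,9,2]))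 (.free 2 [3,4,5,6,7,8,16]))), .t 6 (nat_lit 0x12cb088a088802770275) (.z (.node 2 4 (.edon 0 12 (.node 2 8 (.leaf [0,2,9,10,11]) (.leaf [5,7,8,6])) (.node 18 19 (.leaf [18,20,22,21]) (.free 2 [12,13,14,15,16,17,19]))) (.free 1 [1,3,4]))), .t 10 (nat_lit 0x18300430005000412ba129a127912731272) (.z (.edon 19 4 (.node 0 10 (.node 0 13 (.node 0 20 (.leaf [0,21,22]) (.leaf [14,19,20,18,15])) (.leaf [11,12,13])) (.leaf [1,3,9,10,2])) (.free 2 [4,5,6,7,8,16,17]))), .t 1 (nat_lit 0) (.cn 2 3), .t 4 (nat_lit 0x12cb0ea60ea4) (.z (.node 4 19 (.node 0 10 (.edon 0 18 (.leaf [0,11,12,13,15]) (.leaf [18,20,22,21])) (.free 2 [1,2,3,4,6,9,10])) (.free 2 [5,7,8,14,16,17,19]))), .t 7 (nat_lit 0x17b003900040002121c121b) (.z (.edon 19 4 (.node 0 9 (.node 0 12 (.edon 19 21 (.leaf [19,20,22]) (.leaf [0,13,15,18,21])) (.leaf [10,11,12])) (.leaf [1,3,6,9,2])) (.free 2 [4,5,7,8,14,16,17]))),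 .t 10 (nat_lit 0x17b00390004000212ba123b121f12191217) (.z (.edon 19 4 (.node 0 9 (.node 0 12 (.node 0 20 (.leaf [0,21,22]) (.leaf [13,19,20,18,15])) (.leaf [10,11,12])) (.leaf [1,3,6,9,2])) (.free 2 [4,5,7,8,14,16,17]))), .t 1 (nat_lit 0) (.cn 2 3), .t 1 (nat_lit 0) (.cn 2 3), .t 1 (nat_lit 0) (.cp 2 3), .t 12 (nat_lit 0x12ae12ab12a8017b0039000400020df90df412ba12b4) (.z (.node 5 16 (.node 0 9 (.node 0 13 (.node 0 20 (.leaf [0,21,22]) (.leaf [15,17,19,20,18])) (.leaf [10,11,13,12])) (.node 3 8 (.leaf [1,3,6,9,2]) (.leaf [4,5,8]))) (.free 1 [7,14,16]))), .t 1 (nat_lit 0) (.cn 2 3), .t 13 (nat_lit 0x12ae12ab12a810100f470f450eda0ed80eae0eac12ba12b4) (.z (.node 0 3 (.node 0 10 (.node 15 16 (.node 0 20 (.leaf [0,21,22]) (.leaf [15,17,19,20,18])) (.leaf [11,14,16,13,12])) (.free 2 [4,5,6,7,8,9,10])) (.free 1 [1,2,3]))), .t 9 (nat_lit 0x12ae12ab12a81010100d12ba12b40004)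 (.z (.node 20 0 (.edon 0 12 (.edon 4 9 (.free 2 [4,5,6,7,8,10,11]) (.leaf [1,3,9,2])) (.node 15 16 (.leaf [15,17,19,20,18]) (.leaf [12,14,16,13]))) (.free 1 [0,21,22]))), .t 7 (nat_lit 0x17b003900040002114e114d) (.z (.edon 19 4 (.node 0 11 (.edon 19 21 (.leaf [19,20,22]) (.leaf [0,12,15,18,21])) (.edon 8 9 (.leaf [8,10,11]) (.leaf [1,3,6,9,2]))) (.free 2 [4,5,7,13,14,16,17]))), .t 6 (nat_lit 0xa830a7e0006114e114d) (.z (.edon 19 4 (.node 0 11 (.edon 19 21 (.leaf [19,20,22]) (.leaf [0,12,15,18,21])) (.node 3 9 (.leaf [1,3,11,2]) (.leaf [6,8,10,9]))) (.free 2 [4,5,7,13,14,16,17]))), .t 9 (nat_lit 0x12ae12ab12a81010100d12ba12b40006) (.z (.node 20 0 (.edon 0 12 (.node 3 9 (.leaf [1,3,11,2]) (.free 2 [4,5,6,7,8,9,10])) (.node 15 16 (.leaf [15,17,19,20,18]) (.leaf [12,14,16,13]))) (.free 1 [0,21,22]))), .t 7 (nat_lit 0x17b00390004000211c311c1) (.z (.edon 19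 4 (.node 0 9 (.node 0 12 (.edon 19 21 (.leaf [19,20,22]) (.leaf [0,13,14,17,21])) (.leaf [10,11,12])) (.leaf [1,3,6,9,2])) (.free 2 [4,5,7,8,15,16,18]))), .t 11 (nat_lit 0x3de03d9128a122e122b11cf11ca11b411b21169) (.z (.node 0 3 (.node 5 16 (.node 0 8 (.edon 0 12 (.leaf [0,9,10,11]) (.node 12 19 (.leaf [12,20,22,21]) (.leaf [13,14,17,19,18]))) (.leaf [4,5,8,6])) (.leaf [7,15,16])) (.free 1 [1,2,3]))), .t 9 (nat_lit 0x1249000612a312a21281128012451244) (.z (.edon 21 19 (.node 0 11 (.node 13 18 (.leaf [0,12,13,21]) (.leaf [14,15,16,17,18])) (.node 3 9 (.leaf [1,3,11,2]) (.free 2 [4,5,6,7,8,9,10]))) (.free 1 [19,20,22]))), .t 9 (nat_lit 0x1249000412a312a21281128012451244) (.z (.edon 21 19 (.node 0 11 (.node 13 18 (.leaf [0,12,13,21]) (.leaf [14,15,16,17,18])) (.edon 4 9 (.free 2 [4,5,6,7,8,10,11]) (.leaf [1,3,9,2]))) (.free 1 [19,20,22]))), .t 5 (nat_lit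 0x17b003900040002) (.z (.edon 19 4 (.node 0 9 (.edon 0 13 (.leaf [0,10,11,12]) (.free 2 [13,14,18,19,20,21,22])) (.leaf [1,3,6,9,2])) (.free 2 [4,5,7,8,15,16,17]))), .t 7 (nat_lit 0x17b00390004000211dd11db) (.z (.edon 19 4 (.node 0 9 (.node 0 12 (.edon 19 21 (.leaf [19,20,22]) (.leaf [0,13,14,18,21])) (.leaf [10,11,12])) (.leaf [1,3,6,9,2])) (.free 2 [4,5,7,8,15,16,17]))), .t 10 (nat_lit 0x17b003900040002129a123b11e011d711d5) (.z (.edon 19 4 (.node 0 9 (.node 0 12 (.node 0 20 (.leaf [0,21,22]) (.leaf [13,19,20,18,14])) (.leaf [10,11,12])) (.leaf [1,3,6,9,2])) (.free 2 [4,5,7,8,15,16,17])))] (by decide +kernel) (by decide +kernel)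
theorem b199 : B 6368 6400 := Blk.of_chk [.t 9 (nat_lit 0x10b810e510e310c210bf000611281127) (.z (.edon 21 19 (.node 0 11 (.node 13 17 (.leaf [0,13,18,21]) (.leaf [12,15,16,17,14])) (.edon 4 11 (.free 2 [4,5,6,7,8,9,10]) (.leaf [1,3,11,2]))) (.free 1 [19,20,22]))), .t 9 (nat_lit 0x10b810e510e310c210bf000211281127) (.z (.edon 21 19 (.node 0 11 (.node 13 17 (.leaf [0,13,18,21]) (.leaf [12,15,16,17,14])) (.edon 4 6 (.free 2 [4,5,7,8,9,10,11]) (.leaf [1,3,6,2]))) (.free 1 [19,20,22]))), .t 10 (nat_lit 0x101d10ab10a910371034111c111b0d7b0d7a) (.z (.node 0 7 (.edon 8 19 (.leaf [8,15,16,17]) (.edon 0 12 (.leaf [0,9,10,11]) (.edon 19 21 (.leaf [19,20,22]) (.leaf [12,14,18,21,13])))) (.free 2 [1,2,3,4,5,6,7]))), .t 8 (nat_lit 0x1277127312700ecb0ec9129d127e) (.z (.node 0 3 (.node 0 10 (.edon 14 21 (.node 15 19 (.leaf [14,15,20,22,18]) (.leaf [16,17,19])) (.leaf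 [0,11,12,13,21])) (.free 2 [4,5,6,7,8,9,10])) (.free 1 [1,2,3]))), .t 10 (nat_lit 0x3df042e042903eb03e604e804e612b4129e) (.z (.node 0 3 (.node 5 16 (.node 0 10 (.edon 0 14 (.leaf [0,11,12,13]) (.node 14 20 (.leaf [14,18,22,21]) (.leaf [15,17,19,20]))) (.leaf [4,5,10,9,6])) (.leaf [7,8,16])) (.free 1 [1,2,3]))), .t 9 (nat_lit 0x101d10ab10a9103710340002111c111b) (.z (.edon 19 4 (.node 0 6 (.edon 0 12 (.leaf [0,9,10,11]) (.edon 19 21 (.leaf [19,20,22]) (.leaf [12,14,18,21,13]))) (.leaf [1,3,6,2])) (.free 2 [4,5,7,8,15,16,17]))), .t 13 (nat_lit 0x12451128112610e510e310c310c103e4032d032902fa02f0) (.z (.edon 0 3 (.free 1 [0,1,2]) (.edon 0 11 (.edon 7 9 (.leaf [7,8,10]) (.leaf [3,4,5,9,6])) (.edon 14 19 (.leaf [12,16,17,15,14]) (.free 2 [11,13,18,19,20,21,22]))))), .t 15 (nat_lit 0x888089e089b088f088e08cc08cb12451128112610e510e310c310c1) (.z (.node 2 4 (.node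 0 11 (.edon 14 19 (.leaf [12,16,17,15,14]) (.free 2 [0,13,18,19,20,21,22])) (.node 2 10 (.leaf [2,9,11]) (.leaf [5,7,8,10,6]))) (.free 1 [1,3,4]))), .t 1 (nat_lit 0) (.fa 3), .t 6 (nat_lit 0x2111c111b11eb11ea) (.z (.edon 21 19 (.node 0 11 (.edon 13 18 (.leaf [13,15,16,17]) (.leaf [0,12,14,18,21])) (.edon 4 6 (.free 2 [4,5,7,8,9,10,11]) (.leaf [1,3,6,2]))) (.free 1 [19,20,22]))), .t 15 (nat_lit 0x11b111ad11aa0efc0e580e570e2f0e2e0e070e05122e122b11cf11cd) (.z (.node 0 3 (.edon 0 10 (.free 2 [0,4,5,6,7,8,9]) (.node 13 16 (.edon 0 20 (.leaf [13,17,19,18,14]) (.leaf [20,21,22])) (.leaf [10,15,16,12,11]))) (.free 1 [1,2,3]))), .t 10 (nat_lit 0x12cb12a0129e129d04e804e60377037502fa) (.z (.edon 0 3 (.free 1 [0,1,2]) (.node 4 19 (.edon 0 11 (.leaf [3,4,10,9,6]) (.edon 0 14 (.leaf [11,12,13]) (.leaf [14,18,20,22,21]))) (.free 2 [5,7,8,15,16,17,19])))), .t 1 (nat_lit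 0) (.cn 2 3), .t 10 (nat_lit 0x10440f690f670efc0efa0eae0eac0b980b96) (.z (.edon 0 7 (.free 2 [0,1,2,3,4,5,6]) (.edon 0 11 (.leaf [7,10,9,8]) (.node 14 16 (.free 2 [14,17,18,19,20,21,22]) (.leaf [11,15,16,13,12]))))), .t 7 (nat_lit 0x12cb12a0129e129d0210020f) (.z (.node 4 19 (.edon 0 11 (.node 2 4 (.leaf [0,2,6,8,9]) (.leaf [1,3,4])) (.edon 0 14 (.leaf [11,12,13]) (.leaf [14,18,20,22,21]))) (.free 2 [5,7,10,15,16,17,19]))), .t 10 (nat_lit 0x12cb12a0129e129d04bc04ba0361035f02f9) (.z (.edon 0 3 (.free 1 [0,1,2]) (.node 4 19 (.edon 0 11 (.leaf [3,4,9,8,6]) (.edon 0 14 (.leaf [11,12,13]) (.leaf [14,18,20,22,21]))) (.free 2 [5,7,10,15,16,17,19])))), .t 7 (nat_lit 0x12cb12a0129e129d02150214) (.z (.node 4 19 (.edon 0 11 (.node 2 4 (.leaf [0,2,6,8,10]) (.leaf [1,3,4])) (.edon 0 14 (.leaf [11,12,13]) (.leaf [14,18,20,22,21]))) (.free 2 [5,7,9,15,16,17,19]))),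 .t 10 (nat_lit 0x12cb12a0129e129d04c404c20368036602f9) (.z (.edon 0 3 (.free 1 [0,1,2]) (.node 4 19 (.edon 0 11 (.leaf [3,4,10,8,6]) (.edon 0 14 (.leaf [11,12,13]) (.leaf [14,18,20,22,21]))) (.free 2 [5,7,9,15,16,17,19])))), .t 1 (nat_lit 0) (.cn 2 3), .t 1 (nat_lit 0) (.cn 2 3), .t 14 (nat_lit 0x117311b411b111861183120111ff12cb03de0327032402f902ef) (.z (.edon 0 3 (.free 1 [0,1,2]) (.node 5 16 (.edon 0 9 (.leaf [3,4,5,8,6]) (.edon 0 13 (.leaf [9,10,11]) (.node 18 19 (.leaf [18,20,22,21]) (.leaf [13,15,17,19,14])))) (.leaf [7,12,16])))), .t 4 (nat_lit 0x12cb0e9e0e9c) (.z (.node 4 19 (.node 0 10 (.edon 0 18 (.leaf [0,11,12,13,14]) (.leaf [18,20,22,21])) (.free 2 [1,2,3,4,6,8,10])) (.free 2 [5,7,9,15,16,17,19]))), .t 5 (nat_lit 0x8ee08ed0e9e0e9c) (.z (.edon 0 16 (.node 4 10 (.node 0 9 (.leaf [0,11,12,13,14]) (.free 2 [1,2,3,4,6,8,9])) (.leaf [5,7,15,10]))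 (.free 2 [16,17,18,19,20,21,22]))), .t 10 (nat_lit 0xc990c96129a1163111f1118111611eb11e9) (.z (.node 0 7 (.node 0 11 (.node 0 20 (.leaf [0,21,22]) (.edon 13 19 (.leaf [13,16,17,15]) (.leaf [12,19,20,18,14]))) (.leaf [8,10,11,9])) (.free 2 [1,2,3,4,5,6,7]))), .t 7 (nat_lit 0xc990c96111c111b11eb11e9) (.z (.node 0 7 (.node 0 11 (.edon 13 19 (.leaf [13,16,17,15]) (.edon 19 21 (.leaf [19,20,22]) (.leaf [0,12,14,18,21]))) (.leaf [8,10,11,9])) (.free 2 [1,2,3,4,5,6,7]))), .t 9 (nat_lit 0x129a1163111f1118111611eb11ea0002) (.z (.node 20 0 (.edon 0 12 (.edon 4 6 (.free 2 [4,5,7,8,9,10,11]) (.leaf [1,3,6,2])) (.edon 13 19 (.leaf [13,15,16,17]) (.leaf [12,19,20,18,14]))) (.free 1 [0,21,22]))), .t 5 (nat_lit 0x21029102412cb) (.z (.edon 19 4 (.node 0 6 (.edon 0 12 (.leaf [0,8,10,11]) (.node 18 19 (.leaf [18,20,22,21]) (.leaf [12,13,19,14]))) (.leaf [1,3,6,2])) (.free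 2 [4,5,7,9,15,16,17]))), .t 7 (nat_lit 0xc9a0c95111c111b11eb11e9) (.z (.node 0 7 (.node 0 11 (.edon 13 19 (.leaf [13,16,17,15]) (.edon 19 21 (.leaf [19,20,22]) (.leaf [0,12,14,18,21]))) (.leaf [8,9,11,10])) (.free 2 [1,2,3,4,5,6,7]))), .t 10 (nat_lit 0xc9a0c95129a1163111f1118111611eb11e9) (.z (.node 0 7 (.node 0 11 (.node 0 20 (.leaf [0,21,22]) (.edon 13 19 (.leaf [13,16,17,15]) (.leaf [12,19,20,18,14]))) (.leaf [8,9,11,10])) (.free 2 [1,2,3,4,5,6,7]))), .t 15 (nat_lit 0x12ab128a1285126d1268125a12580df90df703de0327032402f902ef) (.z (.edon 0 3 (.free 1 [0,1,2]) (.node 5 16 (.edon 0 10 (.leaf [3,4,5,8,6]) (.edon 0 14 (.leaf [10,13,12,11]) (.edon 0 20 (.leaf [14,15,17,19,18]) (.leaf [20,21,22])))) (.leaf [7,9,16])))), .t 6 (nat_lit 0x2111c111b11eb11e9) (.z (.edon 21 19 (.node 0 11 (.edon 13 18 (.leaf [13,16,17,15]) (.leaf [0,12,14,18,21])) (.edon 4 6 (.free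 2 [4,5,7,8,9,10,11]) (.leaf [1,3,6,2]))) (.free 1 [19,20,22]))), .t 1 (nat_lit 0) (.cn 2 3)] (by decide +kernel) (by decide +kernel)
theorem b200 : B 6400 6432 := Blk.of_chk [.t 15 (nat_lit 0x3d90411040c03eb03e611fe11f911f704c404c2122e122b12121210) (.z (.node 0 3 (.node 5 16 (.node 0 10 (.edon 0 20 (.edon 13 14 (.leaf [13,17,19,18,15]) (.leaf [0,11,12,14])) (.leaf [20,21,22])) (.leaf [4,5,10,8,6])) (.leaf [7,9,16])) (.free 1 [1,2,3]))), .t 4 (nat_lit 0x20cf50cf3) (.z (.edon 19 4 (.node 0 6 (.edon 0 14 (.leaf [0,8,10,11,12]) (.free 2 [14,15,18,19,20,21,22])) (.leaf [1,3,6,2])) (.free 2 [4,5,7,9,13,16,17]))), .t 1 (nat_lit 0) (.cn 2 3), .t 1 (nat_lit 0) (.cn 2 3), .t 9 (nat_lit 0x12cb1009100404c404c20368036602f9) (.z (.edon 0 3 (.free 1 [0,1,2]) (.node 4 19 (.edon 0 12 (.leaf [3,4,10,8,6]) (.edon 0 18 (.leaf [12,13,15,14]) (.leaf [18,20,22,21]))) (.free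 2 [5,7,9,11,16,17,19])))), .t 1 (nat_lit 0) (.cn 2 3), .t 6 (nat_lit 0x12ae12ab12a812ba12b4) (.z (.node 15 16 (.node 0 20 (.leaf [0,21,22]) (.leaf [15,17,19,20,18])) (.free 4 [1,2,3,4,5,6,7,8,9,10,11,12,13,14,16]))), .t 6 (nat_lit 0x12cb08cd08ca02270226) (.z (.node 2 4 (.edon 0 12 (.node 6 10 (.leaf [0,2,6,9,11]) (.leaf [5,7,10,8])) (.node 18 19 (.leaf [18,20,22,21]) (.free 2 [12,13,14,15,16,17,19]))) (.free 1 [1,3,4]))), .t 6 (nat_lit 0x12cb08cd08ca02270226) (.z (.node 2 4 (.edon 0 12 (.node 6 8 (.leaf [0,2,6,9,11]) (.leaf [5,7,10,8])) (.node 18 19 (.leaf [18,20,22,21]) (.free 2 [12,13,14,15,16,17,19]))) (.free 1 [1,3,4]))), .t 9 (nat_lit 0x8c608dd08da08cd08ca12cb090d090b) (.z (.node 2 4 (.edon 0 12 (.node 6 8 (.leaf [0,2,6,11]) (.leaf [5,7,10,9,8])) (.node 18 19 (.leaf [18,20,22,21]) (.free 2 [12,13,14,15,16,17,19]))) (.free 1 [1,3,4]))), .t 14 (nat_lit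 0x404042e04290411040c12ae12ab12a805a705a5000212ba12b4) (.z (.node 5 16 (.node 0 10 (.node 0 14 (.node 0 20 (.leaf [0,21,22]) (.leaf [15,17,19,20,18])) (.leaf [11,12,14])) (.node 3 8 (.leaf [1,3,6,2]) (.leaf [4,5,10,9,8]))) (.free 1 [7,13,16]))), .t 11 (nat_lit 0xbfb0002040904040df90df70c170c150bf80bf6) (.z (.edon 0 16 (.node 0 13 (.leaf [0,14,15]) (.edon 7 9 (.leaf [7,13,12,11,10]) (.edon 4 6 (.leaf [4,5,9,8]) (.leaf [1,3,6,2])))) (.free 2 [16,17,18,19,20,21,22]))), .t 10 (nat_lit 0x12ae12ab12a80c990c961011100c12ba12b4) (.z (.node 0 7 (.node 0 11 (.node 0 20 (.leaf [0,21,22]) (.node 15 16 (.leaf [15,17,19,20,18]) (.leaf [12,13,16,14]))) (.leaf [8,10,11,9])) (.free 2 [1,2,3,4,5,6,7]))), .t 11 (nat_lit 0x10ce10c310be03de03d91137113410f810f612cb) (.z (.node 0 3 (.node 5 16 (.node 0 8 (.edon 0 12 (.leaf [0,9,10,11]) (.node 18 19 (.leaf [18,20,22,21]) (.leaf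 [12,14,17,19,15]))) (.leaf [4,5,8,6])) (.leaf [7,13,16])) (.free 1 [1,2,3]))), .t 11 (nat_lit 0xe070eae0eac0e430e410df90df712cb125a1257) (.z (.node 0 3 (.edon 0 10 (.free 2 [0,4,5,6,7,8,9]) (.node 14 16 (.edon 14 20 (.leaf [14,17,19,15]) (.leaf [18,20,22,21])) (.leaf [10,16,13,12,11]))) (.free 1 [1,2,3]))), .t 7 (nat_lit 0x116f116d017e003d00070002) (.z (.node 16 0 (.edon 0 13 (.node 6 9 (.leaf [1,3,6,12,2]) (.free 2 [4,5,7,8,9,10,11])) (.leaf [13,16,15,14])) (.free 2 [0,17,18,19,20,21,22]))), .t 1 (nat_lit 0) (.cp 2 3), .t 10 (nat_lit 0x128d128a1285129a1294017e003d00070002) (.z (.node 20 0 (.edon 0 13 (.node 6 9 (.leaf [1,3,6,12,2]) (.free 2 [4,5,7,8,9,10,11])) (.node 14 16 (.leaf [14,17,19,20,18]) (.leaf [13,15,16]))) (.free 1 [0,21,22]))), .t 10 (nat_lit 0x128d128a1285129a1294017b003900040002) (.z (.node 20 0 (.edon 0 13 (.edon 4 9 (.free 2 [4,5,7,8,10,11,12])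 (.leaf [1,3,6,9,2])) (.node 14 16 (.leaf [14,17,19,20,18]) (.leaf [13,15,16]))) (.free 1 [0,21,22]))), .t 1 (nat_lit 0) (.cn 1 3), .t 6 (nat_lit 0x3de0327032402f902ef) (.z (.edon 0 3 (.free 1 [0,1,2]) (.edon 7 8 (.free 4 [7,9,10,11,12,13,14,15,16,17,18,19,20,21,22]) (.leaf [3,4,5,8,6])))), .t 1 (nat_lit 0) (.cp 2 3), .t 7 (nat_lit 0x12cb1003100210010b980b96) (.z (.edon 0 7 (.free 2 [0,1,2,3,4,5,6]) (.edon 0 11 (.leaf [7,10,9,8]) (.node 18 19 (.leaf [11,18,20,22,21]) (.free 2 [12,13,14,15,16,17,19]))))), .t 10 (nat_lit 0x1009100408cd08ca04f004ee037d037b02fa) (.z (.edon 0 16 (.edon 0 3 (.leaf [0,1,2]) (.edon 0 12 (.node 4 10 (.leaf [3,4,11,9,6]) (.leaf [5,7,10,8])) (.leaf [12,13,15,14]))) (.free 2 [16,17,18,19,20,21,22]))), .t 1 (nat_lit 0) (.cn 2 3), .t 9 (nat_lit 0x3de03d9120111fe12cb12a0129e129d) (.z (.node 0 3 (.node 5 16 (.node 0 8 (.edon 0 13 (.leaf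 [0,9,11,12]) (.node 14 19 (.leaf [14,18,20,22,21]) (.leaf [13,17,19,15]))) (.leaf [4,5,8,6])) (.leaf [7,10,16])) (.free 1 [1,2,3]))), .t 14 (nat_lit 0x117311b411b111861183120111ff12cb03de0327032402f902ef) (.z (.edon 0 3 (.free 1 [0,1,2]) (.node 5 16 (.edon 0 9 (.leaf [3,4,5,8,6]) (.edon 0 13 (.leaf [9,10,12]) (.node 18 19 (.leaf [18,20,22,21]) (.leaf [13,15,17,19,14])))) (.leaf [7,11,16])))), .t 12 (nat_lit 0x12ae12ab12a8017b0039000400020411040c12ba12b4) (.z (.node 5 16 (.node 0 10 (.node 0 14 (.node 0 20 (.leaf [0,21,22]) (.leaf [15,17,19,20,18])) (.leaf [11,12,14])) (.edon 4 9 (.leaf [4,5,10,8]) (.leaf [1,3,6,9,2]))) (.free 1 [7,13,16]))), .t 10 (nat_lit 0x1048104510400c990c961128112610731072) (.z (.node 0 7 (.node 0 11 (.edon 15 19 (.leaf [12,13,16,17,15]) (.free 2 [0,14,18,19,20,21,22])) (.leaf [8,10,11,9])) (.free 2 [1,2,3,4,5,6,7]))), .t 7 (nat_lit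 0x12cb12a0129e129d0210020f) (.z (.node 4 19 (.edon 0 10 (.node 2 4 (.leaf [0,2,6,8,9]) (.leaf [1,3,4])) (.edon 0 14 (.leaf [10,11,12]) (.leaf [14,18,20,22,21]))) (.free 2 [5,7,13,15,16,17,19]))), .t 5 (nat_lit 0x12cb116911671166) (.z (.node 0 7 (.edon 0 11 (.leaf [0,8,9,10]) (.node 12 19 (.leaf [12,18,20,22,21]) (.free 2 [11,13,14,15,16,17,19]))) (.free 2 [1,2,3,4,5,6,7]))), .t 9 (nat_lit 0x10a3109e109b116310ae124512440002) (.z (.node 20 0 (.edon 0 12 (.edon 4 6 (.free 2 [4,5,7,8,9,10,11]) (.leaf [1,3,6,2])) (.edon 14 19 (.leaf [14,15,16,17]) (.leaf [12,18,19,20,13]))) (.free 1 [0,21,22])))] (by decide +kernel) (by decide +kernel)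
theorem b201 : B 6432 6464 := Blk.of_chk [.t 9 (nat_lit 0x116903e4032d032902fa02f00bb00bad) (.z (.edon 0 3 (.free 1 [0,1,2]) (.edon 0 12 (.edon 7 9 (.leaf [7,10,11,8]) (.leaf [3,4,5,9,6])) (.node 12 19 (.leaf [12,20,22,21]) (.free 2 [13,14,15,16,17,18,19]))))), .t 12 (nat_lit 0x109e109b12450fe20fe00fc10fbf0fae0fac0210020f) (.z (.edon 0 20 (.edon 0 11 (.node 4 10 (.node 2 4 (.leaf [0,2,6,8,9]) (.leaf [1,3,4])) (.leaf [5,7,10])) (.edon 14 19 (.leaf [11,16,17,15,14]) (.leaf [12,18,19,13]))) (.free 1 [20,21,22]))), .t 11 (nat_lit 0x3de03d912ab128a1285126d1268125a12581242) (.z (.node 0 3 (.node 5 16 (.node 0 8 (.edon 0 13 (.leaf [0,9,11,12]) (.node 13 19 (.leaf [13,20,22,21]) (.leaf [14,15,17,19,18]))) (.leaf [4,5,8,6])) (.leaf [7,10,16])) (.free 1 [1,2,3]))), .t 11 (nat_lit 0x3de03d912ab128a1285126d1268125a12581242) (.z (.node 0 3 (.node 5 16 (.node 0 8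 (.edon 0 13 (.leaf [0,9,10,12]) (.node 13 19 (.leaf [13,20,22,21]) (.leaf [14,15,17,19,18]))) (.leaf [4,5,8,6])) (.leaf [7,11,16])) (.free 1 [1,2,3]))), .t 6 (nat_lit 0x12420215021408df08de) (.z (.node 2 4 (.edon 0 12 (.edon 5 10 (.leaf [5,7,11,9]) (.leaf [0,2,6,8,10])) (.edon 12 20 (.free 2 [12,14,15,16,17,18,19]) (.leaf [13,20,22,21]))) (.free 1 [1,3,4]))), .t 6 (nat_lit 0x12420215021408df08de) (.z (.node 2 4 (.edon 0 12 (.edon 5 8 (.leaf [5,7,11,9]) (.leaf [0,2,6,8,10])) (.edon 12 20 (.free 2 [12,14,15,16,17,18,19]) (.leaf [13,20,22,21]))) (.free 1 [1,3,4]))), .t 10 (nat_lit 0x12450fe20fe00fc10fbf0fae0fac0b980b96) (.z (.edon 0 7 (.free 2 [0,1,2,3,4,5,6]) (.edon 0 11 (.leaf [7,10,9,8]) (.edon 14 19 (.leaf [11,16,17,15,14]) (.free 2 [12,13,18,19,20,21,22]))))), .t 9 (nat_lit 0x116908e508e204bc04ba0361035f02f9) (.z (.edon 0 3 (.free 1 [0,1,2]) (.edon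 0 12 (.node 4 10 (.leaf [3,4,9,8,6]) (.leaf [5,7,11,10])) (.node 12 19 (.leaf [12,20,22,21]) (.free 2 [13,14,15,16,17,18,19]))))), .t 6 (nat_lit 0x11690210020f08e508e2) (.z (.node 2 4 (.edon 0 12 (.edon 5 9 (.leaf [5,7,11,10]) (.leaf [0,2,6,8,9])) (.node 12 19 (.leaf [12,20,22,21]) (.free 2 [13,14,15,16,17,18,19]))) (.free 1 [1,3,4]))), .t 9 (nat_lit 0x116903e4032d032902fa02f00bb10bac) (.z (.edon 0 3 (.free 1 [0,1,2]) (.edon 0 12 (.edon 7 9 (.leaf [7,8,11,10]) (.leaf [3,4,5,9,6])) (.node 12 19 (.leaf [12,20,22,21]) (.free 2 [13,14,15,16,17,18,19]))))), .t 9 (nat_lit 0x124203e4032d032902fa02f00bb10bac) (.z (.edon 0 3 (.free 1 [0,1,2]) (.edon 0 12 (.edon 7 9 (.leaf [7,8,11,10]) (.leaf [3,4,5,9,6])) (.node 13 19 (.leaf [13,20,22,21]) (.free 2 [12,14,15,16,17,18,19]))))), .t 10 (nat_lit 0x1172116f116a0c990c9611eb11e9119d119c) (.z (.node 0 7 (.node 0 11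 (.edon 15 19 (.leaf [13,14,16,17,15]) (.free 2 [0,12,18,19,20,21,22])) (.leaf [8,10,11,9])) (.free 2 [1,2,3,4,5,6,7]))), .t 14 (nat_lit 0x404042e04290411040c12ae12ab12a8000205a705a512ba12b4) (.z (.node 5 16 (.node 0 10 (.node 0 13 (.node 0 20 (.leaf [0,21,22]) (.leaf [15,17,19,20,18])) (.leaf [11,12,13])) (.edon 4 6 (.leaf [4,5,10,9,8]) (.leaf [1,3,6,2]))) (.free 1 [7,14,16]))), .t 10 (nat_lit 0x4c004bb04b808f408f305a705a204e804e6) (.z (.node 0 3 (.edon 0 16 (.node 4 11 (.node 0 10 (.leaf [0,12,13,15]) (.leaf [4,8,10,9,6])) (.leaf [5,7,14,11])) (.free 2 [16,17,18,19,20,21,22])) (.free 1 [1,2,3]))), .t 14 (nat_lit 0x12ae12ab12a80002090d05a705a2042e04290410040e12ba12b4) (.z (.node 5 16 (.node 0 10 (.node 0 13 (.node 0 20 (.leaf [0,21,22]) (.leaf [15,17,19,20,18])) (.leaf [11,12,13])) (.edon 4 6 (.leaf [4,5,8,10,9]) (.leaf [1,3,6,2]))) (.free 1 [7,14,16]))),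 .t 9 (nat_lit 0x116908cd08ca04f004ee037d037b02fa) (.z (.edon 0 3 (.free 1 [0,1,2]) (.edon 0 12 (.node 4 8 (.leaf [3,4,11,9,6]) (.leaf [5,7,10,8])) (.node 12 19 (.leaf [12,20,22,21]) (.free 2 [13,14,15,16,17,18,19]))))), .t 1 (nat_lit 0) (.fa 3), .t 15 (nat_lit 0x3df042e042903eb03e612ae12ab12a804e804e60e9f0e9d12ba12b4) (.z (.node 0 3 (.node 5 16 (.node 0 10 (.node 0 14 (.node 0 20 (.leaf [0,21,22]) (.leaf [15,17,19,20,18])) (.leaf [11,14,13,12])) (.leaf [4,5,10,9,6])) (.leaf [7,8,16])) (.free 1 [1,2,3]))), .t 10 (nat_lit 0xc9e0c990c960cf60cf10cbb0cb911eb11e9) (.z (.node 0 7 (.node 0 12 (.edon 15 19 (.leaf [13,16,17,15]) (.free 2 [0,14,18,19,20,21,22])) (.leaf [8,10,12,11,9])) (.free 2 [1,2,3,4,5,6,7]))), .t 14 (nat_lit 0x12ab128a1285126d1268125a1258116903de0327032402f902ef) (.z (.edon 0 3 (.free 1 [0,1,2]) (.node 5 16 (.edon 0 9 (.leaf [3,4,5,8,6]) (.edon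 0 12 (.leaf [9,10,11]) (.node 12 19 (.leaf [12,20,22,21]) (.leaf [14,15,17,19,18])))) (.leaf [7,13,16])))), .t 10 (nat_lit 0x8c608dd08da08cd08ca10091007090d090b) (.z (.edon 0 16 (.edon 0 12 (.node 4 8 (.free 2 [0,1,2,3,4,6,11]) (.leaf [5,7,10,9,8])) (.leaf [12,15,14,13])) (.free 2 [16,17,18,19,20,21,22]))), .t 9 (nat_lit 0x8c608dd08da08cd08ca1242090d090b) (.z (.node 2 4 (.edon 0 12 (.node 6 9 (.leaf [0,2,6,11]) (.leaf [5,7,10,9,8])) (.node 13 19 (.leaf [13,20,22,21]) (.free 2 [12,14,15,16,17,18,19]))) (.free 1 [1,3,4]))), .t 9 (nat_lit 0x12420c990bdd0bda0bb00bad0ba00b9e) (.z (.edon 0 7 (.free 2 [0,1,2,3,4,5,6]) (.edon 0 12 (.leaf [7,10,11,9,8]) (.node 13 19 (.leaf [13,20,22,21]) (.free 2 [12,14,15,16,17,18,19]))))), .t 6 (nat_lit 0x1242088a088802770275) (.z (.node 2 4 (.edon 0 12 (.node 2 8 (.leaf [0,2,9,10,11]) (.leaf [5,7,8,6])) (.node 13 19 (.leaf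 [13,20,22,21]) (.free 2 [12,14,15,16,17,18,19]))) (.free 1 [1,3,4]))), .t 6 (nat_lit 0x12420227022608cd08ca) (.z (.node 2 4 (.edon 0 12 (.edon 5 9 (.leaf [5,7,10,8]) (.leaf [0,2,6,9,11])) (.node 13 19 (.leaf [13,20,22,21]) (.free 2 [12,14,15,16,17,18,19]))) (.free 1 [1,3,4]))), .t 10 (nat_lit 0x88e088a088808cd08ca089f089d028e028d) (.z (.edon 0 13 (.node 2 10 (.leaf [0,2,9,11,12]) (.edon 0 5 (.leaf [1,3,4]) (.leaf [5,7,10,8,6]))) (.free 3 [13,14,15,16,17,18,19,20,21,22]))), .t 10 (nat_lit 0x88e088a088808cd08ca089f089d028e028d) (.z (.edon 0 13 (.node 2 8 (.leaf [0,2,9,11,12]) (.edon 0 5 (.leaf [1,3,4]) (.leaf [5,7,10,8,6]))) (.free 3 [13,14,15,16,17,18,19,20,21,22]))), .t 10 (nat_lit 0x10a3109e109b0c990c96116310ae12451243) (.z (.node 0 7 (.node 0 11 (.node 0 20 (.leaf [0,21,22]) (.edon 14 19 (.leaf [14,16,17,15]) (.leaf [12,18,19,20,13]))) (.leaf [8,10,11,9]))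 (.free 2 [1,2,3,4,5,6,7]))), .t 12 (nat_lit 0xe270fa90fa70e780e770e250e231242116910b610b5) (.z (.node 0 3 (.edon 0 10 (.free 2 [0,4,5,6,7,8,9]) (.node 12 19 (.leaf [12,13,20,22,21]) (.edon 0 17 (.leaf [10,16,15,14,11]) (.leaf [17,18,19])))) (.free 1 [1,2,3]))), .t 11 (nat_lit 0x3df042e042903eb03e604e804e6125a125712cb) (.z (.node 0 3 (.node 5 16 (.node 0 10 (.edon 0 14 (.leaf [0,11,12,13]) (.node 18 19 (.leaf [18,20,22,21]) (.leaf [14,17,19,15]))) (.leaf [4,5,10,9,6])) (.leaf [7,8,16])) (.free 1 [1,2,3]))), .t 15 (nat_lit 0x12450fe20fe00fc10fbf0fae0fac0b980a830a7e0a5e0a5b0a4d0a4c) (.z (.node 0 2 (.edon 0 6 (.leaf [0,3,4,5]) (.edon 0 11 (.leaf [6,7,8,10,9]) (.edon 14 19 (.leaf [11,16,17,15,14]) (.free 2 [12,13,18,19,20,21,22])))) (.free 1 [1,2]))), .t 14 (nat_lit 0x12ae12ab12a8090d05a705a2042e04290410040e000212ba12b4) (.z (.node 5 16 (.node 0 10 (.node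 0 14 (.node 0 20 (.leaf [0,21,22]) (.leaf [15,17,19,20,18])) (.leaf [11,13,14])) (.node 3 9 (.leaf [1,3,6,2]) (.leaf [4,5,8,10,9]))) (.free 1 [7,12,16])))] (by decide +kernel) (by decide +kernel)

end Pool.Agent.GCP.F7
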