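import Pool.Agent.GCP.F7Db

set_option autoImplicit false
set_option maxRecDepth 100000

/-! # Blocks F7B9 (generated) -/

namespace Pool.Agent.GCP.F7

open Pool.Agent.GCP DB

theorem b202 : B 6464 6496 := Blk.of_chk [.t 8 (nat_lit 0x8d208d108ce0944094208f108f0) (.z (.edon 0 16 (.node 0 12 (.leaf [0,13,14,15]) (.node 4 8 (.free 2 [1,2,3,4,6,9,10]) (.leaf [5,7,11,12,8]))) (.free 2 [16,17,18,19,20,21,22]))), .t 9 (nat_lit 0x12cb03e4032d032902fa02f00bb10bac) (.z (.edon 0 3 (.free 1 [0,1,2]) (.edon 0 12 (.edon 7 9 (.leaf [7,8,11,10]) (.leaf [3,4,5,9,6])) (.node 18 19 (.leaf [18,20,22,21]) (.free 2 [12,13,14,15,16,17,19]))))), .t 6 (nat_lit 0x12cb0210020f08e508e2) (.z (.node 2 4 (.edon 0 12 (.edon 5 9 (.leaf [5,7,11,10]) (.leaf [0,2,6,8,9])) (.node 18 19 (.leaf [18,20,22,21]) (.free 2 [12,13,14,15,16,17,19]))) (.free 1 [1,3,4]))), .t 10 (nat_lit 0x12ae12ab12a80c990c961010100d12ba12b4)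 (.z (.node 0 7 (.node 0 11 (.node 0 20 (.leaf [0,21,22]) (.node 15 16 (.leaf [15,17,19,20,18]) (.leaf [12,14,16,13]))) (.leaf [8,10,11,9])) (.free 2 [1,2,3,4,5,6,7]))), .t 7 (nat_lit 0x12cb12421240123f0b980b96) (.z (.edon 0 7 (.free 2 [0,1,2,3,4,5,6]) (.edon 0 11 (.leaf [7,10,9,8]) (.node 18 19 (.leaf [13,18,20,22,21]) (.free 2 [11,12,14,15,16,17,19]))))), .t 13 (nat_lit 0x8ca08e908e608d308d20939093704f004ee037d037b02fa) (.z (.edon 0 13 (.node 4 10 (.edon 0 3 (.leaf [0,1,2]) (.leaf [3,4,11,9,6])) (.leaf [5,7,12,10,8])) (.free 3 [13,14,15,16,17,18,19,20,21,22]))), .t 8 (nat_lit 0x129a11eb11e9017d003c00060002) (.z (.node 20 0 (.edon 0 13 (.edon 4 6 (.free 2 [4,5,7,8,9,10,12]) (.leaf [1,3,6,11,2])) (.edon 13 19 (.leaf [13,16,17,15]) (.leaf [14,19,20,18]))) (.free 1 [0,21,22]))), .t 6 (nat_lit 0x61073107112761275) (.z (.edon 21 19 (.node 0 11 (.node 15 17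 (.leaf [0,14,15,18,21]) (.leaf [12,16,17,13])) (.node 3 9 (.leaf [1,3,11,2]) (.free 2 [4,5,6,7,8,9,10]))) (.free 1 [19,20,22]))), .t 12 (nat_lit 0x1249017d003c0006000212a312a21281128012451244) (.z (.edon 21 19 (.node 0 12 (.node 13 18 (.leaf [0,13,21]) (.leaf [14,15,16,17,18])) (.node 6 9 (.leaf [1,3,6,11,2]) (.free 2 [4,5,7,8,9,10,12]))) (.free 1 [19,20,22]))), .t 12 (nat_lit 0x1249017b00390004000212a312a21281128012451244) (.z (.edon 21 19 (.node 0 12 (.node 13 18 (.leaf [0,13,21]) (.leaf [14,15,16,17,18])) (.edon 4 9 (.free 2 [4,5,7,8,10,11,12]) (.leaf [1,3,6,9,2]))) (.free 1 [19,20,22]))), .t 11 (nat_lit 0x3de03d912ab128a1285126d1268125a12581242) (.z (.node 0 3 (.node 5 16 (.node 0 8 (.edon 0 13 (.leaf [0,9,10,11]) (.node 13 19 (.leaf [13,20,22,21]) (.leaf [14,15,17,19,18]))) (.leaf [4,5,8,6])) (.leaf [7,12,16])) (.free 1 [1,2,3]))), .t 10 (nat_lit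 0x1009100708dd08da04cb04c9036d036b02f9) (.z (.edon 0 16 (.edon 0 3 (.leaf [0,1,2]) (.edon 0 12 (.node 4 9 (.leaf [3,4,11,8,6]) (.leaf [5,7,10,9])) (.leaf [12,15,14,13]))) (.free 2 [16,17,18,19,20,21,22]))), .t 12 (nat_lit 0x3d90409040403e403df04bc04ba0bf80bf611eb11e9) (.z (.node 0 3 (.node 0 12 (.edon 15 19 (.leaf [13,16,17,15]) (.free 2 [0,14,18,19,20,21,22])) (.edon 7 9 (.leaf [7,12,11,10]) (.leaf [4,5,9,8,6]))) (.free 1 [1,2,3]))), .t 11 (nat_lit 0x3de03d9125a120111fe11b411b11187118512cb) (.z (.node 0 3 (.node 5 16 (.node 0 8 (.edon 0 13 (.leaf [0,9,10,11]) (.node 18 19 (.leaf [18,20,22,21]) (.leaf [13,17,19,15,14]))) (.leaf [4,5,8,6])) (.leaf [7,12,16])) (.free 1 [1,2,3]))), .t 6 (nat_lit 0x20c990c9612761275) (.z (.edon 19 4 (.node 0 6 (.node 0 11 (.edon 19 21 (.leaf [19,20,22]) (.leaf [0,14,15,18,21])) (.leaf [8,10,11,9])) (.leaf [1,3,6,2])) (.free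 2 [4,5,7,12,13,16,17]))), .t 1 (nat_lit 0) (.cn 2 3), .t 10 (nat_lit 0xe9a0ed50ed00ea70ea20f420f400b980b96) (.z (.edon 0 16 (.edon 0 7 (.free 2 [0,1,2,3,4,5,6]) (.edon 0 11 (.leaf [7,10,9,8]) (.leaf [11,12,15,14,13]))) (.free 2 [16,17,18,19,20,21,22]))), .t 13 (nat_lit 0xe9a0ed50ed00ea70ea20f420f4003e4032d032902fa02f0) (.z (.edon 0 16 (.edon 0 3 (.leaf [0,1,2]) (.edon 0 11 (.edon 7 9 (.leaf [7,8,10]) (.leaf [3,4,5,9,6])) (.leaf [11,12,15,14,13]))) (.free 2 [16,17,18,19,20,21,22]))), .t 15 (nat_lit 0x3df03de03d904bb04b8040804060df80c160c130c050c030bfb0bfa) (.z (.edon 0 16 (.node 0 13 (.leaf [0,14,15]) (.edon 7 8 (.leaf [7,12,13,11,10]) (.edon 0 4 (.leaf [1,2,3]) (.leaf [4,5,8,9,6])))) (.free 2 [16,17,18,19,20,21,22]))), .t 10 (nat_lit 0x1009100708cd08ca04f004ee037d037b02fa) (.z (.edon 0 16 (.edon 0 3 (.leaf [0,1,2]) (.edon 0 12 (.node 4 8 (.leaf [3,4,11,9,6])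 (.leaf [5,7,10,8])) (.leaf [12,15,14,13]))) (.free 2 [16,17,18,19,20,21,22]))), .t 10 (nat_lit 0x1009100708e508e204bc04ba0361035f02f9) (.z (.edon 0 16 (.edon 0 3 (.leaf [0,1,2]) (.edon 0 12 (.node 4 10 (.leaf [3,4,9,8,6]) (.leaf [5,7,11,10])) (.leaf [12,15,14,13]))) (.free 2 [16,17,18,19,20,21,22]))), .t 9 (nat_lit 0x404042e04290411040c05a705a50002) (.z (.node 5 16 (.node 0 10 (.edon 0 15 (.leaf [0,11,12,14]) (.free 2 [15,17,18,19,20,21,22])) (.node 3 9 (.leaf [1,3,6,2]) (.leaf [4,5,10,9,8]))) (.free 1 [7,13,16]))), .t 12 (nat_lit 0x124908cd08ca022e022d12a312a21281128012451244) (.z (.edon 21 19 (.edon 11 21 (.edon 0 14 (.leaf [11,12,13]) (.leaf [14,15,16,17,18])) (.node 4 8 (.node 2 4 (.leaf [0,2,6,9,21]) (.leaf [1,3,4])) (.leaf [5,7,10,8]))) (.free 1 [19,20,22]))), .t 10 (nat_lit 0xc9e0c990c960cf60cf10cbb0cb912451244) (.z (.node 0 7 (.node 0 12 (.edon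 14 19 (.leaf [14,15,16,17]) (.free 2 [0,13,18,19,20,21,22])) (.leaf [8,10,12,11,9])) (.free 2 [1,2,3,4,5,6,7]))), .t 10 (nat_lit 0x1009100703de0327032402f902ef0bdd0bda) (.z (.edon 0 16 (.edon 0 3 (.leaf [0,1,2]) (.edon 0 12 (.edon 7 8 (.leaf [7,10,11,9]) (.leaf [3,4,5,8,6])) (.leaf [12,15,14,13]))) (.free 2 [16,17,18,19,20,21,22]))), .t 9 (nat_lit 0x124203de0327032402f902ef0bde0bdc) (.z (.edon 0 3 (.free 1 [0,1,2]) (.edon 0 12 (.edon 7 8 (.leaf [7,11,10,9]) (.leaf [3,4,5,8,6])) (.node 13 19 (.leaf [13,20,22,21]) (.free 2 [12,14,15,16,17,18,19]))))), .t 10 (nat_lit 0x10be10bc10b70c990c961128112610e510e4) (.z (.node 0 7 (.node 0 11 (.edon 15 19 (.leaf [12,14,16,17,15]) (.free 2 [0,13,18,19,20,21,22])) (.leaf [8,10,11,9])) (.free 2 [1,2,3,4,5,6,7]))), .t 9 (nat_lit 0x3de03d9125a125712cb12421240123f) (.z (.node 0 3 (.node 5 16 (.node 0 8 (.edon 0 13 (.leaf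 [0,9,10,11]) (.node 18 19 (.leaf [13,18,20,22,21]) (.leaf [14,17,19,15]))) (.leaf [4,5,8,6])) (.leaf [7,12,16])) (.free 1 [1,2,3]))), .t 10 (nat_lit 0x12451128112610e510e310c310c10b980b96) (.z (.edon 0 7 (.free 2 [0,1,2,3,4,5,6]) (.edon 0 11 (.leaf [7,10,9,8]) (.edon 14 19 (.leaf [12,16,17,15,14]) (.free 2 [11,13,18,19,20,21,22]))))), .t 9 (nat_lit 0x124203de0327032402f902ef0bdd0bda) (.z (.edon 0 3 (.free 1 [0,1,2]) (.edon 0 12 (.edon 7 8 (.leaf [7,10,11,9]) (.leaf [3,4,5,8,6])) (.node 13 19 (.leaf [13,20,22,21]) (.free 2 [12,14,15,16,17,18,19]))))), .t 9 (nat_lit 0x12cb08dd08da04cb04c9036d036b02f9) (.z (.edon 0 3 (.free 1 [0,1,2]) (.edon 0 12 (.node 4 9 (.leaf [3,4,11,8,6]) (.leaf [5,7,10,9])) (.node 18 19 (.leaf [18,20,22,21]) (.free 2 [12,13,14,15,16,17,19]))))), .t 9 (nat_lit 0x12cb08e508e204bc04ba0361035f02f9) (.z (.edon 0 3 (.free 1 [0,1,2]) (.edon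 0 12 (.node 4 10 (.leaf [3,4,9,8,6]) (.leaf [5,7,11,10])) (.node 18 19 (.leaf [18,20,22,21]) (.free 2 [12,13,14,15,16,17,19])))))] (by decide +kernel) (by decide +kernel)
theorem b203 : B 6496 6528 := Blk.of_chk [.t 1 (nat_lit 0) (.cn 2 3), .t 1 (nat_lit 0) (.cn 3 2), .t 11 (nat_lit 0x11821177117203de03d912cb120111fe11b411b2) (.z (.node 0 3 (.node 5 16 (.node 0 8 (.edon 0 13 (.leaf [0,9,10,11]) (.edon 15 20 (.leaf [13,14,17,19,15]) (.leaf [18,20,22,21]))) (.leaf [4,5,8,6])) (.leaf [7,12,16])) (.free 1 [1,2,3]))), .t 10 (nat_lit 0x12ae12ab12a80c990c961011100f12ba12b4) (.z (.node 0 7 (.node 0 11 (.node 0 20 (.leaf [0,21,22]) (.node 15 16 (.leaf [15,17,19,20,18]) (.leaf [12,16,14,13]))) (.leaf [8,10,11,9])) (.free 2 [1,2,3,4,5,6,7]))), .t 7 (nat_lit 0xc990c96121c121b10e510e3) (.z (.node 0 7 (.node 0 11 (.edon 14 19 (.leaf [12,16,17,14]) (.edon 19 21 (.leaf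 [19,20,22]) (.leaf [0,13,15,18,21]))) (.leaf [8,10,11,9])) (.free 2 [1,2,3,4,5,6,7]))), .t 7 (nat_lit 0xc990c9611dd11db11281126) (.z (.node 0 7 (.node 0 11 (.edon 15 19 (.leaf [12,16,17,15]) (.edon 19 21 (.leaf [19,20,22]) (.leaf [0,13,14,18,21]))) (.leaf [8,10,11,9])) (.free 2 [1,2,3,4,5,6,7]))), .t 6 (nat_lit 0x20c990c9611dd11db) (.z (.edon 19 4 (.node 0 6 (.node 0 11 (.edon 19 21 (.leaf [19,20,22]) (.leaf [0,13,14,18,21])) (.leaf [8,10,11,9])) (.leaf [1,3,6,2])) (.free 2 [4,5,7,12,15,16,17]))), .t 9 (nat_lit 0x12cb08cd08ca04f004ee037d037b02fa) (.z (.edon 0 3 (.free 1 [0,1,2]) (.edon 0 12 (.node 4 8 (.leaf [3,4,11,9,6]) (.leaf [5,7,10,8])) (.node 18 19 (.leaf [18,20,22,21]) (.free 2 [12,13,14,15,16,17,19]))))), .t 8 (nat_lit 0xbf809a0099b08f208ef08e808e7) (.z (.edon 0 16 (.node 0 12 (.leaf [0,13,14,15]) (.node 4 11 (.free 2 [1,2,3,4,6,8,9]) (.leaf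 [5,7,10,12,11]))) (.free 2 [16,17,18,19,20,21,22]))), .t 10 (nat_lit 0xc990c9612451128112610e510e310c310c1) (.z (.node 0 7 (.node 0 11 (.edon 12 19 (.leaf [12,16,17,15,14]) (.free 2 [0,13,18,19,20,21,22])) (.leaf [8,10,11,9])) (.free 2 [1,2,3,4,5,6,7]))), .t 9 (nat_lit 0x404042e04290411040c000205a705a5) (.z (.node 16 0 (.edon 7 10 (.free 2 [7,11,12,13,14,15,16]) (.edon 4 6 (.leaf [4,5,10,9,8]) (.leaf [1,3,6,2]))) (.free 2 [0,17,18,19,20,21,22]))), .t 7 (nat_lit 0x3de03d90183004300050004) (.z (.node 5 16 (.node 0 10 (.edon 0 15 (.leaf [0,11,13,14]) (.free 2 [15,17,18,19,20,21,22])) (.node 3 6 (.leaf [1,3,9,10,2]) (.leaf [4,5,8,6]))) (.free 1 [7,12,16]))), .t 9 (nat_lit 0x2150a820a80024e024c0210020f12cb) (.z (.node 4 19 (.node 0 10 (.edon 0 18 (.leaf [0,11,14,15]) (.leaf [18,20,22,21])) (.node 2 4 (.leaf [2,6,8,9,10]) (.leaf [1,3,4]))) (.free 2 [5,7,12,13,16,17,19]))),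 .t 9 (nat_lit 0x2150a820a80024e024c0210020f12cb) (.z (.node 4 19 (.node 0 10 (.edon 0 18 (.leaf [0,11,13,14]) (.leaf [18,20,22,21])) (.node 2 4 (.leaf [2,6,8,9,10]) (.leaf [1,3,4]))) (.free 2 [5,7,12,15,16,17,19]))), .t 8 (nat_lit 0x11eb1128112610731071104d104b) (.z (.node 0 7 (.edon 0 11 (.leaf [0,8,9,10]) (.edon 13 19 (.leaf [12,16,17,15,13]) (.free 2 [11,14,18,19,20,21,22]))) (.free 2 [1,2,3,4,5,6,7]))), .t 9 (nat_lit 0x8ca08c908c612cb090c090908dc08db) (.z (.node 0 3 (.edon 0 12 (.node 4 8 (.leaf [0,4,6,11]) (.leaf [5,7,9,10,8])) (.node 18 19 (.leaf [18,20,22,21]) (.free 2 [12,13,14,15,16,17,19]))) (.free 1 [1,2,3]))), .t 14 (nat_lit 0x125a120111fe11b411b11187118512cb03de0327032402f902ef) (.z (.edon 0 3 (.free 1 [0,1,2]) (.node 5 16 (.edon 0 9 (.leaf [3,4,5,8,6]) (.edon 0 13 (.leaf [9,10,11]) (.node 18 19 (.leaf [18,20,22,21]) (.leaf [13,17,19,15,14]))))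 (.leaf [7,12,16])))), .t 10 (nat_lit 0x12151212120d0c9a0c95123b121f10e510e3) (.z (.node 0 7 (.node 0 11 (.node 0 20 (.leaf [0,21,22]) (.edon 14 19 (.leaf [12,16,17,14]) (.leaf [13,15,19,20,18]))) (.leaf [8,9,11,10])) (.free 2 [1,2,3,4,5,6,7]))), .t 11 (nat_lit 0x118211771172120111fe11b411b212cb0c9a0c95) (.z (.node 0 3 (.node 5 16 (.edon 0 8 (.leaf [0,4,5,6]) (.edon 0 13 (.leaf [8,9,11,10]) (.node 18 19 (.leaf [18,20,22,21]) (.leaf [13,14,17,19,15])))) (.leaf [7,12,16])) (.free 1 [1,2,3]))), .t 14 (nat_lit 0x40c0409040412ae12ab12a8000205a605a3042d042b12ba12b4) (.z (.node 5 16 (.node 0 10 (.node 0 14 (.node 0 20 (.leaf [0,21,22]) (.leaf [15,17,19,20,18])) (.leaf [11,13,14])) (.edon 4 6 (.leaf [4,5,9,10,8]) (.leaf [1,3,6,2]))) (.free 1 [7,12,16]))), .t 15 (nat_lit 0x3df03de03d912571253125104bb04b804080406128a1285126d126b) (.z (.node 0 3 (.node 5 16 (.node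 0 9 (.edon 0 14 (.leaf [0,10,11,12]) (.edon 0 20 (.leaf [14,17,19,18,15]) (.leaf [20,21,22]))) (.leaf [4,5,8,9,6])) (.leaf [7,13,16])) (.free 1 [1,2,3]))), .t 10 (nat_lit 0x3df03de03d904bb04b8040804060dfe0dfc) (.z (.node 0 3 (.node 5 16 (.node 0 9 (.edon 0 15 (.leaf [0,10,11,12,14]) (.free 2 [15,17,18,19,20,21,22])) (.leaf [4,5,8,9,6])) (.leaf [7,13,16])) (.free 1 [1,2,3]))), .t 10 (nat_lit 0x12ae12ab12a80c9a0c951011100c12ba12b4) (.z (.node 0 7 (.node 0 11 (.node 0 20 (.leaf [0,21,22]) (.node 15 16 (.leaf [15,17,19,20,18]) (.leaf [12,13,16,14]))) (.leaf [8,9,11,10])) (.free 2 [1,2,3,4,5,6,7]))), .t 11 (nat_lit 0x10ce10c310be1137113410f810f612cb0c9a0c95) (.z (.node 0 3 (.node 5 16 (.edon 0 8 (.leaf [0,4,5,6]) (.edon 0 12 (.leaf [8,9,11,10]) (.node 18 19 (.leaf [18,20,22,21]) (.leaf [12,14,17,19,15])))) (.leaf [7,13,16])) (.free 1 [1,2,3]))), .t 10 (nat_lit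 0x3d90409040403e403df04bc04ba0dfe0dfc) (.z (.node 0 3 (.node 5 16 (.node 0 9 (.edon 0 15 (.leaf [0,10,11,12,14]) (.free 2 [15,17,18,19,20,21,22])) (.leaf [4,5,9,8,6])) (.leaf [7,13,16])) (.free 1 [1,2,3]))), .t 15 (nat_lit 0x12ab128a1285126d1268125a12580d890d8703de0327032402f902ef) (.z (.edon 0 3 (.free 1 [0,1,2]) (.node 5 16 (.edon 0 9 (.leaf [3,4,5,8,6]) (.edon 0 14 (.leaf [9,12,11,10]) (.edon 0 20 (.leaf [14,15,17,19,18]) (.leaf [20,21,22])))) (.leaf [7,13,16])))), .t 6 (nat_lit 0x20c9a0c95111c111b) (.z (.edon 19 4 (.node 0 6 (.node 0 11 (.edon 19 21 (.leaf [19,20,22]) (.leaf [0,12,14,18,21])) (.leaf [8,9,11,10])) (.leaf [1,3,6,2])) (.free 2 [4,5,7,13,15,16,17]))), .t 6 (nat_lit 0x2040904040dfe0dfc) (.z (.node 5 16 (.node 0 9 (.edon 0 15 (.leaf [0,10,11,12,14]) (.free 2 [15,17,18,19,20,21,22])) (.edon 4 6 (.leaf [4,5,9,8]) (.leaf [1,3,6,2]))) (.free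 1 [7,13,16]))), .t 11 (nat_lit 0x10bf10f810f510d210cf1137113512cb0c9a0c95) (.z (.edon 0 7 (.free 2 [0,1,2,3,4,5,6]) (.node 8 16 (.edon 0 12 (.leaf [8,9,11,10]) (.node 18 19 (.leaf [18,20,22,21]) (.leaf [12,15,17,19,14]))) (.leaf [7,13,16])))), .t 10 (nat_lit 0x1048104510400c9a0c951128112610731072) (.z (.node 0 7 (.node 0 11 (.edon 12 19 (.leaf [12,13,16,17,15]) (.free 2 [0,14,18,19,20,21,22])) (.leaf [8,9,11,10])) (.free 2 [1,2,3,4,5,6,7]))), .t 7 (nat_lit 0xc9a0c95111c111b11eb11e9) (.z (.node 0 7 (.node 0 11 (.edon 15 19 (.leaf [13,16,17,15]) (.edon 19 21 (.leaf [19,20,22]) (.leaf [0,12,14,18,21]))) (.leaf [8,9,11,10])) (.free 2 [1,2,3,4,5,6,7]))), .t 10 (nat_lit 0x1048104510400c9a0c951128112610731072) (.z (.node 0 7 (.node 0 11 (.edon 15 19 (.leaf [12,13,16,17,15]) (.free 2 [0,14,18,19,20,21,22])) (.leaf [8,9,11,10])) (.free 2 [1,2,3,4,5,6,7])))] (by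 decide +kernel) (by decide +kernel)
theorem b204 : B 6528 6560 := Blk.of_chk [.t 7 (nat_lit 0x1009100708df08de02150214) (.z (.edon 0 16 (.edon 0 12 (.node 4 9 (.node 2 4 (.leaf [0,2,6,8,10]) (.leaf [1,3,4])) (.leaf [5,7,11,9])) (.leaf [12,15,14,13])) (.free 2 [16,17,18,19,20,21,22]))), .t 1 (nat_lit 0) (.cn 2 3), .t 7 (nat_lit 0x1008100508df08de02150214) (.z (.edon 0 16 (.edon 0 12 (.node 4 9 (.node 2 4 (.leaf [0,2,6,8,10]) (.leaf [1,3,4])) (.leaf [5,7,11,9])) (.leaf [12,14,15,13])) (.free 2 [16,17,18,19,20,21,22]))), .t 15 (nat_lit 0x3d90409040403e403df12ae12ab12a804bc04ba0e3c0e3a12ba12b4) (.z (.node 0 3 (.node 5 16 (.node 0 9 (.node 0 14 (.node 0 20 (.leaf [0,21,22]) (.leaf [15,17,19,20,18])) (.leaf [10,14,13,12])) (.leaf [4,5,9,8,6])) (.leaf [7,11,16])) (.free 1 [1,2,3]))), .t 7 (nat_lit 0xc9a0c9510e510e3121c121b) (.z (.node 0 7 (.node 0 11 (.edon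 19 21 (.leaf [19,20,22]) (.node 13 17 (.leaf [0,13,15,18,21]) (.leaf [12,16,17,14]))) (.leaf [8,9,11,10])) (.free 2 [1,2,3,4,5,6,7]))), .t 10 (nat_lit 0x101d10ab10a910371034111c111b0fe20fe0) (.z (.node 0 7 (.edon 0 11 (.leaf [0,8,9,10]) (.edon 15 19 (.leaf [11,16,17,15]) (.edon 19 21 (.leaf [19,20,22]) (.leaf [12,14,18,21,13])))) (.free 2 [1,2,3,4,5,6,7]))), .t 10 (nat_lit 0xc9a0c9512451128112610e510e310c310c1) (.z (.node 0 7 (.node 0 11 (.edon 14 19 (.leaf [12,16,17,15,14]) (.free 2 [0,13,18,19,20,21,22])) (.leaf [8,9,11,10])) (.free 2 [1,2,3,4,5,6,7]))), .t 10 (nat_lit 0x1231122e122b0c9a0c95123b123410bc10ba) (.z (.node 0 7 (.node 0 11 (.node 0 20 (.leaf [0,21,22]) (.edon 14 17 (.leaf [12,16,15,14]) (.leaf [13,17,19,20,18]))) (.leaf [8,9,11,10])) (.free 2 [1,2,3,4,5,6,7]))), .t 10 (nat_lit 0xefd0efb128a122e122b11cf11ca11b411b2) (.z (.node 0 7 (.edon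 0 11 (.leaf [0,8,9,10]) (.node 14 16 (.edon 0 20 (.leaf [13,14,17,19,18]) (.leaf [20,21,22])) (.leaf [11,16,15,12]))) (.free 2 [1,2,3,4,5,6,7]))), .t 11 (nat_lit 0x3d90409040403e403df04bc04ba125a125712cb) (.z (.node 0 3 (.node 5 16 (.node 0 9 (.edon 0 14 (.leaf [0,10,12,13]) (.node 18 19 (.leaf [18,20,22,21]) (.leaf [14,17,19,15]))) (.leaf [4,5,9,8,6])) (.leaf [7,11,16])) (.free 1 [1,2,3]))), .t 9 (nat_lit 0x1004104510401011100c10bc10ba0005) (.z (.node 16 0 (.edon 0 12 (.edon 4 10 (.free 2 [4,5,6,7,8,9,11]) (.leaf [1,3,10,2])) (.leaf [12,13,16,15,14])) (.free 2 [0,17,18,19,20,21,22]))), .t 7 (nat_lit 0x17c003a0005000204340432) (.z (.node 5 16 (.node 0 11 (.edon 0 15 (.leaf [0,12,13,14]) (.free 2 [15,17,18,19,20,21,22])) (.edon 4 6 (.leaf [4,5,9,11]) (.leaf [1,3,6,10,2]))) (.free 1 [7,8,16]))), .t 10 (nat_lit 0x88808980895088d088b1009100408c808c7) (.z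 (.edon 0 16 (.edon 0 12 (.node 4 6 (.free 2 [0,1,2,3,4,10,11]) (.leaf [5,7,8,9,6])) (.leaf [12,13,15,14])) (.free 2 [16,17,18,19,20,21,22]))), .t 8 (nat_lit 0x3de03d90dfe0dfc120111fe12cb) (.z (.node 0 3 (.node 5 16 (.node 0 8 (.edon 13 14 (.node 18 19 (.leaf [18,20,22,21]) (.leaf [13,17,19,15])) (.leaf [0,10,11,12,14])) (.leaf [4,5,8,6])) (.leaf [7,9,16])) (.free 1 [1,2,3]))), .t 7 (nat_lit 0x17c003a0005000204170413) (.z (.node 5 16 (.node 0 11 (.edon 0 15 (.leaf [0,12,13,14]) (.free 2 [15,17,18,19,20,21,22])) (.edon 4 6 (.leaf [4,5,11,8]) (.leaf [1,3,6,10,2]))) (.free 1 [7,9,16]))), .t 14 (nat_lit 0x117311b411b111861183120111ff12cb03de0327032402f902ef) (.z (.edon 0 3 (.free 1 [0,1,2]) (.node 5 16 (.edon 0 10 (.leaf [3,4,5,8,6]) (.edon 0 13 (.leaf [10,11,12]) (.node 18 19 (.leaf [18,20,22,21]) (.leaf [13,15,17,19,14])))) (.leaf [7,9,16])))), .t 6 (nat_lit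 0x12cb1009100402150214) (.z (.node 4 19 (.edon 0 12 (.node 2 4 (.leaf [0,2,6,8,10]) (.leaf [1,3,4])) (.edon 0 18 (.leaf [12,13,15,14]) (.leaf [18,20,22,21]))) (.free 2 [5,7,9,11,16,17,19]))), .t 12 (nat_lit 0x3de03d912ab128a1285126d1268125a12580df80df6) (.z (.node 0 3 (.node 5 16 (.node 0 8 (.edon 0 14 (.leaf [0,10,11,12,13]) (.edon 0 20 (.leaf [14,15,17,19,18]) (.leaf [20,21,22]))) (.leaf [4,5,8,6])) (.leaf [7,9,16])) (.free 1 [1,2,3]))), .t 15 (nat_lit 0x3d90411040c03eb03e604c404c212ab128a1285126d1268125a1258) (.z (.node 0 3 (.node 5 16 (.node 0 10 (.edon 0 14 (.leaf [0,11,12,13]) (.edon 0 20 (.leaf [14,15,17,19,18]) (.leaf [20,21,22]))) (.leaf [4,5,10,8,6])) (.leaf [7,9,16])) (.free 1 [1,2,3]))), .t 9 (nat_lit 0x88b08ad08aa088f088e12cb08dc08db) (.z (.node 2 4 (.edon 0 12 (.node 2 10 (.leaf [0,2,8,11]) (.leaf [5,7,9,10,6])) (.node 18 19 (.leaf [18,20,22,21])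 (.free 2 [12,13,14,15,16,17,19]))) (.free 1 [1,3,4]))), .t 10 (nat_lit 0x123b12451128112610e510e310c310c10002) (.z (.node 20 0 (.edon 0 12 (.node 3 8 (.leaf [1,3,6,2]) (.free 2 [4,5,7,8,9,10,11])) (.edon 14 19 (.leaf [12,16,17,15,14]) (.leaf [13,19,20,18]))) (.free 1 [0,21,22]))), .t 9 (nat_lit 0x12cb08dc08db04cb04c9036d036b02f9) (.z (.edon 0 3 (.free 1 [0,1,2]) (.edon 0 12 (.node 4 10 (.leaf [3,4,11,8,6]) (.leaf [5,7,9,10])) (.node 18 19 (.leaf [18,20,22,21]) (.free 2 [12,13,14,15,16,17,19]))))), .t 5 (nat_lit 0x21028102512cb) (.z (.edon 19 4 (.node 0 6 (.edon 0 12 (.leaf [0,8,10,11]) (.node 18 19 (.leaf [18,20,22,21]) (.leaf [12,14,19,13]))) (.leaf [1,3,6,2])) (.free 2 [4,5,7,9,15,16,17]))), .t 1 (nat_lit 0) (.cn 2 3), .t 8 (nat_lit 0x12450fe20fe00fc10fbf0fae0fac) (.z (.node 0 7 (.edon 0 11 (.leaf [0,8,9,10]) (.edon 14 19 (.leaf [11,16,17,15,14]) (.free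 2 [12,13,18,19,20,21,22]))) (.free 2 [1,2,3,4,5,6,7]))), .t 10 (nat_lit 0xc9a0c95123b116310ae10a610a412451243) (.z (.node 0 7 (.node 0 11 (.node 0 20 (.leaf [0,21,22]) (.edon 14 19 (.leaf [14,16,17,15]) (.leaf [12,19,20,18,13]))) (.leaf [8,9,11,10])) (.free 2 [1,2,3,4,5,6,7]))), .t 9 (nat_lit 0x12cb08c908c6050b05090386038502fc) (.z (.edon 0 3 (.free 1 [0,1,2]) (.edon 0 12 (.node 4 8 (.leaf [3,4,11,10,6]) (.leaf [5,7,9,8])) (.node 18 19 (.leaf [18,20,22,21]) (.free 2 [12,13,14,15,16,17,19]))))), .t 6 (nat_lit 0x12cb0e9f0e9d02150214) (.z (.node 4 19 (.edon 0 11 (.node 2 4 (.leaf [0,2,6,8,10]) (.leaf [1,3,4])) (.edon 0 18 (.leaf [11,14,13,12]) (.leaf [18,20,22,21]))) (.free 2 [5,7,9,15,16,17,19]))), .t 11 (nat_lit 0x118603de03d9125a1258120111ff1176117412cb) (.z (.node 0 3 (.node 5 16 (.node 0 8 (.edon 0 13 (.leaf [0,10,11,12]) (.node 18 19 (.leaf [18,20,22,21])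 (.leaf [13,14,15,17,19]))) (.leaf [4,5,8,6])) (.leaf [7,9,16])) (.free 1 [1,2,3]))), .t 11 (nat_lit 0x11821177117203de03d9120111fe11b411b212cb) (.z (.node 0 3 (.node 5 16 (.node 0 8 (.edon 0 13 (.leaf [0,10,11,12]) (.node 18 19 (.leaf [18,20,22,21]) (.leaf [13,14,17,19,15]))) (.leaf [4,5,8,6])) (.leaf [7,9,16])) (.free 1 [1,2,3]))), .t 12 (nat_lit 0x12ae12ab12a8017c003a000500020e9f0e9d12ba12b4) (.z (.node 5 16 (.node 0 10 (.node 0 14 (.node 0 20 (.leaf [0,21,22]) (.leaf [15,17,19,20,18])) (.leaf [11,14,13,12])) (.node 3 8 (.leaf [1,3,6,10,2]) (.leaf [4,5,8]))) (.free 1 [7,9,16]))), .t 6 (nat_lit 0x12cb1008100502150214) (.z (.node 4 19 (.edon 0 12 (.node 2 4 (.leaf [0,2,6,8,10]) (.leaf [1,3,4])) (.edon 0 18 (.leaf [12,14,15,13]) (.leaf [18,20,22,21]))) (.free 2 [5,7,9,11,16,17,19])))] (by decide +kernel) (by decide +kernel)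
theorem b205 : B 6560 6592 := Blk.of_chk [.t 1 (nat_lit 0) (.cn 2 3), .t 8 (nat_lit 0x3de03d9125a125712cb0df80df6) (.z (.node 0 3 (.node 5 16 (.node 0 8 (.edon 0 14 (.leaf [0,10,11,12,13]) (.node 18 19 (.leaf [18,20,22,21]) (.leaf [14,17,19,15]))) (.leaf [4,5,8,6])) (.leaf [7,9,16])) (.free 1 [1,2,3]))), .t 10 (nat_lit 0x12ba129a1279127312720d890d870d600d5f) (.z (.node 0 7 (.node 0 20 (.leaf [0,21,22]) (.edon 8 19 (.leaf [8,13,16,17]) (.edon 0 14 (.leaf [9,12,11,10]) (.leaf [14,19,20,18,15])))) (.free 2 [1,2,3,4,5,6,7]))), .t 9 (nat_lit 0x1004104510401011100c10bc10ba0001) (.z (.node 16 0 (.edon 0 12 (.edon 4 5 (.free 2 [4,6,7,8,9,10,11]) (.leaf [1,3,5,2])) (.leaf [12,13,16,15,14])) (.free 2 [0,17,18,19,20,21,22]))), .t 14 (nat_lit 0x125a1137113410f810f510d310d112cb03dd0326032502f902ef) (.z (.edon 0 3 (.free 1 [0,1,2]) (.node 6 16 (.edon 0 9 (.leaf [3,4,6,8,5])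 (.edon 0 12 (.leaf [9,10,11]) (.node 18 19 (.leaf [18,20,22,21]) (.leaf [12,17,19,15,14])))) (.leaf [7,13,16])))), .t 6 (nat_lit 0x111eb11e9111c111b) (.z (.edon 21 19 (.node 0 11 (.node 14 15 (.leaf [0,12,14,18,21]) (.leaf [13,16,17,15])) (.edon 4 5 (.free 2 [4,6,7,8,9,10,11]) (.leaf [1,3,5,2]))) (.free 1 [19,20,22]))), .t 1 (nat_lit 0) (.cp 2 3), .t 9 (nat_lit 0x12ae12ab12a81011100c12ba12b40001) (.z (.node 20 0 (.edon 0 12 (.edon 4 5 (.free 2 [4,6,7,8,9,10,11]) (.leaf [1,3,5,2])) (.node 15 16 (.leaf [15,17,19,20,18]) (.leaf [12,13,16,14]))) (.free 1 [0,21,22]))), .t 9 (nat_lit 0x12ae12ab12a81011100c12ba12b40005) (.z (.node 20 0 (.edon 0 12 (.edon 4 10 (.free 2 [4,5,6,7,8,9,11]) (.leaf [1,3,10,2])) (.node 15 16 (.leaf [15,17,19,20,18]) (.leaf [12,13,16,14]))) (.free 1 [0,21,22]))), .t 5 (nat_lit 0x12cb100310021001) (.z (.node 0 7 (.edon 0 11 (.leaf [0,8,9,10])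 (.node 18 19 (.leaf [11,18,20,22,21]) (.free 2 [12,13,14,15,16,17,19]))) (.free 2 [1,2,3,4,5,6,7]))), .t 12 (nat_lit 0x178003600060001124511eb11e9119d119b11771175) (.z (.edon 0 20 (.node 0 12 (.node 0 17 (.leaf [0,18,19]) (.leaf [13,16,17,15,14])) (.edon 4 5 (.free 2 [4,6,7,8,9,10,12]) (.leaf [1,3,5,11,2]))) (.free 1 [20,21,22]))), .t 1 (nat_lit 0) (.cn 2 3), .t 9 (nat_lit 0x12ba129a127912731272107310710001) (.z (.node 20 0 (.edon 0 12 (.edon 4 5 (.free 2 [4,6,7,8,9,10,11]) (.leaf [1,3,5,2])) (.edon 13 19 (.leaf [12,16,17,13]) (.leaf [14,19,20,18,15]))) (.free 1 [0,21,22]))), .t 1 (nat_lit 0) (.cn 2 3), .t 15 (nat_lit 0x125712531251128a1285126d126b0d890d8703dd0326032502f902ef) (.z (.edon 0 3 (.free 1 [0,1,2]) (.node 6 16 (.edon 0 9 (.leaf [3,4,6,8,5]) (.edon 0 20 (.edon 0 14 (.leaf [9,12,11,10]) (.leaf [14,17,19,18,15])) (.leaf [20,21,22]))) (.leaf [7,13,16])))),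 .t 11 (nat_lit 0x125712531251000104bc04b7128a1285126d126b) (.z (.edon 0 20 (.node 6 16 (.node 0 9 (.edon 0 14 (.leaf [0,10,11,12]) (.leaf [14,17,19,18,15])) (.edon 4 5 (.leaf [4,6,9,8]) (.leaf [1,3,5,2]))) (.leaf [7,13,16])) (.free 1 [20,21,22]))), .t 8 (nat_lit 0xf4a0f480f440fc10fbf0f800f7f) (.z (.node 0 7 (.edon 0 11 (.leaf [0,8,9,10]) (.edon 14 19 (.leaf [11,13,16,17,14]) (.free 2 [12,15,18,19,20,21,22]))) (.free 2 [1,2,3,4,5,6,7]))), .t 8 (nat_lit 0xf4a0f480f440fc10fbf0f800f7f) (.z (.node 0 7 (.edon 0 11 (.leaf [0,8,9,10]) (.edon 11 19 (.leaf [11,13,16,17,14]) (.free 2 [12,15,18,19,20,21,22]))) (.free 2 [1,2,3,4,5,6,7]))), .t 14 (nat_lit 0x10ce10c310be1137113410f810f612cb03dd0326032502f902ef) (.z (.edon 0 3 (.free 1 [0,1,2]) (.node 6 16 (.edon 0 9 (.leaf [3,4,6,8,5]) (.edon 0 12 (.leaf [9,10,11]) (.node 18 19 (.leaf [18,20,22,21]) (.leaf [12,14,17,19,15]))))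 (.leaf [7,13,16])))), .t 12 (nat_lit 0x18a004b00070006124511eb11e9119d119b11771175) (.z (.edon 0 20 (.node 0 12 (.node 0 17 (.leaf [0,18,19]) (.leaf [13,16,17,15,14])) (.edon 4 11 (.free 2 [4,5,6,7,8,9,10]) (.leaf [1,3,11,12,2]))) (.free 1 [20,21,22]))), .t 9 (nat_lit 0x125a120111fe11b411b11187118512cb) (.z (.node 0 7 (.edon 0 11 (.leaf [0,8,9,10]) (.node 13 16 (.node 18 19 (.leaf [18,20,22,21]) (.leaf [13,17,19,15,14])) (.leaf [11,12,16]))) (.free 2 [1,2,3,4,5,6,7]))), .t 14 (nat_lit 0x125a120111fe11b411b11187118512cb03dd0326032502f902ef) (.z (.edon 0 3 (.free 1 [0,1,2]) (.node 6 16 (.edon 0 10 (.leaf [3,4,6,8,5]) (.edon 0 13 (.leaf [10,11,12]) (.node 18 19 (.leaf [18,20,22,21]) (.leaf [13,17,19,15,14])))) (.leaf [7,9,16])))), .t 9 (nat_lit 0x1004104510401011100c10bc10ba0006) (.z (.node 16 0 (.edon 0 12 (.edon 4 11 (.free 2 [4,5,6,7,8,9,10]) (.leaf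 [1,3,11,2])) (.leaf [12,13,16,15,14])) (.free 2 [0,17,18,19,20,21,22]))), .t 6 (nat_lit 0x61073107112761275) (.z (.edon 21 19 (.node 0 11 (.node 14 17 (.leaf [0,14,15,18,21]) (.leaf [12,16,17,13])) (.edon 4 11 (.free 2 [4,5,6,7,8,9,10]) (.leaf [1,3,11,2]))) (.free 1 [19,20,22]))), .t 1 (nat_lit 0) (.cn 2 3), .t 9 (nat_lit 0x88d12cb0a490a4808c808c7088a0889) (.z (.node 2 4 (.edon 0 12 (.node 2 9 (.leaf [0,2,10,11]) (.leaf [5,6,7,8,9])) (.node 18 19 (.leaf [18,20,22,21]) (.free 2 [12,13,14,15,16,17,19]))) (.free 1 [1,3,4]))), .t 6 (nat_lit 0x11073107112761275) (.z (.edon 21 19 (.node 0 11 (.node 14 17 (.leaf [0,14,15,18,21]) (.leaf [12,16,17,13])) (.edon 4 5 (.free 2 [4,6,7,8,9,10,11]) (.leaf [1,3,5,2]))) (.free 1 [19,20,22]))), .t 10 (nat_lit 0x100910040a490a480450044e0356035402f2) (.z (.edon 0 16 (.edon 0 3 (.leaf [0,1,2]) (.edon 0 12 (.node 4 9 (.leaf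 [3,4,11,10,5]) (.leaf [6,7,8,9])) (.leaf [12,13,15,14]))) (.free 2 [16,17,18,19,20,21,22]))), .t 12 (nat_lit 0x177003500050001124511eb11e9119d119b11771175) (.z (.edon 0 20 (.node 0 12 (.node 0 17 (.leaf [0,18,19]) (.leaf [13,16,17,15,14])) (.edon 4 10 (.free 2 [4,6,7,8,9,11,12]) (.leaf [1,3,5,10,2]))) (.free 1 [20,21,22]))), .t 12 (nat_lit 0x179003700070001124511eb11e9119d119b11771175) (.z (.edon 0 20 (.node 0 12 (.node 0 17 (.leaf [0,18,19]) (.leaf [13,16,17,15,14])) (.node 5 10 (.leaf [1,3,5,12,2]) (.free 2 [4,6,7,8,9,10,11]))) (.free 1 [20,21,22]))), .t 10 (nat_lit 0x88d0a490a4808c808c7088a088902e602e5) (.z (.node 2 4 (.node 12 16 (.edon 0 15 (.leaf [0,2,12,13,14]) (.free 2 [15,17,18,19,20,21,22])) (.edon 0 10 (.leaf [5,6,7,8,9]) (.leaf [10,11,16]))) (.free 1 [1,3,4]))), .t 10 (nat_lit 0xa4a08c908c608990894088d088c02e602e5) (.z (.node 2 4 (.node 12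 16 (.edon 0 15 (.leaf [0,2,12,13,14]) (.free 2 [15,17,18,19,20,21,22])) (.edon 0 10 (.leaf [5,6,7,9,8]) (.leaf [10,11,16]))) (.free 1 [1,3,4])))] (by decide +kernel) (by decide +kernel)
theorem b206 : B 6592 6624 := Blk.of_chk [.t 10 (nat_lit 0x3e703dd03da04c404bf0411040f0e9e0e9c) (.z (.node 0 3 (.node 6 16 (.node 0 10 (.edon 0 15 (.leaf [0,11,12,13,14]) (.free 2 [15,17,18,19,20,21,22])) (.leaf [4,6,10,8,5])) (.leaf [7,9,16])) (.free 1 [1,2,3]))), .t 5 (nat_lit 0xd970d950d470d46) (.z (.node 0 7 (.node 12 16 (.edon 0 15 (.leaf [0,8,12,13,14]) (.free 2 [15,17,18,19,20,21,22])) (.leaf [9,16,11,10])) (.free 2 [1,2,3,4,5,6,7]))), .t 7 (nat_lit 0x100910040a4a0a4701fc01fb) (.z (.edon 0 16 (.edon 0 12 (.node 2 4 (.node 5 8 (.leaf [0,2,5,10,11]) (.leaf [6,7,9,8])) (.leaf [1,3,4])) (.leaf [12,13,15,14])) (.free 2 [16,17,18,19,20,21,22]))), .t 7 (nat_lit 0x100910040a4a0a4701fc01fb)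 (.z (.edon 0 16 (.edon 0 12 (.node 2 4 (.node 5 9 (.leaf [0,2,5,10,11]) (.leaf [6,7,9,8])) (.leaf [1,3,4])) (.leaf [12,13,15,14])) (.free 2 [16,17,18,19,20,21,22]))), .t 10 (nat_lit 0x100910040a4a0a470450044e0356035402f2) (.z (.edon 0 16 (.edon 0 3 (.leaf [0,1,2]) (.edon 0 12 (.node 4 8 (.leaf [3,4,11,10,5]) (.leaf [6,7,9,8])) (.leaf [12,13,15,14]))) (.free 2 [16,17,18,19,20,21,22]))), .t 6 (nat_lit 0x12cb1009100401d401d3) (.z (.node 4 19 (.edon 0 12 (.node 2 4 (.leaf [0,2,5,8,10]) (.leaf [1,3,4])) (.edon 0 18 (.leaf [12,13,15,14]) (.leaf [18,20,22,21]))) (.free 2 [6,7,9,11,16,17,19]))), .t 1 (nat_lit 0) (.cn 2 3), .t 9 (nat_lit 0x12cb100910040411040f033f033e02ef) (.z (.edon 0 3 (.free 1 [0,1,2]) (.node 4 19 (.edon 0 18 (.edon 0 12 (.leaf [3,4,10,8,5]) (.leaf [12,13,15,14])) (.leaf [18,20,22,21])) (.free 2 [6,7,9,11,16,17,19])))), .t 10 (nat_lit 0x1b901c801c601c001bf1009100402080207)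 (.z (.edon 0 16 (.edon 0 12 (.node 2 4 (.edon 5 10 (.leaf [2,6,7,9,5]) (.leaf [0,8,10,11])) (.leaf [1,3,4])) (.leaf [12,13,15,14])) (.free 2 [16,17,18,19,20,21,22]))), .t 14 (nat_lit 0x10d2125a12581137113510c210c012cb03dd0326032502f902ef) (.z (.edon 0 3 (.free 1 [0,1,2]) (.node 6 16 (.edon 0 9 (.leaf [3,4,6,8,5]) (.edon 0 12 (.leaf [9,10,11]) (.node 18 19 (.leaf [18,20,22,21]) (.leaf [12,14,15,17,19])))) (.leaf [7,13,16])))), .t 9 (nat_lit 0x12cb0a490a480450044e0356035402f2) (.z (.edon 0 3 (.free 1 [0,1,2]) (.edon 0 12 (.node 4 9 (.leaf [3,4,11,10,5]) (.leaf [6,7,8,9])) (.node 18 19 (.leaf [18,20,22,21]) (.free 2 [12,13,14,15,16,17,19]))))), .t 6 (nat_lit 0x111eb11e9111c111b) (.z (.edon 21 19 (.node 0 11 (.node 14 17 (.leaf [0,12,14,18,21]) (.leaf [13,16,17,15])) (.edon 4 5 (.free 2 [4,6,7,8,9,10,11]) (.leaf [1,3,5,2]))) (.free 1 [19,20,22]))), .t 10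 (nat_lit 0x11cf1110110b109f109a102810260fe20fe0) (.z (.node 0 7 (.edon 0 11 (.leaf [0,8,9,10]) (.edon 15 19 (.leaf [11,16,17,15]) (.edon 0 20 (.leaf [12,13,14,19,18]) (.leaf [20,21,22])))) (.free 2 [1,2,3,4,5,6,7]))), .t 6 (nat_lit 0x112a312a210371035) (.z (.edon 21 19 (.node 0 11 (.node 14 18 (.leaf [0,12,13,14,21]) (.leaf [15,16,17,18])) (.edon 4 5 (.free 2 [4,6,7,8,9,10,11]) (.leaf [1,3,5,2]))) (.free 1 [19,20,22]))), .t 14 (nat_lit 0x117311b411b111861183120111ff12cb03dd0326032502f902ef) (.z (.edon 0 3 (.free 1 [0,1,2]) (.node 6 16 (.edon 0 10 (.leaf [3,4,6,8,5]) (.edon 0 13 (.leaf [10,11,12]) (.node 18 19 (.leaf [18,20,22,21]) (.leaf [13,15,17,19,14])))) (.leaf [7,9,16])))), .t 6 (nat_lit 0x611eb11e9111c111b) (.z (.edon 21 19 (.node 0 11 (.node 14 17 (.leaf [0,12,14,18,21]) (.leaf [13,16,17,15])) (.edon 4 11 (.free 2 [4,5,6,7,8,9,10]) (.leaf [1,3,11,2])))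 (.free 1 [19,20,22]))), .t 9 (nat_lit 0x611eb1128112610731071104d104b) (.z (.edon 21 19 (.node 0 11 (.node 14 17 (.leaf [0,14,18,21]) (.leaf [12,16,17,15,13])) (.edon 4 11 (.free 2 [4,5,6,7,8,9,10]) (.leaf [1,3,11,2]))) (.free 1 [19,20,22]))), .t 9 (nat_lit 0x111eb1128112610731071104d104b) (.z (.edon 21 19 (.node 0 11 (.node 14 17 (.leaf [0,14,18,21]) (.leaf [12,16,17,15,13])) (.edon 4 5 (.free 2 [4,6,7,8,9,10,11]) (.leaf [1,3,5,2]))) (.free 1 [19,20,22]))), .t 9 (nat_lit 0x12cb03ea0331033002fc02f20ba00b9b) (.z (.edon 0 3 (.free 1 [0,1,2]) (.edon 0 12 (.edon 7 10 (.leaf [7,8,11,9]) (.leaf [3,4,6,10,5])) (.node 18 19 (.leaf [18,20,22,21]) (.free 2 [12,13,14,15,16,17,19]))))), .t 9 (nat_lit 0x1011116f116d10bc10ba100910070001) (.z (.node 16 0 (.edon 0 12 (.edon 4 5 (.free 2 [4,6,7,8,9,10,11]) (.leaf [1,3,5,2])) (.leaf [12,16,15,14,13])) (.free 2 [0,17,18,19,20,21,22]))),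 .t 6 (nat_lit 0x11037103512a312a2) (.z (.edon 21 19 (.node 0 11 (.edon 15 21 (.leaf [15,16,17,18]) (.leaf [0,12,13,14,21])) (.edon 4 5 (.free 2 [4,6,7,8,9,10,11]) (.leaf [1,3,5,2]))) (.free 1 [19,20,22]))), .t 10 (nat_lit 0xeae0eac12ab128a1285126d1268125a1258) (.z (.node 0 7 (.edon 0 11 (.leaf [0,8,9,10]) (.node 14 16 (.edon 0 20 (.leaf [14,15,17,19,18]) (.leaf [20,21,22])) (.leaf [11,16,13,12]))) (.free 2 [1,2,3,4,5,6,7]))), .t 10 (nat_lit 0x1009100403dd0326032502f902ef0bde0bdc) (.z (.edon 0 16 (.edon 0 3 (.leaf [0,1,2]) (.edon 0 12 (.edon 7 8 (.leaf [7,11,10,9]) (.leaf [3,4,6,8,5])) (.leaf [12,13,15,14]))) (.free 2 [16,17,18,19,20,21,22]))), .t 10 (nat_lit 0x100910040a610a5f0411040f033f033e02ef) (.z (.edon 0 16 (.edon 0 3 (.leaf [0,1,2]) (.edon 0 12 (.node 4 9 (.leaf [3,4,10,8,5]) (.leaf [6,7,11,9])) (.leaf [12,13,15,14]))) (.free 2 [16,17,18,19,20,21,22]))),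 .t 9 (nat_lit 0x116b119d119b11761173000111eb11ea) (.z (.edon 21 19 (.node 0 11 (.node 12 17 (.leaf [0,12,18,21]) (.leaf [13,15,16,17,14])) (.edon 4 5 (.free 2 [4,6,7,8,9,10,11]) (.leaf [1,3,5,2]))) (.free 1 [19,20,22]))), .t 10 (nat_lit 0xa4b0a4a0a47100910040a820a7f0a5d0a5c) (.z (.edon 0 16 (.edon 0 12 (.node 4 8 (.free 2 [0,1,2,3,4,5,11]) (.leaf [6,7,9,10,8])) (.leaf [12,13,15,14])) (.free 2 [16,17,18,19,20,21,22]))), .t 9 (nat_lit 0x4c300010a820a8005a605a404bb04b9) (.z (.node 6 16 (.node 0 10 (.edon 0 15 (.leaf [0,11,12,14]) (.free 2 [15,17,18,19,20,21,22])) (.edon 4 5 (.leaf [4,6,8,9,10]) (.leaf [1,3,5,2]))) (.free 1 [7,13,16]))), .t 10 (nat_lit 0xa470a610a5f0a520a4f100910040a8b0a89) (.z (.edon 0 16 (.edon 0 12 (.node 4 9 (.free 2 [0,1,2,3,4,5,10]) (.leaf [6,7,11,9,8])) (.leaf [12,13,15,14])) (.free 2 [16,17,18,19,20,21,22]))), .t 9 (nat_lit 0x4bf04bc04b705a605a304e704e50001)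 (.z (.node 6 16 (.node 0 10 (.edon 0 15 (.leaf [0,11,12,14]) (.free 2 [15,17,18,19,20,21,22])) (.node 3 8 (.leaf [1,3,5,2]) (.leaf [4,6,9,10,8]))) (.free 1 [7,13,16]))), .t 15 (nat_lit 0x12ab128a1285126d1268125a12580df90df703dd0326032502f902ef) (.z (.edon 0 3 (.free 1 [0,1,2]) (.node 6 16 (.edon 0 10 (.leaf [3,4,6,8,5]) (.edon 0 14 (.leaf [10,13,12,11]) (.edon 0 20 (.leaf [14,15,17,19,18]) (.leaf [20,21,22])))) (.leaf [7,9,16])))), .t 1 (nat_lit 0) (.cn 2 3), .t 11 (nat_lit 0x3e703dd03da04c404bf0411040f0fea0fe812cb) (.z (.node 0 3 (.node 6 16 (.node 0 10 (.edon 11 14 (.node 18 19 (.leaf [18,20,22,21]) (.leaf [11,17,19,15])) (.leaf [0,12,13,14])) (.leaf [4,6,10,8,5])) (.leaf [7,9,16])) (.free 1 [1,2,3])))] (by decide +kernel) (by decide +kernel)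
theorem b207 : B 6624 6656 := Blk.of_chk [.t 15 (nat_lit 0x3e703dd03da12ae12ab12a804c404bf0411040f0e9e0e9b12ba12b4) (.z (.node 0 3 (.node 6 16 (.node 0 10 (.node 0 14 (.node 0 20 (.leaf [0,21,22]) (.leaf [15,17,19,20,18])) (.leaf [11,13,14,12])) (.leaf [4,6,10,8,5])) (.leaf [7,9,16])) (.free 1 [1,2,3]))), .t 8 (nat_lit 0x11eb0fe20fe00f800f7e0f700f6e) (.z (.node 0 7 (.edon 0 11 (.leaf [0,8,9,10]) (.edon 13 19 (.leaf [11,16,17,15,13]) (.free 2 [12,14,18,19,20,21,22]))) (.free 2 [1,2,3,4,5,6,7]))), .t 10 (nat_lit 0xa4b0a4a0a47100910070a820a7f0a5d0a5c) (.z (.edon 0 16 (.edon 0 12 (.node 4 8 (.free 2 [0,1,2,3,4,5,11]) (.leaf [6,7,9,10,8])) (.leaf [12,15,14,13])) (.free 2 [16,17,18,19,20,21,22]))), .t 11 (nat_lit 0x104c404bf12ab128a1285126d1268125a1258) (.z (.edon 0 20 (.node 6 16 (.node 0 10 (.edon 0 14 (.leaf [0,11,12,13]) (.leaf [14,15,17,19,18])) (.edon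 4 5 (.leaf [4,6,10,8]) (.leaf [1,3,5,2]))) (.leaf [7,9,16])) (.free 1 [20,21,22]))), .t 10 (nat_lit 0x1009100703dd0326032502f902ef0bde0bdc) (.z (.edon 0 16 (.edon 0 3 (.leaf [0,1,2]) (.edon 0 12 (.edon 7 8 (.leaf [7,11,10,9]) (.leaf [3,4,6,8,5])) (.leaf [12,15,14,13]))) (.free 2 [16,17,18,19,20,21,22]))), .t 7 (nat_lit 0x100910070a520a4f01e401e3) (.z (.edon 0 16 (.edon 0 12 (.node 4 8 (.node 2 4 (.leaf [0,2,5,9,10]) (.leaf [1,3,4])) (.leaf [6,7,11,8])) (.leaf [12,15,14,13])) (.free 2 [16,17,18,19,20,21,22]))), .t 9 (nat_lit 0x12cb03dd0326032502f902ef0bde0bdc) (.z (.edon 0 3 (.free 1 [0,1,2]) (.edon 0 12 (.edon 7 8 (.leaf [7,11,10,9]) (.leaf [3,4,6,8,5])) (.node 18 19 (.leaf [18,20,22,21]) (.free 2 [12,13,14,15,16,17,19]))))), .t 14 (nat_lit 0x117311b411b111861183120111ff12cb03dd0326032502f902ef) (.z (.edon 0 3 (.free 1 [0,1,2]) (.node 6 16 (.edon 0 9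 (.leaf [3,4,6,8,5]) (.edon 0 13 (.leaf [9,10,12]) (.node 18 19 (.leaf [18,20,22,21]) (.leaf [13,15,17,19,14])))) (.leaf [7,11,16])))), .t 6 (nat_lit 0x11073107112761275) (.z (.edon 21 19 (.node 0 11 (.node 15 17 (.leaf [0,14,15,18,21]) (.leaf [12,16,17,13])) (.edon 4 5 (.free 2 [4,6,7,8,9,10,11]) (.leaf [1,3,5,2]))) (.free 1 [19,20,22]))), .t 6 (nat_lit 0x10d890d8712761275) (.z (.edon 19 4 (.node 0 5 (.node 0 12 (.edon 19 21 (.leaf [19,20,22]) (.leaf [0,14,15,18,21])) (.leaf [9,12,11,10])) (.leaf [1,3,5,2])) (.free 2 [4,6,7,8,13,16,17]))), .t 16 (nat_lit 0x3e01173042d042a03ea03e711b411b11186118304e704e5120111ff12cb) (.z (.node 0 3 (.node 6 16 (.node 0 10 (.edon 0 13 (.leaf [0,11,12]) (.node 18 19 (.leaf [18,20,22,21]) (.leaf [13,15,17,19,14]))) (.leaf [4,6,9,10,5])) (.leaf [7,8,16])) (.free 1 [1,2,3]))), .t 15 (nat_lit 0x3e0042d042a03ea03e704e704e512ab128a1285126d1268125a1258)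 (.z (.node 0 3 (.node 6 16 (.node 0 10 (.edon 0 14 (.leaf [0,11,12,13]) (.edon 0 20 (.leaf [14,15,17,19,18]) (.leaf [20,21,22]))) (.leaf [4,6,9,10,5])) (.leaf [7,8,16])) (.free 1 [1,2,3]))), .t 12 (nat_lit 0x17700350005000112ab128a1285126d1268125a1258) (.z (.edon 0 20 (.node 6 16 (.node 0 10 (.edon 0 14 (.leaf [0,11,12,13]) (.leaf [14,15,17,19,18])) (.edon 4 5 (.leaf [4,6,9]) (.leaf [1,3,5,10,2]))) (.leaf [7,8,16])) (.free 1 [20,21,22]))), .t 1 (nat_lit 0) (.cn 2 3), .t 12 (nat_lit 0x12ae12ab12a803dd03da018300430005000412ba12b4) (.z (.node 6 16 (.node 0 10 (.node 0 14 (.node 0 20 (.leaf [0,21,22]) (.leaf [15,17,19,20,18])) (.leaf [11,12,14])) (.node 3 5 (.leaf [1,3,9,10,2]) (.leaf [4,6,8,5]))) (.free 1 [7,13,16]))), .t 9 (nat_lit 0x10481045104000051128112610731072) (.z (.edon 21 19 (.node 0 11 (.node 14 17 (.leaf [0,14,18,21]) (.leaf [12,13,16,17,15]))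 (.edon 4 10 (.free 2 [4,5,6,7,8,9,11]) (.leaf [1,3,10,2]))) (.free 1 [19,20,22]))), .t 9 (nat_lit 0x10481045104000061128112610731072) (.z (.edon 21 19 (.node 0 11 (.node 14 17 (.leaf [0,14,18,21]) (.leaf [12,13,16,17,15])) (.node 3 10 (.leaf [1,3,11,2]) (.free 2 [4,5,6,7,8,9,10]))) (.free 1 [19,20,22]))), .t 10 (nat_lit 0xa470a610a5f0a520a4f100910040a8b0a89) (.z (.node 0 3 (.edon 0 12 (.node 5 11 (.leaf [0,4,5,10]) (.leaf [6,7,11,9,8])) (.edon 0 16 (.leaf [12,13,15,14]) (.free 2 [16,17,18,19,20,21,22]))) (.free 1 [1,2,3]))), .t 10 (nat_lit 0x3da0408040503e303e004bb04b90dfe0dfc) (.z (.node 0 3 (.node 6 16 (.node 0 9 (.edon 0 15 (.leaf [0,10,11,12,14]) (.free 2 [15,17,18,19,20,21,22])) (.leaf [4,6,8,9,5])) (.leaf [7,13,16])) (.free 1 [1,2,3]))), .t 9 (nat_lit 0x12cb0ba00a8b0a860a610a5f0a510a50) (.z (.node 0 3 (.edon 0 12 (.node 4 9 (.leaf [0,4,5,10]) (.leaf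 [6,7,8,11,9])) (.node 18 19 (.leaf [18,20,22,21]) (.free 2 [12,13,14,15,16,17,19]))) (.free 1 [1,2,3]))), .t 5 (nat_lit 0x183004300050004) (.z (.edon 0 16 (.node 0 12 (.leaf [0,13,14,15]) (.edon 4 9 (.free 2 [4,5,6,7,8,11,12]) (.leaf [1,3,9,10,2]))) (.free 2 [16,17,18,19,20,21,22]))), .t 6 (nat_lit 0x12cb01e401e30a520a4f) (.z (.node 2 4 (.edon 0 12 (.edon 6 9 (.leaf [6,7,11,8]) (.leaf [0,2,5,9,10])) (.node 18 19 (.leaf [18,20,22,21]) (.free 2 [12,13,14,15,16,17,19]))) (.free 1 [1,3,4]))), .t 12 (nat_lit 0x12ae12ab12a8017700350005000104cb04c612ba12b4) (.z (.node 6 16 (.node 0 11 (.node 0 14 (.node 0 20 (.leaf [0,21,22]) (.leaf [15,17,19,20,18])) (.leaf [12,13,14])) (.edon 4 5 (.leaf [4,6,11,8]) (.leaf [1,3,5,10,2]))) (.free 1 [7,9,16]))), .t 11 (nat_lit 0x118603dd03da125a1258120111ff1176117412cb) (.z (.node 0 3 (.node 6 16 (.node 0 8 (.edon 0 13 (.leaf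 [0,10,11,12]) (.node 18 19 (.leaf [18,20,22,21]) (.leaf [13,14,15,17,19]))) (.leaf [4,6,8,5])) (.leaf [7,9,16])) (.free 1 [1,2,3]))), .t 10 (nat_lit 0x1d90a610a5f093809360268026701d401d3) (.z (.edon 0 16 (.node 0 12 (.leaf [0,13,14,15]) (.node 4 9 (.node 2 4 (.leaf [2,5,8,10,12]) (.leaf [1,3,4])) (.leaf [6,7,11,9]))) (.free 2 [16,17,18,19,20,21,22]))), .t 10 (nat_lit 0x1172116f116a0c9a0c9511eb11e9119d119c) (.z (.node 0 7 (.node 0 11 (.edon 19 21 (.leaf [19,20,22]) (.edon 13 18 (.leaf [13,14,16,17,15]) (.leaf [0,12,18,21]))) (.leaf [8,9,11,10])) (.free 2 [1,2,3,4,5,6,7]))), .t 6 (nat_lit 0x12cb1008100501d401d3) (.z (.node 4 19 (.edon 0 12 (.node 2 4 (.leaf [0,2,5,8,10]) (.leaf [1,3,4])) (.edon 0 18 (.leaf [12,14,15,13]) (.leaf [18,20,22,21]))) (.free 2 [6,7,9,11,16,17,19]))), .t 9 (nat_lit 0x1193000112761275121c121b117e117c) (.z (.edon 19 4 (.node 0 5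 (.edon 0 13 (.leaf [0,8,10,12]) (.edon 19 21 (.leaf [19,20,22]) (.leaf [13,14,15,18,21]))) (.leaf [1,3,5,2])) (.free 2 [4,6,7,9,11,16,17]))), .t 7 (nat_lit 0xa5d0a5c1128112611dd11db) (.z (.edon 21 19 (.node 0 11 (.node 14 15 (.leaf [0,13,14,18,21]) (.leaf [12,16,17,15])) (.node 4 10 (.free 2 [1,2,3,4,5,8,11]) (.leaf [6,7,9,10]))) (.free 1 [19,20,22]))), .t 6 (nat_lit 0x110e510e3121c121b) (.z (.edon 21 19 (.node 0 11 (.node 15 17 (.leaf [0,13,15,18,21]) (.leaf [12,16,17,14])) (.edon 4 5 (.free 2 [4,6,7,8,9,10,11]) (.leaf [1,3,5,2]))) (.free 1 [19,20,22]))), .t 10 (nat_lit 0x1005105c105910281025000110d210d012cb) (.z (.edon 19 4 (.node 0 5 (.edon 0 12 (.leaf [0,8,11]) (.node 18 19 (.leaf [18,20,22,21]) (.leaf [12,14,15,19,13]))) (.leaf [1,3,5,2])) (.free 2 [4,6,7,9,10,16,17]))), .t 11 (nat_lit 0x3e703dd03da04c404bf0411040f125a125712cb) (.z (.node 0 3 (.node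 6 16 (.node 0 10 (.edon 0 14 (.leaf [0,11,12,13]) (.node 18 19 (.leaf [18,20,22,21]) (.leaf [14,17,19,15]))) (.leaf [4,6,10,8,5])) (.leaf [7,9,16])) (.free 1 [1,2,3])))] (by decide +kernel) (by decide +kernel)

end Pool.Agent.GCP.F7
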