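import Pool.Agent.GCP.F7B0
import Pool.Agent.GCP.F7B1
import Pool.Agent.GCP.F7B2
import Pool.Agent.GCP.F7B3
import Pool.Agent.GCP.F7B4
import Pool.Agent.GCP.F7B5
import Pool.Agent.GCP.F7B6
import Pool.Agent.GCP.F7B7
import Pool.Agent.GCP.F7B8
import Pool.Agent.GCP.F7B9
import Pool.Agent.GCP.F7B10
import Pool.Agent.GCP.F7B11
import Pool.Agent.GCP.F7B12
import Pool.Agent.GCP.F7B13
import Pool.Agent.GCP.F7B14
import Pool.Agent.GCP.F7B15
import Pool.Agent.GCP.F7B16
import Pool.Agent.GCP.F7B17
import Pool.Agent.GCP.F7B18
import Pool.Agent.GCP.F7B19
import Pool.Agent.GCP.F7B20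
import Pool.Agent.GCP.F7B21
import Pool.Agent.GCP.F7B22
import Pool.Agent.GCP.F7B23
import Pool.Agent.GCP.F7B24
import Pool.Agent.GCP.F7B25
import Pool.Agent.GCP.F7B26
import Pool.Agent.GCP.F7B27
import Pool.Agent.GCP.F7B28

set_option autoImplicit false
set_option maxRecDepth 100000

/-! # Case F7 (generated) -/

namespace Pool.Agent.GCP.F7

open Pool.Agent.GCP DB

theorem a0 : B 0 32 := b0
theorem a1 : B 0 64 := a0.trans b1
theorem a2 : B 0 96 := a1.trans b2
theorem a3 : B 0 128 := a2.trans b3
theorem a4 : B 0 160 := a3.trans b4
theorem a5 : B 0 192 := a4.trans b5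
theorem a6 : B 0 224 := a5.trans b6
theorem a7 : B 0 256 := a6.trans b7
theorem a8 : B 0 288 := a7.trans b8
theorem a9 : B 0 320 := a8.trans b9
theorem a10 : B 0 352 := a9.trans b10
theorem a11 : B 0 384 := a10.trans b11
theorem a12 : B 0 416 := a11.trans b12
theorem a13 : B 0 448 := a12.trans b13
theorem a14 : B 0 480 := a13.trans b14
theorem a15 : B 0 512 := a14.trans b15
theorem a16 : B 0 544 := a15.trans b16
theorem a17 : B 0 576 := a16.trans b17
theorem a18 : B 0 608 := a17.trans b18
theorem a19 : B 0 640 := a18.trans b19
theorem a20 : B 0 672 := a19.trans b20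
theorem a21 : B 0 704 := a20.trans b21
theorem a22 : B 0 736 := a21.trans b22
theorem a23 : B 0 768 := a22.trans b23
theorem a24 : B 0 800 := a23.trans b24
theorem a25 : B 0 832 := a24.trans b25
theorem a26 : B 0 864 := a25.trans b26
theorem a27 : B 0 896 := a26.trans b27
theorem a28 : B 0 928 := a27.trans b28
theorem a29 : B 0 960 := a28.trans b29
theorem a30 : B 0 992 := a29.trans b30
theorem a31 : B 0 1024 := a30.trans b31
theorem a32 : B 0 1056 := a31.trans b32
theorem a33 : B 0 1088 := a32.trans b33
theorem a34 : B 0 1120 := a33.trans b34
theorem a35 : B 0 1152 := a34.trans b35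
theorem a36 : B 0 1184 := a35.trans b36
theorem a37 : B 0 1216 := a36.trans b37
theorem a38 : B 0 1248 := a37.trans b38
theorem a39 : B 0 1280 := a38.trans b39
theorem a40 : B 0 1312 := a39.trans b40
theorem a41 : B 0 1344 := a40.trans b41
theorem a42 : B 0 1376 := a41.trans b42
theorem a43 : B 0 1408 := a42.trans b43
theorem a44 : B 0 1440 := a43.trans b44
theorem a45 : B 0 1472 := a44.trans b45
theorem a46 : B 0 1504 := a45.trans b46
theorem a47 : B 0 1536 := a46.trans b47
theorem a48 : B 0 1568 := a47.trans b48
theorem a49 : B 0 1600 := a48.trans b49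
theorem a50 : B 0 1632 := a49.trans b50
theorem a51 : B 0 1664 := a50.trans b51
theorem a52 : B 0 1696 := a51.trans b52
theorem a53 : B 0 1728 := a52.trans b53
theorem a54 : B 0 1760 := a53.trans b54
theorem a55 : B 0 1792 := a54.trans b55
theorem a56 : B 0 1824 := a55.trans b56
theorem a57 : B 0 1856 := a56.trans b57
theorem a58 : B 0 1888 := a57.trans b58
theorem a59 : B 0 1920 := a58.trans b59
theorem a60 : B 0 1952 := a59.trans b60
theorem a61 : B 0 1984 := a60.trans b61
theorem a62 : B 0 2016 := a61.trans b62
theorem a63 : B 0 2048 := a62.trans b63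
theorem a64 : B 0 2080 := a63.trans b64
theorem a65 : B 0 2112 := a64.trans b65
theorem a66 : B 0 2144 := a65.trans b66
theorem a67 : B 0 2176 := a66.trans b67
theorem a68 : B 0 2208 := a67.trans b68
theorem a69 : B 0 2240 := a68.trans b69
theorem a70 : B 0 2272 := a69.trans b70
theorem a71 : B 0 2304 := a70.trans b71
theorem a72 : B 0 2336 := a71.trans b72
theorem a73 : B 0 2368 := a72.trans b73
theorem a74 : B 0 2400 := a73.trans b74
theorem a75 : B 0 2432 := a74.trans b75
theorem a76 : B 0 2464 := a75.trans b76
theorem a77 : B 0 2496 := a76.trans b77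
theorem a78 : B 0 2528 := a77.trans b78
theorem a79 : B 0 2560 := a78.trans b79
theorem a80 : B 0 2592 := a79.trans b80
theorem a81 : B 0 2624 := a80.trans b81
theorem a82 : B 0 2656 := a81.trans b82
theorem a83 : B 0 2688 := a82.trans b83
theorem a84 : B 0 2720 := a83.trans b84
theorem a85 : B 0 2752 := a84.trans b85
theorem a86 : B 0 2784 := a85.trans b86
theorem a87 : B 0 2816 := a86.trans b87
theorem a88 : B 0 2848 := a87.trans b88
theorem a89 : B 0 2880 := a88.trans b89
theorem a90 : B 0 2912 := a89.trans b90
theorem a91 : B 0 2944 := a90.trans b91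
theorem a92 : B 0 2976 := a91.trans b92
theorem a93 : B 0 3008 := a92.trans b93
theorem a94 : B 0 3040 := a93.trans b94
theorem a95 : B 0 3072 := a94.trans b95
theorem a96 : B 0 3104 := a95.trans b96
theorem a97 : B 0 3136 := a96.trans b97
theorem a98 : B 0 3168 := a97.trans b98
theorem a99 : B 0 3200 := a98.trans b99
theorem a100 : B 0 3232 := a99.trans b100
theorem a101 : B 0 3264 := a100.trans b101
theorem a102 : B 0 3296 := a101.trans b102
theorem a103 : B 0 3328 := a102.trans b103
theorem a104 : B 0 3360 := a103.trans b104
theorem a105 : B 0 3392 := a104.trans b105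
theorem a106 : B 0 3424 := a105.trans b106
theorem a107 : B 0 3456 := a106.trans b107
theorem a108 : B 0 3488 := a107.trans b108
theorem a109 : B 0 3520 := a108.trans b109
theorem a110 : B 0 3552 := a109.trans b110
theorem a111 : B 0 3584 := a110.trans b111
theorem a112 : B 0 3616 := a111.trans b112
theorem a113 : B 0 3648 := a112.trans b113
theorem a114 : B 0 3680 := a113.trans b114
theorem a115 : B 0 3712 := a114.trans b115
theorem a116 : B 0 3744 := a115.trans b116
theorem a117 : B 0 3776 := a116.trans b117
theorem a118 : B 0 3808 := a117.trans b118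
theorem a119 : B 0 3840 := a118.trans b119
theorem a120 : B 0 3872 := a119.trans b120
theorem a121 : B 0 3904 := a120.trans b121
theorem a122 : B 0 3936 := a121.trans b122
theorem a123 : B 0 3968 := a122.trans b123
theorem a124 : B 0 4000 := a123.trans b124
theorem a125 : B 0 4032 := a124.trans b125
theorem a126 : B 0 4064 := a125.trans b126
theorem a127 : B 0 4096 := a126.trans b127
theorem a128 : B 0 4128 := a127.trans b128
theorem a129 : B 0 4160 := a128.trans b129
theorem a130 : B 0 4192 := a129.trans b130
theorem a131 : B 0 4224 := a130.trans b131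
theorem a132 : B 0 4256 := a131.trans b132
theorem a133 : B 0 4288 := a132.trans b133
theorem a134 : B 0 4320 := a133.trans b134
theorem a135 : B 0 4352 := a134.trans b135
theorem a136 : B 0 4384 := a135.trans b136
theorem a137 : B 0 4416 := a136.trans b137
theorem a138 : B 0 4448 := a137.trans b138
theorem a139 : B 0 4480 := a138.trans b139
theorem a140 : B 0 4512 := a139.trans b140
theorem a141 : B 0 4544 := a140.trans b141
theorem a142 : B 0 4576 := a141.trans b142
theorem a143 : B 0 4608 := a142.trans b143
theorem a144 : B 0 4640 := a143.trans b144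
theorem a145 : B 0 4672 := a144.trans b145
theorem a146 : B 0 4704 := a145.trans b146
theorem a147 : B 0 4736 := a146.trans b147
theorem a148 : B 0 4768 := a147.trans b148
theorem a149 : B 0 4800 := a148.trans b149
theorem a150 : B 0 4832 := a149.trans b150
theorem a151 : B 0 4864 := a150.trans b151
theorem a152 : B 0 4896 := a151.trans b152
theorem a153 : B 0 4928 := a152.trans b153
theorem a154 : B 0 4960 := a153.trans b154
theorem a155 : B 0 4992 := a154.trans b155
theorem a156 : B 0 5024 := a155.trans b156
theorem a157 : B 0 5056 := a156.trans b157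
theorem a158 : B 0 5088 := a157.trans b158
theorem a159 : B 0 5120 := a158.trans b159
theorem a160 : B 0 5152 := a159.trans b160
theorem a161 : B 0 5184 := a160.trans b161
theorem a162 : B 0 5216 := a161.trans b162
theorem a163 : B 0 5248 := a162.trans b163
theorem a164 : B 0 5280 := a163.trans b164
theorem a165 : B 0 5312 := a164.trans b165
theorem a166 : B 0 5344 := a165.trans b166
theorem a167 : B 0 5376 := a166.trans b167
theorem a168 : B 0 5408 := a167.trans b168
theorem a169 : B 0 5440 := a168.trans b169
theorem a170 : B 0 5472 := a169.trans b170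
theorem a171 : B 0 5504 := a170.trans b171
theorem a172 : B 0 5536 := a171.trans b172
theorem a173 : B 0 5568 := a172.trans b173
theorem a174 : B 0 5600 := a173.trans b174
theorem a175 : B 0 5632 := a174.trans b175
theorem a176 : B 0 5664 := a175.trans b176
theorem a177 : B 0 5696 := a176.trans b177
theorem a178 : B 0 5728 := a177.trans b178
theorem a179 : B 0 5760 := a178.trans b179
theorem a180 : B 0 5792 := a179.trans b180
theorem a181 : B 0 5824 := a180.trans b181
theorem a182 : B 0 5856 := a181.trans b182
theorem a183 : B 0 5888 := a182.trans b183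
theorem a184 : B 0 5920 := a183.trans b184
theorem a185 : B 0 5952 := a184.trans b185
theorem a186 : B 0 5984 := a185.trans b186
theorem a187 : B 0 6016 := a186.trans b187
theorem a188 : B 0 6048 := a187.trans b188
theorem a189 : B 0 6080 := a188.trans b189
theorem a190 : B 0 6112 := a189.trans b190
theorem a191 : B 0 6144 := a190.trans b191
theorem a192 : B 0 6176 := a191.trans b192
theorem a193 : B 0 6208 := a192.trans b193
theorem a194 : B 0 6240 := a193.trans b194
theorem a195 : B 0 6272 := a194.trans b195
theorem a196 : B 0 6304 := a195.trans b196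
theorem a197 : B 0 6336 := a196.trans b197
theorem a198 : B 0 6368 := a197.trans b198
theorem a199 : B 0 6400 := a198.trans b199
theorem a200 : B 0 6432 := a199.trans b200
theorem a201 : B 0 6464 := a200.trans b201
theorem a202 : B 0 6496 := a201.trans b202
theorem a203 : B 0 6528 := a202.trans b203
theorem a204 : B 0 6560 := a203.trans b204
theorem a205 : B 0 6592 := a204.trans b205
theorem a206 : B 0 6624 := a205.trans b206
theorem a207 : B 0 6656 := a206.trans b207
theorem a208 : B 0 6688 := a207.trans b208
theorem a209 : B 0 6720 := a208.trans b209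
theorem a210 : B 0 6752 := a209.trans b210
theorem a211 : B 0 6784 := a210.trans b211
theorem a212 : B 0 6816 := a211.trans b212
theorem a213 : B 0 6848 := a212.trans b213
theorem a214 : B 0 6880 := a213.trans b214
theorem a215 : B 0 6912 := a214.trans b215
theorem a216 : B 0 6944 := a215.trans b216
theorem a217 : B 0 6976 := a216.trans b217
theorem a218 : B 0 7008 := a217.trans b218
theorem a219 : B 0 7040 := a218.trans b219
theorem a220 : B 0 7072 := a219.trans b220
theorem a221 : B 0 7104 := a220.trans b221
theorem a222 : B 0 7136 := a221.trans b222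
theorem a223 : B 0 7168 := a222.trans b223
theorem a224 : B 0 7200 := a223.trans b224
theorem a225 : B 0 7232 := a224.trans b225
theorem a226 : B 0 7264 := a225.trans b226
theorem a227 : B 0 7296 := a226.trans b227
theorem a228 : B 0 7328 := a227.trans b228
theorem a229 : B 0 7360 := a228.trans b229
theorem a230 : B 0 7392 := a229.trans b230
theorem a231 : B 0 7424 := a230.trans b231
theorem a232 : B 0 7456 := a231.trans b232
theorem a233 : B 0 7488 := a232.trans b233
theorem a234 : B 0 7520 := a233.trans b234
theorem a235 : B 0 7552 := a234.trans b235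
theorem a236 : B 0 7584 := a235.trans b236
theorem a237 : B 0 7616 := a236.trans b237
theorem a238 : B 0 7648 := a237.trans b238
theorem a239 : B 0 7680 := a238.trans b239
theorem a240 : B 0 7712 := a239.trans b240
theorem a241 : B 0 7744 := a240.trans b241
theorem a242 : B 0 7776 := a241.trans b242
theorem a243 : B 0 7808 := a242.trans b243
theorem a244 : B 0 7840 := a243.trans b244
theorem a245 : B 0 7872 := a244.trans b245
theorem a246 : B 0 7904 := a245.trans b246
theorem a247 : B 0 7936 := a246.trans b247
theorem a248 : B 0 7968 := a247.trans b248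
theorem a249 : B 0 8000 := a248.trans b249
theorem a250 : B 0 8032 := a249.trans b250
theorem a251 : B 0 8064 := a250.trans b251
theorem a252 : B 0 8096 := a251.trans b252
theorem a253 : B 0 8128 := a252.trans b253
theorem a254 : B 0 8160 := a253.trans b254
theorem a255 : B 0 8192 := a254.trans b255
theorem a256 : B 0 8224 := a255.trans b256
theorem a257 : B 0 8256 := a256.trans b257
theorem a258 : B 0 8288 := a257.trans b258
theorem a259 : B 0 8320 := a258.trans b259
theorem a260 : B 0 8352 := a259.trans b260
theorem a261 : B 0 8384 := a260.trans b261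
theorem a262 : B 0 8416 := a261.trans b262
theorem a263 : B 0 8448 := a262.trans b263
theorem a264 : B 0 8480 := a263.trans b264
theorem a265 : B 0 8512 := a264.trans b265
theorem a266 : B 0 8544 := a265.trans b266
theorem a267 : B 0 8576 := a266.trans b267
theorem a268 : B 0 8608 := a267.trans b268
theorem a269 : B 0 8640 := a268.trans b269
theorem a270 : B 0 8672 := a269.trans b270
theorem a271 : B 0 8704 := a270.trans b271
theorem a272 : B 0 8736 := a271.trans b272
theorem a273 : B 0 8768 := a272.trans b273
theorem a274 : B 0 8800 := a273.trans b274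
theorem a275 : B 0 8832 := a274.trans b275
theorem a276 : B 0 8864 := a275.trans b276
theorem a277 : B 0 8896 := a276.trans b277
theorem a278 : B 0 8928 := a277.trans b278
theorem a279 : B 0 8960 := a278.trans b279
theorem a280 : B 0 8992 := a279.trans b280
theorem a281 : B 0 9024 := a280.trans b281
theorem a282 : B 0 9056 := a281.trans b282
theorem a283 : B 0 9088 := a282.trans b283
theorem a284 : B 0 9120 := a283.trans b284
theorem a285 : B 0 9152 := a284.trans b285
theorem a286 : B 0 9184 := a285.trans b286
theorem a287 : B 0 9216 := a286.trans b287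
theorem a288 : B 0 9248 := a287.trans b288
theorem a289 : B 0 9280 := a288.trans b289
theorem a290 : B 0 9312 := a289.trans b290
theorem a291 : B 0 9344 := a290.trans b291
theorem a292 : B 0 9376 := a291.trans b292
theorem a293 : B 0 9408 := a292.trans b293
theorem a294 : B 0 9440 := a293.trans b294
theorem a295 : B 0 9472 := a294.trans b295
theorem a296 : B 0 9504 := a295.trans b296
theorem a297 : B 0 9536 := a296.trans b297
theorem a298 : B 0 9568 := a297.trans b298
theorem a299 : B 0 9600 := a298.trans b299
theorem a300 : B 0 9632 := a299.trans b300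
theorem a301 : B 0 9664 := a300.trans b301
theorem a302 : B 0 9696 := a301.trans b302
theorem a303 : B 0 9728 := a302.trans b303
theorem a304 : B 0 9760 := a303.trans b304
theorem a305 : B 0 9792 := a304.trans b305
theorem a306 : B 0 9824 := a305.trans b306
theorem a307 : B 0 9856 := a306.trans b307
theorem a308 : B 0 9888 := a307.trans b308
theorem a309 : B 0 9920 := a308.trans b309
theorem a310 : B 0 9952 := a309.trans b310
theorem a311 : B 0 9984 := a310.trans b311
theorem a312 : B 0 10016 := a311.trans b312
theorem a313 : B 0 10048 := a312.trans b313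
theorem a314 : B 0 10080 := a313.trans b314
theorem a315 : B 0 10112 := a314.trans b315
theorem a316 : B 0 10144 := a315.trans b316
theorem a317 : B 0 10176 := a316.trans b317
theorem a318 : B 0 10208 := a317.trans b318
theorem a319 : B 0 10240 := a318.trans b319
theorem a320 : B 0 10272 := a319.trans b320
theorem a321 : B 0 10304 := a320.trans b321
theorem a322 : B 0 10336 := a321.trans b322
theorem a323 : B 0 10368 := a322.trans b323
theorem a324 : B 0 10400 := a323.trans b324
theorem a325 : B 0 10432 := a324.trans b325
theorem a326 : B 0 10464 := a325.trans b326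
theorem a327 : B 0 10496 := a326.trans b327
theorem a328 : B 0 10528 := a327.trans b328
theorem a329 : B 0 10560 := a328.trans b329
theorem a330 : B 0 10592 := a329.trans b330
theorem a331 : B 0 10624 := a330.trans b331
theorem a332 : B 0 10656 := a331.trans b332
theorem a333 : B 0 10688 := a332.trans b333
theorem a334 : B 0 10720 := a333.trans b334
theorem a335 : B 0 10752 := a334.trans b335
theorem a336 : B 0 10784 := a335.trans b336
theorem a337 : B 0 10816 := a336.trans b337
theorem a338 : B 0 10848 := a337.trans b338
theorem a339 : B 0 10880 := a338.trans b339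
theorem a340 : B 0 10912 := a339.trans b340
theorem a341 : B 0 10944 := a340.trans b341
theorem a342 : B 0 10976 := a341.trans b342
theorem a343 : B 0 11008 := a342.trans b343
theorem a344 : B 0 11040 := a343.trans b344
theorem a345 : B 0 11072 := a344.trans b345
theorem a346 : B 0 11104 := a345.trans b346
theorem a347 : B 0 11136 := a346.trans b347
theorem a348 : B 0 11168 := a347.trans b348
theorem a349 : B 0 11200 := a348.trans b349
theorem a350 : B 0 11232 := a349.trans b350
theorem a351 : B 0 11264 := a350.trans b351
theorem a352 : B 0 11296 := a351.trans b352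
theorem a353 : B 0 11328 := a352.trans b353
theorem a354 : B 0 11360 := a353.trans b354
theorem a355 : B 0 11392 := a354.trans b355
theorem a356 : B 0 11424 := a355.trans b356
theorem a357 : B 0 11456 := a356.trans b357
theorem a358 : B 0 11488 := a357.trans b358
theorem a359 : B 0 11520 := a358.trans b359
theorem a360 : B 0 11552 := a359.trans b360
theorem a361 : B 0 11584 := a360.trans b361
theorem a362 : B 0 11616 := a361.trans b362
theorem a363 : B 0 11648 := a362.trans b363
theorem a364 : B 0 11680 := a363.trans b364
theorem a365 : B 0 11712 := a364.trans b365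
theorem a366 : B 0 11744 := a365.trans b366
theorem a367 : B 0 11776 := a366.trans b367
theorem a368 : B 0 11808 := a367.trans b368
theorem a369 : B 0 11840 := a368.trans b369
theorem a370 : B 0 11872 := a369.trans b370
theorem a371 : B 0 11904 := a370.trans b371
theorem a372 : B 0 11936 := a371.trans b372
theorem a373 : B 0 11968 := a372.trans b373
theorem a374 : B 0 12000 := a373.trans b374
theorem a375 : B 0 12032 := a374.trans b375
theorem a376 : B 0 12064 := a375.trans b376
theorem a377 : B 0 12096 := a376.trans b377
theorem a378 : B 0 12128 := a377.trans b378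
theorem a379 : B 0 12160 := a378.trans b379
theorem a380 : B 0 12192 := a379.trans b380
theorem a381 : B 0 12224 := a380.trans b381
theorem a382 : B 0 12256 := a381.trans b382
theorem a383 : B 0 12288 := a382.trans b383
theorem a384 : B 0 12320 := a383.trans b384
theorem a385 : B 0 12352 := a384.trans b385
theorem a386 : B 0 12384 := a385.trans b386
theorem a387 : B 0 12416 := a386.trans b387
theorem a388 : B 0 12448 := a387.trans b388
theorem a389 : B 0 12480 := a388.trans b389
theorem a390 : B 0 12512 := a389.trans b390
theorem a391 : B 0 12544 := a390.trans b391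
theorem a392 : B 0 12576 := a391.trans b392
theorem a393 : B 0 12608 := a392.trans b393
theorem a394 : B 0 12640 := a393.trans b394
theorem a395 : B 0 12672 := a394.trans b395
theorem a396 : B 0 12704 := a395.trans b396
theorem a397 : B 0 12736 := a396.trans b397
theorem a398 : B 0 12768 := a397.trans b398
theorem a399 : B 0 12800 := a398.trans b399
theorem a400 : B 0 12832 := a399.trans b400
theorem a401 : B 0 12864 := a400.trans b401
theorem a402 : B 0 12896 := a401.trans b402
theorem a403 : B 0 12928 := a402.trans b403
theorem a404 : B 0 12960 := a403.trans b404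
theorem a405 : B 0 12992 := a404.trans b405
theorem a406 : B 0 13024 := a405.trans b406
theorem a407 : B 0 13056 := a406.trans b407
theorem a408 : B 0 13088 := a407.trans b408
theorem a409 : B 0 13120 := a408.trans b409
theorem a410 : B 0 13152 := a409.trans b410
theorem a411 : B 0 13184 := a410.trans b411
theorem a412 : B 0 13216 := a411.trans b412
theorem a413 : B 0 13248 := a412.trans b413
theorem a414 : B 0 13280 := a413.trans b414
theorem a415 : B 0 13312 := a414.trans b415
theorem a416 : B 0 13344 := a415.trans b416
theorem a417 : B 0 13376 := a416.trans b417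
theorem a418 : B 0 13408 := a417.trans b418
theorem a419 : B 0 13440 := a418.trans b419
theorem a420 : B 0 13472 := a419.trans b420
theorem a421 : B 0 13504 := a420.trans b421
theorem a422 : B 0 13536 := a421.trans b422
theorem a423 : B 0 13568 := a422.trans b423
theorem a424 : B 0 13600 := a423.trans b424
theorem a425 : B 0 13632 := a424.trans b425
theorem a426 : B 0 13664 := a425.trans b426
theorem a427 : B 0 13696 := a426.trans b427
theorem a428 : B 0 13728 := a427.trans b428
theorem a429 : B 0 13760 := a428.trans b429
theorem a430 : B 0 13792 := a429.trans b430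
theorem a431 : B 0 13824 := a430.trans b431
theorem a432 : B 0 13856 := a431.trans b432
theorem a433 : B 0 13888 := a432.trans b433
theorem a434 : B 0 13920 := a433.trans b434
theorem a435 : B 0 13952 := a434.trans b435
theorem a436 : B 0 13984 := a435.trans b436
theorem a437 : B 0 14016 := a436.trans b437
theorem a438 : B 0 14048 := a437.trans b438
theorem a439 : B 0 14080 := a438.trans b439
theorem a440 : B 0 14112 := a439.trans b440
theorem a441 : B 0 14144 := a440.trans b441
theorem a442 : B 0 14176 := a441.trans b442
theorem a443 : B 0 14208 := a442.trans b443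
theorem a444 : B 0 14240 := a443.trans b444
theorem a445 : B 0 14272 := a444.trans b445
theorem a446 : B 0 14304 := a445.trans b446
theorem a447 : B 0 14336 := a446.trans b447
theorem a448 : B 0 14368 := a447.trans b448
theorem a449 : B 0 14400 := a448.trans b449
theorem a450 : B 0 14432 := a449.trans b450
theorem a451 : B 0 14464 := a450.trans b451
theorem a452 : B 0 14496 := a451.trans b452
theorem a453 : B 0 14528 := a452.trans b453
theorem a454 : B 0 14560 := a453.trans b454
theorem a455 : B 0 14592 := a454.trans b455
theorem a456 : B 0 14624 := a455.trans b456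
theorem a457 : B 0 14656 := a456.trans b457
theorem a458 : B 0 14688 := a457.trans b458
theorem a459 : B 0 14720 := a458.trans b459
theorem a460 : B 0 14752 := a459.trans b460
theorem a461 : B 0 14784 := a460.trans b461
theorem a462 : B 0 14816 := a461.trans b462
theorem a463 : B 0 14848 := a462.trans b463
theorem a464 : B 0 14880 := a463.trans b464
theorem a465 : B 0 14912 := a464.trans b465
theorem a466 : B 0 14944 := a465.trans b466
theorem a467 : B 0 14976 := a466.trans b467
theorem a468 : B 0 15008 := a467.trans b468
theorem a469 : B 0 15040 := a468.trans b469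
theorem a470 : B 0 15072 := a469.trans b470
theorem a471 : B 0 15104 := a470.trans b471
theorem a472 : B 0 15136 := a471.trans b472
theorem a473 : B 0 15168 := a472.trans b473
theorem a474 : B 0 15200 := a473.trans b474
theorem a475 : B 0 15232 := a474.trans b475
theorem a476 : B 0 15264 := a475.trans b476
theorem a477 : B 0 15296 := a476.trans b477
theorem a478 : B 0 15328 := a477.trans b478
theorem a479 : B 0 15360 := a478.trans b479
theorem a480 : B 0 15392 := a479.trans b480
theorem a481 : B 0 15424 := a480.trans b481
theorem a482 : B 0 15456 := a481.trans b482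
theorem a483 : B 0 15488 := a482.trans b483
theorem a484 : B 0 15520 := a483.trans b484
theorem a485 : B 0 15552 := a484.trans b485
theorem a486 : B 0 15584 := a485.trans b486
theorem a487 : B 0 15616 := a486.trans b487
theorem a488 : B 0 15648 := a487.trans b488
theorem a489 : B 0 15680 := a488.trans b489
theorem a490 : B 0 15712 := a489.trans b490
theorem a491 : B 0 15744 := a490.trans b491
theorem a492 : B 0 15776 := a491.trans b492
theorem a493 : B 0 15808 := a492.trans b493
theorem a494 : B 0 15840 := a493.trans b494
theorem a495 : B 0 15872 := a494.trans b495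
theorem a496 : B 0 15904 := a495.trans b496
theorem a497 : B 0 15936 := a496.trans b497
theorem a498 : B 0 15968 := a497.trans b498
theorem a499 : B 0 16000 := a498.trans b499
theorem a500 : B 0 16032 := a499.trans b500
theorem a501 : B 0 16064 := a500.trans b501
theorem a502 : B 0 16096 := a501.trans b502
theorem a503 : B 0 16128 := a502.trans b503
theorem a504 : B 0 16160 := a503.trans b504
theorem a505 : B 0 16192 := a504.trans b505
theorem a506 : B 0 16224 := a505.trans b506
theorem a507 : B 0 16256 := a506.trans b507
theorem a508 : B 0 16288 := a507.trans b508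
theorem a509 : B 0 16320 := a508.trans b509
theorem a510 : B 0 16352 := a509.trans b510
theorem a511 : B 0 16384 := a510.trans b511
theorem a512 : B 0 16416 := a511.trans b512
theorem a513 : B 0 16448 := a512.trans b513
theorem a514 : B 0 16480 := a513.trans b514
theorem a515 : B 0 16512 := a514.trans b515
theorem a516 : B 0 16544 := a515.trans b516
theorem a517 : B 0 16576 := a516.trans b517
theorem a518 : B 0 16608 := a517.trans b518
theorem a519 : B 0 16640 := a518.trans b519
theorem a520 : B 0 16672 := a519.trans b520
theorem a521 : B 0 16704 := a520.trans b521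
theorem a522 : B 0 16736 := a521.trans b522
theorem a523 : B 0 16768 := a522.trans b523
theorem a524 : B 0 16800 := a523.trans b524
theorem a525 : B 0 16832 := a524.trans b525
theorem a526 : B 0 16864 := a525.trans b526
theorem a527 : B 0 16896 := a526.trans b527
theorem a528 : B 0 16928 := a527.trans b528
theorem a529 : B 0 16960 := a528.trans b529
theorem a530 : B 0 16992 := a529.trans b530
theorem a531 : B 0 17024 := a530.trans b531
theorem a532 : B 0 17056 := a531.trans b532
theorem a533 : B 0 17088 := a532.trans b533
theorem a534 : B 0 17120 := a533.trans b534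
theorem a535 : B 0 17152 := a534.trans b535
theorem a536 : B 0 17184 := a535.trans b536
theorem a537 : B 0 17216 := a536.trans b537
theorem a538 : B 0 17248 := a537.trans b538
theorem a539 : B 0 17280 := a538.trans b539
theorem a540 : B 0 17312 := a539.trans b540
theorem a541 : B 0 17344 := a540.trans b541
theorem a542 : B 0 17376 := a541.trans b542
theorem a543 : B 0 17408 := a542.trans b543
theorem a544 : B 0 17440 := a543.trans b544
theorem a545 : B 0 17472 := a544.trans b545
theorem a546 : B 0 17504 := a545.trans b546
theorem a547 : B 0 17536 := a546.trans b547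
theorem a548 : B 0 17568 := a547.trans b548
theorem a549 : B 0 17600 := a548.trans b549
theorem a550 : B 0 17632 := a549.trans b550
theorem a551 : B 0 17664 := a550.trans b551
theorem a552 : B 0 17696 := a551.trans b552
theorem a553 : B 0 17728 := a552.trans b553
theorem a554 : B 0 17760 := a553.trans b554
theorem a555 : B 0 17792 := a554.trans b555
theorem a556 : B 0 17824 := a555.trans b556
theorem a557 : B 0 17856 := a556.trans b557
theorem a558 : B 0 17888 := a557.trans b558
theorem a559 : B 0 17920 := a558.trans b559
theorem a560 : B 0 17952 := a559.trans b560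
theorem a561 : B 0 17984 := a560.trans b561
theorem a562 : B 0 18016 := a561.trans b562
theorem a563 : B 0 18048 := a562.trans b563
theorem a564 : B 0 18080 := a563.trans b564
theorem a565 : B 0 18112 := a564.trans b565
theorem a566 : B 0 18144 := a565.trans b566
theorem a567 : B 0 18176 := a566.trans b567
theorem a568 : B 0 18208 := a567.trans b568
theorem a569 : B 0 18240 := a568.trans b569
theorem a570 : B 0 18272 := a569.trans b570
theorem a571 : B 0 18304 := a570.trans b571
theorem a572 : B 0 18336 := a571.trans b572
theorem a573 : B 0 18368 := a572.trans b573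
theorem a574 : B 0 18400 := a573.trans b574
theorem a575 : B 0 18432 := a574.trans b575
theorem a576 : B 0 18464 := a575.trans b576
theorem a577 : B 0 18496 := a576.trans b577
theorem a578 : B 0 18528 := a577.trans b578
theorem a579 : B 0 18560 := a578.trans b579
theorem a580 : B 0 18592 := a579.trans b580
theorem a581 : B 0 18624 := a580.trans b581
theorem a582 : B 0 18656 := a581.trans b582
theorem a583 : B 0 18688 := a582.trans b583
theorem a584 : B 0 18720 := a583.trans b584
theorem a585 : B 0 18752 := a584.trans b585
theorem a586 : B 0 18777 := a585.trans b586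

theorem main {Z : ℕ → Pt} (hF : FreeOK [0,3,7,10,15,19]) (R : RZ 22 [0,1,4,7,16,19,22] Z) :
    HCPle (Z '' {i | i < 23}) 6 := by
  by_contra hK
  have hth := tfk_sound hF R hK
  have h1 := a586 (val Z) (base hth) hth (fun k hk => absurd hk (Nat.not_lt_zero k))
  have hl : tgtOK db 18777 [18776] [(0, 0)] = true := by decide +kernel
  exact not_hold_empty _ (tgt_sound hl h1 (0, 0) (by simp))

end Pool.Agent.GCP.F7
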