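import Pool.Agent.GCP.F8_13Db

set_option autoImplicit false
set_option maxRecDepth 100000

/-! # Blocks F8_13B0 (generated) -/

namespace Pool.Agent.GCP.F8_13

open Pool.Agent.GCP DB

theorem b0 : B 0 32 := Blk.of_chk [.t 1 (nat_lit 0) (.ax 1 2 3 5 1), .t 1 (nat_lit 0) (.ax 1 2 3 6 1), .t 1 (nat_lit 0) (.ax 1 2 3 8 1), .t 1 (nat_lit 0) (.ax 1 2 3 9 1), .t 1 (nat_lit 0) (.ax 1 2 3 10 1), .t 1 (nat_lit 0) (.ax 1 2 3 11 1), .t 1 (nat_lit 0) (.ax 1 2 3 12 1), .t 1 (nat_lit 0) (.ax 1 2 3 13 1), .t 1 (nat_lit 0) (.ax 1 2 3 14 1), .t 1 (nat_lit 0) (.ax 1 2 4 5 1), .t 1 (nat_lit 0) (.ax 1 2 4 6 1), .t 1 (nat_lit 0) (.ax 1 2 4 8 1), .t 1 (nat_lit 0) (.ax 1 2 4 9 1), .t 1 (nat_lit 0) (.ax 1 2 4 10 1), .t 1 (nat_lit 0) (.ax 1 2 4 11 1), .t 1 (nat_lit 0) (.ax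 1 2 4 12 1), .t 1 (nat_lit 0) (.ax 1 2 4 13 1), .t 1 (nat_lit 0) (.ax 1 2 4 14 1), .t 1 (nat_lit 0) (.ax 1 2 4 15 1), .t 1 (nat_lit 0) (.ax 1 2 4 16 1), .t 1 (nat_lit 0) (.ax 1 2 4 17 1), .t 1 (nat_lit 0) (.ax 1 2 4 18 1), .t 1 (nat_lit 0) (.ax 1 2 4 19 1), .t 1 (nat_lit 0) (.ax 1 2 4 20 1), .t 1 (nat_lit 0) (.ax 1 2 4 21 1), .t 1 (nat_lit 0) (.ax 1 2 4 22 1), .t 1 (nat_lit 0) (.ax 1 2 5 7 1), .t 1 (nat_lit 0) (.ax 1 2 5 8 1), .t 1 (nat_lit 0) (.ax 1 2 5 9 1), .t 1 (nat_lit 0) (.ax 1 2 5 9 3), .t 1 (nat_lit 0) (.ax 1 2 5 10 1), .t 1 (nat_lit 0) (.ax 1 2 5 11 1)] (by decide +kernel) (by decide +kernel)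
theorem b1 : B 32 64 := Blk.of_chk [.t 1 (nat_lit 0) (.ax 1 2 5 13 1), .t 1 (nat_lit 0) (.ax 1 2 5 22 1), .t 1 (nat_lit 0) (.ax 1 2 6 7 1), .t 1 (nat_lit 0) (.ax 1 2 6 8 1), .t 1 (nat_lit 0) (.ax 1 2 6 9 1), .t 1 (nat_lit 0) (.ax 1 2 6 9 3), .t 1 (nat_lit 0) (.ax 1 2 6 10 1), .t 1 (nat_lit 0) (.ax 1 2 6 11 1), .t 1 (nat_lit 0) (.ax 1 2 6 13 1), .t 1 (nat_lit 0) (.ax 1 2 6 22 1), .t 1 (nat_lit 0) (.ax 1 2 7 8 1), .t 1 (nat_lit 0) (.ax 1 2 7 9 1), .t 1 (nat_lit 0) (.ax 1 2 7 10 1), .t 1 (nat_lit 0) (.ax 1 2 7 11 1), .t 1 (nat_lit 0) (.ax 1 2 7 12 1), .t 1 (nat_lit 0) (.ax 1 2 7 15 1), .t 1 (nat_lit 0) (.ax 1 2 8 9 1), .t 1 (nat_lit 0) (.ax 1 2 8 10 1), .t 1 (nat_lit 0) (.ax 1 2 8 11 1), .t 1 (nat_lit 0) (.ax 1 2 8 12 1), .t 1 (nat_lit 0) (.ax 1 2 8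 12 3), .t 1 (nat_lit 0) (.ax 1 2 8 13 1), .t 1 (nat_lit 0) (.ax 1 2 9 10 1), .t 1 (nat_lit 0) (.ax 1 2 9 11 1), .t 1 (nat_lit 0) (.ax 1 2 9 11 3), .t 1 (nat_lit 0) (.ax 1 2 9 12 1), .t 1 (nat_lit 0) (.ax 1 2 9 13 1), .t 1 (nat_lit 0) (.ax 1 2 9 14 1), .t 1 (nat_lit 0) (.ax 1 2 9 15 1), .t 1 (nat_lit 0) (.ax 1 2 10 11 1), .t 1 (nat_lit 0) (.ax 1 2 10 12 1), .t 1 (nat_lit 0) (.ax 1 2 10 13 1)] (by decide +kernel) (by decide +kernel)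
theorem b2 : B 64 96 := Blk.of_chk [.t 1 (nat_lit 0) (.ax 1 2 10 14 1), .t 1 (nat_lit 0) (.ax 1 2 11 12 1), .t 1 (nat_lit 0) (.ax 1 2 11 13 1), .t 1 (nat_lit 0) (.ax 1 2 12 13 1), .t 1 (nat_lit 0) (.ax 1 2 13 14 1), .t 1 (nat_lit 0) (.ax 1 2 13 15 1), .t 1 (nat_lit 0) (.ax 1 2 13 17 1), .t 1 (nat_lit 0) (.ax 1 2 13 18 1), .t 1 (nat_lit 0) (.ax 1 2 13 19 1), .t 1 (nat_lit 0) (.ax 1 2 13 20 1), .t 1 (nat_lit 0) (.ax 1 2 13 21 1), .t 1 (nat_lit 0) (.ax 1 2 13 22 1), .t 1 (nat_lit 0) (.ax 1 3 5 6 0), .t 1 (nat_lit 0) (.ax 1 3 5 8 0), .t 1 (nat_lit 0) (.ax 1 3 5 9 0), .t 1 (nat_lit 0) (.ax 1 3 5 10 0), .t 1 (nat_lit 0) (.ax 1 3 5 11 0), .t 1 (nat_lit 0) (.ax 1 3 5 12 0), .t 1 (nat_lit 0) (.ax 1 3 5 13 0), .t 1 (nat_lit 0) (.ax 1 3 6 8 0), .t 1 (nat_lit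 0) (.ax 1 3 6 9 0), .t 1 (nat_lit 0) (.ax 1 3 6 10 0), .t 1 (nat_lit 0) (.ax 1 3 6 10 2), .t 1 (nat_lit 0) (.ax 1 3 6 11 2), .t 1 (nat_lit 0) (.ax 1 3 8 9 0), .t 1 (nat_lit 0) (.ax 1 3 8 10 0), .t 1 (nat_lit 0) (.ax 1 3 8 10 2), .t 1 (nat_lit 0) (.ax 1 3 8 11 0), .t 1 (nat_lit 0) (.ax 1 3 8 12 0), .t 1 (nat_lit 0) (.ax 1 3 8 13 0), .t 1 (nat_lit 0) (.ax 1 3 8 14 0), .t 1 (nat_lit 0) (.ax 1 3 8 15 0)] (by decide +kernel) (by decide +kernel)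
theorem b3 : B 96 128 := Blk.of_chk [.t 1 (nat_lit 0) (.ax 1 3 9 10 0), .t 1 (nat_lit 0) (.ax 1 3 9 10 2), .t 1 (nat_lit 0) (.ax 1 3 9 11 0), .t 1 (nat_lit 0) (.ax 1 3 9 12 0), .t 1 (nat_lit 0) (.ax 1 3 9 12 2), .t 1 (nat_lit 0) (.ax 1 3 9 13 0), .t 1 (nat_lit 0) (.ax 1 3 9 15 0), .t 1 (nat_lit 0) (.ax 1 3 10 11 0), .t 1 (nat_lit 0) (.ax 1 3 10 11 2), .t 1 (nat_lit 0) (.ax 1 3 10 12 0), .t 1 (nat_lit 0) (.ax 1 3 10 13 0), .t 1 (nat_lit 0) (.ax 1 3 10 14 0), .t 1 (nat_lit 0) (.ax 1 3 10 15 0), .t 1 (nat_lit 0) (.ax 1 3 11 12 0), .t 1 (nat_lit 0) (.ax 1 3 11 13 0), .t 1 (nat_lit 0) (.ax 1 3 12 13 0), .t 1 (nat_lit 0) (.ax 1 4 5 6 0), .t 1 (nat_lit 0) (.ax 1 4 5 8 0), .t 1 (nat_lit 0) (.ax 1 4 5 9 0), .t 1 (nat_lit 0) (.ax 1 4 5 9 2), .t 1 (nat_lit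 0) (.ax 1 4 5 10 0), .t 1 (nat_lit 0) (.ax 1 4 5 10 2), .t 1 (nat_lit 0) (.ax 1 4 5 11 0), .t 1 (nat_lit 0) (.ax 1 4 5 12 0), .t 1 (nat_lit 0) (.ax 1 4 5 13 0), .t 1 (nat_lit 0) (.ax 1 4 6 8 0), .t 1 (nat_lit 0) (.ax 1 4 6 9 0), .t 1 (nat_lit 0) (.ax 1 4 6 10 0), .t 1 (nat_lit 0) (.ax 1 4 6 11 0), .t 1 (nat_lit 0) (.ax 1 4 6 12 0), .t 1 (nat_lit 0) (.ax 1 4 6 13 0), .t 1 (nat_lit 0) (.ax 1 4 7 8 0)] (by decide +kernel) (by decide +kernel)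
theorem b4 : B 128 160 := Blk.of_chk [.t 1 (nat_lit 0) (.ax 1 4 7 9 0), .t 1 (nat_lit 0) (.ax 1 4 7 10 0), .t 1 (nat_lit 0) (.ax 1 4 7 11 0), .t 1 (nat_lit 0) (.ax 1 4 7 12 0), .t 1 (nat_lit 0) (.ax 1 4 7 14 0), .t 1 (nat_lit 0) (.ax 1 4 7 15 0), .t 1 (nat_lit 0) (.ax 1 4 7 16 0), .t 1 (nat_lit 0) (.ax 1 4 7 17 0), .t 1 (nat_lit 0) (.ax 1 4 7 18 0), .t 1 (nat_lit 0) (.ax 1 4 7 19 0), .t 1 (nat_lit 0) (.ax 1 4 7 20 0), .t 1 (nat_lit 0) (.ax 1 4 7 21 0), .t 1 (nat_lit 0) (.ax 1 4 7 22 0), .t 1 (nat_lit 0) (.ax 1 4 8 9 0), .t 1 (nat_lit 0) (.ax 1 4 8 9 2), .t 1 (nat_lit 0) (.ax 1 4 8 10 0), .t 1 (nat_lit 0) (.ax 1 4 8 11 0), .t 1 (nat_lit 0) (.ax 1 4 8 12 0), .t 1 (nat_lit 0) (.ax 1 4 8 13 0), .t 1 (nat_lit 0) (.ax 1 4 9 10 0), .t 1 (nat_lit 0) (.ax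 1 4 9 11 0), .t 1 (nat_lit 0) (.ax 1 4 9 11 2), .t 1 (nat_lit 0) (.ax 1 4 9 12 0), .t 1 (nat_lit 0) (.ax 1 4 9 13 0), .t 1 (nat_lit 0) (.ax 1 4 9 14 0), .t 1 (nat_lit 0) (.ax 1 4 9 19 0), .t 1 (nat_lit 0) (.ax 1 4 10 11 0), .t 1 (nat_lit 0) (.ax 1 4 10 12 0), .t 1 (nat_lit 0) (.ax 1 4 10 13 0), .t 1 (nat_lit 0) (.ax 1 4 11 12 0), .t 1 (nat_lit 0) (.ax 1 4 11 13 0), .t 1 (nat_lit 0) (.ax 1 4 11 14 0)] (by decide +kernel) (by decide +kernel)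
theorem b5 : B 160 192 := Blk.of_chk [.t 1 (nat_lit 0) (.ax 1 4 11 19 0), .t 1 (nat_lit 0) (.ax 1 4 12 13 0), .t 1 (nat_lit 0) (.ax 1 4 14 16 0), .t 1 (nat_lit 0) (.ax 1 4 15 16 0), .t 1 (nat_lit 0) (.ax 1 5 6 7 1), .t 1 (nat_lit 0) (.ax 1 5 6 7 6), .t 1 (nat_lit 0) (.ax 1 5 6 7 7), .t 1 (nat_lit 0) (.ax 1 5 6 8 0), .t 1 (nat_lit 0) (.ax 1 5 6 8 3), .t 1 (nat_lit 0) (.ax 1 5 6 9 0), .t 1 (nat_lit 0) (.ax 1 5 6 9 3), .t 1 (nat_lit 0) (.ax 1 5 6 10 0), .t 1 (nat_lit 0) (.ax 1 5 6 10 2), .t 1 (nat_lit 0) (.ax 1 5 6 10 3), .t 1 (nat_lit 0) (.ax 1 5 6 11 0), .t 1 (nat_lit 0) (.ax 1 5 6 11 3), .t 1 (nat_lit 0) (.ax 1 5 6 12 0), .t 1 (nat_lit 0) (.ax 1 5 6 12 3), .t 1 (nat_lit 0) (.ax 1 5 6 13 0), .t 1 (nat_lit 0) (.ax 1 5 6 13 2), .t 1 (nat_lit 0) (.ax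 1 5 6 13 3), .t 1 (nat_lit 0) (.ax 1 5 6 14 3), .t 1 (nat_lit 0) (.ax 1 5 7 8 4), .t 1 (nat_lit 0) (.ax 1 5 7 9 4), .t 1 (nat_lit 0) (.ax 1 5 7 10 4), .t 1 (nat_lit 0) (.ax 1 5 7 11 4), .t 1 (nat_lit 0) (.ax 1 5 7 12 4), .t 1 (nat_lit 0) (.ax 1 5 7 13 4), .t 1 (nat_lit 0) (.ax 1 5 7 14 4), .t 1 (nat_lit 0) (.ax 1 5 7 15 4), .t 1 (nat_lit 0) (.ax 1 5 8 9 0), .t 1 (nat_lit 0) (.ax 1 5 8 9 2)] (by decide +kernel) (by decide +kernel)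
theorem b6 : B 192 224 := Blk.of_chk [.t 1 (nat_lit 0) (.ax 1 5 8 9 3), .t 1 (nat_lit 0) (.ax 1 5 8 9 4), .t 1 (nat_lit 0) (.ax 1 5 8 10 0), .t 1 (nat_lit 0) (.ax 1 5 8 10 1), .t 1 (nat_lit 0) (.ax 1 5 8 10 2), .t 1 (nat_lit 0) (.ax 1 5 8 10 3), .t 1 (nat_lit 0) (.ax 1 5 8 10 4), .t 1 (nat_lit 0) (.ax 1 5 8 11 0), .t 1 (nat_lit 0) (.ax 1 5 8 11 2), .t 1 (nat_lit 0) (.ax 1 5 8 11 3), .t 1 (nat_lit 0) (.ax 1 5 8 12 2), .t 1 (nat_lit 0) (.ax 1 5 8 12 3), .t 1 (nat_lit 0) (.ax 1 5 8 13 0), .t 1 (nat_lit 0) (.ax 1 5 8 13 1), .t 1 (nat_lit 0) (.ax 1 5 8 13 2), .t 1 (nat_lit 0) (.ax 1 5 8 13 4), .t 1 (nat_lit 0) (.ax 1 5 8 13 6), .t 1 (nat_lit 0) (.ax 1 5 8 13 7), .t 1 (nat_lit 0) (.ax 1 5 8 14 3), .t 1 (nat_lit 0) (.ax 1 5 9 10 0), .t 1 (nat_lit 0) (.ax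 1 5 9 10 2), .t 1 (nat_lit 0) (.ax 1 5 9 10 3), .t 1 (nat_lit 0) (.ax 1 5 9 10 4), .t 1 (nat_lit 0) (.ax 1 5 9 10 5), .t 1 (nat_lit 0) (.ax 1 5 9 10 6), .t 1 (nat_lit 0) (.ax 1 5 9 10 7), .t 1 (nat_lit 0) (.ax 1 5 9 11 1), .t 1 (nat_lit 0) (.ax 1 5 9 11 2), .t 1 (nat_lit 0) (.ax 1 5 9 11 3), .t 1 (nat_lit 0) (.ax 1 5 9 11 4), .t 1 (nat_lit 0) (.ax 1 5 9 11 5), .t 1 (nat_lit 0) (.ax 1 5 9 12 2)] (by decide +kernel) (by decide +kernel)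
theorem b7 : B 224 256 := Blk.of_chk [.t 1 (nat_lit 0) (.ax 1 5 9 13 0), .t 1 (nat_lit 0) (.ax 1 5 9 13 1), .t 1 (nat_lit 0) (.ax 1 5 9 13 2), .t 1 (nat_lit 0) (.ax 1 5 9 13 4), .t 1 (nat_lit 0) (.ax 1 5 9 13 6), .t 1 (nat_lit 0) (.ax 1 5 9 13 7), .t 1 (nat_lit 0) (.ax 1 5 9 14 3), .t 1 (nat_lit 0) (.ax 1 5 9 15 3), .t 1 (nat_lit 0) (.ax 1 5 9 15 7), .t 1 (nat_lit 0) (.ax 1 5 9 19 6), .t 1 (nat_lit 0) (.ax 1 5 9 21 7), .t 1 (nat_lit 0) (.ax 1 5 9 22 7), .t 1 (nat_lit 0) (.ax 1 5 10 11 0), .t 1 (nat_lit 0) (.ax 1 5 10 11 2), .t 1 (nat_lit 0) (.ax 1 5 10 11 3), .t 1 (nat_lit 0) (.ax 1 5 10 11 4), .t 1 (nat_lit 0) (.ax 1 5 10 12 1), .t 1 (nat_lit 0) (.ax 1 5 10 12 2), .t 1 (nat_lit 0) (.ax 1 5 10 12 3), .t 1 (nat_lit 0) (.ax 1 5 10 12 4), .t 1 (nat_lit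 0) (.ax 1 5 10 13 0), .t 1 (nat_lit 0) (.ax 1 5 10 13 1), .t 1 (nat_lit 0) (.ax 1 5 10 13 2), .t 1 (nat_lit 0) (.ax 1 5 10 13 6), .t 1 (nat_lit 0) (.ax 1 5 10 13 7), .t 1 (nat_lit 0) (.ax 1 5 10 14 3), .t 1 (nat_lit 0) (.ax 1 5 10 15 3), .t 1 (nat_lit 0) (.ax 1 5 10 16 3), .t 1 (nat_lit 0) (.ax 1 5 10 17 3), .t 1 (nat_lit 0) (.ax 1 5 10 18 3), .t 1 (nat_lit 0) (.ax 1 5 10 19 3), .t 1 (nat_lit 0) (.ax 1 5 10 20 3)] (by decide +kernel) (by decide +kernel)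
theorem b8 : B 256 288 := Blk.of_chk [.t 1 (nat_lit 0) (.ax 1 5 10 21 5), .t 1 (nat_lit 0) (.ax 1 5 10 21 7), .t 1 (nat_lit 0) (.ax 1 5 10 22 5), .t 1 (nat_lit 0) (.ax 1 5 10 22 7), .t 1 (nat_lit 0) (.ax 1 5 11 12 2), .t 1 (nat_lit 0) (.ax 1 5 11 12 3), .t 1 (nat_lit 0) (.ax 1 5 11 13 0), .t 1 (nat_lit 0) (.ax 1 5 11 13 1), .t 1 (nat_lit 0) (.ax 1 5 11 13 2), .t 1 (nat_lit 0) (.ax 1 5 11 13 4), .t 1 (nat_lit 0) (.ax 1 5 11 13 6), .t 1 (nat_lit 0) (.ax 1 5 11 13 7), .t 1 (nat_lit 0) (.ax 1 5 11 14 3), .t 1 (nat_lit 0) (.ax 1 5 11 14 7), .t 1 (nat_lit 0) (.ax 1 5 11 15 3), .t 1 (nat_lit 0) (.ax 1 5 11 16 3), .t 1 (nat_lit 0) (.ax 1 5 11 17 3), .t 1 (nat_lit 0) (.ax 1 5 11 18 3), .t 1 (nat_lit 0) (.ax 1 5 11 19 3), .t 1 (nat_lit 0) (.ax 1 5 11 20 3),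 .t 1 (nat_lit 0) (.ax 1 5 11 21 5), .t 1 (nat_lit 0) (.ax 1 5 11 22 5), .t 1 (nat_lit 0) (.ax 1 5 12 13 0), .t 1 (nat_lit 0) (.ax 1 5 12 13 1), .t 1 (nat_lit 0) (.ax 1 5 12 13 2), .t 1 (nat_lit 0) (.ax 1 5 12 13 6), .t 1 (nat_lit 0) (.ax 1 5 12 13 7), .t 1 (nat_lit 0) (.ax 1 5 12 19 3), .t 1 (nat_lit 0) (.ax 1 5 12 20 3), .t 1 (nat_lit 0) (.ax 1 5 12 22 5), .t 1 (nat_lit 0) (.ax 1 5 13 14 4), .t 1 (nat_lit 0) (.ax 1 5 13 15 4)] (by decide +kernel) (by decide +kernel)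
theorem b9 : B 288 320 := Blk.of_chk [.t 1 (nat_lit 0) (.ax 1 5 21 22 5), .t 1 (nat_lit 0) (.ax 1 6 7 8 4), .t 1 (nat_lit 0) (.ax 1 6 7 9 4), .t 1 (nat_lit 0) (.ax 1 6 7 10 4), .t 1 (nat_lit 0) (.ax 1 6 7 11 4), .t 1 (nat_lit 0) (.ax 1 6 7 12 4), .t 1 (nat_lit 0) (.ax 1 6 7 13 4), .t 1 (nat_lit 0) (.ax 1 6 7 14 4), .t 1 (nat_lit 0) (.ax 1 6 7 15 4), .t 1 (nat_lit 0) (.ax 1 6 7 19 4), .t 1 (nat_lit 0) (.ax 1 6 8 9 0), .t 1 (nat_lit 0) (.ax 1 6 8 9 1), .t 1 (nat_lit 0) (.ax 1 6 8 9 2), .t 1 (nat_lit 0) (.ax 1 6 8 9 3), .t 1 (nat_lit 0) (.ax 1 6 8 9 4), .t 1 (nat_lit 0) (.ax 1 6 8 9 5), .t 1 (nat_lit 0) (.ax 1 6 8 9 7), .t 1 (nat_lit 0) (.ax 1 6 8 10 0), .t 1 (nat_lit 0) (.ax 1 6 8 10 1), .t 1 (nat_lit 0) (.ax 1 6 8 10 2), .t 1 (nat_lit 0) (.ax 1 6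 8 10 3), .t 1 (nat_lit 0) (.ax 1 6 8 10 4), .t 1 (nat_lit 0) (.ax 1 6 8 10 6), .t 1 (nat_lit 0) (.ax 1 6 8 11 0), .t 1 (nat_lit 0) (.ax 1 6 8 11 2), .t 1 (nat_lit 0) (.ax 1 6 8 11 3), .t 1 (nat_lit 0) (.ax 1 6 8 11 4), .t 1 (nat_lit 0) (.ax 1 6 8 12 3), .t 1 (nat_lit 0) (.ax 1 6 8 13 0), .t 1 (nat_lit 0) (.ax 1 6 8 13 1), .t 1 (nat_lit 0) (.ax 1 6 8 13 2), .t 1 (nat_lit 0) (.ax 1 6 8 13 6)] (by decide +kernel) (by decide +kernel)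
theorem b10 : B 320 352 := Blk.of_chk [.t 1 (nat_lit 0) (.ax 1 6 8 13 7), .t 1 (nat_lit 0) (.ax 1 6 8 14 3), .t 1 (nat_lit 0) (.ax 1 6 8 16 3), .t 1 (nat_lit 0) (.ax 1 6 9 10 0), .t 1 (nat_lit 0) (.ax 1 6 9 10 2), .t 1 (nat_lit 0) (.ax 1 6 9 10 3), .t 1 (nat_lit 0) (.ax 1 6 9 10 4), .t 1 (nat_lit 0) (.ax 1 6 9 10 5), .t 1 (nat_lit 0) (.ax 1 6 9 10 7), .t 1 (nat_lit 0) (.ax 1 6 9 11 0), .t 1 (nat_lit 0) (.ax 1 6 9 11 2), .t 1 (nat_lit 0) (.ax 1 6 9 11 3), .t 1 (nat_lit 0) (.ax 1 6 9 11 4), .t 1 (nat_lit 0) (.ax 1 6 9 11 6), .t 1 (nat_lit 0) (.ax 1 6 9 11 7), .t 1 (nat_lit 0) (.ax 1 6 9 12 2), .t 1 (nat_lit 0) (.ax 1 6 9 12 3), .t 1 (nat_lit 0) (.ax 1 6 9 13 0), .t 1 (nat_lit 0) (.ax 1 6 9 13 1), .t 1 (nat_lit 0) (.ax 1 6 9 13 2), .t 1 (nat_lit 0)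 (.ax 1 6 9 13 6), .t 1 (nat_lit 0) (.ax 1 6 9 13 7), .t 1 (nat_lit 0) (.ax 1 6 9 14 5), .t 1 (nat_lit 0) (.ax 1 6 9 15 3), .t 1 (nat_lit 0) (.ax 1 6 9 21 5), .t 1 (nat_lit 0) (.ax 1 6 9 21 7), .t 1 (nat_lit 0) (.ax 1 6 9 22 5), .t 1 (nat_lit 0) (.ax 1 6 9 22 7), .t 1 (nat_lit 0) (.ax 1 6 10 11 0), .t 1 (nat_lit 0) (.ax 1 6 10 11 2), .t 1 (nat_lit 0) (.ax 1 6 10 11 3), .t 1 (nat_lit 0) (.ax 1 6 10 11 4)] (by decide +kernel) (by decide +kernel)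
theorem b11 : B 352 384 := Blk.of_chk [.t 1 (nat_lit 0) (.ax 1 6 10 12 0), .t 1 (nat_lit 0) (.ax 1 6 10 12 2), .t 1 (nat_lit 0) (.ax 1 6 10 13 0), .t 1 (nat_lit 0) (.ax 1 6 10 13 1), .t 1 (nat_lit 0) (.ax 1 6 10 13 2), .t 1 (nat_lit 0) (.ax 1 6 10 13 4), .t 1 (nat_lit 0) (.ax 1 6 10 13 6), .t 1 (nat_lit 0) (.ax 1 6 10 13 7), .t 1 (nat_lit 0) (.ax 1 6 10 14 3), .t 1 (nat_lit 0) (.ax 1 6 10 14 5), .t 1 (nat_lit 0) (.ax 1 6 10 14 6), .t 1 (nat_lit 0) (.ax 1 6 10 15 7), .t 1 (nat_lit 0) (.ax 1 6 10 21 5), .t 1 (nat_lit 0) (.ax 1 6 10 21 7), .t 1 (nat_lit 0) (.ax 1 6 10 22 5), .t 1 (nat_lit 0) (.ax 1 6 10 22 7), .t 1 (nat_lit 0) (.ax 1 6 11 12 0), .t 1 (nat_lit 0) (.ax 1 6 11 12 2), .t 1 (nat_lit 0) (.ax 1 6 11 12 3), .t 1 (nat_lit 0) (.ax 1 6 11 13 0),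 .t 1 (nat_lit 0) (.ax 1 6 11 13 1), .t 1 (nat_lit 0) (.ax 1 6 11 13 2), .t 1 (nat_lit 0) (.ax 1 6 11 13 6), .t 1 (nat_lit 0) (.ax 1 6 11 13 7), .t 1 (nat_lit 0) (.ax 1 6 12 13 0), .t 1 (nat_lit 0) (.ax 1 6 12 13 1), .t 1 (nat_lit 0) (.ax 1 6 12 13 2), .t 1 (nat_lit 0) (.ax 1 6 12 13 6), .t 1 (nat_lit 0) (.ax 1 6 21 22 5), .t 1 (nat_lit 0) (.ax 1 7 8 9 0), .t 1 (nat_lit 0) (.ax 1 7 8 10 0), .t 1 (nat_lit 0) (.ax 1 7 8 11 0)] (by decide +kernel) (by decide +kernel)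
theorem b12 : B 384 416 := Blk.of_chk [.t 1 (nat_lit 0) (.ax 1 7 8 12 0), .t 1 (nat_lit 0) (.ax 1 7 9 10 0), .t 1 (nat_lit 0) (.ax 1 7 9 11 0), .t 1 (nat_lit 0) (.ax 1 7 9 11 2), .t 1 (nat_lit 0) (.ax 1 7 9 12 0), .t 1 (nat_lit 0) (.ax 1 7 9 14 0), .t 1 (nat_lit 0) (.ax 1 7 10 11 0), .t 1 (nat_lit 0) (.ax 1 7 10 12 0), .t 1 (nat_lit 0) (.ax 1 7 11 12 0), .t 1 (nat_lit 0) (.ax 1 7 13 14 0), .t 1 (nat_lit 0) (.ax 1 7 13 15 0), .t 1 (nat_lit 0) (.ax 1 7 13 17 0), .t 1 (nat_lit 0) (.ax 1 7 13 18 0), .t 1 (nat_lit 0) (.ax 1 7 13 19 0), .t 1 (nat_lit 0) (.ax 1 7 13 20 0), .t 1 (nat_lit 0) (.ax 1 7 13 21 0), .t 1 (nat_lit 0) (.ax 1 7 13 22 0), .t 1 (nat_lit 0) (.ax 1 7 15 16 0), .t 1 (nat_lit 0) (.ax 1 8 9 10 0), .t 1 (nat_lit 0) (.ax 1 8 9 10 1), .t 1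 (nat_lit 0) (.ax 1 8 9 10 2), .t 1 (nat_lit 0) (.ax 1 8 9 10 3), .t 1 (nat_lit 0) (.ax 1 8 9 10 4), .t 1 (nat_lit 0) (.ax 1 8 9 10 5), .t 1 (nat_lit 0) (.ax 1 8 9 10 6), .t 1 (nat_lit 0) (.ax 1 8 9 10 7), .t 1 (nat_lit 0) (.ax 1 8 9 11 0), .t 1 (nat_lit 0) (.ax 1 8 9 11 1), .t 1 (nat_lit 0) (.ax 1 8 9 11 2), .t 1 (nat_lit 0) (.ax 1 8 9 11 3), .t 1 (nat_lit 0) (.ax 1 8 9 11 4), .t 1 (nat_lit 0) (.ax 1 8 9 11 5)] (by decide +kernel) (by decide +kernel)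
theorem b13 : B 416 448 := Blk.of_chk [.t 1 (nat_lit 0) (.ax 1 8 9 12 2), .t 1 (nat_lit 0) (.ax 1 8 9 13 0), .t 1 (nat_lit 0) (.ax 1 8 9 13 1), .t 1 (nat_lit 0) (.ax 1 8 9 13 2), .t 1 (nat_lit 0) (.ax 1 8 9 13 3), .t 1 (nat_lit 0) (.ax 1 8 9 13 4), .t 1 (nat_lit 0) (.ax 1 8 9 13 5), .t 1 (nat_lit 0) (.ax 1 8 9 13 6), .t 1 (nat_lit 0) (.ax 1 8 9 13 7), .t 1 (nat_lit 0) (.ax 1 8 9 14 0), .t 1 (nat_lit 0) (.ax 1 8 9 14 2), .t 1 (nat_lit 0) (.ax 1 8 9 14 3), .t 1 (nat_lit 0) (.ax 1 8 9 14 6), .t 1 (nat_lit 0) (.ax 1 8 9 15 3), .t 1 (nat_lit 0) (.ax 1 8 9 15 6), .t 1 (nat_lit 0) (.ax 1 8 9 16 3), .t 1 (nat_lit 0) (.ax 1 8 9 16 6), .t 1 (nat_lit 0) (.ax 1 8 9 17 3), .t 1 (nat_lit 0) (.ax 1 8 9 17 6), .t 1 (nat_lit 0) (.ax 1 8 9 18 3), .t 1 (nat_lit 0)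 (.ax 1 8 9 18 6), .t 1 (nat_lit 0) (.ax 1 8 9 19 3), .t 1 (nat_lit 0) (.ax 1 8 9 19 6), .t 1 (nat_lit 0) (.ax 1 8 9 20 3), .t 1 (nat_lit 0) (.ax 1 8 9 20 6), .t 1 (nat_lit 0) (.ax 1 8 9 21 3), .t 1 (nat_lit 0) (.ax 1 8 9 21 6), .t 1 (nat_lit 0) (.ax 1 8 9 22 3), .t 1 (nat_lit 0) (.ax 1 8 9 22 6), .t 1 (nat_lit 0) (.ax 1 8 10 11 0), .t 1 (nat_lit 0) (.ax 1 8 10 11 1), .t 1 (nat_lit 0) (.ax 1 8 10 11 2)] (by decide +kernel) (by decide +kernel)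
theorem b14 : B 448 480 := Blk.of_chk [.t 1 (nat_lit 0) (.ax 1 8 10 11 3), .t 1 (nat_lit 0) (.ax 1 8 10 11 4), .t 1 (nat_lit 0) (.ax 1 8 10 11 5), .t 1 (nat_lit 0) (.ax 1 8 10 11 6), .t 1 (nat_lit 0) (.ax 1 8 10 11 7), .t 1 (nat_lit 0) (.ax 1 8 10 12 1), .t 1 (nat_lit 0) (.ax 1 8 10 12 2), .t 1 (nat_lit 0) (.ax 1 8 10 12 3), .t 1 (nat_lit 0) (.ax 1 8 10 12 4), .t 1 (nat_lit 0) (.ax 1 8 10 13 0), .t 1 (nat_lit 0) (.ax 1 8 10 13 1), .t 1 (nat_lit 0) (.ax 1 8 10 13 2), .t 1 (nat_lit 0) (.ax 1 8 10 13 5), .t 1 (nat_lit 0) (.ax 1 8 10 13 6), .t 1 (nat_lit 0) (.ax 1 8 10 13 7), .t 1 (nat_lit 0) (.ax 1 8 10 14 2), .t 1 (nat_lit 0) (.ax 1 8 10 14 3), .t 1 (nat_lit 0) (.ax 1 8 10 14 4), .t 1 (nat_lit 0) (.ax 1 8 10 15 0), .t 1 (nat_lit 0) (.ax 1 8 10 15 2),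 .t 1 (nat_lit 0) (.ax 1 8 10 15 3), .t 1 (nat_lit 0) (.ax 1 8 10 16 3), .t 1 (nat_lit 0) (.ax 1 8 10 17 2), .t 1 (nat_lit 0) (.ax 1 8 10 17 3), .t 1 (nat_lit 0) (.ax 1 8 10 18 2), .t 1 (nat_lit 0) (.ax 1 8 10 18 3), .t 1 (nat_lit 0) (.ax 1 8 10 19 3), .t 1 (nat_lit 0) (.ax 1 8 10 20 3), .t 1 (nat_lit 0) (.ax 1 8 11 12 2), .t 1 (nat_lit 0) (.ax 1 8 11 12 3), .t 1 (nat_lit 0) (.ax 1 8 11 12 4), .t 1 (nat_lit 0) (.ax 1 8 11 12 6)] (by decide +kernel) (by decide +kernel)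
theorem b15 : B 480 512 := Blk.of_chk [.t 1 (nat_lit 0) (.ax 1 8 11 13 0), .t 1 (nat_lit 0) (.ax 1 8 11 13 1), .t 1 (nat_lit 0) (.ax 1 8 11 13 2), .t 1 (nat_lit 0) (.ax 1 8 11 13 3), .t 1 (nat_lit 0) (.ax 1 8 11 13 6), .t 1 (nat_lit 0) (.ax 1 8 11 13 7), .t 1 (nat_lit 0) (.ax 1 8 11 14 0), .t 1 (nat_lit 0) (.ax 1 8 11 14 4), .t 1 (nat_lit 0) (.ax 1 8 11 14 5), .t 1 (nat_lit 0) (.ax 1 8 11 14 6), .t 1 (nat_lit 0) (.ax 1 8 11 15 3), .t 1 (nat_lit 0) (.ax 1 8 11 15 6), .t 1 (nat_lit 0) (.ax 1 8 12 13 0), .t 1 (nat_lit 0) (.ax 1 8 12 13 1), .t 1 (nat_lit 0) (.ax 1 8 12 13 2), .t 1 (nat_lit 0) (.ax 1 8 12 13 6), .t 1 (nat_lit 0) (.ax 1 8 12 13 7), .t 1 (nat_lit 0) (.ax 1 8 12 14 1), .t 1 (nat_lit 0) (.ax 1 8 12 15 3), .t 1 (nat_lit 0) (.ax 1 8 13 14 4),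 .t 1 (nat_lit 0) (.ax 1 8 13 15 4), .t 1 (nat_lit 0) (.ax 1 8 13 16 4), .t 1 (nat_lit 0) (.ax 1 8 13 19 4), .t 1 (nat_lit 0) (.ax 1 8 14 15 2), .t 1 (nat_lit 0) (.ax 1 8 14 15 6), .t 1 (nat_lit 0) (.ax 1 8 14 15 7), .t 1 (nat_lit 0) (.ax 1 8 14 16 6), .t 1 (nat_lit 0) (.ax 1 8 14 17 2), .t 1 (nat_lit 0) (.ax 1 8 14 17 6), .t 1 (nat_lit 0) (.ax 1 8 14 18 2), .t 1 (nat_lit 0) (.ax 1 8 14 18 6), .t 1 (nat_lit 0) (.ax 1 8 14 19 2)] (by decide +kernel) (by decide +kernel)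
theorem b16 : B 512 544 := Blk.of_chk [.t 1 (nat_lit 0) (.ax 1 8 14 19 6), .t 1 (nat_lit 0) (.ax 1 8 14 20 2), .t 1 (nat_lit 0) (.ax 1 8 14 20 6), .t 1 (nat_lit 0) (.ax 1 8 14 21 6), .t 1 (nat_lit 0) (.ax 1 8 14 22 6), .t 1 (nat_lit 0) (.ax 1 8 15 16 6), .t 1 (nat_lit 0) (.ax 1 8 15 17 6), .t 1 (nat_lit 0) (.ax 1 8 15 18 6), .t 1 (nat_lit 0) (.ax 1 8 15 19 6), .t 1 (nat_lit 0) (.ax 1 8 15 20 6), .t 1 (nat_lit 0) (.ax 1 8 15 21 6), .t 1 (nat_lit 0) (.ax 1 8 15 22 6), .t 1 (nat_lit 0) (.ax 1 9 10 11 0), .t 1 (nat_lit 0) (.ax 1 9 10 11 1), .t 1 (nat_lit 0) (.ax 1 9 10 11 2), .t 1 (nat_lit 0) (.ax 1 9 10 11 3), .t 1 (nat_lit 0) (.ax 1 9 10 11 4), .t 1 (nat_lit 0) (.ax 1 9 10 11 5), .t 1 (nat_lit 0) (.ax 1 9 10 11 6), .t 1 (nat_lit 0) (.ax 1 9 10 11 7),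 .t 1 (nat_lit 0) (.ax 1 9 10 12 2), .t 1 (nat_lit 0) (.ax 1 9 10 12 3), .t 1 (nat_lit 0) (.ax 1 9 10 12 4), .t 1 (nat_lit 0) (.ax 1 9 10 12 6), .t 1 (nat_lit 0) (.ax 1 9 10 13 0), .t 1 (nat_lit 0) (.ax 1 9 10 13 1), .t 1 (nat_lit 0) (.ax 1 9 10 13 2), .t 1 (nat_lit 0) (.ax 1 9 10 13 4), .t 1 (nat_lit 0) (.ax 1 9 10 13 6), .t 1 (nat_lit 0) (.ax 1 9 10 13 7), .t 1 (nat_lit 0) (.ax 1 9 10 14 3), .t 1 (nat_lit 0) (.ax 1 9 10 14 7)] (by decide +kernel) (by decide +kernel)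
theorem b17 : B 544 576 := Blk.of_chk [.t 1 (nat_lit 0) (.ax 1 9 10 15 0), .t 1 (nat_lit 0) (.ax 1 9 10 15 3), .t 1 (nat_lit 0) (.ax 1 9 10 15 6), .t 1 (nat_lit 0) (.ax 1 9 10 16 3), .t 1 (nat_lit 0) (.ax 1 9 10 17 3), .t 1 (nat_lit 0) (.ax 1 9 10 18 3), .t 1 (nat_lit 0) (.ax 1 9 10 19 3), .t 1 (nat_lit 0) (.ax 1 9 10 20 3), .t 1 (nat_lit 0) (.ax 1 9 10 21 0), .t 1 (nat_lit 0) (.ax 1 9 10 21 3), .t 1 (nat_lit 0) (.ax 1 9 10 21 7), .t 1 (nat_lit 0) (.ax 1 9 10 22 0), .t 1 (nat_lit 0) (.ax 1 9 10 22 3), .t 1 (nat_lit 0) (.ax 1 9 10 22 7), .t 1 (nat_lit 0) (.ax 1 9 11 12 2), .t 1 (nat_lit 0) (.ax 1 9 11 12 3), .t 1 (nat_lit 0) (.ax 1 9 11 12 4), .t 1 (nat_lit 0) (.ax 1 9 11 12 6), .t 1 (nat_lit 0) (.ax 1 9 11 12 7), .t 1 (nat_lit 0) (.ax 1 9 11 13 0),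 .t 1 (nat_lit 0) (.ax 1 9 11 13 1), .t 1 (nat_lit 0) (.ax 1 9 11 13 2), .t 1 (nat_lit 0) (.ax 1 9 11 13 3), .t 1 (nat_lit 0) (.ax 1 9 11 13 4), .t 1 (nat_lit 0) (.ax 1 9 11 13 6), .t 1 (nat_lit 0) (.ax 1 9 11 13 7), .t 1 (nat_lit 0) (.ax 1 9 11 14 3), .t 1 (nat_lit 0) (.ax 1 9 11 14 5), .t 1 (nat_lit 0) (.ax 1 9 11 14 7), .t 1 (nat_lit 0) (.ax 1 9 11 15 3), .t 1 (nat_lit 0) (.ax 1 9 11 15 6), .t 1 (nat_lit 0) (.ax 1 9 11 16 3)] (by decide +kernel) (by decide +kernel)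
theorem b18 : B 576 608 := Blk.of_chk [.t 1 (nat_lit 0) (.ax 1 9 11 21 3), .t 1 (nat_lit 0) (.ax 1 9 11 21 7), .t 1 (nat_lit 0) (.ax 1 9 11 22 3), .t 1 (nat_lit 0) (.ax 1 9 11 22 7), .t 1 (nat_lit 0) (.ax 1 9 12 13 0), .t 1 (nat_lit 0) (.ax 1 9 12 13 1), .t 1 (nat_lit 0) (.ax 1 9 12 13 4), .t 1 (nat_lit 0) (.ax 1 9 12 13 6), .t 1 (nat_lit 0) (.ax 1 9 12 13 7), .t 1 (nat_lit 0) (.ax 1 9 12 14 3), .t 1 (nat_lit 0) (.ax 1 9 12 14 5), .t 1 (nat_lit 0) (.ax 1 9 12 15 3), .t 1 (nat_lit 0) (.ax 1 9 12 15 4), .t 1 (nat_lit 0) (.ax 1 9 12 16 3), .t 1 (nat_lit 0) (.ax 1 9 12 17 3), .t 1 (nat_lit 0) (.ax 1 9 12 18 3), .t 1 (nat_lit 0) (.ax 1 9 12 19 2), .t 1 (nat_lit 0) (.ax 1 9 12 19 3), .t 1 (nat_lit 0) (.ax 1 9 12 19 6), .t 1 (nat_lit 0) (.ax 1 9 12 20 3),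 .t 1 (nat_lit 0) (.ax 1 9 13 14 4), .t 1 (nat_lit 0) (.ax 1 9 13 15 4), .t 1 (nat_lit 0) (.ax 1 9 13 16 4), .t 1 (nat_lit 0) (.ax 1 9 13 17 4), .t 1 (nat_lit 0) (.ax 1 9 13 18 4), .t 1 (nat_lit 0) (.ax 1 9 13 19 4), .t 1 (nat_lit 0) (.ax 1 9 13 20 4), .t 1 (nat_lit 0) (.ax 1 9 13 21 4), .t 1 (nat_lit 0) (.ax 1 9 13 22 4), .t 1 (nat_lit 0) (.ax 1 9 14 15 4), .t 1 (nat_lit 0) (.ax 1 9 14 15 6), .t 1 (nat_lit 0) (.ax 1 9 14 15 7)] (by decide +kernel) (by decide +kernel)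
theorem b19 : B 608 640 := Blk.of_chk [.t 1 (nat_lit 0) (.ax 1 9 14 16 4), .t 1 (nat_lit 0) (.ax 1 9 14 17 4), .t 1 (nat_lit 0) (.ax 1 9 14 18 4), .t 1 (nat_lit 0) (.ax 1 9 14 19 4), .t 1 (nat_lit 0) (.ax 1 9 14 19 6), .t 1 (nat_lit 0) (.ax 1 9 14 20 4), .t 1 (nat_lit 0) (.ax 1 9 14 21 4), .t 1 (nat_lit 0) (.ax 1 9 14 22 4), .t 1 (nat_lit 0) (.ax 1 9 15 16 6), .t 1 (nat_lit 0) (.ax 1 9 15 17 6), .t 1 (nat_lit 0) (.ax 1 9 15 18 6), .t 1 (nat_lit 0) (.ax 1 9 15 19 6), .t 1 (nat_lit 0) (.ax 1 9 15 20 6), .t 1 (nat_lit 0) (.ax 1 10 11 12 3), .t 1 (nat_lit 0) (.ax 1 10 11 13 0), .t 1 (nat_lit 0) (.ax 1 10 11 13 1), .t 1 (nat_lit 0) (.ax 1 10 11 13 2), .t 1 (nat_lit 0) (.ax 1 10 11 13 3), .t 1 (nat_lit 0) (.ax 1 10 11 13 4), .t 1 (nat_lit 0) (.ax 1 10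 11 13 5), .t 1 (nat_lit 0) (.ax 1 10 11 13 6), .t 1 (nat_lit 0) (.ax 1 10 11 13 7), .t 1 (nat_lit 0) (.ax 1 10 11 14 0), .t 1 (nat_lit 0) (.ax 1 10 11 14 3), .t 1 (nat_lit 0) (.ax 1 10 11 14 5), .t 1 (nat_lit 0) (.ax 1 10 11 14 6), .t 1 (nat_lit 0) (.ax 1 10 11 15 3), .t 1 (nat_lit 0) (.ax 1 10 11 15 6), .t 1 (nat_lit 0) (.ax 1 10 11 16 3), .t 1 (nat_lit 0) (.ax 1 10 11 17 3), .t 1 (nat_lit 0) (.ax 1 10 11 18 3), .t 1 (nat_lit 0) (.ax 1 10 11 19 3)] (by decide +kernel) (by decide +kernel)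
theorem b20 : B 640 672 := Blk.of_chk [.t 1 (nat_lit 0) (.ax 1 10 11 20 3), .t 1 (nat_lit 0) (.ax 1 10 11 21 3), .t 1 (nat_lit 0) (.ax 1 10 11 22 3), .t 1 (nat_lit 0) (.ax 1 10 12 13 0), .t 1 (nat_lit 0) (.ax 1 10 12 13 1), .t 1 (nat_lit 0) (.ax 1 10 12 13 5), .t 1 (nat_lit 0) (.ax 1 10 12 13 6), .t 1 (nat_lit 0) (.ax 1 10 12 13 7), .t 1 (nat_lit 0) (.ax 1 10 12 14 3), .t 1 (nat_lit 0) (.ax 1 10 12 14 5), .t 1 (nat_lit 0) (.ax 1 10 12 15 1), .t 1 (nat_lit 0) (.ax 1 10 12 15 3), .t 1 (nat_lit 0) (.ax 1 10 12 16 3), .t 1 (nat_lit 0) (.ax 1 10 12 17 3), .t 1 (nat_lit 0) (.ax 1 10 12 18 3), .t 1 (nat_lit 0) (.ax 1 10 12 19 3), .t 1 (nat_lit 0) (.ax 1 10 12 20 3), .t 1 (nat_lit 0) (.ax 1 10 13 14 4), .t 1 (nat_lit 0) (.ax 1 10 13 15 4), .t 1 (nat_lit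 0) (.ax 1 10 13 16 4), .t 1 (nat_lit 0) (.ax 1 10 13 17 4), .t 1 (nat_lit 0) (.ax 1 10 13 18 4), .t 1 (nat_lit 0) (.ax 1 10 13 19 4), .t 1 (nat_lit 0) (.ax 1 10 13 20 4), .t 1 (nat_lit 0) (.ax 1 10 13 21 4), .t 1 (nat_lit 0) (.ax 1 10 13 22 4), .t 1 (nat_lit 0) (.ax 1 10 14 15 0), .t 1 (nat_lit 0) (.ax 1 10 14 15 1), .t 1 (nat_lit 0) (.ax 1 10 14 15 4), .t 1 (nat_lit 0) (.ax 1 10 14 15 6), .t 1 (nat_lit 0) (.ax 1 10 14 16 4), .t 1 (nat_lit 0) (.ax 1 10 14 16 6)] (by decide +kernel) (by decide +kernel)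
theorem b21 : B 672 704 := Blk.of_chk [.t 1 (nat_lit 0) (.ax 1 10 14 16 7), .t 1 (nat_lit 0) (.ax 1 10 14 17 4), .t 1 (nat_lit 0) (.ax 1 10 14 17 6), .t 1 (nat_lit 0) (.ax 1 10 14 18 4), .t 1 (nat_lit 0) (.ax 1 10 14 18 6), .t 1 (nat_lit 0) (.ax 1 10 14 19 4), .t 1 (nat_lit 0) (.ax 1 10 14 19 6), .t 1 (nat_lit 0) (.ax 1 10 14 19 7), .t 1 (nat_lit 0) (.ax 1 10 14 20 4), .t 1 (nat_lit 0) (.ax 1 10 14 20 6), .t 1 (nat_lit 0) (.ax 1 10 14 20 7), .t 1 (nat_lit 0) (.ax 1 10 15 16 6), .t 1 (nat_lit 0) (.ax 1 10 15 17 6), .t 1 (nat_lit 0) (.ax 1 10 15 18 6), .t 1 (nat_lit 0) (.ax 1 10 15 19 6), .t 1 (nat_lit 0) (.ax 1 10 15 20 6), .t 1 (nat_lit 0) (.ax 1 11 12 13 0), .t 1 (nat_lit 0) (.ax 1 11 12 13 1), .t 1 (nat_lit 0) (.ax 1 11 12 13 2), .t 1 (nat_lit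 0) (.ax 1 11 12 13 3), .t 1 (nat_lit 0) (.ax 1 11 12 13 5), .t 1 (nat_lit 0) (.ax 1 11 12 13 6), .t 1 (nat_lit 0) (.ax 1 11 12 13 7), .t 1 (nat_lit 0) (.ax 1 11 12 14 3), .t 1 (nat_lit 0) (.ax 1 11 12 15 3), .t 1 (nat_lit 0) (.ax 1 11 12 16 3), .t 1 (nat_lit 0) (.ax 1 11 12 19 0), .t 1 (nat_lit 0) (.ax 1 11 12 19 3), .t 1 (nat_lit 0) (.ax 1 11 12 19 6), .t 1 (nat_lit 0) (.ax 1 11 12 20 3), .t 1 (nat_lit 0) (.ax 1 11 13 14 4), .t 1 (nat_lit 0) (.ax 1 11 13 15 4)] (by decide +kernel) (by decide +kernel)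
theorem b22 : B 704 736 := Blk.of_chk [.t 1 (nat_lit 0) (.ax 1 11 13 16 4), .t 1 (nat_lit 0) (.ax 1 11 13 17 4), .t 1 (nat_lit 0) (.ax 1 11 13 18 4), .t 1 (nat_lit 0) (.ax 1 11 13 19 4), .t 1 (nat_lit 0) (.ax 1 11 13 20 4), .t 1 (nat_lit 0) (.ax 1 11 13 21 4), .t 1 (nat_lit 0) (.ax 1 11 13 22 4), .t 1 (nat_lit 0) (.ax 1 11 14 15 2), .t 1 (nat_lit 0) (.ax 1 11 14 15 7), .t 1 (nat_lit 0) (.ax 1 11 14 16 2), .t 1 (nat_lit 0) (.ax 1 11 14 17 2), .t 1 (nat_lit 0) (.ax 1 11 14 18 2), .t 1 (nat_lit 0) (.ax 1 11 14 19 0), .t 1 (nat_lit 0) (.ax 1 11 14 19 2), .t 1 (nat_lit 0) (.ax 1 11 14 19 6), .t 1 (nat_lit 0) (.ax 1 11 14 20 2), .t 1 (nat_lit 0) (.ax 1 11 14 21 0), .t 1 (nat_lit 0) (.ax 1 11 14 22 0), .t 1 (nat_lit 0) (.ax 1 11 17 19 0), .t 1 (nat_lit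 0) (.ax 1 11 18 19 0), .t 1 (nat_lit 0) (.ax 1 12 13 14 4), .t 1 (nat_lit 0) (.ax 1 12 13 15 4), .t 1 (nat_lit 0) (.ax 1 12 13 16 4), .t 1 (nat_lit 0) (.ax 1 12 13 17 4), .t 1 (nat_lit 0) (.ax 1 12 13 18 4), .t 1 (nat_lit 0) (.ax 1 12 13 19 4), .t 1 (nat_lit 0) (.ax 1 12 13 20 4), .t 1 (nat_lit 0) (.ax 1 12 14 15 0), .t 1 (nat_lit 0) (.ax 1 12 14 15 2), .t 1 (nat_lit 0) (.ax 1 12 14 16 2), .t 1 (nat_lit 0) (.ax 1 12 14 17 2), .t 1 (nat_lit 0) (.ax 1 12 14 18 2)] (by decide +kernel) (by decide +kernel)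
theorem b23 : B 736 768 := Blk.of_chk [.t 1 (nat_lit 0) (.ax 1 12 14 19 0), .t 1 (nat_lit 0) (.ax 1 12 14 19 2), .t 1 (nat_lit 0) (.ax 1 12 14 20 2), .t 1 (nat_lit 0) (.ax 1 12 14 21 0), .t 1 (nat_lit 0) (.ax 1 12 14 21 2), .t 1 (nat_lit 0) (.ax 1 12 14 22 0), .t 1 (nat_lit 0) (.ax 1 12 14 22 2), .t 1 (nat_lit 0) (.ax 1 12 15 19 2), .t 1 (nat_lit 0) (.ax 1 12 15 21 4), .t 1 (nat_lit 0) (.ax 1 12 15 22 4), .t 1 (nat_lit 0) (.ax 1 12 17 19 0), .t 1 (nat_lit 0) (.ax 1 12 17 19 2), .t 1 (nat_lit 0) (.ax 1 12 18 19 0), .t 1 (nat_lit 0) (.ax 1 12 18 19 2), .t 1 (nat_lit 0) (.ax 1 14 15 16 4), .t 1 (nat_lit 0) (.ax 1 14 15 17 4), .t 1 (nat_lit 0) (.ax 1 14 15 18 4), .t 1 (nat_lit 0) (.ax 1 14 15 19 4), .t 1 (nat_lit 0) (.ax 1 14 15 20 4), .t 1 (nat_lit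 0) (.ax 1 14 15 21 4), .t 1 (nat_lit 0) (.ax 1 14 15 22 4), .t 1 (nat_lit 0) (.ax 1 14 16 17 4), .t 1 (nat_lit 0) (.ax 1 14 16 18 4), .t 1 (nat_lit 0) (.ax 1 14 16 19 4), .t 1 (nat_lit 0) (.ax 1 14 16 20 4), .t 1 (nat_lit 0) (.ax 1 15 16 17 4), .t 1 (nat_lit 0) (.ax 1 15 16 18 4), .t 1 (nat_lit 0) (.ax 1 15 16 19 4), .t 1 (nat_lit 0) (.ax 1 15 16 20 4), .t 1 (nat_lit 0) (.ax 1 15 16 21 4), .t 1 (nat_lit 0) (.ax 1 15 16 22 4), .t 1 (nat_lit 0) (.ax 2 3 5 8 0)] (by decide +kernel) (by decide +kernel)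
theorem b24 : B 768 800 := Blk.of_chk [.t 1 (nat_lit 0) (.ax 2 3 5 9 0), .t 1 (nat_lit 0) (.ax 2 3 5 10 0), .t 1 (nat_lit 0) (.ax 2 3 6 8 0), .t 1 (nat_lit 0) (.ax 2 3 6 9 0), .t 1 (nat_lit 0) (.ax 2 3 6 10 0), .t 1 (nat_lit 0) (.ax 2 3 8 9 0), .t 1 (nat_lit 0) (.ax 2 3 8 10 0), .t 1 (nat_lit 0) (.ax 2 3 8 11 0), .t 1 (nat_lit 0) (.ax 2 3 8 13 0), .t 1 (nat_lit 0) (.ax 2 3 9 10 0), .t 1 (nat_lit 0) (.ax 2 3 9 10 2), .t 1 (nat_lit 0) (.ax 2 3 9 11 0), .t 1 (nat_lit 0) (.ax 2 3 9 12 0), .t 1 (nat_lit 0) (.ax 2 3 10 11 0), .t 1 (nat_lit 0) (.ax 2 3 10 12 0), .t 1 (nat_lit 0) (.ax 2 3 10 14 0), .t 1 (nat_lit 0) (.ax 2 4 5 8 0), .t 1 (nat_lit 0) (.ax 2 4 5 9 0), .t 1 (nat_lit 0) (.ax 2 4 5 10 0), .t 1 (nat_lit 0) (.ax 2 4 5 11 0), .t 1 (nat_lit 0) (.ax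 2 4 5 12 0), .t 1 (nat_lit 0) (.ax 2 4 6 8 0), .t 1 (nat_lit 0) (.ax 2 4 8 9 0), .t 1 (nat_lit 0) (.ax 2 4 8 10 0), .t 1 (nat_lit 0) (.ax 2 4 8 11 0), .t 1 (nat_lit 0) (.ax 2 4 8 13 0), .t 1 (nat_lit 0) (.ax 2 4 9 10 0), .t 1 (nat_lit 0) (.ax 2 4 9 10 2), .t 1 (nat_lit 0) (.ax 2 4 9 11 0), .t 1 (nat_lit 0) (.ax 2 4 9 12 0), .t 1 (nat_lit 0) (.ax 2 4 9 13 0), .t 1 (nat_lit 0) (.ax 2 4 10 11 0)] (by decide +kernel) (by decide +kernel)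
theorem b25 : B 800 832 := Blk.of_chk [.t 1 (nat_lit 0) (.ax 2 4 10 12 0), .t 1 (nat_lit 0) (.ax 2 4 10 13 0), .t 1 (nat_lit 0) (.ax 2 4 15 16 0), .t 1 (nat_lit 0) (.ax 2 5 6 7 0), .t 1 (nat_lit 0) (.ax 2 5 6 7 1), .t 1 (nat_lit 0) (.ax 2 5 6 7 5), .t 1 (nat_lit 0) (.ax 2 5 6 8 0), .t 1 (nat_lit 0) (.ax 2 5 6 8 1), .t 1 (nat_lit 0) (.ax 2 5 6 8 4), .t 1 (nat_lit 0) (.ax 2 5 6 9 1), .t 1 (nat_lit 0) (.ax 2 5 6 9 4), .t 1 (nat_lit 0) (.ax 2 5 6 10 0), .t 1 (nat_lit 0) (.ax 2 5 6 10 4), .t 1 (nat_lit 0) (.ax 2 5 6 12 1), .t 1 (nat_lit 0) (.ax 2 5 6 12 4), .t 1 (nat_lit 0) (.ax 2 5 7 8 1), .t 1 (nat_lit 0) (.ax 2 5 7 8 2), .t 1 (nat_lit 0) (.ax 2 5 7 8 4), .t 1 (nat_lit 0) (.ax 2 5 7 9 1), .t 1 (nat_lit 0) (.ax 2 5 7 9 4), .t 1 (nat_lit 0) (.ax 2 5 7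 10 4), .t 1 (nat_lit 0) (.ax 2 5 7 11 2), .t 1 (nat_lit 0) (.ax 2 5 7 11 4), .t 1 (nat_lit 0) (.ax 2 5 7 12 1), .t 1 (nat_lit 0) (.ax 2 5 7 12 2), .t 1 (nat_lit 0) (.ax 2 5 7 12 4), .t 1 (nat_lit 0) (.ax 2 5 7 13 4), .t 1 (nat_lit 0) (.ax 2 5 8 9 0), .t 1 (nat_lit 0) (.ax 2 5 8 9 2), .t 1 (nat_lit 0) (.ax 2 5 8 9 4), .t 1 (nat_lit 0) (.ax 2 5 8 9 6), .t 1 (nat_lit 0) (.ax 2 5 8 10 2)] (by decide +kernel) (by decide +kernel)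
theorem b26 : B 832 864 := Blk.of_chk [.t 1 (nat_lit 0) (.ax 2 5 8 10 4), .t 1 (nat_lit 0) (.ax 2 5 8 10 6), .t 1 (nat_lit 0) (.ax 2 5 8 11 2), .t 1 (nat_lit 0) (.ax 2 5 8 11 4), .t 1 (nat_lit 0) (.ax 2 5 8 11 6), .t 1 (nat_lit 0) (.ax 2 5 8 12 4), .t 1 (nat_lit 0) (.ax 2 5 8 12 6), .t 1 (nat_lit 0) (.ax 2 5 8 13 2), .t 1 (nat_lit 0) (.ax 2 5 8 13 4), .t 1 (nat_lit 0) (.ax 2 5 8 13 6), .t 1 (nat_lit 0) (.ax 2 5 8 14 6), .t 1 (nat_lit 0) (.ax 2 5 9 10 0), .t 1 (nat_lit 0) (.ax 2 5 9 10 2), .t 1 (nat_lit 0) (.ax 2 5 9 10 3), .t 1 (nat_lit 0) (.ax 2 5 9 10 4), .t 1 (nat_lit 0) (.ax 2 5 9 10 5), .t 1 (nat_lit 0) (.ax 2 5 9 10 6), .t 1 (nat_lit 0) (.ax 2 5 9 10 7), .t 1 (nat_lit 0) (.ax 2 5 9 11 0), .t 1 (nat_lit 0) (.ax 2 5 9 11 2), .t 1 (nat_lit 0)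 (.ax 2 5 9 11 4), .t 1 (nat_lit 0) (.ax 2 5 9 11 5), .t 1 (nat_lit 0) (.ax 2 5 9 11 6), .t 1 (nat_lit 0) (.ax 2 5 9 12 0), .t 1 (nat_lit 0) (.ax 2 5 9 12 2), .t 1 (nat_lit 0) (.ax 2 5 9 12 4), .t 1 (nat_lit 0) (.ax 2 5 9 12 5), .t 1 (nat_lit 0) (.ax 2 5 9 12 7), .t 1 (nat_lit 0) (.ax 2 5 9 13 0), .t 1 (nat_lit 0) (.ax 2 5 9 13 1), .t 1 (nat_lit 0) (.ax 2 5 9 13 2), .t 1 (nat_lit 0) (.ax 2 5 9 13 6)] (by decide +kernel) (by decide +kernel)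
theorem b27 : B 864 896 := Blk.of_chk [.t 1 (nat_lit 0) (.ax 2 5 9 14 0), .t 1 (nat_lit 0) (.ax 2 5 9 14 5), .t 1 (nat_lit 0) (.ax 2 5 9 14 6), .t 1 (nat_lit 0) (.ax 2 5 10 11 0), .t 1 (nat_lit 0) (.ax 2 5 10 11 2), .t 1 (nat_lit 0) (.ax 2 5 10 11 3), .t 1 (nat_lit 0) (.ax 2 5 10 11 4), .t 1 (nat_lit 0) (.ax 2 5 10 11 5), .t 1 (nat_lit 0) (.ax 2 5 10 11 6), .t 1 (nat_lit 0) (.ax 2 5 10 12 0), .t 1 (nat_lit 0) (.ax 2 5 10 12 3), .t 1 (nat_lit 0) (.ax 2 5 10 12 4), .t 1 (nat_lit 0) (.ax 2 5 10 12 5), .t 1 (nat_lit 0) (.ax 2 5 10 13 2), .t 1 (nat_lit 0) (.ax 2 5 10 13 3), .t 1 (nat_lit 0) (.ax 2 5 10 13 4), .t 1 (nat_lit 0) (.ax 2 5 10 13 5), .t 1 (nat_lit 0) (.ax 2 5 10 13 6), .t 1 (nat_lit 0) (.ax 2 5 10 14 0), .t 1 (nat_lit 0) (.ax 2 5 10 14 3),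 .t 1 (nat_lit 0) (.ax 2 5 10 14 5), .t 1 (nat_lit 0) (.ax 2 5 10 14 6), .t 1 (nat_lit 0) (.ax 2 5 10 15 3), .t 1 (nat_lit 0) (.ax 2 5 10 16 3), .t 1 (nat_lit 0) (.ax 2 5 10 17 3), .t 1 (nat_lit 0) (.ax 2 5 10 18 3), .t 1 (nat_lit 0) (.ax 2 5 10 19 3), .t 1 (nat_lit 0) (.ax 2 5 10 20 3), .t 1 (nat_lit 0) (.ax 2 5 10 21 5), .t 1 (nat_lit 0) (.ax 2 5 10 22 5), .t 1 (nat_lit 0) (.ax 2 5 11 12 4), .t 1 (nat_lit 0) (.ax 2 5 11 13 1)] (by decide +kernel) (by decide +kernel)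
theorem b28 : B 896 928 := Blk.of_chk [.t 1 (nat_lit 0) (.ax 2 5 11 13 2), .t 1 (nat_lit 0) (.ax 2 5 11 13 3), .t 1 (nat_lit 0) (.ax 2 5 11 13 5), .t 1 (nat_lit 0) (.ax 2 5 11 13 6), .t 1 (nat_lit 0) (.ax 2 5 11 13 7), .t 1 (nat_lit 0) (.ax 2 5 11 14 2), .t 1 (nat_lit 0) (.ax 2 5 11 14 4), .t 1 (nat_lit 0) (.ax 2 5 11 15 4), .t 1 (nat_lit 0) (.ax 2 5 12 13 0), .t 1 (nat_lit 0) (.ax 2 5 12 13 1), .t 1 (nat_lit 0) (.ax 2 5 12 14 0), .t 1 (nat_lit 0) (.ax 2 5 12 14 5), .t 1 (nat_lit 0) (.ax 2 5 13 14 4), .t 1 (nat_lit 0) (.ax 2 5 13 15 4), .t 1 (nat_lit 0) (.ax 2 5 13 16 4), .t 1 (nat_lit 0) (.ax 2 5 13 17 4), .t 1 (nat_lit 0) (.ax 2 5 13 18 4), .t 1 (nat_lit 0) (.ax 2 5 13 19 4), .t 1 (nat_lit 0) (.ax 2 5 13 20 4), .t 1 (nat_lit 0) (.ax 2 5 14 15 2),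 .t 1 (nat_lit 0) (.ax 2 5 14 15 4), .t 1 (nat_lit 0) (.ax 2 5 21 22 5), .t 1 (nat_lit 0) (.ax 2 6 7 8 1), .t 1 (nat_lit 0) (.ax 2 6 7 8 2), .t 1 (nat_lit 0) (.ax 2 6 7 8 4), .t 1 (nat_lit 0) (.ax 2 6 7 9 2), .t 1 (nat_lit 0) (.ax 2 6 7 9 4), .t 1 (nat_lit 0) (.ax 2 6 7 10 2), .t 1 (nat_lit 0) (.ax 2 6 7 10 4), .t 1 (nat_lit 0) (.ax 2 6 7 11 2), .t 1 (nat_lit 0) (.ax 2 6 7 11 4), .t 1 (nat_lit 0) (.ax 2 6 7 12 2)] (by decide +kernel) (by decide +kernel)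
theorem b29 : B 928 960 := Blk.of_chk [.t 1 (nat_lit 0) (.ax 2 6 7 12 4), .t 1 (nat_lit 0) (.ax 2 6 7 13 4), .t 1 (nat_lit 0) (.ax 2 6 7 14 4), .t 1 (nat_lit 0) (.ax 2 6 8 9 1), .t 1 (nat_lit 0) (.ax 2 6 8 9 2), .t 1 (nat_lit 0) (.ax 2 6 8 9 4), .t 1 (nat_lit 0) (.ax 2 6 8 9 6), .t 1 (nat_lit 0) (.ax 2 6 8 10 2), .t 1 (nat_lit 0) (.ax 2 6 8 10 4), .t 1 (nat_lit 0) (.ax 2 6 8 10 6), .t 1 (nat_lit 0) (.ax 2 6 8 11 2), .t 1 (nat_lit 0) (.ax 2 6 8 11 4), .t 1 (nat_lit 0) (.ax 2 6 8 11 6), .t 1 (nat_lit 0) (.ax 2 6 8 12 2), .t 1 (nat_lit 0) (.ax 2 6 8 12 4), .t 1 (nat_lit 0) (.ax 2 6 8 12 6), .t 1 (nat_lit 0) (.ax 2 6 8 13 2), .t 1 (nat_lit 0) (.ax 2 6 8 13 4), .t 1 (nat_lit 0) (.ax 2 6 8 13 6), .t 1 (nat_lit 0) (.ax 2 6 8 14 6), .t 1 (nat_lit 0) (.ax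 2 6 8 15 6), .t 1 (nat_lit 0) (.ax 2 6 9 10 0), .t 1 (nat_lit 0) (.ax 2 6 9 10 2), .t 1 (nat_lit 0) (.ax 2 6 9 10 3), .t 1 (nat_lit 0) (.ax 2 6 9 10 4), .t 1 (nat_lit 0) (.ax 2 6 9 10 5), .t 1 (nat_lit 0) (.ax 2 6 9 10 6), .t 1 (nat_lit 0) (.ax 2 6 9 11 0), .t 1 (nat_lit 0) (.ax 2 6 9 11 2), .t 1 (nat_lit 0) (.ax 2 6 9 11 4), .t 1 (nat_lit 0) (.ax 2 6 9 11 5), .t 1 (nat_lit 0) (.ax 2 6 9 12 0)] (by decide +kernel) (by decide +kernel)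
theorem b30 : B 960 992 := Blk.of_chk [.t 1 (nat_lit 0) (.ax 2 6 9 12 2), .t 1 (nat_lit 0) (.ax 2 6 9 13 0), .t 1 (nat_lit 0) (.ax 2 6 9 13 1), .t 1 (nat_lit 0) (.ax 2 6 9 13 2), .t 1 (nat_lit 0) (.ax 2 6 9 13 5), .t 1 (nat_lit 0) (.ax 2 6 9 13 6), .t 1 (nat_lit 0) (.ax 2 6 9 15 2), .t 1 (nat_lit 0) (.ax 2 6 9 15 4), .t 1 (nat_lit 0) (.ax 2 6 9 21 0), .t 1 (nat_lit 0) (.ax 2 6 9 22 0), .t 1 (nat_lit 0) (.ax 2 6 10 11 0), .t 1 (nat_lit 0) (.ax 2 6 10 11 2), .t 1 (nat_lit 0) (.ax 2 6 10 11 4), .t 1 (nat_lit 0) (.ax 2 6 10 11 5), .t 1 (nat_lit 0) (.ax 2 6 10 12 0), .t 1 (nat_lit 0) (.ax 2 6 10 12 2), .t 1 (nat_lit 0) (.ax 2 6 10 12 3), .t 1 (nat_lit 0) (.ax 2 6 10 12 4), .t 1 (nat_lit 0) (.ax 2 6 10 12 5), .t 1 (nat_lit 0) (.ax 2 6 10 12 6), .t 1 (nat_lit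 0) (.ax 2 6 10 13 0), .t 1 (nat_lit 0) (.ax 2 6 10 13 1), .t 1 (nat_lit 0) (.ax 2 6 10 13 2), .t 1 (nat_lit 0) (.ax 2 6 10 13 4), .t 1 (nat_lit 0) (.ax 2 6 10 13 5), .t 1 (nat_lit 0) (.ax 2 6 10 13 6), .t 1 (nat_lit 0) (.ax 2 6 10 14 0), .t 1 (nat_lit 0) (.ax 2 6 10 14 2), .t 1 (nat_lit 0) (.ax 2 6 10 14 4), .t 1 (nat_lit 0) (.ax 2 6 10 14 5), .t 1 (nat_lit 0) (.ax 2 6 10 15 0), .t 1 (nat_lit 0) (.ax 2 6 10 15 2)] (by decide +kernel) (by decide +kernel)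
theorem b31 : B 992 1024 := Blk.of_chk [.t 1 (nat_lit 0) (.ax 2 6 10 16 0), .t 1 (nat_lit 0) (.ax 2 6 10 16 2), .t 1 (nat_lit 0) (.ax 2 6 10 17 0), .t 1 (nat_lit 0) (.ax 2 6 10 17 2), .t 1 (nat_lit 0) (.ax 2 6 10 18 0), .t 1 (nat_lit 0) (.ax 2 6 10 18 2), .t 1 (nat_lit 0) (.ax 2 6 10 19 0), .t 1 (nat_lit 0) (.ax 2 6 10 19 2), .t 1 (nat_lit 0) (.ax 2 6 10 20 0), .t 1 (nat_lit 0) (.ax 2 6 10 20 2), .t 1 (nat_lit 0) (.ax 2 6 10 21 0), .t 1 (nat_lit 0) (.ax 2 6 10 22 0), .t 1 (nat_lit 0) (.ax 2 6 11 12 2), .t 1 (nat_lit 0) (.ax 2 6 11 13 1), .t 1 (nat_lit 0) (.ax 2 6 11 13 5), .t 1 (nat_lit 0) (.ax 2 6 11 13 6), .t 1 (nat_lit 0) (.ax 2 6 11 14 0), .t 1 (nat_lit 0) (.ax 2 6 11 14 5), .t 1 (nat_lit 0) (.ax 2 6 12 13 0), .t 1 (nat_lit 0) (.ax 2 6 12 13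 5), .t 1 (nat_lit 0) (.ax 2 6 12 14 0), .t 1 (nat_lit 0) (.ax 2 6 12 14 5), .t 1 (nat_lit 0) (.ax 2 6 13 14 4), .t 1 (nat_lit 0) (.ax 2 6 13 15 4), .t 1 (nat_lit 0) (.ax 2 6 13 16 4), .t 1 (nat_lit 0) (.ax 2 6 13 17 4), .t 1 (nat_lit 0) (.ax 2 6 13 18 4), .t 1 (nat_lit 0) (.ax 2 6 13 19 4), .t 1 (nat_lit 0) (.ax 2 6 13 20 4), .t 1 (nat_lit 0) (.ax 2 6 21 22 5), .t 1 (nat_lit 0) (.ax 2 7 8 9 0), .t 1 (nat_lit 0) (.ax 2 7 8 10 0)] (by decide +kernel) (by decide +kernel)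
theorem b32 : B 1024 1056 := Blk.of_chk [.t 1 (nat_lit 0) (.ax 2 7 8 11 0), .t 1 (nat_lit 0) (.ax 2 7 8 12 0), .t 1 (nat_lit 0) (.ax 2 7 9 10 0), .t 1 (nat_lit 0) (.ax 2 7 9 10 2), .t 1 (nat_lit 0) (.ax 2 7 9 10 5), .t 1 (nat_lit 0) (.ax 2 7 9 11 0), .t 1 (nat_lit 0) (.ax 2 7 9 11 5), .t 1 (nat_lit 0) (.ax 2 7 9 12 0), .t 1 (nat_lit 0) (.ax 2 7 9 12 5), .t 1 (nat_lit 0) (.ax 2 7 10 11 0), .t 1 (nat_lit 0) (.ax 2 7 10 11 2), .t 1 (nat_lit 0) (.ax 2 7 10 11 4), .t 1 (nat_lit 0) (.ax 2 7 10 11 5), .t 1 (nat_lit 0) (.ax 2 7 10 12 0), .t 1 (nat_lit 0) (.ax 2 7 10 12 5), .t 1 (nat_lit 0) (.ax 2 8 9 10 0), .t 1 (nat_lit 0) (.ax 2 8 9 10 1), .t 1 (nat_lit 0) (.ax 2 8 9 10 2), .t 1 (nat_lit 0) (.ax 2 8 9 10 3), .t 1 (nat_lit 0) (.ax 2 8 9 10 4), .t 1 (nat_lit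 0) (.ax 2 8 9 10 5), .t 1 (nat_lit 0) (.ax 2 8 9 10 6), .t 1 (nat_lit 0) (.ax 2 8 9 11 0), .t 1 (nat_lit 0) (.ax 2 8 9 11 1), .t 1 (nat_lit 0) (.ax 2 8 9 11 2), .t 1 (nat_lit 0) (.ax 2 8 9 11 3), .t 1 (nat_lit 0) (.ax 2 8 9 11 4), .t 1 (nat_lit 0) (.ax 2 8 9 11 5), .t 1 (nat_lit 0) (.ax 2 8 9 11 6), .t 1 (nat_lit 0) (.ax 2 8 9 11 7), .t 1 (nat_lit 0) (.ax 2 8 9 12 0), .t 1 (nat_lit 0) (.ax 2 8 9 12 2)] (by decide +kernel) (by decide +kernel)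
theorem b33 : B 1056 1088 := Blk.of_chk [.t 1 (nat_lit 0) (.ax 2 8 9 12 3), .t 1 (nat_lit 0) (.ax 2 8 9 12 4), .t 1 (nat_lit 0) (.ax 2 8 9 12 6), .t 1 (nat_lit 0) (.ax 2 8 9 13 0), .t 1 (nat_lit 0) (.ax 2 8 9 13 2), .t 1 (nat_lit 0) (.ax 2 8 9 13 3), .t 1 (nat_lit 0) (.ax 2 8 9 13 4), .t 1 (nat_lit 0) (.ax 2 8 9 13 5), .t 1 (nat_lit 0) (.ax 2 8 9 13 6), .t 1 (nat_lit 0) (.ax 2 8 9 14 0), .t 1 (nat_lit 0) (.ax 2 8 10 11 0), .t 1 (nat_lit 0) (.ax 2 8 10 11 1), .t 1 (nat_lit 0) (.ax 2 8 10 11 2), .t 1 (nat_lit 0) (.ax 2 8 10 11 3), .t 1 (nat_lit 0) (.ax 2 8 10 11 4), .t 1 (nat_lit 0) (.ax 2 8 10 11 5), .t 1 (nat_lit 0) (.ax 2 8 10 11 6), .t 1 (nat_lit 0) (.ax 2 8 10 11 7), .t 1 (nat_lit 0) (.ax 2 8 10 12 0), .t 1 (nat_lit 0) (.ax 2 8 10 12 2), .t 1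 (nat_lit 0) (.ax 2 8 10 12 3), .t 1 (nat_lit 0) (.ax 2 8 10 12 4), .t 1 (nat_lit 0) (.ax 2 8 10 12 5), .t 1 (nat_lit 0) (.ax 2 8 10 12 6), .t 1 (nat_lit 0) (.ax 2 8 10 13 1), .t 1 (nat_lit 0) (.ax 2 8 10 13 2), .t 1 (nat_lit 0) (.ax 2 8 10 13 3), .t 1 (nat_lit 0) (.ax 2 8 10 13 4), .t 1 (nat_lit 0) (.ax 2 8 10 13 5), .t 1 (nat_lit 0) (.ax 2 8 10 13 6), .t 1 (nat_lit 0) (.ax 2 8 10 13 7), .t 1 (nat_lit 0) (.ax 2 8 10 14 2)] (by decide +kernel) (by decide +kernel)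
theorem b34 : B 1088 1120 := Blk.of_chk [.t 1 (nat_lit 0) (.ax 2 8 10 14 6), .t 1 (nat_lit 0) (.ax 2 8 10 14 7), .t 1 (nat_lit 0) (.ax 2 8 10 15 0), .t 1 (nat_lit 0) (.ax 2 8 10 15 6), .t 1 (nat_lit 0) (.ax 2 8 10 15 7), .t 1 (nat_lit 0) (.ax 2 8 10 16 7), .t 1 (nat_lit 0) (.ax 2 8 10 17 7), .t 1 (nat_lit 0) (.ax 2 8 10 18 7), .t 1 (nat_lit 0) (.ax 2 8 10 19 7), .t 1 (nat_lit 0) (.ax 2 8 10 20 7), .t 1 (nat_lit 0) (.ax 2 8 10 21 7), .t 1 (nat_lit 0) (.ax 2 8 10 22 7), .t 1 (nat_lit 0) (.ax 2 8 11 12 2), .t 1 (nat_lit 0) (.ax 2 8 11 12 4), .t 1 (nat_lit 0) (.ax 2 8 11 12 6), .t 1 (nat_lit 0) (.ax 2 8 11 13 0), .t 1 (nat_lit 0) (.ax 2 8 11 13 1), .t 1 (nat_lit 0) (.ax 2 8 11 13 3), .t 1 (nat_lit 0) (.ax 2 8 11 13 4), .t 1 (nat_lit 0) (.ax 2 8 11 13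 5), .t 1 (nat_lit 0) (.ax 2 8 11 13 6), .t 1 (nat_lit 0) (.ax 2 8 11 13 7), .t 1 (nat_lit 0) (.ax 2 8 11 14 7), .t 1 (nat_lit 0) (.ax 2 8 11 15 0), .t 1 (nat_lit 0) (.ax 2 8 11 15 7), .t 1 (nat_lit 0) (.ax 2 8 11 16 7), .t 1 (nat_lit 0) (.ax 2 8 11 17 7), .t 1 (nat_lit 0) (.ax 2 8 11 18 7), .t 1 (nat_lit 0) (.ax 2 8 11 19 7), .t 1 (nat_lit 0) (.ax 2 8 11 20 7), .t 1 (nat_lit 0) (.ax 2 8 11 21 7), .t 1 (nat_lit 0) (.ax 2 8 11 22 7)] (by decide +kernel) (by decide +kernel)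
theorem b35 : B 1120 1152 := Blk.of_chk [.t 1 (nat_lit 0) (.ax 2 8 12 13 0), .t 1 (nat_lit 0) (.ax 2 8 12 13 1), .t 1 (nat_lit 0) (.ax 2 8 12 13 3), .t 1 (nat_lit 0) (.ax 2 8 12 13 5), .t 1 (nat_lit 0) (.ax 2 8 13 14 4), .t 1 (nat_lit 0) (.ax 2 8 13 15 4), .t 1 (nat_lit 0) (.ax 2 8 13 16 4), .t 1 (nat_lit 0) (.ax 2 8 13 17 4), .t 1 (nat_lit 0) (.ax 2 8 13 18 4), .t 1 (nat_lit 0) (.ax 2 8 13 19 4), .t 1 (nat_lit 0) (.ax 2 8 13 20 4), .t 1 (nat_lit 0) (.ax 2 8 13 21 4), .t 1 (nat_lit 0) (.ax 2 8 13 22 4), .t 1 (nat_lit 0) (.ax 2 8 21 22 5), .t 1 (nat_lit 0) (.ax 2 9 10 11 0), .t 1 (nat_lit 0) (.ax 2 9 10 11 1), .t 1 (nat_lit 0) (.ax 2 9 10 11 2), .t 1 (nat_lit 0) (.ax 2 9 10 11 3), .t 1 (nat_lit 0) (.ax 2 9 10 11 4), .t 1 (nat_lit 0) (.ax 2 9 10 11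 5), .t 1 (nat_lit 0) (.ax 2 9 10 11 6), .t 1 (nat_lit 0) (.ax 2 9 10 11 7), .t 1 (nat_lit 0) (.ax 2 9 10 12 0), .t 1 (nat_lit 0) (.ax 2 9 10 12 1), .t 1 (nat_lit 0) (.ax 2 9 10 12 2), .t 1 (nat_lit 0) (.ax 2 9 10 12 4), .t 1 (nat_lit 0) (.ax 2 9 10 12 5), .t 1 (nat_lit 0) (.ax 2 9 10 12 6), .t 1 (nat_lit 0) (.ax 2 9 10 12 7), .t 1 (nat_lit 0) (.ax 2 9 10 13 0), .t 1 (nat_lit 0) (.ax 2 9 10 13 1), .t 1 (nat_lit 0) (.ax 2 9 10 13 2)] (by decide +kernel) (by decide +kernel)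
theorem b36 : B 1152 1184 := Blk.of_chk [.t 1 (nat_lit 0) (.ax 2 9 10 13 3), .t 1 (nat_lit 0) (.ax 2 9 10 13 4), .t 1 (nat_lit 0) (.ax 2 9 10 13 5), .t 1 (nat_lit 0) (.ax 2 9 10 13 6), .t 1 (nat_lit 0) (.ax 2 9 10 13 7), .t 1 (nat_lit 0) (.ax 2 9 10 14 5), .t 1 (nat_lit 0) (.ax 2 9 10 14 6), .t 1 (nat_lit 0) (.ax 2 9 10 15 6), .t 1 (nat_lit 0) (.ax 2 9 10 16 6), .t 1 (nat_lit 0) (.ax 2 9 10 17 6), .t 1 (nat_lit 0) (.ax 2 9 10 18 6), .t 1 (nat_lit 0) (.ax 2 9 10 19 6), .t 1 (nat_lit 0) (.ax 2 9 10 20 6), .t 1 (nat_lit 0) (.ax 2 9 10 21 6), .t 1 (nat_lit 0) (.ax 2 9 10 21 7), .t 1 (nat_lit 0) (.ax 2 9 10 22 6), .t 1 (nat_lit 0) (.ax 2 9 10 22 7), .t 1 (nat_lit 0) (.ax 2 9 11 12 1), .t 1 (nat_lit 0) (.ax 2 9 11 12 2), .t 1 (nat_lit 0) (.ax 2 9 11 12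 3), .t 1 (nat_lit 0) (.ax 2 9 11 12 4), .t 1 (nat_lit 0) (.ax 2 9 11 12 5), .t 1 (nat_lit 0) (.ax 2 9 11 12 6), .t 1 (nat_lit 0) (.ax 2 9 11 12 7), .t 1 (nat_lit 0) (.ax 2 9 11 13 0), .t 1 (nat_lit 0) (.ax 2 9 11 13 1), .t 1 (nat_lit 0) (.ax 2 9 11 13 2), .t 1 (nat_lit 0) (.ax 2 9 11 13 3), .t 1 (nat_lit 0) (.ax 2 9 11 13 4), .t 1 (nat_lit 0) (.ax 2 9 11 13 5), .t 1 (nat_lit 0) (.ax 2 9 11 13 6), .t 1 (nat_lit 0) (.ax 2 9 11 14 4)] (by decide +kernel) (by decide +kernel)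
theorem b37 : B 1184 1216 := Blk.of_chk [.t 1 (nat_lit 0) (.ax 2 9 11 14 6), .t 1 (nat_lit 0) (.ax 2 9 11 15 4), .t 1 (nat_lit 0) (.ax 2 9 11 15 6), .t 1 (nat_lit 0) (.ax 2 9 11 16 4), .t 1 (nat_lit 0) (.ax 2 9 11 16 6), .t 1 (nat_lit 0) (.ax 2 9 11 17 4), .t 1 (nat_lit 0) (.ax 2 9 11 17 6), .t 1 (nat_lit 0) (.ax 2 9 11 18 4), .t 1 (nat_lit 0) (.ax 2 9 11 18 6), .t 1 (nat_lit 0) (.ax 2 9 11 19 4), .t 1 (nat_lit 0) (.ax 2 9 11 19 6), .t 1 (nat_lit 0) (.ax 2 9 11 20 4), .t 1 (nat_lit 0) (.ax 2 9 11 20 6), .t 1 (nat_lit 0) (.ax 2 9 11 21 0), .t 1 (nat_lit 0) (.ax 2 9 11 21 4), .t 1 (nat_lit 0) (.ax 2 9 11 21 6), .t 1 (nat_lit 0) (.ax 2 9 11 22 0), .t 1 (nat_lit 0) (.ax 2 9 11 22 4), .t 1 (nat_lit 0) (.ax 2 9 11 22 6), .t 1 (nat_lit 0) (.ax 2 9 12 13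 1), .t 1 (nat_lit 0) (.ax 2 9 12 13 3), .t 1 (nat_lit 0) (.ax 2 9 12 13 4), .t 1 (nat_lit 0) (.ax 2 9 12 13 5), .t 1 (nat_lit 0) (.ax 2 9 12 13 6), .t 1 (nat_lit 0) (.ax 2 9 12 14 3), .t 1 (nat_lit 0) (.ax 2 9 12 14 4), .t 1 (nat_lit 0) (.ax 2 9 12 14 5), .t 1 (nat_lit 0) (.ax 2 9 12 14 6), .t 1 (nat_lit 0) (.ax 2 9 12 15 2), .t 1 (nat_lit 0) (.ax 2 9 12 15 4), .t 1 (nat_lit 0) (.ax 2 9 12 16 4), .t 1 (nat_lit 0) (.ax 2 9 12 16 6)] (by decide +kernel) (by decide +kernel)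
theorem b38 : B 1216 1248 := Blk.of_chk [.t 1 (nat_lit 0) (.ax 2 9 12 17 4), .t 1 (nat_lit 0) (.ax 2 9 12 17 6), .t 1 (nat_lit 0) (.ax 2 9 12 18 4), .t 1 (nat_lit 0) (.ax 2 9 12 18 6), .t 1 (nat_lit 0) (.ax 2 9 12 19 4), .t 1 (nat_lit 0) (.ax 2 9 12 19 5), .t 1 (nat_lit 0) (.ax 2 9 12 19 6), .t 1 (nat_lit 0) (.ax 2 9 12 20 4), .t 1 (nat_lit 0) (.ax 2 9 12 20 6), .t 1 (nat_lit 0) (.ax 2 9 13 14 4), .t 1 (nat_lit 0) (.ax 2 9 13 15 4), .t 1 (nat_lit 0) (.ax 2 9 13 16 4), .t 1 (nat_lit 0) (.ax 2 9 13 17 4), .t 1 (nat_lit 0) (.ax 2 9 13 18 4), .t 1 (nat_lit 0) (.ax 2 9 13 19 4), .t 1 (nat_lit 0) (.ax 2 9 13 20 4), .t 1 (nat_lit 0) (.ax 2 9 13 21 4), .t 1 (nat_lit 0) (.ax 2 9 13 22 4), .t 1 (nat_lit 0) (.ax 2 10 11 12 2), .t 1 (nat_lit 0) (.ax 2 10 11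 12 3), .t 1 (nat_lit 0) (.ax 2 10 11 12 4), .t 1 (nat_lit 0) (.ax 2 10 11 12 5), .t 1 (nat_lit 0) (.ax 2 10 11 12 6), .t 1 (nat_lit 0) (.ax 2 10 11 12 7), .t 1 (nat_lit 0) (.ax 2 10 11 13 2), .t 1 (nat_lit 0) (.ax 2 10 11 13 3), .t 1 (nat_lit 0) (.ax 2 10 11 13 4), .t 1 (nat_lit 0) (.ax 2 10 11 13 5), .t 1 (nat_lit 0) (.ax 2 10 11 13 6), .t 1 (nat_lit 0) (.ax 2 10 11 14 2), .t 1 (nat_lit 0) (.ax 2 10 11 14 3), .t 1 (nat_lit 0) (.ax 2 10 11 14 5)] (by decide +kernel) (by decide +kernel)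
theorem b39 : B 1248 1280 := Blk.of_chk [.t 1 (nat_lit 0) (.ax 2 10 11 14 6), .t 1 (nat_lit 0) (.ax 2 10 11 15 4), .t 1 (nat_lit 0) (.ax 2 10 11 15 6), .t 1 (nat_lit 0) (.ax 2 10 11 16 6), .t 1 (nat_lit 0) (.ax 2 10 11 17 6), .t 1 (nat_lit 0) (.ax 2 10 11 18 6), .t 1 (nat_lit 0) (.ax 2 10 11 19 4), .t 1 (nat_lit 0) (.ax 2 10 11 19 6), .t 1 (nat_lit 0) (.ax 2 10 11 20 6), .t 1 (nat_lit 0) (.ax 2 10 11 21 6), .t 1 (nat_lit 0) (.ax 2 10 11 21 7), .t 1 (nat_lit 0) (.ax 2 10 11 22 6), .t 1 (nat_lit 0) (.ax 2 10 11 22 7), .t 1 (nat_lit 0) (.ax 2 10 12 13 1), .t 1 (nat_lit 0) (.ax 2 10 12 13 3), .t 1 (nat_lit 0) (.ax 2 10 12 13 4), .t 1 (nat_lit 0) (.ax 2 10 12 13 5), .t 1 (nat_lit 0) (.ax 2 10 12 13 6), .t 1 (nat_lit 0) (.ax 2 10 12 14 3), .t 1 (nat_lit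 0) (.ax 2 10 12 14 4), .t 1 (nat_lit 0) (.ax 2 10 12 14 5), .t 1 (nat_lit 0) (.ax 2 10 12 14 7), .t 1 (nat_lit 0) (.ax 2 10 12 15 1), .t 1 (nat_lit 0) (.ax 2 10 12 15 4), .t 1 (nat_lit 0) (.ax 2 10 12 16 4), .t 1 (nat_lit 0) (.ax 2 10 12 16 5), .t 1 (nat_lit 0) (.ax 2 10 12 17 4), .t 1 (nat_lit 0) (.ax 2 10 12 18 4), .t 1 (nat_lit 0) (.ax 2 10 12 19 4), .t 1 (nat_lit 0) (.ax 2 10 12 20 4), .t 1 (nat_lit 0) (.ax 2 10 13 14 4), .t 1 (nat_lit 0) (.ax 2 10 13 15 4)] (by decide +kernel) (by decide +kernel)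
theorem b40 : B 1280 1312 := Blk.of_chk [.t 1 (nat_lit 0) (.ax 2 10 13 16 4), .t 1 (nat_lit 0) (.ax 2 10 13 17 4), .t 1 (nat_lit 0) (.ax 2 10 13 18 4), .t 1 (nat_lit 0) (.ax 2 10 13 19 4), .t 1 (nat_lit 0) (.ax 2 10 13 20 4), .t 1 (nat_lit 0) (.ax 2 10 13 21 4), .t 1 (nat_lit 0) (.ax 2 10 13 22 4), .t 1 (nat_lit 0) (.ax 2 10 21 22 5), .t 1 (nat_lit 0) (.ax 2 11 12 13 0), .t 1 (nat_lit 0) (.ax 2 11 12 13 1), .t 1 (nat_lit 0) (.ax 2 11 12 13 4), .t 1 (nat_lit 0) (.ax 2 11 12 13 5), .t 1 (nat_lit 0) (.ax 2 11 12 14 3), .t 1 (nat_lit 0) (.ax 2 11 12 14 4), .t 1 (nat_lit 0) (.ax 2 11 12 14 5), .t 1 (nat_lit 0) (.ax 2 11 12 15 4), .t 1 (nat_lit 0) (.ax 2 11 12 16 4), .t 1 (nat_lit 0) (.ax 2 11 12 17 6), .t 1 (nat_lit 0) (.ax 2 11 12 18 6), .t 1 (nat_lit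 0) (.ax 2 11 12 19 6), .t 1 (nat_lit 0) (.ax 2 11 12 20 6), .t 1 (nat_lit 0) (.ax 2 11 13 14 4), .t 1 (nat_lit 0) (.ax 2 11 13 15 4), .t 1 (nat_lit 0) (.ax 2 11 13 16 4), .t 1 (nat_lit 0) (.ax 2 11 13 17 4), .t 1 (nat_lit 0) (.ax 2 11 13 18 4), .t 1 (nat_lit 0) (.ax 2 11 13 19 4), .t 1 (nat_lit 0) (.ax 2 11 13 20 4), .t 1 (nat_lit 0) (.ax 2 11 13 21 4), .t 1 (nat_lit 0) (.ax 2 11 13 22 4), .t 1 (nat_lit 0) (.ax 2 11 14 15 2), .t 1 (nat_lit 0) (.ax 2 11 14 15 4)] (by decide +kernel) (by decide +kernel)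
theorem b41 : B 1312 1344 := Blk.of_chk [.t 1 (nat_lit 0) (.ax 2 11 14 16 5), .t 1 (nat_lit 0) (.ax 2 11 15 16 6), .t 1 (nat_lit 0) (.ax 2 12 13 14 4), .t 1 (nat_lit 0) (.ax 2 12 13 14 6), .t 1 (nat_lit 0) (.ax 2 12 13 15 4), .t 1 (nat_lit 0) (.ax 2 12 13 16 4), .t 1 (nat_lit 0) (.ax 2 12 13 17 4), .t 1 (nat_lit 0) (.ax 2 12 13 18 4), .t 1 (nat_lit 0) (.ax 2 12 13 19 4), .t 1 (nat_lit 0) (.ax 2 12 13 20 4), .t 1 (nat_lit 0) (.ax 2 12 13 21 4), .t 1 (nat_lit 0) (.ax 2 12 13 22 4), .t 1 (nat_lit 0) (.ax 2 12 14 15 2), .t 1 (nat_lit 0) (.ax 2 12 14 15 4), .t 1 (nat_lit 0) (.ax 3 4 5 6 0), .t 1 (nat_lit 0) (.ax 3 4 5 8 0), .t 1 (nat_lit 0) (.ax 3 4 5 9 0), .t 1 (nat_lit 0) (.ax 3 4 5 9 2), .t 1 (nat_lit 0) (.ax 3 4 5 10 0), .t 1 (nat_lit 0) (.ax 3 4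 5 10 2), .t 1 (nat_lit 0) (.ax 3 4 5 11 0), .t 1 (nat_lit 0) (.ax 3 4 5 12 0), .t 1 (nat_lit 0) (.ax 3 4 5 13 0), .t 1 (nat_lit 0) (.ax 3 4 5 14 0), .t 1 (nat_lit 0) (.ax 3 4 5 15 0), .t 1 (nat_lit 0) (.ax 3 4 6 8 0), .t 1 (nat_lit 0) (.ax 3 4 6 9 0), .t 1 (nat_lit 0) (.ax 3 4 6 9 2), .t 1 (nat_lit 0) (.ax 3 4 6 10 0), .t 1 (nat_lit 0) (.ax 3 4 6 10 2), .t 1 (nat_lit 0) (.ax 3 4 6 11 0), .t 1 (nat_lit 0) (.ax 3 4 6 12 0)] (by decide +kernel) (by decide +kernel)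
theorem b42 : B 1344 1376 := Blk.of_chk [.t 1 (nat_lit 0) (.ax 3 4 6 13 0), .t 1 (nat_lit 0) (.ax 3 4 6 15 0), .t 1 (nat_lit 0) (.ax 3 4 7 8 0), .t 1 (nat_lit 0) (.ax 3 4 7 9 0), .t 1 (nat_lit 0) (.ax 3 4 7 10 0), .t 1 (nat_lit 0) (.ax 3 4 7 11 0), .t 1 (nat_lit 0) (.ax 3 4 7 14 0), .t 1 (nat_lit 0) (.ax 3 4 7 15 0), .t 1 (nat_lit 0) (.ax 3 4 8 9 0), .t 1 (nat_lit 0) (.ax 3 4 8 10 0), .t 1 (nat_lit 0) (.ax 3 4 8 11 0), .t 1 (nat_lit 0) (.ax 3 4 8 13 0), .t 1 (nat_lit 0) (.ax 3 4 8 14 0), .t 1 (nat_lit 0) (.ax 3 4 8 15 0), .t 1 (nat_lit 0) (.ax 3 4 9 10 0), .t 1 (nat_lit 0) (.ax 3 4 9 11 0), .t 1 (nat_lit 0) (.ax 3 4 9 12 0), .t 1 (nat_lit 0) (.ax 3 4 9 13 0), .t 1 (nat_lit 0) (.ax 3 4 10 11 0), .t 1 (nat_lit 0) (.ax 3 4 10 12 0), .t 1 (nat_lit 0)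 (.ax 3 4 10 13 0), .t 1 (nat_lit 0) (.ax 3 4 10 14 0), .t 1 (nat_lit 0) (.ax 3 4 10 16 0), .t 1 (nat_lit 0) (.ax 3 4 11 13 0), .t 1 (nat_lit 0) (.ax 3 4 12 13 0), .t 1 (nat_lit 0) (.ax 3 5 6 8 0), .t 1 (nat_lit 0) (.ax 3 5 6 8 1), .t 1 (nat_lit 0) (.ax 3 5 6 8 4), .t 1 (nat_lit 0) (.ax 3 5 6 8 5), .t 1 (nat_lit 0) (.ax 3 5 6 9 0), .t 1 (nat_lit 0) (.ax 3 5 6 9 1), .t 1 (nat_lit 0) (.ax 3 5 6 9 2)] (by decide +kernel) (by decide +kernel)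
theorem b43 : B 1376 1408 := Blk.of_chk [.t 1 (nat_lit 0) (.ax 3 5 6 9 4), .t 1 (nat_lit 0) (.ax 3 5 6 9 5), .t 1 (nat_lit 0) (.ax 3 5 6 10 0), .t 1 (nat_lit 0) (.ax 3 5 6 10 1), .t 1 (nat_lit 0) (.ax 3 5 6 10 2), .t 1 (nat_lit 0) (.ax 3 5 6 10 4), .t 1 (nat_lit 0) (.ax 3 5 6 10 5), .t 1 (nat_lit 0) (.ax 3 5 6 13 1), .t 1 (nat_lit 0) (.ax 3 5 6 13 7), .t 1 (nat_lit 0) (.ax 3 5 8 9 0), .t 1 (nat_lit 0) (.ax 3 5 8 9 2), .t 1 (nat_lit 0) (.ax 3 5 8 9 3), .t 1 (nat_lit 0) (.ax 3 5 8 9 4), .t 1 (nat_lit 0) (.ax 3 5 8 9 5), .t 1 (nat_lit 0) (.ax 3 5 8 9 7), .t 1 (nat_lit 0) (.ax 3 5 8 10 0), .t 1 (nat_lit 0) (.ax 3 5 8 10 2), .t 1 (nat_lit 0) (.ax 3 5 8 10 3), .t 1 (nat_lit 0) (.ax 3 5 8 10 4), .t 1 (nat_lit 0) (.ax 3 5 8 10 5), .t 1 (nat_lit 0) (.ax 3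 5 8 10 7), .t 1 (nat_lit 0) (.ax 3 5 8 11 0), .t 1 (nat_lit 0) (.ax 3 5 8 11 2), .t 1 (nat_lit 0) (.ax 3 5 8 11 3), .t 1 (nat_lit 0) (.ax 3 5 8 11 5), .t 1 (nat_lit 0) (.ax 3 5 8 12 0), .t 1 (nat_lit 0) (.ax 3 5 8 12 5), .t 1 (nat_lit 0) (.ax 3 5 8 12 7), .t 1 (nat_lit 0) (.ax 3 5 8 13 0), .t 1 (nat_lit 0) (.ax 3 5 8 13 4), .t 1 (nat_lit 0) (.ax 3 5 8 13 5), .t 1 (nat_lit 0) (.ax 3 5 8 13 6)] (by decide +kernel) (by decide +kernel)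
theorem b44 : B 1408 1440 := Blk.of_chk [.t 1 (nat_lit 0) (.ax 3 5 8 13 7), .t 1 (nat_lit 0) (.ax 3 5 8 14 7), .t 1 (nat_lit 0) (.ax 3 5 8 15 0), .t 1 (nat_lit 0) (.ax 3 5 8 15 5), .t 1 (nat_lit 0) (.ax 3 5 8 15 7), .t 1 (nat_lit 0) (.ax 3 5 9 10 0), .t 1 (nat_lit 0) (.ax 3 5 9 10 3), .t 1 (nat_lit 0) (.ax 3 5 9 10 4), .t 1 (nat_lit 0) (.ax 3 5 9 10 5), .t 1 (nat_lit 0) (.ax 3 5 9 10 6), .t 1 (nat_lit 0) (.ax 3 5 9 10 7), .t 1 (nat_lit 0) (.ax 3 5 9 11 0), .t 1 (nat_lit 0) (.ax 3 5 9 11 2), .t 1 (nat_lit 0) (.ax 3 5 9 11 3), .t 1 (nat_lit 0) (.ax 3 5 9 11 4), .t 1 (nat_lit 0) (.ax 3 5 9 11 5), .t 1 (nat_lit 0) (.ax 3 5 9 12 3), .t 1 (nat_lit 0) (.ax 3 5 9 12 5), .t 1 (nat_lit 0) (.ax 3 5 9 13 0), .t 1 (nat_lit 0) (.ax 3 5 9 13 2), .t 1 (nat_lit 0)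 (.ax 3 5 9 13 4), .t 1 (nat_lit 0) (.ax 3 5 9 13 6), .t 1 (nat_lit 0) (.ax 3 5 9 13 7), .t 1 (nat_lit 0) (.ax 3 5 10 11 0), .t 1 (nat_lit 0) (.ax 3 5 10 11 2), .t 1 (nat_lit 0) (.ax 3 5 10 11 3), .t 1 (nat_lit 0) (.ax 3 5 10 11 5), .t 1 (nat_lit 0) (.ax 3 5 10 12 4), .t 1 (nat_lit 0) (.ax 3 5 10 13 1), .t 1 (nat_lit 0) (.ax 3 5 10 13 2), .t 1 (nat_lit 0) (.ax 3 5 10 13 4), .t 1 (nat_lit 0) (.ax 3 5 10 13 6)] (by decide +kernel) (by decide +kernel)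
theorem b45 : B 1440 1472 := Blk.of_chk [.t 1 (nat_lit 0) (.ax 3 5 10 13 7), .t 1 (nat_lit 0) (.ax 3 5 10 14 0), .t 1 (nat_lit 0) (.ax 3 5 10 14 1), .t 1 (nat_lit 0) (.ax 3 5 10 14 4), .t 1 (nat_lit 0) (.ax 3 5 10 15 1), .t 1 (nat_lit 0) (.ax 3 5 10 15 4), .t 1 (nat_lit 0) (.ax 3 5 11 13 2), .t 1 (nat_lit 0) (.ax 3 5 11 13 4), .t 1 (nat_lit 0) (.ax 3 5 11 13 6), .t 1 (nat_lit 0) (.ax 3 5 11 13 7), .t 1 (nat_lit 0) (.ax 3 5 11 15 4), .t 1 (nat_lit 0) (.ax 3 5 12 13 0), .t 1 (nat_lit 0) (.ax 3 5 12 13 2), .t 1 (nat_lit 0) (.ax 3 5 12 13 3), .t 1 (nat_lit 0) (.ax 3 5 12 13 4), .t 1 (nat_lit 0) (.ax 3 5 12 13 5), .t 1 (nat_lit 0) (.ax 3 5 12 14 4), .t 1 (nat_lit 0) (.ax 3 5 13 14 1), .t 1 (nat_lit 0) (.ax 3 5 13 14 4), .t 1 (nat_lit 0) (.ax 3 5 13 15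 1), .t 1 (nat_lit 0) (.ax 3 5 13 15 4), .t 1 (nat_lit 0) (.ax 3 6 8 9 0), .t 1 (nat_lit 0) (.ax 3 6 8 9 1), .t 1 (nat_lit 0) (.ax 3 6 8 9 2), .t 1 (nat_lit 0) (.ax 3 6 8 9 3), .t 1 (nat_lit 0) (.ax 3 6 8 9 4), .t 1 (nat_lit 0) (.ax 3 6 8 9 5), .t 1 (nat_lit 0) (.ax 3 6 8 9 7), .t 1 (nat_lit 0) (.ax 3 6 8 10 0), .t 1 (nat_lit 0) (.ax 3 6 8 10 2), .t 1 (nat_lit 0) (.ax 3 6 8 10 3), .t 1 (nat_lit 0) (.ax 3 6 8 10 4)] (by decide +kernel) (by decide +kernel)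
theorem b46 : B 1472 1504 := Blk.of_chk [.t 1 (nat_lit 0) (.ax 3 6 8 10 5), .t 1 (nat_lit 0) (.ax 3 6 8 10 7), .t 1 (nat_lit 0) (.ax 3 6 8 11 2), .t 1 (nat_lit 0) (.ax 3 6 8 11 3), .t 1 (nat_lit 0) (.ax 3 6 8 11 4), .t 1 (nat_lit 0) (.ax 3 6 8 11 5), .t 1 (nat_lit 0) (.ax 3 6 8 12 0), .t 1 (nat_lit 0) (.ax 3 6 8 12 1), .t 1 (nat_lit 0) (.ax 3 6 8 12 5), .t 1 (nat_lit 0) (.ax 3 6 8 13 0), .t 1 (nat_lit 0) (.ax 3 6 8 13 2), .t 1 (nat_lit 0) (.ax 3 6 8 13 4), .t 1 (nat_lit 0) (.ax 3 6 8 13 6), .t 1 (nat_lit 0) (.ax 3 6 8 15 0), .t 1 (nat_lit 0) (.ax 3 6 8 15 1), .t 1 (nat_lit 0) (.ax 3 6 8 15 5), .t 1 (nat_lit 0) (.ax 3 6 9 10 0), .t 1 (nat_lit 0) (.ax 3 6 9 10 3), .t 1 (nat_lit 0) (.ax 3 6 9 10 5), .t 1 (nat_lit 0) (.ax 3 6 9 10 6), .t 1 (nat_lit 0)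 (.ax 3 6 9 10 7), .t 1 (nat_lit 0) (.ax 3 6 9 11 0), .t 1 (nat_lit 0) (.ax 3 6 9 11 3), .t 1 (nat_lit 0) (.ax 3 6 9 11 5), .t 1 (nat_lit 0) (.ax 3 6 9 11 6), .t 1 (nat_lit 0) (.ax 3 6 9 12 3), .t 1 (nat_lit 0) (.ax 3 6 9 12 5), .t 1 (nat_lit 0) (.ax 3 6 9 13 4), .t 1 (nat_lit 0) (.ax 3 6 9 13 6), .t 1 (nat_lit 0) (.ax 3 6 9 15 3), .t 1 (nat_lit 0) (.ax 3 6 9 15 5), .t 1 (nat_lit 0) (.ax 3 6 10 11 3)] (by decide +kernel) (by decide +kernel)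
theorem b47 : B 1504 1536 := Blk.of_chk [.t 1 (nat_lit 0) (.ax 3 6 10 11 5), .t 1 (nat_lit 0) (.ax 3 6 10 12 3), .t 1 (nat_lit 0) (.ax 3 6 10 12 5), .t 1 (nat_lit 0) (.ax 3 6 10 13 2), .t 1 (nat_lit 0) (.ax 3 6 10 13 4), .t 1 (nat_lit 0) (.ax 3 6 10 13 6), .t 1 (nat_lit 0) (.ax 3 6 10 14 2), .t 1 (nat_lit 0) (.ax 3 6 10 14 4), .t 1 (nat_lit 0) (.ax 3 6 10 15 4), .t 1 (nat_lit 0) (.ax 3 6 11 12 2), .t 1 (nat_lit 0) (.ax 3 6 11 13 2), .t 1 (nat_lit 0) (.ax 3 6 11 13 4), .t 1 (nat_lit 0) (.ax 3 6 11 13 6), .t 1 (nat_lit 0) (.ax 3 6 11 14 6), .t 1 (nat_lit 0) (.ax 3 6 12 13 2), .t 1 (nat_lit 0) (.ax 3 6 12 13 4), .t 1 (nat_lit 0) (.ax 3 6 12 13 6), .t 1 (nat_lit 0) (.ax 3 6 12 14 4), .t 1 (nat_lit 0) (.ax 3 7 8 9 0), .t 1 (nat_lit 0) (.ax 3 7 8 10 0),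 .t 1 (nat_lit 0) (.ax 3 7 8 10 2), .t 1 (nat_lit 0) (.ax 3 7 8 11 0), .t 1 (nat_lit 0) (.ax 3 7 9 10 0), .t 1 (nat_lit 0) (.ax 3 7 9 11 0), .t 1 (nat_lit 0) (.ax 3 7 10 11 0), .t 1 (nat_lit 0) (.ax 3 7 11 14 0), .t 1 (nat_lit 0) (.ax 3 7 13 14 0), .t 1 (nat_lit 0) (.ax 3 8 9 10 2), .t 1 (nat_lit 0) (.ax 3 8 9 10 4), .t 1 (nat_lit 0) (.ax 3 8 9 10 5), .t 1 (nat_lit 0) (.ax 3 8 9 10 6), .t 1 (nat_lit 0) (.ax 3 8 9 11 0)] (by decide +kernel) (by decide +kernel)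
theorem b48 : B 1536 1568 := Blk.of_chk [.t 1 (nat_lit 0) (.ax 3 8 9 11 2), .t 1 (nat_lit 0) (.ax 3 8 9 11 4), .t 1 (nat_lit 0) (.ax 3 8 9 11 5), .t 1 (nat_lit 0) (.ax 3 8 9 12 0), .t 1 (nat_lit 0) (.ax 3 8 9 12 5), .t 1 (nat_lit 0) (.ax 3 8 9 13 0), .t 1 (nat_lit 0) (.ax 3 8 9 13 4), .t 1 (nat_lit 0) (.ax 3 8 9 15 0), .t 1 (nat_lit 0) (.ax 3 8 9 15 5), .t 1 (nat_lit 0) (.ax 3 8 9 15 7), .t 1 (nat_lit 0) (.ax 3 8 10 11 0), .t 1 (nat_lit 0) (.ax 3 8 10 11 2), .t 1 (nat_lit 0) (.ax 3 8 10 11 4), .t 1 (nat_lit 0) (.ax 3 8 10 11 5), .t 1 (nat_lit 0) (.ax 3 8 10 11 6), .t 1 (nat_lit 0) (.ax 3 8 10 12 2), .t 1 (nat_lit 0) (.ax 3 8 10 12 4), .t 1 (nat_lit 0) (.ax 3 8 10 13 0), .t 1 (nat_lit 0) (.ax 3 8 10 13 2), .t 1 (nat_lit 0) (.ax 3 8 10 13 4), .t 1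 (nat_lit 0) (.ax 3 8 10 13 5), .t 1 (nat_lit 0) (.ax 3 8 10 13 6), .t 1 (nat_lit 0) (.ax 3 8 10 13 7), .t 1 (nat_lit 0) (.ax 3 8 10 14 2), .t 1 (nat_lit 0) (.ax 3 8 10 14 3), .t 1 (nat_lit 0) (.ax 3 8 10 14 4), .t 1 (nat_lit 0) (.ax 3 8 10 14 5), .t 1 (nat_lit 0) (.ax 3 8 10 15 2), .t 1 (nat_lit 0) (.ax 3 8 10 15 4), .t 1 (nat_lit 0) (.ax 3 8 10 15 7), .t 1 (nat_lit 0) (.ax 3 8 11 13 1), .t 1 (nat_lit 0) (.ax 3 8 11 13 2)] (by decide +kernel) (by decide +kernel)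
theorem b49 : B 1568 1600 := Blk.of_chk [.t 1 (nat_lit 0) (.ax 3 8 11 13 4), .t 1 (nat_lit 0) (.ax 3 8 11 13 6), .t 1 (nat_lit 0) (.ax 3 8 11 13 7), .t 1 (nat_lit 0) (.ax 3 8 11 15 1), .t 1 (nat_lit 0) (.ax 3 8 11 15 4), .t 1 (nat_lit 0) (.ax 3 8 12 13 0), .t 1 (nat_lit 0) (.ax 3 8 12 13 1), .t 1 (nat_lit 0) (.ax 3 8 12 13 4), .t 1 (nat_lit 0) (.ax 3 8 12 13 7), .t 1 (nat_lit 0) (.ax 3 8 12 14 1), .t 1 (nat_lit 0) (.ax 3 8 12 14 4), .t 1 (nat_lit 0) (.ax 3 8 12 14 5), .t 1 (nat_lit 0) (.ax 3 8 13 14 1), .t 1 (nat_lit 0) (.ax 3 8 13 14 4), .t 1 (nat_lit 0) (.ax 3 8 13 15 1), .t 1 (nat_lit 0) (.ax 3 8 13 15 4), .t 1 (nat_lit 0) (.ax 3 8 14 15 5), .t 1 (nat_lit 0) (.ax 3 9 10 11 0), .t 1 (nat_lit 0) (.ax 3 9 10 11 1), .t 1 (nat_lit 0) (.ax 3 9 10 11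 4), .t 1 (nat_lit 0) (.ax 3 9 10 11 5), .t 1 (nat_lit 0) (.ax 3 9 10 12 1), .t 1 (nat_lit 0) (.ax 3 9 10 12 3), .t 1 (nat_lit 0) (.ax 3 9 10 12 4), .t 1 (nat_lit 0) (.ax 3 9 10 12 5), .t 1 (nat_lit 0) (.ax 3 9 10 13 2), .t 1 (nat_lit 0) (.ax 3 9 11 13 2), .t 1 (nat_lit 0) (.ax 3 9 11 13 4), .t 1 (nat_lit 0) (.ax 3 9 12 14 3), .t 1 (nat_lit 0) (.ax 3 9 12 14 5), .t 1 (nat_lit 0) (.ax 3 10 11 13 2), .t 1 (nat_lit 0) (.ax 3 10 11 13 4)] (by decide +kernel) (by decide +kernel)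
theorem b50 : B 1600 1632 := Blk.of_chk [.t 1 (nat_lit 0) (.ax 3 10 12 13 5), .t 1 (nat_lit 0) (.ax 3 10 13 14 2), .t 1 (nat_lit 0) (.ax 3 10 13 14 4), .t 1 (nat_lit 0) (.ax 3 10 13 15 2), .t 1 (nat_lit 0) (.ax 3 10 13 15 4), .t 1 (nat_lit 0) (.ax 3 10 14 15 5), .t 1 (nat_lit 0) (.ax 3 10 14 16 5), .t 1 (nat_lit 0) (.ax 3 11 13 14 4), .t 1 (nat_lit 0) (.ax 3 11 13 15 2), .t 1 (nat_lit 0) (.ax 3 11 13 15 4), .t 1 (nat_lit 0) (.ax 3 12 13 14 2), .t 1 (nat_lit 0) (.ax 3 12 13 14 4), .t 1 (nat_lit 0) (.ax 4 5 6 7 2), .t 1 (nat_lit 0) (.ax 4 5 6 8 0), .t 1 (nat_lit 0) (.ax 4 5 6 8 1), .t 1 (nat_lit 0) (.ax 4 5 6 8 2), .t 1 (nat_lit 0) (.ax 4 5 6 8 3), .t 1 (nat_lit 0) (.ax 4 5 6 8 4), .t 1 (nat_lit 0) (.ax 4 5 6 8 5), .t 1 (nat_lit 0) (.ax 4 5 6 9 0),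 .t 1 (nat_lit 0) (.ax 4 5 6 9 1), .t 1 (nat_lit 0) (.ax 4 5 6 9 2), .t 1 (nat_lit 0) (.ax 4 5 6 9 3), .t 1 (nat_lit 0) (.ax 4 5 6 9 4), .t 1 (nat_lit 0) (.ax 4 5 6 9 5), .t 1 (nat_lit 0) (.ax 4 5 6 10 0), .t 1 (nat_lit 0) (.ax 4 5 6 10 1), .t 1 (nat_lit 0) (.ax 4 5 6 10 2), .t 1 (nat_lit 0) (.ax 4 5 6 10 4), .t 1 (nat_lit 0) (.ax 4 5 6 10 5), .t 1 (nat_lit 0) (.ax 4 5 6 11 1), .t 1 (nat_lit 0) (.ax 4 5 6 11 2)] (by decide +kernel) (by decide +kernel)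
theorem b51 : B 1632 1664 := Blk.of_chk [.t 1 (nat_lit 0) (.ax 4 5 6 11 4), .t 1 (nat_lit 0) (.ax 4 5 6 12 0), .t 1 (nat_lit 0) (.ax 4 5 6 12 5), .t 1 (nat_lit 0) (.ax 4 5 6 13 0), .t 1 (nat_lit 0) (.ax 4 5 6 13 2), .t 1 (nat_lit 0) (.ax 4 5 7 8 3), .t 1 (nat_lit 0) (.ax 4 5 7 9 3), .t 1 (nat_lit 0) (.ax 4 5 7 10 3), .t 1 (nat_lit 0) (.ax 4 5 7 11 3), .t 1 (nat_lit 0) (.ax 4 5 7 12 3), .t 1 (nat_lit 0) (.ax 4 5 7 14 3), .t 1 (nat_lit 0) (.ax 4 5 7 15 3), .t 1 (nat_lit 0) (.ax 4 5 7 16 3), .t 1 (nat_lit 0) (.ax 4 5 7 17 3), .t 1 (nat_lit 0) (.ax 4 5 7 18 3), .t 1 (nat_lit 0) (.ax 4 5 7 19 3), .t 1 (nat_lit 0) (.ax 4 5 7 20 3), .t 1 (nat_lit 0) (.ax 4 5 7 21 3), .t 1 (nat_lit 0) (.ax 4 5 7 22 3), .t 1 (nat_lit 0) (.ax 4 5 8 9 0), .t 1 (nat_lit 0) (.ax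 4 5 8 9 1), .t 1 (nat_lit 0) (.ax 4 5 8 9 2), .t 1 (nat_lit 0) (.ax 4 5 8 9 3), .t 1 (nat_lit 0) (.ax 4 5 8 9 4), .t 1 (nat_lit 0) (.ax 4 5 8 9 5), .t 1 (nat_lit 0) (.ax 4 5 8 9 6), .t 1 (nat_lit 0) (.ax 4 5 8 9 7), .t 1 (nat_lit 0) (.ax 4 5 8 10 0), .t 1 (nat_lit 0) (.ax 4 5 8 10 1), .t 1 (nat_lit 0) (.ax 4 5 8 10 2), .t 1 (nat_lit 0) (.ax 4 5 8 10 3), .t 1 (nat_lit 0) (.ax 4 5 8 10 4)] (by decide +kernel) (by decide +kernel)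
theorem b52 : B 1664 1696 := Blk.of_chk [.t 1 (nat_lit 0) (.ax 4 5 8 10 5), .t 1 (nat_lit 0) (.ax 4 5 8 10 6), .t 1 (nat_lit 0) (.ax 4 5 8 10 7), .t 1 (nat_lit 0) (.ax 4 5 8 11 2), .t 1 (nat_lit 0) (.ax 4 5 8 11 3), .t 1 (nat_lit 0) (.ax 4 5 8 11 4), .t 1 (nat_lit 0) (.ax 4 5 8 11 5), .t 1 (nat_lit 0) (.ax 4 5 8 11 7), .t 1 (nat_lit 0) (.ax 4 5 8 12 0), .t 1 (nat_lit 0) (.ax 4 5 8 12 5), .t 1 (nat_lit 0) (.ax 4 5 8 13 0), .t 1 (nat_lit 0) (.ax 4 5 8 13 2), .t 1 (nat_lit 0) (.ax 4 5 8 13 3), .t 1 (nat_lit 0) (.ax 4 5 8 13 6), .t 1 (nat_lit 0) (.ax 4 5 8 13 7), .t 1 (nat_lit 0) (.ax 4 5 8 14 0), .t 1 (nat_lit 0) (.ax 4 5 8 14 6), .t 1 (nat_lit 0) (.ax 4 5 8 14 7), .t 1 (nat_lit 0) (.ax 4 5 8 15 5), .t 1 (nat_lit 0) (.ax 4 5 8 16 6), .t 1 (nat_lit 0)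 (.ax 4 5 8 16 7), .t 1 (nat_lit 0) (.ax 4 5 8 22 6), .t 1 (nat_lit 0) (.ax 4 5 9 10 0), .t 1 (nat_lit 0) (.ax 4 5 9 10 1), .t 1 (nat_lit 0) (.ax 4 5 9 10 2), .t 1 (nat_lit 0) (.ax 4 5 9 10 3), .t 1 (nat_lit 0) (.ax 4 5 9 10 4), .t 1 (nat_lit 0) (.ax 4 5 9 10 5), .t 1 (nat_lit 0) (.ax 4 5 9 10 6), .t 1 (nat_lit 0) (.ax 4 5 9 10 7), .t 1 (nat_lit 0) (.ax 4 5 9 11 0), .t 1 (nat_lit 0) (.ax 4 5 9 11 1)] (by decide +kernel) (by decide +kernel)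
theorem b53 : B 1696 1728 := Blk.of_chk [.t 1 (nat_lit 0) (.ax 4 5 9 11 2), .t 1 (nat_lit 0) (.ax 4 5 9 11 3), .t 1 (nat_lit 0) (.ax 4 5 9 11 4), .t 1 (nat_lit 0) (.ax 4 5 9 11 5), .t 1 (nat_lit 0) (.ax 4 5 9 11 6), .t 1 (nat_lit 0) (.ax 4 5 9 11 7), .t 1 (nat_lit 0) (.ax 4 5 9 12 2), .t 1 (nat_lit 0) (.ax 4 5 9 12 3), .t 1 (nat_lit 0) (.ax 4 5 9 12 5), .t 1 (nat_lit 0) (.ax 4 5 9 12 7), .t 1 (nat_lit 0) (.ax 4 5 9 13 2), .t 1 (nat_lit 0) (.ax 4 5 9 13 4), .t 1 (nat_lit 0) (.ax 4 5 9 13 6), .t 1 (nat_lit 0) (.ax 4 5 9 14 7), .t 1 (nat_lit 0) (.ax 4 5 9 16 4), .t 1 (nat_lit 0) (.ax 4 5 9 16 6), .t 1 (nat_lit 0) (.ax 4 5 10 11 0), .t 1 (nat_lit 0) (.ax 4 5 10 11 2), .t 1 (nat_lit 0) (.ax 4 5 10 11 3), .t 1 (nat_lit 0) (.ax 4 5 10 11 4), .t 1 (nat_lit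 0) (.ax 4 5 10 11 5), .t 1 (nat_lit 0) (.ax 4 5 10 11 6), .t 1 (nat_lit 0) (.ax 4 5 10 11 7), .t 1 (nat_lit 0) (.ax 4 5 10 12 2), .t 1 (nat_lit 0) (.ax 4 5 10 13 2), .t 1 (nat_lit 0) (.ax 4 5 10 13 4), .t 1 (nat_lit 0) (.ax 4 5 10 13 6), .t 1 (nat_lit 0) (.ax 4 5 10 14 0), .t 1 (nat_lit 0) (.ax 4 5 10 14 2), .t 1 (nat_lit 0) (.ax 4 5 10 14 4), .t 1 (nat_lit 0) (.ax 4 5 10 15 2), .t 1 (nat_lit 0) (.ax 4 5 10 15 4)] (by decide +kernel) (by decide +kernel)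
theorem b54 : B 1728 1760 := Blk.of_chk [.t 1 (nat_lit 0) (.ax 4 5 10 15 7), .t 1 (nat_lit 0) (.ax 4 5 10 16 2), .t 1 (nat_lit 0) (.ax 4 5 10 16 6), .t 1 (nat_lit 0) (.ax 4 5 10 16 7), .t 1 (nat_lit 0) (.ax 4 5 11 12 2), .t 1 (nat_lit 0) (.ax 4 5 11 12 7), .t 1 (nat_lit 0) (.ax 4 5 11 13 2), .t 1 (nat_lit 0) (.ax 4 5 11 13 4), .t 1 (nat_lit 0) (.ax 4 5 11 13 6), .t 1 (nat_lit 0) (.ax 4 5 11 14 0), .t 1 (nat_lit 0) (.ax 4 5 11 14 2), .t 1 (nat_lit 0) (.ax 4 5 11 14 7), .t 1 (nat_lit 0) (.ax 4 5 11 15 2), .t 1 (nat_lit 0) (.ax 4 5 11 15 7), .t 1 (nat_lit 0) (.ax 4 5 11 16 1), .t 1 (nat_lit 0) (.ax 4 5 11 16 2), .t 1 (nat_lit 0) (.ax 4 5 11 16 4), .t 1 (nat_lit 0) (.ax 4 5 11 16 6), .t 1 (nat_lit 0) (.ax 4 5 11 16 7), .t 1 (nat_lit 0) (.ax 4 5 11 17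 3), .t 1 (nat_lit 0) (.ax 4 5 11 18 3), .t 1 (nat_lit 0) (.ax 4 5 11 19 3), .t 1 (nat_lit 0) (.ax 4 5 11 20 3), .t 1 (nat_lit 0) (.ax 4 5 11 21 3), .t 1 (nat_lit 0) (.ax 4 5 11 22 3), .t 1 (nat_lit 0) (.ax 4 5 12 13 2), .t 1 (nat_lit 0) (.ax 4 5 12 13 3), .t 1 (nat_lit 0) (.ax 4 5 12 13 4), .t 1 (nat_lit 0) (.ax 4 5 12 13 5), .t 1 (nat_lit 0) (.ax 4 5 12 13 6), .t 1 (nat_lit 0) (.ax 4 5 12 14 6), .t 1 (nat_lit 0) (.ax 4 5 12 15 6)] (by decide +kernel) (by decide +kernel)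
theorem b55 : B 1760 1792 := Blk.of_chk [.t 1 (nat_lit 0) (.ax 4 5 12 16 6), .t 1 (nat_lit 0) (.ax 4 5 13 14 4), .t 1 (nat_lit 0) (.ax 4 5 13 15 4), .t 1 (nat_lit 0) (.ax 4 5 13 16 4), .t 1 (nat_lit 0) (.ax 4 5 14 16 6), .t 1 (nat_lit 0) (.ax 4 6 7 8 3), .t 1 (nat_lit 0) (.ax 4 6 7 9 3), .t 1 (nat_lit 0) (.ax 4 6 7 10 3), .t 1 (nat_lit 0) (.ax 4 6 7 11 3), .t 1 (nat_lit 0) (.ax 4 6 7 12 3), .t 1 (nat_lit 0) (.ax 4 6 7 14 3), .t 1 (nat_lit 0) (.ax 4 6 7 15 3), .t 1 (nat_lit 0) (.ax 4 6 7 17 3), .t 1 (nat_lit 0) (.ax 4 6 7 18 3), .t 1 (nat_lit 0) (.ax 4 6 7 19 3), .t 1 (nat_lit 0) (.ax 4 6 7 20 3), .t 1 (nat_lit 0) (.ax 4 6 7 21 3), .t 1 (nat_lit 0) (.ax 4 6 7 22 3), .t 1 (nat_lit 0) (.ax 4 6 8 9 0), .t 1 (nat_lit 0) (.ax 4 6 8 9 1), .t 1 (nat_lit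 0) (.ax 4 6 8 9 2), .t 1 (nat_lit 0) (.ax 4 6 8 9 3), .t 1 (nat_lit 0) (.ax 4 6 8 9 4), .t 1 (nat_lit 0) (.ax 4 6 8 9 5), .t 1 (nat_lit 0) (.ax 4 6 8 9 7), .t 1 (nat_lit 0) (.ax 4 6 8 10 0), .t 1 (nat_lit 0) (.ax 4 6 8 10 1), .t 1 (nat_lit 0) (.ax 4 6 8 10 2), .t 1 (nat_lit 0) (.ax 4 6 8 10 3), .t 1 (nat_lit 0) (.ax 4 6 8 10 4), .t 1 (nat_lit 0) (.ax 4 6 8 10 5), .t 1 (nat_lit 0) (.ax 4 6 8 10 7)] (by decide +kernel) (by decide +kernel)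
theorem b56 : B 1792 1824 := Blk.of_chk [.t 1 (nat_lit 0) (.ax 4 6 8 11 0), .t 1 (nat_lit 0) (.ax 4 6 8 11 2), .t 1 (nat_lit 0) (.ax 4 6 8 11 3), .t 1 (nat_lit 0) (.ax 4 6 8 11 4), .t 1 (nat_lit 0) (.ax 4 6 8 11 5), .t 1 (nat_lit 0) (.ax 4 6 8 11 7), .t 1 (nat_lit 0) (.ax 4 6 8 12 3), .t 1 (nat_lit 0) (.ax 4 6 8 12 5), .t 1 (nat_lit 0) (.ax 4 6 8 12 7), .t 1 (nat_lit 0) (.ax 4 6 8 13 0), .t 1 (nat_lit 0) (.ax 4 6 8 13 2), .t 1 (nat_lit 0) (.ax 4 6 8 13 4), .t 1 (nat_lit 0) (.ax 4 6 8 13 6), .t 1 (nat_lit 0) (.ax 4 6 8 13 7), .t 1 (nat_lit 0) (.ax 4 6 8 15 5), .t 1 (nat_lit 0) (.ax 4 6 8 16 0), .t 1 (nat_lit 0) (.ax 4 6 8 16 4), .t 1 (nat_lit 0) (.ax 4 6 8 16 6), .t 1 (nat_lit 0) (.ax 4 6 9 10 0), .t 1 (nat_lit 0) (.ax 4 6 9 10 1), .t 1 (nat_lit 0)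 (.ax 4 6 9 10 2), .t 1 (nat_lit 0) (.ax 4 6 9 10 3), .t 1 (nat_lit 0) (.ax 4 6 9 10 4), .t 1 (nat_lit 0) (.ax 4 6 9 10 5), .t 1 (nat_lit 0) (.ax 4 6 9 10 6), .t 1 (nat_lit 0) (.ax 4 6 9 10 7), .t 1 (nat_lit 0) (.ax 4 6 9 11 0), .t 1 (nat_lit 0) (.ax 4 6 9 11 2), .t 1 (nat_lit 0) (.ax 4 6 9 11 3), .t 1 (nat_lit 0) (.ax 4 6 9 11 4), .t 1 (nat_lit 0) (.ax 4 6 9 11 5), .t 1 (nat_lit 0) (.ax 4 6 9 11 6)] (by decide +kernel) (by decide +kernel)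
theorem b57 : B 1824 1856 := Blk.of_chk [.t 1 (nat_lit 0) (.ax 4 6 9 11 7), .t 1 (nat_lit 0) (.ax 4 6 9 12 3), .t 1 (nat_lit 0) (.ax 4 6 9 12 7), .t 1 (nat_lit 0) (.ax 4 6 9 13 0), .t 1 (nat_lit 0) (.ax 4 6 9 13 2), .t 1 (nat_lit 0) (.ax 4 6 9 13 4), .t 1 (nat_lit 0) (.ax 4 6 9 13 6), .t 1 (nat_lit 0) (.ax 4 6 9 14 3), .t 1 (nat_lit 0) (.ax 4 6 9 16 4), .t 1 (nat_lit 0) (.ax 4 6 9 22 6), .t 1 (nat_lit 0) (.ax 4 6 10 11 0), .t 1 (nat_lit 0) (.ax 4 6 10 11 2), .t 1 (nat_lit 0) (.ax 4 6 10 11 3), .t 1 (nat_lit 0) (.ax 4 6 10 11 5), .t 1 (nat_lit 0) (.ax 4 6 10 11 6), .t 1 (nat_lit 0) (.ax 4 6 10 11 7), .t 1 (nat_lit 0) (.ax 4 6 10 12 0), .t 1 (nat_lit 0) (.ax 4 6 10 12 3), .t 1 (nat_lit 0) (.ax 4 6 10 12 5), .t 1 (nat_lit 0) (.ax 4 6 10 12 7), .t 1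 (nat_lit 0) (.ax 4 6 10 13 0), .t 1 (nat_lit 0) (.ax 4 6 10 13 2), .t 1 (nat_lit 0) (.ax 4 6 10 13 4), .t 1 (nat_lit 0) (.ax 4 6 10 13 6), .t 1 (nat_lit 0) (.ax 4 6 10 14 2), .t 1 (nat_lit 0) (.ax 4 6 10 14 3), .t 1 (nat_lit 0) (.ax 4 6 10 15 2), .t 1 (nat_lit 0) (.ax 4 6 10 16 2), .t 1 (nat_lit 0) (.ax 4 6 10 16 4), .t 1 (nat_lit 0) (.ax 4 6 10 16 6), .t 1 (nat_lit 0) (.ax 4 6 11 12 2), .t 1 (nat_lit 0) (.ax 4 6 11 12 7)] (by decide +kernel) (by decide +kernel)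
theorem b58 : B 1856 1888 := Blk.of_chk [.t 1 (nat_lit 0) (.ax 4 6 11 13 0), .t 1 (nat_lit 0) (.ax 4 6 11 13 2), .t 1 (nat_lit 0) (.ax 4 6 11 13 4), .t 1 (nat_lit 0) (.ax 4 6 11 13 6), .t 1 (nat_lit 0) (.ax 4 6 11 14 2), .t 1 (nat_lit 0) (.ax 4 6 11 14 6), .t 1 (nat_lit 0) (.ax 4 6 11 14 7), .t 1 (nat_lit 0) (.ax 4 6 11 15 2), .t 1 (nat_lit 0) (.ax 4 6 11 15 7), .t 1 (nat_lit 0) (.ax 4 6 11 16 2), .t 1 (nat_lit 0) (.ax 4 6 11 16 4), .t 1 (nat_lit 0) (.ax 4 6 11 16 6), .t 1 (nat_lit 0) (.ax 4 6 11 16 7), .t 1 (nat_lit 0) (.ax 4 6 12 13 0), .t 1 (nat_lit 0) (.ax 4 6 12 13 2), .t 1 (nat_lit 0) (.ax 4 6 12 13 4), .t 1 (nat_lit 0) (.ax 4 6 12 13 6), .t 1 (nat_lit 0) (.ax 4 6 12 15 6), .t 1 (nat_lit 0) (.ax 4 6 12 16 6), .t 1 (nat_lit 0) (.ax 4 6 13 16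 4), .t 1 (nat_lit 0) (.ax 4 6 13 16 6), .t 1 (nat_lit 0) (.ax 4 6 15 16 6), .t 1 (nat_lit 0) (.ax 4 7 8 9 0), .t 1 (nat_lit 0) (.ax 4 7 8 9 2), .t 1 (nat_lit 0) (.ax 4 7 8 10 0), .t 1 (nat_lit 0) (.ax 4 7 8 11 0), .t 1 (nat_lit 0) (.ax 4 7 8 11 2), .t 1 (nat_lit 0) (.ax 4 7 8 12 0), .t 1 (nat_lit 0) (.ax 4 7 8 15 0), .t 1 (nat_lit 0) (.ax 4 7 9 10 0), .t 1 (nat_lit 0) (.ax 4 7 9 10 2), .t 1 (nat_lit 0) (.ax 4 7 9 11 0)] (by decide +kernel) (by decide +kernel)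
theorem b59 : B 1888 1920 := Blk.of_chk [.t 1 (nat_lit 0) (.ax 4 7 9 11 2), .t 1 (nat_lit 0) (.ax 4 7 9 12 0), .t 1 (nat_lit 0) (.ax 4 7 9 15 0), .t 1 (nat_lit 0) (.ax 4 7 10 11 0), .t 1 (nat_lit 0) (.ax 4 7 10 11 2), .t 1 (nat_lit 0) (.ax 4 7 10 16 0), .t 1 (nat_lit 0) (.ax 4 7 11 12 0), .t 1 (nat_lit 0) (.ax 4 7 11 14 0), .t 1 (nat_lit 0) (.ax 4 7 11 15 0), .t 1 (nat_lit 0) (.ax 4 7 11 16 0), .t 1 (nat_lit 0) (.ax 4 7 12 14 0), .t 1 (nat_lit 0) (.ax 4 7 12 15 0), .t 1 (nat_lit 0) (.ax 4 7 12 16 0), .t 1 (nat_lit 0) (.ax 4 7 13 14 0), .t 1 (nat_lit 0) (.ax 4 7 13 17 0), .t 1 (nat_lit 0) (.ax 4 7 13 18 0), .t 1 (nat_lit 0) (.ax 4 7 13 20 0), .t 1 (nat_lit 0) (.ax 4 7 13 21 0), .t 1 (nat_lit 0) (.ax 4 7 13 22 0), .t 1 (nat_lit 0) (.ax 4 7 15 16 0),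 .t 1 (nat_lit 0) (.ax 4 8 9 10 0), .t 1 (nat_lit 0) (.ax 4 8 9 10 1), .t 1 (nat_lit 0) (.ax 4 8 9 10 2), .t 1 (nat_lit 0) (.ax 4 8 9 10 3), .t 1 (nat_lit 0) (.ax 4 8 9 10 4), .t 1 (nat_lit 0) (.ax 4 8 9 10 5), .t 1 (nat_lit 0) (.ax 4 8 9 10 6), .t 1 (nat_lit 0) (.ax 4 8 9 10 7), .t 1 (nat_lit 0) (.ax 4 8 9 11 0), .t 1 (nat_lit 0) (.ax 4 8 9 11 1), .t 1 (nat_lit 0) (.ax 4 8 9 11 2), .t 1 (nat_lit 0) (.ax 4 8 9 11 4)] (by decide +kernel) (by decide +kernel)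
theorem b60 : B 1920 1952 := Blk.of_chk [.t 1 (nat_lit 0) (.ax 4 8 9 11 5), .t 1 (nat_lit 0) (.ax 4 8 9 11 6), .t 1 (nat_lit 0) (.ax 4 8 9 11 7), .t 1 (nat_lit 0) (.ax 4 8 9 12 0), .t 1 (nat_lit 0) (.ax 4 8 9 13 0), .t 1 (nat_lit 0) (.ax 4 8 9 13 2), .t 1 (nat_lit 0) (.ax 4 8 9 13 4), .t 1 (nat_lit 0) (.ax 4 8 9 13 5), .t 1 (nat_lit 0) (.ax 4 8 9 13 6), .t 1 (nat_lit 0) (.ax 4 8 9 13 7), .t 1 (nat_lit 0) (.ax 4 8 9 14 2), .t 1 (nat_lit 0) (.ax 4 8 9 14 4), .t 1 (nat_lit 0) (.ax 4 8 9 15 4), .t 1 (nat_lit 0) (.ax 4 8 9 16 2), .t 1 (nat_lit 0) (.ax 4 8 9 16 4), .t 1 (nat_lit 0) (.ax 4 8 9 16 6), .t 1 (nat_lit 0) (.ax 4 8 9 16 7), .t 1 (nat_lit 0) (.ax 4 8 9 22 6), .t 1 (nat_lit 0) (.ax 4 8 10 11 0), .t 1 (nat_lit 0) (.ax 4 8 10 11 2), .t 1 (nat_lit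 0) (.ax 4 8 10 11 3), .t 1 (nat_lit 0) (.ax 4 8 10 11 4), .t 1 (nat_lit 0) (.ax 4 8 10 11 5), .t 1 (nat_lit 0) (.ax 4 8 10 11 6), .t 1 (nat_lit 0) (.ax 4 8 10 11 7), .t 1 (nat_lit 0) (.ax 4 8 10 12 2), .t 1 (nat_lit 0) (.ax 4 8 10 12 3), .t 1 (nat_lit 0) (.ax 4 8 10 12 4), .t 1 (nat_lit 0) (.ax 4 8 10 12 6), .t 1 (nat_lit 0) (.ax 4 8 10 12 7), .t 1 (nat_lit 0) (.ax 4 8 10 13 0), .t 1 (nat_lit 0) (.ax 4 8 10 13 1)] (by decide +kernel) (by decide +kernel)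
theorem b61 : B 1952 1984 := Blk.of_chk [.t 1 (nat_lit 0) (.ax 4 8 10 13 2), .t 1 (nat_lit 0) (.ax 4 8 10 13 4), .t 1 (nat_lit 0) (.ax 4 8 10 13 5), .t 1 (nat_lit 0) (.ax 4 8 10 13 6), .t 1 (nat_lit 0) (.ax 4 8 10 14 2), .t 1 (nat_lit 0) (.ax 4 8 10 14 3), .t 1 (nat_lit 0) (.ax 4 8 10 14 4), .t 1 (nat_lit 0) (.ax 4 8 10 14 5), .t 1 (nat_lit 0) (.ax 4 8 10 15 2), .t 1 (nat_lit 0) (.ax 4 8 10 15 4), .t 1 (nat_lit 0) (.ax 4 8 10 16 1), .t 1 (nat_lit 0) (.ax 4 8 10 16 2), .t 1 (nat_lit 0) (.ax 4 8 10 16 6), .t 1 (nat_lit 0) (.ax 4 8 10 16 7), .t 1 (nat_lit 0) (.ax 4 8 11 12 2), .t 1 (nat_lit 0) (.ax 4 8 11 12 3), .t 1 (nat_lit 0) (.ax 4 8 11 13 0), .t 1 (nat_lit 0) (.ax 4 8 11 13 1), .t 1 (nat_lit 0) (.ax 4 8 11 13 2), .t 1 (nat_lit 0) (.ax 4 8 11 13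 3), .t 1 (nat_lit 0) (.ax 4 8 11 13 4), .t 1 (nat_lit 0) (.ax 4 8 11 13 6), .t 1 (nat_lit 0) (.ax 4 8 11 13 7), .t 1 (nat_lit 0) (.ax 4 8 11 14 0), .t 1 (nat_lit 0) (.ax 4 8 11 14 2), .t 1 (nat_lit 0) (.ax 4 8 11 14 3), .t 1 (nat_lit 0) (.ax 4 8 11 15 2), .t 1 (nat_lit 0) (.ax 4 8 11 15 4), .t 1 (nat_lit 0) (.ax 4 8 11 16 0), .t 1 (nat_lit 0) (.ax 4 8 11 16 2), .t 1 (nat_lit 0) (.ax 4 8 11 16 4), .t 1 (nat_lit 0) (.ax 4 8 11 16 6)] (by decide +kernel) (by decide +kernel)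
theorem b62 : B 1984 2016 := Blk.of_chk [.t 1 (nat_lit 0) (.ax 4 8 11 19 2), .t 1 (nat_lit 0) (.ax 4 8 12 13 0), .t 1 (nat_lit 0) (.ax 4 8 12 13 4), .t 1 (nat_lit 0) (.ax 4 8 12 13 7), .t 1 (nat_lit 0) (.ax 4 8 12 14 4), .t 1 (nat_lit 0) (.ax 4 8 12 16 0), .t 1 (nat_lit 0) (.ax 4 8 13 14 4), .t 1 (nat_lit 0) (.ax 4 8 13 15 4), .t 1 (nat_lit 0) (.ax 4 8 13 16 4), .t 1 (nat_lit 0) (.ax 4 8 14 16 4), .t 1 (nat_lit 0) (.ax 4 8 14 16 6), .t 1 (nat_lit 0) (.ax 4 8 14 16 7), .t 1 (nat_lit 0) (.ax 4 8 15 16 6), .t 1 (nat_lit 0) (.ax 4 9 10 11 0), .t 1 (nat_lit 0) (.ax 4 9 10 11 1), .t 1 (nat_lit 0) (.ax 4 9 10 11 2), .t 1 (nat_lit 0) (.ax 4 9 10 11 3), .t 1 (nat_lit 0) (.ax 4 9 10 11 4), .t 1 (nat_lit 0) (.ax 4 9 10 11 5), .t 1 (nat_lit 0) (.ax 4 9 10 11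 6), .t 1 (nat_lit 0) (.ax 4 9 10 11 7), .t 1 (nat_lit 0) (.ax 4 9 10 12 2), .t 1 (nat_lit 0) (.ax 4 9 10 12 3), .t 1 (nat_lit 0) (.ax 4 9 10 12 4), .t 1 (nat_lit 0) (.ax 4 9 10 12 5), .t 1 (nat_lit 0) (.ax 4 9 10 13 1), .t 1 (nat_lit 0) (.ax 4 9 10 13 2), .t 1 (nat_lit 0) (.ax 4 9 10 13 4), .t 1 (nat_lit 0) (.ax 4 9 10 13 5), .t 1 (nat_lit 0) (.ax 4 9 10 13 6), .t 1 (nat_lit 0) (.ax 4 9 10 13 7), .t 1 (nat_lit 0) (.ax 4 9 10 14 2)] (by decide +kernel) (by decide +kernel)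
theorem b63 : B 2016 2048 := Blk.of_chk [.t 1 (nat_lit 0) (.ax 4 9 10 15 2), .t 1 (nat_lit 0) (.ax 4 9 10 16 7), .t 1 (nat_lit 0) (.ax 4 9 10 22 1), .t 1 (nat_lit 0) (.ax 4 9 10 22 4), .t 1 (nat_lit 0) (.ax 4 9 11 12 0), .t 1 (nat_lit 0) (.ax 4 9 11 12 2), .t 1 (nat_lit 0) (.ax 4 9 11 12 3), .t 1 (nat_lit 0) (.ax 4 9 11 12 7), .t 1 (nat_lit 0) (.ax 4 9 11 13 0), .t 1 (nat_lit 0) (.ax 4 9 11 13 1), .t 1 (nat_lit 0) (.ax 4 9 11 13 2), .t 1 (nat_lit 0) (.ax 4 9 11 13 4), .t 1 (nat_lit 0) (.ax 4 9 11 13 6), .t 1 (nat_lit 0) (.ax 4 9 11 14 5), .t 1 (nat_lit 0) (.ax 4 9 11 14 7), .t 1 (nat_lit 0) (.ax 4 9 11 15 7), .t 1 (nat_lit 0) (.ax 4 9 11 16 0), .t 1 (nat_lit 0) (.ax 4 9 11 16 1), .t 1 (nat_lit 0) (.ax 4 9 11 16 6), .t 1 (nat_lit 0) (.ax 4 9 11 16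 7), .t 1 (nat_lit 0) (.ax 4 9 11 19 3), .t 1 (nat_lit 0) (.ax 4 9 11 22 7), .t 1 (nat_lit 0) (.ax 4 9 12 13 0), .t 1 (nat_lit 0) (.ax 4 9 12 13 1), .t 1 (nat_lit 0) (.ax 4 9 12 13 2), .t 1 (nat_lit 0) (.ax 4 9 12 13 4), .t 1 (nat_lit 0) (.ax 4 9 12 13 7), .t 1 (nat_lit 0) (.ax 4 9 12 14 0), .t 1 (nat_lit 0) (.ax 4 9 12 14 3), .t 1 (nat_lit 0) (.ax 4 9 12 14 5), .t 1 (nat_lit 0) (.ax 4 9 12 14 7), .t 1 (nat_lit 0) (.ax 4 9 12 15 7)] (by decide +kernel) (by decide +kernel)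
theorem b64 : B 2048 2080 := Blk.of_chk [.t 1 (nat_lit 0) (.ax 4 9 12 16 7), .t 1 (nat_lit 0) (.ax 4 9 12 19 4), .t 1 (nat_lit 0) (.ax 4 9 13 14 4), .t 1 (nat_lit 0) (.ax 4 9 13 15 4), .t 1 (nat_lit 0) (.ax 4 9 13 16 4), .t 1 (nat_lit 0) (.ax 4 9 14 15 4), .t 1 (nat_lit 0) (.ax 4 9 14 16 0), .t 1 (nat_lit 0) (.ax 4 9 14 16 2), .t 1 (nat_lit 0) (.ax 4 9 14 16 4), .t 1 (nat_lit 0) (.ax 4 9 14 16 6), .t 1 (nat_lit 0) (.ax 4 9 14 16 7), .t 1 (nat_lit 0) (.ax 4 9 14 19 6), .t 1 (nat_lit 0) (.ax 4 9 15 16 1), .t 1 (nat_lit 0) (.ax 4 9 15 16 3), .t 1 (nat_lit 0) (.ax 4 9 15 16 4), .t 1 (nat_lit 0) (.ax 4 10 11 12 0), .t 1 (nat_lit 0) (.ax 4 10 11 12 2), .t 1 (nat_lit 0) (.ax 4 10 11 12 3), .t 1 (nat_lit 0) (.ax 4 10 11 12 5), .t 1 (nat_lit 0) (.ax 4 10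 11 12 7), .t 1 (nat_lit 0) (.ax 4 10 11 13 1), .t 1 (nat_lit 0) (.ax 4 10 11 13 2), .t 1 (nat_lit 0) (.ax 4 10 11 13 4), .t 1 (nat_lit 0) (.ax 4 10 11 13 5), .t 1 (nat_lit 0) (.ax 4 10 11 13 6), .t 1 (nat_lit 0) (.ax 4 10 11 13 7), .t 1 (nat_lit 0) (.ax 4 10 11 14 0), .t 1 (nat_lit 0) (.ax 4 10 11 14 2), .t 1 (nat_lit 0) (.ax 4 10 11 14 3), .t 1 (nat_lit 0) (.ax 4 10 11 14 5), .t 1 (nat_lit 0) (.ax 4 10 11 14 7), .t 1 (nat_lit 0) (.ax 4 10 11 15 0)] (by decide +kernel) (by decide +kernel)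
theorem b65 : B 2080 2112 := Blk.of_chk [.t 1 (nat_lit 0) (.ax 4 10 11 15 2), .t 1 (nat_lit 0) (.ax 4 10 11 15 3), .t 1 (nat_lit 0) (.ax 4 10 11 15 4), .t 1 (nat_lit 0) (.ax 4 10 11 15 7), .t 1 (nat_lit 0) (.ax 4 10 11 16 0), .t 1 (nat_lit 0) (.ax 4 10 11 16 1), .t 1 (nat_lit 0) (.ax 4 10 11 16 2), .t 1 (nat_lit 0) (.ax 4 10 11 16 6), .t 1 (nat_lit 0) (.ax 4 10 11 16 7), .t 1 (nat_lit 0) (.ax 4 10 12 13 0), .t 1 (nat_lit 0) (.ax 4 10 12 13 2), .t 1 (nat_lit 0) (.ax 4 10 12 13 5), .t 1 (nat_lit 0) (.ax 4 10 12 13 7), .t 1 (nat_lit 0) (.ax 4 10 12 14 5), .t 1 (nat_lit 0) (.ax 4 10 12 15 0), .t 1 (nat_lit 0) (.ax 4 10 12 16 0), .t 1 (nat_lit 0) (.ax 4 10 12 16 2), .t 1 (nat_lit 0) (.ax 4 10 12 16 4), .t 1 (nat_lit 0) (.ax 4 10 12 22 0), .t 1 (nat_lit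 0) (.ax 4 10 13 14 4), .t 1 (nat_lit 0) (.ax 4 10 13 15 4), .t 1 (nat_lit 0) (.ax 4 10 13 16 4), .t 1 (nat_lit 0) (.ax 4 10 14 15 1), .t 1 (nat_lit 0) (.ax 4 10 14 15 2), .t 1 (nat_lit 0) (.ax 4 10 14 16 0), .t 1 (nat_lit 0) (.ax 4 10 14 16 4), .t 1 (nat_lit 0) (.ax 4 10 14 16 7), .t 1 (nat_lit 0) (.ax 4 10 15 16 1), .t 1 (nat_lit 0) (.ax 4 10 15 16 6), .t 1 (nat_lit 0) (.ax 4 11 12 13 0), .t 1 (nat_lit 0) (.ax 4 11 12 13 1), .t 1 (nat_lit 0) (.ax 4 11 12 13 4)] (by decide +kernel) (by decide +kernel)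
theorem b66 : B 2112 2144 := Blk.of_chk [.t 1 (nat_lit 0) (.ax 4 11 12 13 7), .t 1 (nat_lit 0) (.ax 4 11 12 14 0), .t 1 (nat_lit 0) (.ax 4 11 12 14 1), .t 1 (nat_lit 0) (.ax 4 11 12 14 2), .t 1 (nat_lit 0) (.ax 4 11 12 14 3), .t 1 (nat_lit 0) (.ax 4 11 12 14 4), .t 1 (nat_lit 0) (.ax 4 11 12 15 0), .t 1 (nat_lit 0) (.ax 4 11 12 15 2), .t 1 (nat_lit 0) (.ax 4 11 12 15 4), .t 1 (nat_lit 0) (.ax 4 11 12 16 0), .t 1 (nat_lit 0) (.ax 4 11 12 16 1), .t 1 (nat_lit 0) (.ax 4 11 12 16 2), .t 1 (nat_lit 0) (.ax 4 11 12 16 4), .t 1 (nat_lit 0) (.ax 4 11 12 16 6), .t 1 (nat_lit 0) (.ax 4 11 12 16 7), .t 1 (nat_lit 0) (.ax 4 11 12 19 4), .t 1 (nat_lit 0) (.ax 4 11 13 14 4), .t 1 (nat_lit 0) (.ax 4 11 13 15 4), .t 1 (nat_lit 0) (.ax 4 11 13 16 4), .t 1 (nat_lit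 0) (.ax 4 11 14 15 0), .t 1 (nat_lit 0) (.ax 4 11 14 15 2), .t 1 (nat_lit 0) (.ax 4 11 14 15 4), .t 1 (nat_lit 0) (.ax 4 11 14 16 0), .t 1 (nat_lit 0) (.ax 4 11 14 16 2), .t 1 (nat_lit 0) (.ax 4 11 14 16 4), .t 1 (nat_lit 0) (.ax 4 11 14 16 7), .t 1 (nat_lit 0) (.ax 4 11 14 19 0), .t 1 (nat_lit 0) (.ax 4 11 14 19 4), .t 1 (nat_lit 0) (.ax 4 11 15 16 0), .t 1 (nat_lit 0) (.ax 4 11 15 16 1), .t 1 (nat_lit 0) (.ax 4 11 15 16 4), .t 1 (nat_lit 0) (.ax 4 11 15 16 6)] (by decide +kernel) (by decide +kernel)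
theorem b67 : B 2144 2176 := Blk.of_chk [.t 1 (nat_lit 0) (.ax 4 11 15 19 4), .t 1 (nat_lit 0) (.ax 4 11 16 17 4), .t 1 (nat_lit 0) (.ax 4 11 16 18 4), .t 1 (nat_lit 0) (.ax 4 11 16 19 4), .t 1 (nat_lit 0) (.ax 4 11 16 20 4), .t 1 (nat_lit 0) (.ax 4 11 16 21 4), .t 1 (nat_lit 0) (.ax 4 11 16 22 4), .t 1 (nat_lit 0) (.ax 4 12 13 14 4), .t 1 (nat_lit 0) (.ax 4 12 13 15 4), .t 1 (nat_lit 0) (.ax 4 12 13 16 4), .t 1 (nat_lit 0) (.ax 4 12 14 15 1), .t 1 (nat_lit 0) (.ax 4 12 14 16 0), .t 1 (nat_lit 0) (.ax 4 12 14 16 1), .t 1 (nat_lit 0) (.ax 4 12 14 16 4), .t 1 (nat_lit 0) (.ax 4 12 14 16 6), .t 1 (nat_lit 0) (.ax 4 12 14 16 7), .t 1 (nat_lit 0) (.ax 4 12 14 22 0), .t 1 (nat_lit 0) (.ax 4 12 15 16 4), .t 1 (nat_lit 0) (.ax 4 12 15 16 6), .t 1 (nat_lit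 0) (.ax 4 12 17 20 2), .t 1 (nat_lit 0) (.ax 4 12 17 22 7), .t 1 (nat_lit 0) (.ax 4 12 18 20 2), .t 1 (nat_lit 0) (.ax 4 12 18 22 7), .t 1 (nat_lit 0) (.ax 4 13 16 17 0), .t 1 (nat_lit 0) (.ax 4 13 16 18 0), .t 1 (nat_lit 0) (.ax 4 13 16 20 0), .t 1 (nat_lit 0) (.ax 4 13 16 21 0), .t 1 (nat_lit 0) (.ax 4 13 16 22 0), .t 1 (nat_lit 0) (.ax 4 14 15 16 1), .t 1 (nat_lit 0) (.ax 4 14 15 16 4), .t 1 (nat_lit 0) (.ax 4 15 16 19 4), .t 1 (nat_lit 0) (.ax 4 15 16 22 4)] (by decide +kernel) (by decide +kernel)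
theorem b68 : B 2176 2208 := Blk.of_chk [.t 1 (nat_lit 0) (.ax 4 15 18 19 0), .t 1 (nat_lit 0) (.ax 4 16 17 22 0), .t 1 (nat_lit 0) (.ax 4 17 18 22 1), .t 1 (nat_lit 0) (.ax 4 17 20 22 4), .t 1 (nat_lit 0) (.ax 4 18 19 22 4), .t 1 (nat_lit 0) (.ax 4 18 20 22 4), .t 1 (nat_lit 0) (.ax 5 6 7 8 1), .t 1 (nat_lit 0) (.ax 5 6 7 8 2), .t 1 (nat_lit 0) (.ax 5 6 7 8 4), .t 1 (nat_lit 0) (.ax 5 6 7 9 1), .t 1 (nat_lit 0) (.ax 5 6 7 9 2), .t 1 (nat_lit 0) (.ax 5 6 7 9 4), .t 1 (nat_lit 0) (.ax 5 6 7 10 1), .t 1 (nat_lit 0) (.ax 5 6 7 10 2), .t 1 (nat_lit 0) (.ax 5 6 7 10 4), .t 1 (nat_lit 0) (.ax 5 6 7 11 1), .t 1 (nat_lit 0) (.ax 5 6 7 11 2), .t 1 (nat_lit 0) (.ax 5 6 7 11 4), .t 1 (nat_lit 0) (.ax 5 6 7 12 1), .t 1 (nat_lit 0) (.ax 5 6 7 12 2), .t 1 (nat_lit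 0) (.ax 5 6 7 12 4), .t 1 (nat_lit 0) (.ax 5 6 7 13 4), .t 1 (nat_lit 0) (.ax 5 6 7 14 4), .t 1 (nat_lit 0) (.ax 5 6 8 9 0), .t 1 (nat_lit 0) (.ax 5 6 8 9 1), .t 1 (nat_lit 0) (.ax 5 6 8 9 2), .t 1 (nat_lit 0) (.ax 5 6 8 9 3), .t 1 (nat_lit 0) (.ax 5 6 8 9 4), .t 1 (nat_lit 0) (.ax 5 6 8 9 5), .t 1 (nat_lit 0) (.ax 5 6 8 9 7), .t 1 (nat_lit 0) (.ax 5 6 8 10 0), .t 1 (nat_lit 0) (.ax 5 6 8 10 1)] (by decide +kernel) (by decide +kernel)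
theorem b69 : B 2208 2240 := Blk.of_chk [.t 1 (nat_lit 0) (.ax 5 6 8 10 2), .t 1 (nat_lit 0) (.ax 5 6 8 10 3), .t 1 (nat_lit 0) (.ax 5 6 8 10 4), .t 1 (nat_lit 0) (.ax 5 6 8 10 5), .t 1 (nat_lit 0) (.ax 5 6 8 10 7), .t 1 (nat_lit 0) (.ax 5 6 8 11 0), .t 1 (nat_lit 0) (.ax 5 6 8 11 1), .t 1 (nat_lit 0) (.ax 5 6 8 11 2), .t 1 (nat_lit 0) (.ax 5 6 8 11 3), .t 1 (nat_lit 0) (.ax 5 6 8 11 4), .t 1 (nat_lit 0) (.ax 5 6 8 11 5), .t 1 (nat_lit 0) (.ax 5 6 8 11 7), .t 1 (nat_lit 0) (.ax 5 6 8 12 1), .t 1 (nat_lit 0) (.ax 5 6 8 12 4), .t 1 (nat_lit 0) (.ax 5 6 8 13 7), .t 1 (nat_lit 0) (.ax 5 6 9 10 0), .t 1 (nat_lit 0) (.ax 5 6 9 10 1), .t 1 (nat_lit 0) (.ax 5 6 9 10 2), .t 1 (nat_lit 0) (.ax 5 6 9 10 3), .t 1 (nat_lit 0) (.ax 5 6 9 10 4), .t 1 (nat_lit 0)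 (.ax 5 6 9 10 5), .t 1 (nat_lit 0) (.ax 5 6 9 10 6), .t 1 (nat_lit 0) (.ax 5 6 9 10 7), .t 1 (nat_lit 0) (.ax 5 6 9 11 0), .t 1 (nat_lit 0) (.ax 5 6 9 11 2), .t 1 (nat_lit 0) (.ax 5 6 9 11 3), .t 1 (nat_lit 0) (.ax 5 6 9 11 4), .t 1 (nat_lit 0) (.ax 5 6 9 11 5), .t 1 (nat_lit 0) (.ax 5 6 9 11 6), .t 1 (nat_lit 0) (.ax 5 6 9 11 7), .t 1 (nat_lit 0) (.ax 5 6 9 12 0), .t 1 (nat_lit 0) (.ax 5 6 9 12 3)] (by decide +kernel) (by decide +kernel)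
theorem b70 : B 2240 2272 := Blk.of_chk [.t 1 (nat_lit 0) (.ax 5 6 9 12 5), .t 1 (nat_lit 0) (.ax 5 6 9 12 7), .t 1 (nat_lit 0) (.ax 5 6 9 13 4), .t 1 (nat_lit 0) (.ax 5 6 9 13 7), .t 1 (nat_lit 0) (.ax 5 6 9 14 3), .t 1 (nat_lit 0) (.ax 5 6 10 11 0), .t 1 (nat_lit 0) (.ax 5 6 10 11 2), .t 1 (nat_lit 0) (.ax 5 6 10 11 3), .t 1 (nat_lit 0) (.ax 5 6 10 11 5), .t 1 (nat_lit 0) (.ax 5 6 10 12 0), .t 1 (nat_lit 0) (.ax 5 6 10 12 3), .t 1 (nat_lit 0) (.ax 5 6 10 12 5), .t 1 (nat_lit 0) (.ax 5 6 10 12 7), .t 1 (nat_lit 0) (.ax 5 6 10 13 0), .t 1 (nat_lit 0) (.ax 5 6 10 13 4), .t 1 (nat_lit 0) (.ax 5 6 10 13 7), .t 1 (nat_lit 0) (.ax 5 6 10 14 2), .t 1 (nat_lit 0) (.ax 5 6 10 15 2), .t 1 (nat_lit 0) (.ax 5 6 10 16 2), .t 1 (nat_lit 0) (.ax 5 6 10 17 2),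 .t 1 (nat_lit 0) (.ax 5 6 10 18 2), .t 1 (nat_lit 0) (.ax 5 6 10 19 2), .t 1 (nat_lit 0) (.ax 5 6 10 20 2), .t 1 (nat_lit 0) (.ax 5 6 10 21 2), .t 1 (nat_lit 0) (.ax 5 6 10 22 2), .t 1 (nat_lit 0) (.ax 5 6 11 12 2), .t 1 (nat_lit 0) (.ax 5 6 11 13 1), .t 1 (nat_lit 0) (.ax 5 6 11 13 2), .t 1 (nat_lit 0) (.ax 5 6 12 13 4), .t 1 (nat_lit 0) (.ax 5 7 8 9 0), .t 1 (nat_lit 0) (.ax 5 7 8 9 2), .t 1 (nat_lit 0) (.ax 5 7 8 9 4)] (by decide +kernel) (by decide +kernel)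
theorem b71 : B 2272 2304 := Blk.of_chk [.t 1 (nat_lit 0) (.ax 5 7 8 9 5), .t 1 (nat_lit 0) (.ax 5 7 8 10 0), .t 1 (nat_lit 0) (.ax 5 7 8 10 2), .t 1 (nat_lit 0) (.ax 5 7 8 10 4), .t 1 (nat_lit 0) (.ax 5 7 8 10 5), .t 1 (nat_lit 0) (.ax 5 7 8 11 0), .t 1 (nat_lit 0) (.ax 5 7 8 11 2), .t 1 (nat_lit 0) (.ax 5 7 8 11 4), .t 1 (nat_lit 0) (.ax 5 7 8 11 5), .t 1 (nat_lit 0) (.ax 5 7 8 12 0), .t 1 (nat_lit 0) (.ax 5 7 8 12 2), .t 1 (nat_lit 0) (.ax 5 7 8 12 4), .t 1 (nat_lit 0) (.ax 5 7 8 12 5), .t 1 (nat_lit 0) (.ax 5 7 8 14 0), .t 1 (nat_lit 0) (.ax 5 7 9 10 0), .t 1 (nat_lit 0) (.ax 5 7 9 10 2), .t 1 (nat_lit 0) (.ax 5 7 9 10 4), .t 1 (nat_lit 0) (.ax 5 7 9 10 5), .t 1 (nat_lit 0) (.ax 5 7 9 11 0), .t 1 (nat_lit 0) (.ax 5 7 9 11 2), .t 1 (nat_lit 0)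 (.ax 5 7 9 11 4), .t 1 (nat_lit 0) (.ax 5 7 9 11 5), .t 1 (nat_lit 0) (.ax 5 7 9 12 0), .t 1 (nat_lit 0) (.ax 5 7 9 12 2), .t 1 (nat_lit 0) (.ax 5 7 9 12 4), .t 1 (nat_lit 0) (.ax 5 7 9 12 5), .t 1 (nat_lit 0) (.ax 5 7 9 14 0), .t 1 (nat_lit 0) (.ax 5 7 10 11 0), .t 1 (nat_lit 0) (.ax 5 7 10 11 2), .t 1 (nat_lit 0) (.ax 5 7 10 11 4), .t 1 (nat_lit 0) (.ax 5 7 10 11 5), .t 1 (nat_lit 0) (.ax 5 7 10 12 0)] (by decide +kernel) (by decide +kernel)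
theorem b72 : B 2304 2336 := Blk.of_chk [.t 1 (nat_lit 0) (.ax 5 7 10 12 5), .t 1 (nat_lit 0) (.ax 5 7 11 12 2), .t 1 (nat_lit 0) (.ax 5 7 11 12 4), .t 1 (nat_lit 0) (.ax 5 7 11 14 0), .t 1 (nat_lit 0) (.ax 5 7 11 14 2), .t 1 (nat_lit 0) (.ax 5 7 11 14 4), .t 1 (nat_lit 0) (.ax 5 7 12 14 2), .t 1 (nat_lit 0) (.ax 5 7 12 14 4), .t 1 (nat_lit 0) (.ax 5 7 13 14 0), .t 1 (nat_lit 0) (.ax 5 7 13 15 0), .t 1 (nat_lit 0) (.ax 5 7 13 17 0), .t 1 (nat_lit 0) (.ax 5 7 13 18 0), .t 1 (nat_lit 0) (.ax 5 7 13 19 0), .t 1 (nat_lit 0) (.ax 5 7 13 20 0), .t 1 (nat_lit 0) (.ax 5 7 13 21 0), .t 1 (nat_lit 0) (.ax 5 7 13 22 0), .t 1 (nat_lit 0) (.ax 5 8 9 10 0), .t 1 (nat_lit 0) (.ax 5 8 9 10 1), .t 1 (nat_lit 0) (.ax 5 8 9 10 2), .t 1 (nat_lit 0) (.ax 5 8 9 10 3),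 .t 1 (nat_lit 0) (.ax 5 8 9 10 4), .t 1 (nat_lit 0) (.ax 5 8 9 10 5), .t 1 (nat_lit 0) (.ax 5 8 9 10 6), .t 1 (nat_lit 0) (.ax 5 8 9 10 7), .t 1 (nat_lit 0) (.ax 5 8 9 11 0), .t 1 (nat_lit 0) (.ax 5 8 9 11 2), .t 1 (nat_lit 0) (.ax 5 8 9 11 3), .t 1 (nat_lit 0) (.ax 5 8 9 11 4), .t 1 (nat_lit 0) (.ax 5 8 9 11 5), .t 1 (nat_lit 0) (.ax 5 8 9 11 6), .t 1 (nat_lit 0) (.ax 5 8 9 11 7), .t 1 (nat_lit 0) (.ax 5 8 9 12 1)] (by decide +kernel) (by decide +kernel)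
theorem b73 : B 2336 2368 := Blk.of_chk [.t 1 (nat_lit 0) (.ax 5 8 9 12 2), .t 1 (nat_lit 0) (.ax 5 8 9 12 3), .t 1 (nat_lit 0) (.ax 5 8 9 12 4), .t 1 (nat_lit 0) (.ax 5 8 9 12 5), .t 1 (nat_lit 0) (.ax 5 8 9 12 7), .t 1 (nat_lit 0) (.ax 5 8 9 13 0), .t 1 (nat_lit 0) (.ax 5 8 9 13 1), .t 1 (nat_lit 0) (.ax 5 8 9 13 2), .t 1 (nat_lit 0) (.ax 5 8 9 13 4), .t 1 (nat_lit 0) (.ax 5 8 9 13 5), .t 1 (nat_lit 0) (.ax 5 8 9 13 6), .t 1 (nat_lit 0) (.ax 5 8 9 13 7), .t 1 (nat_lit 0) (.ax 5 8 9 14 0), .t 1 (nat_lit 0) (.ax 5 8 9 14 4), .t 1 (nat_lit 0) (.ax 5 8 10 11 0), .t 1 (nat_lit 0) (.ax 5 8 10 11 1), .t 1 (nat_lit 0) (.ax 5 8 10 11 2), .t 1 (nat_lit 0) (.ax 5 8 10 11 3), .t 1 (nat_lit 0) (.ax 5 8 10 11 4), .t 1 (nat_lit 0) (.ax 5 8 10 11 5), .t 1 (nat_lit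 0) (.ax 5 8 10 12 0), .t 1 (nat_lit 0) (.ax 5 8 10 12 3), .t 1 (nat_lit 0) (.ax 5 8 10 12 5), .t 1 (nat_lit 0) (.ax 5 8 10 13 0), .t 1 (nat_lit 0) (.ax 5 8 10 13 2), .t 1 (nat_lit 0) (.ax 5 8 10 13 4), .t 1 (nat_lit 0) (.ax 5 8 10 13 5), .t 1 (nat_lit 0) (.ax 5 8 10 13 6), .t 1 (nat_lit 0) (.ax 5 8 10 13 7), .t 1 (nat_lit 0) (.ax 5 8 10 14 0), .t 1 (nat_lit 0) (.ax 5 8 10 14 2), .t 1 (nat_lit 0) (.ax 5 8 10 14 5)] (by decide +kernel) (by decide +kernel)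
theorem b74 : B 2368 2400 := Blk.of_chk [.t 1 (nat_lit 0) (.ax 5 8 11 12 1), .t 1 (nat_lit 0) (.ax 5 8 11 12 2), .t 1 (nat_lit 0) (.ax 5 8 11 12 4), .t 1 (nat_lit 0) (.ax 5 8 11 13 0), .t 1 (nat_lit 0) (.ax 5 8 11 13 1), .t 1 (nat_lit 0) (.ax 5 8 11 13 2), .t 1 (nat_lit 0) (.ax 5 8 11 13 3), .t 1 (nat_lit 0) (.ax 5 8 11 13 4), .t 1 (nat_lit 0) (.ax 5 8 11 13 5), .t 1 (nat_lit 0) (.ax 5 8 11 13 6), .t 1 (nat_lit 0) (.ax 5 8 11 14 0), .t 1 (nat_lit 0) (.ax 5 8 12 13 0), .t 1 (nat_lit 0) (.ax 5 8 12 13 1), .t 1 (nat_lit 0) (.ax 5 8 12 13 2), .t 1 (nat_lit 0) (.ax 5 8 12 13 4), .t 1 (nat_lit 0) (.ax 5 8 12 13 5), .t 1 (nat_lit 0) (.ax 5 8 12 14 1), .t 1 (nat_lit 0) (.ax 5 8 12 14 4), .t 1 (nat_lit 0) (.ax 5 8 13 14 2), .t 1 (nat_lit 0) (.ax 5 8 13 14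 4), .t 1 (nat_lit 0) (.ax 5 9 10 11 0), .t 1 (nat_lit 0) (.ax 5 9 10 11 1), .t 1 (nat_lit 0) (.ax 5 9 10 11 2), .t 1 (nat_lit 0) (.ax 5 9 10 11 3), .t 1 (nat_lit 0) (.ax 5 9 10 11 4), .t 1 (nat_lit 0) (.ax 5 9 10 12 5), .t 1 (nat_lit 0) (.ax 5 9 10 13 1), .t 1 (nat_lit 0) (.ax 5 9 10 13 3), .t 1 (nat_lit 0) (.ax 5 9 10 13 4), .t 1 (nat_lit 0) (.ax 5 9 10 13 6), .t 1 (nat_lit 0) (.ax 5 9 10 13 7), .t 1 (nat_lit 0) (.ax 5 9 10 14 0)] (by decide +kernel) (by decide +kernel)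
theorem b75 : B 2400 2432 := Blk.of_chk [.t 1 (nat_lit 0) (.ax 5 9 10 14 5), .t 1 (nat_lit 0) (.ax 5 9 11 12 1), .t 1 (nat_lit 0) (.ax 5 9 11 12 4), .t 1 (nat_lit 0) (.ax 5 9 11 12 7), .t 1 (nat_lit 0) (.ax 5 9 11 13 1), .t 1 (nat_lit 0) (.ax 5 9 11 13 2), .t 1 (nat_lit 0) (.ax 5 9 11 13 3), .t 1 (nat_lit 0) (.ax 5 9 11 13 4), .t 1 (nat_lit 0) (.ax 5 9 11 13 6), .t 1 (nat_lit 0) (.ax 5 9 11 13 7), .t 1 (nat_lit 0) (.ax 5 9 11 14 0), .t 1 (nat_lit 0) (.ax 5 9 11 14 1), .t 1 (nat_lit 0) (.ax 5 9 11 14 2), .t 1 (nat_lit 0) (.ax 5 9 11 14 3), .t 1 (nat_lit 0) (.ax 5 9 11 14 4), .t 1 (nat_lit 0) (.ax 5 9 11 14 5), .t 1 (nat_lit 0) (.ax 5 9 12 13 1), .t 1 (nat_lit 0) (.ax 5 9 12 13 4), .t 1 (nat_lit 0) (.ax 5 9 12 13 6), .t 1 (nat_lit 0) (.ax 5 9 12 13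 7), .t 1 (nat_lit 0) (.ax 5 9 12 14 3), .t 1 (nat_lit 0) (.ax 5 9 12 14 5), .t 1 (nat_lit 0) (.ax 5 9 12 14 7), .t 1 (nat_lit 0) (.ax 5 9 12 16 7), .t 1 (nat_lit 0) (.ax 5 9 13 14 4), .t 1 (nat_lit 0) (.ax 5 9 13 16 4), .t 1 (nat_lit 0) (.ax 5 10 11 12 1), .t 1 (nat_lit 0) (.ax 5 10 11 12 2), .t 1 (nat_lit 0) (.ax 5 10 11 12 4), .t 1 (nat_lit 0) (.ax 5 10 11 13 0), .t 1 (nat_lit 0) (.ax 5 10 11 13 1), .t 1 (nat_lit 0) (.ax 5 10 11 13 2)] (by decide +kernel) (by decide +kernel)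
theorem b76 : B 2432 2464 := Blk.of_chk [.t 1 (nat_lit 0) (.ax 5 10 11 13 4), .t 1 (nat_lit 0) (.ax 5 10 11 13 5), .t 1 (nat_lit 0) (.ax 5 10 11 13 6), .t 1 (nat_lit 0) (.ax 5 10 11 14 0), .t 1 (nat_lit 0) (.ax 5 10 11 14 1), .t 1 (nat_lit 0) (.ax 5 10 11 14 3), .t 1 (nat_lit 0) (.ax 5 10 11 14 4), .t 1 (nat_lit 0) (.ax 5 10 11 14 5), .t 1 (nat_lit 0) (.ax 5 10 11 15 0), .t 1 (nat_lit 0) (.ax 5 10 11 15 4), .t 1 (nat_lit 0) (.ax 5 10 11 16 2), .t 1 (nat_lit 0) (.ax 5 10 11 16 4), .t 1 (nat_lit 0) (.ax 5 10 11 17 4), .t 1 (nat_lit 0) (.ax 5 10 11 18 4), .t 1 (nat_lit 0) (.ax 5 10 11 19 4), .t 1 (nat_lit 0) (.ax 5 10 11 20 4), .t 1 (nat_lit 0) (.ax 5 10 11 21 4), .t 1 (nat_lit 0) (.ax 5 10 11 22 4), .t 1 (nat_lit 0) (.ax 5 10 12 13 0), .t 1 (nat_lit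 0) (.ax 5 10 12 13 1), .t 1 (nat_lit 0) (.ax 5 10 12 13 2), .t 1 (nat_lit 0) (.ax 5 10 12 13 5), .t 1 (nat_lit 0) (.ax 5 10 13 14 4), .t 1 (nat_lit 0) (.ax 5 10 13 15 4), .t 1 (nat_lit 0) (.ax 5 10 14 15 2), .t 1 (nat_lit 0) (.ax 5 11 12 13 0), .t 1 (nat_lit 0) (.ax 5 11 12 13 1), .t 1 (nat_lit 0) (.ax 5 11 12 13 3), .t 1 (nat_lit 0) (.ax 5 11 12 13 4), .t 1 (nat_lit 0) (.ax 5 11 12 13 5), .t 1 (nat_lit 0) (.ax 5 11 12 13 6), .t 1 (nat_lit 0) (.ax 5 11 12 13 7)] (by decide +kernel) (by decide +kernel)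
theorem b77 : B 2464 2496 := Blk.of_chk [.t 1 (nat_lit 0) (.ax 5 11 12 14 0), .t 1 (nat_lit 0) (.ax 5 11 12 14 3), .t 1 (nat_lit 0) (.ax 5 11 12 14 4), .t 1 (nat_lit 0) (.ax 5 11 12 14 5), .t 1 (nat_lit 0) (.ax 5 11 12 14 7), .t 1 (nat_lit 0) (.ax 5 11 12 15 0), .t 1 (nat_lit 0) (.ax 5 11 12 15 4), .t 1 (nat_lit 0) (.ax 5 11 12 15 6), .t 1 (nat_lit 0) (.ax 5 11 12 15 7), .t 1 (nat_lit 0) (.ax 5 11 12 16 0), .t 1 (nat_lit 0) (.ax 5 11 12 16 4), .t 1 (nat_lit 0) (.ax 5 11 12 16 7), .t 1 (nat_lit 0) (.ax 5 11 12 17 4), .t 1 (nat_lit 0) (.ax 5 11 12 17 7), .t 1 (nat_lit 0) (.ax 5 11 12 18 4), .t 1 (nat_lit 0) (.ax 5 11 12 18 7), .t 1 (nat_lit 0) (.ax 5 11 12 19 7), .t 1 (nat_lit 0) (.ax 5 11 12 20 7), .t 1 (nat_lit 0) (.ax 5 11 12 21 7), .t 1 (nat_lit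 0) (.ax 5 11 12 22 7), .t 1 (nat_lit 0) (.ax 5 11 13 14 1), .t 1 (nat_lit 0) (.ax 5 11 13 14 4), .t 1 (nat_lit 0) (.ax 5 11 13 14 6), .t 1 (nat_lit 0) (.ax 5 11 13 15 2), .t 1 (nat_lit 0) (.ax 5 11 13 15 4), .t 1 (nat_lit 0) (.ax 5 11 13 16 4), .t 1 (nat_lit 0) (.ax 5 11 13 17 4), .t 1 (nat_lit 0) (.ax 5 11 13 18 4), .t 1 (nat_lit 0) (.ax 5 11 13 19 4), .t 1 (nat_lit 0) (.ax 5 11 13 20 4), .t 1 (nat_lit 0) (.ax 5 11 13 21 4), .t 1 (nat_lit 0) (.ax 5 11 13 22 4)] (by decide +kernel) (by decide +kernel)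
theorem b78 : B 2496 2528 := Blk.of_chk [.t 1 (nat_lit 0) (.ax 5 11 14 15 2), .t 1 (nat_lit 0) (.ax 5 11 14 15 4), .t 1 (nat_lit 0) (.ax 5 11 14 15 5), .t 1 (nat_lit 0) (.ax 5 11 14 16 4), .t 1 (nat_lit 0) (.ax 5 11 14 16 5), .t 1 (nat_lit 0) (.ax 5 11 14 17 4), .t 1 (nat_lit 0) (.ax 5 11 14 17 6), .t 1 (nat_lit 0) (.ax 5 11 14 18 4), .t 1 (nat_lit 0) (.ax 5 11 14 18 6), .t 1 (nat_lit 0) (.ax 5 11 15 16 4), .t 1 (nat_lit 0) (.ax 5 11 15 19 4), .t 1 (nat_lit 0) (.ax 5 11 15 20 4), .t 1 (nat_lit 0) (.ax 5 11 15 21 4), .t 1 (nat_lit 0) (.ax 5 11 15 22 4), .t 1 (nat_lit 0) (.ax 5 11 21 22 5), .t 1 (nat_lit 0) (.ax 5 12 13 14 2), .t 1 (nat_lit 0) (.ax 5 12 13 14 4), .t 1 (nat_lit 0) (.ax 5 12 13 15 4), .t 1 (nat_lit 0) (.ax 5 12 13 16 4), .t 1 (nat_lit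 0) (.ax 5 12 13 17 4), .t 1 (nat_lit 0) (.ax 5 12 13 18 4), .t 1 (nat_lit 0) (.ax 5 12 13 19 4), .t 1 (nat_lit 0) (.ax 5 12 13 20 4), .t 1 (nat_lit 0) (.ax 5 12 13 21 4), .t 1 (nat_lit 0) (.ax 5 12 13 22 4), .t 1 (nat_lit 0) (.ax 5 12 14 15 3), .t 1 (nat_lit 0) (.ax 5 12 14 16 6), .t 1 (nat_lit 0) (.ax 5 12 14 17 6), .t 1 (nat_lit 0) (.ax 5 12 14 18 6), .t 1 (nat_lit 0) (.ax 5 12 14 19 6), .t 1 (nat_lit 0) (.ax 5 12 14 20 6), .t 1 (nat_lit 0) (.ax 5 12 14 22 6)] (by decide +kernel) (by decide +kernel)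

end Pool.Agent.GCP.F8_13
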