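import Pool.Agent.GCP.F9_10_12Db

set_option autoImplicit false
set_option maxRecDepth 100000

/-! # Blocks F9_10_12B0 (generated) -/

namespace Pool.Agent.GCP.F9_10_12

open Pool.Agent.GCP DB

theorem b0 : B 0 32 := Blk.of_chk [.t 1 (nat_lit 0) (.ax 1 2 3 5 1), .t 1 (nat_lit 0) (.ax 1 2 3 6 1), .t 1 (nat_lit 0) (.ax 1 2 3 8 1), .t 1 (nat_lit 0) (.ax 1 2 3 9 1), .t 1 (nat_lit 0) (.ax 1 2 3 12 1), .t 1 (nat_lit 0) (.ax 1 2 3 13 1), .t 1 (nat_lit 0) (.ax 1 2 3 18 1), .t 1 (nat_lit 0) (.ax 1 2 4 5 1), .t 1 (nat_lit 0) (.ax 1 2 4 6 1), .t 1 (nat_lit 0) (.ax 1 2 4 8 1), .t 1 (nat_lit 0) (.ax 1 2 4 9 1), .t 1 (nat_lit 0) (.ax 1 2 4 10 1), .t 1 (nat_lit 0) (.ax 1 2 4 11 1), .t 1 (nat_lit 0) (.ax 1 2 4 12 1), .t 1 (nat_lit 0) (.ax 1 2 4 13 1), .t 1 (nat_lit 0) (.ax 1 2 4 14 1), .t 1 (nat_lit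 0) (.ax 1 2 4 15 1), .t 1 (nat_lit 0) (.ax 1 2 4 16 1), .t 1 (nat_lit 0) (.ax 1 2 4 17 1), .t 1 (nat_lit 0) (.ax 1 2 4 18 1), .t 1 (nat_lit 0) (.ax 1 2 4 19 1), .t 1 (nat_lit 0) (.ax 1 2 4 20 1), .t 1 (nat_lit 0) (.ax 1 2 4 21 1), .t 1 (nat_lit 0) (.ax 1 2 4 22 1), .t 1 (nat_lit 0) (.ax 1 2 5 7 1), .t 1 (nat_lit 0) (.ax 1 2 5 8 1), .t 1 (nat_lit 0) (.ax 1 2 6 7 1), .t 1 (nat_lit 0) (.ax 1 2 6 22 1), .t 1 (nat_lit 0) (.ax 1 2 7 9 1), .t 1 (nat_lit 0) (.ax 1 2 7 12 1), .t 1 (nat_lit 0) (.ax 1 2 7 13 1), .t 1 (nat_lit 0) (.ax 1 2 7 15 1)] (by decide +kernel) (by decide +kernel)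
theorem b1 : B 32 64 := Blk.of_chk [.t 1 (nat_lit 0) (.ax 1 2 7 16 1), .t 1 (nat_lit 0) (.ax 1 2 7 17 1), .t 1 (nat_lit 0) (.ax 1 2 7 20 1), .t 1 (nat_lit 0) (.ax 1 2 10 15 1), .t 1 (nat_lit 0) (.ax 1 2 10 16 1), .t 1 (nat_lit 0) (.ax 1 2 10 17 1), .t 1 (nat_lit 0) (.ax 1 2 10 19 1), .t 1 (nat_lit 0) (.ax 1 2 12 13 1), .t 1 (nat_lit 0) (.ax 1 2 12 14 1), .t 1 (nat_lit 0) (.ax 1 2 12 15 1), .t 1 (nat_lit 0) (.ax 1 2 12 17 1), .t 1 (nat_lit 0) (.ax 1 2 12 18 1), .t 1 (nat_lit 0) (.ax 1 2 12 19 1), .t 1 (nat_lit 0) (.ax 1 2 12 20 1), .t 1 (nat_lit 0) (.ax 1 2 12 21 1), .t 1 (nat_lit 0) (.ax 1 2 12 22 1), .t 1 (nat_lit 0) (.ax 1 2 13 19 1), .t 1 (nat_lit 0) (.ax 1 2 13 22 1), .t 1 (nat_lit 0) (.ax 1 2 15 17 1), .t 1 (nat_lit 0) (.ax 1 2 15 18 1), .t 1 (nat_lit 0) (.ax 1 2 15 19 1), .t 1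 (nat_lit 0) (.ax 1 2 16 17 1), .t 1 (nat_lit 0) (.ax 1 2 16 18 1), .t 1 (nat_lit 0) (.ax 1 2 19 21 1), .t 1 (nat_lit 0) (.ax 1 3 5 6 0), .t 1 (nat_lit 0) (.ax 1 3 5 8 0), .t 1 (nat_lit 0) (.ax 1 3 5 9 0), .t 1 (nat_lit 0) (.ax 1 3 5 12 0), .t 1 (nat_lit 0) (.ax 1 3 5 13 0), .t 1 (nat_lit 0) (.ax 1 3 5 18 0), .t 1 (nat_lit 0) (.ax 1 3 6 8 0), .t 1 (nat_lit 0) (.ax 1 3 6 9 0)] (by decide +kernel) (by decide +kernel)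
theorem b2 : B 64 96 := Blk.of_chk [.t 1 (nat_lit 0) (.ax 1 3 6 12 0), .t 1 (nat_lit 0) (.ax 1 3 6 13 0), .t 1 (nat_lit 0) (.ax 1 3 6 18 0), .t 1 (nat_lit 0) (.ax 1 3 12 13 0), .t 1 (nat_lit 0) (.ax 1 4 5 6 0), .t 1 (nat_lit 0) (.ax 1 4 5 8 0), .t 1 (nat_lit 0) (.ax 1 4 5 12 0), .t 1 (nat_lit 0) (.ax 1 4 7 8 0), .t 1 (nat_lit 0) (.ax 1 4 7 9 0), .t 1 (nat_lit 0) (.ax 1 4 7 11 0), .t 1 (nat_lit 0) (.ax 1 4 7 12 0), .t 1 (nat_lit 0) (.ax 1 4 7 13 0), .t 1 (nat_lit 0) (.ax 1 4 7 14 0), .t 1 (nat_lit 0) (.ax 1 4 7 15 0), .t 1 (nat_lit 0) (.ax 1 4 7 16 0), .t 1 (nat_lit 0) (.ax 1 4 7 17 0), .t 1 (nat_lit 0) (.ax 1 4 7 18 0), .t 1 (nat_lit 0) (.ax 1 4 7 19 0), .t 1 (nat_lit 0) (.ax 1 4 7 20 0), .t 1 (nat_lit 0) (.ax 1 4 7 21 0), .t 1 (nat_lit 0) (.ax 1 4 7 22 0), .t 1 (nat_lit 0) (.ax 1 4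 9 12 0), .t 1 (nat_lit 0) (.ax 1 4 13 14 0), .t 1 (nat_lit 0) (.ax 1 5 6 7 1), .t 1 (nat_lit 0) (.ax 1 5 6 7 6), .t 1 (nat_lit 0) (.ax 1 5 6 12 5), .t 1 (nat_lit 0) (.ax 1 5 8 15 4), .t 1 (nat_lit 0) (.ax 1 5 12 13 2), .t 1 (nat_lit 0) (.ax 1 5 12 13 4), .t 1 (nat_lit 0) (.ax 1 6 12 13 2), .t 1 (nat_lit 0) (.ax 1 6 12 13 4), .t 1 (nat_lit 0) (.ax 1 6 14 15 4)] (by decide +kernel) (by decide +kernel)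
theorem b3 : B 96 128 := Blk.of_chk [.t 1 (nat_lit 0) (.ax 1 7 8 9 0), .t 1 (nat_lit 0) (.ax 1 7 10 13 0), .t 1 (nat_lit 0) (.ax 1 7 10 14 0), .t 1 (nat_lit 0) (.ax 1 7 10 15 0), .t 1 (nat_lit 0) (.ax 1 7 10 16 0), .t 1 (nat_lit 0) (.ax 1 7 10 17 0), .t 1 (nat_lit 0) (.ax 1 7 10 18 0), .t 1 (nat_lit 0) (.ax 1 7 10 19 0), .t 1 (nat_lit 0) (.ax 1 7 10 20 0), .t 1 (nat_lit 0) (.ax 1 7 10 21 0), .t 1 (nat_lit 0) (.ax 1 7 10 22 0), .t 1 (nat_lit 0) (.ax 1 7 11 12 0), .t 1 (nat_lit 0) (.ax 1 8 9 15 2), .t 1 (nat_lit 0) (.ax 1 8 9 15 6), .t 1 (nat_lit 0) (.ax 1 9 12 15 4), .t 1 (nat_lit 0) (.ax 1 10 12 13 0), .t 1 (nat_lit 0) (.ax 1 10 12 14 0), .t 1 (nat_lit 0) (.ax 1 10 12 15 0), .t 1 (nat_lit 0) (.ax 1 10 12 17 0), .t 1 (nat_lit 0) (.ax 1 10 12 18 0), .t 1 (nat_lit 0) (.ax 1 10 12 19 0),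 .t 1 (nat_lit 0) (.ax 1 10 12 20 0), .t 1 (nat_lit 0) (.ax 1 10 12 21 0), .t 1 (nat_lit 0) (.ax 1 10 12 22 0), .t 1 (nat_lit 0) (.ax 1 10 13 14 0), .t 1 (nat_lit 0) (.ax 1 10 14 15 0), .t 1 (nat_lit 0) (.ax 1 11 12 16 4), .t 1 (nat_lit 0) (.ax 1 12 13 14 0), .t 1 (nat_lit 0) (.ax 1 12 16 17 0), .t 1 (nat_lit 0) (.ax 1 12 16 18 0), .t 1 (nat_lit 0) (.ax 1 12 16 21 0), .t 1 (nat_lit 0) (.ax 1 13 18 19 1)] (by decide +kernel) (by decide +kernel)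
theorem b4 : B 128 160 := Blk.of_chk [.t 1 (nat_lit 0) (.ax 1 15 17 19 3), .t 1 (nat_lit 0) (.ax 1 15 17 19 5), .t 1 (nat_lit 0) (.ax 1 15 17 21 4), .t 1 (nat_lit 0) (.ax 1 15 18 19 1), .t 1 (nat_lit 0) (.ax 1 15 18 19 5), .t 1 (nat_lit 0) (.ax 1 16 19 21 0), .t 1 (nat_lit 0) (.ax 2 3 5 8 0), .t 1 (nat_lit 0) (.ax 2 3 5 9 0), .t 1 (nat_lit 0) (.ax 2 3 5 12 0), .t 1 (nat_lit 0) (.ax 2 3 5 13 0), .t 1 (nat_lit 0) (.ax 2 3 5 18 0), .t 1 (nat_lit 0) (.ax 2 3 6 8 0), .t 1 (nat_lit 0) (.ax 2 3 6 9 0), .t 1 (nat_lit 0) (.ax 2 3 6 12 0), .t 1 (nat_lit 0) (.ax 2 3 6 13 0), .t 1 (nat_lit 0) (.ax 2 3 6 18 0), .t 1 (nat_lit 0) (.ax 2 4 5 8 0), .t 1 (nat_lit 0) (.ax 2 4 5 12 0), .t 1 (nat_lit 0) (.ax 2 4 6 10 0), .t 1 (nat_lit 0) (.ax 2 4 9 12 0), .t 1 (nat_lit 0) (.ax 2 4 14 17 0), .t 1 (nat_lit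 0) (.ax 2 4 14 21 0), .t 1 (nat_lit 0) (.ax 2 4 14 22 0), .t 1 (nat_lit 0) (.ax 2 4 17 22 0), .t 1 (nat_lit 0) (.ax 2 5 6 7 0), .t 1 (nat_lit 0) (.ax 2 5 6 7 5), .t 1 (nat_lit 0) (.ax 2 5 6 8 0), .t 1 (nat_lit 0) (.ax 2 5 7 8 2), .t 1 (nat_lit 0) (.ax 2 5 7 8 4), .t 1 (nat_lit 0) (.ax 2 5 7 15 4), .t 1 (nat_lit 0) (.ax 2 5 7 17 4), .t 1 (nat_lit 0) (.ax 2 5 8 9 6)] (by decide +kernel) (by decide +kernel)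
theorem b5 : B 160 192 := Blk.of_chk [.t 1 (nat_lit 0) (.ax 2 5 8 12 4), .t 1 (nat_lit 0) (.ax 2 5 8 18 6), .t 1 (nat_lit 0) (.ax 2 5 9 12 4), .t 1 (nat_lit 0) (.ax 2 5 12 13 2), .t 1 (nat_lit 0) (.ax 2 5 12 13 4), .t 1 (nat_lit 0) (.ax 2 5 18 21 2), .t 1 (nat_lit 0) (.ax 2 5 18 21 4), .t 1 (nat_lit 0) (.ax 2 6 7 8 1), .t 1 (nat_lit 0) (.ax 2 6 7 8 4), .t 1 (nat_lit 0) (.ax 2 6 7 9 4), .t 1 (nat_lit 0) (.ax 2 6 8 12 4), .t 1 (nat_lit 0) (.ax 2 6 8 12 6), .t 1 (nat_lit 0) (.ax 2 6 8 14 6), .t 1 (nat_lit 0) (.ax 2 6 8 15 6), .t 1 (nat_lit 0) (.ax 2 6 8 17 6), .t 1 (nat_lit 0) (.ax 2 6 8 18 6), .t 1 (nat_lit 0) (.ax 2 6 10 12 4), .t 1 (nat_lit 0) (.ax 2 6 12 13 2), .t 1 (nat_lit 0) (.ax 2 6 12 13 4), .t 1 (nat_lit 0) (.ax 2 6 14 15 2), .t 1 (nat_lit 0) (.ax 2 6 14 15 4), .t 1 (nat_lit 0)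 (.ax 2 6 15 19 2), .t 1 (nat_lit 0) (.ax 2 6 17 21 2), .t 1 (nat_lit 0) (.ax 2 6 17 21 4), .t 1 (nat_lit 0) (.ax 2 6 18 21 2), .t 1 (nat_lit 0) (.ax 2 6 18 21 4), .t 1 (nat_lit 0) (.ax 2 6 21 22 5), .t 1 (nat_lit 0) (.ax 2 7 8 9 0), .t 1 (nat_lit 0) (.ax 2 7 8 12 0), .t 1 (nat_lit 0) (.ax 2 7 8 15 0), .t 1 (nat_lit 0) (.ax 2 7 8 17 0), .t 1 (nat_lit 0) (.ax 2 7 11 12 0)] (by decide +kernel) (by decide +kernel)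
theorem b6 : B 192 224 := Blk.of_chk [.t 1 (nat_lit 0) (.ax 2 8 12 14 4), .t 1 (nat_lit 0) (.ax 2 8 12 15 4), .t 1 (nat_lit 0) (.ax 2 8 12 17 4), .t 1 (nat_lit 0) (.ax 2 8 12 18 4), .t 1 (nat_lit 0) (.ax 2 9 12 15 4), .t 1 (nat_lit 0) (.ax 2 9 12 17 4), .t 1 (nat_lit 0) (.ax 2 9 12 21 4), .t 1 (nat_lit 0) (.ax 2 10 14 16 0), .t 1 (nat_lit 0) (.ax 2 11 12 13 4), .t 1 (nat_lit 0) (.ax 2 11 12 15 4), .t 1 (nat_lit 0) (.ax 2 11 12 16 4), .t 1 (nat_lit 0) (.ax 2 11 12 17 4), .t 1 (nat_lit 0) (.ax 2 11 13 14 2), .t 1 (nat_lit 0) (.ax 2 11 13 15 2), .t 1 (nat_lit 0) (.ax 2 11 17 19 2), .t 1 (nat_lit 0) (.ax 2 11 17 20 2), .t 1 (nat_lit 0) (.ax 2 11 17 22 2), .t 1 (nat_lit 0) (.ax 2 12 14 15 0), .t 1 (nat_lit 0) (.ax 2 12 14 21 0), .t 1 (nat_lit 0) (.ax 2 13 14 17 6), .t 1 (nat_lit 0) (.ax 2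 13 14 21 0), .t 1 (nat_lit 0) (.ax 2 13 15 17 6), .t 1 (nat_lit 0) (.ax 2 13 17 21 2), .t 1 (nat_lit 0) (.ax 2 13 17 21 4), .t 1 (nat_lit 0) (.ax 2 13 17 22 5), .t 1 (nat_lit 0) (.ax 2 13 21 22 5), .t 1 (nat_lit 0) (.ax 2 14 16 17 4), .t 1 (nat_lit 0) (.ax 2 14 17 21 2), .t 1 (nat_lit 0) (.ax 2 14 17 21 4), .t 1 (nat_lit 0) (.ax 2 14 17 22 1), .t 1 (nat_lit 0) (.ax 2 14 17 22 3), .t 1 (nat_lit 0) (.ax 2 14 21 22 5)] (by decide +kernel) (by decide +kernel)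
theorem b7 : B 224 256 := Blk.of_chk [.t 1 (nat_lit 0) (.ax 2 15 16 17 4), .t 1 (nat_lit 0) (.ax 2 15 17 21 2), .t 1 (nat_lit 0) (.ax 2 15 17 21 4), .t 1 (nat_lit 0) (.ax 2 15 19 20 4), .t 1 (nat_lit 0) (.ax 2 15 19 21 4), .t 1 (nat_lit 0) (.ax 2 15 19 22 4), .t 1 (nat_lit 0) (.ax 2 16 17 18 0), .t 1 (nat_lit 0) (.ax 2 17 21 22 5), .t 1 (nat_lit 0) (.ax 3 4 5 6 0), .t 1 (nat_lit 0) (.ax 3 4 5 8 0), .t 1 (nat_lit 0) (.ax 3 4 5 9 0), .t 1 (nat_lit 0) (.ax 3 4 5 12 0), .t 1 (nat_lit 0) (.ax 3 4 5 13 0), .t 1 (nat_lit 0) (.ax 3 4 5 22 0), .t 1 (nat_lit 0) (.ax 3 4 6 8 0), .t 1 (nat_lit 0) (.ax 3 4 6 9 0), .t 1 (nat_lit 0) (.ax 3 4 6 12 0), .t 1 (nat_lit 0) (.ax 3 4 6 22 0), .t 1 (nat_lit 0) (.ax 3 4 7 9 0), .t 1 (nat_lit 0) (.ax 3 4 7 12 0), .t 1 (nat_lit 0) (.ax 3 4 7 13 0), .t 1 (nat_lit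 0) (.ax 3 4 7 14 0), .t 1 (nat_lit 0) (.ax 3 4 7 15 0), .t 1 (nat_lit 0) (.ax 3 4 7 16 0), .t 1 (nat_lit 0) (.ax 3 4 7 19 0), .t 1 (nat_lit 0) (.ax 3 4 7 20 0), .t 1 (nat_lit 0) (.ax 3 4 7 21 0), .t 1 (nat_lit 0) (.ax 3 4 7 22 0), .t 1 (nat_lit 0) (.ax 3 4 9 12 0), .t 1 (nat_lit 0) (.ax 3 5 6 7 3), .t 1 (nat_lit 0) (.ax 3 5 6 7 5), .t 1 (nat_lit 0) (.ax 3 5 6 8 6)] (by decide +kernel) (by decide +kernel)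
theorem b8 : B 256 288 := Blk.of_chk [.t 1 (nat_lit 0) (.ax 3 5 6 9 0), .t 1 (nat_lit 0) (.ax 3 5 6 9 1), .t 1 (nat_lit 0) (.ax 3 5 6 9 4), .t 1 (nat_lit 0) (.ax 3 5 6 9 5), .t 1 (nat_lit 0) (.ax 3 5 6 12 4), .t 1 (nat_lit 0) (.ax 3 5 9 12 5), .t 1 (nat_lit 0) (.ax 3 5 9 12 6), .t 1 (nat_lit 0) (.ax 3 5 12 13 2), .t 1 (nat_lit 0) (.ax 3 5 12 13 4), .t 1 (nat_lit 0) (.ax 3 5 18 22 5), .t 1 (nat_lit 0) (.ax 3 6 9 12 4), .t 1 (nat_lit 0) (.ax 3 6 9 12 5), .t 1 (nat_lit 0) (.ax 3 6 9 12 6), .t 1 (nat_lit 0) (.ax 3 6 12 13 2), .t 1 (nat_lit 0) (.ax 3 6 12 13 4), .t 1 (nat_lit 0) (.ax 3 6 13 22 5), .t 1 (nat_lit 0) (.ax 3 6 18 22 5), .t 1 (nat_lit 0) (.ax 3 7 10 13 0), .t 1 (nat_lit 0) (.ax 3 7 10 14 0), .t 1 (nat_lit 0) (.ax 3 7 10 15 0), .t 1 (nat_lit 0) (.ax 3 7 10 16 0), .t 1 (nat_lit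 0) (.ax 3 7 10 19 0), .t 1 (nat_lit 0) (.ax 3 7 10 21 0), .t 1 (nat_lit 0) (.ax 3 7 10 22 0), .t 1 (nat_lit 0) (.ax 3 7 11 12 0), .t 1 (nat_lit 0) (.ax 3 10 12 13 0), .t 1 (nat_lit 0) (.ax 3 10 12 14 0), .t 1 (nat_lit 0) (.ax 3 10 12 15 0), .t 1 (nat_lit 0) (.ax 3 10 12 21 0), .t 1 (nat_lit 0) (.ax 3 10 12 22 0), .t 1 (nat_lit 0) (.ax 3 11 12 16 4), .t 1 (nat_lit 0) (.ax 3 12 16 21 0)] (by decide +kernel) (by decide +kernel)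
theorem b9 : B 288 320 := Blk.of_chk [.t 1 (nat_lit 0) (.ax 3 16 19 21 0), .t 1 (nat_lit 0) (.ax 4 5 6 8 2), .t 1 (nat_lit 0) (.ax 4 5 6 9 2), .t 1 (nat_lit 0) (.ax 4 5 6 9 4), .t 1 (nat_lit 0) (.ax 4 5 6 9 5), .t 1 (nat_lit 0) (.ax 4 5 6 12 0), .t 1 (nat_lit 0) (.ax 4 5 6 12 1), .t 1 (nat_lit 0) (.ax 4 5 6 12 6), .t 1 (nat_lit 0) (.ax 4 5 6 12 7), .t 1 (nat_lit 0) (.ax 4 5 6 13 2), .t 1 (nat_lit 0) (.ax 4 5 6 13 3), .t 1 (nat_lit 0) (.ax 4 5 6 13 4), .t 1 (nat_lit 0) (.ax 4 5 6 13 7), .t 1 (nat_lit 0) (.ax 4 5 6 14 2), .t 1 (nat_lit 0) (.ax 4 5 6 14 4), .t 1 (nat_lit 0) (.ax 4 5 6 15 7), .t 1 (nat_lit 0) (.ax 4 5 6 22 2), .t 1 (nat_lit 0) (.ax 4 5 6 22 7), .t 1 (nat_lit 0) (.ax 4 5 7 8 3), .t 1 (nat_lit 0) (.ax 4 5 7 9 3), .t 1 (nat_lit 0) (.ax 4 5 7 12 3), .t 1 (nat_lit 0) (.ax 4 5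 7 13 3), .t 1 (nat_lit 0) (.ax 4 5 7 14 3), .t 1 (nat_lit 0) (.ax 4 5 7 15 3), .t 1 (nat_lit 0) (.ax 4 5 7 16 3), .t 1 (nat_lit 0) (.ax 4 5 7 17 3), .t 1 (nat_lit 0) (.ax 4 5 7 19 3), .t 1 (nat_lit 0) (.ax 4 5 7 20 3), .t 1 (nat_lit 0) (.ax 4 5 7 21 3), .t 1 (nat_lit 0) (.ax 4 5 7 22 3), .t 1 (nat_lit 0) (.ax 4 5 8 9 4), .t 1 (nat_lit 0) (.ax 4 5 8 9 6)] (by decide +kernel) (by decide +kernel)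
theorem b10 : B 320 352 := Blk.of_chk [.t 1 (nat_lit 0) (.ax 4 5 8 12 4), .t 1 (nat_lit 0) (.ax 4 5 8 15 4), .t 1 (nat_lit 0) (.ax 4 5 8 15 6), .t 1 (nat_lit 0) (.ax 4 5 8 22 6), .t 1 (nat_lit 0) (.ax 4 5 9 12 0), .t 1 (nat_lit 0) (.ax 4 5 9 12 1), .t 1 (nat_lit 0) (.ax 4 5 9 12 6), .t 1 (nat_lit 0) (.ax 4 5 9 12 7), .t 1 (nat_lit 0) (.ax 4 5 9 13 0), .t 1 (nat_lit 0) (.ax 4 5 9 17 2), .t 1 (nat_lit 0) (.ax 4 5 9 18 2), .t 1 (nat_lit 0) (.ax 4 5 9 19 2), .t 1 (nat_lit 0) (.ax 4 5 9 20 2), .t 1 (nat_lit 0) (.ax 4 5 12 13 4), .t 1 (nat_lit 0) (.ax 4 5 12 14 4), .t 1 (nat_lit 0) (.ax 4 5 12 15 4), .t 1 (nat_lit 0) (.ax 4 5 12 17 4), .t 1 (nat_lit 0) (.ax 4 5 12 22 4), .t 1 (nat_lit 0) (.ax 4 5 13 15 2), .t 1 (nat_lit 0) (.ax 4 5 13 16 2), .t 1 (nat_lit 0) (.ax 4 5 13 17 2), .t 1 (nat_lit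 0) (.ax 4 5 13 18 2), .t 1 (nat_lit 0) (.ax 4 5 13 19 2), .t 1 (nat_lit 0) (.ax 4 5 13 20 2), .t 1 (nat_lit 0) (.ax 4 5 13 22 7), .t 1 (nat_lit 0) (.ax 4 5 15 22 1), .t 1 (nat_lit 0) (.ax 4 5 15 22 4), .t 1 (nat_lit 0) (.ax 4 5 17 21 2), .t 1 (nat_lit 0) (.ax 4 5 17 21 4), .t 1 (nat_lit 0) (.ax 4 5 17 22 0), .t 1 (nat_lit 0) (.ax 4 5 18 22 0), .t 1 (nat_lit 0) (.ax 4 5 18 22 1)] (by decide +kernel) (by decide +kernel)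
theorem b11 : B 352 384 := Blk.of_chk [.t 1 (nat_lit 0) (.ax 4 5 18 22 7), .t 1 (nat_lit 0) (.ax 4 6 7 8 3), .t 1 (nat_lit 0) (.ax 4 6 7 9 3), .t 1 (nat_lit 0) (.ax 4 6 7 12 3), .t 1 (nat_lit 0) (.ax 4 6 7 13 3), .t 1 (nat_lit 0) (.ax 4 6 7 14 3), .t 1 (nat_lit 0) (.ax 4 6 7 15 3), .t 1 (nat_lit 0) (.ax 4 6 7 16 3), .t 1 (nat_lit 0) (.ax 4 6 7 19 3), .t 1 (nat_lit 0) (.ax 4 6 7 20 3), .t 1 (nat_lit 0) (.ax 4 6 7 21 3), .t 1 (nat_lit 0) (.ax 4 6 7 22 3), .t 1 (nat_lit 0) (.ax 4 6 8 9 4), .t 1 (nat_lit 0) (.ax 4 6 8 9 6), .t 1 (nat_lit 0) (.ax 4 6 8 12 4), .t 1 (nat_lit 0) (.ax 4 6 9 12 0), .t 1 (nat_lit 0) (.ax 4 6 9 12 1), .t 1 (nat_lit 0) (.ax 4 6 9 12 6), .t 1 (nat_lit 0) (.ax 4 6 9 12 7), .t 1 (nat_lit 0) (.ax 4 6 9 13 2), .t 1 (nat_lit 0) (.ax 4 6 9 14 2), .t 1 (nat_lit 0) (.ax 4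 6 9 15 2), .t 1 (nat_lit 0) (.ax 4 6 9 16 2), .t 1 (nat_lit 0) (.ax 4 6 9 22 2), .t 1 (nat_lit 0) (.ax 4 6 9 22 7), .t 1 (nat_lit 0) (.ax 4 6 10 12 4), .t 1 (nat_lit 0) (.ax 4 6 10 15 4), .t 1 (nat_lit 0) (.ax 4 6 10 22 4), .t 1 (nat_lit 0) (.ax 4 6 12 13 4), .t 1 (nat_lit 0) (.ax 4 6 12 14 4), .t 1 (nat_lit 0) (.ax 4 6 12 15 4), .t 1 (nat_lit 0) (.ax 4 6 12 22 4)] (by decide +kernel) (by decide +kernel)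
theorem b12 : B 384 416 := Blk.of_chk [.t 1 (nat_lit 0) (.ax 4 6 13 15 0), .t 1 (nat_lit 0) (.ax 4 6 13 22 0), .t 1 (nat_lit 0) (.ax 4 6 13 22 1), .t 1 (nat_lit 0) (.ax 4 6 13 22 7), .t 1 (nat_lit 0) (.ax 4 6 14 22 1), .t 1 (nat_lit 0) (.ax 4 6 15 22 1), .t 1 (nat_lit 0) (.ax 4 6 15 22 4), .t 1 (nat_lit 0) (.ax 4 6 18 22 0), .t 1 (nat_lit 0) (.ax 4 6 18 22 1), .t 1 (nat_lit 0) (.ax 4 6 18 22 7), .t 1 (nat_lit 0) (.ax 4 7 8 9 0), .t 1 (nat_lit 0) (.ax 4 7 8 12 0), .t 1 (nat_lit 0) (.ax 4 7 8 13 0), .t 1 (nat_lit 0) (.ax 4 7 8 14 0), .t 1 (nat_lit 0) (.ax 4 7 9 16 0), .t 1 (nat_lit 0) (.ax 4 7 9 22 0), .t 1 (nat_lit 0) (.ax 4 7 10 13 0), .t 1 (nat_lit 0) (.ax 4 7 10 14 0), .t 1 (nat_lit 0) (.ax 4 7 10 15 0), .t 1 (nat_lit 0) (.ax 4 7 10 16 0), .t 1 (nat_lit 0) (.ax 4 7 10 17 0), .t 1 (nat_lit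 0) (.ax 4 7 10 18 0), .t 1 (nat_lit 0) (.ax 4 7 10 19 0), .t 1 (nat_lit 0) (.ax 4 7 10 20 0), .t 1 (nat_lit 0) (.ax 4 7 10 21 0), .t 1 (nat_lit 0) (.ax 4 7 10 22 0), .t 1 (nat_lit 0) (.ax 4 7 11 12 0), .t 1 (nat_lit 0) (.ax 4 7 13 15 0), .t 1 (nat_lit 0) (.ax 4 7 13 16 0), .t 1 (nat_lit 0) (.ax 4 7 13 22 0), .t 1 (nat_lit 0) (.ax 4 7 14 22 0), .t 1 (nat_lit 0) (.ax 4 7 15 16 0)] (by decide +kernel) (by decide +kernel)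
theorem b13 : B 416 448 := Blk.of_chk [.t 1 (nat_lit 0) (.ax 4 7 15 18 0), .t 1 (nat_lit 0) (.ax 4 7 15 22 0), .t 1 (nat_lit 0) (.ax 4 7 17 22 0), .t 1 (nat_lit 0) (.ax 4 7 18 22 0), .t 1 (nat_lit 0) (.ax 4 8 9 12 6), .t 1 (nat_lit 0) (.ax 4 8 9 13 2), .t 1 (nat_lit 0) (.ax 4 8 9 14 2), .t 1 (nat_lit 0) (.ax 4 8 9 15 2), .t 1 (nat_lit 0) (.ax 4 8 9 22 0), .t 1 (nat_lit 0) (.ax 4 8 9 22 2), .t 1 (nat_lit 0) (.ax 4 8 12 13 4), .t 1 (nat_lit 0) (.ax 4 8 12 14 4), .t 1 (nat_lit 0) (.ax 4 8 12 15 4), .t 1 (nat_lit 0) (.ax 4 8 12 18 4), .t 1 (nat_lit 0) (.ax 4 8 12 20 4), .t 1 (nat_lit 0) (.ax 4 8 12 22 4), .t 1 (nat_lit 0) (.ax 4 8 15 18 0), .t 1 (nat_lit 0) (.ax 4 8 15 20 0), .t 1 (nat_lit 0) (.ax 4 8 15 22 0), .t 1 (nat_lit 0) (.ax 4 8 17 22 0), .t 1 (nat_lit 0) (.ax 4 9 10 12 4), .t 1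 (nat_lit 0) (.ax 4 9 11 12 4), .t 1 (nat_lit 0) (.ax 4 9 11 12 6), .t 1 (nat_lit 0) (.ax 4 9 12 15 4), .t 1 (nat_lit 0) (.ax 4 9 12 18 4), .t 1 (nat_lit 0) (.ax 4 9 12 22 4), .t 1 (nat_lit 0) (.ax 4 9 13 14 0), .t 1 (nat_lit 0) (.ax 4 9 13 14 4), .t 1 (nat_lit 0) (.ax 4 9 13 15 6), .t 1 (nat_lit 0) (.ax 4 9 13 16 0), .t 1 (nat_lit 0) (.ax 4 9 13 16 5), .t 1 (nat_lit 0) (.ax 4 9 13 16 6)] (by decide +kernel) (by decide +kernel)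
theorem b14 : B 448 480 := Blk.of_chk [.t 1 (nat_lit 0) (.ax 4 9 13 17 6), .t 1 (nat_lit 0) (.ax 4 9 13 18 6), .t 1 (nat_lit 0) (.ax 4 9 13 19 6), .t 1 (nat_lit 0) (.ax 4 9 13 20 6), .t 1 (nat_lit 0) (.ax 4 9 13 21 6), .t 1 (nat_lit 0) (.ax 4 9 13 22 0), .t 1 (nat_lit 0) (.ax 4 9 13 22 1), .t 1 (nat_lit 0) (.ax 4 9 13 22 3), .t 1 (nat_lit 0) (.ax 4 9 13 22 4), .t 1 (nat_lit 0) (.ax 4 9 13 22 6), .t 1 (nat_lit 0) (.ax 4 9 13 22 7), .t 1 (nat_lit 0) (.ax 4 9 14 15 6), .t 1 (nat_lit 0) (.ax 4 9 14 16 0), .t 1 (nat_lit 0) (.ax 4 9 14 16 5), .t 1 (nat_lit 0) (.ax 4 9 14 16 6), .t 1 (nat_lit 0) (.ax 4 9 14 17 6), .t 1 (nat_lit 0) (.ax 4 9 14 18 6), .t 1 (nat_lit 0) (.ax 4 9 14 19 6), .t 1 (nat_lit 0) (.ax 4 9 14 20 6), .t 1 (nat_lit 0) (.ax 4 9 14 22 0), .t 1 (nat_lit 0) (.ax 4 9 14 22 5),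 .t 1 (nat_lit 0) (.ax 4 9 14 22 6), .t 1 (nat_lit 0) (.ax 4 9 14 22 7), .t 1 (nat_lit 0) (.ax 4 9 15 16 6), .t 1 (nat_lit 0) (.ax 4 9 15 17 2), .t 1 (nat_lit 0) (.ax 4 9 15 17 6), .t 1 (nat_lit 0) (.ax 4 9 15 18 0), .t 1 (nat_lit 0) (.ax 4 9 15 18 6), .t 1 (nat_lit 0) (.ax 4 9 15 19 6), .t 1 (nat_lit 0) (.ax 4 9 15 20 2), .t 1 (nat_lit 0) (.ax 4 9 15 20 6), .t 1 (nat_lit 0) (.ax 4 9 15 22 4)] (by decide +kernel) (by decide +kernel)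
theorem b15 : B 480 512 := Blk.of_chk [.t 1 (nat_lit 0) (.ax 4 9 16 17 4), .t 1 (nat_lit 0) (.ax 4 9 16 18 4), .t 1 (nat_lit 0) (.ax 4 9 16 19 4), .t 1 (nat_lit 0) (.ax 4 9 16 20 4), .t 1 (nat_lit 0) (.ax 4 9 16 21 4), .t 1 (nat_lit 0) (.ax 4 9 16 22 4), .t 1 (nat_lit 0) (.ax 4 9 17 22 0), .t 1 (nat_lit 0) (.ax 4 9 21 22 5), .t 1 (nat_lit 0) (.ax 4 10 12 13 0), .t 1 (nat_lit 0) (.ax 4 10 12 14 0), .t 1 (nat_lit 0) (.ax 4 10 12 15 0), .t 1 (nat_lit 0) (.ax 4 10 12 17 0), .t 1 (nat_lit 0) (.ax 4 10 12 18 0), .t 1 (nat_lit 0) (.ax 4 10 12 19 0), .t 1 (nat_lit 0) (.ax 4 10 12 20 0), .t 1 (nat_lit 0) (.ax 4 10 12 21 0), .t 1 (nat_lit 0) (.ax 4 10 12 22 0), .t 1 (nat_lit 0) (.ax 4 10 13 14 0), .t 1 (nat_lit 0) (.ax 4 10 13 16 0), .t 1 (nat_lit 0) (.ax 4 10 13 19 0), .t 1 (nat_lit 0) (.ax 4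 10 14 15 0), .t 1 (nat_lit 0) (.ax 4 10 14 16 0), .t 1 (nat_lit 0) (.ax 4 10 14 19 0), .t 1 (nat_lit 0) (.ax 4 10 14 22 0), .t 1 (nat_lit 0) (.ax 4 10 15 16 0), .t 1 (nat_lit 0) (.ax 4 10 15 22 0), .t 1 (nat_lit 0) (.ax 4 11 12 13 4), .t 1 (nat_lit 0) (.ax 4 11 12 15 4), .t 1 (nat_lit 0) (.ax 4 11 12 16 4), .t 1 (nat_lit 0) (.ax 4 11 12 17 4), .t 1 (nat_lit 0) (.ax 4 11 12 22 4), .t 1 (nat_lit 0) (.ax 4 11 13 14 2)] (by decide +kernel) (by decide +kernel)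
theorem b16 : B 512 544 := Blk.of_chk [.t 1 (nat_lit 0) (.ax 4 11 13 21 2), .t 1 (nat_lit 0) (.ax 4 11 13 22 2), .t 1 (nat_lit 0) (.ax 4 11 14 22 0), .t 1 (nat_lit 0) (.ax 4 11 17 22 2), .t 1 (nat_lit 0) (.ax 4 12 13 15 0), .t 1 (nat_lit 0) (.ax 4 12 14 22 0), .t 1 (nat_lit 0) (.ax 4 12 15 19 0), .t 1 (nat_lit 0) (.ax 4 12 16 21 0), .t 1 (nat_lit 0) (.ax 4 12 16 22 0), .t 1 (nat_lit 0) (.ax 4 12 17 22 0), .t 1 (nat_lit 0) (.ax 4 12 18 19 0), .t 1 (nat_lit 0) (.ax 4 13 14 15 1), .t 1 (nat_lit 0) (.ax 4 13 14 15 4), .t 1 (nat_lit 0) (.ax 4 13 14 15 5), .t 1 (nat_lit 0) (.ax 4 13 14 16 3), .t 1 (nat_lit 0) (.ax 4 13 14 16 5), .t 1 (nat_lit 0) (.ax 4 13 14 16 6), .t 1 (nat_lit 0) (.ax 4 13 14 17 6), .t 1 (nat_lit 0) (.ax 4 13 14 18 4), .t 1 (nat_lit 0) (.ax 4 13 14 18 6), .t 1 (nat_lit 0)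 (.ax 4 13 14 19 3), .t 1 (nat_lit 0) (.ax 4 13 14 19 4), .t 1 (nat_lit 0) (.ax 4 13 14 19 6), .t 1 (nat_lit 0) (.ax 4 13 14 20 6), .t 1 (nat_lit 0) (.ax 4 13 14 22 0), .t 1 (nat_lit 0) (.ax 4 13 14 22 1), .t 1 (nat_lit 0) (.ax 4 13 14 22 4), .t 1 (nat_lit 0) (.ax 4 13 14 22 5), .t 1 (nat_lit 0) (.ax 4 13 15 16 5), .t 1 (nat_lit 0) (.ax 4 13 16 17 4), .t 1 (nat_lit 0) (.ax 4 13 16 18 4), .t 1 (nat_lit 0) (.ax 4 13 16 19 4)] (by decide +kernel) (by decide +kernel)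
theorem b17 : B 544 576 := Blk.of_chk [.t 1 (nat_lit 0) (.ax 4 13 16 20 4), .t 1 (nat_lit 0) (.ax 4 13 16 21 4), .t 1 (nat_lit 0) (.ax 4 13 16 22 4), .t 1 (nat_lit 0) (.ax 4 13 17 22 0), .t 1 (nat_lit 0) (.ax 4 13 18 22 0), .t 1 (nat_lit 0) (.ax 4 13 18 22 1), .t 1 (nat_lit 0) (.ax 4 13 19 22 4), .t 1 (nat_lit 0) (.ax 4 13 21 22 5), .t 1 (nat_lit 0) (.ax 4 14 15 16 5), .t 1 (nat_lit 0) (.ax 4 14 15 17 2), .t 1 (nat_lit 0) (.ax 4 14 15 17 6), .t 1 (nat_lit 0) (.ax 4 14 15 19 6), .t 1 (nat_lit 0) (.ax 4 14 15 20 6), .t 1 (nat_lit 0) (.ax 4 14 15 21 6), .t 1 (nat_lit 0) (.ax 4 14 15 22 2), .t 1 (nat_lit 0) (.ax 4 14 15 22 4), .t 1 (nat_lit 0) (.ax 4 14 15 22 6), .t 1 (nat_lit 0) (.ax 4 14 16 17 4), .t 1 (nat_lit 0) (.ax 4 14 16 18 4), .t 1 (nat_lit 0) (.ax 4 14 16 19 4), .t 1 (nat_lit 0)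 (.ax 4 14 16 20 4), .t 1 (nat_lit 0) (.ax 4 14 16 21 4), .t 1 (nat_lit 0) (.ax 4 14 16 22 4), .t 1 (nat_lit 0) (.ax 4 14 17 22 0), .t 1 (nat_lit 0) (.ax 4 14 17 22 5), .t 1 (nat_lit 0) (.ax 4 14 18 20 2), .t 1 (nat_lit 0) (.ax 4 14 18 22 1), .t 1 (nat_lit 0) (.ax 4 14 18 22 7), .t 1 (nat_lit 0) (.ax 4 14 19 22 4), .t 1 (nat_lit 0) (.ax 4 14 21 22 5), .t 1 (nat_lit 0) (.ax 4 15 16 17 4), .t 1 (nat_lit 0) (.ax 4 15 16 18 4)] (by decide +kernel) (by decide +kernel)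
theorem b18 : B 576 608 := Blk.of_chk [.t 1 (nat_lit 0) (.ax 4 15 16 19 4), .t 1 (nat_lit 0) (.ax 4 15 16 20 4), .t 1 (nat_lit 0) (.ax 4 15 16 22 4), .t 1 (nat_lit 0) (.ax 4 15 17 19 5), .t 1 (nat_lit 0) (.ax 4 15 17 22 1), .t 1 (nat_lit 0) (.ax 4 15 17 22 4), .t 1 (nat_lit 0) (.ax 4 15 17 22 6), .t 1 (nat_lit 0) (.ax 4 15 18 20 5), .t 1 (nat_lit 0) (.ax 4 15 18 22 3), .t 1 (nat_lit 0) (.ax 4 15 19 20 4), .t 1 (nat_lit 0) (.ax 4 15 19 21 4), .t 1 (nat_lit 0) (.ax 4 15 19 22 4), .t 1 (nat_lit 0) (.ax 4 15 20 22 4), .t 1 (nat_lit 0) (.ax 4 15 21 22 5), .t 1 (nat_lit 0) (.ax 4 16 19 21 0), .t 1 (nat_lit 0) (.ax 4 18 19 22 4), .t 1 (nat_lit 0) (.ax 4 18 20 22 4), .t 1 (nat_lit 0) (.ax 5 6 7 8 1), .t 1 (nat_lit 0) (.ax 5 6 7 8 2), .t 1 (nat_lit 0) (.ax 5 6 7 8 4), .t 1 (nat_lit 0) (.ax 5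 6 7 9 1), .t 1 (nat_lit 0) (.ax 5 6 7 9 4), .t 1 (nat_lit 0) (.ax 5 6 7 12 1), .t 1 (nat_lit 0) (.ax 5 6 7 13 1), .t 1 (nat_lit 0) (.ax 5 6 7 13 4), .t 1 (nat_lit 0) (.ax 5 6 7 14 1), .t 1 (nat_lit 0) (.ax 5 6 7 15 1), .t 1 (nat_lit 0) (.ax 5 6 7 15 4), .t 1 (nat_lit 0) (.ax 5 6 8 9 1), .t 1 (nat_lit 0) (.ax 5 6 8 9 4), .t 1 (nat_lit 0) (.ax 5 6 8 12 1), .t 1 (nat_lit 0) (.ax 5 6 8 13 1)] (by decide +kernel) (by decide +kernel)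
theorem b19 : B 608 640 := Blk.of_chk [.t 1 (nat_lit 0) (.ax 5 6 8 13 4), .t 1 (nat_lit 0) (.ax 5 6 8 14 1), .t 1 (nat_lit 0) (.ax 5 6 8 14 4), .t 1 (nat_lit 0) (.ax 5 6 8 15 1), .t 1 (nat_lit 0) (.ax 5 6 8 15 4), .t 1 (nat_lit 0) (.ax 5 6 9 13 5), .t 1 (nat_lit 0) (.ax 5 6 9 13 6), .t 1 (nat_lit 0) (.ax 5 6 9 14 5), .t 1 (nat_lit 0) (.ax 5 6 9 14 6), .t 1 (nat_lit 0) (.ax 5 6 9 15 5), .t 1 (nat_lit 0) (.ax 5 6 9 15 6), .t 1 (nat_lit 0) (.ax 5 6 9 16 5), .t 1 (nat_lit 0) (.ax 5 6 9 17 7), .t 1 (nat_lit 0) (.ax 5 6 9 18 7), .t 1 (nat_lit 0) (.ax 5 6 9 19 7), .t 1 (nat_lit 0) (.ax 5 6 9 20 7), .t 1 (nat_lit 0) (.ax 5 6 9 22 5), .t 1 (nat_lit 0) (.ax 5 6 9 22 6), .t 1 (nat_lit 0) (.ax 5 6 12 14 1), .t 1 (nat_lit 0) (.ax 5 6 12 14 4), .t 1 (nat_lit 0) (.ax 5 6 13 14 6), .t 1 (nat_lit 0)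 (.ax 5 6 14 15 4), .t 1 (nat_lit 0) (.ax 5 6 14 22 4), .t 1 (nat_lit 0) (.ax 5 6 15 16 6), .t 1 (nat_lit 0) (.ax 5 6 15 17 6), .t 1 (nat_lit 0) (.ax 5 6 15 18 6), .t 1 (nat_lit 0) (.ax 5 6 15 19 6), .t 1 (nat_lit 0) (.ax 5 6 15 20 6), .t 1 (nat_lit 0) (.ax 5 7 8 9 0), .t 1 (nat_lit 0) (.ax 5 7 8 9 2), .t 1 (nat_lit 0) (.ax 5 7 8 9 4), .t 1 (nat_lit 0) (.ax 5 7 8 12 0)] (by decide +kernel) (by decide +kernel)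
theorem b20 : B 640 672 := Blk.of_chk [.t 1 (nat_lit 0) (.ax 5 7 8 12 2), .t 1 (nat_lit 0) (.ax 5 7 8 12 4), .t 1 (nat_lit 0) (.ax 5 7 8 13 2), .t 1 (nat_lit 0) (.ax 5 7 8 13 4), .t 1 (nat_lit 0) (.ax 5 7 8 14 4), .t 1 (nat_lit 0) (.ax 5 7 8 15 2), .t 1 (nat_lit 0) (.ax 5 7 8 15 4), .t 1 (nat_lit 0) (.ax 5 7 9 15 0), .t 1 (nat_lit 0) (.ax 5 7 9 16 0), .t 1 (nat_lit 0) (.ax 5 7 10 13 0), .t 1 (nat_lit 0) (.ax 5 7 10 14 0), .t 1 (nat_lit 0) (.ax 5 7 10 15 0), .t 1 (nat_lit 0) (.ax 5 7 10 16 0), .t 1 (nat_lit 0) (.ax 5 7 10 17 0), .t 1 (nat_lit 0) (.ax 5 7 10 19 0), .t 1 (nat_lit 0) (.ax 5 7 10 21 0), .t 1 (nat_lit 0) (.ax 5 7 10 22 0), .t 1 (nat_lit 0) (.ax 5 7 13 14 0), .t 1 (nat_lit 0) (.ax 5 7 13 16 0), .t 1 (nat_lit 0) (.ax 5 7 15 16 0), .t 1 (nat_lit 0) (.ax 5 7 15 19 0), .t 1 (nat_lit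 0) (.ax 5 7 15 22 0), .t 1 (nat_lit 0) (.ax 5 8 9 13 2), .t 1 (nat_lit 0) (.ax 5 8 9 13 4), .t 1 (nat_lit 0) (.ax 5 8 9 15 2), .t 1 (nat_lit 0) (.ax 5 8 9 15 4), .t 1 (nat_lit 0) (.ax 5 8 9 22 2), .t 1 (nat_lit 0) (.ax 5 8 12 13 4), .t 1 (nat_lit 0) (.ax 5 8 12 14 2), .t 1 (nat_lit 0) (.ax 5 8 12 14 4), .t 1 (nat_lit 0) (.ax 5 8 12 15 4), .t 1 (nat_lit 0) (.ax 5 8 12 22 4)] (by decide +kernel) (by decide +kernel)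
theorem b21 : B 672 704 := Blk.of_chk [.t 1 (nat_lit 0) (.ax 5 9 13 16 5), .t 1 (nat_lit 0) (.ax 5 9 14 16 5), .t 1 (nat_lit 0) (.ax 5 10 12 13 0), .t 1 (nat_lit 0) (.ax 5 10 12 14 0), .t 1 (nat_lit 0) (.ax 5 10 12 15 0), .t 1 (nat_lit 0) (.ax 5 10 12 17 0), .t 1 (nat_lit 0) (.ax 5 10 12 19 0), .t 1 (nat_lit 0) (.ax 5 10 12 21 0), .t 1 (nat_lit 0) (.ax 5 10 12 22 0), .t 1 (nat_lit 0) (.ax 5 10 13 14 0), .t 1 (nat_lit 0) (.ax 5 10 13 16 0), .t 1 (nat_lit 0) (.ax 5 10 13 19 0), .t 1 (nat_lit 0) (.ax 5 10 14 15 0), .t 1 (nat_lit 0) (.ax 5 10 14 19 0), .t 1 (nat_lit 0) (.ax 5 11 12 13 4), .t 1 (nat_lit 0) (.ax 5 11 12 16 4), .t 1 (nat_lit 0) (.ax 5 11 12 22 4), .t 1 (nat_lit 0) (.ax 5 12 13 14 0), .t 1 (nat_lit 0) (.ax 5 12 13 15 0), .t 1 (nat_lit 0) (.ax 5 12 16 21 0), .t 1 (nat_lit 0)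 (.ax 5 12 16 22 0), .t 1 (nat_lit 0) (.ax 5 12 18 19 0), .t 1 (nat_lit 0) (.ax 5 13 14 15 5), .t 1 (nat_lit 0) (.ax 5 13 14 16 5), .t 1 (nat_lit 0) (.ax 5 13 16 17 4), .t 1 (nat_lit 0) (.ax 5 13 16 18 4), .t 1 (nat_lit 0) (.ax 5 13 16 19 4), .t 1 (nat_lit 0) (.ax 5 13 16 20 4), .t 1 (nat_lit 0) (.ax 5 13 16 21 4), .t 1 (nat_lit 0) (.ax 5 13 16 22 4), .t 1 (nat_lit 0) (.ax 5 13 19 22 4), .t 1 (nat_lit 0) (.ax 5 14 15 17 2)] (by decide +kernel) (by decide +kernel)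
theorem b22 : B 704 736 := Blk.of_chk [.t 1 (nat_lit 0) (.ax 5 14 19 22 4), .t 1 (nat_lit 0) (.ax 5 15 16 17 4), .t 1 (nat_lit 0) (.ax 5 15 16 18 4), .t 1 (nat_lit 0) (.ax 5 15 16 19 4), .t 1 (nat_lit 0) (.ax 5 15 16 20 4), .t 1 (nat_lit 0) (.ax 5 15 17 21 0), .t 1 (nat_lit 0) (.ax 5 15 17 21 2), .t 1 (nat_lit 0) (.ax 5 15 19 21 4), .t 1 (nat_lit 0) (.ax 5 15 19 22 4), .t 1 (nat_lit 0) (.ax 5 16 19 21 0), .t 1 (nat_lit 0) (.ax 5 18 19 22 4), .t 1 (nat_lit 0) (.ax 5 18 21 22 7), .t 1 (nat_lit 0) (.ax 6 7 8 9 0), .t 1 (nat_lit 0) (.ax 6 7 8 9 2), .t 1 (nat_lit 0) (.ax 6 7 8 9 4), .t 1 (nat_lit 0) (.ax 6 7 8 12 0), .t 1 (nat_lit 0) (.ax 6 7 8 13 2), .t 1 (nat_lit 0) (.ax 6 7 8 13 4), .t 1 (nat_lit 0) (.ax 6 7 8 15 2), .t 1 (nat_lit 0) (.ax 6 7 8 15 4), .t 1 (nat_lit 0) (.ax 6 7 8 19 0),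 .t 1 (nat_lit 0) (.ax 6 7 9 16 0), .t 1 (nat_lit 0) (.ax 6 7 10 13 0), .t 1 (nat_lit 0) (.ax 6 7 10 14 0), .t 1 (nat_lit 0) (.ax 6 7 10 15 0), .t 1 (nat_lit 0) (.ax 6 7 10 16 0), .t 1 (nat_lit 0) (.ax 6 7 10 19 0), .t 1 (nat_lit 0) (.ax 6 7 10 21 0), .t 1 (nat_lit 0) (.ax 6 7 10 22 0), .t 1 (nat_lit 0) (.ax 6 7 11 12 0), .t 1 (nat_lit 0) (.ax 6 7 12 15 2), .t 1 (nat_lit 0) (.ax 6 7 12 15 4)] (by decide +kernel) (by decide +kernel)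
theorem b23 : B 736 768 := Blk.of_chk [.t 1 (nat_lit 0) (.ax 6 7 13 15 0), .t 1 (nat_lit 0) (.ax 6 7 13 15 5), .t 1 (nat_lit 0) (.ax 6 7 15 19 0), .t 1 (nat_lit 0) (.ax 6 8 9 13 2), .t 1 (nat_lit 0) (.ax 6 8 9 13 4), .t 1 (nat_lit 0) (.ax 6 8 9 15 2), .t 1 (nat_lit 0) (.ax 6 8 9 15 4), .t 1 (nat_lit 0) (.ax 6 8 12 19 4), .t 1 (nat_lit 0) (.ax 6 8 12 22 4), .t 1 (nat_lit 0) (.ax 6 8 15 19 0), .t 1 (nat_lit 0) (.ax 6 9 12 19 4), .t 1 (nat_lit 0) (.ax 6 9 12 22 4), .t 1 (nat_lit 0) (.ax 6 9 13 22 4), .t 1 (nat_lit 0) (.ax 6 9 15 19 0), .t 1 (nat_lit 0) (.ax 6 9 16 22 4), .t 1 (nat_lit 0) (.ax 6 10 12 13 0), .t 1 (nat_lit 0) (.ax 6 10 12 14 0), .t 1 (nat_lit 0) (.ax 6 10 12 15 0), .t 1 (nat_lit 0) (.ax 6 10 12 19 0), .t 1 (nat_lit 0) (.ax 6 10 12 21 0), .t 1 (nat_lit 0) (.ax 6 10 12 22 0),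 .t 1 (nat_lit 0) (.ax 6 10 14 15 0), .t 1 (nat_lit 0) (.ax 6 10 14 16 0), .t 1 (nat_lit 0) (.ax 6 10 15 16 0), .t 1 (nat_lit 0) (.ax 6 11 12 16 4), .t 1 (nat_lit 0) (.ax 6 11 12 17 4), .t 1 (nat_lit 0) (.ax 6 11 12 22 4), .t 1 (nat_lit 0) (.ax 6 11 17 22 2), .t 1 (nat_lit 0) (.ax 6 12 13 15 0), .t 1 (nat_lit 0) (.ax 6 12 13 15 5), .t 1 (nat_lit 0) (.ax 6 12 14 15 0), .t 1 (nat_lit 0) (.ax 6 12 15 19 0)] (by decide +kernel) (by decide +kernel)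
theorem b24 : B 768 800 := Blk.of_chk [.t 1 (nat_lit 0) (.ax 6 12 16 21 0), .t 1 (nat_lit 0) (.ax 6 12 16 22 0), .t 1 (nat_lit 0) (.ax 6 12 17 22 0), .t 1 (nat_lit 0) (.ax 6 14 15 22 6), .t 1 (nat_lit 0) (.ax 6 14 16 22 4), .t 1 (nat_lit 0) (.ax 6 15 16 22 4), .t 1 (nat_lit 0) (.ax 6 15 17 21 0), .t 1 (nat_lit 0) (.ax 6 15 19 21 4), .t 1 (nat_lit 0) (.ax 6 15 19 22 4), .t 1 (nat_lit 0) (.ax 6 16 19 21 0), .t 1 (nat_lit 0) (.ax 6 17 21 22 5), .t 1 (nat_lit 0) (.ax 6 18 21 22 5), .t 1 (nat_lit 0) (.ax 7 8 9 10 2), .t 1 (nat_lit 0) (.ax 7 8 9 12 6), .t 1 (nat_lit 0) (.ax 7 8 9 13 0), .t 1 (nat_lit 0) (.ax 7 8 9 13 2), .t 1 (nat_lit 0) (.ax 7 8 9 13 4), .t 1 (nat_lit 0) (.ax 7 8 9 14 2), .t 1 (nat_lit 0) (.ax 7 8 9 15 2), .t 1 (nat_lit 0) (.ax 7 8 9 15 4), .t 1 (nat_lit 0) (.ax 7 8 9 16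 2), .t 1 (nat_lit 0) (.ax 7 8 9 16 6), .t 1 (nat_lit 0) (.ax 7 8 9 19 2), .t 1 (nat_lit 0) (.ax 7 8 9 19 4), .t 1 (nat_lit 0) (.ax 7 8 10 11 3), .t 1 (nat_lit 0) (.ax 7 8 10 13 3), .t 1 (nat_lit 0) (.ax 7 8 10 14 3), .t 1 (nat_lit 0) (.ax 7 8 10 15 3), .t 1 (nat_lit 0) (.ax 7 8 10 16 3), .t 1 (nat_lit 0) (.ax 7 8 10 17 3), .t 1 (nat_lit 0) (.ax 7 8 10 18 3), .t 1 (nat_lit 0) (.ax 7 8 10 19 3)] (by decide +kernel) (by decide +kernel)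
theorem b25 : B 800 832 := Blk.of_chk [.t 1 (nat_lit 0) (.ax 7 8 10 20 3), .t 1 (nat_lit 0) (.ax 7 8 10 21 3), .t 1 (nat_lit 0) (.ax 7 8 10 22 3), .t 1 (nat_lit 0) (.ax 7 8 12 13 4), .t 1 (nat_lit 0) (.ax 7 8 12 14 2), .t 1 (nat_lit 0) (.ax 7 8 12 14 4), .t 1 (nat_lit 0) (.ax 7 8 12 15 4), .t 1 (nat_lit 0) (.ax 7 8 12 16 4), .t 1 (nat_lit 0) (.ax 7 8 12 16 6), .t 1 (nat_lit 0) (.ax 7 8 12 17 4), .t 1 (nat_lit 0) (.ax 7 8 12 19 4), .t 1 (nat_lit 0) (.ax 7 8 12 20 4), .t 1 (nat_lit 0) (.ax 7 8 13 14 2), .t 1 (nat_lit 0) (.ax 7 8 13 15 2), .t 1 (nat_lit 0) (.ax 7 8 13 16 2), .t 1 (nat_lit 0) (.ax 7 8 15 16 2), .t 1 (nat_lit 0) (.ax 7 8 15 19 0), .t 1 (nat_lit 0) (.ax 7 8 15 19 5), .t 1 (nat_lit 0) (.ax 7 8 15 20 0), .t 1 (nat_lit 0) (.ax 7 8 19 20 4), .t 1 (nat_lit 0) (.ax 7 9 10 11 3),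 .t 1 (nat_lit 0) (.ax 7 9 10 13 3), .t 1 (nat_lit 0) (.ax 7 9 10 14 3), .t 1 (nat_lit 0) (.ax 7 9 10 15 3), .t 1 (nat_lit 0) (.ax 7 9 10 16 3), .t 1 (nat_lit 0) (.ax 7 9 10 17 3), .t 1 (nat_lit 0) (.ax 7 9 10 18 3), .t 1 (nat_lit 0) (.ax 7 9 10 19 3), .t 1 (nat_lit 0) (.ax 7 9 10 20 3), .t 1 (nat_lit 0) (.ax 7 9 10 21 3), .t 1 (nat_lit 0) (.ax 7 9 10 22 3), .t 1 (nat_lit 0) (.ax 7 9 11 12 1)] (by decide +kernel) (by decide +kernel)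
theorem b26 : B 832 864 := Blk.of_chk [.t 1 (nat_lit 0) (.ax 7 9 11 12 4), .t 1 (nat_lit 0) (.ax 7 9 11 16 1), .t 1 (nat_lit 0) (.ax 7 9 11 16 6), .t 1 (nat_lit 0) (.ax 7 9 12 16 4), .t 1 (nat_lit 0) (.ax 7 9 13 14 6), .t 1 (nat_lit 0) (.ax 7 9 13 15 2), .t 1 (nat_lit 0) (.ax 7 9 13 16 0), .t 1 (nat_lit 0) (.ax 7 9 13 16 1), .t 1 (nat_lit 0) (.ax 7 9 13 16 2), .t 1 (nat_lit 0) (.ax 7 9 13 16 4), .t 1 (nat_lit 0) (.ax 7 9 13 16 6), .t 1 (nat_lit 0) (.ax 7 9 13 16 7), .t 1 (nat_lit 0) (.ax 7 9 13 22 4), .t 1 (nat_lit 0) (.ax 7 9 14 15 2), .t 1 (nat_lit 0) (.ax 7 9 14 15 4), .t 1 (nat_lit 0) (.ax 7 9 14 16 0), .t 1 (nat_lit 0) (.ax 7 9 14 16 1), .t 1 (nat_lit 0) (.ax 7 9 14 16 6), .t 1 (nat_lit 0) (.ax 7 9 14 16 7), .t 1 (nat_lit 0) (.ax 7 9 15 16 1), .t 1 (nat_lit 0) (.ax 7 9 15 16 3),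 .t 1 (nat_lit 0) (.ax 7 9 15 16 6), .t 1 (nat_lit 0) (.ax 7 9 15 16 7), .t 1 (nat_lit 0) (.ax 7 9 15 19 0), .t 1 (nat_lit 0) (.ax 7 9 15 19 5), .t 1 (nat_lit 0) (.ax 7 9 15 20 2), .t 1 (nat_lit 0) (.ax 7 9 16 22 4), .t 1 (nat_lit 0) (.ax 7 9 19 20 4), .t 1 (nat_lit 0) (.ax 7 10 12 13 0), .t 1 (nat_lit 0) (.ax 7 10 12 14 0), .t 1 (nat_lit 0) (.ax 7 10 12 15 0), .t 1 (nat_lit 0) (.ax 7 10 12 17 0)] (by decide +kernel) (by decide +kernel)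
theorem b27 : B 864 896 := Blk.of_chk [.t 1 (nat_lit 0) (.ax 7 10 12 18 0), .t 1 (nat_lit 0) (.ax 7 10 12 19 0), .t 1 (nat_lit 0) (.ax 7 10 12 20 0), .t 1 (nat_lit 0) (.ax 7 10 12 21 0), .t 1 (nat_lit 0) (.ax 7 10 12 22 0), .t 1 (nat_lit 0) (.ax 7 10 13 15 0), .t 1 (nat_lit 0) (.ax 7 10 13 16 0), .t 1 (nat_lit 0) (.ax 7 10 14 15 0), .t 1 (nat_lit 0) (.ax 7 10 14 16 0), .t 1 (nat_lit 0) (.ax 7 10 14 16 2), .t 1 (nat_lit 0) (.ax 7 10 14 19 0), .t 1 (nat_lit 0) (.ax 7 10 15 16 0), .t 1 (nat_lit 0) (.ax 7 11 12 13 4), .t 1 (nat_lit 0) (.ax 7 11 12 14 4), .t 1 (nat_lit 0) (.ax 7 11 12 15 4), .t 1 (nat_lit 0) (.ax 7 11 12 16 4), .t 1 (nat_lit 0) (.ax 7 11 12 17 4), .t 1 (nat_lit 0) (.ax 7 11 13 15 0), .t 1 (nat_lit 0) (.ax 7 11 13 15 2), .t 1 (nat_lit 0) (.ax 7 11 13 16 0), .t 1 (nat_lit 0)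 (.ax 7 11 14 15 0), .t 1 (nat_lit 0) (.ax 7 11 14 16 2), .t 1 (nat_lit 0) (.ax 7 11 17 20 2), .t 1 (nat_lit 0) (.ax 7 12 13 14 0), .t 1 (nat_lit 0) (.ax 7 12 13 15 0), .t 1 (nat_lit 0) (.ax 7 12 13 15 5), .t 1 (nat_lit 0) (.ax 7 12 16 17 0), .t 1 (nat_lit 0) (.ax 7 12 16 18 0), .t 1 (nat_lit 0) (.ax 7 12 16 20 0), .t 1 (nat_lit 0) (.ax 7 12 16 21 0), .t 1 (nat_lit 0) (.ax 7 12 16 22 0), .t 1 (nat_lit 0) (.ax 7 13 14 15 5)] (by decide +kernel) (by decide +kernel)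
theorem b28 : B 896 928 := Blk.of_chk [.t 1 (nat_lit 0) (.ax 7 13 14 16 0), .t 1 (nat_lit 0) (.ax 7 13 14 16 1), .t 1 (nat_lit 0) (.ax 7 13 14 16 4), .t 1 (nat_lit 0) (.ax 7 13 14 16 6), .t 1 (nat_lit 0) (.ax 7 13 15 16 0), .t 1 (nat_lit 0) (.ax 7 13 15 16 3), .t 1 (nat_lit 0) (.ax 7 13 15 16 4), .t 1 (nat_lit 0) (.ax 7 13 15 16 6), .t 1 (nat_lit 0) (.ax 7 13 15 16 7), .t 1 (nat_lit 0) (.ax 7 13 15 17 3), .t 1 (nat_lit 0) (.ax 7 13 15 18 3), .t 1 (nat_lit 0) (.ax 7 13 15 19 3), .t 1 (nat_lit 0) (.ax 7 13 16 22 4), .t 1 (nat_lit 0) (.ax 7 14 15 16 1), .t 1 (nat_lit 0) (.ax 7 14 15 16 6), .t 1 (nat_lit 0) (.ax 7 14 15 22 4), .t 1 (nat_lit 0) (.ax 7 14 16 22 4), .t 1 (nat_lit 0) (.ax 7 14 19 20 4), .t 1 (nat_lit 0) (.ax 7 15 16 17 4), .t 1 (nat_lit 0) (.ax 7 15 16 18 4), .t 1 (nat_lit 0)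 (.ax 7 15 16 19 4), .t 1 (nat_lit 0) (.ax 7 15 17 19 1), .t 1 (nat_lit 0) (.ax 7 15 17 19 3), .t 1 (nat_lit 0) (.ax 7 15 17 22 4), .t 1 (nat_lit 0) (.ax 7 15 18 19 5), .t 1 (nat_lit 0) (.ax 7 15 18 20 5), .t 1 (nat_lit 0) (.ax 7 15 19 20 4), .t 1 (nat_lit 0) (.ax 7 15 19 20 6), .t 1 (nat_lit 0) (.ax 7 15 19 22 4), .t 1 (nat_lit 0) (.ax 7 15 19 22 6), .t 1 (nat_lit 0) (.ax 7 15 20 22 4), .t 1 (nat_lit 0) (.ax 7 16 19 21 0)] (by decide +kernel) (by decide +kernel)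
theorem b29 : B 928 960 := Blk.of_chk [.t 1 (nat_lit 0) (.ax 7 17 19 22 4), .t 1 (nat_lit 0) (.ax 7 18 20 22 4), .t 1 (nat_lit 0) (.ax 8 9 10 11 1), .t 1 (nat_lit 0) (.ax 8 9 10 11 2), .t 1 (nat_lit 0) (.ax 8 9 10 11 4), .t 1 (nat_lit 0) (.ax 8 9 10 13 1), .t 1 (nat_lit 0) (.ax 8 9 10 13 2), .t 1 (nat_lit 0) (.ax 8 9 10 13 4), .t 1 (nat_lit 0) (.ax 8 9 10 14 1), .t 1 (nat_lit 0) (.ax 8 9 10 14 2), .t 1 (nat_lit 0) (.ax 8 9 10 14 4), .t 1 (nat_lit 0) (.ax 8 9 10 15 1), .t 1 (nat_lit 0) (.ax 8 9 10 15 2), .t 1 (nat_lit 0) (.ax 8 9 10 15 4), .t 1 (nat_lit 0) (.ax 8 9 11 12 3), .t 1 (nat_lit 0) (.ax 8 9 11 13 1), .t 1 (nat_lit 0) (.ax 8 9 11 13 4), .t 1 (nat_lit 0) (.ax 8 9 11 14 1), .t 1 (nat_lit 0) (.ax 8 9 11 14 4), .t 1 (nat_lit 0) (.ax 8 9 11 15 1), .t 1 (nat_lit 0) (.ax 8 9 11 15 4),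 .t 1 (nat_lit 0) (.ax 8 9 13 16 2), .t 1 (nat_lit 0) (.ax 8 9 13 16 4), .t 1 (nat_lit 0) (.ax 8 9 13 19 4), .t 1 (nat_lit 0) (.ax 8 9 13 22 4), .t 1 (nat_lit 0) (.ax 8 9 14 15 4), .t 1 (nat_lit 0) (.ax 8 9 14 15 6), .t 1 (nat_lit 0) (.ax 8 9 14 16 4), .t 1 (nat_lit 0) (.ax 8 9 14 19 6), .t 1 (nat_lit 0) (.ax 8 9 14 22 6), .t 1 (nat_lit 0) (.ax 8 9 15 19 5), .t 1 (nat_lit 0) (.ax 8 9 19 20 4)] (by decide +kernel) (by decide +kernel)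
theorem b30 : B 960 992 := Blk.of_chk [.t 1 (nat_lit 0) (.ax 8 10 11 13 2), .t 1 (nat_lit 0) (.ax 8 10 11 13 4), .t 1 (nat_lit 0) (.ax 8 10 11 14 2), .t 1 (nat_lit 0) (.ax 8 10 11 14 4), .t 1 (nat_lit 0) (.ax 8 10 11 15 2), .t 1 (nat_lit 0) (.ax 8 10 11 15 4), .t 1 (nat_lit 0) (.ax 8 10 12 13 0), .t 1 (nat_lit 0) (.ax 8 10 12 14 0), .t 1 (nat_lit 0) (.ax 8 10 12 15 0), .t 1 (nat_lit 0) (.ax 8 10 12 17 0), .t 1 (nat_lit 0) (.ax 8 10 12 18 0), .t 1 (nat_lit 0) (.ax 8 10 12 19 0), .t 1 (nat_lit 0) (.ax 8 10 12 20 0), .t 1 (nat_lit 0) (.ax 8 10 12 21 0), .t 1 (nat_lit 0) (.ax 8 10 12 22 0), .t 1 (nat_lit 0) (.ax 8 10 13 14 0), .t 1 (nat_lit 0) (.ax 8 10 13 14 5), .t 1 (nat_lit 0) (.ax 8 10 13 15 0), .t 1 (nat_lit 0) (.ax 8 10 13 15 5), .t 1 (nat_lit 0) (.ax 8 10 14 15 0), .t 1 (nat_lit 0)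 (.ax 8 10 14 19 0), .t 1 (nat_lit 0) (.ax 8 11 12 16 4), .t 1 (nat_lit 0) (.ax 8 11 13 14 0), .t 1 (nat_lit 0) (.ax 8 11 13 14 5), .t 1 (nat_lit 0) (.ax 8 11 13 15 0), .t 1 (nat_lit 0) (.ax 8 11 13 15 5), .t 1 (nat_lit 0) (.ax 8 12 16 21 0), .t 1 (nat_lit 0) (.ax 8 13 14 16 4), .t 1 (nat_lit 0) (.ax 8 14 19 22 4), .t 1 (nat_lit 0) (.ax 8 15 17 19 1), .t 1 (nat_lit 0) (.ax 8 15 17 19 3), .t 1 (nat_lit 0) (.ax 8 15 17 22 4)] (by decide +kernel) (by decide +kernel)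
theorem b31 : B 992 1024 := Blk.of_chk [.t 1 (nat_lit 0) (.ax 8 15 18 20 5), .t 1 (nat_lit 0) (.ax 8 15 20 22 4), .t 1 (nat_lit 0) (.ax 8 16 19 21 0), .t 1 (nat_lit 0) (.ax 8 17 19 22 4), .t 1 (nat_lit 0) (.ax 9 10 11 13 0), .t 1 (nat_lit 0) (.ax 9 10 11 14 2), .t 1 (nat_lit 0) (.ax 9 10 11 14 4), .t 1 (nat_lit 0) (.ax 9 10 11 15 0), .t 1 (nat_lit 0) (.ax 9 10 11 22 4), .t 1 (nat_lit 0) (.ax 9 10 12 13 0), .t 1 (nat_lit 0) (.ax 9 10 12 14 0), .t 1 (nat_lit 0) (.ax 9 10 12 15 0), .t 1 (nat_lit 0) (.ax 9 10 12 17 0), .t 1 (nat_lit 0) (.ax 9 10 12 18 0), .t 1 (nat_lit 0) (.ax 9 10 12 19 0), .t 1 (nat_lit 0) (.ax 9 10 12 20 0), .t 1 (nat_lit 0) (.ax 9 10 12 21 0), .t 1 (nat_lit 0) (.ax 9 10 12 22 0), .t 1 (nat_lit 0) (.ax 9 10 13 14 0), .t 1 (nat_lit 0) (.ax 9 10 13 16 0), .t 1 (nat_lit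 0) (.ax 9 10 13 19 0), .t 1 (nat_lit 0) (.ax 9 10 14 15 0), .t 1 (nat_lit 0) (.ax 9 10 14 16 0), .t 1 (nat_lit 0) (.ax 9 10 14 19 0), .t 1 (nat_lit 0) (.ax 9 10 15 16 0), .t 1 (nat_lit 0) (.ax 9 10 15 20 2), .t 1 (nat_lit 0) (.ax 9 10 15 20 4), .t 1 (nat_lit 0) (.ax 9 10 20 22 4), .t 1 (nat_lit 0) (.ax 9 11 12 14 2), .t 1 (nat_lit 0) (.ax 9 11 12 14 4), .t 1 (nat_lit 0) (.ax 9 11 12 15 2), .t 1 (nat_lit 0) (.ax 9 11 12 15 4)] (by decide +kernel) (by decide +kernel)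
theorem b32 : B 1024 1056 := Blk.of_chk [.t 1 (nat_lit 0) (.ax 9 11 12 16 4), .t 1 (nat_lit 0) (.ax 9 11 13 15 0), .t 1 (nat_lit 0) (.ax 9 11 13 15 5), .t 1 (nat_lit 0) (.ax 9 11 13 16 6), .t 1 (nat_lit 0) (.ax 9 11 13 22 2), .t 1 (nat_lit 0) (.ax 9 11 14 15 0), .t 1 (nat_lit 0) (.ax 9 11 14 15 5), .t 1 (nat_lit 0) (.ax 9 11 14 22 2), .t 1 (nat_lit 0) (.ax 9 11 14 22 4), .t 1 (nat_lit 0) (.ax 9 11 15 16 6), .t 1 (nat_lit 0) (.ax 9 12 13 15 0), .t 1 (nat_lit 0) (.ax 9 12 13 15 5), .t 1 (nat_lit 0) (.ax 9 12 14 15 0), .t 1 (nat_lit 0) (.ax 9 12 14 15 2), .t 1 (nat_lit 0) (.ax 9 12 14 15 4), .t 1 (nat_lit 0) (.ax 9 12 14 15 5), .t 1 (nat_lit 0) (.ax 9 12 16 17 0), .t 1 (nat_lit 0) (.ax 9 12 16 18 0), .t 1 (nat_lit 0) (.ax 9 12 16 20 0), .t 1 (nat_lit 0) (.ax 9 12 16 21 0), .t 1 (nat_lit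 0) (.ax 9 12 16 22 0), .t 1 (nat_lit 0) (.ax 9 13 14 15 5), .t 1 (nat_lit 0) (.ax 9 13 14 16 5), .t 1 (nat_lit 0) (.ax 9 13 14 22 1), .t 1 (nat_lit 0) (.ax 9 13 15 16 4), .t 1 (nat_lit 0) (.ax 9 13 15 16 6), .t 1 (nat_lit 0) (.ax 9 13 15 22 4), .t 1 (nat_lit 0) (.ax 9 13 16 22 4), .t 1 (nat_lit 0) (.ax 9 14 15 16 4), .t 1 (nat_lit 0) (.ax 9 14 15 20 0), .t 1 (nat_lit 0) (.ax 9 14 15 22 4), .t 1 (nat_lit 0) (.ax 9 14 16 22 4)] (by decide +kernel) (by decide +kernel)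
theorem b33 : B 1056 1088 := Blk.of_chk [.t 1 (nat_lit 0) (.ax 9 14 19 20 4), .t 1 (nat_lit 0) (.ax 9 15 16 19 4), .t 1 (nat_lit 0) (.ax 9 15 16 22 4), .t 1 (nat_lit 0) (.ax 9 15 17 19 1), .t 1 (nat_lit 0) (.ax 9 15 17 19 3), .t 1 (nat_lit 0) (.ax 9 15 18 20 5), .t 1 (nat_lit 0) (.ax 9 15 20 22 4), .t 1 (nat_lit 0) (.ax 9 16 19 21 0), .t 1 (nat_lit 0) (.ax 9 17 19 22 4), .t 1 (nat_lit 0) (.ax 10 11 12 13 3), .t 1 (nat_lit 0) (.ax 10 11 12 14 3), .t 1 (nat_lit 0) (.ax 10 11 12 15 3), .t 1 (nat_lit 0) (.ax 10 11 12 17 3), .t 1 (nat_lit 0) (.ax 10 11 12 18 3), .t 1 (nat_lit 0) (.ax 10 11 12 19 3), .t 1 (nat_lit 0) (.ax 10 11 12 20 3), .t 1 (nat_lit 0) (.ax 10 11 12 21 3), .t 1 (nat_lit 0) (.ax 10 11 12 22 3), .t 1 (nat_lit 0) (.ax 10 11 13 14 0), .t 1 (nat_lit 0) (.ax 10 11 13 14 5), .t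 1 (nat_lit 0) (.ax 10 11 13 15 0), .t 1 (nat_lit 0) (.ax 10 11 13 15 2), .t 1 (nat_lit 0) (.ax 10 11 13 15 5), .t 1 (nat_lit 0) (.ax 10 11 13 16 0), .t 1 (nat_lit 0) (.ax 10 11 13 16 2), .t 1 (nat_lit 0) (.ax 10 11 13 16 6), .t 1 (nat_lit 0) (.ax 10 11 13 17 6), .t 1 (nat_lit 0) (.ax 10 11 13 19 0), .t 1 (nat_lit 0) (.ax 10 11 13 19 6), .t 1 (nat_lit 0) (.ax 10 11 14 15 0), .t 1 (nat_lit 0) (.ax 10 11 14 16 0), .t 1 (nat_lit 0) (.ax 10 11 14 16 4)] (by decide +kernel) (by decide +kernel)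
theorem b34 : B 1088 1120 := Blk.of_chk [.t 1 (nat_lit 0) (.ax 10 11 14 16 6), .t 1 (nat_lit 0) (.ax 10 11 14 19 6), .t 1 (nat_lit 0) (.ax 10 11 14 22 2), .t 1 (nat_lit 0) (.ax 10 11 14 22 4), .t 1 (nat_lit 0) (.ax 10 11 15 16 0), .t 1 (nat_lit 0) (.ax 10 11 15 16 2), .t 1 (nat_lit 0) (.ax 10 11 15 16 6), .t 1 (nat_lit 0) (.ax 10 11 15 19 6), .t 1 (nat_lit 0) (.ax 10 11 16 19 4), .t 1 (nat_lit 0) (.ax 10 11 17 19 2), .t 1 (nat_lit 0) (.ax 10 12 13 15 0), .t 1 (nat_lit 0) (.ax 10 12 13 15 2), .t 1 (nat_lit 0) (.ax 10 12 13 19 0), .t 1 (nat_lit 0) (.ax 10 12 14 15 0), .t 1 (nat_lit 0) (.ax 10 12 15 19 0), .t 1 (nat_lit 0) (.ax 10 12 15 19 2), .t 1 (nat_lit 0) (.ax 10 12 16 17 0), .t 1 (nat_lit 0) (.ax 10 12 16 18 0), .t 1 (nat_lit 0) (.ax 10 12 16 20 0), .t 1 (nat_lit 0) (.ax 10 12 16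 21 0), .t 1 (nat_lit 0) (.ax 10 12 16 22 0), .t 1 (nat_lit 0) (.ax 10 12 18 19 0), .t 1 (nat_lit 0) (.ax 10 13 14 15 0), .t 1 (nat_lit 0) (.ax 10 13 14 15 1), .t 1 (nat_lit 0) (.ax 10 13 14 15 6), .t 1 (nat_lit 0) (.ax 10 13 14 16 0), .t 1 (nat_lit 0) (.ax 10 13 14 16 1), .t 1 (nat_lit 0) (.ax 10 13 14 16 6), .t 1 (nat_lit 0) (.ax 10 13 14 16 7), .t 1 (nat_lit 0) (.ax 10 13 14 18 2), .t 1 (nat_lit 0) (.ax 10 13 14 18 3), .t 1 (nat_lit 0) (.ax 10 13 14 19 1)] (by decide +kernel) (by decide +kernel)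
theorem b35 : B 1120 1152 := Blk.of_chk [.t 1 (nat_lit 0) (.ax 10 13 14 19 2), .t 1 (nat_lit 0) (.ax 10 13 14 19 4), .t 1 (nat_lit 0) (.ax 10 13 14 19 6), .t 1 (nat_lit 0) (.ax 10 13 15 16 0), .t 1 (nat_lit 0) (.ax 10 13 15 16 1), .t 1 (nat_lit 0) (.ax 10 13 15 16 2), .t 1 (nat_lit 0) (.ax 10 13 15 16 4), .t 1 (nat_lit 0) (.ax 10 13 15 16 5), .t 1 (nat_lit 0) (.ax 10 13 15 16 6), .t 1 (nat_lit 0) (.ax 10 13 15 17 2), .t 1 (nat_lit 0) (.ax 10 13 15 19 2), .t 1 (nat_lit 0) (.ax 10 13 15 19 6), .t 1 (nat_lit 0) (.ax 10 13 15 19 7), .t 1 (nat_lit 0) (.ax 10 13 16 17 4), .t 1 (nat_lit 0) (.ax 10 13 16 18 4), .t 1 (nat_lit 0) (.ax 10 13 16 19 4), .t 1 (nat_lit 0) (.ax 10 13 18 19 2), .t 1 (nat_lit 0) (.ax 10 14 15 16 0), .t 1 (nat_lit 0) (.ax 10 14 15 16 1), .t 1 (nat_lit 0) (.ax 10 14 15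 16 2), .t 1 (nat_lit 0) (.ax 10 14 15 16 4), .t 1 (nat_lit 0) (.ax 10 14 15 16 6), .t 1 (nat_lit 0) (.ax 10 14 15 17 3), .t 1 (nat_lit 0) (.ax 10 14 15 18 3), .t 1 (nat_lit 0) (.ax 10 14 15 19 0), .t 1 (nat_lit 0) (.ax 10 14 15 19 2), .t 1 (nat_lit 0) (.ax 10 14 15 19 4), .t 1 (nat_lit 0) (.ax 10 14 15 19 6), .t 1 (nat_lit 0) (.ax 10 14 15 20 0), .t 1 (nat_lit 0) (.ax 10 14 15 21 3), .t 1 (nat_lit 0) (.ax 10 14 15 22 0), .t 1 (nat_lit 0) (.ax 10 14 15 22 3)] (by decide +kernel) (by decide +kernel)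
theorem b36 : B 1152 1184 := Blk.of_chk [.t 1 (nat_lit 0) (.ax 10 14 15 22 4), .t 1 (nat_lit 0) (.ax 10 14 16 18 4), .t 1 (nat_lit 0) (.ax 10 14 16 19 4), .t 1 (nat_lit 0) (.ax 10 14 16 22 4), .t 1 (nat_lit 0) (.ax 10 14 17 19 0), .t 1 (nat_lit 0) (.ax 10 14 18 19 1), .t 1 (nat_lit 0) (.ax 10 14 18 19 4), .t 1 (nat_lit 0) (.ax 10 14 19 20 4), .t 1 (nat_lit 0) (.ax 10 14 19 22 4), .t 1 (nat_lit 0) (.ax 10 15 16 17 4), .t 1 (nat_lit 0) (.ax 10 15 16 18 4), .t 1 (nat_lit 0) (.ax 10 15 16 19 4), .t 1 (nat_lit 0) (.ax 10 15 16 21 4), .t 1 (nat_lit 0) (.ax 10 15 16 22 4), .t 1 (nat_lit 0) (.ax 10 15 17 19 0), .t 1 (nat_lit 0) (.ax 10 15 17 19 1), .t 1 (nat_lit 0) (.ax 10 15 17 19 2), .t 1 (nat_lit 0) (.ax 10 15 17 19 3), .t 1 (nat_lit 0) (.ax 10 15 17 19 4), .t 1 (nat_lit 0) (.ax 10 15 17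 19 6), .t 1 (nat_lit 0) (.ax 10 15 17 20 1), .t 1 (nat_lit 0) (.ax 10 15 17 20 3), .t 1 (nat_lit 0) (.ax 10 15 17 22 4), .t 1 (nat_lit 0) (.ax 10 15 18 19 1), .t 1 (nat_lit 0) (.ax 10 15 18 19 6), .t 1 (nat_lit 0) (.ax 10 15 18 20 1), .t 1 (nat_lit 0) (.ax 10 15 18 20 3), .t 1 (nat_lit 0) (.ax 10 15 19 22 4), .t 1 (nat_lit 0) (.ax 10 15 20 22 4), .t 1 (nat_lit 0) (.ax 10 16 19 21 0), .t 1 (nat_lit 0) (.ax 10 17 19 20 4), .t 1 (nat_lit 0) (.ax 10 18 19 20 4)] (by decide +kernel) (by decide +kernel)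
theorem b37 : B 1184 1216 := Blk.of_chk [.t 1 (nat_lit 0) (.ax 11 12 13 14 0), .t 1 (nat_lit 0) (.ax 11 12 13 14 5), .t 1 (nat_lit 0) (.ax 11 12 13 15 0), .t 1 (nat_lit 0) (.ax 11 12 13 15 2), .t 1 (nat_lit 0) (.ax 11 12 13 15 4), .t 1 (nat_lit 0) (.ax 11 12 13 15 5), .t 1 (nat_lit 0) (.ax 11 12 13 22 0), .t 1 (nat_lit 0) (.ax 11 12 14 15 0), .t 1 (nat_lit 0) (.ax 11 12 14 15 2), .t 1 (nat_lit 0) (.ax 11 12 14 15 4), .t 1 (nat_lit 0) (.ax 11 12 14 15 5), .t 1 (nat_lit 0) (.ax 11 12 16 17 0), .t 1 (nat_lit 0) (.ax 11 12 16 18 0), .t 1 (nat_lit 0) (.ax 11 12 16 20 0), .t 1 (nat_lit 0) (.ax 11 12 16 21 0), .t 1 (nat_lit 0) (.ax 11 12 16 22 0), .t 1 (nat_lit 0) (.ax 11 13 14 15 0), .t 1 (nat_lit 0) (.ax 11 13 14 15 1), .t 1 (nat_lit 0) (.ax 11 13 14 15 3), .t 1 (nat_lit 0) (.ax 11 13 14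 15 4), .t 1 (nat_lit 0) (.ax 11 13 14 15 5), .t 1 (nat_lit 0) (.ax 11 13 14 16 4), .t 1 (nat_lit 0) (.ax 11 13 15 16 2), .t 1 (nat_lit 0) (.ax 11 13 15 16 4), .t 1 (nat_lit 0) (.ax 11 13 16 22 4), .t 1 (nat_lit 0) (.ax 11 13 19 22 4), .t 1 (nat_lit 0) (.ax 11 13 21 22 5), .t 1 (nat_lit 0) (.ax 11 14 15 16 4), .t 1 (nat_lit 0) (.ax 11 14 15 16 7), .t 1 (nat_lit 0) (.ax 11 14 15 22 2), .t 1 (nat_lit 0) (.ax 11 14 15 22 4), .t 1 (nat_lit 0) (.ax 11 14 16 22 4)] (by decide +kernel) (by decide +kernel)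
theorem b38 : B 1216 1248 := Blk.of_chk [.t 1 (nat_lit 0) (.ax 11 17 18 19 1), .t 1 (nat_lit 0) (.ax 11 17 19 20 4), .t 1 (nat_lit 0) (.ax 11 17 19 22 4), .t 1 (nat_lit 0) (.ax 12 13 14 15 1), .t 1 (nat_lit 0) (.ax 12 13 14 15 4), .t 1 (nat_lit 0) (.ax 12 13 14 15 5), .t 1 (nat_lit 0) (.ax 12 13 14 15 6), .t 1 (nat_lit 0) (.ax 12 13 14 16 2), .t 1 (nat_lit 0) (.ax 12 13 15 16 2), .t 1 (nat_lit 0) (.ax 12 13 15 18 2), .t 1 (nat_lit 0) (.ax 12 13 15 19 2), .t 1 (nat_lit 0) (.ax 12 13 15 19 3), .t 1 (nat_lit 0) (.ax 12 13 15 19 7), .t 1 (nat_lit 0) (.ax 12 13 15 22 6), .t 1 (nat_lit 0) (.ax 12 13 16 17 3), .t 1 (nat_lit 0) (.ax 12 13 16 18 3), .t 1 (nat_lit 0) (.ax 12 13 16 20 3), .t 1 (nat_lit 0) (.ax 12 13 16 21 3), .t 1 (nat_lit 0) (.ax 12 13 16 22 3), .t 1 (nat_lit 0) (.ax 12 13 18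 19 1), .t 1 (nat_lit 0) (.ax 12 13 19 22 4), .t 1 (nat_lit 0) (.ax 12 14 15 16 2), .t 1 (nat_lit 0) (.ax 12 14 16 17 3), .t 1 (nat_lit 0) (.ax 12 14 16 18 3), .t 1 (nat_lit 0) (.ax 12 14 16 20 3), .t 1 (nat_lit 0) (.ax 12 14 16 21 3), .t 1 (nat_lit 0) (.ax 12 14 16 22 3), .t 1 (nat_lit 0) (.ax 12 14 18 19 3), .t 1 (nat_lit 0) (.ax 12 14 18 21 4), .t 1 (nat_lit 0) (.ax 12 14 18 22 4), .t 1 (nat_lit 0) (.ax 12 15 16 17 3), .t 1 (nat_lit 0) (.ax 12 15 16 18 3)] (by decide +kernel) (by decide +kernel)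
theorem b39 : B 1248 1280 := Blk.of_chk [.t 1 (nat_lit 0) (.ax 12 15 16 20 3), .t 1 (nat_lit 0) (.ax 12 15 16 21 3), .t 1 (nat_lit 0) (.ax 12 15 16 22 3), .t 1 (nat_lit 0) (.ax 12 15 17 19 1), .t 1 (nat_lit 0) (.ax 12 15 17 22 1), .t 1 (nat_lit 0) (.ax 12 15 18 19 1), .t 1 (nat_lit 0) (.ax 12 15 18 19 4), .t 1 (nat_lit 0) (.ax 13 14 15 16 0), .t 1 (nat_lit 0) (.ax 13 14 15 16 1), .t 1 (nat_lit 0) (.ax 13 14 15 16 2), .t 1 (nat_lit 0) (.ax 13 14 15 16 4), .t 1 (nat_lit 0) (.ax 13 14 15 16 5), .t 1 (nat_lit 0) (.ax 13 14 15 16 6), .t 1 (nat_lit 0) (.ax 13 14 15 17 0), .t 1 (nat_lit 0) (.ax 13 14 15 17 1), .t 1 (nat_lit 0) (.ax 13 14 15 17 4), .t 1 (nat_lit 0) (.ax 13 14 15 18 0), .t 1 (nat_lit 0) (.ax 13 14 15 22 6), .t 1 (nat_lit 0) (.ax 13 14 16 17 1), .t 1 (nat_lit 0) (.ax 13 14 16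 17 2), .t 1 (nat_lit 0) (.ax 13 14 16 17 4), .t 1 (nat_lit 0) (.ax 13 14 16 18 2), .t 1 (nat_lit 0) (.ax 13 14 16 18 4), .t 1 (nat_lit 0) (.ax 13 14 16 19 4), .t 1 (nat_lit 0) (.ax 13 14 16 21 4), .t 1 (nat_lit 0) (.ax 13 14 16 22 4), .t 1 (nat_lit 0) (.ax 13 14 17 18 1), .t 1 (nat_lit 0) (.ax 13 14 17 18 2), .t 1 (nat_lit 0) (.ax 13 14 17 18 3), .t 1 (nat_lit 0) (.ax 13 14 17 19 4), .t 1 (nat_lit 0) (.ax 13 14 17 21 4), .t 1 (nat_lit 0) (.ax 13 14 17 22 0)] (by decide +kernel) (by decide +kernel)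
theorem b40 : B 1280 1312 := Blk.of_chk [.t 1 (nat_lit 0) (.ax 13 14 18 20 2), .t 1 (nat_lit 0) (.ax 13 14 18 21 4), .t 1 (nat_lit 0) (.ax 13 14 18 22 0), .t 1 (nat_lit 0) (.ax 13 14 18 22 4), .t 1 (nat_lit 0) (.ax 13 14 21 22 5), .t 1 (nat_lit 0) (.ax 13 15 16 17 1), .t 1 (nat_lit 0) (.ax 13 15 16 17 2), .t 1 (nat_lit 0) (.ax 13 15 16 17 4), .t 1 (nat_lit 0) (.ax 13 15 16 18 1), .t 1 (nat_lit 0) (.ax 13 15 16 18 2), .t 1 (nat_lit 0) (.ax 13 15 16 18 4), .t 1 (nat_lit 0) (.ax 13 15 16 19 4), .t 1 (nat_lit 0) (.ax 13 15 16 21 4), .t 1 (nat_lit 0) (.ax 13 15 16 22 4), .t 1 (nat_lit 0) (.ax 13 15 17 18 0), .t 1 (nat_lit 0) (.ax 13 15 17 18 5), .t 1 (nat_lit 0) (.ax 13 15 17 19 1), .t 1 (nat_lit 0) (.ax 13 15 17 19 2), .t 1 (nat_lit 0) (.ax 13 15 17 19 4), .t 1 (nat_lit 0) (.ax 13 15 17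 21 2), .t 1 (nat_lit 0) (.ax 13 15 17 22 2), .t 1 (nat_lit 0) (.ax 13 15 18 19 0), .t 1 (nat_lit 0) (.ax 13 15 18 19 2), .t 1 (nat_lit 0) (.ax 13 15 18 19 4), .t 1 (nat_lit 0) (.ax 13 15 18 22 2), .t 1 (nat_lit 0) (.ax 13 16 17 18 0), .t 1 (nat_lit 0) (.ax 13 16 17 18 2), .t 1 (nat_lit 0) (.ax 13 16 17 18 4), .t 1 (nat_lit 0) (.ax 13 16 17 18 5), .t 1 (nat_lit 0) (.ax 13 16 19 21 0), .t 1 (nat_lit 0) (.ax 13 17 18 19 0), .t 1 (nat_lit 0) (.ax 13 17 18 19 1)] (by decide +kernel) (by decide +kernel)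
theorem b41 : B 1312 1344 := Blk.of_chk [.t 1 (nat_lit 0) (.ax 13 17 18 19 4), .t 1 (nat_lit 0) (.ax 13 17 18 19 5), .t 1 (nat_lit 0) (.ax 13 17 18 20 0), .t 1 (nat_lit 0) (.ax 13 17 18 20 1), .t 1 (nat_lit 0) (.ax 13 17 18 20 4), .t 1 (nat_lit 0) (.ax 13 17 19 20 4), .t 1 (nat_lit 0) (.ax 13 17 20 22 4), .t 1 (nat_lit 0) (.ax 13 17 21 22 5), .t 1 (nat_lit 0) (.ax 13 18 19 20 4), .t 1 (nat_lit 0) (.ax 13 18 19 22 4), .t 1 (nat_lit 0) (.ax 13 18 20 22 4), .t 1 (nat_lit 0) (.ax 13 18 21 22 5), .t 1 (nat_lit 0) (.ax 13 19 20 21 0), .t 1 (nat_lit 0) (.ax 13 20 21 22 5), .t 1 (nat_lit 0) (.ax 14 15 16 17 2), .t 1 (nat_lit 0) (.ax 14 15 16 17 4), .t 1 (nat_lit 0) (.ax 14 15 16 18 2), .t 1 (nat_lit 0) (.ax 14 15 16 18 4), .t 1 (nat_lit 0) (.ax 14 15 17 18 0), .t 1 (nat_lit 0) (.ax 14 15 17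 18 5), .t 1 (nat_lit 0) (.ax 14 15 17 19 1), .t 1 (nat_lit 0) (.ax 14 15 17 19 2), .t 1 (nat_lit 0) (.ax 14 15 17 19 3), .t 1 (nat_lit 0) (.ax 14 15 17 19 4), .t 1 (nat_lit 0) (.ax 14 15 17 20 1), .t 1 (nat_lit 0) (.ax 14 15 17 21 2), .t 1 (nat_lit 0) (.ax 14 15 17 22 2), .t 1 (nat_lit 0) (.ax 14 15 17 22 4), .t 1 (nat_lit 0) (.ax 14 15 18 19 1), .t 1 (nat_lit 0) (.ax 14 15 18 19 2), .t 1 (nat_lit 0) (.ax 14 15 18 21 2), .t 1 (nat_lit 0) (.ax 14 15 18 22 2)] (by decide +kernel) (by decide +kernel)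
theorem b42 : B 1344 1376 := Blk.of_chk [.t 1 (nat_lit 0) (.ax 14 15 19 20 4), .t 1 (nat_lit 0) (.ax 14 15 20 22 4), .t 1 (nat_lit 0) (.ax 14 16 17 18 0), .t 1 (nat_lit 0) (.ax 14 16 17 18 2), .t 1 (nat_lit 0) (.ax 14 16 17 18 4), .t 1 (nat_lit 0) (.ax 14 16 17 18 5), .t 1 (nat_lit 0) (.ax 14 16 19 21 0), .t 1 (nat_lit 0) (.ax 14 17 18 19 0), .t 1 (nat_lit 0) (.ax 14 17 18 19 1), .t 1 (nat_lit 0) (.ax 14 17 18 19 2), .t 1 (nat_lit 0) (.ax 14 17 18 19 4), .t 1 (nat_lit 0) (.ax 14 17 18 19 5), .t 1 (nat_lit 0) (.ax 14 17 18 19 6), .t 1 (nat_lit 0) (.ax 14 17 18 20 0), .t 1 (nat_lit 0) (.ax 14 17 18 20 1), .t 1 (nat_lit 0) (.ax 14 17 18 20 2), .t 1 (nat_lit 0) (.ax 14 17 18 20 4), .t 1 (nat_lit 0) (.ax 14 17 19 20 4), .t 1 (nat_lit 0) (.ax 14 17 20 22 4), .t 1 (nat_lit 0) (.ax 14 17 21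 22 5), .t 1 (nat_lit 0) (.ax 14 18 19 20 4), .t 1 (nat_lit 0) (.ax 14 18 20 22 4), .t 1 (nat_lit 0) (.ax 14 18 21 22 5), .t 1 (nat_lit 0) (.ax 14 19 20 21 0), .t 1 (nat_lit 0) (.ax 14 20 21 22 5), .t 1 (nat_lit 0) (.ax 15 16 17 18 2), .t 1 (nat_lit 0) (.ax 15 16 17 18 4), .t 1 (nat_lit 0) (.ax 15 16 17 18 5), .t 1 (nat_lit 0) (.ax 15 16 19 21 0), .t 1 (nat_lit 0) (.ax 15 17 18 19 0), .t 1 (nat_lit 0) (.ax 15 17 18 19 1), .t 1 (nat_lit 0) (.ax 15 17 18 19 4)] (by decide +kernel) (by decide +kernel)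
theorem b43 : B 1376 1408 := Blk.of_chk [.t 1 (nat_lit 0) (.ax 15 17 18 19 5), .t 1 (nat_lit 0) (.ax 15 17 18 20 0), .t 1 (nat_lit 0) (.ax 15 17 18 20 1), .t 1 (nat_lit 0) (.ax 15 17 19 20 4), .t 1 (nat_lit 0) (.ax 15 17 19 22 4), .t 1 (nat_lit 0) (.ax 15 17 20 21 4), .t 1 (nat_lit 0) (.ax 15 17 20 22 4), .t 1 (nat_lit 0) (.ax 15 17 21 22 5), .t 1 (nat_lit 0) (.ax 15 18 19 20 4), .t 1 (nat_lit 0) (.ax 15 18 20 21 4), .t 1 (nat_lit 0) (.ax 15 18 20 22 4), .t 1 (nat_lit 0) (.ax 15 18 21 22 5), .t 1 (nat_lit 0) (.ax 15 19 20 21 0), .t 1 (nat_lit 0) (.ax 15 20 21 22 5), .t 1 (nat_lit 0) (.ax 16 17 18 19 2), .t 1 (nat_lit 0) (.ax 16 17 18 20 3), .t 1 (nat_lit 0) (.ax 16 17 18 20 5), .t 1 (nat_lit 0) (.ax 16 17 19 21 3), .t 1 (nat_lit 0) (.ax 16 18 19 21 3), .t 1 (nat_lit 0) (.ax 17 18 19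 20 4), .t 1 (nat_lit 0) (.ax 17 20 21 22 5), .t 1 (nat_lit 0) (.ax 18 19 20 21 0), .t 1 (nat_lit 0) (.ax 18 20 21 22 5), .t 1 (nat_lit 0) (.fa 4), .t 1 (nat_lit 0) (.fa 4), .t 1 (nat_lit 0) (.fa 6), .t 1 (nat_lit 0) (.cn 8 2), .t 1 (nat_lit 0) (.cp 2 3), .t 8 (nat_lit 0x9b009a009900a900a8009d009c) (.z (.node 2 4 (.node 0 8 (.free 4 [0,9,10,11,12,13,14,15,16,17,18,19,20,21,22]) (.leaf [2,5,7,8,6])) (.free 1 [1,3,4]))), .t 1 (nat_lit 0) (.fa 4), .t 1 (nat_lit 0) (.cn 8 3), .t 1 (nat_lit 0) (.fa 4)] (by decide +kernel) (by decide +kernel)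
theorem b44 : B 1408 1440 := Blk.of_chk [.t 1 (nat_lit 0) (.cp 3 3), .t 1 (nat_lit 0) (.cp 2 3), .t 1 (nat_lit 0) (.cp 3 2), .t 1 (nat_lit 0) (.cn 2 3), .t 8 (nat_lit 0x252025e025d02560255027f027e) (.z (.node 9 4 (.edon 0 10 (.leaf [5,7,8,9,6]) (.leaf [10,11,12])) (.free 4 [0,1,2,3,4,13,14,15,16,17,18,19,20,21,22]))), .t 1 (nat_lit 0) (.cp 8 3), .t 10 (nat_lit 0x52405210520008d00400004000205290526) (.z (.node 7 16 (.node 0 9 (.node 0 20 (.leaf [0,21,22]) (.leaf [13,18,19,20,17])) (.edon 4 6 (.leaf [4,5,7]) (.leaf [1,3,6,9,2]))) (.free 2 [8,10,11,12,14,15,16]))), .t 10 (nat_lit 0x5230522051f008d00400004000205290526) (.z (.node 7 16 (.node 0 9 (.node 0 20 (.leaf [0,21,22]) (.leaf [13,17,19,20,18])) (.edon 4 6 (.leaf [4,5,7]) (.leaf [1,3,6,9,2]))) (.free 2 [8,10,11,12,14,15,16]))), .t 1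 (nat_lit 0) (.cn 8 3), .t 7 (nat_lit 0x577052e052c052b01240123) (.z (.node 0 3 (.edon 0 11 (.edon 7 9 (.leaf [7,8,10]) (.leaf [0,4,5,6,9])) (.node 13 19 (.leaf [13,18,20,22,21]) (.free 2 [11,12,14,15,16,17,19]))) (.free 1 [1,2,3]))), .t 7 (nat_lit 0x575052e0528052701240123) (.z (.node 0 3 (.edon 7 16 (.free 2 [7,8,10,11,12,14,15]) (.edon 0 13 (.leaf [0,4,5,6,9]) (.node 17 19 (.leaf [13,17,20,22,21]) (.leaf [16,18,19])))) (.free 1 [1,2,3]))), .t 7 (nat_lit 0x575052e0528052701240123) (.z (.node 0 3 (.edon 0 11 (.edon 7 9 (.leaf [7,8,10]) (.leaf [0,4,5,6,9])) (.node 13 19 (.leaf [13,17,20,22,21]) (.free 2 [11,12,14,15,16,18,19]))) (.free 1 [1,2,3]))), .t 1 (nat_lit 0) (.cp 3 3), .t 1 (nat_lit 0) (.cn 4 3), .t 17 (nat_lit 0x25f025a0257025402520285027402730263026203260325029e029d02820281)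 (.z (.edon 11 12 (.free 1 [10,11]) (.node 14 4 (.leaf [5,7,8,12,14,6]) (.free 4 [0,1,2,3,4,9,13,15,16,17,18,19,20,21,22])))), .t 8 (nat_lit 0x252026102600259025802840283) (.z (.node 13 4 (.edon 10 13 (.leaf [10,11,12]) (.leaf [5,7,8,13,6])) (.free 4 [0,1,2,3,4,9,14,15,16,17,18,19,20,21,22]))), .t 1 (nat_lit 0) (.fa 6), .t 1 (nat_lit 0) (.cn 4 3), .t 1 (nat_lit 0) (.fa 2), .t 1 (nat_lit 0) (.fa 2), .t 1 (nat_lit 0) (.fa 5), .t 12 (nat_lit 0x43703da03d903d303d203c603c50088003b00040001) (.z (.node 16 0 (.edon 12 15 (.leaf [12,14,16]) (.node 7 13 (.edon 4 5 (.leaf [4,6,7]) (.leaf [1,3,5,9,2])) (.leaf [8,10,11,15,13]))) (.free 2 [0,17,18,19,20,21,22]))), .t 12 (nat_lit 0x43403d803d703d103d003c403c30088003b00040001) (.z (.node 16 0 (.edon 12 14 (.leaf [12,15,16]) (.node 7 13 (.edon 4 5 (.leaf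 [4,6,7]) (.leaf [1,3,5,9,2])) (.leaf [8,10,11,14,13]))) (.free 2 [0,17,18,19,20,21,22]))), .t 1 (nat_lit 0) (.fa 4), .t 1 (nat_lit 0) (.cn 8 3), .t 12 (nat_lit 0x3a303b303b203ab03a903c403c3008a003d00060001) (.z (.node 16 0 (.edon 12 14 (.leaf [12,15,16]) (.node 7 9 (.edon 4 5 (.leaf [4,6,7]) (.leaf [1,3,5,13,2])) (.leaf [8,10,11,14,9]))) (.free 2 [0,17,18,19,20,21,22]))), .t 12 (nat_lit 0x4000577052e052c052b04aa04a9040f040e03fe03fd) (.z (.edon 0 7 (.free 2 [0,1,2,3,4,5,6]) (.node 9 10 (.edon 9 16 (.leaf [9,11,12,14,15]) (.node 13 19 (.leaf [13,18,20,22,21]) (.leaf [16,17,19]))) (.leaf [7,8,10])))), .t 1 (nat_lit 0) (.cn 8 3), .t 1 (nat_lit 0) (.cp 2 3), .t 10 (nat_lit 0x577052e052c052b01240103010200f000eb) (.z (.edon 0 3 (.free 1 [0,1,2]) (.edon 7 16 (.free 2 [7,8,10,11,12,14,15]) (.edon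 0 13 (.leaf [3,4,6,9,5]) (.node 13 19 (.leaf [13,18,20,22,21]) (.leaf [16,17,19])))))), .t 13 (nat_lit 0x4a304a204a104b404b204aa04a901240103010200f000eb) (.z (.edon 0 16 (.edon 0 3 (.leaf [0,1,2]) (.edon 0 11 (.edon 7 9 (.leaf [7,8,10]) (.leaf [3,4,6,9,5])) (.leaf [11,12,14,15,13]))) (.free 2 [16,17,18,19,20,21,22]))), .t 5 (nat_lit 0x3a001a00030001) (.z (.node 8 0 (.edon 4 8 (.leaf [4,6,7]) (.leaf [1,3,8,5,2])) (.free 4 [0,9,10,11,12,13,14,15,16,17,18,19,20,21,22])))] (by decide +kernel) (by decide +kernel)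
theorem b45 : B 1440 1472 := Blk.of_chk [.t 1 (nat_lit 0) (.cn 8 3), .t 13 (nat_lit 0x4a104ab04a804a604a304b504b301240103010200f000eb) (.z (.edon 0 16 (.edon 0 3 (.leaf [0,1,2]) (.edon 0 11 (.edon 7 9 (.leaf [7,8,10]) (.leaf [3,4,6,9,5])) (.leaf [11,12,15,14,13]))) (.free 2 [16,17,18,19,20,21,22]))), .t 13 (nat_lit 0x3a303b303b203ab03a905230522051f03c403c305290526) (.z (.node 0 7 (.node 0 20 (.leaf [0,21,22]) (.node 13 16 (.leaf [13,17,19,20,18]) (.edon 12 14 (.leaf [12,15,16]) (.leaf [8,10,11,14,9])))) (.free 2 [1,2,3,4,5,6,7]))), .t 12 (nat_lit 0x109010800a500a40089005d005c003c000600050001) (.z (.edon 4 12 (.free 2 [4,6,7,8,9,10,11]) (.node 13 0 (.leaf [1,3,5,12,13,2]) (.free 3 [0,14,15,16,17,18,19,20,21,22])))), .t 13 (nat_lit 0x3a303b503b403ae03ac05230522051f03c603c505290526) (.z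 (.node 0 7 (.node 0 20 (.leaf [0,21,22]) (.node 13 16 (.leaf [13,17,19,20,18]) (.edon 12 15 (.leaf [12,14,16]) (.leaf [8,10,11,15,9])))) (.free 2 [1,2,3,4,5,6,7]))), .t 12 (nat_lit 0x3a303b503b403ae03ac03c603c5008a003d00060001) (.z (.node 16 0 (.edon 12 15 (.leaf [12,14,16]) (.node 7 9 (.edon 4 5 (.leaf [4,6,7]) (.leaf [1,3,5,13,2])) (.leaf [8,10,11,15,9]))) (.free 2 [0,17,18,19,20,21,22]))), .t 1 (nat_lit 0) (.cn 8 3), .t 10 (nat_lit 0x577052e052c052b01240103010200f000eb) (.z (.edon 0 3 (.free 1 [0,1,2]) (.edon 7 16 (.free 2 [7,8,10,11,12,14,15]) (.edon 0 13 (.leaf [3,4,6,9,5]) (.node 18 19 (.leaf [13,18,20,22,21]) (.leaf [16,17,19])))))), .t 1 (nat_lit 0) (.cn 3 3), .t 1 (nat_lit 0) (.fa 5), .t 5 (nat_lit 0x575056e05680567) (.z (.edon 0 15 (.free 4 [0,1,2,3,4,5,6,7,8,9,10,11,12,13,14])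 (.node 17 19 (.leaf [15,17,20,22,21]) (.leaf [16,18,19])))), .t 5 (nat_lit 0x5660575056e0568) (.z (.edon 0 15 (.free 4 [0,1,2,3,4,5,6,7,8,9,10,11,12,13,14]) (.node 15 19 (.leaf [15,20,22,21,17]) (.leaf [16,18,19])))), .t 1 (nat_lit 0) (.cp 5 3), .t 1 (nat_lit 0) (.fa 4), .t 1 (nat_lit 0) (.cn 4 2), .t 1 (nat_lit 0) (.cn 3 3), .t 1 (nat_lit 0) (.cp 4 3), .t 1 (nat_lit 0) (.fa 3), .t 1 (nat_lit 0) (.cn 7 3), .t 1 (nat_lit 0) (.cp 4 2), .t 5 (nat_lit 0x575056e05680567) (.z (.edon 0 15 (.free 4 [0,1,2,3,4,5,6,7,8,9,10,11,12,13,14]) (.node 15 19 (.leaf [15,17,20,22,21]) (.leaf [16,18,19])))), .t 5 (nat_lit 0x87003a00030001) (.z (.node 8 0 (.edon 4 5 (.leaf [4,6,7]) (.leaf [1,3,5,8,2])) (.free 4 [0,9,10,11,12,13,14,15,16,17,18,19,20,21,22]))), .t 10 (nat_lit 0x5630560055f0088003b0004000105690564)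 (.z (.node 7 16 (.node 0 9 (.node 0 20 (.leaf [0,21,22]) (.leaf [15,18,19,20,17])) (.edon 4 5 (.leaf [4,6,7]) (.leaf [1,3,5,9,2]))) (.free 2 [8,10,11,12,13,14,16]))), .t 10 (nat_lit 0x5630560055f008a003d0006000105690564) (.z (.node 7 16 (.node 0 13 (.node 0 20 (.leaf [0,21,22]) (.leaf [15,18,19,20,17])) (.edon 4 5 (.leaf [4,6,7]) (.leaf [1,3,5,13,2]))) (.free 2 [8,9,10,11,12,14,16]))), .t 1 (nat_lit 0) (.fa 5), .t 10 (nat_lit 0x252025e025d0256025500e300e2027f027e) (.z (.edon 19 10 (.edon 19 21 (.leaf [19,20,22]) (.edon 1 15 (.edon 0 5 (.leaf [1,3,4]) (.leaf [5,7,8,9,6])) (.leaf [0,2,15,17,21]))) (.free 2 [10,11,12,13,14,16,18]))), .t 9 (nat_lit 0x3bf0359035803320331031803170575) (.z (.edon 0 7 (.free 2 [0,1,2,3,4,5,6]) (.edon 10 19 (.free 2 [10,11,12,13,14,16,18]) (.node 17 19 (.leaf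 [17,20,22,21]) (.leaf [7,8,9,19,15]))))), .t 13 (nat_lit 0x3a303b103b003a803a605630560055f03c203c105690564) (.z (.node 0 7 (.node 0 20 (.leaf [0,21,22]) (.node 15 16 (.leaf [15,18,19,20,17]) (.edon 12 13 (.leaf [12,14,16]) (.leaf [8,10,11,13,9])))) (.free 2 [1,2,3,4,5,6,7]))), .t 1 (nat_lit 0) (.cn 3 2), .t 1 (nat_lit 0) (.fa 2), .t 1 (nat_lit 0) (.cp 1 2), .t 10 (nat_lit 0x5630560055f008f00420006000205690564) (.z (.node 7 16 (.node 0 13 (.node 0 20 (.leaf [0,21,22]) (.leaf [15,18,19,20,17])) (.edon 4 6 (.leaf [4,5,7]) (.leaf [1,3,6,13,2]))) (.free 2 [8,9,10,11,12,14,16])))] (by decide +kernel) (by decide +kernel)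
theorem b46 : B 1472 1504 := Blk.of_chk [.t 1 (nat_lit 0) (.cn 3 3), .t 10 (nat_lit 0x4f104ec04e800b800b7050b050904f704f6) (.z (.node 4 12 (.node 2 4 (.edon 15 19 (.leaf [13,14,16,18,15]) (.edon 19 21 (.leaf [19,20,22]) (.leaf [0,2,6,17,21]))) (.leaf [1,3,4])) (.free 2 [5,7,8,9,10,11,12]))), .t 1 (nat_lit 0) (.cp 2 3), .t 5 (nat_lit 0x8c003f00030002) (.z (.node 8 0 (.edon 4 6 (.leaf [4,5,7]) (.leaf [1,3,6,8,2])) (.free 4 [0,9,10,11,12,13,14,15,16,17,18,19,20,21,22]))), .t 10 (nat_lit 0x5630560055f008d00400004000205690564) (.z (.node 7 16 (.node 0 9 (.node 0 20 (.leaf [0,21,22]) (.leaf [15,18,19,20,17])) (.edon 4 6 (.leaf [4,5,7]) (.leaf [1,3,6,9,2]))) (.free 2 [8,10,11,12,13,14,16]))), .t 5 (nat_lit 0x577056e056c056b) (.z (.edon 0 15 (.free 4 [0,1,2,3,4,5,6,7,8,9,10,11,12,13,14]) (.node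 18 19 (.leaf [15,18,20,22,21]) (.leaf [16,17,19])))), .t 15 (nat_lit 0x25204ee04ec04e8025e025d025602550508050604f504f4027f027e) (.z (.node 2 4 (.node 2 17 (.free 2 [0,2,18,19,20,21,22]) (.edon 0 10 (.leaf [5,7,8,9,6]) (.edon 0 13 (.leaf [10,11,12]) (.leaf [13,14,16,17,15])))) (.free 1 [1,3,4]))), .t 15 (nat_lit 0x25204ee04ec04e8025e025d025602550508050604f504f4027f027e) (.z (.node 2 4 (.node 2 15 (.free 2 [0,2,18,19,20,21,22]) (.edon 0 10 (.leaf [5,7,8,9,6]) (.edon 0 13 (.leaf [10,11,12]) (.leaf [13,14,16,17,15])))) (.free 1 [1,3,4]))), .t 1 (nat_lit 0) (.cn 7 3), .t 10 (nat_lit 0x5620561055e008f00420006000205690564) (.z (.node 7 16 (.node 0 13 (.node 0 20 (.leaf [0,21,22]) (.leaf [15,17,19,20,18])) (.edon 4 6 (.leaf [4,5,7]) (.leaf [1,3,6,13,2]))) (.free 2 [8,9,10,11,12,14,16]))), .t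 5 (nat_lit 0x577056e056c056b) (.z (.edon 0 15 (.free 4 [0,1,2,3,4,5,6,7,8,9,10,11,12,13,14]) (.node 15 19 (.leaf [15,18,20,22,21]) (.leaf [16,17,19])))), .t 1 (nat_lit 0) (.fa 6), .t 12 (nat_lit 0x4000577052e052c052b04aa04a9040f040e03fe03fd) (.z (.edon 0 7 (.free 2 [0,1,2,3,4,5,6]) (.node 9 10 (.edon 9 16 (.leaf [9,11,12,14,15]) (.node 18 19 (.leaf [13,18,20,22,21]) (.leaf [16,17,19]))) (.leaf [7,8,10])))), .t 1 (nat_lit 0) (.cn 3 3), .t 10 (nat_lit 0x54e054c0548008f00420006000205550552) (.z (.node 7 16 (.node 0 13 (.node 0 20 (.leaf [0,21,22]) (.leaf [14,17,19,20,18])) (.edon 4 6 (.leaf [4,5,7]) (.leaf [1,3,6,13,2]))) (.free 2 [8,9,10,11,12,15,16]))), .t 4 (nat_lit 0x57405710570) (.z (.node 0 15 (.node 0 20 (.leaf [0,21,22]) (.leaf [16,19,20,18,17])) (.free 4 [1,2,3,4,5,6,7,8,9,10,11,12,13,14,15]))),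 .t 10 (nat_lit 0x12c012a04ab0410040d04070406040003ff) (.z (.node 0 3 (.edon 0 16 (.edon 7 13 (.node 9 10 (.leaf [9,11,12,15,14]) (.leaf [7,8,10])) (.leaf [0,4,5,6,13])) (.free 2 [16,17,18,19,20,21,22])) (.free 1 [1,2,3]))), .t 12 (nat_lit 0x577052e052c052b04ab0410040d04070406040003ff) (.z (.edon 0 7 (.free 2 [0,1,2,3,4,5,6]) (.node 9 10 (.edon 14 16 (.leaf [9,11,12,15,14]) (.node 18 19 (.leaf [13,18,20,22,21]) (.leaf [16,17,19]))) (.leaf [7,8,10])))), .t 12 (nat_lit 0x577052e052c052b04ab0410040d04070406040003ff) (.z (.edon 0 7 (.free 2 [0,1,2,3,4,5,6]) (.node 9 10 (.edon 14 16 (.leaf [9,11,12,15,14]) (.node 13 19 (.leaf [13,18,20,22,21]) (.leaf [16,17,19]))) (.leaf [7,8,10])))), .t 10 (nat_lit 0x54e054c0548008a003d0006000105550552) (.z (.node 7 16 (.node 0 13 (.node 0 20 (.leaf [0,21,22])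 (.leaf [14,17,19,20,18])) (.edon 4 5 (.leaf [4,6,7]) (.leaf [1,3,5,13,2]))) (.free 2 [8,9,10,11,12,15,16]))), .t 15 (nat_lit 0x53202d2055b055a054505440530052f0311031002e502e402cf02ce) (.z (.node 22 4 (.edon 0 14 (.edon 10 13 (.leaf [10,11,12]) (.leaf [6,7,8,9,13])) (.edon 0 19 (.leaf [14,15,16,17,18]) (.leaf [19,20,22]))) (.free 2 [0,1,2,3,4,5,21]))), .t 10 (nat_lit 0x5620561055e008a003d0006000105690564) (.z (.node 7 16 (.node 0 13 (.node 0 20 (.leaf [0,21,22]) (.leaf [15,17,19,20,18])) (.edon 4 5 (.leaf [4,6,7]) (.leaf [1,3,5,13,2]))) (.free 2 [8,9,10,11,12,14,16]))), .t 12 (nat_lit 0x43403d803d703d103d003c403c3008d004000040002) (.z (.node 16 0 (.edon 12 14 (.leaf [12,15,16]) (.node 7 13 (.edon 4 6 (.leaf [4,5,7]) (.leaf [1,3,6,9,2])) (.leaf [8,10,11,14,13]))) (.free 2 [0,17,18,19,20,21,22]))),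 .t 4 (nat_lit 0xff00fe00e9) (.z (.edon 0 8 (.edon 0 3 (.leaf [0,1,2]) (.leaf [3,4,7,6,5])) (.free 4 [8,9,10,11,12,13,14,15,16,17,18,19,20,21,22]))), .t 5 (nat_lit 0x4ab04a803a803a7) (.z (.node 0 7 (.edon 0 16 (.node 10 14 (.leaf [0,8,9,10,13]) (.leaf [11,12,15,14])) (.free 2 [16,17,18,19,20,21,22])) (.free 2 [1,2,3,4,5,6,7]))), .t 1 (nat_lit 0) (.fa 3), .t 1 (nat_lit 0) (.cn 4 2), .t 8 (nat_lit 0x4a304a204a104b404b204aa04a9) (.z (.node 0 7 (.edon 0 11 (.leaf [0,8,9,10]) (.edon 0 16 (.leaf [11,12,14,15,13]) (.free 2 [16,17,18,19,20,21,22]))) (.free 2 [1,2,3,4,5,6,7]))), .t 1 (nat_lit 0) (.cn 8 3), .t 1 (nat_lit 0) (.fa 5), .t 13 (nat_lit 0x3a303b103b003a803a605620561055e03c203c105690564) (.z (.node 0 7 (.node 11 16 (.node 0 13 (.node 0 20 (.leaf [0,21,22]) (.leaf [15,17,19,20,18])) (.leaf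 [8,10,11,13,9])) (.leaf [12,14,16])) (.free 2 [1,2,3,4,5,6,7]))), .t 1 (nat_lit 0) (.fa 5)] (by decide +kernel) (by decide +kernel)
theorem b47 : B 1504 1536 := Blk.of_chk [.t 13 (nat_lit 0x3a303b103b003a803a6054e054c054803c203c105550552) (.z (.node 0 7 (.node 11 16 (.node 0 13 (.node 0 20 (.leaf [0,21,22]) (.leaf [14,17,19,20,18])) (.leaf [8,10,11,13,9])) (.leaf [12,15,16])) (.free 2 [1,2,3,4,5,6,7]))), .t 13 (nat_lit 0x4a104ab04a804a604a304b504b301250104010100f000eb) (.z (.edon 0 16 (.edon 0 3 (.leaf [0,1,2]) (.edon 0 11 (.edon 7 9 (.leaf [7,8,10]) (.leaf [3,4,5,9,6])) (.leaf [11,12,15,14,13]))) (.free 2 [16,17,18,19,20,21,22]))), .t 1 (nat_lit 0) (.cn 1 2), .t 15 (nat_lit 0x252025e025d025602550532027f027e055b055a054505440530052f) (.z (.node 2 4 (.node 2 12 (.node 13 22 (.leaf [0,2,13,21])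 (.edon 0 19 (.leaf [14,15,16,17,18]) (.leaf [19,20,22]))) (.edon 0 10 (.leaf [5,7,8,9,6]) (.leaf [10,11,12]))) (.free 1 [1,3,4]))), .t 12 (nat_lit 0x10f010e00b300b2008e005f005e0041000600050002) (.z (.edon 4 12 (.free 2 [4,5,7,8,9,10,11]) (.node 13 0 (.leaf [1,3,6,12,13,2]) (.free 3 [0,14,15,16,17,18,19,20,21,22])))), .t 15 (nat_lit 0x252025e025d0256025504f0027f027e0530052f0508050704eb04ea) (.z (.node 2 4 (.node 2 12 (.edon 13 19 (.leaf [13,14,15,16,17]) (.free 2 [0,2,18,19,20,21,22])) (.edon 0 10 (.leaf [5,7,8,9,6]) (.leaf [10,11,12]))) (.free 1 [1,3,4]))), .t 1 (nat_lit 0) (.cn 7 3), .t 15 (nat_lit 0x4f002560530052f0508050704eb04ea02cf02ce027f027e02540253) (.z (.node 22 4 (.edon 0 13 (.edon 0 10 (.leaf [5,6,7,8,9]) (.leaf [10,11,12])) (.edon 0 19 (.leaf [13,14,15,16,17]) (.leaf [19,20,22])))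 (.free 2 [0,1,2,3,4,18,21]))), .t 15 (nat_lit 0x25604ee04ec04e802cf02ce027f027e025402530508050604f504f4) (.z (.node 2 4 (.node 2 12 (.edon 15 19 (.leaf [13,14,16,17,15]) (.free 2 [0,2,18,19,20,21,22])) (.edon 0 10 (.leaf [5,6,7,8,9]) (.leaf [10,11,12]))) (.free 1 [1,3,4]))), .t 5 (nat_lit 0x4a204a103ae03ad) (.z (.node 0 7 (.edon 0 16 (.node 10 13 (.leaf [0,8,9,10,15]) (.leaf [11,12,14,13])) (.free 2 [16,17,18,19,20,21,22])) (.free 2 [1,2,3,4,5,6,7]))), .t 13 (nat_lit 0x4a304a204a104b404b204aa04a901250104010100f000eb) (.z (.edon 0 16 (.edon 0 3 (.leaf [0,1,2]) (.edon 0 11 (.edon 7 9 (.leaf [7,8,10]) (.leaf [3,4,5,9,6])) (.leaf [11,12,14,15,13]))) (.free 2 [16,17,18,19,20,21,22]))), .t 1 (nat_lit 0) (.fa 5), .t 13 (nat_lit 0x3a303b103b003a803a6054f054b054903c203c105550552) (.z (.node 0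 7 (.node 11 16 (.node 0 13 (.node 0 20 (.leaf [0,21,22]) (.leaf [14,18,19,20,17])) (.leaf [8,10,11,13,9])) (.leaf [12,15,16])) (.free 2 [1,2,3,4,5,6,7]))), .t 15 (nat_lit 0x252025e025d02560255027f027e055c054605430534053305320531) (.z (.node 2 4 (.node 2 12 (.node 13 22 (.leaf [0,2,13,21]) (.edon 0 19 (.leaf [14,15,16,18,17]) (.leaf [19,20,22]))) (.edon 0 10 (.leaf [5,7,8,9,6]) (.leaf [10,11,12]))) (.free 1 [1,3,4]))), .t 12 (nat_lit 0x3a303b303b203ab03a903c403c3008f004200060002) (.z (.node 16 0 (.edon 12 14 (.leaf [12,15,16]) (.node 7 9 (.edon 4 6 (.leaf [4,5,7]) (.leaf [1,3,6,13,2])) (.leaf [8,10,11,14,9]))) (.free 2 [0,17,18,19,20,21,22]))), .t 10 (nat_lit 0x54f054b0549008a003d0006000105550552) (.z (.node 7 16 (.node 0 13 (.node 0 20 (.leaf [0,21,22]) (.leaf [14,18,19,20,17])) (.edon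 4 5 (.leaf [4,6,7]) (.leaf [1,3,5,13,2]))) (.free 2 [8,9,10,11,12,15,16]))), .t 15 (nat_lit 0x256055c05460543053405330532053102cf02ce027f027e02540253) (.z (.node 22 4 (.edon 0 14 (.edon 0 10 (.leaf [5,6,7,8,9]) (.leaf [10,11,12])) (.edon 0 19 (.leaf [14,15,16,18,17]) (.leaf [19,20,22]))) (.free 2 [0,1,2,3,4,13,21]))), .t 7 (nat_lit 0x8a003d00060001054b054a) (.z (.edon 0 20 (.node 7 16 (.node 0 13 (.leaf [0,14,17,18,19]) (.edon 4 5 (.leaf [4,6,7]) (.leaf [1,3,5,13,2]))) (.free 2 [8,9,10,11,12,15,16])) (.free 1 [20,21,22]))), .t 1 (nat_lit 0) (.cn 8 3), .t 3 (nat_lit 0x15d015c) (.z (.node 0 3 (.node 5 22 (.leaf [0,4,5,17,21]) (.free 4 [6,7,8,9,10,11,12,13,14,15,16,18,19,20,22])) (.free 1 [1,2,3]))), .t 15 (nat_lit 0x25602cf02ce027f027e02540253055c054605430534053305320531) (.z (.node 2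 4 (.node 2 12 (.edon 14 21 (.edon 0 19 (.leaf [14,15,16,18,17]) (.leaf [19,20,22])) (.leaf [0,2,13,21])) (.edon 0 10 (.leaf [5,6,7,8,9]) (.leaf [10,11,12]))) (.free 1 [1,3,4]))), .t 12 (nat_lit 0x575052e0528052704ab04a801240103010200f000eb) (.z (.edon 0 3 (.free 1 [0,1,2]) (.edon 0 11 (.edon 7 9 (.leaf [7,8,10]) (.leaf [3,4,6,9,5])) (.edon 14 16 (.leaf [11,12,15,14]) (.node 17 19 (.leaf [13,17,20,22,21]) (.leaf [16,18,19])))))), .t 10 (nat_lit 0x252025e025d02560255027f027e00d800d7) (.z (.node 2 4 (.node 2 12 (.node 13 22 (.leaf [0,2,13,17,21]) (.free 2 [14,15,16,18,19,20,22])) (.edon 0 10 (.leaf [5,7,8,9,6]) (.leaf [10,11,12]))) (.free 1 [1,3,4]))), .t 12 (nat_lit 0x575052e0528052704ab04a801250104010100f000eb) (.z (.edon 0 3 (.free 1 [0,1,2]) (.edon 0 11 (.edon 7 9 (.leaf [7,8,10]) (.leaf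 [3,4,5,9,6])) (.edon 14 16 (.leaf [11,12,15,14]) (.node 17 19 (.leaf [13,17,20,22,21]) (.leaf [16,18,19])))))), .t 1 (nat_lit 0) (.cn 8 2), .t 15 (nat_lit 0x252025e025d02560255055c051d051a0510050f050b050a027f027e) (.z (.node 22 4 (.edon 0 13 (.edon 0 10 (.leaf [5,7,8,9,6]) (.leaf [10,11,12])) (.edon 0 19 (.leaf [13,15,16,18,17]) (.leaf [19,20,22]))) (.free 2 [0,1,2,3,4,14,21]))), .t 12 (nat_lit 0x57505590554055304a604a301250104010100f000eb) (.z (.edon 0 3 (.free 1 [0,1,2]) (.edon 0 11 (.edon 7 9 (.leaf [7,8,10]) (.leaf [3,4,5,9,6])) (.edon 13 16 (.leaf [11,12,15,13]) (.node 17 19 (.leaf [14,17,20,22,21]) (.leaf [16,18,19])))))), .t 15 (nat_lit 0x252050b025e025d02560255055b055a051c051b05080507027f027e) (.z (.node 22 4 (.edon 0 13 (.edon 0 10 (.leaf [5,7,8,9,6]) (.leaf [10,11,12])) (.edon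 0 19 (.leaf [13,15,16,17,18]) (.leaf [19,20,22]))) (.free 2 [0,1,2,3,4,14,21]))), .t 1 (nat_lit 0) (.cn 8 3), .t 10 (nat_lit 0x252025e025d02560255027f027e00dd00dc) (.z (.node 2 4 (.node 2 12 (.node 14 22 (.leaf [0,2,14,17,21]) (.free 2 [13,15,16,18,19,20,22])) (.edon 0 10 (.leaf [5,7,8,9,6]) (.leaf [10,11,12]))) (.free 1 [1,3,4]))), .t 15 (nat_lit 0x4e9025204f504f304f004ef025e025d0256025505080507027f027e) (.z (.node 22 4 (.edon 0 13 (.edon 0 10 (.leaf [5,7,8,9,6]) (.leaf [10,11,12])) (.edon 0 19 (.leaf [13,15,16,17,14]) (.leaf [19,20,22]))) (.free 2 [0,1,2,3,4,18,21]))), .t 1 (nat_lit 0) (.cn 8 3)] (by decide +kernel) (by decide +kernel)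

end Pool.Agent.GCP.F9_10_12
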