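import Pool.Agent.GCP.F9_10_13Db

set_option autoImplicit false
set_option maxRecDepth 100000

/-! # Blocks F9_10_13B0 (generated) -/

namespace Pool.Agent.GCP.F9_10_13

open Pool.Agent.GCP DB

theorem b0 : B 0 32 := Blk.of_chk [.t 1 (nat_lit 0) (.ax 1 2 3 5 1), .t 1 (nat_lit 0) (.ax 1 2 3 6 1), .t 1 (nat_lit 0) (.ax 1 2 3 8 1), .t 1 (nat_lit 0) (.ax 1 2 3 9 1), .t 1 (nat_lit 0) (.ax 1 2 3 11 1), .t 1 (nat_lit 0) (.ax 1 2 3 12 1), .t 1 (nat_lit 0) (.ax 1 2 3 13 1), .t 1 (nat_lit 0) (.ax 1 2 3 14 1), .t 1 (nat_lit 0) (.ax 1 2 3 16 1), .t 1 (nat_lit 0) (.ax 1 2 4 5 1), .t 1 (nat_lit 0) (.ax 1 2 4 6 1), .t 1 (nat_lit 0) (.ax 1 2 4 8 1), .t 1 (nat_lit 0) (.ax 1 2 4 9 1), .t 1 (nat_lit 0) (.ax 1 2 4 10 1), .t 1 (nat_lit 0) (.ax 1 2 4 11 1), .t 1 (nat_lit 0) (.ax 1 2 4 12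 1), .t 1 (nat_lit 0) (.ax 1 2 4 13 1), .t 1 (nat_lit 0) (.ax 1 2 4 14 1), .t 1 (nat_lit 0) (.ax 1 2 4 15 1), .t 1 (nat_lit 0) (.ax 1 2 4 16 1), .t 1 (nat_lit 0) (.ax 1 2 4 17 1), .t 1 (nat_lit 0) (.ax 1 2 4 18 1), .t 1 (nat_lit 0) (.ax 1 2 4 19 1), .t 1 (nat_lit 0) (.ax 1 2 4 20 1), .t 1 (nat_lit 0) (.ax 1 2 4 21 1), .t 1 (nat_lit 0) (.ax 1 2 4 22 1), .t 1 (nat_lit 0) (.ax 1 2 5 7 1), .t 1 (nat_lit 0) (.ax 1 2 5 10 1), .t 1 (nat_lit 0) (.ax 1 2 6 7 1), .t 1 (nat_lit 0) (.ax 1 2 6 10 1), .t 1 (nat_lit 0) (.ax 1 2 7 9 1), .t 1 (nat_lit 0) (.ax 1 2 7 11 1)] (by decide +kernel) (by decide +kernel)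
theorem b1 : B 32 64 := Blk.of_chk [.t 1 (nat_lit 0) (.ax 1 2 7 14 1), .t 1 (nat_lit 0) (.ax 1 2 7 16 1), .t 1 (nat_lit 0) (.ax 1 2 9 10 1), .t 1 (nat_lit 0) (.ax 1 2 9 11 1), .t 1 (nat_lit 0) (.ax 1 2 9 13 1), .t 1 (nat_lit 0) (.ax 1 2 9 16 1), .t 1 (nat_lit 0) (.ax 1 2 10 19 1), .t 1 (nat_lit 0) (.ax 1 2 12 14 1), .t 1 (nat_lit 0) (.ax 1 2 12 16 1), .t 1 (nat_lit 0) (.ax 1 2 13 14 1), .t 1 (nat_lit 0) (.ax 1 2 14 15 1), .t 1 (nat_lit 0) (.ax 1 3 5 9 0), .t 1 (nat_lit 0) (.ax 1 3 5 11 0), .t 1 (nat_lit 0) (.ax 1 3 5 12 0), .t 1 (nat_lit 0) (.ax 1 3 5 14 0), .t 1 (nat_lit 0) (.ax 1 3 6 8 0), .t 1 (nat_lit 0) (.ax 1 3 6 9 0), .t 1 (nat_lit 0) (.ax 1 3 6 10 0), .t 1 (nat_lit 0) (.ax 1 3 6 11 0), .t 1 (nat_lit 0) (.ax 1 3 6 12 0), .t 1 (nat_lit 0) (.ax 1 3 6 13 0), .t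 1 (nat_lit 0) (.ax 1 3 6 14 0), .t 1 (nat_lit 0) (.ax 1 3 6 16 0), .t 1 (nat_lit 0) (.ax 1 3 6 19 0), .t 1 (nat_lit 0) (.ax 1 3 8 9 0), .t 1 (nat_lit 0) (.ax 1 3 9 10 0), .t 1 (nat_lit 0) (.ax 1 3 9 11 0), .t 1 (nat_lit 0) (.ax 1 3 9 11 2), .t 1 (nat_lit 0) (.ax 1 3 9 12 0), .t 1 (nat_lit 0) (.ax 1 3 9 13 0), .t 1 (nat_lit 0) (.ax 1 3 9 19 0), .t 1 (nat_lit 0) (.ax 1 3 11 14 0)] (by decide +kernel) (by decide +kernel)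
theorem b2 : B 64 96 := Blk.of_chk [.t 1 (nat_lit 0) (.ax 1 3 11 19 0), .t 1 (nat_lit 0) (.ax 1 3 12 13 0), .t 1 (nat_lit 0) (.ax 1 3 12 16 0), .t 1 (nat_lit 0) (.ax 1 3 12 19 0), .t 1 (nat_lit 0) (.ax 1 4 5 8 0), .t 1 (nat_lit 0) (.ax 1 4 5 10 0), .t 1 (nat_lit 0) (.ax 1 4 5 19 0), .t 1 (nat_lit 0) (.ax 1 4 6 19 0), .t 1 (nat_lit 0) (.ax 1 4 7 8 0), .t 1 (nat_lit 0) (.ax 1 4 7 9 0), .t 1 (nat_lit 0) (.ax 1 4 7 11 0), .t 1 (nat_lit 0) (.ax 1 4 7 12 0), .t 1 (nat_lit 0) (.ax 1 4 7 13 0), .t 1 (nat_lit 0) (.ax 1 4 7 14 0), .t 1 (nat_lit 0) (.ax 1 4 7 15 0), .t 1 (nat_lit 0) (.ax 1 4 7 16 0), .t 1 (nat_lit 0) (.ax 1 4 7 17 0), .t 1 (nat_lit 0) (.ax 1 4 7 18 0), .t 1 (nat_lit 0) (.ax 1 4 7 19 0), .t 1 (nat_lit 0) (.ax 1 4 7 20 0), .t 1 (nat_lit 0) (.ax 1 4 7 21 0), .t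 1 (nat_lit 0) (.ax 1 4 7 22 0), .t 1 (nat_lit 0) (.ax 1 4 8 10 0), .t 1 (nat_lit 0) (.ax 1 4 8 13 0), .t 1 (nat_lit 0) (.ax 1 4 9 10 0), .t 1 (nat_lit 0) (.ax 1 4 9 13 0), .t 1 (nat_lit 0) (.ax 1 4 9 16 0), .t 1 (nat_lit 0) (.ax 1 4 9 19 0), .t 1 (nat_lit 0) (.ax 1 4 11 13 0), .t 1 (nat_lit 0) (.ax 1 4 11 19 0), .t 1 (nat_lit 0) (.ax 1 4 12 13 0), .t 1 (nat_lit 0) (.ax 1 4 12 19 0)] (by decide +kernel) (by decide +kernel)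
theorem b3 : B 96 128 := Blk.of_chk [.t 1 (nat_lit 0) (.ax 1 4 14 19 0), .t 1 (nat_lit 0) (.ax 1 4 18 19 0), .t 1 (nat_lit 0) (.ax 1 5 6 7 0), .t 1 (nat_lit 0) (.ax 1 5 6 7 1), .t 1 (nat_lit 0) (.ax 1 5 6 19 0), .t 1 (nat_lit 0) (.ax 1 5 7 8 4), .t 1 (nat_lit 0) (.ax 1 5 7 9 4), .t 1 (nat_lit 0) (.ax 1 5 7 10 4), .t 1 (nat_lit 0) (.ax 1 5 7 13 4), .t 1 (nat_lit 0) (.ax 1 5 7 16 4), .t 1 (nat_lit 0) (.ax 1 5 7 19 4), .t 1 (nat_lit 0) (.ax 1 5 8 10 0), .t 1 (nat_lit 0) (.ax 1 5 8 10 2), .t 1 (nat_lit 0) (.ax 1 5 8 10 4), .t 1 (nat_lit 0) (.ax 1 5 8 13 2), .t 1 (nat_lit 0) (.ax 1 5 8 19 0), .t 1 (nat_lit 0) (.ax 1 5 8 19 2), .t 1 (nat_lit 0) (.ax 1 5 8 19 4), .t 1 (nat_lit 0) (.ax 1 5 9 10 0), .t 1 (nat_lit 0) (.ax 1 5 9 10 1), .t 1 (nat_lit 0) (.ax 1 5 9 10 2), .t 1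 (nat_lit 0) (.ax 1 5 9 10 3), .t 1 (nat_lit 0) (.ax 1 5 9 10 7), .t 1 (nat_lit 0) (.ax 1 5 9 11 0), .t 1 (nat_lit 0) (.ax 1 5 9 16 2), .t 1 (nat_lit 0) (.ax 1 5 9 19 0), .t 1 (nat_lit 0) (.ax 1 5 9 19 1), .t 1 (nat_lit 0) (.ax 1 5 9 19 4), .t 1 (nat_lit 0) (.ax 1 5 9 19 6), .t 1 (nat_lit 0) (.ax 1 5 9 19 7), .t 1 (nat_lit 0) (.ax 1 5 10 11 4), .t 1 (nat_lit 0) (.ax 1 5 10 12 4)] (by decide +kernel) (by decide +kernel)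
theorem b4 : B 128 160 := Blk.of_chk [.t 1 (nat_lit 0) (.ax 1 5 10 13 4), .t 1 (nat_lit 0) (.ax 1 5 10 15 4), .t 1 (nat_lit 0) (.ax 1 5 10 16 4), .t 1 (nat_lit 0) (.ax 1 5 10 19 4), .t 1 (nat_lit 0) (.ax 1 5 11 13 2), .t 1 (nat_lit 0) (.ax 1 5 11 16 1), .t 1 (nat_lit 0) (.ax 1 5 11 16 2), .t 1 (nat_lit 0) (.ax 1 5 11 19 0), .t 1 (nat_lit 0) (.ax 1 5 11 19 7), .t 1 (nat_lit 0) (.ax 1 5 12 13 2), .t 1 (nat_lit 0) (.ax 1 5 12 16 2), .t 1 (nat_lit 0) (.ax 1 5 12 19 0), .t 1 (nat_lit 0) (.ax 1 5 12 19 1), .t 1 (nat_lit 0) (.ax 1 5 14 19 0), .t 1 (nat_lit 0) (.ax 1 5 17 19 0), .t 1 (nat_lit 0) (.ax 1 6 7 8 4), .t 1 (nat_lit 0) (.ax 1 6 7 10 4), .t 1 (nat_lit 0) (.ax 1 6 7 11 4), .t 1 (nat_lit 0) (.ax 1 6 7 16 4), .t 1 (nat_lit 0) (.ax 1 6 7 19 4), .t 1 (nat_lit 0) (.ax 1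 6 8 9 1), .t 1 (nat_lit 0) (.ax 1 6 8 9 4), .t 1 (nat_lit 0) (.ax 1 6 8 10 0), .t 1 (nat_lit 0) (.ax 1 6 8 10 2), .t 1 (nat_lit 0) (.ax 1 6 8 10 3), .t 1 (nat_lit 0) (.ax 1 6 8 12 0), .t 1 (nat_lit 0) (.ax 1 6 8 13 0), .t 1 (nat_lit 0) (.ax 1 6 8 14 0), .t 1 (nat_lit 0) (.ax 1 6 8 19 0), .t 1 (nat_lit 0) (.ax 1 6 8 19 1), .t 1 (nat_lit 0) (.ax 1 6 8 19 2), .t 1 (nat_lit 0) (.ax 1 6 8 19 4)] (by decide +kernel) (by decide +kernel)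
theorem b5 : B 160 192 := Blk.of_chk [.t 1 (nat_lit 0) (.ax 1 6 9 10 0), .t 1 (nat_lit 0) (.ax 1 6 9 10 1), .t 1 (nat_lit 0) (.ax 1 6 9 10 6), .t 1 (nat_lit 0) (.ax 1 6 9 10 7), .t 1 (nat_lit 0) (.ax 1 6 9 11 0), .t 1 (nat_lit 0) (.ax 1 6 9 13 0), .t 1 (nat_lit 0) (.ax 1 6 9 13 2), .t 1 (nat_lit 0) (.ax 1 6 9 15 6), .t 1 (nat_lit 0) (.ax 1 6 9 16 0), .t 1 (nat_lit 0) (.ax 1 6 9 16 6), .t 1 (nat_lit 0) (.ax 1 6 9 19 0), .t 1 (nat_lit 0) (.ax 1 6 9 19 1), .t 1 (nat_lit 0) (.ax 1 6 9 19 2), .t 1 (nat_lit 0) (.ax 1 6 9 19 4), .t 1 (nat_lit 0) (.ax 1 6 9 19 6), .t 1 (nat_lit 0) (.ax 1 6 10 11 4), .t 1 (nat_lit 0) (.ax 1 6 10 12 4), .t 1 (nat_lit 0) (.ax 1 6 10 13 4), .t 1 (nat_lit 0) (.ax 1 6 10 14 4), .t 1 (nat_lit 0) (.ax 1 6 10 15 4), .t 1 (nat_lit 0) (.ax 1 6 10 16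 4), .t 1 (nat_lit 0) (.ax 1 6 10 16 6), .t 1 (nat_lit 0) (.ax 1 6 10 19 4), .t 1 (nat_lit 0) (.ax 1 6 11 16 2), .t 1 (nat_lit 0) (.ax 1 6 11 16 5), .t 1 (nat_lit 0) (.ax 1 6 11 19 0), .t 1 (nat_lit 0) (.ax 1 6 11 19 2), .t 1 (nat_lit 0) (.ax 1 6 11 19 7), .t 1 (nat_lit 0) (.ax 1 6 12 13 0), .t 1 (nat_lit 0) (.ax 1 6 12 13 2), .t 1 (nat_lit 0) (.ax 1 6 12 13 5), .t 1 (nat_lit 0) (.ax 1 6 12 16 2)] (by decide +kernel) (by decide +kernel)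
theorem b6 : B 192 224 := Blk.of_chk [.t 1 (nat_lit 0) (.ax 1 6 12 19 0), .t 1 (nat_lit 0) (.ax 1 6 12 19 7), .t 1 (nat_lit 0) (.ax 1 6 13 14 2), .t 1 (nat_lit 0) (.ax 1 6 13 14 4), .t 1 (nat_lit 0) (.ax 1 6 14 16 2), .t 1 (nat_lit 0) (.ax 1 6 14 19 0), .t 1 (nat_lit 0) (.ax 1 6 16 19 4), .t 1 (nat_lit 0) (.ax 1 7 8 9 0), .t 1 (nat_lit 0) (.ax 1 7 9 11 0), .t 1 (nat_lit 0) (.ax 1 7 9 14 0), .t 1 (nat_lit 0) (.ax 1 7 9 16 0), .t 1 (nat_lit 0) (.ax 1 7 9 19 0), .t 1 (nat_lit 0) (.ax 1 7 10 11 0), .t 1 (nat_lit 0) (.ax 1 7 10 12 0), .t 1 (nat_lit 0) (.ax 1 7 10 14 0), .t 1 (nat_lit 0) (.ax 1 7 10 15 0), .t 1 (nat_lit 0) (.ax 1 7 10 16 0), .t 1 (nat_lit 0) (.ax 1 7 10 17 0), .t 1 (nat_lit 0) (.ax 1 7 10 18 0), .t 1 (nat_lit 0) (.ax 1 7 10 19 0), .t 1 (nat_lit 0) (.ax 1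 7 10 20 0), .t 1 (nat_lit 0) (.ax 1 7 10 21 0), .t 1 (nat_lit 0) (.ax 1 7 10 22 0), .t 1 (nat_lit 0) (.ax 1 7 11 13 0), .t 1 (nat_lit 0) (.ax 1 7 11 16 0), .t 1 (nat_lit 0) (.ax 1 7 11 19 0), .t 1 (nat_lit 0) (.ax 1 7 12 13 0), .t 1 (nat_lit 0) (.ax 1 7 12 14 0), .t 1 (nat_lit 0) (.ax 1 7 12 16 0), .t 1 (nat_lit 0) (.ax 1 7 12 19 0), .t 1 (nat_lit 0) (.ax 1 7 14 15 0), .t 1 (nat_lit 0) (.ax 1 7 14 16 0)] (by decide +kernel) (by decide +kernel)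
theorem b7 : B 224 256 := Blk.of_chk [.t 1 (nat_lit 0) (.ax 1 7 14 19 0), .t 1 (nat_lit 0) (.ax 1 7 15 16 0), .t 1 (nat_lit 0) (.ax 1 8 9 10 1), .t 1 (nat_lit 0) (.ax 1 8 9 12 2), .t 1 (nat_lit 0) (.ax 1 8 9 19 2), .t 1 (nat_lit 0) (.ax 1 8 9 19 6), .t 1 (nat_lit 0) (.ax 1 8 12 13 2), .t 1 (nat_lit 0) (.ax 1 8 12 14 0), .t 1 (nat_lit 0) (.ax 1 8 12 14 2), .t 1 (nat_lit 0) (.ax 1 8 12 19 0), .t 1 (nat_lit 0) (.ax 1 8 12 19 7), .t 1 (nat_lit 0) (.ax 1 8 13 19 4), .t 1 (nat_lit 0) (.ax 1 9 10 13 4), .t 1 (nat_lit 0) (.ax 1 9 10 19 4), .t 1 (nat_lit 0) (.ax 1 9 10 19 6), .t 1 (nat_lit 0) (.ax 1 9 11 12 2), .t 1 (nat_lit 0) (.ax 1 9 11 12 4), .t 1 (nat_lit 0) (.ax 1 9 11 13 2), .t 1 (nat_lit 0) (.ax 1 9 11 14 2), .t 1 (nat_lit 0) (.ax 1 9 11 15 2), .t 1 (nat_lit 0) (.ax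 1 9 11 16 2), .t 1 (nat_lit 0) (.ax 1 9 11 19 0), .t 1 (nat_lit 0) (.ax 1 9 11 19 1), .t 1 (nat_lit 0) (.ax 1 9 11 19 6), .t 1 (nat_lit 0) (.ax 1 9 11 19 7), .t 1 (nat_lit 0) (.ax 1 9 12 13 1), .t 1 (nat_lit 0) (.ax 1 9 12 13 5), .t 1 (nat_lit 0) (.ax 1 9 12 14 2), .t 1 (nat_lit 0) (.ax 1 9 12 15 0), .t 1 (nat_lit 0) (.ax 1 9 12 15 2), .t 1 (nat_lit 0) (.ax 1 9 12 16 0), .t 1 (nat_lit 0) (.ax 1 9 12 16 2)] (by decide +kernel) (by decide +kernel)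
theorem b8 : B 256 288 := Blk.of_chk [.t 1 (nat_lit 0) (.ax 1 9 12 19 6), .t 1 (nat_lit 0) (.ax 1 9 12 19 7), .t 1 (nat_lit 0) (.ax 1 9 13 14 4), .t 1 (nat_lit 0) (.ax 1 9 13 15 4), .t 1 (nat_lit 0) (.ax 1 9 13 16 4), .t 1 (nat_lit 0) (.ax 1 9 13 19 4), .t 1 (nat_lit 0) (.ax 1 9 14 15 2), .t 1 (nat_lit 0) (.ax 1 9 14 16 1), .t 1 (nat_lit 0) (.ax 1 9 14 16 2), .t 1 (nat_lit 0) (.ax 1 9 14 19 1), .t 1 (nat_lit 0) (.ax 1 9 14 19 6), .t 1 (nat_lit 0) (.ax 1 9 14 19 7), .t 1 (nat_lit 0) (.ax 1 9 15 16 2), .t 1 (nat_lit 0) (.ax 1 9 15 19 1), .t 1 (nat_lit 0) (.ax 1 9 16 17 2), .t 1 (nat_lit 0) (.ax 1 9 16 17 4), .t 1 (nat_lit 0) (.ax 1 9 16 19 4), .t 1 (nat_lit 0) (.ax 1 9 17 19 0), .t 1 (nat_lit 0) (.ax 1 9 17 19 1), .t 1 (nat_lit 0) (.ax 1 9 18 19 0), .t 1 (nat_lit 0)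 (.ax 1 9 18 19 1), .t 1 (nat_lit 0) (.ax 1 10 11 12 0), .t 1 (nat_lit 0) (.ax 1 10 11 15 0), .t 1 (nat_lit 0) (.ax 1 10 11 19 0), .t 1 (nat_lit 0) (.ax 1 10 12 14 0), .t 1 (nat_lit 0) (.ax 1 10 12 19 0), .t 1 (nat_lit 0) (.ax 1 10 13 14 0), .t 1 (nat_lit 0) (.ax 1 10 13 15 0), .t 1 (nat_lit 0) (.ax 1 10 13 17 0), .t 1 (nat_lit 0) (.ax 1 10 13 18 0), .t 1 (nat_lit 0) (.ax 1 10 13 19 0), .t 1 (nat_lit 0) (.ax 1 10 13 20 0)] (by decide +kernel) (by decide +kernel)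
theorem b9 : B 288 320 := Blk.of_chk [.t 1 (nat_lit 0) (.ax 1 10 13 21 0), .t 1 (nat_lit 0) (.ax 1 10 13 22 0), .t 1 (nat_lit 0) (.ax 1 10 14 19 0), .t 1 (nat_lit 0) (.ax 1 10 15 16 0), .t 1 (nat_lit 0) (.ax 1 10 18 19 0), .t 1 (nat_lit 0) (.ax 1 11 12 13 1), .t 1 (nat_lit 0) (.ax 1 11 12 14 0), .t 1 (nat_lit 0) (.ax 1 11 12 14 2), .t 1 (nat_lit 0) (.ax 1 11 12 16 0), .t 1 (nat_lit 0) (.ax 1 11 12 16 2), .t 1 (nat_lit 0) (.ax 1 11 12 19 0), .t 1 (nat_lit 0) (.ax 1 11 12 19 7), .t 1 (nat_lit 0) (.ax 1 11 13 14 4), .t 1 (nat_lit 0) (.ax 1 11 13 16 4), .t 1 (nat_lit 0) (.ax 1 11 13 19 4), .t 1 (nat_lit 0) (.ax 1 11 14 15 2), .t 1 (nat_lit 0) (.ax 1 11 14 16 2), .t 1 (nat_lit 0) (.ax 1 11 14 16 6), .t 1 (nat_lit 0) (.ax 1 11 14 17 2), .t 1 (nat_lit 0) (.ax 1 11 14 18 2),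 .t 1 (nat_lit 0) (.ax 1 11 14 19 0), .t 1 (nat_lit 0) (.ax 1 11 14 19 1), .t 1 (nat_lit 0) (.ax 1 11 14 19 6), .t 1 (nat_lit 0) (.ax 1 11 14 19 7), .t 1 (nat_lit 0) (.ax 1 11 15 19 0), .t 1 (nat_lit 0) (.ax 1 11 15 19 1), .t 1 (nat_lit 0) (.ax 1 11 15 19 6), .t 1 (nat_lit 0) (.ax 1 11 16 19 4), .t 1 (nat_lit 0) (.ax 1 11 17 19 0), .t 1 (nat_lit 0) (.ax 1 11 17 19 1), .t 1 (nat_lit 0) (.ax 1 11 18 19 0), .t 1 (nat_lit 0) (.ax 1 11 18 19 1)] (by decide +kernel) (by decide +kernel)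
theorem b10 : B 320 352 := Blk.of_chk [.t 1 (nat_lit 0) (.ax 1 11 18 19 2), .t 1 (nat_lit 0) (.ax 1 11 18 19 7), .t 1 (nat_lit 0) (.ax 1 12 13 14 4), .t 1 (nat_lit 0) (.ax 1 12 13 19 4), .t 1 (nat_lit 0) (.ax 1 12 14 15 2), .t 1 (nat_lit 0) (.ax 1 12 14 16 2), .t 1 (nat_lit 0) (.ax 1 12 14 16 4), .t 1 (nat_lit 0) (.ax 1 12 14 16 6), .t 1 (nat_lit 0) (.ax 1 12 14 17 5), .t 1 (nat_lit 0) (.ax 1 12 14 19 0), .t 1 (nat_lit 0) (.ax 1 12 14 19 1), .t 1 (nat_lit 0) (.ax 1 12 14 19 6), .t 1 (nat_lit 0) (.ax 1 12 15 16 1), .t 1 (nat_lit 0) (.ax 1 12 15 17 3), .t 1 (nat_lit 0) (.ax 1 12 15 18 3), .t 1 (nat_lit 0) (.ax 1 12 15 19 1), .t 1 (nat_lit 0) (.ax 1 12 15 19 4), .t 1 (nat_lit 0) (.ax 1 12 16 17 2), .t 1 (nat_lit 0) (.ax 1 12 16 17 4), .t 1 (nat_lit 0) (.ax 1 12 16 19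 4), .t 1 (nat_lit 0) (.ax 1 12 17 19 0), .t 1 (nat_lit 0) (.ax 1 12 17 19 1), .t 1 (nat_lit 0) (.ax 1 12 17 20 3), .t 1 (nat_lit 0) (.ax 1 12 18 19 0), .t 1 (nat_lit 0) (.ax 1 12 18 19 1), .t 1 (nat_lit 0) (.ax 1 13 16 17 0), .t 1 (nat_lit 0) (.ax 1 13 16 18 0), .t 1 (nat_lit 0) (.ax 1 13 16 20 0), .t 1 (nat_lit 0) (.ax 1 13 16 21 0), .t 1 (nat_lit 0) (.ax 1 13 16 22 0), .t 1 (nat_lit 0) (.ax 1 14 15 16 0), .t 1 (nat_lit 0) (.ax 1 14 15 16 2)] (by decide +kernel) (by decide +kernel)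
theorem b11 : B 352 384 := Blk.of_chk [.t 1 (nat_lit 0) (.ax 1 14 15 16 4), .t 1 (nat_lit 0) (.ax 1 14 15 19 0), .t 1 (nat_lit 0) (.ax 1 14 15 19 4), .t 1 (nat_lit 0) (.ax 1 14 16 19 4), .t 1 (nat_lit 0) (.ax 1 14 17 19 0), .t 1 (nat_lit 0) (.ax 1 14 17 19 1), .t 1 (nat_lit 0) (.ax 1 14 17 19 4), .t 1 (nat_lit 0) (.ax 1 14 17 20 0), .t 1 (nat_lit 0) (.ax 1 14 18 19 0), .t 1 (nat_lit 0) (.ax 1 14 18 19 1), .t 1 (nat_lit 0) (.ax 1 14 18 19 6), .t 1 (nat_lit 0) (.ax 1 14 19 20 4), .t 1 (nat_lit 0) (.ax 1 15 16 17 4), .t 1 (nat_lit 0) (.ax 1 15 16 18 4), .t 1 (nat_lit 0) (.ax 1 15 16 19 4), .t 1 (nat_lit 0) (.ax 1 15 17 19 0), .t 1 (nat_lit 0) (.ax 1 15 17 19 1), .t 1 (nat_lit 0) (.ax 1 15 18 19 1), .t 1 (nat_lit 0) (.ax 1 16 19 21 0), .t 1 (nat_lit 0) (.ax 1 17 18 19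 1), .t 1 (nat_lit 0) (.ax 2 3 5 9 0), .t 1 (nat_lit 0) (.ax 2 3 5 11 0), .t 1 (nat_lit 0) (.ax 2 3 5 12 0), .t 1 (nat_lit 0) (.ax 2 3 5 14 0), .t 1 (nat_lit 0) (.ax 2 3 6 8 0), .t 1 (nat_lit 0) (.ax 2 3 6 9 0), .t 1 (nat_lit 0) (.ax 2 3 6 11 0), .t 1 (nat_lit 0) (.ax 2 3 6 12 0), .t 1 (nat_lit 0) (.ax 2 3 6 14 0), .t 1 (nat_lit 0) (.ax 2 3 9 11 0), .t 1 (nat_lit 0) (.ax 2 3 9 12 0), .t 1 (nat_lit 0) (.ax 2 3 9 14 0)] (by decide +kernel) (by decide +kernel)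
theorem b12 : B 384 416 := Blk.of_chk [.t 1 (nat_lit 0) (.ax 2 3 11 14 0), .t 1 (nat_lit 0) (.ax 2 4 5 8 0), .t 1 (nat_lit 0) (.ax 2 4 5 10 0), .t 1 (nat_lit 0) (.ax 2 4 5 13 0), .t 1 (nat_lit 0) (.ax 2 4 6 13 0), .t 1 (nat_lit 0) (.ax 2 4 8 13 0), .t 1 (nat_lit 0) (.ax 2 4 9 14 0), .t 1 (nat_lit 0) (.ax 2 4 9 16 0), .t 1 (nat_lit 0) (.ax 2 5 6 7 0), .t 1 (nat_lit 0) (.ax 2 5 6 7 1), .t 1 (nat_lit 0) (.ax 2 5 6 7 5), .t 1 (nat_lit 0) (.ax 2 5 6 8 0), .t 1 (nat_lit 0) (.ax 2 5 6 8 1), .t 1 (nat_lit 0) (.ax 2 5 6 8 4), .t 1 (nat_lit 0) (.ax 2 5 7 8 1), .t 1 (nat_lit 0) (.ax 2 5 7 8 2), .t 1 (nat_lit 0) (.ax 2 5 7 8 4), .t 1 (nat_lit 0) (.ax 2 5 8 9 6), .t 1 (nat_lit 0) (.ax 2 5 8 10 0), .t 1 (nat_lit 0) (.ax 2 5 8 10 2), .t 1 (nat_lit 0) (.ax 2 5 8 10 4), .t 1 (nat_lit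 0) (.ax 2 5 8 10 6), .t 1 (nat_lit 0) (.ax 2 5 8 15 2), .t 1 (nat_lit 0) (.ax 2 5 8 15 4), .t 1 (nat_lit 0) (.ax 2 5 8 16 0), .t 1 (nat_lit 0) (.ax 2 5 8 16 2), .t 1 (nat_lit 0) (.ax 2 5 8 16 4), .t 1 (nat_lit 0) (.ax 2 5 9 10 2), .t 1 (nat_lit 0) (.ax 2 5 10 15 4), .t 1 (nat_lit 0) (.ax 2 5 10 16 4), .t 1 (nat_lit 0) (.ax 2 5 11 16 1), .t 1 (nat_lit 0) (.ax 2 5 13 15 4)] (by decide +kernel) (by decide +kernel)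
theorem b13 : B 416 448 := Blk.of_chk [.t 1 (nat_lit 0) (.ax 2 5 13 16 4), .t 1 (nat_lit 0) (.ax 2 6 7 8 1), .t 1 (nat_lit 0) (.ax 2 6 7 8 2), .t 1 (nat_lit 0) (.ax 2 6 7 8 4), .t 1 (nat_lit 0) (.ax 2 6 7 10 4), .t 1 (nat_lit 0) (.ax 2 6 7 16 4), .t 1 (nat_lit 0) (.ax 2 6 8 10 4), .t 1 (nat_lit 0) (.ax 2 6 8 10 6), .t 1 (nat_lit 0) (.ax 2 6 8 14 6), .t 1 (nat_lit 0) (.ax 2 6 8 15 6), .t 1 (nat_lit 0) (.ax 2 6 8 16 6), .t 1 (nat_lit 0) (.ax 2 6 9 10 5), .t 1 (nat_lit 0) (.ax 2 6 9 12 2), .t 1 (nat_lit 0) (.ax 2 6 9 12 4), .t 1 (nat_lit 0) (.ax 2 6 9 14 0), .t 1 (nat_lit 0) (.ax 2 6 9 15 6), .t 1 (nat_lit 0) (.ax 2 6 9 16 6), .t 1 (nat_lit 0) (.ax 2 6 10 11 2), .t 1 (nat_lit 0) (.ax 2 6 10 11 4), .t 1 (nat_lit 0) (.ax 2 6 10 12 4), .t 1 (nat_lit 0) (.ax 2 6 10 13 4),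 .t 1 (nat_lit 0) (.ax 2 6 10 14 4), .t 1 (nat_lit 0) (.ax 2 6 10 15 4), .t 1 (nat_lit 0) (.ax 2 6 10 16 4), .t 1 (nat_lit 0) (.ax 2 6 13 15 4), .t 1 (nat_lit 0) (.ax 2 6 13 16 4), .t 1 (nat_lit 0) (.ax 2 6 14 16 2), .t 1 (nat_lit 0) (.ax 2 7 8 9 0), .t 1 (nat_lit 0) (.ax 2 7 9 14 0), .t 1 (nat_lit 0) (.ax 2 7 14 16 0), .t 1 (nat_lit 0) (.ax 2 8 9 10 1), .t 1 (nat_lit 0) (.ax 2 8 13 14 4)] (by decide +kernel) (by decide +kernel)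
theorem b14 : B 448 480 := Blk.of_chk [.t 1 (nat_lit 0) (.ax 2 8 13 16 4), .t 1 (nat_lit 0) (.ax 2 9 11 12 2), .t 1 (nat_lit 0) (.ax 2 9 11 12 4), .t 1 (nat_lit 0) (.ax 2 9 13 15 4), .t 1 (nat_lit 0) (.ax 2 9 13 16 4), .t 1 (nat_lit 0) (.ax 2 9 14 16 2), .t 1 (nat_lit 0) (.ax 2 9 16 17 2), .t 1 (nat_lit 0) (.ax 2 9 16 17 4), .t 1 (nat_lit 0) (.ax 2 10 11 12 2), .t 1 (nat_lit 0) (.ax 2 10 11 12 4), .t 1 (nat_lit 0) (.ax 2 11 14 16 4), .t 1 (nat_lit 0) (.ax 2 12 14 16 2), .t 1 (nat_lit 0) (.ax 2 12 16 17 2), .t 1 (nat_lit 0) (.ax 2 12 16 17 4), .t 1 (nat_lit 0) (.ax 2 14 15 16 2), .t 1 (nat_lit 0) (.ax 2 14 15 16 4), .t 1 (nat_lit 0) (.ax 3 4 5 6 0), .t 1 (nat_lit 0) (.ax 3 4 5 8 0), .t 1 (nat_lit 0) (.ax 3 4 5 9 0), .t 1 (nat_lit 0) (.ax 3 4 5 11 0), .t 1 (nat_lit 0)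 (.ax 3 4 5 11 2), .t 1 (nat_lit 0) (.ax 3 4 5 12 0), .t 1 (nat_lit 0) (.ax 3 4 5 13 0), .t 1 (nat_lit 0) (.ax 3 4 5 16 0), .t 1 (nat_lit 0) (.ax 3 4 6 8 0), .t 1 (nat_lit 0) (.ax 3 4 6 9 0), .t 1 (nat_lit 0) (.ax 3 4 6 11 0), .t 1 (nat_lit 0) (.ax 3 4 6 12 0), .t 1 (nat_lit 0) (.ax 3 4 6 13 0), .t 1 (nat_lit 0) (.ax 3 4 6 16 0), .t 1 (nat_lit 0) (.ax 3 4 6 19 0), .t 1 (nat_lit 0) (.ax 3 4 7 9 0)] (by decide +kernel) (by decide +kernel)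
theorem b15 : B 480 512 := Blk.of_chk [.t 1 (nat_lit 0) (.ax 3 4 7 11 0), .t 1 (nat_lit 0) (.ax 3 4 7 12 0), .t 1 (nat_lit 0) (.ax 3 4 7 13 0), .t 1 (nat_lit 0) (.ax 3 4 7 14 0), .t 1 (nat_lit 0) (.ax 3 4 7 15 0), .t 1 (nat_lit 0) (.ax 3 4 7 16 0), .t 1 (nat_lit 0) (.ax 3 4 7 17 0), .t 1 (nat_lit 0) (.ax 3 4 7 18 0), .t 1 (nat_lit 0) (.ax 3 4 7 19 0), .t 1 (nat_lit 0) (.ax 3 4 7 20 0), .t 1 (nat_lit 0) (.ax 3 4 7 21 0), .t 1 (nat_lit 0) (.ax 3 4 7 22 0), .t 1 (nat_lit 0) (.ax 3 4 8 13 0), .t 1 (nat_lit 0) (.ax 3 4 9 13 0), .t 1 (nat_lit 0) (.ax 3 4 9 14 0), .t 1 (nat_lit 0) (.ax 3 4 9 16 0), .t 1 (nat_lit 0) (.ax 3 4 11 13 0), .t 1 (nat_lit 0) (.ax 3 4 11 14 0), .t 1 (nat_lit 0) (.ax 3 4 12 13 0), .t 1 (nat_lit 0) (.ax 3 4 12 13 2), .t 1 (nat_lit 0) (.ax 3 4 14 15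 0), .t 1 (nat_lit 0) (.ax 3 5 6 9 0), .t 1 (nat_lit 0) (.ax 3 5 6 9 1), .t 1 (nat_lit 0) (.ax 3 5 6 9 2), .t 1 (nat_lit 0) (.ax 3 5 6 9 4), .t 1 (nat_lit 0) (.ax 3 5 6 9 5), .t 1 (nat_lit 0) (.ax 3 5 6 11 0), .t 1 (nat_lit 0) (.ax 3 5 6 12 0), .t 1 (nat_lit 0) (.ax 3 5 6 12 5), .t 1 (nat_lit 0) (.ax 3 5 8 9 4), .t 1 (nat_lit 0) (.ax 3 5 8 10 2), .t 1 (nat_lit 0) (.ax 3 5 8 10 4)] (by decide +kernel) (by decide +kernel)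
theorem b16 : B 512 544 := Blk.of_chk [.t 1 (nat_lit 0) (.ax 3 5 8 11 4), .t 1 (nat_lit 0) (.ax 3 5 8 12 2), .t 1 (nat_lit 0) (.ax 3 5 8 13 2), .t 1 (nat_lit 0) (.ax 3 5 8 13 4), .t 1 (nat_lit 0) (.ax 3 5 8 16 4), .t 1 (nat_lit 0) (.ax 3 5 9 11 4), .t 1 (nat_lit 0) (.ax 3 5 9 11 6), .t 1 (nat_lit 0) (.ax 3 5 9 12 6), .t 1 (nat_lit 0) (.ax 3 5 9 13 5), .t 1 (nat_lit 0) (.ax 3 5 9 13 6), .t 1 (nat_lit 0) (.ax 3 5 9 16 4), .t 1 (nat_lit 0) (.ax 3 5 9 16 6), .t 1 (nat_lit 0) (.ax 3 5 10 12 4), .t 1 (nat_lit 0) (.ax 3 5 11 13 7), .t 1 (nat_lit 0) (.ax 3 5 11 14 3), .t 1 (nat_lit 0) (.ax 3 5 11 16 1), .t 1 (nat_lit 0) (.ax 3 5 12 13 5), .t 1 (nat_lit 0) (.ax 3 5 13 14 4), .t 1 (nat_lit 0) (.ax 3 5 13 15 4), .t 1 (nat_lit 0) (.ax 3 5 13 16 4), .t 1 (nat_lit 0) (.ax 3 5 14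 16 4), .t 1 (nat_lit 0) (.ax 3 6 8 9 4), .t 1 (nat_lit 0) (.ax 3 6 8 9 6), .t 1 (nat_lit 0) (.ax 3 6 8 10 4), .t 1 (nat_lit 0) (.ax 3 6 8 14 2), .t 1 (nat_lit 0) (.ax 3 6 8 14 4), .t 1 (nat_lit 0) (.ax 3 6 8 16 4), .t 1 (nat_lit 0) (.ax 3 6 8 16 6), .t 1 (nat_lit 0) (.ax 3 6 9 10 3), .t 1 (nat_lit 0) (.ax 3 6 9 10 5), .t 1 (nat_lit 0) (.ax 3 6 9 11 4), .t 1 (nat_lit 0) (.ax 3 6 9 11 6)] (by decide +kernel) (by decide +kernel)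
theorem b17 : B 544 576 := Blk.of_chk [.t 1 (nat_lit 0) (.ax 3 6 9 11 7), .t 1 (nat_lit 0) (.ax 3 6 9 12 4), .t 1 (nat_lit 0) (.ax 3 6 9 12 6), .t 1 (nat_lit 0) (.ax 3 6 9 13 4), .t 1 (nat_lit 0) (.ax 3 6 9 13 5), .t 1 (nat_lit 0) (.ax 3 6 9 13 6), .t 1 (nat_lit 0) (.ax 3 6 9 13 7), .t 1 (nat_lit 0) (.ax 3 6 9 14 6), .t 1 (nat_lit 0) (.ax 3 6 9 16 4), .t 1 (nat_lit 0) (.ax 3 6 9 16 6), .t 1 (nat_lit 0) (.ax 3 6 9 19 4), .t 1 (nat_lit 0) (.ax 3 6 9 19 6), .t 1 (nat_lit 0) (.ax 3 6 9 20 6), .t 1 (nat_lit 0) (.ax 3 6 10 19 4), .t 1 (nat_lit 0) (.ax 3 6 11 16 1), .t 1 (nat_lit 0) (.ax 3 6 11 16 7), .t 1 (nat_lit 0) (.ax 3 6 11 19 7), .t 1 (nat_lit 0) (.ax 3 6 12 13 5), .t 1 (nat_lit 0) (.ax 3 6 12 13 7), .t 1 (nat_lit 0) (.ax 3 6 12 16 7), .t 1 (nat_lit 0) (.ax 3 6 12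 19 7), .t 1 (nat_lit 0) (.ax 3 6 12 20 6), .t 1 (nat_lit 0) (.ax 3 6 13 14 2), .t 1 (nat_lit 0) (.ax 3 6 13 14 4), .t 1 (nat_lit 0) (.ax 3 6 13 15 4), .t 1 (nat_lit 0) (.ax 3 6 13 16 4), .t 1 (nat_lit 0) (.ax 3 6 13 20 4), .t 1 (nat_lit 0) (.ax 3 6 14 15 1), .t 1 (nat_lit 0) (.ax 3 6 14 16 1), .t 1 (nat_lit 0) (.ax 3 6 14 16 4), .t 1 (nat_lit 0) (.ax 3 6 15 16 1), .t 1 (nat_lit 0) (.ax 3 6 15 16 4)] (by decide +kernel) (by decide +kernel)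
theorem b18 : B 576 608 := Blk.of_chk [.t 1 (nat_lit 0) (.ax 3 6 16 19 4), .t 1 (nat_lit 0) (.ax 3 6 20 22 4), .t 1 (nat_lit 0) (.ax 3 6 21 22 5), .t 1 (nat_lit 0) (.ax 3 7 8 9 0), .t 1 (nat_lit 0) (.ax 3 7 8 11 0), .t 1 (nat_lit 0) (.ax 3 7 9 11 0), .t 1 (nat_lit 0) (.ax 3 7 9 11 2), .t 1 (nat_lit 0) (.ax 3 7 9 12 0), .t 1 (nat_lit 0) (.ax 3 7 9 14 0), .t 1 (nat_lit 0) (.ax 3 7 10 14 0), .t 1 (nat_lit 0) (.ax 3 7 10 15 0), .t 1 (nat_lit 0) (.ax 3 7 10 17 0), .t 1 (nat_lit 0) (.ax 3 7 10 18 0), .t 1 (nat_lit 0) (.ax 3 7 10 19 0), .t 1 (nat_lit 0) (.ax 3 7 10 20 0), .t 1 (nat_lit 0) (.ax 3 7 10 21 0), .t 1 (nat_lit 0) (.ax 3 7 10 22 0), .t 1 (nat_lit 0) (.ax 3 7 11 13 0), .t 1 (nat_lit 0) (.ax 3 7 12 20 0), .t 1 (nat_lit 0) (.ax 3 7 14 16 0), .t 1 (nat_lit 0) (.ax 3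 8 9 11 2), .t 1 (nat_lit 0) (.ax 3 8 9 12 0), .t 1 (nat_lit 0) (.ax 3 8 9 12 2), .t 1 (nat_lit 0) (.ax 3 8 9 14 6), .t 1 (nat_lit 0) (.ax 3 8 10 11 2), .t 1 (nat_lit 0) (.ax 3 8 10 11 4), .t 1 (nat_lit 0) (.ax 3 8 11 13 6), .t 1 (nat_lit 0) (.ax 3 8 13 14 4), .t 1 (nat_lit 0) (.ax 3 8 13 16 4), .t 1 (nat_lit 0) (.ax 3 9 11 13 5), .t 1 (nat_lit 0) (.ax 3 9 12 13 5), .t 1 (nat_lit 0) (.ax 3 9 13 14 4)] (by decide +kernel) (by decide +kernel)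
theorem b19 : B 608 640 := Blk.of_chk [.t 1 (nat_lit 0) (.ax 3 9 13 15 4), .t 1 (nat_lit 0) (.ax 3 9 13 16 4), .t 1 (nat_lit 0) (.ax 3 9 13 19 4), .t 1 (nat_lit 0) (.ax 3 9 13 20 4), .t 1 (nat_lit 0) (.ax 3 9 14 16 2), .t 1 (nat_lit 0) (.ax 3 9 14 16 5), .t 1 (nat_lit 0) (.ax 3 9 14 19 4), .t 1 (nat_lit 0) (.ax 3 9 15 16 2), .t 1 (nat_lit 0) (.ax 3 9 15 19 4), .t 1 (nat_lit 0) (.ax 3 9 16 19 4), .t 1 (nat_lit 0) (.ax 3 10 11 12 2), .t 1 (nat_lit 0) (.ax 3 10 11 12 4), .t 1 (nat_lit 0) (.ax 3 10 12 14 0), .t 1 (nat_lit 0) (.ax 3 10 13 14 0), .t 1 (nat_lit 0) (.ax 3 10 13 15 0), .t 1 (nat_lit 0) (.ax 3 10 13 17 0), .t 1 (nat_lit 0) (.ax 3 10 13 18 0), .t 1 (nat_lit 0) (.ax 3 10 13 19 0), .t 1 (nat_lit 0) (.ax 3 10 13 20 0), .t 1 (nat_lit 0) (.ax 3 10 13 21 0), .t 1 (nat_lit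 0) (.ax 3 10 13 22 0), .t 1 (nat_lit 0) (.ax 3 11 13 14 4), .t 1 (nat_lit 0) (.ax 3 11 13 19 4), .t 1 (nat_lit 0) (.ax 3 11 14 16 6), .t 1 (nat_lit 0) (.ax 3 11 14 19 4), .t 1 (nat_lit 0) (.ax 3 11 16 19 4), .t 1 (nat_lit 0) (.ax 3 12 13 19 4), .t 1 (nat_lit 0) (.ax 3 12 14 16 6), .t 1 (nat_lit 0) (.ax 3 12 14 19 4), .t 1 (nat_lit 0) (.ax 3 12 15 19 4), .t 1 (nat_lit 0) (.ax 3 12 16 19 4), .t 1 (nat_lit 0) (.ax 3 14 15 16 2)] (by decide +kernel) (by decide +kernel)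
theorem b20 : B 640 672 := Blk.of_chk [.t 1 (nat_lit 0) (.ax 3 14 15 16 4), .t 1 (nat_lit 0) (.ax 3 20 21 22 5), .t 1 (nat_lit 0) (.ax 4 5 6 7 2), .t 1 (nat_lit 0) (.ax 4 5 6 8 2), .t 1 (nat_lit 0) (.ax 4 5 6 9 0), .t 1 (nat_lit 0) (.ax 4 5 6 9 2), .t 1 (nat_lit 0) (.ax 4 5 6 9 4), .t 1 (nat_lit 0) (.ax 4 5 6 9 5), .t 1 (nat_lit 0) (.ax 4 5 6 10 0), .t 1 (nat_lit 0) (.ax 4 5 6 10 2), .t 1 (nat_lit 0) (.ax 4 5 6 10 4), .t 1 (nat_lit 0) (.ax 4 5 6 10 6), .t 1 (nat_lit 0) (.ax 4 5 6 10 7), .t 1 (nat_lit 0) (.ax 4 5 6 11 1), .t 1 (nat_lit 0) (.ax 4 5 6 11 2), .t 1 (nat_lit 0) (.ax 4 5 6 11 4), .t 1 (nat_lit 0) (.ax 4 5 6 12 2), .t 1 (nat_lit 0) (.ax 4 5 6 12 5), .t 1 (nat_lit 0) (.ax 4 5 6 13 0), .t 1 (nat_lit 0) (.ax 4 5 6 16 1), .t 1 (nat_lit 0) (.ax 4 5 7 8 3), .t 1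 (nat_lit 0) (.ax 4 5 7 9 3), .t 1 (nat_lit 0) (.ax 4 5 7 11 3), .t 1 (nat_lit 0) (.ax 4 5 7 12 3), .t 1 (nat_lit 0) (.ax 4 5 7 13 3), .t 1 (nat_lit 0) (.ax 4 5 7 14 3), .t 1 (nat_lit 0) (.ax 4 5 7 15 3), .t 1 (nat_lit 0) (.ax 4 5 7 16 3), .t 1 (nat_lit 0) (.ax 4 5 7 17 3), .t 1 (nat_lit 0) (.ax 4 5 7 18 3), .t 1 (nat_lit 0) (.ax 4 5 7 19 3), .t 1 (nat_lit 0) (.ax 4 5 7 20 3)] (by decide +kernel) (by decide +kernel)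
theorem b21 : B 672 704 := Blk.of_chk [.t 1 (nat_lit 0) (.ax 4 5 7 21 3), .t 1 (nat_lit 0) (.ax 4 5 7 22 3), .t 1 (nat_lit 0) (.ax 4 5 8 9 4), .t 1 (nat_lit 0) (.ax 4 5 8 10 0), .t 1 (nat_lit 0) (.ax 4 5 8 10 2), .t 1 (nat_lit 0) (.ax 4 5 8 10 4), .t 1 (nat_lit 0) (.ax 4 5 8 10 6), .t 1 (nat_lit 0) (.ax 4 5 8 11 0), .t 1 (nat_lit 0) (.ax 4 5 8 11 2), .t 1 (nat_lit 0) (.ax 4 5 8 12 0), .t 1 (nat_lit 0) (.ax 4 5 8 12 2), .t 1 (nat_lit 0) (.ax 4 5 8 12 4), .t 1 (nat_lit 0) (.ax 4 5 8 13 0), .t 1 (nat_lit 0) (.ax 4 5 8 13 2), .t 1 (nat_lit 0) (.ax 4 5 8 13 4), .t 1 (nat_lit 0) (.ax 4 5 8 14 0), .t 1 (nat_lit 0) (.ax 4 5 8 14 2), .t 1 (nat_lit 0) (.ax 4 5 8 14 4), .t 1 (nat_lit 0) (.ax 4 5 8 15 0), .t 1 (nat_lit 0) (.ax 4 5 8 15 2), .t 1 (nat_lit 0) (.ax 4 5 8 16 0), .t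 1 (nat_lit 0) (.ax 4 5 8 16 2), .t 1 (nat_lit 0) (.ax 4 5 8 16 4), .t 1 (nat_lit 0) (.ax 4 5 8 20 4), .t 1 (nat_lit 0) (.ax 4 5 8 22 0), .t 1 (nat_lit 0) (.ax 4 5 8 22 4), .t 1 (nat_lit 0) (.ax 4 5 9 13 0), .t 1 (nat_lit 0) (.ax 4 5 9 13 1), .t 1 (nat_lit 0) (.ax 4 5 9 13 3), .t 1 (nat_lit 0) (.ax 4 5 9 13 4), .t 1 (nat_lit 0) (.ax 4 5 9 13 6), .t 1 (nat_lit 0) (.ax 4 5 9 13 7)] (by decide +kernel) (by decide +kernel)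
theorem b22 : B 704 736 := Blk.of_chk [.t 1 (nat_lit 0) (.ax 4 5 9 14 3), .t 1 (nat_lit 0) (.ax 4 5 9 15 3), .t 1 (nat_lit 0) (.ax 4 5 9 16 3), .t 1 (nat_lit 0) (.ax 4 5 9 19 4), .t 1 (nat_lit 0) (.ax 4 5 10 11 4), .t 1 (nat_lit 0) (.ax 4 5 10 12 4), .t 1 (nat_lit 0) (.ax 4 5 10 13 4), .t 1 (nat_lit 0) (.ax 4 5 10 14 4), .t 1 (nat_lit 0) (.ax 4 5 10 15 4), .t 1 (nat_lit 0) (.ax 4 5 10 16 4), .t 1 (nat_lit 0) (.ax 4 5 11 13 0), .t 1 (nat_lit 0) (.ax 4 5 11 14 5), .t 1 (nat_lit 0) (.ax 4 5 11 14 7), .t 1 (nat_lit 0) (.ax 4 5 11 15 5), .t 1 (nat_lit 0) (.ax 4 5 11 16 3), .t 1 (nat_lit 0) (.ax 4 5 11 16 5), .t 1 (nat_lit 0) (.ax 4 5 12 13 0), .t 1 (nat_lit 0) (.ax 4 5 12 13 2), .t 1 (nat_lit 0) (.ax 4 5 12 13 6), .t 1 (nat_lit 0) (.ax 4 5 12 13 7), .t 1 (nat_lit 0) (.ax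 4 5 12 19 4), .t 1 (nat_lit 0) (.ax 4 5 13 14 4), .t 1 (nat_lit 0) (.ax 4 5 13 15 4), .t 1 (nat_lit 0) (.ax 4 5 13 16 4), .t 1 (nat_lit 0) (.ax 4 5 13 16 6), .t 1 (nat_lit 0) (.ax 4 5 13 19 4), .t 1 (nat_lit 0) (.ax 4 5 13 22 4), .t 1 (nat_lit 0) (.ax 4 5 14 15 2), .t 1 (nat_lit 0) (.ax 4 6 7 8 3), .t 1 (nat_lit 0) (.ax 4 6 7 9 3), .t 1 (nat_lit 0) (.ax 4 6 7 11 3), .t 1 (nat_lit 0) (.ax 4 6 7 12 3)] (by decide +kernel) (by decide +kernel)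
theorem b23 : B 736 768 := Blk.of_chk [.t 1 (nat_lit 0) (.ax 4 6 7 13 3), .t 1 (nat_lit 0) (.ax 4 6 7 14 3), .t 1 (nat_lit 0) (.ax 4 6 7 15 3), .t 1 (nat_lit 0) (.ax 4 6 7 16 3), .t 1 (nat_lit 0) (.ax 4 6 7 17 3), .t 1 (nat_lit 0) (.ax 4 6 7 18 3), .t 1 (nat_lit 0) (.ax 4 6 7 19 3), .t 1 (nat_lit 0) (.ax 4 6 7 20 3), .t 1 (nat_lit 0) (.ax 4 6 7 21 3), .t 1 (nat_lit 0) (.ax 4 6 7 22 3), .t 1 (nat_lit 0) (.ax 4 6 8 9 4), .t 1 (nat_lit 0) (.ax 4 6 8 9 6), .t 1 (nat_lit 0) (.ax 4 6 8 10 1), .t 1 (nat_lit 0) (.ax 4 6 8 10 2), .t 1 (nat_lit 0) (.ax 4 6 8 10 3), .t 1 (nat_lit 0) (.ax 4 6 8 10 4), .t 1 (nat_lit 0) (.ax 4 6 8 10 6), .t 1 (nat_lit 0) (.ax 4 6 8 11 2), .t 1 (nat_lit 0) (.ax 4 6 8 11 4), .t 1 (nat_lit 0) (.ax 4 6 8 12 2), .t 1 (nat_lit 0) (.ax 4 6 8 12 4), .t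 1 (nat_lit 0) (.ax 4 6 8 13 2), .t 1 (nat_lit 0) (.ax 4 6 8 13 4), .t 1 (nat_lit 0) (.ax 4 6 8 13 6), .t 1 (nat_lit 0) (.ax 4 6 8 14 2), .t 1 (nat_lit 0) (.ax 4 6 8 14 4), .t 1 (nat_lit 0) (.ax 4 6 8 15 2), .t 1 (nat_lit 0) (.ax 4 6 8 15 3), .t 1 (nat_lit 0) (.ax 4 6 8 16 2), .t 1 (nat_lit 0) (.ax 4 6 8 16 3), .t 1 (nat_lit 0) (.ax 4 6 8 16 4), .t 1 (nat_lit 0) (.ax 4 6 8 19 4)] (by decide +kernel) (by decide +kernel)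
theorem b24 : B 768 800 := Blk.of_chk [.t 1 (nat_lit 0) (.ax 4 6 8 22 6), .t 1 (nat_lit 0) (.ax 4 6 9 10 3), .t 1 (nat_lit 0) (.ax 4 6 9 10 4), .t 1 (nat_lit 0) (.ax 4 6 9 10 5), .t 1 (nat_lit 0) (.ax 4 6 9 11 5), .t 1 (nat_lit 0) (.ax 4 6 9 11 6), .t 1 (nat_lit 0) (.ax 4 6 9 12 3), .t 1 (nat_lit 0) (.ax 4 6 9 12 4), .t 1 (nat_lit 0) (.ax 4 6 9 13 0), .t 1 (nat_lit 0) (.ax 4 6 9 13 1), .t 1 (nat_lit 0) (.ax 4 6 9 13 3), .t 1 (nat_lit 0) (.ax 4 6 9 13 6), .t 1 (nat_lit 0) (.ax 4 6 9 13 7), .t 1 (nat_lit 0) (.ax 4 6 9 14 3), .t 1 (nat_lit 0) (.ax 4 6 9 14 6), .t 1 (nat_lit 0) (.ax 4 6 9 15 3), .t 1 (nat_lit 0) (.ax 4 6 9 16 2), .t 1 (nat_lit 0) (.ax 4 6 9 16 3), .t 1 (nat_lit 0) (.ax 4 6 10 12 4), .t 1 (nat_lit 0) (.ax 4 6 10 13 4), .t 1 (nat_lit 0) (.ax 4 6 10 19 4),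 .t 1 (nat_lit 0) (.ax 4 6 11 13 1), .t 1 (nat_lit 0) (.ax 4 6 11 13 5), .t 1 (nat_lit 0) (.ax 4 6 11 13 6), .t 1 (nat_lit 0) (.ax 4 6 11 13 7), .t 1 (nat_lit 0) (.ax 4 6 11 16 0), .t 1 (nat_lit 0) (.ax 4 6 11 16 5), .t 1 (nat_lit 0) (.ax 4 6 12 13 0), .t 1 (nat_lit 0) (.ax 4 6 12 13 1), .t 1 (nat_lit 0) (.ax 4 6 12 13 4), .t 1 (nat_lit 0) (.ax 4 6 12 13 6), .t 1 (nat_lit 0) (.ax 4 6 12 13 7)] (by decide +kernel) (by decide +kernel)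
theorem b25 : B 800 832 := Blk.of_chk [.t 1 (nat_lit 0) (.ax 4 6 12 19 7), .t 1 (nat_lit 0) (.ax 4 6 12 22 2), .t 1 (nat_lit 0) (.ax 4 6 12 22 4), .t 1 (nat_lit 0) (.ax 4 6 13 14 4), .t 1 (nat_lit 0) (.ax 4 6 13 15 4), .t 1 (nat_lit 0) (.ax 4 6 13 16 4), .t 1 (nat_lit 0) (.ax 4 6 13 19 4), .t 1 (nat_lit 0) (.ax 4 6 14 15 1), .t 1 (nat_lit 0) (.ax 4 6 14 15 2), .t 1 (nat_lit 0) (.ax 4 6 14 16 1), .t 1 (nat_lit 0) (.ax 4 6 14 16 4), .t 1 (nat_lit 0) (.ax 4 6 15 16 1), .t 1 (nat_lit 0) (.ax 4 6 15 16 4), .t 1 (nat_lit 0) (.ax 4 6 16 19 4), .t 1 (nat_lit 0) (.ax 4 6 20 22 6), .t 1 (nat_lit 0) (.ax 4 7 8 9 0), .t 1 (nat_lit 0) (.ax 4 7 8 11 0), .t 1 (nat_lit 0) (.ax 4 7 9 11 0), .t 1 (nat_lit 0) (.ax 4 7 9 12 0), .t 1 (nat_lit 0) (.ax 4 7 9 13 0), .t 1 (nat_lit 0) (.ax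 4 7 9 14 0), .t 1 (nat_lit 0) (.ax 4 7 9 16 0), .t 1 (nat_lit 0) (.ax 4 7 9 18 0), .t 1 (nat_lit 0) (.ax 4 7 9 20 0), .t 1 (nat_lit 0) (.ax 4 7 9 22 0), .t 1 (nat_lit 0) (.ax 4 7 10 11 0), .t 1 (nat_lit 0) (.ax 4 7 10 12 0), .t 1 (nat_lit 0) (.ax 4 7 10 14 0), .t 1 (nat_lit 0) (.ax 4 7 10 15 0), .t 1 (nat_lit 0) (.ax 4 7 10 17 0), .t 1 (nat_lit 0) (.ax 4 7 10 18 0), .t 1 (nat_lit 0) (.ax 4 7 10 19 0)] (by decide +kernel) (by decide +kernel)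
theorem b26 : B 832 864 := Blk.of_chk [.t 1 (nat_lit 0) (.ax 4 7 10 20 0), .t 1 (nat_lit 0) (.ax 4 7 10 21 0), .t 1 (nat_lit 0) (.ax 4 7 10 22 0), .t 1 (nat_lit 0) (.ax 4 7 11 13 0), .t 1 (nat_lit 0) (.ax 4 7 12 13 0), .t 1 (nat_lit 0) (.ax 4 7 12 19 0), .t 1 (nat_lit 0) (.ax 4 7 14 16 0), .t 1 (nat_lit 0) (.ax 4 7 15 16 0), .t 1 (nat_lit 0) (.ax 4 8 9 11 2), .t 1 (nat_lit 0) (.ax 4 8 9 12 0), .t 1 (nat_lit 0) (.ax 4 8 9 12 2), .t 1 (nat_lit 0) (.ax 4 8 9 13 2), .t 1 (nat_lit 0) (.ax 4 8 9 13 6), .t 1 (nat_lit 0) (.ax 4 8 10 11 2), .t 1 (nat_lit 0) (.ax 4 8 10 11 4), .t 1 (nat_lit 0) (.ax 4 8 10 12 4), .t 1 (nat_lit 0) (.ax 4 8 10 13 4), .t 1 (nat_lit 0) (.ax 4 8 10 14 4), .t 1 (nat_lit 0) (.ax 4 8 10 15 4), .t 1 (nat_lit 0) (.ax 4 8 10 16 4), .t 1 (nat_lit 0) (.ax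 4 8 11 12 6), .t 1 (nat_lit 0) (.ax 4 8 11 13 0), .t 1 (nat_lit 0) (.ax 4 8 11 13 6), .t 1 (nat_lit 0) (.ax 4 8 11 13 7), .t 1 (nat_lit 0) (.ax 4 8 11 14 6), .t 1 (nat_lit 0) (.ax 4 8 11 15 6), .t 1 (nat_lit 0) (.ax 4 8 11 16 6), .t 1 (nat_lit 0) (.ax 4 8 11 20 6), .t 1 (nat_lit 0) (.ax 4 8 11 22 6), .t 1 (nat_lit 0) (.ax 4 8 12 13 0), .t 1 (nat_lit 0) (.ax 4 8 12 13 1), .t 1 (nat_lit 0) (.ax 4 8 13 14 4)] (by decide +kernel) (by decide +kernel)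
theorem b27 : B 864 896 := Blk.of_chk [.t 1 (nat_lit 0) (.ax 4 8 13 15 4), .t 1 (nat_lit 0) (.ax 4 8 13 16 4), .t 1 (nat_lit 0) (.ax 4 9 11 12 0), .t 1 (nat_lit 0) (.ax 4 9 11 12 4), .t 1 (nat_lit 0) (.ax 4 9 11 12 6), .t 1 (nat_lit 0) (.ax 4 9 11 13 0), .t 1 (nat_lit 0) (.ax 4 9 11 13 1), .t 1 (nat_lit 0) (.ax 4 9 11 13 6), .t 1 (nat_lit 0) (.ax 4 9 11 13 7), .t 1 (nat_lit 0) (.ax 4 9 11 14 3), .t 1 (nat_lit 0) (.ax 4 9 11 15 0), .t 1 (nat_lit 0) (.ax 4 9 11 15 3), .t 1 (nat_lit 0) (.ax 4 9 11 16 4), .t 1 (nat_lit 0) (.ax 4 9 11 16 5), .t 1 (nat_lit 0) (.ax 4 9 11 19 3), .t 1 (nat_lit 0) (.ax 4 9 11 19 4), .t 1 (nat_lit 0) (.ax 4 9 11 20 3), .t 1 (nat_lit 0) (.ax 4 9 12 13 0), .t 1 (nat_lit 0) (.ax 4 9 12 13 1), .t 1 (nat_lit 0) (.ax 4 9 12 13 6), .t 1 (nat_lit 0)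 (.ax 4 9 12 13 7), .t 1 (nat_lit 0) (.ax 4 9 12 14 3), .t 1 (nat_lit 0) (.ax 4 9 12 15 0), .t 1 (nat_lit 0) (.ax 4 9 12 15 2), .t 1 (nat_lit 0) (.ax 4 9 12 16 0), .t 1 (nat_lit 0) (.ax 4 9 12 16 2), .t 1 (nat_lit 0) (.ax 4 9 12 16 6), .t 1 (nat_lit 0) (.ax 4 9 12 17 3), .t 1 (nat_lit 0) (.ax 4 9 12 19 3), .t 1 (nat_lit 0) (.ax 4 9 12 19 6), .t 1 (nat_lit 0) (.ax 4 9 12 20 0), .t 1 (nat_lit 0) (.ax 4 9 12 22 0)] (by decide +kernel) (by decide +kernel)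
theorem b28 : B 896 928 := Blk.of_chk [.t 1 (nat_lit 0) (.ax 4 9 13 14 4), .t 1 (nat_lit 0) (.ax 4 9 13 15 4), .t 1 (nat_lit 0) (.ax 4 9 13 16 4), .t 1 (nat_lit 0) (.ax 4 9 13 19 4), .t 1 (nat_lit 0) (.ax 4 9 13 19 6), .t 1 (nat_lit 0) (.ax 4 9 13 20 4), .t 1 (nat_lit 0) (.ax 4 9 13 22 4), .t 1 (nat_lit 0) (.ax 4 9 14 15 0), .t 1 (nat_lit 0) (.ax 4 9 14 15 1), .t 1 (nat_lit 0) (.ax 4 9 14 15 2), .t 1 (nat_lit 0) (.ax 4 9 14 16 1), .t 1 (nat_lit 0) (.ax 4 9 14 16 2), .t 1 (nat_lit 0) (.ax 4 9 14 16 4), .t 1 (nat_lit 0) (.ax 4 9 14 16 5), .t 1 (nat_lit 0) (.ax 4 9 14 17 2), .t 1 (nat_lit 0) (.ax 4 9 14 20 2), .t 1 (nat_lit 0) (.ax 4 9 14 22 1), .t 1 (nat_lit 0) (.ax 4 9 14 22 2), .t 1 (nat_lit 0) (.ax 4 9 15 16 1), .t 1 (nat_lit 0) (.ax 4 9 15 16 4), .t 1 (nat_lit 0)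 (.ax 4 9 16 17 4), .t 1 (nat_lit 0) (.ax 4 9 16 18 4), .t 1 (nat_lit 0) (.ax 4 9 16 19 4), .t 1 (nat_lit 0) (.ax 4 9 16 20 4), .t 1 (nat_lit 0) (.ax 4 9 16 22 4), .t 1 (nat_lit 0) (.ax 4 9 17 20 2), .t 1 (nat_lit 0) (.ax 4 9 17 22 2), .t 1 (nat_lit 0) (.ax 4 9 18 20 2), .t 1 (nat_lit 0) (.ax 4 9 18 22 2), .t 1 (nat_lit 0) (.ax 4 10 11 12 0), .t 1 (nat_lit 0) (.ax 4 10 11 12 2), .t 1 (nat_lit 0) (.ax 4 10 11 12 4)] (by decide +kernel) (by decide +kernel)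
theorem b29 : B 928 960 := Blk.of_chk [.t 1 (nat_lit 0) (.ax 4 10 11 15 0), .t 1 (nat_lit 0) (.ax 4 10 12 14 0), .t 1 (nat_lit 0) (.ax 4 10 13 14 0), .t 1 (nat_lit 0) (.ax 4 10 13 15 0), .t 1 (nat_lit 0) (.ax 4 10 13 17 0), .t 1 (nat_lit 0) (.ax 4 10 13 18 0), .t 1 (nat_lit 0) (.ax 4 10 13 19 0), .t 1 (nat_lit 0) (.ax 4 10 13 20 0), .t 1 (nat_lit 0) (.ax 4 10 13 21 0), .t 1 (nat_lit 0) (.ax 4 10 13 22 0), .t 1 (nat_lit 0) (.ax 4 10 15 20 0), .t 1 (nat_lit 0) (.ax 4 10 15 22 0), .t 1 (nat_lit 0) (.ax 4 10 17 20 0), .t 1 (nat_lit 0) (.ax 4 10 17 22 0), .t 1 (nat_lit 0) (.ax 4 10 18 19 0), .t 1 (nat_lit 0) (.ax 4 11 12 13 0), .t 1 (nat_lit 0) (.ax 4 11 12 13 1), .t 1 (nat_lit 0) (.ax 4 11 12 13 4), .t 1 (nat_lit 0) (.ax 4 11 12 13 6), .t 1 (nat_lit 0) (.ax 4 11 12 19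 3), .t 1 (nat_lit 0) (.ax 4 11 13 14 4), .t 1 (nat_lit 0) (.ax 4 11 13 15 4), .t 1 (nat_lit 0) (.ax 4 11 13 16 4), .t 1 (nat_lit 0) (.ax 4 11 13 19 4), .t 1 (nat_lit 0) (.ax 4 11 13 20 4), .t 1 (nat_lit 0) (.ax 4 11 13 22 4), .t 1 (nat_lit 0) (.ax 4 11 14 15 1), .t 1 (nat_lit 0) (.ax 4 11 14 15 2), .t 1 (nat_lit 0) (.ax 4 11 14 16 1), .t 1 (nat_lit 0) (.ax 4 11 14 16 4), .t 1 (nat_lit 0) (.ax 4 11 14 19 4), .t 1 (nat_lit 0) (.ax 4 11 14 19 6)] (by decide +kernel) (by decide +kernel)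
theorem b30 : B 960 992 := Blk.of_chk [.t 1 (nat_lit 0) (.ax 4 11 15 16 1), .t 1 (nat_lit 0) (.ax 4 11 15 16 4), .t 1 (nat_lit 0) (.ax 4 11 15 19 4), .t 1 (nat_lit 0) (.ax 4 11 15 22 6), .t 1 (nat_lit 0) (.ax 4 11 16 19 4), .t 1 (nat_lit 0) (.ax 4 12 13 14 4), .t 1 (nat_lit 0) (.ax 4 12 13 16 4), .t 1 (nat_lit 0) (.ax 4 12 13 17 4), .t 1 (nat_lit 0) (.ax 4 12 13 19 4), .t 1 (nat_lit 0) (.ax 4 12 14 15 1), .t 1 (nat_lit 0) (.ax 4 12 14 16 1), .t 1 (nat_lit 0) (.ax 4 12 14 16 2), .t 1 (nat_lit 0) (.ax 4 12 14 16 4), .t 1 (nat_lit 0) (.ax 4 12 14 16 6), .t 1 (nat_lit 0) (.ax 4 12 14 18 0), .t 1 (nat_lit 0) (.ax 4 12 14 19 4), .t 1 (nat_lit 0) (.ax 4 12 14 20 4), .t 1 (nat_lit 0) (.ax 4 12 14 22 0), .t 1 (nat_lit 0) (.ax 4 12 14 22 4), .t 1 (nat_lit 0) (.ax 4 12 15 16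 1), .t 1 (nat_lit 0) (.ax 4 12 15 16 4), .t 1 (nat_lit 0) (.ax 4 12 15 19 4), .t 1 (nat_lit 0) (.ax 4 12 16 19 4), .t 1 (nat_lit 0) (.ax 4 12 18 19 7), .t 1 (nat_lit 0) (.ax 4 12 19 22 4), .t 1 (nat_lit 0) (.ax 4 13 16 20 0), .t 1 (nat_lit 0) (.ax 4 13 16 21 0), .t 1 (nat_lit 0) (.ax 4 13 16 22 0), .t 1 (nat_lit 0) (.ax 4 14 15 16 0), .t 1 (nat_lit 0) (.ax 4 14 15 16 2), .t 1 (nat_lit 0) (.ax 4 14 15 16 4), .t 1 (nat_lit 0) (.ax 4 14 16 17 4)] (by decide +kernel) (by decide +kernel)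
theorem b31 : B 992 1024 := Blk.of_chk [.t 1 (nat_lit 0) (.ax 4 14 16 18 4), .t 1 (nat_lit 0) (.ax 4 14 16 19 4), .t 1 (nat_lit 0) (.ax 4 14 16 20 4), .t 1 (nat_lit 0) (.ax 4 14 16 21 4), .t 1 (nat_lit 0) (.ax 4 14 16 22 4), .t 1 (nat_lit 0) (.ax 4 14 17 20 2), .t 1 (nat_lit 0) (.ax 4 14 17 22 2), .t 1 (nat_lit 0) (.ax 4 14 18 20 2), .t 1 (nat_lit 0) (.ax 4 14 18 22 2), .t 1 (nat_lit 0) (.ax 4 15 16 17 4), .t 1 (nat_lit 0) (.ax 4 15 16 20 4), .t 1 (nat_lit 0) (.ax 4 15 16 22 4), .t 1 (nat_lit 0) (.ax 4 15 17 22 2), .t 1 (nat_lit 0) (.ax 4 16 19 21 0), .t 1 (nat_lit 0) (.ax 4 18 19 20 4), .t 1 (nat_lit 0) (.ax 4 18 19 22 4), .t 1 (nat_lit 0) (.ax 4 19 20 21 0), .t 1 (nat_lit 0) (.ax 5 6 7 8 1), .t 1 (nat_lit 0) (.ax 5 6 7 8 2), .t 1 (nat_lit 0) (.ax 5 6 7 8 4), .t 1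 (nat_lit 0) (.ax 5 6 7 9 1), .t 1 (nat_lit 0) (.ax 5 6 7 9 4), .t 1 (nat_lit 0) (.ax 5 6 7 10 4), .t 1 (nat_lit 0) (.ax 5 6 7 11 1), .t 1 (nat_lit 0) (.ax 5 6 7 11 4), .t 1 (nat_lit 0) (.ax 5 6 7 12 1), .t 1 (nat_lit 0) (.ax 5 6 7 12 4), .t 1 (nat_lit 0) (.ax 5 6 7 14 4), .t 1 (nat_lit 0) (.ax 5 6 7 15 4), .t 1 (nat_lit 0) (.ax 5 6 7 16 4), .t 1 (nat_lit 0) (.ax 5 6 8 9 1), .t 1 (nat_lit 0) (.ax 5 6 8 9 4)] (by decide +kernel) (by decide +kernel)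
theorem b32 : B 1024 1056 := Blk.of_chk [.t 1 (nat_lit 0) (.ax 5 6 8 10 1), .t 1 (nat_lit 0) (.ax 5 6 8 10 3), .t 1 (nat_lit 0) (.ax 5 6 8 11 1), .t 1 (nat_lit 0) (.ax 5 6 8 11 4), .t 1 (nat_lit 0) (.ax 5 6 8 12 1), .t 1 (nat_lit 0) (.ax 5 6 8 12 4), .t 1 (nat_lit 0) (.ax 5 6 8 16 3), .t 1 (nat_lit 0) (.ax 5 6 8 19 4), .t 1 (nat_lit 0) (.ax 5 6 9 10 0), .t 1 (nat_lit 0) (.ax 5 6 9 10 2), .t 1 (nat_lit 0) (.ax 5 6 9 11 5), .t 1 (nat_lit 0) (.ax 5 6 9 11 6), .t 1 (nat_lit 0) (.ax 5 6 9 12 5), .t 1 (nat_lit 0) (.ax 5 6 9 13 4), .t 1 (nat_lit 0) (.ax 5 6 9 14 5), .t 1 (nat_lit 0) (.ax 5 6 9 15 5), .t 1 (nat_lit 0) (.ax 5 6 9 16 1), .t 1 (nat_lit 0) (.ax 5 6 9 16 2), .t 1 (nat_lit 0) (.ax 5 6 9 16 3), .t 1 (nat_lit 0) (.ax 5 6 9 16 5), .t 1 (nat_lit 0) (.ax 5 6 9 16 6),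 .t 1 (nat_lit 0) (.ax 5 6 10 19 4), .t 1 (nat_lit 0) (.ax 5 6 11 13 4), .t 1 (nat_lit 0) (.ax 5 6 11 16 1), .t 1 (nat_lit 0) (.ax 5 6 11 16 2), .t 1 (nat_lit 0) (.ax 5 6 11 16 6), .t 1 (nat_lit 0) (.ax 5 6 12 13 1), .t 1 (nat_lit 0) (.ax 5 6 12 13 2), .t 1 (nat_lit 0) (.ax 5 6 12 13 4), .t 1 (nat_lit 0) (.ax 5 6 12 14 1), .t 1 (nat_lit 0) (.ax 5 6 12 14 4), .t 1 (nat_lit 0) (.ax 5 6 13 14 1)] (by decide +kernel) (by decide +kernel)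
theorem b33 : B 1056 1088 := Blk.of_chk [.t 1 (nat_lit 0) (.ax 5 6 13 14 4), .t 1 (nat_lit 0) (.ax 5 6 14 15 0), .t 1 (nat_lit 0) (.ax 5 6 14 15 1), .t 1 (nat_lit 0) (.ax 5 6 14 15 3), .t 1 (nat_lit 0) (.ax 5 6 14 15 4), .t 1 (nat_lit 0) (.ax 5 6 14 16 2), .t 1 (nat_lit 0) (.ax 5 6 15 16 4), .t 1 (nat_lit 0) (.ax 5 7 8 9 0), .t 1 (nat_lit 0) (.ax 5 7 8 9 2), .t 1 (nat_lit 0) (.ax 5 7 8 9 4), .t 1 (nat_lit 0) (.ax 5 7 8 11 2), .t 1 (nat_lit 0) (.ax 5 7 8 11 4), .t 1 (nat_lit 0) (.ax 5 7 8 12 2), .t 1 (nat_lit 0) (.ax 5 7 8 12 4), .t 1 (nat_lit 0) (.ax 5 7 10 11 0), .t 1 (nat_lit 0) (.ax 5 7 10 12 0), .t 1 (nat_lit 0) (.ax 5 7 10 14 0), .t 1 (nat_lit 0) (.ax 5 7 10 15 0), .t 1 (nat_lit 0) (.ax 5 7 10 16 0), .t 1 (nat_lit 0) (.ax 5 7 10 17 0), .t 1 (nat_lit 0) (.ax 5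 7 10 18 0), .t 1 (nat_lit 0) (.ax 5 7 10 19 0), .t 1 (nat_lit 0) (.ax 5 7 10 20 0), .t 1 (nat_lit 0) (.ax 5 7 10 21 0), .t 1 (nat_lit 0) (.ax 5 7 10 22 0), .t 1 (nat_lit 0) (.ax 5 7 11 13 0), .t 1 (nat_lit 0) (.ax 5 7 12 13 0), .t 1 (nat_lit 0) (.ax 5 7 14 16 0), .t 1 (nat_lit 0) (.ax 5 7 14 16 2), .t 1 (nat_lit 0) (.ax 5 7 15 16 0), .t 1 (nat_lit 0) (.ax 5 8 9 10 0), .t 1 (nat_lit 0) (.ax 5 8 9 10 1)] (by decide +kernel) (by decide +kernel)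
theorem b34 : B 1088 1120 := Blk.of_chk [.t 1 (nat_lit 0) (.ax 5 8 9 10 5), .t 1 (nat_lit 0) (.ax 5 8 9 11 0), .t 1 (nat_lit 0) (.ax 5 8 9 11 2), .t 1 (nat_lit 0) (.ax 5 8 10 11 2), .t 1 (nat_lit 0) (.ax 5 8 10 11 4), .t 1 (nat_lit 0) (.ax 5 8 10 12 4), .t 1 (nat_lit 0) (.ax 5 8 10 13 4), .t 1 (nat_lit 0) (.ax 5 8 10 14 4), .t 1 (nat_lit 0) (.ax 5 8 10 15 4), .t 1 (nat_lit 0) (.ax 5 8 10 16 4), .t 1 (nat_lit 0) (.ax 5 8 10 19 4), .t 1 (nat_lit 0) (.ax 5 8 10 20 4), .t 1 (nat_lit 0) (.ax 5 8 10 22 4), .t 1 (nat_lit 0) (.ax 5 9 10 11 1), .t 1 (nat_lit 0) (.ax 5 9 10 11 4), .t 1 (nat_lit 0) (.ax 5 9 10 13 4), .t 1 (nat_lit 0) (.ax 5 9 11 13 5), .t 1 (nat_lit 0) (.ax 5 9 11 16 1), .t 1 (nat_lit 0) (.ax 5 9 11 16 2), .t 1 (nat_lit 0) (.ax 5 9 13 16 4), .t 1 (nat_lit 0)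 (.ax 5 9 14 15 3), .t 1 (nat_lit 0) (.ax 5 9 14 16 2), .t 1 (nat_lit 0) (.ax 5 9 14 16 4), .t 1 (nat_lit 0) (.ax 5 9 14 16 6), .t 1 (nat_lit 0) (.ax 5 9 15 16 2), .t 1 (nat_lit 0) (.ax 5 9 15 16 4), .t 1 (nat_lit 0) (.ax 5 9 16 19 4), .t 1 (nat_lit 0) (.ax 5 10 11 12 4), .t 1 (nat_lit 0) (.ax 5 10 13 14 0), .t 1 (nat_lit 0) (.ax 5 10 13 15 0), .t 1 (nat_lit 0) (.ax 5 10 13 17 0), .t 1 (nat_lit 0) (.ax 5 10 13 18 0)] (by decide +kernel) (by decide +kernel)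
theorem b35 : B 1120 1152 := Blk.of_chk [.t 1 (nat_lit 0) (.ax 5 10 13 19 0), .t 1 (nat_lit 0) (.ax 5 10 13 20 0), .t 1 (nat_lit 0) (.ax 5 10 13 21 0), .t 1 (nat_lit 0) (.ax 5 10 13 22 0), .t 1 (nat_lit 0) (.ax 5 10 15 16 0), .t 1 (nat_lit 0) (.ax 5 11 13 15 2), .t 1 (nat_lit 0) (.ax 5 11 13 15 4), .t 1 (nat_lit 0) (.ax 5 11 13 16 4), .t 1 (nat_lit 0) (.ax 5 11 13 19 4), .t 1 (nat_lit 0) (.ax 5 11 14 15 0), .t 1 (nat_lit 0) (.ax 5 11 14 15 1), .t 1 (nat_lit 0) (.ax 5 11 14 15 5), .t 1 (nat_lit 0) (.ax 5 11 14 16 4), .t 1 (nat_lit 0) (.ax 5 11 14 19 4), .t 1 (nat_lit 0) (.ax 5 11 15 16 4), .t 1 (nat_lit 0) (.ax 5 11 15 19 4), .t 1 (nat_lit 0) (.ax 5 11 15 19 6), .t 1 (nat_lit 0) (.ax 5 11 16 17 4), .t 1 (nat_lit 0) (.ax 5 11 16 19 4), .t 1 (nat_lit 0) (.ax 5 11 17 19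 2), .t 1 (nat_lit 0) (.ax 5 12 13 14 2), .t 1 (nat_lit 0) (.ax 5 12 13 14 4), .t 1 (nat_lit 0) (.ax 5 12 13 15 2), .t 1 (nat_lit 0) (.ax 5 12 13 15 4), .t 1 (nat_lit 0) (.ax 5 12 13 16 4), .t 1 (nat_lit 0) (.ax 5 12 13 19 4), .t 1 (nat_lit 0) (.ax 5 12 14 15 0), .t 1 (nat_lit 0) (.ax 5 12 14 15 5), .t 1 (nat_lit 0) (.ax 5 12 16 19 4), .t 1 (nat_lit 0) (.ax 5 13 14 15 0), .t 1 (nat_lit 0) (.ax 5 13 14 15 5), .t 1 (nat_lit 0) (.ax 5 13 16 17 0)] (by decide +kernel) (by decide +kernel)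
theorem b36 : B 1152 1184 := Blk.of_chk [.t 1 (nat_lit 0) (.ax 5 13 16 18 0), .t 1 (nat_lit 0) (.ax 5 13 16 20 0), .t 1 (nat_lit 0) (.ax 5 13 16 21 0), .t 1 (nat_lit 0) (.ax 5 13 16 22 0), .t 1 (nat_lit 0) (.ax 5 14 15 16 0), .t 1 (nat_lit 0) (.ax 5 14 16 19 4), .t 1 (nat_lit 0) (.ax 5 15 16 17 4), .t 1 (nat_lit 0) (.ax 5 15 16 18 4), .t 1 (nat_lit 0) (.ax 5 15 16 19 4), .t 1 (nat_lit 0) (.ax 5 15 16 20 4), .t 1 (nat_lit 0) (.ax 5 15 16 21 4), .t 1 (nat_lit 0) (.ax 5 15 16 22 4), .t 1 (nat_lit 0) (.ax 6 7 8 9 0), .t 1 (nat_lit 0) (.ax 6 7 8 9 2), .t 1 (nat_lit 0) (.ax 6 7 8 9 4), .t 1 (nat_lit 0) (.ax 6 7 8 11 2), .t 1 (nat_lit 0) (.ax 6 7 8 11 4), .t 1 (nat_lit 0) (.ax 6 7 8 12 2), .t 1 (nat_lit 0) (.ax 6 7 8 12 4), .t 1 (nat_lit 0) (.ax 6 7 9 12 0), .t 1 (nat_lit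 0) (.ax 6 7 9 16 0), .t 1 (nat_lit 0) (.ax 6 7 10 11 0), .t 1 (nat_lit 0) (.ax 6 7 10 12 0), .t 1 (nat_lit 0) (.ax 6 7 10 14 0), .t 1 (nat_lit 0) (.ax 6 7 10 15 0), .t 1 (nat_lit 0) (.ax 6 7 10 16 0), .t 1 (nat_lit 0) (.ax 6 7 10 17 0), .t 1 (nat_lit 0) (.ax 6 7 10 18 0), .t 1 (nat_lit 0) (.ax 6 7 10 19 0), .t 1 (nat_lit 0) (.ax 6 7 10 20 0), .t 1 (nat_lit 0) (.ax 6 7 10 21 0), .t 1 (nat_lit 0) (.ax 6 7 10 22 0)] (by decide +kernel) (by decide +kernel)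
theorem b37 : B 1184 1216 := Blk.of_chk [.t 1 (nat_lit 0) (.ax 6 7 11 13 0), .t 1 (nat_lit 0) (.ax 6 7 11 16 0), .t 1 (nat_lit 0) (.ax 6 7 11 19 0), .t 1 (nat_lit 0) (.ax 6 7 12 13 0), .t 1 (nat_lit 0) (.ax 6 7 12 16 0), .t 1 (nat_lit 0) (.ax 6 7 14 16 0), .t 1 (nat_lit 0) (.ax 6 7 15 16 0), .t 1 (nat_lit 0) (.ax 6 8 9 10 0), .t 1 (nat_lit 0) (.ax 6 8 9 10 5), .t 1 (nat_lit 0) (.ax 6 8 9 11 0), .t 1 (nat_lit 0) (.ax 6 8 9 12 2), .t 1 (nat_lit 0) (.ax 6 8 9 16 2), .t 1 (nat_lit 0) (.ax 6 8 9 16 6), .t 1 (nat_lit 0) (.ax 6 8 10 11 2), .t 1 (nat_lit 0) (.ax 6 8 10 11 4), .t 1 (nat_lit 0) (.ax 6 8 10 12 4), .t 1 (nat_lit 0) (.ax 6 8 10 13 4), .t 1 (nat_lit 0) (.ax 6 8 10 14 4), .t 1 (nat_lit 0) (.ax 6 8 10 15 4), .t 1 (nat_lit 0) (.ax 6 8 10 16 4), .t 1 (nat_lit 0) (.ax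 6 8 10 19 4), .t 1 (nat_lit 0) (.ax 6 8 11 14 2), .t 1 (nat_lit 0) (.ax 6 8 11 16 7), .t 1 (nat_lit 0) (.ax 6 8 12 14 2), .t 1 (nat_lit 0) (.ax 6 9 10 11 1), .t 1 (nat_lit 0) (.ax 6 9 10 11 4), .t 1 (nat_lit 0) (.ax 6 9 10 16 4), .t 1 (nat_lit 0) (.ax 6 9 11 13 5), .t 1 (nat_lit 0) (.ax 6 9 11 16 0), .t 1 (nat_lit 0) (.ax 6 9 11 16 1), .t 1 (nat_lit 0) (.ax 6 9 11 16 6), .t 1 (nat_lit 0) (.ax 6 9 11 16 7)] (by decide +kernel) (by decide +kernel)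
theorem b38 : B 1216 1248 := Blk.of_chk [.t 1 (nat_lit 0) (.ax 6 9 11 19 3), .t 1 (nat_lit 0) (.ax 6 9 11 19 4), .t 1 (nat_lit 0) (.ax 6 9 11 19 5), .t 1 (nat_lit 0) (.ax 6 9 12 13 1), .t 1 (nat_lit 0) (.ax 6 9 12 13 5), .t 1 (nat_lit 0) (.ax 6 9 12 13 7), .t 1 (nat_lit 0) (.ax 6 9 12 14 1), .t 1 (nat_lit 0) (.ax 6 9 12 14 4), .t 1 (nat_lit 0) (.ax 6 9 12 14 6), .t 1 (nat_lit 0) (.ax 6 9 12 16 6), .t 1 (nat_lit 0) (.ax 6 9 12 18 3), .t 1 (nat_lit 0) (.ax 6 9 12 19 3), .t 1 (nat_lit 0) (.ax 6 9 12 19 6), .t 1 (nat_lit 0) (.ax 6 9 13 14 1), .t 1 (nat_lit 0) (.ax 6 9 13 14 4), .t 1 (nat_lit 0) (.ax 6 9 13 16 4), .t 1 (nat_lit 0) (.ax 6 9 14 15 2), .t 1 (nat_lit 0) (.ax 6 9 14 15 3), .t 1 (nat_lit 0) (.ax 6 9 14 16 0), .t 1 (nat_lit 0) (.ax 6 9 14 16 1), .t 1 (nat_lit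 0) (.ax 6 9 14 16 2), .t 1 (nat_lit 0) (.ax 6 9 14 16 4), .t 1 (nat_lit 0) (.ax 6 9 14 16 6), .t 1 (nat_lit 0) (.ax 6 9 14 16 7), .t 1 (nat_lit 0) (.ax 6 9 14 19 3), .t 1 (nat_lit 0) (.ax 6 9 14 19 4), .t 1 (nat_lit 0) (.ax 6 9 14 20 3), .t 1 (nat_lit 0) (.ax 6 9 15 16 2), .t 1 (nat_lit 0) (.ax 6 9 15 16 4), .t 1 (nat_lit 0) (.ax 6 9 15 16 6), .t 1 (nat_lit 0) (.ax 6 9 15 19 3), .t 1 (nat_lit 0) (.ax 6 9 15 19 4)] (by decide +kernel) (by decide +kernel)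
theorem b39 : B 1248 1280 := Blk.of_chk [.t 1 (nat_lit 0) (.ax 6 9 16 19 4), .t 1 (nat_lit 0) (.ax 6 10 11 12 2), .t 1 (nat_lit 0) (.ax 6 10 11 12 4), .t 1 (nat_lit 0) (.ax 6 10 13 14 0), .t 1 (nat_lit 0) (.ax 6 10 13 15 0), .t 1 (nat_lit 0) (.ax 6 10 13 17 0), .t 1 (nat_lit 0) (.ax 6 10 13 18 0), .t 1 (nat_lit 0) (.ax 6 10 13 19 0), .t 1 (nat_lit 0) (.ax 6 10 13 20 0), .t 1 (nat_lit 0) (.ax 6 10 13 21 0), .t 1 (nat_lit 0) (.ax 6 10 13 22 0), .t 1 (nat_lit 0) (.ax 6 10 15 16 0), .t 1 (nat_lit 0) (.ax 6 11 13 15 2), .t 1 (nat_lit 0) (.ax 6 11 13 15 4), .t 1 (nat_lit 0) (.ax 6 11 13 16 4), .t 1 (nat_lit 0) (.ax 6 11 13 19 4), .t 1 (nat_lit 0) (.ax 6 11 14 15 0), .t 1 (nat_lit 0) (.ax 6 11 14 15 5), .t 1 (nat_lit 0) (.ax 6 11 14 16 0), .t 1 (nat_lit 0) (.ax 6 11 14 16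 1), .t 1 (nat_lit 0) (.ax 6 11 14 16 6), .t 1 (nat_lit 0) (.ax 6 11 14 19 3), .t 1 (nat_lit 0) (.ax 6 11 14 20 3), .t 1 (nat_lit 0) (.ax 6 11 15 16 1), .t 1 (nat_lit 0) (.ax 6 11 15 16 4), .t 1 (nat_lit 0) (.ax 6 11 15 16 6), .t 1 (nat_lit 0) (.ax 6 11 15 19 4), .t 1 (nat_lit 0) (.ax 6 11 16 19 4), .t 1 (nat_lit 0) (.ax 6 12 13 14 2), .t 1 (nat_lit 0) (.ax 6 12 13 14 4), .t 1 (nat_lit 0) (.ax 6 12 13 15 2), .t 1 (nat_lit 0) (.ax 6 12 13 15 4)] (by decide +kernel) (by decide +kernel)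
theorem b40 : B 1280 1312 := Blk.of_chk [.t 1 (nat_lit 0) (.ax 6 12 13 16 4), .t 1 (nat_lit 0) (.ax 6 12 13 18 4), .t 1 (nat_lit 0) (.ax 6 12 13 19 4), .t 1 (nat_lit 0) (.ax 6 12 14 15 0), .t 1 (nat_lit 0) (.ax 6 12 14 15 5), .t 1 (nat_lit 0) (.ax 6 12 16 19 4), .t 1 (nat_lit 0) (.ax 6 12 16 22 4), .t 1 (nat_lit 0) (.ax 6 13 14 15 0), .t 1 (nat_lit 0) (.ax 6 13 14 15 5), .t 1 (nat_lit 0) (.ax 6 13 16 17 0), .t 1 (nat_lit 0) (.ax 6 13 16 18 0), .t 1 (nat_lit 0) (.ax 6 13 16 20 0), .t 1 (nat_lit 0) (.ax 6 13 16 21 0), .t 1 (nat_lit 0) (.ax 6 13 16 22 0), .t 1 (nat_lit 0) (.ax 6 14 15 16 0), .t 1 (nat_lit 0) (.ax 6 14 15 16 4), .t 1 (nat_lit 0) (.ax 6 14 16 19 4), .t 1 (nat_lit 0) (.ax 6 14 16 20 4), .t 1 (nat_lit 0) (.ax 6 15 16 17 4), .t 1 (nat_lit 0) (.ax 6 15 16 18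 4), .t 1 (nat_lit 0) (.ax 6 15 16 19 4), .t 1 (nat_lit 0) (.ax 6 15 16 20 4), .t 1 (nat_lit 0) (.ax 6 15 16 21 4), .t 1 (nat_lit 0) (.ax 6 15 16 22 4), .t 1 (nat_lit 0) (.ax 6 20 21 22 5), .t 1 (nat_lit 0) (.ax 7 8 9 11 0), .t 1 (nat_lit 0) (.ax 7 8 9 11 2), .t 1 (nat_lit 0) (.ax 7 8 9 11 4), .t 1 (nat_lit 0) (.ax 7 8 9 11 6), .t 1 (nat_lit 0) (.ax 7 8 9 12 2), .t 1 (nat_lit 0) (.ax 7 8 9 13 2), .t 1 (nat_lit 0) (.ax 7 8 9 13 6)] (by decide +kernel) (by decide +kernel)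
theorem b41 : B 1312 1344 := Blk.of_chk [.t 1 (nat_lit 0) (.ax 7 8 9 14 2), .t 1 (nat_lit 0) (.ax 7 8 9 14 4), .t 1 (nat_lit 0) (.ax 7 8 9 16 2), .t 1 (nat_lit 0) (.ax 7 8 9 16 6), .t 1 (nat_lit 0) (.ax 7 8 10 11 3), .t 1 (nat_lit 0) (.ax 7 8 10 12 3), .t 1 (nat_lit 0) (.ax 7 8 10 14 3), .t 1 (nat_lit 0) (.ax 7 8 10 15 3), .t 1 (nat_lit 0) (.ax 7 8 10 16 3), .t 1 (nat_lit 0) (.ax 7 8 10 19 3), .t 1 (nat_lit 0) (.ax 7 8 10 20 3), .t 1 (nat_lit 0) (.ax 7 8 10 22 3), .t 1 (nat_lit 0) (.ax 7 8 11 12 1), .t 1 (nat_lit 0) (.ax 7 8 11 12 2), .t 1 (nat_lit 0) (.ax 7 8 11 12 4), .t 1 (nat_lit 0) (.ax 7 8 11 12 6), .t 1 (nat_lit 0) (.ax 7 8 11 13 2), .t 1 (nat_lit 0) (.ax 7 8 11 13 6), .t 1 (nat_lit 0) (.ax 7 8 11 14 2), .t 1 (nat_lit 0) (.ax 7 8 11 14 6), .t 1 (nat_lit 0) (.ax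 7 8 11 16 2), .t 1 (nat_lit 0) (.ax 7 8 11 16 4), .t 1 (nat_lit 0) (.ax 7 8 11 16 6), .t 1 (nat_lit 0) (.ax 7 8 12 13 0), .t 1 (nat_lit 0) (.ax 7 8 12 14 2), .t 1 (nat_lit 0) (.ax 7 8 12 16 6), .t 1 (nat_lit 0) (.ax 7 8 14 16 6), .t 1 (nat_lit 0) (.ax 7 9 10 11 3), .t 1 (nat_lit 0) (.ax 7 9 10 12 3), .t 1 (nat_lit 0) (.ax 7 9 10 14 3), .t 1 (nat_lit 0) (.ax 7 9 10 15 3), .t 1 (nat_lit 0) (.ax 7 9 10 16 3)] (by decide +kernel) (by decide +kernel)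
theorem b42 : B 1344 1376 := Blk.of_chk [.t 1 (nat_lit 0) (.ax 7 9 10 17 3), .t 1 (nat_lit 0) (.ax 7 9 10 18 3), .t 1 (nat_lit 0) (.ax 7 9 10 19 3), .t 1 (nat_lit 0) (.ax 7 9 10 20 3), .t 1 (nat_lit 0) (.ax 7 9 10 21 3), .t 1 (nat_lit 0) (.ax 7 9 10 22 3), .t 1 (nat_lit 0) (.ax 7 9 11 12 4), .t 1 (nat_lit 0) (.ax 7 9 11 13 1), .t 1 (nat_lit 0) (.ax 7 9 11 13 2), .t 1 (nat_lit 0) (.ax 7 9 11 13 4), .t 1 (nat_lit 0) (.ax 7 9 11 13 6), .t 1 (nat_lit 0) (.ax 7 9 11 13 7), .t 1 (nat_lit 0) (.ax 7 9 11 14 4), .t 1 (nat_lit 0) (.ax 7 9 11 16 0), .t 1 (nat_lit 0) (.ax 7 9 11 16 1), .t 1 (nat_lit 0) (.ax 7 9 11 16 2), .t 1 (nat_lit 0) (.ax 7 9 11 16 4), .t 1 (nat_lit 0) (.ax 7 9 11 16 6), .t 1 (nat_lit 0) (.ax 7 9 11 16 7), .t 1 (nat_lit 0) (.ax 7 9 11 19 4), .t 1 (nat_lit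 0) (.ax 7 9 12 13 1), .t 1 (nat_lit 0) (.ax 7 9 12 13 2), .t 1 (nat_lit 0) (.ax 7 9 12 13 4), .t 1 (nat_lit 0) (.ax 7 9 12 13 6), .t 1 (nat_lit 0) (.ax 7 9 12 14 1), .t 1 (nat_lit 0) (.ax 7 9 12 14 6), .t 1 (nat_lit 0) (.ax 7 9 12 14 7), .t 1 (nat_lit 0) (.ax 7 9 12 15 2), .t 1 (nat_lit 0) (.ax 7 9 12 16 0), .t 1 (nat_lit 0) (.ax 7 9 12 16 1), .t 1 (nat_lit 0) (.ax 7 9 12 16 2), .t 1 (nat_lit 0) (.ax 7 9 12 16 6)] (by decide +kernel) (by decide +kernel)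
theorem b43 : B 1376 1408 := Blk.of_chk [.t 1 (nat_lit 0) (.ax 7 9 12 16 7), .t 1 (nat_lit 0) (.ax 7 9 12 17 3), .t 1 (nat_lit 0) (.ax 7 9 12 18 4), .t 1 (nat_lit 0) (.ax 7 9 12 19 3), .t 1 (nat_lit 0) (.ax 7 9 12 20 2), .t 1 (nat_lit 0) (.ax 7 9 12 20 4), .t 1 (nat_lit 0) (.ax 7 9 12 22 4), .t 1 (nat_lit 0) (.ax 7 9 13 14 4), .t 1 (nat_lit 0) (.ax 7 9 13 16 4), .t 1 (nat_lit 0) (.ax 7 9 14 15 2), .t 1 (nat_lit 0) (.ax 7 9 14 16 0), .t 1 (nat_lit 0) (.ax 7 9 14 16 1), .t 1 (nat_lit 0) (.ax 7 9 14 16 2), .t 1 (nat_lit 0) (.ax 7 9 14 16 3), .t 1 (nat_lit 0) (.ax 7 9 14 16 4), .t 1 (nat_lit 0) (.ax 7 9 14 16 5), .t 1 (nat_lit 0) (.ax 7 9 14 16 6), .t 1 (nat_lit 0) (.ax 7 9 14 16 7), .t 1 (nat_lit 0) (.ax 7 9 14 19 3), .t 1 (nat_lit 0) (.ax 7 9 14 19 4), .t 1 (nat_lit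 0) (.ax 7 9 14 20 3), .t 1 (nat_lit 0) (.ax 7 9 14 22 4), .t 1 (nat_lit 0) (.ax 7 9 15 16 0), .t 1 (nat_lit 0) (.ax 7 9 15 16 1), .t 1 (nat_lit 0) (.ax 7 9 15 16 6), .t 1 (nat_lit 0) (.ax 7 9 15 19 3), .t 1 (nat_lit 0) (.ax 7 9 16 19 4), .t 1 (nat_lit 0) (.ax 7 10 11 12 0), .t 1 (nat_lit 0) (.ax 7 10 11 19 0), .t 1 (nat_lit 0) (.ax 7 10 12 14 0), .t 1 (nat_lit 0) (.ax 7 10 12 19 0), .t 1 (nat_lit 0) (.ax 7 10 13 14 0)] (by decide +kernel) (by decide +kernel)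
theorem b44 : B 1408 1440 := Blk.of_chk [.t 1 (nat_lit 0) (.ax 7 10 13 17 0), .t 1 (nat_lit 0) (.ax 7 10 13 18 0), .t 1 (nat_lit 0) (.ax 7 10 13 20 0), .t 1 (nat_lit 0) (.ax 7 10 13 21 0), .t 1 (nat_lit 0) (.ax 7 10 13 22 0), .t 1 (nat_lit 0) (.ax 7 10 14 16 0), .t 1 (nat_lit 0) (.ax 7 10 15 16 0), .t 1 (nat_lit 0) (.ax 7 11 12 13 0), .t 1 (nat_lit 0) (.ax 7 11 12 13 1), .t 1 (nat_lit 0) (.ax 7 11 12 13 4), .t 1 (nat_lit 0) (.ax 7 11 12 13 5), .t 1 (nat_lit 0) (.ax 7 11 12 14 0), .t 1 (nat_lit 0) (.ax 7 11 12 14 2), .t 1 (nat_lit 0) (.ax 7 11 12 16 0), .t 1 (nat_lit 0) (.ax 7 11 12 16 4), .t 1 (nat_lit 0) (.ax 7 11 13 14 4), .t 1 (nat_lit 0) (.ax 7 11 13 16 4), .t 1 (nat_lit 0) (.ax 7 11 13 19 4), .t 1 (nat_lit 0) (.ax 7 11 14 15 2), .t 1 (nat_lit 0) (.ax 7 11 14 16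 0), .t 1 (nat_lit 0) (.ax 7 11 14 16 1), .t 1 (nat_lit 0) (.ax 7 11 14 16 2), .t 1 (nat_lit 0) (.ax 7 11 14 16 7), .t 1 (nat_lit 0) (.ax 7 11 14 19 5), .t 1 (nat_lit 0) (.ax 7 11 15 16 0), .t 1 (nat_lit 0) (.ax 7 11 15 16 1), .t 1 (nat_lit 0) (.ax 7 11 16 19 4), .t 1 (nat_lit 0) (.ax 7 11 16 19 6), .t 1 (nat_lit 0) (.ax 7 12 13 16 4), .t 1 (nat_lit 0) (.ax 7 12 13 19 4), .t 1 (nat_lit 0) (.ax 7 12 14 15 0), .t 1 (nat_lit 0) (.ax 7 12 14 15 2)] (by decide +kernel) (by decide +kernel)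
theorem b45 : B 1440 1472 := Blk.of_chk [.t 1 (nat_lit 0) (.ax 7 12 14 15 7), .t 1 (nat_lit 0) (.ax 7 12 14 16 0), .t 1 (nat_lit 0) (.ax 7 12 14 16 1), .t 1 (nat_lit 0) (.ax 7 12 14 16 2), .t 1 (nat_lit 0) (.ax 7 12 14 16 4), .t 1 (nat_lit 0) (.ax 7 12 14 16 6), .t 1 (nat_lit 0) (.ax 7 12 14 16 7), .t 1 (nat_lit 0) (.ax 7 12 14 18 3), .t 1 (nat_lit 0) (.ax 7 12 14 19 3), .t 1 (nat_lit 0) (.ax 7 12 14 19 5), .t 1 (nat_lit 0) (.ax 7 12 14 20 3), .t 1 (nat_lit 0) (.ax 7 12 15 16 0), .t 1 (nat_lit 0) (.ax 7 12 15 16 1), .t 1 (nat_lit 0) (.ax 7 12 15 16 4), .t 1 (nat_lit 0) (.ax 7 12 15 16 6), .t 1 (nat_lit 0) (.ax 7 12 15 17 3), .t 1 (nat_lit 0) (.ax 7 12 15 19 3), .t 1 (nat_lit 0) (.ax 7 12 15 19 4), .t 1 (nat_lit 0) (.ax 7 12 16 17 4), .t 1 (nat_lit 0) (.ax 7 12 16 19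 4), .t 1 (nat_lit 0) (.ax 7 12 17 18 2), .t 1 (nat_lit 0) (.ax 7 13 16 17 0), .t 1 (nat_lit 0) (.ax 7 13 16 18 0), .t 1 (nat_lit 0) (.ax 7 13 16 20 0), .t 1 (nat_lit 0) (.ax 7 13 16 21 0), .t 1 (nat_lit 0) (.ax 7 13 16 22 0), .t 1 (nat_lit 0) (.ax 7 14 15 16 0), .t 1 (nat_lit 0) (.ax 7 14 15 16 4), .t 1 (nat_lit 0) (.ax 7 14 15 16 6), .t 1 (nat_lit 0) (.ax 7 14 16 18 4), .t 1 (nat_lit 0) (.ax 7 14 16 19 4), .t 1 (nat_lit 0) (.ax 7 14 16 20 4)] (by decide +kernel) (by decide +kernel)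
theorem b46 : B 1472 1504 := Blk.of_chk [.t 1 (nat_lit 0) (.ax 7 14 17 18 3), .t 1 (nat_lit 0) (.ax 7 14 17 19 4), .t 1 (nat_lit 0) (.ax 7 15 16 17 4), .t 1 (nat_lit 0) (.ax 7 15 16 19 4), .t 1 (nat_lit 0) (.ax 8 9 10 11 1), .t 1 (nat_lit 0) (.ax 8 9 10 11 2), .t 1 (nat_lit 0) (.ax 8 9 10 11 4), .t 1 (nat_lit 0) (.ax 8 9 10 12 1), .t 1 (nat_lit 0) (.ax 8 9 10 12 4), .t 1 (nat_lit 0) (.ax 8 9 10 14 1), .t 1 (nat_lit 0) (.ax 8 9 10 14 4), .t 1 (nat_lit 0) (.ax 8 9 11 12 1), .t 1 (nat_lit 0) (.ax 8 9 11 12 3), .t 1 (nat_lit 0) (.ax 8 9 11 12 4), .t 1 (nat_lit 0) (.ax 8 9 11 12 5), .t 1 (nat_lit 0) (.ax 8 9 11 12 6), .t 1 (nat_lit 0) (.ax 8 9 11 13 6), .t 1 (nat_lit 0) (.ax 8 9 11 14 1), .t 1 (nat_lit 0) (.ax 8 9 11 14 4), .t 1 (nat_lit 0) (.ax 8 9 11 16 2), .t 1 (nat_lit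 0) (.ax 8 9 12 13 4), .t 1 (nat_lit 0) (.ax 8 9 12 13 6), .t 1 (nat_lit 0) (.ax 8 9 12 14 1), .t 1 (nat_lit 0) (.ax 8 9 12 14 3), .t 1 (nat_lit 0) (.ax 8 9 12 14 4), .t 1 (nat_lit 0) (.ax 8 9 12 14 6), .t 1 (nat_lit 0) (.ax 8 9 12 16 4), .t 1 (nat_lit 0) (.ax 8 9 14 16 4), .t 1 (nat_lit 0) (.ax 8 9 14 19 4), .t 1 (nat_lit 0) (.ax 8 10 11 12 0), .t 1 (nat_lit 0) (.ax 8 10 11 12 2), .t 1 (nat_lit 0) (.ax 8 10 11 12 4)] (by decide +kernel) (by decide +kernel)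
theorem b47 : B 1504 1536 := Blk.of_chk [.t 1 (nat_lit 0) (.ax 8 10 11 12 5), .t 1 (nat_lit 0) (.ax 8 10 11 14 0), .t 1 (nat_lit 0) (.ax 8 10 11 14 2), .t 1 (nat_lit 0) (.ax 8 10 11 14 4), .t 1 (nat_lit 0) (.ax 8 10 12 14 0), .t 1 (nat_lit 0) (.ax 8 10 12 14 2), .t 1 (nat_lit 0) (.ax 8 10 12 14 4), .t 1 (nat_lit 0) (.ax 8 10 12 14 5), .t 1 (nat_lit 0) (.ax 8 10 13 14 0), .t 1 (nat_lit 0) (.ax 8 10 13 15 0), .t 1 (nat_lit 0) (.ax 8 10 13 19 0), .t 1 (nat_lit 0) (.ax 8 11 12 13 4), .t 1 (nat_lit 0) (.ax 8 11 12 14 0), .t 1 (nat_lit 0) (.ax 8 11 12 14 1), .t 1 (nat_lit 0) (.ax 8 11 12 14 2), .t 1 (nat_lit 0) (.ax 8 11 12 14 4), .t 1 (nat_lit 0) (.ax 8 11 12 14 5), .t 1 (nat_lit 0) (.ax 8 11 12 16 4), .t 1 (nat_lit 0) (.ax 8 11 13 16 4), .t 1 (nat_lit 0) (.ax 8 11 14 15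 4), .t 1 (nat_lit 0) (.ax 8 11 14 16 4), .t 1 (nat_lit 0) (.ax 8 11 15 16 4), .t 1 (nat_lit 0) (.ax 8 12 14 19 4), .t 1 (nat_lit 0) (.ax 9 10 11 12 0), .t 1 (nat_lit 0) (.ax 9 10 11 12 2), .t 1 (nat_lit 0) (.ax 9 10 11 12 4), .t 1 (nat_lit 0) (.ax 9 10 11 15 0), .t 1 (nat_lit 0) (.ax 9 10 11 19 0), .t 1 (nat_lit 0) (.ax 9 10 12 14 0), .t 1 (nat_lit 0) (.ax 9 10 13 14 0), .t 1 (nat_lit 0) (.ax 9 10 13 15 0), .t 1 (nat_lit 0) (.ax 9 10 13 17 0)] (by decide +kernel) (by decide +kernel)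
theorem b48 : B 1536 1568 := Blk.of_chk [.t 1 (nat_lit 0) (.ax 9 10 13 18 0), .t 1 (nat_lit 0) (.ax 9 10 13 19 0), .t 1 (nat_lit 0) (.ax 9 10 13 20 0), .t 1 (nat_lit 0) (.ax 9 10 13 21 0), .t 1 (nat_lit 0) (.ax 9 10 13 22 0), .t 1 (nat_lit 0) (.ax 9 10 14 15 0), .t 1 (nat_lit 0) (.ax 9 10 15 16 0), .t 1 (nat_lit 0) (.ax 9 10 17 20 0), .t 1 (nat_lit 0) (.ax 9 10 18 19 0), .t 1 (nat_lit 0) (.ax 9 11 12 13 0), .t 1 (nat_lit 0) (.ax 9 11 12 13 1), .t 1 (nat_lit 0) (.ax 9 11 12 13 4), .t 1 (nat_lit 0) (.ax 9 11 12 13 5), .t 1 (nat_lit 0) (.ax 9 11 12 14 2), .t 1 (nat_lit 0) (.ax 9 11 12 15 0), .t 1 (nat_lit 0) (.ax 9 11 12 15 1), .t 1 (nat_lit 0) (.ax 9 11 12 15 4), .t 1 (nat_lit 0) (.ax 9 11 12 19 0), .t 1 (nat_lit 0) (.ax 9 11 13 14 4), .t 1 (nat_lit 0) (.ax 9 11 13 15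 1), .t 1 (nat_lit 0) (.ax 9 11 13 15 2), .t 1 (nat_lit 0) (.ax 9 11 13 15 4), .t 1 (nat_lit 0) (.ax 9 11 13 16 4), .t 1 (nat_lit 0) (.ax 9 11 13 19 4), .t 1 (nat_lit 0) (.ax 9 11 13 20 4), .t 1 (nat_lit 0) (.ax 9 11 14 15 0), .t 1 (nat_lit 0) (.ax 9 11 14 15 1), .t 1 (nat_lit 0) (.ax 9 11 14 15 3), .t 1 (nat_lit 0) (.ax 9 11 14 15 5), .t 1 (nat_lit 0) (.ax 9 11 14 16 0), .t 1 (nat_lit 0) (.ax 9 11 14 18 2), .t 1 (nat_lit 0) (.ax 9 11 14 19 0)] (by decide +kernel) (by decide +kernel)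
theorem b49 : B 1568 1600 := Blk.of_chk [.t 1 (nat_lit 0) (.ax 9 11 14 19 1), .t 1 (nat_lit 0) (.ax 9 11 14 19 2), .t 1 (nat_lit 0) (.ax 9 11 14 19 4), .t 1 (nat_lit 0) (.ax 9 11 14 19 6), .t 1 (nat_lit 0) (.ax 9 11 14 20 0), .t 1 (nat_lit 0) (.ax 9 11 15 16 4), .t 1 (nat_lit 0) (.ax 9 11 15 16 6), .t 1 (nat_lit 0) (.ax 9 11 15 19 2), .t 1 (nat_lit 0) (.ax 9 11 15 19 4), .t 1 (nat_lit 0) (.ax 9 11 15 19 6), .t 1 (nat_lit 0) (.ax 9 11 16 19 4), .t 1 (nat_lit 0) (.ax 9 11 17 20 0), .t 1 (nat_lit 0) (.ax 9 11 18 20 0), .t 1 (nat_lit 0) (.ax 9 11 19 20 4), .t 1 (nat_lit 0) (.ax 9 12 13 14 4), .t 1 (nat_lit 0) (.ax 9 12 13 15 1), .t 1 (nat_lit 0) (.ax 9 12 13 15 2), .t 1 (nat_lit 0) (.ax 9 12 13 15 4), .t 1 (nat_lit 0) (.ax 9 12 13 16 4), .t 1 (nat_lit 0) (.ax 9 12 13 19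 4), .t 1 (nat_lit 0) (.ax 9 12 14 15 0), .t 1 (nat_lit 0) (.ax 9 12 14 15 1), .t 1 (nat_lit 0) (.ax 9 12 14 15 2), .t 1 (nat_lit 0) (.ax 9 12 14 15 3), .t 1 (nat_lit 0) (.ax 9 12 14 15 5), .t 1 (nat_lit 0) (.ax 9 12 14 16 0), .t 1 (nat_lit 0) (.ax 9 12 14 16 1), .t 1 (nat_lit 0) (.ax 9 12 14 16 2), .t 1 (nat_lit 0) (.ax 9 12 14 16 3), .t 1 (nat_lit 0) (.ax 9 12 14 19 0), .t 1 (nat_lit 0) (.ax 9 12 14 19 2), .t 1 (nat_lit 0) (.ax 9 12 14 19 6)] (by decide +kernel) (by decide +kernel)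
theorem b50 : B 1600 1632 := Blk.of_chk [.t 1 (nat_lit 0) (.ax 9 12 14 20 7), .t 1 (nat_lit 0) (.ax 9 12 14 22 7), .t 1 (nat_lit 0) (.ax 9 12 15 16 3), .t 1 (nat_lit 0) (.ax 9 12 15 19 4), .t 1 (nat_lit 0) (.ax 9 12 16 19 4), .t 1 (nat_lit 0) (.ax 9 12 16 19 6), .t 1 (nat_lit 0) (.ax 9 12 17 20 0), .t 1 (nat_lit 0) (.ax 9 12 17 20 2), .t 1 (nat_lit 0) (.ax 9 12 18 19 0), .t 1 (nat_lit 0) (.ax 9 12 18 19 2), .t 1 (nat_lit 0) (.ax 9 12 18 19 7), .t 1 (nat_lit 0) (.ax 9 12 18 20 0), .t 1 (nat_lit 0) (.ax 9 12 18 22 0), .t 1 (nat_lit 0) (.ax 9 12 19 20 4), .t 1 (nat_lit 0) (.ax 9 12 19 20 6), .t 1 (nat_lit 0) (.ax 9 12 19 22 4), .t 1 (nat_lit 0) (.ax 9 13 14 15 0), .t 1 (nat_lit 0) (.ax 9 13 14 15 5), .t 1 (nat_lit 0) (.ax 9 13 16 17 0), .t 1 (nat_lit 0) (.ax 9 13 16 18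 0), .t 1 (nat_lit 0) (.ax 9 13 16 20 0), .t 1 (nat_lit 0) (.ax 9 13 16 21 0), .t 1 (nat_lit 0) (.ax 9 13 16 22 0), .t 1 (nat_lit 0) (.ax 9 14 15 16 0), .t 1 (nat_lit 0) (.ax 9 14 15 16 1), .t 1 (nat_lit 0) (.ax 9 14 15 16 2), .t 1 (nat_lit 0) (.ax 9 14 15 16 4), .t 1 (nat_lit 0) (.ax 9 14 15 16 6), .t 1 (nat_lit 0) (.ax 9 14 15 17 0), .t 1 (nat_lit 0) (.ax 9 14 15 17 3), .t 1 (nat_lit 0) (.ax 9 14 15 18 3), .t 1 (nat_lit 0) (.ax 9 14 15 19 0)] (by decide +kernel) (by decide +kernel)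
theorem b51 : B 1632 1664 := Blk.of_chk [.t 1 (nat_lit 0) (.ax 9 14 15 19 3), .t 1 (nat_lit 0) (.ax 9 14 15 20 3), .t 1 (nat_lit 0) (.ax 9 14 15 21 3), .t 1 (nat_lit 0) (.ax 9 14 15 22 3), .t 1 (nat_lit 0) (.ax 9 14 16 17 4), .t 1 (nat_lit 0) (.ax 9 14 16 18 4), .t 1 (nat_lit 0) (.ax 9 14 16 19 4), .t 1 (nat_lit 0) (.ax 9 14 16 20 4), .t 1 (nat_lit 0) (.ax 9 14 16 22 4), .t 1 (nat_lit 0) (.ax 9 14 17 19 0), .t 1 (nat_lit 0) (.ax 9 14 17 19 2), .t 1 (nat_lit 0) (.ax 9 14 17 20 0), .t 1 (nat_lit 0) (.ax 9 14 17 20 2), .t 1 (nat_lit 0) (.ax 9 14 18 20 0), .t 1 (nat_lit 0) (.ax 9 14 18 20 2), .t 1 (nat_lit 0) (.ax 9 15 16 17 4), .t 1 (nat_lit 0) (.ax 9 15 16 18 4), .t 1 (nat_lit 0) (.ax 9 15 16 19 4), .t 1 (nat_lit 0) (.ax 9 15 16 20 4), .t 1 (nat_lit 0) (.ax 9 15 16 21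 4), .t 1 (nat_lit 0) (.ax 9 15 16 22 4), .t 1 (nat_lit 0) (.ax 9 15 17 19 0), .t 1 (nat_lit 0) (.ax 9 15 17 19 2), .t 1 (nat_lit 0) (.ax 9 15 17 20 0), .t 1 (nat_lit 0) (.ax 9 15 18 19 2), .t 1 (nat_lit 0) (.ax 9 16 19 21 0), .t 1 (nat_lit 0) (.ax 9 17 19 20 4), .t 1 (nat_lit 0) (.ax 9 17 20 22 4), .t 1 (nat_lit 0) (.ax 9 17 21 22 5), .t 1 (nat_lit 0) (.ax 9 18 19 20 4), .t 1 (nat_lit 0) (.ax 9 18 20 22 4), .t 1 (nat_lit 0) (.ax 9 18 21 22 5)] (by decide +kernel) (by decide +kernel)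
theorem b52 : B 1664 1696 := Blk.of_chk [.t 1 (nat_lit 0) (.ax 9 20 21 22 5), .t 1 (nat_lit 0) (.ax 10 11 12 13 2), .t 1 (nat_lit 0) (.ax 10 11 12 14 2), .t 1 (nat_lit 0) (.ax 10 11 12 14 4), .t 1 (nat_lit 0) (.ax 10 11 12 14 5), .t 1 (nat_lit 0) (.ax 10 11 12 15 0), .t 1 (nat_lit 0) (.ax 10 11 12 16 0), .t 1 (nat_lit 0) (.ax 10 11 12 16 7), .t 1 (nat_lit 0) (.ax 10 11 12 19 2), .t 1 (nat_lit 0) (.ax 10 11 12 19 4), .t 1 (nat_lit 0) (.ax 10 11 13 14 3), .t 1 (nat_lit 0) (.ax 10 11 13 15 3), .t 1 (nat_lit 0) (.ax 10 11 13 17 3), .t 1 (nat_lit 0) (.ax 10 11 13 18 3), .t 1 (nat_lit 0) (.ax 10 11 13 19 3), .t 1 (nat_lit 0) (.ax 10 11 13 20 3), .t 1 (nat_lit 0) (.ax 10 11 13 21 3), .t 1 (nat_lit 0) (.ax 10 11 13 22 3), .t 1 (nat_lit 0) (.ax 10 11 14 15 0), .t 1 (nat_lit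 0) (.ax 10 11 14 15 2), .t 1 (nat_lit 0) (.ax 10 11 14 15 5), .t 1 (nat_lit 0) (.ax 10 11 14 15 7), .t 1 (nat_lit 0) (.ax 10 11 14 16 2), .t 1 (nat_lit 0) (.ax 10 11 14 16 4), .t 1 (nat_lit 0) (.ax 10 11 14 18 2), .t 1 (nat_lit 0) (.ax 10 11 14 19 0), .t 1 (nat_lit 0) (.ax 10 11 14 19 1), .t 1 (nat_lit 0) (.ax 10 11 14 19 7), .t 1 (nat_lit 0) (.ax 10 11 15 16 1), .t 1 (nat_lit 0) (.ax 10 11 15 16 2), .t 1 (nat_lit 0) (.ax 10 11 15 16 3), .t 1 (nat_lit 0) (.ax 10 11 15 16 4)] (by decide +kernel) (by decide +kernel)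
theorem b53 : B 1696 1728 := Blk.of_chk [.t 1 (nat_lit 0) (.ax 10 11 15 16 6), .t 1 (nat_lit 0) (.ax 10 11 15 19 0), .t 1 (nat_lit 0) (.ax 10 11 15 19 3), .t 1 (nat_lit 0) (.ax 10 11 15 19 6), .t 1 (nat_lit 0) (.ax 10 11 17 18 2), .t 1 (nat_lit 0) (.ax 10 11 17 19 1), .t 1 (nat_lit 0) (.ax 10 11 17 19 7), .t 1 (nat_lit 0) (.ax 10 12 13 14 3), .t 1 (nat_lit 0) (.ax 10 12 13 15 3), .t 1 (nat_lit 0) (.ax 10 12 13 17 3), .t 1 (nat_lit 0) (.ax 10 12 13 18 3), .t 1 (nat_lit 0) (.ax 10 12 13 19 3), .t 1 (nat_lit 0) (.ax 10 12 13 20 3), .t 1 (nat_lit 0) (.ax 10 12 13 21 3), .t 1 (nat_lit 0) (.ax 10 12 13 22 3), .t 1 (nat_lit 0) (.ax 10 12 14 15 2), .t 1 (nat_lit 0) (.ax 10 12 14 15 4), .t 1 (nat_lit 0) (.ax 10 12 14 16 2), .t 1 (nat_lit 0) (.ax 10 12 14 16 4), .t 1 (nat_lit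 0) (.ax 10 12 14 17 2), .t 1 (nat_lit 0) (.ax 10 12 14 18 2), .t 1 (nat_lit 0) (.ax 10 12 14 19 0), .t 1 (nat_lit 0) (.ax 10 12 14 19 2), .t 1 (nat_lit 0) (.ax 10 12 14 19 4), .t 1 (nat_lit 0) (.ax 10 12 14 19 7), .t 1 (nat_lit 0) (.ax 10 12 15 16 0), .t 1 (nat_lit 0) (.ax 10 12 15 16 1), .t 1 (nat_lit 0) (.ax 10 12 15 16 2), .t 1 (nat_lit 0) (.ax 10 12 15 16 6), .t 1 (nat_lit 0) (.ax 10 12 15 19 3), .t 1 (nat_lit 0) (.ax 10 12 17 19 0), .t 1 (nat_lit 0) (.ax 10 12 18 19 0)] (by decide +kernel) (by decide +kernel)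
theorem b54 : B 1728 1760 := Blk.of_chk [.t 1 (nat_lit 0) (.ax 10 13 16 21 0), .t 1 (nat_lit 0) (.ax 10 14 15 16 1), .t 1 (nat_lit 0) (.ax 10 14 15 16 2), .t 1 (nat_lit 0) (.ax 10 14 15 16 4), .t 1 (nat_lit 0) (.ax 10 14 15 17 1), .t 1 (nat_lit 0) (.ax 10 14 15 18 1), .t 1 (nat_lit 0) (.ax 10 14 15 19 1), .t 1 (nat_lit 0) (.ax 10 14 15 20 4), .t 1 (nat_lit 0) (.ax 10 14 16 19 4), .t 1 (nat_lit 0) (.ax 10 14 16 20 4), .t 1 (nat_lit 0) (.ax 10 14 17 19 4), .t 1 (nat_lit 0) (.ax 10 14 17 20 0), .t 1 (nat_lit 0) (.ax 10 14 18 19 0), .t 1 (nat_lit 0) (.ax 10 14 18 19 4), .t 1 (nat_lit 0) (.ax 10 14 18 20 4), .t 1 (nat_lit 0) (.ax 10 14 19 20 4), .t 1 (nat_lit 0) (.ax 10 15 16 17 4), .t 1 (nat_lit 0) (.ax 10 15 16 18 4), .t 1 (nat_lit 0) (.ax 10 15 16 19 4), .t 1 (nat_lit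 0) (.ax 10 15 16 20 4), .t 1 (nat_lit 0) (.ax 10 15 16 22 4), .t 1 (nat_lit 0) (.ax 10 15 17 19 2), .t 1 (nat_lit 0) (.ax 10 15 17 20 2), .t 1 (nat_lit 0) (.ax 10 15 17 22 2), .t 1 (nat_lit 0) (.ax 10 15 18 19 1), .t 1 (nat_lit 0) (.ax 10 16 19 21 0), .t 1 (nat_lit 0) (.ax 10 17 18 19 4), .t 1 (nat_lit 0) (.ax 10 17 19 20 4), .t 1 (nat_lit 0) (.ax 11 12 13 14 1), .t 1 (nat_lit 0) (.ax 11 12 13 14 2), .t 1 (nat_lit 0) (.ax 11 12 13 14 4), .t 1 (nat_lit 0) (.ax 11 12 13 15 1)] (by decide +kernel) (by decide +kernel)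
theorem b55 : B 1760 1792 := Blk.of_chk [.t 1 (nat_lit 0) (.ax 11 12 13 15 2), .t 1 (nat_lit 0) (.ax 11 12 13 15 4), .t 1 (nat_lit 0) (.ax 11 12 13 16 4), .t 1 (nat_lit 0) (.ax 11 12 13 17 4), .t 1 (nat_lit 0) (.ax 11 12 13 18 4), .t 1 (nat_lit 0) (.ax 11 12 13 19 4), .t 1 (nat_lit 0) (.ax 11 12 14 15 0), .t 1 (nat_lit 0) (.ax 11 12 14 15 3), .t 1 (nat_lit 0) (.ax 11 12 14 15 5), .t 1 (nat_lit 0) (.ax 11 12 14 15 7), .t 1 (nat_lit 0) (.ax 11 12 14 16 0), .t 1 (nat_lit 0) (.ax 11 12 14 16 2), .t 1 (nat_lit 0) (.ax 11 12 14 19 4), .t 1 (nat_lit 0) (.ax 11 12 15 16 4), .t 1 (nat_lit 0) (.ax 11 12 15 19 0), .t 1 (nat_lit 0) (.ax 11 12 15 19 4), .t 1 (nat_lit 0) (.ax 11 12 15 19 7), .t 1 (nat_lit 0) (.ax 11 12 16 19 4), .t 1 (nat_lit 0) (.ax 11 12 17 20 2), .t 1 (nat_lit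 0) (.ax 11 12 18 19 0), .t 1 (nat_lit 0) (.ax 11 12 18 19 2), .t 1 (nat_lit 0) (.ax 11 13 14 15 0), .t 1 (nat_lit 0) (.ax 11 13 14 15 2), .t 1 (nat_lit 0) (.ax 11 13 14 15 4), .t 1 (nat_lit 0) (.ax 11 13 14 15 5), .t 1 (nat_lit 0) (.ax 11 13 16 17 0), .t 1 (nat_lit 0) (.ax 11 13 16 18 0), .t 1 (nat_lit 0) (.ax 11 13 16 20 0), .t 1 (nat_lit 0) (.ax 11 13 16 21 0), .t 1 (nat_lit 0) (.ax 11 13 16 22 0), .t 1 (nat_lit 0) (.ax 11 14 15 16 0), .t 1 (nat_lit 0) (.ax 11 14 15 16 1)] (by decide +kernel) (by decide +kernel)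
theorem b56 : B 1792 1824 := Blk.of_chk [.t 1 (nat_lit 0) (.ax 11 14 15 16 2), .t 1 (nat_lit 0) (.ax 11 14 15 16 4), .t 1 (nat_lit 0) (.ax 11 14 15 17 1), .t 1 (nat_lit 0) (.ax 11 14 15 17 4), .t 1 (nat_lit 0) (.ax 11 14 15 18 1), .t 1 (nat_lit 0) (.ax 11 14 15 18 4), .t 1 (nat_lit 0) (.ax 11 14 15 19 2), .t 1 (nat_lit 0) (.ax 11 14 15 19 4), .t 1 (nat_lit 0) (.ax 11 14 15 20 4), .t 1 (nat_lit 0) (.ax 11 14 16 17 1), .t 1 (nat_lit 0) (.ax 11 14 16 17 4), .t 1 (nat_lit 0) (.ax 11 14 16 18 1), .t 1 (nat_lit 0) (.ax 11 14 16 18 4), .t 1 (nat_lit 0) (.ax 11 14 16 19 4), .t 1 (nat_lit 0) (.ax 11 14 16 20 4), .t 1 (nat_lit 0) (.ax 11 14 17 18 1), .t 1 (nat_lit 0) (.ax 11 14 17 18 2), .t 1 (nat_lit 0) (.ax 11 14 17 18 3), .t 1 (nat_lit 0) (.ax 11 14 17 18 4), .t 1 (nat_lit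 0) (.ax 11 14 17 19 0), .t 1 (nat_lit 0) (.ax 11 14 17 19 4), .t 1 (nat_lit 0) (.ax 11 14 17 20 0), .t 1 (nat_lit 0) (.ax 11 14 17 20 2), .t 1 (nat_lit 0) (.ax 11 14 17 20 4), .t 1 (nat_lit 0) (.ax 11 14 18 19 0), .t 1 (nat_lit 0) (.ax 11 14 18 19 2), .t 1 (nat_lit 0) (.ax 11 14 18 19 4), .t 1 (nat_lit 0) (.ax 11 14 18 20 0), .t 1 (nat_lit 0) (.ax 11 14 18 20 2), .t 1 (nat_lit 0) (.ax 11 14 18 20 4), .t 1 (nat_lit 0) (.ax 11 15 16 17 2), .t 1 (nat_lit 0) (.ax 11 15 16 17 4)] (by decide +kernel) (by decide +kernel)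
theorem b57 : B 1824 1856 := Blk.of_chk [.t 1 (nat_lit 0) (.ax 11 15 16 18 2), .t 1 (nat_lit 0) (.ax 11 15 16 18 4), .t 1 (nat_lit 0) (.ax 11 15 16 19 4), .t 1 (nat_lit 0) (.ax 11 15 17 18 0), .t 1 (nat_lit 0) (.ax 11 15 17 18 5), .t 1 (nat_lit 0) (.ax 11 15 17 19 0), .t 1 (nat_lit 0) (.ax 11 15 17 19 2), .t 1 (nat_lit 0) (.ax 11 16 17 18 0), .t 1 (nat_lit 0) (.ax 11 16 17 18 2), .t 1 (nat_lit 0) (.ax 11 16 17 18 4), .t 1 (nat_lit 0) (.ax 11 16 17 18 5), .t 1 (nat_lit 0) (.ax 11 16 19 21 0), .t 1 (nat_lit 0) (.ax 11 17 18 19 4), .t 1 (nat_lit 0) (.ax 11 17 19 20 4), .t 1 (nat_lit 0) (.ax 11 17 20 22 4), .t 1 (nat_lit 0) (.ax 11 17 21 22 5), .t 1 (nat_lit 0) (.ax 11 18 19 20 4), .t 1 (nat_lit 0) (.ax 11 18 20 22 4), .t 1 (nat_lit 0) (.ax 11 18 21 22 5), .t 1 (nat_lit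 0) (.ax 11 20 21 22 5), .t 1 (nat_lit 0) (.ax 12 13 14 15 0), .t 1 (nat_lit 0) (.ax 12 13 14 15 2), .t 1 (nat_lit 0) (.ax 12 13 14 15 4), .t 1 (nat_lit 0) (.ax 12 13 14 15 5), .t 1 (nat_lit 0) (.ax 12 13 16 17 0), .t 1 (nat_lit 0) (.ax 12 13 16 18 0), .t 1 (nat_lit 0) (.ax 12 13 16 20 0), .t 1 (nat_lit 0) (.ax 12 13 16 21 0), .t 1 (nat_lit 0) (.ax 12 13 16 22 0), .t 1 (nat_lit 0) (.ax 12 14 15 16 0), .t 1 (nat_lit 0) (.ax 12 14 15 16 1), .t 1 (nat_lit 0) (.ax 12 14 15 16 2)] (by decide +kernel) (by decide +kernel)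
theorem b58 : B 1856 1888 := Blk.of_chk [.t 1 (nat_lit 0) (.ax 12 14 15 16 4), .t 1 (nat_lit 0) (.ax 12 14 15 17 0), .t 1 (nat_lit 0) (.ax 12 14 15 17 1), .t 1 (nat_lit 0) (.ax 12 14 15 17 2), .t 1 (nat_lit 0) (.ax 12 14 15 17 3), .t 1 (nat_lit 0) (.ax 12 14 15 17 4), .t 1 (nat_lit 0) (.ax 12 14 15 18 0), .t 1 (nat_lit 0) (.ax 12 14 15 18 1), .t 1 (nat_lit 0) (.ax 12 14 15 18 4), .t 1 (nat_lit 0) (.ax 12 14 15 19 0), .t 1 (nat_lit 0) (.ax 12 14 15 19 3), .t 1 (nat_lit 0) (.ax 12 14 15 20 0), .t 1 (nat_lit 0) (.ax 12 14 15 20 3), .t 1 (nat_lit 0) (.ax 12 14 15 21 0), .t 1 (nat_lit 0) (.ax 12 14 15 22 0), .t 1 (nat_lit 0) (.ax 12 14 15 22 3), .t 1 (nat_lit 0) (.ax 12 14 16 17 1), .t 1 (nat_lit 0) (.ax 12 14 16 17 4), .t 1 (nat_lit 0) (.ax 12 14 16 18 1), .t 1 (nat_lit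 0) (.ax 12 14 16 18 4), .t 1 (nat_lit 0) (.ax 12 14 16 19 4), .t 1 (nat_lit 0) (.ax 12 14 16 20 4), .t 1 (nat_lit 0) (.ax 12 14 16 21 4), .t 1 (nat_lit 0) (.ax 12 14 16 22 4), .t 1 (nat_lit 0) (.ax 12 14 17 18 3), .t 1 (nat_lit 0) (.ax 12 14 17 18 4), .t 1 (nat_lit 0) (.ax 12 14 17 18 6), .t 1 (nat_lit 0) (.ax 12 14 17 19 2), .t 1 (nat_lit 0) (.ax 12 14 17 19 4), .t 1 (nat_lit 0) (.ax 12 14 17 20 0), .t 1 (nat_lit 0) (.ax 12 14 17 20 2), .t 1 (nat_lit 0) (.ax 12 14 17 20 4)] (by decide +kernel) (by decide +kernel)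
theorem b59 : B 1888 1920 := Blk.of_chk [.t 1 (nat_lit 0) (.ax 12 14 17 22 4), .t 1 (nat_lit 0) (.ax 12 14 18 19 2), .t 1 (nat_lit 0) (.ax 12 14 18 19 4), .t 1 (nat_lit 0) (.ax 12 14 18 20 0), .t 1 (nat_lit 0) (.ax 12 14 18 20 2), .t 1 (nat_lit 0) (.ax 12 14 18 20 4), .t 1 (nat_lit 0) (.ax 12 15 16 17 2), .t 1 (nat_lit 0) (.ax 12 15 16 17 4), .t 1 (nat_lit 0) (.ax 12 15 16 18 2), .t 1 (nat_lit 0) (.ax 12 15 16 18 4), .t 1 (nat_lit 0) (.ax 12 15 16 19 4), .t 1 (nat_lit 0) (.ax 12 15 16 22 4), .t 1 (nat_lit 0) (.ax 12 15 17 18 0), .t 1 (nat_lit 0) (.ax 12 15 17 18 5), .t 1 (nat_lit 0) (.ax 12 15 17 19 0), .t 1 (nat_lit 0) (.ax 12 15 17 19 2), .t 1 (nat_lit 0) (.ax 12 15 17 19 7), .t 1 (nat_lit 0) (.ax 12 15 18 19 0), .t 1 (nat_lit 0) (.ax 12 15 18 19 5), .t 1 (nat_lit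 0) (.ax 12 15 19 20 4), .t 1 (nat_lit 0) (.ax 12 15 19 21 4), .t 1 (nat_lit 0) (.ax 12 15 19 22 4), .t 1 (nat_lit 0) (.ax 12 15 21 22 5), .t 1 (nat_lit 0) (.ax 12 16 17 18 0), .t 1 (nat_lit 0) (.ax 12 16 17 18 2), .t 1 (nat_lit 0) (.ax 12 16 17 18 4), .t 1 (nat_lit 0) (.ax 12 16 17 18 5), .t 1 (nat_lit 0) (.ax 12 16 19 21 0), .t 1 (nat_lit 0) (.ax 12 17 18 19 4), .t 1 (nat_lit 0) (.ax 12 17 19 20 4), .t 1 (nat_lit 0) (.ax 12 17 20 22 4), .t 1 (nat_lit 0) (.ax 12 17 21 22 5)] (by decide +kernel) (by decide +kernel)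
theorem b60 : B 1920 1952 := Blk.of_chk [.t 1 (nat_lit 0) (.ax 12 18 19 20 4), .t 1 (nat_lit 0) (.ax 12 18 20 22 4), .t 1 (nat_lit 0) (.ax 12 18 21 22 5), .t 1 (nat_lit 0) (.ax 12 20 21 22 5), .t 1 (nat_lit 0) (.ax 13 14 15 16 2), .t 1 (nat_lit 0) (.ax 13 14 16 17 3), .t 1 (nat_lit 0) (.ax 13 14 16 18 3), .t 1 (nat_lit 0) (.ax 13 14 16 20 3), .t 1 (nat_lit 0) (.ax 13 14 16 21 3), .t 1 (nat_lit 0) (.ax 13 14 16 22 3), .t 1 (nat_lit 0) (.ax 13 15 16 17 3), .t 1 (nat_lit 0) (.ax 13 15 16 18 3), .t 1 (nat_lit 0) (.ax 13 15 16 20 3), .t 1 (nat_lit 0) (.ax 13 15 16 21 3), .t 1 (nat_lit 0) (.ax 13 15 16 22 3), .t 1 (nat_lit 0) (.ax 14 15 16 17 2), .t 1 (nat_lit 0) (.ax 14 15 16 17 4), .t 1 (nat_lit 0) (.ax 14 15 16 18 2), .t 1 (nat_lit 0) (.ax 14 15 16 18 4), .t 1 (nat_lit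 0) (.ax 14 15 16 19 4), .t 1 (nat_lit 0) (.ax 14 15 16 20 4), .t 1 (nat_lit 0) (.ax 14 15 16 21 4), .t 1 (nat_lit 0) (.ax 14 15 16 22 4), .t 1 (nat_lit 0) (.ax 14 15 17 18 0), .t 1 (nat_lit 0) (.ax 14 15 17 18 2), .t 1 (nat_lit 0) (.ax 14 15 17 18 5), .t 1 (nat_lit 0) (.ax 14 15 17 19 2), .t 1 (nat_lit 0) (.ax 14 15 17 20 2), .t 1 (nat_lit 0) (.ax 14 15 17 22 2), .t 1 (nat_lit 0) (.ax 14 15 18 19 1), .t 1 (nat_lit 0) (.ax 14 15 18 19 2), .t 1 (nat_lit 0) (.ax 14 15 18 19 3)] (by decide +kernel) (by decide +kernel)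
theorem b61 : B 1952 1984 := Blk.of_chk [.t 1 (nat_lit 0) (.ax 14 15 18 20 1), .t 1 (nat_lit 0) (.ax 14 15 18 20 2), .t 1 (nat_lit 0) (.ax 14 15 19 21 4), .t 1 (nat_lit 0) (.ax 14 15 19 22 4), .t 1 (nat_lit 0) (.ax 14 15 21 22 5), .t 1 (nat_lit 0) (.ax 14 16 17 18 0), .t 1 (nat_lit 0) (.ax 14 16 17 18 2), .t 1 (nat_lit 0) (.ax 14 16 17 18 4), .t 1 (nat_lit 0) (.ax 14 16 17 18 5), .t 1 (nat_lit 0) (.ax 14 16 17 20 0), .t 1 (nat_lit 0) (.ax 14 16 19 21 0), .t 1 (nat_lit 0) (.ax 14 17 18 19 0), .t 1 (nat_lit 0) (.ax 14 17 18 19 1), .t 1 (nat_lit 0) (.ax 14 17 18 19 2), .t 1 (nat_lit 0) (.ax 14 17 18 19 4), .t 1 (nat_lit 0) (.ax 14 17 18 19 5), .t 1 (nat_lit 0) (.ax 14 17 18 19 6), .t 1 (nat_lit 0) (.ax 14 17 18 20 0), .t 1 (nat_lit 0) (.ax 14 17 18 20 1), .t 1 (nat_lit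 0) (.ax 14 17 18 20 4), .t 1 (nat_lit 0) (.ax 14 17 18 20 6), .t 1 (nat_lit 0) (.ax 14 17 19 20 4), .t 1 (nat_lit 0) (.ax 14 17 19 22 4), .t 1 (nat_lit 0) (.ax 14 17 20 22 4), .t 1 (nat_lit 0) (.ax 14 17 21 22 5), .t 1 (nat_lit 0) (.ax 14 18 19 20 4), .t 1 (nat_lit 0) (.ax 14 18 20 22 4), .t 1 (nat_lit 0) (.ax 14 18 21 22 5), .t 1 (nat_lit 0) (.ax 14 20 21 22 5), .t 1 (nat_lit 0) (.ax 15 16 17 18 0), .t 1 (nat_lit 0) (.ax 15 16 17 18 2), .t 1 (nat_lit 0) (.ax 15 16 17 18 4)] (by decide +kernel) (by decide +kernel)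
theorem b62 : B 1984 2016 := Blk.of_chk [.t 1 (nat_lit 0) (.ax 15 16 17 18 5), .t 1 (nat_lit 0) (.ax 15 16 19 21 0), .t 1 (nat_lit 0) (.ax 15 17 18 19 0), .t 1 (nat_lit 0) (.ax 15 17 18 19 1), .t 1 (nat_lit 0) (.ax 15 17 18 19 4), .t 1 (nat_lit 0) (.ax 15 17 18 19 7), .t 1 (nat_lit 0) (.ax 15 17 18 20 0), .t 1 (nat_lit 0) (.ax 15 17 19 20 4), .t 1 (nat_lit 0) (.ax 15 17 19 22 4), .t 1 (nat_lit 0) (.ax 15 17 20 22 4), .t 1 (nat_lit 0) (.ax 15 17 21 22 5), .t 1 (nat_lit 0) (.ax 15 18 19 20 4), .t 1 (nat_lit 0) (.ax 15 18 20 22 4), .t 1 (nat_lit 0) (.ax 15 18 21 22 5), .t 1 (nat_lit 0) (.ax 15 20 21 22 5), .t 1 (nat_lit 0) (.ax 16 17 18 19 2), .t 1 (nat_lit 0) (.ax 16 17 18 20 3), .t 1 (nat_lit 0) (.ax 16 17 18 20 4), .t 1 (nat_lit 0) (.ax 16 17 18 20 5), .t 1 (nat_lit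 0) (.ax 16 17 19 21 3), .t 1 (nat_lit 0) (.ax 16 18 19 21 3), .t 1 (nat_lit 0) (.ax 17 18 19 20 4), .t 1 (nat_lit 0) (.ax 17 20 21 22 5), .t 1 (nat_lit 0) (.ax 18 20 21 22 5), .t 1 (nat_lit 0) (.fa 4), .t 1 (nat_lit 0) (.fa 6), .t 1 (nat_lit 0) (.fa 3), .t 1 (nat_lit 0) (.fa 2), .t 8 (nat_lit 0x18c018b018901a401a201910190) (.z (.node 2 4 (.node 0 8 (.free 4 [0,9,10,11,12,13,14,15,16,17,18,19,20,21,22]) (.leaf [2,5,7,8,6])) (.free 1 [1,3,4]))), .t 1 (nat_lit 0) (.fa 6), .t 1 (nat_lit 0) (.cp 3 3), .t 1 (nat_lit 0) (.fa 4)] (by decide +kernel) (by decide +kernel)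
theorem b63 : B 2016 2048 := Blk.of_chk [.t 1 (nat_lit 0) (.cp 2 3), .t 1 (nat_lit 0) (.cp 1 3), .t 1 (nat_lit 0) (.cp 7 3), .t 1 (nat_lit 0) (.cp 1 2), .t 1 (nat_lit 0) (.cn 1 3), .t 8 (nat_lit 0x738047f047e047c047b04780477) (.z (.edon 5 16 (.node 5 10 (.leaf [5,12,13,15,14]) (.leaf [7,8,10])) (.free 4 [0,1,2,3,4,6,9,11,16,17,18,19,20,21,22]))), .t 1 (nat_lit 0) (.cn 2 3), .t 1 (nat_lit 0) (.fa 3), .t 1 (nat_lit 0) (.cp 2 3), .t 1 (nat_lit 0) (.cn 1 2), .t 8 (nat_lit 0x41f04fe04fd04760475041d041c) (.z (.edon 5 15 (.node 6 10 (.leaf [5,6,12,13,14]) (.leaf [7,8,10])) (.free 4 [0,1,2,3,4,9,11,15,16,17,18,19,20,21,22]))), .t 1 (nat_lit 0) (.fa 4), .t 1 (nat_lit 0) (.cp 3 3), .t 8 (nat_lit 0x7380509050805050504050004ff) (.z (.edon 6 16 (.node 6 10 (.leaf [6,12,13,15,14])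 (.leaf [7,8,10])) (.free 4 [0,1,2,3,4,5,9,11,16,17,18,19,20,21,22]))), .t 6 (nat_lit 0x2160096009500390031) (.z (.edon 6 10 (.edon 4 8 (.leaf [4,5,7]) (.leaf [1,3,8,9,6])) (.free 4 [0,2,10,11,12,13,14,15,16,17,18,19,20,21,22]))), .t 1 (nat_lit 0) (.cn 2 3), .t 8 (nat_lit 0x41b04210420041f041e04760475) (.z (.edon 6 15 (.node 5 10 (.leaf [5,12,13,14,6]) (.leaf [7,8,10])) (.free 4 [0,1,2,3,4,9,11,15,16,17,18,19,20,21,22]))), .t 1 (nat_lit 0) (.cn 7 3), .t 7 (nat_lit 0x7d807340733073202870286) (.z (.node 0 3 (.node 6 15 (.edon 0 11 (.leaf [0,4,5,6,9]) (.node 18 19 (.leaf [11,18,20,22,21]) (.leaf [16,17,19]))) (.free 2 [7,8,10,12,13,14,15])) (.free 1 [1,2,3]))), .t 1 (nat_lit 0) (.cn 7 3), .t 7 (nat_lit 0x7d707340730072f02870286) (.z (.node 0 3 (.node 6 15 (.edon 0 11 (.leaf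 [0,4,5,6,9]) (.node 17 19 (.leaf [11,17,20,22,21]) (.leaf [16,18,19]))) (.free 2 [7,8,10,12,13,14,15])) (.free 1 [1,2,3]))), .t 7 (nat_lit 0x7d807340733073202870286) (.z (.node 0 3 (.edon 0 11 (.node 5 10 (.leaf [0,4,5,6,9]) (.leaf [7,8,10])) (.node 11 19 (.leaf [11,18,20,22,21]) (.free 2 [12,13,14,15,16,17,19]))) (.free 1 [1,2,3]))), .t 5 (nat_lit 0x179003000030002) (.z (.node 8 0 (.edon 4 6 (.leaf [4,5,7]) (.leaf [1,3,6,8,2])) (.free 4 [0,9,10,11,12,13,14,15,16,17,18,19,20,21,22]))), .t 7 (nat_lit 0x7d707340730072f02870286) (.z (.node 0 3 (.edon 0 11 (.node 5 10 (.leaf [0,4,5,6,9]) (.leaf [7,8,10])) (.node 11 19 (.leaf [11,17,20,22,21]) (.free 2 [12,13,14,15,16,18,19]))) (.free 1 [1,2,3]))), .t 10 (nat_lit 0x73806f906f606e906e706e206e102870286) (.z (.node 0 3 (.edon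 0 11 (.node 5 10 (.leaf [0,4,5,6,9]) (.leaf [7,8,10])) (.edon 0 16 (.leaf [11,12,13,15,14]) (.free 2 [16,17,18,19,20,21,22]))) (.free 1 [1,2,3]))), .t 12 (nat_lit 0x5e205e105de05f005ee05e705e6017a003100040002) (.z (.node 16 0 (.edon 4 8 (.leaf [4,5,7]) (.node 6 16 (.leaf [1,3,6,9,2]) (.edon 13 14 (.leaf [13,15,16]) (.leaf [8,10,12,14,11])))) (.free 2 [0,17,18,19,20,21,22]))), .t 1 (nat_lit 0) (.fa 4), .t 1 (nat_lit 0) (.fa 4), .t 1 (nat_lit 0) (.cn 4 2), .t 1 (nat_lit 0) (.fa 4), .t 7 (nat_lit 0x1d101d001cf01610160002b) (.z (.node 16 0 (.node 1 13 (.leaf [1,14,15,16,2]) (.edon 0 7 (.leaf [3,4,5,6]) (.free 2 [7,8,9,10,11,12,13]))) (.free 2 [0,17,18,19,20,21,22]))), .t 1 (nat_lit 0) (.cn 4 3)] (by decide +kernel) (by decide +kernel)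
theorem b64 : B 2048 2080 := Blk.of_chk [.t 1 (nat_lit 0) (.cn 4 3), .t 1 (nat_lit 0) (.cn 4 2), .t 10 (nat_lit 0x6e006df06dd06f906f606e906e802870286) (.z (.node 0 3 (.edon 0 11 (.node 5 10 (.leaf [0,4,5,6,9]) (.leaf [7,8,10])) (.edon 0 16 (.leaf [11,13,15,14,12]) (.free 2 [16,17,18,19,20,21,22]))) (.free 1 [1,2,3]))), .t 8 (nat_lit 0x6f90509050804f204f104ee04ed) (.z (.edon 6 16 (.node 6 10 (.leaf [6,11,13,15,14]) (.leaf [7,8,10])) (.free 4 [0,1,2,3,4,5,9,12,16,17,18,19,20,21,22]))), .t 10 (nat_lit 0x6f9047f047e046c046a0467046601ae01ad) (.z (.edon 0 16 (.node 2 4 (.node 9 14 (.leaf [0,2,6,9,12]) (.node 5 10 (.leaf [5,11,13,15,14]) (.leaf [7,8,10]))) (.leaf [1,3,4])) (.free 2 [16,17,18,19,20,21,22]))), .t 1 (nat_lit 0) (.cp 3 3), .t 1 (nat_lit 0) (.cp 2 3), .t 1 (nat_lit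 0) (.cp 4 3), .t 5 (nat_lit 0x7d807cf07ce07cd) (.z (.edon 0 15 (.free 4 [0,1,2,3,4,5,6,7,8,9,10,11,12,13,14]) (.node 18 19 (.leaf [15,18,20,22,21]) (.leaf [16,17,19])))), .t 5 (nat_lit 0x7d807cf07ce07cd) (.z (.edon 0 15 (.free 4 [0,1,2,3,4,5,6,7,8,9,10,11,12,13,14]) (.node 15 19 (.leaf [15,18,20,22,21]) (.leaf [16,17,19])))), .t 1 (nat_lit 0) (.cp 4 3), .t 1 (nat_lit 0) (.cn 7 3), .t 12 (nat_lit 0x6e006df06dd06f906f606e906e807d806810680067f) (.z (.edon 0 7 (.free 2 [0,1,2,3,4,5,6]) (.node 9 10 (.node 9 19 (.leaf [9,18,20,22,21]) (.edon 0 16 (.leaf [11,13,15,14,12]) (.leaf [16,17,19]))) (.leaf [7,8,10])))), .t 13 (nat_lit 0x5c505ce05cc05c905c807b207b007ac05e005df07ba07b6) (.z (.node 0 7 (.node 0 12 (.node 0 20 (.leaf [0,21,22]) (.node 14 16 (.leaf [14,17,19,20,18])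 (.leaf [13,15,16]))) (.leaf [8,10,11,12,9])) (.free 2 [1,2,3,4,5,6,7]))), .t 1 (nat_lit 0) (.cn 7 3), .t 12 (nat_lit 0x6e006df06dd06f906f606e906e807d70681067d067c) (.z (.edon 0 7 (.free 2 [0,1,2,3,4,5,6]) (.node 9 10 (.node 9 19 (.leaf [9,17,20,22,21]) (.edon 0 16 (.leaf [11,13,15,14,12]) (.leaf [16,18,19]))) (.leaf [7,8,10])))), .t 13 (nat_lit 0x5c505ce05cc05c905c807b307af07ad05e005df07ba07b6) (.z (.node 0 7 (.node 0 12 (.node 0 20 (.leaf [0,21,22]) (.node 14 16 (.leaf [14,18,19,20,17]) (.leaf [13,15,16]))) (.leaf [8,10,11,12,9])) (.free 2 [1,2,3,4,5,6,7]))), .t 13 (nat_lit 0x6e006df06dd06f906f606e906e803040302021e021d01da) (.z (.edon 0 16 (.edon 0 3 (.leaf [0,1,2]) (.edon 0 11 (.node 4 8 (.leaf [3,4,10,9,6]) (.leaf [5,7,8])) (.leaf [11,13,15,14,12]))) (.free 2 [16,17,18,19,20,21,22]))),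 .t 5 (nat_lit 0x738073505c705c6) (.z (.node 0 7 (.edon 0 12 (.leaf [0,8,9,10,11]) (.edon 0 16 (.leaf [12,13,15,14]) (.free 2 [16,17,18,19,20,21,22]))) (.free 2 [1,2,3,4,5,6,7]))), .t 23 (nat_lit 0x35002c6020d020105e005df045c0445044403a0039f034f034e02a602a5026c026b025a0259020001ff01d2) (.z (.node 7 4 (.free 1 [7]) (.edon 3 13 (.leaf [3,4,5,8,10,11,12]) (.free 4 [0,1,2,6,9,13,14,15,16,17,18,19,20,21,22])))), .t 8 (nat_lit 0x4b005e005df04e304e204af04ae) (.z (.edon 6 13 (.node 6 7 (.leaf [6,8,10,11,12]) (.leaf [4,5,7])) (.free 4 [0,1,2,3,9,13,14,15,16,17,18,19,20,21,22]))), .t 1 (nat_lit 0) (.cp 8 3), .t 14 (nat_lit 0x7b307af07ad04aa04a904a807ba07b6000604ba04b904af04ae) (.z (.node 20 0 (.edon 0 13 (.edon 4 12 (.node 6 7 (.leaf [6,8,10,11,9]) (.leaf [4,5,7])) (.leaf [1,3,12,2]))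 (.node 14 16 (.leaf [14,18,19,20,17]) (.leaf [13,15,16]))) (.free 1 [0,21,22]))), .t 1 (nat_lit 0) (.cn 2 3), .t 8 (nat_lit 0x1b404e304e201ca01c901b301b2) (.z (.edon 1 10 (.free 2 [1,3,4,5,7,8,9]) (.edon 0 13 (.leaf [0,2,6,10,11,12]) (.free 3 [13,14,15,16,17,18,19,20,21,22])))), .t 9 (nat_lit 0x28801fa01f601da01d3002906f906f6) (.z (.node 5 10 (.node 0 16 (.free 2 [0,17,18,19,20,21,22]) (.edon 14 16 (.leaf [11,13,15,14]) (.node 1 9 (.leaf [1,12,16,2]) (.leaf [3,4,5,9,6])))) (.free 1 [7,8,10]))), .t 13 (nat_lit 0x29201fd01fc01dc01d606f906520651061d061a06160615) (.z (.edon 0 16 (.edon 0 3 (.leaf [0,1,2]) (.edon 7 12 (.node 9 10 (.leaf [9,11,13,15,14]) (.leaf [7,8,10])) (.leaf [3,4,5,12,6]))) (.free 2 [16,17,18,19,20,21,22]))), .t 11 (nat_lit 0x7b307af07ad01c301c200f100f0002407ba07b6)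 (.z (.node 1 10 (.node 0 12 (.node 0 20 (.leaf [0,21,22]) (.node 14 16 (.leaf [14,18,19,20,17]) (.leaf [13,15,16]))) (.leaf [1,9,11,12,2])) (.free 2 [3,4,5,6,7,8,10]))), .t 13 (nat_lit 0x1ce01cd01530152002906f906520651061d061a06160615) (.z (.edon 0 20 (.node 1 10 (.edon 14 16 (.leaf [9,11,13,15,14]) (.node 0 17 (.leaf [0,18,19]) (.leaf [1,12,16,17,2]))) (.free 2 [3,4,5,6,7,8,10])) (.free 1 [20,21,22]))), .t 10 (nat_lit 0x7b307af07ad07ba07b6017c003400060002) (.z (.node 20 0 (.edon 0 13 (.edon 4 12 (.free 2 [4,5,7,8,9,10,11]) (.leaf [1,3,6,12,2])) (.node 14 16 (.leaf [14,18,19,20,17]) (.leaf [13,15,16]))) (.free 1 [0,21,22]))), .t 8 (nat_lit 0x7930792023200bf00bd00420035) (.z (.edon 13 4 (.edon 1 19 (.edon 0 14 (.leaf [1,3,6,13,12]) (.leaf [14,15,16,18])) (.free 2 [0,2,17,19,20,21,22]))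 (.free 2 [4,5,7,8,9,10,11]))), .t 1 (nat_lit 0) (.cn 7 3)] (by decide +kernel) (by decide +kernel)

end Pool.Agent.GCP.F9_10_13
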