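import Pool.Agent.GCP.F9_11_13Db

set_option autoImplicit false
set_option maxRecDepth 100000

/-! # Blocks F9_11_13B0 (generated) -/

namespace Pool.Agent.GCP.F9_11_13

open Pool.Agent.GCP DB

theorem b0 : B 0 32 := Blk.of_chk [.t 1 (nat_lit 0) (.ax 1 2 3 5 1), .t 1 (nat_lit 0) (.ax 1 2 3 6 1), .t 1 (nat_lit 0) (.ax 1 2 3 8 1), .t 1 (nat_lit 0) (.ax 1 2 3 9 1), .t 1 (nat_lit 0) (.ax 1 2 3 10 1), .t 1 (nat_lit 0) (.ax 1 2 3 13 1), .t 1 (nat_lit 0) (.ax 1 2 3 15 1), .t 1 (nat_lit 0) (.ax 1 2 3 16 1), .t 1 (nat_lit 0) (.ax 1 2 4 5 1), .t 1 (nat_lit 0) (.ax 1 2 4 6 1), .t 1 (nat_lit 0) (.ax 1 2 4 8 1), .t 1 (nat_lit 0) (.ax 1 2 4 9 1), .t 1 (nat_lit 0) (.ax 1 2 4 10 1), .t 1 (nat_lit 0) (.ax 1 2 4 11 1), .t 1 (nat_lit 0) (.ax 1 2 4 12 1), .t 1 (nat_lit 0) (.ax 1 2 4 13 1),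 .t 1 (nat_lit 0) (.ax 1 2 4 14 1), .t 1 (nat_lit 0) (.ax 1 2 4 15 1), .t 1 (nat_lit 0) (.ax 1 2 4 16 1), .t 1 (nat_lit 0) (.ax 1 2 4 17 1), .t 1 (nat_lit 0) (.ax 1 2 4 18 1), .t 1 (nat_lit 0) (.ax 1 2 4 19 1), .t 1 (nat_lit 0) (.ax 1 2 4 20 1), .t 1 (nat_lit 0) (.ax 1 2 4 21 1), .t 1 (nat_lit 0) (.ax 1 2 4 22 1), .t 1 (nat_lit 0) (.ax 1 2 5 6 1), .t 1 (nat_lit 0) (.ax 1 2 5 7 1), .t 1 (nat_lit 0) (.ax 1 2 5 16 1), .t 1 (nat_lit 0) (.ax 1 2 5 19 1), .t 1 (nat_lit 0) (.ax 1 2 6 7 1), .t 1 (nat_lit 0) (.ax 1 2 6 7 3), .t 1 (nat_lit 0) (.ax 1 2 6 19 1)] (by decide +kernel) (by decide +kernel)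
theorem b1 : B 32 64 := Blk.of_chk [.t 1 (nat_lit 0) (.ax 1 2 6 22 1), .t 1 (nat_lit 0) (.ax 1 2 7 9 1), .t 1 (nat_lit 0) (.ax 1 2 7 10 1), .t 1 (nat_lit 0) (.ax 1 2 7 12 1), .t 1 (nat_lit 0) (.ax 1 2 7 13 1), .t 1 (nat_lit 0) (.ax 1 2 7 14 1), .t 1 (nat_lit 0) (.ax 1 2 7 16 1), .t 1 (nat_lit 0) (.ax 1 2 7 21 1), .t 1 (nat_lit 0) (.ax 1 2 8 16 1), .t 1 (nat_lit 0) (.ax 1 2 9 11 1), .t 1 (nat_lit 0) (.ax 1 2 9 13 1), .t 1 (nat_lit 0) (.ax 1 2 9 16 1), .t 1 (nat_lit 0) (.ax 1 2 9 19 1), .t 1 (nat_lit 0) (.ax 1 2 10 16 1), .t 1 (nat_lit 0) (.ax 1 2 10 19 1), .t 1 (nat_lit 0) (.ax 1 2 10 21 1), .t 1 (nat_lit 0) (.ax 1 2 11 16 1), .t 1 (nat_lit 0) (.ax 1 2 11 19 1), .t 1 (nat_lit 0) (.ax 1 2 11 21 1), .t 1 (nat_lit 0) (.ax 1 2 12 13 1), .t 1 (nat_lit 0) (.ax 1 2 13 14 1), .t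 1 (nat_lit 0) (.ax 1 2 13 15 1), .t 1 (nat_lit 0) (.ax 1 2 13 22 1), .t 1 (nat_lit 0) (.ax 1 2 14 15 1), .t 1 (nat_lit 0) (.ax 1 2 14 16 1), .t 1 (nat_lit 0) (.ax 1 2 14 19 1), .t 1 (nat_lit 0) (.ax 1 2 16 17 1), .t 1 (nat_lit 0) (.ax 1 2 16 18 1), .t 1 (nat_lit 0) (.ax 1 2 16 20 1), .t 1 (nat_lit 0) (.ax 1 2 16 21 1), .t 1 (nat_lit 0) (.ax 1 2 16 22 1), .t 1 (nat_lit 0) (.ax 1 2 19 21 1)] (by decide +kernel) (by decide +kernel)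
theorem b2 : B 64 96 := Blk.of_chk [.t 1 (nat_lit 0) (.ax 1 3 5 8 0), .t 1 (nat_lit 0) (.ax 1 3 5 9 0), .t 1 (nat_lit 0) (.ax 1 3 5 10 0), .t 1 (nat_lit 0) (.ax 1 3 6 8 0), .t 1 (nat_lit 0) (.ax 1 3 6 9 0), .t 1 (nat_lit 0) (.ax 1 3 6 10 0), .t 1 (nat_lit 0) (.ax 1 3 6 13 0), .t 1 (nat_lit 0) (.ax 1 3 6 15 0), .t 1 (nat_lit 0) (.ax 1 3 6 19 0), .t 1 (nat_lit 0) (.ax 1 3 9 10 0), .t 1 (nat_lit 0) (.ax 1 3 9 13 0), .t 1 (nat_lit 0) (.ax 1 3 9 19 0), .t 1 (nat_lit 0) (.ax 1 3 10 19 0), .t 1 (nat_lit 0) (.ax 1 3 13 15 0), .t 1 (nat_lit 0) (.ax 1 3 14 19 0), .t 1 (nat_lit 0) (.ax 1 4 5 6 0), .t 1 (nat_lit 0) (.ax 1 4 5 6 2), .t 1 (nat_lit 0) (.ax 1 4 5 10 0), .t 1 (nat_lit 0) (.ax 1 4 5 13 0), .t 1 (nat_lit 0) (.ax 1 4 5 19 0), .t 1 (nat_lit 0) (.ax 1 4 5 22 0), .t 1 (nat_lit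 0) (.ax 1 4 6 10 0), .t 1 (nat_lit 0) (.ax 1 4 6 13 0), .t 1 (nat_lit 0) (.ax 1 4 6 19 0), .t 1 (nat_lit 0) (.ax 1 4 7 8 0), .t 1 (nat_lit 0) (.ax 1 4 7 9 0), .t 1 (nat_lit 0) (.ax 1 4 7 10 0), .t 1 (nat_lit 0) (.ax 1 4 7 12 0), .t 1 (nat_lit 0) (.ax 1 4 7 13 0), .t 1 (nat_lit 0) (.ax 1 4 7 14 0), .t 1 (nat_lit 0) (.ax 1 4 7 15 0), .t 1 (nat_lit 0) (.ax 1 4 7 16 0)] (by decide +kernel) (by decide +kernel)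
theorem b3 : B 96 128 := Blk.of_chk [.t 1 (nat_lit 0) (.ax 1 4 7 17 0), .t 1 (nat_lit 0) (.ax 1 4 7 18 0), .t 1 (nat_lit 0) (.ax 1 4 7 19 0), .t 1 (nat_lit 0) (.ax 1 4 7 20 0), .t 1 (nat_lit 0) (.ax 1 4 7 21 0), .t 1 (nat_lit 0) (.ax 1 4 7 22 0), .t 1 (nat_lit 0) (.ax 1 4 8 13 0), .t 1 (nat_lit 0) (.ax 1 4 8 22 0), .t 1 (nat_lit 0) (.ax 1 4 9 10 0), .t 1 (nat_lit 0) (.ax 1 4 9 13 0), .t 1 (nat_lit 0) (.ax 1 4 9 22 0), .t 1 (nat_lit 0) (.ax 1 4 9 22 2), .t 1 (nat_lit 0) (.ax 1 4 10 13 0), .t 1 (nat_lit 0) (.ax 1 4 10 16 0), .t 1 (nat_lit 0) (.ax 1 4 10 22 0), .t 1 (nat_lit 0) (.ax 1 4 14 19 0), .t 1 (nat_lit 0) (.ax 1 4 14 22 0), .t 1 (nat_lit 0) (.ax 1 5 6 7 1), .t 1 (nat_lit 0) (.ax 1 5 6 7 3), .t 1 (nat_lit 0) (.ax 1 5 6 7 6), .t 1 (nat_lit 0) (.ax 1 5 6 9 3), .t 1 (nat_lit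 0) (.ax 1 5 6 13 5), .t 1 (nat_lit 0) (.ax 1 5 6 16 3), .t 1 (nat_lit 0) (.ax 1 5 6 19 1), .t 1 (nat_lit 0) (.ax 1 5 6 22 3), .t 1 (nat_lit 0) (.ax 1 5 7 13 4), .t 1 (nat_lit 0) (.ax 1 5 7 15 4), .t 1 (nat_lit 0) (.ax 1 5 7 19 4), .t 1 (nat_lit 0) (.ax 1 5 8 16 1), .t 1 (nat_lit 0) (.ax 1 5 9 19 0), .t 1 (nat_lit 0) (.ax 1 5 9 19 1), .t 1 (nat_lit 0) (.ax 1 5 9 19 6)] (by decide +kernel) (by decide +kernel)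
theorem b4 : B 128 160 := Blk.of_chk [.t 1 (nat_lit 0) (.ax 1 5 9 21 3), .t 1 (nat_lit 0) (.ax 1 5 9 22 5), .t 1 (nat_lit 0) (.ax 1 5 10 16 2), .t 1 (nat_lit 0) (.ax 1 5 10 19 0), .t 1 (nat_lit 0) (.ax 1 5 10 19 1), .t 1 (nat_lit 0) (.ax 1 5 10 19 6), .t 1 (nat_lit 0) (.ax 1 5 10 21 3), .t 1 (nat_lit 0) (.ax 1 5 13 19 4), .t 1 (nat_lit 0) (.ax 1 5 14 19 0), .t 1 (nat_lit 0) (.ax 1 5 14 19 1), .t 1 (nat_lit 0) (.ax 1 5 14 19 6), .t 1 (nat_lit 0) (.ax 1 5 14 21 3), .t 1 (nat_lit 0) (.ax 1 6 7 9 4), .t 1 (nat_lit 0) (.ax 1 6 7 16 4), .t 1 (nat_lit 0) (.ax 1 6 7 19 4), .t 1 (nat_lit 0) (.ax 1 6 9 10 0), .t 1 (nat_lit 0) (.ax 1 6 9 19 1), .t 1 (nat_lit 0) (.ax 1 6 9 19 6), .t 1 (nat_lit 0) (.ax 1 6 9 22 5), .t 1 (nat_lit 0) (.ax 1 6 10 19 1), .t 1 (nat_lit 0) (.ax 1 6 11 13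 4), .t 1 (nat_lit 0) (.ax 1 6 11 19 4), .t 1 (nat_lit 0) (.ax 1 6 13 15 1), .t 1 (nat_lit 0) (.ax 1 6 13 15 4), .t 1 (nat_lit 0) (.ax 1 6 13 19 4), .t 1 (nat_lit 0) (.ax 1 6 14 19 0), .t 1 (nat_lit 0) (.ax 1 6 14 19 1), .t 1 (nat_lit 0) (.ax 1 6 17 19 1), .t 1 (nat_lit 0) (.ax 1 6 18 19 0), .t 1 (nat_lit 0) (.ax 1 7 8 9 0), .t 1 (nat_lit 0) (.ax 1 7 8 13 0), .t 1 (nat_lit 0) (.ax 1 7 9 14 0)] (by decide +kernel) (by decide +kernel)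
theorem b5 : B 160 192 := Blk.of_chk [.t 1 (nat_lit 0) (.ax 1 7 9 16 0), .t 1 (nat_lit 0) (.ax 1 7 9 19 0), .t 1 (nat_lit 0) (.ax 1 7 10 13 0), .t 1 (nat_lit 0) (.ax 1 7 10 16 0), .t 1 (nat_lit 0) (.ax 1 7 10 19 0), .t 1 (nat_lit 0) (.ax 1 7 11 12 0), .t 1 (nat_lit 0) (.ax 1 7 11 14 0), .t 1 (nat_lit 0) (.ax 1 7 11 15 0), .t 1 (nat_lit 0) (.ax 1 7 11 16 0), .t 1 (nat_lit 0) (.ax 1 7 11 17 0), .t 1 (nat_lit 0) (.ax 1 7 11 18 0), .t 1 (nat_lit 0) (.ax 1 7 11 19 0), .t 1 (nat_lit 0) (.ax 1 7 11 20 0), .t 1 (nat_lit 0) (.ax 1 7 11 21 0), .t 1 (nat_lit 0) (.ax 1 7 11 22 0), .t 1 (nat_lit 0) (.ax 1 7 14 16 0), .t 1 (nat_lit 0) (.ax 1 7 14 19 0), .t 1 (nat_lit 0) (.ax 1 8 9 19 1), .t 1 (nat_lit 0) (.ax 1 8 9 19 6), .t 1 (nat_lit 0) (.ax 1 8 9 22 5), .t 1 (nat_lit 0) (.ax 1 8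 10 19 0), .t 1 (nat_lit 0) (.ax 1 8 13 15 4), .t 1 (nat_lit 0) (.ax 1 8 13 19 4), .t 1 (nat_lit 0) (.ax 1 8 14 16 1), .t 1 (nat_lit 0) (.ax 1 8 14 19 0), .t 1 (nat_lit 0) (.ax 1 9 10 11 1), .t 1 (nat_lit 0) (.ax 1 9 10 11 3), .t 1 (nat_lit 0) (.ax 1 9 10 11 6), .t 1 (nat_lit 0) (.ax 1 9 10 15 2), .t 1 (nat_lit 0) (.ax 1 9 10 16 2), .t 1 (nat_lit 0) (.ax 1 9 10 17 2), .t 1 (nat_lit 0) (.ax 1 9 10 19 0)] (by decide +kernel) (by decide +kernel)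
theorem b6 : B 192 224 := Blk.of_chk [.t 1 (nat_lit 0) (.ax 1 9 10 19 1), .t 1 (nat_lit 0) (.ax 1 9 10 19 2), .t 1 (nat_lit 0) (.ax 1 9 10 19 4), .t 1 (nat_lit 0) (.ax 1 9 10 19 6), .t 1 (nat_lit 0) (.ax 1 9 10 19 7), .t 1 (nat_lit 0) (.ax 1 9 10 21 0), .t 1 (nat_lit 0) (.ax 1 9 11 19 4), .t 1 (nat_lit 0) (.ax 1 9 13 14 4), .t 1 (nat_lit 0) (.ax 1 9 13 19 4), .t 1 (nat_lit 0) (.ax 1 9 13 21 4), .t 1 (nat_lit 0) (.ax 1 9 13 22 4), .t 1 (nat_lit 0) (.ax 1 9 14 15 1), .t 1 (nat_lit 0) (.ax 1 9 14 15 2), .t 1 (nat_lit 0) (.ax 1 9 14 16 1), .t 1 (nat_lit 0) (.ax 1 9 14 16 4), .t 1 (nat_lit 0) (.ax 1 9 14 19 0), .t 1 (nat_lit 0) (.ax 1 9 14 19 1), .t 1 (nat_lit 0) (.ax 1 9 14 19 6), .t 1 (nat_lit 0) (.ax 1 9 14 20 3), .t 1 (nat_lit 0) (.ax 1 9 14 21 3), .t 1 (nat_lit 0) (.ax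 1 9 14 22 3), .t 1 (nat_lit 0) (.ax 1 9 14 22 5), .t 1 (nat_lit 0) (.ax 1 9 15 16 1), .t 1 (nat_lit 0) (.ax 1 9 15 16 4), .t 1 (nat_lit 0) (.ax 1 9 15 19 4), .t 1 (nat_lit 0) (.ax 1 9 16 19 4), .t 1 (nat_lit 0) (.ax 1 9 18 19 4), .t 1 (nat_lit 0) (.ax 1 9 21 22 5), .t 1 (nat_lit 0) (.ax 1 10 11 16 4), .t 1 (nat_lit 0) (.ax 1 10 13 15 4), .t 1 (nat_lit 0) (.ax 1 10 13 16 4), .t 1 (nat_lit 0) (.ax 1 10 13 19 4)] (by decide +kernel) (by decide +kernel)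
theorem b7 : B 224 256 := Blk.of_chk [.t 1 (nat_lit 0) (.ax 1 10 14 15 1), .t 1 (nat_lit 0) (.ax 1 10 14 16 1), .t 1 (nat_lit 0) (.ax 1 10 14 16 4), .t 1 (nat_lit 0) (.ax 1 10 14 19 0), .t 1 (nat_lit 0) (.ax 1 10 14 19 1), .t 1 (nat_lit 0) (.ax 1 10 14 19 6), .t 1 (nat_lit 0) (.ax 1 10 14 22 5), .t 1 (nat_lit 0) (.ax 1 10 15 16 1), .t 1 (nat_lit 0) (.ax 1 10 15 16 4), .t 1 (nat_lit 0) (.ax 1 10 15 19 4), .t 1 (nat_lit 0) (.ax 1 10 16 19 4), .t 1 (nat_lit 0) (.ax 1 10 17 19 4), .t 1 (nat_lit 0) (.ax 1 10 19 21 4), .t 1 (nat_lit 0) (.ax 1 11 13 14 0), .t 1 (nat_lit 0) (.ax 1 11 13 15 0), .t 1 (nat_lit 0) (.ax 1 11 13 17 0), .t 1 (nat_lit 0) (.ax 1 11 13 18 0), .t 1 (nat_lit 0) (.ax 1 11 13 19 0), .t 1 (nat_lit 0) (.ax 1 11 13 20 0), .t 1 (nat_lit 0) (.ax 1 11 13 21 0), .t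 1 (nat_lit 0) (.ax 1 11 13 22 0), .t 1 (nat_lit 0) (.ax 1 11 14 19 0), .t 1 (nat_lit 0) (.ax 1 11 15 16 0), .t 1 (nat_lit 0) (.ax 1 11 17 19 0), .t 1 (nat_lit 0) (.ax 1 11 18 19 0), .t 1 (nat_lit 0) (.ax 1 12 13 15 4), .t 1 (nat_lit 0) (.ax 1 12 13 18 4), .t 1 (nat_lit 0) (.ax 1 12 13 19 4), .t 1 (nat_lit 0) (.ax 1 12 18 19 2), .t 1 (nat_lit 0) (.ax 1 13 16 17 0), .t 1 (nat_lit 0) (.ax 1 13 16 18 0), .t 1 (nat_lit 0) (.ax 1 13 16 20 0)] (by decide +kernel) (by decide +kernel)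
theorem b8 : B 256 288 := Blk.of_chk [.t 1 (nat_lit 0) (.ax 1 13 16 21 0), .t 1 (nat_lit 0) (.ax 1 13 16 22 0), .t 1 (nat_lit 0) (.ax 1 14 15 16 2), .t 1 (nat_lit 0) (.ax 1 14 15 16 4), .t 1 (nat_lit 0) (.ax 1 14 16 17 4), .t 1 (nat_lit 0) (.ax 1 14 16 19 4), .t 1 (nat_lit 0) (.ax 1 14 17 19 2), .t 1 (nat_lit 0) (.ax 1 14 19 20 4), .t 1 (nat_lit 0) (.ax 1 14 19 21 4), .t 1 (nat_lit 0) (.ax 1 14 19 22 4), .t 1 (nat_lit 0) (.ax 1 14 21 22 5), .t 1 (nat_lit 0) (.ax 1 15 16 17 4), .t 1 (nat_lit 0) (.ax 1 15 16 19 4), .t 1 (nat_lit 0) (.ax 1 15 17 19 2), .t 1 (nat_lit 0) (.ax 1 16 19 21 0), .t 1 (nat_lit 0) (.ax 2 3 5 8 0), .t 1 (nat_lit 0) (.ax 2 3 5 9 0), .t 1 (nat_lit 0) (.ax 2 3 5 10 0), .t 1 (nat_lit 0) (.ax 2 3 5 16 0), .t 1 (nat_lit 0) (.ax 2 3 6 8 0), .t 1 (nat_lit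 0) (.ax 2 3 6 9 0), .t 1 (nat_lit 0) (.ax 2 3 6 10 0), .t 1 (nat_lit 0) (.ax 2 3 8 10 0), .t 1 (nat_lit 0) (.ax 2 3 8 16 0), .t 1 (nat_lit 0) (.ax 2 3 9 10 0), .t 1 (nat_lit 0) (.ax 2 3 9 16 0), .t 1 (nat_lit 0) (.ax 2 3 14 16 0), .t 1 (nat_lit 0) (.ax 2 4 5 6 0), .t 1 (nat_lit 0) (.ax 2 4 5 8 0), .t 1 (nat_lit 0) (.ax 2 4 5 9 0), .t 1 (nat_lit 0) (.ax 2 4 5 16 0), .t 1 (nat_lit 0) (.ax 2 4 5 22 0)] (by decide +kernel) (by decide +kernel)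
theorem b9 : B 288 320 := Blk.of_chk [.t 1 (nat_lit 0) (.ax 2 4 6 8 0), .t 1 (nat_lit 0) (.ax 2 4 6 9 0), .t 1 (nat_lit 0) (.ax 2 4 6 13 0), .t 1 (nat_lit 0) (.ax 2 4 8 9 0), .t 1 (nat_lit 0) (.ax 2 4 8 10 0), .t 1 (nat_lit 0) (.ax 2 4 8 13 0), .t 1 (nat_lit 0) (.ax 2 4 8 16 0), .t 1 (nat_lit 0) (.ax 2 4 8 22 0), .t 1 (nat_lit 0) (.ax 2 4 9 10 0), .t 1 (nat_lit 0) (.ax 2 4 9 13 0), .t 1 (nat_lit 0) (.ax 2 4 9 16 0), .t 1 (nat_lit 0) (.ax 2 4 9 22 0), .t 1 (nat_lit 0) (.ax 2 4 10 11 0), .t 1 (nat_lit 0) (.ax 2 4 10 13 0), .t 1 (nat_lit 0) (.ax 2 4 10 14 0), .t 1 (nat_lit 0) (.ax 2 4 10 16 0), .t 1 (nat_lit 0) (.ax 2 4 10 21 0), .t 1 (nat_lit 0) (.ax 2 4 10 22 0), .t 1 (nat_lit 0) (.ax 2 4 14 16 0), .t 1 (nat_lit 0) (.ax 2 4 14 21 0), .t 1 (nat_lit 0) (.ax 2 4 14 22 0),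 .t 1 (nat_lit 0) (.ax 2 5 6 7 0), .t 1 (nat_lit 0) (.ax 2 5 6 7 1), .t 1 (nat_lit 0) (.ax 2 5 6 7 5), .t 1 (nat_lit 0) (.ax 2 5 6 8 0), .t 1 (nat_lit 0) (.ax 2 5 6 8 1), .t 1 (nat_lit 0) (.ax 2 5 6 8 4), .t 1 (nat_lit 0) (.ax 2 5 6 9 2), .t 1 (nat_lit 0) (.ax 2 5 6 9 4), .t 1 (nat_lit 0) (.ax 2 5 6 10 2), .t 1 (nat_lit 0) (.ax 2 5 6 10 4), .t 1 (nat_lit 0) (.ax 2 5 6 21 2)] (by decide +kernel) (by decide +kernel)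
theorem b10 : B 320 352 := Blk.of_chk [.t 1 (nat_lit 0) (.ax 2 5 6 21 4), .t 1 (nat_lit 0) (.ax 2 5 7 8 1), .t 1 (nat_lit 0) (.ax 2 5 7 8 2), .t 1 (nat_lit 0) (.ax 2 5 7 8 4), .t 1 (nat_lit 0) (.ax 2 5 7 16 4), .t 1 (nat_lit 0) (.ax 2 5 7 21 4), .t 1 (nat_lit 0) (.ax 2 5 8 9 4), .t 1 (nat_lit 0) (.ax 2 5 8 9 6), .t 1 (nat_lit 0) (.ax 2 5 8 10 4), .t 1 (nat_lit 0) (.ax 2 5 8 10 6), .t 1 (nat_lit 0) (.ax 2 5 8 14 4), .t 1 (nat_lit 0) (.ax 2 5 8 14 6), .t 1 (nat_lit 0) (.ax 2 5 8 16 2), .t 1 (nat_lit 0) (.ax 2 5 8 16 4), .t 1 (nat_lit 0) (.ax 2 5 8 16 6), .t 1 (nat_lit 0) (.ax 2 5 8 21 2), .t 1 (nat_lit 0) (.ax 2 5 8 21 4), .t 1 (nat_lit 0) (.ax 2 5 9 10 6), .t 1 (nat_lit 0) (.ax 2 5 9 16 0), .t 1 (nat_lit 0) (.ax 2 5 9 16 2), .t 1 (nat_lit 0) (.ax 2 5 9 21 2), .t 1 (nat_lit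 0) (.ax 2 5 9 21 4), .t 1 (nat_lit 0) (.ax 2 5 10 14 2), .t 1 (nat_lit 0) (.ax 2 5 10 16 2), .t 1 (nat_lit 0) (.ax 2 5 10 17 2), .t 1 (nat_lit 0) (.ax 2 5 10 19 5), .t 1 (nat_lit 0) (.ax 2 5 10 21 2), .t 1 (nat_lit 0) (.ax 2 5 10 21 4), .t 1 (nat_lit 0) (.ax 2 5 14 16 0), .t 1 (nat_lit 0) (.ax 2 5 14 16 1), .t 1 (nat_lit 0) (.ax 2 5 14 19 2), .t 1 (nat_lit 0) (.ax 2 5 14 19 4)] (by decide +kernel) (by decide +kernel)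
theorem b11 : B 352 384 := Blk.of_chk [.t 1 (nat_lit 0) (.ax 2 5 14 21 2), .t 1 (nat_lit 0) (.ax 2 5 14 21 4), .t 1 (nat_lit 0) (.ax 2 5 19 20 4), .t 1 (nat_lit 0) (.ax 2 5 19 21 4), .t 1 (nat_lit 0) (.ax 2 5 21 22 5), .t 1 (nat_lit 0) (.ax 2 6 7 8 1), .t 1 (nat_lit 0) (.ax 2 6 7 8 2), .t 1 (nat_lit 0) (.ax 2 6 7 8 4), .t 1 (nat_lit 0) (.ax 2 6 7 16 4), .t 1 (nat_lit 0) (.ax 2 6 8 9 4), .t 1 (nat_lit 0) (.ax 2 6 8 9 6), .t 1 (nat_lit 0) (.ax 2 6 8 10 4), .t 1 (nat_lit 0) (.ax 2 6 8 10 6), .t 1 (nat_lit 0) (.ax 2 6 8 13 6), .t 1 (nat_lit 0) (.ax 2 6 8 14 4), .t 1 (nat_lit 0) (.ax 2 6 8 14 6), .t 1 (nat_lit 0) (.ax 2 6 8 15 6), .t 1 (nat_lit 0) (.ax 2 6 8 16 0), .t 1 (nat_lit 0) (.ax 2 6 8 16 2), .t 1 (nat_lit 0) (.ax 2 6 8 16 6), .t 1 (nat_lit 0) (.ax 2 6 8 18 4), .t 1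 (nat_lit 0) (.ax 2 6 8 21 2), .t 1 (nat_lit 0) (.ax 2 6 8 21 4), .t 1 (nat_lit 0) (.ax 2 6 9 10 2), .t 1 (nat_lit 0) (.ax 2 6 9 16 0), .t 1 (nat_lit 0) (.ax 2 6 9 16 2), .t 1 (nat_lit 0) (.ax 2 6 9 16 6), .t 1 (nat_lit 0) (.ax 2 6 9 19 6), .t 1 (nat_lit 0) (.ax 2 6 9 21 2), .t 1 (nat_lit 0) (.ax 2 6 9 21 4), .t 1 (nat_lit 0) (.ax 2 6 9 22 5), .t 1 (nat_lit 0) (.ax 2 6 10 21 2)] (by decide +kernel) (by decide +kernel)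
theorem b12 : B 384 416 := Blk.of_chk [.t 1 (nat_lit 0) (.ax 2 6 10 21 4), .t 1 (nat_lit 0) (.ax 2 6 13 16 4), .t 1 (nat_lit 0) (.ax 2 6 14 16 0), .t 1 (nat_lit 0) (.ax 2 6 14 16 6), .t 1 (nat_lit 0) (.ax 2 6 14 19 5), .t 1 (nat_lit 0) (.ax 2 6 14 21 2), .t 1 (nat_lit 0) (.ax 2 6 14 21 4), .t 1 (nat_lit 0) (.ax 2 6 18 19 5), .t 1 (nat_lit 0) (.ax 2 6 18 21 2), .t 1 (nat_lit 0) (.ax 2 6 18 21 4), .t 1 (nat_lit 0) (.ax 2 6 18 22 5), .t 1 (nat_lit 0) (.ax 2 6 21 22 5), .t 1 (nat_lit 0) (.ax 2 7 8 9 0), .t 1 (nat_lit 0) (.ax 2 7 8 10 0), .t 1 (nat_lit 0) (.ax 2 7 8 16 0), .t 1 (nat_lit 0) (.ax 2 7 9 12 0), .t 1 (nat_lit 0) (.ax 2 7 9 14 0), .t 1 (nat_lit 0) (.ax 2 7 9 16 0), .t 1 (nat_lit 0) (.ax 2 7 10 13 0), .t 1 (nat_lit 0) (.ax 2 7 10 16 0), .t 1 (nat_lit 0) (.ax 2 7 14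 16 0), .t 1 (nat_lit 0) (.ax 2 7 14 16 2), .t 1 (nat_lit 0) (.ax 2 8 9 10 2), .t 1 (nat_lit 0) (.ax 2 8 9 10 5), .t 1 (nat_lit 0) (.ax 2 8 9 10 6), .t 1 (nat_lit 0) (.ax 2 8 9 13 5), .t 1 (nat_lit 0) (.ax 2 8 9 14 6), .t 1 (nat_lit 0) (.ax 2 8 9 16 0), .t 1 (nat_lit 0) (.ax 2 8 9 16 1), .t 1 (nat_lit 0) (.ax 2 8 9 16 4), .t 1 (nat_lit 0) (.ax 2 8 9 16 5), .t 1 (nat_lit 0) (.ax 2 8 9 17 0)] (by decide +kernel) (by decide +kernel)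
theorem b13 : B 416 448 := Blk.of_chk [.t 1 (nat_lit 0) (.ax 2 8 9 18 0), .t 1 (nat_lit 0) (.ax 2 8 9 19 0), .t 1 (nat_lit 0) (.ax 2 8 9 19 3), .t 1 (nat_lit 0) (.ax 2 8 9 20 0), .t 1 (nat_lit 0) (.ax 2 8 10 13 5), .t 1 (nat_lit 0) (.ax 2 8 10 16 0), .t 1 (nat_lit 0) (.ax 2 8 10 16 6), .t 1 (nat_lit 0) (.ax 2 8 10 22 0), .t 1 (nat_lit 0) (.ax 2 8 13 14 4), .t 1 (nat_lit 0) (.ax 2 8 13 15 4), .t 1 (nat_lit 0) (.ax 2 8 13 16 4), .t 1 (nat_lit 0) (.ax 2 8 14 16 0), .t 1 (nat_lit 0) (.ax 2 8 14 16 1), .t 1 (nat_lit 0) (.ax 2 8 14 16 6), .t 1 (nat_lit 0) (.ax 2 8 14 18 3), .t 1 (nat_lit 0) (.ax 2 8 14 21 5), .t 1 (nat_lit 0) (.ax 2 8 14 22 5), .t 1 (nat_lit 0) (.ax 2 8 16 17 4), .t 1 (nat_lit 0) (.ax 2 8 16 18 4), .t 1 (nat_lit 0) (.ax 2 8 16 19 4), .t 1 (nat_lit 0) (.ax 2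 8 16 20 4), .t 1 (nat_lit 0) (.ax 2 8 21 22 5), .t 1 (nat_lit 0) (.ax 2 9 10 11 4), .t 1 (nat_lit 0) (.ax 2 9 10 12 4), .t 1 (nat_lit 0) (.ax 2 9 10 13 4), .t 1 (nat_lit 0) (.ax 2 9 10 15 6), .t 1 (nat_lit 0) (.ax 2 9 10 16 0), .t 1 (nat_lit 0) (.ax 2 9 10 16 1), .t 1 (nat_lit 0) (.ax 2 9 10 16 4), .t 1 (nat_lit 0) (.ax 2 9 10 16 5), .t 1 (nat_lit 0) (.ax 2 9 10 16 7), .t 1 (nat_lit 0) (.ax 2 9 10 17 6)] (by decide +kernel) (by decide +kernel)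
theorem b14 : B 448 480 := Blk.of_chk [.t 1 (nat_lit 0) (.ax 2 9 10 18 6), .t 1 (nat_lit 0) (.ax 2 9 10 19 0), .t 1 (nat_lit 0) (.ax 2 9 10 19 5), .t 1 (nat_lit 0) (.ax 2 9 10 19 6), .t 1 (nat_lit 0) (.ax 2 9 10 21 0), .t 1 (nat_lit 0) (.ax 2 9 10 21 2), .t 1 (nat_lit 0) (.ax 2 9 10 21 4), .t 1 (nat_lit 0) (.ax 2 9 11 12 4), .t 1 (nat_lit 0) (.ax 2 9 12 19 4), .t 1 (nat_lit 0) (.ax 2 9 13 14 4), .t 1 (nat_lit 0) (.ax 2 9 13 15 4), .t 1 (nat_lit 0) (.ax 2 9 13 16 4), .t 1 (nat_lit 0) (.ax 2 9 13 17 4), .t 1 (nat_lit 0) (.ax 2 9 13 18 4), .t 1 (nat_lit 0) (.ax 2 9 13 19 4), .t 1 (nat_lit 0) (.ax 2 9 13 20 4), .t 1 (nat_lit 0) (.ax 2 9 13 21 4), .t 1 (nat_lit 0) (.ax 2 9 13 22 4), .t 1 (nat_lit 0) (.ax 2 9 14 15 1), .t 1 (nat_lit 0) (.ax 2 9 14 16 0), .t 1 (nat_lit 0) (.ax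 2 9 14 16 1), .t 1 (nat_lit 0) (.ax 2 9 14 16 2), .t 1 (nat_lit 0) (.ax 2 9 14 16 4), .t 1 (nat_lit 0) (.ax 2 9 14 16 6), .t 1 (nat_lit 0) (.ax 2 9 14 16 7), .t 1 (nat_lit 0) (.ax 2 9 14 19 1), .t 1 (nat_lit 0) (.ax 2 9 14 19 5), .t 1 (nat_lit 0) (.ax 2 9 14 20 5), .t 1 (nat_lit 0) (.ax 2 9 14 22 5), .t 1 (nat_lit 0) (.ax 2 9 15 16 1), .t 1 (nat_lit 0) (.ax 2 9 15 16 4), .t 1 (nat_lit 0) (.ax 2 9 16 17 4)] (by decide +kernel) (by decide +kernel)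
theorem b15 : B 480 512 := Blk.of_chk [.t 1 (nat_lit 0) (.ax 2 9 16 18 4), .t 1 (nat_lit 0) (.ax 2 9 16 19 4), .t 1 (nat_lit 0) (.ax 2 9 16 20 4), .t 1 (nat_lit 0) (.ax 2 9 17 18 2), .t 1 (nat_lit 0) (.ax 2 9 17 19 2), .t 1 (nat_lit 0) (.ax 2 9 17 19 4), .t 1 (nat_lit 0) (.ax 2 9 19 20 4), .t 1 (nat_lit 0) (.ax 2 9 21 22 5), .t 1 (nat_lit 0) (.ax 2 10 11 14 4), .t 1 (nat_lit 0) (.ax 2 10 11 16 4), .t 1 (nat_lit 0) (.ax 2 10 13 14 4), .t 1 (nat_lit 0) (.ax 2 10 13 15 4), .t 1 (nat_lit 0) (.ax 2 10 13 16 4), .t 1 (nat_lit 0) (.ax 2 10 13 17 4), .t 1 (nat_lit 0) (.ax 2 10 13 18 4), .t 1 (nat_lit 0) (.ax 2 10 13 19 4), .t 1 (nat_lit 0) (.ax 2 10 14 16 1), .t 1 (nat_lit 0) (.ax 2 10 14 16 2), .t 1 (nat_lit 0) (.ax 2 10 14 16 4), .t 1 (nat_lit 0) (.ax 2 10 14 21 0), .t 1 (nat_lit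 0) (.ax 2 10 14 21 2), .t 1 (nat_lit 0) (.ax 2 10 15 16 4), .t 1 (nat_lit 0) (.ax 2 10 16 19 4), .t 1 (nat_lit 0) (.ax 2 10 17 18 2), .t 1 (nat_lit 0) (.ax 2 10 19 21 4), .t 1 (nat_lit 0) (.ax 2 10 19 22 4), .t 1 (nat_lit 0) (.ax 2 10 21 22 5), .t 1 (nat_lit 0) (.ax 2 11 14 16 0), .t 1 (nat_lit 0) (.ax 2 11 14 19 0), .t 1 (nat_lit 0) (.ax 2 11 15 16 0), .t 1 (nat_lit 0) (.ax 2 12 13 14 4), .t 1 (nat_lit 0) (.ax 2 12 13 16 4)] (by decide +kernel) (by decide +kernel)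
theorem b16 : B 512 544 := Blk.of_chk [.t 1 (nat_lit 0) (.ax 2 12 14 16 0), .t 1 (nat_lit 0) (.ax 2 12 14 21 2), .t 1 (nat_lit 0) (.ax 2 14 15 16 2), .t 1 (nat_lit 0) (.ax 2 14 15 16 4), .t 1 (nat_lit 0) (.ax 2 14 16 17 4), .t 1 (nat_lit 0) (.ax 2 14 16 18 4), .t 1 (nat_lit 0) (.ax 2 14 16 19 4), .t 1 (nat_lit 0) (.ax 2 14 16 21 4), .t 1 (nat_lit 0) (.ax 2 14 17 18 0), .t 1 (nat_lit 0) (.ax 2 14 17 18 2), .t 1 (nat_lit 0) (.ax 2 14 19 20 4), .t 1 (nat_lit 0) (.ax 2 14 19 21 4), .t 1 (nat_lit 0) (.ax 2 14 21 22 5), .t 1 (nat_lit 0) (.ax 2 17 18 21 2), .t 1 (nat_lit 0) (.ax 2 17 18 21 4), .t 1 (nat_lit 0) (.ax 3 4 5 6 0), .t 1 (nat_lit 0) (.ax 3 4 5 8 0), .t 1 (nat_lit 0) (.ax 3 4 5 9 0), .t 1 (nat_lit 0) (.ax 3 4 5 10 0), .t 1 (nat_lit 0) (.ax 3 4 5 10 2), .t 1 (nat_lit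 0) (.ax 3 4 5 13 0), .t 1 (nat_lit 0) (.ax 3 4 5 22 0), .t 1 (nat_lit 0) (.ax 3 4 6 8 0), .t 1 (nat_lit 0) (.ax 3 4 6 9 0), .t 1 (nat_lit 0) (.ax 3 4 6 10 0), .t 1 (nat_lit 0) (.ax 3 4 6 13 0), .t 1 (nat_lit 0) (.ax 3 4 6 22 0), .t 1 (nat_lit 0) (.ax 3 4 7 8 0), .t 1 (nat_lit 0) (.ax 3 4 7 9 0), .t 1 (nat_lit 0) (.ax 3 4 7 10 0), .t 1 (nat_lit 0) (.ax 3 4 7 12 0), .t 1 (nat_lit 0) (.ax 3 4 7 13 0)] (by decide +kernel) (by decide +kernel)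
theorem b17 : B 544 576 := Blk.of_chk [.t 1 (nat_lit 0) (.ax 3 4 7 15 0), .t 1 (nat_lit 0) (.ax 3 4 7 16 0), .t 1 (nat_lit 0) (.ax 3 4 7 19 0), .t 1 (nat_lit 0) (.ax 3 4 7 22 0), .t 1 (nat_lit 0) (.ax 3 4 8 10 0), .t 1 (nat_lit 0) (.ax 3 4 8 13 0), .t 1 (nat_lit 0) (.ax 3 4 8 22 0), .t 1 (nat_lit 0) (.ax 3 4 9 10 0), .t 1 (nat_lit 0) (.ax 3 4 9 13 0), .t 1 (nat_lit 0) (.ax 3 4 9 22 0), .t 1 (nat_lit 0) (.ax 3 4 10 13 0), .t 1 (nat_lit 0) (.ax 3 4 10 22 0), .t 1 (nat_lit 0) (.ax 3 4 14 22 0), .t 1 (nat_lit 0) (.ax 3 5 6 8 0), .t 1 (nat_lit 0) (.ax 3 5 6 8 1), .t 1 (nat_lit 0) (.ax 3 5 6 8 4), .t 1 (nat_lit 0) (.ax 3 5 6 8 5), .t 1 (nat_lit 0) (.ax 3 5 6 9 0), .t 1 (nat_lit 0) (.ax 3 5 6 9 1), .t 1 (nat_lit 0) (.ax 3 5 6 9 4), .t 1 (nat_lit 0) (.ax 3 5 6 9 5), .t 1 (nat_lit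 0) (.ax 3 5 6 10 0), .t 1 (nat_lit 0) (.ax 3 5 6 10 5), .t 1 (nat_lit 0) (.ax 3 5 8 10 3), .t 1 (nat_lit 0) (.ax 3 5 8 10 7), .t 1 (nat_lit 0) (.ax 3 5 8 14 3), .t 1 (nat_lit 0) (.ax 3 5 8 16 1), .t 1 (nat_lit 0) (.ax 3 5 8 21 3), .t 1 (nat_lit 0) (.ax 3 5 8 22 3), .t 1 (nat_lit 0) (.ax 3 5 8 22 5), .t 1 (nat_lit 0) (.ax 3 5 9 10 4), .t 1 (nat_lit 0) (.ax 3 5 9 13 5)] (by decide +kernel) (by decide +kernel)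
theorem b18 : B 576 608 := Blk.of_chk [.t 1 (nat_lit 0) (.ax 3 5 9 21 3), .t 1 (nat_lit 0) (.ax 3 5 9 22 5), .t 1 (nat_lit 0) (.ax 3 5 10 11 3), .t 1 (nat_lit 0) (.ax 3 5 10 21 3), .t 1 (nat_lit 0) (.ax 3 5 10 22 3), .t 1 (nat_lit 0) (.ax 3 5 13 22 4), .t 1 (nat_lit 0) (.ax 3 6 8 22 5), .t 1 (nat_lit 0) (.ax 3 6 9 19 4), .t 1 (nat_lit 0) (.ax 3 6 9 19 6), .t 1 (nat_lit 0) (.ax 3 6 9 21 3), .t 1 (nat_lit 0) (.ax 3 6 9 22 5), .t 1 (nat_lit 0) (.ax 3 6 10 14 7), .t 1 (nat_lit 0) (.ax 3 6 10 21 3), .t 1 (nat_lit 0) (.ax 3 6 10 22 3), .t 1 (nat_lit 0) (.ax 3 6 10 22 5), .t 1 (nat_lit 0) (.ax 3 6 13 15 4), .t 1 (nat_lit 0) (.ax 3 6 13 22 4), .t 1 (nat_lit 0) (.ax 3 6 14 21 3), .t 1 (nat_lit 0) (.ax 3 6 14 22 3), .t 1 (nat_lit 0) (.ax 3 7 8 10 0), .t 1 (nat_lit 0) (.ax 3 7 9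 10 0), .t 1 (nat_lit 0) (.ax 3 7 9 12 0), .t 1 (nat_lit 0) (.ax 3 7 9 13 0), .t 1 (nat_lit 0) (.ax 3 7 11 15 0), .t 1 (nat_lit 0) (.ax 3 7 11 19 0), .t 1 (nat_lit 0) (.ax 3 7 11 22 0), .t 1 (nat_lit 0) (.ax 3 8 9 10 0), .t 1 (nat_lit 0) (.ax 3 8 10 22 5), .t 1 (nat_lit 0) (.ax 3 8 13 14 4), .t 1 (nat_lit 0) (.ax 3 8 14 16 1), .t 1 (nat_lit 0) (.ax 3 8 21 22 5), .t 1 (nat_lit 0) (.ax 3 9 10 19 0)] (by decide +kernel) (by decide +kernel)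
theorem b19 : B 608 640 := Blk.of_chk [.t 1 (nat_lit 0) (.ax 3 9 10 19 6), .t 1 (nat_lit 0) (.ax 3 9 11 19 4), .t 1 (nat_lit 0) (.ax 3 9 12 19 4), .t 1 (nat_lit 0) (.ax 3 9 13 19 4), .t 1 (nat_lit 0) (.ax 3 9 14 16 1), .t 1 (nat_lit 0) (.ax 3 9 18 19 4), .t 1 (nat_lit 0) (.ax 3 9 21 22 5), .t 1 (nat_lit 0) (.ax 3 10 13 19 4), .t 1 (nat_lit 0) (.ax 3 10 14 19 4), .t 1 (nat_lit 0) (.ax 3 10 21 22 5), .t 1 (nat_lit 0) (.ax 3 11 13 15 0), .t 1 (nat_lit 0) (.ax 3 11 13 22 0), .t 1 (nat_lit 0) (.ax 3 14 16 19 4), .t 1 (nat_lit 0) (.ax 3 14 21 22 5), .t 1 (nat_lit 0) (.ax 4 5 6 7 4), .t 1 (nat_lit 0) (.ax 4 5 6 8 4), .t 1 (nat_lit 0) (.ax 4 5 6 8 5), .t 1 (nat_lit 0) (.ax 4 5 6 9 0), .t 1 (nat_lit 0) (.ax 4 5 6 9 2), .t 1 (nat_lit 0) (.ax 4 5 6 9 4), .t 1 (nat_lit 0) (.ax 4 5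 6 9 5), .t 1 (nat_lit 0) (.ax 4 5 6 10 2), .t 1 (nat_lit 0) (.ax 4 5 6 10 5), .t 1 (nat_lit 0) (.ax 4 5 6 10 6), .t 1 (nat_lit 0) (.ax 4 5 6 13 0), .t 1 (nat_lit 0) (.ax 4 5 6 13 2), .t 1 (nat_lit 0) (.ax 4 5 6 13 6), .t 1 (nat_lit 0) (.ax 4 5 6 13 7), .t 1 (nat_lit 0) (.ax 4 5 6 19 4), .t 1 (nat_lit 0) (.ax 4 5 6 22 0), .t 1 (nat_lit 0) (.ax 4 5 6 22 6), .t 1 (nat_lit 0) (.ax 4 5 6 22 7)] (by decide +kernel) (by decide +kernel)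
theorem b20 : B 640 672 := Blk.of_chk [.t 1 (nat_lit 0) (.ax 4 5 7 8 3), .t 1 (nat_lit 0) (.ax 4 5 7 9 3), .t 1 (nat_lit 0) (.ax 4 5 7 10 3), .t 1 (nat_lit 0) (.ax 4 5 7 12 3), .t 1 (nat_lit 0) (.ax 4 5 7 13 3), .t 1 (nat_lit 0) (.ax 4 5 7 15 3), .t 1 (nat_lit 0) (.ax 4 5 7 16 3), .t 1 (nat_lit 0) (.ax 4 5 7 19 3), .t 1 (nat_lit 0) (.ax 4 5 7 21 3), .t 1 (nat_lit 0) (.ax 4 5 7 22 3), .t 1 (nat_lit 0) (.ax 4 5 8 9 7), .t 1 (nat_lit 0) (.ax 4 5 8 10 1), .t 1 (nat_lit 0) (.ax 4 5 8 10 4), .t 1 (nat_lit 0) (.ax 4 5 8 10 6), .t 1 (nat_lit 0) (.ax 4 5 8 13 1), .t 1 (nat_lit 0) (.ax 4 5 8 13 3), .t 1 (nat_lit 0) (.ax 4 5 8 13 6), .t 1 (nat_lit 0) (.ax 4 5 8 13 7), .t 1 (nat_lit 0) (.ax 4 5 8 14 3), .t 1 (nat_lit 0) (.ax 4 5 8 14 6), .t 1 (nat_lit 0) (.ax 4 5 8 16 1), .t 1 (nat_lit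 0) (.ax 4 5 8 16 3), .t 1 (nat_lit 0) (.ax 4 5 8 21 3), .t 1 (nat_lit 0) (.ax 4 5 8 21 5), .t 1 (nat_lit 0) (.ax 4 5 8 22 0), .t 1 (nat_lit 0) (.ax 4 5 8 22 6), .t 1 (nat_lit 0) (.ax 4 5 8 22 7), .t 1 (nat_lit 0) (.ax 4 5 9 10 2), .t 1 (nat_lit 0) (.ax 4 5 9 10 6), .t 1 (nat_lit 0) (.ax 4 5 9 11 2), .t 1 (nat_lit 0) (.ax 4 5 9 11 6), .t 1 (nat_lit 0) (.ax 4 5 9 13 0)] (by decide +kernel) (by decide +kernel)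
theorem b21 : B 672 704 := Blk.of_chk [.t 1 (nat_lit 0) (.ax 4 5 9 13 1), .t 1 (nat_lit 0) (.ax 4 5 9 13 4), .t 1 (nat_lit 0) (.ax 4 5 9 13 6), .t 1 (nat_lit 0) (.ax 4 5 9 13 7), .t 1 (nat_lit 0) (.ax 4 5 9 18 2), .t 1 (nat_lit 0) (.ax 4 5 9 22 0), .t 1 (nat_lit 0) (.ax 4 5 9 22 1), .t 1 (nat_lit 0) (.ax 4 5 9 22 3), .t 1 (nat_lit 0) (.ax 4 5 9 22 5), .t 1 (nat_lit 0) (.ax 4 5 9 22 7), .t 1 (nat_lit 0) (.ax 4 5 10 13 1), .t 1 (nat_lit 0) (.ax 4 5 10 13 6), .t 1 (nat_lit 0) (.ax 4 5 10 13 7), .t 1 (nat_lit 0) (.ax 4 5 10 19 2), .t 1 (nat_lit 0) (.ax 4 5 10 19 3), .t 1 (nat_lit 0) (.ax 4 5 10 22 1), .t 1 (nat_lit 0) (.ax 4 5 10 22 3), .t 1 (nat_lit 0) (.ax 4 5 10 22 4), .t 1 (nat_lit 0) (.ax 4 5 10 22 5), .t 1 (nat_lit 0) (.ax 4 5 10 22 6), .t 1 (nat_lit 0) (.ax 4 5 10 22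 7), .t 1 (nat_lit 0) (.ax 4 5 11 13 4), .t 1 (nat_lit 0) (.ax 4 5 12 13 4), .t 1 (nat_lit 0) (.ax 4 5 13 19 4), .t 1 (nat_lit 0) (.ax 4 5 13 22 4), .t 1 (nat_lit 0) (.ax 4 5 14 19 0), .t 1 (nat_lit 0) (.ax 4 5 14 19 2), .t 1 (nat_lit 0) (.ax 4 5 14 22 1), .t 1 (nat_lit 0) (.ax 4 5 18 21 2), .t 1 (nat_lit 0) (.ax 4 5 18 21 4), .t 1 (nat_lit 0) (.ax 4 5 18 22 0), .t 1 (nat_lit 0) (.ax 4 5 18 22 7)] (by decide +kernel) (by decide +kernel)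
theorem b22 : B 704 736 := Blk.of_chk [.t 1 (nat_lit 0) (.ax 4 5 21 22 5), .t 1 (nat_lit 0) (.ax 4 6 7 8 3), .t 1 (nat_lit 0) (.ax 4 6 7 9 3), .t 1 (nat_lit 0) (.ax 4 6 7 10 3), .t 1 (nat_lit 0) (.ax 4 6 7 12 3), .t 1 (nat_lit 0) (.ax 4 6 7 13 3), .t 1 (nat_lit 0) (.ax 4 6 7 15 3), .t 1 (nat_lit 0) (.ax 4 6 7 16 3), .t 1 (nat_lit 0) (.ax 4 6 7 19 3), .t 1 (nat_lit 0) (.ax 4 6 7 21 3), .t 1 (nat_lit 0) (.ax 4 6 7 22 3), .t 1 (nat_lit 0) (.ax 4 6 8 9 1), .t 1 (nat_lit 0) (.ax 4 6 8 9 6), .t 1 (nat_lit 0) (.ax 4 6 8 9 7), .t 1 (nat_lit 0) (.ax 4 6 8 10 3), .t 1 (nat_lit 0) (.ax 4 6 8 13 1), .t 1 (nat_lit 0) (.ax 4 6 8 13 3), .t 1 (nat_lit 0) (.ax 4 6 8 13 6), .t 1 (nat_lit 0) (.ax 4 6 8 13 7), .t 1 (nat_lit 0) (.ax 4 6 8 21 3), .t 1 (nat_lit 0) (.ax 4 6 8 22 0), .t 1 (nat_lit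 0) (.ax 4 6 8 22 1), .t 1 (nat_lit 0) (.ax 4 6 8 22 6), .t 1 (nat_lit 0) (.ax 4 6 8 22 7), .t 1 (nat_lit 0) (.ax 4 6 9 10 3), .t 1 (nat_lit 0) (.ax 4 6 9 10 6), .t 1 (nat_lit 0) (.ax 4 6 9 11 2), .t 1 (nat_lit 0) (.ax 4 6 9 11 6), .t 1 (nat_lit 0) (.ax 4 6 9 13 1), .t 1 (nat_lit 0) (.ax 4 6 9 13 6), .t 1 (nat_lit 0) (.ax 4 6 9 13 7), .t 1 (nat_lit 0) (.ax 4 6 9 14 2)] (by decide +kernel) (by decide +kernel)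
theorem b23 : B 736 768 := Blk.of_chk [.t 1 (nat_lit 0) (.ax 4 6 9 18 2), .t 1 (nat_lit 0) (.ax 4 6 9 19 2), .t 1 (nat_lit 0) (.ax 4 6 9 21 3), .t 1 (nat_lit 0) (.ax 4 6 9 22 0), .t 1 (nat_lit 0) (.ax 4 6 9 22 1), .t 1 (nat_lit 0) (.ax 4 6 9 22 3), .t 1 (nat_lit 0) (.ax 4 6 9 22 5), .t 1 (nat_lit 0) (.ax 4 6 9 22 6), .t 1 (nat_lit 0) (.ax 4 6 9 22 7), .t 1 (nat_lit 0) (.ax 4 6 10 11 2), .t 1 (nat_lit 0) (.ax 4 6 10 12 2), .t 1 (nat_lit 0) (.ax 4 6 10 13 1), .t 1 (nat_lit 0) (.ax 4 6 10 13 2), .t 1 (nat_lit 0) (.ax 4 6 10 13 4), .t 1 (nat_lit 0) (.ax 4 6 10 13 6), .t 1 (nat_lit 0) (.ax 4 6 10 13 7), .t 1 (nat_lit 0) (.ax 4 6 10 19 3), .t 1 (nat_lit 0) (.ax 4 6 10 21 3), .t 1 (nat_lit 0) (.ax 4 6 10 22 0), .t 1 (nat_lit 0) (.ax 4 6 10 22 1), .t 1 (nat_lit 0) (.ax 4 6 10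 22 3), .t 1 (nat_lit 0) (.ax 4 6 10 22 6), .t 1 (nat_lit 0) (.ax 4 6 11 13 4), .t 1 (nat_lit 0) (.ax 4 6 13 19 4), .t 1 (nat_lit 0) (.ax 4 6 13 22 4), .t 1 (nat_lit 0) (.ax 4 6 14 22 1), .t 1 (nat_lit 0) (.ax 4 6 17 19 2), .t 1 (nat_lit 0) (.ax 4 6 17 19 4), .t 1 (nat_lit 0) (.ax 4 6 17 22 7), .t 1 (nat_lit 0) (.ax 4 6 18 22 0), .t 1 (nat_lit 0) (.ax 4 6 18 22 1), .t 1 (nat_lit 0) (.ax 4 7 8 9 0)] (by decide +kernel) (by decide +kernel)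
theorem b24 : B 768 800 := Blk.of_chk [.t 1 (nat_lit 0) (.ax 4 7 8 10 0), .t 1 (nat_lit 0) (.ax 4 7 8 13 0), .t 1 (nat_lit 0) (.ax 4 7 8 16 0), .t 1 (nat_lit 0) (.ax 4 7 9 10 0), .t 1 (nat_lit 0) (.ax 4 7 9 12 0), .t 1 (nat_lit 0) (.ax 4 7 9 13 0), .t 1 (nat_lit 0) (.ax 4 7 9 16 0), .t 1 (nat_lit 0) (.ax 4 7 9 18 0), .t 1 (nat_lit 0) (.ax 4 7 9 22 0), .t 1 (nat_lit 0) (.ax 4 7 10 13 0), .t 1 (nat_lit 0) (.ax 4 7 10 22 0), .t 1 (nat_lit 0) (.ax 4 7 11 14 0), .t 1 (nat_lit 0) (.ax 4 7 11 15 0), .t 1 (nat_lit 0) (.ax 4 7 11 16 0), .t 1 (nat_lit 0) (.ax 4 7 11 17 0), .t 1 (nat_lit 0) (.ax 4 7 11 18 0), .t 1 (nat_lit 0) (.ax 4 7 11 19 0), .t 1 (nat_lit 0) (.ax 4 7 11 20 0), .t 1 (nat_lit 0) (.ax 4 7 11 21 0), .t 1 (nat_lit 0) (.ax 4 7 11 22 0), .t 1 (nat_lit 0) (.ax 4 7 12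 13 0), .t 1 (nat_lit 0) (.ax 4 7 14 16 0), .t 1 (nat_lit 0) (.ax 4 7 14 22 0), .t 1 (nat_lit 0) (.ax 4 8 9 10 0), .t 1 (nat_lit 0) (.ax 4 8 9 10 1), .t 1 (nat_lit 0) (.ax 4 8 9 10 2), .t 1 (nat_lit 0) (.ax 4 8 9 10 4), .t 1 (nat_lit 0) (.ax 4 8 9 13 0), .t 1 (nat_lit 0) (.ax 4 8 9 13 1), .t 1 (nat_lit 0) (.ax 4 8 9 13 5), .t 1 (nat_lit 0) (.ax 4 8 9 13 6), .t 1 (nat_lit 0) (.ax 4 8 9 13 7)] (by decide +kernel) (by decide +kernel)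
theorem b25 : B 800 832 := Blk.of_chk [.t 1 (nat_lit 0) (.ax 4 8 9 16 5), .t 1 (nat_lit 0) (.ax 4 8 9 22 0), .t 1 (nat_lit 0) (.ax 4 8 10 11 1), .t 1 (nat_lit 0) (.ax 4 8 10 12 2), .t 1 (nat_lit 0) (.ax 4 8 10 13 0), .t 1 (nat_lit 0) (.ax 4 8 10 13 1), .t 1 (nat_lit 0) (.ax 4 8 10 13 5), .t 1 (nat_lit 0) (.ax 4 8 10 13 6), .t 1 (nat_lit 0) (.ax 4 8 10 13 7), .t 1 (nat_lit 0) (.ax 4 8 10 16 3), .t 1 (nat_lit 0) (.ax 4 8 10 16 5), .t 1 (nat_lit 0) (.ax 4 8 10 16 6), .t 1 (nat_lit 0) (.ax 4 8 10 19 3), .t 1 (nat_lit 0) (.ax 4 8 10 21 5), .t 1 (nat_lit 0) (.ax 4 8 10 22 0), .t 1 (nat_lit 0) (.ax 4 8 10 22 7), .t 1 (nat_lit 0) (.ax 4 8 11 13 4), .t 1 (nat_lit 0) (.ax 4 8 13 14 4), .t 1 (nat_lit 0) (.ax 4 8 13 16 4), .t 1 (nat_lit 0) (.ax 4 8 14 16 1), .t 1 (nat_lit 0) (.ax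 4 8 14 22 0), .t 1 (nat_lit 0) (.ax 4 8 21 22 5), .t 1 (nat_lit 0) (.ax 4 9 10 11 2), .t 1 (nat_lit 0) (.ax 4 9 10 11 3), .t 1 (nat_lit 0) (.ax 4 9 10 12 2), .t 1 (nat_lit 0) (.ax 4 9 10 13 0), .t 1 (nat_lit 0) (.ax 4 9 10 13 1), .t 1 (nat_lit 0) (.ax 4 9 10 13 6), .t 1 (nat_lit 0) (.ax 4 9 10 13 7), .t 1 (nat_lit 0) (.ax 4 9 10 14 3), .t 1 (nat_lit 0) (.ax 4 9 10 15 0), .t 1 (nat_lit 0) (.ax 4 9 10 16 1)] (by decide +kernel) (by decide +kernel)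
theorem b26 : B 832 864 := Blk.of_chk [.t 1 (nat_lit 0) (.ax 4 9 10 16 2), .t 1 (nat_lit 0) (.ax 4 9 10 16 3), .t 1 (nat_lit 0) (.ax 4 9 10 17 3), .t 1 (nat_lit 0) (.ax 4 9 10 19 0), .t 1 (nat_lit 0) (.ax 4 9 10 19 1), .t 1 (nat_lit 0) (.ax 4 9 10 19 2), .t 1 (nat_lit 0) (.ax 4 9 10 19 3), .t 1 (nat_lit 0) (.ax 4 9 10 19 6), .t 1 (nat_lit 0) (.ax 4 9 10 20 1), .t 1 (nat_lit 0) (.ax 4 9 10 20 3), .t 1 (nat_lit 0) (.ax 4 9 10 22 0), .t 1 (nat_lit 0) (.ax 4 9 10 22 1), .t 1 (nat_lit 0) (.ax 4 9 10 22 4), .t 1 (nat_lit 0) (.ax 4 9 10 22 6), .t 1 (nat_lit 0) (.ax 4 9 10 22 7), .t 1 (nat_lit 0) (.ax 4 9 11 13 4), .t 1 (nat_lit 0) (.ax 4 9 11 22 4), .t 1 (nat_lit 0) (.ax 4 9 12 13 4), .t 1 (nat_lit 0) (.ax 4 9 12 19 4), .t 1 (nat_lit 0) (.ax 4 9 13 14 4), .t 1 (nat_lit 0) (.ax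 4 9 13 15 4), .t 1 (nat_lit 0) (.ax 4 9 13 16 4), .t 1 (nat_lit 0) (.ax 4 9 13 19 4), .t 1 (nat_lit 0) (.ax 4 9 13 22 4), .t 1 (nat_lit 0) (.ax 4 9 14 16 1), .t 1 (nat_lit 0) (.ax 4 9 14 19 2), .t 1 (nat_lit 0) (.ax 4 9 14 22 0), .t 1 (nat_lit 0) (.ax 4 9 14 22 1), .t 1 (nat_lit 0) (.ax 4 9 14 22 4), .t 1 (nat_lit 0) (.ax 4 9 14 22 7), .t 1 (nat_lit 0) (.ax 4 9 16 22 4), .t 1 (nat_lit 0) (.ax 4 9 18 22 4)] (by decide +kernel) (by decide +kernel)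
theorem b27 : B 864 896 := Blk.of_chk [.t 1 (nat_lit 0) (.ax 4 9 18 22 6), .t 1 (nat_lit 0) (.ax 4 9 19 22 4), .t 1 (nat_lit 0) (.ax 4 9 20 22 4), .t 1 (nat_lit 0) (.ax 4 9 21 22 5), .t 1 (nat_lit 0) (.ax 4 10 11 13 4), .t 1 (nat_lit 0) (.ax 4 10 11 13 6), .t 1 (nat_lit 0) (.ax 4 10 11 16 4), .t 1 (nat_lit 0) (.ax 4 10 11 22 4), .t 1 (nat_lit 0) (.ax 4 10 12 13 4), .t 1 (nat_lit 0) (.ax 4 10 13 14 4), .t 1 (nat_lit 0) (.ax 4 10 13 16 4), .t 1 (nat_lit 0) (.ax 4 10 13 17 4), .t 1 (nat_lit 0) (.ax 4 10 13 19 4), .t 1 (nat_lit 0) (.ax 4 10 13 20 4), .t 1 (nat_lit 0) (.ax 4 10 13 21 4), .t 1 (nat_lit 0) (.ax 4 10 13 22 4), .t 1 (nat_lit 0) (.ax 4 10 14 16 2), .t 1 (nat_lit 0) (.ax 4 10 14 17 2), .t 1 (nat_lit 0) (.ax 4 10 14 19 0), .t 1 (nat_lit 0) (.ax 4 10 14 22 0), .t 1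 (nat_lit 0) (.ax 4 10 14 22 1), .t 1 (nat_lit 0) (.ax 4 10 14 22 7), .t 1 (nat_lit 0) (.ax 4 10 15 16 4), .t 1 (nat_lit 0) (.ax 4 10 16 19 4), .t 1 (nat_lit 0) (.ax 4 10 16 22 4), .t 1 (nat_lit 0) (.ax 4 10 18 22 1), .t 1 (nat_lit 0) (.ax 4 10 19 22 4), .t 1 (nat_lit 0) (.ax 4 10 21 22 5), .t 1 (nat_lit 0) (.ax 4 11 13 14 0), .t 1 (nat_lit 0) (.ax 4 11 13 15 0), .t 1 (nat_lit 0) (.ax 4 11 13 17 0), .t 1 (nat_lit 0) (.ax 4 11 13 18 0)] (by decide +kernel) (by decide +kernel)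
theorem b28 : B 896 928 := Blk.of_chk [.t 1 (nat_lit 0) (.ax 4 11 13 19 0), .t 1 (nat_lit 0) (.ax 4 11 13 20 0), .t 1 (nat_lit 0) (.ax 4 11 13 21 0), .t 1 (nat_lit 0) (.ax 4 11 13 22 0), .t 1 (nat_lit 0) (.ax 4 11 14 19 0), .t 1 (nat_lit 0) (.ax 4 11 14 22 0), .t 1 (nat_lit 0) (.ax 4 11 15 16 0), .t 1 (nat_lit 0) (.ax 4 11 17 19 0), .t 1 (nat_lit 0) (.ax 4 11 18 19 0), .t 1 (nat_lit 0) (.ax 4 11 18 22 0), .t 1 (nat_lit 0) (.ax 4 12 13 14 4), .t 1 (nat_lit 0) (.ax 4 12 13 18 4), .t 1 (nat_lit 0) (.ax 4 12 13 22 4), .t 1 (nat_lit 0) (.ax 4 12 14 22 2), .t 1 (nat_lit 0) (.ax 4 12 18 22 2), .t 1 (nat_lit 0) (.ax 4 13 16 22 0), .t 1 (nat_lit 0) (.ax 4 14 16 19 4), .t 1 (nat_lit 0) (.ax 4 14 16 22 4), .t 1 (nat_lit 0) (.ax 4 14 17 20 2), .t 1 (nat_lit 0) (.ax 4 14 17 22 0),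 .t 1 (nat_lit 0) (.ax 4 14 17 22 4), .t 1 (nat_lit 0) (.ax 4 14 17 22 7), .t 1 (nat_lit 0) (.ax 4 14 18 20 2), .t 1 (nat_lit 0) (.ax 4 14 18 22 0), .t 1 (nat_lit 0) (.ax 4 14 18 22 7), .t 1 (nat_lit 0) (.ax 4 14 19 22 4), .t 1 (nat_lit 0) (.ax 4 14 21 22 5), .t 1 (nat_lit 0) (.ax 4 15 16 17 4), .t 1 (nat_lit 0) (.ax 4 15 16 22 4), .t 1 (nat_lit 0) (.ax 4 15 17 22 2), .t 1 (nat_lit 0) (.ax 4 17 19 22 4), .t 1 (nat_lit 0) (.ax 4 17 20 22 4)] (by decide +kernel) (by decide +kernel)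
theorem b29 : B 928 960 := Blk.of_chk [.t 1 (nat_lit 0) (.ax 4 18 19 22 4), .t 1 (nat_lit 0) (.ax 4 18 20 22 4), .t 1 (nat_lit 0) (.ax 5 6 7 8 1), .t 1 (nat_lit 0) (.ax 5 6 7 8 2), .t 1 (nat_lit 0) (.ax 5 6 7 8 4), .t 1 (nat_lit 0) (.ax 5 6 7 9 1), .t 1 (nat_lit 0) (.ax 5 6 7 9 4), .t 1 (nat_lit 0) (.ax 5 6 7 10 1), .t 1 (nat_lit 0) (.ax 5 6 7 10 4), .t 1 (nat_lit 0) (.ax 5 6 8 9 1), .t 1 (nat_lit 0) (.ax 5 6 8 9 4), .t 1 (nat_lit 0) (.ax 5 6 8 10 1), .t 1 (nat_lit 0) (.ax 5 6 8 10 4), .t 1 (nat_lit 0) (.ax 5 6 8 16 0), .t 1 (nat_lit 0) (.ax 5 6 9 10 3), .t 1 (nat_lit 0) (.ax 5 6 9 10 4), .t 1 (nat_lit 0) (.ax 5 6 9 10 5), .t 1 (nat_lit 0) (.ax 5 6 9 10 6), .t 1 (nat_lit 0) (.ax 5 6 9 10 7), .t 1 (nat_lit 0) (.ax 5 6 9 13 4), .t 1 (nat_lit 0) (.ax 5 6 9 19 2), .t 1 (nat_lit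 0) (.ax 5 6 9 21 6), .t 1 (nat_lit 0) (.ax 5 6 10 13 4), .t 1 (nat_lit 0) (.ax 5 6 10 21 6), .t 1 (nat_lit 0) (.ax 5 6 21 22 5), .t 1 (nat_lit 0) (.ax 5 6 21 22 7), .t 1 (nat_lit 0) (.ax 5 7 8 9 0), .t 1 (nat_lit 0) (.ax 5 7 8 9 2), .t 1 (nat_lit 0) (.ax 5 7 8 9 4), .t 1 (nat_lit 0) (.ax 5 7 8 10 0), .t 1 (nat_lit 0) (.ax 5 7 8 10 2), .t 1 (nat_lit 0) (.ax 5 7 8 10 4)] (by decide +kernel) (by decide +kernel)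
theorem b30 : B 960 992 := Blk.of_chk [.t 1 (nat_lit 0) (.ax 5 7 9 10 0), .t 1 (nat_lit 0) (.ax 5 7 9 10 5), .t 1 (nat_lit 0) (.ax 5 7 9 12 0), .t 1 (nat_lit 0) (.ax 5 7 9 13 0), .t 1 (nat_lit 0) (.ax 5 7 9 16 0), .t 1 (nat_lit 0) (.ax 5 7 9 19 0), .t 1 (nat_lit 0) (.ax 5 7 9 21 0), .t 1 (nat_lit 0) (.ax 5 7 10 13 0), .t 1 (nat_lit 0) (.ax 5 7 10 16 0), .t 1 (nat_lit 0) (.ax 5 7 10 19 0), .t 1 (nat_lit 0) (.ax 5 7 10 21 0), .t 1 (nat_lit 0) (.ax 5 7 11 16 0), .t 1 (nat_lit 0) (.ax 5 7 11 19 0), .t 1 (nat_lit 0) (.ax 5 7 11 21 0), .t 1 (nat_lit 0) (.ax 5 7 11 22 0), .t 1 (nat_lit 0) (.ax 5 7 14 16 0), .t 1 (nat_lit 0) (.ax 5 8 9 10 0), .t 1 (nat_lit 0) (.ax 5 8 9 10 2), .t 1 (nat_lit 0) (.ax 5 8 9 10 4), .t 1 (nat_lit 0) (.ax 5 8 9 10 5), .t 1 (nat_lit 0) (.ax 5 8 9 16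 3), .t 1 (nat_lit 0) (.ax 5 8 9 22 0), .t 1 (nat_lit 0) (.ax 5 8 10 13 5), .t 1 (nat_lit 0) (.ax 5 8 10 19 2), .t 1 (nat_lit 0) (.ax 5 8 10 21 0), .t 1 (nat_lit 0) (.ax 5 8 13 16 4), .t 1 (nat_lit 0) (.ax 5 8 13 22 4), .t 1 (nat_lit 0) (.ax 5 8 14 16 1), .t 1 (nat_lit 0) (.ax 5 8 14 21 0), .t 1 (nat_lit 0) (.ax 5 9 10 16 1), .t 1 (nat_lit 0) (.ax 5 9 10 16 5), .t 1 (nat_lit 0) (.ax 5 9 10 16 7)] (by decide +kernel) (by decide +kernel)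
theorem b31 : B 992 1024 := Blk.of_chk [.t 1 (nat_lit 0) (.ax 5 9 10 19 0), .t 1 (nat_lit 0) (.ax 5 9 10 19 1), .t 1 (nat_lit 0) (.ax 5 9 10 19 4), .t 1 (nat_lit 0) (.ax 5 9 10 19 7), .t 1 (nat_lit 0) (.ax 5 9 10 20 0), .t 1 (nat_lit 0) (.ax 5 9 10 20 1), .t 1 (nat_lit 0) (.ax 5 9 10 21 0), .t 1 (nat_lit 0) (.ax 5 9 10 21 1), .t 1 (nat_lit 0) (.ax 5 9 10 22 4), .t 1 (nat_lit 0) (.ax 5 9 11 22 4), .t 1 (nat_lit 0) (.ax 5 9 12 14 4), .t 1 (nat_lit 0) (.ax 5 9 12 19 4), .t 1 (nat_lit 0) (.ax 5 9 13 19 4), .t 1 (nat_lit 0) (.ax 5 9 13 20 4), .t 1 (nat_lit 0) (.ax 5 9 13 21 4), .t 1 (nat_lit 0) (.ax 5 9 14 19 1), .t 1 (nat_lit 0) (.ax 5 9 14 21 2), .t 1 (nat_lit 0) (.ax 5 9 16 19 4), .t 1 (nat_lit 0) (.ax 5 9 16 21 4), .t 1 (nat_lit 0) (.ax 5 9 18 22 4), .t 1 (nat_lit 0) (.ax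 5 9 19 21 4), .t 1 (nat_lit 0) (.ax 5 9 20 21 4), .t 1 (nat_lit 0) (.ax 5 9 21 22 5), .t 1 (nat_lit 0) (.ax 5 10 11 14 4), .t 1 (nat_lit 0) (.ax 5 10 11 16 4), .t 1 (nat_lit 0) (.ax 5 10 11 17 4), .t 1 (nat_lit 0) (.ax 5 10 13 16 4), .t 1 (nat_lit 0) (.ax 5 10 13 19 4), .t 1 (nat_lit 0) (.ax 5 10 13 19 6), .t 1 (nat_lit 0) (.ax 5 10 13 20 4), .t 1 (nat_lit 0) (.ax 5 10 13 21 4), .t 1 (nat_lit 0) (.ax 5 10 14 21 0)] (by decide +kernel) (by decide +kernel)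
theorem b32 : B 1024 1056 := Blk.of_chk [.t 1 (nat_lit 0) (.ax 5 10 16 19 4), .t 1 (nat_lit 0) (.ax 5 10 16 21 4), .t 1 (nat_lit 0) (.ax 5 10 19 21 4), .t 1 (nat_lit 0) (.ax 5 10 20 21 4), .t 1 (nat_lit 0) (.ax 5 10 21 22 5), .t 1 (nat_lit 0) (.ax 5 10 21 22 7), .t 1 (nat_lit 0) (.ax 5 11 13 19 0), .t 1 (nat_lit 0) (.ax 5 11 13 21 0), .t 1 (nat_lit 0) (.ax 5 11 13 22 0), .t 1 (nat_lit 0) (.ax 5 11 14 19 0), .t 1 (nat_lit 0) (.ax 5 11 15 16 0), .t 1 (nat_lit 0) (.ax 5 12 13 14 4), .t 1 (nat_lit 0) (.ax 5 12 13 22 4), .t 1 (nat_lit 0) (.ax 5 12 14 21 2), .t 1 (nat_lit 0) (.ax 5 13 16 21 0), .t 1 (nat_lit 0) (.ax 5 13 16 22 0), .t 1 (nat_lit 0) (.ax 5 14 16 19 4), .t 1 (nat_lit 0) (.ax 5 14 16 21 4), .t 1 (nat_lit 0) (.ax 5 14 19 20 4), .t 1 (nat_lit 0) (.ax 5 14 19 21 4),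 .t 1 (nat_lit 0) (.ax 5 14 19 22 4), .t 1 (nat_lit 0) (.ax 5 14 21 22 5), .t 1 (nat_lit 0) (.ax 5 15 16 17 4), .t 1 (nat_lit 0) (.ax 5 15 16 18 4), .t 1 (nat_lit 0) (.ax 5 15 16 22 4), .t 1 (nat_lit 0) (.ax 5 15 17 22 2), .t 1 (nat_lit 0) (.ax 5 15 18 21 2), .t 1 (nat_lit 0) (.ax 5 16 19 21 0), .t 1 (nat_lit 0) (.ax 6 7 8 9 2), .t 1 (nat_lit 0) (.ax 6 7 8 9 4), .t 1 (nat_lit 0) (.ax 6 7 8 10 0), .t 1 (nat_lit 0) (.ax 6 7 8 10 2)] (by decide +kernel) (by decide +kernel)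
theorem b33 : B 1056 1088 := Blk.of_chk [.t 1 (nat_lit 0) (.ax 6 7 8 10 4), .t 1 (nat_lit 0) (.ax 6 7 8 13 0), .t 1 (nat_lit 0) (.ax 6 7 9 10 2), .t 1 (nat_lit 0) (.ax 6 7 9 12 0), .t 1 (nat_lit 0) (.ax 6 7 9 13 0), .t 1 (nat_lit 0) (.ax 6 7 9 16 0), .t 1 (nat_lit 0) (.ax 6 7 9 19 0), .t 1 (nat_lit 0) (.ax 6 7 9 21 0), .t 1 (nat_lit 0) (.ax 6 7 9 21 2), .t 1 (nat_lit 0) (.ax 6 7 10 13 0), .t 1 (nat_lit 0) (.ax 6 7 10 16 0), .t 1 (nat_lit 0) (.ax 6 7 10 19 0), .t 1 (nat_lit 0) (.ax 6 7 11 15 0), .t 1 (nat_lit 0) (.ax 6 7 11 16 0), .t 1 (nat_lit 0) (.ax 6 7 11 19 0), .t 1 (nat_lit 0) (.ax 6 7 11 21 0), .t 1 (nat_lit 0) (.ax 6 7 11 22 0), .t 1 (nat_lit 0) (.ax 6 7 14 16 0), .t 1 (nat_lit 0) (.ax 6 8 9 10 2), .t 1 (nat_lit 0) (.ax 6 8 9 10 4), .t 1 (nat_lit 0) (.ax 6 8 9 13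 5), .t 1 (nat_lit 0) (.ax 6 8 9 22 2), .t 1 (nat_lit 0) (.ax 6 8 10 19 2), .t 1 (nat_lit 0) (.ax 6 8 13 14 4), .t 1 (nat_lit 0) (.ax 6 8 13 18 4), .t 1 (nat_lit 0) (.ax 6 8 13 21 4), .t 1 (nat_lit 0) (.ax 6 8 13 22 4), .t 1 (nat_lit 0) (.ax 6 8 14 16 1), .t 1 (nat_lit 0) (.ax 6 8 14 21 2), .t 1 (nat_lit 0) (.ax 6 8 21 22 5), .t 1 (nat_lit 0) (.ax 6 9 10 11 2), .t 1 (nat_lit 0) (.ax 6 9 10 12 2)] (by decide +kernel) (by decide +kernel)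
theorem b34 : B 1088 1120 := Blk.of_chk [.t 1 (nat_lit 0) (.ax 6 9 10 13 5), .t 1 (nat_lit 0) (.ax 6 9 10 19 0), .t 1 (nat_lit 0) (.ax 6 9 10 19 2), .t 1 (nat_lit 0) (.ax 6 9 10 19 6), .t 1 (nat_lit 0) (.ax 6 9 11 22 4), .t 1 (nat_lit 0) (.ax 6 9 12 13 4), .t 1 (nat_lit 0) (.ax 6 9 12 19 4), .t 1 (nat_lit 0) (.ax 6 9 13 19 4), .t 1 (nat_lit 0) (.ax 6 9 13 21 4), .t 1 (nat_lit 0) (.ax 6 9 13 22 4), .t 1 (nat_lit 0) (.ax 6 9 14 16 1), .t 1 (nat_lit 0) (.ax 6 9 14 21 7), .t 1 (nat_lit 0) (.ax 6 9 16 19 4), .t 1 (nat_lit 0) (.ax 6 9 18 22 4), .t 1 (nat_lit 0) (.ax 6 9 19 21 4), .t 1 (nat_lit 0) (.ax 6 9 19 22 4), .t 1 (nat_lit 0) (.ax 6 9 21 22 5), .t 1 (nat_lit 0) (.ax 6 10 11 13 4), .t 1 (nat_lit 0) (.ax 6 10 13 19 4), .t 1 (nat_lit 0) (.ax 6 10 14 21 0), .t 1 (nat_lit 0)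 (.ax 6 10 16 19 4), .t 1 (nat_lit 0) (.ax 6 10 19 21 4), .t 1 (nat_lit 0) (.ax 6 10 19 22 4), .t 1 (nat_lit 0) (.ax 6 10 21 22 5), .t 1 (nat_lit 0) (.ax 6 11 13 15 0), .t 1 (nat_lit 0) (.ax 6 11 13 19 0), .t 1 (nat_lit 0) (.ax 6 11 13 21 0), .t 1 (nat_lit 0) (.ax 6 11 13 22 0), .t 1 (nat_lit 0) (.ax 6 11 14 19 0), .t 1 (nat_lit 0) (.ax 6 11 15 16 0), .t 1 (nat_lit 0) (.ax 6 11 17 19 0), .t 1 (nat_lit 0) (.ax 6 12 13 14 4)] (by decide +kernel) (by decide +kernel)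
theorem b35 : B 1120 1152 := Blk.of_chk [.t 1 (nat_lit 0) (.ax 6 12 13 18 4), .t 1 (nat_lit 0) (.ax 6 12 13 21 4), .t 1 (nat_lit 0) (.ax 6 12 13 22 4), .t 1 (nat_lit 0) (.ax 6 12 14 21 2), .t 1 (nat_lit 0) (.ax 6 12 14 22 2), .t 1 (nat_lit 0) (.ax 6 12 18 22 2), .t 1 (nat_lit 0) (.ax 6 13 16 21 0), .t 1 (nat_lit 0) (.ax 6 13 16 22 0), .t 1 (nat_lit 0) (.ax 6 14 16 19 4), .t 1 (nat_lit 0) (.ax 6 14 16 21 4), .t 1 (nat_lit 0) (.ax 6 14 19 21 4), .t 1 (nat_lit 0) (.ax 6 14 19 22 4), .t 1 (nat_lit 0) (.ax 6 14 21 22 5), .t 1 (nat_lit 0) (.ax 6 15 16 17 4), .t 1 (nat_lit 0) (.ax 6 15 16 18 4), .t 1 (nat_lit 0) (.ax 6 15 16 21 4), .t 1 (nat_lit 0) (.ax 6 15 16 22 4), .t 1 (nat_lit 0) (.ax 6 15 17 21 2), .t 1 (nat_lit 0) (.ax 6 15 17 22 2), .t 1 (nat_lit 0) (.ax 6 15 18 21 2),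 .t 1 (nat_lit 0) (.ax 6 16 19 21 0), .t 1 (nat_lit 0) (.ax 6 17 19 22 4), .t 1 (nat_lit 0) (.ax 6 19 20 21 0), .t 1 (nat_lit 0) (.ax 7 8 9 10 0), .t 1 (nat_lit 0) (.ax 7 8 9 10 2), .t 1 (nat_lit 0) (.ax 7 8 9 10 3), .t 1 (nat_lit 0) (.ax 7 8 9 10 4), .t 1 (nat_lit 0) (.ax 7 8 9 10 5), .t 1 (nat_lit 0) (.ax 7 8 9 10 7), .t 1 (nat_lit 0) (.ax 7 8 9 11 2), .t 1 (nat_lit 0) (.ax 7 8 9 13 1), .t 1 (nat_lit 0) (.ax 7 8 9 13 3)] (by decide +kernel) (by decide +kernel)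
theorem b36 : B 1152 1184 := Blk.of_chk [.t 1 (nat_lit 0) (.ax 7 8 9 13 4), .t 1 (nat_lit 0) (.ax 7 8 9 13 6), .t 1 (nat_lit 0) (.ax 7 8 9 13 7), .t 1 (nat_lit 0) (.ax 7 8 9 14 3), .t 1 (nat_lit 0) (.ax 7 8 9 16 0), .t 1 (nat_lit 0) (.ax 7 8 9 16 1), .t 1 (nat_lit 0) (.ax 7 8 9 16 3), .t 1 (nat_lit 0) (.ax 7 8 9 16 4), .t 1 (nat_lit 0) (.ax 7 8 9 16 5), .t 1 (nat_lit 0) (.ax 7 8 9 16 6), .t 1 (nat_lit 0) (.ax 7 8 9 16 7), .t 1 (nat_lit 0) (.ax 7 8 9 19 3), .t 1 (nat_lit 0) (.ax 7 8 9 19 7), .t 1 (nat_lit 0) (.ax 7 8 9 20 0), .t 1 (nat_lit 0) (.ax 7 8 9 20 3), .t 1 (nat_lit 0) (.ax 7 8 9 20 7), .t 1 (nat_lit 0) (.ax 7 8 9 21 0), .t 1 (nat_lit 0) (.ax 7 8 9 21 5), .t 1 (nat_lit 0) (.ax 7 8 9 22 0), .t 1 (nat_lit 0) (.ax 7 8 9 22 3), .t 1 (nat_lit 0) (.ax 7 8 10 11 2), .t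 1 (nat_lit 0) (.ax 7 8 10 12 2), .t 1 (nat_lit 0) (.ax 7 8 10 13 0), .t 1 (nat_lit 0) (.ax 7 8 10 13 3), .t 1 (nat_lit 0) (.ax 7 8 10 13 5), .t 1 (nat_lit 0) (.ax 7 8 10 13 6), .t 1 (nat_lit 0) (.ax 7 8 10 13 7), .t 1 (nat_lit 0) (.ax 7 8 10 16 0), .t 1 (nat_lit 0) (.ax 7 8 10 16 1), .t 1 (nat_lit 0) (.ax 7 8 10 16 5), .t 1 (nat_lit 0) (.ax 7 8 10 16 6), .t 1 (nat_lit 0) (.ax 7 8 10 16 7)] (by decide +kernel) (by decide +kernel)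
theorem b37 : B 1184 1216 := Blk.of_chk [.t 1 (nat_lit 0) (.ax 7 8 10 19 2), .t 1 (nat_lit 0) (.ax 7 8 10 19 3), .t 1 (nat_lit 0) (.ax 7 8 10 19 5), .t 1 (nat_lit 0) (.ax 7 8 10 19 7), .t 1 (nat_lit 0) (.ax 7 8 10 20 5), .t 1 (nat_lit 0) (.ax 7 8 10 20 7), .t 1 (nat_lit 0) (.ax 7 8 10 21 0), .t 1 (nat_lit 0) (.ax 7 8 10 21 5), .t 1 (nat_lit 0) (.ax 7 8 10 22 0), .t 1 (nat_lit 0) (.ax 7 8 11 12 3), .t 1 (nat_lit 0) (.ax 7 8 11 14 3), .t 1 (nat_lit 0) (.ax 7 8 11 15 3), .t 1 (nat_lit 0) (.ax 7 8 11 16 3), .t 1 (nat_lit 0) (.ax 7 8 11 17 3), .t 1 (nat_lit 0) (.ax 7 8 11 18 3), .t 1 (nat_lit 0) (.ax 7 8 11 19 3), .t 1 (nat_lit 0) (.ax 7 8 11 20 3), .t 1 (nat_lit 0) (.ax 7 8 11 21 3), .t 1 (nat_lit 0) (.ax 7 8 11 22 3), .t 1 (nat_lit 0) (.ax 7 8 12 16 1), .t 1 (nat_lit 0) (.ax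 7 8 13 16 4), .t 1 (nat_lit 0) (.ax 7 8 13 19 4), .t 1 (nat_lit 0) (.ax 7 8 13 20 4), .t 1 (nat_lit 0) (.ax 7 8 13 21 4), .t 1 (nat_lit 0) (.ax 7 8 14 16 0), .t 1 (nat_lit 0) (.ax 7 8 14 16 1), .t 1 (nat_lit 0) (.ax 7 8 14 16 6), .t 1 (nat_lit 0) (.ax 7 8 14 17 3), .t 1 (nat_lit 0) (.ax 7 8 16 19 4), .t 1 (nat_lit 0) (.ax 7 8 16 20 4), .t 1 (nat_lit 0) (.ax 7 8 20 22 4), .t 1 (nat_lit 0) (.ax 7 8 21 22 5)] (by decide +kernel) (by decide +kernel)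
theorem b38 : B 1216 1248 := Blk.of_chk [.t 1 (nat_lit 0) (.ax 7 9 10 11 2), .t 1 (nat_lit 0) (.ax 7 9 10 12 4), .t 1 (nat_lit 0) (.ax 7 9 10 12 7), .t 1 (nat_lit 0) (.ax 7 9 10 13 2), .t 1 (nat_lit 0) (.ax 7 9 10 13 7), .t 1 (nat_lit 0) (.ax 7 9 10 14 5), .t 1 (nat_lit 0) (.ax 7 9 10 15 1), .t 1 (nat_lit 0) (.ax 7 9 10 15 2), .t 1 (nat_lit 0) (.ax 7 9 10 15 5), .t 1 (nat_lit 0) (.ax 7 9 10 16 0), .t 1 (nat_lit 0) (.ax 7 9 10 16 1), .t 1 (nat_lit 0) (.ax 7 9 10 16 2), .t 1 (nat_lit 0) (.ax 7 9 10 16 4), .t 1 (nat_lit 0) (.ax 7 9 10 16 5), .t 1 (nat_lit 0) (.ax 7 9 10 16 6), .t 1 (nat_lit 0) (.ax 7 9 10 16 7), .t 1 (nat_lit 0) (.ax 7 9 10 17 5), .t 1 (nat_lit 0) (.ax 7 9 10 18 3), .t 1 (nat_lit 0) (.ax 7 9 10 18 5), .t 1 (nat_lit 0) (.ax 7 9 10 18 7), .t 1 (nat_lit 0) (.ax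 7 9 10 19 0), .t 1 (nat_lit 0) (.ax 7 9 10 19 3), .t 1 (nat_lit 0) (.ax 7 9 10 19 4), .t 1 (nat_lit 0) (.ax 7 9 10 19 5), .t 1 (nat_lit 0) (.ax 7 9 10 20 5), .t 1 (nat_lit 0) (.ax 7 9 10 21 0), .t 1 (nat_lit 0) (.ax 7 9 10 21 4), .t 1 (nat_lit 0) (.ax 7 9 10 21 6), .t 1 (nat_lit 0) (.ax 7 9 10 21 7), .t 1 (nat_lit 0) (.ax 7 9 10 22 4), .t 1 (nat_lit 0) (.ax 7 9 10 22 5), .t 1 (nat_lit 0) (.ax 7 9 11 12 3)] (by decide +kernel) (by decide +kernel)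
theorem b39 : B 1248 1280 := Blk.of_chk [.t 1 (nat_lit 0) (.ax 7 9 11 14 3), .t 1 (nat_lit 0) (.ax 7 9 11 15 3), .t 1 (nat_lit 0) (.ax 7 9 11 16 3), .t 1 (nat_lit 0) (.ax 7 9 11 17 3), .t 1 (nat_lit 0) (.ax 7 9 11 18 3), .t 1 (nat_lit 0) (.ax 7 9 11 19 3), .t 1 (nat_lit 0) (.ax 7 9 11 20 3), .t 1 (nat_lit 0) (.ax 7 9 11 21 3), .t 1 (nat_lit 0) (.ax 7 9 11 22 3), .t 1 (nat_lit 0) (.ax 7 9 12 13 4), .t 1 (nat_lit 0) (.ax 7 9 12 16 4), .t 1 (nat_lit 0) (.ax 7 9 12 19 4), .t 1 (nat_lit 0) (.ax 7 9 12 22 4), .t 1 (nat_lit 0) (.ax 7 9 13 14 4), .t 1 (nat_lit 0) (.ax 7 9 13 19 4), .t 1 (nat_lit 0) (.ax 7 9 13 22 4), .t 1 (nat_lit 0) (.ax 7 9 14 16 0), .t 1 (nat_lit 0) (.ax 7 9 14 16 1), .t 1 (nat_lit 0) (.ax 7 9 14 16 6), .t 1 (nat_lit 0) (.ax 7 9 14 16 7), .t 1 (nat_lit 0) (.ax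 7 9 14 17 3), .t 1 (nat_lit 0) (.ax 7 9 14 18 3), .t 1 (nat_lit 0) (.ax 7 9 14 19 3), .t 1 (nat_lit 0) (.ax 7 9 14 20 3), .t 1 (nat_lit 0) (.ax 7 9 14 21 0), .t 1 (nat_lit 0) (.ax 7 9 14 21 4), .t 1 (nat_lit 0) (.ax 7 9 14 21 7), .t 1 (nat_lit 0) (.ax 7 9 14 22 4), .t 1 (nat_lit 0) (.ax 7 9 15 16 4), .t 1 (nat_lit 0) (.ax 7 9 15 19 4), .t 1 (nat_lit 0) (.ax 7 9 15 22 4), .t 1 (nat_lit 0) (.ax 7 9 16 19 4)] (by decide +kernel) (by decide +kernel)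
theorem b40 : B 1280 1312 := Blk.of_chk [.t 1 (nat_lit 0) (.ax 7 9 16 22 4), .t 1 (nat_lit 0) (.ax 7 9 17 19 6), .t 1 (nat_lit 0) (.ax 7 9 17 22 6), .t 1 (nat_lit 0) (.ax 7 9 18 19 4), .t 1 (nat_lit 0) (.ax 7 9 18 22 4), .t 1 (nat_lit 0) (.ax 7 9 18 22 6), .t 1 (nat_lit 0) (.ax 7 9 19 22 4), .t 1 (nat_lit 0) (.ax 7 9 20 21 4), .t 1 (nat_lit 0) (.ax 7 9 20 22 4), .t 1 (nat_lit 0) (.ax 7 9 21 22 5), .t 1 (nat_lit 0) (.ax 7 10 11 12 3), .t 1 (nat_lit 0) (.ax 7 10 11 14 3), .t 1 (nat_lit 0) (.ax 7 10 11 15 3), .t 1 (nat_lit 0) (.ax 7 10 11 16 3), .t 1 (nat_lit 0) (.ax 7 10 11 17 3), .t 1 (nat_lit 0) (.ax 7 10 11 18 3), .t 1 (nat_lit 0) (.ax 7 10 11 19 3), .t 1 (nat_lit 0) (.ax 7 10 11 20 3), .t 1 (nat_lit 0) (.ax 7 10 11 21 3), .t 1 (nat_lit 0) (.ax 7 10 11 22 3), .t 1 (nat_lit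 0) (.ax 7 10 12 13 4), .t 1 (nat_lit 0) (.ax 7 10 12 16 4), .t 1 (nat_lit 0) (.ax 7 10 13 16 4), .t 1 (nat_lit 0) (.ax 7 10 13 18 4), .t 1 (nat_lit 0) (.ax 7 10 13 19 4), .t 1 (nat_lit 0) (.ax 7 10 13 20 4), .t 1 (nat_lit 0) (.ax 7 10 13 22 4), .t 1 (nat_lit 0) (.ax 7 10 14 16 0), .t 1 (nat_lit 0) (.ax 7 10 14 16 2), .t 1 (nat_lit 0) (.ax 7 10 14 16 4), .t 1 (nat_lit 0) (.ax 7 10 14 19 4), .t 1 (nat_lit 0) (.ax 7 10 14 21 0)] (by decide +kernel) (by decide +kernel)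
theorem b41 : B 1312 1344 := Blk.of_chk [.t 1 (nat_lit 0) (.ax 7 10 14 22 4), .t 1 (nat_lit 0) (.ax 7 10 15 16 4), .t 1 (nat_lit 0) (.ax 7 10 15 19 4), .t 1 (nat_lit 0) (.ax 7 10 15 22 4), .t 1 (nat_lit 0) (.ax 7 10 16 19 4), .t 1 (nat_lit 0) (.ax 7 10 17 19 4), .t 1 (nat_lit 0) (.ax 7 10 17 19 6), .t 1 (nat_lit 0) (.ax 7 10 17 22 4), .t 1 (nat_lit 0) (.ax 7 10 18 19 4), .t 1 (nat_lit 0) (.ax 7 10 18 19 6), .t 1 (nat_lit 0) (.ax 7 10 18 22 4), .t 1 (nat_lit 0) (.ax 7 10 19 22 4), .t 1 (nat_lit 0) (.ax 7 10 20 21 4), .t 1 (nat_lit 0) (.ax 7 10 21 22 5), .t 1 (nat_lit 0) (.ax 7 11 13 14 0), .t 1 (nat_lit 0) (.ax 7 11 13 15 0), .t 1 (nat_lit 0) (.ax 7 11 13 17 0), .t 1 (nat_lit 0) (.ax 7 11 13 18 0), .t 1 (nat_lit 0) (.ax 7 11 13 19 0), .t 1 (nat_lit 0) (.ax 7 11 13 20 0),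 .t 1 (nat_lit 0) (.ax 7 11 13 21 0), .t 1 (nat_lit 0) (.ax 7 11 13 22 0), .t 1 (nat_lit 0) (.ax 7 11 15 16 0), .t 1 (nat_lit 0) (.ax 7 11 17 19 0), .t 1 (nat_lit 0) (.ax 7 11 18 19 0), .t 1 (nat_lit 0) (.ax 7 12 13 14 4), .t 1 (nat_lit 0) (.ax 7 12 13 16 4), .t 1 (nat_lit 0) (.ax 7 12 13 18 4), .t 1 (nat_lit 0) (.ax 7 12 13 21 4), .t 1 (nat_lit 0) (.ax 7 12 14 21 2), .t 1 (nat_lit 0) (.ax 7 12 14 22 2), .t 1 (nat_lit 0) (.ax 7 12 18 19 2)] (by decide +kernel) (by decide +kernel)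
theorem b42 : B 1344 1376 := Blk.of_chk [.t 1 (nat_lit 0) (.ax 7 12 18 21 2), .t 1 (nat_lit 0) (.ax 7 12 18 22 2), .t 1 (nat_lit 0) (.ax 7 13 16 17 0), .t 1 (nat_lit 0) (.ax 7 13 16 18 0), .t 1 (nat_lit 0) (.ax 7 13 16 20 0), .t 1 (nat_lit 0) (.ax 7 13 16 21 0), .t 1 (nat_lit 0) (.ax 7 13 16 22 0), .t 1 (nat_lit 0) (.ax 7 14 16 17 4), .t 1 (nat_lit 0) (.ax 7 14 16 18 4), .t 1 (nat_lit 0) (.ax 7 14 16 19 4), .t 1 (nat_lit 0) (.ax 7 14 16 20 4), .t 1 (nat_lit 0) (.ax 7 14 16 21 4), .t 1 (nat_lit 0) (.ax 7 14 16 22 4), .t 1 (nat_lit 0) (.ax 7 14 17 21 0), .t 1 (nat_lit 0) (.ax 7 14 17 22 0), .t 1 (nat_lit 0) (.ax 7 15 16 17 4), .t 1 (nat_lit 0) (.ax 7 15 16 18 4), .t 1 (nat_lit 0) (.ax 7 15 16 21 4), .t 1 (nat_lit 0) (.ax 7 15 17 19 2), .t 1 (nat_lit 0) (.ax 7 15 17 21 2),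 .t 1 (nat_lit 0) (.ax 7 15 17 22 2), .t 1 (nat_lit 0) (.ax 7 15 18 21 2), .t 1 (nat_lit 0) (.ax 7 16 19 21 0), .t 1 (nat_lit 0) (.ax 7 17 18 21 0), .t 1 (nat_lit 0) (.ax 7 17 19 22 4), .t 1 (nat_lit 0) (.ax 7 19 20 21 0), .t 1 (nat_lit 0) (.ax 7 20 21 22 5), .t 1 (nat_lit 0) (.ax 8 9 10 11 0), .t 1 (nat_lit 0) (.ax 8 9 10 11 1), .t 1 (nat_lit 0) (.ax 8 9 10 11 5), .t 1 (nat_lit 0) (.ax 8 9 10 11 7), .t 1 (nat_lit 0) (.ax 8 9 10 12 0)] (by decide +kernel) (by decide +kernel)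
theorem b43 : B 1376 1408 := Blk.of_chk [.t 1 (nat_lit 0) (.ax 8 9 10 12 3), .t 1 (nat_lit 0) (.ax 8 9 10 12 5), .t 1 (nat_lit 0) (.ax 8 9 10 13 4), .t 1 (nat_lit 0) (.ax 8 9 10 16 0), .t 1 (nat_lit 0) (.ax 8 9 10 16 2), .t 1 (nat_lit 0) (.ax 8 9 10 16 4), .t 1 (nat_lit 0) (.ax 8 9 10 16 5), .t 1 (nat_lit 0) (.ax 8 9 10 16 6), .t 1 (nat_lit 0) (.ax 8 9 10 16 7), .t 1 (nat_lit 0) (.ax 8 9 10 18 7), .t 1 (nat_lit 0) (.ax 8 9 10 19 0), .t 1 (nat_lit 0) (.ax 8 9 10 19 1), .t 1 (nat_lit 0) (.ax 8 9 10 19 2), .t 1 (nat_lit 0) (.ax 8 9 10 19 5), .t 1 (nat_lit 0) (.ax 8 9 10 19 7), .t 1 (nat_lit 0) (.ax 8 9 10 20 0), .t 1 (nat_lit 0) (.ax 8 9 10 20 4), .t 1 (nat_lit 0) (.ax 8 9 10 21 2), .t 1 (nat_lit 0) (.ax 8 9 10 21 4), .t 1 (nat_lit 0) (.ax 8 9 10 22 0), .t 1 (nat_lit 0) (.ax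 8 9 11 12 1), .t 1 (nat_lit 0) (.ax 8 9 11 12 2), .t 1 (nat_lit 0) (.ax 8 9 11 12 4), .t 1 (nat_lit 0) (.ax 8 9 11 13 4), .t 1 (nat_lit 0) (.ax 8 9 11 14 4), .t 1 (nat_lit 0) (.ax 8 9 11 16 4), .t 1 (nat_lit 0) (.ax 8 9 11 19 4), .t 1 (nat_lit 0) (.ax 8 9 11 22 4), .t 1 (nat_lit 0) (.ax 8 9 13 16 4), .t 1 (nat_lit 0) (.ax 8 9 13 19 4), .t 1 (nat_lit 0) (.ax 8 9 14 16 0), .t 1 (nat_lit 0) (.ax 8 9 14 16 1)] (by decide +kernel) (by decide +kernel)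
theorem b44 : B 1408 1440 := Blk.of_chk [.t 1 (nat_lit 0) (.ax 8 9 14 19 0), .t 1 (nat_lit 0) (.ax 8 9 14 19 2), .t 1 (nat_lit 0) (.ax 8 9 14 19 5), .t 1 (nat_lit 0) (.ax 8 9 14 20 0), .t 1 (nat_lit 0) (.ax 8 9 16 17 4), .t 1 (nat_lit 0) (.ax 8 9 16 18 4), .t 1 (nat_lit 0) (.ax 8 9 16 19 4), .t 1 (nat_lit 0) (.ax 8 9 16 20 4), .t 1 (nat_lit 0) (.ax 8 9 16 22 4), .t 1 (nat_lit 0) (.ax 8 9 18 22 4), .t 1 (nat_lit 0) (.ax 8 9 19 20 4), .t 1 (nat_lit 0) (.ax 8 9 19 22 4), .t 1 (nat_lit 0) (.ax 8 9 20 21 4), .t 1 (nat_lit 0) (.ax 8 10 11 12 1), .t 1 (nat_lit 0) (.ax 8 10 11 12 4), .t 1 (nat_lit 0) (.ax 8 10 11 16 4), .t 1 (nat_lit 0) (.ax 8 10 12 13 4), .t 1 (nat_lit 0) (.ax 8 10 12 16 4), .t 1 (nat_lit 0) (.ax 8 10 12 22 4), .t 1 (nat_lit 0) (.ax 8 10 13 14 4), .t 1 (nat_lit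 0) (.ax 8 10 13 16 4), .t 1 (nat_lit 0) (.ax 8 10 13 19 4), .t 1 (nat_lit 0) (.ax 8 10 13 20 4), .t 1 (nat_lit 0) (.ax 8 10 14 16 0), .t 1 (nat_lit 0) (.ax 8 10 14 16 1), .t 1 (nat_lit 0) (.ax 8 10 14 19 0), .t 1 (nat_lit 0) (.ax 8 10 14 21 0), .t 1 (nat_lit 0) (.ax 8 10 14 22 2), .t 1 (nat_lit 0) (.ax 8 10 16 19 4), .t 1 (nat_lit 0) (.ax 8 10 18 19 6), .t 1 (nat_lit 0) (.ax 8 10 19 20 4), .t 1 (nat_lit 0) (.ax 8 10 20 21 4)] (by decide +kernel) (by decide +kernel)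
theorem b45 : B 1440 1472 := Blk.of_chk [.t 1 (nat_lit 0) (.ax 8 10 20 22 4), .t 1 (nat_lit 0) (.ax 8 11 12 14 0), .t 1 (nat_lit 0) (.ax 8 11 13 14 0), .t 1 (nat_lit 0) (.ax 8 11 13 15 0), .t 1 (nat_lit 0) (.ax 8 11 13 17 0), .t 1 (nat_lit 0) (.ax 8 11 13 18 0), .t 1 (nat_lit 0) (.ax 8 11 13 19 0), .t 1 (nat_lit 0) (.ax 8 11 13 20 0), .t 1 (nat_lit 0) (.ax 8 11 13 21 0), .t 1 (nat_lit 0) (.ax 8 11 13 22 0), .t 1 (nat_lit 0) (.ax 8 11 14 19 0), .t 1 (nat_lit 0) (.ax 8 11 15 16 0), .t 1 (nat_lit 0) (.ax 8 11 18 19 0), .t 1 (nat_lit 0) (.ax 8 12 14 16 6), .t 1 (nat_lit 0) (.ax 8 12 14 21 2), .t 1 (nat_lit 0) (.ax 8 13 16 17 0), .t 1 (nat_lit 0) (.ax 8 13 16 18 0), .t 1 (nat_lit 0) (.ax 8 13 16 20 0), .t 1 (nat_lit 0) (.ax 8 13 16 21 0), .t 1 (nat_lit 0) (.ax 8 13 16 22 0),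 .t 1 (nat_lit 0) (.ax 8 14 16 17 4), .t 1 (nat_lit 0) (.ax 8 14 16 19 4), .t 1 (nat_lit 0) (.ax 8 14 16 21 4), .t 1 (nat_lit 0) (.ax 8 14 17 18 0), .t 1 (nat_lit 0) (.ax 8 14 17 18 2), .t 1 (nat_lit 0) (.ax 8 14 19 20 4), .t 1 (nat_lit 0) (.ax 8 14 19 21 4), .t 1 (nat_lit 0) (.ax 8 14 20 21 4), .t 1 (nat_lit 0) (.ax 8 14 20 22 4), .t 1 (nat_lit 0) (.ax 8 15 16 17 2), .t 1 (nat_lit 0) (.ax 8 15 16 17 4), .t 1 (nat_lit 0) (.ax 8 15 16 18 4)] (by decide +kernel) (by decide +kernel)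
theorem b46 : B 1472 1504 := Blk.of_chk [.t 1 (nat_lit 0) (.ax 8 15 16 21 4), .t 1 (nat_lit 0) (.ax 8 15 16 22 4), .t 1 (nat_lit 0) (.ax 8 15 17 21 2), .t 1 (nat_lit 0) (.ax 8 15 17 22 2), .t 1 (nat_lit 0) (.ax 8 15 18 21 2), .t 1 (nat_lit 0) (.ax 8 16 17 18 2), .t 1 (nat_lit 0) (.ax 8 16 17 18 4), .t 1 (nat_lit 0) (.ax 8 16 19 21 0), .t 1 (nat_lit 0) (.ax 8 17 18 19 2), .t 1 (nat_lit 0) (.ax 8 17 18 19 4), .t 1 (nat_lit 0) (.ax 8 18 19 22 4), .t 1 (nat_lit 0) (.ax 8 19 20 21 0), .t 1 (nat_lit 0) (.ax 8 20 21 22 5), .t 1 (nat_lit 0) (.ax 9 10 11 12 1), .t 1 (nat_lit 0) (.ax 9 10 11 12 4), .t 1 (nat_lit 0) (.ax 9 10 11 16 4), .t 1 (nat_lit 0) (.ax 9 10 11 22 4), .t 1 (nat_lit 0) (.ax 9 10 12 13 1), .t 1 (nat_lit 0) (.ax 9 10 12 13 4), .t 1 (nat_lit 0) (.ax 9 10 12 15 1),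 .t 1 (nat_lit 0) (.ax 9 10 12 15 4), .t 1 (nat_lit 0) (.ax 9 10 12 16 4), .t 1 (nat_lit 0) (.ax 9 10 12 22 4), .t 1 (nat_lit 0) (.ax 9 10 13 15 1), .t 1 (nat_lit 0) (.ax 9 10 13 15 4), .t 1 (nat_lit 0) (.ax 9 10 13 16 4), .t 1 (nat_lit 0) (.ax 9 10 13 20 4), .t 1 (nat_lit 0) (.ax 9 10 13 22 4), .t 1 (nat_lit 0) (.ax 9 10 14 16 0), .t 1 (nat_lit 0) (.ax 9 10 14 16 2), .t 1 (nat_lit 0) (.ax 9 10 14 16 4), .t 1 (nat_lit 0) (.ax 9 10 14 17 0)] (by decide +kernel) (by decide +kernel)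
theorem b47 : B 1504 1536 := Blk.of_chk [.t 1 (nat_lit 0) (.ax 9 10 14 19 1), .t 1 (nat_lit 0) (.ax 9 10 14 19 2), .t 1 (nat_lit 0) (.ax 9 10 14 19 3), .t 1 (nat_lit 0) (.ax 9 10 14 19 4), .t 1 (nat_lit 0) (.ax 9 10 14 20 0), .t 1 (nat_lit 0) (.ax 9 10 14 20 7), .t 1 (nat_lit 0) (.ax 9 10 14 21 2), .t 1 (nat_lit 0) (.ax 9 10 14 21 4), .t 1 (nat_lit 0) (.ax 9 10 14 22 4), .t 1 (nat_lit 0) (.ax 9 10 15 16 4), .t 1 (nat_lit 0) (.ax 9 10 15 19 4), .t 1 (nat_lit 0) (.ax 9 10 15 20 4), .t 1 (nat_lit 0) (.ax 9 10 15 22 4), .t 1 (nat_lit 0) (.ax 9 10 16 19 4), .t 1 (nat_lit 0) (.ax 9 10 16 20 4), .t 1 (nat_lit 0) (.ax 9 10 16 21 4), .t 1 (nat_lit 0) (.ax 9 10 16 22 4), .t 1 (nat_lit 0) (.ax 9 10 17 18 2), .t 1 (nat_lit 0) (.ax 9 10 17 22 4), .t 1 (nat_lit 0) (.ax 9 10 17 22 6),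 .t 1 (nat_lit 0) (.ax 9 10 18 19 6), .t 1 (nat_lit 0) (.ax 9 10 18 22 4), .t 1 (nat_lit 0) (.ax 9 10 18 22 6), .t 1 (nat_lit 0) (.ax 9 10 19 21 4), .t 1 (nat_lit 0) (.ax 9 10 19 22 4), .t 1 (nat_lit 0) (.ax 9 10 20 22 4), .t 1 (nat_lit 0) (.ax 9 10 21 22 5), .t 1 (nat_lit 0) (.ax 9 11 13 14 0), .t 1 (nat_lit 0) (.ax 9 11 13 15 0), .t 1 (nat_lit 0) (.ax 9 11 13 17 0), .t 1 (nat_lit 0) (.ax 9 11 13 18 0), .t 1 (nat_lit 0) (.ax 9 11 13 19 0)] (by decide +kernel) (by decide +kernel)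
theorem b48 : B 1536 1568 := Blk.of_chk [.t 1 (nat_lit 0) (.ax 9 11 13 20 0), .t 1 (nat_lit 0) (.ax 9 11 13 21 0), .t 1 (nat_lit 0) (.ax 9 11 13 22 0), .t 1 (nat_lit 0) (.ax 9 11 14 19 0), .t 1 (nat_lit 0) (.ax 9 11 14 21 0), .t 1 (nat_lit 0) (.ax 9 11 15 16 0), .t 1 (nat_lit 0) (.ax 9 11 17 19 0), .t 1 (nat_lit 0) (.ax 9 11 18 19 0), .t 1 (nat_lit 0) (.ax 9 12 13 14 4), .t 1 (nat_lit 0) (.ax 9 12 13 15 2), .t 1 (nat_lit 0) (.ax 9 12 13 15 4), .t 1 (nat_lit 0) (.ax 9 12 13 16 4), .t 1 (nat_lit 0) (.ax 9 12 13 18 4), .t 1 (nat_lit 0) (.ax 9 12 13 19 4), .t 1 (nat_lit 0) (.ax 9 12 13 20 4), .t 1 (nat_lit 0) (.ax 9 12 13 22 4), .t 1 (nat_lit 0) (.ax 9 12 14 15 0), .t 1 (nat_lit 0) (.ax 9 12 14 15 5), .t 1 (nat_lit 0) (.ax 9 12 14 21 2), .t 1 (nat_lit 0) (.ax 9 12 14 22 2),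 .t 1 (nat_lit 0) (.ax 9 12 18 19 2), .t 1 (nat_lit 0) (.ax 9 12 18 20 2), .t 1 (nat_lit 0) (.ax 9 12 18 22 2), .t 1 (nat_lit 0) (.ax 9 13 14 15 0), .t 1 (nat_lit 0) (.ax 9 13 14 15 5), .t 1 (nat_lit 0) (.ax 9 13 16 17 0), .t 1 (nat_lit 0) (.ax 9 13 16 18 0), .t 1 (nat_lit 0) (.ax 9 13 16 20 0), .t 1 (nat_lit 0) (.ax 9 13 16 21 0), .t 1 (nat_lit 0) (.ax 9 13 16 22 0), .t 1 (nat_lit 0) (.ax 9 14 15 16 4), .t 1 (nat_lit 0) (.ax 9 14 15 17 4)] (by decide +kernel) (by decide +kernel)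
theorem b49 : B 1568 1600 := Blk.of_chk [.t 1 (nat_lit 0) (.ax 9 14 16 17 4), .t 1 (nat_lit 0) (.ax 9 14 16 18 4), .t 1 (nat_lit 0) (.ax 9 14 16 19 4), .t 1 (nat_lit 0) (.ax 9 14 16 20 4), .t 1 (nat_lit 0) (.ax 9 14 17 18 0), .t 1 (nat_lit 0) (.ax 9 14 17 18 2), .t 1 (nat_lit 0) (.ax 9 14 17 18 3), .t 1 (nat_lit 0) (.ax 9 14 17 19 2), .t 1 (nat_lit 0) (.ax 9 14 17 19 4), .t 1 (nat_lit 0) (.ax 9 14 17 21 4), .t 1 (nat_lit 0) (.ax 9 14 19 20 4), .t 1 (nat_lit 0) (.ax 9 14 19 20 6), .t 1 (nat_lit 0) (.ax 9 14 19 21 4), .t 1 (nat_lit 0) (.ax 9 14 19 22 4), .t 1 (nat_lit 0) (.ax 9 14 20 22 4), .t 1 (nat_lit 0) (.ax 9 14 21 22 5), .t 1 (nat_lit 0) (.ax 9 15 16 17 2), .t 1 (nat_lit 0) (.ax 9 15 16 17 4), .t 1 (nat_lit 0) (.ax 9 15 16 18 2), .t 1 (nat_lit 0) (.ax 9 15 16 18 4),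 .t 1 (nat_lit 0) (.ax 9 15 16 19 4), .t 1 (nat_lit 0) (.ax 9 15 16 20 4), .t 1 (nat_lit 0) (.ax 9 15 16 22 4), .t 1 (nat_lit 0) (.ax 9 15 17 18 0), .t 1 (nat_lit 0) (.ax 9 15 17 18 5), .t 1 (nat_lit 0) (.ax 9 15 17 19 2), .t 1 (nat_lit 0) (.ax 9 15 18 21 2), .t 1 (nat_lit 0) (.ax 9 16 17 18 0), .t 1 (nat_lit 0) (.ax 9 16 17 18 2), .t 1 (nat_lit 0) (.ax 9 16 17 18 4), .t 1 (nat_lit 0) (.ax 9 16 17 18 5), .t 1 (nat_lit 0) (.ax 9 16 19 21 0)] (by decide +kernel) (by decide +kernel)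
theorem b50 : B 1600 1632 := Blk.of_chk [.t 1 (nat_lit 0) (.ax 9 17 18 19 2), .t 1 (nat_lit 0) (.ax 9 17 18 19 4), .t 1 (nat_lit 0) (.ax 9 17 19 20 4), .t 1 (nat_lit 0) (.ax 9 17 19 22 4), .t 1 (nat_lit 0) (.ax 9 17 20 22 4), .t 1 (nat_lit 0) (.ax 9 17 21 22 5), .t 1 (nat_lit 0) (.ax 9 18 19 20 4), .t 1 (nat_lit 0) (.ax 9 18 20 22 4), .t 1 (nat_lit 0) (.ax 9 18 21 22 5), .t 1 (nat_lit 0) (.ax 9 19 20 21 0), .t 1 (nat_lit 0) (.ax 9 20 21 22 5), .t 1 (nat_lit 0) (.ax 10 11 12 14 0), .t 1 (nat_lit 0) (.ax 10 11 13 14 0), .t 1 (nat_lit 0) (.ax 10 11 13 15 0), .t 1 (nat_lit 0) (.ax 10 11 13 17 0), .t 1 (nat_lit 0) (.ax 10 11 13 18 0), .t 1 (nat_lit 0) (.ax 10 11 13 19 0), .t 1 (nat_lit 0) (.ax 10 11 13 20 0), .t 1 (nat_lit 0) (.ax 10 11 13 21 0), .t 1 (nat_lit 0) (.ax 10 11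 13 22 0), .t 1 (nat_lit 0) (.ax 10 11 14 19 0), .t 1 (nat_lit 0) (.ax 10 11 14 21 0), .t 1 (nat_lit 0) (.ax 10 11 15 16 0), .t 1 (nat_lit 0) (.ax 10 11 17 19 0), .t 1 (nat_lit 0) (.ax 10 11 17 20 2), .t 1 (nat_lit 0) (.ax 10 11 17 20 4), .t 1 (nat_lit 0) (.ax 10 11 18 19 0), .t 1 (nat_lit 0) (.ax 10 11 18 20 2), .t 1 (nat_lit 0) (.ax 10 11 18 20 4), .t 1 (nat_lit 0) (.ax 10 11 20 22 4), .t 1 (nat_lit 0) (.ax 10 11 21 22 5), .t 1 (nat_lit 0) (.ax 10 12 13 15 2)] (by decide +kernel) (by decide +kernel)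
theorem b51 : B 1632 1664 := Blk.of_chk [.t 1 (nat_lit 0) (.ax 10 12 13 15 4), .t 1 (nat_lit 0) (.ax 10 12 13 16 4), .t 1 (nat_lit 0) (.ax 10 12 13 18 4), .t 1 (nat_lit 0) (.ax 10 12 13 19 4), .t 1 (nat_lit 0) (.ax 10 12 13 20 4), .t 1 (nat_lit 0) (.ax 10 12 13 22 4), .t 1 (nat_lit 0) (.ax 10 12 14 15 0), .t 1 (nat_lit 0) (.ax 10 12 14 15 5), .t 1 (nat_lit 0) (.ax 10 12 14 21 2), .t 1 (nat_lit 0) (.ax 10 12 14 22 2), .t 1 (nat_lit 0) (.ax 10 12 18 19 2), .t 1 (nat_lit 0) (.ax 10 12 18 20 2), .t 1 (nat_lit 0) (.ax 10 12 18 22 2), .t 1 (nat_lit 0) (.ax 10 13 14 15 0), .t 1 (nat_lit 0) (.ax 10 13 14 15 2), .t 1 (nat_lit 0) (.ax 10 13 14 15 4), .t 1 (nat_lit 0) (.ax 10 13 14 15 5), .t 1 (nat_lit 0) (.ax 10 13 16 17 0), .t 1 (nat_lit 0) (.ax 10 13 16 18 0), .t 1 (nat_lit 0)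 (.ax 10 13 16 20 0), .t 1 (nat_lit 0) (.ax 10 13 16 21 0), .t 1 (nat_lit 0) (.ax 10 13 16 22 0), .t 1 (nat_lit 0) (.ax 10 14 15 16 4), .t 1 (nat_lit 0) (.ax 10 14 16 17 4), .t 1 (nat_lit 0) (.ax 10 14 16 19 4), .t 1 (nat_lit 0) (.ax 10 14 16 20 6), .t 1 (nat_lit 0) (.ax 10 14 16 21 4), .t 1 (nat_lit 0) (.ax 10 14 16 22 4), .t 1 (nat_lit 0) (.ax 10 14 17 18 2), .t 1 (nat_lit 0) (.ax 10 14 17 18 3), .t 1 (nat_lit 0) (.ax 10 14 17 19 4), .t 1 (nat_lit 0) (.ax 10 14 17 20 4)] (by decide +kernel) (by decide +kernel)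
theorem b52 : B 1664 1696 := Blk.of_chk [.t 1 (nat_lit 0) (.ax 10 14 17 21 4), .t 1 (nat_lit 0) (.ax 10 14 17 22 0), .t 1 (nat_lit 0) (.ax 10 14 17 22 4), .t 1 (nat_lit 0) (.ax 10 14 18 20 0), .t 1 (nat_lit 0) (.ax 10 14 18 22 0), .t 1 (nat_lit 0) (.ax 10 14 19 20 4), .t 1 (nat_lit 0) (.ax 10 14 19 21 4), .t 1 (nat_lit 0) (.ax 10 14 19 22 4), .t 1 (nat_lit 0) (.ax 10 14 21 22 5), .t 1 (nat_lit 0) (.ax 10 15 16 17 2), .t 1 (nat_lit 0) (.ax 10 15 16 17 4), .t 1 (nat_lit 0) (.ax 10 15 16 18 2), .t 1 (nat_lit 0) (.ax 10 15 16 18 4), .t 1 (nat_lit 0) (.ax 10 15 16 19 4), .t 1 (nat_lit 0) (.ax 10 15 16 20 4), .t 1 (nat_lit 0) (.ax 10 15 16 21 4), .t 1 (nat_lit 0) (.ax 10 15 16 22 4), .t 1 (nat_lit 0) (.ax 10 15 17 18 0), .t 1 (nat_lit 0) (.ax 10 15 17 18 5), .t 1 (nat_lit 0)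 (.ax 10 15 17 19 2), .t 1 (nat_lit 0) (.ax 10 15 17 21 2), .t 1 (nat_lit 0) (.ax 10 15 17 22 2), .t 1 (nat_lit 0) (.ax 10 15 18 21 2), .t 1 (nat_lit 0) (.ax 10 16 17 18 0), .t 1 (nat_lit 0) (.ax 10 16 17 18 2), .t 1 (nat_lit 0) (.ax 10 16 17 18 4), .t 1 (nat_lit 0) (.ax 10 16 17 18 5), .t 1 (nat_lit 0) (.ax 10 16 19 21 0), .t 1 (nat_lit 0) (.ax 10 17 19 20 4), .t 1 (nat_lit 0) (.ax 10 17 19 22 4), .t 1 (nat_lit 0) (.ax 10 17 20 22 4), .t 1 (nat_lit 0) (.ax 10 17 21 22 5)] (by decide +kernel) (by decide +kernel)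
theorem b53 : B 1696 1728 := Blk.of_chk [.t 1 (nat_lit 0) (.ax 10 18 20 22 4), .t 1 (nat_lit 0) (.ax 10 18 21 22 5), .t 1 (nat_lit 0) (.ax 10 19 20 21 0), .t 1 (nat_lit 0) (.ax 10 20 21 22 5), .t 1 (nat_lit 0) (.ax 11 12 13 14 3), .t 1 (nat_lit 0) (.ax 11 12 13 15 3), .t 1 (nat_lit 0) (.ax 11 12 13 18 3), .t 1 (nat_lit 0) (.ax 11 12 13 19 3), .t 1 (nat_lit 0) (.ax 11 12 13 20 3), .t 1 (nat_lit 0) (.ax 11 12 13 21 3), .t 1 (nat_lit 0) (.ax 11 12 13 22 3), .t 1 (nat_lit 0) (.ax 11 12 14 19 2), .t 1 (nat_lit 0) (.ax 11 12 14 19 4), .t 1 (nat_lit 0) (.ax 11 12 14 19 6), .t 1 (nat_lit 0) (.ax 11 12 14 21 2), .t 1 (nat_lit 0) (.ax 11 12 14 21 4), .t 1 (nat_lit 0) (.ax 11 12 14 21 6), .t 1 (nat_lit 0) (.ax 11 12 17 19 0), .t 1 (nat_lit 0) (.ax 11 12 18 21 0), .t 1 (nat_lit 0)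 (.ax 11 13 14 19 0), .t 1 (nat_lit 0) (.ax 11 13 16 21 0), .t 1 (nat_lit 0) (.ax 11 14 16 19 4), .t 1 (nat_lit 0) (.ax 11 14 17 19 0), .t 1 (nat_lit 0) (.ax 11 14 17 19 1), .t 1 (nat_lit 0) (.ax 11 14 17 20 0), .t 1 (nat_lit 0) (.ax 11 14 17 21 0), .t 1 (nat_lit 0) (.ax 11 14 18 19 1), .t 1 (nat_lit 0) (.ax 11 14 18 20 0), .t 1 (nat_lit 0) (.ax 11 14 19 20 4), .t 1 (nat_lit 0) (.ax 11 14 19 21 4), .t 1 (nat_lit 0) (.ax 11 14 19 22 4), .t 1 (nat_lit 0) (.ax 11 15 16 17 4)] (by decide +kernel) (by decide +kernel)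
theorem b54 : B 1728 1760 := Blk.of_chk [.t 1 (nat_lit 0) (.ax 11 15 16 18 4), .t 1 (nat_lit 0) (.ax 11 15 16 19 4), .t 1 (nat_lit 0) (.ax 11 15 16 21 4), .t 1 (nat_lit 0) (.ax 11 15 17 19 2), .t 1 (nat_lit 0) (.ax 11 15 17 21 2), .t 1 (nat_lit 0) (.ax 11 15 18 19 2), .t 1 (nat_lit 0) (.ax 11 15 18 21 2), .t 1 (nat_lit 0) (.ax 11 16 19 21 0), .t 1 (nat_lit 0) (.ax 11 17 20 22 4), .t 1 (nat_lit 0) (.ax 11 17 21 22 5), .t 1 (nat_lit 0) (.ax 11 18 19 22 4), .t 1 (nat_lit 0) (.ax 11 18 20 22 4), .t 1 (nat_lit 0) (.ax 11 18 21 22 5), .t 1 (nat_lit 0) (.ax 11 19 20 21 0), .t 1 (nat_lit 0) (.ax 11 20 21 22 5), .t 1 (nat_lit 0) (.ax 12 13 14 15 0), .t 1 (nat_lit 0) (.ax 12 13 14 15 2), .t 1 (nat_lit 0) (.ax 12 13 14 15 4), .t 1 (nat_lit 0) (.ax 12 13 14 15 5), .t 1 (nat_lit 0)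 (.ax 12 13 14 19 0), .t 1 (nat_lit 0) (.ax 12 13 14 22 0), .t 1 (nat_lit 0) (.ax 12 13 16 21 0), .t 1 (nat_lit 0) (.ax 12 14 15 16 4), .t 1 (nat_lit 0) (.ax 12 14 15 19 4), .t 1 (nat_lit 0) (.ax 12 14 16 17 4), .t 1 (nat_lit 0) (.ax 12 14 16 19 4), .t 1 (nat_lit 0) (.ax 12 14 16 22 4), .t 1 (nat_lit 0) (.ax 12 14 17 19 0), .t 1 (nat_lit 0) (.ax 12 14 17 19 2), .t 1 (nat_lit 0) (.ax 12 14 18 19 1), .t 1 (nat_lit 0) (.ax 12 14 19 22 4), .t 1 (nat_lit 0) (.ax 12 14 21 22 5)] (by decide +kernel) (by decide +kernel)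
theorem b55 : B 1760 1792 := Blk.of_chk [.t 1 (nat_lit 0) (.ax 12 16 19 21 0), .t 1 (nat_lit 0) (.ax 12 18 19 20 4), .t 1 (nat_lit 0) (.ax 12 18 19 21 4), .t 1 (nat_lit 0) (.ax 12 18 19 22 4), .t 1 (nat_lit 0) (.ax 13 14 15 22 0), .t 1 (nat_lit 0) (.ax 13 14 16 17 3), .t 1 (nat_lit 0) (.ax 13 14 16 18 3), .t 1 (nat_lit 0) (.ax 13 14 16 20 3), .t 1 (nat_lit 0) (.ax 13 14 16 21 3), .t 1 (nat_lit 0) (.ax 13 14 16 22 3), .t 1 (nat_lit 0) (.ax 13 14 17 22 0), .t 1 (nat_lit 0) (.ax 13 14 19 22 4), .t 1 (nat_lit 0) (.ax 13 15 16 17 3), .t 1 (nat_lit 0) (.ax 13 15 16 18 3), .t 1 (nat_lit 0) (.ax 13 15 16 20 3), .t 1 (nat_lit 0) (.ax 13 15 16 21 3), .t 1 (nat_lit 0) (.ax 13 15 16 22 3), .t 1 (nat_lit 0) (.ax 13 15 17 22 0), .t 1 (nat_lit 0) (.ax 13 15 18 22 0), .t 1 (nat_lit 0)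 (.ax 13 16 19 21 0), .t 1 (nat_lit 0) (.ax 14 15 16 17 2), .t 1 (nat_lit 0) (.ax 14 15 16 17 4), .t 1 (nat_lit 0) (.ax 14 15 16 18 2), .t 1 (nat_lit 0) (.ax 14 15 16 18 4), .t 1 (nat_lit 0) (.ax 14 15 16 19 4), .t 1 (nat_lit 0) (.ax 14 15 16 20 4), .t 1 (nat_lit 0) (.ax 14 15 16 21 4), .t 1 (nat_lit 0) (.ax 14 15 16 22 4), .t 1 (nat_lit 0) (.ax 14 15 17 18 0), .t 1 (nat_lit 0) (.ax 14 15 17 18 5), .t 1 (nat_lit 0) (.ax 14 15 17 19 0), .t 1 (nat_lit 0) (.ax 14 15 17 19 2)] (by decide +kernel) (by decide +kernel)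
theorem b56 : B 1792 1824 := Blk.of_chk [.t 1 (nat_lit 0) (.ax 14 15 17 20 2), .t 1 (nat_lit 0) (.ax 14 15 17 21 0), .t 1 (nat_lit 0) (.ax 14 15 17 21 2), .t 1 (nat_lit 0) (.ax 14 15 18 19 2), .t 1 (nat_lit 0) (.ax 14 15 18 20 0), .t 1 (nat_lit 0) (.ax 14 15 18 21 2), .t 1 (nat_lit 0) (.ax 14 16 17 18 0), .t 1 (nat_lit 0) (.ax 14 16 17 18 2), .t 1 (nat_lit 0) (.ax 14 16 17 18 4), .t 1 (nat_lit 0) (.ax 14 16 17 18 5), .t 1 (nat_lit 0) (.ax 14 16 19 21 0), .t 1 (nat_lit 0) (.ax 14 17 18 19 0), .t 1 (nat_lit 0) (.ax 14 17 18 19 1), .t 1 (nat_lit 0) (.ax 14 17 18 19 2), .t 1 (nat_lit 0) (.ax 14 17 18 19 4), .t 1 (nat_lit 0) (.ax 14 17 18 19 5), .t 1 (nat_lit 0) (.ax 14 17 18 20 0), .t 1 (nat_lit 0) (.ax 14 17 18 20 1), .t 1 (nat_lit 0) (.ax 14 17 18 20 4), .t 1 (nat_lit 0)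 (.ax 14 17 18 21 2), .t 1 (nat_lit 0) (.ax 14 17 18 21 4), .t 1 (nat_lit 0) (.ax 14 17 18 22 4), .t 1 (nat_lit 0) (.ax 14 17 19 20 4), .t 1 (nat_lit 0) (.ax 14 17 19 21 4), .t 1 (nat_lit 0) (.ax 14 17 19 22 4), .t 1 (nat_lit 0) (.ax 14 17 20 21 4), .t 1 (nat_lit 0) (.ax 14 17 20 22 4), .t 1 (nat_lit 0) (.ax 14 17 21 22 5), .t 1 (nat_lit 0) (.ax 14 18 19 20 4), .t 1 (nat_lit 0) (.ax 14 18 19 21 4), .t 1 (nat_lit 0) (.ax 14 18 20 22 4), .t 1 (nat_lit 0) (.ax 14 18 21 22 5)] (by decide +kernel) (by decide +kernel)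
theorem b57 : B 1824 1856 := Blk.of_chk [.t 1 (nat_lit 0) (.ax 14 19 20 21 0), .t 1 (nat_lit 0) (.ax 14 20 21 22 5), .t 1 (nat_lit 0) (.ax 15 16 17 18 2), .t 1 (nat_lit 0) (.ax 15 16 17 18 4), .t 1 (nat_lit 0) (.ax 15 16 17 18 5), .t 1 (nat_lit 0) (.ax 15 16 19 21 0), .t 1 (nat_lit 0) (.ax 15 17 18 19 1), .t 1 (nat_lit 0) (.ax 15 17 19 20 4), .t 1 (nat_lit 0) (.ax 15 17 19 21 4), .t 1 (nat_lit 0) (.ax 15 17 19 22 4), .t 1 (nat_lit 0) (.ax 15 17 20 21 4), .t 1 (nat_lit 0) (.ax 15 17 21 22 5), .t 1 (nat_lit 0) (.ax 15 18 19 20 4), .t 1 (nat_lit 0) (.ax 15 18 19 21 4), .t 1 (nat_lit 0) (.ax 15 18 19 22 4), .t 1 (nat_lit 0) (.ax 15 18 20 21 4), .t 1 (nat_lit 0) (.ax 15 18 20 22 4), .t 1 (nat_lit 0) (.ax 15 18 21 22 5), .t 1 (nat_lit 0) (.ax 15 20 21 22 5), .t 1 (nat_lit 0)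 (.ax 16 17 18 19 2), .t 1 (nat_lit 0) (.ax 16 17 18 20 3), .t 1 (nat_lit 0) (.ax 16 17 18 20 5), .t 1 (nat_lit 0) (.ax 16 17 18 21 2), .t 1 (nat_lit 0) (.ax 16 17 18 21 4), .t 1 (nat_lit 0) (.ax 16 17 19 21 3), .t 1 (nat_lit 0) (.ax 16 18 19 21 3), .t 1 (nat_lit 0) (.ax 17 18 19 20 4), .t 1 (nat_lit 0) (.ax 17 18 19 21 4), .t 1 (nat_lit 0) (.ax 17 18 20 21 4), .t 1 (nat_lit 0) (.ax 17 18 20 22 4), .t 1 (nat_lit 0) (.ax 17 19 20 21 0), .t 1 (nat_lit 0) (.ax 17 20 21 22 5)] (by decide +kernel) (by decide +kernel)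
theorem b58 : B 1856 1888 := Blk.of_chk [.t 1 (nat_lit 0) (.ax 18 19 20 21 0), .t 1 (nat_lit 0) (.ax 18 20 21 22 5), .t 1 (nat_lit 0) (.fa 4), .t 1 (nat_lit 0) (.fa 6), .t 1 (nat_lit 0) (.fa 4), .t 1 (nat_lit 0) (.cp 1 2), .t 1 (nat_lit 0) (.cn 8 2), .t 1 (nat_lit 0) (.fa 2), .t 8 (nat_lit 0x139013801360168016601440143) (.z (.node 2 4 (.node 0 8 (.free 4 [0,9,10,11,12,13,14,15,16,17,18,19,20,21,22]) (.leaf [2,5,7,8,6])) (.free 1 [1,3,4]))), .t 1 (nat_lit 0) (.fa 6), .t 1 (nat_lit 0) (.cn 8 3), .t 1 (nat_lit 0) (.cp 3 3), .t 1 (nat_lit 0) (.cp 8 3), .t 1 (nat_lit 0) (.cp 7 3), .t 1 (nat_lit 0) (.cp 1 3), .t 1 (nat_lit 0) (.cp 3 2), .t 1 (nat_lit 0) (.cp 4 3), .t 1 (nat_lit 0) (.cp 5 3), .t 4 (nat_lit 0x206d206d1) (.z (.edon 0 16 (.node 0 11 (.leaf [0,12,13,14,15]) (.edon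 4 6 (.free 2 [4,5,7,8,9,10,11]) (.leaf [1,3,6,2]))) (.free 2 [16,17,18,19,20,21,22]))), .t 1 (nat_lit 0) (.cn 5 3), .t 4 (nat_lit 0x73b07360735) (.z (.node 0 15 (.node 0 20 (.leaf [0,21,22]) (.leaf [16,19,20,18,17])) (.free 4 [1,2,3,4,5,6,7,8,9,10,11,12,13,14,15]))), .t 1 (nat_lit 0) (.cn 8 3), .t 4 (nat_lit 0x106d206d1) (.z (.edon 0 16 (.node 0 11 (.leaf [0,12,13,14,15]) (.edon 4 5 (.free 2 [4,6,7,8,9,10,11]) (.leaf [1,3,5,2]))) (.free 2 [16,17,18,19,20,21,22]))), .t 1 (nat_lit 0) (.fa 2), .t 1 (nat_lit 0) (.fa 2), .t 1 (nat_lit 0) (.fa 5), .t 1 (nat_lit 0) (.cn 1 2), .t 1 (nat_lit 0) (.fa 5), .t 1 (nat_lit 0) (.cn 4 3), .t 8 (nat_lit 0x13701440142013b013a01680167) (.z (.node 2 4 (.node 0 8 (.free 4 [0,9,10,11,12,13,14,15,16,17,18,19,20,21,22]) (.leaf [2,6,7,8,5])) (.free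 1 [1,3,4]))), .t 1 (nat_lit 0) (.cp 2 3), .t 1 (nat_lit 0) (.cp 2 3)] (by decide +kernel) (by decide +kernel)
theorem b59 : B 1888 1920 := Blk.of_chk [.t 1 (nat_lit 0) (.cn 2 3), .t 10 (nat_lit 0x725070a070706fe06fd06f806f7017e017d) (.z (.node 4 13 (.node 2 4 (.node 9 22 (.leaf [0,2,6,9,21]) (.edon 0 19 (.leaf [14,15,16,18,17]) (.leaf [19,20,22]))) (.leaf [1,3,4])) (.free 2 [5,7,8,10,11,12,13]))), .t 3 (nat_lit 0x20f020e) (.z (.node 2 16 (.edon 19 21 (.leaf [19,20,22]) (.leaf [0,2,17,18,21])) (.free 4 [1,3,4,5,6,7,8,9,10,11,12,13,14,15,16]))), .t 10 (nat_lit 0x5cf058f058e057705750562056107150714) (.z (.node 0 7 (.node 0 12 (.node 14 16 (.edon 19 21 (.leaf [19,20,22]) (.leaf [0,14,17,18,21])) (.leaf [13,15,16])) (.leaf [8,11,12,10,9])) (.free 2 [1,2,3,4,5,6,7]))), .t 15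 (nat_lit 0x3a303ab03aa03a703a60725070a070706fe06fd06f806f703bd03bc) (.z (.edon 1 19 (.edon 0 5 (.leaf [1,3,4]) (.edon 0 14 (.edon 0 11 (.leaf [5,7,8,9,6]) (.leaf [11,12,13])) (.leaf [14,15,16,18,17]))) (.free 2 [0,2,10,19,20,21,22]))), .t 8 (nat_lit 0x3a303ab03aa03a703a603bd03bc) (.z (.node 2 4 (.node 2 9 (.free 4 [0,2,10,11,12,13,14,15,16,17,18,19,20,21,22]) (.leaf [5,7,8,9,6])) (.free 1 [1,3,4]))), .t 10 (nat_lit 0x725070a070706fe06fd06f806f701810180) (.z (.node 4 13 (.node 2 4 (.node 10 22 (.leaf [0,2,6,10,21]) (.edon 0 19 (.leaf [14,15,16,18,17]) (.leaf [19,20,22]))) (.leaf [1,3,4])) (.free 2 [5,7,8,9,11,12,13]))), .t 5 (nat_lit 0x72b07400733072c) (.z (.edon 0 15 (.free 4 [0,1,2,3,4,5,6,7,8,9,10,11,12,13,14]) (.node 15 19 (.leaf [15,20,22,21,17]) (.leaf [16,18,19])))),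 .t 10 (nat_lit 0x712070f070d071d07170111004200040001) (.z (.node 20 0 (.edon 0 13 (.edon 4 5 (.free 2 [4,6,7,8,10,11,12]) (.leaf [1,3,5,9,2])) (.node 14 16 (.leaf [14,18,19,20,17]) (.leaf [13,15,16]))) (.free 1 [0,21,22]))), .t 1 (nat_lit 0) (.cn 2 3), .t 10 (nat_lit 0x17e017d0725070a070706fe06fd06f806f7) (.z (.node 4 13 (.node 2 4 (.edon 14 21 (.edon 0 19 (.leaf [14,15,16,18,17]) (.leaf [19,20,22])) (.leaf [0,2,6,9,21])) (.leaf [1,3,4])) (.free 2 [5,7,8,10,11,12,13]))), .t 12 (nat_lit 0x712070f070d071d0717058f058e0115004500040002) (.z (.node 20 0 (.edon 0 13 (.node 7 10 (.edon 4 6 (.leaf [4,5,7]) (.leaf [1,3,6,9,2])) (.leaf [8,11,12,10])) (.node 14 16 (.leaf [14,18,19,20,17]) (.leaf [13,15,16]))) (.free 1 [0,21,22]))), .t 12 (nat_lit 0x712070f070d071d0717058f058e0111004200040001)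 (.z (.node 20 0 (.edon 0 13 (.node 7 10 (.edon 4 5 (.leaf [4,6,7]) (.leaf [1,3,5,9,2])) (.leaf [8,11,12,10])) (.node 14 16 (.leaf [14,18,19,20,17]) (.leaf [13,15,16]))) (.free 1 [0,21,22]))), .t 4 (nat_lit 0x40670066f) (.z (.edon 0 16 (.edon 4 13 (.free 2 [4,5,6,7,8,11,12]) (.node 0 9 (.leaf [0,10,13,14,15]) (.leaf [1,3,9,2]))) (.free 2 [16,17,18,19,20,21,22]))), .t 4 (nat_lit 0x406d206d1) (.z (.edon 0 16 (.node 0 11 (.leaf [0,12,13,14,15]) (.edon 4 9 (.free 2 [4,5,6,7,8,10,11]) (.leaf [1,3,9,2]))) (.free 2 [16,17,18,19,20,21,22]))), .t 14 (nat_lit 0xe101f601f300e900e800e300e202040203010401030038002e) (.z (.node 0 16 (.free 2 [0,17,18,19,20,21,22]) (.node 1 13 (.leaf [1,14,15,16,10,2]) (.free 3 [3,4,5,6,7,8,9,11,12,13])))), .t 10 (nat_lit 0x6f8072407230709070806f606f505730572)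 (.z (.node 0 7 (.node 10 22 (.leaf [0,8,9,10,21]) (.edon 0 14 (.leaf [11,12,13]) (.edon 0 19 (.leaf [14,15,16,17,18]) (.leaf [19,20,22])))) (.free 2 [1,2,3,4,5,6,7]))), .t 15 (nat_lit 0x6f803c0072407230709070806f606f5047b047903d303d203bd03bc) (.z (.node 2 4 (.node 6 22 (.leaf [0,2,6,21]) (.edon 0 11 (.leaf [5,7,8,9,10]) (.edon 0 14 (.leaf [11,12,13]) (.edon 0 19 (.leaf [14,15,16,17,18]) (.leaf [19,20,22]))))) (.free 1 [1,3,4]))), .t 1 (nat_lit 0) (.cn 8 3), .t 1 (nat_lit 0) (.cn 2 3), .t 5 (nat_lit 0x742073307320731) (.z (.edon 0 15 (.free 4 [0,1,2,3,4,5,6,7,8,9,10,11,12,13,14]) (.node 18 19 (.leaf [15,18,20,22,21]) (.leaf [16,17,19])))), .t 10 (nat_lit 0x6f8072407230709070806f606f501810180) (.z (.node 4 13 (.node 2 4 (.node 10 22 (.leaf [0,2,6,10,21]) (.edon 0 19 (.leaf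 [14,15,16,17,18]) (.leaf [19,20,22]))) (.leaf [1,3,4])) (.free 2 [5,7,8,9,11,12,13]))), .t 13 (nat_lit 0x7110710070c05cf058f058e0577057505620561071d0717) (.z (.node 0 7 (.node 0 12 (.node 0 20 (.leaf [0,21,22]) (.node 14 16 (.leaf [14,17,19,20,18]) (.leaf [13,15,16]))) (.leaf [8,11,12,10,9])) (.free 2 [1,2,3,4,5,6,7]))), .t 1 (nat_lit 0) (.cp 4 3), .t 5 (nat_lit 0x730074207330732) (.z (.edon 0 15 (.free 4 [0,1,2,3,4,5,6,7,8,9,10,11,12,13,14]) (.node 15 19 (.leaf [15,20,22,21,18]) (.leaf [16,17,19])))), .t 10 (nat_lit 0x7110710070c0119004a00050004071d0717) (.z (.edon 13 4 (.node 0 10 (.node 0 20 (.leaf [0,21,22]) (.node 14 16 (.leaf [14,17,19,20,18]) (.leaf [13,15,16]))) (.leaf [1,3,9,10,2])) (.free 2 [4,5,6,7,8,11,12]))), .t 15 (nat_lit 0x3a306f803ab03aa03a703a6072407230709070806f606f503bd03bc)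 (.z (.node 22 4 (.edon 0 11 (.leaf [5,7,8,9,6]) (.edon 0 14 (.leaf [11,12,13]) (.edon 0 19 (.leaf [14,15,16,17,18]) (.leaf [19,20,22])))) (.free 2 [0,1,2,3,4,10,21]))), .t 10 (nat_lit 0x6f8072407230709070806f606f501c701c6) (.z (.node 2 4 (.edon 19 21 (.leaf [19,20,22]) (.node 9 18 (.leaf [0,2,9,10,21]) (.edon 0 14 (.free 2 [5,6,7,8,11,12,13]) (.leaf [14,15,16,17,18])))) (.free 1 [1,3,4]))), .t 9 (nat_lit 0x6f8072407230709070806f606f5004b) (.z (.edon 13 4 (.edon 1 19 (.edon 0 14 (.leaf [1,3,13,9]) (.leaf [14,15,16,17,18])) (.free 2 [0,2,10,19,20,21,22])) (.free 2 [4,5,6,7,8,11,12]))), .t 1 (nat_lit 0) (.fa 6), .t 1 (nat_lit 0) (.cn 7 3), .t 1 (nat_lit 0) (.fa 4)] (by decide +kernel) (by decide +kernel)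
theorem b60 : B 1920 1952 := Blk.of_chk [.t 3 (nat_lit 0x13f013e) (.z (.node 2 4 (.edon 7 10 (.free 4 [7,8,9,11,12,13,14,15,16,17,18,19,20,21,22]) (.leaf [0,2,5,6,10])) (.free 1 [1,3,4]))), .t 10 (nat_lit 0x712070f070d0119004a00050004071d0717) (.z (.edon 13 4 (.node 0 10 (.node 0 20 (.leaf [0,21,22]) (.node 14 16 (.leaf [14,18,19,20,17]) (.leaf [13,15,16]))) (.leaf [1,3,9,10,2])) (.free 2 [4,5,6,7,8,11,12]))), .t 1 (nat_lit 0) (.cn 8 3), .t 7 (nat_lit 0x119004a00050004070f070e) (.z (.edon 0 20 (.node 0 12 (.node 14 16 (.leaf [0,14,17,18,19]) (.leaf [13,15,16])) (.edon 4 9 (.free 2 [4,5,6,7,8,11,12]) (.leaf [1,3,9,10,2]))) (.free 1 [20,21,22]))), .t 15 (nat_lit 0x3a70725070a070706fe06fd06f806f7041e041d03bd03bc03a503a4) (.z (.node 22 4 (.edon 0 11 (.leaf [5,6,7,8,9]) (.edon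 0 14 (.leaf [11,12,13]) (.edon 0 19 (.leaf [14,15,16,18,17]) (.leaf [19,20,22])))) (.free 2 [0,1,2,3,4,10,21]))), .t 15 (nat_lit 0x3a303ab03aa03a703a60725070a070706fe06fd06f806f703bd03bc) (.z (.node 22 4 (.edon 0 11 (.leaf [5,7,8,9,6]) (.edon 0 14 (.leaf [11,12,13]) (.edon 0 19 (.leaf [14,15,16,18,17]) (.leaf [19,20,22])))) (.free 2 [0,1,2,3,4,10,21]))), .t 1 (nat_lit 0) (.cn 7 3), .t 15 (nat_lit 0x3a303ab03aa03a703a60725069b069806930692068d068c03bd03bc) (.z (.edon 1 19 (.edon 0 5 (.leaf [1,3,4]) (.edon 0 10 (.leaf [5,7,8,9,6]) (.node 10 13 (.leaf [10,15,16,18,17]) (.leaf [11,12,13])))) (.free 2 [0,2,14,19,20,21,22]))), .t 12 (nat_lit 0x5d205d905d805d505d407400722071c071b060b060a) (.z (.edon 0 7 (.free 2 [0,1,2,3,4,5,6]) (.node 9 11 (.edon 10 16 (.leaf [9,12,13,15,10])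 (.node 17 19 (.leaf [14,17,20,22,21]) (.leaf [16,18,19]))) (.leaf [7,8,11])))), .t 1 (nat_lit 0) (.cn 3 3), .t 1 (nat_lit 0) (.cn 7 3), .t 15 (nat_lit 0x6f80421072407230709070806f606f5047b047904340433041e041d) (.z (.node 2 4 (.edon 6 21 (.edon 0 11 (.leaf [6,7,8,9,10]) (.edon 0 14 (.leaf [11,12,13]) (.edon 0 19 (.leaf [14,15,16,17,18]) (.leaf [19,20,22])))) (.leaf [0,2,5,21])) (.free 1 [1,3,4]))), .t 15 (nat_lit 0x6f803a7072407230709070806f606f5041e041d03bd03bc03a503a4) (.z (.edon 1 19 (.edon 0 5 (.leaf [1,3,4]) (.edon 0 11 (.leaf [5,6,7,8,9]) (.edon 0 14 (.leaf [11,12,13]) (.leaf [14,15,16,17,18])))) (.free 2 [0,2,10,19,20,21,22]))), .t 1 (nat_lit 0) (.cn 8 3), .t 12 (nat_lit 0x5d205d905d805d505d4074207220720071f060b060a) (.z (.edon 0 7 (.free 2 [0,1,2,3,4,5,6]) (.node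 9 11 (.edon 10 16 (.leaf [9,12,13,15,10]) (.node 18 19 (.leaf [14,18,20,22,21]) (.leaf [16,17,19]))) (.leaf [7,8,11])))), .t 3 (nat_lit 0x1410140) (.z (.node 2 4 (.edon 7 21 (.free 4 [7,8,9,10,11,12,13,14,15,16,17,18,19,20,22]) (.leaf [0,2,5,6,21])) (.free 1 [1,3,4]))), .t 15 (nat_lit 0x3a90725070a070706fe06fd06f806f70421042003c003bf03a503a4) (.z (.node 22 4 (.edon 0 11 (.leaf [5,6,7,8,10]) (.edon 0 14 (.leaf [11,12,13]) (.edon 0 19 (.leaf [14,15,16,18,17]) (.leaf [19,20,22])))) (.free 2 [0,1,2,3,4,9,21]))), .t 3 (nat_lit 0x13d013c) (.z (.node 2 4 (.edon 7 9 (.free 4 [7,8,10,11,12,13,14,15,16,17,18,19,20,21,22]) (.leaf [0,2,5,6,9])) (.free 1 [1,3,4]))), .t 15 (nat_lit 0x3a303ad03ac03a903a80725070a070706fe06fd06f806f703c003bf) (.z (.node 22 4 (.edon 0 11 (.leaf [5,7,8,10,6])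 (.edon 0 14 (.leaf [11,12,13]) (.edon 0 19 (.leaf [14,15,16,18,17]) (.leaf [19,20,22])))) (.free 2 [0,1,2,3,4,9,21]))), .t 1 (nat_lit 0) (.cn 8 3), .t 17 (nat_lit 0x3a303ac03ab03aa03a803a703a6047c03d403d103c203c103c003bf03b103af) (.z (.node 4 22 (.free 2 [0,1,2,3,4,14,21]) (.edon 0 11 (.leaf [5,7,8,10,9,6]) (.free 3 [11,12,13,15,16,17,18,19,20,22])))), .t 7 (nat_lit 0x74207220720071f013d013c) (.z (.node 2 4 (.edon 7 16 (.free 2 [7,8,10,11,12,13,15]) (.edon 0 14 (.leaf [0,2,5,6,9]) (.node 18 19 (.leaf [14,18,20,22,21]) (.leaf [16,17,19])))) (.free 1 [1,3,4]))), .t 7 (nat_lit 0x7400722071c071b013d013c) (.z (.node 2 4 (.edon 7 16 (.free 2 [7,8,10,11,12,13,15]) (.edon 0 14 (.leaf [0,2,5,6,9]) (.node 17 19 (.leaf [14,17,20,22,21]) (.leaf [16,18,19])))) (.free 1 [1,3,4]))),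 .t 9 (nat_lit 0x58f058e0111004200040001070f070e) (.z (.edon 0 20 (.node 0 12 (.node 14 16 (.leaf [0,14,17,18,19]) (.leaf [13,15,16])) (.node 7 10 (.edon 4 5 (.leaf [4,6,7]) (.leaf [1,3,5,9,2])) (.leaf [8,11,12,10]))) (.free 1 [20,21,22]))), .t 15 (nat_lit 0x68d03a707240723069a0699068b068a041e041d03bd03bc03a503a4) (.z (.edon 1 19 (.edon 0 5 (.leaf [1,3,4]) (.edon 0 10 (.leaf [5,6,7,8,9]) (.node 10 13 (.leaf [10,15,16,17,18]) (.leaf [11,12,13])))) (.free 2 [0,2,14,19,20,21,22]))), .t 15 (nat_lit 0x3a70725069b069806930692068d068c041e041d03bd03bc03a503a4) (.z (.edon 1 19 (.edon 0 5 (.leaf [1,3,4]) (.edon 0 10 (.leaf [5,6,7,8,9]) (.node 10 13 (.leaf [10,15,16,18,17]) (.leaf [11,12,13])))) (.free 2 [0,2,14,19,20,21,22]))), .t 9 (nat_lit 0x58f058e0115004500040002070f070e) (.z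 (.edon 0 20 (.node 0 12 (.node 14 16 (.leaf [0,14,17,18,19]) (.leaf [13,15,16])) (.node 7 10 (.edon 4 6 (.leaf [4,5,7]) (.leaf [1,3,6,9,2])) (.leaf [8,11,12,10]))) (.free 1 [20,21,22]))), .t 15 (nat_lit 0x3a306f803ad03ac03a903a8072407230709070806f606f503c003bf) (.z (.node 22 4 (.edon 0 11 (.leaf [5,7,8,10,6]) (.edon 0 14 (.leaf [11,12,13]) (.edon 0 19 (.leaf [14,15,16,17,18]) (.leaf [19,20,22])))) (.free 2 [0,1,2,3,4,9,21]))), .t 1 (nat_lit 0) (.cn 8 3), .t 15 (nat_lit 0x6f803a9072407230709070806f606f50421042003c003bf03a503a4) (.z (.node 22 4 (.edon 0 11 (.leaf [5,6,7,8,10]) (.edon 0 14 (.leaf [11,12,13]) (.edon 0 19 (.leaf [14,15,16,17,18]) (.leaf [19,20,22])))) (.free 2 [0,1,2,3,4,9,21]))), .t 1 (nat_lit 0) (.cn 7 3), .t 12 (nat_lit 0x7110710070c071d0717058f058e0111004200040001)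 (.z (.node 20 0 (.edon 0 13 (.node 7 10 (.edon 4 5 (.leaf [4,6,7]) (.leaf [1,3,5,9,2])) (.leaf [8,11,12,10])) (.node 14 16 (.leaf [14,17,19,20,18]) (.leaf [13,15,16]))) (.free 1 [0,21,22])))] (by decide +kernel) (by decide +kernel)

end Pool.Agent.GCP.F9_11_13
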