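import Pool.Agent.GCP.F9_11_14Db

set_option autoImplicit false
set_option maxRecDepth 100000

/-! # Blocks F9_11_14B0 (generated) -/

namespace Pool.Agent.GCP.F9_11_14

open Pool.Agent.GCP DB

theorem b0 : B 0 32 := Blk.of_chk [.t 1 (nat_lit 0) (.ax 1 2 3 5 1), .t 1 (nat_lit 0) (.ax 1 2 3 6 1), .t 1 (nat_lit 0) (.ax 1 2 3 8 1), .t 1 (nat_lit 0) (.ax 1 2 3 9 1), .t 1 (nat_lit 0) (.ax 1 2 3 10 1), .t 1 (nat_lit 0) (.ax 1 2 3 14 1), .t 1 (nat_lit 0) (.ax 1 2 3 16 1), .t 1 (nat_lit 0) (.ax 1 2 3 18 1), .t 1 (nat_lit 0) (.ax 1 2 4 5 1), .t 1 (nat_lit 0) (.ax 1 2 4 6 1), .t 1 (nat_lit 0) (.ax 1 2 4 8 1), .t 1 (nat_lit 0) (.ax 1 2 4 9 1), .t 1 (nat_lit 0) (.ax 1 2 4 10 1), .t 1 (nat_lit 0) (.ax 1 2 4 11 1), .t 1 (nat_lit 0) (.ax 1 2 4 12 1), .t 1 (nat_lit 0) (.ax 1 2 4 13 1), .t 1 (nat_lit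 0) (.ax 1 2 4 14 1), .t 1 (nat_lit 0) (.ax 1 2 4 15 1), .t 1 (nat_lit 0) (.ax 1 2 4 16 1), .t 1 (nat_lit 0) (.ax 1 2 4 17 1), .t 1 (nat_lit 0) (.ax 1 2 4 18 1), .t 1 (nat_lit 0) (.ax 1 2 4 19 1), .t 1 (nat_lit 0) (.ax 1 2 4 20 1), .t 1 (nat_lit 0) (.ax 1 2 4 21 1), .t 1 (nat_lit 0) (.ax 1 2 4 22 1), .t 1 (nat_lit 0) (.ax 1 2 5 7 1), .t 1 (nat_lit 0) (.ax 1 2 6 7 1), .t 1 (nat_lit 0) (.ax 1 2 6 7 3), .t 1 (nat_lit 0) (.ax 1 2 6 22 1), .t 1 (nat_lit 0) (.ax 1 2 7 9 1), .t 1 (nat_lit 0) (.ax 1 2 7 10 1), .t 1 (nat_lit 0) (.ax 1 2 7 16 1)] (by decide +kernel) (by decide +kernel)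
theorem b1 : B 32 64 := Blk.of_chk [.t 1 (nat_lit 0) (.ax 1 2 10 16 1), .t 1 (nat_lit 0) (.ax 1 2 10 22 1), .t 1 (nat_lit 0) (.ax 1 2 11 16 1), .t 1 (nat_lit 0) (.ax 1 2 11 19 1), .t 1 (nat_lit 0) (.ax 1 2 13 16 1), .t 1 (nat_lit 0) (.ax 1 2 14 22 1), .t 1 (nat_lit 0) (.ax 1 2 16 17 1), .t 1 (nat_lit 0) (.ax 1 2 16 18 1), .t 1 (nat_lit 0) (.ax 1 2 17 18 1), .t 1 (nat_lit 0) (.ax 1 2 19 21 1), .t 1 (nat_lit 0) (.ax 1 3 5 8 0), .t 1 (nat_lit 0) (.ax 1 3 5 9 0), .t 1 (nat_lit 0) (.ax 1 3 5 10 0), .t 1 (nat_lit 0) (.ax 1 3 6 8 0), .t 1 (nat_lit 0) (.ax 1 3 6 9 0), .t 1 (nat_lit 0) (.ax 1 3 6 10 0), .t 1 (nat_lit 0) (.ax 1 3 10 19 0), .t 1 (nat_lit 0) (.ax 1 4 5 6 0), .t 1 (nat_lit 0) (.ax 1 4 5 10 0), .t 1 (nat_lit 0) (.ax 1 4 6 10 0), .t 1 (nat_lit 0) (.ax 1 4 7 8 0), .t 1 (nat_lit 0)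 (.ax 1 4 7 9 0), .t 1 (nat_lit 0) (.ax 1 4 7 10 0), .t 1 (nat_lit 0) (.ax 1 4 7 12 0), .t 1 (nat_lit 0) (.ax 1 4 7 13 0), .t 1 (nat_lit 0) (.ax 1 4 7 14 0), .t 1 (nat_lit 0) (.ax 1 4 7 15 0), .t 1 (nat_lit 0) (.ax 1 4 7 16 0), .t 1 (nat_lit 0) (.ax 1 4 7 17 0), .t 1 (nat_lit 0) (.ax 1 4 7 18 0), .t 1 (nat_lit 0) (.ax 1 4 7 19 0), .t 1 (nat_lit 0) (.ax 1 4 7 20 0)] (by decide +kernel) (by decide +kernel)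
theorem b2 : B 64 96 := Blk.of_chk [.t 1 (nat_lit 0) (.ax 1 4 7 21 0), .t 1 (nat_lit 0) (.ax 1 4 7 22 0), .t 1 (nat_lit 0) (.ax 1 4 8 9 0), .t 1 (nat_lit 0) (.ax 1 4 8 11 0), .t 1 (nat_lit 0) (.ax 1 4 8 19 0), .t 1 (nat_lit 0) (.ax 1 4 10 19 0), .t 1 (nat_lit 0) (.ax 1 5 6 7 1), .t 1 (nat_lit 0) (.ax 1 5 6 7 6), .t 1 (nat_lit 0) (.ax 1 5 6 13 3), .t 1 (nat_lit 0) (.ax 1 5 6 19 3), .t 1 (nat_lit 0) (.ax 1 5 6 21 3), .t 1 (nat_lit 0) (.ax 1 5 6 22 3), .t 1 (nat_lit 0) (.ax 1 5 9 10 4), .t 1 (nat_lit 0) (.ax 1 5 9 10 6), .t 1 (nat_lit 0) (.ax 1 5 9 19 6), .t 1 (nat_lit 0) (.ax 1 5 10 16 2), .t 1 (nat_lit 0) (.ax 1 5 10 21 6), .t 1 (nat_lit 0) (.ax 1 6 7 13 4), .t 1 (nat_lit 0) (.ax 1 6 7 16 4), .t 1 (nat_lit 0) (.ax 1 6 7 19 4), .t 1 (nat_lit 0) (.ax 1 6 8 10 0), .t 1 (nat_lit 0) (.ax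 1 6 10 16 0), .t 1 (nat_lit 0) (.ax 1 6 10 19 0), .t 1 (nat_lit 0) (.ax 1 6 21 22 5), .t 1 (nat_lit 0) (.ax 1 7 8 9 0), .t 1 (nat_lit 0) (.ax 1 7 8 10 0), .t 1 (nat_lit 0) (.ax 1 7 8 16 0), .t 1 (nat_lit 0) (.ax 1 7 11 16 0), .t 1 (nat_lit 0) (.ax 1 7 11 17 0), .t 1 (nat_lit 0) (.ax 1 7 11 18 0), .t 1 (nat_lit 0) (.ax 1 7 11 19 0), .t 1 (nat_lit 0) (.ax 1 7 11 21 0)] (by decide +kernel) (by decide +kernel)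
theorem b3 : B 96 128 := Blk.of_chk [.t 1 (nat_lit 0) (.ax 1 7 11 22 0), .t 1 (nat_lit 0) (.ax 1 7 12 16 0), .t 1 (nat_lit 0) (.ax 1 7 13 16 0), .t 1 (nat_lit 0) (.ax 1 7 15 16 0), .t 1 (nat_lit 0) (.ax 1 8 9 10 2), .t 1 (nat_lit 0) (.ax 1 8 9 10 6), .t 1 (nat_lit 0) (.ax 1 8 9 16 5), .t 1 (nat_lit 0) (.ax 1 8 11 19 4), .t 1 (nat_lit 0) (.ax 1 8 16 19 4), .t 1 (nat_lit 0) (.ax 1 9 10 19 1), .t 1 (nat_lit 0) (.ax 1 9 10 22 3), .t 1 (nat_lit 0) (.ax 1 10 13 16 0), .t 1 (nat_lit 0) (.ax 1 10 16 19 4), .t 1 (nat_lit 0) (.ax 1 10 21 22 5), .t 1 (nat_lit 0) (.ax 1 11 14 17 0), .t 1 (nat_lit 0) (.ax 1 11 14 18 0), .t 1 (nat_lit 0) (.ax 1 11 14 19 0), .t 1 (nat_lit 0) (.ax 1 11 14 21 0), .t 1 (nat_lit 0) (.ax 1 11 14 22 0), .t 1 (nat_lit 0) (.ax 1 11 17 19 0), .t 1 (nat_lit 0) (.ax 1 12 16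 18 4), .t 1 (nat_lit 0) (.ax 1 12 16 19 4), .t 1 (nat_lit 0) (.ax 1 12 18 19 2), .t 1 (nat_lit 0) (.ax 1 13 16 17 4), .t 1 (nat_lit 0) (.ax 1 13 16 18 4), .t 1 (nat_lit 0) (.ax 1 13 16 19 4), .t 1 (nat_lit 0) (.ax 1 13 17 18 0), .t 1 (nat_lit 0) (.ax 1 13 17 18 2), .t 1 (nat_lit 0) (.ax 1 14 16 17 0), .t 1 (nat_lit 0) (.ax 1 14 16 18 0), .t 1 (nat_lit 0) (.ax 1 14 16 21 0), .t 1 (nat_lit 0) (.ax 1 15 16 18 4)] (by decide +kernel) (by decide +kernel)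
theorem b4 : B 128 160 := Blk.of_chk [.t 1 (nat_lit 0) (.ax 1 15 16 19 4), .t 1 (nat_lit 0) (.ax 1 15 18 19 2), .t 1 (nat_lit 0) (.ax 1 16 19 21 0), .t 1 (nat_lit 0) (.ax 1 17 18 19 2), .t 1 (nat_lit 0) (.ax 1 17 18 19 4), .t 1 (nat_lit 0) (.ax 2 3 5 8 0), .t 1 (nat_lit 0) (.ax 2 3 5 9 0), .t 1 (nat_lit 0) (.ax 2 3 5 10 0), .t 1 (nat_lit 0) (.ax 2 3 6 8 0), .t 1 (nat_lit 0) (.ax 2 3 6 9 0), .t 1 (nat_lit 0) (.ax 2 3 6 10 0), .t 1 (nat_lit 0) (.ax 2 3 10 16 0), .t 1 (nat_lit 0) (.ax 2 3 13 14 0), .t 1 (nat_lit 0) (.ax 2 3 13 16 0), .t 1 (nat_lit 0) (.ax 2 3 17 18 0), .t 1 (nat_lit 0) (.ax 2 4 5 6 0), .t 1 (nat_lit 0) (.ax 2 4 8 9 0), .t 1 (nat_lit 0) (.ax 2 4 8 11 0), .t 1 (nat_lit 0) (.ax 2 4 8 19 0), .t 1 (nat_lit 0) (.ax 2 4 8 22 0), .t 1 (nat_lit 0) (.ax 2 4 10 16 0), .t 1 (nat_lit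 0) (.ax 2 4 13 16 0), .t 1 (nat_lit 0) (.ax 2 4 17 18 0), .t 1 (nat_lit 0) (.ax 2 5 6 7 0), .t 1 (nat_lit 0) (.ax 2 5 6 7 1), .t 1 (nat_lit 0) (.ax 2 5 6 7 5), .t 1 (nat_lit 0) (.ax 2 5 6 8 0), .t 1 (nat_lit 0) (.ax 2 5 6 8 1), .t 1 (nat_lit 0) (.ax 2 5 6 8 4), .t 1 (nat_lit 0) (.ax 2 5 6 13 2), .t 1 (nat_lit 0) (.ax 2 5 6 13 4), .t 1 (nat_lit 0) (.ax 2 5 7 8 1)] (by decide +kernel) (by decide +kernel)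
theorem b5 : B 160 192 := Blk.of_chk [.t 1 (nat_lit 0) (.ax 2 5 7 8 2), .t 1 (nat_lit 0) (.ax 2 5 7 8 4), .t 1 (nat_lit 0) (.ax 2 5 8 9 6), .t 1 (nat_lit 0) (.ax 2 5 8 10 4), .t 1 (nat_lit 0) (.ax 2 5 8 10 6), .t 1 (nat_lit 0) (.ax 2 5 8 13 6), .t 1 (nat_lit 0) (.ax 2 5 8 16 6), .t 1 (nat_lit 0) (.ax 2 5 8 18 6), .t 1 (nat_lit 0) (.ax 2 5 8 19 6), .t 1 (nat_lit 0) (.ax 2 5 8 21 2), .t 1 (nat_lit 0) (.ax 2 5 8 21 4), .t 1 (nat_lit 0) (.ax 2 5 8 21 6), .t 1 (nat_lit 0) (.ax 2 5 8 22 6), .t 1 (nat_lit 0) (.ax 2 5 9 13 2), .t 1 (nat_lit 0) (.ax 2 5 9 16 6), .t 1 (nat_lit 0) (.ax 2 5 10 13 2), .t 1 (nat_lit 0) (.ax 2 5 10 13 4), .t 1 (nat_lit 0) (.ax 2 5 10 16 0), .t 1 (nat_lit 0) (.ax 2 5 10 21 2), .t 1 (nat_lit 0) (.ax 2 5 10 21 4), .t 1 (nat_lit 0) (.ax 2 5 13 16 0), .t 1 (nat_lit 0)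 (.ax 2 5 13 18 0), .t 1 (nat_lit 0) (.ax 2 5 13 21 2), .t 1 (nat_lit 0) (.ax 2 5 13 21 4), .t 1 (nat_lit 0) (.ax 2 6 7 8 1), .t 1 (nat_lit 0) (.ax 2 6 7 8 2), .t 1 (nat_lit 0) (.ax 2 6 7 8 4), .t 1 (nat_lit 0) (.ax 2 6 7 13 4), .t 1 (nat_lit 0) (.ax 2 6 7 16 4), .t 1 (nat_lit 0) (.ax 2 6 7 18 4), .t 1 (nat_lit 0) (.ax 2 6 8 10 2), .t 1 (nat_lit 0) (.ax 2 6 8 13 6)] (by decide +kernel) (by decide +kernel)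
theorem b6 : B 192 224 := Blk.of_chk [.t 1 (nat_lit 0) (.ax 2 6 10 16 0), .t 1 (nat_lit 0) (.ax 2 6 13 16 0), .t 1 (nat_lit 0) (.ax 2 6 13 21 2), .t 1 (nat_lit 0) (.ax 2 6 13 21 4), .t 1 (nat_lit 0) (.ax 2 6 17 18 0), .t 1 (nat_lit 0) (.ax 2 6 21 22 5), .t 1 (nat_lit 0) (.ax 2 7 8 9 0), .t 1 (nat_lit 0) (.ax 2 7 8 10 0), .t 1 (nat_lit 0) (.ax 2 7 8 16 0), .t 1 (nat_lit 0) (.ax 2 7 9 16 0), .t 1 (nat_lit 0) (.ax 2 7 12 16 0), .t 1 (nat_lit 0) (.ax 2 7 13 16 0), .t 1 (nat_lit 0) (.ax 2 7 15 16 0), .t 1 (nat_lit 0) (.ax 2 8 9 10 4), .t 1 (nat_lit 0) (.ax 2 8 9 10 6), .t 1 (nat_lit 0) (.ax 2 8 9 16 5), .t 1 (nat_lit 0) (.ax 2 8 9 16 6), .t 1 (nat_lit 0) (.ax 2 8 10 21 6), .t 1 (nat_lit 0) (.ax 2 8 10 22 6), .t 1 (nat_lit 0) (.ax 2 8 11 13 4), .t 1 (nat_lit 0) (.ax 2 8 11 16 4), .t 1 (nat_lit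 0) (.ax 2 8 11 19 4), .t 1 (nat_lit 0) (.ax 2 8 16 18 4), .t 1 (nat_lit 0) (.ax 2 8 19 21 4), .t 1 (nat_lit 0) (.ax 2 8 19 22 4), .t 1 (nat_lit 0) (.ax 2 8 21 22 5), .t 1 (nat_lit 0) (.ax 2 9 10 16 0), .t 1 (nat_lit 0) (.ax 2 9 10 16 1), .t 1 (nat_lit 0) (.ax 2 9 10 22 3), .t 1 (nat_lit 0) (.ax 2 9 13 16 6), .t 1 (nat_lit 0) (.ax 2 10 13 16 0), .t 1 (nat_lit 0) (.ax 2 10 13 16 1)] (by decide +kernel) (by decide +kernel)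
theorem b7 : B 224 256 := Blk.of_chk [.t 1 (nat_lit 0) (.ax 2 10 13 21 2), .t 1 (nat_lit 0) (.ax 2 10 13 21 4), .t 1 (nat_lit 0) (.ax 2 10 13 22 5), .t 1 (nat_lit 0) (.ax 2 10 21 22 5), .t 1 (nat_lit 0) (.ax 2 13 14 17 4), .t 1 (nat_lit 0) (.ax 2 13 16 17 4), .t 1 (nat_lit 0) (.ax 2 13 16 18 4), .t 1 (nat_lit 0) (.ax 2 13 17 18 0), .t 1 (nat_lit 0) (.ax 2 13 17 18 2), .t 1 (nat_lit 0) (.ax 2 17 18 19 2), .t 1 (nat_lit 0) (.ax 2 17 18 19 4), .t 1 (nat_lit 0) (.ax 3 4 5 8 0), .t 1 (nat_lit 0) (.ax 3 4 5 9 0), .t 1 (nat_lit 0) (.ax 3 4 5 10 0), .t 1 (nat_lit 0) (.ax 3 4 5 22 0), .t 1 (nat_lit 0) (.ax 3 4 6 8 0), .t 1 (nat_lit 0) (.ax 3 4 6 8 2), .t 1 (nat_lit 0) (.ax 3 4 6 9 0), .t 1 (nat_lit 0) (.ax 3 4 6 10 0), .t 1 (nat_lit 0) (.ax 3 4 6 21 0), .t 1 (nat_lit 0) (.ax 3 4 6 22 0), .t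 1 (nat_lit 0) (.ax 3 4 7 9 0), .t 1 (nat_lit 0) (.ax 3 4 7 10 0), .t 1 (nat_lit 0) (.ax 3 4 7 16 0), .t 1 (nat_lit 0) (.ax 3 4 7 19 0), .t 1 (nat_lit 0) (.ax 3 4 7 22 0), .t 1 (nat_lit 0) (.ax 3 4 8 9 0), .t 1 (nat_lit 0) (.ax 3 4 8 11 0), .t 1 (nat_lit 0) (.ax 3 4 8 19 0), .t 1 (nat_lit 0) (.ax 3 4 10 22 0), .t 1 (nat_lit 0) (.ax 3 5 6 8 0), .t 1 (nat_lit 0) (.ax 3 5 6 8 1)] (by decide +kernel) (by decide +kernel)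
theorem b8 : B 256 288 := Blk.of_chk [.t 1 (nat_lit 0) (.ax 3 5 6 8 4), .t 1 (nat_lit 0) (.ax 3 5 6 8 5), .t 1 (nat_lit 0) (.ax 3 5 6 8 7), .t 1 (nat_lit 0) (.ax 3 5 6 9 0), .t 1 (nat_lit 0) (.ax 3 5 6 9 1), .t 1 (nat_lit 0) (.ax 3 5 6 9 4), .t 1 (nat_lit 0) (.ax 3 5 6 9 5), .t 1 (nat_lit 0) (.ax 3 5 6 10 0), .t 1 (nat_lit 0) (.ax 3 5 6 10 1), .t 1 (nat_lit 0) (.ax 3 5 6 10 4), .t 1 (nat_lit 0) (.ax 3 5 6 10 5), .t 1 (nat_lit 0) (.ax 3 5 6 21 2), .t 1 (nat_lit 0) (.ax 3 5 9 13 3), .t 1 (nat_lit 0) (.ax 3 5 9 21 6), .t 1 (nat_lit 0) (.ax 3 5 10 21 6), .t 1 (nat_lit 0) (.ax 3 5 21 22 5), .t 1 (nat_lit 0) (.ax 3 6 8 12 3), .t 1 (nat_lit 0) (.ax 3 6 8 21 3), .t 1 (nat_lit 0) (.ax 3 6 8 21 6), .t 1 (nat_lit 0) (.ax 3 6 8 22 3), .t 1 (nat_lit 0) (.ax 3 6 9 10 6), .t 1 (nat_lit 0) (.ax 3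 6 9 22 5), .t 1 (nat_lit 0) (.ax 3 6 10 22 5), .t 1 (nat_lit 0) (.ax 3 7 8 9 0), .t 1 (nat_lit 0) (.ax 3 7 8 10 0), .t 1 (nat_lit 0) (.ax 3 7 8 16 0), .t 1 (nat_lit 0) (.ax 3 7 9 16 0), .t 1 (nat_lit 0) (.ax 3 7 11 16 0), .t 1 (nat_lit 0) (.ax 3 7 11 19 0), .t 1 (nat_lit 0) (.ax 3 7 11 22 0), .t 1 (nat_lit 0) (.ax 3 8 9 10 0), .t 1 (nat_lit 0) (.ax 3 8 9 10 4)] (by decide +kernel) (by decide +kernel)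
theorem b9 : B 288 320 := Blk.of_chk [.t 1 (nat_lit 0) (.ax 3 8 9 16 5), .t 1 (nat_lit 0) (.ax 3 8 11 12 4), .t 1 (nat_lit 0) (.ax 3 8 11 21 4), .t 1 (nat_lit 0) (.ax 3 8 11 22 4), .t 1 (nat_lit 0) (.ax 3 8 19 21 4), .t 1 (nat_lit 0) (.ax 3 9 13 14 3), .t 1 (nat_lit 0) (.ax 3 9 16 21 4), .t 1 (nat_lit 0) (.ax 3 10 13 16 0), .t 1 (nat_lit 0) (.ax 3 10 16 19 4), .t 1 (nat_lit 0) (.ax 3 10 21 22 5), .t 1 (nat_lit 0) (.ax 3 11 14 22 0), .t 1 (nat_lit 0) (.ax 3 13 16 18 4), .t 1 (nat_lit 0) (.ax 3 13 17 18 0), .t 1 (nat_lit 0) (.ax 4 5 6 8 3), .t 1 (nat_lit 0) (.ax 4 5 6 8 4), .t 1 (nat_lit 0) (.ax 4 5 6 8 5), .t 1 (nat_lit 0) (.ax 4 5 6 9 4), .t 1 (nat_lit 0) (.ax 4 5 6 9 5), .t 1 (nat_lit 0) (.ax 4 5 6 9 6), .t 1 (nat_lit 0) (.ax 4 5 6 10 2), .t 1 (nat_lit 0) (.ax 4 5 6 10 4), .t 1 (nat_lit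 0) (.ax 4 5 6 10 5), .t 1 (nat_lit 0) (.ax 4 5 6 10 6), .t 1 (nat_lit 0) (.ax 4 5 6 10 7), .t 1 (nat_lit 0) (.ax 4 5 6 11 6), .t 1 (nat_lit 0) (.ax 4 5 6 11 7), .t 1 (nat_lit 0) (.ax 4 5 6 21 2), .t 1 (nat_lit 0) (.ax 4 5 6 22 2), .t 1 (nat_lit 0) (.ax 4 5 6 22 4), .t 1 (nat_lit 0) (.ax 4 5 6 22 6), .t 1 (nat_lit 0) (.ax 4 5 7 8 3), .t 1 (nat_lit 0) (.ax 4 5 7 9 3)] (by decide +kernel) (by decide +kernel)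
theorem b10 : B 320 352 := Blk.of_chk [.t 1 (nat_lit 0) (.ax 4 5 7 10 3), .t 1 (nat_lit 0) (.ax 4 5 7 13 3), .t 1 (nat_lit 0) (.ax 4 5 7 16 3), .t 1 (nat_lit 0) (.ax 4 5 7 19 3), .t 1 (nat_lit 0) (.ax 4 5 7 21 3), .t 1 (nat_lit 0) (.ax 4 5 7 22 3), .t 1 (nat_lit 0) (.ax 4 5 8 9 2), .t 1 (nat_lit 0) (.ax 4 5 8 9 3), .t 1 (nat_lit 0) (.ax 4 5 8 9 4), .t 1 (nat_lit 0) (.ax 4 5 8 9 6), .t 1 (nat_lit 0) (.ax 4 5 8 9 7), .t 1 (nat_lit 0) (.ax 4 5 8 10 2), .t 1 (nat_lit 0) (.ax 4 5 8 10 4), .t 1 (nat_lit 0) (.ax 4 5 8 10 6), .t 1 (nat_lit 0) (.ax 4 5 8 10 7), .t 1 (nat_lit 0) (.ax 4 5 8 11 6), .t 1 (nat_lit 0) (.ax 4 5 8 11 7), .t 1 (nat_lit 0) (.ax 4 5 8 14 6), .t 1 (nat_lit 0) (.ax 4 5 8 19 3), .t 1 (nat_lit 0) (.ax 4 5 8 21 3), .t 1 (nat_lit 0) (.ax 4 5 8 21 5), .t 1 (nat_lit 0) (.ax 4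 5 8 22 3), .t 1 (nat_lit 0) (.ax 4 5 8 22 6), .t 1 (nat_lit 0) (.ax 4 5 8 22 7), .t 1 (nat_lit 0) (.ax 4 5 9 10 0), .t 1 (nat_lit 0) (.ax 4 5 9 10 1), .t 1 (nat_lit 0) (.ax 4 5 9 10 4), .t 1 (nat_lit 0) (.ax 4 5 9 10 7), .t 1 (nat_lit 0) (.ax 4 5 9 11 6), .t 1 (nat_lit 0) (.ax 4 5 9 11 7), .t 1 (nat_lit 0) (.ax 4 5 9 12 6), .t 1 (nat_lit 0) (.ax 4 5 9 21 3)] (by decide +kernel) (by decide +kernel)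
theorem b11 : B 352 384 := Blk.of_chk [.t 1 (nat_lit 0) (.ax 4 5 9 22 1), .t 1 (nat_lit 0) (.ax 4 5 9 22 3), .t 1 (nat_lit 0) (.ax 4 5 9 22 4), .t 1 (nat_lit 0) (.ax 4 5 9 22 6), .t 1 (nat_lit 0) (.ax 4 5 9 22 7), .t 1 (nat_lit 0) (.ax 4 5 10 14 7), .t 1 (nat_lit 0) (.ax 4 5 10 19 2), .t 1 (nat_lit 0) (.ax 4 5 10 21 3), .t 1 (nat_lit 0) (.ax 4 5 10 22 1), .t 1 (nat_lit 0) (.ax 4 5 10 22 2), .t 1 (nat_lit 0) (.ax 4 5 10 22 3), .t 1 (nat_lit 0) (.ax 4 5 10 22 4), .t 1 (nat_lit 0) (.ax 4 5 10 22 6), .t 1 (nat_lit 0) (.ax 4 5 12 14 4), .t 1 (nat_lit 0) (.ax 4 5 13 19 2), .t 1 (nat_lit 0) (.ax 4 5 13 21 1), .t 1 (nat_lit 0) (.ax 4 5 13 21 2), .t 1 (nat_lit 0) (.ax 4 5 13 21 4), .t 1 (nat_lit 0) (.ax 4 5 13 22 0), .t 1 (nat_lit 0) (.ax 4 5 13 22 7), .t 1 (nat_lit 0) (.ax 4 5 21 22 5), .t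 1 (nat_lit 0) (.ax 4 6 7 8 3), .t 1 (nat_lit 0) (.ax 4 6 7 9 3), .t 1 (nat_lit 0) (.ax 4 6 7 10 3), .t 1 (nat_lit 0) (.ax 4 6 7 13 3), .t 1 (nat_lit 0) (.ax 4 6 7 14 3), .t 1 (nat_lit 0) (.ax 4 6 7 16 3), .t 1 (nat_lit 0) (.ax 4 6 7 18 3), .t 1 (nat_lit 0) (.ax 4 6 7 19 3), .t 1 (nat_lit 0) (.ax 4 6 7 21 3), .t 1 (nat_lit 0) (.ax 4 6 7 22 3), .t 1 (nat_lit 0) (.ax 4 6 8 9 2)] (by decide +kernel) (by decide +kernel)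
theorem b12 : B 384 416 := Blk.of_chk [.t 1 (nat_lit 0) (.ax 4 6 8 9 3), .t 1 (nat_lit 0) (.ax 4 6 8 9 6), .t 1 (nat_lit 0) (.ax 4 6 8 9 7), .t 1 (nat_lit 0) (.ax 4 6 8 10 2), .t 1 (nat_lit 0) (.ax 4 6 8 10 3), .t 1 (nat_lit 0) (.ax 4 6 8 10 5), .t 1 (nat_lit 0) (.ax 4 6 8 10 6), .t 1 (nat_lit 0) (.ax 4 6 8 10 7), .t 1 (nat_lit 0) (.ax 4 6 8 11 6), .t 1 (nat_lit 0) (.ax 4 6 8 11 7), .t 1 (nat_lit 0) (.ax 4 6 8 12 3), .t 1 (nat_lit 0) (.ax 4 6 8 13 6), .t 1 (nat_lit 0) (.ax 4 6 8 14 6), .t 1 (nat_lit 0) (.ax 4 6 8 21 6), .t 1 (nat_lit 0) (.ax 4 6 8 22 0), .t 1 (nat_lit 0) (.ax 4 6 8 22 3), .t 1 (nat_lit 0) (.ax 4 6 8 22 5), .t 1 (nat_lit 0) (.ax 4 6 8 22 6), .t 1 (nat_lit 0) (.ax 4 6 9 10 1), .t 1 (nat_lit 0) (.ax 4 6 9 10 2), .t 1 (nat_lit 0) (.ax 4 6 9 10 6), .t 1 (nat_lit 0) (.ax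 4 6 9 10 7), .t 1 (nat_lit 0) (.ax 4 6 9 11 1), .t 1 (nat_lit 0) (.ax 4 6 9 11 6), .t 1 (nat_lit 0) (.ax 4 6 9 12 6), .t 1 (nat_lit 0) (.ax 4 6 9 14 6), .t 1 (nat_lit 0) (.ax 4 6 9 22 0), .t 1 (nat_lit 0) (.ax 4 6 9 22 1), .t 1 (nat_lit 0) (.ax 4 6 9 22 4), .t 1 (nat_lit 0) (.ax 4 6 9 22 5), .t 1 (nat_lit 0) (.ax 4 6 10 11 6), .t 1 (nat_lit 0) (.ax 4 6 10 14 0)] (by decide +kernel) (by decide +kernel)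
theorem b13 : B 416 448 := Blk.of_chk [.t 1 (nat_lit 0) (.ax 4 6 10 14 4), .t 1 (nat_lit 0) (.ax 4 6 10 15 2), .t 1 (nat_lit 0) (.ax 4 6 10 16 2), .t 1 (nat_lit 0) (.ax 4 6 10 17 2), .t 1 (nat_lit 0) (.ax 4 6 10 18 2), .t 1 (nat_lit 0) (.ax 4 6 10 21 3), .t 1 (nat_lit 0) (.ax 4 6 10 21 5), .t 1 (nat_lit 0) (.ax 4 6 10 22 0), .t 1 (nat_lit 0) (.ax 4 6 10 22 1), .t 1 (nat_lit 0) (.ax 4 6 10 22 3), .t 1 (nat_lit 0) (.ax 4 6 10 22 4), .t 1 (nat_lit 0) (.ax 4 6 10 22 5), .t 1 (nat_lit 0) (.ax 4 6 11 22 4), .t 1 (nat_lit 0) (.ax 4 6 12 14 6), .t 1 (nat_lit 0) (.ax 4 6 13 14 2), .t 1 (nat_lit 0) (.ax 4 6 13 15 2), .t 1 (nat_lit 0) (.ax 4 6 13 16 2), .t 1 (nat_lit 0) (.ax 4 6 13 17 2), .t 1 (nat_lit 0) (.ax 4 6 13 18 2), .t 1 (nat_lit 0) (.ax 4 6 13 21 1), .t 1 (nat_lit 0) (.ax 4 6 21 22 5),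 .t 1 (nat_lit 0) (.ax 4 7 8 9 0), .t 1 (nat_lit 0) (.ax 4 7 8 10 0), .t 1 (nat_lit 0) (.ax 4 7 8 16 0), .t 1 (nat_lit 0) (.ax 4 7 9 10 0), .t 1 (nat_lit 0) (.ax 4 7 9 16 0), .t 1 (nat_lit 0) (.ax 4 7 10 22 0), .t 1 (nat_lit 0) (.ax 4 7 11 15 0), .t 1 (nat_lit 0) (.ax 4 7 11 16 0), .t 1 (nat_lit 0) (.ax 4 7 11 17 0), .t 1 (nat_lit 0) (.ax 4 7 11 18 0), .t 1 (nat_lit 0) (.ax 4 7 11 19 0)] (by decide +kernel) (by decide +kernel)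
theorem b14 : B 448 480 := Blk.of_chk [.t 1 (nat_lit 0) (.ax 4 7 11 20 0), .t 1 (nat_lit 0) (.ax 4 7 11 21 0), .t 1 (nat_lit 0) (.ax 4 7 11 22 0), .t 1 (nat_lit 0) (.ax 4 7 12 14 0), .t 1 (nat_lit 0) (.ax 4 7 12 16 0), .t 1 (nat_lit 0) (.ax 4 7 13 16 0), .t 1 (nat_lit 0) (.ax 4 7 13 22 0), .t 1 (nat_lit 0) (.ax 4 7 15 16 0), .t 1 (nat_lit 0) (.ax 4 8 9 10 0), .t 1 (nat_lit 0) (.ax 4 8 9 10 1), .t 1 (nat_lit 0) (.ax 4 8 9 10 2), .t 1 (nat_lit 0) (.ax 4 8 9 10 3), .t 1 (nat_lit 0) (.ax 4 8 9 10 4), .t 1 (nat_lit 0) (.ax 4 8 9 10 5), .t 1 (nat_lit 0) (.ax 4 8 9 11 0), .t 1 (nat_lit 0) (.ax 4 8 9 11 6), .t 1 (nat_lit 0) (.ax 4 8 9 11 7), .t 1 (nat_lit 0) (.ax 4 8 9 12 2), .t 1 (nat_lit 0) (.ax 4 8 9 12 4), .t 1 (nat_lit 0) (.ax 4 8 9 14 0), .t 1 (nat_lit 0) (.ax 4 8 9 14 2), .t 1 (nat_lit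 0) (.ax 4 8 9 14 4), .t 1 (nat_lit 0) (.ax 4 8 9 14 7), .t 1 (nat_lit 0) (.ax 4 8 9 16 5), .t 1 (nat_lit 0) (.ax 4 8 9 19 6), .t 1 (nat_lit 0) (.ax 4 8 9 22 2), .t 1 (nat_lit 0) (.ax 4 8 9 22 5), .t 1 (nat_lit 0) (.ax 4 8 10 11 0), .t 1 (nat_lit 0) (.ax 4 8 10 11 1), .t 1 (nat_lit 0) (.ax 4 8 10 11 6), .t 1 (nat_lit 0) (.ax 4 8 10 12 4), .t 1 (nat_lit 0) (.ax 4 8 10 14 0)] (by decide +kernel) (by decide +kernel)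
theorem b15 : B 480 512 := Blk.of_chk [.t 1 (nat_lit 0) (.ax 4 8 10 14 2), .t 1 (nat_lit 0) (.ax 4 8 10 14 4), .t 1 (nat_lit 0) (.ax 4 8 10 22 0), .t 1 (nat_lit 0) (.ax 4 8 10 22 5), .t 1 (nat_lit 0) (.ax 4 8 11 12 4), .t 1 (nat_lit 0) (.ax 4 8 11 13 4), .t 1 (nat_lit 0) (.ax 4 8 11 14 4), .t 1 (nat_lit 0) (.ax 4 8 11 19 4), .t 1 (nat_lit 0) (.ax 4 8 11 21 4), .t 1 (nat_lit 0) (.ax 4 8 11 22 4), .t 1 (nat_lit 0) (.ax 4 8 12 14 2), .t 1 (nat_lit 0) (.ax 4 8 12 14 4), .t 1 (nat_lit 0) (.ax 4 8 12 22 2), .t 1 (nat_lit 0) (.ax 4 8 19 21 4), .t 1 (nat_lit 0) (.ax 4 8 19 22 4), .t 1 (nat_lit 0) (.ax 4 8 21 22 5), .t 1 (nat_lit 0) (.ax 4 9 10 11 6), .t 1 (nat_lit 0) (.ax 4 9 10 11 7), .t 1 (nat_lit 0) (.ax 4 9 10 12 0), .t 1 (nat_lit 0) (.ax 4 9 10 12 2), .t 1 (nat_lit 0) (.ax 4 9 10 12 4),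 .t 1 (nat_lit 0) (.ax 4 9 10 14 0), .t 1 (nat_lit 0) (.ax 4 9 10 14 2), .t 1 (nat_lit 0) (.ax 4 9 10 14 4), .t 1 (nat_lit 0) (.ax 4 9 10 14 6), .t 1 (nat_lit 0) (.ax 4 9 10 22 0), .t 1 (nat_lit 0) (.ax 4 9 10 22 1), .t 1 (nat_lit 0) (.ax 4 9 10 22 2), .t 1 (nat_lit 0) (.ax 4 9 10 22 4), .t 1 (nat_lit 0) (.ax 4 9 10 22 7), .t 1 (nat_lit 0) (.ax 4 9 11 19 4), .t 1 (nat_lit 0) (.ax 4 9 12 14 6)] (by decide +kernel) (by decide +kernel)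
theorem b16 : B 512 544 := Blk.of_chk [.t 1 (nat_lit 0) (.ax 4 9 16 22 4), .t 1 (nat_lit 0) (.ax 4 9 21 22 5), .t 1 (nat_lit 0) (.ax 4 10 11 14 4), .t 1 (nat_lit 0) (.ax 4 10 11 22 4), .t 1 (nat_lit 0) (.ax 4 10 12 14 6), .t 1 (nat_lit 0) (.ax 4 10 13 14 1), .t 1 (nat_lit 0) (.ax 4 10 13 16 0), .t 1 (nat_lit 0) (.ax 4 10 13 22 0), .t 1 (nat_lit 0) (.ax 4 10 13 22 1), .t 1 (nat_lit 0) (.ax 4 10 14 22 4), .t 1 (nat_lit 0) (.ax 4 10 15 22 1), .t 1 (nat_lit 0) (.ax 4 10 15 22 6), .t 1 (nat_lit 0) (.ax 4 10 16 19 4), .t 1 (nat_lit 0) (.ax 4 10 16 22 4), .t 1 (nat_lit 0) (.ax 4 10 17 22 4), .t 1 (nat_lit 0) (.ax 4 10 18 22 4), .t 1 (nat_lit 0) (.ax 4 10 19 22 4), .t 1 (nat_lit 0) (.ax 4 10 21 22 5), .t 1 (nat_lit 0) (.ax 4 11 12 16 0), .t 1 (nat_lit 0) (.ax 4 11 12 22 0), .t 1 (nat_lit 0)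 (.ax 4 11 13 22 0), .t 1 (nat_lit 0) (.ax 4 11 14 15 0), .t 1 (nat_lit 0) (.ax 4 11 14 17 0), .t 1 (nat_lit 0) (.ax 4 11 14 18 0), .t 1 (nat_lit 0) (.ax 4 11 14 19 0), .t 1 (nat_lit 0) (.ax 4 11 14 20 0), .t 1 (nat_lit 0) (.ax 4 11 14 21 0), .t 1 (nat_lit 0) (.ax 4 11 14 22 0), .t 1 (nat_lit 0) (.ax 4 12 13 19 3), .t 1 (nat_lit 0) (.ax 4 12 13 22 6), .t 1 (nat_lit 0) (.ax 4 12 16 22 4), .t 1 (nat_lit 0) (.ax 4 13 14 22 4)] (by decide +kernel) (by decide +kernel)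
theorem b17 : B 544 576 := Blk.of_chk [.t 1 (nat_lit 0) (.ax 4 13 15 22 4), .t 1 (nat_lit 0) (.ax 4 13 16 18 4), .t 1 (nat_lit 0) (.ax 4 13 16 19 4), .t 1 (nat_lit 0) (.ax 4 13 16 22 4), .t 1 (nat_lit 0) (.ax 4 13 17 18 0), .t 1 (nat_lit 0) (.ax 4 13 17 22 4), .t 1 (nat_lit 0) (.ax 4 13 18 22 4), .t 1 (nat_lit 0) (.ax 4 13 19 22 4), .t 1 (nat_lit 0) (.ax 4 13 21 22 5), .t 1 (nat_lit 0) (.ax 4 14 16 22 0), .t 1 (nat_lit 0) (.ax 4 14 17 22 0), .t 1 (nat_lit 0) (.ax 4 14 18 22 0), .t 1 (nat_lit 0) (.ax 4 15 16 22 4), .t 1 (nat_lit 0) (.ax 5 6 7 8 1), .t 1 (nat_lit 0) (.ax 5 6 7 8 2), .t 1 (nat_lit 0) (.ax 5 6 7 8 4), .t 1 (nat_lit 0) (.ax 5 6 7 9 1), .t 1 (nat_lit 0) (.ax 5 6 7 9 4), .t 1 (nat_lit 0) (.ax 5 6 7 10 1), .t 1 (nat_lit 0) (.ax 5 6 8 9 1), .t 1 (nat_lit 0) (.ax 5 6 8 10 1),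 .t 1 (nat_lit 0) (.ax 5 6 8 10 4), .t 1 (nat_lit 0) (.ax 5 6 8 21 6), .t 1 (nat_lit 0) (.ax 5 6 9 10 1), .t 1 (nat_lit 0) (.ax 5 6 9 10 4), .t 1 (nat_lit 0) (.ax 5 6 10 22 0), .t 1 (nat_lit 0) (.ax 5 6 13 21 5), .t 1 (nat_lit 0) (.ax 5 6 13 22 5), .t 1 (nat_lit 0) (.ax 5 6 21 22 5), .t 1 (nat_lit 0) (.ax 5 7 8 9 0), .t 1 (nat_lit 0) (.ax 5 7 8 9 2), .t 1 (nat_lit 0) (.ax 5 7 8 9 4)] (by decide +kernel) (by decide +kernel)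
theorem b18 : B 576 608 := Blk.of_chk [.t 1 (nat_lit 0) (.ax 5 7 8 9 5), .t 1 (nat_lit 0) (.ax 5 7 8 10 0), .t 1 (nat_lit 0) (.ax 5 7 8 10 2), .t 1 (nat_lit 0) (.ax 5 7 8 10 4), .t 1 (nat_lit 0) (.ax 5 7 8 10 5), .t 1 (nat_lit 0) (.ax 5 7 8 16 0), .t 1 (nat_lit 0) (.ax 5 7 9 10 0), .t 1 (nat_lit 0) (.ax 5 7 9 10 2), .t 1 (nat_lit 0) (.ax 5 7 9 10 4), .t 1 (nat_lit 0) (.ax 5 7 9 10 5), .t 1 (nat_lit 0) (.ax 5 7 9 13 0), .t 1 (nat_lit 0) (.ax 5 7 9 16 0), .t 1 (nat_lit 0) (.ax 5 7 10 13 0), .t 1 (nat_lit 0) (.ax 5 7 10 16 0), .t 1 (nat_lit 0) (.ax 5 7 10 19 0), .t 1 (nat_lit 0) (.ax 5 7 10 22 0), .t 1 (nat_lit 0) (.ax 5 7 11 16 0), .t 1 (nat_lit 0) (.ax 5 7 11 19 0), .t 1 (nat_lit 0) (.ax 5 7 11 21 0), .t 1 (nat_lit 0) (.ax 5 7 11 22 0), .t 1 (nat_lit 0) (.ax 5 7 12 16 0), .t 1 (nat_lit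 0) (.ax 5 7 13 16 0), .t 1 (nat_lit 0) (.ax 5 7 15 16 0), .t 1 (nat_lit 0) (.ax 5 8 9 10 0), .t 1 (nat_lit 0) (.ax 5 8 9 10 1), .t 1 (nat_lit 0) (.ax 5 8 9 10 2), .t 1 (nat_lit 0) (.ax 5 8 9 10 3), .t 1 (nat_lit 0) (.ax 5 8 9 10 4), .t 1 (nat_lit 0) (.ax 5 8 9 10 5), .t 1 (nat_lit 0) (.ax 5 8 9 12 4), .t 1 (nat_lit 0) (.ax 5 8 9 16 5), .t 1 (nat_lit 0) (.ax 5 8 10 22 6)] (by decide +kernel) (by decide +kernel)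
theorem b19 : B 608 640 := Blk.of_chk [.t 1 (nat_lit 0) (.ax 5 8 12 14 2), .t 1 (nat_lit 0) (.ax 5 9 10 22 0), .t 1 (nat_lit 0) (.ax 5 9 13 22 4), .t 1 (nat_lit 0) (.ax 5 9 13 22 6), .t 1 (nat_lit 0) (.ax 5 9 16 19 4), .t 1 (nat_lit 0) (.ax 5 9 16 21 4), .t 1 (nat_lit 0) (.ax 5 9 16 22 4), .t 1 (nat_lit 0) (.ax 5 10 13 16 0), .t 1 (nat_lit 0) (.ax 5 10 13 19 1), .t 1 (nat_lit 0) (.ax 5 10 13 21 1), .t 1 (nat_lit 0) (.ax 5 10 15 19 6), .t 1 (nat_lit 0) (.ax 5 10 15 21 3), .t 1 (nat_lit 0) (.ax 5 10 16 22 4), .t 1 (nat_lit 0) (.ax 5 10 19 21 4), .t 1 (nat_lit 0) (.ax 5 10 19 22 4), .t 1 (nat_lit 0) (.ax 5 10 21 22 5), .t 1 (nat_lit 0) (.ax 5 10 21 22 7), .t 1 (nat_lit 0) (.ax 5 11 12 16 0), .t 1 (nat_lit 0) (.ax 5 11 12 22 0), .t 1 (nat_lit 0) (.ax 5 11 13 22 0), .t 1 (nat_lit 0) (.ax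 5 11 14 19 0), .t 1 (nat_lit 0) (.ax 5 11 14 21 0), .t 1 (nat_lit 0) (.ax 5 11 14 22 0), .t 1 (nat_lit 0) (.ax 5 11 17 19 0), .t 1 (nat_lit 0) (.ax 5 11 18 19 0), .t 1 (nat_lit 0) (.ax 5 12 16 19 4), .t 1 (nat_lit 0) (.ax 5 12 16 21 4), .t 1 (nat_lit 0) (.ax 5 12 16 22 4), .t 1 (nat_lit 0) (.ax 5 13 16 18 4), .t 1 (nat_lit 0) (.ax 5 13 16 22 4), .t 1 (nat_lit 0) (.ax 5 14 16 21 0), .t 1 (nat_lit 0) (.ax 5 14 16 22 0)] (by decide +kernel) (by decide +kernel)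
theorem b20 : B 640 672 := Blk.of_chk [.t 1 (nat_lit 0) (.ax 5 14 17 22 0), .t 1 (nat_lit 0) (.ax 5 14 18 22 0), .t 1 (nat_lit 0) (.ax 5 15 16 19 4), .t 1 (nat_lit 0) (.ax 5 15 16 21 4), .t 1 (nat_lit 0) (.ax 5 15 16 22 4), .t 1 (nat_lit 0) (.ax 5 16 19 21 0), .t 1 (nat_lit 0) (.ax 5 17 21 22 5), .t 1 (nat_lit 0) (.ax 5 18 21 22 5), .t 1 (nat_lit 0) (.ax 5 19 20 21 0), .t 1 (nat_lit 0) (.ax 6 7 8 9 0), .t 1 (nat_lit 0) (.ax 6 7 8 9 2), .t 1 (nat_lit 0) (.ax 6 7 8 9 4), .t 1 (nat_lit 0) (.ax 6 7 8 9 5), .t 1 (nat_lit 0) (.ax 6 7 8 10 0), .t 1 (nat_lit 0) (.ax 6 7 8 10 2), .t 1 (nat_lit 0) (.ax 6 7 8 10 4), .t 1 (nat_lit 0) (.ax 6 7 8 10 5), .t 1 (nat_lit 0) (.ax 6 7 8 16 0), .t 1 (nat_lit 0) (.ax 6 7 9 10 0), .t 1 (nat_lit 0) (.ax 6 7 9 10 2), .t 1 (nat_lit 0) (.ax 6 7 9 10 4), .t 1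 (nat_lit 0) (.ax 6 7 9 10 5), .t 1 (nat_lit 0) (.ax 6 7 9 16 0), .t 1 (nat_lit 0) (.ax 6 7 9 21 2), .t 1 (nat_lit 0) (.ax 6 7 9 22 0), .t 1 (nat_lit 0) (.ax 6 7 10 13 0), .t 1 (nat_lit 0) (.ax 6 7 10 21 0), .t 1 (nat_lit 0) (.ax 6 7 10 22 0), .t 1 (nat_lit 0) (.ax 6 7 11 13 0), .t 1 (nat_lit 0) (.ax 6 7 11 16 0), .t 1 (nat_lit 0) (.ax 6 7 11 19 0), .t 1 (nat_lit 0) (.ax 6 7 11 21 0)] (by decide +kernel) (by decide +kernel)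
theorem b21 : B 672 704 := Blk.of_chk [.t 1 (nat_lit 0) (.ax 6 7 11 22 0), .t 1 (nat_lit 0) (.ax 6 7 12 14 0), .t 1 (nat_lit 0) (.ax 6 7 12 16 0), .t 1 (nat_lit 0) (.ax 6 7 13 16 0), .t 1 (nat_lit 0) (.ax 6 7 15 16 0), .t 1 (nat_lit 0) (.ax 6 8 9 10 0), .t 1 (nat_lit 0) (.ax 6 8 9 10 1), .t 1 (nat_lit 0) (.ax 6 8 9 10 2), .t 1 (nat_lit 0) (.ax 6 8 9 10 3), .t 1 (nat_lit 0) (.ax 6 8 9 10 4), .t 1 (nat_lit 0) (.ax 6 8 9 10 5), .t 1 (nat_lit 0) (.ax 6 8 9 12 0), .t 1 (nat_lit 0) (.ax 6 8 9 16 6), .t 1 (nat_lit 0) (.ax 6 8 9 21 6), .t 1 (nat_lit 0) (.ax 6 8 9 22 0), .t 1 (nat_lit 0) (.ax 6 8 9 22 2), .t 1 (nat_lit 0) (.ax 6 8 9 22 6), .t 1 (nat_lit 0) (.ax 6 8 9 22 7), .t 1 (nat_lit 0) (.ax 6 8 10 11 2), .t 1 (nat_lit 0) (.ax 6 8 10 21 0), .t 1 (nat_lit 0) (.ax 6 8 10 22 0), .t 1 (nat_lit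 0) (.ax 6 8 12 14 2), .t 1 (nat_lit 0) (.ax 6 8 12 22 2), .t 1 (nat_lit 0) (.ax 6 8 13 16 5), .t 1 (nat_lit 0) (.ax 6 8 13 16 7), .t 1 (nat_lit 0) (.ax 6 8 16 21 4), .t 1 (nat_lit 0) (.ax 6 8 16 22 4), .t 1 (nat_lit 0) (.ax 6 9 10 12 0), .t 1 (nat_lit 0) (.ax 6 9 10 14 2), .t 1 (nat_lit 0) (.ax 6 9 10 21 0), .t 1 (nat_lit 0) (.ax 6 9 10 21 6), .t 1 (nat_lit 0) (.ax 6 9 10 22 0)] (by decide +kernel) (by decide +kernel)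
theorem b22 : B 704 736 := Blk.of_chk [.t 1 (nat_lit 0) (.ax 6 9 10 22 1), .t 1 (nat_lit 0) (.ax 6 9 10 22 2), .t 1 (nat_lit 0) (.ax 6 9 10 22 4), .t 1 (nat_lit 0) (.ax 6 9 10 22 6), .t 1 (nat_lit 0) (.ax 6 9 11 22 4), .t 1 (nat_lit 0) (.ax 6 9 12 22 1), .t 1 (nat_lit 0) (.ax 6 9 13 16 5), .t 1 (nat_lit 0) (.ax 6 9 13 16 7), .t 1 (nat_lit 0) (.ax 6 9 16 21 4), .t 1 (nat_lit 0) (.ax 6 9 16 22 4), .t 1 (nat_lit 0) (.ax 6 9 21 22 5), .t 1 (nat_lit 0) (.ax 6 10 11 22 4), .t 1 (nat_lit 0) (.ax 6 10 12 22 1), .t 1 (nat_lit 0) (.ax 6 10 12 22 4), .t 1 (nat_lit 0) (.ax 6 10 13 14 1), .t 1 (nat_lit 0) (.ax 6 10 13 15 1), .t 1 (nat_lit 0) (.ax 6 10 13 16 0), .t 1 (nat_lit 0) (.ax 6 10 13 16 1), .t 1 (nat_lit 0) (.ax 6 10 13 17 1), .t 1 (nat_lit 0) (.ax 6 10 13 18 1), .t 1 (nat_lit 0) (.ax 6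 10 13 21 0), .t 1 (nat_lit 0) (.ax 6 10 15 16 3), .t 1 (nat_lit 0) (.ax 6 10 15 22 4), .t 1 (nat_lit 0) (.ax 6 10 16 19 4), .t 1 (nat_lit 0) (.ax 6 10 16 22 4), .t 1 (nat_lit 0) (.ax 6 10 21 22 5), .t 1 (nat_lit 0) (.ax 6 11 12 16 0), .t 1 (nat_lit 0) (.ax 6 11 13 21 0), .t 1 (nat_lit 0) (.ax 6 11 13 22 0), .t 1 (nat_lit 0) (.ax 6 11 14 21 0), .t 1 (nat_lit 0) (.ax 6 11 14 22 0), .t 1 (nat_lit 0) (.ax 6 12 13 14 5)] (by decide +kernel) (by decide +kernel)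
theorem b23 : B 736 768 := Blk.of_chk [.t 1 (nat_lit 0) (.ax 6 12 13 19 3), .t 1 (nat_lit 0) (.ax 6 12 13 22 6), .t 1 (nat_lit 0) (.ax 6 12 14 21 4), .t 1 (nat_lit 0) (.ax 6 12 14 22 4), .t 1 (nat_lit 0) (.ax 6 12 16 21 4), .t 1 (nat_lit 0) (.ax 6 12 16 22 4), .t 1 (nat_lit 0) (.ax 6 12 21 22 5), .t 1 (nat_lit 0) (.ax 6 13 16 18 4), .t 1 (nat_lit 0) (.ax 6 13 16 19 4), .t 1 (nat_lit 0) (.ax 6 13 16 21 4), .t 1 (nat_lit 0) (.ax 6 13 16 22 4), .t 1 (nat_lit 0) (.ax 6 13 17 18 0), .t 1 (nat_lit 0) (.ax 6 13 21 22 5), .t 1 (nat_lit 0) (.ax 6 14 16 21 0), .t 1 (nat_lit 0) (.ax 6 14 16 22 0), .t 1 (nat_lit 0) (.ax 6 14 17 22 0), .t 1 (nat_lit 0) (.ax 6 14 18 22 0), .t 1 (nat_lit 0) (.ax 6 15 16 21 4), .t 1 (nat_lit 0) (.ax 6 15 16 22 4), .t 1 (nat_lit 0) (.ax 6 16 19 21 0), .t 1 (nat_lit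 0) (.ax 6 17 21 22 5), .t 1 (nat_lit 0) (.ax 6 18 21 22 5), .t 1 (nat_lit 0) (.ax 6 19 20 21 0), .t 1 (nat_lit 0) (.ax 7 8 9 10 0), .t 1 (nat_lit 0) (.ax 7 8 9 10 1), .t 1 (nat_lit 0) (.ax 7 8 9 10 2), .t 1 (nat_lit 0) (.ax 7 8 9 10 3), .t 1 (nat_lit 0) (.ax 7 8 9 10 4), .t 1 (nat_lit 0) (.ax 7 8 9 10 5), .t 1 (nat_lit 0) (.ax 7 8 9 10 6), .t 1 (nat_lit 0) (.ax 7 8 9 10 7), .t 1 (nat_lit 0) (.ax 7 8 9 11 2)] (by decide +kernel) (by decide +kernel)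
theorem b24 : B 768 800 := Blk.of_chk [.t 1 (nat_lit 0) (.ax 7 8 9 12 2), .t 1 (nat_lit 0) (.ax 7 8 9 12 4), .t 1 (nat_lit 0) (.ax 7 8 9 14 2), .t 1 (nat_lit 0) (.ax 7 8 9 14 4), .t 1 (nat_lit 0) (.ax 7 8 9 16 0), .t 1 (nat_lit 0) (.ax 7 8 9 16 2), .t 1 (nat_lit 0) (.ax 7 8 9 16 6), .t 1 (nat_lit 0) (.ax 7 8 9 16 7), .t 1 (nat_lit 0) (.ax 7 8 9 19 6), .t 1 (nat_lit 0) (.ax 7 8 9 22 0), .t 1 (nat_lit 0) (.ax 7 8 10 11 2), .t 1 (nat_lit 0) (.ax 7 8 10 12 2), .t 1 (nat_lit 0) (.ax 7 8 10 12 4), .t 1 (nat_lit 0) (.ax 7 8 10 13 2), .t 1 (nat_lit 0) (.ax 7 8 10 14 2), .t 1 (nat_lit 0) (.ax 7 8 10 14 4), .t 1 (nat_lit 0) (.ax 7 8 10 16 0), .t 1 (nat_lit 0) (.ax 7 8 10 16 2), .t 1 (nat_lit 0) (.ax 7 8 10 16 6), .t 1 (nat_lit 0) (.ax 7 8 10 16 7), .t 1 (nat_lit 0) (.ax 7 8 10 19 4), .t 1 (nat_lit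 0) (.ax 7 8 10 21 0), .t 1 (nat_lit 0) (.ax 7 8 10 22 0), .t 1 (nat_lit 0) (.ax 7 8 10 22 2), .t 1 (nat_lit 0) (.ax 7 8 11 12 3), .t 1 (nat_lit 0) (.ax 7 8 11 13 3), .t 1 (nat_lit 0) (.ax 7 8 11 16 3), .t 1 (nat_lit 0) (.ax 7 8 11 18 3), .t 1 (nat_lit 0) (.ax 7 8 11 19 3), .t 1 (nat_lit 0) (.ax 7 8 11 20 3), .t 1 (nat_lit 0) (.ax 7 8 11 21 3), .t 1 (nat_lit 0) (.ax 7 8 11 22 3)] (by decide +kernel) (by decide +kernel)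
theorem b25 : B 800 832 := Blk.of_chk [.t 1 (nat_lit 0) (.ax 7 8 12 14 0), .t 1 (nat_lit 0) (.ax 7 8 12 14 2), .t 1 (nat_lit 0) (.ax 7 8 12 14 4), .t 1 (nat_lit 0) (.ax 7 8 13 16 0), .t 1 (nat_lit 0) (.ax 7 8 13 16 6), .t 1 (nat_lit 0) (.ax 7 8 13 22 3), .t 1 (nat_lit 0) (.ax 7 8 16 19 4), .t 1 (nat_lit 0) (.ax 7 8 16 20 4), .t 1 (nat_lit 0) (.ax 7 8 16 21 4), .t 1 (nat_lit 0) (.ax 7 8 20 22 4), .t 1 (nat_lit 0) (.ax 7 8 21 22 5), .t 1 (nat_lit 0) (.ax 7 9 10 12 1), .t 1 (nat_lit 0) (.ax 7 9 10 12 2), .t 1 (nat_lit 0) (.ax 7 9 10 13 7), .t 1 (nat_lit 0) (.ax 7 9 10 16 0), .t 1 (nat_lit 0) (.ax 7 9 10 16 1), .t 1 (nat_lit 0) (.ax 7 9 10 16 2), .t 1 (nat_lit 0) (.ax 7 9 10 16 4), .t 1 (nat_lit 0) (.ax 7 9 10 16 6), .t 1 (nat_lit 0) (.ax 7 9 10 16 7), .t 1 (nat_lit 0) (.ax 7 9 10 22 1),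 .t 1 (nat_lit 0) (.ax 7 9 11 12 3), .t 1 (nat_lit 0) (.ax 7 9 11 13 3), .t 1 (nat_lit 0) (.ax 7 9 11 16 3), .t 1 (nat_lit 0) (.ax 7 9 11 19 3), .t 1 (nat_lit 0) (.ax 7 9 11 21 3), .t 1 (nat_lit 0) (.ax 7 9 11 22 3), .t 1 (nat_lit 0) (.ax 7 9 12 14 6), .t 1 (nat_lit 0) (.ax 7 9 12 16 1), .t 1 (nat_lit 0) (.ax 7 9 12 16 6), .t 1 (nat_lit 0) (.ax 7 9 13 16 0), .t 1 (nat_lit 0) (.ax 7 9 13 16 1)] (by decide +kernel) (by decide +kernel)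
theorem b26 : B 832 864 := Blk.of_chk [.t 1 (nat_lit 0) (.ax 7 9 13 17 3), .t 1 (nat_lit 0) (.ax 7 9 13 22 2), .t 1 (nat_lit 0) (.ax 7 9 13 22 3), .t 1 (nat_lit 0) (.ax 7 9 13 22 4), .t 1 (nat_lit 0) (.ax 7 9 14 16 4), .t 1 (nat_lit 0) (.ax 7 9 15 16 1), .t 1 (nat_lit 0) (.ax 7 9 15 16 4), .t 1 (nat_lit 0) (.ax 7 9 16 19 4), .t 1 (nat_lit 0) (.ax 7 9 16 21 4), .t 1 (nat_lit 0) (.ax 7 9 16 22 4), .t 1 (nat_lit 0) (.ax 7 9 21 22 5), .t 1 (nat_lit 0) (.ax 7 10 11 12 3), .t 1 (nat_lit 0) (.ax 7 10 11 13 3), .t 1 (nat_lit 0) (.ax 7 10 11 15 3), .t 1 (nat_lit 0) (.ax 7 10 11 16 3), .t 1 (nat_lit 0) (.ax 7 10 11 17 3), .t 1 (nat_lit 0) (.ax 7 10 11 18 3), .t 1 (nat_lit 0) (.ax 7 10 11 19 3), .t 1 (nat_lit 0) (.ax 7 10 11 21 3), .t 1 (nat_lit 0) (.ax 7 10 11 22 3), .t 1 (nat_lit 0) (.ax 7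 10 12 16 1), .t 1 (nat_lit 0) (.ax 7 10 12 16 3), .t 1 (nat_lit 0) (.ax 7 10 12 16 4), .t 1 (nat_lit 0) (.ax 7 10 12 16 6), .t 1 (nat_lit 0) (.ax 7 10 12 22 4), .t 1 (nat_lit 0) (.ax 7 10 13 16 0), .t 1 (nat_lit 0) (.ax 7 10 13 16 1), .t 1 (nat_lit 0) (.ax 7 10 13 16 3), .t 1 (nat_lit 0) (.ax 7 10 13 16 6), .t 1 (nat_lit 0) (.ax 7 10 13 17 3), .t 1 (nat_lit 0) (.ax 7 10 13 19 1), .t 1 (nat_lit 0) (.ax 7 10 13 21 3)] (by decide +kernel) (by decide +kernel)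
theorem b27 : B 864 896 := Blk.of_chk [.t 1 (nat_lit 0) (.ax 7 10 13 21 5), .t 1 (nat_lit 0) (.ax 7 10 13 22 3), .t 1 (nat_lit 0) (.ax 7 10 13 22 4), .t 1 (nat_lit 0) (.ax 7 10 15 16 1), .t 1 (nat_lit 0) (.ax 7 10 15 16 3), .t 1 (nat_lit 0) (.ax 7 10 15 22 4), .t 1 (nat_lit 0) (.ax 7 10 16 19 4), .t 1 (nat_lit 0) (.ax 7 10 16 21 4), .t 1 (nat_lit 0) (.ax 7 10 16 22 4), .t 1 (nat_lit 0) (.ax 7 10 19 22 4), .t 1 (nat_lit 0) (.ax 7 10 20 21 4), .t 1 (nat_lit 0) (.ax 7 10 21 22 5), .t 1 (nat_lit 0) (.ax 7 11 12 16 0), .t 1 (nat_lit 0) (.ax 7 11 13 16 0), .t 1 (nat_lit 0) (.ax 7 11 14 17 0), .t 1 (nat_lit 0) (.ax 7 11 14 18 0), .t 1 (nat_lit 0) (.ax 7 11 14 19 0), .t 1 (nat_lit 0) (.ax 7 11 14 20 0), .t 1 (nat_lit 0) (.ax 7 11 14 21 0), .t 1 (nat_lit 0) (.ax 7 11 14 22 0), .t 1 (nat_lit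 0) (.ax 7 11 17 19 0), .t 1 (nat_lit 0) (.ax 7 11 18 19 0), .t 1 (nat_lit 0) (.ax 7 12 13 14 0), .t 1 (nat_lit 0) (.ax 7 12 13 14 1), .t 1 (nat_lit 0) (.ax 7 12 13 14 3), .t 1 (nat_lit 0) (.ax 7 12 13 16 0), .t 1 (nat_lit 0) (.ax 7 12 13 16 4), .t 1 (nat_lit 0) (.ax 7 12 14 16 4), .t 1 (nat_lit 0) (.ax 7 12 16 19 4), .t 1 (nat_lit 0) (.ax 7 13 14 16 4), .t 1 (nat_lit 0) (.ax 7 13 16 17 4), .t 1 (nat_lit 0) (.ax 7 13 16 22 4)] (by decide +kernel) (by decide +kernel)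
theorem b28 : B 896 928 := Blk.of_chk [.t 1 (nat_lit 0) (.ax 7 13 19 22 4), .t 1 (nat_lit 0) (.ax 7 13 20 21 4), .t 1 (nat_lit 0) (.ax 7 13 21 22 5), .t 1 (nat_lit 0) (.ax 7 14 16 17 0), .t 1 (nat_lit 0) (.ax 7 14 16 18 0), .t 1 (nat_lit 0) (.ax 7 14 16 20 0), .t 1 (nat_lit 0) (.ax 7 14 16 21 0), .t 1 (nat_lit 0) (.ax 7 14 16 22 0), .t 1 (nat_lit 0) (.ax 7 14 17 22 0), .t 1 (nat_lit 0) (.ax 7 15 16 19 4), .t 1 (nat_lit 0) (.ax 7 16 19 21 0), .t 1 (nat_lit 0) (.ax 7 20 21 22 5), .t 1 (nat_lit 0) (.ax 8 9 10 11 0), .t 1 (nat_lit 0) (.ax 8 9 10 11 1), .t 1 (nat_lit 0) (.ax 8 9 10 11 2), .t 1 (nat_lit 0) (.ax 8 9 10 11 4), .t 1 (nat_lit 0) (.ax 8 9 10 11 5), .t 1 (nat_lit 0) (.ax 8 9 10 11 6), .t 1 (nat_lit 0) (.ax 8 9 10 11 7), .t 1 (nat_lit 0) (.ax 8 9 10 12 0), .t 1 (nat_lit 0) (.ax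 8 9 10 12 1), .t 1 (nat_lit 0) (.ax 8 9 10 12 3), .t 1 (nat_lit 0) (.ax 8 9 10 12 4), .t 1 (nat_lit 0) (.ax 8 9 10 12 5), .t 1 (nat_lit 0) (.ax 8 9 10 12 6), .t 1 (nat_lit 0) (.ax 8 9 10 13 6), .t 1 (nat_lit 0) (.ax 8 9 10 14 3), .t 1 (nat_lit 0) (.ax 8 9 10 14 5), .t 1 (nat_lit 0) (.ax 8 9 10 16 4), .t 1 (nat_lit 0) (.ax 8 9 10 16 6), .t 1 (nat_lit 0) (.ax 8 9 10 19 2), .t 1 (nat_lit 0) (.ax 8 9 10 19 4)] (by decide +kernel) (by decide +kernel)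
theorem b29 : B 928 960 := Blk.of_chk [.t 1 (nat_lit 0) (.ax 8 9 10 21 2), .t 1 (nat_lit 0) (.ax 8 9 10 21 4), .t 1 (nat_lit 0) (.ax 8 9 10 22 1), .t 1 (nat_lit 0) (.ax 8 9 10 22 2), .t 1 (nat_lit 0) (.ax 8 9 10 22 6), .t 1 (nat_lit 0) (.ax 8 9 11 12 1), .t 1 (nat_lit 0) (.ax 8 9 11 12 2), .t 1 (nat_lit 0) (.ax 8 9 11 12 4), .t 1 (nat_lit 0) (.ax 8 9 11 13 4), .t 1 (nat_lit 0) (.ax 8 9 11 16 4), .t 1 (nat_lit 0) (.ax 8 9 11 22 4), .t 1 (nat_lit 0) (.ax 8 9 12 13 3), .t 1 (nat_lit 0) (.ax 8 9 12 14 3), .t 1 (nat_lit 0) (.ax 8 9 12 14 6), .t 1 (nat_lit 0) (.ax 8 9 12 16 3), .t 1 (nat_lit 0) (.ax 8 9 12 16 4), .t 1 (nat_lit 0) (.ax 8 9 12 16 6), .t 1 (nat_lit 0) (.ax 8 9 12 22 3), .t 1 (nat_lit 0) (.ax 8 9 12 22 4), .t 1 (nat_lit 0) (.ax 8 9 12 22 6), .t 1 (nat_lit 0) (.ax 8 9 13 16 4),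 .t 1 (nat_lit 0) (.ax 8 10 11 12 1), .t 1 (nat_lit 0) (.ax 8 10 11 12 2), .t 1 (nat_lit 0) (.ax 8 10 11 12 4), .t 1 (nat_lit 0) (.ax 8 10 11 14 4), .t 1 (nat_lit 0) (.ax 8 10 11 16 4), .t 1 (nat_lit 0) (.ax 8 10 11 22 4), .t 1 (nat_lit 0) (.ax 8 10 12 13 3), .t 1 (nat_lit 0) (.ax 8 10 12 13 4), .t 1 (nat_lit 0) (.ax 8 10 12 14 1), .t 1 (nat_lit 0) (.ax 8 10 12 14 3), .t 1 (nat_lit 0) (.ax 8 10 12 14 6)] (by decide +kernel) (by decide +kernel)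
theorem b30 : B 960 992 := Blk.of_chk [.t 1 (nat_lit 0) (.ax 8 10 12 16 6), .t 1 (nat_lit 0) (.ax 8 10 12 21 3), .t 1 (nat_lit 0) (.ax 8 10 12 21 6), .t 1 (nat_lit 0) (.ax 8 10 12 22 3), .t 1 (nat_lit 0) (.ax 8 10 12 22 6), .t 1 (nat_lit 0) (.ax 8 10 13 14 3), .t 1 (nat_lit 0) (.ax 8 10 13 14 5), .t 1 (nat_lit 0) (.ax 8 10 13 19 7), .t 1 (nat_lit 0) (.ax 8 10 16 22 4), .t 1 (nat_lit 0) (.ax 8 11 13 19 0), .t 1 (nat_lit 0) (.ax 8 11 14 18 0), .t 1 (nat_lit 0) (.ax 8 11 14 19 0), .t 1 (nat_lit 0) (.ax 8 11 14 20 0), .t 1 (nat_lit 0) (.ax 8 11 14 21 0), .t 1 (nat_lit 0) (.ax 8 11 14 22 0), .t 1 (nat_lit 0) (.ax 8 11 17 19 0), .t 1 (nat_lit 0) (.ax 8 12 13 14 1), .t 1 (nat_lit 0) (.ax 8 12 13 14 5), .t 1 (nat_lit 0) (.ax 8 12 14 16 4), .t 1 (nat_lit 0) (.ax 8 12 14 18 4), .t 1 (nat_lit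 0) (.ax 8 12 14 19 4), .t 1 (nat_lit 0) (.ax 8 12 14 21 4), .t 1 (nat_lit 0) (.ax 8 12 14 22 4), .t 1 (nat_lit 0) (.ax 8 12 18 19 2), .t 1 (nat_lit 0) (.ax 8 13 19 22 4), .t 1 (nat_lit 0) (.ax 8 14 16 18 0), .t 1 (nat_lit 0) (.ax 8 14 16 20 0), .t 1 (nat_lit 0) (.ax 8 14 16 21 0), .t 1 (nat_lit 0) (.ax 8 14 16 22 0), .t 1 (nat_lit 0) (.ax 8 14 17 22 0), .t 1 (nat_lit 0) (.ax 8 14 18 22 0), .t 1 (nat_lit 0) (.ax 8 15 16 18 4)] (by decide +kernel) (by decide +kernel)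
theorem b31 : B 992 1024 := Blk.of_chk [.t 1 (nat_lit 0) (.ax 8 15 16 19 4), .t 1 (nat_lit 0) (.ax 8 15 16 22 4), .t 1 (nat_lit 0) (.ax 8 15 18 19 2), .t 1 (nat_lit 0) (.ax 8 16 19 21 0), .t 1 (nat_lit 0) (.ax 8 20 21 22 5), .t 1 (nat_lit 0) (.ax 9 10 11 12 1), .t 1 (nat_lit 0) (.ax 9 10 11 12 2), .t 1 (nat_lit 0) (.ax 9 10 11 12 4), .t 1 (nat_lit 0) (.ax 9 10 12 13 6), .t 1 (nat_lit 0) (.ax 9 10 12 14 6), .t 1 (nat_lit 0) (.ax 9 10 12 16 1), .t 1 (nat_lit 0) (.ax 9 10 12 16 4), .t 1 (nat_lit 0) (.ax 9 10 12 16 6), .t 1 (nat_lit 0) (.ax 9 10 12 19 4), .t 1 (nat_lit 0) (.ax 9 10 12 22 4), .t 1 (nat_lit 0) (.ax 9 10 12 22 6), .t 1 (nat_lit 0) (.ax 9 10 15 16 3), .t 1 (nat_lit 0) (.ax 9 10 15 16 6), .t 1 (nat_lit 0) (.ax 9 10 15 22 3), .t 1 (nat_lit 0) (.ax 9 10 15 22 4), .t 1 (nat_lit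 0) (.ax 9 10 16 19 4), .t 1 (nat_lit 0) (.ax 9 10 16 22 4), .t 1 (nat_lit 0) (.ax 9 10 19 22 4), .t 1 (nat_lit 0) (.ax 9 10 21 22 5), .t 1 (nat_lit 0) (.ax 9 11 12 16 0), .t 1 (nat_lit 0) (.ax 9 11 13 22 0), .t 1 (nat_lit 0) (.ax 9 11 14 21 0), .t 1 (nat_lit 0) (.ax 9 11 14 22 0), .t 1 (nat_lit 0) (.ax 9 11 17 19 0), .t 1 (nat_lit 0) (.ax 9 12 16 22 4), .t 1 (nat_lit 0) (.ax 9 13 14 15 2), .t 1 (nat_lit 0) (.ax 9 13 14 15 4)] (by decide +kernel) (by decide +kernel)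
theorem b32 : B 1024 1056 := Blk.of_chk [.t 1 (nat_lit 0) (.ax 9 13 16 17 4), .t 1 (nat_lit 0) (.ax 9 13 17 18 2), .t 1 (nat_lit 0) (.ax 9 13 21 22 5), .t 1 (nat_lit 0) (.ax 9 14 16 21 0), .t 1 (nat_lit 0) (.ax 9 14 16 22 0), .t 1 (nat_lit 0) (.ax 9 14 17 22 0), .t 1 (nat_lit 0) (.ax 9 15 16 22 4), .t 1 (nat_lit 0) (.ax 9 16 19 21 0), .t 1 (nat_lit 0) (.ax 9 17 18 19 4), .t 1 (nat_lit 0) (.ax 9 17 19 20 4), .t 1 (nat_lit 0) (.ax 9 17 20 22 4), .t 1 (nat_lit 0) (.ax 9 17 21 22 5), .t 1 (nat_lit 0) (.ax 9 20 21 22 5), .t 1 (nat_lit 0) (.ax 10 11 12 16 0), .t 1 (nat_lit 0) (.ax 10 11 13 19 0), .t 1 (nat_lit 0) (.ax 10 11 13 22 0), .t 1 (nat_lit 0) (.ax 10 11 14 15 0), .t 1 (nat_lit 0) (.ax 10 11 14 17 0), .t 1 (nat_lit 0) (.ax 10 11 14 18 0), .t 1 (nat_lit 0) (.ax 10 11 14 21 0), .t 1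 (nat_lit 0) (.ax 10 11 14 22 0), .t 1 (nat_lit 0) (.ax 10 11 17 19 0), .t 1 (nat_lit 0) (.ax 10 11 18 19 0), .t 1 (nat_lit 0) (.ax 10 12 13 14 0), .t 1 (nat_lit 0) (.ax 10 12 13 14 5), .t 1 (nat_lit 0) (.ax 10 12 13 15 0), .t 1 (nat_lit 0) (.ax 10 12 14 15 2), .t 1 (nat_lit 0) (.ax 10 12 14 15 4), .t 1 (nat_lit 0) (.ax 10 12 16 19 4), .t 1 (nat_lit 0) (.ax 10 12 16 22 4), .t 1 (nat_lit 0) (.ax 10 13 14 15 1), .t 1 (nat_lit 0) (.ax 10 13 14 15 4)] (by decide +kernel) (by decide +kernel)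
theorem b33 : B 1056 1088 := Blk.of_chk [.t 1 (nat_lit 0) (.ax 10 13 14 22 4), .t 1 (nat_lit 0) (.ax 10 13 15 16 0), .t 1 (nat_lit 0) (.ax 10 13 15 16 4), .t 1 (nat_lit 0) (.ax 10 13 15 19 0), .t 1 (nat_lit 0) (.ax 10 13 15 22 0), .t 1 (nat_lit 0) (.ax 10 13 15 22 4), .t 1 (nat_lit 0) (.ax 10 13 16 17 4), .t 1 (nat_lit 0) (.ax 10 13 16 18 4), .t 1 (nat_lit 0) (.ax 10 13 16 22 4), .t 1 (nat_lit 0) (.ax 10 13 17 18 0), .t 1 (nat_lit 0) (.ax 10 13 17 18 2), .t 1 (nat_lit 0) (.ax 10 13 17 22 4), .t 1 (nat_lit 0) (.ax 10 13 18 22 4), .t 1 (nat_lit 0) (.ax 10 13 19 22 4), .t 1 (nat_lit 0) (.ax 10 13 20 21 4), .t 1 (nat_lit 0) (.ax 10 13 21 22 5), .t 1 (nat_lit 0) (.ax 10 14 16 17 0), .t 1 (nat_lit 0) (.ax 10 14 16 18 0), .t 1 (nat_lit 0) (.ax 10 14 16 21 0), .t 1 (nat_lit 0) (.ax 10 14 16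 22 0), .t 1 (nat_lit 0) (.ax 10 14 17 22 0), .t 1 (nat_lit 0) (.ax 10 14 18 22 0), .t 1 (nat_lit 0) (.ax 10 15 16 21 4), .t 1 (nat_lit 0) (.ax 10 15 16 22 4), .t 1 (nat_lit 0) (.ax 10 15 19 22 6), .t 1 (nat_lit 0) (.ax 10 15 21 22 5), .t 1 (nat_lit 0) (.ax 10 16 19 21 0), .t 1 (nat_lit 0) (.ax 10 17 18 19 2), .t 1 (nat_lit 0) (.ax 10 17 18 19 4), .t 1 (nat_lit 0) (.ax 10 17 19 20 4), .t 1 (nat_lit 0) (.ax 10 17 20 22 4), .t 1 (nat_lit 0) (.ax 10 17 21 22 5)] (by decide +kernel) (by decide +kernel)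
theorem b34 : B 1088 1120 := Blk.of_chk [.t 1 (nat_lit 0) (.ax 10 18 19 20 4), .t 1 (nat_lit 0) (.ax 10 18 20 22 4), .t 1 (nat_lit 0) (.ax 10 18 21 22 5), .t 1 (nat_lit 0) (.ax 10 19 20 21 0), .t 1 (nat_lit 0) (.ax 10 20 21 22 5), .t 1 (nat_lit 0) (.ax 11 12 13 16 1), .t 1 (nat_lit 0) (.ax 11 12 13 19 0), .t 1 (nat_lit 0) (.ax 11 12 13 22 6), .t 1 (nat_lit 0) (.ax 11 12 14 15 3), .t 1 (nat_lit 0) (.ax 11 12 14 18 3), .t 1 (nat_lit 0) (.ax 11 12 14 19 3), .t 1 (nat_lit 0) (.ax 11 12 14 21 3), .t 1 (nat_lit 0) (.ax 11 12 14 22 3), .t 1 (nat_lit 0) (.ax 11 12 16 19 4), .t 1 (nat_lit 0) (.ax 11 12 21 22 5), .t 1 (nat_lit 0) (.ax 11 13 14 15 3), .t 1 (nat_lit 0) (.ax 11 13 14 17 3), .t 1 (nat_lit 0) (.ax 11 13 14 18 3), .t 1 (nat_lit 0) (.ax 11 13 14 19 3), .t 1 (nat_lit 0) (.ax 11 13 14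 20 3), .t 1 (nat_lit 0) (.ax 11 13 14 21 3), .t 1 (nat_lit 0) (.ax 11 13 14 22 3), .t 1 (nat_lit 0) (.ax 11 13 15 22 0), .t 1 (nat_lit 0) (.ax 11 13 16 19 4), .t 1 (nat_lit 0) (.ax 11 13 17 19 0), .t 1 (nat_lit 0) (.ax 11 13 17 19 1), .t 1 (nat_lit 0) (.ax 11 13 17 19 3), .t 1 (nat_lit 0) (.ax 11 13 17 20 3), .t 1 (nat_lit 0) (.ax 11 13 17 22 4), .t 1 (nat_lit 0) (.ax 11 13 18 19 1), .t 1 (nat_lit 0) (.ax 11 13 18 19 3), .t 1 (nat_lit 0) (.ax 11 13 18 19 6)] (by decide +kernel) (by decide +kernel)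
theorem b35 : B 1120 1152 := Blk.of_chk [.t 1 (nat_lit 0) (.ax 11 13 18 20 3), .t 1 (nat_lit 0) (.ax 11 13 18 21 4), .t 1 (nat_lit 0) (.ax 11 13 18 22 4), .t 1 (nat_lit 0) (.ax 11 13 19 21 4), .t 1 (nat_lit 0) (.ax 11 13 19 22 4), .t 1 (nat_lit 0) (.ax 11 13 21 22 5), .t 1 (nat_lit 0) (.ax 11 14 16 17 0), .t 1 (nat_lit 0) (.ax 11 14 16 18 0), .t 1 (nat_lit 0) (.ax 11 14 16 20 0), .t 1 (nat_lit 0) (.ax 11 14 16 21 0), .t 1 (nat_lit 0) (.ax 11 14 16 22 0), .t 1 (nat_lit 0) (.ax 11 14 17 22 0), .t 1 (nat_lit 0) (.ax 11 14 18 22 0), .t 1 (nat_lit 0) (.ax 11 15 21 22 5), .t 1 (nat_lit 0) (.ax 11 16 19 21 0), .t 1 (nat_lit 0) (.ax 11 17 19 20 4), .t 1 (nat_lit 0) (.ax 11 17 21 22 5), .t 1 (nat_lit 0) (.ax 11 18 19 20 4), .t 1 (nat_lit 0) (.ax 11 18 21 22 5), .t 1 (nat_lit 0) (.ax 11 19 20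 21 0), .t 1 (nat_lit 0) (.ax 12 13 14 15 2), .t 1 (nat_lit 0) (.ax 12 13 14 15 4), .t 1 (nat_lit 0) (.ax 12 13 14 19 4), .t 1 (nat_lit 0) (.ax 12 14 16 18 0), .t 1 (nat_lit 0) (.ax 12 14 16 21 0), .t 1 (nat_lit 0) (.ax 12 14 16 22 0), .t 1 (nat_lit 0) (.ax 12 16 19 21 0), .t 1 (nat_lit 0) (.ax 13 14 16 17 0), .t 1 (nat_lit 0) (.ax 13 14 16 18 0), .t 1 (nat_lit 0) (.ax 13 14 16 21 0), .t 1 (nat_lit 0) (.ax 13 14 16 22 0), .t 1 (nat_lit 0) (.ax 13 14 17 22 0)] (by decide +kernel) (by decide +kernel)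
theorem b36 : B 1152 1184 := Blk.of_chk [.t 1 (nat_lit 0) (.ax 13 14 18 22 0), .t 1 (nat_lit 0) (.ax 13 15 16 17 2), .t 1 (nat_lit 0) (.ax 13 15 16 17 4), .t 1 (nat_lit 0) (.ax 13 15 16 18 2), .t 1 (nat_lit 0) (.ax 13 15 16 18 4), .t 1 (nat_lit 0) (.ax 13 15 16 19 4), .t 1 (nat_lit 0) (.ax 13 15 16 22 4), .t 1 (nat_lit 0) (.ax 13 15 17 18 0), .t 1 (nat_lit 0) (.ax 13 15 17 18 5), .t 1 (nat_lit 0) (.ax 13 16 17 18 0), .t 1 (nat_lit 0) (.ax 13 16 17 18 2), .t 1 (nat_lit 0) (.ax 13 16 17 18 4), .t 1 (nat_lit 0) (.ax 13 16 17 18 5), .t 1 (nat_lit 0) (.ax 13 16 19 21 0), .t 1 (nat_lit 0) (.ax 13 17 18 19 2), .t 1 (nat_lit 0) (.ax 13 17 18 19 4), .t 1 (nat_lit 0) (.ax 13 17 18 20 4), .t 1 (nat_lit 0) (.ax 13 17 19 20 4), .t 1 (nat_lit 0) (.ax 13 17 20 22 4), .t 1 (nat_lit 0) (.ax 13 17 21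 22 5), .t 1 (nat_lit 0) (.ax 13 18 20 22 4), .t 1 (nat_lit 0) (.ax 13 18 21 22 5), .t 1 (nat_lit 0) (.ax 13 20 21 22 5), .t 1 (nat_lit 0) (.ax 14 15 16 17 3), .t 1 (nat_lit 0) (.ax 14 15 16 18 3), .t 1 (nat_lit 0) (.ax 14 15 16 21 3), .t 1 (nat_lit 0) (.ax 14 15 16 22 3), .t 1 (nat_lit 0) (.ax 14 16 19 21 0), .t 1 (nat_lit 0) (.ax 15 16 17 18 2), .t 1 (nat_lit 0) (.ax 15 16 17 18 4), .t 1 (nat_lit 0) (.ax 15 16 17 18 5), .t 1 (nat_lit 0) (.ax 15 16 19 21 0)] (by decide +kernel) (by decide +kernel)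
theorem b37 : B 1184 1216 := Blk.of_chk [.t 1 (nat_lit 0) (.ax 15 17 18 19 0), .t 1 (nat_lit 0) (.ax 16 17 19 21 3), .t 1 (nat_lit 0) (.ax 16 18 19 21 3), .t 1 (nat_lit 0) (.ax 17 18 19 20 4), .t 1 (nat_lit 0) (.ax 17 18 19 22 4), .t 1 (nat_lit 0) (.ax 17 20 21 22 5), .t 1 (nat_lit 0) (.ax 18 20 21 22 5), .t 1 (nat_lit 0) (.fa 6), .t 1 (nat_lit 0) (.cp 1 2), .t 1 (nat_lit 0) (.cn 8 2), .t 1 (nat_lit 0) (.fa 2), .t 1 (nat_lit 0) (.cp 3 3), .t 8 (nat_lit 0x9b009a009800bb00b900a200a1) (.z (.node 2 4 (.node 0 8 (.free 4 [0,9,10,11,12,13,14,15,16,17,18,19,20,21,22]) (.leaf [2,5,7,8,6])) (.free 1 [1,3,4]))), .t 1 (nat_lit 0) (.fa 6), .t 1 (nat_lit 0) (.cn 8 3), .t 1 (nat_lit 0) (.cp 4 2), .t 1 (nat_lit 0) (.cp 4 3), .t 1 (nat_lit 0) (.fa 4), .t 1 (nat_lit 0) (.fa 4), .t 1 (nat_lit 0) (.cn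 3 3), .t 4 (nat_lit 0x204760475) (.z (.edon 0 16 (.node 0 11 (.leaf [0,12,13,14,15]) (.edon 4 6 (.free 2 [4,5,7,8,9,10,11]) (.leaf [1,3,6,2]))) (.free 2 [16,17,18,19,20,21,22]))), .t 3 (nat_lit 0xeb00ea) (.z (.edon 0 20 (.node 2 16 (.leaf [0,2,17,18,19]) (.free 4 [1,3,4,5,6,7,8,9,10,11,12,13,14,15,16])) (.free 1 [20,21,22]))), .t 1 (nat_lit 0) (.cp 7 3), .t 4 (nat_lit 0x404760475) (.z (.edon 0 16 (.node 0 11 (.leaf [0,12,13,14,15]) (.edon 4 9 (.free 2 [4,5,6,7,8,10,11]) (.leaf [1,3,9,2]))) (.free 2 [16,17,18,19,20,21,22]))), .t 1 (nat_lit 0) (.fa 2), .t 4 (nat_lit 0x504760475) (.z (.edon 0 16 (.node 0 11 (.leaf [0,12,13,14,15]) (.edon 4 10 (.free 2 [4,5,6,7,8,9,11]) (.leaf [1,3,10,2]))) (.free 2 [16,17,18,19,20,21,22]))), .t 4 (nat_lit 0x104760475) (.z (.edon 0 16 (.node 0 11 (.leaf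 [0,12,13,14,15]) (.edon 4 5 (.free 2 [4,6,7,8,9,10,11]) (.leaf [1,3,5,2]))) (.free 2 [16,17,18,19,20,21,22]))), .t 1 (nat_lit 0) (.cn 2 2), .t 7 (nat_lit 0x87002c0004000103b803b6) (.z (.edon 0 16 (.node 0 12 (.leaf [0,13,14,15]) (.edon 4 8 (.leaf [4,6,7]) (.edon 8 9 (.leaf [8,11,12,10]) (.leaf [1,3,5,9,2])))) (.free 2 [16,17,18,19,20,21,22]))), .t 1 (nat_lit 0) (.cp 3 3), .t 5 (nat_lit 0x40003ff03b803b6) (.z (.node 0 7 (.edon 0 16 (.edon 10 13 (.leaf [8,11,12,10]) (.leaf [0,9,13,14,15])) (.free 2 [16,17,18,19,20,21,22])) (.free 2 [1,2,3,4,5,6,7]))), .t 1 (nat_lit 0) (.cp 2 3)] (by decide +kernel) (by decide +kernel)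
theorem b38 : B 1216 1248 := Blk.of_chk [.t 5 (nat_lit 0x40003ff03b803b6) (.z (.node 0 7 (.edon 0 16 (.edon 10 14 (.leaf [8,11,12,10]) (.leaf [0,9,13,14,15])) (.free 2 [16,17,18,19,20,21,22])) (.free 2 [1,2,3,4,5,6,7]))), .t 1 (nat_lit 0) (.fa 5), .t 13 (nat_lit 0x41a0419041801310106010500f200ed0420041f041c041b) (.z (.edon 0 16 (.edon 0 3 (.leaf [0,1,2]) (.edon 7 9 (.node 10 11 (.leaf [10,12,14,15,13]) (.leaf [7,8,11])) (.leaf [3,4,6,9,5]))) (.free 2 [16,17,18,19,20,21,22]))), .t 1 (nat_lit 0) (.fa 5), .t 1 (nat_lit 0) (.cn 3 3), .t 1 (nat_lit 0) (.fa 4), .t 1 (nat_lit 0) (.fa 5), .t 1 (nat_lit 0) (.fa 3), .t 8 (nat_lit 0x3e803b803b603a803a603980396) (.z (.node 0 7 (.node 0 12 (.edon 0 16 (.leaf [0,13,14,15]) (.free 2 [16,17,18,19,20,21,22])) (.leaf [8,11,12,10,9])) (.free 2 [1,2,3,4,5,6,7]))),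 .t 1 (nat_lit 0) (.cp 4 3), .t 1 (nat_lit 0) (.cp 5 3), .t 1 (nat_lit 0) (.fa 3), .t 8 (nat_lit 0x3940391038d03b803b603a803a7) (.z (.node 0 7 (.node 0 12 (.edon 0 16 (.leaf [0,13,14,15]) (.free 2 [16,17,18,19,20,21,22])) (.leaf [8,9,11,12,10])) (.free 2 [1,2,3,4,5,6,7]))), .t 1 (nat_lit 0) (.fa 3), .t 7 (nat_lit 0x3e803e603e5038c032b032a) (.z (.edon 0 7 (.free 2 [0,1,2,3,4,5,6]) (.node 8 19 (.leaf [7,8,20,22,21]) (.edon 0 13 (.leaf [9,11,12,10]) (.free 2 [13,14,15,16,17,18,19]))))), .t 15 (nat_lit 0x4850290049e049d048c048b0483048202fc02fa02aa02a8028c028b) (.z (.edon 6 21 (.edon 0 19 (.edon 0 11 (.leaf [6,7,8,9,10]) (.node 13 14 (.leaf [13,15,16,17,18]) (.leaf [11,12,14]))) (.leaf [19,20,22])) (.free 2 [0,1,2,3,4,5,21]))), .t 1 (nat_lit 0) (.cn 2 2), .t 15 (nat_lit 0x290049f048d048a048904880485048402fc02fa02aa02a8028c028b)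 (.z (.edon 6 21 (.edon 0 11 (.leaf [6,7,8,9,10]) (.node 13 14 (.edon 0 19 (.leaf [13,15,16,18,17]) (.leaf [19,20,22])) (.leaf [11,12,14]))) (.free 2 [0,1,2,3,4,5,21]))), .t 1 (nat_lit 0) (.cp 5 3), .t 1 (nat_lit 0) (.cn 1 2), .t 15 (nat_lit 0x244049f048d048a048904880485048402fc02fa025c025a0240023f) (.z (.node 2 4 (.node 6 22 (.leaf [0,2,6,21]) (.edon 0 11 (.leaf [5,7,8,9,10]) (.node 13 14 (.edon 0 19 (.leaf [13,15,16,18,17]) (.leaf [19,20,22])) (.leaf [11,12,14])))) (.free 1 [1,3,4]))), .t 3 (nat_lit 0xc400c3) (.z (.node 2 4 (.node 6 22 (.leaf [0,2,6,13,21]) (.free 4 [5,7,8,9,10,11,12,14,15,16,17,18,19,20,22])) (.free 1 [1,3,4]))), .t 8 (nat_lit 0x9900a200a0009d009c00bb00ba) (.z (.node 2 4 (.node 0 8 (.free 4 [0,9,10,11,12,13,14,15,16,17,18,19,20,21,22]) (.leaf [2,6,7,8,5])) (.free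 1 [1,3,4]))), .t 10 (nat_lit 0x29000b800b702fc02fa02aa02a8028c028b) (.z (.node 2 4 (.edon 19 21 (.leaf [19,20,22]) (.edon 6 13 (.edon 0 11 (.leaf [6,7,8,9,10]) (.free 2 [11,12,14,15,16,17,18])) (.leaf [0,2,5,13,21]))) (.free 1 [1,3,4]))), .t 3 (nat_lit 0x9f009e) (.z (.node 2 4 (.node 6 21 (.leaf [0,2,5,6,13]) (.free 4 [7,8,9,10,11,12,14,15,16,17,18,19,20,21,22])) (.free 1 [1,3,4]))), .t 3 (nat_lit 0xb100b0) (.z (.node 2 4 (.node 10 21 (.leaf [0,2,5,10,13]) (.free 4 [6,7,8,9,11,12,14,15,16,17,18,19,20,21,22])) (.free 1 [1,3,4]))), .t 3 (nat_lit 0xb800b7) (.z (.node 2 4 (.edon 6 21 (.free 4 [6,7,8,9,10,11,12,14,15,16,17,18,19,20,22]) (.leaf [0,2,5,13,21])) (.free 1 [1,3,4]))), .t 17 (nat_lit 0x234023302310230022e0244023902380236023502fc02fa025c025a0240023f) (.z (.edon 21 6 (.free 2 [0,1,2,3,4,13,21])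 (.edon 0 11 (.leaf [5,7,8,9,10,6]) (.free 3 [11,12,14,15,16,17,18,19,20,22])))), .t 12 (nat_lit 0x42f0382036b049704450430038c0383036c03610360) (.z (.edon 0 7 (.free 2 [0,1,2,3,4,5,6]) (.node 7 19 (.leaf [7,20,22,21,13,10]) (.free 3 [8,9,11,12,14,15,16,17,18,19])))), .t 10 (nat_lit 0x23200e200e1028c028b0240023f0230022f) (.z (.node 2 4 (.edon 5 19 (.edon 0 11 (.leaf [5,6,7,8,9]) (.free 2 [11,12,14,15,16,17,18])) (.edon 19 21 (.leaf [19,20,22]) (.leaf [0,2,10,13,21]))) (.free 1 [1,3,4]))), .t 3 (nat_lit 0xb100b0) (.z (.node 2 4 (.node 5 21 (.leaf [0,2,5,10,13]) (.free 4 [6,7,8,9,11,12,14,15,16,17,18,19,20,21,22])) (.free 1 [1,3,4]))), .t 3 (nat_lit 0xb400b3) (.z (.node 2 4 (.node 10 22 (.leaf [0,2,5,10,21]) (.free 4 [6,7,8,9,11,12,13,14,15,16,17,18,19,20,22])) (.free 1 [1,3,4])))] (by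 decide +kernel) (by decide +kernel)
theorem b39 : B 1248 1280 := Blk.of_chk [.t 10 (nat_lit 0x4a70497049604950135010a010900f300ee) (.z (.edon 0 3 (.free 1 [0,1,2]) (.edon 7 16 (.free 2 [7,8,9,11,12,14,15]) (.edon 0 13 (.leaf [3,4,6,10,5]) (.node 18 19 (.leaf [13,18,20,22,21]) (.leaf [16,17,19])))))), .t 1 (nat_lit 0) (.fa 6), .t 17 (nat_lit 0x29002440236023202fc02fa02aa02a8028c028b025c025a0240023f0230022f) (.z (.edon 21 5 (.free 2 [0,1,2,3,4,13,21]) (.edon 0 11 (.leaf [5,6,7,8,9,10]) (.free 3 [11,12,14,15,16,17,18,19,20,22])))), .t 1 (nat_lit 0) (.cn 8 3), .t 10 (nat_lit 0x4a60497049404930135010a010900f300ee) (.z (.edon 0 3 (.free 1 [0,1,2]) (.edon 7 16 (.free 2 [7,8,9,11,12,14,15]) (.edon 0 13 (.leaf [3,4,6,10,5]) (.node 17 19 (.leaf [13,17,20,22,21]) (.leaf [16,18,19])))))), .t 10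 (nat_lit 0x4a604450440043f01310106010500f200ed) (.z (.edon 0 3 (.free 1 [0,1,2]) (.edon 7 16 (.free 2 [7,8,11,12,13,14,15]) (.edon 0 10 (.leaf [3,4,6,9,5]) (.node 17 19 (.leaf [10,17,20,22,21]) (.leaf [16,18,19])))))), .t 1 (nat_lit 0) (.cn 3 3), .t 10 (nat_lit 0x4a60497049404930136010b010800f300ee) (.z (.edon 0 3 (.free 1 [0,1,2]) (.edon 7 16 (.free 2 [7,8,9,11,12,14,15]) (.edon 0 13 (.leaf [3,4,5,10,6]) (.node 17 19 (.leaf [13,17,20,22,21]) (.leaf [16,18,19])))))), .t 10 (nat_lit 0x4a604450440043f01320107010400f200ed) (.z (.edon 0 3 (.free 1 [0,1,2]) (.edon 7 16 (.free 2 [7,8,11,12,13,14,15]) (.edon 0 10 (.leaf [3,4,5,9,6]) (.node 17 19 (.leaf [10,17,20,22,21]) (.leaf [16,18,19])))))), .t 3 (nat_lit 0x490048f) (.z (.edon 0 20 (.node 13 16 (.leaf [0,13,17,18,19]) (.free 4 [1,2,3,4,5,6,7,8,9,10,11,12,14,15,16]))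 (.free 1 [20,21,22]))), .t 3 (nat_lit 0x43d043c) (.z (.edon 0 20 (.node 10 16 (.leaf [0,10,17,18,19]) (.free 4 [1,2,3,4,5,6,7,8,9,11,12,13,14,15,16])) (.free 1 [20,21,22]))), .t 5 (nat_lit 0x88002d00050001) (.z (.edon 0 16 (.edon 4 14 (.free 2 [4,6,7,8,9,11,12]) (.node 0 10 (.leaf [0,13,14,15]) (.leaf [1,3,5,10,2]))) (.free 2 [16,17,18,19,20,21,22]))), .t 1 (nat_lit 0) (.cp 3 3), .t 10 (nat_lit 0x4a6049704940493012f0101010000f000ec) (.z (.edon 0 3 (.free 1 [0,1,2]) (.edon 7 16 (.free 2 [7,9,10,11,12,14,15]) (.edon 0 13 (.leaf [3,4,6,8,5]) (.node 17 19 (.leaf [13,17,20,22,21]) (.leaf [16,18,19])))))), .t 1 (nat_lit 0) (.cp 3 3), .t 10 (nat_lit 0x4a6040d040c040b012f0101010000f000ec) (.z (.edon 0 3 (.free 1 [0,1,2]) (.edon 7 16 (.free 2 [7,10,11,12,13,14,15]) (.edon 0 9 (.leaf [3,4,6,8,5])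 (.node 17 19 (.leaf [9,17,20,22,21]) (.leaf [16,18,19])))))), .t 8 (nat_lit 0x38e03a803a60397039503b803b7) (.z (.node 0 7 (.node 0 12 (.edon 0 16 (.leaf [0,13,14,15]) (.free 2 [16,17,18,19,20,21,22])) (.leaf [8,10,11,12,9])) (.free 2 [1,2,3,4,5,6,7]))), .t 5 (nat_lit 0x86002b00030001) (.z (.node 8 0 (.edon 4 8 (.leaf [4,6,7]) (.leaf [1,3,5,8,2])) (.free 4 [0,9,10,11,12,13,14,15,16,17,18,19,20,21,22]))), .t 5 (nat_lit 0x86002b00030001) (.z (.node 8 0 (.edon 4 5 (.leaf [4,6,7]) (.leaf [1,3,5,8,2])) (.free 4 [0,9,10,11,12,13,14,15,16,17,18,19,20,21,22]))), .t 5 (nat_lit 0x89002e00030002) (.z (.node 8 0 (.edon 4 6 (.leaf [4,5,7]) (.leaf [1,3,6,8,2])) (.free 4 [0,9,10,11,12,13,14,15,16,17,18,19,20,21,22]))), .t 1 (nat_lit 0) (.cp 8 3), .t 10 (nat_lit 0x3a203a1049f048d048a0489048804850484)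 (.z (.node 0 7 (.edon 11 21 (.node 13 14 (.edon 0 19 (.leaf [13,15,16,18,17]) (.leaf [19,20,22])) (.leaf [11,12,14])) (.leaf [0,8,9,10,21])) (.free 2 [1,2,3,4,5,6,7]))), .t 15 (nat_lit 0x28e028d028a049f048d048a048904880485048402aa02a702950294) (.z (.node 2 4 (.edon 6 21 (.edon 0 11 (.leaf [6,7,9,10,8]) (.node 13 14 (.edon 0 19 (.leaf [13,15,16,18,17]) (.leaf [19,20,22])) (.leaf [11,12,14]))) (.leaf [0,2,5,21])) (.free 1 [1,3,4]))), .t 1 (nat_lit 0) (.cn 2 3), .t 3 (nat_lit 0xab00aa) (.z (.node 2 4 (.edon 6 21 (.free 4 [6,7,9,10,11,12,13,14,15,16,17,18,19,20,22]) (.leaf [0,2,5,8,21])) (.free 1 [1,3,4]))), .t 15 (nat_lit 0x28a029602930291028e049f048d048a048904880485048402ab02a9) (.z (.node 2 4 (.edon 6 21 (.edon 0 11 (.leaf [6,7,10,9,8]) (.node 13 14 (.edon 0 19 (.leaf [13,15,16,18,17])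 (.leaf [19,20,22])) (.leaf [11,12,14]))) (.leaf [0,2,5,21])) (.free 1 [1,3,4]))), .t 1 (nat_lit 0) (.cn 8 3), .t 3 (nat_lit 0x1720171) (.z (.node 0 3 (.node 5 22 (.leaf [0,4,5,13,21]) (.free 4 [6,7,8,9,10,11,12,14,15,16,17,18,19,20,22])) (.free 1 [1,2,3]))), .t 15 (nat_lit 0x23e024a024702450242049f048d048a0489048804850484025d025b) (.z (.node 2 4 (.node 6 22 (.leaf [0,2,6,21]) (.edon 0 11 (.leaf [5,7,10,9,8]) (.node 13 14 (.edon 0 19 (.leaf [13,15,16,18,17]) (.leaf [19,20,22])) (.leaf [11,12,14])))) (.free 1 [1,3,4]))), .t 1 (nat_lit 0) (.cn 2 3), .t 8 (nat_lit 0x39703e803e703b803b70390038f) (.z (.node 0 7 (.node 0 12 (.edon 0 16 (.leaf [0,13,14,15]) (.free 2 [16,17,18,19,20,21,22])) (.leaf [8,9,10,11,12])) (.free 2 [1,2,3,4,5,6,7]))), .t 1 (nat_lit 0) (.fa 3)] (by decide +kernel) (by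 decide +kernel)
theorem b40 : B 1280 1312 := Blk.of_chk [.t 15 (nat_lit 0x2420241023e049f048d048a0489048804850484025c025902490248) (.z (.node 2 4 (.node 6 22 (.leaf [0,2,6,21]) (.edon 0 11 (.leaf [5,7,9,10,8]) (.node 13 14 (.edon 0 19 (.leaf [13,15,16,18,17]) (.leaf [19,20,22])) (.leaf [11,12,14])))) (.free 1 [1,3,4]))), .t 1 (nat_lit 0) (.cn 8 3), .t 3 (nat_lit 0xab00aa) (.z (.node 2 4 (.node 8 22 (.leaf [0,2,5,8,21]) (.free 4 [6,7,9,10,11,12,13,14,15,16,17,18,19,20,22])) (.free 1 [1,3,4]))), .t 1 (nat_lit 0) (.cn 3 2), .t 10 (nat_lit 0x4a604970494049301310106010500f200ed) (.z (.edon 0 3 (.free 1 [0,1,2]) (.edon 7 16 (.free 2 [7,8,10,11,12,14,15]) (.edon 0 13 (.leaf [3,4,6,9,5]) (.node 17 19 (.leaf [13,17,20,22,21]) (.leaf [16,18,19])))))), .t 7 (nat_lit 0x4030383034b0344034204a4)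 (.z (.edon 0 7 (.free 2 [0,1,2,3,4,5,6]) (.node 7 16 (.edon 17 22 (.leaf [17,18,19,20]) (.leaf [7,9,13,22,21])) (.free 2 [8,10,11,12,14,15,16])))), .t 15 (nat_lit 0x49f048d048a048904880485048402fd025d0258024a024702440243) (.z (.node 2 4 (.node 6 22 (.leaf [0,2,6,21]) (.edon 0 11 (.leaf [5,7,8,10,9]) (.node 13 14 (.edon 0 19 (.leaf [13,15,16,18,17]) (.leaf [19,20,22])) (.leaf [11,12,14])))) (.free 1 [1,3,4]))), .t 7 (nat_lit 0x8a002f0004000203b803b6) (.z (.edon 0 16 (.node 0 12 (.leaf [0,13,14,15]) (.edon 8 9 (.leaf [8,11,12,10]) (.edon 4 6 (.leaf [4,5,7]) (.leaf [1,3,6,9,2])))) (.free 2 [16,17,18,19,20,21,22]))), .t 7 (nat_lit 0x8a002f0004000203b803b6) (.z (.edon 0 16 (.node 0 12 (.leaf [0,13,14,15]) (.edon 8 9 (.leaf [8,11,12,10]) (.edon 4 9 (.leaf [4,5,7]) (.leaf [1,3,6,9,2]))))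 (.free 2 [16,17,18,19,20,21,22]))), .t 10 (nat_lit 0x4a604970494049301320107010400f200ed) (.z (.edon 0 3 (.free 1 [0,1,2]) (.edon 7 16 (.free 2 [7,8,10,11,12,14,15]) (.edon 0 13 (.leaf [3,4,5,9,6]) (.node 17 19 (.leaf [13,17,20,22,21]) (.leaf [16,18,19])))))), .t 1 (nat_lit 0) (.cn 8 3), .t 1 (nat_lit 0) (.cn 8 2), .t 7 (nat_lit 0x8b00300005000203a803a6) (.z (.edon 0 16 (.node 0 12 (.leaf [0,13,14,15]) (.edon 4 8 (.leaf [4,5,7]) (.edon 8 10 (.leaf [8,11,12,9]) (.leaf [1,3,6,10,2])))) (.free 2 [16,17,18,19,20,21,22]))), .t 1 (nat_lit 0) (.cn 8 3), .t 15 (nat_lit 0x4850244049e049d048c048b0483048202fc02fa025c025a0240023f) (.z (.node 2 4 (.node 6 22 (.leaf [0,2,6,21]) (.edon 0 11 (.leaf [5,7,8,9,10]) (.edon 0 19 (.node 13 14 (.leaf [13,15,16,17,18]) (.leaf [11,12,14])) (.leaf [19,20,22]))))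 (.free 1 [1,3,4]))), .t 1 (nat_lit 0) (.cn 3 2), .t 15 (nat_lit 0x485049e049d048c048b0483048202fd025d0258024a024702440243) (.z (.node 2 4 (.node 6 22 (.leaf [0,2,6,21]) (.edon 0 19 (.edon 0 11 (.leaf [5,7,8,10,9]) (.node 13 14 (.leaf [13,15,16,17,18]) (.leaf [11,12,14]))) (.leaf [19,20,22]))) (.free 1 [1,3,4]))), .t 10 (nat_lit 0x4a704970496049501320107010400f200ed) (.z (.edon 0 3 (.free 1 [0,1,2]) (.edon 7 16 (.free 2 [7,8,10,11,12,14,15]) (.edon 0 13 (.leaf [3,4,5,9,6]) (.node 18 19 (.leaf [13,18,20,22,21]) (.leaf [16,17,19])))))), .t 1 (nat_lit 0) (.cn 3 3), .t 15 (nat_lit 0x23e0485024a024702450242049e049d048c048b04830482025d025b) (.z (.node 2 4 (.node 6 22 (.leaf [0,2,6,21]) (.edon 0 19 (.edon 0 11 (.leaf [5,7,10,9,8]) (.node 13 14 (.leaf [13,15,16,17,18]) (.leaf [11,12,14])))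 (.leaf [19,20,22]))) (.free 1 [1,3,4]))), .t 10 (nat_lit 0x4a70497049604950130010200ff00f000ec) (.z (.edon 0 3 (.free 1 [0,1,2]) (.edon 7 16 (.free 2 [7,9,10,11,12,14,15]) (.edon 0 13 (.leaf [3,4,5,8,6]) (.node 18 19 (.leaf [13,18,20,22,21]) (.leaf [16,17,19])))))), .t 5 (nat_lit 0x89002e00030002) (.z (.node 8 0 (.edon 4 8 (.leaf [4,5,7]) (.leaf [1,3,6,8,2])) (.free 4 [0,9,10,11,12,13,14,15,16,17,18,19,20,21,22]))), .t 10 (nat_lit 0x4a60497049404930130010200ff00f000ec) (.z (.edon 0 3 (.free 1 [0,1,2]) (.edon 7 16 (.free 2 [7,9,10,11,12,14,15]) (.edon 0 13 (.leaf [3,4,5,8,6]) (.node 17 19 (.leaf [13,17,20,22,21]) (.leaf [16,18,19])))))), .t 10 (nat_lit 0x4a6040d040c040b0130010200ff00f000ec) (.z (.edon 0 3 (.free 1 [0,1,2]) (.edon 7 16 (.free 2 [7,10,11,12,13,14,15]) (.edon 0 9 (.leaf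 [3,4,5,8,6]) (.node 17 19 (.leaf [9,17,20,22,21]) (.leaf [16,18,19])))))), .t 1 (nat_lit 0) (.fa 4), .t 10 (nat_lit 0x4a604450440043f0130010200ff00f000ec) (.z (.edon 0 3 (.free 1 [0,1,2]) (.edon 7 16 (.free 2 [7,9,11,12,13,14,15]) (.edon 0 10 (.leaf [3,4,5,8,6]) (.node 17 19 (.leaf [10,17,20,22,21]) (.leaf [16,18,19])))))), .t 15 (nat_lit 0x48502420241023e049e049d048c048b04830482025c025902490248) (.z (.node 2 4 (.node 6 22 (.leaf [0,2,6,21]) (.edon 0 19 (.edon 0 11 (.leaf [5,7,9,10,8]) (.node 13 14 (.leaf [13,15,16,17,18]) (.leaf [11,12,14]))) (.leaf [19,20,22]))) (.free 1 [1,3,4]))), .t 15 (nat_lit 0x28a0485029602930291028e049e049d048c048b0483048202ab02a9) (.z (.node 2 4 (.edon 6 21 (.edon 0 19 (.edon 0 11 (.leaf [6,7,10,9,8]) (.node 13 14 (.leaf [13,15,16,17,18]) (.leaf [11,12,14])))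 (.leaf [19,20,22])) (.leaf [0,2,5,21])) (.free 1 [1,3,4]))), .t 10 (nat_lit 0x4a7049704960495012f0101010000f000ec) (.z (.edon 0 3 (.free 1 [0,1,2]) (.edon 7 16 (.free 2 [7,9,10,11,12,14,15]) (.edon 0 13 (.leaf [3,4,6,8,5]) (.node 18 19 (.leaf [13,18,20,22,21]) (.leaf [16,17,19])))))), .t 15 (nat_lit 0x485028e028d028a049e049d048c048b0483048202aa02a702950294) (.z (.node 2 4 (.edon 6 21 (.edon 0 11 (.leaf [6,7,9,10,8]) (.node 13 14 (.edon 0 19 (.leaf [13,15,16,17,18]) (.leaf [19,20,22])) (.leaf [11,12,14]))) (.leaf [0,2,5,21])) (.free 1 [1,3,4]))), .t 10 (nat_lit 0x4a604450440043f012f0101010000f000ec) (.z (.edon 0 3 (.free 1 [0,1,2]) (.edon 7 16 (.free 2 [7,9,11,12,13,14,15]) (.edon 0 10 (.leaf [3,4,6,8,5]) (.node 17 19 (.leaf [10,17,20,22,21]) (.leaf [16,18,19])))))), .t 15 (nat_lit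 0x4850232049e049d048c048b04830482028c028b0240023f0230022f) (.z (.node 2 4 (.node 10 22 (.leaf [0,2,10,21]) (.edon 0 11 (.leaf [5,6,7,8,9]) (.edon 0 19 (.node 13 14 (.leaf [13,15,16,17,18]) (.leaf [11,12,14])) (.leaf [19,20,22])))) (.free 1 [1,3,4])))] (by decide +kernel) (by decide +kernel)
theorem b41 : B 1312 1344 := Blk.of_chk [.t 1 (nat_lit 0) (.cn 8 3), .t 10 (nat_lit 0x4a704450443044201310106010500f200ed) (.z (.edon 0 3 (.free 1 [0,1,2]) (.edon 7 16 (.free 2 [7,8,11,12,13,14,15]) (.edon 0 10 (.leaf [3,4,6,9,5]) (.node 18 19 (.leaf [10,18,20,22,21]) (.leaf [16,17,19])))))), .t 15 (nat_lit 0x485049e049d048c048b0483048202fd02ab02a6029602930290028f) (.z (.node 2 4 (.node 5 22 (.leaf [0,2,5,21]) (.edon 0 11 (.leaf [6,7,8,10,9]) (.node 13 14 (.edon 0 19 (.leaf [13,15,16,17,18]) (.leaf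 [19,20,22])) (.leaf [11,12,14])))) (.free 1 [1,3,4]))), .t 15 (nat_lit 0x232049f048d048a0489048804850484028c028b0240023f0230022f) (.z (.node 2 4 (.node 10 22 (.leaf [0,2,10,21]) (.edon 0 11 (.leaf [5,6,7,8,9]) (.node 13 14 (.edon 0 19 (.leaf [13,15,16,18,17]) (.leaf [19,20,22])) (.leaf [11,12,14])))) (.free 1 [1,3,4]))), .t 15 (nat_lit 0x49f048d048a048904880485048402fd02ab02a6029602930290028f) (.z (.node 2 4 (.node 5 22 (.leaf [0,2,5,21]) (.edon 0 11 (.leaf [6,7,8,10,9]) (.node 13 14 (.edon 0 19 (.leaf [13,15,16,18,17]) (.leaf [19,20,22])) (.leaf [11,12,14])))) (.free 1 [1,3,4]))), .t 10 (nat_lit 0x4a704970496049501310106010500f200ed) (.z (.edon 0 3 (.free 1 [0,1,2]) (.edon 7 16 (.free 2 [7,8,10,11,12,14,15]) (.edon 0 13 (.leaf [3,4,6,9,5]) (.node 18 19 (.leaf [13,18,20,22,21]) (.leaf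 [16,17,19])))))), .r 3 (nat_lit 0x1e0036), .r 3 (nat_lit 0x1f0037), .r 3 (nat_lit 0x20003c), .r 3 (nat_lit 0x590036), .r 3 (nat_lit 0x5a0037), .r 3 (nat_lit 0x5b003c), .r 3 (nat_lit 0x5c003c), .r 3 (nat_lit 0x23052d), .r 3 (nat_lit 0x5d003d), .r 3 (nat_lit 0x5e003e), .r 3 (nat_lit 0x5f003f), .r 3 (nat_lit 0x240531), .r 3 (nat_lit 0x600041), .r 3 (nat_lit 0x610042), .r 3 (nat_lit 0x62003c), .r 3 (nat_lit 0x63003c), .r 3 (nat_lit 0x64003c), .r 3 (nat_lit 0x6f052f), .r 3 (nat_lit 0x700530), .r 3 (nat_lit 0x710531), .r 3 (nat_lit 0x720533), .r 3 (nat_lit 0x730534), .r 3 (nat_lit 0x26053c), .r 3 (nat_lit 0x740531), .r 3 (nat_lit 0x7d0538), .r 3 (nat_lit 0x27053f)] (by decide +kernel) (by decide +kernel)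
theorem b42 : B 1344 1376 := Blk.of_chk [.r 3 (nat_lit 0x7e0539), .r 3 (nat_lit 0x280541), .r 3 (nat_lit 0x7f053b), .r 3 (nat_lit 0x830543), .r 3 (nat_lit 0x2a0544), .r 3 (nat_lit 0x8c0007), .r 3 (nat_lit 0x8d0006), .r 3 (nat_lit 0x8e0007), .r 3 (nat_lit 0x8f0008), .r 3 (nat_lit 0x90000a), .r 3 (nat_lit 0x91000c), .r 3 (nat_lit 0x92000e), .r 3 (nat_lit 0x930016), .r 3 (nat_lit 0x940019), .r 3 (nat_lit 0x950013), .r 3 (nat_lit 0x960013), .r 3 (nat_lit 0x970015), .r 3 (nat_lit 0xc70527), .r 3 (nat_lit 0xc80528), .r 3 (nat_lit 0xc90529), .r 3 (nat_lit 0xca0529), .r 3 (nat_lit 0xcb0529), .r 3 (nat_lit 0xcc0529), .r 3 (nat_lit 0xcd0529), .r 3 (nat_lit 0x11800f6), .r 3 (nat_lit 0x11900f7), .r 3 (nat_lit 0x11a00f8), .r 3 (nat_lit 0x11b00f8), .r 3 (nat_lit 0x11c00f8), .r 3 (nat_lit 0x11d00f9),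 .r 3 (nat_lit 0x11e00fa), .r 3 (nat_lit 0x12b055f)] (by decide +kernel) (by decide +kernel)
theorem b43 : B 1376 1408 := Blk.of_chk [.r 3 (nat_lit 0x21301bd), .r 3 (nat_lit 0x21401c3), .r 3 (nat_lit 0x21501c3), .r 3 (nat_lit 0x21601bc), .r 3 (nat_lit 0x21701be), .r 3 (nat_lit 0x21801bf), .r 3 (nat_lit 0x21901c0), .r 3 (nat_lit 0x21a01c1), .r 3 (nat_lit 0x21b01c2), .r 3 (nat_lit 0x21c01c3), .r 3 (nat_lit 0x22a056a), .r 3 (nat_lit 0x22b056a), .r 3 (nat_lit 0x22c056a), .r 3 (nat_lit 0x23e0140), .r 3 (nat_lit 0x2420141), .r 3 (nat_lit 0x2460143), .r 3 (nat_lit 0x24b0142), .r 3 (nat_lit 0x24c0143), .r 3 (nat_lit 0x24d0142), .r 3 (nat_lit 0x24e0143), .r 3 (nat_lit 0x24f0144), .r 3 (nat_lit 0x2500146), .r 3 (nat_lit 0x2510143), .r 3 (nat_lit 0x2520144), .r 3 (nat_lit 0x2530145), .r 3 (nat_lit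 0x2540146), .r 3 (nat_lit 0x2550143), .r 3 (nat_lit 0x2560143), .r 3 (nat_lit 0x2570143), .r 3 (nat_lit 0x2720577), .r 3 (nat_lit 0x273057a), .r 3 (nat_lit 0x274057a)] (by decide +kernel) (by decide +kernel)
theorem b44 : B 1408 1440 := Blk.of_chk [.r 3 (nat_lit 0x2750578), .r 3 (nat_lit 0x2760579), .r 3 (nat_lit 0x277057a), .r 3 (nat_lit 0x2780578), .r 3 (nat_lit 0x2790578), .r 3 (nat_lit 0x27f0582), .r 3 (nat_lit 0x2800583), .r 3 (nat_lit 0x2810583), .r 3 (nat_lit 0x2820583), .r 3 (nat_lit 0x2860586), .r 3 (nat_lit 0x289058a), .r 3 (nat_lit 0x28a0177), .r 3 (nat_lit 0x28e0178), .r 3 (nat_lit 0x292017b), .r 3 (nat_lit 0x297017b), .r 3 (nat_lit 0x2980177), .r 3 (nat_lit 0x299017f), .r 3 (nat_lit 0x29a0179), .r 3 (nat_lit 0x29b017e), .r 3 (nat_lit 0x29c017f), .r 3 (nat_lit 0x29d0179),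 .r 3 (nat_lit 0x29e017b), .r 3 (nat_lit 0x29f017d), .r 3 (nat_lit 0x2a0017e), .r 3 (nat_lit 0x2a1017f), .r 3 (nat_lit 0x2a2017a), .r 3 (nat_lit 0x2a3017b), .r 3 (nat_lit 0x2a4017b), .r 3 (nat_lit 0x2a5017b), .r 3 (nat_lit 0x2db0596), .r 3 (nat_lit 0x2dc0598), .r 3 (nat_lit 0x2dd0599)] (by decide +kernel) (by decide +kernel)
theorem b45 : B 1440 1472 := Blk.of_chk [.r 3 (nat_lit 0x2de0598), .r 3 (nat_lit 0x2df0599), .r 3 (nat_lit 0x2ee05a1), .r 3 (nat_lit 0x2ef05a2), .r 3 (nat_lit 0x2f005a2), .r 3 (nat_lit 0x2f105a2), .r 3 (nat_lit 0x2f405a3), .r 3 (nat_lit 0x2f705a7), .r 3 (nat_lit 0x384036f), .r 3 (nat_lit 0x3850370), .r 3 (nat_lit 0x3860372), .r 3 (nat_lit 0x3870373), .r 3 (nat_lit 0x3880374), .r 3 (nat_lit 0x3890374), .r 3 (nat_lit 0x38b05ac), .r 3 (nat_lit 0x3a80336), .r 3 (nat_lit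 0x3a90337), .r 3 (nat_lit 0x3aa0338), .r 3 (nat_lit 0x3ab033b), .r 3 (nat_lit 0x3ba034f), .r 3 (nat_lit 0x3bb0354), .r 3 (nat_lit 0x3ca031d), .r 3 (nat_lit 0x3cb031c), .r 3 (nat_lit 0x3cc031d), .r 3 (nat_lit 0x3cd031e), .r 3 (nat_lit 0x3ce031f), .r 3 (nat_lit 0x3cf0320), .r 3 (nat_lit 0x3d0031d), .r 3 (nat_lit 0x3da05b7), .r 3 (nat_lit 0x3db05b9), .r 3 (nat_lit 0x3dc05ba), .r 3 (nat_lit 0x3dd05bb)] (by decide +kernel) (by decide +kernel)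

end Pool.Agent.GCP.F9_11_14
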