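import Pool.Agent.GCP.F9_12_14Db

set_option autoImplicit false
set_option maxRecDepth 100000

/-! # Blocks F9_12_14B0 (generated) -/

namespace Pool.Agent.GCP.F9_12_14

open Pool.Agent.GCP DB

theorem b0 : B 0 32 := Blk.of_chk [.t 1 (nat_lit 0) (.ax 1 2 3 5 1), .t 1 (nat_lit 0) (.ax 1 2 3 6 1), .t 1 (nat_lit 0) (.ax 1 2 3 8 1), .t 1 (nat_lit 0) (.ax 1 2 4 5 1), .t 1 (nat_lit 0) (.ax 1 2 4 6 1), .t 1 (nat_lit 0) (.ax 1 2 4 8 1), .t 1 (nat_lit 0) (.ax 1 2 4 9 1), .t 1 (nat_lit 0) (.ax 1 2 4 10 1), .t 1 (nat_lit 0) (.ax 1 2 4 11 1), .t 1 (nat_lit 0) (.ax 1 2 4 12 1), .t 1 (nat_lit 0) (.ax 1 2 4 13 1), .t 1 (nat_lit 0) (.ax 1 2 4 14 1), .t 1 (nat_lit 0) (.ax 1 2 4 15 1), .t 1 (nat_lit 0) (.ax 1 2 4 16 1), .t 1 (nat_lit 0) (.ax 1 2 4 17 1), .t 1 (nat_lit 0) (.ax 1 2 4 18 1), .t 1 (nat_lit 0) (.ax 1 2 4 19 1), .t 1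 (nat_lit 0) (.ax 1 2 4 20 1), .t 1 (nat_lit 0) (.ax 1 2 4 21 1), .t 1 (nat_lit 0) (.ax 1 2 4 22 1), .t 1 (nat_lit 0) (.ax 1 2 5 7 1), .t 1 (nat_lit 0) (.ax 1 2 5 8 1), .t 1 (nat_lit 0) (.ax 1 2 6 7 1), .t 1 (nat_lit 0) (.ax 1 2 6 8 1), .t 1 (nat_lit 0) (.ax 1 2 7 8 1), .t 1 (nat_lit 0) (.ax 1 2 7 9 1), .t 1 (nat_lit 0) (.ax 1 2 7 10 1), .t 1 (nat_lit 0) (.ax 1 2 12 16 1), .t 1 (nat_lit 0) (.ax 1 2 14 22 1), .t 1 (nat_lit 0) (.ax 1 3 5 8 0), .t 1 (nat_lit 0) (.ax 1 3 5 10 0), .t 1 (nat_lit 0) (.ax 1 3 6 8 0)] (by decide +kernel) (by decide +kernel)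
theorem b1 : B 32 64 := Blk.of_chk [.t 1 (nat_lit 0) (.ax 1 4 5 10 2), .t 1 (nat_lit 0) (.ax 1 4 7 8 0), .t 1 (nat_lit 0) (.ax 1 4 7 9 0), .t 1 (nat_lit 0) (.ax 1 4 7 10 0), .t 1 (nat_lit 0) (.ax 1 4 7 11 0), .t 1 (nat_lit 0) (.ax 1 4 7 13 0), .t 1 (nat_lit 0) (.ax 1 4 7 14 0), .t 1 (nat_lit 0) (.ax 1 4 7 15 0), .t 1 (nat_lit 0) (.ax 1 4 7 16 0), .t 1 (nat_lit 0) (.ax 1 4 7 17 0), .t 1 (nat_lit 0) (.ax 1 4 7 18 0), .t 1 (nat_lit 0) (.ax 1 4 7 19 0), .t 1 (nat_lit 0) (.ax 1 4 7 20 0), .t 1 (nat_lit 0) (.ax 1 4 7 21 0), .t 1 (nat_lit 0) (.ax 1 4 7 22 0), .t 1 (nat_lit 0) (.ax 1 5 6 7 1), .t 1 (nat_lit 0) (.ax 1 5 6 12 0), .t 1 (nat_lit 0) (.ax 1 5 7 8 4), .t 1 (nat_lit 0) (.ax 1 5 8 12 0), .t 1 (nat_lit 0) (.ax 1 5 10 12 2), .t 1 (nat_lit 0) (.ax 1 5 10 12 4), .t 1 (nat_lit 0) (.ax 1 6 7 8 4), .t 1 (nat_lit 0) (.ax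 1 7 12 16 0), .t 1 (nat_lit 0) (.ax 1 7 12 22 0), .t 1 (nat_lit 0) (.ax 1 12 14 22 0), .t 1 (nat_lit 0) (.ax 2 3 5 8 0), .t 1 (nat_lit 0) (.ax 2 3 6 8 0), .t 1 (nat_lit 0) (.ax 2 5 6 7 0), .t 1 (nat_lit 0) (.ax 2 5 6 7 1), .t 1 (nat_lit 0) (.ax 2 5 6 7 5), .t 1 (nat_lit 0) (.ax 2 5 6 8 0), .t 1 (nat_lit 0) (.ax 2 5 6 8 1)] (by decide +kernel) (by decide +kernel)
theorem b2 : B 64 96 := Blk.of_chk [.t 1 (nat_lit 0) (.ax 2 5 6 8 4), .t 1 (nat_lit 0) (.ax 2 5 7 8 1), .t 1 (nat_lit 0) (.ax 2 5 7 8 2), .t 1 (nat_lit 0) (.ax 2 5 7 8 4), .t 1 (nat_lit 0) (.ax 2 5 8 9 4), .t 1 (nat_lit 0) (.ax 2 5 8 10 2), .t 1 (nat_lit 0) (.ax 2 5 8 10 4), .t 1 (nat_lit 0) (.ax 2 5 8 10 6), .t 1 (nat_lit 0) (.ax 2 5 9 10 0), .t 1 (nat_lit 0) (.ax 2 6 7 8 1), .t 1 (nat_lit 0) (.ax 2 6 7 8 2), .t 1 (nat_lit 0) (.ax 2 6 7 8 4), .t 1 (nat_lit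 0) (.ax 2 6 8 9 2), .t 1 (nat_lit 0) (.ax 2 6 8 9 4), .t 1 (nat_lit 0) (.ax 2 7 8 9 0), .t 1 (nat_lit 0) (.ax 2 7 8 10 0), .t 1 (nat_lit 0) (.ax 2 7 9 10 2), .t 1 (nat_lit 0) (.ax 3 4 5 6 0), .t 1 (nat_lit 0) (.ax 3 4 5 12 0), .t 1 (nat_lit 0) (.ax 3 4 7 16 0), .t 1 (nat_lit 0) (.ax 3 4 7 22 0), .t 1 (nat_lit 0) (.ax 3 5 6 8 0), .t 1 (nat_lit 0) (.ax 3 5 6 8 2), .t 1 (nat_lit 0) (.ax 3 5 8 12 5), .t 1 (nat_lit 0) (.ax 3 7 12 16 0), .t 1 (nat_lit 0) (.ax 3 7 12 22 0), .t 1 (nat_lit 0) (.ax 3 12 14 22 0), .t 1 (nat_lit 0) (.ax 4 5 6 8 0), .t 1 (nat_lit 0) (.ax 4 5 6 8 2), .t 1 (nat_lit 0) (.ax 4 5 7 8 3), .t 1 (nat_lit 0) (.ax 4 5 7 9 3), .t 1 (nat_lit 0) (.ax 4 5 7 10 3)] (by decide +kernel) (by decide +kernel)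
theorem b3 : B 96 128 := Blk.of_chk [.t 1 (nat_lit 0) (.ax 4 5 7 16 3), .t 1 (nat_lit 0) (.ax 4 5 7 22 3), .t 1 (nat_lit 0) (.ax 4 5 8 12 0), .t 1 (nat_lit 0) (.ax 4 5 8 12 7), .t 1 (nat_lit 0) (.ax 4 5 10 12 0), .t 1 (nat_lit 0) (.ax 4 6 7 8 3), .t 1 (nat_lit 0) (.ax 4 6 7 10 3), .t 1 (nat_lit 0) (.ax 4 6 7 16 3), .t 1 (nat_lit 0) (.ax 4 6 7 22 3), .t 1 (nat_lit 0) (.ax 4 7 12 16 0), .t 1 (nat_lit 0) (.ax 4 7 12 22 0), .t 1 (nat_lit 0) (.ax 4 8 10 12 0), .t 1 (nat_lit 0) (.ax 4 12 14 22 0), .t 1 (nat_lit 0) (.ax 5 6 7 10 2), .t 1 (nat_lit 0) (.ax 5 6 7 10 4), .t 1 (nat_lit 0) (.ax 5 6 7 12 4), .t 1 (nat_lit 0) (.ax 5 6 8 10 0), .t 1 (nat_lit 0) (.ax 5 6 8 10 2), .t 1 (nat_lit 0) (.ax 5 6 8 10 5), .t 1 (nat_lit 0) (.ax 5 7 8 9 0), .t 1 (nat_lit 0) (.ax 5 7 8 10 0), .t 1 (nat_lit 0) (.ax 5 7 8 10 5), .t 1 (nat_lit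 0) (.ax 5 7 12 16 0), .t 1 (nat_lit 0) (.ax 5 7 12 22 0), .t 1 (nat_lit 0) (.ax 5 8 10 12 0), .t 1 (nat_lit 0) (.ax 5 8 10 12 2), .t 1 (nat_lit 0) (.ax 5 8 10 12 4), .t 1 (nat_lit 0) (.ax 5 12 14 22 0), .t 1 (nat_lit 0) (.ax 6 7 8 9 0), .t 1 (nat_lit 0) (.ax 6 7 8 10 0), .t 1 (nat_lit 0) (.ax 6 7 8 10 5), .t 1 (nat_lit 0) (.ax 6 7 9 10 0)] (by decide +kernel) (by decide +kernel)
theorem b4 : B 128 160 := Blk.of_chk [.t 1 (nat_lit 0) (.ax 6 7 9 10 5), .t 1 (nat_lit 0) (.ax 6 7 12 16 0), .t 1 (nat_lit 0) (.ax 6 7 12 22 0), .t 1 (nat_lit 0) (.ax 6 8 9 10 3), .t 1 (nat_lit 0) (.ax 6 8 9 10 5), .t 1 (nat_lit 0) (.ax 6 12 14 22 0), .t 1 (nat_lit 0) (.ax 7 8 9 10 0), .t 1 (nat_lit 0) (.ax 7 8 9 10 3), .t 1 (nat_lit 0) (.ax 7 8 9 10 5), .t 1 (nat_lit 0) (.ax 7 8 9 12 2), .t 1 (nat_lit 0) (.ax 7 8 12 16 3), .t 1 (nat_lit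 0) (.ax 7 8 12 22 3), .t 1 (nat_lit 0) (.ax 7 9 12 16 3), .t 1 (nat_lit 0) (.ax 7 9 12 22 3), .t 1 (nat_lit 0) (.ax 7 10 12 16 3), .t 1 (nat_lit 0) (.ax 7 10 12 22 3), .t 1 (nat_lit 0) (.ax 7 11 12 13 3), .t 1 (nat_lit 0) (.ax 7 11 12 16 3), .t 1 (nat_lit 0) (.ax 7 11 12 22 3), .t 1 (nat_lit 0) (.ax 7 12 14 22 0), .t 1 (nat_lit 0) (.ax 8 12 14 22 0), .t 1 (nat_lit 0) (.ax 9 12 14 22 0), .t 1 (nat_lit 0) (.ax 10 11 12 13 2), .t 1 (nat_lit 0) (.ax 10 11 12 13 4), .t 1 (nat_lit 0) (.ax 10 11 12 21 4), .t 1 (nat_lit 0) (.ax 10 11 12 22 4), .t 1 (nat_lit 0) (.ax 10 12 13 22 2), .t 1 (nat_lit 0) (.ax 10 12 13 22 4), .t 1 (nat_lit 0) (.ax 10 12 14 22 0), .t 1 (nat_lit 0) (.ax 10 12 21 22 5), .t 1 (nat_lit 0) (.ax 10 13 21 22 5), .t 1 (nat_lit 0) (.ax 11 12 13 22 2)] (by decide +kernel) (by decide +kernel)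
theorem b5 : B 160 192 := Blk.of_chk [.t 1 (nat_lit 0) (.ax 11 12 13 22 4), .t 1 (nat_lit 0) (.ax 11 12 14 22 0), .t 1 (nat_lit 0) (.ax 11 12 21 22 5), .t 1 (nat_lit 0) (.ax 11 13 21 22 5), .t 1 (nat_lit 0) (.ax 12 13 14 22 3), .t 1 (nat_lit 0) (.ax 12 13 16 22 4), .t 1 (nat_lit 0) (.ax 12 13 21 22 5), .t 1 (nat_lit 0) (.ax 12 14 16 17 0), .t 1 (nat_lit 0) (.ax 12 14 16 18 0), .t 1 (nat_lit 0) (.ax 12 14 16 20 0), .t 1 (nat_lit 0) (.ax 12 14 16 21 0), .t 1 (nat_lit 0) (.ax 12 14 16 22 0), .t 1 (nat_lit 0) (.ax 13 14 16 22 0), .t 1 (nat_lit 0) (.cp 4 2), .t 1 (nat_lit 0) (.fa 2), .t 8 (nat_lit 0x3f003e003c004c004a00440043) (.z (.node 2 4 (.node 0 8 (.free 4 [0,9,10,11,12,13,14,15,16,17,18,19,20,21,22]) (.leaf [2,5,7,8,6])) (.free 1 [1,3,4]))), .t 8 (nat_lit 0xa700a400a300a100a000890087) (.z (.edon 0 7 (.free 2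 [0,1,2,3,4,5,6]) (.edon 0 11 (.leaf [7,8,10,9]) (.edon 14 22 (.free 2 [14,15,16,17,18,19,20]) (.leaf [11,12,13,22,21]))))), .t 1 (nat_lit 0) (.cp 5 3), .t 1 (nat_lit 0) (.cp 5 3), .t 1 (nat_lit 0) (.cp 5 3), .t 8 (nat_lit 0xa700a400a300a100a0004e004d) (.z (.node 2 4 (.edon 0 11 (.edon 5 8 (.leaf [5,7,10]) (.leaf [0,2,6,8,9])) (.edon 14 22 (.free 2 [14,15,16,17,18,19,20]) (.leaf [11,12,13,22,21]))) (.free 1 [1,3,4]))), .t 1 (nat_lit 0) (.cn 2 2), .t 1 (nat_lit 0) (.cp 1 2), .t 5 (nat_lit 0x3a001e00030001) (.z (.node 8 0 (.edon 4 5 (.leaf [4,6,7]) (.leaf [1,3,5,8,2])) (.free 4 [0,9,10,11,12,13,14,15,16,17,18,19,20,21,22]))), .t 5 (nat_lit 0x3b002000030002) (.z (.node 8 0 (.edon 4 6 (.leaf [4,5,7]) (.leaf [1,3,6,8,2])) (.free 4 [0,9,10,11,12,13,14,15,16,17,18,19,20,21,22]))), .t 1 (nat_lit 0) (.cn 1 3), .t 6 (nat_lit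 0xa700a400a300a100a0) (.z (.node 0 7 (.edon 0 11 (.leaf [0,8,9,10]) (.edon 14 22 (.free 2 [14,15,16,17,18,19,20]) (.leaf [11,12,13,22,21]))) (.free 2 [1,2,3,4,5,6,7]))), .t 6 (nat_lit 0xa700a400a300a100a0) (.z (.edon 22 14 (.edon 0 11 (.node 2 8 (.leaf [0,2,9,10]) (.free 2 [1,3,4,5,6,7,8])) (.leaf [11,12,13,22,21])) (.free 2 [14,15,16,17,18,19,20]))), .t 14 (nat_lit 0x9a009900a700a400a300a100a0009f009e009c009b00980097) (.z (.edon 14 22 (.free 2 [14,15,16,17,18,19,20]) (.edon 0 10 (.free 3 [0,1,2,3,4,5,6,7,8,9]) (.leaf [10,11,12,13,22,21])))), .t 8 (nat_lit 0x3d0044004200410040004c004b) (.z (.node 2 4 (.node 0 8 (.free 4 [0,9,10,11,12,13,14,15,16,17,18,19,20,21,22]) (.leaf [2,6,7,8,5])) (.free 1 [1,3,4]))), .t 1 (nat_lit 0) (.fa 3), .t 6 (nat_lit 0xa700a400a300a100a0) (.z (.edon 22 14 (.edon 0 11 (.node 5 10 (.leaf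 [0,2,5,9]) (.free 2 [1,3,4,6,7,8,10])) (.leaf [11,12,13,22,21])) (.free 2 [14,15,16,17,18,19,20])))] (by decide +kernel) (by decide +kernel)
theorem b6 : B 192 224 := Blk.of_chk [.t 8 (nat_lit 0xa700a400a300a100a0006f006e) (.z (.node 2 4 (.edon 0 11 (.node 8 10 (.leaf [0,2,8,9]) (.leaf [5,6,7,10])) (.edon 14 22 (.free 2 [14,15,16,17,18,19,20]) (.leaf [11,12,13,22,21]))) (.free 1 [1,3,4]))), .t 1 (nat_lit 0) (.cn 1 2), .t 13 (nat_lit 0xa700a400a300a100a0007f0076007500730071006f006e) (.z (.node 2 4 (.edon 0 11 (.node 2 8 (.leaf [0,2,9]) (.leaf [5,6,7,10,8])) (.edon 14 22 (.free 2 [14,15,16,17,18,19,20]) (.leaf [11,12,13,22,21]))) (.free 1 [1,3,4]))), .t 13 (nat_lit 0x7d00810080007f007e00a700a400a300a100a000850084) (.z (.node 0 2 (.edon 0 6 (.leaf [0,3,4,5]) (.edon 0 11 (.leaf [6,7,10,9,8]) (.edon 14 22 (.free 2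 [14,15,16,17,18,19,20]) (.leaf [11,12,13,22,21])))) (.free 1 [1,2]))), .t 8 (nat_lit 0xa700a400a300a100a000890088) (.z (.edon 0 7 (.free 2 [0,1,2,3,4,5,6]) (.edon 0 11 (.leaf [7,10,9,8]) (.edon 14 22 (.free 2 [14,15,16,17,18,19,20]) (.leaf [11,12,13,22,21]))))), .r 3 (nat_lit 0x190022), .r 3 (nat_lit 0x1a0023), .r 3 (nat_lit 0x1b0024), .r 3 (nat_lit 0x370029), .r 3 (nat_lit 0x1c00c9), .r 3 (nat_lit 0x38002f), .r 3 (nat_lit 0x3900cb), .r 3 (nat_lit 0x1d00cc), .r 3 (nat_lit 0x4f00c7), .r 3 (nat_lit 0x5000c8), .r 3 (nat_lit 0x5100c7), .r 3 (nat_lit 0x590054), .r 3 (nat_lit 0x5a0055), .r 3 (nat_lit 0x5b00d2), .r 3 (nat_lit 0x6d006b), .r 3 (nat_lit 0x6f0067), .r 3 (nat_lit 0x74005f), .r 3 (nat_lit 0x770061), .r 3 (nat_lit 0x780062), .r 3 (nat_lit 0x7c00d8), .r 3 (nat_lit 0x820068), .r 3 (nat_lit 0x830069), .r 3 (nat_lit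 0x8600db), .r 3 (nat_lit 0x95008c), .r 3 (nat_lit 0x96008e), .r 3 (nat_lit 0x9d0090), .r 3 (nat_lit 0xa20093)] (by decide +kernel) (by decide +kernel)
theorem b7 : B 224 256 := Blk.of_chk [.r 3 (nat_lit 0xad00a5), .r 17 (nat_lit 0xae00ac00ab00aa00a900a80092008f008d008b00da00d7006a00d100ca00c9), .r 4 (nat_lit 0xa600e100e2), .r 20 (nat_lit 0xb000140013001200110010000f000e000d000c000b000a000900080007005e000600050004), .r 6 (nat_lit 0xb100a500e000e30091), .r 14 (nat_lit 0xb200a500e000df00de00dd009400dc00d900d400d300cd00cc), .r 14 (nat_lit 0xb300a500e000df00de00dd009400dc00d900d400d300cd00cc), .r 14 (nat_lit 0xb400a500e000df00de00dd009400dc00d900d400d300cd00cc), .r 27 (nat_lit 0xb500e700e800e600a500e000e300140013001200110010000f000e000d000c0091000b000a000900080007005e000600050004), .r 16 (nat_lit 0xb7002f002e002d002c002b002a00290028002700260025002400230022),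 .r 3 (nat_lit 0xb80004), .r 3 (nat_lit 0xb90005), .r 9 (nat_lit 0xbb00e700e800e600a500e000e30091), .r 22 (nat_lit 0xbc00e700e800e600a500e000df00de00dd009400dc00d900d400d300cd00cc00e3009100c600060003), .r 19 (nat_lit 0xbd00e700e800e600a500e000df00de00dd009400dc00d900d400d300cd00cc00e30091), .r 20 (nat_lit 0xbe00140013001200110010000f000e000d000c000b000a0009000800070066000600050004), .r 3 (nat_lit 0xbf00ef), .r 20 (nat_lit 0xc000e700e800e600a500e000df00de00dd009400dc00d900d400d300cd00cc00e300910060), .r 28 (nat_lit 0xc100e700e800e600a500e000e300140013001200110010000f000e000d000c0091000b000a000900670008000700060005000400ed), .r 28 (nat_lit 0xc300e700e800e600a500e000e300140013001200110010000f000e000d000c0091000b000a000900670008000700c6000600050004), .r 11 (nat_lit 0xc400e700e800e600a500e000e30091006700ed), .r 10 (nat_lit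 0xc500e700e800e600a500e000e3009100ed), .r 3 (nat_lit 0xce00f6), .r 3 (nat_lit 0xd600f6), .r 3 (nat_lit 0x8a00f6), .r 8 (nat_lit 0xf3007100f20048004500f700f8), .r 19 (nat_lit 0xec005d0057005200e900eb007b005800e400640063001500b6005300ea00af00f800f5), .r 4 (nat_lit 0xf300f400f7), .r 7 (nat_lit 0xea0017003200f00016005e), .r 3 (nat_lit 0x3000c2), .r 20 (nat_lit 0xec005600eb005c005800640079006c006500fb00fe00fc00e900f1005300fd00f800f500f9), .r 7 (nat_lit 0xea0015003600e400180066)] (by decide +kernel) (by decide +kernel)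
theorem b8 : B 256 266 := Blk.of_chk [.r 6 (nat_lit 0xba0031003300340035), .r 4 (nat_lit 0x2100fa00fd), .r 17 (nat_lit 0x102001f0101007000d5007a007b00f10049004700ee004600fd010000f700f9), .r 10 (nat_lit 0x6500fb00af00fe0103007a00f100fd00f9), .r 7 (nat_lit 0xfe00af00fc00ff00fd0100), .r 9 (nat_lit 0x105007200e90104010000fd00f800f5), .r 3 (nat_lit 0xcf0106), .r 6 (nat_lit 0xe500e700e800e60106), .r 6 (nat_lit 0xee00fd010000f70107), .r 4 (nat_lit 0xd001080109)] (by decide +kernel) (by decide +kernel)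

end Pool.Agent.GCP.F9_12_14
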