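import Pool.Agent.GCP.F9_9_11Db

set_option autoImplicit false
set_option maxRecDepth 100000

/-! # Blocks F9_9_11B0 (generated) -/

namespace Pool.Agent.GCP.F9_9_11

open Pool.Agent.GCP DB

theorem b0 : B 0 32 := Blk.of_chk [.t 1 (nat_lit 0) (.ax 1 2 3 11 1), .t 1 (nat_lit 0) (.ax 1 2 3 12 1), .t 1 (nat_lit 0) (.ax 1 2 3 13 1), .t 1 (nat_lit 0) (.ax 1 2 3 14 1), .t 1 (nat_lit 0) (.ax 1 2 3 16 1), .t 1 (nat_lit 0) (.ax 1 2 4 11 1), .t 1 (nat_lit 0) (.ax 1 2 7 11 1), .t 1 (nat_lit 0) (.ax 1 2 7 16 1), .t 1 (nat_lit 0) (.ax 1 2 9 19 1), .t 1 (nat_lit 0) (.ax 1 3 11 12 0), .t 1 (nat_lit 0) (.ax 1 3 12 14 0), .t 1 (nat_lit 0) (.ax 1 3 13 14 0), .t 1 (nat_lit 0) (.ax 1 3 15 16 0), .t 1 (nat_lit 0) (.ax 1 4 7 11 0), .t 1 (nat_lit 0) (.ax 1 4 7 16 0), .t 1 (nat_lit 0) (.ax 1 4 7 19 0), .t 1 (nat_lit 0) (.ax 1 7 9 19 0), .t 1 (nat_lit 0)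 (.ax 1 7 12 16 0), .t 1 (nat_lit 0) (.ax 1 7 13 16 0), .t 1 (nat_lit 0) (.ax 1 7 15 16 0), .t 1 (nat_lit 0) (.ax 1 13 15 16 3), .t 1 (nat_lit 0) (.ax 1 13 15 16 6), .t 1 (nat_lit 0) (.ax 2 3 11 12 0), .t 1 (nat_lit 0) (.ax 2 3 12 14 0), .t 1 (nat_lit 0) (.ax 2 3 13 14 0), .t 1 (nat_lit 0) (.ax 2 3 15 16 0), .t 1 (nat_lit 0) (.ax 2 7 12 16 0), .t 1 (nat_lit 0) (.ax 2 7 13 16 0), .t 1 (nat_lit 0) (.ax 2 7 15 16 0), .t 1 (nat_lit 0) (.ax 2 13 15 16 1), .t 1 (nat_lit 0) (.ax 3 4 7 11 0), .t 1 (nat_lit 0) (.ax 3 4 7 12 0)] (by decide +kernel) (by decide +kernel)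
theorem b1 : B 32 64 := Blk.of_chk [.t 1 (nat_lit 0) (.ax 3 4 7 14 0), .t 1 (nat_lit 0) (.ax 3 4 7 16 0), .t 1 (nat_lit 0) (.ax 3 4 7 19 0), .t 1 (nat_lit 0) (.ax 3 7 8 11 0), .t 1 (nat_lit 0) (.ax 3 7 9 12 0), .t 1 (nat_lit 0) (.ax 3 7 9 14 0), .t 1 (nat_lit 0) (.ax 3 7 9 19 0), .t 1 (nat_lit 0) (.ax 3 7 12 16 0), .t 1 (nat_lit 0) (.ax 3 7 13 14 0), .t 1 (nat_lit 0) (.ax 3 7 13 16 0), .t 1 (nat_lit 0) (.ax 3 7 15 16 0), .t 1 (nat_lit 0) (.ax 3 8 10 11 0), .t 1 (nat_lit 0) (.ax 3 8 11 14 4), .t 1 (nat_lit 0) (.ax 3 8 12 14 0), .t 1 (nat_lit 0) (.ax 3 9 11 12 0), .t 1 (nat_lit 0) (.ax 3 9 11 14 0), .t 1 (nat_lit 0) (.ax 3 10 11 14 4), .t 1 (nat_lit 0) (.ax 3 10 12 14 0), .t 1 (nat_lit 0) (.ax 3 11 12 14 0), .t 1 (nat_lit 0) (.ax 3 12 14 16 5), .t 1 (nat_lit 0) (.ax 3 13 15 16 3), .t 1 (nat_lit 0) (.ax 3 13 15 16 6), .t 1 (nat_lit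 0) (.ax 4 5 7 11 3), .t 1 (nat_lit 0) (.ax 4 5 7 16 3), .t 1 (nat_lit 0) (.ax 4 5 7 19 3), .t 1 (nat_lit 0) (.ax 4 5 7 22 3), .t 1 (nat_lit 0) (.ax 4 5 11 22 4), .t 1 (nat_lit 0) (.ax 4 6 7 11 3), .t 1 (nat_lit 0) (.ax 4 6 7 16 3), .t 1 (nat_lit 0) (.ax 4 6 7 19 3), .t 1 (nat_lit 0) (.ax 4 6 7 22 3), .t 1 (nat_lit 0) (.ax 4 6 11 22 4)] (by decide +kernel) (by decide +kernel)
theorem b2 : B 64 96 := Blk.of_chk [.t 1 (nat_lit 0) (.ax 4 7 8 11 0), .t 1 (nat_lit 0) (.ax 4 7 9 12 0), .t 1 (nat_lit 0) (.ax 4 7 9 13 0), .t 1 (nat_lit 0) (.ax 4 7 9 14 0), .t 1 (nat_lit 0) (.ax 4 7 9 15 0), .t 1 (nat_lit 0) (.ax 4 7 9 17 0), .t 1 (nat_lit 0) (.ax 4 7 9 18 0), .t 1 (nat_lit 0) (.ax 4 7 9 19 0), .t 1 (nat_lit 0) (.ax 4 7 9 20 0), .t 1 (nat_lit 0) (.ax 4 7 9 21 0), .t 1 (nat_lit 0) (.ax 4 7 9 22 0), .t 1 (nat_lit 0) (.ax 4 7 15 16 0), .t 1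 (nat_lit 0) (.ax 4 8 10 11 0), .t 1 (nat_lit 0) (.ax 4 8 11 22 4), .t 1 (nat_lit 0) (.ax 4 9 11 12 0), .t 1 (nat_lit 0) (.ax 4 9 11 13 0), .t 1 (nat_lit 0) (.ax 4 9 11 14 0), .t 1 (nat_lit 0) (.ax 4 9 11 15 0), .t 1 (nat_lit 0) (.ax 4 9 11 17 0), .t 1 (nat_lit 0) (.ax 4 9 11 18 0), .t 1 (nat_lit 0) (.ax 4 9 11 19 0), .t 1 (nat_lit 0) (.ax 4 9 11 20 0), .t 1 (nat_lit 0) (.ax 4 9 11 21 0), .t 1 (nat_lit 0) (.ax 4 9 11 22 0), .t 1 (nat_lit 0) (.ax 4 10 11 17 4), .t 1 (nat_lit 0) (.ax 4 10 11 22 4), .t 1 (nat_lit 0) (.ax 4 10 17 22 2), .t 1 (nat_lit 0) (.ax 4 11 12 17 0), .t 1 (nat_lit 0) (.ax 4 11 16 22 0), .t 1 (nat_lit 0) (.ax 4 12 14 22 0), .t 1 (nat_lit 0) (.ax 4 12 17 22 6), .t 1 (nat_lit 0) (.ax 4 13 15 16 3)] (by decide +kernel) (by decide +kernel)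
theorem b3 : B 96 128 := Blk.of_chk [.t 1 (nat_lit 0) (.ax 4 13 15 22 4), .t 1 (nat_lit 0) (.ax 4 15 16 18 4), .t 1 (nat_lit 0) (.ax 4 15 16 22 4), .t 1 (nat_lit 0) (.ax 4 15 18 22 2), .t 1 (nat_lit 0) (.ax 5 7 9 19 0), .t 1 (nat_lit 0) (.ax 5 7 9 22 0), .t 1 (nat_lit 0) (.ax 5 9 11 22 0), .t 1 (nat_lit 0) (.ax 6 7 9 19 0), .t 1 (nat_lit 0) (.ax 6 7 9 22 0), .t 1 (nat_lit 0) (.ax 6 9 11 22 0), .t 1 (nat_lit 0) (.ax 7 8 9 10 3), .t 1 (nat_lit 0) (.ax 7 8 9 12 3), .t 1 (nat_lit 0) (.ax 7 8 9 13 3), .t 1 (nat_lit 0) (.ax 7 8 9 14 3), .t 1 (nat_lit 0) (.ax 7 8 9 19 3), .t 1 (nat_lit 0) (.ax 7 8 9 22 3), .t 1 (nat_lit 0) (.ax 7 8 10 11 0), .t 1 (nat_lit 0) (.ax 7 8 11 16 4), .t 1 (nat_lit 0) (.ax 7 9 11 12 0), .t 1 (nat_lit 0) (.ax 7 9 11 13 0), .t 1 (nat_lit 0) (.ax 7 9 11 14 0), .t 1 (nat_lit 0) (.ax 7 9 11 15 0), .t 1 (nat_lit 0)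 (.ax 7 9 11 17 0), .t 1 (nat_lit 0) (.ax 7 9 11 18 0), .t 1 (nat_lit 0) (.ax 7 9 11 19 0), .t 1 (nat_lit 0) (.ax 7 9 11 20 0), .t 1 (nat_lit 0) (.ax 7 9 11 21 0), .t 1 (nat_lit 0) (.ax 7 9 11 22 0), .t 1 (nat_lit 0) (.ax 7 9 12 16 0), .t 1 (nat_lit 0) (.ax 7 10 11 16 4), .t 1 (nat_lit 0) (.ax 7 11 16 17 0), .t 1 (nat_lit 0) (.ax 7 11 16 18 0)] (by decide +kernel) (by decide +kernel)
theorem b4 : B 128 160 := Blk.of_chk [.t 1 (nat_lit 0) (.ax 7 11 16 20 0), .t 1 (nat_lit 0) (.ax 7 11 16 21 0), .t 1 (nat_lit 0) (.ax 7 11 16 22 0), .t 1 (nat_lit 0) (.ax 7 12 14 16 0), .t 1 (nat_lit 0) (.ax 7 12 15 16 0), .t 1 (nat_lit 0) (.ax 7 12 15 16 1), .t 1 (nat_lit 0) (.ax 7 13 14 15 5), .t 1 (nat_lit 0) (.ax 7 13 14 16 3), .t 1 (nat_lit 0) (.ax 7 13 14 16 5), .t 1 (nat_lit 0) (.ax 7 13 15 16 3), .t 1 (nat_lit 0) (.ax 7 13 15 16 6), .t 1 (nat_lit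 0) (.ax 7 14 15 16 0), .t 1 (nat_lit 0) (.ax 8 9 10 12 2), .t 1 (nat_lit 0) (.ax 8 9 10 12 4), .t 1 (nat_lit 0) (.ax 8 9 10 14 2), .t 1 (nat_lit 0) (.ax 8 9 10 14 4), .t 1 (nat_lit 0) (.ax 8 9 11 12 0), .t 1 (nat_lit 0) (.ax 8 9 11 14 0), .t 1 (nat_lit 0) (.ax 8 9 11 22 0), .t 1 (nat_lit 0) (.ax 8 9 12 14 0), .t 1 (nat_lit 0) (.ax 8 9 12 14 5), .t 1 (nat_lit 0) (.ax 8 10 11 17 4), .t 1 (nat_lit 0) (.ax 8 10 12 14 0), .t 1 (nat_lit 0) (.ax 8 10 12 14 5), .t 1 (nat_lit 0) (.ax 9 10 11 12 3), .t 1 (nat_lit 0) (.ax 9 10 11 14 3), .t 1 (nat_lit 0) (.ax 9 10 11 17 3), .t 1 (nat_lit 0) (.ax 9 10 11 22 3), .t 1 (nat_lit 0) (.ax 9 10 12 14 5), .t 1 (nat_lit 0) (.ax 9 10 12 15 7), .t 1 (nat_lit 0) (.ax 9 10 12 19 0), .t 1 (nat_lit 0) (.ax 9 10 13 19 0)] (by decide +kernel) (by decide +kernel)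
theorem b5 : B 160 192 := Blk.of_chk [.t 1 (nat_lit 0) (.ax 9 10 14 19 7), .t 1 (nat_lit 0) (.ax 9 10 14 22 5), .t 1 (nat_lit 0) (.ax 9 10 15 17 4), .t 1 (nat_lit 0) (.ax 9 10 15 19 2), .t 1 (nat_lit 0) (.ax 9 10 15 19 4), .t 1 (nat_lit 0) (.ax 9 10 15 19 6), .t 1 (nat_lit 0) (.ax 9 10 15 22 4), .t 1 (nat_lit 0) (.ax 9 10 17 19 0), .t 1 (nat_lit 0) (.ax 9 10 17 19 2), .t 1 (nat_lit 0) (.ax 9 11 16 21 0), .t 1 (nat_lit 0) (.ax 9 11 17 19 0), .t 1 (nat_lit 0) (.ax 9 12 15 16 4), .t 1 (nat_lit 0) (.ax 9 13 14 19 1), .t 1 (nat_lit 0) (.ax 9 13 15 19 0), .t 1 (nat_lit 0) (.ax 9 13 16 19 4), .t 1 (nat_lit 0) (.ax 9 14 15 19 0), .t 1 (nat_lit 0) (.ax 9 14 17 19 0), .t 1 (nat_lit 0) (.ax 9 15 17 19 1), .t 1 (nat_lit 0) (.ax 9 15 18 19 0), .t 1 (nat_lit 0) (.ax 9 15 18 19 1), .t 1 (nat_lit 0) (.ax 9 16 19 21 0), .t 1 (nat_lit 0) (.ax 10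 11 16 17 0), .t 1 (nat_lit 0) (.ax 10 12 14 17 7), .t 1 (nat_lit 0) (.ax 10 12 16 19 4), .t 1 (nat_lit 0) (.ax 10 12 16 19 6), .t 1 (nat_lit 0) (.ax 10 13 15 16 3), .t 1 (nat_lit 0) (.ax 10 13 15 19 0), .t 1 (nat_lit 0) (.ax 10 13 15 19 4), .t 1 (nat_lit 0) (.ax 10 13 16 19 4), .t 1 (nat_lit 0) (.ax 10 13 17 19 0), .t 1 (nat_lit 0) (.ax 10 13 17 19 5), .t 1 (nat_lit 0) (.ax 10 14 17 19 2)] (by decide +kernel) (by decide +kernel)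
theorem b6 : B 192 224 := Blk.of_chk [.t 1 (nat_lit 0) (.ax 10 14 17 22 0), .t 1 (nat_lit 0) (.ax 10 14 17 22 2), .t 1 (nat_lit 0) (.ax 10 15 17 19 5), .t 1 (nat_lit 0) (.ax 10 15 19 22 4), .t 1 (nat_lit 0) (.ax 10 17 18 19 4), .t 1 (nat_lit 0) (.ax 10 17 20 22 4), .t 1 (nat_lit 0) (.ax 10 17 21 22 5), .t 1 (nat_lit 0) (.ax 11 12 13 16 2), .t 1 (nat_lit 0) (.ax 11 12 14 17 5), .t 1 (nat_lit 0) (.ax 11 12 15 16 2), .t 1 (nat_lit 0) (.ax 11 12 16 17 3), .t 1 (nat_lit 0) (.ax 11 12 16 18 3), .t 1 (nat_lit 0) (.ax 11 12 16 20 3), .t 1 (nat_lit 0) (.ax 11 12 16 21 3), .t 1 (nat_lit 0) (.ax 11 12 16 22 3), .t 1 (nat_lit 0) (.ax 11 12 17 18 7), .t 1 (nat_lit 0) (.ax 11 12 17 19 7), .t 1 (nat_lit 0) (.ax 11 13 16 17 3), .t 1 (nat_lit 0) (.ax 11 13 16 18 3), .t 1 (nat_lit 0) (.ax 11 13 16 20 3), .t 1 (nat_lit 0) (.ax 11 13 16 21 3), .t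 1 (nat_lit 0) (.ax 11 13 16 22 3), .t 1 (nat_lit 0) (.ax 11 14 16 17 3), .t 1 (nat_lit 0) (.ax 11 14 16 18 3), .t 1 (nat_lit 0) (.ax 11 14 16 20 3), .t 1 (nat_lit 0) (.ax 11 14 16 21 3), .t 1 (nat_lit 0) (.ax 11 14 16 22 3), .t 1 (nat_lit 0) (.ax 11 15 16 17 3), .t 1 (nat_lit 0) (.ax 11 15 16 18 3), .t 1 (nat_lit 0) (.ax 11 15 16 20 3), .t 1 (nat_lit 0) (.ax 11 15 16 21 3), .t 1 (nat_lit 0) (.ax 11 15 16 22 3)] (by decide +kernel) (by decide +kernel)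
theorem b7 : B 224 256 := Blk.of_chk [.t 1 (nat_lit 0) (.ax 11 17 18 19 4), .t 1 (nat_lit 0) (.ax 12 14 17 22 4), .t 1 (nat_lit 0) (.ax 13 14 15 16 0), .t 1 (nat_lit 0) (.ax 13 14 15 16 1), .t 1 (nat_lit 0) (.ax 13 14 15 16 3), .t 1 (nat_lit 0) (.ax 13 14 15 16 4), .t 1 (nat_lit 0) (.ax 13 14 15 16 5), .t 1 (nat_lit 0) (.ax 13 14 16 17 4), .t 1 (nat_lit 0) (.ax 13 14 16 19 4), .t 1 (nat_lit 0) (.ax 13 14 16 21 4), .t 1 (nat_lit 0) (.ax 13 14 16 22 4), .t 1 (nat_lit 0) (.ax 13 14 17 22 4), .t 1 (nat_lit 0) (.ax 13 14 19 22 4), .t 1 (nat_lit 0) (.ax 13 14 21 22 5), .t 1 (nat_lit 0) (.ax 13 15 16 17 1), .t 1 (nat_lit 0) (.ax 13 15 16 17 4), .t 1 (nat_lit 0) (.ax 13 15 16 18 1), .t 1 (nat_lit 0) (.ax 13 15 16 18 4), .t 1 (nat_lit 0) (.ax 13 15 17 19 1), .t 1 (nat_lit 0) (.ax 13 15 17 19 4), .t 1 (nat_lit 0) (.ax 13 15 18 19 4), .t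 1 (nat_lit 0) (.ax 13 15 19 22 4), .t 1 (nat_lit 0) (.ax 13 16 17 18 0), .t 1 (nat_lit 0) (.ax 13 17 19 20 4), .t 1 (nat_lit 0) (.ax 13 17 19 21 4), .t 1 (nat_lit 0) (.ax 13 17 19 22 4), .t 1 (nat_lit 0) (.ax 14 15 16 17 2), .t 1 (nat_lit 0) (.ax 14 15 16 17 4), .t 1 (nat_lit 0) (.ax 14 15 16 18 2), .t 1 (nat_lit 0) (.ax 14 15 16 18 4), .t 1 (nat_lit 0) (.ax 14 15 16 19 4), .t 1 (nat_lit 0) (.ax 14 15 16 22 4)] (by decide +kernel) (by decide +kernel)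
theorem b8 : B 256 288 := Blk.of_chk [.t 1 (nat_lit 0) (.ax 14 15 17 18 0), .t 1 (nat_lit 0) (.ax 14 15 17 18 2), .t 1 (nat_lit 0) (.ax 14 15 17 18 4), .t 1 (nat_lit 0) (.ax 14 15 17 18 5), .t 1 (nat_lit 0) (.ax 14 15 17 19 0), .t 1 (nat_lit 0) (.ax 14 15 17 19 2), .t 1 (nat_lit 0) (.ax 14 15 17 20 2), .t 1 (nat_lit 0) (.ax 14 15 17 21 2), .t 1 (nat_lit 0) (.ax 14 15 17 22 2), .t 1 (nat_lit 0) (.ax 14 15 18 19 2), .t 1 (nat_lit 0) (.ax 14 15 18 19 4), .t 1 (nat_lit 0) (.ax 14 16 17 18 0), .t 1 (nat_lit 0) (.ax 14 16 19 21 0), .t 1 (nat_lit 0) (.ax 14 17 18 19 0), .t 1 (nat_lit 0) (.ax 14 17 18 19 1), .t 1 (nat_lit 0) (.ax 14 17 18 19 4), .t 1 (nat_lit 0) (.ax 14 17 18 19 5), .t 1 (nat_lit 0) (.ax 14 17 18 20 0), .t 1 (nat_lit 0) (.ax 14 17 18 20 1), .t 1 (nat_lit 0) (.ax 14 17 19 20 4), .t 1 (nat_lit 0) (.ax 14 17 19 22 6), .t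 1 (nat_lit 0) (.ax 14 17 20 22 4), .t 1 (nat_lit 0) (.ax 14 18 19 20 4), .t 1 (nat_lit 0) (.ax 14 18 19 22 4), .t 1 (nat_lit 0) (.ax 14 18 20 22 4), .t 1 (nat_lit 0) (.ax 14 18 21 22 5), .t 1 (nat_lit 0) (.ax 14 20 21 22 5), .t 1 (nat_lit 0) (.ax 15 16 17 18 0), .t 1 (nat_lit 0) (.ax 15 16 19 21 0), .t 1 (nat_lit 0) (.ax 15 17 18 19 1), .t 1 (nat_lit 0) (.ax 15 17 18 19 4), .t 1 (nat_lit 0) (.ax 15 17 18 20 1)] (by decide +kernel) (by decide +kernel)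
theorem b9 : B 288 320 := Blk.of_chk [.t 1 (nat_lit 0) (.ax 15 17 19 20 4), .t 1 (nat_lit 0) (.ax 15 17 19 21 4), .t 1 (nat_lit 0) (.ax 15 17 19 22 4), .t 1 (nat_lit 0) (.ax 15 17 20 22 4), .t 1 (nat_lit 0) (.ax 15 17 21 22 5), .t 1 (nat_lit 0) (.ax 15 18 19 20 4), .t 1 (nat_lit 0) (.ax 15 18 19 22 4), .t 1 (nat_lit 0) (.ax 15 18 20 22 4), .t 1 (nat_lit 0) (.ax 15 18 21 22 5), .t 1 (nat_lit 0) (.ax 15 20 21 22 5), .t 1 (nat_lit 0) (.ax 16 17 19 21 3), .t 1 (nat_lit 0) (.ax 16 18 19 21 3), .t 1 (nat_lit 0) (.ax 17 20 21 22 5), .t 1 (nat_lit 0) (.ax 18 20 21 22 5), .t 1 (nat_lit 0) (.fa 4), .t 1 (nat_lit 0) (.cp 3 2), .t 1 (nat_lit 0) (.cp 2 3), .t 1 (nat_lit 0) (.fa 4), .t 1 (nat_lit 0) (.fa 6), .t 5 (nat_lit 0x12d012a01250124) (.z (.edon 0 15 (.free 4 [0,1,2,3,4,5,6,7,8,9,10,11,12,13,14]) (.node 17 19 (.leaf [15,17,20,22,21]) (.leaf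 [16,18,19])))), .t 1 (nat_lit 0) (.fa 6), .t 5 (nat_lit 0x12d012a01250124) (.z (.edon 0 15 (.free 4 [0,1,2,3,4,5,6,7,8,9,10,11,12,13,14]) (.node 15 19 (.leaf [15,17,20,22,21]) (.leaf [16,18,19])))), .t 1 (nat_lit 0) (.cn 4 3), .t 1 (nat_lit 0) (.cn 4 3), .t 1 (nat_lit 0) (.cp 8 3), .t 1 (nat_lit 0) (.cp 2 3), .t 5 (nat_lit 0x17000a00020001) (.z (.edon 0 16 (.node 0 12 (.leaf [0,13,14,15]) (.edon 4 11 (.free 2 [4,5,6,7,8,9,10]) (.leaf [1,3,11,12,2]))) (.free 2 [16,17,18,19,20,21,22]))), .t 7 (nat_lit 0x17000a0002000100e700e5) (.z (.edon 11 4 (.node 0 12 (.node 0 16 (.free 2 [0,17,18,19,20,21,22]) (.leaf [13,16,15,14])) (.leaf [1,3,11,12,2])) (.free 2 [4,5,6,7,8,9,10]))), .t 1 (nat_lit 0) (.cp 3 3), .t 7 (nat_lit 0x17000a0002000100e600e4) (.z (.edon 11 4 (.node 0 12 (.node 0 16 (.free 2 [0,17,18,19,20,21,22]) (.leaf [13,15,16,14]))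 (.leaf [1,3,11,12,2])) (.free 2 [4,5,6,7,8,9,10]))), .t 5 (nat_lit 0x17000a00020001) (.z (.edon 11 4 (.node 0 12 (.node 14 22 (.leaf [0,13,14,21]) (.free 2 [15,16,17,18,19,20,22])) (.leaf [1,3,11,12,2])) (.free 2 [4,5,6,7,8,9,10]))), .t 7 (nat_lit 0x17000a0002000100fe00fd) (.z (.edon 11 4 (.node 0 12 (.edon 14 19 (.leaf [14,15,16,18]) (.free 2 [0,13,17,19,20,21,22])) (.leaf [1,3,11,12,2])) (.free 2 [4,5,6,7,8,9,10])))] (by decide +kernel) (by decide +kernel)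
theorem b10 : B 320 352 := Blk.of_chk [.t 1 (nat_lit 0) (.cn 3 3), .t 10 (nat_lit 0x120011f011e0019000c0004000301260121) (.z (.edon 11 4 (.node 13 16 (.node 0 14 (.node 0 20 (.leaf [0,21,22]) (.leaf [15,18,19,20,17])) (.leaf [1,3,13,14,2])) (.leaf [11,12,16])) (.free 2 [4,5,6,7,8,9,10]))), .t 10 (nat_lit 0x120011f011e0018000b0004000201260121) (.z (.edon 11 4 (.node 12 16 (.node 0 14 (.node 0 20 (.leaf [0,21,22]) (.leaf [15,18,19,20,17])) (.leaf [1,3,12,14,2])) (.leaf [11,13,16])) (.free 2 [4,5,6,7,8,9,10]))), .t 1 (nat_lit 0) (.cp 3 3), .t 10 (nat_lit 0x120011f011e0018000b0004000201260121) (.z (.edon 11 4 (.node 15 16 (.node 0 14 (.node 0 20 (.leaf [0,21,22]) (.leaf [15,18,19,20,17])) (.leaf [1,3,12,14,2])) (.leaf [11,13,16])) (.free 2 [4,5,6,7,8,9,10]))), .t 10 (nat_lit 0x10501040101008e008d0110010f010b010a) (.z (.node 0 7 (.edon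 0 20 (.edon 11 12 (.node 15 16 (.leaf [14,15,18,19,17]) (.leaf [11,13,16])) (.leaf [0,8,9,10,12])) (.leaf [20,21,22])) (.free 2 [1,2,3,4,5,6,7]))), .t 4 (nat_lit 0x11b008e008d) (.z (.node 0 7 (.node 10 17 (.edon 0 14 (.leaf [0,8,9,10,12]) (.leaf [14,20,22,21])) (.free 2 [11,13,15,16,17,18,19])) (.free 2 [1,2,3,4,5,6,7]))), .t 13 (nat_lit 0x120011f011e01260121009d00980097009500940090008f) (.z (.node 0 7 (.node 0 20 (.leaf [0,21,22]) (.node 10 17 (.leaf [8,9,10,14,12]) (.node 15 16 (.leaf [15,18,19,20,17]) (.leaf [11,13,16])))) (.free 2 [1,2,3,4,5,6,7]))), .t 7 (nat_lit 0x17000a0002000100f200f1) (.z (.edon 11 4 (.node 0 12 (.edon 15 19 (.leaf [13,16,18,15]) (.free 2 [0,14,17,19,20,21,22])) (.leaf [1,3,11,12,2])) (.free 2 [4,5,6,7,8,9,10]))), .t 1 (nat_lit 0) (.fa 5), .t 10 (nat_lit 0x1130110010f0017000a0002000101170114) (.z (.edon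 11 4 (.node 0 12 (.node 0 20 (.leaf [0,21,22]) (.node 14 16 (.leaf [14,18,19,20,17]) (.leaf [13,15,16]))) (.leaf [1,3,11,12,2])) (.free 2 [4,5,6,7,8,9,10]))), .t 9 (nat_lit 0x17000a00020001012e012a01290128) (.z (.edon 11 4 (.node 0 12 (.edon 0 15 (.leaf [0,13,14]) (.node 18 19 (.leaf [15,18,20,22,21]) (.leaf [16,17,19]))) (.leaf [1,3,11,12,2])) (.free 2 [4,5,6,7,8,9,10]))), .t 7 (nat_lit 0x17000a0002000101030102) (.z (.edon 0 20 (.node 0 12 (.node 17 19 (.leaf [0,14,15,17,18]) (.leaf [13,16,19])) (.edon 4 11 (.free 2 [4,5,6,7,8,9,10]) (.leaf [1,3,11,12,2]))) (.free 1 [20,21,22]))), .t 7 (nat_lit 0x17000a0002000100f000ef) (.z (.edon 11 4 (.node 0 12 (.node 14 17 (.free 2 [0,14,18,19,20,21,22]) (.leaf [13,16,17,15])) (.leaf [1,3,11,12,2])) (.free 2 [4,5,6,7,8,9,10]))), .t 1 (nat_lit 0) (.fa 6), .t 5 (nat_lit 0x12e011b011a0119) (.z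 (.node 0 7 (.node 9 19 (.edon 0 14 (.leaf [0,8,9,12]) (.leaf [14,18,20,22,21])) (.free 2 [10,11,13,15,16,17,19])) (.free 2 [1,2,3,4,5,6,7]))), .t 10 (nat_lit 0x1120111010e0017000a0002000101170114) (.z (.edon 11 4 (.node 0 12 (.node 0 20 (.leaf [0,21,22]) (.node 14 16 (.leaf [14,17,19,20,18]) (.leaf [13,15,16]))) (.leaf [1,3,11,12,2])) (.free 2 [4,5,6,7,8,9,10]))), .t 1 (nat_lit 0) (.cn 4 3), .t 1 (nat_lit 0) (.cn 4 3), .t 1 (nat_lit 0) (.cp 4 3), .t 1 (nat_lit 0) (.fa 5), .t 5 (nat_lit 0x12e011b011a0119) (.z (.node 0 7 (.node 9 19 (.edon 0 14 (.leaf [0,8,9,13]) (.leaf [14,18,20,22,21])) (.free 2 [10,11,12,15,16,17,19])) (.free 2 [1,2,3,4,5,6,7]))), .t 7 (nat_lit 0x17000a0002000100fc00fb) (.z (.edon 11 4 (.node 0 12 (.node 13 17 (.free 2 [0,13,18,19,20,21,22]) (.leaf [14,15,16,17])) (.leaf [1,3,11,12,2])) (.free 2 [4,5,6,7,8,9,10]))),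 .r 3 (nat_lit 0x7000e), .r 3 (nat_lit 0x8000f), .r 3 (nat_lit 0x110010), .r 3 (nat_lit 0x9015a), .r 3 (nat_lit 0x12000f), .r 3 (nat_lit 0x13000f), .r 3 (nat_lit 0x14000f), .r 3 (nat_lit 0x1a0005), .r 3 (nat_lit 0x1b0159)] (by decide +kernel) (by decide +kernel)
theorem b11 : B 352 384 := Blk.of_chk [.r 3 (nat_lit 0x1c0159), .r 3 (nat_lit 0x1d0159), .r 3 (nat_lit 0x24001f), .r 3 (nat_lit 0x250020), .r 3 (nat_lit 0x260021), .r 3 (nat_lit 0x270023), .r 3 (nat_lit 0x280022), .r 3 (nat_lit 0x290021), .r 3 (nat_lit 0x2a0022), .r 3 (nat_lit 0x2b0022), .r 3 (nat_lit 0x2f0164), .r 3 (nat_lit 0x300165), .r 3 (nat_lit 0x33016c), .r 3 (nat_lit 0x4f0042), .r 3 (nat_lit 0x500043), .r 3 (nat_lit 0x510044), .r 3 (nat_lit 0x520045), .r 3 (nat_lit 0x530046), .r 3 (nat_lit 0x540047), .r 3 (nat_lit 0x550048), .r 3 (nat_lit 0x560049), .r 3 (nat_lit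 0x57004a), .r 3 (nat_lit 0x58004b), .r 3 (nat_lit 0x5c0172), .r 3 (nat_lit 0x5d0177), .r 3 (nat_lit 0x650039), .r 3 (nat_lit 0x66003a), .r 3 (nat_lit 0x67017b), .r 3 (nat_lit 0x68003e), .r 3 (nat_lit 0x69003f), .r 3 (nat_lit 0x6a017e), .r 3 (nat_lit 0x7f0077)] (by decide +kernel) (by decide +kernel)
theorem b12 : B 384 416 := Blk.of_chk [.r 3 (nat_lit 0x800078), .r 3 (nat_lit 0x81007a), .r 3 (nat_lit 0x82007b), .r 3 (nat_lit 0x83007c), .r 3 (nat_lit 0x91006c), .r 3 (nat_lit 0x92006e), .r 3 (nat_lit 0x930070), .r 3 (nat_lit 0xb500aa), .r 3 (nat_lit 0xb6009b), .r 3 (nat_lit 0xe800d7), .r 3 (nat_lit 0xea00da), .r 3 (nat_lit 0xeb00db), .r 3 (nat_lit 0xf000dc), .r 3 (nat_lit 0xf700d3), .r 3 (nat_lit 0xfc00dc), .r 3 (nat_lit 0xfe00dd), .r 3 (nat_lit 0x10000e0), .r 3 (nat_lit 0x10c00d8), .r 3 (nat_lit 0x10d00da), .r 3 (nat_lit 0x11c00dd),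 .r 3 (nat_lit 0x11d00df), .r 4 (nat_lit 0x96009b012f), .r 17 (nat_lit 0x130007c007b007a0079007800770076007500740073003c0037001f0158000e), .r 3 (nat_lit 0x1630197), .r 3 (nat_lit 0x410197), .r 4 (nat_lit 0x71012f0197), .r 3 (nat_lit 0x720197), .r 4 (nat_lit 0x2c012f0198), .r 4 (nat_lit 0x2d01860198), .r 4 (nat_lit 0x4d012f0199), .r 4 (nat_lit 0x4e01870199), .r 3 (nat_lit 0x7e019a)] (by decide +kernel) (by decide +kernel)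
theorem b13 : B 416 448 := Blk.of_chk [.r 4 (nat_lit 0x31009a019c), .r 4 (nat_lit 0x59009b019e), .r 4 (nat_lit 0x5a009c019e), .r 13 (nat_lit 0x13101770176017501740173017201710170016f016e0006), .r 4 (nat_lit 0x40017f01a4), .r 3 (nat_lit 0x134012b), .r 3 (nat_lit 0x1360195), .r 8 (nat_lit 0x1390179017701a3004b019f01a5), .r 13 (nat_lit 0x13a01770176017501740173017201710170016f016e0006), .r 4 (nat_lit 0x3b017c01a9), .r 9 (nat_lit 0x13b016e016b019e019901a401a90006), .r 19 (nat_lit 0x13c01770176017501740173017201710170016f016e016b019e019901a401a9000601ab), .r 3 (nat_lit 0x18f01ac), .r 3 (nat_lit 0x19001ac), .r 3 (nat_lit 0xff01ac), .r 3 (nat_lit 0x19101ac), .r 12 (nat_lit 0x13d01840183018201810180003d003800220159000f), .r 18 (nat_lit 0x13e01770176017501740173017201710170016f016e016b019e019901a401a90006), .r 20 (nat_lit 0x13f00db01b001770176017501740173017201710170016f016e016b019e019901a401a90006),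 .r 22 (nat_lit 0x140017701930176017501af017400dd0173017201ac01710170016f016e016b019e019901a401a90006), .r 4 (nat_lit 0x14101a0019b), .r 22 (nat_lit 0x14200d6017700d5017600d40175017400d3017300d2017201710170016f016e019e019901a401a90006), .r 22 (nat_lit 0x14300cf017700ce017600cd0175017400cc017300cb017201710170016f016e019e019901a401a90006), .r 12 (nat_lit 0x14401840183018201810180003d003800220159000f), .r 23 (nat_lit 0x14500e0017700df017600de0175017400dd017300dc017201ac01710170016f016e019e019901a401a90006), .r 9 (nat_lit 0x14600dd01ae00dc01ac00990185006b), .r 6 (nat_lit 0x1470189009b0196006b), .r 9 (nat_lit 0x14800de00dd00dc0189009b0196006b), .r 21 (nat_lit 0x149017701950176017501af017400d30173017201710170016f016e016b019e019901a401a90006), .r 3 (nat_lit 0x14a01ac), .r 22 (nat_lit 0x14b0177017600d90175017400d8017300d7017201ac01710170016f016e016b019e019901a401a90006),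 .r 19 (nat_lit 0x14c0177012c0176017501740173017201710170016f016e016b019e019901a401a90006)] (by decide +kernel) (by decide +kernel)
theorem b14 : B 448 480 := Blk.of_chk [.r 10 (nat_lit 0x14d01ad016e016b019e019901a401a90006), .r 21 (nat_lit 0x14e0177017601750174017300d700d201ad017201710170016f016e016b019e019901a401a90006), .r 5 (nat_lit 0x1500188006f006c), .r 22 (nat_lit 0x1510177017600d90175017400d8017300d7017201ac01710170016f016e016b019e019901a401a90006), .r 10 (nat_lit 0x1540188006f017d017a00480166015b015a), .r 3 (nat_lit 0x15501ac), .r 5 (nat_lit 0x1560188006f006d), .r 21 (nat_lit 0x1570177017601750174017300dc00d2017201ac01710170016f016e016b019e019901a401a90006), .r 3 (nat_lit 0x1b300ee), .r 3 (nat_lit 0x13301a7), .r 3 (nat_lit 0x1ca01a6), .r 5 (nat_lit 0x1be00ba00bd00bc), .r 5 (nat_lit 0x13700a000a60132), .r 7 (nat_lit 0xb201cd00a900be01cc00f3),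 .r 4 (nat_lit 0x1bd00f50133), .r 12 (nat_lit 0x1b6001e0016001500360035015f000d0133012101b2), .r 11 (nat_lit 0x1b601690161015d01b1016a01d00133012101b2), .r 8 (nat_lit 0x1b1008a00890088008701b201ab), .r 16 (nat_lit 0x1b700340085008401670160015c01d101b8008c01330121016801d201ac), .r 13 (nat_lit 0x1bb01bc00b700a100c000b10133012100c700a300a80132), .r 8 (nat_lit 0x1a8005e00e2005f00c9017801aa), .r 11 (nat_lit 0x1ba00d100d001d501d4005b0133012100ab01a2), .r 62 (nat_lit 0x1bc00b700a200c600c200c101d600e100c500bf00ab00a801ce00a301cd00b300a7016d0032002e00c300a500a400c4009e01b900ca00bb00ac008601cc007d006100c801b50060006301d00116008b008a004c016a0162015e016801bf01d301d201b2010a013300f601cf012101cb013201a1019d00e001ae), .r 8 (nat_lit 0x11501b301b4018c018b00e90118), .r 14 (nat_lit 0x620064004c01d701d301d80127010a0133012101cb00dd01ae), .r 3 (nat_lit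 0x13501d9), .r 3 (nat_lit 0x18e01da), .r 3 (nat_lit 0x19201da), .r 3 (nat_lit 0x19401da), .r 4 (nat_lit 0x1c0012601d9), .r 3 (nat_lit 0x13301de), .r 3 (nat_lit 0x14f01de)] (by decide +kernel) (by decide +kernel)
theorem b15 : B 480 512 := Blk.of_chk [.r 3 (nat_lit 0x12101df), .r 4 (nat_lit 0x122012b01df), .r 3 (nat_lit 0x12301df), .r 4 (nat_lit 0x10601ad01df), .r 6 (nat_lit 0x1c101e401dd01d901df), .r 3 (nat_lit 0xab01e0), .r 4 (nat_lit 0x10701ad01e1), .r 4 (nat_lit 0x10801ad01e2), .r 4 (nat_lit 0x10901ad01e3), .r 3 (nat_lit 0xf801e5), .r 4 (nat_lit 0xf9012b01e5), .r 3 (nat_lit 0xfa01e5), .r 20 (nat_lit 0x1c3015300a000a500a400bb00f401c200ec01c9011901e6013201df01e901e801e701e401dc), .r 6 (nat_lit 0x1c3015300a601e60132), .r 10 (nat_lit 0xb9009f01c601c700af01ee00a601e60132), .r 11 (nat_lit 0x1c8018d018a00e301ea01db01e501eb01ec01ac),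 .r 3 (nat_lit 0x1b201f0), .r 4 (nat_lit 0x1c401e401f0), .r 3 (nat_lit 0x11901f2), .r 4 (nat_lit 0x1c901e901f3), .r 4 (nat_lit 0xec01e901f4), .r 3 (nat_lit 0xed01f4), .r 8 (nat_lit 0x1c201e901e801e701e401dc01f5), .r 4 (nat_lit 0xf401df01f7), .r 10 (nat_lit 0x1b5008b008a01cc01ef01ed01f101f801f2), .r 5 (nat_lit 0xad015201e601f6), .r 5 (nat_lit 0x1fa01f900a60132), .r 7 (nat_lit 0x1c500b000ae01fb01af01f8), .r 4 (nat_lit 0xb401de01fc), .r 4 (nat_lit 0xa6013201fd), .r 5 (nat_lit 0x1cd01fc01e601fd), .r 6 (nat_lit 0x13701fc01fe01e601fd)] (by decide +kernel) (by decide +kernel)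
theorem b16 : B 512 521 := Blk.of_chk [.r 6 (nat_lit 0x13801fc01e601fd01fe), .r 5 (nat_lit 0x1cc01f101f801ff), .r 3 (nat_lit 0xaf0200), .r 4 (nat_lit 0x9f01fe0201), .r 3 (nat_lit 0xb80204), .r 4 (nat_lit 0x1c602030205), .r 4 (nat_lit 0x8a01f10206), .r 4 (nat_lit 0x8b02070206), .r 5 (nat_lit 0x1b5020202060208)] (by decide +kernel) (by decide +kernel)

end Pool.Agent.GCP.F9_9_11
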