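import Pool.Agent.GCP.F9_9_12Db

set_option autoImplicit false
set_option maxRecDepth 100000

/-! # Blocks F9_9_12B0 (generated) -/

namespace Pool.Agent.GCP.F9_9_12

open Pool.Agent.GCP DB

theorem b0 : B 0 32 := Blk.of_chk [.t 1 (nat_lit 0) (.ax 1 2 3 6 1), .t 1 (nat_lit 0) (.ax 1 2 3 10 1), .t 1 (nat_lit 0) (.ax 1 2 3 12 1), .t 1 (nat_lit 0) (.ax 1 2 3 13 1), .t 1 (nat_lit 0) (.ax 1 2 3 14 1), .t 1 (nat_lit 0) (.ax 1 2 3 15 1), .t 1 (nat_lit 0) (.ax 1 2 4 5 1), .t 1 (nat_lit 0) (.ax 1 2 4 6 1), .t 1 (nat_lit 0) (.ax 1 2 4 8 1), .t 1 (nat_lit 0) (.ax 1 2 4 9 1), .t 1 (nat_lit 0) (.ax 1 2 4 10 1), .t 1 (nat_lit 0) (.ax 1 2 4 11 1), .t 1 (nat_lit 0) (.ax 1 2 4 12 1), .t 1 (nat_lit 0) (.ax 1 2 4 13 1), .t 1 (nat_lit 0) (.ax 1 2 4 14 1), .t 1 (nat_lit 0) (.ax 1 2 4 15 1), .t 1 (nat_lit 0) (.ax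 1 2 4 16 1), .t 1 (nat_lit 0) (.ax 1 2 4 17 1), .t 1 (nat_lit 0) (.ax 1 2 4 18 1), .t 1 (nat_lit 0) (.ax 1 2 4 19 1), .t 1 (nat_lit 0) (.ax 1 2 4 20 1), .t 1 (nat_lit 0) (.ax 1 2 4 21 1), .t 1 (nat_lit 0) (.ax 1 2 4 22 1), .t 1 (nat_lit 0) (.ax 1 2 5 9 1), .t 1 (nat_lit 0) (.ax 1 2 6 9 1), .t 1 (nat_lit 0) (.ax 1 2 7 10 1), .t 1 (nat_lit 0) (.ax 1 2 7 11 1), .t 1 (nat_lit 0) (.ax 1 2 7 12 1), .t 1 (nat_lit 0) (.ax 1 2 7 13 1), .t 1 (nat_lit 0) (.ax 1 2 7 14 1), .t 1 (nat_lit 0) (.ax 1 2 7 15 1), .t 1 (nat_lit 0) (.ax 1 2 7 16 1)] (by decide +kernel) (by decide +kernel)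
theorem b1 : B 32 64 := Blk.of_chk [.t 1 (nat_lit 0) (.ax 1 2 7 17 1), .t 1 (nat_lit 0) (.ax 1 2 9 13 1), .t 1 (nat_lit 0) (.ax 1 2 9 14 1), .t 1 (nat_lit 0) (.ax 1 2 9 15 1), .t 1 (nat_lit 0) (.ax 1 2 10 11 1), .t 1 (nat_lit 0) (.ax 1 2 10 12 1), .t 1 (nat_lit 0) (.ax 1 2 10 13 1), .t 1 (nat_lit 0) (.ax 1 2 11 12 1), .t 1 (nat_lit 0) (.ax 1 2 12 13 1), .t 1 (nat_lit 0) (.ax 1 2 12 14 1), .t 1 (nat_lit 0) (.ax 1 2 12 15 1), .t 1 (nat_lit 0) (.ax 1 2 12 17 1), .t 1 (nat_lit 0) (.ax 1 2 12 18 1), .t 1 (nat_lit 0) (.ax 1 2 12 19 1), .t 1 (nat_lit 0) (.ax 1 2 12 20 1), .t 1 (nat_lit 0) (.ax 1 2 12 21 1), .t 1 (nat_lit 0) (.ax 1 2 12 22 1), .t 1 (nat_lit 0) (.ax 1 2 13 22 1), .t 1 (nat_lit 0) (.ax 1 2 14 22 1), .t 1 (nat_lit 0) (.ax 1 2 15 22 1), .t 1 (nat_lit 0) (.ax 1 2 19 21 1), .t 1 (nat_lit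 0) (.ax 1 3 6 10 0), .t 1 (nat_lit 0) (.ax 1 3 6 12 0), .t 1 (nat_lit 0) (.ax 1 3 6 13 0), .t 1 (nat_lit 0) (.ax 1 3 6 14 0), .t 1 (nat_lit 0) (.ax 1 3 10 11 0), .t 1 (nat_lit 0) (.ax 1 3 10 15 0), .t 1 (nat_lit 0) (.ax 1 3 13 14 0), .t 1 (nat_lit 0) (.ax 1 3 13 15 0), .t 1 (nat_lit 0) (.ax 1 3 14 15 0), .t 1 (nat_lit 0) (.ax 1 4 7 10 0), .t 1 (nat_lit 0) (.ax 1 4 7 11 0)] (by decide +kernel) (by decide +kernel)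
theorem b2 : B 64 96 := Blk.of_chk [.t 1 (nat_lit 0) (.ax 1 4 7 12 0), .t 1 (nat_lit 0) (.ax 1 4 7 13 0), .t 1 (nat_lit 0) (.ax 1 4 7 14 0), .t 1 (nat_lit 0) (.ax 1 4 7 15 0), .t 1 (nat_lit 0) (.ax 1 4 7 16 0), .t 1 (nat_lit 0) (.ax 1 4 7 17 0), .t 1 (nat_lit 0) (.ax 1 4 7 18 0), .t 1 (nat_lit 0) (.ax 1 4 7 19 0), .t 1 (nat_lit 0) (.ax 1 4 7 20 0), .t 1 (nat_lit 0) (.ax 1 4 7 21 0), .t 1 (nat_lit 0) (.ax 1 4 7 22 0), .t 1 (nat_lit 0) (.ax 1 4 10 11 0), .t 1 (nat_lit 0) (.ax 1 4 10 12 0), .t 1 (nat_lit 0) (.ax 1 4 10 13 0), .t 1 (nat_lit 0) (.ax 1 4 10 19 0), .t 1 (nat_lit 0) (.ax 1 4 11 12 0), .t 1 (nat_lit 0) (.ax 1 5 8 9 0), .t 1 (nat_lit 0) (.ax 1 5 9 10 4), .t 1 (nat_lit 0) (.ax 1 5 9 11 4), .t 1 (nat_lit 0) (.ax 1 5 9 13 4), .t 1 (nat_lit 0) (.ax 1 5 9 14 4), .t 1 (nat_lit 0) (.ax 1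 5 9 19 4), .t 1 (nat_lit 0) (.ax 1 5 10 13 0), .t 1 (nat_lit 0) (.ax 1 5 10 19 0), .t 1 (nat_lit 0) (.ax 1 5 11 12 2), .t 1 (nat_lit 0) (.ax 1 6 9 10 4), .t 1 (nat_lit 0) (.ax 1 6 9 11 4), .t 1 (nat_lit 0) (.ax 1 6 9 13 4), .t 1 (nat_lit 0) (.ax 1 6 9 19 4), .t 1 (nat_lit 0) (.ax 1 6 10 11 0), .t 1 (nat_lit 0) (.ax 1 6 10 13 0), .t 1 (nat_lit 0) (.ax 1 6 10 19 0)] (by decide +kernel) (by decide +kernel)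
theorem b3 : B 96 128 := Blk.of_chk [.t 1 (nat_lit 0) (.ax 1 6 12 13 2), .t 1 (nat_lit 0) (.ax 1 6 12 13 4), .t 1 (nat_lit 0) (.ax 1 7 9 10 0), .t 1 (nat_lit 0) (.ax 1 7 9 11 0), .t 1 (nat_lit 0) (.ax 1 7 9 13 0), .t 1 (nat_lit 0) (.ax 1 7 9 14 0), .t 1 (nat_lit 0) (.ax 1 7 9 15 0), .t 1 (nat_lit 0) (.ax 1 7 9 16 0), .t 1 (nat_lit 0) (.ax 1 7 9 17 0), .t 1 (nat_lit 0) (.ax 1 7 9 18 0), .t 1 (nat_lit 0) (.ax 1 7 9 19 0), .t 1 (nat_lit 0) (.ax 1 7 9 20 0), .t 1 (nat_lit 0) (.ax 1 7 9 21 0), .t 1 (nat_lit 0) (.ax 1 7 9 22 0), .t 1 (nat_lit 0) (.ax 1 7 10 13 0), .t 1 (nat_lit 0) (.ax 1 7 11 12 0), .t 1 (nat_lit 0) (.ax 1 7 14 19 0), .t 1 (nat_lit 0) (.ax 1 8 9 10 4), .t 1 (nat_lit 0) (.ax 1 8 9 11 4), .t 1 (nat_lit 0) (.ax 1 8 9 12 4), .t 1 (nat_lit 0) (.ax 1 8 9 19 4), .t 1 (nat_lit 0) (.ax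 1 8 11 12 2), .t 1 (nat_lit 0) (.ax 1 9 11 13 0), .t 1 (nat_lit 0) (.ax 1 9 11 14 0), .t 1 (nat_lit 0) (.ax 1 9 11 15 0), .t 1 (nat_lit 0) (.ax 1 9 11 22 0), .t 1 (nat_lit 0) (.ax 1 9 12 13 0), .t 1 (nat_lit 0) (.ax 1 9 12 14 0), .t 1 (nat_lit 0) (.ax 1 9 12 15 0), .t 1 (nat_lit 0) (.ax 1 9 12 17 0), .t 1 (nat_lit 0) (.ax 1 9 12 18 0), .t 1 (nat_lit 0) (.ax 1 9 12 19 0)] (by decide +kernel) (by decide +kernel)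
theorem b4 : B 128 160 := Blk.of_chk [.t 1 (nat_lit 0) (.ax 1 9 12 20 0), .t 1 (nat_lit 0) (.ax 1 9 12 21 0), .t 1 (nat_lit 0) (.ax 1 9 12 22 0), .t 1 (nat_lit 0) (.ax 1 10 11 12 1), .t 1 (nat_lit 0) (.ax 1 10 11 12 2), .t 1 (nat_lit 0) (.ax 1 10 11 12 4), .t 1 (nat_lit 0) (.ax 1 10 11 13 1), .t 1 (nat_lit 0) (.ax 1 10 11 13 4), .t 1 (nat_lit 0) (.ax 1 10 12 13 1), .t 1 (nat_lit 0) (.ax 1 10 12 13 4), .t 1 (nat_lit 0) (.ax 1 10 12 19 4), .t 1 (nat_lit 0) (.ax 1 10 13 21 4), .t 1 (nat_lit 0) (.ax 1 10 19 21 4), .t 1 (nat_lit 0) (.ax 1 11 12 13 2), .t 1 (nat_lit 0) (.ax 1 11 12 13 4), .t 1 (nat_lit 0) (.ax 1 11 12 14 4), .t 1 (nat_lit 0) (.ax 1 11 12 15 4), .t 1 (nat_lit 0) (.ax 1 11 12 16 4), .t 1 (nat_lit 0) (.ax 1 11 12 17 4), .t 1 (nat_lit 0) (.ax 1 11 12 18 4), .t 1 (nat_lit 0) (.ax 1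 11 12 19 4), .t 1 (nat_lit 0) (.ax 1 11 12 20 4), .t 1 (nat_lit 0) (.ax 1 11 12 21 4), .t 1 (nat_lit 0) (.ax 1 11 12 22 4), .t 1 (nat_lit 0) (.ax 1 11 13 14 2), .t 1 (nat_lit 0) (.ax 1 11 17 19 2), .t 1 (nat_lit 0) (.ax 1 11 21 22 5), .t 1 (nat_lit 0) (.ax 1 12 16 21 0), .t 1 (nat_lit 0) (.ax 1 12 18 19 0), .t 1 (nat_lit 0) (.ax 1 13 14 19 6), .t 1 (nat_lit 0) (.ax 1 13 21 22 5), .t 1 (nat_lit 0) (.ax 1 14 17 19 0)] (by decide +kernel) (by decide +kernel)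
theorem b5 : B 160 192 := Blk.of_chk [.t 1 (nat_lit 0) (.ax 1 14 21 22 5), .t 1 (nat_lit 0) (.ax 1 15 17 19 1), .t 1 (nat_lit 0) (.ax 1 16 19 21 0), .t 1 (nat_lit 0) (.ax 2 3 6 10 0), .t 1 (nat_lit 0) (.ax 2 3 6 12 0), .t 1 (nat_lit 0) (.ax 2 3 6 13 0), .t 1 (nat_lit 0) (.ax 2 3 6 14 0), .t 1 (nat_lit 0) (.ax 2 3 10 15 0), .t 1 (nat_lit 0) (.ax 2 3 13 14 0), .t 1 (nat_lit 0) (.ax 2 3 13 15 0), .t 1 (nat_lit 0) (.ax 2 3 14 15 0), .t 1 (nat_lit 0) (.ax 2 4 10 12 0), .t 1 (nat_lit 0) (.ax 2 4 10 12 2), .t 1 (nat_lit 0) (.ax 2 4 11 12 0), .t 1 (nat_lit 0) (.ax 2 4 13 14 0), .t 1 (nat_lit 0) (.ax 2 5 8 9 0), .t 1 (nat_lit 0) (.ax 2 5 9 10 4), .t 1 (nat_lit 0) (.ax 2 5 9 11 4), .t 1 (nat_lit 0) (.ax 2 5 9 12 4), .t 1 (nat_lit 0) (.ax 2 5 9 13 4), .t 1 (nat_lit 0) (.ax 2 5 9 14 4), .t 1 (nat_lit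 0) (.ax 2 5 9 21 4), .t 1 (nat_lit 0) (.ax 2 5 10 12 0), .t 1 (nat_lit 0) (.ax 2 5 10 21 2), .t 1 (nat_lit 0) (.ax 2 5 10 21 4), .t 1 (nat_lit 0) (.ax 2 5 11 12 2), .t 1 (nat_lit 0) (.ax 2 5 11 17 2), .t 1 (nat_lit 0) (.ax 2 5 13 21 2), .t 1 (nat_lit 0) (.ax 2 5 13 21 4), .t 1 (nat_lit 0) (.ax 2 6 9 10 4), .t 1 (nat_lit 0) (.ax 2 6 9 12 4), .t 1 (nat_lit 0) (.ax 2 6 9 13 4)] (by decide +kernel) (by decide +kernel)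
theorem b6 : B 192 224 := Blk.of_chk [.t 1 (nat_lit 0) (.ax 2 6 9 14 4), .t 1 (nat_lit 0) (.ax 2 6 9 21 4), .t 1 (nat_lit 0) (.ax 2 6 12 13 2), .t 1 (nat_lit 0) (.ax 2 6 12 13 4), .t 1 (nat_lit 0) (.ax 2 6 13 21 2), .t 1 (nat_lit 0) (.ax 2 6 13 21 4), .t 1 (nat_lit 0) (.ax 2 6 14 15 2), .t 1 (nat_lit 0) (.ax 2 6 14 15 4), .t 1 (nat_lit 0) (.ax 2 7 11 12 0), .t 1 (nat_lit 0) (.ax 2 7 11 16 0), .t 1 (nat_lit 0) (.ax 2 7 13 16 0), .t 1 (nat_lit 0) (.ax 2 7 14 17 0), .t 1 (nat_lit 0) (.ax 2 8 9 10 4), .t 1 (nat_lit 0) (.ax 2 8 9 11 4), .t 1 (nat_lit 0) (.ax 2 8 9 12 4), .t 1 (nat_lit 0) (.ax 2 8 10 12 0), .t 1 (nat_lit 0) (.ax 2 8 11 12 2), .t 1 (nat_lit 0) (.ax 2 8 11 13 2), .t 1 (nat_lit 0) (.ax 2 9 11 13 0), .t 1 (nat_lit 0) (.ax 2 9 11 14 0), .t 1 (nat_lit 0) (.ax 2 9 13 14 0), .t 1 (nat_lit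 0) (.ax 2 10 11 12 2), .t 1 (nat_lit 0) (.ax 2 10 11 12 4), .t 1 (nat_lit 0) (.ax 2 10 11 13 4), .t 1 (nat_lit 0) (.ax 2 10 12 13 4), .t 1 (nat_lit 0) (.ax 2 10 12 14 4), .t 1 (nat_lit 0) (.ax 2 10 12 16 4), .t 1 (nat_lit 0) (.ax 2 10 12 17 4), .t 1 (nat_lit 0) (.ax 2 10 12 18 4), .t 1 (nat_lit 0) (.ax 2 10 12 19 4), .t 1 (nat_lit 0) (.ax 2 10 12 20 4), .t 1 (nat_lit 0) (.ax 2 10 12 21 4)] (by decide +kernel) (by decide +kernel)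
theorem b7 : B 224 256 := Blk.of_chk [.t 1 (nat_lit 0) (.ax 2 10 13 14 4), .t 1 (nat_lit 0) (.ax 2 10 13 14 6), .t 1 (nat_lit 0) (.ax 2 10 13 15 6), .t 1 (nat_lit 0) (.ax 2 10 13 17 6), .t 1 (nat_lit 0) (.ax 2 10 13 21 2), .t 1 (nat_lit 0) (.ax 2 10 13 21 4), .t 1 (nat_lit 0) (.ax 2 10 13 21 6), .t 1 (nat_lit 0) (.ax 2 10 13 22 6), .t 1 (nat_lit 0) (.ax 2 10 14 15 2), .t 1 (nat_lit 0) (.ax 2 10 14 15 4), .t 1 (nat_lit 0) (.ax 2 11 12 13 2), .t 1 (nat_lit 0) (.ax 2 11 12 13 4), .t 1 (nat_lit 0) (.ax 2 11 12 17 4), .t 1 (nat_lit 0) (.ax 2 11 13 15 2), .t 1 (nat_lit 0) (.ax 2 11 13 18 0), .t 1 (nat_lit 0) (.ax 2 11 14 15 2), .t 1 (nat_lit 0) (.ax 2 11 14 17 0), .t 1 (nat_lit 0) (.ax 2 11 14 17 2), .t 1 (nat_lit 0) (.ax 2 11 16 18 4), .t 1 (nat_lit 0) (.ax 2 12 13 15 0), .t 1 (nat_lit 0) (.ax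 2 13 14 15 2), .t 1 (nat_lit 0) (.ax 2 13 14 15 4), .t 1 (nat_lit 0) (.ax 2 13 14 15 5), .t 1 (nat_lit 0) (.ax 2 13 14 22 3), .t 1 (nat_lit 0) (.ax 2 13 15 17 4), .t 1 (nat_lit 0) (.ax 2 13 15 17 6), .t 1 (nat_lit 0) (.ax 2 13 15 18 6), .t 1 (nat_lit 0) (.ax 2 13 15 21 2), .t 1 (nat_lit 0) (.ax 2 13 15 21 4), .t 1 (nat_lit 0) (.ax 2 13 15 22 3), .t 1 (nat_lit 0) (.ax 2 13 16 17 4), .t 1 (nat_lit 0) (.ax 2 13 17 21 2)] (by decide +kernel) (by decide +kernel)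
theorem b8 : B 256 288 := Blk.of_chk [.t 1 (nat_lit 0) (.ax 2 13 17 21 4), .t 1 (nat_lit 0) (.ax 2 13 17 22 5), .t 1 (nat_lit 0) (.ax 2 13 18 21 2), .t 1 (nat_lit 0) (.ax 2 13 18 21 4), .t 1 (nat_lit 0) (.ax 2 13 21 22 5), .t 1 (nat_lit 0) (.ax 2 14 15 18 6), .t 1 (nat_lit 0) (.ax 2 14 17 21 2), .t 1 (nat_lit 0) (.ax 2 14 17 21 4), .t 1 (nat_lit 0) (.ax 2 14 17 22 5), .t 1 (nat_lit 0) (.ax 2 14 18 21 2), .t 1 (nat_lit 0) (.ax 2 14 18 21 4), .t 1 (nat_lit 0) (.ax 2 14 21 22 5), .t 1 (nat_lit 0) (.ax 2 15 17 21 2), .t 1 (nat_lit 0) (.ax 2 15 17 21 4), .t 1 (nat_lit 0) (.ax 2 15 17 22 5), .t 1 (nat_lit 0) (.ax 2 15 18 21 2), .t 1 (nat_lit 0) (.ax 2 15 18 21 4), .t 1 (nat_lit 0) (.ax 2 15 18 22 5), .t 1 (nat_lit 0) (.ax 2 15 21 22 5), .t 1 (nat_lit 0) (.ax 3 4 5 6 0), .t 1 (nat_lit 0) (.ax 3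 4 5 9 0), .t 1 (nat_lit 0) (.ax 3 4 5 11 0), .t 1 (nat_lit 0) (.ax 3 4 5 12 0), .t 1 (nat_lit 0) (.ax 3 4 6 10 0), .t 1 (nat_lit 0) (.ax 3 4 6 11 0), .t 1 (nat_lit 0) (.ax 3 4 6 12 0), .t 1 (nat_lit 0) (.ax 3 4 7 10 0), .t 1 (nat_lit 0) (.ax 3 4 7 11 0), .t 1 (nat_lit 0) (.ax 3 4 7 12 0), .t 1 (nat_lit 0) (.ax 3 4 7 13 0), .t 1 (nat_lit 0) (.ax 3 4 7 14 0), .t 1 (nat_lit 0) (.ax 3 4 7 15 0)] (by decide +kernel) (by decide +kernel)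
theorem b9 : B 288 320 := Blk.of_chk [.t 1 (nat_lit 0) (.ax 3 4 7 16 0), .t 1 (nat_lit 0) (.ax 3 4 7 17 0), .t 1 (nat_lit 0) (.ax 3 4 7 21 0), .t 1 (nat_lit 0) (.ax 3 4 7 22 0), .t 1 (nat_lit 0) (.ax 3 4 8 9 0), .t 1 (nat_lit 0) (.ax 3 4 10 14 0), .t 1 (nat_lit 0) (.ax 3 5 6 10 2), .t 1 (nat_lit 0) (.ax 3 5 6 10 4), .t 1 (nat_lit 0) (.ax 3 5 6 11 0), .t 1 (nat_lit 0) (.ax 3 5 6 11 5), .t 1 (nat_lit 0) (.ax 3 5 6 13 2), .t 1 (nat_lit 0) (.ax 3 5 6 14 4), .t 1 (nat_lit 0) (.ax 3 5 9 14 4), .t 1 (nat_lit 0) (.ax 3 5 12 14 4), .t 1 (nat_lit 0) (.ax 3 6 10 11 7), .t 1 (nat_lit 0) (.ax 3 6 10 12 5), .t 1 (nat_lit 0) (.ax 3 6 10 13 6), .t 1 (nat_lit 0) (.ax 3 6 10 14 6), .t 1 (nat_lit 0) (.ax 3 6 11 12 4), .t 1 (nat_lit 0) (.ax 3 6 11 13 4), .t 1 (nat_lit 0) (.ax 3 6 12 13 2), .t 1 (nat_lit 0)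 (.ax 3 6 12 13 4), .t 1 (nat_lit 0) (.ax 3 6 12 14 4), .t 1 (nat_lit 0) (.ax 3 7 9 10 0), .t 1 (nat_lit 0) (.ax 3 7 9 13 0), .t 1 (nat_lit 0) (.ax 3 7 9 14 0), .t 1 (nat_lit 0) (.ax 3 7 9 15 0), .t 1 (nat_lit 0) (.ax 3 7 9 17 0), .t 1 (nat_lit 0) (.ax 3 7 9 21 0), .t 1 (nat_lit 0) (.ax 3 7 9 22 0), .t 1 (nat_lit 0) (.ax 3 7 10 13 0), .t 1 (nat_lit 0) (.ax 3 7 10 14 0)] (by decide +kernel) (by decide +kernel)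
theorem b10 : B 320 352 := Blk.of_chk [.t 1 (nat_lit 0) (.ax 3 7 10 15 0), .t 1 (nat_lit 0) (.ax 3 7 11 12 0), .t 1 (nat_lit 0) (.ax 3 7 13 14 0), .t 1 (nat_lit 0) (.ax 3 7 14 15 0), .t 1 (nat_lit 0) (.ax 3 8 9 10 4), .t 1 (nat_lit 0) (.ax 3 8 9 12 4), .t 1 (nat_lit 0) (.ax 3 9 11 13 0), .t 1 (nat_lit 0) (.ax 3 9 11 14 0), .t 1 (nat_lit 0) (.ax 3 9 12 13 0), .t 1 (nat_lit 0) (.ax 3 9 12 14 0), .t 1 (nat_lit 0) (.ax 3 9 12 15 0), .t 1 (nat_lit 0) (.ax 3 9 12 17 0), .t 1 (nat_lit 0) (.ax 3 9 12 21 0), .t 1 (nat_lit 0) (.ax 3 9 12 22 0), .t 1 (nat_lit 0) (.ax 3 9 14 22 0), .t 1 (nat_lit 0) (.ax 3 10 14 15 4), .t 1 (nat_lit 0) (.ax 3 11 12 14 4), .t 1 (nat_lit 0) (.ax 3 11 13 14 0), .t 1 (nat_lit 0) (.ax 3 11 13 14 2), .t 1 (nat_lit 0) (.ax 3 11 13 15 2), .t 1 (nat_lit 0) (.ax 3 11 14 15 2),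 .t 1 (nat_lit 0) (.ax 3 11 14 21 2), .t 1 (nat_lit 0) (.ax 3 12 13 22 0), .t 1 (nat_lit 0) (.ax 3 12 14 22 0), .t 1 (nat_lit 0) (.ax 3 12 16 21 0), .t 1 (nat_lit 0) (.ax 3 13 14 21 2), .t 1 (nat_lit 0) (.ax 3 13 14 22 5), .t 1 (nat_lit 0) (.ax 3 13 21 22 5), .t 1 (nat_lit 0) (.ax 3 14 21 22 5), .t 1 (nat_lit 0) (.ax 3 16 19 21 0), .t 1 (nat_lit 0) (.ax 4 5 6 7 2), .t 1 (nat_lit 0) (.ax 4 5 6 9 6)] (by decide +kernel) (by decide +kernel)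
theorem b11 : B 352 384 := Blk.of_chk [.t 1 (nat_lit 0) (.ax 4 5 6 10 2), .t 1 (nat_lit 0) (.ax 4 5 6 10 4), .t 1 (nat_lit 0) (.ax 4 5 6 11 5), .t 1 (nat_lit 0) (.ax 4 5 6 13 2), .t 1 (nat_lit 0) (.ax 4 5 6 13 4), .t 1 (nat_lit 0) (.ax 4 5 6 14 2), .t 1 (nat_lit 0) (.ax 4 5 6 14 4), .t 1 (nat_lit 0) (.ax 4 5 6 15 2), .t 1 (nat_lit 0) (.ax 4 5 6 15 4), .t 1 (nat_lit 0) (.ax 4 5 6 21 3), .t 1 (nat_lit 0) (.ax 4 5 6 21 6), .t 1 (nat_lit 0) (.ax 4 5 6 22 0), .t 1 (nat_lit 0) (.ax 4 5 6 22 1), .t 1 (nat_lit 0) (.ax 4 5 6 22 4), .t 1 (nat_lit 0) (.ax 4 5 6 22 6), .t 1 (nat_lit 0) (.ax 4 5 7 8 3), .t 1 (nat_lit 0) (.ax 4 5 7 10 3), .t 1 (nat_lit 0) (.ax 4 5 7 11 3), .t 1 (nat_lit 0) (.ax 4 5 7 12 3), .t 1 (nat_lit 0) (.ax 4 5 7 13 3), .t 1 (nat_lit 0) (.ax 4 5 7 14 3), .t 1 (nat_lit 0) (.ax 4 5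 7 15 3), .t 1 (nat_lit 0) (.ax 4 5 7 16 3), .t 1 (nat_lit 0) (.ax 4 5 7 17 3), .t 1 (nat_lit 0) (.ax 4 5 7 18 3), .t 1 (nat_lit 0) (.ax 4 5 7 19 3), .t 1 (nat_lit 0) (.ax 4 5 7 20 3), .t 1 (nat_lit 0) (.ax 4 5 7 21 3), .t 1 (nat_lit 0) (.ax 4 5 7 22 3), .t 1 (nat_lit 0) (.ax 4 5 9 11 4), .t 1 (nat_lit 0) (.ax 4 5 9 12 4), .t 1 (nat_lit 0) (.ax 4 5 9 12 6)] (by decide +kernel) (by decide +kernel)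
theorem b12 : B 384 416 := Blk.of_chk [.t 1 (nat_lit 0) (.ax 4 5 9 14 4), .t 1 (nat_lit 0) (.ax 4 5 9 22 4), .t 1 (nat_lit 0) (.ax 4 5 10 12 3), .t 1 (nat_lit 0) (.ax 4 5 10 12 6), .t 1 (nat_lit 0) (.ax 4 5 10 12 7), .t 1 (nat_lit 0) (.ax 4 5 10 13 6), .t 1 (nat_lit 0) (.ax 4 5 10 14 0), .t 1 (nat_lit 0) (.ax 4 5 10 14 2), .t 1 (nat_lit 0) (.ax 4 5 10 14 6), .t 1 (nat_lit 0) (.ax 4 5 10 22 1), .t 1 (nat_lit 0) (.ax 4 5 10 22 4), .t 1 (nat_lit 0) (.ax 4 5 11 12 3), .t 1 (nat_lit 0) (.ax 4 5 11 22 4), .t 1 (nat_lit 0) (.ax 4 5 12 13 4), .t 1 (nat_lit 0) (.ax 4 5 12 14 4), .t 1 (nat_lit 0) (.ax 4 5 12 22 4), .t 1 (nat_lit 0) (.ax 4 5 14 21 5), .t 1 (nat_lit 0) (.ax 4 5 14 22 4), .t 1 (nat_lit 0) (.ax 4 6 7 8 3), .t 1 (nat_lit 0) (.ax 4 6 7 10 3), .t 1 (nat_lit 0) (.ax 4 6 7 11 3), .t 1 (nat_lit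 0) (.ax 4 6 7 12 3), .t 1 (nat_lit 0) (.ax 4 6 7 13 3), .t 1 (nat_lit 0) (.ax 4 6 7 14 3), .t 1 (nat_lit 0) (.ax 4 6 7 15 3), .t 1 (nat_lit 0) (.ax 4 6 7 16 3), .t 1 (nat_lit 0) (.ax 4 6 7 17 3), .t 1 (nat_lit 0) (.ax 4 6 7 18 3), .t 1 (nat_lit 0) (.ax 4 6 7 19 3), .t 1 (nat_lit 0) (.ax 4 6 7 20 3), .t 1 (nat_lit 0) (.ax 4 6 7 21 3), .t 1 (nat_lit 0) (.ax 4 6 7 22 3)] (by decide +kernel) (by decide +kernel)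
theorem b13 : B 416 448 := Blk.of_chk [.t 1 (nat_lit 0) (.ax 4 6 9 12 4), .t 1 (nat_lit 0) (.ax 4 6 9 22 4), .t 1 (nat_lit 0) (.ax 4 6 10 12 0), .t 1 (nat_lit 0) (.ax 4 6 10 12 3), .t 1 (nat_lit 0) (.ax 4 6 10 12 5), .t 1 (nat_lit 0) (.ax 4 6 10 12 6), .t 1 (nat_lit 0) (.ax 4 6 10 12 7), .t 1 (nat_lit 0) (.ax 4 6 10 13 6), .t 1 (nat_lit 0) (.ax 4 6 10 14 0), .t 1 (nat_lit 0) (.ax 4 6 10 14 2), .t 1 (nat_lit 0) (.ax 4 6 10 14 6), .t 1 (nat_lit 0) (.ax 4 6 10 22 1), .t 1 (nat_lit 0) (.ax 4 6 10 22 4), .t 1 (nat_lit 0) (.ax 4 6 11 12 3), .t 1 (nat_lit 0) (.ax 4 6 11 22 4), .t 1 (nat_lit 0) (.ax 4 6 12 13 4), .t 1 (nat_lit 0) (.ax 4 6 12 14 4), .t 1 (nat_lit 0) (.ax 4 6 12 22 4), .t 1 (nat_lit 0) (.ax 4 6 14 22 4), .t 1 (nat_lit 0) (.ax 4 6 21 22 5), .t 1 (nat_lit 0) (.ax 4 7 9 10 0), .t 1 (nat_lit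 0) (.ax 4 7 9 11 0), .t 1 (nat_lit 0) (.ax 4 7 9 13 0), .t 1 (nat_lit 0) (.ax 4 7 9 14 0), .t 1 (nat_lit 0) (.ax 4 7 9 15 0), .t 1 (nat_lit 0) (.ax 4 7 9 16 0), .t 1 (nat_lit 0) (.ax 4 7 9 17 0), .t 1 (nat_lit 0) (.ax 4 7 9 18 0), .t 1 (nat_lit 0) (.ax 4 7 9 19 0), .t 1 (nat_lit 0) (.ax 4 7 9 20 0), .t 1 (nat_lit 0) (.ax 4 7 9 21 0), .t 1 (nat_lit 0) (.ax 4 7 9 22 0)] (by decide +kernel) (by decide +kernel)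
theorem b14 : B 448 480 := Blk.of_chk [.t 1 (nat_lit 0) (.ax 4 7 10 13 0), .t 1 (nat_lit 0) (.ax 4 7 10 14 0), .t 1 (nat_lit 0) (.ax 4 7 10 14 2), .t 1 (nat_lit 0) (.ax 4 7 10 15 0), .t 1 (nat_lit 0) (.ax 4 7 10 16 0), .t 1 (nat_lit 0) (.ax 4 7 10 22 0), .t 1 (nat_lit 0) (.ax 4 7 11 12 0), .t 1 (nat_lit 0) (.ax 4 7 13 14 0), .t 1 (nat_lit 0) (.ax 4 7 13 22 2), .t 1 (nat_lit 0) (.ax 4 7 14 15 0), .t 1 (nat_lit 0) (.ax 4 7 14 16 0), .t 1 (nat_lit 0) (.ax 4 7 15 16 0), .t 1 (nat_lit 0) (.ax 4 8 9 10 4), .t 1 (nat_lit 0) (.ax 4 8 9 12 4), .t 1 (nat_lit 0) (.ax 4 8 9 13 4), .t 1 (nat_lit 0) (.ax 4 8 9 14 4), .t 1 (nat_lit 0) (.ax 4 8 9 22 4), .t 1 (nat_lit 0) (.ax 4 8 10 12 0), .t 1 (nat_lit 0) (.ax 4 8 10 13 2), .t 1 (nat_lit 0) (.ax 4 8 10 14 0), .t 1 (nat_lit 0) (.ax 4 8 13 14 0), .t 1 (nat_lit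 0) (.ax 4 9 10 22 0), .t 1 (nat_lit 0) (.ax 4 9 11 13 0), .t 1 (nat_lit 0) (.ax 4 9 11 14 0), .t 1 (nat_lit 0) (.ax 4 9 11 15 0), .t 1 (nat_lit 0) (.ax 4 9 11 22 0), .t 1 (nat_lit 0) (.ax 4 9 12 13 0), .t 1 (nat_lit 0) (.ax 4 9 12 14 0), .t 1 (nat_lit 0) (.ax 4 9 12 15 0), .t 1 (nat_lit 0) (.ax 4 9 12 17 0), .t 1 (nat_lit 0) (.ax 4 9 12 18 0), .t 1 (nat_lit 0) (.ax 4 9 12 19 0)] (by decide +kernel) (by decide +kernel)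
theorem b15 : B 480 512 := Blk.of_chk [.t 1 (nat_lit 0) (.ax 4 9 12 20 0), .t 1 (nat_lit 0) (.ax 4 9 12 21 0), .t 1 (nat_lit 0) (.ax 4 9 12 22 0), .t 1 (nat_lit 0) (.ax 4 9 13 22 0), .t 1 (nat_lit 0) (.ax 4 9 14 22 0), .t 1 (nat_lit 0) (.ax 4 9 15 22 0), .t 1 (nat_lit 0) (.ax 4 10 12 13 4), .t 1 (nat_lit 0) (.ax 4 10 12 14 4), .t 1 (nat_lit 0) (.ax 4 10 12 19 4), .t 1 (nat_lit 0) (.ax 4 10 12 22 4), .t 1 (nat_lit 0) (.ax 4 10 13 22 1), .t 1 (nat_lit 0) (.ax 4 10 13 22 4), .t 1 (nat_lit 0) (.ax 4 10 14 15 4), .t 1 (nat_lit 0) (.ax 4 10 14 22 1), .t 1 (nat_lit 0) (.ax 4 10 14 22 4), .t 1 (nat_lit 0) (.ax 4 10 16 22 4), .t 1 (nat_lit 0) (.ax 4 11 12 13 4), .t 1 (nat_lit 0) (.ax 4 11 12 14 4), .t 1 (nat_lit 0) (.ax 4 11 12 22 4), .t 1 (nat_lit 0) (.ax 4 11 13 14 0), .t 1 (nat_lit 0) (.ax 4 11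 13 14 2), .t 1 (nat_lit 0) (.ax 4 11 13 15 2), .t 1 (nat_lit 0) (.ax 4 11 13 22 2), .t 1 (nat_lit 0) (.ax 4 11 14 15 2), .t 1 (nat_lit 0) (.ax 4 11 14 21 2), .t 1 (nat_lit 0) (.ax 4 11 15 22 2), .t 1 (nat_lit 0) (.ax 4 12 13 22 0), .t 1 (nat_lit 0) (.ax 4 12 14 17 0), .t 1 (nat_lit 0) (.ax 4 12 14 22 0), .t 1 (nat_lit 0) (.ax 4 12 15 22 0), .t 1 (nat_lit 0) (.ax 4 12 16 21 0), .t 1 (nat_lit 0) (.ax 4 12 16 22 0)] (by decide +kernel) (by decide +kernel)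
theorem b16 : B 512 544 := Blk.of_chk [.t 1 (nat_lit 0) (.ax 4 12 17 22 0), .t 1 (nat_lit 0) (.ax 4 12 18 19 0), .t 1 (nat_lit 0) (.ax 4 13 14 16 5), .t 1 (nat_lit 0) (.ax 4 13 14 21 2), .t 1 (nat_lit 0) (.ax 4 13 14 22 2), .t 1 (nat_lit 0) (.ax 4 13 14 22 4), .t 1 (nat_lit 0) (.ax 4 13 14 22 5), .t 1 (nat_lit 0) (.ax 4 13 17 22 0), .t 1 (nat_lit 0) (.ax 4 13 21 22 5), .t 1 (nat_lit 0) (.ax 4 14 16 22 4), .t 1 (nat_lit 0) (.ax 4 14 17 22 4), .t 1 (nat_lit 0) (.ax 4 14 21 22 5), .t 1 (nat_lit 0) (.ax 4 15 16 22 4), .t 1 (nat_lit 0) (.ax 4 16 17 22 0), .t 1 (nat_lit 0) (.ax 4 16 18 22 0), .t 1 (nat_lit 0) (.ax 4 16 19 21 0), .t 1 (nat_lit 0) (.ax 4 18 19 22 4), .t 1 (nat_lit 0) (.ax 5 6 7 8 1), .t 1 (nat_lit 0) (.ax 5 6 7 8 2), .t 1 (nat_lit 0) (.ax 5 6 7 8 4), .t 1 (nat_lit 0) (.ax 5 6 7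 10 1), .t 1 (nat_lit 0) (.ax 5 6 7 10 4), .t 1 (nat_lit 0) (.ax 5 6 7 11 4), .t 1 (nat_lit 0) (.ax 5 6 7 12 1), .t 1 (nat_lit 0) (.ax 5 6 7 12 4), .t 1 (nat_lit 0) (.ax 5 6 7 13 1), .t 1 (nat_lit 0) (.ax 5 6 7 13 4), .t 1 (nat_lit 0) (.ax 5 6 7 21 4), .t 1 (nat_lit 0) (.ax 5 6 8 10 1), .t 1 (nat_lit 0) (.ax 5 6 8 10 4), .t 1 (nat_lit 0) (.ax 5 6 10 11 0), .t 1 (nat_lit 0) (.ax 5 6 10 11 5)] (by decide +kernel) (by decide +kernel)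
theorem b17 : B 544 576 := Blk.of_chk [.t 1 (nat_lit 0) (.ax 5 6 10 12 0), .t 1 (nat_lit 0) (.ax 5 6 10 13 6), .t 1 (nat_lit 0) (.ax 5 6 10 14 6), .t 1 (nat_lit 0) (.ax 5 6 10 15 6), .t 1 (nat_lit 0) (.ax 5 6 10 22 4), .t 1 (nat_lit 0) (.ax 5 6 11 12 2), .t 1 (nat_lit 0) (.ax 5 6 11 12 4), .t 1 (nat_lit 0) (.ax 5 6 11 13 4), .t 1 (nat_lit 0) (.ax 5 6 12 13 1), .t 1 (nat_lit 0) (.ax 5 6 12 13 4), .t 1 (nat_lit 0) (.ax 5 6 12 22 4), .t 1 (nat_lit 0) (.ax 5 6 13 14 4), .t 1 (nat_lit 0) (.ax 5 7 8 10 2), .t 1 (nat_lit 0) (.ax 5 7 8 10 4), .t 1 (nat_lit 0) (.ax 5 7 9 10 0), .t 1 (nat_lit 0) (.ax 5 7 9 11 0), .t 1 (nat_lit 0) (.ax 5 7 9 13 0), .t 1 (nat_lit 0) (.ax 5 7 9 14 0), .t 1 (nat_lit 0) (.ax 5 7 9 15 0), .t 1 (nat_lit 0) (.ax 5 7 9 17 0), .t 1 (nat_lit 0) (.ax 5 7 9 18 0), .t 1 (nat_lit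 0) (.ax 5 7 9 19 0), .t 1 (nat_lit 0) (.ax 5 7 9 20 0), .t 1 (nat_lit 0) (.ax 5 7 9 21 0), .t 1 (nat_lit 0) (.ax 5 7 9 22 0), .t 1 (nat_lit 0) (.ax 5 7 10 13 0), .t 1 (nat_lit 0) (.ax 5 7 10 14 0), .t 1 (nat_lit 0) (.ax 5 7 10 15 0), .t 1 (nat_lit 0) (.ax 5 7 11 12 0), .t 1 (nat_lit 0) (.ax 5 7 11 16 0), .t 1 (nat_lit 0) (.ax 5 7 12 13 2), .t 1 (nat_lit 0) (.ax 5 7 12 13 4)] (by decide +kernel) (by decide +kernel)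
theorem b18 : B 576 608 := Blk.of_chk [.t 1 (nat_lit 0) (.ax 5 7 14 15 0), .t 1 (nat_lit 0) (.ax 5 7 14 16 0), .t 1 (nat_lit 0) (.ax 5 7 14 21 0), .t 1 (nat_lit 0) (.ax 5 8 9 10 4), .t 1 (nat_lit 0) (.ax 5 8 9 12 4), .t 1 (nat_lit 0) (.ax 5 8 9 14 4), .t 1 (nat_lit 0) (.ax 5 8 9 21 4), .t 1 (nat_lit 0) (.ax 5 8 10 15 2), .t 1 (nat_lit 0) (.ax 5 9 10 22 0), .t 1 (nat_lit 0) (.ax 5 9 11 13 0), .t 1 (nat_lit 0) (.ax 5 9 11 14 0), .t 1 (nat_lit 0) (.ax 5 9 11 22 0), .t 1 (nat_lit 0) (.ax 5 9 12 13 0), .t 1 (nat_lit 0) (.ax 5 9 12 14 0), .t 1 (nat_lit 0) (.ax 5 9 12 15 0), .t 1 (nat_lit 0) (.ax 5 9 12 17 0), .t 1 (nat_lit 0) (.ax 5 9 12 18 0), .t 1 (nat_lit 0) (.ax 5 9 12 19 0), .t 1 (nat_lit 0) (.ax 5 9 12 20 0), .t 1 (nat_lit 0) (.ax 5 9 12 21 0), .t 1 (nat_lit 0) (.ax 5 9 12 22 0), .t 1 (nat_lit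 0) (.ax 5 9 13 22 0), .t 1 (nat_lit 0) (.ax 5 9 14 22 0), .t 1 (nat_lit 0) (.ax 5 10 11 12 1), .t 1 (nat_lit 0) (.ax 5 10 11 12 4), .t 1 (nat_lit 0) (.ax 5 10 12 13 4), .t 1 (nat_lit 0) (.ax 5 10 12 19 4), .t 1 (nat_lit 0) (.ax 5 11 12 13 2), .t 1 (nat_lit 0) (.ax 5 11 12 13 4), .t 1 (nat_lit 0) (.ax 5 11 12 14 4), .t 1 (nat_lit 0) (.ax 5 11 12 17 4), .t 1 (nat_lit 0) (.ax 5 11 12 21 4)] (by decide +kernel) (by decide +kernel)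
theorem b19 : B 608 640 := Blk.of_chk [.t 1 (nat_lit 0) (.ax 5 11 13 14 0), .t 1 (nat_lit 0) (.ax 5 11 13 14 2), .t 1 (nat_lit 0) (.ax 5 11 14 15 2), .t 1 (nat_lit 0) (.ax 5 11 14 21 2), .t 1 (nat_lit 0) (.ax 5 11 16 21 4), .t 1 (nat_lit 0) (.ax 5 12 13 15 0), .t 1 (nat_lit 0) (.ax 5 12 13 22 0), .t 1 (nat_lit 0) (.ax 5 12 14 22 0), .t 1 (nat_lit 0) (.ax 5 12 15 22 0), .t 1 (nat_lit 0) (.ax 5 12 16 21 0), .t 1 (nat_lit 0) (.ax 5 12 16 22 0), .t 1 (nat_lit 0) (.ax 5 13 14 15 3), .t 1 (nat_lit 0) (.ax 5 13 14 15 5), .t 1 (nat_lit 0) (.ax 5 13 14 21 2), .t 1 (nat_lit 0) (.ax 5 13 14 21 4), .t 1 (nat_lit 0) (.ax 5 13 14 22 5), .t 1 (nat_lit 0) (.ax 5 13 21 22 5), .t 1 (nat_lit 0) (.ax 5 14 15 21 6), .t 1 (nat_lit 0) (.ax 5 14 16 17 4), .t 1 (nat_lit 0) (.ax 5 14 16 18 4), .t 1 (nat_lit 0) (.ax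 5 14 16 19 4), .t 1 (nat_lit 0) (.ax 5 14 16 20 4), .t 1 (nat_lit 0) (.ax 5 14 16 21 4), .t 1 (nat_lit 0) (.ax 5 14 16 22 4), .t 1 (nat_lit 0) (.ax 5 14 17 21 4), .t 1 (nat_lit 0) (.ax 5 14 18 21 4), .t 1 (nat_lit 0) (.ax 5 14 19 21 4), .t 1 (nat_lit 0) (.ax 5 14 20 21 4), .t 1 (nat_lit 0) (.ax 5 14 21 22 5), .t 1 (nat_lit 0) (.ax 5 15 17 21 0), .t 1 (nat_lit 0) (.ax 5 15 18 21 0), .t 1 (nat_lit 0) (.ax 5 15 21 22 5)] (by decide +kernel) (by decide +kernel)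
theorem b20 : B 640 672 := Blk.of_chk [.t 1 (nat_lit 0) (.ax 5 16 17 22 0), .t 1 (nat_lit 0) (.ax 5 16 18 22 0), .t 1 (nat_lit 0) (.ax 5 16 19 21 0), .t 1 (nat_lit 0) (.ax 5 17 21 22 5), .t 1 (nat_lit 0) (.ax 5 18 21 22 5), .t 1 (nat_lit 0) (.ax 5 19 20 21 0), .t 1 (nat_lit 0) (.ax 6 7 8 10 2), .t 1 (nat_lit 0) (.ax 6 7 8 10 4), .t 1 (nat_lit 0) (.ax 6 7 9 10 0), .t 1 (nat_lit 0) (.ax 6 7 9 11 0), .t 1 (nat_lit 0) (.ax 6 7 9 13 0), .t 1 (nat_lit 0) (.ax 6 7 9 14 0), .t 1 (nat_lit 0) (.ax 6 7 9 15 0), .t 1 (nat_lit 0) (.ax 6 7 9 17 0), .t 1 (nat_lit 0) (.ax 6 7 9 18 0), .t 1 (nat_lit 0) (.ax 6 7 9 19 0), .t 1 (nat_lit 0) (.ax 6 7 9 20 0), .t 1 (nat_lit 0) (.ax 6 7 9 21 0), .t 1 (nat_lit 0) (.ax 6 7 9 22 0), .t 1 (nat_lit 0) (.ax 6 7 10 12 0), .t 1 (nat_lit 0) (.ax 6 7 10 12 5), .t 1 (nat_lit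 0) (.ax 6 7 10 13 0), .t 1 (nat_lit 0) (.ax 6 7 11 12 0), .t 1 (nat_lit 0) (.ax 6 7 11 15 0), .t 1 (nat_lit 0) (.ax 6 7 11 16 0), .t 1 (nat_lit 0) (.ax 6 7 12 13 2), .t 1 (nat_lit 0) (.ax 6 7 12 13 4), .t 1 (nat_lit 0) (.ax 6 7 12 14 4), .t 1 (nat_lit 0) (.ax 6 7 14 15 0), .t 1 (nat_lit 0) (.ax 6 8 9 11 2), .t 1 (nat_lit 0) (.ax 6 8 9 11 4), .t 1 (nat_lit 0) (.ax 6 8 9 12 4)] (by decide +kernel) (by decide +kernel)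
theorem b21 : B 672 704 := Blk.of_chk [.t 1 (nat_lit 0) (.ax 6 8 9 13 4), .t 1 (nat_lit 0) (.ax 6 8 9 14 4), .t 1 (nat_lit 0) (.ax 6 8 9 21 4), .t 1 (nat_lit 0) (.ax 6 8 10 11 0), .t 1 (nat_lit 0) (.ax 6 8 10 11 5), .t 1 (nat_lit 0) (.ax 6 9 10 11 0), .t 1 (nat_lit 0) (.ax 6 9 10 11 5), .t 1 (nat_lit 0) (.ax 6 9 10 22 0), .t 1 (nat_lit 0) (.ax 6 9 11 13 0), .t 1 (nat_lit 0) (.ax 6 9 11 13 2), .t 1 (nat_lit 0) (.ax 6 9 11 13 4), .t 1 (nat_lit 0) (.ax 6 9 11 14 0), .t 1 (nat_lit 0) (.ax 6 9 11 22 0), .t 1 (nat_lit 0) (.ax 6 9 12 13 0), .t 1 (nat_lit 0) (.ax 6 9 12 14 0), .t 1 (nat_lit 0) (.ax 6 9 12 15 0), .t 1 (nat_lit 0) (.ax 6 9 12 17 0), .t 1 (nat_lit 0) (.ax 6 9 12 18 0), .t 1 (nat_lit 0) (.ax 6 9 12 19 0), .t 1 (nat_lit 0) (.ax 6 9 12 20 0), .t 1 (nat_lit 0) (.ax 6 9 12 21 0), .t 1 (nat_lit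 0) (.ax 6 9 12 22 0), .t 1 (nat_lit 0) (.ax 6 9 13 22 0), .t 1 (nat_lit 0) (.ax 6 9 14 22 0), .t 1 (nat_lit 0) (.ax 6 10 11 15 3), .t 1 (nat_lit 0) (.ax 6 10 12 13 1), .t 1 (nat_lit 0) (.ax 6 10 12 13 4), .t 1 (nat_lit 0) (.ax 6 10 12 19 4), .t 1 (nat_lit 0) (.ax 6 11 12 13 2), .t 1 (nat_lit 0) (.ax 6 11 12 13 4), .t 1 (nat_lit 0) (.ax 6 11 12 14 4), .t 1 (nat_lit 0) (.ax 6 11 12 21 4)] (by decide +kernel) (by decide +kernel)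
theorem b22 : B 704 736 := Blk.of_chk [.t 1 (nat_lit 0) (.ax 6 11 13 14 0), .t 1 (nat_lit 0) (.ax 6 11 13 14 2), .t 1 (nat_lit 0) (.ax 6 11 14 15 2), .t 1 (nat_lit 0) (.ax 6 11 14 21 2), .t 1 (nat_lit 0) (.ax 6 11 16 21 4), .t 1 (nat_lit 0) (.ax 6 12 13 14 2), .t 1 (nat_lit 0) (.ax 6 12 13 14 4), .t 1 (nat_lit 0) (.ax 6 12 13 15 0), .t 1 (nat_lit 0) (.ax 6 12 13 22 0), .t 1 (nat_lit 0) (.ax 6 12 14 22 0), .t 1 (nat_lit 0) (.ax 6 12 15 22 0), .t 1 (nat_lit 0) (.ax 6 12 16 21 0), .t 1 (nat_lit 0) (.ax 6 12 16 22 0), .t 1 (nat_lit 0) (.ax 6 13 14 15 3), .t 1 (nat_lit 0) (.ax 6 13 14 15 5), .t 1 (nat_lit 0) (.ax 6 13 14 21 2), .t 1 (nat_lit 0) (.ax 6 13 14 21 4), .t 1 (nat_lit 0) (.ax 6 13 14 22 5), .t 1 (nat_lit 0) (.ax 6 13 21 22 5), .t 1 (nat_lit 0) (.ax 6 14 21 22 5), .t 1 (nat_lit 0) (.ax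 6 15 17 21 0), .t 1 (nat_lit 0) (.ax 6 15 18 21 0), .t 1 (nat_lit 0) (.ax 6 15 21 22 5), .t 1 (nat_lit 0) (.ax 6 16 17 22 0), .t 1 (nat_lit 0) (.ax 6 16 18 22 0), .t 1 (nat_lit 0) (.ax 6 16 19 21 0), .t 1 (nat_lit 0) (.ax 6 17 21 22 5), .t 1 (nat_lit 0) (.ax 6 18 21 22 5), .t 1 (nat_lit 0) (.ax 6 19 20 21 0), .t 1 (nat_lit 0) (.ax 7 8 9 10 3), .t 1 (nat_lit 0) (.ax 7 8 9 11 3), .t 1 (nat_lit 0) (.ax 7 8 9 13 3)] (by decide +kernel) (by decide +kernel)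
theorem b23 : B 736 768 := Blk.of_chk [.t 1 (nat_lit 0) (.ax 7 8 9 14 3), .t 1 (nat_lit 0) (.ax 7 8 9 15 3), .t 1 (nat_lit 0) (.ax 7 8 9 17 3), .t 1 (nat_lit 0) (.ax 7 8 9 18 3), .t 1 (nat_lit 0) (.ax 7 8 9 19 3), .t 1 (nat_lit 0) (.ax 7 8 9 20 3), .t 1 (nat_lit 0) (.ax 7 8 9 21 3), .t 1 (nat_lit 0) (.ax 7 8 9 22 3), .t 1 (nat_lit 0) (.ax 7 8 10 12 0), .t 1 (nat_lit 0) (.ax 7 8 10 13 0), .t 1 (nat_lit 0) (.ax 7 8 10 13 2), .t 1 (nat_lit 0) (.ax 7 8 10 14 0), .t 1 (nat_lit 0) (.ax 7 8 10 14 2), .t 1 (nat_lit 0) (.ax 7 8 10 15 2), .t 1 (nat_lit 0) (.ax 7 8 11 12 2), .t 1 (nat_lit 0) (.ax 7 8 11 12 4), .t 1 (nat_lit 0) (.ax 7 8 11 12 6), .t 1 (nat_lit 0) (.ax 7 8 11 13 2), .t 1 (nat_lit 0) (.ax 7 8 11 13 6), .t 1 (nat_lit 0) (.ax 7 8 11 14 2), .t 1 (nat_lit 0) (.ax 7 8 11 14 6), .t 1 (nat_lit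 0) (.ax 7 8 11 15 6), .t 1 (nat_lit 0) (.ax 7 8 11 16 2), .t 1 (nat_lit 0) (.ax 7 8 11 16 6), .t 1 (nat_lit 0) (.ax 7 8 13 16 0), .t 1 (nat_lit 0) (.ax 7 9 12 13 0), .t 1 (nat_lit 0) (.ax 7 9 12 14 0), .t 1 (nat_lit 0) (.ax 7 9 12 15 0), .t 1 (nat_lit 0) (.ax 7 9 12 17 0), .t 1 (nat_lit 0) (.ax 7 9 12 18 0), .t 1 (nat_lit 0) (.ax 7 9 12 20 0), .t 1 (nat_lit 0) (.ax 7 9 12 21 0)] (by decide +kernel) (by decide +kernel)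
theorem b24 : B 768 800 := Blk.of_chk [.t 1 (nat_lit 0) (.ax 7 9 12 22 0), .t 1 (nat_lit 0) (.ax 7 9 14 16 0), .t 1 (nat_lit 0) (.ax 7 9 14 22 0), .t 1 (nat_lit 0) (.ax 7 9 15 16 0), .t 1 (nat_lit 0) (.ax 7 10 11 12 1), .t 1 (nat_lit 0) (.ax 7 10 11 12 4), .t 1 (nat_lit 0) (.ax 7 10 11 12 6), .t 1 (nat_lit 0) (.ax 7 10 13 14 2), .t 1 (nat_lit 0) (.ax 7 10 13 14 4), .t 1 (nat_lit 0) (.ax 7 10 13 15 2), .t 1 (nat_lit 0) (.ax 7 10 13 15 4), .t 1 (nat_lit 0) (.ax 7 10 13 16 0), .t 1 (nat_lit 0) (.ax 7 10 13 16 2), .t 1 (nat_lit 0) (.ax 7 10 13 16 4), .t 1 (nat_lit 0) (.ax 7 10 13 16 6), .t 1 (nat_lit 0) (.ax 7 10 13 22 4), .t 1 (nat_lit 0) (.ax 7 10 14 16 2), .t 1 (nat_lit 0) (.ax 7 10 14 16 4), .t 1 (nat_lit 0) (.ax 7 10 14 16 6), .t 1 (nat_lit 0) (.ax 7 10 14 16 7), .t 1 (nat_lit 0) (.ax 7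 10 14 22 4), .t 1 (nat_lit 0) (.ax 7 10 15 16 0), .t 1 (nat_lit 0) (.ax 7 10 15 16 6), .t 1 (nat_lit 0) (.ax 7 10 15 16 7), .t 1 (nat_lit 0) (.ax 7 11 12 13 4), .t 1 (nat_lit 0) (.ax 7 11 12 14 4), .t 1 (nat_lit 0) (.ax 7 11 12 15 4), .t 1 (nat_lit 0) (.ax 7 11 12 16 4), .t 1 (nat_lit 0) (.ax 7 11 12 16 6), .t 1 (nat_lit 0) (.ax 7 11 12 17 4), .t 1 (nat_lit 0) (.ax 7 11 12 18 4), .t 1 (nat_lit 0) (.ax 7 11 12 19 4)] (by decide +kernel) (by decide +kernel)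
theorem b25 : B 800 832 := Blk.of_chk [.t 1 (nat_lit 0) (.ax 7 11 12 20 4), .t 1 (nat_lit 0) (.ax 7 11 12 21 4), .t 1 (nat_lit 0) (.ax 7 11 12 22 4), .t 1 (nat_lit 0) (.ax 7 11 13 14 2), .t 1 (nat_lit 0) (.ax 7 11 13 15 0), .t 1 (nat_lit 0) (.ax 7 11 13 15 2), .t 1 (nat_lit 0) (.ax 7 11 14 15 2), .t 1 (nat_lit 0) (.ax 7 11 14 16 1), .t 1 (nat_lit 0) (.ax 7 11 14 21 2), .t 1 (nat_lit 0) (.ax 7 11 15 16 7), .t 1 (nat_lit 0) (.ax 7 11 16 17 4), .t 1 (nat_lit 0) (.ax 7 11 16 18 4), .t 1 (nat_lit 0) (.ax 7 11 16 19 4), .t 1 (nat_lit 0) (.ax 7 11 16 20 4), .t 1 (nat_lit 0) (.ax 7 11 16 21 4), .t 1 (nat_lit 0) (.ax 7 11 16 22 4), .t 1 (nat_lit 0) (.ax 7 12 13 14 2), .t 1 (nat_lit 0) (.ax 7 12 13 14 4), .t 1 (nat_lit 0) (.ax 7 12 13 15 0), .t 1 (nat_lit 0) (.ax 7 12 13 22 0), .t 1 (nat_lit 0) (.ax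 7 12 14 15 0), .t 1 (nat_lit 0) (.ax 7 12 14 22 0), .t 1 (nat_lit 0) (.ax 7 12 15 22 0), .t 1 (nat_lit 0) (.ax 7 12 16 17 0), .t 1 (nat_lit 0) (.ax 7 12 16 18 0), .t 1 (nat_lit 0) (.ax 7 12 16 20 0), .t 1 (nat_lit 0) (.ax 7 12 16 21 0), .t 1 (nat_lit 0) (.ax 7 12 16 22 0), .t 1 (nat_lit 0) (.ax 7 13 14 15 0), .t 1 (nat_lit 0) (.ax 7 13 14 15 7), .t 1 (nat_lit 0) (.ax 7 13 14 16 0), .t 1 (nat_lit 0) (.ax 7 13 14 16 1)] (by decide +kernel) (by decide +kernel)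
theorem b26 : B 832 864 := Blk.of_chk [.t 1 (nat_lit 0) (.ax 7 13 14 16 2), .t 1 (nat_lit 0) (.ax 7 13 14 16 4), .t 1 (nat_lit 0) (.ax 7 13 14 21 2), .t 1 (nat_lit 0) (.ax 7 13 14 22 5), .t 1 (nat_lit 0) (.ax 7 13 15 16 0), .t 1 (nat_lit 0) (.ax 7 13 15 16 1), .t 1 (nat_lit 0) (.ax 7 13 15 16 2), .t 1 (nat_lit 0) (.ax 7 13 15 16 3), .t 1 (nat_lit 0) (.ax 7 13 15 16 4), .t 1 (nat_lit 0) (.ax 7 13 15 16 6), .t 1 (nat_lit 0) (.ax 7 13 15 22 4), .t 1 (nat_lit 0) (.ax 7 13 15 22 5), .t 1 (nat_lit 0) (.ax 7 13 21 22 5), .t 1 (nat_lit 0) (.ax 7 14 15 16 0), .t 1 (nat_lit 0) (.ax 7 14 15 16 1), .t 1 (nat_lit 0) (.ax 7 14 15 16 3), .t 1 (nat_lit 0) (.ax 7 14 15 16 4), .t 1 (nat_lit 0) (.ax 7 14 15 16 6), .t 1 (nat_lit 0) (.ax 7 14 15 22 3), .t 1 (nat_lit 0) (.ax 7 14 15 22 5), .t 1 (nat_lit 0) (.ax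 7 14 16 17 4), .t 1 (nat_lit 0) (.ax 7 14 16 19 4), .t 1 (nat_lit 0) (.ax 7 14 16 21 4), .t 1 (nat_lit 0) (.ax 7 14 21 22 5), .t 1 (nat_lit 0) (.ax 7 16 19 21 0), .t 1 (nat_lit 0) (.ax 8 9 10 11 0), .t 1 (nat_lit 0) (.ax 8 9 10 11 2), .t 1 (nat_lit 0) (.ax 8 9 10 11 4), .t 1 (nat_lit 0) (.ax 8 9 10 11 5), .t 1 (nat_lit 0) (.ax 8 9 10 13 0), .t 1 (nat_lit 0) (.ax 8 9 10 14 0), .t 1 (nat_lit 0) (.ax 8 9 11 13 0)] (by decide +kernel) (by decide +kernel)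
theorem b27 : B 864 896 := Blk.of_chk [.t 1 (nat_lit 0) (.ax 8 9 11 13 2), .t 1 (nat_lit 0) (.ax 8 9 11 13 4), .t 1 (nat_lit 0) (.ax 8 9 11 14 0), .t 1 (nat_lit 0) (.ax 8 9 11 14 2), .t 1 (nat_lit 0) (.ax 8 9 11 14 4), .t 1 (nat_lit 0) (.ax 8 9 11 15 4), .t 1 (nat_lit 0) (.ax 8 9 12 13 0), .t 1 (nat_lit 0) (.ax 8 9 12 14 0), .t 1 (nat_lit 0) (.ax 8 9 12 15 0), .t 1 (nat_lit 0) (.ax 8 9 12 17 0), .t 1 (nat_lit 0) (.ax 8 9 12 18 0), .t 1 (nat_lit 0) (.ax 8 9 12 19 0), .t 1 (nat_lit 0) (.ax 8 9 12 20 0), .t 1 (nat_lit 0) (.ax 8 9 12 21 0), .t 1 (nat_lit 0) (.ax 8 9 12 22 0), .t 1 (nat_lit 0) (.ax 8 9 13 14 0), .t 1 (nat_lit 0) (.ax 8 9 13 14 5), .t 1 (nat_lit 0) (.ax 8 9 14 22 0), .t 1 (nat_lit 0) (.ax 8 10 11 12 1), .t 1 (nat_lit 0) (.ax 8 10 11 12 4), .t 1 (nat_lit 0) (.ax 8 10 11 13 1),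 .t 1 (nat_lit 0) (.ax 8 10 11 13 4), .t 1 (nat_lit 0) (.ax 8 10 11 14 1), .t 1 (nat_lit 0) (.ax 8 10 11 14 4), .t 1 (nat_lit 0) (.ax 8 10 13 14 4), .t 1 (nat_lit 0) (.ax 8 10 13 15 4), .t 1 (nat_lit 0) (.ax 8 10 13 21 2), .t 1 (nat_lit 0) (.ax 8 10 13 21 4), .t 1 (nat_lit 0) (.ax 8 11 12 13 4), .t 1 (nat_lit 0) (.ax 8 11 12 14 4), .t 1 (nat_lit 0) (.ax 8 11 12 16 4), .t 1 (nat_lit 0) (.ax 8 11 13 14 0)] (by decide +kernel) (by decide +kernel)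
theorem b28 : B 896 928 := Blk.of_chk [.t 1 (nat_lit 0) (.ax 8 11 13 14 2), .t 1 (nat_lit 0) (.ax 8 11 13 14 4), .t 1 (nat_lit 0) (.ax 8 11 13 14 5), .t 1 (nat_lit 0) (.ax 8 11 13 15 2), .t 1 (nat_lit 0) (.ax 8 11 13 15 4), .t 1 (nat_lit 0) (.ax 8 11 13 22 2), .t 1 (nat_lit 0) (.ax 8 11 14 21 2), .t 1 (nat_lit 0) (.ax 8 12 13 22 0), .t 1 (nat_lit 0) (.ax 8 12 14 22 0), .t 1 (nat_lit 0) (.ax 8 12 16 21 0), .t 1 (nat_lit 0) (.ax 8 13 14 16 4), .t 1 (nat_lit 0) (.ax 8 13 14 21 2), .t 1 (nat_lit 0) (.ax 8 13 14 22 5), .t 1 (nat_lit 0) (.ax 8 13 21 22 5), .t 1 (nat_lit 0) (.ax 8 14 21 22 5), .t 1 (nat_lit 0) (.ax 8 16 19 21 0), .t 1 (nat_lit 0) (.ax 9 10 11 12 2), .t 1 (nat_lit 0) (.ax 9 10 11 13 3), .t 1 (nat_lit 0) (.ax 9 10 11 14 3), .t 1 (nat_lit 0) (.ax 9 10 11 15 3), .t 1 (nat_lit 0) (.ax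 9 10 11 22 4), .t 1 (nat_lit 0) (.ax 9 10 12 13 3), .t 1 (nat_lit 0) (.ax 9 10 12 14 3), .t 1 (nat_lit 0) (.ax 9 10 12 15 3), .t 1 (nat_lit 0) (.ax 9 10 12 17 3), .t 1 (nat_lit 0) (.ax 9 10 12 18 3), .t 1 (nat_lit 0) (.ax 9 10 12 19 3), .t 1 (nat_lit 0) (.ax 9 10 12 20 3), .t 1 (nat_lit 0) (.ax 9 10 12 21 3), .t 1 (nat_lit 0) (.ax 9 10 12 22 3), .t 1 (nat_lit 0) (.ax 9 10 15 22 4), .t 1 (nat_lit 0) (.ax 9 11 12 13 3)] (by decide +kernel) (by decide +kernel)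
theorem b29 : B 928 960 := Blk.of_chk [.t 1 (nat_lit 0) (.ax 9 11 12 14 3), .t 1 (nat_lit 0) (.ax 9 11 12 15 3), .t 1 (nat_lit 0) (.ax 9 11 12 17 3), .t 1 (nat_lit 0) (.ax 9 11 12 18 3), .t 1 (nat_lit 0) (.ax 9 11 12 19 3), .t 1 (nat_lit 0) (.ax 9 11 12 20 3), .t 1 (nat_lit 0) (.ax 9 11 12 21 3), .t 1 (nat_lit 0) (.ax 9 11 12 22 3), .t 1 (nat_lit 0) (.ax 9 11 13 14 0), .t 1 (nat_lit 0) (.ax 9 11 13 14 2), .t 1 (nat_lit 0) (.ax 9 11 13 14 4), .t 1 (nat_lit 0) (.ax 9 11 13 14 5), .t 1 (nat_lit 0) (.ax 9 11 13 15 2), .t 1 (nat_lit 0) (.ax 9 11 13 15 4), .t 1 (nat_lit 0) (.ax 9 11 13 16 2), .t 1 (nat_lit 0) (.ax 9 11 13 16 4), .t 1 (nat_lit 0) (.ax 9 11 13 19 2), .t 1 (nat_lit 0) (.ax 9 11 13 22 2), .t 1 (nat_lit 0) (.ax 9 11 14 15 2), .t 1 (nat_lit 0) (.ax 9 11 14 16 2), .t 1 (nat_lit 0) (.ax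 9 11 14 16 4), .t 1 (nat_lit 0) (.ax 9 11 14 17 6), .t 1 (nat_lit 0) (.ax 9 11 14 18 6), .t 1 (nat_lit 0) (.ax 9 11 14 19 0), .t 1 (nat_lit 0) (.ax 9 11 14 19 2), .t 1 (nat_lit 0) (.ax 9 11 14 19 4), .t 1 (nat_lit 0) (.ax 9 11 14 22 2), .t 1 (nat_lit 0) (.ax 9 11 14 22 4), .t 1 (nat_lit 0) (.ax 9 11 15 16 2), .t 1 (nat_lit 0) (.ax 9 11 15 16 6), .t 1 (nat_lit 0) (.ax 9 11 15 17 6), .t 1 (nat_lit 0) (.ax 9 11 15 18 6)] (by decide +kernel) (by decide +kernel)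
theorem b30 : B 960 992 := Blk.of_chk [.t 1 (nat_lit 0) (.ax 9 11 15 19 4), .t 1 (nat_lit 0) (.ax 9 11 15 19 6), .t 1 (nat_lit 0) (.ax 9 11 15 22 2), .t 1 (nat_lit 0) (.ax 9 11 17 18 6), .t 1 (nat_lit 0) (.ax 9 11 17 19 2), .t 1 (nat_lit 0) (.ax 9 11 18 19 6), .t 1 (nat_lit 0) (.ax 9 12 13 22 0), .t 1 (nat_lit 0) (.ax 9 12 14 17 0), .t 1 (nat_lit 0) (.ax 9 12 14 22 0), .t 1 (nat_lit 0) (.ax 9 12 15 17 0), .t 1 (nat_lit 0) (.ax 9 12 15 22 0), .t 1 (nat_lit 0) (.ax 9 12 16 18 0), .t 1 (nat_lit 0) (.ax 9 12 16 21 0), .t 1 (nat_lit 0) (.ax 9 12 18 19 0), .t 1 (nat_lit 0) (.ax 9 13 14 16 3), .t 1 (nat_lit 0) (.ax 9 13 14 19 1), .t 1 (nat_lit 0) (.ax 9 13 14 21 2), .t 1 (nat_lit 0) (.ax 9 13 14 22 5), .t 1 (nat_lit 0) (.ax 9 13 15 16 4), .t 1 (nat_lit 0) (.ax 9 13 21 22 5), .t 1 (nat_lit 0) (.ax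 9 14 15 16 4), .t 1 (nat_lit 0) (.ax 9 14 15 17 4), .t 1 (nat_lit 0) (.ax 9 14 15 19 2), .t 1 (nat_lit 0) (.ax 9 14 15 19 4), .t 1 (nat_lit 0) (.ax 9 14 15 22 1), .t 1 (nat_lit 0) (.ax 9 14 17 18 4), .t 1 (nat_lit 0) (.ax 9 14 17 18 6), .t 1 (nat_lit 0) (.ax 9 14 17 19 2), .t 1 (nat_lit 0) (.ax 9 14 18 19 1), .t 1 (nat_lit 0) (.ax 9 14 18 19 6), .t 1 (nat_lit 0) (.ax 9 14 18 22 5), .t 1 (nat_lit 0) (.ax 9 14 21 22 5)] (by decide +kernel) (by decide +kernel)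
theorem b31 : B 992 1024 := Blk.of_chk [.t 1 (nat_lit 0) (.ax 9 15 16 18 4), .t 1 (nat_lit 0) (.ax 9 15 16 19 4), .t 1 (nat_lit 0) (.ax 9 15 16 20 4), .t 1 (nat_lit 0) (.ax 9 15 17 19 1), .t 1 (nat_lit 0) (.ax 9 15 17 19 2), .t 1 (nat_lit 0) (.ax 9 15 17 19 4), .t 1 (nat_lit 0) (.ax 9 15 18 19 1), .t 1 (nat_lit 0) (.ax 9 15 18 22 5), .t 1 (nat_lit 0) (.ax 9 15 21 22 5), .t 1 (nat_lit 0) (.ax 9 16 17 18 0), .t 1 (nat_lit 0) (.ax 9 16 19 21 0), .t 1 (nat_lit 0) (.ax 9 17 18 19 1), .t 1 (nat_lit 0) (.ax 10 11 12 13 2), .t 1 (nat_lit 0) (.ax 10 11 12 13 4), .t 1 (nat_lit 0) (.ax 10 11 12 14 2), .t 1 (nat_lit 0) (.ax 10 11 12 14 4), .t 1 (nat_lit 0) (.ax 10 11 12 15 2), .t 1 (nat_lit 0) (.ax 10 11 12 15 4), .t 1 (nat_lit 0) (.ax 10 11 12 22 4), .t 1 (nat_lit 0) (.ax 10 11 13 14 0), .t 1 (nat_lit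 0) (.ax 10 11 13 14 2), .t 1 (nat_lit 0) (.ax 10 11 13 14 5), .t 1 (nat_lit 0) (.ax 10 11 13 15 0), .t 1 (nat_lit 0) (.ax 10 11 13 15 2), .t 1 (nat_lit 0) (.ax 10 11 13 15 5), .t 1 (nat_lit 0) (.ax 10 11 13 21 2), .t 1 (nat_lit 0) (.ax 10 11 13 22 2), .t 1 (nat_lit 0) (.ax 10 11 14 15 0), .t 1 (nat_lit 0) (.ax 10 11 14 15 2), .t 1 (nat_lit 0) (.ax 10 11 14 15 5), .t 1 (nat_lit 0) (.ax 10 11 14 21 2), .t 1 (nat_lit 0) (.ax 10 11 14 22 2)] (by decide +kernel) (by decide +kernel)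
theorem b32 : B 1024 1056 := Blk.of_chk [.t 1 (nat_lit 0) (.ax 10 12 13 14 0), .t 1 (nat_lit 0) (.ax 10 12 13 14 5), .t 1 (nat_lit 0) (.ax 10 12 13 15 0), .t 1 (nat_lit 0) (.ax 10 12 13 15 5), .t 1 (nat_lit 0) (.ax 10 12 13 22 0), .t 1 (nat_lit 0) (.ax 10 12 14 15 0), .t 1 (nat_lit 0) (.ax 10 12 14 15 5), .t 1 (nat_lit 0) (.ax 10 12 14 22 0), .t 1 (nat_lit 0) (.ax 10 12 15 22 0), .t 1 (nat_lit 0) (.ax 10 12 16 21 0), .t 1 (nat_lit 0) (.ax 10 12 16 22 0), .t 1 (nat_lit 0) (.ax 10 13 14 16 2), .t 1 (nat_lit 0) (.ax 10 13 14 16 4), .t 1 (nat_lit 0) (.ax 10 13 14 21 2), .t 1 (nat_lit 0) (.ax 10 13 14 21 4), .t 1 (nat_lit 0) (.ax 10 13 14 22 5), .t 1 (nat_lit 0) (.ax 10 13 15 16 4), .t 1 (nat_lit 0) (.ax 10 13 15 22 0), .t 1 (nat_lit 0) (.ax 10 13 21 22 5), .t 1 (nat_lit 0) (.ax 10 14 15 16 2),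 .t 1 (nat_lit 0) (.ax 10 14 15 16 4), .t 1 (nat_lit 0) (.ax 10 14 15 22 5), .t 1 (nat_lit 0) (.ax 10 14 21 22 5), .t 1 (nat_lit 0) (.ax 10 16 19 21 0), .t 1 (nat_lit 0) (.ax 11 12 13 14 0), .t 1 (nat_lit 0) (.ax 11 12 13 14 5), .t 1 (nat_lit 0) (.ax 11 12 13 15 0), .t 1 (nat_lit 0) (.ax 11 12 13 15 2), .t 1 (nat_lit 0) (.ax 11 12 13 15 4), .t 1 (nat_lit 0) (.ax 11 12 13 15 5), .t 1 (nat_lit 0) (.ax 11 12 13 18 0), .t 1 (nat_lit 0) (.ax 11 12 13 22 0)] (by decide +kernel) (by decide +kernel)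
theorem b33 : B 1056 1088 := Blk.of_chk [.t 1 (nat_lit 0) (.ax 11 12 14 15 0), .t 1 (nat_lit 0) (.ax 11 12 14 15 2), .t 1 (nat_lit 0) (.ax 11 12 14 15 4), .t 1 (nat_lit 0) (.ax 11 12 14 15 5), .t 1 (nat_lit 0) (.ax 11 12 14 22 0), .t 1 (nat_lit 0) (.ax 11 12 15 22 0), .t 1 (nat_lit 0) (.ax 11 12 16 17 0), .t 1 (nat_lit 0) (.ax 11 12 16 18 0), .t 1 (nat_lit 0) (.ax 11 12 16 20 0), .t 1 (nat_lit 0) (.ax 11 12 16 21 0), .t 1 (nat_lit 0) (.ax 11 12 16 22 0), .t 1 (nat_lit 0) (.ax 11 13 14 15 0), .t 1 (nat_lit 0) (.ax 11 13 14 15 1), .t 1 (nat_lit 0) (.ax 11 13 14 15 3), .t 1 (nat_lit 0) (.ax 11 13 14 15 4), .t 1 (nat_lit 0) (.ax 11 13 14 15 5), .t 1 (nat_lit 0) (.ax 11 13 14 16 2), .t 1 (nat_lit 0) (.ax 11 13 14 19 2), .t 1 (nat_lit 0) (.ax 11 13 14 19 7), .t 1 (nat_lit 0) (.ax 11 13 14 21 1),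 .t 1 (nat_lit 0) (.ax 11 13 14 21 2), .t 1 (nat_lit 0) (.ax 11 13 14 21 4), .t 1 (nat_lit 0) (.ax 11 13 14 22 0), .t 1 (nat_lit 0) (.ax 11 13 14 22 1), .t 1 (nat_lit 0) (.ax 11 13 14 22 2), .t 1 (nat_lit 0) (.ax 11 13 14 22 4), .t 1 (nat_lit 0) (.ax 11 13 14 22 5), .t 1 (nat_lit 0) (.ax 11 13 15 16 0), .t 1 (nat_lit 0) (.ax 11 13 15 16 4), .t 1 (nat_lit 0) (.ax 11 13 15 18 4), .t 1 (nat_lit 0) (.ax 11 13 15 18 5), .t 1 (nat_lit 0) (.ax 11 13 15 19 4)] (by decide +kernel) (by decide +kernel)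
theorem b34 : B 1088 1120 := Blk.of_chk [.t 1 (nat_lit 0) (.ax 11 13 15 21 3), .t 1 (nat_lit 0) (.ax 11 13 15 21 4), .t 1 (nat_lit 0) (.ax 11 13 15 22 2), .t 1 (nat_lit 0) (.ax 11 13 15 22 4), .t 1 (nat_lit 0) (.ax 11 13 15 22 6), .t 1 (nat_lit 0) (.ax 11 13 16 19 4), .t 1 (nat_lit 0) (.ax 11 13 17 19 0), .t 1 (nat_lit 0) (.ax 11 13 19 22 4), .t 1 (nat_lit 0) (.ax 11 13 21 22 5), .t 1 (nat_lit 0) (.ax 11 14 15 16 0), .t 1 (nat_lit 0) (.ax 11 14 15 16 4), .t 1 (nat_lit 0) (.ax 11 14 15 17 4), .t 1 (nat_lit 0) (.ax 11 14 15 19 4), .t 1 (nat_lit 0) (.ax 11 14 15 21 4), .t 1 (nat_lit 0) (.ax 11 14 15 21 6), .t 1 (nat_lit 0) (.ax 11 14 15 22 2), .t 1 (nat_lit 0) (.ax 11 14 15 22 4), .t 1 (nat_lit 0) (.ax 11 14 16 19 4), .t 1 (nat_lit 0) (.ax 11 14 17 19 0), .t 1 (nat_lit 0) (.ax 11 14 20 21 4),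 .t 1 (nat_lit 0) (.ax 11 14 20 22 4), .t 1 (nat_lit 0) (.ax 11 14 21 22 5), .t 1 (nat_lit 0) (.ax 11 15 17 19 1), .t 1 (nat_lit 0) (.ax 11 15 21 22 5), .t 1 (nat_lit 0) (.ax 11 16 19 21 0), .t 1 (nat_lit 0) (.ax 12 13 14 15 0), .t 1 (nat_lit 0) (.ax 12 13 14 15 1), .t 1 (nat_lit 0) (.ax 12 13 14 15 2), .t 1 (nat_lit 0) (.ax 12 13 14 15 4), .t 1 (nat_lit 0) (.ax 12 13 14 15 5), .t 1 (nat_lit 0) (.ax 12 13 14 15 6), .t 1 (nat_lit 0) (.ax 12 13 14 15 7)] (by decide +kernel) (by decide +kernel)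
theorem b35 : B 1120 1152 := Blk.of_chk [.t 1 (nat_lit 0) (.ax 12 13 14 16 2), .t 1 (nat_lit 0) (.ax 12 13 14 17 2), .t 1 (nat_lit 0) (.ax 12 13 14 19 0), .t 1 (nat_lit 0) (.ax 12 13 14 19 1), .t 1 (nat_lit 0) (.ax 12 13 14 21 2), .t 1 (nat_lit 0) (.ax 12 13 14 21 3), .t 1 (nat_lit 0) (.ax 12 13 14 22 0), .t 1 (nat_lit 0) (.ax 12 13 14 22 1), .t 1 (nat_lit 0) (.ax 12 13 14 22 2), .t 1 (nat_lit 0) (.ax 12 13 14 22 4), .t 1 (nat_lit 0) (.ax 12 13 14 22 5), .t 1 (nat_lit 0) (.ax 12 13 14 22 6), .t 1 (nat_lit 0) (.ax 12 13 14 22 7), .t 1 (nat_lit 0) (.ax 12 13 15 17 3), .t 1 (nat_lit 0) (.ax 12 13 15 17 7), .t 1 (nat_lit 0) (.ax 12 13 15 19 2), .t 1 (nat_lit 0) (.ax 12 13 15 19 7), .t 1 (nat_lit 0) (.ax 12 13 15 21 3), .t 1 (nat_lit 0) (.ax 12 13 15 22 0), .t 1 (nat_lit 0) (.ax 12 13 15 22 1),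 .t 1 (nat_lit 0) (.ax 12 13 15 22 2), .t 1 (nat_lit 0) (.ax 12 13 15 22 3), .t 1 (nat_lit 0) (.ax 12 13 15 22 4), .t 1 (nat_lit 0) (.ax 12 13 15 22 5), .t 1 (nat_lit 0) (.ax 12 13 15 22 6), .t 1 (nat_lit 0) (.ax 12 13 15 22 7), .t 1 (nat_lit 0) (.ax 12 13 16 17 3), .t 1 (nat_lit 0) (.ax 12 13 16 18 3), .t 1 (nat_lit 0) (.ax 12 13 16 20 3), .t 1 (nat_lit 0) (.ax 12 13 16 21 3), .t 1 (nat_lit 0) (.ax 12 13 16 22 3), .t 1 (nat_lit 0) (.ax 12 13 17 21 4)] (by decide +kernel) (by decide +kernel)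
theorem b36 : B 1152 1184 := Blk.of_chk [.t 1 (nat_lit 0) (.ax 12 13 17 22 0), .t 1 (nat_lit 0) (.ax 12 13 17 22 1), .t 1 (nat_lit 0) (.ax 12 13 17 22 4), .t 1 (nat_lit 0) (.ax 12 13 17 22 6), .t 1 (nat_lit 0) (.ax 12 13 18 19 3), .t 1 (nat_lit 0) (.ax 12 13 18 21 3), .t 1 (nat_lit 0) (.ax 12 13 18 22 1), .t 1 (nat_lit 0) (.ax 12 13 18 22 4), .t 1 (nat_lit 0) (.ax 12 13 18 22 6), .t 1 (nat_lit 0) (.ax 12 13 18 22 7), .t 1 (nat_lit 0) (.ax 12 13 19 22 4), .t 1 (nat_lit 0) (.ax 12 13 20 22 4), .t 1 (nat_lit 0) (.ax 12 13 21 22 5), .t 1 (nat_lit 0) (.ax 12 14 15 16 2), .t 1 (nat_lit 0) (.ax 12 14 15 17 2), .t 1 (nat_lit 0) (.ax 12 14 15 17 3), .t 1 (nat_lit 0) (.ax 12 14 15 17 5), .t 1 (nat_lit 0) (.ax 12 14 15 17 6), .t 1 (nat_lit 0) (.ax 12 14 15 19 2), .t 1 (nat_lit 0) (.ax 12 14 15 21 0),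 .t 1 (nat_lit 0) (.ax 12 14 15 21 3), .t 1 (nat_lit 0) (.ax 12 14 15 22 0), .t 1 (nat_lit 0) (.ax 12 14 15 22 1), .t 1 (nat_lit 0) (.ax 12 14 15 22 2), .t 1 (nat_lit 0) (.ax 12 14 15 22 3), .t 1 (nat_lit 0) (.ax 12 14 15 22 4), .t 1 (nat_lit 0) (.ax 12 14 15 22 5), .t 1 (nat_lit 0) (.ax 12 14 15 22 6), .t 1 (nat_lit 0) (.ax 12 14 15 22 7), .t 1 (nat_lit 0) (.ax 12 14 16 17 3), .t 1 (nat_lit 0) (.ax 12 14 16 18 3), .t 1 (nat_lit 0) (.ax 12 14 16 20 3)] (by decide +kernel) (by decide +kernel)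
theorem b37 : B 1184 1216 := Blk.of_chk [.t 1 (nat_lit 0) (.ax 12 14 16 21 3), .t 1 (nat_lit 0) (.ax 12 14 16 22 3), .t 1 (nat_lit 0) (.ax 12 14 17 19 0), .t 1 (nat_lit 0) (.ax 12 14 17 19 1), .t 1 (nat_lit 0) (.ax 12 14 17 19 2), .t 1 (nat_lit 0) (.ax 12 14 17 19 6), .t 1 (nat_lit 0) (.ax 12 14 17 22 1), .t 1 (nat_lit 0) (.ax 12 14 17 22 4), .t 1 (nat_lit 0) (.ax 12 14 17 22 5), .t 1 (nat_lit 0) (.ax 12 14 17 22 6), .t 1 (nat_lit 0) (.ax 12 14 17 22 7), .t 1 (nat_lit 0) (.ax 12 14 18 19 3), .t 1 (nat_lit 0) (.ax 12 14 18 22 0), .t 1 (nat_lit 0) (.ax 12 14 18 22 1), .t 1 (nat_lit 0) (.ax 12 14 18 22 4), .t 1 (nat_lit 0) (.ax 12 14 19 22 4), .t 1 (nat_lit 0) (.ax 12 14 20 22 4), .t 1 (nat_lit 0) (.ax 12 14 21 22 5), .t 1 (nat_lit 0) (.ax 12 15 16 17 3), .t 1 (nat_lit 0) (.ax 12 15 16 18 3),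 .t 1 (nat_lit 0) (.ax 12 15 16 20 3), .t 1 (nat_lit 0) (.ax 12 15 16 21 3), .t 1 (nat_lit 0) (.ax 12 15 16 22 3), .t 1 (nat_lit 0) (.ax 12 15 17 19 1), .t 1 (nat_lit 0) (.ax 12 15 17 19 2), .t 1 (nat_lit 0) (.ax 12 15 17 19 4), .t 1 (nat_lit 0) (.ax 12 15 17 21 2), .t 1 (nat_lit 0) (.ax 12 15 17 22 0), .t 1 (nat_lit 0) (.ax 12 15 17 22 1), .t 1 (nat_lit 0) (.ax 12 15 17 22 4), .t 1 (nat_lit 0) (.ax 12 15 17 22 6), .t 1 (nat_lit 0) (.ax 12 15 18 19 1)] (by decide +kernel) (by decide +kernel)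
theorem b38 : B 1216 1248 := Blk.of_chk [.t 1 (nat_lit 0) (.ax 12 15 18 19 3), .t 1 (nat_lit 0) (.ax 12 15 18 21 0), .t 1 (nat_lit 0) (.ax 12 15 18 22 0), .t 1 (nat_lit 0) (.ax 12 15 18 22 1), .t 1 (nat_lit 0) (.ax 12 15 18 22 4), .t 1 (nat_lit 0) (.ax 12 15 18 22 6), .t 1 (nat_lit 0) (.ax 12 15 19 22 4), .t 1 (nat_lit 0) (.ax 12 15 21 22 5), .t 1 (nat_lit 0) (.ax 12 16 17 18 0), .t 1 (nat_lit 0) (.ax 12 16 17 22 0), .t 1 (nat_lit 0) (.ax 12 16 18 22 0), .t 1 (nat_lit 0) (.ax 12 16 19 21 0), .t 1 (nat_lit 0) (.ax 12 17 18 19 1), .t 1 (nat_lit 0) (.ax 12 17 18 19 6), .t 1 (nat_lit 0) (.ax 12 17 19 20 4), .t 1 (nat_lit 0) (.ax 12 18 19 22 4), .t 1 (nat_lit 0) (.ax 13 14 15 16 0), .t 1 (nat_lit 0) (.ax 13 14 15 16 1), .t 1 (nat_lit 0) (.ax 13 14 15 16 2), .t 1 (nat_lit 0) (.ax 13 14 15 16 4),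 .t 1 (nat_lit 0) (.ax 13 14 15 16 5), .t 1 (nat_lit 0) (.ax 13 14 15 17 3), .t 1 (nat_lit 0) (.ax 13 14 15 17 4), .t 1 (nat_lit 0) (.ax 13 14 15 17 5), .t 1 (nat_lit 0) (.ax 13 14 15 18 3), .t 1 (nat_lit 0) (.ax 13 14 15 18 4), .t 1 (nat_lit 0) (.ax 13 14 15 18 5), .t 1 (nat_lit 0) (.ax 13 14 15 18 7), .t 1 (nat_lit 0) (.ax 13 14 15 19 0), .t 1 (nat_lit 0) (.ax 13 14 15 19 2), .t 1 (nat_lit 0) (.ax 13 14 15 19 4), .t 1 (nat_lit 0) (.ax 13 14 15 20 4)] (by decide +kernel) (by decide +kernel)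
theorem b39 : B 1248 1280 := Blk.of_chk [.t 1 (nat_lit 0) (.ax 13 14 15 22 0), .t 1 (nat_lit 0) (.ax 13 14 15 22 1), .t 1 (nat_lit 0) (.ax 13 14 15 22 3), .t 1 (nat_lit 0) (.ax 13 14 15 22 4), .t 1 (nat_lit 0) (.ax 13 14 15 22 5), .t 1 (nat_lit 0) (.ax 13 14 15 22 6), .t 1 (nat_lit 0) (.ax 13 14 16 17 1), .t 1 (nat_lit 0) (.ax 13 14 16 17 2), .t 1 (nat_lit 0) (.ax 13 14 16 17 4), .t 1 (nat_lit 0) (.ax 13 14 16 18 1), .t 1 (nat_lit 0) (.ax 13 14 16 18 2), .t 1 (nat_lit 0) (.ax 13 14 16 18 4), .t 1 (nat_lit 0) (.ax 13 14 16 19 4), .t 1 (nat_lit 0) (.ax 13 14 16 20 4), .t 1 (nat_lit 0) (.ax 13 14 16 21 4), .t 1 (nat_lit 0) (.ax 13 14 16 22 4), .t 1 (nat_lit 0) (.ax 13 14 17 18 0), .t 1 (nat_lit 0) (.ax 13 14 17 18 1), .t 1 (nat_lit 0) (.ax 13 14 17 18 3), .t 1 (nat_lit 0) (.ax 13 14 17 18 4),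 .t 1 (nat_lit 0) (.ax 13 14 17 18 5), .t 1 (nat_lit 0) (.ax 13 14 17 19 0), .t 1 (nat_lit 0) (.ax 13 14 17 19 1), .t 1 (nat_lit 0) (.ax 13 14 17 19 2), .t 1 (nat_lit 0) (.ax 13 14 17 19 3), .t 1 (nat_lit 0) (.ax 13 14 17 20 0), .t 1 (nat_lit 0) (.ax 13 14 17 20 2), .t 1 (nat_lit 0) (.ax 13 14 17 22 0), .t 1 (nat_lit 0) (.ax 13 14 17 22 4), .t 1 (nat_lit 0) (.ax 13 14 17 22 6), .t 1 (nat_lit 0) (.ax 13 14 18 19 0), .t 1 (nat_lit 0) (.ax 13 14 18 19 1)] (by decide +kernel) (by decide +kernel)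
theorem b40 : B 1280 1312 := Blk.of_chk [.t 1 (nat_lit 0) (.ax 13 14 18 20 2), .t 1 (nat_lit 0) (.ax 13 14 18 21 2), .t 1 (nat_lit 0) (.ax 13 14 18 22 2), .t 1 (nat_lit 0) (.ax 13 14 18 22 4), .t 1 (nat_lit 0) (.ax 13 14 18 22 5), .t 1 (nat_lit 0) (.ax 13 14 19 20 4), .t 1 (nat_lit 0) (.ax 13 14 19 22 4), .t 1 (nat_lit 0) (.ax 13 14 21 22 5), .t 1 (nat_lit 0) (.ax 13 15 16 17 1), .t 1 (nat_lit 0) (.ax 13 15 16 17 2), .t 1 (nat_lit 0) (.ax 13 15 16 17 4), .t 1 (nat_lit 0) (.ax 13 15 16 18 1), .t 1 (nat_lit 0) (.ax 13 15 16 18 2), .t 1 (nat_lit 0) (.ax 13 15 16 18 4), .t 1 (nat_lit 0) (.ax 13 15 16 22 4), .t 1 (nat_lit 0) (.ax 13 15 17 18 0), .t 1 (nat_lit 0) (.ax 13 15 17 18 1), .t 1 (nat_lit 0) (.ax 13 15 17 18 3), .t 1 (nat_lit 0) (.ax 13 15 17 18 5), .t 1 (nat_lit 0) (.ax 13 15 17 18 6),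 .t 1 (nat_lit 0) (.ax 13 15 17 19 1), .t 1 (nat_lit 0) (.ax 13 15 17 19 2), .t 1 (nat_lit 0) (.ax 13 15 17 19 3), .t 1 (nat_lit 0) (.ax 13 15 17 19 4), .t 1 (nat_lit 0) (.ax 13 15 17 19 6), .t 1 (nat_lit 0) (.ax 13 15 17 21 0), .t 1 (nat_lit 0) (.ax 13 15 17 21 2), .t 1 (nat_lit 0) (.ax 13 15 17 22 4), .t 1 (nat_lit 0) (.ax 13 15 17 22 5), .t 1 (nat_lit 0) (.ax 13 15 18 19 0), .t 1 (nat_lit 0) (.ax 13 15 18 19 1), .t 1 (nat_lit 0) (.ax 13 15 18 19 2)] (by decide +kernel) (by decide +kernel)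
theorem b41 : B 1312 1344 := Blk.of_chk [.t 1 (nat_lit 0) (.ax 13 15 18 21 2), .t 1 (nat_lit 0) (.ax 13 15 18 22 0), .t 1 (nat_lit 0) (.ax 13 15 18 22 4), .t 1 (nat_lit 0) (.ax 13 15 18 22 5), .t 1 (nat_lit 0) (.ax 13 15 19 22 4), .t 1 (nat_lit 0) (.ax 13 15 21 22 5), .t 1 (nat_lit 0) (.ax 13 16 17 18 0), .t 1 (nat_lit 0) (.ax 13 16 17 18 2), .t 1 (nat_lit 0) (.ax 13 16 17 18 4), .t 1 (nat_lit 0) (.ax 13 16 17 18 5), .t 1 (nat_lit 0) (.ax 13 16 17 22 0), .t 1 (nat_lit 0) (.ax 13 16 18 22 0), .t 1 (nat_lit 0) (.ax 13 16 19 21 0), .t 1 (nat_lit 0) (.ax 13 17 18 19 1), .t 1 (nat_lit 0) (.ax 13 17 18 22 4), .t 1 (nat_lit 0) (.ax 13 17 19 21 4), .t 1 (nat_lit 0) (.ax 13 17 19 22 4), .t 1 (nat_lit 0) (.ax 13 17 20 22 4), .t 1 (nat_lit 0) (.ax 13 17 21 22 5), .t 1 (nat_lit 0) (.ax 13 18 19 20 4),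 .t 1 (nat_lit 0) (.ax 13 18 19 22 4), .t 1 (nat_lit 0) (.ax 13 18 19 22 6), .t 1 (nat_lit 0) (.ax 13 18 20 22 4), .t 1 (nat_lit 0) (.ax 13 18 21 22 5), .t 1 (nat_lit 0) (.ax 13 19 20 21 0), .t 1 (nat_lit 0) (.ax 13 20 21 22 5), .t 1 (nat_lit 0) (.ax 14 15 16 17 1), .t 1 (nat_lit 0) (.ax 14 15 16 17 2), .t 1 (nat_lit 0) (.ax 14 15 16 17 4), .t 1 (nat_lit 0) (.ax 14 15 16 18 1), .t 1 (nat_lit 0) (.ax 14 15 16 18 2), .t 1 (nat_lit 0) (.ax 14 15 16 18 4)] (by decide +kernel) (by decide +kernel)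
theorem b42 : B 1344 1376 := Blk.of_chk [.t 1 (nat_lit 0) (.ax 14 15 16 19 4), .t 1 (nat_lit 0) (.ax 14 15 16 20 4), .t 1 (nat_lit 0) (.ax 14 15 16 22 4), .t 1 (nat_lit 0) (.ax 14 15 17 18 0), .t 1 (nat_lit 0) (.ax 14 15 17 18 1), .t 1 (nat_lit 0) (.ax 14 15 17 18 3), .t 1 (nat_lit 0) (.ax 14 15 17 18 4), .t 1 (nat_lit 0) (.ax 14 15 17 18 5), .t 1 (nat_lit 0) (.ax 14 15 17 19 0), .t 1 (nat_lit 0) (.ax 14 15 17 19 1), .t 1 (nat_lit 0) (.ax 14 15 17 19 2), .t 1 (nat_lit 0) (.ax 14 15 17 19 4), .t 1 (nat_lit 0) (.ax 14 15 17 19 6), .t 1 (nat_lit 0) (.ax 14 15 17 20 1), .t 1 (nat_lit 0) (.ax 14 15 17 21 0), .t 1 (nat_lit 0) (.ax 14 15 17 21 2), .t 1 (nat_lit 0) (.ax 14 15 17 21 4), .t 1 (nat_lit 0) (.ax 14 15 17 22 0), .t 1 (nat_lit 0) (.ax 14 15 17 22 4), .t 1 (nat_lit 0) (.ax 14 15 17 22 5),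 .t 1 (nat_lit 0) (.ax 14 15 18 19 1), .t 1 (nat_lit 0) (.ax 14 15 18 19 3), .t 1 (nat_lit 0) (.ax 14 15 18 21 0), .t 1 (nat_lit 0) (.ax 14 15 18 22 0), .t 1 (nat_lit 0) (.ax 14 15 18 22 2), .t 1 (nat_lit 0) (.ax 14 15 18 22 4), .t 1 (nat_lit 0) (.ax 14 15 19 22 4), .t 1 (nat_lit 0) (.ax 14 15 20 22 4), .t 1 (nat_lit 0) (.ax 14 15 21 22 5), .t 1 (nat_lit 0) (.ax 14 16 17 18 0), .t 1 (nat_lit 0) (.ax 14 16 17 18 2), .t 1 (nat_lit 0) (.ax 14 16 17 18 4)] (by decide +kernel) (by decide +kernel)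
theorem b43 : B 1376 1408 := Blk.of_chk [.t 1 (nat_lit 0) (.ax 14 16 17 18 5), .t 1 (nat_lit 0) (.ax 14 16 17 22 0), .t 1 (nat_lit 0) (.ax 14 16 18 22 0), .t 1 (nat_lit 0) (.ax 14 16 19 21 0), .t 1 (nat_lit 0) (.ax 14 17 18 19 0), .t 1 (nat_lit 0) (.ax 14 17 18 19 4), .t 1 (nat_lit 0) (.ax 14 17 18 20 4), .t 1 (nat_lit 0) (.ax 14 17 18 22 4), .t 1 (nat_lit 0) (.ax 14 17 19 20 4), .t 1 (nat_lit 0) (.ax 14 17 19 20 6), .t 1 (nat_lit 0) (.ax 14 17 20 22 4), .t 1 (nat_lit 0) (.ax 14 17 21 22 5), .t 1 (nat_lit 0) (.ax 14 18 19 22 4), .t 1 (nat_lit 0) (.ax 14 18 21 22 5), .t 1 (nat_lit 0) (.ax 14 19 20 21 0), .t 1 (nat_lit 0) (.ax 14 20 21 22 5), .t 1 (nat_lit 0) (.ax 15 16 17 18 2), .t 1 (nat_lit 0) (.ax 15 16 17 18 4), .t 1 (nat_lit 0) (.ax 15 16 17 18 5), .t 1 (nat_lit 0) (.ax 15 16 17 22 0),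 .t 1 (nat_lit 0) (.ax 15 16 18 22 0), .t 1 (nat_lit 0) (.ax 15 16 19 21 0), .t 1 (nat_lit 0) (.ax 15 17 18 19 0), .t 1 (nat_lit 0) (.ax 15 17 18 19 1), .t 1 (nat_lit 0) (.ax 15 17 18 19 4), .t 1 (nat_lit 0) (.ax 15 17 18 19 5), .t 1 (nat_lit 0) (.ax 15 17 18 20 0), .t 1 (nat_lit 0) (.ax 15 17 18 20 1), .t 1 (nat_lit 0) (.ax 15 17 19 20 4), .t 1 (nat_lit 0) (.ax 15 17 19 20 6), .t 1 (nat_lit 0) (.ax 15 17 19 21 4), .t 1 (nat_lit 0) (.ax 15 17 19 22 4)] (by decide +kernel) (by decide +kernel)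
theorem b44 : B 1408 1440 := Blk.of_chk [.t 1 (nat_lit 0) (.ax 15 17 20 21 4), .t 1 (nat_lit 0) (.ax 15 17 20 22 4), .t 1 (nat_lit 0) (.ax 15 17 21 22 5), .t 1 (nat_lit 0) (.ax 15 18 19 20 4), .t 1 (nat_lit 0) (.ax 15 18 19 22 4), .t 1 (nat_lit 0) (.ax 15 18 20 21 4), .t 1 (nat_lit 0) (.ax 15 18 20 22 4), .t 1 (nat_lit 0) (.ax 15 18 21 22 5), .t 1 (nat_lit 0) (.ax 15 20 21 22 5), .t 1 (nat_lit 0) (.ax 16 17 18 19 2), .t 1 (nat_lit 0) (.ax 16 17 18 22 2), .t 1 (nat_lit 0) (.ax 16 17 18 22 4), .t 1 (nat_lit 0) (.ax 16 17 19 21 3), .t 1 (nat_lit 0) (.ax 16 18 19 21 3), .t 1 (nat_lit 0) (.ax 17 18 19 20 4), .t 1 (nat_lit 0) (.ax 17 18 19 22 4), .t 1 (nat_lit 0) (.ax 17 20 21 22 5), .t 1 (nat_lit 0) (.ax 18 20 21 22 5), .t 1 (nat_lit 0) (.fa 4), .t 1 (nat_lit 0) (.fa 6), .t 1 (nat_lit 0) (.cp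 1 3), .t 1 (nat_lit 0) (.fa 3), .t 1 (nat_lit 0) (.cp 2 3), .t 1 (nat_lit 0) (.cp 2 3), .t 4 (nat_lit 0x53a035c035b) (.z (.node 0 7 (.edon 0 12 (.leaf [0,8,9,10,11]) (.node 13 19 (.leaf [13,20,22,21]) (.free 2 [12,14,15,16,17,18,19]))) (.free 2 [1,2,3,4,5,6,7]))), .t 4 (nat_lit 0x591035c035b) (.z (.node 0 7 (.edon 0 12 (.leaf [0,8,9,10,11]) (.node 17 19 (.leaf [17,20,22,21]) (.free 2 [12,13,14,15,16,18,19]))) (.free 2 [1,2,3,4,5,6,7]))), .t 1 (nat_lit 0) (.cp 7 3), .t 4 (nat_lit 0x570035c035b) (.z (.node 0 7 (.edon 0 12 (.leaf [0,8,9,10,11]) (.node 14 19 (.leaf [14,20,22,21]) (.free 2 [12,13,15,16,17,18,19]))) (.free 2 [1,2,3,4,5,6,7]))), .t 5 (nat_lit 0x591058905830582) (.z (.edon 0 15 (.free 4 [0,1,2,3,4,5,6,7,8,9,10,11,12,13,14]) (.node 17 19 (.leaf [15,17,20,22,21]) (.leaf [16,18,19])))),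 .t 1 (nat_lit 0) (.fa 6), .t 1 (nat_lit 0) (.fa 6), .t 5 (nat_lit 0x45e045a035c035b) (.z (.node 0 7 (.edon 0 12 (.leaf [0,8,9,10,11]) (.edon 0 16 (.leaf [12,13,15,14]) (.free 2 [16,17,18,19,20,21,22]))) (.free 2 [1,2,3,4,5,6,7])))] (by decide +kernel) (by decide +kernel)
theorem b45 : B 1440 1472 := Blk.of_chk [.t 4 (nat_lit 0x592035c035b) (.z (.node 0 7 (.edon 0 12 (.leaf [0,8,9,10,11]) (.node 18 19 (.leaf [18,20,22,21]) (.free 2 [12,13,14,15,16,17,19]))) (.free 2 [1,2,3,4,5,6,7]))), .t 1 (nat_lit 0) (.fa 5), .t 1 (nat_lit 0) (.fa 5), .t 1 (nat_lit 0) (.fa 5), .t 1 (nat_lit 0) (.fa 4), .t 1 (nat_lit 0) (.cp 3 3), .t 1 (nat_lit 0) (.fa 4), .t 1 (nat_lit 0) (.cn 5 3), .t 1 (nat_lit 0) (.fa 4), .t 1 (nat_lit 0) (.cn 5 3), .t 13 (nat_lit 0x57b057a0577035e035d035a0584057d0376037503620361) (.z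 (.node 20 0 (.edon 12 17 (.leaf [12,14,16]) (.edon 0 15 (.edon 0 8 (.free 2 [1,2,3,4,5,6,7]) (.leaf [8,9,11,13,10])) (.leaf [15,17,19,20,18]))) (.free 1 [0,21,22]))), .t 1 (nat_lit 0) (.fa 4), .t 5 (nat_lit 0x592058905880587) (.z (.edon 0 15 (.free 4 [0,1,2,3,4,5,6,7,8,9,10,11,12,13,14]) (.node 15 19 (.leaf [15,18,20,22,21]) (.leaf [16,17,19])))), .t 1 (nat_lit 0) (.cp 1 3), .t 1 (nat_lit 0) (.cp 5 3), .t 10 (nat_lit 0x53b054705450540053e0560055f037c037b) (.z (.node 0 7 (.node 8 12 (.node 13 22 (.leaf [0,8,10,13,21]) (.edon 0 19 (.leaf [14,16,17,18,15]) (.leaf [19,20,22]))) (.leaf [9,11,12])) (.free 2 [1,2,3,4,5,6,7]))), .t 1 (nat_lit 0) (.fa 3), .t 8 (nat_lit 0x41b041a0419042f042d04230422) (.z (.node 0 7 (.edon 0 11 (.leaf [0,8,9,10]) (.edon 0 16 (.leaf [11,12,14,15,13]) (.free 2 [16,17,18,19,20,21,22])))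 (.free 2 [1,2,3,4,5,6,7]))), .t 1 (nat_lit 0) (.cn 4 3), .t 1 (nat_lit 0) (.cn 5 2), .t 10 (nat_lit 0x540057205710560055f053d053c00c600c5) (.z (.node 2 4 (.node 6 12 (.node 13 22 (.leaf [0,2,6,13,21]) (.edon 0 19 (.leaf [14,15,16,17,18]) (.leaf [19,20,22]))) (.free 2 [5,7,8,9,10,11,12])) (.free 1 [1,3,4]))), .t 1 (nat_lit 0) (.cn 4 2), .t 1 (nat_lit 0) (.cp 2 2), .t 5 (nat_lit 0x586059205890588) (.z (.edon 0 15 (.free 4 [0,1,2,3,4,5,6,7,8,9,10,11,12,13,14]) (.node 15 19 (.leaf [15,20,22,21,18]) (.leaf [16,17,19])))), .t 8 (nat_lit 0x540057205710560055f053d053c) (.z (.edon 14 21 (.edon 0 19 (.leaf [14,15,16,17,18]) (.leaf [19,20,22])) (.free 4 [0,1,2,3,4,5,6,7,8,9,10,11,12,13,21]))), .t 1 (nat_lit 0) (.cp 5 3), .t 10 (nat_lit 0x540037c037b057205710560055f053d053c) (.z (.node 0 7 (.node 8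 12 (.edon 14 21 (.edon 0 19 (.leaf [14,15,16,17,18]) (.leaf [19,20,22])) (.leaf [0,8,10,13,21])) (.leaf [9,11,12])) (.free 2 [1,2,3,4,5,6,7]))), .t 6 (nat_lit 0x4380436043404560449) (.z (.node 0 7 (.edon 0 11 (.leaf [0,8,9,10]) (.edon 12 22 (.free 2 [12,15,16,17,18,19,20]) (.leaf [11,14,22,21,13]))) (.free 2 [1,2,3,4,5,6,7]))), .t 10 (nat_lit 0x540057205710560055f053d053c00e600e5) (.z (.edon 9 1 (.edon 9 15 (.leaf [9,11,12]) (.node 13 22 (.leaf [0,2,10,13,21]) (.edon 0 19 (.leaf [14,15,16,17,18]) (.leaf [19,20,22])))) (.free 2 [1,3,4,5,6,7,8]))), .t 14 (nat_lit 0x8400d900d8008a00890088008700ec00eb008f008e00280027) (.z (.node 9 1 (.free 2 [3,4,5,6,7,8,9]) (.node 13 0 (.leaf [1,11,12,13,10,2]) (.free 3 [0,14,15,16,17,18,19,20,21,22])))), .t 1 (nat_lit 0) (.cp 8 3), .t 1 (nat_lit 0) (.cp 2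 3)] (by decide +kernel) (by decide +kernel)
theorem b46 : B 1472 1504 := Blk.of_chk [.t 1 (nat_lit 0) (.cp 2 3), .t 10 (nat_lit 0x540057205710560055f053d053c00bd00bc) (.z (.node 2 4 (.node 5 12 (.node 13 22 (.leaf [0,2,5,13,21]) (.edon 0 19 (.leaf [14,15,16,17,18]) (.leaf [19,20,22]))) (.free 2 [6,7,8,9,10,11,12])) (.free 1 [1,3,4]))), .t 1 (nat_lit 0) (.cn 2 3), .t 1 (nat_lit 0) (.fa 3), .t 15 (nat_lit 0x212021e021d021602150540022e022d057205710560055f053d053c) (.z (.node 2 4 (.node 2 12 (.node 13 22 (.leaf [0,2,13,21]) (.edon 0 19 (.leaf [14,15,16,17,18]) (.leaf [19,20,22]))) (.edon 9 10 (.leaf [9,11,12]) (.leaf [5,7,8,10,6]))) (.free 1 [1,3,4]))), .t 1 (nat_lit 0) (.fa 3), .t 1 (nat_lit 0) (.fa 4), .t 1 (nat_lit 0) (.fa 5), .t 12 (nat_lit 0x3ac03830380037103700365036400a4003600020001)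 (.z (.node 16 0 (.edon 12 14 (.leaf [12,15,16]) (.node 7 13 (.edon 4 6 (.leaf [4,5,7]) (.leaf [1,3,6,10,2])) (.leaf [8,9,11,14,13]))) (.free 2 [0,17,18,19,20,21,22]))), .t 12 (nat_lit 0x35f035d035a037803770365036400a6003800040001) (.z (.node 16 0 (.edon 12 14 (.leaf [12,15,16]) (.node 7 10 (.edon 4 6 (.leaf [4,5,7]) (.leaf [1,3,6,13,2])) (.leaf [8,9,11,14,10]))) (.free 2 [0,17,18,19,20,21,22]))), .t 15 (nat_lit 0x2210220021f05400259025802270226057205710560055f053d053c) (.z (.node 2 4 (.node 2 12 (.node 13 22 (.leaf [0,2,13,21]) (.edon 0 19 (.leaf [14,15,16,17,18]) (.leaf [19,20,22]))) (.edon 7 11 (.leaf [7,8,9]) (.leaf [5,6,11,12,10]))) (.free 1 [1,3,4]))), .t 1 (nat_lit 0) (.fa 6), .t 1 (nat_lit 0) (.cn 5 2), .t 7 (nat_lit 0x592053a0538053704240421) (.z (.node 0 7 (.edon 0 11 (.leaf [0,8,9,10])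 (.edon 14 16 (.leaf [11,12,15,14]) (.node 18 19 (.leaf [13,18,20,22,21]) (.leaf [16,17,19])))) (.free 2 [1,2,3,4,5,6,7]))), .t 5 (nat_lit 0x592053a05380537) (.z (.node 0 7 (.edon 0 11 (.leaf [0,8,9,10]) (.node 13 19 (.leaf [13,18,20,22,21]) (.free 2 [11,12,14,15,16,17,19]))) (.free 2 [1,2,3,4,5,6,7]))), .t 8 (nat_lit 0x41904240421041e041b0430042e) (.z (.node 0 7 (.edon 0 11 (.leaf [0,8,9,10]) (.edon 0 16 (.leaf [11,12,15,14,13]) (.free 2 [16,17,18,19,20,21,22]))) (.free 2 [1,2,3,4,5,6,7]))), .t 6 (nat_lit 0x56e0538050805040503) (.z (.node 0 7 (.edon 0 11 (.leaf [0,8,9,10]) (.node 14 20 (.leaf [13,14,18,22,21]) (.free 2 [11,12,15,16,17,19,20]))) (.free 2 [1,2,3,4,5,6,7]))), .t 1 (nat_lit 0) (.cn 3 3), .t 1 (nat_lit 0) (.cn 3 3), .t 1 (nat_lit 0) (.fa 5), .t 1 (nat_lit 0) (.fa 5), .t 1 (nat_lit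 0) (.fa 5), .t 1 (nat_lit 0) (.cn 3 2), .t 12 (nat_lit 0x36503ab03aa038203810362036100a4003600020001) (.z (.node 16 0 (.edon 12 14 (.leaf [12,15,16]) (.node 7 14 (.edon 4 6 (.leaf [4,5,7]) (.leaf [1,3,6,10,2])) (.leaf [8,9,11,13,14]))) (.free 2 [0,17,18,19,20,21,22]))), .t 15 (nat_lit 0x5400228057205710560055f053d053c02be02bd025d025c02270226) (.z (.node 2 4 (.edon 5 21 (.edon 7 11 (.leaf [7,8,9]) (.edon 0 14 (.leaf [5,6,11,12,13]) (.edon 0 19 (.leaf [14,15,16,17,18]) (.leaf [19,20,22])))) (.leaf [0,2,10,21])) (.free 1 [1,3,4]))), .t 12 (nat_lit 0x36503ab03aa038203810362036100a4003600020001) (.z (.node 16 0 (.edon 12 13 (.leaf [12,15,16]) (.node 7 14 (.edon 4 6 (.leaf [4,5,7]) (.leaf [1,3,6,10,2])) (.leaf [8,9,11,13,14]))) (.free 2 [0,17,18,19,20,21,22]))), .t 3 (nat_lit 0xb900b8) (.z (.node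 2 4 (.edon 6 21 (.free 4 [6,7,8,9,11,12,13,14,15,16,17,18,19,20,22]) (.leaf [0,2,5,10,21])) (.free 1 [1,3,4]))), .t 15 (nat_lit 0x540029602950294057205710560055f053d053c02bb02ba029b029a) (.z (.node 2 4 (.edon 6 21 (.node 7 11 (.edon 0 14 (.leaf [6,7,12,13,10]) (.edon 0 19 (.leaf [14,15,16,17,18]) (.leaf [19,20,22]))) (.leaf [8,9,11])) (.leaf [0,2,5,21])) (.free 1 [1,3,4]))), .t 1 (nat_lit 0) (.cn 3 3), .t 8 (nat_lit 0x45e0430042c04240421041d041c) (.z (.node 0 7 (.edon 0 11 (.leaf [0,8,9,10]) (.edon 0 16 (.leaf [11,12,13,15,14]) (.free 2 [16,17,18,19,20,21,22]))) (.free 2 [1,2,3,4,5,6,7]))), .t 8 (nat_lit 0x50e0572057105290528050b050a) (.z (.edon 13 21 (.edon 0 19 (.leaf [13,15,16,17,18]) (.leaf [19,20,22])) (.free 4 [0,1,2,3,4,5,6,7,8,9,10,11,12,14,21]))), .t 15 (nat_lit 0x212021e021d02160215050e022e022d0572057105290528050b050a)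 (.z (.node 2 4 (.node 2 12 (.edon 13 21 (.edon 0 19 (.leaf [13,15,16,17,18]) (.leaf [19,20,22])) (.leaf [0,2,14,21])) (.node 8 12 (.leaf [5,7,8,10,6]) (.leaf [9,11,12]))) (.free 1 [1,3,4])))] (by decide +kernel) (by decide +kernel)
theorem b47 : B 1504 1536 := Blk.of_chk [.t 10 (nat_lit 0x54000e600e5057205710560055f053d053c) (.z (.node 8 12 (.edon 14 21 (.edon 0 19 (.leaf [14,15,16,17,18]) (.leaf [19,20,22])) (.edon 1 10 (.free 2 [1,3,4,5,6,7,8]) (.leaf [0,2,10,13,21]))) (.free 1 [9,11,12]))), .t 12 (nat_lit 0x35e035d035a037603750362036100a7003900050001) (.z (.node 16 0 (.edon 12 14 (.leaf [12,15,16]) (.node 7 10 (.edon 4 6 (.leaf [4,5,7]) (.leaf [1,3,6,14,2])) (.leaf [8,9,11,13,10]))) (.free 2 [0,17,18,19,20,21,22]))), .t 1 (nat_lit 0) (.cp 5 3), .t 5 (nat_lit 0x35d035a045d045c) (.z (.node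 0 7 (.node 0 11 (.edon 0 16 (.leaf [0,12,13,14,15]) (.free 2 [16,17,18,19,20,21,22])) (.leaf [8,9,11,10])) (.free 2 [1,2,3,4,5,6,7]))), .t 13 (nat_lit 0xd70086008400280026053d050b050904e904e704d804d6) (.z (.edon 0 20 (.node 0 12 (.node 0 17 (.leaf [0,18,19]) (.leaf [13,16,17,15,14])) (.node 1 9 (.leaf [1,11,12,10,2]) (.free 2 [3,4,5,6,7,8,9]))) (.free 1 [20,21,22]))), .t 12 (nat_lit 0xab003e00060005035d02a702a602a502a4029f029e) (.z (.node 16 0 (.edon 12 14 (.leaf [12,13,16]) (.edon 4 14 (.node 6 7 (.leaf [6,8,9,11,10]) (.leaf [4,5,7])) (.leaf [1,3,14,15,2]))) (.free 2 [0,17,18,19,20,21,22]))), .t 1 (nat_lit 0) (.cp 3 3), .t 12 (nat_lit 0xab003e00060005035d02a702a602a502a4029f029e) (.z (.node 16 0 (.edon 12 15 (.leaf [12,13,16]) (.edon 4 14 (.node 6 7 (.leaf [6,8,9,11,10]) (.leaf [4,5,7]))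 (.leaf [1,3,14,15,2]))) (.free 2 [0,17,18,19,20,21,22]))), .t 3 (nat_lit 0xc800c7) (.z (.node 2 4 (.edon 5 14 (.free 4 [5,7,8,9,10,11,12,13,16,17,18,19,20,21,22]) (.leaf [0,2,6,14,15])) (.free 1 [1,3,4]))), .t 1 (nat_lit 0) (.cp 5 3), .t 1 (nat_lit 0) (.fa 6), .t 1 (nat_lit 0) (.cn 5 3), .t 1 (nat_lit 0) (.cn 8 2), .t 10 (nat_lit 0x218022a0229021b021a00ea00e90240023f) (.z (.edon 0 16 (.node 2 4 (.edon 6 14 (.node 7 11 (.leaf [5,7,12,13,6]) (.leaf [8,9,11])) (.leaf [0,2,10,14,15])) (.leaf [1,3,4])) (.free 2 [16,17,18,19,20,21,22]))), .t 8 (nat_lit 0x29c0332033102c702c6029b029a) (.z (.node 7 11 (.node 5 14 (.free 4 [0,1,2,3,4,5,10,15,16,17,18,19,20,21,22]) (.leaf [6,7,12,13,14])) (.free 1 [8,9,11]))), .t 1 (nat_lit 0) (.fa 3), .t 15 (nat_lit 0x4e7021604f404f204ec04ea02880287022e022d0214021305290528)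 (.z (.node 2 4 (.node 2 12 (.node 15 22 (.leaf [0,2,15,21]) (.edon 0 19 (.leaf [13,16,17,18,14]) (.leaf [19,20,22]))) (.node 8 12 (.leaf [5,6,7,8,10]) (.leaf [9,11,12]))) (.free 1 [1,3,4]))), .t 1 (nat_lit 0) (.fa 2), .t 1 (nat_lit 0) (.cn 5 3), .t 10 (nat_lit 0x212021e021d02160215022e022d00f600f5) (.z (.edon 0 16 (.node 8 12 (.node 2 10 (.leaf [0,2,13,14,15]) (.edon 0 5 (.leaf [1,3,4]) (.leaf [5,7,8,10,6]))) (.leaf [9,11,12])) (.free 2 [16,17,18,19,20,21,22]))), .t 15 (nat_lit 0x212021e021d0216021504ec022e022d0560055f0529052804e904e8) (.z (.node 2 4 (.node 8 12 (.node 2 10 (.node 15 22 (.leaf [0,2,15,21]) (.edon 0 19 (.leaf [13,14,16,17,18]) (.leaf [19,20,22]))) (.leaf [5,7,8,10,6])) (.leaf [9,11,12])) (.free 1 [1,3,4]))), .t 6 (nat_lit 0xd70086008400280026) (.z (.edon 0 16 (.node 0 12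 (.leaf [0,13,14,15]) (.node 1 9 (.leaf [1,11,12,10,2]) (.free 2 [3,4,5,6,7,8,9]))) (.free 2 [16,17,18,19,20,21,22]))), .t 10 (nat_lit 0x1690168041a0402040103f603f403f003ef) (.z (.node 0 3 (.edon 0 16 (.edon 7 15 (.edon 0 10 (.leaf [7,8,9]) (.leaf [10,11,12,14,13])) (.leaf [0,4,5,6,15])) (.free 2 [16,17,18,19,20,21,22])) (.free 1 [1,2,3]))), .t 12 (nat_lit 0xaa003d00060004035d02a702a602a502a4029f029e) (.z (.node 16 0 (.edon 12 13 (.leaf [12,14,16]) (.edon 4 13 (.node 6 7 (.leaf [6,8,9,11,10]) (.leaf [4,5,7])) (.leaf [1,3,13,15,2]))) (.free 2 [0,17,18,19,20,21,22]))), .t 12 (nat_lit 0x2a100a8003b000600020362036102ab02aa029f029e) (.z (.node 16 0 (.edon 12 13 (.leaf [12,14,16]) (.edon 4 10 (.node 6 7 (.leaf [6,8,9,11,13]) (.leaf [4,5,7])) (.leaf [1,3,10,15,2]))) (.free 2 [0,17,18,19,20,21,22]))),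 .t 10 (nat_lit 0x21602880287022e022d0214021300f600f5) (.z (.edon 0 16 (.node 2 4 (.node 2 12 (.leaf [0,2,13,14,15]) (.node 8 12 (.leaf [5,6,7,8,10]) (.leaf [9,11,12]))) (.leaf [1,3,4])) (.free 2 [16,17,18,19,20,21,22]))), .t 12 (nat_lit 0x36603ae03ad038503840362036100a4003600020001) (.z (.node 16 0 (.edon 12 13 (.leaf [12,14,16]) (.node 7 15 (.edon 4 6 (.leaf [4,5,7]) (.leaf [1,3,6,10,2])) (.leaf [8,9,11,13,15]))) (.free 2 [0,17,18,19,20,21,22]))), .t 15 (nat_lit 0x21604ec02880287022e022d021402130560055f0529052804e904e8) (.z (.node 2 4 (.node 2 12 (.node 15 22 (.leaf [0,2,15,21]) (.edon 0 19 (.leaf [13,14,16,17,18]) (.leaf [19,20,22]))) (.node 8 12 (.leaf [5,6,7,8,10]) (.leaf [9,11,12]))) (.free 1 [1,3,4]))), .t 10 (nat_lit 0x21602880287022e022d0214021301110110) (.z (.node 2 4 (.node 2 12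 (.node 15 22 (.leaf [0,2,15,18,21]) (.free 2 [13,14,16,17,19,20,22])) (.node 8 12 (.leaf [5,6,7,8,10]) (.leaf [9,11,12]))) (.free 1 [1,3,4]))), .t 14 (nat_lit 0xd8008803ee03ed00ec00eb00d700d6008f008e008600850025) (.z (.node 9 1 (.free 2 [3,4,5,6,7,8,9]) (.node 13 0 (.leaf [1,10,11,12,13,2]) (.free 3 [0,14,15,16,17,18,19,20,21,22])))), .t 10 (nat_lit 0x212021e021d02160215022e022d01110110) (.z (.node 2 4 (.node 2 12 (.node 15 22 (.leaf [0,2,15,18,21]) (.free 2 [13,14,16,17,19,20,22])) (.node 8 12 (.leaf [5,7,8,10,6]) (.leaf [9,11,12]))) (.free 1 [1,3,4]))), .t 15 (nat_lit 0x21204e7021e021d0216021504f404f204ec04ea022e022d05290528) (.z (.node 2 4 (.node 2 12 (.node 15 22 (.leaf [0,2,15,21]) (.edon 0 19 (.leaf [13,16,17,18,14]) (.leaf [19,20,22]))) (.node 8 12 (.leaf [5,7,8,10,6]) (.leaf [9,11,12])))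 (.free 1 [1,3,4])))] (by decide +kernel) (by decide +kernel)
theorem b48 : B 1536 1568 := Blk.of_chk [.t 1 (nat_lit 0) (.fa 6), .t 15 (nat_lit 0x212021e021d0216021504ea04e904e7022e022d052a052704f504f3) (.z (.node 2 4 (.node 2 12 (.node 15 22 (.leaf [0,2,15,21]) (.edon 0 19 (.leaf [13,16,18,17,14]) (.leaf [19,20,22]))) (.node 8 12 (.leaf [5,7,8,10,6]) (.leaf [9,11,12]))) (.free 1 [1,3,4]))), .t 1 (nat_lit 0) (.cp 5 3), .t 8 (nat_lit 0x540050e050c04ec04ea04db04d9) (.z (.edon 21 19 (.node 12 15 (.free 4 [0,1,2,3,4,5,6,7,8,9,10,11,12,17,21]) (.leaf [13,16,18,15,14])) (.free 1 [19,20,22]))), .t 5 (nat_lit 0x581059105890583) (.z (.edon 0 15 (.free 4 [0,1,2,3,4,5,6,7,8,9,10,11,12,13,14]) (.node 15 19 (.leaf [15,20,22,21,17]) (.leaf [16,18,19])))), .t 10 (nat_lit 0x212021e021d02160215022e022d010e010d)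 (.z (.node 2 4 (.node 2 12 (.node 15 22 (.leaf [0,2,15,17,21]) (.free 2 [13,14,16,18,19,20,22])) (.node 8 12 (.leaf [5,7,8,10,6]) (.leaf [9,11,12]))) (.free 1 [1,3,4]))), .t 1 (nat_lit 0) (.cn 5 3), .t 10 (nat_lit 0x212021e021d02160215022e022d01080107) (.z (.node 2 4 (.node 12 22 (.node 2 12 (.leaf [0,2,14,17,21]) (.node 8 12 (.leaf [5,7,8,10,6]) (.leaf [9,11,12]))) (.free 2 [13,15,16,18,19,20,22])) (.free 1 [1,3,4]))), .t 10 (nat_lit 0x21602880287022e022d0214021301080107) (.z (.node 12 22 (.node 8 12 (.node 2 10 (.leaf [0,2,14,17,21]) (.edon 0 5 (.leaf [1,3,4]) (.leaf [5,6,7,8,10]))) (.leaf [9,11,12])) (.free 2 [13,15,16,18,19,20,22]))), .t 10 (nat_lit 0x21602880287022e022d02140213010e010d) (.z (.node 2 4 (.node 2 12 (.node 15 22 (.leaf [0,2,15,17,21]) (.free 2 [13,14,16,18,19,20,22]))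 (.node 8 12 (.leaf [5,6,7,8,10]) (.leaf [9,11,12]))) (.free 1 [1,3,4]))), .t 15 (nat_lit 0x212021e021d02160215022e022d0561052a052704f504f104ec04eb) (.z (.node 2 4 (.node 2 12 (.node 15 22 (.leaf [0,2,15,21]) (.edon 0 19 (.leaf [13,14,16,18,17]) (.leaf [19,20,22]))) (.node 8 12 (.leaf [5,7,8,10,6]) (.leaf [9,11,12]))) (.free 1 [1,3,4]))), .t 15 (nat_lit 0x21602880287022e022d021402130561052a052704f504f104ec04eb) (.z (.node 2 4 (.node 2 12 (.node 15 22 (.leaf [0,2,15,21]) (.edon 0 19 (.leaf [13,14,16,18,17]) (.leaf [19,20,22]))) (.node 8 12 (.leaf [5,6,7,8,10]) (.leaf [9,11,12]))) (.free 1 [1,3,4]))), .t 15 (nat_lit 0x21604ea04e904e702880287022e022d02140213052a052704f504f3) (.z (.node 2 4 (.node 2 12 (.node 15 22 (.leaf [0,2,15,21]) (.edon 0 19 (.leaf [13,16,18,17,14]) (.leaf [19,20,22])))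 (.node 8 12 (.leaf [5,6,7,8,10]) (.leaf [9,11,12]))) (.free 1 [1,3,4]))), .t 10 (nat_lit 0x21602880287022e022d02140213010b010a) (.z (.node 2 4 (.node 12 22 (.node 2 12 (.leaf [0,2,14,18,21]) (.node 8 12 (.leaf [5,6,7,8,10]) (.leaf [9,11,12]))) (.free 2 [13,15,16,17,19,20,22])) (.free 1 [1,3,4]))), .t 6 (nat_lit 0x55d0458045604510450) (.z (.node 0 7 (.edon 0 11 (.leaf [0,8,9,10]) (.edon 12 22 (.free 2 [12,13,16,17,18,19,20]) (.leaf [11,14,15,22,21]))) (.free 2 [1,2,3,4,5,6,7]))), .t 10 (nat_lit 0x212021e021d02160215022e022d01010100) (.z (.node 2 4 (.node 12 22 (.node 2 12 (.leaf [0,2,13,17,21]) (.node 8 12 (.leaf [5,7,8,10,6]) (.leaf [9,11,12]))) (.free 2 [14,15,16,18,19,20,22])) (.free 1 [1,3,4]))), .t 1 (nat_lit 0) (.fa 5), .t 8 (nat_lit 0x5730561055e054805440540053f) (.z (.edon 21 19 (.node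 12 17 (.free 4 [0,1,2,3,4,5,6,7,8,9,10,11,12,13,21]) (.leaf [14,15,16,18,17])) (.free 1 [19,20,22]))), .t 1 (nat_lit 0) (.cp 5 3), .t 1 (nat_lit 0) (.cn 4 3), .t 15 (nat_lit 0x212021e021d02160215022e022d05730561055e054805440540053f) (.z (.node 2 4 (.node 2 12 (.node 13 22 (.leaf [0,2,13,21]) (.edon 0 19 (.leaf [14,15,16,18,17]) (.leaf [19,20,22]))) (.node 8 12 (.leaf [5,7,8,10,6]) (.leaf [9,11,12]))) (.free 1 [1,3,4]))), .t 1 (nat_lit 0) (.cn 8 2), .t 7 (nat_lit 0x591053a0533053204240421) (.z (.node 0 7 (.edon 0 11 (.leaf [0,8,9,10]) (.edon 14 16 (.leaf [11,12,15,14]) (.node 17 19 (.leaf [13,17,20,22,21]) (.leaf [16,18,19])))) (.free 2 [1,2,3,4,5,6,7]))), .t 7 (nat_lit 0x5910570056c056b041e041b) (.z (.node 0 7 (.edon 0 11 (.leaf [0,8,9,10]) (.edon 13 16 (.leaf [11,12,15,13]) (.node 17 19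 (.leaf [14,17,20,22,21]) (.leaf [16,18,19])))) (.free 2 [1,2,3,4,5,6,7]))), .t 1 (nat_lit 0) (.cn 4 2), .t 12 (nat_lit 0x136013500c400c300a5006200610037000400030001) (.z (.edon 4 12 (.free 2 [4,5,7,8,9,10,11]) (.node 13 0 (.leaf [1,3,6,12,13,2]) (.free 3 [0,14,15,16,17,18,19,20,21,22])))), .t 6 (nat_lit 0x163012a012901190116) (.z (.node 11 1 (.edon 7 11 (.leaf [7,8,9]) (.leaf [3,4,5,11,6])) (.free 4 [0,1,2,10,12,13,14,15,16,17,18,19,20,21,22]))), .t 12 (nat_lit 0x35d02a702a602a502a4029f029e00a9003c00050004) (.z (.node 16 0 (.edon 12 14 (.leaf [12,15,16]) (.node 3 10 (.leaf [1,3,13,14,2]) (.node 6 7 (.leaf [6,8,9,11,10]) (.leaf [4,5,7])))) (.free 2 [0,17,18,19,20,21,22]))), .t 10 (nat_lit 0x212021e021d02160215022e022d01040103) (.z (.node 2 4 (.node 12 22 (.node 2 12 (.leaf [0,2,13,18,21])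 (.node 8 12 (.leaf [5,7,8,10,6]) (.leaf [9,11,12]))) (.free 2 [14,15,16,17,19,20,22])) (.free 1 [1,3,4]))), .t 1 (nat_lit 0) (.cn 8 2), .t 15 (nat_lit 0x212021e021d02160215022e022d0573052a052705130510050e050d) (.z (.node 2 4 (.node 2 12 (.node 14 22 (.leaf [0,2,14,21]) (.edon 0 19 (.leaf [13,15,16,18,17]) (.leaf [19,20,22]))) (.node 8 12 (.leaf [5,7,8,10,6]) (.leaf [9,11,12]))) (.free 1 [1,3,4]))), .t 8 (nat_lit 0xd7008600840028002604d404d2) (.z (.node 1 9 (.node 0 12 (.node 0 16 (.free 2 [0,17,18,19,20,21,22]) (.leaf [13,15,16,14])) (.leaf [1,11,12,10,2])) (.free 2 [3,4,5,6,7,8,9])))] (by decide +kernel) (by decide +kernel)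

end Pool.Agent.GCP.F9_9_12
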