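import Pool.Agent.GCP.F9_9_13Db

set_option autoImplicit false
set_option maxRecDepth 100000

/-! # Blocks F9_9_13B0 (generated) -/

namespace Pool.Agent.GCP.F9_9_13

open Pool.Agent.GCP DB

theorem b0 : B 0 32 := Blk.of_chk [.t 1 (nat_lit 0) (.ax 1 2 3 5 1), .t 1 (nat_lit 0) (.ax 1 2 3 6 1), .t 1 (nat_lit 0) (.ax 1 2 3 10 1), .t 1 (nat_lit 0) (.ax 1 2 3 11 1), .t 1 (nat_lit 0) (.ax 1 2 3 12 1), .t 1 (nat_lit 0) (.ax 1 2 3 13 1), .t 1 (nat_lit 0) (.ax 1 2 4 5 1), .t 1 (nat_lit 0) (.ax 1 2 4 6 1), .t 1 (nat_lit 0) (.ax 1 2 4 9 1), .t 1 (nat_lit 0) (.ax 1 2 4 10 1), .t 1 (nat_lit 0) (.ax 1 2 4 13 1), .t 1 (nat_lit 0) (.ax 1 2 5 9 1), .t 1 (nat_lit 0) (.ax 1 2 6 9 1), .t 1 (nat_lit 0) (.ax 1 2 7 11 1), .t 1 (nat_lit 0) (.ax 1 2 9 19 1), .t 1 (nat_lit 0) (.ax 1 2 10 11 1), .t 1 (nat_lit 0) (.ax 1 2 14 15 1), .t 1 (nat_lit 0) (.ax 1 3 5 6 0), .t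 1 (nat_lit 0) (.ax 1 3 5 10 0), .t 1 (nat_lit 0) (.ax 1 3 5 11 0), .t 1 (nat_lit 0) (.ax 1 3 5 12 0), .t 1 (nat_lit 0) (.ax 1 3 6 10 0), .t 1 (nat_lit 0) (.ax 1 3 6 11 0), .t 1 (nat_lit 0) (.ax 1 3 6 12 0), .t 1 (nat_lit 0) (.ax 1 3 10 11 0), .t 1 (nat_lit 0) (.ax 1 3 10 12 0), .t 1 (nat_lit 0) (.ax 1 3 10 12 2), .t 1 (nat_lit 0) (.ax 1 3 10 13 0), .t 1 (nat_lit 0) (.ax 1 3 11 12 0), .t 1 (nat_lit 0) (.ax 1 3 11 12 2), .t 1 (nat_lit 0) (.ax 1 3 11 13 0), .t 1 (nat_lit 0) (.ax 1 3 11 22 0)] (by decide +kernel) (by decide +kernel)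
theorem b1 : B 32 64 := Blk.of_chk [.t 1 (nat_lit 0) (.ax 1 4 7 10 0), .t 1 (nat_lit 0) (.ax 1 4 7 11 0), .t 1 (nat_lit 0) (.ax 1 4 7 12 0), .t 1 (nat_lit 0) (.ax 1 4 7 13 0), .t 1 (nat_lit 0) (.ax 1 4 7 14 0), .t 1 (nat_lit 0) (.ax 1 4 7 15 0), .t 1 (nat_lit 0) (.ax 1 4 7 16 0), .t 1 (nat_lit 0) (.ax 1 4 7 17 0), .t 1 (nat_lit 0) (.ax 1 4 7 18 0), .t 1 (nat_lit 0) (.ax 1 4 7 19 0), .t 1 (nat_lit 0) (.ax 1 4 7 20 0), .t 1 (nat_lit 0) (.ax 1 4 7 21 0), .t 1 (nat_lit 0) (.ax 1 4 7 22 0), .t 1 (nat_lit 0) (.ax 1 4 10 13 0), .t 1 (nat_lit 0) (.ax 1 4 10 22 0), .t 1 (nat_lit 0) (.ax 1 4 11 13 0), .t 1 (nat_lit 0) (.ax 1 4 11 22 0), .t 1 (nat_lit 0) (.ax 1 4 12 13 0), .t 1 (nat_lit 0) (.ax 1 5 6 7 1), .t 1 (nat_lit 0) (.ax 1 5 6 7 6), .t 1 (nat_lit 0) (.ax 1 5 8 9 0), .t 1 (nat_lit 0) (.ax 1 5 9 10 4), .t 1 (nat_lit 0) (.ax 1 5 9 11 4), .t 1 (nat_lit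 0) (.ax 1 5 9 12 4), .t 1 (nat_lit 0) (.ax 1 5 9 13 4), .t 1 (nat_lit 0) (.ax 1 5 9 22 4), .t 1 (nat_lit 0) (.ax 1 5 10 13 0), .t 1 (nat_lit 0) (.ax 1 5 11 22 0), .t 1 (nat_lit 0) (.ax 1 6 9 10 4), .t 1 (nat_lit 0) (.ax 1 6 9 11 4), .t 1 (nat_lit 0) (.ax 1 6 9 12 4), .t 1 (nat_lit 0) (.ax 1 6 9 13 4)] (by decide +kernel) (by decide +kernel)
theorem b2 : B 64 96 := Blk.of_chk [.t 1 (nat_lit 0) (.ax 1 6 9 22 4), .t 1 (nat_lit 0) (.ax 1 6 10 11 0), .t 1 (nat_lit 0) (.ax 1 6 11 22 0), .t 1 (nat_lit 0) (.ax 1 6 12 13 2), .t 1 (nat_lit 0) (.ax 1 6 12 13 4), .t 1 (nat_lit 0) (.ax 1 7 8 11 0), .t 1 (nat_lit 0) (.ax 1 7 8 12 0), .t 1 (nat_lit 0) (.ax 1 7 8 13 0), .t 1 (nat_lit 0) (.ax 1 7 9 10 0), .t 1 (nat_lit 0) (.ax 1 7 9 11 0), .t 1 (nat_lit 0) (.ax 1 7 9 12 0), .t 1 (nat_lit 0) (.ax 1 7 9 14 0), .t 1 (nat_lit 0) (.ax 1 7 9 15 0), .t 1 (nat_lit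 0) (.ax 1 7 9 16 0), .t 1 (nat_lit 0) (.ax 1 7 9 17 0), .t 1 (nat_lit 0) (.ax 1 7 9 18 0), .t 1 (nat_lit 0) (.ax 1 7 9 19 0), .t 1 (nat_lit 0) (.ax 1 7 9 20 0), .t 1 (nat_lit 0) (.ax 1 7 9 21 0), .t 1 (nat_lit 0) (.ax 1 7 9 22 0), .t 1 (nat_lit 0) (.ax 1 7 10 12 0), .t 1 (nat_lit 0) (.ax 1 7 10 13 0), .t 1 (nat_lit 0) (.ax 1 7 11 12 0), .t 1 (nat_lit 0) (.ax 1 7 11 22 0), .t 1 (nat_lit 0) (.ax 1 8 9 10 4), .t 1 (nat_lit 0) (.ax 1 8 10 11 0), .t 1 (nat_lit 0) (.ax 1 8 10 22 0), .t 1 (nat_lit 0) (.ax 1 8 11 22 0), .t 1 (nat_lit 0) (.ax 1 8 13 22 4), .t 1 (nat_lit 0) (.ax 1 9 10 22 0), .t 1 (nat_lit 0) (.ax 1 9 11 12 0), .t 1 (nat_lit 0) (.ax 1 9 11 14 0)] (by decide +kernel) (by decide +kernel)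
theorem b3 : B 96 128 := Blk.of_chk [.t 1 (nat_lit 0) (.ax 1 9 11 15 0), .t 1 (nat_lit 0) (.ax 1 9 11 19 0), .t 1 (nat_lit 0) (.ax 1 9 11 22 0), .t 1 (nat_lit 0) (.ax 1 9 13 14 0), .t 1 (nat_lit 0) (.ax 1 9 13 15 0), .t 1 (nat_lit 0) (.ax 1 9 15 16 0), .t 1 (nat_lit 0) (.ax 1 9 15 19 0), .t 1 (nat_lit 0) (.ax 1 10 11 12 2), .t 1 (nat_lit 0) (.ax 1 10 11 12 4), .t 1 (nat_lit 0) (.ax 1 10 11 13 0), .t 1 (nat_lit 0) (.ax 1 10 11 13 1), .t 1 (nat_lit 0) (.ax 1 10 11 13 5), .t 1 (nat_lit 0) (.ax 1 10 11 22 0), .t 1 (nat_lit 0) (.ax 1 10 13 14 4), .t 1 (nat_lit 0) (.ax 1 10 13 15 4), .t 1 (nat_lit 0) (.ax 1 10 13 16 4), .t 1 (nat_lit 0) (.ax 1 10 13 17 4), .t 1 (nat_lit 0) (.ax 1 10 13 18 4), .t 1 (nat_lit 0) (.ax 1 10 13 19 4), .t 1 (nat_lit 0) (.ax 1 10 13 20 4), .t 1 (nat_lit 0) (.ax 1 10 13 21 4), .t 1 (nat_lit 0) (.ax 1 10 13 22 4), .t 1 (nat_lit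 0) (.ax 1 10 21 22 5), .t 1 (nat_lit 0) (.ax 1 11 12 13 4), .t 1 (nat_lit 0) (.ax 1 11 13 14 4), .t 1 (nat_lit 0) (.ax 1 11 13 15 4), .t 1 (nat_lit 0) (.ax 1 11 13 16 4), .t 1 (nat_lit 0) (.ax 1 11 13 17 4), .t 1 (nat_lit 0) (.ax 1 11 13 18 4), .t 1 (nat_lit 0) (.ax 1 11 13 19 4), .t 1 (nat_lit 0) (.ax 1 11 13 20 4), .t 1 (nat_lit 0) (.ax 1 11 13 22 4)] (by decide +kernel) (by decide +kernel)
theorem b4 : B 128 160 := Blk.of_chk [.t 1 (nat_lit 0) (.ax 1 11 14 15 2), .t 1 (nat_lit 0) (.ax 1 11 15 16 6), .t 1 (nat_lit 0) (.ax 1 11 15 17 6), .t 1 (nat_lit 0) (.ax 1 11 15 18 6), .t 1 (nat_lit 0) (.ax 1 11 15 19 6), .t 1 (nat_lit 0) (.ax 1 11 15 20 6), .t 1 (nat_lit 0) (.ax 1 11 15 22 1), .t 1 (nat_lit 0) (.ax 1 11 15 22 4), .t 1 (nat_lit 0) (.ax 1 11 17 19 5), .t 1 (nat_lit 0) (.ax 1 11 18 19 5), .t 1 (nat_lit 0) (.ax 1 11 19 20 4), .t 1 (nat_lit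 0) (.ax 1 11 21 22 5), .t 1 (nat_lit 0) (.ax 1 14 15 16 2), .t 1 (nat_lit 0) (.ax 1 14 15 16 4), .t 1 (nat_lit 0) (.ax 1 15 16 17 4), .t 1 (nat_lit 0) (.ax 1 15 18 19 5), .t 1 (nat_lit 0) (.ax 1 15 19 20 4), .t 1 (nat_lit 0) (.ax 1 15 19 22 4), .t 1 (nat_lit 0) (.ax 2 3 5 10 0), .t 1 (nat_lit 0) (.ax 2 3 5 11 0), .t 1 (nat_lit 0) (.ax 2 3 5 12 0), .t 1 (nat_lit 0) (.ax 2 3 6 10 0), .t 1 (nat_lit 0) (.ax 2 3 6 11 0), .t 1 (nat_lit 0) (.ax 2 3 6 12 0), .t 1 (nat_lit 0) (.ax 2 3 10 11 0), .t 1 (nat_lit 0) (.ax 2 3 10 12 0), .t 1 (nat_lit 0) (.ax 2 6 9 13 4), .t 1 (nat_lit 0) (.ax 2 6 12 13 2), .t 1 (nat_lit 0) (.ax 2 6 12 13 4), .t 1 (nat_lit 0) (.ax 2 10 11 12 2), .t 1 (nat_lit 0) (.ax 2 10 11 12 4), .t 1 (nat_lit 0) (.ax 2 14 15 16 2)] (by decide +kernel) (by decide +kernel)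
theorem b5 : B 160 192 := Blk.of_chk [.t 1 (nat_lit 0) (.ax 2 14 15 16 4), .t 1 (nat_lit 0) (.ax 3 4 5 6 0), .t 1 (nat_lit 0) (.ax 3 4 5 9 0), .t 1 (nat_lit 0) (.ax 3 4 5 10 0), .t 1 (nat_lit 0) (.ax 3 4 5 11 0), .t 1 (nat_lit 0) (.ax 3 4 5 12 0), .t 1 (nat_lit 0) (.ax 3 4 5 13 0), .t 1 (nat_lit 0) (.ax 3 4 6 9 0), .t 1 (nat_lit 0) (.ax 3 4 6 10 0), .t 1 (nat_lit 0) (.ax 3 4 6 11 0), .t 1 (nat_lit 0) (.ax 3 4 6 12 0), .t 1 (nat_lit 0) (.ax 3 4 6 13 0), .t 1 (nat_lit 0) (.ax 3 4 7 10 0), .t 1 (nat_lit 0) (.ax 3 4 7 11 0), .t 1 (nat_lit 0) (.ax 3 4 7 12 0), .t 1 (nat_lit 0) (.ax 3 4 7 13 0), .t 1 (nat_lit 0) (.ax 3 4 7 14 0), .t 1 (nat_lit 0) (.ax 3 4 7 15 0), .t 1 (nat_lit 0) (.ax 3 4 7 17 0), .t 1 (nat_lit 0) (.ax 3 4 7 18 0), .t 1 (nat_lit 0) (.ax 3 4 7 19 0), .t 1 (nat_lit 0) (.ax 3 4 7 20 0), .t 1 (nat_lit 0) (.ax 3 4 7 21 0), .t 1 (nat_lit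 0) (.ax 3 4 7 22 0), .t 1 (nat_lit 0) (.ax 3 4 9 10 0), .t 1 (nat_lit 0) (.ax 3 4 9 12 0), .t 1 (nat_lit 0) (.ax 3 4 10 11 0), .t 1 (nat_lit 0) (.ax 3 4 10 12 0), .t 1 (nat_lit 0) (.ax 3 4 10 13 0), .t 1 (nat_lit 0) (.ax 3 4 11 12 0), .t 1 (nat_lit 0) (.ax 3 4 11 13 0), .t 1 (nat_lit 0) (.ax 3 4 12 13 0)] (by decide +kernel) (by decide +kernel)
theorem b6 : B 192 224 := Blk.of_chk [.t 1 (nat_lit 0) (.ax 3 5 6 10 1), .t 1 (nat_lit 0) (.ax 3 5 6 10 4), .t 1 (nat_lit 0) (.ax 3 5 6 10 6), .t 1 (nat_lit 0) (.ax 3 5 6 11 0), .t 1 (nat_lit 0) (.ax 3 5 6 11 1), .t 1 (nat_lit 0) (.ax 3 5 6 11 4), .t 1 (nat_lit 0) (.ax 3 5 6 11 5), .t 1 (nat_lit 0) (.ax 3 5 6 11 6), .t 1 (nat_lit 0) (.ax 3 5 6 12 0), .t 1 (nat_lit 0) (.ax 3 5 6 12 1), .t 1 (nat_lit 0) (.ax 3 5 6 12 4), .t 1 (nat_lit 0) (.ax 3 5 6 12 5), .t 1 (nat_lit 0) (.ax 3 5 9 11 4), .t 1 (nat_lit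 0) (.ax 3 5 9 13 4), .t 1 (nat_lit 0) (.ax 3 5 10 11 4), .t 1 (nat_lit 0) (.ax 3 5 10 11 7), .t 1 (nat_lit 0) (.ax 3 5 10 13 5), .t 1 (nat_lit 0) (.ax 3 5 10 13 7), .t 1 (nat_lit 0) (.ax 3 5 11 12 4), .t 1 (nat_lit 0) (.ax 3 5 11 12 7), .t 1 (nat_lit 0) (.ax 3 5 11 13 7), .t 1 (nat_lit 0) (.ax 3 6 9 10 1), .t 1 (nat_lit 0) (.ax 3 6 9 10 4), .t 1 (nat_lit 0) (.ax 3 6 9 11 4), .t 1 (nat_lit 0) (.ax 3 6 10 11 4), .t 1 (nat_lit 0) (.ax 3 6 10 11 5), .t 1 (nat_lit 0) (.ax 3 6 10 12 0), .t 1 (nat_lit 0) (.ax 3 6 10 12 5), .t 1 (nat_lit 0) (.ax 3 6 10 13 7), .t 1 (nat_lit 0) (.ax 3 6 11 12 0), .t 1 (nat_lit 0) (.ax 3 6 11 12 4), .t 1 (nat_lit 0) (.ax 3 6 11 12 5)] (by decide +kernel) (by decide +kernel)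
theorem b7 : B 224 256 := Blk.of_chk [.t 1 (nat_lit 0) (.ax 3 6 11 12 7), .t 1 (nat_lit 0) (.ax 3 6 11 13 5), .t 1 (nat_lit 0) (.ax 3 6 11 13 6), .t 1 (nat_lit 0) (.ax 3 6 11 13 7), .t 1 (nat_lit 0) (.ax 3 6 12 13 2), .t 1 (nat_lit 0) (.ax 3 6 12 13 4), .t 1 (nat_lit 0) (.ax 3 7 8 11 0), .t 1 (nat_lit 0) (.ax 3 7 8 12 0), .t 1 (nat_lit 0) (.ax 3 7 8 13 0), .t 1 (nat_lit 0) (.ax 3 7 9 11 0), .t 1 (nat_lit 0) (.ax 3 7 9 12 0), .t 1 (nat_lit 0) (.ax 3 7 9 14 0), .t 1 (nat_lit 0) (.ax 3 7 9 15 0), .t 1 (nat_lit 0) (.ax 3 7 9 17 0), .t 1 (nat_lit 0) (.ax 3 7 9 18 0), .t 1 (nat_lit 0) (.ax 3 7 9 19 0), .t 1 (nat_lit 0) (.ax 3 7 9 20 0), .t 1 (nat_lit 0) (.ax 3 7 9 21 0), .t 1 (nat_lit 0) (.ax 3 7 9 22 0), .t 1 (nat_lit 0) (.ax 3 7 10 11 0), .t 1 (nat_lit 0) (.ax 3 8 10 11 0), .t 1 (nat_lit 0) (.ax 3 8 10 12 0), .t 1 (nat_lit 0) (.ax 3 9 10 12 0),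 .t 1 (nat_lit 0) (.ax 3 9 10 12 5), .t 1 (nat_lit 0) (.ax 3 9 11 12 0), .t 1 (nat_lit 0) (.ax 3 9 11 12 5), .t 1 (nat_lit 0) (.ax 3 9 13 14 0), .t 1 (nat_lit 0) (.ax 3 9 13 15 0), .t 1 (nat_lit 0) (.ax 3 9 13 17 0), .t 1 (nat_lit 0) (.ax 3 9 13 18 0), .t 1 (nat_lit 0) (.ax 3 9 13 19 0), .t 1 (nat_lit 0) (.ax 3 9 13 20 0)] (by decide +kernel) (by decide +kernel)
theorem b8 : B 256 288 := Blk.of_chk [.t 1 (nat_lit 0) (.ax 3 9 13 21 0), .t 1 (nat_lit 0) (.ax 3 9 13 22 0), .t 1 (nat_lit 0) (.ax 3 11 12 13 4), .t 1 (nat_lit 0) (.ax 3 11 13 22 4), .t 1 (nat_lit 0) (.ax 4 5 6 7 2), .t 1 (nat_lit 0) (.ax 4 5 6 9 0), .t 1 (nat_lit 0) (.ax 4 5 6 9 7), .t 1 (nat_lit 0) (.ax 4 5 6 10 4), .t 1 (nat_lit 0) (.ax 4 5 6 11 4), .t 1 (nat_lit 0) (.ax 4 5 6 11 5), .t 1 (nat_lit 0) (.ax 4 5 6 12 4), .t 1 (nat_lit 0) (.ax 4 5 6 12 5), .t 1 (nat_lit 0) (.ax 4 5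 6 13 0), .t 1 (nat_lit 0) (.ax 4 5 7 8 3), .t 1 (nat_lit 0) (.ax 4 5 7 10 3), .t 1 (nat_lit 0) (.ax 4 5 7 11 3), .t 1 (nat_lit 0) (.ax 4 5 7 12 3), .t 1 (nat_lit 0) (.ax 4 5 7 14 3), .t 1 (nat_lit 0) (.ax 4 5 7 15 3), .t 1 (nat_lit 0) (.ax 4 5 7 16 3), .t 1 (nat_lit 0) (.ax 4 5 7 17 3), .t 1 (nat_lit 0) (.ax 4 5 7 18 3), .t 1 (nat_lit 0) (.ax 4 5 7 19 3), .t 1 (nat_lit 0) (.ax 4 5 7 20 3), .t 1 (nat_lit 0) (.ax 4 5 7 21 3), .t 1 (nat_lit 0) (.ax 4 5 7 22 3), .t 1 (nat_lit 0) (.ax 4 5 8 9 0), .t 1 (nat_lit 0) (.ax 4 5 9 11 4), .t 1 (nat_lit 0) (.ax 4 5 9 12 4), .t 1 (nat_lit 0) (.ax 4 5 9 13 4), .t 1 (nat_lit 0) (.ax 4 5 10 13 7), .t 1 (nat_lit 0) (.ax 4 5 11 12 2)] (by decide +kernel) (by decide +kernel)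
theorem b9 : B 288 320 := Blk.of_chk [.t 1 (nat_lit 0) (.ax 4 5 11 13 7), .t 1 (nat_lit 0) (.ax 4 6 7 8 3), .t 1 (nat_lit 0) (.ax 4 6 7 10 3), .t 1 (nat_lit 0) (.ax 4 6 7 11 3), .t 1 (nat_lit 0) (.ax 4 6 7 12 3), .t 1 (nat_lit 0) (.ax 4 6 7 13 3), .t 1 (nat_lit 0) (.ax 4 6 7 14 3), .t 1 (nat_lit 0) (.ax 4 6 7 15 3), .t 1 (nat_lit 0) (.ax 4 6 7 17 3), .t 1 (nat_lit 0) (.ax 4 6 7 18 3), .t 1 (nat_lit 0) (.ax 4 6 7 19 3), .t 1 (nat_lit 0) (.ax 4 6 7 20 3), .t 1 (nat_lit 0) (.ax 4 6 7 21 3), .t 1 (nat_lit 0) (.ax 4 6 7 22 3), .t 1 (nat_lit 0) (.ax 4 6 8 9 1), .t 1 (nat_lit 0) (.ax 4 6 9 10 4), .t 1 (nat_lit 0) (.ax 4 6 9 11 4), .t 1 (nat_lit 0) (.ax 4 6 9 12 4), .t 1 (nat_lit 0) (.ax 4 6 9 13 4), .t 1 (nat_lit 0) (.ax 4 6 10 12 5), .t 1 (nat_lit 0) (.ax 4 6 10 13 1), .t 1 (nat_lit 0) (.ax 4 6 10 13 7), .t 1 (nat_lit 0) (.ax 4 6 11 12 5), .t 1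 (nat_lit 0) (.ax 4 6 11 13 1), .t 1 (nat_lit 0) (.ax 4 6 11 13 7), .t 1 (nat_lit 0) (.ax 4 7 8 10 0), .t 1 (nat_lit 0) (.ax 4 7 8 12 0), .t 1 (nat_lit 0) (.ax 4 7 8 13 0), .t 1 (nat_lit 0) (.ax 4 7 9 10 0), .t 1 (nat_lit 0) (.ax 4 7 9 11 0), .t 1 (nat_lit 0) (.ax 4 7 9 12 0), .t 1 (nat_lit 0) (.ax 4 7 9 14 0)] (by decide +kernel) (by decide +kernel)
theorem b10 : B 320 352 := Blk.of_chk [.t 1 (nat_lit 0) (.ax 4 7 9 15 0), .t 1 (nat_lit 0) (.ax 4 7 9 16 0), .t 1 (nat_lit 0) (.ax 4 7 9 17 0), .t 1 (nat_lit 0) (.ax 4 7 9 18 0), .t 1 (nat_lit 0) (.ax 4 7 9 19 0), .t 1 (nat_lit 0) (.ax 4 7 9 20 0), .t 1 (nat_lit 0) (.ax 4 7 9 21 0), .t 1 (nat_lit 0) (.ax 4 7 9 22 0), .t 1 (nat_lit 0) (.ax 4 7 11 13 0), .t 1 (nat_lit 0) (.ax 4 8 10 12 0), .t 1 (nat_lit 0) (.ax 4 8 10 13 0), .t 1 (nat_lit 0) (.ax 4 8 11 13 0), .t 1 (nat_lit 0) (.ax 4 9 10 12 5),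 .t 1 (nat_lit 0) (.ax 4 9 10 19 0), .t 1 (nat_lit 0) (.ax 4 9 11 12 0), .t 1 (nat_lit 0) (.ax 4 9 11 12 5), .t 1 (nat_lit 0) (.ax 4 9 13 14 0), .t 1 (nat_lit 0) (.ax 4 9 13 15 0), .t 1 (nat_lit 0) (.ax 4 9 13 17 0), .t 1 (nat_lit 0) (.ax 4 9 13 18 0), .t 1 (nat_lit 0) (.ax 4 9 13 19 0), .t 1 (nat_lit 0) (.ax 4 9 13 20 0), .t 1 (nat_lit 0) (.ax 4 9 13 21 0), .t 1 (nat_lit 0) (.ax 4 9 13 22 0), .t 1 (nat_lit 0) (.ax 4 10 11 13 0), .t 1 (nat_lit 0) (.ax 4 10 11 13 1), .t 1 (nat_lit 0) (.ax 4 10 11 22 0), .t 1 (nat_lit 0) (.ax 4 10 12 13 1), .t 1 (nat_lit 0) (.ax 4 10 12 13 6), .t 1 (nat_lit 0) (.ax 4 10 12 19 5), .t 1 (nat_lit 0) (.ax 4 10 12 22 3), .t 1 (nat_lit 0) (.ax 4 10 13 22 4)] (by decide +kernel) (by decide +kernel)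
theorem b11 : B 352 384 := Blk.of_chk [.t 1 (nat_lit 0) (.ax 4 11 12 13 1), .t 1 (nat_lit 0) (.ax 4 11 12 13 6), .t 1 (nat_lit 0) (.ax 4 11 12 22 3), .t 1 (nat_lit 0) (.ax 4 11 13 22 4), .t 1 (nat_lit 0) (.ax 4 12 13 22 4), .t 1 (nat_lit 0) (.ax 5 7 9 10 0), .t 1 (nat_lit 0) (.ax 5 7 9 11 0), .t 1 (nat_lit 0) (.ax 5 7 9 12 0), .t 1 (nat_lit 0) (.ax 5 7 9 14 0), .t 1 (nat_lit 0) (.ax 5 7 9 15 0), .t 1 (nat_lit 0) (.ax 5 7 9 16 0), .t 1 (nat_lit 0) (.ax 5 7 9 17 0), .t 1 (nat_lit 0) (.ax 5 7 9 18 0), .t 1 (nat_lit 0) (.ax 5 7 9 19 0), .t 1 (nat_lit 0) (.ax 5 7 9 20 0), .t 1 (nat_lit 0) (.ax 5 7 9 21 0), .t 1 (nat_lit 0) (.ax 5 7 9 22 0), .t 1 (nat_lit 0) (.ax 5 8 9 10 4), .t 1 (nat_lit 0) (.ax 5 8 9 12 2), .t 1 (nat_lit 0) (.ax 5 8 9 12 4), .t 1 (nat_lit 0) (.ax 5 8 10 11 2), .t 1 (nat_lit 0) (.ax 5 8 11 12 0), .t 1 (nat_lit 0) (.ax 5 8 11 12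 5), .t 1 (nat_lit 0) (.ax 5 9 11 12 0), .t 1 (nat_lit 0) (.ax 5 9 11 12 5), .t 1 (nat_lit 0) (.ax 5 11 13 22 4), .t 1 (nat_lit 0) (.ax 6 7 8 11 0), .t 1 (nat_lit 0) (.ax 6 7 8 13 0), .t 1 (nat_lit 0) (.ax 6 7 9 10 0), .t 1 (nat_lit 0) (.ax 6 7 9 11 0), .t 1 (nat_lit 0) (.ax 6 7 9 12 0), .t 1 (nat_lit 0) (.ax 6 7 9 14 0)] (by decide +kernel) (by decide +kernel)
theorem b12 : B 384 416 := Blk.of_chk [.t 1 (nat_lit 0) (.ax 6 7 9 15 0), .t 1 (nat_lit 0) (.ax 6 7 9 17 0), .t 1 (nat_lit 0) (.ax 6 7 9 18 0), .t 1 (nat_lit 0) (.ax 6 7 9 19 0), .t 1 (nat_lit 0) (.ax 6 7 9 20 0), .t 1 (nat_lit 0) (.ax 6 7 9 21 0), .t 1 (nat_lit 0) (.ax 6 7 9 22 0), .t 1 (nat_lit 0) (.ax 6 8 9 11 2), .t 1 (nat_lit 0) (.ax 6 8 9 11 4), .t 1 (nat_lit 0) (.ax 6 8 10 11 0), .t 1 (nat_lit 0) (.ax 6 8 10 11 5), .t 1 (nat_lit 0) (.ax 6 9 10 11 0), .t 1 (nat_lit 0) (.ax 6 9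 10 11 5), .t 1 (nat_lit 0) (.ax 6 9 11 12 0), .t 1 (nat_lit 0) (.ax 6 9 13 14 0), .t 1 (nat_lit 0) (.ax 6 9 13 15 0), .t 1 (nat_lit 0) (.ax 6 9 13 17 0), .t 1 (nat_lit 0) (.ax 6 9 13 18 0), .t 1 (nat_lit 0) (.ax 6 9 13 19 0), .t 1 (nat_lit 0) (.ax 6 9 13 20 0), .t 1 (nat_lit 0) (.ax 6 9 13 21 0), .t 1 (nat_lit 0) (.ax 6 9 13 22 0), .t 1 (nat_lit 0) (.ax 6 11 13 22 4), .t 1 (nat_lit 0) (.ax 7 8 9 10 3), .t 1 (nat_lit 0) (.ax 7 8 9 11 3), .t 1 (nat_lit 0) (.ax 7 8 9 12 3), .t 1 (nat_lit 0) (.ax 7 8 9 14 3), .t 1 (nat_lit 0) (.ax 7 8 9 19 3), .t 1 (nat_lit 0) (.ax 7 8 9 22 3), .t 1 (nat_lit 0) (.ax 7 10 11 13 4), .t 1 (nat_lit 0) (.ax 7 11 12 13 4), .t 1 (nat_lit 0) (.ax 7 11 12 22 4)] (by decide +kernel) (by decide +kernel)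
theorem b13 : B 416 448 := Blk.of_chk [.t 1 (nat_lit 0) (.ax 8 9 10 11 0), .t 1 (nat_lit 0) (.ax 8 9 10 11 2), .t 1 (nat_lit 0) (.ax 8 9 10 11 4), .t 1 (nat_lit 0) (.ax 8 9 10 11 5), .t 1 (nat_lit 0) (.ax 8 9 10 12 0), .t 1 (nat_lit 0) (.ax 8 9 10 12 5), .t 1 (nat_lit 0) (.ax 8 9 10 14 2), .t 1 (nat_lit 0) (.ax 8 9 10 14 4), .t 1 (nat_lit 0) (.ax 8 9 11 12 0), .t 1 (nat_lit 0) (.ax 8 9 11 12 2), .t 1 (nat_lit 0) (.ax 8 9 11 12 4), .t 1 (nat_lit 0) (.ax 8 9 11 12 5), .t 1 (nat_lit 0) (.ax 8 9 13 22 0), .t 1 (nat_lit 0) (.ax 8 10 11 12 1), .t 1 (nat_lit 0) (.ax 8 10 11 12 3), .t 1 (nat_lit 0) (.ax 8 10 11 12 4), .t 1 (nat_lit 0) (.ax 8 10 11 12 5), .t 1 (nat_lit 0) (.ax 8 10 11 13 4), .t 1 (nat_lit 0) (.ax 8 10 12 22 4), .t 1 (nat_lit 0) (.ax 8 11 12 13 4), .t 1 (nat_lit 0) (.ax 8 11 12 22 4), .t 1 (nat_lit 0) (.ax 9 10 11 12 3), .t 1 (nat_lit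 0) (.ax 9 10 11 12 5), .t 1 (nat_lit 0) (.ax 9 10 11 14 7), .t 1 (nat_lit 0) (.ax 9 10 11 15 3), .t 1 (nat_lit 0) (.ax 9 10 11 18 3), .t 1 (nat_lit 0) (.ax 9 10 11 19 3), .t 1 (nat_lit 0) (.ax 9 10 11 19 5), .t 1 (nat_lit 0) (.ax 9 10 11 19 7), .t 1 (nat_lit 0) (.ax 9 10 11 22 0), .t 1 (nat_lit 0) (.ax 9 10 11 22 2), .t 1 (nat_lit 0) (.ax 9 10 11 22 3)] (by decide +kernel) (by decide +kernel)
theorem b14 : B 448 480 := Blk.of_chk [.t 1 (nat_lit 0) (.ax 9 10 11 22 4), .t 1 (nat_lit 0) (.ax 9 10 12 15 2), .t 1 (nat_lit 0) (.ax 9 10 12 19 0), .t 1 (nat_lit 0) (.ax 9 10 12 19 1), .t 1 (nat_lit 0) (.ax 9 10 12 19 7), .t 1 (nat_lit 0) (.ax 9 10 12 22 3), .t 1 (nat_lit 0) (.ax 9 10 13 14 3), .t 1 (nat_lit 0) (.ax 9 10 13 15 3), .t 1 (nat_lit 0) (.ax 9 10 13 17 3), .t 1 (nat_lit 0) (.ax 9 10 13 18 3), .t 1 (nat_lit 0) (.ax 9 10 13 19 3), .t 1 (nat_lit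 0) (.ax 9 10 13 20 3), .t 1 (nat_lit 0) (.ax 9 10 13 21 3), .t 1 (nat_lit 0) (.ax 9 10 13 22 3), .t 1 (nat_lit 0) (.ax 9 10 14 19 0), .t 1 (nat_lit 0) (.ax 9 10 14 19 7), .t 1 (nat_lit 0) (.ax 9 10 19 22 4), .t 1 (nat_lit 0) (.ax 9 11 12 13 2), .t 1 (nat_lit 0) (.ax 9 11 12 14 0), .t 1 (nat_lit 0) (.ax 9 11 12 14 2), .t 1 (nat_lit 0) (.ax 9 11 12 14 6), .t 1 (nat_lit 0) (.ax 9 11 12 15 0), .t 1 (nat_lit 0) (.ax 9 11 12 15 2), .t 1 (nat_lit 0) (.ax 9 11 12 15 4), .t 1 (nat_lit 0) (.ax 9 11 12 15 5), .t 1 (nat_lit 0) (.ax 9 11 12 15 6), .t 1 (nat_lit 0) (.ax 9 11 12 16 0), .t 1 (nat_lit 0) (.ax 9 11 12 16 2), .t 1 (nat_lit 0) (.ax 9 11 12 16 4), .t 1 (nat_lit 0) (.ax 9 11 12 16 7), .t 1 (nat_lit 0) (.ax 9 11 12 19 1), .t 1 (nat_lit 0) (.ax 9 11 12 19 6)] (by decide +kernel) (by decide +kernel)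
theorem b15 : B 480 512 := Blk.of_chk [.t 1 (nat_lit 0) (.ax 9 11 12 19 7), .t 1 (nat_lit 0) (.ax 9 11 13 14 3), .t 1 (nat_lit 0) (.ax 9 11 13 15 3), .t 1 (nat_lit 0) (.ax 9 11 13 17 3), .t 1 (nat_lit 0) (.ax 9 11 13 18 3), .t 1 (nat_lit 0) (.ax 9 11 13 19 3), .t 1 (nat_lit 0) (.ax 9 11 13 20 3), .t 1 (nat_lit 0) (.ax 9 11 13 21 3), .t 1 (nat_lit 0) (.ax 9 11 13 22 3), .t 1 (nat_lit 0) (.ax 9 11 14 15 0), .t 1 (nat_lit 0) (.ax 9 11 14 15 2), .t 1 (nat_lit 0) (.ax 9 11 14 15 7), .t 1 (nat_lit 0) (.ax 9 11 14 19 0), .t 1 (nat_lit 0) (.ax 9 11 14 19 1), .t 1 (nat_lit 0) (.ax 9 11 14 19 2), .t 1 (nat_lit 0) (.ax 9 11 14 19 6), .t 1 (nat_lit 0) (.ax 9 11 14 19 7), .t 1 (nat_lit 0) (.ax 9 11 14 20 3), .t 1 (nat_lit 0) (.ax 9 11 14 22 0), .t 1 (nat_lit 0) (.ax 9 11 14 22 2), .t 1 (nat_lit 0) (.ax 9 11 15 16 3), .t 1 (nat_lit 0) (.ax 9 11 15 16 6),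 .t 1 (nat_lit 0) (.ax 9 11 15 19 1), .t 1 (nat_lit 0) (.ax 9 11 15 19 2), .t 1 (nat_lit 0) (.ax 9 11 15 19 3), .t 1 (nat_lit 0) (.ax 9 11 15 19 4), .t 1 (nat_lit 0) (.ax 9 11 15 19 6), .t 1 (nat_lit 0) (.ax 9 11 15 22 4), .t 1 (nat_lit 0) (.ax 9 11 17 19 0), .t 1 (nat_lit 0) (.ax 9 11 18 19 0), .t 1 (nat_lit 0) (.ax 9 11 18 19 1), .t 1 (nat_lit 0) (.ax 9 11 18 19 3)] (by decide +kernel) (by decide +kernel)
theorem b16 : B 512 544 := Blk.of_chk [.t 1 (nat_lit 0) (.ax 9 11 19 22 4), .t 1 (nat_lit 0) (.ax 9 12 13 14 3), .t 1 (nat_lit 0) (.ax 9 12 13 15 3), .t 1 (nat_lit 0) (.ax 9 12 13 17 3), .t 1 (nat_lit 0) (.ax 9 12 13 18 3), .t 1 (nat_lit 0) (.ax 9 12 13 19 3), .t 1 (nat_lit 0) (.ax 9 12 13 20 3), .t 1 (nat_lit 0) (.ax 9 12 13 21 3), .t 1 (nat_lit 0) (.ax 9 12 13 22 3), .t 1 (nat_lit 0) (.ax 9 12 14 16 2), .t 1 (nat_lit 0) (.ax 9 12 14 16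 4), .t 1 (nat_lit 0) (.ax 9 12 14 17 3), .t 1 (nat_lit 0) (.ax 9 12 14 19 1), .t 1 (nat_lit 0) (.ax 9 12 14 19 2), .t 1 (nat_lit 0) (.ax 9 12 14 19 4), .t 1 (nat_lit 0) (.ax 9 12 14 19 6), .t 1 (nat_lit 0) (.ax 9 12 14 20 3), .t 1 (nat_lit 0) (.ax 9 12 14 22 2), .t 1 (nat_lit 0) (.ax 9 12 14 22 6), .t 1 (nat_lit 0) (.ax 9 12 15 16 1), .t 1 (nat_lit 0) (.ax 9 12 15 16 3), .t 1 (nat_lit 0) (.ax 9 12 15 16 6), .t 1 (nat_lit 0) (.ax 9 12 15 19 1), .t 1 (nat_lit 0) (.ax 9 12 15 19 3), .t 1 (nat_lit 0) (.ax 9 12 15 19 4), .t 1 (nat_lit 0) (.ax 9 12 15 19 6), .t 1 (nat_lit 0) (.ax 9 12 16 19 4), .t 1 (nat_lit 0) (.ax 9 12 17 19 1), .t 1 (nat_lit 0) (.ax 9 12 18 19 1), .t 1 (nat_lit 0) (.ax 9 13 14 19 0), .t 1 (nat_lit 0) (.ax 9 13 14 22 0), .t 1 (nat_lit 0) (.ax 9 13 16 18 0)] (by decide +kernel) (by decide +kernel)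
theorem b17 : B 544 576 := Blk.of_chk [.t 1 (nat_lit 0) (.ax 9 13 16 21 0), .t 1 (nat_lit 0) (.ax 9 14 15 16 0), .t 1 (nat_lit 0) (.ax 9 14 15 19 0), .t 1 (nat_lit 0) (.ax 9 14 15 19 4), .t 1 (nat_lit 0) (.ax 9 14 16 19 4), .t 1 (nat_lit 0) (.ax 9 14 17 19 0), .t 1 (nat_lit 0) (.ax 9 14 17 19 1), .t 1 (nat_lit 0) (.ax 9 14 17 19 7), .t 1 (nat_lit 0) (.ax 9 14 18 19 0), .t 1 (nat_lit 0) (.ax 9 14 18 19 1), .t 1 (nat_lit 0) (.ax 9 14 19 20 4), .t 1 (nat_lit 0) (.ax 9 14 19 22 4), .t 1 (nat_lit 0) (.ax 9 15 16 19 4), .t 1 (nat_lit 0) (.ax 9 15 17 19 0), .t 1 (nat_lit 0) (.ax 9 15 18 19 0), .t 1 (nat_lit 0) (.ax 9 16 17 18 0), .t 1 (nat_lit 0) (.ax 9 16 19 21 0), .t 1 (nat_lit 0) (.ax 9 17 18 19 0), .t 1 (nat_lit 0) (.ax 9 17 18 19 1), .t 1 (nat_lit 0) (.ax 9 17 18 19 6), .t 1 (nat_lit 0) (.ax 10 11 12 13 0), .t 1 (nat_lit 0) (.ax 10 11 12 13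 2), .t 1 (nat_lit 0) (.ax 10 11 12 13 4), .t 1 (nat_lit 0) (.ax 10 11 12 13 5), .t 1 (nat_lit 0) (.ax 10 11 12 15 0), .t 1 (nat_lit 0) (.ax 10 11 12 19 7), .t 1 (nat_lit 0) (.ax 10 11 12 22 2), .t 1 (nat_lit 0) (.ax 10 11 12 22 4), .t 1 (nat_lit 0) (.ax 10 11 13 15 2), .t 1 (nat_lit 0) (.ax 10 11 13 15 4), .t 1 (nat_lit 0) (.ax 10 11 13 22 4), .t 1 (nat_lit 0) (.ax 10 11 14 15 0)] (by decide +kernel) (by decide +kernel)
theorem b18 : B 576 608 := Blk.of_chk [.t 1 (nat_lit 0) (.ax 10 11 14 15 5), .t 1 (nat_lit 0) (.ax 10 11 15 22 4), .t 1 (nat_lit 0) (.ax 10 11 18 22 4), .t 1 (nat_lit 0) (.ax 10 11 19 22 4), .t 1 (nat_lit 0) (.ax 10 12 13 15 1), .t 1 (nat_lit 0) (.ax 10 12 13 15 4), .t 1 (nat_lit 0) (.ax 10 12 13 19 4), .t 1 (nat_lit 0) (.ax 10 12 15 19 4), .t 1 (nat_lit 0) (.ax 10 12 19 22 4), .t 1 (nat_lit 0) (.ax 10 13 14 15 0), .t 1 (nat_lit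 0) (.ax 10 13 14 15 5), .t 1 (nat_lit 0) (.ax 10 14 15 19 4), .t 1 (nat_lit 0) (.ax 11 12 13 14 1), .t 1 (nat_lit 0) (.ax 11 12 13 14 4), .t 1 (nat_lit 0) (.ax 11 12 13 15 1), .t 1 (nat_lit 0) (.ax 11 12 13 15 2), .t 1 (nat_lit 0) (.ax 11 12 13 15 4), .t 1 (nat_lit 0) (.ax 11 12 13 19 4), .t 1 (nat_lit 0) (.ax 11 12 14 15 0), .t 1 (nat_lit 0) (.ax 11 12 14 15 3), .t 1 (nat_lit 0) (.ax 11 12 14 15 5), .t 1 (nat_lit 0) (.ax 11 12 14 19 4), .t 1 (nat_lit 0) (.ax 11 12 14 20 2), .t 1 (nat_lit 0) (.ax 11 12 14 22 4), .t 1 (nat_lit 0) (.ax 11 12 15 16 3), .t 1 (nat_lit 0) (.ax 11 12 15 16 4), .t 1 (nat_lit 0) (.ax 11 12 15 22 4), .t 1 (nat_lit 0) (.ax 11 12 19 22 4), .t 1 (nat_lit 0) (.ax 11 13 14 15 0), .t 1 (nat_lit 0) (.ax 11 13 14 15 5), .t 1 (nat_lit 0) (.ax 11 13 14 19 0), .t 1 (nat_lit 0) (.ax 11 13 15 22 0)] (by decide +kernel) (by decide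 +kernel)
theorem b19 : B 608 640 := Blk.of_chk [.t 1 (nat_lit 0) (.ax 11 13 16 21 0), .t 1 (nat_lit 0) (.ax 11 14 15 16 4), .t 1 (nat_lit 0) (.ax 11 14 15 17 4), .t 1 (nat_lit 0) (.ax 11 14 15 18 2), .t 1 (nat_lit 0) (.ax 11 14 15 18 4), .t 1 (nat_lit 0) (.ax 11 14 15 19 0), .t 1 (nat_lit 0) (.ax 11 14 15 19 2), .t 1 (nat_lit 0) (.ax 11 14 15 19 4), .t 1 (nat_lit 0) (.ax 11 14 15 20 4), .t 1 (nat_lit 0) (.ax 11 14 15 22 2), .t 1 (nat_lit 0) (.ax 11 14 15 22 4), .t 1 (nat_lit 0) (.ax 11 14 17 19 0), .t 1 (nat_lit 0) (.ax 11 14 17 20 0), .t 1 (nat_lit 0) (.ax 11 14 17 20 2), .t 1 (nat_lit 0) (.ax 11 14 18 19 0), .t 1 (nat_lit 0) (.ax 11 14 18 19 2), .t 1 (nat_lit 0) (.ax 11 14 18 20 0), .t 1 (nat_lit 0) (.ax 11 14 18 20 2), .t 1 (nat_lit 0) (.ax 11 14 19 20 4), .t 1 (nat_lit 0) (.ax 11 14 19 20 6), .t 1 (nat_lit 0) (.ax 11 14 20 22 4), .t 1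 (nat_lit 0) (.ax 11 14 21 22 5), .t 1 (nat_lit 0) (.ax 11 15 18 19 0), .t 1 (nat_lit 0) (.ax 11 15 18 19 2), .t 1 (nat_lit 0) (.ax 11 16 19 21 0), .t 1 (nat_lit 0) (.ax 11 17 20 22 4), .t 1 (nat_lit 0) (.ax 11 17 21 22 5), .t 1 (nat_lit 0) (.ax 11 18 19 22 4), .t 1 (nat_lit 0) (.ax 11 18 20 22 4), .t 1 (nat_lit 0) (.ax 11 18 21 22 5), .t 1 (nat_lit 0) (.ax 11 20 21 22 5), .t 1 (nat_lit 0) (.ax 12 13 14 15 0)] (by decide +kernel) (by decide +kernel)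
theorem b20 : B 640 672 := Blk.of_chk [.t 1 (nat_lit 0) (.ax 12 13 14 15 2), .t 1 (nat_lit 0) (.ax 12 13 14 15 4), .t 1 (nat_lit 0) (.ax 12 13 14 15 5), .t 1 (nat_lit 0) (.ax 12 13 14 19 0), .t 1 (nat_lit 0) (.ax 12 13 14 22 0), .t 1 (nat_lit 0) (.ax 12 13 15 22 0), .t 1 (nat_lit 0) (.ax 12 13 16 17 0), .t 1 (nat_lit 0) (.ax 12 13 16 18 0), .t 1 (nat_lit 0) (.ax 12 13 16 20 0), .t 1 (nat_lit 0) (.ax 12 13 16 21 0), .t 1 (nat_lit 0) (.ax 12 13 16 22 0), .t 1 (nat_lit 0) (.ax 12 14 15 16 4), .t 1 (nat_lit 0) (.ax 12 14 15 17 4), .t 1 (nat_lit 0) (.ax 12 14 15 18 4), .t 1 (nat_lit 0) (.ax 12 14 15 19 2), .t 1 (nat_lit 0) (.ax 12 14 15 19 4), .t 1 (nat_lit 0) (.ax 12 14 15 20 4), .t 1 (nat_lit 0) (.ax 12 14 16 17 4), .t 1 (nat_lit 0) (.ax 12 14 16 19 4), .t 1 (nat_lit 0) (.ax 12 14 16 20 4), .t 1 (nat_lit 0) (.ax 12 14 17 18 0), .t 1 (nat_lit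 0) (.ax 12 14 17 18 5), .t 1 (nat_lit 0) (.ax 12 14 17 19 0), .t 1 (nat_lit 0) (.ax 12 14 17 19 2), .t 1 (nat_lit 0) (.ax 12 14 17 19 4), .t 1 (nat_lit 0) (.ax 12 14 17 20 0), .t 1 (nat_lit 0) (.ax 12 14 17 20 2), .t 1 (nat_lit 0) (.ax 12 14 18 19 0), .t 1 (nat_lit 0) (.ax 12 14 18 19 2), .t 1 (nat_lit 0) (.ax 12 14 18 19 4), .t 1 (nat_lit 0) (.ax 12 14 18 19 5), .t 1 (nat_lit 0) (.ax 12 14 18 20 0)] (by decide +kernel) (by decide +kernel)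
theorem b21 : B 672 704 := Blk.of_chk [.t 1 (nat_lit 0) (.ax 12 14 19 20 4), .t 1 (nat_lit 0) (.ax 12 14 19 20 6), .t 1 (nat_lit 0) (.ax 12 14 19 22 4), .t 1 (nat_lit 0) (.ax 12 14 20 22 4), .t 1 (nat_lit 0) (.ax 12 14 21 22 5), .t 1 (nat_lit 0) (.ax 12 16 19 21 0), .t 1 (nat_lit 0) (.ax 12 17 18 19 0), .t 1 (nat_lit 0) (.ax 12 17 18 19 1), .t 1 (nat_lit 0) (.ax 12 17 18 19 4), .t 1 (nat_lit 0) (.ax 12 17 18 19 5), .t 1 (nat_lit 0) (.ax 12 17 20 22 4), .t 1 (nat_lit 0) (.ax 12 17 21 22 5), .t 1 (nat_lit 0) (.ax 12 18 20 22 4), .t 1 (nat_lit 0) (.ax 12 18 21 22 5), .t 1 (nat_lit 0) (.ax 12 20 21 22 5), .t 1 (nat_lit 0) (.ax 13 14 15 22 0), .t 1 (nat_lit 0) (.ax 13 14 16 17 3), .t 1 (nat_lit 0) (.ax 13 14 16 18 3), .t 1 (nat_lit 0) (.ax 13 14 16 20 3), .t 1 (nat_lit 0) (.ax 13 14 16 21 3), .t 1 (nat_lit 0) (.ax 13 14 16 22 3), .t 1 (nat_lit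 0) (.ax 13 14 19 22 4), .t 1 (nat_lit 0) (.ax 13 15 16 17 3), .t 1 (nat_lit 0) (.ax 13 15 16 18 3), .t 1 (nat_lit 0) (.ax 13 15 16 20 3), .t 1 (nat_lit 0) (.ax 13 15 16 22 3), .t 1 (nat_lit 0) (.ax 14 15 16 17 4), .t 1 (nat_lit 0) (.ax 14 15 16 18 4), .t 1 (nat_lit 0) (.ax 14 15 16 19 4), .t 1 (nat_lit 0) (.ax 14 15 16 20 4), .t 1 (nat_lit 0) (.ax 14 15 16 22 4), .t 1 (nat_lit 0) (.ax 14 15 17 19 2)] (by decide +kernel) (by decide +kernel)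
theorem b22 : B 704 736 := Blk.of_chk [.t 1 (nat_lit 0) (.ax 14 15 18 19 0), .t 1 (nat_lit 0) (.ax 14 15 18 19 2), .t 1 (nat_lit 0) (.ax 14 15 18 20 0), .t 1 (nat_lit 0) (.ax 14 15 18 20 2), .t 1 (nat_lit 0) (.ax 14 16 17 18 0), .t 1 (nat_lit 0) (.ax 14 16 19 21 0), .t 1 (nat_lit 0) (.ax 14 17 18 19 0), .t 1 (nat_lit 0) (.ax 14 17 18 19 1), .t 1 (nat_lit 0) (.ax 14 17 18 19 4), .t 1 (nat_lit 0) (.ax 14 17 18 19 5), .t 1 (nat_lit 0) (.ax 14 17 18 19 6), .t 1 (nat_lit 0) (.ax 14 17 18 20 0), .t 1 (nat_lit 0) (.ax 14 17 18 20 1), .t 1 (nat_lit 0) (.ax 14 17 19 20 4), .t 1 (nat_lit 0) (.ax 14 17 20 22 4), .t 1 (nat_lit 0) (.ax 14 17 21 22 5), .t 1 (nat_lit 0) (.ax 14 18 19 20 4), .t 1 (nat_lit 0) (.ax 14 18 20 22 4), .t 1 (nat_lit 0) (.ax 14 18 21 22 5), .t 1 (nat_lit 0) (.ax 14 20 21 22 5), .t 1 (nat_lit 0) (.ax 15 17 18 19 1), .t 1 (nat_lit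 0) (.ax 15 18 19 20 4), .t 1 (nat_lit 0) (.ax 16 17 18 19 2), .t 1 (nat_lit 0) (.ax 16 17 19 21 3), .t 1 (nat_lit 0) (.ax 16 18 19 21 3), .t 1 (nat_lit 0) (.ax 17 20 21 22 5), .t 1 (nat_lit 0) (.ax 18 20 21 22 5), .t 1 (nat_lit 0) (.fa 6), .t 1 (nat_lit 0) (.cp 1 3), .t 1 (nat_lit 0) (.fa 3), .t 1 (nat_lit 0) (.cp 2 2), .t 1 (nat_lit 0) (.fa 6)] (by decide +kernel) (by decide +kernel)
theorem b23 : B 736 768 := Blk.of_chk [.t 1 (nat_lit 0) (.fa 5), .t 1 (nat_lit 0) (.cp 2 3), .t 1 (nat_lit 0) (.fa 2), .t 1 (nat_lit 0) (.cn 1 2), .t 7 (nat_lit 0xa200a100a0008e008d0011) (.z (.node 16 0 (.node 1 13 (.leaf [1,14,15,16,2]) (.edon 0 7 (.leaf [3,4,5,6]) (.free 2 [7,8,9,10,11,12,13]))) (.free 2 [0,17,18,19,20,21,22]))), .t 1 (nat_lit 0) (.cp 2 3), .t 1 (nat_lit 0) (.cn 2 3), .t 1 (nat_lit 0) (.fa 3), .t 1 (nat_lit 0) (.fa 3), .t 8 (nat_lit 0x283025e025d0255025302510250)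 (.z (.node 0 7 (.edon 0 11 (.leaf [0,8,9,10]) (.edon 0 16 (.leaf [11,12,13,15,14]) (.free 2 [16,17,18,19,20,21,22]))) (.free 2 [1,2,3,4,5,6,7]))), .t 1 (nat_lit 0) (.cp 4 3), .t 1 (nat_lit 0) (.fa 4), .t 5 (nat_lit 0x2d4027f02760275) (.z (.node 0 7 (.edon 0 11 (.leaf [0,8,9,10]) (.node 14 19 (.leaf [11,14,20,22,21]) (.free 2 [12,13,15,16,17,18,19]))) (.free 2 [1,2,3,4,5,6,7]))), .t 1 (nat_lit 0) (.cp 4 3), .t 1 (nat_lit 0) (.cn 4 3), .t 7 (nat_lit 0x2da027f027b027a02830280) (.z (.node 0 7 (.edon 0 11 (.leaf [0,8,9,10]) (.edon 14 16 (.leaf [12,13,15,14]) (.node 17 19 (.leaf [11,17,20,22,21]) (.leaf [16,18,19])))) (.free 2 [1,2,3,4,5,6,7]))), .t 5 (nat_lit 0x2da027f027b027a) (.z (.node 0 7 (.edon 0 11 (.leaf [0,8,9,10]) (.node 11 19 (.leaf [11,17,20,22,21]) (.free 2 [12,13,14,15,16,18,19]))) (.free 2 [1,2,3,4,5,6,7]))), .t 10 (nat_lit 0x2cd02c902c8009600160003000202d102ce)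 (.z (.edon 13 4 (.node 0 10 (.node 0 20 (.leaf [0,21,22]) (.node 14 16 (.leaf [14,18,19,20,17]) (.leaf [13,15,16]))) (.leaf [1,3,6,10,2])) (.free 2 [4,5,7,8,9,11,12]))), .t 6 (nat_lit 0x10a00c700c400aa00a5) (.z (.node 11 1 (.edon 7 11 (.leaf [7,8,9]) (.leaf [3,4,5,11,6])) (.free 4 [0,1,2,10,12,13,14,15,16,17,18,19,20,21,22]))), .t 1 (nat_lit 0) (.fa 6), .t 1 (nat_lit 0) (.fa 6), .t 10 (nat_lit 0x2cc02ca02c7009600160003000202d102ce) (.z (.edon 13 4 (.node 0 10 (.node 0 20 (.leaf [0,21,22]) (.node 14 16 (.leaf [14,17,19,20,18]) (.leaf [13,15,16]))) (.leaf [1,3,6,10,2])) (.free 2 [4,5,7,8,9,11,12]))), .t 5 (nat_lit 0x2db027f027e027d) (.z (.node 0 7 (.node 9 19 (.edon 0 11 (.leaf [0,8,9,10]) (.leaf [11,18,20,22,21])) (.free 2 [12,13,14,15,16,17,19])) (.free 2 [1,2,3,4,5,6,7]))), .t 1 (nat_lit 0) (.cn 4 2), .t 1 (nat_lit 0) (.fa 6), .t 1 (nat_lit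 0) (.cn 4 3), .t 1 (nat_lit 0) (.fa 5), .t 1 (nat_lit 0) (.cn 4 3), .t 5 (nat_lit 0x1a401a102820281) (.z (.node 0 7 (.node 0 11 (.edon 0 16 (.leaf [0,12,13,14,15]) (.free 2 [16,17,18,19,20,21,22])) (.leaf [8,9,11,10])) (.free 2 [1,2,3,4,5,6,7]))), .t 1 (nat_lit 0) (.fa 5), .t 8 (nat_lit 0x24f024e024d025e025d02550254) (.z (.node 0 7 (.edon 0 11 (.leaf [0,8,9,10]) (.edon 0 16 (.leaf [11,13,15,14,12]) (.free 2 [16,17,18,19,20,21,22]))) (.free 2 [1,2,3,4,5,6,7]))), .t 1 (nat_lit 0) (.cn 2 3)] (by decide +kernel) (by decide +kernel)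
theorem b24 : B 768 800 := Blk.of_chk [.t 1 (nat_lit 0) (.cn 2 3), .t 6 (nat_lit 0x13000d700d600b900a9) (.z (.edon 9 5 (.node 1 10 (.free 4 [0,1,2,11,12,13,14,15,16,17,18,19,20,21,22]) (.leaf [3,4,9,10,6])) (.free 1 [5,7,8]))), .t 1 (nat_lit 0) (.fa 4), .t 11 (nat_lit 0x2cc02ca02c7009f009e00690068001002d102ce) (.z (.node 1 9 (.node 0 12 (.node 0 20 (.leaf [0,21,22]) (.node 14 16 (.leaf [14,17,19,20,18]) (.leaf [13,15,16]))) (.leaf [1,10,11,12,2])) (.free 2 [3,4,5,6,7,8,9]))), .t 5 (nat_lit 0x2db02af02ae02ad) (.z (.node 0 7 (.node 9 19 (.edon 0 12 (.leaf [0,8,9,10]) (.leaf [12,18,20,22,21])) (.free 2 [11,13,14,15,16,17,19])) (.free 2 [1,2,3,4,5,6,7]))), .t 1 (nat_lit 0) (.cn 4 3), .t 1 (nat_lit 0) (.cn 4 3), .t 5 (nat_lit 0x2da02af02ac02ab) (.z (.node 0 7 (.node 9 19 (.edon 0 12 (.leaf [0,8,9,10]) (.leaf [12,17,20,22,21])) (.free 2 [11,13,14,15,16,18,19]))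 (.free 2 [1,2,3,4,5,6,7]))), .t 11 (nat_lit 0x2cd02c902c8009f009e00690068001002d102ce) (.z (.node 1 9 (.node 0 12 (.node 0 20 (.leaf [0,21,22]) (.node 14 16 (.leaf [14,18,19,20,17]) (.leaf [13,15,16]))) (.leaf [1,10,11,12,2])) (.free 2 [3,4,5,6,7,8,9]))), .t 1 (nat_lit 0) (.cn 4 3), .t 8 (nat_lit 0x25e024b024a02410240023e023d) (.z (.node 0 7 (.edon 0 16 (.node 9 14 (.leaf [0,8,9,12]) (.leaf [10,11,13,15,14])) (.free 2 [16,17,18,19,20,21,22])) (.free 2 [1,2,3,4,5,6,7]))), .t 1 (nat_lit 0) (.cp 4 3), .t 5 (nat_lit 0x2d402af02a502a4) (.z (.node 0 7 (.edon 0 11 (.leaf [0,8,9,10]) (.node 14 19 (.leaf [12,14,20,22,21]) (.free 2 [11,13,15,16,17,18,19]))) (.free 2 [1,2,3,4,5,6,7]))), .t 1 (nat_lit 0) (.cp 4 3), .t 8 (nat_lit 0x1a4018d018c018b018a01890188) (.z (.edon 6 13 (.node 6 7 (.leaf [6,8,9,11,10]) (.leaf [4,5,7])) (.free 4 [0,1,2,3,12,13,14,15,16,17,18,19,20,21,22]))),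 .t 12 (nat_lit 0xe600e5009d009c0098004500440018000600050002) (.z (.edon 4 13 (.free 2 [4,5,7,8,9,10,11]) (.node 13 0 (.leaf [1,3,6,12,13,2]) (.free 3 [0,14,15,16,17,18,19,20,21,22])))), .t 5 (nat_lit 0x2db02d402d302d2) (.z (.node 0 7 (.node 9 19 (.edon 0 14 (.leaf [0,8,9,10]) (.leaf [14,18,20,22,21])) (.free 2 [11,12,13,15,16,17,19])) (.free 2 [1,2,3,4,5,6,7]))), .t 1 (nat_lit 0) (.cn 4 3), .t 8 (nat_lit 0x2390238023502460245023e023d) (.z (.node 0 7 (.edon 0 16 (.node 9 12 (.leaf [0,8,9,14]) (.leaf [10,11,13,15,12])) (.free 2 [16,17,18,19,20,21,22])) (.free 2 [1,2,3,4,5,6,7]))), .t 5 (nat_lit 0x251024f01a801a7) (.z (.node 0 7 (.edon 0 16 (.node 9 12 (.leaf [0,8,9,10,14]) (.leaf [11,13,15,12])) (.free 2 [16,17,18,19,20,21,22])) (.free 2 [1,2,3,4,5,6,7]))), .t 7 (nat_lit 0x2db02d402d302d20251024f) (.z (.node 0 7 (.edon 0 11 (.leaf [0,8,9,10])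 (.edon 12 16 (.leaf [11,13,15,12]) (.node 18 19 (.leaf [14,18,20,22,21]) (.leaf [16,17,19])))) (.free 2 [1,2,3,4,5,6,7]))), .t 7 (nat_lit 0x2da02d402d002cf0251024f) (.z (.node 0 7 (.edon 0 11 (.leaf [0,8,9,10]) (.edon 12 16 (.leaf [11,13,15,12]) (.node 17 19 (.leaf [14,17,20,22,21]) (.leaf [16,18,19])))) (.free 2 [1,2,3,4,5,6,7]))), .t 1 (nat_lit 0) (.cn 4 3), .t 5 (nat_lit 0x2da02d402d002cf) (.z (.node 0 7 (.node 9 19 (.edon 0 14 (.leaf [0,8,9,10]) (.leaf [14,17,20,22,21])) (.free 2 [11,12,13,15,16,18,19])) (.free 2 [1,2,3,4,5,6,7]))), .t 1 (nat_lit 0) (.cn 4 3), .t 1 (nat_lit 0) (.fa 4), .t 1 (nat_lit 0) (.fa 4), .t 1 (nat_lit 0) (.fa 4), .t 1 (nat_lit 0) (.cp 2 3), .t 13 (nat_lit 0x1a501a401a102cd02c902c801b001ae01ab01aa02d102ce) (.z (.node 0 7 (.node 0 12 (.node 0 20 (.leaf [0,21,22]) (.node 14 16 (.leaf [14,18,19,20,17]) (.leaf [13,15,16])))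 (.leaf [8,9,11,12,10])) (.free 2 [1,2,3,4,5,6,7]))), .t 10 (nat_lit 0x2cd02c902c8009a001a0005000302d102ce) (.z (.edon 13 4 (.node 0 12 (.node 0 20 (.leaf [0,21,22]) (.node 14 16 (.leaf [14,18,19,20,17]) (.leaf [13,15,16]))) (.leaf [1,3,10,12,2])) (.free 2 [4,5,6,7,8,9,11]))), .t 10 (nat_lit 0x2cc02ca02c7009a001a0005000302d102ce) (.z (.edon 13 4 (.node 0 12 (.node 0 20 (.leaf [0,21,22]) (.node 14 16 (.leaf [14,17,19,20,18]) (.leaf [13,15,16]))) (.leaf [1,3,10,12,2])) (.free 2 [4,5,6,7,8,9,11])))] (by decide +kernel) (by decide +kernel)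
theorem b25 : B 800 832 := Blk.of_chk [.t 13 (nat_lit 0x1a501a401a102cc02ca02c701b001ae01ab01aa02d102ce) (.z (.node 0 7 (.node 0 12 (.node 0 20 (.leaf [0,21,22]) (.node 14 16 (.leaf [14,17,19,20,18]) (.leaf [13,15,16]))) (.leaf [8,9,11,12,10])) (.free 2 [1,2,3,4,5,6,7]))), .t 5 (nat_lit 0x283028001a301a2) (.z (.node 0 7 (.edon 0 12 (.leaf [0,8,9,10,11]) (.edon 0 16 (.leaf [12,13,15,14]) (.free 2 [16,17,18,19,20,21,22]))) (.free 2 [1,2,3,4,5,6,7]))), .t 1 (nat_lit 0) (.cn 4 3), .t 1 (nat_lit 0) (.fa 4), .t 4 (nat_lit 0x2af01a301a2) (.z (.node 0 7 (.edon 0 12 (.leaf [0,8,9,10,11]) (.node 12 19 (.leaf [12,20,22,21]) (.free 2 [13,14,15,16,17,18,19]))) (.free 2 [1,2,3,4,5,6,7]))), .t 10 (nat_lit 0x2970296029502a902a8029e029d01a301a2) (.z (.node 0 7 (.edon 0 12 (.leaf [0,8,9,10,11]) (.edon 0 20 (.node 14 16 (.leaf [12,14,18,19,17]) (.leaf [13,15,16]))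 (.leaf [20,21,22]))) (.free 2 [1,2,3,4,5,6,7]))), .t 1 (nat_lit 0) (.fa 3), .t 1 (nat_lit 0) (.fa 4), .t 1 (nat_lit 0) (.cp 1 3), .t 1 (nat_lit 0) (.cn 4 2), .t 10 (nat_lit 0x2cc02ca02c7009500150005000102d102ce) (.z (.edon 13 4 (.node 0 12 (.node 0 20 (.leaf [0,21,22]) (.node 14 16 (.leaf [14,17,19,20,18]) (.leaf [13,15,16]))) (.leaf [1,3,5,12,2])) (.free 2 [4,6,7,8,9,10,11]))), .t 1 (nat_lit 0) (.cp 2 3), .t 1 (nat_lit 0) (.fa 4), .t 10 (nat_lit 0x2ca02aa02a7029f029c0299029801a301a2) (.z (.node 0 7 (.edon 0 12 (.leaf [0,8,9,10,11]) (.edon 0 20 (.node 14 16 (.leaf [12,14,17,19,18]) (.leaf [13,15,16])) (.leaf [20,21,22]))) (.free 2 [1,2,3,4,5,6,7]))), .t 1 (nat_lit 0) (.cn 2 3), .t 1 (nat_lit 0) (.fa 4), .t 10 (nat_lit 0x2cd02c902c802d102ce009a001a00050003) (.z (.node 20 0 (.edon 0 13 (.node 3 11 (.leaf [1,3,10,12,2]) (.free 2 [4,5,6,7,8,9,11]))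 (.node 14 16 (.leaf [14,18,19,20,17]) (.leaf [13,15,16]))) (.free 1 [0,21,22]))), .t 12 (nat_lit 0x2cc02ca02c702d102ce010c00cc00c900ab00a60010) (.z (.node 20 0 (.edon 0 13 (.node 1 12 (.leaf [1,10,11,2]) (.edon 7 12 (.leaf [7,8,9]) (.leaf [3,4,5,12,6]))) (.node 14 16 (.leaf [14,17,19,20,18]) (.leaf [13,15,16]))) (.free 1 [0,21,22]))), .t 13 (nat_lit 0x1a101ac01a901a601a502cc02ca02c701b101af02d102ce) (.z (.node 0 7 (.node 0 12 (.node 0 20 (.leaf [0,21,22]) (.node 14 16 (.leaf [14,17,19,20,18]) (.leaf [13,15,16]))) (.leaf [8,9,12,11,10])) (.free 2 [1,2,3,4,5,6,7]))), .t 10 (nat_lit 0x2cc02ca02c7009900190004000302d102ce) (.z (.edon 13 4 (.node 0 11 (.node 0 20 (.leaf [0,21,22]) (.node 14 16 (.leaf [14,17,19,20,18]) (.leaf [13,15,16]))) (.leaf [1,3,10,11,2])) (.free 2 [4,5,6,7,8,9,12]))), .t 12 (nat_lit 0x2cc02ca02c702d102ce01ac01a90096001600030002)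 (.z (.node 20 0 (.edon 0 13 (.node 7 11 (.edon 4 6 (.leaf [4,5,7]) (.leaf [1,3,6,10,2])) (.leaf [8,9,12,11])) (.node 14 16 (.leaf [14,17,19,20,18]) (.leaf [13,15,16]))) (.free 1 [0,21,22]))), .t 12 (nat_lit 0x2cc02ca02c702d102ce01ac01a90093001300030001) (.z (.node 20 0 (.edon 0 13 (.node 7 11 (.edon 4 5 (.leaf [4,6,7]) (.leaf [1,3,5,10,2])) (.leaf [8,9,12,11])) (.node 14 16 (.leaf [14,17,19,20,18]) (.leaf [13,15,16]))) (.free 1 [0,21,22]))), .t 12 (nat_lit 0x2cc02ca02c702d102ce010b00cb00ca00ab00a60010) (.z (.node 20 0 (.edon 0 13 (.node 1 12 (.leaf [1,10,11,2]) (.edon 7 12 (.leaf [7,8,9]) (.leaf [3,4,6,12,5]))) (.node 14 16 (.leaf [14,17,19,20,18]) (.leaf [13,15,16]))) (.free 1 [0,21,22]))), .t 1 (nat_lit 0) (.cn 2 3), .t 7 (nat_lit 0xa200a100a0008e008d0011) (.z (.node 16 0 (.node 1 13 (.leaf [1,14,15,16,2]) (.edon 0 7 (.leaf [3,4,6,5]) (.free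 2 [7,8,9,10,11,12,13]))) (.free 2 [0,17,18,19,20,21,22]))), .t 6 (nat_lit 0x10800c200c100a900a4) (.z (.node 10 1 (.edon 7 10 (.leaf [7,8,9]) (.leaf [3,4,6,10,5])) (.free 4 [0,1,2,11,12,13,14,15,16,17,18,19,20,21,22]))), .t 1 (nat_lit 0) (.fa 3), .t 10 (nat_lit 0x2cc02ca02c7009400140004000102d102ce) (.z (.edon 13 4 (.node 0 11 (.node 0 20 (.leaf [0,21,22]) (.node 14 16 (.leaf [14,17,19,20,18]) (.leaf [13,15,16]))) (.leaf [1,3,5,11,2])) (.free 2 [4,6,7,8,9,10,12]))), .t 10 (nat_lit 0x2cc02ca02c7009700170004000202d102ce) (.z (.edon 13 4 (.node 0 11 (.node 0 20 (.leaf [0,21,22]) (.node 14 16 (.leaf [14,17,19,20,18]) (.leaf [13,15,16]))) (.leaf [1,3,6,11,2])) (.free 2 [4,5,7,8,9,10,12]))), .t 6 (nat_lit 0x13400dc00db00bc00ab) (.z (.edon 3 13 (.edon 7 12 (.leaf [7,8,9]) (.leaf [3,4,6,12,10])) (.free 4 [0,1,2,5,11,13,14,15,16,17,18,19,20,21,22]))),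 .t 10 (nat_lit 0x2cd02c902c8009400140004000102d102ce) (.z (.edon 13 4 (.node 0 11 (.node 0 20 (.leaf [0,21,22]) (.node 14 16 (.leaf [14,18,19,20,17]) (.leaf [13,15,16]))) (.leaf [1,3,5,11,2])) (.free 2 [4,6,7,8,9,10,12]))), .t 10 (nat_lit 0x2cd02c902c8009700170004000202d102ce) (.z (.edon 13 4 (.node 0 11 (.node 0 20 (.leaf [0,21,22]) (.node 14 16 (.leaf [14,18,19,20,17]) (.leaf [13,15,16]))) (.leaf [1,3,6,11,2])) (.free 2 [4,5,7,8,9,10,12])))] (by decide +kernel) (by decide +kernel)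
theorem b26 : B 832 864 := Blk.of_chk [.t 10 (nat_lit 0x2cd02c902c8009900190004000302d102ce) (.z (.edon 13 4 (.node 0 11 (.node 0 20 (.leaf [0,21,22]) (.node 14 16 (.leaf [14,18,19,20,17]) (.leaf [13,15,16]))) (.leaf [1,3,10,11,2])) (.free 2 [4,5,6,7,8,9,12]))), .t 13 (nat_lit 0x1a101ac01a901a601a502cd02c902c801b101af02d102ce) (.z (.node 0 7 (.node 0 12 (.node 0 20 (.leaf [0,21,22]) (.node 14 16 (.leaf [14,18,19,20,17]) (.leaf [13,15,16]))) (.leaf [8,9,12,11,10])) (.free 2 [1,2,3,4,5,6,7]))), .t 14 (nat_lit 0x2cd02c902c802d102ce000301ac017901780177017601740173) (.z (.node 20 0 (.edon 0 13 (.edon 4 10 (.node 5 7 (.leaf [5,8,9,12,11]) (.leaf [4,6,7])) (.leaf [1,3,10,2])) (.node 14 16 (.leaf [14,18,19,20,17]) (.leaf [13,15,16]))) (.free 1 [0,21,22]))), .t 12 (nat_lit 0x2cd02c902c802d102ce01ac01a90096001600030002) (.z (.node 20 0 (.edon 0 13 (.node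 7 11 (.edon 4 6 (.leaf [4,5,7]) (.leaf [1,3,6,10,2])) (.leaf [8,9,12,11])) (.node 14 16 (.leaf [14,18,19,20,17]) (.leaf [13,15,16]))) (.free 1 [0,21,22]))), .t 6 (nat_lit 0x14d00f800f700bc00ba) (.z (.edon 3 13 (.edon 5 9 (.leaf [5,7,8]) (.leaf [3,4,9,12,10])) (.free 4 [0,1,2,6,11,13,14,15,16,17,18,19,20,21,22]))), .t 6 (nat_lit 0x10900c600c500aa00a5) (.z (.node 11 1 (.edon 7 11 (.leaf [7,8,9]) (.leaf [3,4,6,11,5])) (.free 4 [0,1,2,10,12,13,14,15,16,17,18,19,20,21,22]))), .t 10 (nat_lit 0x2cd02c902c8009300130003000102d102ce) (.z (.edon 13 4 (.node 0 10 (.node 0 20 (.leaf [0,21,22]) (.node 14 16 (.leaf [14,18,19,20,17]) (.leaf [13,15,16]))) (.leaf [1,3,5,10,2])) (.free 2 [4,6,7,8,9,11,12]))), .t 6 (nat_lit 0x13700e000de00be00ab) (.z (.edon 3 13 (.edon 7 12 (.leaf [7,8,9]) (.leaf [3,4,6,12,11])) (.free 4 [0,1,2,5,10,13,14,15,16,17,18,19,20,21,22]))),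 .t 10 (nat_lit 0x2cc02ca02c7009300130003000102d102ce) (.z (.edon 13 4 (.node 0 10 (.node 0 20 (.leaf [0,21,22]) (.node 14 16 (.leaf [14,17,19,20,18]) (.leaf [13,15,16]))) (.leaf [1,3,5,10,2])) (.free 2 [4,6,7,8,9,11,12]))), .t 6 (nat_lit 0x15000fa00f900be00ba) (.z (.edon 3 13 (.edon 5 9 (.leaf [5,7,8]) (.leaf [3,4,9,12,11])) (.free 4 [0,1,2,6,10,13,14,15,16,17,18,19,20,21,22]))), .t 4 (nat_lit 0x1002820281) (.z (.edon 0 16 (.node 0 11 (.leaf [0,12,13,14,15]) (.node 1 9 (.leaf [1,10,11,2]) (.free 2 [3,4,5,6,7,8,9]))) (.free 2 [16,17,18,19,20,21,22]))), .r 3 (nat_lit 0xe0022), .r 3 (nat_lit 0x460022), .r 3 (nat_lit 0x470023), .r 3 (nat_lit 0x480024), .r 3 (nat_lit 0x490021), .r 3 (nat_lit 0x4a0022), .r 3 (nat_lit 0x4b0023), .r 3 (nat_lit 0x4c0025), .r 3 (nat_lit 0x4d0026), .r 3 (nat_lit 0x4e0027), .r 3 (nat_lit 0x4f0028), .r 3 (nat_lit 0x500029),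 .r 3 (nat_lit 0x51002a), .r 3 (nat_lit 0xf0358), .r 3 (nat_lit 0x52002b), .r 3 (nat_lit 0x53002c), .r 3 (nat_lit 0x54002d), .r 3 (nat_lit 0x550023), .r 3 (nat_lit 0x560024), .r 3 (nat_lit 0x570023), .r 3 (nat_lit 0x58002d)] (by decide +kernel) (by decide +kernel)
theorem b27 : B 864 896 := Blk.of_chk [.r 3 (nat_lit 0x5e035c), .r 3 (nat_lit 0x5f0352), .r 3 (nat_lit 0x600353), .r 3 (nat_lit 0x610354), .r 3 (nat_lit 0x620358), .r 3 (nat_lit 0x63035c), .r 3 (nat_lit 0x640353), .r 3 (nat_lit 0x650354), .r 3 (nat_lit 0x660355), .r 3 (nat_lit 0x670358), .r 3 (nat_lit 0xe700ae), .r 3 (nat_lit 0xe800af), .r 3 (nat_lit 0xe900b0), .r 3 (nat_lit 0xea00ae), .r 3 (nat_lit 0xeb00af), .r 3 (nat_lit 0xec00b1), .r 3 (nat_lit 0xed00b2), .r 3 (nat_lit 0xee00b3), .r 3 (nat_lit 0xef00b4), .r 3 (nat_lit 0xf000b5), .r 3 (nat_lit 0xf100b6), .r 3 (nat_lit 0xf200b7),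 .r 3 (nat_lit 0xf300b8), .r 3 (nat_lit 0xf400ae), .r 3 (nat_lit 0xf9036f), .r 3 (nat_lit 0xfb0370), .r 3 (nat_lit 0xfc0371), .r 3 (nat_lit 0xfd0372), .r 3 (nat_lit 0xfe0373), .r 3 (nat_lit 0xff0374), .r 3 (nat_lit 0x1000375), .r 3 (nat_lit 0x1010376)] (by decide +kernel) (by decide +kernel)
theorem b28 : B 896 928 := Blk.of_chk [.r 3 (nat_lit 0x1020377), .r 3 (nat_lit 0x14e0145), .r 3 (nat_lit 0x14f013f), .r 3 (nat_lit 0x1510140), .r 3 (nat_lit 0x1520141), .r 3 (nat_lit 0x1530143), .r 3 (nat_lit 0x1540144), .r 3 (nat_lit 0x1550145), .r 3 (nat_lit 0x1560146), .r 3 (nat_lit 0x1570147), .r 3 (nat_lit 0x1580148), .r 3 (nat_lit 0x166010f), .r 3 (nat_lit 0x1670110), .r 3 (nat_lit 0x1680111), .r 3 (nat_lit 0x1690112), .r 3 (nat_lit 0x16a0113), .r 3 (nat_lit 0x16b0114), .r 3 (nat_lit 0x16c0115), .r 3 (nat_lit 0x16d0116), .r 3 (nat_lit 0x16e0117),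 .r 3 (nat_lit 0x16f0118), .r 3 (nat_lit 0x1700119), .r 3 (nat_lit 0x171011a), .r 3 (nat_lit 0x178038e), .r 3 (nat_lit 0x17b0124), .r 3 (nat_lit 0x17c0126), .r 3 (nat_lit 0x17d0123), .r 3 (nat_lit 0x17e0124), .r 3 (nat_lit 0x17f0125), .r 3 (nat_lit 0x1800127), .r 3 (nat_lit 0x1810128), .r 3 (nat_lit 0x1820129)] (by decide +kernel) (by decide +kernel)
theorem b29 : B 928 960 := Blk.of_chk [.r 3 (nat_lit 0x183012a), .r 3 (nat_lit 0x184012b), .r 3 (nat_lit 0x185012c), .r 3 (nat_lit 0x186012d), .r 3 (nat_lit 0x187012e), .r 3 (nat_lit 0x18e039d), .r 3 (nat_lit 0x18f039e), .r 3 (nat_lit 0x190039f), .r 3 (nat_lit 0x19103a0), .r 3 (nat_lit 0x19203a1), .r 3 (nat_lit 0x19303a2), .r 3 (nat_lit 0x19403a3), .r 3 (nat_lit 0x19503a4), .r 3 (nat_lit 0x19603a5), .r 3 (nat_lit 0x1a5019a), .r 3 (nat_lit 0x1ad019d), .r 3 (nat_lit 0x2300220), .r 3 (nat_lit 0x2310221),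 .r 3 (nat_lit 0x23f01e9), .r 3 (nat_lit 0x2470206), .r 3 (nat_lit 0x2520206), .r 3 (nat_lit 0x25f01e6), .r 3 (nat_lit 0x26001e9), .r 3 (nat_lit 0x26101e8), .r 3 (nat_lit 0x27903b8), .r 3 (nat_lit 0x2840206), .r 3 (nat_lit 0x2850209), .r 3 (nat_lit 0x2860209), .r 3 (nat_lit 0x2870204), .r 3 (nat_lit 0x2880205), .r 3 (nat_lit 0x2890207), .r 3 (nat_lit 0x28a0208)] (by decide +kernel) (by decide +kernel)
theorem b30 : B 960 992 := Blk.of_chk [.r 3 (nat_lit 0x28b0209), .r 3 (nat_lit 0x2a603c0), .r 3 (nat_lit 0x2bb02b7), .r 3 (nat_lit 0x2bc02b8), .r 3 (nat_lit 0x2be02b9), .r 3 (nat_lit 0x2bf02ba), .r 3 (nat_lit 0x2c502b2), .r 3 (nat_lit 0x2c602b4), .r 14 (nat_lit 0x2dd035c035b035a035803570356035503540353035203510350), .r 3 (nat_lit 0xd03c9), .r 4 (nat_lit 0x3d039b03c9), .r 4 (nat_lit 0x3e039c03c9), .r 4 (nat_lit 0x3f039d03c9), .r 3 (nat_lit 0x4003c9),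 .r 4 (nat_lit 0x4103a503c9), .r 3 (nat_lit 0x9b03ca), .r 4 (nat_lit 0x172019802de), .r 15 (nat_lit 0x2df014801470146014501440143014201410140013f013e013d0009), .r 11 (nat_lit 0x2e2038b038a038903880387038603850384000b), .r 6 (nat_lit 0x2e503680367002403ce), .r 11 (nat_lit 0x2e6038b038a038903880387038603850384000b), .r 3 (nat_lit 0x34e02e8), .r 3 (nat_lit 0x36c02e8), .r 3 (nat_lit 0x13b02e8), .r 3 (nat_lit 0x34f02e9), .r 3 (nat_lit 0x36d02e9), .r 3 (nat_lit 0x13c02e9), .r 3 (nat_lit 0x39a02e9), .r 4 (nat_lit 0x5d03b003d9), .r 4 (nat_lit 0x2ea02030198), .r 10 (nat_lit 0x2eb03b2019c03a203940145037403590358), .r 4 (nat_lit 0x2ed03c80198)] (by decide +kernel) (by decide +kernel)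
theorem b31 : B 992 1024 := Blk.of_chk [.r 10 (nat_lit 0x2ee03b2019c03a203940145037403590358), .r 10 (nat_lit 0x2f002b502d802b402b302b202b102030198), .r 5 (nat_lit 0x2f103b901e60198), .r 15 (nat_lit 0x2f2038b038a02b30389038802b2038702b103860385038403db000b), .r 8 (nat_lit 0x2f303510124011000ae002203cc), .r 15 (nat_lit 0x2f6038b038a02b30389038802b2038702b103860385038403db000b), .r 5 (nat_lit 0x2f703b2019c0198), .r 4 (nat_lit 0x2fd02020199), .r 4 (nat_lit 0x2ff01e30198), .r 3 (nat_lit 0x30003db), .r 3 (nat_lit 0x30103db), .r 18 (nat_lit 0x30203970396039503940393039203910390038f038e038d038c013d035003cb02de), .r 18 (nat_lit 0x304035c035b02b3035a035802b2035702b1035603550354035303520351035003c9), .r 5 (nat_lit 0x30503b2019c0198), .r 5 (nat_lit 0x30803b2019c0198), .r 18 (nat_lit 0x309035c035b02b3035a035802b2035702b1035603550354035303520351035003c9),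 .r 5 (nat_lit 0x30b01e3019b019a), .r 10 (nat_lit 0x30c03b2019c03a203940145037403590358), .r 4 (nat_lit 0x30d03c80198), .r 10 (nat_lit 0x30e03b2019c03a203940145037403590358), .r 18 (nat_lit 0x30f03ae03ad03ac03ab03aa03a903a803a703dc012603d003ce0199012401230122), .r 12 (nat_lit 0x310038b038a03890388038703860385038403db000b), .r 5 (nat_lit 0x31103b2019c0198), .r 5 (nat_lit 0x31301e3019b019a), .r 5 (nat_lit 0x31401e3019a0198), .r 10 (nat_lit 0x31503c102d903c003bf03be03bd01e30198), .r 10 (nat_lit 0x31603c102d803c003bf03be03bd01e30198), .r 5 (nat_lit 0x31803b2019c0198), .r 11 (nat_lit 0x31d038b038a038903880387038603850384000b), .r 6 (nat_lit 0x31e02b302b202b10199), .r 15 (nat_lit 0x31f038b038a02b30389038802b2038702b103860385038403db000b), .r 15 (nat_lit 0x320038b038a02b30389038802b2038702b103860385038403db000b)] (by decide +kernel) (by decide +kernel)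
theorem b32 : B 1024 1056 := Blk.of_chk [.r 6 (nat_lit 0x32102b302b202b10199), .r 4 (nat_lit 0x32202030198), .r 5 (nat_lit 0x32503c202060198), .r 5 (nat_lit 0x32602b202b10198), .r 3 (nat_lit 0x34d0327), .r 3 (nat_lit 0x36b0327), .r 3 (nat_lit 0x3990327), .r 14 (nat_lit 0x329035c035b035a035803570356035503540353035203510350), .r 3 (nat_lit 0xc0408), .r 4 (nat_lit 0x3502de0408), .r 4 (nat_lit 0x36038c0408), .r 4 (nat_lit 0x37038d0408), .r 4 (nat_lit 0x38038e0408), .r 3 (nat_lit 0x390408), .r 4 (nat_lit 0x3a03970408), .r 4 (nat_lit 0x590198040a), .r 15 (nat_lit 0x32b038b038a02b30389038802b2038702b103860385038403db000b), .r 11 (nat_lit 0x32c038b038a038903880387038603850384000b), .r 5 (nat_lit 0x32e02b202b10198), .r 3 (nat_lit 0x32f03db), .r 9 (nat_lit 0x33102b302b202b1036e040600ae0004), .r 14 (nat_lit 0x33202b302b202b1035202e803d60125011100af002303cd040d),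 .r 6 (nat_lit 0x33302b302b202b1019a), .r 15 (nat_lit 0x334038b038a02b30389038802b2038702b103860385038403db000b), .r 13 (nat_lit 0x33502b302b202b1019a03270124011000ae034c00220008), .r 13 (nat_lit 0x33602b302b202b1019a03270124011000ae034c00220007), .r 14 (nat_lit 0x33702b302b202b1035202e803d60125011100af002303cd040d), .r 3 (nat_lit 0x33803db), .r 8 (nat_lit 0x3390368036703d9002403ce040e), .r 10 (nat_lit 0x33a035004100123010f00ad002103cb040b), .r 3 (nat_lit 0x13a033b), .r 15 (nat_lit 0x33c038b038a02b30389038802b2038702b103860385038403db000b)] (by decide +kernel) (by decide +kernel)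
theorem b33 : B 1056 1088 := Blk.of_chk [.r 15 (nat_lit 0x33d038b038a02b30389038802b2038702b103860385038403db000b), .r 16 (nat_lit 0x33e03810380037f037e037d037c037b037a03da00b0000602e8012500af), .r 15 (nat_lit 0x33f038b038a02b30389038802b2038702b103860385038403db000b), .r 15 (nat_lit 0x340038b038a02b30389038802b2038702b103860385038403db000b), .r 15 (nat_lit 0x341038b038a02b30389038802b2038702b103860385038403db000b), .r 6 (nat_lit 0x34202b302b202b1019a), .r 13 (nat_lit 0x34302b302b202b1019a01110110013d041f000a02de010e), .r 13 (nat_lit 0x34402b302b202b1019a03270124011000ae034c00220008), .r 17 (nat_lit 0x34503810380037f037e037d037c037b037a03da00b00006038e013f038c02de), .r 11 (nat_lit 0x3460351032704050124011000ae002203cc040c), .r 15 (nat_lit 0x347038b038a02b30389038802b2038702b103860385038403db000b), .r 16 (nat_lit 0x34803810380037f037e037d037c037b037a03da00b0000602e8012500af),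 .r 15 (nat_lit 0x349038b038a02b30389038802b2038702b103860385038403db000b), .r 17 (nat_lit 0x34a03810380037f037e037d037c037b037a03da00b00006038e013f038d02de), .r 8 (nat_lit 0x34b020203510350040a03c90408), .r 6 (nat_lit 0x3d20133011e041403ea), .r 4 (nat_lit 0x29004030402), .r 3 (nat_lit 0x32d031a), .r 3 (nat_lit 0x430015a), .r 9 (nat_lit 0x2ef020f020e03e0026803de03300161), .r 4 (nat_lit 0x2ef020f020e), .r 19 (nat_lit 0x32a01dd01dc03fb025901d8031b03de01f5026802fb03e002930435031c043004340432), .r 8 (nat_lit 0x3fb025a021401db032a01f602fb), .r 9 (nat_lit 0x1ed030701fa01f8026603f302930437), .r 5 (nat_lit 0x2e10225022d0223), .r 5 (nat_lit 0x5a042f03e80405), .r 3 (nat_lit 0x2fe043a), .r 3 (nat_lit 0x3c3043b), .r 3 (nat_lit 0x3c4043b), .r 3 (nat_lit 0x2bd043b), .r 3 (nat_lit 0x439043e), .r 3 (nat_lit 0x36a043f)] (by decide +kernel) (by decide +kernel)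
theorem b34 : B 1088 1120 := Blk.of_chk [.r 10 (nat_lit 0x4310404028f028e028c0402043e043b043d), .r 10 (nat_lit 0x16104300236015c023a03b401bc01c303f2), .r 4 (nat_lit 0x3fc0319043f), .r 5 (nat_lit 0x3df01bd04430442), .r 6 (nat_lit 0x2f80222020b020a043b), .r 9 (nat_lit 0x3e2028c0445026203de031b031c043b), .r 5 (nat_lit 0x4300330031c0432), .r 10 (nat_lit 0x3e303e20268026203de03b5028c043b043e), .r 5 (nat_lit 0x4380227021e043e), .r 29 (nat_lit 0x3f803f1024c024801d001c501cf01c303f2032d044304440449021801de0216032a01f602e101f102250224044102dc02d701fb043e043f), .r 5 (nat_lit 0x21002fc01f0043f), .r 28 (nat_lit 0x3fa029301dc021501d603f302e101e1021b0219021701ef01f10225021e0317030701fb02c2022f02c0022e02d5043e043f043c043d), .r 6 (nat_lit 0x29c029004410402043e), .r 7 (nat_lit 0x2ef02260229020f020e043f), .r 23 (nat_lit 0x32a01dd01dc03fa025901d8031b0430016103de026803e003ba044e01f502fb04450447043202c8044d043e),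 .r 8 (nat_lit 0x3fa025a021401db032a01f602fb), .r 8 (nat_lit 0x30701fd01fe01ed026c026f043f), .r 11 (nat_lit 0x3f303b604510293045001fb044f02c8043e043f), .r 5 (nat_lit 0x307022a0233043f), .r 6 (nat_lit 0x3ee02fa030602f4043f), .r 7 (nat_lit 0x3e7020f01bd044701fb043f), .r 4 (nat_lit 0x2ef0233043f), .r 10 (nat_lit 0x3e702f40456020d01bd04020290043f043e), .r 4 (nat_lit 0x3f403f7043f), .r 22 (nat_lit 0x1610433032d03f801c201e10219021703de01c5031201eb01d3045801f1022403e9040202f4043f043e), .r 5 (nat_lit 0x3e101bd04590402), .r 24 (nat_lit 0x32a01dd01dc03fa021501d701da031b0430016103de02690432044f0450022a045a04020293029002e10225043e), .r 23 (nat_lit 0x4300161044603e30432044801df01ee01e001ff01fb01f702fc020d0293022f044d02c202e002d7043f043d), .r 3 (nat_lit 0x3c5043b), .r 3 (nat_lit 0x910440), .r 10 (nat_lit 0x447044c020e02a1045b044d02c2045d043d), .r 13 (nat_lit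 0x44701fb021003070456045f0233022f044d02c2043f043d)] (by decide +kernel) (by decide +kernel)
theorem b35 : B 1120 1152 := Blk.of_chk [.r 4 (nat_lit 0x430031b0161), .r 52 (nat_lit 0x42e001d00dd03e5001c00da03d403e400ce0107011e011c00a303d20133008c003200c000bf0079007a007b007c007d007e007f0030004203f0042601b2014b04300433040c0405032703d9040e043b038d03cc0408040a03db01e701e601e501e401e301e2), .r 52 (nat_lit 0xd2042c035f001d001c042a041d0132013100c300d003d200a9042b011e013602e700ac0462001903f0042601b20081014b007f007e007d007c007b007a00790433043000bf0030008c003200c0043b039d039c03db040a040801e701e601e501e401e301e2), .r 19 (nat_lit 0x3302e402e30428042700a9037800bb0120013604250121011f03d503d3015d0162043b), .r 3 (nat_lit 0xd50422), .r 45 (nat_lit 0x81041d0079001f0465035d001a041e0132013000cf00c803d20423011e00aa041c013900ac0077003200c000bd006e006f00700071007200730074006c002e0159043b01e2033b039d039b01cc01cb01ca01c901c801c7),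 .r 8 (nat_lit 0x8103d4007903d9040e043b01e2), .r 71 (nat_lit 0x42900e4001f0467001a03ec00d9042400ce01060107011e00a303d201330466018a017504260237006c00740073007200710070006f006e015900bd002e046401b4019f014c01490463026d044803de046101d501f2044b044500c0003202770447043201f90077022f044d02c2022b04080409043b040703d101cc01cb01ca01c901c801c703db043f043d), .r 3 (nat_lit 0x15d0430), .r 19 (nat_lit 0x415042a00d8013100a8008c008600850079007b007d0019043b039c01e501e20440045e), .r 54 (nat_lit 0x41503e500cd011c00a303d2046a0019007d007b007900f603f0003003fe01b6037903620330029b020c008901e1021003ef022801fd02fc030a03070085008601fb03640468008c022f044d02c2043b040c04050327038d01e501e203d7040a0408043f0440045e043d), .r 31 (nat_lit 0x41503e500cd011c00a303d2046a001903f0008c0079007a007b007c007d007e007f043b040c04050327038d040a040801e701e601e501e401e301e2), .r 37 (nat_lit 0x3f801c201c503f20443022701d3043703e902940291044a046c0216032a01f601fb01b60379036203030432032d03280469014a00f6044d02e10225003002b3045d043f03d803d7),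 .r 27 (nat_lit 0x3f201d0044303f9022701d3043703e9025a021402160294029101db032a044a01f601ec01fb022402e1022502b3045d043f043e), .r 17 (nat_lit 0x32a01dd01dc03fb022702590445044401d801f504470432046e044d02e10225), .r 16 (nat_lit 0x43601ea0269022703de044404610328046f044d021e0224043f043e045d), .r 11 (nat_lit 0x3de04630461032803fe047003af046d044d043b), .r 26 (nat_lit 0x3df022701bd03e001ed0269026803de020e0161033003240471021e046b0460044d02c4022f02c202d6043e045d043d043f), .r 10 (nat_lit 0x27403f3045202a1045b021e02d1043e045d), .r 14 (nat_lit 0x44701fb02100307045602260229047302cb044d03c702d7043f), .r 14 (nat_lit 0x4030447021c021d02170210020d01fb0456045302d70474043f), .r 11 (nat_lit 0x40304130290028f028d028c0402043b043e043c), .r 4 (nat_lit 0x40003eb043b), .r 37 (nat_lit 0x3f5013503f6010d03fd0138047700e300df010503e5012f0107011e011c011b03d2008c00bf008600850079007b007c00300042040c04050327038d02de03cc01e401e20440045e),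 .r 48 (nat_lit 0x411041200d30477042a0133013104780469014a00f603ed040101b603a60398036202a0007c007b007901e102fa0454008400850086003001fb036403300447008c0226047602f5043b039c03d803d7040a040801e401e2043f0440045e), .r 10 (nat_lit 0x3402e402e3001203d4041d043b040e03d9), .r 44 (nat_lit 0x42c035f001d042a0132013100d100d003d2042d011e02e700ac008c00c000bf0079007a007b007c007d007e007f0030001903ed041701b2014b04300433039d039c043b03db0408040a01e701e601e501e401e301e2), .r 53 (nat_lit 0x1e042e03e500dd00da03e600ce011e011c00a303d20133047b003b001c047a004203ed041701b20081014b007f007e007d007c007b007a00790433043000bf0030008c003200c0040c04050327043b038d040e03cc040a040803db01e701e601e501e401e301e2), .r 21 (nat_lit 0x419041a00dd00d2013600ac011f00a7019e03d503d3006b035e002e001c047a00810079043b01e2), .r 16 (nat_lit 0x419041a00dd037800d2013600ac0418011f00a703d503d3002e001c043b),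 .r 5 (nat_lit 0x41803d503d3043b), .r 29 (nat_lit 0x41b041e0132013000d400cf03d20420011e041c0077006e006f00700071007200730074043b033b039d039b01cc01cb01ca01c901c801c7)] (by decide +kernel) (by decide +kernel)
theorem b36 : B 1152 1184 := Blk.of_chk [.r 78 (nat_lit 0x41603ec00e100d904210106011e011d00a303d201330480047f018a00f5017504170237006c006a00740073007200710070006f006e047e01030078001f047d01b4019f014c0149047c03de0032027104610432025701e001fb03e703e902fa0323028c02100445047900770090047602f50475022602e00472043b04080409038e0407040603d101cc01cb01ca01c901c801c703db043f0440), .r 75 (nat_lit 0x41603ec00e100d904210106011e011d00a303d201330480047f018a00f50175041702370103006c006a00740073007200710070006f006e0078001f047e047d01b4019f014c0149047c027103de003202730461043201ee01e001fb03e702fa0323020d02a10481047602f504750226007702e00472043b04080409038e0407040603d101cc01cb01ca01c901c801c703db043f),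 .r 8 (nat_lit 0x475023402f9048203b102e00472), .r 6 (nat_lit 0x1bd03e1047602f502f9), .r 3 (nat_lit 0x4690161), .r 23 (nat_lit 0x3f803f1032d0485015e024801c501e102190217024c01c301d0031201cf038203de01eb01f10224043f043e), .r 52 (nat_lit 0x411041200d30477042a0133013104780083008200f603ed00300364040101b603a603980362032404320328008c008f036902e10225008b008a036501fe036301f104580486047602f502f9048402f4022a0483047402e00472043b039c03d7040a040802b7), .r 25 (nat_lit 0x14a04010485046104870458048603de01eb01f10484047602f902f502f4022a02240483047402e00472043e043b03d8), .r 4 (nat_lit 0x45803e102f4), .r 8 (nat_lit 0x2a2020d02a002fa045402f4043f), .r 8 (nat_lit 0x210044701e001fb048a0489043f), .r 8 (nat_lit 0x447021001fb02ef03070226043f), .r 13 (nat_lit 0x4710473022a048c048b01620401038301d103610488043b), .r 11 (nat_lit 0x471047304340444022a021e048c02ce043f043e), .r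 8 (nat_lit 0x4550457048a04890272023202f4), .r 22 (nat_lit 0x47e01b4019f014c0149047c048f048e0269026503de0461048d007601d10361048803db045d043d01ce), .r 10 (nat_lit 0x234047503b102e0022a02d602d102c3045d), .r 22 (nat_lit 0x26e04480464044501b4019f01610330014c01490263026702c2027802e002d7026403db043d043e043c), .r 16 (nat_lit 0x1fb044601fd03e303b501d202670268027802e002d70264043f043d043e), .r 6 (nat_lit 0x210044701e001fb043f), .r 26 (nat_lit 0x3ef02fc0494031b0493029a02a1045c026e0463049202c202e002d702330160002f01d1036104880263043f043d043c01ce), .r 8 (nat_lit 0x447021001fb02ef03070495043f), .r 11 (nat_lit 0x3df022701ed0496026801d10361048802f9043e), .r 4 (nat_lit 0x3df02270494), .r 5 (nat_lit 0x47102c8022a02f9), .r 29 (nat_lit 0x3fe02c2029a02e002a102d703ef020d023302fc0307049904980161031b03de049702f904900160002f01d103610488043b043d043f01ce), .r 16 (nat_lit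 0x2c102e003fe02d7029a03ef0233021102fc0307044b022b043e043b043f), .r 5 (nat_lit 0x401048b02f9043b), .r 22 (nat_lit 0x47104730499022a049b049c01fb030303240432032d0328049a01d101c101b30361005b0488043f03dd), .r 6 (nat_lit 0x45b0491020e03e1045d), .r 38 (nat_lit 0x47e048f02f90456049e04920265021a03de01d102ec01610330032401600076020101bf01be01b501a0017a0164015b006d0366005c0360003c0031049d043d043f01ce01e903dd040f), .r 62 (nat_lit 0x41603ec00e100d904210106011e011d00a303d2013304800103047f0078001f0076007500740073007200710070006f006e018a00f5005a0175047d047e0417048f02f90032026503de019f014901b4014c046101b6043b04080409038e01ce01cd01cc01cb01ca01c901c801c704070406040503d103db043d)] (by decide +kernel) (by decide +kernel)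
theorem b37 : B 1184 1215 := Blk.of_chk [.r 67 (nat_lit 0x1b042903ec00e200d9042400ce0106011e00a303d201330466018a01750426006c0076007500740073007200710070006f006e02c2026d00bd002e02e0019701040448049202d70043002004560496021000c004330445026903de046101b6032d04080409043b040703d101ce01cd01cc01cb01ca01c901c801c7043d01e903cf045d), .r 24 (nat_lit 0x227043403df021e022a04a1020004a0026903de044701f90433046101bc01bb01ba01b9032d01b6043f043e045d), .r 8 (nat_lit 0x2340475022a03b102e002c1043e), .r 6 (nat_lit 0x47602f902f504a3044d), .r 4 (nat_lit 0x49f023b023c), .r 11 (nat_lit 0x49d015f03b30080046904330030016501e90209), .r 9 (nat_lit 0x323021004a0033004a602f4043f04a4), .r 10 (nat_lit 0x486048404a004a702f404a6032801b604a4), .r 16 (nat_lit 0x4a202440243024203b3049f01c60213033004a6032801b701b604a504a4), .r 28 (nat_lit 0x29b03ff03ef00f60307049b0471046002e0047404a304910303032d01d1036103fd04120160002f048704a6043b043f03d701ce04a4),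 .r 43 (nat_lit 0xf60400049c048b02f904aa041203fd01c401d1016002490361002f049d048701c0008804a601d901fb01fc0364033004470445028d028c03e9025b025804a903bb021f03b703bc03d7043b04a401ce043f043c), .r 13 (nat_lit 0xf60400049c048b02f90328032403fd041203d7043b04a4), .r 36 (nat_lit 0x20d04710256045003e90292028d04aa04a3049104ac01c401d1016002490361002f049d0488025c008804a501fb036403b301b603240432032d032802b1043c01ce043f04a4), .r 30 (nat_lit 0x22703df01bd03e001ed02a304a3022c021204a80269026804a904a503de016301610162033004a6016504ad02b604ab03b704a4043e045d0209), .r 3 (nat_lit 0x920440), .r 34 (nat_lit 0x22703e003df01d002a3020101b8022c021204a301f301f404a904a8026b026a0269026804a503de016301610162033004a6016502b602b004ae043e04a4045d0209), .r 35 (nat_lit 0x44b01d4047103e904500292028d04a3049104aa04ac01c401d1016002490361002f049d0488008701fb03b304ad030303240432032d032802b1043c01ce04af043f04a4),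 .r 3 (nat_lit 0x3c6043b), .r 4 (nat_lit 0x165020904b1), .r 3 (nat_lit 0x4a604b1), .r 4 (nat_lit 0x4b004b104b2), .r 4 (nat_lit 0x16204b104b4), .r 4 (nat_lit 0x16104b104b4), .r 3 (nat_lit 0x27c04b5), .r 4 (nat_lit 0x16304b304b6), .r 3 (nat_lit 0x3de04b7), .r 3 (nat_lit 0x4a504b9), .r 4 (nat_lit 0x265043d04ba), .r 3 (nat_lit 0x4a804bb), .r 4 (nat_lit 0x27004b804bc), .r 4 (nat_lit 0x4a304be04bd)] (by decide +kernel) (by decide +kernel)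

end Pool.Agent.GCP.F9_9_13
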