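import Pool.Agent.GCP.Split

/-!
# The wedge lemma: cutting a convex polygon off with two half planes

`C = X ∩ {f > 0, g > 0}`, `A = X ∩ {f < 0, g > 0}`, `B = X ∩ {f > 0, g < 0}`,
`Q = X ∩ {f < 0, g < 0}`. A ray turning inside the sector of `Q` cuts the rest of `X` into two
parts; the size of the first part takes every value between `|A|` and `|A| + |Q|`.
-/

namespace Pool.Agent.GCP

/-- affine functionals -/
def Aff (f : Pt → ℝ) : Prop :=
  ∀ (x y : Pt) (s t : ℝ), s + t = 1 → f (s • x + t • y) = s * f x + t * f y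

lemma aff_orient (a b : Pt) : Aff (orient a b) := fun x y _ _ h => orient_comb a b x y h

lemma Aff.comb {f g : Pt → ℝ} (hf : Aff f) (hg : Aff g) (u v w : ℝ) :
    Aff (fun z => u * f z + v * g z + w) := by
  intro x y s t h
  simp only
  rw [hf x y s t h, hg x y s t h]
  have : t = 1 - s := by linarith
  subst this
  ring

lemma Aff.convex_gt {f : Pt → ℝ} (hf : Aff f) : Convex ℝ {z : Pt | 0 < f z} := by
  intro x hx y hy s t hs ht hst
  simp only [Set.mem_ofPred_eq] at hx hy ⊢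
  rw [hf x y s t hst]
  rcases hs.eq_or_lt with h0 | h0
  · have h1 : t = 1 := by linarith
    rw [← h0, h1]; linarith
  · have := mul_pos h0 hx
    have := mul_nonneg ht hy.le
    linarith

lemma Aff.convex_le {f : Pt → ℝ} (hf : Aff f) : Convex ℝ {z : Pt | f z ≤ 0} := by
  intro x hx y hy s t hs ht hst
  simp only [Set.mem_ofPred_eq] at hx hy ⊢
  rw [hf x y s t hst]
  have := mul_nonneg hs (neg_nonneg.2 hx)
  have := mul_nonneg ht (neg_nonneg.2 hy)
  linarith

/-- separation by an affine functional -/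
lemma Aff.disjoint {f : Pt → ℝ} (hf : Aff f) {S T : Set Pt} (hS : ∀ x ∈ S, 0 < f x)
    (hT : ∀ x ∈ T, f x ≤ 0) : Disjoint (convexHull ℝ S) (convexHull ℝ T) := by
  rw [Set.disjoint_left]
  intro z h1 h2
  have h3 : z ∈ {z : Pt | 0 < f z} := convexHull_min hS hf.convex_gt h1
  have h4 : z ∈ {z : Pt | f z ≤ 0} := convexHull_min hT hf.convex_le h2
  simp only [Set.mem_ofPred_eq] at h3 h4
  linarith

/-- thresholds in a finite set of positive reals -/
lemma exists_threshold (S : Finset ℝ) (hS : ∀ s ∈ S, 0 < s) {k : ℕ} (hk : k ≤ S.card) :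
    ∃ t : ℝ, 0 ≤ t ∧ (S.filter (fun s => s < t)).card = k := by
  classical
  rcases Nat.lt_or_ge k S.card with h | h
  · let e := S.orderEmbOfFin rfl
    have he : ∀ j, e j ∈ S := fun j => S.orderEmbOfFin_mem rfl j
    refine ⟨e ⟨k, h⟩, (hS _ (he _)).le, ?_⟩
    have h1 : S.filter (fun s => s < e ⟨k, h⟩) = (Finset.Iio (⟨k, h⟩ : Fin S.card)).map
        e.toEmbedding := by
      ext s
      rw [Finset.mem_filter, Finset.mem_map]
      constructor
      · rintro ⟨h1, h2⟩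
        have h3 : s ∈ Set.range e := by
          rw [Finset.range_orderEmbOfFin]; exact h1
        obtain ⟨j, rfl⟩ := h3
        refine ⟨j, ?_, rfl⟩
        rw [Finset.mem_Iio]
        exact e.lt_iff_lt.1 h2
      · rintro ⟨j, hj, rfl⟩
        rw [Finset.mem_Iio] at hj
        exact ⟨he j, e.lt_iff_lt.2 hj⟩
    rw [h1, Finset.card_map, Fin.card_Iio]
  · obtain ⟨M, hM⟩ : ∃ M : ℝ, ∀ s ∈ S, s < M := by
      obtain ⟨M, hM⟩ := S.bddAbove
      exact ⟨M + 1, fun s hs => by have := hM hs; linarith⟩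
    refine ⟨max M 0, le_max_right _ _, ?_⟩
    rw [Finset.filter_true_of_mem (fun s hs => lt_of_lt_of_le (hM s hs) (le_max_left _ _))]
    omega

lemma exists_delta {X : Finset Pt} {g : Pt → ℝ} (g0 : ∀ x ∈ X, g x ≠ 0) :
    ∃ δ : ℝ, 0 < δ ∧ ∀ x ∈ X, δ ≤ |g x| := by
  classical
  induction X using Finset.induction_on with
  | empty => exact ⟨1, one_pos, by simp⟩
  | insert a s _ ih =>
    obtain ⟨δ, h1, h2⟩ := ih (fun x hx => g0 x (Finset.mem_insert_of_mem hx))
    have ha : 0 < |g a| := abs_pos.2 (g0 a (Finset.mem_insert_self a s))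
    refine ⟨min δ |g a|, lt_min h1 ha, ?_⟩
    intro x hx
    rcases Finset.mem_insert.1 hx with rfl | hx
    · exact min_le_right _ _
    · exact (min_le_left _ _).trans (h2 x hx)

/-- a small perturbation of `g` such that the ratios `g / f` are distinct -/
lemma exists_perturb {X : Finset Pt} {f g : Pt → ℝ} (g0 : ∀ x ∈ X, g x ≠ 0)
    (inj : ∀ x ∈ X, ∀ y ∈ X, f x = f y → g x = g y → x = y) (hf0 : ∀ x ∈ X, f x ≠ 0) :
    ∃ ε : ℝ, (∀ x ∈ X, (0 < g x → 0 < g x + ε) ∧ (g x < 0 → g x + ε < 0)) ∧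
      ∀ x ∈ X, ∀ y ∈ X, (g x + ε) / f x = (g y + ε) / f y → x = y := by
  classical
  obtain ⟨δ, hδ, hδ'⟩ := exists_delta g0
  let bad : Finset ℝ := (X ×ˢ X).image
    (fun p => (g p.2 * f p.1 - g p.1 * f p.2) / (f p.2 - f p.1))
  have hinf : ((Set.Ioo 0 δ) \ (bad : Set ℝ)).Infinite :=
    (Set.Ioo_infinite hδ).sdiff bad.finite_toSet
  obtain ⟨ε, ⟨⟨h1, h2⟩, h3⟩⟩ := hinf.nonempty
  refine ⟨ε, ?_, ?_⟩
  · intro x hx
    have h4 := hδ' x hx
    constructor
    · intro h5; linarith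
    · intro h5
      rw [abs_of_neg h5] at h4
      linarith
  · intro x hx y hy hxy
    have hx0 := hf0 x hx
    have hy0 := hf0 y hy
    rw [div_eq_div_iff hx0 hy0] at hxy
    by_cases hfe : f x = f y
    · apply inj x hx y hy hfe
      rw [hfe] at hxy
      have := mul_right_cancel₀ hy0 hxy
      linarith
    · exfalso
      apply h3
      rw [Finset.mem_coe, Finset.mem_image]
      refine ⟨(x, y), Finset.mem_product.2 ⟨hx, hy⟩, ?_⟩
      have h6 : f y - f x ≠ 0 := fun h => hfe (by linarith)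
      rw [div_eq_iff h6]
      linarith

/-- The wedge lemma. -/
theorem wedge {X : Finset Pt} {f g : Pt → ℝ} (hf : Aff f) (hg : Aff g) (f0 : ∀ x ∈ X, f x ≠ 0)
    (g0 : ∀ x ∈ X, g x ≠ 0) (inj : ∀ x ∈ X, ∀ y ∈ X, f x = f y → g x = g y → x = y) {m : ℕ}
    (h1 : (X.filter (fun z => f z < 0 ∧ 0 < g z)).card ≤ m)
    (h2 : m ≤ (X.filter (fun z => f z < 0)).card) :
    ∃ X1 X2 : Finset Pt, X1 ⊆ X ∧ X2 ⊆ X ∧ X1.card = m ∧
      X2.card + m + (X.filter (fun z => 0 < f z ∧ 0 < g z)).card = X.card ∧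
      (∀ x, x ∈ X ↔ x ∈ X.filter (fun z => 0 < f z ∧ 0 < g z) ∨ x ∈ X1 ∨ x ∈ X2) ∧
      Disjoint (convexHull ℝ ((X.filter (fun z => 0 < f z ∧ 0 < g z) : Finset Pt) : Set Pt))
        (convexHull ℝ (X1 : Set Pt)) ∧
      Disjoint (convexHull ℝ ((X.filter (fun z => 0 < f z ∧ 0 < g z) : Finset Pt) : Set Pt))
        (convexHull ℝ (X2 : Set Pt)) ∧
      Disjoint (convexHull ℝ (X1 : Set Pt)) (convexHull ℝ (X2 : Set Pt)) := by
  classical
  obtain ⟨ε, he1, he2⟩ := exists_perturb g0 inj f0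
  set Q := X.filter (fun z => f z < 0 ∧ g z < 0) with hQ
  let ρ : Pt → ℝ := fun z => (g z + ε) / f z
  have hQm : ∀ x ∈ Q, x ∈ X ∧ f x < 0 ∧ g x < 0 := fun x hx => by
    rw [hQ, Finset.mem_filter] at hx; exact hx
  have hρ : ∀ x ∈ Q, 0 < ρ x := by
    intro x hx
    obtain ⟨a1, a2, a3⟩ := hQm x hx
    exact div_pos_of_neg_of_neg ((he1 x a1).2 a3) a2
  have hinj : Set.InjOn ρ (Q : Set Pt) := by
    intro x hx y hy hxy
    exact he2 x (hQm x hx).1 y (hQm y hy).1 hxy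
  have hcardf : (X.filter (fun z => f z < 0)).card =
      (X.filter (fun z => f z < 0 ∧ 0 < g z)).card + Q.card := by
    rw [hQ, ← Finset.card_union_of_disjoint]
    · congr 1
      ext z
      simp only [Finset.mem_filter, Finset.mem_union]
      constructor
      · rintro ⟨a1, a2⟩
        rcases lt_or_gt_of_ne (g0 z a1) with h | h
        · exact Or.inr ⟨a1, a2, h⟩
        · exact Or.inl ⟨a1, a2, h⟩
      · rintro (⟨a1, a2, -⟩ | ⟨a1, a2, -⟩) <;> exact ⟨a1, a2⟩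
    · rw [Finset.disjoint_left]
      intro z hz hz'
      rw [Finset.mem_filter] at hz hz'
      linarith [hz.2.2, hz'.2.2]
  obtain ⟨t, ht0, ht⟩ := exists_threshold (Q.image ρ) (by
    intro s hs
    obtain ⟨x, hx, rfl⟩ := Finset.mem_image.1 hs
    exact hρ x hx) (k := m - (X.filter (fun z => f z < 0 ∧ 0 < g z)).card) (by
    rw [Finset.card_image_of_injOn hinj]; omega)
  have hcount : (Q.filter (fun z => ρ z < t)).card =
      m - (X.filter (fun z => f z < 0 ∧ 0 < g z)).card := by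
    rw [← ht, ← Finset.card_image_of_injOn (s := Q.filter (fun z => ρ z < t)) (f := ρ)]
    · congr 1
      ext s
      simp only [Finset.mem_image, Finset.mem_filter]
      constructor
      · rintro ⟨x, ⟨a1, a2⟩, rfl⟩
        exact ⟨⟨x, a1, rfl⟩, a2⟩
      · rintro ⟨⟨x, a1, rfl⟩, a2⟩
        exact ⟨x, ⟨a1, a2⟩, rfl⟩
    · exact hinj.mono (by intro x hx; exact (Finset.mem_filter.1 hx).1)
  let h : Pt → ℝ := fun z => (-t) * f z + 1 * g z + ε
  have hh : Aff h := hf.comb hg (-t) 1 ε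
  -- the two parts
  let X1 := X.filter (fun z => f z < 0 ∧ 0 < h z)
  let X2 := X.filter (fun z => ¬ (0 < f z ∧ 0 < g z) ∧ h z ≤ 0)
  have hA : ∀ z ∈ X, f z < 0 → 0 < g z → 0 < h z := by
    intro z hz a1 a2
    have a3 := (he1 z hz).1 a2
    have a4 := mul_nonneg ht0 (neg_nonneg.2 a1.le)
    change 0 < (-t) * f z + 1 * g z + ε
    linarith
  have hB : ∀ z ∈ X, 0 < f z → g z < 0 → h z < 0 := by
    intro z hz a1 a2
    have a3 := (he1 z hz).2 a2
    have a4 := mul_nonneg ht0 a1.le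
    change (-t) * f z + 1 * g z + ε < 0
    linarith
  have hQi : ∀ z ∈ X, f z < 0 → g z < 0 → (0 < h z ↔ ρ z < t) := by
    intro z hz a1 a2
    change 0 < (-t) * f z + 1 * g z + ε ↔ (g z + ε) / f z < t
    rw [div_lt_iff_of_neg a1]
    constructor <;> intro a3 <;> linarith
  have hX1 : X1 = X.filter (fun z => f z < 0 ∧ 0 < g z) ∪ Q.filter (fun z => ρ z < t) := by
    ext z
    simp only [X1, hQ, Finset.mem_filter, Finset.mem_union]
    constructor
    · rintro ⟨a1, a2, a3⟩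
      rcases lt_or_gt_of_ne (g0 z a1) with a4 | a4
      · exact Or.inr ⟨⟨a1, a2, a4⟩, (hQi z a1 a2 a4).1 a3⟩
      · exact Or.inl ⟨a1, a2, a4⟩
    · rintro (⟨a1, a2, a3⟩ | ⟨⟨a1, a2, a3⟩, a4⟩)
      · exact ⟨a1, a2, hA z a1 a2 a3⟩
      · exact ⟨a1, a2, (hQi z a1 a2 a3).2 a4⟩
  have hc1 : X1.card = m := by
    rw [hX1, Finset.card_union_of_disjoint, hcount]
    · omega
    · rw [Finset.disjoint_left]
      intro z hz hz'
      simp only [hQ, Finset.mem_filter] at hz hz'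
      linarith [hz.2.2, hz'.1.2.2]
  have hmem : ∀ x ∈ X, (0 < f x ∧ 0 < g x) ∨ (f x < 0 ∧ 0 < h x) ∨
      (¬ (0 < f x ∧ 0 < g x) ∧ h x ≤ 0) := by
    intro x hx
    rcases lt_or_gt_of_ne (f0 x hx) with a1 | a1
    · rcases lt_or_ge 0 (h x) with a2 | a2
      · exact Or.inr (Or.inl ⟨a1, a2⟩)
      · exact Or.inr (Or.inr ⟨fun a3 => by linarith [a3.1], a2⟩)
    · rcases lt_or_gt_of_ne (g0 x hx) with a2 | a2
      · exact Or.inr (Or.inr ⟨fun a3 => by linarith [a3.2], (hB x hx a1 a2).le⟩)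
      · exact Or.inl ⟨a1, a2⟩
  have hX2g : ∀ x ∈ X2, g x < 0 := by
    intro x hx
    obtain ⟨a1, a2, a3⟩ := Finset.mem_filter.1 hx
    rcases lt_or_gt_of_ne (g0 x a1) with a4 | a4
    · exact a4
    · exfalso
      rcases lt_or_gt_of_ne (f0 x a1) with a5 | a5
      · linarith [hA x a1 a5 a4]
      · exact a2 ⟨a5, a4⟩
  refine ⟨X1, X2, Finset.filter_subset _ _, Finset.filter_subset _ _, hc1, ?_, ?_, ?_, ?_, ?_⟩
  · have e1 : X = (X2 ∪ X1) ∪ X.filter (fun z => 0 < f z ∧ 0 < g z) := by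
      ext x
      simp only [Finset.mem_union, X1, X2, Finset.mem_filter]
      constructor
      · intro hx
        rcases hmem x hx with a | a | a
        · exact Or.inr ⟨hx, a⟩
        · exact Or.inl (Or.inr ⟨hx, a⟩)
        · exact Or.inl (Or.inl ⟨hx, a⟩)
      · rintro ((⟨a, -⟩ | ⟨a, -⟩) | ⟨a, -⟩) <;> exact a
    have d1 : Disjoint X2 X1 := by
      rw [Finset.disjoint_left]
      intro x hx hx'
      linarith [(Finset.mem_filter.1 hx).2.2, (Finset.mem_filter.1 hx').2.2]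
    have d2 : Disjoint (X2 ∪ X1) (X.filter (fun z => 0 < f z ∧ 0 < g z)) := by
      rw [Finset.disjoint_left]
      intro x hx hx'
      rcases Finset.mem_union.1 hx with hx | hx
      · exact (Finset.mem_filter.1 hx).2.1 (Finset.mem_filter.1 hx').2
      · linarith [(Finset.mem_filter.1 hx).2.1, (Finset.mem_filter.1 hx').2.1]
    conv_rhs => rw [e1]
    rw [Finset.card_union_of_disjoint d2, Finset.card_union_of_disjoint d1, hc1]
  · intro x
    simp only [X1, X2, Finset.mem_filter]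
    constructor
    · intro hx
      rcases hmem x hx with a | a | a
      · exact Or.inl ⟨hx, a⟩
      · exact Or.inr (Or.inl ⟨hx, a⟩)
      · exact Or.inr (Or.inr ⟨hx, a⟩)
    · rintro (⟨a, -⟩ | ⟨a, -⟩ | ⟨a, -⟩) <;> exact a
  · refine hf.disjoint ?_ ?_
    · intro x hx; exact (Finset.mem_filter.1 hx).2.1
    · intro x hx; exact ((Finset.mem_filter.1 hx).2.1).le
  · refine hg.disjoint ?_ ?_
    · intro x hx; exact (Finset.mem_filter.1 hx).2.2
    · intro x hx; exact (hX2g x hx).le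
  · refine hh.disjoint ?_ ?_
    · intro x hx; exact (Finset.mem_filter.1 hx).2.2
    · intro x hx; exact (Finset.mem_filter.1 hx).2.2

lemma HCP.append3 {X Y Z : Set Pt} {i j k : ℕ} (hX : HCP X i) (hY : HCP Y j) (hZ : HCP Z k)
    (d1 : Disjoint (convexHull ℝ X) (convexHull ℝ Y))
    (d2 : Disjoint (convexHull ℝ X) (convexHull ℝ Z))
    (d3 : Disjoint (convexHull ℝ Y) (convexHull ℝ Z)) : HCP (X ∪ Y ∪ Z) (i + j + k) := by
  obtain ⟨As, h1, h2, h3, h4⟩ := hX
  obtain ⟨Bs, g1, g2, g3, g4⟩ := hY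
  obtain ⟨Cs, f1, f2, f3, f4⟩ := hZ
  have sub : ∀ {W : Set Pt} {L : List (Finset Pt)}, (∀ x, x ∈ W ↔ ∃ Y ∈ L, x ∈ Y) →
      ∀ A ∈ L, convexHull ℝ (A : Set Pt) ⊆ convexHull ℝ W := fun h A hA =>
    convexHull_mono fun x hx => (h x).2 ⟨A, hA, hx⟩
  refine ⟨As ++ Bs ++ Cs, by simp only [List.length_append, h1, g1, f1], ?_, ?_, ?_⟩
  · intro Y hY
    rcases List.mem_append.1 hY with hY | hY
    · rcases List.mem_append.1 hY with hY | hY
      · exact h2 Y hY
      · exact g2 Y hY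
    · exact f2 Y hY
  · rw [List.pairwise_append, List.pairwise_append]
    refine ⟨⟨h3, g3, ?_⟩, f3, ?_⟩
    · intro A hA B hB
      exact d1.mono (sub h4 A hA) (sub g4 B hB)
    · intro A hA B hB
      rcases List.mem_append.1 hA with hA | hA
      · exact d2.mono (sub h4 A hA) (sub f4 B hB)
      · exact d3.mono (sub g4 A hA) (sub f4 B hB)
  · intro x
    simp only [Set.mem_union, h4 x, g4 x, f4 x, List.mem_append]
    constructor
    · rintro ((⟨Y, hY, hx⟩ | ⟨Y, hY, hx⟩) | ⟨Y, hY, hx⟩)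
      · exact ⟨Y, Or.inl (Or.inl hY), hx⟩
      · exact ⟨Y, Or.inl (Or.inr hY), hx⟩
      · exact ⟨Y, Or.inr hY, hx⟩
    · rintro ⟨Y, (hY | hY) | hY, hx⟩
      · exact Or.inl (Or.inl ⟨Y, hY, hx⟩)
      · exact Or.inl (Or.inr ⟨Y, hY, hx⟩)
      · exact Or.inr ⟨Y, hY, hx⟩

lemma HCP.single {Y : Finset Pt} (h0 : Y.Nonempty) (h : IsConvexPolygon Y) :
    HCP (Y : Set Pt) 1 :=
  ⟨[Y], rfl, by simp [h0, h], by simp, by simp⟩

/-- A wedge cut convex polygon gives a partition. -/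
theorem wedge_hcp {X : Finset Pt} {f g : Pt → ℝ} (hf : Aff f) (hg : Aff g)
    (f0 : ∀ x ∈ X, f x ≠ 0) (g0 : ∀ x ∈ X, g x ≠ 0)
    (inj : ∀ x ∈ X, ∀ y ∈ X, f x = f y → g x = g y → x = y) {m i j : ℕ}
    (h1 : (X.filter (fun z => f z < 0 ∧ 0 < g z)).card ≤ m)
    (h2 : m ≤ (X.filter (fun z => f z < 0)).card)
    (hne : (X.filter (fun z => 0 < f z ∧ 0 < g z)).Nonempty)
    (hC : IsConvexPolygon (X.filter (fun z => 0 < f z ∧ 0 < g z)))
    (hi : ∀ Y : Finset Pt, Y ⊆ X → Y.card = m → HCP (Y : Set Pt) i)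
    (hj : ∀ Y : Finset Pt, Y ⊆ X →
      Y.card + m + (X.filter (fun z => 0 < f z ∧ 0 < g z)).card = X.card → HCP (Y : Set Pt) j) :
    HCP (X : Set Pt) (1 + i + j) := by
  obtain ⟨X1, X2, s1, s2, c1, c2, hm, d1, d2, d3⟩ := wedge hf hg f0 g0 inj h1 h2
  have := HCP.append3 (HCP.single hne hC) (hi X1 s1 c1) (hj X2 s2 c2) d1 d2 d3
  convert this using 1
  ext x
  rw [Set.mem_union, Set.mem_union, Finset.mem_coe, hm x, or_assoc]
  rfl

end Pool.Agent.GCP
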