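import Pool.Agent.GCP.Hull
import Pool.Agent.GCP.Wedge

/-!
# Fact A (MP_062f91_co)

If no line cuts off exactly four points in convex position then over every hull edge `P R` there
is a point `a` such that `a` is in the triangle `P R z` for every other point `z`.
-/

namespace Pool.Agent.GCP

/-- No line cuts off exactly four points in convex position. -/
def K1 (X : Finset Pt) : Prop :=
  ∀ A : Finset Pt, A ⊆ X → A.card = 4 →
    Disjoint (convexHull ℝ (A : Set Pt)) (convexHull ℝ ((X \ A : Finset Pt) : Set Pt)) →
    ¬ IsConvexPolygon A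

/-- The closed right side of a line is a cut. -/
lemma cut_disjoint {X A : Finset Pt} {x y : Pt} (hA : ∀ z ∈ X, z ∈ A ↔ orient x y z ≤ 0)
    (hAX : A ⊆ X) :
    Disjoint (convexHull ℝ (A : Set Pt)) (convexHull ℝ ((X \ A : Finset Pt) : Set Pt)) := by
  refine ((aff_orient x y).disjoint (S := ((X \ A : Finset Pt) : Set Pt)) (T := (A : Set Pt))
    ?_ ?_).symm
  · intro z hz
    have hz' : z ∈ X \ A := hz
    rw [Finset.mem_sdiff] at hz'
    by_contra h
    exact hz'.2 ((hA z hz'.1).2 (not_lt.1 h))
  · intro z hz
    have hz' : z ∈ A := hz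
    exact (hA z (hAX hz')).1 hz'

/-- A convex quadrangle. -/
lemma quad {P R x y : Pt} (h1 : 0 < orient P R x) (h2 : 0 < orient P R y)
    (h3 : orient y x P < 0) (h4 : orient y x R < 0) :
    IsConvexPolygon ({P, R, x, y} : Finset Pt) := by
  have h5 : 0 < orient R x y := by
    have : orient R x y = - orient y x R := by unfold orient; ring
    linarith
  have h6 : 0 < orient x y P := by
    have : orient x y P = - orient y x P := by unfold orient; ring
    linarith
  intro z hz
  have hmem := hz
  simp only [Finset.coe_insert, Finset.coe_singleton, Set.mem_insert_iff,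
    Set.mem_singleton_iff] at hz
  rcases hz with rfl | rfl | rfl | rfl
  · refine extreme_of_side (p := y) (q := R) hmem ?_ ?_
    · have : orient y R z = - orient z R y := by unfold orient; ring
      linarith
    · intro w hw hwz
      simp only [Finset.coe_insert, Finset.coe_singleton, Set.mem_insert_iff,
        Set.mem_singleton_iff] at hw
      rcases hw with rfl | rfl | rfl | rfl
      · exact absurd rfl hwz
      · simp
      · have : orient y R w = orient R w y := by unfold orient; ring
        linarith
      · simp
  · refine extreme_of_side (p := P) (q := x) hmem ?_ ?_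
    · rw [orient_swap']; linarith
    · intro w hw hwz
      simp only [Finset.coe_insert, Finset.coe_singleton, Set.mem_insert_iff,
        Set.mem_singleton_iff] at hw
      rcases hw with rfl | rfl | rfl | rfl
      · simp
      · exact absurd rfl hwz
      · simp
      · have : orient P x w = orient x w P := by unfold orient; ring
        linarith
  · refine extreme_of_side (p := R) (q := y) hmem ?_ ?_
    · rw [orient_swap']; linarith
    · intro w hw hwz
      simp only [Finset.coe_insert, Finset.coe_singleton, Set.mem_insert_iff,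
        Set.mem_singleton_iff] at hw
      rcases hw with rfl | rfl | rfl | rfl
      · have : orient R y w = orient w R y := by unfold orient; ring
        linarith
      · simp
      · exact absurd rfl hwz
      · simp
  · refine extreme_of_side (p := x) (q := P) hmem ?_ ?_
    · have : orient x P z = - orient x z P := by unfold orient; ring
      linarith
    · intro w hw hwz
      simp only [Finset.coe_insert, Finset.coe_singleton, Set.mem_insert_iff,
        Set.mem_singleton_iff] at hw
      rcases hw with rfl | rfl | rfl | rfl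
      · simp
      · have : orient x P w = orient P w x := by unfold orient; ring
        linarith
      · simp
      · exact absurd rfl hwz

/-- The cut `{P, R, x, y}` contradicts `K1`. -/
lemma K1.no_cut {X : Finset Pt} (hK : K1 X) {P R x y : Pt} (hP : P ∈ X) (hR : R ∈ X) (hx : x ∈ X)
    (hy : y ∈ X) (hPR : P ≠ R) (hxy : x ≠ y) (hPx : P ≠ x) (hPy : P ≠ y) (hRx : R ≠ x)
    (hRy : R ≠ y) (h1 : 0 < orient P R x)
    (h2 : 0 < orient P R y) (h3 : orient y x P < 0) (h4 : orient y x R < 0)
    (h5 : ∀ z ∈ X, z ≠ P → z ≠ R → z ≠ x → z ≠ y → 0 < orient y x z) : False := by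
  classical
  have hsub : ({P, R, x, y} : Finset Pt) ⊆ X := by
    intro z hz
    simp only [Finset.mem_insert, Finset.mem_singleton] at hz
    rcases hz with rfl | rfl | rfl | rfl <;> assumption
  refine hK {P, R, x, y} hsub ?_ (cut_disjoint (x := y) (y := x) ?_ hsub) (quad h1 h2 h3 h4)
  · rw [Finset.card_insert_of_notMem, Finset.card_insert_of_notMem, Finset.card_insert_of_notMem,
      Finset.card_singleton]
    · simpa using hxy
    · simp [hRx, hRy]
    · simp [hPR, hPx, hPy]
  · intro z hz
    simp only [Finset.mem_insert, Finset.mem_singleton]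
    constructor
    · rintro (rfl | rfl | rfl | rfl)
      · exact h3.le
      · exact h4.le
      · simp
      · simp
    · intro h
      by_contra hcon
      push Not at hcon
      have := h5 z hz hcon.1 hcon.2.1 hcon.2.2.1 hcon.2.2.2
      linarith

/-- first in counterclockwise order -/
lemma exists_first_ccw {o e : Pt} {S : Finset Pt} (hne : S.Nonempty)
    (hS : ∀ z ∈ S, 0 < orient o e z) : ∃ r ∈ S, ∀ w ∈ S, ¬ orient o r w < 0 := by
  have heo : 0 < (e.1 - o.1) ^ 2 + (e.2 - o.2) ^ 2 := by
    obtain ⟨z, hz⟩ := hne
    have h := hS z hz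
    by_contra h0
    have h1 : e.1 - o.1 = 0 := by nlinarith [sq_nonneg (e.1 - o.1), sq_nonneg (e.2 - o.2)]
    have h2 : e.2 - o.2 = 0 := by nlinarith [sq_nonneg (e.1 - o.1), sq_nonneg (e.2 - o.2)]
    unfold orient at h
    rw [h1, h2] at h
    linarith
  let F : Pt → ℝ := fun z => ((z.1 - o.1) * (e.1 - o.1) + (z.2 - o.2) * (e.2 - o.2)) /
    (orient o e z)
  obtain ⟨r, hr, hmax⟩ := S.exists_max_image F hne
  refine ⟨r, hr, ?_⟩
  intro w hw hlt
  have h1 := hmax w hw
  have hw' := hS w hw
  have hr' := hS r hr
  simp only [F] at h1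
  rw [div_le_div_iff₀ hw' hr'] at h1
  have key : ((w.1 - o.1) * (e.1 - o.1) + (w.2 - o.2) * (e.2 - o.2)) * (orient o e r) -
      ((r.1 - o.1) * (e.1 - o.1) + (r.2 - o.2) * (e.2 - o.2)) * (orient o e w) =
      -(((e.1 - o.1) ^ 2 + (e.2 - o.2) ^ 2) * orient o r w) := by
    unfold orient; ring
  have h2 := mul_neg_of_pos_of_neg heo hlt
  linarith

/-- last in counterclockwise order -/
lemma exists_last_ccw {o e : Pt} {S : Finset Pt} (hne : S.Nonempty)
    (hS : ∀ z ∈ S, 0 < orient o e z) : ∃ r ∈ S, ∀ w ∈ S, ¬ orient o w r < 0 := by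
  have heo : 0 < (e.1 - o.1) ^ 2 + (e.2 - o.2) ^ 2 := by
    obtain ⟨z, hz⟩ := hne
    have h := hS z hz
    by_contra h0
    have h1 : e.1 - o.1 = 0 := by nlinarith [sq_nonneg (e.1 - o.1), sq_nonneg (e.2 - o.2)]
    have h2 : e.2 - o.2 = 0 := by nlinarith [sq_nonneg (e.1 - o.1), sq_nonneg (e.2 - o.2)]
    unfold orient at h
    rw [h1, h2] at h
    linarith
  let F : Pt → ℝ := fun z => ((z.1 - o.1) * (e.1 - o.1) + (z.2 - o.2) * (e.2 - o.2)) /
    (orient o e z)
  obtain ⟨r, hr, hmin⟩ := S.exists_min_image F hne
  refine ⟨r, hr, ?_⟩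
  intro w hw hlt
  have h1 := hmin w hw
  have hw' := hS w hw
  have hr' := hS r hr
  simp only [F] at h1
  rw [div_le_div_iff₀ hr' hw'] at h1
  have key : ((w.1 - o.1) * (e.1 - o.1) + (w.2 - o.2) * (e.2 - o.2)) * (orient o e r) -
      ((r.1 - o.1) * (e.1 - o.1) + (r.2 - o.2) * (e.2 - o.2)) * (orient o e w) =
      (((e.1 - o.1) ^ 2 + (e.2 - o.2) ^ 2) * orient o w r) := by
    unfold orient; ring
  have h2 := mul_neg_of_pos_of_neg heo hlt
  linarith

/-- Fact A. -/
theorem factA {X : Finset Pt} (hX : GeneralPosition X) (hK : K1 X) (hc : 4 ≤ X.card) {P R : Pt}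
    (hE : HE X P R) :
    ∃ a ∈ X, a ≠ P ∧ a ≠ R ∧
      (∀ z ∈ X, z ≠ P → z ≠ R → z ≠ a → 0 < orient P a z) ∧
      (∀ z ∈ X, z ≠ P → z ≠ R → z ≠ a → orient R a z < 0) := by
  classical
  obtain ⟨hP, hR, hPR, hside⟩ := hE
  set S := (X.erase P).erase R with hS
  have hSm : ∀ z, z ∈ S ↔ z ≠ R ∧ z ≠ P ∧ z ∈ X := by
    intro z; rw [hS, Finset.mem_erase, Finset.mem_erase]
  have hSc : S.card + 2 = X.card := by
    rw [hS, Finset.card_erase_of_mem (Finset.mem_erase.2 ⟨hPR.symm, hR⟩),
      Finset.card_erase_of_mem hP]
    omega
  have hSpos : ∀ z ∈ S, 0 < orient P R z := fun z hz =>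
    hside z ((hSm z).1 hz).2.2 ((hSm z).1 hz).2.1 ((hSm z).1 hz).1
  have hSn : S.Nonempty := by rw [← Finset.card_pos]; omega
  obtain ⟨m, hm, hmin⟩ := S.exists_min_image (fun z => orient P R z) hSn
  obtain ⟨mR, mP, mX⟩ := (hSm m).1 hm
  set T := S.erase m with hT
  have hTm : ∀ z, z ∈ T ↔ z ≠ m ∧ z ≠ R ∧ z ≠ P ∧ z ∈ X := by
    intro z; rw [hT, Finset.mem_erase, hSm]
  have hTn : T.Nonempty := by
    rw [← Finset.card_pos, hT, Finset.card_erase_of_mem hm]; omega
  have hmpos := hSpos m hm
  let e : Pt := (m.1 + (R.1 - P.1), m.2 + (R.2 - P.2))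
  have he : ∀ z, orient m e z = orient P R z - orient P R m := by
    intro z; simp only [e]; unfold orient; ring
  by_cases htie : ∃ s ∈ T, orient P R s = orient P R m
  · -- a tie
    exfalso
    obtain ⟨s, hs, hst⟩ := htie
    obtain ⟨s1, s2, s3, s4⟩ := (hTm s).1 hs
    -- which one is on the right
    have hms : orient m s P ≠ 0 := orient_ne hX mX s4 hP s1.symm s3 mP
    have hrel : orient m s R = orient m s P := by
      have : orient m s R - orient m s P = -(orient P R s - orient P R m) := by
        unfold orient; ring
      linarith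
    have hothers : ∀ z ∈ X, z ≠ P → z ≠ R → z ≠ m → z ≠ s →
        orient m s z * orient m s P < 0 := by
      intro z hz z1 z2 z3 z4
      have hz5 : z ∈ S := (hSm z).2 ⟨z2, z1, hz⟩
      have h6 := hmin z hz5
      have h7 : orient P R m < orient P R z := by
        refine lt_of_le_of_ne h6 ?_
        intro h8
        apply orient_ne hX mX s4 hz s1.symm z4.symm z3.symm
        -- m, s, z on a line parallel to P R
        have k1 : (R.1 - P.1) * orient m s z = (s.1 - m.1) * (orient P R z - orient P R m) -
            (z.1 - m.1) * (orient P R s - orient P R m) := by unfold orient; ring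
        have k2 : (R.2 - P.2) * orient m s z = (s.2 - m.2) * (orient P R z - orient P R m) -
            (z.2 - m.2) * (orient P R s - orient P R m) := by unfold orient; ring
        rw [hst, ← h8, sub_self, mul_zero, mul_zero, sub_zero] at k1 k2
        rcases mul_eq_zero.1 k1 with k3 | k3
        · rcases mul_eq_zero.1 k2 with k4 | k4
          · exact absurd (Prod.ext (by linarith) (by linarith)) hPR
          · exact k4
        · exact k3
      -- (orient m s z) and (orient m s P) have opposite signs
      have key : orient m s z * orient P R m = - (orient m s P * (orient P R z - orient P R m)) +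
          (orient P R s - orient P R m) * orient m z P := by
        unfold orient; ring
      rw [hst, sub_self, zero_mul, add_zero] at key
      have h9 : 0 < orient m s P ^ 2 := by positivity
      have h10 : orient m s z * orient m s P * orient P R m =
          - (orient m s P ^ 2 * (orient P R z - orient P R m)) := by
        calc orient m s z * orient m s P * orient P R m =
            orient m s P * (orient m s z * orient P R m) := by ring
          _ = _ := by rw [key]; ring
      have h11 := mul_pos h9 (sub_pos.2 h7)
      by_contra h12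
      push Not at h12
      have := mul_nonneg h12 hmpos.le
      linarith
    rcases lt_or_gt_of_ne hms with h | h
    · refine hK.no_cut hP hR s4 mX hPR s1 s3.symm mP.symm s2.symm mR.symm (hSpos s ((hSm s).2
        ⟨s2, s3, s4⟩)) hmpos h (by rw [hrel]; exact h) ?_
      intro z hz z1 z2 z3 z4
      have := hothers z hz z1 z2 z4 z3
      by_contra h13
      push Not at h13
      have := mul_nonneg_of_nonpos_of_nonpos h13 h.le
      linarith
    · refine hK.no_cut hP hR mX s4 hPR s1.symm mP.symm s3.symm mR.symm s2.symm hmpos
        (hSpos s ((hSm s).2 ⟨s2, s3, s4⟩)) (by rw [orient_swap]; linarith)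
        (by rw [orient_swap, hrel]; linarith) ?_
      intro z hz z1 z2 z3 z4
      have := hothers z hz z1 z2 z3 z4
      rw [orient_swap]
      by_contra h13
      push Not at h13
      have h14 : 0 ≤ orient m s z := by linarith
      have := mul_nonneg h14 h.le
      linarith
  · push Not at htie
    have hTpos : ∀ z ∈ T, 0 < orient m e z := by
      intro z hz
      obtain ⟨z1, z2, z3, z4⟩ := (hTm z).1 hz
      rw [he]
      have h1 := hmin z ((hSm z).2 ⟨z2, z3, z4⟩)
      have h2 := htie z hz
      have := lt_of_le_of_ne h1 (Ne.symm h2)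
      linarith
    refine ⟨m, mX, mP, mR, ?_, ?_⟩
    · obtain ⟨s, hs, hfirst⟩ := exists_first_ccw hTn hTpos
      obtain ⟨s1, s2, s3, s4⟩ := (hTm s).1 hs
      have hleft : ∀ z ∈ X, z ≠ P → z ≠ R → z ≠ m → z ≠ s → 0 < orient m s z := by
        intro z hz z1 z2 z3 z4
        have h1 := hfirst z ((hTm z).2 ⟨z3, z2, z1, hz⟩)
        exact lt_of_le_of_ne (not_lt.1 h1) (orient_ne hX mX s4 hz s1.symm z4.symm z3.symm).symm
      have hsP : 0 < orient m s P := by
        rcases lt_or_gt_of_ne (orient_ne hX mX s4 hP s1.symm s3 mP) with h | h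
        · exfalso
          have hR' : orient m s R < 0 := by
            have h1 : orient m s R - orient m s P = - orient m e s := by
              rw [he]; unfold orient; ring
            have h2 := hTpos s hs
            linarith
          exact hK.no_cut hP hR s4 mX hPR s1 s3.symm mP.symm s2.symm mR.symm
            (hSpos s ((hSm s).2 ⟨s2, s3, s4⟩)) hmpos h hR'
            (fun z hz z1 z2 z3 z4 => hleft z hz z1 z2 z4 z3)
        · exact h
      have hPs : 0 < orient P m s := by
        have : orient P m s = orient m s P := by unfold orient; ring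
        linarith
      intro z hz z1 z2 z3
      by_cases hzs : z = s
      · rw [hzs]; exact hPs
      · have hzT : z ∈ T := (hTm z).2 ⟨z3, z2, z1, hz⟩
        have hx : orient m e (2 * m.1 - P.1, 2 * m.2 - P.2) = orient P R m := by
          simp only [e]; unfold orient; ring
        have hy : orient m (2 * m.1 - P.1, 2 * m.2 - P.2) s = orient P m s := by
          unfold orient; ring
        have hz' : orient m (2 * m.1 - P.1, 2 * m.2 - P.2) z = orient P m z := by
          unfold orient; ring
        have := Avg.ang_trans (o := m) (e := e) (x := (2 * m.1 - P.1, 2 * m.2 - P.2)) (y := s)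
          (z := z) (by rw [hx]; exact hmpos.le) (hTpos s hs) (hTpos z hzT) (by rw [hy]; exact hPs)
          (hleft z hz z1 z2 z3 hzs)
        rw [hz'] at this
        exact this
    · obtain ⟨s, hs, hlast⟩ := exists_last_ccw hTn hTpos
      obtain ⟨s1, s2, s3, s4⟩ := (hTm s).1 hs
      have hleft : ∀ z ∈ X, z ≠ P → z ≠ R → z ≠ m → z ≠ s → 0 < orient m z s := by
        intro z hz z1 z2 z3 z4
        have h1 := hlast z ((hTm z).2 ⟨z3, z2, z1, hz⟩)
        exact lt_of_le_of_ne (not_lt.1 h1) (orient_ne hX mX hz s4 z3.symm z4 s1.symm).symm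
      have hsR : orient m s R < 0 := by
        rcases lt_or_gt_of_ne (orient_ne hX mX s4 hR s1.symm s2 mR) with h | h
        · exact h
        · exfalso
          have hP' : 0 < orient m s P := by
            have h1 : orient m s R - orient m s P = - orient m e s := by
              rw [he]; unfold orient; ring
            have h2 := hTpos s hs
            linarith
          refine hK.no_cut hP hR mX s4 hPR s1.symm mP.symm s3.symm mR.symm s2.symm hmpos
            (hSpos s ((hSm s).2 ⟨s2, s3, s4⟩)) (by rw [orient_swap]; linarith)
            (by rw [orient_swap]; linarith) ?_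
          intro z hz z1 z2 z3 z4
          have := hleft z hz z1 z2 z3 z4
          have h5 : orient s m z = orient m z s := by unfold orient; ring
          rw [h5]; exact this
      have hRs : orient R m s < 0 := by
        have : orient R m s = orient m s R := by unfold orient; ring
        linarith
      intro z hz z1 z2 z3
      by_cases hzs : z = s
      · rw [hzs]; exact hRs
      · have hzT : z ∈ T := (hTm z).2 ⟨z3, z2, z1, hz⟩
        -- at `m`: z before s before the direction opposite to R
        have hx : orient m e (2 * m.1 - R.1, 2 * m.2 - R.2) = orient P R m := by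
          simp only [e]; unfold orient; ring
        have hy : orient m s (2 * m.1 - R.1, 2 * m.2 - R.2) = - orient R m s := by
          unfold orient; ring
        have hz' : orient m z (2 * m.1 - R.1, 2 * m.2 - R.2) = - orient R m z := by
          unfold orient; ring
        have := Avg.ang_trans (o := m) (e := e) (x := z) (y := s)
          (z := (2 * m.1 - R.1, 2 * m.2 - R.2)) (hTpos z hzT).le (hTpos s hs)
          (by rw [hx]; exact hmpos) (hleft z hz z1 z2 z3 hzs) (by rw [hy]; linarith)
        rw [hz'] at this
        linarith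

end Pool.Agent.GCP
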