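import Pool.Agent.GCP.Leaf2
import Pool.Agent.GCP.PatchTh

/-!
# Fast theory checks for patches
-/

namespace Pool.Agent.GCP

/-- Positive test of an increasing triple. -/
noncomputable def ptt (T i j k : ℕ) : Bool :=
  Nat.casesOn (motive := fun _ => Bool) i true (fun i' => tb T (idx (Nat.succ i') j k))

/-- Negative test of an increasing triple. -/
noncomputable def ntt (F i j k : ℕ) : Bool :=
  Nat.casesOn (motive := fun _ => Bool) i false (fun i' => tb F (idx (Nat.succ i') j k))

/-- The triple is known to be positively oriented (the three labels are different). -/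
noncomputable def lf (T F i j k : ℕ) : Bool :=
  Bool.casesOn (motive := fun _ => Bool) (Nat.ble i j)
    (Bool.casesOn (motive := fun _ => Bool) (Nat.ble i k)
      (Bool.casesOn (motive := fun _ => Bool) (Nat.ble j k) (ntt F k j i) (ptt T j k i))
      (ntt F j i k))
    (Bool.casesOn (motive := fun _ => Bool) (Nat.ble j k)
      (Bool.casesOn (motive := fun _ => Bool) (Nat.ble i k) (ptt T k i j) (ntt F i k j))
      (ptt T i j k))

/-- Side of a line. -/
noncomputable def sdf (T F : ℕ) (m : Bool) (a b x : ℕ) : Bool :=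
  Bool.casesOn (motive := fun _ => Bool) m (lf T F b a x) (lf T F a b x)

/-- Lazy conjunction. -/
noncomputable def an (a b : Bool) : Bool := Bool.casesOn (motive := fun _ => Bool) a false b

/-- Lazy disjunction. -/
noncomputable def oor (a b : Bool) : Bool := Bool.casesOn (motive := fun _ => Bool) a b true

lemma an_iff {a b : Bool} : an a b = true ↔ a = true ∧ b = true := by
  cases a <;> simp [an]

lemma oor_iff {a b : Bool} : oor a b = true ↔ a = true ∨ b = true := by
  cases a <;> simp [oor]

/-- All elements satisfy `p`. -/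
noncomputable def allL (p : ℕ → Bool) (l : List ℕ) : Bool :=
  List.rec (motive := fun _ => Bool) true (fun x _ ih => an (p x) ih) l

lemma allL_iff {p : ℕ → Bool} {l : List ℕ} : allL p l = true ↔ ∀ x ∈ l, p x = true := by
  induction l with
  | nil => simp [allL]
  | cons x l ih =>
    change an (p x) (allL p l) = true ↔ _
    rw [an_iff, ih]
    simp

section
variable {n : ℕ} {P : ℕ → Pt}

lemma ptt_sound (hf : Frame n P) {T F : ℕ} (ha : Asg (val P) T F) {i j k : ℕ}
    (h1 : i < j) (h2 : j < k) (hk : k < n) (h : ptt T i j k = true) :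
    0 < orient (P i) (P j) (P k) := by
  cases i with
  | zero => exact hf.srt j k (by omega) h2 hk
  | succ i' =>
    change tb T (idx (i' + 1) j k) = true at h
    rw [tb_iff] at h
    exact (val_idx (by omega) h1 h2).1 ((ha _).1 h)

lemma ntt_sound (hf : Frame n P) {T F : ℕ} (ha : Asg (val P) T F) {i j k : ℕ}
    (h1 : i < j) (h2 : j < k) (hk : k < n) (h : ntt F i j k = true) :
    orient (P i) (P j) (P k) < 0 := by
  cases i with
  | zero => exact absurd h (by simp [ntt])
  | succ i' =>
    change tb F (idx (i' + 1) j k) = true at h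
    rw [tb_iff] at h
    have h3 := (ha _).2 h
    rw [val_idx (by omega) h1 h2, not_lt] at h3
    exact lt_of_le_of_ne h3 (fne hf h1 h2 hk)

lemma ble_true {a b : ℕ} (h : Nat.ble a b = true) : a ≤ b := by rwa [Nat.ble_eq] at h

lemma ble_false {a b : ℕ} (h : Nat.ble a b = false) : b < a := by
  by_contra hc
  have : Nat.ble a b = true := by rw [Nat.ble_eq]; omega
  rw [h] at this
  exact absurd this (by simp)

lemma lf_sound (hf : Frame n P) {T F : ℕ} (ha : Asg (val P) T F) {i j k : ℕ}
    (hi : i < n) (hj : j < n) (hk : k < n) (hij : i ≠ j) (hjk : j ≠ k) (hik : i ≠ k)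
    (h : lf T F i j k = true) : 0 < orient (P i) (P j) (P k) := by
  have c1 := orient_cyc (P i) (P j) (P k)
  have c2 := orient_cyc (P j) (P k) (P i)
  have s1 := orient_swap' (P i) (P j) (P k)
  have s2 := orient_swap (P i) (P j) (P k)
  have s3 := orient_swap (P j) (P k) (P i)
  unfold lf at h
  cases e1 : Nat.ble i j with
  | false =>
    rw [e1] at h
    simp only at h
    have h1 := ble_false e1
    cases e2 : Nat.ble i k with
    | false =>
      rw [e2] at h
      simp only at h
      have h2 := ble_false e2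
      cases e3 : Nat.ble j k with
      | false =>
        rw [e3] at h
        simp only at h
        have := ntt_sound hf ha (ble_false e3) h1 hi h
        linarith
      | true =>
        rw [e3] at h
        simp only at h
        have := ptt_sound hf ha (lt_of_le_of_ne (ble_true e3) hjk) h2 hi h
        linarith
    | true =>
      rw [e2] at h
      simp only at h
      have := ntt_sound hf ha h1 (lt_of_le_of_ne (ble_true e2) hik) hk h
      linarith
  | true =>
    rw [e1] at h
    simp only at h
    have h1 := lt_of_le_of_ne (ble_true e1) hij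
    cases e2 : Nat.ble j k with
    | false =>
      rw [e2] at h
      simp only at h
      have h2 := ble_false e2
      cases e3 : Nat.ble i k with
      | false =>
        rw [e3] at h
        simp only at h
        have := ptt_sound hf ha (ble_false e3) h1 hj h
        linarith
      | true =>
        rw [e3] at h
        simp only at h
        have := ntt_sound hf ha (lt_of_le_of_ne (ble_true e3) hik) h2 hj h
        linarith
    | true =>
      rw [e2] at h
      simp only at h
      exact ptt_sound hf ha h1 (lt_of_le_of_ne (ble_true e2) hjk) hk h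

lemma sdf_sound (hf : Frame n P) {T F : ℕ} (ha : Asg (val P) T F) {m : Bool} {a b x : ℕ}
    (h1 : a < n) (h2 : b < n) (h3 : x < n) (hab : a ≠ b) (hbx : b ≠ x) (hax : a ≠ x)
    (h : sdf T F m a b x = true) : 0 < sd m (P a) (P b) (P x) := by
  cases m with
  | true => exact lf_sound hf ha h1 h2 h3 hab hbx hax h
  | false =>
    have := lf_sound hf ha h2 h1 h3 hab.symm hax hbx h
    rw [orient_swap] at this
    exact this

end

/-- Cutting trees: sets of at most three points, convex leaves given by two chains, free leaves, cuts. -/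
inductive Ft : Type
  | s (l : List ℕ) : Ft
  | c (f l : ℕ) (U W : List ℕ) : Ft
  | w (k : ℕ) (l : List ℕ) : Ft
  | n (m : Bool) (a b : ℕ) (L R : Ft) : Ft

namespace Ft

/-- All points. -/
def pts : Ft → List ℕ
  | s l => l
  | c f l U W => f :: l :: (U ++ W)
  | w _ l => l
  | n _ _ _ L R => L.pts ++ R.pts

/-- The number of parts. -/
def cost : Ft → ℕ
  | s _ => 1
  | c _ _ _ _ => 1
  | w k _ => k
  | n _ _ _ L R => Nat.add L.cost R.cost

/-- The number of points. -/
def len : Ft → ℕ
  | s l => l.length
  | c _ _ U W => Nat.add (Nat.add U.length W.length) 2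
  | w _ l => l.length
  | n _ _ _ L R => Nat.add L.len R.len

lemma len_eq (t : Ft) : t.len = t.pts.length := by
  induction t with
  | s l => rfl
  | c f l U W =>
    simp only [len, pts, List.length_cons, List.length_append]
    change U.length + W.length + 2 = _
    omega
  | w k l => rfl
  | n m a b L R ihL ihR =>
    simp only [len, pts, List.length_append, ihL, ihR]
    rfl

/-- All points satisfy `p`. -/
noncomputable def allP (p : ℕ → Bool) (t : Ft) : Bool :=
  Ft.rec (motive := fun _ => Bool) (fun l => allL p l)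
    (fun f l U W => an (p f) (an (p l) (an (allL p U) (allL p W))))
    (fun _ l => allL p l) (fun _ _ _ _ _ ihL ihR => an ihL ihR) t

lemma allP_iff {p : ℕ → Bool} {t : Ft} : t.allP p = true ↔ ∀ x ∈ t.pts, p x = true := by
  induction t with
  | s l => exact allL_iff
  | c f l U W =>
    change an (p f) (an (p l) (an (allL p U) (allL p W))) = true ↔ _
    simp only [an_iff, allL_iff, pts, List.mem_cons, List.mem_append, forall_eq_or_imp]
    constructor
    · rintro ⟨h1, h2, h3, h4⟩
      exact ⟨h1, h2, fun x hx => hx.elim (h3 x) (h4 x)⟩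
    · rintro ⟨h1, h2, h3⟩
      exact ⟨h1, h2, fun x hx => h3 x (Or.inl hx), fun x hx => h3 x (Or.inr hx)⟩
  | w k l => exact allL_iff
  | n m a b L R ihL ihR =>
    change an (L.allP p) (R.allP p) = true ↔ _
    rw [an_iff, ihL, ihR]
    simp only [pts, List.mem_append]
    constructor
    · rintro ⟨h1, h2⟩ x (hx | hx)
      · exact h1 x hx
      · exact h2 x hx
    · intro h
      exact ⟨fun x hx => h x (Or.inl hx), fun x hx => h x (Or.inr hx)⟩

end Ft

/-- Add a point to the mask; it must be new. -/
noncomputable def add1 (x acc : ℕ) (k : ℕ → Bool) : Bool :=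
  Bool.casesOn (motive := fun _ => Bool) (tb acc x)
    (Nat.casesOn (motive := fun _ => Bool) (Nat.lor acc (Nat.pow 2 x)) false
      (fun t => k (Nat.succ t))) false

/-- Add a list of points to the mask. -/
noncomputable def addL (l : List ℕ) : ℕ → (ℕ → Bool) → Bool :=
  List.rec (motive := fun _ => ℕ → (ℕ → Bool) → Bool) (fun acc k => k acc)
    (fun x _ ih acc k => add1 x acc (fun acc' => ih acc' k)) l

/-- The mask `m'` consists of the mask `m` and the new different points of `l`. -/
def AddR (l : List ℕ) (m m' : ℕ) : Prop :=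
  l.Nodup ∧ (∀ i ∈ l, m.testBit i = false) ∧
    ∀ i, m'.testBit i = true ↔ (m.testBit i = true ∨ i ∈ l)

lemma AddR.append {l l' : List ℕ} {m m' m'' : ℕ} (h : AddR l m m') (h' : AddR l' m' m'') :
    AddR (l ++ l') m m'' := by
  obtain ⟨a1, a2, a3⟩ := h
  obtain ⟨b1, b2, b3⟩ := h'
  refine ⟨?_, ?_, ?_⟩
  · rw [List.nodup_append]
    refine ⟨a1, b1, ?_⟩
    rintro x hx y hy rfl
    have h1 := b2 x hy
    rw [(a3 x).2 (Or.inr hx)] at h1
    exact absurd h1 (by simp)
  · intro i hi
    rcases List.mem_append.1 hi with h1 | h1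
    · exact a2 i h1
    · by_contra hc
      have h2 := b2 i h1
      rw [(a3 i).2 (Or.inl (by simpa using hc))] at h2
      exact absurd h2 (by simp)
  · intro i
    rw [b3, a3, List.mem_append, or_assoc]

lemma add1_sound {x acc : ℕ} {k : ℕ → Bool} (h : add1 x acc k = true) :
    ∃ m', AddR [x] acc m' ∧ k m' = true := by
  unfold add1 at h
  cases e : tb acc x with
  | true => rw [e] at h; exact absurd h (by simp)
  | false =>
    rw [e] at h
    simp only at h
    have e' : acc.testBit x = false := by
      by_contra hc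
      have : tb acc x = true := tb_iff.2 (by simpa using hc)
      rw [e] at this
      exact absurd this (by simp)
    refine ⟨Nat.lor acc (Nat.pow 2 x), ⟨by simp, by simpa using e', ?_⟩, ?_⟩
    · intro i
      change (acc ||| 2 ^ x).testBit i = true ↔ _
      rw [Nat.testBit_or, Bool.or_eq_true, Nat.testBit_two_pow, decide_eq_true_eq,
        List.mem_singleton]
      exact or_congr Iff.rfl eq_comm
    · generalize Nat.lor acc (Nat.pow 2 x) = t at h ⊢
      cases t with
      | zero => exact absurd h (by simp)
      | succ t => exact h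

lemma addL_sound {l : List ℕ} : ∀ {acc : ℕ} {k : ℕ → Bool}, addL l acc k = true →
    ∃ m', AddR l acc m' ∧ k m' = true := by
  induction l with
  | nil =>
    intro acc k h
    exact ⟨acc, ⟨by simp, by simp, by simp⟩, h⟩
  | cons x l ih =>
    intro acc k h
    change add1 x acc (fun acc' => addL l acc' k) = true at h
    obtain ⟨m', h1, h2⟩ := add1_sound h
    obtain ⟨m'', h3, h4⟩ := ih h2
    exact ⟨m'', h1.append h3, h4⟩

namespace Ft

/-- Add all points of the tree to the mask. -/
noncomputable def addT (t : Ft) : ℕ → (ℕ → Bool) → Bool :=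
  Ft.rec (motive := fun _ => ℕ → (ℕ → Bool) → Bool) (fun l => addL l)
    (fun f l U W acc k => add1 f acc (fun a1 => add1 l a1 (fun a2 => addL U a2 (fun a3 =>
      addL W a3 k))))
    (fun _ l => addL l) (fun _ _ _ _ _ ihL ihR acc k => ihL acc (fun a => ihR a k)) t

lemma addT_sound {t : Ft} : ∀ {acc : ℕ} {k : ℕ → Bool}, t.addT acc k = true →
    ∃ m', AddR t.pts acc m' ∧ k m' = true := by
  induction t with
  | s l => intro acc k h; exact addL_sound h
  | c f l U W =>
    intro acc k h
    change add1 f acc (fun a1 => add1 l a1 (fun a2 => addL U a2 (fun a3 => addL W a3 k))) = true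
      at h
    obtain ⟨m1, h1, h⟩ := add1_sound h
    obtain ⟨m2, h2, h⟩ := add1_sound h
    obtain ⟨m3, h3, h⟩ := addL_sound h
    obtain ⟨m4, h4, h⟩ := addL_sound h
    refine ⟨m4, ?_, h⟩
    have := (h1.append h2).append (h3.append h4)
    simpa only [pts, List.cons_append, List.nil_append] using this
  | w k l => intro acc k h; exact addL_sound h
  | n m a b L R ihL ihR =>
    intro acc k h
    change L.addT acc (fun a => R.addT a k) = true at h
    obtain ⟨m1, h1, h⟩ := ihL h
    obtain ⟨m2, h2, h⟩ := ihR h
    exact ⟨m2, h1.append h2, h⟩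

end Ft

/-- Check a chain: `x`, `y` are the last two points, the end is `l`. -/
noncomputable def chn (T F : ℕ) (m : Bool) (l : ℕ) (L : List ℕ) : ℕ → ℕ → Bool :=
  List.rec (motive := fun _ => ℕ → ℕ → Bool)
    (fun x y => an (Nat.ble (Nat.succ y) l) (sdf T F m x y l))
    (fun z _ ih x y => an (Nat.ble (Nat.succ y) z) (an (sdf T F m x y z) (ih y z))) L

/-- Check the chain `f :: L ++ [l]`. -/
noncomputable def chn0 (T F : ℕ) (m : Bool) (f l : ℕ) (L : List ℕ) : Bool :=
  List.casesOn (motive := fun _ => Bool) L true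
    (fun x L' => an (Nat.ble (Nat.succ f) x) (chn T F m l L' f x))

/-- The sign. -/
def sg (m : Bool) (x : ℝ) : Prop := match m with
  | true => 0 < x
  | false => x < 0

section
variable {n : ℕ} {P : ℕ → Pt}

lemma sdf_sg (hf : Frame n P) {T F : ℕ} (ha : Asg (val P) T F) {m : Bool} {x y z : ℕ}
    (h1 : x < y) (h2 : y < z) (h3 : z < n) (h : sdf T F m x y z = true) :
    sg m (orient (P x) (P y) (P z)) := by
  have := sdf_sound hf ha (by omega : x < n) (by omega : y < n) h3 (by omega) (by omega)
    (by omega) h
  cases m with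
  | true => exact this
  | false =>
    simp only [sd, cond_false] at this
    simp only [sg]
    linarith

lemma sg_step (hf : Frame n P) {m : Bool} {a b c d : ℕ} (h1 : a < b) (h2 : b < c) (h3 : c < d)
    (h4 : d < n) (e1 : sg m (orient (P a) (P b) (P c))) (e2 : sg m (orient (P b) (P c) (P d))) :
    sg m (orient (P a) (P b) (P d)) ∧ sg m (orient (P a) (P c) (P d)) := by
  cases m with
  | true => exact sig_pos hf h1 h2 h3 h4 e1 e2
  | false => exact sig_neg hf h1 h2 h3 h4 e1 e2

lemma chn_sound (hf : Frame n P) {T F : ℕ} (ha : Asg (val P) T F) {m : Bool} {l : ℕ}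
    (hl : l < n) : ∀ (L : List ℕ) (x y : ℕ), x < y → chn T F m l L x y = true →
      y < l ∧ (∀ z ∈ L, y < z ∧ z < l) ∧
      ∀ i ∈ x :: y :: l :: L, ∀ j ∈ x :: y :: l :: L, ∀ k ∈ x :: y :: l :: L,
        i < j → j < k → sg m (orient (P i) (P j) (P k)) := by
  intro L
  induction L with
  | nil =>
    intro x y hxy h
    change an (Nat.ble (Nat.succ y) l) (sdf T F m x y l) = true at h
    rw [an_iff] at h
    have h1 : y < l := ble_true h.1
    refine ⟨h1, by simp, ?_⟩
    intro i hi j hj k hk hij hjk
    simp only [List.mem_cons, List.not_mem_nil, or_false] at hi hj hk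
    have : i = x ∧ j = y ∧ k = l := by omega
    obtain ⟨rfl, rfl, rfl⟩ := this
    exact sdf_sg hf ha hxy h1 hl h.2
  | cons z L ih =>
    intro x y hxy h
    change an (Nat.ble (Nat.succ y) z) (an (sdf T F m x y z) (chn T F m l L y z)) = true at h
    rw [an_iff, an_iff] at h
    obtain ⟨h1, h2, h3⟩ := h
    have h1' : y < z := ble_true h1
    obtain ⟨i1, i2, i3⟩ := ih y z h1' h3
    have hz : z < n := by omega
    have b2 := sdf_sg hf ha hxy h1' hz h2
    -- elements of the tail are larger than y
    have hgt : ∀ k ∈ z :: l :: L, y < k ∧ k < n := by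
      intro k hk
      simp only [List.mem_cons] at hk
      rcases hk with rfl | rfl | hk
      · omega
      · omega
      · have := i2 k hk; omega
    have hxyk : ∀ k ∈ z :: l :: L, sg m (orient (P x) (P y) (P k)) := by
      intro k hk
      by_cases hkz : k = z
      · rw [hkz]; exact b2
      · have hzk : z < k := by
          simp only [List.mem_cons] at hk
          rcases hk with rfl | rfl | hk
          · exact absurd rfl hkz
          · omega
          · exact (i2 k hk).1
        have := i3 y (by simp) z (by simp) k (by simp only [List.mem_cons] at hk ⊢; tauto) h1' hzk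
        exact (sg_step hf hxy h1' hzk (hgt k hk).2 b2 this).1
    refine ⟨by omega, ?_, ?_⟩
    · intro w hw
      rcases List.mem_cons.1 hw with rfl | hw
      · exact ⟨h1', i1⟩
      · exact ⟨by have := (i2 w hw).1; omega, (i2 w hw).2⟩
    · have hmem : ∀ k, k ∈ x :: y :: l :: z :: L → k = x ∨ k = y ∨ k ∈ z :: l :: L := by
        intro k hk
        simp only [List.mem_cons] at hk ⊢
        tauto
      intro i hi j hj k hk hij hjk
      rcases hmem i hi with rfl | rfl | hi'
      · rcases hmem j hj with rfl | rfl | hj'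
        · omega
        · rcases hmem k hk with rfl | rfl | hk'
          · omega
          · omega
          · exact hxyk k hk'
        · rcases hmem k hk with rfl | rfl | hk'
          · omega
          · have := hgt j hj'; omega
          · have e1 := hxyk j hj'
            have e2 := i3 y (by simp) j (by simp only [List.mem_cons] at hj' ⊢; tauto) k
              (by simp only [List.mem_cons] at hk' ⊢; tauto) (hgt j hj').1 hjk
            exact (sg_step hf hxy (hgt j hj').1 hjk (hgt k hk').2 e1 e2).2
      · have hj' : j ∈ z :: l :: L := by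
          rcases hmem j hj with rfl | rfl | hj'
          · omega
          · omega
          · exact hj'
        have hk' : k ∈ z :: l :: L := by
          rcases hmem k hk with rfl | rfl | hk'
          · have := hgt j hj'; omega
          · omega
          · exact hk'
        exact i3 i (by simp) j (by simp only [List.mem_cons] at hj' ⊢; tauto) k
          (by simp only [List.mem_cons] at hk' ⊢; tauto) hij hjk
      · have hgi := hgt i hi'
        have hj' : j ∈ z :: l :: L := by
          rcases hmem j hj with rfl | rfl | hj'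
          · omega
          · omega
          · exact hj'
        have hk' : k ∈ z :: l :: L := by
          rcases hmem k hk with rfl | rfl | hk'
          · omega
          · omega
          · exact hk'
        exact i3 i (by simp only [List.mem_cons] at hi' ⊢; tauto) j
          (by simp only [List.mem_cons] at hj' ⊢; tauto) k
          (by simp only [List.mem_cons] at hk' ⊢; tauto) hij hjk

lemma chn0_sound (hf : Frame n P) {T F : ℕ} (ha : Asg (val P) T F) {m : Bool} {f l : ℕ}
    (hl : l < n) (hfl : f < l) {L : List ℕ} (h : chn0 T F m f l L = true) :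
    (∀ z ∈ L, f < z ∧ z < l) ∧
      ∀ i ∈ f :: l :: L, ∀ j ∈ f :: l :: L, ∀ k ∈ f :: l :: L,
        i < j → j < k → sg m (orient (P i) (P j) (P k)) := by
  cases L with
  | nil =>
    refine ⟨by simp, ?_⟩
    intro i hi j hj k hk hij hjk
    simp only [List.mem_cons, List.not_mem_nil, or_false] at hi hj hk
    omega
  | cons x L =>
    change an (Nat.ble (Nat.succ f) x) (chn T F m l L f x) = true at h
    rw [an_iff] at h
    have h1 : f < x := ble_true h.1
    obtain ⟨i1, i2, i3⟩ := chn_sound hf ha hl L f x h1 h.2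
    refine ⟨?_, ?_⟩
    · intro z hz
      rcases List.mem_cons.1 hz with rfl | hz
      · exact ⟨h1, i1⟩
      · have := i2 z hz
        exact ⟨by omega, this.2⟩
    · intro i hi j hj k hk
      exact i3 i (by simp only [List.mem_cons] at hi ⊢; tauto) j
        (by simp only [List.mem_cons] at hj ⊢; tauto) k (by simp only [List.mem_cons] at hk ⊢; tauto)

end

/-- At most three points. -/
def le3 : List ℕ → Bool
  | [_] => true
  | [_, _] => true
  | [_, _, _] => true
  | _ => false

namespace Ft

/-- The check of a tree. -/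
noncomputable def ok (N T F : ℕ) (t : Ft) : Bool :=
  Ft.rec (motive := fun _ => Bool) (fun l => le3 l)
    (fun f l U W => an (Nat.ble (Nat.succ f) l) (an (chn0 T F false f l U) (chn0 T F true f l W)))
    (fun k l => oor (an (Nat.beq k 2) (Nat.ble l.length 7)) (an (Nat.beq k 3) (Nat.ble l.length 10)))
    (fun m a b L R ihL ihR => an (Nat.ble a N) (an (Nat.ble b N) (an (!Nat.beq a b)
      (an (L.allP (fun x => oor (Nat.beq x a) (an (!Nat.beq x b) (sdf T F m a b x))))
        (an (R.allP (fun x => oor (Nat.beq x b) (an (!Nat.beq x a) (sdf T F (!m) a b x))))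
          (an ihL ihR)))))) t

end Ft

section
variable {n : ℕ} {P : ℕ → Pt}

lemma beq_true {a b : ℕ} (h : Nat.beq a b = true) : a = b := by rwa [Nat.beq_eq] at h

theorem ft_sound {g : List (List Q)} (hF : Facts 7 10 g) (hf : Frame (n + 1) P) {T F : ℕ}
    (ha : Asg (val P) T F) (t : Ft) :
    (∀ i ∈ t.pts, i < n + 1) → t.pts.Nodup → t.ok n T F = true →
      HCPle (P '' {i | i ∈ t.pts}) t.cost := by
  classical
  induction t with
  | s l =>
    intro hl hnd h
    change le3 l = true at h
    have h' : leafOK (fun _ _ _ => false) l = true := by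
      match l, h with
      | [_], _ => rfl
      | [_, _], _ => rfl
      | [_, _, _], _ => rfl
    obtain ⟨h1, h2⟩ := leaf_sound (P := P) (n := n + 1) hf.inj hf.gp
      (lit := fun _ _ _ => false) (fun i j k _ _ _ h => absurd h (by simp)) hl hnd h'
    refine ⟨1, le_refl _, [l.toFinset.image P], rfl, ?_, by simp, ?_⟩
    · intro Y hY
      simp only [List.mem_singleton] at hY
      subst hY
      exact ⟨h1, h2⟩
    · intro x
      simp [Ft.pts]
  | c f l U W =>
    intro hl hnd h
    change an (Nat.ble (Nat.succ f) l) (an (chn0 T F false f l U) (chn0 T F true f l W)) = true at h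
    rw [an_iff, an_iff] at h
    obtain ⟨h1, h2, h3⟩ := h
    have hfl : f < l := ble_true h1
    have hln : l < n + 1 := hl l (by simp [Ft.pts])
    obtain ⟨u1, u2⟩ := chn0_sound hf ha hln hfl h2
    obtain ⟨w1, w2⟩ := chn0_sound hf ha hln hfl h3
    have hdis : ∀ u ∈ U, ∀ w ∈ W, u ≠ w := by
      simp only [Ft.pts, List.nodup_cons, List.mem_cons, List.mem_append, not_or,
        List.nodup_append] at hnd
      intro u hu w hw
      exact hnd.2.2.2.2 u hu w hw
    have hc : TwoCh (n + 1) P f l U.toFinset W.toFinset := by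
      refine ⟨hf, hln, hfl, fun u hu => u1 u (List.mem_toFinset.1 hu),
        fun w hw => w1 w (List.mem_toFinset.1 hw),
        fun u hu w hw => hdis u (List.mem_toFinset.1 hu) w (List.mem_toFinset.1 hw), ?_, ?_⟩
      · intro i hi j hj k hk hij hjk
        simp only [Finset.mem_insert, List.mem_toFinset] at hi hj hk
        exact u2 i (by simpa using hi) j (by simpa using hj) k (by simpa using hk) hij hjk
      · intro i hi j hj k hk hij hjk
        simp only [Finset.mem_insert, List.mem_toFinset] at hi hj hk
        exact w2 i (by simpa using hi) j (by simpa using hj) k (by simpa using hk) hij hjk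
    have hconv := hc.conv
    have hset : (insert f (insert l (U.toFinset ∪ W.toFinset))) =
        (Ft.c f l U W).pts.toFinset := by
      ext x
      simp [Ft.pts]
    rw [hset] at hconv
    refine ⟨1, le_refl _, [(Ft.c f l U W).pts.toFinset.image P], rfl, ?_, by simp, ?_⟩
    · intro Y hY
      simp only [List.mem_singleton] at hY
      subst hY
      refine ⟨?_, hconv⟩
      rw [Finset.image_nonempty]
      exact ⟨f, by simp [Ft.pts]⟩
    · intro x
      simp only [Set.mem_image, Set.mem_ofPred_eq, List.mem_singleton, exists_eq_left,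
        Finset.mem_image, List.mem_toFinset]
  | w k l =>
    intro hl hnd h
    change oor (an (Nat.beq k 2) (Nat.ble l.length 7)) (an (Nat.beq k 3) (Nat.ble l.length 10)) =
      true at h
    rw [oor_iff, an_iff, an_iff] at h
    have hc : (l.toFinset.image P).card ≤ l.length :=
      Finset.card_image_le.trans (List.toFinset_card_le l)
    have hg := gp_image hf hl
    rcases h with ⟨h0, h⟩ | ⟨h0, h⟩
    · have e := beq_true h0
      subst e
      have := hF.f2 _ (hc.trans (ble_true h)) hg
      rw [image_list] at this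
      exact this
    · have e := beq_true h0
      subst e
      have := hF.f3 _ (hc.trans (ble_true h)) hg
      rw [image_list] at this
      exact this
  | n m a b L R ihL ihR =>
    intro hl hnd h
    change an (Nat.ble a n) (an (Nat.ble b n) (an (!Nat.beq a b)
      (an (L.allP (fun x => oor (Nat.beq x a) (an (!Nat.beq x b) (sdf T F m a b x))))
        (an (R.allP (fun x => oor (Nat.beq x b) (an (!Nat.beq x a) (sdf T F (!m) a b x))))
          (an (L.ok n T F) (R.ok n T F)))))) = true at h
    simp only [an_iff, Ft.allP_iff, oor_iff, Bool.not_eq_true'] at h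
    obtain ⟨h1, h2, h3, h4, h5, h6, h7⟩ := h
    have ha1 : a < n + 1 := by have := ble_true h1; omega
    have hb1 : b < n + 1 := by have := ble_true h2; omega
    have hab := nbeq_false h3
    simp only [Ft.pts, List.mem_append] at hl
    have hnd' := hnd
    simp only [Ft.pts] at hnd'
    rw [List.nodup_append] at hnd'
    have iL := ihL (fun i hi => hl i (Or.inl hi)) hnd'.1 h6
    have iR := ihR (fun i hi => hl i (Or.inr hi)) hnd'.2.1 h7
    have heq : P '' {i | i ∈ (Ft.n m a b L R).pts} =
        P '' {i | i ∈ L.pts} ∪ P '' {i | i ∈ R.pts} := by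
      rw [← Set.image_union]
      congr 1
      ext i
      simp [Ft.pts]
    rw [heq]
    have hPab := hf.inj a b ha1 hb1 hab
    have sL : ∀ x ∈ P '' {i | i ∈ L.pts}, x ≠ P a → 0 < sd m (P a) (P b) x := by
      rintro x ⟨i, hi, rfl⟩ hx
      rcases h4 i hi with h | ⟨h, h'⟩
      · have := beq_true h
        subst this
        exact absurd rfl hx
      · have hia : a ≠ i := by rintro rfl; exact hx rfl
        exact sdf_sound hf ha ha1 hb1 (hl i (Or.inl hi)) hab (nbeq_false h).symm hia h'
    have sR : ∀ x ∈ P '' {i | i ∈ R.pts}, x ≠ P b → sd m (P a) (P b) x < 0 := by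
      rintro x ⟨i, hi, rfl⟩ hx
      rcases h5 i hi with h | ⟨h, h'⟩
      · have := beq_true h
        subst this
        exact absurd rfl hx
      · have hib : b ≠ i := by rintro rfl; exact hx rfl
        have := sdf_sound hf ha ha1 hb1 (hl i (Or.inr hi)) hab hib (nbeq_false h).symm h'
        rw [sd_not] at this
        linarith
    refine HCPle.append iL iR ?_
    cases m with
    | true => exact hull_disjoint hPab sL sR
    | false =>
      refine hull_disjoint' hPab ?_ ?_
      · intro x hx hxa
        have := sL x hx hxa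
        simp only [sd, cond_false] at this
        linarith
      · intro x hx hxb
        have := sR x hx hxb
        simp only [sd, cond_false] at this
        linarith

end

/-! ### Loops and lengths -/

/-- All numbers below `n` satisfy `p`. -/
noncomputable def allN (p : ℕ → Bool) (n : ℕ) : Bool :=
  Nat.rec (motive := fun _ => Bool) true (fun i ih => an (p i) ih) n

lemma allN_iff {p : ℕ → Bool} {n : ℕ} : allN p n = true ↔ ∀ i < n, p i = true := by
  induction n with
  | zero => simp [allN]
  | succ n ih =>
    change an (p n) (allN p n) = true ↔ _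
    rw [an_iff, ih]
    constructor
    · rintro ⟨h1, h2⟩ i hi
      rcases Nat.lt_succ_iff_lt_or_eq.1 hi with h | h
      · exact h2 i h
      · rw [h]; exact h1
    · intro h
      exact ⟨h n (by omega), fun i hi => h i (by omega)⟩

/-- The length of a list. -/
noncomputable def ln (l : List ℕ) : ℕ :=
  List.rec (motive := fun _ => ℕ) 0 (fun _ _ ih => Nat.succ ih) l

lemma ln_eq (l : List ℕ) : ln l = l.length := by
  induction l with
  | nil => rfl
  | cons x l ih =>
    change Nat.succ (ln l) = _
    rw [ih]
    rfl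

namespace Ft

/-- The number of points (fast). -/
noncomputable def fl (t : Ft) : ℕ :=
  Ft.rec (motive := fun _ => ℕ) (fun l => ln l)
    (fun _ _ U W => Nat.add (Nat.add (ln U) (ln W)) 2)
    (fun _ l => ln l) (fun _ _ _ _ _ ihL ihR => Nat.add ihL ihR) t

lemma fl_eq (t : Ft) : t.fl = t.pts.length := by
  induction t with
  | s l => exact ln_eq l
  | c f l U W =>
    change ln U + ln W + 2 = _
    simp only [ln_eq, pts, List.length_cons, List.length_append]
  | w k l => exact ln_eq l
  | n m a b L R ihL ihR =>
    change L.fl + R.fl = _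
    rw [ihL, ihR]
    simp [pts]

/-- The number of parts (fast). -/
noncomputable def fc (t : Ft) : ℕ :=
  Ft.rec (motive := fun _ => ℕ) (fun _ => 1) (fun _ _ _ _ => 1)
    (fun k _ => k) (fun _ _ _ _ _ ihL ihR => Nat.add ihL ihR) t

lemma fc_eq (t : Ft) : t.fc = t.cost := by
  induction t with
  | s l => rfl
  | c f l U W => rfl
  | w k l => rfl
  | n m a b L R ihL ihR =>
    change Nat.add L.fc R.fc = _
    rw [ihL, ihR]
    rfl

end Ft

/-! ### Removals -/

/-- Fast patch data: the data, the mask of the real labels and the mask of the labels outside of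
the chain. -/
structure FD where
  d : PD
  V : ℕ
  RM : ℕ
  NM : ℕ

/-- The consistency of the fast data. -/
def FD.ok (q : FD) : Bool :=
  Nat.beq q.V q.d.V && (Nat.ble (Nat.succ q.RM) (2 ^ (Nat.succ q.V)) &&
    (List.range (Nat.succ q.V)).all (fun i => (tb q.RM i == q.d.isReal i) &&
      (!tb q.NM i || !mb q.d.chain i)))

/-- The meaning of the consistency. -/
structure FDok (q : FD) : Prop where
  hV : q.V = q.d.V
  hR : ∀ i, q.RM.testBit i = true ↔ q.d.isReal i = true
  hN : ∀ f ∈ q.d.chain, f ≤ q.V → q.NM.testBit f = false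

lemma tb_false {m v : ℕ} : tb m v = false ↔ m.testBit v = false := by
  rw [← Bool.not_eq_true, tb_iff, Bool.not_eq_true]

lemma FD.ok_sound {q : FD} (h : q.ok = true) : FDok q := by
  simp only [FD.ok, Bool.and_eq_true, List.all_eq_true, List.mem_range, beq_iff_eq,
    Bool.or_eq_true, Bool.not_eq_true'] at h
  obtain ⟨h1, h2, h3⟩ := h
  have h1' := beq_true h1
  have h2' : q.RM < 2 ^ (q.V + 1) := ble_true h2
  refine ⟨h1', ?_, ?_⟩
  · intro i
    by_cases hi : i < q.V + 1
    · rw [← tb_iff, (h3 i hi).1]
    · have e1 : q.RM.testBit i = false := by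
        apply Nat.testBit_lt_two_pow
        exact h2'.trans_le (Nat.pow_le_pow_right (by norm_num) (by omega))
      rw [e1]
      constructor
      · intro h; exact absurd h (by simp)
      · intro h
        have := isReal_le h
        omega
  · intro f hf hfV
    rcases (h3 f (by omega)).2 with h | h
    · exact tb_false.1 h
    · exact absurd hf (mb_false h)

/-- One removal. -/
structure Cf where
  m : Bool
  a : ℕ
  b : ℕ
  x : ℕ
  t : Ft

/-- The far side. -/
noncomputable def farF (q : FD) (T F : ℕ) (m : Bool) (a b AD : ℕ) : Bool :=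
  allN (fun y => oor (tb (Nat.land AD q.NM) y) (oor (Nat.beq y b)
    (Bool.casesOn (motive := fun _ => Bool) (Nat.beq y a) (sdf T F (!m) a b y) (tb AD a))))
    (Nat.succ q.V)

/-- The check of one removal. -/
noncomputable def cuF (q : FD) (T F : ℕ) (s : Cf) (D : ℕ) (k : ℕ → Bool) : Bool :=
  an (tb q.RM s.a) (an (Nat.ble s.b q.V) (an (!Nat.beq s.a s.b) (s.t.addT D (fun AD =>
    an (Nat.beq (Nat.land AD q.RM) AD) (an (tb AD s.x) (an (!tb D s.x)
    (an (!Nat.beq s.x 0) (an (!Nat.beq s.x q.V) (an (oor (!tb AD s.b) (tb D s.b))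
    (an (s.t.allP (fun x => oor (Nat.beq x s.a) (sdf T F s.m s.a s.b x)))
    (an (farF q T F s.m s.a s.b AD) (an (s.t.ok q.V T F) (k AD)))))))))))))

/-- The check of a sequence of removals. -/
noncomputable def remF (q : FD) (t0 T F : ℕ) (ss : List Cf) : ℕ → ℕ → ℕ → Bool :=
  List.rec (motive := fun _ => ℕ → ℕ → ℕ → Bool)
    (fun _ len c => an (tb t0 len) (Nat.ble c (Nat.div len 4)))
    (fun s _ ih D len c => cuF q T F s D (fun AD => ih AD (Nat.add len s.t.fl)
      (Nat.add c s.t.fc))) ss

section
variable {d : PD} {P : ℕ → Pt} {X : Finset Pt}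

/-- The separation of a removed set. -/
theorem cut_core (hp : Patch d P X) {D A : List ℕ} (hD : ∀ i ∈ D, d.isReal i = true)
    {m : Bool} {a b x0 : ℕ} (h1 : d.isReal a = true) (hb : b ≤ d.V) (hab : a ≠ b)
    (hx0 : x0 ∈ A) (h00 : x0 ≠ 0) (h0V : x0 ≠ d.V) (hreal : ∀ i ∈ A, d.isReal i = true)
    (hnD : ∀ i ∈ A, i ∉ D) (hA : ∀ i ∈ A, i = a ∨ 0 < sd m (P a) (P b) (P i))
    (hB : ∀ i, d.isReal i = true → i ∈ D ∨ i ∈ A ∨ i = b ∨ sd m (P a) (P b) (P i) < 0)
    (hC : ∀ f ∈ d.chain, f = a ∨ f = b ∨ sd m (P a) (P b) (P f) < 0) :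
    left P X D = P '' {i | i ∈ A} ∪ left P X (D ++ A) ∧
    Disjoint (convexHull ℝ (P '' {i | i ∈ A})) (convexHull ℝ (left P X (D ++ A))) := by
  have hlt : ∀ {i}, d.isReal i = true → i < d.V + 1 := fun hi =>
    Nat.lt_succ_of_le (isReal_le hi)
  have ha' : a < d.V + 1 := hlt h1
  have hb' : b < d.V + 1 := by omega
  have heq : left P X D = P '' {i | i ∈ A} ∪ left P X (D ++ A) := by
    ext x
    simp only [left, Set.mem_union, Set.mem_image, Set.mem_ofPred_eq, List.mem_append]
    constructor
    · rintro ⟨hx, hxD⟩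
      by_cases hxA : ∃ i ∈ A, P i = x
      · exact Or.inl hxA
      · right
        refine ⟨hx, ?_⟩
        rintro i (hi | hi)
        · exact hxD i hi
        · intro he
          exact hxA ⟨i, hi, he.symm⟩
    · rintro (⟨i, hi, rfl⟩ | ⟨hx, hxD⟩)
      · refine ⟨hp.real i (hreal i hi), ?_⟩
        intro j hj
        refine hp.fr.inj i j (hlt (hreal i hi)) (hlt (hD j hj)) ?_
        rintro rfl
        exact hnD i hi hj
      · exact ⟨hx, fun i hi => hxD i (Or.inl hi)⟩
  refine ⟨heq, ?_⟩
  have hPab : P a ≠ P b := hp.fr.inj _ _ ha' hb' hab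
  have hsA : ∀ x ∈ P '' {i | i ∈ A}, x ≠ P a → 0 < sd m (P a) (P b) x := by
    rintro x ⟨i, hi, rfl⟩ hx
    rcases hA i hi with h | h
    · subst h
      exact absurd rfl hx
    · exact h
  have hsB : ∀ x ∈ left P X (D ++ A), x ≠ P b → sd m (P a) (P b) x < 0 := by
    rintro x ⟨hx, hxD⟩ hxb
    by_cases hun : ∀ i, d.isReal i = true → x ≠ P i
    · refine hp.far h1 hb hab (hreal _ hx0) h00 h0V ?_ hC hx hun
      by_cases hxa : x0 = a
      · rw [hxa, sd_left]
      · refine (hsA _ ⟨x0, hx0, rfl⟩ ?_).le
        exact hp.fr.inj _ _ (hlt (hreal _ hx0)) ha' hxa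
    · push Not at hun
      obtain ⟨i, hi, rfl⟩ := hun
      rcases hB i hi with h | h | h | h
      · exact absurd rfl (hxD i (List.mem_append.2 (Or.inl h)))
      · exact absurd rfl (hxD i (List.mem_append.2 (Or.inr h)))
      · subst h
        exact absurd rfl hxb
      · exact h
  cases m with
  | true => exact hull_disjoint hPab hsA hsB
  | false =>
    refine hull_disjoint' hPab ?_ ?_
    · intro x hx hxa
      have := hsA x hx hxa
      simp only [sd, cond_false] at this
      linarith
    · intro x hx hxb
      have := hsB x hx hxb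
      simp only [sd, cond_false] at this
      linarith

theorem cuF_sound {q : FD} (hq : FDok q) (hp : Patch q.d P X) (hF : Facts 7 10 []) {T F : ℕ}
    (ha : Asg (val P) T F) {DL : List ℕ} {D : ℕ} (hDL : ∀ i, D.testBit i = true ↔ i ∈ DL)
    (hD : ∀ i ∈ DL, q.d.isReal i = true) (hnd : DL.Nodup) {s : Cf} {k : ℕ → Bool}
    (h : cuF q T F s D k = true) :
    HCPle (P '' {i | i ∈ s.t.pts}) s.t.cost ∧
    left P X DL = P '' {i | i ∈ s.t.pts} ∪ left P X (DL ++ s.t.pts) ∧
    Disjoint (convexHull ℝ (P '' {i | i ∈ s.t.pts}))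
      (convexHull ℝ (left P X (DL ++ s.t.pts))) ∧
    (∀ i ∈ DL ++ s.t.pts, q.d.isReal i = true) ∧ (DL ++ s.t.pts).Nodup ∧
    ∃ AD, (∀ i, AD.testBit i = true ↔ i ∈ DL ++ s.t.pts) ∧ k AD = true := by
  simp only [cuF, an_iff] at h
  obtain ⟨h1, h2, h3, h⟩ := h
  obtain ⟨AD, hAD, h⟩ := Ft.addT_sound h
  simp only [an_iff, Ft.allP_iff, oor_iff, Bool.not_eq_true', farF, allN_iff] at h
  obtain ⟨h4, h5, h6, h7, h8, h9, h10, h11, h12, h13⟩ := h
  obtain ⟨a1, a2, a3⟩ := hAD
  have hV := hq.hV
  have h1' : q.d.isReal s.a = true := (hq.hR _).1 (tb_iff.1 h1)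
  have h2' : s.b ≤ q.d.V := by rw [← hV]; exact ble_true h2
  have h3' : s.a ≠ s.b := nbeq_false (by simpa using h3)
  have hlt : ∀ {i}, q.d.isReal i = true → i < q.d.V + 1 := fun hi =>
    Nat.lt_succ_of_le (isReal_le hi)
  have ha' := hlt h1'
  have hb' : s.b < q.d.V + 1 := by omega
  have hmem : ∀ i, AD.testBit i = true ↔ i ∈ DL ++ s.t.pts := by
    intro i
    rw [a3, hDL, List.mem_append]
  have hrealAD : ∀ i, AD.testBit i = true → q.d.isReal i = true := by
    intro i hi
    have e := beq_true h4
    have e' : AD &&& q.RM = AD := e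
    have e2 : (AD &&& q.RM).testBit i = true := by rw [e']; exact hi
    rw [Nat.testBit_and, Bool.and_eq_true] at e2
    exact (hq.hR i).1 e2.2
  have hreal : ∀ i ∈ s.t.pts, q.d.isReal i = true := fun i hi =>
    hrealAD i ((hmem i).2 (List.mem_append.2 (Or.inr hi)))
  have hnD : ∀ i ∈ s.t.pts, i ∉ DL := by
    intro i hi hi'
    have := a2 i hi
    rw [(hDL i).2 hi'] at this
    exact absurd this (by simp)
  have hbA : s.b ∉ s.t.pts := by
    intro hb
    rcases h9 with h | h
    · have e1 := (hmem s.b).2 (List.mem_append.2 (Or.inr hb))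
      rw [tb_false.1 h] at e1
      exact absurd e1 (by simp)
    · exact hnD _ hb ((hDL _).1 (tb_iff.1 h))
  have hxA : s.x ∈ s.t.pts := by
    have e1 := (a3 s.x).1 (tb_iff.1 h5)
    rcases e1 with e1 | e1
    · rw [tb_false.1 h6] at e1
      exact absurd e1 (by simp)
    · exact e1
  have hA : ∀ i ∈ s.t.pts, i = s.a ∨ 0 < sd s.m (P s.a) (P s.b) (P i) := by
    intro i hi
    rcases h10 i hi with h | h
    · exact Or.inl (beq_true h)
    · by_cases hia : i = s.a
      · exact Or.inl hia
      · right
        refine sdf_sound hp.fr ha ha' hb' (hlt (hreal i hi)) h3' ?_ (Ne.symm hia) h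
        rintro rfl
        exact hbA hi
  have hfar : ∀ y, y ≤ q.d.V → ¬ (AD.testBit y = true ∧ q.NM.testBit y = true) →
      (y = s.a ∧ AD.testBit s.a = true) ∨ y = s.b ∨ sd s.m (P s.a) (P s.b) (P y) < 0 := by
    intro y hy hn
    rcases h11 y (by rw [hV]; exact Nat.lt_succ_of_le hy) with h | h | h
    · exfalso
      apply hn
      have e1 := tb_iff.1 h
      have e2 : (AD &&& q.NM).testBit y = true := e1
      rw [Nat.testBit_and, Bool.and_eq_true] at e2
      exact e2
    · exact Or.inr (Or.inl (beq_true h))
    · cases e : Nat.beq y s.a with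
      | true =>
        rw [e] at h
        exact Or.inl ⟨beq_true e, tb_iff.1 h⟩
      | false =>
        rw [e] at h
        simp only at h
        have hya := nbeq_false e
        by_cases hyb : y = s.b
        · exact Or.inr (Or.inl hyb)
        · right; right
          have := sdf_sound hp.fr ha ha' hb' (by omega) h3' (Ne.symm hyb) (Ne.symm hya) h
          rw [sd_not] at this
          linarith
  have hB : ∀ i, q.d.isReal i = true → i ∈ DL ∨ i ∈ s.t.pts ∨ i = s.b ∨
      sd s.m (P s.a) (P s.b) (P i) < 0 := by
    intro i hi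
    by_cases hiA : i ∈ DL ++ s.t.pts
    · rcases List.mem_append.1 hiA with h | h
      · exact Or.inl h
      · exact Or.inr (Or.inl h)
    · rcases hfar i (isReal_le hi) (fun h => hiA ((hmem i).1 h.1)) with ⟨h, h'⟩ | h | h
      · exfalso
        rw [← h] at h'
        exact hiA ((hmem i).1 h')
      · exact Or.inr (Or.inr (Or.inl h))
      · exact Or.inr (Or.inr (Or.inr h))
  have hC : ∀ f ∈ q.d.chain, f = s.a ∨ f = s.b ∨ sd s.m (P s.a) (P s.b) (P f) < 0 := by
    intro f hf
    have hfV : f ≤ q.d.V := by
      unfold PD.chain at hf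
      simp only [List.mem_cons, List.mem_append, List.not_mem_nil, or_false] at hf
      rcases hf with rfl | hf | rfl
      · omega
      · have := hp.viV f hf
        omega
      · omega
    rcases hfar f hfV (fun h => by
      rw [hq.hN f hf (by rw [hV]; exact hfV)] at h
      exact absurd h.2 (by simp)) with ⟨h, _⟩ | h | h
    · exact Or.inl h
    · exact Or.inr (Or.inl h)
    · exact Or.inr (Or.inr h)
  obtain ⟨c1, c2⟩ := cut_core hp hD h1' h2' h3' hxA (nbeq_false h7)
    (by rw [← hV]; exact nbeq_false h8) hreal hnD hA hB hC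
  have hok : s.t.ok q.d.V T F = true := by rw [← hV]; exact h12
  refine ⟨ft_sound hF hp.fr ha s.t (fun i hi => hlt (hreal i hi)) a1 hok, c1, c2, ?_, ?_, ?_⟩
  · intro i hi
    exact hrealAD i ((hmem i).2 hi)
  · rw [List.nodup_append]
    refine ⟨hnd, a1, ?_⟩
    rintro i hi j hj rfl
    exact hnD i hj hi
  · exact ⟨AD, hmem, h13⟩

theorem remF_sound {q : FD} (hq : FDok q) (hp : Patch q.d P X) (hF : Facts 7 10 [])
    {T F K t0 : ℕ} {l0 l1 : List ℕ} (hI : Irr X K l0 l1) (ht : ∀ i, t0.testBit i = true → i ∈ l0)
    (ha : Asg (val P) T F) : ∀ (ss : List Cf) (DL : List ℕ) (D c : ℕ),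
    (∀ i, D.testBit i = true ↔ i ∈ DL) → (∀ i ∈ DL, q.d.isReal i = true) → DL.Nodup →
    remF q t0 T F ss D DL.length c = true →
      ∃ k, c + k ≤ K ∧ HCPle (left P X DL) k := by
  classical
  intro ss
  induction ss with
  | nil =>
    intro D Dm c hDL hD hnd h
    change an (tb t0 D.length) (Nat.ble c (Nat.div D.length 4)) = true at h
    rw [an_iff] at h
    obtain ⟨h1, h3⟩ := h
    have hinj : Set.InjOn P (D.toFinset : Set ℕ) := by
      intro i hi j hj hij
      by_contra hne
      have hi' := isReal_le (hD i (List.mem_toFinset.1 hi))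
      have hj' := isReal_le (hD j (List.mem_toFinset.1 hj))
      exact hp.fr.inj i j (by omega) (by omega) hne hij
    have hsub : D.toFinset.image P ⊆ X := by
      intro x hx
      rw [Finset.mem_image] at hx
      obtain ⟨i, hi, rfl⟩ := hx
      exact hp.real i (hD i (List.mem_toFinset.1 hi))
    have hcard : (D.toFinset.image P).card = D.length := by
      rw [Finset.card_image_of_injOn hinj, List.toFinset_card_of_nodup hnd]
    obtain ⟨k, hk1, hk2⟩ := hI.hR (X \ D.toFinset.image P) Finset.sdiff_subset D.length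
      (ht _ (tb_iff.1 h1))
      (by rw [Finset.card_sdiff_of_subset hsub, hcard]
          have := Finset.card_le_card hsub
          omega)
    refine ⟨k, ?_, ?_⟩
    · have h3' : c ≤ D.length / 4 := ble_true h3
      omega
    · have he : ((X \ D.toFinset.image P : Finset Pt) : Set Pt) = left P X D := by
        ext x
        simp only [left, Finset.coe_sdiff, Finset.coe_image, List.coe_toFinset, Set.mem_sdiff,
          Finset.mem_coe, Set.mem_image, Set.mem_ofPred_eq, not_exists, not_and]
        constructor
        · rintro ⟨hx, h⟩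
          exact ⟨hx, fun i hi he => h i hi he.symm⟩
        · rintro ⟨hx, h⟩
          exact ⟨hx, fun i hi he => h i hi he.symm⟩
      rw [← he]
      exact hk2
  | cons s ss ih =>
    intro DL D c hDL hD hnd h
    change cuF q T F s D (fun AD => remF q t0 T F ss AD (Nat.add DL.length s.t.fl)
      (Nat.add c s.t.fc)) = true at h
    obtain ⟨e1, e2, e3, e4, e5, AD, e6, e7⟩ := cuF_sound hq hp hF ha hDL hD hnd h
    have e7' : remF q t0 T F ss AD (DL ++ s.t.pts).length (c + s.t.cost) = true := by
      rw [List.length_append, ← Ft.fl_eq, ← Ft.fc_eq]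
      exact e7
    obtain ⟨k, hk1, hk2⟩ := ih (DL ++ s.t.pts) AD (c + s.t.cost) e6 e4 e5 e7'
    refine ⟨s.t.cost + k, by omega, ?_⟩
    rw [e2]
    exact e1.append hk2 e3

theorem remF_false {q : FD} (hq : FDok q) (hp : Patch q.d P X) (hF : Facts 7 10 [])
    {T F K t0 : ℕ} {l0 l1 : List ℕ} (hI : Irr X K l0 l1) (ht : ∀ i, t0.testBit i = true → i ∈ l0)
    (ha : Asg (val P) T F) {ss : List Cf} (h : remF q t0 T F ss 0 0 0 = true) : False := by
  obtain ⟨k, hk1, hk2⟩ := remF_sound hq hp hF hI ht ha ss [] 0 0 (by simp) (by simp)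
    List.nodup_nil h
  apply hI.hK
  rw [left_nil] at hk2
  exact hk2.mono (by omega)

end

/-! ### The theory -/

/-- The sign test. -/
noncomputable def pn (T F : ℕ) (p : Bool) (i j k : ℕ) : Bool :=
  Bool.casesOn (motive := fun _ => Bool) p (ntt F i j k) (ptt T i j k)

/-- The check of a signotope axiom: `o` is the omitted triple. -/
noncomputable def axq (V T F : ℕ) (o : ℕ) (p : Bool) (i j k l : ℕ) : Bool :=
  an (Nat.ble (Nat.succ i) j) (an (Nat.ble (Nat.succ j) k) (an (Nat.ble (Nat.succ k) l)
    (an (Nat.ble l V)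
      (Nat.casesOn (motive := fun _ => Bool) o
        (an (pn T F p i j l) (an (pn T F (!p) i k l) (pn T F p j k l)))
        (fun o => Nat.casesOn (motive := fun _ => Bool) o
          (an (pn T F p i j k) (an (pn T F (!p) i k l) (pn T F p j k l)))
          (fun o => Nat.casesOn (motive := fun _ => Bool) o
            (an (pn T F p i j k) (an (pn T F (!p) i j l) (pn T F p j k l)))
            (fun _ => an (pn T F p i j k) (an (pn T F (!p) i j l) (pn T F p i k l)))))))))

section
variable {n : ℕ} {P : ℕ → Pt}

lemma pn_sg (hf : Frame n P) {T F : ℕ} (ha : Asg (val P) T F) {p : Bool} {i j k : ℕ}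
    (h1 : i < j) (h2 : j < k) (hk : k < n) (h : pn T F p i j k = true) :
    sg p (orient (P i) (P j) (P k)) := by
  cases p with
  | true => exact ptt_sound hf ha h1 h2 hk h
  | false => exact ntt_sound hf ha h1 h2 hk h

lemma sg_not {p : Bool} {x : ℝ} (h1 : sg p x) (h2 : sg (!p) x) : False := by
  cases p with
  | true => exact lt_asymm h1 h2
  | false => exact lt_asymm h1 h2

lemma pos_of_pn {p : Bool} {T F i j k j' k' : ℕ} (h : pn T F p i j k = true)
    (h' : pn T F (!p) i j' k' = true) : 1 ≤ i := by
  by_contra hc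
  have h0 : i = 0 := by omega
  subst h0
  cases p with
  | true => exact absurd h' (by simp [pn, ntt])
  | false => exact absurd h (by simp [pn, ntt])

lemma axq_sound (hf : Frame (n + 1) P) {T F : ℕ} (ha : Asg (val P) T F) {o : ℕ} {p : Bool}
    {i j k l : ℕ} (h : axq n T F o p i j k l = true) : False := by
  simp only [axq, an_iff] at h
  obtain ⟨h1, h2, h3, h4, h⟩ := h
  have h1 : i < j := ble_true h1
  have h2 : j < k := ble_true h2
  have h3 : k < l := ble_true h3
  have h4 : l < n + 1 := by have := ble_true h4; omega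
  have ext : ∀ {x : Bool}, x = false ∨ x = true := by intro x; cases x <;> simp
  rcases o with _ | _ | _ | o
  · change (an (pn T F p i j l) (an (pn T F (!p) i k l) (pn T F p j k l))) = true at h
    rw [an_iff, an_iff] at h
    obtain ⟨e1, e2, e3⟩ := h
    have hi : 1 ≤ i := pos_of_pn (j' := k) (k' := l) e1 e2
    have s1 := pn_sg hf ha h1 (by omega) h4 e1
    have s2 := pn_sg hf ha (by omega) h3 h4 e2
    have s3 := pn_sg hf ha h2 h3 h4 e3
    cases p with
    | true => exact sg_not (p := true) s3 (sig_up hf hi h1 h2 h3 h4 s1 s2).2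
    | false => exact sg_not (p := false) s3 (sig_dn hf hi h1 h2 h3 h4 s1 s2).2
  · change (an (pn T F p i j k) (an (pn T F (!p) i k l) (pn T F p j k l))) = true at h
    rw [an_iff, an_iff] at h
    obtain ⟨e1, e2, e3⟩ := h
    have s1 := pn_sg hf ha h1 h2 (by omega) e1
    have s2 := pn_sg hf ha (by omega) h3 h4 e2
    have s3 := pn_sg hf ha h2 h3 h4 e3
    exact sg_not (sg_step hf h1 h2 h3 h4 s1 s3).2 s2
  · change (an (pn T F p i j k) (an (pn T F (!p) i j l) (pn T F p j k l))) = true at h
    rw [an_iff, an_iff] at h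
    obtain ⟨e1, e2, e3⟩ := h
    have s1 := pn_sg hf ha h1 h2 (by omega) e1
    have s2 := pn_sg hf ha h1 (by omega) h4 e2
    have s3 := pn_sg hf ha h2 h3 h4 e3
    exact sg_not (sg_step hf h1 h2 h3 h4 s1 s3).1 s2
  · change (an (pn T F p i j k) (an (pn T F (!p) i j l) (pn T F p i k l))) = true at h
    rw [an_iff, an_iff] at h
    obtain ⟨e1, e2, e3⟩ := h
    have hi : 1 ≤ i := pos_of_pn (j' := j) (k' := l) e1 e2
    have s1 := pn_sg hf ha h1 h2 (by omega) e1
    have s2 := pn_sg hf ha h1 (by omega) h4 e2
    have s3 := pn_sg hf ha (by omega) h3 h4 e3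
    cases p with
    | true => exact sg_not (p := true) s1 (sig_dn hf hi h1 h2 h3 h4 s2 s3).1
    | false => exact sg_not (p := false) s1 (sig_up hf hi h1 h2 h3 h4 s2 s3).1

end

/-- Theory justifications. -/
inductive ThQ : Type
  | a (o : ℕ) (p : Bool) (i j k l : ℕ) : ThQ
  | hul (a b z : ℕ) : ThQ
  | tri (x a b z : ℕ) (w : Bool) : ThQ
  | ext (a b c : ℕ) : ThQ
  | cn (a b k : ℕ) (I : List ℕ) : ThQ
  | cp (a b k : ℕ) (I : List ℕ) : ThQ
  | fa (a b : ℕ) (w : List (ℕ × ℕ × Bool)) : ThQ
  | r (ss : List Cf) : ThQ

/-- The points in the list are real, different and on one side. -/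
noncomputable def sideL (q : FD) (T F : ℕ) (a b : ℕ) (I : List ℕ) : Bool :=
  addL I 0 (fun A => an (Nat.beq (Nat.land A q.RM) A) (an (!tb A a) (an (!tb A b)
    (an (Nat.ble a q.V) (an (Nat.ble b q.V) (an (!Nat.beq a b)
      (allL (fun i => lf T F a b i) I)))))))

/-- The number of elements of the mask `m` below `n` which are not `a`, `b`. -/
noncomputable def cntN (m a b n : ℕ) : ℕ :=
  Nat.rec (motive := fun _ => ℕ) 0 (fun i ih =>
    Bool.casesOn (motive := fun _ => ℕ) (an (tb m i) (an (!Nat.beq i a) (!Nat.beq i b)))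
      ih (Nat.succ ih)) n

/-- The theory check. -/
noncomputable def thq (q : FD) (t0 : ℕ) (x : ThQ) (T F : ℕ) : Bool :=
  ThQ.casesOn (motive := fun _ => Bool) x
    (fun o p i j k l => axq q.V T F o p i j k l)
    (fun a b z => an (mp q.d.hulls a b) (an (Nat.ble a q.V) (an (Nat.ble b q.V)
      (an (Nat.ble z q.V) (an (!Nat.beq z a) (an (!Nat.beq z b) (an (!Nat.beq a b)
        (lf T F b a z))))))))
    (fun x a b z w => an (mt q.d.tris x a b) (an (tb q.RM z) (an (Nat.ble x q.V)
      (an (Nat.ble a q.V) (an (Nat.ble b q.V) (an (!Nat.beq z x) (an (!Nat.beq z a)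
      (an (!Nat.beq z b) (an (!Nat.beq x a) (an (!Nat.beq x b)
      (Bool.casesOn (motive := fun _ => Bool) w (lf T F a z x) (lf T F z b x))))))))))))
    (fun a b c => an (mt q.d.exts a b c) (an (Nat.ble a q.V) (an (Nat.ble b q.V)
      (an (Nat.ble c q.V) (an (!Nat.beq a b) (an (!Nat.beq a c) (an (!Nat.beq b c)
        (lf T F b a c))))))))
    (fun a b k I => an (mt q.d.ubs a b k) (an (Nat.ble (Nat.succ k) (ln I)) (sideL q T F b a I)))
    (fun a b k I => an (mt q.d.lbs a b k)
      (an (Nat.ble (Nat.succ (cntN q.RM a b (Nat.succ q.V))) (Nat.add k (ln I)))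
      (sideL q T F a b I)))
    (fun a b w => thp q.d [] [] (.fa a b w) T F)
    (fun ss => remF q t0 T F ss 0 0 0)

lemma cntN_eq (m a b n : ℕ) : cntN m a b n =
    ((Finset.range n).filter (fun i => m.testBit i = true ∧ i ≠ a ∧ i ≠ b)).card := by
  induction n with
  | zero => rfl
  | succ n ih =>
    change (Bool.casesOn (motive := fun _ => ℕ) (an (tb m n) (an (!Nat.beq n a) (!Nat.beq n b)))
      (cntN m a b n) (Nat.succ (cntN m a b n)) : ℕ) = _
    rw [Finset.range_add_one, Finset.filter_insert]
    have key : an (tb m n) (an (!Nat.beq n a) (!Nat.beq n b)) = true ↔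
        (m.testBit n = true ∧ n ≠ a ∧ n ≠ b) := by
      rw [an_iff, an_iff, tb_iff]
      simp only [Bool.not_eq_true', ← Bool.not_eq_true, Nat.beq_eq]
    cases e : an (tb m n) (an (!Nat.beq n a) (!Nat.beq n b)) with
    | false =>
      rw [if_neg (by rw [← key, e]; simp)]
      exact ih
    | true =>
      rw [if_pos (key.1 e), Finset.card_insert_of_notMem (by simp)]
      change Nat.succ (cntN m a b n) = _
      rw [ih]

theorem thq_sound {q : FD} (hq : FDok q) {P : ℕ → Pt} {X : Finset Pt} (hp : Patch q.d P X)
    (hF : Facts 7 10 []) {K t0 : ℕ} {l0 : List ℕ} (hI : Irr X K l0 [])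
    (ht : ∀ i, t0.testBit i = true → i ∈ l0) :
    ∀ (x : ThQ) (T F : ℕ), Asg (val P) T F → thq q t0 x T F = true → False := by
  classical
  intro x T F ha h
  have hV := hq.hV
  have hle : ∀ {i}, Nat.ble i q.V = true → i < q.d.V + 1 := by
    intro i hi
    have := ble_true hi
    omega
  have hreal : ∀ {i}, tb q.RM i = true → q.d.isReal i = true := fun hi => (hq.hR _).1 (tb_iff.1 hi)
  have hlt : ∀ {i}, q.d.isReal i = true → i < q.d.V + 1 := fun hi =>
    Nat.lt_succ_of_le (isReal_le hi)
  have nb : ∀ {i j : ℕ}, (!Nat.beq i j) = true → i ≠ j := by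
    intro i j h
    exact nbeq_false (by simpa using h)
  have hside : ∀ {a b : ℕ} {I : List ℕ}, sideL q T F a b I = true →
      I.Nodup ∧ a < q.d.V + 1 ∧ b < q.d.V + 1 ∧ a ≠ b ∧ a ∉ I ∧ b ∉ I ∧
      ∀ i ∈ I, q.d.isReal i = true ∧ 0 < orient (P a) (P b) (P i) := by
    intro a b I h
    obtain ⟨A, ⟨a1, a2, a3⟩, h⟩ := addL_sound h
    simp only [an_iff, allL_iff] at h
    obtain ⟨h1, h2, h3, h4, h5, h6, h7⟩ := h
    have hA : ∀ i, A.testBit i = true ↔ i ∈ I := by
      intro i
      rw [a3]
      simp
    have haI : a ∉ I := by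
      intro hh
      have := (hA a).2 hh
      rw [tb_false.1 (by simpa using h2)] at this
      exact absurd this (by simp)
    have hbI : b ∉ I := by
      intro hh
      have := (hA b).2 hh
      rw [tb_false.1 (by simpa using h3)] at this
      exact absurd this (by simp)
    have hr : ∀ i ∈ I, q.d.isReal i = true := by
      intro i hi
      have e := beq_true h1
      have e' : A &&& q.RM = A := e
      have e2 : (A &&& q.RM).testBit i = true := by rw [e']; exact (hA i).2 hi
      rw [Nat.testBit_and, Bool.and_eq_true] at e2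
      exact (hq.hR i).1 e2.2
    refine ⟨a1, hle h4, hle h5, nb h6, haI, hbI, ?_⟩
    intro i hi
    refine ⟨hr i hi, lf_sound hp.fr ha (hle h4) (hle h5) (hlt (hr i hi)) (nb h6) ?_ ?_ (h7 i hi)⟩
    · rintro rfl
      exact hbI hi
    · rintro rfl
      exact haI hi
  cases x with
  | a o p i j k l =>
    change axq q.V T F o p i j k l = true at h
    rw [hV] at h
    exact axq_sound hp.fr ha h
  | hul a b z =>
    change an (mp q.d.hulls a b) (an (Nat.ble a q.V) (an (Nat.ble b q.V)
      (an (Nat.ble z q.V) (an (!Nat.beq z a) (an (!Nat.beq z b) (an (!Nat.beq a b)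
        (lf T F b a z))))))) = true at h
    simp only [an_iff] at h
    obtain ⟨h1, h2, h3, h4, h5, h6, h7, h8⟩ := h
    have e1 := hp.hul _ (mp_iff h1) z (by have := hle h4; omega) (nb h5) (nb h6)
    have e2 := lf_sound hp.fr ha (hle h3) (hle h2) (hle h4) (nb h7).symm (nb h5).symm
      (nb h6).symm h8
    simp only at e1
    rw [orient_swap] at e2
    linarith
  | tri x a b z w =>
    change an (mt q.d.tris x a b) (an (tb q.RM z) (an (Nat.ble x q.V)
      (an (Nat.ble a q.V) (an (Nat.ble b q.V) (an (!Nat.beq z x) (an (!Nat.beq z a)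
      (an (!Nat.beq z b) (an (!Nat.beq x a) (an (!Nat.beq x b)
      (Bool.casesOn (motive := fun _ => Bool) w (lf T F a z x) (lf T F z b x))))))))))) = true at h
    simp only [an_iff] at h
    obtain ⟨h1, h2, h3, h4, h5, h6, h7, h8, h9, h10, h11⟩ := h
    have e1 := hp.tri _ (mt_iff h1) z (hreal h2) (nb h6) (nb h7) (nb h8)
    simp only at e1
    cases w with
    | true =>
      have e2 := lf_sound hp.fr ha (hlt (hreal h2)) (hle h5) (hle h3) (nb h8) (nb h10).symm
        (nb h6) h11
      rw [orient_swap] at e2
      linarith [e1.1]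
    | false =>
      have e2 := lf_sound hp.fr ha (hle h4) (hlt (hreal h2)) (hle h3) (nb h7).symm (nb h6)
        (nb h9).symm h11
      rw [orient_swap] at e2
      linarith [e1.2]
  | ext a b c =>
    change an (mt q.d.exts a b c) (an (Nat.ble a q.V) (an (Nat.ble b q.V)
      (an (Nat.ble c q.V) (an (!Nat.beq a b) (an (!Nat.beq a c) (an (!Nat.beq b c)
        (lf T F b a c))))))) = true at h
    simp only [an_iff] at h
    obtain ⟨h1, h2, h3, h4, h5, h6, h7, h8⟩ := h
    have e1 := hp.ext _ (mt_iff h1)
    have e2 := lf_sound hp.fr ha (hle h3) (hle h2) (hle h4) (nb h5).symm (nb h6) (nb h7) h8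
    simp only at e1
    rw [orient_swap] at e2
    linarith
  | cn a b k I =>
    change an (mt q.d.ubs a b k) (an (Nat.ble (Nat.succ k) (ln I)) (sideL q T F b a I)) = true at h
    rw [an_iff, an_iff] at h
    obtain ⟨h1, h2, h3⟩ := h
    obtain ⟨c1, c2, c3, c4, c5, c6, c7⟩ := hside h3
    obtain ⟨S, s1, s3⟩ := hp.ub _ (mt_iff h1)
    simp only at s1 s3
    have hsub : I.toFinset ⊆ S := by
      intro i hi
      rw [List.mem_toFinset] at hi
      apply s3 i (c7 i hi).1
      have := (c7 i hi).2
      rw [orient_swap] at this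
      linarith
    have := Finset.card_le_card hsub
    rw [List.toFinset_card_of_nodup c1] at this
    have h2' := ble_true h2
    rw [ln_eq] at h2'
    omega
  | cp a b k I =>
    change an (mt q.d.lbs a b k)
      (an (Nat.ble (Nat.succ (cntN q.RM a b (Nat.succ q.V))) (Nat.add k (ln I)))
      (sideL q T F a b I)) = true at h
    simp only [an_iff] at h
    obtain ⟨h1, h2, h3⟩ := h
    obtain ⟨c1, c2, c3, c4, c5, c6, c7⟩ := hside h3
    obtain ⟨S, s1, s2⟩ := hp.lb _ (mt_iff h1)
    simp only at s1 s2
    have hdis : Disjoint I.toFinset S := by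
      rw [Finset.disjoint_left]
      intro i hi hiS
      rw [List.mem_toFinset] at hi
      have e1 := (s2 i hiS).2
      have := (c7 i hi).2
      linarith
    have hsub : I.toFinset ∪ S ⊆
        (Finset.range (Nat.succ q.V)).filter
          (fun i => q.RM.testBit i = true ∧ i ≠ a ∧ i ≠ b) := by
      intro i hi
      rw [Finset.mem_filter, Finset.mem_range]
      rw [Finset.mem_union, List.mem_toFinset] at hi
      have hr : q.d.isReal i = true := by
        rcases hi with hi | hi
        · exact (c7 i hi).1
        · exact (s2 i hi).1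
      have hne : orient (P a) (P b) (P i) ≠ 0 := by
        rcases hi with hi | hi
        · exact ((c7 i hi).2).ne'
        · exact ((s2 i hi).2).ne
      refine ⟨?_, (hq.hR i).2 hr, ?_, ?_⟩
      · have := hlt hr
        omega
      · rintro rfl
        simp at hne
      · rintro rfl
        simp at hne
    have h7 := Finset.card_le_card hsub
    rw [Finset.card_union_of_disjoint hdis, List.toFinset_card_of_nodup c1, ← cntN_eq] at h7
    have h2' := ble_true h2
    rw [ln_eq] at h2'
    have h2'' : (cntN q.RM a b (Nat.succ q.V)).succ ≤ k + I.length := h2'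
    omega
  | fa a b w => exact thp_sound hp hF hI (.fa a b w) T F ha h
  | r ss => exact remF_false hq hp hF hI ht ha h

end Pool.Agent.GCP
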