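import Pool.Agent.GCP.Main

/-!
# `G(15) = 4`
-/

namespace Pool.Agent.GCP

/-- Fifteen points containing the eleven points. -/
def pts15 : Fin 15 → ℤ × ℤ :=
  ![(1, 3), (3, 3), (0, -4), (-4, -1), (4, -1), (-2, 4), (-1, -2), (2, -2), (-2, 1), (3, 1),
    (0, 0), (2, 0), (-1, -4), (-4, -3), (1, 6)]

/-- The set of fifteen points. -/
noncomputable def X15 : Finset Pt := Finset.univ.image (fun i => Low.toPt (pts15 i))

lemma pts15_injective : Function.Injective pts15 := by decide +kernel

lemma card_X15 : X15.card = 15 := by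
  have h : Function.Injective (fun i => Low.toPt (pts15 i)) :=
    Low.toPt_injective.comp pts15_injective
  rw [X15, Finset.card_image_of_injective _ h]
  simp

lemma orient_pts15 : ∀ i j k : Fin 15, i ≠ j → j ≠ k → i ≠ k →
    Low.orient (pts15 i) (pts15 j) (pts15 k) ≠ 0 := by decide +kernel

lemma generalPosition_X15 : GeneralPosition X15 := by
  intro p hp q hq r hr hpq hqr hpr hcol
  simp only [X15, Finset.mem_image, Finset.mem_univ, true_and] at hp hq hr
  obtain ⟨i, rfl⟩ := hp
  obtain ⟨j, rfl⟩ := hq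
  obtain ⟨k, rfl⟩ := hr
  have h0 := Low.orient_of_collinear hcol
  rw [Low.orient_cast] at h0
  refine orient_pts15 i j k ?_ ?_ ?_ (by exact_mod_cast h0)
  · rintro rfl; exact hpq rfl
  · rintro rfl; exact hqr rfl
  · rintro rfl; exact hpr rfl

lemma pts_sub : ∀ i : Fin 11, ∃ j : Fin 15, pts15 j = Low.pts i := by decide +kernel

lemma X11_subset : Low.X11 ⊆ X15 := by
  intro x hx
  simp only [Low.X11, Finset.mem_image, Finset.mem_univ, true_and] at hx
  obtain ⟨i, rfl⟩ := hx
  obtain ⟨j, hj⟩ := pts_sub i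
  rw [← hj]
  exact Finset.mem_image_of_mem _ (Finset.mem_univ j)

theorem lower15 (k : ℕ) (hk : k ≤ 3) (h : HasConvexPartition X15 k) : False := by
  obtain ⟨k', h1, h2⟩ := restrict X11_subset h
  exact Low.lower k' (by omega) h2.toPartition

/-- Four parts always suffice for fifteen points. -/
lemma mem_four : (4 : ℕ) ∈ {g | ∀ X : Finset Pt, X.card = 15 → GeneralPosition X →
    HasConvexPartition X g} := fun X hX hG =>
  ((hcp15 hX hG).exact (by omega)).toPartition

theorem G15 : G 15 = 4 := by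
  apply le_antisymm
  · exact Nat.sInf_le mem_four
  · have hmem := Nat.sInf_mem (⟨4, mem_four⟩ : Set.Nonempty {g | ∀ X : Finset Pt, X.card = 15 →
      GeneralPosition X → HasConvexPartition X g})
    by_contra hlt
    exact lower15 (G 15) (by omega) (hmem X15 card_X15 generalPosition_X15)

/-- The limit superior of `G(n)/n` is at most `4/15`. -/
theorem limsup_le : Filter.limsup (fun n : ℕ => ((G n : ℕ) : ℝ) / n) Filter.atTop ≤ 4 / 15 := by
  have hb : ∀ n : ℕ, ((G n : ℕ) : ℝ) / n ≤ 4 / 15 + 4 / n := by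
    intro n
    have h1 := G_le n
    have h2 : gr (n % 15) ≤ 4 := by
      unfold gr
      split_ifs <;> omega
    have h3 : (n / 15) * 15 ≤ n := Nat.div_mul_le_self n 15
    rcases Nat.eq_zero_or_pos n with rfl | hn
    · simp
      norm_num
    · have hn' : (0 : ℝ) < n := by exact_mod_cast hn
      have h4 : ((G n : ℕ) : ℝ) ≤ 4 / 15 * n + 4 := by
        have h5 : 15 * G n ≤ 4 * n + 60 := by omega
        have h6 : (15 : ℝ) * (G n : ℕ) ≤ 4 * n + 60 := by exact_mod_cast h5
        linarith
      rw [div_le_iff₀ hn']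
      have : (4 / 15 + 4 / (n : ℝ)) * n = 4 / 15 * n + 4 := by
        field_simp
      linarith
  have ht : Filter.Tendsto (fun n : ℕ => (4 : ℝ) / 15 + 4 / n) Filter.atTop
      (nhds (4 / 15 + 0)) :=
    tendsto_const_nhds.add (tendsto_const_div_atTop_nhds_zero_nat 4)
  rw [add_zero] at ht
  have hbdd : Filter.IsBoundedUnder (· ≥ ·) Filter.atTop
      (fun n : ℕ => ((G n : ℕ) : ℝ) / n) :=
    Filter.isBoundedUnder_of ⟨0, fun n => by positivity⟩
  calc Filter.limsup (fun n : ℕ => ((G n : ℕ) : ℝ) / n) Filter.atTop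
      ≤ Filter.limsup (fun n : ℕ => (4 : ℝ) / 15 + 4 / n) Filter.atTop :=
        Filter.limsup_le_limsup (Filter.Eventually.of_forall hb) hbdd.isCoboundedUnder_le
          ht.isBoundedUnder_le
    _ = 4 / 15 := ht.limsup_eq

end Pool.Agent.GCP
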