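import Mathlib

/-!
# Clauses as pairs of bit masks and unit propagation with hints
-/

namespace Pool.Agent.GCP

/-- The clause `c = (p, n)` holds: some variable of `p` is true or some variable of `n` is
false. -/
def Hold (σ : ℕ → Prop) (c : ℕ × ℕ) : Prop :=
  ∃ v, (c.1.testBit v = true ∧ σ v) ∨ (c.2.testBit v = true ∧ ¬ σ v)

/-- The variables of `T` are true and those of `F` are false. -/
def Asg (σ : ℕ → Prop) (T F : ℕ) : Prop :=
  ∀ v, (T.testBit v = true → σ v) ∧ (F.testBit v = true → ¬ σ v)

/-- All clauses in the list follow from `H`. -/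
def ELs (H : (ℕ → Prop) → Prop) (cs : List (ℕ × ℕ)) : Prop :=
  ∀ σ, H σ → ∀ c ∈ cs, Hold σ c

/-- The clause follows from `H`. -/
def Ent (H : (ℕ → Prop) → Prop) (c : ℕ × ℕ) : Prop := ∀ σ, H σ → Hold σ c

lemma ELs.nil {H : (ℕ → Prop) → Prop} : ELs H [] := fun _ _ c hc => absurd hc (by simp)

lemma ELs.cons {H : (ℕ → Prop) → Prop} {c : ℕ × ℕ} {cs : List (ℕ × ℕ)} (h : Ent H c)
    (hs : ELs H cs) : ELs H (c :: cs) := by
  intro σ hσ d hd
  rcases List.mem_cons.1 hd with rfl | hd
  · exact h σ hσ
  · exact hs σ hσ d hd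

lemma Ent.mono {H H' : (ℕ → Prop) → Prop} {c : ℕ × ℕ} (hm : ∀ σ, H' σ → H σ) (h : Ent H c) :
    Ent H' c := fun σ hσ => h σ (hm σ hσ)

/-- Unit propagation along the hints; `true` when a conflict is reached, or when the final check
accepts. -/
def rc (fin : ℕ → ℕ → Bool) (cs : List (ℕ × ℕ)) : ℕ → ℕ → Bool :=
  List.rec (motive := fun _ => ℕ → ℕ → Bool) fin
    (fun c _ ih T F => Prod.casesOn (motive := fun _ => Bool) c fun p n =>
      Nat.casesOn (motive := fun _ => Bool) (Nat.xor (Nat.lor n T) T)
        (Nat.casesOn (motive := fun _ => Bool) (Nat.xor (Nat.lor p F) F) true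
          (fun a => Nat.casesOn (motive := fun _ => Bool) (Nat.land (Nat.succ a) a)
            (Nat.casesOn (motive := fun _ => Bool) (Nat.lor T (Nat.succ a)) false
              (fun t => ih (Nat.succ t) F)) (fun _ => false)))
        (fun a => Nat.casesOn (motive := fun _ => Bool) (Nat.land (Nat.succ a) a)
          (Nat.casesOn (motive := fun _ => Bool) (Nat.xor (Nat.lor p F) F)
            (Nat.casesOn (motive := fun _ => Bool) (Nat.lor F (Nat.succ a)) false
              (fun f => ih T (Nat.succ f))) (fun _ => false)) (fun _ => false))) cs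

lemma testBit_diff (n T v : ℕ) : (Nat.xor (Nat.lor n T) T).testBit v = true ↔
    n.testBit v = true ∧ T.testBit v = false := by
  have h : (Nat.xor (Nat.lor n T) T) = (n ||| T) ^^^ T := rfl
  rw [h, Nat.testBit_xor, Nat.testBit_or]
  cases n.testBit v <;> cases T.testBit v <;> simp

lemma single_of_land {a : ℕ} (h : Nat.land (Nat.succ a) a = 0) {v w : ℕ}
    (hv : (Nat.succ a).testBit v = true) (hw : (Nat.succ a).testBit w = true) : v = w := by
  have h1 : (a + 1) &&& a = 0 := h
  have h2 : ∃ k, a + 1 = 2 ^ k := by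
    have h3 := (Nat.and_sub_one_eq_zero_iff_isPowerOfTwo (n := a + 1) (by omega)).1
      (by simpa using h1)
    exact h3
  obtain ⟨k, hk⟩ := h2
  have hv' : (a + 1).testBit v = true := hv
  have hw' : (a + 1).testBit w = true := hw
  rw [hk, Nat.testBit_two_pow] at hv' hw'
  simp only [decide_eq_true_eq] at hv' hw'
  omega

lemma Asg.orT {σ : ℕ → Prop} {T F m : ℕ} (h : Asg σ T F)
    (hm : ∀ v, m.testBit v = true → σ v) : Asg σ (Nat.lor T m) F := by
  intro v
  refine ⟨fun hv => ?_, (h v).2⟩
  have hv' : (T ||| m).testBit v = true := hv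
  rw [Nat.testBit_or, Bool.or_eq_true] at hv'
  rcases hv' with hv' | hv'
  · exact (h v).1 hv'
  · exact hm v hv'

lemma Asg.orF {σ : ℕ → Prop} {T F m : ℕ} (h : Asg σ T F)
    (hm : ∀ v, m.testBit v = true → ¬ σ v) : Asg σ T (Nat.lor F m) := by
  intro v
  refine ⟨(h v).1, fun hv => ?_⟩
  have hv' : (F ||| m).testBit v = true := hv
  rw [Nat.testBit_or, Bool.or_eq_true] at hv'
  rcases hv' with hv' | hv'
  · exact (h v).2 hv'
  · exact hm v hv'

theorem rc_sound {σ : ℕ → Prop} {fin : ℕ → ℕ → Bool}
    (hfin : ∀ T F, Asg σ T F → fin T F = true → False) : ∀ (cs : List (ℕ × ℕ)) (T F : ℕ),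
    (∀ c ∈ cs, Hold σ c) → Asg σ T F → rc fin cs T F = true → False := by
  intro cs
  induction cs with
  | nil => intro T F _ ha h; exact hfin T F ha h
  | cons c cs ih =>
    intro T F hs ha h
    obtain ⟨p, n⟩ := c
    have hc := hs (p, n) (by simp)
    have hs' : ∀ c ∈ cs, Hold σ c := fun c hc => hs c (by simp [hc])
    change (Nat.casesOn (motive := fun _ => Bool) (Nat.xor (Nat.lor n T) T)
        (Nat.casesOn (motive := fun _ => Bool) (Nat.xor (Nat.lor p F) F) true
          (fun a => Nat.casesOn (motive := fun _ => Bool) (Nat.land (Nat.succ a) a)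
            (Nat.casesOn (motive := fun _ => Bool) (Nat.lor T (Nat.succ a)) false
              (fun t => rc fin cs (Nat.succ t) F)) (fun _ => false)))
        (fun a => Nat.casesOn (motive := fun _ => Bool) (Nat.land (Nat.succ a) a)
          (Nat.casesOn (motive := fun _ => Bool) (Nat.xor (Nat.lor p F) F)
            (Nat.casesOn (motive := fun _ => Bool) (Nat.lor F (Nat.succ a)) false
              (fun f => rc fin cs T (Nat.succ f))) (fun _ => false)) (fun _ => false)) : Bool) = true at h
    obtain ⟨v, hv⟩ := hc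
    simp only at hv
    have hv' : ((Nat.xor (Nat.lor p F) F).testBit v = true ∧ σ v) ∨
        ((Nat.xor (Nat.lor n T) T).testBit v = true ∧ ¬ σ v) := by
      rcases hv with ⟨h1, h2⟩ | ⟨h1, h2⟩
      · left
        refine ⟨(testBit_diff p F v).2 ⟨h1, ?_⟩, h2⟩
        by_contra h3
        exact (ha v).2 (by simpa using h3) h2
      · right
        refine ⟨(testBit_diff n T v).2 ⟨h1, ?_⟩, h2⟩
        by_contra h3
        exact h2 ((ha v).1 (by simpa using h3))
    generalize Nat.xor (Nat.lor n T) T = N' at h hv'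
    generalize Nat.xor (Nat.lor p F) F = P' at h hv'
    cases N' with
    | zero =>
      cases P' with
      | zero =>
        rcases hv' with ⟨h1, _⟩ | ⟨h1, _⟩
        · exact absurd h1 (by simp)
        · exact absurd h1 (by simp)
      | succ a =>
        change (Nat.casesOn (motive := fun _ => Bool) (Nat.land (Nat.succ a) a)
            (Nat.casesOn (motive := fun _ => Bool) (Nat.lor T (Nat.succ a)) false
              (fun t => rc fin cs (Nat.succ t) F)) (fun _ => false) : Bool) = true at h
        have hvs : (Nat.succ a).testBit v = true ∧ σ v := by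
          rcases hv' with h1 | ⟨h1, _⟩
          · exact h1
          · exact absurd h1 (by simp)
        generalize hL : Nat.land (Nat.succ a) a = L at h
        cases L with
        | succ _ => exact absurd h (by simp)
        | zero =>
          have ha' : Asg σ (Nat.lor T (Nat.succ a)) F := ha.orT (fun w hw => by
            rw [single_of_land hL hw hvs.1]; exact hvs.2)
          generalize Nat.lor T (Nat.succ a) = T' at h ha'
          cases T' with
          | zero => exact absurd h (by simp)
          | succ t => exact ih _ _ hs' ha' h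
    | succ a =>
      change (Nat.casesOn (motive := fun _ => Bool) (Nat.land (Nat.succ a) a)
          (Nat.casesOn (motive := fun _ => Bool) P'
            (Nat.casesOn (motive := fun _ => Bool) (Nat.lor F (Nat.succ a)) false
              (fun f => rc fin cs T (Nat.succ f))) (fun _ => false)) (fun _ => false) : Bool) = true at h
      generalize hL : Nat.land (Nat.succ a) a = L at h
      cases L with
      | succ _ => exact absurd h (by simp)
      | zero =>
        cases P' with
        | succ _ => exact absurd h (by simp)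
        | zero =>
          have hvs : (Nat.succ a).testBit v = true ∧ ¬ σ v := by
            rcases hv' with ⟨h1, _⟩ | h1
            · exact absurd h1 (by simp)
            · exact h1
          have ha' : Asg σ T (Nat.lor F (Nat.succ a)) := ha.orF (fun w hw => by
            rw [single_of_land hL hw hvs.1]; exact hvs.2)
          generalize Nat.lor F (Nat.succ a) = F' at h ha'
          cases F' with
          | zero => exact absurd h (by simp)
          | succ t => exact ih _ _ hs' ha' h

/-- The check of a clause with hints, starting from the negated clause and the base masks. -/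
def rup0 (fin : ℕ → ℕ → Bool) (cs : List (ℕ × ℕ)) (T0 F0 : ℕ) (c : ℕ × ℕ) : Bool :=
  Prod.casesOn (motive := fun _ => Bool) c fun p n =>
    Nat.casesOn (motive := fun _ => Bool) (Nat.lor n T0)
      (Nat.casesOn (motive := fun _ => Bool) (Nat.lor p F0) (rc fin cs 0 0)
        (fun f => rc fin cs 0 (Nat.succ f)))
      (fun t => Nat.casesOn (motive := fun _ => Bool) (Nat.lor p F0) (rc fin cs (Nat.succ t) 0)
        (fun f => rc fin cs (Nat.succ t) (Nat.succ f)))

lemma rup0_eq (fin : ℕ → ℕ → Bool) (cs : List (ℕ × ℕ)) (T0 F0 : ℕ) (c : ℕ × ℕ) :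
    rup0 fin cs T0 F0 c = rc fin cs (Nat.lor c.2 T0) (Nat.lor c.1 F0) := by
  obtain ⟨p, n⟩ := c
  unfold rup0
  simp only
  cases Nat.lor n T0 <;> cases Nat.lor p F0 <;> rfl

lemma Asg.neg {σ : ℕ → Prop} {T F : ℕ} (h : Asg σ T F) {c : ℕ × ℕ} (hc : ¬ Hold σ c) :
    Asg σ (Nat.lor c.2 T) (Nat.lor c.1 F) := by
  intro v
  constructor
  · intro hv
    have hv' : (c.2 ||| T).testBit v = true := hv
    rw [Nat.testBit_or, Bool.or_eq_true] at hv'
    rcases hv' with hv' | hv'
    · by_contra h1
      exact hc ⟨v, Or.inr ⟨hv', h1⟩⟩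
    · exact (h v).1 hv'
  · intro hv
    have hv' : (c.1 ||| F).testBit v = true := hv
    rw [Nat.testBit_or, Bool.or_eq_true] at hv'
    rcases hv' with hv' | hv'
    · intro h1
      exact hc ⟨v, Or.inl ⟨hv', h1⟩⟩
    · exact (h v).2 hv'

theorem rupf {H : (ℕ → Prop) → Prop} {T0 F0 : ℕ} (hb : ∀ σ, H σ → Asg σ T0 F0)
    {fin : ℕ → ℕ → Bool} (hfin : ∀ σ T F, H σ → Asg σ T F → fin T F = true → False)
    {cs : List (ℕ × ℕ)} (hs : ELs H cs) {c : ℕ × ℕ} (h : rup0 fin cs T0 F0 c = true) :
    Ent H c := by
  intro σ hσ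
  by_contra hc
  rw [rup0_eq] at h
  exact rc_sound (fun T F => hfin σ T F hσ) cs _ _ (hs σ hσ) ((hb σ hσ).neg hc) h

/-- No final check. -/
def nof : ℕ → ℕ → Bool := fun _ _ => false

theorem rup {H : (ℕ → Prop) → Prop} {T0 F0 : ℕ} (hb : ∀ σ, H σ → Asg σ T0 F0)
    {cs : List (ℕ × ℕ)} (hs : ELs H cs) {c : ℕ × ℕ} (h : rup0 nof cs T0 F0 c = true) :
    Ent H c := rupf hb (fun _ _ _ _ _ h => absurd h (by simp [nof])) hs h

lemma Asg.zero (σ : ℕ → Prop) : Asg σ 0 0 := fun v => ⟨by simp, by simp⟩

lemma not_hold_empty (σ : ℕ → Prop) : ¬ Hold σ (0, 0) := by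
  rintro ⟨v, ⟨h, _⟩ | ⟨h, _⟩⟩ <;> simp at h

end Pool.Agent.GCP
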