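import Pool.Agent.GCP.Tree
import Pool.Agent.GCP.Sort
import Pool.Agent.GCP.Sat

/-!
# Frames: point sets sorted around an extreme point, and the checks of clauses
-/

namespace Pool.Agent.GCP

/-- The points `P 0, ..., P (n-1)` are in general position, `P 0` is extreme and the others are
sorted around it. -/
structure Frame (n : ℕ) (P : ℕ → Pt) : Prop where
  inj : ∀ i j, i < n → j < n → i ≠ j → P i ≠ P j
  gp : ∀ i j k, i < n → j < n → k < n → i ≠ j → j ≠ k → i ≠ k →
    orient (P i) (P j) (P k) ≠ 0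
  srt : ∀ i j, 1 ≤ i → i < j → j < n → 0 < orient (P 0) (P i) (P j)
  sig : IsSig (n - 1) (fun i j k => 0 < orient (P i) (P j) (P k))

/-- The index of the triple `1 ≤ i < j < k`. -/
def idx (i j k : ℕ) : ℕ :=
  Nat.add (Nat.add (Nat.div (Nat.mul (Nat.mul (Nat.sub k 1) (Nat.sub k 2)) (Nat.sub k 3)) 6)
    (Nat.div (Nat.mul (Nat.sub j 1) (Nat.sub j 2)) 2)) (Nat.sub i 1)

lemma idx_eq (i j k : ℕ) :
    idx i j k = (k - 1).choose 3 + (j - 1).choose 2 + (i - 1) := by
  have h1 : idx i j k = (k - 1) * (k - 2) * (k - 3) / 6 + (j - 1) * (j - 2) / 2 + (i - 1) := rfl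
  rw [h1, Nat.choose_two_right, Nat.choose_eq_descFactorial_div_factorial]
  have h2 : (k - 1).descFactorial 3 = (k - 1) * (k - 2) * (k - 3) := by
    simp only [Nat.descFactorial_succ, Nat.descFactorial_zero, Nat.sub_zero, mul_one]
    rw [show k - 1 - 2 = k - 3 by omega, show k - 1 - 1 = k - 2 by omega]
    ring
  rw [h2, show Nat.factorial 3 = 6 from rfl, show j - 1 - 1 = j - 2 by omega]

lemma idx_lt {i j k : ℕ} (h1 : 1 ≤ i) (h2 : i < j) (h3 : j < k) :
    (j - 1).choose 2 + (i - 1) < j.choose 2 ∧ idx i j k < k.choose 3 := by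
  obtain ⟨i, rfl⟩ : ∃ a, i = a + 1 := ⟨i - 1, by omega⟩
  obtain ⟨j, rfl⟩ : ∃ a, j = a + 1 := ⟨j - 1, by omega⟩
  obtain ⟨k, rfl⟩ : ∃ a, k = a + 1 := ⟨k - 1, by omega⟩
  rw [idx_eq]
  simp only [Nat.add_sub_cancel]
  have e1 : (j + 1).choose 2 = j + j.choose 2 := by
    rw [Nat.choose_succ_succ' j 1, Nat.choose_one_right]
  have e2 : (k + 1).choose 3 = k.choose 2 + k.choose 3 := Nat.choose_succ_succ' k 2
  have e3 : (j + 1).choose 2 ≤ k.choose 2 := Nat.choose_le_choose 2 (by omega)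
  constructor
  · omega
  · omega

lemma idx_inj {i j k i' j' k' : ℕ} (h1 : 1 ≤ i) (h2 : i < j) (h3 : j < k) (h1' : 1 ≤ i')
    (h2' : i' < j') (h3' : j' < k') (h : idx i j k = idx i' j' k') :
    i = i' ∧ j = j' ∧ k = k' := by
  have a := idx_lt h1 h2 h3
  have a' := idx_lt h1' h2' h3'
  have hk : k = k' := by
    rcases lt_trichotomy k k' with hlt | heq | hgt
    · have := Nat.choose_le_choose 3 (show k ≤ k' - 1 by omega)
      have e := idx_eq i' j' k'
      omega
    · exact heq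
    · have := Nat.choose_le_choose 3 (show k' ≤ k - 1 by omega)
      have e := idx_eq i j k
      omega
  subst hk
  have hj : j = j' := by
    have e := idx_eq i j k
    have e' := idx_eq i' j' k
    rcases lt_trichotomy j j' with hlt | heq | hgt
    · have := Nat.choose_le_choose 2 (show j ≤ j' - 1 by omega)
      omega
    · exact heq
    · have := Nat.choose_le_choose 2 (show j' ≤ j - 1 by omega)
      omega
  subst hj
  have e := idx_eq i j k
  have e' := idx_eq i' j k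
  refine ⟨by omega, rfl, rfl⟩

/-- The assignment given by a point sequence. -/
def val (P : ℕ → Pt) (v : ℕ) : Prop :=
  ∃ i j k, 1 ≤ i ∧ i < j ∧ j < k ∧ idx i j k = v ∧ 0 < orient (P i) (P j) (P k)

lemma val_idx {P : ℕ → Pt} {i j k : ℕ} (h1 : 1 ≤ i) (h2 : i < j) (h3 : j < k) :
    val P (idx i j k) ↔ 0 < orient (P i) (P j) (P k) := by
  constructor
  · rintro ⟨i', j', k', a1, a2, a3, h, hp⟩
    obtain ⟨rfl, rfl, rfl⟩ := idx_inj a1 a2 a3 h1 h2 h3 h
    exact hp
  · intro h
    exact ⟨i, j, k, h1, h2, h3, rfl, h⟩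

/-- Strict comparison. -/
def lt' (i j : ℕ) : Bool := Nat.ble (Nat.succ i) j

lemma lt'_iff {i j : ℕ} : lt' i j = true ↔ i < j := by
  unfold lt'
  rw [Nat.ble_eq]
  exact Iff.rfl

/-- Bit test. -/
def tb (m v : ℕ) : Bool := Nat.beq (Nat.land (Nat.shiftRight m v) 1) 1

lemma tb_iff {m v : ℕ} : tb m v = true ↔ m.testBit v = true := by
  unfold tb
  rw [Nat.beq_eq]
  change (m >>> v) &&& 1 = 1 ↔ _
  rw [Nat.testBit_eq_decide_div_mod_eq, decide_eq_true_eq, Nat.and_one_is_mod,
    Nat.shiftRight_eq_div_pow]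

/-- The triple is known to be positively oriented. -/
def lit (T F i j k : ℕ) : Bool :=
  (lt' i j && (lt' j k && (Nat.beq i 0 || tb T (idx i j k)))) ||
  ((lt' i k && (lt' k j && (lt' 0 i && tb F (idx i k j)))) ||
  ((lt' k i && (lt' i j && (Nat.beq k 0 || tb T (idx k i j)))) ||
  ((lt' j i && (lt' i k && (lt' 0 j && tb F (idx j i k)))) ||
  ((lt' j k && (lt' k i && (Nat.beq j 0 || tb T (idx j k i)))) ||
  (lt' k j && (lt' j i && (lt' 0 k && tb F (idx k j i))))))))

section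
variable {n : ℕ} {P : ℕ → Pt}

lemma pos_aux (hf : Frame n P) {T F : ℕ} (ha : Asg (val P) T F) {i j k : ℕ}
    (hk : k < n) (h1 : i < j) (h2 : j < k)
    (h : (Nat.beq i 0 || tb T (idx i j k)) = true) :
    0 < orient (P i) (P j) (P k) := by
  rw [Bool.or_eq_true, Nat.beq_eq, tb_iff] at h
  by_cases h0 : i = 0
  · subst h0
    exact hf.srt j k (by omega) h2 hk
  · rcases h with h | h
    · exact absurd h h0
    · exact (val_idx (by omega) h1 h2).1 ((ha _).1 h)

lemma neg_aux (hf : Frame n P) {T F : ℕ} (ha : Asg (val P) T F) {i j k : ℕ}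
    (hk : k < n) (h1 : i < j) (h2 : j < k)
    (h : (lt' 0 i && tb F (idx i j k)) = true) :
    orient (P i) (P j) (P k) < 0 := by
  rw [Bool.and_eq_true, lt'_iff, tb_iff] at h
  have h3 := (ha _).2 h.2
  rw [val_idx h.1 h1 h2, not_lt] at h3
  exact lt_of_le_of_ne h3 (hf.gp i j k (by omega) (by omega) hk (by omega) (by omega) (by omega))

lemma lit_sound (hf : Frame n P) {T F : ℕ} (ha : Asg (val P) T F) {i j k : ℕ} (hi : i < n)
    (hj : j < n) (hk : k < n) (h : lit T F i j k = true) :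
    0 < orient (P i) (P j) (P k) := by
  simp only [lit, Bool.or_eq_true, Bool.and_eq_true (lt' i j), Bool.and_eq_true (lt' j k),
    Bool.and_eq_true (lt' i k), Bool.and_eq_true (lt' k j), Bool.and_eq_true (lt' k i),
    Bool.and_eq_true (lt' j i)] at h
  have c1 := orient_cyc (P i) (P j) (P k)
  have c2 := orient_cyc (P j) (P k) (P i)
  have s1 := orient_swap' (P i) (P j) (P k)
  have s2 := orient_swap (P i) (P j) (P k)
  have s3 := orient_swap (P j) (P k) (P i)
  rcases h with h | h | h | h | h | h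
  · rw [lt'_iff, lt'_iff] at h
    exact pos_aux hf ha hk h.1 h.2.1 (by simpa only [Bool.or_eq_true] using h.2.2)
  · rw [lt'_iff, lt'_iff] at h
    have := neg_aux hf ha hj h.1 h.2.1 h.2.2
    linarith
  · rw [lt'_iff, lt'_iff] at h
    have := pos_aux hf ha hj h.1 h.2.1 (by simpa only [Bool.or_eq_true] using h.2.2)
    linarith
  · rw [lt'_iff, lt'_iff] at h
    have := neg_aux hf ha hk h.1 h.2.1 h.2.2
    linarith
  · rw [lt'_iff, lt'_iff] at h
    have := pos_aux hf ha hi h.1 h.2.1 (by simpa only [Bool.or_eq_true] using h.2.2)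
    linarith
  · rw [lt'_iff, lt'_iff] at h
    have := neg_aux hf ha hi h.1 h.2.1 h.2.2
    linarith

/-- The `t`-th clause of the signotope axioms for `i < j < k < l`. -/
def axc (i j k l t : ℕ) : ℕ × ℕ :=
  let a := Nat.pow 2 (idx j k l)
  let b := Nat.pow 2 (idx i k l)
  let c := Nat.pow 2 (idx i j l)
  let d := Nat.pow 2 (idx i j k)
  match t with
  | 0 => (b, Nat.add a c)
  | 1 => (Nat.add a c, b)
  | 2 => (b, Nat.add a d)
  | 3 => (Nat.add a d, b)
  | 4 => (c, Nat.add a d)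
  | 5 => (Nat.add a d, c)
  | 6 => (c, Nat.add b d)
  | _ => (Nat.add b d, c)

/-- The check of an axiom clause. -/
def axOK (N i j k l t : ℕ) (c : ℕ × ℕ) : Bool :=
  lt' 0 i && (lt' i j && (lt' j k && (lt' k l && (Nat.ble l N &&
    (Nat.beq c.1 (axc i j k l t).1 && Nat.beq c.2 (axc i j k l t).2)))))

lemma testBit_pow_self (v : ℕ) : (Nat.pow 2 v).testBit v = true := by
  change (2 ^ v).testBit v = true
  simp

lemma testBit_add_pow {v w : ℕ} (h : v ≠ w) :
    (Nat.add (Nat.pow 2 v) (Nat.pow 2 w)).testBit v = true ∧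
    (Nat.add (Nat.pow 2 v) (Nat.pow 2 w)).testBit w = true := by
  have h1 : Nat.add (Nat.pow 2 v) (Nat.pow 2 w) = 2 ^ v ||| 2 ^ w := by
    change 2 ^ v + 2 ^ w = 2 ^ v ||| 2 ^ w
    rcases lt_or_gt_of_ne h with h | h
    · rw [Nat.or_comm, add_comm]
      have := (Nat.two_pow_add_eq_or_of_lt (b := 2 ^ v) (i := w)
        (Nat.pow_lt_pow_right (by norm_num) h) 1)
      simpa using this
    · have := (Nat.two_pow_add_eq_or_of_lt (b := 2 ^ w) (i := v)
        (Nat.pow_lt_pow_right (by norm_num) h) 1)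
      simpa using this
  rw [h1]
  constructor
  · rw [Nat.testBit_or]; simp
  · rw [Nat.testBit_or]; simp

lemma ax_hold (hf : Frame n P) {i j k l t : ℕ} {c : ℕ × ℕ}
    (h : axOK (n - 1) i j k l t c = true) : Hold (val P) c := by
  simp only [axOK, Bool.and_eq_true, lt'_iff, Nat.ble_eq, Nat.beq_eq] at h
  obtain ⟨h1, h2, h3, h4, h5, h6, h7⟩ := h
  have hc : c = axc i j k l t := Prod.ext h6 h7
  subst hc
  have hs := hf.sig i j k l h1 h2 h3 h4 h5
  simp only at hs
  rw [← val_idx (P := P) (by omega : 1 ≤ j) h3 h4, ← val_idx (P := P) h1 (by omega : i < k) h4,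
    ← val_idx (P := P) h1 h2 (by omega : j < l), ← val_idx (P := P) h1 h2 h3] at hs
  have nab : idx j k l ≠ idx i j l := fun h => by
    have := (idx_inj (by omega) h3 h4 h1 h2 (by omega) h).1
    omega
  have nad : idx j k l ≠ idx i j k := fun h => by
    have := (idx_inj (by omega) h3 h4 h1 h2 h3 h).1
    omega
  have nbd : idx i k l ≠ idx i j k := fun h => by
    have := (idx_inj h1 (by omega) h4 h1 h2 h3 h).2.1
    omega
  obtain ⟨⟨s1, s2⟩, ⟨s3, s4⟩, ⟨s5, s6⟩, s7, s8⟩ := hs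
  have key : ∀ x y z : ℕ, x ≠ z →
      (¬ (val P x ∧ ¬ val P y ∧ val P z) →
        Hold (val P) (Nat.pow 2 y, Nat.add (Nat.pow 2 x) (Nat.pow 2 z))) ∧
      (¬ (¬ val P x ∧ val P y ∧ ¬ val P z) →
        Hold (val P) (Nat.add (Nat.pow 2 x) (Nat.pow 2 z), Nat.pow 2 y)) := by
    intro x y z hxz
    have hb1 := testBit_add_pow hxz
    have hb2 := testBit_pow_self y
    constructor
    · intro h
      by_cases hx : val P x
      · by_cases hy : val P y
        · exact ⟨y, Or.inl ⟨hb2, hy⟩⟩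
        · by_cases hz : val P z
          · exact absurd ⟨hx, hy, hz⟩ h
          · exact ⟨z, Or.inr ⟨hb1.2, hz⟩⟩
      · exact ⟨x, Or.inr ⟨hb1.1, hx⟩⟩
    · intro h
      by_cases hx : val P x
      · exact ⟨x, Or.inl ⟨hb1.1, hx⟩⟩
      · by_cases hy : val P y
        · by_cases hz : val P z
          · exact ⟨z, Or.inl ⟨hb1.2, hz⟩⟩
          · exact absurd ⟨hx, hy, hz⟩ h
        · exact ⟨y, Or.inr ⟨hb2, hy⟩⟩
  match t with
  | 0 => exact (key _ _ _ nab).1 s1
  | 1 => exact (key _ _ _ nab).2 s2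
  | 2 => exact (key _ _ _ nad).1 s3
  | 3 => exact (key _ _ _ nad).2 s4
  | 4 => exact (key _ _ _ nad).1 s5
  | 5 => exact (key _ _ _ nad).2 s6
  | 6 => exact (key _ _ _ nbd).1 s7
  | _ + 7 => exact (key _ _ _ nbd).2 s8

end

end Pool.Agent.GCP
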