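import Pool.Agent.GCP.SortAt

/-!
# Splitting parts, the frame of case A, and cutting off points
-/

namespace Pool.Agent.GCP

lemma not_mem_hull_erase {Y : Finset Pt} (hY : IsConvexPolygon Y) {y : Pt} (hy : y ∈ Y) :
    y ∉ convexHull ℝ ((Y.erase y : Finset Pt) : Set Pt) := by
  have hext := hY (Finset.mem_coe.2 hy)
  have h7 := (convex_convexHull ℝ (Y : Set Pt)).mem_extremePoints_iff_convex_sdiff.1 hext
  intro h8
  have h9 : convexHull ℝ ((Y.erase y : Finset Pt) : Set Pt) ⊆
      convexHull ℝ (Y : Set Pt) \ {y} := by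
    refine convexHull_min ?_ h7.2
    intro x hx
    rw [Finset.mem_coe, Finset.mem_erase] at hx
    exact ⟨subset_convexHull ℝ _ hx.2, hx.1⟩
  exact (h9 h8).2 rfl

lemma IsConvexPolygon.subset {Y Z : Finset Pt} (hY : IsConvexPolygon Y) (h : Z ⊆ Y) :
    IsConvexPolygon Z := by
  intro x hx
  exact inter_extremePoints_subset_extremePoints_of_subset
    (convexHull_mono (Finset.coe_subset.2 h)) ⟨subset_convexHull ℝ _ hx, hY (h hx)⟩

/-- Splitting off a vertex. -/
lemma HCP.split {X : Finset Pt} {k : ℕ} (h : HCP (X : Set Pt) k) (hk : k < X.card) :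
    HCP (X : Set Pt) (k + 1) := by
  classical
  obtain ⟨Ys, h1, h2, h3, h4⟩ := h
  obtain ⟨Y, hY, hYc⟩ : ∃ Y ∈ Ys, 2 ≤ Y.card := by
    by_contra hcon
    push Not at hcon
    have hsub : X ⊆ Ys.toFinset.biUnion id := by
      intro x hx
      obtain ⟨Y, hY, hxY⟩ := (h4 x).1 hx
      rw [Finset.mem_biUnion]
      exact ⟨Y, List.mem_toFinset.2 hY, hxY⟩
    have hc1 := Finset.card_le_card hsub
    have hc2 : (Ys.toFinset.biUnion id).card ≤ Ys.toFinset.card * 1 :=
      Finset.card_biUnion_le_card_mul _ _ _ fun Y hY => by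
        have := hcon Y (List.mem_toFinset.1 hY)
        simp only [id]
        omega
    have hc3 := List.toFinset_card_le Ys
    omega
  obtain ⟨y, hy⟩ : Y.Nonempty := by
    rw [← Finset.card_pos]; omega
  have hYp := (h2 Y hY).2
  have hperm := List.perm_cons_erase hY
  have hsymm : ∀ {A B : Finset Pt}, Disjoint (convexHull ℝ (A : Set Pt)) (convexHull ℝ (B : Set Pt)) →
      Disjoint (convexHull ℝ (B : Set Pt)) (convexHull ℝ (A : Set Pt)) := fun h => h.symm
  have h3' : (Y :: Ys.erase Y).Pairwise (fun A B : Finset Pt =>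
      Disjoint (convexHull ℝ (A : Set Pt)) (convexHull ℝ (B : Set Pt))) :=
    (hperm.pairwise_iff hsymm).1 h3
  rw [List.pairwise_cons] at h3'
  have hsub1 : convexHull ℝ (({y} : Finset Pt) : Set Pt) ⊆ convexHull ℝ (Y : Set Pt) :=
    convexHull_mono (by simpa using hy)
  have hsub2 : convexHull ℝ ((Y.erase y : Finset Pt) : Set Pt) ⊆ convexHull ℝ (Y : Set Pt) :=
    convexHull_mono (by simp)
  refine ⟨{y} :: Y.erase y :: Ys.erase Y, ?_, ?_, ?_, ?_⟩
  · simp only [List.length_cons, List.length_erase_of_mem hY, h1]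
    have : 0 < Ys.length := List.length_pos_of_mem hY
    omega
  · intro Z hZ
    rw [List.mem_cons, List.mem_cons] at hZ
    rcases hZ with rfl | rfl | hZ
    · refine ⟨by simp, ?_⟩
      intro x hx
      rw [Finset.coe_singleton, Set.mem_singleton_iff] at hx
      subst hx
      simp
    · refine ⟨?_, hYp.subset (Finset.erase_subset _ _)⟩
      rw [← Finset.card_pos, Finset.card_erase_of_mem hy]
      omega
    · exact h2 Z (List.mem_of_mem_erase hZ)
  · rw [List.pairwise_cons, List.pairwise_cons]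
    refine ⟨?_, ?_, h3'.2⟩
    · intro Z hZ
      rw [List.mem_cons] at hZ
      rcases hZ with rfl | hZ
      · rw [Finset.coe_singleton, convexHull_singleton, Set.disjoint_singleton_left]
        exact not_mem_hull_erase hYp hy
      · exact (h3'.1 Z hZ).mono_left hsub1
    · intro Z hZ
      exact (h3'.1 Z hZ).mono_left hsub2
  · intro x
    rw [h4 x]
    constructor
    · rintro ⟨Z, hZ, hx⟩
      rcases List.mem_cons.1 (hperm.mem_iff.1 hZ) with rfl | hZ'
      · by_cases hxy : x = y
        · exact ⟨{y}, by simp, by simp [hxy]⟩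
        · exact ⟨Z.erase y, by simp, by simp [hxy, hx]⟩
      · exact ⟨Z, by simp [hZ'], hx⟩
    · rintro ⟨Z, hZ, hx⟩
      rw [List.mem_cons, List.mem_cons] at hZ
      rcases hZ with rfl | rfl | hZ
      · rw [Finset.mem_singleton] at hx
        subst hx
        exact ⟨Y, hY, hy⟩
      · exact ⟨Y, hY, Finset.mem_of_mem_erase hx⟩
      · exact ⟨Z, List.mem_of_mem_erase hZ, hx⟩

lemma HCPle.exact {X : Finset Pt} {k : ℕ} (h : HCPle (X : Set Pt) k) (hk : k ≤ X.card) :
    HCP (X : Set Pt) k := by
  obtain ⟨k', h1, h2⟩ := h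
  obtain ⟨d, rfl⟩ : ∃ d, k = k' + d := ⟨k - k', by omega⟩
  clear h1
  induction d with
  | zero => exact h2
  | succ d ih => exact (ih (by omega)).split (by omega)

/-- Cutting off `m` points by a line. -/
lemma cut_off {X : Finset Pt} {n m : ℕ} (hc : X.card = n) (hX : GeneralPosition X)
    (h0 : 0 < m) (hm : m < n) :
    ∃ A B : Finset Pt, A ⊆ X ∧ B ⊆ X ∧ (X : Set Pt) = (A : Set Pt) ∪ (B : Set Pt) ∧
      A.card = m ∧ B.card = n - m ∧
      Disjoint (convexHull ℝ (A : Set Pt)) (convexHull ℝ (B : Set Pt)) := by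
  classical
  obtain ⟨P, hf, he⟩ := exists_frame (by omega) hc hX
  have hinj : ∀ s : Finset ℕ, (∀ i ∈ s, i < n) → Set.InjOn P (s : Set ℕ) := by
    intro s hs i hi j hj hij
    by_contra hne
    exact hf.inj i j (hs i hi) (hs j hj) hne hij
  refine ⟨(Finset.range m).image P, (Finset.Ico m n).image P, ?_, ?_, ?_, ?_, ?_, ?_⟩
  · intro x hx
    rw [Finset.mem_image] at hx
    obtain ⟨i, hi, rfl⟩ := hx
    rw [← Finset.mem_coe, he]
    exact ⟨i, by simp only [Set.mem_ofPred_eq]; have := Finset.mem_range.1 hi; omega, rfl⟩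
  · intro x hx
    rw [Finset.mem_image] at hx
    obtain ⟨i, hi, rfl⟩ := hx
    rw [← Finset.mem_coe, he]
    exact ⟨i, by simp only [Set.mem_ofPred_eq]; have := Finset.mem_Ico.1 hi; omega, rfl⟩
  · rw [he]
    ext x
    simp only [Set.mem_image, Set.mem_ofPred_eq, Finset.coe_image, Finset.coe_range,
      Finset.coe_Ico, Set.mem_union, Set.mem_Iio, Set.mem_Ico]
    constructor
    · rintro ⟨i, hi, rfl⟩
      by_cases h : i < m
      · exact Or.inl ⟨i, h, rfl⟩
      · exact Or.inr ⟨i, ⟨by omega, hi⟩, rfl⟩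
    · rintro (⟨i, hi, rfl⟩ | ⟨i, hi, rfl⟩)
      · exact ⟨i, by omega, rfl⟩
      · exact ⟨i, hi.2, rfl⟩
  · rw [Finset.card_image_of_injOn (hinj _ fun i hi => by
      have := Finset.mem_range.1 hi; omega), Finset.card_range]
  · rw [Finset.card_image_of_injOn (hinj _ fun i hi => by
      have := Finset.mem_Ico.1 hi; omega), Nat.card_Ico]
  · refine hull_disjoint' (a := P 0) (b := P m) (hf.inj 0 m (by omega) hm (by omega)) ?_ ?_
    · intro x hx hx0
      rw [Finset.mem_coe, Finset.mem_image] at hx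
      obtain ⟨i, hi, rfl⟩ := hx
      have hi' := Finset.mem_range.1 hi
      have hi0 : i ≠ 0 := by rintro rfl; exact hx0 rfl
      have := hf.srt i m (by omega) hi' hm
      rw [orient_swap'] at this
      linarith
    · intro x hx hx0
      rw [Finset.mem_coe, Finset.mem_image] at hx
      obtain ⟨i, hi, rfl⟩ := hx
      have hi' := Finset.mem_Ico.1 hi
      have him : i ≠ m := by rintro rfl; exact hx0 rfl
      exact hf.srt m i (by omega) (by omega) hi'.2

lemma GeneralPosition.subset {X Y : Finset Pt} (hX : GeneralPosition X) (h : Y ⊆ X) :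
    GeneralPosition Y := fun p hp q hq r hr => hX p (h hp) q (h hq) r (h hr)

/-- The complement of a list of indices. -/
def comp (n : ℕ) (l : List ℕ) : List ℕ := (List.range n).filter (fun i => !l.contains i)

/-- The frame of case A. -/
theorem frameA {A B : Finset Pt} (hA : A.card = 4) (hB : B.card = 11)
    (hcv : IsConvexPolygon A)
    (hd : Disjoint (convexHull ℝ (A : Set Pt)) (convexHull ℝ (B : Set Pt)))
    (hX : GeneralPosition (A ∪ B)) :
    ∃ P, Frame 15 P ∧ ((A ∪ B : Finset Pt) : Set Pt) = P '' {i | i < 15} ∧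
      ∃ a b c, 1 < a ∧ a < b ∧ b < c ∧ c < 15 ∧ EA [1, a, b, c] (comp 15 [1, a, b, c]) P := by
  classical
  have hAn : A.Nonempty := by rw [← Finset.card_pos]; omega
  have hBn : B.Nonempty := by rw [← Finset.card_pos]; omega
  obtain ⟨b, hb, a, ha, hab⟩ := hull_edge hAn hBn hd hX
  have hdis : ∀ x, x ∈ A → x ∈ B → False := fun x h1 h2 =>
    Set.disjoint_left.1 hd (subset_convexHull ℝ _ h1) (subset_convexHull ℝ _ h2)
  have hne : a ≠ b := fun h => hdis a ha (h ▸ hb)
  have hc : (A ∪ B).card = 14 + 1 := by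
    rw [Finset.card_union_of_disjoint (Finset.disjoint_left.2 fun x h1 h2 => hdis x h1 h2)]
    omega
  -- a linear functional positive on the differences
  have hfun : ∃ e : ℝ, 0 < e ∧ ∀ q ∈ A ∪ B, q ≠ b →
      0 < orient b a q + e * ((a.1 - b.1) * (q.1 - b.1) + (a.2 - b.2) * (q.2 - b.2)) := by
    have hev : ∀ q ∈ A ∪ B, ∀ᶠ e : ℝ in nhdsWithin 0 (Set.Ioi 0), q ≠ b →
        0 < orient b a q + e * ((a.1 - b.1) * (q.1 - b.1) + (a.2 - b.2) * (q.2 - b.2)) := by
      intro q hq
      by_cases hqb : q = b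
      · exact Filter.Eventually.of_forall fun e h => absurd hqb h
      by_cases hqa : q = a
      · subst hqa
        filter_upwards [self_mem_nhdsWithin] with e he _
        have he' : 0 < e := he
        rw [orient_right, zero_add]
        refine mul_pos he' ?_
        have h1 : (q.1 - b.1) ^ 2 + (q.2 - b.2) ^ 2 ≠ 0 := by
          intro h
          apply hqb
          ext
          · nlinarith [sq_nonneg (q.1 - b.1), sq_nonneg (q.2 - b.2)]
          · nlinarith [sq_nonneg (q.1 - b.1), sq_nonneg (q.2 - b.2)]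
        have h2 : 0 < (q.1 - b.1) ^ 2 + (q.2 - b.2) ^ 2 :=
          lt_of_le_of_ne (by positivity) (Ne.symm h1)
        nlinarith
      · have h1 := hab q hq hqa hqb
        have hcont : Filter.Tendsto (fun e : ℝ => orient b a q +
            e * ((a.1 - b.1) * (q.1 - b.1) + (a.2 - b.2) * (q.2 - b.2)))
            (nhdsWithin 0 (Set.Ioi 0)) (nhds (orient b a q +
            0 * ((a.1 - b.1) * (q.1 - b.1) + (a.2 - b.2) * (q.2 - b.2)))) := by
          refine Filter.Tendsto.mono_left ?_ nhdsWithin_le_nhds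
          exact Continuous.tendsto (by fun_prop) 0
        have h2 : 0 < orient b a q +
            0 * ((a.1 - b.1) * (q.1 - b.1) + (a.2 - b.2) * (q.2 - b.2)) := by linarith
        filter_upwards [hcont.eventually (lt_mem_nhds h2)] with e he _
        exact he
    have hall := (Finset.eventually_all (A ∪ B)).2 hev
    obtain ⟨e, he1, he2⟩ := (hall.and self_mem_nhdsWithin).exists
    exact ⟨e, he2, he1⟩
  obtain ⟨e, he0, he⟩ := hfun
  obtain ⟨P, hP1, hP2, hP3, hP4, hP5⟩ := exists_sorted_at hc hX (Finset.mem_union_right A hb)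
    (e1 := -(a.2 - b.2) + e * (a.1 - b.1)) (e2 := (a.1 - b.1) + e * (a.2 - b.2))
    (fun q hq hqb => by
      have := he q hq hqb
      unfold orient at this
      nlinarith) (by omega)
  have hPX : ∀ i, i < 15 → P i ∈ A ∪ B := by
    intro i hi
    rw [hP1]
    exact Finset.mem_image_of_mem P (Finset.mem_range.2 hi)
  have hf : Frame 15 P := ⟨hP3, orient_ne_gp hX hPX hP3,
    fun i j x y z => hP4 i j x y (by omega), hP5⟩
  have he' : ((A ∪ B : Finset Pt) : Set Pt) = P '' {i | i < 15} := by
    rw [hP1]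
    ext x
    simp
  -- `P 1 = a`
  have hPa : P 1 = a := by
    obtain ⟨j, hj, hja⟩ : ∃ j, j < 15 ∧ P j = a := by
      have : a ∈ A ∪ B := Finset.mem_union_left _ ha
      rw [hP1, Finset.mem_image] at this
      obtain ⟨j, hj, hja⟩ := this
      exact ⟨j, Finset.mem_range.1 hj, hja⟩
    by_contra hcon
    have hj0 : j ≠ 0 := by
      rintro rfl
      exact hne (hja.symm.trans hP2)
    have hj1 : j ≠ 1 := by
      rintro rfl
      exact hcon hja
    have h1 := hf.srt 1 j (by omega) (by omega) hj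
    rw [hP2, hja] at h1
    have h2 := hab (P 1) (hPX 1 (by omega)) hcon (by
      rw [← hP2]
      exact hf.inj 1 0 (by omega) (by omega) (by omega))
    rw [orient_swap'] at h2
    linarith
  -- the indices of the points of `A`
  set l : List ℕ := (List.range 15).filter (fun i => decide (P i ∈ A)) with hl
  have hlmem : ∀ i, i ∈ l ↔ i < 15 ∧ P i ∈ A := by
    intro i
    rw [hl, List.mem_filter, List.mem_range, decide_eq_true_eq]
  have hlA : l.toFinset.image P = A := by
    ext x
    rw [Finset.mem_image]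
    constructor
    · rintro ⟨i, hi, rfl⟩
      exact ((hlmem i).1 (List.mem_toFinset.1 hi)).2
    · intro hx
      have : x ∈ A ∪ B := Finset.mem_union_left _ hx
      rw [hP1, Finset.mem_image] at this
      obtain ⟨j, hj, rfl⟩ := this
      exact ⟨j, List.mem_toFinset.2 ((hlmem j).2 ⟨Finset.mem_range.1 hj, hx⟩), rfl⟩
  have hlnd : l.Nodup := (List.nodup_range).filter _
  have hllen : l.length = 4 := by
    rw [← List.toFinset_card_of_nodup hlnd, ← hA, ← hlA, Finset.card_image_of_injOn]
    intro i hi j hj hij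
    by_contra hne'
    exact hP3 i j ((hlmem i).1 (List.mem_toFinset.1 hi)).1
      ((hlmem j).1 (List.mem_toFinset.1 hj)).1 hne' hij
  have hls : l.Pairwise (· < ·) := by
    rw [hl]
    exact (List.pairwise_lt_range).filter _
  have h1l : 1 ∈ l := (hlmem 1).2 ⟨by omega, by rw [hPa]; exact ha⟩
  have h0l : 0 ∉ l := fun h => hdis _ ((hlmem 0).1 h).2 (by rw [hP2]; exact hb)
  have hlt : ∀ i ∈ l, i < 15 := fun i hi => ((hlmem i).1 hi).1
  refine ⟨P, hf, he', ?_⟩
  have hEA : EA l (comp 15 l) P := by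
    refine ⟨by rw [hlA]; exact hcv, ?_⟩
    have e1 : P '' {i | i ∈ l} = (A : Set Pt) := by
      rw [← image_list, hlA]
    have e2 : P '' {i | i ∈ comp 15 l} ⊆ (B : Set Pt) := by
      rintro x ⟨i, hi, rfl⟩
      simp only [comp, Set.mem_ofPred_eq, List.mem_filter, List.mem_range,
        Bool.not_eq_true', List.contains_eq_mem, decide_eq_false_iff_not] at hi
      rcases Finset.mem_union.1 (hPX i hi.1) with h | h
      · exact absurd ((hlmem i).2 ⟨hi.1, h⟩) hi.2
      · exact h
    rw [e1]
    exact hd.mono_right (convexHull_mono e2)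
  clear_value l
  match l, hllen, hls, h1l, h0l, hlt, hEA with
  | [x, y, z, t], _, hls, h1l, h0l, hlt, hEA =>
    simp only [List.pairwise_cons, List.mem_cons, List.not_mem_nil, or_false, 
      forall_eq_or_imp, forall_eq, List.Pairwise.nil, and_true] at hls
    simp only [List.mem_cons, List.not_mem_nil, or_false, not_or] at h1l h0l
    have hx : x = 1 := by
      rcases h1l with h | h | h | h <;> omega
    subst hx
    have htt := hlt t (by simp)
    exact ⟨y, z, t, by omega, by omega, by omega, htt, hEA⟩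

end Pool.Agent.GCP
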