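import Pool.Agent.GCP.SortAt
import Pool.Agent.GCP.Split

/-!
# The labelled frame of nineteen points `E11 | A8` (MP_062f91_co)

The labels `0, ..., 10` are the set `E`, sorted around its hull vertex `P 0`; the labels
`11, ..., 18` are the points of `A`, sorted around `P 0`, where `(P 0, P 11)` is a hull edge of
`E ∪ A`.
-/

namespace Pool.Agent.GCP

/-- The labelled frame. -/
structure FrameW (P : ℕ → Pt) : Prop where
  inj : ∀ i k, i < 19 → k < 19 → i ≠ k → P i ≠ P k
  gp : ∀ i k l, i < 19 → k < 19 → l < 19 → i ≠ k → k ≠ l → i ≠ l →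
    orient (P i) (P k) (P l) ≠ 0
  frE : Frame 11 P
  brd : ∀ i, i < 19 → i ≠ 0 → i ≠ 11 → 0 < orient (P 0) (P 11) (P i)
  srtA : ∀ i k, 11 ≤ i → i < k → k < 19 → 0 < orient (P 0) (P i) (P k)
  dEA : Disjoint (convexHull ℝ (P '' {i | i < 11}))
    (convexHull ℝ (P '' {i | 11 ≤ i ∧ i < 19}))

namespace FW

/-- A linear functional which separates a point from a set. -/
lemma exists_pos_functional {A B : Finset Pt} {p : Pt} (hp : p ∈ A)
    (hd : Disjoint (convexHull ℝ (A : Set Pt)) (convexHull ℝ (B : Set Pt))) :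
    ∃ e1 e2 : ℝ, ∀ q ∈ B, 0 < e1 * (q.1 - p.1) + e2 * (q.2 - p.2) := by
  have hcA : IsCompact (convexHull ℝ (A : Set Pt)) := A.finite_toSet.isCompact_convexHull ℝ
  have hcB : IsCompact (convexHull ℝ (B : Set Pt)) := B.finite_toSet.isCompact_convexHull ℝ
  obtain ⟨f, u, v, h1, h2, h3⟩ := geometric_hahn_banach_compact_closed
    (convex_convexHull ℝ (A : Set Pt)) hcA (convex_convexHull ℝ (B : Set Pt)) hcB.isClosed hd
  refine ⟨f (1, 0), f (0, 1), ?_⟩
  intro q hq
  have hf : ∀ p : Pt, f p = f (1, 0) * p.1 + f (0, 1) * p.2 := by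
    intro p
    have : p = p.1 • ((1, 0) : Pt) + p.2 • ((0, 1) : Pt) := by
      ext <;> simp
    conv_lhs => rw [this]
    rw [map_add, map_smul, map_smul, smul_eq_mul, smul_eq_mul]
    ring
  have a1 := h1 p (subset_convexHull ℝ _ hp)
  have a2 := h3 q (subset_convexHull ℝ _ hq)
  have e1 := hf p
  have e2 := hf q
  nlinarith

/-- Sorting a set around a point outside. -/
lemma exists_sorted_out {B : Finset Pt} {p : Pt} (hpB : p ∉ B)
    (hX : GeneralPosition (insert p B)) {e1 e2 : ℝ}
    (he : ∀ q ∈ B, 0 < e1 * (q.1 - p.1) + e2 * (q.2 - p.2)) :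
    ∃ Q : ℕ → Pt, B = (Finset.range B.card).image Q ∧
      (∀ i j, i < B.card → j < B.card → i ≠ j → Q i ≠ Q j) ∧
      (∀ i j, i < j → j < B.card → 0 < orient p (Q i) (Q j)) := by
  classical
  rcases Nat.eq_zero_or_pos B.card with h0 | h0
  · refine ⟨fun _ => p, ?_, ?_, ?_⟩
    · rw [h0]
      simpa using Finset.card_eq_zero.1 h0
    · intro i j hi
      omega
    · intro i j hi hj
      omega
  · obtain ⟨P, h1, h2, h3, h4, _⟩ := exists_sorted_at (X := insert p B) (N := B.card)
      (by rw [Finset.card_insert_of_notMem hpB]) hX (Finset.mem_insert_self p B) (e1 := e1)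
      (e2 := e2) (by
        intro q hq hqp
        rcases Finset.mem_insert.1 hq with h | h
        · exact absurd h hqp
        · exact he q h) h0
    refine ⟨fun i => P (i + 1), ?_, ?_, ?_⟩
    · ext x
      rw [Finset.mem_image]
      constructor
      · intro hx
        have : x ∈ insert p B := Finset.mem_insert_of_mem hx
        rw [h1, Finset.mem_image] at this
        obtain ⟨i, hi, rfl⟩ := this
        rw [Finset.mem_range] at hi
        rcases Nat.eq_zero_or_pos i with h | h
        · subst h
          rw [h2] at hx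
          exact absurd hx hpB
        · refine ⟨i - 1, Finset.mem_range.2 (by omega), ?_⟩
          rw [show i - 1 + 1 = i by omega]
      · rintro ⟨i, hi, rfl⟩
        rw [Finset.mem_range] at hi
        have : P (i + 1) ∈ insert p B := by
          rw [h1]
          exact Finset.mem_image_of_mem _ (Finset.mem_range.2 (by omega))
        rcases Finset.mem_insert.1 this with h | h
        · exfalso
          rw [← h2] at h
          exact h3 (i + 1) 0 (by omega) (by omega) (by omega) h
        · exact h
    · intro i j hi hj hij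
      exact h3 (i + 1) (j + 1) (by omega) (by omega) (by omega)
    · intro i j hij hj
      have := h4 (i + 1) (j + 1) (by omega) (by omega) (by omega)
      rw [h2] at this
      exact this

theorem exists_frameW {E J : Finset Pt} (hE : E.card = 11) (hJ8 : J.card = 8)
    (d1 : Disjoint E J) (hg : GeneralPosition (E ∪ J))
    (c1 : Disjoint (convexHull ℝ (E : Set Pt)) (convexHull ℝ (J : Set Pt))) :
    ∃ P : ℕ → Pt, FrameW P ∧ P '' {i | i < 11} = (E : Set Pt) ∧
      P '' {i | 11 ≤ i ∧ i < 19} = (J : Set Pt) := by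
  classical
  have hEne : E.Nonempty := Finset.card_pos.1 (by omega)
  have hJ : J.Nonempty := Finset.card_pos.1 (by omega)
  obtain ⟨e, he, b, hb, hbr⟩ := hull_edge (A := J) (B := E) hJ hEne c1.symm
    (hg.subset (by rw [Finset.union_comm J E]))
  have hbE : b ∉ E := fun h => Finset.disjoint_left.1 d1 h hb
  have heJ : e ∉ J := fun h => Finset.disjoint_left.1 d1 he h
  have hgE : GeneralPosition E := hg.subset (by
    intro x hx; simp [hx])
  -- the frame of `E`
  obtain ⟨P, p1, p2, p3, p4, p5⟩ := exists_sorted_at (X := E) (N := 10) (by omega) hgE he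
    (e1 := -(b.2 - e.2)) (e2 := b.1 - e.1) (by
      intro q hq hqe
      have hqb : q ≠ b := fun h => hbE (h ▸ hq)
      have := hbr q (Finset.mem_union_right _ hq) hqb hqe
      unfold orient at this
      linarith) (by omega)
  -- the sorted sets `J` and `H`
  obtain ⟨f1, f2, hf⟩ := exists_pos_functional he c1
  obtain ⟨Q, q1, q2, q3⟩ := exists_sorted_out heJ (hg.subset (by
    intro x hx
    rcases Finset.mem_insert.1 hx with h | h
    · subst h; simp [he]
    · simp [h])) hf
  -- the first point of `J`
  have hQ0 : Q 0 = b := by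
    have : b ∈ (Finset.range J.card).image Q := by rw [← q1]; exact hb
    obtain ⟨i, hi, hib⟩ := Finset.mem_image.1 this
    rw [Finset.mem_range] at hi
    rcases Nat.eq_zero_or_pos i with h | h
    · rw [← h]; exact hib
    · exfalso
      have h1 := q3 0 i h hi
      have h2 : Q 0 ∈ J := by
        rw [q1]
        exact Finset.mem_image_of_mem _ (Finset.mem_range.2 (by omega))
      have h3 := hbr (Q 0) (Finset.mem_union_left _ h2) (by
        rw [← hib]; exact q2 0 i (by omega) hi (by omega)) (fun h => heJ (h ▸ h2))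
      rw [hib, orient_swap'] at h1
      linarith
  let S : ℕ → Pt := fun i => if i < 11 then P i else Q (i - 11)
  have S1 : ∀ i, i < 11 → S i = P i := fun i hi => by simp [S, hi]
  have S2 : ∀ i, i < 8 → S (11 + i) = Q i := fun i hi => by
    have h1 : ¬ (11 + i < 11) := by omega
    have h3 : 11 + i - 11 = i := by omega
    simp only [S, if_neg h1, h3]
  have hSE : S '' {i | i < 11} = (E : Set Pt) := by
    ext x
    rw [p1]
    simp only [Set.mem_image, Set.mem_ofPred_eq, Finset.coe_image, Finset.coe_range,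
      Set.mem_Iio]
    constructor
    · rintro ⟨i, hi, rfl⟩
      exact ⟨i, hi, (S1 i hi).symm⟩
    · rintro ⟨i, hi, rfl⟩
      exact ⟨i, hi, S1 i hi⟩
  have hSJ : S '' {i | 11 ≤ i ∧ i < 19} = (J : Set Pt) := by
    ext x
    constructor
    · rintro ⟨i, ⟨hi, hi'⟩, rfl⟩
      rw [show i = 11 + (i - 11) by omega, S2 _ (by omega), Finset.mem_coe, q1]
      exact Finset.mem_image_of_mem _ (Finset.mem_range.2 (by omega))
    · intro hx
      rw [Finset.mem_coe, q1] at hx
      obtain ⟨i, hi, rfl⟩ := Finset.mem_image.1 hx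
      rw [Finset.mem_range] at hi
      exact ⟨11 + i, ⟨by omega, by omega⟩, S2 i (by omega)⟩
  have memE : ∀ i, i < 11 → S i ∈ E := fun i hi => by
    have : S i ∈ S '' {i | i < 11} := ⟨i, hi, rfl⟩
    rw [hSE] at this
    exact this
  have memJ : ∀ i, 11 ≤ i → i < 19 → S i ∈ J := fun i hi hi' => by
    have : S i ∈ S '' {i | 11 ≤ i ∧ i < 19} := ⟨i, ⟨hi, hi'⟩, rfl⟩
    rw [hSJ] at this
    exact this
  have mem : ∀ i, i < 19 → S i ∈ E ∪ J := by
    intro i hi
    by_cases h1 : i < 11
    · simp [memE i h1]
    · simp [memJ i (by omega) hi]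
  have hinj : ∀ i k, i < 19 → k < 19 → i < k → S i ≠ S k := by
    intro i k hi hk hik
    by_cases h1 : k < 11
    · rw [S1 i (by omega), S1 k h1]
      exact p3 i k (by omega) (by omega) (by omega)
    · by_cases h3 : i < 11
      · intro h
        exact Finset.disjoint_left.1 d1 (memE i h3) (h ▸ memJ k (by omega) hk)
      · rw [show i = 11 + (i - 11) by omega, show k = 11 + (k - 11) by omega,
          S2 _ (by omega), S2 _ (by omega)]
        exact q2 _ _ (by omega) (by omega) (by omega)
  have hinj' : ∀ i k, i < 19 → k < 19 → i ≠ k → S i ≠ S k := by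
    intro i k hi hk hik
    rcases lt_or_gt_of_ne hik with h | h
    · exact hinj i k hi hk h
    · exact (hinj k i hk hi h).symm
  have hS0 : S 0 = e := by rw [S1 0 (by omega), p2]
  have hS11 : S 11 = b := by rw [show (11 : ℕ) = 11 + 0 by rfl, S2 0 (by omega), hQ0]
  refine ⟨S, ⟨hinj', ?_, ?_, ?_, ?_, ?_⟩, hSE, hSJ⟩
  · intro i k l hi hk hl h1 h2 h3
    exact orient_ne hg (mem i hi) (mem k hk) (mem l hl) (hinj' i k hi hk h1)
      (hinj' k l hk hl h2) (hinj' i l hi hl h3)
  · refine ⟨fun i j hi hj hij => hinj' i j (by omega) (by omega) hij, ?_, ?_, ?_⟩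
    · intro i k l hi hk hl h1 h2 h3
      exact orient_ne hg (mem i (by omega)) (mem k (by omega)) (mem l (by omega))
        (hinj' i k (by omega) (by omega) h1)
        (hinj' k l (by omega) (by omega) h2) (hinj' i l (by omega) (by omega) h3)
    · intro i j hi hij hj
      rw [S1 0 (by omega), S1 i (by omega), S1 j hj]
      exact p4 i j hi hij (by omega)
    · intro i j k l h1 h2 h3 h4 h5
      have := p5 i j k l h1 h2 h3 h4 h5
      simp only at this ⊢
      rw [S1 i (by omega), S1 j (by omega), S1 k (by omega), S1 l (by omega)]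
      exact this
  · intro i hi h0 h11
    rw [hS0, hS11]
    refine hbr (S i) ?_ ?_ ?_
    · by_cases h1 : i < 11
      · exact Finset.mem_union_right _ (memE i h1)
      · exact Finset.mem_union_left _ (memJ i (by omega) hi)
    · rw [← hS11]
      exact hinj' i 11 (by omega) (by omega) h11
    · rw [← hS0]
      exact hinj' i 0 (by omega) (by omega) h0
  · intro i k hi hik hk
    rw [hS0, show i = 11 + (i - 11) by omega, show k = 11 + (k - 11) by omega,
      S2 _ (by omega), S2 _ (by omega)]
    exact q3 _ _ (by omega) (by omega)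
  · rw [hSE, hSJ]
    exact c1


end FW

end Pool.Agent.GCP
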