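import Pool.Agent.GCP.GeoPatch

/-!
# Full knowledge frames of a ring (MP_062f91_co)

The points of a ring `RingS0` are sorted around the hull vertex `p 0`; the positions `q j` of the
hull vertices `p j` satisfy `q 0 = 0, q 1 = 1, q 2 = 4, q 3 = 7, ..., q (h-3) = N-6,
q (h-2) = N-3, q (h-1) = N`.
-/

namespace Pool.Agent.GCP

/-- All points of the ring, sorted around a hull vertex. -/
structure FullR (X : Finset Pt) (N h : ℕ) (q : ℕ → ℕ) (Z : ℕ → Pt) : Prop where
  frame : Frame (N + 1) Z
  img : X = (Finset.range (N + 1)).image Z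
  le : ∀ j, q j ≤ N
  hull : ∀ j, ∀ k ≤ N, k ≠ q j → k ≠ q (j + 1) → 0 < orient (Z (q j)) (Z (q (j + 1))) (Z k)
  c3 : ∀ j, ((Finset.range (N + 1)).filter
    (fun k => orient (Z (q j)) (Z (q (j + 2))) (Z k) < 0)).card = 3
  c6 : ∀ j, ((Finset.range (N + 1)).filter
    (fun k => orient (Z (q j)) (Z (q (j + 3))) (Z k) < 0)).card = 6
  fa : ∀ j, ∃ x ≤ N, x ≠ q j ∧ x ≠ q (j + 1) ∧ ∀ k ≤ N, k ≠ q j → k ≠ q (j + 1) → k ≠ x →
    0 < orient (Z (q j)) (Z x) (Z k) ∧ orient (Z (q (j + 1))) (Z x) (Z k) < 0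
  per : ∀ j, q (j + h) = q j
  q0 : q 0 = 0
  q1 : q 1 = 1
  q2 : q 2 = 4
  q3 : q 3 = 7
  qm1 : q (h - 1) = N
  qm2 : q (h - 2) = N - 3
  qm3 : q (h - 3) = N - 6
  mono : ∀ j, 1 ≤ j → j + 1 < h → q j + 2 ≤ q (j + 1)

namespace Geo

variable {X : Finset Pt} {h : ℕ} {p a c : ZMod h → Pt}

/-- Two sortings around the same point agree. -/
lemma Srt0.unique {N : ℕ} {Z Z' : ℕ → Pt} (S : Srt0 X N Z) (S' : Srt0 X N Z') (h0 : Z 0 = Z' 0)
    {k : ℕ} (hk : k ≤ N) : Z k = Z' k := by
  classical
  rcases Nat.eq_zero_or_pos k with rfl | hk0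
  · exact h0
  · have h1 := S.cnt_before hk0 hk
    have h2 : Z k ≠ Z' 0 := by
      rw [← h0]; exact S.inj k 0 (by omega) (by omega) (by omega)
    obtain ⟨h3, -⟩ := S'.idx (S.mem hk) h2 (m := k - 1) (by rw [← h0]; omega)
    rw [← h3]
    congr 1
    omega

/-- The sorting around a hull vertex is a frame. -/
lemma frame_of_srt (W : RingS0 X h p a c) (i : ZMod h) {N : ℕ} {Z : ℕ → Pt} (S : Srt0 X N Z)
    (h0 : Z 0 = p i) (hN : 1 ≤ N) : Frame (N + 1) Z := by
  classical
  have hc : X.card = N + 1 := by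
    rw [S.img, Finset.card_image_of_injOn, Finset.card_range]
    intro x hx y hy hxy
    have hx' := Finset.mem_range.1 (Finset.mem_coe.1 hx)
    have hy' := Finset.mem_range.1 (Finset.mem_coe.1 hy)
    exact S.inj' (by omega) (by omega) hxy
  have m3 : p (i - 1) ≠ p (i + 1) := by
    have := pne W (i - 1) (k := 2) (by omega) (by omega)
    push_cast at this
    rw [show i - 1 + 2 = i + 1 by ring] at this
    exact this.symm
  obtain ⟨Z', h1, h2, h3, h4, h5⟩ := exists_sorted_at hc W.gp (W.pX i)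
    (functional m3
      (by
        intro z hz z1 z2
        have := W.hull (i - 1) z hz z1 (by rw [show i - 1 + 1 = i by ring]; exact z2)
        rwa [show i - 1 + 1 = i by ring] at this)
      (fun z hz z1 z2 => W.hull i z hz z1 z2)) hN
  have S' : Srt0 X N Z' := ⟨h1, h3, h4⟩
  have hu : ∀ k ≤ N, Z k = Z' k := fun k hk => S.unique S' (by rw [h0, h2]) hk
  refine ⟨fun i j hi hj hij => S.inj i j hi hj hij, ?_, fun i j h1 h2 h3 => S.srt i j h1 h2
    (by omega), ?_⟩
  · intro i j k hi hj hk hij hjk hik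
    exact orient_ne W.gp (S.mem (by omega)) (S.mem (by omega)) (S.mem (by omega))
      (S.inj i j hi hj hij) (S.inj j k hj hk hjk) (S.inj i k hi hk hik)
  · intro i j k l hi hij hjk hkl hl
    have hl' : l ≤ N := by omega
    have := h5 i j k l hi hij hjk hkl hl'
    simp only at this ⊢
    rw [hu i (by omega), hu j (by omega), hu k (by omega), hu l hl']
    exact this

/-- The full frame of a ring. -/
theorem full (W : RingS0 X h p a c) {N : ℕ} (hc : X.card = N + 1) :
    ∃ (q : ℕ → ℕ) (Z : ℕ → Pt), FullR X N h q Z := by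
  classical
  obtain ⟨Z, S, z0, z1, z2, z3, z4, z7, hn7, zn⟩ := ring_sort W 0 hc
  have hex : ∀ i : ZMod h, ∃ k, k ≤ N ∧ Z k = p i := fun i => S.exi (W.pX i)
  choose r hr hrz using hex
  have hq : ∀ (k : ℕ) (i : ZMod h), k ≤ N → Z k = p i → r i = k := by
    intro k i hk hki
    exact S.inj' (hr i) hk ((hrz i).trans hki.symm)
  have hh := W.hh
  haveI : NeZero h := ⟨by omega⟩
  have hpos : ∀ k ≤ N, ∀ i : ZMod h, k ≠ r i → Z k ≠ p i := by
    intro k hk i hne he
    exact hne (hq k i hk he).symm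
  -- cardinalities
  have tr : ∀ f : Pt → Prop, ((Finset.range (N + 1)).filter (fun k => f (Z k))).card =
      (X.filter f).card := by
    intro f
    have : X.filter f = ((Finset.range (N + 1)).filter (fun k => f (Z k))).image Z := by
      ext z
      rw [Finset.mem_filter, Finset.mem_image]
      constructor
      · rintro ⟨h1, h2⟩
        obtain ⟨k, hk, rfl⟩ := S.exi h1
        exact ⟨k, Finset.mem_filter.2 ⟨Finset.mem_range.2 (by omega), h2⟩, rfl⟩
      · rintro ⟨k, hk, rfl⟩
        obtain ⟨h1, h2⟩ := Finset.mem_filter.1 hk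
        exact ⟨S.mem (by have := Finset.mem_range.1 h1; omega), h2⟩
    rw [this, Finset.card_image_of_injOn]
    intro x hx y hy hxy
    have hx' := Finset.mem_range.1 (Finset.mem_filter.1 (Finset.mem_coe.1 hx)).1
    have hy' := Finset.mem_range.1 (Finset.mem_filter.1 (Finset.mem_coe.1 hy)).1
    exact S.inj' (by omega) (by omega) hxy
  -- last positions
  have after : ∀ i : ZMod h, p i ≠ p 0 →
      (X.filter (fun z => orient (p i) (p 0) z < 0)).card + r i = N := by
    intro i hi
    have h1 : 1 ≤ r i := by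
      by_contra h1
      have h2 : r i = 0 := by omega
      have := hrz i
      rw [h2, z0] at this
      exact hi this.symm
    have := S.cnt_after h1 (hr i)
    rw [← this]
    congr 2
    apply Finset.filter_congr
    intro w _
    rw [hrz, z0]
    have : orient (p 0) (p i) w = - orient (p i) (p 0) w := by unfold orient; ring
    rw [this]
    constructor
    · intro h; linarith
    · intro h; linarith
  have e1 : ((h - 1 : ℕ) : ZMod h) = -1 := by
    rw [Nat.cast_sub (by omega)]; simp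
  have e2 : ((h - 2 : ℕ) : ZMod h) = -2 := by
    rw [Nat.cast_sub (by omega)]; simp
  have e3 : ((h - 3 : ℕ) : ZMod h) = -3 := by
    rw [Nat.cast_sub (by omega)]; simp
  refine ⟨fun j => r (j : ZMod h), Z, ?_⟩
  refine
    { frame := frame_of_srt W 0 S z0 (by omega)
      img := S.img
      le := fun j => hr _
      hull := ?_
      c3 := ?_
      c6 := ?_
      fa := ?_
      per := ?_
      q0 := ?_
      q1 := ?_
      q2 := ?_
      q3 := ?_
      qm1 := ?_
      qm2 := ?_
      qm3 := ?_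
      mono := ?_ }
  · intro j k hk h1 h2
    simp only [Nat.cast_add, Nat.cast_one] at h1 h2 ⊢
    rw [hrz, hrz]
    exact W.hull _ _ (S.mem hk) (hpos k hk _ h1) (hpos k hk _ h2)
  · intro j
    simp only [Nat.cast_add, Nat.cast_ofNat]
    rw [hrz, hrz, tr (fun z => orient (p (j : ZMod h)) (p ((j : ZMod h) + 2)) z < 0)]
    exact near1 W _
  · intro j
    simp only [Nat.cast_add, Nat.cast_ofNat]
    rw [hrz, hrz, tr (fun z => orient (p (j : ZMod h)) (p ((j : ZMod h) + 3)) z < 0)]
    exact near2 W _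
  · intro j
    obtain ⟨x, hx, hxa⟩ := S.exi (W.aX (j : ZMod h))
    simp only [Nat.cast_add, Nat.cast_one]
    refine ⟨x, hx, ?_, ?_, ?_⟩
    · rintro rfl
      rw [hrz] at hxa
      exact W.ap _ _ hxa.symm
    · rintro rfl
      rw [hrz] at hxa
      exact W.ap _ _ hxa.symm
    · intro k hk h1 h2 h3
      have h4 : Z k ≠ a (j : ZMod h) := by
        rw [← hxa]; intro he
        exact h3 (S.inj' hk hx he)
      rw [hrz, hrz, hxa]
      exact ⟨W.a1 _ _ (S.mem hk) (hpos k hk _ h1) (hpos k hk _ h2) h4,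
        W.a2 _ _ (S.mem hk) (hpos k hk _ h1) (hpos k hk _ h2) h4⟩
  · intro j
    simp
  · simp only [Nat.cast_zero]
    exact hq 0 0 (by omega) z0
  · simp only [Nat.cast_one]
    exact hq 1 1 (by omega) (by rw [z1]; congr 1; ring)
  · simp only [Nat.cast_ofNat]
    exact hq 4 2 (by omega) (by rw [z4]; congr 1; ring)
  · simp only [Nat.cast_ofNat]
    exact hq 7 3 (by omega) (by rw [z7]; congr 1; ring)
  · simp only [e1]
    exact hq N (-1) le_rfl (by rw [zn]; congr 1; ring)
  · simp only [e2]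
    have h1 := near1 W (-2)
    rw [show (-2 : ZMod h) + 2 = 0 by ring] at h1
    have h2 := after (-2) (by
      have := pne W (-2) (k := 2) (by omega) (by omega)
      push_cast at this
      rw [show (-2 : ZMod h) + 2 = 0 by ring] at this
      exact this.symm)
    omega
  · simp only [e3]
    have h1 := near2 W (-3)
    rw [show (-3 : ZMod h) + 3 = 0 by ring] at h1
    have h2 := after (-3) (by
      have := pne W (-3) (k := 3) (by omega) (by omega)
      push_cast at this
      rw [show (-3 : ZMod h) + 3 = 0 by ring] at this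
      exact this.symm)
    omega
  · intro j hj hjh
    simp only [Nat.cast_add, Nat.cast_one]
    -- the point `a j` is between
    obtain ⟨x, hx, hxa⟩ := S.exi (W.aX (j : ZMod h))
    have n0 : p 0 ≠ p (j : ZMod h) := by
      intro he
      have h1 := W.pinj he
      have h2 : ((j : ℕ) : ZMod h) = ((0 : ℕ) : ZMod h) := by rw [← h1]; simp
      rw [ZMod.natCast_eq_natCast_iff'] at h2
      rw [Nat.mod_eq_of_lt (by omega), Nat.mod_eq_of_lt (by omega)] at h2
      omega
    have n1 : p 0 ≠ p ((j : ZMod h) + 1) := by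
      intro he
      have h1 := W.pinj he
      have h2 : ((j + 1 : ℕ) : ZMod h) = ((0 : ℕ) : ZMod h) := by push_cast; rw [← h1]
      rw [ZMod.natCast_eq_natCast_iff'] at h2
      rw [Nat.mod_eq_of_lt (by omega), Nat.mod_eq_of_lt (by omega)] at h2
      omega
    have n2 : p 0 ≠ a (j : ZMod h) := (W.ap _ _).symm
    have b1 := W.a1 (j : ZMod h) (p 0) (W.pX 0) n0 n1 n2
    have b2 := W.a2 (j : ZMod h) (p 0) (W.pX 0) n0 n1 n2
    have b1' : 0 < orient (Z 0) (Z (r (j : ZMod h))) (Z x) := by
      rw [z0, hrz, hxa]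
      have : orient (p 0) (p (j : ZMod h)) (a (j : ZMod h)) =
          orient (p (j : ZMod h)) (a (j : ZMod h)) (p 0) := by unfold orient; ring
      rw [this]; exact b1
    have b2' : 0 < orient (Z 0) (Z x) (Z (r ((j : ZMod h) + 1))) := by
      rw [z0, hrz, hxa]
      have : orient (p 0) (a (j : ZMod h)) (p ((j : ZMod h) + 1)) =
          - orient (p ((j : ZMod h) + 1)) (a (j : ZMod h)) (p 0) := by unfold orient; ring
      rw [this]; linarith
    have c1 := (S.pos_iff (hr _) hx).1 b1'
    have c2 := (S.pos_iff hx (hr _)).1 b2'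
    omega

end Geo

/-- The list of the positions. -/
lemma FullR.cases23 {X : Finset Pt} {h : ℕ} {q : ℕ → ℕ} {Z : ℕ → Pt} (F : FullR X 22 h q Z)
    (hh : 5 ≤ h) :
    (h = 7 ∧ q 4 = 16 ∧ q 5 = 19 ∧ q 6 = 22) ∨
    (h = 8 ∧ 9 ≤ q 4 ∧ q 4 ≤ 14 ∧ q 5 = 16 ∧ q 6 = 19 ∧ q 7 = 22) ∨
    (h = 9 ∧ 9 ≤ q 4 ∧ q 4 + 2 ≤ q 5 ∧ q 5 ≤ 14 ∧ q 6 = 16 ∧ q 7 = 19 ∧ q 8 = 22) ∨
    (h = 10 ∧ 9 ≤ q 4 ∧ q 4 + 2 ≤ q 5 ∧ q 5 + 2 ≤ q 6 ∧ q 6 ≤ 14 ∧ q 7 = 16 ∧ q 8 = 19 ∧
      q 9 = 22) := by
  have m := F.mono
  have q1 := F.q1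
  have q2 := F.q2
  have q3 := F.q3
  have a1 := F.qm1
  have a2 := F.qm2
  have a3 := F.qm3
  have hlow : ∀ t, 3 + t < h → 7 + 2 * t ≤ q (3 + t) := by
    intro t
    induction t with
    | zero => intro _; simpa using q3.ge
    | succ t ih =>
      intro ht
      have := m (3 + t) (by omega) (by omega)
      have := ih (by omega)
      have e : 3 + (t + 1) = 3 + t + 1 := by ring
      rw [e]
      omega
  have h7 : 7 ≤ h := by
    by_contra hlt
    have : h = 5 ∨ h = 6 := by omega
    rcases this with rfl | rfl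
    · norm_num at a3; omega
    · norm_num at a3; omega
  have h10 : h ≤ 10 := by
    have := hlow (h - 6) (by omega)
    have e : 3 + (h - 6) = h - 3 := by omega
    rw [e, a3] at this
    omega
  interval_cases h
  · left
    norm_num at a1 a2 a3
    exact ⟨rfl, a3, a2, a1⟩
  · right; left
    norm_num at a1 a2 a3
    have b1 := m 3 (by omega) (by omega)
    have b2 := m 4 (by omega) (by omega)
    norm_num at b1 b2
    omega
  · right; right; left
    norm_num at a1 a2 a3
    have b1 := m 3 (by omega) (by omega)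
    have b2 := m 4 (by omega) (by omega)
    have b3 := m 5 (by omega) (by omega)
    norm_num at b1 b2 b3
    omega
  · right; right; right
    norm_num at a1 a2 a3
    have b1 := m 3 (by omega) (by omega)
    have b2 := m 4 (by omega) (by omega)
    have b3 := m 5 (by omega) (by omega)
    have b4 := m 6 (by omega) (by omega)
    norm_num at b1 b2 b3 b4
    omega

end Pool.Agent.GCP
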