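import Pool.Agent.GCP.Small

/-!
# Hull edges between two separated sets and frames at a given extreme point
-/

namespace Pool.Agent.GCP

/-- Sorting around a given extreme point. -/
theorem exists_sorted_at {X : Finset Pt} {N : ℕ} (hc : X.card = N + 1)
    (hX : GeneralPosition X) {p : Pt} (hp : p ∈ X) {e1 e2 : ℝ}
    (he : ∀ q ∈ X, q ≠ p → 0 < e1 * (q.1 - p.1) + e2 * (q.2 - p.2)) (hN : 1 ≤ N) :
    ∃ P : ℕ → Pt, X = (Finset.range (N + 1)).image P ∧ P 0 = p ∧
      (∀ i j, i < N + 1 → j < N + 1 → i ≠ j → P i ≠ P j) ∧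
      (∀ i j, 1 ≤ i → i < j → j ≤ N → 0 < orient (P 0) (P i) (P j)) ∧
      IsSig N (fun i j k => 0 < orient (P i) (P j) (P k)) := by
  classical
  have hD : 0 < e1 ^ 2 + e2 ^ 2 := by
    obtain ⟨q, hq, hqp⟩ : ∃ q ∈ X, q ≠ p := by
      by_contra h
      push Not at h
      have : X.card ≤ 1 := Finset.card_le_one.2 fun a ha b hb => (h a ha).trans (h b hb).symm
      omega
    have h1 := he q hq hqp
    by_contra h2
    have h3 : e1 = 0 := by nlinarith [sq_nonneg e1, sq_nonneg e2]
    have h4 : e2 = 0 := by nlinarith [sq_nonneg e1, sq_nonneg e2]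
    rw [h3, h4] at h1
    simp at h1
  set D := e1 ^ 2 + e2 ^ 2 with hDd
  set Z := X.erase p with hZ
  have hZc : Z.card = N := by
    rw [hZ, Finset.card_erase_of_mem hp, hc]; rfl
  set x' : Pt → ℝ := fun q => e1 * (q.1 - p.1) + e2 * (q.2 - p.2) with hx'
  have hpos : ∀ q ∈ Z, 0 < x' q := fun q hq =>
    he q (Finset.mem_of_mem_erase hq) (Finset.ne_of_mem_erase hq)
  set u' : Pt → ℝ := fun q => (e1 * (q.2 - p.2) - e2 * (q.1 - p.1)) / x' q with hu'
  have horp : ∀ q ∈ Z, ∀ r ∈ Z, D * orient p q r = x' q * x' r * (u' r - u' q) := by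
    intro q hq r hr
    have h1 := (hpos q hq).ne'
    have h2 := (hpos r hr).ne'
    simp only [hu']
    field_simp
    simp only [hx', hDd]
    unfold orient
    ring
  have hinj : Set.InjOn u' (Z : Set Pt) := by
    intro q hq r hr hqr
    by_contra hne'
    have h1 := horp q hq r hr
    rw [hqr, sub_self, mul_zero] at h1
    have h2 := (mul_eq_zero.1 h1).resolve_left hD.ne'
    exact orient_ne hX hp (Finset.mem_of_mem_erase hq) (Finset.mem_of_mem_erase hr)
      (Finset.ne_of_mem_erase hq).symm hne' (Finset.ne_of_mem_erase hr).symm h2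
  have hUc : (Z.image u').card = N := by
    rw [Finset.card_image_of_injOn hinj, hZc]
  set E := (Z.image u').orderEmbOfFin hUc with hE
  have hEm : ∀ i : Fin N, ∃ q ∈ Z, u' q = E i := by
    intro i
    have := Finset.orderEmbOfFin_mem (Z.image u') hUc i
    rw [Finset.mem_image] at this
    exact this
  choose F hFZ hFu using hEm
  set P : ℕ → Pt := fun i => if h : 1 ≤ i ∧ i ≤ N then F ⟨i - 1, by omega⟩ else p with hP
  have hP0 : P 0 = p := by simp [hP]
  have hPi : ∀ i (h : 1 ≤ i ∧ i ≤ N), P i = F ⟨i - 1, by omega⟩ := by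
    intro i h
    simp only [hP]
    rw [dif_pos h]
  have hPZ : ∀ i, 1 ≤ i → i ≤ N → P i ∈ Z := by
    intro i h1 h2
    rw [hPi i ⟨h1, h2⟩]
    exact hFZ _
  have hPu : ∀ i j, 1 ≤ i → i < j → j ≤ N → u' (P i) < u' (P j) := by
    intro i j h1 h2 h3
    rw [hPi i ⟨h1, by omega⟩, hPi j ⟨by omega, h3⟩, hFu, hFu]
    apply E.strictMono
    rw [Fin.lt_def]
    simp only
    omega
  have hdis : ∀ i j, i < N + 1 → j < N + 1 → i < j → P i ≠ P j := by
    intro i j hi hj hij
    rcases Nat.eq_zero_or_pos i with h0 | h0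
    · subst h0
      rw [hP0]
      exact (Finset.ne_of_mem_erase (hPZ j (by omega) (by omega))).symm
    · intro h
      have := hPu i j h0 hij (by omega)
      rw [h] at this
      exact lt_irrefl _ this
  have hdis' : ∀ i j, i < N + 1 → j < N + 1 → i ≠ j → P i ≠ P j := by
    intro i j hi hj hij
    rcases lt_or_gt_of_ne hij with h | h
    · exact hdis i j hi hj h
    · exact (hdis j i hj hi h).symm
  have hPX : ∀ i, i < N + 1 → P i ∈ X := by
    intro i hi
    rcases Nat.eq_zero_or_pos i with h0 | h0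
    · subst h0; rw [hP0]; exact hp
    · exact Finset.mem_of_mem_erase (hPZ i h0 (by omega))
  refine ⟨P, ?_, hP0, hdis', ?_, ?_⟩
  · symm
    apply Finset.eq_of_subset_of_card_le
    · intro q hq
      rw [Finset.mem_image] at hq
      obtain ⟨i, hi, rfl⟩ := hq
      exact hPX i (Finset.mem_range.1 hi)
    · rw [hc, Finset.card_image_of_injOn, Finset.card_range]
      intro i hi j hj hij
      by_contra hne'
      exact hdis' i j (by simpa using hi) (by simpa using hj) hne' hij
  · intro i j h1 h2 h3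
    have h4 := horp _ (hPZ i h1 (by omega)) _ (hPZ j (by omega) h3)
    have a1 := hpos _ (hPZ i h1 (by omega))
    have a2 := hpos _ (hPZ j (by omega) h3)
    have a3 := sub_pos.2 (hPu i j h1 h2 h3)
    rw [hP0]
    have h5 : 0 < D * orient p (P i) (P j) := by rw [h4]; positivity
    exact (mul_pos_iff_of_pos_left hD).1 h5
  · -- orientations in the coordinates `u = y / x`, `v = 1 / x`
    set u : ℕ → ℝ := fun i => u' (P i) with hu
    set v : ℕ → ℝ := fun i => 1 / x' (P i) with hv
    have hdet : ∀ i j k, 1 ≤ i → i < j → j < k → k ≤ N →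
        D * orient (P i) (P j) (P k) = x' (P i) * x' (P j) * x' (P k) * dd u v i j k := by
      intro i j k h1 h2 h3 h4
      have a1 := (hpos _ (hPZ i h1 (by omega))).ne'
      have a2 := (hpos _ (hPZ j (by omega) (by omega))).ne'
      have a3 := (hpos _ (hPZ k (by omega) h4)).ne'
      simp only [dd, hu, hv, hu']
      field_simp
      simp only [hx', hDd]
      unfold orient
      ring
    have hpp : ∀ i j k, 1 ≤ i → i < j → j < k → k ≤ N →
        0 < x' (P i) * x' (P j) * x' (P k) := by
      intro i j k h1 h2 h3 h4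
      have a1 := (hpos _ (hPZ i h1 (by omega)))
      have a2 := (hpos _ (hPZ j (by omega) (by omega)))
      have a3 := (hpos _ (hPZ k (by omega) h4))
      positivity
    have hiff : ∀ i j k, 1 ≤ i → i < j → j < k → k ≤ N →
        ((0 < orient (P i) (P j) (P k)) ↔ 0 < dd u v i j k) := by
      intro i j k h1 h2 h3 h4
      rw [← mul_pos_iff_of_pos_left hD, hdet i j k h1 h2 h3 h4]
      exact mul_pos_iff_of_pos_left (hpp i j k h1 h2 h3 h4)
    have hs : IsSig N (fun i j k => 0 < dd u v i j k) := by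
      refine isSig_of_sorted (fun i j h1 h2 h3 => hPu i j h1 h2 h3) ?_
      intro i j k h1 h2 h3 h4 h0
      have := hdet i j k h1 h2 h3 h4
      rw [h0, mul_zero] at this
      exact orient_ne hX (hPX i (by omega)) (hPX j (by omega)) (hPX k (by omega))
        (hdis i j (by omega) (by omega) h2) (hdis j k (by omega) (by omega) h3)
        (hdis i k (by omega) (by omega) (by omega)) ((mul_eq_zero.1 this).resolve_left hD.ne')
    intro i j k l h1 h2 h3 h4 h5
    have := hs i j k l h1 h2 h3 h4 h5
    simp only at this ⊢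
    rw [hiff j k l (by omega) h3 h4 h5, hiff i k l h1 (by omega) h4 h5,
      hiff i j l h1 h2 (by omega) h5, hiff i j k h1 h2 h3 (by omega)]
    exact this

/-- A hull edge from `B` to `A`. -/
theorem hull_edge {A B : Finset Pt} (hA : A.Nonempty) (hB : B.Nonempty)
    (hd : Disjoint (convexHull ℝ (A : Set Pt)) (convexHull ℝ (B : Set Pt)))
    (hX : GeneralPosition (A ∪ B)) :
    ∃ b ∈ B, ∃ a ∈ A, ∀ x ∈ A ∪ B, x ≠ a → x ≠ b → 0 < orient b a x := by
  classical
  have hcB : IsCompact (convexHull ℝ (B : Set Pt)) := B.finite_toSet.isCompact_convexHull ℝ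
  have hcA : IsCompact (convexHull ℝ (A : Set Pt)) := A.finite_toSet.isCompact_convexHull ℝ
  obtain ⟨f, u, v, h1, h2, h3⟩ := geometric_hahn_banach_compact_closed
    (convex_convexHull ℝ (B : Set Pt)) hcB (convex_convexHull ℝ (A : Set Pt)) hcA.isClosed
    hd.symm
  set α := f (1, 0) with hα
  set β := f (0, 1) with hβ
  have hf : ∀ p : Pt, f p = α * p.1 + β * p.2 := by
    intro p
    have : p = p.1 • ((1, 0) : Pt) + p.2 • ((0, 1) : Pt) := by
      ext <;> simp
    conv_lhs => rw [this]
    rw [map_add, map_smul, map_smul, smul_eq_mul, smul_eq_mul]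
    ring
  set g : Pt → ℝ := fun p => f p - u with hg
  set w : Pt → ℝ := fun p => -β * p.1 + α * p.2 with hw
  have gB : ∀ b ∈ B, g b < 0 := fun b hb => by
    have := h1 b (subset_convexHull ℝ _ hb)
    simp only [hg]
    linarith
  have gA : ∀ a ∈ A, 0 < g a := fun a ha => by
    have := h3 a (subset_convexHull ℝ _ ha)
    simp only [hg]
    linarith
  have hdis : ∀ x, x ∈ A → x ∈ B → False := fun x ha hb => by
    have := gA x ha
    have := gB x hb
    linarith
  have hD : ∀ p q r : Pt, (α ^ 2 + β ^ 2) * orient p q r =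
      (g q - g p) * (w r - w p) - (w q - w p) * (g r - g p) := by
    intro p q r
    simp only [hg, hw, hf]
    unfold orient
    ring
  have hDpos : 0 < α ^ 2 + β ^ 2 := by
    obtain ⟨a, ha⟩ := hA
    obtain ⟨b, hb⟩ := hB
    by_contra h
    have e1 : α = 0 := by nlinarith [sq_nonneg α, sq_nonneg β]
    have e2 : β = 0 := by nlinarith [sq_nonneg α, sq_nonneg β]
    have g1 := gA a ha
    have g2 := gB b hb
    simp only [hg, hf, e1, e2] at g1 g2
    linarith
  set h : Pt × Pt → ℝ := fun x => w x.1 + (-g x.1) * ((w x.2 - w x.1) / (g x.2 - g x.1)) with hh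
  obtain ⟨⟨b, a⟩, hmem, hmin⟩ := Finset.exists_min_image (B ×ˢ A) h
    (Finset.Nonempty.product hB hA)
  rw [Finset.mem_product] at hmem
  obtain ⟨hb, ha⟩ := hmem
  simp only at hb ha
  refine ⟨b, hb, a, ha, ?_⟩
  have hgb := gB b hb
  have hga := gA a ha
  have hab : a ≠ b := fun h => hdis a ha (h ▸ hb)
  intro x hx hxa hxb
  by_contra hneg
  have hx0 : orient b a x ≠ 0 := orient_ne hX (Finset.mem_union_right _ hb)
    (Finset.mem_union_left _ ha) hx hab.symm hxa.symm (fun h => hxb h.symm)
  have hlt : orient b a x < 0 := lt_of_le_of_ne (not_lt.1 hneg) hx0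
  have hDn : (g a - g b) * (w x - w b) - (w a - w b) * (g x - g b) < 0 := by
    rw [← hD]
    exact mul_neg_of_pos_of_neg hDpos hlt
  rcases Finset.mem_union.1 hx with hxA | hxB
  · have hgx := gA x hxA
    have hm := hmin (b, x) (Finset.mem_product.2 ⟨hb, hxA⟩)
    simp only [hh] at hm
    have h4 : (w x - w b) / (g x - g b) < (w a - w b) / (g a - g b) := by
      rw [div_lt_div_iff₀ (by linarith) (by linarith)]
      linarith
    have h5 := mul_lt_mul_of_pos_left h4 (show 0 < -g b by linarith)
    linarith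
  · have hgx := gB x hxB
    have hm := hmin (x, a) (Finset.mem_product.2 ⟨hxB, ha⟩)
    simp only [hh] at hm
    have key : ∀ y, g y < 0 → w y + -g y * ((w a - w y) / (g a - g y)) =
        w a - g a * ((w a - w y) / (g a - g y)) := by
      intro y hy
      have : g a - g y ≠ 0 := by linarith
      field_simp
      ring
    rw [key b hgb, key x hgx] at hm
    have h4 : (w a - w b) / (g a - g b) < (w a - w x) / (g a - g x) := by
      rw [div_lt_div_iff₀ (by linarith) (by linarith)]
      linarith
    have h5 := mul_lt_mul_of_pos_left h4 hga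
    linarith

end Pool.Agent.GCP
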