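import Pool.Agent.GCP.RingOf
import Pool.Agent.GCP.SortAt

/-!
# Geometry of patches (MP_062f91_co)
-/

namespace Pool.Agent.GCP

namespace Geo

open Filter Topology

/-- A generic perturbation of a point of an open polygonal region. -/
lemma generic (T S : Finset (Pt × Pt)) (hS : ∀ s ∈ S, s.1 ≠ s.2) {o : Pt}
    (ho : ∀ s ∈ T, 0 < orient s.1 s.2 o) :
    ∃ o' : Pt, (∀ s ∈ T, 0 < orient s.1 s.2 o') ∧ ∀ s ∈ S, orient s.1 s.2 o' ≠ 0 := by
  classical
  obtain ⟨m, hm⟩ := Infinite.exists_notMem_finset
    (S.image (fun s : Pt × Pt => (s.2.2 - s.1.2) / (s.2.1 - s.1.1)))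
  have hform : ∀ (a b : Pt) (t : ℝ), orient a b (o.1 + t, o.2 + t * m) =
      orient a b o + t * ((b.1 - a.1) * m - (b.2 - a.2)) := by
    intro a b t; unfold orient; ring
  have hB : ∀ s ∈ S, (s.2.1 - s.1.1) * m - (s.2.2 - s.1.2) ≠ 0 := by
    intro s hs h0
    by_cases h1 : s.2.1 - s.1.1 = 0
    · rw [h1] at h0
      apply hS s hs
      exact Prod.ext (by linarith) (by linarith)
    · apply hm
      rw [Finset.mem_image]
      refine ⟨s, hs, ?_⟩
      rw [div_eq_iff h1]
      linarith
  have h1 : ∀ s ∈ T, ∀ᶠ t : ℝ in 𝓝[>] 0, 0 < orient s.1 s.2 (o.1 + t, o.2 + t * m) := by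
    intro s hs
    apply Filter.Eventually.filter_mono nhdsWithin_le_nhds
    have hc : Continuous (fun t : ℝ => orient s.1 s.2 (o.1 + t, o.2 + t * m)) := by
      unfold orient; fun_prop
    have := hc.continuousAt (x := (0 : ℝ))
    apply this.eventually (lt_mem_nhds ?_)
    show 0 < orient s.1 s.2 (o.1 + 0, o.2 + 0 * m)
    rw [hform]
    simpa using ho s hs
  have h2 : ∀ s ∈ S, ∀ᶠ t : ℝ in 𝓝[>] 0, orient s.1 s.2 (o.1 + t, o.2 + t * m) ≠ 0 := by
    intro s hs
    set B := (s.2.1 - s.1.1) * m - (s.2.2 - s.1.2) with hBd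
    have hB0 : B ≠ 0 := hB s hs
    have key : ∀ t : ℝ, orient s.1 s.2 (o.1 + t, o.2 + t * m) = 0 →
        t = -(orient s.1 s.2 o) / B := by
      intro t ht
      rw [hform] at ht
      rw [eq_div_iff hB0]
      linarith
    by_cases h0 : -(orient s.1 s.2 o) / B = 0
    · filter_upwards [self_mem_nhdsWithin] with t ht h
      have := key t h
      rw [h0] at this
      exact absurd this (ne_of_gt ht)
    · apply Filter.Eventually.filter_mono nhdsWithin_le_nhds
      filter_upwards [eventually_ne_nhds (Ne.symm h0)] with t ht h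
      exact ht (key t h)
  obtain ⟨t, ht1, ht2⟩ := (((Filter.eventually_all_finset T).2 h1).and
    ((Filter.eventually_all_finset S).2 h2)).exists
  exact ⟨_, ht1, ht2⟩

/-- The crossing point of two boundary lines, inside the triangle `p, y, q`. -/
lemma cross {p q A B C D y : Pt} (hAB : 0 < orient p A B) (hCD : 0 < orient q C D)
    (hy1 : 0 ≤ orient p y A) (hy2 : 0 < orient p y B) (hy3 : 0 ≤ orient q D y)
    (hy4 : 0 < orient q C y) (h1 : 0 ≤ orient p B q) (h2 : 0 < orient p A q)
    (h3 : 0 ≤ orient q p C) (h4 : 0 < orient q p D) (h5 : 0 < orient p y q) :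
    ∃ o : Pt, 0 < orient p A o ∧ 0 < orient p o B ∧ 0 < orient q C o ∧ 0 < orient q o D := by
  set dx := (A.1 - p.1) + (B.1 - p.1) with hdx
  set dy := (A.2 - p.2) + (B.2 - p.2) with hdy
  set ex := (C.1 - q.1) + (D.1 - q.1) with hex
  set ey := (C.2 - q.2) + (D.2 - q.2) with hey
  set cx := q.1 - p.1 with hcx
  set cy := q.2 - p.2 with hcy
  set ux := y.1 - p.1 with hux
  set uy := y.2 - p.2 with huy
  have e1 : cx * dy - cy * dx < 0 := by
    have : cx * dy - cy * dx = -(orient p A q) - orient p B q := by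
      simp only [hcx, hcy, hdx, hdy]; unfold orient; ring
    linarith
  have e2 : dx * uy - dy * ux < 0 := by
    have : dx * uy - dy * ux = -(orient p y A) - orient p y B := by
      simp only [hux, huy, hdx, hdy]; unfold orient; ring
    linarith
  have e3 : cx * ey - cy * ex < 0 := by
    have : cx * ey - cy * ex = -(orient q p C) - orient q p D := by
      simp only [hcx, hcy, hex, hey]; unfold orient; ring
    linarith
  have e4 : 0 < ex * (uy - cy) - ey * (ux - cx) := by
    have : ex * (uy - cy) - ey * (ux - cx) = orient q C y + orient q D y := by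
      simp only [hcx, hcy, hex, hey, hux, huy]; unfold orient; ring
    linarith
  have e5 : cx * uy - cy * ux < 0 := by
    have : cx * uy - cy * ux = -(orient p y q) := by
      simp only [hcx, hcy, hux, huy]; unfold orient; ring
    linarith
  have key : (cx * uy - cy * ux) * (dx * ey - dy * ex) =
      (cx * dy - cy * dx) * (cx * ey - cy * ex) -
      (cx * dy - cy * dx) * (ex * (uy - cy) - ey * (ux - cx)) +
      (dx * uy - dy * ux) * (cx * ey - cy * ex) := by ring
  have e6 : dx * ey - dy * ex < 0 := by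
    have a1 := mul_pos_of_neg_of_neg e1 e3
    have a2 := mul_neg_of_neg_of_pos e1 e4
    have a3 := mul_pos_of_neg_of_neg e2 e3
    by_contra h
    push Not at h
    have a4 := mul_nonpos_of_nonpos_of_nonneg e5.le h
    linarith
  set Dt := dx * ey - dy * ex with hDt
  set s := (cx * ey - cy * ex) / Dt with hs
  set t := (cx * dy - cy * dx) / Dt with ht
  have s0 : 0 < s := div_pos_of_neg_of_neg e3 e6
  have t0 : 0 < t := div_pos_of_neg_of_neg e1 e6
  have hs' : s * Dt = cx * ey - cy * ex := div_mul_cancel₀ _ e6.ne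
  have ht' : t * Dt = cx * dy - cy * dx := div_mul_cancel₀ _ e6.ne
  have f1 : s * dx = cx + t * ex := by
    apply mul_right_cancel₀ e6.ne
    linear_combination dx * hs' - ex * ht' - cx * hDt
  have f2 : s * dy = cy + t * ey := by
    apply mul_right_cancel₀ e6.ne
    linear_combination dy * hs' - ey * ht' - cy * hDt
  refine ⟨(p.1 + s * dx, p.2 + s * dy), ?_, ?_, ?_, ?_⟩
  · have : orient p A (p.1 + s * dx, p.2 + s * dy) = s * orient p A B := by
      simp only [hdx, hdy]; unfold orient; ring
    rw [this]; exact mul_pos s0 hAB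
  · have : orient p (p.1 + s * dx, p.2 + s * dy) B = s * orient p A B := by
      simp only [hdx, hdy]; unfold orient; ring
    rw [this]; exact mul_pos s0 hAB
  · have : orient q C (p.1 + s * dx, p.2 + s * dy) = t * orient q C D := by
      rw [f1, f2]
      simp only [hcx, hcy, hex, hey]; unfold orient; ring
    rw [this]; exact mul_pos t0 hCD
  · have : orient q (p.1 + s * dx, p.2 + s * dy) D = t * orient q C D := by
      rw [f1, f2]
      simp only [hcx, hcy, hex, hey]; unfold orient; ring
    rw [this]; exact mul_pos t0 hCD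

/-- A linear functional that is positive away from a hull vertex. -/
lemma functional {X : Finset Pt} {l p r : Pt} (hlr : l ≠ r)
    (e1 : ∀ z ∈ X, z ≠ l → z ≠ p → 0 < orient l p z)
    (e2 : ∀ z ∈ X, z ≠ p → z ≠ r → 0 < orient p r z) :
    ∀ q ∈ X, q ≠ p → 0 < (l.2 - r.2) * (q.1 - p.1) + (r.1 - l.1) * (q.2 - p.2) := by
  intro q hq hqp
  have h0 : (l.2 - r.2) * (q.1 - p.1) + (r.1 - l.1) * (q.2 - p.2) =
      orient l p q + orient p r q := by unfold orient; ring
  rw [h0]
  by_cases h5 : q = l
  · subst h5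
    have := e2 q hq hqp hlr
    simpa using this
  · by_cases h6 : q = r
    · subst h6
      have := e1 q hq h5 hqp
      simpa using this
    · have a1 := e1 q hq h5 hqp
      have a2 := e2 q hq hqp h6
      linarith

/-- Sorting around a hull vertex with its two hull edges. -/
lemma sort_vertex {X : Finset Pt} (hX : GeneralPosition X) {N : ℕ} (hc : X.card = N + 1)
    (hN : 2 ≤ N) {l p r : Pt} (hl : l ∈ X) (hp : p ∈ X) (hr : r ∈ X) (hlp : l ≠ p) (hpr : p ≠ r)
    (hlr : l ≠ r) (e1 : ∀ z ∈ X, z ≠ l → z ≠ p → 0 < orient l p z)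
    (e2 : ∀ z ∈ X, z ≠ p → z ≠ r → 0 < orient p r z) :
    ∃ Z : ℕ → Pt, X = (Finset.range (N + 1)).image Z ∧ Z 0 = p ∧
      (∀ i j, i < N + 1 → j < N + 1 → i ≠ j → Z i ≠ Z j) ∧
      (∀ i j, 1 ≤ i → i < j → j ≤ N → 0 < orient (Z 0) (Z i) (Z j)) ∧
      Z 1 = r ∧ Z N = l := by
  obtain ⟨Z, h1, h2, h3, h4, -⟩ := exists_sorted_at hc hX hp (functional hlr e1 e2) (by omega)
  refine ⟨Z, h1, h2, h3, h4, ?_, ?_⟩
  · have hr' := hr
    rw [h1] at hr'
    obtain ⟨k, hk, hkr⟩ := Finset.mem_image.1 hr'
    have hk' := Finset.mem_range.1 hk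
    by_contra hne
    have k0 : k ≠ 0 := by
      rintro rfl
      exact hpr (h2.symm.trans hkr)
    have k1 : k ≠ 1 := by
      rintro rfl
      exact hne hkr
    have a1 := h4 1 k le_rfl (by omega) (by omega)
    rw [hkr, h2] at a1
    have hZ1 : Z 1 ∈ X := by
      rw [h1]; exact Finset.mem_image_of_mem Z (Finset.mem_range.2 (by omega))
    have hZp : Z 1 ≠ p := by
      rw [← h2]; exact h3 1 0 (by omega) (by omega) (by omega)
    have a2 := e2 (Z 1) hZ1 hZp hne
    rw [orient_swap'] at a2
    linarith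
  · have hl' := hl
    rw [h1] at hl'
    obtain ⟨k, hk, hkl⟩ := Finset.mem_image.1 hl'
    have hk' := Finset.mem_range.1 hk
    by_contra hne
    have k0 : k ≠ 0 := by
      rintro rfl
      exact hlp (hkl.symm.trans h2)
    have k1 : k ≠ N := by
      rintro rfl
      exact hne hkl
    have a1 := h4 k N (by omega) (by omega) le_rfl
    rw [hkl, h2] at a1
    have hZ1 : Z N ∈ X := by
      rw [h1]; exact Finset.mem_image_of_mem Z (Finset.mem_range.2 (by omega))
    have hZp : Z N ≠ p := by
      rw [← h2]; exact h3 N 0 (by omega) (by omega) (by omega)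
    have a2 := e1 (Z N) hZ1 hne hZp
    rw [orient_swap] at a2
    linarith

/-- A finite set listed in the angular order around its extreme point `Z 0`. -/
structure Srt0 (X : Finset Pt) (N : ℕ) (Z : ℕ → Pt) : Prop where
  img : X = (Finset.range (N + 1)).image Z
  inj : ∀ i j, i < N + 1 → j < N + 1 → i ≠ j → Z i ≠ Z j
  srt : ∀ i j, 1 ≤ i → i < j → j ≤ N → 0 < orient (Z 0) (Z i) (Z j)

namespace Srt0

variable {X : Finset Pt} {N : ℕ} {Z : ℕ → Pt}

lemma mem (S : Srt0 X N Z) {k : ℕ} (hk : k ≤ N) : Z k ∈ X := by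
  rw [S.img]; exact Finset.mem_image_of_mem Z (Finset.mem_range.2 (by omega))

lemma exi (S : Srt0 X N Z) {z : Pt} (hz : z ∈ X) : ∃ k, k ≤ N ∧ Z k = z := by
  rw [S.img] at hz
  obtain ⟨k, hk, rfl⟩ := Finset.mem_image.1 hz
  exact ⟨k, by have := Finset.mem_range.1 hk; omega, rfl⟩

lemma pos_iff (S : Srt0 X N Z) {k j : ℕ} (hk : k ≤ N) (hj : j ≤ N) :
    0 < orient (Z 0) (Z k) (Z j) ↔ 1 ≤ k ∧ k < j := by
  constructor
  · intro h
    have k0 : k ≠ 0 := by rintro rfl; simp at h
    have j0 : j ≠ 0 := by rintro rfl; simp at h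
    have hkj : k ≠ j := by rintro rfl; simp at h
    rcases Nat.lt_or_ge k j with h1 | h1
    · exact ⟨by omega, h1⟩
    · have := S.srt j k (by omega) (by omega) hk
      rw [orient_swap'] at this
      linarith
  · rintro ⟨h1, h2⟩
    exact S.srt k j h1 h2 hj

lemma inj' (S : Srt0 X N Z) {k j : ℕ} (hk : k ≤ N) (hj : j ≤ N) (h : Z k = Z j) : k = j := by
  by_contra hne
  exact S.inj k j (by omega) (by omega) hne h

lemma cnt_before (S : Srt0 X N Z) {j : ℕ} (hj1 : 1 ≤ j) (hj : j ≤ N) :
    (X.filter (fun z => 0 < orient (Z 0) z (Z j))).card + 1 = j := by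
  classical
  have h1 : X.filter (fun z => 0 < orient (Z 0) z (Z j)) = (Finset.Ico 1 j).image Z := by
    ext z
    rw [Finset.mem_filter, Finset.mem_image]
    constructor
    · rintro ⟨h1, h2⟩
      obtain ⟨k, hk, rfl⟩ := S.exi h1
      have := (S.pos_iff hk hj).1 h2
      exact ⟨k, Finset.mem_Ico.2 this, rfl⟩
    · rintro ⟨k, hk, rfl⟩
      have hk' := Finset.mem_Ico.1 hk
      exact ⟨S.mem (by omega), (S.pos_iff (by omega) hj).2 hk'⟩
  rw [h1, Finset.card_image_of_injOn, Nat.card_Ico]
  · omega
  · intro x hx y hy hxy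
    have hx' := Finset.mem_Ico.1 (Finset.mem_coe.1 hx)
    have hy' := Finset.mem_Ico.1 (Finset.mem_coe.1 hy)
    exact S.inj' (by omega) (by omega) hxy

lemma cnt_after (S : Srt0 X N Z) {j : ℕ} (hj1 : 1 ≤ j) (hj : j ≤ N) :
    (X.filter (fun z => 0 < orient (Z 0) (Z j) z)).card + j = N := by
  classical
  have h1 : X.filter (fun z => 0 < orient (Z 0) (Z j) z) = (Finset.Icc (j + 1) N).image Z := by
    ext z
    rw [Finset.mem_filter, Finset.mem_image]
    constructor
    · rintro ⟨h1, h2⟩
      obtain ⟨k, hk, rfl⟩ := S.exi h1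
      have := (S.pos_iff hj hk).1 h2
      exact ⟨k, Finset.mem_Icc.2 ⟨by omega, hk⟩, rfl⟩
    · rintro ⟨k, hk, rfl⟩
      have hk' := Finset.mem_Icc.1 hk
      exact ⟨S.mem hk'.2, (S.pos_iff hj hk'.2).2 ⟨hj1, by omega⟩⟩
  rw [h1, Finset.card_image_of_injOn, Nat.card_Icc]
  · omega
  · intro x hx y hy hxy
    have hx' := Finset.mem_Icc.1 (Finset.mem_coe.1 hx)
    have hy' := Finset.mem_Icc.1 (Finset.mem_coe.1 hy)
    exact S.inj' (by omega) (by omega) hxy

end Srt0

lemma not_collinear {p q r : Pt} (h : orient p q r ≠ 0) :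
    ¬ Collinear ℝ ({p, q, r} : Set Pt) := by
  intro hc
  rw [collinear_iff_of_mem (p₀ := p) (by simp)] at hc
  obtain ⟨v, hv⟩ := hc
  obtain ⟨s, hs⟩ := hv q (by simp)
  obtain ⟨t, ht⟩ := hv r (by simp)
  apply h
  rw [hs, ht]
  unfold orient
  simp only [vadd_eq_add, Prod.fst_add, Prod.smul_fst, smul_eq_mul, Prod.snd_add, Prod.smul_snd]
  ring

lemma gp_insert {X : Finset Pt} (hX : GeneralPosition X) {o : Pt}
    (ho : ∀ x ∈ X, ∀ y ∈ X, x ≠ y → orient x y o ≠ 0) : GeneralPosition (insert o X) := by
  classical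
  intro x hx y hy z hz hxy hyz hxz
  by_cases h1 : x = o
  · have hy' := (Finset.mem_insert.1 hy).resolve_left (fun h => hxy (h1.trans h.symm))
    have hz' := (Finset.mem_insert.1 hz).resolve_left (fun h => hxz (h1.trans h.symm))
    apply not_collinear
    rw [h1]
    have := ho y hy' z hz' hyz
    rwa [orient_cyc] at this
  · have hx' := (Finset.mem_insert.1 hx).resolve_left h1
    by_cases h2 : y = o
    · have hz' := (Finset.mem_insert.1 hz).resolve_left (fun h => hyz (h2.trans h.symm))
      apply not_collinear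
      rw [h2]
      have := ho x hx' z hz' hxz
      rw [orient_swap']
      exact neg_ne_zero.2 this
    · have hy' := (Finset.mem_insert.1 hy).resolve_left h2
      by_cases h3 : z = o
      · apply not_collinear
        rw [h3]
        exact ho x hx' y hy' hxy
      · have hz' := (Finset.mem_insert.1 hz).resolve_left h3
        exact hX x hx' y hy' z hz' hxy hyz hxz

lemma Srt0.idx {X : Finset Pt} {N : ℕ} {Z : ℕ → Pt} (S : Srt0 X N Z) {z : Pt} (hz : z ∈ X)
    (hz0 : z ≠ Z 0) {m : ℕ} (hm : (X.filter (fun w => 0 < orient (Z 0) w z)).card = m) :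
    Z (m + 1) = z ∧ m + 1 ≤ N := by
  obtain ⟨k, hk, rfl⟩ := S.exi hz
  have k0 : k ≠ 0 := by rintro rfl; exact hz0 rfl
  have := S.cnt_before (by omega : 1 ≤ k) hk
  rw [hm] at this
  rw [this]
  exact ⟨rfl, hk⟩

section ring

variable {X : Finset Pt} {h : ℕ} {p a c : ZMod h → Pt}

lemma pne (W : RingS0 X h p a c) (i : ZMod h) {k : ℕ} (hk : 0 < k) (hk' : k < 5) :
    p (i + (k : ZMod h)) ≠ p i := fun e => RO.ne_add W.hh i hk hk' (W.pinj e)

/-- `p (i + j) ≠ p (i + k)` for small distinct `j, k`. -/
lemma pne' (W : RingS0 X h p a c) (i : ZMod h) {j k : ℕ} (hjk : j < k) (hk' : k < j + 5) :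
    p (i + (j : ZMod h)) ≠ p (i + (k : ZMod h)) := by
  have := pne W (i + (j : ZMod h)) (k := k - j) (by omega) (by omega)
  have e : i + (j : ZMod h) + ((k - j : ℕ) : ZMod h) = i + (k : ZMod h) := by
    rw [add_assoc, ← Nat.cast_add]
    congr 2
    omega
  rw [e] at this
  exact this.symm

lemma a_ne1 (W : RingS0 X h p a c) (i : ZMod h) : a i ≠ a (i + 1) := by
  intro e
  have n1 := pne' W i (j := 0) (k := 3) (by omega) (by omega)
  have n2 := pne' W i (j := 1) (k := 3) (by omega) (by omega)
  have n3 := pne' W i (j := 2) (k := 3) (by omega) (by omega)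
  simp only [Nat.cast_zero, add_zero] at n1
  push_cast at n1 n2 n3
  have e1 := W.a2 i (p (i + 3)) (W.pX _) n1.symm n2.symm (W.ap i (i + 3)).symm
  have e2 := W.a1 (i + 1) (p (i + 3)) (W.pX _) n2.symm
    (by rw [show i + 1 + 1 = i + 2 by ring]; exact n3.symm) (W.ap (i + 1) (i + 3)).symm
  rw [← e] at e2
  linarith

lemma a_ne2 (W : RingS0 X h p a c) (i : ZMod h) : a i ≠ a (i + 2) := by
  intro e
  have n1 := pne' W i (j := 0) (k := 3) (by omega) (by omega)
  have n2 := pne' W i (j := 1) (k := 3) (by omega) (by omega)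
  simp only [Nat.cast_zero, add_zero] at n1
  push_cast at n1 n2
  have e1 := W.a2 i (p (i + 3)) (W.pX _) n1.symm n2.symm (W.ap i (i + 3)).symm
  have e2 := (W.s1 (i + 2) (a i) (W.aX i)).2 (Or.inr (Or.inr e))
  rw [show i + 2 - 1 = i + 1 by ring, show i + 2 + 1 = i + 3 by ring, orient_swap'] at e2
  linarith

lemma near1 (W : RingS0 X h p a c) (i : ZMod h) :
    (X.filter (fun z => orient (p i) (p (i + 2)) z < 0)).card = 3 := by
  classical
  have h1 : X.filter (fun z => orient (p i) (p (i + 2)) z < 0) =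
      {a i, p (i + 1), a (i + 1)} := by
    ext z
    have := W.s1 (i + 1) z
    rw [show i + 1 - 1 = i by ring, show i + 1 + 1 = i + 2 by ring] at this
    rw [Finset.mem_filter]
    simp only [Finset.mem_insert, Finset.mem_singleton]
    constructor
    · rintro ⟨h1, h2⟩; exact (this h1).1 h2
    · intro h2
      have hz : z ∈ X := by
        rcases h2 with rfl | rfl | rfl
        · exact W.aX _
        · exact W.pX _
        · exact W.aX _
      exact ⟨hz, (this hz).2 h2⟩
  rw [h1, Finset.card_eq_three]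
  exact ⟨_, _, _, W.ap _ _, a_ne1 W i, (W.ap _ _).symm, rfl⟩

lemma near2 (W : RingS0 X h p a c) (i : ZMod h) :
    (X.filter (fun z => orient (p i) (p (i + 3)) z < 0)).card = 6 := by
  classical
  have h1 : X.filter (fun z => orient (p i) (p (i + 3)) z < 0) =
      {p (i + 1), p (i + 2), a i, a (i + 1), a (i + 2), c (i + 1)} := by
    ext z
    have := W.s2 (i + 1) z
    rw [show i + 1 - 1 = i by ring, show i + 1 + 2 = i + 3 by ring,
      show i + 1 + 1 = i + 2 by ring] at this
    rw [Finset.mem_filter]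
    simp only [Finset.mem_insert, Finset.mem_singleton]
    constructor
    · rintro ⟨h1, h2⟩; exact (this h1).1 h2
    · intro h2
      have hz : z ∈ X := by
        rcases h2 with rfl | rfl | rfl | rfl | rfl | rfl
        · exact W.pX _
        · exact W.pX _
        · exact W.aX _
        · exact W.aX _
        · exact W.aX _
        · exact W.cX _
      exact ⟨hz, (this hz).2 h2⟩
  have n1 : p (i + 1) ≠ p (i + 2) := by
    have := pne' W i (j := 1) (k := 2) (by omega) (by omega)
    push_cast at this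
    exact this
  have n2 : a (i + 1) ≠ a (i + 2) := by
    have := a_ne1 W (i + 1)
    rwa [show i + 1 + 1 = i + 2 by ring] at this
  have q1 := a_ne1 W i
  have q2 := a_ne2 W i
  have q3 := fun j k => (W.ap j k).symm
  have q4 := fun j k => (W.cp j k).symm
  have q5 := fun j k => (W.ca j k).symm
  rw [h1, Finset.card_insert_of_notMem, Finset.card_insert_of_notMem,
    Finset.card_insert_of_notMem, Finset.card_insert_of_notMem, Finset.card_insert_of_notMem,
    Finset.card_singleton]
  · simp only [Finset.mem_singleton]; exact q5 _ _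
  · simp only [Finset.mem_insert, Finset.mem_singleton, not_or]; exact ⟨n2, q5 _ _⟩
  · simp only [Finset.mem_insert, Finset.mem_singleton, not_or]; exact ⟨q1, q2, q5 _ _⟩
  · simp only [Finset.mem_insert, Finset.mem_singleton, not_or]
    exact ⟨q3 _ _, q3 _ _, q3 _ _, q4 _ _⟩
  · simp only [Finset.mem_insert, Finset.mem_singleton, not_or]
    exact ⟨n1, q3 _ _, q3 _ _, q3 _ _, q4 _ _⟩

/-- The sorting around a hull vertex with the known positions. -/
lemma ring_sort (W : RingS0 X h p a c) (i : ZMod h) {N : ℕ} (hc : X.card = N + 1) :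
    ∃ Z : ℕ → Pt, Srt0 X N Z ∧ Z 0 = p i ∧ Z 1 = p (i + 1) ∧ Z 2 = a i ∧ Z 3 = a (i + 1) ∧
      Z 4 = p (i + 2) ∧ Z 7 = p (i + 3) ∧ 7 ≤ N ∧ Z N = p (i - 1) := by
  classical
  have m1 : p (i - 1) ≠ p i := by
    have := pne W (i - 1) (k := 1) (by omega) (by omega)
    push_cast at this
    rw [show i - 1 + 1 = i by ring] at this
    exact this.symm
  have m2 : p i ≠ p (i + 1) := by
    have := pne W i (k := 1) (by omega) (by omega)
    push_cast at this
    exact this.symm
  have m3 : p (i - 1) ≠ p (i + 1) := by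
    have := pne W (i - 1) (k := 2) (by omega) (by omega)
    push_cast at this
    rw [show i - 1 + 2 = i + 1 by ring] at this
    exact this.symm
  have m4 : p i ≠ p (i + 2) := by
    have := pne W i (k := 2) (by omega) (by omega)
    push_cast at this
    exact this.symm
  have m5 : p i ≠ p (i + 3) := by
    have := pne W i (k := 3) (by omega) (by omega)
    push_cast at this
    exact this.symm
  have hN2 : 2 ≤ N := by
    have h3 : ({p (i - 1), p i, p (i + 1)} : Finset Pt).card ≤ X.card := by
      apply Finset.card_le_card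
      intro z hz
      simp only [Finset.mem_insert, Finset.mem_singleton] at hz
      rcases hz with rfl | rfl | rfl
      · exact W.pX _
      · exact W.pX _
      · exact W.pX _
    rw [Finset.card_eq_three.2 ⟨_, _, _, m1, m3, m2, rfl⟩] at h3
    omega
  obtain ⟨Z, h1, h2, h3, h4, h5, h6⟩ := sort_vertex W.gp hc hN2 (W.pX (i - 1)) (W.pX i)
    (W.pX (i + 1)) m1 m2 m3
    (by
      intro z hz z1 z2
      have := W.hull (i - 1) z hz z1 (by rw [show i - 1 + 1 = i by ring]; exact z2)
      rwa [show i - 1 + 1 = i by ring] at this)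
    (fun z hz z1 z2 => W.hull i z hz z1 z2)
  have S : Srt0 X N Z := ⟨h1, h3, h4⟩
  have conv : ∀ z, (X.filter (fun w => 0 < orient (Z 0) w z)).card =
      (X.filter (fun w => orient (p i) z w < 0)).card := by
    intro z
    congr 1
    apply Finset.filter_congr
    intro w _
    rw [h2, orient_swap', Left.neg_pos_iff]
  obtain ⟨k4, k4'⟩ := S.idx (z := p (i + 2)) (W.pX _) (by rw [h2]; exact m4.symm) (m := 3)
    (by rw [conv]; exact near1 W i)
  obtain ⟨k7, k7'⟩ := S.idx (z := p (i + 3)) (W.pX _) (by rw [h2]; exact m5.symm) (m := 6)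
    (by rw [conv]; exact near2 W i)
  norm_num at k4 k7 k4' k7'
  -- a i and a (i + 1) are before p (i + 2)
  have b0 : orient (p i) (p (i + 2)) (a i) < 0 := by
    have := (W.s1 (i + 1) (a i) (W.aX _)).2 (Or.inl (by rw [show i + 1 - 1 = i by ring]))
    rwa [show i + 1 - 1 = i by ring, show i + 1 + 1 = i + 2 by ring] at this
  have b1 : orient (p i) (p (i + 2)) (a (i + 1)) < 0 := by
    have := (W.s1 (i + 1) (a (i + 1)) (W.aX _)).2 (Or.inr (Or.inr rfl))
    rwa [show i + 1 - 1 = i by ring, show i + 1 + 1 = i + 2 by ring] at this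
  obtain ⟨s, hs, hsa⟩ := S.exi (W.aX i)
  obtain ⟨t, ht, hta⟩ := S.exi (W.aX (i + 1))
  have hs4 : 1 ≤ s ∧ s < 4 := by
    rw [← S.pos_iff hs (by omega : 4 ≤ N), h2, hsa, k4, orient_swap']; linarith
  have ht4 : 1 ≤ t ∧ t < 4 := by
    rw [← S.pos_iff ht (by omega : 4 ≤ N), h2, hta, k4, orient_swap']; linarith
  have hs1 : s ≠ 1 := by
    rintro rfl
    exact W.ap i (i + 1) (hsa.symm.trans h5)
  have ht1 : t ≠ 1 := by
    rintro rfl
    exact W.ap (i + 1) (i + 1) (hta.symm.trans h5)
  have hst : s ≠ t := by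
    rintro rfl
    exact a_ne1 W i (hsa.symm.trans hta)
  have hs3 : s ≠ 3 := by
    rintro rfl
    have q1 := S.srt 2 3 (by omega) (by omega) hs
    have u0 := S.inj 2 0 (by omega) (by omega) (by omega)
    have u1 := S.inj 2 1 (by omega) (by omega) (by omega)
    have u3 := S.inj 2 3 (by omega) (by omega) (by omega)
    rw [h2] at u0
    rw [h5] at u1
    rw [hsa] at u3
    have q2 := W.a1 i (Z 2) (S.mem (by omega)) u0 u1 u3
    rw [h2, hsa, orient_swap'] at q1
    linarith
  have hs2 : s = 2 := by omega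
  have ht3 : t = 3 := by omega
  rw [hs2] at hsa
  rw [ht3] at hta
  exact ⟨Z, S, h2, h5, hsa, hta, k4, k7, by omega, h6⟩

/-- A point between the directions of `A` and `B`. -/
lemma between {p A B o z : Pt} (hAB : 0 < orient p A B) (h1 : 0 < orient p A o)
    (h2 : 0 < orient p o B) :
    (0 ≤ orient p z A → 0 < orient p z B → 0 < orient p z o) ∧
    (0 < orient p A z → 0 ≤ orient p B z → 0 < orient p o z) := by
  have key : orient p z o * orient p A B =
      orient p z A * orient p o B + orient p z B * orient p A o := by unfold orient; ring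
  constructor
  · intro a1 a2
    have : 0 < orient p z o * orient p A B := by
      rw [key]
      have := mul_nonneg a1 h2.le
      have := mul_pos a2 h1
      linarith
    exact (pos_iff_pos_of_mul_pos this).2 hAB
  · intro a1 a2
    have e1 : orient p z A < 0 := by rw [orient_swap']; linarith
    have e2 : orient p z B ≤ 0 := by rw [orient_swap']; linarith
    have e3 : orient p z o * orient p A B < 0 := by
      rw [key]
      have := mul_neg_of_neg_of_pos e1 h2
      have := mul_nonpos_of_nonpos_of_nonneg e2 h1.le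
      linarith
    rw [orient_swap']
    by_contra h3
    push Not at h3
    have := mul_nonneg (by linarith : 0 ≤ orient p z o) hAB.le
    linarith

open scoped Classical in
/-- The data of a two line patch over the corners `p i, ..., p (i + 4)`. -/
structure TwoLine (X : Finset Pt) {h : ℕ} (p a : ZMod h → Pt) (i : ZMod h) (N r : ℕ)
    (P : ℕ → Pt) : Prop where
  frame : Frame (N + r + 3) P
  mem : ∀ k, k < N + r + 3 → k ≠ N + 1 → P k ∈ X
  virt : P (N + 1) ∉ X
  P0 : P 0 = p i
  P1 : P 1 = p (i + 1)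
  P2 : P 2 = a i
  P3 : P 3 = a (i + 1)
  P4 : P 4 = p (i + 2)
  P7 : P 7 = p (i + 3)
  PV : P (N + r + 2) = p (i + 4)
  far : ∀ z ∈ X, (∀ k, k < N + r + 3 → z ≠ P k) →
    0 < orient (P 0) (P (N + 1)) z ∧ 0 < orient (P (N + 1)) (P (N + r + 2)) z
  nearL : ∀ k, N + 1 < k → k < N + r + 2 → orient (P (N + 1)) (P (N + r + 2)) (P k) < 0
  cardL : ((Finset.range (N + 1)).filter
    (fun k => orient (P (N + 1)) (P (N + r + 2)) (P k) < 0)).card + r = N
  near14 : ∀ z ∈ X, orient (p (i + 1)) (p (i + 4)) z < 0 →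
    ∃ k, k < N + r + 2 ∧ k ≠ N + 1 ∧ P k = z

open scoped Classical in
theorem two_line (W : RingS0 X h p a c) (i : ZMod h) {N : ℕ} (hN : 7 ≤ N)
    (hM : N ≤ (X.filter (fun z => orient (p i) (p (i + 4)) z < 0)).card) :
    ∃ (r : ℕ) (P : ℕ → Pt), r ≤ N ∧ TwoLine X p a i N r P := by
  obtain ⟨n, hn⟩ : ∃ n, X.card = n + 1 :=
    ⟨X.card - 1, by have := Finset.card_pos.2 ⟨p i, W.pX i⟩; omega⟩
  obtain ⟨Z, S, z0, z1, z2, z3, z4, z7, hn7, zn⟩ := ring_sort W i hn
  obtain ⟨Y, T, y0, -, -, -, -, -, -, yn⟩ := ring_sort W (i + 4) hn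
  rw [show i + 4 - 1 = i + 3 by ring] at yn
  set M := (X.filter (fun z => orient (p i) (p (i + 4)) z < 0)).card with hMd
  set q := p (i + 4) with hq
  have hpq : p i ≠ q := by
    have := pne W i (k := 4) (by omega) (by omega)
    push_cast at this
    exact this.symm
  have conv : ∀ z w : Pt, 0 < orient w z q ↔ orient w q z < 0 := by
    intro z w; rw [orient_swap', Left.neg_pos_iff]
  have kq := S.idx (z := q) (W.pX _) (by rw [z0]; exact hpq.symm) (m := M)
    (by
      rw [hMd]; congr 1
      apply Finset.filter_congr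
      intro w _
      rw [z0, conv])
  obtain ⟨kq, hMn⟩ := kq
  -- positions in Y
  have ypos : ∀ z ∈ X, z ≠ q → ∀ m, (X.filter (fun w => orient z q w < 0)).card = m →
      m < n ∧ Y (n - m) = z := by
    intro z hz hzq m hm
    obtain ⟨k, hk, rfl⟩ := T.exi hz
    have k0 : k ≠ 0 := by rintro rfl; exact hzq y0
    have h1 := T.cnt_after (by omega : 1 ≤ k) hk
    have h2 : (X.filter (fun w => 0 < orient (Y 0) (Y k) w)).card = m := by
      rw [← hm]; congr 1
      apply Finset.filter_congr
      intro w _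
      rw [y0, orient_swap, Left.neg_pos_iff]
    rw [h2] at h1
    refine ⟨by omega, ?_⟩
    congr 1
    omega
  obtain ⟨hMn', yp0⟩ := ypos (p i) (W.pX _) hpq M rfl
  have n24 : p (i + 2) ≠ q := by
    have := pne' W i (j := 2) (k := 4) (by omega) (by omega)
    push_cast at this
    exact this
  have n14 : p (i + 1) ≠ q := by
    have := pne' W i (j := 1) (k := 4) (by omega) (by omega)
    push_cast at this
    exact this
  obtain ⟨-, yp2⟩ := ypos (p (i + 2)) (W.pX _) n24 3
    (by have := near1 W (i + 2); rwa [show i + 2 + 2 = i + 4 by ring] at this)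
  obtain ⟨-, yp1⟩ := ypos (p (i + 1)) (W.pX _) n14 6
    (by have := near2 W (i + 1); rwa [show i + 1 + 3 = i + 4 by ring] at this)
  -- the boundary points
  have sAB : 0 < orient (p i) (Z N) (Z (N + 1)) := by
    rw [← z0]; exact S.srt _ _ (by omega) (by omega) (by omega)
  have sCD : 0 < orient q (Y (n - N)) (Y (n - N + 1)) := by
    rw [← y0]; exact T.srt _ _ (by omega) (by omega) (by omega)
  have sge : ∀ j k, 1 ≤ j → j ≤ k → k ≤ n → 0 ≤ orient (p i) (Z j) (Z k) := by
    intro j k h1 h2 h3
    rcases Nat.eq_or_lt_of_le h2 with h4 | h4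
    · rw [h4]; simp
    · rw [← z0]; exact (S.srt _ _ h1 h4 h3).le
  have tge : ∀ j k, 1 ≤ j → j ≤ k → k ≤ n → 0 ≤ orient q (Y j) (Y k) := by
    intro j k h1 h2 h3
    rcases Nat.eq_or_lt_of_le h2 with h4 | h4
    · rw [h4]; simp
    · rw [← y0]; exact (T.srt _ _ h1 h4 h3).le
  have sgt : ∀ j k, 1 ≤ j → j < k → k ≤ n → 0 < orient (p i) (Z j) (Z k) := by
    intro j k h1 h2 h3
    rw [← z0]; exact S.srt _ _ h1 h2 h3
  have tgt : ∀ j k, 1 ≤ j → j < k → k ≤ n → 0 < orient q (Y j) (Y k) := by
    intro j k h1 h2 h3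
    rw [← y0]; exact T.srt _ _ h1 h2 h3
  obtain ⟨o0, c1, c2, c3, c4⟩ := cross (y := p (i + 2)) sAB sCD
    (by rw [← z4]; exact sge _ _ (by omega) (by omega) (by omega))
    (by rw [← z4]; exact sgt _ _ (by omega) (by omega) (by omega))
    (by rw [← yp2]; exact tge _ _ (by omega) (by omega) (by omega))
    (by rw [← yp2]; exact tgt _ _ (by omega) (by omega) (by omega))
    (by rw [← kq]; exact sge _ _ (by omega) (by omega) (by omega))
    (by rw [← kq]; exact sgt _ _ (by omega) (by omega) (by omega))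
    (by rw [← yp0]; exact tge _ _ (by omega) (by omega) (by omega))
    (by rw [← yp0]; exact tgt _ _ (by omega) (by omega) (by omega))
    (by rw [← z4, ← kq]; exact sgt _ _ (by omega) (by omega) (by omega))
  obtain ⟨o, ho1, ho2⟩ := generic
    {(p i, Z N), (Z (N + 1), p i), (q, Y (n - N)), (Y (n - N + 1), q)} X.offDiag
    (fun s hs => (Finset.mem_offDiag.1 hs).2.2) (o := o0)
    (by
      intro s hs
      simp only [Finset.mem_insert, Finset.mem_singleton] at hs
      rcases hs with rfl | rfl | rfl | rfl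
      · exact c1
      · show 0 < orient (Z (N + 1)) (p i) o0
        rw [orient_cyc] at c2
        rw [← orient_cyc] at c2
        rw [← orient_cyc]
        exact c2
      · exact c3
      · show 0 < orient (Y (n - N + 1)) q o0
        rw [← orient_cyc]
        exact c4)
  have d1 : 0 < orient (p i) (Z N) o := ho1 (p i, Z N) (by simp)
  have d2 : 0 < orient (p i) o (Z (N + 1)) := by
    rw [orient_cyc]; exact ho1 (Z (N + 1), p i) (by simp)
  have d3 : 0 < orient q (Y (n - N)) o := ho1 (q, Y (n - N)) (by simp)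
  have d4 : 0 < orient q o (Y (n - N + 1)) := by
    rw [orient_cyc]; exact ho1 (Y (n - N + 1), q) (by simp)
  clear ho1 c1 c2 c3 c4 o0
  have zR : ∀ j, 1 ≤ j → j ≤ N → 0 < orient (p i) (Z j) o := fun j h1 h2 =>
    (between sAB d1 d2).1 (sge j N h1 h2 (by omega)) (sgt j (N + 1) h1 (by omega) (by omega))
  have zF : ∀ j, N + 1 ≤ j → j ≤ n → 0 < orient (p i) o (Z j) := fun j h1 h2 =>
    (between sAB d1 d2).2 (sgt N j (by omega) (by omega) h2) (sge (N + 1) j (by omega) h1 h2)
  have yF : ∀ j, 1 ≤ j → j ≤ n - N → 0 < orient q (Y j) o := fun j h1 h2 =>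
    (between sCD d3 d4).1 (tge j (n - N) h1 h2 (by omega))
      (tgt j (n - N + 1) h1 (by omega) (by omega))
  have yL : ∀ j, n - N + 1 ≤ j → j ≤ n → 0 < orient q o (Y j) := fun j h1 h2 =>
    (between sCD d3 d4).2 (tgt (n - N) j (by omega) (by omega) h2)
      (tge (n - N + 1) j (by omega) h1 h2)
  have opi : o ≠ p i := by rintro rfl; simp at d1
  have oq : o ≠ q := by rintro rfl; simp at d3
  have oX : o ∉ X := by
    intro h
    have := ho2 (p i, o) (Finset.mem_offDiag.2 ⟨W.pX i, h, opi.symm⟩)
    simp at this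
  have gpo : GeneralPosition (insert o X) := gp_insert W.gp
    (fun x hx y hy hxy => ho2 (x, y) (Finset.mem_offDiag.2 ⟨hx, hy, hxy⟩))
  set R := X.filter (fun z => 0 < orient (p i) z o) with hR
  set L := X.filter (fun z => 0 < orient q o z) with hL
  have memR : ∀ j, j ≤ n → (Z j ∈ R ↔ 1 ≤ j ∧ j ≤ N) := by
    intro j hj
    rw [hR, Finset.mem_filter]
    constructor
    · rintro ⟨-, h2⟩
      constructor
      · by_contra h3
        have : j = 0 := by omega
        rw [this, z0] at h2
        simp at h2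
      · by_contra h3
        have := zF j (by omega) hj
        rw [orient_swap'] at this
        linarith
    · rintro ⟨h1, h2⟩
      exact ⟨S.mem hj, zR j h1 h2⟩
  have memL : ∀ j, j ≤ n → (Y j ∈ L ↔ n - N + 1 ≤ j) := by
    intro j hj
    rw [hL, Finset.mem_filter]
    constructor
    · rintro ⟨-, h2⟩
      by_contra h3
      by_cases h4 : j = 0
      · rw [h4, y0] at h2
        simp at h2
      · have := yF j (by omega) (by omega)
        rw [orient_swap'] at this
        linarith
    · intro h1
      exact ⟨T.mem hj, yL j h1 hj⟩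
  have Rc : R.card = N := by
    have h1 : R = (Finset.Icc 1 N).image Z := by
      ext z
      rw [Finset.mem_image]
      constructor
      · intro hz
        obtain ⟨k, hk, rfl⟩ := S.exi (Finset.mem_filter.1 hz).1
        exact ⟨k, Finset.mem_Icc.2 ((memR k hk).1 hz), rfl⟩
      · rintro ⟨k, hk, rfl⟩
        have hk' := Finset.mem_Icc.1 hk
        exact (memR k (by omega)).2 hk'
    rw [h1, Finset.card_image_of_injOn, Nat.card_Icc]
    · omega
    · intro x hx y hy hxy
      have hx' := Finset.mem_Icc.1 (Finset.mem_coe.1 hx)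
      have hy' := Finset.mem_Icc.1 (Finset.mem_coe.1 hy)
      exact S.inj' (by omega) (by omega) hxy
  have Lc : L.card = N := by
    have h1 : L = (Finset.Icc (n - N + 1) n).image Y := by
      ext z
      rw [Finset.mem_image]
      constructor
      · intro hz
        obtain ⟨k, hk, rfl⟩ := T.exi (Finset.mem_filter.1 hz).1
        exact ⟨k, Finset.mem_Icc.2 ⟨(memL k hk).1 hz, hk⟩, rfl⟩
      · rintro ⟨k, hk, rfl⟩
        have hk' := Finset.mem_Icc.1 hk
        exact (memL k (by omega)).2 hk'.1
    rw [h1, Finset.card_image_of_injOn, Nat.card_Icc]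
    · omega
    · intro x hx y hy hxy
      have hx' := Finset.mem_Icc.1 (Finset.mem_coe.1 hx)
      have hy' := Finset.mem_Icc.1 (Finset.mem_coe.1 hy)
      exact T.inj' (by omega) (by omega) hxy
  have pR : p i ∉ R := by rw [← z0, memR 0 (by omega)]; omega
  have pL : p i ∉ L := by rw [← yp0, memL (n - M) (by omega)]; omega
  have qR : q ∉ R := by rw [← kq, memR (M + 1) (by omega)]; omega
  have qL : q ∉ L := by rw [← y0, memL 0 (by omega)]; omega
  have RX : R ⊆ X := Finset.filter_subset _ _
  have LX : L ⊆ X := Finset.filter_subset _ _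
  have oRL : o ∉ R ∪ L := fun h => oX (Finset.union_subset RX LX h)
  set r := (L \ R).card with hr
  have RLc : (R ∪ L).card = N + r := by
    rw [← Finset.union_sdiff_self_eq_union, Finset.card_union_of_disjoint Finset.disjoint_sdiff, Rc]
  have rN : r ≤ N := by
    rw [hr, ← Lc]; exact Finset.card_le_card Finset.sdiff_subset
  set X' := insert o (insert q (insert (p i) (R ∪ L))) with hX'
  have c1 : (insert (p i) (R ∪ L)).card = N + r + 1 := by
    rw [Finset.card_insert_of_notMem (by rw [Finset.mem_union, not_or]; exact ⟨pR, pL⟩), RLc]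
  have c2 : (insert q (insert (p i) (R ∪ L))).card = N + r + 2 := by
    rw [Finset.card_insert_of_notMem (by
      rw [Finset.mem_insert, Finset.mem_union, not_or, not_or]; exact ⟨hpq.symm, qR, qL⟩), c1]
  have c3 : X'.card = (N + r + 2) + 1 := by
    rw [hX', Finset.card_insert_of_notMem (by
      rw [Finset.mem_insert, Finset.mem_insert, not_or, not_or]; exact ⟨oq, opi, oRL⟩), c2]
  have X'o : X' ⊆ insert o X := by
    rw [hX']
    apply Finset.insert_subset_insert
    intro z hz
    rcases Finset.mem_insert.1 hz with rfl | hz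
    · exact W.pX _
    · rcases Finset.mem_insert.1 hz with rfl | hz
      · exact W.pX _
      · exact Finset.union_subset RX LX hz
  have gpX' : GeneralPosition X' := gpo.subset X'o
  have pX' : p i ∈ X' := by
    rw [hX']; exact Finset.mem_insert_of_mem (Finset.mem_insert_of_mem (Finset.mem_insert_self _ _))
  have qX' : q ∈ X' := by
    rw [hX']; exact Finset.mem_insert_of_mem (Finset.mem_insert_self _ _)
  have oX' : o ∈ X' := by rw [hX']; exact Finset.mem_insert_self _ _
  have RX' : ∀ z ∈ R, z ∈ X' := fun z hz => by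
    rw [hX']
    exact Finset.mem_insert_of_mem (Finset.mem_insert_of_mem (Finset.mem_insert_of_mem
      (Finset.mem_union_left _ hz)))
  have LX' : ∀ z ∈ L, z ∈ X' := fun z hz => by
    rw [hX']
    exact Finset.mem_insert_of_mem (Finset.mem_insert_of_mem (Finset.mem_insert_of_mem
      (Finset.mem_union_right _ hz)))
  have cases' : ∀ z ∈ X', z = o ∨ z = q ∨ z = p i ∨ z ∈ R ∨ z ∈ L := by
    intro z hz
    rw [hX'] at hz
    simp only [Finset.mem_insert, Finset.mem_union] at hz
    exact hz
  have m1 : p (i - 1) ≠ p (i + 1) := by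
    have := pne W (i - 1) (k := 2) (by omega) (by omega)
    push_cast at this
    rw [show i - 1 + 2 = i + 1 by ring] at this
    exact this.symm
  have hF := functional (X := X) (l := p (i - 1)) (p := p i) (r := p (i + 1)) m1
    (by
      intro z hz z1 z2
      have := W.hull (i - 1) z hz z1 (by rw [show i - 1 + 1 = i by ring]; exact z2)
      rwa [show i - 1 + 1 = i by ring] at this)
    (fun z hz z1 z2 => W.hull i z hz z1 z2)
  have zp : ∀ j, 1 ≤ j → j ≤ n → Z j ≠ p i := by
    intro j h1 h2; rw [← z0]; exact S.inj _ _ (by omega) (by omega) (by omega)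
  obtain ⟨P, g1, g2, g3, g4, g5⟩ := exists_sorted_at c3 gpX' pX'
    (e1 := (p (i - 1)).2 - (p (i + 1)).2) (e2 := (p (i + 1)).1 - (p (i - 1)).1)
    (by
      intro z hz hzp
      by_cases hzo : z = o
      · rw [hzo]
        have a1 := hF (Z N) (S.mem (by omega)) (zp _ (by omega) (by omega))
        have a2 := hF (Z (N + 1)) (S.mem (by omega)) (zp _ (by omega) (by omega))
        set e1 := (p (i - 1)).2 - (p (i + 1)).2
        set e2 := (p (i + 1)).1 - (p (i - 1)).1
        have key : (e1 * (o.1 - (p i).1) + e2 * (o.2 - (p i).2)) *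
            orient (p i) (Z N) (Z (N + 1)) =
            (e1 * ((Z N).1 - (p i).1) + e2 * ((Z N).2 - (p i).2)) *
              orient (p i) o (Z (N + 1)) +
            (e1 * ((Z (N + 1)).1 - (p i).1) + e2 * ((Z (N + 1)).2 - (p i).2)) *
              orient (p i) (Z N) o := by unfold orient; ring
        have : 0 < (e1 * (o.1 - (p i).1) + e2 * (o.2 - (p i).2)) *
            orient (p i) (Z N) (Z (N + 1)) := by
          rw [key]
          have := mul_pos a1 d2
          have := mul_pos a2 d1
          linarith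
        exact (pos_iff_pos_of_mul_pos this).2 sAB
      · exact hF z ((Finset.mem_insert.1 (X'o hz)).resolve_left hzo) hzp) (by omega)
  have U : Srt0 X' (N + r + 2) P := ⟨g1, g3, g4⟩
  -- P j = Z j for j ≤ N
  have PZ : ∀ j, 1 ≤ j → j ≤ N → P j = Z j := by
    intro j h1 h2
    have := U.idx (z := Z j) (RX' _ ((memR j (by omega)).2 ⟨h1, h2⟩))
      (by rw [g2]; exact zp j h1 (by omega)) (m := j - 1)
      (by
        have e1 := S.cnt_before h1 (by omega : j ≤ n)
        have e2 : X'.filter (fun w => 0 < orient (P 0) w (Z j)) =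
            X.filter (fun w => 0 < orient (Z 0) w (Z j)) := by
          ext w
          rw [Finset.mem_filter, Finset.mem_filter, g2, z0]
          constructor
          · rintro ⟨h3, h4⟩
            refine ⟨?_, h4⟩
            rcases Finset.mem_insert.1 (X'o h3) with rfl | h5
            · have := zR j h1 h2
              rw [orient_swap'] at this
              linarith
            · exact h5
          · rintro ⟨h3, h4⟩
            refine ⟨?_, h4⟩
            obtain ⟨k, hk, rfl⟩ := S.exi h3
            rw [← z0] at h4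
            have := (S.pos_iff hk (by omega)).1 h4
            exact RX' _ ((memR k hk).2 ⟨this.1, by omega⟩)
        rw [e2]; omega)
    rw [Nat.sub_add_cancel h1] at this
    exact this.1
  have Po : P (N + 1) = o := by
    refine (U.idx (z := o) oX' (by rw [g2]; exact opi) (m := N) ?_).1
    rw [← Rc]
    congr 1
    ext w
    rw [Finset.mem_filter, g2]
    constructor
    · rintro ⟨h3, h4⟩
      have hw : w ∈ X := by
        rcases Finset.mem_insert.1 (X'o h3) with rfl | h5
        · simp at h4
        · exact h5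
      exact Finset.mem_filter.2 ⟨hw, h4⟩
    · intro hw
      exact ⟨RX' _ hw, (Finset.mem_filter.1 hw).2⟩
  have pq : 0 < orient (p i) o q := by rw [← kq]; exact zF _ (by omega) hMn
  have Pq : P (N + r + 2) = q := by
    refine (U.idx (z := q) qX' (by rw [g2]; exact hpq.symm) (m := N + r + 1) ?_).1
    have e1 : X'.filter (fun w => 0 < orient (P 0) w q) = (X'.erase q).erase (p i) := by
      ext w
      rw [Finset.mem_filter, g2, Finset.mem_erase, Finset.mem_erase]
      constructor
      · rintro ⟨h3, h4⟩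
        refine ⟨?_, ?_, h3⟩
        · rintro rfl; simp at h4
        · rintro rfl; simp at h4
      · rintro ⟨h3, h4, h5⟩
        refine ⟨h5, ?_⟩
        rcases cases' w h5 with rfl | rfl | rfl | h6 | h6
        · exact pq
        · exact absurd rfl h4
        · exact absurd rfl h3
        · obtain ⟨k, hk, rfl⟩ := S.exi (RX h6)
          have := (memR k hk).1 h6
          rw [← kq]
          exact sgt _ _ this.1 (by omega) hMn
        · obtain ⟨k, hk, rfl⟩ := T.exi (LX h6)
          have := (memL k hk).1 h6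
          rw [orient_cyc, ← yp0]
          exact tgt _ _ (by omega) (by omega) hk
    rw [e1, Finset.card_erase_of_mem (Finset.mem_erase.2 ⟨hpq, pX'⟩),
      Finset.card_erase_of_mem qX', c3]
    omega
  have Pmem : ∀ k, k < N + r + 3 → P k ∈ X' := fun k hk => U.mem (by omega)
  have PX : ∀ k, k < N + r + 3 → k ≠ N + 1 → P k ∈ X := by
    intro k hk hk1
    rcases Finset.mem_insert.1 (X'o (Pmem k hk)) with h5 | h5
    · exact absurd (U.inj' (by omega) (by omega) (h5.trans Po.symm)) hk1
    · exact h5
  have fr : Frame (N + r + 3) P :=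
    { inj := fun i j hi hj hij => g3 i j hi hj hij
      gp := fun i j k hi hj hk h1 h2 h3 =>
        orient_ne gpX' (Pmem i hi) (Pmem j hj) (Pmem k hk) (g3 i j hi hj h1) (g3 j k hj hk h2)
          (g3 i k hi hk h3)
      srt := fun i j h1 h2 h3 => g4 i j h1 h2 (by omega)
      sig := g5 }
  refine ⟨r, P, rN,
    { frame := fr
      mem := PX
      virt := by rw [Po]; exact oX
      P0 := g2
      P1 := by rw [PZ 1 (by omega) (by omega), z1]
      P2 := by rw [PZ 2 (by omega) (by omega), z2]
      P3 := by rw [PZ 3 (by omega) (by omega), z3]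
      P4 := by rw [PZ 4 (by omega) (by omega), z4]
      P7 := by rw [PZ 7 (by omega) (by omega), z7]
      PV := Pq
      far := ?_
      nearL := ?_
      cardL := ?_
      near14 := ?_ }⟩
  · intro z hz hzn
    rw [g2, Po, Pq]
    have hz' : z ∉ X' := by
      intro h
      obtain ⟨k, hk, hkz⟩ := U.exi h
      exact hzn k (by omega) hkz.symm
    have u1 : z ≠ p i := by rintro rfl; exact hz' pX'
    have u2 : z ≠ q := by rintro rfl; exact hz' qX'
    constructor
    · obtain ⟨k, hk, rfl⟩ := S.exi hz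
      have k0 : k ≠ 0 := by rintro rfl; exact u1 z0
      have kR : ¬ (1 ≤ k ∧ k ≤ N) := fun h => hz' (RX' _ ((memR k hk).2 h))
      exact zF k (by omega) hk
    · obtain ⟨k, hk, rfl⟩ := T.exi hz
      have k0 : k ≠ 0 := by rintro rfl; exact u2 y0
      have kL : ¬ (n - N + 1 ≤ k) := fun h => hz' (LX' _ ((memL k hk).2 h))
      have := yF k (by omega) (by omega)
      rw [orient_cyc, orient_cyc]
      exact this
  · intro k hk1 hk2
    rw [Po, Pq]
    have h1 := Pmem k (by omega)
    have ko : 0 < orient (p i) o (P k) := by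
      rw [← g2, ← Po]; exact g4 _ _ (by omega) hk1 (by omega)
    rcases cases' _ h1 with h2 | h2 | h2 | h2 | h2
    · exact absurd (U.inj' (by omega) (by omega) (h2.trans Po.symm)) (by omega)
    · exact absurd (U.inj' (by omega) (by omega) (h2.trans Pq.symm)) (by omega)
    · exact absurd (U.inj' (by omega) (by omega) (h2.trans g2.symm)) (by omega)
    · have := (Finset.mem_filter.1 h2).2
      rw [orient_swap'] at this
      linarith
    · have := (Finset.mem_filter.1 h2).2
      rw [orient_swap]
      linarith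
  · rw [Po, Pq]
    have e1 : ((Finset.range (N + 1)).filter (fun k => orient o q (P k) < 0)).image P = L ∩ R := by
      ext z
      rw [Finset.mem_image, Finset.mem_inter]
      constructor
      · rintro ⟨k, hk, rfl⟩
        obtain ⟨h1, h2⟩ := Finset.mem_filter.1 hk
        have h1' := Finset.mem_range.1 h1
        have hL' : P k ∈ L := Finset.mem_filter.2 ⟨PX k (by omega) (by omega), by
          rw [orient_swap]; linarith⟩
        have k0 : k ≠ 0 := by
          rintro rfl
          exact pL (by rw [← g2]; exact hL')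
        refine ⟨hL', ?_⟩
        rw [PZ k (by omega) (by omega)]
        exact (memR k (by omega)).2 ⟨by omega, by omega⟩
      · rintro ⟨h1, h2⟩
        obtain ⟨k, hk, rfl⟩ := S.exi (RX h2)
        have h3 := (memR k hk).1 h2
        refine ⟨k, Finset.mem_filter.2 ⟨Finset.mem_range.2 (by omega), ?_⟩, PZ k h3.1 h3.2⟩
        rw [PZ k h3.1 h3.2]
        have := (Finset.mem_filter.1 h1).2
        rw [orient_swap]
        linarith
    have e2 : ((Finset.range (N + 1)).filter (fun k => orient o q (P k) < 0)).card =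
        (L ∩ R).card := by
      rw [← e1, Finset.card_image_of_injOn]
      intro x hx y hy hxy
      have hx' := Finset.mem_range.1 (Finset.mem_filter.1 (Finset.mem_coe.1 hx)).1
      have hy' := Finset.mem_range.1 (Finset.mem_filter.1 (Finset.mem_coe.1 hy)).1
      exact U.inj' (by omega) (by omega) hxy
    rw [e2, hr, add_comm, Finset.card_sdiff_add_card_inter, Lc]
  · intro z hz h1
    have hzL : z ∈ L := by
      obtain ⟨k, hk, rfl⟩ := T.exi hz
      rw [memL k hk]
      have h2 : 0 < orient (Y 0) (Y (n - 6)) (Y k) := by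
        rw [y0, yp1, orient_swap]
        linarith
      have := (T.pos_iff (by omega) hk).1 h2
      omega
    obtain ⟨k, hk, hkz⟩ := U.exi (LX' z hzL)
    refine ⟨k, ?_, ?_, hkz⟩
    · have : k ≠ N + r + 2 := by
        rintro rfl
        exact qL (by rw [← Pq, hkz]; exact hzL)
      omega
    · rintro rfl
      exact oX (by rw [← Po, hkz]; exact hz)

lemma near_1_3_sub (W : RingS0 X h p a c) (i : ZMod h) {z : Pt} (hz : z ∈ X)
    (h1 : orient (p (i + 1)) (p (i + 3)) z < 0) : orient (p (i + 1)) (p (i + 4)) z < 0 := by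
  have e1 := W.s1 (i + 2) z hz
  have e2 := W.s2 (i + 2) z hz
  rw [show i + 2 - 1 = i + 1 by ring, show i + 2 + 1 = i + 3 by ring] at e1 e2
  rw [show i + 2 + 2 = i + 4 by ring] at e2
  rw [e1] at h1
  rw [e2]
  tauto

lemma near_2_4_sub (W : RingS0 X h p a c) (i : ZMod h) {z : Pt} (hz : z ∈ X)
    (h1 : orient (p (i + 2)) (p (i + 4)) z < 0) : orient (p (i + 1)) (p (i + 4)) z < 0 := by
  have e1 := W.s1 (i + 3) z hz
  have e2 := W.s2 (i + 2) z hz
  rw [show i + 3 - 1 = i + 2 by ring, show i + 3 + 1 = i + 4 by ring] at e1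
  rw [show i + 2 - 1 = i + 1 by ring, show i + 2 + 1 = i + 3 by ring,
    show i + 2 + 2 = i + 4 by ring] at e2
  rw [e1] at h1
  rw [e2]
  tauto

open scoped Classical in
/-- Numbers of named points beyond a chord all of whose points are beyond `p (i+1), p (i+4)`. -/
lemma TwoLine.card {i : ZMod h} {N r : ℕ} {P : ℕ → Pt} (D : TwoLine X p a i N r P) {x y : Pt}
    (hsub : ∀ z ∈ X, orient x y z < 0 → orient (p (i + 1)) (p (i + 4)) z < 0) :
    ((Finset.range (N + r + 3)).filter
      (fun k => k ≠ N + 1 ∧ orient x y (P k) < 0)).card =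
    (X.filter (fun z => orient x y z < 0)).card := by
  have e1 : X.filter (fun z => orient x y z < 0) = ((Finset.range (N + r + 3)).filter
      (fun k => k ≠ N + 1 ∧ orient x y (P k) < 0)).image P := by
    ext z
    rw [Finset.mem_filter, Finset.mem_image]
    constructor
    · rintro ⟨h1, h2⟩
      obtain ⟨k, hk, hk1, rfl⟩ := D.near14 z h1 (hsub z h1 h2)
      exact ⟨k, Finset.mem_filter.2 ⟨Finset.mem_range.2 (by omega), hk1, h2⟩, rfl⟩
    · rintro ⟨k, hk, rfl⟩
      obtain ⟨h1, h2, h3⟩ := Finset.mem_filter.1 hk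
      exact ⟨D.mem k (Finset.mem_range.1 h1) h2, h3⟩
  rw [e1, Finset.card_image_of_injOn]
  intro j hj k hk hjk
  have hj' := Finset.mem_range.1 (Finset.mem_filter.1 (Finset.mem_coe.1 hj)).1
  have hk' := Finset.mem_range.1 (Finset.mem_filter.1 (Finset.mem_coe.1 hk)).1
  by_contra hne
  exact D.frame.inj j k hj' hk' hne hjk

open scoped Classical in
lemma TwoLine.card13 (W : RingS0 X h p a c) {i : ZMod h} {N r : ℕ} {P : ℕ → Pt}
    (D : TwoLine X p a i N r P) : ((Finset.range (N + r + 3)).filter
      (fun k => k ≠ N + 1 ∧ orient (P 1) (P 7) (P k) < 0)).card = 3 := by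
  rw [D.P1, D.P7, D.card (fun z hz h1 => near_1_3_sub W i hz h1)]
  have := near1 W (i + 1)
  rwa [show i + 1 + 2 = i + 3 by ring] at this

open scoped Classical in
lemma TwoLine.card24 (W : RingS0 X h p a c) {i : ZMod h} {N r : ℕ} {P : ℕ → Pt}
    (D : TwoLine X p a i N r P) : ((Finset.range (N + r + 3)).filter
      (fun k => k ≠ N + 1 ∧ orient (P 4) (P (N + r + 2)) (P k) < 0)).card = 3 := by
  rw [D.P4, D.PV, D.card (fun z hz h1 => near_2_4_sub W i hz h1)]
  have := near1 W (i + 2)
  rwa [show i + 2 + 2 = i + 4 by ring] at this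

open scoped Classical in
lemma TwoLine.card14 (W : RingS0 X h p a c) {i : ZMod h} {N r : ℕ} {P : ℕ → Pt}
    (D : TwoLine X p a i N r P) : ((Finset.range (N + r + 3)).filter
      (fun k => k ≠ N + 1 ∧ orient (P 1) (P (N + r + 2)) (P k) < 0)).card = 6 := by
  rw [D.P1, D.PV, D.card (fun z hz h1 => h1)]
  have := near2 W (i + 1)
  rwa [show i + 1 + 3 = i + 4 by ring] at this

/-- The data of a closed window: all points beyond the chord `p i, p (i + 4)` are named. -/
structure OneLine (X : Finset Pt) {h : ℕ} (p a : ZMod h → Pt) (i : ZMod h) (M : ℕ)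
    (P : ℕ → Pt) : Prop where
  frame : Frame (M + 2) P
  mem : ∀ k, k < M + 2 → P k ∈ X
  P0 : P 0 = p i
  P1 : P 1 = p (i + 1)
  P2 : P 2 = a i
  P3 : P 3 = a (i + 1)
  P4 : P 4 = p (i + 2)
  P7 : P 7 = p (i + 3)
  PV : P (M + 1) = p (i + 4)
  far : ∀ z ∈ X, (∀ k, k < M + 2 → z ≠ P k) → 0 < orient (P 0) (P (M + 1)) z
  near14 : ∀ z ∈ X, orient (p (i + 1)) (p (i + 4)) z < 0 → ∃ k, k < M + 1 ∧ P k = z

/-- The closed window. -/
theorem one_line (W : RingS0 X h p a c) (i : ZMod h) {M : ℕ}
    (hM : (X.filter (fun z => orient (p i) (p (i + 4)) z < 0)).card = M) :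
    7 ≤ M ∧ ∃ P : ℕ → Pt, OneLine X p a i M P := by
  classical
  obtain ⟨n, hn⟩ : ∃ n, X.card = n + 1 :=
    ⟨X.card - 1, by have := Finset.card_pos.2 ⟨p i, W.pX i⟩; omega⟩
  obtain ⟨Z, S, z0, z1, z2, z3, z4, z7, hn7, zn⟩ := ring_sort W i hn
  obtain ⟨Y, T, y0, -, -, -, -, -, -, yn⟩ := ring_sort W (i + 4) hn
  set q := p (i + 4) with hq
  have hpq : p i ≠ q := by
    have := pne W i (k := 4) (by omega) (by omega)
    push_cast at this
    exact this.symm
  have kq := S.idx (z := q) (W.pX _) (by rw [z0]; exact hpq.symm) (m := M)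
    (by
      rw [← hM]; congr 1
      apply Finset.filter_congr
      intro w _
      rw [z0, orient_swap', Left.neg_pos_iff])
  obtain ⟨kq, hMn⟩ := kq
  have ypos : ∀ z ∈ X, z ≠ q → ∀ m, (X.filter (fun w => orient z q w < 0)).card = m →
      m < n ∧ Y (n - m) = z := by
    intro z hz hzq m hm
    obtain ⟨k, hk, rfl⟩ := T.exi hz
    have k0 : k ≠ 0 := by rintro rfl; exact hzq y0
    have h1 := T.cnt_after (by omega : 1 ≤ k) hk
    have h2 : (X.filter (fun w => 0 < orient (Y 0) (Y k) w)).card = m := by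
      rw [← hm]; congr 1
      apply Finset.filter_congr
      intro w _
      rw [y0, orient_swap, Left.neg_pos_iff]
    rw [h2] at h1
    refine ⟨by omega, ?_⟩
    congr 1
    omega
  obtain ⟨hMn', yp0⟩ := ypos (p i) (W.pX _) hpq M hM
  have n14 : p (i + 1) ≠ q := by
    have := pne' W i (j := 1) (k := 4) (by omega) (by omega)
    push_cast at this
    exact this
  obtain ⟨h6n, yp1⟩ := ypos (p (i + 1)) (W.pX _) n14 6
    (by have := near2 W (i + 1); rwa [show i + 1 + 3 = i + 4 by ring] at this)
  -- p (i+3) is before p (i+4)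
  have hM7 : 7 ≤ M := by
    have h1 : 0 < orient (p i) (p (i + 3)) q := by
      have := W.conv i 3 4 (by omega) (by omega) (by have := W.hh; omega)
      push_cast at this
      exact this
    rw [← z0, ← z7, ← kq] at h1
    have := (S.pos_iff hn7 hMn).1 h1
    omega
  refine ⟨hM7, ?_⟩
  set X' := (Finset.range (M + 2)).image Z with hX'
  have X'X : X' ⊆ X := by
    intro z hz
    obtain ⟨k, hk, rfl⟩ := Finset.mem_image.1 hz
    exact S.mem (by have := Finset.mem_range.1 hk; omega)
  have c3 : X'.card = (M + 1) + 1 := by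
    rw [hX', Finset.card_image_of_injOn, Finset.card_range]
    intro x hx y hy hxy
    have hx' := Finset.mem_range.1 (Finset.mem_coe.1 hx)
    have hy' := Finset.mem_range.1 (Finset.mem_coe.1 hy)
    exact S.inj' (by omega) (by omega) hxy
  have m1 : p (i - 1) ≠ p (i + 1) := by
    have := pne W (i - 1) (k := 2) (by omega) (by omega)
    push_cast at this
    rw [show i - 1 + 2 = i + 1 by ring] at this
    exact this.symm
  have hF := functional (X := X) (l := p (i - 1)) (p := p i) (r := p (i + 1)) m1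
    (by
      intro z hz z1 z2
      have := W.hull (i - 1) z hz z1 (by rw [show i - 1 + 1 = i by ring]; exact z2)
      rwa [show i - 1 + 1 = i by ring] at this)
    (fun z hz z1 z2 => W.hull i z hz z1 z2)
  have memX' : ∀ j, j ≤ M + 1 → Z j ∈ X' := fun j hj =>
    Finset.mem_image_of_mem Z (Finset.mem_range.2 (by omega))
  have memX'' : ∀ j, j ≤ n → Z j ∈ X' → j ≤ M + 1 := by
    intro j hj h1
    obtain ⟨k, hk, hkj⟩ := Finset.mem_image.1 h1
    have hk' := Finset.mem_range.1 hk
    have := S.inj' (by omega) hj hkj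
    omega
  have pX' : p i ∈ X' := by rw [← z0]; exact memX' 0 (by omega)
  obtain ⟨P, g1, g2, g3, g4, g5⟩ := exists_sorted_at c3 (W.gp.subset X'X) pX'
    (e1 := (p (i - 1)).2 - (p (i + 1)).2) (e2 := (p (i + 1)).1 - (p (i - 1)).1)
    (fun z hz hzp => hF z (X'X hz) hzp) (by omega)
  have U : Srt0 X' (M + 1) P := ⟨g1, g3, g4⟩
  have zp : ∀ j, 1 ≤ j → j ≤ n → Z j ≠ p i := by
    intro j h1 h2; rw [← z0]; exact S.inj _ _ (by omega) (by omega) (by omega)
  have PZ : ∀ j, j ≤ M + 1 → P j = Z j := by
    intro j h2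
    by_cases h0 : j = 0
    · rw [h0, g2, z0]
    have h1 : 1 ≤ j := by omega
    have := U.idx (z := Z j) (memX' j h2) (by rw [g2]; exact zp j h1 (by omega)) (m := j - 1)
      (by
        have e1 := S.cnt_before h1 (by omega : j ≤ n)
        have e2 : X'.filter (fun w => 0 < orient (P 0) w (Z j)) =
            X.filter (fun w => 0 < orient (Z 0) w (Z j)) := by
          ext w
          rw [Finset.mem_filter, Finset.mem_filter, g2, z0]
          constructor
          · rintro ⟨h3, h4⟩
            exact ⟨X'X h3, h4⟩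
          · rintro ⟨h3, h4⟩
            refine ⟨?_, h4⟩
            obtain ⟨k, hk, rfl⟩ := S.exi h3
            rw [← z0] at h4
            have := (S.pos_iff hk (by omega)).1 h4
            exact memX' k (by omega)
        rw [e2]; omega)
    rw [Nat.sub_add_cancel h1] at this
    exact this.1
  have fr : Frame (M + 2) P :=
    { inj := fun i j hi hj hij => g3 i j hi hj hij
      gp := fun i j k hi hj hk h1 h2 h3 =>
        orient_ne (W.gp.subset X'X) (U.mem (by omega)) (U.mem (by omega)) (U.mem (by omega))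
          (g3 i j hi hj h1) (g3 j k hj hk h2) (g3 i k hi hk h3)
      srt := fun i j h1 h2 h3 => g4 i j h1 h2 (by omega)
      sig := g5 }
  refine ⟨P,
    { frame := fr
      mem := fun k hk => X'X (U.mem (by omega))
      P0 := g2
      P1 := by rw [PZ 1 (by omega), z1]
      P2 := by rw [PZ 2 (by omega), z2]
      P3 := by rw [PZ 3 (by omega), z3]
      P4 := by rw [PZ 4 (by omega), z4]
      P7 := by rw [PZ 7 (by omega), z7]
      PV := by rw [PZ (M + 1) le_rfl, kq]
      far := ?_
      near14 := ?_ }⟩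
  · intro z hz hzn
    rw [g2, PZ (M + 1) le_rfl]
    obtain ⟨k, hk, rfl⟩ := S.exi hz
    have hkM : M + 1 < k := by
      by_contra hlt
      exact hzn k (by omega) (PZ k (by omega)).symm
    rw [← z0]
    exact S.srt _ _ (by omega) hkM hk
  · intro z hz h1
    have h2 : orient (p i) q z < 0 := by
      obtain ⟨k, hk, rfl⟩ := T.exi hz
      have h3 : 0 < orient (Y 0) (Y (n - 6)) (Y k) := by
        rw [y0, yp1, orient_swap]
        linarith
      have h4 := (T.pos_iff (by omega) hk).1 h3
      have h5 := (T.pos_iff (by omega : n - M ≤ n) hk).2 ⟨by omega, by omega⟩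
      rw [y0, yp0, orient_swap] at h5
      linarith
    obtain ⟨k, hk, rfl⟩ := S.exi hz
    rw [← z0, ← kq, orient_swap', Left.neg_neg_iff] at h2
    have h3 := (S.pos_iff hk hMn).1 h2
    exact ⟨k, by omega, PZ k (by omega)⟩

end ring

end Geo

end Pool.Agent.GCP
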