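import Pool.Agent.GCP.GeoPatch

/-!
# Geometry of patches: closed windows and two line patches over `k` hull edges (MP_062f91_co)
-/

namespace Pool.Agent.GCP

namespace Geo

/-- The number of points of `X` beyond the line `x y`. -/
noncomputable def nr (X : Finset Pt) (x y : Pt) : ℕ :=
  (X.filter (fun z => orient x y z < 0)).card

section win

variable {X : Finset Pt} {h : ℕ} {p a c : ZMod h → Pt}

lemma pne_gen (W : RingS0 X h p a c) (i : ZMod h) {j k : ℕ} (hjk : j < k) (hk : k < j + h) :
    p (i + (j : ZMod h)) ≠ p (i + (k : ZMod h)) := by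
  intro e
  have e1 := add_left_cancel (W.pinj e)
  have e2 : ((k - j : ℕ) : ZMod h) = 0 := by
    rw [Nat.cast_sub hjk.le, e1, sub_self]
  rw [ZMod.natCast_eq_zero_iff] at e2
  have := Nat.le_of_dvd (by omega) e2
  omega

lemma conv_gen (W : RingS0 X h p a c) (i : ZMod h) {s t u : ℕ} (h1 : s < t) (h2 : t < u)
    (h3 : u < s + h) :
    0 < orient (p (i + (s : ZMod h))) (p (i + (t : ZMod h))) (p (i + (u : ZMod h))) := by
  have := W.conv (i + (s : ZMod h)) (t - s) (u - s) (by omega) (by omega) (by omega)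
  rw [Nat.cast_sub h1.le, Nat.cast_sub (h1.trans h2).le] at this
  rwa [show i + (s : ZMod h) + ((t : ZMod h) - (s : ZMod h)) = i + (t : ZMod h) by ring,
    show i + (s : ZMod h) + ((u : ZMod h) - (s : ZMod h)) = i + (u : ZMod h) by ring] at this

lemma sort_v (W : RingS0 X h p a c) (i : ZMod h) :
    ∃ (n : ℕ) (Z : ℕ → Pt), X.card = n + 1 ∧ Srt0 X n Z ∧ Z 0 = p i ∧ Z 1 = p (i + 1) ∧
      Z n = p (i - 1) := by
  obtain ⟨n, hn⟩ : ∃ n, X.card = n + 1 :=
    ⟨X.card - 1, by have := Finset.card_pos.2 ⟨p i, W.pX i⟩; omega⟩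
  obtain ⟨Z, S, z0, z1, -, -, -, -, -, zn⟩ := ring_sort W i hn
  exact ⟨n, Z, hn, S, z0, z1, zn⟩

lemma near_left (W : RingS0 X h p a c) (i : ZMod h) {s' s t : ℕ} (h1 : s' ≤ s) (h2 : s < t)
    (h3 : t < s' + h) {z : Pt} (hz : z ∈ X)
    (hlt : orient (p (i + (s : ZMod h))) (p (i + (t : ZMod h))) z < 0) :
    orient (p (i + (s' : ZMod h))) (p (i + (t : ZMod h))) z < 0 := by
  rcases Nat.eq_or_lt_of_le h1 with rfl | h1'
  · exact hlt
  obtain ⟨n, Z, -, S, z0, -, -⟩ := sort_v W (i + (t : ZMod h))
  have e := conv_gen W i h1' h2 h3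
  rw [orient_cyc, ← z0] at e
  rw [orient_swap, ← z0] at hlt
  obtain ⟨u, hu, hu'⟩ := S.exi (W.pX (i + (s' : ZMod h)))
  obtain ⟨v, hv, hv'⟩ := S.exi (W.pX (i + (s : ZMod h)))
  obtain ⟨w, hw, rfl⟩ := S.exi hz
  rw [← hu', ← hv'] at e
  rw [← hv'] at hlt
  have a1 := (S.pos_iff hu hv).1 e
  have a2 := (S.pos_iff hv hw).1 (by linarith)
  have a3 := (S.pos_iff hu hw).2 ⟨a1.1, by omega⟩
  rw [hu', z0] at a3
  rw [orient_swap]
  linarith

lemma near_right (W : RingS0 X h p a c) (i : ZMod h) {s t t' : ℕ} (h1 : s < t) (h2 : t ≤ t')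
    (h3 : t' < s + h) {z : Pt} (hz : z ∈ X)
    (hlt : orient (p (i + (s : ZMod h))) (p (i + (t : ZMod h))) z < 0) :
    orient (p (i + (s : ZMod h))) (p (i + (t' : ZMod h))) z < 0 := by
  rcases Nat.eq_or_lt_of_le h2 with rfl | h2'
  · exact hlt
  obtain ⟨n, Z, -, S, z0, -, -⟩ := sort_v W (i + (s : ZMod h))
  have e := conv_gen W i h1 h2' h3
  rw [← z0] at e
  rw [orient_swap', ← z0] at hlt
  obtain ⟨u, hu, hu'⟩ := S.exi (W.pX (i + (t : ZMod h)))
  obtain ⟨v, hv, hv'⟩ := S.exi (W.pX (i + (t' : ZMod h)))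
  obtain ⟨w, hw, rfl⟩ := S.exi hz
  rw [← hu', ← hv'] at e
  rw [← hu'] at hlt
  have a1 := (S.pos_iff hu hv).1 e
  have a2 := (S.pos_iff hw hu).1 (by linarith)
  have a3 := (S.pos_iff hw hv).2 ⟨a2.1, by omega⟩
  rw [hv', z0] at a3
  rw [orient_swap']
  linarith

/-- The region beyond a chord is contained in the region beyond a longer chord. -/
lemma near_sub (W : RingS0 X h p a c) (i : ZMod h) {s' s t t' : ℕ} (h1 : s' ≤ s) (h2 : s < t)
    (h3 : t ≤ t') (h4 : t' < s' + h) {z : Pt} (hz : z ∈ X)
    (hlt : orient (p (i + (s : ZMod h))) (p (i + (t : ZMod h))) z < 0) :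
    orient (p (i + (s' : ZMod h))) (p (i + (t' : ZMod h))) z < 0 :=
  near_right W i (lt_of_le_of_lt h1 h2) h3 h4 hz (near_left W i h1 h2 (by omega) hz hlt)

lemma nr_succ (W : RingS0 X h p a c) (i : ZMod h) : nr X (p i) (p (i + 1)) = 0 := by
  unfold nr
  rw [Finset.card_eq_zero, Finset.filter_eq_empty_iff]
  intro z hz hlt
  by_cases h1 : z = p i
  · subst h1; simp at hlt
  by_cases h2 : z = p (i + 1)
  · subst h2; simp at hlt
  have := W.hull i z hz h1 h2
  linarith

lemma nr_two (W : RingS0 X h p a c) (i : ZMod h) : nr X (p i) (p (i + 2)) = 3 := near1 W i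

lemma nr_three (W : RingS0 X h p a c) (i : ZMod h) : nr X (p i) (p (i + 3)) = 6 := near2 W i

/-- Position of a hull vertex in the order around another one. -/
lemma pos_of (W : RingS0 X h p a c) (i : ZMod h) {n : ℕ} {Z : ℕ → Pt} (S : Srt0 X n Z)
    (z0 : Z 0 = p i) {j : ℕ} (h1 : 0 < j) (h2 : j < h) :
    Z (nr X (p i) (p (i + (j : ZMod h))) + 1) = p (i + (j : ZMod h)) ∧
      nr X (p i) (p (i + (j : ZMod h))) + 1 ≤ n := by
  have hne := pne_gen W i (j := 0) (k := j) h1 (by omega)
  rw [Nat.cast_zero, add_zero] at hne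
  apply S.idx (z := p (i + (j : ZMod h))) (W.pX _) (by rw [z0]; exact hne.symm)
  unfold nr
  congr 1
  apply Finset.filter_congr
  intro w _
  rw [z0, orient_swap', Left.neg_pos_iff]

lemma pos_of' (W : RingS0 X h p a c) (i : ZMod h) {n : ℕ} {Y : ℕ → Pt} (T : Srt0 X n Y) {k : ℕ}
    (y0 : Y 0 = p (i + (k : ZMod h))) {j : ℕ} (h1 : j < k) (h2 : k < j + h) :
    nr X (p (i + (j : ZMod h))) (p (i + (k : ZMod h))) < n ∧
      Y (n - nr X (p (i + (j : ZMod h))) (p (i + (k : ZMod h)))) = p (i + (j : ZMod h)) := by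
  have hne := pne_gen W i h1 h2
  obtain ⟨m, hm, hmz⟩ := T.exi (W.pX (i + (j : ZMod h)))
  have m0 : m ≠ 0 := by
    rintro rfl
    exact hne (hmz.symm.trans y0)
  have e1 := T.cnt_after (by omega : 1 ≤ m) hm
  have e2 : (X.filter (fun w => 0 < orient (Y 0) (Y m) w)).card =
      nr X (p (i + (j : ZMod h))) (p (i + (k : ZMod h))) := by
    unfold nr
    congr 1
    apply Finset.filter_congr
    intro w _
    rw [y0, hmz, orient_swap, Left.neg_pos_iff]
  rw [e2] at e1
  have e3 : n - nr X (p (i + (j : ZMod h))) (p (i + (k : ZMod h))) = m := by omega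
  exact ⟨by omega, by rw [e3, hmz]⟩

lemma nr_lt (W : RingS0 X h p a c) (i : ZMod h) {s t t' : ℕ} (h1 : s < t) (h2 : t < t')
    (h3 : t' < s + h) : nr X (p (i + (s : ZMod h))) (p (i + (t : ZMod h))) <
      nr X (p (i + (s : ZMod h))) (p (i + (t' : ZMod h))) := by
  apply Finset.card_lt_card
  rw [Finset.ssubset_iff_of_subset]
  · refine ⟨p (i + (t : ZMod h)), Finset.mem_filter.2 ⟨W.pX _, ?_⟩, ?_⟩
    · have := conv_gen W i h1 h2 h3
      rw [orient_swap'] at this
      linarith
    · intro hcon
      have := (Finset.mem_filter.1 hcon).2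
      simp at this
  · intro z hz
    have := Finset.mem_filter.1 hz
    exact Finset.mem_filter.2 ⟨this.1, near_right W i h1 h2.le h3 this.1 this.2⟩

lemma nr_lt' (W : RingS0 X h p a c) (i : ZMod h) {s' s t : ℕ} (h1 : s' < s) (h2 : s < t)
    (h3 : t < s' + h) : nr X (p (i + (s : ZMod h))) (p (i + (t : ZMod h))) <
      nr X (p (i + (s' : ZMod h))) (p (i + (t : ZMod h))) := by
  apply Finset.card_lt_card
  rw [Finset.ssubset_iff_of_subset]
  · refine ⟨p (i + (s : ZMod h)), Finset.mem_filter.2 ⟨W.pX _, ?_⟩, ?_⟩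
    · have := conv_gen W i h1 h2 h3
      rw [orient_swap'] at this
      linarith
    · intro hcon
      have := (Finset.mem_filter.1 hcon).2
      simp at this
  · intro z hz
    have := Finset.mem_filter.1 hz
    exact Finset.mem_filter.2 ⟨this.1, near_left W i h1.le h2 h3 this.1 this.2⟩

/-- The opposite side: all other points. -/
lemma nr_add (W : RingS0 X h p a c) (i : ZMod h) {s t : ℕ} (h1 : s < t) (h2 : t < s + h) :
    nr X (p (i + (s : ZMod h))) (p (i + (t : ZMod h))) +
      nr X (p (i + (t : ZMod h))) (p (i + (s : ZMod h))) + 2 = X.card := by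
  classical
  have hne := pne_gen W i h1 h2
  set x := p (i + (s : ZMod h)) with hx
  set y := p (i + (t : ZMod h)) with hy
  have hX : X = X.filter (fun z => orient x y z < 0) ∪ X.filter (fun z => orient y x z < 0) ∪
      {x, y} := by
    ext z
    simp only [Finset.mem_union, Finset.mem_filter, Finset.mem_insert, Finset.mem_singleton]
    constructor
    · intro hz
      by_cases e1 : z = x
      · exact Or.inr (Or.inl e1)
      by_cases e2 : z = y
      · exact Or.inr (Or.inr e2)
      left
      have := orient_ne W.gp (W.pX _) (W.pX _) hz hne (Ne.symm e2) (Ne.symm e1)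
      rw [← hx, ← hy] at this
      rcases lt_or_gt_of_ne this with h3 | h3
      · exact Or.inl ⟨hz, h3⟩
      · refine Or.inr ⟨hz, ?_⟩
        rw [orient_swap]
        linarith
    · rintro ((h3 | h3) | (rfl | rfl))
      · exact h3.1
      · exact h3.1
      · exact W.pX _
      · exact W.pX _
  have d1 : Disjoint (X.filter (fun z => orient x y z < 0))
      (X.filter (fun z => orient y x z < 0)) := by
    rw [Finset.disjoint_left]
    intro z h3 h4
    have h5 := (Finset.mem_filter.1 h3).2
    have h6 := (Finset.mem_filter.1 h4).2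
    rw [orient_swap] at h6
    linarith
  have d2 : Disjoint (X.filter (fun z => orient x y z < 0) ∪
      X.filter (fun z => orient y x z < 0)) {x, y} := by
    rw [Finset.disjoint_left]
    intro z h3 h4
    simp only [Finset.mem_union, Finset.mem_filter] at h3
    simp only [Finset.mem_insert, Finset.mem_singleton] at h4
    rcases h4 with rfl | rfl
    · rcases h3 with h3 | h3 <;> simp at h3
    · rcases h3 with h3 | h3 <;> simp at h3
  conv_rhs => rw [hX]
  rw [Finset.card_union_of_disjoint d2, Finset.card_union_of_disjoint d1,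
    Finset.card_pair hne]
  rfl

/-- The data of a closed window over the hull vertices `p i, ..., p (i + k)`: all points beyond
the chord are named. -/
structure Closed (X : Finset Pt) {h : ℕ} (p a : ZMod h → Pt) (i : ZMod h) (k M : ℕ)
    (P : ℕ → Pt) : Prop where
  frame : Frame (M + 2) P
  mem : ∀ j, j < M + 2 → P j ∈ X
  P0 : P 0 = p i
  P1 : P 1 = p (i + 1)
  P2 : P 2 = a i
  P3 : P 3 = a (i + 1)
  P4 : P 4 = p (i + 2)
  P7 : P 7 = p (i + 3)
  PV : P (M + 1) = p (i + (k : ZMod h))
  /-- positions of the hull vertices -/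
  pos : ∀ j, 0 < j → j ≤ k → nr X (p i) (p (i + (j : ZMod h))) ≤ M ∧
    P (nr X (p i) (p (i + (j : ZMod h))) + 1) = p (i + (j : ZMod h))
  far : ∀ z ∈ X, (∀ j, j < M + 2 → z ≠ P j) → 0 < orient (P 0) (P (M + 1)) z
  near : ∀ j, 0 < j → j ≤ M → orient (P 0) (P (M + 1)) (P j) < 0
  /-- numbers of points beyond the chords -/
  card : ∀ s t : ℕ, s < t → t ≤ k → ((Finset.range (M + 2)).filter
    (fun j => orient (p (i + (s : ZMod h))) (p (i + (t : ZMod h))) (P j) < 0)).card =
      nr X (p (i + (s : ZMod h))) (p (i + (t : ZMod h)))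

/-- The closed window over `k` hull edges. -/
theorem closed_window (W : RingS0 X h p a c) (i : ZMod h) {k M : ℕ} (hk4 : 4 ≤ k) (hkh : k < h)
    (hM : nr X (p i) (p (i + (k : ZMod h))) = M) :
    7 ≤ M ∧ ∃ P : ℕ → Pt, Closed X p a i k M P := by
  classical
  obtain ⟨n, hn⟩ : ∃ n, X.card = n + 1 :=
    ⟨X.card - 1, by have := Finset.card_pos.2 ⟨p i, W.pX i⟩; omega⟩
  obtain ⟨Z, S, z0, z1, z2, z3, z4, z7, hn7, zn⟩ := ring_sort W i hn
  set q := p (i + (k : ZMod h)) with hq
  have hpq : p i ≠ q := by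
    have := pne_gen W i (j := 0) (k := k) (by omega) (by omega)
    rwa [Nat.cast_zero, add_zero] at this
  obtain ⟨kq, hMn⟩ := pos_of W i S z0 (j := k) (by omega) hkh
  rw [← hq, hM] at kq hMn
  have hM7 : 7 ≤ M := by
    have h1 : 0 < orient (p i) (p (i + 3)) q := by
      have := W.conv i 3 k (by omega) (by omega) hkh
      push_cast at this
      exact this
    rw [← z0, ← z7, ← kq] at h1
    have := (S.pos_iff hn7 hMn).1 h1
    omega
  refine ⟨hM7, ?_⟩
  set X' := (Finset.range (M + 2)).image Z with hX'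
  have X'X : X' ⊆ X := by
    intro z hz
    obtain ⟨k, hk, rfl⟩ := Finset.mem_image.1 hz
    exact S.mem (by have := Finset.mem_range.1 hk; omega)
  have c3 : X'.card = (M + 1) + 1 := by
    rw [hX', Finset.card_image_of_injOn, Finset.card_range]
    intro x hx y hy hxy
    have hx' := Finset.mem_range.1 (Finset.mem_coe.1 hx)
    have hy' := Finset.mem_range.1 (Finset.mem_coe.1 hy)
    exact S.inj' (by omega) (by omega) hxy
  have m1 : p (i - 1) ≠ p (i + 1) := by
    have := pne W (i - 1) (k := 2) (by omega) (by omega)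
    push_cast at this
    rw [show i - 1 + 2 = i + 1 by ring] at this
    exact this.symm
  have hF := functional (X := X) (l := p (i - 1)) (p := p i) (r := p (i + 1)) m1
    (by
      intro z hz z1 z2
      have := W.hull (i - 1) z hz z1 (by rw [show i - 1 + 1 = i by ring]; exact z2)
      rwa [show i - 1 + 1 = i by ring] at this)
    (fun z hz z1 z2 => W.hull i z hz z1 z2)
  have memX' : ∀ j, j ≤ M + 1 → Z j ∈ X' := fun j hj =>
    Finset.mem_image_of_mem Z (Finset.mem_range.2 (by omega))
  have pX' : p i ∈ X' := by rw [← z0]; exact memX' 0 (by omega)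
  obtain ⟨P, g1, g2, g3, g4, g5⟩ := exists_sorted_at c3 (W.gp.subset X'X) pX'
    (e1 := (p (i - 1)).2 - (p (i + 1)).2) (e2 := (p (i + 1)).1 - (p (i - 1)).1)
    (fun z hz hzp => hF z (X'X hz) hzp) (by omega)
  have U : Srt0 X' (M + 1) P := ⟨g1, g3, g4⟩
  have zp : ∀ j, 1 ≤ j → j ≤ n → Z j ≠ p i := by
    intro j h1 h2; rw [← z0]; exact S.inj _ _ (by omega) (by omega) (by omega)
  have PZ : ∀ j, j ≤ M + 1 → P j = Z j := by
    intro j h2
    by_cases h0 : j = 0
    · rw [h0, g2, z0]
    have h1 : 1 ≤ j := by omega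
    have := U.idx (z := Z j) (memX' j h2) (by rw [g2]; exact zp j h1 (by omega)) (m := j - 1)
      (by
        have e1 := S.cnt_before h1 (by omega : j ≤ n)
        have e2 : X'.filter (fun w => 0 < orient (P 0) w (Z j)) =
            X.filter (fun w => 0 < orient (Z 0) w (Z j)) := by
          ext w
          rw [Finset.mem_filter, Finset.mem_filter, g2, z0]
          constructor
          · rintro ⟨h3, h4⟩
            exact ⟨X'X h3, h4⟩
          · rintro ⟨h3, h4⟩
            refine ⟨?_, h4⟩
            obtain ⟨k, hk, rfl⟩ := S.exi h3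
            rw [← z0] at h4
            have := (S.pos_iff hk (by omega)).1 h4
            exact memX' k (by omega)
        rw [e2]; omega)
    rw [Nat.sub_add_cancel h1] at this
    exact this.1
  have fr : Frame (M + 2) P :=
    { inj := fun i j hi hj hij => g3 i j hi hj hij
      gp := fun i j k hi hj hk h1 h2 h3 =>
        orient_ne (W.gp.subset X'X) (U.mem (by omega)) (U.mem (by omega)) (U.mem (by omega))
          (g3 i j hi hj h1) (g3 j k hj hk h2) (g3 i k hi hk h3)
      srt := fun i j h1 h2 h3 => g4 i j h1 h2 (by omega)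
      sig := g5 }
  have PM : P (M + 1) = q := by rw [PZ (M + 1) le_rfl, kq]
  refine ⟨P,
    { frame := fr
      mem := fun k hk => X'X (U.mem (by omega))
      P0 := g2
      P1 := by rw [PZ 1 (by omega), z1]
      P2 := by rw [PZ 2 (by omega), z2]
      P3 := by rw [PZ 3 (by omega), z3]
      P4 := by rw [PZ 4 (by omega), z4]
      P7 := by rw [PZ 7 (by omega), z7]
      PV := PM
      pos := ?_
      far := ?_
      near := ?_
      card := ?_ }⟩
  · intro j h1 h2
    have e1 : nr X (p i) (p (i + (j : ZMod h))) ≤ M := by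
      rcases Nat.eq_or_lt_of_le h2 with rfl | h3
      · exact hM.le
      · have := nr_lt W i (s := 0) h1 h3 (by omega)
        rw [Nat.cast_zero, add_zero] at this
        rw [← hM]
        exact this.le
    refine ⟨e1, ?_⟩
    obtain ⟨e2, e3⟩ := pos_of W i S z0 h1 (by omega)
    rw [PZ _ (by omega), e2]
  · intro z hz hzn
    rw [g2, PM, ← kq]
    obtain ⟨k, hk, rfl⟩ := S.exi hz
    have hkM : M + 1 < k := by
      by_contra hlt
      exact hzn k (by omega) (PZ k (by omega)).symm
    rw [← z0]
    exact S.srt _ _ (by omega) hkM hk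
  · intro j h1 h2
    have := g4 j (M + 1) h1 (by omega) le_rfl
    rw [orient_swap'] at this
    linarith
  · intro s t h1 h2
    have e1 : X.filter (fun z => orient (p (i + (s : ZMod h))) (p (i + (t : ZMod h))) z < 0) =
        ((Finset.range (M + 2)).filter
        (fun j => orient (p (i + (s : ZMod h))) (p (i + (t : ZMod h))) (P j) < 0)).image P := by
      ext z
      rw [Finset.mem_filter, Finset.mem_image]
      constructor
      · rintro ⟨h3, h4⟩
        have h5 := near_sub W i (s' := 0) (t' := k) (by omega) h1 h2 (by omega) h3 h4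
        rw [Nat.cast_zero, add_zero] at h5
        obtain ⟨m, hm, rfl⟩ := S.exi h3
        have h6 : m ≤ M + 1 := by
          by_contra h7
          have h8 := S.srt (M + 1) m (by omega) (by omega) hm
          rw [z0, kq] at h8
          linarith
        refine ⟨m, Finset.mem_filter.2 ⟨Finset.mem_range.2 (by omega), ?_⟩, PZ m h6⟩
        rw [PZ m h6]
        exact h4
      · rintro ⟨m, hm, rfl⟩
        obtain ⟨h3, h4⟩ := Finset.mem_filter.1 hm
        exact ⟨X'X (U.mem (by have := Finset.mem_range.1 h3; omega)), h4⟩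
    unfold nr
    rw [e1, Finset.card_image_of_injOn]
    intro x hx y hy hxy
    have hx' := Finset.mem_range.1 (Finset.mem_filter.1 (Finset.mem_coe.1 hx)).1
    have hy' := Finset.mem_range.1 (Finset.mem_filter.1 (Finset.mem_coe.1 hy)).1
    exact U.inj' (by omega) (by omega) hxy

open scoped Classical in
/-- The data of a two line patch over the corners `p i, ..., p (i + k)`: `N` points around `p i`,
`N2` points around `p (i + k)`; the virtual point has number `N + 1`. -/
structure TwoK (X : Finset Pt) {h : ℕ} (p a : ZMod h → Pt) (i : ZMod h) (k N N2 r : ℕ)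
    (P : ℕ → Pt) : Prop where
  frame : Frame (N + r + 3) P
  mem : ∀ j, j < N + r + 3 → j ≠ N + 1 → P j ∈ X
  virt : P (N + 1) ∉ X
  gen : ∀ x ∈ X, ∀ y ∈ X, x ≠ y → orient x y (P (N + 1)) ≠ 0
  P0 : P 0 = p i
  P1 : P 1 = p (i + 1)
  P2 : P 2 = a i
  P3 : P 3 = a (i + 1)
  P4 : P 4 = p (i + 2)
  P7 : P 7 = p (i + 3)
  PV : P (N + r + 2) = p (i + (k : ZMod h))
  inV : 0 < orient (p (i + ((k - 1 : ℕ) : ZMod h))) (P (N + r + 2)) (P (N + 1))
  far : ∀ z ∈ X, (∀ j, j < N + r + 3 → z ≠ P j) →
    0 < orient (P 0) (P (N + 1)) z ∧ 0 < orient (P (N + 1)) (P (N + r + 2)) z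
  nearL : ∀ j, N + 1 < j → j < N + r + 2 → orient (P (N + 1)) (P (N + r + 2)) (P j) < 0
  cardL : ((Finset.range (N + 1)).filter
    (fun j => orient (P (N + 1)) (P (N + r + 2)) (P j) < 0)).card + r = N2
  /-- the points around `p i` -/
  nameR : ∀ z ∈ X, orient (P 0) (P (N + 1)) z < 0 → ∃ m, 0 < m ∧ m ≤ N ∧ P m = z
  /-- the points around `p (i + k)` -/
  nameL : ∀ z ∈ X, orient (P (N + 1)) (P (N + r + 2)) z < 0 →
    ∃ m, 0 < m ∧ m < N + r + 2 ∧ m ≠ N + 1 ∧ P m = z
  posR : ∀ j, 0 < j → j ≤ k → nr X (p i) (p (i + (j : ZMod h))) < N →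
    P (nr X (p i) (p (i + (j : ZMod h))) + 1) = p (i + (j : ZMod h))
  posL : ∀ j, j < k → nr X (p (i + (j : ZMod h))) (p (i + (k : ZMod h))) < N2 →
    ∃ m, 0 < m ∧ m < N + r + 2 ∧ m ≠ N + 1 ∧ P m = p (i + (j : ZMod h)) ∧
      orient (P (N + 1)) (P (N + r + 2)) (P m) < 0
  /-- completely known chords -/
  chR : ∀ t, 0 < t → t ≤ k → nr X (p i) (p (i + (t : ZMod h))) ≤ N →
    ∀ z ∈ X, orient (p i) (p (i + (t : ZMod h))) z < 0 → ∃ m, 0 < m ∧ m ≤ N ∧ P m = z
  chL : ∀ s, s < k → nr X (p (i + (s : ZMod h))) (p (i + (k : ZMod h))) ≤ N2 →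
    ∀ z ∈ X, orient (p (i + (s : ZMod h))) (p (i + (k : ZMod h))) z < 0 →
      ∃ m, 0 < m ∧ m < N + r + 2 ∧ m ≠ N + 1 ∧ P m = z

open scoped Classical in
theorem two_line_k (W : RingS0 X h p a c) (i : ZMod h) {k N N2 : ℕ} (hk4 : 4 ≤ k) (hkh : k < h)
    (hN : 7 ≤ N) (hN2 : 1 ≤ N2) (hM : N ≤ nr X (p i) (p (i + (k : ZMod h))))
    (hM2 : N2 ≤ nr X (p i) (p (i + (k : ZMod h)))) {j0 : ℕ} (hj0 : 0 < j0) (hj0k : j0 < k)
    (hy : nr X (p i) (p (i + (j0 : ZMod h))) < N)
    (hy2 : nr X (p (i + (j0 : ZMod h))) (p (i + (k : ZMod h))) < N2) :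
    ∃ (r : ℕ) (P : ℕ → Pt), r ≤ N2 ∧ TwoK X p a i k N N2 r P := by
  obtain ⟨n, hn⟩ : ∃ n, X.card = n + 1 :=
    ⟨X.card - 1, by have := Finset.card_pos.2 ⟨p i, W.pX i⟩; omega⟩
  obtain ⟨Z, S, z0, z1, z2, z3, z4, z7, hn7, zn⟩ := ring_sort W i hn
  obtain ⟨Y, T, y0, -, -, -, -, -, -, yn⟩ := ring_sort W (i + (k : ZMod h)) hn
  have ek1 : i + (k : ZMod h) - 1 = i + ((k - 1 : ℕ) : ZMod h) := by
    rw [Nat.cast_sub (by omega : 1 ≤ k), Nat.cast_one]; ring
  rw [ek1] at yn
  set M := nr X (p i) (p (i + (k : ZMod h))) with hMd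
  set q := p (i + (k : ZMod h)) with hq
  have hpq : p i ≠ q := by
    have := pne_gen W i (j := 0) (k := k) (by omega) (by omega)
    rwa [Nat.cast_zero, add_zero] at this
  obtain ⟨kq, hMn⟩ := pos_of W i S z0 (j := k) (by omega) hkh
  rw [← hq, ← hMd] at kq hMn
  have yp := fun (j : ℕ) (h1 : j < k) => pos_of' W i T y0 (j := j) h1 (by omega)
  obtain ⟨hMn', yp0⟩ := yp 0 (by omega)
  rw [Nat.cast_zero, add_zero, ← hq, ← hMd] at hMn' yp0
  set y := p (i + (j0 : ZMod h)) with hyd
  obtain ⟨zy, zy'⟩ := pos_of W i S z0 (j := j0) hj0 (by omega)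
  rw [← hyd] at zy zy'
  obtain ⟨yy', yy⟩ := yp j0 hj0k
  rw [← hq, ← hyd] at yy yy'
  set ν := nr X (p i) y with hν
  set ν2 := nr X y q with hν2
  -- the boundary points
  have sAB : 0 < orient (p i) (Z N) (Z (N + 1)) := by
    rw [← z0]; exact S.srt _ _ (by omega) (by omega) (by omega)
  have sCD : 0 < orient q (Y (n - N2)) (Y (n - N2 + 1)) := by
    rw [← y0]; exact T.srt _ _ (by omega) (by omega) (by omega)
  have sge : ∀ j k, 1 ≤ j → j ≤ k → k ≤ n → 0 ≤ orient (p i) (Z j) (Z k) := by
    intro j k h1 h2 h3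
    rcases Nat.eq_or_lt_of_le h2 with h4 | h4
    · rw [h4]; simp
    · rw [← z0]; exact (S.srt _ _ h1 h4 h3).le
  have tge : ∀ j k, 1 ≤ j → j ≤ k → k ≤ n → 0 ≤ orient q (Y j) (Y k) := by
    intro j k h1 h2 h3
    rcases Nat.eq_or_lt_of_le h2 with h4 | h4
    · rw [h4]; simp
    · rw [← y0]; exact (T.srt _ _ h1 h4 h3).le
  have sgt : ∀ j k, 1 ≤ j → j < k → k ≤ n → 0 < orient (p i) (Z j) (Z k) := by
    intro j k h1 h2 h3
    rw [← z0]; exact S.srt _ _ h1 h2 h3
  have tgt : ∀ j k, 1 ≤ j → j < k → k ≤ n → 0 < orient q (Y j) (Y k) := by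
    intro j k h1 h2 h3
    rw [← y0]; exact T.srt _ _ h1 h2 h3
  obtain ⟨o0, c1, c2, c3, c4⟩ := cross (y := y) sAB sCD
    (by rw [← zy]; exact sge _ _ (by omega) (by omega) (by omega))
    (by rw [← zy]; exact sgt _ _ (by omega) (by omega) (by omega))
    (by rw [← yy]; exact tge _ _ (by omega) (by omega) (by omega))
    (by rw [← yy]; exact tgt _ _ (by omega) (by omega) (by omega))
    (by rw [← kq]; exact sge _ _ (by omega) (by omega) (by omega))
    (by rw [← kq]; exact sgt _ _ (by omega) (by omega) (by omega))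
    (by rw [← yp0]; exact tge _ _ (by omega) (by omega) (by omega))
    (by rw [← yp0]; exact tgt _ _ (by omega) (by omega) (by omega))
    (by
      have := conv_gen W i (s := 0) (t := j0) (u := k) hj0 hj0k (by omega)
      rwa [Nat.cast_zero, add_zero] at this)
  obtain ⟨o, ho1, ho2⟩ := generic
    {(p i, Z N), (Z (N + 1), p i), (q, Y (n - N2)), (Y (n - N2 + 1), q)} X.offDiag
    (fun s hs => (Finset.mem_offDiag.1 hs).2.2) (o := o0)
    (by
      intro s hs
      simp only [Finset.mem_insert, Finset.mem_singleton] at hs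
      rcases hs with rfl | rfl | rfl | rfl
      · exact c1
      · show 0 < orient (Z (N + 1)) (p i) o0
        rw [orient_cyc] at c2
        rw [← orient_cyc] at c2
        rw [← orient_cyc]
        exact c2
      · exact c3
      · show 0 < orient (Y (n - N2 + 1)) q o0
        rw [← orient_cyc]
        exact c4)
  have d1 : 0 < orient (p i) (Z N) o := ho1 (p i, Z N) (by simp)
  have d2 : 0 < orient (p i) o (Z (N + 1)) := by
    rw [orient_cyc]; exact ho1 (Z (N + 1), p i) (by simp)
  have d3 : 0 < orient q (Y (n - N2)) o := ho1 (q, Y (n - N2)) (by simp)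
  have d4 : 0 < orient q o (Y (n - N2 + 1)) := by
    rw [orient_cyc]; exact ho1 (Y (n - N2 + 1), q) (by simp)
  clear ho1 c1 c2 c3 c4 o0
  have zR : ∀ j, 1 ≤ j → j ≤ N → 0 < orient (p i) (Z j) o := fun j h1 h2 =>
    (between sAB d1 d2).1 (sge j N h1 h2 (by omega)) (sgt j (N + 1) h1 (by omega) (by omega))
  have zF : ∀ j, N + 1 ≤ j → j ≤ n → 0 < orient (p i) o (Z j) := fun j h1 h2 =>
    (between sAB d1 d2).2 (sgt N j (by omega) (by omega) h2) (sge (N + 1) j (by omega) h1 h2)
  have yF : ∀ j, 1 ≤ j → j ≤ n - N2 → 0 < orient q (Y j) o := fun j h1 h2 =>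
    (between sCD d3 d4).1 (tge j (n - N2) h1 h2 (by omega))
      (tgt j (n - N2 + 1) h1 (by omega) (by omega))
  have yL : ∀ j, n - N2 + 1 ≤ j → j ≤ n → 0 < orient q o (Y j) := fun j h1 h2 =>
    (between sCD d3 d4).2 (tgt (n - N2) j (by omega) (by omega) h2)
      (tge (n - N2 + 1) j (by omega) h1 h2)
  have opi : o ≠ p i := by rintro rfl; simp at d1
  have oq : o ≠ q := by rintro rfl; simp at d3
  have oX : o ∉ X := by
    intro h
    have := ho2 (p i, o) (Finset.mem_offDiag.2 ⟨W.pX i, h, opi.symm⟩)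
    simp at this
  have gpo : GeneralPosition (insert o X) := gp_insert W.gp
    (fun x hx y hy hxy => ho2 (x, y) (Finset.mem_offDiag.2 ⟨hx, hy, hxy⟩))
  set R := X.filter (fun z => 0 < orient (p i) z o) with hR
  set L := X.filter (fun z => 0 < orient q o z) with hL
  have memR : ∀ j, j ≤ n → (Z j ∈ R ↔ 1 ≤ j ∧ j ≤ N) := by
    intro j hj
    rw [hR, Finset.mem_filter]
    constructor
    · rintro ⟨-, h2⟩
      constructor
      · by_contra h3
        have : j = 0 := by omega
        rw [this, z0] at h2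
        simp at h2
      · by_contra h3
        have := zF j (by omega) hj
        rw [orient_swap'] at this
        linarith
    · rintro ⟨h1, h2⟩
      exact ⟨S.mem hj, zR j h1 h2⟩
  have memL : ∀ j, j ≤ n → (Y j ∈ L ↔ n - N2 + 1 ≤ j) := by
    intro j hj
    rw [hL, Finset.mem_filter]
    constructor
    · rintro ⟨-, h2⟩
      by_contra h3
      by_cases h4 : j = 0
      · rw [h4, y0] at h2
        simp at h2
      · have := yF j (by omega) (by omega)
        rw [orient_swap'] at this
        linarith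
    · intro h1
      exact ⟨T.mem hj, yL j h1 hj⟩
  have Rc : R.card = N := by
    have h1 : R = (Finset.Icc 1 N).image Z := by
      ext z
      rw [Finset.mem_image]
      constructor
      · intro hz
        obtain ⟨k, hk, rfl⟩ := S.exi (Finset.mem_filter.1 hz).1
        exact ⟨k, Finset.mem_Icc.2 ((memR k hk).1 hz), rfl⟩
      · rintro ⟨k, hk, rfl⟩
        have hk' := Finset.mem_Icc.1 hk
        exact (memR k (by omega)).2 hk'
    rw [h1, Finset.card_image_of_injOn, Nat.card_Icc]
    · omega
    · intro x hx y hy hxy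
      have hx' := Finset.mem_Icc.1 (Finset.mem_coe.1 hx)
      have hy' := Finset.mem_Icc.1 (Finset.mem_coe.1 hy)
      exact S.inj' (by omega) (by omega) hxy
  have Lc : L.card = N2 := by
    have h1 : L = (Finset.Icc (n - N2 + 1) n).image Y := by
      ext z
      rw [Finset.mem_image]
      constructor
      · intro hz
        obtain ⟨k, hk, rfl⟩ := T.exi (Finset.mem_filter.1 hz).1
        exact ⟨k, Finset.mem_Icc.2 ⟨(memL k hk).1 hz, hk⟩, rfl⟩
      · rintro ⟨k, hk, rfl⟩
        have hk' := Finset.mem_Icc.1 hk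
        exact (memL k (by omega)).2 hk'.1
    rw [h1, Finset.card_image_of_injOn, Nat.card_Icc]
    · omega
    · intro x hx y hy hxy
      have hx' := Finset.mem_Icc.1 (Finset.mem_coe.1 hx)
      have hy' := Finset.mem_Icc.1 (Finset.mem_coe.1 hy)
      exact T.inj' (by omega) (by omega) hxy
  have pR : p i ∉ R := by rw [← z0, memR 0 (by omega)]; omega
  have pL : p i ∉ L := by rw [← yp0, memL (n - M) (by omega)]; omega
  have qR : q ∉ R := by rw [← kq, memR (M + 1) (by omega)]; omega
  have qL : q ∉ L := by rw [← y0, memL 0 (by omega)]; omega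
  have RX : R ⊆ X := Finset.filter_subset _ _
  have LX : L ⊆ X := Finset.filter_subset _ _
  have oRL : o ∉ R ∪ L := fun h => oX (Finset.union_subset RX LX h)
  set r := (L \ R).card with hr
  have RLc : (R ∪ L).card = N + r := by
    rw [← Finset.union_sdiff_self_eq_union, Finset.card_union_of_disjoint Finset.disjoint_sdiff, Rc]
  have rN : r ≤ N2 := by
    rw [hr, ← Lc]; exact Finset.card_le_card Finset.sdiff_subset
  set X' := insert o (insert q (insert (p i) (R ∪ L))) with hX'
  have c1 : (insert (p i) (R ∪ L)).card = N + r + 1 := by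
    rw [Finset.card_insert_of_notMem (by rw [Finset.mem_union, not_or]; exact ⟨pR, pL⟩), RLc]
  have c2 : (insert q (insert (p i) (R ∪ L))).card = N + r + 2 := by
    rw [Finset.card_insert_of_notMem (by
      rw [Finset.mem_insert, Finset.mem_union, not_or, not_or]; exact ⟨hpq.symm, qR, qL⟩), c1]
  have c3 : X'.card = (N + r + 2) + 1 := by
    rw [hX', Finset.card_insert_of_notMem (by
      rw [Finset.mem_insert, Finset.mem_insert, not_or, not_or]; exact ⟨oq, opi, oRL⟩), c2]
  have X'o : X' ⊆ insert o X := by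
    rw [hX']
    apply Finset.insert_subset_insert
    intro z hz
    rcases Finset.mem_insert.1 hz with rfl | hz
    · exact W.pX _
    · rcases Finset.mem_insert.1 hz with rfl | hz
      · exact W.pX _
      · exact Finset.union_subset RX LX hz
  have gpX' : GeneralPosition X' := gpo.subset X'o
  have pX' : p i ∈ X' := by
    rw [hX']; exact Finset.mem_insert_of_mem (Finset.mem_insert_of_mem (Finset.mem_insert_self _ _))
  have qX' : q ∈ X' := by
    rw [hX']; exact Finset.mem_insert_of_mem (Finset.mem_insert_self _ _)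
  have oX' : o ∈ X' := by rw [hX']; exact Finset.mem_insert_self _ _
  have RX' : ∀ z ∈ R, z ∈ X' := fun z hz => by
    rw [hX']
    exact Finset.mem_insert_of_mem (Finset.mem_insert_of_mem (Finset.mem_insert_of_mem
      (Finset.mem_union_left _ hz)))
  have LX' : ∀ z ∈ L, z ∈ X' := fun z hz => by
    rw [hX']
    exact Finset.mem_insert_of_mem (Finset.mem_insert_of_mem (Finset.mem_insert_of_mem
      (Finset.mem_union_right _ hz)))
  have cases' : ∀ z ∈ X', z = o ∨ z = q ∨ z = p i ∨ z ∈ R ∨ z ∈ L := by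
    intro z hz
    rw [hX'] at hz
    simp only [Finset.mem_insert, Finset.mem_union] at hz
    exact hz
  have m1 : p (i - 1) ≠ p (i + 1) := by
    have := pne W (i - 1) (k := 2) (by omega) (by omega)
    push_cast at this
    rw [show i - 1 + 2 = i + 1 by ring] at this
    exact this.symm
  have hF := functional (X := X) (l := p (i - 1)) (p := p i) (r := p (i + 1)) m1
    (by
      intro z hz z1 z2
      have := W.hull (i - 1) z hz z1 (by rw [show i - 1 + 1 = i by ring]; exact z2)
      rwa [show i - 1 + 1 = i by ring] at this)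
    (fun z hz z1 z2 => W.hull i z hz z1 z2)
  have zp : ∀ j, 1 ≤ j → j ≤ n → Z j ≠ p i := by
    intro j h1 h2; rw [← z0]; exact S.inj _ _ (by omega) (by omega) (by omega)
  obtain ⟨P, g1, g2, g3, g4, g5⟩ := exists_sorted_at c3 gpX' pX'
    (e1 := (p (i - 1)).2 - (p (i + 1)).2) (e2 := (p (i + 1)).1 - (p (i - 1)).1)
    (by
      intro z hz hzp
      by_cases hzo : z = o
      · rw [hzo]
        have a1 := hF (Z N) (S.mem (by omega)) (zp _ (by omega) (by omega))
        have a2 := hF (Z (N + 1)) (S.mem (by omega)) (zp _ (by omega) (by omega))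
        set e1 := (p (i - 1)).2 - (p (i + 1)).2
        set e2 := (p (i + 1)).1 - (p (i - 1)).1
        have key : (e1 * (o.1 - (p i).1) + e2 * (o.2 - (p i).2)) *
            orient (p i) (Z N) (Z (N + 1)) =
            (e1 * ((Z N).1 - (p i).1) + e2 * ((Z N).2 - (p i).2)) *
              orient (p i) o (Z (N + 1)) +
            (e1 * ((Z (N + 1)).1 - (p i).1) + e2 * ((Z (N + 1)).2 - (p i).2)) *
              orient (p i) (Z N) o := by unfold orient; ring
        have : 0 < (e1 * (o.1 - (p i).1) + e2 * (o.2 - (p i).2)) *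
            orient (p i) (Z N) (Z (N + 1)) := by
          rw [key]
          have := mul_pos a1 d2
          have := mul_pos a2 d1
          linarith
        exact (pos_iff_pos_of_mul_pos this).2 sAB
      · exact hF z ((Finset.mem_insert.1 (X'o hz)).resolve_left hzo) hzp) (by omega)
  have U : Srt0 X' (N + r + 2) P := ⟨g1, g3, g4⟩
  -- P j = Z j for j ≤ N
  have PZ : ∀ j, 1 ≤ j → j ≤ N → P j = Z j := by
    intro j h1 h2
    have := U.idx (z := Z j) (RX' _ ((memR j (by omega)).2 ⟨h1, h2⟩))
      (by rw [g2]; exact zp j h1 (by omega)) (m := j - 1)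
      (by
        have e1 := S.cnt_before h1 (by omega : j ≤ n)
        have e2 : X'.filter (fun w => 0 < orient (P 0) w (Z j)) =
            X.filter (fun w => 0 < orient (Z 0) w (Z j)) := by
          ext w
          rw [Finset.mem_filter, Finset.mem_filter, g2, z0]
          constructor
          · rintro ⟨h3, h4⟩
            refine ⟨?_, h4⟩
            rcases Finset.mem_insert.1 (X'o h3) with rfl | h5
            · have := zR j h1 h2
              rw [orient_swap'] at this
              linarith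
            · exact h5
          · rintro ⟨h3, h4⟩
            refine ⟨?_, h4⟩
            obtain ⟨k, hk, rfl⟩ := S.exi h3
            rw [← z0] at h4
            have := (S.pos_iff hk (by omega)).1 h4
            exact RX' _ ((memR k hk).2 ⟨this.1, by omega⟩)
        rw [e2]; omega)
    rw [Nat.sub_add_cancel h1] at this
    exact this.1
  have Po : P (N + 1) = o := by
    refine (U.idx (z := o) oX' (by rw [g2]; exact opi) (m := N) ?_).1
    rw [← Rc]
    congr 1
    ext w
    rw [Finset.mem_filter, g2]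
    constructor
    · rintro ⟨h3, h4⟩
      have hw : w ∈ X := by
        rcases Finset.mem_insert.1 (X'o h3) with rfl | h5
        · simp at h4
        · exact h5
      exact Finset.mem_filter.2 ⟨hw, h4⟩
    · intro hw
      exact ⟨RX' _ hw, (Finset.mem_filter.1 hw).2⟩
  have pq : 0 < orient (p i) o q := by rw [← kq]; exact zF _ (by omega) hMn
  have Pq : P (N + r + 2) = q := by
    refine (U.idx (z := q) qX' (by rw [g2]; exact hpq.symm) (m := N + r + 1) ?_).1
    have e1 : X'.filter (fun w => 0 < orient (P 0) w q) = (X'.erase q).erase (p i) := by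
      ext w
      rw [Finset.mem_filter, g2, Finset.mem_erase, Finset.mem_erase]
      constructor
      · rintro ⟨h3, h4⟩
        refine ⟨?_, ?_, h3⟩
        · rintro rfl; simp at h4
        · rintro rfl; simp at h4
      · rintro ⟨h3, h4, h5⟩
        refine ⟨h5, ?_⟩
        rcases cases' w h5 with rfl | rfl | rfl | h6 | h6
        · exact pq
        · exact absurd rfl h4
        · exact absurd rfl h3
        · obtain ⟨k, hk, rfl⟩ := S.exi (RX h6)
          have := (memR k hk).1 h6
          rw [← kq]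
          exact sgt _ _ this.1 (by omega) hMn
        · obtain ⟨k, hk, rfl⟩ := T.exi (LX h6)
          have := (memL k hk).1 h6
          rw [orient_cyc, ← yp0]
          exact tgt _ _ (by omega) (by omega) hk
    rw [e1, Finset.card_erase_of_mem (Finset.mem_erase.2 ⟨hpq, pX'⟩),
      Finset.card_erase_of_mem qX', c3]
    omega
  have Pmem : ∀ k, k < N + r + 3 → P k ∈ X' := fun k hk => U.mem (by omega)
  have PX : ∀ k, k < N + r + 3 → k ≠ N + 1 → P k ∈ X := by
    intro k hk hk1
    rcases Finset.mem_insert.1 (X'o (Pmem k hk)) with h5 | h5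
    · exact absurd (U.inj' (by omega) (by omega) (h5.trans Po.symm)) hk1
    · exact h5
  have fr : Frame (N + r + 3) P :=
    { inj := fun i j hi hj hij => g3 i j hi hj hij
      gp := fun i j k hi hj hk h1 h2 h3 =>
        orient_ne gpX' (Pmem i hi) (Pmem j hj) (Pmem k hk) (g3 i j hi hj h1) (g3 j k hj hk h2)
          (g3 i k hi hk h3)
      srt := fun i j h1 h2 h3 => g4 i j h1 h2 (by omega)
      sig := g5 }
  -- naming of the points of `R` and `L`
  have nmR : ∀ z ∈ R, ∃ m, 0 < m ∧ m ≤ N ∧ P m = z := by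
    intro z hz
    obtain ⟨m, hm, rfl⟩ := S.exi (RX hz)
    have := (memR m hm).1 hz
    exact ⟨m, by omega, this.2, PZ m this.1 this.2⟩
  have nmL : ∀ z ∈ L, ∃ m, 0 < m ∧ m < N + r + 2 ∧ m ≠ N + 1 ∧ P m = z := by
    intro z hz
    obtain ⟨m, hm, hmz⟩ := U.exi (LX' z hz)
    refine ⟨m, ?_, ?_, ?_, hmz⟩
    · rcases Nat.eq_zero_or_pos m with rfl | h1
      · exact absurd (by rw [← g2, hmz]; exact hz) pL
      · exact h1
    · have : m ≠ N + r + 2 := by
        rintro rfl
        exact qL (by rw [← Pq, hmz]; exact hz)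
      omega
    · rintro rfl
      exact oX (by rw [← Po, hmz]; exact LX hz)
  have vR : ∀ z ∈ X, orient (p i) o z < 0 → z ∈ R := by
    intro z hz h1
    refine Finset.mem_filter.2 ⟨hz, ?_⟩
    rw [orient_swap']
    linarith
  have vL : ∀ z ∈ X, orient o q z < 0 → z ∈ L := by
    intro z hz h1
    refine Finset.mem_filter.2 ⟨hz, ?_⟩
    rw [orient_swap]
    linarith
  refine ⟨r, P, rN,
    { frame := fr
      mem := PX
      virt := by rw [Po]; exact oX
      gen := fun x hx y hy hxy => by
        rw [Po]; exact ho2 (x, y) (Finset.mem_offDiag.2 ⟨hx, hy, hxy⟩)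
      P0 := g2
      P1 := by rw [PZ 1 (by omega) (by omega), z1]
      P2 := by rw [PZ 2 (by omega) (by omega), z2]
      P3 := by rw [PZ 3 (by omega) (by omega), z3]
      P4 := by rw [PZ 4 (by omega) (by omega), z4]
      P7 := by rw [PZ 7 (by omega) (by omega), z7]
      PV := Pq
      inV := ?_
      far := ?_
      nearL := ?_
      cardL := ?_
      nameR := ?_
      nameL := ?_
      posR := ?_
      posL := ?_
      chR := ?_
      chL := ?_ }⟩
  · rw [Pq, Po, orient_cyc, ← yn, orient_cyc]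
    exact yL n (by omega) le_rfl
  · intro z hz hzn
    rw [g2, Po, Pq]
    have hz' : z ∉ X' := by
      intro h
      obtain ⟨k, hk, hkz⟩ := U.exi h
      exact hzn k (by omega) hkz.symm
    have u1 : z ≠ p i := by rintro rfl; exact hz' pX'
    have u2 : z ≠ q := by rintro rfl; exact hz' qX'
    constructor
    · obtain ⟨k, hk, rfl⟩ := S.exi hz
      have k0 : k ≠ 0 := by rintro rfl; exact u1 z0
      have kR : ¬ (1 ≤ k ∧ k ≤ N) := fun h => hz' (RX' _ ((memR k hk).2 h))
      exact zF k (by omega) hk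
    · obtain ⟨k, hk, rfl⟩ := T.exi hz
      have k0 : k ≠ 0 := by rintro rfl; exact u2 y0
      have kL : ¬ (n - N2 + 1 ≤ k) := fun h => hz' (LX' _ ((memL k hk).2 h))
      have := yF k (by omega) (by omega)
      rw [orient_cyc, orient_cyc]
      exact this
  · intro k hk1 hk2
    rw [Po, Pq]
    have h1 := Pmem k (by omega)
    have ko : 0 < orient (p i) o (P k) := by
      rw [← g2, ← Po]; exact g4 _ _ (by omega) hk1 (by omega)
    rcases cases' _ h1 with h2 | h2 | h2 | h2 | h2
    · exact absurd (U.inj' (by omega) (by omega) (h2.trans Po.symm)) (by omega)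
    · exact absurd (U.inj' (by omega) (by omega) (h2.trans Pq.symm)) (by omega)
    · exact absurd (U.inj' (by omega) (by omega) (h2.trans g2.symm)) (by omega)
    · have := (Finset.mem_filter.1 h2).2
      rw [orient_swap'] at this
      linarith
    · have := (Finset.mem_filter.1 h2).2
      rw [orient_swap]
      linarith
  · rw [Po, Pq]
    have e1 : ((Finset.range (N + 1)).filter (fun k => orient o q (P k) < 0)).image P = L ∩ R := by
      ext z
      rw [Finset.mem_image, Finset.mem_inter]
      constructor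
      · rintro ⟨k, hk, rfl⟩
        obtain ⟨h1, h2⟩ := Finset.mem_filter.1 hk
        have h1' := Finset.mem_range.1 h1
        have hL' : P k ∈ L := vL _ (PX k (by omega) (by omega)) h2
        have k0 : k ≠ 0 := by
          rintro rfl
          exact pL (by rw [← g2]; exact hL')
        refine ⟨hL', ?_⟩
        rw [PZ k (by omega) (by omega)]
        exact (memR k (by omega)).2 ⟨by omega, by omega⟩
      · rintro ⟨h1, h2⟩
        obtain ⟨k, hk, rfl⟩ := S.exi (RX h2)
        have h3 := (memR k hk).1 h2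
        refine ⟨k, Finset.mem_filter.2 ⟨Finset.mem_range.2 (by omega), ?_⟩, PZ k h3.1 h3.2⟩
        rw [PZ k h3.1 h3.2]
        have := (Finset.mem_filter.1 h1).2
        rw [orient_swap]
        linarith
    have e2 : ((Finset.range (N + 1)).filter (fun k => orient o q (P k) < 0)).card =
        (L ∩ R).card := by
      rw [← e1, Finset.card_image_of_injOn]
      intro x hx y hy hxy
      have hx' := Finset.mem_range.1 (Finset.mem_filter.1 (Finset.mem_coe.1 hx)).1
      have hy' := Finset.mem_range.1 (Finset.mem_filter.1 (Finset.mem_coe.1 hy)).1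
      exact U.inj' (by omega) (by omega) hxy
    rw [e2, hr, add_comm, Finset.card_sdiff_add_card_inter, Lc]
  · intro z hz h1
    rw [g2, Po] at h1
    exact nmR z (vR z hz h1)
  · intro z hz h1
    rw [Po, Pq] at h1
    exact nmL z (vL z hz h1)
  · intro j h1 h2 h3
    obtain ⟨e1, e2⟩ := pos_of W i S z0 (j := j) h1 (by omega)
    rw [PZ _ (by omega) (by omega), e1]
  · intro j h1 h2
    obtain ⟨e1, e2⟩ := yp j h1
    have h3 : p (i + (j : ZMod h)) ∈ L := by
      rw [← e2, memL _ (by omega)]
      omega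
    obtain ⟨m, m1, m2, m3, m4⟩ := nmL _ h3
    refine ⟨m, m1, m2, m3, m4, ?_⟩
    rw [Po, Pq, m4]
    have := (Finset.mem_filter.1 h3).2
    rw [orient_swap]
    linarith
  · intro t h1 h2 h3 z hz h4
    apply nmR
    obtain ⟨e1, e2⟩ := pos_of W i S z0 (j := t) h1 (by omega)
    obtain ⟨m, hm, rfl⟩ := S.exi hz
    rw [memR m hm]
    have h5 : 0 < orient (Z 0) (Z m) (Z (nr X (p i) (p (i + (t : ZMod h))) + 1)) := by
      rw [z0, e1, orient_swap']; linarith
    have := (S.pos_iff hm e2).1 h5
    omega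
  · intro s h1 h2 z hz h4
    apply nmL
    obtain ⟨e1, e2⟩ := yp s h1
    obtain ⟨m, hm, rfl⟩ := T.exi hz
    rw [memL m hm]
    rw [← hq] at h2 h4
    have h5 : 0 < orient (Y 0) (Y (n - nr X (p (i + (s : ZMod h))) q)) (Y m) := by
      rw [y0, e2, orient_swap]; linarith
    have := (T.pos_iff (by omega) hm).1 h5
    omega

open scoped Classical in
/-- Upper bound for the number of named points beyond a line. -/
lemma TwoK.card_le {i : ZMod h} {k N N2 r : ℕ} {P : ℕ → Pt} (D : TwoK X p a i k N N2 r P)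
    (x y : Pt) : ((Finset.range (N + r + 3)).filter
      (fun j => j ≠ N + 1 ∧ orient x y (P j) < 0)).card ≤ nr X x y := by
  unfold nr
  rw [← Finset.card_image_of_injOn (f := P) (s := (Finset.range (N + r + 3)).filter
      (fun j => j ≠ N + 1 ∧ orient x y (P j) < 0))]
  · apply Finset.card_le_card
    intro z hz
    obtain ⟨j, hj, rfl⟩ := Finset.mem_image.1 hz
    obtain ⟨h1, h2, h3⟩ := Finset.mem_filter.1 hj
    exact Finset.mem_filter.2 ⟨D.mem j (Finset.mem_range.1 h1) h2, h3⟩
  · intro j hj k hk hjk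
    have hj' := Finset.mem_range.1 (Finset.mem_filter.1 (Finset.mem_coe.1 hj)).1
    have hk' := Finset.mem_range.1 (Finset.mem_filter.1 (Finset.mem_coe.1 hk)).1
    by_contra hne
    exact D.frame.inj j k hj' hk' hne hjk

open scoped Classical in
/-- The number of points beyond a line all of whose points are named. -/
lemma TwoK.card_eq {i : ZMod h} {k N N2 r : ℕ} {P : ℕ → Pt} (D : TwoK X p a i k N N2 r P)
    {x y : Pt} (hnm : ∀ z ∈ X, orient x y z < 0 → ∃ m, m < N + r + 3 ∧ m ≠ N + 1 ∧ P m = z) :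
    ((Finset.range (N + r + 3)).filter
      (fun j => j ≠ N + 1 ∧ orient x y (P j) < 0)).card = nr X x y := by
  apply le_antisymm (D.card_le x y)
  unfold nr
  refine (Finset.card_le_card (t := ((Finset.range (N + r + 3)).filter
      (fun j => j ≠ N + 1 ∧ orient x y (P j) < 0)).image P) ?_).trans Finset.card_image_le
  intro z hz
  obtain ⟨h1, h2⟩ := Finset.mem_filter.1 hz
  obtain ⟨m, m1, m2, rfl⟩ := hnm z h1 h2
  exact Finset.mem_image.2 ⟨m, Finset.mem_filter.2 ⟨Finset.mem_range.2 m1, m2, h2⟩, rfl⟩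

/-- Chords whose far points are all named. -/
lemma TwoK.name (W : RingS0 X h p a c) {i : ZMod h} {k N N2 r : ℕ} {P : ℕ → Pt}
    (D : TwoK X p a i k N N2 r P) (hkh : k < h) {s t : ℕ} (hst : s < t) (htk : t ≤ k)
    (hc : nr X (p i) (p (i + (t : ZMod h))) ≤ N ∨
      nr X (p (i + (s : ZMod h))) (p (i + (k : ZMod h))) ≤ N2 ∨
      0 ≤ orient (p (i + (s : ZMod h))) (p (i + (t : ZMod h))) (P (N + 1))) :
    ∀ z ∈ X, orient (p (i + (s : ZMod h))) (p (i + (t : ZMod h))) z < 0 →
      ∃ m, 0 < m ∧ m < N + r + 2 ∧ m ≠ N + 1 ∧ P m = z := by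
  intro z hz h1
  rcases hc with h2 | h2 | h2
  · have h3 := near_left W i (s' := 0) (Nat.zero_le s) hst (by omega) hz h1
    rw [Nat.cast_zero, add_zero] at h3
    obtain ⟨m, m1, m2, m3⟩ := D.chR t (by omega) htk h2 z hz h3
    exact ⟨m, m1, by omega, by omega, m3⟩
  · exact D.chL s (by omega) h2 z hz (near_right W i hst htk (by omega) hz h1)
  · by_contra hcon
    push Not at hcon
    have h3 := near_sub W i (s' := 0) (Nat.zero_le s) hst htk (by omega) hz h1
    rw [Nat.cast_zero, add_zero] at h3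
    -- `z` is one of the ends or unnamed
    have hz0 : z ≠ p i := by rintro rfl; simp at h3
    have hzk : z ≠ p (i + (k : ZMod h)) := by rintro rfl; simp at h3
    have hun : ∀ j, j < N + r + 3 → z ≠ P j := by
      intro j hj e
      by_cases j0 : j = 0
      · exact hz0 (by rw [e, j0, D.P0])
      by_cases jV : j = N + r + 2
      · exact hzk (by rw [e, jV, D.PV])
      by_cases jo : j = N + 1
      · exact D.virt (by rw [← jo, ← e]; exact hz)
      exact hcon j (by omega) (by omega) jo e.symm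
    obtain ⟨f1, f2⟩ := D.far z hz hun
    rw [D.P0] at f1
    rw [D.PV] at f2
    set o := P (N + 1) with ho
    set q := p (i + (k : ZMod h)) with hq
    set x := p (i + (s : ZMod h)) with hx
    set y := p (i + (t : ZMod h)) with hy
    have e0 : 0 ≤ orient x y (p i) := by
      rcases Nat.eq_zero_or_pos s with h5 | h5
      · rw [hx, h5, Nat.cast_zero, add_zero]; simp
      · have := conv_gen W i (s := 0) h5 hst (by omega)
        rw [Nat.cast_zero, add_zero] at this
        rw [orient_cyc]
        exact this.le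
    have ek : 0 ≤ orient x y q := by
      rcases Nat.eq_or_lt_of_le htk with h5 | h5
      · rw [hy, hq, h5]; simp
      · exact (conv_gen W i hst h5 (by omega)).le
    -- barycentric coordinates of `z` with respect to `p i, o, q`
    have key : orient (p i) o q * orient x y z =
        orient o q z * orient x y (p i) + orient (p i) o z * orient x y q -
          orient (p i) q z * orient x y o := by unfold orient; ring
    have hpoq : 0 < orient (p i) o q := by
      have := D.frame.srt (N + 1) (N + r + 2) (by omega) (by omega) (by omega)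
      rw [D.P0, D.PV] at this
      exact this
    have t1 := mul_nonneg f2.le e0
    have t2 := mul_nonneg f1.le ek
    have t3 := mul_nonneg (neg_pos.2 h3).le h2
    have t4 := mul_neg_of_pos_of_neg hpoq h1
    nlinarith

open scoped Classical in
/-- The number of named points beyond a chord. -/
lemma TwoK.card_chord (W : RingS0 X h p a c) {i : ZMod h} {k N N2 r : ℕ} {P : ℕ → Pt}
    (D : TwoK X p a i k N N2 r P) (hkh : k < h) {s t : ℕ} (hst : s < t) (htk : t ≤ k)
    (hc : nr X (p i) (p (i + (t : ZMod h))) ≤ N ∨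
      nr X (p (i + (s : ZMod h))) (p (i + (k : ZMod h))) ≤ N2 ∨
      0 ≤ orient (p (i + (s : ZMod h))) (p (i + (t : ZMod h))) (P (N + 1))) :
    ((Finset.range (N + r + 3)).filter (fun j => j ≠ N + 1 ∧
      orient (p (i + (s : ZMod h))) (p (i + (t : ZMod h))) (P j) < 0)).card =
      nr X (p (i + (s : ZMod h))) (p (i + (t : ZMod h))) :=
  D.card_eq (fun z hz h1 => by
    obtain ⟨m, -, m2, m3, m4⟩ := D.name W hkh hst htk hc z hz h1
    exact ⟨m, by omega, m3, m4⟩)

end win

end Geo

end Pool.Agent.GCP
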