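import Pool.Agent.GCP.N27c
import Pool.Agent.GCP.Assembly
import Pool.Agent.GCP.W3

/-!
# The induction step for all `q ≥ 4` (MP_062f91_co)
-/

namespace Pool.Agent.GCP

namespace SL

/-- An exceptional set of eleven points has an inner point. -/
lemma exists_inn {E : Finset Pt} (hE : E.card = 11) (hG : GeneralPosition E)
    (h3 : ¬ HCPle (E : Set Pt) 3) : ∃ z, Inn E z := by
  obtain ⟨P, hf, he⟩ := exists_frame (by omega) hE hG
  rw [he] at h3
  have hm : ∀ i, i < 11 → P i ∈ E := by
    intro i hi
    rw [← Finset.mem_coe, he]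
    exact ⟨i, hi, rfl⟩
  obtain ⟨s1, -, -⟩ := signs hf h3
  refine ⟨P 2, hm 2 (by omega), P 0, hm 0 (by omega), P 1, hm 1 (by omega), P 4, hm 4 (by omega),
    hf.srt 1 2 (by omega) (by omega) (by omega), s1 2 (by omega) (by omega) (by omega), ?_⟩
  rw [orient_rot]
  exact hf.srt 2 4 (by omega) (by omega) (by omega)

end SL

namespace Glue

variable {X : Finset Pt}

/-- A cut by an affine functional consists of the highest points in some direction. -/
lemma as_top (hX : GeneralPosition X) {k : Pt → ℝ} (hk : Aff k) {R0 : Finset Pt}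
    (h0 : R0 ⊆ X) (hne : R0.Nonempty) (hc : R0.card < X.card)
    (hlt : ∀ x ∈ R0, ∀ y ∈ X, y ∉ R0 → k y < k x) :
    ∃ (w : Pt) (P : ℕ → Pt), w ≠ 0 ∧ Srt X w P ∧ R0 = N27.top P R0.card := by
  classical
  obtain ⟨α, β, γ, hc'⟩ := hk.coords
  set w : Pt := (α, β) with hw
  have hht : ∀ z, k z = ht w z + γ := by
    intro z
    rw [hc']
    rfl
  have hw0 : w ≠ 0 := by
    intro h
    have ha : α = 0 := congrArg Prod.fst h
    have hb : β = 0 := congrArg Prod.snd h
    obtain ⟨x, hx⟩ := hne
    obtain ⟨y, hy, hy'⟩ : ∃ y ∈ X, y ∉ R0 := by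
      by_contra hcon
      push Not at hcon
      have := Finset.card_le_card (show X ⊆ R0 from hcon)
      omega
    have h3 := hlt x hx y hy hy'
    rw [hc', hc', ha, hb] at h3
    linarith
  obtain ⟨P, hP⟩ := Sweep.exists_srt X w
  let J : Finset ℕ := (Finset.range X.card).filter (fun i => P i ∈ R0)
  have hJ : J = Finset.range J.card := by
    apply NC.eq_range
    intro j hj i hij
    obtain ⟨a1, a2⟩ := Finset.mem_filter.1 hj
    have a1' := Finset.mem_range.1 a1
    refine Finset.mem_filter.2 ⟨Finset.mem_range.2 (by omega), ?_⟩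
    by_contra hni
    have a3 := hlt (P j) a2 (P i) (hP.mem i (by omega)) hni
    have a4 := hP.mono i j hij a1'
    rw [hht, hht] at a3
    linarith
  have himg : J.image P = R0 := by
    ext x
    rw [Finset.mem_image]
    constructor
    · rintro ⟨i, hi, rfl⟩
      exact (Finset.mem_filter.1 hi).2
    · intro hx
      obtain ⟨i, hi, rfl⟩ := Sweep.surj hP (h0 hx)
      exact ⟨i, Finset.mem_filter.2 ⟨Finset.mem_range.2 hi, hx⟩, rfl⟩
  have hJc : J.card = R0.card := by
    rw [← himg, Finset.card_image_of_injOn]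
    intro i hi j hj hij
    have b1 := Finset.mem_range.1 (Finset.mem_filter.1 (Finset.mem_coe.1 hi)).1
    have b2 := Finset.mem_range.1 (Finset.mem_filter.1 (Finset.mem_coe.1 hj)).1
    exact hP.inj i j b1 b2 hij
  refine ⟨w, P, hw0, hP, ?_⟩
  ext x
  rw [N27.mem_top]
  constructor
  · intro hx
    rw [← himg, Finset.mem_image] at hx
    obtain ⟨i, hi, rfl⟩ := hx
    rw [hJ, Finset.mem_range, hJc] at hi
    exact ⟨i, hi, rfl⟩
  · rintro ⟨i, hi, rfl⟩
    rw [← himg]
    refine Finset.mem_image_of_mem _ ?_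
    rw [hJ, Finset.mem_range, hJc]
    exact hi

/-- Twenty-seven points: no line cuts off an exceptional set of eleven points and at most five further
points beyond another line. -/
theorem no_cut27 (hL : L16) (hX : GeneralPosition X) (hn : X.card = 27)
    (h7 : ¬ HCPle (X : Set Pt) 7)
    {k : Pt → ℝ} (hk : Aff k) {E J : Finset Pt} (hEJ : E ∪ J ⊆ X) (hE : E.card = 11)
    (hJ : J.card ≤ 5) (hd : Disjoint E J)
    (hlt : ∀ x ∈ E ∪ J, ∀ y ∈ X, y ∉ E ∪ J → k y < k x)
    (hdc : Disjoint (convexHull ℝ (E : Set Pt)) (convexHull ℝ (J : Set Pt)))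
    (hE3 : ¬ HCPle (E : Set Pt) 3) : False := by
  classical
  have hcard : (E ∪ J).card = 11 + J.card := by
    rw [Finset.card_union_of_disjoint hd, hE]
  obtain ⟨w, P, hw, hP, hR0⟩ := as_top hX hk hEJ (Finset.card_pos.1 (by omega)) (by omega) hlt
  rw [hcard] at hR0
  have hsub : E ∪ J ⊆ N27.top P 16 := by
    rw [hR0]
    intro x hx
    obtain ⟨i, hi, rfl⟩ := N27.mem_top.1 hx
    exact N27.mem_top.2 ⟨i, by omega, rfl⟩
  obtain ⟨r3, r2⟩ := N27.card_top hP (k := 16) (by omega)
  have hRu : E ∪ J ∪ (N27.top P 16 \ (E ∪ J)) = N27.top P 16 := by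
    rw [Finset.union_sdiff_of_subset hsub]
  have hHc : (N27.top P 16 \ (E ∪ J)).card = 16 - (11 + J.card) := by
    rw [Finset.card_sdiff_of_subset hsub, r3, hcard]
  have r4 := N27.cut hX hw hP (k := 11 + J.card) (by omega) (by omega)
  rw [← hR0] at r4
  have h4 : HCPle ((E ∪ J ∪ (N27.top P 16 \ (E ∪ J)) : Finset Pt) : Set Pt) 4 := by
    refine hL E J (N27.top P 16 \ (E ∪ J)) hE (by omega) hd Finset.disjoint_sdiff ?_ hdc ?_ hE3
    · rw [hRu]
      exact hX.subset r2
    · refine r4.mono_right (convexHull_mono ?_)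
      intro x hx
      rw [Finset.mem_coe, Finset.mem_sdiff] at hx ⊢
      exact ⟨r2 hx.1, hx.2⟩
  rw [hRu] at h4
  have hB := N27.rest hL hX hn hw hP h7 h4
  have hA := (N27.AB hL hX hn hw hP h7).2 hB
  obtain ⟨t1, t2⟩ := N27.card_top hP (k := 11) (by omega)
  obtain ⟨z, hz⟩ := SL.exists_inn t1 (hX.subset t2) hA
  exact N27.no_top hL hX hn hw hP h7 ⟨hA, hz⟩

/-- Twenty-seven points with the ring structure. -/
theorem ring27 (hL : L16) {h : ℕ} {p a c : ZMod h → Pt}
    (W : RingS X h p a c) (hn : X.card = 27)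
    (H : ∀ (Y : Finset Pt) (s : ℕ), Y ⊆ X → Y.card = 4 * s + 3 → s < 6 → s ≠ 2 →
      HCPle (Y : Set Pt) (s + 1)) : HCPle (X : Set Pt) 7 := by
  classical
  by_contra h7
  obtain ⟨f, g, hf, hg, f0, g0, hinj, hc, hconv, h3⟩ := W.cut
  have hW : WCut X f g := ⟨hf, hg, f0, g0, hinj, hc, hconv⟩
  obtain ⟨k, s, t, S, hst⟩ := Exc.exists_split hW (q := 6) (by omega) h3
  by_cases h1 : HCPle ((X.filter (fun z => f z < 0 ∧ 0 < k z) : Finset Pt) : Set Pt) (s + 1)
  · by_cases h2 : HCPle ((X.filter (fun z => g z < 0 ∧ k z ≤ 0) : Finset Pt) : Set Pt) (t + 1)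
    · have := S.hcp hW h1 h2
      rw [show s + t + 3 = 7 by omega] at this
      exact h7 this
    · have ht : t = 2 := by
        by_contra ht
        exact h2 (H _ t (Finset.filter_subset _ _) S.c2 (by omega) ht)
      subst ht
      have hneg : Aff (fun z => (-1) * k z + 0 * k z + 0) := S.hh.comb S.hh (-1) 0 0
      refine no_cut27 hL W.gp hn h7 hneg (E := X.filter (fun z => g z < 0 ∧ k z ≤ 0))
        (J := X.filter (fun z => (0 < f z ∧ 0 < g z) ∧ k z ≤ 0)) ?_ (by rw [S.c2]) ?_ ?_ ?_ ?_ h2
      · exact Finset.union_subset (Finset.filter_subset _ _) (Finset.filter_subset _ _)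
      · rw [← hc]
        apply Finset.card_le_card
        intro x hx
        rw [Finset.mem_filter] at hx ⊢
        exact ⟨hx.1, hx.2.1⟩
      · rw [Finset.disjoint_left]
        intro x hx hx'
        linarith [(Finset.mem_filter.1 hx).2.1, (Finset.mem_filter.1 hx').2.1.2]
      · intro x hx y hy hy'
        have hxp : k x ≤ 0 := by
          rcases Finset.mem_union.1 hx with hx | hx
          · exact (Finset.mem_filter.1 hx).2.2
          · exact (Finset.mem_filter.1 hx).2.2
        have hyn : 0 < k y := by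
          by_contra hcon
          rw [not_lt] at hcon
          apply hy'
          rcases S.cover hW hy with a | a | a
          · exact Finset.mem_union_right _ (Finset.mem_filter.2 ⟨hy, a, hcon⟩)
          · linarith [a.2]
          · exact Finset.mem_union_left _ (Finset.mem_filter.2 ⟨hy, a⟩)
        linarith
      · refine (hg.disjoint ?_ ?_).symm
        · intro x hx; exact (Finset.mem_filter.1 hx).2.1.2
        · intro x hx; exact ((Finset.mem_filter.1 hx).2.1).le
  · have hs : s = 2 := by
      by_contra hs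
      exact h1 (H _ s (Finset.filter_subset _ _) S.c1 (by omega) hs)
    subst hs
    refine no_cut27 hL W.gp hn h7 S.hh (E := X.filter (fun z => f z < 0 ∧ 0 < k z))
      (J := X.filter (fun z => (0 < f z ∧ 0 < g z) ∧ 0 < k z)) ?_ (by rw [S.c1]) ?_ ?_ ?_ ?_ h1
    · exact Finset.union_subset (Finset.filter_subset _ _) (Finset.filter_subset _ _)
    · rw [← hc]
      apply Finset.card_le_card
      intro x hx
      rw [Finset.mem_filter] at hx ⊢
      exact ⟨hx.1, hx.2.1⟩
    · rw [Finset.disjoint_left]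
      intro x hx hx'
      linarith [(Finset.mem_filter.1 hx).2.1, (Finset.mem_filter.1 hx').2.1.1]
    · intro x hx y hy hy'
      have hxp : 0 < k x := by
        rcases Finset.mem_union.1 hx with hx | hx
        · exact (Finset.mem_filter.1 hx).2.2
        · exact (Finset.mem_filter.1 hx).2.2
      have hyn : k y ≤ 0 := by
        by_contra hcon
        rw [not_le] at hcon
        apply hy'
        rcases S.cover hW hy with a | a | a
        · exact Finset.mem_union_right _ (Finset.mem_filter.2 ⟨hy, a, hcon⟩)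
        · exact Finset.mem_union_left _ (Finset.mem_filter.2 ⟨hy, a⟩)
        · linarith [a.2]
      linarith
    · refine (hf.disjoint ?_ ?_).symm
      · intro x hx; exact (Finset.mem_filter.1 hx).2.1.1
      · intro x hx; exact ((Finset.mem_filter.1 hx).2.1).le

/-- Disjoint hulls are separated by an affine functional. -/
lemma sep {A B : Finset Pt}
    (hd : Disjoint (convexHull ℝ (A : Set Pt)) (convexHull ℝ (B : Set Pt))) :
    ∃ k : Pt → ℝ, Aff k ∧ ∀ x ∈ A, ∀ y ∈ B, k y < k x := by
  obtain ⟨f, u, v, h1, h2, h3⟩ := geometric_hahn_banach_compact_closed (convex_convexHull ℝ _)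
    (B.finite_toSet.isCompact_convexHull (𝕜 := ℝ)) (convex_convexHull ℝ _)
    (A.finite_toSet.isCompact_convexHull (𝕜 := ℝ)).isClosed hd.symm
  refine ⟨fun z => f z, ?_, ?_⟩
  · intro x y s t _
    simp only [map_add, map_smul, smul_eq_mul]
  · intro x hx y hy
    have a1 := h1 y (subset_convexHull ℝ _ (Finset.mem_coe.2 hy))
    have a2 := h3 x (subset_convexHull ℝ _ (Finset.mem_coe.2 hx))
    linarith

/-- The induction step. -/
theorem H_step (hL : L16) : ∀ q, 4 ≤ q → (∀ s, s < q → s ≠ 2 → Bd (4 * s + 3)) →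
    Bd (4 * q + 3) := by
  classical
  intro q hq4 ih X hXc hX
  have e1 : (4 * q + 3) / 4 + 1 = q + 1 := by omega
  rw [e1]
  have H : ∀ (Y : Finset Pt) (s : ℕ), Y ⊆ X → Y.card = 4 * s + 3 → s < q → s ≠ 2 →
      HCPle (Y : Set Pt) (s + 1) := by
    intro Y s hY hYc hs hs2
    have := ih s hs hs2 Y hYc (hX.subset hY)
    rwa [show (4 * s + 3) / 4 + 1 = s + 1 by omega] at this
  by_cases hK1 : K1 X
  · by_cases hK2 : K2 X
    · obtain ⟨h, p, a, c, W⟩ := exists_ringS hX (by omega) hK1 hK2
      by_cases h6 : q = 6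
      · subst h6
        exact ring27 hL W (by omega) H
      · exact W.step_exc hL hXc hq4 h6 H
    · -- eight points in two parts
      unfold K2 at hK2
      push Not at hK2
      obtain ⟨A, a1, a2, a3, a4⟩ := hK2
      have hU : (X : Set Pt) = (A : Set Pt) ∪ ((X \ A : Finset Pt) : Set Pt) := by
        rw [← Finset.coe_union, Finset.union_sdiff_of_subset a1]
      have hBc : (X \ A).card = 4 * (q - 2) + 3 := by
        rw [Finset.card_sdiff_of_subset a1, a2]
        omega
      by_cases hB : HCPle ((X \ A : Finset Pt) : Set Pt) (q - 2 + 1)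
      · have := a4.append hB a3
        rw [← hU] at this
        exact this.mono (by omega)
      · by_cases h4 : q = 4
        · subst h4
          obtain ⟨k, hk, hk'⟩ := sep a3.symm
          refine Exc.step_cut hL hX hXc le_rfl
            (fun Y hY hYc => H Y 0 hY (by omega) (by omega) (by omega)) hk (E := X \ A) (J := ∅)
            (by rw [Finset.union_empty]; exact Finset.sdiff_subset) (by rw [hBc]) (by simp)
            (Finset.disjoint_empty_right _) ?_ ?_ hB
          · rw [Finset.union_empty]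
            intro x hx y hy hy'
            refine hk' x hx y ?_
            by_contra hya
            exact hy' (Finset.mem_sdiff.2 ⟨hy, hya⟩)
          · rw [Finset.coe_empty, convexHull_empty]
            exact Set.disjoint_empty _
        · exact absurd (H _ (q - 2) Finset.sdiff_subset hBc (by omega) (by omega)) hB
  · -- a convex quadrilateral
    unfold K1 at hK1
    push Not at hK1
    obtain ⟨A, a1, a2, a3, a4⟩ := hK1
    have hU : (X : Set Pt) = (A : Set Pt) ∪ ((X \ A : Finset Pt) : Set Pt) := by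
      rw [← Finset.coe_union, Finset.union_sdiff_of_subset a1]
    have hBc : (X \ A).card = 4 * (q - 1) + 3 := by
      rw [Finset.card_sdiff_of_subset a1, a2]
      omega
    have hA : HCPle (A : Set Pt) 1 :=
      ⟨1, le_refl _, HCP.single (Finset.card_pos.1 (by omega)) a4⟩
    have := hA.append (H _ (q - 1) Finset.sdiff_subset hBc (by omega) (by omega)) a3
    rw [← hU] at this
    exact this.mono (by omega)

end Glue

end Pool.Agent.GCP
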