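import Pool.Agent.GCP.F23

/-!
# Nineteen points from the exceptional case (MP_062f91_co)
-/

namespace Pool.Agent.GCP

/-- Nineteen points which consist of an exceptional set of eleven points and a set of eight points
with a partition into two parts, separated by a line, have a partition into five parts. -/
def W19 : Prop :=
  ∀ E A : Finset Pt, E.card = 11 → A.card = 8 → GeneralPosition (E ∪ A) →
    Disjoint (convexHull ℝ (E : Set Pt)) (convexHull ℝ (A : Set Pt)) →
    ¬ HCPle (E : Set Pt) 3 → HCPle (A : Set Pt) 2 → HCPle ((E ∪ A : Finset Pt) : Set Pt) 5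

/-- The bound for nineteen points. -/
theorem bd_nineteen (hW : W19) (h15 : Bd 15) : Bd 19 := by
  classical
  intro X hc hX
  by_cases hK1 : K1 X
  · by_cases hK2 : K2 X
    · exact hcp19_of_K hX hc hK1 hK2 h15
    · unfold K2 at hK2
      push Not at hK2
      obtain ⟨S, h1, h2, h3, h4⟩ := hK2
      have hun : X = X \ S ∪ S := (Finset.sdiff_union_of_subset h1).symm
      have hcE : (X \ S).card = 11 := by
        rw [Finset.card_sdiff_of_subset h1, hc, h2]
      by_cases h5 : HCPle ((X \ S : Finset Pt) : Set Pt) 3
      · have h6 := h4.append h5 h3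
        rw [← Finset.coe_union, Finset.union_sdiff_of_subset h1] at h6
        exact h6
      · have h7 := hW (X \ S) S hcE h2 (by rw [← hun]; exact hX) h3.symm h5 h4
        rw [← hun] at h7
        exact h7
  · unfold K1 at hK1
    push Not at hK1
    obtain ⟨A, h1, h2, h3, h4⟩ := hK1
    refine perfect_cut (q := 4) (k := 1) (A := A) (B := X \ A) hc hX ?_ h2 (by omega) ?_ h3 h15
    · rw [← Finset.coe_union, Finset.union_sdiff_of_subset h1]
    · refine ⟨1, le_refl _, [A], rfl, ?_, by simp, by simp⟩
      intro Y hY
      simp only [List.mem_singleton] at hY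
      subst hY
      exact ⟨Finset.card_pos.1 (by omega), h4⟩

/-- The induction step from the two remaining parts. -/
theorem step_all (hW : W19)
    (h27 : ∀ q, 6 ≤ q → (∀ s, s < q → s ≠ 2 → Bd (4 * s + 3)) → Bd (4 * q + 3)) :
    ∀ q, 4 ≤ q → (∀ s, s < q → s ≠ 2 → Bd (4 * s + 3)) → Bd (4 * q + 3) := by
  intro q hq H
  by_cases h6 : 6 ≤ q
  · exact h27 q h6 H
  · have : q = 4 ∨ q = 5 := by omega
    rcases this with rfl | rfl
    · exact bd_nineteen hW (H 3 (by omega) (by omega))
    · exact bd_twentythree (H 3 (by omega) (by omega)) (H 4 (by omega) (by omega))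

end Pool.Agent.GCP
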