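import Pool.Agent.GCP.Cert

/-!
# Hypotheses and the entailment of the base clauses
-/

namespace Pool.Agent.GCP

/-- The assignments of point sequences without a convex partition with `K` parts. -/
def HH (n K : ℕ) (E : (ℕ → Pt) → Prop) (σ : ℕ → Prop) : Prop :=
  ∃ P, Frame n P ∧ ¬ HCPle (P '' {i | i < n}) K ∧ E P ∧ σ = val P

/-- No extra hypothesis. -/
def E0 : (ℕ → Pt) → Prop := fun _ => True

lemma HH.toE0 {n K : ℕ} {E : (ℕ → Pt) → Prop} {σ : ℕ → Prop} (h : HH n K E σ) :
    HH n K E0 σ := by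
  obtain ⟨P, h1, h2, _, h4⟩ := h
  exact ⟨P, h1, h2, trivial, h4⟩

/-- Use a clause which holds without the extra hypothesis. -/
lemma ELs.ax {n K : ℕ} {E : (ℕ → Pt) → Prop} {c : ℕ × ℕ} {cs : List (ℕ × ℕ)}
    (h : Ent (HH n K E0) c) (hs : ELs (HH n K E) cs) : ELs (HH n K E) (c :: cs) :=
  ELs.cons (h.mono fun _ hσ => hσ.toE0) hs

lemma base0 {n K : ℕ} {E : (ℕ → Pt) → Prop} : ∀ σ, HH n K E σ → Asg σ 0 0 :=
  fun σ _ => Asg.zero σ

theorem ax_ent {n K : ℕ} {E : (ℕ → Pt) → Prop} (i j k l t : ℕ) {c : ℕ × ℕ}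
    (h : axOK (n - 1) i j k l t c = true) : Ent (HH n K E) c := by
  rintro σ ⟨P, hf, _, _, rfl⟩
  exact ax_hold hf h

/-- No repetitions. -/
def nd : List ℕ → Bool
  | [] => true
  | a :: l => l.all (fun b => !Nat.beq a b) && nd l

/-- The list is a permutation of `0, ..., n-1`. -/
def full (n : ℕ) (l : List ℕ) : Bool :=
  nd l && (l.all (fun i => lt' i n) && Nat.beq l.length n)

lemma nd_iff : ∀ {l : List ℕ}, nd l = true → l.Nodup
  | [], _ => List.nodup_nil
  | a :: l, h => by
    simp only [nd, Bool.and_eq_true, List.all_eq_true, Bool.not_eq_true'] at h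
    rw [List.nodup_cons]
    refine ⟨?_, nd_iff h.2⟩
    intro ha
    have := h.1 a ha
    have h2 : Nat.beq a a = true := by rw [Nat.beq_eq]
    rw [h2] at this
    exact absurd this (by simp)

lemma full_iff {n : ℕ} {l : List ℕ} (h : full n l = true) :
    l.Nodup ∧ (∀ i ∈ l, i < n) ∧ ∀ i, i ∈ l ↔ i < n := by
  simp only [full, Bool.and_eq_true, List.all_eq_true, lt'_iff, Nat.beq_eq] at h
  obtain ⟨h1, h2, h3⟩ := h
  have hnd := nd_iff h1
  refine ⟨hnd, h2, fun i => ⟨h2 i, fun hi => ?_⟩⟩
  have h4 : l.toFinset = Finset.range n := by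
    apply Finset.eq_of_subset_of_card_le
    · intro j hj
      rw [List.mem_toFinset] at hj
      exact Finset.mem_range.2 (h2 j hj)
    · rw [Finset.card_range, List.toFinset_card_of_nodup hnd, h3]
  rw [← List.mem_toFinset, h4]
  exact Finset.mem_range.2 hi

/-- The final check of a partition clause. -/
def zfin (n K g2 g3 : ℕ) (tg : List (List Q)) (t : Ct) (T F : ℕ) : Bool :=
  full n t.pts && (Nat.ble t.cost K && t.chk n g2 g3 tg (lit T F))

theorem z_ent {n K g2 g3 : ℕ} {tg : List (List Q)} (hF : Facts g2 g3 tg)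
    {E : (ℕ → Pt) → Prop} (t : Ct)
    {cs : List (ℕ × ℕ)} (hs : ELs (HH n K E) cs) {c : ℕ × ℕ}
    (h : rup0 (zfin n K g2 g3 tg t) cs 0 0 c = true) : Ent (HH n K E) c := by
  refine rupf base0 ?_ hs h
  rintro σ T F ⟨P, hf, hK, _, rfl⟩ ha hz
  simp only [zfin, Bool.and_eq_true, Nat.ble_eq] at hz
  obtain ⟨h1, h2, h3⟩ := hz
  obtain ⟨a1, a2, a3⟩ := full_iff h1
  apply hK
  have := (ct_sound hF hf ha t a2 a1 h3).mono h2
  have he : {i | i ∈ t.pts} = {i | i < n} := by
    ext i
    exact a3 i
  rw [he] at this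
  exact this

/-- A line cut. -/
def cutOK (n : ℕ) (li : ℕ → ℕ → ℕ → Bool) (m : Bool) (a b : ℕ) (A B : List ℕ) : Bool :=
  lt' a n && (lt' b n && (!Nat.beq a b &&
    (match m with
      | true => (A.all (fun x => Nat.beq x a || li a b x) &&
        B.all (fun y => Nat.beq y b || li b a y))
      | false => (A.all (fun x => Nat.beq x a || li b a x) &&
        B.all (fun y => Nat.beq y b || li a b y)))))

lemma cut_sound {n : ℕ} {P : ℕ → Pt} (hf : Frame n P) {T F : ℕ} (ha : Asg (val P) T F)
    {m : Bool} {a b : ℕ} {A B : List ℕ} (hA : ∀ i ∈ A, i < n) (hB : ∀ i ∈ B, i < n)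
    (h : cutOK n (lit T F) m a b A B = true) :
    Disjoint (convexHull ℝ (P '' {i | i ∈ A})) (convexHull ℝ (P '' {i | i ∈ B})) := by
  simp only [cutOK, Bool.and_eq_true, Bool.not_eq_true', lt'_iff] at h
  obtain ⟨ha', hb, hab, h⟩ := h
  have hab' : a ≠ b := by
    rintro rfl
    have : Nat.beq a a = true := by rw [Nat.beq_eq]
    rw [this] at hab
    exact absurd hab (by simp)
  cases m with
  | true =>
    simp only [Bool.and_eq_true] at h
    obtain ⟨hL, hR⟩ := h
    rw [List.all_eq_true] at hL hR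
    refine hull_disjoint (hf.inj a b ha' hb hab') ?_ ?_
    · rintro x ⟨i, hi, rfl⟩ hx
      have h1 := hL i hi
      simp only [Bool.or_eq_true, Nat.beq_eq] at h1
      rcases h1 with h1 | h1
      · subst h1; exact absurd rfl hx
      · exact lit_sound hf ha ha' hb (hA i hi) h1
    · rintro x ⟨i, hi, rfl⟩ hx
      have h1 := hR i hi
      simp only [Bool.or_eq_true, Nat.beq_eq] at h1
      rcases h1 with h1 | h1
      · subst h1; exact absurd rfl hx
      · have := lit_sound hf ha hb ha' (hB i hi) h1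
        rw [orient_swap] at this
        linarith
  | false =>
    simp only [Bool.and_eq_true] at h
    obtain ⟨hL, hR⟩ := h
    rw [List.all_eq_true] at hL hR
    refine hull_disjoint' (hf.inj a b ha' hb hab') ?_ ?_
    · rintro x ⟨i, hi, rfl⟩ hx
      have h1 := hL i hi
      simp only [Bool.or_eq_true, Nat.beq_eq] at h1
      rcases h1 with h1 | h1
      · subst h1; exact absurd rfl hx
      · have := lit_sound hf ha hb ha' (hA i hi) h1
        rw [orient_swap] at this
        linarith
    · rintro x ⟨i, hi, rfl⟩ hx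
      have h1 := hR i hi
      simp only [Bool.or_eq_true, Nat.beq_eq] at h1
      rcases h1 with h1 | h1
      · subst h1; exact absurd rfl hx
      · exact lit_sound hf ha ha' hb (hB i hi) h1

/-- A line cut with four points in convex position on one side. -/
def LC4 (n : ℕ) (P : ℕ → Pt) : Prop :=
  ∃ A B : List ℕ, full n (A ++ B) = true ∧ A.length = 4 ∧
    IsConvexPolygon (A.toFinset.image P) ∧
    Disjoint (convexHull ℝ (P '' {i | i ∈ A})) (convexHull ℝ (P '' {i | i ∈ B}))

/-- No convex 4-cut. -/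
def EB (n : ℕ) : (ℕ → Pt) → Prop := fun P => ¬ LC4 n P

/-- The final check of a clause for a convex 4-cut. -/
def bfin (n : ℕ) (m : Bool) (a b : ℕ) (A B : List ℕ) (T F : ℕ) : Bool :=
  full n (A ++ B) && (Nat.beq A.length 4 && (cutOK n (lit T F) m a b A B &&
    leafOK (lit T F) A))

theorem b_ent {n K : ℕ} (m : Bool) (a b : ℕ) (A B : List ℕ)
    {cs : List (ℕ × ℕ)} (hs : ELs (HH n K (EB n)) cs) {c : ℕ × ℕ}
    (h : rup0 (bfin n m a b A B) cs 0 0 c = true) : Ent (HH n K (EB n)) c := by
  refine rupf base0 ?_ hs h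
  rintro σ T F ⟨P, hf, hK, hE, rfl⟩ ha hz
  simp only [bfin, Bool.and_eq_true, Nat.beq_eq] at hz
  obtain ⟨h1, h2, h3, h4⟩ := hz
  obtain ⟨a1, a2, a3⟩ := full_iff h1
  have hA : ∀ i ∈ A, i < n := fun i hi => a2 i (List.mem_append.2 (Or.inl hi))
  have hB : ∀ i ∈ B, i < n := fun i hi => a2 i (List.mem_append.2 (Or.inr hi))
  rw [List.nodup_append] at a1
  exact hE ⟨A, B, h1, h2, (leaf_sound hf.inj hf.gp
      (fun i j k hi hj hk => lit_sound hf ha hi hj hk) hA a1.1 h4).2, cut_sound hf ha hA hB h3⟩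

/-- The hypothesis of case A: the points of `l` are in convex position and separated from those
of `bl`. -/
def EA (l bl : List ℕ) : (ℕ → Pt) → Prop := fun P =>
  IsConvexPolygon (l.toFinset.image P) ∧
  Disjoint (convexHull ℝ (P '' {i | i ∈ l})) (convexHull ℝ (P '' {i | i ∈ bl}))

lemma EA.not3 {l bl : List ℕ} {n K : ℕ} {P : ℕ → Pt} (hl : full n (l ++ bl) = true)
    (hne : l ≠ []) (hE : EA l bl P)
    (h : ¬ HCPle (P '' {i | i < n}) (K + 1)) : ¬ HCPle (P '' {i | i ∈ bl}) K := by
  intro hc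
  apply h
  obtain ⟨a1, a2, a3⟩ := full_iff hl
  have h1 : HCPle (P '' {i | i ∈ l}) 1 := by
    refine ⟨1, le_refl _, [l.toFinset.image P], rfl, ?_, by simp, ?_⟩
    · intro Y hY
      simp only [List.mem_singleton] at hY
      subst hY
      refine ⟨?_, hE.1⟩
      rw [Finset.image_nonempty]
      obtain ⟨x, hx⟩ := List.exists_mem_of_ne_nil l hne
      exact ⟨x, List.mem_toFinset.2 hx⟩
    · intro x
      simp
  have h2 := h1.append hc hE.2
  rw [← Set.image_union, add_comm] at h2
  have he : {i | i ∈ l} ∪ {i | i ∈ bl} = {i | i < n} := by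
    ext i
    rw [Set.mem_ofPred_eq, ← a3 i, List.mem_append]
    rfl
  rw [he] at h2
  exact h2

/-- The final check of a clause of the eleven point classification in the big part. -/
def mfin (n : ℕ) (tg : List (List Q)) (l bl : List ℕ) (t : ℕ) (T F : ℕ) : Bool :=
  full n (l ++ bl) && (lt' 0 l.length && x11OK tg (lit T F) t bl)

theorem m_ent {n g2 g3 : ℕ} {tg : List (List Q)} (hF : Facts g2 g3 tg) {l bl : List ℕ}
    (t : ℕ) {c : ℕ × ℕ}
    (h : rup0 (mfin n tg l bl t) [] 0 0 c = true) : Ent (HH n 4 (EA l bl)) c := by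
  refine rupf base0 ?_ ELs.nil h
  rintro σ T F ⟨P, hf, hK, hE, rfl⟩ ha hz
  simp only [mfin, Bool.and_eq_true, lt'_iff] at hz
  obtain ⟨h1, h2, h3⟩ := hz
  obtain ⟨a1, a2, a3⟩ := full_iff h1
  have hne : l ≠ [] := by
    rintro rfl
    simp at h2
  exact hE.not3 h1 hne hK (x11_sound hF hf ha
    (fun i hi => a2 i (List.mem_append.2 (Or.inr hi))) h3)

lemma mem_triangle {a b c q : Pt} (h1 : 0 < orient a b q) (h2 : 0 < orient b c q)
    (h3 : 0 < orient c a q) : q ∈ convexHull ℝ ({a, b, c} : Set Pt) := by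
  have hs : 0 < orient a b q + orient b c q + orient c a q := by positivity
  have he : q = (orient b c q / (orient a b q + orient b c q + orient c a q)) • a +
      (orient c a q / (orient a b q + orient b c q + orient c a q)) • b +
      (orient a b q / (orient a b q + orient b c q + orient c a q)) • c := by
    ext
    · simp only [Prod.fst_add, Prod.smul_fst, smul_eq_mul]
      field_simp
      unfold orient
      ring
    · simp only [Prod.snd_add, Prod.smul_snd, smul_eq_mul]
      field_simp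
      unfold orient
      ring
  set s := orient a b q + orient b c q + orient c a q with hsd
  have hconv := convex_convexHull ℝ ({a, b, c} : Set Pt)
  have ha : a ∈ convexHull ℝ ({a, b, c} : Set Pt) := subset_convexHull ℝ _ (by simp)
  have hb : b ∈ convexHull ℝ ({a, b, c} : Set Pt) := subset_convexHull ℝ _ (by simp)
  have hc : c ∈ convexHull ℝ ({a, b, c} : Set Pt) := subset_convexHull ℝ _ (by simp)
  rw [he]
  have h4 := hconv.sum_mem (t := Finset.univ)
    (w := ![orient b c q / s, orient c a q / s, orient a b q / s]) (z := ![a, b, c]) ?_ ?_ ?_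
  · simpa [Fin.sum_univ_succ, add_assoc] using h4
  · intro i _
    fin_cases i
    · exact (div_pos h2 hs).le
    · exact (div_pos h3 hs).le
    · exact (div_pos h1 hs).le
  · simp only [Fin.sum_univ_succ, Matrix.cons_val_zero, Matrix.cons_val_succ, Fin.sum_univ_zero,
      add_zero]
    rw [← add_div, ← add_div, div_eq_one_iff_eq hs.ne', hsd]
    ring
  · intro i _
    fin_cases i
    · exact ha
    · exact hb
    · exact hc

lemma cross_point {a b c d : Pt} (h1 : 0 < orient a b c) (h2 : 0 < orient b a d)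
    (h3 : 0 < orient d c a) (h4 : 0 < orient c d b) :
    ∃ z, z ∈ convexHull ℝ ({a, b} : Set Pt) ∧ z ∈ convexHull ℝ ({c, d} : Set Pt) := by
  have hs : 0 < orient d c a + orient c d b := by positivity
  have ht : 0 < orient a b c + orient b a d := by positivity
  have hst : orient d c a + orient c d b = orient a b c + orient b a d := by
    unfold orient; ring
  refine ⟨(orient c d b / (orient d c a + orient c d b)) • a +
    (orient d c a / (orient d c a + orient c d b)) • b, ?_, ?_⟩
  · rw [convexHull_pair]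
    refine ⟨_, _, (div_pos h4 hs).le, (div_pos h3 hs).le, ?_, rfl⟩
    rw [← add_div, div_eq_one_iff_eq hs.ne']
    ring
  · rw [convexHull_pair]
    refine ⟨_, _, (div_pos h2 ht).le, (div_pos h1 ht).le, ?_, ?_⟩
    · rw [← add_div, div_eq_one_iff_eq ht.ne']
      ring
    · rw [← hst]
      ext
      · simp only [Prod.fst_add, Prod.smul_fst, smul_eq_mul]
        field_simp
        unfold orient
        ring
      · simp only [Prod.snd_add, Prod.smul_snd, smul_eq_mul]
        field_simp
        unfold orient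
        ring

/-- Two crossing segments, one in each part. -/
def cfin (n : ℕ) (l bl : List ℕ) (a b c d : ℕ) (T F : ℕ) : Bool :=
  l.contains a && (l.contains b && (bl.contains c && (bl.contains d &&
    (lt' a n && (lt' b n && (lt' c n && (lt' d n &&
    (lit T F a b c && (lit T F b a d && (lit T F d c a && lit T F c d b))))))))))

theorem c_ent {n K : ℕ} {l bl : List ℕ} (a b c d : ℕ) {e : ℕ × ℕ}
    (h : rup0 (cfin n l bl a b c d) [] 0 0 e = true) : Ent (HH n K (EA l bl)) e := by
  refine rupf base0 ?_ ELs.nil h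
  rintro σ T F ⟨P, hf, _, hE, rfl⟩ ha hz
  simp only [cfin, Bool.and_eq_true, lt'_iff, List.contains_iff_mem] at hz
  obtain ⟨h1, h2, h3, h4, ha', hb, hc, hd, k1, k2, k3, k4⟩ := hz
  obtain ⟨z, z1, z2⟩ := cross_point (lit_sound hf ha ha' hb hc k1) (lit_sound hf ha hb ha' hd k2)
    (lit_sound hf ha hd hc ha' k3) (lit_sound hf ha hc hd hb k4)
  refine Set.disjoint_left.1 hE.2 (convexHull_mono ?_ z1) (convexHull_mono ?_ z2)
  · rintro x (rfl | rfl)
    · exact ⟨a, h1, rfl⟩
    · exact ⟨b, h2, rfl⟩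
  · rintro x (rfl | rfl)
    · exact ⟨c, h3, rfl⟩
    · exact ⟨d, h4, rfl⟩

/-- A point in a triangle of the other part, or of the same part `l`. -/
def tfin (n : ℕ) (l bl : List ℕ) (q a b c : ℕ) (T F : ℕ) : Bool :=
  ((l.contains q && (bl.contains a && (bl.contains b && bl.contains c))) ||
   ((bl.contains q && (l.contains a && (l.contains b && l.contains c))) ||
    (l.contains q && (l.contains a && (l.contains b && (l.contains c &&
      (!Nat.beq q a && (!Nat.beq q b && !Nat.beq q c)))))))) &&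
    (lt' q n && (lt' a n && (lt' b n && (lt' c n &&
    (lit T F a b q && (lit T F b c q && lit T F c a q))))))

theorem t_ent {n K : ℕ} {l bl : List ℕ} (q a b c : ℕ) {e : ℕ × ℕ}
    (h : rup0 (tfin n l bl q a b c) [] 0 0 e = true) : Ent (HH n K (EA l bl)) e := by
  refine rupf base0 ?_ ELs.nil h
  rintro σ T F ⟨P, hf, _, hE, rfl⟩ ha hz
  simp only [tfin, Bool.and_eq_true, Bool.or_eq_true, lt'_iff, List.contains_iff_mem,
    Bool.not_eq_true'] at hz
  obtain ⟨hcase, hq, ha', hb, hc, k1, k2, k3⟩ := hz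
  have hm := mem_triangle (lit_sound hf ha ha' hb hq k1) (lit_sound hf ha hb hc hq k2)
    (lit_sound hf ha hc ha' hq k3)
  have hsub : ∀ s : List ℕ, a ∈ s → b ∈ s → c ∈ s →
      P q ∈ convexHull ℝ (P '' {i | i ∈ s}) := by
    intro s h1 h2 h3
    refine convexHull_mono ?_ hm
    rintro x (rfl | rfl | rfl)
    · exact ⟨a, h1, rfl⟩
    · exact ⟨b, h2, rfl⟩
    · exact ⟨c, h3, rfl⟩
  rcases hcase with ⟨h1, h2, h3, h4⟩ | ⟨h1, h2, h3, h4⟩ | ⟨h1, h2, h3, h4, n1, n2, n3⟩
  · exact Set.disjoint_left.1 hE.2 (subset_convexHull ℝ _ ⟨q, h1, rfl⟩) (hsub bl h2 h3 h4)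
  · exact Set.disjoint_left.1 hE.2 (hsub l h2 h3 h4) (subset_convexHull ℝ _ ⟨q, h1, rfl⟩)
  · have hne : ∀ i, i < n → Nat.beq q i = false → P i ≠ P q := by
      intro i hi h5
      refine hf.inj i q hi hq ?_
      rintro rfl
      have : Nat.beq i i = true := by rw [Nat.beq_eq]
      rw [this] at h5
      exact absurd h5 (by simp)
    have hext := hE.1 (Finset.mem_coe.2 (Finset.mem_image_of_mem P (List.mem_toFinset.2 h1)))
    rw [image_list] at hext
    -- an extreme point is not in the hull of the other points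
    have h6 : P q ∉ convexHull ℝ ({P a, P b, P c} : Set Pt) := by
      have h7 := (convex_convexHull ℝ (P '' {i | i ∈ l})).mem_extremePoints_iff_convex_sdiff.1 hext
      intro h8
      have h9 : convexHull ℝ ({P a, P b, P c} : Set Pt) ⊆
          convexHull ℝ (P '' {i | i ∈ l}) \ {P q} := by
        refine convexHull_min ?_ h7.2
        rintro x (rfl | rfl | rfl)
        · exact ⟨subset_convexHull ℝ _ ⟨a, h2, rfl⟩, hne a ha' n1⟩
        · exact ⟨subset_convexHull ℝ _ ⟨b, h3, rfl⟩, hne b hb n2⟩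
        · exact ⟨subset_convexHull ℝ _ ⟨c, h4, rfl⟩, hne c hc n3⟩
      exact (h9 h8).2 rfl
    exact h6 hm

end Pool.Agent.GCP
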