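import Pool.Agent.GCP.Cert

/-!
# Convex position from two chains in a frame
-/

namespace Pool.Agent.GCP

section
variable {n : ℕ} {P : ℕ → Pt}

lemma fne (hf : Frame n P) {a b c : ℕ} (h1 : a < b) (h2 : b < c) (h3 : c < n) :
    orient (P a) (P b) (P c) ≠ 0 :=
  hf.gp a b c (by omega) (by omega) h3 (by omega) (by omega) (by omega)

lemma sig_pos (hf : Frame n P) {a b c d : ℕ} (h1 : a < b) (h2 : b < c) (h3 : c < d) (h4 : d < n)
    (e1 : 0 < orient (P a) (P b) (P c)) (e2 : 0 < orient (P b) (P c) (P d)) :
    0 < orient (P a) (P b) (P d) ∧ 0 < orient (P a) (P c) (P d) := by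
  rcases Nat.eq_zero_or_pos a with h | h
  · subst h
    exact ⟨hf.srt b d (by omega) (by omega) h4, hf.srt c d (by omega) h3 h4⟩
  · obtain ⟨⟨s1, s2⟩, ⟨s3, s4⟩, ⟨s5, s6⟩, s7, s8⟩ := hf.sig a b c d h h1 h2 h3 (by omega)
    simp only at s1 s2 s3 s4 s5 s6 s7 s8
    constructor
    · by_contra hc
      exact s5 ⟨e2, hc, e1⟩
    · by_contra hc
      exact s3 ⟨e2, hc, e1⟩

lemma sig_neg (hf : Frame n P) {a b c d : ℕ} (h1 : a < b) (h2 : b < c) (h3 : c < d) (h4 : d < n)
    (e1 : orient (P a) (P b) (P c) < 0) (e2 : orient (P b) (P c) (P d) < 0) :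
    orient (P a) (P b) (P d) < 0 ∧ orient (P a) (P c) (P d) < 0 := by
  rcases Nat.eq_zero_or_pos a with h | h
  · subst h
    have := hf.srt b c (by omega) h2 (by omega)
    linarith
  · obtain ⟨⟨s1, s2⟩, ⟨s3, s4⟩, ⟨s5, s6⟩, s7, s8⟩ := hf.sig a b c d h h1 h2 h3 (by omega)
    simp only at s1 s2 s3 s4 s5 s6 s7 s8
    constructor
    · by_contra hc
      exact s6 ⟨e2.not_gt, lt_of_le_of_ne (not_lt.1 hc) (fne hf h1 (by omega) h4).symm, e1.not_gt⟩
    · by_contra hc
      exact s4 ⟨e2.not_gt, lt_of_le_of_ne (not_lt.1 hc) (fne hf (by omega) h3 h4).symm, e1.not_gt⟩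

lemma sig_up (hf : Frame n P) {a b c d : ℕ} (h0 : 1 ≤ a) (h1 : a < b) (h2 : b < c) (h3 : c < d)
    (h4 : d < n) (e1 : 0 < orient (P a) (P b) (P d)) (e2 : orient (P a) (P c) (P d) < 0) :
    0 < orient (P a) (P b) (P c) ∧ orient (P b) (P c) (P d) < 0 := by
  obtain ⟨⟨s1, s2⟩, ⟨s3, s4⟩, ⟨s5, s6⟩, s7, s8⟩ := hf.sig a b c d h0 h1 h2 h3 (by omega)
  simp only at s1 s2 s3 s4 s5 s6 s7 s8
  constructor
  · by_contra hc
    exact s8 ⟨e2.not_gt, e1, hc⟩
  · by_contra hc
    exact s1 ⟨lt_of_le_of_ne (not_lt.1 hc) (fne hf h2 h3 h4).symm, e2.not_gt, e1⟩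

lemma sig_dn (hf : Frame n P) {a b c d : ℕ} (h0 : 1 ≤ a) (h1 : a < b) (h2 : b < c) (h3 : c < d)
    (h4 : d < n) (e1 : orient (P a) (P b) (P d) < 0) (e2 : 0 < orient (P a) (P c) (P d)) :
    orient (P a) (P b) (P c) < 0 ∧ 0 < orient (P b) (P c) (P d) := by
  obtain ⟨⟨s1, s2⟩, ⟨s3, s4⟩, ⟨s5, s6⟩, s7, s8⟩ := hf.sig a b c d h0 h1 h2 h3 (by omega)
  simp only at s1 s2 s3 s4 s5 s6 s7 s8
  constructor
  · by_contra hc
    exact s7 ⟨e2, e1.not_gt, lt_of_le_of_ne (not_lt.1 hc) (fne hf h1 h2 (by omega)).symm⟩
  · by_contra hc
    exact s2 ⟨hc, e2, e1.not_gt⟩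

/-- Two chains with common ends `f` and `l`; `U` and `W` are the interior points of the upper and of
the lower chain. -/
structure TwoCh (n : ℕ) (P : ℕ → Pt) (f l : ℕ) (U W : Finset ℕ) : Prop where
  fr : Frame n P
  ln : l < n
  fl : f < l
  Um : ∀ u ∈ U, f < u ∧ u < l
  Wm : ∀ w ∈ W, f < w ∧ w < l
  dis : ∀ u ∈ U, ∀ w ∈ W, u ≠ w
  Ut : ∀ i ∈ insert f (insert l U), ∀ j ∈ insert f (insert l U), ∀ k ∈ insert f (insert l U),
    i < j → j < k → orient (P i) (P j) (P k) < 0
  Wt : ∀ i ∈ insert f (insert l W), ∀ j ∈ insert f (insert l W), ∀ k ∈ insert f (insert l W),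
    i < j → j < k → 0 < orient (P i) (P j) (P k)

variable {f l : ℕ} {U W : Finset ℕ}

namespace TwoCh

lemma fpos (h : TwoCh n P f l U W) {u : ℕ} (hu : u ∈ U) : 1 ≤ f := by
  by_contra hc
  have h0 : f = 0 := by omega
  have h1 := h.Ut f (by simp) u (by simp [hu]) l (by simp) (h.Um u hu).1 (h.Um u hu).2
  rw [h0] at h1
  have h2 := h.fr.srt u l (by have := (h.Um u hu).1; omega) (h.Um u hu).2 h.ln
  linarith

lemma Ufl (h : TwoCh n P f l U W) {u : ℕ} (hu : u ∈ U) : orient (P f) (P u) (P l) < 0 :=
  h.Ut f (by simp) u (by simp [hu]) l (by simp) (h.Um u hu).1 (h.Um u hu).2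

lemma Wfl (h : TwoCh n P f l U W) {w : ℕ} (hw : w ∈ W) : 0 < orient (P f) (P w) (P l) :=
  h.Wt f (by simp) w (by simp [hw]) l (by simp) (h.Wm w hw).1 (h.Wm w hw).2

/-- `f < w < u < l`. -/
lemma wu (h : TwoCh n P f l U W) {u w : ℕ} (hu : u ∈ U) (hw : w ∈ W) (hlt : w < u) :
    0 < orient (P f) (P w) (P u) ∧ orient (P w) (P u) (P l) < 0 :=
  sig_up h.fr (h.fpos hu) (h.Wm w hw).1 hlt (h.Um u hu).2 h.ln (h.Wfl hw) (h.Ufl hu)

/-- `f < u < w < l`. -/
lemma uw (h : TwoCh n P f l U W) {u w : ℕ} (hu : u ∈ U) (hw : w ∈ W) (hlt : u < w) :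
    orient (P f) (P u) (P w) < 0 ∧ 0 < orient (P u) (P w) (P l) :=
  sig_dn h.fr (h.fpos hu) (h.Um u hu).1 hlt (h.Wm w hw).2 h.ln (h.Ufl hu) (h.Wfl hw)

/-- The lower points are below the chords of the upper chain. -/
lemma below (h : TwoCh n P f l U W) {p q w : ℕ} (hp : p ∈ insert f (insert l U))
    (hq : q ∈ insert f (insert l U)) (hpq : p < q) (hw : w ∈ W) :
    orient (P p) (P q) (P w) < 0 := by
  have hwm := h.Wm w hw
  have hq' : q = l ∨ q ∈ U := by
    rcases Finset.mem_insert.1 hq with h1 | h1
    · exfalso
      subst h1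
      rcases Finset.mem_insert.1 hp with h2 | h2
      · omega
      · rcases Finset.mem_insert.1 h2 with h3 | h3
        · have := h.fl; omega
        · have := (h.Um p h3).1; omega
    · exact Finset.mem_insert.1 h1
  have hp' : p = f ∨ p ∈ U := by
    rcases Finset.mem_insert.1 hp with h1 | h1
    · exact Or.inl h1
    · rcases Finset.mem_insert.1 h1 with h2 | h2
      · exfalso
        subst h2
        rcases hq' with h3 | h3
        · omega
        · have := (h.Um q h3).2; omega
      · exact Or.inr h2
  have sw := orient_swap' (P p) (P q) (P w)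
  have cy := orient_cyc (P w) (P p) (P q)
  rcases hp' with rfl | hpU
  · rcases hq' with rfl | hqU
    · have := h.Wfl hw
      linarith
    · rcases lt_or_gt_of_ne (h.dis q hqU w hw) with h1 | h1
      · exact (h.uw hqU hw h1).1
      · have := (h.wu hqU hw h1).1
        linarith
  · have hf1 := h.fpos hpU
    have hpm := h.Um p hpU
    rcases hq' with rfl | hqU
    · rcases lt_or_gt_of_ne (h.dis p hpU w hw) with h1 | h1
      · have := (h.uw hpU hw h1).2
        linarith
      · have := (h.wu hpU hw h1).2
        linarith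
    · have hqm := h.Um q hqU
      have hfpq := h.Ut f (by simp) p (by simp [hpU]) q (by simp [hqU]) hpm.1 hpq
      have hpql := h.Ut p (by simp [hpU]) q (by simp [hqU]) l (by simp) hpq hqm.2
      rcases lt_or_gt_of_ne (h.dis p hpU w hw) with h1 | h1
      · rcases lt_or_gt_of_ne (h.dis q hqU w hw) with h2 | h2
        · -- p < q < w
          exact (sig_dn h.fr (by omega) hpq h2 hwm.2 h.ln hpql (h.uw hpU hw h1).2).1
        · -- p < w < q
          have := (sig_dn h.fr hf1 hpm.1 h1 h2 (by have := h.ln; omega) hfpq
            (h.wu hqU hw h2).1).2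
          linarith
      · -- w < p < q
        have := (sig_up h.fr hf1 hwm.1 h1 hpq (by have := h.ln; omega)
          (h.wu hqU hw (by omega)).1 hfpq).2
        linarith

/-- The upper points are above the chords of the lower chain. -/
lemma above (h : TwoCh n P f l U W) {p q u : ℕ} (hp : p ∈ insert f (insert l W))
    (hq : q ∈ insert f (insert l W)) (hpq : p < q) (hu : u ∈ U) :
    0 < orient (P p) (P q) (P u) := by
  have hum := h.Um u hu
  have hf1 := h.fpos hu
  have hq' : q = l ∨ q ∈ W := by
    rcases Finset.mem_insert.1 hq with h1 | h1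
    · exfalso
      subst h1
      rcases Finset.mem_insert.1 hp with h2 | h2
      · omega
      · rcases Finset.mem_insert.1 h2 with h3 | h3
        · have := h.fl; omega
        · have := (h.Wm p h3).1; omega
    · exact Finset.mem_insert.1 h1
  have hp' : p = f ∨ p ∈ W := by
    rcases Finset.mem_insert.1 hp with h1 | h1
    · exact Or.inl h1
    · rcases Finset.mem_insert.1 h1 with h2 | h2
      · exfalso
        subst h2
        rcases hq' with h3 | h3
        · omega
        · have := (h.Wm q h3).2; omega
      · exact Or.inr h2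
  have sw := orient_swap' (P p) (P q) (P u)
  have cy := orient_cyc (P u) (P p) (P q)
  rcases hp' with rfl | hpW
  · rcases hq' with rfl | hqW
    · have := h.Ufl hu
      linarith
    · rcases lt_or_gt_of_ne (h.dis u hu q hqW) with h1 | h1
      · have := (h.uw hu hqW h1).1
        linarith
      · exact (h.wu hu hqW h1).1
  · have hpm := h.Wm p hpW
    rcases hq' with rfl | hqW
    · rcases lt_or_gt_of_ne (h.dis u hu p hpW) with h1 | h1
      · have := (h.uw hu hpW h1).2
        linarith
      · have := (h.wu hu hpW h1).2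
        linarith
    · have hqm := h.Wm q hqW
      have hfpq := h.Wt f (by simp) p (by simp [hpW]) q (by simp [hqW]) hpm.1 hpq
      have hpql := h.Wt p (by simp [hpW]) q (by simp [hqW]) l (by simp) hpq hqm.2
      rcases lt_or_gt_of_ne (h.dis u hu p hpW) with h1 | h1
      · -- u < p < q
        have := (sig_dn h.fr hf1 hum.1 h1 hpq (by have := h.ln; omega)
          (h.uw hu hqW (by omega)).1 hfpq).2
        linarith
      · rcases lt_or_gt_of_ne (h.dis u hu q hqW) with h2 | h2
        · -- p < u < q
          have := (sig_up h.fr hf1 hpm.1 h1 h2 (by have := h.ln; omega) hfpq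
            (h.uw hu hqW h2).1).2
          linarith
        · -- p < q < u
          exact (sig_up h.fr (by omega) hpq h2 hum.2 h.ln hpql (h.wu hu hpW h1).2).1

/-- The points of two chains are in convex position. -/
theorem conv (h : TwoCh n P f l U W) :
    IsConvexPolygon ((insert f (insert l (U ∪ W))).image P) := by
  classical
  set S := insert f (insert l (U ∪ W)) with hS
  have hSU : ∀ {x}, x ∈ insert f (insert l U) → x ∈ S := by
    intro x hx
    simp only [hS, Finset.mem_insert, Finset.mem_union] at hx ⊢
    tauto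
  have hSW : ∀ {x}, x ∈ insert f (insert l W) → x ∈ S := by
    intro x hx
    simp only [hS, Finset.mem_insert, Finset.mem_union] at hx ⊢
    tauto
  have hScase : ∀ {x}, x ∈ S → x ∈ insert f (insert l U) ∨ x ∈ W := by
    intro x hx
    simp only [hS, Finset.mem_insert, Finset.mem_union] at hx ⊢
    tauto
  have hScase' : ∀ {x}, x ∈ S → x ∈ insert f (insert l W) ∨ x ∈ U := by
    intro x hx
    simp only [hS, Finset.mem_insert, Finset.mem_union] at hx ⊢
    tauto
  have key : ∀ i ∈ S, ∀ p q, orient (P p) (P q) (P i) < 0 →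
      (∀ j ∈ S, j ≠ i → 0 ≤ orient (P p) (P q) (P j)) →
      P i ∈ (convexHull ℝ ((S.image P : Finset Pt) : Set Pt)).extremePoints ℝ := by
    intro i hi p q h1 h2
    refine extreme_of_side ?_ h1 ?_
    · exact Finset.mem_coe.2 (Finset.mem_image_of_mem _ hi)
    · intro y hy hyi
      rw [Finset.mem_coe, Finset.mem_image] at hy
      obtain ⟨j, hj, rfl⟩ := hy
      refine h2 j hj ?_
      rintro rfl
      exact hyi rfl
  -- neighbours in a finite set of numbers
  have nbr : ∀ (C : Finset ℕ) (x : ℕ), (∃ y ∈ C, y < x) → ∃ p ∈ C, p < x ∧ ∀ j ∈ C, j < x → j ≤ p := by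
    intro C x hex
    have hne : (C.filter (fun y => y < x)).Nonempty := by
      obtain ⟨y, hy, hyx⟩ := hex
      exact ⟨y, Finset.mem_filter.2 ⟨hy, hyx⟩⟩
    obtain ⟨p, hp, hpm⟩ := Finset.exists_max_image _ id hne
    rw [Finset.mem_filter] at hp
    exact ⟨p, hp.1, hp.2, fun j hj hjx => hpm j (Finset.mem_filter.2 ⟨hj, hjx⟩)⟩
  have nbr' : ∀ (C : Finset ℕ) (x : ℕ), (∃ y ∈ C, x < y) → ∃ p ∈ C, x < p ∧ ∀ j ∈ C, x < j → p ≤ j := by
    intro C x hex
    have hne : (C.filter (fun y => x < y)).Nonempty := by
      obtain ⟨y, hy, hyx⟩ := hex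
      exact ⟨y, Finset.mem_filter.2 ⟨hy, hyx⟩⟩
    obtain ⟨p, hp, hpm⟩ := Finset.exists_min_image _ id hne
    rw [Finset.mem_filter] at hp
    exact ⟨p, hp.1, hp.2, fun j hj hjx => hpm j (Finset.mem_filter.2 ⟨hj, hjx⟩)⟩
  intro x hx
  rw [Finset.mem_coe, Finset.mem_image] at hx
  obtain ⟨i, hi, rfl⟩ := hx
  have hfl := h.fl
  by_cases hempty : U = ∅ ∧ W = ∅
  · -- two points
    obtain ⟨hU, hW⟩ := hempty
    have hne : P f ≠ P l := h.fr.inj f l (by have := h.ln; omega) h.ln (by omega)
    have hS2 : ((S.image P : Finset Pt) : Set Pt) = {P f, P l} := by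
      rw [hS, hU, hW]
      simp [Finset.image_insert]
    rw [hS2]
    have : i = f ∨ i = l := by
      rw [hS, hU, hW] at hi
      simpa using hi
    rcases this with rfl | rfl
    · exact pair_extreme hne
    · rw [Set.pair_comm]
      exact pair_extreme hne.symm
  rw [not_and_or, ← ne_eq, ← ne_eq, ← Finset.nonempty_iff_ne_empty,
    ← Finset.nonempty_iff_ne_empty] at hempty
  have hi' : i = f ∨ i = l ∨ i ∈ U ∨ i ∈ W := by
    simpa only [hS, Finset.mem_insert, Finset.mem_union] using hi
  rcases hi' with rfl | rfl | hiU | hiW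
  · -- the left end
    obtain ⟨u, hu, hiu, hum⟩ := nbr' (insert i (insert l U)) i ⟨l, by simp, hfl⟩
    obtain ⟨w, hw, hiw, hwm⟩ := nbr' (insert i (insert l W)) i ⟨l, by simp, hfl⟩
    have hu' : u = l ∨ u ∈ U := by
      rcases Finset.mem_insert.1 hu with h1 | h1
      · omega
      · exact Finset.mem_insert.1 h1
    have hw' : w = l ∨ w ∈ W := by
      rcases Finset.mem_insert.1 hw with h1 | h1
      · omega
      · exact Finset.mem_insert.1 h1
    have hnll : ¬ (u = l ∧ w = l) := by
      rintro ⟨h1, h2⟩
      rcases hempty with ⟨y, hy⟩ | ⟨y, hy⟩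
      · have := hum y (by simp [hy]) (h.Um y hy).1
        have := (h.Um y hy).2
        omega
      · have := hwm y (by simp [hy]) (h.Wm y hy).1
        have := (h.Wm y hy).2
        omega
    refine key i hi u w ?_ ?_
    · have c := orient_cyc (P i) (P u) (P w)
      rw [c]
      rcases hw' with rfl | hwW
      · rcases hu' with h1 | huU
        · exact absurd ⟨h1, rfl⟩ hnll
        · exact h.Ufl huU
      · exact h.below (by simp) hu hiu hwW
    · intro j hj hji
      rcases hScase hj with hjU | hjW
      · have hij : i < j := by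
          rcases Finset.mem_insert.1 hjU with h1 | h1
          · exact absurd h1 hji
          · rcases Finset.mem_insert.1 h1 with h2 | h2
            · omega
            · exact (h.Um j h2).1
        have huj := hum j hjU hij
        rcases Nat.lt_or_eq_of_le huj with h1 | h1
        · have c := orient_swap' (P u) (P j) (P w)
          rcases hw' with rfl | hwW
          · rcases Finset.mem_insert.1 hjU with h2 | h2
            · omega
            · rcases Finset.mem_insert.1 h2 with h3 | h3
              · rw [h3]; simp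
              · have := h.Ut u hu j hjU w (by simp) h1 (h.Um j h3).2
                linarith
          · have := h.below hu hjU h1 hwW
            linarith
        · rw [← h1]
          simp
      · have hjm := h.Wm j hjW
        have hwj := hwm j (by simp [hjW]) hjm.1
        rcases Nat.lt_or_eq_of_le hwj with h1 | h1
        · have c := orient_cyc (P u) (P w) (P j)
          rcases hu' with rfl | huU
          · have := h.Wt w hw j (by simp [hjW]) u (by simp) h1 hjm.2
            linarith
          · have := h.above hw (by simp [hjW]) h1 huU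
            linarith
        · rw [← h1]
          simp
  · -- the right end
    obtain ⟨u, hu, hiu, hum⟩ := nbr (insert f (insert i U)) i ⟨f, by simp, hfl⟩
    obtain ⟨w, hw, hiw, hwm⟩ := nbr (insert f (insert i W)) i ⟨f, by simp, hfl⟩
    have hu' : u = f ∨ u ∈ U := by
      rcases Finset.mem_insert.1 hu with h1 | h1
      · exact Or.inl h1
      · rcases Finset.mem_insert.1 h1 with h2 | h2
        · omega
        · exact Or.inr h2
    have hw' : w = f ∨ w ∈ W := by
      rcases Finset.mem_insert.1 hw with h1 | h1
      · exact Or.inl h1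
      · rcases Finset.mem_insert.1 h1 with h2 | h2
        · omega
        · exact Or.inr h2
    have hnff : ¬ (u = f ∧ w = f) := by
      rintro ⟨h1, h2⟩
      rcases hempty with ⟨y, hy⟩ | ⟨y, hy⟩
      · have := hum y (by simp [hy]) (h.Um y hy).2
        have := (h.Um y hy).1
        omega
      · have := hwm y (by simp [hy]) (h.Wm y hy).2
        have := (h.Wm y hy).1
        omega
    refine key i hi w u ?_ ?_
    · -- orient w u i < 0, i the right end
      have c := orient_cyc (P w) (P u) (P i)
      have c2 := orient_swap' (P u) (P w) (P i)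
      have c3 := orient_cyc (P u) (P i) (P w)
      rcases hw' with rfl | hwW
      · rcases hu' with h1 | huU
        · exact absurd ⟨h1, rfl⟩ hnff
        · exact h.Ufl huU
      · have := h.below hu (by simp) hiu hwW
        rw [← c]
        exact this
    · intro j hj hji
      rcases hScase hj with hjU | hjW
      · have hij : j < i := by
          rcases Finset.mem_insert.1 hjU with h1 | h1
          · omega
          · rcases Finset.mem_insert.1 h1 with h2 | h2
            · exact absurd h2 hji
            · exact (h.Um j h2).2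
        have huj := hum j hjU hij
        rcases Nat.lt_or_eq_of_le huj with h1 | h1
        · -- j < u : orient w u j = - orient j u w
          have c : orient (P w) (P u) (P j) = -orient (P j) (P u) (P w) := by
            rw [orient_cyc (P j) (P w) (P u), orient_swap']
          rcases hw' with rfl | hwW
          · rcases Finset.mem_insert.1 hjU with h2 | h2
            · rw [h2]; simp
            · rcases Finset.mem_insert.1 h2 with h3 | h3
              · omega
              · have := h.Ut w (by simp) j hjU u hu (h.Um j h3).1 h1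
                have c' := orient_swap (P w) (P j) (P u)
                have c'' := orient_cyc (P j) (P w) (P u)
                rw [c'']
                rw [c']
                linarith
          · have := h.below hjU hu h1 hwW
            linarith
        · rw [h1]
          simp
      · have hjm := h.Wm j hjW
        have hwj := hwm j (by simp [hjW]) hjm.2
        rcases Nat.lt_or_eq_of_le hwj with h1 | h1
        · -- j < w : orient w u j = orient j w u
          have c := orient_cyc (P j) (P w) (P u)
          rcases hu' with rfl | huU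
          · have := h.Wt u (by simp) j (by simp [hjW]) w hw hjm.1 h1
            have c' : orient (P w) (P u) (P j) = orient (P u) (P j) (P w) := by
              rw [orient_cyc (P u) (P j) (P w) |>.symm, orient_cyc (P j) (P w) (P u) |>.symm]
            linarith
          · have := h.above (by simp [hjW]) hw h1 huU
            linarith
        · rw [h1]
          simp
  · -- a point of the upper chain
    have him := h.Um i hiU
    obtain ⟨p, hp, hpi, hpm⟩ := nbr (insert f (insert l U)) i ⟨f, by simp, him.1⟩
    obtain ⟨q, hq, hqi, hqm⟩ := nbr' (insert f (insert l U)) i ⟨l, by simp, him.2⟩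
    refine key i hi q p ?_ ?_
    · have := h.Ut p hp i (by simp [hiU]) q hq hpi hqi
      have c := orient_cyc (P p) (P i) (P q)
      have c2 := orient_cyc (P i) (P q) (P p)
      linarith
    · intro j hj hji
      have c := orient_swap (P q) (P p) (P j)
      rcases hScase hj with hjU | hjW
      · rcases lt_or_gt_of_ne hji with h1 | h1
        · have h2 := hpm j hjU h1
          rcases Nat.lt_or_eq_of_le h2 with h3 | h3
          · have := h.Ut j hjU p hp q hq h3 (by omega)
            have c2 := orient_cyc (P j) (P p) (P q)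
            linarith
          · rw [h3]; simp
        · have h2 := hqm j hjU h1
          rcases Nat.lt_or_eq_of_le h2 with h3 | h3
          · have := h.Ut p hp q hq j hjU (by omega) h3
            linarith
          · rw [← h3]; simp
      · have := h.below hp hq (by omega) hjW
        linarith
  · -- a point of the lower chain
    have him := h.Wm i hiW
    obtain ⟨p, hp, hpi, hpm⟩ := nbr (insert f (insert l W)) i ⟨f, by simp, him.1⟩
    obtain ⟨q, hq, hqi, hqm⟩ := nbr' (insert f (insert l W)) i ⟨l, by simp, him.2⟩
    refine key i hi p q ?_ ?_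
    · have := h.Wt p hp i (by simp [hiW]) q hq hpi hqi
      have c := orient_swap' (P p) (P i) (P q)
      linarith
    · intro j hj hji
      rcases hScase' hj with hjW | hjU
      · rcases lt_or_gt_of_ne hji with h1 | h1
        · have h2 := hpm j hjW h1
          rcases Nat.lt_or_eq_of_le h2 with h3 | h3
          · have := h.Wt j hjW p hp q hq h3 (by omega)
            have c2 := orient_cyc (P j) (P p) (P q)
            linarith
          · rw [h3]; simp
        · have h2 := hqm j hjW h1
          rcases Nat.lt_or_eq_of_le h2 with h3 | h3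
          · have := h.Wt p hp q hq j hjW (by omega) h3
            linarith
          · rw [← h3]; simp
      · have := h.above hp hq (by omega) hjU
        linarith

end TwoCh

end

end Pool.Agent.GCP
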