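import Pool.Agent.GCP.X11
import Pool.Agent.GCP.Th

set_option autoImplicit false
set_option maxRecDepth 100000

/-!
# Swapping a hull vertex of an exceptional set of eleven points: the certificate (MP_062f91_co)
-/

namespace Pool.Agent.GCP

namespace SL

open Pool.Agent.GCP DB

/-- The negated goal: one of the variables of this mask is false. -/
def gN : ℕ := (nat_lit 0x1ff01020844b000000000000000000000000000000)

/-- Theory justifications. -/
inductive ThS : Type
  | ax (i j k l t : ℕ) : ThS
  | u (t : ℕ) : ThS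
  | g : ThS
  | z (t : Ct) : ThS

/-- The list is a permutation of `1, ..., 11`. -/
def ful1 (l : List ℕ) : Bool :=
  nd l && (l.all (fun i => Nat.ble 1 i && lt' i 12) && Nat.beq l.length 11)

/-- The theory check. -/
def thS : ThS → ℕ → ℕ → Bool
  | .ax i j k l t, T, F => axf 11 i j k l t T F
  | .u t, T, F => x11OK X11.TG (lit T F) t [0, 1, 2, 3, 4, 5, 6, 7, 8, 9, 10]
  | .g, T, _ => Nat.beq (Nat.lor gN T) T
  | .z t, T, F => ful1 t.pts && (Nat.ble t.cost 3 && t.chk 12 7 10 X11.TG (lit T F))

lemma ful1_iff {l : List ℕ} (h : ful1 l = true) :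
    l.Nodup ∧ (∀ i ∈ l, i < 12) ∧ ∀ i, i ∈ l ↔ (1 ≤ i ∧ i < 12) := by
  simp only [ful1, Bool.and_eq_true, List.all_eq_true, lt'_iff, Nat.beq_eq, Nat.ble_eq] at h
  obtain ⟨h1, h2, h3⟩ := h
  have hnd := nd_iff h1
  refine ⟨hnd, fun i hi => (h2 i hi).2, fun i => ⟨h2 i, fun hi => ?_⟩⟩
  have h4 : l.toFinset = Finset.Ico 1 12 := by
    apply Finset.eq_of_subset_of_card_le
    · intro j hj
      rw [List.mem_toFinset] at hj
      exact Finset.mem_Ico.2 (h2 j hj)
    · rw [Nat.card_Ico, List.toFinset_card_of_nodup hnd, h3]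
  rw [← List.mem_toFinset, h4]
  exact Finset.mem_Ico.2 hi

theorem thS_sound {P : ℕ → Pt} (hf : Frame 12 P)
    (h1 : ¬ HCPle (P '' {i | i < 11}) 3) (h2 : ¬ HCPle (P '' {i | 1 ≤ i ∧ i < 12}) 3)
    (h3 : ∃ v, gN.testBit v = true ∧ ¬ val P v) :
    ∀ (x : ThS) (T F : ℕ), Asg (val P) T F → thS x T F = true → False := by
  intro x T F ha h
  cases x with
  | ax i j k l t => exact axf_sound hf ha h
  | u t =>
    have h' : x11OK X11.TG (lit T F) t [0, 1, 2, 3, 4, 5, 6, 7, 8, 9, 10] = true := h
    have := x11_sound X11.facts hf ha (l := [0, 1, 2, 3, 4, 5, 6, 7, 8, 9, 10])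
      (by decide) h'
    apply h1
    have he : {i | i ∈ [0, 1, 2, 3, 4, 5, 6, 7, 8, 9, 10]} = {i : ℕ | i < 11} := by
      ext i
      simp only [List.mem_cons, List.not_mem_nil, or_false, Set.mem_ofPred_eq]
      omega
    rw [he] at this
    exact this
  | g =>
    obtain ⟨v, hv, hv'⟩ := h3
    have h' : Nat.beq (Nat.lor gN T) T = true := h
    exact hv' ((ha v).1 (sub_mask h' hv))
  | z t =>
    simp only [thS, Bool.and_eq_true, Nat.ble_eq] at h
    obtain ⟨a0, a1, a2⟩ := h
    obtain ⟨b1, b2, b3⟩ := ful1_iff a0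
    apply h2
    have := (ct_sound X11.facts hf ha t b2 b1 a2).mono a1
    have he : {i | i ∈ t.pts} = {i | 1 ≤ i ∧ i < 12} := by
      ext i
      exact b3 i
    rw [he] at this
    exact this

def db : DB := (N 64 (N 32 (N 16 (N 8 (N 4 (N 2 (N 1 (L (nat_lit 0x1000000000000100000) (nat_lit 0x800000000000000000)) (L (nat_lit 0x400000000000000000800000000) (nat_lit 0x200000000000000000000000000))) (N 3 (L (nat_lit 0x20000001000000000000000000000000000000) (nat_lit 0x10000000000000000000000000000000000000)) (L (nat_lit 0x1000000000000000000000000000000) (nat_lit 0x20000000000000000000000100000000000000)))) (N 6 (N 5 (L (nat_lit 0x8000000000000000000004) (nat_lit 0x2000000000000000000000)) (L (nat_lit 0x2000000000000000000000000000000) (nat_lit 0x1000000000000000002000000000000000000000))) (N 7 (L (nat_lit 0x8000000000000000000000000000000) (nat_lit 0x1000000000000000008000000000000000000000)) (L (nat_lit 0x40000000000000000000000000000000) (nat_lit 0x1000000000000000040000000000000000000000)))))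 (N 12 (N 10 (N 9 (L (nat_lit 0x400000000000000000000000000000000) (nat_lit 0x1000000000000000400000000000000000000000)) (L (nat_lit 0x8000000000000000000000000000000000) (nat_lit 0x1000000000000008000000000000000000000000))) (N 11 (L (nat_lit 0x10000000000000000000000000000000000000) (nat_lit 0x800200000000000000000000000000000000000)) (L (nat_lit 0x1000000000000000000000000000000000000000) (nat_lit 0x80000000000000200000000000000000000000000)))) (N 14 (N 13 (L (nat_lit 0x200000000000000000000000000000000000) (nat_lit 0x80000000000000200000000000000000000000000)) (L (nat_lit 0x2000000000000000000000000000000000000000) (nat_lit 0x80000000000000400000000000000000000000000))) (N 15 (L (nat_lit 0x4000000000000000000000000000000000000000) (nat_lit 0x80000000000000800000000000000000000000000)) (L (nat_lit 0x8000000000020000000) (nat_lit 0x4000000000000000000)))))) (N 24 (N 20 (N 18 (N 17 (L (nat_lit 0x10000000000200000000) (nat_lit 0x4000000000000000000)) (L (nat_lit 0x8000000000000000000000000000000000000000)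 (nat_lit 0x80000000000001000000000000000000000000000))) (N 19 (L (nat_lit 0x10000000000000000000000000000000000000000) (nat_lit 0x80000000000002000000000000000000000000000)) (L (nat_lit 0x20000000000000000000000000000000000000000) (nat_lit 0x80000000000004000000000000000000000000000)))) (N 22 (N 21 (L (nat_lit 0x8000000000000000000000000000) (nat_lit 0x800000000800000000000000000000)) (L (nat_lit 0x8000000000000000000000000000) (nat_lit 0x400000000800000000000000000000))) (N 23 (L (nat_lit 0x400000000000000000000000000000000000000) (nat_lit 0x800000000000000000800000000000000000000)) (L (nat_lit 0x80000000000008000000000000000000000000000) (nat_lit 0x40000000000000000000000000000000000000000))))) (N 28 (N 26 (N 25 (L (nat_lit 0x80000000000008000000000000000000000000000) (nat_lit 0x8000000000000000000000000000000000000)) (L (nat_lit 0x40000000000000000000000000000000000000000) (nat_lit 0x100400000000000000000000000000000000000000))) (N 27 (L (nat_lit 0x100000000000400000000000000000000000000000)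 (nat_lit 0x400000000000000000000000000000000000000)) (L (nat_lit 0x100800000000000000000000000000000000000000) (nat_lit 0x80000000000000000000000000000000000000000)))) (N 30 (N 29 (L (nat_lit 0x100000000000800000000000000000000000000000) (nat_lit 0x80000000000000000000000000000000000000000)) (L (nat_lit 0x800000000000000000000000000000000000000) (nat_lit 0x100000000000800000000000000000000000000000))) (N 31 (L (nat_lit 0) (nat_lit 4)) (L (nat_lit 0) (nat_lit 0x100000))))))) (N 48 (N 40 (N 36 (N 34 (N 33 (L (nat_lit 0) (nat_lit 0x20000000)) (L (nat_lit 0) (nat_lit 0x200000000))) (N 35 (L (nat_lit 0) (nat_lit 0x800000000)) (L (nat_lit 0x800000000000000000) (nat_lit 0)))) (N 38 (N 37 (L (nat_lit 0x2000000000000000000) (nat_lit 0)) (L (nat_lit 0x4000000000000000000) (nat_lit 0))) (N 39 (L (nat_lit 0x800000000000000000000) (nat_lit 0)) (L (nat_lit 0) (nat_lit 0x1000000000000000000000))))) (N 44 (N 42 (N 41 (L (nat_lit 0x2000000000000000000000) (nat_lit 0)) (L (nat_lit 0x40000000000000000000000)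 (nat_lit 0))) (N 43 (L (nat_lit 0x400000000000000000000000) (nat_lit 0)) (L (nat_lit 0x8000000000000000000000000) (nat_lit 0)))) (N 46 (N 45 (L (nat_lit 0x200000000000000000000000000) (nat_lit 0)) (L (nat_lit 0x800000000000000000000000000) (nat_lit 0))) (N 47 (L (nat_lit 0x1000000000000000000000000000) (nat_lit 0)) (L (nat_lit 0x2000000000000000000000000000) (nat_lit 0)))))) (N 56 (N 52 (N 50 (N 49 (L (nat_lit 0x4000000000000000000000000000) (nat_lit 0)) (L (nat_lit 0) (nat_lit 0x8000000000000000000000000000))) (N 51 (L (nat_lit 0) (nat_lit 0x10000000000000000000000000000)) (L (nat_lit 0) (nat_lit 0x1ff01020844b000000000000000000000000000000)))) (N 54 (N 53 (L (nat_lit 0x80400000000408000000000000000000000000000) (nat_lit 0x81f800000000000000000)) (L (nat_lit 0x1010000001000000000000000000000) (nat_lit 0x101000000000020844a000000000000000000000))) (N 55 (L (nat_lit 0x800000000000000000000000000000000000000) (nat_lit 0x80000000000000000000000000000000000000000)) (L (nat_lit 0x1000000000000000000)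 (nat_lit 0))))) (N 60 (N 58 (N 57 (L (nat_lit 0x8000000000000000000) (nat_lit 0)) (L (nat_lit 0x10000000000000000000) (nat_lit 0))) (N 59 (L (nat_lit 0x8000000000000000000000) (nat_lit 0)) (L (nat_lit 0x400000000000000000000000000) (nat_lit 0)))) (N 62 (N 61 (L (nat_lit 0) (nat_lit 0x800000000000000000000000000000)) (L (nat_lit 0) (nat_lit 0x400000000000000000000000000000))) (N 63 (L (nat_lit 0x80400000000000000000000000000000000000000) (nat_lit 0)) (L (nat_lit 0x1000000000000000000000000000000) (nat_lit 0x1010000000000000000000000000000000000000)))))))) (N 68 (N 66 (N 65 (L (nat_lit 0) (nat_lit 0x180000000000000000000000000000000000000000)) (L (nat_lit 0) (nat_lit 0x100000000000000000000000000000000000000000))) (N 67 (L (nat_lit 0) (nat_lit 0x400000000000000000000000000000000000000)) (L (nat_lit 0) (nat_lit 0x80000000000000000000000000000000000000000)))) (L (nat_lit 0) (nat_lit 0))))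

abbrev B (a b : ℕ) : Prop := Blk db thS (nat_lit 0) (nat_lit 0) a b

theorem b0 : B 0 69 := Blk.of_chk [.t 1 (nat_lit 0) (.ax 1 2 7 9 3), .t 1 (nat_lit 0) (.ax 1 2 8 10 3), .t 1 (nat_lit 0) (.ax 1 2 9 11 1), .t 1 (nat_lit 0) (.ax 1 2 9 11 4), .t 1 (nat_lit 0) (.ax 1 3 4 10 7), .t 1 (nat_lit 0) (.ax 1 3 10 11 6), .t 1 (nat_lit 0) (.ax 1 4 10 11 6), .t 1 (nat_lit 0) (.ax 1 5 10 11 6), .t 1 (nat_lit 0) (.ax 1 6 10 11 6), .t 1 (nat_lit 0) (.ax 1 7 10 11 6), .t 1 (nat_lit 0) (.ax 1 8 9 11 0), .t 1 (nat_lit 0) (.ax 1 8 10 11 2), .t 1 (nat_lit 0) (.ax 1 8 10 11 4), .t 1 (nat_lit 0) (.ax 2 8 10 11 2), .t 1 (nat_lit 0) (.ax 3 8 10 11 2), .t 1 (nat_lit 0) (.ax 4 5 7 9 3), .t 1 (nat_lit 0) (.ax 4 6 7 9 3), .t 1 (nat_lit 0) (.ax 4 8 10 11 2), .t 1 (nat_lit 0) (.ax 5 8 10 11 2), .t 1 (nat_lit 0) (.ax 6 8 10 11 2), .t 1 (nat_lit 0) (.ax 7 8 9 10 4), .t 1 (nat_lit 0) (.ax 7 8 9 10 6), .t 1 (nat_lit 0) (.ax 7 8 9 11 2), .t 1 (nat_lit 0) (.ax 7 8 10 11 3), .t 1 (nat_lit 0) (.ax 7 8 10 11 5), .t 1 (nat_lit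 0) (.ax 7 9 10 11 0), .t 1 (nat_lit 0) (.ax 7 9 10 11 5), .t 1 (nat_lit 0) (.ax 8 9 10 11 1), .t 1 (nat_lit 0) (.ax 8 9 10 11 3), .t 1 (nat_lit 0) (.ax 8 9 10 11 4), .t 1 (nat_lit 0) (.u 2), .t 1 (nat_lit 0) (.u 16), .t 1 (nat_lit 0) (.u 22), .t 1 (nat_lit 0) (.u 23), .t 1 (nat_lit 0) (.u 24), .t 1 (nat_lit 0) (.u 50), .t 1 (nat_lit 0) (.u 52), .t 1 (nat_lit 0) (.u 53), .t 1 (nat_lit 0) (.u 62), .t 1 (nat_lit 0) (.u 63), .t 1 (nat_lit 0) (.u 64), .t 1 (nat_lit 0) (.u 69), .t 1 (nat_lit 0) (.u 71), .t 1 (nat_lit 0) (.u 73), .t 1 (nat_lit 0) (.u 79), .t 1 (nat_lit 0) (.u 81), .t 1 (nat_lit 0) (.u 82), .t 1 (nat_lit 0) (.u 83), .t 1 (nat_lit 0) (.u 84), .t 1 (nat_lit 0) (.u 85), .t 1 (nat_lit 0) (.u 86), .t 1 (nat_lit 0) .g, .t 3 (nat_lit 0x190018) (.z (.edon 7 9 (.leaf [7,11,10,8]) (.free 2 [1,2,3,4,5,6,9]))), .t 3 (nat_lit 0x40003) (.z (.node 1 10 (.leaf [1,9,11,2]) (.free 2 [3,4,5,6,7,8,10]))), .t 3 (nat_lit 0x1e001c) (.z (.edon 0 8 (.free 2 [1,2,3,4,5,6,7]) (.leaf [8,10,11,9]))), .r 4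 (nat_lit 0x100200024), .r 4 (nat_lit 0x1000210026), .r 4 (nat_lit 0x1100220026), .r 4 (nat_lit 0x5001f0029), .r 4 (nat_lit 0x20023002d), .r 4 (nat_lit 0x1500270032), .r 4 (nat_lit 0x1600270032), .r 11 (nat_lit 0x350027003a00390026002500380024003e0032), .r 10 (nat_lit 0x36002d002c002b002a003b002900330028), .r 31 (nat_lit 0x34001a00400017000b000a00090008000700060037001400130012000f000e000d000c0027002c002b002a003b002900310030002f002e003c002d), .r 6 (nat_lit 0x1a003f001800410032), .r 4 (nat_lit 0x1b003e0042), .r 4 (nat_lit 0x1d003d0042), .r 4 (nat_lit 0x3f00440043)] (by decide +kernel) (by decide +kernel)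

/-- All variables of the goal are true. -/
theorem goal {P : ℕ → Pt} (hf : Frame 12 P)
    (h1 : ¬ HCPle (P '' {i | i < 11}) 3) (h2 : ¬ HCPle (P '' {i | 1 ≤ i ∧ i < 12}) 3) {v : ℕ}
    (hv : gN.testBit v = true) : val P v := by
  by_contra hc
  have hth := thS_sound hf h1 h2 ⟨v, hv, hc⟩
  have h := b0 (val P) (Asg.zero _) hth (fun k hk => absurd hk (Nat.not_lt_zero k))
  have hl : tgtOK db 69 [68] [(0, 0)] = true := by decide +kernel
  exact not_hold_empty _ (tgt_sound hl h (0, 0) (by simp))

end SL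

end Pool.Agent.GCP
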