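import Pool.Agent.GCP.Defs

/-!
# Sweeping a finite set in general position by rotating directions (MP_062f91_co)

`Srt X w P`: the sequence `P` lists `X` by decreasing height in direction `w` (ties allowed).
`Stp X w j P P'`: one swap of two neighbours which are tied in direction `w`.
-/

namespace Pool.Agent.GCP

/-- height of `z` in direction `w` -/
def ht (w z : Pt) : ℝ := w.1 * z.1 + w.2 * z.2

/-- cross product -/
def crs (v w : Pt) : ℝ := v.1 * w.2 - v.2 * w.1

/-- `P` lists `X` by decreasing height in direction `w` -/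
structure Srt (X : Finset Pt) (w : Pt) (P : ℕ → Pt) : Prop where
  mem : ∀ i, i < X.card → P i ∈ X
  inj : ∀ i j, i < X.card → j < X.card → P i = P j → i = j
  mono : ∀ i j, i < j → j < X.card → ht w (P j) ≤ ht w (P i)
  out : ∀ i, X.card ≤ i → P i = 0

/-- a swap of two tied neighbours -/
structure Stp (X : Finset Pt) (w : Pt) (j : ℕ) (P P' : ℕ → Pt) : Prop where
  lt : j + 1 < X.card
  s : Srt X w P
  s' : Srt X w P'
  eq : ∀ i, P' i = P (Equiv.swap j (j + 1) i)
  tie : ht w (P (j + 1)) = ht w (P j)
  pos : 0 < crs w (P (j + 1) - P j)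

/-- the direction at time `t` between `w` and `w'` -/
def seg (w w' : Pt) (t : ℝ) : Pt := ((1 - t) * w.1 + t * w'.1, (1 - t) * w.2 + t * w'.2)

namespace Sweep

lemma ht_seg (w w' z : Pt) (t : ℝ) : ht (seg w w' t) z = (1 - t) * ht w z + t * ht w' z := by
  unfold ht seg; ring

lemma seg_zero (w w' : Pt) : seg w w' 0 = w := by
  unfold seg; ext <;> simp

lemma seg_one (w w' : Pt) : seg w w' 1 = w' := by
  unfold seg; ext <;> simp

lemma seg_ne {w w' : Pt} (h : 0 < crs w w') (t : ℝ) : seg w w' t ≠ 0 := by
  intro h0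
  have h1 : (1 - t) * w.1 + t * w'.1 = 0 := congrArg Prod.fst h0
  have h2 : (1 - t) * w.2 + t * w'.2 = 0 := congrArg Prod.snd h0
  have e1 : (1 - t) * crs w w' = 0 := by
    have : (1 - t) * crs w w' =
        ((1 - t) * w.1 + t * w'.1) * w'.2 - ((1 - t) * w.2 + t * w'.2) * w'.1 := by
      unfold crs; ring
    rw [this, h1, h2]; ring
  have e2 : t * crs w w' = 0 := by
    have : t * crs w w' =
        w.1 * ((1 - t) * w.2 + t * w'.2) - w.2 * ((1 - t) * w.1 + t * w'.1) := by
      unfold crs; ring
    rw [this, h1, h2]; ring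
  have : crs w w' = 0 := by linarith
  linarith

lemma ht_sub (w x y : Pt) : ht w (y - x) = ht w y - ht w x := by
  unfold ht; simp only [Prod.fst_sub, Prod.snd_sub]; ring

/-- three points on one line orthogonal to `w` -/
lemma orient_of_tie {w x y z : Pt} (hw : w ≠ 0) (h1 : ht w x = ht w y) (h2 : ht w y = ht w z) :
    orient x y z = 0 := by
  have a1 : w.1 * (y.1 - x.1) + w.2 * (y.2 - x.2) = 0 := by unfold ht at h1; linarith
  have a2 : w.1 * (z.1 - x.1) + w.2 * (z.2 - x.2) = 0 := by unfold ht at h1 h2; linarith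
  have e1 : w.1 * orient x y z = 0 := by
    have : w.1 * orient x y z = (w.1 * (y.1 - x.1) + w.2 * (y.2 - x.2)) * (z.2 - x.2) -
        (w.1 * (z.1 - x.1) + w.2 * (z.2 - x.2)) * (y.2 - x.2) := by unfold orient; ring
    rw [this, a1, a2]; ring
  have e2 : w.2 * orient x y z = 0 := by
    have : w.2 * orient x y z = (w.1 * (z.1 - x.1) + w.2 * (z.2 - x.2)) * (y.1 - x.1) -
        (w.1 * (y.1 - x.1) + w.2 * (y.2 - x.2)) * (z.1 - x.1) := by unfold orient; ring
    rw [this, a1, a2]; ring
  by_contra h
  rcases mul_eq_zero.1 e1 with h3 | h3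
  · rcases mul_eq_zero.1 e2 with h4 | h4
    · exact hw (Prod.ext h3 h4)
    · exact h h4
  · exact h h3

lemma no_tie {X : Finset Pt} (hX : GeneralPosition X) {w x y z : Pt} (hw : w ≠ 0) (hx : x ∈ X)
    (hy : y ∈ X) (hz : z ∈ X) (hxy : x ≠ y) (hyz : y ≠ z) (hxz : x ≠ z)
    (h1 : ht w x = ht w y) (h2 : ht w y = ht w z) : False :=
  orient_ne hX hx hy hz hxy hyz hxz (orient_of_tie hw h1 h2)

/-- the sign of the crossing -/
lemma crs_pos {w w' : Pt} (h : 0 < crs w w') {t : ℝ} (h0 : 0 ≤ t) (h1 : t ≤ 1) {x y : Pt}
    (hne : x ≠ y) (ht0 : ht (seg w w' t) y = ht (seg w w' t) x)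
    (hw : ht w y ≤ ht w x) (hw' : ht w' x ≤ ht w' y) : 0 < crs (seg w w' t) (y - x) := by
  set u := seg w w' t with hu
  have hu0 : u ≠ 0 := seg_ne h t
  have hn : 0 < u.1 ^ 2 + u.2 ^ 2 := by
    by_contra hc
    apply hu0
    have : u.1 = 0 := by nlinarith [sq_nonneg u.1, sq_nonneg u.2]
    have : u.2 = 0 := by nlinarith [sq_nonneg u.1, sq_nonneg u.2]
    ext <;> assumption
  have hperp : u.1 * (y.1 - x.1) + u.2 * (y.2 - x.2) = 0 := by
    unfold ht at ht0; linarith
  set c := crs u (y - x) with hc
  have hcd : c = u.1 * (y.2 - x.2) - u.2 * (y.1 - x.1) := by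
    rw [hc]; unfold crs; simp only [Prod.fst_sub, Prod.snd_sub]
  -- `y - x = (c / |u|²) rot u`
  have d1 : (u.1 ^ 2 + u.2 ^ 2) * (y.1 - x.1) = -c * u.2 := by
    rw [hcd]
    have : (u.1 ^ 2 + u.2 ^ 2) * (y.1 - x.1) =
      u.1 * (u.1 * (y.1 - x.1) + u.2 * (y.2 - x.2)) -
        (u.1 * (y.2 - x.2) - u.2 * (y.1 - x.1)) * u.2 := by ring
    rw [this, hperp]; ring
  have d2 : (u.1 ^ 2 + u.2 ^ 2) * (y.2 - x.2) = c * u.1 := by
    rw [hcd]
    have : (u.1 ^ 2 + u.2 ^ 2) * (y.2 - x.2) =
      u.2 * (u.1 * (y.1 - x.1) + u.2 * (y.2 - x.2)) +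
        (u.1 * (y.2 - x.2) - u.2 * (y.1 - x.1)) * u.1 := by ring
    rw [this, hperp]; ring
  -- heights
  have e1 : (u.1 ^ 2 + u.2 ^ 2) * (ht w' y - ht w' x) = c * ((1 - t) * crs w w') := by
    have : (u.1 ^ 2 + u.2 ^ 2) * (ht w' y - ht w' x) =
        w'.1 * ((u.1 ^ 2 + u.2 ^ 2) * (y.1 - x.1)) + w'.2 * ((u.1 ^ 2 + u.2 ^ 2) * (y.2 - x.2)) := by
      unfold ht; ring
    rw [this, d1, d2]
    have : w'.1 * (-c * u.2) + w'.2 * (c * u.1) = c * (u.1 * w'.2 - u.2 * w'.1) := by ring
    rw [this]
    congr 1
    rw [hu]; unfold seg crs; ring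
  have e2 : (u.1 ^ 2 + u.2 ^ 2) * (ht w y - ht w x) = -(c * (t * crs w w')) := by
    have : (u.1 ^ 2 + u.2 ^ 2) * (ht w y - ht w x) =
        w.1 * ((u.1 ^ 2 + u.2 ^ 2) * (y.1 - x.1)) + w.2 * ((u.1 ^ 2 + u.2 ^ 2) * (y.2 - x.2)) := by
      unfold ht; ring
    rw [this, d1, d2]
    have : w.1 * (-c * u.2) + w.2 * (c * u.1) = -(c * (w.1 * u.2 - w.2 * u.1)) := by ring
    rw [this]
    congr 2
    rw [hu]; unfold seg crs; ring
  have hc0 : c ≠ 0 := by
    intro h2
    rw [h2] at d1 d2
    apply hne
    have k1 : y.1 - x.1 = 0 := by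
      have : (u.1 ^ 2 + u.2 ^ 2) * (y.1 - x.1) = 0 := by rw [d1]; ring
      exact (mul_eq_zero.1 this).resolve_left hn.ne'
    have k2 : y.2 - x.2 = 0 := by
      have : (u.1 ^ 2 + u.2 ^ 2) * (y.2 - x.2) = 0 := by rw [d2]; ring
      exact (mul_eq_zero.1 this).resolve_left hn.ne'
    ext <;> linarith
  have f1 : 0 ≤ c * ((1 - t) * crs w w') := by
    rw [← e1]; exact mul_nonneg hn.le (by linarith)
  have f2 : 0 ≤ c * (t * crs w w') := by
    have : 0 ≤ -((u.1 ^ 2 + u.2 ^ 2) * (ht w y - ht w x)) := by
      have := mul_nonneg hn.le (show 0 ≤ ht w x - ht w y by linarith)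
      linarith
    linarith
  have f3 : 0 ≤ c * crs w w' := by
    have : c * crs w w' = c * ((1 - t) * crs w w') + c * (t * crs w w') := by ring
    linarith
  have f4 : 0 ≤ c := by
    by_contra h3
    have := mul_neg_of_neg_of_pos (not_le.1 h3) h
    linarith
  exact lt_of_le_of_ne f4 (Ne.symm hc0)

section
variable {X : Finset Pt} {w : Pt} {P P' : ℕ → Pt}

lemma surj (h : Srt X w P) {x : Pt} (hx : x ∈ X) : ∃ i, i < X.card ∧ P i = x := by
  classical
  have h1 : (Finset.range X.card).image P = X := by
    apply Finset.eq_of_subset_of_card_le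
    · intro y hy
      rw [Finset.mem_image] at hy
      obtain ⟨i, hi, rfl⟩ := hy
      exact h.mem i (Finset.mem_range.1 hi)
    · rw [Finset.card_image_of_injOn]
      · simp
      · intro i hi j hj hij
        exact h.inj i j (by simpa using hi) (by simpa using hj) hij
  rw [← h1, Finset.mem_image] at hx
  obtain ⟨i, hi, h2⟩ := hx
  exact ⟨i, Finset.mem_range.1 hi, h2⟩

/-- `x` is before `y` in the list -/
def Bf (X : Finset Pt) (P : ℕ → Pt) (x y : Pt) : Prop :=
  ∃ c d, c < d ∧ d < X.card ∧ P c = x ∧ P d = y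

lemma Bf.asymm (h : Srt X w P) {x y : Pt} (h1 : Bf X P x y) (h2 : Bf X P y x) : False := by
  obtain ⟨a, b, hab, hb, ha', hb'⟩ := h1
  obtain ⟨c, d, hcd, hd, hc', hd'⟩ := h2
  have e1 := h.inj a d (by omega) (by omega) (by rw [ha', hd'])
  have e2 := h.inj b c (by omega) (by omega) (by rw [hb', hc'])
  omega

lemma Bf.ne (h : Srt X w P) {x y : Pt} (h1 : Bf X P x y) : x ≠ y := by
  rintro rfl
  exact Bf.asymm h h1 h1

lemma Bf.total (h : Srt X w P) {x y : Pt} (hx : x ∈ X) (hy : y ∈ X) (hne : x ≠ y) :
    Bf X P x y ∨ Bf X P y x := by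
  obtain ⟨i, hi, rfl⟩ := surj h hx
  obtain ⟨j, hj, rfl⟩ := surj h hy
  rcases lt_trichotomy i j with h1 | h1 | h1
  · exact Or.inl ⟨i, j, h1, hj, rfl, rfl⟩
  · exact absurd (by rw [h1]) hne
  · exact Or.inr ⟨j, i, h1, hi, rfl, rfl⟩

lemma Bf.ht_le (h : Srt X w P) {x y : Pt} (h1 : Bf X P x y) : ht w y ≤ ht w x := by
  obtain ⟨a, b, hab, hb, rfl, rfl⟩ := h1
  exact h.mono a b hab hb

lemma Bf.mem (h : Srt X w P) {x y : Pt} (h1 : Bf X P x y) : x ∈ X ∧ y ∈ X := by
  obtain ⟨a, b, hab, hb, rfl, rfl⟩ := h1
  exact ⟨h.mem a (by omega), h.mem b hb⟩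

/-- two lists without inverted pairs are equal -/
lemma eq_of_no_inv {w' : Pt} (h : Srt X w P) (h' : Srt X w' P')
    (hn : ∀ x y, Bf X P x y → ¬ Bf X P' y x) : P = P' := by
  have key : ∀ i, i < X.card → P i = P' i := by
    intro i
    induction i using Nat.strong_induction_on with
    | _ i ih =>
      intro hi
      obtain ⟨j, hj, hj'⟩ := surj h' (h.mem i hi)
      obtain ⟨l, hl, hl'⟩ := surj h (h'.mem i hi)
      rcases lt_trichotomy j i with h1 | h1 | h1
      · have h2 := ih j h1 hj
        rw [hj'] at h2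
        have := h.inj j i hj hi h2
        omega
      · rw [← hj', h1]
      · exfalso
        rcases lt_trichotomy l i with h2 | h2 | h2
        · have h3 := ih l h2 hl
          rw [hl'] at h3
          have := h'.inj i l hi hl h3
          omega
        · rw [h2] at hl'
          rw [← hj'] at hl'
          have := h'.inj j i hj hi hl'
          omega
        · exact hn (P i) (P l) ⟨i, l, h2, hl, rfl, rfl⟩ ⟨i, j, h1, hj, hl'.symm, hj'⟩
  funext i
  by_cases hi : i < X.card
  · exact key i hi
  · rw [h.out i (by omega), h'.out i (by omega)]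

/-- the swapped list -/
def sw (j : ℕ) (P : ℕ → Pt) : ℕ → Pt := fun i => P (Equiv.swap j (j + 1) i)

lemma swap_lt {j n i : ℕ} (hj : j + 1 < n) : Equiv.swap j (j + 1) i < n ↔ i < n := by
  by_cases h1 : i = j
  · subst h1; rw [Equiv.swap_apply_left]; omega
  · by_cases h2 : i = j + 1
    · subst h2; rw [Equiv.swap_apply_right]; omega
    · rw [Equiv.swap_apply_of_ne_of_ne h1 h2]

lemma swap_mono {j c d : ℕ} (hcd : c < d) (hne : ¬ (c = j ∧ d = j + 1)) :
    Equiv.swap j (j + 1) c < Equiv.swap j (j + 1) d := by
  have e : ∀ i, Equiv.swap j (j + 1) i = if i = j then j + 1 else if i = j + 1 then j else i := by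
    intro i; rw [Equiv.swap_apply_def]
  rw [e, e]
  split_ifs <;> omega

lemma sw_srt {j : ℕ} (h : Srt X w P) (hj : j + 1 < X.card)
    (tie : ht w (P (j + 1)) = ht w (P j)) : Srt X w (sw j P) := by
  refine ⟨fun i hi => h.mem _ ((swap_lt hj).2 hi), ?_, ?_, ?_⟩
  · intro a b ha hb hab
    have := h.inj _ _ ((swap_lt hj).2 ha) ((swap_lt hj).2 hb) hab
    exact (Equiv.swap j (j + 1)).injective this
  · intro a b hab hb
    by_cases h1 : a = j ∧ b = j + 1
    · obtain ⟨rfl, rfl⟩ := h1
      show ht w (P (Equiv.swap a (a + 1) (a + 1))) ≤ ht w (P (Equiv.swap a (a + 1) a))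
      rw [Equiv.swap_apply_left, Equiv.swap_apply_right, tie]
    · exact h.mono _ _ (swap_mono hab h1) ((swap_lt hj).2 hb)
  · intro i hi
    show P (Equiv.swap j (j + 1) i) = 0
    rw [Equiv.swap_apply_of_ne_of_ne (by omega) (by omega)]
    exact h.out i hi

end

open Classical in
/-- the inverted pairs -/
noncomputable def inv (X : Finset Pt) (P' P : ℕ → Pt) : Finset (Pt × Pt) :=
  (X ×ˢ X).filter (fun q => Bf X P q.1 q.2 ∧ Bf X P' q.2 q.1)

lemma mem_inv {X : Finset Pt} {P' P : ℕ → Pt} {w : Pt} (h : Srt X w P) {q : Pt × Pt} :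
    q ∈ inv X P' P ↔ Bf X P q.1 q.2 ∧ Bf X P' q.2 q.1 := by
  classical
  unfold inv
  rw [Finset.mem_filter, Finset.mem_product]
  exact ⟨fun h => h.2, fun h1 => ⟨Bf.mem h h1.1, h1⟩⟩

/-- The sweep: between two directions at angle less than `π` one can pass from any sorted list to
any sorted list by swaps of tied neighbours. -/
theorem sweep {X : Finset Pt} (hX : GeneralPosition X) {w w' : Pt} (hw : 0 < crs w w')
    {P P' : ℕ → Pt} (hP : Srt X w P) (hP' : Srt X w' P') (Q : (ℕ → Pt) → Prop)
    (hstep : ∀ t j R R', 0 ≤ t → t ≤ 1 → Stp X (seg w w' t) j R R' → Q R → Q R')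
    (hQ : Q P) : Q P' := by
  classical
  have main : ∀ N : ℕ, ∀ (s : ℝ) (R : ℕ → Pt), 0 ≤ s → s ≤ 1 → Srt X (seg w w' s) R →
      (∀ x y, Bf X R x y → Bf X P' y x → ht w y ≤ ht w x) → (inv X P' R).card = N → Q R →
      Q P' := by
    intro N
    induction N using Nat.strong_induction_on with
    | _ N ih =>
      intro s R hs0 hs1 hR hinv hN hQR
      by_cases hne : (inv X P' R).Nonempty
      · -- crossing times
        let A : Pt × Pt → ℝ := fun q => ht w q.1 - ht w q.2
        let B : Pt × Pt → ℝ := fun q => ht w' q.1 - ht w' q.2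
        let T : Pt × Pt → ℝ := fun q => A q / (A q - B q)
        obtain ⟨q, hq, hmin⟩ := (inv X P' R).exists_min_image T hne
        have hprop : ∀ q ∈ inv X P' R, 0 ≤ A q ∧ B q ≤ 0 ∧ 0 < A q - B q := by
          intro q hq
          rw [mem_inv hR] at hq
          have h1 := hinv q.1 q.2 hq.1 hq.2
          have h2 := Bf.ht_le hP' hq.2
          have h3 : 0 ≤ A q := by simp only [A]; linarith
          have h4 : B q ≤ 0 := by simp only [B]; linarith
          refine ⟨h3, h4, ?_⟩
          by_contra h5
          have h6 : A q = 0 := by linarith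
          have h7 : B q = 0 := by linarith
          apply Bf.ne hR hq.1
          have e1 : w.1 * (q.1.1 - q.2.1) + w.2 * (q.1.2 - q.2.2) = 0 := by
            simp only [A] at h6; unfold ht at h6; linarith
          have e2 : w'.1 * (q.1.1 - q.2.1) + w'.2 * (q.1.2 - q.2.2) = 0 := by
            simp only [B] at h7; unfold ht at h7; linarith
          have e3 : crs w w' * (q.1.1 - q.2.1) = 0 := by
            have : crs w w' * (q.1.1 - q.2.1) =
              w'.2 * (w.1 * (q.1.1 - q.2.1) + w.2 * (q.1.2 - q.2.2)) -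
              w.2 * (w'.1 * (q.1.1 - q.2.1) + w'.2 * (q.1.2 - q.2.2)) := by unfold crs; ring
            rw [this, e1, e2]; ring
          have e4 : crs w w' * (q.1.2 - q.2.2) = 0 := by
            have : crs w w' * (q.1.2 - q.2.2) =
              w.1 * (w'.1 * (q.1.1 - q.2.1) + w'.2 * (q.1.2 - q.2.2)) -
              w'.1 * (w.1 * (q.1.1 - q.2.1) + w.2 * (q.1.2 - q.2.2)) := by unfold crs; ring
            rw [this, e1, e2]; ring
          have e5 := (mul_eq_zero.1 e3).resolve_left hw.ne'
          have e6 := (mul_eq_zero.1 e4).resolve_left hw.ne'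
          exact Prod.ext (by linarith) (by linarith)
        have hg : ∀ (x y : Pt) (t : ℝ), ht (seg w w' t) x - ht (seg w w' t) y =
            (1 - t) * A (x, y) + t * B (x, y) := by
          intro x y t
          rw [ht_seg, ht_seg]; simp only [A, B]; ring
        obtain ⟨hA, hB, hAB⟩ := hprop q hq
        set t := T q with htdef
        have htm : t * (A q - B q) = A q := by
          rw [htdef]; simp only [T]; field_simp
        have ht0 : 0 ≤ t := div_nonneg hA hAB.le
        have ht1 : t ≤ 1 := by
          rw [htdef]; simp only [T]; rw [div_le_one hAB]; linarith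
        have hq' := (mem_inv hR).1 hq
        have hst : s ≤ t := by
          have h1 := Bf.ht_le hR hq'.1
          have h2 := hg q.1 q.2 s
          by_contra h3'
          have h3 : t < s := not_le.1 h3'
          have h4 : (s - t) * (A q - B q) ≤ 0 := by
            have : (s - t) * (A q - B q) = -((1 - s) * A q + s * B q) + (A q - t * (A q - B q)) := by
              ring
            rw [this, htm]
            have h5 : A (q.1, q.2) = A q := rfl
            have h6 : B (q.1, q.2) = B q := rfl
            rw [h5, h6] at h2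
            linarith
          have := mul_pos (sub_pos.2 h3) hAB
          linarith
        -- the list is sorted at time `t`
        have hRt : Srt X (seg w w' t) R := by
          refine ⟨hR.mem, hR.inj, ?_, hR.out⟩
          intro c d hcd hd
          have hbf : Bf X R (R c) (R d) := ⟨c, d, hcd, hd, rfl, rfl⟩
          have h1 := Bf.ht_le hR hbf
          have h2 := hg (R c) (R d) s
          have h3 := hg (R c) (R d) t
          by_cases h4 : Bf X P' (R d) (R c)
          · have h5 : (R c, R d) ∈ inv X P' R := (mem_inv hR).2 ⟨hbf, h4⟩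
            have h6 := hmin _ h5
            obtain ⟨k1, k2, k3⟩ := hprop _ h5
            have h7 : t * (A (R c, R d) - B (R c, R d)) ≤ A (R c, R d) := by
              have : T (R c, R d) * (A (R c, R d) - B (R c, R d)) = A (R c, R d) := by
                simp only [T]; field_simp
              have h8 := mul_le_mul_of_nonneg_right h6 k3.le
              rw [this] at h8
              exact h8
            have h8 : (1 - t) * A (R c, R d) + t * B (R c, R d) =
              A (R c, R d) - t * (A (R c, R d) - B (R c, R d)) := by ring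
            linarith
          · have h5 : Bf X P' (R c) (R d) := by
              rcases Bf.total hP' (hR.mem c (by omega)) (hR.mem d hd) (Bf.ne hR hbf) with h | h
              · exact h
              · exact absurd h h4
            have h6 : 0 ≤ B (R c, R d) := by
              have := Bf.ht_le hP' h5
              simp only [B]; linarith
            -- affine function nonnegative at `s` and at `1`
            have h7 : 0 ≤ (1 - s) * A (R c, R d) + s * B (R c, R d) := by linarith
            rcases eq_or_lt_of_le hs1 with h8 | h8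
            · have : t = 1 := by linarith
              rw [this] at h3 ⊢
              rw [seg_one]
              have := Bf.ht_le hP' h5
              exact this
            · have h9 : 0 ≤ (1 - s) * ((1 - t) * A (R c, R d) + t * B (R c, R d)) := by
                have : (1 - s) * ((1 - t) * A (R c, R d) + t * B (R c, R d)) =
                  (1 - t) * ((1 - s) * A (R c, R d) + s * B (R c, R d)) +
                    (t - s) * B (R c, R d) := by ring
                rw [this]
                exact add_nonneg (mul_nonneg (by linarith) h7) (mul_nonneg (by linarith) h6)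
              have h10 : 0 ≤ (1 - t) * A (R c, R d) + t * B (R c, R d) := by
                by_contra h11
                have := mul_neg_of_pos_of_neg (show 0 < 1 - s by linarith) (not_le.1 h11)
                linarith
              linarith
        -- the pair is adjacent
        obtain ⟨⟨a, b, hab, hb, ha', hb'⟩, hq2⟩ := hq'
        have hut : seg w w' t ≠ 0 := seg_ne hw t
        have htie : ht (seg w w' t) (R b) = ht (seg w w' t) (R a) := by
          have h1 := hg (R a) (R b) t
          have h2 : (R a, R b) = q := by rw [ha', hb']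
          rw [h2] at h1
          have : (1 - t) * A q + t * B q = A q - t * (A q - B q) := by ring
          rw [this, htm] at h1
          linarith
        have hba : b = a + 1 := by
          by_contra h1
          have h2 := hRt.mono a (a + 1) (by omega) (by omega)
          have h3 := hRt.mono (a + 1) b (by omega) hb
          exact no_tie hX hut (hR.mem a (by omega)) (hR.mem (a + 1) (by omega)) (hR.mem b hb)
            (fun h => by have := hR.inj _ _ (by omega) (by omega) h; omega)
            (fun h => by have := hR.inj _ _ (by omega) (by omega) h; omega)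
            (fun h => by have := hR.inj _ _ (by omega) (by omega) h; omega)
            (by linarith) (by linarith)
        subst hba
        have hs' : Srt X (seg w w' t) (sw a R) := sw_srt hRt hb htie
        have hpos : 0 < crs (seg w w' t) (R (a + 1) - R a) := by
          refine crs_pos hw ht0 ht1 ?_ htie ?_ ?_
          · intro h; have := hR.inj _ _ (by omega) (by omega) h; omega
          · rw [ha', hb']
            exact hinv q.1 q.2 ⟨a, a + 1, by omega, hb, ha', hb'⟩ hq2
          · rw [ha', hb']
            exact Bf.ht_le hP' hq2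
        have hstp : Stp X (seg w w' t) a R (sw a R) :=
          ⟨hb, hRt, hs', fun i => rfl, htie, hpos⟩
        have hQ1 := hstep t a R (sw a R) ht0 ht1 hstp hQR
        -- inverted pairs of the new list
        have hsub : ∀ x y, Bf X (sw a R) x y → Bf X P' y x → Bf X R x y := by
          rintro x y ⟨c, d, hcd, hd, hc', hd'⟩ h2
          by_cases h3 : c = a ∧ d = a + 1
          · exfalso
            obtain ⟨rfl, rfl⟩ := h3
            have e1 : x = R (c + 1) := by
              rw [← hc']; show R (Equiv.swap c (c + 1) c) = _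
              rw [Equiv.swap_apply_left]
            have e2 : y = R c := by
              rw [← hd']; show R (Equiv.swap c (c + 1) (c + 1)) = _
              rw [Equiv.swap_apply_right]
            rw [e1, e2, hb', ha'] at h2
            exact Bf.asymm hP' h2 hq2
          · exact ⟨_, _, swap_mono hcd h3, (swap_lt hb).2 hd, hc', hd'⟩
        have hlt : (inv X P' (sw a R)).card < (inv X P' R).card := by
          apply Finset.card_lt_card
          rw [Finset.ssubset_iff_of_subset]
          · refine ⟨q, hq, ?_⟩
            intro h1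
            have h2 := ((mem_inv hs').1 h1).1
            have h3 : Bf X (sw a R) q.2 q.1 := by
              refine ⟨a, a + 1, by omega, hb, ?_, ?_⟩
              · show R (Equiv.swap a (a + 1) a) = _
                rw [Equiv.swap_apply_left, hb']
              · show R (Equiv.swap a (a + 1) (a + 1)) = _
                rw [Equiv.swap_apply_right, ha']
            exact Bf.asymm hs' h2 h3
          · intro r hr
            have h1 := (mem_inv hs').1 hr
            exact (mem_inv hR).2 ⟨hsub _ _ h1.1 h1.2, h1.2⟩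
        exact ih _ (by rw [← hN]; exact hlt) t (sw a R) ht0 ht1 hs'
          (fun x y h1 h2 => hinv x y (hsub x y h1 h2) h2) rfl hQ1
      · have h1 : R = P' := by
          refine eq_of_no_inv hR hP' ?_
          intro x y h1 h2
          exact hne ⟨(x, y), (mem_inv hR).2 ⟨h1, h2⟩⟩
        rw [← h1]
        exact hQR
  refine main _ 0 P le_rfl zero_le_one (by rw [seg_zero]; exact hP) ?_ rfl hQ
  intro x y h1 _
  exact Bf.ht_le hP h1

end Sweep

end Pool.Agent.GCP
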