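import Pool.Agent.GCP.N27a
import Pool.Agent.GCP.SortAt
import Pool.Agent.GCP.Sweep

/-!
# Swapping a hull vertex of an exceptional set of eleven points (MP_062f91_co)

`Inn E z`: the point `z` of `E` lies inside a triangle of points of `E`.
`SL.keep`: if `E = C + e` and `E' = C + r` are both not three convex polygons and all points of `C` lie
on one side of the line through `e` and `r`, then the inner points of `E` are inner points of `E'`.
-/

namespace Pool.Agent.GCP

/-- `z` lies inside a triangle of points of `E` -/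
def Inn (E : Finset Pt) (z : Pt) : Prop :=
  z ∈ E ∧ ∃ a ∈ E, ∃ b ∈ E, ∃ c ∈ E, 0 < orient a b z ∧ 0 < orient b c z ∧ 0 < orient c a z

namespace SL

lemma orient_rot (a b c : Pt) : orient a b c = orient b c a := by unfold orient; ring

lemma orient_rot2 (a b c : Pt) : orient a b c = orient c a b := by unfold orient; ring

lemma orient_sw (a b c : Pt) : orient a b c = - orient b a c := by unfold orient; ring

lemma orient_sw2 (a b c : Pt) : orient a b c = - orient a c b := by unfold orient; ring

lemma orient_aab (a b : Pt) : orient a a b = 0 := by unfold orient; ring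

/-- a point with a hull edge is not inside a triangle -/
lemma not_inside {a b c z q : Pt} (h1 : 0 < orient a b z) (h2 : 0 < orient b c z)
    (h3 : 0 < orient c a z) (ha : 0 ≤ orient z q a) (hb : 0 ≤ orient z q b)
    (hc : 0 ≤ orient z q c) (hs : 0 < orient z q a ∨ 0 < orient z q b) : False := by
  have key : orient b c z * orient z q a + orient c a z * orient z q b +
      orient a b z * orient z q c = 0 := by
    unfold orient; ring
  have k1 := mul_nonneg h2.le ha
  have k2 := mul_nonneg h3.le hb
  have k3 := mul_nonneg h1.le hc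
  rcases hs with h | h
  · have := mul_pos h2 h
    linarith
  · have := mul_pos h3 h
    linarith

section
variable {P : ℕ → Pt}

/-- Positions `i` with a hull edge to position `q` are not inner positions. -/
lemma not_inn_of_edge {E : Finset Pt} {i q : ℕ} (hE : ∀ x ∈ E, ∃ k, k < 11 ∧ P k = x)
    (hpos : ∀ k, k < 11 → k ≠ i → k ≠ q → 0 < orient (P i) (P q) (P k)) :
    ¬ Inn E (P i) := by
  rintro ⟨-, a, ha, b, hb, c, hc, h1, h2, h3⟩
  have nn : ∀ x ∈ E, 0 ≤ orient (P i) (P q) x := by
    intro x hx
    obtain ⟨k, hk, rfl⟩ := hE x hx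
    by_cases e1 : k = i
    · subst e1
      have : orient (P k) (P q) (P k) = 0 := by unfold orient; ring
      rw [this]
    · by_cases e2 : k = q
      · subst e2
        have : orient (P i) (P k) (P k) = 0 := by unfold orient; ring
        rw [this]
      · exact (hpos k hk e1 e2).le
  have st : ∀ x ∈ E, x ≠ P i → x ≠ P q → 0 < orient (P i) (P q) x := by
    intro x hx n1 n2
    obtain ⟨k, hk, rfl⟩ := hE x hx
    exact hpos k hk (fun e => n1 (by rw [e])) (fun e => n2 (by rw [e]))
  have ai : a ≠ P i := by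
    intro e
    have : orient (P i) b (P i) = 0 := by unfold orient; ring
    rw [e, this] at h1
    exact lt_irrefl _ h1
  have bi : b ≠ P i := by
    intro e
    have : orient a (P i) (P i) = 0 := by unfold orient; ring
    rw [e, this] at h1
    exact lt_irrefl _ h1
  have ab : a ≠ b := by
    intro e
    rw [e, orient_aab] at h1
    exact lt_irrefl _ h1
  refine not_inside h1 h2 h3 (nn a ha) (nn b hb) (nn c hc) ?_
  by_cases aq : a = P q
  · exact Or.inr (st b hb bi (fun e => ab (by rw [aq, e])))
  · exact Or.inl (st a ha ai aq)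

/-- signs of the classification -/
lemma us_hold (hf : Frame 11 P) (h1 : ¬ HCPle (P '' {i | i < 11}) 3) {q : Q} (hq : [q] ∈ X11.TG) :
    QH P q := by
  obtain ⟨q', h2, h3⟩ := X11.facts.fx P hf h1 _ hq
  rw [List.mem_singleton] at h2
  rw [← h2]
  exact h3

/-- a point is not inside a triangle of points sorted around it -/
lemma not_inn_zero {E : Finset Pt} (hE : ∀ x ∈ E, ∃ k, k < 11 ∧ P k = x)
    (hsrt : ∀ i j, 1 ≤ i → i < j → j < 11 → 0 < orient (P 0) (P i) (P j)) : ¬ Inn E (P 0) := by
  rintro ⟨-, a, ha, b, hb, c, hc, h1, h2, h3⟩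
  obtain ⟨i, hi, rfl⟩ := hE a ha
  obtain ⟨j, hj, rfl⟩ := hE b hb
  obtain ⟨k, hk, rfl⟩ := hE c hc
  have key : ∀ x y, x < 11 → y < 11 → 0 < orient (P x) (P y) (P 0) → x < y ∧ 1 ≤ x := by
    intro x y hx hy hxy
    have x0 : x ≠ 0 := by
      rintro rfl
      have : orient (P 0) (P y) (P 0) = 0 := by unfold orient; ring
      rw [this] at hxy
      exact lt_irrefl _ hxy
    have y0 : y ≠ 0 := by
      rintro rfl
      have : orient (P x) (P 0) (P 0) = 0 := by unfold orient; ring
      rw [this] at hxy
      exact lt_irrefl _ hxy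
    refine ⟨?_, by omega⟩
    rcases lt_trichotomy x y with h | h | h
    · exact h
    · subst h
      rw [orient_aab] at hxy
      exact absurd hxy (lt_irrefl _)
    · have := hsrt y x (by omega) h hx
      rw [orient_rot2, orient_sw2] at hxy
      linarith
  have k1 := (key i j hi hj h1).1
  have k2 := (key j k hj hk h2).1
  have k3 := (key k i hk hi h3).1
  omega

end

/-- The positive signs of the classification of the eleven points which are used. -/
lemma signs {P : ℕ → Pt} (hf : Frame 11 P) (h1 : ¬ HCPle (P '' {i | i < 11}) 3) :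
    (∀ k, k < 11 → k ≠ 1 → k ≠ 4 → 0 < orient (P 1) (P 4) (P k)) ∧
    (∀ k, k < 11 → k ≠ 4 → k ≠ 7 → 0 < orient (P 4) (P 7) (P k)) ∧
    (∀ k, k < 11 → k ≠ 7 → k ≠ 10 → 0 < orient (P 7) (P 10) (P k)) := by
  have pos : ∀ i j k, [(true, i, j, k)] ∈ X11.TG → 0 < orient (P i) (P j) (P k) := by
    intro i j k h
    exact us_hold hf h1 h
  have neg : ∀ i j k, i < 11 → j < 11 → k < 11 → i ≠ j → j ≠ k → i ≠ k →
      [(false, i, j, k)] ∈ X11.TG → orient (P i) (P j) (P k) < 0 := by
    intro i j k hi hj hk n1 n2 n3 h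
    have h2 : ¬ 0 < orient (P i) (P j) (P k) := us_hold hf h1 h
    exact lt_of_le_of_ne (not_lt.1 h2) (hf.gp i j k hi hj hk n1 n2 n3)
  have z : ∀ i j, 1 ≤ i → i < j → j < 11 → 0 < orient (P i) (P j) (P 0) := by
    intro i j h1 h2 h3
    rw [← orient_rot (P 0)]
    exact hf.srt i j h1 h2 h3
  refine ⟨?_, ?_, ?_⟩
  · intro k hk n1 n2
    interval_cases k
    · exact z 1 4 (by omega) (by omega) (by omega)
    · omega
    · have := neg 1 2 4 (by omega) (by omega) (by omega) (by omega) (by omega) (by omega) (by decide)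
      rw [orient_sw2]; linarith
    · have := neg 1 3 4 (by omega) (by omega) (by omega) (by omega) (by omega) (by omega) (by decide)
      rw [orient_sw2]; linarith
    · omega
    all_goals exact pos 1 4 _ (by decide)
  · intro k hk n1 n2
    interval_cases k
    · exact z 4 7 (by omega) (by omega) (by omega)
    · have := pos 1 4 7 (by decide)
      rw [orient_rot (P 1)] at this; exact this
    · have := pos 2 4 7 (by decide)
      rw [orient_rot (P 2)] at this; exact this
    · have := pos 3 4 7 (by decide)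
      rw [orient_rot (P 3)] at this; exact this
    · omega
    · have := neg 4 5 7 (by omega) (by omega) (by omega) (by omega) (by omega) (by omega) (by decide)
      rw [orient_sw2]; linarith
    · have := neg 4 6 7 (by omega) (by omega) (by omega) (by omega) (by omega) (by omega) (by decide)
      rw [orient_sw2]; linarith
    · omega
    all_goals exact pos 4 7 _ (by decide)
  · intro k hk n1 n2
    interval_cases k
    · exact z 7 10 (by omega) (by omega) (by omega)
    · have := pos 1 7 10 (by decide)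
      rw [orient_rot (P 1)] at this; exact this
    · have := pos 2 7 10 (by decide)
      rw [orient_rot (P 2)] at this; exact this
    · have := pos 3 7 10 (by decide)
      rw [orient_rot (P 3)] at this; exact this
    · have := pos 4 7 10 (by decide)
      rw [orient_rot (P 4)] at this; exact this
    · have := pos 5 7 10 (by decide)
      rw [orient_rot (P 5)] at this; exact this
    · have := pos 6 7 10 (by decide)
      rw [orient_rot (P 6)] at this; exact this
    · omega
    · have := neg 7 8 10 (by omega) (by omega) (by omega) (by omega) (by omega) (by omega) (by decide)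
      rw [orient_sw2]; linarith
    · have := neg 7 9 10 (by omega) (by omega) (by omega) (by omega) (by omega) (by omega) (by decide)
      rw [orient_sw2]; linarith
    · omega

/-- The goal in geometric form. -/
lemma goal2 {P : ℕ → Pt} (hf : Frame 12 P)
    (h1 : ¬ HCPle (P '' {i | i < 11}) 3) (h2 : ¬ HCPle (P '' {i | 1 ≤ i ∧ i < 12}) 3) {x : ℕ}
    (hx : x = 2 ∨ x = 3 ∨ x = 5 ∨ x = 6 ∨ x = 8 ∨ x = 9) :
    0 < orient (P 11) (P 1) (P x) ∧ 0 < orient (P 10) (P 11) (P x) := by
  have key : ∀ i j k, 1 ≤ i → i < j → j < k → k < 12 → gN.testBit (idx i j k) = true →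
      0 < orient (P i) (P j) (P k) := by
    intro i j k a1 a2 a3 a4 hb
    have := goal hf h1 h2 hb
    exact (val_idx a1 a2 a3).1 this
  have e1 : 0 < orient (P 1) (P x) (P 11) := by
    rcases hx with rfl | rfl | rfl | rfl | rfl | rfl <;>
      exact key _ _ _ (by omega) (by omega) (by omega) (by omega) (by decide +kernel)
  have e2 : 0 < orient (P x) (P 10) (P 11) := by
    rcases hx with rfl | rfl | rfl | rfl | rfl | rfl <;>
      exact key _ _ _ (by omega) (by omega) (by omega) (by omega) (by decide +kernel)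
  constructor
  · rw [orient_rot (P 11)]; exact e1
  · rw [orient_rot2 (P 10)]; exact e2

lemma frame_le {P : ℕ → Pt} {n m : ℕ} (hf : Frame n P) (hm : m ≤ n) : Frame m P :=
  ⟨fun i j hi hj => hf.inj i j (by omega) (by omega),
   fun i j k hi hj hk => hf.gp i j k (by omega) (by omega) (by omega),
   fun i j h1 h2 h3 => hf.srt i j h1 h2 (by omega),
   fun i j k l h1 h2 h3 h4 h5 => hf.sig i j k l h1 h2 h3 h4 (by omega)⟩

/-- tilting a direction -/
lemma tilt {C : Finset Pt} {e r w : Pt} (hr : e ≠ r) (h0 : ht w r = ht w e)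
    (hC : ∀ x ∈ C, ht w e < ht w x) : ∃ e1 e2 : ℝ, ∀ q ∈ insert r C,
      0 < e1 * (q.1 - e.1) + e2 * (q.2 - e.2) := by
  have key : ∀ x ∈ C, ∀ᶠ δ in nhdsWithin (0 : ℝ) (Set.Ioi 0),
      0 < (ht w x - ht w e) + δ * ((r.1 - e.1) * (x.1 - e.1) + (r.2 - e.2) * (x.2 - e.2)) := by
    intro x hx
    have h1 := hC x hx
    have hcont : Filter.Tendsto (fun δ : ℝ => (ht w x - ht w e) +
        δ * ((r.1 - e.1) * (x.1 - e.1) + (r.2 - e.2) * (x.2 - e.2))) (nhds 0)
        (nhds ((ht w x - ht w e) +
        0 * ((r.1 - e.1) * (x.1 - e.1) + (r.2 - e.2) * (x.2 - e.2)))) := by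
      apply Continuous.tendsto'
      · fun_prop
      · rfl
    rw [zero_mul, add_zero] at hcont
    exact (hcont.mono_left nhdsWithin_le_nhds).eventually (lt_mem_nhds (by linarith))
  have h2 : ∀ᶠ δ in nhdsWithin (0 : ℝ) (Set.Ioi 0), ∀ x ∈ C,
      0 < (ht w x - ht w e) + δ * ((r.1 - e.1) * (x.1 - e.1) + (r.2 - e.2) * (x.2 - e.2)) :=
    (Filter.eventually_all_finset C).2 key
  obtain ⟨δ, h3, h4⟩ := (h2.and self_mem_nhdsWithin).exists
  have h4' : 0 < δ := h4
  refine ⟨w.1 + δ * (r.1 - e.1), w.2 + δ * (r.2 - e.2), ?_⟩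
  intro q hq
  rcases Finset.mem_insert.1 hq with rfl | hq
  · have h5 : 0 < (q.1 - e.1) ^ 2 + (q.2 - e.2) ^ 2 := by
      by_contra hcon
      apply hr
      have a1 : q.1 - e.1 = 0 := by nlinarith [sq_nonneg (q.1 - e.1), sq_nonneg (q.2 - e.2)]
      have a2 : q.2 - e.2 = 0 := by nlinarith [sq_nonneg (q.1 - e.1), sq_nonneg (q.2 - e.2)]
      ext <;> linarith
    have h6 := mul_pos h4' h5
    have h7 : w.1 * q.1 + w.2 * q.2 = w.1 * e.1 + w.2 * e.2 := h0
    nlinarith [h6, h7]
  · have h5 := h3 q hq
    have h7 : ht w q - ht w e = w.1 * (q.1 - e.1) + w.2 * (q.2 - e.2) := by unfold ht; ring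
    rw [h7] at h5
    linarith

/-- The inner points stay inner points. -/
theorem keep {C : Finset Pt} {e r z w : Pt} (hC : C.card = 10) (he : e ∉ C) (hr : r ∉ C)
    (her : e ≠ r) (hG : GeneralPosition ((insert e (insert r C) : Finset Pt)))
    (h0 : ht w r = ht w e) (hwC : ∀ x ∈ C, ht w e < ht w x) (ho : ∀ x ∈ C, orient e r x < 0)
    (hE : ¬ HCPle ((insert e C : Finset Pt) : Set Pt) 3)
    (hE' : ¬ HCPle ((insert r C : Finset Pt) : Set Pt) 3) (hz : Inn (insert e C) z) :
    Inn (insert r C) z := by
  classical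
  set S : Finset Pt := insert e (insert r C) with hS
  have hSc : S.card = 11 + 1 := by
    rw [hS, Finset.card_insert_of_notMem, Finset.card_insert_of_notMem hr, hC]
    rw [Finset.mem_insert]
    push Not
    exact ⟨her, he⟩
  obtain ⟨e1, e2, h12⟩ := tilt her h0 hwC
  obtain ⟨P, p1, p2, p3, p4, p5⟩ := exists_sorted_at hSc hG
    (p := e) (by rw [hS]; exact Finset.mem_insert_self _ _) (e1 := e1) (e2 := e2)
    (by
      intro q hq hqe
      rw [hS, Finset.mem_insert] at hq
      exact h12 q (hq.resolve_left hqe)) (by norm_num)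
  have hmem : ∀ i, i < 12 → P i ∈ S := by
    intro i hi
    rw [p1]
    exact Finset.mem_image_of_mem _ (Finset.mem_range.2 hi)
  have hf : Frame 12 P := by
    refine ⟨p3, ?_, ?_, p5⟩
    · intro i j k hi hj hk n1 n2 n3
      exact orient_ne hG (hmem i hi) (hmem j hj) (hmem k hk) (p3 i j hi hj n1) (p3 j k hj hk n2)
        (p3 i k hi hk n3)
    · intro i j h1 h2 h3
      exact p4 i j h1 h2 (by omega)
  -- the place of `r`
  have hex : ∀ x ∈ S, ∃ k, k < 12 ∧ P k = x := by
    intro x hx
    rw [p1, Finset.mem_image] at hx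
    obtain ⟨k, hk, rfl⟩ := hx
    exact ⟨k, Finset.mem_range.1 hk, rfl⟩
  have h11 : P 11 = r := by
    obtain ⟨k, hk, hk'⟩ := hex r (by rw [hS]; simp)
    have k0 : k ≠ 0 := by
      rintro rfl
      exact her (p2.symm.trans hk')
    by_contra hne
    have k11 : k < 11 := by
      rcases Nat.lt_succ_iff_lt_or_eq.1 hk with h | h
      · exact h
      · subst h; exact absurd hk' hne
    have h1 := p4 k 11 (by omega) k11 (by omega)
    rw [p2, hk'] at h1
    have h2 : P 11 ∈ C := by
      have h3 := hmem 11 (by omega)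
      rw [hS, Finset.mem_insert, Finset.mem_insert] at h3
      rcases h3 with h3 | h3 | h3
      · exact absurd (h3.trans p2.symm) (p3 11 0 (by omega) (by omega) (by omega))
      · exact absurd h3 hne
      · exact h3
    linarith [ho _ h2]
  have hCk : ∀ k, 1 ≤ k → k < 11 → P k ∈ C := by
    intro k h1 h2
    have h3 := hmem k (by omega)
    rw [hS, Finset.mem_insert, Finset.mem_insert] at h3
    rcases h3 with h3 | h3 | h3
    · exact absurd (h3.trans p2.symm) (p3 k 0 (by omega) (by omega) (by omega))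
    · exact absurd (h3.trans h11.symm) (p3 k 11 (by omega) (by omega) (by omega))
    · exact h3
  have hCx : ∀ x ∈ C, ∃ k, 1 ≤ k ∧ k < 11 ∧ P k = x := by
    intro x hx
    obtain ⟨k, hk, rfl⟩ := hex x (by rw [hS]; simp [hx])
    have k0 : k ≠ 0 := by
      rintro rfl
      rw [p2] at hx
      exact he hx
    have k11 : k ≠ 11 := by
      rintro rfl
      rw [h11] at hx
      exact hr hx
    exact ⟨k, by omega, by omega, rfl⟩
  have eE : P '' {i | i < 11} = ((insert e C : Finset Pt) : Set Pt) := by
    ext x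
    rw [Finset.mem_coe, Finset.mem_insert]
    constructor
    · rintro ⟨i, hi, rfl⟩
      have hi' : i < 11 := hi
      rcases Nat.eq_zero_or_pos i with h | h
      · subst h; exact Or.inl p2
      · exact Or.inr (hCk i h hi')
    · rintro (rfl | hx)
      · exact ⟨0, by simp, p2⟩
      · obtain ⟨k, h1, h2, rfl⟩ := hCx x hx
        exact ⟨k, h2, rfl⟩
  have eE' : P '' {i | 1 ≤ i ∧ i < 12} = ((insert r C : Finset Pt) : Set Pt) := by
    ext x
    rw [Finset.mem_coe, Finset.mem_insert]
    constructor
    · rintro ⟨i, ⟨h1, h2⟩, rfl⟩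
      by_cases h : i = 11
      · subst h; exact Or.inl h11
      · exact Or.inr (hCk i h1 (by omega))
    · rintro (rfl | hx)
      · exact ⟨11, ⟨by omega, by omega⟩, h11⟩
      · obtain ⟨k, h1, h2, rfl⟩ := hCx x hx
        exact ⟨k, ⟨h1, by omega⟩, rfl⟩
  rw [← eE] at hE
  rw [← eE'] at hE'
  have hf11 := frame_le hf (show 11 ≤ 12 by omega)
  obtain ⟨s1, s2, s3⟩ := signs hf11 hE
  have hEx : ∀ x ∈ insert e C, ∃ k, k < 11 ∧ P k = x := by
    intro x hx
    rcases Finset.mem_insert.1 hx with rfl | hx
    · exact ⟨0, by omega, p2⟩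
    · obtain ⟨k, h1, h2, rfl⟩ := hCx x hx
      exact ⟨k, h2, rfl⟩
  obtain ⟨k, hk, rfl⟩ := hEx z hz.1
  have hcase : k = 2 ∨ k = 3 ∨ k = 5 ∨ k = 6 ∨ k = 8 ∨ k = 9 := by
    by_contra hcon
    have : k = 0 ∨ k = 1 ∨ k = 4 ∨ k = 7 ∨ k = 10 := by omega
    rcases this with rfl | rfl | rfl | rfl | rfl
    · exact not_inn_zero hEx (fun i j h1 h2 h3 => hf11.srt i j h1 h2 h3) hz
    · exact not_inn_of_edge (q := 4) hEx s1 hz
    · exact not_inn_of_edge (q := 7) hEx s2 hz
    · exact not_inn_of_edge (q := 10) hEx s3 hz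
    · refine not_inn_of_edge (q := 0) hEx ?_ hz
      intro k h1 h2 h3
      have h4 := hf11.srt k 10 (by omega) (by omega) (by omega)
      rw [orient_rot2 (P 0)] at h4
      exact h4
  obtain ⟨g1, g2⟩ := goal2 hf hE hE' hcase
  have hk1 : 1 ≤ k := by omega
  refine ⟨Finset.mem_insert_of_mem (hCk k hk1 hk), ?_⟩
  have m1 : P 1 ∈ insert r C := Finset.mem_insert_of_mem (hCk 1 (by omega) (by omega))
  have m4 : P 4 ∈ insert r C := Finset.mem_insert_of_mem (hCk 4 (by omega) (by omega))
  have m7 : P 7 ∈ insert r C := Finset.mem_insert_of_mem (hCk 7 (by omega) (by omega))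
  have m10 : P 10 ∈ insert r C := Finset.mem_insert_of_mem (hCk 10 (by omega) (by omega))
  have m11 : P 11 ∈ insert r C := by rw [h11]; exact Finset.mem_insert_self _ _
  have t1 := s1 k hk (by omega) (by omega)
  have t2 := s2 k hk (by omega) (by omega)
  have t3 := s3 k hk (by omega) (by omega)
  rcases lt_or_gt_of_ne (hf.gp 11 4 k (by omega) (by omega) (by omega) (by omega) (by omega)
    (by omega)) with h | h
  · refine ⟨P 11, m11, P 1, m1, P 4, m4, g1, t1, ?_⟩
    rw [orient_sw]; linarith
  · rcases lt_or_gt_of_ne (hf.gp 11 7 k (by omega) (by omega) (by omega) (by omega) (by omega)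
      (by omega)) with h' | h'
    · refine ⟨P 11, m11, P 4, m4, P 7, m7, h, t2, ?_⟩
      rw [orient_sw]; linarith
    · exact ⟨P 11, m11, P 7, m7, P 10, m10, h', t3, g2⟩

end SL

end Pool.Agent.GCP
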