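import Pool.Agent.GCP.N27b
import Pool.Agent.GCP.ExcStep

/-!
# Twenty-seven points (MP_062f91_co)

If the highest eleven points in some direction are exceptional then this holds for all directions and
the inner points of the highest eleven points never change: a contradiction.
-/

namespace Pool.Agent.GCP

namespace N27

variable {X : Finset Pt} {w : Pt} {P : ℕ → Pt}

/-- the highest `k` points -/
noncomputable def top (P : ℕ → Pt) (k : ℕ) : Finset Pt := by
  classical
  exact (Finset.range k).image P

lemma mem_top {k : ℕ} {x : Pt} : x ∈ top P k ↔ ∃ i, i < k ∧ P i = x := by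
  classical
  unfold top
  rw [Finset.mem_image]
  simp only [Finset.mem_range]

lemma card_top (h : Srt X w P) {k : ℕ} (hk : k ≤ X.card) : (top P k).card = k ∧ top P k ⊆ X := by
  classical
  unfold top
  exact Win.card_top h hk

lemma cut (hX : GeneralPosition X) (hw : w ≠ 0) (h : Srt X w P) {k : ℕ} (hk : 0 < k)
    (hkn : k < X.card) : Disjoint (convexHull ℝ ((top P k : Finset Pt) : Set Pt))
      (convexHull ℝ ((X \ top P k : Finset Pt) : Set Pt)) := by
  classical
  unfold top
  exact Win.top_cut hX hw h hk hkn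

/-- The highest sixteen points are four convex polygons if the highest eleven are exceptional. -/
lemma four (hL : L16) (hX : GeneralPosition X) (hn : 16 < X.card) (hw : w ≠ 0) (h : Srt X w P)
    (hE : ¬ HCPle ((top P 11 : Finset Pt) : Set Pt) 3) :
    HCPle ((top P 16 : Finset Pt) : Set Pt) 4 := by
  classical
  obtain ⟨a1, a2⟩ := card_top h (k := 11) (by omega)
  obtain ⟨b1, b2⟩ := card_top h (k := 16) (by omega)
  have hsub : top P 11 ⊆ top P 16 := by
    intro x hx
    obtain ⟨i, hi, rfl⟩ := mem_top.1 hx
    exact mem_top.2 ⟨i, by omega, rfl⟩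
  have hc : (top P 16 \ top P 11).card = 5 := by
    rw [Finset.card_sdiff_of_subset hsub, b1, a1]
  have key := hL (top P 11) ∅ (top P 16 \ top P 11) a1 (by rw [hc]; rfl)
    (Finset.disjoint_empty_right _) (by rw [Finset.union_empty]; exact Finset.disjoint_sdiff) ?_ ?_ ?_ hE
  · rw [Finset.union_empty, Finset.union_sdiff_of_subset hsub] at key
    exact key
  · rw [Finset.union_empty, Finset.union_sdiff_of_subset hsub]
    exact hX.subset b2
  · rw [Finset.coe_empty, convexHull_empty]
    exact Set.disjoint_empty _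
  · rw [Finset.union_empty]
    refine (cut hX hw h (k := 11) (by omega) (by omega)).mono_right (convexHull_mono ?_)
    intro x hx
    rw [Finset.mem_coe, Finset.mem_sdiff] at hx ⊢
    exact ⟨b2 hx.1, hx.2⟩

/-- The rest is exceptional. -/
lemma rest (hL : L16) (hX : GeneralPosition X) (hn : X.card = 27) (hw : w ≠ 0) (h : Srt X w P)
    (h7 : ¬ HCPle (X : Set Pt) 7) (h4 : HCPle ((top P 16 : Finset Pt) : Set Pt) 4) :
    ¬ HCPle ((X \ top P 16 : Finset Pt) : Set Pt) 3 := by
  classical
  intro h3
  obtain ⟨b1, b2⟩ := card_top h (k := 16) (by omega)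
  have h5 := h4.append h3 (cut hX hw h (k := 16) (by omega) (by omega))
  rw [← Finset.coe_union, Finset.union_sdiff_of_subset b2] at h5
  exact h7 h5

/-- The reversed list. -/
noncomputable def rev (P : ℕ → Pt) (i : ℕ) : Pt := if i < 27 then P (26 - i) else 0

lemma rev_srt (hn : X.card = 27) (h : Srt X w P) : Srt X (-w) (rev P) := by
  have hneg : ∀ z : Pt, ht (-w) z = - ht w z := by
    intro z
    unfold ht
    simp only [Prod.fst_neg, Prod.snd_neg]
    ring
  refine ⟨?_, ?_, ?_, ?_⟩
  · intro i hi
    unfold rev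
    rw [if_pos (by omega)]
    exact h.mem _ (by omega)
  · intro i j hi hj hij
    unfold rev at hij
    rw [if_pos (by omega), if_pos (by omega)] at hij
    have := h.inj _ _ (by omega) (by omega) hij
    omega
  · intro i j hij hj
    unfold rev
    rw [if_pos (by omega), if_pos (by omega), hneg, hneg]
    have := h.mono (26 - j) (26 - i) (by omega) (by omega)
    linarith
  · intro i hi
    unfold rev
    rw [if_neg (by omega)]

lemma top_rev (hn : X.card = 27) (h : Srt X w P) {k : ℕ} (hk : k ≤ 27) :
    top (rev P) k = X \ top P (27 - k) := by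
  classical
  ext x
  rw [mem_top, Finset.mem_sdiff, mem_top]
  constructor
  · rintro ⟨i, hi, rfl⟩
    unfold rev
    rw [if_pos (by omega)]
    refine ⟨h.mem _ (by omega), ?_⟩
    rintro ⟨j, hj, hij⟩
    have := h.inj _ _ (by omega) (by omega) hij
    omega
  · rintro ⟨hx, hni⟩
    obtain ⟨i, hi, rfl⟩ := Sweep.surj h hx
    refine ⟨26 - i, ?_, ?_⟩
    · by_contra hc
      exact hni ⟨i, by omega, rfl⟩
    · unfold rev
      rw [if_pos (by omega)]
      congr 1
      omega

lemma rev_rev (hn : X.card = 27) (h : Srt X w P) : rev (rev P) = P := by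
  funext i
  unfold rev
  by_cases hi : i < 27
  · rw [if_pos hi, if_pos (by omega)]
    congr 1
    omega
  · rw [if_neg hi, h.out i (by omega)]

/-- The highest eleven are exceptional iff the lowest eleven are. -/
lemma AB (hL : L16) (hX : GeneralPosition X) (hn : X.card = 27) (hw : w ≠ 0) (h : Srt X w P)
    (h7 : ¬ HCPle (X : Set Pt) 7) :
    ¬ HCPle ((top P 11 : Finset Pt) : Set Pt) 3 ↔
      ¬ HCPle ((X \ top P 16 : Finset Pt) : Set Pt) 3 := by
  constructor
  · intro hE
    exact rest hL hX hn hw h h7 (four hL hX (by omega) hw h hE)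
  · intro hE
    have h' := rev_srt hn h
    have hw' : -w ≠ 0 := neg_ne_zero.2 hw
    have e1 : top (rev P) 11 = X \ top P 16 := by
      have := top_rev hn h (k := 11) (by norm_num)
      simpa using this
    have e2 : X \ top (rev P) 16 = top P 11 := by
      have := top_rev hn h' (k := 11) (by norm_num)
      rw [rev_rev hn h] at this
      simpa using this.symm
    rw [← e1] at hE
    have := rest hL hX hn hw' h' h7 (four hL hX (by omega) hw' h' hE)
    rw [e2] at this
    exact this

/-- A swap does not change the highest points except at the border. -/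
lemma top_stp {j : ℕ} {P' : ℕ → Pt} (h : Stp X w j P P') {k : ℕ} (hk : k ≠ j + 1) :
    top P' k = top P k := by
  ext x
  rw [mem_top, mem_top]
  have key : ∀ i, (Equiv.swap j (j + 1) i < k ↔ i < k) := by
    intro i
    rw [Equiv.swap_apply_def]
    split_ifs with h1 h2
    · omega
    · omega
    · rfl
  constructor
  · rintro ⟨i, hi, rfl⟩
    exact ⟨Equiv.swap j (j + 1) i, (key i).2 hi, (h.eq i).symm⟩
  · rintro ⟨i, hi, rfl⟩
    refine ⟨Equiv.swap j (j + 1) i, (key i).2 hi, ?_⟩
    rw [h.eq, Equiv.swap_apply_self]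

/-- the sweep invariant -/
def Inv (P : ℕ → Pt) (z : Pt) : Prop :=
  ¬ HCPle ((top P 11 : Finset Pt) : Set Pt) 3 ∧ Inn (top P 11) z

lemma step (hL : L16) (hX : GeneralPosition X) (hn : X.card = 27) (hw : w ≠ 0) {j : ℕ}
    {P' : ℕ → Pt} (h : Stp X w j P P') (h7 : ¬ HCPle (X : Set Pt) 7) {z : Pt} (hI : Inv P z) :
    Inv P' z := by
  classical
  by_cases hj : j = 10
  · subst hj
    have e16 : top P' 16 = top P 16 := top_stp h (by omega)
    have hB := (AB hL hX hn hw h.s h7).1 hI.1
    rw [← e16] at hB
    have hE' := (AB hL hX hn hw h.s' h7).2 hB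
    refine ⟨hE', ?_⟩
    set C := top P 10 with hC
    have hP' : ∀ i, i < 10 → P' i = P i := by
      intro i hi
      rw [h.eq, Equiv.swap_apply_of_ne_of_ne (by omega) (by omega)]
    have hP10 : P' 10 = P 11 := by
      rw [h.eq, Equiv.swap_apply_left]
    have t1 : top P 11 = insert (P 10) C := by
      ext x
      rw [Finset.mem_insert, hC, mem_top, mem_top]
      constructor
      · rintro ⟨i, hi, rfl⟩
        by_cases h10 : i = 10
        · subst h10; exact Or.inl rfl
        · exact Or.inr ⟨i, by omega, rfl⟩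
      · rintro (rfl | ⟨i, hi, rfl⟩)
        · exact ⟨10, by omega, rfl⟩
        · exact ⟨i, by omega, rfl⟩
    have t2 : top P' 11 = insert (P 11) C := by
      ext x
      rw [Finset.mem_insert, hC, mem_top, mem_top]
      constructor
      · rintro ⟨i, hi, rfl⟩
        by_cases h10 : i = 10
        · subst h10; exact Or.inl hP10
        · exact Or.inr ⟨i, by omega, (hP' i (by omega)).symm⟩
      · rintro (rfl | ⟨i, hi, rfl⟩)
        · exact ⟨10, by omega, hP10⟩
        · exact ⟨i, by omega, hP' i hi⟩
    have hlt := h.lt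
    have hmem : ∀ i, 10 ≤ i → i < 12 → P i ∉ C := by
      intro i h1 h2 h3
      rw [hC, mem_top] at h3
      obtain ⟨k, hk, hk'⟩ := h3
      have := h.s.inj _ _ (by omega) (by omega) hk'
      omega
    obtain ⟨c1, c2⟩ := card_top h.s (k := 10) (by omega)
    have hI2 := hI.2
    have hI1 := hI.1
    rw [t1] at hI2 hI1
    rw [t2] at hE' ⊢
    have ss := (Win.swap_sign hX hw h).1
    refine SL.keep (w := w) c1 (hmem 10 (by omega) (by omega)) (hmem 11 (by omega) (by omega))
      (Win.srt_ne h.s (by omega) (by omega) (by omega)) ?_ h.tie ?_ ?_ hI1 hE' hI2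
    · refine hX.subset ?_
      intro x hx
      rw [Finset.mem_insert, Finset.mem_insert] at hx
      rcases hx with rfl | rfl | hx
      · exact h.s.mem _ (by omega)
      · exact h.s.mem _ (by omega)
      · exact c2 hx
    · intro x hx
      rw [hC, mem_top] at hx
      obtain ⟨i, hi, rfl⟩ := hx
      have h1 := Win.srt_lt hX hw h.s (i := i) (j := 10) (k := 11) hi (by omega) (by omega)
      have h2 : ht w (P 11) = ht w (P 10) := h.tie
      rw [h2] at h1
      exact h1
    · intro x hx
      rw [hC, mem_top] at hx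
      obtain ⟨i, hi, rfl⟩ := hx
      have := ss i hi
      rw [SL.orient_rot] at this
      exact this
  · have e11 : top P' 11 = top P 11 := top_stp h (by omega)
    unfold Inv
    rw [e11]
    exact hI

/-- No direction has an exceptional set of eleven highest points. -/
theorem no_top (hL : L16) (hX : GeneralPosition X) (hn : X.card = 27) (hw : w ≠ 0) (h : Srt X w P)
    (h7 : ¬ HCPle (X : Set Pt) 7) {z : Pt} (hI : Inv P z) : False := by
  have hn0 : 0 < w.1 ^ 2 + w.2 ^ 2 := by
    by_contra hc
    apply hw
    have : w.1 = 0 := by nlinarith [sq_nonneg w.1, sq_nonneg w.2]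
    have : w.2 = 0 := by nlinarith [sq_nonneg w.1, sq_nonneg w.2]
    ext <;> assumption
  set w1 : Pt := (-w.2, w.1) with hw1
  have c1 : 0 < crs w w1 := by
    unfold crs
    rw [hw1]
    simp only
    nlinarith
  have c2 : 0 < crs w1 (-w) := by
    unfold crs
    rw [hw1]
    simp only [Prod.fst_neg, Prod.snd_neg]
    nlinarith
  obtain ⟨P1, hP1⟩ := Sweep.exists_srt X w1
  have i1 : Inv P1 z := by
    refine Sweep.sweep hX c1 h hP1 (fun R => Inv R z) ?_ hI
    intro t j R R' _ _ hs hq
    exact step hL hX hn (Sweep.seg_ne c1 t) hs h7 hq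
  have hr := rev_srt hn h
  have i2 : Inv (rev P) z := by
    refine Sweep.sweep hX c2 hP1 hr (fun R => Inv R z) ?_ i1
    intro t j R R' _ _ hs hq
    exact step hL hX hn (Sweep.seg_ne c2 t) hs h7 hq
  obtain ⟨i, hi, hi'⟩ := mem_top.1 hI.2.1
  obtain ⟨j, hj, hj'⟩ := mem_top.1 i2.2.1
  unfold rev at hj'
  rw [if_pos (by omega), ← hi'] at hj'
  have := h.inj _ _ (by omega) (by omega) hj'
  omega

end N27

end Pool.Agent.GCP
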