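import Pool.Agent.GCP.C19All
import Pool.Agent.GCP.FrameW

/-!
# Nineteen points: the exceptional case (MP_062f91_co)

A set of eleven points without a partition into three parts, and a set of eight points with a
partition into two parts, separated by a line, have together a partition into five parts.
-/

set_option autoImplicit false

namespace Pool.Agent.GCP

namespace NW

/-- A partition into at most two parts. -/
lemma two_parts {A : Finset Pt} (h : HCPle (A : Set Pt) 2) {p : Pt} (hp : p ∈ A) :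
    ∃ Y0 Y1 : Finset Pt, IsConvexPolygon Y0 ∧ IsConvexPolygon Y1 ∧
      Disjoint (convexHull ℝ (Y0 : Set Pt)) (convexHull ℝ (Y1 : Set Pt)) ∧
      (∀ x ∈ A, x ∈ Y0 ∨ x ∈ Y1) ∧ p ∈ Y0 := by
  obtain ⟨k, hk, Ys, h1, h2, h3, h4⟩ := h
  match Ys, h1 with
  | [], _ =>
    obtain ⟨Y, hY, _⟩ := (h4 p).1 (Finset.mem_coe.2 hp)
    exact absurd hY (by simp)
  | [Y0], _ =>
    have hall : ∀ x ∈ A, x ∈ Y0 := by
      intro x hx
      obtain ⟨Y, hY, hxY⟩ := (h4 x).1 (Finset.mem_coe.2 hx)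
      rw [List.mem_singleton] at hY
      rwa [hY] at hxY
    refine ⟨Y0, ∅, (h2 Y0 (by simp)).2, ?_, ?_, fun x hx => Or.inl (hall x hx), hall p hp⟩
    · intro x hx
      simp at hx
    · simp
  | [Y0, Y1], _ =>
    have hd : Disjoint (convexHull ℝ (Y0 : Set Pt)) (convexHull ℝ (Y1 : Set Pt)) := by
      rw [List.pairwise_cons] at h3
      exact h3.1 Y1 (by simp)
    have hall : ∀ x ∈ A, x ∈ Y0 ∨ x ∈ Y1 := by
      intro x hx
      obtain ⟨Y, hY, hxY⟩ := (h4 x).1 (Finset.mem_coe.2 hx)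
      simp only [List.mem_cons, List.not_mem_nil, or_false] at hY
      rcases hY with rfl | rfl
      · exact Or.inl hxY
      · exact Or.inr hxY
    rcases hall p hp with h | h
    · exact ⟨Y0, Y1, (h2 Y0 (by simp)).2, (h2 Y1 (by simp)).2, hd, hall, h⟩
    · exact ⟨Y1, Y0, (h2 Y1 (by simp)).2, (h2 Y0 (by simp)).2, hd.symm,
        fun x hx => (hall x hx).symm, h⟩
  | a :: b :: c :: l, h1 =>
    simp only [List.length_cons] at h1
    omega

/-- A vertex of a convex polygon is not in the hull of other points. -/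
lemma not_mem_hull {Y : Finset Pt} (hY : IsConvexPolygon Y) {x : Pt} (hx : x ∈ Y) {S : Set Pt}
    (hS : ∀ y ∈ S, y ∈ Y ∧ y ≠ x) : x ∉ convexHull ℝ S := by
  have hext := hY (Finset.mem_coe.2 hx)
  have h7 := (convex_convexHull ℝ (Y : Set Pt)).mem_extremePoints_iff_convex_sdiff.1 hext
  intro h8
  have h9 : convexHull ℝ S ⊆ convexHull ℝ (Y : Set Pt) \ {x} := by
    refine convexHull_min ?_ h7.2
    intro y hy
    exact ⟨subset_convexHull ℝ _ (Finset.mem_coe.2 (hS y hy).1), (hS y hy).2⟩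
  exact (h9 h8).2 rfl

end NW

/-- The exceptional case of nineteen points. -/
theorem w_nineteen (h15 : ∀ Y : Finset Pt, Y.card ≤ 15 → GeneralPosition Y → HCPle (Y : Set Pt) 4)
    {E A : Finset Pt} (hE : E.card = 11) (hA : A.card = 8) (hg : GeneralPosition (E ∪ A))
    (hd : Disjoint (convexHull ℝ (E : Set Pt)) (convexHull ℝ (A : Set Pt)))
    (hE3 : ¬ HCPle (E : Set Pt) 3) (hA2 : HCPle (A : Set Pt) 2) :
    HCPle ((E ∪ A : Finset Pt) : Set Pt) 5 := by
  classical
  by_contra hK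
  have hdj : Disjoint E A := by
    rw [Finset.disjoint_left]
    intro x hx hx'
    exact Set.disjoint_left.1 hd (subset_convexHull ℝ _ (Finset.mem_coe.2 hx))
      (subset_convexHull ℝ _ (Finset.mem_coe.2 hx'))
  obtain ⟨P, hP, eE, eA⟩ := FW.exists_frameW hE hA hdj hg hd
  have memA : ∀ i, 11 ≤ i → i < 19 → P i ∈ A := by
    intro i h1 h2
    have : P i ∈ P '' {i | 11 ≤ i ∧ i < 19} := ⟨i, ⟨h1, h2⟩, rfl⟩
    rw [eA] at this
    exact Finset.mem_coe.1 this
  obtain ⟨Y0, Y1, y0, y1, yd, yA, y11⟩ := NW.two_parts hA2 (memA 11 (by omega) (by omega))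
  have hall : P '' {i | i < 19} = ((E ∪ A : Finset Pt) : Set Pt) := by
    rw [Finset.coe_union, ← eE, ← eA, ← Set.image_union]
    congr 1
    ext i
    simp only [Set.mem_ofPred_eq, Set.mem_union]
    omega
  refine C19.main (P := P) (Bl := fun i => P i ∉ Y0) ?_
  refine
    { fr := ⟨X11.facts.f2, X11.facts.f3, h15, ⟨hP.inj, hP.gp⟩⟩
      n11 := by norm_num
      nK := by rw [hall]; exact hK
      tg := X11.facts.fx P hP.frE (by rw [eE]; exact hE3)
      e0 := hP.frE.srt
      br := hP.brd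
      sA := hP.srtA
      sep := hP.dEA
      b11 := fun h => h y11
      ext := ?_
      dis := ?_ }
  · intro q hq1 hq2
    by_cases hq : P q ∈ Y0
    · refine NW.not_mem_hull y0 hq ?_
      rintro y ⟨i, ⟨h1, h2, h3, h4⟩, rfl⟩
      refine ⟨?_, hP.inj i q h2 hq2 h4⟩
      by_contra h5
      exact (h3.1 h5) hq
    · have hq' : P q ∈ Y1 := (yA _ (memA q hq1 hq2)).resolve_left hq
      refine NW.not_mem_hull y1 hq' ?_
      rintro y ⟨i, ⟨h1, h2, h3, h4⟩, rfl⟩
      exact ⟨(yA _ (memA i h1 h2)).resolve_left (h3.2 hq), hP.inj i q h2 hq2 h4⟩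
  · refine yd.symm.mono (convexHull_mono ?_) (convexHull_mono ?_)
    · rintro y ⟨i, ⟨h1, h2, h3⟩, rfl⟩
      exact Finset.mem_coe.2 ((yA _ (memA i h1 h2)).resolve_left h3)
    · rintro y ⟨i, ⟨h1, h2, h3⟩, rfl⟩
      rw [not_not] at h3
      exact Finset.mem_coe.2 h3

end Pool.Agent.GCP
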