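import Pool.Agent.GCP.UN3d

set_option autoImplicit false
set_option maxRecDepth 100000

/-! # Certificates of three chords (generated, MP_062f91_co) -/

namespace Pool.Agent.GCP.UN3

open Pool.Agent.GCP DB

namespace N22

theorem b20 : B 1280 1344 := Blk.of_chk [.t 1 (nat_lit 0) (.gp 8 9 10 17 11 false false true), .t 1 (nat_lit 0) (.gp 8 9 10 18 11 false false true), .t 1 (nat_lit 0) (.gp 8 9 10 18 14 false false true), .t 1 (nat_lit 0) (.gp 8 9 10 19 11 false false true), .t 1 (nat_lit 0) (.gp 8 9 11 12 13 true false true), .t 1 (nat_lit 0) (.gp 8 9 11 13 12 true false true), .t 1 (nat_lit 0) (.gp 8 9 12 16 17 true false true), .t 1 (nat_lit 0) (.gp 8 10 11 12 13 true false true), .t 1 (nat_lit 0) (.gp 8 10 11 13 12 true false true), .t 1 (nat_lit 0) (.gp 8 10 11 14 17 true false true), .t 1 (nat_lit 0) (.gp 8 10 11 17 14 false false true), .t 1 (nat_lit 0) (.gp 8 10 11 19 18 true false true), .t 1 (nat_lit 0) (.gp 8 10 12 13 19 true true true), .t 1 (nat_lit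 0) (.gp 8 10 14 19 18 true false true), .t 1 (nat_lit 0) (.gp 8 12 13 14 15 true false true), .t 1 (nat_lit 0) (.gp 9 0 1 5 15 true true false), .t 1 (nat_lit 0) (.gp 9 0 1 5 16 true true false), .t 1 (nat_lit 0) (.gp 9 0 1 5 17 true true false), .t 1 (nat_lit 0) (.gp 9 0 1 6 8 true true true), .t 1 (nat_lit 0) (.gp 9 0 1 6 12 true true false), .t 1 (nat_lit 0) (.gp 9 0 1 6 14 true true false), .t 1 (nat_lit 0) (.gp 9 0 1 8 5 true true true), .t 1 (nat_lit 0) (.gp 9 0 1 8 18 true true false), .t 1 (nat_lit 0) (.gp 9 0 1 10 4 true false true), .t 1 (nat_lit 0) (.gp 9 0 1 10 6 true false true), .t 1 (nat_lit 0) (.gp 9 0 1 10 7 true false true), .t 1 (nat_lit 0) (.gp 9 0 1 10 8 true false true), .t 1 (nat_lit 0) (.gp 9 0 1 12 8 true false true), .t 1 (nat_lit 0) (.gp 9 0 1 14 4 true false true), .t 1 (nat_lit 0) (.gp 9 0 1 14 10 true false false), .t 1 (nat_lit 0) (.gp 9 0 1 18 8 true false true), .t 1 (nat_lit 0) (.gp 9 0 2 4 5 true true true), .t 1 (nat_lit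 0) (.gp 9 0 2 10 4 true false true), .t 1 (nat_lit 0) (.gp 9 0 2 10 7 true false true), .t 1 (nat_lit 0) (.gp 9 0 2 10 11 true false false), .t 1 (nat_lit 0) (.gp 9 0 2 11 5 true false true), .t 1 (nat_lit 0) (.gp 9 0 2 13 8 true false true), .t 1 (nat_lit 0) (.gp 9 0 2 14 10 true false false), .t 1 (nat_lit 0) (.gp 9 0 2 14 15 true false false), .t 1 (nat_lit 0) (.gp 9 0 2 14 16 true false false), .t 1 (nat_lit 0) (.gp 9 0 2 14 18 true false false), .t 1 (nat_lit 0) (.gp 9 0 2 14 19 true false false), .t 1 (nat_lit 0) (.gp 9 0 3 4 5 true true true), .t 1 (nat_lit 0) (.gp 9 0 3 10 4 true false true), .t 1 (nat_lit 0) (.gp 9 0 3 10 14 true false false), .t 1 (nat_lit 0) (.gp 9 0 3 11 8 true false true), .t 1 (nat_lit 0) (.gp 9 0 3 12 7 true false true), .t 1 (nat_lit 0) (.gp 9 0 3 14 10 true false false), .t 1 (nat_lit 0) (.gp 9 0 3 18 4 true false true), .t 1 (nat_lit 0) (.gp 9 0 3 19 4 true false true), .t 1 (nat_lit 0) (.gp 9 0 4 8 11 true true false),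 .t 1 (nat_lit 0) (.gp 9 0 4 10 7 true false true), .t 1 (nat_lit 0) (.gp 9 0 4 10 14 true false false), .t 1 (nat_lit 0) (.gp 9 0 4 12 14 true false false), .t 1 (nat_lit 0) (.gp 9 0 4 13 14 true false false), .t 1 (nat_lit 0) (.gp 9 0 4 14 10 true false false), .t 1 (nat_lit 0) (.gp 9 0 4 15 8 true false true), .t 1 (nat_lit 0) (.gp 9 0 4 15 17 true false false), .t 1 (nat_lit 0) (.gp 9 0 4 16 8 true false true), .t 1 (nat_lit 0) (.gp 9 0 5 10 7 true false true), .t 1 (nat_lit 0) (.gp 9 0 5 10 14 true false false), .t 1 (nat_lit 0) (.gp 9 0 5 12 7 true false true), .t 1 (nat_lit 0) (.gp 9 0 5 12 15 true false false), .t 1 (nat_lit 0) (.gp 9 0 5 12 16 true false false)] (by decide +kernel) (by decide +kernel)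
theorem b21 : B 1344 1408 := Blk.of_chk [.t 1 (nat_lit 0) (.gp 9 0 5 12 18 true false false), .t 1 (nat_lit 0) (.gp 9 0 5 13 7 true false true), .t 1 (nat_lit 0) (.gp 9 0 5 13 14 true false false), .t 1 (nat_lit 0) (.gp 9 0 6 10 7 true false true), .t 1 (nat_lit 0) (.gp 9 0 6 14 10 true false false), .t 1 (nat_lit 0) (.gp 9 0 6 17 7 true false true), .t 1 (nat_lit 0) (.gp 9 0 7 8 10 true true false), .t 1 (nat_lit 0) (.gp 9 0 7 10 11 true false false), .t 1 (nat_lit 0) (.gp 9 0 7 10 14 true false false), .t 1 (nat_lit 0) (.gp 9 0 7 12 14 true false false), .t 1 (nat_lit 0) (.gp 9 0 7 13 8 true false true), .t 1 (nat_lit 0) (.gp 9 0 7 17 8 true false true), .t 1 (nat_lit 0) (.gp 9 0 8 10 11 true false false), .t 1 (nat_lit 0) (.gp 9 0 8 10 14 true false false), .t 1 (nat_lit 0) (.gp 9 0 8 11 12 true false false), .t 1 (nat_lit 0) (.gp 9 0 8 11 13 true false false), .t 1 (nat_lit 0) (.gp 9 0 8 11 14 true false false), .t 1 (nat_lit 0) (.gp 9 0 8 12 14 true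 false false), .t 1 (nat_lit 0) (.gp 9 0 8 12 17 true false false), .t 1 (nat_lit 0) (.gp 9 0 8 14 10 true false false), .t 1 (nat_lit 0) (.gp 9 0 10 12 11 false false false), .t 1 (nat_lit 0) (.gp 9 0 10 12 14 false false false), .t 1 (nat_lit 0) (.gp 9 0 10 13 11 false false false), .t 1 (nat_lit 0) (.gp 9 0 10 14 11 false false false), .t 1 (nat_lit 0) (.gp 9 0 10 14 12 false false false), .t 1 (nat_lit 0) (.gp 9 0 10 15 14 false false false), .t 1 (nat_lit 0) (.gp 9 0 10 16 11 false false false), .t 1 (nat_lit 0) (.gp 9 0 10 17 14 false false false), .t 1 (nat_lit 0) (.gp 9 0 10 17 15 false false false), .t 1 (nat_lit 0) (.gp 9 0 10 18 13 false false false), .t 1 (nat_lit 0) (.gp 9 0 12 14 13 false false false), .t 1 (nat_lit 0) (.gp 9 0 12 15 14 false false false), .t 1 (nat_lit 0) (.gp 9 0 12 16 14 false false false), .t 1 (nat_lit 0) (.gp 9 0 12 17 14 false false false), .t 1 (nat_lit 0) (.gp 9 0 13 15 14 false false false), .t 1 (nat_lit 0) (.gp 9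 0 13 16 14 false false false), .t 1 (nat_lit 0) (.gp 9 1 2 3 10 false true true), .t 1 (nat_lit 0) (.gp 9 1 2 5 10 false true true), .t 1 (nat_lit 0) (.gp 9 1 2 10 3 false false true), .t 1 (nat_lit 0) (.gp 9 1 3 5 6 true false true), .t 1 (nat_lit 0) (.gp 9 1 3 5 8 true false true), .t 1 (nat_lit 0) (.gp 9 1 3 7 10 true true true), .t 1 (nat_lit 0) (.gp 9 1 3 10 5 true false true), .t 1 (nat_lit 0) (.gp 9 1 3 16 6 true false true), .t 1 (nat_lit 0) (.gp 9 1 4 5 7 true false true), .t 1 (nat_lit 0) (.gp 9 1 4 6 7 true false true), .t 1 (nat_lit 0) (.gp 9 1 4 11 14 true false false), .t 1 (nat_lit 0) (.gp 9 1 4 13 12 true false true), .t 1 (nat_lit 0) (.gp 9 1 4 14 8 true false true), .t 1 (nat_lit 0) (.gp 9 1 4 17 18 true true false), .t 1 (nat_lit 0) (.gp 9 1 4 18 19 true true true), .t 1 (nat_lit 0) (.gp 9 1 5 6 7 true false true), .t 1 (nat_lit 0) (.gp 9 1 5 6 11 true true true), .t 1 (nat_lit 0) (.gp 9 1 5 13 16 true false false), .t 1 (nat_lit 0) (.gp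 9 1 6 8 12 false true true), .t 1 (nat_lit 0) (.gp 9 1 6 10 8 true false true), .t 1 (nat_lit 0) (.gp 9 1 7 12 8 true false false), .t 1 (nat_lit 0) (.gp 9 1 7 12 13 true false true), .t 1 (nat_lit 0) (.gp 9 1 8 11 13 true true true), .t 1 (nat_lit 0) (.gp 9 1 13 16 14 false false false), .t 1 (nat_lit 0) (.gp 9 2 3 4 7 true false true), .t 1 (nat_lit 0) (.gp 9 2 3 4 10 true true true), .t 1 (nat_lit 0) (.gp 9 2 3 10 14 true false true), .t 1 (nat_lit 0) (.gp 9 2 3 10 18 true false true)] (by decide +kernel) (by decide +kernel)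
theorem b22 : B 1408 1472 := Blk.of_chk [.t 1 (nat_lit 0) (.gp 9 2 3 19 10 true false false), .t 1 (nat_lit 0) (.gp 9 2 4 14 6 true false true), .t 1 (nat_lit 0) (.gp 9 2 4 14 17 true false true), .t 1 (nat_lit 0) (.gp 9 2 6 8 10 true true true), .t 1 (nat_lit 0) (.gp 9 2 7 10 8 true false true), .t 1 (nat_lit 0) (.gp 9 2 7 12 14 true false false), .t 1 (nat_lit 0) (.gp 9 2 7 12 17 true false false), .t 1 (nat_lit 0) (.gp 9 2 10 13 11 false false true), .t 1 (nat_lit 0) (.gp 9 2 10 14 12 false false true), .t 1 (nat_lit 0) (.gp 9 2 14 16 18 false false false), .t 1 (nat_lit 0) (.gp 9 3 4 5 6 true false true), .t 1 (nat_lit 0) (.gp 9 3 4 5 10 true true true), .t 1 (nat_lit 0) (.gp 9 3 4 6 7 true false true), .t 1 (nat_lit 0) (.gp 9 3 4 6 10 true false true), .t 1 (nat_lit 0) (.gp 9 3 4 6 10 true true true), .t 1 (nat_lit 0) (.gp 9 3 4 8 6 true false false), .t 1 (nat_lit 0) (.gp 9 3 4 10 5 true false true), .t 1 (nat_lit 0) (.gp 9 3 4 10 6 true false false),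 .t 1 (nat_lit 0) (.gp 9 3 4 10 6 true false true), .t 1 (nat_lit 0) (.gp 9 3 4 11 10 true true true), .t 1 (nat_lit 0) (.gp 9 3 4 12 18 true true false), .t 1 (nat_lit 0) (.gp 9 3 5 6 8 false true false), .t 1 (nat_lit 0) (.gp 9 3 5 6 10 false true false), .t 1 (nat_lit 0) (.gp 9 3 5 6 10 true false true), .t 1 (nat_lit 0) (.gp 9 3 5 6 10 true true true), .t 1 (nat_lit 0) (.gp 9 3 5 8 6 false true true), .t 1 (nat_lit 0) (.gp 9 3 5 8 6 true false false), .t 1 (nat_lit 0) (.gp 9 3 5 10 6 false true true), .t 1 (nat_lit 0) (.gp 9 3 5 10 6 true false false), .t 1 (nat_lit 0) (.gp 9 3 5 17 15 false true false), .t 1 (nat_lit 0) (.gp 9 3 6 10 14 true false true), .t 1 (nat_lit 0) (.gp 9 3 6 11 10 true true false), .t 1 (nat_lit 0) (.gp 9 3 8 11 13 true true true), .t 1 (nat_lit 0) (.gp 9 4 5 7 12 true true true), .t 1 (nat_lit 0) (.gp 9 4 5 7 14 true true true), .t 1 (nat_lit 0) (.gp 9 4 5 7 15 false true true), .t 1 (nat_lit 0) (.gp 9 4 5 7 16 false true true),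 .t 1 (nat_lit 0) (.gp 9 4 5 8 6 true false true), .t 1 (nat_lit 0) (.gp 9 4 6 7 10 true true true), .t 1 (nat_lit 0) (.gp 9 4 6 8 12 false false true), .t 1 (nat_lit 0) (.gp 9 4 6 12 18 true false false), .t 1 (nat_lit 0) (.gp 9 4 6 13 10 true false true), .t 1 (nat_lit 0) (.gp 9 4 6 17 7 false false true), .t 1 (nat_lit 0) (.gp 9 4 6 19 10 true false true), .t 1 (nat_lit 0) (.gp 9 4 7 11 10 true false true), .t 1 (nat_lit 0) (.gp 9 4 7 13 10 true false false), .t 1 (nat_lit 0) (.gp 9 4 8 11 13 true true true), .t 1 (nat_lit 0) (.gp 9 4 10 14 12 true false true), .t 1 (nat_lit 0) (.gp 9 4 13 14 18 true false false), .t 1 (nat_lit 0) (.gp 9 5 6 7 8 true false true), .t 1 (nat_lit 0) (.gp 9 5 6 10 8 true false false), .t 1 (nat_lit 0) (.gp 9 5 6 12 7 true false true), .t 1 (nat_lit 0) (.gp 9 5 6 12 8 true false false), .t 1 (nat_lit 0) (.gp 9 5 6 13 12 false true false), .t 1 (nat_lit 0) (.gp 9 5 7 10 8 true false false), .t 1 (nat_lit 0) (.gp 9 5 7 10 12 true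 false false), .t 1 (nat_lit 0) (.gp 9 5 7 10 13 true false false), .t 1 (nat_lit 0) (.gp 9 5 7 12 14 true false false), .t 1 (nat_lit 0) (.gp 9 5 7 13 14 true false false), .t 1 (nat_lit 0) (.gp 9 5 7 15 10 true false false), .t 1 (nat_lit 0) (.gp 9 5 7 16 10 true false false), .t 1 (nat_lit 0) (.gp 9 5 8 11 10 true false true), .t 1 (nat_lit 0) (.gp 9 5 10 11 13 true true false), .t 1 (nat_lit 0) (.gp 9 5 11 12 16 false false true)] (by decide +kernel) (by decide +kernel)
theorem b23 : B 1472 1536 := Blk.of_chk [.t 1 (nat_lit 0) (.gp 9 5 11 18 16 false false true), .t 1 (nat_lit 0) (.gp 9 5 13 18 15 false false true), .t 1 (nat_lit 0) (.gp 9 5 13 18 19 false false true), .t 1 (nat_lit 0) (.gp 9 6 7 8 10 true true true), .t 1 (nat_lit 0) (.gp 9 6 7 8 12 true true true), .t 1 (nat_lit 0) (.gp 9 6 7 8 13 true true true), .t 1 (nat_lit 0) (.gp 9 6 7 10 8 true false false), .t 1 (nat_lit 0) (.gp 9 6 7 10 8 true false true), .t 1 (nat_lit 0) (.gp 9 6 7 10 12 true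 false false), .t 1 (nat_lit 0) (.gp 9 6 7 10 13 true false false), .t 1 (nat_lit 0) (.gp 9 6 7 12 8 true false true), .t 1 (nat_lit 0) (.gp 9 6 7 12 14 true false false), .t 1 (nat_lit 0) (.gp 9 6 7 13 14 true false false), .t 1 (nat_lit 0) (.gp 9 6 7 15 10 true false false), .t 1 (nat_lit 0) (.gp 9 6 7 16 10 true false false), .t 1 (nat_lit 0) (.gp 9 6 8 10 14 true true true), .t 1 (nat_lit 0) (.gp 9 6 8 11 13 true true true), .t 1 (nat_lit 0) (.gp 9 6 10 11 19 true true false), .t 1 (nat_lit 0) (.gp 9 6 11 13 12 false false true), .t 1 (nat_lit 0) (.gp 9 7 8 11 12 true true true), .t 1 (nat_lit 0) (.gp 9 7 8 11 14 true true true), .t 1 (nat_lit 0) (.gp 9 7 8 18 15 false false false), .t 1 (nat_lit 0) (.gp 9 7 10 11 13 true true false), .t 1 (nat_lit 0) (.gp 9 7 10 13 12 true true false), .t 1 (nat_lit 0) (.gp 9 7 10 14 13 false false false), .t 1 (nat_lit 0) (.gp 9 7 11 12 16 true false true), .t 1 (nat_lit 0) (.gp 9 7 11 15 17 true false true), .t 1 (nat_lit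 0) (.gp 9 7 12 14 17 true true true), .t 1 (nat_lit 0) (.gp 9 8 10 11 12 true true false), .t 1 (nat_lit 0) (.gp 9 8 10 11 13 true true false), .t 1 (nat_lit 0) (.gp 9 8 10 14 13 true true false), .t 1 (nat_lit 0) (.gp 9 8 11 12 13 true false true), .t 1 (nat_lit 0) (.gp 9 8 11 13 12 true false true), .t 1 (nat_lit 0) (.gp 9 8 13 14 18 true false false), .t 1 (nat_lit 0) (.gp 9 8 16 19 17 false false false), .t 1 (nat_lit 0) (.gp 9 10 11 12 13 true false true), .t 1 (nat_lit 0) (.gp 9 10 11 12 15 true true true), .t 1 (nat_lit 0) (.gp 9 10 11 13 12 true false true), .t 1 (nat_lit 0) (.gp 9 10 11 14 17 true false true), .t 1 (nat_lit 0) (.gp 9 10 11 18 15 false false true), .t 1 (nat_lit 0) (.gp 9 10 12 15 13 true true true), .t 1 (nat_lit 0) (.gp 9 10 15 17 16 true true true), .t 1 (nat_lit 0) (.gp 9 11 13 14 17 true true true), .t 1 (nat_lit 0) (.gp 9 12 13 15 16 true true true), .t 1 (nat_lit 0) (.gp 9 12 13 18 14 false true true), .t 1 (nat_lit 0) (.gp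 9 12 14 15 16 true true true), .t 1 (nat_lit 0) (.gp 9 12 16 17 18 false false true), .t 1 (nat_lit 0) (.gp 9 13 14 19 18 true false true), .t 1 (nat_lit 0) (.gp 10 0 1 5 15 true true false), .t 1 (nat_lit 0) (.gp 10 0 1 5 16 true true false), .t 1 (nat_lit 0) (.gp 10 0 1 6 8 true true true), .t 1 (nat_lit 0) (.gp 10 0 1 6 16 true true false), .t 1 (nat_lit 0) (.gp 10 0 1 6 17 true true false), .t 1 (nat_lit 0) (.gp 10 0 1 8 19 true true false), .t 1 (nat_lit 0) (.gp 10 0 1 9 11 true true false), .t 1 (nat_lit 0) (.gp 10 0 1 9 13 true true false), .t 1 (nat_lit 0) (.gp 10 0 1 9 15 true true false), .t 1 (nat_lit 0) (.gp 10 0 1 9 16 true true false), .t 1 (nat_lit 0) (.gp 10 0 1 9 18 true true false), .t 1 (nat_lit 0) (.gp 10 0 1 9 19 true true false), .t 1 (nat_lit 0) (.gp 10 0 1 12 9 true false true), .t 1 (nat_lit 0) (.gp 10 0 2 9 14 true true false), .t 1 (nat_lit 0) (.gp 10 0 2 11 5 true false true), .t 1 (nat_lit 0) (.gp 10 0 2 11 6 true false true)]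 (by decide +kernel) (by decide +kernel)
theorem b24 : B 1536 1600 := Blk.of_chk [.t 1 (nat_lit 0) (.gp 10 0 2 11 9 true false true), .t 1 (nat_lit 0) (.gp 10 0 2 14 15 true false false), .t 1 (nat_lit 0) (.gp 10 0 2 14 18 true false false), .t 1 (nat_lit 0) (.gp 10 0 2 15 8 true false true), .t 1 (nat_lit 0) (.gp 10 0 2 15 9 true false true), .t 1 (nat_lit 0) (.gp 10 0 2 16 8 true false true), .t 1 (nat_lit 0) (.gp 10 0 2 17 18 true false false), .t 1 (nat_lit 0) (.gp 10 0 3 13 7 true false true), .t 1 (nat_lit 0) (.gp 10 0 3 13 14 true false false), .t 1 (nat_lit 0) (.gp 10 0 4 8 9 true true true), .t 1 (nat_lit 0) (.gp 10 0 4 8 11 true true false), .t 1 (nat_lit 0) (.gp 10 0 4 9 14 true true false), .t 1 (nat_lit 0) (.gp 10 0 4 13 16 true false false), .t 1 (nat_lit 0) (.gp 10 0 4 17 8 true false true), .t 1 (nat_lit 0) (.gp 10 0 5 6 8 true true true), .t 1 (nat_lit 0) (.gp 10 0 5 8 11 true true false), .t 1 (nat_lit 0) (.gp 10 0 5 12 7 true false true),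 .t 1 (nat_lit 0) (.gp 10 0 5 12 14 true false false), .t 1 (nat_lit 0) (.gp 10 0 5 13 7 true false true), .t 1 (nat_lit 0) (.gp 10 0 5 16 15 true false false), .t 1 (nat_lit 0) (.gp 10 0 5 18 7 true false true), .t 1 (nat_lit 0) (.gp 10 0 6 12 7 true false true), .t 1 (nat_lit 0) (.gp 10 0 6 12 8 true false true), .t 1 (nat_lit 0) (.gp 10 0 6 12 14 true false false), .t 1 (nat_lit 0) (.gp 10 0 6 13 7 true false true), .t 1 (nat_lit 0) (.gp 10 0 6 13 14 true false false), .t 1 (nat_lit 0) (.gp 10 0 6 14 9 true false true), .t 1 (nat_lit 0) (.gp 10 0 6 15 17 true false false), .t 1 (nat_lit 0) (.gp 10 0 6 15 18 true false false), .t 1 (nat_lit 0) (.gp 10 0 6 16 17 true false false), .t 1 (nat_lit 0) (.gp 10 0 6 17 7 true false true), .t 1 (nat_lit 0) (.gp 10 0 6 18 7 true false true), .t 1 (nat_lit 0) (.gp 10 0 6 19 8 true false true), .t 1 (nat_lit 0) (.gp 10 0 7 8 9 true true true), .t 1 (nat_lit 0) (.gp 10 0 7 13 8 true false true), .t 1 (nat_lit 0) (.gp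 10 0 7 13 12 true false false), .t 1 (nat_lit 0) (.gp 10 0 7 15 8 true false true), .t 1 (nat_lit 0) (.gp 10 0 8 9 14 true true false), .t 1 (nat_lit 0) (.gp 10 0 8 11 9 true false true), .t 1 (nat_lit 0) (.gp 10 0 8 12 13 true false false), .t 1 (nat_lit 0) (.gp 10 0 8 12 14 true false false), .t 1 (nat_lit 0) (.gp 10 0 8 12 17 true false false), .t 1 (nat_lit 0) (.gp 10 0 8 12 18 true false false), .t 1 (nat_lit 0) (.gp 10 0 8 13 14 true false false), .t 1 (nat_lit 0) (.gp 10 0 8 14 9 true false true), .t 1 (nat_lit 0) (.gp 10 0 8 14 12 true false false), .t 1 (nat_lit 0) (.gp 10 0 8 16 17 true false false), .t 1 (nat_lit 0) (.gp 10 0 9 12 14 true false false), .t 1 (nat_lit 0) (.gp 10 0 9 13 14 true false false), .t 1 (nat_lit 0) (.gp 10 0 9 15 17 true false false), .t 1 (nat_lit 0) (.gp 10 0 12 13 15 false false false), .t 1 (nat_lit 0) (.gp 10 0 12 16 15 false false false), .t 1 (nat_lit 0) (.gp 10 0 13 15 14 false false false), .t 1 (nat_lit 0) (.gp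 10 0 13 16 14 false false false), .t 1 (nat_lit 0) (.gp 10 0 13 17 14 false false false), .t 1 (nat_lit 0) (.gp 10 0 13 19 15 false false false), .t 1 (nat_lit 0) (.gp 10 0 13 19 17 false false false), .t 1 (nat_lit 0) (.gp 10 0 15 17 16 false false false), .t 1 (nat_lit 0) (.gp 10 1 2 7 6 false true true), .t 1 (nat_lit 0) (.gp 10 1 2 14 6 false false false), .t 1 (nat_lit 0) (.gp 10 1 2 15 14 false true false), .t 1 (nat_lit 0) (.gp 10 1 2 16 14 false true false), .t 1 (nat_lit 0) (.gp 10 1 2 18 19 false true false), .t 1 (nat_lit 0) (.gp 10 1 2 19 14 false true false)] (by decide +kernel) (by decide +kernel)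
theorem b25 : B 1600 1664 := Blk.of_chk [.t 1 (nat_lit 0) (.gp 10 1 3 5 7 true false true), .t 1 (nat_lit 0) (.gp 10 1 3 5 8 true false true), .t 1 (nat_lit 0) (.gp 10 1 3 12 9 true false false), .t 1 (nat_lit 0) (.gp 10 1 3 13 9 true false false), .t 1 (nat_lit 0) (.gp 10 1 4 6 7 true false true), .t 1 (nat_lit 0) (.gp 10 1 4 13 15 true false false), .t 1 (nat_lit 0) (.gp 10 1 4 13 18 true true false), .t 1 (nat_lit 0) (.gp 10 1 5 6 7 true false true), .t 1 (nat_lit 0) (.gp 10 1 5 6 9 true true true), .t 1 (nat_lit 0) (.gp 10 1 5 6 14 true true true), .t 1 (nat_lit 0) (.gp 10 1 5 8 9 true false true), .t 1 (nat_lit 0) (.gp 10 1 5 8 14 true true true), .t 1 (nat_lit 0) (.gp 10 1 5 18 15 false false false), .t 1 (nat_lit 0) (.gp 10 1 5 18 17 false false false), .t 1 (nat_lit 0) (.gp 10 1 6 8 12 true true true), .t 1 (nat_lit 0) (.gp 10 1 6 9 15 true true false), .t 1 (nat_lit 0) (.gp 10 1 6 9 18 false false false), .t 1 (nat_lit 0) (.gp 10 1 6 9 19 false false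 false), .t 1 (nat_lit 0) (.gp 10 1 6 11 14 true true true), .t 1 (nat_lit 0) (.gp 10 1 6 13 8 true true true), .t 1 (nat_lit 0) (.gp 10 1 6 17 15 false false false), .t 1 (nat_lit 0) (.gp 10 1 7 15 9 true false true), .t 1 (nat_lit 0) (.gp 10 1 8 9 13 true true true), .t 1 (nat_lit 0) (.gp 10 1 9 18 14 false true false), .t 1 (nat_lit 0) (.gp 10 1 11 14 15 true false true), .t 1 (nat_lit 0) (.gp 10 1 11 14 16 true false true), .t 1 (nat_lit 0) (.gp 10 1 11 14 17 true false true), .t 1 (nat_lit 0) (.gp 10 1 11 15 18 true false true), .t 1 (nat_lit 0) (.gp 10 1 12 18 19 true true false), .t 1 (nat_lit 0) (.gp 10 1 13 17 14 false true false), .t 1 (nat_lit 0) (.gp 10 2 3 4 7 true false true), .t 1 (nat_lit 0) (.gp 10 2 3 5 7 true false true), .t 1 (nat_lit 0) (.gp 10 2 3 6 9 true true true), .t 1 (nat_lit 0) (.gp 10 2 3 11 15 true true false), .t 1 (nat_lit 0) (.gp 10 2 3 15 13 true false false), .t 1 (nat_lit 0) (.gp 10 2 5 9 7 true false true), .t 1 (nat_lit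 0) (.gp 10 2 5 12 18 true true false), .t 1 (nat_lit 0) (.gp 10 2 7 14 8 true false true), .t 1 (nat_lit 0) (.gp 10 2 7 16 17 true false false), .t 1 (nat_lit 0) (.gp 10 2 7 17 9 true false true), .t 1 (nat_lit 0) (.gp 10 2 8 13 14 true false false), .t 1 (nat_lit 0) (.gp 10 2 9 13 14 true true false), .t 1 (nat_lit 0) (.gp 10 2 9 16 17 true false false), .t 1 (nat_lit 0) (.gp 10 2 14 15 16 false false true), .t 1 (nat_lit 0) (.gp 10 3 4 6 9 true false true), .t 1 (nat_lit 0) (.gp 10 3 4 8 6 true false false), .t 1 (nat_lit 0) (.gp 10 3 4 9 6 true false false), .t 1 (nat_lit 0) (.gp 10 3 4 15 13 true false false), .t 1 (nat_lit 0) (.gp 10 3 5 6 8 false true false), .t 1 (nat_lit 0) (.gp 10 3 5 6 8 false true true), .t 1 (nat_lit 0) (.gp 10 3 5 6 9 false true false), .t 1 (nat_lit 0) (.gp 10 3 5 6 9 true false true), .t 1 (nat_lit 0) (.gp 10 3 5 8 6 false true true), .t 1 (nat_lit 0) (.gp 10 3 5 8 6 true false false), .t 1 (nat_lit 0) (.gp 10 3 5 9 6 false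 true true), .t 1 (nat_lit 0) (.gp 10 3 5 9 6 true false false), .t 1 (nat_lit 0) (.gp 10 3 5 18 17 false false false), .t 1 (nat_lit 0) (.gp 10 3 7 15 18 true true false), .t 1 (nat_lit 0) (.gp 10 3 11 17 12 true false true), .t 1 (nat_lit 0) (.gp 10 4 5 6 14 false true true), .t 1 (nat_lit 0) (.gp 10 4 5 7 13 true true true), .t 1 (nat_lit 0) (.gp 10 4 5 15 11 false false true), .t 1 (nat_lit 0) (.gp 10 4 5 18 11 false false true), .t 1 (nat_lit 0) (.gp 10 4 6 7 9 true true true)] (by decide +kernel) (by decide +kernel)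
theorem b26 : B 1664 1728 := Blk.of_chk [.t 1 (nat_lit 0) (.gp 10 4 6 7 11 true true true), .t 1 (nat_lit 0) (.gp 10 4 6 11 15 true true true), .t 1 (nat_lit 0) (.gp 10 4 6 15 19 true false false), .t 1 (nat_lit 0) (.gp 10 4 7 13 17 true true true), .t 1 (nat_lit 0) (.gp 10 4 7 13 18 true true false), .t 1 (nat_lit 0) (.gp 10 4 7 17 18 true true false), .t 1 (nat_lit 0) (.gp 10 4 8 9 13 true true true), .t 1 (nat_lit 0) (.gp 10 4 8 13 17 true true true), .t 1 (nat_lit 0) (.gp 10 4 9 13 14 true false true), .t 1 (nat_lit 0) (.gp 10 4 9 18 16 true true true), .t 1 (nat_lit 0) (.gp 10 4 12 13 14 false false false), .t 1 (nat_lit 0) (.gp 10 4 12 18 13 false false false), .t 1 (nat_lit 0) (.gp 10 4 13 18 14 false false true), .t 1 (nat_lit 0) (.gp 10 4 15 16 17 true false false), .t 1 (nat_lit 0) (.gp 10 5 6 7 8 true false true), .t 1 (nat_lit 0) (.gp 10 5 6 8 7 false true true), .t 1 (nat_lit 0) (.gp 10 5 6 8 12 false true false), .t 1 (nat_lit 0) (.gp 10 5 6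 9 8 true false false), .t 1 (nat_lit 0) (.gp 10 5 6 9 15 false false false), .t 1 (nat_lit 0) (.gp 10 5 6 12 8 true false false), .t 1 (nat_lit 0) (.gp 10 5 6 13 8 true false false), .t 1 (nat_lit 0) (.gp 10 5 6 15 16 false true true), .t 1 (nat_lit 0) (.gp 10 5 6 18 13 false false false), .t 1 (nat_lit 0) (.gp 10 5 7 8 9 true false true), .t 1 (nat_lit 0) (.gp 10 5 7 8 13 true true true), .t 1 (nat_lit 0) (.gp 10 5 7 8 14 true true false), .t 1 (nat_lit 0) (.gp 10 5 7 8 16 true true true), .t 1 (nat_lit 0) (.gp 10 5 7 9 15 true true true), .t 1 (nat_lit 0) (.gp 10 5 7 9 16 true true true), .t 1 (nat_lit 0) (.gp 10 5 7 12 8 true false true), .t 1 (nat_lit 0) (.gp 10 5 7 12 9 true false true), .t 1 (nat_lit 0) (.gp 10 5 7 12 14 true false false), .t 1 (nat_lit 0) (.gp 10 5 7 13 9 true false true), .t 1 (nat_lit 0) (.gp 10 5 7 13 14 true false false), .t 1 (nat_lit 0) (.gp 10 5 8 9 12 false true false), .t 1 (nat_lit 0) (.gp 10 5 8 9 13 false true false), .t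 1 (nat_lit 0) (.gp 10 5 8 11 12 true true true), .t 1 (nat_lit 0) (.gp 10 5 8 18 12 false true false), .t 1 (nat_lit 0) (.gp 10 5 14 15 16 true false true), .t 1 (nat_lit 0) (.gp 10 5 14 18 16 false false true), .t 1 (nat_lit 0) (.gp 10 6 7 8 9 true false true), .t 1 (nat_lit 0) (.gp 10 6 7 8 12 true true true), .t 1 (nat_lit 0) (.gp 10 6 7 9 15 true true true), .t 1 (nat_lit 0) (.gp 10 6 7 9 16 true true true), .t 1 (nat_lit 0) (.gp 10 6 7 12 8 true false false), .t 1 (nat_lit 0) (.gp 10 6 7 12 8 true false true), .t 1 (nat_lit 0) (.gp 10 6 7 12 9 true false true), .t 1 (nat_lit 0) (.gp 10 6 7 13 8 true false true), .t 1 (nat_lit 0) (.gp 10 6 7 13 9 true false true), .t 1 (nat_lit 0) (.gp 10 6 7 13 14 true false false), .t 1 (nat_lit 0) (.gp 10 6 8 9 12 false true false), .t 1 (nat_lit 0) (.gp 10 6 8 9 13 false true false), .t 1 (nat_lit 0) (.gp 10 6 8 11 15 true true true), .t 1 (nat_lit 0) (.gp 10 6 8 11 16 true true true), .t 1 (nat_lit 0) (.gp 10 6 11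 12 16 true false true), .t 1 (nat_lit 0) (.gp 10 6 11 13 15 true false true), .t 1 (nat_lit 0) (.gp 10 6 12 13 18 true true true), .t 1 (nat_lit 0) (.gp 10 6 15 16 17 true false false), .t 1 (nat_lit 0) (.gp 10 6 15 18 16 false false true), .t 1 (nat_lit 0) (.gp 10 7 8 9 11 true false true), .t 1 (nat_lit 0) (.gp 10 7 8 11 12 true true true), .t 1 (nat_lit 0) (.gp 10 7 8 11 13 true true false), .t 1 (nat_lit 0) (.gp 10 7 8 17 15 false true false), .t 1 (nat_lit 0) (.gp 10 7 9 12 13 true true true)] (by decide +kernel) (by decide +kernel)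
theorem b27 : B 1728 1792 := Blk.of_chk [.t 1 (nat_lit 0) (.gp 10 7 11 12 17 true false true), .t 1 (nat_lit 0) (.gp 10 7 11 13 14 true false true), .t 1 (nat_lit 0) (.gp 10 7 11 15 17 true false true), .t 1 (nat_lit 0) (.gp 10 7 12 13 14 true true true), .t 1 (nat_lit 0) (.gp 10 7 12 15 17 true true true), .t 1 (nat_lit 0) (.gp 10 7 12 17 18 false false false), .t 1 (nat_lit 0) (.gp 10 7 12 18 15 false false true), .t 1 (nat_lit 0) (.gp 10 7 12 18 17 false false true), .t 1 (nat_lit 0) (.gp 10 8 9 11 13 true true true), .t 1 (nat_lit 0) (.gp 10 8 9 12 14 false true false), .t 1 (nat_lit 0) (.gp 10 8 9 18 13 false true false), .t 1 (nat_lit 0) (.gp 10 8 9 18 19 false true false), .t 1 (nat_lit 0) (.gp 10 8 11 12 13 true false true), .t 1 (nat_lit 0) (.gp 10 8 11 12 16 true false true), .t 1 (nat_lit 0) (.gp 10 8 11 13 12 true false true), .t 1 (nat_lit 0) (.gp 10 8 11 13 15 true false true), .t 1 (nat_lit 0) (.gp 10 8 11 14 15 true false true), .t 1 (nat_lit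 0) (.gp 10 8 11 14 16 true false true), .t 1 (nat_lit 0) (.gp 10 8 11 18 13 false false true), .t 1 (nat_lit 0) (.gp 10 8 11 18 15 false false true), .t 1 (nat_lit 0) (.gp 10 8 11 18 16 false false true), .t 1 (nat_lit 0) (.gp 10 8 11 18 17 false false true), .t 1 (nat_lit 0) (.gp 10 8 13 14 18 true false false), .t 1 (nat_lit 0) (.gp 10 8 15 18 17 false false true), .t 1 (nat_lit 0) (.gp 10 9 11 12 13 false false true), .t 1 (nat_lit 0) (.gp 10 9 11 12 13 true false true), .t 1 (nat_lit 0) (.gp 10 9 11 12 15 false false true), .t 1 (nat_lit 0) (.gp 10 9 11 12 16 false false true), .t 1 (nat_lit 0) (.gp 10 9 11 13 12 true false true), .t 1 (nat_lit 0) (.gp 10 9 11 15 12 false false true), .t 1 (nat_lit 0) (.gp 10 9 11 15 13 false false true), .t 1 (nat_lit 0) (.gp 10 9 11 16 13 false false true), .t 1 (nat_lit 0) (.gp 10 9 11 18 12 false false true), .t 1 (nat_lit 0) (.gp 10 9 11 18 17 false false true), .t 1 (nat_lit 0) (.gp 10 9 12 14 13 false false true),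 .t 1 (nat_lit 0) (.gp 10 9 12 15 13 false false false), .t 1 (nat_lit 0) (.gp 10 9 12 16 13 false false false), .t 1 (nat_lit 0) (.gp 10 11 12 13 18 true true true), .t 1 (nat_lit 0) (.gp 10 11 12 14 15 true true true), .t 1 (nat_lit 0) (.gp 10 11 12 14 16 true true true), .t 1 (nat_lit 0) (.gp 10 11 12 14 17 true true true), .t 1 (nat_lit 0) (.gp 10 11 12 15 13 true true true), .t 1 (nat_lit 0) (.gp 10 11 12 18 13 true true true), .t 1 (nat_lit 0) (.gp 10 11 14 17 15 true true true), .t 1 (nat_lit 0) (.gp 10 11 14 17 16 true true true), .t 1 (nat_lit 0) (.gp 10 12 13 14 15 true true true), .t 1 (nat_lit 0) (.gp 10 12 13 14 16 true true true), .t 1 (nat_lit 0) (.gp 10 12 13 14 18 true false true), .t 1 (nat_lit 0) (.gp 10 12 13 15 14 false false true), .t 1 (nat_lit 0) (.gp 10 12 13 15 16 false false true), .t 1 (nat_lit 0) (.gp 10 12 13 15 16 true true true), .t 1 (nat_lit 0) (.gp 10 12 13 16 14 false false true), .t 1 (nat_lit 0) (.gp 10 12 13 16 15 false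 false true), .t 1 (nat_lit 0) (.gp 10 12 13 16 15 true true true), .t 1 (nat_lit 0) (.gp 10 12 13 17 14 false true true), .t 1 (nat_lit 0) (.gp 10 12 14 15 16 true true true), .t 1 (nat_lit 0) (.gp 10 12 14 16 15 true true true), .t 1 (nat_lit 0) (.gp 10 12 15 18 16 false true true), .t 1 (nat_lit 0) (.gp 10 12 16 17 18 true false true), .t 1 (nat_lit 0) (.gp 10 13 14 15 16 false false true), .t 1 (nat_lit 0) (.gp 10 13 14 15 18 true false true), .t 1 (nat_lit 0) (.gp 10 13 14 16 18 true false true), .t 1 (nat_lit 0) (.gp 10 13 15 17 18 true false true), .t 1 (nat_lit 0) (.gp 10 14 15 16 17 true false true)] (by decide +kernel) (by decide +kernel)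
theorem b28 : B 1792 1856 := Blk.of_chk [.t 1 (nat_lit 0) (.gp 10 15 16 18 17 false true true), .t 1 (nat_lit 0) (.gp 11 0 1 2 12 true true false), .t 1 (nat_lit 0) (.gp 11 0 1 2 13 true true false), .t 1 (nat_lit 0) (.gp 11 0 1 2 15 true true false), .t 1 (nat_lit 0) (.gp 11 0 1 2 16 true true false), .t 1 (nat_lit 0) (.gp 11 0 1 2 18 true true false), .t 1 (nat_lit 0) (.gp 11 0 1 2 19 true true false), .t 1 (nat_lit 0) (.gp 11 0 1 6 9 true true true), .t 1 (nat_lit 0) (.gp 11 0 1 8 9 true true true), .t 1 (nat_lit 0) (.gp 11 0 1 9 2 true true true), .t 1 (nat_lit 0) (.gp 11 0 1 9 8 true true true), .t 1 (nat_lit 0) (.gp 11 0 1 10 5 true true true), .t 1 (nat_lit 0) (.gp 11 0 1 10 8 true true true), .t 1 (nat_lit 0) (.gp 11 0 1 12 5 true false true), .t 1 (nat_lit 0) (.gp 11 0 1 13 5 true false true), .t 1 (nat_lit 0) (.gp 11 0 2 4 10 true true true), .t 1 (nat_lit 0) (.gp 11 0 4 6 8 true true true), .t 1 (nat_lit 0) (.gp 11 0 4 9 8 true true true), .t 1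 (nat_lit 0) (.gp 11 0 5 12 7 true false true), .t 1 (nat_lit 0) (.gp 11 0 5 13 7 true false true), .t 1 (nat_lit 0) (.gp 11 0 5 15 7 true false true), .t 1 (nat_lit 0) (.gp 11 0 5 16 7 true false true), .t 1 (nat_lit 0) (.gp 11 0 5 18 7 true false true), .t 1 (nat_lit 0) (.gp 11 0 5 19 7 true false true), .t 1 (nat_lit 0) (.gp 11 0 6 12 7 true false true), .t 1 (nat_lit 0) (.gp 11 0 6 13 7 true false true), .t 1 (nat_lit 0) (.gp 11 0 6 15 7 true false true), .t 1 (nat_lit 0) (.gp 11 0 6 16 7 true false true), .t 1 (nat_lit 0) (.gp 11 0 6 18 7 true false true), .t 1 (nat_lit 0) (.gp 11 0 6 19 7 true false true), .t 1 (nat_lit 0) (.gp 11 0 7 8 12 true true false), .t 1 (nat_lit 0) (.gp 11 0 7 8 13 true true false), .t 1 (nat_lit 0) (.gp 11 0 7 8 15 true true false), .t 1 (nat_lit 0) (.gp 11 0 7 8 16 true true false), .t 1 (nat_lit 0) (.gp 11 0 7 8 18 true true false), .t 1 (nat_lit 0) (.gp 11 0 7 8 19 true true false), .t 1 (nat_lit 0) (.gp 11 0 7 9 12 true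 true false), .t 1 (nat_lit 0) (.gp 11 0 7 9 13 true true false), .t 1 (nat_lit 0) (.gp 11 0 7 9 15 true true false), .t 1 (nat_lit 0) (.gp 11 0 7 9 16 true true false), .t 1 (nat_lit 0) (.gp 11 0 7 9 18 true true false), .t 1 (nat_lit 0) (.gp 11 0 7 9 19 true true false), .t 1 (nat_lit 0) (.gp 11 0 7 10 12 true true false), .t 1 (nat_lit 0) (.gp 11 0 7 10 13 true true false), .t 1 (nat_lit 0) (.gp 11 0 7 10 15 true true false), .t 1 (nat_lit 0) (.gp 11 0 7 10 16 true true false), .t 1 (nat_lit 0) (.gp 11 0 7 10 18 true true false), .t 1 (nat_lit 0) (.gp 11 0 7 10 19 true true false), .t 1 (nat_lit 0) (.gp 11 1 2 8 9 false false false), .t 1 (nat_lit 0) (.gp 11 1 2 10 12 false true false), .t 1 (nat_lit 0) (.gp 11 1 3 12 4 true false true), .t 1 (nat_lit 0) (.gp 11 1 3 12 9 true false false), .t 1 (nat_lit 0) (.gp 11 1 3 12 10 true false false), .t 1 (nat_lit 0) (.gp 11 1 3 13 4 true false true), .t 1 (nat_lit 0) (.gp 11 1 4 6 7 true false true), .t 1 (nat_lit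 0) (.gp 11 1 4 12 7 true false true), .t 1 (nat_lit 0) (.gp 11 1 4 12 9 true false false), .t 1 (nat_lit 0) (.gp 11 1 4 13 7 true false true), .t 1 (nat_lit 0) (.gp 11 1 5 7 8 false true true), .t 1 (nat_lit 0) (.gp 11 1 5 7 9 false true true), .t 1 (nat_lit 0) (.gp 11 1 5 8 7 true false true), .t 1 (nat_lit 0) (.gp 11 1 5 12 9 true false false), .t 1 (nat_lit 0) (.gp 11 1 5 12 14 false true false), .t 1 (nat_lit 0) (.gp 11 1 5 13 14 false true false)] (by decide +kernel) (by decide +kernel)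
theorem b29 : B 1856 1920 := Blk.of_chk [.t 1 (nat_lit 0) (.gp 11 1 6 7 8 false true true), .t 1 (nat_lit 0) (.gp 11 1 6 7 9 false true true), .t 1 (nat_lit 0) (.gp 11 1 6 10 7 true false true), .t 1 (nat_lit 0) (.gp 11 1 8 12 10 true false false), .t 1 (nat_lit 0) (.gp 11 1 9 12 10 true false false), .t 1 (nat_lit 0) (.gp 11 2 4 17 19 true true false), .t 1 (nat_lit 0) (.gp 11 3 4 5 8 true false true), .t 1 (nat_lit 0) (.gp 11 3 4 8 7 true false true), .t 1 (nat_lit 0) (.gp 11 3 4 12 5 true false false), .t 1 (nat_lit 0) (.gp 11 3 4 12 10 true false false), .t 1 (nat_lit 0) (.gp 11 3 4 13 5 true false false), .t 1 (nat_lit 0) (.gp 11 3 5 8 6 false true true), .t 1 (nat_lit 0) (.gp 11 3 5 8 12 false true false), .t 1 (nat_lit 0) (.gp 11 3 5 8 13 false true false), .t 1 (nat_lit 0) (.gp 11 3 5 9 12 false true false), .t 1 (nat_lit 0) (.gp 11 3 6 12 8 true false true), .t 1 (nat_lit 0) (.gp 11 3 6 13 8 true false true), .t 1 (nat_lit 0) (.gp 11 3 8 9 12 false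 true false), .t 1 (nat_lit 0) (.gp 11 3 8 10 13 false true false), .t 1 (nat_lit 0) (.gp 11 4 5 7 10 false true true), .t 1 (nat_lit 0) (.gp 11 4 6 18 19 false true false), .t 1 (nat_lit 0) (.gp 11 4 8 9 10 true false false), .t 1 (nat_lit 0) (.gp 11 4 8 10 12 false true false), .t 1 (nat_lit 0) (.gp 11 4 8 12 9 true false false), .t 1 (nat_lit 0) (.gp 11 4 9 10 12 false true false), .t 1 (nat_lit 0) (.gp 11 5 7 17 18 true true false), .t 1 (nat_lit 0) (.gp 11 6 7 17 18 true true false), .t 1 (nat_lit 0) (.gp 11 6 8 12 10 true false false), .t 1 (nat_lit 0) (.gp 11 6 8 13 10 true false false), .t 1 (nat_lit 0) (.gp 11 6 8 15 12 true true false), .t 1 (nat_lit 0) (.gp 11 6 8 16 12 true true false), .t 1 (nat_lit 0) (.gp 11 6 10 15 13 false true false), .t 1 (nat_lit 0) (.gp 11 6 10 16 12 false true false), .t 1 (nat_lit 0) (.gp 11 7 8 10 9 false false false), .t 1 (nat_lit 0) (.gp 11 8 9 10 12 false true false), .t 1 (nat_lit 0) (.gp 11 8 9 10 13 false true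 false), .t 1 (nat_lit 0) (.gp 11 8 9 12 10 true false false), .t 1 (nat_lit 0) (.gp 11 8 9 12 13 false true false), .t 1 (nat_lit 0) (.gp 11 8 9 12 13 true false false), .t 1 (nat_lit 0) (.gp 11 8 9 13 10 true false false), .t 1 (nat_lit 0) (.gp 11 8 9 13 12 false true false), .t 1 (nat_lit 0) (.gp 11 8 9 13 12 true false false), .t 1 (nat_lit 0) (.gp 11 8 10 12 13 false true false), .t 1 (nat_lit 0) (.gp 11 8 10 12 13 true false false), .t 1 (nat_lit 0) (.gp 11 8 10 13 12 false true false), .t 1 (nat_lit 0) (.gp 11 8 10 13 12 true false false), .t 1 (nat_lit 0) (.gp 11 8 10 15 13 false true false), .t 1 (nat_lit 0) (.gp 11 8 10 16 12 false true false), .t 1 (nat_lit 0) (.gp 11 8 14 18 17 false false true), .t 1 (nat_lit 0) (.gp 11 9 10 12 13 false true false), .t 1 (nat_lit 0) (.gp 11 9 10 12 13 true false false), .t 1 (nat_lit 0) (.gp 11 9 10 13 12 false true false), .t 1 (nat_lit 0) (.gp 11 9 10 13 12 true false false), .t 1 (nat_lit 0) (.gp 11 9 10 15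 12 true true false), .t 1 (nat_lit 0) (.gp 11 9 10 16 12 true true false), .t 1 (nat_lit 0) (.gp 11 9 14 18 17 false false true), .t 1 (nat_lit 0) (.gp 11 10 14 18 17 false false true), .t 1 (nat_lit 0) (.gp 11 12 13 15 17 true true true), .t 1 (nat_lit 0) (.gp 11 12 14 17 15 false false true), .t 1 (nat_lit 0) (.gp 11 13 15 17 18 true false true), .t 1 (nat_lit 0) (.gp 11 13 16 17 18 true false true), .t 1 (nat_lit 0) (.gp 11 15 16 18 17 false true true), .t 1 (nat_lit 0) (.gp 12 0 1 2 14 true true false), .t 1 (nat_lit 0) (.gp 12 0 1 2 17 true true false)] (by decide +kernel) (by decide +kernel)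
theorem b30 : B 1920 1984 := Blk.of_chk [.t 1 (nat_lit 0) (.gp 12 0 1 5 9 true true true), .t 1 (nat_lit 0) (.gp 12 0 1 5 17 true true false), .t 1 (nat_lit 0) (.gp 12 0 1 7 15 true true true), .t 1 (nat_lit 0) (.gp 12 0 1 9 14 true true false), .t 1 (nat_lit 0) (.gp 12 0 1 11 18 true true true), .t 1 (nat_lit 0) (.gp 12 0 1 14 17 true true false), .t 1 (nat_lit 0) (.gp 12 0 1 15 17 true true false), .t 1 (nat_lit 0) (.gp 12 0 1 16 17 true true false), .t 1 (nat_lit 0) (.gp 12 0 1 18 17 true true false), .t 1 (nat_lit 0) (.gp 12 0 2 10 16 true true false), .t 1 (nat_lit 0) (.gp 12 0 4 5 17 true true false), .t 1 (nat_lit 0) (.gp 12 0 4 19 9 true false true), .t 1 (nat_lit 0) (.gp 12 0 5 16 8 true false true), .t 1 (nat_lit 0) (.gp 12 0 6 17 8 true false true), .t 1 (nat_lit 0) (.gp 12 0 8 11 13 true true true), .t 1 (nat_lit 0) (.gp 12 0 9 10 17 true true false), .t 1 (nat_lit 0) (.gp 12 0 9 14 16 true false false), .t 1 (nat_lit 0) (.gp 12 0 11 15 16 true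 true false), .t 1 (nat_lit 0) (.gp 12 0 15 17 16 false false false), .t 1 (nat_lit 0) (.gp 12 1 2 11 8 false true true), .t 1 (nat_lit 0) (.gp 12 1 2 11 9 false true true), .t 1 (nat_lit 0) (.gp 12 1 2 13 5 false true true), .t 1 (nat_lit 0) (.gp 12 1 2 13 8 false true true), .t 1 (nat_lit 0) (.gp 12 1 2 14 5 false false false), .t 1 (nat_lit 0) (.gp 12 1 2 17 5 false false false), .t 1 (nat_lit 0) (.gp 12 1 2 17 19 false false false), .t 1 (nat_lit 0) (.gp 12 1 3 5 8 true false true), .t 1 (nat_lit 0) (.gp 12 1 3 6 8 true false true), .t 1 (nat_lit 0) (.gp 12 1 3 9 10 true false true), .t 1 (nat_lit 0) (.gp 12 1 3 9 11 true false true), .t 1 (nat_lit 0) (.gp 12 1 3 14 4 true false true), .t 1 (nat_lit 0) (.gp 12 1 3 15 4 true false true), .t 1 (nat_lit 0) (.gp 12 1 3 16 4 true false true), .t 1 (nat_lit 0) (.gp 12 1 3 17 4 true false true), .t 1 (nat_lit 0) (.gp 12 1 4 5 6 true false true), .t 1 (nat_lit 0) (.gp 12 1 4 14 5 true false true), .t 1 (nat_lit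 0) (.gp 12 1 4 15 9 true false true), .t 1 (nat_lit 0) (.gp 12 1 5 14 13 true false true), .t 1 (nat_lit 0) (.gp 12 1 5 16 6 false false true), .t 1 (nat_lit 0) (.gp 12 1 5 17 16 false false false), .t 1 (nat_lit 0) (.gp 12 1 5 18 7 true false true), .t 1 (nat_lit 0) (.gp 12 1 6 8 14 true false false), .t 1 (nat_lit 0) (.gp 12 1 6 9 10 true true true), .t 1 (nat_lit 0) (.gp 12 1 6 15 11 true false true), .t 1 (nat_lit 0) (.gp 12 1 6 16 7 true false true), .t 1 (nat_lit 0) (.gp 12 1 7 14 13 true false false), .t 1 (nat_lit 0) (.gp 12 1 8 13 11 true false true), .t 1 (nat_lit 0) (.gp 12 1 8 14 13 true false true), .t 1 (nat_lit 0) (.gp 12 1 8 18 11 true false true), .t 1 (nat_lit 0) (.gp 12 1 8 18 14 false false false), .t 1 (nat_lit 0) (.gp 12 1 9 13 14 true false false), .t 1 (nat_lit 0) (.gp 12 1 9 13 15 true true false), .t 1 (nat_lit 0) (.gp 12 1 9 14 13 true false true), .t 1 (nat_lit 0) (.gp 12 1 9 14 17 true false false), .t 1 (nat_lit 0) (.gp 12 1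 9 17 15 false false false), .t 1 (nat_lit 0) (.gp 12 1 9 18 11 true false true), .t 1 (nat_lit 0) (.gp 12 1 10 17 11 false false true), .t 1 (nat_lit 0) (.gp 12 1 10 18 11 true false true), .t 1 (nat_lit 0) (.gp 12 1 13 14 15 true false false), .t 1 (nat_lit 0) (.gp 12 1 13 14 18 true false false), .t 1 (nat_lit 0) (.gp 12 2 8 17 13 true false false), .t 1 (nat_lit 0) (.gp 12 2 10 14 11 false false true), .t 1 (nat_lit 0) (.gp 12 3 4 5 11 true false true), .t 1 (nat_lit 0) (.gp 12 3 4 8 11 true false true)] (by decide +kernel) (by decide +kernel)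
theorem b31 : B 1984 2048 := Blk.of_chk [.t 1 (nat_lit 0) (.gp 12 3 5 11 8 false true true), .t 1 (nat_lit 0) (.gp 12 3 5 11 9 false true true), .t 1 (nat_lit 0) (.gp 12 3 6 8 10 true false false), .t 1 (nat_lit 0) (.gp 12 3 8 11 9 false true true), .t 1 (nat_lit 0) (.gp 12 4 5 7 13 true true true), .t 1 (nat_lit 0) (.gp 12 4 5 8 9 true false true), .t 1 (nat_lit 0) (.gp 12 4 5 8 14 false true true), .t 1 (nat_lit 0) (.gp 12 4 5 9 16 false true true), .t 1 (nat_lit 0) (.gp 12 4 5 10 11 true false true), .t 1 (nat_lit 0) (.gp 12 4 5 14 17 true true false), .t 1 (nat_lit 0) (.gp 12 4 5 16 18 true true false), .t 1 (nat_lit 0) (.gp 12 4 5 18 15 false false false), .t 1 (nat_lit 0) (.gp 12 4 5 18 16 false false false), .t 1 (nat_lit 0) (.gp 12 4 6 9 7 true false true), .t 1 (nat_lit 0) (.gp 12 4 6 13 8 false false false), .t 1 (nat_lit 0) (.gp 12 4 6 16 9 true false true), .t 1 (nat_lit 0) (.gp 12 4 7 8 10 true false true), .t 1 (nat_lit 0) (.gp 12 4 7 9 11 true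 false true), .t 1 (nat_lit 0) (.gp 12 4 7 14 18 true true false), .t 1 (nat_lit 0) (.gp 12 4 7 15 18 true true false), .t 1 (nat_lit 0) (.gp 12 4 7 17 18 true true false), .t 1 (nat_lit 0) (.gp 12 4 8 11 16 true true true), .t 1 (nat_lit 0) (.gp 12 4 9 10 11 true false true), .t 1 (nat_lit 0) (.gp 12 4 10 16 18 true true false), .t 1 (nat_lit 0) (.gp 12 4 13 14 15 true true true), .t 1 (nat_lit 0) (.gp 12 4 13 16 15 true false true), .t 1 (nat_lit 0) (.gp 12 5 6 7 8 true false true), .t 1 (nat_lit 0) (.gp 12 5 6 9 8 true false false), .t 1 (nat_lit 0) (.gp 12 5 6 10 8 true false false), .t 1 (nat_lit 0) (.gp 12 5 6 16 18 true true false), .t 1 (nat_lit 0) (.gp 12 5 6 18 7 true false true), .t 1 (nat_lit 0) (.gp 12 5 7 13 15 true true true), .t 1 (nat_lit 0) (.gp 12 5 7 13 16 true true true), .t 1 (nat_lit 0) (.gp 12 5 7 14 9 true false true), .t 1 (nat_lit 0) (.gp 12 5 7 14 10 true false true), .t 1 (nat_lit 0) (.gp 12 5 7 14 15 true false false), .t 1 (nat_lit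 0) (.gp 12 5 7 14 16 true false false), .t 1 (nat_lit 0) (.gp 12 5 7 16 15 true false true), .t 1 (nat_lit 0) (.gp 12 5 7 16 18 true true true), .t 1 (nat_lit 0) (.gp 12 5 8 10 9 false true true), .t 1 (nat_lit 0) (.gp 12 5 8 13 18 true true false), .t 1 (nat_lit 0) (.gp 12 5 9 10 11 true false true), .t 1 (nat_lit 0) (.gp 12 5 9 11 14 true true true), .t 1 (nat_lit 0) (.gp 12 5 9 14 10 false false true), .t 1 (nat_lit 0) (.gp 12 5 9 14 15 true false false), .t 1 (nat_lit 0) (.gp 12 5 9 14 16 true false false), .t 1 (nat_lit 0) (.gp 12 5 9 17 18 true true false), .t 1 (nat_lit 0) (.gp 12 5 10 14 15 true false false), .t 1 (nat_lit 0) (.gp 12 5 10 14 16 true false false), .t 1 (nat_lit 0) (.gp 12 5 15 18 16 false false true), .t 1 (nat_lit 0) (.gp 12 6 7 8 10 true false true), .t 1 (nat_lit 0) (.gp 12 6 7 10 16 true false false), .t 1 (nat_lit 0) (.gp 12 6 7 13 15 true true true), .t 1 (nat_lit 0) (.gp 12 6 7 13 16 true true true), .t 1 (nat_lit 0) (.gp 12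 6 7 14 8 true true true), .t 1 (nat_lit 0) (.gp 12 6 7 14 9 true false true), .t 1 (nat_lit 0) (.gp 12 6 7 14 15 true false false), .t 1 (nat_lit 0) (.gp 12 6 7 14 16 true false false), .t 1 (nat_lit 0) (.gp 12 6 7 16 15 true false true), .t 1 (nat_lit 0) (.gp 12 6 8 10 9 false true true), .t 1 (nat_lit 0) (.gp 12 6 8 11 13 true false true), .t 1 (nat_lit 0) (.gp 12 6 8 13 15 true false true), .t 1 (nat_lit 0) (.gp 12 6 8 13 16 true false true), .t 1 (nat_lit 0) (.gp 12 6 9 14 15 true false false)] (by decide +kernel) (by decide +kernel)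
theorem b32 : B 2048 2112 := Blk.of_chk [.t 1 (nat_lit 0) (.gp 12 6 9 14 16 true false false), .t 1 (nat_lit 0) (.gp 12 6 10 11 16 false true true), .t 1 (nat_lit 0) (.gp 12 6 11 15 16 true false true), .t 1 (nat_lit 0) (.gp 12 6 11 15 17 true false false), .t 1 (nat_lit 0) (.gp 12 6 11 16 17 true false false), .t 1 (nat_lit 0) (.gp 12 6 11 16 18 true true false), .t 1 (nat_lit 0) (.gp 12 7 8 14 18 true true false), .t 1 (nat_lit 0) (.gp 12 7 8 15 18 true true false), .t 1 (nat_lit 0) (.gp 12 7 8 18 19 false false false), .t 1 (nat_lit 0) (.gp 12 7 9 10 11 true false true), .t 1 (nat_lit 0) (.gp 12 7 9 11 14 true true true), .t 1 (nat_lit 0) (.gp 12 7 9 11 15 true true true), .t 1 (nat_lit 0) (.gp 12 7 9 13 16 false true false), .t 1 (nat_lit 0) (.gp 12 7 9 15 14 false true true), .t 1 (nat_lit 0) (.gp 12 7 9 19 17 true true true), .t 1 (nat_lit 0) (.gp 12 7 10 11 14 true true true), .t 1 (nat_lit 0) (.gp 12 7 10 14 17 true false false), .t 1 (nat_lit 0)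 (.gp 12 7 10 15 16 false true false), .t 1 (nat_lit 0) (.gp 12 7 10 15 18 true true false), .t 1 (nat_lit 0) (.gp 12 7 10 16 13 false false false), .t 1 (nat_lit 0) (.gp 12 7 10 17 13 false false false), .t 1 (nat_lit 0) (.gp 12 7 10 17 18 true true false), .t 1 (nat_lit 0) (.gp 12 7 10 18 14 false false false), .t 1 (nat_lit 0) (.gp 12 7 11 15 18 true true false), .t 1 (nat_lit 0) (.gp 12 7 11 17 18 true true false), .t 1 (nat_lit 0) (.gp 12 7 11 18 13 true false false), .t 1 (nat_lit 0) (.gp 12 7 15 16 18 true false false), .t 1 (nat_lit 0) (.gp 12 7 15 18 17 false false true), .t 1 (nat_lit 0) (.gp 12 8 9 10 11 true false true), .t 1 (nat_lit 0) (.gp 12 8 9 11 10 false true true), .t 1 (nat_lit 0) (.gp 12 8 9 11 13 false true true), .t 1 (nat_lit 0) (.gp 12 8 9 11 13 true true true), .t 1 (nat_lit 0) (.gp 12 8 9 11 14 true true true), .t 1 (nat_lit 0) (.gp 12 8 9 13 11 false false true), .t 1 (nat_lit 0) (.gp 12 8 9 13 11 true false true), .t 1 (nat_lit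 0) (.gp 12 8 9 13 14 true true false), .t 1 (nat_lit 0) (.gp 12 8 9 14 13 false false false), .t 1 (nat_lit 0) (.gp 12 8 9 14 13 false true true), .t 1 (nat_lit 0) (.gp 12 8 10 11 13 false true true), .t 1 (nat_lit 0) (.gp 12 8 10 11 13 true true true), .t 1 (nat_lit 0) (.gp 12 8 10 11 16 false true true), .t 1 (nat_lit 0) (.gp 12 8 10 13 11 false false true), .t 1 (nat_lit 0) (.gp 12 8 10 13 11 true false true), .t 1 (nat_lit 0) (.gp 12 8 10 13 14 false true false), .t 1 (nat_lit 0) (.gp 12 8 11 13 14 true false true), .t 1 (nat_lit 0) (.gp 12 8 11 18 13 true false false), .t 1 (nat_lit 0) (.gp 12 8 13 14 17 true false false), .t 1 (nat_lit 0) (.gp 12 8 13 14 18 true false false), .t 1 (nat_lit 0) (.gp 12 8 13 15 14 false false true), .t 1 (nat_lit 0) (.gp 12 8 13 16 14 false false true), .t 1 (nat_lit 0) (.gp 12 8 13 18 15 false false true), .t 1 (nat_lit 0) (.gp 12 8 13 18 16 false false true), .t 1 (nat_lit 0) (.gp 12 8 13 19 14 false false false), .t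 1 (nat_lit 0) (.gp 12 8 14 18 15 false false true), .t 1 (nat_lit 0) (.gp 12 8 14 18 16 false false true), .t 1 (nat_lit 0) (.gp 12 8 14 18 17 false false true), .t 1 (nat_lit 0) (.gp 12 9 10 11 13 false true true), .t 1 (nat_lit 0) (.gp 12 9 10 11 13 true false true), .t 1 (nat_lit 0) (.gp 12 9 10 11 13 true true true), .t 1 (nat_lit 0) (.gp 12 9 10 13 11 false false true), .t 1 (nat_lit 0) (.gp 12 9 10 13 11 true false true), .t 1 (nat_lit 0) (.gp 12 9 10 13 15 true false true), .t 1 (nat_lit 0) (.gp 12 9 10 13 16 true false true), .t 1 (nat_lit 0) (.gp 12 9 10 13 18 true true false)] (by decide +kernel) (by decide +kernel)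
theorem b33 : B 2112 2176 := Blk.of_chk [.t 1 (nat_lit 0) (.gp 12 9 10 14 13 false false false), .t 1 (nat_lit 0) (.gp 12 9 10 15 13 true false false), .t 1 (nat_lit 0) (.gp 12 9 10 18 15 false false false), .t 1 (nat_lit 0) (.gp 12 9 10 18 16 false false false), .t 1 (nat_lit 0) (.gp 12 9 11 13 15 true true false), .t 1 (nat_lit 0) (.gp 12 9 11 15 17 true false true), .t 1 (nat_lit 0) (.gp 12 9 11 16 17 true false false), .t 1 (nat_lit 0) (.gp 12 9 13 14 16 true false false), .t 1 (nat_lit 0) (.gp 12 9 13 15 14 false false true), .t 1 (nat_lit 0) (.gp 12 9 13 15 18 true true false), .t 1 (nat_lit 0) (.gp 12 9 13 16 14 false false true), .t 1 (nat_lit 0) (.gp 12 9 13 16 15 false false true), .t 1 (nat_lit 0) (.gp 12 9 13 18 15 false false false), .t 1 (nat_lit 0) (.gp 12 9 14 16 15 true false true), .t 1 (nat_lit 0) (.gp 12 9 16 18 17 false false true), .t 1 (nat_lit 0) (.gp 12 10 11 14 15 true true true), .t 1 (nat_lit 0) (.gp 12 10 11 14 18 true true true),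 .t 1 (nat_lit 0) (.gp 12 10 11 15 13 true false true), .t 1 (nat_lit 0) (.gp 12 10 11 17 18 true true false), .t 1 (nat_lit 0) (.gp 12 10 13 14 15 true false false), .t 1 (nat_lit 0) (.gp 12 10 13 14 15 true true true), .t 1 (nat_lit 0) (.gp 12 10 13 14 16 true false false), .t 1 (nat_lit 0) (.gp 12 10 13 15 14 false false false), .t 1 (nat_lit 0) (.gp 12 10 13 15 14 false false true), .t 1 (nat_lit 0) (.gp 12 10 13 15 14 false true false), .t 1 (nat_lit 0) (.gp 12 10 13 15 16 false false true), .t 1 (nat_lit 0) (.gp 12 10 13 16 14 false false true), .t 1 (nat_lit 0) (.gp 12 10 13 16 15 false false true), .t 1 (nat_lit 0) (.gp 12 10 13 17 14 false false false), .t 1 (nat_lit 0) (.gp 12 10 14 15 16 false false true), .t 1 (nat_lit 0) (.gp 12 10 14 16 15 false false true), .t 1 (nat_lit 0) (.gp 12 10 14 17 15 false false true), .t 1 (nat_lit 0) (.gp 12 10 14 18 19 false false true), .t 1 (nat_lit 0) (.gp 12 10 14 19 15 false false true), .t 1 (nat_lit 0) (.gp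 12 10 15 17 18 true false false), .t 1 (nat_lit 0) (.gp 12 10 15 18 16 false true true), .t 1 (nat_lit 0) (.gp 12 10 15 18 17 false false true), .t 1 (nat_lit 0) (.gp 12 10 16 18 17 false false true), .t 1 (nat_lit 0) (.gp 12 11 13 14 16 true true true), .t 1 (nat_lit 0) (.gp 12 11 13 15 14 false true true), .t 1 (nat_lit 0) (.gp 12 11 14 15 17 true false true), .t 1 (nat_lit 0) (.gp 12 11 16 18 17 false false true), .t 1 (nat_lit 0) (.gp 12 13 14 15 16 true false true), .t 1 (nat_lit 0) (.gp 12 13 14 15 16 true true true), .t 1 (nat_lit 0) (.gp 12 13 14 15 17 false false true), .t 1 (nat_lit 0) (.gp 12 13 14 15 18 true false true), .t 1 (nat_lit 0) (.gp 12 13 14 16 15 true false true), .t 1 (nat_lit 0) (.gp 12 13 14 16 15 true true true), .t 1 (nat_lit 0) (.gp 12 13 14 16 18 true false true), .t 1 (nat_lit 0) (.gp 12 13 14 18 15 false false true), .t 1 (nat_lit 0) (.gp 12 13 14 19 15 false false true), .t 1 (nat_lit 0) (.gp 12 15 16 17 18 true false true),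 .t 1 (nat_lit 0) (.gp 12 15 17 19 18 true false false), .t 1 (nat_lit 0) (.gp 12 16 17 19 18 true false false), .t 1 (nat_lit 0) (.gp 13 0 1 2 14 true true false), .t 1 (nat_lit 0) (.gp 13 0 1 2 17 true true false), .t 1 (nat_lit 0) (.gp 13 0 1 11 18 true true true), .t 1 (nat_lit 0) (.gp 13 0 1 14 17 true true false), .t 1 (nat_lit 0) (.gp 13 0 1 16 17 true true false), .t 1 (nat_lit 0) (.gp 13 0 1 18 17 true true false), .t 1 (nat_lit 0) (.gp 13 0 4 14 10 true false true), .t 1 (nat_lit 0) (.gp 13 0 5 17 7 true false true), .t 1 (nat_lit 0) (.gp 13 0 7 9 10 true true true), .t 1 (nat_lit 0) (.gp 13 0 8 9 18 true true true)] (by decide +kernel) (by decide +kernel)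
theorem b34 : B 2176 2240 := Blk.of_chk [.t 1 (nat_lit 0) (.gp 13 0 8 14 15 true false false), .t 1 (nat_lit 0) (.gp 13 0 8 19 10 true false true), .t 1 (nat_lit 0) (.gp 13 0 9 10 17 true true false), .t 1 (nat_lit 0) (.gp 13 0 9 14 10 true false true), .t 1 (nat_lit 0) (.gp 13 0 9 14 18 true false true), .t 1 (nat_lit 0) (.gp 13 0 9 15 18 true true true), .t 1 (nat_lit 0) (.gp 13 0 10 14 16 true false true), .t 1 (nat_lit 0) (.gp 13 0 10 15 18 true true true), .t 1 (nat_lit 0) (.gp 13 1 2 5 12 false true false), .t 1 (nat_lit 0) (.gp 13 1 2 8 12 false true false), .t 1 (nat_lit 0) (.gp 13 1 2 11 8 false true true), .t 1 (nat_lit 0) (.gp 13 1 2 11 9 false true true), .t 1 (nat_lit 0) (.gp 13 1 2 15 12 false false false), .t 1 (nat_lit 0) (.gp 13 1 2 17 16 false false false), .t 1 (nat_lit 0) (.gp 13 1 3 5 7 true false true), .t 1 (nat_lit 0) (.gp 13 1 3 6 9 true true true), .t 1 (nat_lit 0) (.gp 13 1 3 8 9 true false true), .t 1 (nat_lit 0) (.gp 13 1 3 8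 11 true false true), .t 1 (nat_lit 0) (.gp 13 1 3 9 10 true false true), .t 1 (nat_lit 0) (.gp 13 1 3 9 11 true false true), .t 1 (nat_lit 0) (.gp 13 1 3 10 11 true false true), .t 1 (nat_lit 0) (.gp 13 1 3 15 4 true false true), .t 1 (nat_lit 0) (.gp 13 1 3 16 4 true false true), .t 1 (nat_lit 0) (.gp 13 1 4 5 6 true false true), .t 1 (nat_lit 0) (.gp 13 1 4 6 15 true true false), .t 1 (nat_lit 0) (.gp 13 1 4 8 9 true false true), .t 1 (nat_lit 0) (.gp 13 1 4 9 15 true false false), .t 1 (nat_lit 0) (.gp 13 1 5 12 14 true false false), .t 1 (nat_lit 0) (.gp 13 1 5 18 7 true false true), .t 1 (nat_lit 0) (.gp 13 1 5 18 12 true false false), .t 1 (nat_lit 0) (.gp 13 1 6 16 15 true false false), .t 1 (nat_lit 0) (.gp 13 1 6 17 10 true false true), .t 1 (nat_lit 0) (.gp 13 1 7 8 19 true true false), .t 1 (nat_lit 0) (.gp 13 1 8 12 14 true false false), .t 1 (nat_lit 0) (.gp 13 1 8 14 10 true false true), .t 1 (nat_lit 0) (.gp 13 1 8 15 9 true false true), .t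 1 (nat_lit 0) (.gp 13 1 8 18 11 true false true), .t 1 (nat_lit 0) (.gp 13 1 9 10 11 true false true), .t 1 (nat_lit 0) (.gp 13 1 9 12 14 true false false), .t 1 (nat_lit 0) (.gp 13 1 9 14 12 true false true), .t 1 (nat_lit 0) (.gp 13 1 10 14 11 false false true), .t 1 (nat_lit 0) (.gp 13 1 10 16 12 false false true), .t 1 (nat_lit 0) (.gp 13 1 10 18 11 true false true), .t 1 (nat_lit 0) (.gp 13 2 4 14 15 true false false), .t 1 (nat_lit 0) (.gp 13 2 10 14 11 false false true), .t 1 (nat_lit 0) (.gp 13 3 4 5 6 true false true), .t 1 (nat_lit 0) (.gp 13 3 4 5 11 true false true), .t 1 (nat_lit 0) (.gp 13 3 5 10 9 true false false), .t 1 (nat_lit 0) (.gp 13 3 5 10 11 true false true), .t 1 (nat_lit 0) (.gp 13 3 5 11 8 false true true), .t 1 (nat_lit 0) (.gp 13 3 6 8 9 true false true), .t 1 (nat_lit 0) (.gp 13 3 6 8 11 true false true), .t 1 (nat_lit 0) (.gp 13 3 6 15 7 true false true), .t 1 (nat_lit 0) (.gp 13 3 8 11 10 false true true), .t 1 (nat_lit 0)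 (.gp 13 3 10 12 18 false true false), .t 1 (nat_lit 0) (.gp 13 3 12 16 14 false false false), .t 1 (nat_lit 0) (.gp 13 4 5 15 16 true false false), .t 1 (nat_lit 0) (.gp 13 4 5 16 18 true true false), .t 1 (nat_lit 0) (.gp 13 4 6 9 7 false false true), .t 1 (nat_lit 0) (.gp 13 4 6 10 8 true false true), .t 1 (nat_lit 0) (.gp 13 4 6 12 10 false true false), .t 1 (nat_lit 0) (.gp 13 4 6 16 10 false false true), .t 1 (nat_lit 0) (.gp 13 4 6 16 18 true true false), .t 1 (nat_lit 0) (.gp 13 4 7 8 9 true false true)] (by decide +kernel) (by decide +kernel)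
theorem b35 : B 2240 2304 := Blk.of_chk [.t 1 (nat_lit 0) (.gp 13 4 7 10 11 true false true), .t 1 (nat_lit 0) (.gp 13 4 7 10 12 true false false), .t 1 (nat_lit 0) (.gp 13 4 7 10 15 true false false), .t 1 (nat_lit 0) (.gp 13 4 7 14 18 true true false), .t 1 (nat_lit 0) (.gp 13 4 7 15 16 true false true), .t 1 (nat_lit 0) (.gp 13 4 7 15 18 true true false), .t 1 (nat_lit 0) (.gp 13 4 8 10 11 true false true), .t 1 (nat_lit 0) (.gp 13 4 8 11 12 true true true), .t 1 (nat_lit 0) (.gp 13 4 8 14 12 true false false), .t 1 (nat_lit 0) (.gp 13 4 8 15 14 false true false), .t 1 (nat_lit 0) (.gp 13 4 8 16 14 false true false), .t 1 (nat_lit 0) (.gp 13 4 9 16 15 false true false), .t 1 (nat_lit 0) (.gp 13 4 11 12 14 true false true), .t 1 (nat_lit 0) (.gp 13 4 11 15 17 true false true), .t 1 (nat_lit 0) (.gp 13 5 6 7 8 true false true), .t 1 (nat_lit 0) (.gp 13 5 6 8 7 false true true), .t 1 (nat_lit 0) (.gp 13 5 6 8 10 false true false), .t 1 (nat_lit 0) (.gp 13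 5 6 9 8 true false false), .t 1 (nat_lit 0) (.gp 13 5 7 14 9 true false true), .t 1 (nat_lit 0) (.gp 13 5 7 14 10 true false true), .t 1 (nat_lit 0) (.gp 13 5 7 14 12 true false false), .t 1 (nat_lit 0) (.gp 13 5 7 14 15 true false false), .t 1 (nat_lit 0) (.gp 13 5 7 14 15 true false true), .t 1 (nat_lit 0) (.gp 13 5 7 14 16 true false false), .t 1 (nat_lit 0) (.gp 13 5 8 10 9 false true true), .t 1 (nat_lit 0) (.gp 13 5 8 11 16 true true true), .t 1 (nat_lit 0) (.gp 13 5 8 12 18 true true false), .t 1 (nat_lit 0) (.gp 13 5 9 10 12 true false false), .t 1 (nat_lit 0) (.gp 13 5 9 11 14 true true true), .t 1 (nat_lit 0) (.gp 13 5 9 14 15 true false false), .t 1 (nat_lit 0) (.gp 13 5 9 14 16 true false false), .t 1 (nat_lit 0) (.gp 13 5 9 16 15 false true false), .t 1 (nat_lit 0) (.gp 13 5 10 14 15 true false false), .t 1 (nat_lit 0) (.gp 13 5 10 14 16 true false false), .t 1 (nat_lit 0) (.gp 13 5 10 18 12 false false true), .t 1 (nat_lit 0) (.gp 13 5 11 16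 15 true false true), .t 1 (nat_lit 0) (.gp 13 5 15 18 17 false false true), .t 1 (nat_lit 0) (.gp 13 6 7 8 11 true false true), .t 1 (nat_lit 0) (.gp 13 6 7 14 9 true false true), .t 1 (nat_lit 0) (.gp 13 6 7 14 10 true false true), .t 1 (nat_lit 0) (.gp 13 6 7 14 12 true false false), .t 1 (nat_lit 0) (.gp 13 6 7 14 15 true false false), .t 1 (nat_lit 0) (.gp 13 6 7 14 16 true false false), .t 1 (nat_lit 0) (.gp 13 6 8 9 14 true true true), .t 1 (nat_lit 0) (.gp 13 6 8 10 9 false true true), .t 1 (nat_lit 0) (.gp 13 6 8 11 17 true true true), .t 1 (nat_lit 0) (.gp 13 6 8 12 11 true false false), .t 1 (nat_lit 0) (.gp 13 6 8 15 12 true true false), .t 1 (nat_lit 0) (.gp 13 6 8 16 12 true true false), .t 1 (nat_lit 0) (.gp 13 6 8 19 18 true true false), .t 1 (nat_lit 0) (.gp 13 6 9 14 15 true false false), .t 1 (nat_lit 0) (.gp 13 6 9 14 16 true false false), .t 1 (nat_lit 0) (.gp 13 6 10 11 15 false true true), .t 1 (nat_lit 0) (.gp 13 6 10 14 16 true false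 false), .t 1 (nat_lit 0) (.gp 13 6 10 15 16 false true false), .t 1 (nat_lit 0) (.gp 13 6 14 17 15 false false true), .t 1 (nat_lit 0) (.gp 13 6 14 17 16 false false true), .t 1 (nat_lit 0) (.gp 13 6 15 18 16 false false true), .t 1 (nat_lit 0) (.gp 13 7 8 9 12 false false true), .t 1 (nat_lit 0) (.gp 13 7 8 11 10 false true true), .t 1 (nat_lit 0) (.gp 13 7 8 12 16 false true false), .t 1 (nat_lit 0) (.gp 13 7 8 14 18 true true false), .t 1 (nat_lit 0) (.gp 13 7 9 10 14 true true true), .t 1 (nat_lit 0) (.gp 13 7 9 15 18 true true false)] (by decide +kernel) (by decide +kernel)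
theorem b36 : B 2304 2368 := Blk.of_chk [.t 1 (nat_lit 0) (.gp 13 7 10 11 17 true true true), .t 1 (nat_lit 0) (.gp 13 7 10 14 15 true true true), .t 1 (nat_lit 0) (.gp 13 7 10 14 16 true true true), .t 1 (nat_lit 0) (.gp 13 7 10 14 18 true true false), .t 1 (nat_lit 0) (.gp 13 7 10 16 12 false false false), .t 1 (nat_lit 0) (.gp 13 7 10 17 12 false true true), .t 1 (nat_lit 0) (.gp 13 7 10 18 12 false false false), .t 1 (nat_lit 0) (.gp 13 7 11 15 18 true true false), .t 1 (nat_lit 0) (.gp 13 7 11 17 18 true true false), .t 1 (nat_lit 0) (.gp 13 7 12 16 17 true false true), .t 1 (nat_lit 0) (.gp 13 7 12 16 18 true false false), .t 1 (nat_lit 0) (.gp 13 8 9 10 11 true false true), .t 1 (nat_lit 0) (.gp 13 8 9 10 15 true false false), .t 1 (nat_lit 0) (.gp 13 8 9 10 18 false true true), .t 1 (nat_lit 0) (.gp 13 8 9 11 10 false true true), .t 1 (nat_lit 0) (.gp 13 8 9 11 14 true true true), .t 1 (nat_lit 0) (.gp 13 8 10 11 12 false true true), .t 1 (nat_lit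 0) (.gp 13 8 10 11 15 false true true), .t 1 (nat_lit 0) (.gp 13 8 10 12 15 false true false), .t 1 (nat_lit 0) (.gp 13 8 10 12 17 true true false), .t 1 (nat_lit 0) (.gp 13 8 10 14 12 true true false), .t 1 (nat_lit 0) (.gp 13 8 10 14 15 true false true), .t 1 (nat_lit 0) (.gp 13 8 10 15 18 true true false), .t 1 (nat_lit 0) (.gp 13 8 10 16 18 true true false), .t 1 (nat_lit 0) (.gp 13 8 11 12 14 true false true), .t 1 (nat_lit 0) (.gp 13 8 11 14 16 true false true), .t 1 (nat_lit 0) (.gp 13 8 11 15 12 true false false), .t 1 (nat_lit 0) (.gp 13 8 11 16 12 true false false), .t 1 (nat_lit 0) (.gp 13 8 11 17 18 true true true), .t 1 (nat_lit 0) (.gp 13 8 12 14 17 true false false), .t 1 (nat_lit 0) (.gp 13 8 12 16 14 false false false), .t 1 (nat_lit 0) (.gp 13 8 12 18 16 false false false), .t 1 (nat_lit 0) (.gp 13 8 14 18 17 false false true), .t 1 (nat_lit 0) (.gp 13 8 15 18 19 false false true), .t 1 (nat_lit 0) (.gp 13 9 10 11 18 false true true), .t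 1 (nat_lit 0) (.gp 13 9 10 12 11 true false false), .t 1 (nat_lit 0) (.gp 13 9 10 14 16 true false true), .t 1 (nat_lit 0) (.gp 13 9 10 15 12 true true false), .t 1 (nat_lit 0) (.gp 13 9 10 16 12 true true false), .t 1 (nat_lit 0) (.gp 13 9 11 12 14 true false true), .t 1 (nat_lit 0) (.gp 13 9 11 12 15 true true false), .t 1 (nat_lit 0) (.gp 13 9 11 14 15 true false true), .t 1 (nat_lit 0) (.gp 13 9 12 15 14 false false true), .t 1 (nat_lit 0) (.gp 13 9 12 16 14 false false true), .t 1 (nat_lit 0) (.gp 13 9 15 19 16 false false false), .t 1 (nat_lit 0) (.gp 13 10 11 12 14 true false true), .t 1 (nat_lit 0) (.gp 13 10 11 12 15 true false false), .t 1 (nat_lit 0) (.gp 13 10 11 12 18 true true false), .t 1 (nat_lit 0) (.gp 13 10 11 15 12 true false false), .t 1 (nat_lit 0) (.gp 13 10 11 15 18 true true false), .t 1 (nat_lit 0) (.gp 13 10 11 15 18 true true true), .t 1 (nat_lit 0) (.gp 13 10 11 16 12 true false false), .t 1 (nat_lit 0) (.gp 13 10 11 17 18 true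 true false), .t 1 (nat_lit 0) (.gp 13 10 11 18 12 true false false), .t 1 (nat_lit 0) (.gp 13 10 12 14 15 true false true), .t 1 (nat_lit 0) (.gp 13 10 12 15 14 false false true), .t 1 (nat_lit 0) (.gp 13 10 12 15 16 false false true), .t 1 (nat_lit 0) (.gp 13 10 12 16 14 false false true), .t 1 (nat_lit 0) (.gp 13 10 12 16 15 false false true), .t 1 (nat_lit 0) (.gp 13 10 12 16 18 true true false), .t 1 (nat_lit 0) (.gp 13 10 12 17 14 false false false), .t 1 (nat_lit 0) (.gp 13 10 14 15 16 false false true), .t 1 (nat_lit 0) (.gp 13 10 14 16 15 false false true), .t 1 (nat_lit 0) (.gp 13 10 14 16 15 true false true)] (by decide +kernel) (by decide +kernel)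
theorem b37 : B 2368 2432 := Blk.of_chk [.t 1 (nat_lit 0) (.gp 13 10 14 17 16 false false true), .t 1 (nat_lit 0) (.gp 13 10 14 18 16 false false true), .t 1 (nat_lit 0) (.gp 13 10 15 18 16 false false true), .t 1 (nat_lit 0) (.gp 13 10 15 18 17 false false true), .t 1 (nat_lit 0) (.gp 13 10 16 18 17 false false true), .t 1 (nat_lit 0) (.gp 13 11 12 14 15 true true true), .t 1 (nat_lit 0) (.gp 13 11 12 15 14 false true true), .t 1 (nat_lit 0) (.gp 13 11 12 16 17 false false false), .t 1 (nat_lit 0) (.gp 13 11 12 16 17 true false true), .t 1 (nat_lit 0) (.gp 13 11 15 18 17 false false true), .t 1 (nat_lit 0) (.gp 13 12 14 15 16 false false true), .t 1 (nat_lit 0) (.gp 13 12 14 15 16 true false true), .t 1 (nat_lit 0) (.gp 13 12 14 15 16 true true true), .t 1 (nat_lit 0) (.gp 13 12 14 15 17 false false true), .t 1 (nat_lit 0) (.gp 13 12 14 16 15 true false true), .t 1 (nat_lit 0) (.gp 13 12 14 16 15 true true true), .t 1 (nat_lit 0) (.gp 13 12 14 16 17 true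 false true), .t 1 (nat_lit 0) (.gp 13 12 14 17 15 false false true), .t 1 (nat_lit 0) (.gp 13 15 16 17 18 true false true), .t 1 (nat_lit 0) (.gp 13 15 16 18 17 false true true), .t 1 (nat_lit 0) (.gp 13 15 17 19 18 true false false), .t 1 (nat_lit 0) (.gp 13 16 17 19 18 true false false), .t 1 (nat_lit 0) (.gp 14 0 1 6 16 true true true), .t 1 (nat_lit 0) (.gp 14 0 1 9 2 true true true), .t 1 (nat_lit 0) (.gp 14 0 1 9 5 true true true), .t 1 (nat_lit 0) (.gp 14 0 1 9 6 true true true), .t 1 (nat_lit 0) (.gp 14 0 1 9 10 true true true), .t 1 (nat_lit 0) (.gp 14 0 1 10 5 true true true), .t 1 (nat_lit 0) (.gp 14 0 1 12 6 true true true), .t 1 (nat_lit 0) (.gp 14 0 1 13 5 true true true), .t 1 (nat_lit 0) (.gp 14 0 1 13 6 true true true), .t 1 (nat_lit 0) (.gp 14 0 2 3 10 true true true), .t 1 (nat_lit 0) (.gp 14 0 2 5 18 true true true), .t 1 (nat_lit 0) (.gp 14 0 2 6 18 true true true), .t 1 (nat_lit 0) (.gp 14 0 2 17 15 true false false), .t 1 (nat_lit 0)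 (.gp 14 0 2 17 16 true false false), .t 1 (nat_lit 0) (.gp 14 0 4 5 16 true true false), .t 1 (nat_lit 0) (.gp 14 0 4 10 5 true true true), .t 1 (nat_lit 0) (.gp 14 0 4 10 12 true true true), .t 1 (nat_lit 0) (.gp 14 0 4 12 9 true true true), .t 1 (nat_lit 0) (.gp 14 0 5 7 12 true true true), .t 1 (nat_lit 0) (.gp 14 0 5 7 13 true true true), .t 1 (nat_lit 0) (.gp 14 0 6 7 12 true true true), .t 1 (nat_lit 0) (.gp 14 0 6 7 13 true true true), .t 1 (nat_lit 0) (.gp 14 0 6 10 16 true true true), .t 1 (nat_lit 0) (.gp 14 0 6 17 16 true false false), .t 1 (nat_lit 0) (.gp 14 0 7 9 8 true true true), .t 1 (nat_lit 0) (.gp 14 0 9 17 16 true false false), .t 1 (nat_lit 0) (.gp 14 0 9 18 10 true true true), .t 1 (nat_lit 0) (.gp 14 0 10 15 11 true false true), .t 1 (nat_lit 0) (.gp 14 0 10 16 11 true false true), .t 1 (nat_lit 0) (.gp 14 0 15 16 17 false true false), .t 1 (nat_lit 0) (.gp 14 1 2 7 5 false true true), .t 1 (nat_lit 0) (.gp 14 1 2 11 8 false true true),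 .t 1 (nat_lit 0) (.gp 14 1 2 11 10 false true true), .t 1 (nat_lit 0) (.gp 14 1 3 4 10 true true true), .t 1 (nat_lit 0) (.gp 14 1 3 4 13 true true true), .t 1 (nat_lit 0) (.gp 14 1 3 9 11 true false true), .t 1 (nat_lit 0) (.gp 14 1 3 10 11 true false true), .t 1 (nat_lit 0) (.gp 14 1 3 15 4 true false true), .t 1 (nat_lit 0) (.gp 14 1 3 16 4 true false true), .t 1 (nat_lit 0) (.gp 14 1 4 8 10 true true true), .t 1 (nat_lit 0) (.gp 14 1 4 8 11 true false true), .t 1 (nat_lit 0) (.gp 14 1 4 9 8 true true true)] (by decide +kernel) (by decide +kernel)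
theorem b38 : B 2432 2496 := Blk.of_chk [.t 1 (nat_lit 0) (.gp 14 1 4 10 8 true true true), .t 1 (nat_lit 0) (.gp 14 1 4 10 11 true false true), .t 1 (nat_lit 0) (.gp 14 1 4 10 13 true true true), .t 1 (nat_lit 0) (.gp 14 1 4 15 11 true false true), .t 1 (nat_lit 0) (.gp 14 1 4 16 11 true false true), .t 1 (nat_lit 0) (.gp 14 1 5 8 7 true false true), .t 1 (nat_lit 0) (.gp 14 1 5 9 11 true false true), .t 1 (nat_lit 0) (.gp 14 1 5 15 7 true false true), .t 1 (nat_lit 0) (.gp 14 1 5 16 7 true false true), .t 1 (nat_lit 0) (.gp 14 1 5 18 7 true false true), .t 1 (nat_lit 0) (.gp 14 1 6 8 10 true false true), .t 1 (nat_lit 0) (.gp 14 1 6 12 8 true true false), .t 1 (nat_lit 0) (.gp 14 1 6 15 7 true false true), .t 1 (nat_lit 0) (.gp 14 1 6 16 7 true false true), .t 1 (nat_lit 0) (.gp 14 1 6 18 7 true false true), .t 1 (nat_lit 0) (.gp 14 1 7 10 11 true false true), .t 1 (nat_lit 0) (.gp 14 1 7 13 8 true true true), .t 1 (nat_lit 0) (.gp 14 1 7 13 9 true true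 true), .t 1 (nat_lit 0) (.gp 14 1 8 10 11 true false true), .t 1 (nat_lit 0) (.gp 14 1 8 15 9 true false true), .t 1 (nat_lit 0) (.gp 14 1 8 15 11 true false true), .t 1 (nat_lit 0) (.gp 14 1 8 16 9 true false true), .t 1 (nat_lit 0) (.gp 14 1 8 16 11 true false true), .t 1 (nat_lit 0) (.gp 14 1 8 18 9 true false true), .t 1 (nat_lit 0) (.gp 14 1 8 18 11 true false true), .t 1 (nat_lit 0) (.gp 14 1 8 19 9 true false true), .t 1 (nat_lit 0) (.gp 14 1 8 19 11 true false true), .t 1 (nat_lit 0) (.gp 14 1 9 10 12 true true true), .t 1 (nat_lit 0) (.gp 14 1 9 11 10 false true true), .t 1 (nat_lit 0) (.gp 14 1 9 11 12 false true true), .t 1 (nat_lit 0) (.gp 14 1 9 11 13 false true true), .t 1 (nat_lit 0) (.gp 14 1 9 15 11 true false true), .t 1 (nat_lit 0) (.gp 14 1 9 16 11 true false true), .t 1 (nat_lit 0) (.gp 14 1 9 18 11 true false true), .t 1 (nat_lit 0) (.gp 14 1 9 19 11 true false true), .t 1 (nat_lit 0) (.gp 14 1 10 11 12 false true true), .t 1 (nat_lit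 0) (.gp 14 1 10 11 13 false true true), .t 1 (nat_lit 0) (.gp 14 1 10 15 11 true false true), .t 1 (nat_lit 0) (.gp 14 1 10 18 11 true false true), .t 1 (nat_lit 0) (.gp 14 1 10 19 11 true false true), .t 1 (nat_lit 0) (.gp 14 1 11 12 15 true true false), .t 1 (nat_lit 0) (.gp 14 1 11 12 16 true true false), .t 1 (nat_lit 0) (.gp 14 1 11 12 18 true true false), .t 1 (nat_lit 0) (.gp 14 1 11 12 19 true true false), .t 1 (nat_lit 0) (.gp 14 1 11 13 15 true true false), .t 1 (nat_lit 0) (.gp 14 1 11 13 16 true true false), .t 1 (nat_lit 0) (.gp 14 1 11 13 18 true true false), .t 1 (nat_lit 0) (.gp 14 1 11 13 19 true true false), .t 1 (nat_lit 0) (.gp 14 2 3 15 10 true true false), .t 1 (nat_lit 0) (.gp 14 2 3 16 10 true true false), .t 1 (nat_lit 0) (.gp 14 2 3 18 10 true true false), .t 1 (nat_lit 0) (.gp 14 2 4 9 6 true true true), .t 1 (nat_lit 0) (.gp 14 2 8 10 11 true false true), .t 1 (nat_lit 0) (.gp 14 2 9 10 11 true false true), .t 1 (nat_lit 0) (.gp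 14 2 9 10 13 true true true), .t 1 (nat_lit 0) (.gp 14 2 10 11 13 false true true), .t 1 (nat_lit 0) (.gp 14 2 10 18 11 true false true), .t 1 (nat_lit 0) (.gp 14 3 4 9 11 true false true), .t 1 (nat_lit 0) (.gp 14 4 5 10 11 true false true), .t 1 (nat_lit 0) (.gp 14 4 5 15 13 true false false), .t 1 (nat_lit 0) (.gp 14 4 6 7 9 true true true), .t 1 (nat_lit 0) (.gp 14 4 6 8 7 true false true), .t 1 (nat_lit 0) (.gp 14 4 6 9 7 true false true), .t 1 (nat_lit 0) (.gp 14 4 6 9 10 false true true)] (by decide +kernel) (by decide +kernel)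
theorem b39 : B 2496 2560 := Blk.of_chk [.t 1 (nat_lit 0) (.gp 14 4 6 10 7 true false true), .t 1 (nat_lit 0) (.gp 14 4 6 10 8 true false true), .t 1 (nat_lit 0) (.gp 14 4 6 12 10 false false true), .t 1 (nat_lit 0) (.gp 14 4 6 17 12 true false false), .t 1 (nat_lit 0) (.gp 14 4 7 8 11 true false true), .t 1 (nat_lit 0) (.gp 14 4 7 8 13 true true false), .t 1 (nat_lit 0) (.gp 14 4 7 9 11 true false true), .t 1 (nat_lit 0) (.gp 14 4 7 10 11 true false true), .t 1 (nat_lit 0) (.gp 14 4 7 12 13 true false false), .t 1 (nat_lit 0) (.gp 14 4 7 15 11 true false true), .t 1 (nat_lit 0) (.gp 14 4 7 16 11 true false true), .t 1 (nat_lit 0) (.gp 14 4 8 9 11 true false true), .t 1 (nat_lit 0) (.gp 14 4 8 10 11 true false true), .t 1 (nat_lit 0) (.gp 14 4 8 11 12 false true true), .t 1 (nat_lit 0) (.gp 14 4 8 11 13 false true true), .t 1 (nat_lit 0) (.gp 14 4 8 13 11 true false true), .t 1 (nat_lit 0) (.gp 14 4 8 17 12 true false false), .t 1 (nat_lit 0) (.gp 14 4 8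 18 11 true false true), .t 1 (nat_lit 0) (.gp 14 4 9 10 11 true false true), .t 1 (nat_lit 0) (.gp 14 4 9 10 12 true true false), .t 1 (nat_lit 0) (.gp 14 4 9 11 13 false true true), .t 1 (nat_lit 0) (.gp 14 4 9 12 13 true false true), .t 1 (nat_lit 0) (.gp 14 4 9 13 11 true false true), .t 1 (nat_lit 0) (.gp 14 4 9 13 12 true true true), .t 1 (nat_lit 0) (.gp 14 4 9 15 11 true false true), .t 1 (nat_lit 0) (.gp 14 4 9 18 11 true false true), .t 1 (nat_lit 0) (.gp 14 4 9 19 11 true false true), .t 1 (nat_lit 0) (.gp 14 4 10 11 12 false true true), .t 1 (nat_lit 0) (.gp 14 4 10 11 13 false true true), .t 1 (nat_lit 0) (.gp 14 4 10 16 13 true false false), .t 1 (nat_lit 0) (.gp 14 4 11 12 13 true true false), .t 1 (nat_lit 0) (.gp 14 5 7 8 13 true true false), .t 1 (nat_lit 0) (.gp 14 5 7 12 13 true false true), .t 1 (nat_lit 0) (.gp 14 5 7 15 12 true false true), .t 1 (nat_lit 0) (.gp 14 5 7 15 13 true false false), .t 1 (nat_lit 0) (.gp 14 5 7 16 12 true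 false true), .t 1 (nat_lit 0) (.gp 14 5 7 16 13 true false false), .t 1 (nat_lit 0) (.gp 14 5 7 19 18 true true false), .t 1 (nat_lit 0) (.gp 14 5 9 12 13 true false true), .t 1 (nat_lit 0) (.gp 14 5 9 15 12 true false true), .t 1 (nat_lit 0) (.gp 14 5 9 15 13 true false false), .t 1 (nat_lit 0) (.gp 14 5 9 15 13 true false true), .t 1 (nat_lit 0) (.gp 14 5 9 16 12 true false true), .t 1 (nat_lit 0) (.gp 14 5 9 16 13 true false false), .t 1 (nat_lit 0) (.gp 14 5 9 16 13 true false true), .t 1 (nat_lit 0) (.gp 14 5 10 12 13 true false true), .t 1 (nat_lit 0) (.gp 14 5 10 15 12 true false true), .t 1 (nat_lit 0) (.gp 14 5 10 15 13 true false false), .t 1 (nat_lit 0) (.gp 14 5 10 15 13 true false true), .t 1 (nat_lit 0) (.gp 14 5 10 16 12 true false true), .t 1 (nat_lit 0) (.gp 14 5 10 16 13 true false false), .t 1 (nat_lit 0) (.gp 14 5 10 16 13 true false true), .t 1 (nat_lit 0) (.gp 14 5 12 13 15 false true false), .t 1 (nat_lit 0) (.gp 14 5 12 13 16 false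 true false), .t 1 (nat_lit 0) (.gp 14 5 12 15 13 true false false), .t 1 (nat_lit 0) (.gp 14 5 12 16 13 true false false), .t 1 (nat_lit 0) (.gp 14 6 7 12 13 true false true), .t 1 (nat_lit 0) (.gp 14 6 7 15 12 true false true), .t 1 (nat_lit 0) (.gp 14 6 7 15 13 true false false), .t 1 (nat_lit 0) (.gp 14 6 7 16 12 true false true), .t 1 (nat_lit 0) (.gp 14 6 7 16 13 true false false), .t 1 (nat_lit 0) (.gp 14 6 9 12 13 true false true), .t 1 (nat_lit 0) (.gp 14 6 9 15 12 true false true), .t 1 (nat_lit 0) (.gp 14 6 9 15 13 true false false)] (by decide +kernel) (by decide +kernel)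

end N22

end Pool.Agent.GCP.UN3
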