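import Pool.Agent.GCP.UN3d

set_option autoImplicit false
set_option maxRecDepth 100000

/-! # Certificates of three chords (generated, MP_062f91_co) -/

namespace Pool.Agent.GCP.UN3

open Pool.Agent.GCP DB

namespace N22

theorem b40 : B 2560 2624 := Blk.of_chk [.t 1 (nat_lit 0) (.gp 14 6 9 15 13 true false true), .t 1 (nat_lit 0) (.gp 14 6 9 16 12 true false true), .t 1 (nat_lit 0) (.gp 14 6 9 16 13 true false false), .t 1 (nat_lit 0) (.gp 14 6 9 16 13 true false true), .t 1 (nat_lit 0) (.gp 14 6 10 12 13 true false true), .t 1 (nat_lit 0) (.gp 14 6 10 16 13 true false true), .t 1 (nat_lit 0) (.gp 14 6 12 13 15 false true false), .t 1 (nat_lit 0) (.gp 14 6 12 13 16 false true false), .t 1 (nat_lit 0) (.gp 14 6 12 15 13 true false false), .t 1 (nat_lit 0) (.gp 14 6 12 16 13 true false false), .t 1 (nat_lit 0) (.gp 14 7 8 9 12 true false false), .t 1 (nat_lit 0) (.gp 14 7 8 10 11 true false true), .t 1 (nat_lit 0) (.gp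 14 7 9 10 11 true false true), .t 1 (nat_lit 0) (.gp 14 7 9 11 12 false true true), .t 1 (nat_lit 0) (.gp 14 7 9 17 13 true false false), .t 1 (nat_lit 0) (.gp 14 7 10 11 12 false true true), .t 1 (nat_lit 0) (.gp 14 7 10 11 13 false true true), .t 1 (nat_lit 0) (.gp 14 7 10 16 15 false false false), .t 1 (nat_lit 0) (.gp 14 7 10 17 13 true false false), .t 1 (nat_lit 0) (.gp 14 7 12 15 13 true false false), .t 1 (nat_lit 0) (.gp 14 8 10 11 13 false true true), .t 1 (nat_lit 0) (.gp 14 8 10 15 18 true true false), .t 1 (nat_lit 0) (.gp 14 8 10 16 18 true true false), .t 1 (nat_lit 0) (.gp 14 8 10 17 13 true false false), .t 1 (nat_lit 0) (.gp 14 8 12 15 13 true false false), .t 1 (nat_lit 0) (.gp 14 8 12 16 13 true false false), .t 1 (nat_lit 0) (.gp 14 9 10 11 12 false true true), .t 1 (nat_lit 0) (.gp 14 9 10 11 13 false true true), .t 1 (nat_lit 0) (.gp 14 9 10 11 16 false true true), .t 1 (nat_lit 0) (.gp 14 9 11 15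 18 true true false), .t 1 (nat_lit 0) (.gp 14 9 11 19 18 true true false), .t 1 (nat_lit 0) (.gp 14 9 12 13 15 false true false), .t 1 (nat_lit 0) (.gp 14 9 12 13 16 false true false), .t 1 (nat_lit 0) (.gp 14 9 12 15 13 true false false), .t 1 (nat_lit 0) (.gp 14 9 12 16 13 true false false), .t 1 (nat_lit 0) (.gp 14 9 12 17 13 true false false), .t 1 (nat_lit 0) (.gp 14 10 11 15 12 true true false), .t 1 (nat_lit 0) (.gp 14 10 11 15 18 true true false), .t 1 (nat_lit 0) (.gp 14 10 11 16 18 true true false), .t 1 (nat_lit 0) (.gp 14 10 11 18 12 true true false), .t 1 (nat_lit 0) (.gp 14 10 11 19 12 true true false), .t 1 (nat_lit 0) (.gp 14 10 11 19 18 true true false), .t 1 (nat_lit 0) (.gp 14 10 12 13 15 false true false), .t 1 (nat_lit 0) (.gp 14 10 12 13 16 false true false), .t 1 (nat_lit 0) (.gp 14 10 12 15 13 true false false), .t 1 (nat_lit 0) (.gp 14 10 12 16 13 true false false), .t 1 (nat_lit 0) (.gp 14 10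 12 18 19 false true false), .t 1 (nat_lit 0) (.gp 14 10 12 19 13 true true false), .t 1 (nat_lit 0) (.gp 14 12 13 15 16 false true false), .t 1 (nat_lit 0) (.gp 14 12 13 15 16 true false false), .t 1 (nat_lit 0) (.gp 14 12 13 16 15 false true false), .t 1 (nat_lit 0) (.gp 14 12 13 16 15 true false false), .t 1 (nat_lit 0) (.gp 15 0 1 2 17 true true false), .t 1 (nat_lit 0) (.gp 15 0 1 6 19 true true true), .t 1 (nat_lit 0) (.gp 15 0 1 10 19 true true true), .t 1 (nat_lit 0) (.gp 15 0 1 17 4 true false true), .t 1 (nat_lit 0) (.gp 15 0 4 9 17 true true false), .t 1 (nat_lit 0) (.gp 15 0 4 16 10 true true true), .t 1 (nat_lit 0) (.gp 15 0 5 13 19 true true true), .t 1 (nat_lit 0) (.gp 15 0 5 17 8 true false true), .t 1 (nat_lit 0) (.gp 15 0 5 17 18 true false true), .t 1 (nat_lit 0) (.gp 15 0 10 16 19 true true true), .t 1 (nat_lit 0) (.gp 15 0 10 17 11 true false true), .t 1 (nat_lit 0) (.gp 15 0 10 18 12 true true false)]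 (by decide +kernel) (by decide +kernel)
theorem b41 : B 2624 2688 := Blk.of_chk [.t 1 (nat_lit 0) (.gp 15 0 11 12 16 true true false), .t 1 (nat_lit 0) (.gp 15 1 2 7 5 false true true), .t 1 (nat_lit 0) (.gp 15 1 2 7 12 false true true), .t 1 (nat_lit 0) (.gp 15 1 2 10 13 false true true), .t 1 (nat_lit 0) (.gp 15 1 2 11 8 false true true), .t 1 (nat_lit 0) (.gp 15 1 3 17 4 true false true), .t 1 (nat_lit 0) (.gp 15 1 4 11 13 true true true), .t 1 (nat_lit 0) (.gp 15 1 4 13 16 true true true), .t 1 (nat_lit 0) (.gp 15 1 5 8 12 true true true), .t 1 (nat_lit 0) (.gp 15 1 6 8 12 true true true), .t 1 (nat_lit 0) (.gp 15 1 6 13 19 true true false), .t 1 (nat_lit 0) (.gp 15 1 7 17 11 true false true), .t 1 (nat_lit 0) (.gp 15 1 9 12 13 true true true), .t 1 (nat_lit 0) (.gp 15 1 10 12 16 true true true), .t 1 (nat_lit 0) (.gp 15 1 10 16 12 true false true), .t 1 (nat_lit 0) (.gp 15 1 10 16 17 true true false), .t 1 (nat_lit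 0) (.gp 15 1 12 16 13 true true true), .t 1 (nat_lit 0) (.gp 15 1 12 16 14 true false true), .t 1 (nat_lit 0) (.gp 15 1 12 16 19 true true false), .t 1 (nat_lit 0) (.gp 15 1 12 17 16 true false false), .t 1 (nat_lit 0) (.gp 15 1 12 17 16 true false true), .t 1 (nat_lit 0) (.gp 15 1 13 16 14 true false true), .t 1 (nat_lit 0) (.gp 15 1 13 16 17 true true false), .t 1 (nat_lit 0) (.gp 15 1 13 17 16 true false false), .t 1 (nat_lit 0) (.gp 15 1 13 19 16 true false true), .t 1 (nat_lit 0) (.gp 15 2 3 4 10 true true true), .t 1 (nat_lit 0) (.gp 15 2 5 18 10 true true true), .t 1 (nat_lit 0) (.gp 15 2 9 18 13 true true false), .t 1 (nat_lit 0) (.gp 15 2 10 18 12 true true false), .t 1 (nat_lit 0) (.gp 15 2 13 14 18 false true true), .t 1 (nat_lit 0) (.gp 15 3 4 9 11 true false true), .t 1 (nat_lit 0) (.gp 15 4 5 8 7 true false true), .t 1 (nat_lit 0) (.gp 15 4 5 10 11 true false true), .t 1 (nat_lit 0) (.gp 15 4 5 10 16 true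 true true), .t 1 (nat_lit 0) (.gp 15 4 5 12 18 false false false), .t 1 (nat_lit 0) (.gp 15 4 5 13 7 true false true), .t 1 (nat_lit 0) (.gp 15 4 5 17 8 true false true), .t 1 (nat_lit 0) (.gp 15 4 5 18 7 true false true), .t 1 (nat_lit 0) (.gp 15 4 5 19 7 true false true), .t 1 (nat_lit 0) (.gp 15 4 6 7 9 true true true), .t 1 (nat_lit 0) (.gp 15 4 6 8 11 true false true), .t 1 (nat_lit 0) (.gp 15 4 6 12 7 true false true), .t 1 (nat_lit 0) (.gp 15 4 6 13 7 true false true), .t 1 (nat_lit 0) (.gp 15 4 6 16 10 true false true), .t 1 (nat_lit 0) (.gp 15 4 6 19 7 true false true), .t 1 (nat_lit 0) (.gp 15 4 7 8 10 true false true), .t 1 (nat_lit 0) (.gp 15 4 7 10 19 true true false), .t 1 (nat_lit 0) (.gp 15 4 10 12 13 true false true), .t 1 (nat_lit 0) (.gp 15 4 10 14 16 true true true), .t 1 (nat_lit 0) (.gp 15 4 10 16 11 true false true), .t 1 (nat_lit 0) (.gp 15 4 10 16 17 true false false), .t 1 (nat_lit 0) (.gp 15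 4 10 17 14 false false true), .t 1 (nat_lit 0) (.gp 15 4 10 17 16 true false true), .t 1 (nat_lit 0) (.gp 15 4 12 16 14 true false true), .t 1 (nat_lit 0) (.gp 15 4 12 16 17 true false false), .t 1 (nat_lit 0) (.gp 15 4 12 16 17 true true false), .t 1 (nat_lit 0) (.gp 15 4 12 17 16 true false true), .t 1 (nat_lit 0) (.gp 15 4 12 19 14 true false true), .t 1 (nat_lit 0) (.gp 15 4 13 14 16 false true true), .t 1 (nat_lit 0) (.gp 15 4 13 16 17 true false false), .t 1 (nat_lit 0) (.gp 15 4 13 16 17 true true false), .t 1 (nat_lit 0) (.gp 15 4 13 17 16 true false true), .t 1 (nat_lit 0) (.gp 15 5 7 12 14 true false true), .t 1 (nat_lit 0) (.gp 15 5 7 13 14 true false true)] (by decide +kernel) (by decide +kernel)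
theorem b42 : B 2688 2752 := Blk.of_chk [.t 1 (nat_lit 0) (.gp 15 5 7 17 18 true true true), .t 1 (nat_lit 0) (.gp 15 5 8 13 14 true false true), .t 1 (nat_lit 0) (.gp 15 5 10 18 12 true true false), .t 1 (nat_lit 0) (.gp 15 5 12 13 14 true false true), .t 1 (nat_lit 0) (.gp 15 5 12 14 13 false true true), .t 1 (nat_lit 0) (.gp 15 6 7 13 14 true false true), .t 1 (nat_lit 0) (.gp 15 6 8 10 11 true false true), .t 1 (nat_lit 0) (.gp 15 6 8 13 11 true false true), .t 1 (nat_lit 0) (.gp 15 6 12 13 14 true false true), .t 1 (nat_lit 0) (.gp 15 6 12 14 13 false true true), .t 1 (nat_lit 0) (.gp 15 7 8 13 17 false true true), .t 1 (nat_lit 0) (.gp 15 7 9 10 11 true false true), .t 1 (nat_lit 0) (.gp 15 7 9 19 11 true false true), .t 1 (nat_lit 0) (.gp 15 7 10 13 16 true false true), .t 1 (nat_lit 0) (.gp 15 7 10 18 11 true false true), .t 1 (nat_lit 0) (.gp 15 7 13 19 14 true false true), .t 1 (nat_lit 0) (.gp 15 8 10 16 12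 true false true), .t 1 (nat_lit 0) (.gp 15 8 11 12 13 true false true), .t 1 (nat_lit 0) (.gp 15 8 12 13 14 true false true), .t 1 (nat_lit 0) (.gp 15 8 12 16 19 true true false), .t 1 (nat_lit 0) (.gp 15 9 10 12 14 true false true), .t 1 (nat_lit 0) (.gp 15 9 10 13 14 true false true), .t 1 (nat_lit 0) (.gp 15 9 10 18 13 true true false), .t 1 (nat_lit 0) (.gp 15 9 10 18 14 true false true), .t 1 (nat_lit 0) (.gp 15 9 11 17 18 true true false), .t 1 (nat_lit 0) (.gp 15 9 12 13 14 true false true), .t 1 (nat_lit 0) (.gp 15 9 12 14 13 false true true), .t 1 (nat_lit 0) (.gp 15 9 12 16 14 true false false), .t 1 (nat_lit 0) (.gp 15 9 12 16 14 true false true), .t 1 (nat_lit 0) (.gp 15 10 11 12 13 true false true), .t 1 (nat_lit 0) (.gp 15 10 11 12 14 true false false), .t 1 (nat_lit 0) (.gp 15 10 11 12 16 true true true), .t 1 (nat_lit 0) (.gp 15 10 11 13 16 true true true), .t 1 (nat_lit 0) (.gp 15 10 11 17 18 true true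 false), .t 1 (nat_lit 0) (.gp 15 10 11 17 18 true true true), .t 1 (nat_lit 0) (.gp 15 10 11 18 14 true false false), .t 1 (nat_lit 0) (.gp 15 10 11 18 19 true true false), .t 1 (nat_lit 0) (.gp 15 10 12 13 14 true false true), .t 1 (nat_lit 0) (.gp 15 10 12 13 16 true false false), .t 1 (nat_lit 0) (.gp 15 10 12 14 13 false true true), .t 1 (nat_lit 0) (.gp 15 10 12 14 16 true false true), .t 1 (nat_lit 0) (.gp 15 10 12 16 13 true true false), .t 1 (nat_lit 0) (.gp 15 10 12 16 14 true false false), .t 1 (nat_lit 0) (.gp 15 10 12 17 18 true true false), .t 1 (nat_lit 0) (.gp 15 10 12 19 16 false false true), .t 1 (nat_lit 0) (.gp 15 10 13 14 16 true false true), .t 1 (nat_lit 0) (.gp 15 10 13 16 14 false false true), .t 1 (nat_lit 0) (.gp 15 10 13 16 14 true false false), .t 1 (nat_lit 0) (.gp 15 10 13 19 16 false false true), .t 1 (nat_lit 0) (.gp 15 11 12 16 14 true false true), .t 1 (nat_lit 0) (.gp 15 11 12 16 17 true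 false true), .t 1 (nat_lit 0) (.gp 15 11 12 19 14 true false true), .t 1 (nat_lit 0) (.gp 15 11 13 16 14 true false true), .t 1 (nat_lit 0) (.gp 15 11 13 17 18 true true false), .t 1 (nat_lit 0) (.gp 15 12 13 14 16 false true true), .t 1 (nat_lit 0) (.gp 15 12 13 14 16 true true true), .t 1 (nat_lit 0) (.gp 15 12 13 14 17 true true true), .t 1 (nat_lit 0) (.gp 15 12 13 16 14 false false true), .t 1 (nat_lit 0) (.gp 15 12 13 16 14 true false true), .t 1 (nat_lit 0) (.gp 15 12 13 17 14 false false true), .t 1 (nat_lit 0) (.gp 15 12 14 16 17 true false false), .t 1 (nat_lit 0) (.gp 15 12 14 16 17 true false true), .t 1 (nat_lit 0) (.gp 15 12 14 16 18 true true false), .t 1 (nat_lit 0) (.gp 15 12 16 17 18 true false false)] (by decide +kernel) (by decide +kernel)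
theorem b43 : B 2752 2816 := Blk.of_chk [.t 1 (nat_lit 0) (.gp 15 13 16 19 17 false false false), .t 1 (nat_lit 0) (.gp 16 0 1 2 17 true true false), .t 1 (nat_lit 0) (.gp 16 0 1 6 19 true true true), .t 1 (nat_lit 0) (.gp 16 0 1 17 4 true false true), .t 1 (nat_lit 0) (.gp 16 0 2 12 10 true true true), .t 1 (nat_lit 0) (.gp 16 0 2 18 12 true true true), .t 1 (nat_lit 0) (.gp 16 0 4 10 15 true true true), .t 1 (nat_lit 0) (.gp 16 0 5 17 19 true false true), .t 1 (nat_lit 0) (.gp 16 0 6 17 19 true false true), .t 1 (nat_lit 0) (.gp 16 0 7 9 18 true true true), .t 1 (nat_lit 0) (.gp 16 0 9 17 11 true false true), .t 1 (nat_lit 0) (.gp 16 0 9 18 12 true true false), .t 1 (nat_lit 0) (.gp 16 0 10 17 11 true false true), .t 1 (nat_lit 0) (.gp 16 0 12 14 18 false true true), .t 1 (nat_lit 0) (.gp 16 1 2 7 6 false true true), .t 1 (nat_lit 0) (.gp 16 1 2 10 13 false true true), .t 1 (nat_lit 0) (.gp 16 1 2 11 8 false true true),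 .t 1 (nat_lit 0) (.gp 16 1 2 11 10 false true true), .t 1 (nat_lit 0) (.gp 16 1 3 17 4 true false true), .t 1 (nat_lit 0) (.gp 16 1 4 9 17 true true false), .t 1 (nat_lit 0) (.gp 16 1 7 12 10 true true false), .t 1 (nat_lit 0) (.gp 16 1 7 15 13 true true true), .t 1 (nat_lit 0) (.gp 16 1 7 17 11 true false true), .t 1 (nat_lit 0) (.gp 16 1 11 17 13 true false true), .t 1 (nat_lit 0) (.gp 16 1 12 19 14 true false true), .t 1 (nat_lit 0) (.gp 16 2 3 4 10 true true true), .t 1 (nat_lit 0) (.gp 16 2 12 17 13 true false true), .t 1 (nat_lit 0) (.gp 16 2 13 14 18 false true true), .t 1 (nat_lit 0) (.gp 16 3 7 9 13 true true true), .t 1 (nat_lit 0) (.gp 16 4 5 19 7 true false true), .t 1 (nat_lit 0) (.gp 16 4 6 7 9 true true true), .t 1 (nat_lit 0) (.gp 16 4 6 8 9 true false true), .t 1 (nat_lit 0) (.gp 16 4 6 8 11 true false true), .t 1 (nat_lit 0) (.gp 16 4 6 10 8 true false true), .t 1 (nat_lit 0) (.gp 16 4 6 12 7 true false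 true), .t 1 (nat_lit 0) (.gp 16 4 6 18 7 true false true), .t 1 (nat_lit 0) (.gp 16 4 6 19 7 true false true), .t 1 (nat_lit 0) (.gp 16 4 7 8 13 true true false), .t 1 (nat_lit 0) (.gp 16 4 9 11 12 true true true), .t 1 (nat_lit 0) (.gp 16 4 9 17 13 true false true), .t 1 (nat_lit 0) (.gp 16 4 9 19 12 false false true), .t 1 (nat_lit 0) (.gp 16 4 10 12 15 true true true), .t 1 (nat_lit 0) (.gp 16 4 10 12 17 false true false), .t 1 (nat_lit 0) (.gp 16 4 10 15 17 true false false), .t 1 (nat_lit 0) (.gp 16 4 10 17 15 true false true), .t 1 (nat_lit 0) (.gp 16 4 10 19 11 true false true), .t 1 (nat_lit 0) (.gp 16 4 12 15 17 true false false), .t 1 (nat_lit 0) (.gp 16 4 12 15 17 true true false), .t 1 (nat_lit 0) (.gp 16 4 12 17 15 true false true), .t 1 (nat_lit 0) (.gp 16 4 12 19 14 true false true), .t 1 (nat_lit 0) (.gp 16 4 13 15 14 false false true), .t 1 (nat_lit 0) (.gp 16 4 13 15 17 true false false), .t 1 (nat_lit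 0) (.gp 16 4 13 17 15 true false true), .t 1 (nat_lit 0) (.gp 16 5 6 8 7 false true true), .t 1 (nat_lit 0) (.gp 16 5 6 8 10 false true false), .t 1 (nat_lit 0) (.gp 16 5 7 12 14 true false true), .t 1 (nat_lit 0) (.gp 16 5 7 13 14 true false true), .t 1 (nat_lit 0) (.gp 16 5 8 13 14 true false true), .t 1 (nat_lit 0) (.gp 16 5 10 14 11 false false true), .t 1 (nat_lit 0) (.gp 16 5 12 13 14 true false true), .t 1 (nat_lit 0) (.gp 16 5 12 14 13 false true true), .t 1 (nat_lit 0) (.gp 16 6 7 13 14 true false true), .t 1 (nat_lit 0) (.gp 16 6 9 18 19 true false false), .t 1 (nat_lit 0) (.gp 16 6 12 13 14 true false true)] (by decide +kernel) (by decide +kernel)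
theorem b44 : B 2816 2880 := Blk.of_chk [.t 1 (nat_lit 0) (.gp 16 6 12 14 13 false true true), .t 1 (nat_lit 0) (.gp 16 6 12 14 18 false true true), .t 1 (nat_lit 0) (.gp 16 7 9 13 11 true false true), .t 1 (nat_lit 0) (.gp 16 7 10 14 12 false true true), .t 1 (nat_lit 0) (.gp 16 7 10 15 13 true false false), .t 1 (nat_lit 0) (.gp 16 7 10 18 11 true false true), .t 1 (nat_lit 0) (.gp 16 7 12 14 13 false true true), .t 1 (nat_lit 0) (.gp 16 7 12 14 15 true true true), .t 1 (nat_lit 0) (.gp 16 7 13 14 15 true true true), .t 1 (nat_lit 0) (.gp 16 8 9 13 10 true false true), .t 1 (nat_lit 0) (.gp 16 8 11 12 13 true false true), .t 1 (nat_lit 0) (.gp 16 8 12 13 14 true false true), .t 1 (nat_lit 0) (.gp 16 9 10 15 17 true false true), .t 1 (nat_lit 0) (.gp 16 9 12 13 14 true false true), .t 1 (nat_lit 0) (.gp 16 9 12 14 13 false true true), .t 1 (nat_lit 0) (.gp 16 10 11 12 13 true false true), .t 1 (nat_lit 0) (.gp 16 10 11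 13 14 true false true), .t 1 (nat_lit 0) (.gp 16 10 11 15 17 true false true), .t 1 (nat_lit 0) (.gp 16 10 12 13 14 true false true), .t 1 (nat_lit 0) (.gp 16 10 12 14 13 false true true), .t 1 (nat_lit 0) (.gp 16 10 12 14 15 false true true), .t 1 (nat_lit 0) (.gp 16 10 12 14 15 true false true), .t 1 (nat_lit 0) (.gp 16 10 12 15 13 false false true), .t 1 (nat_lit 0) (.gp 16 10 12 15 14 false false true), .t 1 (nat_lit 0) (.gp 16 10 12 15 14 true false false), .t 1 (nat_lit 0) (.gp 16 10 12 15 14 true false true), .t 1 (nat_lit 0) (.gp 16 10 12 15 17 true true false), .t 1 (nat_lit 0) (.gp 16 10 12 19 15 false false true), .t 1 (nat_lit 0) (.gp 16 10 13 14 15 true false true), .t 1 (nat_lit 0) (.gp 16 10 13 15 14 true false false), .t 1 (nat_lit 0) (.gp 16 10 15 17 19 true false false), .t 1 (nat_lit 0) (.gp 16 11 12 17 18 true true false), .t 1 (nat_lit 0) (.gp 16 11 13 15 17 false false false), .t 1 (nat_lit 0) (.gp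 16 11 14 15 17 true false true), .t 1 (nat_lit 0) (.gp 16 12 13 15 14 false false true), .t 1 (nat_lit 0) (.gp 16 12 13 15 17 true false true), .t 1 (nat_lit 0) (.gp 16 12 14 15 19 true true false), .t 1 (nat_lit 0) (.gp 16 12 14 17 15 true false true), .t 1 (nat_lit 0) (.gp 16 12 15 18 17 false false true), .t 1 (nat_lit 0) (.gp 16 13 14 15 17 true false false), .t 1 (nat_lit 0) (.gp 17 0 1 3 4 true false true), .t 1 (nat_lit 0) (.gp 17 0 1 7 8 true true true), .t 1 (nat_lit 0) (.gp 17 0 1 12 14 true false true), .t 1 (nat_lit 0) (.gp 17 0 1 13 14 true false true), .t 1 (nat_lit 0) (.gp 17 0 2 7 8 true true true), .t 1 (nat_lit 0) (.gp 17 0 6 7 12 true true true), .t 1 (nat_lit 0) (.gp 17 0 7 9 10 true true true), .t 1 (nat_lit 0) (.gp 17 0 8 10 15 true true true), .t 1 (nat_lit 0) (.gp 17 0 14 18 15 true true false), .t 1 (nat_lit 0) (.gp 17 0 14 18 16 true true false), .t 1 (nat_lit 0) (.gp 17 1 2 11 9 false true true),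 .t 1 (nat_lit 0) (.gp 17 1 7 10 15 true true true), .t 1 (nat_lit 0) (.gp 17 1 7 10 16 true true true), .t 1 (nat_lit 0) (.gp 17 1 7 13 16 true true true), .t 1 (nat_lit 0) (.gp 17 1 7 16 15 true true true), .t 1 (nat_lit 0) (.gp 17 1 11 15 12 true true true), .t 1 (nat_lit 0) (.gp 17 1 12 13 16 true true true), .t 1 (nat_lit 0) (.gp 17 2 4 12 10 true true true), .t 1 (nat_lit 0) (.gp 17 2 7 16 10 true true true), .t 1 (nat_lit 0) (.gp 17 2 10 11 12 false true true), .t 1 (nat_lit 0) (.gp 17 3 4 8 11 true false true), .t 1 (nat_lit 0) (.gp 17 3 4 10 11 true false true), .t 1 (nat_lit 0) (.gp 17 3 4 11 14 true false true), .t 1 (nat_lit 0) (.gp 17 3 4 13 14 true false true)] (by decide +kernel) (by decide +kernel)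
theorem b45 : B 2880 2944 := Blk.of_chk [.t 1 (nat_lit 0) (.gp 17 3 11 16 12 true true true), .t 1 (nat_lit 0) (.gp 17 3 12 14 16 false true true), .t 1 (nat_lit 0) (.gp 17 3 13 16 15 true true true), .t 1 (nat_lit 0) (.gp 17 4 5 6 7 true false true), .t 1 (nat_lit 0) (.gp 17 4 5 8 12 false false true), .t 1 (nat_lit 0) (.gp 17 4 5 19 7 true false true), .t 1 (nat_lit 0) (.gp 17 4 6 12 14 true false true), .t 1 (nat_lit 0) (.gp 17 4 6 12 15 false true true), .t 1 (nat_lit 0) (.gp 17 4 6 14 12 false true true), .t 1 (nat_lit 0) (.gp 17 4 6 14 13 false true true), .t 1 (nat_lit 0) (.gp 17 4 6 14 15 false true true), .t 1 (nat_lit 0) (.gp 17 4 6 14 16 false true true), .t 1 (nat_lit 0) (.gp 17 4 6 19 7 true false true), .t 1 (nat_lit 0) (.gp 17 4 7 8 11 true false true), .t 1 (nat_lit 0) (.gp 17 4 7 9 11 true false true), .t 1 (nat_lit 0) (.gp 17 4 7 13 14 true false true), .t 1 (nat_lit 0) (.gp 17 4 7 15 8 true true true),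 .t 1 (nat_lit 0) (.gp 17 4 7 16 8 true true true), .t 1 (nat_lit 0) (.gp 17 4 7 19 14 true false true), .t 1 (nat_lit 0) (.gp 17 4 8 12 13 true false true), .t 1 (nat_lit 0) (.gp 17 4 8 14 15 false true true), .t 1 (nat_lit 0) (.gp 17 4 8 14 16 false true true), .t 1 (nat_lit 0) (.gp 17 4 8 19 11 true false true), .t 1 (nat_lit 0) (.gp 17 4 9 11 15 false true true), .t 1 (nat_lit 0) (.gp 17 4 9 12 14 true false true), .t 1 (nat_lit 0) (.gp 17 4 9 13 15 false false true), .t 1 (nat_lit 0) (.gp 17 4 9 13 16 false false true), .t 1 (nat_lit 0) (.gp 17 4 9 14 12 false true true), .t 1 (nat_lit 0) (.gp 17 4 9 18 11 true false true), .t 1 (nat_lit 0) (.gp 17 4 9 19 11 true false true), .t 1 (nat_lit 0) (.gp 17 4 10 11 15 false true true), .t 1 (nat_lit 0) (.gp 17 4 10 12 19 true true false), .t 1 (nat_lit 0) (.gp 17 4 10 13 12 false true true), .t 1 (nat_lit 0) (.gp 17 4 10 13 14 true false true), .t 1 (nat_lit 0) (.gp 17 4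 10 14 15 false true true), .t 1 (nat_lit 0) (.gp 17 4 12 14 16 false true true), .t 1 (nat_lit 0) (.gp 17 4 12 19 14 true false true), .t 1 (nat_lit 0) (.gp 17 4 14 15 18 true true false), .t 1 (nat_lit 0) (.gp 17 4 14 15 19 true true false), .t 1 (nat_lit 0) (.gp 17 4 14 16 18 true true false), .t 1 (nat_lit 0) (.gp 17 4 14 16 19 true true false), .t 1 (nat_lit 0) (.gp 17 5 7 15 14 true false true), .t 1 (nat_lit 0) (.gp 17 5 7 16 14 true false true), .t 1 (nat_lit 0) (.gp 17 5 9 14 19 false true true), .t 1 (nat_lit 0) (.gp 17 5 13 15 16 true true true), .t 1 (nat_lit 0) (.gp 17 6 7 10 8 true true true), .t 1 (nat_lit 0) (.gp 17 6 7 15 9 true true true), .t 1 (nat_lit 0) (.gp 17 6 7 15 14 true false true), .t 1 (nat_lit 0) (.gp 17 6 7 16 14 true false true), .t 1 (nat_lit 0) (.gp 17 6 11 18 13 true true false), .t 1 (nat_lit 0) (.gp 17 7 8 9 11 true false true), .t 1 (nat_lit 0) (.gp 17 7 8 10 11 true false true), .t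 1 (nat_lit 0) (.gp 17 7 8 12 14 true false true), .t 1 (nat_lit 0) (.gp 17 7 8 13 9 false false false), .t 1 (nat_lit 0) (.gp 17 7 8 13 14 true false true), .t 1 (nat_lit 0) (.gp 17 7 9 11 15 false true true), .t 1 (nat_lit 0) (.gp 17 7 9 12 14 true false true), .t 1 (nat_lit 0) (.gp 17 7 9 14 16 false true true), .t 1 (nat_lit 0) (.gp 17 7 9 18 15 true false false), .t 1 (nat_lit 0) (.gp 17 7 9 19 11 true false true), .t 1 (nat_lit 0) (.gp 17 7 10 11 13 false true true), .t 1 (nat_lit 0) (.gp 17 7 10 12 14 true false true), .t 1 (nat_lit 0) (.gp 17 7 10 12 15 false true true), .t 1 (nat_lit 0) (.gp 17 7 10 13 15 true false false)] (by decide +kernel) (by decide +kernel)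
theorem b46 : B 2944 3008 := Blk.of_chk [.t 1 (nat_lit 0) (.gp 17 7 10 14 15 false true true), .t 1 (nat_lit 0) (.gp 17 7 10 14 16 false true true), .t 1 (nat_lit 0) (.gp 17 7 10 16 13 true false true), .t 1 (nat_lit 0) (.gp 17 7 10 18 11 true false true), .t 1 (nat_lit 0) (.gp 17 7 10 19 11 true false true), .t 1 (nat_lit 0) (.gp 17 7 11 19 14 true false true), .t 1 (nat_lit 0) (.gp 17 7 12 13 14 true false true), .t 1 (nat_lit 0) (.gp 17 7 12 14 13 false true true), .t 1 (nat_lit 0) (.gp 17 7 12 14 15 false true true), .t 1 (nat_lit 0) (.gp 17 7 12 15 16 true false true), .t 1 (nat_lit 0) (.gp 17 7 12 16 18 false true false), .t 1 (nat_lit 0) (.gp 17 7 12 18 16 true false false), .t 1 (nat_lit 0) (.gp 17 7 12 19 14 true false true), .t 1 (nat_lit 0) (.gp 17 7 13 14 15 false true true), .t 1 (nat_lit 0) (.gp 17 7 13 14 16 false true true), .t 1 (nat_lit 0) (.gp 17 7 13 18 15 true false false), .t 1 (nat_lit 0) (.gp 17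 7 14 15 16 true true false), .t 1 (nat_lit 0) (.gp 17 9 10 11 12 false true true), .t 1 (nat_lit 0) (.gp 17 9 12 16 14 true false true), .t 1 (nat_lit 0) (.gp 17 9 13 14 19 false true true), .t 1 (nat_lit 0) (.gp 17 9 14 16 15 true true false), .t 1 (nat_lit 0) (.gp 17 9 14 19 15 true true false), .t 1 (nat_lit 0) (.gp 17 9 14 19 16 true true false), .t 1 (nat_lit 0) (.gp 17 9 15 18 16 true false false), .t 1 (nat_lit 0) (.gp 17 10 11 15 13 true true true), .t 1 (nat_lit 0) (.gp 17 10 11 19 15 true true false), .t 1 (nat_lit 0) (.gp 17 10 12 14 19 false true true), .t 1 (nat_lit 0) (.gp 17 10 12 16 14 true false true), .t 1 (nat_lit 0) (.gp 17 10 12 19 13 true false true), .t 1 (nat_lit 0) (.gp 17 10 13 14 15 false true true), .t 1 (nat_lit 0) (.gp 17 10 14 19 16 true true false), .t 1 (nat_lit 0) (.gp 17 11 12 14 13 false true true), .t 1 (nat_lit 0) (.gp 17 11 12 15 16 true false true), .t 1 (nat_lit 0) (.gp 17 11 12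 18 15 true false false), .t 1 (nat_lit 0) (.gp 17 11 14 16 15 true true false), .t 1 (nat_lit 0) (.gp 17 11 15 18 16 true false false), .t 1 (nat_lit 0) (.gp 17 12 13 14 16 false true true), .t 1 (nat_lit 0) (.gp 17 12 14 16 15 true true false), .t 1 (nat_lit 0) (.gp 17 12 14 19 15 true true false), .t 1 (nat_lit 0) (.gp 17 13 14 19 15 true true false), .t 1 (nat_lit 0) (.gp 17 13 14 19 16 true true false), .t 1 (nat_lit 0) (.gp 18 0 1 4 7 true false true), .t 1 (nat_lit 0) (.gp 18 0 1 12 10 true false true), .t 1 (nat_lit 0) (.gp 18 0 1 14 10 true false true), .t 1 (nat_lit 0) (.gp 18 0 1 19 3 true false true), .t 1 (nat_lit 0) (.gp 18 0 1 19 4 true false true), .t 1 (nat_lit 0) (.gp 18 0 1 19 7 true false true), .t 1 (nat_lit 0) (.gp 18 0 1 19 10 true false true), .t 1 (nat_lit 0) (.gp 18 0 1 19 11 true false true), .t 1 (nat_lit 0) (.gp 18 0 2 8 19 true true false), .t 1 (nat_lit 0) (.gp 18 0 2 10 15 true true false),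 .t 1 (nat_lit 0) (.gp 18 0 3 4 8 true true true), .t 1 (nat_lit 0) (.gp 18 0 3 19 9 true false true), .t 1 (nat_lit 0) (.gp 18 0 3 19 10 true false true), .t 1 (nat_lit 0) (.gp 18 0 4 15 8 true false true), .t 1 (nat_lit 0) (.gp 18 0 4 16 8 true false true), .t 1 (nat_lit 0) (.gp 18 0 5 10 19 true true false), .t 1 (nat_lit 0) (.gp 18 0 5 12 19 true false false), .t 1 (nat_lit 0) (.gp 18 0 5 13 12 true false false), .t 1 (nat_lit 0) (.gp 18 0 5 19 6 true false true), .t 1 (nat_lit 0) (.gp 18 0 5 19 15 true false false), .t 1 (nat_lit 0) (.gp 18 0 5 19 16 true false false), .t 1 (nat_lit 0) (.gp 18 0 6 13 14 true false false), .t 1 (nat_lit 0) (.gp 18 0 6 19 10 true false true)] (by decide +kernel) (by decide +kernel)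
theorem b47 : B 3008 3072 := Blk.of_chk [.t 1 (nat_lit 0) (.gp 18 0 6 19 17 true false false), .t 1 (nat_lit 0) (.gp 18 0 8 19 10 true false true), .t 1 (nat_lit 0) (.gp 18 0 9 12 14 true false false), .t 1 (nat_lit 0) (.gp 18 0 9 19 15 true false false), .t 1 (nat_lit 0) (.gp 18 0 9 19 16 true false false), .t 1 (nat_lit 0) (.gp 18 0 10 19 16 true false false), .t 1 (nat_lit 0) (.gp 18 0 12 17 14 false false true), .t 1 (nat_lit 0) (.gp 18 1 2 3 19 true true true), .t 1 (nat_lit 0) (.gp 18 1 6 7 12 true true true), .t 1 (nat_lit 0) (.gp 18 1 8 9 13 true true true), .t 1 (nat_lit 0) (.gp 18 1 8 10 9 false true true), .t 1 (nat_lit 0) (.gp 18 1 8 19 9 true true true), .t 1 (nat_lit 0) (.gp 18 1 9 11 13 true true true), .t 1 (nat_lit 0) (.gp 18 1 9 11 19 true true true), .t 1 (nat_lit 0) (.gp 18 1 9 12 13 false true true), .t 1 (nat_lit 0) (.gp 18 1 12 14 19 true true true), .t 1 (nat_lit 0) (.gp 18 1 13 14 19 true true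 true), .t 1 (nat_lit 0) (.gp 18 2 3 10 11 true false true), .t 1 (nat_lit 0) (.gp 18 2 3 12 14 true false true), .t 1 (nat_lit 0) (.gp 18 2 4 19 17 true false true), .t 1 (nat_lit 0) (.gp 18 2 8 9 19 false false false), .t 1 (nat_lit 0) (.gp 18 2 8 10 9 false true true), .t 1 (nat_lit 0) (.gp 18 2 9 11 14 true true true), .t 1 (nat_lit 0) (.gp 18 2 9 13 15 true true false), .t 1 (nat_lit 0) (.gp 18 2 10 15 12 false false false), .t 1 (nat_lit 0) (.gp 18 3 4 7 11 true false true), .t 1 (nat_lit 0) (.gp 18 3 4 10 11 true false true), .t 1 (nat_lit 0) (.gp 18 3 4 11 14 true false true), .t 1 (nat_lit 0) (.gp 18 3 4 12 14 true false true), .t 1 (nat_lit 0) (.gp 18 3 4 13 14 true false true), .t 1 (nat_lit 0) (.gp 18 3 4 14 19 true false true), .t 1 (nat_lit 0) (.gp 18 4 5 9 16 true true true), .t 1 (nat_lit 0) (.gp 18 4 6 7 12 true true true), .t 1 (nat_lit 0) (.gp 18 4 6 7 19 true true true), .t 1 (nat_lit 0) (.gp 18 4 6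 11 14 true false true), .t 1 (nat_lit 0) (.gp 18 4 7 10 11 true false true), .t 1 (nat_lit 0) (.gp 18 4 7 12 14 true false true), .t 1 (nat_lit 0) (.gp 18 4 7 13 14 true false true), .t 1 (nat_lit 0) (.gp 18 4 7 14 17 true false true), .t 1 (nat_lit 0) (.gp 18 4 8 10 9 false true true), .t 1 (nat_lit 0) (.gp 18 4 8 15 9 true true true), .t 1 (nat_lit 0) (.gp 18 4 9 10 12 true true true), .t 1 (nat_lit 0) (.gp 18 4 9 11 16 true true true), .t 1 (nat_lit 0) (.gp 18 4 10 11 16 true true true), .t 1 (nat_lit 0) (.gp 18 5 6 12 14 true false true), .t 1 (nat_lit 0) (.gp 18 6 7 19 15 true false true), .t 1 (nat_lit 0) (.gp 18 6 7 19 16 true false true), .t 1 (nat_lit 0) (.gp 18 6 8 11 19 true true true), .t 1 (nat_lit 0) (.gp 18 7 8 10 9 false true true), .t 1 (nat_lit 0) (.gp 18 7 8 19 9 true true true), .t 1 (nat_lit 0) (.gp 18 7 9 10 19 true true true), .t 1 (nat_lit 0) (.gp 18 7 10 11 14 true true true), .t 1 (nat_lit 0)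 (.gp 18 7 10 11 15 true true true), .t 1 (nat_lit 0) (.gp 18 7 10 11 16 true true true), .t 1 (nat_lit 0) (.gp 18 7 10 11 17 true true true), .t 1 (nat_lit 0) (.gp 18 7 11 12 14 true false true), .t 1 (nat_lit 0) (.gp 18 7 11 13 14 true false true), .t 1 (nat_lit 0) (.gp 18 7 11 14 17 true false true), .t 1 (nat_lit 0) (.gp 18 8 9 10 12 true true true), .t 1 (nat_lit 0) (.gp 18 8 9 10 19 true true true), .t 1 (nat_lit 0) (.gp 18 8 10 12 14 true false true), .t 1 (nat_lit 0) (.gp 18 8 10 13 14 true false true), .t 1 (nat_lit 0) (.gp 18 8 10 14 19 true false true), .t 1 (nat_lit 0) (.gp 18 8 11 12 19 true false true)] (by decide +kernel) (by decide +kernel)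
theorem b48 : B 3072 3136 := Blk.of_chk [.t 1 (nat_lit 0) (.gp 18 8 11 13 14 true false true), .t 1 (nat_lit 0) (.gp 18 9 10 11 19 true true true), .t 1 (nat_lit 0) (.gp 18 9 10 12 13 true false true), .t 1 (nat_lit 0) (.gp 18 9 10 12 14 true false true), .t 1 (nat_lit 0) (.gp 18 9 10 19 11 false false true), .t 1 (nat_lit 0) (.gp 18 9 10 19 15 true false true), .t 1 (nat_lit 0) (.gp 18 9 10 19 16 true false true), .t 1 (nat_lit 0) (.gp 18 9 10 19 17 true false true), .t 1 (nat_lit 0) (.gp 18 9 15 17 19 false true true), .t 1 (nat_lit 0) (.gp 18 10 11 12 14 true false true), .t 1 (nat_lit 0) (.gp 18 10 11 13 12 true false true), .t 1 (nat_lit 0) (.gp 18 10 11 13 14 true false true), .t 1 (nat_lit 0) (.gp 18 10 11 13 15 true false true), .t 1 (nat_lit 0) (.gp 18 10 11 19 15 true false true), .t 1 (nat_lit 0) (.gp 19 0 1 10 18 true true true), .t 1 (nat_lit 0) (.gp 19 0 1 13 8 true false true), .t 1 (nat_lit 0) (.gp 19 0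 1 17 12 true false false), .t 1 (nat_lit 0) (.gp 19 0 2 15 17 true true false), .t 1 (nat_lit 0) (.gp 19 0 2 16 17 true true false), .t 1 (nat_lit 0) (.gp 19 0 2 18 8 true true true), .t 1 (nat_lit 0) (.gp 19 0 4 15 8 true false true), .t 1 (nat_lit 0) (.gp 19 0 4 16 8 true false true), .t 1 (nat_lit 0) (.gp 19 0 5 10 18 true true true), .t 1 (nat_lit 0) (.gp 19 0 5 15 18 true false true), .t 1 (nat_lit 0) (.gp 19 0 5 16 18 true false true), .t 1 (nat_lit 0) (.gp 19 0 5 17 18 true false true), .t 1 (nat_lit 0) (.gp 19 0 6 17 18 true false true), .t 1 (nat_lit 0) (.gp 19 0 9 10 18 true true true), .t 1 (nat_lit 0) (.gp 19 0 9 15 18 true false true), .t 1 (nat_lit 0) (.gp 19 0 9 16 18 true false true), .t 1 (nat_lit 0) (.gp 19 0 10 17 18 true false true), .t 1 (nat_lit 0) (.gp 19 1 2 7 5 false true true), .t 1 (nat_lit 0) (.gp 19 1 2 7 6 false true true), .t 1 (nat_lit 0) (.gp 19 1 2 17 10 false false false), .t 1 (nat_lit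 0) (.gp 19 1 2 18 5 false false true), .t 1 (nat_lit 0) (.gp 19 1 2 18 6 false false true), .t 1 (nat_lit 0) (.gp 19 1 3 7 14 true false true), .t 1 (nat_lit 0) (.gp 19 1 4 11 14 true false true), .t 1 (nat_lit 0) (.gp 19 1 7 17 12 true false true), .t 1 (nat_lit 0) (.gp 19 1 12 15 18 true true false), .t 1 (nat_lit 0) (.gp 19 2 4 7 11 true false true), .t 1 (nat_lit 0) (.gp 19 2 4 15 18 true true true), .t 1 (nat_lit 0) (.gp 19 2 4 16 18 true true true), .t 1 (nat_lit 0) (.gp 19 2 4 17 18 true true true), .t 1 (nat_lit 0) (.gp 19 2 9 11 12 false true true), .t 1 (nat_lit 0) (.gp 19 3 4 7 14 true false true), .t 1 (nat_lit 0) (.gp 19 3 4 18 14 true false false), .t 1 (nat_lit 0) (.gp 19 3 6 9 17 true false false), .t 1 (nat_lit 0) (.gp 19 4 6 16 17 true true true), .t 1 (nat_lit 0) (.gp 19 4 7 11 14 true false true), .t 1 (nat_lit 0) (.gp 19 4 7 13 14 true false true), .t 1 (nat_lit 0) (.gp 19 4 7 14 17 true false true),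 .t 1 (nat_lit 0) (.gp 19 4 9 11 15 true true true), .t 1 (nat_lit 0) (.gp 19 4 9 11 16 true true true), .t 1 (nat_lit 0) (.gp 19 4 10 11 17 true true true), .t 1 (nat_lit 0) (.gp 19 4 12 13 15 true true true), .t 1 (nat_lit 0) (.gp 19 4 12 17 18 true true false), .t 1 (nat_lit 0) (.gp 19 5 12 15 16 true false false), .t 1 (nat_lit 0) (.gp 19 5 12 18 15 false true false), .t 1 (nat_lit 0) (.gp 19 6 7 15 18 true true true), .t 1 (nat_lit 0) (.gp 19 6 7 16 18 true true true), .t 1 (nat_lit 0) (.gp 19 6 8 17 18 true true false), .t 1 (nat_lit 0) (.gp 19 6 13 17 18 true true false), .t 1 (nat_lit 0) (.gp 19 7 10 18 11 true false true)] (by decide +kernel) (by decide +kernel)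
theorem b49 : B 3136 3200 := Blk.of_chk [.t 1 (nat_lit 0) (.gp 19 7 11 14 17 true false true), .t 1 (nat_lit 0) (.gp 19 7 11 15 17 true false true), .t 1 (nat_lit 0) (.gp 19 7 11 16 17 true false true), .t 1 (nat_lit 0) (.gp 19 8 10 18 14 true false false), .t 1 (nat_lit 0) (.gp 19 9 13 18 15 false true false), .t 1 (nat_lit 0) (.gp 19 10 11 14 15 true false true), .t 1 (nat_lit 0) (.gp 19 10 11 15 17 true false true), .t 1 (nat_lit 0) (.gp 19 10 11 16 17 true false true), .t 1 (nat_lit 0) (.gp 19 11 12 14 17 true true true), .t 1 (nat_lit 0) (.gp 19 11 14 15 17 true false true), .t 1 (nat_lit 0) (.gp 19 11 14 16 17 true false true), .t 1 (nat_lit 0) (.gp 19 12 13 17 18 true true false), .t 1 (nat_lit 0) (.gp 19 12 14 16 17 true false true), .t 1 (nat_lit 0) (.gp 19 12 15 18 17 false false true), .t 1 (nat_lit 0) (.gp 19 13 15 18 17 false false true), .t 1 (nat_lit 0) (.gp 19 13 16 18 17 false false true), .t 1 (nat_lit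 0) (.gp 19 14 15 18 17 false false true), .t 1 (nat_lit 0) (.gp 19 14 16 18 17 false false true), .t 1 (nat_lit 0) (.row 0 1 2), .t 1 (nat_lit 0) (.row 0 1 3), .t 1 (nat_lit 0) (.row 0 1 4), .t 1 (nat_lit 0) (.row 0 1 5), .t 1 (nat_lit 0) (.row 0 1 6), .t 1 (nat_lit 0) (.row 0 1 7), .t 1 (nat_lit 0) (.row 0 1 8), .t 1 (nat_lit 0) (.row 0 1 9), .t 1 (nat_lit 0) (.row 0 1 10), .t 1 (nat_lit 0) (.row 0 1 11), .t 1 (nat_lit 0) (.row 0 1 12), .t 1 (nat_lit 0) (.row 0 1 13), .t 1 (nat_lit 0) (.row 0 1 14), .t 1 (nat_lit 0) (.row 0 1 15), .t 1 (nat_lit 0) (.row 0 1 16), .t 1 (nat_lit 0) (.row 0 1 17), .t 1 (nat_lit 0) (.row 0 1 18), .t 1 (nat_lit 0) (.row 0 1 19), .t 1 (nat_lit 0) (.row 1 4 2), .t 1 (nat_lit 0) (.row 1 4 3), .t 1 (nat_lit 0) (.row 1 4 5), .t 1 (nat_lit 0) (.row 1 4 6), .t 1 (nat_lit 0) (.row 1 4 7), .t 1 (nat_lit 0) (.row 1 4 8), .t 1 (nat_lit 0) (.row 1 4 9), .t 1 (nat_lit 0) (.row 1 4 10), .t 1 (nat_lit 0)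 (.row 1 4 11), .t 1 (nat_lit 0) (.row 1 4 12), .t 1 (nat_lit 0) (.row 1 4 13), .t 1 (nat_lit 0) (.row 1 4 14), .t 1 (nat_lit 0) (.row 1 4 15), .t 1 (nat_lit 0) (.row 1 4 16), .t 1 (nat_lit 0) (.row 1 4 17), .t 1 (nat_lit 0) (.row 1 4 18), .t 1 (nat_lit 0) (.row 1 4 19), .t 1 (nat_lit 0) (.row 4 7 0), .t 1 (nat_lit 0) (.row 4 7 2), .t 1 (nat_lit 0) (.row 4 7 3), .t 1 (nat_lit 0) (.row 4 7 5), .t 1 (nat_lit 0) (.row 4 7 6), .t 1 (nat_lit 0) (.row 4 7 8), .t 1 (nat_lit 0) (.row 4 7 9), .t 1 (nat_lit 0) (.row 4 7 10), .t 1 (nat_lit 0) (.row 4 7 11), .t 1 (nat_lit 0) (.row 4 7 12), .t 1 (nat_lit 0) (.row 4 7 13)] (by decide +kernel) (by decide +kernel)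
theorem b50 : B 3200 3264 := Blk.of_chk [.t 1 (nat_lit 0) (.row 4 7 14), .t 1 (nat_lit 0) (.row 4 7 15), .t 1 (nat_lit 0) (.row 4 7 16), .t 1 (nat_lit 0) (.row 4 7 17), .t 1 (nat_lit 0) (.row 4 7 18), .t 1 (nat_lit 0) (.row 4 7 19), .t 1 (nat_lit 0) (.row 7 11 0), .t 1 (nat_lit 0) (.row 7 11 1), .t 1 (nat_lit 0) (.row 7 11 2), .t 1 (nat_lit 0) (.row 7 11 3), .t 1 (nat_lit 0) (.row 7 11 5), .t 1 (nat_lit 0) (.row 7 11 6), .t 1 (nat_lit 0) (.row 7 11 8), .t 1 (nat_lit 0) (.row 7 11 9), .t 1 (nat_lit 0) (.row 7 11 10), .t 1 (nat_lit 0) (.row 7 11 12), .t 1 (nat_lit 0) (.row 7 11 13), .t 1 (nat_lit 0) (.row 7 11 14), .t 1 (nat_lit 0) (.row 7 11 15), .t 1 (nat_lit 0) (.row 7 11 16), .t 1 (nat_lit 0) (.row 7 11 17), .t 1 (nat_lit 0) (.row 7 11 18), .t 1 (nat_lit 0) (.row 7 11 19), .t 1 (nat_lit 0) (.row 11 14 0), .t 1 (nat_lit 0) (.row 11 14 1), .t 1 (nat_lit 0) (.row 11 14 2), .t 1 (nat_lit 0) (.row 11 14 3), .t 1 (nat_lit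 0) (.row 11 14 4), .t 1 (nat_lit 0) (.row 11 14 5), .t 1 (nat_lit 0) (.row 11 14 6), .t 1 (nat_lit 0) (.row 11 14 8), .t 1 (nat_lit 0) (.row 11 14 9), .t 1 (nat_lit 0) (.row 11 14 10), .t 1 (nat_lit 0) (.row 11 14 12), .t 1 (nat_lit 0) (.row 11 14 13), .t 1 (nat_lit 0) (.row 11 14 15), .t 1 (nat_lit 0) (.row 11 14 16), .t 1 (nat_lit 0) (.row 11 14 17), .t 1 (nat_lit 0) (.row 11 14 18), .t 1 (nat_lit 0) (.row 11 14 19), .t 1 (nat_lit 0) (.row 14 17 0), .t 1 (nat_lit 0) (.row 14 17 1), .t 1 (nat_lit 0) (.row 14 17 2), .t 1 (nat_lit 0) (.row 14 17 3), .t 1 (nat_lit 0) (.row 14 17 4), .t 1 (nat_lit 0) (.row 14 17 5), .t 1 (nat_lit 0) (.row 14 17 6), .t 1 (nat_lit 0) (.row 14 17 7), .t 1 (nat_lit 0) (.row 14 17 8), .t 1 (nat_lit 0) (.row 14 17 9), .t 1 (nat_lit 0) (.row 14 17 10), .t 1 (nat_lit 0) (.row 14 17 12), .t 1 (nat_lit 0) (.row 14 17 13), .t 1 (nat_lit 0) (.row 14 17 15), .t 1 (nat_lit 0) (.row 14 17 16), .t 1 (nat_lit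 0) (.row 14 17 18), .t 1 (nat_lit 0) (.row 14 17 19), .t 1 (nat_lit 0) (.row 0 2 3), .t 1 (nat_lit 0) (.row 0 2 4), .t 1 (nat_lit 0) (.row 0 2 5), .t 1 (nat_lit 0) (.row 0 2 6), .t 1 (nat_lit 0) (.row 0 2 7), .t 1 (nat_lit 0) (.row 0 2 8), .t 1 (nat_lit 0) (.row 0 2 9)] (by decide +kernel) (by decide +kernel)
theorem b51 : B 3264 3328 := Blk.of_chk [.t 1 (nat_lit 0) (.row 0 2 10), .t 1 (nat_lit 0) (.row 0 2 11), .t 1 (nat_lit 0) (.row 0 2 12), .t 1 (nat_lit 0) (.row 0 2 13), .t 1 (nat_lit 0) (.row 0 2 14), .t 1 (nat_lit 0) (.row 0 2 15), .t 1 (nat_lit 0) (.row 0 2 16), .t 1 (nat_lit 0) (.row 0 2 17), .t 1 (nat_lit 0) (.row 2 1 3), .t 1 (nat_lit 0) (.row 2 1 5), .t 1 (nat_lit 0) (.row 2 1 6), .t 1 (nat_lit 0) (.row 2 1 7), .t 1 (nat_lit 0) (.row 2 1 8), .t 1 (nat_lit 0) (.row 2 1 9), .t 1 (nat_lit 0) (.row 2 1 10), .t 1 (nat_lit 0) (.row 2 1 11), .t 1 (nat_lit 0) (.row 2 1 12), .t 1 (nat_lit 0) (.row 2 1 13), .t 1 (nat_lit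 0) (.row 2 1 14), .t 1 (nat_lit 0) (.row 2 1 15), .t 1 (nat_lit 0) (.row 2 1 16), .t 1 (nat_lit 0) (.row 2 1 17), .t 1 (nat_lit 0) (.row 1 3 5), .t 1 (nat_lit 0) (.row 1 3 6), .t 1 (nat_lit 0) (.row 1 3 7), .t 1 (nat_lit 0) (.row 1 3 8), .t 1 (nat_lit 0) (.row 1 3 9), .t 1 (nat_lit 0) (.row 1 3 10), .t 1 (nat_lit 0) (.row 1 3 11), .t 1 (nat_lit 0) (.row 1 3 12), .t 1 (nat_lit 0) (.row 1 3 13), .t 1 (nat_lit 0) (.row 1 3 14), .t 1 (nat_lit 0) (.row 1 3 15), .t 1 (nat_lit 0) (.row 1 3 16), .t 1 (nat_lit 0) (.row 1 3 17), .t 1 (nat_lit 0) (.row 3 4 0), .t 1 (nat_lit 0) (.row 3 4 2), .t 1 (nat_lit 0) (.row 3 4 5), .t 1 (nat_lit 0) (.row 3 4 6), .t 1 (nat_lit 0) (.row 3 4 8), .t 1 (nat_lit 0) (.row 3 4 9), .t 1 (nat_lit 0) (.row 3 4 10), .t 1 (nat_lit 0) (.row 3 4 11), .t 1 (nat_lit 0) (.row 3 4 12), .t 1 (nat_lit 0) (.row 3 4 13), .t 1 (nat_lit 0) (.row 3 4 14), .t 1 (nat_lit 0) (.row 3 4 15), .t 1 (nat_lit 0) (.row 3 4 16),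 .t 1 (nat_lit 0) (.row 3 4 17), .t 1 (nat_lit 0) (.row 0 3 5), .t 1 (nat_lit 0) (.row 0 3 6), .t 1 (nat_lit 0) (.row 0 3 7), .t 1 (nat_lit 0) (.row 0 3 8), .t 1 (nat_lit 0) (.row 0 3 9), .t 1 (nat_lit 0) (.row 0 3 10), .t 1 (nat_lit 0) (.row 0 3 11), .t 1 (nat_lit 0) (.row 0 4 5), .t 1 (nat_lit 0) (.row 0 4 6), .t 1 (nat_lit 0) (.row 0 4 8), .t 1 (nat_lit 0) (.row 0 4 9), .t 1 (nat_lit 0) (.row 0 4 10), .t 1 (nat_lit 0) (.row 0 4 11), .t 1 (nat_lit 0) (.row 0 5 6), .t 1 (nat_lit 0) (.row 0 5 7)] (by decide +kernel) (by decide +kernel)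
theorem b52 : B 3328 3392 := Blk.of_chk [.t 1 (nat_lit 0) (.row 0 5 8), .t 1 (nat_lit 0) (.row 0 5 9), .t 1 (nat_lit 0) (.row 0 5 10), .t 1 (nat_lit 0) (.row 0 5 11), .t 1 (nat_lit 0) (.row 0 6 7), .t 1 (nat_lit 0) (.row 0 6 8), .t 1 (nat_lit 0) (.row 0 6 9), .t 1 (nat_lit 0) (.row 0 6 10), .t 1 (nat_lit 0) (.row 0 6 11), .t 1 (nat_lit 0) (.row 0 7 8), .t 1 (nat_lit 0) (.row 0 7 9), .t 1 (nat_lit 0) (.row 0 7 10), .t 1 (nat_lit 0) (.row 0 8 9), .t 1 (nat_lit 0) (.row 0 8 10), .t 1 (nat_lit 0) (.row 0 8 11), .t 1 (nat_lit 0) (.row 0 9 10), .t 1 (nat_lit 0) (.row 0 9 11), .t 1 (nat_lit 0) (.row 0 10 11), .t 1 (nat_lit 0) (.row 0 11 12), .t 1 (nat_lit 0) (.row 0 11 13), .t 1 (nat_lit 0) (.row 0 11 15), .t 1 (nat_lit 0) (.row 0 11 16), .t 1 (nat_lit 0) (.row 0 11 17), .t 1 (nat_lit 0) (.row 14 1 7), .t 1 (nat_lit 0) (.row 14 1 12), .t 1 (nat_lit 0) (.row 14 1 13), .t 1 (nat_lit 0) (.row 1 14 15), .t 1 (nat_lit 0) (.row 1 14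 16), .t 1 (nat_lit 0) (.row 17 4 11), .t 1 (nat_lit 0) (.row 17 4 15), .t 1 (nat_lit 0) (.row 17 4 16), .t 1 (nat_lit 0) (.row 4 17 0), .t 1 (nat_lit 0) (.row 1 11 17), .t 1 (nat_lit 0) (.row 7 14 0), .t 1 (nat_lit 0) (.row 4 14 0), .t 1 (nat_lit 0) (.row 7 17 0), .t 1 (nat_lit 0) (.row 7 17 1), .t 1 (nat_lit 0) (.row 0 11 18), .t 1 (nat_lit 0) (.row 1 14 18), .t 1 (nat_lit 0) (.row 4 17 18), .t 1 (nat_lit 0) (.row 0 11 19), .t 1 (nat_lit 0) (.row 1 14 19), .t 1 (nat_lit 0) (.row 4 17 19), .t 1 (nat_lit 0) (.row 0 18 19), .t 1 (nat_lit 0) (.row 0 18 17), .t 1 (nat_lit 0) (.row 18 19 17), .t 1 (nat_lit 0) (.row 0 19 17), .t 1 (nat_lit 0) (.row 19 18 1), .t 1 (nat_lit 0) (.row 19 18 14), .r 89 (nat_lit 0x460038000c0bad00390baa009c037400d60062007900670c26006d003e0c320073006c00690c3407860040003f0072006f0c410b860b2b00420041007800750b5300c800c7004400430d300d2c0d2b0d2a0d290d270d260d220d190d170d130d120d100d0d0d0a0ce40cdd0cba0cb90cb40cb00cad0caa0ca90ca80ca60c980c970c950c860c850c840c7f0c760c750c740c690c660c640c630c620c5f0c5d0c5c0c5b0c5a0c590c580c550c540c53),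 .r 88 (nat_lit 0x380c53000c0bad00390baa009c037400d60062007900670c26006d003e0c320073006c00690c3407860040003f0072006f0c410b860b2b00420041007800750b5300c800c7004400430d300d2c0d2b0d2a0d290d270d260d220d190d170d130d120d100d0d0d0a0ce40cdd0cba0cb90cb40cb00cad0caa0ca90ca80ca60c980c970c950c860c850c840c7f0c760c750c740c690c660c640c630c620c5f0c5d0c5c0c5b0c5a0c590c580c550c54), .r 11 (nat_lit 0x4f0b290d230d200cf10ce40ce30ca90c730c62), .r 7 (nat_lit 0xb290d200cf10ce30c730c62), .r 51 (nat_lit 0x4d00520056005c00620067006d007300690786003f006f00580b2b0041003a0075005e00c70043003c0d340d240d230d220d190d170d130d120d100d0d0d0a0d050cff0cf90ce40cb40caa0ca90c980c620c5f0c5d0c5c0c5b0c5a0c590c580c570c56), .r 51 (nat_lit 0x4e00530057005d00630068006e00740069087a003f006f00580b2c0041003a0075005e00ca0043003c0d340d240d230d220d1a0d170d140d120d100d0d0d0a0d050cff0cf90ce40cb50caa0ca90c980c620c5f0c5e0c5c0c5b0c5a0c590c580c570c56), .r 44 (nat_lit 0x5000540059005f0064006a00700076003f0b310041003a0b660043003c0d350d2d0d280d240d200d1e0d170d150d120d100d0d0d0a0d050cff0cf90ce40cb80cb60cad0ca90c620c5c0c5b0c5a0c590c580c570c56),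 .r 44 (nat_lit 0x510055005a00600065006b00710077003f0b320041003a0b680043003c0d350d2d0d280d240d200d1f0d170d160d120d100d0d0d0a0d050cff0cf90ce40cb80cb70cad0ca90c620c5c0c5b0c5a0c590c580c570c56), .r 60 (nat_lit 0x390baa009c037400620067006d003e0073006c006907860040003f0072006f0b2b004200410078007500c800c7004400430d2c0d290d270d260d220d190d170d130d120d100d0d0d0a0ce40cb40caa0ca90c980c850c7f0c760c740c690c640c630c620c5f0c5d0c5c0c5b0c5a0c590c580c550c54), .r 33 (nat_lit 0xc0bad00d600790c260c320c340c410b860b530d3a0d300d2c0d2b0d2a0cdd0cb90cb00cad0ca80ca60c970c950c860c840c750c740c660c640c630c5c0c54), .r 48 (nat_lit 0x520056005c00620067006d007300690786003f006f00580b2b0041003a0075005e00c70043003c0d240d230d220d190d170d130d120d100d0d0d0a0d050cff0cf90cb40caa0ca90c980c620c5f0c5d0c5c0c5b0c5a0c590c580c570c56), .r 48 (nat_lit 0x530057005d00630068006e00740069087a003f006f00580b2c0041003a0075005e00ca0043003c0d240d230d220d1a0d170d140d120d100d0d0d0a0d050cff0cf90cb50caa0ca90c980c620c5f0c5e0c5c0c5b0c5a0c590c580c570c56),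 .r 41 (nat_lit 0x540059005f0064006a00700076003f0b310041003a0b660043003c0d2d0d280d240d200d1e0d170d150d120d100d0d0d0a0d050cff0cf90cb80cb60cad0ca90c620c5c0c5b0c5a0c590c580c570c56), .r 41 (nat_lit 0x55005a00600065006b00710077003f0b320041003a0b680043003c0d2d0d280d240d200d1f0d170d160d120d100d0d0d0a0d050cff0cf90cb80cb70cad0ca90c620c5c0c5b0c5a0c590c580c570c56), .r 56 (nat_lit 0xbaa009c037400620067006d003e0073006c006907860040003f0072006f0b2b004200410078007500c800c7004400430d2c0d290d270d260d220d190d170d130d120d100d0d0d0a0cb40caa0ca90c980c850c7f0c760c740c690c640c630c620c5f0c5d0c5c0c5b0c5a0c590c58)] (by decide +kernel) (by decide +kernel)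
theorem b53 : B 3392 3456 := Blk.of_chk [.r 8 (nat_lit 0xd0bae0d400d300d2c0c740c63), .r 14 (nat_lit 0x58003a005e003c0d240d220d050cff0ca90c620c580c570c56), .r 10 (nat_lit 0x3a003c0d240d050cff0c620c580c570c56), .r 43 (nat_lit 0x56005c00620067006d007300690786003f006f0b2b00410075005e00c70043003c0d420d240d220d190d170d130d120d100d0d0d0a0d050cff0cb40caa0ca90c980c620c5f0c5d0c5c0c5b0c5a0c590c580c57), .r 43 (nat_lit 0x57005d00630068006e00740069087a003f006f0b2c00410075005e00ca0043003c0d420d240d220d1a0d170d140d120d100d0d0d0a0d050cff0cb50caa0ca90c980c620c5f0c5e0c5c0c5b0c5a0c590c580c57), .r 37 (nat_lit 0x59005f0064006a00700076003f0b3100410b660043003c0d430d2d0d280d240d1e0d170d150d120d100d0d0d0a0d050cff0cb80cb60cad0ca90c620c5c0c5b0c5a0c590c580c57), .r 37 (nat_lit 0x5a00600065006b00710077003f0b3200410b680043003c0d430d2d0d280d240d1f0d170d160d120d100d0d0d0a0d050cff0cb80cb70cad0ca90c620c5c0c5b0c5a0c590c580c57), .r 64 (nat_lit 0x5b003b0061003d00180baf009c037400620067006d003e0073006c006907860040003f0072006f0b2b004200410078007500c800c7004400430d300d2c0d290d270d260d220d190d170d130d120d100d0d0d0a0d050cff0cb40caa0ca90c980c7f0c760c690c640c630c620c5f0c5d0c5c0c5b0c5a0c590c580c570c56),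 .r 62 (nat_lit 0x3b003d00180baf009c037400620067006d003e0073006c006907860040003f0072006f0b2b004200410078007500c800c7004400430d300d2c0d290d270d260d220d190d170d130d120d100d0d0d0a0d050cff0cb40caa0ca90c980c7f0c760c690c640c630c620c5f0c5d0c5c0c5b0c5a0c590c580c570c56), .r 10 (nat_lit 0x5e003c0d240d220d050ca90c620c580c57), .r 7 (nat_lit 0x3c0d240d050c620c580c57), .r 36 (nat_lit 0x5c00620067006d007300690786003f006f0b2b0041007500c700430d4a0d220d190d170d130d120d100d0d0d0a0d050cb40caa0ca90c980c620c5f0c5d0c5c0c5b0c5a0c59), .r 36 (nat_lit 0x5d00630068006e00740069087a003f006f0b2c0041007500ca00430d4a0d220d1a0d170d140d120d100d0d0d0a0d050cb50caa0ca90c980c620c5f0c5e0c5c0c5b0c5a0c59), .r 32 (nat_lit 0x5f0064006a00700076003f0b3100410b6600430d4b0d2d0d280d240d1e0d170d150d120d100d0d0d0a0d050cb80cb60cad0ca90c620c5c0c5b0c5a0c59), .r 32 (nat_lit 0x600065006b00710077003f0b3200410b6800430d4b0d2d0d280d240d1f0d170d160d120d100d0d0d0a0d050cb80cb70cad0ca90c620c5c0c5b0c5a0c59),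 .r 60 (nat_lit 0x61003d00180baf009c037400620067006d003e0073006c006907860040003f0072006f0b2b004200410078007500c800c7004400430d300d2c0d290d270d260d220d190d170d130d120d100d0d0d0a0d050cb40caa0ca90c980c7f0c760c690c640c630c620c5f0c5d0c5c0c5b0c5a0c590c580c57), .r 59 (nat_lit 0x3d00180baf009c037400620067006d003e0073006c006907860040003f0072006f0b2b004200410078007500c800c7004400430d300d2c0d290d270d260d220d190d170d130d120d100d0d0d0a0d050cb40caa0ca90c980c7f0c760c690c640c630c620c5f0c5d0c5c0c5b0c5a0c590c580c57), .r 33 (nat_lit 0x620067006d007300690786003f006f0b2b0041007500c700430d220d190d170d130d120d100d0d0d0a0cb40caa0ca90c980c620c5f0c5d0c5c0c5b0c5a0c59), .r 33 (nat_lit 0x630068006e00740069087a003f006f0b2c0041007500ca00430d220d1a0d170d140d120d100d0d0d0a0cb50caa0ca90c980c620c5f0c5e0c5c0c5b0c5a0c59), .r 29 (nat_lit 0x64006a00700076003f0b3100410b6600430d2d0d280d240d1e0d170d150d120d100d0d0d0a0cb80cb60cad0ca90c620c5c0c5b0c5a0c59), .r 29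 (nat_lit 0x65006b00710077003f0b3200410b6800430d2d0d280d240d1f0d170d160d120d100d0d0d0a0cb80cb70cad0ca90c620c5c0c5b0c5a0c59), .r 22 (nat_lit 0x3e006c004000720042007800440d2c0d290d260d120d100d0d0d0a0c640c630c5c0c5b0c5a0c590c58), .r 19 (nat_lit 0x180baf009c037400c80d560d520d300d2c0d270d190c7f0c760c690c630c5f0c5d0c58), .r 30 (nat_lit 0x67006d007300690786003f006f0b2b0041007500c700430d190d170d130d120d100d0d0cb40caa0ca90c980c620c5f0c5d0c5c0c5b0c5a0c59), .r 30 (nat_lit 0x68006e00740069087a003f006f0b2c0041007500ca00430d1a0d170d140d120d100d0d0cb50caa0ca90c980c620c5f0c5e0c5c0c5b0c5a0c59), .r 18 (nat_lit 0x69003f006f0041007500430d170d120d100d0d0ca90c980c620c5c0c5b0c5a0c59), .r 26 (nat_lit 0x6a00700076003f0b3100410b6600430d2d0d280d1e0d170d150d120d100d0d0cb80cb60cad0ca90c620c5c0c5b0c5a0c59), .r 26 (nat_lit 0x6b00710077003f0b3200410b6800430d2d0d280d1f0d170d160d120d100d0d0cb80cb70cad0ca90c620c5c0c5b0c5a0c59), .r 13 (nat_lit 0x3f004100430d170d120d100d0d0c620c5c0c5b0c5a0c59),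 .r 18 (nat_lit 0x6c004000720042007800440d2c0d290d260d120d100d0d0c640c5c0c5b0c5a0c59), .r 13 (nat_lit 0x40004200440d290d120d100d0d0c640c5c0c5b0c5a0c59), .r 25 (nat_lit 0x6d00730786006f0b2b0041007500c700430d190d170d130d120d100cb40caa0ca90c980c620c5f0c5d0c5c0c5b0c5a), .r 25 (nat_lit 0x6e0074087a006f0b2c0041007500ca00430d1a0d170d140d120d100cb50caa0ca90c980c620c5f0c5e0c5c0c5b0c5a), .r 14 (nat_lit 0x6f0041007500430d170d120d100ca90c980c620c5c0c5b0c5a), .r 22 (nat_lit 0x7000760b3100410b6600430d2d0d280d1e0d170d150d120d100cb80cb60cad0ca90c620c5c0c5b0c5a), .r 22 (nat_lit 0x7100770b3200410b6800430d2d0d280d1f0d170d160d120d100cb80cb70cad0ca90c620c5c0c5b0c5a), .r 10 (nat_lit 0x4100430d170d120d100c620c5c0c5b0c5a), .r 14 (nat_lit 0x720042007800440d2c0d290d260d120d100c640c5c0c5b0c5a), .r 10 (nat_lit 0x4200440d290d120d100c640c5c0c5b0c5a), .r 20 (nat_lit 0x7307860b2b007500c700430d190d170d130d120cb40caa0ca90c980c620c5f0c5d0c5c0c5b), .r 20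 (nat_lit 0x74087a0b2c007500ca00430d1a0d170d140d120cb50caa0ca90c980c620c5f0c5e0c5c0c5b), .r 10 (nat_lit 0x7500430d170d120ca90c980c620c5c0c5b), .r 18 (nat_lit 0x760b310b6600430d2d0d280d1e0d170d150d120cb80cb60cad0ca90c620c5c0c5b), .r 18 (nat_lit 0x770b320b6800430d2d0d280d1f0d170d160d120cb80cb70cad0ca90c620c5c0c5b), .r 7 (nat_lit 0x430d170d120c620c5c0c5b), .r 10 (nat_lit 0x7800440d2c0d290d260d120c640c5c0c5b), .r 7 (nat_lit 0x440d290d120c640c5c0c5b), .r 28 (nat_lit 0xd600790c260c320c340c410b860b530d300d2b0d2a0cdd0cb90cb00cad0ca80ca60c970c950c860c840c750c740c660c640c5c0c54), .r 24 (nat_lit 0x790c260c320c340c410b860b530d2b0d2a0cdd0cb90cb00cad0ca80ca60c970c950c860c840c750c640c5c0c54), .r 30 (nat_lit 0x108011e0a380b310b66037400c70d520d3e0d2d0d280d250d1e0d1b0d190cb80cb60cad0caa0ca90c7f0c760c710c690c620c600c5f0c5d0c58), .r 30 (nat_lit 0x109011f0ac40b320b68037400c70d520d3f0d2d0d280d250d1f0d1c0d190cb80cb70cad0caa0ca90c7f0c760c720c690c620c610c5f0c5d0c58),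 .r 14 (nat_lit 0x9c037400c80d520d270d190c7f0c760c690c630c5f0c5d0c58), .r 35 (nat_lit 0xc250c2e0c2f0c340c410b860bae0bad017c0b530d710d700d400d3b0d3a0d310d300d2c0d2b0d2a0ce40cb90cb00cad0ca80ca60c970c950c860c840c740c660c630c54), .r 36 (nat_lit 0x70e073f011b011e0a380b310b66071300c70d3e0d2d0d280d210d1e0d1b0d190d130d040cb80cb60cad0caa0ca90ca20c9d0c990c900c8b0c870c710c620c600c5f0c5d0c5c), .r 36 (nat_lit 0x70e073f011c011f0ac40b320b68071300c70d3f0d2d0d280d210d1f0d1c0d190d130d040cb80cb70cad0caa0ca90ca20c9d0c990c900c8b0c870c720c620c610c5f0c5d0c5c), .r 31 (nat_lit 0xc6011d0c260c320c340c410b860b5300c900c80d300d2b0d2a0d270d190cb90cb00cad0ca80ca60c970c950c860c840c750c640c630c5f0c5d0c5c), .r 19 (nat_lit 0xc260c320c340c410b860b530d2b0d2a0cb90cb00cad0ca80ca60c970c950c860c840c75), .r 22 (nat_lit 0x11e0a380b310b6600c70d3e0d2d0d280d1e0d1b0d190cb80cb60cad0caa0ca90c710c620c600c5f0c5d), .r 22 (nat_lit 0x11f0ac40b320b6800c70d3f0d2d0d280d1f0d1c0d190cb80cb70cad0caa0ca90c720c620c610c5f0c5d),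 .r 7 (nat_lit 0xc70d190caa0c620c5f0c5d), .r 7 (nat_lit 0xc80d270d190c630c5f0c5d), .r 7 (nat_lit 0xc90d2a0d190c640c5f0c5d), .r 22 (nat_lit 0x1200a380b310b6600ca0d3e0d2d0d280d1e0d1b0d1a0cb80cb60cad0caa0ca90c710c620c600c5f0c5e), .r 22 (nat_lit 0x1210ac40b320b6800ca0d3f0d2d0d280d1f0d1c0d1a0cb80cb70cad0caa0ca90c720c620c610c5f0c5e)] (by decide +kernel) (by decide +kernel)
theorem b54 : B 3456 3520 := Blk.of_chk [.r 7 (nat_lit 0xca0d1a0caa0c620c5f0c5e), .r 7 (nat_lit 0xcb0d270d1a0c630c5f0c5e), .r 7 (nat_lit 0xcc0d2a0d1a0c640c5f0c5e), .r 24 (nat_lit 0x151046e038b036d017603710d0a0cf50ce80ce50cda0cd90ccc0cc90cbe0cba0c7b0c780c770c760c690c580c54), .r 72 (nat_lit 0x1530159016203950746039601570c2e0c290c2f0c320c340c410b860bae0bad020a017c017b070701cc01cb01790b530d840d790d710d700d410d400d3b0d3a0d350d310d300d2c0d2b0d290d280d1d0cf10ce50ce40ce30cd00cc90cc20cbb0cba0cb90cb00cad0cab0ca80ca60c9a0c970c950c890c860c840c780c770c750c740c660c650c630c5c0c550c54),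 .r 7 (nat_lit 0x1790d350ce30cc90cba0c54), .r 32 (nat_lit 0x1570c290c320c340c410b86070701cc0b530d790d410d2b0d290cd00cc20cbb0cb90cb00cad0ca80ca60c970c950c890c860c840c770c750c650c5c0c55), .r 66 (nat_lit 0x1590162039503960c2e07460c290c2f0c320c340c410b860bae0bad020a017c017b070701cc01cb0b530d870d840d790d710d700d410d400d3b0d3a0d310d300d2c0d2b0d290d280d1d0cf10ce50ce40cd00cc20cbb0cb90cb00cad0cab0ca80ca60c9a0c970c950c890c860c840c780c770c750c740c660c650c630c5c0c550c54), .r 17 (nat_lit 0x20a017b01cb0d700d400d3a0d280cf10ce50ce40cbb0c740c660c650c550c54), .r 58 (nat_lit 0x162039503960c2e07460c290c2f0c320c340c410b860bae0bad017c070701cc0b530d870d840d790d710d700d410d400d3b0d3a0d310d300d2c0d2b0d290d1d0ce40cd00cc20cbb0cb90cb00cad0cab0ca80ca60c9a0c970c950c890c860c840c780c750c740c660c650c630c5c0c550c54), .r 51 (nat_lit 0x39503960c2e0c290c2f0c320c340c410b860bae0bad017c070701cc0b530d840d790d710d700d410d400d3b0d3a0d310d300d2c0d2b0d290ce40cd00cc20cbb0cb90cb00cad0ca80ca60c970c950c860c840c780c750c740c660c650c630c5c0c550c54),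 .r 25 (nat_lit 0x7460c320c340c410b8607070b530d870d790d2b0d290d1d0cd00cc20cb90cb00cad0ca80ca60c970c950c860c840c5c), .r 7 (nat_lit 0x1740cf20cd70cc90cba0c54), .r 7 (nat_lit 0x1750cf30cd80cc90cba0c54), .r 7 (nat_lit 0x1760cf50cda0cc90cba0c54), .r 7 (nat_lit 0x1770cf60cdb0cc90cba0c54), .r 7 (nat_lit 0x1780cf70cdc0cc90cba0c54), .r 29 (nat_lit 0x1520158077f0370078603740b2b0d8a0d880d850d7c0d520d190ce50cd10ccc0cc30cbe0cb40caa0ca90c7f0c770c760c690c620c5d0c58), .r 33 (nat_lit 0x154015a01630a350a380b310b6607040d8c0d8b0d890d860d760d3e0d2d0d280d1e0d150ce50cd40cd00cc60cc20cb80cb60cad0ca90c890c770c710c600c5c), .r 33 (nat_lit 0x1550d86015b01640ac20ac40b320b6807050d8c0d8b0d890d770d3f0d2d0d280d1f0d160ce50cd50cd00cc70cc20cb80cb70cad0ca90c890c770c720c610c5c), .r 7 (nat_lit 0x17a0d700d3a0cc90cba0c54), .r 7 (nat_lit 0x17b0d700d3a0ce40c660c54), .r 7 (nat_lit 0x17c0d710d3b0ce40c660c54), .r 63 (nat_lit 0x1c201c3039601c70c2e0a460c2f0a380c340b310c410b860bae0bad0b660b3f097c0b5309840d970d700d400d3e0d3a0d310d300d2d0d2c0d2b0d280d1e0d1d0d1b0cf10cef0cee0ce10ce00cb90cb80cb60cb00cad0cac0ca90ca80ca60ca40c9c0c9b0c990c970c950c8a0c860c840c780c740c710c700c630c60),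 .r 30 (nat_lit 0x3960c2e0c2f0c340c410b860bae0bad0b530d970d700d400d3a0d310d300d2c0d2b0cb90cb00cad0ca80ca60c970c950c860c840c780c740c63), .r 7 (nat_lit 0xb3f0d1d0cf10cad0cac0ca6), .r 7 (nat_lit 0x1c80cf90cbb0c670c650c55), .r 7 (nat_lit 0x1c90cfa0cbb0c680c650c55), .r 16 (nat_lit 0x46e038b036d03710d8f0d0a0ce80cd90ccc0cbe0c7b0c780c760c690c58), .r 16 (nat_lit 0x57d038e036e03720d900d0b0ce90cd90ccc0cbe0c7c0c780c760c690c58), .r 16 (nat_lit 0x65f038f036f03730d910d0c0cea0cd90ccc0cbe0c7d0c780c760c690c58), .r 26 (nat_lit 0x158077f0370078603740b2b0d8a0d880d7c0d520d190cd10ccc0cc30cbe0cb40caa0ca90c7f0c770c760c690c620c5d0c58), .r 7 (nat_lit 0x1ca0d3d0cbb0c6f0c650c55), .r 30 (nat_lit 0x15a01630a350a380b310b6607040d8c0d8b0d890d760d3e0d2d0d280d1e0d150cd40cd00cc60cc20cb80cb60cad0ca90c890c770c710c600c5c), .r 30 (nat_lit 0x15b01640ac20ac40b320b6807050d8c0d8b0d890d770d3f0d2d0d280d1f0d160cd50cd00cc70cc20cb80cb70cad0ca90c890c770c720c610c5c), .r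 7 (nat_lit 0x1cb0d400cbb0c740c650c55), .r 7 (nat_lit 0x1cc0d410cbb0c750c650c55), .r 65 (nat_lit 0xbe3098f02e9023802310755035d0be70c32075b0bfa0c34002f03b60c410b8600200baf0bb1071e071d03850b530d780d740d560d4a0d300d2e0d2c0d2b0d290d280d270d260d180d090d050cfa0cb90cb80cb00caf0cad0ca80ca70ca60c9e0c9c0c970c960c950c8c0c870c860c850c840c810c7e0c7a0c760c680c630c57), .r 16 (nat_lit 0xc320c340c410b860b530d2b0cb90cb00cad0ca80ca60c970c950c860c84), .r 29 (nat_lit 0xbe70bfa002f0b8600200baf0bb10b530d780d740d560d300d2e0d2c0d2b0d280d260cb90cb80cb00cad0ca70ca60c960c950c850c840c63), .r 15 (nat_lit 0xc340c410b860b530d2b0cb90cb00cad0ca80ca60c970c950c860c84), .r 7 (nat_lit 0x2060d280d1e0c740c730c71), .r 7 (nat_lit 0x2070d2b0d1e0c750c730c71), .r 7 (nat_lit 0x2080d280d1f0c740c730c72), .r 7 (nat_lit 0x2090d2b0d1f0c750c730c72), .r 35 (nat_lit 0x2dd075a002f03b10b860bb10717037d0b530d780d570d300d2e0d2c0d2b0d260d040d000cb90cb00cae0cad0ca60c9d0c970c960c950c8b0c870c860c840c790c760c63),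 .r 17 (nat_lit 0x3b1037d0b530d570d2b0d000cb90cb00cad0c970c950c8b0c860c840c790c76), .r 24 (nat_lit 0x75a002f0b860bb107170b530d780d300d2e0d2c0d2b0d260d040cb90cb00cad0ca60c960c950c8b0c870c840c63), .r 37 (nat_lit 0x35d075b002f03b60b8600200baf0bb1071d03850b530d780d740d560d300d2e0d2c0d2b0d260d090d050cb90cb00caf0cad0ca60c9e0c960c950c8c0c870c850c840c7a0c760c63), .r 24 (nat_lit 0x3b600200baf03850b530d740d560d300d2e0d2c0d2b0d050cb90cb00cad0c960c950c8c0c850c840c7a0c760c63), .r 24 (nat_lit 0x75b002f0b860bb1071d0b530d780d300d2e0d2c0d2b0d260d090cb90cb00cad0ca60c960c950c8c0c870c840c63), .r 27 (nat_lit 0x1630a350a380b310b6607040d8c0d8b0d760d3e0d2d0d280d1e0d150cd40cd00cc60cc20cb80cb60cad0ca90c890c710c600c5c), .r 27 (nat_lit 0x1640ac20ac40b320b6807050d8c0d8b0d770d3f0d2d0d280d1f0d160cd50cd00cc70cc20cb80cb70cad0ca90c890c720c610c5c), .r 12 (nat_lit 0xc2907070da70da50d790d290cd00cc20c970c860c5c), .r 7 (nat_lit 0x3710d0a0c7b0c760c690c58), .r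 7 (nat_lit 0x3720d0b0c7c0c760c690c58), .r 7 (nat_lit 0x3730d0c0c7d0c760c690c58), .r 7 (nat_lit 0x3740d520c7f0c760c690c58), .r 7 (nat_lit 0x3750d530c800c760c690c58), .r 7 (nat_lit 0x36d0db70d0a0ccc0cbe0c58), .r 7 (nat_lit 0x36e0db80d0b0ccc0cbe0c58), .r 7 (nat_lit 0x36f0db90d0c0ccc0cbe0c58), .r 7 (nat_lit 0x3700dba0d520ccc0cbe0c58), .r 7 (nat_lit 0x38b0db70cd90c7b0c780c69)] (by decide +kernel) (by decide +kernel)

end N22

end Pool.Agent.GCP.UN3
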