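import Pool.Agent.GCP.UN3e
import Pool.Agent.GCP.UN3f
import Pool.Agent.GCP.UN3g
import Pool.Agent.GCP.UN3h
import Pool.Agent.GCP.UN3i
import Pool.Agent.GCP.UN3j

set_option autoImplicit false
set_option maxRecDepth 100000

/-! # Certificates of three chords (generated, MP_062f91_co) -/

namespace Pool.Agent.GCP.UN3

open Pool.Agent.GCP DB

namespace N22

theorem all : B 0 4979 := (((((((((((((((((((((((((((((((((((((((((((((((((((((((((((((((((((((((((((((b0.trans b1).trans b2).trans b3).trans b4).trans b5).trans b6).trans b7).trans b8).trans b9).trans b10).trans b11).trans b12).trans b13).trans b14).trans b15).trans b16).trans b17).trans b18).trans b19).trans b20).trans b21).trans b22).trans b23).trans b24).trans b25).trans b26).trans b27).trans b28).trans b29).trans b30).trans b31).trans b32).trans b33).trans b34).trans b35).trans b36).trans b37).trans b38).trans b39).trans b40).trans b41).trans b42).trans b43).trans b44).trans b45).trans b46).trans b47).trans b48).trans b49).trans b50).trans b51).trans b52).trans b53).trans b54).trans b55).trans b56).trans b57).trans b58).trans b59).trans b60).trans b61).trans b62).trans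 b63).trans b64).trans b65).trans b66).trans b67).trans b68).trans b69).trans b70).trans b71).trans b72).trans b73).trans b74).trans b75).trans b76).trans b77)

theorem fin {P : ℕ → Pt} {X : Finset Pt} {K : ℕ} (hp : UPatch d P X)
    (hI : Irr X K [4, 5, 6, 7, 8, 9, 10, 11, 12, 13, 14] []) : False :=
  not_hold_empty _ (tgt_sound (is := [4978]) (cs := [(0, 0)]) (by decide +kernel)
    (all _ (Asg.zero _) (thu_sound hp G7.facts hI)
      (fun k hk => absurd hk (Nat.not_lt_zero k))) (0, 0) (by simp))

end N22

theorem N22.d_eq : N22.d = UDt.dN3 2 2 := by rfl

end Pool.Agent.GCP.UN3
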