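import Pool.Agent.GCP.WinSix

/-!
# Consecutive chords over four edges: at most two new points
-/

namespace Pool.Agent.GCP

namespace Geo

variable {X : Finset Pt} {h : ℕ} {p a c : ZMod h → Pt}

/-- At least nine common points of the sides with eleven points over five edges. -/
lemma MI5_nine (W : RingS0 X h p a c) (hh : 7 ≤ h) (hM : Sh X p) {K : ℕ}
    (hI : Irr X K t414 []) (i : ZMod h)
    (h5 : 11 ≤ nr X (p i) (p (i + ((5 : ℕ) : ZMod h)))) :
    9 ≤ (MI X (p i) (p (i + ((5 : ℕ) : ZMod h))) 11).card := by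
  have m0 := hM i
  have c45 : nr X (p (i + ((4 : ℕ) : ZMod h))) (p (i + ((5 : ℕ) : ZMod h))) = 0 := c1 W i 4
  obtain ⟨r1, P1, -, D1⟩ := two_line_k W i (k := 5) (N := 11) (N2 := 11) (by omega) (by omega)
    (by omega) (by omega) (by omega) (by omega) (j0 := 4) (by omega) (by omega) (by omega)
    (by omega)
  have k1 := D1.MI_card W (by omega) (by omega)
  have k2 := MI5_ge W hh hM i
  have r1le : r1 ≤ 2 := by
    by_contra hc
    exact no11 W hh hM hI D1 (by omega) (by omega)
  omega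

open scoped Classical in
theorem B_le (W : RingS0 X h p a c) (hh : 8 ≤ h) {K : ℕ} (hI : Irr X K t414 [])
    (hM : ∀ i : ZMod h, nr X (p i) (p (i + 4)) ≤ 10) (i : ZMod h) :
    (X.filter (fun z => orient (p (i + 1)) (p (i + 5)) z < 0 ∧
      ¬ orient (p i) (p (i + 4)) z < 0 ∧ z ≠ p (i + 4))).card ≤ 2 := by
  have hM' : Sh X p := by
    intro i
    simpa only [Nat.cast_ofNat] using hM i
  have e1 : i + ((1 : ℕ) : ZMod h) + ((4 : ℕ) : ZMod h) = i + ((5 : ℕ) : ZMod h) := by
    rw [← sh_add]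
  have m0 := all_ten W hh hM' hI i
  have m1 := all_ten W hh hM' hI (i + ((1 : ℕ) : ZMod h))
  rw [e1] at m1
  have h5 := five_ge W (by omega) i
  have k1 := MI5_nine W (by omega) hM' hI i (by omega)
  set B := X.filter (fun z => orient (p (i + 1)) (p (i + 5)) z < 0 ∧
      ¬ orient (p i) (p (i + 4)) z < 0 ∧ z ≠ p (i + 4)) with hB
  set Q := X.filter (fun z => orient (p (i + ((1 : ℕ) : ZMod h))) (p (i + ((5 : ℕ) : ZMod h))) z < 0)
    with hQ
  have hQc : Q.card = 10 := m1
  have hBQ : B ⊆ Q := by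
    intro z hz
    obtain ⟨z1, z2, z3, z4⟩ := Finset.mem_filter.1 hz
    rw [hQ, Finset.mem_filter, Nat.cast_one, Nat.cast_ofNat]
    exact ⟨z1, z2⟩
  have n01 : p (i + ((1 : ℕ) : ZMod h)) ≠ p i := by
    have := pne_gen W i (j := 0) (k := 1) (by omega) (by omega)
    rw [Nat.cast_zero, add_zero] at this
    exact this.symm
  have n04 : p (i + ((4 : ℕ) : ZMod h)) ≠ p i := by
    have := pne_gen W i (j := 0) (k := 4) (by omega) (by omega)
    rw [Nat.cast_zero, add_zero] at this
    exact this.symm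
  have n15 : p (i + ((1 : ℕ) : ZMod h)) ≠ p (i + ((5 : ℕ) : ZMod h)) :=
    pne_gen W i (by omega) (by omega)
  have hsub : MI X (p i) (p (i + ((5 : ℕ) : ZMod h))) 11 ⊆
      insert (p (i + ((1 : ℕ) : ZMod h))) (Q \ B) := by
    intro z hz
    obtain ⟨z1, z2, z3, z4, z5⟩ := mem_MI.1 hz
    rw [Finset.mem_insert, Finset.mem_sdiff]
    by_cases hz1 : z = p (i + ((1 : ℕ) : ZMod h))
    · exact Or.inl hz1
    right
    have hlt5 : nr X z (p (i + ((5 : ℕ) : ZMod h))) < 10 := by
      have : nr X z (p (i + ((5 : ℕ) : ZMod h))) ≠ 10 := by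
        intro he
        exact hz1 (rank_inj' W _ z1 (W.pX _) z3 n15 (by rw [he, m1]))
      omega
    constructor
    · rw [hQ, Finset.mem_filter]
      refine ⟨z1, ?_⟩
      by_contra hc
      have hne := orient_ne W.gp (W.pX (i + ((1 : ℕ) : ZMod h))) (W.pX (i + ((5 : ℕ) : ZMod h)))
        z1 n15 (Ne.symm z3) (Ne.symm hz1)
      have hpos := lt_of_le_of_ne (not_lt.1 hc) (Ne.symm hne)
      have := rank_lt' W (i + ((5 : ℕ) : ZMod h)) (z := z) (w := p (i + ((1 : ℕ) : ZMod h))) z1
        (W.pX _) (by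
          have e := orient_cyc (p (i + ((1 : ℕ) : ZMod h))) (p (i + ((5 : ℕ) : ZMod h))) z
          linarith)
      omega
    · intro hzB
      obtain ⟨-, b2, b3, b4⟩ := Finset.mem_filter.1 hzB
      have b4' : z ≠ p (i + ((4 : ℕ) : ZMod h)) := by rw [Nat.cast_ofNat]; exact b4
      have hlt0 : nr X (p i) z < 10 := by
        have : nr X (p i) z ≠ 10 := by
          intro he
          exact b4' (rank_inj W _ z1 (W.pX _) z2 n04 (by rw [he, m0]))
        omega
      apply b3
      have hne := orient_ne W.gp (W.pX i) (W.pX (i + ((4 : ℕ) : ZMod h))) z1 n04.symm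
        (Ne.symm b4') (Ne.symm z2)
      by_contra hc
      have hc' : 0 ≤ orient (p i) (p (i + ((4 : ℕ) : ZMod h))) z := by
        rw [Nat.cast_ofNat]; exact not_lt.1 hc
      have hpos := lt_of_le_of_ne hc' (Ne.symm hne)
      have := rank_lt W i (W.pX (i + ((4 : ℕ) : ZMod h))) z1 hpos
      omega
  have c1 := Finset.card_le_card hsub
  have c2 := Finset.card_insert_le (p (i + ((1 : ℕ) : ZMod h))) (Q \ B)
  rw [Finset.card_sdiff_of_subset hBQ] at c2
  have c3 := Finset.card_le_card hBQ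
  omega

end Geo

end Pool.Agent.GCP
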