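import Pool.Agent.GCP.NrTen
import Pool.Agent.GCP.GeoN3
import Pool.Agent.GCP.WinB
import Pool.Agent.GCP.UN0
import Pool.Agent.GCP.UN1
import Pool.Agent.GCP.UN2
import Pool.Agent.GCP.UN3

/-!
# No irreducible ring with at least twenty-seven points (MP_062f91_co)
-/

namespace Pool.Agent.GCP

namespace Geo

variable {X : Finset Pt} {h : ℕ} {p a c : ZMod h → Pt}

/-- The patches of three chords are impossible. -/
theorem no_dN3 {K : ℕ} (hI : Irr X K t414 []) {r s : ℕ} (hr : r ≤ 2) (hs : s ≤ 2) {P : ℕ → Pt}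
    (hp : UPatch (UDt.dN3 r s) P X) : False := by
  have hr' : r = 0 ∨ r = 1 ∨ r = 2 := by omega
  have hs' : s = 0 ∨ s = 1 ∨ s = 2 := by omega
  rcases hr' with rfl | rfl | rfl <;> rcases hs' with rfl | rfl | rfl
  · rw [← UN0.N00.d_eq] at hp; exact UN0.N00.fin hp hI
  · rw [← UN0.N01.d_eq] at hp; exact UN0.N01.fin hp hI
  · rw [← UN0.N02.d_eq] at hp; exact UN0.N02.fin hp hI
  · rw [← UN0.N10.d_eq] at hp; exact UN0.N10.fin hp hI
  · rw [← UN0.N11.d_eq] at hp; exact UN0.N11.fin hp hI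
  · rw [← UN1.N12.d_eq] at hp; exact UN1.N12.fin hp hI
  · rw [← UN0.N20.d_eq] at hp; exact UN0.N20.fin hp hI
  · rw [← UN2.N21.d_eq] at hp; exact UN2.N21.fin hp hI
  · rw [← UN3.N22.d_eq] at hp; exact UN3.N22.fin hp hI

theorem no_ring (W : RingS0 X h p a c) (hX : 27 ≤ X.card) {K : ℕ} (hI : Irr X K t414 [])
    (hM : ∀ i : ZMod h, nr X (p i) (p (i + 4)) ≤ 10) : False := by
  have hM' : Sh X p := by
    intro i
    simpa only [Nat.cast_ofNat] using hM i
  have hh : 9 ≤ h := h_ge W hX hM'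
  obtain ⟨h10, hN⟩ := no_R W (by omega) hI hM
  rcases three_chords W 0 (by omega) with ⟨o1, o2, hT, hin⟩ | hR
  · obtain ⟨r, s, hr, hs, P, hp⟩ := inst_N3 W (by omega) 0 h10 hT hin
      (B_le W (by omega) hI hM 0) (B_le W (by omega) hI hM (0 + 1))
    exact no_dN3 hI hr hs hp
  · exact hN 0 hR

end Geo

end Pool.Agent.GCP
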