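import Pool.Agent.GCP.WinSix
import Pool.Agent.GCP.WinB
import Pool.Agent.GCP.GeoN3

/-!
# Three chords: the final step for shallow rings (MP_062f91_co)
-/

namespace Pool.Agent.GCP

namespace Geo

variable {X : Finset Pt} {h : ℕ} {p a c : ZMod h → Pt}

/-- There is no ring with at most ten points beyond all chords `p i, p (i + 4)`, given the
certificates of the patches of three chords. -/
theorem no_shallow (W : RingS0 X h p a c) (hX : 27 ≤ X.card) {K : ℕ} (hI : Irr X K t414 [])
    (hM : ∀ i : ZMod h, nr X (p i) (p (i + 4)) ≤ 10)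
    (cert : ∀ r s, r ≤ 2 → s ≤ 2 → ∀ P, UPatch (UDt.dN3 r s) P X → False) : False := by
  have hM' : Sh X p := by
    intro i
    simpa only [Nat.cast_ofNat] using hM i
  have hh : 9 ≤ h := h_ge W hX hM'
  obtain ⟨h10, nR⟩ := no_R W (by omega) hI hM
  rcases three_chords W 0 (by omega) with ⟨o1, o2, hT, hin⟩ | hR
  · obtain ⟨r, s, hr, hs, P, hP⟩ := inst_N3 W (by omega) 0 h10 hT hin
      (B_le W (by omega) hI hM 0) (B_le W (by omega) hI hM (0 + 1))
    exact cert r s hr hs P hP
  · exact nR 0 hR

end Geo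

end Pool.Agent.GCP
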