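import Pool.Agent.GCP.Wedge

/-!
# No triple (MP_062f91_co)

In the ring structure three consecutive chords `p (i-1), p (i+2)` never have the same sixth
point: two 8-cuts would be partitionable into two convex polygons.
-/

namespace Pool.Agent.GCP

namespace NT

/-- signed orientation -/
def o (e : ℝ) (x y z : Pt) : ℝ := e * orient x y z

variable {e : ℝ}

lemma cy {x y z : Pt} (h : 0 < o e x y z) : 0 < o e y z x := by
  unfold o at h ⊢
  rw [orient_cyc]
  exact h

lemma neg_o {x y z : Pt} (h : 0 < o e x y z) : o e x z y < 0 := by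
  unfold o at h ⊢
  rw [orient_swap']
  linarith

lemma pos_o {x y z : Pt} (h : o e x y z < 0) : 0 < o e x z y := by
  unfold o at h ⊢
  rw [orient_swap']
  linarith

lemma o_left (x y : Pt) : o e x y x = 0 := by unfold o; simp

lemma o_right (x y : Pt) : o e x y y = 0 := by unfold o; simp

lemma o_neg (x y z : Pt) : o (-e) x y z = -o e x y z := by unfold o; ring

lemma gp (p b c d f : Pt) : o e p b d * o e p c f = o e p b c * o e p d f + o e p b f * o e p c d := by
  unfold o orient; ring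

lemma o_swap' (x y z : Pt) : o e x z y = -o e x y z := by
  unfold o
  rw [orient_swap']
  ring

lemma pos_of {x y : ℝ} (h : 0 < x * y) (hy : 0 < y) : 0 < x := (pos_iff_pos_of_mul_pos h).2 hy

lemma gp1 {p b c d f : Pt} (h1 : 0 < o e p b c) (h2 : 0 < o e p d f) (h3 : 0 < o e p b f)
    (h4 : 0 < o e p c d) (h5 : 0 < o e p c f) : 0 < o e p b d := by
  refine pos_of (y := o e p c f) ?_ h5
  rw [gp]
  have := mul_pos h1 h2
  have := mul_pos h3 h4
  linarith

lemma gp2 {p b c d f : Pt} (h1 : 0 < o e p b c) (h2 : 0 < o e p d f) (h3 : 0 < o e p f b)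
    (h4 : 0 < o e p d c) (h5 : 0 < o e p c f) : 0 < o e p b d := by
  refine pos_of (y := o e p c f) ?_ h5
  rw [gp, o_swap' p f b, o_swap' p d c]
  have := mul_pos h1 h2
  have := mul_pos h3 h4
  linarith

lemma gp3 {p b c d f : Pt} (h1 : 0 < o e p c b) (h2 : 0 < o e p f d) (h3 : 0 < o e p b f)
    (h4 : 0 < o e p c d) (h5 : 0 < o e p c f) : 0 < o e p b d := by
  refine pos_of (y := o e p c f) ?_ h5
  rw [gp, o_swap' p c b, o_swap' p f d]
  have := mul_pos h1 h2
  have := mul_pos h3 h4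
  linarith

lemma gp4 {p b c d f : Pt} (h1 : 0 < o e p c b) (h2 : 0 < o e p f d) (h3 : 0 < o e p f b)
    (h4 : 0 < o e p d c) (h5 : 0 < o e p c f) : 0 < o e p b d := by
  refine pos_of (y := o e p c f) ?_ h5
  rw [gp, o_swap' p c b, o_swap' p f d, o_swap' p f b, o_swap' p d c]
  have := mul_pos h1 h2
  have := mul_pos h3 h4
  linarith

lemma ext_e (he : e = 1 ∨ e = -1) {S : Set Pt} {x p q : Pt} (hx : x ∈ S) (h : o e p q x < 0)
    (hS : ∀ y ∈ S, y ≠ x → 0 ≤ o e p q y) : x ∈ (convexHull ℝ S).extremePoints ℝ := by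
  rcases he with rfl | rfl
  · refine extreme_of_side (p := p) (q := q) hx (by simpa [o] using h) ?_
    intro y hy hyx
    simpa [o] using hS y hy hyx
  · refine extreme_of_side (p := q) (q := p) hx ?_ ?_
    · rw [orient_swap]
      simpa [o] using h
    · intro y hy hyx
      rw [orient_swap]
      simpa [o] using hS y hy hyx

lemma disj_e (he : e = 1 ∨ e = -1) {A B : Set Pt} {a b : Pt} (hab : a ≠ b)
    (hA : ∀ x ∈ A, x ≠ a → 0 < o e a b x) (hB : ∀ x ∈ B, x ≠ b → o e a b x < 0) :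
    Disjoint (convexHull ℝ A) (convexHull ℝ B) := by
  rcases he with rfl | rfl
  · exact hull_disjoint hab (fun x hx h => by simpa [o] using hA x hx h)
      (fun x hx h => by simpa [o] using hB x hx h)
  · refine hull_disjoint' hab (fun x hx h => ?_) (fun x hx h => ?_)
    · have := hA x hx h
      unfold o at this
      linarith
    · have := hB x hx h
      unfold o at this
      linarith

/-- The core: nine named points. -/
lemma seven (he : e = 1 ∨ e = -1) {A a B b C d c z D : Pt}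
    (hbCd : 0 < o e b C d)
    (hAab : 0 < o e A a b)
    (hACd : 0 < o e A C d)
    (hAaC : 0 < o e A a C)
    (hAad : 0 < o e A a d)
    (hAbC : 0 < o e A b C)
    (hABc : 0 < o e A B c)
    (hACc : 0 < o e A C c)
    (hAac : 0 < o e A a c)
    (hBDc : 0 < o e B D c)
    (hADc : 0 < o e A c D)
    (hBbc : 0 < o e B b c)
    (hbdD : 0 < o e b d D)
    (hAbD : 0 < o e A b D)
    (hCdz : 0 < o e C d z)
    (hADz : 0 < o e A D z)
    (hAaz : 0 < o e A a z)
    (hAdD : 0 < o e A d D)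
    (hAaD : 0 < o e A a D)
    (haCd : 0 < o e a C d)
    (habC : 0 < o e a b C)
    (hCdc : 0 < o e C d c)
    (hdcz : 0 < o e d c z)
    (hBCc : 0 < o e B C c)
    (hABC : 0 < o e A B C)
    (haBC : 0 < o e a B C)
    (hbCc : 0 < o e b C c)
    (haDz : 0 < o e a D z)
    (hadD : 0 < o e a d D)
    (hBCz : 0 < o e B C z)
    (hACz : 0 < o e A C z)
    (haBz : 0 < o e a B z)
    (hDcz : 0 < o e D z c)
    (hBDz : 0 < o e B D z)
    (hABz : 0 < o e A B z)
    (hABd : 0 < o e A B d)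
    (hBCd : 0 < o e B C d)
    (hAaB : 0 < o e A B a)
    (hABb : 0 < o e A B b)
    (hAB : A ≠ B) :
    HCPle (({A, a, B, b, C, d, c, z} : Finset Pt) : Set Pt) 2 := by
  classical
  have hAbd : 0 < o e A b d := gp3 hAab hACd hAbC hAad hAaC
  have hAbc : 0 < o e A b c := gp3 hAab hACc hAbC hAac hAaC
  have hbDc : 0 < o e b D c :=
    cy (gp4 (cy (cy hAbc)) (cy (cy hBDc)) (cy (cy hBbc)) (cy hADc) (cy (cy hABc)))
  have hbdc : 0 < o e b d c := gp1 hbdD (cy hAbc) (cy hAbd) hbDc (cy hAbD)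
  have hAdz : 0 < o e A d z := gp3 hAad hADz hAdD hAaz hAaD
  have hbdz : 0 < o e b d z :=
    cy (cy (gp1 (cy hAdz) (cy (cy hbCd)) (cy hCdz) (cy (cy hAbd)) (cy (cy hACd))))
  have habd : 0 < o e a b d := gp1 habC (cy hAad) (cy hAab) haCd (cy hAaC)
  have hAdc : 0 < o e A d c := cy (cy (gp1 hdcz (cy (cy hACd)) (cy hCdc) (cy hAdz) (cy hCdz)))
  have hAcz : 0 < o e A c z := gp3 hAac hADz hADc hAaz hAaD
  have hCcz : 0 < o e C c z :=
    cy (cy (gp1 (cy hAcz) (cy (cy hCdc)) (cy hdcz) (cy (cy hACc)) (cy (cy hAdc))))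
  have haCc : 0 < o e a C c :=
    cy (cy (gp1 (cy hACc) (cy (cy haBC)) (cy hBCc) (cy (cy hAaC)) (cy (cy hABC))))
  have hadz : 0 < o e a d z := gp1 hadD (cy hAaz) (cy hAad) haDz (cy hAaD)
  have haCz : 0 < o e a C z :=
    cy (cy (gp1 (cy hACz) (cy (cy haBC)) (cy hBCz) (cy (cy hAaC)) (cy (cy hABC))))
  have hBdz : 0 < o e B d z :=
    cy (cy (gp1 (cy hAdz) (cy (cy hBCd)) (cy hCdz) (cy (cy hABd)) (cy (cy hACd))))
  have hBcz : 0 < o e B c z :=
    cy (gp3 (cy (cy hABz)) (cy (cy hdcz)) (cy (cy hBdz)) (cy (cy hAcz)) (cy (cy hAdz)))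
  have hacz : 0 < o e a c z :=
    cy (gp1 (cy (cy haBz)) (cy hDcz) (cy (cy haDz)) (cy (cy hBcz)) (cy (cy hBDz)))
  have habz : 0 < o e a b z := gp1 habC (cy hAaz) (cy hAab) haCz (cy hAaC)
  have hAbz : 0 < o e A b z := gp3 hAab hACz hAbC hAaz hAaC
  have hpoly : IsConvexPolygon ({C, d, c, z, A, a, b} : Finset Pt) := by
    intro x hx
    simp only [Finset.coe_insert, Finset.coe_singleton, Set.mem_insert_iff,
      Set.mem_singleton_iff] at hx
    rcases hx with hx | hx | hx | hx | hx | hx | hx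
    · rw [hx]
      refine ext_e he (p := b) (q := d) (by simp) ?_ ?_
      · exact neg_o hbCd
      · intro y hy hyx
        simp only [Finset.coe_insert, Finset.coe_singleton, Set.mem_insert_iff,
          Set.mem_singleton_iff] at hy
        rcases hy with h | h | h | h | h | h | h
        · exact absurd h hyx
        · rw [h]; exact (o_right _ _).ge
        · rw [h]; exact hbdc.le
        · rw [h]; exact hbdz.le
        · rw [h]; exact (cy hAbd).le
        · rw [h]; exact (cy habd).le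
        · rw [h]; exact (o_left _ _).ge
    · rw [hx]
      refine ext_e he (p := C) (q := c) (by simp) ?_ ?_
      · exact neg_o hCdc
      · intro y hy hyx
        simp only [Finset.coe_insert, Finset.coe_singleton, Set.mem_insert_iff,
          Set.mem_singleton_iff] at hy
        rcases hy with h | h | h | h | h | h | h
        · rw [h]; exact (o_left _ _).ge
        · exact absurd h hyx
        · rw [h]; exact (o_right _ _).ge
        · rw [h]; exact hCcz.le
        · rw [h]; exact (cy hACc).le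
        · rw [h]; exact (cy haCc).le
        · rw [h]; exact (cy hbCc).le
    · rw [hx]
      refine ext_e he (p := d) (q := z) (by simp) ?_ ?_
      · exact neg_o hdcz
      · intro y hy hyx
        simp only [Finset.coe_insert, Finset.coe_singleton, Set.mem_insert_iff,
          Set.mem_singleton_iff] at hy
        rcases hy with h | h | h | h | h | h | h
        · rw [h]; exact (cy hCdz).le
        · rw [h]; exact (o_left _ _).ge
        · exact absurd h hyx
        · rw [h]; exact (o_right _ _).ge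
        · rw [h]; exact (cy hAdz).le
        · rw [h]; exact (cy hadz).le
        · rw [h]; exact (cy hbdz).le
    · rw [hx]
      refine ext_e he (p := c) (q := A) (by simp) ?_ ?_
      · exact neg_o (cy hAcz)
      · intro y hy hyx
        simp only [Finset.coe_insert, Finset.coe_singleton, Set.mem_insert_iff,
          Set.mem_singleton_iff] at hy
        rcases hy with h | h | h | h | h | h | h
        · rw [h]; exact (cy (cy hACc)).le
        · rw [h]; exact (cy (cy hAdc)).le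
        · rw [h]; exact (o_left _ _).ge
        · exact absurd h hyx
        · rw [h]; exact (o_right _ _).ge
        · rw [h]; exact (cy (cy hAac)).le
        · rw [h]; exact (cy (cy hAbc)).le
    · rw [hx]
      refine ext_e he (p := z) (q := a) (by simp) ?_ ?_
      · exact neg_o (cy (cy hAaz))
      · intro y hy hyx
        simp only [Finset.coe_insert, Finset.coe_singleton, Set.mem_insert_iff,
          Set.mem_singleton_iff] at hy
        rcases hy with h | h | h | h | h | h | h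
        · rw [h]; exact (cy (cy haCz)).le
        · rw [h]; exact (cy (cy hadz)).le
        · rw [h]; exact (cy (cy hacz)).le
        · rw [h]; exact (o_left _ _).ge
        · exact absurd h hyx
        · rw [h]; exact (o_right _ _).ge
        · rw [h]; exact (cy (cy habz)).le
    · rw [hx]
      refine ext_e he (p := A) (q := b) (by simp) ?_ ?_
      · exact neg_o hAab
      · intro y hy hyx
        simp only [Finset.coe_insert, Finset.coe_singleton, Set.mem_insert_iff,
          Set.mem_singleton_iff] at hy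
        rcases hy with h | h | h | h | h | h | h
        · rw [h]; exact hAbC.le
        · rw [h]; exact hAbd.le
        · rw [h]; exact hAbc.le
        · rw [h]; exact hAbz.le
        · rw [h]; exact (o_left _ _).ge
        · exact absurd h hyx
        · rw [h]; exact (o_right _ _).ge
    · rw [hx]
      refine ext_e he (p := a) (q := C) (by simp) ?_ ?_
      · exact neg_o habC
      · intro y hy hyx
        simp only [Finset.coe_insert, Finset.coe_singleton, Set.mem_insert_iff,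
          Set.mem_singleton_iff] at hy
        rcases hy with h | h | h | h | h | h | h
        · rw [h]; exact (o_right _ _).ge
        · rw [h]; exact haCd.le
        · rw [h]; exact haCc.le
        · rw [h]; exact haCz.le
        · rw [h]; exact (cy hAaC).le
        · rw [h]; exact (o_left _ _).ge
        · exact absurd h hyx
  have hd : Disjoint (convexHull ℝ (({C, d, c, z, A, a, b} : Finset Pt) : Set Pt))
      (convexHull ℝ (({B} : Finset Pt) : Set Pt)) := by
    refine disj_e he hAB ?_ ?_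
    · intro x hx hxA
      simp only [Finset.coe_insert, Finset.coe_singleton, Set.mem_insert_iff,
        Set.mem_singleton_iff] at hx
      rcases hx with h | h | h | h | h | h | h
      · rw [h]; exact hABC
      · rw [h]; exact hABd
      · rw [h]; exact hABc
      · rw [h]; exact hABz
      · exact absurd h hxA
      · rw [h]; exact hAaB
      · rw [h]; exact hABb
    · intro x hx hxB
      simp only [Finset.coe_singleton, Set.mem_singleton_iff] at hx
      exact absurd hx hxB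
  have h1 : HCP (({C, d, c, z, A, a, b} : Finset Pt) : Set Pt) 1 :=
    HCP.single ⟨C, by simp⟩ hpoly
  have h2 : HCP (({B} : Finset Pt) : Set Pt) 1 := by
    refine HCP.single ⟨B, by simp⟩ ?_
    intro x hx
    rw [Finset.coe_singleton, Set.mem_singleton_iff] at hx
    subst hx
    simp
  refine ⟨2, le_refl _, ?_⟩
  have h3 := HCP.append h1 h2 hd
  convert h3 using 1
  ext x
  simp only [Finset.coe_insert, Finset.coe_singleton, Set.mem_union, Set.mem_insert_iff,
    Set.mem_singleton_iff]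
  tauto

lemma exists_first_e {C D : Pt} {S : Finset Pt} (hne : S.Nonempty)
    (hS : ∀ x ∈ S, 0 < o e C D x) : ∃ r ∈ S, ∀ w ∈ S, 0 ≤ o e D w r := by
  have heo : 0 < (C.1 - D.1) ^ 2 + (C.2 - D.2) ^ 2 := by
    obtain ⟨z, hz⟩ := hne
    have h := hS z hz
    by_contra h0
    have h1 : C.1 - D.1 = 0 := by nlinarith [sq_nonneg (C.1 - D.1), sq_nonneg (C.2 - D.2)]
    have h2 : C.2 - D.2 = 0 := by nlinarith [sq_nonneg (C.1 - D.1), sq_nonneg (C.2 - D.2)]
    have h3 : o e C D z = 0 := by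
      unfold o orient
      have h4 : D.1 - C.1 = 0 := by linarith
      have h5 : D.2 - C.2 = 0 := by linarith
      rw [h4, h5]
      ring
    linarith
  let F : Pt → ℝ := fun z => ((z.1 - D.1) * (C.1 - D.1) + (z.2 - D.2) * (C.2 - D.2)) / o e C D z
  obtain ⟨r, hr, hmax⟩ := S.exists_max_image F hne
  refine ⟨r, hr, ?_⟩
  intro w hw
  by_contra hlt
  push Not at hlt
  have h1 := hmax w hw
  have hw' := hS w hw
  have hr' := hS r hr
  simp only [F] at h1
  rw [div_le_div_iff₀ hw' hr'] at h1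
  have key : ((w.1 - D.1) * (C.1 - D.1) + (w.2 - D.2) * (C.2 - D.2)) * o e C D r -
      ((r.1 - D.1) * (C.1 - D.1) + (r.2 - D.2) * (C.2 - D.2)) * o e C D w =
      -(((C.1 - D.1) ^ 2 + (C.2 - D.2) ^ 2) * o e D w r) := by
    unfold o orient; ring
  have h2 := mul_neg_of_pos_of_neg heo hlt
  linarith

/-- One side: the first point `z` after `A` in the angular order at `D`. -/
lemma half (he : e = 1 ∨ e = -1) {X : Finset Pt} (hX : GeneralPosition X) (hn : 13 ≤ X.card)
    (K2 : ∀ S : Finset Pt, S ⊆ X → S.card = 8 →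
      Disjoint (convexHull ℝ (S : Set Pt)) (convexHull ℝ ((X \ S : Finset Pt) : Set Pt)) →
        ¬ HCPle (S : Set Pt) 2)
    {A a B b C d c D a1 p2 a2 p3 : Pt}
    (mA : A ∈ X) (ma : a ∈ X) (mB : B ∈ X) (mb : b ∈ X) (mC : C ∈ X) (md : d ∈ X) (mc : c ∈ X)
    (mD : D ∈ X) (mp3 : p3 ∈ X)
    (hnd : ([A, a, B, b, C, d, c, D, a1, p2, a2, p3] : List Pt).Nodup)
    (hAB : ∀ x ∈ X, x ≠ A → x ≠ B → 0 < o e A B x)
    (hBC : ∀ x ∈ X, x ≠ B → x ≠ C → 0 < o e B C x)
    (hCD : ∀ x ∈ X, x ≠ C → x ≠ D → 0 < o e C D x)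
    (hD2 : ∀ x ∈ X, x ≠ D → x ≠ p2 → 0 < o e D p2 x)
    (aA : ∀ x ∈ X, x ≠ A → x ≠ B → x ≠ a → 0 < o e A a x)
    (aB : ∀ x ∈ X, x ≠ A → x ≠ B → x ≠ a → o e B a x < 0)
    (bB : ∀ x ∈ X, x ≠ B → x ≠ C → x ≠ b → 0 < o e B b x)
    (bC : ∀ x ∈ X, x ≠ B → x ≠ C → x ≠ b → o e C b x < 0)
    (dC : ∀ x ∈ X, x ≠ C → x ≠ D → x ≠ d → 0 < o e C d x)
    (dD : ∀ x ∈ X, x ≠ C → x ≠ D → x ≠ d → o e D d x < 0)
    (eD : ∀ x ∈ X, x ≠ D → x ≠ p2 → x ≠ a1 → 0 < o e D a1 x)
    (sAC : ∀ x ∈ X, o e A C x < 0 ↔ x = a ∨ x = B ∨ x = b)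
    (sBD : ∀ x ∈ X, o e B D x < 0 ↔ x = b ∨ x = C ∨ x = d)
    (sD3 : ∀ x ∈ X, o e D p3 x < 0 ↔ x = a1 ∨ x = p2 ∨ x = a2)
    (sAD : ∀ x ∈ X, o e A D x < 0 ↔ x = B ∨ x = C ∨ x = a ∨ x = b ∨ x = d ∨ x = c) :
    ∃ z ∈ X, (z ≠ A ∧ z ≠ a ∧ z ≠ B ∧ z ≠ b ∧ z ≠ C ∧ z ≠ d ∧ z ≠ c ∧ z ≠ D) ∧
      (z ≠ a1 ∧ z ≠ p2 ∧ z ≠ a2 ∧ z ≠ p3) ∧
      (∀ x ∈ X, x ≠ A → x ≠ a → x ≠ B → x ≠ b → x ≠ C → x ≠ d → x ≠ c → x ≠ D → x ≠ z →
        0 < o e z D x) ∧ o e d c z < 0 := by
  classical
  simp only [List.nodup_cons, List.mem_cons, List.not_mem_nil, or_false, not_or,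
    List.nodup_nil, not_false_eq_true, and_true] at hnd
  obtain ⟨⟨nAa, nAB, nAb, nAC, nAd, nAc, nAD, nAa1, nAp2, nAa2, nAp3⟩,
    ⟨naB, nab, naC, nad, nac, naD, naa1, nap2, naa2, nap3⟩,
    ⟨nBb, nBC, nBd, nBc, nBD, nBa1, nBp2, nBa2, nBp3⟩,
    ⟨nbC, nbd, nbc, nbD, nba1, nbp2, nba2, nbp3⟩,
    ⟨nCd, nCc, nCD, nCa1, nCp2, nCa2, nCp3⟩,
    ⟨ndc, ndD, nda1, ndp2, nda2, ndp3⟩,
    ⟨ncD, nca1, ncp2, nca2, ncp3⟩,
    ⟨nDa1, nDp2, nDa2, nDp3⟩,
    ⟨na1p2, na1a2, na1p3⟩,
    ⟨np2a2, np2p3⟩,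
    na2p3⟩ := hnd
  have hne : ∀ x ∈ X, ∀ y ∈ X, ∀ w ∈ X, x ≠ y → y ≠ w → x ≠ w → o e x y w ≠ 0 := by
    intro x hx y hy w hw h1 h2 h3 h4
    have h5 := orient_ne hX hx hy hw h1 h2 h3
    unfold o at h4
    rcases he with rfl | rfl
    · exact h5 (by linarith)
    · exact h5 (by linarith)
  have farAC : ∀ x ∈ X, x ≠ A → x ≠ C → x ≠ a → x ≠ B → x ≠ b → 0 < o e A C x := by
    intro x hx h1 h2 h3 h4 h5
    rcases lt_or_gt_of_ne (hne A mA C mC x hx nAC (Ne.symm h2) (Ne.symm h1)) with h | h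
    · rcases (sAC x hx).1 h with h | h | h
      · exact absurd h h3
      · exact absurd h h4
      · exact absurd h h5
    · exact h
  have farBD : ∀ x ∈ X, x ≠ B → x ≠ D → x ≠ b → x ≠ C → x ≠ d → 0 < o e B D x := by
    intro x hx h1 h2 h3 h4 h5
    rcases lt_or_gt_of_ne (hne B mB D mD x hx nBD (Ne.symm h2) (Ne.symm h1)) with h | h
    · rcases (sBD x hx).1 h with h | h | h
      · exact absurd h h3
      · exact absurd h h4
      · exact absurd h h5
    · exact h
  have farAD : ∀ x ∈ X, x ≠ A → x ≠ D → x ≠ B → x ≠ C → x ≠ a → x ≠ b → x ≠ d → x ≠ c →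
      0 < o e A D x := by
    intro x hx h1 h2 h3 h4 h5 h6 h7 h8
    rcases lt_or_gt_of_ne (hne A mA D mD x hx nAD (Ne.symm h2) (Ne.symm h1)) with h | h
    · rcases (sAD x hx).1 h with h | h | h | h | h | h
      · exact absurd h h3
      · exact absurd h h4
      · exact absurd h h5
      · exact absurd h h6
      · exact absurd h h7
      · exact absurd h h8
    · exact h
  set S : Finset Pt := X.filter (fun x => x ≠ A ∧ x ≠ a ∧ x ≠ B ∧ x ≠ b ∧ x ≠ C ∧ x ≠ d ∧
    x ≠ c ∧ x ≠ D) with hS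
  have hSm : ∀ x, x ∈ S ↔ x ∈ X ∧ x ≠ A ∧ x ≠ a ∧ x ≠ B ∧ x ≠ b ∧ x ≠ C ∧ x ≠ d ∧
      x ≠ c ∧ x ≠ D := fun x => by rw [hS, Finset.mem_filter]
  have hS5 : 5 ≤ S.card := by
    have h1 : X ⊆ S ∪ {A, a, B, b, C, d, c, D} := by
      intro x hx
      rw [Finset.mem_union, hSm]
      by_cases h : x ∈ ({A, a, B, b, C, d, c, D} : Finset Pt)
      · exact Or.inr h
      · left
        simp only [Finset.mem_insert, Finset.mem_singleton, not_or] at h
        exact ⟨hx, h⟩
    have h2 := (Finset.card_le_card h1).trans (Finset.card_union_le _ _)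
    have h3 := Finset.card_insert_le A ({a, B, b, C, d, c, D} : Finset Pt)
    have h4 := Finset.card_insert_le a ({B, b, C, d, c, D} : Finset Pt)
    have h5 : ({B, b, C, d, c, D} : Finset Pt).card ≤ 6 := Finset.card_le_six
    omega
  obtain ⟨z, hzS, hz⟩ := exists_first_e (e := e) (C := C) (D := D) (S := S)
    (by rw [← Finset.card_pos]; omega) (by
      intro x hx
      obtain ⟨h1, -, -, -, -, h2, -, -, h3⟩ := (hSm x).1 hx
      exact hCD x h1 h2 h3)
  obtain ⟨mz, zA, za, zB, zb, zC, zd, zc, zD⟩ := (hSm z).1 hzS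
  have hi : ∀ x ∈ S, x ≠ z → 0 < o e z D x := by
    intro x hx hxz
    obtain ⟨h1, -, -, -, -, -, -, -, h3⟩ := (hSm x).1 hx
    have h2 := hne D mD x h1 z mz (Ne.symm h3) hxz (Ne.symm zD)
    have h4 := lt_of_le_of_ne (hz x hx) (Ne.symm h2)
    exact cy (cy h4)
  obtain ⟨x0, hx0, hx0'⟩ := Finset.exists_mem_notMem_of_card_lt_card
    (s := ({p3, a1, p2, a2} : Finset Pt)) (t := S)
    (lt_of_le_of_lt Finset.card_le_four (by omega))
  simp only [Finset.mem_insert, Finset.mem_singleton, not_or] at hx0'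
  obtain ⟨y1, y2, y3, y4⟩ := hx0'
  have x0X := ((hSm x0).1 hx0).1
  have x0D : x0 ≠ D := ((hSm x0).1 hx0).2.2.2.2.2.2.2.2
  have nx {x : Pt} (hx : 0 < o e D z x) (h : 0 < o e z D x) : False := by
    have h1 : o e z D x = -o e D z x := by unfold o; rw [orient_swap]; ring
    linarith
  have za1 : z ≠ a1 := by
    intro h
    exact nx (by rw [h]; exact eD x0 x0X x0D y3 y2) (hi x0 hx0 (by rw [h]; exact y2))
  have zp2 : z ≠ p2 := by
    intro h
    exact nx (by rw [h]; exact hD2 x0 x0X x0D y3) (hi x0 hx0 (by rw [h]; exact y3))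
  have zp3 : z ≠ p3 := by
    intro h
    have h1 := hi x0 hx0 (by rw [h]; exact y1)
    rw [h] at h1
    have h2 : o e p3 D x0 = -o e D p3 x0 := by unfold o; rw [orient_swap]; ring
    rcases (sD3 x0 x0X).1 (by linarith) with h3 | h3 | h3
    · exact y2 h3
    · exact y3 h3
    · exact y4 h3
  have hp3S : p3 ∈ S := (hSm p3).2 ⟨mp3, Ne.symm nAp3, Ne.symm nap3, Ne.symm nBp3, Ne.symm nbp3,
    Ne.symm nCp3, Ne.symm ndp3, Ne.symm ncp3, Ne.symm nDp3⟩
  have za2 : z ≠ a2 := by
    intro h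
    have h1 := hi p3 hp3S (Ne.symm zp3)
    have h2 : o e D p3 z < 0 := (sD3 z mz).2 (by rw [h]; simp)
    have h3 := cy h1
    linarith
  have hDz : ∀ x ∈ X, x ≠ C → x ≠ D → o e A D x < 0 → o e z D x < 0 := by
    intro x hx h1 h2 h3
    have h4 : 0 < o e D z A := cy (cy (cy (cy (farAD z mz zA zD zB zC za zb zd zc))))
    have h5 : 0 < o e D z x := gp1 (b := z) (c := A) (d := x) (f := C) h4
      (cy (hCD x hx h1 h2)) (cy (hCD z mz zC zD)) (cy (cy (pos_o h3)))
      (cy (hCD A mA nAC nAD))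
    have h6 : o e z D x = -o e D z x := by unfold o; rw [orient_swap]; ring
    linarith
  have sw {x : Pt} (hx : 0 < o e D z x) : o e z D x < 0 := by
    have h1 : o e z D x = -o e D z x := by unfold o; rw [orient_swap]; ring
    linarith
  have zDA : o e z D A < 0 := sw (cy (farAD z mz zA zD zB zC za zb zd zc))
  have zDC : o e z D C < 0 := sw (cy (hCD z mz zC zD))
  have zDB : o e z D B < 0 := hDz B mB nBC nBD ((sAD B mB).2 (by simp))
  have zDa : o e z D a < 0 := hDz a ma naC naD ((sAD a ma).2 (by simp))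
  have zDb : o e z D b < 0 := hDz b mb nbC nbD ((sAD b mb).2 (by simp))
  have zDd : o e z D d < 0 := hDz d md (Ne.symm nCd) ndD ((sAD d md).2 (by simp))
  have zDc : o e z D c < 0 := hDz c mc (Ne.symm nCc) ncD ((sAD c mc).2 (by simp))
  have hi' : ∀ x ∈ X, x ≠ A → x ≠ a → x ≠ B → x ≠ b → x ≠ C → x ≠ d → x ≠ c → x ≠ D →
      x ≠ z → 0 < o e z D x := fun x h1 h2 h3 h4 h5 h6 h7 h8 h9 h10 =>
    hi x ((hSm x).2 ⟨h1, h2, h3, h4, h5, h6, h7, h8, h9⟩) h10
  refine ⟨z, mz, ⟨zA, za, zB, zb, zC, zd, zc, zD⟩, ⟨za1, zp2, za2, zp3⟩, hi', ?_⟩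
  by_contra hcon
  push Not at hcon
  have hdcz : 0 < o e d c z :=
    lt_of_le_of_ne hcon (Ne.symm (hne d md c mc z mz ndc (Ne.symm zc) (Ne.symm zd)))
  have hHCP : HCPle (({A, a, B, b, C, d, c, z} : Finset Pt) : Set Pt) 2 := by
    have hbCd : 0 < o e b C d :=
      cy (cy (pos_o (bC d md (Ne.symm nBd) (Ne.symm nCd) (Ne.symm nbd))))
    have hAab : 0 < o e A a b := aA b mb (Ne.symm nAb) (Ne.symm nBb) (Ne.symm nab)
    have hACd : 0 < o e A C d := cy (cy (dC A mA nAC nAD nAd))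
    have hAaC : 0 < o e A a C := aA C mC (Ne.symm nAC) (Ne.symm nBC) (Ne.symm naC)
    have hAad : 0 < o e A a d := aA d md (Ne.symm nAd) (Ne.symm nBd) (Ne.symm nad)
    have hAbC : 0 < o e A b C := cy (pos_o (bC A mA nAB nAC nAb))
    have hABc : 0 < o e A B c := hAB c mc (Ne.symm nAc) (Ne.symm nBc)
    have hACc : 0 < o e A C c :=
      farAC c mc (Ne.symm nAc) (Ne.symm nCc) (Ne.symm nac) (Ne.symm nBc) (Ne.symm nbc)
    have hAac : 0 < o e A a c := aA c mc (Ne.symm nAc) (Ne.symm nBc) (Ne.symm nac)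
    have hBDc : 0 < o e B D c :=
      farBD c mc (Ne.symm nBc) ncD (Ne.symm nbc) (Ne.symm nCc) (Ne.symm ndc)
    have hADc : 0 < o e A c D := pos_o ((sAD c mc).2 (by simp))
    have hBbc : 0 < o e B b c := bB c mc (Ne.symm nBc) (Ne.symm nCc) (Ne.symm nbc)
    have hbdD : 0 < o e b d D := cy (pos_o (dD b mb nbC nbD nbd))
    have hAbD : 0 < o e A b D := pos_o ((sAD b mb).2 (by simp))
    have hCdz : 0 < o e C d z := dC z mz zC zD zd
    have hADz : 0 < o e A D z := farAD z mz zA zD zB zC za zb zd zc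
    have hAaz : 0 < o e A a z := aA z mz zA zB za
    have hAdD : 0 < o e A d D := cy (pos_o (dD A mA nAC nAD nAd))
    have hAaD : 0 < o e A a D := aA D mD (Ne.symm nAD) (Ne.symm nBD) (Ne.symm naD)
    have haCd : 0 < o e a C d := cy (cy (dC a ma naC naD nad))
    have habC : 0 < o e a b C := cy (pos_o (bC a ma naB naC nab))
    have hCdc : 0 < o e C d c := dC c mc (Ne.symm nCc) ncD (Ne.symm ndc)
    have hBCc : 0 < o e B C c := hBC c mc (Ne.symm nBc) (Ne.symm nCc)
    have hABC : 0 < o e A B C := hAB C mC (Ne.symm nAC) (Ne.symm nBC)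
    have haBC : 0 < o e a B C :=
      cy (cy (pos_o (aB C mC (Ne.symm nAC) (Ne.symm nBC) (Ne.symm naC))))
    have hbCc : 0 < o e b C c :=
      cy (cy (pos_o (bC c mc (Ne.symm nBc) (Ne.symm nCc) (Ne.symm nbc))))
    have haDz : 0 < o e a D z := cy (pos_o (zDa))
    have hadD : 0 < o e a d D := cy (pos_o (dD a ma naC naD nad))
    have hBCz : 0 < o e B C z := hBC z mz zB zC
    have hACz : 0 < o e A C z := farAC z mz zA zC za zB zb
    have haBz : 0 < o e a B z := cy (cy (pos_o (aB z mz zA zB za)))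
    have hDcz : 0 < o e D z c := cy (cy (pos_o (zDc)))
    have hBDz : 0 < o e B D z := farBD z mz zB zD zb zC zd
    have hABz : 0 < o e A B z := hAB z mz zA zB
    have hABd : 0 < o e A B d := hAB d md (Ne.symm nAd) (Ne.symm nBd)
    have hBCd : 0 < o e B C d := hBC d md (Ne.symm nBd) (Ne.symm nCd)
    have hAaB : 0 < o e A B a := hAB a ma (Ne.symm nAa) naB
    have hABb : 0 < o e A B b := hAB b mb (Ne.symm nAb) (Ne.symm nBb)
    exact seven he
      hbCd hAab hACd hAaC hAad hAbC hABc hACc hAac hBDc hADc hBbc hbdD hAbD hCdz hADz hAaz hAdD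
      hAaD haCd habC hCdc hdcz hBCc hABC haBC hbCc haDz hadD hBCz hACz haBz hDcz hBDz hABz hABd
      hBCd hAaB hABb nAB
  refine K2 _ ?_ ?_ ?_ hHCP
  · intro x hx
    simp only [Finset.mem_insert, Finset.mem_singleton] at hx
    rcases hx with h | h | h | h | h | h | h | h <;> rw [h] <;> assumption
  · rw [Finset.card_insert_of_notMem, Finset.card_insert_of_notMem, Finset.card_insert_of_notMem,
      Finset.card_insert_of_notMem, Finset.card_insert_of_notMem, Finset.card_insert_of_notMem,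
      Finset.card_insert_of_notMem, Finset.card_singleton]
    · simpa using Ne.symm zc
    · simp only [Finset.mem_insert, Finset.mem_singleton, not_or]
      exact ⟨ndc, Ne.symm zd⟩
    · simp only [Finset.mem_insert, Finset.mem_singleton, not_or]
      exact ⟨nCd, nCc, Ne.symm zC⟩
    · simp only [Finset.mem_insert, Finset.mem_singleton, not_or]
      exact ⟨nbC, nbd, nbc, Ne.symm zb⟩
    · simp only [Finset.mem_insert, Finset.mem_singleton, not_or]
      exact ⟨nBb, nBC, nBd, nBc, Ne.symm zB⟩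
    · simp only [Finset.mem_insert, Finset.mem_singleton, not_or]
      exact ⟨naB, nab, naC, nad, nac, Ne.symm za⟩
    · simp only [Finset.mem_insert, Finset.mem_singleton, not_or]
      exact ⟨nAa, nAB, nAb, nAC, nAd, nAc, Ne.symm zA⟩
  · have he' : -e = 1 ∨ -e = -1 := by
      rcases he with h | h
      · right; rw [h]
      · left; rw [h]; ring
    refine disj_e he' zD ?_ ?_
    · intro x hx hxz
      simp only [Finset.coe_insert, Finset.coe_singleton, Set.mem_insert_iff,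
        Set.mem_singleton_iff] at hx
      rw [o_neg]
      rcases hx with h | h | h | h | h | h | h | h
      · rw [h]; linarith
      · rw [h]; linarith
      · rw [h]; linarith
      · rw [h]; linarith
      · rw [h]; linarith
      · rw [h]; linarith
      · rw [h]; linarith
      · exact absurd h hxz
    · intro x hx hxD
      rw [Finset.mem_coe, Finset.mem_sdiff] at hx
      obtain ⟨h1, h2⟩ := hx
      simp only [Finset.mem_insert, Finset.mem_singleton, not_or] at h2
      obtain ⟨g1, g2, g3, g4, g5, g6, g7, g8⟩ := h2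
      rw [o_neg]
      have := hi' x h1 g1 g2 g3 g4 g5 g6 g7 hxD g8
      linarith

/-- The final contradiction. -/
lemma clash {C D d c z w : Pt} (h1 : 0 < o 1 C d c) (h2 : 0 < o 1 C D z) (h3 : 0 < o 1 C d z)
    (h4 : 0 < o 1 z D w) (h5 : 0 < o 1 C w z) (h6 : 0 < o 1 d D z) (h7 : 0 < o 1 C d w)
    (h8 : o 1 d c z < 0) (h9 : 0 < o 1 d c w) : False := by
  have k1 : 0 < o 1 d w z := cy (gp3 (cy (cy h3)) (cy (cy (cy h4))) (cy (cy h6)) (cy (cy h5))
    (cy (cy h2)))
  have key : -o 1 C d c * (-o 1 d w z) - (-o 1 C d z) * o 1 d c w +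
      (-o 1 C d w) * o 1 d c z = 0 := by
    unfold o orient; ring
  have m1 := mul_pos h1 k1
  have m2 := mul_pos h3 h9
  have m3 := mul_pos h7 (neg_pos.2 h8)
  linarith

/-- No triple, for named points. -/
theorem pts {X : Finset Pt} (hX : GeneralPosition X) (hn : 13 ≤ X.card)
    (K2 : ∀ S : Finset Pt, S ⊆ X → S.card = 8 →
      Disjoint (convexHull ℝ (S : Set Pt)) (convexHull ℝ ((X \ S : Finset Pt) : Set Pt)) →
        ¬ HCPle (S : Set Pt) 2)
    {q2 q1 p0 p1 p2 p3 b2 b1 a0 a1 a2 c : Pt}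
    (mq2 : q2 ∈ X) (mq1 : q1 ∈ X) (mp0 : p0 ∈ X) (mp1 : p1 ∈ X) (mp2 : p2 ∈ X) (mp3 : p3 ∈ X)
    (mb2 : b2 ∈ X) (mb1 : b1 ∈ X) (ma0 : a0 ∈ X) (ma1 : a1 ∈ X) (ma2 : a2 ∈ X) (mc : c ∈ X)
    (hnd : ([q2, b2, q1, b1, p0, a0, c, p1, a1, p2, a2, p3] : List Pt).Nodup)
    (e1 : ∀ x ∈ X, x ≠ q2 → x ≠ q1 → 0 < orient q2 q1 x)
    (e2 : ∀ x ∈ X, x ≠ q1 → x ≠ p0 → 0 < orient q1 p0 x)
    (e3 : ∀ x ∈ X, x ≠ p0 → x ≠ p1 → 0 < orient p0 p1 x)
    (e4 : ∀ x ∈ X, x ≠ p1 → x ≠ p2 → 0 < orient p1 p2 x)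
    (e5 : ∀ x ∈ X, x ≠ p2 → x ≠ p3 → 0 < orient p2 p3 x)
    (f1 : ∀ x ∈ X, x ≠ q2 → x ≠ q1 → x ≠ b2 → 0 < orient q2 b2 x)
    (f2 : ∀ x ∈ X, x ≠ q1 → x ≠ p0 → x ≠ b1 → 0 < orient q1 b1 x)
    (f3 : ∀ x ∈ X, x ≠ p0 → x ≠ p1 → x ≠ a0 → 0 < orient p0 a0 x)
    (f4 : ∀ x ∈ X, x ≠ p1 → x ≠ p2 → x ≠ a1 → 0 < orient p1 a1 x)
    (f5 : ∀ x ∈ X, x ≠ p2 → x ≠ p3 → x ≠ a2 → 0 < orient p2 a2 x)
    (g1 : ∀ x ∈ X, x ≠ q2 → x ≠ q1 → x ≠ b2 → orient q1 b2 x < 0)
    (g2 : ∀ x ∈ X, x ≠ q1 → x ≠ p0 → x ≠ b1 → orient p0 b1 x < 0)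
    (g3 : ∀ x ∈ X, x ≠ p0 → x ≠ p1 → x ≠ a0 → orient p1 a0 x < 0)
    (g4 : ∀ x ∈ X, x ≠ p1 → x ≠ p2 → x ≠ a1 → orient p2 a1 x < 0)
    (g5 : ∀ x ∈ X, x ≠ p2 → x ≠ p3 → x ≠ a2 → orient p3 a2 x < 0)
    (s1 : ∀ x ∈ X, orient q2 p0 x < 0 ↔ x = b2 ∨ x = q1 ∨ x = b1)
    (s2 : ∀ x ∈ X, orient q1 p1 x < 0 ↔ x = b1 ∨ x = p0 ∨ x = a0)
    (s3 : ∀ x ∈ X, orient p0 p2 x < 0 ↔ x = a0 ∨ x = p1 ∨ x = a1)
    (s4 : ∀ x ∈ X, orient p1 p3 x < 0 ↔ x = a1 ∨ x = p2 ∨ x = a2)
    (t1 : ∀ x ∈ X, orient q2 p1 x < 0 ↔ x = q1 ∨ x = p0 ∨ x = b2 ∨ x = b1 ∨ x = a0 ∨ x = c)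
    (t3 : ∀ x ∈ X, orient p0 p3 x < 0 ↔ x = p1 ∨ x = p2 ∨ x = a0 ∨ x = a1 ∨ x = a2 ∨ x = c) :
    False := by
  have o1 : ∀ x y w : Pt, o 1 x y w = orient x y w := fun x y w => by unfold o; ring
  have om : ∀ x y w : Pt, o (-1) x y w = orient y x w := fun x y w => by
    unfold o; rw [orient_swap y x w]; ring
  have om' : ∀ x y w : Pt, o (-1) x y w = -orient x y w := fun x y w => by
    unfold o; ring
  obtain ⟨z, mz, ⟨z1, z2, z3, z4, z5, z6, z7, z8⟩, ⟨z9, z10, z11, z12⟩, zi, zii⟩ :=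
    half (e := 1) (Or.inl rfl) hX hn K2 mq2 mb2 mq1 mb1 mp0 ma0 mc mp1 mp3 hnd
      (fun x h h1 h2 => by rw [o1]; exact e1 x h h1 h2)
      (fun x h h1 h2 => by rw [o1]; exact e2 x h h1 h2)
      (fun x h h1 h2 => by rw [o1]; exact e3 x h h1 h2)
      (fun x h h1 h2 => by rw [o1]; exact e4 x h h1 h2)
      (fun x h h1 h2 h3 => by rw [o1]; exact f1 x h h1 h2 h3)
      (fun x h h1 h2 h3 => by rw [o1]; exact g1 x h h1 h2 h3)
      (fun x h h1 h2 h3 => by rw [o1]; exact f2 x h h1 h2 h3)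
      (fun x h h1 h2 h3 => by rw [o1]; exact g2 x h h1 h2 h3)
      (fun x h h1 h2 h3 => by rw [o1]; exact f3 x h h1 h2 h3)
      (fun x h h1 h2 h3 => by rw [o1]; exact g3 x h h1 h2 h3)
      (fun x h h1 h2 h3 => by rw [o1]; exact f4 x h h1 h2 h3)
      (fun x h => by rw [o1]; exact s1 x h)
      (fun x h => by rw [o1]; exact s2 x h)
      (fun x h => by rw [o1]; exact s4 x h)
      (fun x h => by rw [o1]; exact t1 x h)
  have hnd' : ([p3, a2, p2, a1, p1, a0, c, p0, b1, q1, b2, q2] : List Pt).Nodup := by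
    simp only [List.nodup_cons, List.mem_cons, List.not_mem_nil, or_false, not_or,
      List.nodup_nil, not_false_eq_true, and_true, @eq_comm _ _] at hnd ⊢
    tauto
  obtain ⟨w, mw, ⟨w1, w2, w3, w4, w5, w6, w7, w8⟩, ⟨w9, w10, w11, w12⟩, wi, wii⟩ :=
    half (e := -1) (Or.inr rfl) hX hn K2 mp3 ma2 mp2 ma1 mp1 ma0 mc mp0 mq2 hnd'
      (fun x h h1 h2 => by rw [om]; exact e5 x h h2 h1)
      (fun x h h1 h2 => by rw [om]; exact e4 x h h2 h1)
      (fun x h h1 h2 => by rw [om]; exact e3 x h h2 h1)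
      (fun x h h1 h2 => by rw [om]; exact e2 x h h2 h1)
      (fun x h h1 h2 h3 => by rw [om']; have := g5 x h h2 h1 h3; linarith)
      (fun x h h1 h2 h3 => by rw [om']; have := f5 x h h2 h1 h3; linarith)
      (fun x h h1 h2 h3 => by rw [om']; have := g4 x h h2 h1 h3; linarith)
      (fun x h h1 h2 h3 => by rw [om']; have := f4 x h h2 h1 h3; linarith)
      (fun x h h1 h2 h3 => by rw [om']; have := g3 x h h2 h1 h3; linarith)
      (fun x h h1 h2 h3 => by rw [om']; have := f3 x h h2 h1 h3; linarith)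
      (fun x h h1 h2 h3 => by rw [om']; have := g2 x h h2 h1 h3; linarith)
      (fun x h => by rw [om, s4 x h]; tauto)
      (fun x h => by rw [om, s3 x h]; tauto)
      (fun x h => by rw [om, s1 x h]; tauto)
      (fun x h => by rw [om, t3 x h]; tauto)
  rw [o1] at zii
  rw [om'] at wii
  by_cases hzw : z = w
  · rw [hzw] at zii
    linarith
  have hc : c ≠ p0 ∧ c ≠ p1 ∧ c ≠ a0 := by
    simp only [List.nodup_cons, List.mem_cons, List.not_mem_nil, or_false, not_or,
      List.nodup_nil, not_false_eq_true, and_true] at hnd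
    obtain ⟨-, -, -, -, ⟨-, c1, -⟩, ⟨c2, -⟩, ⟨c3, -⟩, -⟩ := hnd
    exact ⟨Ne.symm c1, c3, Ne.symm c2⟩
  refine clash (C := p0) (D := p1) (d := a0) (c := c) (z := z) (w := w) ?_ ?_ ?_ ?_ ?_ ?_ ?_ ?_ ?_
  · rw [o1]; exact f3 c mc hc.1 hc.2.1 hc.2.2
  · rw [o1]; exact e3 z mz z5 z8
  · rw [o1]; exact f3 z mz z5 z8 z6
  · exact zi w mw w12 w11 w10 w9 w8 w6 w7 w5 (Ne.symm hzw)
  · have h := wi z mz z12 z11 z10 z9 z8 z6 z7 z5 hzw
    rw [om] at h
    rw [o1]; exact h
  · rw [o1, orient_swap]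
    have := g3 z mz z5 z8 z6
    linarith
  · rw [o1]; exact f3 w mw w8 w5 w6
  · rw [o1]; exact zii
  · rw [o1]; linarith

end NT

/-- No triple: the sixth points over three consecutive chords are not all equal. -/
theorem no_triple {X : Finset Pt} {h : ℕ} {p a c : ZMod h → Pt} (hX : GeneralPosition X)
    (hn : 13 ≤ X.card) (hh : 6 ≤ h) (pinj : Function.Injective p)
    (pX : ∀ i, p i ∈ X) (aX : ∀ i, a i ∈ X) (cX : ∀ i, c i ∈ X)
    (hull : ∀ i, ∀ z ∈ X, z ≠ p i → z ≠ p (i + 1) → 0 < orient (p i) (p (i + 1)) z)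
    (a1 : ∀ i, ∀ z ∈ X, z ≠ p i → z ≠ p (i + 1) → z ≠ a i → 0 < orient (p i) (a i) z)
    (a2 : ∀ i, ∀ z ∈ X, z ≠ p i → z ≠ p (i + 1) → z ≠ a i → orient (p (i + 1)) (a i) z < 0)
    (s1 : ∀ i, ∀ z ∈ X, orient (p (i - 1)) (p (i + 1)) z < 0 ↔
      z = a (i - 1) ∨ z = p i ∨ z = a i)
    (s2 : ∀ i, ∀ z ∈ X, orient (p (i - 1)) (p (i + 2)) z < 0 ↔
      z = p i ∨ z = p (i + 1) ∨ z = a (i - 1) ∨ z = a i ∨ z = a (i + 1) ∨ z = c i)
    (ca : ∀ i j, c i ≠ a j) (cp : ∀ i j, c i ≠ p j)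
    (K2 : ∀ S : Finset Pt, S ⊆ X → S.card = 8 →
      Disjoint (convexHull ℝ (S : Set Pt)) (convexHull ℝ ((X \ S : Finset Pt) : Set Pt)) →
        ¬ HCPle (S : Set Pt) 2) (i : ZMod h) : ¬ (c (i - 1) = c i ∧ c i = c (i + 1)) := by
  rintro ⟨hc1, hc2⟩
  have hk : ∀ k : ℕ, 0 < k → k < 6 → ((k : ℕ) : ZMod h) ≠ 0 := by
    intro k h1 h2 h3
    rw [ZMod.natCast_eq_zero_iff] at h3
    have := Nat.le_of_dvd h1 h3
    omega
  have k1 : (1 : ZMod h) ≠ 0 := by simpa using hk 1 (by norm_num) (by norm_num)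
  have k2 : (2 : ZMod h) ≠ 0 := by simpa using hk 2 (by norm_num) (by norm_num)
  have k3 : (3 : ZMod h) ≠ 0 := by simpa using hk 3 (by norm_num) (by norm_num)
  have k4 : (4 : ZMod h) ≠ 0 := by simpa using hk 4 (by norm_num) (by norm_num)
  have k5 : (5 : ZMod h) ≠ 0 := by simpa using hk 5 (by norm_num) (by norm_num)
  -- `a i` is not a hull vertex
  have ap : ∀ i j, a i ≠ p j := by
    intro i j hij
    by_cases h1 : j = i
    · have h2 := (s1 i (a i) (aX i)).2 (by simp)
      have h3 := a2 i (p (i + 2)) (pX _) (fun h => k2 (by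
        have := pinj h; linear_combination this)) (fun h => k1 (by
        have := pinj h; linear_combination this)) (by
          rw [hij, h1]; exact fun h => k2 (by have := pinj h; linear_combination this))
      have h4 := a1 i (p (i + 2)) (pX _) (fun h => k2 (by
        have := pinj h; linear_combination this)) (fun h => k1 (by
        have := pinj h; linear_combination this)) (by
          rw [hij, h1]; exact fun h => k2 (by have := pinj h; linear_combination this))
      rw [hij, h1] at h4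
      simp at h4
    · by_cases h2 : j = i + 1
      · have h3 := a2 i (p (i + 2)) (pX _) (fun h => k2 (by
          have := pinj h; linear_combination this)) (fun h => k1 (by
          have := pinj h; linear_combination this)) (by
            rw [hij, h2]; exact fun h => k1 (by have := pinj h; linear_combination this))
        rw [hij, h2] at h3
        simp at h3
      · by_cases h3 : j + 1 = i
        · have h4 := a1 i (p (i - 2)) (pX _) (fun h => k2 (by
            have := pinj h; linear_combination -this)) (fun h => k3 (by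
            have := pinj h; linear_combination -this)) (by
              rw [hij, ← h3]; exact fun h => k1 (by have := pinj h; linear_combination -this))
          have h5 := hull j (p (i - 2)) (pX _) (by
              rw [← h3]; exact fun h => k1 (by have := pinj h; linear_combination -this))
            (by rw [h3]; exact fun h => k2 (by have := pinj h; linear_combination -this))
          rw [hij] at h4
          rw [h3, orient_swap] at h5
          linarith
        · have h4 := a2 i (p (j + 1)) (pX _) (fun h => h3 (pinj h))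
            (fun h => h1 (by have := pinj h; linear_combination this))
            (by rw [hij]; exact fun h => k1 (by have := pinj h; linear_combination this))
          have h5 := hull j (p (i + 1)) (pX _) (fun h => h2 (pinj h).symm)
            (fun h => h1 (by have := pinj h; linear_combination -this))
          rw [hij, ← orient_cyc] at h4
          linarith
  have aa : ∀ i j, i ≠ j → a i ≠ a j := by
    intro i j hij h
    by_cases h1 : j = i + 1
    · have h2 := a2 i (p (i + 3)) (pX _) (fun h => k3 (by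
        have := pinj h; linear_combination this)) (fun h => k2 (by
        have := pinj h; linear_combination this)) (Ne.symm (ap _ _))
      have h3 := a1 j (p (i + 3)) (pX _) (by
        rw [h1]; exact fun h => k2 (by have := pinj h; linear_combination this)) (by
        rw [h1]; exact fun h => k1 (by have := pinj h; linear_combination this)) (Ne.symm (ap _ _))
      rw [h, ← h1] at h2
      linarith
    · by_cases h2 : i = j + 1
      · have h3 := a2 j (p (j + 3)) (pX _) (fun h => k3 (by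
          have := pinj h; linear_combination this)) (fun h => k2 (by
          have := pinj h; linear_combination this)) (Ne.symm (ap _ _))
        have h4 := a1 i (p (j + 3)) (pX _) (by
          rw [h2]; exact fun h => k2 (by have := pinj h; linear_combination this)) (by
          rw [h2]; exact fun h => k1 (by have := pinj h; linear_combination this))
          (Ne.symm (ap _ _))
        rw [← h, ← h2] at h3
        linarith
      · have h3 := a1 i (p j) (pX _) (fun h => hij (pinj h).symm) (fun h => h1 (pinj h))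
          (Ne.symm (ap _ _))
        have h4 := a1 j (p i) (pX _) (fun h => hij (pinj h)) (fun h => h2 (pinj h))
          (Ne.symm (ap _ _))
        have h5 : orient (p j) (a i) (p i) = -orient (p i) (a i) (p j) := by
          unfold orient; ring
        rw [← h, h5] at h4
        linarith
  have i1 : i - 2 + 1 = i - 1 := by ring
  have i2 : i - 1 + 1 = i := by ring
  have i3 : i + 1 + 1 = i + 2 := by ring
  have i4 : i + 2 + 1 = i + 3 := by ring
  have i5 : i - 1 - 1 = i - 2 := by ring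
  have i6 : i + 1 - 1 = i := by ring
  have i7 : i + 2 - 1 = i + 1 := by ring
  have i8 : i - 1 + 2 = i + 1 := by ring
  have i9 : i + 1 + 2 = i + 3 := by ring
  refine NT.pts hX hn K2 (q2 := p (i - 2)) (q1 := p (i - 1)) (p0 := p i) (p1 := p (i + 1))
    (p2 := p (i + 2)) (p3 := p (i + 3)) (b2 := a (i - 2)) (b1 := a (i - 1)) (a0 := a i)
    (a1 := a (i + 1)) (a2 := a (i + 2)) (c := c i) (pX _) (pX _) (pX _) (pX _) (pX _) (pX _)
    (aX _) (aX _) (aX _) (aX _) (aX _) (cX _) ?_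
    (by have := hull (i - 2); rwa [i1] at this) (by have := hull (i - 1); rwa [i2] at this)
    (hull i) (by have := hull (i + 1); rwa [i3] at this)
    (by have := hull (i + 2); rwa [i4] at this)
    (by have := a1 (i - 2); rwa [i1] at this) (by have := a1 (i - 1); rwa [i2] at this)
    (a1 i) (by have := a1 (i + 1); rwa [i3] at this) (by have := a1 (i + 2); rwa [i4] at this)
    (by have := a2 (i - 2); rwa [i1] at this) (by have := a2 (i - 1); rwa [i2] at this)
    (a2 i) (by have := a2 (i + 1); rwa [i3] at this) (by have := a2 (i + 2); rwa [i4] at this)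
    (by have := s1 (i - 1); rwa [i2, i5] at this) (s1 i)
    (by have := s1 (i + 1); rwa [i3, i6] at this) (by have := s1 (i + 2); rwa [i4, i7] at this)
    (by have := s2 (i - 1); rwa [i2, i5, i8, hc1] at this)
    (by have := s2 (i + 1); rwa [i3, i6, i9, ← hc2] at this)
  have pp : ∀ s t : ZMod h, s ≠ t → p s ≠ p t := fun s t hst h => hst (pinj h)
  have pa : ∀ s t : ZMod h, p s ≠ a t := fun s t => Ne.symm (ap t s)
  have pc : ∀ s t : ZMod h, p s ≠ c t := fun s t => Ne.symm (cp t s)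
  have ac : ∀ s t : ZMod h, a s ≠ c t := fun s t => Ne.symm (ca t s)
  have d (s t k : ZMod h) (hk : k ≠ 0) (hst : t = s + k) : s ≠ t := by
    intro h
    apply hk
    rw [hst] at h
    linear_combination -h
  simp only [List.nodup_cons, List.mem_cons, List.not_mem_nil, or_false, not_or,
    List.nodup_nil, not_false_eq_true, and_true]
  refine ⟨⟨pa _ _, pp _ _ (d _ _ 1 k1 (by ring)), pa _ _, pp _ _ (d _ _ 2 k2 (by ring)), pa _ _,
      pc _ _, pp _ _ (d _ _ 3 k3 (by ring)), pa _ _, pp _ _ (d _ _ 4 k4 (by ring)), pa _ _,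
      pp _ _ (d _ _ 5 k5 (by ring))⟩,
    ⟨ap _ _, aa _ _ (d _ _ 1 k1 (by ring)), ap _ _, aa _ _ (d _ _ 2 k2 (by ring)), ac _ _,
      ap _ _, aa _ _ (d _ _ 3 k3 (by ring)), ap _ _, aa _ _ (d _ _ 4 k4 (by ring)), ap _ _⟩,
    ⟨pa _ _, pp _ _ (d _ _ 1 k1 (by ring)), pa _ _, pc _ _, pp _ _ (d _ _ 2 k2 (by ring)),
      pa _ _, pp _ _ (d _ _ 3 k3 (by ring)), pa _ _, pp _ _ (d _ _ 4 k4 (by ring))⟩,
    ⟨ap _ _, aa _ _ (d _ _ 1 k1 (by ring)), ac _ _, ap _ _, aa _ _ (d _ _ 2 k2 (by ring)),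
      ap _ _, aa _ _ (d _ _ 3 k3 (by ring)), ap _ _⟩,
    ⟨pa _ _, pc _ _, pp _ _ (d _ _ 1 k1 (by ring)), pa _ _, pp _ _ (d _ _ 2 k2 (by ring)),
      pa _ _, pp _ _ (d _ _ 3 k3 (by ring))⟩,
    ⟨ac _ _, ap _ _, aa _ _ (d _ _ 1 k1 (by ring)), ap _ _, aa _ _ (d _ _ 2 k2 (by ring)),
      ap _ _⟩,
    ⟨cp _ _, ca _ _, cp _ _, ca _ _, cp _ _⟩,
    ⟨pa _ _, pp _ _ (d _ _ 1 k1 (by ring)), pa _ _, pp _ _ (d _ _ 2 k2 (by ring))⟩,
    ⟨ap _ _, aa _ _ (d _ _ 1 k1 (by ring)), ap _ _⟩,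
    ⟨pa _ _, pp _ _ (d _ _ 1 k1 (by ring))⟩, ap _ _⟩

end Pool.Agent.GCP
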