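import Pool.Agent.GCP.FastFin

set_option autoImplicit false
set_option maxRecDepth 100000

/-! # Patch certificates PaE4 (generated) -/

namespace Pool.Agent.GCP.PaE4

open Pool.Agent.GCP DB

namespace e5_17

def db : DB := (N 1 (L (nat_lit 0) (nat_lit 0)) (L (nat_lit 0) (nat_lit 0)))

def d : PD := ⟨18, [12], true, true, 17, [(1, 4), (4, 7), (7, 11), (11, 17), (17, 18)], [(2, 0, 1), (3, 1, 4)], [(18, 12, 13), (18, 12, 14), (18, 12, 15), (18, 12, 16), (18, 12, 17), (1, 17, 12)], [(1, 7, 3), (4, 11, 3), (7, 17, 3), (11, 18, 3), (1, 11, 6), (4, 17, 6), (7, 18, 6), (1, 17, 10), (4, 18, 10), (12, 18, 11)], [(1, 7, 3), (4, 11, 3), (7, 17, 3), (11, 18, 3), (1, 11, 6), (4, 17, 6), (7, 18, 6), (1, 17, 10), (4, 18, 10), (12, 18, 11)], [(4, 7), (7, 11), (11, 17), (17, 18)]⟩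

def q : FD := ⟨d, nat_lit 18, nat_lit 0x7efff, nat_lit 0x3effe⟩

abbrev B (a b : ℕ) : Prop := Blk db (thq q M414) 0 0 a b

theorem b0 : B 0 2 := Blk.of_chk [.t 1 (nat_lit 0) (.fa 17 18 [(0, 16, true), (1, 0, false), (2, 0, false), (3, 0, false), (4, 0, false), (5, 0, false), (6, 0, false), (7, 0, false), (8, 0, false), (9, 0, false), (10, 0, false), (11, 0, false), (13, 0, false), (14, 0, false), (15, 0, false), (16, 0, false)]), .r 2 (nat_lit 1)] (by decide +kernel) (by decide +kernel)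
theorem all : B 0 2 := b0

theorem fin {P : ℕ → Pt} {X : Finset Pt} {K : ℕ} (hp : Patch d P X)
    (hI : Irr X K t414 []) : False :=
  fin_of (q := q) (last := 1) (by decide +kernel) (by decide +kernel) all hp hI

end e5_17

end Pool.Agent.GCP.PaE4
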