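import Pool.Agent.GCP.Th

/-!
# Patches: complete knowledge of a point set beyond a chain of lines
-/

namespace Pool.Agent.GCP

lemma orient_seg (a b x y : Pt) (t : ℝ) :
    orient a b ((1 - t) • x + t • y) = (1 - t) * orient a b x + t * orient a b y :=
  orient_comb a b x y (by ring)

/-- A segment which leaves the convex region behind a chain crosses the chain. -/
theorem cross_chain {m : ℕ} (c : ℕ → Pt) (q0 qV : Pt)
    (conv : ∀ i, i + 2 ≤ m → 0 < orient (c i) (c (i + 1)) (c (i + 2)))
    (h0 : 0 < orient (c 0) q0 (c 1)) (hV : 0 < orient qV (c m) (c (m - 1)))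
    {x y : Pt} (hx : ∀ i < m, 0 < orient (c i) (c (i + 1)) x)
    (hy : ∃ i < m, orient (c i) (c (i + 1)) y < 0)
    (x0 : 0 ≤ orient (c 0) q0 x) (y0 : 0 ≤ orient (c 0) q0 y)
    (xV : 0 ≤ orient qV (c m) x) (yV : 0 ≤ orient qV (c m) y) :
    ∃ s : ℝ, 0 < s ∧ s < 1 ∧ ∃ i < m, ∃ τ : ℝ, 0 ≤ τ ∧ τ ≤ 1 ∧
      (1 - s) • x + s • y = (1 - τ) • c i + τ • c (i + 1) := by
  classical
  -- the time of crossing
  set φ : ℕ → ℝ := fun i => orient (c i) (c (i + 1)) x /
    (orient (c i) (c (i + 1)) x - orient (c i) (c (i + 1)) y) with hφ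
  obtain ⟨i0, hi0, hy0⟩ := hy
  have hne : ((Finset.range m).filter (fun i => orient (c i) (c (i + 1)) y < 0)).Nonempty :=
    ⟨i0, Finset.mem_filter.2 ⟨Finset.mem_range.2 hi0, hy0⟩⟩
  obtain ⟨i, hi, hmin⟩ := Finset.exists_min_image _ φ hne
  rw [Finset.mem_filter, Finset.mem_range] at hi
  obtain ⟨him, hiy⟩ := hi
  have hix := hx i him
  have hden : 0 < orient (c i) (c (i + 1)) x - orient (c i) (c (i + 1)) y := by linarith
  set s := φ i with hs
  have hs0 : 0 < s := div_pos hix hden
  have hs1 : s < 1 := by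
    rw [hs, hφ]
    simp only
    rw [div_lt_one hden]
    linarith
  set z : Pt := (1 - s) • x + s • y with hz
  have hzi : orient (c i) (c (i + 1)) z = 0 := by
    rw [hz, orient_seg]
    have : s * (orient (c i) (c (i + 1)) x - orient (c i) (c (i + 1)) y) =
        orient (c i) (c (i + 1)) x := by
      rw [hs, hφ]
      simp only
      rw [div_mul_cancel₀ _ hden.ne']
    linarith
  have hzj : ∀ j < m, 0 ≤ orient (c j) (c (j + 1)) z := by
    intro j hj
    rw [hz, orient_seg]
    have hjx := hx j hj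
    by_cases hjy : orient (c j) (c (j + 1)) y < 0
    · have h1 := hmin j (Finset.mem_filter.2 ⟨Finset.mem_range.2 hj, hjy⟩)
      have hdj : 0 < orient (c j) (c (j + 1)) x - orient (c j) (c (j + 1)) y := by linarith
      have h2 : s * (orient (c j) (c (j + 1)) x - orient (c j) (c (j + 1)) y) ≤
          orient (c j) (c (j + 1)) x := by
        have h3 : φ j * (orient (c j) (c (j + 1)) x - orient (c j) (c (j + 1)) y) =
            orient (c j) (c (j + 1)) x := by
          rw [hφ]
          simp only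
          rw [div_mul_cancel₀ _ hdj.ne']
        exact (mul_le_mul_of_nonneg_right h1 hdj.le).trans h3.le
      linarith
    · rw [not_lt] at hjy
      have h1 : 0 ≤ 1 - s := by linarith
      positivity
  have hz0 : 0 ≤ orient (c 0) q0 z := by
    rw [hz, orient_seg]
    have h1 : 0 ≤ 1 - s := by linarith
    positivity
  have hzV : 0 ≤ orient qV (c m) z := by
    rw [hz, orient_seg]
    have h1 : 0 ≤ 1 - s := by linarith
    positivity
  -- z on the line through c i, c (i+1)
  have hne' : c i ≠ c (i + 1) := by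
    intro h
    rw [h] at hix
    simp at hix
  have hline : ∃ τ : ℝ, z = (1 - τ) • c i + τ • c (i + 1) := by
    unfold orient at hzi
    by_cases h1 : (c (i + 1)).1 - (c i).1 = 0
    · have h2 : (c (i + 1)).2 - (c i).2 ≠ 0 := by
        intro h2
        apply hne'
        ext
        · linarith
        · linarith
      refine ⟨(z.2 - (c i).2) / ((c (i + 1)).2 - (c i).2), ?_⟩
      ext
      · simp only [Prod.fst_add, Prod.smul_fst, smul_eq_mul]
        rw [h1] at hzi
        have h3 : ((c (i + 1)).2 - (c i).2) * (z.1 - (c i).1) = 0 := by linarith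
        have h4 := (mul_eq_zero.1 h3).resolve_left h2
        have h5 : (c (i + 1)).1 = (c i).1 := by linarith
        rw [h5]
        linarith
      · simp only [Prod.snd_add, Prod.smul_snd, smul_eq_mul]
        field_simp
        ring
    · refine ⟨(z.1 - (c i).1) / ((c (i + 1)).1 - (c i).1), ?_⟩
      ext
      · simp only [Prod.fst_add, Prod.smul_fst, smul_eq_mul]
        field_simp
        ring
      · simp only [Prod.snd_add, Prod.smul_snd, smul_eq_mul]
        field_simp
        linarith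
  obtain ⟨τ, hτ⟩ := hline
  refine ⟨s, hs0, hs1, i, him, τ, ?_, ?_, hτ⟩
  · rcases Nat.eq_zero_or_pos i with h | h
    · subst h
      rw [hτ, orient_seg] at hz0
      simp only [orient_left, mul_zero, zero_add] at hz0
      exact nonneg_of_mul_nonneg_left hz0 h0
    · obtain ⟨k, rfl⟩ : ∃ k, i = k + 1 := ⟨i - 1, by omega⟩
      have h1 := hzj k (by omega)
      rw [hτ, orient_seg] at h1
      simp only [orient_right, mul_zero, zero_add] at h1
      exact nonneg_of_mul_nonneg_left h1 (conv k (by omega))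
  · have key : 0 ≤ (1 - τ) := by
      rcases Nat.lt_or_ge (i + 1) m with h | h
      · have h1 := hzj (i + 1) h
        rw [hτ, orient_seg] at h1
        simp only [orient_left, mul_zero, add_zero] at h1
        have h2 := conv i (by omega)
        have h3 : orient (c (i + 1)) (c (i + 1 + 1)) (c i) = orient (c i) (c (i + 1)) (c (i + 2)) := by
          rw [← orient_cyc (c i)]
        rw [h3] at h1
        exact nonneg_of_mul_nonneg_left h1 h2
      · have h4 : m = i + 1 := by omega
        subst h4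
        rw [hτ, orient_seg] at hzV
        simp only [orient_right, mul_zero, add_zero] at hzV
        exact nonneg_of_mul_nonneg_left hzV hV
    linarith

/-- The combinatorial data of a patch. The elements are `0, ..., V`; the elements of `vi` are
virtual (the corners of the chain `0, vi, V`), the ends `0` and `V` are real if `r0` and `rv`
hold; `e` is the hull neighbour of `V`. -/
structure PD where
  V : ℕ
  vi : List ℕ
  r0 : Bool
  rv : Bool
  e : ℕ
  hulls : List (ℕ × ℕ)
  tris : List (ℕ × ℕ × ℕ)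
  exts : List (ℕ × ℕ × ℕ)
  ubs : List (ℕ × ℕ × ℕ)
  lbs : List (ℕ × ℕ × ℕ)
  fas : List (ℕ × ℕ)

namespace PD

/-- Real elements. -/
def isReal (d : PD) (i : ℕ) : Bool := lt' i (Nat.succ d.V) && (!(d.vi.any (fun j => Nat.beq i j)) &&
  ((d.r0 || !Nat.beq i 0) && (d.rv || !Nat.beq i d.V)))

/-- The list of the real elements. -/
def reals (d : PD) : List ℕ := (List.range (Nat.succ d.V)).filter d.isReal

/-- The chain. -/
def chain (d : PD) : List ℕ := 0 :: (d.vi ++ [d.V])

/-- The elements of the chain. -/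
def ch (d : PD) (i : ℕ) : ℕ := d.chain.getD i 0

end PD

/-- Membership in a list of numbers. -/
def mb (l : List ℕ) (i : ℕ) : Bool := l.any (fun j => Nat.beq i j)

lemma mb_iff {l : List ℕ} {i : ℕ} : mb l i = true ↔ i ∈ l := by
  simp only [mb, List.any_eq_true, Nat.beq_eq]
  constructor
  · rintro ⟨x, hx, h⟩
    have h' : i = x := h
    rw [h']
    exact hx
  · intro h
    exact ⟨i, h, rfl⟩

lemma mb_false {l : List ℕ} {i : ℕ} (h : mb l i = false) : i ∉ l := by
  intro hi
  rw [mb_iff.2 hi] at h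
  exact absurd h (by simp)

lemma nbeq_false {i j : ℕ} (h : Nat.beq i j = false) : i ≠ j := by
  rintro rfl
  have : Nat.beq i i = true := by rw [Nat.beq_eq]
  rw [this] at h
  exact absurd h (by simp)

lemma isReal_le {d : PD} {i : ℕ} (h : d.isReal i = true) : i ≤ d.V := by
  unfold PD.isReal at h
  rw [Bool.and_eq_true, lt'_iff] at h
  exact Nat.lt_succ_iff.1 h.1

lemma mem_reals {d : PD} {i : ℕ} : i ∈ d.reals ↔ d.isReal i = true := by
  unfold PD.reals
  rw [List.mem_filter, List.mem_range]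
  constructor
  · exact fun h => h.2
  · intro h
    exact ⟨Nat.lt_succ_of_le (isReal_le h), h⟩

/-- The side of the line: `m = true` means positive for `orient a b`. -/
def sd (m : Bool) (a b x : Pt) : ℝ := bif m then orient a b x else -orient a b x

lemma sd_seg (m : Bool) (a b x y : Pt) (t : ℝ) :
    sd m a b ((1 - t) • x + t • y) = (1 - t) * sd m a b x + t * sd m a b y := by
  cases m
  · simp only [sd, cond_false, orient_seg]
    ring
  · simp only [sd, cond_true, orient_seg]

lemma sd_left (m : Bool) (a b : Pt) : sd m a b a = 0 := by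
  cases m <;> simp [sd]

lemma sd_right (m : Bool) (a b : Pt) : sd m a b b = 0 := by
  cases m <;> simp [sd]

/-- The geometric content of a patch of the set `X`. -/
structure Patch (d : PD) (P : ℕ → Pt) (X : Finset Pt) : Prop where
  gp : GeneralPosition X
  fr : Frame (d.V + 1) P
  real : ∀ i, d.isReal i = true → P i ∈ X
  viV : ∀ i ∈ d.vi, i < d.V + 1
  /-- hull edges at the ends -/
  end0 : ∀ x ∈ X, 0 ≤ orient (P 0) (P 1) x
  endV : ∀ x ∈ X, 0 ≤ orient (P d.e) (P d.V) x
  in0 : 0 < orient (P 0) (P 1) (P (d.ch 1))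
  inV : 0 < orient (P d.e) (P d.V) (P (d.ch d.vi.length))
  /-- the chain is convex -/
  conv : ∀ i, i + 2 ≤ d.vi.length + 1 →
    0 < orient (P (d.ch i)) (P (d.ch (i + 1))) (P (d.ch (i + 2)))
  /-- unnamed points are beyond the chain -/
  out : ∀ x ∈ X, (∀ i, d.isReal i = true → x ≠ P i) → ∀ i < d.vi.length + 1,
    0 < orient (P (d.ch i)) (P (d.ch (i + 1))) x
  /-- named points are on this side of the chain -/
  near : ∀ i, d.isReal i = true → i ≠ 0 → i ≠ d.V → ∃ j < d.vi.length + 1,
    orient (P (d.ch j)) (P (d.ch (j + 1))) (P i) < 0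
  gen : ∀ i ≤ d.V, d.isReal i = false → ∀ x ∈ X, ∀ y ∈ X, x ≠ y → orient (P i) x y ≠ 0
  hul : ∀ f ∈ d.hulls, ∀ z, z ≤ d.V → z ≠ f.1 → z ≠ f.2 → 0 < orient (P f.1) (P f.2) (P z)
  tri : ∀ f ∈ d.tris, ∀ z, d.isReal z = true → z ≠ f.1 → z ≠ f.2.1 → z ≠ f.2.2 →
    0 < orient (P f.2.2) (P z) (P f.1) ∧ 0 < orient (P z) (P f.2.1) (P f.1)
  ext : ∀ f ∈ d.exts, 0 < orient (P f.1) (P f.2.1) (P f.2.2)
  ub : ∀ f ∈ d.ubs, ∃ S : Finset ℕ, S.card ≤ f.2.2 ∧
    ∀ i, d.isReal i = true → orient (P f.1) (P f.2.1) (P i) < 0 → i ∈ S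
  lb : ∀ f ∈ d.lbs, ∃ S : Finset ℕ, f.2.2 ≤ S.card ∧
    ∀ i ∈ S, d.isReal i = true ∧ orient (P f.1) (P f.2.1) (P i) < 0
  fa : ∀ f ∈ d.fas, ∃ i, d.isReal i = true ∧ i ≠ f.1 ∧ i ≠ f.2 ∧
    ∀ z, d.isReal z = true → z ≠ i → z ≠ f.1 → z ≠ f.2 →
      0 < orient (P f.2) (P z) (P i) ∧ 0 < orient (P z) (P f.1) (P i)

lemma ch_zero (d : PD) : d.ch 0 = 0 := rfl

lemma ch_last (d : PD) : d.ch (d.vi.length + 1) = d.V := by
  simp [PD.ch, PD.chain, List.getD_eq_getElem?_getD]

lemma ch_mem {d : PD} {i : ℕ} (h : i ≤ d.vi.length + 1) : d.ch i ∈ d.chain := by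
  unfold PD.ch
  rw [List.getD_eq_getElem _ _ (by simp [PD.chain]; omega)]
  exact List.getElem_mem _

/-- The unnamed points are on the far side. -/
theorem Patch.far {d : PD} {P : ℕ → Pt} {X : Finset Pt} (hp : Patch d P X) {m : Bool}
    {a b i0 : ℕ} (ha : d.isReal a = true) (hb : b ≤ d.V) (hab : a ≠ b)
    (hi0 : d.isReal i0 = true) (h00 : i0 ≠ 0) (h0V : i0 ≠ d.V)
    (hs : 0 ≤ sd m (P a) (P b) (P i0))
    (hch : ∀ f ∈ d.chain, f = a ∨ f = b ∨ sd m (P a) (P b) (P f) < 0)
    {x : Pt} (hx : x ∈ X) (hun : ∀ i, d.isReal i = true → x ≠ P i) :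
    sd m (P a) (P b) x < 0 := by
  by_contra hcon
  rw [not_lt] at hcon
  have hch' : ∀ f ∈ d.chain, sd m (P a) (P b) (P f) ≤ 0 := by
    intro f hf
    rcases hch f hf with rfl | rfl | h
    · rw [sd_left]
    · rw [sd_right]
    · exact h.le
  obtain ⟨s, hs0, hs1, i, hi, τ, hτ0, hτ1, he⟩ := cross_chain (m := d.vi.length + 1)
    (fun i => P (d.ch i)) (P 1) (P d.e)
    hp.conv (by simpa only [ch_zero] using hp.in0)
    (by simpa only [ch_last, Nat.add_sub_cancel] using hp.inV)
    (x := x) (y := P i0) (hp.out x hx hun) (hp.near i0 hi0 h00 h0V)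
    (by simpa only [ch_zero] using hp.end0 x hx)
    (by simpa only [ch_zero] using hp.end0 _ (hp.real i0 hi0))
    (by simpa only [ch_last] using hp.endV x hx)
    (by simpa only [ch_last] using hp.endV _ (hp.real i0 hi0))
  have h1 := congrArg (sd m (P a) (P b)) he
  rw [sd_seg, sd_seg] at h1
  have h2 := hch' _ (ch_mem (show i ≤ d.vi.length + 1 by omega))
  have h3 := hch' _ (ch_mem (show i + 1 ≤ d.vi.length + 1 by omega))
  have h4 : (1 - τ) * sd m (P a) (P b) (P (d.ch i)) ≤ 0 :=
    mul_nonpos_of_nonneg_of_nonpos (by linarith) h2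
  have h5 : τ * sd m (P a) (P b) (P (d.ch (i + 1))) ≤ 0 :=
    mul_nonpos_of_nonneg_of_nonpos hτ0 h3
  have h6 : 0 ≤ s * sd m (P a) (P b) (P i0) := mul_nonneg hs0.le hs
  have h7 : (1 - s) * sd m (P a) (P b) x ≤ 0 := by linarith
  have h8 : sd m (P a) (P b) x = 0 := by
    have h9 : 0 < 1 - s := by linarith
    nlinarith
  have h10 : orient (P a) (P b) x = 0 := by
    cases m
    · simpa [sd] using h8
    · simpa [sd] using h8
  have hxa : x ≠ P a := hun a ha
  have hPab : P a ≠ P b := hp.fr.inj a b (by have := isReal_le ha; omega) (by omega) hab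
  by_cases hbr : d.isReal b = true
  · have hxb : x ≠ P b := hun b hbr
    exact orient_ne hp.gp (hp.real a ha) (hp.real b hbr) hx hPab hxb.symm hxa.symm h10
  · have h11 := hp.gen b hb (by simpa using hbr) x hx (P a) (hp.real a ha) hxa
    apply h11
    rw [← orient_cyc] at h10
    rw [← h10]

end Pool.Agent.GCP
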