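import Pool.Agent.GCP.PatchTh

/-!
# Patches with unsorted labels (MP_062f91_co)

The labels are `0, ..., n - 1` in any order; the theory is that of acyclic uniform chirotopes.
-/

namespace Pool.Agent.GCP

/-- The triple is known to be positively oriented (labels from `0` on). -/
def liU (T F i j k : ℕ) : Bool := lit T F (Nat.succ i) (Nat.succ j) (Nat.succ k)

/-- The assignment given by a sequence of points with labels from `0` on. -/
def valU (P : ℕ → Pt) : ℕ → Prop := val (fun i => P (i - 1))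

/-- The first `n` points are in general position. -/
structure GenP (n : ℕ) (P : ℕ → Pt) : Prop where
  inj : ∀ i j, i < n → j < n → i ≠ j → P i ≠ P j
  gp : ∀ i j k, i < n → j < n → k < n → i ≠ j → j ≠ k → i ≠ k →
    orient (P i) (P j) (P k) ≠ 0

section
variable {n : ℕ} {P : ℕ → Pt}

lemma posU {T F : ℕ} (ha : Asg (valU P) T F) {i j k : ℕ} (h1 : i < j) (h2 : j < k)
    (h : (Nat.beq (Nat.succ i) 0 || tb T (idx (Nat.succ i) (Nat.succ j) (Nat.succ k))) = true) :
    0 < orient (P i) (P j) (P k) := by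
  rw [Bool.or_eq_true, Nat.beq_eq, tb_iff] at h
  rcases h with h | h
  · exact absurd h (Nat.succ_ne_zero i)
  · exact (val_idx (P := fun i => P (i - 1)) (i := i + 1) (j := j + 1) (k := k + 1) (by omega)
      (by omega) (by omega)).1 ((ha _).1 h)

lemma negU (hg : GenP n P) {T F : ℕ} (ha : Asg (valU P) T F) {i j k : ℕ} (hk : k < n)
    (h1 : i < j) (h2 : j < k)
    (h : (lt' 0 (Nat.succ i) && tb F (idx (Nat.succ i) (Nat.succ j) (Nat.succ k))) = true) :
    orient (P i) (P j) (P k) < 0 := by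
  rw [Bool.and_eq_true, tb_iff] at h
  have h3 := (ha _).2 h.2
  have h4 : ¬ 0 < orient (P i) (P j) (P k) := fun h5 => h3
    ((val_idx (P := fun i => P (i - 1)) (i := i + 1) (j := j + 1) (k := k + 1) (by omega)
      (by omega) (by omega)).2 h5)
  rw [not_lt] at h4
  exact lt_of_le_of_ne h4 (hg.gp i j k (by omega) (by omega) hk (by omega) (by omega) (by omega))

lemma liU_sound (hg : GenP n P) {T F : ℕ} (ha : Asg (valU P) T F) {i j k : ℕ} (hi : i < n)
    (hj : j < n) (hk : k < n) (h : liU T F i j k = true) :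
    0 < orient (P i) (P j) (P k) := by
  simp only [liU, lit, Bool.or_eq_true, Bool.and_eq_true (lt' (Nat.succ i) (Nat.succ j)),
    Bool.and_eq_true (lt' (Nat.succ j) (Nat.succ k)),
    Bool.and_eq_true (lt' (Nat.succ i) (Nat.succ k)),
    Bool.and_eq_true (lt' (Nat.succ k) (Nat.succ j)),
    Bool.and_eq_true (lt' (Nat.succ k) (Nat.succ i)),
    Bool.and_eq_true (lt' (Nat.succ j) (Nat.succ i))] at h
  have c1 := orient_cyc (P i) (P j) (P k)
  have c2 := orient_cyc (P j) (P k) (P i)
  have s1 := orient_swap' (P i) (P j) (P k)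
  have s2 := orient_swap (P i) (P j) (P k)
  have s3 := orient_swap (P j) (P k) (P i)
  rcases h with h | h | h | h | h | h
  · rw [lt'_iff, lt'_iff] at h
    exact posU ha (by omega) (by omega) (by simpa only [Bool.or_eq_true] using h.2.2)
  · rw [lt'_iff, lt'_iff] at h
    have := negU hg ha hj (by omega) (by omega) h.2.2
    linarith
  · rw [lt'_iff, lt'_iff] at h
    have := posU ha (P := P) (i := k) (j := i) (k := j) (by omega) (by omega)
      (by simpa only [Bool.or_eq_true] using h.2.2)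
    linarith
  · rw [lt'_iff, lt'_iff] at h
    have := negU hg ha hk (by omega) (by omega) h.2.2
    linarith
  · rw [lt'_iff, lt'_iff] at h
    have := posU ha (P := P) (i := j) (j := k) (k := i) (by omega) (by omega)
      (by simpa only [Bool.or_eq_true] using h.2.2)
    linarith
  · rw [lt'_iff, lt'_iff] at h
    have := negU hg ha hi (by omega) (by omega) h.2.2
    linarith

lemma gp_imageU (hg : GenP n P) {l : List ℕ} (hl : ∀ i ∈ l, i < n) :
    GeneralPosition (l.toFinset.image P) := by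
  intro p hp q hq r hr h1 h2 h3 h4
  rw [Finset.mem_image] at hp hq hr
  obtain ⟨i, hi, rfl⟩ := hp
  obtain ⟨j, hj, rfl⟩ := hq
  obtain ⟨k, hk, rfl⟩ := hr
  rw [List.mem_toFinset] at hi hj hk
  refine hg.gp i j k (hl i hi) (hl j hj) (hl k hk) ?_ ?_ ?_ (orient_eq_of_collinear h4)
  · rintro rfl; exact h1 rfl
  · rintro rfl; exact h2 rfl
  · rintro rfl; exact h3 rfl

/-- Soundness of cutting trees for any literal function. -/
theorem ct_gen (hF : Facts 7 10 []) (hg : GenP n P) {li : ℕ → ℕ → ℕ → Bool}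
    (hli : ∀ i j k, i < n → j < n → k < n → li i j k = true → 0 < orient (P i) (P j) (P k)) :
    ∀ t : Ct, (∀ i ∈ t.pts, i < n) → t.pts.Nodup → t.chk n 7 10 [] li = true →
      HCPle (P '' {i | i ∈ t.pts}) t.cost
  | .leaf l, hl, hnd, h => by
    obtain ⟨h1, h2⟩ := leaf_sound hg.inj hg.gp hli hl hnd h
    refine ⟨1, le_refl _, [l.toFinset.image P], rfl, ?_, by simp, ?_⟩
    · intro Y hY
      simp only [List.mem_singleton] at hY
      subst hY
      exact ⟨h1, h2⟩
    · intro x
      simp [Ct.pts]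
  | .free k l, hl, hnd, h => by
    simp only [Ct.chk, Bool.or_eq_true, Bool.and_eq_true, Nat.beq_eq, Nat.ble_eq] at h
    have hc : (l.toFinset.image P).card ≤ l.length :=
      Finset.card_image_le.trans (List.toFinset_card_le l)
    have hg := gp_imageU hg hl
    rcases h with ⟨rfl, h⟩ | ⟨rfl, h⟩
    · have := hF.f2 _ (hc.trans h) hg
      rw [image_list] at this
      exact this
    · have := hF.f3 _ (hc.trans h) hg
      rw [image_list] at this
      exact this
  | .x11 t l, hl, hnd, h => by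
    simp only [Ct.chk, x11OK, Bool.and_eq_true, lt'_iff] at h
    exact absurd h.2.2.2.1 (by simp)
  | .node a b L R, hl, hnd, h => by
    simp only [Ct.chk, Bool.and_eq_true, Bool.not_eq_true', lt'_iff] at h
    obtain ⟨ha', hb, hab, hL, hR, hcL, hcR⟩ := h
    have hab' : a ≠ b := nbeq_false hab
    rw [List.all_eq_true] at hL hR
    simp only [Ct.pts, List.mem_append] at hl
    have hnd' := hnd
    simp only [Ct.pts] at hnd'
    rw [List.nodup_append] at hnd'
    have iL := ct_gen hF hg hli L (fun i hi => hl i (Or.inl hi)) hnd'.1 hcL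
    have iR := ct_gen hF hg hli R (fun i hi => hl i (Or.inr hi)) hnd'.2.1 hcR
    have heq : P '' {i | i ∈ (Ct.node a b L R).pts} =
        P '' {i | i ∈ L.pts} ∪ P '' {i | i ∈ R.pts} := by
      rw [← Set.image_union]
      congr 1
      ext i
      simp [Ct.pts]
    rw [heq]
    refine HCPle.append iL iR (hull_disjoint (hg.inj a b ha' hb hab') ?_ ?_)
    · rintro x ⟨i, hi, rfl⟩ hx
      have h1 := hL i hi
      simp only [Bool.or_eq_true, Nat.beq_eq] at h1
      rcases h1 with h1 | h1
      · subst h1; exact absurd rfl hx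
      · exact hli _ _ _ ha' hb (hl i (Or.inl hi)) h1
    · rintro x ⟨i, hi, rfl⟩ hx
      have h1 := hR i hi
      simp only [Bool.or_eq_true, Nat.beq_eq] at h1
      rcases h1 with h1 | h1
      · subst h1; exact absurd rfl hx
      · have := hli _ _ _ hb ha' (hl i (Or.inr hi)) h1
        rw [orient_swap] at this
        linarith
  | .edon a b L R, hl, hnd, h => by
    simp only [Ct.chk, Bool.and_eq_true, Bool.not_eq_true', lt'_iff] at h
    obtain ⟨ha', hb, hab, hL, hR, hcL, hcR⟩ := h
    have hab' : a ≠ b := nbeq_false hab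
    rw [List.all_eq_true] at hL hR
    simp only [Ct.pts, List.mem_append] at hl
    have hnd' := hnd
    simp only [Ct.pts] at hnd'
    rw [List.nodup_append] at hnd'
    have iL := ct_gen hF hg hli L (fun i hi => hl i (Or.inl hi)) hnd'.1 hcL
    have iR := ct_gen hF hg hli R (fun i hi => hl i (Or.inr hi)) hnd'.2.1 hcR
    have heq : P '' {i | i ∈ (Ct.edon a b L R).pts} =
        P '' {i | i ∈ L.pts} ∪ P '' {i | i ∈ R.pts} := by
      rw [← Set.image_union]
      congr 1
      ext i
      simp [Ct.pts]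
    rw [heq]
    refine HCPle.append iL iR (hull_disjoint' (hg.inj a b ha' hb hab') ?_ ?_)
    · rintro x ⟨i, hi, rfl⟩ hx
      have h1 := hL i hi
      simp only [Bool.or_eq_true, Nat.beq_eq] at h1
      rcases h1 with h1 | h1
      · subst h1; exact absurd rfl hx
      · have := hli _ _ _ hb ha' (hl i (Or.inl hi)) h1
        rw [orient_swap] at this
        linarith
    · rintro x ⟨i, hi, rfl⟩ hx
      have h1 := hR i hi
      simp only [Bool.or_eq_true, Nat.beq_eq] at h1
      rcases h1 with h1 | h1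
      · subst h1; exact absurd rfl hx
      · exact hli _ _ _ ha' hb (hl i (Or.inr hi)) h1

end

/-- The combinatorial data of an unsorted patch: `rl` is the list of the real labels, `ch` the
chain (its first and last elements are hull vertices of the set together with the chain, with
hull neighbours `e0` and `eV`); `rows`: known positive triples; `ubs`: at most `k` elements of the
list are on the negative side of the line `a b`; `fas`: hull edges with an empty triangle; `eqs`:
equal signs. -/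
structure UD where
  n : ℕ
  rl : List ℕ
  ch : List ℕ
  e0 : ℕ
  eV : ℕ
  rows : List (ℕ × ℕ × List ℕ)
  ubs : List (ℕ × ℕ × ℕ × List ℕ)
  fas : List (ℕ × ℕ)
  eqs : List (ℕ × ℕ × ℕ × ℕ × List ℕ)

/-- The elements of the chain. -/
def UD.c (d : UD) (i : ℕ) : ℕ := d.ch.getD i 0

/-- The number of edges of the chain. -/
def UD.m (d : UD) : ℕ := d.ch.length - 1

/-- The geometric content of an unsorted patch of the set `X`. -/
structure UPatch (d : UD) (P : ℕ → Pt) (X : Finset Pt) : Prop where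
  gpX : GeneralPosition X
  gen : GenP d.n P
  rlt : ∀ i ∈ d.rl, i < d.n
  clt : ∀ i ∈ d.ch, i < d.n
  real : ∀ i ∈ d.rl, P i ∈ X
  end0 : ∀ x ∈ X, 0 ≤ orient (P (d.c 0)) (P d.e0) x
  endV : ∀ x ∈ X, 0 ≤ orient (P d.eV) (P (d.c d.m)) x
  in0 : 0 < orient (P (d.c 0)) (P d.e0) (P (d.c 1))
  inV : 0 < orient (P d.eV) (P (d.c d.m)) (P (d.c (d.m - 1)))
  /-- the chain is convex -/
  conv : ∀ i, i + 2 ≤ d.m → 0 < orient (P (d.c i)) (P (d.c (i + 1))) (P (d.c (i + 2)))
  /-- unnamed points are beyond the chain -/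
  out : ∀ x ∈ X, (∀ i ∈ d.rl, x ≠ P i) → ∀ i < d.m,
    0 < orient (P (d.c i)) (P (d.c (i + 1))) x
  /-- named points are on this side of the chain -/
  near : ∀ i ∈ d.rl, i ≠ d.c 0 → i ≠ d.c d.m → ∃ j < d.m,
    orient (P (d.c j)) (P (d.c (j + 1))) (P i) < 0
  /-- the virtual elements of the chain are generic -/
  gch : ∀ i ∈ d.ch, i ∉ d.rl → ∀ x ∈ X, ∀ y ∈ X, x ≠ y → orient (P i) x y ≠ 0
  row : ∀ f ∈ d.rows, ∀ z ∈ f.2.2, 0 < orient (P f.1) (P f.2.1) (P z)
  ub : ∀ f ∈ d.ubs, ∀ I : Finset ℕ,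
    (∀ i ∈ I, i ∈ f.2.2.2 ∧ orient (P f.1) (P f.2.1) (P i) < 0) → I.card ≤ f.2.2.1
  fa : ∀ f ∈ d.fas, ∃ i ∈ d.rl, i ≠ f.1 ∧ i ≠ f.2 ∧
    ∀ z ∈ d.rl, z ≠ i → z ≠ f.1 → z ≠ f.2 →
      0 < orient (P f.2) (P z) (P i) ∧ 0 < orient (P z) (P f.1) (P i)
  eqq : ∀ f ∈ d.eqs, ∀ z ∈ f.2.2.2.2, (0 < orient (P f.1) (P f.2.1) (P z) ↔
    0 < orient (P f.2.2.1) (P f.2.2.2.1) (P z))

lemma UD.c_mem {d : UD} (h0 : d.ch ≠ []) {i : ℕ} (h : i ≤ d.m) : d.c i ∈ d.ch := by
  have h1 : 0 < d.ch.length := List.length_pos_iff.2 h0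
  unfold UD.m at h
  unfold UD.c
  rw [List.getD_eq_getElem _ _ (by omega)]
  exact List.getElem_mem _

/-- The unnamed points are on the far side. -/
theorem UPatch.far {d : UD} {P : ℕ → Pt} {X : Finset Pt} (hp : UPatch d P X) {m : Bool}
    {a b i0 : ℕ} (ha : a ∈ d.rl) (hb : b ∈ d.rl ∨ b ∈ d.ch) (hab : a ≠ b)
    (hi0 : i0 ∈ d.rl) (h00 : i0 ≠ d.c 0) (h0V : i0 ≠ d.c d.m)
    (hs : 0 ≤ sd m (P a) (P b) (P i0))
    (hch : ∀ f ∈ d.ch, f = a ∨ f = b ∨ sd m (P a) (P b) (P f) < 0)
    {x : Pt} (hx : x ∈ X) (hun : ∀ i ∈ d.rl, x ≠ P i) :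
    sd m (P a) (P b) x < 0 := by
  by_contra hcon
  rw [not_lt] at hcon
  obtain ⟨j0, hj0, _⟩ := hp.near i0 hi0 h00 h0V
  have hne0 : d.ch ≠ [] := by
    intro h
    unfold UD.m at hj0
    rw [h] at hj0
    simp at hj0
  have hch' : ∀ f ∈ d.ch, sd m (P a) (P b) (P f) ≤ 0 := by
    intro f hf
    rcases hch f hf with rfl | rfl | h
    · rw [sd_left]
    · rw [sd_right]
    · exact h.le
  obtain ⟨s, hs0, hs1, i, hi, τ, hτ0, hτ1, he⟩ := cross_chain (m := d.m)
    (fun i => P (d.c i)) (P d.e0) (P d.eV)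
    hp.conv hp.in0 hp.inV
    (x := x) (y := P i0) (hp.out x hx hun) (hp.near i0 hi0 h00 h0V)
    (hp.end0 x hx) (hp.end0 _ (hp.real i0 hi0)) (hp.endV x hx) (hp.endV _ (hp.real i0 hi0))
  have h1 := congrArg (sd m (P a) (P b)) he
  rw [sd_seg, sd_seg] at h1
  have h2 := hch' _ (UD.c_mem hne0 (show i ≤ d.m by omega))
  have h3 := hch' _ (UD.c_mem hne0 (show i + 1 ≤ d.m by omega))
  have h4 : (1 - τ) * sd m (P a) (P b) (P (d.c i)) ≤ 0 :=
    mul_nonpos_of_nonneg_of_nonpos (by linarith) h2
  have h5 : τ * sd m (P a) (P b) (P (d.c (i + 1))) ≤ 0 :=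
    mul_nonpos_of_nonneg_of_nonpos hτ0 h3
  have h6 : 0 ≤ s * sd m (P a) (P b) (P i0) := mul_nonneg hs0.le hs
  have h7 : (1 - s) * sd m (P a) (P b) x ≤ 0 := by linarith
  have h8 : sd m (P a) (P b) x = 0 := by
    have h9 : 0 < 1 - s := by linarith
    nlinarith
  have h10 : orient (P a) (P b) x = 0 := by
    cases m
    · simpa [sd] using h8
    · simpa [sd] using h8
  have hxa : x ≠ P a := hun a ha
  have hblt : b < d.n := by
    rcases hb with h | h
    · exact hp.rlt b h
    · exact hp.clt b h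
  have hPab : P a ≠ P b := hp.gen.inj a b (hp.rlt a ha) hblt hab
  by_cases hbr : b ∈ d.rl
  · have hxb : x ≠ P b := hun b hbr
    exact orient_ne hp.gpX (hp.real a ha) (hp.real b hbr) hx hPab hxb.symm hxa.symm h10
  · have h11 := hp.gch b (hb.resolve_left hbr) hbr x hx (P a) (hp.real a ha) hxa
    apply h11
    rw [← orient_cyc] at h10
    rw [← h10]

/-- The check of one removal. -/
def cuU (d : UD) (li : ℕ → ℕ → ℕ → Bool) (D : List ℕ) (s : Cu) : Bool :=
  mb d.rl s.a && ((mb d.rl s.b || mb d.ch s.b) && (!Nat.beq s.a s.b && (mb s.t.pts s.x0 &&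
  (!Nat.beq s.x0 (d.c 0) && (!Nat.beq s.x0 (d.c d.m) && (nd s.t.pts &&
  (s.t.pts.all (fun x => mb d.rl x && !mb D x) &&
  (s.t.pts.all (fun x => Nat.beq x s.a || nr li s.m s.a s.b x) &&
  (d.rl.all (fun y => mb D y || (mb s.t.pts y || (Nat.beq y s.b || nr li (!s.m) s.a s.b y))) &&
  (d.ch.all (fun f => Nat.beq f s.a || (Nat.beq f s.b || nr li (!s.m) s.a s.b f)) &&
  s.t.chk d.n 7 10 [] li))))))))))

/-- The check of a sequence of removals. -/
def remU (d : UD) (t0 : List ℕ) (li : ℕ → ℕ → ℕ → Bool) : List Cu → List ℕ → ℕ → Bool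
  | [], D, c => mb t0 D.length && Nat.ble c (Nat.div D.length 4)
  | s :: ss, D, c => cuU d li D s && remU d t0 li ss (D ++ s.t.pts) (Nat.add c s.t.cost)

section
variable {d : UD} {P : ℕ → Pt} {X : Finset Pt} {li : ℕ → ℕ → ℕ → Bool}

lemma nr_gen {n : ℕ}
    (hli : ∀ i j k, i < n → j < n → k < n → li i j k = true → 0 < orient (P i) (P j) (P k))
    {m : Bool} {a b x : ℕ} (h1 : a < n) (h2 : b < n) (h3 : x < n)
    (h : nr li m a b x = true) : 0 < sd m (P a) (P b) (P x) := by
  cases m with
  | true => exact hli _ _ _ h1 h2 h3 h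
  | false =>
    have := hli _ _ _ h2 h1 h3 h
    rw [orient_swap] at this
    exact this

theorem cuU_sound (hp : UPatch d P X) (hF : Facts 7 10 [])
    (hli : ∀ i j k, i < d.n → j < d.n → k < d.n → li i j k = true →
      0 < orient (P i) (P j) (P k))
    {D : List ℕ} (hD : ∀ i ∈ D, i ∈ d.rl) {s : Cu}
    (h : cuU d li D s = true) :
    HCPle (P '' {i | i ∈ s.t.pts}) s.t.cost ∧
    left P X D = P '' {i | i ∈ s.t.pts} ∪ left P X (D ++ s.t.pts) ∧
    Disjoint (convexHull ℝ (P '' {i | i ∈ s.t.pts}))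
      (convexHull ℝ (left P X (D ++ s.t.pts))) := by
  simp only [cuU, Bool.and_eq_true, Bool.not_eq_true', List.all_eq_true,
    Bool.or_eq_true] at h
  obtain ⟨h1, h2, h3, h4, h5, h6, h7, h8, h9, h10, h11, h12⟩ := h
  have h1 := mb_iff.1 h1
  have h2' : s.b ∈ d.rl ∨ s.b ∈ d.ch := by
    rcases h2 with h2 | h2
    · exact Or.inl (mb_iff.1 h2)
    · exact Or.inr (mb_iff.1 h2)
  have h3' := nbeq_false h3
  have h5' := nbeq_false h5
  have h6' := nbeq_false h6
  have h4' := mb_iff.1 h4
  have h7' := nd_iff h7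
  have hreal : ∀ i ∈ s.t.pts, i ∈ d.rl := fun i hi => mb_iff.1 (h8 i hi).1
  have hnD : ∀ i ∈ s.t.pts, i ∉ D := fun i hi => mb_false (h8 i hi).2
  have ha' : s.a < d.n := hp.rlt _ h1
  have hb' : s.b < d.n := by
    rcases h2' with h | h
    · exact hp.rlt _ h
    · exact hp.clt _ h
  have hA := ct_gen hF hp.gen hli s.t (fun i hi => hp.rlt _ (hreal i hi)) h7' h12
  have heq : left P X D = P '' {i | i ∈ s.t.pts} ∪ left P X (D ++ s.t.pts) := by
    ext x
    simp only [left, Set.mem_union, Set.mem_image, Set.mem_ofPred_eq, List.mem_append]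
    constructor
    · rintro ⟨hx, hxD⟩
      by_cases hxA : ∃ i ∈ s.t.pts, P i = x
      · exact Or.inl hxA
      · right
        refine ⟨hx, ?_⟩
        rintro i (hi | hi)
        · exact hxD i hi
        · intro he
          exact hxA ⟨i, hi, he.symm⟩
    · rintro (⟨i, hi, rfl⟩ | ⟨hx, hxD⟩)
      · refine ⟨hp.real i (hreal i hi), ?_⟩
        intro j hj
        refine hp.gen.inj i j (hp.rlt _ (hreal i hi)) (hp.rlt _ (hD j hj)) ?_
        rintro rfl
        exact hnD i hi hj
      · exact ⟨hx, fun i hi => hxD i (Or.inl hi)⟩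
  refine ⟨hA, heq, ?_⟩
  -- the separation
  have hPab : P s.a ≠ P s.b := hp.gen.inj _ _ ha' hb' h3'
  have hsA : ∀ x ∈ P '' {i | i ∈ s.t.pts}, x ≠ P s.a → 0 < sd s.m (P s.a) (P s.b) x := by
    rintro x ⟨i, hi, rfl⟩ hx
    rcases h9 i hi with h | h
    · rw [Nat.beq_eq] at h
      have h' : i = s.a := h
      subst h'
      exact absurd rfl hx
    · exact nr_gen hli ha' hb' (hp.rlt _ (hreal i hi)) h
  have hch : ∀ f ∈ d.ch, f = s.a ∨ f = s.b ∨ sd s.m (P s.a) (P s.b) (P f) < 0 := by
    intro f hf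
    rcases h11 f hf with h | h | h
    · rw [Nat.beq_eq] at h
      exact Or.inl h
    · rw [Nat.beq_eq] at h
      exact Or.inr (Or.inl h)
    · right; right
      have := nr_gen hli ha' hb' (hp.clt _ hf) h
      rw [sd_not] at this
      linarith
  have hsB : ∀ x ∈ left P X (D ++ s.t.pts), x ≠ P s.b → sd s.m (P s.a) (P s.b) x < 0 := by
    rintro x ⟨hx, hxD⟩ hxb
    by_cases hun : ∀ i ∈ d.rl, x ≠ P i
    · refine hp.far h1 h2' h3' (hreal _ h4') h5' h6' ?_ hch hx hun
      by_cases hxa : s.x0 = s.a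
      · rw [hxa, sd_left]
      · refine (hsA _ ⟨s.x0, h4', rfl⟩ ?_).le
        exact hp.gen.inj _ _ (hp.rlt _ (hreal _ h4')) ha' hxa
    · push Not at hun
      obtain ⟨i, hi, rfl⟩ := hun
      rcases h10 i hi with h | h | h | h
      · exact absurd rfl (hxD i (List.mem_append.2 (Or.inl (mb_iff.1 h))))
      · exact absurd rfl (hxD i (List.mem_append.2 (Or.inr (mb_iff.1 h))))
      · rw [Nat.beq_eq] at h
        have h' : i = s.b := h
        subst h'
        exact absurd rfl hxb
      · have := nr_gen hli ha' hb' (hp.rlt _ hi) h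
        rw [sd_not] at this
        linarith
  cases hm : s.m with
  | true =>
    rw [hm] at hsA hsB
    exact hull_disjoint hPab hsA hsB
  | false =>
    rw [hm] at hsA hsB
    refine hull_disjoint' hPab ?_ ?_
    · intro x hx hxa
      have := hsA x hx hxa
      simp only [sd, cond_false] at this
      linarith
    · intro x hx hxb
      have := hsB x hx hxb
      simp only [sd, cond_false] at this
      linarith

theorem remU_sound (hp : UPatch d P X) (hF : Facts 7 10 []) {K : ℕ} {t0 t1 : List ℕ}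
    (hli : ∀ i j k, i < d.n → j < d.n → k < d.n → li i j k = true →
      0 < orient (P i) (P j) (P k))
    (hI : Irr X K t0 t1) : ∀ (ss : List Cu) (D : List ℕ) (c : ℕ),
    (∀ i ∈ D, i ∈ d.rl) → D.Nodup → remU d t0 li ss D c = true →
      ∃ k, c + k ≤ K ∧ HCPle (left P X D) k := by
  classical
  intro ss
  induction ss with
  | nil =>
    intro D c hD hnd h
    simp only [remU, Bool.and_eq_true, Nat.ble_eq] at h
    obtain ⟨h1, h3⟩ := h
    have hinj : Set.InjOn P (D.toFinset : Set ℕ) := by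
      intro i hi j hj hij
      by_contra hne
      have hi' := hp.rlt _ (hD i (List.mem_toFinset.1 hi))
      have hj' := hp.rlt _ (hD j (List.mem_toFinset.1 hj))
      exact hp.gen.inj i j hi' hj' hne hij
    have hsub : D.toFinset.image P ⊆ X := by
      intro x hx
      rw [Finset.mem_image] at hx
      obtain ⟨i, hi, rfl⟩ := hx
      exact hp.real i (hD i (List.mem_toFinset.1 hi))
    have hcard : (D.toFinset.image P).card = D.length := by
      rw [Finset.card_image_of_injOn hinj, List.toFinset_card_of_nodup hnd]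
    obtain ⟨k, hk1, hk2⟩ := hI.hR (X \ D.toFinset.image P) Finset.sdiff_subset D.length
      (mb_iff.1 h1)
      (by rw [Finset.card_sdiff_of_subset hsub, hcard]
          have := Finset.card_le_card hsub
          omega)
    refine ⟨k, ?_, ?_⟩
    · have h3' : c ≤ D.length / 4 := h3
      omega
    · have he : ((X \ D.toFinset.image P : Finset Pt) : Set Pt) = left P X D := by
        ext x
        simp only [left, Finset.coe_sdiff, Finset.coe_image, List.coe_toFinset, Set.mem_sdiff,
          Finset.mem_coe, Set.mem_image, Set.mem_ofPred_eq, not_exists, not_and]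
        constructor
        · rintro ⟨hx, h⟩
          exact ⟨hx, fun i hi he => h i hi he.symm⟩
        · rintro ⟨hx, h⟩
          exact ⟨hx, fun i hi he => h i hi he.symm⟩
      rw [← he]
      exact hk2
  | cons s ss ih =>
    intro D c hD hnd h
    simp only [remU, Bool.and_eq_true] at h
    obtain ⟨h1, h2⟩ := h
    have h0 := h1
    simp only [cuU, Bool.and_eq_true, Bool.not_eq_true', List.all_eq_true] at h0
    obtain ⟨_, _, _, _, _, _, h7, h8, _⟩ := h0
    have hD' : ∀ i ∈ D ++ s.t.pts, i ∈ d.rl := by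
      intro i hi
      rcases List.mem_append.1 hi with hi | hi
      · exact hD i hi
      · exact mb_iff.1 (h8 i hi).1
    have hnd' : (D ++ s.t.pts).Nodup := by
      rw [List.nodup_append]
      refine ⟨hnd, nd_iff h7, ?_⟩
      intro i hi j hj hij
      subst hij
      exact mb_false (h8 i hj).2 hi
    obtain ⟨k, hk1, hk2⟩ := ih (D ++ s.t.pts) (Nat.add c s.t.cost) hD' hnd' h2
    have hk1' : c + s.t.cost + k ≤ K := hk1
    obtain ⟨e1, e2, e3⟩ := cuU_sound hp hF hli hD h1
    refine ⟨s.t.cost + k, by omega, ?_⟩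
    rw [e2]
    exact e1.append hk2 e3

theorem remU_false (hp : UPatch d P X) (hF : Facts 7 10 []) {K : ℕ} {t0 t1 : List ℕ}
    (hli : ∀ i j k, i < d.n → j < d.n → k < d.n → li i j k = true →
      0 < orient (P i) (P j) (P k))
    (hI : Irr X K t0 t1) {ss : List Cu} (h : remU d t0 li ss [] 0 = true) : False := by
  obtain ⟨k, hk1, hk2⟩ := remU_sound hp hF hli hI ss [] 0 (by simp) List.nodup_nil h
  apply hI.hK
  rw [left_nil] at hk2
  exact hk2.mono (by omega)

end

/-- Three-term Grassmann-Pluecker relation. -/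
lemma orient_gp3 (a b c d e : Pt) : orient a b c * orient a d e - orient a b d * orient a c e +
    orient a b e * orient a c d = 0 := by
  unfold orient; ring

/-- The relation of four points. -/
lemma orient_ac4 (a b c d : Pt) : orient b c d - orient a c d + orient a b d -
    orient a b c = 0 := by
  unfold orient; ring

/-- Theory justifications for unsorted patches. -/
inductive ThU : Type
  | gp (a b c d e : ℕ) (s1 s2 s3 : Bool) : ThU
  | ac (a b c d : ℕ) : ThU
  | row (a b z : ℕ) : ThU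
  | eqq (a b c d z : ℕ) (w : Bool) : ThU
  | cnt (a b : ℕ) (I : List ℕ) : ThU
  | fa (a b : ℕ) (w : List (ℕ × ℕ × Bool)) : ThU
  | rem (ss : List Cu) : ThU

/-- The theory check of unsorted patches. -/
def thu (d : UD) (t0 : List ℕ) : ThU → ℕ → ℕ → Bool
  | .gp a b c e f s1 s2 s3, T, F => lt' a d.n && (lt' b d.n && (lt' c d.n && (lt' e d.n &&
      (lt' f d.n &&
      ((match s1 with
        | true => liU T F a b c && liU T F a e f
        | false => liU T F b a c && liU T F e a f) &&
      ((match s2 with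
        | true => liU T F a b e && liU T F c a f
        | false => liU T F b a e && liU T F a c f) &&
      (match s3 with
        | true => liU T F a b f && liU T F a c e
        | false => liU T F b a f && liU T F c a e)))))))
  | .ac a b c e, T, F => lt' a d.n && (lt' b d.n && (lt' c d.n && (lt' e d.n &&
      (liU T F b c e && (liU T F c a e && (liU T F a b e && liU T F b a c))))))
  | .row a b z, T, F => d.rows.any (fun f => Nat.beq f.1 a && (Nat.beq f.2.1 b &&
      mb f.2.2 z)) && (lt' a d.n && (lt' b d.n && (lt' z d.n && liU T F b a z)))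
  | .eqq a b c e z w, T, F => d.eqs.any (fun f => Nat.beq f.1 a && (Nat.beq f.2.1 b &&
      (Nat.beq f.2.2.1 c && (Nat.beq f.2.2.2.1 e && mb f.2.2.2.2 z)))) &&
      (lt' a d.n && (lt' b d.n && (lt' c d.n && (lt' e d.n && (lt' z d.n &&
      (match w with
        | true => liU T F a b z && liU T F e c z
        | false => liU T F b a z && liU T F c e z))))))
  | .cnt a b I, T, F => d.ubs.any (fun f => Nat.beq f.1 a && (Nat.beq f.2.1 b &&
      (lt' f.2.2.1 I.length && I.all (mb f.2.2.2)))) && (lt' a d.n && (lt' b d.n &&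
      (nd I && I.all (fun i => lt' i d.n && liU T F b a i))))
  | .fa a b w, T, F => mp d.fas a b && (lt' a d.n && (lt' b d.n &&
      d.rl.all (fun i => Nat.beq i a || (Nat.beq i b || w.any (fun v => Nat.beq v.1 i &&
        (mb d.rl v.2.1 && (!Nat.beq v.2.1 i && (!Nat.beq v.2.1 a && (!Nat.beq v.2.1 b &&
        (match v.2.2 with
          | true => liU T F v.2.1 b i
          | false => liU T F a v.2.1 i))))))))))
  | .rem ss, T, F => remU d t0 (liU T F) ss [] 0

theorem thu_sound {d : UD} {P : ℕ → Pt} {X : Finset Pt} (hp : UPatch d P X)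
    (hF : Facts 7 10 []) {K : ℕ} {t0 t1 : List ℕ} (hI : Irr X K t0 t1) :
    ∀ (x : ThU) (T F : ℕ), Asg (valU P) T F → thu d t0 x T F = true → False := by
  intro x T F ha h
  have hli : ∀ i j k, i < d.n → j < d.n → k < d.n → liU T F i j k = true →
      0 < orient (P i) (P j) (P k) := fun i j k hi hj hk h => liU_sound hp.gen ha hi hj hk h
  have hln : ∀ i j k, i < d.n → j < d.n → k < d.n → liU T F j i k = true →
      orient (P i) (P j) (P k) < 0 := by
    intro i j k hi hj hk h
    have := hli j i k hj hi hk h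
    rw [orient_swap] at this
    linarith
  cases x with
  | gp a b c e f s1 s2 s3 =>
    simp only [thu, Bool.and_eq_true, lt'_iff] at h
    obtain ⟨h1, h2, h3, h4, h5, h6, h7, h8⟩ := h
    have key := orient_gp3 (P a) (P b) (P c) (P e) (P f)
    have k1 : 0 < orient (P a) (P b) (P c) * orient (P a) (P e) (P f) := by
      cases s1 with
      | true =>
        simp only [Bool.and_eq_true] at h6
        exact mul_pos (hli _ _ _ h1 h2 h3 h6.1) (hli _ _ _ h1 h4 h5 h6.2)
      | false =>
        simp only [Bool.and_eq_true] at h6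
        exact mul_pos_of_neg_of_neg (hln _ _ _ h1 h2 h3 h6.1) (hln _ _ _ h1 h4 h5 h6.2)
    have k2 : orient (P a) (P b) (P e) * orient (P a) (P c) (P f) < 0 := by
      cases s2 with
      | true =>
        simp only [Bool.and_eq_true] at h7
        exact mul_neg_of_pos_of_neg (hli _ _ _ h1 h2 h4 h7.1) (hln _ _ _ h1 h3 h5 h7.2)
      | false =>
        simp only [Bool.and_eq_true] at h7
        exact mul_neg_of_neg_of_pos (hln _ _ _ h1 h2 h4 h7.1) (hli _ _ _ h1 h3 h5 h7.2)
    have k3 : 0 < orient (P a) (P b) (P f) * orient (P a) (P c) (P e) := by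
      cases s3 with
      | true =>
        simp only [Bool.and_eq_true] at h8
        exact mul_pos (hli _ _ _ h1 h2 h5 h8.1) (hli _ _ _ h1 h3 h4 h8.2)
      | false =>
        simp only [Bool.and_eq_true] at h8
        exact mul_pos_of_neg_of_neg (hln _ _ _ h1 h2 h5 h8.1) (hln _ _ _ h1 h3 h4 h8.2)
    linarith
  | ac a b c e =>
    simp only [thu, Bool.and_eq_true, lt'_iff] at h
    obtain ⟨h1, h2, h3, h4, h5, h6, h7, h8⟩ := h
    have key := orient_ac4 (P a) (P b) (P c) (P e)
    have k1 := hli _ _ _ h2 h3 h4 h5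
    have k2 := hln _ _ _ h1 h3 h4 h6
    have k3 := hli _ _ _ h1 h2 h4 h7
    have k4 := hln _ _ _ h1 h2 h3 h8
    linarith
  | row a b z =>
    simp only [thu, Bool.and_eq_true, lt'_iff, List.any_eq_true] at h
    obtain ⟨⟨f, hf, f1, f2, f3⟩, h2, h3, h4, h5⟩ := h
    rw [Nat.beq_eq] at f1 f2
    have f1' : f.1 = a := f1
    have f2' : f.2.1 = b := f2
    have e1 := hp.row f hf z (mb_iff.1 f3)
    rw [f1', f2'] at e1
    have e2 := hln _ _ _ h2 h3 h4 h5
    linarith
  | eqq a b c e z w =>
    simp only [thu, Bool.and_eq_true, lt'_iff, List.any_eq_true] at h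
    obtain ⟨⟨f, hf, f1, f2, f3, f4, f5⟩, h2, h3, h4, h5, h6, h7⟩ := h
    rw [Nat.beq_eq] at f1 f2 f3 f4
    have f1' : f.1 = a := f1
    have f2' : f.2.1 = b := f2
    have f3' : f.2.2.1 = c := f3
    have f4' : f.2.2.2.1 = e := f4
    have e1 := hp.eqq f hf z (mb_iff.1 f5)
    rw [f1', f2', f3', f4'] at e1
    cases w with
    | true =>
      simp only [Bool.and_eq_true] at h7
      have k1 := hli _ _ _ h2 h3 h6 h7.1
      have k2 := hln _ _ _ h4 h5 h6 h7.2
      have := e1.1 k1
      linarith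
    | false =>
      simp only [Bool.and_eq_true] at h7
      have k1 := hln _ _ _ h2 h3 h6 h7.1
      have k2 := hli _ _ _ h4 h5 h6 h7.2
      have := e1.2 k2
      linarith
  | cnt a b I =>
    simp only [thu, Bool.and_eq_true, lt'_iff, List.any_eq_true, List.all_eq_true] at h
    obtain ⟨⟨f, hf, f1, f2, f3, f4⟩, h2, h3, h4, h5⟩ := h
    rw [Nat.beq_eq] at f1 f2
    have f1' : f.1 = a := f1
    have f2' : f.2.1 = b := f2
    have e1 := hp.ub f hf I.toFinset (by
      intro i hi
      rw [List.mem_toFinset] at hi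
      refine ⟨mb_iff.1 (f4 i hi), ?_⟩
      rw [f1', f2']
      exact hln _ _ _ h2 h3 (h5 i hi).1 (h5 i hi).2)
    rw [List.toFinset_card_of_nodup (nd_iff h4)] at e1
    omega
  | fa a b w =>
    simp only [thu, Bool.and_eq_true, lt'_iff, List.all_eq_true, Bool.or_eq_true,
      List.any_eq_true, Bool.not_eq_true'] at h
    obtain ⟨h1, h2, h3, h4⟩ := h
    obtain ⟨i, i1, i2, i3, i4⟩ := hp.fa _ (mp_iff h1)
    simp only at i2 i3 i4
    rcases h4 i i1 with h | h | ⟨v, hv, k1, k2, k3, k4, k5, k6⟩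
    · rw [Nat.beq_eq] at h
      exact i2 h
    · rw [Nat.beq_eq] at h
      exact i3 h
    · rw [Nat.beq_eq] at k1
      have k2' := mb_iff.1 k2
      have e1 := i4 v.2.1 k2' (nbeq_false k3) (nbeq_false k4) (nbeq_false k5)
      cases hw : v.2.2 with
      | true =>
        rw [hw] at k6
        have e2 := hln _ _ _ h3 (hp.rlt _ k2') (hp.rlt _ i1) k6
        linarith [e1.1]
      | false =>
        rw [hw] at k6
        have e2 := hln _ _ _ (hp.rlt _ k2') h2 (hp.rlt _ i1) k6
        linarith [e1.2]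
  | rem ss => exact remU_false hp hF hli hI h

end Pool.Agent.GCP
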