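import Pool.Agent.GCP.Chk

/-!
# One step of the sweep and its check (MP_062f91_co)
-/

namespace Pool.Agent.GCP

namespace Win

/-! ### the renaming of the variables by a swap -/

/-- the swap on positions -/
def sj (j i : ℕ) : ℕ := if i = j then j + 1 else if i = j + 1 then j else i

lemma sj_eq (j i : ℕ) : Equiv.swap j (j + 1) i = sj j i := by
  rw [Equiv.swap_apply_def]; rfl

/-- check of the renaming table, `m` blocks of labels -/
def mapTab (M j m : ℕ) : Bool :=
  ((List.range 8).all fun c => (List.range c).all fun b => (List.range b).all fun a =>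
    Nat.beq (RT.me M (ix a b c))
      (if (a = j ∧ b = j + 1) ∨ (b = j ∧ c = j + 1) then 2 * ix a b c + 1
        else 2 * ix (sj j a) (sj j b) (sj j c))) &&
  ((List.range m).all fun q => (List.range 8).all fun i =>
    Nat.beq (RT.me M (56 + 8 * q + i)) (2 * (56 + 8 * q + sj j i)))

/-- every number below 56 is a variable of a triple -/
def triTab : Bool := (List.range 56).all fun v =>
  (List.range 8).any fun c => (List.range c).any fun b => (List.range b).any fun a =>
    Nat.beq (ix a b c) v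

lemma triTab_true : triTab = true := by decide +kernel

lemma exists_tri {v : ℕ} (hv : v < 56) : ∃ a b c, a < b ∧ b < c ∧ c < 8 ∧ ix a b c = v := by
  have h := triTab_true
  simp only [triTab, List.all_eq_true, List.any_eq_true, List.mem_range, Nat.beq_eq] at h
  obtain ⟨c, hc, b, hb, a, ha, h⟩ := h v hv
  exact ⟨a, b, c, ha, hb, hc, h⟩

lemma me_even {M v e : ℕ} (h : RT.me M v = 2 * e) (σ : ℕ → Prop) : RT.ren M σ v ↔ σ e := by
  unfold RT.ren
  have h1 : tb (RT.me M v) 0 = false := by
    rw [h]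
    unfold tb
    have : Nat.land (Nat.shiftRight (2 * e) 0) 1 = 0 := by
      change ((2 * e) >>> 0) &&& 1 = 0
      rw [Nat.shiftRight_zero, Nat.and_one_is_mod]
      omega
    rw [this]; rfl
  have h2 : Nat.shiftRight (RT.me M v) 1 = e := by
    rw [h]
    change (2 * e) >>> 1 = e
    rw [Nat.shiftRight_eq_div_pow]; omega
  rw [h1, h2]
  simp

lemma me_odd {M v e : ℕ} (h : RT.me M v = 2 * e + 1) (σ : ℕ → Prop) : RT.ren M σ v ↔ ¬ σ e := by
  unfold RT.ren
  have h1 : tb (RT.me M v) 0 = true := by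
    rw [h]
    unfold tb
    have : Nat.land (Nat.shiftRight (2 * e + 1) 0) 1 = 1 := by
      change ((2 * e + 1) >>> 0) &&& 1 = 1
      rw [Nat.shiftRight_zero, Nat.and_one_is_mod]
      omega
    rw [this]; rfl
  have h2 : Nat.shiftRight (RT.me M v) 1 = e := by
    rw [h]
    change (2 * e + 1) >>> 1 = e
    rw [Nat.shiftRight_eq_div_pow]; omega
  rw [h1, h2]
  simp

section
variable {X : Finset Pt} {w : Pt} {P P' : ℕ → Pt} {L : ℕ → Pt → Prop}

lemma ren_sound (hX : GeneralPosition X) (hn : 8 ≤ X.card) {j : ℕ}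
    (hj : j < 7) (hst : Stp X w j P P') {M m : ℕ} (hM : mapTab M j m = true) {v : ℕ}
    (hv : v < 56 + 8 * m) : vw L P' v ↔ RT.ren M (vw L P) v := by
  simp only [mapTab, Bool.and_eq_true, List.all_eq_true, List.mem_range, Nat.beq_eq] at hM
  obtain ⟨hM1, hM2⟩ := hM
  by_cases hv' : v < 56
  · obtain ⟨a, b, c, hab, hbc, hc, rfl⟩ := exists_tri hv'
    have h := hM1 c hc b hbc a hab
    rw [vw_ix L P' hab hbc hc]
    have e : ∀ i, P' i = P (sj j i) := fun i => by rw [hst.eq i, sj_eq]
    rw [e, e, e]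
    have hne : ∀ {x y z : ℕ}, x < 8 → y < 8 → z < 8 → x ≠ y → y ≠ z → x ≠ z →
        orient (P x) (P y) (P z) ≠ 0 := by
      intro x y z hx hy hz h1 h2 h3
      exact srt_gp hX hst.s (by omega) (by omega) (by omega) h1 h2 h3
    by_cases h1 : (a = j ∧ b = j + 1) ∨ (b = j ∧ c = j + 1)
    · rw [if_pos h1] at h
      rw [me_odd h, vw_ix L P hab hbc hc]
      have hn0 := hne (show a < 8 by omega) (show b < 8 by omega) hc (by omega) (by omega)
        (by omega)
      have hneg : orient (P (sj j a)) (P (sj j b)) (P (sj j c)) = - orient (P a) (P b) (P c) := by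
        rcases h1 with ⟨rfl, rfl⟩ | ⟨rfl, rfl⟩
        · have e1 : sj a a = a + 1 := by unfold sj; rw [if_pos rfl]
          have e2 : sj a (a + 1) = a := by unfold sj; rw [if_neg (by omega), if_pos rfl]
          have e3 : sj a c = c := by unfold sj; rw [if_neg (by omega), if_neg (by omega)]
          rw [e1, e2, e3]
          exact orient_swap _ _ _
        · have e1 : sj b a = a := by unfold sj; rw [if_neg (by omega), if_neg (by omega)]
          have e2 : sj b b = b + 1 := by unfold sj; rw [if_pos rfl]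
          have e3 : sj b (b + 1) = b := by unfold sj; rw [if_neg (by omega), if_pos rfl]
          rw [e1, e2, e3]
          exact orient_swap' _ _ _
      rw [hneg]
      constructor
      · intro h2 h3; linarith
      · intro h2
        have := lt_of_le_of_ne (not_lt.1 h2) hn0
        linarith
    · rw [if_neg h1] at h
      rw [me_even h]
      have k1 : sj j a < sj j b := by unfold sj; split_ifs <;> omega
      have k2 : sj j b < sj j c := by unfold sj; split_ifs <;> omega
      have k3 : sj j c < 8 := by unfold sj; split_ifs <;> omega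
      rw [vw_ix L P k1 k2 k3]
  · obtain ⟨q, i, hq, hi, rfl⟩ : ∃ q i, q < m ∧ i < 8 ∧ v = 56 + 8 * q + i :=
      ⟨(v - 56) / 8, (v - 56) % 8, by omega, by omega, by omega⟩
    have h := hM2 q hq i hi
    rw [vw_lab L P' hi, me_even h]
    have k : sj j i < 8 := by unfold sj; split_ifs <;> omega
    rw [vw_lab L P k, hst.eq i, sj_eq]

/-! ### initial masks -/

/-- signs which are true at a swap -/
def mT (j : ℕ) : ℕ := (List.range 8).foldl
  (fun m c => if j + 1 < c then Nat.lor m (Nat.pow 2 (ix j (j + 1) c)) else m) 0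

/-- signs which are false at a swap -/
def mF (j : ℕ) : ℕ := (List.range 8).foldl
  (fun m c => if c < j then Nat.lor m (Nat.pow 2 (ix c j (j + 1))) else m) 0

lemma pow_bit {d v : ℕ} (hv : (Nat.pow 2 d).testBit v = true) : v = d := by
  have hv' : (2 ^ d).testBit v = true := hv
  rw [Nat.testBit_two_pow] at hv'
  simp only [decide_eq_true_eq] at hv'
  exact hv'.symm

lemma init_asg (hX : GeneralPosition X) (hn : 8 ≤ X.card) (hw : w ≠ 0) {j : ℕ} (hj : j < 7)
    (hst : Stp X w j P P') : Asg (vw L P) (mT j) (mF j) := by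
  obtain ⟨s1, s2⟩ := swap_sign hX hw hst
  have hT : ∀ (l : List ℕ) (m F : ℕ), (∀ c ∈ l, c < 8) → Asg (vw L P) m F →
      Asg (vw L P) (l.foldl
        (fun m c => if j + 1 < c then Nat.lor m (Nat.pow 2 (ix j (j + 1) c)) else m) m) F := by
    intro l
    induction l with
    | nil => intro m F _ h; exact h
    | cons c l ih =>
      intro m F hc h
      rw [List.foldl_cons]
      refine ih _ F (fun x hx => hc x (by simp [hx])) ?_
      by_cases h1 : j + 1 < c
      · rw [if_pos h1]
        refine h.orT (fun v hv => ?_)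
        rw [pow_bit hv]
        have hc8 := hc c (by simp)
        exact (vw_ix L P (by omega) h1 hc8).2 (s2 c h1 (by omega))
      · rw [if_neg h1]; exact h
  have hF : ∀ (l : List ℕ) (m T : ℕ), (∀ c ∈ l, c < 8) → Asg (vw L P) T m →
      Asg (vw L P) T (l.foldl
        (fun m c => if c < j then Nat.lor m (Nat.pow 2 (ix c j (j + 1))) else m) m) := by
    intro l
    induction l with
    | nil => intro m T _ h; exact h
    | cons c l ih =>
      intro m T hc h
      rw [List.foldl_cons]
      refine ih _ T (fun x hx => hc x (by simp [hx])) ?_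
      by_cases h1 : c < j
      · rw [if_pos h1]
        refine h.orF (fun v hv => ?_)
        rw [pow_bit hv, vw_ix L P h1 (by omega) (by omega)]
        have := s1 c h1
        linarith
      · rw [if_neg h1]; exact h
  exact hT _ _ _ (fun c hc => List.mem_range.1 hc)
    (hF _ _ _ (fun c hc => List.mem_range.1 hc) (Asg.zero _))

/-! ### four points -/

lemma k1_four (hf : WF P) {d : ℕ} (hd : 2 < d) (hd8 : d < 8)
    (hK : ¬ IsConvexPolygon (([0, 1, 2, d] : List ℕ).toFinset.image P)) :
    ¬ (vw L P (ix 0 1 2) ∧ vw L P (ix 1 2 d)) ∧ ¬ (¬ vw L P (ix 0 1 2) ∧ ¬ vw L P (ix 1 2 d)) ∧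
    ¬ (vw L P (ix 0 1 d) ∧ ¬ vw L P (ix 0 2 d)) ∧ ¬ (¬ vw L P (ix 0 1 d) ∧ vw L P (ix 0 2 d)) := by
  classical
  rw [vw_ix L P (by omega : 0 < 1) (by omega : 1 < 2) (by omega : 2 < 8),
    vw_ix L P (by omega : 1 < 2) hd hd8, vw_ix L P (by omega : 0 < 1) (by omega : 1 < d) hd8,
    vw_ix L P (by omega : 0 < 2) hd hd8]
  have hs := hf.sig 1 2 3 (d + 1) (by omega) (by omega) (by omega) (by omega) (by omega)
  simp only [Nat.add_sub_cancel, show 2 - 1 = 1 from rfl, show 3 - 1 = 2 from rfl,
    show 1 - 1 = 0 from rfl] at hs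
  obtain ⟨⟨a1, a2⟩, ⟨a3, a4⟩, ⟨a5, a6⟩, a7, a8⟩ := hs
  have g1 := hf.gp 0 1 2 (by omega) (by omega) (by omega) (by omega) (by omega) (by omega)
  have g2 := hf.gp 0 1 d (by omega) (by omega) (by omega) (by omega) (by omega) (by omega)
  have g3 := hf.gp 0 2 d (by omega) (by omega) (by omega) (by omega) (by omega) (by omega)
  have g4 := hf.gp 1 2 d (by omega) (by omega) (by omega) (by omega) (by omega) (by omega)
  -- convex position from four orientations
  have conv : ∀ x y z t : ℕ, [x, y, z, t].Perm [0, 1, 2, d] → 0 < orient (P x) (P y) (P z) →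
      0 < orient (P y) (P z) (P t) → 0 < orient (P z) (P t) (P x) →
      0 < orient (P t) (P x) (P y) → False := by
    intro x y z t hp e1 e2 e3 e4
    have hmem : ∀ i ∈ [x, y, z, t], i < 8 := by
      intro i hi
      have := (hp.mem_iff (a := i)).1 hi
      simp only [List.mem_cons, List.not_mem_nil, or_false] at this
      omega
    have hnd : [x, y, z, t].Nodup := by
      rw [hp.nodup_iff]
      simp only [List.nodup_cons, List.mem_cons, List.not_mem_nil, or_false, not_or, List.nodup_nil,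
        and_true, not_false_iff]
      omega
    have hl := leaf_sound (P := P) (n := 8) hf.inj hf.gp
      (lit := fun i j k => decide (0 < orient (P i) (P j) (P k)))
      (fun i j k _ _ _ h => by simpa using h) hmem hnd (by
        simp only [leafOK, Bool.and_eq_true, decide_eq_true_eq]
        exact ⟨⟨⟨e1, e2⟩, e3⟩, e4⟩)
    apply hK
    have : ([x, y, z, t] : List ℕ).toFinset = [0, 1, 2, d].toFinset :=
      List.toFinset_eq_of_perm _ _ hp
    rw [← this]
    exact hl.2
  have c1 : ∀ a b c : Pt, orient b c a = orient a b c := orient_cyc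
  have sw1 : ∀ a b c : Pt, orient b a c = -orient a b c := orient_swap
  have neg : ∀ {x : ℝ}, x ≠ 0 → ¬ 0 < x → x < 0 := fun h1 h2 => lt_of_le_of_ne (not_lt.1 h2) h1
  refine ⟨?_, ?_, ?_, ?_⟩
  · rintro ⟨h1, h2⟩
    have h3 : 0 < orient (P 0) (P 2) (P d) := by
      by_contra h; exact a3 ⟨h2, h, h1⟩
    have h4 : 0 < orient (P 0) (P 1) (P d) := by
      by_contra h; exact a5 ⟨h2, h, h1⟩
    refine conv 0 1 2 d (List.Perm.refl _) h1 h2 ?_ ?_
    · rw [c1]; exact h3
    · rw [← c1]; exact h4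
  · rintro ⟨h1, h2⟩
    have h3 : ¬ 0 < orient (P 0) (P 2) (P d) := fun h => a4 ⟨h2, h, h1⟩
    have h4 : ¬ 0 < orient (P 0) (P 1) (P d) := fun h => a6 ⟨h2, h, h1⟩
    have b1 := neg g1 h1
    have b2 := neg g2 h4
    have b3 := neg g3 h3
    have b4 := neg g4 h2
    refine conv d 2 1 0 ?_ ?_ ?_ ?_ ?_
    · exact (List.reverse_perm [0, 1, 2, d])
    · have : orient (P d) (P 2) (P 1) = - orient (P 1) (P 2) (P d) := by unfold orient; ring
      linarith
    · have : orient (P 2) (P 1) (P 0) = - orient (P 0) (P 1) (P 2) := by unfold orient; ring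
      linarith
    · have : orient (P 1) (P 0) (P d) = - orient (P 0) (P 1) (P d) := by unfold orient; ring
      linarith
    · have : orient (P 0) (P d) (P 2) = - orient (P 0) (P 2) (P d) := by unfold orient; ring
      linarith
  · rintro ⟨h1, h2⟩
    have h3 : 0 < orient (P 0) (P 1) (P 2) := by
      by_contra h; exact a8 ⟨h2, h1, h⟩
    have h4 : ¬ 0 < orient (P 1) (P 2) (P d) := fun h => a1 ⟨h, h2, h1⟩
    have b3 := neg g3 h2
    have b4 := neg g4 h4
    refine conv 0 1 d 2 ?_ h1 ?_ ?_ ?_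
    · exact (List.Perm.cons 0 (List.Perm.cons 1 (List.Perm.swap 2 d [])))
    · have : orient (P 1) (P d) (P 2) = - orient (P 1) (P 2) (P d) := by unfold orient; ring
      linarith
    · have : orient (P d) (P 2) (P 0) = - orient (P 0) (P 2) (P d) := by unfold orient; ring
      linarith
    · have : orient (P 2) (P 0) (P 1) = orient (P 0) (P 1) (P 2) := by unfold orient; ring
      linarith
  · rintro ⟨h1, h2⟩
    have h3 : ¬ 0 < orient (P 0) (P 1) (P 2) := fun h => a7 ⟨h2, h1, h⟩
    have h4 : 0 < orient (P 1) (P 2) (P d) := by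
      by_contra h; exact a2 ⟨h, h2, h1⟩
    have b1 := neg g1 h3
    have b2 := neg g2 h1
    refine conv 0 2 d 1 ?_ h2 ?_ ?_ ?_
    · refine List.Perm.cons 0 ?_
      exact (List.perm_append_comm (l₁ := [2, d]) (l₂ := [1]))
    · have : orient (P 2) (P d) (P 1) = orient (P 1) (P 2) (P d) := by unfold orient; ring
      linarith
    · have : orient (P d) (P 1) (P 0) = - orient (P 0) (P 1) (P d) := by unfold orient; ring
      linarith
    · have : orient (P 1) (P 0) (P 2) = - orient (P 0) (P 1) (P 2) := by unfold orient; ring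
      linarith

end

/-- the entries `560` to `567` of the table -/
def k1Tab (E : ℕ) : Bool :=
  Nat.beq (eT E 560) 9 && (Nat.beq (eF E 560) 0 && (Nat.beq (eT E 561) 0 && (Nat.beq (eF E 561) 9 &&
  (Nat.beq (eT E 562) 2 && (Nat.beq (eF E 562) 4 && (Nat.beq (eT E 563) 4 && (Nat.beq (eF E 563) 2 &&
  (Nat.beq (eT E 564) 65 && (Nat.beq (eF E 564) 0 && (Nat.beq (eT E 565) 0 && (Nat.beq (eF E 565) 65 &&
  (Nat.beq (eT E 566) 16 && (Nat.beq (eF E 566) 32 && (Nat.beq (eT E 567) 32 &&
    Nat.beq (eF E 567) 16))))))))))))))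

section
variable {X : Finset Pt} {w : Pt} {P P' : ℕ → Pt} {L : ℕ → Pt → Prop}

lemma k1Tab_sound {E : ℕ} (h : k1Tab E = true) (hf : WF P)
    (hK : ¬ IsConvexPolygon (([0, 1, 2, 3] : List ℕ).toFinset.image P)) {k : ℕ} (h1 : 560 ≤ k)
    (h2 : k < 564) : ¬ Asg (vw L P) (eT E k) (eF E k) := by
  intro ha
  simp only [k1Tab, Bool.and_eq_true, Nat.beq_eq] at h
  obtain ⟨t0, f0, t1, f1, t2, f2, t3, f3, -⟩ := h
  obtain ⟨k0, k1, k2, k3⟩ := k1_four (L := L) hf (d := 3) (by omega) (by omega) hK
  have i1 : ix 0 1 2 = 0 := by decide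
  have i2 : ix 1 2 3 = 3 := by decide
  have i3 : ix 0 1 3 = 1 := by decide
  have i4 : ix 0 2 3 = 2 := by decide
  rw [i1, i2] at k0 k1
  rw [i3, i4] at k2 k3
  have hk : k = 560 ∨ k = 561 ∨ k = 562 ∨ k = 563 := by omega
  rcases hk with rfl | rfl | rfl | rfl
  · rw [t0, f0] at ha
    exact k0 ⟨(ha 0).1 (by decide), (ha 3).1 (by decide)⟩
  · rw [t1, f1] at ha
    exact k1 ⟨(ha 0).2 (by decide), (ha 3).2 (by decide)⟩
  · rw [t2, f2] at ha
    exact k2 ⟨(ha 1).1 (by decide), (ha 2).2 (by decide)⟩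
  · rw [t3, f3] at ha
    exact k3 ⟨(ha 1).2 (by decide), (ha 2).1 (by decide)⟩

lemma k1Tab_sound' {E : ℕ} (h : k1Tab E = true) (hf : WF P)
    (hK : ¬ IsConvexPolygon (([0, 1, 2, 4] : List ℕ).toFinset.image P)) {k : ℕ} (h1 : 564 ≤ k)
    (h2 : k < 568) : ¬ Asg (vw L P) (eT E k) (eF E k) := by
  intro ha
  simp only [k1Tab, Bool.and_eq_true, Nat.beq_eq] at h
  obtain ⟨-, -, -, -, -, -, -, -, t0, f0, t1, f1, t2, f2, t3, f3⟩ := h
  obtain ⟨k0, k1, k2, k3⟩ := k1_four (L := L) hf (d := 4) (by omega) (by omega) hK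
  have i1 : ix 0 1 2 = 0 := by decide
  have i2 : ix 1 2 4 = 6 := by decide
  have i3 : ix 0 1 4 = 4 := by decide
  have i4 : ix 0 2 4 = 5 := by decide
  rw [i1, i2] at k0 k1
  rw [i3, i4] at k2 k3
  have hk : k = 564 ∨ k = 565 ∨ k = 566 ∨ k = 567 := by omega
  rcases hk with rfl | rfl | rfl | rfl
  · rw [t0, f0] at ha
    exact k0 ⟨(ha 0).1 (by decide), (ha 6).1 (by decide)⟩
  · rw [t1, f1] at ha
    exact k1 ⟨(ha 0).2 (by decide), (ha 6).2 (by decide)⟩
  · rw [t2, f2] at ha
    exact k2 ⟨(ha 4).1 (by decide), (ha 5).2 (by decide)⟩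
  · rw [t3, f3] at ha
    exact k3 ⟨(ha 4).2 (by decide), (ha 5).1 (by decide)⟩

/-! ### the hypotheses on cuts -/

/-- No line cuts off exactly eight points which are two convex polygons. -/
def K2 (X : Finset Pt) : Prop :=
  ∀ S : Finset Pt, S ⊆ X → S.card = 8 →
    Disjoint (convexHull ℝ (S : Set Pt)) (convexHull ℝ ((X \ S : Finset Pt) : Set Pt)) →
      ¬ HCPle (S : Set Pt) 2

lemma card_top (h : Srt X w P) {k : ℕ} (hk : k ≤ X.card) :
    ((Finset.range k).image P).card = k ∧ (Finset.range k).image P ⊆ X := by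
  classical
  constructor
  · rw [Finset.card_image_of_injOn]
    · simp
    · intro i hi j hj hij
      rw [Finset.coe_range, Set.mem_Iio] at hi hj
      exact h.inj i j (by omega) (by omega) hij
  · intro x hx
    rw [Finset.mem_image] at hx
    obtain ⟨i, hi, rfl⟩ := hx
    exact h.mem i (by have := Finset.mem_range.1 hi; omega)

lemma k1_srt (hX : GeneralPosition X) (hn : 9 ≤ X.card) (hK1 : K1 X) (hw : w ≠ 0)
    (h : Srt X w P) : ¬ IsConvexPolygon (([0, 1, 2, 3] : List ℕ).toFinset.image P) := by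
  have e : ([0, 1, 2, 3] : List ℕ).toFinset = Finset.range 4 := by decide
  rw [e]
  obtain ⟨c1, c2⟩ := card_top h (k := 4) (by omega)
  exact hK1 _ c2 c1 (top_cut hX hw h (by omega) (by omega))

lemma k2_srt (hX : GeneralPosition X) (hn : 9 ≤ X.card) (hK2 : K2 X) (hw : w ≠ 0)
    (h : Srt X w P) : ¬ HCPle (P '' {i | i < 8}) 2 := by
  obtain ⟨c1, c2⟩ := card_top h (k := 8) (by omega)
  have h1 := hK2 _ c2 c1 (top_cut hX hw h (by omega) (by omega))
  have e : (((Finset.range 8).image P : Finset Pt) : Set Pt) = P '' {i | i < 8} := by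
    rw [Finset.coe_image]
    congr 1
    ext i
    simp
  rw [e] at h1
  exact h1

/-! ### leaves -/

/-- the entry `k` may be used for the swap `j` -/
def kOK (j N k : ℕ) : Bool :=
  Nat.blt k 564 || ((Nat.beq j 3 && Nat.blt k 568) || (Nat.ble 568 k && Nat.blt k (Nat.add 568 N)))

/-- a leaf which is a falsified clause of the table -/
def lfE (E j N k r T F : ℕ) : ℕ :=
  Bool.rec (motive := fun _ => ℕ) 0
    (Bool.rec (motive := fun _ => ℕ) 0
      (Bool.rec (motive := fun _ => ℕ) 0 (Nat.succ r) (sub (eF E k) F))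
      (sub (eT E k) T)) (kOK j N k)

lemma lfE_ne {E j N k r T F : ℕ} (h : lfE E j N k r T F ≠ 0) :
    kOK j N k = true ∧ sub (eT E k) T = true ∧ sub (eF E k) F = true := by
  unfold lfE at h
  cases h1 : kOK j N k with
  | false => rw [h1] at h; exact absurd rfl h
  | true =>
    rw [h1] at h
    cases h2 : sub (eT E k) T with
    | false => rw [h2] at h; exact absurd rfl h
    | true =>
      rw [h2] at h
      cases h3 : sub (eF E k) F with
      | false => rw [h3] at h; exact absurd rfl h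
      | true => exact ⟨rfl, rfl, rfl⟩

/-- the table is correct: `N` implicants -/
structure Tab (E N : ℕ) : Prop where
  ax : axTab E = true
  k1 : k1Tab E = true
  imp : ∀ (P : ℕ → Pt) (L : ℕ → Pt → Prop), WF P → ¬ HCPle (P '' {i | i < 8}) 2 →
    ∀ k, k < N → ¬ Asg (vw L P) (eT E (k + 568)) (eF E (k + 568))

theorem lfE_sound {E N : ℕ} (hE : Tab E N) (hX : GeneralPosition X) (hn : 9 ≤ X.card)
    (hK1 : K1 X) (hK2 : K2 X) (hw : w ≠ 0) {j : ℕ} (hst : Stp X w j P P')
    {k r T F : ℕ} (h : lfE E j N k r T F ≠ 0) (ha : Asg (vw L P) T F) : False := by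
  obtain ⟨h1, h2, h3⟩ := lfE_ne h
  have ha' := Asg_sub ha h2 h3
  have hf : WF P := wf_of_srt hX (by omega) hw hst.s
  simp only [kOK, Bool.or_eq_true, Bool.and_eq_true, Nat.blt_eq, Nat.beq_eq, Nat.ble_eq] at h1
  by_cases hk : k < 560
  · exact axTab_sound hE.ax hf hk ha'
  by_cases hk' : k < 564
  · exact k1Tab_sound hE.k1 hf (k1_srt hX hn hK1 hw hst.s) (by omega) hk' ha'
  rcases h1 with h1 | ⟨h1, h4⟩ | ⟨h1, h4⟩
  · omega
  · -- the four highest points after the swap
    subst h1
    refine k1Tab_sound' hE.k1 hf ?_ (by omega) h4 ha'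
    have h5 := k1_srt hX hn hK1 hw hst.s'
    have e : ([0, 1, 2, 4] : List ℕ).toFinset.image P = ([0, 1, 2, 3] : List ℕ).toFinset.image P' := by
      have e0 : P' 0 = P 0 := by
        rw [hst.eq, Equiv.swap_apply_of_ne_of_ne (by omega) (by omega)]
      have e1 : P' 1 = P 1 := by
        rw [hst.eq, Equiv.swap_apply_of_ne_of_ne (by omega) (by omega)]
      have e2 : P' 2 = P 2 := by
        rw [hst.eq, Equiv.swap_apply_of_ne_of_ne (by omega) (by omega)]
      have e3 : P' 3 = P 4 := by
        rw [hst.eq, Equiv.swap_apply_left]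
      simp only [List.toFinset_cons, List.toFinset_nil, insert_empty_eq, Finset.image_insert,
        Finset.image_singleton, e0, e1, e2, e3]
    rw [e]
    exact h5
  · have h6 := hE.imp P L hf (k2_srt hX hn hK2 hw hst.s) (k - 568) (by
      have : Nat.add 568 N = 568 + N := rfl
      omega)
    have e : k - 568 + 568 = k := by omega
    rw [e] at h6
    exact h6 ha'

end

/-! ### stage one -/

/-- comparison of the ranks (plus one) before and after the swap -/
def cmp (g : ℕ → Bool) (j x y : ℕ) : Bool :=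
  Nat.ble 1 y && (Nat.ble y x && ((!Nat.beq j 0 || !Nat.beq x y) || g x))

/-- the leaves of stage one -/
noncomputable def lf1 (E N M j : ℕ) (R : RT) (g : ℕ → Bool) (rf : List (ℕ × ℕ)) (d r T F : ℕ) : ℕ :=
  Bool.rec (motive := fun _ => ℕ)
    (Bool.rec (motive := fun _ => ℕ)
      (lfE E j N (Nat.sub d 128) r T F)
      (Bool.rec (motive := fun _ => ℕ) 0 (Nat.succ r)
        (lt' (Nat.sub d 4000) rf.length && (sub (rf.getD (Nat.sub d 4000) (0, 0)).1 T &&
          sub (rf.getD (Nat.sub d 4000) (0, 0)).2 F)))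
      (Nat.ble 4000 d))
    (Bool.rec (motive := fun _ => ℕ) 0 (Nat.succ r) (cmp g j (R.pe T F) (R.pm M T F)))
    (Nat.beq d 4095)

section
variable {X : Finset Pt} {w : Pt} {P P' : ℕ → Pt} {L : ℕ → Pt → Prop}

/-- the rank does not increase, and at a swap of the two highest points it is preserved only if it is
good -/
def Dec (R : RT) (g : ℕ → Bool) (j : ℕ) (M : ℕ) (σ : ℕ → Prop) : Prop :=
  R.ev (RT.ren M σ) ≤ R.ev σ ∧ (j = 0 → R.ev (RT.ren M σ) = R.ev σ → g (R.ev σ + 1) = true)

theorem lf1_sound {E N : ℕ} (hE : Tab E N) (hX : GeneralPosition X) (hn : 9 ≤ X.card)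
    (hK1 : K1 X) (hK2 : K2 X) (hw : w ≠ 0) {j : ℕ} (hst : Stp X w j P P') {M : ℕ} {R : RT}
    {g : ℕ → Bool} {rf : List (ℕ × ℕ)}
    (hrf : ∀ q ∈ rf, Asg (vw L P) q.1 q.2 → Dec R g j M (vw L P))
    {d r T F : ℕ} (h : lf1 E N M j R g rf d r T F ≠ 0) (ha : Asg (vw L P) T F) :
    Dec R g j M (vw L P) := by
  unfold lf1 at h
  cases h1 : Nat.beq d 4095 with
  | true =>
    rw [h1] at h
    cases h2 : cmp g j (R.pe T F) (R.pm M T F) with
    | false => rw [h2] at h; exact absurd rfl h
    | true =>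
      simp only [cmp, Bool.and_eq_true, Nat.ble_eq, Bool.or_eq_true, Bool.not_eq_true'] at h2
      obtain ⟨a1, a2, a3⟩ := h2
      obtain ⟨x, hx⟩ : ∃ x, R.pe T F = x + 1 := ⟨R.pe T F - 1, by omega⟩
      obtain ⟨y, hy⟩ : ∃ y, R.pm M T F = y + 1 := ⟨R.pm M T F - 1, by omega⟩
      have e1 := RT.pe_sound ha R hx
      have e2 := RT.pm_sound ha R hy
      rw [hx, hy] at a2 a3
      refine ⟨by rw [e1, e2]; omega, ?_⟩
      intro hj hxy
      rw [e1, e2] at hxy
      rw [e1]
      rcases a3 with (a3 | a3) | a3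
      · subst hj
        exact absurd a3 (by decide)
      · rw [hxy] at a3
        have : Nat.beq (x + 1) (x + 1) = true := by rw [Nat.beq_eq]
        rw [this] at a3
        exact absurd a3 (by simp)
      · exact a3
  | false =>
    rw [h1] at h
    cases h2 : Nat.ble 4000 d with
    | true =>
      rw [h2] at h
      cases h3 : (lt' (Nat.sub d 4000) rf.length && (sub (rf.getD (Nat.sub d 4000) (0, 0)).1 T &&
          sub (rf.getD (Nat.sub d 4000) (0, 0)).2 F)) with
      | false => rw [h3] at h; exact absurd rfl h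
      | true =>
        rw [Bool.and_eq_true, Bool.and_eq_true, lt'_iff] at h3
        obtain ⟨b1, b2, b3⟩ := h3
        refine hrf (rf.getD (Nat.sub d 4000) (0, 0)) ?_ (Asg_sub ha b2 b3)
        rw [List.getD_eq_getElem _ _ b1]
        exact List.getElem_mem b1
    | false =>
      rw [h2] at h
      exact (lfE_sound hE hX hn hK1 hK2 hw hst h ha).elim

/-- the check of a part of the decision tree -/
noncomputable def part (E N M j : ℕ) (R : RT) (g : ℕ → Bool) (rf : List (ℕ × ℕ)) (code T F : ℕ) : Bool :=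
  lt' 0 (run (lf1 E N M j R g rf) 128 code T F)

theorem part_sound {E N : ℕ} (hE : Tab E N) (hX : GeneralPosition X) (hn : 9 ≤ X.card)
    (hK1 : K1 X) (hK2 : K2 X) (hw : w ≠ 0) {j : ℕ} (hst : Stp X w j P P') {M : ℕ} {R : RT}
    {g : ℕ → Bool} {rf : List (ℕ × ℕ)}
    (hrf : ∀ q ∈ rf, Asg (vw L P) q.1 q.2 → Dec R g j M (vw L P))
    {code T F : ℕ} (h : part E N M j R g rf code T F = true) (ha : Asg (vw L P) T F) :
    Dec R g j M (vw L P) := by
  unfold part at h
  rw [lt'_iff] at h
  exact run_sound (lf := lf1 E N M j R g rf) (G := fun σ => σ = vw L P → Dec R g j M (vw L P))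
    (fun d r T F σ h1 h2 h3 => by
      subst h3
      exact lf1_sound (d := d) (r := r) hE hX hn hK1 hK2 hw hst hrf h1 h2) 128 code T F
    (by omega) _ ha rfl

end

end Win

end Pool.Agent.GCP
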