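import Pool.Agent.GCP.Stage
import Pool.Agent.GCP.Hull

/-!
# Windows with hull labels (MP_062f91_co)
-/

namespace Pool.Agent.GCP

namespace Win

/-- the label of a hull vertex -/
def Lh (X : Finset Pt) : ℕ → Pt → Prop := fun _ z => Hull.HV X z

/-- all variables of a tree satisfy a property -/
def RT.vok (p : ℕ → Bool) : RT → Bool
  | lf _ => true
  | nd v a b => p v && (a.vok p && b.vok p)

lemma RT.ev_congr' {σ τ : ℕ → Prop} {p : ℕ → Bool} (h : ∀ v, p v = true → (σ v ↔ τ v)) :
    ∀ (t : RT), t.vok p = true → t.ev σ = t.ev τ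
  | lf r, _ => rfl
  | nd v a b, hv => by
    simp only [vok, Bool.and_eq_true] at hv
    have e := h v hv.1
    have ea := ev_congr' h a hv.2.1
    have eb := ev_congr' h b hv.2.2
    rw [ev, ev, ea, eb]
    by_cases h1 : σ v
    · rw [if_pos h1, if_pos (e.1 h1)]
    · rw [if_neg h1, if_neg (fun h2 => h1 (e.2 h2))]

section
variable {X : Finset Pt} {w : Pt} {P P' : ℕ → Pt}

/-- the highest point is a hull vertex -/
lemma HV_top (hX : GeneralPosition X) (hn : 3 ≤ X.card) (hw : w ≠ 0) (h : Srt X w P) :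
    Hull.HV X (P 0) := by
  have hpos : 0 < w.1 ^ 2 + w.2 ^ 2 := by
    by_contra hc
    apply hw
    have : w.1 = 0 := by nlinarith [sq_nonneg w.1, sq_nonneg w.2]
    have : w.2 = 0 := by nlinarith [sq_nonneg w.1, sq_nonneg w.2]
    ext <;> assumption
  rcases eq_or_lt_of_le (h.mono 0 1 (by omega) (by omega)) with he | hlt
  · have key : ∀ z : Pt, (w.1 ^ 2 + w.2 ^ 2) * orient (P 0) (P 1) z =
        crs w (P 1 - P 0) * (ht w (P 0) - ht w z) := by
      intro z
      have e0 : w.1 * ((P 1).1 - (P 0).1) + w.2 * ((P 1).2 - (P 0).2) = 0 := by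
        unfold ht at he; linarith
      have : (w.1 ^ 2 + w.2 ^ 2) * orient (P 0) (P 1) z =
        crs w (P 1 - P 0) * (ht w (P 0) - ht w z) -
        (w.2 * (z.1 - (P 0).1) - w.1 * (z.2 - (P 0).2)) *
          (w.1 * ((P 1).1 - (P 0).1) + w.2 * ((P 1).2 - (P 0).2)) := by
        unfold orient crs ht
        simp only [Prod.fst_sub, Prod.snd_sub]
        ring
      rw [this, e0]; ring
    have hlow : ∀ z ∈ X, z ≠ P 0 → z ≠ P 1 → ht w z < ht w (P 0) := by
      intro z hz h0 h1
      obtain ⟨i, hi, rfl⟩ := Sweep.surj h hz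
      have hi2 : 2 ≤ i := by
        by_contra hc
        have : i = 0 ∨ i = 1 := by omega
        rcases this with rfl | rfl
        · exact h0 rfl
        · exact h1 rfl
      exact srt_lt hX hw h (i := 0) (j := 1) (k := i) (by omega) (by omega) hi
    have hne : P 0 ≠ P 1 := srt_ne h (by omega) (by omega) (by omega)
    have hc0 : crs w (P 1 - P 0) ≠ 0 := by
      intro h0
      have h1 := key (P 2)
      rw [h0, zero_mul] at h1
      exact srt_gp hX h (i := 0) (j := 1) (k := 2) (by omega) (by omega) (by omega) (by omega)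
        (by omega) (by omega) ((mul_eq_zero.1 h1).resolve_left hpos.ne')
    rcases lt_or_gt_of_ne hc0 with hc | hc
    · have hE : HE X (P 1) (P 0) := by
        refine ⟨h.mem 1 (by omega), h.mem 0 (by omega), hne.symm, ?_⟩
        intro z hz hz1 hz0
        have h1 := hlow z hz hz0 hz1
        have h2 := key z
        have h3 : crs w (P 1 - P 0) * (ht w (P 0) - ht w z) < 0 :=
          mul_neg_of_neg_of_pos hc (by linarith)
        have e : orient (P 1) (P 0) z = - orient (P 0) (P 1) z := by unfold orient; ring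
        rw [e]
        by_contra h4
        have := mul_nonneg hpos.le (show 0 ≤ orient (P 0) (P 1) z by linarith [not_lt.1 h4])
        linarith
      exact Hull.HE.next hX hn hE
    · refine ⟨P 1, h.mem 0 (by omega), h.mem 1 (by omega), hne, ?_⟩
      intro z hz hz0 hz1
      have h1 := hlow z hz hz0 hz1
      have h2 := key z
      have h3 : 0 < crs w (P 1 - P 0) * (ht w (P 0) - ht w z) := mul_pos hc (by linarith)
      by_contra h4
      have := mul_nonneg hpos.le (show 0 ≤ - orient (P 0) (P 1) z by linarith [not_lt.1 h4])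
      linarith
  · refine Hull.HV_of_max hX (by omega) (h.mem 0 (by omega)) (s := w.1) (t := w.2) ?_
    intro z hz hz0
    obtain ⟨i, hi, rfl⟩ := Sweep.surj h hz
    have h1 : ht w (P i) ≤ ht w (P 1) := by
      have : i ≠ 0 := by rintro rfl; exact hz0 rfl
      rcases eq_or_lt_of_le (show 1 ≤ i by omega) with h2 | h2
      · rw [← h2]
      · exact h.mono 1 i h2 hi
    exact lt_of_le_of_lt h1 hlt

/-- a leaf: a hull vertex inside a triangle -/
def tri (T F x : ℕ) : Bool :=
  tb T (Nat.add 56 (Nat.land x 7)) &&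
  (lw T F (Nat.land (Nat.shiftRight x 3) 7) (Nat.land (Nat.shiftRight x 6) 7) (Nat.land x 7) &&
  (lw T F (Nat.land (Nat.shiftRight x 6) 7) (Nat.land (Nat.shiftRight x 9) 7) (Nat.land x 7) &&
    lw T F (Nat.land (Nat.shiftRight x 9) 7) (Nat.land (Nat.shiftRight x 3) 7) (Nat.land x 7)))

lemma land7 (x : ℕ) : Nat.land x 7 < 8 := by
  change x &&& 7 < 8
  have : x &&& 7 ≤ 7 := Nat.and_le_right
  omega

lemma tri_sound (hf : WF P) (hmem : ∀ i, i < 8 → P i ∈ X) {T F : ℕ}
    (ha : Asg (vw (Lh X) P) T F) {x : ℕ} (h : tri T F x = true) : False := by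
  simp only [tri, Bool.and_eq_true] at h
  obtain ⟨h1, h2, h3, h4⟩ := h
  have hz := land7 x
  have hA := land7 (Nat.shiftRight x 3)
  have hB := land7 (Nat.shiftRight x 6)
  have hC := land7 (Nat.shiftRight x 9)
  generalize Nat.land x 7 = z at *
  generalize Nat.land (Nat.shiftRight x 3) 7 = a at *
  generalize Nat.land (Nat.shiftRight x 6) 7 = b at *
  generalize Nat.land (Nat.shiftRight x 9) 7 = c at *
  have hz' : vw (Lh X) P (56 + 8 * 0 + z) := (ha (56 + 8 * 0 + z)).1 (tb_iff.1 h1)
  rw [vw_lab _ _ hz] at hz'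
  obtain ⟨v, hv⟩ := hz'
  have o1 := lw_sound hf ha hA hB hz h2
  have o2 := lw_sound hf ha hB hC hz h3
  have o3 := lw_sound hf ha hC hA hz h4
  have ne : ∀ {p q r : Pt}, 0 < orient p q r → p ≠ q ∧ q ≠ r ∧ p ≠ r := by
    intro p q r h
    refine ⟨?_, ?_, ?_⟩ <;> rintro rfl <;> unfold orient at h <;> linarith
  refine Hull.not_inside hv (hmem a hA) (hmem b hB) (hmem c hC) (ne o1).2.2 (ne o1).2.1 (ne o2).2.1
    (ne o1).1 (ne o2).1 (ne o3).1.symm o1 o2 o3

/-- the entries of the table without a swap -/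
theorem lfE_sound0 {E N : ℕ} (hE : Tab E N) (hX : GeneralPosition X) (hn : 9 ≤ X.card)
    (hK1 : K1 X) (hK2 : K2 X) (hw : w ≠ 0) (hs : Srt X w P) {L : ℕ → Pt → Prop}
    {k r T F : ℕ} (h : lfE E 9 N k r T F ≠ 0) (ha : Asg (vw L P) T F) : False := by
  obtain ⟨h1, h2, h3⟩ := lfE_ne h
  have ha' := Asg_sub ha h2 h3
  have hf : WF P := wf_of_srt hX (by omega) hw hs
  simp only [kOK, Bool.or_eq_true, Bool.and_eq_true, Nat.blt_eq, Nat.beq_eq, Nat.ble_eq] at h1
  by_cases hk : k < 560
  · exact axTab_sound hE.ax hf hk ha'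
  by_cases hk' : k < 564
  · exact k1Tab_sound hE.k1 hf (k1_srt hX hn hK1 hw hs) (by omega) hk' ha'
  rcases h1 with h1 | ⟨h1, h4⟩ | ⟨h1, h4⟩
  · omega
  · omega
  · have h6 := hE.imp P L hf (k2_srt hX hn hK2 hw hs) (k - 568) (by
      have : Nat.add 568 N = 568 + N := rfl
      omega)
    have e : k - 568 + 568 = k := by omega
    rw [e] at h6
    exact h6 ha'

/-- a value plus one which is determined and different from `c + 1` -/
def ne1 (x c : ℕ) : Bool := Nat.ble 1 x && !Nat.beq x (Nat.succ c)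

/-- the leaves of stage two -/
noncomputable def lf2 (E N M j c : ℕ) (R1 R : RT) (g : ℕ → Bool) (rf : List (ℕ × ℕ)) (d r T F : ℕ) : ℕ :=
  Bool.rec (motive := fun _ => ℕ)
    (Bool.rec (motive := fun _ => ℕ)
      (Bool.rec (motive := fun _ => ℕ)
        (Bool.rec (motive := fun _ => ℕ)
          (Bool.rec (motive := fun _ => ℕ)
            (lfE E j N (Nat.sub d 128) r T F)
            (Bool.rec (motive := fun _ => ℕ) 0 (Nat.succ r)
              (lt' (Nat.sub d 4000) rf.length && (sub (rf.getD (Nat.sub d 4000) (0, 0)).1 T &&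
                sub (rf.getD (Nat.sub d 4000) (0, 0)).2 F)))
            (Nat.ble 4000 d))
          (Bool.rec (motive := fun _ => ℕ) 0 (Nat.succ (Nat.shiftRight r 12))
            (tri T F (Nat.land r 4095)))
          (Nat.beq d 4090))
        (Bool.rec (motive := fun _ => ℕ) 0 (Nat.succ r) (ne1 (R1.pm M T F) c))
        (Nat.beq d 4093))
      (Bool.rec (motive := fun _ => ℕ) 0 (Nat.succ r) (ne1 (R1.pe T F) c))
      (Nat.beq d 4094))
    (Bool.rec (motive := fun _ => ℕ) 0 (Nat.succ r) (cmp g j (R.pe T F) (R.pm M T F)))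
    (Nat.beq d 4095)

lemma ne1_iff {x c : ℕ} (h : ne1 x c = true) : ∃ y, x = y + 1 ∧ y ≠ c := by
  simp only [ne1, Bool.and_eq_true, Nat.ble_eq, Bool.not_eq_true'] at h
  refine ⟨x - 1, by omega, ?_⟩
  rintro rfl
  have h1 : x = Nat.succ (x - 1) := by omega
  have h2 : Nat.beq x (Nat.succ (x - 1)) = true := by rw [Nat.beq_eq]; exact h1
  rw [h2] at h
  exact absurd h.2 (by simp)

theorem lf2_sound {E N : ℕ} (hE : Tab E N) (hX : GeneralPosition X) (hn : 9 ≤ X.card)
    (hK1 : K1 X) (hK2 : K2 X) (hw : w ≠ 0) {j : ℕ} (hst : Stp X w j P P') {M c : ℕ} {R1 R : RT}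
    (hc : R1.ev (vw (Lh X) P) = c) (hc' : R1.ev (RT.ren M (vw (Lh X) P)) = c)
    {g : ℕ → Bool} {rf : List (ℕ × ℕ)}
    (hrf : ∀ q ∈ rf, Asg (vw (Lh X) P) q.1 q.2 → Dec R g j M (vw (Lh X) P))
    {d r T F : ℕ} (h : lf2 E N M j c R1 R g rf d r T F ≠ 0) (ha : Asg (vw (Lh X) P) T F) :
    Dec R g j M (vw (Lh X) P) := by
  unfold lf2 at h
  cases h1 : Nat.beq d 4095 with
  | true =>
    rw [h1] at h
    cases h2 : cmp g j (R.pe T F) (R.pm M T F) with
    | false => rw [h2] at h; exact absurd rfl h
    | true =>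
      simp only [cmp, Bool.and_eq_true, Nat.ble_eq, Bool.or_eq_true, Bool.not_eq_true'] at h2
      obtain ⟨a1, a2, a3⟩ := h2
      obtain ⟨x, hx⟩ : ∃ x, R.pe T F = x + 1 := ⟨R.pe T F - 1, by omega⟩
      obtain ⟨y, hy⟩ : ∃ y, R.pm M T F = y + 1 := ⟨R.pm M T F - 1, by omega⟩
      have e1 := RT.pe_sound ha R hx
      have e2 := RT.pm_sound ha R hy
      rw [hx, hy] at a2 a3
      refine ⟨by rw [e1, e2]; omega, ?_⟩
      intro hj hxy
      rw [e1, e2] at hxy
      rw [e1]
      rcases a3 with (a3 | a3) | a3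
      · subst hj
        exact absurd a3 (by decide)
      · rw [hxy] at a3
        have : Nat.beq (x + 1) (x + 1) = true := by rw [Nat.beq_eq]
        rw [this] at a3
        exact absurd a3 (by simp)
      · exact a3
  | false =>
    rw [h1] at h
    cases h2 : Nat.beq d 4094 with
    | true =>
      rw [h2] at h
      cases h3 : ne1 (R1.pe T F) c with
      | false => rw [h3] at h; exact absurd rfl h
      | true =>
        obtain ⟨y, hy, hyc⟩ := ne1_iff h3
        exact absurd (RT.pe_sound ha R1 hy ▸ hc) hyc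
    | false =>
      rw [h2] at h
      cases h3 : Nat.beq d 4093 with
      | true =>
        rw [h3] at h
        cases h4 : ne1 (R1.pm M T F) c with
        | false => rw [h4] at h; exact absurd rfl h
        | true =>
          obtain ⟨y, hy, hyc⟩ := ne1_iff h4
          exact absurd (RT.pm_sound ha R1 hy ▸ hc') hyc
      | false =>
        rw [h3] at h
        cases h4 : Nat.beq d 4090 with
        | true =>
          rw [h4] at h
          cases h5 : tri T F (Nat.land r 4095) with
          | false => rw [h5] at h; exact absurd rfl h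
          | true =>
            exact (tri_sound (wf_of_srt hX (by omega) hw hst.s)
              (fun i hi => hst.s.mem i (by omega)) ha h5).elim
        | false =>
          rw [h4] at h
          cases h5 : Nat.ble 4000 d with
          | true =>
            rw [h5] at h
            cases h6 : (lt' (Nat.sub d 4000) rf.length &&
              (sub (rf.getD (Nat.sub d 4000) (0, 0)).1 T &&
              sub (rf.getD (Nat.sub d 4000) (0, 0)).2 F)) with
            | false => rw [h6] at h; exact absurd rfl h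
            | true =>
              rw [Bool.and_eq_true, Bool.and_eq_true, lt'_iff] at h6
              obtain ⟨b1, b2, b3⟩ := h6
              refine hrf (rf.getD (Nat.sub d 4000) (0, 0)) ?_ (Asg_sub ha b2 b3)
              rw [List.getD_eq_getElem _ _ b1]
              exact List.getElem_mem b1
          | false =>
            rw [h5] at h
            exact (lfE_sound hE hX hn hK1 hK2 hw hst h ha).elim

/-- the check of a part of the decision tree -/
noncomputable def part2 (E N M j c : ℕ) (R1 R : RT) (g : ℕ → Bool) (rf : List (ℕ × ℕ))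
    (code T F : ℕ) : Bool :=
  lt' 0 (run (lf2 E N M j c R1 R g rf) 128 code T F)

theorem part2_sound {E N : ℕ} (hE : Tab E N) (hX : GeneralPosition X) (hn : 9 ≤ X.card)
    (hK1 : K1 X) (hK2 : K2 X) (hw : w ≠ 0) {j : ℕ} (hst : Stp X w j P P') {M c : ℕ} {R1 R : RT}
    (hc : R1.ev (vw (Lh X) P) = c) (hc' : R1.ev (RT.ren M (vw (Lh X) P)) = c)
    {g : ℕ → Bool} {rf : List (ℕ × ℕ)}
    (hrf : ∀ q ∈ rf, Asg (vw (Lh X) P) q.1 q.2 → Dec R g j M (vw (Lh X) P))
    {code T F : ℕ} (h : part2 E N M j c R1 R g rf code T F = true)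
    (ha : Asg (vw (Lh X) P) T F) : Dec R g j M (vw (Lh X) P) := by
  unfold part2 at h
  rw [lt'_iff] at h
  exact run_sound (lf := lf2 E N M j c R1 R g rf)
    (G := fun σ => σ = vw (Lh X) P → Dec R g j M (vw (Lh X) P))
    (fun d r T F σ h1 h2 h3 => by
      subst h3
      exact lf2_sound (d := d) (r := r) hE hX hn hK1 hK2 hw hst hc hc' hrf h1 h2) 128 code T F
    (by omega) _ ha rfl

/-- initial masks with the label of the highest point -/
lemma init2_asg (hX : GeneralPosition X) (hn : 8 ≤ X.card) (hw : w ≠ 0) {j : ℕ} (hj : j < 7)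
    (hst : Stp X w j P P') : Asg (vw (Lh X) P) (Nat.lor (mT j) (Nat.pow 2 56)) (mF j) := by
  refine (init_asg (L := Lh X) hX hn hw hj hst).orT (fun v hv => ?_)
  rw [pow_bit hv]
  exact (vw_lab (Lh X) P (m := 0) (i := 0) (by omega)).2 (HV_top hX (by omega) hw hst.s)

/-- initial masks of the swap of the two highest points -/
lemma init2_asg0 (hX : GeneralPosition X) (hn : 8 ≤ X.card) (hw : w ≠ 0)
    (hst : Stp X w 0 P P') :
    Asg (vw (Lh X) P) (Nat.lor (Nat.lor (mT 0) (Nat.pow 2 56)) (Nat.pow 2 57)) (mF 0) := by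
  refine (init2_asg hX hn hw (by omega) hst).orT (fun v hv => ?_)
  rw [pow_bit hv]
  have h1 : Hull.HV X (P' 0) := HV_top hX (by omega) hw hst.s'
  have h2 : P' 0 = P 1 := by
    rw [hst.eq 0, Equiv.swap_apply_left]
  rw [h2] at h1
  exact (vw_lab (Lh X) P (m := 0) (i := 1) (by omega)).2 h1

/-! ### the static tree -/

/-- the leaves of a static tree -/
noncomputable def lf3 (E N c G : ℕ) (R1 R : RT) (ok : ℕ → ℕ → Bool) (rf : List (ℕ × ℕ))
    (d r T F : ℕ) : ℕ :=
  Bool.rec (motive := fun _ => ℕ)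
    (Bool.rec (motive := fun _ => ℕ)
      (Bool.rec (motive := fun _ => ℕ)
        (Bool.rec (motive := fun _ => ℕ)
          (Bool.rec (motive := fun _ => ℕ)
            (lfE E 9 N (Nat.sub d 128) r T F)
            (Bool.rec (motive := fun _ => ℕ) 0 (Nat.succ r)
              (lt' (Nat.sub d 4000) rf.length && (sub (rf.getD (Nat.sub d 4000) (0, 0)).1 T &&
                sub (rf.getD (Nat.sub d 4000) (0, 0)).2 F)))
            (Nat.ble 4000 d))
          (Bool.rec (motive := fun _ => ℕ) 0 (Nat.succ (Nat.shiftRight r 12))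
            (tri T F (Nat.land r 4095)))
          (Nat.beq d 4090))
        (Bool.rec (motive := fun _ => ℕ) 0 (Nat.succ r) (ne1 (R.pe T F) G))
        (Nat.beq d 4092))
      (Bool.rec (motive := fun _ => ℕ) 0 (Nat.succ r) (ne1 (R1.pe T F) c))
      (Nat.beq d 4094))
    (Bool.rec (motive := fun _ => ℕ) 0 (Nat.succ r) (ok T F))
    (Nat.beq d 4095)

theorem lf3_sound {E N : ℕ} (hE : Tab E N) (hX : GeneralPosition X) (hn : 9 ≤ X.card)
    (hK1 : K1 X) (hK2 : K2 X) (hw : w ≠ 0) (hs : Srt X w P) {c G : ℕ} {R1 R : RT}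
    (hc : R1.ev (vw (Lh X) P) = c) (hG : R.ev (vw (Lh X) P) = G)
    {ok : ℕ → ℕ → Bool} {C : Prop} (hok : ∀ T F, ok T F = true → Asg (vw (Lh X) P) T F → C)
    {rf : List (ℕ × ℕ)} (hrf : ∀ q ∈ rf, Asg (vw (Lh X) P) q.1 q.2 → C)
    {d r T F : ℕ} (h : lf3 E N c G R1 R ok rf d r T F ≠ 0) (ha : Asg (vw (Lh X) P) T F) : C := by
  unfold lf3 at h
  cases h1 : Nat.beq d 4095 with
  | true =>
    rw [h1] at h
    cases h2 : ok T F with
    | false => rw [h2] at h; exact absurd rfl h
    | true => exact hok T F h2 ha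
  | false =>
    rw [h1] at h
    cases h2 : Nat.beq d 4094 with
    | true =>
      rw [h2] at h
      cases h3 : ne1 (R1.pe T F) c with
      | false => rw [h3] at h; exact absurd rfl h
      | true =>
        obtain ⟨y, hy, hyc⟩ := ne1_iff h3
        exact absurd (RT.pe_sound ha R1 hy ▸ hc) hyc
    | false =>
      rw [h2] at h
      cases h3 : Nat.beq d 4092 with
      | true =>
        rw [h3] at h
        cases h4 : ne1 (R.pe T F) G with
        | false => rw [h4] at h; exact absurd rfl h
        | true =>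
          obtain ⟨y, hy, hyc⟩ := ne1_iff h4
          exact absurd (RT.pe_sound ha R hy ▸ hG) hyc
      | false =>
        rw [h3] at h
        cases h4 : Nat.beq d 4090 with
        | true =>
          rw [h4] at h
          cases h5 : tri T F (Nat.land r 4095) with
          | false => rw [h5] at h; exact absurd rfl h
          | true =>
            exact (tri_sound (wf_of_srt hX (by omega) hw hs)
              (fun i hi => hs.mem i (by omega)) ha h5).elim
        | false =>
          rw [h4] at h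
          cases h5 : Nat.ble 4000 d with
          | true =>
            rw [h5] at h
            cases h6 : (lt' (Nat.sub d 4000) rf.length &&
              (sub (rf.getD (Nat.sub d 4000) (0, 0)).1 T &&
              sub (rf.getD (Nat.sub d 4000) (0, 0)).2 F)) with
            | false => rw [h6] at h; exact absurd rfl h
            | true =>
              rw [Bool.and_eq_true, Bool.and_eq_true, lt'_iff] at h6
              obtain ⟨b1, b2, b3⟩ := h6
              refine hrf (rf.getD (Nat.sub d 4000) (0, 0)) ?_ (Asg_sub ha b2 b3)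
              rw [List.getD_eq_getElem _ _ b1]
              exact List.getElem_mem b1
          | false =>
            rw [h5] at h
            exact (lfE_sound0 hE hX hn hK1 hK2 hw hs h ha).elim

/-- the check of a part of the static tree -/
noncomputable def part3 (E N c G : ℕ) (R1 R : RT) (ok : ℕ → ℕ → Bool) (rf : List (ℕ × ℕ))
    (code T F : ℕ) : Bool :=
  lt' 0 (run (lf3 E N c G R1 R ok rf) 128 code T F)

theorem part3_sound {E N : ℕ} (hE : Tab E N) (hX : GeneralPosition X) (hn : 9 ≤ X.card)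
    (hK1 : K1 X) (hK2 : K2 X) (hw : w ≠ 0) (hs : Srt X w P) {c G : ℕ} {R1 R : RT}
    (hc : R1.ev (vw (Lh X) P) = c) (hG : R.ev (vw (Lh X) P) = G)
    {ok : ℕ → ℕ → Bool} {C : Prop} (hok : ∀ T F, ok T F = true → Asg (vw (Lh X) P) T F → C)
    {rf : List (ℕ × ℕ)} (hrf : ∀ q ∈ rf, Asg (vw (Lh X) P) q.1 q.2 → C)
    {code T F : ℕ} (h : part3 E N c G R1 R ok rf code T F = true)
    (ha : Asg (vw (Lh X) P) T F) : C := by
  unfold part3 at h
  rw [lt'_iff] at h
  exact run_sound (lf := lf3 E N c G R1 R ok rf)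
    (G := fun σ => σ = vw (Lh X) P → C)
    (fun d r T F σ h1 h2 h3 => by
      subst h3
      exact lf3_sound (d := d) (r := r) hE hX hn hK1 hK2 hw hs hc hG hok hrf h1 h2) 128 code T F
    (by omega) _ ha rfl

/-- initial masks of the static tree -/
lemma init3_asg (hX : GeneralPosition X) (hn : 8 ≤ X.card) (hw : w ≠ 0) (hs : Srt X w P) :
    Asg (vw (Lh X) P) (Nat.pow 2 56) 0 := by
  have h := (Asg.zero (vw (Lh X) P)).orT (m := Nat.pow 2 56) (fun v hv => by
    rw [pow_bit hv]
    exact (vw_lab (Lh X) P (m := 0) (i := 0) (by omega)).2 (HV_top hX (by omega) hw hs))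
  have e : Nat.lor 0 (Nat.pow 2 56) = Nat.pow 2 56 := by decide
  rw [e] at h
  exact h

/-! ### the rank of all windows -/

/-- the variables of the seven highest points -/
def v7 (v : ℕ) : Bool := Nat.blt v 35 || (Nat.ble 56 v && Nat.blt v 63)

/-- every number below 35 is a variable of a triple of the seven highest points -/
def triTab7 : Bool := (List.range 35).all fun v =>
  (List.range 7).any fun c => (List.range c).any fun b => (List.range b).any fun a =>
    Nat.beq (ix a b c) v

lemma triTab7_true : triTab7 = true := by decide +kernel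

lemma exists_tri7 {v : ℕ} (hv : v < 35) : ∃ a b c, a < b ∧ b < c ∧ c < 7 ∧ ix a b c = v := by
  have h := triTab7_true
  simp only [triTab7, List.all_eq_true, List.any_eq_true, List.mem_range, Nat.beq_eq] at h
  obtain ⟨c, hc, b, hb, a, ha, h⟩ := h v hv
  exact ⟨a, b, c, ha, hb, hc, h⟩

lemma v7_congr {L : ℕ → Pt → Prop} (h : ∀ i, i < 7 → P' i = P i) {v : ℕ} (hv : v7 v = true) :
    vw L P' v ↔ vw L P v := by
  simp only [v7, Bool.or_eq_true, Bool.and_eq_true, Nat.blt_eq, Nat.ble_eq] at hv
  rcases hv with hv | ⟨h1, h2⟩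
  · obtain ⟨a, b, c, hab, hbc, hc, rfl⟩ := exists_tri7 hv
    rw [vw_ix L P' hab hbc (by omega), vw_ix L P hab hbc (by omega), h a (by omega), h b (by omega),
      h c hc]
  · obtain ⟨i, rfl⟩ : ∃ i, v = 56 + 8 * 0 + i := ⟨v - 56, by omega⟩
    rw [vw_lab L P' (by omega), vw_lab L P (by omega), h i (by omega)]

/-- a step below the seven highest points changes nothing -/
lemma step_high {L : ℕ → Pt → Prop} {R : RT} (hR : R.vok v7 = true) {j : ℕ} (hj : 7 ≤ j)
    (hst : Stp X w j P P') : R.ev (vw L P') = R.ev (vw L P) := by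
  refine RT.ev_congr' (fun v hv => v7_congr (fun i hi => ?_) hv) R hR
  rw [hst.eq i, Equiv.swap_apply_of_ne_of_ne (by omega) (by omega)]

/-- the rank after a swap -/
lemma step_ren {L : ℕ → Pt → Prop} (hX : GeneralPosition X) (hn : 8 ≤ X.card) {R : RT} {m : ℕ}
    (hR : R.vlt (56 + 8 * m) = true) {j : ℕ} (hj : j < 7) (hst : Stp X w j P P') {M : ℕ}
    (hM : mapTab M j m = true) : R.ev (vw L P') = R.ev (RT.ren M (vw L P)) :=
  RT.ev_congr (fun _ hv => ren_sound hX hn hj hst hM hv) R hR

end

end Win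

end Pool.Agent.GCP
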