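import Pool.Agent.GCP.W2
import Pool.Agent.GCP.NoTriple0
import Pool.Agent.GCP.Assembly
import Pool.Agent.GCP.FastFin

/-!
# The induction step for `4 q + 3` points, `6 ≤ q`, from the windows
-/

namespace Pool.Agent.GCP

/-- A set with the ring structure which cannot be partitioned, while all sets which remain after
removals of `4, ..., 14` points can, has at most 26 points. -/
def NoN : Prop :=
  ∀ (X : Finset Pt) (h : ℕ) (p a c : ZMod h → Pt) (K : ℕ), RingS0 X h p a c → 27 ≤ X.card →
    Irr X K t414 [] → False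

/-- The bounds for all smaller numbers. -/
theorem bd_lt {q : ℕ} (hq : 4 ≤ q) (H : ∀ s, s < q → s ≠ 2 → Bd (4 * s + 3)) :
    ∀ n, 1 ≤ n → n < 4 * q → n ≠ 11 → Bd n := by
  intro n hn hlt hn11
  by_cases h3 : n % 4 = 3
  · have h1 : n = 4 * (n / 4) + 3 := by omega
    rw [h1]
    exact H (n / 4) (by omega) (by omega)
  · by_cases h4 : n < 4
    · intro X hX hG
      have h5 : n / 4 + 1 = 1 := by omega
      rw [h5]
      exact hcp_three (by omega) (by omega) hG
    · by_cases h12 : 12 ≤ n ∧ n ≤ 14
      · intro X hX hG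
        exact (hcp_fourteen (by omega) hG).mono (by omega)
      · have h1 : n = 4 * (n / 4 - 1 + 1) + n % 4 := by omega
        rw [h1]
        exact Bd.next (by omega) (H (n / 4 - 1) (by omega) (by omega))

theorem step27 (hN : NoN) : ∀ q, 6 ≤ q → (∀ s, s < q → s ≠ 2 → Bd (4 * s + 3)) →
    Bd (4 * q + 3) := by
  classical
  intro q hq H X hc hX
  have hK : (4 * q + 3) / 4 + 1 = q + 1 := by omega
  rw [hK]
  by_contra hcon
  have hK1 : K1 X := by
    intro A h1 h2 h3 h4
    apply hcon
    refine perfect_cut (q := q) (k := 1) (A := A) (B := X \ A) hc hX ?_ h2 (by omega) ?_ h3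
      (H (q - 1) (by omega) (by omega))
    · rw [← Finset.coe_union, Finset.union_sdiff_of_subset h1]
    · refine ⟨1, le_refl _, [A], rfl, ?_, by simp, by simp⟩
      intro Y hY
      simp only [List.mem_singleton] at hY
      subst hY
      exact ⟨Finset.card_pos.1 (by omega), h4⟩
  have hK2 : Win.K2 X := by
    intro S h1 h2 h3 h4
    apply hcon
    refine perfect_cut (q := q) (k := 2) (A := S) (B := X \ S) hc hX ?_ h2 (by omega) h4 h3
      (H (q - 2) (by omega) (by omega))
    rw [← Finset.coe_union, Finset.union_sdiff_of_subset h1]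
  obtain ⟨h, p, a, c, W⟩ := exists_ringS0 hX (by omega) hK1 hK2
  refine hN X h p a c (q + 1) W (by omega) ⟨hcon, ?_, ?_⟩
  · intro Y hY t ht hYt
    have ht' : 4 ≤ t ∧ t ≤ 14 := by
      simp only [t414, List.mem_cons, List.not_mem_nil, or_false] at ht
      omega
    have := bd_lt (by omega) H Y.card (by omega) (by omega) (by omega) Y rfl (hX.subset hY)
    exact ⟨_, by omega, this⟩
  · intro Y hY t ht
    exact absurd ht (by simp)

end Pool.Agent.GCP
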