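import Pool.Agent.GCP.Th
import Pool.Agent.GCP.GeoFull

/-!
# Theory checks for full knowledge frames (MP_062f91_co)
-/

namespace Pool.Agent.GCP

/-- A certificate that a set of indices has a partition: convex leaves, free leaves (any set of
at most `g k` points has a partition with `k` parts), cuts. -/
inductive Cg : Type
  | leaf (l : List ℕ) : Cg
  | free (k : ℕ) (l : List ℕ) : Cg
  | node (a b : ℕ) (L R : Cg) : Cg
  | edon (a b : ℕ) (L R : Cg) : Cg

namespace Cg

/-- All indices in the tree. -/
def pts : Cg → List ℕ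
  | leaf l => l
  | free _ l => l
  | node _ _ L R => L.pts ++ R.pts
  | edon _ _ L R => L.pts ++ R.pts

/-- The number of parts. -/
def cost : Cg → ℕ
  | leaf _ => 1
  | free k _ => k
  | node _ _ L R => L.cost + R.cost
  | edon _ _ L R => L.cost + R.cost

/-- The check of a cutting tree. -/
def chk (n : ℕ) (g : List ℕ) (li : ℕ → ℕ → ℕ → Bool) : Cg → Bool
  | leaf l => leafOK li l
  | free k l => Nat.ble l.length (g.getD k 0)
  | node a b L R => lt' a n && (lt' b n && (!Nat.beq a b &&
      (L.pts.all (fun x => Nat.beq x a || li a b x) &&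
      (R.pts.all (fun y => Nat.beq y b || li b a y) &&
      (L.chk n g li && R.chk n g li)))))
  | edon a b L R => lt' a n && (lt' b n && (!Nat.beq a b &&
      (L.pts.all (fun x => Nat.beq x a || li b a x) &&
      (R.pts.all (fun y => Nat.beq y b || li a b y) &&
      (L.chk n g li && R.chk n g li)))))

end Cg

/-- The facts for the free leaves. -/
def FreeOK (g : List ℕ) : Prop :=
  ∀ k, ∀ Y : Finset Pt, Y.card ≤ g.getD k 0 → GeneralPosition Y → HCPle (Y : Set Pt) k

section
variable {n : ℕ} {P : ℕ → Pt}

theorem cg_sound {g : List ℕ} (hF : FreeOK g) (hf : Frame n P)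
    {T F : ℕ} (ha : Asg (val P) T F) :
    ∀ t : Cg, (∀ i ∈ t.pts, i < n) → t.pts.Nodup → t.chk n g (lit T F) = true →
      HCPle (P '' {i | i ∈ t.pts}) t.cost
  | .leaf l, hl, hnd, h => by
    obtain ⟨h1, h2⟩ := leaf_sound hf.inj hf.gp
      (fun i j k hi hj hk => lit_sound hf ha hi hj hk) hl hnd h
    refine ⟨1, le_refl _, [l.toFinset.image P], rfl, ?_, by simp, ?_⟩
    · intro Y hY
      simp only [List.mem_singleton] at hY
      subst hY
      exact ⟨h1, h2⟩
    · intro x
      simp [Cg.pts]
  | .free k l, hl, hnd, h => by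
    simp only [Cg.chk, Nat.ble_eq] at h
    have hc : (l.toFinset.image P).card ≤ l.length :=
      Finset.card_image_le.trans (List.toFinset_card_le l)
    have hg := gp_image hf hl
    have := hF k _ (hc.trans h) hg
    rw [image_list] at this
    exact this
  | .node a b L R, hl, hnd, h => by
    simp only [Cg.chk, Bool.and_eq_true, Bool.not_eq_true', lt'_iff] at h
    obtain ⟨ha', hb, hab, hL, hR, hcL, hcR⟩ := h
    have hab' : a ≠ b := by
      rintro rfl
      have : Nat.beq a a = true := by rw [Nat.beq_eq]
      rw [this] at hab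
      exact absurd hab (by simp)
    rw [List.all_eq_true] at hL hR
    simp only [Cg.pts, List.mem_append] at hl
    have hnd' := hnd
    simp only [Cg.pts] at hnd'
    rw [List.nodup_append] at hnd'
    have iL := cg_sound hF hf ha L (fun i hi => hl i (Or.inl hi)) hnd'.1 hcL
    have iR := cg_sound hF hf ha R (fun i hi => hl i (Or.inr hi)) hnd'.2.1 hcR
    have heq : P '' {i | i ∈ (Cg.node a b L R).pts} =
        P '' {i | i ∈ L.pts} ∪ P '' {i | i ∈ R.pts} := by
      rw [← Set.image_union]
      congr 1
      ext i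
      simp [Cg.pts]
    rw [heq]
    refine HCPle.append iL iR (hull_disjoint (hf.inj a b ha' hb hab') ?_ ?_)
    · rintro x ⟨i, hi, rfl⟩ hx
      have h1 := hL i hi
      simp only [Bool.or_eq_true, Nat.beq_eq] at h1
      rcases h1 with h1 | h1
      · subst h1; exact absurd rfl hx
      · exact lit_sound hf ha ha' hb (hl i (Or.inl hi)) h1
    · rintro x ⟨i, hi, rfl⟩ hx
      have h1 := hR i hi
      simp only [Bool.or_eq_true, Nat.beq_eq] at h1
      rcases h1 with h1 | h1
      · subst h1; exact absurd rfl hx
      · have := lit_sound hf ha hb ha' (hl i (Or.inr hi)) h1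
        rw [orient_swap] at this
        linarith
  | .edon a b L R, hl, hnd, h => by
    simp only [Cg.chk, Bool.and_eq_true, Bool.not_eq_true', lt'_iff] at h
    obtain ⟨ha', hb, hab, hL, hR, hcL, hcR⟩ := h
    have hab' : a ≠ b := by
      rintro rfl
      have : Nat.beq a a = true := by rw [Nat.beq_eq]
      rw [this] at hab
      exact absurd hab (by simp)
    rw [List.all_eq_true] at hL hR
    simp only [Cg.pts, List.mem_append] at hl
    have hnd' := hnd
    simp only [Cg.pts] at hnd'
    rw [List.nodup_append] at hnd'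
    have iL := cg_sound hF hf ha L (fun i hi => hl i (Or.inl hi)) hnd'.1 hcL
    have iR := cg_sound hF hf ha R (fun i hi => hl i (Or.inr hi)) hnd'.2.1 hcR
    have heq : P '' {i | i ∈ (Cg.edon a b L R).pts} =
        P '' {i | i ∈ L.pts} ∪ P '' {i | i ∈ R.pts} := by
      rw [← Set.image_union]
      congr 1
      ext i
      simp [Cg.pts]
    rw [heq]
    refine HCPle.append iL iR (hull_disjoint' (hf.inj a b ha' hb hab') ?_ ?_)
    · rintro x ⟨i, hi, rfl⟩ hx
      have h1 := hL i hi
      simp only [Bool.or_eq_true, Nat.beq_eq] at h1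
      rcases h1 with h1 | h1
      · subst h1; exact absurd rfl hx
      · have := lit_sound hf ha hb ha' (hl i (Or.inl hi)) h1
        rw [orient_swap] at this
        linarith
    · rintro x ⟨i, hi, rfl⟩ hx
      have h1 := hR i hi
      simp only [Bool.or_eq_true, Nat.beq_eq] at h1
      rcases h1 with h1 | h1
      · subst h1; exact absurd rfl hx
      · exact lit_sound hf ha ha' hb (hl i (Or.inr hi)) h1

end

/-- The position of the hull vertex number `j`. -/
def qh (L : List ℕ) (j : ℕ) : ℕ := L.getD (j % L.length) 0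

/-- The data of a full knowledge frame, in terms of the positions `L` of the hull vertices. -/
structure RZ (N : ℕ) (L : List ℕ) (Z : ℕ → Pt) : Prop where
  frame : Frame (N + 1) Z
  le : ∀ j, qh L j ≤ N
  hull : ∀ j, ∀ k ≤ N, k ≠ qh L j → k ≠ qh L (j + 1) →
    0 < orient (Z (qh L j)) (Z (qh L (j + 1))) (Z k)
  c3 : ∀ j, ((Finset.range (N + 1)).filter
    (fun k => orient (Z (qh L j)) (Z (qh L (j + 2))) (Z k) < 0)).card = 3
  c6 : ∀ j, ((Finset.range (N + 1)).filter
    (fun k => orient (Z (qh L j)) (Z (qh L (j + 3))) (Z k) < 0)).card = 6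
  fa : ∀ j, ∃ x ≤ N, x ≠ qh L j ∧ x ≠ qh L (j + 1) ∧
    ∀ k ≤ N, k ≠ qh L j → k ≠ qh L (j + 1) → k ≠ x →
    0 < orient (Z (qh L j)) (Z x) (Z k) ∧ orient (Z (qh L (j + 1))) (Z x) (Z k) < 0

lemma FullR.toRZ {X : Finset Pt} {N h : ℕ} {q : ℕ → ℕ} {Z : ℕ → Pt} (F : FullR X N h q Z)
    (hh : 0 < h) {L : List ℕ} (hL : L.length = h) (hq : ∀ j < h, q j = L.getD j 0) : RZ N L Z := by
  have per : ∀ t j, q (j + h * t) = q j := by
    intro t
    induction t with
    | zero => intro j; simp
    | succ t ih =>
      intro j
      have := F.per (j + h * t)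
      rw [← ih j, ← this]
      congr 1
      ring
  have e : ∀ j, qh L j = q j := by
    intro j
    unfold qh
    rw [hL, ← hq _ (Nat.mod_lt _ hh)]
    have := per (j / h) (j % h)
    rw [Nat.mod_add_div] at this
    exact this.symm
  refine ⟨F.frame, fun j => by rw [e]; exact F.le j, ?_, ?_, ?_, ?_⟩
  · intro j
    rw [e, e]
    exact F.hull j
  · intro j
    rw [e, e]
    exact F.c3 j
  · intro j
    rw [e, e]
    exact F.c6 j
  · intro j
    rw [e, e]
    exact F.fa j

/-- Theory justifications for full frames. -/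
inductive TF : Type
  | ax (i j k l t : ℕ) : TF
  | z (t : Cg) : TF
  | hu (j k : ℕ) : TF
  | cn (j d : ℕ) : TF
  | cp (j d : ℕ) : TF
  | fa (j : ℕ) : TF

/-- The size of a near set. -/
def nearSz (d : ℕ) : ℕ := bif Nat.beq d 2 then 3 else 6

/-- The theory check for full frames. -/
def tfk (N K : ℕ) (g L : List ℕ) : TF → ℕ → ℕ → Bool
  | .ax i j k l t, T, F => axf N i j k l t T F
  | .z t, T, F => full (N + 1) t.pts && (Nat.ble t.cost K && t.chk (N + 1) g (lit T F))
  | .hu j k, T, F => Nat.ble k N && (!Nat.beq k (qh L j) && (!Nat.beq k (qh L (j + 1)) &&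
      lit T F (qh L (j + 1)) (qh L j) k))
  | .cn j d, T, F => (Nat.beq d 2 || Nat.beq d 3) &&
      Nat.blt (nearSz d) ((List.range (N + 1)).filter
        (fun k => lit T F (qh L (j + d)) (qh L j) k)).length
  | .cp j d, T, F => (Nat.beq d 2 || Nat.beq d 3) &&
      (!Nat.beq (qh L j) (qh L (j + d)) &&
      Nat.blt (N + 1) (((List.range (N + 1)).filter
        (fun k => lit T F (qh L j) (qh L (j + d)) k)).length + 2 + nearSz d))
  | .fa j, T, F => (List.range (N + 1)).all (fun x => Nat.beq x (qh L j) ||
      (Nat.beq x (qh L (j + 1)) || (List.range (N + 1)).any (fun k =>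
        !Nat.beq k (qh L j) && (!Nat.beq k (qh L (j + 1)) && (!Nat.beq k x &&
          (lit T F x (qh L j) k || lit T F (qh L (j + 1)) x k))))))

lemma beq_false {a b : ℕ} (h : Nat.beq a b = false) : a ≠ b := by
  rintro rfl
  have : Nat.beq a a = true := by rw [Nat.beq_eq]
  rw [this] at h
  exact absurd h (by simp)

lemma range_filter_card (n : ℕ) (p : ℕ → Bool) :
    ((List.range n).filter p).length = ((Finset.range n).filter (fun k => p k = true)).card := by
  have h1 : (Finset.range n).filter (fun k => p k = true) =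
      ((List.range n).filter p).toFinset := by
    ext x
    simp
  rw [h1, List.toFinset_card_of_nodup]
  exact List.Nodup.filter _ List.nodup_range

theorem tfk_sound {N K : ℕ} {g L : List ℕ} (hF : FreeOK g)
    {Z : ℕ → Pt} (R : RZ N L Z) (hK : ¬ HCPle (Z '' {i | i < N + 1}) K) :
    ∀ (x : TF) (T F : ℕ), Asg (val Z) T F → tfk N K g L x T F = true → False := by
  intro x T F ha h
  have hf := R.frame
  cases x with
  | ax i j k l t => exact axf_sound hf ha h
  | z t =>
    simp only [tfk, Bool.and_eq_true, Nat.ble_eq] at h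
    obtain ⟨h1, h2, h3⟩ := h
    obtain ⟨a1, a2, a3⟩ := full_iff h1
    apply hK
    have := (cg_sound hF hf ha t a2 a1 h3).mono h2
    have he : {i | i ∈ t.pts} = {i | i < N + 1} := by
      ext i
      exact a3 i
    rw [he] at this
    exact this
  | hu j k =>
    simp only [tfk, Bool.and_eq_true, Bool.not_eq_true', Nat.ble_eq] at h
    obtain ⟨h1, h2, h3, h4⟩ := h
    have a1 := R.hull j k h1 (beq_false h2) (beq_false h3)
    have a2 := lit_sound hf ha (Nat.lt_succ_of_le (R.le _)) (Nat.lt_succ_of_le (R.le _))
      (Nat.lt_succ_of_le h1) h4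
    rw [orient_swap] at a2
    linarith
  | cn j d =>
    simp only [tfk, Bool.and_eq_true, Bool.or_eq_true, Nat.beq_eq] at h
    obtain ⟨h1, h2⟩ := h
    rw [Nat.blt_eq, range_filter_card] at h2
    have hc : ((Finset.range (N + 1)).filter
        (fun k => orient (Z (qh L j)) (Z (qh L (j + d))) (Z k) < 0)).card = nearSz d := by
      rcases h1 with rfl | rfl
      · exact R.c3 j
      · exact R.c6 j
    have hsub : ((Finset.range (N + 1)).filter
        (fun k => lit T F (qh L (j + d)) (qh L j) k = true)) ⊆
        ((Finset.range (N + 1)).filter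
        (fun k => orient (Z (qh L j)) (Z (qh L (j + d))) (Z k) < 0)) := by
      intro k hk
      rw [Finset.mem_filter] at hk ⊢
      refine ⟨hk.1, ?_⟩
      have a2 := lit_sound hf ha (Nat.lt_succ_of_le (R.le _)) (Nat.lt_succ_of_le (R.le _))
        (Finset.mem_range.1 hk.1) hk.2
      rw [orient_swap] at a2
      linarith
    have := Finset.card_le_card hsub
    omega
  | cp j d =>
    simp only [tfk, Bool.and_eq_true, Bool.or_eq_true, Nat.beq_eq, Bool.not_eq_true'] at h
    obtain ⟨h1, h0, h2⟩ := h
    rw [Nat.blt_eq, range_filter_card] at h2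
    have hne := beq_false h0
    set S := (Finset.range (N + 1)).filter
        (fun k => orient (Z (qh L j)) (Z (qh L (j + d))) (Z k) < 0) with hS
    set S' := (Finset.range (N + 1)).filter
        (fun k => lit T F (qh L j) (qh L (j + d)) k = true) with hS'
    have hc : S.card = nearSz d := by
      rcases h1 with rfl | rfl
      · exact R.c3 j
      · exact R.c6 j
    have hpos : ∀ k ∈ S', 0 < orient (Z (qh L j)) (Z (qh L (j + d))) (Z k) := by
      intro k hk
      rw [hS', Finset.mem_filter] at hk
      exact lit_sound hf ha (Nat.lt_succ_of_le (R.le _)) (Nat.lt_succ_of_le (R.le _))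
        (Finset.mem_range.1 hk.1) hk.2
    have hd1 : Disjoint S S' := by
      rw [Finset.disjoint_left]
      intro k hk hk'
      rw [hS, Finset.mem_filter] at hk
      have := hpos k hk'
      linarith [hk.2]
    have hd2 : Disjoint (S ∪ S') {qh L j, qh L (j + d)} := by
      rw [Finset.disjoint_left]
      intro k hk hk'
      have hz : orient (Z (qh L j)) (Z (qh L (j + d))) (Z k) = 0 := by
        rw [Finset.mem_insert, Finset.mem_singleton] at hk'
        rcases hk' with rfl | rfl
        · unfold orient; ring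
        · unfold orient; ring
      rcases Finset.mem_union.1 hk with hk | hk
      · rw [hS, Finset.mem_filter] at hk
        linarith [hk.2]
      · have := hpos k hk
        linarith
    have hsub : (S ∪ S') ∪ {qh L j, qh L (j + d)} ⊆ Finset.range (N + 1) := by
      intro k hk
      rcases Finset.mem_union.1 hk with hk | hk
      · rcases Finset.mem_union.1 hk with hk | hk
        · exact (Finset.mem_filter.1 hk).1
        · exact (Finset.mem_filter.1 hk).1
      · rw [Finset.mem_insert, Finset.mem_singleton] at hk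
        rcases hk with rfl | rfl
        · exact Finset.mem_range.2 (Nat.lt_succ_of_le (R.le _))
        · exact Finset.mem_range.2 (Nat.lt_succ_of_le (R.le _))
    have h3 := Finset.card_le_card hsub
    rw [Finset.card_union_of_disjoint hd2, Finset.card_union_of_disjoint hd1,
      Finset.card_pair hne, Finset.card_range, hc] at h3
    omega
  | fa j =>
    obtain ⟨x, hx, x1, x2, hall⟩ := R.fa j
    simp only [tfk, List.all_eq_true] at h
    have h1 := h x (List.mem_range.2 (Nat.lt_succ_of_le hx))
    simp only [Bool.or_eq_true, Nat.beq_eq] at h1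
    rcases h1 with h1 | h1 | h1
    · exact x1 h1
    · exact x2 h1
    · rw [List.any_eq_true] at h1
      obtain ⟨k, hk, h2⟩ := h1
      simp only [Bool.and_eq_true, Bool.or_eq_true, Bool.not_eq_true'] at h2
      obtain ⟨k1, k2, k3, h3⟩ := h2
      have hkN := List.mem_range.1 hk
      obtain ⟨b1, b2⟩ := hall k (by omega) (beq_false k1) (beq_false k2) (beq_false k3)
      rcases h3 with h3 | h3
      · have := lit_sound hf ha (Nat.lt_succ_of_le hx) (Nat.lt_succ_of_le (R.le _)) hkN h3
        rw [orient_swap] at this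
        linarith
      · have := lit_sound hf ha (Nat.lt_succ_of_le (R.le _)) (Nat.lt_succ_of_le hx) hkN h3
        linarith

/-- Masks from lists of variables. -/
def msk (l : List ℕ) : ℕ := l.foldr (fun v m => Nat.lor m (Nat.pow 2 v)) 0

lemma msk_testBit {l : List ℕ} {v : ℕ} (h : (msk l).testBit v = true) : v ∈ l := by
  induction l with
  | nil => simp [msk] at h
  | cons a l ih =>
    have e : msk (a :: l) = (msk l) ||| (2 ^ a) := rfl
    rw [e, Nat.testBit_or, Bool.or_eq_true] at h
    rcases h with h | h
    · exact List.mem_cons_of_mem _ (ih h)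
    · rw [Nat.testBit_two_pow] at h
      simp only [decide_eq_true_eq] at h
      rw [h]
      exact List.mem_cons_self

/-- The base masks from checked unit literals: each unit is refuted by a theory check. -/
theorem asg_units {σ : ℕ → Prop} {th : TF → ℕ → ℕ → Bool}
    (hth : ∀ x T F, Asg σ T F → th x T F = true → False) (tv fv : List (ℕ × TF))
    (h1 : tv.all (fun q => th q.2 0 (Nat.pow 2 q.1)) = true)
    (h2 : fv.all (fun q => th q.2 (Nat.pow 2 q.1) 0) = true) :
    Asg σ (msk (tv.map Prod.fst)) (msk (fv.map Prod.fst)) := by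
  rw [List.all_eq_true] at h1 h2
  intro v
  constructor
  · intro h
    obtain ⟨q, hq, rfl⟩ := List.mem_map.1 (msk_testBit h)
    by_contra hc
    refine hth q.2 _ _ ?_ (h1 q hq)
    intro w
    constructor
    · intro h3; simp at h3
    · intro h3
      have h3' : (2 ^ q.1).testBit w = true := h3
      rw [Nat.testBit_two_pow] at h3'
      simp only [decide_eq_true_eq] at h3'
      rw [← h3']
      exact hc
  · intro h hc
    obtain ⟨q, hq, rfl⟩ := List.mem_map.1 (msk_testBit h)
    refine hth q.2 _ _ ?_ (h2 q hq)
    intro w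
    constructor
    · intro h3
      have h3' : (2 ^ q.1).testBit w = true := h3
      rw [Nat.testBit_two_pow] at h3'
      simp only [decide_eq_true_eq] at h3'
      rw [← h3']
      exact hc
    · intro h3; simp at h3

/-- A second stage of unit literals above known masks. -/
theorem asg_units2 {σ : ℕ → Prop} {th : TF → ℕ → ℕ → Bool}
    (hth : ∀ x T F, Asg σ T F → th x T F = true → False) {T0 F0 : ℕ} (h0 : Asg σ T0 F0)
    (tv fv : List (ℕ × TF))
    (h1 : tv.all (fun q => th q.2 T0 (Nat.lor F0 (Nat.pow 2 q.1))) = true)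
    (h2 : fv.all (fun q => th q.2 (Nat.lor T0 (Nat.pow 2 q.1)) F0) = true) :
    Asg σ (Nat.lor T0 (msk (tv.map Prod.fst))) (Nat.lor F0 (msk (fv.map Prod.fst))) := by
  rw [List.all_eq_true] at h1 h2
  refine (h0.orT ?_).orF ?_
  · intro w hw
    obtain ⟨q, hq, rfl⟩ := List.mem_map.1 (msk_testBit hw)
    by_contra hc
    refine hth q.2 _ _ (h0.orF ?_) (h1 q hq)
    intro w h3
    have h3' : (2 ^ q.1).testBit w = true := h3
    rw [Nat.testBit_two_pow] at h3'
    simp only [decide_eq_true_eq] at h3'
    rw [← h3']
    exact hc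
  · intro w hw hc
    obtain ⟨q, hq, rfl⟩ := List.mem_map.1 (msk_testBit hw)
    refine hth q.2 _ _ (h0.orT ?_) (h2 q hq)
    intro w h3
    have h3' : (2 ^ q.1).testBit w = true := h3
    rw [Nat.testBit_two_pow] at h3'
    simp only [decide_eq_true_eq] at h3'
    rw [← h3']
    exact hc

end Pool.Agent.GCP
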