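import Pool.Agent.GCP.ThF
import Pool.Agent.GCP.FastTh

/-!
# Fast theory checks for full knowledge frames (MP_062f91_co)
-/

namespace Pool.Agent.GCP

/-- The entry number `k`. -/
noncomputable def gk (g : List ℕ) : ℕ → ℕ :=
  List.rec (motive := fun _ => ℕ → ℕ) (fun _ => 0)
    (fun x _ ih k => Nat.casesOn (motive := fun _ => ℕ) k x (fun k' => ih k')) g

lemma gk_eq (g : List ℕ) : ∀ k, gk g k = g.getD k 0 := by
  induction g with
  | nil => intro k; rfl
  | cons x g ih =>
    intro k
    cases k with
    | zero => rfl
    | succ k =>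
      change gk g k = _
      rw [ih]
      rfl

namespace Ft

/-- The check of a tree with the sizes `g` of the free leaves. -/
noncomputable def okg (g : List ℕ) (N T F : ℕ) (t : Ft) : Bool :=
  Ft.rec (motive := fun _ => Bool) (fun l => le3 l)
    (fun f l U W => an (Nat.ble (Nat.succ f) l) (an (chn0 T F false f l U) (chn0 T F true f l W)))
    (fun k l => Nat.ble (ln l) (gk g k))
    (fun m a b L R ihL ihR => an (Nat.ble a N) (an (Nat.ble b N) (an (!Nat.beq a b)
      (an (L.allP (fun x => oor (Nat.beq x a) (an (!Nat.beq x b) (sdf T F m a b x))))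
        (an (R.allP (fun x => oor (Nat.beq x b) (an (!Nat.beq x a) (sdf T F (!m) a b x))))
          (an ihL ihR)))))) t

end Ft

section
variable {n : ℕ} {P : ℕ → Pt}

theorem ftg_sound {g : List ℕ} (hF : FreeOK g) (hf : Frame (n + 1) P) {T F : ℕ}
    (ha : Asg (val P) T F) (t : Ft) :
    (∀ i ∈ t.pts, i < n + 1) → t.pts.Nodup → t.okg g n T F = true →
      HCPle (P '' {i | i ∈ t.pts}) t.cost := by
  classical
  induction t with
  | s l =>
    intro hl hnd h
    change le3 l = true at h
    have h' : leafOK (fun _ _ _ => false) l = true := by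
      match l, h with
      | [_], _ => rfl
      | [_, _], _ => rfl
      | [_, _, _], _ => rfl
    obtain ⟨h1, h2⟩ := leaf_sound (P := P) (n := n + 1) hf.inj hf.gp
      (lit := fun _ _ _ => false) (fun i j k _ _ _ h => absurd h (by simp)) hl hnd h'
    refine ⟨1, le_refl _, [l.toFinset.image P], rfl, ?_, by simp, ?_⟩
    · intro Y hY
      simp only [List.mem_singleton] at hY
      subst hY
      exact ⟨h1, h2⟩
    · intro x
      simp [Ft.pts]
  | c f l U W =>
    intro hl hnd h
    change an (Nat.ble (Nat.succ f) l) (an (chn0 T F false f l U) (chn0 T F true f l W)) = true at h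
    rw [an_iff, an_iff] at h
    obtain ⟨h1, h2, h3⟩ := h
    have hfl : f < l := ble_true h1
    have hln : l < n + 1 := hl l (by simp [Ft.pts])
    obtain ⟨u1, u2⟩ := chn0_sound hf ha hln hfl h2
    obtain ⟨w1, w2⟩ := chn0_sound hf ha hln hfl h3
    have hdis : ∀ u ∈ U, ∀ w ∈ W, u ≠ w := by
      simp only [Ft.pts, List.nodup_cons, List.mem_cons, List.mem_append, not_or,
        List.nodup_append] at hnd
      intro u hu w hw
      exact hnd.2.2.2.2 u hu w hw
    have hc : TwoCh (n + 1) P f l U.toFinset W.toFinset := by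
      refine ⟨hf, hln, hfl, fun u hu => u1 u (List.mem_toFinset.1 hu),
        fun w hw => w1 w (List.mem_toFinset.1 hw),
        fun u hu w hw => hdis u (List.mem_toFinset.1 hu) w (List.mem_toFinset.1 hw), ?_, ?_⟩
      · intro i hi j hj k hk hij hjk
        simp only [Finset.mem_insert, List.mem_toFinset] at hi hj hk
        exact u2 i (by simpa using hi) j (by simpa using hj) k (by simpa using hk) hij hjk
      · intro i hi j hj k hk hij hjk
        simp only [Finset.mem_insert, List.mem_toFinset] at hi hj hk
        exact w2 i (by simpa using hi) j (by simpa using hj) k (by simpa using hk) hij hjk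
    have hconv := hc.conv
    have hset : (insert f (insert l (U.toFinset ∪ W.toFinset))) =
        (Ft.c f l U W).pts.toFinset := by
      ext x
      simp [Ft.pts]
    rw [hset] at hconv
    refine ⟨1, le_refl _, [(Ft.c f l U W).pts.toFinset.image P], rfl, ?_, by simp, ?_⟩
    · intro Y hY
      simp only [List.mem_singleton] at hY
      subst hY
      refine ⟨?_, hconv⟩
      rw [Finset.image_nonempty]
      exact ⟨f, by simp [Ft.pts]⟩
    · intro x
      simp only [Set.mem_image, Set.mem_ofPred_eq, List.mem_singleton, exists_eq_left,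
        Finset.mem_image, List.mem_toFinset]
  | w k l =>
    intro hl hnd h
    change Nat.ble (ln l) (gk g k) = true at h
    have h1 := ble_true h
    rw [ln_eq, gk_eq] at h1
    have hc : (l.toFinset.image P).card ≤ l.length :=
      Finset.card_image_le.trans (List.toFinset_card_le l)
    have hg := gp_image hf hl
    have := hF k _ (hc.trans h1) hg
    rw [image_list] at this
    exact this
  | n m a b L R ihL ihR =>
    intro hl hnd h
    change an (Nat.ble a n) (an (Nat.ble b n) (an (!Nat.beq a b)
      (an (L.allP (fun x => oor (Nat.beq x a) (an (!Nat.beq x b) (sdf T F m a b x))))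
        (an (R.allP (fun x => oor (Nat.beq x b) (an (!Nat.beq x a) (sdf T F (!m) a b x))))
          (an (L.okg g n T F) (R.okg g n T F)))))) = true at h
    simp only [an_iff, Ft.allP_iff, oor_iff, Bool.not_eq_true'] at h
    obtain ⟨h1, h2, h3, h4, h5, h6, h7⟩ := h
    have ha1 : a < n + 1 := by have := ble_true h1; omega
    have hb1 : b < n + 1 := by have := ble_true h2; omega
    have hab := nbeq_false h3
    simp only [Ft.pts, List.mem_append] at hl
    have hnd' := hnd
    simp only [Ft.pts] at hnd'
    rw [List.nodup_append] at hnd'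
    have iL := ihL (fun i hi => hl i (Or.inl hi)) hnd'.1 h6
    have iR := ihR (fun i hi => hl i (Or.inr hi)) hnd'.2.1 h7
    have heq : P '' {i | i ∈ (Ft.n m a b L R).pts} =
        P '' {i | i ∈ L.pts} ∪ P '' {i | i ∈ R.pts} := by
      rw [← Set.image_union]
      congr 1
      ext i
      simp [Ft.pts]
    rw [heq]
    have hPab := hf.inj a b ha1 hb1 hab
    have sL : ∀ x ∈ P '' {i | i ∈ L.pts}, x ≠ P a → 0 < sd m (P a) (P b) x := by
      rintro x ⟨i, hi, rfl⟩ hx
      rcases h4 i hi with h | ⟨h, h'⟩
      · have := beq_true h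
        subst this
        exact absurd rfl hx
      · have hia : a ≠ i := by rintro rfl; exact hx rfl
        exact sdf_sound hf ha ha1 hb1 (hl i (Or.inl hi)) hab (nbeq_false h).symm hia h'
    have sR : ∀ x ∈ P '' {i | i ∈ R.pts}, x ≠ P b → sd m (P a) (P b) x < 0 := by
      rintro x ⟨i, hi, rfl⟩ hx
      rcases h5 i hi with h | ⟨h, h'⟩
      · have := beq_true h
        subst this
        exact absurd rfl hx
      · have hib : b ≠ i := by rintro rfl; exact hx rfl
        have := sdf_sound hf ha ha1 hb1 (hl i (Or.inr hi)) hab hib (nbeq_false h).symm h'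
        rw [sd_not] at this
        linarith
    refine HCPle.append iL iR ?_
    cases m with
    | true => exact hull_disjoint hPab sL sR
    | false =>
      refine hull_disjoint' hPab ?_ ?_
      · intro x hx hxa
        have := sL x hx hxa
        simp only [sd, cond_false] at this
        linarith
      · intro x hx hxb
        have := sR x hx hxb
        simp only [sd, cond_false] at this
        linarith

end


/-- Theory justifications: signotope axioms, partitions, and the old ones. -/
inductive TG : Type
  | a (o : ℕ) (p : Bool) (i j k l : ℕ) : TG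
  | z (t : Ft) : TG
  | o (x : TF) : TG

/-- The theory check. -/
noncomputable def tgk (N K : ℕ) (g L : List ℕ) (x : TG) (T F : ℕ) : Bool :=
  TG.casesOn (motive := fun _ => Bool) x
    (fun o p i j k l => axq N T F o p i j k l)
    (fun t => t.addT 0 (fun A => an (Nat.beq (Nat.succ A) (Nat.pow 2 (Nat.succ N)))
      (an (t.okg g N T F) (Nat.ble t.fc K))))
    (fun x => tfk N K g L x T F)

theorem tgk_sound {N K : ℕ} {g L : List ℕ} (hF : FreeOK g)
    {Z : ℕ → Pt} (R : RZ N L Z) (hK : ¬ HCPle (Z '' {i | i < N + 1}) K) :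
    ∀ (x : TG) (T F : ℕ), Asg (val Z) T F → tgk N K g L x T F = true → False := by
  intro x T F ha h
  have hf := R.frame
  cases x with
  | a o p i j k l => exact axq_sound hf ha h
  | o x => exact tfk_sound hF R hK x T F ha h
  | z t =>
    change t.addT 0 (fun A => an (Nat.beq (Nat.succ A) (Nat.pow 2 (Nat.succ N)))
      (an (t.okg g N T F) (Nat.ble t.fc K))) = true at h
    obtain ⟨A, ⟨a1, a2, a3⟩, h⟩ := Ft.addT_sound h
    rw [an_iff, an_iff] at h
    obtain ⟨h1, h2, h3⟩ := h
    have e1 : A + 1 = 2 ^ (N + 1) := beq_true h1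
    have hmem : ∀ i, i ∈ t.pts ↔ i < N + 1 := by
      intro i
      have e2 : A = 2 ^ (N + 1) - 1 := by omega
      have h4 := a3 i
      rw [e2, Nat.testBit_two_pow_sub_one, decide_eq_true_eq] at h4
      simp only [Nat.zero_testBit, Bool.false_eq_true, false_or] at h4
      exact h4.symm
    have h5 := ftg_sound hF hf ha t (fun i hi => (hmem i).1 hi) a1 h2
    apply hK
    have he : {i | i ∈ t.pts} = {i | i < N + 1} := by
      ext i
      exact hmem i
    rw [he] at h5
    exact h5.mono (by rw [← Ft.fc_eq]; exact ble_true h3)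

/-- The base masks from checked unit literals. -/
theorem asg_unitsG {σ : ℕ → Prop} {N K : ℕ} {g L : List ℕ}
    (hth : ∀ (x : TG) T F, Asg σ T F → tgk N K g L x T F = true → False) (tv fv : List (ℕ × TF))
    (h1 : tv.all (fun q => tfk N K g L q.2 0 (Nat.pow 2 q.1)) = true)
    (h2 : fv.all (fun q => tfk N K g L q.2 (Nat.pow 2 q.1) 0) = true) :
    Asg σ (msk (tv.map Prod.fst)) (msk (fv.map Prod.fst)) :=
  asg_units (th := tfk N K g L) (fun x T F => hth (.o x) T F) tv fv h1 h2

/-- A second stage of unit literals above known masks. -/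
theorem asg_unitsG2 {σ : ℕ → Prop} {N K : ℕ} {g L : List ℕ}
    (hth : ∀ (x : TG) T F, Asg σ T F → tgk N K g L x T F = true → False)
    {T0 F0 : ℕ} (h0 : Asg σ T0 F0) (tv fv : List (ℕ × TF))
    (h1 : tv.all (fun q => tfk N K g L q.2 T0 (Nat.lor F0 (Nat.pow 2 q.1))) = true)
    (h2 : fv.all (fun q => tfk N K g L q.2 (Nat.lor T0 (Nat.pow 2 q.1)) F0) = true) :
    Asg σ (Nat.lor T0 (msk (tv.map Prod.fst))) (Nat.lor F0 (msk (fv.map Prod.fst))) :=
  asg_units2 (th := tfk N K g L) (fun x T F => hth (.o x) T F) h0 tv fv h1 h2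

end Pool.Agent.GCP
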