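import Pool.Agent.GCP.PatchU
import Pool.Agent.GCP.X11

/-!
# Theory checks for nineteen labelled points `E | A` (MP_062f91_co)

The labels `0, ..., 10` are an exceptional set `E`, the labels `11, ..., 18` are two convex polygons
with disjoint hulls, and the two sets of labels are separated. All checks are written with
recursors, so that the kernel evaluates them fast.
-/

set_option autoImplicit false

namespace Pool.Agent.GCP

namespace W

noncomputable section

/-- Conjunction. -/
def an (a b : Bool) : Bool := Bool.rec (motive := fun _ => Bool) false b a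

/-- Disjunction. -/
def oo (a b : Bool) : Bool := Bool.rec (motive := fun _ => Bool) b true a

/-- If then else. -/
def it (c a b : Bool) : Bool := Bool.rec (motive := fun _ => Bool) b a c

lemma an_iff {a b : Bool} : an a b = true ↔ a = true ∧ b = true := by
  cases a <;> simp [an]

lemma oo_iff {a b : Bool} : oo a b = true ↔ a = true ∨ b = true := by
  cases a <;> simp [oo]

lemma it_iff {c a b : Bool} : it c a b = true ↔ (c = true ∧ a = true) ∨ (c = false ∧ b = true) := by
  cases c <;> simp [it]

/-- `i < j`. -/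
def lb (i j : ℕ) : Bool := Nat.ble (Nat.succ i) j

lemma lb_iff {i j : ℕ} : lb i j = true ↔ i < j := by
  unfold lb
  rw [Nat.ble_eq]
  exact Iff.rfl

lemma lb_false {i j : ℕ} : lb i j = false ↔ j ≤ i := by
  rw [← Bool.not_eq_true, lb_iff, not_lt]

/-- All elements of a list. -/
def al (p : ℕ → Bool) (l : List ℕ) : Bool :=
  List.rec (motive := fun _ => Bool) true (fun x _ ih => an (p x) ih) l

lemma al_iff {p : ℕ → Bool} {l : List ℕ} : al p l = true ↔ ∀ x ∈ l, p x = true := by
  induction l with
  | nil => simp [al]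
  | cons x l ih =>
    change an (p x) (al p l) = true ↔ _
    rw [an_iff, ih]
    simp

/-- The index of the triple `i < j < k` of labels from `0` on. -/
def ix (i j k : ℕ) : ℕ :=
  Nat.add (Nat.add (Nat.div (Nat.mul (Nat.mul k (Nat.sub k 1)) (Nat.sub k 2)) 6)
    (Nat.div (Nat.mul j (Nat.sub j 1)) 2)) i

lemma ix_eq (i j k : ℕ) : ix i j k = idx (i + 1) (j + 1) (k + 1) := rfl

lemma ix_lt {i j k n : ℕ} (h1 : i < j) (h2 : j < k) (h3 : k < n) : ix i j k < n.choose 3 := by
  rw [ix_eq]
  exact lt_of_lt_of_le (idx_lt (by omega) (by omega) (by omega)).2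
    (Nat.choose_le_choose 3 (by omega))

/-- The assignment: orientations, then the labels in the second polygon. -/
def vw (n : ℕ) (P : ℕ → Pt) (B : ℕ → Prop) (v : ℕ) : Prop :=
  if v < n.choose 3 then valU P v else B (v - n.choose 3)

/-- Lookup of the sign of `(a, b, x)`, `a < b`. -/
def sp (T F a b x : ℕ) : Bool :=
  it (lb x a) (tb T (ix x a b)) (it (lb a x) (it (lb x b) (tb F (ix a x b))
    (it (lb b x) (tb T (ix a b x)) false)) false)

/-- The triple is known to be positive. -/
def sg (T F i j k : ℕ) : Bool :=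
  it (lb i j) (sp T F i j k) (it (lb j i) (sp F T j i k) false)

/-- The triple is known to have the sign `m`. -/
def sm (T F : ℕ) (m : Bool) (i j k : ℕ) : Bool := it m (sg T F i j k) (sg T F j i k)

/-- The knowledge about a sign function. -/
def Kn (n : ℕ) (o : ℕ → ℕ → ℕ → ℝ) (T F : ℕ) : Prop :=
  (∀ i j k, o j i k = - o i j k) ∧ (∀ i j k, o j k i = o i j k) ∧
  ∀ i j k, i < j → j < k → k < n →
    (tb T (ix i j k) = true → 0 < o i j k) ∧ (tb F (ix i j k) = true → o i j k < 0)

lemma Kn.neg {n : ℕ} {o : ℕ → ℕ → ℕ → ℝ} {T F : ℕ} (h : Kn n o T F) :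
    Kn n (fun i j k => - o i j k) F T := by
  refine ⟨fun i j k => ?_, fun i j k => ?_, fun i j k h1 h2 h3 => ⟨fun h4 => ?_, fun h4 => ?_⟩⟩
  · have := h.1 i j k
    simp only
    linarith
  · have := h.2.1 i j k
    simp only
    linarith
  · have := (h.2.2 i j k h1 h2 h3).2 h4
    simp only
    linarith
  · have := (h.2.2 i j k h1 h2 h3).1 h4
    simp only
    linarith

lemma sp_sound {n : ℕ} {o : ℕ → ℕ → ℕ → ℝ} {T F : ℕ} (h : Kn n o T F) {a b x : ℕ}
    (hab : a < b) (hb : b < n) (hx : x < n) (hs : sp T F a b x = true) : 0 < o a b x := by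
  unfold sp at hs
  rcases it_iff.1 hs with ⟨h1, h2⟩ | ⟨-, hs⟩
  · have h3 := (h.2.2 x a b (lb_iff.1 h1) hab hb).1 h2
    rw [h.2.1 x a b]
    exact h3
  · rcases it_iff.1 hs with ⟨h1, hs⟩ | ⟨-, hs⟩
    · rcases it_iff.1 hs with ⟨h2, h3⟩ | ⟨-, hs⟩
      · have h4 := (h.2.2 a x b (lb_iff.1 h1) (lb_iff.1 h2) hb).2 h3
        have e1 := h.1 a x b
        have e2 := h.2.1 x a b
        linarith
      · rcases it_iff.1 hs with ⟨h2, h3⟩ | ⟨-, hs⟩
        · exact (h.2.2 a b x hab (lb_iff.1 h2) hx).1 h3
        · exact absurd hs (by simp)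
    · exact absurd hs (by simp)

lemma sg_sound {n : ℕ} {o : ℕ → ℕ → ℕ → ℝ} {T F : ℕ} (h : Kn n o T F) {i j k : ℕ}
    (hi : i < n) (hj : j < n) (hk : k < n) (hs : sg T F i j k = true) : 0 < o i j k := by
  unfold sg at hs
  rcases it_iff.1 hs with ⟨h1, h2⟩ | ⟨-, hs⟩
  · exact sp_sound h (lb_iff.1 h1) hj hk h2
  · rcases it_iff.1 hs with ⟨h1, h2⟩ | ⟨-, hs⟩
    · have h3 := sp_sound h.neg (lb_iff.1 h1) hi hk h2
      have h4 := h.1 i j k
      linarith
    · exact absurd hs (by simp)

/-- The orientation as a function of labels. -/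
def oP (P : ℕ → Pt) (i j k : ℕ) : ℝ := orient (P i) (P j) (P k)

lemma kn_of_asg {n : ℕ} {P : ℕ → Pt} {B : ℕ → Prop} (hg : GenP n P) {T F : ℕ}
    (ha : Asg (vw n P B) T F) : Kn n (oP P) T F := by
  refine ⟨fun i j k => ?_, fun i j k => ?_, fun i j k h1 h2 h3 => ?_⟩
  · unfold oP
    exact orient_swap _ _ _
  · unfold oP
    exact (orient_cyc _ _ _)
  · have hlt := ix_lt h1 h2 h3
    have hv : vw n P B (ix i j k) ↔ 0 < orient (P i) (P j) (P k) := by
      unfold vw
      rw [if_pos hlt, ix_eq]
      exact val_idx (P := fun i => P (i - 1)) (by omega) (by omega) (by omega)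
    constructor
    · intro h4
      exact hv.1 ((ha _).1 (tb_iff.1 h4))
    · intro h4
      have h5 := (ha _).2 (tb_iff.1 h4)
      rw [hv, not_lt] at h5
      exact lt_of_le_of_ne h5 (hg.gp i j k (by omega) (by omega) h3 (by omega) (by omega) (by omega))

/-! ## Convex polygons -/

/-- The chain check: `(u, v, w)` and `(g, v, w)` for consecutive elements. -/
def fc (T F g : ℕ) (l : List ℕ) : ℕ → ℕ → Bool :=
  List.rec (motive := fun _ => ℕ → ℕ → Bool) (fun _ _ => true)
    (fun w _ ih u v => an (sg T F u v w) (an (sg T F g v w) (ih v w))) l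

/-- Cutting trees. -/
inductive Tw : Type
  | t3 (l : List ℕ) : Tw
  | pg (g h x : ℕ) (l : List ℕ) : Tw
  | fr (k : ℕ) (l : List ℕ) : Tw
  | nd (m : Bool) (a b : ℕ) (L R : Tw) : Tw

namespace Tw

/-- All labels in the tree. -/
def pts : Tw → List ℕ
  | t3 l => l
  | pg g h x l => g :: h :: x :: l
  | fr _ l => l
  | nd _ _ _ L R => L.pts ++ R.pts

/-- The number of parts. -/
def cost : Tw → ℕ
  | t3 _ => 1
  | pg _ _ _ _ => 1
  | fr k _ => k
  | nd _ _ _ L R => L.cost + R.cost

/-- The number of parts, for the kernel. -/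
def cst (t : Tw) : ℕ :=
  Tw.rec (motive := fun _ => ℕ) (fun _ => 1) (fun _ _ _ _ => 1) (fun k _ => k)
    (fun _ _ _ _ _ i j => Nat.add i j) t

/-- The length of a list, for the kernel. -/
def len (l : List ℕ) : ℕ := List.rec (motive := fun _ => ℕ) 0 (fun _ _ n => Nat.succ n) l

/-- The mask of a list, for the kernel. -/
def mkl (l : List ℕ) : ℕ := List.rec (motive := fun _ => ℕ) 0 (fun x _ n => Nat.lor n (Nat.pow 2 x)) l

/-- The number of labels, for the kernel. -/
def cn (t : Tw) : ℕ :=
  Tw.rec (motive := fun _ => ℕ) (fun l => len l) (fun _ _ _ l => Nat.add (len l) 3) (fun _ l => len l)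
    (fun _ _ _ _ _ i j => Nat.add i j) t

/-- The mask of the labels, for the kernel. -/
def mk (t : Tw) : ℕ :=
  Tw.rec (motive := fun _ => ℕ) (fun l => mkl l) (fun g h x l => mkl (g :: h :: x :: l))
    (fun _ l => mkl l) (fun _ _ _ _ _ i j => Nat.lor i j) t

/-- All labels of the tree satisfy `p`. -/
def tal (p : ℕ → Bool) (t : Tw) : Bool :=
  Tw.rec (motive := fun _ => Bool) (fun l => al p l)
    (fun g h x l => an (p g) (an (p h) (an (p x) (al p l)))) (fun _ l => al p l)
    (fun _ _ _ _ _ i j => an i j) t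

/-- The check of a cutting tree. -/
def chk (n T F : ℕ) (t : Tw) : Bool :=
  Tw.rec (motive := fun _ => Bool) (fun l => it (Nat.ble 1 (len l)) (Nat.ble (len l) 3) false)
    (fun g h x l => an (sg T F g h x) (an (al (fun y => sg T F g h y) l) (fc T F g l h x)))
    (fun k l => it (Nat.beq k 2) (Nat.ble (len l) 7) (it (Nat.beq k 3) (Nat.ble (len l) 10)
      (it (Nat.beq k 4) (Nat.ble (len l) 15) false)))
    (fun m a b L R i j => an (lb a b) (an (lb b n) (an
      (it m (an (tal (fun x => oo (Nat.beq x a) (sp T F a b x)) L)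
          (tal (fun y => oo (Nat.beq y b) (sp F T a b y)) R))
        (an (tal (fun x => oo (Nat.beq x b) (sp T F a b x)) L)
          (tal (fun y => oo (Nat.beq y a) (sp F T a b y)) R))) (an i j)))) t

lemma len_eq (l : List ℕ) : len l = l.length := by
  induction l with
  | nil => rfl
  | cons x l ih =>
    change Nat.succ (len l) = _
    rw [ih]
    simp

lemma mkl_iff {l : List ℕ} {v : ℕ} : (mkl l).testBit v = true ↔ v ∈ l := by
  induction l with
  | nil => 
    change (0 : ℕ).testBit v = true ↔ _
    simp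
  | cons x l ih =>
    have e : mkl (x :: l) = mkl l ||| 2 ^ x := rfl
    rw [e, Nat.testBit_or, Bool.or_eq_true, ih, Nat.testBit_two_pow, decide_eq_true_eq,
      List.mem_cons]
    constructor
    · rintro (h | h)
      · exact Or.inr h
      · exact Or.inl h.symm
    · rintro (h | h)
      · exact Or.inr h.symm
      · exact Or.inl h

lemma cst_eq : ∀ t : Tw, t.cst = t.cost
  | t3 _ => rfl
  | pg _ _ _ _ => rfl
  | fr _ _ => rfl
  | nd _ _ _ L R => by
    change Nat.add L.cst R.cst = L.cost + R.cost
    rw [cst_eq L, cst_eq R]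
    rfl

lemma cn_eq : ∀ t : Tw, t.cn = t.pts.length
  | t3 l => len_eq l
  | pg _ _ _ l => by
    change Nat.add (len l) 3 = _
    rw [len_eq]
    rfl
  | fr _ l => len_eq l
  | nd _ _ _ L R => by
    change Nat.add L.cn R.cn = _
    rw [cn_eq L, cn_eq R]
    simp [pts]

lemma mk_iff {v : ℕ} : ∀ t : Tw, t.mk.testBit v = true ↔ v ∈ t.pts
  | t3 _ => mkl_iff
  | pg g h x l => mkl_iff (l := g :: h :: x :: l)
  | fr _ _ => mkl_iff
  | nd m a b L R => by
    have e : (nd m a b L R).mk = L.mk ||| R.mk := rfl
    rw [e, Nat.testBit_or, Bool.or_eq_true, mk_iff L, mk_iff R, pts, List.mem_append]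

lemma tal_iff {p : ℕ → Bool} : ∀ {t : Tw}, tal p t = true ↔ ∀ x ∈ t.pts, p x = true
  | t3 _ => al_iff
  | pg g h x l => by
    change an (p g) (an (p h) (an (p x) (al p l))) = true ↔ _
    rw [an_iff, an_iff, an_iff, al_iff, pts]
    simp
  | fr _ _ => al_iff
  | nd _ _ _ L R => by
    change an (tal p L) (tal p R) = true ↔ _
    rw [an_iff, tal_iff, tal_iff, pts]
    constructor
    · rintro ⟨h1, h2⟩ x hx
      rcases List.mem_append.1 hx with h | h
      · exact h1 x h
      · exact h2 x h
    · intro h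
      exact ⟨fun x hx => h x (List.mem_append.2 (Or.inl hx)),
        fun x hx => h x (List.mem_append.2 (Or.inr hx))⟩

end Tw

/-! ## Fans are convex -/

section
variable {m : ℕ} {G : ℕ → Pt}

/-- Sorted around `G 0`. -/
lemma fan_sorted (h1 : ∀ j, 2 ≤ j → j < m → 0 < orient (G 0) (G 1) (G j))
    (h2 : ∀ i, 1 ≤ i → i + 1 < m → 0 < orient (G 0) (G i) (G (i + 1))) :
    ∀ d i, 1 ≤ i → i + (d + 1) < m → 0 < orient (G 0) (G i) (G (i + (d + 1))) := by
  intro d
  induction d with
  | zero => intro i hi hm; exact h2 i hi hm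
  | succ d ih =>
    intro i hi hm
    have a1 := ih i hi (by omega)
    have a2 := h2 (i + (d + 1)) (by omega) (by omega)
    have e : i + (d + 1 + 1) = i + (d + 1) + 1 := by omega
    rw [e]
    rcases Nat.lt_or_ge 1 i with h | h
    · have b1 := h1 i (by omega) (by omega)
      have b2 := h1 (i + (d + 1)) (by omega) (by omega)
      have b3 := h1 (i + (d + 1) + 1) (by omega) (by omega)
      have key := orient_gp3 (G 0) (G 1) (G i) (G (i + (d + 1))) (G (i + (d + 1) + 1))
      by_contra hc
      rw [not_lt] at hc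
      have c1 := mul_pos b1 a2
      have c2 := mul_pos b3 a1
      have c3 := mul_nonneg b2.le (neg_nonneg.2 hc)
      linarith
    · have : i = 1 := by omega
      subst this
      exact h1 _ (by omega) (by omega)

/-- All triples of a fan are positive. -/
lemma fan_pos (h1 : ∀ j, 2 ≤ j → j < m → 0 < orient (G 0) (G 1) (G j))
    (h2 : ∀ i, 1 ≤ i → i + 1 < m → 0 < orient (G 0) (G i) (G (i + 1)))
    (h3 : ∀ i, 1 ≤ i → i + 2 < m → 0 < orient (G i) (G (i + 1)) (G (i + 2))) :
    ∀ i j k, i < j → j < k → k < m → 0 < orient (G i) (G j) (G k) := by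
  have hs : ∀ i j, 1 ≤ i → i < j → j < m → 0 < orient (G 0) (G i) (G j) := by
    intro i j hi hij hj
    have := fan_sorted h1 h2 (j - i - 1) i hi (by omega)
    rwa [show i + (j - i - 1 + 1) = j by omega] at this
  -- four sorted points
  have four : ∀ i j k l, 1 ≤ i → i < j → j < k → k < l → l < m →
      0 < orient (G i) (G j) (G k) → 0 < orient (G j) (G k) (G l) →
      0 < orient (G i) (G j) (G l) ∧ 0 < orient (G i) (G k) (G l) := by
    intro i j k l hi hij hjk hkl hl a1 a2
    have s1 := hs i j hi hij (by omega)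
    have s2 := hs i k hi (by omega) (by omega)
    have s3 := hs i l hi (by omega) hl
    have s4 := hs j k (by omega) hjk (by omega)
    have s5 := hs j l (by omega) (by omega) hl
    have s6 := hs k l (by omega) hkl hl
    -- [j 0 i][j k l] - [j 0 k][j i l] + [j 0 l][j i k] = 0
    have g1 := orient_gp3 (G j) (G 0) (G i) (G k) (G l)
    have g2 := orient_gp3 (G k) (G 0) (G i) (G j) (G l)
    have q1 : orient (G j) (G 0) (G i) = orient (G 0) (G i) (G j) := by unfold orient; ring
    have q2 : orient (G j) (G 0) (G k) = - orient (G 0) (G j) (G k) := by unfold orient; ring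
    have q3 : orient (G j) (G 0) (G l) = - orient (G 0) (G j) (G l) := by unfold orient; ring
    have q4 : orient (G j) (G i) (G l) = - orient (G i) (G j) (G l) := by unfold orient; ring
    have q5 : orient (G j) (G i) (G k) = - orient (G i) (G j) (G k) := by unfold orient; ring
    have r1 : orient (G k) (G 0) (G i) = orient (G 0) (G i) (G k) := by unfold orient; ring
    have r2 : orient (G k) (G 0) (G j) = orient (G 0) (G j) (G k) := by unfold orient; ring
    have r3 : orient (G k) (G 0) (G l) = - orient (G 0) (G k) (G l) := by unfold orient; ring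
    have r4 : orient (G k) (G j) (G l) = - orient (G j) (G k) (G l) := by unfold orient; ring
    have r5 : orient (G k) (G i) (G l) = - orient (G i) (G k) (G l) := by unfold orient; ring
    have r6 : orient (G k) (G i) (G j) = orient (G i) (G j) (G k) := by unfold orient; ring
    rw [q1, q2, q3, q4, q5] at g1
    rw [r1, r2, r3, r4, r5, r6] at g2
    constructor
    · by_contra hc
      rw [not_lt] at hc
      have c1 := mul_pos s1 a2
      have c2 := mul_pos s5 a1
      have c3 := mul_nonneg s4.le (neg_nonneg.2 hc)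
      nlinarith
    · by_contra hc
      rw [not_lt] at hc
      have c1 := mul_pos s2 a2
      have c2 := mul_pos s6 a1
      have c3 := mul_nonneg s4.le (neg_nonneg.2 hc)
      nlinarith
  have main : ∀ d i j k, 1 ≤ i → i < j → j < k → k < m → k - i ≤ d + 2 →
      0 < orient (G i) (G j) (G k) := by
    intro d
    induction d with
    | zero =>
      intro i j k hi hij hjk hk hd
      have e1 : j = i + 1 := by omega
      have e2 : k = i + 2 := by omega
      subst e1 e2
      exact h3 i hi hk
    | succ d ih =>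
      intro i j k hi hij hjk hk hd
      by_cases h : j + 1 < k
      · have a1 := ih i j (k - 1) hi hij (by omega) (by omega) (by omega)
        have a2 := ih j (k - 1) k (by omega) (by omega) (by omega) hk (by omega)
        exact (four i j (k - 1) k hi hij (by omega) (by omega) hk a1 a2).1
      · by_cases h' : i + 1 < j
        · have a1 := ih i (i + 1) j hi (by omega) h' (by omega) (by omega)
          have a2 := ih (i + 1) j k (by omega) h' hjk hk (by omega)
          exact (four i (i + 1) j k hi (by omega) h' hjk hk a1 a2).2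
        · have e1 : j = i + 1 := by omega
          have e2 : k = i + 2 := by omega
          subst e1 e2
          exact h3 i hi hk
  intro i j k hij hjk hk
  rcases Nat.eq_zero_or_pos i with h | h
  · subst h
    exact hs j k (by omega) hjk hk
  · exact main (k - i) i j k h hij hjk hk (by omega)

lemma conv_of_pos (hm : 3 ≤ m)
    (h : ∀ i j k, i < j → j < k → k < m → 0 < orient (G i) (G j) (G k)) :
    IsConvexPolygon ((Finset.range m).image G) := by
  classical
  intro z hz
  obtain ⟨i, hi, rfl⟩ := Finset.mem_image.1 (Finset.mem_coe.1 hz)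
  rw [Finset.mem_range] at hi
  rcases Nat.eq_zero_or_pos i with h0 | h0
  · subst h0
    refine extreme_of_side (p := G (m - 1)) (q := G 1) hz ?_ ?_
    · have := h 0 1 (m - 1) (by omega) (by omega) (by omega)
      unfold orient at this ⊢
      linarith
    · intro y hy hne
      obtain ⟨j, hj, rfl⟩ := Finset.mem_image.1 (Finset.mem_coe.1 hy)
      rw [Finset.mem_range] at hj
      have hj0 : j ≠ 0 := by rintro rfl; exact hne rfl
      by_cases h1 : j = 1
      · subst h1; unfold orient; nlinarith
      · by_cases h2 : j = m - 1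
        · subst h2; unfold orient; nlinarith
        · have := h 1 j (m - 1) (by omega) (by omega) (by omega)
          unfold orient at this ⊢
          linarith
  · by_cases hl : i = m - 1
    · refine extreme_of_side (p := G (m - 2)) (q := G 0) hz ?_ ?_
      · have := h 0 (m - 2) i (by omega) (by omega) (by omega)
        unfold orient at this ⊢
        linarith
      · intro y hy hne
        obtain ⟨j, hj, rfl⟩ := Finset.mem_image.1 (Finset.mem_coe.1 hy)
        rw [Finset.mem_range] at hj
        have hji : j ≠ i := by rintro rfl; exact hne rfl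
        by_cases h1 : j = 0
        · subst h1; unfold orient; nlinarith
        · by_cases h2 : j = m - 2
          · subst h2; unfold orient; nlinarith
          · have := h 0 j (m - 2) (by omega) (by omega) (by omega)
            unfold orient at this ⊢
            linarith
    · refine extreme_of_side (p := G (i - 1)) (q := G (i + 1)) hz ?_ ?_
      · have := h (i - 1) i (i + 1) (by omega) (by omega) (by omega)
        unfold orient at this ⊢
        linarith
      · intro y hy hne
        obtain ⟨j, hj, rfl⟩ := Finset.mem_image.1 (Finset.mem_coe.1 hy)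
        rw [Finset.mem_range] at hj
        have hji : j ≠ i := by rintro rfl; exact hne rfl
        by_cases h1 : j = i - 1
        · subst h1; unfold orient; nlinarith
        · by_cases h2 : j = i + 1
          · subst h2; unfold orient; nlinarith
          · rcases Nat.lt_or_ge j (i - 1) with h3 | h3
            · have := h j (i - 1) (i + 1) h3 (by omega) (by omega)
              unfold orient at this ⊢
              linarith
            · have := h (i - 1) (i + 1) j (by omega) (by omega) hj
              unfold orient at this ⊢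
              linarith

end

/-! ## Soundness -/

section
variable {n : ℕ} {P : ℕ → Pt} {T F : ℕ}

lemma fc_sound (hk : Kn n (oP P) T F) {g : ℕ} (hg : g < n) : ∀ (l : List ℕ) (u v : ℕ),
    (∀ i ∈ u :: v :: l, i < n) → fc T F g l u v = true → ∀ i, i + 2 < l.length + 2 →
    0 < oP P ((u :: v :: l).getD i 0) ((u :: v :: l).getD (i + 1) 0)
      ((u :: v :: l).getD (i + 2) 0) ∧
    0 < oP P g ((u :: v :: l).getD (i + 1) 0) ((u :: v :: l).getD (i + 2) 0) := by
  intro l
  induction l with
  | nil => intro u v _ _ i hi; simp at hi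
  | cons w l ih =>
    intro u v hl h i hi
    change an (sg T F u v w) (an (sg T F g v w) (fc T F g l v w)) = true at h
    rw [an_iff, an_iff] at h
    obtain ⟨a1, a2, a3⟩ := h
    have hu := hl u (by simp)
    have hv := hl v (by simp)
    have hw := hl w (by simp)
    cases i with
    | zero =>
      exact ⟨sg_sound hk hu hv hw a1, sg_sound hk hg hv hw a2⟩
    | succ i =>
      have := ih v w (fun i hi => hl i (by
        rcases List.mem_cons.1 hi with h | h
        · subst h; simp
        · exact List.mem_cons_of_mem _ (List.mem_cons_of_mem _ h))) a3 i (by simpa using hi)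
      simpa [List.getD_cons_succ] using this

/-- A fan of labels is a convex polygon. -/
lemma pg_sound (hk : Kn n (oP P) T F) {g h x : ℕ} {l : List ℕ}
    (hl : ∀ i ∈ g :: h :: x :: l, i < n) (h1 : sg T F g h x = true)
    (h2 : al (fun y => sg T F g h y) l = true) (h3 : fc T F g l h x = true) :
    IsConvexPolygon ((g :: h :: x :: l).toFinset.image P) := by
  classical
  have hg := hl g (by simp)
  have hh := hl h (by simp)
  have hx := hl x (by simp)
  set M : List ℕ := g :: h :: x :: l with hM
  have hlen : M.length = l.length + 3 := by simp [hM]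
  let G : ℕ → Pt := fun i => P (M.getD i 0)
  have hfc := fc_sound hk hg l h x (fun i hi => hl i (List.mem_cons_of_mem _ hi)) h3
  have hpos := fan_pos (m := M.length) (G := G) ?_ ?_ ?_
  · have key := conv_of_pos (m := M.length) (G := G) (by omega) hpos
    have he : (Finset.range M.length).image G = M.toFinset.image P := by
      ext z
      simp only [Finset.mem_image, Finset.mem_range, List.mem_toFinset, G]
      constructor
      · rintro ⟨i, hi, rfl⟩
        refine ⟨M.getD i 0, ?_, rfl⟩
        rw [List.getD_eq_getElem _ _ hi]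
        exact List.getElem_mem hi
      · rintro ⟨i, hi, rfl⟩
        obtain ⟨j, hj, hj'⟩ := List.getElem_of_mem hi
        refine ⟨j, hj, ?_⟩
        rw [List.getD_eq_getElem _ _ hj, hj']
    rw [he] at key
    exact key
  · intro j hj hjm
    have e : M.getD j 0 = (x :: l).getD (j - 2) 0 := by
      obtain ⟨j, rfl⟩ : ∃ a, j = a + 2 := ⟨j - 2, by omega⟩
      simp [hM]
    change 0 < orient (P (M.getD 0 0)) (P (M.getD 1 0)) (P (M.getD j 0))
    rw [e]
    have e0 : M.getD 0 0 = g := by simp [hM]
    have e1 : M.getD 1 0 = h := by simp [hM]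
    rw [e0, e1]
    have hlt : j - 2 < (x :: l).length := by simp; omega
    rw [List.getD_eq_getElem _ _ hlt]
    have hmem := List.getElem_mem hlt
    rcases List.mem_cons.1 hmem with h4 | h4
    · rw [h4]
      exact sg_sound hk hg hh hx h1
    · exact sg_sound hk hg hh (hl _ (by simp [hM, h4])) (al_iff.1 h2 _ h4)
  · intro i hi him
    change 0 < orient (P (M.getD 0 0)) (P (M.getD i 0)) (P (M.getD (i + 1) 0))
    have e0 : M.getD 0 0 = g := by simp [hM]
    rw [e0]
    rcases Nat.lt_or_ge 1 i with h4 | h4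
    · have := (hfc (i - 2) (by omega)).2
      rw [show i - 2 + 1 = i - 1 by omega, show i - 2 + 2 = i by omega] at this
      obtain ⟨i, rfl⟩ : ∃ a, i = a + 1 := ⟨i - 1, by omega⟩
      simpa [hM, oP] using this
    · have : i = 1 := by omega
      subst this
      have := sg_sound hk hg hh hx h1
      simpa [hM, oP] using this
  · intro i hi him
    have := (hfc (i - 1) (by omega)).1
    rw [show i - 1 + 1 = i by omega, show i - 1 + 2 = i + 1 by omega] at this
    obtain ⟨i, rfl⟩ : ∃ a, i = a + 1 := ⟨i - 1, by omega⟩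
    simpa [hM, oP, G] using this

/-- The facts on small sets. -/
structure Fr (n : ℕ) (P : ℕ → Pt) : Prop where
  f2 : ∀ Y : Finset Pt, Y.card ≤ 7 → GeneralPosition Y → HCPle (Y : Set Pt) 2
  f3 : ∀ Y : Finset Pt, Y.card ≤ 10 → GeneralPosition Y → HCPle (Y : Set Pt) 3
  f4 : ∀ Y : Finset Pt, Y.card ≤ 15 → GeneralPosition Y → HCPle (Y : Set Pt) 4
  gen : GenP n P

lemma single_leaf {l : List ℕ} (hne : l ≠ []) (h : IsConvexPolygon (l.toFinset.image P)) :
    HCPle (P '' {i | i ∈ l}) 1 := by
  classical
  refine ⟨1, le_refl _, [l.toFinset.image P], rfl, ?_, by simp, ?_⟩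
  · intro Y hY
    simp only [List.mem_singleton] at hY
    subst hY
    refine ⟨?_, h⟩
    rw [Finset.image_nonempty]
    obtain ⟨x, hx⟩ := List.exists_mem_of_ne_nil l hne
    exact ⟨x, List.mem_toFinset.2 hx⟩
  · intro x
    simp

theorem tw_sound (hf : Fr n P) (hk : Kn n (oP P) T F) : ∀ t : Tw, (∀ i ∈ t.pts, i < n) →
    t.pts.Nodup → Tw.chk n T F t = true → HCPle (P '' {i | i ∈ t.pts}) t.cost
  | .t3 l, hl, hnd, h => by
    classical
    change it (Nat.ble 1 (Tw.len l)) (Nat.ble (Tw.len l) 3) false = true at h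
    rcases it_iff.1 h with ⟨a1, a2⟩ | ⟨-, a1⟩
    · rw [Tw.len_eq, Nat.ble_eq] at a1 a2
      have key : leafOK (fun i j k => decide (0 < orient (P i) (P j) (P k))) l = true := by
        match l, a1, a2 with
        | [_], _, _ => rfl
        | [_, _], _, _ => rfl
        | [_, _, _], _, _ => rfl
      obtain ⟨-, h2⟩ := leaf_sound (n := n) hf.gen.inj hf.gen.gp
        (lit := fun i j k => decide (0 < orient (P i) (P j) (P k)))
        (fun i j k _ _ _ h => by simpa using h) hl hnd key
      refine single_leaf ?_ h2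
      rintro rfl
      simp at a1
    · exact absurd a1 (by simp)
  | .pg g u x l, hl, hnd, h => by
    change an (sg T F g u x) (an (al (fun y => sg T F g u y) l) (fc T F g l u x)) = true at h
    rw [an_iff, an_iff] at h
    exact single_leaf (l := g :: u :: x :: l) (by simp) (pg_sound hk hl h.1 h.2.1 h.2.2)
  | .fr k l, hl, hnd, h => by
    classical
    change it (Nat.beq k 2) (Nat.ble (Tw.len l) 7) (it (Nat.beq k 3) (Nat.ble (Tw.len l) 10)
      (it (Nat.beq k 4) (Nat.ble (Tw.len l) 15) false)) = true at h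
    have hc : (l.toFinset.image P).card ≤ l.length :=
      Finset.card_image_le.trans (List.toFinset_card_le l)
    have hg := gp_imageU hf.gen hl
    have he := image_list P l
    rw [Tw.len_eq] at h
    rcases it_iff.1 h with ⟨a1, a2⟩ | ⟨-, h⟩
    · rw [Nat.beq_eq] at a1
      rw [Nat.ble_eq] at a2
      subst a1
      have := hf.f2 _ (hc.trans a2) hg
      rw [he] at this
      exact this
    · rcases it_iff.1 h with ⟨a1, a2⟩ | ⟨-, h⟩
      · rw [Nat.beq_eq] at a1
        rw [Nat.ble_eq] at a2
        subst a1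
        have := hf.f3 _ (hc.trans a2) hg
        rw [he] at this
        exact this
      · rcases it_iff.1 h with ⟨a1, a2⟩ | ⟨-, h⟩
        · rw [Nat.beq_eq] at a1
          rw [Nat.ble_eq] at a2
          subst a1
          have := hf.f4 _ (hc.trans a2) hg
          rw [he] at this
          exact this
        · exact absurd h (by simp)
  | .nd m a b L R, hl, hnd, h => by
    change an (lb a b) (an (lb b n) (an
      (it m (an (Tw.tal (fun x => oo (Nat.beq x a) (sp T F a b x)) L)
          (Tw.tal (fun y => oo (Nat.beq y b) (sp F T a b y)) R))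
        (an (Tw.tal (fun x => oo (Nat.beq x b) (sp T F a b x)) L)
          (Tw.tal (fun y => oo (Nat.beq y a) (sp F T a b y)) R)))
      (an (Tw.chk n T F L) (Tw.chk n T F R)))) = true at h
    rw [an_iff, lb_iff, an_iff, lb_iff, an_iff, an_iff] at h
    obtain ⟨hab, hbn, hc, hcL, hcR⟩ := h
    simp only [Tw.pts, List.mem_append] at hl
    have hnd' := hnd
    simp only [Tw.pts] at hnd'
    rw [List.nodup_append] at hnd'
    have iL := tw_sound hf hk L (fun i hi => hl i (Or.inl hi)) hnd'.1 hcL
    have iR := tw_sound hf hk R (fun i hi => hl i (Or.inr hi)) hnd'.2.1 hcR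
    have heq : P '' {i | i ∈ (Tw.nd m a b L R).pts} =
        P '' {i | i ∈ L.pts} ∪ P '' {i | i ∈ R.pts} := by
      rw [← Set.image_union]
      congr 1
      ext i
      simp [Tw.pts]
    rw [heq]
    refine HCPle.append iL iR ?_
    have hPab : P a ≠ P b := hf.gen.inj a b (by omega) hbn (by omega)
    have pos : ∀ x, x < n → sp T F a b x = true → 0 < orient (P a) (P b) (P x) :=
      fun x hx h => sp_sound hk hab hbn hx h
    have neg : ∀ x, x < n → sp F T a b x = true → orient (P a) (P b) (P x) < 0 := by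
      intro x hx h
      have := sp_sound hk.neg hab hbn hx h
      simp only [oP] at this
      linarith
    rcases it_iff.1 hc with ⟨-, hc⟩ | ⟨-, hc⟩
    · rw [an_iff, Tw.tal_iff, Tw.tal_iff] at hc
      refine hull_disjoint hPab ?_ ?_
      · rintro x ⟨i, hi, rfl⟩ hx
        rcases oo_iff.1 (hc.1 i hi) with h1 | h1
        · rw [Nat.beq_eq] at h1
          subst h1; exact absurd rfl hx
        · exact pos i (hl i (Or.inl hi)) h1
      · rintro x ⟨i, hi, rfl⟩ hx
        rcases oo_iff.1 (hc.2 i hi) with h1 | h1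
        · rw [Nat.beq_eq] at h1
          subst h1; exact absurd rfl hx
        · exact neg i (hl i (Or.inr hi)) h1
    · rw [an_iff, Tw.tal_iff, Tw.tal_iff] at hc
      refine hull_disjoint' (a := P b) (b := P a) hPab.symm ?_ ?_
      · rintro x ⟨i, hi, rfl⟩ hx
        rcases oo_iff.1 (hc.1 i hi) with h1 | h1
        · rw [Nat.beq_eq] at h1
          subst h1; exact absurd rfl hx
        · have := pos i (hl i (Or.inl hi)) h1
          rw [orient_swap]
          linarith
      · rintro x ⟨i, hi, rfl⟩ hx
        rcases oo_iff.1 (hc.2 i hi) with h1 | h1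
        · rw [Nat.beq_eq] at h1
          subst h1; exact absurd rfl hx
        · have := neg i (hl i (Or.inr hi)) h1
          rw [orient_swap]
          linarith

end

/-! ## The theory -/

/-- The label is in the polygon `m`. -/
def ip (n c T F : ℕ) (m : Bool) (l : ℕ) : Bool :=
  an (lb l n) (it m (an (lb 11 l) (tb T (Nat.add c l)))
    (oo (Nat.beq l 11) (an (lb 11 l) (tb F (Nat.add c l)))))

/-- Theory justifications. -/
inductive ThW : Type
  | u0 (i j : ℕ) : ThW
  | ub (i : ℕ) : ThW
  | ua (i j : ℕ) : ThW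
  | bn (t : ℕ) : ThW
  | g (t s p q r : ℕ) (m1 m2 : Bool) : ThW
  | a (i j k l : ℕ) (m : Bool) : ThW
  | st (q a b c : ℕ) : ThW
  | sx (a b c d : ℕ) : ThW
  | pt (m1 m2 : Bool) (q a b c : ℕ) : ThW
  | px (m : Bool) (a b c d : ℕ) : ThW
  | z (t : Tw) : ThW

/-- All literals of a clause are refuted. -/
def rf (T F : ℕ) (c : List Q) : Bool :=
  List.rec (motive := fun _ => Bool) true
    (fun q _ ih => an (it q.1 (sg T F q.2.2.1 q.2.1 q.2.2.2) (sg T F q.2.1 q.2.2.1 q.2.2.2)) ih) c

/-- The theory check. -/
def thw (n c K : ℕ) (x : ThW) (T F : ℕ) : Bool :=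
  ThW.rec (motive := fun _ => Bool)
    (fun i j => an (lb 0 i) (an (lb i j) (an (lb j 11) (sg T F i 0 j))))
    (fun i => an (lb 0 i) (an (lb i n) (it (Nat.beq i 11) false (sg T F 11 0 i))))
    (fun i j => an (lb 10 i) (an (lb i j) (an (lb j n) (sg T F i 0 j))))
    (fun t => an (lb t X11.TG.length) (rf T F (X11.TG.getD t [])))
    (fun t s p q r m1 m2 => an (lb t n) (an (lb s n) (an (lb p n) (an (lb q n) (an (lb r n)
      (an (sm T F m1 t s p) (an (sm T F m1 t s q) (an (sm T F m1 t s r)
        (an (sm T F m2 t p q) (an (sm T F m2 t q r) (sm T F m2 t r p)))))))))))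
    (fun i j k l m => an (lb i n) (an (lb j n) (an (lb k n) (an (lb l n)
      (an (sm T F m i j k) (an (sm T F (not m) i j l) (an (sm T F m i k l)
        (sm T F (not m) j k l))))))))
    (fun q a b c => an (oo (an (lb q 11) (an (lb 10 a) (an (lb 10 b) (lb 10 c))))
        (an (lb 10 q) (an (lb a 11) (an (lb b 11) (lb c 11)))))
      (an (lb q n) (an (lb a n) (an (lb b n) (an (lb c n)
        (an (sg T F a b q) (an (sg T F b c q) (sg T F c a q))))))))
    (fun a b c d => an (lb a 11) (an (lb b 11) (an (lb 10 c) (an (lb 10 d)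
      (an (lb c n) (an (lb d n)
        (an (sg T F a b c) (an (sg T F b a d) (an (sg T F d c a) (sg T F c d b))))))))))
    (fun m1 m2 q a b e => an (ip n c T F m1 q) (an (ip n c T F m2 a) (an (ip n c T F m2 b)
      (an (ip n c T F m2 e) (an (it (Nat.beq q a) false (it (Nat.beq q b) false
        (it (Nat.beq q e) false true))) (an (sg T F a b q) (an (sg T F b e q) (sg T F e a q))))))))
    (fun m a b e d => an (ip n c T F m a) (an (ip n c T F m b) (an (ip n c T F (not m) e)
      (an (ip n c T F (not m) d)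
        (an (sg T F a b e) (an (sg T F b a d) (an (sg T F d e a) (sg T F e d b))))))))
    (fun t => an (Nat.ble t.cst K) (an (Nat.beq t.cn n) (an (Nat.beq t.mk (Nat.sub (Nat.pow 2 n) 1))
      (t.chk n T F)))) x

/-- The hypotheses on the labelled points. -/
structure Hy (n K : ℕ) (P : ℕ → Pt) (B : ℕ → Prop) : Prop where
  fr : Fr n P
  n11 : 12 ≤ n
  nK : ¬ HCPle (P '' {i | i < n}) K
  tg : ∀ c ∈ X11.TG, ∃ q ∈ c, QH P q
  e0 : ∀ i j, 1 ≤ i → i < j → j < 11 → 0 < orient (P 0) (P i) (P j)
  br : ∀ i, i < n → i ≠ 0 → i ≠ 11 → 0 < orient (P 0) (P 11) (P i)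
  sA : ∀ i j, 11 ≤ i → i < j → j < n → 0 < orient (P 0) (P i) (P j)
  sep : Disjoint (convexHull ℝ (P '' {i | i < 11})) (convexHull ℝ (P '' {i | 11 ≤ i ∧ i < n}))
  b11 : ¬ B 11
  ext : ∀ q, 11 ≤ q → q < n →
    P q ∉ convexHull ℝ (P '' {i | 11 ≤ i ∧ i < n ∧ (B i ↔ B q) ∧ i ≠ q})
  dis : Disjoint (convexHull ℝ (P '' {i | 11 ≤ i ∧ i < n ∧ B i}))
    (convexHull ℝ (P '' {i | 11 ≤ i ∧ i < n ∧ ¬ B i}))

lemma tgq_ok : (X11.TG.all fun c => c.all fun q => lb q.2.1 11 && (lb q.2.2.1 11 && lb q.2.2.2 11)) = true := by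
  decide +kernel

section
variable {n c K : ℕ} {P : ℕ → Pt} {B : ℕ → Prop} {T F : ℕ}

lemma sm_pos (hk : Kn n (oP P) T F) {m : Bool} {i j k : ℕ} (hi : i < n) (hj : j < n) (hk' : k < n)
    (h : sm T F m i j k = true) : 0 < (if m = true then orient (P i) (P j) (P k)
      else - orient (P i) (P j) (P k)) := by
  cases m with
  | true =>
    have := sg_sound hk hi hj hk' h
    simpa [oP] using this
  | false =>
    have := sg_sound hk hj hi hk' h
    have h2 := orient_swap (P i) (P j) (P k)
    simp only [oP] at this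
    simp only [Bool.false_eq_true, if_false]
    linarith

lemma ip_sound (hc : c + 12 = n.choose 3) (hb : ¬ B 11)
    (ha : Asg (vw n P (fun v => B (v + 12))) T F) {m : Bool} {l : ℕ} (h : ip n c T F m l = true) :
    11 ≤ l ∧ l < n ∧ (m = true ↔ B l) := by
  unfold ip at h
  rw [an_iff, lb_iff] at h
  obtain ⟨h1, h2⟩ := h
  have key : 11 < l → (vw n P (fun v => B (v + 12)) (c + l) ↔ B l) := by
    intro hl
    unfold vw
    rw [if_neg (by omega)]
    have e : c + l - n.choose 3 + 12 = l := by omega
    simp only [e]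
  rcases it_iff.1 h2 with ⟨h3, h4⟩ | ⟨h3, h4⟩
  · rw [an_iff, lb_iff] at h4
    refine ⟨by omega, h1, fun _ => (key h4.1).1 ((ha _).1 (tb_iff.1 h4.2)), fun _ => h3⟩
  · rcases oo_iff.1 h4 with h5 | h5
    · rw [Nat.beq_eq] at h5
      subst h5
      exact ⟨le_refl _, h1, fun h6 => by rw [h3] at h6; exact absurd h6 (by simp), fun h6 => absurd h6 hb⟩
    · rw [an_iff, lb_iff] at h5
      refine ⟨by omega, h1, fun h6 => by rw [h3] at h6; exact absurd h6 (by simp), fun h6 => ?_⟩
      exact absurd ((key h5.1).2 h6) ((ha _).2 (tb_iff.1 h5.2))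

lemma rf_sound (hk : Kn n (oP P) T F) : ∀ {c : List Q},
    (∀ q ∈ c, q.2.1 < n ∧ q.2.2.1 < n ∧ q.2.2.2 < n) → rf T F c = true → ¬ ∃ q ∈ c, QH P q
  | [], _, _ => by simp
  | q :: c, hc, h => by
    change an (it q.1 (sg T F q.2.2.1 q.2.1 q.2.2.2) (sg T F q.2.1 q.2.2.1 q.2.2.2))
      (rf T F c) = true at h
    rw [an_iff] at h
    obtain ⟨h1, h2⟩ := h
    have ih := rf_sound hk (fun q hq => hc q (List.mem_cons_of_mem _ hq)) h2
    rintro ⟨q', hq', h3⟩
    rcases List.mem_cons.1 hq' with rfl | hq'
    · obtain ⟨a1, a2, a3⟩ := hc q' List.mem_cons_self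
      obtain ⟨s, i, j, k⟩ := q'
      simp only at a1 a2 a3 h1
      rcases it_iff.1 h1 with ⟨b1, b2⟩ | ⟨b1, b2⟩
      · subst b1
        have := sg_sound hk a2 a1 a3 b2
        have h4 := orient_swap (P i) (P j) (P k)
        simp only [QH] at h3
        simp only [oP] at this
        linarith
      · subst b1
        have := sg_sound hk a1 a2 a3 b2
        simp only [QH] at h3
        exact h3 this
    · exact ih ⟨q', hq', h3⟩

lemma nodup_of_len {l : List ℕ} (h1 : ∀ v, v ∈ l ↔ v < n) (h2 : l.length = n) : l.Nodup := by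
  have h3 : l.toFinset = Finset.range n := by
    ext v
    rw [List.mem_toFinset, h1, Finset.mem_range]
  have h4 := congrArg Finset.card h3
  rw [List.card_toFinset, Finset.card_range] at h4
  have h5 : l.dedup = l := (List.dedup_sublist l).eq_of_length (by omega)
  rw [← h5]
  exact List.nodup_dedup l

theorem thw_sound (H : Hy n K P B) (hc : c + 12 = n.choose 3) :
    ∀ (x : ThW) (T F : ℕ), Asg (vw n P (fun v => B (v + 12))) T F → thw n c K x T F = true →
      False := by
  intro x T F ha h
  have hk := kn_of_asg H.fr.gen ha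
  have hsg : ∀ {i j k}, i < n → j < n → k < n → sg T F i j k = true →
      0 < orient (P i) (P j) (P k) := fun hi hj hk' h => sg_sound hk hi hj hk' h
  have h11 := H.n11
  cases x with
  | u0 i j =>
    change an (lb 0 i) (an (lb i j) (an (lb j 11) (sg T F i 0 j))) = true at h
    rw [an_iff, an_iff, an_iff, lb_iff, lb_iff, lb_iff] at h
    obtain ⟨a1, a2, a3, a4⟩ := h
    have := hsg (by omega) (by omega) (by omega) a4
    have h2 := H.e0 i j (by omega) a2 a3
    rw [orient_swap] at this
    linarith
  | ub i =>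
    change an (lb 0 i) (an (lb i n) (it (Nat.beq i 11) false (sg T F 11 0 i))) = true at h
    rw [an_iff, an_iff, lb_iff, lb_iff, it_iff] at h
    obtain ⟨a1, a2, a3⟩ := h
    rcases a3 with ⟨-, a3⟩ | ⟨a3, a4⟩
    · exact absurd a3 (by simp)
    · have hne : i ≠ 11 := by
        rintro rfl
        exact absurd a3 (by decide)
      have h2 := H.br i a2 (by omega) hne
      have := hsg (by omega) (by omega) a2 a4
      rw [orient_swap] at this
      linarith
  | ua i j =>
    change an (lb 10 i) (an (lb i j) (an (lb j n) (sg T F i 0 j))) = true at h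
    rw [an_iff, an_iff, an_iff, lb_iff, lb_iff, lb_iff] at h
    obtain ⟨a1, a2, a3, a4⟩ := h
    have := hsg (by omega) (by omega) (by omega) a4
    have h2 := H.sA i j (by omega) a2 a3
    rw [orient_swap] at this
    linarith
  | bn t =>
    change an (lb t X11.TG.length) (rf T F (X11.TG.getD t [])) = true at h
    rw [an_iff, lb_iff] at h
    have hmem : X11.TG.getD t [] ∈ X11.TG := by
      rw [List.getD_eq_getElem _ _ h.1]
      exact List.getElem_mem h.1
    refine rf_sound hk ?_ h.2 (H.tg _ hmem)
    intro q hq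
    have h3 := tgq_ok
    rw [List.all_eq_true] at h3
    have h4 := h3 _ hmem
    rw [List.all_eq_true] at h4
    have h5 := h4 q hq
    simp only [Bool.and_eq_true, lb_iff] at h5
    omega
  | g t s p q r m1 m2 =>
    change an (lb t n) (an (lb s n) (an (lb p n) (an (lb q n) (an (lb r n)
      (an (sm T F m1 t s p) (an (sm T F m1 t s q) (an (sm T F m1 t s r)
        (an (sm T F m2 t p q) (an (sm T F m2 t q r) (sm T F m2 t r p))))))))))= true at h
    simp only [an_iff, lb_iff] at h
    obtain ⟨ht, hs, hp, hq, hr, b1, b2, b3, b4, b5, b6⟩ := h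
    have b1 := sm_pos hk ht hs hp b1
    have b2 := sm_pos hk ht hs hq b2
    have b3 := sm_pos hk ht hs hr b3
    have b4 := sm_pos hk ht hp hq b4
    have b5 := sm_pos hk ht hq hr b5
    have b6 := sm_pos hk ht hr hp b6
    have key := orient_gp3 (P t) (P s) (P p) (P q) (P r)
    have e : orient (P t) (P p) (P r) = - orient (P t) (P r) (P p) := orient_swap' _ _ _
    rw [e] at key
    cases m1 <;> cases m2 <;> simp only [Bool.false_eq_true, if_true, if_false] at b1 b2 b3 b4 b5 b6
    · have c1 := mul_pos b1 b5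
      have c2 := mul_pos b2 b6
      have c3 := mul_pos b3 b4
      nlinarith
    · have c1 := mul_pos b1 b5
      have c2 := mul_pos b2 b6
      have c3 := mul_pos b3 b4
      nlinarith
    · have c1 := mul_pos b1 b5
      have c2 := mul_pos b2 b6
      have c3 := mul_pos b3 b4
      nlinarith
    · have c1 := mul_pos b1 b5
      have c2 := mul_pos b2 b6
      have c3 := mul_pos b3 b4
      nlinarith
  | a i j k l m =>
    change an (lb i n) (an (lb j n) (an (lb k n) (an (lb l n)
      (an (sm T F m i j k) (an (sm T F (not m) i j l) (an (sm T F m i k l)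
        (sm T F (not m) j k l))))))) = true at h
    simp only [an_iff, lb_iff] at h
    obtain ⟨hi, hj, hk', hl, b1, b2, b3, b4⟩ := h
    have b1 := sm_pos hk hi hj hk' b1
    have b2 := sm_pos hk hi hj hl b2
    have b3 := sm_pos hk hi hk' hl b3
    have b4 := sm_pos hk hj hk' hl b4
    have key := orient_ac4 (P i) (P j) (P k) (P l)
    cases m <;> simp only [Bool.not_false, Bool.not_true, Bool.false_eq_true, if_true, if_false] at b1 b2 b3 b4
    · linarith
    · linarith
  | st q a b c =>
    change an (oo (an (lb q 11) (an (lb 10 a) (an (lb 10 b) (lb 10 c))))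
        (an (lb 10 q) (an (lb a 11) (an (lb b 11) (lb c 11)))))
      (an (lb q n) (an (lb a n) (an (lb b n) (an (lb c n)
        (an (sg T F a b q) (an (sg T F b c q) (sg T F c a q))))))) = true at h
    simp only [an_iff, oo_iff, lb_iff] at h
    obtain ⟨h1, hq, ha', hb, hc', b1, b2, b3⟩ := h
    have hm := mem_triangle (hsg ha' hb hq b1) (hsg hb hc' hq b2) (hsg hc' ha' hq b3)
    rcases h1 with ⟨g1, g2, g3, g4⟩ | ⟨g1, g2, g3, g4⟩
    · refine Set.disjoint_left.1 H.sep (subset_convexHull ℝ _ ⟨q, g1, rfl⟩) (convexHull_mono ?_ hm)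
      rintro x (rfl | rfl | rfl)
      · exact ⟨a, ⟨by omega, ha'⟩, rfl⟩
      · exact ⟨b, ⟨by omega, hb⟩, rfl⟩
      · exact ⟨c, ⟨by omega, hc'⟩, rfl⟩
    · refine Set.disjoint_left.1 H.sep (convexHull_mono ?_ hm)
        (subset_convexHull ℝ _ ⟨q, ⟨by omega, hq⟩, rfl⟩)
      rintro x (rfl | rfl | rfl)
      · exact ⟨a, g2, rfl⟩
      · exact ⟨b, g3, rfl⟩
      · exact ⟨c, g4, rfl⟩
  | sx a b c d =>
    change an (lb a 11) (an (lb b 11) (an (lb 10 c) (an (lb 10 d)
      (an (lb c n) (an (lb d n)
        (an (sg T F a b c) (an (sg T F b a d) (an (sg T F d c a) (sg T F c d b))))))))) = true at h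
    simp only [an_iff, lb_iff] at h
    obtain ⟨g1, g2, g3, g4, hc', hd, b1, b2, b3, b4⟩ := h
    obtain ⟨z, z1, z2⟩ := cross_point (hsg (by omega) (by omega) hc' b1)
      (hsg (by omega) (by omega) hd b2) (hsg hd hc' (by omega) b3) (hsg hc' hd (by omega) b4)
    refine Set.disjoint_left.1 H.sep (convexHull_mono ?_ z1) (convexHull_mono ?_ z2)
    · rintro x (rfl | rfl)
      · exact ⟨a, g1, rfl⟩
      · exact ⟨b, g2, rfl⟩
    · rintro x (rfl | rfl)
      · exact ⟨c, ⟨by omega, hc'⟩, rfl⟩
      · exact ⟨d, ⟨by omega, hd⟩, rfl⟩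
  | pt m1 m2 q a b e =>
    change an (ip n c T F m1 q) (an (ip n c T F m2 a) (an (ip n c T F m2 b)
      (an (ip n c T F m2 e) (an (it (Nat.beq q a) false (it (Nat.beq q b) false
        (it (Nat.beq q e) false true))) (an (sg T F a b q) (an (sg T F b e q)
          (sg T F e a q))))))) = true at h
    simp only [an_iff] at h
    obtain ⟨g1, g2, g3, g4, g5, b1, b2, b3⟩ := h
    obtain ⟨q1, q2, q3⟩ := ip_sound hc H.b11 ha g1
    obtain ⟨a1, a2, a3⟩ := ip_sound hc H.b11 ha g2
    obtain ⟨p1, p2, p3⟩ := ip_sound hc H.b11 ha g3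
    obtain ⟨e1, e2, e3⟩ := ip_sound hc H.b11 ha g4
    have hm := mem_triangle (hsg a2 p2 q2 b1) (hsg p2 e2 q2 b2) (hsg e2 a2 q2 b3)
    have hne : ∀ i, Nat.beq q i = false → i ≠ q := by
      intro i h5 h6
      subst h6
      have : Nat.beq i i = true := by rw [Nat.beq_eq]
      rw [this] at h5
      exact absurd h5 (by simp)
    rcases it_iff.1 g5 with ⟨-, h5⟩ | ⟨n1, g5⟩
    · exact absurd h5 (by simp)
    rcases it_iff.1 g5 with ⟨-, h5⟩ | ⟨n2, g5⟩
    · exact absurd h5 (by simp)
    rcases it_iff.1 g5 with ⟨-, h5⟩ | ⟨n3, g5⟩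
    · exact absurd h5 (by simp)
    have n1 := hne _ n1
    have n2 := hne _ n2
    have n3 := hne _ n3
    by_cases hmm : m1 = m2
    · subst hmm
      refine H.ext q q1 q2 (convexHull_mono ?_ hm)
      rintro x (rfl | rfl | rfl)
      · exact ⟨a, ⟨a1, a2, by rw [← a3, ← q3], n1⟩, rfl⟩
      · exact ⟨b, ⟨p1, p2, by rw [← p3, ← q3], n2⟩, rfl⟩
      · exact ⟨e, ⟨e1, e2, by rw [← e3, ← q3], n3⟩, rfl⟩
    · cases m1 with
      | true =>
        have hm2 : m2 = false := by
          cases m2
          · rfl
          · exact absurd rfl hmm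
        subst hm2
        simp only [Bool.false_eq_true, false_iff] at a3 p3 e3
        refine Set.disjoint_left.1 H.dis (subset_convexHull ℝ _ ⟨q, ⟨q1, q2, q3.1 rfl⟩, rfl⟩)
          (convexHull_mono ?_ hm)
        rintro x (rfl | rfl | rfl)
        · exact ⟨a, ⟨a1, a2, a3⟩, rfl⟩
        · exact ⟨b, ⟨p1, p2, p3⟩, rfl⟩
        · exact ⟨e, ⟨e1, e2, e3⟩, rfl⟩
      | false =>
        have hm2 : m2 = true := by
          cases m2
          · exact absurd rfl hmm
          · rfl
        subst hm2
        simp only [Bool.false_eq_true, false_iff] at q3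
        refine Set.disjoint_left.1 H.dis (convexHull_mono ?_ hm)
          (subset_convexHull ℝ _ ⟨q, ⟨q1, q2, q3⟩, rfl⟩)
        rintro x (rfl | rfl | rfl)
        · exact ⟨a, ⟨a1, a2, a3.1 rfl⟩, rfl⟩
        · exact ⟨b, ⟨p1, p2, p3.1 rfl⟩, rfl⟩
        · exact ⟨e, ⟨e1, e2, e3.1 rfl⟩, rfl⟩
  | px m a b e d =>
    change an (ip n c T F m a) (an (ip n c T F m b) (an (ip n c T F (not m) e)
      (an (ip n c T F (not m) d)
        (an (sg T F a b e) (an (sg T F b a d) (an (sg T F d e a) (sg T F e d b))))))) = true at h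
    simp only [an_iff] at h
    obtain ⟨g1, g2, g3, g4, b1, b2, b3, b4⟩ := h
    obtain ⟨a1, a2, a3⟩ := ip_sound hc H.b11 ha g1
    obtain ⟨p1, p2, p3⟩ := ip_sound hc H.b11 ha g2
    obtain ⟨e1, e2, e3⟩ := ip_sound hc H.b11 ha g3
    obtain ⟨d1, d2, d3⟩ := ip_sound hc H.b11 ha g4
    obtain ⟨z, z1, z2⟩ := cross_point (hsg a2 p2 e2 b1) (hsg p2 a2 d2 b2) (hsg d2 e2 a2 b3)
      (hsg e2 d2 p2 b4)
    cases m with
    | true =>
      simp only [Bool.not_true, Bool.false_eq_true, false_iff] at e3 d3
      refine Set.disjoint_left.1 H.dis (convexHull_mono ?_ z1) (convexHull_mono ?_ z2)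
      · rintro x (rfl | rfl)
        · exact ⟨a, ⟨a1, a2, a3.1 rfl⟩, rfl⟩
        · exact ⟨b, ⟨p1, p2, p3.1 rfl⟩, rfl⟩
      · rintro x (rfl | rfl)
        · exact ⟨e, ⟨e1, e2, e3⟩, rfl⟩
        · exact ⟨d, ⟨d1, d2, d3⟩, rfl⟩
    | false =>
      simp only [Bool.not_false, true_iff, Bool.false_eq_true, false_iff] at a3 p3 e3 d3
      refine Set.disjoint_left.1 H.dis (convexHull_mono ?_ z2) (convexHull_mono ?_ z1)
      · rintro x (rfl | rfl)
        · exact ⟨e, ⟨e1, e2, e3⟩, rfl⟩
        · exact ⟨d, ⟨d1, d2, d3⟩, rfl⟩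
      · rintro x (rfl | rfl)
        · exact ⟨a, ⟨a1, a2, a3⟩, rfl⟩
        · exact ⟨b, ⟨p1, p2, p3⟩, rfl⟩
  | z t =>
    change an (Nat.ble t.cst K) (an (Nat.beq t.cn n)
      (an (Nat.beq t.mk (Nat.sub (Nat.pow 2 n) 1)) (t.chk n T F))) = true at h
    simp only [an_iff, Nat.ble_eq, Nat.beq_eq] at h
    obtain ⟨b1, b2, b3, b4⟩ := h
    rw [Tw.cst_eq] at b1
    rw [Tw.cn_eq] at b2
    have hmem : ∀ v, v ∈ t.pts ↔ v < n := by
      intro v
      rw [← Tw.mk_iff, b3]
      change (2 ^ n - 1).testBit v = true ↔ _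
      rw [Nat.testBit_two_pow_sub_one, decide_eq_true_eq]
    have hnd := nodup_of_len hmem b2
    apply H.nK
    have := (tw_sound H.fr hk t (fun i hi => (hmem i).1 hi) hnd b4).mono b1
    have he : {i | i ∈ t.pts} = {i | i < n} := by
      ext i
      exact hmem i
    rw [he] at this
    exact this

end

/-! ## Base masks -/

/-- The mask of a list of variables. -/
def msk (l : List ℕ) : ℕ := l.foldr (fun v m => Nat.lor m (Nat.pow 2 v)) 0

lemma msk_testBit {l : List ℕ} {v : ℕ} (h : (msk l).testBit v = true) : v ∈ l := by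
  induction l with
  | nil => simp [msk] at h
  | cons a l ih =>
    have e : msk (a :: l) = (msk l) ||| (2 ^ a) := rfl
    rw [e, Nat.testBit_or, Bool.or_eq_true] at h
    rcases h with h | h
    · exact List.mem_cons_of_mem _ (ih h)
    · rw [Nat.testBit_two_pow, decide_eq_true_eq] at h
      rw [h]
      exact List.mem_cons_self

/-- The base masks from checked unit literals: each unit is refuted by a theory check. -/
theorem asg_units {α : Type} {σ : ℕ → Prop} {th : α → ℕ → ℕ → Bool}
    (hth : ∀ x T F, Asg σ T F → th x T F = true → False) (tv fv : List (ℕ × α))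
    (h1 : tv.all (fun q => th q.2 0 (Nat.pow 2 q.1)) = true)
    (h2 : fv.all (fun q => th q.2 (Nat.pow 2 q.1) 0) = true) :
    Asg σ (msk (tv.map Prod.fst)) (msk (fv.map Prod.fst)) := by
  rw [List.all_eq_true] at h1 h2
  intro v
  constructor
  · intro h
    obtain ⟨q, hq, rfl⟩ := List.mem_map.1 (msk_testBit h)
    by_contra hc
    refine hth q.2 _ _ ?_ (h1 q hq)
    intro w
    constructor
    · intro h3; simp at h3
    · intro h3
      have h3' : (2 ^ q.1).testBit w = true := h3
      rw [Nat.testBit_two_pow] at h3'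
      simp only [decide_eq_true_eq] at h3'
      rw [← h3']
      exact hc
  · intro h hc
    obtain ⟨q, hq, rfl⟩ := List.mem_map.1 (msk_testBit h)
    refine hth q.2 _ _ ?_ (h2 q hq)
    intro w
    constructor
    · intro h3
      have h3' : (2 ^ q.1).testBit w = true := h3
      rw [Nat.testBit_two_pow] at h3'
      simp only [decide_eq_true_eq] at h3'
      rw [← h3']
      exact hc
    · intro h3; simp at h3

end

end W

end Pool.Agent.GCP
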