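import Pool.Agent.GCP.Defs

/-!
# Certificates for convex partitions: cutting trees
-/

namespace Pool.Agent.GCP

/-- List form of a convex partition of a set of points. -/
def HCP (X : Set Pt) (k : ℕ) : Prop :=
  ∃ Ys : List (Finset Pt), Ys.length = k ∧ (∀ Y ∈ Ys, Y.Nonempty ∧ IsConvexPolygon Y) ∧
    Ys.Pairwise (fun A B : Finset Pt => Disjoint (convexHull ℝ (A : Set Pt)) (convexHull ℝ (B : Set Pt))) ∧
    (∀ x, x ∈ X ↔ ∃ Y ∈ Ys, x ∈ Y)

lemma HCP.append {X X' : Set Pt} {k k' : ℕ} (h : HCP X k) (h' : HCP X' k')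
    (hd : Disjoint (convexHull ℝ X) (convexHull ℝ X')) : HCP (X ∪ X') (k + k') := by
  obtain ⟨Ys, h1, h2, h3, h4⟩ := h
  obtain ⟨Zs, g1, g2, g3, g4⟩ := h'
  refine ⟨Ys ++ Zs, by simp [h1, g1], ?_, ?_, ?_⟩
  · intro Y hY
    rcases List.mem_append.1 hY with hY | hY
    · exact h2 Y hY
    · exact g2 Y hY
  · rw [List.pairwise_append]
    refine ⟨h3, g3, ?_⟩
    intro A hA B hB
    refine hd.mono (convexHull_mono ?_) (convexHull_mono ?_)
    · intro x hx
      exact (h4 x).2 ⟨A, hA, hx⟩
    · intro x hx
      exact (g4 x).2 ⟨B, hB, hx⟩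
  · intro x
    simp only [Set.mem_union, h4 x, g4 x, List.mem_append]
    constructor
    · rintro (⟨Y, hY, hx⟩ | ⟨Y, hY, hx⟩)
      · exact ⟨Y, Or.inl hY, hx⟩
      · exact ⟨Y, Or.inr hY, hx⟩
    · rintro ⟨Y, hY | hY, hx⟩
      · exact Or.inl ⟨Y, hY, hx⟩
      · exact Or.inr ⟨Y, hY, hx⟩

lemma HCP.toPartition {X : Finset Pt} {k : ℕ} (h : HCP (X : Set Pt) k) :
    HasConvexPartition X k := by
  obtain ⟨Ys, h1, h2, h3, h4⟩ := h
  subst h1
  have hd : ∀ i j : Fin Ys.length, i ≠ j →
      Disjoint (convexHull ℝ (Ys.get i : Set Pt)) (convexHull ℝ (Ys.get j : Set Pt)) := by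
    intro i j hij
    rw [List.pairwise_iff_get] at h3
    rcases lt_or_gt_of_ne hij with h | h
    · exact h3 i j h
    · exact (h3 j i h).symm
  refine ⟨fun i => Ys.get i, fun i => (h2 _ (List.get_mem _ _)).1, ?_, ?_,
    fun i => (h2 _ (List.get_mem _ _)).2, hd⟩
  · intro i j hij
    rw [Finset.disjoint_left]
    intro x hx hx'
    have := hd i j hij
    rw [Set.disjoint_left] at this
    exact this (subset_convexHull ℝ _ hx) (subset_convexHull ℝ _ hx')
  · ext x
    rw [Finset.mem_biUnion]
    have := h4 x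
    rw [Finset.mem_coe] at this
    rw [this]
    constructor
    · rintro ⟨i, -, hx⟩
      exact ⟨_, List.get_mem _ _, hx⟩
    · rintro ⟨Y, hY, hx⟩
      obtain ⟨i, hi⟩ := List.get_of_mem hY
      exact ⟨i, Finset.mem_univ _, by rw [hi]; exact hx⟩

/-- A cutting tree: the leaves are the polygons, a node cuts along the line through the points
with indices `a` and `b`. -/
inductive Tr : Type
  | leaf (l : List ℕ) : Tr
  | node (a b : ℕ) (L R : Tr) : Tr

namespace Tr

/-- All indices in the tree. -/
def pts : Tr → List ℕ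
  | leaf l => l
  | node _ _ L R => L.pts ++ R.pts

/-- The number of leaves. -/
def leaves : Tr → ℕ
  | leaf _ => 1
  | node _ _ L R => L.leaves + R.leaves

end Tr

/-- Check that a list of indices is in convex position, `lit i j k` meaning that the triple is
known to be positively oriented. -/
def leafOK (lit : ℕ → ℕ → ℕ → Bool) : List ℕ → Bool
  | [] => false
  | [_] => true
  | [_, _] => true
  | [_, _, _] => true
  | [w, x, y, z] => lit w x y && lit x y z && lit y z w && lit z w x
  | l => l.all fun x => l.any fun p => l.any fun q =>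
      lit p x q && l.all fun z => z == p || z == x || z == q || lit p q z

namespace Tr

/-- The check of a cutting tree. -/
def chk (n : ℕ) (lit : ℕ → ℕ → ℕ → Bool) : Tr → Bool
  | leaf l => leafOK lit l
  | node a b L R => (Nat.blt a n) && (Nat.blt b n) && (a != b) && (L.pts.all fun x => x == a || lit a b x) &&
      (R.pts.all fun y => y == b || lit b a y) && L.chk n lit && R.chk n lit

end Tr

section
variable {n : ℕ} {P : ℕ → Pt}

lemma pair_extreme {x y : Pt} (h : x ≠ y) :
    x ∈ (convexHull ℝ ({x, y} : Set Pt)).extremePoints ℝ := by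
  refine extreme_of_side (p := y) (q := (y.1 - (x.2 - y.2), y.2 + (x.1 - y.1))) (by simp) ?_ ?_
  · unfold orient
    simp only
    have h1 : (x.1 - y.1) ^ 2 + (x.2 - y.2) ^ 2 ≠ 0 := by
      intro h2
      apply h
      ext
      · nlinarith [sq_nonneg (x.1 - y.1), sq_nonneg (x.2 - y.2)]
      · nlinarith [sq_nonneg (x.1 - y.1), sq_nonneg (x.2 - y.2)]
    have h2 : 0 < (x.1 - y.1) ^ 2 + (x.2 - y.2) ^ 2 :=
      lt_of_le_of_ne (by positivity) (Ne.symm h1)
    nlinarith
  · intro z hz hzx
    simp only [Set.mem_insert_iff, Set.mem_singleton_iff] at hz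
    rcases hz with rfl | rfl
    · exact absurd rfl hzx
    · simp

lemma leaf_sound
    (hinj : ∀ i j, i < n → j < n → i ≠ j → P i ≠ P j)
    (hgp : ∀ i j k, i < n → j < n → k < n → i ≠ j → j ≠ k → i ≠ k →
      orient (P i) (P j) (P k) ≠ 0)
    {lit : ℕ → ℕ → ℕ → Bool} (hlit : ∀ i j k, i < n → j < n → k < n → lit i j k = true →
      0 < orient (P i) (P j) (P k))
    {l : List ℕ} (hl : ∀ i ∈ l, i < n) (hnd : l.Nodup) (h : leafOK lit l = true) :
    (l.toFinset.image P).Nonempty ∧ IsConvexPolygon (l.toFinset.image P) := by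
  have hne : l ≠ [] := by
    rintro rfl
    simp [leafOK] at h
  have hNon : (l.toFinset.image P).Nonempty := by
    rw [Finset.image_nonempty]
    obtain ⟨x, hx⟩ := List.exists_mem_of_ne_nil l hne
    exact ⟨x, List.mem_toFinset.2 hx⟩
  refine ⟨hNon, ?_⟩
  -- general criterion
  have key : ∀ i ∈ l, ∀ p q, orient (P p) (P q) (P i) < 0 →
      (∀ j ∈ l, j ≠ i → 0 ≤ orient (P p) (P q) (P j)) →
      P i ∈ (convexHull ℝ ((l.toFinset.image P : Finset Pt) : Set Pt)).extremePoints ℝ := by
    intro i hi p q h1 h2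
    refine extreme_of_side ?_ h1 ?_
    · exact Finset.mem_coe.2 (Finset.mem_image_of_mem _ (List.mem_toFinset.2 hi))
    · intro y hy hyi
      rw [Finset.mem_coe, Finset.mem_image] at hy
      obtain ⟨j, hj, rfl⟩ := hy
      refine h2 j (List.mem_toFinset.1 hj) ?_
      rintro rfl
      exact hyi rfl
  have key' : ∀ i ∈ l, ∀ p q, 0 < orient (P p) (P i) (P q) →
      (∀ j ∈ l, j ≠ i → 0 ≤ orient (P p) (P q) (P j)) →
      P i ∈ (convexHull ℝ ((l.toFinset.image P : Finset Pt) : Set Pt)).extremePoints ℝ := by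
    intro i hi p q h1 h2
    refine key i hi p q ?_ h2
    rw [orient_swap']
    linarith
  intro x hx
  rw [Finset.mem_coe, Finset.mem_image] at hx
  obtain ⟨i, hi, rfl⟩ := hx
  rw [List.mem_toFinset] at hi
  match l, hl, hnd, h, hi, key, key' with
  | [a], _, _, _, hi, _, _ =>
    simp only [List.mem_singleton] at hi
    subst hi
    simp
  | [a, b], hl, hnd, _, hi, _, _ =>
    simp only [List.toFinset_cons, List.toFinset_nil, insert_empty_eq, Finset.image_insert,
      Finset.image_singleton, Finset.coe_insert, Finset.coe_singleton]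
    simp only [List.nodup_cons, List.mem_cons, List.not_mem_nil, or_false, 
      List.nodup_nil, and_true, not_false_iff] at hnd
    have ha := hl a (by simp)
    have hb := hl b (by simp)
    have h0 := hinj a b ha hb hnd
    simp only [List.mem_cons, List.not_mem_nil, or_false] at hi
    rcases hi with rfl | rfl
    · exact pair_extreme h0
    · rw [Set.pair_comm]
      exact pair_extreme h0.symm
  | [a, b, c], hl, hnd, _, hi, key, key' =>
    simp only [List.nodup_cons, List.mem_cons, List.not_mem_nil, or_false, not_or,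
      List.nodup_nil, and_true, not_false_iff] at hnd
    have ha := hl a (by simp)
    have hb := hl b (by simp)
    have hc := hl c (by simp)
    have h0 := hgp a b c ha hb hc hnd.1.1 hnd.2 hnd.1.2
    have h1 : orient (P b) (P c) (P a) = orient (P a) (P b) (P c) := orient_cyc _ _ _
    have h2 : orient (P c) (P a) (P b) = orient (P a) (P b) (P c) := by
      rw [orient_cyc, orient_cyc]
    have h3 := orient_swap (P a) (P b) (P c)
    have h4 := orient_swap (P b) (P c) (P a)
    have h5 := orient_swap (P c) (P a) (P b)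
    simp only [List.mem_cons, List.not_mem_nil, or_false, forall_eq_or_imp, forall_eq] at key
    simp only [List.mem_cons, List.not_mem_nil, or_false] at hi
    rcases lt_or_gt_of_ne h0 with h | h
    · rcases hi with rfl | rfl | rfl
      · exact key.1 b c (by linarith) (by simp)
      · exact key.2.1 c a (by linarith) (by simp)
      · exact key.2.2 a b (by linarith) (by simp)
    · rcases hi with rfl | rfl | rfl
      · exact key.1 c b (by linarith) (by simp)
      · exact key.2.1 a c (by linarith) (by simp)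
      · exact key.2.2 b a (by linarith) (by simp)
  | [w, x, y, z], hl, hnd, h, hi, key, key' =>
    have hw := hl w (by simp)
    have hx := hl x (by simp)
    have hy := hl y (by simp)
    have hz := hl z (by simp)
    simp only [leafOK, Bool.and_eq_true] at h
    have e1 := hlit w x y hw hx hy h.1.1.1
    have e2 := hlit x y z hx hy hz h.1.1.2
    have e3 := hlit y z w hy hz hw h.1.2
    have e4 := hlit z w x hz hw hx h.2
    have f1 := orient_cyc (P w) (P x) (P y)
    have f2 := orient_cyc (P x) (P y) (P z)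
    have f3 := orient_cyc (P y) (P z) (P w)
    have f4 := orient_cyc (P z) (P w) (P x)
    have g1 := orient_cyc (P x) (P y) (P w)
    have g2 := orient_cyc (P y) (P z) (P x)
    have g3 := orient_cyc (P z) (P w) (P y)
    have g4 := orient_cyc (P w) (P x) (P z)
    simp only [List.mem_cons, List.not_mem_nil, or_false, forall_eq_or_imp, forall_eq] at key'
    simp only [List.mem_cons, List.not_mem_nil, or_false] at hi
    rcases hi with rfl | rfl | rfl | rfl
    · exact key'.1 z x e4 ⟨by simp, by simp, fun _ => by linarith, by simp⟩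
    · exact key'.2.1 w y e1 ⟨by simp, by simp, by simp, fun _ => by linarith⟩
    · exact key'.2.2.1 x z e2 ⟨fun _ => by linarith, by simp, by simp, by simp⟩
    · exact key'.2.2.2 y w e3 ⟨by simp, fun _ => by linarith, by simp, by simp⟩
  | (a :: b :: c :: d :: e :: l'), hl, hnd, h, hi, key, key' =>
    simp only [leafOK] at h
    rw [List.all_eq_true] at h
    have h1 := h i hi
    rw [List.any_eq_true] at h1
    obtain ⟨p, hp, h1⟩ := h1
    rw [List.any_eq_true] at h1
    obtain ⟨q, hq, h1⟩ := h1
    rw [Bool.and_eq_true, List.all_eq_true] at h1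
    refine key' i hi p q (hlit p i q (hl p hp) (hl i hi) (hl q hq) h1.1) ?_
    intro j hj hji
    have h2 := h1.2 j hj
    simp only [Bool.or_eq_true, beq_iff_eq] at h2
    rcases h2 with ((h2 | h2) | h2) | h2
    · subst h2; simp
    · exact absurd h2 hji
    · subst h2; simp
    · exact (hlit p q j (hl p hp) (hl q hq) (hl j hj) h2).le

theorem tree_sound
    (hinj : ∀ i j, i < n → j < n → i ≠ j → P i ≠ P j)
    (hgp : ∀ i j k, i < n → j < n → k < n → i ≠ j → j ≠ k → i ≠ k →
      orient (P i) (P j) (P k) ≠ 0)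
    {lit : ℕ → ℕ → ℕ → Bool} (hlit : ∀ i j k, i < n → j < n → k < n → lit i j k = true →
      0 < orient (P i) (P j) (P k)) :
    ∀ t : Tr, (∀ i ∈ t.pts, i < n) → t.pts.Nodup → t.chk n lit = true → HCP (P '' {i | i ∈ t.pts}) t.leaves
  | .leaf l, hl, hnd, h => by
    obtain ⟨h1, h2⟩ := leaf_sound hinj hgp hlit hl hnd h
    refine ⟨[l.toFinset.image P], rfl, ?_, by simp, ?_⟩
    · intro Y hY
      simp only [List.mem_singleton] at hY
      subst hY
      exact ⟨h1, h2⟩
    · intro x
      simp [Tr.pts]
  | .node a b L R, hl, hnd, h => by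
    simp only [Tr.chk, Bool.and_eq_true, bne_iff_ne, ne_eq, Nat.blt_eq] at h
    obtain ⟨⟨⟨⟨⟨⟨ha, hb⟩, hab⟩, hL⟩, hR⟩, hcL⟩, hcR⟩ := h
    rw [List.all_eq_true] at hL hR
    simp only [Tr.pts, List.mem_append] at hl
    have hnd' := hnd
    simp only [Tr.pts] at hnd'
    rw [List.nodup_append] at hnd'
    have iL := tree_sound hinj hgp hlit L (fun i hi => hl i (Or.inl hi)) hnd'.1 hcL
    have iR := tree_sound hinj hgp hlit R (fun i hi => hl i (Or.inr hi)) hnd'.2.1 hcR
    have heq : P '' {i | i ∈ (Tr.node a b L R).pts} =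
        P '' {i | i ∈ L.pts} ∪ P '' {i | i ∈ R.pts} := by
      rw [← Set.image_union]
      congr 1
      ext i
      simp [Tr.pts]
    rw [heq]
    refine HCP.append iL iR (hull_disjoint (hinj a b ha hb hab) ?_ ?_)
    · rintro x ⟨i, hi, rfl⟩ hx
      have h1 := hL i hi
      simp only [Bool.or_eq_true, beq_iff_eq] at h1
      rcases h1 with h1 | h1
      · subst h1; exact absurd rfl hx
      · exact hlit a b i ha hb (hl i (Or.inl hi)) h1
    · rintro x ⟨i, hi, rfl⟩ hx
      have h1 := hR i hi
      simp only [Bool.or_eq_true, beq_iff_eq] at h1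
      rcases h1 with h1 | h1
      · subst h1; exact absurd rfl hx
      · have := hlit b a i hb ha (hl i (Or.inr hi)) h1
        rw [orient_swap] at this
        linarith

end

end Pool.Agent.GCP
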