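import Pool.Agent.GCP.UN3d

set_option autoImplicit false
set_option maxRecDepth 100000

/-! # Certificates of three chords (generated, MP_062f91_co) -/

namespace Pool.Agent.GCP.UN3

open Pool.Agent.GCP DB

namespace N22

theorem b0 : B 0 64 := Blk.of_chk [.t 1 (nat_lit 0) (.ac 1 2 18 19), .t 1 (nat_lit 0) (.ac 1 6 8 14), .t 1 (nat_lit 0) (.ac 1 9 18 19), .t 1 (nat_lit 0) (.ac 1 10 17 19), .t 1 (nat_lit 0) (.ac 1 15 18 19), .t 1 (nat_lit 0) (.ac 1 16 18 19), .t 1 (nat_lit 0) (.ac 2 10 15 18), .t 1 (nat_lit 0) (.ac 2 10 16 18), .t 1 (nat_lit 0) (.ac 2 10 17 18), .t 1 (nat_lit 0) (.ac 2 14 15 18), .t 1 (nat_lit 0) (.ac 2 14 16 18), .t 1 (nat_lit 0) (.ac 3 0 18 19), .t 1 (nat_lit 0) (.ac 4 0 18 19), .t 1 (nat_lit 0) (.ac 5 2 6 8), .t 1 (nat_lit 0) (.ac 5 14 15 18), .t 1 (nat_lit 0) (.ac 5 14 16 18), .t 1 (nat_lit 0) (.ac 6 4 15 18), .t 1 (nat_lit 0) (.ac 6 4 16 18), .t 1 (nat_lit 0) (.ac 6 4 17 18), .t 1 (nat_lit 0) (.ac 6 8 15 18), .t 1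 (nat_lit 0) (.ac 6 10 16 18), .t 1 (nat_lit 0) (.ac 6 14 15 18), .t 1 (nat_lit 0) (.ac 6 14 16 18), .t 1 (nat_lit 0) (.ac 7 0 18 19), .t 1 (nat_lit 0) (.ac 7 8 9 14), .t 1 (nat_lit 0) (.ac 7 8 12 17), .t 1 (nat_lit 0) (.ac 7 8 13 17), .t 1 (nat_lit 0) (.ac 7 9 10 12), .t 1 (nat_lit 0) (.ac 7 9 12 14), .t 1 (nat_lit 0) (.ac 7 15 18 19), .t 1 (nat_lit 0) (.ac 7 16 18 19), .t 1 (nat_lit 0) (.ac 7 17 18 19), .t 1 (nat_lit 0) (.ac 9 4 10 15), .t 1 (nat_lit 0) (.ac 9 4 15 18), .t 1 (nat_lit 0) (.ac 9 4 16 18), .t 1 (nat_lit 0) (.ac 9 4 17 18), .t 1 (nat_lit 0) (.ac 9 7 17 18), .t 1 (nat_lit 0) (.ac 10 2 12 14), .t 1 (nat_lit 0) (.ac 10 2 18 19), .t 1 (nat_lit 0) (.ac 10 6 16 18), .t 1 (nat_lit 0) (.ac 10 12 17 18), .t 1 (nat_lit 0) (.ac 10 15 18 19), .t 1 (nat_lit 0) (.ac 10 16 18 19), .t 1 (nat_lit 0) (.ac 10 17 18 19), .t 1 (nat_lit 0) (.ac 11 15 18 19), .t 1 (nat_lit 0) (.ac 11 16 18 19), .t 1 (nat_lit 0) (.ac 11 17 18 19), .t 1 (nat_lit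 0) (.ac 12 15 18 19), .t 1 (nat_lit 0) (.ac 12 16 18 19), .t 1 (nat_lit 0) (.ac 13 15 18 19), .t 1 (nat_lit 0) (.ac 13 16 18 19), .t 1 (nat_lit 0) (.ac 14 2 18 19), .t 1 (nat_lit 0) (.ac 14 6 18 19), .t 1 (nat_lit 0) (.ac 14 15 18 19), .t 1 (nat_lit 0) (.ac 14 16 18 19), .t 1 (nat_lit 0) (.gp 0 1 2 3 19 true true true), .t 1 (nat_lit 0) (.gp 0 1 3 4 18 true true true), .t 1 (nat_lit 0) (.gp 0 1 5 6 17 true true true), .t 1 (nat_lit 0) (.gp 0 1 5 6 19 true true true), .t 1 (nat_lit 0) (.gp 0 1 6 7 17 true true true), .t 1 (nat_lit 0) (.gp 0 1 6 7 19 true true true), .t 1 (nat_lit 0) (.gp 0 1 7 8 18 true true true), .t 1 (nat_lit 0) (.gp 0 1 8 9 17 true true true), .t 1 (nat_lit 0) (.gp 0 1 8 9 19 true true true)] (by decide +kernel) (by decide +kernel)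
theorem b1 : B 64 128 := Blk.of_chk [.t 1 (nat_lit 0) (.gp 0 1 9 10 17 true true true), .t 1 (nat_lit 0) (.gp 0 1 9 10 19 true true true), .t 1 (nat_lit 0) (.gp 0 1 10 11 17 true true true), .t 1 (nat_lit 0) (.gp 0 1 10 11 19 true true true), .t 1 (nat_lit 0) (.gp 0 1 13 19 16 true true true), .t 1 (nat_lit 0) (.gp 0 2 3 18 19 true false true), .t 1 (nat_lit 0) (.gp 0 2 5 8 11 true true true), .t 1 (nat_lit 0) (.gp 0 2 5 9 11 true true true), .t 1 (nat_lit 0) (.gp 0 2 5 10 11 true true true), .t 1 (nat_lit 0) (.gp 0 2 6 8 11 true true true), .t 1 (nat_lit 0) (.gp 0 2 6 10 11 true true true), .t 1 (nat_lit 0) (.gp 0 2 9 10 11 true true true), .t 1 (nat_lit 0) (.gp 0 3 4 12 14 true false true), .t 1 (nat_lit 0) (.gp 0 3 4 13 14 true false true), .t 1 (nat_lit 0) (.gp 0 3 4 14 17 true false true), .t 1 (nat_lit 0) (.gp 0 3 4 15 17 true false true), .t 1 (nat_lit 0) (.gp 0 3 4 16 17 true false true), .t 1 (nat_lit 0) (.gp 0 4 5 12 14 true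 false true), .t 1 (nat_lit 0) (.gp 0 4 5 13 14 true false true), .t 1 (nat_lit 0) (.gp 0 4 5 15 17 true false true), .t 1 (nat_lit 0) (.gp 0 4 5 16 17 true false true), .t 1 (nat_lit 0) (.gp 0 5 6 12 14 true false true), .t 1 (nat_lit 0) (.gp 0 5 6 13 14 true false true), .t 1 (nat_lit 0) (.gp 0 5 6 14 17 true false true), .t 1 (nat_lit 0) (.gp 0 5 6 15 17 true false true), .t 1 (nat_lit 0) (.gp 0 5 6 16 17 true false true), .t 1 (nat_lit 0) (.gp 0 5 6 18 19 true false true), .t 1 (nat_lit 0) (.gp 0 6 7 12 14 true false true), .t 1 (nat_lit 0) (.gp 0 6 7 13 14 true false true), .t 1 (nat_lit 0) (.gp 0 6 7 14 17 true false true), .t 1 (nat_lit 0) (.gp 0 6 7 15 17 true false true), .t 1 (nat_lit 0) (.gp 0 6 7 16 17 true false true), .t 1 (nat_lit 0) (.gp 0 6 7 18 19 true false true), .t 1 (nat_lit 0) (.gp 0 7 8 12 14 true false true), .t 1 (nat_lit 0) (.gp 0 7 8 13 14 true false true), .t 1 (nat_lit 0) (.gp 0 7 8 15 17 true false true),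 .t 1 (nat_lit 0) (.gp 0 7 8 16 17 true false true), .t 1 (nat_lit 0) (.gp 0 8 9 10 11 true true true), .t 1 (nat_lit 0) (.gp 0 8 9 12 14 true false true), .t 1 (nat_lit 0) (.gp 0 8 9 13 14 true false true), .t 1 (nat_lit 0) (.gp 0 8 9 14 17 true false true), .t 1 (nat_lit 0) (.gp 0 8 9 15 17 true false true), .t 1 (nat_lit 0) (.gp 0 8 9 16 17 true false true), .t 1 (nat_lit 0) (.gp 0 8 9 18 19 true false true), .t 1 (nat_lit 0) (.gp 0 9 10 12 14 true false true), .t 1 (nat_lit 0) (.gp 0 9 10 13 14 true false true), .t 1 (nat_lit 0) (.gp 0 9 10 14 17 true false true), .t 1 (nat_lit 0) (.gp 0 9 10 15 17 true false true), .t 1 (nat_lit 0) (.gp 0 9 10 16 17 true false true), .t 1 (nat_lit 0) (.gp 0 9 10 18 19 true false true), .t 1 (nat_lit 0) (.gp 0 10 11 12 14 true false true), .t 1 (nat_lit 0) (.gp 0 10 11 13 14 true false true), .t 1 (nat_lit 0) (.gp 0 10 11 14 17 true false true), .t 1 (nat_lit 0) (.gp 0 10 11 15 17 true false true),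 .t 1 (nat_lit 0) (.gp 0 10 11 16 17 true false true), .t 1 (nat_lit 0) (.gp 0 10 11 18 19 true false true), .t 1 (nat_lit 0) (.gp 1 0 3 19 11 false false false), .t 1 (nat_lit 0) (.gp 1 0 5 6 7 false false false), .t 1 (nat_lit 0) (.gp 1 0 5 8 6 false false false), .t 1 (nat_lit 0) (.gp 1 0 5 9 14 false false false), .t 1 (nat_lit 0) (.gp 1 0 5 10 11 false false false), .t 1 (nat_lit 0) (.gp 1 0 5 11 6 false false false), .t 1 (nat_lit 0) (.gp 1 0 5 11 7 false false false), .t 1 (nat_lit 0) (.gp 1 0 5 11 9 false false false)] (by decide +kernel) (by decide +kernel)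
theorem b2 : B 128 192 := Blk.of_chk [.t 1 (nat_lit 0) (.gp 1 0 5 11 10 false false false), .t 1 (nat_lit 0) (.gp 1 0 5 14 8 false false false), .t 1 (nat_lit 0) (.gp 1 0 5 14 9 false false false), .t 1 (nat_lit 0) (.gp 1 0 5 14 12 false false false), .t 1 (nat_lit 0) (.gp 1 0 5 14 13 false false false), .t 1 (nat_lit 0) (.gp 1 0 5 15 14 false false false), .t 1 (nat_lit 0) (.gp 1 0 5 16 8 false false false), .t 1 (nat_lit 0) (.gp 1 0 5 16 14 false false false), .t 1 (nat_lit 0) (.gp 1 0 5 17 14 false false false), .t 1 (nat_lit 0) (.gp 1 0 5 18 10 false false false), .t 1 (nat_lit 0) (.gp 1 0 5 18 13 false false false), .t 1 (nat_lit 0) (.gp 1 0 5 19 10 false false false), .t 1 (nat_lit 0) (.gp 1 0 5 19 14 false false false), .t 1 (nat_lit 0) (.gp 1 0 6 8 7 false false false), .t 1 (nat_lit 0) (.gp 1 0 6 10 7 false false false), .t 1 (nat_lit 0) (.gp 1 0 6 10 11 false false false), .t 1 (nat_lit 0) (.gp 1 0 6 11 7 false false false),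 .t 1 (nat_lit 0) (.gp 1 0 6 11 9 false false false), .t 1 (nat_lit 0) (.gp 1 0 6 12 11 false false false), .t 1 (nat_lit 0) (.gp 1 0 6 14 10 false false false), .t 1 (nat_lit 0) (.gp 1 0 6 14 11 false false false), .t 1 (nat_lit 0) (.gp 1 0 6 14 12 false false false), .t 1 (nat_lit 0) (.gp 1 0 6 14 13 false false false), .t 1 (nat_lit 0) (.gp 1 0 6 15 7 false false false), .t 1 (nat_lit 0) (.gp 1 0 6 16 7 false false false), .t 1 (nat_lit 0) (.gp 1 0 6 16 15 false false false), .t 1 (nat_lit 0) (.gp 1 0 6 18 7 false false false), .t 1 (nat_lit 0) (.gp 1 0 7 18 12 false false false), .t 1 (nat_lit 0) (.gp 1 0 8 10 11 false false false), .t 1 (nat_lit 0) (.gp 1 0 8 11 9 false false false), .t 1 (nat_lit 0) (.gp 1 0 8 12 11 false false false), .t 1 (nat_lit 0) (.gp 1 0 8 13 11 false false false), .t 1 (nat_lit 0) (.gp 1 0 8 14 10 false false false), .t 1 (nat_lit 0) (.gp 1 0 8 14 11 false false false), .t 1 (nat_lit 0) (.gp 1 0 8 14 13 false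 false false), .t 1 (nat_lit 0) (.gp 1 0 8 15 11 false false false), .t 1 (nat_lit 0) (.gp 1 0 8 16 11 false false false), .t 1 (nat_lit 0) (.gp 1 0 8 16 12 false false false), .t 1 (nat_lit 0) (.gp 1 0 8 16 14 false false false), .t 1 (nat_lit 0) (.gp 1 0 8 17 14 false false false), .t 1 (nat_lit 0) (.gp 1 0 8 19 14 false false false), .t 1 (nat_lit 0) (.gp 1 0 9 11 10 false false false), .t 1 (nat_lit 0) (.gp 1 0 9 12 11 false false false), .t 1 (nat_lit 0) (.gp 1 0 9 13 11 false false false), .t 1 (nat_lit 0) (.gp 1 0 9 14 10 false false false), .t 1 (nat_lit 0) (.gp 1 0 9 14 11 false false false), .t 1 (nat_lit 0) (.gp 1 0 9 14 12 false false false), .t 1 (nat_lit 0) (.gp 1 0 9 15 11 false false false), .t 1 (nat_lit 0) (.gp 1 0 9 15 14 false false false), .t 1 (nat_lit 0) (.gp 1 0 9 16 11 false false false), .t 1 (nat_lit 0) (.gp 1 0 9 16 14 false false false), .t 1 (nat_lit 0) (.gp 1 0 9 17 11 false false false), .t 1 (nat_lit 0)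 (.gp 1 0 9 17 14 false false false), .t 1 (nat_lit 0) (.gp 1 0 9 18 11 false false false), .t 1 (nat_lit 0) (.gp 1 0 9 19 11 false false false), .t 1 (nat_lit 0) (.gp 1 0 9 19 14 false false false), .t 1 (nat_lit 0) (.gp 1 0 9 19 15 false false false), .t 1 (nat_lit 0) (.gp 1 0 9 19 16 false false false), .t 1 (nat_lit 0) (.gp 1 0 10 12 11 false false false), .t 1 (nat_lit 0) (.gp 1 0 10 13 11 false false false), .t 1 (nat_lit 0) (.gp 1 0 10 14 11 false false false), .t 1 (nat_lit 0) (.gp 1 0 10 14 12 false false false), .t 1 (nat_lit 0) (.gp 1 0 10 14 13 false false false), .t 1 (nat_lit 0) (.gp 1 0 10 15 11 false false false)] (by decide +kernel) (by decide +kernel)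
theorem b3 : B 192 256 := Blk.of_chk [.t 1 (nat_lit 0) (.gp 1 0 10 16 11 false false false), .t 1 (nat_lit 0) (.gp 1 0 10 16 14 false false false), .t 1 (nat_lit 0) (.gp 1 0 10 17 11 false false false), .t 1 (nat_lit 0) (.gp 1 0 10 18 11 false false false), .t 1 (nat_lit 0) (.gp 1 0 10 19 11 false false false), .t 1 (nat_lit 0) (.gp 1 0 11 18 12 false false false), .t 1 (nat_lit 0) (.gp 1 0 12 17 14 false false false), .t 1 (nat_lit 0) (.gp 1 0 12 18 14 false false false), .t 1 (nat_lit 0) (.gp 1 0 12 19 14 false false false), .t 1 (nat_lit 0) (.gp 1 0 13 17 14 false false false), .t 1 (nat_lit 0) (.gp 1 0 13 18 14 false false false), .t 1 (nat_lit 0) (.gp 1 0 13 19 14 false false false), .t 1 (nat_lit 0) (.gp 1 0 15 16 19 false false false), .t 1 (nat_lit 0) (.gp 1 0 15 18 16 false false false), .t 1 (nat_lit 0) (.gp 1 2 3 10 5 false false false), .t 1 (nat_lit 0) (.gp 1 2 5 6 7 false false false), .t 1 (nat_lit 0) (.gp 1 2 5 7 6 false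 false false), .t 1 (nat_lit 0) (.gp 1 2 5 8 7 false false false), .t 1 (nat_lit 0) (.gp 1 2 5 12 13 false false false), .t 1 (nat_lit 0) (.gp 1 2 6 8 7 false false false), .t 1 (nat_lit 0) (.gp 1 2 8 12 13 false false false), .t 1 (nat_lit 0) (.gp 1 3 4 18 19 false false true), .t 1 (nat_lit 0) (.gp 1 3 5 8 9 true true true), .t 1 (nat_lit 0) (.gp 1 3 5 8 10 true true true), .t 1 (nat_lit 0) (.gp 1 3 5 8 12 true true true), .t 1 (nat_lit 0) (.gp 1 3 6 8 12 true true true), .t 1 (nat_lit 0) (.gp 1 3 8 10 11 true true true), .t 1 (nat_lit 0) (.gp 1 3 9 10 12 true true true), .t 1 (nat_lit 0) (.gp 1 3 9 10 13 true true true), .t 1 (nat_lit 0) (.gp 1 4 6 8 11 true true true), .t 1 (nat_lit 0) (.gp 1 4 8 9 14 true true true), .t 1 (nat_lit 0) (.gp 1 4 8 11 9 true true true), .t 1 (nat_lit 0) (.gp 1 4 8 14 9 true true true), .t 1 (nat_lit 0) (.gp 1 5 6 8 11 false false true), .t 1 (nat_lit 0) (.gp 1 5 7 9 11 false false true), .t 1 (nat_lit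 0) (.gp 1 5 7 11 14 true false true), .t 1 (nat_lit 0) (.gp 1 5 7 13 14 true false true), .t 1 (nat_lit 0) (.gp 1 5 7 14 11 false false true), .t 1 (nat_lit 0) (.gp 1 5 8 11 17 true false true), .t 1 (nat_lit 0) (.gp 1 5 8 13 14 true false true), .t 1 (nat_lit 0) (.gp 1 5 8 14 11 false true true), .t 1 (nat_lit 0) (.gp 1 5 9 12 13 true true true), .t 1 (nat_lit 0) (.gp 1 5 9 12 14 true false true), .t 1 (nat_lit 0) (.gp 1 5 9 14 15 true true true), .t 1 (nat_lit 0) (.gp 1 5 9 14 16 true true true), .t 1 (nat_lit 0) (.gp 1 5 9 14 18 true true true), .t 1 (nat_lit 0) (.gp 1 5 9 14 19 true true true), .t 1 (nat_lit 0) (.gp 1 5 9 19 18 true true false), .t 1 (nat_lit 0) (.gp 1 5 10 19 18 true true false), .t 1 (nat_lit 0) (.gp 1 5 11 12 18 true false true), .t 1 (nat_lit 0) (.gp 1 5 11 13 14 true false true), .t 1 (nat_lit 0) (.gp 1 5 12 14 13 false true true), .t 1 (nat_lit 0) (.gp 1 5 12 14 16 true false true), .t 1 (nat_lit 0) (.gp 1 5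 13 14 15 true false true), .t 1 (nat_lit 0) (.gp 1 6 7 8 10 false false true), .t 1 (nat_lit 0) (.gp 1 6 7 8 11 false false true), .t 1 (nat_lit 0) (.gp 1 6 7 9 11 false false true), .t 1 (nat_lit 0) (.gp 1 6 7 9 14 false false true), .t 1 (nat_lit 0) (.gp 1 6 7 11 10 false false true), .t 1 (nat_lit 0) (.gp 1 6 7 15 14 false false true), .t 1 (nat_lit 0) (.gp 1 6 7 16 14 false false true), .t 1 (nat_lit 0) (.gp 1 6 7 17 14 false false true), .t 1 (nat_lit 0) (.gp 1 6 7 18 14 false false true), .t 1 (nat_lit 0) (.gp 1 6 7 19 14 false false true)] (by decide +kernel) (by decide +kernel)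
theorem b4 : B 256 320 := Blk.of_chk [.t 1 (nat_lit 0) (.gp 1 6 8 10 14 false false true), .t 1 (nat_lit 0) (.gp 1 6 8 13 14 true false true), .t 1 (nat_lit 0) (.gp 1 6 9 14 18 true true true), .t 1 (nat_lit 0) (.gp 1 6 9 18 11 false true false), .t 1 (nat_lit 0) (.gp 1 6 11 13 14 true false true), .t 1 (nat_lit 0) (.gp 1 6 11 17 19 false false true), .t 1 (nat_lit 0) (.gp 1 6 11 18 19 false false true), .t 1 (nat_lit 0) (.gp 1 7 12 15 17 true false true), .t 1 (nat_lit 0) (.gp 1 7 12 16 17 true false true), .t 1 (nat_lit 0) (.gp 1 8 9 12 13 false false true), .t 1 (nat_lit 0) (.gp 1 8 9 14 10 false true false), .t 1 (nat_lit 0) (.gp 1 8 9 15 14 false false true), .t 1 (nat_lit 0) (.gp 1 8 9 16 14 false false true), .t 1 (nat_lit 0) (.gp 1 8 9 17 14 false false true), .t 1 (nat_lit 0) (.gp 1 8 9 18 14 false false true), .t 1 (nat_lit 0) (.gp 1 8 9 19 18 true true false), .t 1 (nat_lit 0) (.gp 1 8 10 17 19 false false true), .t 1 (nat_lit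 0) (.gp 1 8 12 13 14 true false true), .t 1 (nat_lit 0) (.gp 1 8 12 14 13 false true true), .t 1 (nat_lit 0) (.gp 1 8 14 15 17 true false true), .t 1 (nat_lit 0) (.gp 1 8 14 16 17 true false true), .t 1 (nat_lit 0) (.gp 1 9 10 14 12 false false true), .t 1 (nat_lit 0) (.gp 1 9 11 14 13 false false true), .t 1 (nat_lit 0) (.gp 1 9 12 13 14 true false true), .t 1 (nat_lit 0) (.gp 1 9 12 14 13 false true true), .t 1 (nat_lit 0) (.gp 1 10 11 12 14 true false true), .t 1 (nat_lit 0) (.gp 1 11 12 15 17 true false true), .t 1 (nat_lit 0) (.gp 1 11 12 16 17 true false true), .t 1 (nat_lit 0) (.gp 1 11 12 18 19 false false true), .t 1 (nat_lit 0) (.gp 1 12 14 15 17 true false true), .t 1 (nat_lit 0) (.gp 1 12 14 16 17 true false true), .t 1 (nat_lit 0) (.gp 1 13 14 15 17 true false true), .t 1 (nat_lit 0) (.gp 1 13 14 16 17 true false true), .t 1 (nat_lit 0) (.gp 1 15 16 19 17 true false true), .t 1 (nat_lit 0) (.gp 2 0 5 9 8 false false false),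 .t 1 (nat_lit 0) (.gp 2 0 5 10 8 false false false), .t 1 (nat_lit 0) (.gp 2 0 5 11 8 false false false), .t 1 (nat_lit 0) (.gp 2 0 5 12 8 false false false), .t 1 (nat_lit 0) (.gp 2 0 5 13 8 false false false), .t 1 (nat_lit 0) (.gp 2 0 5 19 8 false false false), .t 1 (nat_lit 0) (.gp 2 0 6 8 7 false false false), .t 1 (nat_lit 0) (.gp 2 0 6 9 8 false false false), .t 1 (nat_lit 0) (.gp 2 0 6 10 8 false false false), .t 1 (nat_lit 0) (.gp 2 0 6 11 8 false false false), .t 1 (nat_lit 0) (.gp 2 0 6 14 8 false false false), .t 1 (nat_lit 0) (.gp 2 0 6 19 8 false false false), .t 1 (nat_lit 0) (.gp 2 0 9 14 10 false false false), .t 1 (nat_lit 0) (.gp 2 0 9 15 10 false false false), .t 1 (nat_lit 0) (.gp 2 0 9 16 18 false false false), .t 1 (nat_lit 0) (.gp 2 0 9 17 10 false false false), .t 1 (nat_lit 0) (.gp 2 0 9 18 10 false false false), .t 1 (nat_lit 0) (.gp 2 0 9 19 10 false false false), .t 1 (nat_lit 0) (.gp 2 0 10 12 11 false false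 false), .t 1 (nat_lit 0) (.gp 2 0 10 13 11 false false false), .t 1 (nat_lit 0) (.gp 2 0 10 14 11 false false false), .t 1 (nat_lit 0) (.gp 2 0 10 15 11 false false false), .t 1 (nat_lit 0) (.gp 2 0 10 16 11 false false false), .t 1 (nat_lit 0) (.gp 2 0 10 16 14 false false false), .t 1 (nat_lit 0) (.gp 2 0 10 17 11 false false false), .t 1 (nat_lit 0) (.gp 2 0 10 18 11 false false false), .t 1 (nat_lit 0) (.gp 2 1 3 5 8 true false true), .t 1 (nat_lit 0) (.gp 2 1 3 5 9 true false true), .t 1 (nat_lit 0) (.gp 2 1 3 5 9 true true true), .t 1 (nat_lit 0) (.gp 2 1 3 5 10 true false true)] (by decide +kernel) (by decide +kernel)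
theorem b5 : B 320 384 := Blk.of_chk [.t 1 (nat_lit 0) (.gp 2 1 3 6 8 true false true), .t 1 (nat_lit 0) (.gp 2 1 3 6 9 true false true), .t 1 (nat_lit 0) (.gp 2 1 3 6 10 true false true), .t 1 (nat_lit 0) (.gp 2 1 3 9 10 true false true), .t 1 (nat_lit 0) (.gp 2 1 3 9 10 true true true), .t 1 (nat_lit 0) (.gp 2 1 3 10 9 true false true), .t 1 (nat_lit 0) (.gp 2 1 5 6 7 true true true), .t 1 (nat_lit 0) (.gp 2 1 5 7 6 true true true), .t 1 (nat_lit 0) (.gp 2 1 5 7 8 true true false), .t 1 (nat_lit 0) (.gp 2 1 5 7 8 true true true), .t 1 (nat_lit 0) (.gp 2 1 5 9 10 true true true), .t 1 (nat_lit 0) (.gp 2 1 5 10 14 true true true), .t 1 (nat_lit 0) (.gp 2 1 5 10 15 true true true), .t 1 (nat_lit 0) (.gp 2 1 6 7 8 true true false), .t 1 (nat_lit 0) (.gp 2 1 8 10 15 true true true), .t 1 (nat_lit 0) (.gp 2 1 8 10 18 true true true), .t 1 (nat_lit 0) (.gp 2 3 4 7 8 true false true), .t 1 (nat_lit 0) (.gp 2 3 4 12 14 true false true), .t 1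 (nat_lit 0) (.gp 2 3 4 14 17 true false true), .t 1 (nat_lit 0) (.gp 2 3 4 15 17 true false true), .t 1 (nat_lit 0) (.gp 2 3 4 16 17 true false true), .t 1 (nat_lit 0) (.gp 2 4 5 7 8 true true true), .t 1 (nat_lit 0) (.gp 2 4 7 11 19 true false true), .t 1 (nat_lit 0) (.gp 2 4 7 12 14 true false true), .t 1 (nat_lit 0) (.gp 2 4 7 14 17 true false true), .t 1 (nat_lit 0) (.gp 2 4 7 15 17 true false true), .t 1 (nat_lit 0) (.gp 2 4 7 16 17 true false true), .t 1 (nat_lit 0) (.gp 2 4 8 9 10 true true true), .t 1 (nat_lit 0) (.gp 2 4 8 15 17 true true true), .t 1 (nat_lit 0) (.gp 2 4 10 15 17 true true true), .t 1 (nat_lit 0) (.gp 2 4 10 16 17 true true true), .t 1 (nat_lit 0) (.gp 2 7 8 11 16 true true true), .t 1 (nat_lit 0) (.gp 2 7 8 11 19 true true true), .t 1 (nat_lit 0) (.gp 2 7 11 14 17 true false true), .t 1 (nat_lit 0) (.gp 2 7 11 15 17 true false true), .t 1 (nat_lit 0) (.gp 2 7 11 16 17 true false true), .t 1 (nat_lit 0) (.gp 2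 8 10 12 11 false false true), .t 1 (nat_lit 0) (.gp 2 8 10 13 11 false false true), .t 1 (nat_lit 0) (.gp 2 8 10 15 18 false false true), .t 1 (nat_lit 0) (.gp 2 8 10 16 18 false false true), .t 1 (nat_lit 0) (.gp 2 8 11 15 17 true false true), .t 1 (nat_lit 0) (.gp 2 8 11 18 15 true false true), .t 1 (nat_lit 0) (.gp 2 9 10 11 13 true false true), .t 1 (nat_lit 0) (.gp 2 9 10 13 14 true false true), .t 1 (nat_lit 0) (.gp 2 9 14 18 17 true false true), .t 1 (nat_lit 0) (.gp 2 10 11 12 17 true false true), .t 1 (nat_lit 0) (.gp 2 10 11 13 14 true false true), .t 1 (nat_lit 0) (.gp 2 10 11 13 18 false false true), .t 1 (nat_lit 0) (.gp 2 10 11 14 18 false false true), .t 1 (nat_lit 0) (.gp 2 15 17 18 19 true true false), .t 1 (nat_lit 0) (.gp 2 16 17 18 19 true true false), .t 1 (nat_lit 0) (.gp 3 0 1 2 5 true true false), .t 1 (nat_lit 0) (.gp 3 0 1 2 6 true true false), .t 1 (nat_lit 0) (.gp 3 0 1 2 8 true true false), .t 1 (nat_lit 0)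 (.gp 3 0 1 2 9 true true false), .t 1 (nat_lit 0) (.gp 3 0 1 2 10 true true false), .t 1 (nat_lit 0) (.gp 3 0 1 2 17 true true false), .t 1 (nat_lit 0) (.gp 3 0 1 2 18 true true false), .t 1 (nat_lit 0) (.gp 3 0 1 18 4 true false false), .t 1 (nat_lit 0) (.gp 3 0 1 19 4 true false false), .t 1 (nat_lit 0) (.gp 3 1 2 8 5 false true false), .t 1 (nat_lit 0) (.gp 3 1 2 8 6 false true false), .t 1 (nat_lit 0) (.gp 3 1 2 9 5 false true false), .t 1 (nat_lit 0) (.gp 3 1 2 9 6 false true false)] (by decide +kernel) (by decide +kernel)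
theorem b6 : B 384 448 := Blk.of_chk [.t 1 (nat_lit 0) (.gp 3 1 2 9 10 false true false), .t 1 (nat_lit 0) (.gp 3 1 2 10 5 false true false), .t 1 (nat_lit 0) (.gp 3 1 2 10 6 false true false), .t 1 (nat_lit 0) (.gp 3 1 2 10 9 false true false), .t 1 (nat_lit 0) (.gp 3 1 5 8 6 false false false), .t 1 (nat_lit 0) (.gp 3 1 5 8 11 false false false), .t 1 (nat_lit 0) (.gp 3 1 6 8 13 false false false), .t 1 (nat_lit 0) (.gp 3 1 8 11 10 false false false), .t 1 (nat_lit 0) (.gp 3 1 8 12 10 false false false), .t 1 (nat_lit 0) (.gp 3 1 9 10 13 false false false), .t 1 (nat_lit 0) (.gp 3 1 9 16 12 false false false), .t 1 (nat_lit 0) (.gp 3 1 9 16 14 false false false), .t 1 (nat_lit 0) (.gp 3 1 9 17 15 false false false), .t 1 (nat_lit 0) (.gp 3 4 5 6 8 true true true), .t 1 (nat_lit 0) (.gp 3 4 5 6 9 true true true), .t 1 (nat_lit 0) (.gp 3 4 5 6 10 true true true), .t 1 (nat_lit 0) (.gp 3 4 5 6 11 true true true), .t 1 (nat_lit 0) (.gp 3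 4 5 6 12 true true true), .t 1 (nat_lit 0) (.gp 3 4 5 6 13 true true true), .t 1 (nat_lit 0) (.gp 3 4 5 7 9 true true true), .t 1 (nat_lit 0) (.gp 3 4 5 7 10 true true true), .t 1 (nat_lit 0) (.gp 3 4 5 7 13 true true true), .t 1 (nat_lit 0) (.gp 3 4 5 7 15 true true true), .t 1 (nat_lit 0) (.gp 3 4 5 7 16 true true true), .t 1 (nat_lit 0) (.gp 3 4 5 8 6 true true true), .t 1 (nat_lit 0) (.gp 3 4 5 8 9 true true true), .t 1 (nat_lit 0) (.gp 3 4 5 8 10 true true true), .t 1 (nat_lit 0) (.gp 3 4 5 8 11 true true true), .t 1 (nat_lit 0) (.gp 3 4 5 8 12 true true true), .t 1 (nat_lit 0) (.gp 3 4 5 8 13 true true true), .t 1 (nat_lit 0) (.gp 3 4 5 9 6 true true true), .t 1 (nat_lit 0) (.gp 3 4 5 9 8 true true true), .t 1 (nat_lit 0) (.gp 3 4 5 9 10 true true true), .t 1 (nat_lit 0) (.gp 3 4 5 10 8 true true true), .t 1 (nat_lit 0) (.gp 3 4 5 10 9 true true true), .t 1 (nat_lit 0) (.gp 3 4 5 11 12 true true true), .t 1 (nat_lit 0) (.gp 3 4 5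 11 13 true true true), .t 1 (nat_lit 0) (.gp 3 4 5 13 6 true true true), .t 1 (nat_lit 0) (.gp 3 4 6 7 10 true true true), .t 1 (nat_lit 0) (.gp 3 4 6 7 13 true true true), .t 1 (nat_lit 0) (.gp 3 4 6 7 15 true true true), .t 1 (nat_lit 0) (.gp 3 4 6 7 16 true true true), .t 1 (nat_lit 0) (.gp 3 4 6 8 9 true true true), .t 1 (nat_lit 0) (.gp 3 4 6 8 10 true true true), .t 1 (nat_lit 0) (.gp 3 4 6 8 11 true true true), .t 1 (nat_lit 0) (.gp 3 4 6 8 12 true true true), .t 1 (nat_lit 0) (.gp 3 4 6 8 13 true true true), .t 1 (nat_lit 0) (.gp 3 4 6 9 8 true true true), .t 1 (nat_lit 0) (.gp 3 4 6 9 10 true true true), .t 1 (nat_lit 0) (.gp 3 4 6 10 8 true true true), .t 1 (nat_lit 0) (.gp 3 4 6 10 9 true true true), .t 1 (nat_lit 0) (.gp 3 4 6 11 12 true true true), .t 1 (nat_lit 0) (.gp 3 4 6 11 13 true true true), .t 1 (nat_lit 0) (.gp 3 4 8 11 12 true true true), .t 1 (nat_lit 0) (.gp 3 4 8 11 13 true true true), .t 1 (nat_lit 0) (.gp 3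 5 6 9 13 false false true), .t 1 (nat_lit 0) (.gp 3 5 7 8 9 false false true), .t 1 (nat_lit 0) (.gp 3 5 7 8 13 false false true), .t 1 (nat_lit 0) (.gp 3 5 7 9 11 false false true), .t 1 (nat_lit 0) (.gp 3 5 8 11 9 false false false), .t 1 (nat_lit 0) (.gp 3 5 9 12 11 false false false), .t 1 (nat_lit 0) (.gp 3 5 9 12 11 false true false), .t 1 (nat_lit 0) (.gp 3 6 7 9 11 false false true), .t 1 (nat_lit 0) (.gp 3 6 7 19 14 false false true)] (by decide +kernel) (by decide +kernel)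
theorem b7 : B 448 512 := Blk.of_chk [.t 1 (nat_lit 0) (.gp 3 6 8 12 9 true true true), .t 1 (nat_lit 0) (.gp 3 7 11 14 15 true false true), .t 1 (nat_lit 0) (.gp 3 7 11 15 17 true false true), .t 1 (nat_lit 0) (.gp 3 7 14 16 17 true false true), .t 1 (nat_lit 0) (.gp 3 8 10 13 11 false false true), .t 1 (nat_lit 0) (.gp 3 10 11 14 18 true false true), .t 1 (nat_lit 0) (.gp 3 11 14 15 17 true false true), .t 1 (nat_lit 0) (.gp 4 0 1 2 5 true true false), .t 1 (nat_lit 0) (.gp 4 0 1 2 6 true true false), .t 1 (nat_lit 0) (.gp 4 0 1 2 13 true true false), .t 1 (nat_lit 0) (.gp 4 0 1 2 18 true true false), .t 1 (nat_lit 0) (.gp 4 0 1 2 19 true true false), .t 1 (nat_lit 0) (.gp 4 0 9 15 14 false false false), .t 1 (nat_lit 0) (.gp 4 0 10 15 14 false false false), .t 1 (nat_lit 0) (.gp 4 0 10 16 14 false false false), .t 1 (nat_lit 0) (.gp 4 0 10 17 14 false false false), .t 1 (nat_lit 0) (.gp 4 1 5 10 9 false false false), .t 1 (nat_lit 0)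 (.gp 4 1 5 10 14 false false false), .t 1 (nat_lit 0) (.gp 4 1 5 11 8 false false false), .t 1 (nat_lit 0) (.gp 4 1 5 12 9 false false false), .t 1 (nat_lit 0) (.gp 4 1 5 13 8 false false false), .t 1 (nat_lit 0) (.gp 4 1 5 14 8 false false false), .t 1 (nat_lit 0) (.gp 4 1 5 14 9 false false false), .t 1 (nat_lit 0) (.gp 4 1 5 14 10 false false false), .t 1 (nat_lit 0) (.gp 4 1 5 16 8 false false false), .t 1 (nat_lit 0) (.gp 4 1 5 17 8 false false false), .t 1 (nat_lit 0) (.gp 4 1 5 17 9 false false false), .t 1 (nat_lit 0) (.gp 4 1 5 17 11 false false false), .t 1 (nat_lit 0) (.gp 4 1 5 18 9 false false false), .t 1 (nat_lit 0) (.gp 4 1 6 8 9 false false false), .t 1 (nat_lit 0) (.gp 4 1 6 8 13 false false false), .t 1 (nat_lit 0) (.gp 4 1 6 8 14 false false false), .t 1 (nat_lit 0) (.gp 4 1 6 8 17 false false false), .t 1 (nat_lit 0) (.gp 4 1 6 9 17 false false false), .t 1 (nat_lit 0) (.gp 4 1 6 10 11 false false false), .t 1 (nat_lit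 0) (.gp 4 1 6 10 15 false false false), .t 1 (nat_lit 0) (.gp 4 1 6 11 8 false false false), .t 1 (nat_lit 0) (.gp 4 1 6 18 8 false false false), .t 1 (nat_lit 0) (.gp 4 1 8 9 11 false false false), .t 1 (nat_lit 0) (.gp 4 1 8 9 14 false false false), .t 1 (nat_lit 0) (.gp 4 1 8 9 17 false false false), .t 1 (nat_lit 0) (.gp 4 1 8 10 11 false false false), .t 1 (nat_lit 0) (.gp 4 1 8 10 15 false false false), .t 1 (nat_lit 0) (.gp 4 1 8 12 11 false false false), .t 1 (nat_lit 0) (.gp 4 1 8 13 14 false false false), .t 1 (nat_lit 0) (.gp 4 1 8 14 11 false false false), .t 1 (nat_lit 0) (.gp 4 1 8 14 12 false false false), .t 1 (nat_lit 0) (.gp 4 1 8 14 13 false false false), .t 1 (nat_lit 0) (.gp 4 1 8 15 13 false false false), .t 1 (nat_lit 0) (.gp 4 1 8 15 14 false false false), .t 1 (nat_lit 0) (.gp 4 1 8 15 16 false false false), .t 1 (nat_lit 0) (.gp 4 1 8 16 14 false false false), .t 1 (nat_lit 0) (.gp 4 1 8 17 15 false false false),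 .t 1 (nat_lit 0) (.gp 4 1 8 18 13 false false false), .t 1 (nat_lit 0) (.gp 4 1 8 18 17 false false false), .t 1 (nat_lit 0) (.gp 4 1 8 19 17 false false false), .t 1 (nat_lit 0) (.gp 4 1 9 10 14 false false false), .t 1 (nat_lit 0) (.gp 4 1 9 10 16 false false false), .t 1 (nat_lit 0) (.gp 4 1 9 14 11 false false false), .t 1 (nat_lit 0) (.gp 4 1 9 17 10 false false false), .t 1 (nat_lit 0) (.gp 4 1 9 17 14 false false false), .t 1 (nat_lit 0) (.gp 4 1 9 18 12 false false false), .t 1 (nat_lit 0) (.gp 4 1 9 18 17 false false false), .t 1 (nat_lit 0) (.gp 4 1 9 19 17 false false false)] (by decide +kernel) (by decide +kernel)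
theorem b8 : B 512 576 := Blk.of_chk [.t 1 (nat_lit 0) (.gp 4 1 10 14 11 false false false), .t 1 (nat_lit 0) (.gp 4 1 10 17 13 false false false), .t 1 (nat_lit 0) (.gp 4 1 10 17 16 false false false), .t 1 (nat_lit 0) (.gp 4 1 10 19 17 false false false), .t 1 (nat_lit 0) (.gp 4 1 12 14 13 false false false), .t 1 (nat_lit 0) (.gp 4 1 15 18 17 false false false), .t 1 (nat_lit 0) (.gp 4 1 15 19 17 false false false), .t 1 (nat_lit 0) (.gp 4 1 16 18 17 false false false), .t 1 (nat_lit 0) (.gp 4 1 16 19 17 false false false), .t 1 (nat_lit 0) (.gp 4 2 3 17 18 true true false), .t 1 (nat_lit 0) (.gp 4 2 6 11 10 false false false), .t 1 (nat_lit 0) (.gp 4 2 6 17 10 false false false), .t 1 (nat_lit 0) (.gp 4 2 9 14 13 false false false), .t 1 (nat_lit 0) (.gp 4 2 10 14 12 false false false), .t 1 (nat_lit 0) (.gp 4 2 10 14 13 false false false), .t 1 (nat_lit 0) (.gp 4 2 10 17 15 false false false), .t 1 (nat_lit 0) (.gp 4 2 10 18 15 false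 false false), .t 1 (nat_lit 0) (.gp 4 2 10 18 16 false false false), .t 1 (nat_lit 0) (.gp 4 3 5 6 8 false false false), .t 1 (nat_lit 0) (.gp 4 3 5 6 9 false false false), .t 1 (nat_lit 0) (.gp 4 3 5 8 6 false false false), .t 1 (nat_lit 0) (.gp 4 3 5 9 6 false false false), .t 1 (nat_lit 0) (.gp 4 5 6 8 7 false true false), .t 1 (nat_lit 0) (.gp 4 5 6 8 11 false false true), .t 1 (nat_lit 0) (.gp 4 5 6 8 14 false false true), .t 1 (nat_lit 0) (.gp 4 5 6 8 17 false false true), .t 1 (nat_lit 0) (.gp 4 5 6 13 17 true true true), .t 1 (nat_lit 0) (.gp 4 5 7 15 14 false false true), .t 1 (nat_lit 0) (.gp 4 5 7 16 12 false false true), .t 1 (nat_lit 0) (.gp 4 5 7 16 14 false false true), .t 1 (nat_lit 0) (.gp 4 5 7 17 14 false false true), .t 1 (nat_lit 0) (.gp 4 5 8 12 14 false false false), .t 1 (nat_lit 0) (.gp 4 5 8 14 9 false true false), .t 1 (nat_lit 0) (.gp 4 5 8 15 17 true true true), .t 1 (nat_lit 0) (.gp 4 5 8 17 10 false true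 false), .t 1 (nat_lit 0) (.gp 4 5 8 17 13 true true true), .t 1 (nat_lit 0) (.gp 4 5 9 13 10 false false false), .t 1 (nat_lit 0) (.gp 4 5 9 15 10 true true true), .t 1 (nat_lit 0) (.gp 4 5 10 13 11 false true true), .t 1 (nat_lit 0) (.gp 4 5 10 17 12 false false true), .t 1 (nat_lit 0) (.gp 4 5 11 12 14 false false true), .t 1 (nat_lit 0) (.gp 4 5 12 17 14 false true true), .t 1 (nat_lit 0) (.gp 4 6 7 8 11 false false true), .t 1 (nat_lit 0) (.gp 4 6 7 9 14 false false true), .t 1 (nat_lit 0) (.gp 4 6 7 10 9 false false true), .t 1 (nat_lit 0) (.gp 4 6 7 12 9 false false true), .t 1 (nat_lit 0) (.gp 4 6 7 12 11 false false true), .t 1 (nat_lit 0) (.gp 4 6 7 13 11 false false true), .t 1 (nat_lit 0) (.gp 4 6 7 14 11 false false true), .t 1 (nat_lit 0) (.gp 4 6 7 15 11 false false true), .t 1 (nat_lit 0) (.gp 4 6 7 15 14 false false true), .t 1 (nat_lit 0) (.gp 4 6 7 16 11 false false true), .t 1 (nat_lit 0) (.gp 4 6 7 16 14 false false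 true), .t 1 (nat_lit 0) (.gp 4 6 7 17 11 false false true), .t 1 (nat_lit 0) (.gp 4 6 7 17 14 false false true), .t 1 (nat_lit 0) (.gp 4 6 7 18 14 false false true), .t 1 (nat_lit 0) (.gp 4 6 7 18 17 false false true), .t 1 (nat_lit 0) (.gp 4 6 7 19 14 false false true), .t 1 (nat_lit 0) (.gp 4 6 8 13 10 false true false), .t 1 (nat_lit 0) (.gp 4 6 8 14 9 false false false), .t 1 (nat_lit 0) (.gp 4 6 8 14 18 true false true), .t 1 (nat_lit 0) (.gp 4 6 9 12 17 true true true), .t 1 (nat_lit 0) (.gp 4 6 9 14 12 false false true), .t 1 (nat_lit 0) (.gp 4 6 9 14 12 true true true)] (by decide +kernel) (by decide +kernel)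
theorem b9 : B 576 640 := Blk.of_chk [.t 1 (nat_lit 0) (.gp 4 6 10 11 13 true false false), .t 1 (nat_lit 0) (.gp 4 6 10 14 11 false true false), .t 1 (nat_lit 0) (.gp 4 6 13 18 14 false true true), .t 1 (nat_lit 0) (.gp 4 7 8 10 11 true true true), .t 1 (nat_lit 0) (.gp 4 8 9 10 13 true false true), .t 1 (nat_lit 0) (.gp 4 8 9 17 12 false false true), .t 1 (nat_lit 0) (.gp 4 8 9 18 12 false false true), .t 1 (nat_lit 0) (.gp 4 8 10 11 14 true false false), .t 1 (nat_lit 0) (.gp 4 8 10 17 11 false true false), .t 1 (nat_lit 0) (.gp 4 8 11 12 17 false false true), .t 1 (nat_lit 0) (.gp 4 8 12 14 17 true false false), .t 1 (nat_lit 0) (.gp 4 8 15 16 17 true false true), .t 1 (nat_lit 0) (.gp 4 9 10 16 13 true false true), .t 1 (nat_lit 0) (.gp 4 9 10 17 14 false true false), .t 1 (nat_lit 0) (.gp 4 9 10 17 15 false false true), .t 1 (nat_lit 0) (.gp 4 9 10 17 19 true true false), .t 1 (nat_lit 0) (.gp 4 9 10 18 19 false true false), .t 1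 (nat_lit 0) (.gp 4 9 11 12 15 false false true), .t 1 (nat_lit 0) (.gp 4 9 12 19 17 false false false), .t 1 (nat_lit 0) (.gp 4 10 11 12 18 true false true), .t 1 (nat_lit 0) (.gp 4 10 11 13 18 true false true), .t 1 (nat_lit 0) (.gp 4 10 11 14 17 true false true), .t 1 (nat_lit 0) (.gp 4 10 11 16 14 false false true), .t 1 (nat_lit 0) (.gp 4 10 11 17 18 true false true), .t 1 (nat_lit 0) (.gp 4 10 11 18 13 false false true), .t 1 (nat_lit 0) (.gp 4 10 11 18 19 false false true), .t 1 (nat_lit 0) (.gp 4 10 15 16 17 true false true), .t 1 (nat_lit 0) (.gp 4 10 15 17 16 false true true), .t 1 (nat_lit 0) (.gp 4 11 14 15 17 true false true), .t 1 (nat_lit 0) (.gp 4 11 14 16 17 true false true), .t 1 (nat_lit 0) (.gp 4 12 14 15 18 true false true), .t 1 (nat_lit 0) (.gp 4 12 14 16 18 true false true), .t 1 (nat_lit 0) (.gp 4 12 14 17 18 true false true), .t 1 (nat_lit 0) (.gp 4 12 15 16 17 true false true), .t 1 (nat_lit 0) (.gp 4 12 15 17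 16 false true true), .t 1 (nat_lit 0) (.gp 4 12 15 17 18 true false true), .t 1 (nat_lit 0) (.gp 4 12 16 17 18 true false true), .t 1 (nat_lit 0) (.gp 4 13 14 15 18 true false true), .t 1 (nat_lit 0) (.gp 4 13 15 16 17 true false true), .t 1 (nat_lit 0) (.gp 4 13 15 17 16 false true true), .t 1 (nat_lit 0) (.gp 4 13 15 17 18 true false true), .t 1 (nat_lit 0) (.gp 4 13 15 18 16 false true true), .t 1 (nat_lit 0) (.gp 4 13 16 17 18 true false true), .t 1 (nat_lit 0) (.gp 4 13 17 19 18 true false true), .t 1 (nat_lit 0) (.gp 5 0 1 2 6 true true false), .t 1 (nat_lit 0) (.gp 5 0 1 14 8 true false false), .t 1 (nat_lit 0) (.gp 5 0 2 8 11 true false false), .t 1 (nat_lit 0) (.gp 5 0 2 9 11 true false false), .t 1 (nat_lit 0) (.gp 5 0 2 10 11 true false false), .t 1 (nat_lit 0) (.gp 5 0 4 6 7 true false false), .t 1 (nat_lit 0) (.gp 5 0 4 8 10 true false false), .t 1 (nat_lit 0) (.gp 5 0 4 8 11 true false false), .t 1 (nat_lit 0) (.gp 5 0 4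 8 12 true false false), .t 1 (nat_lit 0) (.gp 5 0 4 8 16 true false false), .t 1 (nat_lit 0) (.gp 5 0 4 9 8 true false false), .t 1 (nat_lit 0) (.gp 5 0 4 9 13 true false false), .t 1 (nat_lit 0) (.gp 5 0 4 9 15 true false false), .t 1 (nat_lit 0) (.gp 5 0 6 8 7 false false false), .t 1 (nat_lit 0) (.gp 5 0 6 8 12 false false false), .t 1 (nat_lit 0) (.gp 5 0 6 9 7 false false false), .t 1 (nat_lit 0) (.gp 5 0 6 10 7 false false false), .t 1 (nat_lit 0) (.gp 5 0 6 11 7 false false false), .t 1 (nat_lit 0) (.gp 5 0 6 12 7 false false false), .t 1 (nat_lit 0) (.gp 5 0 6 13 7 false false false)] (by decide +kernel) (by decide +kernel)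
theorem b10 : B 640 704 := Blk.of_chk [.t 1 (nat_lit 0) (.gp 5 0 6 14 7 false false false), .t 1 (nat_lit 0) (.gp 5 0 6 15 7 false false false), .t 1 (nat_lit 0) (.gp 5 0 6 16 7 false false false), .t 1 (nat_lit 0) (.gp 5 0 8 16 13 false false false), .t 1 (nat_lit 0) (.gp 5 0 9 18 12 false false false), .t 1 (nat_lit 0) (.gp 5 0 10 14 11 false false false), .t 1 (nat_lit 0) (.gp 5 0 10 16 13 false false false), .t 1 (nat_lit 0) (.gp 5 0 10 16 14 false false false), .t 1 (nat_lit 0) (.gp 5 0 10 17 15 false false false), .t 1 (nat_lit 0) (.gp 5 0 10 19 15 false false false), .t 1 (nat_lit 0) (.gp 5 1 2 3 8 false true true), .t 1 (nat_lit 0) (.gp 5 1 2 3 9 false true true), .t 1 (nat_lit 0) (.gp 5 1 2 3 10 false true true), .t 1 (nat_lit 0) (.gp 5 1 2 4 11 false true true), .t 1 (nat_lit 0) (.gp 5 1 2 10 9 false true false), .t 1 (nat_lit 0) (.gp 5 1 2 10 19 false true false), .t 1 (nat_lit 0) (.gp 5 1 2 18 16 false false false), .t 1 (nat_lit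 0) (.gp 5 1 3 7 10 true true false), .t 1 (nat_lit 0) (.gp 5 1 3 9 10 true false false), .t 1 (nat_lit 0) (.gp 5 1 4 6 7 true false true), .t 1 (nat_lit 0) (.gp 5 1 4 9 10 true true true), .t 1 (nat_lit 0) (.gp 5 2 6 18 15 false true false), .t 1 (nat_lit 0) (.gp 5 3 4 6 9 true true true), .t 1 (nat_lit 0) (.gp 5 3 4 6 10 true false false), .t 1 (nat_lit 0) (.gp 5 3 4 6 10 true true true), .t 1 (nat_lit 0) (.gp 5 3 4 6 12 true false false), .t 1 (nat_lit 0) (.gp 5 3 4 8 6 true false false), .t 1 (nat_lit 0) (.gp 5 3 4 8 12 true false false), .t 1 (nat_lit 0) (.gp 5 3 4 8 12 true true true), .t 1 (nat_lit 0) (.gp 5 3 4 8 13 true false false), .t 1 (nat_lit 0) (.gp 5 3 4 8 13 true true true), .t 1 (nat_lit 0) (.gp 5 3 4 9 6 true false false), .t 1 (nat_lit 0) (.gp 5 3 4 9 8 true false false), .t 1 (nat_lit 0) (.gp 5 3 4 9 10 true false false), .t 1 (nat_lit 0) (.gp 5 3 4 10 8 true false false), .t 1 (nat_lit 0) (.gp 5 3 4 10 9 true false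 false), .t 1 (nat_lit 0) (.gp 5 3 4 13 6 true false false), .t 1 (nat_lit 0) (.gp 5 3 7 9 8 true false true), .t 1 (nat_lit 0) (.gp 5 3 7 10 8 true false true), .t 1 (nat_lit 0) (.gp 5 3 7 12 8 true false true), .t 1 (nat_lit 0) (.gp 5 3 8 9 11 true true true), .t 1 (nat_lit 0) (.gp 5 3 8 11 12 true true false), .t 1 (nat_lit 0) (.gp 5 4 6 10 13 false false false), .t 1 (nat_lit 0) (.gp 5 6 7 8 9 true false true), .t 1 (nat_lit 0) (.gp 5 6 7 9 8 true false true), .t 1 (nat_lit 0) (.gp 5 6 7 9 10 true true true), .t 1 (nat_lit 0) (.gp 5 6 7 9 12 true true true), .t 1 (nat_lit 0) (.gp 5 6 7 10 8 false false true), .t 1 (nat_lit 0) (.gp 5 6 7 10 8 true false true), .t 1 (nat_lit 0) (.gp 5 6 7 10 9 true true true), .t 1 (nat_lit 0) (.gp 5 6 7 10 12 true true true), .t 1 (nat_lit 0) (.gp 5 6 7 10 13 false false true), .t 1 (nat_lit 0) (.gp 5 6 7 10 13 true true true), .t 1 (nat_lit 0) (.gp 5 6 7 10 15 false false true), .t 1 (nat_lit 0) (.gp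 5 6 7 10 16 false false true), .t 1 (nat_lit 0) (.gp 5 6 7 12 9 true true true), .t 1 (nat_lit 0) (.gp 5 6 7 12 10 false false true), .t 1 (nat_lit 0) (.gp 5 6 7 12 10 true true true), .t 1 (nat_lit 0) (.gp 5 6 7 13 9 true true true), .t 1 (nat_lit 0) (.gp 5 6 8 9 10 true true true), .t 1 (nat_lit 0) (.gp 5 6 8 9 12 true true true), .t 1 (nat_lit 0) (.gp 5 6 8 10 9 true true true), .t 1 (nat_lit 0) (.gp 5 6 8 10 12 true true true), .t 1 (nat_lit 0) (.gp 5 6 8 10 13 true true true)] (by decide +kernel) (by decide +kernel)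
theorem b11 : B 704 768 := Blk.of_chk [.t 1 (nat_lit 0) (.gp 5 6 8 12 9 true true true), .t 1 (nat_lit 0) (.gp 5 6 8 12 10 true true true), .t 1 (nat_lit 0) (.gp 5 6 8 13 9 true true true), .t 1 (nat_lit 0) (.gp 5 6 10 18 15 true false true), .t 1 (nat_lit 0) (.gp 5 7 8 9 10 true true true), .t 1 (nat_lit 0) (.gp 5 7 8 10 12 true true true), .t 1 (nat_lit 0) (.gp 5 7 8 10 13 true true true), .t 1 (nat_lit 0) (.gp 5 7 8 11 12 true true true), .t 1 (nat_lit 0) (.gp 5 7 8 11 15 true true true), .t 1 (nat_lit 0) (.gp 5 7 8 11 16 true true true), .t 1 (nat_lit 0) (.gp 5 7 8 13 10 true true true), .t 1 (nat_lit 0) (.gp 5 7 8 16 10 true true true), .t 1 (nat_lit 0) (.gp 5 7 9 10 12 true true true), .t 1 (nat_lit 0) (.gp 5 7 9 10 13 true true true), .t 1 (nat_lit 0) (.gp 5 7 9 12 14 true true true), .t 1 (nat_lit 0) (.gp 5 7 9 13 14 true true true), .t 1 (nat_lit 0) (.gp 5 7 9 14 12 true true true), .t 1 (nat_lit 0) (.gp 5 7 9 14 13 true true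 true), .t 1 (nat_lit 0) (.gp 5 7 9 14 15 true true true), .t 1 (nat_lit 0) (.gp 5 7 9 14 16 true true true), .t 1 (nat_lit 0) (.gp 5 7 9 15 10 true true true), .t 1 (nat_lit 0) (.gp 5 7 9 16 10 true true true), .t 1 (nat_lit 0) (.gp 5 7 10 12 14 true true true), .t 1 (nat_lit 0) (.gp 5 7 10 13 14 true true true), .t 1 (nat_lit 0) (.gp 5 7 10 14 12 true true true), .t 1 (nat_lit 0) (.gp 5 7 10 14 13 true true true), .t 1 (nat_lit 0) (.gp 5 7 10 14 15 true true true), .t 1 (nat_lit 0) (.gp 5 7 10 14 16 true true true), .t 1 (nat_lit 0) (.gp 5 7 11 14 17 true false true), .t 1 (nat_lit 0) (.gp 5 7 12 13 14 true true true), .t 1 (nat_lit 0) (.gp 5 7 12 14 15 true true true), .t 1 (nat_lit 0) (.gp 5 7 12 14 16 true true true), .t 1 (nat_lit 0) (.gp 5 7 13 14 15 true true true), .t 1 (nat_lit 0) (.gp 5 7 13 14 16 true true true), .t 1 (nat_lit 0) (.gp 5 8 9 11 10 false false true), .t 1 (nat_lit 0) (.gp 5 8 13 16 15 true true false), .t 1 (nat_lit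 0) (.gp 6 0 1 2 9 true true false), .t 1 (nat_lit 0) (.gp 6 0 1 7 5 true false true), .t 1 (nat_lit 0) (.gp 6 0 1 9 14 true false false), .t 1 (nat_lit 0) (.gp 6 0 1 14 3 true false true), .t 1 (nat_lit 0) (.gp 6 0 1 14 4 true false true), .t 1 (nat_lit 0) (.gp 6 0 1 14 8 true false false), .t 1 (nat_lit 0) (.gp 6 0 1 18 19 true false false), .t 1 (nat_lit 0) (.gp 6 0 2 8 11 true false false), .t 1 (nat_lit 0) (.gp 6 0 2 10 11 true false false), .t 1 (nat_lit 0) (.gp 6 0 2 10 15 true false false), .t 1 (nat_lit 0) (.gp 6 0 3 14 9 true false false), .t 1 (nat_lit 0) (.gp 6 0 4 8 13 true false false), .t 1 (nat_lit 0) (.gp 6 0 4 10 5 true false true), .t 1 (nat_lit 0) (.gp 6 0 5 9 11 true false false), .t 1 (nat_lit 0) (.gp 6 0 5 9 14 true false false), .t 1 (nat_lit 0) (.gp 6 0 5 12 17 true false false), .t 1 (nat_lit 0) (.gp 6 0 5 16 10 true false false), .t 1 (nat_lit 0) (.gp 6 0 8 11 9 false false false), .t 1 (nat_lit 0) (.gp 6 0 9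 10 13 false false false), .t 1 (nat_lit 0) (.gp 6 0 9 14 11 false false false), .t 1 (nat_lit 0) (.gp 6 0 12 17 16 false false false), .t 1 (nat_lit 0) (.gp 6 1 2 3 8 false true true), .t 1 (nat_lit 0) (.gp 6 1 2 3 9 false true true), .t 1 (nat_lit 0) (.gp 6 1 2 3 10 false true true), .t 1 (nat_lit 0) (.gp 6 1 2 8 10 false true false), .t 1 (nat_lit 0) (.gp 6 1 3 8 4 true false true), .t 1 (nat_lit 0) (.gp 6 1 3 10 12 true false false), .t 1 (nat_lit 0) (.gp 6 1 3 11 4 true false true)] (by decide +kernel) (by decide +kernel)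
theorem b12 : B 768 832 := Blk.of_chk [.t 1 (nat_lit 0) (.gp 6 1 3 14 4 true false true), .t 1 (nat_lit 0) (.gp 6 1 3 14 10 true false false), .t 1 (nat_lit 0) (.gp 6 1 4 8 10 true false false), .t 1 (nat_lit 0) (.gp 6 1 5 7 8 true true true), .t 1 (nat_lit 0) (.gp 6 1 5 7 11 true true true), .t 1 (nat_lit 0) (.gp 6 1 8 9 11 true true true), .t 1 (nat_lit 0) (.gp 6 1 9 15 10 false false false), .t 1 (nat_lit 0) (.gp 6 2 4 11 5 true false true), .t 1 (nat_lit 0) (.gp 6 2 8 14 10 false false false), .t 1 (nat_lit 0) (.gp 6 3 4 5 8 true true true), .t 1 (nat_lit 0) (.gp 6 3 4 5 9 true true true), .t 1 (nat_lit 0) (.gp 6 3 4 5 13 true true true), .t 1 (nat_lit 0) (.gp 6 3 4 8 5 true false false), .t 1 (nat_lit 0) (.gp 6 3 4 8 9 true false false), .t 1 (nat_lit 0) (.gp 6 3 4 8 10 true false false), .t 1 (nat_lit 0) (.gp 6 3 4 8 11 true false false), .t 1 (nat_lit 0) (.gp 6 3 4 8 12 true false false), .t 1 (nat_lit 0) (.gp 6 3 4 8 13 true false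 false), .t 1 (nat_lit 0) (.gp 6 3 4 9 5 true false false), .t 1 (nat_lit 0) (.gp 6 3 4 9 8 true false false), .t 1 (nat_lit 0) (.gp 6 3 4 9 10 true false false), .t 1 (nat_lit 0) (.gp 6 3 4 10 5 true false true), .t 1 (nat_lit 0) (.gp 6 3 4 10 8 true false false), .t 1 (nat_lit 0) (.gp 6 3 4 10 9 true false false), .t 1 (nat_lit 0) (.gp 6 3 4 12 5 true false true), .t 1 (nat_lit 0) (.gp 6 3 4 13 5 true false false), .t 1 (nat_lit 0) (.gp 6 3 5 7 10 true true true), .t 1 (nat_lit 0) (.gp 6 3 5 10 9 true false false), .t 1 (nat_lit 0) (.gp 6 3 5 11 9 true true true), .t 1 (nat_lit 0) (.gp 6 3 7 14 12 true false true), .t 1 (nat_lit 0) (.gp 6 4 5 7 8 true true true), .t 1 (nat_lit 0) (.gp 6 4 5 7 13 true true true), .t 1 (nat_lit 0) (.gp 6 4 5 7 14 true true true), .t 1 (nat_lit 0) (.gp 6 4 5 13 9 false true false), .t 1 (nat_lit 0) (.gp 6 4 5 18 15 true true true), .t 1 (nat_lit 0) (.gp 6 4 5 18 16 true true true), .t 1 (nat_lit 0) (.gp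 6 4 8 13 14 true false true), .t 1 (nat_lit 0) (.gp 6 4 14 19 17 false false false), .t 1 (nat_lit 0) (.gp 6 5 7 8 9 true false true), .t 1 (nat_lit 0) (.gp 6 5 7 8 10 true false true), .t 1 (nat_lit 0) (.gp 6 5 7 8 13 true false true), .t 1 (nat_lit 0) (.gp 6 5 7 8 15 true false true), .t 1 (nat_lit 0) (.gp 6 5 7 8 16 true false true), .t 1 (nat_lit 0) (.gp 6 5 7 9 8 false false true), .t 1 (nat_lit 0) (.gp 6 5 7 9 8 true false true), .t 1 (nat_lit 0) (.gp 6 5 7 9 10 false false true), .t 1 (nat_lit 0) (.gp 6 5 7 9 12 false false true), .t 1 (nat_lit 0) (.gp 6 5 7 9 13 false false true), .t 1 (nat_lit 0) (.gp 6 5 7 10 8 false false true), .t 1 (nat_lit 0) (.gp 6 5 7 10 8 true false true), .t 1 (nat_lit 0) (.gp 6 5 7 10 9 false false true), .t 1 (nat_lit 0) (.gp 6 5 7 10 12 false false true), .t 1 (nat_lit 0) (.gp 6 5 7 10 12 true true true), .t 1 (nat_lit 0) (.gp 6 5 7 12 9 false false true), .t 1 (nat_lit 0) (.gp 6 5 7 12 10 false false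 true), .t 1 (nat_lit 0) (.gp 6 5 7 13 10 false false true), .t 1 (nat_lit 0) (.gp 6 5 7 13 10 true true true), .t 1 (nat_lit 0) (.gp 6 5 7 16 10 true true true), .t 1 (nat_lit 0) (.gp 6 5 8 10 12 true true true), .t 1 (nat_lit 0) (.gp 6 5 8 13 10 true true true), .t 1 (nat_lit 0) (.gp 6 5 8 16 10 true true true), .t 1 (nat_lit 0) (.gp 6 5 10 15 16 false false false), .t 1 (nat_lit 0) (.gp 6 7 8 9 10 true true true), .t 1 (nat_lit 0) (.gp 6 7 8 9 12 true true true)] (by decide +kernel) (by decide +kernel)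
theorem b13 : B 832 896 := Blk.of_chk [.t 1 (nat_lit 0) (.gp 6 7 8 10 9 true true true), .t 1 (nat_lit 0) (.gp 6 7 8 10 12 true true true), .t 1 (nat_lit 0) (.gp 6 7 8 10 13 true true true), .t 1 (nat_lit 0) (.gp 6 7 8 11 12 true true true), .t 1 (nat_lit 0) (.gp 6 7 8 11 13 true true true), .t 1 (nat_lit 0) (.gp 6 7 8 11 14 true true true), .t 1 (nat_lit 0) (.gp 6 7 8 12 9 true true true), .t 1 (nat_lit 0) (.gp 6 7 8 12 10 true true true), .t 1 (nat_lit 0) (.gp 6 7 8 13 9 true true true), .t 1 (nat_lit 0) (.gp 6 7 8 13 14 true true true), .t 1 (nat_lit 0) (.gp 6 7 9 10 12 true true true), .t 1 (nat_lit 0) (.gp 6 7 9 10 13 true true true), .t 1 (nat_lit 0) (.gp 6 7 9 11 13 true true true), .t 1 (nat_lit 0) (.gp 6 7 9 11 15 true true true), .t 1 (nat_lit 0) (.gp 6 7 9 11 16 true true true), .t 1 (nat_lit 0) (.gp 6 7 9 11 17 true true true), .t 1 (nat_lit 0) (.gp 6 7 9 12 14 true true true), .t 1 (nat_lit 0) (.gp 6 7 9 13 14 true true true),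 .t 1 (nat_lit 0) (.gp 6 7 9 14 12 true true true), .t 1 (nat_lit 0) (.gp 6 7 9 14 13 true true true), .t 1 (nat_lit 0) (.gp 6 7 9 14 15 true true true), .t 1 (nat_lit 0) (.gp 6 7 9 14 16 true true true), .t 1 (nat_lit 0) (.gp 6 7 9 15 10 true true true), .t 1 (nat_lit 0) (.gp 6 7 9 16 10 true true true), .t 1 (nat_lit 0) (.gp 6 7 10 11 15 true true true), .t 1 (nat_lit 0) (.gp 6 7 10 13 14 true true true), .t 1 (nat_lit 0) (.gp 6 7 10 14 12 true true true), .t 1 (nat_lit 0) (.gp 6 7 10 14 16 true true true), .t 1 (nat_lit 0) (.gp 6 7 11 14 17 true false true), .t 1 (nat_lit 0) (.gp 6 7 12 13 14 true true true), .t 1 (nat_lit 0) (.gp 6 7 12 14 15 true true true), .t 1 (nat_lit 0) (.gp 6 7 12 14 16 true true true), .t 1 (nat_lit 0) (.gp 6 7 13 14 15 true true true), .t 1 (nat_lit 0) (.gp 6 7 13 14 16 true true true), .t 1 (nat_lit 0) (.gp 6 8 9 18 13 false false true), .t 1 (nat_lit 0) (.gp 6 8 10 11 12 true true false), .t 1 (nat_lit 0)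 (.gp 6 8 10 11 13 true true false), .t 1 (nat_lit 0) (.gp 6 8 10 11 15 true true false), .t 1 (nat_lit 0) (.gp 6 8 10 11 16 true true false), .t 1 (nat_lit 0) (.gp 6 8 13 15 18 true false true), .t 1 (nat_lit 0) (.gp 6 10 14 16 18 true false true), .t 1 (nat_lit 0) (.gp 6 12 13 15 14 false false true), .t 1 (nat_lit 0) (.gp 6 12 13 16 18 true false true), .t 1 (nat_lit 0) (.gp 6 12 14 16 17 true false true), .t 1 (nat_lit 0) (.gp 7 0 1 2 8 true true false), .t 1 (nat_lit 0) (.gp 7 0 1 2 9 true true false), .t 1 (nat_lit 0) (.gp 7 0 1 2 10 true true false), .t 1 (nat_lit 0) (.gp 7 0 1 2 12 true true false), .t 1 (nat_lit 0) (.gp 7 0 1 8 4 true false true), .t 1 (nat_lit 0) (.gp 7 0 1 9 4 true false true), .t 1 (nat_lit 0) (.gp 7 0 1 10 4 true false true), .t 1 (nat_lit 0) (.gp 7 0 1 12 4 true false true), .t 1 (nat_lit 0) (.gp 7 0 1 13 4 true false true), .t 1 (nat_lit 0) (.gp 7 0 4 5 8 true true false), .t 1 (nat_lit 0) (.gp 7 0 4 5 9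 true true false), .t 1 (nat_lit 0) (.gp 7 0 4 5 10 true true false), .t 1 (nat_lit 0) (.gp 7 0 4 5 12 true true false), .t 1 (nat_lit 0) (.gp 7 0 4 5 13 true true false), .t 1 (nat_lit 0) (.gp 7 0 4 5 15 true true false), .t 1 (nat_lit 0) (.gp 7 0 4 5 16 true true false), .t 1 (nat_lit 0) (.gp 7 0 4 5 19 true true false), .t 1 (nat_lit 0) (.gp 7 0 4 6 8 true true false), .t 1 (nat_lit 0) (.gp 7 0 4 6 9 true true false), .t 1 (nat_lit 0) (.gp 7 0 4 6 10 true true false)] (by decide +kernel) (by decide +kernel)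
theorem b14 : B 896 960 := Blk.of_chk [.t 1 (nat_lit 0) (.gp 7 0 4 6 12 true true false), .t 1 (nat_lit 0) (.gp 7 0 4 6 13 true true false), .t 1 (nat_lit 0) (.gp 7 0 4 6 15 true true false), .t 1 (nat_lit 0) (.gp 7 0 4 6 16 true true false), .t 1 (nat_lit 0) (.gp 7 0 4 6 18 true true false), .t 1 (nat_lit 0) (.gp 7 0 4 6 19 true true false), .t 1 (nat_lit 0) (.gp 7 0 8 10 13 false false false), .t 1 (nat_lit 0) (.gp 7 0 9 17 14 false false false), .t 1 (nat_lit 0) (.gp 7 1 2 5 8 false true false), .t 1 (nat_lit 0) (.gp 7 1 2 6 8 false true false), .t 1 (nat_lit 0) (.gp 7 1 3 8 4 true false true), .t 1 (nat_lit 0) (.gp 7 1 3 8 5 true false false), .t 1 (nat_lit 0) (.gp 7 1 3 8 6 true false false), .t 1 (nat_lit 0) (.gp 7 1 3 9 4 true false true), .t 1 (nat_lit 0) (.gp 7 1 3 10 4 true false true), .t 1 (nat_lit 0) (.gp 7 1 3 12 4 true false true), .t 1 (nat_lit 0) (.gp 7 1 3 13 4 true false true), .t 1 (nat_lit 0) (.gp 7 1 5 6 8 false true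 false), .t 1 (nat_lit 0) (.gp 7 1 5 8 6 true false false), .t 1 (nat_lit 0) (.gp 7 1 12 19 14 false false false), .t 1 (nat_lit 0) (.gp 7 2 3 17 19 true true false), .t 1 (nat_lit 0) (.gp 7 3 4 17 19 true true false), .t 1 (nat_lit 0) (.gp 7 4 8 9 10 false false false), .t 1 (nat_lit 0) (.gp 7 4 8 9 13 false false false), .t 1 (nat_lit 0) (.gp 7 4 8 9 17 false false false), .t 1 (nat_lit 0) (.gp 7 4 8 10 17 false false false), .t 1 (nat_lit 0) (.gp 7 4 8 12 17 false false false), .t 1 (nat_lit 0) (.gp 7 4 8 14 9 false false false), .t 1 (nat_lit 0) (.gp 7 4 8 14 12 false false false), .t 1 (nat_lit 0) (.gp 7 4 8 17 10 false false false), .t 1 (nat_lit 0) (.gp 7 4 9 17 12 false false false), .t 1 (nat_lit 0) (.gp 7 4 10 17 14 false false false), .t 1 (nat_lit 0) (.gp 7 4 10 18 12 false false false), .t 1 (nat_lit 0) (.gp 7 4 15 16 17 false false false), .t 1 (nat_lit 0) (.gp 7 5 6 8 9 false true false), .t 1 (nat_lit 0) (.gp 7 5 6 8 9 true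 false false), .t 1 (nat_lit 0) (.gp 7 5 6 8 10 false true false), .t 1 (nat_lit 0) (.gp 7 5 6 9 8 false true false), .t 1 (nat_lit 0) (.gp 7 5 6 9 8 true false false), .t 1 (nat_lit 0) (.gp 7 5 6 10 8 false true false), .t 1 (nat_lit 0) (.gp 7 5 6 10 8 true false false), .t 1 (nat_lit 0) (.gp 7 5 6 13 8 false true false), .t 1 (nat_lit 0) (.gp 7 5 6 15 8 false true false), .t 1 (nat_lit 0) (.gp 7 5 6 16 8 false true false), .t 1 (nat_lit 0) (.gp 7 5 9 12 13 false false false), .t 1 (nat_lit 0) (.gp 7 5 9 13 14 false false false), .t 1 (nat_lit 0) (.gp 7 5 10 12 13 false false false), .t 1 (nat_lit 0) (.gp 7 5 10 13 14 false false false), .t 1 (nat_lit 0) (.gp 7 5 11 19 17 false false true), .t 1 (nat_lit 0) (.gp 7 5 12 13 14 false false false), .t 1 (nat_lit 0) (.gp 7 6 9 12 13 false false false), .t 1 (nat_lit 0) (.gp 7 6 9 13 14 false false false), .t 1 (nat_lit 0) (.gp 7 6 10 12 13 false false false), .t 1 (nat_lit 0) (.gp 7 6 11 18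 17 false false true), .t 1 (nat_lit 0) (.gp 7 6 12 13 14 false false false), .t 1 (nat_lit 0) (.gp 7 8 9 10 17 false false true), .t 1 (nat_lit 0) (.gp 7 8 9 11 17 true false false), .t 1 (nat_lit 0) (.gp 7 8 9 12 13 false true false), .t 1 (nat_lit 0) (.gp 7 8 9 12 17 false false true), .t 1 (nat_lit 0) (.gp 7 8 9 17 13 true true true), .t 1 (nat_lit 0) (.gp 7 8 10 11 13 true false false), .t 1 (nat_lit 0) (.gp 7 8 10 11 14 true false false), .t 1 (nat_lit 0) (.gp 7 8 10 14 13 false false true), .t 1 (nat_lit 0) (.gp 7 8 11 14 13 false false true)] (by decide +kernel) (by decide +kernel)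
theorem b15 : B 960 1024 := Blk.of_chk [.t 1 (nat_lit 0) (.gp 7 8 11 16 13 false false true), .t 1 (nat_lit 0) (.gp 7 8 11 17 13 false false true), .t 1 (nat_lit 0) (.gp 7 8 11 17 14 false false true), .t 1 (nat_lit 0) (.gp 7 8 11 17 16 false false true), .t 1 (nat_lit 0) (.gp 7 8 11 18 13 false false true), .t 1 (nat_lit 0) (.gp 7 8 11 18 17 false false true), .t 1 (nat_lit 0) (.gp 7 8 12 15 14 false true false), .t 1 (nat_lit 0) (.gp 7 8 13 18 17 false true true), .t 1 (nat_lit 0) (.gp 7 9 10 13 14 true true true), .t 1 (nat_lit 0) (.gp 7 9 10 14 11 false true false), .t 1 (nat_lit 0) (.gp 7 9 10 14 13 false false true), .t 1 (nat_lit 0) (.gp 7 9 10 15 12 true true true), .t 1 (nat_lit 0) (.gp 7 9 10 16 11 false true false), .t 1 (nat_lit 0) (.gp 7 9 10 18 12 false false true), .t 1 (nat_lit 0) (.gp 7 9 11 13 12 false false true), .t 1 (nat_lit 0) (.gp 7 9 11 14 13 false false true), .t 1 (nat_lit 0) (.gp 7 9 11 15 12 false false true),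 .t 1 (nat_lit 0) (.gp 7 9 11 15 13 false false true), .t 1 (nat_lit 0) (.gp 7 9 11 16 13 false false true), .t 1 (nat_lit 0) (.gp 7 9 11 17 13 false false true), .t 1 (nat_lit 0) (.gp 7 9 11 18 17 false false true), .t 1 (nat_lit 0) (.gp 7 10 11 12 19 false false true), .t 1 (nat_lit 0) (.gp 7 10 11 14 12 false false true), .t 1 (nat_lit 0) (.gp 7 10 11 16 14 false false true), .t 1 (nat_lit 0) (.gp 7 10 11 17 12 false false true), .t 1 (nat_lit 0) (.gp 7 10 11 17 13 false false true), .t 1 (nat_lit 0) (.gp 7 10 11 17 15 false false true), .t 1 (nat_lit 0) (.gp 7 10 11 18 13 false false true), .t 1 (nat_lit 0) (.gp 7 10 11 18 17 false false true), .t 1 (nat_lit 0) (.gp 7 10 11 19 15 false false true), .t 1 (nat_lit 0) (.gp 7 10 12 13 17 false false true), .t 1 (nat_lit 0) (.gp 7 10 12 15 17 true true true), .t 1 (nat_lit 0) (.gp 7 10 13 14 15 true false true), .t 1 (nat_lit 0) (.gp 7 10 13 15 17 true true true), .t 1 (nat_lit 0) (.gp 7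 10 13 15 18 true false true), .t 1 (nat_lit 0) (.gp 7 10 13 16 15 true true true), .t 1 (nat_lit 0) (.gp 7 10 13 16 17 true true false), .t 1 (nat_lit 0) (.gp 7 10 13 17 15 false false false), .t 1 (nat_lit 0) (.gp 7 10 13 17 18 true false true), .t 1 (nat_lit 0) (.gp 7 12 13 14 18 true false true), .t 1 (nat_lit 0) (.gp 7 12 13 15 17 true true true), .t 1 (nat_lit 0) (.gp 7 12 13 18 14 false true true), .t 1 (nat_lit 0) (.gp 7 12 14 15 18 true false true), .t 1 (nat_lit 0) (.gp 7 12 14 16 18 true false true), .t 1 (nat_lit 0) (.gp 7 12 14 17 18 true false true), .t 1 (nat_lit 0) (.gp 7 12 15 17 18 true false true), .t 1 (nat_lit 0) (.gp 7 12 16 17 18 true false true), .t 1 (nat_lit 0) (.gp 7 12 16 18 17 false true true), .t 1 (nat_lit 0) (.gp 7 13 14 15 18 true false true), .t 1 (nat_lit 0) (.gp 7 13 14 16 17 true false true), .t 1 (nat_lit 0) (.gp 7 13 14 16 18 true false true), .t 1 (nat_lit 0) (.gp 7 13 14 17 18 true false true), .t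 1 (nat_lit 0) (.gp 7 13 14 19 18 true false true), .t 1 (nat_lit 0) (.gp 7 13 16 18 17 false true true), .t 1 (nat_lit 0) (.gp 8 0 1 2 9 true true false), .t 1 (nat_lit 0) (.gp 8 0 1 2 10 true true false), .t 1 (nat_lit 0) (.gp 8 0 1 2 11 true true false), .t 1 (nat_lit 0) (.gp 8 0 1 5 10 true true false), .t 1 (nat_lit 0) (.gp 8 0 1 5 13 true true false), .t 1 (nat_lit 0) (.gp 8 0 1 5 15 true true false), .t 1 (nat_lit 0) (.gp 8 0 1 5 16 true true false), .t 1 (nat_lit 0) (.gp 8 0 1 5 17 true true false), .t 1 (nat_lit 0) (.gp 8 0 1 6 12 true true false), .t 1 (nat_lit 0) (.gp 8 0 1 6 13 true true false)] (by decide +kernel) (by decide +kernel)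
theorem b16 : B 1024 1088 := Blk.of_chk [.t 1 (nat_lit 0) (.gp 8 0 1 9 3 true false true), .t 1 (nat_lit 0) (.gp 8 0 1 9 4 true false true), .t 1 (nat_lit 0) (.gp 8 0 1 9 5 true false true), .t 1 (nat_lit 0) (.gp 8 0 1 9 6 true false true), .t 1 (nat_lit 0) (.gp 8 0 1 9 7 true false true), .t 1 (nat_lit 0) (.gp 8 0 1 10 4 true false true), .t 1 (nat_lit 0) (.gp 8 0 1 10 5 true false true), .t 1 (nat_lit 0) (.gp 8 0 1 10 7 true false true), .t 1 (nat_lit 0) (.gp 8 0 1 11 3 true false true), .t 1 (nat_lit 0) (.gp 8 0 1 11 4 true false true), .t 1 (nat_lit 0) (.gp 8 0 1 11 5 true false true), .t 1 (nat_lit 0) (.gp 8 0 1 11 6 true false true), .t 1 (nat_lit 0) (.gp 8 0 1 12 5 true false true), .t 1 (nat_lit 0) (.gp 8 0 1 17 13 true false false), .t 1 (nat_lit 0) (.gp 8 0 2 9 4 true false true), .t 1 (nat_lit 0) (.gp 8 0 2 9 6 true false true), .t 1 (nat_lit 0) (.gp 8 0 2 9 7 true false true), .t 1 (nat_lit 0) (.gp 8 0 2 9 11 true false false),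 .t 1 (nat_lit 0) (.gp 8 0 2 9 13 true false false), .t 1 (nat_lit 0) (.gp 8 0 2 9 16 true false false), .t 1 (nat_lit 0) (.gp 8 0 2 9 17 true false false), .t 1 (nat_lit 0) (.gp 8 0 2 9 19 true false false), .t 1 (nat_lit 0) (.gp 8 0 2 10 6 true false true), .t 1 (nat_lit 0) (.gp 8 0 2 10 9 true false false), .t 1 (nat_lit 0) (.gp 8 0 2 11 5 true false true), .t 1 (nat_lit 0) (.gp 8 0 2 11 6 true false true), .t 1 (nat_lit 0) (.gp 8 0 2 11 9 true false false), .t 1 (nat_lit 0) (.gp 8 0 2 11 10 true false false), .t 1 (nat_lit 0) (.gp 8 0 3 6 10 true true false), .t 1 (nat_lit 0) (.gp 8 0 3 9 7 true false true), .t 1 (nat_lit 0) (.gp 8 0 3 10 4 true false true), .t 1 (nat_lit 0) (.gp 8 0 3 10 11 true false false), .t 1 (nat_lit 0) (.gp 8 0 3 12 5 true false true), .t 1 (nat_lit 0) (.gp 8 0 3 14 10 true false false), .t 1 (nat_lit 0) (.gp 8 0 3 17 12 true false false), .t 1 (nat_lit 0) (.gp 8 0 4 5 9 true true false), .t 1 (nat_lit 0) (.gp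 8 0 4 6 9 true true false), .t 1 (nat_lit 0) (.gp 8 0 4 6 13 true true false), .t 1 (nat_lit 0) (.gp 8 0 4 6 14 true true false), .t 1 (nat_lit 0) (.gp 8 0 4 6 15 true true false), .t 1 (nat_lit 0) (.gp 8 0 4 6 18 true true false), .t 1 (nat_lit 0) (.gp 8 0 4 10 14 true false false), .t 1 (nat_lit 0) (.gp 8 0 4 13 5 true false true), .t 1 (nat_lit 0) (.gp 8 0 4 13 6 true false true), .t 1 (nat_lit 0) (.gp 8 0 4 15 5 true false true), .t 1 (nat_lit 0) (.gp 8 0 4 17 9 true false false), .t 1 (nat_lit 0) (.gp 8 0 5 6 10 true true false), .t 1 (nat_lit 0) (.gp 8 0 5 9 7 true false true), .t 1 (nat_lit 0) (.gp 8 0 5 9 14 true false false), .t 1 (nat_lit 0) (.gp 8 0 5 10 14 true false false), .t 1 (nat_lit 0) (.gp 8 0 5 11 9 true false false), .t 1 (nat_lit 0) (.gp 8 0 5 11 10 true false false), .t 1 (nat_lit 0) (.gp 8 0 5 13 7 true false true), .t 1 (nat_lit 0) (.gp 8 0 5 18 6 true false true), .t 1 (nat_lit 0) (.gp 8 0 6 9 7 true false true),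 .t 1 (nat_lit 0) (.gp 8 0 6 10 7 true false true), .t 1 (nat_lit 0) (.gp 8 0 6 11 9 true false false), .t 1 (nat_lit 0) (.gp 8 0 6 11 10 true false false), .t 1 (nat_lit 0) (.gp 8 0 6 12 7 true false true), .t 1 (nat_lit 0) (.gp 8 0 6 13 10 true false false), .t 1 (nat_lit 0) (.gp 8 0 6 13 18 true false false), .t 1 (nat_lit 0) (.gp 8 0 6 13 19 true false false), .t 1 (nat_lit 0) (.gp 8 0 7 9 11 true false false), .t 1 (nat_lit 0) (.gp 8 0 7 10 11 true false false)] (by decide +kernel) (by decide +kernel)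
theorem b17 : B 1088 1152 := Blk.of_chk [.t 1 (nat_lit 0) (.gp 8 0 7 10 14 true false false), .t 1 (nat_lit 0) (.gp 8 0 9 10 11 false false false), .t 1 (nat_lit 0) (.gp 8 0 9 10 14 false false false), .t 1 (nat_lit 0) (.gp 8 0 9 16 11 false false false), .t 1 (nat_lit 0) (.gp 8 0 9 17 11 false false false), .t 1 (nat_lit 0) (.gp 8 0 9 18 14 false false false), .t 1 (nat_lit 0) (.gp 8 0 9 19 11 false false false), .t 1 (nat_lit 0) (.gp 8 0 9 19 14 false false false), .t 1 (nat_lit 0) (.gp 8 0 10 12 11 false false false), .t 1 (nat_lit 0) (.gp 8 0 10 12 13 false false false), .t 1 (nat_lit 0) (.gp 8 0 10 13 11 false false false), .t 1 (nat_lit 0) (.gp 8 0 10 14 11 false false false), .t 1 (nat_lit 0) (.gp 8 0 10 15 14 false false false), .t 1 (nat_lit 0) (.gp 8 0 10 16 14 false false false), .t 1 (nat_lit 0) (.gp 8 0 10 17 14 false false false), .t 1 (nat_lit 0) (.gp 8 0 10 18 13 false false false), .t 1 (nat_lit 0) (.gp 8 0 10 18 15 false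 false false), .t 1 (nat_lit 0) (.gp 8 0 10 18 16 false false false), .t 1 (nat_lit 0) (.gp 8 0 10 19 11 false false false), .t 1 (nat_lit 0) (.gp 8 0 12 17 13 false false false), .t 1 (nat_lit 0) (.gp 8 0 13 15 14 false false false), .t 1 (nat_lit 0) (.gp 8 0 13 16 14 false false false), .t 1 (nat_lit 0) (.gp 8 0 13 17 14 false false false), .t 1 (nat_lit 0) (.gp 8 1 2 7 5 false true true), .t 1 (nat_lit 0) (.gp 8 1 2 7 6 false true true), .t 1 (nat_lit 0) (.gp 8 1 3 5 7 true false true), .t 1 (nat_lit 0) (.gp 8 1 3 6 4 true false true), .t 1 (nat_lit 0) (.gp 8 1 3 9 5 true false false), .t 1 (nat_lit 0) (.gp 8 1 3 10 5 true false false), .t 1 (nat_lit 0) (.gp 8 1 3 10 11 true false true), .t 1 (nat_lit 0) (.gp 8 1 3 12 5 true false false), .t 1 (nat_lit 0) (.gp 8 1 3 12 6 true false false), .t 1 (nat_lit 0) (.gp 8 1 3 13 12 true false false), .t 1 (nat_lit 0) (.gp 8 1 3 14 9 true false false), .t 1 (nat_lit 0) (.gp 8 1 4 6 7 true false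 true), .t 1 (nat_lit 0) (.gp 8 1 4 10 13 true false false), .t 1 (nat_lit 0) (.gp 8 1 4 11 14 true true true), .t 1 (nat_lit 0) (.gp 8 1 4 14 5 true false true), .t 1 (nat_lit 0) (.gp 8 1 5 7 6 false true true), .t 1 (nat_lit 0) (.gp 8 1 5 12 14 true false false), .t 1 (nat_lit 0) (.gp 8 1 5 12 17 true true false), .t 1 (nat_lit 0) (.gp 8 1 6 11 10 true true true), .t 1 (nat_lit 0) (.gp 8 1 6 13 9 true false false), .t 1 (nat_lit 0) (.gp 8 1 6 15 14 false false false), .t 1 (nat_lit 0) (.gp 8 1 7 13 12 true false true), .t 1 (nat_lit 0) (.gp 8 2 3 4 7 true false true), .t 1 (nat_lit 0) (.gp 8 2 4 6 7 true false true), .t 1 (nat_lit 0) (.gp 8 2 4 11 12 true false true), .t 1 (nat_lit 0) (.gp 8 2 4 11 14 true false true), .t 1 (nat_lit 0) (.gp 8 2 5 7 9 true true true), .t 1 (nat_lit 0) (.gp 8 2 5 9 10 true true false), .t 1 (nat_lit 0) (.gp 8 2 5 10 12 true true false), .t 1 (nat_lit 0) (.gp 8 2 5 14 10 true false false), .t 1 (nat_lit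 0) (.gp 8 2 6 9 10 true true false), .t 1 (nat_lit 0) (.gp 8 2 6 10 13 true false false), .t 1 (nat_lit 0) (.gp 8 2 6 11 15 true false false), .t 1 (nat_lit 0) (.gp 8 2 6 11 17 true false false), .t 1 (nat_lit 0) (.gp 8 2 6 14 12 true false false), .t 1 (nat_lit 0) (.gp 8 2 7 9 12 true false true), .t 1 (nat_lit 0) (.gp 8 2 7 11 13 true false true), .t 1 (nat_lit 0) (.gp 8 2 7 11 14 true false true), .t 1 (nat_lit 0) (.gp 8 2 7 11 17 true false true), .t 1 (nat_lit 0) (.gp 8 2 7 13 10 true false false), .t 1 (nat_lit 0) (.gp 8 2 9 14 10 false true true)] (by decide +kernel) (by decide +kernel)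
theorem b18 : B 1152 1216 := Blk.of_chk [.t 1 (nat_lit 0) (.gp 8 2 9 15 10 false true true), .t 1 (nat_lit 0) (.gp 8 2 9 16 10 false true true), .t 1 (nat_lit 0) (.gp 8 2 9 17 10 false true true), .t 1 (nat_lit 0) (.gp 8 2 9 17 14 false false true), .t 1 (nat_lit 0) (.gp 8 2 9 18 10 false true true), .t 1 (nat_lit 0) (.gp 8 2 9 19 10 false true true), .t 1 (nat_lit 0) (.gp 8 2 11 14 12 false false true), .t 1 (nat_lit 0) (.gp 8 2 11 15 13 false false true), .t 1 (nat_lit 0) (.gp 8 3 4 5 6 true false true), .t 1 (nat_lit 0) (.gp 8 3 4 5 7 true false true), .t 1 (nat_lit 0) (.gp 8 3 4 5 9 true true true), .t 1 (nat_lit 0) (.gp 8 3 4 5 10 true true true), .t 1 (nat_lit 0) (.gp 8 3 4 6 5 true false false), .t 1 (nat_lit 0) (.gp 8 3 4 6 7 true false true), .t 1 (nat_lit 0) (.gp 8 3 4 6 9 true false true), .t 1 (nat_lit 0) (.gp 8 3 4 6 9 true true true), .t 1 (nat_lit 0) (.gp 8 3 4 6 10 true false true), .t 1 (nat_lit 0) (.gp 8 3 4 6 10 true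 true true), .t 1 (nat_lit 0) (.gp 8 3 4 9 6 true false true), .t 1 (nat_lit 0) (.gp 8 3 4 10 6 true false true), .t 1 (nat_lit 0) (.gp 8 3 4 11 5 true false false), .t 1 (nat_lit 0) (.gp 8 3 4 11 6 true false true), .t 1 (nat_lit 0) (.gp 8 3 4 11 12 true false false), .t 1 (nat_lit 0) (.gp 8 3 4 11 13 true false false), .t 1 (nat_lit 0) (.gp 8 3 4 12 5 true false true), .t 1 (nat_lit 0) (.gp 8 3 4 12 6 true false true), .t 1 (nat_lit 0) (.gp 8 3 4 12 18 true true false), .t 1 (nat_lit 0) (.gp 8 3 4 13 5 true false true), .t 1 (nat_lit 0) (.gp 8 3 4 13 6 true false true), .t 1 (nat_lit 0) (.gp 8 3 4 13 18 true true false), .t 1 (nat_lit 0) (.gp 8 3 4 14 15 true true false), .t 1 (nat_lit 0) (.gp 8 3 4 15 18 true true false), .t 1 (nat_lit 0) (.gp 8 3 5 6 9 false true false), .t 1 (nat_lit 0) (.gp 8 3 5 6 9 true false false), .t 1 (nat_lit 0) (.gp 8 3 5 6 9 true false true), .t 1 (nat_lit 0) (.gp 8 3 5 6 10 false true false), .t 1 (nat_lit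 0) (.gp 8 3 5 6 10 true false true), .t 1 (nat_lit 0) (.gp 8 3 5 9 6 false true true), .t 1 (nat_lit 0) (.gp 8 3 5 10 6 false true true), .t 1 (nat_lit 0) (.gp 8 3 5 10 11 false true false), .t 1 (nat_lit 0) (.gp 8 3 5 15 14 false false false), .t 1 (nat_lit 0) (.gp 8 3 5 18 15 false false false), .t 1 (nat_lit 0) (.gp 8 3 6 11 10 true true true), .t 1 (nat_lit 0) (.gp 8 3 6 11 12 true false false), .t 1 (nat_lit 0) (.gp 8 3 6 11 13 true false false), .t 1 (nat_lit 0) (.gp 8 3 6 14 9 true false false), .t 1 (nat_lit 0) (.gp 8 3 6 15 12 false false false), .t 1 (nat_lit 0) (.gp 8 3 7 9 11 true false true), .t 1 (nat_lit 0) (.gp 8 4 5 11 10 true true true), .t 1 (nat_lit 0) (.gp 8 4 5 15 17 true false false), .t 1 (nat_lit 0) (.gp 8 4 5 17 11 false false true), .t 1 (nat_lit 0) (.gp 8 4 6 7 12 true true true), .t 1 (nat_lit 0) (.gp 8 4 6 10 13 true true false), .t 1 (nat_lit 0) (.gp 8 4 6 11 9 false true true), .t 1 (nat_lit 0) (.gp 8 4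 6 11 10 true true true), .t 1 (nat_lit 0) (.gp 8 4 6 18 16 false false false), .t 1 (nat_lit 0) (.gp 8 4 7 9 11 true false true), .t 1 (nat_lit 0) (.gp 8 4 7 11 9 true true true), .t 1 (nat_lit 0) (.gp 8 4 7 11 14 true false true), .t 1 (nat_lit 0) (.gp 8 4 7 13 14 true false true), .t 1 (nat_lit 0) (.gp 8 4 10 14 18 true true false), .t 1 (nat_lit 0) (.gp 8 4 12 14 18 true false false), .t 1 (nat_lit 0) (.gp 8 5 6 7 9 false true true), .t 1 (nat_lit 0) (.gp 8 5 6 7 9 true true true)] (by decide +kernel) (by decide +kernel)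
theorem b19 : B 1216 1280 := Blk.of_chk [.t 1 (nat_lit 0) (.gp 8 5 6 7 10 false true false), .t 1 (nat_lit 0) (.gp 8 5 6 7 10 false true true), .t 1 (nat_lit 0) (.gp 8 5 6 7 10 true true true), .t 1 (nat_lit 0) (.gp 8 5 6 7 13 false true false), .t 1 (nat_lit 0) (.gp 8 5 6 7 13 false true true), .t 1 (nat_lit 0) (.gp 8 5 6 7 15 false true true), .t 1 (nat_lit 0) (.gp 8 5 6 7 16 false true false), .t 1 (nat_lit 0) (.gp 8 5 6 7 16 false true true), .t 1 (nat_lit 0) (.gp 8 5 6 9 7 false false true), .t 1 (nat_lit 0) (.gp 8 5 6 9 7 true false false), .t 1 (nat_lit 0) (.gp 8 5 6 9 7 true false true), .t 1 (nat_lit 0) (.gp 8 5 6 10 7 false false true), .t 1 (nat_lit 0) (.gp 8 5 6 10 7 true false false), .t 1 (nat_lit 0) (.gp 8 5 6 12 7 true false false), .t 1 (nat_lit 0) (.gp 8 5 6 13 7 true false false), .t 1 (nat_lit 0) (.gp 8 5 7 9 11 true false true), .t 1 (nat_lit 0) (.gp 8 5 7 9 12 true true true), .t 1 (nat_lit 0) (.gp 8 5 7 9 13 true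 true true), .t 1 (nat_lit 0) (.gp 8 5 7 10 12 true false false), .t 1 (nat_lit 0) (.gp 8 5 7 11 14 true false true), .t 1 (nat_lit 0) (.gp 8 5 7 13 10 true false false), .t 1 (nat_lit 0) (.gp 8 5 7 14 16 true false true), .t 1 (nat_lit 0) (.gp 8 5 7 14 17 true false true), .t 1 (nat_lit 0) (.gp 8 5 7 16 10 true false false), .t 1 (nat_lit 0) (.gp 8 5 14 17 15 false false true), .t 1 (nat_lit 0) (.gp 8 6 7 9 10 true false false), .t 1 (nat_lit 0) (.gp 8 6 7 9 12 true false false), .t 1 (nat_lit 0) (.gp 8 6 7 9 12 true true true), .t 1 (nat_lit 0) (.gp 8 6 7 9 13 true true true), .t 1 (nat_lit 0) (.gp 8 6 7 10 9 true false false), .t 1 (nat_lit 0) (.gp 8 6 7 10 11 true false true), .t 1 (nat_lit 0) (.gp 8 6 7 10 12 true false false), .t 1 (nat_lit 0) (.gp 8 6 7 10 13 true false false), .t 1 (nat_lit 0) (.gp 8 6 7 12 9 true false false), .t 1 (nat_lit 0) (.gp 8 6 7 12 10 true false false), .t 1 (nat_lit 0) (.gp 8 6 7 12 16 true false false),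 .t 1 (nat_lit 0) (.gp 8 6 7 13 9 true false false), .t 1 (nat_lit 0) (.gp 8 6 9 12 11 false true true), .t 1 (nat_lit 0) (.gp 8 6 10 14 13 true false false), .t 1 (nat_lit 0) (.gp 8 6 10 18 14 false false true), .t 1 (nat_lit 0) (.gp 8 6 11 12 15 false false true), .t 1 (nat_lit 0) (.gp 8 6 11 12 16 false false true), .t 1 (nat_lit 0) (.gp 8 6 11 15 13 false false true), .t 1 (nat_lit 0) (.gp 8 6 11 16 13 false false true), .t 1 (nat_lit 0) (.gp 8 6 12 15 13 false false false), .t 1 (nat_lit 0) (.gp 8 6 12 16 13 false false false), .t 1 (nat_lit 0) (.gp 8 7 9 11 10 true true false), .t 1 (nat_lit 0) (.gp 8 7 9 12 13 false true false), .t 1 (nat_lit 0) (.gp 8 7 9 12 14 true false true), .t 1 (nat_lit 0) (.gp 8 7 9 13 12 false true false), .t 1 (nat_lit 0) (.gp 8 7 11 12 15 true false true), .t 1 (nat_lit 0) (.gp 8 7 11 13 14 true false true), .t 1 (nat_lit 0) (.gp 8 7 12 13 14 false false true), .t 1 (nat_lit 0) (.gp 8 9 10 11 12 true true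 true), .t 1 (nat_lit 0) (.gp 8 9 10 11 13 true true true), .t 1 (nat_lit 0) (.gp 8 9 10 12 11 false false true), .t 1 (nat_lit 0) (.gp 8 9 10 12 13 false false true), .t 1 (nat_lit 0) (.gp 8 9 10 12 13 false true false), .t 1 (nat_lit 0) (.gp 8 9 10 13 11 false false true), .t 1 (nat_lit 0) (.gp 8 9 10 13 12 false false true), .t 1 (nat_lit 0) (.gp 8 9 10 13 15 true true true), .t 1 (nat_lit 0) (.gp 8 9 10 14 13 false false true), .t 1 (nat_lit 0) (.gp 8 9 10 15 11 false false true), .t 1 (nat_lit 0) (.gp 8 9 10 16 11 false false true)] (by decide +kernel) (by decide +kernel)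

end N22

end Pool.Agent.GCP.UN3
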