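import Pool.Agent.GCP.W1x1a
import Pool.Agent.GCP.W1x1b
import Pool.Agent.GCP.W1x1c

/-!
# The decision tree for the swap 1 (MP_062f91_co)
-/

namespace Pool.Agent.GCP

namespace Win

/-- masks of the parts -/
def f1_1 : List (ℕ × ℕ) :=
  [(137444242520, 1), (137444226136, 32769), (137444209752, 49153), (137444201560, 8193), (137444200536, 1025), (137444200552, 17), (137444200520, 49), (137451540552, 1048577), (137443151960, 9437185), (137443152968, 9437201), (137445249096, 9438225), (137443152072, 11535377), (137459929160, 11535505), (137443151944, 28312721)]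

theorem c1_1 : part tE 3043 m1_1 1 r1 g1 f1_1 0xfadfac018fab007faa015fa900afa8004fa7017fa6fa5005fa4fa3fa2fa100efa000f00d00a004014 137443151944 1 = true := by decide +kernel

theorem w1_1 {X : Finset Pt} {w : Pt} {P P' : ℕ → Pt} {L : ℕ → Pt → Prop}
    (hX : GeneralPosition X) (hn : 9 ≤ X.card) (hK1 : K1 X) (hK2 : K2 X) (hw : w ≠ 0)
    (hst : Stp X w 1 P P') : Dec r1 g1 1 m1_1 (vw L P) := by
  have h0 := init_asg (L := L) hX (by omega) hw (by omega) hst
  rw [show mT 1 = 137443151944 from by decide +kernel, show mF 1 = 1 from by decide +kernel] at h0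
  refine part_sound tE_tab hX hn hK1 hK2 hw hst ?_ c1_1 h0
  intro q hq ha
  simp only [f1_1, List.mem_cons, List.not_mem_nil, or_false] at hq
  rcases hq with rfl | rfl | rfl | rfl | rfl | rfl | rfl | rfl | rfl | rfl | rfl | rfl | rfl | rfl
  · exact part_sound tE_tab hX hn hK1 hK2 hw hst (fun q hq => absurd hq List.not_mem_nil) c1_1_0 ha
  · exact part_sound tE_tab hX hn hK1 hK2 hw hst (fun q hq => absurd hq List.not_mem_nil) c1_1_1 ha
  · exact part_sound tE_tab hX hn hK1 hK2 hw hst (fun q hq => absurd hq List.not_mem_nil) c1_1_2 ha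
  · exact part_sound tE_tab hX hn hK1 hK2 hw hst (fun q hq => absurd hq List.not_mem_nil) c1_1_3 ha
  · exact part_sound tE_tab hX hn hK1 hK2 hw hst (fun q hq => absurd hq List.not_mem_nil) c1_1_4 ha
  · exact part_sound tE_tab hX hn hK1 hK2 hw hst (fun q hq => absurd hq List.not_mem_nil) c1_1_5 ha
  · exact part_sound tE_tab hX hn hK1 hK2 hw hst (fun q hq => absurd hq List.not_mem_nil) c1_1_6 ha
  · exact part_sound tE_tab hX hn hK1 hK2 hw hst (fun q hq => absurd hq List.not_mem_nil) c1_1_7 ha
  · exact part_sound tE_tab hX hn hK1 hK2 hw hst (fun q hq => absurd hq List.not_mem_nil) c1_1_8 ha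
  · exact part_sound tE_tab hX hn hK1 hK2 hw hst (fun q hq => absurd hq List.not_mem_nil) c1_1_9 ha
  · exact part_sound tE_tab hX hn hK1 hK2 hw hst (fun q hq => absurd hq List.not_mem_nil) c1_1_10 ha
  · exact part_sound tE_tab hX hn hK1 hK2 hw hst (fun q hq => absurd hq List.not_mem_nil) c1_1_11 ha
  · exact part_sound tE_tab hX hn hK1 hK2 hw hst (fun q hq => absurd hq List.not_mem_nil) c1_1_12 ha
  · exact part_sound tE_tab hX hn hK1 hK2 hw hst (fun q hq => absurd hq List.not_mem_nil) c1_1_13 ha

end Win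

end Pool.Agent.GCP
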