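import Pool.Agent.GCP.W1x2a
import Pool.Agent.GCP.W1x2b

/-!
# The decision tree for the swap 2 (MP_062f91_co)
-/

namespace Pool.Agent.GCP

namespace Win

/-- masks of the parts -/
def f1_2 : List (ℕ × ℕ) :=
  [(1099546273328, 14), (1099546273296, 46), (1099546264080, 1036), (1099548361216, 60), (1099546264064, 2097212), (1099553604096, 1048588), (1099545215504, 9437196), (1099545216512, 9437212), (1099545215488, 9438236)]

theorem c1_2 : part tE 3043 m1_2 2 r1 g1 f1_2 0xfa8fa700afa6004fa5017fa4fa30152b108e000005fa20b72b2001fa1fa00052b200100d00a004014 1099545215488 12 = true := by decide +kernel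

theorem w1_2 {X : Finset Pt} {w : Pt} {P P' : ℕ → Pt} {L : ℕ → Pt → Prop}
    (hX : GeneralPosition X) (hn : 9 ≤ X.card) (hK1 : K1 X) (hK2 : K2 X) (hw : w ≠ 0)
    (hst : Stp X w 2 P P') : Dec r1 g1 2 m1_2 (vw L P) := by
  have h0 := init_asg (L := L) hX (by omega) hw (by omega) hst
  rw [show mT 2 = 1099545215488 from by decide +kernel, show mF 2 = 12 from by decide +kernel] at h0
  refine part_sound tE_tab hX hn hK1 hK2 hw hst ?_ c1_2 h0
  intro q hq ha
  simp only [f1_2, List.mem_cons, List.not_mem_nil, or_false] at hq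
  rcases hq with rfl | rfl | rfl | rfl | rfl | rfl | rfl | rfl | rfl
  · exact part_sound tE_tab hX hn hK1 hK2 hw hst (fun q hq => absurd hq List.not_mem_nil) c1_2_0 ha
  · exact part_sound tE_tab hX hn hK1 hK2 hw hst (fun q hq => absurd hq List.not_mem_nil) c1_2_1 ha
  · exact part_sound tE_tab hX hn hK1 hK2 hw hst (fun q hq => absurd hq List.not_mem_nil) c1_2_2 ha
  · exact part_sound tE_tab hX hn hK1 hK2 hw hst (fun q hq => absurd hq List.not_mem_nil) c1_2_3 ha
  · exact part_sound tE_tab hX hn hK1 hK2 hw hst (fun q hq => absurd hq List.not_mem_nil) c1_2_4 ha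
  · exact part_sound tE_tab hX hn hK1 hK2 hw hst (fun q hq => absurd hq List.not_mem_nil) c1_2_5 ha
  · exact part_sound tE_tab hX hn hK1 hK2 hw hst (fun q hq => absurd hq List.not_mem_nil) c1_2_6 ha
  · exact part_sound tE_tab hX hn hK1 hK2 hw hst (fun q hq => absurd hq List.not_mem_nil) c1_2_7 ha
  · exact part_sound tE_tab hX hn hK1 hK2 hw hst (fun q hq => absurd hq List.not_mem_nil) c1_2_8 ha

end Win

end Pool.Agent.GCP
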