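import Pool.Agent.GCP.W1x3a
import Pool.Agent.GCP.W1x3b
import Pool.Agent.GCP.W1x3c
import Pool.Agent.GCP.W1x3d

/-!
# The decision tree for the swap 3 (MP_062f91_co)
-/

namespace Pool.Agent.GCP

namespace Win

/-- masks of the parts -/
def f1_3 : List (ℕ × ℕ) :=
  [(17592741307410, 896), (17592758084626, 16778112), (17592724530194, 50332544), (17592724513808, 33664), (17592724497424, 50048), (17592749657104, 9088), (17592732879888, 16786304), (17592724491280, 8397696), (17592724488208, 1920), (17592726593536, 944), (17592726585344, 9136), (17592724488192, 2098096), (17592731828224, 1049472), (17592723439632, 9438080), (17592723440640, 9438096), (17592773779456, 11536272), (17592773804032, 11544464), (17592773771264, 11577232), (17592740216832, 45090704), (17592723439618, 28313488), (17592723472384, 28313490), (17592723439616, 28346258)]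

theorem c1_3 : part tE 3043 m1_3 3 r1 g1 f1_3 0xfb5fb400ffb3001fb2fb1fb000ffaf00d0190182b50fe00012710f2b3002fff00108a0000d90110dc0120c90de01101001a12710f2b3002fff0010d801201a12710f2b3002fff0010a50f911912317d83810d2b300218015515022c2288982411c01f089702d0291a60260240321cc2482598960350331b00281a402702517600f0341cc2722782598960350340331b00281a402702517600f0361cc1c81f82902982a889503603403302e02a02503702f02b01e89402302001f00108a00003102201c01b10801910f2b300210200108a00001801600301201a01112710f2b3fff00100201a01000c0062b70052b50ae0001270d710f2b3fff00100201001a0062b700500b015fae00afad004fac017fabfaafa900d0152b7005fa82b6095fff0af2b000000312615501501a0d6010001095fff0af2b00000030d6010001095fff0d6010001095fff0d601000101b01a0200050af13017d01a2b61307e422902f22102e1c202b1ba02a21d0291cf22502a02501a2b40060057f72b61302541d02503af03202902601a2b40060050352807f60350360310222b60d20050120c80112b60d60050100a800c000017fa7fa6fa501801700bfa4fa300e095fa2fa1019fa001800100f00d00a004014 17592723439616 896 = true := by decide +kernel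

theorem w1_3 {X : Finset Pt} {w : Pt} {P P' : ℕ → Pt} {L : ℕ → Pt → Prop}
    (hX : GeneralPosition X) (hn : 9 ≤ X.card) (hK1 : K1 X) (hK2 : K2 X) (hw : w ≠ 0)
    (hst : Stp X w 3 P P') : Dec r1 g1 3 m1_3 (vw L P) := by
  have h0 := init_asg (L := L) hX (by omega) hw (by omega) hst
  rw [show mT 3 = 17592723439616 from by decide +kernel, show mF 3 = 896 from by decide +kernel] at h0
  refine part_sound tE_tab hX hn hK1 hK2 hw hst ?_ c1_3 h0
  intro q hq ha
  simp only [f1_3, List.mem_cons, List.not_mem_nil, or_false] at hq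
  rcases hq with rfl | rfl | rfl | rfl | rfl | rfl | rfl | rfl | rfl | rfl | rfl | rfl | rfl | rfl | rfl | rfl | rfl | rfl | rfl | rfl | rfl | rfl
  · exact part_sound tE_tab hX hn hK1 hK2 hw hst (fun q hq => absurd hq List.not_mem_nil) c1_3_0 ha
  · exact part_sound tE_tab hX hn hK1 hK2 hw hst (fun q hq => absurd hq List.not_mem_nil) c1_3_1 ha
  · exact part_sound tE_tab hX hn hK1 hK2 hw hst (fun q hq => absurd hq List.not_mem_nil) c1_3_2 ha
  · exact part_sound tE_tab hX hn hK1 hK2 hw hst (fun q hq => absurd hq List.not_mem_nil) c1_3_3 ha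
  · exact part_sound tE_tab hX hn hK1 hK2 hw hst (fun q hq => absurd hq List.not_mem_nil) c1_3_4 ha
  · exact part_sound tE_tab hX hn hK1 hK2 hw hst (fun q hq => absurd hq List.not_mem_nil) c1_3_5 ha
  · exact part_sound tE_tab hX hn hK1 hK2 hw hst (fun q hq => absurd hq List.not_mem_nil) c1_3_6 ha
  · exact part_sound tE_tab hX hn hK1 hK2 hw hst (fun q hq => absurd hq List.not_mem_nil) c1_3_7 ha
  · exact part_sound tE_tab hX hn hK1 hK2 hw hst (fun q hq => absurd hq List.not_mem_nil) c1_3_8 ha
  · exact part_sound tE_tab hX hn hK1 hK2 hw hst (fun q hq => absurd hq List.not_mem_nil) c1_3_9 ha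
  · exact part_sound tE_tab hX hn hK1 hK2 hw hst (fun q hq => absurd hq List.not_mem_nil) c1_3_10 ha
  · exact part_sound tE_tab hX hn hK1 hK2 hw hst (fun q hq => absurd hq List.not_mem_nil) c1_3_11 ha
  · exact part_sound tE_tab hX hn hK1 hK2 hw hst (fun q hq => absurd hq List.not_mem_nil) c1_3_12 ha
  · exact part_sound tE_tab hX hn hK1 hK2 hw hst (fun q hq => absurd hq List.not_mem_nil) c1_3_13 ha
  · exact part_sound tE_tab hX hn hK1 hK2 hw hst (fun q hq => absurd hq List.not_mem_nil) c1_3_14 ha
  · exact part_sound tE_tab hX hn hK1 hK2 hw hst (fun q hq => absurd hq List.not_mem_nil) c1_3_15 ha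
  · exact part_sound tE_tab hX hn hK1 hK2 hw hst (fun q hq => absurd hq List.not_mem_nil) c1_3_16 ha
  · exact part_sound tE_tab hX hn hK1 hK2 hw hst (fun q hq => absurd hq List.not_mem_nil) c1_3_17 ha
  · exact part_sound tE_tab hX hn hK1 hK2 hw hst (fun q hq => absurd hq List.not_mem_nil) c1_3_18 ha
  · exact part_sound tE_tab hX hn hK1 hK2 hw hst (fun q hq => absurd hq List.not_mem_nil) c1_3_19 ha
  · exact part_sound tE_tab hX hn hK1 hK2 hw hst (fun q hq => absurd hq List.not_mem_nil) c1_3_20 ha
  · exact part_sound tE_tab hX hn hK1 hK2 hw hst (fun q hq => absurd hq List.not_mem_nil) c1_3_21 ha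

end Win

end Pool.Agent.GCP
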