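import Pool.Agent.GCP.W1x4a
import Pool.Agent.GCP.W1x4b

/-!
# The decision tree for the swap 4 (MP_062f91_co)
-/

namespace Pool.Agent.GCP

namespace Win

/-- masks of the parts -/
def f1_4 : List (ℕ × ℕ) :=
  [(562967134381072, 983040), (562967134348304, 1015808), (562967134340112, 991232), (562967134339088, 984064), (562967134339072, 983056), (562967141679104, 2031616), (562967133290512, 10420224), (562967133290624, 12518416), (562967150067712, 12518544), (562967133290496, 29295760)]

theorem c1_4 : part tE 3043 m1_4 4 r1 g1 f1_4 0xfa9fa8018fa7007fff0dd00cffffff00c006ffffff00c0050d5fff14901effffff01e150fff01e02001fffffff01ffff01e01d10f2b308308913b19001d09200809600700600300100208e00018010f2b313b09400800100208e000fff01d01f10f2b313b09400800100208e000fff01d01e02101b178fff01e01a00500b0150cd00afa6004fa5017fa4fa3fa2fa1fa000f00d00a004014 562967133290496 983040 = true := by decide +kernel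

theorem w1_4 {X : Finset Pt} {w : Pt} {P P' : ℕ → Pt} {L : ℕ → Pt → Prop}
    (hX : GeneralPosition X) (hn : 9 ≤ X.card) (hK1 : K1 X) (hK2 : K2 X) (hw : w ≠ 0)
    (hst : Stp X w 4 P P') : Dec r1 g1 4 m1_4 (vw L P) := by
  have h0 := init_asg (L := L) hX (by omega) hw (by omega) hst
  rw [show mT 4 = 562967133290496 from by decide +kernel, show mF 4 = 983040 from by decide +kernel] at h0
  refine part_sound tE_tab hX hn hK1 hK2 hw hst ?_ c1_4 h0
  intro q hq ha
  simp only [f1_4, List.mem_cons, List.not_mem_nil, or_false] at hq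
  rcases hq with rfl | rfl | rfl | rfl | rfl | rfl | rfl | rfl | rfl | rfl
  · exact part_sound tE_tab hX hn hK1 hK2 hw hst (fun q hq => absurd hq List.not_mem_nil) c1_4_0 ha
  · exact part_sound tE_tab hX hn hK1 hK2 hw hst (fun q hq => absurd hq List.not_mem_nil) c1_4_1 ha
  · exact part_sound tE_tab hX hn hK1 hK2 hw hst (fun q hq => absurd hq List.not_mem_nil) c1_4_2 ha
  · exact part_sound tE_tab hX hn hK1 hK2 hw hst (fun q hq => absurd hq List.not_mem_nil) c1_4_3 ha
  · exact part_sound tE_tab hX hn hK1 hK2 hw hst (fun q hq => absurd hq List.not_mem_nil) c1_4_4 ha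
  · exact part_sound tE_tab hX hn hK1 hK2 hw hst (fun q hq => absurd hq List.not_mem_nil) c1_4_5 ha
  · exact part_sound tE_tab hX hn hK1 hK2 hw hst (fun q hq => absurd hq List.not_mem_nil) c1_4_6 ha
  · exact part_sound tE_tab hX hn hK1 hK2 hw hst (fun q hq => absurd hq List.not_mem_nil) c1_4_7 ha
  · exact part_sound tE_tab hX hn hK1 hK2 hw hst (fun q hq => absurd hq List.not_mem_nil) c1_4_8 ha
  · exact part_sound tE_tab hX hn hK1 hK2 hw hst (fun q hq => absurd hq List.not_mem_nil) c1_4_9 ha

end Win

end Pool.Agent.GCP
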