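import Pool.Agent.GCP.W1x5a
import Pool.Agent.GCP.W1x5b

/-!
# The decision tree for the swap 5 (MP_062f91_co)
-/

namespace Pool.Agent.GCP

namespace Win

/-- masks of the parts -/
def f1_5 : List (ℕ × ℕ) :=
  [(36028797020054544, 33285996544), (36028797020021776, 33286029312), (36028797020013584, 33286004736), (36028797020012544, 33285996560), (36028797027352576, 33287045120), (36028797021061136, 33295433728), (36028797018966064, 33297530880), (36028797018964016, 33297532928), (36028797018963984, 33297530912), (36028797018964992, 33295433744), (36028797018964096, 33297531920), (36028797035741184, 33297532048), (36028797018963970, 33314309264), (36028797018963968, 33314309266)]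

theorem c1_5 : part tE 3043 m1_5 5 r1 g1 f1_5 0xfadfac001fab018faa007155fff10f2b30020b60010ae00000dfff10f2b30020b600108a00000d006fff0bf2b30eb09400800100208e0000110e101010f2b30020b600108e00000d19501dfff0e000dfff0e000d01dfff0e000d011fff10f2b30020b600108e00000d010013185fff01110f2b30020b600108e00000dfff12001c10f2b30020b600108e00000d01001b17d119fff01b01010f2b30020b600108e00000d17d119fff01b01010f2b30020b600108e00000d01c01a00500b015fa900afa8fa7fa600b005fa5015004fa4017fa314dfa2fa1fa000f00d00a004014 36028797018963968 33285996544 = true := by decide +kernel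

theorem w1_5 {X : Finset Pt} {w : Pt} {P P' : ℕ → Pt} {L : ℕ → Pt → Prop}
    (hX : GeneralPosition X) (hn : 9 ≤ X.card) (hK1 : K1 X) (hK2 : K2 X) (hw : w ≠ 0)
    (hst : Stp X w 5 P P') : Dec r1 g1 5 m1_5 (vw L P) := by
  have h0 := init_asg (L := L) hX (by omega) hw (by omega) hst
  rw [show mT 5 = 36028797018963968 from by decide +kernel, show mF 5 = 33285996544 from by decide +kernel] at h0
  refine part_sound tE_tab hX hn hK1 hK2 hw hst ?_ c1_5 h0
  intro q hq ha
  simp only [f1_5, List.mem_cons, List.not_mem_nil, or_false] at hq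
  rcases hq with rfl | rfl | rfl | rfl | rfl | rfl | rfl | rfl | rfl | rfl | rfl | rfl | rfl | rfl
  · exact part_sound tE_tab hX hn hK1 hK2 hw hst (fun q hq => absurd hq List.not_mem_nil) c1_5_0 ha
  · exact part_sound tE_tab hX hn hK1 hK2 hw hst (fun q hq => absurd hq List.not_mem_nil) c1_5_1 ha
  · exact part_sound tE_tab hX hn hK1 hK2 hw hst (fun q hq => absurd hq List.not_mem_nil) c1_5_2 ha
  · exact part_sound tE_tab hX hn hK1 hK2 hw hst (fun q hq => absurd hq List.not_mem_nil) c1_5_3 ha
  · exact part_sound tE_tab hX hn hK1 hK2 hw hst (fun q hq => absurd hq List.not_mem_nil) c1_5_4 ha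
  · exact part_sound tE_tab hX hn hK1 hK2 hw hst (fun q hq => absurd hq List.not_mem_nil) c1_5_5 ha
  · exact part_sound tE_tab hX hn hK1 hK2 hw hst (fun q hq => absurd hq List.not_mem_nil) c1_5_6 ha
  · exact part_sound tE_tab hX hn hK1 hK2 hw hst (fun q hq => absurd hq List.not_mem_nil) c1_5_7 ha
  · exact part_sound tE_tab hX hn hK1 hK2 hw hst (fun q hq => absurd hq List.not_mem_nil) c1_5_8 ha
  · exact part_sound tE_tab hX hn hK1 hK2 hw hst (fun q hq => absurd hq List.not_mem_nil) c1_5_9 ha
  · exact part_sound tE_tab hX hn hK1 hK2 hw hst (fun q hq => absurd hq List.not_mem_nil) c1_5_10 ha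
  · exact part_sound tE_tab hX hn hK1 hK2 hw hst (fun q hq => absurd hq List.not_mem_nil) c1_5_11 ha
  · exact part_sound tE_tab hX hn hK1 hK2 hw hst (fun q hq => absurd hq List.not_mem_nil) c1_5_12 ha
  · exact part_sound tE_tab hX hn hK1 hK2 hw hst (fun q hq => absurd hq List.not_mem_nil) c1_5_13 ha

end Win

end Pool.Agent.GCP
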