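import Pool.Agent.GCP.W1_0
import Pool.Agent.GCP.W1_1
import Pool.Agent.GCP.W1_2
import Pool.Agent.GCP.W1_3
import Pool.Agent.GCP.W1_4
import Pool.Agent.GCP.W1_5
import Pool.Agent.GCP.W1_6
import Pool.Agent.GCP.Stage2

/-!
# The rank of the windows is constant (MP_062f91_co)
-/

namespace Pool.Agent.GCP

namespace Win

theorem r1_vok : r1.vok v7 = true := by decide +kernel

theorem r1_vlt56 : r1.vlt (56 + 8 * 0) = true := by decide +kernel

section
variable {X : Finset Pt} {w : Pt} {P P' : ℕ → Pt} {L : ℕ → Pt → Prop}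

/-- the rank does not increase -/
theorem step1 (hX : GeneralPosition X) (hn : 9 ≤ X.card) (hK1 : K1 X) (hK2 : K2 X) (hw : w ≠ 0)
    {j : ℕ} (hst : Stp X w j P P') : r1.ev (vw L P') ≤ r1.ev (vw L P) ∧
      (j = 0 → r1.ev (vw L P') = r1.ev (vw L P) → g1 (r1.ev (vw L P) + 1) = true) := by
  by_cases hj : 7 ≤ j
  · rw [step_high r1_vok hj hst]
    exact ⟨le_rfl, fun h => absurd h (by omega)⟩
  · have h8 : 8 ≤ X.card := by omega
    have hj' : j < 7 := by omega
    interval_cases j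
    · rw [step_ren hX h8 r1_vlt56 (by omega) hst m1_0_ok]
      exact w1_0 hX hn hK1 hK2 hw hst
    · rw [step_ren hX h8 r1_vlt56 (by omega) hst m1_1_ok]
      exact w1_1 hX hn hK1 hK2 hw hst
    · rw [step_ren hX h8 r1_vlt56 (by omega) hst m1_2_ok]
      exact w1_2 hX hn hK1 hK2 hw hst
    · rw [step_ren hX h8 r1_vlt56 (by omega) hst m1_3_ok]
      exact w1_3 hX hn hK1 hK2 hw hst
    · rw [step_ren hX h8 r1_vlt56 (by omega) hst m1_4_ok]
      exact w1_4 hX hn hK1 hK2 hw hst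
    · rw [step_ren hX h8 r1_vlt56 (by omega) hst m1_5_ok]
      exact w1_5 hX hn hK1 hK2 hw hst
    · rw [step_ren hX h8 r1_vlt56 (by omega) hst m1_6_ok]
      exact w1_6 hX hn hK1 hK2 hw hst

/-- The rank is seven everywhere or eight everywhere. -/
theorem stage1 (hX : GeneralPosition X) (hn : 9 ≤ X.card) (hK1 : K1 X) (hK2 : K2 X)
    (L : ℕ → Pt → Prop) : ∃ c, (c = 7 ∨ c = 8) ∧
      ∀ w P, w ≠ 0 → Srt X w P → r1.ev (vw L P) = c := by
  obtain ⟨c, hc, h⟩ := Sweep.rank_good hX (by omega) (f := fun P => r1.ev (vw L P))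
    (fun w j P P' hw hst => (step1 hX hn hK1 hK2 hw hst).1)
    (Good := fun c => g1 (c + 1) = true)
    (fun w P P' hw hst h => (step1 hX hn hK1 hK2 hw hst).2 rfl h)
  refine ⟨c, ?_, h⟩
  simp only [g1, Bool.or_eq_true, Nat.beq_eq] at hc
  omega

end

end Win

end Pool.Agent.GCP
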