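import Pool.Agent.GCP.NineW
import Pool.Agent.GCP.Main

/-!
# Nineteen points: the exceptional case, final form (MP_062f91_co)
-/

set_option autoImplicit false

namespace Pool.Agent.GCP

/-- Nineteen points which consist of a set of eleven points without a partition into three parts
and a set of eight points with a partition into two parts, separated by a line, have a partition
into five parts. -/
theorem w19_thm :
    ∀ E A : Finset Pt, E.card = 11 → A.card = 8 → GeneralPosition (E ∪ A) →
      Disjoint (convexHull ℝ (E : Set Pt)) (convexHull ℝ (A : Set Pt)) →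
      ¬ HCPle (E : Set Pt) 3 → HCPle (A : Set Pt) 2 → HCPle ((E ∪ A : Finset Pt) : Set Pt) 5 :=
  fun _ _ hE hA hg hd h3 h2 =>
    w_nineteen (fun _ h1 h4 => hcp_le15 h1 h4) hE hA hg hd h3 h2

end Pool.Agent.GCP
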