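import Pool.Agent.GCP.W1x0a
import Pool.Agent.GCP.W1x0b

/-!
# The decision tree for the swap 0 (MP_062f91_co)
-/

namespace Pool.Agent.GCP

namespace Win

/-- masks of the parts -/
def f1_0 : List (ℕ × ℕ) :=
  [(34377606163, 0), (34394383571, 16777216), (34394383507, 16777280), (34360829075, 50331648), (34360828947, 16777344), (34360796307, 49152), (34360796179, 49280), (34360790035, 8192), (34360787987, 10240)]

theorem c1_0 : part tE 3043 m1_0 0 r1 g1 f1_0 0xfa8fa700bfa6fa50070c32b000300efa4fa3fa2fa1006019007fa001800f00d 34360787987 0 = true := by decide +kernel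

theorem w1_0 {X : Finset Pt} {w : Pt} {P P' : ℕ → Pt} {L : ℕ → Pt → Prop}
    (hX : GeneralPosition X) (hn : 9 ≤ X.card) (hK1 : K1 X) (hK2 : K2 X) (hw : w ≠ 0)
    (hst : Stp X w 0 P P') : Dec r1 g1 0 m1_0 (vw L P) := by
  have h0 := init_asg (L := L) hX (by omega) hw (by omega) hst
  rw [show mT 0 = 34360787987 from by decide +kernel, show mF 0 = 0 from by decide +kernel] at h0
  refine part_sound tE_tab hX hn hK1 hK2 hw hst ?_ c1_0 h0
  intro q hq ha
  simp only [f1_0, List.mem_cons, List.not_mem_nil, or_false] at hq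
  rcases hq with rfl | rfl | rfl | rfl | rfl | rfl | rfl | rfl | rfl
  · exact part_sound tE_tab hX hn hK1 hK2 hw hst (fun q hq => absurd hq List.not_mem_nil) c1_0_0 ha
  · exact part_sound tE_tab hX hn hK1 hK2 hw hst (fun q hq => absurd hq List.not_mem_nil) c1_0_1 ha
  · exact part_sound tE_tab hX hn hK1 hK2 hw hst (fun q hq => absurd hq List.not_mem_nil) c1_0_2 ha
  · exact part_sound tE_tab hX hn hK1 hK2 hw hst (fun q hq => absurd hq List.not_mem_nil) c1_0_3 ha
  · exact part_sound tE_tab hX hn hK1 hK2 hw hst (fun q hq => absurd hq List.not_mem_nil) c1_0_4 ha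
  · exact part_sound tE_tab hX hn hK1 hK2 hw hst (fun q hq => absurd hq List.not_mem_nil) c1_0_5 ha
  · exact part_sound tE_tab hX hn hK1 hK2 hw hst (fun q hq => absurd hq List.not_mem_nil) c1_0_6 ha
  · exact part_sound tE_tab hX hn hK1 hK2 hw hst (fun q hq => absurd hq List.not_mem_nil) c1_0_7 ha
  · exact part_sound tE_tab hX hn hK1 hK2 hw hst (fun q hq => absurd hq List.not_mem_nil) c1_0_8 ha

end Win

end Pool.Agent.GCP
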