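import Pool.Agent.GCP.W7x1a

/-!
# The decision tree, rank 7, swap 1 (MP_062f91_co)
-/

namespace Pool.Agent.GCP

namespace Win

/-- masks of the parts -/
def f7_1 : List (ℕ × ℕ) :=
  [(360288107633840200, 1), (72057731482128456, 288230376151711745), (216172919556935752, 288230376152760321), (648518483784503368, 432345564228616193), (72057731481079880, 1008806316532039681)]

theorem c7_1 : part2 w7E 363 m2_1 1 7 r1 q7 g7 f7_1 0xfa4fa303bfa2039382ffafff2c2ffa2b3088342ffa3c2ffaffeffe022ffd013ffeffeffe02001effe00701fffe01d0a0009ffeffe0090080d00120ca0110ce0100b800f0b200e0b600dffeffe013ffe010ffe011ffd007ffeffe0070220a0009ffeffe0090080b800f0b000effeffe012ffd00effe00f098009090008ffeffeffe00800f007b83ffa03b16202100d15002014a01f14e01e00a02412001c11a01b11e01a10801910201810601700b0050010020042c2ffa2b3002681ffa00103901503afa1fa003a014 72057731481079880 1 = true := by decide +kernel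

theorem w7_1 {X : Finset Pt} {w : Pt} {P P' : ℕ → Pt}
    (hX : GeneralPosition X) (hn : 9 ≤ X.card) (hK1 : K1 X) (hK2 : K2 X) (hw : w ≠ 0)
    (hst : Stp X w 1 P P') (hc : r1.ev (vw (Lh X) P) = 7)
    (hc' : r1.ev (RT.ren m2_1 (vw (Lh X) P)) = 7) : Dec q7 g7 1 m2_1 (vw (Lh X) P) := by
  have h0 := init2_asg hX (by omega) hw (by omega) hst
  rw [show Nat.lor (mT 1) (Nat.pow 2 56) = 72057731481079880 from by decide +kernel, show mF 1 = 1 from by decide +kernel] at h0
  refine part2_sound w7E_tab hX hn hK1 hK2 hw hst hc hc' ?_ c7_1 h0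
  intro q hq ha
  simp only [f7_1, List.mem_cons, List.not_mem_nil, or_false] at hq
  rcases hq with rfl | rfl | rfl | rfl | rfl
  · exact part2_sound w7E_tab hX hn hK1 hK2 hw hst hc hc' (fun q hq => absurd hq List.not_mem_nil) c7_1_0 ha
  · exact part2_sound w7E_tab hX hn hK1 hK2 hw hst hc hc' (fun q hq => absurd hq List.not_mem_nil) c7_1_1 ha
  · exact part2_sound w7E_tab hX hn hK1 hK2 hw hst hc hc' (fun q hq => absurd hq List.not_mem_nil) c7_1_2 ha
  · exact part2_sound w7E_tab hX hn hK1 hK2 hw hst hc hc' (fun q hq => absurd hq List.not_mem_nil) c7_1_3 ha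
  · exact part2_sound w7E_tab hX hn hK1 hK2 hw hst hc hc' (fun q hq => absurd hq List.not_mem_nil) c7_1_4 ha

end Win

end Pool.Agent.GCP
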