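import Pool.Agent.GCP.W7x3a

/-!
# The decision tree, rank 7, swap 3 (MP_062f91_co)
-/

namespace Pool.Agent.GCP

namespace Win

/-- masks of the parts -/
def f7_3 : List (ℕ × ℕ) :=
  [(360305562914127872, 896), (72075186762416128, 288230376151712640), (360305562913079296, 1049472), (216190374837223424, 288230376152761216), (72075186761367552, 432345564228617088)]

theorem c7_3 : part2 w7E 363 m2_3 3 7 r1 q7 g7 f7_3 0xfa4fa3039fa203afa1fa003a014 72075186761367552 896 = true := by decide +kernel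

theorem w7_3 {X : Finset Pt} {w : Pt} {P P' : ℕ → Pt}
    (hX : GeneralPosition X) (hn : 9 ≤ X.card) (hK1 : K1 X) (hK2 : K2 X) (hw : w ≠ 0)
    (hst : Stp X w 3 P P') (hc : r1.ev (vw (Lh X) P) = 7)
    (hc' : r1.ev (RT.ren m2_3 (vw (Lh X) P)) = 7) : Dec q7 g7 3 m2_3 (vw (Lh X) P) := by
  have h0 := init2_asg hX (by omega) hw (by omega) hst
  rw [show Nat.lor (mT 3) (Nat.pow 2 56) = 72075186761367552 from by decide +kernel, show mF 3 = 896 from by decide +kernel] at h0
  refine part2_sound w7E_tab hX hn hK1 hK2 hw hst hc hc' ?_ c7_3 h0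
  intro q hq ha
  simp only [f7_3, List.mem_cons, List.not_mem_nil, or_false] at hq
  rcases hq with rfl | rfl | rfl | rfl | rfl
  · exact part2_sound w7E_tab hX hn hK1 hK2 hw hst hc hc' (fun q hq => absurd hq List.not_mem_nil) c7_3_0 ha
  · exact part2_sound w7E_tab hX hn hK1 hK2 hw hst hc hc' (fun q hq => absurd hq List.not_mem_nil) c7_3_1 ha
  · exact part2_sound w7E_tab hX hn hK1 hK2 hw hst hc hc' (fun q hq => absurd hq List.not_mem_nil) c7_3_2 ha
  · exact part2_sound w7E_tab hX hn hK1 hK2 hw hst hc hc' (fun q hq => absurd hq List.not_mem_nil) c7_3_3 ha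
  · exact part2_sound w7E_tab hX hn hK1 hK2 hw hst hc hc' (fun q hq => absurd hq List.not_mem_nil) c7_3_4 ha

end Win

end Pool.Agent.GCP
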