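import Pool.Agent.GCP.W7x4a
import Pool.Agent.GCP.W7x4b

/-!
# The decision tree, rank 7, swap 4 (MP_062f91_co)
-/

namespace Pool.Agent.GCP

namespace Win

/-- masks of the parts -/
def f7_4 : List (ℕ × ℕ) :=
  [(360850937323978752, 983040), (216735749248122880, 288230376152694784), (72620561172267008, 432345564228550656), (360850937322930176, 2031616), (216735749247074304, 288230376153743360), (649081313474641920, 432345564229599232), (72620561171218432, 1008806316533022720)]

theorem c7_4 : part2 w7E 363 m2_4 4 7 r1 q7 g7 f7_4 0xfa6fa503bfa4039fa303afa2fa1039fa003a014 72620561171218432 983040 = true := by decide +kernel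

theorem w7_4 {X : Finset Pt} {w : Pt} {P P' : ℕ → Pt}
    (hX : GeneralPosition X) (hn : 9 ≤ X.card) (hK1 : K1 X) (hK2 : K2 X) (hw : w ≠ 0)
    (hst : Stp X w 4 P P') (hc : r1.ev (vw (Lh X) P) = 7)
    (hc' : r1.ev (RT.ren m2_4 (vw (Lh X) P)) = 7) : Dec q7 g7 4 m2_4 (vw (Lh X) P) := by
  have h0 := init2_asg hX (by omega) hw (by omega) hst
  rw [show Nat.lor (mT 4) (Nat.pow 2 56) = 72620561171218432 from by decide +kernel, show mF 4 = 983040 from by decide +kernel] at h0
  refine part2_sound w7E_tab hX hn hK1 hK2 hw hst hc hc' ?_ c7_4 h0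
  intro q hq ha
  simp only [f7_4, List.mem_cons, List.not_mem_nil, or_false] at hq
  rcases hq with rfl | rfl | rfl | rfl | rfl | rfl | rfl
  · exact part2_sound w7E_tab hX hn hK1 hK2 hw hst hc hc' (fun q hq => absurd hq List.not_mem_nil) c7_4_0 ha
  · exact part2_sound w7E_tab hX hn hK1 hK2 hw hst hc hc' (fun q hq => absurd hq List.not_mem_nil) c7_4_1 ha
  · exact part2_sound w7E_tab hX hn hK1 hK2 hw hst hc hc' (fun q hq => absurd hq List.not_mem_nil) c7_4_2 ha
  · exact part2_sound w7E_tab hX hn hK1 hK2 hw hst hc hc' (fun q hq => absurd hq List.not_mem_nil) c7_4_3 ha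
  · exact part2_sound w7E_tab hX hn hK1 hK2 hw hst hc hc' (fun q hq => absurd hq List.not_mem_nil) c7_4_4 ha
  · exact part2_sound w7E_tab hX hn hK1 hK2 hw hst hc hc' (fun q hq => absurd hq List.not_mem_nil) c7_4_5 ha
  · exact part2_sound w7E_tab hX hn hK1 hK2 hw hst hc hc' (fun q hq => absurd hq List.not_mem_nil) c7_4_6 ha

end Win

end Pool.Agent.GCP
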