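import Pool.Agent.GCP.W7x5a
import Pool.Agent.GCP.W7x5b

/-!
# The decision tree, rank 7, swap 5 (MP_062f91_co)
-/

namespace Pool.Agent.GCP

namespace Win

/-- masks of the parts -/
def f7_5 : List (ℕ × ℕ) :=
  [(396316767209652224, 33285996544), (252201579142184992, 288230409437708288), (252201579133796384, 288230409446096896), (108086391057940480, 432345597513564160), (396316767242158081, 33287045120), (396316767208603649, 33320599552), (252201579149524992, 288230409438756896), (252201579132747776, 288230409455534112), (684547143362412544, 432345597514612736), (684547143360315392, 432345597516709888), (108086391058989056, 1008806349818036224), (108086391065280512, 1008806349820133376), (4719772409484279808, 1008806349828521984), (108086391056891904, 5620492368255909888)]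

theorem c7_5 : part2 w7E 363 m2_5 5 7 r1 q7 g7 f7_5 0xfadfac03efab017faa015fa9fa801503bfa7fa6018fffb81ffa00afffb81ffa00afffb81ffa00a581ffa0fc01600003dffffff03db81ffa00a03e03b005039fff2b12c2ffa2b30af0abb82ffa0f9702ffa0890cf0cb0e3ffeffdffeffe01c01affd00d01b0c000fffeffe00f00e01301101000600509a00909200809600708f08bffeffe013ffe010ffe011098009ffd007ffeffe0090080b800f0b000e0e7ffeffeffe00e012010ffe00f098009090008ffdffdffd00e009007b83ffa03b00d12001c11a01b11e01a006005004681ffa03910801910201810601701601500c00b00100200300afa5fa401900003afa314dfff00afa2fa1017005039fa003a014 108086391056891904 33285996544 = true := by decide +kernel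

theorem w7_5 {X : Finset Pt} {w : Pt} {P P' : ℕ → Pt}
    (hX : GeneralPosition X) (hn : 9 ≤ X.card) (hK1 : K1 X) (hK2 : K2 X) (hw : w ≠ 0)
    (hst : Stp X w 5 P P') (hc : r1.ev (vw (Lh X) P) = 7)
    (hc' : r1.ev (RT.ren m2_5 (vw (Lh X) P)) = 7) : Dec q7 g7 5 m2_5 (vw (Lh X) P) := by
  have h0 := init2_asg hX (by omega) hw (by omega) hst
  rw [show Nat.lor (mT 5) (Nat.pow 2 56) = 108086391056891904 from by decide +kernel, show mF 5 = 33285996544 from by decide +kernel] at h0
  refine part2_sound w7E_tab hX hn hK1 hK2 hw hst hc hc' ?_ c7_5 h0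
  intro q hq ha
  simp only [f7_5, List.mem_cons, List.not_mem_nil, or_false] at hq
  rcases hq with rfl | rfl | rfl | rfl | rfl | rfl | rfl | rfl | rfl | rfl | rfl | rfl | rfl | rfl
  · exact part2_sound w7E_tab hX hn hK1 hK2 hw hst hc hc' (fun q hq => absurd hq List.not_mem_nil) c7_5_0 ha
  · exact part2_sound w7E_tab hX hn hK1 hK2 hw hst hc hc' (fun q hq => absurd hq List.not_mem_nil) c7_5_1 ha
  · exact part2_sound w7E_tab hX hn hK1 hK2 hw hst hc hc' (fun q hq => absurd hq List.not_mem_nil) c7_5_2 ha
  · exact part2_sound w7E_tab hX hn hK1 hK2 hw hst hc hc' (fun q hq => absurd hq List.not_mem_nil) c7_5_3 ha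
  · exact part2_sound w7E_tab hX hn hK1 hK2 hw hst hc hc' (fun q hq => absurd hq List.not_mem_nil) c7_5_4 ha
  · exact part2_sound w7E_tab hX hn hK1 hK2 hw hst hc hc' (fun q hq => absurd hq List.not_mem_nil) c7_5_5 ha
  · exact part2_sound w7E_tab hX hn hK1 hK2 hw hst hc hc' (fun q hq => absurd hq List.not_mem_nil) c7_5_6 ha
  · exact part2_sound w7E_tab hX hn hK1 hK2 hw hst hc hc' (fun q hq => absurd hq List.not_mem_nil) c7_5_7 ha
  · exact part2_sound w7E_tab hX hn hK1 hK2 hw hst hc hc' (fun q hq => absurd hq List.not_mem_nil) c7_5_8 ha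
  · exact part2_sound w7E_tab hX hn hK1 hK2 hw hst hc hc' (fun q hq => absurd hq List.not_mem_nil) c7_5_9 ha
  · exact part2_sound w7E_tab hX hn hK1 hK2 hw hst hc hc' (fun q hq => absurd hq List.not_mem_nil) c7_5_10 ha
  · exact part2_sound w7E_tab hX hn hK1 hK2 hw hst hc hc' (fun q hq => absurd hq List.not_mem_nil) c7_5_11 ha
  · exact part2_sound w7E_tab hX hn hK1 hK2 hw hst hc hc' (fun q hq => absurd hq List.not_mem_nil) c7_5_12 ha
  · exact part2_sound w7E_tab hX hn hK1 hK2 hw hst hc hc' (fun q hq => absurd hq List.not_mem_nil) c7_5_13 ha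

end Win

end Pool.Agent.GCP
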