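import Pool.Agent.GCP.W7x7a

/-!
# The decision tree, rank 7, swap 7 (MP_062f91_co)
-/

namespace Pool.Agent.GCP

namespace Win

/-- masks of the parts -/
def f7_7 : List (ℕ × ℕ) :=
  [(360287970190688256, 0), (72057594038976512, 288230376151711744), (360287970189639680, 1048576), (216172782113783808, 288230376152760320), (648518346341351424, 432345564228616192), (72057594037927936, 1008806316532039680)]

theorem c7_7 : part3 w7E 363 7 3 r1 q7 ok7 f7_7 0xfa5fa403bfa3039fa203afa1fa003a014 72057594037927936 0 = true := by decide +kernel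

theorem w7_7 {X : Finset Pt} {w : Pt} {P : ℕ → Pt}
    (hX : GeneralPosition X) (hn : 9 ≤ X.card) (hK1 : K1 X) (hK2 : K2 X) (hw : w ≠ 0)
    (hs : Srt X w P) (hc : r1.ev (vw (Lh X) P) = 7) (hG : q7.ev (vw (Lh X) P) = 3) {C : Prop}
    (hok : ∀ T F, ok7 T F = true → Asg (vw (Lh X) P) T F → C) : C := by
  have h0 := init3_asg hX (by omega) hw hs
  rw [show Nat.pow 2 56 = 72057594037927936 from by decide +kernel] at h0
  refine part3_sound w7E_tab hX hn hK1 hK2 hw hs hc hG hok ?_ c7_7 h0
  intro q hq ha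
  simp only [f7_7, List.mem_cons, List.not_mem_nil, or_false] at hq
  rcases hq with rfl | rfl | rfl | rfl | rfl | rfl
  · exact part3_sound w7E_tab hX hn hK1 hK2 hw hs hc hG hok (fun q hq => absurd hq List.not_mem_nil) c7_7_0 ha
  · exact part3_sound w7E_tab hX hn hK1 hK2 hw hs hc hG hok (fun q hq => absurd hq List.not_mem_nil) c7_7_1 ha
  · exact part3_sound w7E_tab hX hn hK1 hK2 hw hs hc hG hok (fun q hq => absurd hq List.not_mem_nil) c7_7_2 ha
  · exact part3_sound w7E_tab hX hn hK1 hK2 hw hs hc hG hok (fun q hq => absurd hq List.not_mem_nil) c7_7_3 ha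
  · exact part3_sound w7E_tab hX hn hK1 hK2 hw hs hc hG hok (fun q hq => absurd hq List.not_mem_nil) c7_7_4 ha
  · exact part3_sound w7E_tab hX hn hK1 hK2 hw hs hc hG hok (fun q hq => absurd hq List.not_mem_nil) c7_7_5 ha

end Win

end Pool.Agent.GCP
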