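import Pool.Agent.GCP.W7Rank

/-!
# Labels which are determined (MP_062f91_co)
-/

namespace Pool.Agent.GCP

namespace Win

/-- the labels which are true -/
def lb (T : ℕ) : ℕ := Nat.land (Nat.shiftRight T 56) 127

/-- number of labels -/
def cnt (k a : ℕ) : ℕ := ((List.range k).filter fun i => tb a i).length

/-- the labels of the seven highest points are determined -/
def labd (T F : ℕ) : Bool := Nat.beq (Nat.lor (lb T) (lb F)) 127

/-- two hull vertices among the four highest points, three among the seven highest points -/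
def ok7 (T F : ℕ) : Bool :=
  labd T F && (Nat.beq (cnt 4 (lb T)) 2 && Nat.beq (cnt 7 (lb T)) 3)

lemma lb_bit {T i : ℕ} (hi : i < 7) : (lb T).testBit i = T.testBit (56 + i) := by
  change ((T >>> 56) &&& 127).testBit i = _
  rw [Nat.testBit_and, Nat.testBit_shiftRight]
  have : (127 : ℕ).testBit i = true := by
    have e : (127 : ℕ) = 2 ^ 7 - 1 := by norm_num
    rw [e, Nat.testBit_two_pow_sub_one]
    simpa using hi
  rw [this, Bool.and_true]

section
variable {X : Finset Pt} {P : ℕ → Pt}

lemma lab_iff {T F : ℕ} (h : labd T F = true) (ha : Asg (vw (Lh X) P) T F) {i : ℕ} (hi : i < 7) :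
    Hull.HV X (P i) ↔ (lb T).testBit i = true := by
  unfold labd at h
  rw [Nat.beq_eq] at h
  have hv : vw (Lh X) P (56 + 8 * 0 + i) ↔ Hull.HV X (P i) :=
    vw_lab (Lh X) P (m := 0) (i := i) (by omega)
  have h1 : (Nat.lor (lb T) (lb F)).testBit i = true := by
    rw [h]
    have e : (127 : ℕ) = 2 ^ 7 - 1 := by norm_num
    rw [e, Nat.testBit_two_pow_sub_one]
    simpa using hi
  have h2 : ((lb T) ||| (lb F)).testBit i = true := h1
  rw [Nat.testBit_or, Bool.or_eq_true] at h2
  constructor
  · intro h3
    rcases h2 with h2 | h2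
    · exact h2
    · rw [lb_bit hi] at h2
      exact absurd (hv.2 h3) ((ha _).2 h2)
  · intro h3
    rw [lb_bit hi] at h3
    exact hv.1 ((ha _).1 h3)

open Classical in
lemma cnt_eq {T F : ℕ} (h : labd T F = true) (ha : Asg (vw (Lh X) P) T F) {k : ℕ} (hk : k ≤ 7) :
    ((Finset.range k).filter (fun i => Hull.HV X (P i))).card = cnt k (lb T) := by
  have e1 : (Finset.range k).filter (fun i => Hull.HV X (P i)) =
      (Finset.range k).filter (fun i => tb (lb T) i = true) := by
    apply Finset.filter_congr
    intro i hi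
    rw [lab_iff h ha (show i < 7 by have := Finset.mem_range.1 hi; omega), tb_iff]
  rw [e1]
  unfold cnt
  have e3 : (@Finset.filter ℕ (fun i => tb (lb T) i = true) (fun i => instDecidableEqBool _ _)
      (Finset.range k)).card = ((List.range k).filter fun i => tb (lb T) i).length := by
    have e4 : (@Finset.filter ℕ (fun i => tb (lb T) i = true) (fun i => instDecidableEqBool _ _)
      (Finset.range k)).card =
        ((List.range k).filter fun i => decide (tb (lb T) i = true)).length := rfl
    rw [e4]
    simp only [Bool.decide_eq_true]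
  rw [← e3]

open Classical in
lemma ok7_sound {T F : ℕ} (h : ok7 T F = true) (ha : Asg (vw (Lh X) P) T F) :
    ((Finset.range 4).filter (fun i => Hull.HV X (P i))).card = 2 ∧
    ((Finset.range 7).filter (fun i => Hull.HV X (P i))).card = 3 := by
  simp only [ok7, Bool.and_eq_true, Nat.beq_eq] at h
  obtain ⟨h1, h2, h3⟩ := h
  rw [cnt_eq h1 ha (by omega), cnt_eq h1 ha (by omega)]
  exact ⟨h2, h3⟩

end

end Win

end Pool.Agent.GCP
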