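import Pool.Agent.GCP.W8Rank
import Pool.Agent.GCP.W7Ok
import Pool.Agent.GCP.Exotic2

/-!
# Windows which are determined (MP_062f91_co)
-/

namespace Pool.Agent.GCP

namespace Win

/-- the mask of 35 bits -/
def m35 : ℕ := 34359738367

/-- the window is one of the 116 exotic windows -/
def ok8 (T F : ℕ) : Bool :=
  labd T F && (Nat.beq (Nat.land (Nat.lor T F) m35) m35 &&
    E116.any (fun e => Nat.beq e.1 (Nat.land T m35) && Nat.beq e.2.1 (lb T)))

/-- the two enumerations of the triples agree -/
def ixTab : Bool := (List.range 7).all fun c => (List.range c).all fun b => (List.range b).all fun a =>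
  Nat.beq (Exo.ix a b c) (ix a b c) && Nat.blt (ix a b c) 35

lemma ixTab_true : ixTab = true := by decide +kernel

lemma ix_eq {a b c : ℕ} (hab : a < b) (hbc : b < c) (hc : c < 7) :
    Exo.ix a b c = ix a b c ∧ ix a b c < 35 := by
  have h := ixTab_true
  simp only [ixTab, List.all_eq_true, List.mem_range, Bool.and_eq_true, Nat.beq_eq, Nat.blt_eq] at h
  exact h c hc b hbc a hab

lemma m35_bit {v : ℕ} (hv : v < 35) : m35.testBit v = true := by
  have e : m35 = 2 ^ 35 - 1 := by norm_num [m35]
  rw [e, Nat.testBit_two_pow_sub_one]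
  simpa using hv

section
variable {X : Finset Pt} {P : ℕ → Pt}

lemma ok8_sound {T F : ℕ} (h : ok8 T F = true) (ha : Asg (vw (Lh X) P) T F) :
    ∃ e ∈ E116, (∀ a b c, a < b → b < c → c < 7 →
        (0 < orient (P a) (P b) (P c) ↔ e.1.testBit (Exo.ix a b c) = true)) ∧
      (∀ i < 7, (Hull.HV X (P i) ↔ e.2.1.testBit i = true)) := by
  simp only [ok8, Bool.and_eq_true, Nat.beq_eq, List.any_eq_true] at h
  obtain ⟨h1, h2, e, he, h3, h4⟩ := h
  refine ⟨e, he, ?_, ?_⟩
  · intro a b c hab hbc hc
    obtain ⟨i1, i2⟩ := ix_eq hab hbc hc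
    rw [i1, h3]
    have hb : (Nat.land T m35).testBit (ix a b c) = T.testBit (ix a b c) := by
      change (T &&& m35).testBit _ = _
      rw [Nat.testBit_and, m35_bit i2, Bool.and_true]
    rw [hb, ← vw_ix (Lh X) P hab hbc (by omega)]
    constructor
    · intro h5
      have h6 : (Nat.land (Nat.lor T F) m35).testBit (ix a b c) = true := by
        rw [h2]; exact m35_bit i2
      have h7 : ((T ||| F) &&& m35).testBit (ix a b c) = true := h6
      rw [Nat.testBit_and, Nat.testBit_or, Bool.and_eq_true, Bool.or_eq_true] at h7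
      rcases h7.1 with h8 | h8
      · exact h8
      · exact absurd h5 ((ha _).2 h8)
    · intro h5
      exact (ha _).1 h5
  · intro i hi
    rw [h4]
    exact lab_iff h1 ha hi

end

end Win

end Pool.Agent.GCP
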