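import Pool.Agent.GCP.W8x2a

/-!
# The decision tree, rank 8, swap 2 (MP_062f91_co)
-/

namespace Pool.Agent.GCP

namespace Win

/-- masks of the parts -/
def f8_2 : List (ℕ × ℕ) :=
  [(360289069735903744, 12), (72058693584192000, 288230376151711756), (2377901702796837376, 1048588), (4683744712010531328, 2305843009214742540), (72058693583143424, 6917529027642130444)]

theorem c8_2 : part2 w8E 1041 m2_2 2 8 r1 q8 g8 f8_2 0xfa4fa303efa203dfa1fa003a014 72058693583143424 12 = true := by decide +kernel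

theorem w8_2 {X : Finset Pt} {w : Pt} {P P' : ℕ → Pt}
    (hX : GeneralPosition X) (hn : 9 ≤ X.card) (hK1 : K1 X) (hK2 : K2 X) (hw : w ≠ 0)
    (hst : Stp X w 2 P P') (hc : r1.ev (vw (Lh X) P) = 8)
    (hc' : r1.ev (RT.ren m2_2 (vw (Lh X) P)) = 8) : Dec q8 g8 2 m2_2 (vw (Lh X) P) := by
  have h0 := init2_asg hX (by omega) hw (by omega) hst
  rw [show Nat.lor (mT 2) (Nat.pow 2 56) = 72058693583143424 from by decide +kernel, show mF 2 = 12 from by decide +kernel] at h0
  refine part2_sound w8E_tab hX hn hK1 hK2 hw hst hc hc' ?_ c8_2 h0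
  intro q hq ha
  simp only [f8_2, List.mem_cons, List.not_mem_nil, or_false] at hq
  rcases hq with rfl | rfl | rfl | rfl | rfl
  · exact part2_sound w8E_tab hX hn hK1 hK2 hw hst hc hc' (fun q hq => absurd hq List.not_mem_nil) c8_2_0 ha
  · exact part2_sound w8E_tab hX hn hK1 hK2 hw hst hc hc' (fun q hq => absurd hq List.not_mem_nil) c8_2_1 ha
  · exact part2_sound w8E_tab hX hn hK1 hK2 hw hst hc hc' (fun q hq => absurd hq List.not_mem_nil) c8_2_2 ha
  · exact part2_sound w8E_tab hX hn hK1 hK2 hw hst hc hc' (fun q hq => absurd hq List.not_mem_nil) c8_2_3 ha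
  · exact part2_sound w8E_tab hX hn hK1 hK2 hw hst hc hc' (fun q hq => absurd hq List.not_mem_nil) c8_2_4 ha

end Win

end Pool.Agent.GCP
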