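import Pool.Agent.GCP.W8x4a
import Pool.Agent.GCP.W8x4b
import Pool.Agent.GCP.W8x4c

/-!
# The decision tree, rank 8, swap 4 (MP_062f91_co)
-/

namespace Pool.Agent.GCP

namespace Win

/-- masks of the parts -/
def f8_4 : List (ℕ × ℕ) :=
  [(360850937323978752, 983040), (216735749248122880, 288230376152694784), (649081313475690496, 432345564228550656), (72620561172268032, 1008806316531974144), (72620561172267008, 1008806316531975168), (2378463570384912384, 2031616), (4828421768748204032, 2305843009215725568), (4684306580672348160, 2449958197291581440), (4684306580135477248, 2305843010289467392), (5260767331902029824, 2305843010826338304), (4684306579598614528, 2882303763129761792), (4684306579598606336, 2882303763129769984), (649081313474641920, 6917529027643113472), (360850937322930176, 7493989779946536960), (216735749247074304, 7782220156098248704), (1225542065778065424, 7926335344174104576), (1225542065778065408, 7926335344174104592), (72620561171218432, 9079256848780951552)]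

theorem c8_4 : part2 w8E 1041 m2_4 4 8 r1 q8 g8 f8_4 0xfb1fb0faf00403cfae039fad03afac03bfabfaa00dfa903bfa801dfa7fa603901e03efa503dfa4fa300afa203bfa1039fa003a014 72620561171218432 983040 = true := by decide +kernel

theorem w8_4 {X : Finset Pt} {w : Pt} {P P' : ℕ → Pt}
    (hX : GeneralPosition X) (hn : 9 ≤ X.card) (hK1 : K1 X) (hK2 : K2 X) (hw : w ≠ 0)
    (hst : Stp X w 4 P P') (hc : r1.ev (vw (Lh X) P) = 8)
    (hc' : r1.ev (RT.ren m2_4 (vw (Lh X) P)) = 8) : Dec q8 g8 4 m2_4 (vw (Lh X) P) := by
  have h0 := init2_asg hX (by omega) hw (by omega) hst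
  rw [show Nat.lor (mT 4) (Nat.pow 2 56) = 72620561171218432 from by decide +kernel, show mF 4 = 983040 from by decide +kernel] at h0
  refine part2_sound w8E_tab hX hn hK1 hK2 hw hst hc hc' ?_ c8_4 h0
  intro q hq ha
  simp only [f8_4, List.mem_cons, List.not_mem_nil, or_false] at hq
  rcases hq with rfl | rfl | rfl | rfl | rfl | rfl | rfl | rfl | rfl | rfl | rfl | rfl | rfl | rfl | rfl | rfl | rfl | rfl
  · exact part2_sound w8E_tab hX hn hK1 hK2 hw hst hc hc' (fun q hq => absurd hq List.not_mem_nil) c8_4_0 ha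
  · exact part2_sound w8E_tab hX hn hK1 hK2 hw hst hc hc' (fun q hq => absurd hq List.not_mem_nil) c8_4_1 ha
  · exact part2_sound w8E_tab hX hn hK1 hK2 hw hst hc hc' (fun q hq => absurd hq List.not_mem_nil) c8_4_2 ha
  · exact part2_sound w8E_tab hX hn hK1 hK2 hw hst hc hc' (fun q hq => absurd hq List.not_mem_nil) c8_4_3 ha
  · exact part2_sound w8E_tab hX hn hK1 hK2 hw hst hc hc' (fun q hq => absurd hq List.not_mem_nil) c8_4_4 ha
  · exact part2_sound w8E_tab hX hn hK1 hK2 hw hst hc hc' (fun q hq => absurd hq List.not_mem_nil) c8_4_5 ha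
  · exact part2_sound w8E_tab hX hn hK1 hK2 hw hst hc hc' (fun q hq => absurd hq List.not_mem_nil) c8_4_6 ha
  · exact part2_sound w8E_tab hX hn hK1 hK2 hw hst hc hc' (fun q hq => absurd hq List.not_mem_nil) c8_4_7 ha
  · exact part2_sound w8E_tab hX hn hK1 hK2 hw hst hc hc' (fun q hq => absurd hq List.not_mem_nil) c8_4_8 ha
  · exact part2_sound w8E_tab hX hn hK1 hK2 hw hst hc hc' (fun q hq => absurd hq List.not_mem_nil) c8_4_9 ha
  · exact part2_sound w8E_tab hX hn hK1 hK2 hw hst hc hc' (fun q hq => absurd hq List.not_mem_nil) c8_4_10 ha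
  · exact part2_sound w8E_tab hX hn hK1 hK2 hw hst hc hc' (fun q hq => absurd hq List.not_mem_nil) c8_4_11 ha
  · exact part2_sound w8E_tab hX hn hK1 hK2 hw hst hc hc' (fun q hq => absurd hq List.not_mem_nil) c8_4_12 ha
  · exact part2_sound w8E_tab hX hn hK1 hK2 hw hst hc hc' (fun q hq => absurd hq List.not_mem_nil) c8_4_13 ha
  · exact part2_sound w8E_tab hX hn hK1 hK2 hw hst hc hc' (fun q hq => absurd hq List.not_mem_nil) c8_4_14 ha
  · exact part2_sound w8E_tab hX hn hK1 hK2 hw hst hc hc' (fun q hq => absurd hq List.not_mem_nil) c8_4_15 ha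
  · exact part2_sound w8E_tab hX hn hK1 hK2 hw hst hc hc' (fun q hq => absurd hq List.not_mem_nil) c8_4_16 ha
  · exact part2_sound w8E_tab hX hn hK1 hK2 hw hst hc hc' (fun q hq => absurd hq List.not_mem_nil) c8_4_17 ha

end Win

end Pool.Agent.GCP
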