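import Pool.Agent.GCP.W8x5a
import Pool.Agent.GCP.W8x5b

/-!
# The decision tree, rank 8, swap 5 (MP_062f91_co)
-/

namespace Pool.Agent.GCP

namespace Win

/-- masks of the parts -/
def f8_5 : List (ℕ × ℕ) :=
  [(396316767209652224, 33285996544), (252201579133796352, 288230409437708288), (108086391057940480, 432345597513564160), (2413929400278974464, 33287045120), (2413929400272683008, 33295433728), (2558044588346441728, 33297530880), (2702159776422297600, 144115221373386752), (2990390152574009344, 432345597525098496), (2413929400807456768, 1008806349828521984), (2413929400270585858, 1008806350365392896), (2413929400270585856, 1008806350365392898), (4719772410021150720, 2305843042500739072), (4719772409484279808, 2305843043037609984), (684547143360315392, 6917529060928126976), (396316767208603648, 7493989813231550464), (252201579132747776, 7782220189383262208), (108086391056891904, 7926335377459118080)]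

theorem c8_5 : part2 w8E 1041 m2_5 5 8 r1 q8 g8 f8_5 0xfb0faf039fae03afad03bfacfab01d03efaafa9001fa801dfa703bfa603afa5039fa4015fa301703dfa2fa1039fa003a014 108086391056891904 33285996544 = true := by decide +kernel

theorem w8_5 {X : Finset Pt} {w : Pt} {P P' : ℕ → Pt}
    (hX : GeneralPosition X) (hn : 9 ≤ X.card) (hK1 : K1 X) (hK2 : K2 X) (hw : w ≠ 0)
    (hst : Stp X w 5 P P') (hc : r1.ev (vw (Lh X) P) = 8)
    (hc' : r1.ev (RT.ren m2_5 (vw (Lh X) P)) = 8) : Dec q8 g8 5 m2_5 (vw (Lh X) P) := by
  have h0 := init2_asg hX (by omega) hw (by omega) hst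
  rw [show Nat.lor (mT 5) (Nat.pow 2 56) = 108086391056891904 from by decide +kernel, show mF 5 = 33285996544 from by decide +kernel] at h0
  refine part2_sound w8E_tab hX hn hK1 hK2 hw hst hc hc' ?_ c8_5 h0
  intro q hq ha
  simp only [f8_5, List.mem_cons, List.not_mem_nil, or_false] at hq
  rcases hq with rfl | rfl | rfl | rfl | rfl | rfl | rfl | rfl | rfl | rfl | rfl | rfl | rfl | rfl | rfl | rfl | rfl
  · exact part2_sound w8E_tab hX hn hK1 hK2 hw hst hc hc' (fun q hq => absurd hq List.not_mem_nil) c8_5_0 ha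
  · exact part2_sound w8E_tab hX hn hK1 hK2 hw hst hc hc' (fun q hq => absurd hq List.not_mem_nil) c8_5_1 ha
  · exact part2_sound w8E_tab hX hn hK1 hK2 hw hst hc hc' (fun q hq => absurd hq List.not_mem_nil) c8_5_2 ha
  · exact part2_sound w8E_tab hX hn hK1 hK2 hw hst hc hc' (fun q hq => absurd hq List.not_mem_nil) c8_5_3 ha
  · exact part2_sound w8E_tab hX hn hK1 hK2 hw hst hc hc' (fun q hq => absurd hq List.not_mem_nil) c8_5_4 ha
  · exact part2_sound w8E_tab hX hn hK1 hK2 hw hst hc hc' (fun q hq => absurd hq List.not_mem_nil) c8_5_5 ha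
  · exact part2_sound w8E_tab hX hn hK1 hK2 hw hst hc hc' (fun q hq => absurd hq List.not_mem_nil) c8_5_6 ha
  · exact part2_sound w8E_tab hX hn hK1 hK2 hw hst hc hc' (fun q hq => absurd hq List.not_mem_nil) c8_5_7 ha
  · exact part2_sound w8E_tab hX hn hK1 hK2 hw hst hc hc' (fun q hq => absurd hq List.not_mem_nil) c8_5_8 ha
  · exact part2_sound w8E_tab hX hn hK1 hK2 hw hst hc hc' (fun q hq => absurd hq List.not_mem_nil) c8_5_9 ha
  · exact part2_sound w8E_tab hX hn hK1 hK2 hw hst hc hc' (fun q hq => absurd hq List.not_mem_nil) c8_5_10 ha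
  · exact part2_sound w8E_tab hX hn hK1 hK2 hw hst hc hc' (fun q hq => absurd hq List.not_mem_nil) c8_5_11 ha
  · exact part2_sound w8E_tab hX hn hK1 hK2 hw hst hc hc' (fun q hq => absurd hq List.not_mem_nil) c8_5_12 ha
  · exact part2_sound w8E_tab hX hn hK1 hK2 hw hst hc hc' (fun q hq => absurd hq List.not_mem_nil) c8_5_13 ha
  · exact part2_sound w8E_tab hX hn hK1 hK2 hw hst hc hc' (fun q hq => absurd hq List.not_mem_nil) c8_5_14 ha
  · exact part2_sound w8E_tab hX hn hK1 hK2 hw hst hc hc' (fun q hq => absurd hq List.not_mem_nil) c8_5_15 ha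
  · exact part2_sound w8E_tab hX hn hK1 hK2 hw hst hc hc' (fun q hq => absurd hq List.not_mem_nil) c8_5_16 ha

end Win

end Pool.Agent.GCP
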