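import Pool.Agent.GCP.W8x6a
import Pool.Agent.GCP.W8x6b
import Pool.Agent.GCP.W8x6c
import Pool.Agent.GCP.W8x6d
import Pool.Agent.GCP.W8x6e
import Pool.Agent.GCP.W8x6f
import Pool.Agent.GCP.W8x6g
import Pool.Agent.GCP.W8x6h
import Pool.Agent.GCP.W8x6i
import Pool.Agent.GCP.W8x6j
import Pool.Agent.GCP.W8x6k
import Pool.Agent.GCP.W8x6l
import Pool.Agent.GCP.W8x6m
import Pool.Agent.GCP.W8x6n

/-!
# The decision tree, rank 8, swap 6 (MP_062f91_co)
-/

namespace Pool.Agent.GCP

namespace Win

/-- masks of the parts -/
def f8_6 : List (ℕ × ℕ) :=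
  [(4971973992913044496, 70931694131085312), (4971974022977815568, 70931698426052608), (4971973988618077200, 70931732785790976), (2666130979404383248, 4682617712558473216), (360287970190689296, 6988460721772167168), (360287970190688272, 70931694131086336), (360287970190688256, 70931694131085328), (4827858802691801088, 359162070282797056), (7133701912837226496, 9582534109285056512), (4827858903623532544, 11888377118498750464), (2522015791330623488, 4970848088710184960), (216172782116929536, 7276691097923878912), (216172782114832384, 359162070284894208), (2954361356092964864, 503277258358652928), (1801439851488215040, 2809120267572346880), (5260204365308759040, 3962041772179193856), (648518346881371136, 8573727790606581760), (648518346881369088, 3962041772179195904), (648518346881368064, 3962041772179194880), (648518346879270912, 2809120267574444032), (5260204373359722496, 503277258895523840), (5260204364769787904, 503277267485458432), (2954361355556093952, 5114963277322911744), (648518346342400000, 7420806286536605696), (72057628400823296,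 1079738010662076416), (72057594041084928, 1079738045021814784), (72057594041082880, 1079738010662078464), (72057594038985728, 1079738010664173568), (72057611218846720, 1079738010662084608), (72057594038979584, 1079738027841953792), (72057594038977536, 1079738027841955840), (6989586622216929280, 1079738010662077440), (5836665117610082304, 3385581019875771392), (4683743647373459456, 4538502524482618368), (4683743613013721088, 4538502558842356736), (4683743613011623936, 4538502524484715520), (4683743613003235328, 4538502524491006976), (2377900603789541376, 5691424029089465344), (1224979099182694400, 7997267038303159296), (72057594575847440, 9150188542910006272), (72057594575847424, 9150188542910006288), (72057594038976512, 1079738011198948352), (2377900604325363712, 70931694132133888), (2377900603260010496, 70931695205875712), (2377900603253719040, 70931695214264320), (2522015791327477760, 70931695216361472), (2666130979403333632, 215046883292217344), (2954361355555045376, 503277259443929088), (2377900603251621888, 1079738011747352576),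 (4827858801614913536, 2376774703345827840), (4971973989690769408, 2520889891421683712), (5260204365842481152, 2809120267573395456), (13907115650402222080, 3385581054236557312), (4683743613547446272, 12608953091091333120), (4683743613539581952, 3385581019885207552), (4683743613539057664, 3385581019885731840), (13907115649856962560, 2376774738779308032), (5260204365305610240, 11600146775634083840), (4971973989153898496, 12176607527937507328), (4827858801078042624, 12464837904089219072), (5836665117609033728, 12608953092165074944), (4683743613002194944, 13761874596771921920), (4683743613002187776, 13761874596771930112), (4683743613002186752, 13761874596771931136), (5260204364768739328, 2376774704956440576), (4683743612465324032, 2953235457259864064), (4683743612465315842, 2953235457259872256), (4683743612465315840, 2953235457259872258), (648518346878222336, 6988460721773215744), (648518346341351424, 6988460722310086656), (360287970189639696, 7564921474076639232), (360287970189639680, 7564921474076639248), (1369094286720630784, 7853151850228350976),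 (216172782113783808, 9006073354835197952), (1224979098653163520, 7997267038304206848), (1224979098644774912, 7997267038312595456), (72339069014646784, 9150188542911053824), (72092778410024960, 9150470017887764480), (72057602627870720, 9150505202259853312), (72057595111677952, 9150505210849787904), (72057611217805312, 9150505211923529728), (72057594037936128, 9150505229103398912), (72057594037928960, 9150188542911062016), (72057594037927936, 9150188542911063040)]

theorem c8_6 : part2 w8E 1041 m2_6 6 8 r1 q8 g8 f8_6 0xff3ff200aff1ff0022fef01efee021fed02dfec03000dfebfea01703cfe9fe803c039fe7fe600403afe5fe401d03bfe3fe2001fe100dfe003bfdffde00afdd00dfdc03cfdb039fda03afd903bfd803f23d02301dfd7fd6013fd5fd403f23d023017fd303bfd203afd103901e03efd0fcf03bfce03afcd039fcc015fcb017fca01e03dfc9fc8fc7004fc603cfc503dfc4fc3fc2fc1023015017fc003cfbf03d03e01dfbefbd00bfbc022fbbfbafb9fb802300b01500d00afb7fb603dfb5fb402103efb3fb2fb1fb0faf03e00b00afae03c015fad03d01d03bfacfabfaa03ddc1ffaffffa9fa803dfff29502e03f024023fa701f03e015039fa6fa5fa4fa303dfa2fa1023fa002003e00a00403a014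 72057594037927936 70931694131085312 = true := by decide +kernel

theorem w8_6 {X : Finset Pt} {w : Pt} {P P' : ℕ → Pt}
    (hX : GeneralPosition X) (hn : 9 ≤ X.card) (hK1 : K1 X) (hK2 : K2 X) (hw : w ≠ 0)
    (hst : Stp X w 6 P P') (hc : r1.ev (vw (Lh X) P) = 8)
    (hc' : r1.ev (RT.ren m2_6 (vw (Lh X) P)) = 8) : Dec q8 g8 6 m2_6 (vw (Lh X) P) := by
  have h0 := init2_asg hX (by omega) hw (by omega) hst
  rw [show Nat.lor (mT 6) (Nat.pow 2 56) = 72057594037927936 from by decide +kernel, show mF 6 = 70931694131085312 from by decide +kernel] at h0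
  refine part2_sound w8E_tab hX hn hK1 hK2 hw hst hc hc' ?_ c8_6 h0
  intro q hq ha
  simp only [f8_6, List.mem_cons, List.not_mem_nil, or_false] at hq
  rcases hq with rfl | rfl | rfl | rfl | rfl | rfl | rfl | rfl | rfl | rfl | rfl | rfl | rfl | rfl | rfl | rfl | rfl | rfl | rfl | rfl | rfl | rfl | rfl | rfl | rfl | rfl | rfl | rfl | rfl | rfl | rfl | rfl | rfl | rfl | rfl | rfl | rfl | rfl | rfl | rfl | rfl | rfl | rfl | rfl | rfl | rfl | rfl | rfl | rfl | rfl | rfl | rfl | rfl | rfl | rfl | rfl | rfl | rfl | rfl | rfl | rfl | rfl | rfl | rfl | rfl | rfl | rfl | rfl | rfl | rfl | rfl | rfl | rfl | rfl | rfl | rfl | rfl | rfl | rfl | rfl | rfl | rfl | rfl | rfl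
  · exact part2_sound w8E_tab hX hn hK1 hK2 hw hst hc hc' (fun q hq => absurd hq List.not_mem_nil) c8_6_0 ha
  · exact part2_sound w8E_tab hX hn hK1 hK2 hw hst hc hc' (fun q hq => absurd hq List.not_mem_nil) c8_6_1 ha
  · exact part2_sound w8E_tab hX hn hK1 hK2 hw hst hc hc' (fun q hq => absurd hq List.not_mem_nil) c8_6_2 ha
  · exact part2_sound w8E_tab hX hn hK1 hK2 hw hst hc hc' (fun q hq => absurd hq List.not_mem_nil) c8_6_3 ha
  · exact part2_sound w8E_tab hX hn hK1 hK2 hw hst hc hc' (fun q hq => absurd hq List.not_mem_nil) c8_6_4 ha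
  · exact part2_sound w8E_tab hX hn hK1 hK2 hw hst hc hc' (fun q hq => absurd hq List.not_mem_nil) c8_6_5 ha
  · exact part2_sound w8E_tab hX hn hK1 hK2 hw hst hc hc' (fun q hq => absurd hq List.not_mem_nil) c8_6_6 ha
  · exact part2_sound w8E_tab hX hn hK1 hK2 hw hst hc hc' (fun q hq => absurd hq List.not_mem_nil) c8_6_7 ha
  · exact part2_sound w8E_tab hX hn hK1 hK2 hw hst hc hc' (fun q hq => absurd hq List.not_mem_nil) c8_6_8 ha
  · exact part2_sound w8E_tab hX hn hK1 hK2 hw hst hc hc' (fun q hq => absurd hq List.not_mem_nil) c8_6_9 ha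
  · exact part2_sound w8E_tab hX hn hK1 hK2 hw hst hc hc' (fun q hq => absurd hq List.not_mem_nil) c8_6_10 ha
  · exact part2_sound w8E_tab hX hn hK1 hK2 hw hst hc hc' (fun q hq => absurd hq List.not_mem_nil) c8_6_11 ha
  · exact part2_sound w8E_tab hX hn hK1 hK2 hw hst hc hc' (fun q hq => absurd hq List.not_mem_nil) c8_6_12 ha
  · exact part2_sound w8E_tab hX hn hK1 hK2 hw hst hc hc' (fun q hq => absurd hq List.not_mem_nil) c8_6_13 ha
  · exact part2_sound w8E_tab hX hn hK1 hK2 hw hst hc hc' (fun q hq => absurd hq List.not_mem_nil) c8_6_14 ha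
  · exact part2_sound w8E_tab hX hn hK1 hK2 hw hst hc hc' (fun q hq => absurd hq List.not_mem_nil) c8_6_15 ha
  · exact part2_sound w8E_tab hX hn hK1 hK2 hw hst hc hc' (fun q hq => absurd hq List.not_mem_nil) c8_6_16 ha
  · exact part2_sound w8E_tab hX hn hK1 hK2 hw hst hc hc' (fun q hq => absurd hq List.not_mem_nil) c8_6_17 ha
  · exact part2_sound w8E_tab hX hn hK1 hK2 hw hst hc hc' (fun q hq => absurd hq List.not_mem_nil) c8_6_18 ha
  · exact part2_sound w8E_tab hX hn hK1 hK2 hw hst hc hc' (fun q hq => absurd hq List.not_mem_nil) c8_6_19 ha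
  · exact part2_sound w8E_tab hX hn hK1 hK2 hw hst hc hc' (fun q hq => absurd hq List.not_mem_nil) c8_6_20 ha
  · exact part2_sound w8E_tab hX hn hK1 hK2 hw hst hc hc' (fun q hq => absurd hq List.not_mem_nil) c8_6_21 ha
  · exact part2_sound w8E_tab hX hn hK1 hK2 hw hst hc hc' (fun q hq => absurd hq List.not_mem_nil) c8_6_22 ha
  · exact part2_sound w8E_tab hX hn hK1 hK2 hw hst hc hc' (fun q hq => absurd hq List.not_mem_nil) c8_6_23 ha
  · exact part2_sound w8E_tab hX hn hK1 hK2 hw hst hc hc' (fun q hq => absurd hq List.not_mem_nil) c8_6_24 ha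
  · exact part2_sound w8E_tab hX hn hK1 hK2 hw hst hc hc' (fun q hq => absurd hq List.not_mem_nil) c8_6_25 ha
  · exact part2_sound w8E_tab hX hn hK1 hK2 hw hst hc hc' (fun q hq => absurd hq List.not_mem_nil) c8_6_26 ha
  · exact part2_sound w8E_tab hX hn hK1 hK2 hw hst hc hc' (fun q hq => absurd hq List.not_mem_nil) c8_6_27 ha
  · exact part2_sound w8E_tab hX hn hK1 hK2 hw hst hc hc' (fun q hq => absurd hq List.not_mem_nil) c8_6_28 ha
  · exact part2_sound w8E_tab hX hn hK1 hK2 hw hst hc hc' (fun q hq => absurd hq List.not_mem_nil) c8_6_29 ha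
  · exact part2_sound w8E_tab hX hn hK1 hK2 hw hst hc hc' (fun q hq => absurd hq List.not_mem_nil) c8_6_30 ha
  · exact part2_sound w8E_tab hX hn hK1 hK2 hw hst hc hc' (fun q hq => absurd hq List.not_mem_nil) c8_6_31 ha
  · exact part2_sound w8E_tab hX hn hK1 hK2 hw hst hc hc' (fun q hq => absurd hq List.not_mem_nil) c8_6_32 ha
  · exact part2_sound w8E_tab hX hn hK1 hK2 hw hst hc hc' (fun q hq => absurd hq List.not_mem_nil) c8_6_33 ha
  · exact part2_sound w8E_tab hX hn hK1 hK2 hw hst hc hc' (fun q hq => absurd hq List.not_mem_nil) c8_6_34 ha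
  · exact part2_sound w8E_tab hX hn hK1 hK2 hw hst hc hc' (fun q hq => absurd hq List.not_mem_nil) c8_6_35 ha
  · exact part2_sound w8E_tab hX hn hK1 hK2 hw hst hc hc' (fun q hq => absurd hq List.not_mem_nil) c8_6_36 ha
  · exact part2_sound w8E_tab hX hn hK1 hK2 hw hst hc hc' (fun q hq => absurd hq List.not_mem_nil) c8_6_37 ha
  · exact part2_sound w8E_tab hX hn hK1 hK2 hw hst hc hc' (fun q hq => absurd hq List.not_mem_nil) c8_6_38 ha
  · exact part2_sound w8E_tab hX hn hK1 hK2 hw hst hc hc' (fun q hq => absurd hq List.not_mem_nil) c8_6_39 ha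
  · exact part2_sound w8E_tab hX hn hK1 hK2 hw hst hc hc' (fun q hq => absurd hq List.not_mem_nil) c8_6_40 ha
  · exact part2_sound w8E_tab hX hn hK1 hK2 hw hst hc hc' (fun q hq => absurd hq List.not_mem_nil) c8_6_41 ha
  · exact part2_sound w8E_tab hX hn hK1 hK2 hw hst hc hc' (fun q hq => absurd hq List.not_mem_nil) c8_6_42 ha
  · exact part2_sound w8E_tab hX hn hK1 hK2 hw hst hc hc' (fun q hq => absurd hq List.not_mem_nil) c8_6_43 ha
  · exact part2_sound w8E_tab hX hn hK1 hK2 hw hst hc hc' (fun q hq => absurd hq List.not_mem_nil) c8_6_44 ha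
  · exact part2_sound w8E_tab hX hn hK1 hK2 hw hst hc hc' (fun q hq => absurd hq List.not_mem_nil) c8_6_45 ha
  · exact part2_sound w8E_tab hX hn hK1 hK2 hw hst hc hc' (fun q hq => absurd hq List.not_mem_nil) c8_6_46 ha
  · exact part2_sound w8E_tab hX hn hK1 hK2 hw hst hc hc' (fun q hq => absurd hq List.not_mem_nil) c8_6_47 ha
  · exact part2_sound w8E_tab hX hn hK1 hK2 hw hst hc hc' (fun q hq => absurd hq List.not_mem_nil) c8_6_48 ha
  · exact part2_sound w8E_tab hX hn hK1 hK2 hw hst hc hc' (fun q hq => absurd hq List.not_mem_nil) c8_6_49 ha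
  · exact part2_sound w8E_tab hX hn hK1 hK2 hw hst hc hc' (fun q hq => absurd hq List.not_mem_nil) c8_6_50 ha
  · exact part2_sound w8E_tab hX hn hK1 hK2 hw hst hc hc' (fun q hq => absurd hq List.not_mem_nil) c8_6_51 ha
  · exact part2_sound w8E_tab hX hn hK1 hK2 hw hst hc hc' (fun q hq => absurd hq List.not_mem_nil) c8_6_52 ha
  · exact part2_sound w8E_tab hX hn hK1 hK2 hw hst hc hc' (fun q hq => absurd hq List.not_mem_nil) c8_6_53 ha
  · exact part2_sound w8E_tab hX hn hK1 hK2 hw hst hc hc' (fun q hq => absurd hq List.not_mem_nil) c8_6_54 ha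
  · exact part2_sound w8E_tab hX hn hK1 hK2 hw hst hc hc' (fun q hq => absurd hq List.not_mem_nil) c8_6_55 ha
  · exact part2_sound w8E_tab hX hn hK1 hK2 hw hst hc hc' (fun q hq => absurd hq List.not_mem_nil) c8_6_56 ha
  · exact part2_sound w8E_tab hX hn hK1 hK2 hw hst hc hc' (fun q hq => absurd hq List.not_mem_nil) c8_6_57 ha
  · exact part2_sound w8E_tab hX hn hK1 hK2 hw hst hc hc' (fun q hq => absurd hq List.not_mem_nil) c8_6_58 ha
  · exact part2_sound w8E_tab hX hn hK1 hK2 hw hst hc hc' (fun q hq => absurd hq List.not_mem_nil) c8_6_59 ha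
  · exact part2_sound w8E_tab hX hn hK1 hK2 hw hst hc hc' (fun q hq => absurd hq List.not_mem_nil) c8_6_60 ha
  · exact part2_sound w8E_tab hX hn hK1 hK2 hw hst hc hc' (fun q hq => absurd hq List.not_mem_nil) c8_6_61 ha
  · exact part2_sound w8E_tab hX hn hK1 hK2 hw hst hc hc' (fun q hq => absurd hq List.not_mem_nil) c8_6_62 ha
  · exact part2_sound w8E_tab hX hn hK1 hK2 hw hst hc hc' (fun q hq => absurd hq List.not_mem_nil) c8_6_63 ha
  · exact part2_sound w8E_tab hX hn hK1 hK2 hw hst hc hc' (fun q hq => absurd hq List.not_mem_nil) c8_6_64 ha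
  · exact part2_sound w8E_tab hX hn hK1 hK2 hw hst hc hc' (fun q hq => absurd hq List.not_mem_nil) c8_6_65 ha
  · exact part2_sound w8E_tab hX hn hK1 hK2 hw hst hc hc' (fun q hq => absurd hq List.not_mem_nil) c8_6_66 ha
  · exact part2_sound w8E_tab hX hn hK1 hK2 hw hst hc hc' (fun q hq => absurd hq List.not_mem_nil) c8_6_67 ha
  · exact part2_sound w8E_tab hX hn hK1 hK2 hw hst hc hc' (fun q hq => absurd hq List.not_mem_nil) c8_6_68 ha
  · exact part2_sound w8E_tab hX hn hK1 hK2 hw hst hc hc' (fun q hq => absurd hq List.not_mem_nil) c8_6_69 ha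
  · exact part2_sound w8E_tab hX hn hK1 hK2 hw hst hc hc' (fun q hq => absurd hq List.not_mem_nil) c8_6_70 ha
  · exact part2_sound w8E_tab hX hn hK1 hK2 hw hst hc hc' (fun q hq => absurd hq List.not_mem_nil) c8_6_71 ha
  · exact part2_sound w8E_tab hX hn hK1 hK2 hw hst hc hc' (fun q hq => absurd hq List.not_mem_nil) c8_6_72 ha
  · exact part2_sound w8E_tab hX hn hK1 hK2 hw hst hc hc' (fun q hq => absurd hq List.not_mem_nil) c8_6_73 ha
  · exact part2_sound w8E_tab hX hn hK1 hK2 hw hst hc hc' (fun q hq => absurd hq List.not_mem_nil) c8_6_74 ha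
  · exact part2_sound w8E_tab hX hn hK1 hK2 hw hst hc hc' (fun q hq => absurd hq List.not_mem_nil) c8_6_75 ha
  · exact part2_sound w8E_tab hX hn hK1 hK2 hw hst hc hc' (fun q hq => absurd hq List.not_mem_nil) c8_6_76 ha
  · exact part2_sound w8E_tab hX hn hK1 hK2 hw hst hc hc' (fun q hq => absurd hq List.not_mem_nil) c8_6_77 ha
  · exact part2_sound w8E_tab hX hn hK1 hK2 hw hst hc hc' (fun q hq => absurd hq List.not_mem_nil) c8_6_78 ha
  · exact part2_sound w8E_tab hX hn hK1 hK2 hw hst hc hc' (fun q hq => absurd hq List.not_mem_nil) c8_6_79 ha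
  · exact part2_sound w8E_tab hX hn hK1 hK2 hw hst hc hc' (fun q hq => absurd hq List.not_mem_nil) c8_6_80 ha
  · exact part2_sound w8E_tab hX hn hK1 hK2 hw hst hc hc' (fun q hq => absurd hq List.not_mem_nil) c8_6_81 ha
  · exact part2_sound w8E_tab hX hn hK1 hK2 hw hst hc hc' (fun q hq => absurd hq List.not_mem_nil) c8_6_82 ha
  · exact part2_sound w8E_tab hX hn hK1 hK2 hw hst hc hc' (fun q hq => absurd hq List.not_mem_nil) c8_6_83 ha

end Win

end Pool.Agent.GCP
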