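import Pool.Agent.GCP.W7_0
import Pool.Agent.GCP.W7_1
import Pool.Agent.GCP.W7_2
import Pool.Agent.GCP.W7_3
import Pool.Agent.GCP.W7_4
import Pool.Agent.GCP.W7_5
import Pool.Agent.GCP.W7_6
import Pool.Agent.GCP.W7_7
import Pool.Agent.GCP.W8_0
import Pool.Agent.GCP.W8_1
import Pool.Agent.GCP.W8_2
import Pool.Agent.GCP.W8_3
import Pool.Agent.GCP.W8_4
import Pool.Agent.GCP.W8_5
import Pool.Agent.GCP.W8_6
import Pool.Agent.GCP.W8_7
import Pool.Agent.GCP.W1
import Pool.Agent.GCP.W8Ok
import Pool.Agent.GCP.NearCard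

/-!
# Two hull vertices among the four highest points, three among the seven highest points (MP_062f91_co)
-/

namespace Pool.Agent.GCP

namespace Win

theorem r1_vlt64 : r1.vlt (56 + 8 * 1) = true := by decide +kernel

section
variable {X : Finset Pt}

/-- the rank of the labelled windows does not increase, rank 7 -/
theorem step7 (hX : GeneralPosition X) (hn : 9 ≤ X.card) (hK1 : K1 X) (hK2 : K2 X)
    (hc : ∀ w P, w ≠ 0 → Srt X w P → r1.ev (vw (Lh X) P) = 7) {w : Pt} {P P' : ℕ → Pt}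
    (hw : w ≠ 0) {j : ℕ} (hst : Stp X w j P P') :
    q7.ev (vw (Lh X) P') ≤ q7.ev (vw (Lh X) P) ∧
      (j = 0 → q7.ev (vw (Lh X) P') = q7.ev (vw (Lh X) P) →
        g7 (q7.ev (vw (Lh X) P) + 1) = true) := by
  by_cases hj : 7 ≤ j
  · rw [step_high q7_vok hj hst]
    exact ⟨le_rfl, fun h => absurd h (by omega)⟩
  · have h8 : 8 ≤ X.card := by omega
    have hj' : j < 7 := by omega
    have e1 := hc w P hw hst.s
    have e2 := hc w P' hw hst.s'
    interval_cases j
    · rw [step_ren hX h8 q7_vlt (by omega) hst m2_0_ok]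
      rw [step_ren hX h8 r1_vlt64 (by omega) hst m2_0_ok] at e2
      exact w7_0 hX hn hK1 hK2 hw hst e1 e2
    · rw [step_ren hX h8 q7_vlt (by omega) hst m2_1_ok]
      rw [step_ren hX h8 r1_vlt64 (by omega) hst m2_1_ok] at e2
      exact w7_1 hX hn hK1 hK2 hw hst e1 e2
    · rw [step_ren hX h8 q7_vlt (by omega) hst m2_2_ok]
      rw [step_ren hX h8 r1_vlt64 (by omega) hst m2_2_ok] at e2
      exact w7_2 hX hn hK1 hK2 hw hst e1 e2
    · rw [step_ren hX h8 q7_vlt (by omega) hst m2_3_ok]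
      rw [step_ren hX h8 r1_vlt64 (by omega) hst m2_3_ok] at e2
      exact w7_3 hX hn hK1 hK2 hw hst e1 e2
    · rw [step_ren hX h8 q7_vlt (by omega) hst m2_4_ok]
      rw [step_ren hX h8 r1_vlt64 (by omega) hst m2_4_ok] at e2
      exact w7_4 hX hn hK1 hK2 hw hst e1 e2
    · rw [step_ren hX h8 q7_vlt (by omega) hst m2_5_ok]
      rw [step_ren hX h8 r1_vlt64 (by omega) hst m2_5_ok] at e2
      exact w7_5 hX hn hK1 hK2 hw hst e1 e2
    · rw [step_ren hX h8 q7_vlt (by omega) hst m2_6_ok]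
      rw [step_ren hX h8 r1_vlt64 (by omega) hst m2_6_ok] at e2
      exact w7_6 hX hn hK1 hK2 hw hst e1 e2

/-- the rank of the labelled windows does not increase, rank 8 -/
theorem step8 (hX : GeneralPosition X) (hn : 9 ≤ X.card) (hK1 : K1 X) (hK2 : K2 X)
    (hc : ∀ w P, w ≠ 0 → Srt X w P → r1.ev (vw (Lh X) P) = 8) {w : Pt} {P P' : ℕ → Pt}
    (hw : w ≠ 0) {j : ℕ} (hst : Stp X w j P P') :
    q8.ev (vw (Lh X) P') ≤ q8.ev (vw (Lh X) P) ∧
      (j = 0 → q8.ev (vw (Lh X) P') = q8.ev (vw (Lh X) P) →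
        g8 (q8.ev (vw (Lh X) P) + 1) = true) := by
  by_cases hj : 7 ≤ j
  · rw [step_high q8_vok hj hst]
    exact ⟨le_rfl, fun h => absurd h (by omega)⟩
  · have h8 : 8 ≤ X.card := by omega
    have hj' : j < 7 := by omega
    have e1 := hc w P hw hst.s
    have e2 := hc w P' hw hst.s'
    interval_cases j
    · rw [step_ren hX h8 q8_vlt (by omega) hst m2_0_ok]
      rw [step_ren hX h8 r1_vlt64 (by omega) hst m2_0_ok] at e2
      exact w8_0 hX hn hK1 hK2 hw hst e1 e2
    · rw [step_ren hX h8 q8_vlt (by omega) hst m2_1_ok]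
      rw [step_ren hX h8 r1_vlt64 (by omega) hst m2_1_ok] at e2
      exact w8_1 hX hn hK1 hK2 hw hst e1 e2
    · rw [step_ren hX h8 q8_vlt (by omega) hst m2_2_ok]
      rw [step_ren hX h8 r1_vlt64 (by omega) hst m2_2_ok] at e2
      exact w8_2 hX hn hK1 hK2 hw hst e1 e2
    · rw [step_ren hX h8 q8_vlt (by omega) hst m2_3_ok]
      rw [step_ren hX h8 r1_vlt64 (by omega) hst m2_3_ok] at e2
      exact w8_3 hX hn hK1 hK2 hw hst e1 e2
    · rw [step_ren hX h8 q8_vlt (by omega) hst m2_4_ok]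
      rw [step_ren hX h8 r1_vlt64 (by omega) hst m2_4_ok] at e2
      exact w8_4 hX hn hK1 hK2 hw hst e1 e2
    · rw [step_ren hX h8 q8_vlt (by omega) hst m2_5_ok]
      rw [step_ren hX h8 r1_vlt64 (by omega) hst m2_5_ok] at e2
      exact w8_5 hX hn hK1 hK2 hw hst e1 e2
    · rw [step_ren hX h8 q8_vlt (by omega) hst m2_6_ok]
      rw [step_ren hX h8 r1_vlt64 (by omega) hst m2_6_ok] at e2
      exact w8_6 hX hn hK1 hK2 hw hst e1 e2

open Classical in
/-- The first case: two hull vertices among the four highest points and three among the seven highest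
points, in all directions. -/
theorem stage7 (hX : GeneralPosition X) (hn : 9 ≤ X.card) (hK1 : K1 X) (hK2 : K2 X)
    (hc : ∀ w P, w ≠ 0 → Srt X w P → r1.ev (vw (Lh X) P) = 7) (w : Pt) (P : ℕ → Pt) (hw : w ≠ 0)
    (hs : Srt X w P) : ((Finset.range 4).filter (fun i => Hull.HV X (P i))).card = 2 ∧
      ((Finset.range 7).filter (fun i => Hull.HV X (P i))).card = 3 := by
  obtain ⟨c, hg, h⟩ := Sweep.rank_good hX (by omega) (f := fun P => q7.ev (vw (Lh X) P))
    (fun w j P P' hw hst => (step7 hX hn hK1 hK2 hc hw hst).1)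
    (Good := fun c => g7 (c + 1) = true)
    (fun w P P' hw hst h => (step7 hX hn hK1 hK2 hc hw hst).2 rfl h)
  have hG : c = 3 := by
    simp only [g7, Nat.beq_eq] at hg
    omega
  exact w7_7 hX hn hK1 hK2 hw hs (hc w P hw hs) ((h w P hw hs).trans hG)
    (fun T F h1 h2 => ok7_sound h1 h2)

/-- The second case: all windows of seven points are exotic. -/
theorem stage8 (hX : GeneralPosition X) (hn : 9 ≤ X.card) (hK1 : K1 X) (hK2 : K2 X)
    (hc : ∀ w P, w ≠ 0 → Srt X w P → r1.ev (vw (Lh X) P) = 8) (w : Pt) (P : ℕ → Pt) (hw : w ≠ 0)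
    (hs : Srt X w P) : ∃ e ∈ E116, (∀ a b c, a < b → b < c → c < 7 →
        (0 < orient (P a) (P b) (P c) ↔ e.1.testBit (Exo.ix a b c) = true)) ∧
      (∀ i < 7, (Hull.HV X (P i) ↔ e.2.1.testBit i = true)) := by
  obtain ⟨c, hg, h⟩ := Sweep.rank_good hX (by omega) (f := fun P => q8.ev (vw (Lh X) P))
    (fun w j P P' hw hst => (step8 hX hn hK1 hK2 hc hw hst).1)
    (Good := fun c => g8 (c + 1) = true)
    (fun w P P' hw hst h => (step8 hX hn hK1 hK2 hc hw hst).2 rfl h)
  have hG : c = 2 := by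
    simp only [g8, Nat.beq_eq] at hg
    omega
  exact w8_7 hX hn hK1 hK2 hw hs (hc w P hw hs) ((h w P hw hs).trans hG)
    (fun T F h1 h2 => ok8_sound h1 h2)

open Classical in
/-- For at least thirteen points: two hull vertices among the four highest points and three among the
seven highest points, in all directions. -/
theorem two_three (hX : GeneralPosition X) (hn : 13 ≤ X.card) (hK1 : K1 X) (hK2 : K2 X)
    (w : Pt) (P : ℕ → Pt) (hw : w ≠ 0) (hs : Srt X w P) :
    ((Finset.range 4).filter (fun i => Hull.HV X (P i))).card = 2 ∧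
      ((Finset.range 7).filter (fun i => Hull.HV X (P i))).card = 3 := by
  obtain ⟨c, hc | hc, h⟩ := stage1 hX (by omega) hK1 hK2 (Lh X)
  · subst hc
    exact stage7 hX (by omega) hK1 hK2 h w P hw hs
  · subst hc
    exact (Exo.impossible_bits hX hn (fun w P hw hs => stage8 hX (by omega) hK1 hK2 h w P hw hs)).elim

end

end Win

/-- The ring structure of a set in which no line cuts off four points in convex position and no line
cuts off eight points which are two convex polygons. -/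
theorem exists_ringS0 {X : Finset Pt} (hX : GeneralPosition X) (hn : 13 ≤ X.card) (hK1 : K1 X)
    (hK2 : Win.K2 X) : ∃ (h : ℕ) (p a c : ZMod h → Pt), RingS0 X h p a c := by
  refine exists_ring_of_top hX hK1 (by omega) (fun w hw => ?_)
  obtain ⟨P, hP⟩ := Sweep.exists_srt X w
  exact ⟨P, hP.mem, hP.inj, hP.mono, Win.two_three hX hn hK1 hK2 w P hw hP⟩

end Pool.Agent.GCP
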