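import Pool.Agent.GCP.WTab

/-!
# The rank of a window (MP_062f91_co)
-/

namespace Pool.Agent.GCP

namespace Win

/-- a part of the rank tree -/
def r1_0 : RT :=
  (RT.nd 25 (RT.nd 28 (RT.nd 32 (RT.nd 17 (RT.nd 19 (RT.nd 34 (RT.lf 5) (RT.lf 10)) (RT.lf 2)) (RT.lf 10)) (RT.nd 30 (RT.nd 31 (RT.lf 11) (RT.lf 7)) (RT.nd 29 (RT.lf 5) (RT.lf 2)))) (RT.nd 27 (RT.nd 30 (RT.nd 17 (RT.nd 18 (RT.lf 11) (RT.lf 5)) (RT.lf 11)) (RT.nd 18 (RT.lf 2) (RT.lf 5))) (RT.nd 16 (RT.nd 31 (RT.lf 10) (RT.nd 30 (RT.lf 11) (RT.nd 18 (RT.lf 10) (RT.nd 17 (RT.lf 11) (RT.nd 26 (RT.lf 10) (RT.lf 7)))))) (RT.nd 26 (RT.nd 32 (RT.lf 7) (RT.lf 11)) (RT.nd 31 (RT.nd 33 (RT.lf 5) (RT.lf 2)) (RT.nd 34 (RT.lf 10) (RT.lf 5))))))) (RT.nd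 26 (RT.nd 30 (RT.nd 27 (RT.lf 11) (RT.nd 31 (RT.lf 10) (RT.lf 11))) (RT.nd 17 (RT.lf 1) (RT.lf 8))) (RT.nd 30 (RT.lf 1) (RT.lf 7))))

/-- a part of the rank tree -/
def r1_1 : RT :=
  (RT.nd 14 (RT.nd 6 (RT.nd 12 (RT.nd 27 (RT.nd 28 (RT.nd 18 (RT.nd 29 (RT.nd 19 (RT.nd 32 (RT.lf 6) (RT.nd 30 (RT.lf 11) (RT.lf 6))) (RT.lf 11)) (RT.lf 11)) (RT.nd 17 (RT.lf 5) (RT.lf 6))) (RT.nd 17 (RT.lf 5) (RT.lf 11))) (RT.nd 31 (RT.nd 32 (RT.nd 26 (RT.lf 11) (RT.nd 33 (RT.lf 6) (RT.lf 11))) (RT.lf 5)) (RT.nd 16 (RT.nd 18 (RT.lf 6) (RT.lf 11)) (RT.lf 6)))) (RT.nd 27 (RT.lf 5) (RT.nd 26 (RT.lf 11) (RT.lf 5)))) (RT.nd 12 (RT.nd 31 (RT.lf 5) (RT.nd 30 (RT.nd 8 (RT.lf 11) (RT.lf 5)) (RT.lf 5))) (RT.nd 34 (RT.nd 16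 (RT.nd 8 (RT.lf 5) (RT.lf 11)) (RT.lf 11)) (RT.lf 11)))) (RT.nd 16 (RT.nd 17 (RT.lf 5) (RT.nd 18 (RT.lf 4) (RT.nd 8 (RT.nd 6 (RT.nd 27 (RT.nd 28 (RT.lf 5) (RT.lf 4)) (RT.lf 5)) (RT.lf 4)) (RT.lf 5)))) (RT.nd 6 (RT.lf 5) (RT.nd 8 (RT.lf 11) (RT.lf 5)))))

/-- a part of the rank tree -/
def r1_2 : RT :=
  (RT.nd 6 (RT.nd 17 (RT.lf 5) (RT.nd 16 (RT.lf 11) (RT.nd 14 (RT.nd 12 (RT.lf 5) (RT.nd 26 (RT.lf 11) (RT.nd 30 (RT.lf 5) (RT.nd 34 (RT.lf 11) (RT.lf 5))))) (RT.lf 11)))) (RT.nd 14 (RT.nd 12 (RT.nd 8 (RT.nd 26 (RT.nd 30 (RT.lf 11) (RT.lf 5)) (RT.lf 11)) (RT.lf 11)) (RT.nd 8 (RT.nd 27 (RT.nd 31 (RT.nd 18 (RT.nd 19 (RT.nd 34 (RT.lf 5) (RT.lf 10)) (RT.lf 2)) (RT.lf 10)) (RT.nd 30 (RT.nd 32 (RT.lf 11)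 (RT.lf 7)) (RT.nd 29 (RT.lf 5) (RT.lf 2)))) (RT.nd 28 (RT.nd 30 (RT.nd 18 (RT.nd 17 (RT.lf 11) (RT.lf 5)) (RT.lf 11)) (RT.nd 17 (RT.lf 2) (RT.lf 5))) (RT.nd 16 (RT.nd 32 (RT.lf 10) (RT.nd 30 (RT.lf 11) (RT.nd 17 (RT.lf 10) (RT.nd 18 (RT.lf 11) (RT.nd 26 (RT.lf 10) (RT.lf 7)))))) (RT.nd 26 (RT.nd 31 (RT.lf 7) (RT.lf 11)) (RT.nd 32 (RT.nd 33 (RT.lf 5) (RT.lf 2)) (RT.nd 34 (RT.lf 10) (RT.lf 5))))))) (RT.lf 7))) (RT.nd 8 (RT.nd 16 (RT.nd 27 (RT.lf 1) (RT.lf 8)) (RT.lf 7)) (RT.nd 17 (RT.lf 2) (RT.nd 18 (RT.lf 1) (RT.lf 2))))))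

/-- a part of the rank tree -/
def r1_3 : RT :=
  (RT.nd 7 (RT.nd 8 (RT.nd 25 (RT.lf 7) (RT.nd 27 (RT.nd 28 (RT.nd 30 (RT.lf 8) (RT.lf 2)) (RT.lf 1)) (RT.lf 2))) (RT.nd 0 (RT.nd 22 (RT.lf 4) (RT.nd 12 (RT.lf 4) (RT.lf 1))) (RT.lf 1))) (RT.nd 5 (RT.nd 0 (RT.nd 22 (RT.lf 5) (RT.nd 12 (RT.lf 5) (RT.lf 2))) (RT.lf 2)) (RT.lf 1)))

/-- a part of the rank tree -/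
def r1_4 : RT :=
  (RT.nd 25 (RT.nd 6 (RT.nd 12 (RT.nd 17 (RT.nd 18 (RT.lf 5) (RT.nd 26 (RT.lf 4) (RT.lf 5))) (RT.lf 5)) (RT.nd 14 (RT.nd 30 (RT.nd 16 (RT.lf 11) (RT.lf 4)) (RT.lf 11)) (RT.nd 32 (RT.nd 31 (RT.lf 5) (RT.lf 4)) (RT.lf 5)))) (RT.nd 8 (RT.nd 14 (RT.nd 26 (RT.nd 17 (RT.nd 12 (RT.lf 4) (RT.lf 1)) (RT.nd 30 (RT.nd 28 (RT.lf 11) (RT.nd 32 (RT.lf 10) (RT.lf 11))) (RT.lf 8))) (RT.nd 30 (RT.lf 1) (RT.nd 12 (RT.lf 11) (RT.lf 7)))) (RT.nd 16 (RT.lf 8) (RT.nd 32 (RT.nd 31 (RT.nd 26 (RT.lf 8) (RT.lf 2)) (RT.lf 1)) (RT.lf 2)))) (RT.nd 14 (RT.nd 12 (RT.nd 28 (RT.nd 27 (RT.nd 9 (RT.lf 5) (RT.lf 4)) (RT.lf 4)) (RT.lf 5)) (RT.nd 28 (RT.nd 27 (RT.nd 9 (RT.nd 30 (RT.lf 8) (RT.lf 2)) (RT.lf 1)) (RT.lf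 1)) (RT.lf 2))) (RT.nd 9 (RT.nd 18 (RT.nd 28 (RT.nd 27 (RT.nd 17 (RT.nd 31 (RT.lf 5) (RT.nd 30 (RT.lf 11) (RT.lf 5))) (RT.lf 4)) (RT.lf 4)) (RT.lf 5)) (RT.nd 16 (RT.nd 27 (RT.lf 5) (RT.lf 11)) (RT.nd 32 (RT.nd 31 (RT.nd 26 (RT.nd 27 (RT.lf 5) (RT.lf 11)) (RT.lf 5)) (RT.lf 4)) (RT.lf 5)))) (RT.lf 4))))) (RT.nd 23 (RT.nd 0 (RT.nd 6 (RT.lf 4) (RT.nd 8 (RT.nd 12 (RT.lf 4) (RT.lf 1)) (RT.nd 14 (RT.nd 12 (RT.lf 4) (RT.nd 9 (RT.lf 1) (RT.lf 4))) (RT.lf 4)))) (RT.nd 8 (RT.nd 30 (RT.nd 9 (RT.nd 16 (RT.lf 3) (RT.lf 1)) (RT.lf 1)) (RT.lf 1)) (RT.lf 4))) (RT.nd 21 (RT.nd 9 (RT.nd 0 (RT.nd 6 (RT.lf 5) (RT.nd 8 (RT.nd 12 (RT.lf 5) (RT.lf 2)) (RT.nd 14 (RT.nd 12 (RT.lf 5) (RT.lf 2)) (RT.lf 5)))) (RT.lf 2)) (RT.nd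 14 (RT.nd 8 (RT.lf 2) (RT.lf 10)) (RT.lf 11))) (RT.nd 8 (RT.lf 1) (RT.lf 4)))))

/-- a part of the rank tree -/
def r1_5 : RT :=
  (RT.nd 25 (RT.nd 14 (RT.nd 12 (RT.lf 5) (RT.lf 2)) (RT.lf 5)) (RT.nd 14 (RT.nd 12 (RT.nd 0 (RT.lf 11) (RT.lf 10)) (RT.nd 23 (RT.nd 5 (RT.lf 10) (RT.lf 4)) (RT.lf 10))) (RT.nd 23 (RT.nd 5 (RT.lf 11) (RT.lf 4)) (RT.lf 11))))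

/-- a part of the rank tree -/
def r1_6 : RT :=
  (RT.nd 11 (RT.nd 21 (RT.nd 6 (RT.nd 3 (RT.nd 18 (RT.nd 28 (RT.nd 19 (RT.nd 30 (RT.lf 4) (RT.nd 29 (RT.lf 4) (RT.lf 1))) (RT.lf 1)) (RT.nd 26 (RT.nd 30 (RT.lf 4) (RT.lf 3)) (RT.lf 4))) (RT.nd 16 (RT.nd 26 (RT.lf 3) (RT.lf 4)) (RT.nd 26 (RT.lf 4) (RT.nd 30 (RT.nd 31 (RT.nd 33 (RT.lf 4) (RT.lf 1)) (RT.lf 3)) (RT.lf 4))))) (RT.nd 22 (RT.nd 12 (RT.nd 17 (RT.nd 27 (RT.nd 28 (RT.nd 18 (RT.nd 31 (RT.lf 5) (RT.nd 30 (RT.lf 11) (RT.lf 5))) (RT.lf 4)) (RT.lf 4)) (RT.lf 5)) (RT.nd 16 (RT.nd 27 (RT.lf 5) (RT.lf 11)) (RT.nd 31 (RT.nd 32 (RT.nd 26 (RT.nd 27 (RT.lf 5) (RT.lf 11)) (RT.lf 5)) (RT.lf 4)) (RT.lf 5)))) (RT.lf 4)) (RT.lf 4))) (RT.nd 19 (RT.nd 30 (RT.lf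 4) (RT.nd 12 (RT.lf 4) (RT.nd 27 (RT.nd 29 (RT.lf 4) (RT.lf 1)) (RT.nd 26 (RT.lf 3) (RT.lf 4))))) (RT.nd 16 (RT.nd 26 (RT.nd 17 (RT.nd 27 (RT.lf 1) (RT.lf 3)) (RT.lf 3)) (RT.lf 4)) (RT.nd 26 (RT.lf 4) (RT.nd 30 (RT.nd 31 (RT.nd 33 (RT.lf 4) (RT.lf 1)) (RT.lf 3)) (RT.lf 4)))))) (RT.nd 6 (RT.nd 12 (RT.lf 5) (RT.lf 11)) (RT.nd 12 (RT.lf 11) (RT.nd 16 (RT.nd 17 (RT.lf 10) (RT.lf 11)) (RT.lf 10))))) (RT.nd 21 (RT.nd 22 (RT.nd 6 (RT.lf 5) (RT.lf 11)) (RT.nd 27 (RT.lf 10) (RT.nd 31 (RT.nd 33 (RT.nd 6 (RT.lf 11) (RT.nd 26 (RT.lf 11) (RT.lf 10))) (RT.nd 26 (RT.lf 11) (RT.lf 8))) (RT.lf 4)))) (RT.nd 6 (RT.lf 11) (RT.lf 7))))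

/-- a part of the rank tree -/
def r1_7 : RT :=
  (RT.nd 11 (RT.nd 12 (RT.nd 22 (RT.lf 5) (RT.lf 11)) (RT.nd 19 (RT.nd 21 (RT.nd 22 (RT.lf 11) (RT.nd 31 (RT.lf 10) (RT.nd 30 (RT.nd 27 (RT.lf 11) (RT.lf 4)) (RT.nd 29 (RT.lf 10) (RT.lf 8))))) (RT.lf 7)) (RT.nd 26 (RT.lf 8) (RT.lf 11)))) (RT.nd 21 (RT.nd 29 (RT.nd 22 (RT.lf 11) (RT.nd 33 (RT.lf 7) (RT.lf 11))) (RT.nd 16 (RT.nd 33 (RT.lf 8) (RT.nd 27 (RT.nd 31 (RT.lf 1) (RT.lf 2)) (RT.lf 1))) (RT.lf 11))) (RT.nd 26 (RT.nd 27 (RT.nd 19 (RT.nd 29 (RT.nd 31 (RT.nd 34 (RT.lf 5) (RT.lf 2)) (RT.nd 32 (RT.lf 10) (RT.lf 5))) (RT.nd 30 (RT.lf 1) (RT.lf 7))) (RT.nd 31 (RT.nd 33 (RT.nd 16 (RT.nd 17 (RT.nd 29 (RT.lf 7) (RT.lf 2)) (RT.lf 1)) (RT.lf 2)) (RT.lf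 1)) (RT.lf 2))) (RT.nd 33 (RT.nd 16 (RT.lf 4) (RT.lf 10)) (RT.nd 17 (RT.lf 1) (RT.nd 16 (RT.lf 4) (RT.lf 1))))) (RT.nd 30 (RT.nd 33 (RT.nd 28 (RT.lf 10) (RT.lf 5)) (RT.nd 31 (RT.lf 7) (RT.lf 1))) (RT.nd 17 (RT.lf 2) (RT.nd 18 (RT.lf 10) (RT.nd 34 (RT.lf 2) (RT.lf 5))))))))

/-- a part of the rank tree -/
def r1_8 : RT :=
  (RT.nd 9 (RT.nd 16 (RT.nd 27 (RT.lf 1) (RT.lf 8)) (RT.nd 25 (RT.lf 7) (RT.nd 32 (RT.nd 26 (RT.lf 8) (RT.lf 2)) (RT.nd 23 (RT.nd 24 (RT.nd 31 (RT.lf 1) (RT.lf 2)) (RT.lf 1)) (RT.lf 2))))) (RT.nd 25 (RT.nd 7 (RT.nd 8 (RT.nd 17 (RT.nd 18 (RT.lf 2) (RT.lf 1)) (RT.lf 2)) (RT.lf 1)) (RT.lf 2)) (RT.nd 23 (RT.nd 24 (RT.nd 17 (RT.nd 7 (RT.nd 8 (RT.nd 27 (RT.nd 28 (RT.nd 18 (RT.nd 31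 (RT.lf 5) (RT.nd 30 (RT.lf 11) (RT.lf 5))) (RT.lf 4)) (RT.lf 4)) (RT.lf 5)) (RT.lf 4)) (RT.lf 5)) (RT.nd 16 (RT.nd 27 (RT.lf 5) (RT.lf 11)) (RT.nd 31 (RT.nd 32 (RT.nd 26 (RT.nd 27 (RT.lf 5) (RT.lf 11)) (RT.lf 5)) (RT.lf 4)) (RT.lf 5)))) (RT.nd 7 (RT.lf 4) (RT.lf 11))) (RT.nd 8 (RT.lf 5) (RT.lf 11)))))

/-- a part of the rank tree -/
def r1_9 : RT :=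
  (RT.nd 7 (RT.nd 23 (RT.nd 0 (RT.nd 22 (RT.lf 4) (RT.nd 24 (RT.nd 9 (RT.nd 6 (RT.lf 4) (RT.lf 1)) (RT.lf 4)) (RT.nd 18 (RT.nd 17 (RT.nd 30 (RT.lf 4) (RT.nd 26 (RT.nd 27 (RT.lf 4) (RT.lf 1)) (RT.lf 4))) (RT.nd 26 (RT.lf 1) (RT.lf 4))) (RT.nd 26 (RT.lf 4) (RT.nd 30 (RT.nd 31 (RT.nd 8 (RT.nd 6 (RT.lf 4) (RT.nd 25 (RT.lf 1) (RT.lf 4))) (RT.lf 4)) (RT.lf 1)) (RT.lf 4)))))) (RT.nd 24 (RT.nd 8 (RT.nd 25 (RT.lf 1) (RT.nd 9 (RT.lf 1) (RT.lf 4))) (RT.lf 4)) (RT.nd 26 (RT.nd 27 (RT.nd 17 (RT.nd 18 (RT.nd 30 (RT.lf 4) (RT.nd 28 (RT.lf 4) (RT.lf 1))) (RT.lf 1)) (RT.nd 16 (RT.lf 3) (RT.lf 4))) (RT.nd 16 (RT.lf 3) (RT.nd 31 (RT.lf 4) (RT.lf 3)))) (RT.nd 30 (RT.nd 32 (RT.lf 4) (RT.nd 31 (RT.lf 1) (RT.lf 3)))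 (RT.lf 4))))) (RT.nd 21 (RT.nd 17 (RT.lf 10) (RT.nd 16 (RT.nd 18 (RT.lf 10) (RT.lf 11)) (RT.nd 0 (RT.nd 8 (RT.lf 10) (RT.nd 9 (RT.lf 11) (RT.lf 10))) (RT.nd 8 (RT.nd 9 (RT.lf 10) (RT.lf 11)) (RT.lf 10))))) (RT.lf 4))) (RT.nd 5 (RT.nd 23 (RT.nd 17 (RT.nd 18 (RT.nd 30 (RT.nd 31 (RT.nd 24 (RT.nd 25 (RT.lf 10) (RT.lf 11)) (RT.nd 25 (RT.lf 11) (RT.lf 10))) (RT.nd 32 (RT.nd 25 (RT.lf 11) (RT.lf 10)) (RT.nd 27 (RT.lf 11) (RT.nd 0 (RT.lf 11) (RT.lf 3))))) (RT.nd 27 (RT.nd 28 (RT.lf 10) (RT.lf 8)) (RT.lf 8))) (RT.lf 8)) (RT.lf 8)) (RT.nd 17 (RT.nd 18 (RT.nd 21 (RT.lf 7) (RT.lf 8)) (RT.nd 26 (RT.lf 8) (RT.lf 11))) (RT.nd 26 (RT.lf 8) (RT.lf 11)))) (RT.nd 28 (RT.nd 23 (RT.lf 4) (RT.nd 21 (RT.lf 1) (RT.lf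 4))) (RT.lf 10))))

/-- a part of the rank tree -/
def r1_10 : RT :=
  (RT.nd 9 (RT.nd 25 (RT.nd 0 (RT.nd 6 (RT.lf 5) (RT.nd 22 (RT.lf 5) (RT.nd 8 (RT.lf 2) (RT.nd 24 (RT.lf 2) (RT.lf 5))))) (RT.lf 2)) (RT.nd 8 (RT.nd 24 (RT.lf 2) (RT.lf 10)) (RT.lf 11))) (RT.nd 24 (RT.nd 8 (RT.nd 25 (RT.lf 2) (RT.lf 5)) (RT.nd 22 (RT.nd 25 (RT.nd 0 (RT.lf 11) (RT.lf 10)) (RT.lf 11)) (RT.lf 10))) (RT.nd 7 (RT.nd 26 (RT.nd 25 (RT.lf 11) (RT.nd 27 (RT.lf 10) (RT.nd 28 (RT.lf 10) (RT.nd 31 (RT.lf 11) (RT.nd 0 (RT.lf 11) (RT.lf 3)))))) (RT.nd 8 (RT.lf 11) (RT.nd 31 (RT.nd 32 (RT.lf 10) (RT.lf 8)) (RT.lf 8)))) (RT.nd 25 (RT.lf 11) (RT.nd 31 (RT.nd 5 (RT.nd 28 (RT.nd 27 (RT.nd 32 (RT.lf 7) (RT.lf 11)) (RT.nd 16 (RT.lf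 8) (RT.lf 11))) (RT.nd 16 (RT.nd 32 (RT.lf 8) (RT.lf 1)) (RT.lf 11))) (RT.nd 34 (RT.lf 1) (RT.lf 8))) (RT.nd 27 (RT.nd 18 (RT.lf 11) (RT.lf 2)) (RT.nd 28 (RT.nd 32 (RT.lf 1) (RT.lf 2)) (RT.lf 1))))))))

/-- a part of the rank tree -/
def r1_11 : RT :=
  (RT.nd 7 (RT.nd 9 (RT.nd 8 (RT.nd 6 (RT.nd 0 (RT.lf 11) (RT.lf 10)) (RT.lf 10)) (RT.lf 11)) (RT.nd 8 (RT.lf 11) (RT.nd 21 (RT.lf 7) (RT.nd 34 (RT.lf 8) (RT.lf 1))))) (RT.nd 21 (RT.nd 26 (RT.nd 27 (RT.nd 18 (RT.nd 5 (RT.nd 28 (RT.nd 34 (RT.nd 17 (RT.lf 5) (RT.lf 7)) (RT.nd 33 (RT.nd 31 (RT.lf 2) (RT.nd 32 (RT.lf 2) (RT.lf 10))) (RT.lf 5))) (RT.nd 30 (RT.lf 1) (RT.lf 7))) (RT.nd 31 (RT.nd 17 (RT.nd 34 (RT.lf 4) (RT.lf 1)) (RT.lf 1)) (RT.nd 30 (RT.lf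 4) (RT.nd 33 (RT.lf 10) (RT.lf 4))))) (RT.nd 16 (RT.nd 17 (RT.nd 28 (RT.lf 7) (RT.nd 31 (RT.nd 32 (RT.lf 2) (RT.lf 1)) (RT.lf 2))) (RT.lf 1)) (RT.nd 32 (RT.lf 2) (RT.lf 1)))) (RT.nd 28 (RT.nd 17 (RT.nd 30 (RT.lf 1) (RT.nd 5 (RT.lf 7) (RT.lf 1))) (RT.nd 5 (RT.nd 32 (RT.nd 31 (RT.nd 16 (RT.nd 18 (RT.lf 2) (RT.lf 1)) (RT.lf 2)) (RT.lf 1)) (RT.lf 2)) (RT.lf 1))) (RT.nd 31 (RT.nd 16 (RT.lf 4) (RT.nd 32 (RT.lf 10) (RT.lf 1))) (RT.nd 17 (RT.lf 1) (RT.nd 30 (RT.lf 1) (RT.nd 18 (RT.lf 1) (RT.lf 4))))))) (RT.nd 30 (RT.nd 31 (RT.nd 32 (RT.nd 29 (RT.lf 10) (RT.lf 5)) (RT.lf 7)) (RT.nd 32 (RT.lf 7) (RT.lf 1))) (RT.nd 19 (RT.nd 17 (RT.lf 2) (RT.nd 18 (RT.lf 2) (RT.lf 10))) (RT.nd 34 (RT.lf 2) (RT.lf 5)))))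 (RT.nd 34 (RT.lf 1) (RT.nd 18 (RT.nd 5 (RT.lf 1) (RT.nd 28 (RT.nd 33 (RT.lf 10) (RT.nd 26 (RT.nd 27 (RT.lf 4) (RT.lf 1)) (RT.lf 4))) (RT.lf 10))) (RT.nd 16 (RT.lf 4) (RT.nd 19 (RT.lf 10) (RT.lf 4)))))))

/-- a part of the rank tree -/
def r1_12 : RT :=
  (RT.nd 23 (RT.nd 7 (RT.nd 8 (RT.nd 24 (RT.lf 1) (RT.lf 4)) (RT.lf 4)) (RT.nd 25 (RT.nd 24 (RT.nd 22 (RT.lf 11) (RT.lf 10)) (RT.lf 11)) (RT.nd 5 (RT.nd 27 (RT.lf 8) (RT.lf 11)) (RT.nd 18 (RT.nd 34 (RT.lf 4) (RT.lf 10)) (RT.lf 10))))) (RT.nd 9 (RT.nd 6 (RT.lf 11) (RT.nd 8 (RT.lf 10) (RT.lf 11))) (RT.nd 5 (RT.nd 32 (RT.nd 29 (RT.nd 26 (RT.nd 27 (RT.lf 1) (RT.lf 4)) (RT.lf 10)) (RT.nd 21 (RT.nd 7 (RT.lf 1) (RT.nd 31 (RT.lf 4) (RT.lf 1))) (RT.nd 7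 (RT.lf 4) (RT.nd 30 (RT.nd 31 (RT.lf 4) (RT.lf 1)) (RT.lf 4))))) (RT.nd 19 (RT.lf 10) (RT.nd 34 (RT.lf 10) (RT.lf 4)))) (RT.nd 18 (RT.nd 34 (RT.nd 17 (RT.lf 4) (RT.nd 16 (RT.lf 1) (RT.nd 21 (RT.lf 4) (RT.nd 26 (RT.lf 1) (RT.lf 4))))) (RT.nd 33 (RT.nd 30 (RT.nd 21 (RT.lf 10) (RT.lf 9)) (RT.nd 26 (RT.nd 32 (RT.lf 10) (RT.lf 7)) (RT.lf 10))) (RT.nd 28 (RT.nd 16 (RT.nd 27 (RT.lf 4) (RT.lf 1)) (RT.lf 4)) (RT.nd 16 (RT.lf 9) (RT.lf 10))))) (RT.nd 29 (RT.nd 19 (RT.nd 26 (RT.lf 9) (RT.nd 28 (RT.lf 10) (RT.nd 32 (RT.lf 9) (RT.nd 33 (RT.lf 10) (RT.lf 9))))) (RT.nd 26 (RT.nd 21 (RT.lf 10) (RT.lf 9)) (RT.nd 28 (RT.lf 10) (RT.nd 30 (RT.lf 7) (RT.lf 10))))) (RT.nd 32 (RT.nd 31 (RT.lf 4) (RT.lf 1)) (RT.nd 34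 (RT.lf 9) (RT.nd 19 (RT.lf 7) (RT.lf 4)))))))))

/-- a part of the rank tree -/
def r1_13 : RT :=
  (RT.nd 1 (RT.nd 7 (RT.nd 23 (RT.nd 9 (RT.nd 24 (RT.lf 1) (RT.lf 4)) (RT.lf 4)) (RT.nd 8 (RT.nd 9 (RT.lf 10) (RT.lf 11)) (RT.lf 1))) (RT.nd 23 (RT.nd 25 (RT.lf 10) (RT.nd 28 (RT.nd 24 (RT.lf 11) (RT.lf 8)) (RT.lf 11))) (RT.nd 27 (RT.lf 1) (RT.nd 32 (RT.nd 26 (RT.lf 4) (RT.nd 29 (RT.lf 10) (RT.lf 4))) (RT.lf 1))))) (RT.nd 28 (RT.lf 10) (RT.nd 26 (RT.nd 32 (RT.lf 11) (RT.lf 4)) (RT.nd 33 (RT.lf 10) (RT.lf 8)))))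

/-- a part of the rank tree -/
def r1_14 : RT :=
  (RT.nd 21 (RT.nd 5 (RT.nd 13 (RT.lf 4) (RT.nd 0 (RT.nd 22 (RT.lf 4) (RT.nd 15 (RT.nd 14 (RT.nd 6 (RT.lf 3) (RT.lf 4)) (RT.lf 3)) (RT.nd 27 (RT.nd 23 (RT.nd 7 (RT.nd 8 (RT.nd 1 (RT.lf 1) (RT.lf 4)) (RT.lf 3)) (RT.lf 4)) (RT.lf 1)) (RT.nd 24 (RT.nd 1 (RT.lf 1) (RT.lf 4)) (RT.nd 23 (RT.nd 7 (RT.lf 3) (RT.lf 4)) (RT.nd 26 (RT.lf 3) (RT.lf 4))))))) (RT.nd 12 (RT.nd 7 (RT.nd 8 (RT.nd 23 (RT.nd 1 (RT.nd 24 (RT.lf 1) (RT.lf 3)) (RT.nd 14 (RT.nd 15 (RT.lf 4) (RT.lf 3)) (RT.lf 4))) (RT.lf 4)) (RT.lf 3)) (RT.nd 28 (RT.nd 23 (RT.lf 4) (RT.lf 1)) (RT.nd 26 (RT.nd 23 (RT.lf 4) (RT.lf 3)) (RT.lf 4)))) (RT.nd 23 (RT.nd 1 (RT.nd 8 (RT.lf 0) (RT.nd 7 (RT.lf 3)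 (RT.nd 19 (RT.lf 3) (RT.lf 0)))) (RT.lf 3)) (RT.lf 0))))) (RT.nd 18 (RT.nd 23 (RT.lf 3) (RT.lf 0)) (RT.nd 13 (RT.nd 29 (RT.nd 22 (RT.lf 11) (RT.lf 8)) (RT.lf 11)) (RT.nd 14 (RT.lf 4) (RT.nd 1 (RT.nd 23 (RT.nd 27 (RT.nd 22 (RT.lf 11) (RT.nd 24 (RT.lf 10) (RT.lf 11))) (RT.lf 4)) (RT.nd 19 (RT.lf 0) (RT.lf 8))) (RT.nd 15 (RT.lf 0) (RT.lf 1))))))) (RT.nd 14 (RT.nd 27 (RT.lf 1) (RT.nd 28 (RT.nd 13 (RT.nd 26 (RT.lf 4) (RT.lf 10)) (RT.nd 18 (RT.nd 26 (RT.lf 3) (RT.lf 4)) (RT.lf 4))) (RT.nd 13 (RT.nd 6 (RT.lf 11) (RT.nd 5 (RT.lf 1) (RT.nd 33 (RT.lf 4) (RT.lf 1)))) (RT.lf 4)))) (RT.nd 1 (RT.nd 5 (RT.nd 7 (RT.nd 6 (RT.lf 11) (RT.nd 8 (RT.lf 10) (RT.lf 11))) (RT.lf 10)) (RT.nd 19 (RT.nd 26 (RT.lf 0) (RT.lf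 8)) (RT.lf 7))) (RT.nd 15 (RT.lf 0) (RT.lf 1)))))

/-- a part of the rank tree -/
def r1_15 : RT :=
  (RT.nd 11 (RT.nd 7 (RT.nd 10 (RT.nd 19 (RT.nd 32 (RT.lf 10) (RT.nd 30 (RT.nd 28 (RT.lf 11) (RT.lf 4)) (RT.nd 29 (RT.lf 10) (RT.lf 8)))) (RT.lf 8)) (RT.nd 29 (RT.nd 33 (RT.lf 7) (RT.lf 11)) (RT.nd 33 (RT.nd 16 (RT.lf 8) (RT.lf 11)) (RT.nd 28 (RT.nd 32 (RT.lf 1) (RT.lf 2)) (RT.lf 1))))) (RT.nd 13 (RT.nd 23 (RT.nd 15 (RT.nd 24 (RT.lf 1) (RT.lf 4)) (RT.lf 4)) (RT.nd 14 (RT.nd 15 (RT.lf 10) (RT.lf 11)) (RT.lf 1))) (RT.nd 24 (RT.nd 25 (RT.lf 10) (RT.lf 11)) (RT.nd 10 (RT.nd 18 (RT.nd 23 (RT.nd 32 (RT.nd 34 (RT.lf 1) (RT.lf 8)) (RT.lf 11)) (RT.nd 28 (RT.nd 30 (RT.nd 31 (RT.nd 34 (RT.lf 4) (RT.lf 1))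 (RT.lf 4)) (RT.nd 33 (RT.lf 10) (RT.lf 4))) (RT.lf 1))) (RT.lf 1)) (RT.nd 17 (RT.nd 34 (RT.nd 23 (RT.lf 4) (RT.nd 16 (RT.nd 18 (RT.lf 4) (RT.lf 1)) (RT.lf 4))) (RT.lf 10)) (RT.lf 10)))))) (RT.nd 28 (RT.nd 23 (RT.nd 24 (RT.nd 1 (RT.nd 25 (RT.lf 10) (RT.lf 11)) (RT.nd 13 (RT.nd 29 (RT.lf 8) (RT.lf 11)) (RT.nd 17 (RT.lf 3) (RT.nd 12 (RT.nd 14 (RT.lf 0) (RT.lf 1)) (RT.lf 0))))) (RT.lf 3)) (RT.nd 19 (RT.lf 0) (RT.nd 12 (RT.lf 8) (RT.lf 0)))) (RT.nd 13 (RT.lf 11) (RT.lf 4))))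

/-- a part of the rank tree -/
def r1_16 : RT :=
  (RT.nd 13 (RT.nd 11 (RT.nd 10 (RT.lf 4) (RT.nd 34 (RT.lf 1) (RT.nd 33 (RT.lf 8) (RT.lf 11)))) (RT.nd 10 (RT.nd 34 (RT.nd 22 (RT.lf 11) (RT.lf 1)) (RT.nd 33 (RT.nd 22 (RT.lf 11) (RT.lf 8)) (RT.lf 11))) (RT.nd 17 (RT.nd 34 (RT.nd 19 (RT.nd 0 (RT.nd 22 (RT.lf 11) (RT.lf 4)) (RT.lf 4)) (RT.lf 4)) (RT.nd 0 (RT.nd 22 (RT.lf 11) (RT.lf 10)) (RT.lf 10))) (RT.nd 0 (RT.nd 22 (RT.lf 11) (RT.lf 10)) (RT.lf 10))))) (RT.nd 17 (RT.lf 3) (RT.nd 14 (RT.nd 0 (RT.nd 29 (RT.lf 11) (RT.lf 4)) (RT.lf 3)) (RT.nd 15 (RT.lf 3) (RT.nd 0 (RT.lf 4) (RT.nd 12 (RT.lf 4) (RT.lf 3)))))))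

/-- a part of the rank tree -/
def r1_17 : RT :=
  (RT.nd 14 (RT.nd 8 (RT.nd 9 (RT.nd 10 (RT.nd 30 (RT.nd 34 (RT.nd 11 (RT.lf 3) (RT.lf 4)) (RT.lf 4)) (RT.lf 3)) (RT.nd 33 (RT.lf 11) (RT.lf 4))) (RT.nd 10 (RT.lf 3) (RT.nd 11 (RT.lf 0) (RT.lf 3)))) (RT.nd 9 (RT.nd 11 (RT.lf 3) (RT.nd 10 (RT.lf 0) (RT.lf 3))) (RT.nd 3 (RT.nd 6 (RT.nd 24 (RT.nd 1 (RT.lf 1) (RT.nd 10 (RT.lf 4) (RT.nd 11 (RT.lf 1) (RT.lf 4)))) (RT.nd 23 (RT.lf 3) (RT.lf 4))) (RT.nd 1 (RT.lf 0) (RT.nd 10 (RT.lf 3) (RT.nd 11 (RT.lf 0) (RT.lf 3))))) (RT.nd 24 (RT.nd 1 (RT.lf 1) (RT.nd 11 (RT.lf 4) (RT.nd 10 (RT.lf 1) (RT.lf 4)))) (RT.nd 23 (RT.lf 3) (RT.lf 4)))))) (RT.nd 23 (RT.lf 3) (RT.nd 0 (RT.lf 4) (RT.lf 0))))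

/-- a part of the rank tree -/
def r1_18 : RT :=
  (RT.nd 24 (RT.nd 8 (RT.nd 0 (RT.nd 22 (RT.lf 4) (RT.nd 15 (RT.lf 3) (RT.lf 4))) (RT.nd 14 (RT.lf 3) (RT.lf 4))) (RT.nd 9 (RT.lf 3) (RT.nd 22 (RT.nd 0 (RT.nd 1 (RT.nd 10 (RT.nd 11 (RT.lf 4) (RT.lf 11)) (RT.lf 4)) (RT.nd 16 (RT.lf 11) (RT.nd 17 (RT.lf 4) (RT.lf 11)))) (RT.nd 25 (RT.nd 10 (RT.lf 4) (RT.nd 11 (RT.lf 10) (RT.nd 1 (RT.lf 4) (RT.nd 14 (RT.lf 4) (RT.lf 10))))) (RT.nd 11 (RT.nd 10 (RT.lf 4) (RT.nd 32 (RT.lf 11) (RT.lf 4))) (RT.lf 4)))) (RT.nd 11 (RT.lf 4) (RT.nd 10 (RT.lf 10) (RT.nd 1 (RT.lf 4) (RT.nd 14 (RT.lf 4) (RT.lf 10)))))))) (RT.nd 25 (RT.nd 10 (RT.nd 11 (RT.lf 4) (RT.nd 31 (RT.lf 11) (RT.lf 4))) (RT.lf 4)) (RT.nd 11 (RT.nd 10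 (RT.nd 31 (RT.nd 34 (RT.nd 0 (RT.lf 4) (RT.nd 6 (RT.lf 4) (RT.lf 0))) (RT.nd 0 (RT.lf 1) (RT.nd 6 (RT.lf 1) (RT.lf 0)))) (RT.nd 30 (RT.nd 23 (RT.lf 4) (RT.lf 3)) (RT.nd 0 (RT.lf 4) (RT.nd 6 (RT.lf 4) (RT.lf 0))))) (RT.nd 6 (RT.nd 34 (RT.lf 10) (RT.lf 8)) (RT.nd 23 (RT.lf 3) (RT.lf 0)))) (RT.nd 10 (RT.nd 34 (RT.lf 10) (RT.lf 8)) (RT.nd 23 (RT.lf 3) (RT.nd 0 (RT.nd 16 (RT.lf 4) (RT.nd 18 (RT.lf 3) (RT.lf 4))) (RT.nd 6 (RT.nd 12 (RT.nd 16 (RT.lf 4) (RT.nd 17 (RT.lf 3) (RT.lf 4))) (RT.lf 3)) (RT.lf 3))))))))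

/-- a part of the rank tree -/
def r1_19 : RT :=
  (RT.nd 1 (RT.nd 10 (RT.nd 11 (RT.nd 13 (RT.nd 12 (RT.lf 11) (RT.nd 14 (RT.lf 10) (RT.lf 11))) (RT.lf 10)) (RT.lf 7)) (RT.nd 16 (RT.lf 1) (RT.nd 18 (RT.lf 0) (RT.lf 1)))) (RT.nd 13 (RT.nd 8 (RT.nd 10 (RT.nd 29 (RT.nd 12 (RT.nd 7 (RT.lf 11) (RT.lf 4)) (RT.nd 31 (RT.nd 34 (RT.nd 19 (RT.lf 4) (RT.lf 1)) (RT.lf 1)) (RT.nd 11 (RT.lf 1) (RT.nd 7 (RT.nd 30 (RT.lf 4) (RT.nd 32 (RT.lf 10) (RT.lf 4))) (RT.lf 4))))) (RT.lf 1)) (RT.nd 34 (RT.nd 17 (RT.nd 16 (RT.nd 19 (RT.nd 7 (RT.lf 4) (RT.lf 10)) (RT.lf 1)) (RT.lf 4)) (RT.lf 10)) (RT.nd 7 (RT.lf 10) (RT.lf 8)))) (RT.nd 9 (RT.lf 0) (RT.lf 1))) (RT.nd 7 (RT.nd 15 (RT.nd 18 (RT.lf 0) (RT.nd 14 (RT.lf 8) (RT.lf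 0))) (RT.lf 1)) (RT.nd 15 (RT.nd 14 (RT.nd 9 (RT.nd 8 (RT.nd 16 (RT.lf 4) (RT.nd 17 (RT.lf 3) (RT.lf 4))) (RT.lf 3)) (RT.lf 4)) (RT.lf 3)) (RT.nd 8 (RT.lf 4) (RT.lf 10))))))

/-- a part of the rank tree -/
def r1_20 : RT :=
  (RT.nd 5 (RT.nd 10 (RT.nd 4 (RT.nd 16 (RT.nd 18 (RT.lf 10) (RT.lf 11)) (RT.lf 10)) (RT.nd 19 (RT.lf 7) (RT.nd 26 (RT.lf 8) (RT.lf 11)))) (RT.nd 4 (RT.nd 11 (RT.lf 7) (RT.lf 1)) (RT.nd 18 (RT.nd 29 (RT.nd 32 (RT.nd 34 (RT.nd 19 (RT.lf 5) (RT.lf 7)) (RT.lf 2)) (RT.nd 31 (RT.lf 10) (RT.lf 5))) (RT.nd 26 (RT.nd 28 (RT.nd 19 (RT.nd 30 (RT.lf 1) (RT.lf 7)) (RT.nd 32 (RT.nd 33 (RT.lf 2) (RT.lf 1)) (RT.lf 2))) (RT.lf 1)) (RT.lf 2))) (RT.nd 28 (RT.nd 11 (RT.nd 16 (RT.lf 1) (RT.nd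 33 (RT.lf 2) (RT.lf 1))) (RT.lf 1)) (RT.nd 17 (RT.nd 26 (RT.nd 16 (RT.lf 4) (RT.nd 11 (RT.lf 10) (RT.lf 4))) (RT.lf 10)) (RT.nd 33 (RT.nd 27 (RT.nd 11 (RT.lf 10) (RT.nd 26 (RT.lf 4) (RT.lf 10))) (RT.nd 11 (RT.lf 5) (RT.lf 4))) (RT.nd 30 (RT.nd 32 (RT.nd 11 (RT.nd 26 (RT.lf 1) (RT.lf 7)) (RT.lf 1)) (RT.lf 1)) (RT.nd 34 (RT.lf 2) (RT.lf 5))))))))) (RT.nd 17 (RT.nd 16 (RT.nd 19 (RT.nd 11 (RT.nd 10 (RT.lf 1) (RT.nd 29 (RT.nd 30 (RT.nd 32 (RT.nd 34 (RT.lf 4) (RT.lf 1)) (RT.lf 4)) (RT.nd 31 (RT.lf 10) (RT.lf 4))) (RT.lf 1))) (RT.nd 34 (RT.lf 4) (RT.lf 10))) (RT.lf 1)) (RT.lf 4)) (RT.lf 10)))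

/-- a part of the rank tree -/
def r1_21 : RT :=
  (RT.nd 11 (RT.nd 5 (RT.nd 4 (RT.lf 4) (RT.nd 19 (RT.lf 8) (RT.lf 11))) (RT.nd 27 (RT.nd 29 (RT.nd 0 (RT.nd 12 (RT.lf 11) (RT.lf 4)) (RT.lf 4)) (RT.lf 4)) (RT.nd 4 (RT.nd 19 (RT.nd 12 (RT.lf 11) (RT.lf 8)) (RT.lf 11)) (RT.nd 0 (RT.nd 12 (RT.lf 11) (RT.lf 10)) (RT.lf 10))))) (RT.nd 5 (RT.nd 6 (RT.lf 11) (RT.nd 34 (RT.lf 8) (RT.lf 1))) (RT.nd 34 (RT.lf 1) (RT.nd 17 (RT.nd 4 (RT.lf 1) (RT.nd 27 (RT.nd 32 (RT.lf 10) (RT.nd 26 (RT.nd 29 (RT.lf 4) (RT.lf 1)) (RT.lf 4))) (RT.lf 10))) (RT.nd 16 (RT.lf 4) (RT.nd 18 (RT.lf 10) (RT.lf 4)))))))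

/-- a part of the rank tree -/
def r1_22 : RT :=
  (RT.nd 5 (RT.nd 0 (RT.nd 6 (RT.lf 11) (RT.nd 31 (RT.lf 4) (RT.nd 34 (RT.lf 10) (RT.lf 4)))) (RT.nd 11 (RT.nd 34 (RT.nd 4 (RT.lf 8) (RT.lf 1)) (RT.nd 18 (RT.lf 1) (RT.nd 16 (RT.lf 4) (RT.nd 17 (RT.lf 10) (RT.nd 4 (RT.lf 1) (RT.lf 4)))))) (RT.nd 17 (RT.lf 10) (RT.nd 27 (RT.lf 10) (RT.nd 31 (RT.nd 4 (RT.lf 4) (RT.nd 30 (RT.nd 33 (RT.lf 4) (RT.lf 1)) (RT.lf 4))) (RT.nd 34 (RT.lf 10) (RT.lf 4))))))) (RT.nd 26 (RT.nd 30 (RT.nd 19 (RT.nd 34 (RT.lf 4) (RT.lf 9)) (RT.nd 17 (RT.nd 18 (RT.lf 1) (RT.lf 9)) (RT.lf 9))) (RT.nd 31 (RT.nd 32 (RT.lf 10) (RT.nd 11 (RT.lf 10) (RT.lf 7))) (RT.nd 29 (RT.nd 32 (RT.lf 7) (RT.lf 4)) (RT.nd 32 (RT.lf 7) (RT.lf 1)))))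 (RT.nd 28 (RT.nd 27 (RT.nd 31 (RT.nd 17 (RT.nd 30 (RT.nd 18 (RT.lf 4) (RT.lf 10)) (RT.lf 10)) (RT.lf 10)) (RT.nd 32 (RT.lf 10) (RT.nd 11 (RT.lf 4) (RT.nd 16 (RT.lf 1) (RT.lf 4))))) (RT.nd 18 (RT.nd 4 (RT.lf 10) (RT.nd 31 (RT.lf 9) (RT.nd 32 (RT.lf 10) (RT.nd 16 (RT.lf 9) (RT.nd 17 (RT.lf 10) (RT.lf 9)))))) (RT.nd 30 (RT.nd 4 (RT.lf 10) (RT.lf 7)) (RT.lf 10)))) (RT.nd 17 (RT.nd 11 (RT.lf 10) (RT.nd 16 (RT.nd 31 (RT.lf 10) (RT.lf 9)) (RT.nd 18 (RT.lf 10) (RT.nd 27 (RT.nd 32 (RT.lf 9) (RT.nd 31 (RT.lf 10) (RT.lf 9))) (RT.lf 7))))) (RT.nd 27 (RT.nd 30 (RT.lf 7) (RT.lf 10)) (RT.nd 31 (RT.nd 33 (RT.lf 4) (RT.nd 32 (RT.nd 4 (RT.nd 30 (RT.lf 1) (RT.lf 4)) (RT.lf 1)) (RT.lf 9))) (RT.nd 34 (RT.nd 4 (RT.lf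 10) (RT.lf 9)) (RT.nd 18 (RT.nd 4 (RT.lf 10) (RT.lf 7)) (RT.lf 4)))))))))

/-- a part of the rank tree -/
def r1_23 : RT :=
  (RT.nd 9 (RT.nd 11 (RT.nd 21 (RT.nd 32 (RT.nd 34 (RT.lf 4) (RT.lf 1)) (RT.lf 4)) (RT.nd 0 (RT.nd 8 (RT.lf 11) (RT.lf 3)) (RT.lf 10))) (RT.nd 8 (RT.nd 10 (RT.lf 10) (RT.nd 21 (RT.nd 34 (RT.lf 10) (RT.lf 8)) (RT.lf 7))) (RT.lf 0))) (RT.nd 8 (RT.nd 10 (RT.nd 21 (RT.lf 0) (RT.lf 3)) (RT.lf 0)) (RT.nd 6 (RT.nd 10 (RT.nd 21 (RT.lf 1) (RT.lf 4)) (RT.lf 1)) (RT.nd 0 (RT.nd 11 (RT.lf 4) (RT.lf 1)) (RT.nd 10 (RT.nd 21 (RT.lf 0) (RT.lf 3)) (RT.lf 0))))))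

/-- a part of the rank tree -/
def r1_24 : RT :=
  (RT.nd 9 (RT.nd 15 (RT.nd 26 (RT.nd 21 (RT.nd 7 (RT.nd 5 (RT.nd 28 (RT.lf 1) (RT.nd 17 (RT.lf 3) (RT.lf 4))) (RT.nd 17 (RT.lf 0) (RT.lf 8))) (RT.nd 16 (RT.lf 4) (RT.nd 18 (RT.lf 3) (RT.lf 4)))) (RT.nd 7 (RT.nd 18 (RT.lf 0) (RT.nd 14 (RT.nd 17 (RT.lf 0) (RT.lf 7)) (RT.lf 0))) (RT.nd 8 (RT.nd 14 (RT.nd 16 (RT.lf 1) (RT.nd 17 (RT.nd 18 (RT.lf 0) (RT.lf 1)) (RT.lf 1))) (RT.lf 0)) (RT.nd 14 (RT.lf 0) (RT.lf 3))))) (RT.nd 5 (RT.nd 21 (RT.lf 4) (RT.nd 0 (RT.nd 6 (RT.lf 11) (RT.lf 3)) (RT.lf 10))) (RT.nd 4 (RT.nd 14 (RT.lf 10) (RT.lf 0)) (RT.nd 14 (RT.nd 17 (RT.lf 8) (RT.nd 18 (RT.lf 8) (RT.lf 7))) (RT.lf 0))))) (RT.nd 14 (RT.nd 7 (RT.nd 4 (RT.nd 21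 (RT.lf 0) (RT.lf 3)) (RT.lf 0)) (RT.nd 21 (RT.lf 3) (RT.lf 0))) (RT.nd 12 (RT.nd 4 (RT.nd 21 (RT.lf 1) (RT.lf 4)) (RT.nd 7 (RT.lf 1) (RT.nd 21 (RT.lf 4) (RT.lf 1)))) (RT.nd 0 (RT.nd 5 (RT.lf 4) (RT.nd 8 (RT.lf 1) (RT.lf 9))) (RT.nd 4 (RT.nd 21 (RT.lf 0) (RT.lf 3)) (RT.lf 0)))))) (RT.nd 21 (RT.nd 14 (RT.nd 8 (RT.lf 3) (RT.lf 4)) (RT.lf 10)) (RT.nd 15 (RT.nd 8 (RT.lf 0) (RT.nd 14 (RT.lf 1) (RT.lf 9))) (RT.nd 0 (RT.lf 9) (RT.nd 6 (RT.nd 8 (RT.nd 14 (RT.lf 3) (RT.nd 12 (RT.lf 9) (RT.lf 3))) (RT.nd 12 (RT.lf 9) (RT.lf 3))) (RT.lf 3))))))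

/-- a part of the rank tree -/
def r1_25 : RT :=
  (RT.nd 10 (RT.nd 13 (RT.nd 7 (RT.nd 15 (RT.nd 8 (RT.lf 1) (RT.lf 4)) (RT.lf 4)) (RT.nd 15 (RT.lf 10) (RT.nd 18 (RT.nd 14 (RT.lf 11) (RT.lf 8)) (RT.lf 11)))) (RT.nd 8 (RT.nd 9 (RT.lf 10) (RT.lf 11)) (RT.nd 34 (RT.nd 7 (RT.lf 8) (RT.lf 1)) (RT.nd 17 (RT.lf 1) (RT.nd 16 (RT.lf 4) (RT.nd 19 (RT.lf 10) (RT.nd 7 (RT.lf 1) (RT.lf 4)))))))) (RT.nd 8 (RT.nd 9 (RT.lf 10) (RT.lf 11)) (RT.nd 12 (RT.nd 29 (RT.lf 10) (RT.nd 31 (RT.nd 11 (RT.nd 7 (RT.lf 4) (RT.nd 30 (RT.nd 32 (RT.lf 4) (RT.lf 1)) (RT.lf 4))) (RT.lf 10)) (RT.nd 34 (RT.lf 10) (RT.nd 19 (RT.lf 10) (RT.lf 4))))) (RT.nd 7 (RT.lf 3) (RT.lf 0)))))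

/-- a part of the rank tree -/
def r1_26 : RT :=
  (RT.nd 10 (RT.nd 13 (RT.nd 7 (RT.nd 1 (RT.nd 14 (RT.nd 8 (RT.nd 0 (RT.lf 1) (RT.nd 22 (RT.lf 1) (RT.nd 16 (RT.nd 17 (RT.lf 0) (RT.lf 3)) (RT.lf 0)))) (RT.lf 3)) (RT.lf 3)) (RT.nd 0 (RT.nd 25 (RT.nd 24 (RT.nd 6 (RT.nd 34 (RT.lf 4) (RT.lf 3)) (RT.lf 4)) (RT.lf 3)) (RT.lf 4)) (RT.nd 22 (RT.nd 24 (RT.nd 25 (RT.lf 4) (RT.lf 3)) (RT.lf 4)) (RT.lf 3)))) (RT.nd 29 (RT.lf 3) (RT.nd 0 (RT.lf 4) (RT.nd 22 (RT.lf 4) (RT.lf 0))))) (RT.nd 16 (RT.nd 17 (RT.nd 0 (RT.lf 1) (RT.nd 22 (RT.lf 1) (RT.lf 0))) (RT.lf 3)) (RT.nd 34 (RT.nd 7 (RT.nd 33 (RT.lf 3) (RT.nd 8 (RT.lf 4) (RT.nd 0 (RT.lf 4) (RT.lf 0)))) (RT.nd 0 (RT.lf 1) (RT.nd 22 (RT.lf 1) (RT.lf 0)))) (RT.nd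 0 (RT.lf 4) (RT.nd 22 (RT.lf 4) (RT.lf 0)))))) (RT.nd 7 (RT.nd 1 (RT.nd 8 (RT.nd 9 (RT.lf 10) (RT.lf 11)) (RT.lf 3)) (RT.nd 31 (RT.lf 3) (RT.nd 22 (RT.nd 24 (RT.lf 0) (RT.lf 1)) (RT.lf 0)))) (RT.nd 34 (RT.nd 33 (RT.lf 0) (RT.nd 22 (RT.lf 8) (RT.lf 0))) (RT.nd 22 (RT.lf 10) (RT.lf 0)))))

/-- a part of the rank tree -/
def r1_27 : RT :=
  (RT.nd 10 (RT.nd 1 (RT.nd 7 (RT.nd 9 (RT.nd 6 (RT.lf 11) (RT.nd 8 (RT.lf 10) (RT.lf 11))) (RT.lf 3)) (RT.nd 34 (RT.nd 33 (RT.lf 0) (RT.lf 8)) (RT.lf 10))) (RT.nd 6 (RT.lf 4) (RT.nd 25 (RT.nd 32 (RT.lf 3) (RT.lf 0)) (RT.lf 1)))) (RT.nd 1 (RT.nd 8 (RT.lf 4) (RT.nd 19 (RT.lf 4) (RT.nd 0 (RT.nd 32 (RT.nd 31 (RT.lf 4) (RT.lf 3)) (RT.lf 4)) (RT.nd 22 (RT.nd 31 (RT.nd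 30 (RT.nd 12 (RT.lf 4) (RT.lf 3)) (RT.lf 3)) (RT.lf 4)) (RT.lf 3))))) (RT.nd 14 (RT.nd 24 (RT.nd 0 (RT.nd 6 (RT.nd 13 (RT.lf 11) (RT.lf 4)) (RT.lf 3)) (RT.lf 3)) (RT.nd 25 (RT.lf 3) (RT.nd 0 (RT.lf 4) (RT.nd 22 (RT.lf 4) (RT.lf 3))))) (RT.nd 24 (RT.nd 15 (RT.lf 3) (RT.lf 4)) (RT.nd 0 (RT.nd 6 (RT.lf 11) (RT.lf 10)) (RT.lf 10))))))

/-- a part of the rank tree -/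
def r1_28 : RT :=
  (RT.nd 24 (RT.nd 10 (RT.nd 34 (RT.lf 1) (RT.nd 19 (RT.nd 11 (RT.lf 4) (RT.lf 1)) (RT.nd 28 (RT.nd 16 (RT.lf 3) (RT.lf 4)) (RT.lf 4)))) (RT.nd 13 (RT.nd 34 (RT.nd 32 (RT.lf 0) (RT.lf 8)) (RT.lf 10)) (RT.nd 31 (RT.nd 30 (RT.nd 14 (RT.lf 4) (RT.nd 15 (RT.lf 3) (RT.lf 4))) (RT.lf 3)) (RT.lf 4)))) (RT.nd 25 (RT.nd 13 (RT.nd 11 (RT.nd 28 (RT.lf 3) (RT.lf 0)) (RT.lf 0)) (RT.lf 3)) (RT.nd 15 (RT.nd 1 (RT.nd 17 (RT.nd 12 (RT.lf 11) (RT.nd 14 (RT.lf 10) (RT.lf 11))) (RT.lf 4)) (RT.nd 13 (RT.lf 1) (RT.lf 4))) (RT.nd 10 (RT.nd 33 (RT.nd 19 (RT.nd 28 (RT.lf 10) (RT.nd 32 (RT.lf 9) (RT.lf 10))) (RT.lf 0)) (RT.nd 29 (RT.nd 13 (RT.lf 3) (RT.nd 16 (RT.lf 0) (RT.lf 8))) (RT.nd 11 (RT.lf 8) (RT.lf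 7)))) (RT.nd 1 (RT.nd 19 (RT.lf 8) (RT.nd 32 (RT.nd 30 (RT.nd 29 (RT.lf 8) (RT.lf 1)) (RT.nd 28 (RT.lf 3) (RT.lf 0))) (RT.lf 1))) (RT.lf 10))))))

/-- a part of the rank tree -/
def r1_29 : RT :=
  (RT.nd 21 (RT.nd 14 (RT.nd 15 (RT.lf 10) (RT.lf 11)) (RT.nd 6 (RT.nd 27 (RT.nd 28 (RT.nd 5 (RT.nd 33 (RT.lf 10) (RT.lf 4)) (RT.lf 10)) (RT.nd 13 (RT.lf 4) (RT.nd 26 (RT.lf 1) (RT.lf 4)))) (RT.lf 10)) (RT.nd 13 (RT.lf 3) (RT.lf 0)))) (RT.nd 11 (RT.nd 5 (RT.nd 13 (RT.nd 18 (RT.nd 15 (RT.nd 1 (RT.lf 10) (RT.nd 27 (RT.lf 3) (RT.nd 22 (RT.nd 24 (RT.lf 0) (RT.lf 1)) (RT.lf 0)))) (RT.nd 14 (RT.lf 11) (RT.lf 3))) (RT.lf 4)) (RT.nd 29 (RT.lf 0) (RT.nd 22 (RT.lf 8) (RT.lf 0)))) (RT.nd 1 (RT.nd 14 (RT.lf 4) (RT.nd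 15 (RT.lf 4) (RT.nd 13 (RT.lf 3) (RT.nd 26 (RT.nd 0 (RT.lf 4) (RT.nd 6 (RT.lf 4) (RT.lf 3))) (RT.nd 27 (RT.lf 3) (RT.nd 22 (RT.lf 4) (RT.nd 0 (RT.nd 28 (RT.lf 3) (RT.lf 4)) (RT.lf 3)))))))) (RT.nd 8 (RT.nd 3 (RT.nd 24 (RT.lf 3) (RT.nd 22 (RT.lf 4) (RT.lf 3))) (RT.nd 12 (RT.nd 7 (RT.nd 19 (RT.lf 11) (RT.lf 4)) (RT.lf 4)) (RT.nd 25 (RT.lf 3) (RT.lf 4)))) (RT.nd 24 (RT.nd 9 (RT.lf 3) (RT.lf 4)) (RT.nd 0 (RT.nd 12 (RT.lf 11) (RT.lf 10)) (RT.lf 10)))))) (RT.nd 25 (RT.nd 7 (RT.nd 28 (RT.lf 0) (RT.nd 24 (RT.lf 8) (RT.lf 0))) (RT.nd 24 (RT.nd 27 (RT.nd 26 (RT.nd 8 (RT.lf 4) (RT.nd 9 (RT.lf 3) (RT.lf 4))) (RT.lf 3)) (RT.lf 4)) (RT.lf 3))) (RT.nd 1 (RT.nd 28 (RT.nd 26 (RT.nd 33 (RT.lf 8) (RT.lf 1)) (RT.nd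 32 (RT.lf 3) (RT.lf 0))) (RT.lf 1)) (RT.nd 8 (RT.nd 7 (RT.lf 1) (RT.lf 4)) (RT.lf 10))))))

/-- a part of the rank tree -/
def r1_30 : RT :=
  (RT.nd 11 (RT.nd 5 (RT.nd 26 (RT.nd 30 (RT.nd 17 (RT.nd 18 (RT.nd 34 (RT.lf 4) (RT.lf 9)) (RT.lf 1)) (RT.lf 9)) (RT.nd 33 (RT.nd 31 (RT.lf 10) (RT.lf 7)) (RT.nd 28 (RT.lf 4) (RT.lf 1)))) (RT.nd 27 (RT.nd 33 (RT.nd 17 (RT.nd 16 (RT.lf 10) (RT.lf 4)) (RT.lf 10)) (RT.nd 16 (RT.lf 1) (RT.lf 4))) (RT.nd 19 (RT.nd 31 (RT.lf 9) (RT.nd 33 (RT.lf 10) (RT.nd 16 (RT.lf 9) (RT.nd 17 (RT.lf 10) (RT.nd 29 (RT.lf 9) (RT.lf 7)))))) (RT.nd 29 (RT.nd 30 (RT.lf 7) (RT.lf 10)) (RT.nd 31 (RT.nd 32 (RT.lf 4) (RT.lf 1)) (RT.nd 34 (RT.lf 9) (RT.lf 4))))))) (RT.nd 6 (RT.lf 7) (RT.lf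 0))) (RT.nd 5 (RT.nd 19 (RT.nd 26 (RT.lf 0) (RT.lf 8)) (RT.nd 12 (RT.lf 7) (RT.lf 0))) (RT.nd 6 (RT.nd 12 (RT.nd 16 (RT.lf 1) (RT.nd 17 (RT.lf 0) (RT.lf 1))) (RT.lf 0)) (RT.nd 12 (RT.lf 0) (RT.lf 3)))))

/-- a part of the rank tree -/
def r1_31 : RT :=
  (RT.nd 5 (RT.nd 13 (RT.nd 25 (RT.nd 11 (RT.nd 18 (RT.lf 1) (RT.nd 34 (RT.lf 1) (RT.nd 16 (RT.nd 27 (RT.lf 3) (RT.lf 4)) (RT.lf 4)))) (RT.nd 34 (RT.nd 31 (RT.lf 0) (RT.lf 8)) (RT.lf 10))) (RT.nd 24 (RT.lf 0) (RT.nd 22 (RT.lf 1) (RT.lf 0)))) (RT.nd 14 (RT.nd 17 (RT.lf 4) (RT.nd 24 (RT.nd 25 (RT.nd 32 (RT.nd 30 (RT.nd 15 (RT.lf 4) (RT.lf 3)) (RT.lf 3)) (RT.lf 4)) (RT.lf 3)) (RT.lf 4))) (RT.nd 24 (RT.lf 4) (RT.lf 10)))) (RT.nd 15 (RT.nd 13 (RT.nd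 25 (RT.nd 31 (RT.nd 27 (RT.nd 28 (RT.lf 10) (RT.nd 32 (RT.lf 9) (RT.lf 10))) (RT.nd 18 (RT.lf 9) (RT.lf 0))) (RT.nd 28 (RT.nd 16 (RT.lf 0) (RT.nd 32 (RT.lf 10) (RT.lf 8))) (RT.nd 24 (RT.nd 27 (RT.nd 16 (RT.lf 0) (RT.lf 8)) (RT.nd 11 (RT.lf 8) (RT.nd 32 (RT.lf 0) (RT.lf 7)))) (RT.lf 0)))) (RT.nd 24 (RT.lf 0) (RT.nd 22 (RT.lf 1) (RT.nd 0 (RT.lf 1) (RT.lf 0))))) (RT.nd 14 (RT.nd 17 (RT.lf 8) (RT.nd 18 (RT.lf 8) (RT.nd 30 (RT.nd 27 (RT.lf 8) (RT.nd 28 (RT.lf 8) (RT.lf 1))) (RT.nd 31 (RT.nd 32 (RT.nd 27 (RT.nd 0 (RT.lf 3) (RT.lf 0)) (RT.lf 0)) (RT.nd 25 (RT.lf 1) (RT.lf 0))) (RT.nd 24 (RT.nd 25 (RT.lf 1) (RT.lf 0)) (RT.nd 25 (RT.lf 0) (RT.lf 1))))))) (RT.nd 25 (RT.nd 24 (RT.lf 0) (RT.lf 3)) (RT.lf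 9)))) (RT.nd 25 (RT.nd 14 (RT.lf 0) (RT.nd 24 (RT.lf 1) (RT.lf 9))) (RT.nd 0 (RT.lf 9) (RT.nd 22 (RT.nd 24 (RT.nd 14 (RT.lf 3) (RT.nd 12 (RT.lf 9) (RT.lf 3))) (RT.nd 12 (RT.lf 9) (RT.lf 3))) (RT.lf 3))))))

/-- a part of the rank tree -/
def r1_32 : RT :=
  (RT.nd 13 (RT.nd 11 (RT.nd 28 (RT.nd 26 (RT.nd 9 (RT.lf 4) (RT.nd 8 (RT.lf 3) (RT.lf 4))) (RT.lf 3)) (RT.lf 4)) (RT.nd 27 (RT.nd 32 (RT.nd 26 (RT.lf 8) (RT.nd 31 (RT.lf 3) (RT.lf 0))) (RT.nd 28 (RT.nd 26 (RT.nd 31 (RT.lf 8) (RT.nd 0 (RT.nd 8 (RT.lf 1) (RT.nd 9 (RT.lf 0) (RT.lf 1))) (RT.nd 8 (RT.nd 9 (RT.lf 1) (RT.lf 0)) (RT.lf 1)))) (RT.lf 0)) (RT.lf 1))) (RT.lf 1))) (RT.nd 15 (RT.nd 14 (RT.nd 27 (RT.nd 28 (RT.nd 29 (RT.nd 33 (RT.nd 30 (RT.nd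 17 (RT.nd 16 (RT.nd 0 (RT.nd 8 (RT.lf 4) (RT.nd 9 (RT.lf 3) (RT.lf 4))) (RT.nd 8 (RT.nd 9 (RT.lf 4) (RT.lf 3)) (RT.lf 4))) (RT.nd 18 (RT.lf 3) (RT.lf 4))) (RT.lf 4)) (RT.nd 26 (RT.lf 4) (RT.lf 3))) (RT.nd 31 (RT.lf 10) (RT.nd 32 (RT.lf 10) (RT.nd 0 (RT.nd 8 (RT.lf 4) (RT.nd 9 (RT.lf 3) (RT.lf 4))) (RT.nd 8 (RT.nd 9 (RT.lf 4) (RT.lf 3)) (RT.lf 4)))))) (RT.lf 3)) (RT.nd 16 (RT.lf 4) (RT.nd 17 (RT.lf 10) (RT.nd 30 (RT.lf 10) (RT.nd 32 (RT.lf 3) (RT.lf 4)))))) (RT.nd 31 (RT.nd 30 (RT.nd 28 (RT.lf 10) (RT.lf 4)) (RT.nd 32 (RT.lf 3) (RT.lf 4))) (RT.nd 19 (RT.lf 4) (RT.nd 18 (RT.lf 10) (RT.nd 17 (RT.lf 10) (RT.lf 4)))))) (RT.nd 9 (RT.lf 3) (RT.lf 10))) (RT.nd 9 (RT.nd 8 (RT.nd 14 (RT.lf 3) (RT.lf 4))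 (RT.lf 10)) (RT.nd 0 (RT.nd 26 (RT.lf 10) (RT.nd 17 (RT.lf 3) (RT.lf 10))) (RT.nd 6 (RT.nd 8 (RT.nd 14 (RT.lf 3) (RT.nd 12 (RT.lf 10) (RT.lf 3))) (RT.nd 12 (RT.lf 10) (RT.lf 3))) (RT.lf 3))))))

/-- a part of the rank tree -/
def r1_33 : RT :=
  (RT.nd 6 (RT.nd 8 (RT.nd 14 (RT.nd 18 (RT.nd 16 (RT.nd 26 (RT.lf 3) (RT.nd 11 (RT.lf 3) (RT.nd 13 (RT.nd 9 (RT.lf 0) (RT.lf 3)) (RT.nd 28 (RT.nd 31 (RT.lf 3) (RT.lf 0)) (RT.lf 3))))) (RT.nd 27 (RT.lf 0) (RT.lf 3))) (RT.nd 32 (RT.nd 27 (RT.lf 3) (RT.nd 30 (RT.lf 3) (RT.lf 0))) (RT.lf 3))) (RT.nd 12 (RT.nd 28 (RT.lf 9) (RT.nd 30 (RT.nd 9 (RT.lf 10) (RT.nd 27 (RT.lf 10) (RT.lf 9))) (RT.nd 27 (RT.lf 10) (RT.lf 8)))) (RT.lf 3))) (RT.nd 14 (RT.nd 16 (RT.nd 32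 (RT.lf 9) (RT.nd 26 (RT.nd 13 (RT.lf 9) (RT.nd 15 (RT.lf 10) (RT.nd 31 (RT.lf 10) (RT.lf 9)))) (RT.nd 31 (RT.lf 10) (RT.lf 8)))) (RT.lf 8)) (RT.nd 26 (RT.nd 30 (RT.nd 12 (RT.lf 7) (RT.lf 0)) (RT.lf 10)) (RT.nd 17 (RT.nd 30 (RT.lf 8) (RT.nd 28 (RT.nd 32 (RT.lf 0) (RT.lf 1)) (RT.lf 0))) (RT.nd 12 (RT.lf 10) (RT.lf 3)))))) (RT.nd 14 (RT.lf 3) (RT.nd 12 (RT.nd 30 (RT.lf 0) (RT.nd 16 (RT.lf 3) (RT.lf 0))) (RT.lf 3))))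

/-- a part of the rank tree -/
def r1_34 : RT :=
  (RT.nd 5 (RT.nd 11 (RT.nd 29 (RT.nd 16 (RT.lf 0) (RT.nd 33 (RT.nd 27 (RT.lf 10) (RT.nd 31 (RT.lf 9) (RT.lf 10))) (RT.lf 8))) (RT.nd 22 (RT.nd 33 (RT.lf 0) (RT.lf 7)) (RT.lf 0))) (RT.nd 19 (RT.lf 8) (RT.nd 22 (RT.nd 31 (RT.nd 27 (RT.lf 3) (RT.nd 29 (RT.nd 30 (RT.lf 8) (RT.lf 0)) (RT.nd 12 (RT.nd 30 (RT.lf 1) (RT.lf 0)) (RT.lf 0)))) (RT.lf 1)) (RT.nd 12 (RT.lf 0) (RT.lf 3))))) (RT.nd 11 (RT.nd 22 (RT.nd 27 (RT.nd 31 (RT.lf 3) (RT.nd 26 (RT.nd 6 (RT.nd 33 (RT.lf 8) (RT.lf 1)) (RT.lf 0)) (RT.lf 0))) (RT.lf 1)) (RT.nd 6 (RT.lf 0) (RT.lf 3))) (RT.nd 3 (RT.nd 6 (RT.nd 22 (RT.nd 27 (RT.nd 28 (RT.nd 31 (RT.nd 12 (RT.nd 26 (RT.nd 16 (RT.lf 4) (RT.nd 17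 (RT.lf 3) (RT.lf 4))) (RT.nd 17 (RT.lf 3) (RT.nd 30 (RT.lf 4) (RT.lf 3)))) (RT.lf 3)) (RT.nd 33 (RT.lf 10) (RT.lf 4))) (RT.lf 3)) (RT.nd 31 (RT.nd 29 (RT.nd 30 (RT.lf 10) (RT.lf 3)) (RT.nd 12 (RT.nd 30 (RT.lf 4) (RT.lf 3)) (RT.lf 3))) (RT.nd 17 (RT.lf 4) (RT.nd 19 (RT.lf 10) (RT.lf 4))))) (RT.lf 3)) (RT.nd 22 (RT.lf 3) (RT.nd 16 (RT.nd 26 (RT.lf 3) (RT.nd 27 (RT.nd 32 (RT.lf 3) (RT.lf 0)) (RT.lf 3))) (RT.nd 17 (RT.nd 27 (RT.lf 0) (RT.lf 3)) (RT.nd 28 (RT.lf 3) (RT.nd 31 (RT.nd 30 (RT.lf 3) (RT.lf 0)) (RT.lf 3))))))) (RT.nd 28 (RT.nd 26 (RT.nd 31 (RT.nd 16 (RT.lf 4) (RT.nd 18 (RT.lf 3) (RT.lf 4))) (RT.nd 33 (RT.lf 10) (RT.lf 4))) (RT.nd 30 (RT.nd 18 (RT.lf 3) (RT.lf 4)) (RT.lf 3))) (RT.nd 32 (RT.nd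 30 (RT.nd 29 (RT.lf 10) (RT.lf 4)) (RT.lf 3)) (RT.nd 17 (RT.lf 4) (RT.nd 19 (RT.lf 10) (RT.lf 4))))))))

/-- a part of the rank tree -/
def r1_35 : RT :=
  (RT.nd 25 (RT.nd 9 (RT.nd 17 (RT.nd 16 (RT.nd 13 (RT.nd 8 (RT.lf 0) (RT.lf 3)) (RT.nd 32 (RT.lf 3) (RT.nd 14 (RT.lf 3) (RT.nd 26 (RT.lf 3) (RT.nd 27 (RT.lf 0) (RT.lf 3)))))) (RT.nd 27 (RT.lf 0) (RT.lf 3))) (RT.nd 31 (RT.nd 28 (RT.lf 3) (RT.nd 30 (RT.lf 3) (RT.lf 0))) (RT.lf 3))) (RT.nd 16 (RT.nd 31 (RT.lf 9) (RT.nd 26 (RT.nd 13 (RT.lf 9) (RT.nd 14 (RT.lf 10) (RT.nd 32 (RT.lf 10) (RT.lf 9)))) (RT.nd 32 (RT.lf 10) (RT.lf 8)))) (RT.lf 8))) (RT.nd 9 (RT.nd 8 (RT.nd 14 (RT.nd 13 (RT.nd 11 (RT.lf 4) (RT.lf 1)) (RT.lf 4)) (RT.lf 10)) (RT.nd 18 (RT.nd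 13 (RT.lf 9) (RT.nd 14 (RT.lf 10) (RT.nd 17 (RT.lf 9) (RT.lf 10)))) (RT.lf 9))) (RT.nd 14 (RT.nd 13 (RT.nd 11 (RT.lf 10) (RT.nd 0 (RT.lf 9) (RT.nd 22 (RT.nd 6 (RT.lf 9) (RT.lf 3)) (RT.lf 3)))) (RT.nd 0 (RT.lf 10) (RT.nd 22 (RT.nd 6 (RT.lf 10) (RT.lf 3)) (RT.lf 3)))) (RT.nd 16 (RT.lf 7) (RT.nd 27 (RT.lf 8) (RT.lf 10))))))

/-- a part of the rank tree -/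
def r1_36 : RT :=
  (RT.nd 9 (RT.nd 25 (RT.nd 27 (RT.lf 9) (RT.nd 30 (RT.nd 8 (RT.lf 10) (RT.nd 28 (RT.lf 10) (RT.lf 9))) (RT.nd 28 (RT.lf 10) (RT.lf 8)))) (RT.nd 8 (RT.lf 10) (RT.lf 7))) (RT.nd 25 (RT.nd 26 (RT.nd 30 (RT.lf 7) (RT.lf 10)) (RT.nd 30 (RT.nd 17 (RT.lf 8) (RT.lf 10)) (RT.nd 27 (RT.nd 31 (RT.lf 0) (RT.lf 1)) (RT.lf 0)))) (RT.nd 28 (RT.nd 27 (RT.nd 16 (RT.nd 26 (RT.nd 31 (RT.nd 34 (RT.lf 4) (RT.lf 1)) (RT.nd 33 (RT.lf 9) (RT.lf 4))) (RT.nd 32 (RT.lf 0) (RT.lf 7))) (RT.nd 31 (RT.nd 30 (RT.nd 18 (RT.nd 17 (RT.nd 26 (RT.lf 7) (RT.lf 1)) (RT.lf 0)) (RT.lf 1)) (RT.lf 0)) (RT.lf 1))) (RT.nd 30 (RT.nd 18 (RT.lf 3) (RT.lf 9)) (RT.nd 17 (RT.lf 0) (RT.nd 18 (RT.lf 3) (RT.lf 0))))) (RT.nd 32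 (RT.nd 30 (RT.nd 29 (RT.lf 9) (RT.lf 4)) (RT.nd 31 (RT.lf 7) (RT.lf 0))) (RT.nd 17 (RT.lf 1) (RT.nd 19 (RT.lf 9) (RT.nd 34 (RT.lf 1) (RT.lf 4))))))))

/-- a part of the rank tree -/
def r1_37 : RT :=
  (RT.nd 12 (RT.nd 27 (RT.nd 6 (RT.nd 28 (RT.nd 16 (RT.nd 26 (RT.nd 32 (RT.nd 34 (RT.lf 4) (RT.lf 1)) (RT.nd 33 (RT.lf 9) (RT.nd 14 (RT.lf 7) (RT.lf 4)))) (RT.nd 31 (RT.lf 0) (RT.lf 7))) (RT.nd 14 (RT.lf 8) (RT.nd 32 (RT.nd 30 (RT.nd 17 (RT.nd 18 (RT.nd 26 (RT.lf 7) (RT.lf 1)) (RT.lf 0)) (RT.lf 1)) (RT.lf 0)) (RT.lf 1)))) (RT.nd 30 (RT.nd 17 (RT.lf 3) (RT.lf 9)) (RT.nd 18 (RT.lf 0) (RT.nd 17 (RT.lf 3) (RT.lf 0))))) (RT.nd 26 (RT.nd 14 (RT.lf 0) (RT.nd 30 (RT.nd 16 (RT.nd 34 (RT.lf 3) (RT.lf 0)) (RT.lf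 0)) (RT.lf 3))) (RT.lf 0))) (RT.nd 9 (RT.lf 10) (RT.nd 19 (RT.nd 14 (RT.nd 16 (RT.nd 8 (RT.lf 9) (RT.lf 7)) (RT.nd 8 (RT.nd 18 (RT.lf 9) (RT.lf 10)) (RT.lf 10))) (RT.nd 18 (RT.lf 1) (RT.lf 9))) (RT.nd 8 (RT.nd 14 (RT.lf 9) (RT.lf 7)) (RT.nd 31 (RT.nd 30 (RT.nd 29 (RT.lf 9) (RT.lf 4)) (RT.nd 32 (RT.lf 7) (RT.lf 0))) (RT.nd 34 (RT.lf 1) (RT.lf 4))))))) (RT.nd 16 (RT.lf 3) (RT.nd 17 (RT.lf 0) (RT.nd 6 (RT.nd 26 (RT.lf 0) (RT.nd 30 (RT.nd 8 (RT.nd 9 (RT.lf 3) (RT.lf 0)) (RT.lf 3)) (RT.lf 0))) (RT.lf 3)))))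

/-- a part of the rank tree -/
def r1_38 : RT :=
  (RT.nd 14 (RT.nd 16 (RT.nd 6 (RT.nd 8 (RT.lf 3) (RT.lf 0)) (RT.lf 3)) (RT.lf 3)) (RT.nd 18 (RT.nd 6 (RT.lf 0) (RT.nd 28 (RT.nd 16 (RT.nd 32 (RT.lf 3) (RT.nd 12 (RT.nd 26 (RT.lf 3) (RT.nd 27 (RT.lf 0) (RT.lf 3))) (RT.nd 26 (RT.nd 33 (RT.lf 0) (RT.lf 3)) (RT.lf 0)))) (RT.nd 27 (RT.lf 0) (RT.nd 17 (RT.nd 12 (RT.lf 3) (RT.lf 0)) (RT.lf 3)))) (RT.lf 3))) (RT.nd 9 (RT.lf 3) (RT.nd 28 (RT.lf 3) (RT.nd 6 (RT.nd 19 (RT.lf 3) (RT.nd 12 (RT.nd 34 (RT.lf 0) (RT.nd 8 (RT.lf 0) (RT.lf 3))) (RT.nd 31 (RT.nd 30 (RT.lf 3) (RT.nd 8 (RT.lf 3) (RT.lf 0))) (RT.lf 3)))) (RT.nd 29 (RT.lf 0) (RT.nd 19 (RT.lf 0) (RT.nd 32 (RT.nd 30 (RT.lf 3) (RT.lf 0)) (RT.lf 3)))))))))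

/-- the rank tree -/
def r1 : RT :=
  (RT.nd 20 (RT.nd 4 (RT.nd 10 (RT.nd 13 (RT.nd 15 (RT.nd 1 (RT.nd 24 (RT.nd 9 (RT.nd 3 r1_0 (RT.nd 22 r1_1 r1_2)) r1_3) (RT.nd 7 r1_4 r1_5)) (RT.nd 5 r1_6 r1_7)) (RT.nd 14 r1_8 r1_9)) (RT.nd 11 (RT.nd 23 r1_10 r1_11) r1_12)) (RT.nd 11 r1_13 r1_14)) (RT.nd 5 r1_15 (RT.nd 21 (RT.nd 7 r1_16 (RT.nd 13 r1_17 r1_18)) r1_19))) (RT.nd 23 (RT.nd 13 (RT.nd 7 (RT.nd 21 r1_20 (RT.nd 10 r1_21 r1_22)) r1_23) r1_24) (RT.nd 4 (RT.nd 21 r1_25 (RT.nd 5 (RT.nd 11 r1_26 r1_27) r1_28)) (RT.nd 10 r1_29 (RT.nd 21 r1_30 (RT.nd 7 r1_31 (RT.nd 24 (RT.nd 25 r1_32 r1_33) (RT.nd 1 r1_34 (RT.nd 15 r1_35 (RT.nd 0 r1_36 (RT.nd 22 r1_37 r1_38)))))))))))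

/-- the renaming of the swap 0 -/
def m1_0 : ℕ := 0x6e6c6a68646662605e5a5c58565254504c4e484a474442403c3e3a383436322e302a2c29262420221e1a1c161815120e100a0c0904060301

theorem m1_0_ok : mapTab m1_0 0 0 = true := by decide +kernel

/-- the renaming of the swap 1 -/
def m1_1 : ℕ := 0x6e6c6a66686462605c5e5a585456524e504c4b464844423e403c3a36383430322e2d282a262224201c1e1a19141610120e0d080a07020401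

theorem m1_1_ok : mapTab m1_1 1 0 = true := by decide +kernel

/-- the renaming of the swap 2 -/
def m1_2 : ℕ := 0x6e6c686a6664625e605c5a56585452514a484e4c464440423e3c383a3634332c2a302e28242622201f18161c1a14130c0a100e0807050002

theorem m1_2_ok : mapTab m1_2 2 0 = true := by decide +kernel

/-- the renaming of the swap 3 -/
def m1_3 : ℕ := 0x6e6a6c68666460625e5c5a59504e4c5654524a48464244403e3c3b32302e3836342c2a28271e1c1a24222018161413110f0604020c0a0800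

theorem m1_3_ok : mapTab m1_3 3 0 = true := by decide +kernel

/-- the renaming of the swap 4 -/
def m1_4 : ℕ := 0x6c6e6a6866646358565452605e5c5a504e4c4a4846453a38363442403e3c32302e2c2a282725232112100e0c0a081e1c1a18161406040200

theorem m1_4_ok : mapTab m1_4 4 0 = true := by decide +kernel

/-- the renaming of the swap 5 -/
def m1_5 : ℕ := 0x6f62605e5c5a6c6a68666458565452504e4c4a48464543413f3d262422201e1c1a1816143a38363432302e2c2a2812100e0c0a0806040200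

theorem m1_5_ok : mapTab m1_5 5 0 = true := by decide +kernel

/-- the renaming of the swap 6 -/
def m1_6 : ℕ := 0x6f6d6b6967654442403e3c3a38363432302e2c2a2862605e5c5a58565452504e4c4a4846262422201e1c1a18161412100e0c0a0806040200

theorem m1_6_ok : mapTab m1_6 6 0 = true := by decide +kernel

/-- good values of the rank, plus one -/
def g1 (x : ℕ) : Bool := Nat.beq x 8 || Nat.beq x 9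

theorem r1_vlt : r1.vlt 35 = true := by decide +kernel


end Win

end Pool.Agent.GCP
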