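import Pool.Agent.GCP.Stage2

/-!
# Renaming tables with labels (MP_062f91_co)
-/

namespace Pool.Agent.GCP

namespace Win

/-- the renaming of the swap 0 -/
def m2_0 : ℕ := 0x7e7c7a78767470726e6c6a68646662605e5a5c58565254504c4e484a474442403c3e3a383436322e302a2c29262420221e1a1c161815120e100a0c0904060301

theorem m2_0_ok : mapTab m2_0 0 1 = true := by decide +kernel

/-- the renaming of the swap 1 -/
def m2_1 : ℕ := 0x7e7c7a78767274706e6c6a66686462605c5e5a585456524e504c4b464844423e403c3a36383430322e2d282a262224201c1e1a19141610120e0d080a07020401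

theorem m2_1_ok : mapTab m2_1 1 1 = true := by decide +kernel

/-- the renaming of the swap 2 -/
def m2_2 : ℕ := 0x7e7c7a78747672706e6c686a6664625e605c5a56585452514a484e4c464440423e3c383a3634332c2a302e28242622201f18161c1a14130c0a100e0807050002

theorem m2_2_ok : mapTab m2_2 2 1 = true := by decide +kernel

/-- the renaming of the swap 3 -/
def m2_3 : ℕ := 0x7e7c7a76787472706e6a6c68666460625e5c5a59504e4c5654524a48464244403e3c3b32302e3836342c2a28271e1c1a24222018161413110f0604020c0a0800

theorem m2_3_ok : mapTab m2_3 3 1 = true := by decide +kernel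

/-- the renaming of the swap 4 -/
def m2_4 : ℕ := 0x7e7c787a767472706c6e6a6866646358565452605e5c5a504e4c4a4846453a38363442403e3c32302e2c2a282725232112100e0c0a081e1c1a18161406040200

theorem m2_4_ok : mapTab m2_4 4 1 = true := by decide +kernel

/-- the renaming of the swap 5 -/
def m2_5 : ℕ := 0x7e7a7c78767472706f62605e5c5a6c6a68666458565452504e4c4a48464543413f3d262422201e1c1a1816143a38363432302e2c2a2812100e0c0a0806040200

theorem m2_5_ok : mapTab m2_5 5 1 = true := by decide +kernel

/-- the renaming of the swap 6 -/
def m2_6 : ℕ := 0x7c7e7a78767472706f6d6b6967654442403e3c3a38363432302e2c2a2862605e5c5a58565452504e4c4a4846262422201e1c1a18161412100e0c0a0806040200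

theorem m2_6_ok : mapTab m2_6 6 1 = true := by decide +kernel

end Win

end Pool.Agent.GCP
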