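import Pool.Agent.GCP.W7Tab
import Pool.Agent.GCP.WRank
import Pool.Agent.GCP.WRen

/-!
# The rank of a labelled window of rank 7 (MP_062f91_co)
-/

namespace Pool.Agent.GCP

namespace Win

/-- a part of the rank tree -/
def q7_0 : RT :=
  (RT.nd 0 (RT.nd 59 (RT.nd 62 (RT.lf 6) (RT.nd 61 (RT.lf 6) (RT.lf 1))) (RT.lf 0)) (RT.nd 23 (RT.nd 59 (RT.lf 1) (RT.nd 25 (RT.nd 60 (RT.nd 9 (RT.nd 61 (RT.lf 6) (RT.lf 1)) (RT.nd 62 (RT.nd 31 (RT.lf 6) (RT.lf 2)) (RT.nd 61 (RT.nd 30 (RT.lf 2) (RT.lf 6)) (RT.lf 3)))) (RT.nd 9 (RT.nd 15 (RT.nd 62 (RT.lf 3) (RT.nd 61 (RT.lf 3) (RT.lf 6))) (RT.nd 61 (RT.nd 62 (RT.nd 27 (RT.lf 6) (RT.lf 2)) (RT.lf 3)) (RT.lf 1))) (RT.lf 1))) (RT.nd 62 (RT.nd 7 (RT.nd 60 (RT.lf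 6) (RT.nd 16 (RT.nd 17 (RT.nd 61 (RT.lf 6) (RT.lf 3)) (RT.lf 6)) (RT.lf 3))) (RT.nd 60 (RT.lf 1) (RT.nd 18 (RT.lf 3) (RT.nd 16 (RT.lf 1) (RT.nd 61 (RT.lf 1) (RT.lf 3)))))) (RT.nd 7 (RT.lf 1) (RT.nd 60 (RT.lf 1) (RT.nd 18 (RT.lf 6) (RT.nd 16 (RT.nd 61 (RT.lf 6) (RT.lf 1)) (RT.nd 61 (RT.lf 1) (RT.lf 6))))))))) (RT.nd 60 (RT.nd 62 (RT.nd 30 (RT.lf 5) (RT.lf 1)) (RT.nd 61 (RT.nd 7 (RT.nd 30 (RT.lf 1) (RT.lf 5)) (RT.lf 1)) (RT.nd 7 (RT.lf 3) (RT.lf 1)))) (RT.nd 61 (RT.nd 62 (RT.nd 26 (RT.lf 5) (RT.lf 1)) (RT.nd 7 (RT.nd 30 (RT.lf 1) (RT.lf 6)) (RT.nd 59 (RT.lf 6) (RT.lf 3)))) (RT.nd 62 (RT.nd 59 (RT.lf 6) (RT.nd 29 (RT.nd 13 (RT.lf 6) (RT.lf 3)) (RT.nd 30 (RT.nd 7 (RT.lf 6) (RT.lf 3)) (RT.lf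 1)))) (RT.nd 7 (RT.lf 6) (RT.nd 13 (RT.lf 6) (RT.lf 1))))))))

/-- a part of the rank tree -/
def q7_1 : RT :=
  (RT.nd 5 (RT.nd 23 (RT.nd 59 (RT.lf 1) (RT.nd 24 (RT.nd 60 (RT.nd 8 (RT.nd 61 (RT.lf 6) (RT.lf 1)) (RT.nd 62 (RT.nd 31 (RT.lf 6) (RT.lf 2)) (RT.nd 61 (RT.nd 30 (RT.lf 2) (RT.lf 6)) (RT.lf 3)))) (RT.nd 8 (RT.nd 14 (RT.nd 62 (RT.lf 3) (RT.nd 61 (RT.lf 3) (RT.lf 6))) (RT.nd 61 (RT.nd 62 (RT.nd 27 (RT.lf 6) (RT.lf 2)) (RT.lf 3)) (RT.lf 1))) (RT.lf 1))) (RT.nd 62 (RT.nd 7 (RT.nd 60 (RT.lf 6) (RT.nd 16 (RT.nd 17 (RT.nd 61 (RT.lf 6) (RT.lf 3)) (RT.lf 6)) (RT.lf 3))) (RT.nd 60 (RT.lf 1) (RT.nd 17 (RT.lf 3) (RT.nd 16 (RT.lf 1) (RT.nd 61 (RT.lf 1) (RT.lf 3)))))) (RT.nd 7 (RT.lf 1) (RT.nd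 60 (RT.lf 1) (RT.nd 17 (RT.lf 6) (RT.nd 16 (RT.nd 61 (RT.lf 6) (RT.lf 1)) (RT.nd 61 (RT.lf 1) (RT.lf 6))))))))) (RT.nd 60 (RT.nd 62 (RT.nd 30 (RT.lf 5) (RT.lf 1)) (RT.nd 61 (RT.nd 7 (RT.nd 30 (RT.lf 1) (RT.lf 5)) (RT.lf 1)) (RT.nd 7 (RT.lf 3) (RT.lf 1)))) (RT.nd 61 (RT.nd 62 (RT.nd 26 (RT.lf 5) (RT.lf 1)) (RT.nd 7 (RT.nd 30 (RT.lf 1) (RT.lf 6)) (RT.nd 59 (RT.lf 6) (RT.lf 3)))) (RT.nd 62 (RT.nd 59 (RT.lf 6) (RT.nd 29 (RT.nd 13 (RT.lf 6) (RT.lf 3)) (RT.nd 30 (RT.nd 7 (RT.lf 6) (RT.lf 3)) (RT.lf 1)))) (RT.nd 7 (RT.lf 6) (RT.nd 13 (RT.lf 6) (RT.lf 1))))))) (RT.lf 0))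

/-- a part of the rank tree -/
def q7_2 : RT :=
  (RT.nd 59 (RT.nd 1 (RT.nd 5 (RT.lf 0) (RT.nd 60 (RT.nd 4 (RT.nd 61 (RT.lf 5) (RT.lf 0)) (RT.nd 62 (RT.nd 30 (RT.lf 5) (RT.lf 1)) (RT.nd 61 (RT.nd 30 (RT.lf 1) (RT.lf 5)) (RT.lf 3)))) (RT.nd 4 (RT.nd 10 (RT.nd 62 (RT.lf 3) (RT.nd 61 (RT.lf 3) (RT.lf 5))) (RT.nd 61 (RT.nd 62 (RT.nd 26 (RT.lf 5) (RT.lf 1)) (RT.lf 3)) (RT.lf 0))) (RT.lf 0)))) (RT.nd 60 (RT.nd 16 (RT.lf 1) (RT.nd 62 (RT.nd 30 (RT.lf 5) (RT.lf 1)) (RT.nd 61 (RT.nd 30 (RT.lf 1) (RT.lf 5)) (RT.lf 3)))) (RT.nd 62 (RT.nd 61 (RT.nd 16 (RT.nd 26 (RT.lf 5) (RT.lf 1)) (RT.lf 1)) (RT.nd 21 (RT.nd 19 (RT.lf 3) (RT.nd 16 (RT.lf 1) (RT.lf 3))) (RT.nd 28 (RT.nd 11 (RT.lf 6) (RT.lf 3)) (RT.nd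 30 (RT.nd 5 (RT.lf 6) (RT.lf 3)) (RT.lf 1))))) (RT.nd 61 (RT.nd 16 (RT.nd 21 (RT.lf 6) (RT.lf 3)) (RT.nd 30 (RT.lf 1) (RT.lf 6))) (RT.nd 5 (RT.nd 16 (RT.nd 19 (RT.lf 6) (RT.lf 1)) (RT.lf 6)) (RT.nd 11 (RT.lf 6) (RT.nd 21 (RT.nd 19 (RT.lf 6) (RT.nd 16 (RT.lf 1) (RT.lf 6))) (RT.lf 1)))))))) (RT.nd 5 (RT.lf 0) (RT.nd 1 (RT.nd 60 (RT.nd 4 (RT.nd 61 (RT.lf 6) (RT.lf 0)) (RT.nd 62 (RT.nd 30 (RT.lf 6) (RT.lf 1)) (RT.nd 34 (RT.nd 61 (RT.lf 1) (RT.lf 6)) (RT.lf 6)))) (RT.nd 4 (RT.nd 10 (RT.lf 6) (RT.nd 61 (RT.nd 62 (RT.nd 26 (RT.lf 6) (RT.lf 1)) (RT.lf 6)) (RT.lf 0))) (RT.lf 0))) (RT.lf 0))))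

/-- a part of the rank tree -/
def q7_3 : RT :=
  (RT.nd 0 (RT.nd 25 (RT.nd 59 (RT.lf 0) (RT.nd 23 (RT.nd 60 (RT.nd 7 (RT.nd 61 (RT.lf 5) (RT.lf 0)) (RT.nd 62 (RT.nd 30 (RT.lf 5) (RT.lf 1)) (RT.nd 61 (RT.nd 30 (RT.lf 1) (RT.lf 5)) (RT.lf 3)))) (RT.nd 7 (RT.nd 13 (RT.nd 62 (RT.lf 3) (RT.nd 61 (RT.lf 3) (RT.lf 5))) (RT.nd 61 (RT.nd 62 (RT.nd 26 (RT.lf 5) (RT.lf 1)) (RT.lf 3)) (RT.lf 0))) (RT.lf 0))) (RT.nd 62 (RT.nd 7 (RT.nd 60 (RT.lf 5) (RT.nd 18 (RT.nd 16 (RT.nd 61 (RT.lf 5) (RT.lf 3)) (RT.lf 5)) (RT.lf 3))) (RT.nd 60 (RT.lf 0) (RT.nd 16 (RT.lf 3) (RT.nd 17 (RT.lf 0) (RT.nd 61 (RT.lf 0) (RT.lf 3)))))) (RT.nd 7 (RT.lf 0) (RT.nd 60 (RT.lf 0) (RT.nd 16 (RT.lf 5) (RT.nd 17 (RT.nd 61 (RT.lf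 5) (RT.lf 0)) (RT.nd 61 (RT.lf 0) (RT.lf 5))))))))) (RT.nd 60 (RT.nd 62 (RT.nd 31 (RT.lf 4) (RT.lf 0)) (RT.nd 61 (RT.nd 9 (RT.nd 30 (RT.lf 0) (RT.lf 4)) (RT.lf 0)) (RT.nd 9 (RT.lf 3) (RT.lf 0)))) (RT.nd 61 (RT.nd 62 (RT.nd 27 (RT.lf 4) (RT.lf 0)) (RT.nd 9 (RT.nd 30 (RT.lf 0) (RT.lf 5)) (RT.nd 59 (RT.lf 5) (RT.lf 3)))) (RT.nd 62 (RT.nd 59 (RT.lf 5) (RT.nd 29 (RT.nd 15 (RT.lf 5) (RT.lf 3)) (RT.nd 31 (RT.nd 9 (RT.lf 5) (RT.lf 3)) (RT.lf 0)))) (RT.nd 9 (RT.lf 5) (RT.nd 15 (RT.lf 5) (RT.lf 0))))))) (RT.lf 0))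

/-- a part of the rank tree -/
def q7_4 : RT :=
  (RT.nd 5 (RT.nd 59 (RT.nd 62 (RT.lf 6) (RT.nd 61 (RT.lf 6) (RT.lf 1))) (RT.lf 0)) (RT.nd 24 (RT.nd 59 (RT.lf 0) (RT.nd 23 (RT.nd 60 (RT.nd 7 (RT.nd 61 (RT.lf 5) (RT.lf 0)) (RT.nd 62 (RT.nd 30 (RT.lf 5) (RT.lf 1)) (RT.nd 61 (RT.nd 30 (RT.lf 1) (RT.lf 5)) (RT.lf 3)))) (RT.nd 7 (RT.nd 13 (RT.nd 62 (RT.lf 3) (RT.nd 61 (RT.lf 3) (RT.lf 5))) (RT.nd 61 (RT.nd 62 (RT.nd 26 (RT.lf 5) (RT.lf 1)) (RT.lf 3)) (RT.lf 0))) (RT.lf 0))) (RT.nd 62 (RT.nd 7 (RT.nd 60 (RT.lf 5) (RT.nd 17 (RT.nd 16 (RT.nd 61 (RT.lf 5) (RT.lf 3)) (RT.lf 5)) (RT.lf 3))) (RT.nd 60 (RT.lf 0) (RT.nd 16 (RT.lf 3) (RT.nd 17 (RT.lf 0) (RT.nd 61 (RT.lf 0) (RT.lf 3)))))) (RT.nd 7 (RT.lf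 0) (RT.nd 60 (RT.lf 0) (RT.nd 16 (RT.lf 5) (RT.nd 17 (RT.nd 61 (RT.lf 5) (RT.lf 0)) (RT.nd 61 (RT.lf 0) (RT.lf 5))))))))) (RT.nd 60 (RT.nd 62 (RT.nd 31 (RT.lf 4) (RT.lf 0)) (RT.nd 61 (RT.nd 8 (RT.nd 30 (RT.lf 0) (RT.lf 4)) (RT.lf 0)) (RT.nd 8 (RT.lf 3) (RT.lf 0)))) (RT.nd 61 (RT.nd 62 (RT.nd 27 (RT.lf 4) (RT.lf 0)) (RT.nd 8 (RT.nd 30 (RT.lf 0) (RT.lf 5)) (RT.nd 59 (RT.lf 5) (RT.lf 3)))) (RT.nd 62 (RT.nd 59 (RT.lf 5) (RT.nd 29 (RT.nd 14 (RT.lf 5) (RT.lf 3)) (RT.nd 31 (RT.nd 8 (RT.lf 5) (RT.lf 3)) (RT.lf 0)))) (RT.nd 8 (RT.lf 5) (RT.nd 14 (RT.lf 5) (RT.lf 0))))))))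

/-- a part of the rank tree -/
def q7_5 : RT :=
  (RT.nd 21 (RT.nd 1 (RT.nd 60 (RT.nd 5 (RT.nd 61 (RT.lf 5) (RT.lf 0)) (RT.nd 62 (RT.nd 30 (RT.lf 5) (RT.lf 1)) (RT.nd 61 (RT.nd 30 (RT.lf 1) (RT.lf 5)) (RT.lf 3)))) (RT.nd 5 (RT.nd 11 (RT.nd 62 (RT.lf 3) (RT.nd 61 (RT.lf 3) (RT.lf 5))) (RT.nd 61 (RT.nd 62 (RT.nd 26 (RT.lf 5) (RT.lf 1)) (RT.lf 3)) (RT.lf 0))) (RT.lf 0))) (RT.nd 60 (RT.nd 62 (RT.nd 30 (RT.lf 5) (RT.lf 1)) (RT.nd 61 (RT.nd 4 (RT.nd 30 (RT.lf 1) (RT.lf 5)) (RT.lf 1)) (RT.nd 4 (RT.lf 3) (RT.lf 1)))) (RT.nd 4 (RT.nd 62 (RT.nd 30 (RT.lf 6) (RT.lf 1)) (RT.nd 33 (RT.nd 61 (RT.lf 1) (RT.lf 6)) (RT.lf 6))) (RT.nd 10 (RT.nd 61 (RT.nd 62 (RT.nd 26 (RT.lf 5) (RT.lf 1)) (RT.lf 3)) (RT.nd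 26 (RT.lf 6) (RT.nd 62 (RT.lf 1) (RT.lf 6)))) (RT.nd 62 (RT.lf 3) (RT.nd 61 (RT.lf 3) (RT.lf 1))))))) (RT.nd 62 (RT.nd 1 (RT.nd 60 (RT.lf 5) (RT.nd 19 (RT.nd 16 (RT.nd 61 (RT.lf 5) (RT.lf 3)) (RT.lf 5)) (RT.lf 3))) (RT.nd 7 (RT.lf 0) (RT.lf 6))) (RT.nd 26 (RT.nd 61 (RT.lf 6) (RT.lf 0)) (RT.lf 0))))

/-- a part of the rank tree -/
def q7_6 : RT :=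
  (RT.nd 21 (RT.nd 1 (RT.nd 60 (RT.nd 5 (RT.nd 61 (RT.lf 6) (RT.lf 0)) (RT.nd 62 (RT.nd 30 (RT.lf 6) (RT.lf 1)) (RT.nd 34 (RT.nd 61 (RT.lf 1) (RT.lf 6)) (RT.lf 6)))) (RT.nd 5 (RT.nd 11 (RT.lf 6) (RT.nd 61 (RT.nd 62 (RT.nd 26 (RT.lf 6) (RT.lf 1)) (RT.lf 6)) (RT.lf 0))) (RT.lf 0))) (RT.lf 0)) (RT.nd 23 (RT.nd 60 (RT.nd 7 (RT.nd 61 (RT.lf 6) (RT.lf 0)) (RT.nd 62 (RT.nd 30 (RT.lf 6) (RT.lf 1)) (RT.nd 34 (RT.nd 61 (RT.lf 1) (RT.lf 6)) (RT.lf 6)))) (RT.nd 7 (RT.nd 13 (RT.lf 6) (RT.nd 61 (RT.nd 62 (RT.nd 26 (RT.lf 6) (RT.lf 1)) (RT.lf 6)) (RT.lf 0))) (RT.lf 0))) (RT.nd 62 (RT.nd 1 (RT.lf 6) (RT.nd 7 (RT.lf 6) (RT.nd 60 (RT.nd 16 (RT.lf 0) (RT.nd 31 (RT.lf 6) (RT.lf 0))) (RT.nd 29 (RT.nd 16 (RT.lf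 6) (RT.nd 17 (RT.lf 0) (RT.nd 61 (RT.lf 0) (RT.lf 6)))) (RT.nd 31 (RT.lf 6) (RT.lf 0)))))) (RT.nd 1 (RT.lf 0) (RT.nd 7 (RT.lf 0) (RT.nd 29 (RT.nd 60 (RT.lf 0) (RT.nd 14 (RT.lf 6) (RT.nd 15 (RT.lf 6) (RT.nd 26 (RT.nd 16 (RT.lf 6) (RT.nd 61 (RT.nd 17 (RT.lf 6) (RT.lf 0)) (RT.nd 17 (RT.lf 0) (RT.lf 6)))) (RT.lf 0))))) (RT.nd 31 (RT.nd 61 (RT.lf 0) (RT.nd 8 (RT.lf 6) (RT.nd 9 (RT.lf 6) (RT.lf 0)))) (RT.lf 6))))))))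

/-- the rank tree -/
def q7 : RT :=
  (RT.nd 20 (RT.nd 58 q7_0 (RT.nd 57 q7_1 q7_2)) (RT.nd 58 q7_3 (RT.nd 57 q7_4 (RT.nd 59 q7_5 q7_6))))

/-- the good value of the rank, plus one -/
def g7 (x : ℕ) : Bool := Nat.beq x 4

theorem q7_vlt : q7.vlt (56 + 8 * 1) = true := by decide +kernel

theorem q7_vok : q7.vok v7 = true := by decide +kernel

end Win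

end Pool.Agent.GCP
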