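import Pool.Agent.GCP.W7x0a

/-!
# The decision tree, rank 7, swap 0 (MP_062f91_co)
-/

namespace Pool.Agent.GCP

namespace Win

/-- masks of the parts -/
def f7_0 : List (ℕ × ℕ) :=
  [(216172816474571795, 0)]

theorem c7_0 : part2 w7E 363 m2_0 0 7 r1 q7 g7 f7_0 0xfa0 216172816474571795 0 = true := by decide +kernel

theorem w7_0 {X : Finset Pt} {w : Pt} {P P' : ℕ → Pt}
    (hX : GeneralPosition X) (hn : 9 ≤ X.card) (hK1 : K1 X) (hK2 : K2 X) (hw : w ≠ 0)
    (hst : Stp X w 0 P P') (hc : r1.ev (vw (Lh X) P) = 7)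
    (hc' : r1.ev (RT.ren m2_0 (vw (Lh X) P)) = 7) : Dec q7 g7 0 m2_0 (vw (Lh X) P) := by
  have h0 := init2_asg0 hX (by omega) hw hst
  rw [show Nat.lor (Nat.lor (mT 0) (Nat.pow 2 56)) (Nat.pow 2 57) = 216172816474571795 from by decide +kernel, show mF 0 = 0 from by decide +kernel] at h0
  refine part2_sound w7E_tab hX hn hK1 hK2 hw hst hc hc' ?_ c7_0 h0
  intro q hq ha
  simp only [f7_0, List.mem_cons, List.not_mem_nil, or_false] at hq
  rcases hq with rfl
  · exact part2_sound w7E_tab hX hn hK1 hK2 hw hst hc hc' (fun q hq => absurd hq List.not_mem_nil) c7_0_0 ha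

end Win

end Pool.Agent.GCP
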