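import Pool.Agent.GCP.W8Tab
import Pool.Agent.GCP.WRank
import Pool.Agent.GCP.WRen

/-!
# The rank of a labelled window of rank 8 (MP_062f91_co)
-/

namespace Pool.Agent.GCP

namespace Win

/-- a part of the rank tree -/
def q8_0 : RT :=
  (RT.nd 4 (RT.nd 10 (RT.nd 62 (RT.nd 32 (RT.nd 13 (RT.nd 16 (RT.lf 4) (RT.lf 1)) (RT.lf 1)) (RT.lf 1)) (RT.nd 61 (RT.nd 30 (RT.lf 1) (RT.nd 23 (RT.nd 26 (RT.lf 4) (RT.lf 1)) (RT.lf 1))) (RT.nd 60 (RT.nd 8 (RT.lf 1) (RT.lf 4)) (RT.lf 2)))) (RT.lf 0)) (RT.nd 60 (RT.lf 4) (RT.nd 61 (RT.lf 4) (RT.lf 0))))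

/-- a part of the rank tree -/
def q8_1 : RT :=
  (RT.nd 57 (RT.nd 21 (RT.nd 62 (RT.nd 31 (RT.nd 13 (RT.nd 16 (RT.lf 4) (RT.lf 1)) (RT.nd 27 (RT.lf 0) (RT.lf 1))) (RT.lf 1)) (RT.nd 61 (RT.nd 30 (RT.lf 1) (RT.nd 23 (RT.nd 26 (RT.lf 4) (RT.lf 1)) (RT.lf 1))) (RT.nd 60 (RT.nd 9 (RT.lf 1) (RT.lf 4)) (RT.nd 13 (RT.lf 2) (RT.nd 27 (RT.lf 0) (RT.lf 2)))))) (RT.lf 0)) (RT.nd 59 (RT.nd 29 (RT.nd 61 (RT.nd 1 (RT.nd 19 (RT.lf 0) (RT.lf 4)) (RT.lf 1)) (RT.nd 21 (RT.nd 60 (RT.lf 4) (RT.nd 10 (RT.nd 11 (RT.nd 62 (RT.lf 4) (RT.lf 2)) (RT.lf 0)) (RT.lf 0))) (RT.nd 62 (RT.lf 3) (RT.lf 2)))) (RT.nd 62 (RT.nd 33 (RT.nd 10 (RT.nd 11 (RT.lf 4) (RT.lf 1)) (RT.lf 1)) (RT.lf 1)) (RT.nd 61 (RT.nd 30 (RT.lf 1) (RT.nd 21 (RT.lf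 4) (RT.lf 1))) (RT.nd 60 (RT.lf 4) (RT.lf 2))))) (RT.nd 10 (RT.nd 13 (RT.nd 21 (RT.nd 11 (RT.lf 0) (RT.nd 4 (RT.lf 0) (RT.nd 62 (RT.lf 2) (RT.lf 4)))) (RT.nd 1 (RT.nd 61 (RT.lf 2) (RT.lf 4)) (RT.lf 0))) (RT.nd 34 (RT.nd 11 (RT.nd 21 (RT.lf 0) (RT.nd 60 (RT.lf 2) (RT.lf 4))) (RT.nd 62 (RT.lf 2) (RT.lf 4))) (RT.nd 11 (RT.nd 62 (RT.lf 2) (RT.lf 4)) (RT.nd 60 (RT.nd 62 (RT.lf 1) (RT.lf 2)) (RT.lf 0))))) (RT.nd 29 (RT.nd 62 (RT.nd 61 (RT.lf 1) (RT.nd 60 (RT.lf 1) (RT.nd 23 (RT.nd 21 (RT.lf 2) (RT.lf 0)) (RT.nd 21 (RT.lf 0) (RT.lf 4))))) (RT.nd 61 (RT.nd 19 (RT.lf 0) (RT.lf 2)) (RT.nd 60 (RT.lf 2) (RT.nd 4 (RT.nd 23 (RT.lf 4) (RT.nd 19 (RT.lf 4) (RT.lf 0))) (RT.nd 7 (RT.nd 0 (RT.lf 0) (RT.lf 4)) (RT.lf 0))))))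 (RT.lf 0)))))

/-- a part of the rank tree -/
def q8_2 : RT :=
  (RT.nd 30 (RT.nd 21 (RT.nd 1 (RT.lf 0) (RT.nd 57 (RT.lf 4) (RT.lf 2))) (RT.lf 0)) (RT.nd 23 (RT.nd 19 (RT.nd 59 (RT.lf 0) (RT.nd 62 (RT.lf 0) (RT.lf 2))) (RT.nd 59 (RT.lf 1) (RT.lf 0))) (RT.nd 21 (RT.nd 58 (RT.lf 0) (RT.nd 62 (RT.lf 0) (RT.lf 2))) (RT.nd 57 (RT.nd 24 (RT.nd 27 (RT.lf 3) (RT.lf 0)) (RT.lf 0)) (RT.nd 58 (RT.nd 25 (RT.nd 28 (RT.lf 3) (RT.lf 0)) (RT.lf 0)) (RT.nd 59 (RT.nd 29 (RT.lf 3) (RT.lf 0)) (RT.nd 29 (RT.nd 1 (RT.lf 4) (RT.nd 16 (RT.lf 4) (RT.nd 24 (RT.lf 4) (RT.nd 25 (RT.lf 4) (RT.lf 0))))) (RT.nd 1 (RT.lf 0) (RT.nd 13 (RT.lf 4) (RT.nd 27 (RT.lf 4) (RT.nd 28 (RT.lf 4) (RT.lf 0))))))))))))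

/-- a part of the rank tree -/
def q8_3 : RT :=
  (RT.nd 62 (RT.nd 30 (RT.nd 57 (RT.nd 14 (RT.nd 17 (RT.lf 3) (RT.lf 0)) (RT.lf 0)) (RT.nd 58 (RT.nd 15 (RT.nd 18 (RT.lf 3) (RT.lf 0)) (RT.lf 0)) (RT.nd 59 (RT.nd 19 (RT.lf 3) (RT.lf 0)) (RT.nd 23 (RT.lf 4) (RT.nd 19 (RT.nd 1 (RT.lf 4) (RT.nd 14 (RT.lf 4) (RT.nd 15 (RT.lf 4) (RT.lf 0)))) (RT.nd 17 (RT.lf 4) (RT.nd 18 (RT.lf 4) (RT.lf 0)))))))) (RT.nd 29 (RT.lf 0) (RT.nd 59 (RT.nd 1 (RT.nd 10 (RT.lf 4) (RT.nd 11 (RT.lf 4) (RT.lf 0))) (RT.lf 1)) (RT.nd 13 (RT.nd 23 (RT.lf 0) (RT.nd 34 (RT.nd 57 (RT.lf 4) (RT.nd 58 (RT.lf 4) (RT.lf 2))) (RT.nd 16 (RT.nd 1 (RT.lf 0) (RT.nd 57 (RT.lf 4) (RT.nd 58 (RT.lf 4) (RT.lf 2)))) (RT.lf 0)))) (RT.nd 1 (RT.nd 7 (RT.lf 0)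 (RT.nd 10 (RT.lf 2) (RT.nd 11 (RT.lf 2) (RT.lf 0)))) (RT.lf 0)))))) (RT.nd 59 (RT.nd 29 (RT.nd 60 (RT.lf 0) (RT.lf 2)) (RT.nd 34 (RT.lf 0) (RT.nd 10 (RT.nd 19 (RT.lf 0) (RT.lf 2)) (RT.lf 2)))) (RT.nd 58 (RT.nd 4 (RT.lf 0) (RT.nd 60 (RT.nd 8 (RT.lf 0) (RT.lf 3)) (RT.nd 10 (RT.lf 0) (RT.lf 2)))) (RT.nd 57 (RT.nd 60 (RT.nd 9 (RT.nd 21 (RT.lf 4) (RT.lf 0)) (RT.lf 3)) (RT.nd 21 (RT.lf 0) (RT.nd 13 (RT.nd 27 (RT.lf 2) (RT.lf 0)) (RT.lf 2)))) (RT.nd 60 (RT.nd 16 (RT.nd 21 (RT.lf 2) (RT.lf 0)) (RT.nd 4 (RT.lf 2) (RT.lf 4))) (RT.nd 13 (RT.nd 30 (RT.lf 0) (RT.nd 7 (RT.nd 23 (RT.nd 21 (RT.lf 0) (RT.lf 4)) (RT.nd 27 (RT.lf 4) (RT.nd 28 (RT.lf 4) (RT.lf 0)))) (RT.lf 4))) (RT.nd 10 (RT.nd 29 (RT.lf 4) (RT.nd 7 (RT.lf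 4) (RT.lf 0))) (RT.nd 21 (RT.nd 1 (RT.lf 4) (RT.lf 0)) (RT.nd 11 (RT.nd 4 (RT.lf 0) (RT.lf 4)) (RT.lf 4))))))))))

/-- the rank tree -/
def q8 : RT :=
  (RT.nd 20 (RT.nd 58 q8_0 q8_1) (RT.nd 61 q8_2 q8_3))

/-- the good value of the rank, plus one -/
def g8 (x : ℕ) : Bool := Nat.beq x 3

theorem q8_vlt : q8.vlt (56 + 8 * 1) = true := by decide +kernel

theorem q8_vok : q8.vok v7 = true := by decide +kernel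

end Win

end Pool.Agent.GCP
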