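import Pool.Agent.GCP.Cert
import Pool.Agent.GCP.Rank
import Pool.Agent.GCP.FactA

/-!
# Windows of eight points: signs, labels and facts (MP_062f91_co)

The variable of `a < b < c < 8` is `idx (a+1) (b+1) (c+1)`, the variables from `56` on are labels.
-/

namespace Pool.Agent.GCP

namespace Win

/-- the assignment of a list of points -/
def vw (L : ℕ → Pt → Prop) (P : ℕ → Pt) (v : ℕ) : Prop :=
  if v < 56 then val (fun i => P (i - 1)) v else L ((v - 56) / 8) (P ((v - 56) % 8))

/-- the variable of `a < b < c` -/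
def ix (a b c : ℕ) : ℕ := idx (Nat.succ a) (Nat.succ b) (Nat.succ c)

lemma ix_lt {a b c : ℕ} (h1 : a < b) (h2 : b < c) (h3 : c < 8) : ix a b c < 56 := by
  have h := (idx_lt (i := a + 1) (j := b + 1) (k := c + 1) (by omega) (by omega) (by omega)).2
  have h4 : (c + 1).choose 3 ≤ Nat.choose 8 3 := Nat.choose_le_choose 3 (by omega)
  have h5 : Nat.choose 8 3 = 56 := by decide
  have h6 : ix a b c = idx (a + 1) (b + 1) (c + 1) := rfl
  omega

lemma vw_ix (L : ℕ → Pt → Prop) (P : ℕ → Pt) {a b c : ℕ} (h1 : a < b) (h2 : b < c) (h3 : c < 8) :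
    vw L P (ix a b c) ↔ 0 < orient (P a) (P b) (P c) := by
  unfold vw
  rw [if_pos (ix_lt h1 h2 h3)]
  exact val_idx (P := fun i => P (i - 1)) (i := a + 1) (j := b + 1) (k := c + 1) (by omega)
    (by omega) (by omega)

lemma vw_lab (L : ℕ → Pt → Prop) (P : ℕ → Pt) {m i : ℕ} (hi : i < 8) :
    vw L P (56 + 8 * m + i) ↔ L m (P i) := by
  unfold vw
  rw [if_neg (by omega)]
  have h1 : (56 + 8 * m + i - 56) / 8 = m := by omega
  have h2 : (56 + 8 * m + i - 56) % 8 = i := by omega
  rw [h1, h2]

/-- facts on a window -/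
structure WF (P : ℕ → Pt) : Prop where
  inj : ∀ i j, i < 8 → j < 8 → i ≠ j → P i ≠ P j
  gp : ∀ i j k, i < 8 → j < 8 → k < 8 → i ≠ j → j ≠ k → i ≠ k → orient (P i) (P j) (P k) ≠ 0
  sig : IsSig 8 (fun i j k => 0 < orient (P (i - 1)) (P (j - 1)) (P (k - 1)))

/-- literal for windows, positions from 0 -/
def lw (T F a b c : ℕ) : Bool := lit T F (Nat.succ a) (Nat.succ b) (Nat.succ c)

section
variable {L : ℕ → Pt → Prop} {P : ℕ → Pt}

lemma lw_sound (hf : WF P) {T F : ℕ} (ha : Asg (vw L P) T F) {a b c : ℕ} (h1 : a < 8) (h2 : b < 8)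
    (h3 : c < 8) (h : lw T F a b c = true) : 0 < orient (P a) (P b) (P c) := by
  have pos : ∀ {a b c : ℕ}, c < 8 → a < b → b < c →
      (Nat.beq (Nat.succ a) 0 || tb T (ix a b c)) = true → 0 < orient (P a) (P b) (P c) := by
    intro a b c hc hab hbc h
    rw [Bool.or_eq_true, Nat.beq_eq, tb_iff] at h
    rcases h with h | h
    · exact absurd h (by omega)
    · exact (vw_ix L P hab hbc hc).1 ((ha _).1 h)
  have neg : ∀ {a b c : ℕ}, c < 8 → a < b → b < c →
      (lt' 0 (Nat.succ a) && tb F (ix a b c)) = true → orient (P a) (P b) (P c) < 0 := by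
    intro a b c hc hab hbc h
    rw [Bool.and_eq_true, lt'_iff, tb_iff] at h
    have h3 := (ha _).2 h.2
    rw [vw_ix L P hab hbc hc, not_lt] at h3
    exact lt_of_le_of_ne h3 (hf.gp a b c (by omega) (by omega) hc (by omega) (by omega) (by omega))
  simp only [lw, lit, Bool.or_eq_true, Bool.and_eq_true (lt' (Nat.succ a) (Nat.succ b)),
    Bool.and_eq_true (lt' (Nat.succ b) (Nat.succ c)), Bool.and_eq_true (lt' (Nat.succ a) (Nat.succ c)),
    Bool.and_eq_true (lt' (Nat.succ c) (Nat.succ b)), Bool.and_eq_true (lt' (Nat.succ c) (Nat.succ a)),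
    Bool.and_eq_true (lt' (Nat.succ b) (Nat.succ a))] at h
  have c1 := orient_cyc (P a) (P b) (P c)
  have c2 := orient_cyc (P b) (P c) (P a)
  have s1 := orient_swap' (P a) (P b) (P c)
  have s2 := orient_swap (P a) (P b) (P c)
  have s3 := orient_swap (P b) (P c) (P a)
  rcases h with h | h | h | h | h | h
  · rw [lt'_iff, lt'_iff] at h
    exact pos h3 (by omega) (by omega) (by rw [Bool.or_eq_true]; exact h.2.2)
  · rw [lt'_iff, lt'_iff] at h
    have := neg h2 (by omega : a < c) (by omega) h.2.2
    linarith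
  · rw [lt'_iff, lt'_iff] at h
    have := pos h2 (by omega : c < a) (by omega) (by rw [Bool.or_eq_true]; exact h.2.2)
    linarith
  · rw [lt'_iff, lt'_iff] at h
    have := neg h3 (by omega : b < a) (by omega) h.2.2
    linarith
  · rw [lt'_iff, lt'_iff] at h
    have := pos h1 (by omega : b < c) (by omega) (by rw [Bool.or_eq_true]; exact h.2.2)
    linarith
  · rw [lt'_iff, lt'_iff] at h
    have := neg h1 (by omega : c < b) (by omega) h.2.2
    linarith

end

/-! ### sorted lists -/

lemma three_le {a b c x y z : ℝ} (ha : 0 ≤ a) (hb : 0 ≤ b) (hc : 0 ≤ c) (hs : 0 < a + b + c)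
    (h : a * x - b * y + c * z = 0) (hx : x ≠ 0) (hy : y ≠ 0) (hz : z ≠ 0) :
    ¬ (0 < x ∧ ¬ 0 < y ∧ 0 < z) ∧ ¬ (¬ 0 < x ∧ 0 < y ∧ ¬ 0 < z) := by
  constructor
  · rintro ⟨h1, h2, h3⟩
    have h2' : y < 0 := lt_of_le_of_ne (not_lt.1 h2) hy
    have a1 : 0 ≤ a * x := mul_nonneg ha h1.le
    have a2 : 0 ≤ b * (-y) := mul_nonneg hb (by linarith)
    have a3 : 0 ≤ c * z := mul_nonneg hc h3.le
    have b1 : a * x = 0 := by linarith
    have b2 : b * (-y) = 0 := by linarith
    have b3 : c * z = 0 := by linarith
    have c1 : a = 0 := (mul_eq_zero.1 b1).resolve_right hx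
    have c2 : b = 0 := (mul_eq_zero.1 b2).resolve_right (by linarith)
    have c3 : c = 0 := (mul_eq_zero.1 b3).resolve_right hz
    linarith
  · rintro ⟨h1, h2, h3⟩
    have h1' : x < 0 := lt_of_le_of_ne (not_lt.1 h1) hx
    have h3' : z < 0 := lt_of_le_of_ne (not_lt.1 h3) hz
    have a1 : 0 ≤ a * (-x) := mul_nonneg ha (by linarith)
    have a2 : 0 ≤ b * y := mul_nonneg hb (by linarith)
    have a3 : 0 ≤ c * (-z) := mul_nonneg hc (by linarith)
    have b1 : a * (-x) = 0 := by linarith
    have b2 : b * y = 0 := by linarith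
    have b3 : c * (-z) = 0 := by linarith
    have c1 : a = 0 := (mul_eq_zero.1 b1).resolve_right (by linarith)
    have c2 : b = 0 := (mul_eq_zero.1 b2).resolve_right hy
    have c3 : c = 0 := (mul_eq_zero.1 b3).resolve_right (by linarith)
    linarith

section
variable {X : Finset Pt} {w : Pt} {P : ℕ → Pt}

lemma srt_ne (h : Srt X w P) {i j : ℕ} (hi : i < X.card) (hj : j < X.card) (hij : i ≠ j) :
    P i ≠ P j := fun e => hij (h.inj i j hi hj e)

lemma srt_gp (hX : GeneralPosition X) (h : Srt X w P) {i j k : ℕ} (hi : i < X.card)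
    (hj : j < X.card) (hk : k < X.card) (h1 : i ≠ j) (h2 : j ≠ k) (h3 : i ≠ k) :
    orient (P i) (P j) (P k) ≠ 0 :=
  orient_ne hX (h.mem i hi) (h.mem j hj) (h.mem k hk) (srt_ne h hi hj h1) (srt_ne h hj hk h2)
    (srt_ne h hi hk h3)

/-- two of three heights differ -/
lemma srt_lt (hX : GeneralPosition X) (hw : w ≠ 0) (h : Srt X w P) {i j k : ℕ} (h1 : i < j)
    (h2 : j < k) (hk : k < X.card) : ht w (P k) < ht w (P i) := by
  have a1 := h.mono i j h1 (by omega)
  have a2 := h.mono j k h2 hk
  rcases eq_or_lt_of_le (a2.trans a1) with h3 | h3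
  · exact absurd (Sweep.orient_of_tie hw (show ht w (P i) = ht w (P j) by linarith)
      (show ht w (P j) = ht w (P k) by linarith))
      (srt_gp hX h (by omega) (by omega) hk (by omega) (by omega) (by omega))
  · exact h3

lemma sig_of_srt (hX : GeneralPosition X) (hw : w ≠ 0) (h : Srt X w P) :
    IsSig X.card (fun i j k => 0 < orient (P (i - 1)) (P (j - 1)) (P (k - 1))) := by
  intro i j k l hi hij hjk hkl hl
  have n1 := srt_gp hX h (i := j - 1) (j := k - 1) (k := l - 1) (by omega) (by omega) (by omega)
    (by omega) (by omega) (by omega)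
  have n2 := srt_gp hX h (i := i - 1) (j := k - 1) (k := l - 1) (by omega) (by omega) (by omega)
    (by omega) (by omega) (by omega)
  have n3 := srt_gp hX h (i := i - 1) (j := j - 1) (k := l - 1) (by omega) (by omega) (by omega)
    (by omega) (by omega) (by omega)
  have n4 := srt_gp hX h (i := i - 1) (j := j - 1) (k := k - 1) (by omega) (by omega) (by omega)
    (by omega) (by omega) (by omega)
  have m1 := h.mono (i - 1) (j - 1) (by omega) (by omega)
  have m2 := h.mono (j - 1) (k - 1) (by omega) (by omega)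
  have m3 := h.mono (k - 1) (l - 1) (by omega) (by omega)
  have m4 := srt_lt hX hw h (i := i - 1) (j := j - 1) (k := k - 1) (by omega) (by omega) (by omega)
  have m5 := srt_lt hX hw h (i := j - 1) (j := k - 1) (k := l - 1) (by omega) (by omega) (by omega)
  beta_reduce
  generalize P (i - 1) = A at *
  generalize P (j - 1) = B at *
  generalize P (k - 1) = C at *
  generalize P (l - 1) = D at *
  refine ⟨?_, ?_, ?_, ?_⟩
  · exact three_le (a := ht w A - ht w D) (b := ht w B - ht w D) (c := ht w C - ht w D)
      (by linarith) (by linarith) (by linarith) (by linarith) (by unfold ht orient; ring) n1 n2 n3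
  · exact three_le (a := ht w A - ht w C) (b := ht w B - ht w C) (c := ht w C - ht w D)
      (by linarith) (by linarith) (by linarith) (by linarith) (by unfold ht orient; ring) n1 n2 n4
  · exact three_le (a := ht w A - ht w B) (b := ht w B - ht w C) (c := ht w B - ht w D)
      (by linarith) (by linarith) (by linarith) (by linarith) (by unfold ht orient; ring) n1 n3 n4
  · exact three_le (a := ht w A - ht w B) (b := ht w A - ht w C) (c := ht w A - ht w D)
      (by linarith) (by linarith) (by linarith) (by linarith) (by unfold ht orient; ring) n2 n3 n4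

lemma wf_of_srt (hX : GeneralPosition X) (hn : 8 ≤ X.card) (hw : w ≠ 0) (h : Srt X w P) : WF P := by
  refine ⟨?_, ?_, ?_⟩
  · intro i j hi hj hij
    exact srt_ne h (by omega) (by omega) hij
  · intro i j k hi hj hk h1 h2 h3
    exact srt_gp hX h (by omega) (by omega) (by omega) h1 h2 h3
  · intro i j k l h1 h2 h3 h4 h5
    exact sig_of_srt hX hw h i j k l h1 h2 h3 h4 (by omega)

/-- the points of a swap and a third point -/
lemma swap_sign (hX : GeneralPosition X) (hw : w ≠ 0) {j : ℕ} {P' : ℕ → Pt} (h : Stp X w j P P') :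
    (∀ c, c < j → orient (P c) (P j) (P (j + 1)) < 0) ∧
    (∀ c, j + 1 < c → c < X.card → 0 < orient (P j) (P (j + 1)) (P c)) := by
  have hn : 0 < w.1 ^ 2 + w.2 ^ 2 := by
    by_contra hc
    apply hw
    have : w.1 = 0 := by nlinarith [sq_nonneg w.1, sq_nonneg w.2]
    have : w.2 = 0 := by nlinarith [sq_nonneg w.1, sq_nonneg w.2]
    ext <;> assumption
  have hp := h.pos
  have htie := h.tie
  have key : ∀ c : Pt, (w.1 ^ 2 + w.2 ^ 2) * orient c (P j) (P (j + 1)) =
      crs w (P (j + 1) - P j) * (ht w (P j) - ht w c) := by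
    intro c
    have e0 : w.1 * ((P (j + 1)).1 - (P j).1) + w.2 * ((P (j + 1)).2 - (P j).2) = 0 := by
      unfold ht at htie; linarith
    have : (w.1 ^ 2 + w.2 ^ 2) * orient c (P j) (P (j + 1)) =
      crs w (P (j + 1) - P j) * (ht w (P j) - ht w c) +
      (w.2 * ((P j).1 - c.1) - w.1 * ((P j).2 - c.2)) *
        (w.1 * ((P (j + 1)).1 - (P j).1) + w.2 * ((P (j + 1)).2 - (P j).2)) := by
      unfold orient crs ht
      simp only [Prod.fst_sub, Prod.snd_sub]
      ring
    rw [this, e0]; ring
  constructor
  · intro c hc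
    have h1 := srt_lt hX hw h.s (i := c) (j := j) (k := j + 1) hc (by omega) h.lt
    rw [htie] at h1
    have h2 := key (P c)
    have h3 : crs w (P (j + 1) - P j) * (ht w (P j) - ht w (P c)) < 0 :=
      mul_neg_of_pos_of_neg hp (by linarith)
    by_contra h4
    have := mul_nonneg hn.le (not_lt.1 h4)
    linarith
  · intro c hc hcn
    have h1 := srt_lt hX hw h.s (i := j) (j := j + 1) (k := c) (by omega) hc hcn
    have h2 := key (P c)
    have h3 : 0 < crs w (P (j + 1) - P j) * (ht w (P j) - ht w (P c)) :=
      mul_pos hp (by linarith)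
    have e : orient (P j) (P (j + 1)) (P c) = orient (P c) (P j) (P (j + 1)) := by
      unfold orient; ring
    rw [e]
    by_contra h4
    have := mul_nonneg hn.le (show 0 ≤ - orient (P c) (P j) (P (j + 1)) by linarith [not_lt.1 h4])
    linarith

/-- the highest `k` points are cut off by a line -/
lemma top_cut (hX : GeneralPosition X) (hw : w ≠ 0) (h : Srt X w P) {k : ℕ} (hk : 0 < k)
    (hkn : k < X.card) :
    Disjoint (convexHull ℝ (((Finset.range k).image P : Finset Pt) : Set Pt))
      (convexHull ℝ ((X \ (Finset.range k).image P : Finset Pt) : Set Pt)) := by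
  classical
  have hb : ∀ x ∈ X \ (Finset.range k).image P, ∃ i, k ≤ i ∧ i < X.card ∧ P i = x := by
    intro x hx
    rw [Finset.mem_sdiff, Finset.mem_image] at hx
    obtain ⟨i, hi, rfl⟩ := Sweep.surj h hx.1
    refine ⟨i, ?_, hi, rfl⟩
    by_contra hik
    exact hx.2 ⟨i, Finset.mem_range.2 (by omega), rfl⟩
  rcases eq_or_lt_of_le (h.mono (k - 1) k (by omega) hkn) with he | hlt
  · -- the line through the tied points
    have hne : P (k - 1) ≠ P k := srt_ne h (by omega) hkn (by omega)
    set a := P (k - 1) with ha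
    set b := P k with hb'
    have hn : 0 < w.1 ^ 2 + w.2 ^ 2 := by
      by_contra hc
      apply hw
      have : w.1 = 0 := by nlinarith [sq_nonneg w.1, sq_nonneg w.2]
      have : w.2 = 0 := by nlinarith [sq_nonneg w.1, sq_nonneg w.2]
      ext <;> assumption
    have key : ∀ z : Pt, (w.1 ^ 2 + w.2 ^ 2) * orient a b z =
        crs w (b - a) * (ht w a - ht w z) := by
      intro z
      have e0 : w.1 * (b.1 - a.1) + w.2 * (b.2 - a.2) = 0 := by
        unfold ht at he; linarith
      have : (w.1 ^ 2 + w.2 ^ 2) * orient a b z = crs w (b - a) * (ht w a - ht w z) -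
        (w.2 * (z.1 - a.1) - w.1 * (z.2 - a.2)) *
          (w.1 * (b.1 - a.1) + w.2 * (b.2 - a.2)) := by
        unfold orient crs ht
        simp only [Prod.fst_sub, Prod.snd_sub]
        ring
      rw [this, e0]; ring
    have hup : ∀ x ∈ (((Finset.range k).image P : Finset Pt) : Set Pt), x ≠ a →
        ht w a < ht w x := by
      intro x hx hxa
      rw [Finset.mem_coe, Finset.mem_image] at hx
      obtain ⟨i, hi, rfl⟩ := hx
      rw [Finset.mem_range] at hi
      have hi' : i ≠ k - 1 := by
        rintro rfl; exact hxa rfl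
      have := srt_lt hX hw h (i := i) (j := k - 1) (k := k) (by omega) (by omega) hkn
      rw [← hb', he] at this
      exact this
    have hdn : ∀ x ∈ ((X \ (Finset.range k).image P : Finset Pt) : Set Pt), x ≠ b →
        ht w x < ht w a := by
      intro x hx hxb
      obtain ⟨i, h1, h2, rfl⟩ := hb x (Finset.mem_coe.1 hx)
      have hi' : i ≠ k := by
        rintro rfl; exact hxb rfl
      exact srt_lt hX hw h (i := k - 1) (j := k) (k := i) (by omega) (by omega) h2
    have hc0 : crs w (b - a) ≠ 0 := by
      intro h0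
      have h1 : ∀ z, orient a b z = 0 := by
        intro z
        have := key z
        rw [h0, zero_mul] at this
        exact (mul_eq_zero.1 this).resolve_left hn.ne'
      have h2 := h1 (a.1 - (b.2 - a.2), a.2 + (b.1 - a.1))
      have h3 : (b.1 - a.1) ^ 2 + (b.2 - a.2) ^ 2 = 0 := by
        have : orient a b (a.1 - (b.2 - a.2), a.2 + (b.1 - a.1)) =
          (b.1 - a.1) ^ 2 + (b.2 - a.2) ^ 2 := by unfold orient; simp only; ring
        rw [← this]; exact h2
      apply hne
      ext
      · nlinarith [sq_nonneg (b.1 - a.1), sq_nonneg (b.2 - a.2)]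
      · nlinarith [sq_nonneg (b.1 - a.1), sq_nonneg (b.2 - a.2)]
    rcases lt_or_gt_of_ne hc0 with hc | hc
    · refine hull_disjoint hne ?_ ?_
      · intro x hx hxa
        have h1 := hup x hx hxa
        have h2 := key x
        have h3 : 0 < crs w (b - a) * (ht w a - ht w x) := mul_pos_of_neg_of_neg hc (by linarith)
        by_contra h4
        have := mul_nonneg hn.le (show 0 ≤ - orient a b x by linarith [not_lt.1 h4])
        linarith
      · intro x hx hxb
        have h1 := hdn x hx hxb
        have h2 := key x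
        have h3 : crs w (b - a) * (ht w a - ht w x) < 0 := mul_neg_of_neg_of_pos hc (by linarith)
        by_contra h4
        have := mul_nonneg hn.le (not_lt.1 h4)
        linarith
    · refine hull_disjoint' hne ?_ ?_
      · intro x hx hxa
        have h1 := hup x hx hxa
        have h2 := key x
        have h3 : crs w (b - a) * (ht w a - ht w x) < 0 := mul_neg_of_pos_of_neg hc (by linarith)
        by_contra h4
        have := mul_nonneg hn.le (not_lt.1 h4)
        linarith
      · intro x hx hxb
        have h1 := hdn x hx hxb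
        have h2 := key x
        have h3 : 0 < crs w (b - a) * (ht w a - ht w x) := mul_pos hc (by linarith)
        by_contra h4
        have := mul_nonneg hn.le (show 0 ≤ - orient a b x by linarith [not_lt.1 h4])
        linarith
  · -- a line strictly between
    have hconv : ∀ (s : ℝ), Convex ℝ {z : Pt | s < ht w z} ∧ Convex ℝ {z : Pt | ht w z ≤ s} := by
      intro s
      constructor
      · intro x hx y hy a b ha hb hab
        simp only [Set.mem_ofPred_eq] at hx hy ⊢
        have : ht w (a • x + b • y) = a * ht w x + b * ht w y := by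
          unfold ht
          simp only [Prod.fst_add, Prod.snd_add, Prod.smul_fst, Prod.smul_snd, smul_eq_mul]
          ring
        rw [this]
        have hb1 : b = 1 - a := by linarith
        subst hb1
        rcases ha.eq_or_lt with h0 | h0
        · rw [← h0]; linarith
        · nlinarith [mul_pos h0 (sub_pos.2 hx), mul_nonneg hb (sub_pos.2 hy).le]
      · intro x hx y hy a b ha hb hab
        simp only [Set.mem_ofPred_eq] at hx hy ⊢
        have : ht w (a • x + b • y) = a * ht w x + b * ht w y := by
          unfold ht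
          simp only [Prod.fst_add, Prod.snd_add, Prod.smul_fst, Prod.smul_snd, smul_eq_mul]
          ring
        rw [this]
        have hb1 : b = 1 - a := by linarith
        subst hb1
        nlinarith [mul_nonneg ha (sub_nonneg.2 hx), mul_nonneg hb (sub_nonneg.2 hy)]
    obtain ⟨c1, c2⟩ := hconv (ht w (P k))
    rw [Set.disjoint_left]
    intro z h1 h2
    have k1 : z ∈ {z : Pt | ht w (P k) < ht w z} := by
      refine convexHull_min ?_ c1 h1
      intro x hx
      rw [Finset.mem_coe, Finset.mem_image] at hx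
      obtain ⟨i, hi, rfl⟩ := hx
      rw [Finset.mem_range] at hi
      show ht w (P k) < ht w (P i)
      rcases eq_or_lt_of_le (show i ≤ k - 1 by omega) with h3 | h3
      · rw [h3]; exact hlt
      · exact lt_of_lt_of_le hlt (h.mono i (k - 1) h3 (by omega))
    have k2 : z ∈ {z : Pt | ht w z ≤ ht w (P k)} := by
      refine convexHull_min ?_ c2 h2
      intro x hx
      obtain ⟨i, h3, h4, rfl⟩ := hb x (Finset.mem_coe.1 hx)
      show ht w (P i) ≤ ht w (P k)
      rcases eq_or_lt_of_le h3 with h5 | h5
      · rw [h5]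
      · exact h.mono k i h5 h4
    simp only [Set.mem_ofPred_eq] at k1 k2
    linarith

end

end Win

end Pool.Agent.GCP
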