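import Pool.Agent.GCP.WinT
import Pool.Agent.GCP.PaE0
import Pool.Agent.GCP.PaE1
import Pool.Agent.GCP.PaE2
import Pool.Agent.GCP.PaE3
import Pool.Agent.GCP.PaE4
import Pool.Agent.GCP.PaF0
import Pool.Agent.GCP.PaF1
import Pool.Agent.GCP.PaF2
import Pool.Agent.GCP.PaF3
import Pool.Agent.GCP.PaF4
import Pool.Agent.GCP.PaF5
import Pool.Agent.GCP.PaG0
import Pool.Agent.GCP.PaG1

/-!
# The certificates for windows over six hull edges
-/

namespace Pool.Agent.GCP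

namespace Geo

variable {X : Finset Pt} {P : ℕ → Pt} {K : ℕ}

lemma f8_false {r q : ℕ} (hr : r ≤ 5) (hq : (11 ≤ q ∧ q ≤ 12) ∨ (14 ≤ q ∧ q < 14 + r))
    (hp : Patch (pd6 12 r 8 q [(1, q, 10), (4, 12 + r + 2, 10)] [(4, 12 + r + 2, 8)] []) P X)
    (hI : Irr X K t414 []) : False := by
  interval_cases r
  · rcases hq with ⟨a1, a2⟩ | ⟨a1, a2⟩
    · interval_cases q
      · exact PaF0.f8_8_0_11.fin hp hI
      · exact PaF0.f8_8_0_12.fin hp hI
    · omega
  · rcases hq with ⟨a1, a2⟩ | ⟨a1, a2⟩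
    · interval_cases q
      · exact PaF0.f8_8_1_11.fin hp hI
      · exact PaF0.f8_8_1_12.fin hp hI
    · obtain rfl : q = 14 := by omega
      exact PaF0.f8_8_1_14.fin hp hI
  · rcases hq with ⟨a1, a2⟩ | ⟨a1, a2⟩
    · interval_cases q
      · exact PaF0.f8_8_2_11.fin hp hI
      · exact PaF0.f8_8_2_12.fin hp hI
    · interval_cases q
      · exact PaF0.f8_8_2_14.fin hp hI
      · exact PaF0.f8_8_2_15.fin hp hI
  · rcases hq with ⟨a1, a2⟩ | ⟨a1, a2⟩
    · interval_cases q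
      · exact PaF0.f8_8_3_11.fin hp hI
      · exact PaF0.f8_8_3_12.fin hp hI
    · interval_cases q
      · exact PaF0.f8_8_3_14.fin hp hI
      · exact PaF0.f8_8_3_15.fin hp hI
      · exact PaF0.f8_8_3_16.fin hp hI
  · rcases hq with ⟨a1, a2⟩ | ⟨a1, a2⟩
    · interval_cases q
      · exact PaF0.f8_8_4_11.fin hp hI
      · exact PaF1.f8_8_4_12.fin hp hI
    · interval_cases q
      · exact PaF1.f8_8_4_14.fin hp hI
      · exact PaF1.f8_8_4_15.fin hp hI
      · exact PaF1.f8_8_4_16.fin hp hI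
      · exact PaF1.f8_8_4_17.fin hp hI
  · rcases hq with ⟨a1, a2⟩ | ⟨a1, a2⟩
    · interval_cases q
      · exact PaF1.f8_8_5_11.fin hp hI
      · exact PaF1.f8_8_5_12.fin hp hI
    · interval_cases q
      · exact PaF2.f8_8_5_14.fin hp hI
      · exact PaF2.f8_8_5_15.fin hp hI
      · exact PaF2.f8_8_5_16.fin hp hI
      · exact PaF3.f8_8_5_17.fin hp hI
      · exact PaF3.f8_8_5_18.fin hp hI

lemma f9_false {r q : ℕ} (hr : r ≤ 4) (hq : (12 ≤ q ∧ q ≤ 12) ∨ (14 ≤ q ∧ q < 14 + r))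
    (hp : Patch (pd6 12 r 9 q [(1, q, 10), (4, 12 + r + 2, 10)] [(4, 12 + r + 2, 9)] []) P X)
    (hI : Irr X K t414 []) : False := by
  interval_cases r
  · rcases hq with ⟨a1, a2⟩ | ⟨a1, a2⟩
    · obtain rfl : q = 12 := by omega
      exact PaF3.f9_9_0_12.fin hp hI
    · omega
  · rcases hq with ⟨a1, a2⟩ | ⟨a1, a2⟩
    · obtain rfl : q = 12 := by omega
      exact PaF3.f9_9_1_12.fin hp hI
    · obtain rfl : q = 14 := by omega
      exact PaF3.f9_9_1_14.fin hp hI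
  · rcases hq with ⟨a1, a2⟩ | ⟨a1, a2⟩
    · obtain rfl : q = 12 := by omega
      exact PaF4.f9_9_2_12.fin hp hI
    · interval_cases q
      · exact PaF4.f9_9_2_14.fin hp hI
      · exact PaF4.f9_9_2_15.fin hp hI
  · rcases hq with ⟨a1, a2⟩ | ⟨a1, a2⟩
    · obtain rfl : q = 12 := by omega
      exact PaF4.f9_9_3_12.fin hp hI
    · interval_cases q
      · exact PaF4.f9_9_3_14.fin hp hI
      · exact PaF4.f9_9_3_15.fin hp hI
      · exact PaF4.f9_9_3_16.fin hp hI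
  · rcases hq with ⟨a1, a2⟩ | ⟨a1, a2⟩
    · obtain rfl : q = 12 := by omega
      exact PaF4.f9_9_4_12.fin hp hI
    · interval_cases q
      · exact PaF5.f9_9_4_14.fin hp hI
      · exact PaF5.f9_9_4_15.fin hp hI
      · exact PaF5.f9_9_4_16.fin hp hI
      · exact PaF5.f9_9_4_17.fin hp hI

lemma g8_false {q : ℕ} (hq : (11 ≤ q ∧ q ≤ 12) ∨ (14 ≤ q ∧ q < 14 + 6))
    (hp : Patch (pd6 12 6 8 q [(1, q, 8), (4, 20, 8)] [(4, 20, 8)] []) P X)
    (hI : Irr X K t414 []) : False := by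
  rcases hq with ⟨a1, a2⟩ | ⟨a1, a2⟩
  · interval_cases q
    · exact PaG0.g8_8_6_11.fin hp hI
    · exact PaG0.g8_8_6_12.fin hp hI
  · interval_cases q
    · exact PaG0.g8_8_6_14.fin hp hI
    · exact PaG0.g8_8_6_15.fin hp hI
    · exact PaG0.g8_8_6_16.fin hp hI
    · exact PaG0.g8_8_6_17.fin hp hI
    · exact PaG0.g8_8_6_18.fin hp hI
    · exact PaG0.g8_8_6_19.fin hp hI

lemma g9_false {q : ℕ} (hq : (12 ≤ q ∧ q ≤ 12) ∨ (14 ≤ q ∧ q < 14 + 5))
    (hp : Patch (pd6 12 5 9 q [(1, q, 9), (4, 19, 9)] [(4, 19, 9)] []) P X)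
    (hI : Irr X K t414 []) : False := by
  rcases hq with ⟨a1, a2⟩ | ⟨a1, a2⟩
  · obtain rfl : q = 12 := by omega
    exact PaG0.g9_9_5_12.fin hp hI
  · interval_cases q
    · exact PaG0.g9_9_5_14.fin hp hI
    · exact PaG0.g9_9_5_15.fin hp hI
    · exact PaG1.g9_9_5_16.fin hp hI
    · exact PaG1.g9_9_5_17.fin hp hI
    · exact PaG1.g9_9_5_18.fin hp hI

lemma e_false {r q : ℕ} (hr1 : 1 ≤ r) (hr : r ≤ 5) (hq1 : 13 ≤ q) (hq2 : q < 13 + r)
    (hp : Patch (pd6 11 r 10 q [(1, q, 10), (4, 11 + r + 2, 10)]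
      [(1, q, 10), (4, 11 + r + 2, 10)] [(1, q, 12)]) P X)
    (hI : Irr X K t414 []) : False := by
  interval_cases r
  · obtain rfl : q = 13 := by omega
    exact PaE0.e1_13.fin hp hI
  · interval_cases q
    · exact PaE0.e2_13.fin hp hI
    · exact PaE0.e2_14.fin hp hI
  · interval_cases q
    · exact PaE0.e3_13.fin hp hI
    · exact PaE0.e3_14.fin hp hI
    · exact PaE0.e3_15.fin hp hI
  · interval_cases q
    · exact PaE0.e4_13.fin hp hI
    · exact PaE0.e4_14.fin hp hI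
    · exact PaE0.e4_15.fin hp hI
    · exact PaE0.e4_16.fin hp hI
  · interval_cases q
    · exact PaE0.e5_13.fin hp hI
    · exact PaE1.e5_14.fin hp hI
    · exact PaE2.e5_15.fin hp hI
    · exact PaE3.e5_16.fin hp hI
    · exact PaE4.e5_17.fin hp hI

end Geo

end Pool.Agent.GCP
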