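import Pool.Agent.GCP.WinTab
import Pool.Agent.GCP.PaD0
import Pool.Agent.GCP.PaD1
import Pool.Agent.GCP.PaD2
import Pool.Agent.GCP.PaD3

/-!
# Windows over four hull edges with eleven points on both sides
-/

namespace Pool.Agent.GCP

namespace Geo

variable {X : Finset Pt} {h : ℕ} {p a c : ZMod h → Pt}

/-- The labels of four edges. -/
def lab4 (V : ℕ) : ℕ → ℕ
  | 0 => 0
  | 1 => 1
  | 2 => 4
  | 3 => 7
  | _ => V

/-- Tables for four edges. -/
def pd4 (N r : ℕ) : PD :=
  ⟨N + r + 2, [N + 1], true, true, 7, [(1, 4), (4, 7), (7, N + r + 2)],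
    [(2, 0, 1), (3, 1, 4)],
    (List.range r).map (fun j => (N + r + 2, N + 1, N + 2 + j)),
    [(1, 7, 3), (4, N + r + 2, 3), (1, N + r + 2, 6), (N + 1, N + r + 2, N)],
    [(1, 7, 3), (4, N + r + 2, 3), (1, N + r + 2, 6), (N + 1, N + r + 2, N)],
    [(4, 7), (7, N + r + 2)]⟩

theorem patch4 (W : RingS0 X h p a c) (hh : 4 < h) {i : ZMod h} {N r : ℕ} {P : ℕ → Pt}
    (D : TwoK X p a i 4 N N r P) (hN : 11 ≤ N) : Patch (pd4 N r) P X := by
  have c13 : nr X (p (i + ((1 : ℕ) : ZMod h))) (p (i + ((3 : ℕ) : ZMod h))) = 3 := c2 W i 1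
  have c24 : nr X (p (i + ((2 : ℕ) : ZMod h))) (p (i + ((4 : ℕ) : ZMod h))) = 3 := c2 W i 2
  have c14 : nr X (p (i + ((1 : ℕ) : ZMod h))) (p (i + ((4 : ℕ) : ZMod h))) = 6 := c3 W i 1
  have c34 : nr X (p (i + ((3 : ℕ) : ZMod h))) (p (i + ((4 : ℕ) : ZMod h))) = 0 := c1 W i 3
  have c01 : nr X (p i) (p (i + ((1 : ℕ) : ZMod h))) = 0 := z1 W i
  have c02 : nr X (p i) (p (i + ((2 : ℕ) : ZMod h))) = 3 := z2 W i
  have c03 : nr X (p i) (p (i + ((3 : ℕ) : ZMod h))) = 6 := z3 W i
  have hl : LabOK p i 4 N r P (lab4 (N + r + 2)) := by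
    refine ⟨?_, ?_, ?_⟩
    · intro j hj
      interval_cases j <;> simp only [lab4] <;> omega
    · intro j hj
      interval_cases j <;> simp only [lab4] <;> omega
    · intro j hj
      interval_cases j <;> simp only [lab4]
      · rw [D.P0, Nat.cast_zero, add_zero]
      · rw [D.P1, Nat.cast_one]
      · rw [D.P4]; norm_num
      · rw [D.P7]; norm_num
      · exact D.PV
  have hF : ∀ s t : ℕ, s < t → t ≤ 4 → (nr X (p i) (p (i + (t : ZMod h))) ≤ N ∨
      nr X (p (i + (s : ZMod h))) (p (i + ((4 : ℕ) : ZMod h))) ≤ N) →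
      (FF N r P (P (lab4 (N + r + 2) s)) (P (lab4 (N + r + 2) t))).card =
        nr X (p (i + (s : ZMod h))) (p (i + (t : ZMod h))) := by
    intro s t hst ht hc
    rw [hl.eq s (by omega), hl.eq t ht]
    refine FF_chord W D hh hst ht ?_
    rcases hc with hc | hc
    · exact Or.inl hc
    · exact Or.inr (Or.inl hc)
  have f13 := hF 1 3 (by omega) (by omega) (Or.inl (by omega))
  have f24 := hF 2 4 (by omega) (by omega) (Or.inr (by omega))
  have f14 := hF 1 4 (by omega) (by omega) (Or.inr (by omega))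
  have fV := FF_V D
  simp only [lab4] at f13 f24 f14
  refine patch_of W D (by omega) hh (by omega) hl ?_ ?_ ?_ ⟨rfl, rfl, rfl, rfl, rfl, ?_, ?_, ?_,
    ?_, ?_, ?_⟩
  · intro j hj1 hj2
    interval_cases j <;> omega
  · intro j hj1 hj2
    have hj3 : j < 3 := by omega
    interval_cases j <;> omega
  · intro j hj1 hj2
    interval_cases j
    · left
      change nr X (p i) (p (i + ((3 : ℕ) : ZMod h))) ≤ N
      omega
    · right
      change nr X (p (i + ((2 : ℕ) : ZMod h))) (p (i + ((4 : ℕ) : ZMod h))) ≤ N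
      omega
  · intro f hf
    simp only [pd4, List.mem_cons, List.not_mem_nil, or_false] at hf
    rcases hf with rfl | rfl | rfl
    · exact ⟨1, by omega, by omega, rfl⟩
    · exact ⟨2, by omega, by omega, rfl⟩
    · exact ⟨3, by omega, by omega, rfl⟩
  · intro f hf
    simp only [pd4, List.mem_cons, List.not_mem_nil, or_false] at hf
    exact hf
  · intro f hf
    simp only [pd4, List.mem_map, List.mem_range] at hf
    obtain ⟨j, hj, rfl⟩ := hf
    have := D.nearL (N + 2 + j) (by omega) (by omega)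
    simp only
    rw [orient_swap]
    linarith
  · intro f hf
    simp only [pd4, List.mem_cons, List.not_mem_nil, or_false] at hf
    rcases hf with rfl | rfl | rfl | rfl <;> simp only <;> omega
  · intro f hf
    simp only [pd4, List.mem_cons, List.not_mem_nil, or_false] at hf
    rcases hf with rfl | rfl | rfl | rfl <;> simp only <;> omega
  · intro f hf
    simp only [pd4, List.mem_cons, List.not_mem_nil, or_false] at hf
    rcases hf with rfl | rfl
    · exact ⟨2, by omega, by omega, rfl⟩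
    · exact ⟨3, by omega, by omega, rfl⟩

/-- At least five common points. -/
lemma MI4_ge (W : RingS0 X h p a c) (hh : 7 ≤ h) (i : ZMod h) :
    5 ≤ (MI X (p i) (p (i + ((4 : ℕ) : ZMod h))) 11).card := by
  classical
  have c13 : nr X (p (i + ((1 : ℕ) : ZMod h))) (p (i + ((3 : ℕ) : ZMod h))) = 3 := c2 W i 1
  have c14 : nr X (p (i + ((1 : ℕ) : ZMod h))) (p (i + ((4 : ℕ) : ZMod h))) = 6 := c3 W i 1
  have c34 : nr X (p (i + ((3 : ℕ) : ZMod h))) (p (i + ((4 : ℕ) : ZMod h))) = 0 := c1 W i 3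
  have c01 : nr X (p i) (p (i + ((1 : ℕ) : ZMod h))) = 0 := z1 W i
  have c03 : nr X (p i) (p (i + ((3 : ℕ) : ZMod h))) = 6 := z3 W i
  have n13 : p (i + ((1 : ℕ) : ZMod h)) ≠ p (i + ((3 : ℕ) : ZMod h)) :=
    pne_gen W i (by omega) (by omega)
  have n14 : p (i + ((1 : ℕ) : ZMod h)) ≠ p (i + ((4 : ℕ) : ZMod h)) :=
    pne_gen W i (by omega) (by omega)
  have n34 : p (i + ((3 : ℕ) : ZMod h)) ≠ p (i + ((4 : ℕ) : ZMod h)) :=
    pne_gen W i (by omega) (by omega)
  have n01 : p (i + ((1 : ℕ) : ZMod h)) ≠ p i := by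
    have := pne_gen W i (j := 0) (k := 1) (by omega) (by omega)
    rw [Nat.cast_zero, add_zero] at this
    exact this.symm
  have n03 : p (i + ((3 : ℕ) : ZMod h)) ≠ p i := by
    have := pne_gen W i (j := 0) (k := 3) (by omega) (by omega)
    rw [Nat.cast_zero, add_zero] at this
    exact this.symm
  have key : insert (p (i + ((1 : ℕ) : ZMod h))) (insert (p (i + ((3 : ℕ) : ZMod h)))
      (X.filter (fun z => orient (p (i + ((1 : ℕ) : ZMod h))) (p (i + ((3 : ℕ) : ZMod h))) z < 0)))
      ⊆ MI X (p i) (p (i + ((4 : ℕ) : ZMod h))) 11 := by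
    intro z hz
    rw [Finset.mem_insert, Finset.mem_insert] at hz
    rw [mem_MI]
    rcases hz with rfl | rfl | hz
    · exact ⟨W.pX _, n01, n14, by omega, by omega⟩
    · exact ⟨W.pX _, n03, n34, by omega, by omega⟩
    · obtain ⟨z1, z2⟩ := Finset.mem_filter.1 hz
      have e1 := near_left W i (s' := 0) (by omega) (by omega : 1 < 3) (by omega) z1 z2
      rw [Nat.cast_zero, add_zero] at e1
      have e2 := near_right W i (t' := 4) (by omega : 1 < 3) (by omega) (by omega) z1 z2
      have g1 := rank_lt W i (z := z) (w := p (i + ((3 : ℕ) : ZMod h))) z1 (W.pX _)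
        (by rw [orient_swap']; linarith)
      have g2 := rank_lt' W (i + ((4 : ℕ) : ZMod h)) (z := p (i + ((1 : ℕ) : ZMod h))) (w := z)
        (W.pX _) z1 (by rw [orient_swap]; linarith)
      refine ⟨z1, ?_, ?_, by omega, by omega⟩
      · rintro rfl; simp at e1
      · rintro rfl; simp at e2
  have := Finset.card_le_card key
  rw [Finset.card_insert_of_notMem, Finset.card_insert_of_notMem] at this
  · unfold nr at c13
    omega
  · rw [Finset.mem_filter, not_and]
    intro _
    simp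
  · rw [Finset.mem_insert, Finset.mem_filter, not_or, not_and]
    refine ⟨n13, fun _ => ?_⟩
    simp

/-- Only the value `r = 4` is possible. -/
theorem four_r (W : RingS0 X h p a c) (hh : 7 ≤ h) {K : ℕ} (hI : Irr X K t414 [])
    {i : ZMod h} {r : ℕ} {P : ℕ → Pt} (D : TwoK X p a i 4 11 11 r P) : r = 4 := by
  have k1 := D.MI_card W (by omega) (by omega)
  have k2 := MI4_ge W hh i
  have key := patch4 W (by omega) D (by omega)
  have hr : r ≤ 6 := by omega
  by_contra hne
  interval_cases r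
  · exact PaD0.d4_0.fin key hI
  · exact PaD0.d4_1.fin key hI
  · exact PaD1.d4_2.fin key hI
  · exact PaD2.d4_3.fin key hI
  · exact hne rfl
  · exact PaD3.d4_5.fin key hI
  · exact PaD0.d4_6.fin key hI

/-- A window with eleven points exists and has seven common points. -/
theorem four_win (W : RingS0 X h p a c) (hh : 7 ≤ h) {K : ℕ} (hI : Irr X K t414 [])
    (i : ZMod h) (hM : 11 ≤ nr X (p i) (p (i + ((4 : ℕ) : ZMod h)))) :
    ∃ P : ℕ → Pt, TwoK X p a i 4 11 11 4 P ∧ Patch (pd4 11 4) P X ∧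
      (MI X (p i) (p (i + ((4 : ℕ) : ZMod h))) 11).card = 7 := by
  have c34 : nr X (p (i + ((3 : ℕ) : ZMod h))) (p (i + ((4 : ℕ) : ZMod h))) = 0 := c1 W i 3
  have c03 : nr X (p i) (p (i + ((3 : ℕ) : ZMod h))) = 6 := z3 W i
  obtain ⟨r, P, -, D⟩ := two_line_k W i (k := 4) (N := 11) (N2 := 11) (by omega) (by omega)
    (by omega) (by omega) hM hM (j0 := 3) (by omega) (by omega) (by omega) (by omega)
  have hr := four_r W hh hI D
  subst hr
  have k1 := D.MI_card W (by omega) (by omega)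
  exact ⟨P, D, patch4 W (by omega) D (by omega), by omega⟩

end Geo

end Pool.Agent.GCP
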