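import Pool.Agent.GCP.WinTab
import Pool.Agent.GCP.PaP0
import Pool.Agent.GCP.PaP1
import Pool.Agent.GCP.PaP2
import Pool.Agent.GCP.PaP3
import Pool.Agent.GCP.PaP4
import Pool.Agent.GCP.PaP5

/-!
# Windows over five hull edges
-/

namespace Pool.Agent.GCP

namespace Geo

variable {X : Finset Pt} {h : ℕ} {p a c : ZMod h → Pt}

/-- All chords over four hull edges are short. -/
def Sh (X : Finset Pt) (p : ZMod h → Pt) : Prop :=
  ∀ i : ZMod h, nr X (p i) (p (i + ((4 : ℕ) : ZMod h))) ≤ 10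

lemma Sh.s (hM : Sh X p) (i : ZMod h) (s : ℕ) :
    nr X (p (i + (s : ZMod h))) (p (i + ((s + 4 : ℕ) : ZMod h))) ≤ 10 := by
  rw [sh_add]
  exact hM _

lemma four_ge (W : RingS0 X h p a c) (hh : 7 ≤ h) (i : ZMod h) :
    8 ≤ nr X (p i) (p (i + ((4 : ℕ) : ZMod h))) := by
  have h1 := nr_step W i (s := 0) (t := 3) (by omega) (by omega)
  have h2 := z3 W i
  rw [Nat.cast_zero, add_zero] at h1
  change nr X (p i) (p (i + ((3 : ℕ) : ZMod h))) + 2 ≤
    nr X (p i) (p (i + ((4 : ℕ) : ZMod h))) at h1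
  omega

lemma five_ge (W : RingS0 X h p a c) (hh : 7 ≤ h) (i : ZMod h) :
    nr X (p i) (p (i + ((4 : ℕ) : ZMod h))) + 2 ≤ nr X (p i) (p (i + ((5 : ℕ) : ZMod h))) := by
  have h1 := nr_step W i (s := 0) (t := 4) (by omega) (by omega)
  rw [Nat.cast_zero, add_zero] at h1
  exact h1

/-- The common points of the two sides over five edges. -/
lemma MI5_ge (W : RingS0 X h p a c) (hh : 7 ≤ h) (hM : Sh X p) (i : ZMod h) :
    6 ≤ (MI X (p i) (p (i + ((5 : ℕ) : ZMod h))) 11).card := by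
  classical
  have h1 : nr X (p (i + ((1 : ℕ) : ZMod h))) (p (i + ((4 : ℕ) : ZMod h))) = 6 := c3 W i 1
  rw [← h1]
  apply Finset.card_le_card
  intro z hz
  obtain ⟨z1, z2⟩ := Finset.mem_filter.1 hz
  rw [mem_MI]
  have e1 := near_left W i (s' := 0) (by omega) (by omega : 1 < 4) (by omega) z1 z2
  rw [Nat.cast_zero, add_zero] at e1
  have e2 := near_right W i (t' := 5) (by omega : 1 < 4) (by omega) (by omega) z1 z2
  have f1 : z ≠ p i := by rintro rfl; simp at e1
  have f2 : z ≠ p (i + ((5 : ℕ) : ZMod h)) := by rintro rfl; simp at e2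
  have g1 := rank_lt W i (z := z) (w := p (i + ((4 : ℕ) : ZMod h))) z1 (W.pX _)
    (by rw [orient_swap']; linarith)
  have g2 := rank_lt' W (i + ((5 : ℕ) : ZMod h)) (z := p (i + ((1 : ℕ) : ZMod h))) (w := z)
    (W.pX _) z1 (by rw [orient_swap]; linarith)
  have m1 := hM i
  have m2 : nr X (p (i + ((1 : ℕ) : ZMod h))) (p (i + ((5 : ℕ) : ZMod h))) ≤ 10 := hM.s i 1
  exact ⟨z1, f1, f2, by omega, by omega⟩

section
variable {K : ℕ}

lemma no11 (W : RingS0 X h p a c) (hh : 7 ≤ h) (hM : Sh X p) (hI : Irr X K t414 [])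
    {i : ZMod h} {r : ℕ} {P : ℕ → Pt} (D : TwoK X p a i 5 11 11 r P) (h1 : 3 ≤ r)
    (h2 : r ≤ 5) : False := by
  have m0 := hM i
  have m0' := four_ge W hh i
  have m1 : nr X (p (i + ((1 : ℕ) : ZMod h))) (p (i + ((5 : ℕ) : ZMod h))) ≤ 10 := hM.s i 1
  have m1' : 8 ≤ nr X (p (i + ((1 : ℕ) : ZMod h))) (p (i + ((5 : ℕ) : ZMod h))) := by
    have := four_ge W hh (i + ((1 : ℕ) : ZMod h))
    rw [← sh_add] at this
    exact this
  obtain ⟨M0, hM0⟩ : ∃ M0, nr X (p i) (p (i + ((4 : ℕ) : ZMod h))) = M0 := ⟨_, rfl⟩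
  have key := patch5 W (by omega) D (by omega) hM0 (by omega) (lo := 8) (hi := 10) (ex := [])
    m1' m1 m1 (by simp)
  rw [hM0] at m0 m0'
  interval_cases M0 <;> interval_cases r
  · exact PaP0.p8_3.fin key hI
  · exact PaP0.p8_4.fin key hI
  · exact PaP0.p8_5.fin key hI
  · exact PaP1.p9_3.fin key hI
  · exact PaP1.p9_4.fin key hI
  · exact PaP1.p9_5.fin key hI
  · exact PaP2.p10_3.fin key hI
  · exact PaP2.p10_4.fin key hI
  · exact PaP2.p10_5.fin key hI

lemma no12_3 (W : RingS0 X h p a c) (hh : 7 ≤ h) (hM : Sh X p) (hI : Irr X K t414 [])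
    {i : ZMod h} {P : ℕ → Pt} (D : TwoK X p a i 5 12 12 3 P) : False := by
  have m0 := hM i
  have m0' := four_ge W hh i
  have m1 : nr X (p (i + ((1 : ℕ) : ZMod h))) (p (i + ((5 : ℕ) : ZMod h))) ≤ 10 := hM.s i 1
  have m1' : 8 ≤ nr X (p (i + ((1 : ℕ) : ZMod h))) (p (i + ((5 : ℕ) : ZMod h))) := by
    have := four_ge W hh (i + ((1 : ℕ) : ZMod h))
    rw [← sh_add] at this
    exact this
  obtain ⟨M0, hM0⟩ : ∃ M0, nr X (p i) (p (i + ((4 : ℕ) : ZMod h))) = M0 := ⟨_, rfl⟩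
  have key := patch5 W (by omega) D (by omega) hM0 (by omega) (lo := 8) (hi := 10) (ex := [])
    m1' m1 m1 (by simp)
  rw [hM0] at m0 m0'
  interval_cases M0
  · exact PaP0.q8_3.fin key hI
  · exact PaP1.q9_3.fin key hI
  · exact PaP3.q10_3.fin key hI

lemma no12_t (W : RingS0 X h p a c) (hh : 7 ≤ h) (hM : Sh X p) (hI : Irr X K t414 [])
    {i : ZMod h} {P : ℕ → Pt} (D : TwoK X p a i 5 12 12 2 P)
    (e1 : orient (P 1) (P 16) (P 14) < 0) (e2 : orient (P 1) (P 16) (P 15) < 0) : False := by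
  have m0 := hM i
  have m0' := four_ge W hh i
  have m1 : nr X (p (i + ((1 : ℕ) : ZMod h))) (p (i + ((5 : ℕ) : ZMod h))) ≤ 10 := hM.s i 1
  have m1' : 8 ≤ nr X (p (i + ((1 : ℕ) : ZMod h))) (p (i + ((5 : ℕ) : ZMod h))) := by
    have := four_ge W hh (i + ((1 : ℕ) : ZMod h))
    rw [← sh_add] at this
    exact this
  obtain ⟨M0, hM0⟩ : ∃ M0, nr X (p i) (p (i + ((4 : ℕ) : ZMod h))) = M0 := ⟨_, rfl⟩
  have key := patch5 W (by omega) D (by omega) hM0 (by omega) (lo := 8) (hi := 10)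
    (ex := [(16, 1, 14), (16, 1, 15)]) m1' m1 m1 (by
      intro f hf
      simp only [List.mem_cons, List.not_mem_nil, or_false] at hf
      rcases hf with rfl | rfl
      · simp only; rw [orient_swap]; linarith
      · simp only; rw [orient_swap]; linarith)
  rw [hM0] at m0 m0'
  interval_cases M0
  · exact PaP0.q8_t.fin key hI
  · exact PaP1.q9_t.fin key hI
  · exact PaP4.q10_t.fin key hI

lemma no12_u (W : RingS0 X h p a c) (hh : 7 ≤ h) (hM : Sh X p) (hI : Irr X K t414 [])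
    {i : ZMod h} {P : ℕ → Pt} (D : TwoK X p a i 5 12 12 2 P)
    (e : ∀ x, nr X (p i) (p (i + ((4 : ℕ) : ZMod h))) + 2 ≤ x → x ≤ 12 →
      orient (P 13) (P 16) (P x) < 0) : False := by
  have m0 := hM i
  have m0' := four_ge W hh i
  have m1 : nr X (p (i + ((1 : ℕ) : ZMod h))) (p (i + ((5 : ℕ) : ZMod h))) ≤ 10 := hM.s i 1
  have m1' : 8 ≤ nr X (p (i + ((1 : ℕ) : ZMod h))) (p (i + ((5 : ℕ) : ZMod h))) := by
    have := four_ge W hh (i + ((1 : ℕ) : ZMod h))
    rw [← sh_add] at this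
    exact this
  obtain ⟨M0, hM0⟩ : ∃ M0, nr X (p i) (p (i + ((4 : ℕ) : ZMod h))) = M0 := ⟨_, rfl⟩
  have key := fun (ex : List (ℕ × ℕ × ℕ)) => patch5 W (by omega) D (by omega) hM0 (by omega)
    (lo := 8) (hi := 10) (ex := ex) m1' m1 m1
  have e' : ∀ x, nr X (p i) (p (i + ((4 : ℕ) : ZMod h))) + 2 ≤ x → x ≤ 12 →
      0 < orient (P 16) (P 13) (P x) := by
    intro x h1 h2
    have := e x h1 h2
    rw [orient_swap]
    linarith
  rw [hM0] at m0 m0' e'
  interval_cases M0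
  · exact PaP0.q8_u.fin (key [(16, 13, 10), (16, 13, 11), (16, 13, 12)] (by
      intro f hf
      simp only [List.mem_cons, List.not_mem_nil, or_false] at hf
      rcases hf with rfl | rfl | rfl
      · exact e' 10 (by omega) (by omega)
      · exact e' 11 (by omega) (by omega)
      · exact e' 12 (by omega) (by omega))) hI
  · exact PaP2.q9_u.fin (key [(16, 13, 11), (16, 13, 12)] (by
      intro f hf
      simp only [List.mem_cons, List.not_mem_nil, or_false] at hf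
      rcases hf with rfl | rfl
      · exact e' 11 (by omega) (by omega)
      · exact e' 12 (by omega) (by omega))) hI
  · exact PaP5.q10_u.fin (key [(16, 13, 12)] (by
      intro f hf
      simp only [List.mem_cons, List.not_mem_nil, or_false] at hf
      rcases hf with rfl
      exact e' 12 (by omega) (by omega))) hI

end

end Geo

end Pool.Agent.GCP
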