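import Pool.Agent.GCP.GeoThree
import Pool.Agent.GCP.Leaf2
import Pool.Agent.GCP.Patch

/-!
# From two line windows to patches
-/

namespace Pool.Agent.GCP

namespace Geo

variable {X : Finset Pt} {h : ℕ} {p a c : ZMod h → Pt}

/-- Forbidden pattern `(-, +, ., -)`. -/
lemma sig_mid {n : ℕ} {P : ℕ → Pt} (hf : Frame n P) {a b c d : ℕ} (h1 : a < b)
    (h2 : b < c) (h3 : c < d) (h4 : d < n) (e1 : 0 < orient (P a) (P b) (P d))
    (e2 : orient (P b) (P c) (P d) < 0) : 0 < orient (P a) (P b) (P c) := by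
  by_contra hc
  have h5 := lt_of_le_of_ne (not_lt.1 hc) (fne hf h1 h2 (by omega))
  have := (sig_neg hf h1 h2 h3 h4 h5 e2).1
  linarith

/-- The real labels beyond a line. -/
noncomputable def FF (N r : ℕ) (P : ℕ → Pt) (x y : Pt) : Finset ℕ :=
  (Finset.range (N + r + 3)).filter (fun j => j ≠ N + 1 ∧ orient x y (P j) < 0)

lemma FF_le {i : ZMod h} {k N N2 r : ℕ} {P : ℕ → Pt} (D : TwoK X p a i k N N2 r P)
    (x y : Pt) : (FF N r P x y).card ≤ nr X x y := by
  have := D.card_le x y
  unfold FF
  convert this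

lemma FF_chord (W : RingS0 X h p a c) {i : ZMod h} {k N N2 r : ℕ} {P : ℕ → Pt}
    (D : TwoK X p a i k N N2 r P) (hkh : k < h) {s t : ℕ} (hst : s < t) (htk : t ≤ k)
    (hc : nr X (p i) (p (i + (t : ZMod h))) ≤ N ∨
      nr X (p (i + (s : ZMod h))) (p (i + (k : ZMod h))) ≤ N2 ∨
      0 ≤ orient (p (i + (s : ZMod h))) (p (i + (t : ZMod h))) (P (N + 1))) :
    (FF N r P (p (i + (s : ZMod h))) (p (i + (t : ZMod h)))).card =
      nr X (p (i + (s : ZMod h))) (p (i + (t : ZMod h))) := by
  have := D.card_chord W hkh hst htk hc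
  unfold FF
  convert this

/-- The labels beyond the line through the virtual point and the last point. -/
lemma FF_V {i : ZMod h} {k N N2 r : ℕ} {P : ℕ → Pt} (D : TwoK X p a i k N N2 r P) :
    (FF N r P (P (N + 1)) (P (N + r + 2))).card = N2 := by
  classical
  have e := D.cardL
  have h1 : FF N r P (P (N + 1)) (P (N + r + 2)) =
      ((Finset.range (N + 1)).filter
        (fun j => orient (P (N + 1)) (P (N + r + 2)) (P j) < 0)) ∪
        (Finset.Ico (N + 2) (N + r + 2)) := by
    ext j
    simp only [FF, Finset.mem_filter, Finset.mem_range, Finset.mem_union, Finset.mem_Ico]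
    constructor
    · rintro ⟨h1, h2, h3⟩
      by_cases hj : j < N + 1
      · exact Or.inl ⟨hj, h3⟩
      · refine Or.inr ⟨by omega, ?_⟩
        by_contra hc
        have hj' : j = N + r + 2 := by omega
        rw [hj'] at h3
        simp at h3
    · rintro (⟨h1, h2⟩ | ⟨h1, h2⟩)
      · exact ⟨by omega, by omega, h2⟩
      · exact ⟨by omega, by omega, D.nearL j (by omega) h2⟩
  rw [h1, Finset.card_union_of_disjoint, Nat.card_Ico]
  · have e' := e
    have h2 : N + r + 2 - (N + 2) = r := by omega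
    rw [h2]
    convert e' using 2
  · rw [Finset.disjoint_left]
    intro j h1 h2
    rw [Finset.mem_filter, Finset.mem_range] at h1
    rw [Finset.mem_Ico] at h2
    omega

/-- The hypotheses on the labels. -/
structure LabOK (p : ZMod h → Pt) (i : ZMod h) (k N r : ℕ) (P : ℕ → Pt) (lab : ℕ → ℕ) :
    Prop where
  lt : ∀ j ≤ k, lab j < N + r + 3
  ne : ∀ j ≤ k, lab j ≠ N + 1
  eq : ∀ j ≤ k, P (lab j) = p (i + (j : ZMod h))

/-- The tables which describe the window. -/
structure Tab (X : Finset Pt) (p : ZMod h → Pt) (i : ZMod h) (k N r : ℕ) (P : ℕ → Pt)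
    (lab : ℕ → ℕ) (d : PD) : Prop where
  V : d.V = N + r + 2
  vi : d.vi = [N + 1]
  r0 : d.r0 = true
  rv : d.rv = true
  e : d.e = lab (k - 1)
  hul : ∀ f ∈ d.hulls, ∃ j, 1 ≤ j ∧ j < k ∧ f = (lab j, lab (j + 1))
  tri : ∀ f ∈ d.tris, f = (2, 0, 1) ∨ f = (3, 1, 4)
  ext : ∀ f ∈ d.exts, 0 < orient (P f.1) (P f.2.1) (P f.2.2)
  ub : ∀ f ∈ d.ubs, (FF N r P (P f.1) (P f.2.1)).card ≤ f.2.2
  lb : ∀ f ∈ d.lbs, f.2.2 ≤ (FF N r P (P f.1) (P f.2.1)).card
  fas : ∀ f ∈ d.fas, ∃ j, 2 ≤ j ∧ j < k ∧ f = (lab j, lab (j + 1))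

theorem patch_of (W : RingS0 X h p a c) {i : ZMod h} {k N r : ℕ} {P : ℕ → Pt}
    (D : TwoK X p a i k N N r P) (hk : 4 ≤ k) (hkh : k < h) (hN : 7 ≤ N) {lab : ℕ → ℕ}
    (hl : LabOK p i k N r P lab)
    (hL : ∀ j, 2 ≤ j → j < k → nr X (p (i + (j : ZMod h))) (p (i + (k : ZMod h))) < N)
    (hR : ∀ j, 1 ≤ j → j + 1 < k → nr X (p i) (p (i + (j : ZMod h))) < N)
    (hc : ∀ j, 2 ≤ j → j < k → nr X (p i) (p (i + ((j + 1 : ℕ) : ZMod h))) ≤ N ∨
      nr X (p (i + ((j - 1 : ℕ) : ZMod h))) (p (i + (k : ZMod h))) ≤ N)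
    {d : PD} (T : Tab X p i k N r P lab d) : Patch d P X := by
  classical
  have hV1 : d.V + 1 = N + r + 3 := by rw [T.V]
  have hfr : Frame (d.V + 1) P := by rw [hV1]; exact D.frame
  have real_iff : ∀ j, d.isReal j = true ↔ j < N + r + 3 ∧ j ≠ N + 1 := by
    intro j
    unfold PD.isReal
    rw [T.vi, T.r0, T.rv]
    simp only [Bool.and_eq_true, lt'_iff, Bool.not_eq_true', List.any_cons, List.any_nil,
      Bool.or_false, Bool.true_or, and_true]
    rw [T.V]
    constructor
    · rintro ⟨h1, h2⟩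
      exact ⟨h1, nbeq_false h2⟩
    · rintro ⟨h1, h2⟩
      refine ⟨h1, ?_⟩
      by_contra hc
      apply h2
      rw [Bool.not_eq_false, Nat.beq_eq] at hc
      exact hc
  have hchn : d.chain = [0, N + 1, N + r + 2] := by
    unfold PD.chain
    rw [T.vi, T.V]
    rfl
  have ch0 : d.ch 0 = 0 := rfl
  have ch1 : d.ch 1 = N + 1 := by unfold PD.ch; rw [hchn]; rfl
  have ch2 : d.ch 2 = N + r + 2 := by unfold PD.ch; rw [hchn]; rfl
  have hvl : d.vi.length = 1 := by rw [T.vi]; rfl
  -- labels of the hull vertices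
  have l0 := D.P0
  have lk := D.PV
  have hfi := D.frame.inj
  have labinj : ∀ {x y : ℕ}, x < N + r + 3 → y < N + r + 3 → P x = P y → x = y := by
    intro x y hx hy he
    by_contra hne
    exact hfi x y hx hy hne he
  have lab0 : lab 0 = 0 := by
    apply labinj (hl.lt 0 (by omega)) (by omega)
    rw [hl.eq 0 (by omega), l0, Nat.cast_zero, add_zero]
  have lab1 : lab 1 = 1 := by
    apply labinj (hl.lt 1 (by omega)) (by omega)
    rw [hl.eq 1 (by omega), D.P1, Nat.cast_one]
  have labk : lab k = N + r + 2 := by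
    apply labinj (hl.lt k (by omega)) (by omega)
    rw [hl.eq k (by omega), lk]
  have labpos : ∀ j, 1 ≤ j → j ≤ k → 1 ≤ lab j := by
    intro j h1 h2
    by_contra hc0
    have h3 : lab j = 0 := by omega
    have h4 := hl.eq j h2
    rw [h3, l0] at h4
    have := pne_gen W i (j := 0) (k := j) (by omega) (by omega)
    rw [Nat.cast_zero, add_zero] at this
    exact this h4
  have lablt : ∀ s t, s < t → t ≤ k → lab s < lab t := by
    intro s t hst ht
    rcases Nat.eq_zero_or_pos s with hs | hs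
    · rw [hs, lab0]
      exact labpos t (by omega) ht
    · by_contra hc0
      have h1 := conv_gen W i (s := 0) hs hst (by omega)
      rw [Nat.cast_zero, add_zero, ← l0, ← hl.eq s (by omega), ← hl.eq t ht] at h1
      rcases Nat.eq_or_lt_of_le (not_lt.1 hc0) with h2 | h2
      · rw [h2] at h1
        simp at h1
      · have h3 := D.frame.srt _ _ (labpos t (by omega) ht) h2 (hl.lt s (by omega))
        rw [orient_swap'] at h3
        linarith
  have labR : ∀ j, 1 ≤ j → j + 1 < k → lab j < N + 1 := by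
    intro j h1 h2
    have h3 := D.posR j (by omega) (by omega) (hR j h1 h2)
    have h4 : lab j = nr X (p i) (p (i + (j : ZMod h))) + 1 := by
      apply labinj (hl.lt j (by omega)) (by have := hR j h1 h2; omega)
      rw [hl.eq j (by omega), h3]
    have := hR j h1 h2
    omega
  have labL : ∀ j, 2 ≤ j → j < k →
      orient (P (N + 1)) (P (N + r + 2)) (P (lab j)) < 0 := by
    intro j h1 h2
    obtain ⟨m, m1, m2, m3, m4, m5⟩ := D.posL j (by omega) (hL j h1 h2)
    rw [hl.eq j (by omega), ← m4]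
    exact m5
  have hulR : ∀ j, j < k → ∀ z ∈ X, z ≠ P (lab j) → z ≠ P (lab (j + 1)) →
      0 < orient (P (lab j)) (P (lab (j + 1))) z := by
    intro j hj z hz h1 h2
    have e1 := hl.eq j (by omega)
    have e2 := hl.eq (j + 1) (by omega)
    rw [Nat.cast_add, Nat.cast_one, ← add_assoc] at e2
    rw [e1] at h1 ⊢
    rw [e2] at h2 ⊢
    exact W.hull _ z hz h1 h2
  have inX : ∀ {j}, j < N + r + 3 → j ≠ N + 1 → P j ∈ X := fun h1 h2 => D.mem _ h1 h2
  have conv3 : ∀ {s t u}, s < t → t < u → u ≤ k →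
      0 < orient (P (lab s)) (P (lab t)) (P (lab u)) := by
    intro s t u h1 h2 h3
    rw [hl.eq s (by omega), hl.eq t (by omega), hl.eq u h3]
    exact conv_gen W i h1 h2 (by omega)
  -- the virtual point is inside
  have hinV : 0 < orient (P (lab (k - 1))) (P (N + r + 2)) (P (N + 1)) := by
    rw [hl.eq (k - 1) (by omega)]
    exact D.inV
  have hulO : ∀ j, 1 ≤ j → j < k → 0 < orient (P (lab j)) (P (lab (j + 1))) (P (N + 1)) := by
    intro j h1 h2
    by_cases h3 : j + 1 = k
    · have h4 : j = k - 1 := by omega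
      rw [h3, labk, h4]
      exact hinV
    · have hj2 : j + 1 < k := by omega
      have hjR := labR j h1 hj2
      have hlt := lablt j (j + 1) (by omega) (by omega)
      have hkV : lab (j + 1) < N + r + 2 := by
        rw [← labk]
        exact lablt _ _ hj2 (le_refl _)
      have hcv := conv3 (s := j) (t := j + 1) (u := k) (by omega) hj2 (le_refl _)
      rw [labk] at hcv
      have hne := hl.ne (j + 1) (by omega)
      rcases Nat.lt_or_ge (lab (j + 1)) (N + 1) with h5 | h5
      · have h6 := labL (j + 1) (by omega) hj2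
        rw [orient_swap] at h6
        have h7 : orient (P (lab (j + 1))) (P (N + 1)) (P (N + r + 2)) < 0 := by
          have e := orient_cyc (P (lab (j + 1))) (P (N + 1)) (P (N + r + 2))
          have e' := orient_swap (P (N + 1)) (P (N + r + 2)) (P (lab (j + 1)))
          linarith
        exact sig_mid D.frame hlt h5 (by omega) (by omega) hcv h7
      · have h5' : N + 1 < lab (j + 1) := by omega
        -- here j ≥ 2, because the label of `p (i + 2)` is 4
        have hj : 2 ≤ j := by
          by_contra hj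
          have hj1 : j = 1 := by omega
          have e2 : P (lab 2) = P 4 := by
            rw [hl.eq 2 (by omega), D.P4]
            norm_num
          have h4 := labinj (hl.lt 2 (by omega)) (by omega) e2
          rw [hj1, show 1 + 1 = 2 from rfl, h4] at h5'
          omega
        have h6 := labL j hj h2
        have h7 : orient (P (lab j)) (P (N + 1)) (P (N + r + 2)) < 0 := by
          have e := orient_cyc (P (lab j)) (P (N + 1)) (P (N + r + 2))
          linarith
        have h8 := D.nearL (lab (j + 1)) h5' hkV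
        -- (a, o, b) < 0
        have h9 : orient (P (lab j)) (P (N + 1)) (P (lab (j + 1))) < 0 := by
          by_contra hcc
          have h10 := lt_of_le_of_ne (not_lt.1 hcc)
            (fne D.frame (by omega : lab j < N + 1) h5' (by omega)).symm
          have h11 : 0 < orient (P (N + 1)) (P (lab (j + 1))) (P (N + r + 2)) := by
            rw [orient_swap']
            linarith
          have := (sig_pos D.frame (by omega : lab j < N + 1) h5' hkV (by omega) h10 h11).1
          linarith
        rw [orient_swap']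
        linarith
  refine ⟨W.gp, hfr, ?_, ?_, ?_, ?_, ?_, ?_, ?_, ?_, ?_, ?_, ?_, ?_, T.ext, ?_, ?_, ?_⟩
  · intro j hj
    obtain ⟨h1, h2⟩ := (real_iff j).1 hj
    exact inX h1 h2
  · intro j hj
    rw [T.vi, List.mem_singleton] at hj
    rw [hj, T.V]
    omega
  · intro x hx
    by_cases h1 : x = P 0
    · rw [h1]; simp
    by_cases h2 : x = P 1
    · rw [h2]; simp
    have := hulR 0 (by omega) x hx (by rw [lab0]; exact h1) (by rw [lab1]; exact h2)
    rw [lab0, lab1] at this
    exact this.le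
  · intro x hx
    rw [T.e, T.V]
    by_cases h1 : x = P (lab (k - 1))
    · rw [h1]; simp
    by_cases h2 : x = P (N + r + 2)
    · rw [h2]; simp
    have e : k - 1 + 1 = k := by omega
    have := hulR (k - 1) (by omega) x hx h1 (by rw [e, labk]; exact h2)
    rw [e, labk] at this
    exact this.le
  · rw [ch1]
    exact D.frame.srt 1 (N + 1) (by omega) (by omega) (by omega)
  · rw [hvl, ch1, T.e, T.V]
    exact hinV
  · intro j hj
    rw [hvl] at hj
    have hj0 : j = 0 := by omega
    subst hj0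
    rw [ch0, ch1, ch2]
    exact D.frame.srt (N + 1) (N + r + 2) (by omega) (by omega) (by omega)
  · intro x hx hun j hj
    rw [hvl] at hj
    have hun' : ∀ j, j < N + r + 3 → x ≠ P j := by
      intro j hj
      by_cases h1 : j = N + 1
      · rw [h1]
        rintro rfl
        exact D.virt hx
      · exact hun j ((real_iff j).2 ⟨hj, h1⟩)
    have := D.far x hx hun'
    have hj' : j = 0 ∨ j = 1 := by omega
    rcases hj' with rfl | rfl
    · rw [ch0, ch1]; exact this.1
    · rw [ch1, ch2]; exact this.2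
  · intro j hj h1 h2
    obtain ⟨h3, h4⟩ := (real_iff j).1 hj
    rw [T.V] at h2
    rcases Nat.lt_or_ge j (N + 1) with h5 | h5
    · refine ⟨0, by rw [hvl]; omega, ?_⟩
      rw [ch0, ch1, orient_swap']
      have := D.frame.srt j (N + 1) (by omega) h5 (by omega)
      linarith
    · refine ⟨1, by rw [hvl]; omega, ?_⟩
      rw [ch1, ch2]
      exact D.nearL j (by omega) (by omega)
  · intro j hj hnr x hx y hy hxy
    rw [T.V] at hj
    have hj1 : j = N + 1 := by
      by_contra hne
      have := (real_iff j).2 ⟨by omega, hne⟩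
      rw [hnr] at this
      exact absurd this (by simp)
    rw [hj1, ← orient_cyc]
    exact D.gen x hx y hy hxy
  · intro f hf z hz h1 h2
    obtain ⟨j, j1, j2, rfl⟩ := T.hul f hf
    simp only at h1 h2 ⊢
    rw [T.V] at hz
    by_cases h3 : z = N + 1
    · rw [h3]
      exact hulO j j1 j2
    · refine hulR j j2 _ (inX (by omega) h3) ?_ ?_
      · exact hfi _ _ (by omega) (hl.lt j (by omega)) h1
      · exact hfi _ _ (by omega) (hl.lt (j + 1) (by omega)) h2
  · intro f hf z hz h1 h2 h3
    obtain ⟨z1, z2⟩ := (real_iff z).1 hz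
    rcases T.tri f hf with rfl | rfl
    · simp only at h1 h2 h3 ⊢
      have e1 := W.a1 i (P z) (inX z1 z2) (by rw [← D.P0]; exact hfi _ _ z1 (by omega) h2)
        (by rw [← D.P1]; exact hfi _ _ z1 (by omega) h3)
        (by rw [← D.P2]; exact hfi _ _ z1 (by omega) h1)
      have e2 := W.a2 i (P z) (inX z1 z2) (by rw [← D.P0]; exact hfi _ _ z1 (by omega) h2)
        (by rw [← D.P1]; exact hfi _ _ z1 (by omega) h3)
        (by rw [← D.P2]; exact hfi _ _ z1 (by omega) h1)
      rw [D.P0, D.P1, D.P2]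
      rw [orient_swap'] at e2
      refine ⟨by linarith, ?_⟩
      rw [← orient_cyc]
      exact e1
    · simp only at h1 h2 h3 ⊢
      have hp2 : P 4 = p (i + 1 + 1) := by rw [D.P4]; congr 1; ring
      have e1 := W.a1 (i + 1) (P z) (inX z1 z2)
        (by rw [← D.P1]; exact hfi _ _ z1 (by omega) h2)
        (by rw [← hp2]; exact hfi _ _ z1 (by omega) h3)
        (by rw [← D.P3]; exact hfi _ _ z1 (by omega) h1)
      have e2 := W.a2 (i + 1) (P z) (inX z1 z2)
        (by rw [← D.P1]; exact hfi _ _ z1 (by omega) h2)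
        (by rw [← hp2]; exact hfi _ _ z1 (by omega) h3)
        (by rw [← D.P3]; exact hfi _ _ z1 (by omega) h1)
      rw [hp2, D.P1, D.P3]
      rw [orient_swap'] at e2
      refine ⟨by linarith, ?_⟩
      rw [← orient_cyc]
      exact e1
  · intro f hf
    refine ⟨_, T.ub f hf, ?_⟩
    intro j hj hneg
    obtain ⟨h1, h2⟩ := (real_iff j).1 hj
    exact Finset.mem_filter.2 ⟨Finset.mem_range.2 h1, h2, hneg⟩
  · intro f hf
    refine ⟨_, T.lb f hf, ?_⟩
    intro j hj
    obtain ⟨h1, h2, h3⟩ := Finset.mem_filter.1 hj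
    exact ⟨(real_iff j).2 ⟨Finset.mem_range.1 h1, h2⟩, h3⟩
  · intro f hf
    obtain ⟨j, j1, j2, rfl⟩ := T.fas f hf
    simp only
    -- the point `a (i + j)` is named
    have hs1 := (W.s1 (i + (j : ZMod h)) (a (i + (j : ZMod h))) (W.aX _)).2
      (Or.inr (Or.inr rfl))
    have ec : i + (j : ZMod h) - 1 = i + ((j - 1 : ℕ) : ZMod h) := by
      rw [Nat.cast_sub (by omega : 1 ≤ j), Nat.cast_one]; ring
    have ec' : i + (j : ZMod h) + 1 = i + ((j + 1 : ℕ) : ZMod h) := by
      rw [Nat.cast_add, Nat.cast_one]; ring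
    rw [ec, ec'] at hs1
    obtain ⟨m, m1, m2, m3, m4⟩ := D.name W hkh (s := j - 1) (t := j + 1) (by omega) (by omega)
      (by
        rcases hc j j1 j2 with h1 | h1
        · exact Or.inl h1
        · exact Or.inr (Or.inl h1)) _ (W.aX _) hs1
    have e1 := hl.eq j (by omega)
    have e2 := hl.eq (j + 1) (by omega)
    rw [← ec'] at e2
    have mne1 : m ≠ lab j := by
      rintro rfl
      rw [e1] at m4
      exact W.ap _ _ m4.symm
    have mne2 : m ≠ lab (j + 1) := by
      rintro rfl
      rw [e2] at m4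
      exact W.ap _ _ m4.symm
    refine ⟨m, (real_iff m).2 ⟨by omega, m3⟩, mne1, mne2, ?_⟩
    intro z hz z1 z2 z3
    obtain ⟨w1, w2⟩ := (real_iff z).1 hz
    have f1 := W.a1 (i + (j : ZMod h)) (P z) (inX w1 w2)
      (by rw [← e1]; exact hfi _ _ w1 (hl.lt j (by omega)) z2)
      (by rw [← e2]; exact hfi _ _ w1 (hl.lt (j + 1) (by omega)) z3)
      (by rw [← m4]; exact hfi _ _ w1 (by omega) z1)
    have f2 := W.a2 (i + (j : ZMod h)) (P z) (inX w1 w2)
      (by rw [← e1]; exact hfi _ _ w1 (hl.lt j (by omega)) z2)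
      (by rw [← e2]; exact hfi _ _ w1 (hl.lt (j + 1) (by omega)) z3)
      (by rw [← m4]; exact hfi _ _ w1 (by omega) z1)
    rw [e1, e2, m4]
    rw [orient_swap'] at f2
    refine ⟨by linarith, ?_⟩
    rw [← orient_cyc]
    exact f1

end Geo

end Pool.Agent.GCP
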