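import Pool.Agent.GCP.WinPatch

/-!
# Ranks around hull vertices
-/

namespace Pool.Agent.GCP

namespace Geo

variable {X : Finset Pt} {h : ℕ} {p a c : ZMod h → Pt}

lemma plu (o e u v w : Pt) :
    orient o e v * orient o u w = orient o e u * orient o v w + orient o e w * orient o u v := by
  unfold orient; ring

lemma ang_pos {o e u v w : Pt} (h1 : 0 < orient o e v) (h2 : 0 ≤ orient o e u)
    (h3 : 0 ≤ orient o v w) (h4 : 0 < orient o e w) (h5 : 0 < orient o u v) :
    0 < orient o u w := by
  have := plu o e u v w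
  have h6 : 0 < orient o e v * orient o u w := by
    rw [this]
    have e1 := mul_nonneg h2 h3
    have e2 := mul_pos h4 h5
    linarith
  exact (mul_pos_iff_of_pos_left h1).1 h6

lemma hull_e (W : RingS0 X h p a c) (i : ZMod h) {z : Pt} (hz : z ∈ X) :
    0 ≤ orient (p i) (p (i + 1)) z := by
  by_cases h1 : z = p i
  · rw [h1]; simp
  by_cases h2 : z = p (i + 1)
  · rw [h2]; simp
  exact (W.hull i z hz h1 h2).le

lemma rank_lt (W : RingS0 X h p a c) (i : ZMod h) {z w : Pt} (hz : z ∈ X) (hw : w ∈ X)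
    (h0 : 0 < orient (p i) z w) : nr X (p i) z < nr X (p i) w := by
  have hzq : z ≠ p i := by rintro rfl; simp at h0
  have hwq : w ≠ p i := by rintro rfl; simp at h0
  have hwe : w ≠ p (i + 1) := by
    rintro rfl
    have := hull_e W i hz
    rw [orient_swap'] at h0
    linarith
  have hew := W.hull i w hw hwq hwe
  apply Finset.card_lt_card
  rw [Finset.ssubset_iff_of_subset]
  · refine ⟨z, Finset.mem_filter.2 ⟨hz, by rw [orient_swap']; linarith⟩, ?_⟩
    intro hc
    have := (Finset.mem_filter.1 hc).2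
    simp at this
  · intro u hu
    obtain ⟨u1, u2⟩ := Finset.mem_filter.1 hu
    refine Finset.mem_filter.2 ⟨u1, ?_⟩
    have hze : z ≠ p (i + 1) := by
      rintro rfl
      have := hull_e W i u1
      linarith
    have hez := W.hull i z hz hzq hze
    have := ang_pos (o := p i) (e := p (i + 1)) (u := u) (v := z) (w := w) hez (hull_e W i u1)
      h0.le hew (by rw [orient_swap']; linarith)
    rw [orient_swap']
    linarith

lemma rank_lt' (W : RingS0 X h p a c) (i : ZMod h) {z w : Pt} (hz : z ∈ X) (hw : w ∈ X)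
    (h0 : 0 < orient (p i) z w) : nr X w (p i) < nr X z (p i) := by
  have hwq : w ≠ p i := by rintro rfl; simp at h0
  have hwe : w ≠ p (i + 1) := by
    rintro rfl
    have := hull_e W i hz
    rw [orient_swap'] at h0
    linarith
  have hew := W.hull i w hw hwq hwe
  apply Finset.card_lt_card
  rw [Finset.ssubset_iff_of_subset]
  · refine ⟨w, Finset.mem_filter.2 ⟨hw, by rw [orient_swap]; linarith⟩, ?_⟩
    intro hc
    have := (Finset.mem_filter.1 hc).2
    simp at this
  · intro u hu
    obtain ⟨u1, u2⟩ := Finset.mem_filter.1 hu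
    refine Finset.mem_filter.2 ⟨u1, ?_⟩
    have h1 : 0 < orient (p i) w u := by rw [orient_swap]; linarith
    have huq : u ≠ p i := by rintro rfl; simp at h1
    have hue : u ≠ p (i + 1) := by
      rintro rfl
      rw [orient_swap'] at h1
      linarith
    have heu := W.hull i u u1 huq hue
    have := ang_pos (o := p i) (e := p (i + 1)) (u := z) (v := w) (w := u) hew (hull_e W i hz)
      h1.le heu h0
    rw [orient_swap]
    linarith

lemma rank_inj (W : RingS0 X h p a c) (i : ZMod h) {z w : Pt} (hz : z ∈ X) (hw : w ∈ X)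
    (hzq : z ≠ p i) (hwq : w ≠ p i) (he : nr X (p i) z = nr X (p i) w) : z = w := by
  by_contra hne
  rcases lt_or_gt_of_ne (orient_ne W.gp (W.pX i) hz hw hzq.symm hne hwq.symm) with h1 | h1
  · rw [orient_swap'] at h1
    have := rank_lt W i hw hz (by linarith)
    omega
  · have := rank_lt W i hz hw h1
    omega

lemma rank_inj' (W : RingS0 X h p a c) (i : ZMod h) {z w : Pt} (hz : z ∈ X) (hw : w ∈ X)
    (hzq : z ≠ p i) (hwq : w ≠ p i) (he : nr X z (p i) = nr X w (p i)) : z = w := by
  by_contra hne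
  rcases lt_or_gt_of_ne (orient_ne W.gp (W.pX i) hz hw hzq.symm hne hwq.symm) with h1 | h1
  · rw [orient_swap'] at h1
    have := rank_lt' W i hw hz (by linarith)
    omega
  · have := rank_lt' W i hz hw h1
    omega

/-- The points common to the first `N` points around `x` and around `y`. -/
noncomputable def MI (X : Finset Pt) (x y : Pt) (N : ℕ) : Finset Pt := by
  classical
  exact X.filter (fun z => z ≠ x ∧ z ≠ y ∧ nr X x z < N ∧ nr X z y < N)

lemma mem_MI {x y : Pt} {N : ℕ} {z : Pt} : z ∈ MI X x y N ↔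
    z ∈ X ∧ z ≠ x ∧ z ≠ y ∧ nr X x z < N ∧ nr X z y < N := by
  classical
  unfold MI
  rw [Finset.mem_filter]

lemma MI_mono {x y : Pt} {N N' : ℕ} (hN : N ≤ N') : MI X x y N ⊆ MI X x y N' := by
  intro z hz
  rw [mem_MI] at hz ⊢
  exact ⟨hz.1, hz.2.1, hz.2.2.1, by omega, by omega⟩

lemma MI_step (W : RingS0 X h p a c) (i j : ZMod h) (N : ℕ) :
    (MI X (p i) (p j) (N + 1)).card ≤ (MI X (p i) (p j) N).card + 2 := by
  classical
  have h1 : MI X (p i) (p j) (N + 1) ⊆ MI X (p i) (p j) N ∪
      ((X.filter (fun z => z ≠ p i ∧ nr X (p i) z = N)) ∪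
        (X.filter (fun z => z ≠ p j ∧ nr X z (p j) = N))) := by
    intro z hz
    obtain ⟨z1, z2, z3, z4, z5⟩ := mem_MI.1 hz
    rw [Finset.mem_union, Finset.mem_union, mem_MI, Finset.mem_filter, Finset.mem_filter]
    by_cases h1 : nr X (p i) z = N
    · exact Or.inr (Or.inl ⟨z1, z2, h1⟩)
    by_cases h2 : nr X z (p j) = N
    · exact Or.inr (Or.inr ⟨z1, z3, h2⟩)
    · exact Or.inl ⟨z1, z2, z3, by omega, by omega⟩
  have h2 : (X.filter (fun z => z ≠ p i ∧ nr X (p i) z = N)).card ≤ 1 := by
    rw [Finset.card_le_one]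
    intro z hz w hw
    obtain ⟨z1, z2, z3⟩ := Finset.mem_filter.1 hz
    obtain ⟨w1, w2, w3⟩ := Finset.mem_filter.1 hw
    exact rank_inj W i z1 w1 z2 w2 (by omega)
  have h3 : (X.filter (fun z => z ≠ p j ∧ nr X z (p j) = N)).card ≤ 1 := by
    rw [Finset.card_le_one]
    intro z hz w hw
    obtain ⟨z1, z2, z3⟩ := Finset.mem_filter.1 hz
    obtain ⟨w1, w2, w3⟩ := Finset.mem_filter.1 hw
    exact rank_inj' W j z1 w1 z2 w2 (by omega)
  have h4 := (Finset.card_le_card h1).trans ((Finset.card_union_le _ _).trans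
    (Nat.add_le_add_left (Finset.card_union_le _ _) _))
  omega

/-- The regions behind consecutive chords are disjoint. -/
lemma near_disj (W : RingS0 X h p a c) (i : ZMod h) {s t u : ℕ} (h1 : s < t) (h2 : t + 1 < u)
    (h3 : u < s + h) {z : Pt} (hz : z ∈ X)
    (e1 : orient (p (i + (s : ZMod h))) (p (i + (t : ZMod h))) z < 0)
    (e2 : orient (p (i + (t : ZMod h))) (p (i + (u : ZMod h))) z < 0) : False := by
  have f1 := conv_gen W i (s := t) (t := t + 1) (u := u) (by omega) h2 (by omega)
  have f2 := conv_gen W i h1 (by omega : t < u) h3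
  have f3 := conv_gen W i h1 (by omega : t < t + 1) (by omega)
  have g1 := hull_e W (i + (t : ZMod h)) hz
  rw [add_assoc, ← Nat.cast_one (R := ZMod h), ← Nat.cast_add] at g1
  rw [orient_cyc] at f2 f3
  rw [orient_cyc] at f2 f3
  have := ang_pos (o := p (i + (t : ZMod h))) (e := p (i + ((t + 1 : ℕ) : ZMod h))) (u := z)
    (v := p (i + (u : ZMod h))) (w := p (i + (s : ZMod h))) f1 g1 f2.le f3
    (by rw [orient_swap']; linarith)
  rw [orient_cyc] at this
  linarith

/-- The number of points behind a chord grows by at least 2. -/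
lemma nr_step (W : RingS0 X h p a c) (i : ZMod h) {s t : ℕ} (h1 : s + 1 < t) (h3 : t + 2 < s + h) :
    nr X (p (i + (s : ZMod h))) (p (i + (t : ZMod h))) + 2 ≤
      nr X (p (i + (s : ZMod h))) (p (i + ((t + 1 : ℕ) : ZMod h))) := by
  classical
  have ht1 : i + (t : ZMod h) + 1 = i + ((t + 1 : ℕ) : ZMod h) := by
    rw [Nat.cast_add, Nat.cast_one]; ring
  have ht2 : i + (t : ZMod h) + 1 + 1 = i + ((t + 2 : ℕ) : ZMod h) := by
    rw [Nat.cast_add, Nat.cast_two]; ring
  have ht0 : i + (t : ZMod h) - 1 = i + ((t - 1 : ℕ) : ZMod h) := by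
    rw [Nat.cast_sub (by omega : 1 ≤ t), Nat.cast_one]; ring
  -- `a (i + t)` lies behind `p (t - 1) p (t + 1)` and behind `p t p (t + 2)`
  have a1 := (W.s1 (i + (t : ZMod h)) (a (i + (t : ZMod h))) (W.aX _)).2
    (Or.inr (Or.inr rfl))
  rw [ht0, ht1] at a1
  have a2 := (W.s1 (i + (t : ZMod h) + 1) (a (i + (t : ZMod h))) (W.aX _)).2
    (Or.inl (by rw [add_sub_cancel_right]))
  rw [add_sub_cancel_right, ht2] at a2
  have b1 := near_left W i (s' := s) (s := t - 1) (t := t + 1) (by omega) (by omega) (by omega)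
    (W.aX _) a1
  have b2 : ¬ orient (p (i + (s : ZMod h))) (p (i + (t : ZMod h))) (a (i + (t : ZMod h))) < 0 :=
    fun hc => near_disj W i (s := s) (t := t) (u := t + 2) (by omega) (by omega) (by omega)
      (W.aX _) hc a2
  have c1 := conv_gen W i (s := s) (t := t) (u := t + 1) (by omega) (by omega) (by omega)
  rw [orient_swap'] at c1
  have key : insert (p (i + (t : ZMod h))) (insert (a (i + (t : ZMod h)))
      (X.filter (fun z => orient (p (i + (s : ZMod h))) (p (i + (t : ZMod h))) z < 0))) ⊆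
      X.filter (fun z => orient (p (i + (s : ZMod h))) (p (i + ((t + 1 : ℕ) : ZMod h))) z < 0) := by
    intro z hz
    rw [Finset.mem_insert, Finset.mem_insert, Finset.mem_filter] at hz
    rw [Finset.mem_filter]
    rcases hz with rfl | rfl | ⟨z1, z2⟩
    · exact ⟨W.pX _, by linarith⟩
    · exact ⟨W.aX _, b1⟩
    · exact ⟨z1, near_right W i (by omega) (by omega) (by omega) z1 z2⟩
  have := Finset.card_le_card key
  rw [Finset.card_insert_of_notMem, Finset.card_insert_of_notMem] at this
  · exact this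
  · rw [Finset.mem_filter, not_and]
    exact fun _ => b2
  · rw [Finset.mem_insert, Finset.mem_filter, not_or, not_and]
    refine ⟨fun e => W.ap _ _ e.symm, fun _ => ?_⟩
    simp

end Geo

end Pool.Agent.GCP
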