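import Pool.Agent.GCP.WinCert

/-!
# Windows over six hull edges
-/

namespace Pool.Agent.GCP

namespace Geo

variable {X : Finset Pt} {h : ℕ} {p a c : ZMod h → Pt}

lemma six_ge (W : RingS0 X h p a c) (hh : 8 ≤ h) (i : ZMod h) :
    12 ≤ nr X (p i) (p (i + ((6 : ℕ) : ZMod h))) := by
  have h1 := nr_step W i (s := 0) (t := 5) (by omega) (by omega)
  rw [Nat.cast_zero, add_zero] at h1
  have h2 : nr X (p i) (p (i + ((5 : ℕ) : ZMod h))) + 2 ≤
    nr X (p i) (p (i + ((6 : ℕ) : ZMod h))) := h1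
  have h3 := five_ge W (by omega) i
  have h4 := four_ge W (by omega) i
  omega

lemma MI6_ge (W : RingS0 X h p a c) (hh : 8 ≤ h) (hM : Sh X p) {K : ℕ}
    (hI : Irr X K t414 []) (i : ZMod h) :
    nr X (p (i + ((1 : ℕ) : ZMod h))) (p (i + ((5 : ℕ) : ZMod h))) ≤
      (MI X (p i) (p (i + ((6 : ℕ) : ZMod h))) 12).card + 2 := by
  classical
  have t1 := (t_le W (by omega) hM hI i).1
  have t2 := (t_le W (by omega) hM hI (i + ((1 : ℕ) : ZMod h))).2
  have e4 : i + ((1 : ℕ) : ZMod h) + ((4 : ℕ) : ZMod h) = i + ((5 : ℕ) : ZMod h) := by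
    rw [← sh_add]
  have e5 : i + ((1 : ℕ) : ZMod h) + ((5 : ℕ) : ZMod h) = i + ((6 : ℕ) : ZMod h) := by
    rw [← sh_add]
  rw [e4, e5] at t2
  have hsub : X.filter (fun z => orient (p (i + ((1 : ℕ) : ZMod h)))
      (p (i + ((5 : ℕ) : ZMod h))) z < 0) ⊆ MI X (p i) (p (i + ((6 : ℕ) : ZMod h))) 12 ∪
      ((X.filter (fun z => orient (p (i + ((1 : ℕ) : ZMod h))) (p (i + ((5 : ℕ) : ZMod h))) z < 0 ∧
      12 ≤ nr X (p i) z)) ∪ (X.filter (fun z => orient (p (i + ((1 : ℕ) : ZMod h)))
      (p (i + ((5 : ℕ) : ZMod h))) z < 0 ∧ 12 ≤ nr X z (p (i + ((6 : ℕ) : ZMod h)))))) := by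
    intro z hz
    obtain ⟨z1, z2⟩ := Finset.mem_filter.1 hz
    rw [Finset.mem_union, Finset.mem_union, mem_MI, Finset.mem_filter, Finset.mem_filter]
    by_cases h1 : 12 ≤ nr X (p i) z
    · exact Or.inr (Or.inl ⟨z1, z2, h1⟩)
    by_cases h2 : 12 ≤ nr X z (p (i + ((6 : ℕ) : ZMod h)))
    · exact Or.inr (Or.inr ⟨z1, z2, h2⟩)
    left
    have g1 := near_left W i (s' := 0) (by omega) (by omega : 1 < 5) (by omega) z1 z2
    rw [Nat.cast_zero, add_zero] at g1
    have g2 := near_right W i (t' := 6) (by omega : 1 < 5) (by omega) (by omega) z1 z2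
    refine ⟨z1, ?_, ?_, by omega, by omega⟩
    · rintro rfl; simp at g1
    · rintro rfl; simp at g2
  have h4 := (Finset.card_le_card hsub).trans ((Finset.card_union_le _ _).trans
    (Nat.add_le_add_left (Finset.card_union_le _ _) _))
  unfold nr at h4 t1 t2 ⊢
  omega

lemma q5_ex (W : RingS0 X h p a c) (hh : 8 ≤ h) {i : ZMod h} {N r : ℕ} {P : ℕ → Pt}
    (D : TwoK X p a i 6 N N r P) (hN : 11 ≤ N) : ∃ q, q < N + r + 3 ∧ q ≠ N + 1 ∧
      P q = p (i + ((5 : ℕ) : ZMod h)) ∧
      ((nr X (p i) (p (i + ((4 : ℕ) : ZMod h))) + 3 ≤ q ∧ q ≤ N) ∨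
        (N + 2 ≤ q ∧ q < N + 2 + r)) := by
  have h3 := five_ge W (by omega) i
  have c56 : nr X (p (i + ((5 : ℕ) : ZMod h))) (p (i + ((6 : ℕ) : ZMod h))) = 0 := c1 W i 5
  rcases Nat.lt_or_ge (nr X (p i) (p (i + ((5 : ℕ) : ZMod h)))) N with h5 | h5
  · have e := D.posR 5 (by omega) (by omega) h5
    exact ⟨_, by omega, by omega, e, Or.inl ⟨by omega, by omega⟩⟩
  · obtain ⟨m, m1, m2, m3, m4, m5⟩ := D.posL 5 (by omega) (by omega)
    refine ⟨m, by omega, m3, m4, Or.inr ⟨?_, by omega⟩⟩
    by_contra hc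
    have h1 := D.frame.srt m (N + 1) (by omega) (by omega) (by omega)
    rw [orient_swap', m4] at h1
    have := ((D.R_iff W (by omega) (W.pX _)).1 (by linarith)).2
    omega

/-- The window over six edges with twelve points on both sides. -/
lemma six_win (W : RingS0 X h p a c) (hh : 8 ≤ h) (hM : Sh X p) {K : ℕ}
    (hI : Irr X K t414 []) {i : ZMod h} {m : ℕ} (hm9 : m ≤ 9)
    (h0 : nr X (p i) (p (i + ((4 : ℕ) : ZMod h))) = m)
    (hmin : ∀ j : ZMod h, m ≤ nr X (p j) (p (j + ((4 : ℕ) : ZMod h))))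
    (hc : m < nr X (p (i + ((1 : ℕ) : ZMod h))) (p (i + ((5 : ℕ) : ZMod h))) ∨
      ∀ j : ZMod h, nr X (p j) (p (j + ((4 : ℕ) : ZMod h))) = m) : False := by
  classical
  have m8 : 8 ≤ m := by rw [← h0]; exact four_ge W (by omega) i
  have s6 := six_ge W hh i
  have c46 : nr X (p (i + ((4 : ℕ) : ZMod h))) (p (i + ((6 : ℕ) : ZMod h))) = 3 := c2 W i 4
  have c14 : nr X (p (i + ((1 : ℕ) : ZMod h))) (p (i + ((4 : ℕ) : ZMod h))) = 6 := c3 W i 1
  have m1 : nr X (p (i + ((1 : ℕ) : ZMod h))) (p (i + ((5 : ℕ) : ZMod h))) ≤ 10 := hM.s i 1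
  have m2 : nr X (p (i + ((2 : ℕ) : ZMod h))) (p (i + ((6 : ℕ) : ZMod h))) ≤ 10 := hM.s i 2
  have e1 : i + ((1 : ℕ) : ZMod h) + ((4 : ℕ) : ZMod h) = i + ((5 : ℕ) : ZMod h) := by
    rw [← sh_add]
  have e2 : i + ((2 : ℕ) : ZMod h) + ((4 : ℕ) : ZMod h) = i + ((6 : ℕ) : ZMod h) := by
    rw [← sh_add]
  have m1' := hmin (i + ((1 : ℕ) : ZMod h))
  have m2' := hmin (i + ((2 : ℕ) : ZMod h))
  rw [e1] at m1'
  rw [e2] at m2'
  obtain ⟨r, P, -, D⟩ := two_line_k W i (k := 6) (N := 12) (N2 := 12) (by omega) (by omega)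
    (by omega) (by omega) (by omega) (by omega) (j0 := 4) (by omega) (by omega) (by omega)
    (by omega)
  have k1 := D.MI_card W (by omega) (by omega)
  have k2 := MI6_ge W hh hM hI i
  obtain ⟨q, q1, q2, q3, q4⟩ := q5_ex W hh D (by omega)
  rw [h0] at q4
  have hP1 : P 1 = p (i + ((1 : ℕ) : ZMod h)) := by rw [D.P1, Nat.cast_one]
  have hP4 : P 4 = p (i + ((2 : ℕ) : ZMod h)) := by rw [D.P4]; norm_num
  have f1 : (FF 12 r P (P 1) (P q)).card ≤
      nr X (p (i + ((1 : ℕ) : ZMod h))) (p (i + ((5 : ℕ) : ZMod h))) := by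
    rw [hP1, q3]
    exact FF_le D _ _
  have f2 : (FF 12 r P (P 4) (P (12 + r + 2))).card =
      nr X (p (i + ((2 : ℕ) : ZMod h))) (p (i + ((6 : ℕ) : ZMod h))) := by
    rw [hP4, D.PV]
    exact FF_chord W D (by omega) (s := 2) (t := 6) (by omega) (by omega)
      (Or.inr (Or.inl (by omega)))
  have key := fun (u l : List (ℕ × ℕ × ℕ)) hu hl => patch6 W (by omega) D (by omega) h0
    (by omega) q1 q2 q3 m2 (u := u) (l := l) (ex := []) hu hl (by simp)
  have hall : (∀ j : ZMod h, nr X (p j) (p (j + ((4 : ℕ) : ZMod h))) = m) →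
      nr X (p (i + ((1 : ℕ) : ZMod h))) (p (i + ((5 : ℕ) : ZMod h))) = m ∧
      nr X (p (i + ((2 : ℕ) : ZMod h))) (p (i + ((6 : ℕ) : ZMod h))) = m := by
    intro ha
    have a1 := ha (i + ((1 : ℕ) : ZMod h))
    have a2 := ha (i + ((2 : ℕ) : ZMod h))
    rw [e1] at a1
    rw [e2] at a2
    exact ⟨a1, a2⟩
  have hm : m = 8 ∨ m = 9 := by omega
  rcases hm with rfl | rfl
  · by_cases hr : r ≤ 5
    · refine f8_false hr (by omega) (key [(1, q, 10), (4, 12 + r + 2, 10)]
        [(4, 12 + r + 2, 8)] ?_ ?_) hI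
      · intro f hf
        simp only [List.mem_cons, List.not_mem_nil, or_false] at hf
        rcases hf with rfl | rfl
        · simp only; omega
        · simp only; omega
      · intro f hf
        simp only [List.mem_cons, List.not_mem_nil, or_false] at hf
        rcases hf with rfl
        simp only
        omega
    · have ha : ∀ j : ZMod h, nr X (p j) (p (j + ((4 : ℕ) : ZMod h))) = 8 := by
        rcases hc with hc | hc
        · omega
        · exact hc
      obtain ⟨a1, a2⟩ := hall ha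
      have hr6 : r = 6 := by omega
      subst hr6
      have f2' : (FF 12 6 P (P 4) (P 20)).card =
          nr X (p (i + ((2 : ℕ) : ZMod h))) (p (i + ((6 : ℕ) : ZMod h))) := f2
      refine g8_false (by omega) (key [(1, q, 8), (4, 20, 8)] [(4, 20, 8)] ?_ ?_) hI
      · intro f hf
        simp only [List.mem_cons, List.not_mem_nil, or_false] at hf
        rcases hf with rfl | rfl
        · simp only; omega
        · simp only; omega
      · intro f hf
        simp only [List.mem_cons, List.not_mem_nil, or_false] at hf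
        rcases hf with rfl
        simp only
        omega
  · by_cases hr : r ≤ 4
    · refine f9_false hr (by omega) (key [(1, q, 10), (4, 12 + r + 2, 10)]
        [(4, 12 + r + 2, 9)] ?_ ?_) hI
      · intro f hf
        simp only [List.mem_cons, List.not_mem_nil, or_false] at hf
        rcases hf with rfl | rfl
        · simp only; omega
        · simp only; omega
      · intro f hf
        simp only [List.mem_cons, List.not_mem_nil, or_false] at hf
        rcases hf with rfl
        simp only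
        omega
    · have ha : ∀ j : ZMod h, nr X (p j) (p (j + ((4 : ℕ) : ZMod h))) = 9 := by
        rcases hc with hc | hc
        · omega
        · exact hc
      obtain ⟨a1, a2⟩ := hall ha
      have hr5 : r = 5 := by omega
      subst hr5
      have f2' : (FF 12 5 P (P 4) (P 19)).card =
          nr X (p (i + ((2 : ℕ) : ZMod h))) (p (i + ((6 : ℕ) : ZMod h))) := f2
      refine g9_false (by omega) (key [(1, q, 9), (4, 19, 9)] [(4, 19, 9)] ?_ ?_) hI
      · intro f hf
        simp only [List.mem_cons, List.not_mem_nil, or_false] at hf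
        rcases hf with rfl | rfl
        · simp only; omega
        · simp only; omega
      · intro f hf
        simp only [List.mem_cons, List.not_mem_nil, or_false] at hf
        rcases hf with rfl
        simp only
        omega

/-- All chords over four edges cut off exactly ten points. -/
theorem all_ten (W : RingS0 X h p a c) (hh : 8 ≤ h) (hM : Sh X p) {K : ℕ}
    (hI : Irr X K t414 []) (i : ZMod h) : nr X (p i) (p (i + ((4 : ℕ) : ZMod h))) = 10 := by
  classical
  have : NeZero h := ⟨by omega⟩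
  set f : ZMod h → ℕ := fun j => nr X (p j) (p (j + ((4 : ℕ) : ZMod h))) with hf
  obtain ⟨i0, -, hi0⟩ := Finset.exists_min_image (Finset.univ : Finset (ZMod h)) f
    ⟨0, Finset.mem_univ _⟩
  have hmin : ∀ j, f i0 ≤ f j := fun j => hi0 j (Finset.mem_univ _)
  by_cases h10 : 10 ≤ f i0
  · have h1 := hmin i
    have h2 := hM i
    have h3 : f i = nr X (p i) (p (i + ((4 : ℕ) : ZMod h))) := rfl
    omega
  exfalso
  have e1 : ∀ j : ZMod h, f (j + 1) =
      nr X (p (j + ((1 : ℕ) : ZMod h))) (p (j + ((5 : ℕ) : ZMod h))) := by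
    intro j
    have e : j + ((1 : ℕ) : ZMod h) + ((4 : ℕ) : ZMod h) = j + ((5 : ℕ) : ZMod h) := by
      rw [← sh_add]
    rw [hf]
    simp only
    rw [← e, Nat.cast_one]
  by_cases hall : ∀ j, f j = f i0
  · exact six_win W hh hM hI (i := i0) (m := f i0) (by omega) rfl hmin (Or.inr hall)
  · -- there is a corner with the minimal value whose successor has a larger value
    have hex : ∃ j, f j = f i0 ∧ f i0 < f (j + 1) := by
      by_contra hc
      push Not at hc
      apply hall
      have hstep : ∀ n : ℕ, f (i0 + (n : ZMod h)) = f i0 := by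
        intro n
        induction n with
        | zero => rw [Nat.cast_zero, add_zero]
        | succ n ih =>
          have h1 := hc _ ih
          have h2 := hmin (i0 + (n : ZMod h) + 1)
          rw [Nat.cast_add, Nat.cast_one, ← add_assoc]
          omega
      intro j
      have := hstep (j - i0).val
      rwa [ZMod.natCast_zmod_val, add_sub_cancel] at this
    obtain ⟨j, j1, j2⟩ := hex
    rw [e1] at j2
    exact six_win W hh hM hI (i := j) (m := f i0) (by omega) j1 hmin (Or.inl j2)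

/-- The case (R) is impossible. -/
theorem no_R' (W : RingS0 X h p a c) (hh : 8 ≤ h) (hM : Sh X p) {K : ℕ}
    (hI : Irr X K t414 []) (i : ZMod h)
    (hR : ∀ o : Pt, 0 < orient (p i) (p (i + 4)) o → 0 < orient (p (i + 2)) (p (i + 6)) o →
      0 < orient (p (i + 1)) (p (i + 5)) o) : False := by
  classical
  have e1 : i + ((1 : ℕ) : ZMod h) + ((4 : ℕ) : ZMod h) = i + ((5 : ℕ) : ZMod h) := by
    rw [← sh_add]
  have e2 : i + ((2 : ℕ) : ZMod h) + ((4 : ℕ) : ZMod h) = i + ((6 : ℕ) : ZMod h) := by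
    rw [← sh_add]
  have m0 := all_ten W hh hM hI i
  have m1 := all_ten W hh hM hI (i + ((1 : ℕ) : ZMod h))
  have m2 := all_ten W hh hM hI (i + ((2 : ℕ) : ZMod h))
  rw [e1] at m1
  rw [e2] at m2
  have s6 := six_ge W hh i
  have c46 : nr X (p (i + ((4 : ℕ) : ZMod h))) (p (i + ((6 : ℕ) : ZMod h))) = 3 := c2 W i 4
  obtain ⟨r, P, -, D⟩ := two_line_k W i (k := 6) (N := 11) (N2 := 11) (by omega) (by omega)
    (by omega) (by omega) (by omega) (by omega) (j0 := 4) (by omega) (by omega) (by omega)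
    (by omega)
  have k1 := D.MI_card W (by omega) (by omega)
  have k2 := MI6_ge W hh hM hI i
  have k3 : (MI X (p i) (p (i + ((6 : ℕ) : ZMod h))) 12).card ≤
    (MI X (p i) (p (i + ((6 : ℕ) : ZMod h))) 11).card + 2 := MI_step W i _ 11
  have hr5 : r ≤ 5 := by omega
  obtain ⟨q, q1, q2, q3, q4⟩ := q5_ex W hh D (by omega)
  rw [m0] at q4
  have hP1 : P 1 = p (i + ((1 : ℕ) : ZMod h)) := by rw [D.P1, Nat.cast_one]
  have hP4 : P 4 = p (i + ((2 : ℕ) : ZMod h)) := by rw [D.P4]; norm_num
  have hP11 : P 11 = p (i + ((4 : ℕ) : ZMod h)) := by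
    have := D.posR 4 (by omega) (by omega) (by omega)
    rw [m0] at this
    exact this
  have hV := D.PV
  -- the virtual point is above the three chords
  have g1 : 0 < orient (p i) (p (i + ((4 : ℕ) : ZMod h))) (P (11 + 1)) := by
    rw [← D.P0, ← hP11]
    exact D.frame.srt 11 12 (by omega) (by omega) (by omega)
  have g2 : 0 < orient (p (i + ((2 : ℕ) : ZMod h))) (p (i + ((6 : ℕ) : ZMod h))) (P (11 + 1)) := by
    have hne : p (i + ((2 : ℕ) : ZMod h)) ≠ p (i + ((6 : ℕ) : ZMod h)) :=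
      pne_gen W i (by omega) (by omega)
    have := (D.L_iff W (by omega) (by omega) (W.pX (i + ((2 : ℕ) : ZMod h)))).2
      ⟨hne, by omega⟩
    rw [hV] at this
    have e := orient_cyc (P (11 + 1)) (p (i + ((6 : ℕ) : ZMod h))) (p (i + ((2 : ℕ) : ZMod h)))
    have e' := orient_swap (p (i + ((2 : ℕ) : ZMod h))) (p (i + ((6 : ℕ) : ZMod h))) (P (11 + 1))
    linarith
  have g3 : 0 < orient (p (i + ((1 : ℕ) : ZMod h))) (p (i + ((5 : ℕ) : ZMod h))) (P (11 + 1)) := by
    have := hR (P (11 + 1)) (by simpa only [Nat.cast_ofNat] using g1)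
      (by simpa only [Nat.cast_ofNat] using g2)
    simpa only [Nat.cast_ofNat, Nat.cast_one] using this
  have f1 : (FF 11 r P (P 1) (P q)).card = 10 := by
    rw [hP1, q3, ← m1]
    exact FF_chord W D (by omega) (s := 1) (t := 5) (by omega) (by omega)
      (Or.inr (Or.inr g3.le))
  have f2 : (FF 11 r P (P 4) (P (11 + r + 2))).card = 10 := by
    rw [hP4, D.PV, ← m2]
    exact FF_chord W D (by omega) (s := 2) (t := 6) (by omega) (by omega)
      (Or.inr (Or.inl (by omega)))
  have key := patch6 W (by omega) D (by omega) m0 (by omega) q1 q2 q3 (by omega)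
    (u := [(1, q, 10), (4, 11 + r + 2, 10)]) (l := [(1, q, 10), (4, 11 + r + 2, 10)])
    (ex := [(1, q, 12)]) (by
      intro f hf
      simp only [List.mem_cons, List.not_mem_nil, or_false] at hf
      rcases hf with rfl | rfl
      · simp only; omega
      · simp only; omega) (by
      intro f hf
      simp only [List.mem_cons, List.not_mem_nil, or_false] at hf
      rcases hf with rfl | rfl
      · simp only; omega
      · simp only; omega) (by
      intro f hf
      simp only [List.mem_cons, List.not_mem_nil, or_false] at hf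
      rcases hf with rfl
      simp only
      rw [hP1, q3]
      exact g3)
  -- the label of `p (i + 5)`
  have hq : 13 ≤ q ∧ q < 13 + r := by omega
  exact e_false (by omega) hr5 hq.1 hq.2 key hI

/-- There are many hull vertices. -/
lemma h_ge (W : RingS0 X h p a c) (hX : 27 ≤ X.card) (hM : Sh X p) : 9 ≤ h := by
  by_contra hc
  have h5 := W.hh
  have e := nr_add W 0 (s := 0) (t := 4) (by omega) (by omega)
  rw [Nat.cast_zero, add_zero] at e
  have m0 := hM 0
  have key : ∀ d : ℕ, h = 4 + d → nr X (p (0 + ((4 : ℕ) : ZMod h))) (p 0) =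
      nr X (p (0 + ((4 : ℕ) : ZMod h))) (p (0 + ((4 : ℕ) : ZMod h) + ((d : ℕ) : ZMod h))) := by
    intro d hd
    rw [← sh_add, ← hd, ZMod.natCast_self, add_zero]
  have hcase : h = 4 + 1 ∨ h = 4 + 2 ∨ h = 4 + 3 ∨ h = 4 + 4 := by omega
  rcases hcase with h1 | h1 | h1 | h1
  · have := key 1 h1
    rw [z1 W] at this
    omega
  · have := key 2 h1
    rw [z2 W] at this
    omega
  · have := key 3 h1
    rw [z3 W] at this
    omega
  · have := key 4 h1
    have := hM (0 + ((4 : ℕ) : ZMod h))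
    omega

/-- The result of the two line windows. -/
theorem no_R (W : RingS0 X h p a c) (hh : 8 ≤ h) {K : ℕ} (hI : Irr X K t414 [])
    (hM : ∀ i : ZMod h, nr X (p i) (p (i + 4)) ≤ 10) :
    (∀ i : ZMod h, nr X (p i) (p (i + 4)) = 10) ∧
    ∀ i : ZMod h, ¬ (∀ o : Pt, 0 < orient (p i) (p (i + 4)) o →
      0 < orient (p (i + 2)) (p (i + 6)) o → 0 < orient (p (i + 1)) (p (i + 5)) o) := by
  have hM' : Sh X p := by
    intro i
    simpa only [Nat.cast_ofNat] using hM i
  refine ⟨fun i => ?_, fun i hR => no_R' W hh hM' hI i hR⟩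
  have := all_ten W hh hM' hI i
  simpa only [Nat.cast_ofNat] using this

end Geo

end Pool.Agent.GCP
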