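import Pool.Agent.GCP.WinOne

/-!
# The chords over four edges are almost contained in the sides of the windows
-/

namespace Pool.Agent.GCP

namespace Geo

variable {X : Finset Pt} {h : ℕ} {p a c : ZMod h → Pt}

theorem t_le (W : RingS0 X h p a c) (hh : 7 ≤ h) (hM : Sh X p) {K : ℕ}
    (hI : Irr X K t414 []) (i : ZMod h) :
    (X.filter (fun z => orient (p (i + ((1 : ℕ) : ZMod h))) (p (i + ((5 : ℕ) : ZMod h))) z < 0 ∧
      12 ≤ nr X (p i) z)).card ≤ 1 ∧
    (X.filter (fun z => orient (p i) (p (i + ((4 : ℕ) : ZMod h))) z < 0 ∧
      12 ≤ nr X z (p (i + ((5 : ℕ) : ZMod h))))).card ≤ 1 := by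
  classical
  have m0 := hM i
  have m1 : nr X (p (i + ((1 : ℕ) : ZMod h))) (p (i + ((5 : ℕ) : ZMod h))) ≤ 10 := hM.s i 1
  have c45 : nr X (p (i + ((4 : ℕ) : ZMod h))) (p (i + ((5 : ℕ) : ZMod h))) = 0 := c1 W i 4
  rcases Nat.lt_or_ge (nr X (p i) (p (i + ((5 : ℕ) : ZMod h)))) 12 with h5 | h5
  · constructor
    · rw [Finset.filter_false_of_mem, Finset.card_empty]
      · omega
      · rintro z hz ⟨e1, e2⟩
        have e3 := near_left W i (s' := 0) (by omega) (by omega : 1 < 5) (by omega) hz e1
        rw [Nat.cast_zero, add_zero] at e3
        have := rank_lt W i (z := z) (w := p (i + ((5 : ℕ) : ZMod h))) hz (W.pX _)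
          (by rw [orient_swap']; linarith)
        omega
    · rw [Finset.filter_false_of_mem, Finset.card_empty]
      · omega
      · rintro z hz ⟨e1, e2⟩
        have e3 := near_right W i (s := 0) (t := 4) (t' := 5) (by omega) (by omega) (by omega) hz
          (by rw [Nat.cast_zero, add_zero]; exact e1)
        rw [Nat.cast_zero, add_zero] at e3
        have := rank_lt' W (i + ((5 : ℕ) : ZMod h)) (z := p i) (w := z) (W.pX _) hz
          (by rw [orient_swap]; linarith)
        omega
  · -- first the windows with 11 points
    obtain ⟨r1, P1, -, D1⟩ := two_line_k W i (k := 5) (N := 11) (N2 := 11) (by omega) (by omega)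
      (by omega) (by omega) (by omega) (by omega) (j0 := 4) (by omega) (by omega) (by omega)
      (by omega)
    have k1 := D1.MI_card W (by omega) (by omega)
    have k2 := MI5_ge W hh hM i
    have r1le : r1 ≤ 2 := by
      by_contra hc
      exact no11 W hh hM hI D1 (by omega) (by omega)
    obtain ⟨r, P, -, D⟩ := two_line_k W i (k := 5) (N := 12) (N2 := 12) (by omega) (by omega)
      (by omega) (by omega) (by omega) (by omega) (j0 := 4) (by omega) (by omega) (by omega)
      (by omega)
    have k3 := D.MI_card W (by omega) (by omega)
    have k4 := Finset.card_le_card (MI_mono (X := X) (x := p i)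
      (y := p (i + ((5 : ℕ) : ZMod h))) (N := 11) (N' := 12) (by omega))
    have hr3 : r ≠ 3 := by
      rintro rfl
      exact no12_3 W hh hM hI D
    have hr : r ≤ 2 := by omega
    constructor
    · -- the points beyond the line `p 1, p 5` which are far from `p 0`
      set T := X.filter (fun z => orient (p (i + ((1 : ℕ) : ZMod h)))
        (p (i + ((5 : ℕ) : ZMod h))) z < 0 ∧ 12 ≤ nr X (p i) z) with hT
      have hsub : T ⊆ (Finset.Ico 14 (14 + r)).image P := by
        intro z hz
        obtain ⟨z1, z2, z3⟩ := Finset.mem_filter.1 hz
        obtain ⟨m, m1', m2', m3, m4⟩ := D.name W (by omega) (s := 1) (t := 5) (by omega)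
          (by omega) (Or.inr (Or.inl (by omega))) z z1 z2
        rw [Finset.mem_image]
        refine ⟨m, Finset.mem_Ico.2 ⟨?_, by omega⟩, m4⟩
        by_contra hc
        have h1 := D.frame.srt m (12 + 1) (by omega) (by omega) (by omega)
        rw [orient_swap', m4] at h1
        have := ((D.R_iff W (by omega) z1).1 (by linarith)).2
        omega
      have hc1 : ((Finset.Ico 14 (14 + r)).image P).card ≤ r := by
        refine Finset.card_image_le.trans ?_
        rw [Nat.card_Ico]
        omega
      by_contra hcon
      have hc2 := Finset.card_le_card hsub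
      have hr2 : r = 2 := by omega
      subst hr2
      have heq := Finset.eq_of_subset_of_card_le hsub (by omega)
      have g1 : P 14 ∈ T := by
        rw [heq]; exact Finset.mem_image_of_mem _ (Finset.mem_Ico.2 (by omega))
      have g2 : P 15 ∈ T := by
        rw [heq]; exact Finset.mem_image_of_mem _ (Finset.mem_Ico.2 (by omega))
      have f1 := (Finset.mem_filter.1 g1).2.1
      have f2 := (Finset.mem_filter.1 g2).2.1
      have hV : P 16 = p (i + ((5 : ℕ) : ZMod h)) := D.PV
      have hP1 : P 1 = p (i + ((1 : ℕ) : ZMod h)) := by rw [D.P1, Nat.cast_one]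
      rw [← hV, ← hP1] at f1 f2
      exact no12_t W hh hM hI D f1 f2
    · set M0 := nr X (p i) (p (i + ((4 : ℕ) : ZMod h))) with hM0
      set T := X.filter (fun z => orient (p i) (p (i + ((4 : ℕ) : ZMod h))) z < 0 ∧
        12 ≤ nr X z (p (i + ((5 : ℕ) : ZMod h)))) with hT
      set J := (Finset.Icc 1 12).filter
        (fun j => ¬ orient (P (12 + 1)) (P (12 + r + 2)) (P j) < 0) with hJ
      have hJc : J.card = r := by
        have e1 := D.cardL
        have e2 : ((Finset.range (12 + 1)).filter
            (fun j => orient (P (12 + 1)) (P (12 + r + 2)) (P j) < 0)) =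
            ((Finset.Icc 1 12).filter
            (fun j => orient (P (12 + 1)) (P (12 + r + 2)) (P j) < 0)) := by
          ext j
          rw [Finset.mem_filter, Finset.mem_filter, Finset.mem_range, Finset.mem_Icc]
          constructor
          · rintro ⟨h1, h2⟩
            refine ⟨⟨?_, by omega⟩, h2⟩
            by_contra hj
            have hj0 : j = 0 := by omega
            subst hj0
            have := D.frame.srt (12 + 1) (12 + r + 2) (by omega) (by omega) (by omega)
            rw [orient_cyc] at h2
            linarith
          · rintro ⟨h1, h2⟩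
            exact ⟨by omega, h2⟩
        have e3 : ((Finset.Icc 1 12).filter
            (fun j => orient (P (12 + 1)) (P (12 + r + 2)) (P j) < 0)).card + J.card =
            (Finset.Icc 1 12).card := by
          rw [hJ]
          convert Finset.card_filter_add_card_filter_not (s := Finset.Icc 1 12)
            (fun j => orient (P (12 + 1)) (P (12 + r + 2)) (P j) < 0)
        rw [Nat.card_Icc] at e3
        have e4 : ((Finset.range (12 + 1)).filter
            (fun j => orient (P (12 + 1)) (P (12 + r + 2)) (P j) < 0)).card + r = 12 := by
          convert e1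
        rw [e2] at e4
        omega
      have hsub : T ⊆ (J.filter (fun j => j ≤ M0)).image P := by
        intro z hz
        obtain ⟨z1, z2, z3⟩ := Finset.mem_filter.1 hz
        have z0 : z ≠ p i := by rintro rfl; simp at z2
        have g1 := rank_lt W i (z := z) (w := p (i + ((4 : ℕ) : ZMod h))) z1 (W.pX _)
          (by rw [orient_swap']; linarith)
        obtain ⟨m, n1, n2, n3⟩ := D.nameR z z1
          ((D.R_iff W (by omega) z1).2 ⟨z0, by omega⟩)
        rw [Finset.mem_image]
        refine ⟨m, ?_, n3⟩
        rw [Finset.mem_filter, hJ, Finset.mem_filter, Finset.mem_Icc]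
        refine ⟨⟨⟨by omega, n2⟩, ?_⟩, ?_⟩
        · intro hc
          rw [n3] at hc
          have := ((D.L_iff W (by omega) (by omega) z1).1 hc).2
          omega
        · by_contra hc
          have e4 := D.posR 4 (by omega) (by omega) (by omega)
          rw [← hM0] at e4
          rw [← D.P0, ← e4, ← n3] at z2
          rcases Nat.eq_or_lt_of_le (show M0 + 1 ≤ m by omega) with h1 | h1
          · rw [h1] at z2
            simp at z2
          · have := D.frame.srt (M0 + 1) m (by omega) h1 (by omega)
            linarith
      have hc1 : T.card ≤ (J.filter (fun j => j ≤ M0)).card :=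
        (Finset.card_le_card hsub).trans Finset.card_image_le
      have hc2 : (J.filter (fun j => j ≤ M0)).card ≤ J.card :=
        Finset.card_le_card (Finset.filter_subset _ _)
      by_contra hcon
      have hr2 : r = 2 := by omega
      subst hr2
      have heq : J.filter (fun j => j ≤ M0) = J :=
        Finset.eq_of_subset_of_card_le (Finset.filter_subset _ _) (by omega)
      refine no12_u W hh hM hI D ?_
      intro x x1 x2
      by_contra hx
      have hxJ : x ∈ J := by
        rw [hJ, Finset.mem_filter, Finset.mem_Icc]
        exact ⟨⟨by omega, x2⟩, hx⟩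
      rw [← heq, Finset.mem_filter] at hxJ
      omega

end Geo

end Pool.Agent.GCP
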