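import Pool.Agent.GCP.WinTwo

/-!
# Tables of two line windows over five and six hull edges
-/

namespace Pool.Agent.GCP

namespace Geo

variable {X : Finset Pt} {h : ℕ} {p a c : ZMod h → Pt}

lemma sh_add (i : ZMod h) (s t : ℕ) :
    i + ((s + t : ℕ) : ZMod h) = i + (s : ZMod h) + (t : ZMod h) := by
  rw [Nat.cast_add, add_assoc]

lemma c2 (W : RingS0 X h p a c) (i : ZMod h) (s : ℕ) :
    nr X (p (i + (s : ZMod h))) (p (i + ((s + 2 : ℕ) : ZMod h))) = 3 := by
  rw [sh_add, Nat.cast_ofNat]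
  exact nr_two W _

lemma c3 (W : RingS0 X h p a c) (i : ZMod h) (s : ℕ) :
    nr X (p (i + (s : ZMod h))) (p (i + ((s + 3 : ℕ) : ZMod h))) = 6 := by
  rw [sh_add, Nat.cast_ofNat]
  exact nr_three W _

lemma c1 (W : RingS0 X h p a c) (i : ZMod h) (s : ℕ) :
    nr X (p (i + (s : ZMod h))) (p (i + ((s + 1 : ℕ) : ZMod h))) = 0 := by
  rw [sh_add, Nat.cast_one]
  exact nr_succ W _

lemma z1 (W : RingS0 X h p a c) (i : ZMod h) :
    nr X (p i) (p (i + ((1 : ℕ) : ZMod h))) = 0 := by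
  rw [Nat.cast_one]
  exact nr_succ W _

lemma z2 (W : RingS0 X h p a c) (i : ZMod h) :
    nr X (p i) (p (i + ((2 : ℕ) : ZMod h))) = 3 := by
  rw [Nat.cast_ofNat]
  exact nr_two W _

lemma z3 (W : RingS0 X h p a c) (i : ZMod h) :
    nr X (p i) (p (i + ((3 : ℕ) : ZMod h))) = 6 := by
  rw [Nat.cast_ofNat]
  exact nr_three W _

/-- The labels of five edges. -/
def lab5 (M0 V : ℕ) : ℕ → ℕ
  | 0 => 0
  | 1 => 1
  | 2 => 4
  | 3 => 7
  | 4 => M0 + 1
  | _ => V

/-- The labels of six edges. -/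
def lab6 (M0 q V : ℕ) : ℕ → ℕ
  | 0 => 0
  | 1 => 1
  | 2 => 4
  | 3 => 7
  | 4 => M0 + 1
  | 5 => q
  | _ => V

/-- Tables for five edges. -/
def pd5 (N r M0 lo hi : ℕ) (ex : List (ℕ × ℕ × ℕ)) : PD :=
  ⟨N + r + 2, [N + 1], true, true, M0 + 1, [(1, 4), (4, 7), (7, M0 + 1), (M0 + 1, N + r + 2)],
    [(2, 0, 1), (3, 1, 4)],
    (List.range r).map (fun j => (N + r + 2, N + 1, N + 2 + j)) ++ ex,
    [(1, 7, 3), (4, M0 + 1, 3), (7, N + r + 2, 3), (1, M0 + 1, 6), (4, N + r + 2, 6),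
      (1, N + r + 2, hi), (N + 1, N + r + 2, N)],
    [(1, 7, 3), (4, M0 + 1, 3), (7, N + r + 2, 3), (1, M0 + 1, 6), (4, N + r + 2, 6),
      (1, N + r + 2, lo), (N + 1, N + r + 2, N)],
    [(4, 7), (7, M0 + 1), (M0 + 1, N + r + 2)]⟩

/-- Tables for six edges. -/
def pd6 (N r M0 q : ℕ) (u l : List (ℕ × ℕ × ℕ)) (ex : List (ℕ × ℕ × ℕ)) : PD :=
  ⟨N + r + 2, [N + 1], true, true, q,
    [(1, 4), (4, 7), (7, M0 + 1), (M0 + 1, q), (q, N + r + 2)],
    [(2, 0, 1), (3, 1, 4)],
    (List.range r).map (fun j => (N + r + 2, N + 1, N + 2 + j)) ++ ex,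
    [(1, 7, 3), (4, M0 + 1, 3), (7, q, 3), (M0 + 1, N + r + 2, 3), (1, M0 + 1, 6), (4, q, 6),
      (7, N + r + 2, 6)] ++ u ++ [(N + 1, N + r + 2, N)],
    [(1, 7, 3), (4, M0 + 1, 3), (7, q, 3), (M0 + 1, N + r + 2, 3), (1, M0 + 1, 6), (4, q, 6),
      (7, N + r + 2, 6)] ++ l ++ [(N + 1, N + r + 2, N)],
    [(4, 7), (7, M0 + 1), (M0 + 1, q), (q, N + r + 2)]⟩

section
variable {i : ZMod h} {N r : ℕ} {P : ℕ → Pt}

theorem patch5 (W : RingS0 X h p a c) (hh : 5 < h) (D : TwoK X p a i 5 N N r P) (hN : 11 ≤ N)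
    {M0 lo hi : ℕ} (h0 : nr X (p i) (p (i + ((4 : ℕ) : ZMod h))) = M0) (h0' : M0 ≤ 10)
    (h1 : lo ≤ nr X (p (i + ((1 : ℕ) : ZMod h))) (p (i + ((5 : ℕ) : ZMod h))))
    (h2 : nr X (p (i + ((1 : ℕ) : ZMod h))) (p (i + ((5 : ℕ) : ZMod h))) ≤ hi)
    (h3 : nr X (p (i + ((1 : ℕ) : ZMod h))) (p (i + ((5 : ℕ) : ZMod h))) ≤ 10)
    {ex : List (ℕ × ℕ × ℕ)} (hex : ∀ f ∈ ex, 0 < orient (P f.1) (P f.2.1) (P f.2.2)) :
    Patch (pd5 N r M0 lo hi ex) P X := by
  have c13 : nr X (p (i + ((1 : ℕ) : ZMod h))) (p (i + ((3 : ℕ) : ZMod h))) = 3 := c2 W i 1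
  have c24 : nr X (p (i + ((2 : ℕ) : ZMod h))) (p (i + ((4 : ℕ) : ZMod h))) = 3 := c2 W i 2
  have c35 : nr X (p (i + ((3 : ℕ) : ZMod h))) (p (i + ((5 : ℕ) : ZMod h))) = 3 := c2 W i 3
  have c14 : nr X (p (i + ((1 : ℕ) : ZMod h))) (p (i + ((4 : ℕ) : ZMod h))) = 6 := c3 W i 1
  have c25 : nr X (p (i + ((2 : ℕ) : ZMod h))) (p (i + ((5 : ℕ) : ZMod h))) = 6 := c3 W i 2
  have c02 : nr X (p i) (p (i + ((2 : ℕ) : ZMod h))) = 3 := z2 W i
  have c03 : nr X (p i) (p (i + ((3 : ℕ) : ZMod h))) = 6 := z3 W i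
  have c01 : nr X (p i) (p (i + ((1 : ℕ) : ZMod h))) = 0 := z1 W i
  have c45 : nr X (p (i + ((4 : ℕ) : ZMod h))) (p (i + ((5 : ℕ) : ZMod h))) = 0 := c1 W i 4
  have hl : LabOK p i 5 N r P (lab5 M0 (N + r + 2)) := by
    refine ⟨?_, ?_, ?_⟩
    · intro j hj
      interval_cases j <;> simp only [lab5] <;> omega
    · intro j hj
      interval_cases j <;> simp only [lab5] <;> omega
    · intro j hj
      have e4 := D.posR 4 (by omega) (by omega) (by omega)
      rw [h0] at e4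
      interval_cases j <;> simp only [lab5]
      · rw [D.P0, Nat.cast_zero, add_zero]
      · rw [D.P1, Nat.cast_one]
      · rw [D.P4]; norm_num
      · rw [D.P7]; norm_num
      · exact e4
      · exact D.PV
  have hF : ∀ s t : ℕ, s < t → t ≤ 5 → (nr X (p i) (p (i + (t : ZMod h))) ≤ N ∨
      nr X (p (i + (s : ZMod h))) (p (i + ((5 : ℕ) : ZMod h))) ≤ N) →
      (FF N r P (P (lab5 M0 (N + r + 2) s)) (P (lab5 M0 (N + r + 2) t))).card =
        nr X (p (i + (s : ZMod h))) (p (i + (t : ZMod h))) := by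
    intro s t hst ht hc
    rw [hl.eq s (by omega), hl.eq t ht]
    refine FF_chord W D hh hst ht ?_
    rcases hc with hc | hc
    · exact Or.inl hc
    · exact Or.inr (Or.inl hc)
  have f13 := hF 1 3 (by omega) (by omega) (Or.inl (by omega))
  have f24 := hF 2 4 (by omega) (by omega) (Or.inl (by omega))
  have f35 := hF 3 5 (by omega) (by omega) (Or.inr (by omega))
  have f14 := hF 1 4 (by omega) (by omega) (Or.inl (by omega))
  have f25 := hF 2 5 (by omega) (by omega) (Or.inr (by omega))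
  have f15 := hF 1 5 (by omega) (by omega) (Or.inr (by omega))
  have fV := FF_V D
  simp only [lab5] at f13 f24 f35 f14 f25 f15
  refine patch_of W D (by omega) hh (by omega) hl ?_ ?_ ?_ ⟨rfl, rfl, rfl, rfl, rfl, ?_, ?_, ?_,
    ?_, ?_, ?_⟩
  · intro j hj1 hj2
    interval_cases j <;> omega
  · intro j hj1 hj2
    have hj3 : j < 4 := by omega
    interval_cases j <;> omega
  · intro j hj1 hj2
    interval_cases j
    · left
      change nr X (p i) (p (i + ((3 : ℕ) : ZMod h))) ≤ N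
      omega
    · left
      change nr X (p i) (p (i + ((4 : ℕ) : ZMod h))) ≤ N
      omega
    · right
      change nr X (p (i + ((3 : ℕ) : ZMod h))) (p (i + ((5 : ℕ) : ZMod h))) ≤ N
      omega
  · intro f hf
    simp only [pd5, List.mem_cons, List.not_mem_nil, or_false] at hf
    rcases hf with rfl | rfl | rfl | rfl
    · exact ⟨1, by omega, by omega, rfl⟩
    · exact ⟨2, by omega, by omega, rfl⟩
    · exact ⟨3, by omega, by omega, rfl⟩
    · exact ⟨4, by omega, by omega, rfl⟩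
  · intro f hf
    simp only [pd5, List.mem_cons, List.not_mem_nil, or_false] at hf
    exact hf
  · intro f hf
    simp only [pd5, List.mem_append, List.mem_map, List.mem_range] at hf
    rcases hf with ⟨j, hj, rfl⟩ | hf
    · have := D.nearL (N + 2 + j) (by omega) (by omega)
      simp only
      rw [orient_swap]
      linarith
    · exact hex f hf
  · intro f hf
    simp only [pd5, List.mem_cons, List.not_mem_nil, or_false] at hf
    rcases hf with rfl | rfl | rfl | rfl | rfl | rfl | rfl <;> simp only <;> omega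
  · intro f hf
    simp only [pd5, List.mem_cons, List.not_mem_nil, or_false] at hf
    rcases hf with rfl | rfl | rfl | rfl | rfl | rfl | rfl <;> simp only <;> omega
  · intro f hf
    simp only [pd5, List.mem_cons, List.not_mem_nil, or_false] at hf
    rcases hf with rfl | rfl | rfl
    · exact ⟨2, by omega, by omega, rfl⟩
    · exact ⟨3, by omega, by omega, rfl⟩
    · exact ⟨4, by omega, by omega, rfl⟩

theorem patch6 (W : RingS0 X h p a c) (hh : 6 < h) (D : TwoK X p a i 6 N N r P) (hN : 11 ≤ N)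
    {M0 q : ℕ} (h0 : nr X (p i) (p (i + ((4 : ℕ) : ZMod h))) = M0) (h0' : M0 ≤ 10)
    (hq1 : q < N + r + 3) (hq2 : q ≠ N + 1) (hq3 : P q = p (i + ((5 : ℕ) : ZMod h)))
    (h3 : nr X (p (i + ((2 : ℕ) : ZMod h))) (p (i + ((6 : ℕ) : ZMod h))) ≤ 10)
    {u l ex : List (ℕ × ℕ × ℕ)}
    (hu : ∀ f ∈ u, (FF N r P (P f.1) (P f.2.1)).card ≤ f.2.2)
    (hlb : ∀ f ∈ l, f.2.2 ≤ (FF N r P (P f.1) (P f.2.1)).card)
    (hex : ∀ f ∈ ex, 0 < orient (P f.1) (P f.2.1) (P f.2.2)) :
    Patch (pd6 N r M0 q u l ex) P X := by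
  have c13 : nr X (p (i + ((1 : ℕ) : ZMod h))) (p (i + ((3 : ℕ) : ZMod h))) = 3 := c2 W i 1
  have c24 : nr X (p (i + ((2 : ℕ) : ZMod h))) (p (i + ((4 : ℕ) : ZMod h))) = 3 := c2 W i 2
  have c35 : nr X (p (i + ((3 : ℕ) : ZMod h))) (p (i + ((5 : ℕ) : ZMod h))) = 3 := c2 W i 3
  have c46 : nr X (p (i + ((4 : ℕ) : ZMod h))) (p (i + ((6 : ℕ) : ZMod h))) = 3 := c2 W i 4
  have c14 : nr X (p (i + ((1 : ℕ) : ZMod h))) (p (i + ((4 : ℕ) : ZMod h))) = 6 := c3 W i 1
  have c25 : nr X (p (i + ((2 : ℕ) : ZMod h))) (p (i + ((5 : ℕ) : ZMod h))) = 6 := c3 W i 2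
  have c36 : nr X (p (i + ((3 : ℕ) : ZMod h))) (p (i + ((6 : ℕ) : ZMod h))) = 6 := c3 W i 3
  have c02 : nr X (p i) (p (i + ((2 : ℕ) : ZMod h))) = 3 := z2 W i
  have c03 : nr X (p i) (p (i + ((3 : ℕ) : ZMod h))) = 6 := z3 W i
  have c01 : nr X (p i) (p (i + ((1 : ℕ) : ZMod h))) = 0 := z1 W i
  have c56 : nr X (p (i + ((5 : ℕ) : ZMod h))) (p (i + ((6 : ℕ) : ZMod h))) = 0 := c1 W i 5
  have hl : LabOK p i 6 N r P (lab6 M0 q (N + r + 2)) := by
    refine ⟨?_, ?_, ?_⟩
    · intro j hj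
      interval_cases j <;> simp only [lab6] <;> omega
    · intro j hj
      interval_cases j <;> simp only [lab6] <;> omega
    · intro j hj
      have e4 := D.posR 4 (by omega) (by omega) (by omega)
      rw [h0] at e4
      interval_cases j <;> simp only [lab6]
      · rw [D.P0, Nat.cast_zero, add_zero]
      · rw [D.P1, Nat.cast_one]
      · rw [D.P4]; norm_num
      · rw [D.P7]; norm_num
      · exact e4
      · exact hq3
      · exact D.PV
  have hF : ∀ s t : ℕ, s < t → t ≤ 6 → (nr X (p i) (p (i + (t : ZMod h))) ≤ N ∨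
      nr X (p (i + (s : ZMod h))) (p (i + ((6 : ℕ) : ZMod h))) ≤ N) →
      (FF N r P (P (lab6 M0 q (N + r + 2) s)) (P (lab6 M0 q (N + r + 2) t))).card =
        nr X (p (i + (s : ZMod h))) (p (i + (t : ZMod h))) := by
    intro s t hst ht hc
    rw [hl.eq s (by omega), hl.eq t ht]
    refine FF_chord W D hh hst ht ?_
    rcases hc with hc | hc
    · exact Or.inl hc
    · exact Or.inr (Or.inl hc)
  have f13 := hF 1 3 (by omega) (by omega) (Or.inl (by omega))
  have f24 := hF 2 4 (by omega) (by omega) (Or.inl (by omega))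
  have f35 := hF 3 5 (by omega) (by omega) (Or.inr (by omega))
  have f46 := hF 4 6 (by omega) (by omega) (Or.inr (by omega))
  have f14 := hF 1 4 (by omega) (by omega) (Or.inl (by omega))
  have f25 := hF 2 5 (by omega) (by omega) (Or.inr (by omega))
  have f36 := hF 3 6 (by omega) (by omega) (Or.inr (by omega))
  have fV := FF_V D
  simp only [lab6] at f13 f24 f35 f46 f14 f25 f36
  refine patch_of W D (by omega) hh (by omega) hl ?_ ?_ ?_ ⟨rfl, rfl, rfl, rfl, rfl, ?_, ?_, ?_,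
    ?_, ?_, ?_⟩
  · intro j hj1 hj2
    interval_cases j <;> omega
  · intro j hj1 hj2
    have hj3 : j < 5 := by omega
    interval_cases j <;> omega
  · intro j hj1 hj2
    interval_cases j
    · left
      change nr X (p i) (p (i + ((3 : ℕ) : ZMod h))) ≤ N
      omega
    · left
      change nr X (p i) (p (i + ((4 : ℕ) : ZMod h))) ≤ N
      omega
    · right
      change nr X (p (i + ((3 : ℕ) : ZMod h))) (p (i + ((6 : ℕ) : ZMod h))) ≤ N
      omega
    · right
      change nr X (p (i + ((4 : ℕ) : ZMod h))) (p (i + ((6 : ℕ) : ZMod h))) ≤ N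
      omega
  · intro f hf
    simp only [pd6, List.mem_cons, List.not_mem_nil, or_false] at hf
    rcases hf with rfl | rfl | rfl | rfl | rfl
    · exact ⟨1, by omega, by omega, rfl⟩
    · exact ⟨2, by omega, by omega, rfl⟩
    · exact ⟨3, by omega, by omega, rfl⟩
    · exact ⟨4, by omega, by omega, rfl⟩
    · exact ⟨5, by omega, by omega, rfl⟩
  · intro f hf
    simp only [pd6, List.mem_cons, List.not_mem_nil, or_false] at hf
    exact hf
  · intro f hf
    simp only [pd6, List.mem_append, List.mem_map, List.mem_range] at hf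
    rcases hf with ⟨j, hj, rfl⟩ | hf
    · have := D.nearL (N + 2 + j) (by omega) (by omega)
      simp only
      rw [orient_swap]
      linarith
    · exact hex f hf
  · intro f hf
    simp only [pd6, List.mem_append, List.mem_cons, List.not_mem_nil, or_false] at hf
    rcases hf with ((rfl | rfl | rfl | rfl | rfl | rfl | rfl) | hf) | rfl
    · simp only; omega
    · simp only; omega
    · simp only; omega
    · simp only; omega
    · simp only; omega
    · simp only; omega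
    · simp only; omega
    · exact hu f hf
    · simp only; omega
  · intro f hf
    simp only [pd6, List.mem_append, List.mem_cons, List.not_mem_nil, or_false] at hf
    rcases hf with ((rfl | rfl | rfl | rfl | rfl | rfl | rfl) | hf) | rfl
    · simp only; omega
    · simp only; omega
    · simp only; omega
    · simp only; omega
    · simp only; omega
    · simp only; omega
    · simp only; omega
    · exact hlb f hf
    · simp only; omega
  · intro f hf
    simp only [pd6, List.mem_cons, List.not_mem_nil, or_false] at hf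
    rcases hf with rfl | rfl | rfl | rfl
    · exact ⟨2, by omega, by omega, rfl⟩
    · exact ⟨3, by omega, by omega, rfl⟩
    · exact ⟨4, by omega, by omega, rfl⟩
    · exact ⟨5, by omega, by omega, rfl⟩

end

end Geo

end Pool.Agent.GCP
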