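import Pool.Agent.GCP.WinRank

/-!
# The two sides of a two line window are given by the ranks
-/

namespace Pool.Agent.GCP

namespace Geo

variable {X : Finset Pt} {h : ℕ} {p a c : ZMod h → Pt}

section
variable {i : ZMod h} {k N N2 r : ℕ} {P : ℕ → Pt}

lemma TwoK.cardR (D : TwoK X p a i k N N2 r P) :
    (X.filter (fun z => orient (P 0) (P (N + 1)) z < 0)).card = N := by
  classical
  have h1 : X.filter (fun z => orient (P 0) (P (N + 1)) z < 0) = (Finset.Icc 1 N).image P := by
    ext z
    rw [Finset.mem_filter, Finset.mem_image]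
    constructor
    · rintro ⟨z1, z2⟩
      obtain ⟨m, m1, m2, m3⟩ := D.nameR z z1 z2
      exact ⟨m, Finset.mem_Icc.2 ⟨m1, m2⟩, m3⟩
    · rintro ⟨m, m1, rfl⟩
      rw [Finset.mem_Icc] at m1
      refine ⟨D.mem m (by omega) (by omega), ?_⟩
      have := D.frame.srt m (N + 1) m1.1 (by omega) (by omega)
      rw [orient_swap']
      linarith
  rw [h1, Finset.card_image_of_injOn, Nat.card_Icc]
  · omega
  · intro x hx y hy hxy
    rw [Finset.mem_coe, Finset.mem_Icc] at hx hy
    by_contra hne
    exact D.frame.inj x y (by omega) (by omega) hne hxy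

lemma TwoK.cardLX (D : TwoK X p a i k N N2 r P) :
    (X.filter (fun z => orient (P (N + 1)) (P (N + r + 2)) z < 0)).card = N2 := by
  classical
  rw [← FF_V D]
  have h1 : X.filter (fun z => orient (P (N + 1)) (P (N + r + 2)) z < 0) =
      (FF N r P (P (N + 1)) (P (N + r + 2))).image P := by
    ext z
    rw [Finset.mem_filter, Finset.mem_image]
    constructor
    · rintro ⟨z1, z2⟩
      obtain ⟨m, m1, m2, m3, m4⟩ := D.nameL z z1 z2
      refine ⟨m, ?_, m4⟩
      rw [FF, Finset.mem_filter, Finset.mem_range, m4]
      exact ⟨by omega, m3, z2⟩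
    · rintro ⟨m, m1, rfl⟩
      rw [FF, Finset.mem_filter, Finset.mem_range] at m1
      exact ⟨D.mem m m1.1 m1.2.1, m1.2.2⟩
  rw [h1, Finset.card_image_of_injOn]
  intro x hx y hy hxy
  have hx' := (Finset.mem_filter.1 (Finset.mem_coe.1 hx)).1
  have hy' := (Finset.mem_filter.1 (Finset.mem_coe.1 hy)).1
  rw [Finset.mem_range] at hx' hy'
  by_contra hne
  exact D.frame.inj x y hx' hy' hne hxy

/-- The near points of the first line are the points of small rank. -/
theorem TwoK.R_iff (W : RingS0 X h p a c) (D : TwoK X p a i k N N2 r P) (hN : 1 ≤ N)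
    {z : Pt} (hz : z ∈ X) :
    orient (P 0) (P (N + 1)) z < 0 ↔ z ≠ p i ∧ nr X (p i) z < N := by
  classical
  have P0 := D.P0
  have eo : 0 < orient (p i) (p (i + 1)) (P (N + 1)) := by
    rw [← D.P0, ← D.P1]
    exact D.frame.srt 1 (N + 1) (by omega) (by omega) (by omega)
  have hcard := D.cardR
  rw [P0] at hcard ⊢
  constructor
  · intro hneg
    have hzq : z ≠ p i := by rintro rfl; simp at hneg
    refine ⟨hzq, ?_⟩
    rw [← hcard]
    apply Finset.card_lt_card
    rw [Finset.ssubset_iff_of_subset]
    · refine ⟨z, Finset.mem_filter.2 ⟨hz, hneg⟩, ?_⟩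
      intro hc
      have := (Finset.mem_filter.1 hc).2
      simp at this
    · intro u hu
      obtain ⟨u1, u2⟩ := Finset.mem_filter.1 hu
      refine Finset.mem_filter.2 ⟨u1, ?_⟩
      have hze : z ≠ p (i + 1) := by
        rintro rfl
        have := hull_e W i u1
        linarith
      have := ang_pos (o := p i) (e := p (i + 1)) (u := u) (v := z) (w := P (N + 1))
        (W.hull i z hz hzq hze) (hull_e W i u1) (by rw [orient_swap']; linarith) eo
        (by rw [orient_swap']; linarith)
      rw [orient_swap']
      linarith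
  · rintro ⟨hzq, hlt⟩
    by_contra hneg
    rw [not_lt] at hneg
    have hne : orient (p i) z (P (N + 1)) ≠ 0 := D.gen _ (W.pX i) _ hz hzq.symm
    have hpos : 0 < orient (p i) (P (N + 1)) z := by
      refine lt_of_le_of_ne hneg ?_
      intro h0
      apply hne
      rw [orient_swap', ← h0, neg_zero]
    have hze : z ≠ p (i + 1) := by
      rintro rfl
      rw [orient_swap'] at hpos
      linarith
    have hez := W.hull i z hz hzq hze
    have : N ≤ nr X (p i) z := by
      rw [← hcard]
      apply Finset.card_le_card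
      intro u hu
      obtain ⟨u1, u2⟩ := Finset.mem_filter.1 hu
      refine Finset.mem_filter.2 ⟨u1, ?_⟩
      have := ang_pos (o := p i) (e := p (i + 1)) (u := u) (v := P (N + 1)) (w := z)
        eo (hull_e W i u1) hpos.le hez (by rw [orient_swap']; linarith)
      rw [orient_swap']
      linarith
    omega

/-- The near points of the second line are the points of small rank. -/
theorem TwoK.L_iff (W : RingS0 X h p a c) (D : TwoK X p a i k N N2 r P) (hk : 1 ≤ k)
    (hN2 : 1 ≤ N2) {z : Pt} (hz : z ∈ X) :
    orient (P (N + 1)) (P (N + r + 2)) z < 0 ↔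
      z ≠ p (i + (k : ZMod h)) ∧ nr X z (p (i + (k : ZMod h))) < N2 := by
  classical
  have PV := D.PV
  set q := p (i + (k : ZMod h)) with hq
  have ekk : i + ((k - 1 : ℕ) : ZMod h) + 1 = i + (k : ZMod h) := by
    rw [Nat.cast_sub hk, Nat.cast_one]; ring
  set f := p (i + ((k - 1 : ℕ) : ZMod h)) with hf
  have hfX : f ∈ X := W.pX _
  have fz : ∀ z ∈ X, 0 ≤ orient q z f := by
    intro z hz
    have := hull_e W (i + ((k - 1 : ℕ) : ZMod h)) hz
    rw [ekk] at this
    rw [orient_cyc]
    exact this
  have fzs : ∀ z ∈ X, z ≠ q → z ≠ f → 0 < orient q z f := by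
    intro z hz h1 h2
    have := W.hull (i + ((k - 1 : ℕ) : ZMod h)) z hz h2 (by rw [ekk]; exact h1)
    rw [ekk] at this
    rw [orient_cyc]
    exact this
  have fo : 0 < orient q (P (N + 1)) f := by
    have := D.inV
    rw [PV] at this
    rw [orient_cyc]
    exact this
  -- angular order seen from `q`, with the last direction `f`
  have ang : ∀ u v w : Pt, 0 < orient q v f → 0 < orient q u f → 0 ≤ orient q w f →
      0 < orient q v w → 0 < orient q u v → 0 < orient q u w := by
    intro u v w h1 h2 h3 h4 h5
    have e : orient q v f * orient q u w = orient q u f * orient q v w +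
        orient q w f * orient q u v := by unfold orient; ring
    have h6 : 0 < orient q v f * orient q u w := by
      rw [e]
      have e1 := mul_pos h2 h4
      have e2 := mul_nonneg h3 h5.le
      linarith
    exact (mul_pos_iff_of_pos_left h1).1 h6
  have hcard := D.cardLX
  rw [PV] at hcard ⊢
  constructor
  · intro hneg
    have hzq : z ≠ q := by rintro rfl; simp at hneg
    have hoz : 0 < orient q (P (N + 1)) z := by rw [orient_swap]; linarith
    refine ⟨hzq, ?_⟩
    rw [← hcard]
    apply Finset.card_lt_card
    rw [Finset.ssubset_iff_of_subset]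
    · refine ⟨z, Finset.mem_filter.2 ⟨hz, hneg⟩, ?_⟩
      intro hc
      have := (Finset.mem_filter.1 hc).2
      simp at this
    · intro u hu
      obtain ⟨u1, u2⟩ := Finset.mem_filter.1 hu
      refine Finset.mem_filter.2 ⟨u1, ?_⟩
      have hzu : 0 < orient q z u := by rw [orient_swap]; linarith
      have hzf : z ≠ f := by
        rintro rfl
        have := fz u u1
        rw [orient_swap'] at this
        linarith
      have := ang (P (N + 1)) z u (fzs z hz hzq hzf) fo (fz u u1) hzu hoz
      rw [orient_swap]
      linarith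
  · rintro ⟨hzq, hlt⟩
    by_contra hneg
    rw [not_lt] at hneg
    have hne : orient q z (P (N + 1)) ≠ 0 := D.gen _ (W.pX _) _ hz (Ne.symm hzq)
    have hpos : 0 < orient q z (P (N + 1)) := by
      refine lt_of_le_of_ne ?_ (Ne.symm hne)
      rw [orient_swap', orient_swap]
      linarith
    -- `f` is near
    have hfn : orient (P (N + 1)) q f < 0 := by
      have e := orient_swap q (P (N + 1)) f
      linarith
    have hzf : z ≠ f := by
      intro e0
      have e := orient_swap' q z (P (N + 1))
      rw [e0] at e hpos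
      linarith
    have : N2 ≤ nr X z q := by
      rw [← hcard]
      apply Finset.card_le_card
      intro u hu
      obtain ⟨u1, u2⟩ := Finset.mem_filter.1 hu
      refine Finset.mem_filter.2 ⟨u1, ?_⟩
      have hou : 0 < orient q (P (N + 1)) u := by rw [orient_swap]; linarith
      have := ang z (P (N + 1)) u fo (fzs z hz hzq hzf) (fz u u1) hou hpos
      rw [orient_swap]
      linarith
    omega

/-- The number of the points common to both sides. -/
theorem TwoK.MI_card (W : RingS0 X h p a c) (D : TwoK X p a i k N N r P) (hk : 1 ≤ k)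
    (hN : 1 ≤ N) : (MI X (p i) (p (i + (k : ZMod h))) N).card + r = N := by
  classical
  have hcl := D.cardL
  have h1 : MI X (p i) (p (i + (k : ZMod h))) N =
      ((Finset.range (N + 1)).filter
        (fun j => orient (P (N + 1)) (P (N + r + 2)) (P j) < 0)).image P := by
    ext z
    rw [mem_MI, Finset.mem_image]
    constructor
    · rintro ⟨z1, z2, z3, z4, z5⟩
      have hR := (D.R_iff W hN z1).2 ⟨z2, z4⟩
      have hL := (D.L_iff W hk hN z1).2 ⟨z3, z5⟩
      obtain ⟨m, m1, m2, m3⟩ := D.nameR z z1 hR
      refine ⟨m, ?_, m3⟩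
      rw [Finset.mem_filter, Finset.mem_range, m3]
      exact ⟨by omega, hL⟩
    · rintro ⟨m, hm, rfl⟩
      rw [Finset.mem_filter, Finset.mem_range] at hm
      obtain ⟨m1, m2⟩ := hm
      have hmX : P m ∈ X := D.mem m (by omega) (by omega)
      have hm0 : m ≠ 0 := by
        rintro rfl
        have := D.frame.srt (N + 1) (N + r + 2) (by omega) (by omega) (by omega)
        rw [orient_cyc, orient_cyc] at this
        linarith
      have hR : orient (P 0) (P (N + 1)) (P m) < 0 := by
        have := D.frame.srt m (N + 1) (by omega) m1 (by omega)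
        rw [orient_swap']
        linarith
      obtain ⟨a1, a2⟩ := (D.R_iff W hN hmX).1 hR
      obtain ⟨b1, b2⟩ := (D.L_iff W hk hN hmX).1 m2
      exact ⟨hmX, a1, b1, a2, b2⟩
  rw [h1, Finset.card_image_of_injOn]
  · convert hcl
  · intro x hx y hy hxy
    have hx' := (Finset.mem_filter.1 (Finset.mem_coe.1 hx)).1
    have hy' := (Finset.mem_filter.1 (Finset.mem_coe.1 hy)).1
    rw [Finset.mem_range] at hx' hy'
    by_contra hne
    exact D.frame.inj x y (by omega) (by omega) hne hxy

end

end Geo

end Pool.Agent.GCP
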