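import Pool.Agent.GCP.X11B0

set_option autoImplicit false

/-! # Assembly X11All (generated) -/

namespace Pool.Agent.GCP.X11

open Pool.Agent.GCP

theorem a0 : B 0 64 := b0
theorem a1 : B 0 128 := a0.trans b1
theorem a2 : B 0 192 := a1.trans b2
theorem a3 : B 0 256 := a2.trans b3
theorem a4 : B 0 320 := a3.trans b4
theorem a5 : B 0 384 := a4.trans b5
theorem a6 : B 0 448 := a5.trans b6
theorem a7 : B 0 512 := a6.trans b7
theorem a8 : B 0 576 := a7.trans b8
theorem a9 : B 0 640 := a8.trans b9
theorem a10 : B 0 704 := a9.trans b10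
theorem a11 : B 0 768 := a10.trans b11
theorem a12 : B 0 832 := a11.trans b12
theorem a13 : B 0 896 := a12.trans b13
theorem a14 : B 0 960 := a13.trans b14
theorem a15 : B 0 1024 := a14.trans b15
theorem a16 : B 0 1088 := a15.trans b16
theorem a17 : B 0 1152 := a16.trans b17
theorem a18 : B 0 1216 := a17.trans b18
theorem a19 : B 0 1236 := a18.trans b19

theorem all : B 0 1236 := a19

end Pool.Agent.GCP.X11
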